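import Pool.Agent.Strip051.G.I6500_6900.CrnT
import Pool.Agent.Strip051.G.I6500_6900.DG_0
import Pool.Agent.Strip051.G.I6500_6900.DW_0

/-! # The corner (1, 1, 2), both vertices: the alternatives (generated) -/

set_option linter.all false

namespace Pool.Agent.Strip051.G.I6500_6900.Tab

open Pool.Agent.Strip051.PB Pool.Agent.StripNear Pool.Agent.Strip051.LC

theorem sG_A113_000p {x : ℝ} (hx : ((697932185 : ℕ) : ℝ) / S ≤ x) (hx' : x ≤ (((697932185 : ℕ) : ℝ) + (42949674 : ℕ)) / S) :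
    Sg12A PP tK tL true 0 .nn 1 1 0 0 true 0 67108864 16777216 x :=
  sg12A_of (P := PP) (RK := tK) (RL := tL) (Gt := gB) (pc := pcB) (KA := 4) (C0 := c0B) rfl trivial (Or.inl rfl) (Or.inl rfl) (sideB hx hx') gokB (g3okB hx hx') (xr0 hx hx').1 (xr0 hx hx').2 (div_S_le (k := 8) (by norm_num) (by norm_num)) ((gatB01 x).n1) ((gatB01 x).n1) (gatB03 hx hx' _) (gatB13 hx hx') EG.A113_000p ⟨by decide, by decide⟩ hx hx' (fun h => absurd h (by decide))

theorem sW_A113_000p {x : ℝ} (hx : ((697932185 : ℕ) : ℝ) / S ≤ x) (hx' : x ≤ (((697932185 : ℕ) : ℝ) + (42949674 : ℕ)) / S) :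
    Sg12AW PP tK tL tU 3 (eng.v x) (mog.v x) .nn 1 1 0 0 true 0 67108864 16777216 x :=
  sg12AW_of (P := PP) (RK := tK) (RL := tL) (RC := tU) (Gt := gB) (Dt := dB) (pc := pcB) (KA := 4) (N0 := 3) (C0 := c0B) (En := eng) (mo := mog) rfl trivial (Or.inl rfl) (Or.inl rfl) (sideB hx hx') gokB (pinU hx hx') dokB (g3cB hx hx') (g3okB hx hx') (xr0 hx hx').1 (xr0 hx hx').2 (div_S_le (k := 8) (by norm_num) (by norm_num)) ((gatB01 x).n1) ((gatB01 x).n1) (gatB03 hx hx' _) (gatB13 hx hx') ((datB01 x).n1) ((datB01 x).n1) (datB03 hx hx' _) (datB13 hx hx') EW.A113_000p ⟨by decide, by decide⟩ hx hx' (fun h => absurd h (by decide))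

theorem sG_A113_000m {x : ℝ} (hx : ((697932185 : ℕ) : ℝ) / S ≤ x) (hx' : x ≤ (((697932185 : ℕ) : ℝ) + (42949674 : ℕ)) / S) :
    Sg12A PP tK tL true 0 .nn 1 1 0 0 false 0 67108864 16777216 x :=
  sg12A_of (P := PP) (RK := tK) (RL := tL) (Gt := gB) (pc := pcB) (KA := 4) (C0 := c0B) rfl trivial (Or.inl rfl) (Or.inl rfl) (sideB hx hx') gokB (g3okB hx hx') (xr0 hx hx').1 (xr0 hx hx').2 (div_S_le (k := 8) (by norm_num) (by norm_num)) ((gatB01 x).n1) ((gatB01 x).n1) (gatB03 hx hx' _) (gatB13 hx hx') EG.A113_000m ⟨by decide, by decide⟩ hx hx' (fun h => absurd h (by decide))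

theorem sW_A113_000m {x : ℝ} (hx : ((697932185 : ℕ) : ℝ) / S ≤ x) (hx' : x ≤ (((697932185 : ℕ) : ℝ) + (42949674 : ℕ)) / S) :
    Sg12AW PP tK tL tU 3 (eng.v x) (mog.v x) .nn 1 1 0 0 false 0 67108864 16777216 x :=
  sg12AW_of (P := PP) (RK := tK) (RL := tL) (RC := tU) (Gt := gB) (Dt := dB) (pc := pcB) (KA := 4) (N0 := 3) (C0 := c0B) (En := eng) (mo := mog) rfl trivial (Or.inl rfl) (Or.inl rfl) (sideB hx hx') gokB (pinU hx hx') dokB (g3cB hx hx') (g3okB hx hx') (xr0 hx hx').1 (xr0 hx hx').2 (div_S_le (k := 8) (by norm_num) (by norm_num)) ((gatB01 x).n1) ((gatB01 x).n1) (gatB03 hx hx' _) (gatB13 hx hx') ((datB01 x).n1) ((datB01 x).n1) (datB03 hx hx' _) (datB13 hx hx') EW.A113_000m ⟨by decide, by decide⟩ hx hx' (fun h => absurd h (by decide))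

theorem sG_A113_001p {x : ℝ} (hx : ((697932185 : ℕ) : ℝ) / S ≤ x) (hx' : x ≤ (((697932185 : ℕ) : ℝ) + (42949674 : ℕ)) / S) :
    Sg12A PP tK tL true 0 .nn 1 1 0 0 true 1 67108864 16777216 x :=
  sg12A_of (P := PP) (RK := tK) (RL := tL) (Gt := gB) (pc := pcB) (KA := 4) (C0 := c0B) rfl trivial (Or.inl rfl) (Or.inl rfl) (sideB hx hx') gokB (g3okB hx hx') (xr0 hx hx').1 (xr0 hx hx').2 (div_S_le (k := 8) (by norm_num) (by norm_num)) ((gatB01 x).n1) ((gatB01 x).n1) (gatB13 hx hx') (gatB23 hx hx') EG.A113_001p ⟨by decide, by decide⟩ hx hx' (fun h => absurd h (by decide))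

theorem sW_A113_001p {x : ℝ} (hx : ((697932185 : ℕ) : ℝ) / S ≤ x) (hx' : x ≤ (((697932185 : ℕ) : ℝ) + (42949674 : ℕ)) / S) :
    Sg12AW PP tK tL tU 3 (eng.v x) (mog.v x) .nn 1 1 0 0 true 1 67108864 16777216 x :=
  sg12AW_of (P := PP) (RK := tK) (RL := tL) (RC := tU) (Gt := gB) (Dt := dB) (pc := pcB) (KA := 4) (N0 := 3) (C0 := c0B) (En := eng) (mo := mog) rfl trivial (Or.inl rfl) (Or.inl rfl) (sideB hx hx') gokB (pinU hx hx') dokB (g3cB hx hx') (g3okB hx hx') (xr0 hx hx').1 (xr0 hx hx').2 (div_S_le (k := 8) (by norm_num) (by norm_num)) ((gatB01 x).n1) ((gatB01 x).n1) (gatB13 hx hx') (gatB23 hx hx') ((datB01 x).n1) ((datB01 x).n1) (datB13 hx hx') (datB23 hx hx') EW.A113_001p ⟨by decide, by decide⟩ hx hx' (fun h => absurd h (by decide))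

theorem sG_A113_001m {x : ℝ} (hx : ((697932185 : ℕ) : ℝ) / S ≤ x) (hx' : x ≤ (((697932185 : ℕ) : ℝ) + (42949674 : ℕ)) / S) :
    Sg12A PP tK tL true 0 .nn 1 1 0 0 false 1 67108864 16777216 x :=
  sg12A_of (P := PP) (RK := tK) (RL := tL) (Gt := gB) (pc := pcB) (KA := 4) (C0 := c0B) rfl trivial (Or.inl rfl) (Or.inl rfl) (sideB hx hx') gokB (g3okB hx hx') (xr0 hx hx').1 (xr0 hx hx').2 (div_S_le (k := 8) (by norm_num) (by norm_num)) ((gatB01 x).n1) ((gatB01 x).n1) (gatB13 hx hx') (gatB23 hx hx') EG.A113_001m ⟨by decide, by decide⟩ hx hx' (fun h => absurd h (by decide))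

theorem sW_A113_001m {x : ℝ} (hx : ((697932185 : ℕ) : ℝ) / S ≤ x) (hx' : x ≤ (((697932185 : ℕ) : ℝ) + (42949674 : ℕ)) / S) :
    Sg12AW PP tK tL tU 3 (eng.v x) (mog.v x) .nn 1 1 0 0 false 1 67108864 16777216 x :=
  sg12AW_of (P := PP) (RK := tK) (RL := tL) (RC := tU) (Gt := gB) (Dt := dB) (pc := pcB) (KA := 4) (N0 := 3) (C0 := c0B) (En := eng) (mo := mog) rfl trivial (Or.inl rfl) (Or.inl rfl) (sideB hx hx') gokB (pinU hx hx') dokB (g3cB hx hx') (g3okB hx hx') (xr0 hx hx').1 (xr0 hx hx').2 (div_S_le (k := 8) (by norm_num) (by norm_num)) ((gatB01 x).n1) ((gatB01 x).n1) (gatB13 hx hx') (gatB23 hx hx') ((datB01 x).n1) ((datB01 x).n1) (datB13 hx hx') (datB23 hx hx') EW.A113_001m ⟨by decide, by decide⟩ hx hx' (fun h => absurd h (by decide))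

theorem sG_A113_002p {x : ℝ} (hx : ((697932185 : ℕ) : ℝ) / S ≤ x) (hx' : x ≤ (((697932185 : ℕ) : ℝ) + (42949674 : ℕ)) / S) :
    Sg12A PP tK tL true 0 .nn 1 1 0 0 true 2 67108864 16777216 x :=
  sg12A_of (P := PP) (RK := tK) (RL := tL) (Gt := gB) (pc := pcB) (KA := 4) (C0 := c0B) rfl trivial (Or.inl rfl) (Or.inl rfl) (sideB hx hx') gokB (g3okB hx hx') (xr0 hx hx').1 (xr0 hx hx').2 (div_S_le (k := 8) (by norm_num) (by norm_num)) ((gatB01 x).n1) ((gatB01 x).n1) (gatB23 hx hx') (gatB33 hx hx') EG.A113_002p ⟨by decide, by decide⟩ hx hx' (fun h => absurd h (by decide))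

theorem sW_A113_002p {x : ℝ} (hx : ((697932185 : ℕ) : ℝ) / S ≤ x) (hx' : x ≤ (((697932185 : ℕ) : ℝ) + (42949674 : ℕ)) / S) :
    Sg12AW PP tK tL tU 3 (eng.v x) (mog.v x) .nn 1 1 0 0 true 2 67108864 16777216 x :=
  sg12AW_of (P := PP) (RK := tK) (RL := tL) (RC := tU) (Gt := gB) (Dt := dB) (pc := pcB) (KA := 4) (N0 := 3) (C0 := c0B) (En := eng) (mo := mog) rfl trivial (Or.inl rfl) (Or.inl rfl) (sideB hx hx') gokB (pinU hx hx') dokB (g3cB hx hx') (g3okB hx hx') (xr0 hx hx').1 (xr0 hx hx').2 (div_S_le (k := 8) (by norm_num) (by norm_num)) ((gatB01 x).n1) ((gatB01 x).n1) (gatB23 hx hx') (gatB33 hx hx') ((datB01 x).n1) ((datB01 x).n1) (datB23 hx hx') (datB33 hx hx') EW.A113_002p ⟨by decide, by decide⟩ hx hx' (fun h => absurd h (by decide))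

theorem sG_A113_002m {x : ℝ} (hx : ((697932185 : ℕ) : ℝ) / S ≤ x) (hx' : x ≤ (((697932185 : ℕ) : ℝ) + (42949674 : ℕ)) / S) :
    Sg12A PP tK tL true 0 .nn 1 1 0 0 false 2 67108864 16777216 x :=
  sg12A_of (P := PP) (RK := tK) (RL := tL) (Gt := gB) (pc := pcB) (KA := 4) (C0 := c0B) rfl trivial (Or.inl rfl) (Or.inl rfl) (sideB hx hx') gokB (g3okB hx hx') (xr0 hx hx').1 (xr0 hx hx').2 (div_S_le (k := 8) (by norm_num) (by norm_num)) ((gatB01 x).n1) ((gatB01 x).n1) (gatB23 hx hx') (gatB33 hx hx') EG.A113_002m ⟨by decide, by decide⟩ hx hx' (fun h => absurd h (by decide))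

theorem sW_A113_002m {x : ℝ} (hx : ((697932185 : ℕ) : ℝ) / S ≤ x) (hx' : x ≤ (((697932185 : ℕ) : ℝ) + (42949674 : ℕ)) / S) :
    Sg12AW PP tK tL tU 3 (eng.v x) (mog.v x) .nn 1 1 0 0 false 2 67108864 16777216 x :=
  sg12AW_of (P := PP) (RK := tK) (RL := tL) (RC := tU) (Gt := gB) (Dt := dB) (pc := pcB) (KA := 4) (N0 := 3) (C0 := c0B) (En := eng) (mo := mog) rfl trivial (Or.inl rfl) (Or.inl rfl) (sideB hx hx') gokB (pinU hx hx') dokB (g3cB hx hx') (g3okB hx hx') (xr0 hx hx').1 (xr0 hx hx').2 (div_S_le (k := 8) (by norm_num) (by norm_num)) ((gatB01 x).n1) ((gatB01 x).n1) (gatB23 hx hx') (gatB33 hx hx') ((datB01 x).n1) ((datB01 x).n1) (datB23 hx hx') (datB33 hx hx') EW.A113_002m ⟨by decide, by decide⟩ hx hx' (fun h => absurd h (by decide))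

theorem sG_A113_003p {x : ℝ} (hx : ((697932185 : ℕ) : ℝ) / S ≤ x) (hx' : x ≤ (((697932185 : ℕ) : ℝ) + (42949674 : ℕ)) / S) :
    Sg12A PP tK tL true 0 .nn 1 1 0 0 true 3 67108864 16777216 x :=
  sg12A_of (P := PP) (RK := tK) (RL := tL) (Gt := gB) (pc := pcB) (KA := 4) (C0 := c0B) rfl trivial (Or.inl rfl) (Or.inl rfl) (sideB hx hx') gokB (g3okB hx hx') (xr0 hx hx').1 (xr0 hx hx').2 (div_S_le (k := 8) (by norm_num) (by norm_num)) ((gatB01 x).n1) ((gatB01 x).n1) (gatB33 hx hx') (gatB43 hx hx') EG.A113_003p ⟨by decide, by decide⟩ hx hx' (fun h => absurd h (by decide))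

theorem sW_A113_003p {x : ℝ} (hx : ((697932185 : ℕ) : ℝ) / S ≤ x) (hx' : x ≤ (((697932185 : ℕ) : ℝ) + (42949674 : ℕ)) / S) :
    Sg12AW PP tK tL tU 3 (eng.v x) (mog.v x) .nn 1 1 0 0 true 3 67108864 16777216 x :=
  sg12AW_of (P := PP) (RK := tK) (RL := tL) (RC := tU) (Gt := gB) (Dt := dB) (pc := pcB) (KA := 4) (N0 := 3) (C0 := c0B) (En := eng) (mo := mog) rfl trivial (Or.inl rfl) (Or.inl rfl) (sideB hx hx') gokB (pinU hx hx') dokB (g3cB hx hx') (g3okB hx hx') (xr0 hx hx').1 (xr0 hx hx').2 (div_S_le (k := 8) (by norm_num) (by norm_num)) ((gatB01 x).n1) ((gatB01 x).n1) (gatB33 hx hx') (gatB43 hx hx') ((datB01 x).n1) ((datB01 x).n1) (datB33 hx hx') (datB43 hx hx') EW.A113_003p ⟨by decide, by decide⟩ hx hx' (fun h => absurd h (by decide))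

theorem sG_A113_003m {x : ℝ} (hx : ((697932185 : ℕ) : ℝ) / S ≤ x) (hx' : x ≤ (((697932185 : ℕ) : ℝ) + (42949674 : ℕ)) / S) :
    Sg12A PP tK tL true 0 .nn 1 1 0 0 false 3 67108864 16777216 x :=
  sg12A_of (P := PP) (RK := tK) (RL := tL) (Gt := gB) (pc := pcB) (KA := 4) (C0 := c0B) rfl trivial (Or.inl rfl) (Or.inl rfl) (sideB hx hx') gokB (g3okB hx hx') (xr0 hx hx').1 (xr0 hx hx').2 (div_S_le (k := 8) (by norm_num) (by norm_num)) ((gatB01 x).n1) ((gatB01 x).n1) (gatB33 hx hx') (gatB43 hx hx') EG.A113_003m ⟨by decide, by decide⟩ hx hx' (fun h => absurd h (by decide))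

theorem sW_A113_003m {x : ℝ} (hx : ((697932185 : ℕ) : ℝ) / S ≤ x) (hx' : x ≤ (((697932185 : ℕ) : ℝ) + (42949674 : ℕ)) / S) :
    Sg12AW PP tK tL tU 3 (eng.v x) (mog.v x) .nn 1 1 0 0 false 3 67108864 16777216 x :=
  sg12AW_of (P := PP) (RK := tK) (RL := tL) (RC := tU) (Gt := gB) (Dt := dB) (pc := pcB) (KA := 4) (N0 := 3) (C0 := c0B) (En := eng) (mo := mog) rfl trivial (Or.inl rfl) (Or.inl rfl) (sideB hx hx') gokB (pinU hx hx') dokB (g3cB hx hx') (g3okB hx hx') (xr0 hx hx').1 (xr0 hx hx').2 (div_S_le (k := 8) (by norm_num) (by norm_num)) ((gatB01 x).n1) ((gatB01 x).n1) (gatB33 hx hx') (gatB43 hx hx') ((datB01 x).n1) ((datB01 x).n1) (datB33 hx hx') (datB43 hx hx') EW.A113_003m ⟨by decide, by decide⟩ hx hx' (fun h => absurd h (by decide))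

theorem sG_A113_004p {x : ℝ} (hx : ((697932185 : ℕ) : ℝ) / S ≤ x) (hx' : x ≤ (((697932185 : ℕ) : ℝ) + (42949674 : ℕ)) / S) :
    Sg12A PP tK tL true 0 .nn 1 1 0 0 true 4 67108864 16777216 x :=
  sg12A_of (P := PP) (RK := tK) (RL := tL) (Gt := gB) (pc := pcB) (KA := 4) (C0 := c0B) rfl trivial (Or.inl rfl) (Or.inl rfl) (sideB hx hx') gokB (g3okB hx hx') (xr0 hx hx').1 (xr0 hx hx').2 (div_S_le (k := 8) (by norm_num) (by norm_num)) ((gatB01 x).n1) ((gatB01 x).n1) (gatB43 hx hx') (gatB53 hx hx') EG.A113_004p ⟨by norm_num, by norm_num, rfl⟩ hx hx' (fun h => absurd h (by decide))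

theorem sW_A113_004p {x : ℝ} (hx : ((697932185 : ℕ) : ℝ) / S ≤ x) (hx' : x ≤ (((697932185 : ℕ) : ℝ) + (42949674 : ℕ)) / S) :
    Sg12AW PP tK tL tU 3 (eng.v x) (mog.v x) .nn 1 1 0 0 true 4 67108864 16777216 x :=
  sg12AW_of (P := PP) (RK := tK) (RL := tL) (RC := tU) (Gt := gB) (Dt := dB) (pc := pcB) (KA := 4) (N0 := 3) (C0 := c0B) (En := eng) (mo := mog) rfl trivial (Or.inl rfl) (Or.inl rfl) (sideB hx hx') gokB (pinU hx hx') dokB (g3cB hx hx') (g3okB hx hx') (xr0 hx hx').1 (xr0 hx hx').2 (div_S_le (k := 8) (by norm_num) (by norm_num)) ((gatB01 x).n1) ((gatB01 x).n1) (gatB43 hx hx') (gatB53 hx hx') ((datB01 x).n1) ((datB01 x).n1) (datB43 hx hx') (datB53 hx hx') EW.A113_004p ⟨by norm_num, by norm_num, rfl⟩ hx hx' (fun h => absurd h (by decide))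

theorem sG_A113_004m {x : ℝ} (hx : ((697932185 : ℕ) : ℝ) / S ≤ x) (hx' : x ≤ (((697932185 : ℕ) : ℝ) + (42949674 : ℕ)) / S) :
    Sg12A PP tK tL true 0 .nn 1 1 0 0 false 4 67108864 16777216 x :=
  sg12A_of (P := PP) (RK := tK) (RL := tL) (Gt := gB) (pc := pcB) (KA := 4) (C0 := c0B) rfl trivial (Or.inl rfl) (Or.inl rfl) (sideB hx hx') gokB (g3okB hx hx') (xr0 hx hx').1 (xr0 hx hx').2 (div_S_le (k := 8) (by norm_num) (by norm_num)) ((gatB01 x).n1) ((gatB01 x).n1) (gatB43 hx hx') (gatB53 hx hx') EG.A113_004m ⟨by norm_num, by norm_num, rfl⟩ hx hx' (fun h => absurd h (by decide))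

theorem sW_A113_004m {x : ℝ} (hx : ((697932185 : ℕ) : ℝ) / S ≤ x) (hx' : x ≤ (((697932185 : ℕ) : ℝ) + (42949674 : ℕ)) / S) :
    Sg12AW PP tK tL tU 3 (eng.v x) (mog.v x) .nn 1 1 0 0 false 4 67108864 16777216 x :=
  sg12AW_of (P := PP) (RK := tK) (RL := tL) (RC := tU) (Gt := gB) (Dt := dB) (pc := pcB) (KA := 4) (N0 := 3) (C0 := c0B) (En := eng) (mo := mog) rfl trivial (Or.inl rfl) (Or.inl rfl) (sideB hx hx') gokB (pinU hx hx') dokB (g3cB hx hx') (g3okB hx hx') (xr0 hx hx').1 (xr0 hx hx').2 (div_S_le (k := 8) (by norm_num) (by norm_num)) ((gatB01 x).n1) ((gatB01 x).n1) (gatB43 hx hx') (gatB53 hx hx') ((datB01 x).n1) ((datB01 x).n1) (datB43 hx hx') (datB53 hx hx') EW.A113_004m ⟨by norm_num, by norm_num, rfl⟩ hx hx' (fun h => absurd h (by decide))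

theorem sG_A123_015p {x : ℝ} (hx : ((697932185 : ℕ) : ℝ) / S ≤ x) (hx' : x ≤ (((697932185 : ℕ) : ℝ) + (42949674 : ℕ)) / S) :
    Sg12A PP tK tL true 0 .npn 1 2 0 1 true 5 67108864 16777216 x :=
  sg12A_of (P := PP) (RK := tK) (RL := tL) (Gt := gB) (pc := pcB) (KA := 4) (C0 := c0B) rfl trivial (Or.inl rfl) (Or.inr rfl) (sideB hx hx') gokB (g3okB hx hx') (xr0 hx hx').1 (xr0 hx hx').2 (div_S_le (k := 8) (by norm_num) (by norm_num)) ((gatB01 x).n1) ((gatB12 x).n1) (gatB53 hx hx') (gatB63 hx hx') EG.A123_015p ⟨by norm_num, by norm_num, by decide⟩ hx hx' (fun _ y y' F hi => h4_123 (div_S_le (k := 16) (by norm_num) (by norm_num)) (by show rh 1 ≤ 1; simp [rh]; try norm_num) F hi)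

theorem sW_A123_015p {x : ℝ} (hx : ((697932185 : ℕ) : ℝ) / S ≤ x) (hx' : x ≤ (((697932185 : ℕ) : ℝ) + (42949674 : ℕ)) / S) :
    Sg12AW PP tK tL tU 3 (eng.v x) (mog.v x) .npn 1 2 0 1 true 5 67108864 16777216 x :=
  sg12AW_of (P := PP) (RK := tK) (RL := tL) (RC := tU) (Gt := gB) (Dt := dB) (pc := pcB) (KA := 4) (N0 := 3) (C0 := c0B) (En := eng) (mo := mog) rfl trivial (Or.inl rfl) (Or.inr rfl) (sideB hx hx') gokB (pinU hx hx') dokB (g3cB hx hx') (g3okB hx hx') (xr0 hx hx').1 (xr0 hx hx').2 (div_S_le (k := 8) (by norm_num) (by norm_num)) ((gatB01 x).n1) ((gatB12 x).n1) (gatB53 hx hx') (gatB63 hx hx') ((datB01 x).n1) ((datB12 x).n1) (datB53 hx hx') (datB63 hx hx') EW.A123_015p ⟨by norm_num, by norm_num, by decide⟩ hx hx' (fun _ y y' F hi => h4_123 (div_S_le (k := 16) (by norm_num) (by norm_num)) (by show rh 1 ≤ 1; simp [rh]; try norm_num) F hi)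

theorem sG_A123_016p {x : ℝ} (hx : ((697932185 : ℕ) : ℝ) / S ≤ x) (hx' : x ≤ (((697932185 : ℕ) : ℝ) + (42949674 : ℕ)) / S) :
    Sg12A PP tK tL true 0 .npn 1 2 0 1 true 6 67108864 16777216 x :=
  sg12A_of (P := PP) (RK := tK) (RL := tL) (Gt := gB) (pc := pcB) (KA := 4) (C0 := c0B) rfl trivial (Or.inl rfl) (Or.inr rfl) (sideB hx hx') gokB (g3okB hx hx') (xr0 hx hx').1 (xr0 hx hx').2 (div_S_le (k := 8) (by norm_num) (by norm_num)) ((gatB01 x).n1) ((gatB12 x).n1) (gatB63 hx hx') (gatB73 hx hx') EG.A123_016p ⟨by norm_num, by norm_num, by decide⟩ hx hx' (fun _ y y' F hi => h4_123 (div_S_le (k := 16) (by norm_num) (by norm_num)) (by show rh 1 ≤ 1; simp [rh]; try norm_num) F hi)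

theorem sW_A123_016p {x : ℝ} (hx : ((697932185 : ℕ) : ℝ) / S ≤ x) (hx' : x ≤ (((697932185 : ℕ) : ℝ) + (42949674 : ℕ)) / S) :
    Sg12AW PP tK tL tU 3 (eng.v x) (mog.v x) .npn 1 2 0 1 true 6 67108864 16777216 x :=
  sg12AW_of (P := PP) (RK := tK) (RL := tL) (RC := tU) (Gt := gB) (Dt := dB) (pc := pcB) (KA := 4) (N0 := 3) (C0 := c0B) (En := eng) (mo := mog) rfl trivial (Or.inl rfl) (Or.inr rfl) (sideB hx hx') gokB (pinU hx hx') dokB (g3cB hx hx') (g3okB hx hx') (xr0 hx hx').1 (xr0 hx hx').2 (div_S_le (k := 8) (by norm_num) (by norm_num)) ((gatB01 x).n1) ((gatB12 x).n1) (gatB63 hx hx') (gatB73 hx hx') ((datB01 x).n1) ((datB12 x).n1) (datB63 hx hx') (datB73 hx hx') EW.A123_016p ⟨by norm_num, by norm_num, by decide⟩ hx hx' (fun _ y y' F hi => h4_123 (div_S_le (k := 16) (by norm_num) (by norm_num)) (by show rh 1 ≤ 1; simp [rh]; try norm_num) F hi)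

theorem sG_A123_025p {x : ℝ} (hx : ((697932185 : ℕ) : ℝ) / S ≤ x) (hx' : x ≤ (((697932185 : ℕ) : ℝ) + (42949674 : ℕ)) / S) :
    Sg12A PP tK tL true 0 .npn 1 2 0 2 true 5 67108864 16777216 x :=
  sg12A_of (P := PP) (RK := tK) (RL := tL) (Gt := gB) (pc := pcB) (KA := 4) (C0 := c0B) rfl trivial (Or.inl rfl) (Or.inr rfl) (sideB hx hx') gokB (g3okB hx hx') (xr0 hx hx').1 (xr0 hx hx').2 (div_S_le (k := 8) (by norm_num) (by norm_num)) ((gatB01 x).n1) ((gatB22 x).n1) (gatB53 hx hx') (gatB63 hx hx') EG.A123_025p ⟨by norm_num, by norm_num, by decide⟩ hx hx' (fun _ y y' F hi => h4_123 (div_S_le (k := 16) (by norm_num) (by norm_num)) (by show rh 2 ≤ 1; simp [rh]; try norm_num) F hi)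

theorem sW_A123_025p {x : ℝ} (hx : ((697932185 : ℕ) : ℝ) / S ≤ x) (hx' : x ≤ (((697932185 : ℕ) : ℝ) + (42949674 : ℕ)) / S) :
    Sg12AW PP tK tL tU 3 (eng.v x) (mog.v x) .npn 1 2 0 2 true 5 67108864 16777216 x :=
  sg12AW_of (P := PP) (RK := tK) (RL := tL) (RC := tU) (Gt := gB) (Dt := dB) (pc := pcB) (KA := 4) (N0 := 3) (C0 := c0B) (En := eng) (mo := mog) rfl trivial (Or.inl rfl) (Or.inr rfl) (sideB hx hx') gokB (pinU hx hx') dokB (g3cB hx hx') (g3okB hx hx') (xr0 hx hx').1 (xr0 hx hx').2 (div_S_le (k := 8) (by norm_num) (by norm_num)) ((gatB01 x).n1) ((gatB22 x).n1) (gatB53 hx hx') (gatB63 hx hx') ((datB01 x).n1) ((datB22 x).n1) (datB53 hx hx') (datB63 hx hx') EW.A123_025p ⟨by norm_num, by norm_num, by decide⟩ hx hx' (fun _ y y' F hi => h4_123 (div_S_le (k := 16) (by norm_num) (by norm_num)) (by show rh 2 ≤ 1; simp [rh]; try norm_num) F hi)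

theorem sG_A123_026p {x : ℝ} (hx : ((697932185 : ℕ) : ℝ) / S ≤ x) (hx' : x ≤ (((697932185 : ℕ) : ℝ) + (42949674 : ℕ)) / S) :
    Sg12A PP tK tL true 0 .npn 1 2 0 2 true 6 67108864 16777216 x :=
  sg12A_of (P := PP) (RK := tK) (RL := tL) (Gt := gB) (pc := pcB) (KA := 4) (C0 := c0B) rfl trivial (Or.inl rfl) (Or.inr rfl) (sideB hx hx') gokB (g3okB hx hx') (xr0 hx hx').1 (xr0 hx hx').2 (div_S_le (k := 8) (by norm_num) (by norm_num)) ((gatB01 x).n1) ((gatB22 x).n1) (gatB63 hx hx') (gatB73 hx hx') EG.A123_026p ⟨by norm_num, by norm_num, by decide⟩ hx hx' (fun _ y y' F hi => h4_123 (div_S_le (k := 16) (by norm_num) (by norm_num)) (by show rh 2 ≤ 1; simp [rh]; try norm_num) F hi)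

theorem sW_A123_026p {x : ℝ} (hx : ((697932185 : ℕ) : ℝ) / S ≤ x) (hx' : x ≤ (((697932185 : ℕ) : ℝ) + (42949674 : ℕ)) / S) :
    Sg12AW PP tK tL tU 3 (eng.v x) (mog.v x) .npn 1 2 0 2 true 6 67108864 16777216 x :=
  sg12AW_of (P := PP) (RK := tK) (RL := tL) (RC := tU) (Gt := gB) (Dt := dB) (pc := pcB) (KA := 4) (N0 := 3) (C0 := c0B) (En := eng) (mo := mog) rfl trivial (Or.inl rfl) (Or.inr rfl) (sideB hx hx') gokB (pinU hx hx') dokB (g3cB hx hx') (g3okB hx hx') (xr0 hx hx').1 (xr0 hx hx').2 (div_S_le (k := 8) (by norm_num) (by norm_num)) ((gatB01 x).n1) ((gatB22 x).n1) (gatB63 hx hx') (gatB73 hx hx') ((datB01 x).n1) ((datB22 x).n1) (datB63 hx hx') (datB73 hx hx') EW.A123_026p ⟨by norm_num, by norm_num, by decide⟩ hx hx' (fun _ y y' F hi => h4_123 (div_S_le (k := 16) (by norm_num) (by norm_num)) (by show rh 2 ≤ 1; simp [rh]; try norm_num) F hi)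

theorem sG_A123_035p {x : ℝ} (hx : ((697932185 : ℕ) : ℝ) / S ≤ x) (hx' : x ≤ (((697932185 : ℕ) : ℝ) + (42949674 : ℕ)) / S) :
    Sg12A PP tK tL true 0 .npn 1 2 0 3 true 5 67108864 16777216 x :=
  sg12A_of (P := PP) (RK := tK) (RL := tL) (Gt := gB) (pc := pcB) (KA := 4) (C0 := c0B) rfl trivial (Or.inl rfl) (Or.inr rfl) (sideB hx hx') gokB (g3okB hx hx') (xr0 hx hx').1 (xr0 hx hx').2 (div_S_le (k := 8) (by norm_num) (by norm_num)) ((gatB01 x).n1) ((gatB32 x).n1) (gatB53 hx hx') (gatB63 hx hx') EG.A123_035p ⟨by norm_num, by norm_num, by decide⟩ hx hx' (fun _ y y' F hi => h4_123 (div_S_le (k := 16) (by norm_num) (by norm_num)) (by show rh 3 ≤ 1; simp [rh]; try norm_num) F hi)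

theorem sW_A123_035p {x : ℝ} (hx : ((697932185 : ℕ) : ℝ) / S ≤ x) (hx' : x ≤ (((697932185 : ℕ) : ℝ) + (42949674 : ℕ)) / S) :
    Sg12AW PP tK tL tU 3 (eng.v x) (mog.v x) .npn 1 2 0 3 true 5 67108864 16777216 x :=
  sg12AW_of (P := PP) (RK := tK) (RL := tL) (RC := tU) (Gt := gB) (Dt := dB) (pc := pcB) (KA := 4) (N0 := 3) (C0 := c0B) (En := eng) (mo := mog) rfl trivial (Or.inl rfl) (Or.inr rfl) (sideB hx hx') gokB (pinU hx hx') dokB (g3cB hx hx') (g3okB hx hx') (xr0 hx hx').1 (xr0 hx hx').2 (div_S_le (k := 8) (by norm_num) (by norm_num)) ((gatB01 x).n1) ((gatB32 x).n1) (gatB53 hx hx') (gatB63 hx hx') ((datB01 x).n1) ((datB32 x).n1) (datB53 hx hx') (datB63 hx hx') EW.A123_035p ⟨by norm_num, by norm_num, by decide⟩ hx hx' (fun _ y y' F hi => h4_123 (div_S_le (k := 16) (by norm_num) (by norm_num)) (by show rh 3 ≤ 1; simp [rh]; try norm_num) F hi)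

theorem sG_A123_036p {x : ℝ} (hx : ((697932185 : ℕ) : ℝ) / S ≤ x) (hx' : x ≤ (((697932185 : ℕ) : ℝ) + (42949674 : ℕ)) / S) :
    Sg12A PP tK tL true 0 .npn 1 2 0 3 true 6 67108864 16777216 x :=
  sg12A_of (P := PP) (RK := tK) (RL := tL) (Gt := gB) (pc := pcB) (KA := 4) (C0 := c0B) rfl trivial (Or.inl rfl) (Or.inr rfl) (sideB hx hx') gokB (g3okB hx hx') (xr0 hx hx').1 (xr0 hx hx').2 (div_S_le (k := 8) (by norm_num) (by norm_num)) ((gatB01 x).n1) ((gatB32 x).n1) (gatB63 hx hx') (gatB73 hx hx') EG.A123_036p ⟨by norm_num, by norm_num, by decide⟩ hx hx' (fun _ y y' F hi => h4_123 (div_S_le (k := 16) (by norm_num) (by norm_num)) (by show rh 3 ≤ 1; simp [rh]; try norm_num) F hi)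

theorem sW_A123_036p {x : ℝ} (hx : ((697932185 : ℕ) : ℝ) / S ≤ x) (hx' : x ≤ (((697932185 : ℕ) : ℝ) + (42949674 : ℕ)) / S) :
    Sg12AW PP tK tL tU 3 (eng.v x) (mog.v x) .npn 1 2 0 3 true 6 67108864 16777216 x :=
  sg12AW_of (P := PP) (RK := tK) (RL := tL) (RC := tU) (Gt := gB) (Dt := dB) (pc := pcB) (KA := 4) (N0 := 3) (C0 := c0B) (En := eng) (mo := mog) rfl trivial (Or.inl rfl) (Or.inr rfl) (sideB hx hx') gokB (pinU hx hx') dokB (g3cB hx hx') (g3okB hx hx') (xr0 hx hx').1 (xr0 hx hx').2 (div_S_le (k := 8) (by norm_num) (by norm_num)) ((gatB01 x).n1) ((gatB32 x).n1) (gatB63 hx hx') (gatB73 hx hx') ((datB01 x).n1) ((datB32 x).n1) (datB63 hx hx') (datB73 hx hx') EW.A123_036p ⟨by norm_num, by norm_num, by decide⟩ hx hx' (fun _ y y' F hi => h4_123 (div_S_le (k := 16) (by norm_num) (by norm_num)) (by show rh 3 ≤ 1; simp [rh]; try norm_num) F hi)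

theorem sG_A123_045p {x : ℝ} (hx : ((697932185 : ℕ) : ℝ) / S ≤ x) (hx' : x ≤ (((697932185 : ℕ) : ℝ) + (42949674 : ℕ)) / S) :
    Sg12A PP tK tL true 0 .npn 1 2 0 4 true 5 67108864 16777216 x :=
  sg12A_of (P := PP) (RK := tK) (RL := tL) (Gt := gB) (pc := pcB) (KA := 4) (C0 := c0B) rfl trivial (Or.inl rfl) (Or.inr rfl) (sideB hx hx') gokB (g3okB hx hx') (xr0 hx hx').1 (xr0 hx hx').2 (div_S_le (k := 8) (by norm_num) (by norm_num)) ((gatB01 x).n1) ((gatB42 x).n1) (gatB53 hx hx') (gatB63 hx hx') EG.A123_045p ⟨by norm_num, by norm_num, by decide⟩ hx hx' (fun _ y y' F hi => h4_123 (div_S_le (k := 16) (by norm_num) (by norm_num)) (by show rh 4 ≤ 1; simp [rh]; try norm_num) F hi)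

theorem sW_A123_045p {x : ℝ} (hx : ((697932185 : ℕ) : ℝ) / S ≤ x) (hx' : x ≤ (((697932185 : ℕ) : ℝ) + (42949674 : ℕ)) / S) :
    Sg12AW PP tK tL tU 3 (eng.v x) (mog.v x) .npn 1 2 0 4 true 5 67108864 16777216 x :=
  sg12AW_of (P := PP) (RK := tK) (RL := tL) (RC := tU) (Gt := gB) (Dt := dB) (pc := pcB) (KA := 4) (N0 := 3) (C0 := c0B) (En := eng) (mo := mog) rfl trivial (Or.inl rfl) (Or.inr rfl) (sideB hx hx') gokB (pinU hx hx') dokB (g3cB hx hx') (g3okB hx hx') (xr0 hx hx').1 (xr0 hx hx').2 (div_S_le (k := 8) (by norm_num) (by norm_num)) ((gatB01 x).n1) ((gatB42 x).n1) (gatB53 hx hx') (gatB63 hx hx') ((datB01 x).n1) ((datB42 x).n1) (datB53 hx hx') (datB63 hx hx') EW.A123_045p ⟨by norm_num, by norm_num, by decide⟩ hx hx' (fun _ y y' F hi => h4_123 (div_S_le (k := 16) (by norm_num) (by norm_num)) (by show rh 4 ≤ 1; simp [rh]; try norm_num) F hi)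

theorem sG_A123_046p {x : ℝ} (hx : ((697932185 : ℕ) : ℝ) / S ≤ x) (hx' : x ≤ (((697932185 : ℕ) : ℝ) + (42949674 : ℕ)) / S) :
    Sg12A PP tK tL true 0 .npn 1 2 0 4 true 6 67108864 16777216 x :=
  sg12A_of (P := PP) (RK := tK) (RL := tL) (Gt := gB) (pc := pcB) (KA := 4) (C0 := c0B) rfl trivial (Or.inl rfl) (Or.inr rfl) (sideB hx hx') gokB (g3okB hx hx') (xr0 hx hx').1 (xr0 hx hx').2 (div_S_le (k := 8) (by norm_num) (by norm_num)) ((gatB01 x).n1) ((gatB42 x).n1) (gatB63 hx hx') (gatB73 hx hx') EG.A123_046p ⟨by norm_num, by norm_num, by decide⟩ hx hx' (fun _ y y' F hi => h4_123 (div_S_le (k := 16) (by norm_num) (by norm_num)) (by show rh 4 ≤ 1; simp [rh]; try norm_num) F hi)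

theorem sW_A123_046p {x : ℝ} (hx : ((697932185 : ℕ) : ℝ) / S ≤ x) (hx' : x ≤ (((697932185 : ℕ) : ℝ) + (42949674 : ℕ)) / S) :
    Sg12AW PP tK tL tU 3 (eng.v x) (mog.v x) .npn 1 2 0 4 true 6 67108864 16777216 x :=
  sg12AW_of (P := PP) (RK := tK) (RL := tL) (RC := tU) (Gt := gB) (Dt := dB) (pc := pcB) (KA := 4) (N0 := 3) (C0 := c0B) (En := eng) (mo := mog) rfl trivial (Or.inl rfl) (Or.inr rfl) (sideB hx hx') gokB (pinU hx hx') dokB (g3cB hx hx') (g3okB hx hx') (xr0 hx hx').1 (xr0 hx hx').2 (div_S_le (k := 8) (by norm_num) (by norm_num)) ((gatB01 x).n1) ((gatB42 x).n1) (gatB63 hx hx') (gatB73 hx hx') ((datB01 x).n1) ((datB42 x).n1) (datB63 hx hx') (datB73 hx hx') EW.A123_046p ⟨by norm_num, by norm_num, by decide⟩ hx hx' (fun _ y y' F hi => h4_123 (div_S_le (k := 16) (by norm_num) (by norm_num)) (by show rh 4 ≤ 1; simp [rh]; try norm_num) F hi)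

theorem sG_B113_010p {x : ℝ} (hx : ((697932185 : ℕ) : ℝ) / S ≤ x) (hx' : x ≤ (((697932185 : ℕ) : ℝ) + (42949674 : ℕ)) / S) :
    Sg12B PP tK tL true 0 .nn 1 1 0 1 true 0 67108864 16777216 x :=
  sg12B_of (P := PP) (RK := tK) (RL := tL) (Gt := gB) (pc := pcB) (KA := 4) (C0 := c0B) rfl trivial (Or.inl rfl) (Or.inl rfl) (lo := true) (up := false) (sideB hx hx') gokB (g3okB hx hx') (xr0 hx hx').1 (xr0 hx hx').2 (div_S_le (k := 8) (by norm_num) (by norm_num)) ((gatB01 x).n1) (gatB13 hx hx') (fun _ => (gatB01 x).n1) (fun _ h => absurd h (by decide)) EG.B113_010p ⟨by decide, by decide⟩ (by norm_num) hx hx'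

theorem sW_B113_010p {x : ℝ} (hx : ((697932185 : ℕ) : ℝ) / S ≤ x) (hx' : x ≤ (((697932185 : ℕ) : ℝ) + (42949674 : ℕ)) / S) :
    Sg12BW PP tK tL tU 3 (eng.v x) (mog.v x) .nn 1 1 0 1 true 0 67108864 16777216 x :=
  sg12BW_of (P := PP) (RK := tK) (RL := tL) (RC := tU) (Gt := gB) (Dt := dB) (pc := pcB) (KA := 4) (N0 := 3) (C0 := c0B) (En := eng) (mo := mog) rfl trivial (Or.inl rfl) (Or.inl rfl) (lo := true) (up := false) (sideB hx hx') gokB (pinU hx hx') dokB (g3cB hx hx') (g3okB hx hx') (xr0 hx hx').1 (xr0 hx hx').2 (div_S_le (k := 8) (by norm_num) (by norm_num)) ((gatB01 x).n1) (gatB13 hx hx') (fun _ => (gatB01 x).n1) (fun _ h => absurd h (by decide)) ((datB01 x).n1) (datB13 hx hx') (fun _ => (datB01 x).n1) (fun _ h => absurd h (by decide)) EW.B113_010p ⟨by decide, by decide⟩ (by norm_num) hx hx'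

theorem sG_X113_011p {x : ℝ} (hx : ((697932185 : ℕ) : ℝ) / S ≤ x) (hx' : x ≤ (((697932185 : ℕ) : ℝ) + (42949674 : ℕ)) / S) :
    Ex12B PP 1 1 0 1 true 1 67108864 16777216 :=
  ex12B_of (P := PP) (RK := tK) (RL := tL) (Gt := gB) (KA := 4) (C0 := c0B) (x := x) (cn := .nn) rfl trivial (Or.inl rfl) (Or.inl rfl) gokB (g3okB hx hx') (div_S_le (k := 8) (by norm_num) (by norm_num)) ((gatB01 x).n1) (gatB13 hx hx') EG.X113_011p ⟨by decide, by decide⟩ (by norm_num) hx hx'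

theorem sG_B123_010p {x : ℝ} (hx : ((697932185 : ℕ) : ℝ) / S ≤ x) (hx' : x ≤ (((697932185 : ℕ) : ℝ) + (42949674 : ℕ)) / S) :
    Sg12B PP tK tL true 0 .npn 1 2 0 1 true 0 67108864 16777216 x :=
  sg12B_of (P := PP) (RK := tK) (RL := tL) (Gt := gB) (pc := pcB) (KA := 4) (C0 := c0B) rfl trivial (Or.inl rfl) (Or.inr rfl) (lo := true) (up := true) (sideB hx hx') gokB (g3okB hx hx') (xr0 hx hx').1 (xr0 hx hx').2 (div_S_le (k := 8) (by norm_num) (by norm_num)) ((gatB01 x).n1) (gatB13 hx hx') (fun _ => (gatB02 x).n1) (fun _ _ => (gatB12 x).n1) EG.B123_010p ⟨by decide, by decide⟩ (by norm_num) hx hx'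

theorem sW_B123_010p {x : ℝ} (hx : ((697932185 : ℕ) : ℝ) / S ≤ x) (hx' : x ≤ (((697932185 : ℕ) : ℝ) + (42949674 : ℕ)) / S) :
    Sg12BW PP tK tL tU 3 (eng.v x) (mog.v x) .npn 1 2 0 1 true 0 67108864 16777216 x :=
  sg12BW_of (P := PP) (RK := tK) (RL := tL) (RC := tU) (Gt := gB) (Dt := dB) (pc := pcB) (KA := 4) (N0 := 3) (C0 := c0B) (En := eng) (mo := mog) rfl trivial (Or.inl rfl) (Or.inr rfl) (lo := true) (up := true) (sideB hx hx') gokB (pinU hx hx') dokB (g3cB hx hx') (g3okB hx hx') (xr0 hx hx').1 (xr0 hx hx').2 (div_S_le (k := 8) (by norm_num) (by norm_num)) ((gatB01 x).n1) (gatB13 hx hx') (fun _ => (gatB02 x).n1) (fun _ _ => (gatB12 x).n1) ((datB01 x).n1) (datB13 hx hx') (fun _ => (datB02 x).n1) (fun _ _ => (datB12 x).n1) EW.B123_010p ⟨by decide, by decide⟩ (by norm_num) hx hx'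

theorem sG_B123_011p {x : ℝ} (hx : ((697932185 : ℕ) : ℝ) / S ≤ x) (hx' : x ≤ (((697932185 : ℕ) : ℝ) + (42949674 : ℕ)) / S) :
    Sg12B PP tK tL true 0 .npn 1 2 0 1 true 1 67108864 16777216 x :=
  sg12B_of (P := PP) (RK := tK) (RL := tL) (Gt := gB) (pc := pcB) (KA := 4) (C0 := c0B) rfl trivial (Or.inl rfl) (Or.inr rfl) (lo := true) (up := true) (sideB hx hx') gokB (g3okB hx hx') (xr0 hx hx').1 (xr0 hx hx').2 (div_S_le (k := 8) (by norm_num) (by norm_num)) ((gatB01 x).n1) (gatB13 hx hx') (fun _ => (gatB12 x).n1) (fun _ _ => (gatB22 x).n1) EG.B123_011p ⟨by decide, by decide⟩ (by norm_num) hx hx'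

theorem sW_B123_011p {x : ℝ} (hx : ((697932185 : ℕ) : ℝ) / S ≤ x) (hx' : x ≤ (((697932185 : ℕ) : ℝ) + (42949674 : ℕ)) / S) :
    Sg12BW PP tK tL tU 3 (eng.v x) (mog.v x) .npn 1 2 0 1 true 1 67108864 16777216 x :=
  sg12BW_of (P := PP) (RK := tK) (RL := tL) (RC := tU) (Gt := gB) (Dt := dB) (pc := pcB) (KA := 4) (N0 := 3) (C0 := c0B) (En := eng) (mo := mog) rfl trivial (Or.inl rfl) (Or.inr rfl) (lo := true) (up := true) (sideB hx hx') gokB (pinU hx hx') dokB (g3cB hx hx') (g3okB hx hx') (xr0 hx hx').1 (xr0 hx hx').2 (div_S_le (k := 8) (by norm_num) (by norm_num)) ((gatB01 x).n1) (gatB13 hx hx') (fun _ => (gatB12 x).n1) (fun _ _ => (gatB22 x).n1) ((datB01 x).n1) (datB13 hx hx') (fun _ => (datB12 x).n1) (fun _ _ => (datB22 x).n1) EW.B123_011p ⟨by decide, by decide⟩ (by norm_num) hx hx'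

theorem sG_B123_012p {x : ℝ} (hx : ((697932185 : ℕ) : ℝ) / S ≤ x) (hx' : x ≤ (((697932185 : ℕ) : ℝ) + (42949674 : ℕ)) / S) :
    Sg12B PP tK tL true 0 .npn 1 2 0 1 true 2 67108864 16777216 x :=
  sg12B_of (P := PP) (RK := tK) (RL := tL) (Gt := gB) (pc := pcB) (KA := 4) (C0 := c0B) rfl trivial (Or.inl rfl) (Or.inr rfl) (lo := true) (up := true) (sideB hx hx') gokB (g3okB hx hx') (xr0 hx hx').1 (xr0 hx hx').2 (div_S_le (k := 8) (by norm_num) (by norm_num)) ((gatB01 x).n1) (gatB13 hx hx') (fun _ => (gatB22 x).n1) (fun _ _ => (gatB32 x).n1) EG.B123_012p ⟨by decide, by decide⟩ (by norm_num) hx hx'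

theorem sW_B123_012p {x : ℝ} (hx : ((697932185 : ℕ) : ℝ) / S ≤ x) (hx' : x ≤ (((697932185 : ℕ) : ℝ) + (42949674 : ℕ)) / S) :
    Sg12BW PP tK tL tU 3 (eng.v x) (mog.v x) .npn 1 2 0 1 true 2 67108864 16777216 x :=
  sg12BW_of (P := PP) (RK := tK) (RL := tL) (RC := tU) (Gt := gB) (Dt := dB) (pc := pcB) (KA := 4) (N0 := 3) (C0 := c0B) (En := eng) (mo := mog) rfl trivial (Or.inl rfl) (Or.inr rfl) (lo := true) (up := true) (sideB hx hx') gokB (pinU hx hx') dokB (g3cB hx hx') (g3okB hx hx') (xr0 hx hx').1 (xr0 hx hx').2 (div_S_le (k := 8) (by norm_num) (by norm_num)) ((gatB01 x).n1) (gatB13 hx hx') (fun _ => (gatB22 x).n1) (fun _ _ => (gatB32 x).n1) ((datB01 x).n1) (datB13 hx hx') (fun _ => (datB22 x).n1) (fun _ _ => (datB32 x).n1) EW.B123_012p ⟨by decide, by decide⟩ (by norm_num) hx hx'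

theorem sG_B123_013p {x : ℝ} (hx : ((697932185 : ℕ) : ℝ) / S ≤ x) (hx' : x ≤ (((697932185 : ℕ) : ℝ) + (42949674 : ℕ)) / S) :
    Sg12B PP tK tL true 0 .npn 1 2 0 1 true 3 67108864 16777216 x :=
  sg12B_of (P := PP) (RK := tK) (RL := tL) (Gt := gB) (pc := pcB) (KA := 4) (C0 := c0B) rfl trivial (Or.inl rfl) (Or.inr rfl) (lo := true) (up := true) (sideB hx hx') gokB (g3okB hx hx') (xr0 hx hx').1 (xr0 hx hx').2 (div_S_le (k := 8) (by norm_num) (by norm_num)) ((gatB01 x).n1) (gatB13 hx hx') (fun _ => (gatB32 x).n1) (fun _ _ => (gatB42 x).n1) EG.B123_013p ⟨by decide, by decide⟩ (by norm_num) hx hx'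

theorem sW_B123_013p {x : ℝ} (hx : ((697932185 : ℕ) : ℝ) / S ≤ x) (hx' : x ≤ (((697932185 : ℕ) : ℝ) + (42949674 : ℕ)) / S) :
    Sg12BW PP tK tL tU 3 (eng.v x) (mog.v x) .npn 1 2 0 1 true 3 67108864 16777216 x :=
  sg12BW_of (P := PP) (RK := tK) (RL := tL) (RC := tU) (Gt := gB) (Dt := dB) (pc := pcB) (KA := 4) (N0 := 3) (C0 := c0B) (En := eng) (mo := mog) rfl trivial (Or.inl rfl) (Or.inr rfl) (lo := true) (up := true) (sideB hx hx') gokB (pinU hx hx') dokB (g3cB hx hx') (g3okB hx hx') (xr0 hx hx').1 (xr0 hx hx').2 (div_S_le (k := 8) (by norm_num) (by norm_num)) ((gatB01 x).n1) (gatB13 hx hx') (fun _ => (gatB32 x).n1) (fun _ _ => (gatB42 x).n1) ((datB01 x).n1) (datB13 hx hx') (fun _ => (datB32 x).n1) (fun _ _ => (datB42 x).n1) EW.B123_013p ⟨by decide, by decide⟩ (by norm_num) hx hx'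

theorem sG_B123_014p {x : ℝ} (hx : ((697932185 : ℕ) : ℝ) / S ≤ x) (hx' : x ≤ (((697932185 : ℕ) : ℝ) + (42949674 : ℕ)) / S) :
    Sg12B PP tK tL true 0 .npn 1 2 0 1 true 4 67108864 16777216 x :=
  sg12B_of (P := PP) (RK := tK) (RL := tL) (Gt := gB) (pc := pcB) (KA := 4) (C0 := c0B) rfl trivial (Or.inl rfl) (Or.inr rfl) (lo := true) (up := false) (sideB hx hx') gokB (g3okB hx hx') (xr0 hx hx').1 (xr0 hx hx').2 (div_S_le (k := 8) (by norm_num) (by norm_num)) ((gatB01 x).n1) (gatB13 hx hx') (fun _ => (gatB42 x).n1) (fun _ h => absurd h (by decide)) EG.B123_014p ⟨by decide, by decide⟩ (by norm_num) hx hx'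

theorem sW_B123_014p {x : ℝ} (hx : ((697932185 : ℕ) : ℝ) / S ≤ x) (hx' : x ≤ (((697932185 : ℕ) : ℝ) + (42949674 : ℕ)) / S) :
    Sg12BW PP tK tL tU 3 (eng.v x) (mog.v x) .npn 1 2 0 1 true 4 67108864 16777216 x :=
  sg12BW_of (P := PP) (RK := tK) (RL := tL) (RC := tU) (Gt := gB) (Dt := dB) (pc := pcB) (KA := 4) (N0 := 3) (C0 := c0B) (En := eng) (mo := mog) rfl trivial (Or.inl rfl) (Or.inr rfl) (lo := true) (up := false) (sideB hx hx') gokB (pinU hx hx') dokB (g3cB hx hx') (g3okB hx hx') (xr0 hx hx').1 (xr0 hx hx').2 (div_S_le (k := 8) (by norm_num) (by norm_num)) ((gatB01 x).n1) (gatB13 hx hx') (fun _ => (gatB42 x).n1) (fun _ h => absurd h (by decide)) ((datB01 x).n1) (datB13 hx hx') (fun _ => (datB42 x).n1) (fun _ h => absurd h (by decide)) EW.B123_014p ⟨by decide, by decide⟩ (by norm_num) hx hx'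

theorem sG_X123_015p {x : ℝ} (hx : ((697932185 : ℕ) : ℝ) / S ≤ x) (hx' : x ≤ (((697932185 : ℕ) : ℝ) + (42949674 : ℕ)) / S) :
    Ex12B PP 1 2 0 1 true 5 67108864 16777216 :=
  ex12B_of (P := PP) (RK := tK) (RL := tL) (Gt := gB) (KA := 4) (C0 := c0B) (x := x) (cn := .npn) rfl trivial (Or.inl rfl) (Or.inr rfl) gokB (g3okB hx hx') (div_S_le (k := 8) (by norm_num) (by norm_num)) ((gatB01 x).n1) (gatB13 hx hx') EG.X123_015p ⟨by decide, by decide⟩ (by norm_num) hx hx'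

theorem sG_B113_010m {x : ℝ} (hx : ((697932185 : ℕ) : ℝ) / S ≤ x) (hx' : x ≤ (((697932185 : ℕ) : ℝ) + (42949674 : ℕ)) / S) :
    Sg12B PP tK tL true 0 .nn 1 1 0 1 false 0 67108864 16777216 x :=
  sg12B_of (P := PP) (RK := tK) (RL := tL) (Gt := gB) (pc := pcB) (KA := 4) (C0 := c0B) rfl trivial (Or.inl rfl) (Or.inl rfl) (lo := true) (up := false) (sideB hx hx') gokB (g3okB hx hx') (xr0 hx hx').1 (xr0 hx hx').2 (div_S_le (k := 8) (by norm_num) (by norm_num)) ((gatB01 x).n1) (gatB13 hx hx') (fun _ => (gatB01 x).n1) (fun _ h => absurd h (by decide)) EG.B113_010m ⟨by decide, by decide⟩ (by norm_num) hx hx'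

theorem sW_B113_010m {x : ℝ} (hx : ((697932185 : ℕ) : ℝ) / S ≤ x) (hx' : x ≤ (((697932185 : ℕ) : ℝ) + (42949674 : ℕ)) / S) :
    Sg12BW PP tK tL tU 3 (eng.v x) (mog.v x) .nn 1 1 0 1 false 0 67108864 16777216 x :=
  sg12BW_of (P := PP) (RK := tK) (RL := tL) (RC := tU) (Gt := gB) (Dt := dB) (pc := pcB) (KA := 4) (N0 := 3) (C0 := c0B) (En := eng) (mo := mog) rfl trivial (Or.inl rfl) (Or.inl rfl) (lo := true) (up := false) (sideB hx hx') gokB (pinU hx hx') dokB (g3cB hx hx') (g3okB hx hx') (xr0 hx hx').1 (xr0 hx hx').2 (div_S_le (k := 8) (by norm_num) (by norm_num)) ((gatB01 x).n1) (gatB13 hx hx') (fun _ => (gatB01 x).n1) (fun _ h => absurd h (by decide)) ((datB01 x).n1) (datB13 hx hx') (fun _ => (datB01 x).n1) (fun _ h => absurd h (by decide)) EW.B113_010m ⟨by decide, by decide⟩ (by norm_num) hx hx'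

theorem sG_X113_011m {x : ℝ} (hx : ((697932185 : ℕ) : ℝ) / S ≤ x) (hx' : x ≤ (((697932185 : ℕ) : ℝ) + (42949674 : ℕ)) / S) :
    Ex12B PP 1 1 0 1 false 1 67108864 16777216 :=
  ex12B_of (P := PP) (RK := tK) (RL := tL) (Gt := gB) (KA := 4) (C0 := c0B) (x := x) (cn := .nn) rfl trivial (Or.inl rfl) (Or.inl rfl) gokB (g3okB hx hx') (div_S_le (k := 8) (by norm_num) (by norm_num)) ((gatB01 x).n1) (gatB13 hx hx') EG.X113_011m ⟨by decide, by decide⟩ (by norm_num) hx hx'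

theorem sG_B123_010m {x : ℝ} (hx : ((697932185 : ℕ) : ℝ) / S ≤ x) (hx' : x ≤ (((697932185 : ℕ) : ℝ) + (42949674 : ℕ)) / S) :
    Sg12B PP tK tL true 0 .npn 1 2 0 1 false 0 67108864 16777216 x :=
  sg12B_of (P := PP) (RK := tK) (RL := tL) (Gt := gB) (pc := pcB) (KA := 4) (C0 := c0B) rfl trivial (Or.inl rfl) (Or.inr rfl) (lo := true) (up := true) (sideB hx hx') gokB (g3okB hx hx') (xr0 hx hx').1 (xr0 hx hx').2 (div_S_le (k := 8) (by norm_num) (by norm_num)) ((gatB01 x).n1) (gatB13 hx hx') (fun _ => (gatB02 x).n1) (fun _ _ => (gatB12 x).n1) EG.B123_010m ⟨by decide, by decide⟩ (by norm_num) hx hx'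

theorem sW_B123_010m {x : ℝ} (hx : ((697932185 : ℕ) : ℝ) / S ≤ x) (hx' : x ≤ (((697932185 : ℕ) : ℝ) + (42949674 : ℕ)) / S) :
    Sg12BW PP tK tL tU 3 (eng.v x) (mog.v x) .npn 1 2 0 1 false 0 67108864 16777216 x :=
  sg12BW_of (P := PP) (RK := tK) (RL := tL) (RC := tU) (Gt := gB) (Dt := dB) (pc := pcB) (KA := 4) (N0 := 3) (C0 := c0B) (En := eng) (mo := mog) rfl trivial (Or.inl rfl) (Or.inr rfl) (lo := true) (up := true) (sideB hx hx') gokB (pinU hx hx') dokB (g3cB hx hx') (g3okB hx hx') (xr0 hx hx').1 (xr0 hx hx').2 (div_S_le (k := 8) (by norm_num) (by norm_num)) ((gatB01 x).n1) (gatB13 hx hx') (fun _ => (gatB02 x).n1) (fun _ _ => (gatB12 x).n1) ((datB01 x).n1) (datB13 hx hx') (fun _ => (datB02 x).n1) (fun _ _ => (datB12 x).n1) EW.B123_010m ⟨by decide, by decide⟩ (by norm_num) hx hx'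

theorem sG_B123_011m {x : ℝ} (hx : ((697932185 : ℕ) : ℝ) / S ≤ x) (hx' : x ≤ (((697932185 : ℕ) : ℝ) + (42949674 : ℕ)) / S) :
    Sg12B PP tK tL true 0 .npn 1 2 0 1 false 1 67108864 16777216 x :=
  sg12B_of (P := PP) (RK := tK) (RL := tL) (Gt := gB) (pc := pcB) (KA := 4) (C0 := c0B) rfl trivial (Or.inl rfl) (Or.inr rfl) (lo := true) (up := true) (sideB hx hx') gokB (g3okB hx hx') (xr0 hx hx').1 (xr0 hx hx').2 (div_S_le (k := 8) (by norm_num) (by norm_num)) ((gatB01 x).n1) (gatB13 hx hx') (fun _ => (gatB12 x).n1) (fun _ _ => (gatB22 x).n1) EG.B123_011m ⟨by decide, by decide⟩ (by norm_num) hx hx'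

theorem sW_B123_011m {x : ℝ} (hx : ((697932185 : ℕ) : ℝ) / S ≤ x) (hx' : x ≤ (((697932185 : ℕ) : ℝ) + (42949674 : ℕ)) / S) :
    Sg12BW PP tK tL tU 3 (eng.v x) (mog.v x) .npn 1 2 0 1 false 1 67108864 16777216 x :=
  sg12BW_of (P := PP) (RK := tK) (RL := tL) (RC := tU) (Gt := gB) (Dt := dB) (pc := pcB) (KA := 4) (N0 := 3) (C0 := c0B) (En := eng) (mo := mog) rfl trivial (Or.inl rfl) (Or.inr rfl) (lo := true) (up := true) (sideB hx hx') gokB (pinU hx hx') dokB (g3cB hx hx') (g3okB hx hx') (xr0 hx hx').1 (xr0 hx hx').2 (div_S_le (k := 8) (by norm_num) (by norm_num)) ((gatB01 x).n1) (gatB13 hx hx') (fun _ => (gatB12 x).n1) (fun _ _ => (gatB22 x).n1) ((datB01 x).n1) (datB13 hx hx') (fun _ => (datB12 x).n1) (fun _ _ => (datB22 x).n1) EW.B123_011m ⟨by decide, by decide⟩ (by norm_num) hx hx'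

theorem sG_B123_012m {x : ℝ} (hx : ((697932185 : ℕ) : ℝ) / S ≤ x) (hx' : x ≤ (((697932185 : ℕ) : ℝ) + (42949674 : ℕ)) / S) :
    Sg12B PP tK tL true 0 .npn 1 2 0 1 false 2 67108864 16777216 x :=
  sg12B_of (P := PP) (RK := tK) (RL := tL) (Gt := gB) (pc := pcB) (KA := 4) (C0 := c0B) rfl trivial (Or.inl rfl) (Or.inr rfl) (lo := true) (up := true) (sideB hx hx') gokB (g3okB hx hx') (xr0 hx hx').1 (xr0 hx hx').2 (div_S_le (k := 8) (by norm_num) (by norm_num)) ((gatB01 x).n1) (gatB13 hx hx') (fun _ => (gatB22 x).n1) (fun _ _ => (gatB32 x).n1) EG.B123_012m ⟨by decide, by decide⟩ (by norm_num) hx hx'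

theorem sW_B123_012m {x : ℝ} (hx : ((697932185 : ℕ) : ℝ) / S ≤ x) (hx' : x ≤ (((697932185 : ℕ) : ℝ) + (42949674 : ℕ)) / S) :
    Sg12BW PP tK tL tU 3 (eng.v x) (mog.v x) .npn 1 2 0 1 false 2 67108864 16777216 x :=
  sg12BW_of (P := PP) (RK := tK) (RL := tL) (RC := tU) (Gt := gB) (Dt := dB) (pc := pcB) (KA := 4) (N0 := 3) (C0 := c0B) (En := eng) (mo := mog) rfl trivial (Or.inl rfl) (Or.inr rfl) (lo := true) (up := true) (sideB hx hx') gokB (pinU hx hx') dokB (g3cB hx hx') (g3okB hx hx') (xr0 hx hx').1 (xr0 hx hx').2 (div_S_le (k := 8) (by norm_num) (by norm_num)) ((gatB01 x).n1) (gatB13 hx hx') (fun _ => (gatB22 x).n1) (fun _ _ => (gatB32 x).n1) ((datB01 x).n1) (datB13 hx hx') (fun _ => (datB22 x).n1) (fun _ _ => (datB32 x).n1) EW.B123_012m ⟨by decide, by decide⟩ (by norm_num) hx hx'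

theorem sG_B123_013m {x : ℝ} (hx : ((697932185 : ℕ) : ℝ) / S ≤ x) (hx' : x ≤ (((697932185 : ℕ) : ℝ) + (42949674 : ℕ)) / S) :
    Sg12B PP tK tL true 0 .npn 1 2 0 1 false 3 67108864 16777216 x :=
  sg12B_of (P := PP) (RK := tK) (RL := tL) (Gt := gB) (pc := pcB) (KA := 4) (C0 := c0B) rfl trivial (Or.inl rfl) (Or.inr rfl) (lo := true) (up := true) (sideB hx hx') gokB (g3okB hx hx') (xr0 hx hx').1 (xr0 hx hx').2 (div_S_le (k := 8) (by norm_num) (by norm_num)) ((gatB01 x).n1) (gatB13 hx hx') (fun _ => (gatB32 x).n1) (fun _ _ => (gatB42 x).n1) EG.B123_013m ⟨by decide, by decide⟩ (by norm_num) hx hx'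

theorem sW_B123_013m {x : ℝ} (hx : ((697932185 : ℕ) : ℝ) / S ≤ x) (hx' : x ≤ (((697932185 : ℕ) : ℝ) + (42949674 : ℕ)) / S) :
    Sg12BW PP tK tL tU 3 (eng.v x) (mog.v x) .npn 1 2 0 1 false 3 67108864 16777216 x :=
  sg12BW_of (P := PP) (RK := tK) (RL := tL) (RC := tU) (Gt := gB) (Dt := dB) (pc := pcB) (KA := 4) (N0 := 3) (C0 := c0B) (En := eng) (mo := mog) rfl trivial (Or.inl rfl) (Or.inr rfl) (lo := true) (up := true) (sideB hx hx') gokB (pinU hx hx') dokB (g3cB hx hx') (g3okB hx hx') (xr0 hx hx').1 (xr0 hx hx').2 (div_S_le (k := 8) (by norm_num) (by norm_num)) ((gatB01 x).n1) (gatB13 hx hx') (fun _ => (gatB32 x).n1) (fun _ _ => (gatB42 x).n1) ((datB01 x).n1) (datB13 hx hx') (fun _ => (datB32 x).n1) (fun _ _ => (datB42 x).n1) EW.B123_013m ⟨by decide, by decide⟩ (by norm_num) hx hx'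

theorem sG_B123_014m {x : ℝ} (hx : ((697932185 : ℕ) : ℝ) / S ≤ x) (hx' : x ≤ (((697932185 : ℕ) : ℝ) + (42949674 : ℕ)) / S) :
    Sg12B PP tK tL true 0 .npn 1 2 0 1 false 4 67108864 16777216 x :=
  sg12B_of (P := PP) (RK := tK) (RL := tL) (Gt := gB) (pc := pcB) (KA := 4) (C0 := c0B) rfl trivial (Or.inl rfl) (Or.inr rfl) (lo := true) (up := false) (sideB hx hx') gokB (g3okB hx hx') (xr0 hx hx').1 (xr0 hx hx').2 (div_S_le (k := 8) (by norm_num) (by norm_num)) ((gatB01 x).n1) (gatB13 hx hx') (fun _ => (gatB42 x).n1) (fun _ h => absurd h (by decide)) EG.B123_014m ⟨by decide, by decide⟩ (by norm_num) hx hx'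

theorem sW_B123_014m {x : ℝ} (hx : ((697932185 : ℕ) : ℝ) / S ≤ x) (hx' : x ≤ (((697932185 : ℕ) : ℝ) + (42949674 : ℕ)) / S) :
    Sg12BW PP tK tL tU 3 (eng.v x) (mog.v x) .npn 1 2 0 1 false 4 67108864 16777216 x :=
  sg12BW_of (P := PP) (RK := tK) (RL := tL) (RC := tU) (Gt := gB) (Dt := dB) (pc := pcB) (KA := 4) (N0 := 3) (C0 := c0B) (En := eng) (mo := mog) rfl trivial (Or.inl rfl) (Or.inr rfl) (lo := true) (up := false) (sideB hx hx') gokB (pinU hx hx') dokB (g3cB hx hx') (g3okB hx hx') (xr0 hx hx').1 (xr0 hx hx').2 (div_S_le (k := 8) (by norm_num) (by norm_num)) ((gatB01 x).n1) (gatB13 hx hx') (fun _ => (gatB42 x).n1) (fun _ h => absurd h (by decide)) ((datB01 x).n1) (datB13 hx hx') (fun _ => (datB42 x).n1) (fun _ h => absurd h (by decide)) EW.B123_014m ⟨by decide, by decide⟩ (by norm_num) hx hx'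

theorem sG_X123_015m {x : ℝ} (hx : ((697932185 : ℕ) : ℝ) / S ≤ x) (hx' : x ≤ (((697932185 : ℕ) : ℝ) + (42949674 : ℕ)) / S) :
    Ex12B PP 1 2 0 1 false 5 67108864 16777216 :=
  ex12B_of (P := PP) (RK := tK) (RL := tL) (Gt := gB) (KA := 4) (C0 := c0B) (x := x) (cn := .npn) rfl trivial (Or.inl rfl) (Or.inr rfl) gokB (g3okB hx hx') (div_S_le (k := 8) (by norm_num) (by norm_num)) ((gatB01 x).n1) (gatB13 hx hx') EG.X123_015m ⟨by decide, by decide⟩ (by norm_num) hx hx'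

theorem sG_B213_010m {x : ℝ} (hx : ((697932185 : ℕ) : ℝ) / S ≤ x) (hx' : x ≤ (((697932185 : ℕ) : ℝ) + (42949674 : ℕ)) / S) :
    Sg12B PP tK tL true 0 .pnn 2 1 0 1 false 0 67108864 16777216 x :=
  sg12B_of (P := PP) (RK := tK) (RL := tL) (Gt := gB) (pc := pcB) (KA := 4) (C0 := c0B) rfl trivial (Or.inr rfl) (Or.inl rfl) (lo := true) (up := false) (sideB hx hx') gokB (g3okB hx hx') (xr0 hx hx').1 (xr0 hx hx').2 (div_S_le (k := 8) (by norm_num) (by norm_num)) ((gatB02 x).n1) (gatB13 hx hx') (fun _ => (gatB01 x).n1) (fun _ h => absurd h (by decide)) EG.B213_010m ⟨by decide, by decide⟩ (by norm_num) hx hx'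

theorem sW_B213_010m {x : ℝ} (hx : ((697932185 : ℕ) : ℝ) / S ≤ x) (hx' : x ≤ (((697932185 : ℕ) : ℝ) + (42949674 : ℕ)) / S) :
    Sg12BW PP tK tL tU 3 (eng.v x) (mog.v x) .pnn 2 1 0 1 false 0 67108864 16777216 x :=
  sg12BW_of (P := PP) (RK := tK) (RL := tL) (RC := tU) (Gt := gB) (Dt := dB) (pc := pcB) (KA := 4) (N0 := 3) (C0 := c0B) (En := eng) (mo := mog) rfl trivial (Or.inr rfl) (Or.inl rfl) (lo := true) (up := false) (sideB hx hx') gokB (pinU hx hx') dokB (g3cB hx hx') (g3okB hx hx') (xr0 hx hx').1 (xr0 hx hx').2 (div_S_le (k := 8) (by norm_num) (by norm_num)) ((gatB02 x).n1) (gatB13 hx hx') (fun _ => (gatB01 x).n1) (fun _ h => absurd h (by decide)) ((datB02 x).n1) (datB13 hx hx') (fun _ => (datB01 x).n1) (fun _ h => absurd h (by decide)) EW.B213_010m ⟨by decide, by decide⟩ (by norm_num) hx hx'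

theorem sG_X213_011m {x : ℝ} (hx : ((697932185 : ℕ) : ℝ) / S ≤ x) (hx' : x ≤ (((697932185 : ℕ) : ℝ) + (42949674 : ℕ)) / S) :
    Ex12B PP 2 1 0 1 false 1 67108864 16777216 :=
  ex12B_of (P := PP) (RK := tK) (RL := tL) (Gt := gB) (KA := 4) (C0 := c0B) (x := x) (cn := .pnn) rfl trivial (Or.inr rfl) (Or.inl rfl) gokB (g3okB hx hx') (div_S_le (k := 8) (by norm_num) (by norm_num)) ((gatB02 x).n1) (gatB13 hx hx') EG.X213_011m ⟨by decide, by decide⟩ (by norm_num) hx hx'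

theorem sG_B213_110m {x : ℝ} (hx : ((697932185 : ℕ) : ℝ) / S ≤ x) (hx' : x ≤ (((697932185 : ℕ) : ℝ) + (42949674 : ℕ)) / S) :
    Sg12B PP tK tL true 0 .pnn 2 1 1 1 false 0 67108864 16777216 x :=
  sg12B_of (P := PP) (RK := tK) (RL := tL) (Gt := gB) (pc := pcB) (KA := 4) (C0 := c0B) rfl trivial (Or.inr rfl) (Or.inl rfl) (lo := true) (up := false) (sideB hx hx') gokB (g3okB hx hx') (xr0 hx hx').1 (xr0 hx hx').2 (div_S_le (k := 8) (by norm_num) (by norm_num)) ((gatB12 x).n1) (gatB13 hx hx') (fun _ => (gatB01 x).n1) (fun _ h => absurd h (by decide)) EG.B213_110m ⟨by decide, by decide⟩ (by norm_num) hx hx'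

theorem sW_B213_110m {x : ℝ} (hx : ((697932185 : ℕ) : ℝ) / S ≤ x) (hx' : x ≤ (((697932185 : ℕ) : ℝ) + (42949674 : ℕ)) / S) :
    Sg12BW PP tK tL tU 3 (eng.v x) (mog.v x) .pnn 2 1 1 1 false 0 67108864 16777216 x :=
  sg12BW_of (P := PP) (RK := tK) (RL := tL) (RC := tU) (Gt := gB) (Dt := dB) (pc := pcB) (KA := 4) (N0 := 3) (C0 := c0B) (En := eng) (mo := mog) rfl trivial (Or.inr rfl) (Or.inl rfl) (lo := true) (up := false) (sideB hx hx') gokB (pinU hx hx') dokB (g3cB hx hx') (g3okB hx hx') (xr0 hx hx').1 (xr0 hx hx').2 (div_S_le (k := 8) (by norm_num) (by norm_num)) ((gatB12 x).n1) (gatB13 hx hx') (fun _ => (gatB01 x).n1) (fun _ h => absurd h (by decide)) ((datB12 x).n1) (datB13 hx hx') (fun _ => (datB01 x).n1) (fun _ h => absurd h (by decide)) EW.B213_110m ⟨by decide, by decide⟩ (by norm_num) hx hx'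

theorem sG_X213_111m {x : ℝ} (hx : ((697932185 : ℕ) : ℝ) / S ≤ x) (hx' : x ≤ (((697932185 : ℕ) : ℝ) + (42949674 : ℕ)) / S) :
    Ex12B PP 2 1 1 1 false 1 67108864 16777216 :=
  ex12B_of (P := PP) (RK := tK) (RL := tL) (Gt := gB) (KA := 4) (C0 := c0B) (x := x) (cn := .pnn) rfl trivial (Or.inr rfl) (Or.inl rfl) gokB (g3okB hx hx') (div_S_le (k := 8) (by norm_num) (by norm_num)) ((gatB12 x).n1) (gatB13 hx hx') EG.X213_111m ⟨by decide, by decide⟩ (by norm_num) hx hx'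

theorem sG_B213_210m {x : ℝ} (hx : ((697932185 : ℕ) : ℝ) / S ≤ x) (hx' : x ≤ (((697932185 : ℕ) : ℝ) + (42949674 : ℕ)) / S) :
    Sg12B PP tK tL true 0 .pnn 2 1 2 1 false 0 67108864 16777216 x :=
  sg12B_of (P := PP) (RK := tK) (RL := tL) (Gt := gB) (pc := pcB) (KA := 4) (C0 := c0B) rfl trivial (Or.inr rfl) (Or.inl rfl) (lo := true) (up := false) (sideB hx hx') gokB (g3okB hx hx') (xr0 hx hx').1 (xr0 hx hx').2 (div_S_le (k := 8) (by norm_num) (by norm_num)) ((gatB22 x).n1) (gatB13 hx hx') (fun _ => (gatB01 x).n1) (fun _ h => absurd h (by decide)) EG.B213_210m ⟨by decide, by decide⟩ (by norm_num) hx hx'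

theorem sW_B213_210m {x : ℝ} (hx : ((697932185 : ℕ) : ℝ) / S ≤ x) (hx' : x ≤ (((697932185 : ℕ) : ℝ) + (42949674 : ℕ)) / S) :
    Sg12BW PP tK tL tU 3 (eng.v x) (mog.v x) .pnn 2 1 2 1 false 0 67108864 16777216 x :=
  sg12BW_of (P := PP) (RK := tK) (RL := tL) (RC := tU) (Gt := gB) (Dt := dB) (pc := pcB) (KA := 4) (N0 := 3) (C0 := c0B) (En := eng) (mo := mog) rfl trivial (Or.inr rfl) (Or.inl rfl) (lo := true) (up := false) (sideB hx hx') gokB (pinU hx hx') dokB (g3cB hx hx') (g3okB hx hx') (xr0 hx hx').1 (xr0 hx hx').2 (div_S_le (k := 8) (by norm_num) (by norm_num)) ((gatB22 x).n1) (gatB13 hx hx') (fun _ => (gatB01 x).n1) (fun _ h => absurd h (by decide)) ((datB22 x).n1) (datB13 hx hx') (fun _ => (datB01 x).n1) (fun _ h => absurd h (by decide)) EW.B213_210m ⟨by decide, by decide⟩ (by norm_num) hx hx'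

theorem sG_X213_211m {x : ℝ} (hx : ((697932185 : ℕ) : ℝ) / S ≤ x) (hx' : x ≤ (((697932185 : ℕ) : ℝ) + (42949674 : ℕ)) / S) :
    Ex12B PP 2 1 2 1 false 1 67108864 16777216 :=
  ex12B_of (P := PP) (RK := tK) (RL := tL) (Gt := gB) (KA := 4) (C0 := c0B) (x := x) (cn := .pnn) rfl trivial (Or.inr rfl) (Or.inl rfl) gokB (g3okB hx hx') (div_S_le (k := 8) (by norm_num) (by norm_num)) ((gatB22 x).n1) (gatB13 hx hx') EG.X213_211m ⟨by decide, by decide⟩ (by norm_num) hx hx'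

theorem sG_B213_310m {x : ℝ} (hx : ((697932185 : ℕ) : ℝ) / S ≤ x) (hx' : x ≤ (((697932185 : ℕ) : ℝ) + (42949674 : ℕ)) / S) :
    Sg12B PP tK tL true 0 .pnn 2 1 3 1 false 0 67108864 16777216 x :=
  sg12B_of (P := PP) (RK := tK) (RL := tL) (Gt := gB) (pc := pcB) (KA := 4) (C0 := c0B) rfl trivial (Or.inr rfl) (Or.inl rfl) (lo := true) (up := false) (sideB hx hx') gokB (g3okB hx hx') (xr0 hx hx').1 (xr0 hx hx').2 (div_S_le (k := 8) (by norm_num) (by norm_num)) ((gatB32 x).n1) (gatB13 hx hx') (fun _ => (gatB01 x).n1) (fun _ h => absurd h (by decide)) EG.B213_310m ⟨by decide, by decide⟩ (by norm_num) hx hx'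

theorem sW_B213_310m {x : ℝ} (hx : ((697932185 : ℕ) : ℝ) / S ≤ x) (hx' : x ≤ (((697932185 : ℕ) : ℝ) + (42949674 : ℕ)) / S) :
    Sg12BW PP tK tL tU 3 (eng.v x) (mog.v x) .pnn 2 1 3 1 false 0 67108864 16777216 x :=
  sg12BW_of (P := PP) (RK := tK) (RL := tL) (RC := tU) (Gt := gB) (Dt := dB) (pc := pcB) (KA := 4) (N0 := 3) (C0 := c0B) (En := eng) (mo := mog) rfl trivial (Or.inr rfl) (Or.inl rfl) (lo := true) (up := false) (sideB hx hx') gokB (pinU hx hx') dokB (g3cB hx hx') (g3okB hx hx') (xr0 hx hx').1 (xr0 hx hx').2 (div_S_le (k := 8) (by norm_num) (by norm_num)) ((gatB32 x).n1) (gatB13 hx hx') (fun _ => (gatB01 x).n1) (fun _ h => absurd h (by decide)) ((datB32 x).n1) (datB13 hx hx') (fun _ => (datB01 x).n1) (fun _ h => absurd h (by decide)) EW.B213_310m ⟨by decide, by decide⟩ (by norm_num) hx hx'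

theorem sG_X213_311m {x : ℝ} (hx : ((697932185 : ℕ) : ℝ) / S ≤ x) (hx' : x ≤ (((697932185 : ℕ) : ℝ) + (42949674 : ℕ)) / S) :
    Ex12B PP 2 1 3 1 false 1 67108864 16777216 :=
  ex12B_of (P := PP) (RK := tK) (RL := tL) (Gt := gB) (KA := 4) (C0 := c0B) (x := x) (cn := .pnn) rfl trivial (Or.inr rfl) (Or.inl rfl) gokB (g3okB hx hx') (div_S_le (k := 8) (by norm_num) (by norm_num)) ((gatB32 x).n1) (gatB13 hx hx') EG.X213_311m ⟨by decide, by decide⟩ (by norm_num) hx hx'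

theorem sG_B213_410m {x : ℝ} (hx : ((697932185 : ℕ) : ℝ) / S ≤ x) (hx' : x ≤ (((697932185 : ℕ) : ℝ) + (42949674 : ℕ)) / S) :
    Sg12B PP tK tL true 0 .pnn 2 1 4 1 false 0 67108864 16777216 x :=
  sg12B_of (P := PP) (RK := tK) (RL := tL) (Gt := gB) (pc := pcB) (KA := 4) (C0 := c0B) rfl trivial (Or.inr rfl) (Or.inl rfl) (lo := true) (up := false) (sideB hx hx') gokB (g3okB hx hx') (xr0 hx hx').1 (xr0 hx hx').2 (div_S_le (k := 8) (by norm_num) (by norm_num)) ((gatB42 x).n1) (gatB13 hx hx') (fun _ => (gatB01 x).n1) (fun _ h => absurd h (by decide)) EG.B213_410m ⟨by decide, by decide⟩ (by norm_num) hx hx'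

theorem sW_B213_410m {x : ℝ} (hx : ((697932185 : ℕ) : ℝ) / S ≤ x) (hx' : x ≤ (((697932185 : ℕ) : ℝ) + (42949674 : ℕ)) / S) :
    Sg12BW PP tK tL tU 3 (eng.v x) (mog.v x) .pnn 2 1 4 1 false 0 67108864 16777216 x :=
  sg12BW_of (P := PP) (RK := tK) (RL := tL) (RC := tU) (Gt := gB) (Dt := dB) (pc := pcB) (KA := 4) (N0 := 3) (C0 := c0B) (En := eng) (mo := mog) rfl trivial (Or.inr rfl) (Or.inl rfl) (lo := true) (up := false) (sideB hx hx') gokB (pinU hx hx') dokB (g3cB hx hx') (g3okB hx hx') (xr0 hx hx').1 (xr0 hx hx').2 (div_S_le (k := 8) (by norm_num) (by norm_num)) ((gatB42 x).n1) (gatB13 hx hx') (fun _ => (gatB01 x).n1) (fun _ h => absurd h (by decide)) ((datB42 x).n1) (datB13 hx hx') (fun _ => (datB01 x).n1) (fun _ h => absurd h (by decide)) EW.B213_410m ⟨by decide, by decide⟩ (by norm_num) hx hx'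

theorem sG_X213_411m {x : ℝ} (hx : ((697932185 : ℕ) : ℝ) / S ≤ x) (hx' : x ≤ (((697932185 : ℕ) : ℝ) + (42949674 : ℕ)) / S) :
    Ex12B PP 2 1 4 1 false 1 67108864 16777216 :=
  ex12B_of (P := PP) (RK := tK) (RL := tL) (Gt := gB) (KA := 4) (C0 := c0B) (x := x) (cn := .pnn) rfl trivial (Or.inr rfl) (Or.inl rfl) gokB (g3okB hx hx') (div_S_le (k := 8) (by norm_num) (by norm_num)) ((gatB42 x).n1) (gatB13 hx hx') EG.X213_411m ⟨by decide, by decide⟩ (by norm_num) hx hx'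

theorem sG_B113_020p {x : ℝ} (hx : ((697932185 : ℕ) : ℝ) / S ≤ x) (hx' : x ≤ (((697932185 : ℕ) : ℝ) + (42949674 : ℕ)) / S) :
    Sg12B PP tK tL true 0 .nn 1 1 0 2 true 0 67108864 16777216 x :=
  sg12B_of (P := PP) (RK := tK) (RL := tL) (Gt := gB) (pc := pcB) (KA := 4) (C0 := c0B) rfl trivial (Or.inl rfl) (Or.inl rfl) (lo := true) (up := false) (sideB hx hx') gokB (g3okB hx hx') (xr0 hx hx').1 (xr0 hx hx').2 (div_S_le (k := 8) (by norm_num) (by norm_num)) ((gatB01 x).n1) (gatB23 hx hx') (fun _ => (gatB01 x).n1) (fun _ h => absurd h (by decide)) EG.B113_020p ⟨by decide, by decide⟩ (by norm_num) hx hx'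

theorem sW_B113_020p {x : ℝ} (hx : ((697932185 : ℕ) : ℝ) / S ≤ x) (hx' : x ≤ (((697932185 : ℕ) : ℝ) + (42949674 : ℕ)) / S) :
    Sg12BW PP tK tL tU 3 (eng.v x) (mog.v x) .nn 1 1 0 2 true 0 67108864 16777216 x :=
  sg12BW_of (P := PP) (RK := tK) (RL := tL) (RC := tU) (Gt := gB) (Dt := dB) (pc := pcB) (KA := 4) (N0 := 3) (C0 := c0B) (En := eng) (mo := mog) rfl trivial (Or.inl rfl) (Or.inl rfl) (lo := true) (up := false) (sideB hx hx') gokB (pinU hx hx') dokB (g3cB hx hx') (g3okB hx hx') (xr0 hx hx').1 (xr0 hx hx').2 (div_S_le (k := 8) (by norm_num) (by norm_num)) ((gatB01 x).n1) (gatB23 hx hx') (fun _ => (gatB01 x).n1) (fun _ h => absurd h (by decide)) ((datB01 x).n1) (datB23 hx hx') (fun _ => (datB01 x).n1) (fun _ h => absurd h (by decide)) EW.B113_020p ⟨by decide, by decide⟩ (by norm_num) hx hx'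

theorem sG_X113_021p {x : ℝ} (hx : ((697932185 : ℕ) : ℝ) / S ≤ x) (hx' : x ≤ (((697932185 : ℕ) : ℝ) + (42949674 : ℕ)) / S) :
    Ex12B PP 1 1 0 2 true 1 67108864 16777216 :=
  ex12B_of (P := PP) (RK := tK) (RL := tL) (Gt := gB) (KA := 4) (C0 := c0B) (x := x) (cn := .nn) rfl trivial (Or.inl rfl) (Or.inl rfl) gokB (g3okB hx hx') (div_S_le (k := 8) (by norm_num) (by norm_num)) ((gatB01 x).n1) (gatB23 hx hx') EG.X113_021p ⟨by decide, by decide⟩ (by norm_num) hx hx'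

theorem sG_B123_020p {x : ℝ} (hx : ((697932185 : ℕ) : ℝ) / S ≤ x) (hx' : x ≤ (((697932185 : ℕ) : ℝ) + (42949674 : ℕ)) / S) :
    Sg12B PP tK tL true 0 .npn 1 2 0 2 true 0 67108864 16777216 x :=
  sg12B_of (P := PP) (RK := tK) (RL := tL) (Gt := gB) (pc := pcB) (KA := 4) (C0 := c0B) rfl trivial (Or.inl rfl) (Or.inr rfl) (lo := true) (up := true) (sideB hx hx') gokB (g3okB hx hx') (xr0 hx hx').1 (xr0 hx hx').2 (div_S_le (k := 8) (by norm_num) (by norm_num)) ((gatB01 x).n1) (gatB23 hx hx') (fun _ => (gatB02 x).n1) (fun _ _ => (gatB12 x).n1) EG.B123_020p ⟨by decide, by decide⟩ (by norm_num) hx hx'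

theorem sW_B123_020p {x : ℝ} (hx : ((697932185 : ℕ) : ℝ) / S ≤ x) (hx' : x ≤ (((697932185 : ℕ) : ℝ) + (42949674 : ℕ)) / S) :
    Sg12BW PP tK tL tU 3 (eng.v x) (mog.v x) .npn 1 2 0 2 true 0 67108864 16777216 x :=
  sg12BW_of (P := PP) (RK := tK) (RL := tL) (RC := tU) (Gt := gB) (Dt := dB) (pc := pcB) (KA := 4) (N0 := 3) (C0 := c0B) (En := eng) (mo := mog) rfl trivial (Or.inl rfl) (Or.inr rfl) (lo := true) (up := true) (sideB hx hx') gokB (pinU hx hx') dokB (g3cB hx hx') (g3okB hx hx') (xr0 hx hx').1 (xr0 hx hx').2 (div_S_le (k := 8) (by norm_num) (by norm_num)) ((gatB01 x).n1) (gatB23 hx hx') (fun _ => (gatB02 x).n1) (fun _ _ => (gatB12 x).n1) ((datB01 x).n1) (datB23 hx hx') (fun _ => (datB02 x).n1) (fun _ _ => (datB12 x).n1) EW.B123_020p ⟨by decide, by decide⟩ (by norm_num) hx hx'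

theorem sG_B123_021p {x : ℝ} (hx : ((697932185 : ℕ) : ℝ) / S ≤ x) (hx' : x ≤ (((697932185 : ℕ) : ℝ) + (42949674 : ℕ)) / S) :
    Sg12B PP tK tL true 0 .npn 1 2 0 2 true 1 67108864 16777216 x :=
  sg12B_of (P := PP) (RK := tK) (RL := tL) (Gt := gB) (pc := pcB) (KA := 4) (C0 := c0B) rfl trivial (Or.inl rfl) (Or.inr rfl) (lo := true) (up := true) (sideB hx hx') gokB (g3okB hx hx') (xr0 hx hx').1 (xr0 hx hx').2 (div_S_le (k := 8) (by norm_num) (by norm_num)) ((gatB01 x).n1) (gatB23 hx hx') (fun _ => (gatB12 x).n1) (fun _ _ => (gatB22 x).n1) EG.B123_021p ⟨by decide, by decide⟩ (by norm_num) hx hx'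

theorem sW_B123_021p {x : ℝ} (hx : ((697932185 : ℕ) : ℝ) / S ≤ x) (hx' : x ≤ (((697932185 : ℕ) : ℝ) + (42949674 : ℕ)) / S) :
    Sg12BW PP tK tL tU 3 (eng.v x) (mog.v x) .npn 1 2 0 2 true 1 67108864 16777216 x :=
  sg12BW_of (P := PP) (RK := tK) (RL := tL) (RC := tU) (Gt := gB) (Dt := dB) (pc := pcB) (KA := 4) (N0 := 3) (C0 := c0B) (En := eng) (mo := mog) rfl trivial (Or.inl rfl) (Or.inr rfl) (lo := true) (up := true) (sideB hx hx') gokB (pinU hx hx') dokB (g3cB hx hx') (g3okB hx hx') (xr0 hx hx').1 (xr0 hx hx').2 (div_S_le (k := 8) (by norm_num) (by norm_num)) ((gatB01 x).n1) (gatB23 hx hx') (fun _ => (gatB12 x).n1) (fun _ _ => (gatB22 x).n1) ((datB01 x).n1) (datB23 hx hx') (fun _ => (datB12 x).n1) (fun _ _ => (datB22 x).n1) EW.B123_021p ⟨by decide, by decide⟩ (by norm_num) hx hx'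

theorem sG_B123_022p {x : ℝ} (hx : ((697932185 : ℕ) : ℝ) / S ≤ x) (hx' : x ≤ (((697932185 : ℕ) : ℝ) + (42949674 : ℕ)) / S) :
    Sg12B PP tK tL true 0 .npn 1 2 0 2 true 2 67108864 16777216 x :=
  sg12B_of (P := PP) (RK := tK) (RL := tL) (Gt := gB) (pc := pcB) (KA := 4) (C0 := c0B) rfl trivial (Or.inl rfl) (Or.inr rfl) (lo := true) (up := true) (sideB hx hx') gokB (g3okB hx hx') (xr0 hx hx').1 (xr0 hx hx').2 (div_S_le (k := 8) (by norm_num) (by norm_num)) ((gatB01 x).n1) (gatB23 hx hx') (fun _ => (gatB22 x).n1) (fun _ _ => (gatB32 x).n1) EG.B123_022p ⟨by decide, by decide⟩ (by norm_num) hx hx'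

theorem sW_B123_022p {x : ℝ} (hx : ((697932185 : ℕ) : ℝ) / S ≤ x) (hx' : x ≤ (((697932185 : ℕ) : ℝ) + (42949674 : ℕ)) / S) :
    Sg12BW PP tK tL tU 3 (eng.v x) (mog.v x) .npn 1 2 0 2 true 2 67108864 16777216 x :=
  sg12BW_of (P := PP) (RK := tK) (RL := tL) (RC := tU) (Gt := gB) (Dt := dB) (pc := pcB) (KA := 4) (N0 := 3) (C0 := c0B) (En := eng) (mo := mog) rfl trivial (Or.inl rfl) (Or.inr rfl) (lo := true) (up := true) (sideB hx hx') gokB (pinU hx hx') dokB (g3cB hx hx') (g3okB hx hx') (xr0 hx hx').1 (xr0 hx hx').2 (div_S_le (k := 8) (by norm_num) (by norm_num)) ((gatB01 x).n1) (gatB23 hx hx') (fun _ => (gatB22 x).n1) (fun _ _ => (gatB32 x).n1) ((datB01 x).n1) (datB23 hx hx') (fun _ => (datB22 x).n1) (fun _ _ => (datB32 x).n1) EW.B123_022p ⟨by decide, by decide⟩ (by norm_num) hx hx'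

theorem sG_B123_023p {x : ℝ} (hx : ((697932185 : ℕ) : ℝ) / S ≤ x) (hx' : x ≤ (((697932185 : ℕ) : ℝ) + (42949674 : ℕ)) / S) :
    Sg12B PP tK tL true 0 .npn 1 2 0 2 true 3 67108864 16777216 x :=
  sg12B_of (P := PP) (RK := tK) (RL := tL) (Gt := gB) (pc := pcB) (KA := 4) (C0 := c0B) rfl trivial (Or.inl rfl) (Or.inr rfl) (lo := true) (up := true) (sideB hx hx') gokB (g3okB hx hx') (xr0 hx hx').1 (xr0 hx hx').2 (div_S_le (k := 8) (by norm_num) (by norm_num)) ((gatB01 x).n1) (gatB23 hx hx') (fun _ => (gatB32 x).n1) (fun _ _ => (gatB42 x).n1) EG.B123_023p ⟨by decide, by decide⟩ (by norm_num) hx hx'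

theorem sW_B123_023p {x : ℝ} (hx : ((697932185 : ℕ) : ℝ) / S ≤ x) (hx' : x ≤ (((697932185 : ℕ) : ℝ) + (42949674 : ℕ)) / S) :
    Sg12BW PP tK tL tU 3 (eng.v x) (mog.v x) .npn 1 2 0 2 true 3 67108864 16777216 x :=
  sg12BW_of (P := PP) (RK := tK) (RL := tL) (RC := tU) (Gt := gB) (Dt := dB) (pc := pcB) (KA := 4) (N0 := 3) (C0 := c0B) (En := eng) (mo := mog) rfl trivial (Or.inl rfl) (Or.inr rfl) (lo := true) (up := true) (sideB hx hx') gokB (pinU hx hx') dokB (g3cB hx hx') (g3okB hx hx') (xr0 hx hx').1 (xr0 hx hx').2 (div_S_le (k := 8) (by norm_num) (by norm_num)) ((gatB01 x).n1) (gatB23 hx hx') (fun _ => (gatB32 x).n1) (fun _ _ => (gatB42 x).n1) ((datB01 x).n1) (datB23 hx hx') (fun _ => (datB32 x).n1) (fun _ _ => (datB42 x).n1) EW.B123_023p ⟨by decide, by decide⟩ (by norm_num) hx hx'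

theorem sG_B123_024p {x : ℝ} (hx : ((697932185 : ℕ) : ℝ) / S ≤ x) (hx' : x ≤ (((697932185 : ℕ) : ℝ) + (42949674 : ℕ)) / S) :
    Sg12B PP tK tL true 0 .npn 1 2 0 2 true 4 67108864 16777216 x :=
  sg12B_of (P := PP) (RK := tK) (RL := tL) (Gt := gB) (pc := pcB) (KA := 4) (C0 := c0B) rfl trivial (Or.inl rfl) (Or.inr rfl) (lo := true) (up := false) (sideB hx hx') gokB (g3okB hx hx') (xr0 hx hx').1 (xr0 hx hx').2 (div_S_le (k := 8) (by norm_num) (by norm_num)) ((gatB01 x).n1) (gatB23 hx hx') (fun _ => (gatB42 x).n1) (fun _ h => absurd h (by decide)) EG.B123_024p ⟨by decide, by decide⟩ (by norm_num) hx hx'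

theorem sW_B123_024p {x : ℝ} (hx : ((697932185 : ℕ) : ℝ) / S ≤ x) (hx' : x ≤ (((697932185 : ℕ) : ℝ) + (42949674 : ℕ)) / S) :
    Sg12BW PP tK tL tU 3 (eng.v x) (mog.v x) .npn 1 2 0 2 true 4 67108864 16777216 x :=
  sg12BW_of (P := PP) (RK := tK) (RL := tL) (RC := tU) (Gt := gB) (Dt := dB) (pc := pcB) (KA := 4) (N0 := 3) (C0 := c0B) (En := eng) (mo := mog) rfl trivial (Or.inl rfl) (Or.inr rfl) (lo := true) (up := false) (sideB hx hx') gokB (pinU hx hx') dokB (g3cB hx hx') (g3okB hx hx') (xr0 hx hx').1 (xr0 hx hx').2 (div_S_le (k := 8) (by norm_num) (by norm_num)) ((gatB01 x).n1) (gatB23 hx hx') (fun _ => (gatB42 x).n1) (fun _ h => absurd h (by decide)) ((datB01 x).n1) (datB23 hx hx') (fun _ => (datB42 x).n1) (fun _ h => absurd h (by decide)) EW.B123_024p ⟨by decide, by decide⟩ (by norm_num) hx hx'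

theorem sG_X123_025p {x : ℝ} (hx : ((697932185 : ℕ) : ℝ) / S ≤ x) (hx' : x ≤ (((697932185 : ℕ) : ℝ) + (42949674 : ℕ)) / S) :
    Ex12B PP 1 2 0 2 true 5 67108864 16777216 :=
  ex12B_of (P := PP) (RK := tK) (RL := tL) (Gt := gB) (KA := 4) (C0 := c0B) (x := x) (cn := .npn) rfl trivial (Or.inl rfl) (Or.inr rfl) gokB (g3okB hx hx') (div_S_le (k := 8) (by norm_num) (by norm_num)) ((gatB01 x).n1) (gatB23 hx hx') EG.X123_025p ⟨by decide, by decide⟩ (by norm_num) hx hx'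

theorem sG_B113_020m {x : ℝ} (hx : ((697932185 : ℕ) : ℝ) / S ≤ x) (hx' : x ≤ (((697932185 : ℕ) : ℝ) + (42949674 : ℕ)) / S) :
    Sg12B PP tK tL true 0 .nn 1 1 0 2 false 0 67108864 16777216 x :=
  sg12B_of (P := PP) (RK := tK) (RL := tL) (Gt := gB) (pc := pcB) (KA := 4) (C0 := c0B) rfl trivial (Or.inl rfl) (Or.inl rfl) (lo := true) (up := false) (sideB hx hx') gokB (g3okB hx hx') (xr0 hx hx').1 (xr0 hx hx').2 (div_S_le (k := 8) (by norm_num) (by norm_num)) ((gatB01 x).n1) (gatB23 hx hx') (fun _ => (gatB01 x).n1) (fun _ h => absurd h (by decide)) EG.B113_020m ⟨by decide, by decide⟩ (by norm_num) hx hx'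

theorem sW_B113_020m {x : ℝ} (hx : ((697932185 : ℕ) : ℝ) / S ≤ x) (hx' : x ≤ (((697932185 : ℕ) : ℝ) + (42949674 : ℕ)) / S) :
    Sg12BW PP tK tL tU 3 (eng.v x) (mog.v x) .nn 1 1 0 2 false 0 67108864 16777216 x :=
  sg12BW_of (P := PP) (RK := tK) (RL := tL) (RC := tU) (Gt := gB) (Dt := dB) (pc := pcB) (KA := 4) (N0 := 3) (C0 := c0B) (En := eng) (mo := mog) rfl trivial (Or.inl rfl) (Or.inl rfl) (lo := true) (up := false) (sideB hx hx') gokB (pinU hx hx') dokB (g3cB hx hx') (g3okB hx hx') (xr0 hx hx').1 (xr0 hx hx').2 (div_S_le (k := 8) (by norm_num) (by norm_num)) ((gatB01 x).n1) (gatB23 hx hx') (fun _ => (gatB01 x).n1) (fun _ h => absurd h (by decide)) ((datB01 x).n1) (datB23 hx hx') (fun _ => (datB01 x).n1) (fun _ h => absurd h (by decide)) EW.B113_020m ⟨by decide, by decide⟩ (by norm_num) hx hx'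

theorem sG_X113_021m {x : ℝ} (hx : ((697932185 : ℕ) : ℝ) / S ≤ x) (hx' : x ≤ (((697932185 : ℕ) : ℝ) + (42949674 : ℕ)) / S) :
    Ex12B PP 1 1 0 2 false 1 67108864 16777216 :=
  ex12B_of (P := PP) (RK := tK) (RL := tL) (Gt := gB) (KA := 4) (C0 := c0B) (x := x) (cn := .nn) rfl trivial (Or.inl rfl) (Or.inl rfl) gokB (g3okB hx hx') (div_S_le (k := 8) (by norm_num) (by norm_num)) ((gatB01 x).n1) (gatB23 hx hx') EG.X113_021m ⟨by decide, by decide⟩ (by norm_num) hx hx'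

theorem sG_B123_020m {x : ℝ} (hx : ((697932185 : ℕ) : ℝ) / S ≤ x) (hx' : x ≤ (((697932185 : ℕ) : ℝ) + (42949674 : ℕ)) / S) :
    Sg12B PP tK tL true 0 .npn 1 2 0 2 false 0 67108864 16777216 x :=
  sg12B_of (P := PP) (RK := tK) (RL := tL) (Gt := gB) (pc := pcB) (KA := 4) (C0 := c0B) rfl trivial (Or.inl rfl) (Or.inr rfl) (lo := true) (up := true) (sideB hx hx') gokB (g3okB hx hx') (xr0 hx hx').1 (xr0 hx hx').2 (div_S_le (k := 8) (by norm_num) (by norm_num)) ((gatB01 x).n1) (gatB23 hx hx') (fun _ => (gatB02 x).n1) (fun _ _ => (gatB12 x).n1) EG.B123_020m ⟨by decide, by decide⟩ (by norm_num) hx hx'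

theorem sW_B123_020m {x : ℝ} (hx : ((697932185 : ℕ) : ℝ) / S ≤ x) (hx' : x ≤ (((697932185 : ℕ) : ℝ) + (42949674 : ℕ)) / S) :
    Sg12BW PP tK tL tU 3 (eng.v x) (mog.v x) .npn 1 2 0 2 false 0 67108864 16777216 x :=
  sg12BW_of (P := PP) (RK := tK) (RL := tL) (RC := tU) (Gt := gB) (Dt := dB) (pc := pcB) (KA := 4) (N0 := 3) (C0 := c0B) (En := eng) (mo := mog) rfl trivial (Or.inl rfl) (Or.inr rfl) (lo := true) (up := true) (sideB hx hx') gokB (pinU hx hx') dokB (g3cB hx hx') (g3okB hx hx') (xr0 hx hx').1 (xr0 hx hx').2 (div_S_le (k := 8) (by norm_num) (by norm_num)) ((gatB01 x).n1) (gatB23 hx hx') (fun _ => (gatB02 x).n1) (fun _ _ => (gatB12 x).n1) ((datB01 x).n1) (datB23 hx hx') (fun _ => (datB02 x).n1) (fun _ _ => (datB12 x).n1) EW.B123_020m ⟨by decide, by decide⟩ (by norm_num) hx hx'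

theorem sG_B123_021m {x : ℝ} (hx : ((697932185 : ℕ) : ℝ) / S ≤ x) (hx' : x ≤ (((697932185 : ℕ) : ℝ) + (42949674 : ℕ)) / S) :
    Sg12B PP tK tL true 0 .npn 1 2 0 2 false 1 67108864 16777216 x :=
  sg12B_of (P := PP) (RK := tK) (RL := tL) (Gt := gB) (pc := pcB) (KA := 4) (C0 := c0B) rfl trivial (Or.inl rfl) (Or.inr rfl) (lo := true) (up := true) (sideB hx hx') gokB (g3okB hx hx') (xr0 hx hx').1 (xr0 hx hx').2 (div_S_le (k := 8) (by norm_num) (by norm_num)) ((gatB01 x).n1) (gatB23 hx hx') (fun _ => (gatB12 x).n1) (fun _ _ => (gatB22 x).n1) EG.B123_021m ⟨by decide, by decide⟩ (by norm_num) hx hx'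

theorem sW_B123_021m {x : ℝ} (hx : ((697932185 : ℕ) : ℝ) / S ≤ x) (hx' : x ≤ (((697932185 : ℕ) : ℝ) + (42949674 : ℕ)) / S) :
    Sg12BW PP tK tL tU 3 (eng.v x) (mog.v x) .npn 1 2 0 2 false 1 67108864 16777216 x :=
  sg12BW_of (P := PP) (RK := tK) (RL := tL) (RC := tU) (Gt := gB) (Dt := dB) (pc := pcB) (KA := 4) (N0 := 3) (C0 := c0B) (En := eng) (mo := mog) rfl trivial (Or.inl rfl) (Or.inr rfl) (lo := true) (up := true) (sideB hx hx') gokB (pinU hx hx') dokB (g3cB hx hx') (g3okB hx hx') (xr0 hx hx').1 (xr0 hx hx').2 (div_S_le (k := 8) (by norm_num) (by norm_num)) ((gatB01 x).n1) (gatB23 hx hx') (fun _ => (gatB12 x).n1) (fun _ _ => (gatB22 x).n1) ((datB01 x).n1) (datB23 hx hx') (fun _ => (datB12 x).n1) (fun _ _ => (datB22 x).n1) EW.B123_021m ⟨by decide, by decide⟩ (by norm_num) hx hx'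

theorem sG_B123_022m {x : ℝ} (hx : ((697932185 : ℕ) : ℝ) / S ≤ x) (hx' : x ≤ (((697932185 : ℕ) : ℝ) + (42949674 : ℕ)) / S) :
    Sg12B PP tK tL true 0 .npn 1 2 0 2 false 2 67108864 16777216 x :=
  sg12B_of (P := PP) (RK := tK) (RL := tL) (Gt := gB) (pc := pcB) (KA := 4) (C0 := c0B) rfl trivial (Or.inl rfl) (Or.inr rfl) (lo := true) (up := true) (sideB hx hx') gokB (g3okB hx hx') (xr0 hx hx').1 (xr0 hx hx').2 (div_S_le (k := 8) (by norm_num) (by norm_num)) ((gatB01 x).n1) (gatB23 hx hx') (fun _ => (gatB22 x).n1) (fun _ _ => (gatB32 x).n1) EG.B123_022m ⟨by decide, by decide⟩ (by norm_num) hx hx'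

theorem sW_B123_022m {x : ℝ} (hx : ((697932185 : ℕ) : ℝ) / S ≤ x) (hx' : x ≤ (((697932185 : ℕ) : ℝ) + (42949674 : ℕ)) / S) :
    Sg12BW PP tK tL tU 3 (eng.v x) (mog.v x) .npn 1 2 0 2 false 2 67108864 16777216 x :=
  sg12BW_of (P := PP) (RK := tK) (RL := tL) (RC := tU) (Gt := gB) (Dt := dB) (pc := pcB) (KA := 4) (N0 := 3) (C0 := c0B) (En := eng) (mo := mog) rfl trivial (Or.inl rfl) (Or.inr rfl) (lo := true) (up := true) (sideB hx hx') gokB (pinU hx hx') dokB (g3cB hx hx') (g3okB hx hx') (xr0 hx hx').1 (xr0 hx hx').2 (div_S_le (k := 8) (by norm_num) (by norm_num)) ((gatB01 x).n1) (gatB23 hx hx') (fun _ => (gatB22 x).n1) (fun _ _ => (gatB32 x).n1) ((datB01 x).n1) (datB23 hx hx') (fun _ => (datB22 x).n1) (fun _ _ => (datB32 x).n1) EW.B123_022m ⟨by decide, by decide⟩ (by norm_num) hx hx'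

theorem sG_B123_023m {x : ℝ} (hx : ((697932185 : ℕ) : ℝ) / S ≤ x) (hx' : x ≤ (((697932185 : ℕ) : ℝ) + (42949674 : ℕ)) / S) :
    Sg12B PP tK tL true 0 .npn 1 2 0 2 false 3 67108864 16777216 x :=
  sg12B_of (P := PP) (RK := tK) (RL := tL) (Gt := gB) (pc := pcB) (KA := 4) (C0 := c0B) rfl trivial (Or.inl rfl) (Or.inr rfl) (lo := true) (up := true) (sideB hx hx') gokB (g3okB hx hx') (xr0 hx hx').1 (xr0 hx hx').2 (div_S_le (k := 8) (by norm_num) (by norm_num)) ((gatB01 x).n1) (gatB23 hx hx') (fun _ => (gatB32 x).n1) (fun _ _ => (gatB42 x).n1) EG.B123_023m ⟨by decide, by decide⟩ (by norm_num) hx hx'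

theorem sW_B123_023m {x : ℝ} (hx : ((697932185 : ℕ) : ℝ) / S ≤ x) (hx' : x ≤ (((697932185 : ℕ) : ℝ) + (42949674 : ℕ)) / S) :
    Sg12BW PP tK tL tU 3 (eng.v x) (mog.v x) .npn 1 2 0 2 false 3 67108864 16777216 x :=
  sg12BW_of (P := PP) (RK := tK) (RL := tL) (RC := tU) (Gt := gB) (Dt := dB) (pc := pcB) (KA := 4) (N0 := 3) (C0 := c0B) (En := eng) (mo := mog) rfl trivial (Or.inl rfl) (Or.inr rfl) (lo := true) (up := true) (sideB hx hx') gokB (pinU hx hx') dokB (g3cB hx hx') (g3okB hx hx') (xr0 hx hx').1 (xr0 hx hx').2 (div_S_le (k := 8) (by norm_num) (by norm_num)) ((gatB01 x).n1) (gatB23 hx hx') (fun _ => (gatB32 x).n1) (fun _ _ => (gatB42 x).n1) ((datB01 x).n1) (datB23 hx hx') (fun _ => (datB32 x).n1) (fun _ _ => (datB42 x).n1) EW.B123_023m ⟨by decide, by decide⟩ (by norm_num) hx hx'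

theorem sG_B123_024m {x : ℝ} (hx : ((697932185 : ℕ) : ℝ) / S ≤ x) (hx' : x ≤ (((697932185 : ℕ) : ℝ) + (42949674 : ℕ)) / S) :
    Sg12B PP tK tL true 0 .npn 1 2 0 2 false 4 67108864 16777216 x :=
  sg12B_of (P := PP) (RK := tK) (RL := tL) (Gt := gB) (pc := pcB) (KA := 4) (C0 := c0B) rfl trivial (Or.inl rfl) (Or.inr rfl) (lo := true) (up := false) (sideB hx hx') gokB (g3okB hx hx') (xr0 hx hx').1 (xr0 hx hx').2 (div_S_le (k := 8) (by norm_num) (by norm_num)) ((gatB01 x).n1) (gatB23 hx hx') (fun _ => (gatB42 x).n1) (fun _ h => absurd h (by decide)) EG.B123_024m ⟨by decide, by decide⟩ (by norm_num) hx hx'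

theorem sW_B123_024m {x : ℝ} (hx : ((697932185 : ℕ) : ℝ) / S ≤ x) (hx' : x ≤ (((697932185 : ℕ) : ℝ) + (42949674 : ℕ)) / S) :
    Sg12BW PP tK tL tU 3 (eng.v x) (mog.v x) .npn 1 2 0 2 false 4 67108864 16777216 x :=
  sg12BW_of (P := PP) (RK := tK) (RL := tL) (RC := tU) (Gt := gB) (Dt := dB) (pc := pcB) (KA := 4) (N0 := 3) (C0 := c0B) (En := eng) (mo := mog) rfl trivial (Or.inl rfl) (Or.inr rfl) (lo := true) (up := false) (sideB hx hx') gokB (pinU hx hx') dokB (g3cB hx hx') (g3okB hx hx') (xr0 hx hx').1 (xr0 hx hx').2 (div_S_le (k := 8) (by norm_num) (by norm_num)) ((gatB01 x).n1) (gatB23 hx hx') (fun _ => (gatB42 x).n1) (fun _ h => absurd h (by decide)) ((datB01 x).n1) (datB23 hx hx') (fun _ => (datB42 x).n1) (fun _ h => absurd h (by decide)) EW.B123_024m ⟨by decide, by decide⟩ (by norm_num) hx hx'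

theorem sG_X123_025m {x : ℝ} (hx : ((697932185 : ℕ) : ℝ) / S ≤ x) (hx' : x ≤ (((697932185 : ℕ) : ℝ) + (42949674 : ℕ)) / S) :
    Ex12B PP 1 2 0 2 false 5 67108864 16777216 :=
  ex12B_of (P := PP) (RK := tK) (RL := tL) (Gt := gB) (KA := 4) (C0 := c0B) (x := x) (cn := .npn) rfl trivial (Or.inl rfl) (Or.inr rfl) gokB (g3okB hx hx') (div_S_le (k := 8) (by norm_num) (by norm_num)) ((gatB01 x).n1) (gatB23 hx hx') EG.X123_025m ⟨by decide, by decide⟩ (by norm_num) hx hx'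

theorem sG_B213_020m {x : ℝ} (hx : ((697932185 : ℕ) : ℝ) / S ≤ x) (hx' : x ≤ (((697932185 : ℕ) : ℝ) + (42949674 : ℕ)) / S) :
    Sg12B PP tK tL true 0 .pnn 2 1 0 2 false 0 67108864 16777216 x :=
  sg12B_of (P := PP) (RK := tK) (RL := tL) (Gt := gB) (pc := pcB) (KA := 4) (C0 := c0B) rfl trivial (Or.inr rfl) (Or.inl rfl) (lo := true) (up := false) (sideB hx hx') gokB (g3okB hx hx') (xr0 hx hx').1 (xr0 hx hx').2 (div_S_le (k := 8) (by norm_num) (by norm_num)) ((gatB02 x).n1) (gatB23 hx hx') (fun _ => (gatB01 x).n1) (fun _ h => absurd h (by decide)) EG.B213_020m ⟨by decide, by decide⟩ (by norm_num) hx hx'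

theorem sW_B213_020m {x : ℝ} (hx : ((697932185 : ℕ) : ℝ) / S ≤ x) (hx' : x ≤ (((697932185 : ℕ) : ℝ) + (42949674 : ℕ)) / S) :
    Sg12BW PP tK tL tU 3 (eng.v x) (mog.v x) .pnn 2 1 0 2 false 0 67108864 16777216 x :=
  sg12BW_of (P := PP) (RK := tK) (RL := tL) (RC := tU) (Gt := gB) (Dt := dB) (pc := pcB) (KA := 4) (N0 := 3) (C0 := c0B) (En := eng) (mo := mog) rfl trivial (Or.inr rfl) (Or.inl rfl) (lo := true) (up := false) (sideB hx hx') gokB (pinU hx hx') dokB (g3cB hx hx') (g3okB hx hx') (xr0 hx hx').1 (xr0 hx hx').2 (div_S_le (k := 8) (by norm_num) (by norm_num)) ((gatB02 x).n1) (gatB23 hx hx') (fun _ => (gatB01 x).n1) (fun _ h => absurd h (by decide)) ((datB02 x).n1) (datB23 hx hx') (fun _ => (datB01 x).n1) (fun _ h => absurd h (by decide)) EW.B213_020m ⟨by decide, by decide⟩ (by norm_num) hx hx'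

theorem sG_X213_021m {x : ℝ} (hx : ((697932185 : ℕ) : ℝ) / S ≤ x) (hx' : x ≤ (((697932185 : ℕ) : ℝ) + (42949674 : ℕ)) / S) :
    Ex12B PP 2 1 0 2 false 1 67108864 16777216 :=
  ex12B_of (P := PP) (RK := tK) (RL := tL) (Gt := gB) (KA := 4) (C0 := c0B) (x := x) (cn := .pnn) rfl trivial (Or.inr rfl) (Or.inl rfl) gokB (g3okB hx hx') (div_S_le (k := 8) (by norm_num) (by norm_num)) ((gatB02 x).n1) (gatB23 hx hx') EG.X213_021m ⟨by decide, by decide⟩ (by norm_num) hx hx'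

theorem sG_B213_120m {x : ℝ} (hx : ((697932185 : ℕ) : ℝ) / S ≤ x) (hx' : x ≤ (((697932185 : ℕ) : ℝ) + (42949674 : ℕ)) / S) :
    Sg12B PP tK tL true 0 .pnn 2 1 1 2 false 0 67108864 16777216 x :=
  sg12B_of (P := PP) (RK := tK) (RL := tL) (Gt := gB) (pc := pcB) (KA := 4) (C0 := c0B) rfl trivial (Or.inr rfl) (Or.inl rfl) (lo := true) (up := false) (sideB hx hx') gokB (g3okB hx hx') (xr0 hx hx').1 (xr0 hx hx').2 (div_S_le (k := 8) (by norm_num) (by norm_num)) ((gatB12 x).n1) (gatB23 hx hx') (fun _ => (gatB01 x).n1) (fun _ h => absurd h (by decide)) EG.B213_120m ⟨by decide, by decide⟩ (by norm_num) hx hx'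

theorem sW_B213_120m {x : ℝ} (hx : ((697932185 : ℕ) : ℝ) / S ≤ x) (hx' : x ≤ (((697932185 : ℕ) : ℝ) + (42949674 : ℕ)) / S) :
    Sg12BW PP tK tL tU 3 (eng.v x) (mog.v x) .pnn 2 1 1 2 false 0 67108864 16777216 x :=
  sg12BW_of (P := PP) (RK := tK) (RL := tL) (RC := tU) (Gt := gB) (Dt := dB) (pc := pcB) (KA := 4) (N0 := 3) (C0 := c0B) (En := eng) (mo := mog) rfl trivial (Or.inr rfl) (Or.inl rfl) (lo := true) (up := false) (sideB hx hx') gokB (pinU hx hx') dokB (g3cB hx hx') (g3okB hx hx') (xr0 hx hx').1 (xr0 hx hx').2 (div_S_le (k := 8) (by norm_num) (by norm_num)) ((gatB12 x).n1) (gatB23 hx hx') (fun _ => (gatB01 x).n1) (fun _ h => absurd h (by decide)) ((datB12 x).n1) (datB23 hx hx') (fun _ => (datB01 x).n1) (fun _ h => absurd h (by decide)) EW.B213_120m ⟨by decide, by decide⟩ (by norm_num) hx hx'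

theorem sG_X213_121m {x : ℝ} (hx : ((697932185 : ℕ) : ℝ) / S ≤ x) (hx' : x ≤ (((697932185 : ℕ) : ℝ) + (42949674 : ℕ)) / S) :
    Ex12B PP 2 1 1 2 false 1 67108864 16777216 :=
  ex12B_of (P := PP) (RK := tK) (RL := tL) (Gt := gB) (KA := 4) (C0 := c0B) (x := x) (cn := .pnn) rfl trivial (Or.inr rfl) (Or.inl rfl) gokB (g3okB hx hx') (div_S_le (k := 8) (by norm_num) (by norm_num)) ((gatB12 x).n1) (gatB23 hx hx') EG.X213_121m ⟨by decide, by decide⟩ (by norm_num) hx hx'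

theorem sG_B213_220m {x : ℝ} (hx : ((697932185 : ℕ) : ℝ) / S ≤ x) (hx' : x ≤ (((697932185 : ℕ) : ℝ) + (42949674 : ℕ)) / S) :
    Sg12B PP tK tL true 0 .pnn 2 1 2 2 false 0 67108864 16777216 x :=
  sg12B_of (P := PP) (RK := tK) (RL := tL) (Gt := gB) (pc := pcB) (KA := 4) (C0 := c0B) rfl trivial (Or.inr rfl) (Or.inl rfl) (lo := true) (up := false) (sideB hx hx') gokB (g3okB hx hx') (xr0 hx hx').1 (xr0 hx hx').2 (div_S_le (k := 8) (by norm_num) (by norm_num)) ((gatB22 x).n1) (gatB23 hx hx') (fun _ => (gatB01 x).n1) (fun _ h => absurd h (by decide)) EG.B213_220m ⟨by decide, by decide⟩ (by norm_num) hx hx'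

theorem sW_B213_220m {x : ℝ} (hx : ((697932185 : ℕ) : ℝ) / S ≤ x) (hx' : x ≤ (((697932185 : ℕ) : ℝ) + (42949674 : ℕ)) / S) :
    Sg12BW PP tK tL tU 3 (eng.v x) (mog.v x) .pnn 2 1 2 2 false 0 67108864 16777216 x :=
  sg12BW_of (P := PP) (RK := tK) (RL := tL) (RC := tU) (Gt := gB) (Dt := dB) (pc := pcB) (KA := 4) (N0 := 3) (C0 := c0B) (En := eng) (mo := mog) rfl trivial (Or.inr rfl) (Or.inl rfl) (lo := true) (up := false) (sideB hx hx') gokB (pinU hx hx') dokB (g3cB hx hx') (g3okB hx hx') (xr0 hx hx').1 (xr0 hx hx').2 (div_S_le (k := 8) (by norm_num) (by norm_num)) ((gatB22 x).n1) (gatB23 hx hx') (fun _ => (gatB01 x).n1) (fun _ h => absurd h (by decide)) ((datB22 x).n1) (datB23 hx hx') (fun _ => (datB01 x).n1) (fun _ h => absurd h (by decide)) EW.B213_220m ⟨by decide, by decide⟩ (by norm_num) hx hx'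

theorem sG_X213_221m {x : ℝ} (hx : ((697932185 : ℕ) : ℝ) / S ≤ x) (hx' : x ≤ (((697932185 : ℕ) : ℝ) + (42949674 : ℕ)) / S) :
    Ex12B PP 2 1 2 2 false 1 67108864 16777216 :=
  ex12B_of (P := PP) (RK := tK) (RL := tL) (Gt := gB) (KA := 4) (C0 := c0B) (x := x) (cn := .pnn) rfl trivial (Or.inr rfl) (Or.inl rfl) gokB (g3okB hx hx') (div_S_le (k := 8) (by norm_num) (by norm_num)) ((gatB22 x).n1) (gatB23 hx hx') EG.X213_221m ⟨by decide, by decide⟩ (by norm_num) hx hx'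

theorem sG_B213_320m {x : ℝ} (hx : ((697932185 : ℕ) : ℝ) / S ≤ x) (hx' : x ≤ (((697932185 : ℕ) : ℝ) + (42949674 : ℕ)) / S) :
    Sg12B PP tK tL true 0 .pnn 2 1 3 2 false 0 67108864 16777216 x :=
  sg12B_of (P := PP) (RK := tK) (RL := tL) (Gt := gB) (pc := pcB) (KA := 4) (C0 := c0B) rfl trivial (Or.inr rfl) (Or.inl rfl) (lo := true) (up := false) (sideB hx hx') gokB (g3okB hx hx') (xr0 hx hx').1 (xr0 hx hx').2 (div_S_le (k := 8) (by norm_num) (by norm_num)) ((gatB32 x).n1) (gatB23 hx hx') (fun _ => (gatB01 x).n1) (fun _ h => absurd h (by decide)) EG.B213_320m ⟨by decide, by decide⟩ (by norm_num) hx hx'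

theorem sW_B213_320m {x : ℝ} (hx : ((697932185 : ℕ) : ℝ) / S ≤ x) (hx' : x ≤ (((697932185 : ℕ) : ℝ) + (42949674 : ℕ)) / S) :
    Sg12BW PP tK tL tU 3 (eng.v x) (mog.v x) .pnn 2 1 3 2 false 0 67108864 16777216 x :=
  sg12BW_of (P := PP) (RK := tK) (RL := tL) (RC := tU) (Gt := gB) (Dt := dB) (pc := pcB) (KA := 4) (N0 := 3) (C0 := c0B) (En := eng) (mo := mog) rfl trivial (Or.inr rfl) (Or.inl rfl) (lo := true) (up := false) (sideB hx hx') gokB (pinU hx hx') dokB (g3cB hx hx') (g3okB hx hx') (xr0 hx hx').1 (xr0 hx hx').2 (div_S_le (k := 8) (by norm_num) (by norm_num)) ((gatB32 x).n1) (gatB23 hx hx') (fun _ => (gatB01 x).n1) (fun _ h => absurd h (by decide)) ((datB32 x).n1) (datB23 hx hx') (fun _ => (datB01 x).n1) (fun _ h => absurd h (by decide)) EW.B213_320m ⟨by decide, by decide⟩ (by norm_num) hx hx'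

theorem sG_X213_321m {x : ℝ} (hx : ((697932185 : ℕ) : ℝ) / S ≤ x) (hx' : x ≤ (((697932185 : ℕ) : ℝ) + (42949674 : ℕ)) / S) :
    Ex12B PP 2 1 3 2 false 1 67108864 16777216 :=
  ex12B_of (P := PP) (RK := tK) (RL := tL) (Gt := gB) (KA := 4) (C0 := c0B) (x := x) (cn := .pnn) rfl trivial (Or.inr rfl) (Or.inl rfl) gokB (g3okB hx hx') (div_S_le (k := 8) (by norm_num) (by norm_num)) ((gatB32 x).n1) (gatB23 hx hx') EG.X213_321m ⟨by decide, by decide⟩ (by norm_num) hx hx'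

theorem sG_B213_420m {x : ℝ} (hx : ((697932185 : ℕ) : ℝ) / S ≤ x) (hx' : x ≤ (((697932185 : ℕ) : ℝ) + (42949674 : ℕ)) / S) :
    Sg12B PP tK tL true 0 .pnn 2 1 4 2 false 0 67108864 16777216 x :=
  sg12B_of (P := PP) (RK := tK) (RL := tL) (Gt := gB) (pc := pcB) (KA := 4) (C0 := c0B) rfl trivial (Or.inr rfl) (Or.inl rfl) (lo := true) (up := false) (sideB hx hx') gokB (g3okB hx hx') (xr0 hx hx').1 (xr0 hx hx').2 (div_S_le (k := 8) (by norm_num) (by norm_num)) ((gatB42 x).n1) (gatB23 hx hx') (fun _ => (gatB01 x).n1) (fun _ h => absurd h (by decide)) EG.B213_420m ⟨by decide, by decide⟩ (by norm_num) hx hx'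

theorem sW_B213_420m {x : ℝ} (hx : ((697932185 : ℕ) : ℝ) / S ≤ x) (hx' : x ≤ (((697932185 : ℕ) : ℝ) + (42949674 : ℕ)) / S) :
    Sg12BW PP tK tL tU 3 (eng.v x) (mog.v x) .pnn 2 1 4 2 false 0 67108864 16777216 x :=
  sg12BW_of (P := PP) (RK := tK) (RL := tL) (RC := tU) (Gt := gB) (Dt := dB) (pc := pcB) (KA := 4) (N0 := 3) (C0 := c0B) (En := eng) (mo := mog) rfl trivial (Or.inr rfl) (Or.inl rfl) (lo := true) (up := false) (sideB hx hx') gokB (pinU hx hx') dokB (g3cB hx hx') (g3okB hx hx') (xr0 hx hx').1 (xr0 hx hx').2 (div_S_le (k := 8) (by norm_num) (by norm_num)) ((gatB42 x).n1) (gatB23 hx hx') (fun _ => (gatB01 x).n1) (fun _ h => absurd h (by decide)) ((datB42 x).n1) (datB23 hx hx') (fun _ => (datB01 x).n1) (fun _ h => absurd h (by decide)) EW.B213_420m ⟨by decide, by decide⟩ (by norm_num) hx hx'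

theorem sG_X213_421m {x : ℝ} (hx : ((697932185 : ℕ) : ℝ) / S ≤ x) (hx' : x ≤ (((697932185 : ℕ) : ℝ) + (42949674 : ℕ)) / S) :
    Ex12B PP 2 1 4 2 false 1 67108864 16777216 :=
  ex12B_of (P := PP) (RK := tK) (RL := tL) (Gt := gB) (KA := 4) (C0 := c0B) (x := x) (cn := .pnn) rfl trivial (Or.inr rfl) (Or.inl rfl) gokB (g3okB hx hx') (div_S_le (k := 8) (by norm_num) (by norm_num)) ((gatB42 x).n1) (gatB23 hx hx') EG.X213_421m ⟨by decide, by decide⟩ (by norm_num) hx hx'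

theorem sG_B113_030p {x : ℝ} (hx : ((697932185 : ℕ) : ℝ) / S ≤ x) (hx' : x ≤ (((697932185 : ℕ) : ℝ) + (42949674 : ℕ)) / S) :
    Sg12B PP tK tL true 0 .nn 1 1 0 3 true 0 67108864 16777216 x :=
  sg12B_of (P := PP) (RK := tK) (RL := tL) (Gt := gB) (pc := pcB) (KA := 4) (C0 := c0B) rfl trivial (Or.inl rfl) (Or.inl rfl) (lo := true) (up := false) (sideB hx hx') gokB (g3okB hx hx') (xr0 hx hx').1 (xr0 hx hx').2 (div_S_le (k := 8) (by norm_num) (by norm_num)) ((gatB01 x).n1) (gatB33 hx hx') (fun _ => (gatB01 x).n1) (fun _ h => absurd h (by decide)) EG.B113_030p ⟨by decide, by decide⟩ (by norm_num) hx hx'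

theorem sW_B113_030p {x : ℝ} (hx : ((697932185 : ℕ) : ℝ) / S ≤ x) (hx' : x ≤ (((697932185 : ℕ) : ℝ) + (42949674 : ℕ)) / S) :
    Sg12BW PP tK tL tU 3 (eng.v x) (mog.v x) .nn 1 1 0 3 true 0 67108864 16777216 x :=
  sg12BW_of (P := PP) (RK := tK) (RL := tL) (RC := tU) (Gt := gB) (Dt := dB) (pc := pcB) (KA := 4) (N0 := 3) (C0 := c0B) (En := eng) (mo := mog) rfl trivial (Or.inl rfl) (Or.inl rfl) (lo := true) (up := false) (sideB hx hx') gokB (pinU hx hx') dokB (g3cB hx hx') (g3okB hx hx') (xr0 hx hx').1 (xr0 hx hx').2 (div_S_le (k := 8) (by norm_num) (by norm_num)) ((gatB01 x).n1) (gatB33 hx hx') (fun _ => (gatB01 x).n1) (fun _ h => absurd h (by decide)) ((datB01 x).n1) (datB33 hx hx') (fun _ => (datB01 x).n1) (fun _ h => absurd h (by decide)) EW.B113_030p ⟨by decide, by decide⟩ (by norm_num) hx hx'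

theorem sG_X113_031p {x : ℝ} (hx : ((697932185 : ℕ) : ℝ) / S ≤ x) (hx' : x ≤ (((697932185 : ℕ) : ℝ) + (42949674 : ℕ)) / S) :
    Ex12B PP 1 1 0 3 true 1 67108864 16777216 :=
  ex12B_of (P := PP) (RK := tK) (RL := tL) (Gt := gB) (KA := 4) (C0 := c0B) (x := x) (cn := .nn) rfl trivial (Or.inl rfl) (Or.inl rfl) gokB (g3okB hx hx') (div_S_le (k := 8) (by norm_num) (by norm_num)) ((gatB01 x).n1) (gatB33 hx hx') EG.X113_031p ⟨by decide, by decide⟩ (by norm_num) hx hx'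

theorem sG_B123_030p {x : ℝ} (hx : ((697932185 : ℕ) : ℝ) / S ≤ x) (hx' : x ≤ (((697932185 : ℕ) : ℝ) + (42949674 : ℕ)) / S) :
    Sg12B PP tK tL true 0 .npn 1 2 0 3 true 0 67108864 16777216 x :=
  sg12B_of (P := PP) (RK := tK) (RL := tL) (Gt := gB) (pc := pcB) (KA := 4) (C0 := c0B) rfl trivial (Or.inl rfl) (Or.inr rfl) (lo := true) (up := true) (sideB hx hx') gokB (g3okB hx hx') (xr0 hx hx').1 (xr0 hx hx').2 (div_S_le (k := 8) (by norm_num) (by norm_num)) ((gatB01 x).n1) (gatB33 hx hx') (fun _ => (gatB02 x).n1) (fun _ _ => (gatB12 x).n1) EG.B123_030p ⟨by decide, by decide⟩ (by norm_num) hx hx'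

theorem sW_B123_030p {x : ℝ} (hx : ((697932185 : ℕ) : ℝ) / S ≤ x) (hx' : x ≤ (((697932185 : ℕ) : ℝ) + (42949674 : ℕ)) / S) :
    Sg12BW PP tK tL tU 3 (eng.v x) (mog.v x) .npn 1 2 0 3 true 0 67108864 16777216 x :=
  sg12BW_of (P := PP) (RK := tK) (RL := tL) (RC := tU) (Gt := gB) (Dt := dB) (pc := pcB) (KA := 4) (N0 := 3) (C0 := c0B) (En := eng) (mo := mog) rfl trivial (Or.inl rfl) (Or.inr rfl) (lo := true) (up := true) (sideB hx hx') gokB (pinU hx hx') dokB (g3cB hx hx') (g3okB hx hx') (xr0 hx hx').1 (xr0 hx hx').2 (div_S_le (k := 8) (by norm_num) (by norm_num)) ((gatB01 x).n1) (gatB33 hx hx') (fun _ => (gatB02 x).n1) (fun _ _ => (gatB12 x).n1) ((datB01 x).n1) (datB33 hx hx') (fun _ => (datB02 x).n1) (fun _ _ => (datB12 x).n1) EW.B123_030p ⟨by decide, by decide⟩ (by norm_num) hx hx'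

theorem sG_B123_031p {x : ℝ} (hx : ((697932185 : ℕ) : ℝ) / S ≤ x) (hx' : x ≤ (((697932185 : ℕ) : ℝ) + (42949674 : ℕ)) / S) :
    Sg12B PP tK tL true 0 .npn 1 2 0 3 true 1 67108864 16777216 x :=
  sg12B_of (P := PP) (RK := tK) (RL := tL) (Gt := gB) (pc := pcB) (KA := 4) (C0 := c0B) rfl trivial (Or.inl rfl) (Or.inr rfl) (lo := true) (up := true) (sideB hx hx') gokB (g3okB hx hx') (xr0 hx hx').1 (xr0 hx hx').2 (div_S_le (k := 8) (by norm_num) (by norm_num)) ((gatB01 x).n1) (gatB33 hx hx') (fun _ => (gatB12 x).n1) (fun _ _ => (gatB22 x).n1) EG.B123_031p ⟨by decide, by decide⟩ (by norm_num) hx hx'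

theorem sW_B123_031p {x : ℝ} (hx : ((697932185 : ℕ) : ℝ) / S ≤ x) (hx' : x ≤ (((697932185 : ℕ) : ℝ) + (42949674 : ℕ)) / S) :
    Sg12BW PP tK tL tU 3 (eng.v x) (mog.v x) .npn 1 2 0 3 true 1 67108864 16777216 x :=
  sg12BW_of (P := PP) (RK := tK) (RL := tL) (RC := tU) (Gt := gB) (Dt := dB) (pc := pcB) (KA := 4) (N0 := 3) (C0 := c0B) (En := eng) (mo := mog) rfl trivial (Or.inl rfl) (Or.inr rfl) (lo := true) (up := true) (sideB hx hx') gokB (pinU hx hx') dokB (g3cB hx hx') (g3okB hx hx') (xr0 hx hx').1 (xr0 hx hx').2 (div_S_le (k := 8) (by norm_num) (by norm_num)) ((gatB01 x).n1) (gatB33 hx hx') (fun _ => (gatB12 x).n1) (fun _ _ => (gatB22 x).n1) ((datB01 x).n1) (datB33 hx hx') (fun _ => (datB12 x).n1) (fun _ _ => (datB22 x).n1) EW.B123_031p ⟨by decide, by decide⟩ (by norm_num) hx hx'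

theorem sG_B123_032p {x : ℝ} (hx : ((697932185 : ℕ) : ℝ) / S ≤ x) (hx' : x ≤ (((697932185 : ℕ) : ℝ) + (42949674 : ℕ)) / S) :
    Sg12B PP tK tL true 0 .npn 1 2 0 3 true 2 67108864 16777216 x :=
  sg12B_of (P := PP) (RK := tK) (RL := tL) (Gt := gB) (pc := pcB) (KA := 4) (C0 := c0B) rfl trivial (Or.inl rfl) (Or.inr rfl) (lo := true) (up := true) (sideB hx hx') gokB (g3okB hx hx') (xr0 hx hx').1 (xr0 hx hx').2 (div_S_le (k := 8) (by norm_num) (by norm_num)) ((gatB01 x).n1) (gatB33 hx hx') (fun _ => (gatB22 x).n1) (fun _ _ => (gatB32 x).n1) EG.B123_032p ⟨by decide, by decide⟩ (by norm_num) hx hx'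

theorem sW_B123_032p {x : ℝ} (hx : ((697932185 : ℕ) : ℝ) / S ≤ x) (hx' : x ≤ (((697932185 : ℕ) : ℝ) + (42949674 : ℕ)) / S) :
    Sg12BW PP tK tL tU 3 (eng.v x) (mog.v x) .npn 1 2 0 3 true 2 67108864 16777216 x :=
  sg12BW_of (P := PP) (RK := tK) (RL := tL) (RC := tU) (Gt := gB) (Dt := dB) (pc := pcB) (KA := 4) (N0 := 3) (C0 := c0B) (En := eng) (mo := mog) rfl trivial (Or.inl rfl) (Or.inr rfl) (lo := true) (up := true) (sideB hx hx') gokB (pinU hx hx') dokB (g3cB hx hx') (g3okB hx hx') (xr0 hx hx').1 (xr0 hx hx').2 (div_S_le (k := 8) (by norm_num) (by norm_num)) ((gatB01 x).n1) (gatB33 hx hx') (fun _ => (gatB22 x).n1) (fun _ _ => (gatB32 x).n1) ((datB01 x).n1) (datB33 hx hx') (fun _ => (datB22 x).n1) (fun _ _ => (datB32 x).n1) EW.B123_032p ⟨by decide, by decide⟩ (by norm_num) hx hx'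

theorem sG_B123_033p {x : ℝ} (hx : ((697932185 : ℕ) : ℝ) / S ≤ x) (hx' : x ≤ (((697932185 : ℕ) : ℝ) + (42949674 : ℕ)) / S) :
    Sg12B PP tK tL true 0 .npn 1 2 0 3 true 3 67108864 16777216 x :=
  sg12B_of (P := PP) (RK := tK) (RL := tL) (Gt := gB) (pc := pcB) (KA := 4) (C0 := c0B) rfl trivial (Or.inl rfl) (Or.inr rfl) (lo := true) (up := true) (sideB hx hx') gokB (g3okB hx hx') (xr0 hx hx').1 (xr0 hx hx').2 (div_S_le (k := 8) (by norm_num) (by norm_num)) ((gatB01 x).n1) (gatB33 hx hx') (fun _ => (gatB32 x).n1) (fun _ _ => (gatB42 x).n1) EG.B123_033p ⟨by decide, by decide⟩ (by norm_num) hx hx'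

theorem sW_B123_033p {x : ℝ} (hx : ((697932185 : ℕ) : ℝ) / S ≤ x) (hx' : x ≤ (((697932185 : ℕ) : ℝ) + (42949674 : ℕ)) / S) :
    Sg12BW PP tK tL tU 3 (eng.v x) (mog.v x) .npn 1 2 0 3 true 3 67108864 16777216 x :=
  sg12BW_of (P := PP) (RK := tK) (RL := tL) (RC := tU) (Gt := gB) (Dt := dB) (pc := pcB) (KA := 4) (N0 := 3) (C0 := c0B) (En := eng) (mo := mog) rfl trivial (Or.inl rfl) (Or.inr rfl) (lo := true) (up := true) (sideB hx hx') gokB (pinU hx hx') dokB (g3cB hx hx') (g3okB hx hx') (xr0 hx hx').1 (xr0 hx hx').2 (div_S_le (k := 8) (by norm_num) (by norm_num)) ((gatB01 x).n1) (gatB33 hx hx') (fun _ => (gatB32 x).n1) (fun _ _ => (gatB42 x).n1) ((datB01 x).n1) (datB33 hx hx') (fun _ => (datB32 x).n1) (fun _ _ => (datB42 x).n1) EW.B123_033p ⟨by decide, by decide⟩ (by norm_num) hx hx'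

theorem sG_B123_034p {x : ℝ} (hx : ((697932185 : ℕ) : ℝ) / S ≤ x) (hx' : x ≤ (((697932185 : ℕ) : ℝ) + (42949674 : ℕ)) / S) :
    Sg12B PP tK tL true 0 .npn 1 2 0 3 true 4 67108864 16777216 x :=
  sg12B_of (P := PP) (RK := tK) (RL := tL) (Gt := gB) (pc := pcB) (KA := 4) (C0 := c0B) rfl trivial (Or.inl rfl) (Or.inr rfl) (lo := true) (up := false) (sideB hx hx') gokB (g3okB hx hx') (xr0 hx hx').1 (xr0 hx hx').2 (div_S_le (k := 8) (by norm_num) (by norm_num)) ((gatB01 x).n1) (gatB33 hx hx') (fun _ => (gatB42 x).n1) (fun _ h => absurd h (by decide)) EG.B123_034p ⟨by decide, by decide⟩ (by norm_num) hx hx'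

theorem sW_B123_034p {x : ℝ} (hx : ((697932185 : ℕ) : ℝ) / S ≤ x) (hx' : x ≤ (((697932185 : ℕ) : ℝ) + (42949674 : ℕ)) / S) :
    Sg12BW PP tK tL tU 3 (eng.v x) (mog.v x) .npn 1 2 0 3 true 4 67108864 16777216 x :=
  sg12BW_of (P := PP) (RK := tK) (RL := tL) (RC := tU) (Gt := gB) (Dt := dB) (pc := pcB) (KA := 4) (N0 := 3) (C0 := c0B) (En := eng) (mo := mog) rfl trivial (Or.inl rfl) (Or.inr rfl) (lo := true) (up := false) (sideB hx hx') gokB (pinU hx hx') dokB (g3cB hx hx') (g3okB hx hx') (xr0 hx hx').1 (xr0 hx hx').2 (div_S_le (k := 8) (by norm_num) (by norm_num)) ((gatB01 x).n1) (gatB33 hx hx') (fun _ => (gatB42 x).n1) (fun _ h => absurd h (by decide)) ((datB01 x).n1) (datB33 hx hx') (fun _ => (datB42 x).n1) (fun _ h => absurd h (by decide)) EW.B123_034p ⟨by decide, by decide⟩ (by norm_num) hx hx'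

theorem sG_X123_035p {x : ℝ} (hx : ((697932185 : ℕ) : ℝ) / S ≤ x) (hx' : x ≤ (((697932185 : ℕ) : ℝ) + (42949674 : ℕ)) / S) :
    Ex12B PP 1 2 0 3 true 5 67108864 16777216 :=
  ex12B_of (P := PP) (RK := tK) (RL := tL) (Gt := gB) (KA := 4) (C0 := c0B) (x := x) (cn := .npn) rfl trivial (Or.inl rfl) (Or.inr rfl) gokB (g3okB hx hx') (div_S_le (k := 8) (by norm_num) (by norm_num)) ((gatB01 x).n1) (gatB33 hx hx') EG.X123_035p ⟨by decide, by decide⟩ (by norm_num) hx hx'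

theorem sG_B113_030m {x : ℝ} (hx : ((697932185 : ℕ) : ℝ) / S ≤ x) (hx' : x ≤ (((697932185 : ℕ) : ℝ) + (42949674 : ℕ)) / S) :
    Sg12B PP tK tL true 0 .nn 1 1 0 3 false 0 67108864 16777216 x :=
  sg12B_of (P := PP) (RK := tK) (RL := tL) (Gt := gB) (pc := pcB) (KA := 4) (C0 := c0B) rfl trivial (Or.inl rfl) (Or.inl rfl) (lo := true) (up := false) (sideB hx hx') gokB (g3okB hx hx') (xr0 hx hx').1 (xr0 hx hx').2 (div_S_le (k := 8) (by norm_num) (by norm_num)) ((gatB01 x).n1) (gatB33 hx hx') (fun _ => (gatB01 x).n1) (fun _ h => absurd h (by decide)) EG.B113_030m ⟨by decide, by decide⟩ (by norm_num) hx hx'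

theorem sW_B113_030m {x : ℝ} (hx : ((697932185 : ℕ) : ℝ) / S ≤ x) (hx' : x ≤ (((697932185 : ℕ) : ℝ) + (42949674 : ℕ)) / S) :
    Sg12BW PP tK tL tU 3 (eng.v x) (mog.v x) .nn 1 1 0 3 false 0 67108864 16777216 x :=
  sg12BW_of (P := PP) (RK := tK) (RL := tL) (RC := tU) (Gt := gB) (Dt := dB) (pc := pcB) (KA := 4) (N0 := 3) (C0 := c0B) (En := eng) (mo := mog) rfl trivial (Or.inl rfl) (Or.inl rfl) (lo := true) (up := false) (sideB hx hx') gokB (pinU hx hx') dokB (g3cB hx hx') (g3okB hx hx') (xr0 hx hx').1 (xr0 hx hx').2 (div_S_le (k := 8) (by norm_num) (by norm_num)) ((gatB01 x).n1) (gatB33 hx hx') (fun _ => (gatB01 x).n1) (fun _ h => absurd h (by decide)) ((datB01 x).n1) (datB33 hx hx') (fun _ => (datB01 x).n1) (fun _ h => absurd h (by decide)) EW.B113_030m ⟨by decide, by decide⟩ (by norm_num) hx hx'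

theorem sG_X113_031m {x : ℝ} (hx : ((697932185 : ℕ) : ℝ) / S ≤ x) (hx' : x ≤ (((697932185 : ℕ) : ℝ) + (42949674 : ℕ)) / S) :
    Ex12B PP 1 1 0 3 false 1 67108864 16777216 :=
  ex12B_of (P := PP) (RK := tK) (RL := tL) (Gt := gB) (KA := 4) (C0 := c0B) (x := x) (cn := .nn) rfl trivial (Or.inl rfl) (Or.inl rfl) gokB (g3okB hx hx') (div_S_le (k := 8) (by norm_num) (by norm_num)) ((gatB01 x).n1) (gatB33 hx hx') EG.X113_031m ⟨by decide, by decide⟩ (by norm_num) hx hx'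

theorem sG_B123_030m {x : ℝ} (hx : ((697932185 : ℕ) : ℝ) / S ≤ x) (hx' : x ≤ (((697932185 : ℕ) : ℝ) + (42949674 : ℕ)) / S) :
    Sg12B PP tK tL true 0 .npn 1 2 0 3 false 0 67108864 16777216 x :=
  sg12B_of (P := PP) (RK := tK) (RL := tL) (Gt := gB) (pc := pcB) (KA := 4) (C0 := c0B) rfl trivial (Or.inl rfl) (Or.inr rfl) (lo := true) (up := true) (sideB hx hx') gokB (g3okB hx hx') (xr0 hx hx').1 (xr0 hx hx').2 (div_S_le (k := 8) (by norm_num) (by norm_num)) ((gatB01 x).n1) (gatB33 hx hx') (fun _ => (gatB02 x).n1) (fun _ _ => (gatB12 x).n1) EG.B123_030m ⟨by decide, by decide⟩ (by norm_num) hx hx'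

theorem sW_B123_030m {x : ℝ} (hx : ((697932185 : ℕ) : ℝ) / S ≤ x) (hx' : x ≤ (((697932185 : ℕ) : ℝ) + (42949674 : ℕ)) / S) :
    Sg12BW PP tK tL tU 3 (eng.v x) (mog.v x) .npn 1 2 0 3 false 0 67108864 16777216 x :=
  sg12BW_of (P := PP) (RK := tK) (RL := tL) (RC := tU) (Gt := gB) (Dt := dB) (pc := pcB) (KA := 4) (N0 := 3) (C0 := c0B) (En := eng) (mo := mog) rfl trivial (Or.inl rfl) (Or.inr rfl) (lo := true) (up := true) (sideB hx hx') gokB (pinU hx hx') dokB (g3cB hx hx') (g3okB hx hx') (xr0 hx hx').1 (xr0 hx hx').2 (div_S_le (k := 8) (by norm_num) (by norm_num)) ((gatB01 x).n1) (gatB33 hx hx') (fun _ => (gatB02 x).n1) (fun _ _ => (gatB12 x).n1) ((datB01 x).n1) (datB33 hx hx') (fun _ => (datB02 x).n1) (fun _ _ => (datB12 x).n1) EW.B123_030m ⟨by decide, by decide⟩ (by norm_num) hx hx'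

theorem sG_B123_031m {x : ℝ} (hx : ((697932185 : ℕ) : ℝ) / S ≤ x) (hx' : x ≤ (((697932185 : ℕ) : ℝ) + (42949674 : ℕ)) / S) :
    Sg12B PP tK tL true 0 .npn 1 2 0 3 false 1 67108864 16777216 x :=
  sg12B_of (P := PP) (RK := tK) (RL := tL) (Gt := gB) (pc := pcB) (KA := 4) (C0 := c0B) rfl trivial (Or.inl rfl) (Or.inr rfl) (lo := true) (up := true) (sideB hx hx') gokB (g3okB hx hx') (xr0 hx hx').1 (xr0 hx hx').2 (div_S_le (k := 8) (by norm_num) (by norm_num)) ((gatB01 x).n1) (gatB33 hx hx') (fun _ => (gatB12 x).n1) (fun _ _ => (gatB22 x).n1) EG.B123_031m ⟨by decide, by decide⟩ (by norm_num) hx hx'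

theorem sW_B123_031m {x : ℝ} (hx : ((697932185 : ℕ) : ℝ) / S ≤ x) (hx' : x ≤ (((697932185 : ℕ) : ℝ) + (42949674 : ℕ)) / S) :
    Sg12BW PP tK tL tU 3 (eng.v x) (mog.v x) .npn 1 2 0 3 false 1 67108864 16777216 x :=
  sg12BW_of (P := PP) (RK := tK) (RL := tL) (RC := tU) (Gt := gB) (Dt := dB) (pc := pcB) (KA := 4) (N0 := 3) (C0 := c0B) (En := eng) (mo := mog) rfl trivial (Or.inl rfl) (Or.inr rfl) (lo := true) (up := true) (sideB hx hx') gokB (pinU hx hx') dokB (g3cB hx hx') (g3okB hx hx') (xr0 hx hx').1 (xr0 hx hx').2 (div_S_le (k := 8) (by norm_num) (by norm_num)) ((gatB01 x).n1) (gatB33 hx hx') (fun _ => (gatB12 x).n1) (fun _ _ => (gatB22 x).n1) ((datB01 x).n1) (datB33 hx hx') (fun _ => (datB12 x).n1) (fun _ _ => (datB22 x).n1) EW.B123_031m ⟨by decide, by decide⟩ (by norm_num) hx hx'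

theorem sG_B123_032m {x : ℝ} (hx : ((697932185 : ℕ) : ℝ) / S ≤ x) (hx' : x ≤ (((697932185 : ℕ) : ℝ) + (42949674 : ℕ)) / S) :
    Sg12B PP tK tL true 0 .npn 1 2 0 3 false 2 67108864 16777216 x :=
  sg12B_of (P := PP) (RK := tK) (RL := tL) (Gt := gB) (pc := pcB) (KA := 4) (C0 := c0B) rfl trivial (Or.inl rfl) (Or.inr rfl) (lo := true) (up := true) (sideB hx hx') gokB (g3okB hx hx') (xr0 hx hx').1 (xr0 hx hx').2 (div_S_le (k := 8) (by norm_num) (by norm_num)) ((gatB01 x).n1) (gatB33 hx hx') (fun _ => (gatB22 x).n1) (fun _ _ => (gatB32 x).n1) EG.B123_032m ⟨by decide, by decide⟩ (by norm_num) hx hx'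

theorem sW_B123_032m {x : ℝ} (hx : ((697932185 : ℕ) : ℝ) / S ≤ x) (hx' : x ≤ (((697932185 : ℕ) : ℝ) + (42949674 : ℕ)) / S) :
    Sg12BW PP tK tL tU 3 (eng.v x) (mog.v x) .npn 1 2 0 3 false 2 67108864 16777216 x :=
  sg12BW_of (P := PP) (RK := tK) (RL := tL) (RC := tU) (Gt := gB) (Dt := dB) (pc := pcB) (KA := 4) (N0 := 3) (C0 := c0B) (En := eng) (mo := mog) rfl trivial (Or.inl rfl) (Or.inr rfl) (lo := true) (up := true) (sideB hx hx') gokB (pinU hx hx') dokB (g3cB hx hx') (g3okB hx hx') (xr0 hx hx').1 (xr0 hx hx').2 (div_S_le (k := 8) (by norm_num) (by norm_num)) ((gatB01 x).n1) (gatB33 hx hx') (fun _ => (gatB22 x).n1) (fun _ _ => (gatB32 x).n1) ((datB01 x).n1) (datB33 hx hx') (fun _ => (datB22 x).n1) (fun _ _ => (datB32 x).n1) EW.B123_032m ⟨by decide, by decide⟩ (by norm_num) hx hx'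

theorem sG_B123_033m {x : ℝ} (hx : ((697932185 : ℕ) : ℝ) / S ≤ x) (hx' : x ≤ (((697932185 : ℕ) : ℝ) + (42949674 : ℕ)) / S) :
    Sg12B PP tK tL true 0 .npn 1 2 0 3 false 3 67108864 16777216 x :=
  sg12B_of (P := PP) (RK := tK) (RL := tL) (Gt := gB) (pc := pcB) (KA := 4) (C0 := c0B) rfl trivial (Or.inl rfl) (Or.inr rfl) (lo := true) (up := true) (sideB hx hx') gokB (g3okB hx hx') (xr0 hx hx').1 (xr0 hx hx').2 (div_S_le (k := 8) (by norm_num) (by norm_num)) ((gatB01 x).n1) (gatB33 hx hx') (fun _ => (gatB32 x).n1) (fun _ _ => (gatB42 x).n1) EG.B123_033m ⟨by decide, by decide⟩ (by norm_num) hx hx'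

theorem sW_B123_033m {x : ℝ} (hx : ((697932185 : ℕ) : ℝ) / S ≤ x) (hx' : x ≤ (((697932185 : ℕ) : ℝ) + (42949674 : ℕ)) / S) :
    Sg12BW PP tK tL tU 3 (eng.v x) (mog.v x) .npn 1 2 0 3 false 3 67108864 16777216 x :=
  sg12BW_of (P := PP) (RK := tK) (RL := tL) (RC := tU) (Gt := gB) (Dt := dB) (pc := pcB) (KA := 4) (N0 := 3) (C0 := c0B) (En := eng) (mo := mog) rfl trivial (Or.inl rfl) (Or.inr rfl) (lo := true) (up := true) (sideB hx hx') gokB (pinU hx hx') dokB (g3cB hx hx') (g3okB hx hx') (xr0 hx hx').1 (xr0 hx hx').2 (div_S_le (k := 8) (by norm_num) (by norm_num)) ((gatB01 x).n1) (gatB33 hx hx') (fun _ => (gatB32 x).n1) (fun _ _ => (gatB42 x).n1) ((datB01 x).n1) (datB33 hx hx') (fun _ => (datB32 x).n1) (fun _ _ => (datB42 x).n1) EW.B123_033m ⟨by decide, by decide⟩ (by norm_num) hx hx'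

theorem sG_B123_034m {x : ℝ} (hx : ((697932185 : ℕ) : ℝ) / S ≤ x) (hx' : x ≤ (((697932185 : ℕ) : ℝ) + (42949674 : ℕ)) / S) :
    Sg12B PP tK tL true 0 .npn 1 2 0 3 false 4 67108864 16777216 x :=
  sg12B_of (P := PP) (RK := tK) (RL := tL) (Gt := gB) (pc := pcB) (KA := 4) (C0 := c0B) rfl trivial (Or.inl rfl) (Or.inr rfl) (lo := true) (up := false) (sideB hx hx') gokB (g3okB hx hx') (xr0 hx hx').1 (xr0 hx hx').2 (div_S_le (k := 8) (by norm_num) (by norm_num)) ((gatB01 x).n1) (gatB33 hx hx') (fun _ => (gatB42 x).n1) (fun _ h => absurd h (by decide)) EG.B123_034m ⟨by decide, by decide⟩ (by norm_num) hx hx'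

theorem sW_B123_034m {x : ℝ} (hx : ((697932185 : ℕ) : ℝ) / S ≤ x) (hx' : x ≤ (((697932185 : ℕ) : ℝ) + (42949674 : ℕ)) / S) :
    Sg12BW PP tK tL tU 3 (eng.v x) (mog.v x) .npn 1 2 0 3 false 4 67108864 16777216 x :=
  sg12BW_of (P := PP) (RK := tK) (RL := tL) (RC := tU) (Gt := gB) (Dt := dB) (pc := pcB) (KA := 4) (N0 := 3) (C0 := c0B) (En := eng) (mo := mog) rfl trivial (Or.inl rfl) (Or.inr rfl) (lo := true) (up := false) (sideB hx hx') gokB (pinU hx hx') dokB (g3cB hx hx') (g3okB hx hx') (xr0 hx hx').1 (xr0 hx hx').2 (div_S_le (k := 8) (by norm_num) (by norm_num)) ((gatB01 x).n1) (gatB33 hx hx') (fun _ => (gatB42 x).n1) (fun _ h => absurd h (by decide)) ((datB01 x).n1) (datB33 hx hx') (fun _ => (datB42 x).n1) (fun _ h => absurd h (by decide)) EW.B123_034m ⟨by decide, by decide⟩ (by norm_num) hx hx'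

theorem sG_X123_035m {x : ℝ} (hx : ((697932185 : ℕ) : ℝ) / S ≤ x) (hx' : x ≤ (((697932185 : ℕ) : ℝ) + (42949674 : ℕ)) / S) :
    Ex12B PP 1 2 0 3 false 5 67108864 16777216 :=
  ex12B_of (P := PP) (RK := tK) (RL := tL) (Gt := gB) (KA := 4) (C0 := c0B) (x := x) (cn := .npn) rfl trivial (Or.inl rfl) (Or.inr rfl) gokB (g3okB hx hx') (div_S_le (k := 8) (by norm_num) (by norm_num)) ((gatB01 x).n1) (gatB33 hx hx') EG.X123_035m ⟨by decide, by decide⟩ (by norm_num) hx hx'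

theorem sG_B213_030m {x : ℝ} (hx : ((697932185 : ℕ) : ℝ) / S ≤ x) (hx' : x ≤ (((697932185 : ℕ) : ℝ) + (42949674 : ℕ)) / S) :
    Sg12B PP tK tL true 0 .pnn 2 1 0 3 false 0 67108864 16777216 x :=
  sg12B_of (P := PP) (RK := tK) (RL := tL) (Gt := gB) (pc := pcB) (KA := 4) (C0 := c0B) rfl trivial (Or.inr rfl) (Or.inl rfl) (lo := true) (up := false) (sideB hx hx') gokB (g3okB hx hx') (xr0 hx hx').1 (xr0 hx hx').2 (div_S_le (k := 8) (by norm_num) (by norm_num)) ((gatB02 x).n1) (gatB33 hx hx') (fun _ => (gatB01 x).n1) (fun _ h => absurd h (by decide)) EG.B213_030m ⟨by decide, by decide⟩ (by norm_num) hx hx'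

theorem sW_B213_030m {x : ℝ} (hx : ((697932185 : ℕ) : ℝ) / S ≤ x) (hx' : x ≤ (((697932185 : ℕ) : ℝ) + (42949674 : ℕ)) / S) :
    Sg12BW PP tK tL tU 3 (eng.v x) (mog.v x) .pnn 2 1 0 3 false 0 67108864 16777216 x :=
  sg12BW_of (P := PP) (RK := tK) (RL := tL) (RC := tU) (Gt := gB) (Dt := dB) (pc := pcB) (KA := 4) (N0 := 3) (C0 := c0B) (En := eng) (mo := mog) rfl trivial (Or.inr rfl) (Or.inl rfl) (lo := true) (up := false) (sideB hx hx') gokB (pinU hx hx') dokB (g3cB hx hx') (g3okB hx hx') (xr0 hx hx').1 (xr0 hx hx').2 (div_S_le (k := 8) (by norm_num) (by norm_num)) ((gatB02 x).n1) (gatB33 hx hx') (fun _ => (gatB01 x).n1) (fun _ h => absurd h (by decide)) ((datB02 x).n1) (datB33 hx hx') (fun _ => (datB01 x).n1) (fun _ h => absurd h (by decide)) EW.B213_030m ⟨by decide, by decide⟩ (by norm_num) hx hx'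

theorem sG_X213_031m {x : ℝ} (hx : ((697932185 : ℕ) : ℝ) / S ≤ x) (hx' : x ≤ (((697932185 : ℕ) : ℝ) + (42949674 : ℕ)) / S) :
    Ex12B PP 2 1 0 3 false 1 67108864 16777216 :=
  ex12B_of (P := PP) (RK := tK) (RL := tL) (Gt := gB) (KA := 4) (C0 := c0B) (x := x) (cn := .pnn) rfl trivial (Or.inr rfl) (Or.inl rfl) gokB (g3okB hx hx') (div_S_le (k := 8) (by norm_num) (by norm_num)) ((gatB02 x).n1) (gatB33 hx hx') EG.X213_031m ⟨by decide, by decide⟩ (by norm_num) hx hx'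

theorem sG_B213_130m {x : ℝ} (hx : ((697932185 : ℕ) : ℝ) / S ≤ x) (hx' : x ≤ (((697932185 : ℕ) : ℝ) + (42949674 : ℕ)) / S) :
    Sg12B PP tK tL true 0 .pnn 2 1 1 3 false 0 67108864 16777216 x :=
  sg12B_of (P := PP) (RK := tK) (RL := tL) (Gt := gB) (pc := pcB) (KA := 4) (C0 := c0B) rfl trivial (Or.inr rfl) (Or.inl rfl) (lo := true) (up := false) (sideB hx hx') gokB (g3okB hx hx') (xr0 hx hx').1 (xr0 hx hx').2 (div_S_le (k := 8) (by norm_num) (by norm_num)) ((gatB12 x).n1) (gatB33 hx hx') (fun _ => (gatB01 x).n1) (fun _ h => absurd h (by decide)) EG.B213_130m ⟨by decide, by decide⟩ (by norm_num) hx hx'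

theorem sW_B213_130m {x : ℝ} (hx : ((697932185 : ℕ) : ℝ) / S ≤ x) (hx' : x ≤ (((697932185 : ℕ) : ℝ) + (42949674 : ℕ)) / S) :
    Sg12BW PP tK tL tU 3 (eng.v x) (mog.v x) .pnn 2 1 1 3 false 0 67108864 16777216 x :=
  sg12BW_of (P := PP) (RK := tK) (RL := tL) (RC := tU) (Gt := gB) (Dt := dB) (pc := pcB) (KA := 4) (N0 := 3) (C0 := c0B) (En := eng) (mo := mog) rfl trivial (Or.inr rfl) (Or.inl rfl) (lo := true) (up := false) (sideB hx hx') gokB (pinU hx hx') dokB (g3cB hx hx') (g3okB hx hx') (xr0 hx hx').1 (xr0 hx hx').2 (div_S_le (k := 8) (by norm_num) (by norm_num)) ((gatB12 x).n1) (gatB33 hx hx') (fun _ => (gatB01 x).n1) (fun _ h => absurd h (by decide)) ((datB12 x).n1) (datB33 hx hx') (fun _ => (datB01 x).n1) (fun _ h => absurd h (by decide)) EW.B213_130m ⟨by decide, by decide⟩ (by norm_num) hx hx'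

theorem sG_X213_131m {x : ℝ} (hx : ((697932185 : ℕ) : ℝ) / S ≤ x) (hx' : x ≤ (((697932185 : ℕ) : ℝ) + (42949674 : ℕ)) / S) :
    Ex12B PP 2 1 1 3 false 1 67108864 16777216 :=
  ex12B_of (P := PP) (RK := tK) (RL := tL) (Gt := gB) (KA := 4) (C0 := c0B) (x := x) (cn := .pnn) rfl trivial (Or.inr rfl) (Or.inl rfl) gokB (g3okB hx hx') (div_S_le (k := 8) (by norm_num) (by norm_num)) ((gatB12 x).n1) (gatB33 hx hx') EG.X213_131m ⟨by decide, by decide⟩ (by norm_num) hx hx'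

theorem sG_B213_230m {x : ℝ} (hx : ((697932185 : ℕ) : ℝ) / S ≤ x) (hx' : x ≤ (((697932185 : ℕ) : ℝ) + (42949674 : ℕ)) / S) :
    Sg12B PP tK tL true 0 .pnn 2 1 2 3 false 0 67108864 16777216 x :=
  sg12B_of (P := PP) (RK := tK) (RL := tL) (Gt := gB) (pc := pcB) (KA := 4) (C0 := c0B) rfl trivial (Or.inr rfl) (Or.inl rfl) (lo := true) (up := false) (sideB hx hx') gokB (g3okB hx hx') (xr0 hx hx').1 (xr0 hx hx').2 (div_S_le (k := 8) (by norm_num) (by norm_num)) ((gatB22 x).n1) (gatB33 hx hx') (fun _ => (gatB01 x).n1) (fun _ h => absurd h (by decide)) EG.B213_230m ⟨by decide, by decide⟩ (by norm_num) hx hx'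

theorem sW_B213_230m {x : ℝ} (hx : ((697932185 : ℕ) : ℝ) / S ≤ x) (hx' : x ≤ (((697932185 : ℕ) : ℝ) + (42949674 : ℕ)) / S) :
    Sg12BW PP tK tL tU 3 (eng.v x) (mog.v x) .pnn 2 1 2 3 false 0 67108864 16777216 x :=
  sg12BW_of (P := PP) (RK := tK) (RL := tL) (RC := tU) (Gt := gB) (Dt := dB) (pc := pcB) (KA := 4) (N0 := 3) (C0 := c0B) (En := eng) (mo := mog) rfl trivial (Or.inr rfl) (Or.inl rfl) (lo := true) (up := false) (sideB hx hx') gokB (pinU hx hx') dokB (g3cB hx hx') (g3okB hx hx') (xr0 hx hx').1 (xr0 hx hx').2 (div_S_le (k := 8) (by norm_num) (by norm_num)) ((gatB22 x).n1) (gatB33 hx hx') (fun _ => (gatB01 x).n1) (fun _ h => absurd h (by decide)) ((datB22 x).n1) (datB33 hx hx') (fun _ => (datB01 x).n1) (fun _ h => absurd h (by decide)) EW.B213_230m ⟨by decide, by decide⟩ (by norm_num) hx hx'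

theorem sG_X213_231m {x : ℝ} (hx : ((697932185 : ℕ) : ℝ) / S ≤ x) (hx' : x ≤ (((697932185 : ℕ) : ℝ) + (42949674 : ℕ)) / S) :
    Ex12B PP 2 1 2 3 false 1 67108864 16777216 :=
  ex12B_of (P := PP) (RK := tK) (RL := tL) (Gt := gB) (KA := 4) (C0 := c0B) (x := x) (cn := .pnn) rfl trivial (Or.inr rfl) (Or.inl rfl) gokB (g3okB hx hx') (div_S_le (k := 8) (by norm_num) (by norm_num)) ((gatB22 x).n1) (gatB33 hx hx') EG.X213_231m ⟨by decide, by decide⟩ (by norm_num) hx hx'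

theorem sG_B213_330m {x : ℝ} (hx : ((697932185 : ℕ) : ℝ) / S ≤ x) (hx' : x ≤ (((697932185 : ℕ) : ℝ) + (42949674 : ℕ)) / S) :
    Sg12B PP tK tL true 0 .pnn 2 1 3 3 false 0 67108864 16777216 x :=
  sg12B_of (P := PP) (RK := tK) (RL := tL) (Gt := gB) (pc := pcB) (KA := 4) (C0 := c0B) rfl trivial (Or.inr rfl) (Or.inl rfl) (lo := true) (up := false) (sideB hx hx') gokB (g3okB hx hx') (xr0 hx hx').1 (xr0 hx hx').2 (div_S_le (k := 8) (by norm_num) (by norm_num)) ((gatB32 x).n1) (gatB33 hx hx') (fun _ => (gatB01 x).n1) (fun _ h => absurd h (by decide)) EG.B213_330m ⟨by decide, by decide⟩ (by norm_num) hx hx'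

theorem sW_B213_330m {x : ℝ} (hx : ((697932185 : ℕ) : ℝ) / S ≤ x) (hx' : x ≤ (((697932185 : ℕ) : ℝ) + (42949674 : ℕ)) / S) :
    Sg12BW PP tK tL tU 3 (eng.v x) (mog.v x) .pnn 2 1 3 3 false 0 67108864 16777216 x :=
  sg12BW_of (P := PP) (RK := tK) (RL := tL) (RC := tU) (Gt := gB) (Dt := dB) (pc := pcB) (KA := 4) (N0 := 3) (C0 := c0B) (En := eng) (mo := mog) rfl trivial (Or.inr rfl) (Or.inl rfl) (lo := true) (up := false) (sideB hx hx') gokB (pinU hx hx') dokB (g3cB hx hx') (g3okB hx hx') (xr0 hx hx').1 (xr0 hx hx').2 (div_S_le (k := 8) (by norm_num) (by norm_num)) ((gatB32 x).n1) (gatB33 hx hx') (fun _ => (gatB01 x).n1) (fun _ h => absurd h (by decide)) ((datB32 x).n1) (datB33 hx hx') (fun _ => (datB01 x).n1) (fun _ h => absurd h (by decide)) EW.B213_330m ⟨by decide, by decide⟩ (by norm_num) hx hx'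

theorem sG_X213_331m {x : ℝ} (hx : ((697932185 : ℕ) : ℝ) / S ≤ x) (hx' : x ≤ (((697932185 : ℕ) : ℝ) + (42949674 : ℕ)) / S) :
    Ex12B PP 2 1 3 3 false 1 67108864 16777216 :=
  ex12B_of (P := PP) (RK := tK) (RL := tL) (Gt := gB) (KA := 4) (C0 := c0B) (x := x) (cn := .pnn) rfl trivial (Or.inr rfl) (Or.inl rfl) gokB (g3okB hx hx') (div_S_le (k := 8) (by norm_num) (by norm_num)) ((gatB32 x).n1) (gatB33 hx hx') EG.X213_331m ⟨by decide, by decide⟩ (by norm_num) hx hx'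

theorem sG_B213_430m {x : ℝ} (hx : ((697932185 : ℕ) : ℝ) / S ≤ x) (hx' : x ≤ (((697932185 : ℕ) : ℝ) + (42949674 : ℕ)) / S) :
    Sg12B PP tK tL true 0 .pnn 2 1 4 3 false 0 67108864 16777216 x :=
  sg12B_of (P := PP) (RK := tK) (RL := tL) (Gt := gB) (pc := pcB) (KA := 4) (C0 := c0B) rfl trivial (Or.inr rfl) (Or.inl rfl) (lo := true) (up := false) (sideB hx hx') gokB (g3okB hx hx') (xr0 hx hx').1 (xr0 hx hx').2 (div_S_le (k := 8) (by norm_num) (by norm_num)) ((gatB42 x).n1) (gatB33 hx hx') (fun _ => (gatB01 x).n1) (fun _ h => absurd h (by decide)) EG.B213_430m ⟨by decide, by decide⟩ (by norm_num) hx hx'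

theorem sW_B213_430m {x : ℝ} (hx : ((697932185 : ℕ) : ℝ) / S ≤ x) (hx' : x ≤ (((697932185 : ℕ) : ℝ) + (42949674 : ℕ)) / S) :
    Sg12BW PP tK tL tU 3 (eng.v x) (mog.v x) .pnn 2 1 4 3 false 0 67108864 16777216 x :=
  sg12BW_of (P := PP) (RK := tK) (RL := tL) (RC := tU) (Gt := gB) (Dt := dB) (pc := pcB) (KA := 4) (N0 := 3) (C0 := c0B) (En := eng) (mo := mog) rfl trivial (Or.inr rfl) (Or.inl rfl) (lo := true) (up := false) (sideB hx hx') gokB (pinU hx hx') dokB (g3cB hx hx') (g3okB hx hx') (xr0 hx hx').1 (xr0 hx hx').2 (div_S_le (k := 8) (by norm_num) (by norm_num)) ((gatB42 x).n1) (gatB33 hx hx') (fun _ => (gatB01 x).n1) (fun _ h => absurd h (by decide)) ((datB42 x).n1) (datB33 hx hx') (fun _ => (datB01 x).n1) (fun _ h => absurd h (by decide)) EW.B213_430m ⟨by decide, by decide⟩ (by norm_num) hx hx'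

theorem sG_X213_431m {x : ℝ} (hx : ((697932185 : ℕ) : ℝ) / S ≤ x) (hx' : x ≤ (((697932185 : ℕ) : ℝ) + (42949674 : ℕ)) / S) :
    Ex12B PP 2 1 4 3 false 1 67108864 16777216 :=
  ex12B_of (P := PP) (RK := tK) (RL := tL) (Gt := gB) (KA := 4) (C0 := c0B) (x := x) (cn := .pnn) rfl trivial (Or.inr rfl) (Or.inl rfl) gokB (g3okB hx hx') (div_S_le (k := 8) (by norm_num) (by norm_num)) ((gatB42 x).n1) (gatB33 hx hx') EG.X213_431m ⟨by decide, by decide⟩ (by norm_num) hx hx'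

theorem sG_B113_040p {x : ℝ} (hx : ((697932185 : ℕ) : ℝ) / S ≤ x) (hx' : x ≤ (((697932185 : ℕ) : ℝ) + (42949674 : ℕ)) / S) :
    Sg12B PP tK tL true 0 .nn 1 1 0 4 true 0 67108864 16777216 x :=
  sg12B_of (P := PP) (RK := tK) (RL := tL) (Gt := gB) (pc := pcB) (KA := 4) (C0 := c0B) rfl trivial (Or.inl rfl) (Or.inl rfl) (lo := true) (up := false) (sideB hx hx') gokB (g3okB hx hx') (xr0 hx hx').1 (xr0 hx hx').2 (div_S_le (k := 8) (by norm_num) (by norm_num)) ((gatB01 x).n1) (gatB43 hx hx') (fun _ => (gatB01 x).n1) (fun _ h => absurd h (by decide)) EG.B113_040p ⟨by decide, by decide⟩ (by norm_num) hx hx'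

theorem sW_B113_040p {x : ℝ} (hx : ((697932185 : ℕ) : ℝ) / S ≤ x) (hx' : x ≤ (((697932185 : ℕ) : ℝ) + (42949674 : ℕ)) / S) :
    Sg12BW PP tK tL tU 3 (eng.v x) (mog.v x) .nn 1 1 0 4 true 0 67108864 16777216 x :=
  sg12BW_of (P := PP) (RK := tK) (RL := tL) (RC := tU) (Gt := gB) (Dt := dB) (pc := pcB) (KA := 4) (N0 := 3) (C0 := c0B) (En := eng) (mo := mog) rfl trivial (Or.inl rfl) (Or.inl rfl) (lo := true) (up := false) (sideB hx hx') gokB (pinU hx hx') dokB (g3cB hx hx') (g3okB hx hx') (xr0 hx hx').1 (xr0 hx hx').2 (div_S_le (k := 8) (by norm_num) (by norm_num)) ((gatB01 x).n1) (gatB43 hx hx') (fun _ => (gatB01 x).n1) (fun _ h => absurd h (by decide)) ((datB01 x).n1) (datB43 hx hx') (fun _ => (datB01 x).n1) (fun _ h => absurd h (by decide)) EW.B113_040p ⟨by decide, by decide⟩ (by norm_num) hx hx'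

theorem sG_X113_041p {x : ℝ} (hx : ((697932185 : ℕ) : ℝ) / S ≤ x) (hx' : x ≤ (((697932185 : ℕ) : ℝ) + (42949674 : ℕ)) / S) :
    Ex12B PP 1 1 0 4 true 1 67108864 16777216 :=
  ex12B_of (P := PP) (RK := tK) (RL := tL) (Gt := gB) (KA := 4) (C0 := c0B) (x := x) (cn := .nn) rfl trivial (Or.inl rfl) (Or.inl rfl) gokB (g3okB hx hx') (div_S_le (k := 8) (by norm_num) (by norm_num)) ((gatB01 x).n1) (gatB43 hx hx') EG.X113_041p ⟨by decide, by decide⟩ (by norm_num) hx hx'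

theorem sG_B123_040p {x : ℝ} (hx : ((697932185 : ℕ) : ℝ) / S ≤ x) (hx' : x ≤ (((697932185 : ℕ) : ℝ) + (42949674 : ℕ)) / S) :
    Sg12B PP tK tL true 0 .npn 1 2 0 4 true 0 67108864 16777216 x :=
  sg12B_of (P := PP) (RK := tK) (RL := tL) (Gt := gB) (pc := pcB) (KA := 4) (C0 := c0B) rfl trivial (Or.inl rfl) (Or.inr rfl) (lo := true) (up := true) (sideB hx hx') gokB (g3okB hx hx') (xr0 hx hx').1 (xr0 hx hx').2 (div_S_le (k := 8) (by norm_num) (by norm_num)) ((gatB01 x).n1) (gatB43 hx hx') (fun _ => (gatB02 x).n1) (fun _ _ => (gatB12 x).n1) EG.B123_040p ⟨by decide, by decide⟩ (by norm_num) hx hx'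

theorem sW_B123_040p {x : ℝ} (hx : ((697932185 : ℕ) : ℝ) / S ≤ x) (hx' : x ≤ (((697932185 : ℕ) : ℝ) + (42949674 : ℕ)) / S) :
    Sg12BW PP tK tL tU 3 (eng.v x) (mog.v x) .npn 1 2 0 4 true 0 67108864 16777216 x :=
  sg12BW_of (P := PP) (RK := tK) (RL := tL) (RC := tU) (Gt := gB) (Dt := dB) (pc := pcB) (KA := 4) (N0 := 3) (C0 := c0B) (En := eng) (mo := mog) rfl trivial (Or.inl rfl) (Or.inr rfl) (lo := true) (up := true) (sideB hx hx') gokB (pinU hx hx') dokB (g3cB hx hx') (g3okB hx hx') (xr0 hx hx').1 (xr0 hx hx').2 (div_S_le (k := 8) (by norm_num) (by norm_num)) ((gatB01 x).n1) (gatB43 hx hx') (fun _ => (gatB02 x).n1) (fun _ _ => (gatB12 x).n1) ((datB01 x).n1) (datB43 hx hx') (fun _ => (datB02 x).n1) (fun _ _ => (datB12 x).n1) EW.B123_040p ⟨by decide, by decide⟩ (by norm_num) hx hx'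

theorem sG_B123_041p {x : ℝ} (hx : ((697932185 : ℕ) : ℝ) / S ≤ x) (hx' : x ≤ (((697932185 : ℕ) : ℝ) + (42949674 : ℕ)) / S) :
    Sg12B PP tK tL true 0 .npn 1 2 0 4 true 1 67108864 16777216 x :=
  sg12B_of (P := PP) (RK := tK) (RL := tL) (Gt := gB) (pc := pcB) (KA := 4) (C0 := c0B) rfl trivial (Or.inl rfl) (Or.inr rfl) (lo := true) (up := true) (sideB hx hx') gokB (g3okB hx hx') (xr0 hx hx').1 (xr0 hx hx').2 (div_S_le (k := 8) (by norm_num) (by norm_num)) ((gatB01 x).n1) (gatB43 hx hx') (fun _ => (gatB12 x).n1) (fun _ _ => (gatB22 x).n1) EG.B123_041p ⟨by decide, by decide⟩ (by norm_num) hx hx'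

theorem sW_B123_041p {x : ℝ} (hx : ((697932185 : ℕ) : ℝ) / S ≤ x) (hx' : x ≤ (((697932185 : ℕ) : ℝ) + (42949674 : ℕ)) / S) :
    Sg12BW PP tK tL tU 3 (eng.v x) (mog.v x) .npn 1 2 0 4 true 1 67108864 16777216 x :=
  sg12BW_of (P := PP) (RK := tK) (RL := tL) (RC := tU) (Gt := gB) (Dt := dB) (pc := pcB) (KA := 4) (N0 := 3) (C0 := c0B) (En := eng) (mo := mog) rfl trivial (Or.inl rfl) (Or.inr rfl) (lo := true) (up := true) (sideB hx hx') gokB (pinU hx hx') dokB (g3cB hx hx') (g3okB hx hx') (xr0 hx hx').1 (xr0 hx hx').2 (div_S_le (k := 8) (by norm_num) (by norm_num)) ((gatB01 x).n1) (gatB43 hx hx') (fun _ => (gatB12 x).n1) (fun _ _ => (gatB22 x).n1) ((datB01 x).n1) (datB43 hx hx') (fun _ => (datB12 x).n1) (fun _ _ => (datB22 x).n1) EW.B123_041p ⟨by decide, by decide⟩ (by norm_num) hx hx'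

theorem sG_B123_042p {x : ℝ} (hx : ((697932185 : ℕ) : ℝ) / S ≤ x) (hx' : x ≤ (((697932185 : ℕ) : ℝ) + (42949674 : ℕ)) / S) :
    Sg12B PP tK tL true 0 .npn 1 2 0 4 true 2 67108864 16777216 x :=
  sg12B_of (P := PP) (RK := tK) (RL := tL) (Gt := gB) (pc := pcB) (KA := 4) (C0 := c0B) rfl trivial (Or.inl rfl) (Or.inr rfl) (lo := true) (up := true) (sideB hx hx') gokB (g3okB hx hx') (xr0 hx hx').1 (xr0 hx hx').2 (div_S_le (k := 8) (by norm_num) (by norm_num)) ((gatB01 x).n1) (gatB43 hx hx') (fun _ => (gatB22 x).n1) (fun _ _ => (gatB32 x).n1) EG.B123_042p ⟨by decide, by decide⟩ (by norm_num) hx hx'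

theorem sW_B123_042p {x : ℝ} (hx : ((697932185 : ℕ) : ℝ) / S ≤ x) (hx' : x ≤ (((697932185 : ℕ) : ℝ) + (42949674 : ℕ)) / S) :
    Sg12BW PP tK tL tU 3 (eng.v x) (mog.v x) .npn 1 2 0 4 true 2 67108864 16777216 x :=
  sg12BW_of (P := PP) (RK := tK) (RL := tL) (RC := tU) (Gt := gB) (Dt := dB) (pc := pcB) (KA := 4) (N0 := 3) (C0 := c0B) (En := eng) (mo := mog) rfl trivial (Or.inl rfl) (Or.inr rfl) (lo := true) (up := true) (sideB hx hx') gokB (pinU hx hx') dokB (g3cB hx hx') (g3okB hx hx') (xr0 hx hx').1 (xr0 hx hx').2 (div_S_le (k := 8) (by norm_num) (by norm_num)) ((gatB01 x).n1) (gatB43 hx hx') (fun _ => (gatB22 x).n1) (fun _ _ => (gatB32 x).n1) ((datB01 x).n1) (datB43 hx hx') (fun _ => (datB22 x).n1) (fun _ _ => (datB32 x).n1) EW.B123_042p ⟨by decide, by decide⟩ (by norm_num) hx hx'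

theorem sG_B123_043p {x : ℝ} (hx : ((697932185 : ℕ) : ℝ) / S ≤ x) (hx' : x ≤ (((697932185 : ℕ) : ℝ) + (42949674 : ℕ)) / S) :
    Sg12B PP tK tL true 0 .npn 1 2 0 4 true 3 67108864 16777216 x :=
  sg12B_of (P := PP) (RK := tK) (RL := tL) (Gt := gB) (pc := pcB) (KA := 4) (C0 := c0B) rfl trivial (Or.inl rfl) (Or.inr rfl) (lo := true) (up := true) (sideB hx hx') gokB (g3okB hx hx') (xr0 hx hx').1 (xr0 hx hx').2 (div_S_le (k := 8) (by norm_num) (by norm_num)) ((gatB01 x).n1) (gatB43 hx hx') (fun _ => (gatB32 x).n1) (fun _ _ => (gatB42 x).n1) EG.B123_043p ⟨by decide, by decide⟩ (by norm_num) hx hx'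

theorem sW_B123_043p {x : ℝ} (hx : ((697932185 : ℕ) : ℝ) / S ≤ x) (hx' : x ≤ (((697932185 : ℕ) : ℝ) + (42949674 : ℕ)) / S) :
    Sg12BW PP tK tL tU 3 (eng.v x) (mog.v x) .npn 1 2 0 4 true 3 67108864 16777216 x :=
  sg12BW_of (P := PP) (RK := tK) (RL := tL) (RC := tU) (Gt := gB) (Dt := dB) (pc := pcB) (KA := 4) (N0 := 3) (C0 := c0B) (En := eng) (mo := mog) rfl trivial (Or.inl rfl) (Or.inr rfl) (lo := true) (up := true) (sideB hx hx') gokB (pinU hx hx') dokB (g3cB hx hx') (g3okB hx hx') (xr0 hx hx').1 (xr0 hx hx').2 (div_S_le (k := 8) (by norm_num) (by norm_num)) ((gatB01 x).n1) (gatB43 hx hx') (fun _ => (gatB32 x).n1) (fun _ _ => (gatB42 x).n1) ((datB01 x).n1) (datB43 hx hx') (fun _ => (datB32 x).n1) (fun _ _ => (datB42 x).n1) EW.B123_043p ⟨by decide, by decide⟩ (by norm_num) hx hx'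

theorem sG_B123_044p {x : ℝ} (hx : ((697932185 : ℕ) : ℝ) / S ≤ x) (hx' : x ≤ (((697932185 : ℕ) : ℝ) + (42949674 : ℕ)) / S) :
    Sg12B PP tK tL true 0 .npn 1 2 0 4 true 4 67108864 16777216 x :=
  sg12B_of (P := PP) (RK := tK) (RL := tL) (Gt := gB) (pc := pcB) (KA := 4) (C0 := c0B) rfl trivial (Or.inl rfl) (Or.inr rfl) (lo := true) (up := false) (sideB hx hx') gokB (g3okB hx hx') (xr0 hx hx').1 (xr0 hx hx').2 (div_S_le (k := 8) (by norm_num) (by norm_num)) ((gatB01 x).n1) (gatB43 hx hx') (fun _ => (gatB42 x).n1) (fun _ h => absurd h (by decide)) EG.B123_044p ⟨by decide, by decide⟩ (by norm_num) hx hx'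

theorem sW_B123_044p {x : ℝ} (hx : ((697932185 : ℕ) : ℝ) / S ≤ x) (hx' : x ≤ (((697932185 : ℕ) : ℝ) + (42949674 : ℕ)) / S) :
    Sg12BW PP tK tL tU 3 (eng.v x) (mog.v x) .npn 1 2 0 4 true 4 67108864 16777216 x :=
  sg12BW_of (P := PP) (RK := tK) (RL := tL) (RC := tU) (Gt := gB) (Dt := dB) (pc := pcB) (KA := 4) (N0 := 3) (C0 := c0B) (En := eng) (mo := mog) rfl trivial (Or.inl rfl) (Or.inr rfl) (lo := true) (up := false) (sideB hx hx') gokB (pinU hx hx') dokB (g3cB hx hx') (g3okB hx hx') (xr0 hx hx').1 (xr0 hx hx').2 (div_S_le (k := 8) (by norm_num) (by norm_num)) ((gatB01 x).n1) (gatB43 hx hx') (fun _ => (gatB42 x).n1) (fun _ h => absurd h (by decide)) ((datB01 x).n1) (datB43 hx hx') (fun _ => (datB42 x).n1) (fun _ h => absurd h (by decide)) EW.B123_044p ⟨by decide, by decide⟩ (by norm_num) hx hx'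

theorem sG_X123_045p {x : ℝ} (hx : ((697932185 : ℕ) : ℝ) / S ≤ x) (hx' : x ≤ (((697932185 : ℕ) : ℝ) + (42949674 : ℕ)) / S) :
    Ex12B PP 1 2 0 4 true 5 67108864 16777216 :=
  ex12B_of (P := PP) (RK := tK) (RL := tL) (Gt := gB) (KA := 4) (C0 := c0B) (x := x) (cn := .npn) rfl trivial (Or.inl rfl) (Or.inr rfl) gokB (g3okB hx hx') (div_S_le (k := 8) (by norm_num) (by norm_num)) ((gatB01 x).n1) (gatB43 hx hx') EG.X123_045p ⟨by decide, by decide⟩ (by norm_num) hx hx'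

theorem sG_B113_040m {x : ℝ} (hx : ((697932185 : ℕ) : ℝ) / S ≤ x) (hx' : x ≤ (((697932185 : ℕ) : ℝ) + (42949674 : ℕ)) / S) :
    Sg12B PP tK tL true 0 .nn 1 1 0 4 false 0 67108864 16777216 x :=
  sg12B_of (P := PP) (RK := tK) (RL := tL) (Gt := gB) (pc := pcB) (KA := 4) (C0 := c0B) rfl trivial (Or.inl rfl) (Or.inl rfl) (lo := true) (up := false) (sideB hx hx') gokB (g3okB hx hx') (xr0 hx hx').1 (xr0 hx hx').2 (div_S_le (k := 8) (by norm_num) (by norm_num)) ((gatB01 x).n1) (gatB43 hx hx') (fun _ => (gatB01 x).n1) (fun _ h => absurd h (by decide)) EG.B113_040m ⟨by decide, by decide⟩ (by norm_num) hx hx'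

theorem sW_B113_040m {x : ℝ} (hx : ((697932185 : ℕ) : ℝ) / S ≤ x) (hx' : x ≤ (((697932185 : ℕ) : ℝ) + (42949674 : ℕ)) / S) :
    Sg12BW PP tK tL tU 3 (eng.v x) (mog.v x) .nn 1 1 0 4 false 0 67108864 16777216 x :=
  sg12BW_of (P := PP) (RK := tK) (RL := tL) (RC := tU) (Gt := gB) (Dt := dB) (pc := pcB) (KA := 4) (N0 := 3) (C0 := c0B) (En := eng) (mo := mog) rfl trivial (Or.inl rfl) (Or.inl rfl) (lo := true) (up := false) (sideB hx hx') gokB (pinU hx hx') dokB (g3cB hx hx') (g3okB hx hx') (xr0 hx hx').1 (xr0 hx hx').2 (div_S_le (k := 8) (by norm_num) (by norm_num)) ((gatB01 x).n1) (gatB43 hx hx') (fun _ => (gatB01 x).n1) (fun _ h => absurd h (by decide)) ((datB01 x).n1) (datB43 hx hx') (fun _ => (datB01 x).n1) (fun _ h => absurd h (by decide)) EW.B113_040m ⟨by decide, by decide⟩ (by norm_num) hx hx'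

theorem sG_X113_041m {x : ℝ} (hx : ((697932185 : ℕ) : ℝ) / S ≤ x) (hx' : x ≤ (((697932185 : ℕ) : ℝ) + (42949674 : ℕ)) / S) :
    Ex12B PP 1 1 0 4 false 1 67108864 16777216 :=
  ex12B_of (P := PP) (RK := tK) (RL := tL) (Gt := gB) (KA := 4) (C0 := c0B) (x := x) (cn := .nn) rfl trivial (Or.inl rfl) (Or.inl rfl) gokB (g3okB hx hx') (div_S_le (k := 8) (by norm_num) (by norm_num)) ((gatB01 x).n1) (gatB43 hx hx') EG.X113_041m ⟨by decide, by decide⟩ (by norm_num) hx hx'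

theorem sG_B123_040m {x : ℝ} (hx : ((697932185 : ℕ) : ℝ) / S ≤ x) (hx' : x ≤ (((697932185 : ℕ) : ℝ) + (42949674 : ℕ)) / S) :
    Sg12B PP tK tL true 0 .npn 1 2 0 4 false 0 67108864 16777216 x :=
  sg12B_of (P := PP) (RK := tK) (RL := tL) (Gt := gB) (pc := pcB) (KA := 4) (C0 := c0B) rfl trivial (Or.inl rfl) (Or.inr rfl) (lo := true) (up := true) (sideB hx hx') gokB (g3okB hx hx') (xr0 hx hx').1 (xr0 hx hx').2 (div_S_le (k := 8) (by norm_num) (by norm_num)) ((gatB01 x).n1) (gatB43 hx hx') (fun _ => (gatB02 x).n1) (fun _ _ => (gatB12 x).n1) EG.B123_040m ⟨by decide, by decide⟩ (by norm_num) hx hx'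

theorem sW_B123_040m {x : ℝ} (hx : ((697932185 : ℕ) : ℝ) / S ≤ x) (hx' : x ≤ (((697932185 : ℕ) : ℝ) + (42949674 : ℕ)) / S) :
    Sg12BW PP tK tL tU 3 (eng.v x) (mog.v x) .npn 1 2 0 4 false 0 67108864 16777216 x :=
  sg12BW_of (P := PP) (RK := tK) (RL := tL) (RC := tU) (Gt := gB) (Dt := dB) (pc := pcB) (KA := 4) (N0 := 3) (C0 := c0B) (En := eng) (mo := mog) rfl trivial (Or.inl rfl) (Or.inr rfl) (lo := true) (up := true) (sideB hx hx') gokB (pinU hx hx') dokB (g3cB hx hx') (g3okB hx hx') (xr0 hx hx').1 (xr0 hx hx').2 (div_S_le (k := 8) (by norm_num) (by norm_num)) ((gatB01 x).n1) (gatB43 hx hx') (fun _ => (gatB02 x).n1) (fun _ _ => (gatB12 x).n1) ((datB01 x).n1) (datB43 hx hx') (fun _ => (datB02 x).n1) (fun _ _ => (datB12 x).n1) EW.B123_040m ⟨by decide, by decide⟩ (by norm_num) hx hx'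

theorem sG_B123_041m {x : ℝ} (hx : ((697932185 : ℕ) : ℝ) / S ≤ x) (hx' : x ≤ (((697932185 : ℕ) : ℝ) + (42949674 : ℕ)) / S) :
    Sg12B PP tK tL true 0 .npn 1 2 0 4 false 1 67108864 16777216 x :=
  sg12B_of (P := PP) (RK := tK) (RL := tL) (Gt := gB) (pc := pcB) (KA := 4) (C0 := c0B) rfl trivial (Or.inl rfl) (Or.inr rfl) (lo := true) (up := true) (sideB hx hx') gokB (g3okB hx hx') (xr0 hx hx').1 (xr0 hx hx').2 (div_S_le (k := 8) (by norm_num) (by norm_num)) ((gatB01 x).n1) (gatB43 hx hx') (fun _ => (gatB12 x).n1) (fun _ _ => (gatB22 x).n1) EG.B123_041m ⟨by decide, by decide⟩ (by norm_num) hx hx'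

theorem sW_B123_041m {x : ℝ} (hx : ((697932185 : ℕ) : ℝ) / S ≤ x) (hx' : x ≤ (((697932185 : ℕ) : ℝ) + (42949674 : ℕ)) / S) :
    Sg12BW PP tK tL tU 3 (eng.v x) (mog.v x) .npn 1 2 0 4 false 1 67108864 16777216 x :=
  sg12BW_of (P := PP) (RK := tK) (RL := tL) (RC := tU) (Gt := gB) (Dt := dB) (pc := pcB) (KA := 4) (N0 := 3) (C0 := c0B) (En := eng) (mo := mog) rfl trivial (Or.inl rfl) (Or.inr rfl) (lo := true) (up := true) (sideB hx hx') gokB (pinU hx hx') dokB (g3cB hx hx') (g3okB hx hx') (xr0 hx hx').1 (xr0 hx hx').2 (div_S_le (k := 8) (by norm_num) (by norm_num)) ((gatB01 x).n1) (gatB43 hx hx') (fun _ => (gatB12 x).n1) (fun _ _ => (gatB22 x).n1) ((datB01 x).n1) (datB43 hx hx') (fun _ => (datB12 x).n1) (fun _ _ => (datB22 x).n1) EW.B123_041m ⟨by decide, by decide⟩ (by norm_num) hx hx'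

theorem sG_B123_042m {x : ℝ} (hx : ((697932185 : ℕ) : ℝ) / S ≤ x) (hx' : x ≤ (((697932185 : ℕ) : ℝ) + (42949674 : ℕ)) / S) :
    Sg12B PP tK tL true 0 .npn 1 2 0 4 false 2 67108864 16777216 x :=
  sg12B_of (P := PP) (RK := tK) (RL := tL) (Gt := gB) (pc := pcB) (KA := 4) (C0 := c0B) rfl trivial (Or.inl rfl) (Or.inr rfl) (lo := true) (up := true) (sideB hx hx') gokB (g3okB hx hx') (xr0 hx hx').1 (xr0 hx hx').2 (div_S_le (k := 8) (by norm_num) (by norm_num)) ((gatB01 x).n1) (gatB43 hx hx') (fun _ => (gatB22 x).n1) (fun _ _ => (gatB32 x).n1) EG.B123_042m ⟨by decide, by decide⟩ (by norm_num) hx hx'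

theorem sW_B123_042m {x : ℝ} (hx : ((697932185 : ℕ) : ℝ) / S ≤ x) (hx' : x ≤ (((697932185 : ℕ) : ℝ) + (42949674 : ℕ)) / S) :
    Sg12BW PP tK tL tU 3 (eng.v x) (mog.v x) .npn 1 2 0 4 false 2 67108864 16777216 x :=
  sg12BW_of (P := PP) (RK := tK) (RL := tL) (RC := tU) (Gt := gB) (Dt := dB) (pc := pcB) (KA := 4) (N0 := 3) (C0 := c0B) (En := eng) (mo := mog) rfl trivial (Or.inl rfl) (Or.inr rfl) (lo := true) (up := true) (sideB hx hx') gokB (pinU hx hx') dokB (g3cB hx hx') (g3okB hx hx') (xr0 hx hx').1 (xr0 hx hx').2 (div_S_le (k := 8) (by norm_num) (by norm_num)) ((gatB01 x).n1) (gatB43 hx hx') (fun _ => (gatB22 x).n1) (fun _ _ => (gatB32 x).n1) ((datB01 x).n1) (datB43 hx hx') (fun _ => (datB22 x).n1) (fun _ _ => (datB32 x).n1) EW.B123_042m ⟨by decide, by decide⟩ (by norm_num) hx hx'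

theorem sG_B123_043m {x : ℝ} (hx : ((697932185 : ℕ) : ℝ) / S ≤ x) (hx' : x ≤ (((697932185 : ℕ) : ℝ) + (42949674 : ℕ)) / S) :
    Sg12B PP tK tL true 0 .npn 1 2 0 4 false 3 67108864 16777216 x :=
  sg12B_of (P := PP) (RK := tK) (RL := tL) (Gt := gB) (pc := pcB) (KA := 4) (C0 := c0B) rfl trivial (Or.inl rfl) (Or.inr rfl) (lo := true) (up := true) (sideB hx hx') gokB (g3okB hx hx') (xr0 hx hx').1 (xr0 hx hx').2 (div_S_le (k := 8) (by norm_num) (by norm_num)) ((gatB01 x).n1) (gatB43 hx hx') (fun _ => (gatB32 x).n1) (fun _ _ => (gatB42 x).n1) EG.B123_043m ⟨by decide, by decide⟩ (by norm_num) hx hx'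

theorem sW_B123_043m {x : ℝ} (hx : ((697932185 : ℕ) : ℝ) / S ≤ x) (hx' : x ≤ (((697932185 : ℕ) : ℝ) + (42949674 : ℕ)) / S) :
    Sg12BW PP tK tL tU 3 (eng.v x) (mog.v x) .npn 1 2 0 4 false 3 67108864 16777216 x :=
  sg12BW_of (P := PP) (RK := tK) (RL := tL) (RC := tU) (Gt := gB) (Dt := dB) (pc := pcB) (KA := 4) (N0 := 3) (C0 := c0B) (En := eng) (mo := mog) rfl trivial (Or.inl rfl) (Or.inr rfl) (lo := true) (up := true) (sideB hx hx') gokB (pinU hx hx') dokB (g3cB hx hx') (g3okB hx hx') (xr0 hx hx').1 (xr0 hx hx').2 (div_S_le (k := 8) (by norm_num) (by norm_num)) ((gatB01 x).n1) (gatB43 hx hx') (fun _ => (gatB32 x).n1) (fun _ _ => (gatB42 x).n1) ((datB01 x).n1) (datB43 hx hx') (fun _ => (datB32 x).n1) (fun _ _ => (datB42 x).n1) EW.B123_043m ⟨by decide, by decide⟩ (by norm_num) hx hx'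

theorem sG_B123_044m {x : ℝ} (hx : ((697932185 : ℕ) : ℝ) / S ≤ x) (hx' : x ≤ (((697932185 : ℕ) : ℝ) + (42949674 : ℕ)) / S) :
    Sg12B PP tK tL true 0 .npn 1 2 0 4 false 4 67108864 16777216 x :=
  sg12B_of (P := PP) (RK := tK) (RL := tL) (Gt := gB) (pc := pcB) (KA := 4) (C0 := c0B) rfl trivial (Or.inl rfl) (Or.inr rfl) (lo := true) (up := false) (sideB hx hx') gokB (g3okB hx hx') (xr0 hx hx').1 (xr0 hx hx').2 (div_S_le (k := 8) (by norm_num) (by norm_num)) ((gatB01 x).n1) (gatB43 hx hx') (fun _ => (gatB42 x).n1) (fun _ h => absurd h (by decide)) EG.B123_044m ⟨by decide, by decide⟩ (by norm_num) hx hx'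

theorem sW_B123_044m {x : ℝ} (hx : ((697932185 : ℕ) : ℝ) / S ≤ x) (hx' : x ≤ (((697932185 : ℕ) : ℝ) + (42949674 : ℕ)) / S) :
    Sg12BW PP tK tL tU 3 (eng.v x) (mog.v x) .npn 1 2 0 4 false 4 67108864 16777216 x :=
  sg12BW_of (P := PP) (RK := tK) (RL := tL) (RC := tU) (Gt := gB) (Dt := dB) (pc := pcB) (KA := 4) (N0 := 3) (C0 := c0B) (En := eng) (mo := mog) rfl trivial (Or.inl rfl) (Or.inr rfl) (lo := true) (up := false) (sideB hx hx') gokB (pinU hx hx') dokB (g3cB hx hx') (g3okB hx hx') (xr0 hx hx').1 (xr0 hx hx').2 (div_S_le (k := 8) (by norm_num) (by norm_num)) ((gatB01 x).n1) (gatB43 hx hx') (fun _ => (gatB42 x).n1) (fun _ h => absurd h (by decide)) ((datB01 x).n1) (datB43 hx hx') (fun _ => (datB42 x).n1) (fun _ h => absurd h (by decide)) EW.B123_044m ⟨by decide, by decide⟩ (by norm_num) hx hx'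

theorem sG_X123_045m {x : ℝ} (hx : ((697932185 : ℕ) : ℝ) / S ≤ x) (hx' : x ≤ (((697932185 : ℕ) : ℝ) + (42949674 : ℕ)) / S) :
    Ex12B PP 1 2 0 4 false 5 67108864 16777216 :=
  ex12B_of (P := PP) (RK := tK) (RL := tL) (Gt := gB) (KA := 4) (C0 := c0B) (x := x) (cn := .npn) rfl trivial (Or.inl rfl) (Or.inr rfl) gokB (g3okB hx hx') (div_S_le (k := 8) (by norm_num) (by norm_num)) ((gatB01 x).n1) (gatB43 hx hx') EG.X123_045m ⟨by decide, by decide⟩ (by norm_num) hx hx'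

theorem sG_B213_040m {x : ℝ} (hx : ((697932185 : ℕ) : ℝ) / S ≤ x) (hx' : x ≤ (((697932185 : ℕ) : ℝ) + (42949674 : ℕ)) / S) :
    Sg12B PP tK tL true 0 .pnn 2 1 0 4 false 0 67108864 16777216 x :=
  sg12B_of (P := PP) (RK := tK) (RL := tL) (Gt := gB) (pc := pcB) (KA := 4) (C0 := c0B) rfl trivial (Or.inr rfl) (Or.inl rfl) (lo := true) (up := false) (sideB hx hx') gokB (g3okB hx hx') (xr0 hx hx').1 (xr0 hx hx').2 (div_S_le (k := 8) (by norm_num) (by norm_num)) ((gatB02 x).n1) (gatB43 hx hx') (fun _ => (gatB01 x).n1) (fun _ h => absurd h (by decide)) EG.B213_040m ⟨by decide, by decide⟩ (by norm_num) hx hx'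

theorem sW_B213_040m {x : ℝ} (hx : ((697932185 : ℕ) : ℝ) / S ≤ x) (hx' : x ≤ (((697932185 : ℕ) : ℝ) + (42949674 : ℕ)) / S) :
    Sg12BW PP tK tL tU 3 (eng.v x) (mog.v x) .pnn 2 1 0 4 false 0 67108864 16777216 x :=
  sg12BW_of (P := PP) (RK := tK) (RL := tL) (RC := tU) (Gt := gB) (Dt := dB) (pc := pcB) (KA := 4) (N0 := 3) (C0 := c0B) (En := eng) (mo := mog) rfl trivial (Or.inr rfl) (Or.inl rfl) (lo := true) (up := false) (sideB hx hx') gokB (pinU hx hx') dokB (g3cB hx hx') (g3okB hx hx') (xr0 hx hx').1 (xr0 hx hx').2 (div_S_le (k := 8) (by norm_num) (by norm_num)) ((gatB02 x).n1) (gatB43 hx hx') (fun _ => (gatB01 x).n1) (fun _ h => absurd h (by decide)) ((datB02 x).n1) (datB43 hx hx') (fun _ => (datB01 x).n1) (fun _ h => absurd h (by decide)) EW.B213_040m ⟨by decide, by decide⟩ (by norm_num) hx hx'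

theorem sG_X213_041m {x : ℝ} (hx : ((697932185 : ℕ) : ℝ) / S ≤ x) (hx' : x ≤ (((697932185 : ℕ) : ℝ) + (42949674 : ℕ)) / S) :
    Ex12B PP 2 1 0 4 false 1 67108864 16777216 :=
  ex12B_of (P := PP) (RK := tK) (RL := tL) (Gt := gB) (KA := 4) (C0 := c0B) (x := x) (cn := .pnn) rfl trivial (Or.inr rfl) (Or.inl rfl) gokB (g3okB hx hx') (div_S_le (k := 8) (by norm_num) (by norm_num)) ((gatB02 x).n1) (gatB43 hx hx') EG.X213_041m ⟨by decide, by decide⟩ (by norm_num) hx hx'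

theorem sG_B213_140m {x : ℝ} (hx : ((697932185 : ℕ) : ℝ) / S ≤ x) (hx' : x ≤ (((697932185 : ℕ) : ℝ) + (42949674 : ℕ)) / S) :
    Sg12B PP tK tL true 0 .pnn 2 1 1 4 false 0 67108864 16777216 x :=
  sg12B_of (P := PP) (RK := tK) (RL := tL) (Gt := gB) (pc := pcB) (KA := 4) (C0 := c0B) rfl trivial (Or.inr rfl) (Or.inl rfl) (lo := true) (up := false) (sideB hx hx') gokB (g3okB hx hx') (xr0 hx hx').1 (xr0 hx hx').2 (div_S_le (k := 8) (by norm_num) (by norm_num)) ((gatB12 x).n1) (gatB43 hx hx') (fun _ => (gatB01 x).n1) (fun _ h => absurd h (by decide)) EG.B213_140m ⟨by decide, by decide⟩ (by norm_num) hx hx'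

theorem sW_B213_140m {x : ℝ} (hx : ((697932185 : ℕ) : ℝ) / S ≤ x) (hx' : x ≤ (((697932185 : ℕ) : ℝ) + (42949674 : ℕ)) / S) :
    Sg12BW PP tK tL tU 3 (eng.v x) (mog.v x) .pnn 2 1 1 4 false 0 67108864 16777216 x :=
  sg12BW_of (P := PP) (RK := tK) (RL := tL) (RC := tU) (Gt := gB) (Dt := dB) (pc := pcB) (KA := 4) (N0 := 3) (C0 := c0B) (En := eng) (mo := mog) rfl trivial (Or.inr rfl) (Or.inl rfl) (lo := true) (up := false) (sideB hx hx') gokB (pinU hx hx') dokB (g3cB hx hx') (g3okB hx hx') (xr0 hx hx').1 (xr0 hx hx').2 (div_S_le (k := 8) (by norm_num) (by norm_num)) ((gatB12 x).n1) (gatB43 hx hx') (fun _ => (gatB01 x).n1) (fun _ h => absurd h (by decide)) ((datB12 x).n1) (datB43 hx hx') (fun _ => (datB01 x).n1) (fun _ h => absurd h (by decide)) EW.B213_140m ⟨by decide, by decide⟩ (by norm_num) hx hx'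

theorem sG_X213_141m {x : ℝ} (hx : ((697932185 : ℕ) : ℝ) / S ≤ x) (hx' : x ≤ (((697932185 : ℕ) : ℝ) + (42949674 : ℕ)) / S) :
    Ex12B PP 2 1 1 4 false 1 67108864 16777216 :=
  ex12B_of (P := PP) (RK := tK) (RL := tL) (Gt := gB) (KA := 4) (C0 := c0B) (x := x) (cn := .pnn) rfl trivial (Or.inr rfl) (Or.inl rfl) gokB (g3okB hx hx') (div_S_le (k := 8) (by norm_num) (by norm_num)) ((gatB12 x).n1) (gatB43 hx hx') EG.X213_141m ⟨by decide, by decide⟩ (by norm_num) hx hx'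

theorem sG_B213_240m {x : ℝ} (hx : ((697932185 : ℕ) : ℝ) / S ≤ x) (hx' : x ≤ (((697932185 : ℕ) : ℝ) + (42949674 : ℕ)) / S) :
    Sg12B PP tK tL true 0 .pnn 2 1 2 4 false 0 67108864 16777216 x :=
  sg12B_of (P := PP) (RK := tK) (RL := tL) (Gt := gB) (pc := pcB) (KA := 4) (C0 := c0B) rfl trivial (Or.inr rfl) (Or.inl rfl) (lo := true) (up := false) (sideB hx hx') gokB (g3okB hx hx') (xr0 hx hx').1 (xr0 hx hx').2 (div_S_le (k := 8) (by norm_num) (by norm_num)) ((gatB22 x).n1) (gatB43 hx hx') (fun _ => (gatB01 x).n1) (fun _ h => absurd h (by decide)) EG.B213_240m ⟨by decide, by decide⟩ (by norm_num) hx hx'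

theorem sW_B213_240m {x : ℝ} (hx : ((697932185 : ℕ) : ℝ) / S ≤ x) (hx' : x ≤ (((697932185 : ℕ) : ℝ) + (42949674 : ℕ)) / S) :
    Sg12BW PP tK tL tU 3 (eng.v x) (mog.v x) .pnn 2 1 2 4 false 0 67108864 16777216 x :=
  sg12BW_of (P := PP) (RK := tK) (RL := tL) (RC := tU) (Gt := gB) (Dt := dB) (pc := pcB) (KA := 4) (N0 := 3) (C0 := c0B) (En := eng) (mo := mog) rfl trivial (Or.inr rfl) (Or.inl rfl) (lo := true) (up := false) (sideB hx hx') gokB (pinU hx hx') dokB (g3cB hx hx') (g3okB hx hx') (xr0 hx hx').1 (xr0 hx hx').2 (div_S_le (k := 8) (by norm_num) (by norm_num)) ((gatB22 x).n1) (gatB43 hx hx') (fun _ => (gatB01 x).n1) (fun _ h => absurd h (by decide)) ((datB22 x).n1) (datB43 hx hx') (fun _ => (datB01 x).n1) (fun _ h => absurd h (by decide)) EW.B213_240m ⟨by decide, by decide⟩ (by norm_num) hx hx'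

theorem sG_X213_241m {x : ℝ} (hx : ((697932185 : ℕ) : ℝ) / S ≤ x) (hx' : x ≤ (((697932185 : ℕ) : ℝ) + (42949674 : ℕ)) / S) :
    Ex12B PP 2 1 2 4 false 1 67108864 16777216 :=
  ex12B_of (P := PP) (RK := tK) (RL := tL) (Gt := gB) (KA := 4) (C0 := c0B) (x := x) (cn := .pnn) rfl trivial (Or.inr rfl) (Or.inl rfl) gokB (g3okB hx hx') (div_S_le (k := 8) (by norm_num) (by norm_num)) ((gatB22 x).n1) (gatB43 hx hx') EG.X213_241m ⟨by decide, by decide⟩ (by norm_num) hx hx'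

theorem sG_B213_340m {x : ℝ} (hx : ((697932185 : ℕ) : ℝ) / S ≤ x) (hx' : x ≤ (((697932185 : ℕ) : ℝ) + (42949674 : ℕ)) / S) :
    Sg12B PP tK tL true 0 .pnn 2 1 3 4 false 0 67108864 16777216 x :=
  sg12B_of (P := PP) (RK := tK) (RL := tL) (Gt := gB) (pc := pcB) (KA := 4) (C0 := c0B) rfl trivial (Or.inr rfl) (Or.inl rfl) (lo := true) (up := false) (sideB hx hx') gokB (g3okB hx hx') (xr0 hx hx').1 (xr0 hx hx').2 (div_S_le (k := 8) (by norm_num) (by norm_num)) ((gatB32 x).n1) (gatB43 hx hx') (fun _ => (gatB01 x).n1) (fun _ h => absurd h (by decide)) EG.B213_340m ⟨by decide, by decide⟩ (by norm_num) hx hx'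

theorem sW_B213_340m {x : ℝ} (hx : ((697932185 : ℕ) : ℝ) / S ≤ x) (hx' : x ≤ (((697932185 : ℕ) : ℝ) + (42949674 : ℕ)) / S) :
    Sg12BW PP tK tL tU 3 (eng.v x) (mog.v x) .pnn 2 1 3 4 false 0 67108864 16777216 x :=
  sg12BW_of (P := PP) (RK := tK) (RL := tL) (RC := tU) (Gt := gB) (Dt := dB) (pc := pcB) (KA := 4) (N0 := 3) (C0 := c0B) (En := eng) (mo := mog) rfl trivial (Or.inr rfl) (Or.inl rfl) (lo := true) (up := false) (sideB hx hx') gokB (pinU hx hx') dokB (g3cB hx hx') (g3okB hx hx') (xr0 hx hx').1 (xr0 hx hx').2 (div_S_le (k := 8) (by norm_num) (by norm_num)) ((gatB32 x).n1) (gatB43 hx hx') (fun _ => (gatB01 x).n1) (fun _ h => absurd h (by decide)) ((datB32 x).n1) (datB43 hx hx') (fun _ => (datB01 x).n1) (fun _ h => absurd h (by decide)) EW.B213_340m ⟨by decide, by decide⟩ (by norm_num) hx hx'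

theorem sG_X213_341m {x : ℝ} (hx : ((697932185 : ℕ) : ℝ) / S ≤ x) (hx' : x ≤ (((697932185 : ℕ) : ℝ) + (42949674 : ℕ)) / S) :
    Ex12B PP 2 1 3 4 false 1 67108864 16777216 :=
  ex12B_of (P := PP) (RK := tK) (RL := tL) (Gt := gB) (KA := 4) (C0 := c0B) (x := x) (cn := .pnn) rfl trivial (Or.inr rfl) (Or.inl rfl) gokB (g3okB hx hx') (div_S_le (k := 8) (by norm_num) (by norm_num)) ((gatB32 x).n1) (gatB43 hx hx') EG.X213_341m ⟨by decide, by decide⟩ (by norm_num) hx hx'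

theorem sG_B213_440m {x : ℝ} (hx : ((697932185 : ℕ) : ℝ) / S ≤ x) (hx' : x ≤ (((697932185 : ℕ) : ℝ) + (42949674 : ℕ)) / S) :
    Sg12B PP tK tL true 0 .pnn 2 1 4 4 false 0 67108864 16777216 x :=
  sg12B_of (P := PP) (RK := tK) (RL := tL) (Gt := gB) (pc := pcB) (KA := 4) (C0 := c0B) rfl trivial (Or.inr rfl) (Or.inl rfl) (lo := true) (up := false) (sideB hx hx') gokB (g3okB hx hx') (xr0 hx hx').1 (xr0 hx hx').2 (div_S_le (k := 8) (by norm_num) (by norm_num)) ((gatB42 x).n1) (gatB43 hx hx') (fun _ => (gatB01 x).n1) (fun _ h => absurd h (by decide)) EG.B213_440m ⟨by decide, by decide⟩ (by norm_num) hx hx'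

theorem sW_B213_440m {x : ℝ} (hx : ((697932185 : ℕ) : ℝ) / S ≤ x) (hx' : x ≤ (((697932185 : ℕ) : ℝ) + (42949674 : ℕ)) / S) :
    Sg12BW PP tK tL tU 3 (eng.v x) (mog.v x) .pnn 2 1 4 4 false 0 67108864 16777216 x :=
  sg12BW_of (P := PP) (RK := tK) (RL := tL) (RC := tU) (Gt := gB) (Dt := dB) (pc := pcB) (KA := 4) (N0 := 3) (C0 := c0B) (En := eng) (mo := mog) rfl trivial (Or.inr rfl) (Or.inl rfl) (lo := true) (up := false) (sideB hx hx') gokB (pinU hx hx') dokB (g3cB hx hx') (g3okB hx hx') (xr0 hx hx').1 (xr0 hx hx').2 (div_S_le (k := 8) (by norm_num) (by norm_num)) ((gatB42 x).n1) (gatB43 hx hx') (fun _ => (gatB01 x).n1) (fun _ h => absurd h (by decide)) ((datB42 x).n1) (datB43 hx hx') (fun _ => (datB01 x).n1) (fun _ h => absurd h (by decide)) EW.B213_440m ⟨by decide, by decide⟩ (by norm_num) hx hx'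

theorem sG_X213_441m {x : ℝ} (hx : ((697932185 : ℕ) : ℝ) / S ≤ x) (hx' : x ≤ (((697932185 : ℕ) : ℝ) + (42949674 : ℕ)) / S) :
    Ex12B PP 2 1 4 4 false 1 67108864 16777216 :=
  ex12B_of (P := PP) (RK := tK) (RL := tL) (Gt := gB) (KA := 4) (C0 := c0B) (x := x) (cn := .pnn) rfl trivial (Or.inr rfl) (Or.inl rfl) gokB (g3okB hx hx') (div_S_le (k := 8) (by norm_num) (by norm_num)) ((gatB42 x).n1) (gatB43 hx hx') EG.X213_441m ⟨by decide, by decide⟩ (by norm_num) hx hx'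

theorem sG_B113_050p {x : ℝ} (hx : ((697932185 : ℕ) : ℝ) / S ≤ x) (hx' : x ≤ (((697932185 : ℕ) : ℝ) + (42949674 : ℕ)) / S) :
    Sg12B PP tK tL true 0 .nn 1 1 0 5 true 0 67108864 16777216 x :=
  sg12B_of (P := PP) (RK := tK) (RL := tL) (Gt := gB) (pc := pcB) (KA := 4) (C0 := c0B) rfl trivial (Or.inl rfl) (Or.inl rfl) (lo := true) (up := false) (sideB hx hx') gokB (g3okB hx hx') (xr0 hx hx').1 (xr0 hx hx').2 (div_S_le (k := 8) (by norm_num) (by norm_num)) ((gatB01 x).n1) (gatB53 hx hx') (fun _ => (gatB01 x).n1) (fun _ h => absurd h (by decide)) EG.B113_050p ⟨by norm_num, by norm_num, rfl⟩ (by norm_num) hx hx'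

theorem sW_B113_050p {x : ℝ} (hx : ((697932185 : ℕ) : ℝ) / S ≤ x) (hx' : x ≤ (((697932185 : ℕ) : ℝ) + (42949674 : ℕ)) / S) :
    Sg12BW PP tK tL tU 3 (eng.v x) (mog.v x) .nn 1 1 0 5 true 0 67108864 16777216 x :=
  sg12BW_of (P := PP) (RK := tK) (RL := tL) (RC := tU) (Gt := gB) (Dt := dB) (pc := pcB) (KA := 4) (N0 := 3) (C0 := c0B) (En := eng) (mo := mog) rfl trivial (Or.inl rfl) (Or.inl rfl) (lo := true) (up := false) (sideB hx hx') gokB (pinU hx hx') dokB (g3cB hx hx') (g3okB hx hx') (xr0 hx hx').1 (xr0 hx hx').2 (div_S_le (k := 8) (by norm_num) (by norm_num)) ((gatB01 x).n1) (gatB53 hx hx') (fun _ => (gatB01 x).n1) (fun _ h => absurd h (by decide)) ((datB01 x).n1) (datB53 hx hx') (fun _ => (datB01 x).n1) (fun _ h => absurd h (by decide)) EW.B113_050p ⟨by norm_num, by norm_num, rfl⟩ (by norm_num) hx hx'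

theorem sG_X113_051p {x : ℝ} (hx : ((697932185 : ℕ) : ℝ) / S ≤ x) (hx' : x ≤ (((697932185 : ℕ) : ℝ) + (42949674 : ℕ)) / S) :
    Ex12B PP 1 1 0 5 true 1 67108864 16777216 :=
  ex12B_of (P := PP) (RK := tK) (RL := tL) (Gt := gB) (KA := 4) (C0 := c0B) (x := x) (cn := .nn) rfl trivial (Or.inl rfl) (Or.inl rfl) gokB (g3okB hx hx') (div_S_le (k := 8) (by norm_num) (by norm_num)) ((gatB01 x).n1) (gatB53 hx hx') EG.X113_051p ⟨by norm_num, by norm_num, rfl⟩ (by norm_num) hx hx'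

theorem sG_B123_050p {x : ℝ} (hx : ((697932185 : ℕ) : ℝ) / S ≤ x) (hx' : x ≤ (((697932185 : ℕ) : ℝ) + (42949674 : ℕ)) / S) :
    Sg12Bu PP tK tL true 0 .npn 1 2 0 5 true 0 67108864 16777216 x :=
  sg12Bu_of (P := PP) (RK := tK) (RL := tL) (Gt := gB) (pc := pcB) (KA := 4) (C0 := c0B) rfl trivial (Or.inl rfl) (Or.inr rfl) (lo := true) (up := true) (sideB hx hx') gokB (g3okB hx hx') (xr0 hx hx').1 (xr0 hx hx').2 (div_S_le (k := 8) (by norm_num) (by norm_num)) ((gatB01 x).n1) (gatB53 hx hx') (fun _ => (gatB02 x).n1) (fun _ _ => (gatB12 x).n1) EG.B123_050p ⟨⟨232471925, by norm_num, by norm_num⟩, by norm_num, by decide⟩ hx hx'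

theorem sW_B123_050p {x : ℝ} (hx : ((697932185 : ℕ) : ℝ) / S ≤ x) (hx' : x ≤ (((697932185 : ℕ) : ℝ) + (42949674 : ℕ)) / S) :
    Sg12BuW PP tK tL tU 3 (eng.v x) (mog.v x) .npn 1 2 0 5 true 0 67108864 16777216 x :=
  sg12BuW_of (P := PP) (RK := tK) (RL := tL) (RC := tU) (Gt := gB) (Dt := dB) (pc := pcB) (KA := 4) (N0 := 3) (C0 := c0B) (En := eng) (mo := mog) rfl trivial (Or.inl rfl) (Or.inr rfl) (lo := true) (up := true) (sideB hx hx') gokB (pinU hx hx') dokB (g3cB hx hx') (g3okB hx hx') (xr0 hx hx').1 (xr0 hx hx').2 (div_S_le (k := 8) (by norm_num) (by norm_num)) ((gatB01 x).n1) (gatB53 hx hx') (fun _ => (gatB02 x).n1) (fun _ _ => (gatB12 x).n1) ((datB01 x).n1) (datB53 hx hx') (fun _ => (datB02 x).n1) (fun _ _ => (datB12 x).n1) EW.B123_050p ⟨⟨232471925, by norm_num, by norm_num⟩, by norm_num, by decide⟩ hx hx'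

theorem sG_B123_051p {x : ℝ} (hx : ((697932185 : ℕ) : ℝ) / S ≤ x) (hx' : x ≤ (((697932185 : ℕ) : ℝ) + (42949674 : ℕ)) / S) :
    Sg12B PP tK tL true 0 .npn 1 2 0 5 true 1 67108864 16777216 x :=
  sg12B_of (P := PP) (RK := tK) (RL := tL) (Gt := gB) (pc := pcB) (KA := 4) (C0 := c0B) rfl trivial (Or.inl rfl) (Or.inr rfl) (lo := true) (up := true) (sideB hx hx') gokB (g3okB hx hx') (xr0 hx hx').1 (xr0 hx hx').2 (div_S_le (k := 8) (by norm_num) (by norm_num)) ((gatB01 x).n1) (gatB53 hx hx') (fun _ => (gatB12 x).n1) (fun _ _ => (gatB22 x).n1) EG.B123_051p ⟨⟨232471925, by norm_num, by norm_num⟩, by norm_num, by decide⟩ (by norm_num) hx hx'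

theorem sW_B123_051p {x : ℝ} (hx : ((697932185 : ℕ) : ℝ) / S ≤ x) (hx' : x ≤ (((697932185 : ℕ) : ℝ) + (42949674 : ℕ)) / S) :
    Sg12BW PP tK tL tU 3 (eng.v x) (mog.v x) .npn 1 2 0 5 true 1 67108864 16777216 x :=
  sg12BW_of (P := PP) (RK := tK) (RL := tL) (RC := tU) (Gt := gB) (Dt := dB) (pc := pcB) (KA := 4) (N0 := 3) (C0 := c0B) (En := eng) (mo := mog) rfl trivial (Or.inl rfl) (Or.inr rfl) (lo := true) (up := true) (sideB hx hx') gokB (pinU hx hx') dokB (g3cB hx hx') (g3okB hx hx') (xr0 hx hx').1 (xr0 hx hx').2 (div_S_le (k := 8) (by norm_num) (by norm_num)) ((gatB01 x).n1) (gatB53 hx hx') (fun _ => (gatB12 x).n1) (fun _ _ => (gatB22 x).n1) ((datB01 x).n1) (datB53 hx hx') (fun _ => (datB12 x).n1) (fun _ _ => (datB22 x).n1) EW.B123_051p ⟨⟨232471925, by norm_num, by norm_num⟩, by norm_num, by decide⟩ (by norm_num) hx hx'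

theorem sG_B123_052p {x : ℝ} (hx : ((697932185 : ℕ) : ℝ) / S ≤ x) (hx' : x ≤ (((697932185 : ℕ) : ℝ) + (42949674 : ℕ)) / S) :
    Sg12B PP tK tL true 0 .npn 1 2 0 5 true 2 67108864 16777216 x :=
  sg12B_of (P := PP) (RK := tK) (RL := tL) (Gt := gB) (pc := pcB) (KA := 4) (C0 := c0B) rfl trivial (Or.inl rfl) (Or.inr rfl) (lo := true) (up := true) (sideB hx hx') gokB (g3okB hx hx') (xr0 hx hx').1 (xr0 hx hx').2 (div_S_le (k := 8) (by norm_num) (by norm_num)) ((gatB01 x).n1) (gatB53 hx hx') (fun _ => (gatB22 x).n1) (fun _ _ => (gatB32 x).n1) EG.B123_052p ⟨⟨232471925, by norm_num, by norm_num⟩, by norm_num, by decide⟩ (by norm_num) hx hx'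

theorem sW_B123_052p {x : ℝ} (hx : ((697932185 : ℕ) : ℝ) / S ≤ x) (hx' : x ≤ (((697932185 : ℕ) : ℝ) + (42949674 : ℕ)) / S) :
    Sg12BW PP tK tL tU 3 (eng.v x) (mog.v x) .npn 1 2 0 5 true 2 67108864 16777216 x :=
  sg12BW_of (P := PP) (RK := tK) (RL := tL) (RC := tU) (Gt := gB) (Dt := dB) (pc := pcB) (KA := 4) (N0 := 3) (C0 := c0B) (En := eng) (mo := mog) rfl trivial (Or.inl rfl) (Or.inr rfl) (lo := true) (up := true) (sideB hx hx') gokB (pinU hx hx') dokB (g3cB hx hx') (g3okB hx hx') (xr0 hx hx').1 (xr0 hx hx').2 (div_S_le (k := 8) (by norm_num) (by norm_num)) ((gatB01 x).n1) (gatB53 hx hx') (fun _ => (gatB22 x).n1) (fun _ _ => (gatB32 x).n1) ((datB01 x).n1) (datB53 hx hx') (fun _ => (datB22 x).n1) (fun _ _ => (datB32 x).n1) EW.B123_052p ⟨⟨232471925, by norm_num, by norm_num⟩, by norm_num, by decide⟩ (by norm_num) hx hx'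

theorem sG_B123_053p {x : ℝ} (hx : ((697932185 : ℕ) : ℝ) / S ≤ x) (hx' : x ≤ (((697932185 : ℕ) : ℝ) + (42949674 : ℕ)) / S) :
    Sg12B PP tK tL true 0 .npn 1 2 0 5 true 3 67108864 16777216 x :=
  sg12B_of (P := PP) (RK := tK) (RL := tL) (Gt := gB) (pc := pcB) (KA := 4) (C0 := c0B) rfl trivial (Or.inl rfl) (Or.inr rfl) (lo := true) (up := true) (sideB hx hx') gokB (g3okB hx hx') (xr0 hx hx').1 (xr0 hx hx').2 (div_S_le (k := 8) (by norm_num) (by norm_num)) ((gatB01 x).n1) (gatB53 hx hx') (fun _ => (gatB32 x).n1) (fun _ _ => (gatB42 x).n1) EG.B123_053p ⟨⟨232471925, by norm_num, by norm_num⟩, by norm_num, by decide⟩ (by norm_num) hx hx'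

theorem sW_B123_053p {x : ℝ} (hx : ((697932185 : ℕ) : ℝ) / S ≤ x) (hx' : x ≤ (((697932185 : ℕ) : ℝ) + (42949674 : ℕ)) / S) :
    Sg12BW PP tK tL tU 3 (eng.v x) (mog.v x) .npn 1 2 0 5 true 3 67108864 16777216 x :=
  sg12BW_of (P := PP) (RK := tK) (RL := tL) (RC := tU) (Gt := gB) (Dt := dB) (pc := pcB) (KA := 4) (N0 := 3) (C0 := c0B) (En := eng) (mo := mog) rfl trivial (Or.inl rfl) (Or.inr rfl) (lo := true) (up := true) (sideB hx hx') gokB (pinU hx hx') dokB (g3cB hx hx') (g3okB hx hx') (xr0 hx hx').1 (xr0 hx hx').2 (div_S_le (k := 8) (by norm_num) (by norm_num)) ((gatB01 x).n1) (gatB53 hx hx') (fun _ => (gatB32 x).n1) (fun _ _ => (gatB42 x).n1) ((datB01 x).n1) (datB53 hx hx') (fun _ => (datB32 x).n1) (fun _ _ => (datB42 x).n1) EW.B123_053p ⟨⟨232471925, by norm_num, by norm_num⟩, by norm_num, by decide⟩ (by norm_num) hx hx'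

theorem sG_B123_054p {x : ℝ} (hx : ((697932185 : ℕ) : ℝ) / S ≤ x) (hx' : x ≤ (((697932185 : ℕ) : ℝ) + (42949674 : ℕ)) / S) :
    Sg12B PP tK tL true 0 .npn 1 2 0 5 true 4 67108864 16777216 x :=
  sg12B_of (P := PP) (RK := tK) (RL := tL) (Gt := gB) (pc := pcB) (KA := 4) (C0 := c0B) rfl trivial (Or.inl rfl) (Or.inr rfl) (lo := true) (up := false) (sideB hx hx') gokB (g3okB hx hx') (xr0 hx hx').1 (xr0 hx hx').2 (div_S_le (k := 8) (by norm_num) (by norm_num)) ((gatB01 x).n1) (gatB53 hx hx') (fun _ => (gatB42 x).n1) (fun _ h => absurd h (by decide)) EG.B123_054p ⟨⟨232471925, by norm_num, by norm_num⟩, by norm_num, by decide⟩ (by norm_num) hx hx'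

theorem sW_B123_054p {x : ℝ} (hx : ((697932185 : ℕ) : ℝ) / S ≤ x) (hx' : x ≤ (((697932185 : ℕ) : ℝ) + (42949674 : ℕ)) / S) :
    Sg12BW PP tK tL tU 3 (eng.v x) (mog.v x) .npn 1 2 0 5 true 4 67108864 16777216 x :=
  sg12BW_of (P := PP) (RK := tK) (RL := tL) (RC := tU) (Gt := gB) (Dt := dB) (pc := pcB) (KA := 4) (N0 := 3) (C0 := c0B) (En := eng) (mo := mog) rfl trivial (Or.inl rfl) (Or.inr rfl) (lo := true) (up := false) (sideB hx hx') gokB (pinU hx hx') dokB (g3cB hx hx') (g3okB hx hx') (xr0 hx hx').1 (xr0 hx hx').2 (div_S_le (k := 8) (by norm_num) (by norm_num)) ((gatB01 x).n1) (gatB53 hx hx') (fun _ => (gatB42 x).n1) (fun _ h => absurd h (by decide)) ((datB01 x).n1) (datB53 hx hx') (fun _ => (datB42 x).n1) (fun _ h => absurd h (by decide)) EW.B123_054p ⟨⟨232471925, by norm_num, by norm_num⟩, by norm_num, by decide⟩ (by norm_num) hx hx'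

theorem sG_X123_055p {x : ℝ} (hx : ((697932185 : ℕ) : ℝ) / S ≤ x) (hx' : x ≤ (((697932185 : ℕ) : ℝ) + (42949674 : ℕ)) / S) :
    Ex12B PP 1 2 0 5 true 5 67108864 16777216 :=
  ex12B_of (P := PP) (RK := tK) (RL := tL) (Gt := gB) (KA := 4) (C0 := c0B) (x := x) (cn := .npn) rfl trivial (Or.inl rfl) (Or.inr rfl) gokB (g3okB hx hx') (div_S_le (k := 8) (by norm_num) (by norm_num)) ((gatB01 x).n1) (gatB53 hx hx') EG.X123_055p ⟨⟨232471925, by norm_num, by norm_num⟩, by norm_num, by decide⟩ (by norm_num) hx hx'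

theorem sG_B113_050m {x : ℝ} (hx : ((697932185 : ℕ) : ℝ) / S ≤ x) (hx' : x ≤ (((697932185 : ℕ) : ℝ) + (42949674 : ℕ)) / S) :
    Sg12B PP tK tL true 0 .nn 1 1 0 5 false 0 67108864 16777216 x :=
  sg12B_of (P := PP) (RK := tK) (RL := tL) (Gt := gB) (pc := pcB) (KA := 4) (C0 := c0B) rfl trivial (Or.inl rfl) (Or.inl rfl) (lo := true) (up := false) (sideB hx hx') gokB (g3okB hx hx') (xr0 hx hx').1 (xr0 hx hx').2 (div_S_le (k := 8) (by norm_num) (by norm_num)) ((gatB01 x).n1) (gatB53 hx hx') (fun _ => (gatB01 x).n1) (fun _ h => absurd h (by decide)) EG.B113_050m ⟨by norm_num, by norm_num, rfl⟩ (by norm_num) hx hx'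

theorem sW_B113_050m {x : ℝ} (hx : ((697932185 : ℕ) : ℝ) / S ≤ x) (hx' : x ≤ (((697932185 : ℕ) : ℝ) + (42949674 : ℕ)) / S) :
    Sg12BW PP tK tL tU 3 (eng.v x) (mog.v x) .nn 1 1 0 5 false 0 67108864 16777216 x :=
  sg12BW_of (P := PP) (RK := tK) (RL := tL) (RC := tU) (Gt := gB) (Dt := dB) (pc := pcB) (KA := 4) (N0 := 3) (C0 := c0B) (En := eng) (mo := mog) rfl trivial (Or.inl rfl) (Or.inl rfl) (lo := true) (up := false) (sideB hx hx') gokB (pinU hx hx') dokB (g3cB hx hx') (g3okB hx hx') (xr0 hx hx').1 (xr0 hx hx').2 (div_S_le (k := 8) (by norm_num) (by norm_num)) ((gatB01 x).n1) (gatB53 hx hx') (fun _ => (gatB01 x).n1) (fun _ h => absurd h (by decide)) ((datB01 x).n1) (datB53 hx hx') (fun _ => (datB01 x).n1) (fun _ h => absurd h (by decide)) EW.B113_050m ⟨by norm_num, by norm_num, rfl⟩ (by norm_num) hx hx'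

theorem sG_B113_051m {x : ℝ} (hx : ((697932185 : ℕ) : ℝ) / S ≤ x) (hx' : x ≤ (((697932185 : ℕ) : ℝ) + (42949674 : ℕ)) / S) :
    Sg12B PP tK tL true 0 .nn 1 1 0 5 false 1 67108864 16777216 x :=
  sg12B_of (P := PP) (RK := tK) (RL := tL) (Gt := gB) (pc := pcB) (KA := 4) (C0 := c0B) rfl trivial (Or.inl rfl) (Or.inl rfl) (lo := false) (up := false) (sideB hx hx') gokB (g3okB hx hx') (xr0 hx hx').1 (xr0 hx hx').2 (div_S_le (k := 8) (by norm_num) (by norm_num)) ((gatB01 x).n1) (gatB53 hx hx') (fun h => absurd h (by decide)) (fun h _ => absurd h (by decide)) EG.B113_051m ⟨by norm_num, by norm_num, rfl⟩ (by norm_num) hx hx'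

theorem sW_B113_051m {x : ℝ} (hx : ((697932185 : ℕ) : ℝ) / S ≤ x) (hx' : x ≤ (((697932185 : ℕ) : ℝ) + (42949674 : ℕ)) / S) :
    Sg12BW PP tK tL tU 3 (eng.v x) (mog.v x) .nn 1 1 0 5 false 1 67108864 16777216 x :=
  sg12BW_of (P := PP) (RK := tK) (RL := tL) (RC := tU) (Gt := gB) (Dt := dB) (pc := pcB) (KA := 4) (N0 := 3) (C0 := c0B) (En := eng) (mo := mog) rfl trivial (Or.inl rfl) (Or.inl rfl) (lo := false) (up := false) (sideB hx hx') gokB (pinU hx hx') dokB (g3cB hx hx') (g3okB hx hx') (xr0 hx hx').1 (xr0 hx hx').2 (div_S_le (k := 8) (by norm_num) (by norm_num)) ((gatB01 x).n1) (gatB53 hx hx') (fun h => absurd h (by decide)) (fun h _ => absurd h (by decide)) ((datB01 x).n1) (datB53 hx hx') (fun h => absurd h (by decide)) (fun h _ => absurd h (by decide)) EW.B113_051m ⟨by norm_num, by norm_num, rfl⟩ (by norm_num) hx hx'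

theorem sG_X113_052m {x : ℝ} (hx : ((697932185 : ℕ) : ℝ) / S ≤ x) (hx' : x ≤ (((697932185 : ℕ) : ℝ) + (42949674 : ℕ)) / S) :
    Ex12B PP 1 1 0 5 false 2 67108864 16777216 :=
  ex12B_of (P := PP) (RK := tK) (RL := tL) (Gt := gB) (KA := 4) (C0 := c0B) (x := x) (cn := .nn) rfl trivial (Or.inl rfl) (Or.inl rfl) gokB (g3okB hx hx') (div_S_le (k := 8) (by norm_num) (by norm_num)) ((gatB01 x).n1) (gatB53 hx hx') EG.X113_052m ⟨by norm_num, by norm_num, rfl⟩ (by norm_num) hx hx'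

theorem sG_B123_050m {x : ℝ} (hx : ((697932185 : ℕ) : ℝ) / S ≤ x) (hx' : x ≤ (((697932185 : ℕ) : ℝ) + (42949674 : ℕ)) / S) :
    Sg12B PP tK tL true 0 .npn 1 2 0 5 false 0 67108864 16777216 x :=
  sg12B_of (P := PP) (RK := tK) (RL := tL) (Gt := gB) (pc := pcB) (KA := 4) (C0 := c0B) rfl trivial (Or.inl rfl) (Or.inr rfl) (lo := true) (up := true) (sideB hx hx') gokB (g3okB hx hx') (xr0 hx hx').1 (xr0 hx hx').2 (div_S_le (k := 8) (by norm_num) (by norm_num)) ((gatB01 x).n1) (gatB53 hx hx') (fun _ => (gatB02 x).n1) (fun _ _ => (gatB12 x).n1) EG.B123_050m ⟨⟨232471925, by norm_num, by norm_num⟩, by norm_num, by decide⟩ (by norm_num) hx hx'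

theorem sW_B123_050m {x : ℝ} (hx : ((697932185 : ℕ) : ℝ) / S ≤ x) (hx' : x ≤ (((697932185 : ℕ) : ℝ) + (42949674 : ℕ)) / S) :
    Sg12BW PP tK tL tU 3 (eng.v x) (mog.v x) .npn 1 2 0 5 false 0 67108864 16777216 x :=
  sg12BW_of (P := PP) (RK := tK) (RL := tL) (RC := tU) (Gt := gB) (Dt := dB) (pc := pcB) (KA := 4) (N0 := 3) (C0 := c0B) (En := eng) (mo := mog) rfl trivial (Or.inl rfl) (Or.inr rfl) (lo := true) (up := true) (sideB hx hx') gokB (pinU hx hx') dokB (g3cB hx hx') (g3okB hx hx') (xr0 hx hx').1 (xr0 hx hx').2 (div_S_le (k := 8) (by norm_num) (by norm_num)) ((gatB01 x).n1) (gatB53 hx hx') (fun _ => (gatB02 x).n1) (fun _ _ => (gatB12 x).n1) ((datB01 x).n1) (datB53 hx hx') (fun _ => (datB02 x).n1) (fun _ _ => (datB12 x).n1) EW.B123_050m ⟨⟨232471925, by norm_num, by norm_num⟩, by norm_num, by decide⟩ (by norm_num) hx hx'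

theorem sG_B123_051m {x : ℝ} (hx : ((697932185 : ℕ) : ℝ) / S ≤ x) (hx' : x ≤ (((697932185 : ℕ) : ℝ) + (42949674 : ℕ)) / S) :
    Sg12B PP tK tL true 0 .npn 1 2 0 5 false 1 67108864 16777216 x :=
  sg12B_of (P := PP) (RK := tK) (RL := tL) (Gt := gB) (pc := pcB) (KA := 4) (C0 := c0B) rfl trivial (Or.inl rfl) (Or.inr rfl) (lo := true) (up := true) (sideB hx hx') gokB (g3okB hx hx') (xr0 hx hx').1 (xr0 hx hx').2 (div_S_le (k := 8) (by norm_num) (by norm_num)) ((gatB01 x).n1) (gatB53 hx hx') (fun _ => (gatB12 x).n1) (fun _ _ => (gatB22 x).n1) EG.B123_051m ⟨⟨232471925, by norm_num, by norm_num⟩, by norm_num, by decide⟩ (by norm_num) hx hx'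

theorem sW_B123_051m {x : ℝ} (hx : ((697932185 : ℕ) : ℝ) / S ≤ x) (hx' : x ≤ (((697932185 : ℕ) : ℝ) + (42949674 : ℕ)) / S) :
    Sg12BW PP tK tL tU 3 (eng.v x) (mog.v x) .npn 1 2 0 5 false 1 67108864 16777216 x :=
  sg12BW_of (P := PP) (RK := tK) (RL := tL) (RC := tU) (Gt := gB) (Dt := dB) (pc := pcB) (KA := 4) (N0 := 3) (C0 := c0B) (En := eng) (mo := mog) rfl trivial (Or.inl rfl) (Or.inr rfl) (lo := true) (up := true) (sideB hx hx') gokB (pinU hx hx') dokB (g3cB hx hx') (g3okB hx hx') (xr0 hx hx').1 (xr0 hx hx').2 (div_S_le (k := 8) (by norm_num) (by norm_num)) ((gatB01 x).n1) (gatB53 hx hx') (fun _ => (gatB12 x).n1) (fun _ _ => (gatB22 x).n1) ((datB01 x).n1) (datB53 hx hx') (fun _ => (datB12 x).n1) (fun _ _ => (datB22 x).n1) EW.B123_051m ⟨⟨232471925, by norm_num, by norm_num⟩, by norm_num, by decide⟩ (by norm_num) hx hx'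

theorem sG_B123_052m {x : ℝ} (hx : ((697932185 : ℕ) : ℝ) / S ≤ x) (hx' : x ≤ (((697932185 : ℕ) : ℝ) + (42949674 : ℕ)) / S) :
    Sg12B PP tK tL true 0 .npn 1 2 0 5 false 2 67108864 16777216 x :=
  sg12B_of (P := PP) (RK := tK) (RL := tL) (Gt := gB) (pc := pcB) (KA := 4) (C0 := c0B) rfl trivial (Or.inl rfl) (Or.inr rfl) (lo := true) (up := true) (sideB hx hx') gokB (g3okB hx hx') (xr0 hx hx').1 (xr0 hx hx').2 (div_S_le (k := 8) (by norm_num) (by norm_num)) ((gatB01 x).n1) (gatB53 hx hx') (fun _ => (gatB22 x).n1) (fun _ _ => (gatB32 x).n1) EG.B123_052m ⟨⟨232471925, by norm_num, by norm_num⟩, by norm_num, by decide⟩ (by norm_num) hx hx'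

theorem sW_B123_052m {x : ℝ} (hx : ((697932185 : ℕ) : ℝ) / S ≤ x) (hx' : x ≤ (((697932185 : ℕ) : ℝ) + (42949674 : ℕ)) / S) :
    Sg12BW PP tK tL tU 3 (eng.v x) (mog.v x) .npn 1 2 0 5 false 2 67108864 16777216 x :=
  sg12BW_of (P := PP) (RK := tK) (RL := tL) (RC := tU) (Gt := gB) (Dt := dB) (pc := pcB) (KA := 4) (N0 := 3) (C0 := c0B) (En := eng) (mo := mog) rfl trivial (Or.inl rfl) (Or.inr rfl) (lo := true) (up := true) (sideB hx hx') gokB (pinU hx hx') dokB (g3cB hx hx') (g3okB hx hx') (xr0 hx hx').1 (xr0 hx hx').2 (div_S_le (k := 8) (by norm_num) (by norm_num)) ((gatB01 x).n1) (gatB53 hx hx') (fun _ => (gatB22 x).n1) (fun _ _ => (gatB32 x).n1) ((datB01 x).n1) (datB53 hx hx') (fun _ => (datB22 x).n1) (fun _ _ => (datB32 x).n1) EW.B123_052m ⟨⟨232471925, by norm_num, by norm_num⟩, by norm_num, by decide⟩ (by norm_num) hx hx'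

theorem sG_B123_053m {x : ℝ} (hx : ((697932185 : ℕ) : ℝ) / S ≤ x) (hx' : x ≤ (((697932185 : ℕ) : ℝ) + (42949674 : ℕ)) / S) :
    Sg12B PP tK tL true 0 .npn 1 2 0 5 false 3 67108864 16777216 x :=
  sg12B_of (P := PP) (RK := tK) (RL := tL) (Gt := gB) (pc := pcB) (KA := 4) (C0 := c0B) rfl trivial (Or.inl rfl) (Or.inr rfl) (lo := true) (up := true) (sideB hx hx') gokB (g3okB hx hx') (xr0 hx hx').1 (xr0 hx hx').2 (div_S_le (k := 8) (by norm_num) (by norm_num)) ((gatB01 x).n1) (gatB53 hx hx') (fun _ => (gatB32 x).n1) (fun _ _ => (gatB42 x).n1) EG.B123_053m ⟨⟨232471925, by norm_num, by norm_num⟩, by norm_num, by decide⟩ (by norm_num) hx hx'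

theorem sW_B123_053m {x : ℝ} (hx : ((697932185 : ℕ) : ℝ) / S ≤ x) (hx' : x ≤ (((697932185 : ℕ) : ℝ) + (42949674 : ℕ)) / S) :
    Sg12BW PP tK tL tU 3 (eng.v x) (mog.v x) .npn 1 2 0 5 false 3 67108864 16777216 x :=
  sg12BW_of (P := PP) (RK := tK) (RL := tL) (RC := tU) (Gt := gB) (Dt := dB) (pc := pcB) (KA := 4) (N0 := 3) (C0 := c0B) (En := eng) (mo := mog) rfl trivial (Or.inl rfl) (Or.inr rfl) (lo := true) (up := true) (sideB hx hx') gokB (pinU hx hx') dokB (g3cB hx hx') (g3okB hx hx') (xr0 hx hx').1 (xr0 hx hx').2 (div_S_le (k := 8) (by norm_num) (by norm_num)) ((gatB01 x).n1) (gatB53 hx hx') (fun _ => (gatB32 x).n1) (fun _ _ => (gatB42 x).n1) ((datB01 x).n1) (datB53 hx hx') (fun _ => (datB32 x).n1) (fun _ _ => (datB42 x).n1) EW.B123_053m ⟨⟨232471925, by norm_num, by norm_num⟩, by norm_num, by decide⟩ (by norm_num) hx hx'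

theorem sG_B123_054m {x : ℝ} (hx : ((697932185 : ℕ) : ℝ) / S ≤ x) (hx' : x ≤ (((697932185 : ℕ) : ℝ) + (42949674 : ℕ)) / S) :
    Sg12B PP tK tL true 0 .npn 1 2 0 5 false 4 67108864 16777216 x :=
  sg12B_of (P := PP) (RK := tK) (RL := tL) (Gt := gB) (pc := pcB) (KA := 4) (C0 := c0B) rfl trivial (Or.inl rfl) (Or.inr rfl) (lo := true) (up := false) (sideB hx hx') gokB (g3okB hx hx') (xr0 hx hx').1 (xr0 hx hx').2 (div_S_le (k := 8) (by norm_num) (by norm_num)) ((gatB01 x).n1) (gatB53 hx hx') (fun _ => (gatB42 x).n1) (fun _ h => absurd h (by decide)) EG.B123_054m ⟨⟨232471925, by norm_num, by norm_num⟩, by norm_num, by decide⟩ (by norm_num) hx hx'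

theorem sW_B123_054m {x : ℝ} (hx : ((697932185 : ℕ) : ℝ) / S ≤ x) (hx' : x ≤ (((697932185 : ℕ) : ℝ) + (42949674 : ℕ)) / S) :
    Sg12BW PP tK tL tU 3 (eng.v x) (mog.v x) .npn 1 2 0 5 false 4 67108864 16777216 x :=
  sg12BW_of (P := PP) (RK := tK) (RL := tL) (RC := tU) (Gt := gB) (Dt := dB) (pc := pcB) (KA := 4) (N0 := 3) (C0 := c0B) (En := eng) (mo := mog) rfl trivial (Or.inl rfl) (Or.inr rfl) (lo := true) (up := false) (sideB hx hx') gokB (pinU hx hx') dokB (g3cB hx hx') (g3okB hx hx') (xr0 hx hx').1 (xr0 hx hx').2 (div_S_le (k := 8) (by norm_num) (by norm_num)) ((gatB01 x).n1) (gatB53 hx hx') (fun _ => (gatB42 x).n1) (fun _ h => absurd h (by decide)) ((datB01 x).n1) (datB53 hx hx') (fun _ => (datB42 x).n1) (fun _ h => absurd h (by decide)) EW.B123_054m ⟨⟨232471925, by norm_num, by norm_num⟩, by norm_num, by decide⟩ (by norm_num) hx hx'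

theorem sG_B123_055m {x : ℝ} (hx : ((697932185 : ℕ) : ℝ) / S ≤ x) (hx' : x ≤ (((697932185 : ℕ) : ℝ) + (42949674 : ℕ)) / S) :
    Sg12B PP tK tL true 0 .npn 1 2 0 5 false 5 67108864 16777216 x :=
  sg12B_of (P := PP) (RK := tK) (RL := tL) (Gt := gB) (pc := pcB) (KA := 4) (C0 := c0B) rfl trivial (Or.inl rfl) (Or.inr rfl) (lo := false) (up := false) (sideB hx hx') gokB (g3okB hx hx') (xr0 hx hx').1 (xr0 hx hx').2 (div_S_le (k := 8) (by norm_num) (by norm_num)) ((gatB01 x).n1) (gatB53 hx hx') (fun h => absurd h (by decide)) (fun h _ => absurd h (by decide)) EG.B123_055m ⟨⟨232471925, by norm_num, by norm_num⟩, by norm_num, by decide⟩ (by norm_num) hx hx'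

theorem sW_B123_055m {x : ℝ} (hx : ((697932185 : ℕ) : ℝ) / S ≤ x) (hx' : x ≤ (((697932185 : ℕ) : ℝ) + (42949674 : ℕ)) / S) :
    Sg12BW PP tK tL tU 3 (eng.v x) (mog.v x) .npn 1 2 0 5 false 5 67108864 16777216 x :=
  sg12BW_of (P := PP) (RK := tK) (RL := tL) (RC := tU) (Gt := gB) (Dt := dB) (pc := pcB) (KA := 4) (N0 := 3) (C0 := c0B) (En := eng) (mo := mog) rfl trivial (Or.inl rfl) (Or.inr rfl) (lo := false) (up := false) (sideB hx hx') gokB (pinU hx hx') dokB (g3cB hx hx') (g3okB hx hx') (xr0 hx hx').1 (xr0 hx hx').2 (div_S_le (k := 8) (by norm_num) (by norm_num)) ((gatB01 x).n1) (gatB53 hx hx') (fun h => absurd h (by decide)) (fun h _ => absurd h (by decide)) ((datB01 x).n1) (datB53 hx hx') (fun h => absurd h (by decide)) (fun h _ => absurd h (by decide)) EW.B123_055m ⟨⟨232471925, by norm_num, by norm_num⟩, by norm_num, by decide⟩ (by norm_num) hx hx'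

theorem sG_X123_056m {x : ℝ} (hx : ((697932185 : ℕ) : ℝ) / S ≤ x) (hx' : x ≤ (((697932185 : ℕ) : ℝ) + (42949674 : ℕ)) / S) :
    Ex12B PP 1 2 0 5 false 6 67108864 16777216 :=
  ex12B_of (P := PP) (RK := tK) (RL := tL) (Gt := gB) (KA := 4) (C0 := c0B) (x := x) (cn := .npn) rfl trivial (Or.inl rfl) (Or.inr rfl) gokB (g3okB hx hx') (div_S_le (k := 8) (by norm_num) (by norm_num)) ((gatB01 x).n1) (gatB53 hx hx') EG.X123_056m ⟨⟨232471925, by norm_num, by norm_num⟩, by norm_num, by decide⟩ (by norm_num) hx hx'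

theorem sG_B213_051m {x : ℝ} (hx : ((697932185 : ℕ) : ℝ) / S ≤ x) (hx' : x ≤ (((697932185 : ℕ) : ℝ) + (42949674 : ℕ)) / S) :
    Sg12B PP tK tL true 0 .pnn 2 1 0 5 false 1 67108864 16777216 x :=
  sg12B_of (P := PP) (RK := tK) (RL := tL) (Gt := gB) (pc := pcB) (KA := 4) (C0 := c0B) rfl trivial (Or.inr rfl) (Or.inl rfl) (lo := false) (up := false) (sideB hx hx') gokB (g3okB hx hx') (xr0 hx hx').1 (xr0 hx hx').2 (div_S_le (k := 8) (by norm_num) (by norm_num)) ((gatB02 x).n1) (gatB53 hx hx') (fun h => absurd h (by decide)) (fun h _ => absurd h (by decide)) EG.B213_051m ⟨⟨232471925, by norm_num, by norm_num⟩, by norm_num, by decide⟩ (by norm_num) hx hx'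

theorem sW_B213_051m {x : ℝ} (hx : ((697932185 : ℕ) : ℝ) / S ≤ x) (hx' : x ≤ (((697932185 : ℕ) : ℝ) + (42949674 : ℕ)) / S) :
    Sg12BW PP tK tL tU 3 (eng.v x) (mog.v x) .pnn 2 1 0 5 false 1 67108864 16777216 x :=
  sg12BW_of (P := PP) (RK := tK) (RL := tL) (RC := tU) (Gt := gB) (Dt := dB) (pc := pcB) (KA := 4) (N0 := 3) (C0 := c0B) (En := eng) (mo := mog) rfl trivial (Or.inr rfl) (Or.inl rfl) (lo := false) (up := false) (sideB hx hx') gokB (pinU hx hx') dokB (g3cB hx hx') (g3okB hx hx') (xr0 hx hx').1 (xr0 hx hx').2 (div_S_le (k := 8) (by norm_num) (by norm_num)) ((gatB02 x).n1) (gatB53 hx hx') (fun h => absurd h (by decide)) (fun h _ => absurd h (by decide)) ((datB02 x).n1) (datB53 hx hx') (fun h => absurd h (by decide)) (fun h _ => absurd h (by decide)) EW.B213_051m ⟨⟨232471925, by norm_num, by norm_num⟩, by norm_num, by decide⟩ (by norm_num) hx hx'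

theorem sG_X213_052m {x : ℝ} (hx : ((697932185 : ℕ) : ℝ) / S ≤ x) (hx' : x ≤ (((697932185 : ℕ) : ℝ) + (42949674 : ℕ)) / S) :
    Ex12B PP 2 1 0 5 false 2 67108864 16777216 :=
  ex12B_of (P := PP) (RK := tK) (RL := tL) (Gt := gB) (KA := 4) (C0 := c0B) (x := x) (cn := .pnn) rfl trivial (Or.inr rfl) (Or.inl rfl) gokB (g3okB hx hx') (div_S_le (k := 8) (by norm_num) (by norm_num)) ((gatB02 x).n1) (gatB53 hx hx') EG.X213_052m ⟨⟨232471925, by norm_num, by norm_num⟩, by norm_num, by decide⟩ (by norm_num) hx hx'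

theorem sG_B213_150m {x : ℝ} (hx : ((697932185 : ℕ) : ℝ) / S ≤ x) (hx' : x ≤ (((697932185 : ℕ) : ℝ) + (42949674 : ℕ)) / S) :
    Sg12B PP tK tL true 0 .pnn 2 1 1 5 false 0 67108864 16777216 x :=
  sg12B_of (P := PP) (RK := tK) (RL := tL) (Gt := gB) (pc := pcB) (KA := 4) (C0 := c0B) rfl trivial (Or.inr rfl) (Or.inl rfl) (lo := true) (up := false) (sideB hx hx') gokB (g3okB hx hx') (xr0 hx hx').1 (xr0 hx hx').2 (div_S_le (k := 8) (by norm_num) (by norm_num)) ((gatB12 x).n1) (gatB53 hx hx') (fun _ => (gatB01 x).n1) (fun _ h => absurd h (by decide)) EG.B213_150m ⟨⟨232471925, by norm_num, by norm_num⟩, by norm_num, by decide⟩ (by norm_num) hx hx'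

theorem sW_B213_150m {x : ℝ} (hx : ((697932185 : ℕ) : ℝ) / S ≤ x) (hx' : x ≤ (((697932185 : ℕ) : ℝ) + (42949674 : ℕ)) / S) :
    Sg12BW PP tK tL tU 3 (eng.v x) (mog.v x) .pnn 2 1 1 5 false 0 67108864 16777216 x :=
  sg12BW_of (P := PP) (RK := tK) (RL := tL) (RC := tU) (Gt := gB) (Dt := dB) (pc := pcB) (KA := 4) (N0 := 3) (C0 := c0B) (En := eng) (mo := mog) rfl trivial (Or.inr rfl) (Or.inl rfl) (lo := true) (up := false) (sideB hx hx') gokB (pinU hx hx') dokB (g3cB hx hx') (g3okB hx hx') (xr0 hx hx').1 (xr0 hx hx').2 (div_S_le (k := 8) (by norm_num) (by norm_num)) ((gatB12 x).n1) (gatB53 hx hx') (fun _ => (gatB01 x).n1) (fun _ h => absurd h (by decide)) ((datB12 x).n1) (datB53 hx hx') (fun _ => (datB01 x).n1) (fun _ h => absurd h (by decide)) EW.B213_150m ⟨⟨232471925, by norm_num, by norm_num⟩, by norm_num, by decide⟩ (by norm_num) hx hx'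

theorem sG_B213_151m {x : ℝ} (hx : ((697932185 : ℕ) : ℝ) / S ≤ x) (hx' : x ≤ (((697932185 : ℕ) : ℝ) + (42949674 : ℕ)) / S) :
    Sg12B PP tK tL true 0 .pnn 2 1 1 5 false 1 67108864 16777216 x :=
  sg12B_of (P := PP) (RK := tK) (RL := tL) (Gt := gB) (pc := pcB) (KA := 4) (C0 := c0B) rfl trivial (Or.inr rfl) (Or.inl rfl) (lo := false) (up := false) (sideB hx hx') gokB (g3okB hx hx') (xr0 hx hx').1 (xr0 hx hx').2 (div_S_le (k := 8) (by norm_num) (by norm_num)) ((gatB12 x).n1) (gatB53 hx hx') (fun h => absurd h (by decide)) (fun h _ => absurd h (by decide)) EG.B213_151m ⟨⟨232471925, by norm_num, by norm_num⟩, by norm_num, by decide⟩ (by norm_num) hx hx'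

theorem sW_B213_151m {x : ℝ} (hx : ((697932185 : ℕ) : ℝ) / S ≤ x) (hx' : x ≤ (((697932185 : ℕ) : ℝ) + (42949674 : ℕ)) / S) :
    Sg12BW PP tK tL tU 3 (eng.v x) (mog.v x) .pnn 2 1 1 5 false 1 67108864 16777216 x :=
  sg12BW_of (P := PP) (RK := tK) (RL := tL) (RC := tU) (Gt := gB) (Dt := dB) (pc := pcB) (KA := 4) (N0 := 3) (C0 := c0B) (En := eng) (mo := mog) rfl trivial (Or.inr rfl) (Or.inl rfl) (lo := false) (up := false) (sideB hx hx') gokB (pinU hx hx') dokB (g3cB hx hx') (g3okB hx hx') (xr0 hx hx').1 (xr0 hx hx').2 (div_S_le (k := 8) (by norm_num) (by norm_num)) ((gatB12 x).n1) (gatB53 hx hx') (fun h => absurd h (by decide)) (fun h _ => absurd h (by decide)) ((datB12 x).n1) (datB53 hx hx') (fun h => absurd h (by decide)) (fun h _ => absurd h (by decide)) EW.B213_151m ⟨⟨232471925, by norm_num, by norm_num⟩, by norm_num, by decide⟩ (by norm_num) hx hx'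

theorem sG_X213_152m {x : ℝ} (hx : ((697932185 : ℕ) : ℝ) / S ≤ x) (hx' : x ≤ (((697932185 : ℕ) : ℝ) + (42949674 : ℕ)) / S) :
    Ex12B PP 2 1 1 5 false 2 67108864 16777216 :=
  ex12B_of (P := PP) (RK := tK) (RL := tL) (Gt := gB) (KA := 4) (C0 := c0B) (x := x) (cn := .pnn) rfl trivial (Or.inr rfl) (Or.inl rfl) gokB (g3okB hx hx') (div_S_le (k := 8) (by norm_num) (by norm_num)) ((gatB12 x).n1) (gatB53 hx hx') EG.X213_152m ⟨⟨232471925, by norm_num, by norm_num⟩, by norm_num, by decide⟩ (by norm_num) hx hx'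

theorem sG_B213_250m {x : ℝ} (hx : ((697932185 : ℕ) : ℝ) / S ≤ x) (hx' : x ≤ (((697932185 : ℕ) : ℝ) + (42949674 : ℕ)) / S) :
    Sg12B PP tK tL true 0 .pnn 2 1 2 5 false 0 67108864 16777216 x :=
  sg12B_of (P := PP) (RK := tK) (RL := tL) (Gt := gB) (pc := pcB) (KA := 4) (C0 := c0B) rfl trivial (Or.inr rfl) (Or.inl rfl) (lo := true) (up := false) (sideB hx hx') gokB (g3okB hx hx') (xr0 hx hx').1 (xr0 hx hx').2 (div_S_le (k := 8) (by norm_num) (by norm_num)) ((gatB22 x).n1) (gatB53 hx hx') (fun _ => (gatB01 x).n1) (fun _ h => absurd h (by decide)) EG.B213_250m ⟨⟨232471925, by norm_num, by norm_num⟩, by norm_num, by decide⟩ (by norm_num) hx hx'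

theorem sW_B213_250m {x : ℝ} (hx : ((697932185 : ℕ) : ℝ) / S ≤ x) (hx' : x ≤ (((697932185 : ℕ) : ℝ) + (42949674 : ℕ)) / S) :
    Sg12BW PP tK tL tU 3 (eng.v x) (mog.v x) .pnn 2 1 2 5 false 0 67108864 16777216 x :=
  sg12BW_of (P := PP) (RK := tK) (RL := tL) (RC := tU) (Gt := gB) (Dt := dB) (pc := pcB) (KA := 4) (N0 := 3) (C0 := c0B) (En := eng) (mo := mog) rfl trivial (Or.inr rfl) (Or.inl rfl) (lo := true) (up := false) (sideB hx hx') gokB (pinU hx hx') dokB (g3cB hx hx') (g3okB hx hx') (xr0 hx hx').1 (xr0 hx hx').2 (div_S_le (k := 8) (by norm_num) (by norm_num)) ((gatB22 x).n1) (gatB53 hx hx') (fun _ => (gatB01 x).n1) (fun _ h => absurd h (by decide)) ((datB22 x).n1) (datB53 hx hx') (fun _ => (datB01 x).n1) (fun _ h => absurd h (by decide)) EW.B213_250m ⟨⟨232471925, by norm_num, by norm_num⟩, by norm_num, by decide⟩ (by norm_num) hx hx'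

theorem sG_B213_251m {x : ℝ} (hx : ((697932185 : ℕ) : ℝ) / S ≤ x) (hx' : x ≤ (((697932185 : ℕ) : ℝ) + (42949674 : ℕ)) / S) :
    Sg12B PP tK tL true 0 .pnn 2 1 2 5 false 1 67108864 16777216 x :=
  sg12B_of (P := PP) (RK := tK) (RL := tL) (Gt := gB) (pc := pcB) (KA := 4) (C0 := c0B) rfl trivial (Or.inr rfl) (Or.inl rfl) (lo := false) (up := false) (sideB hx hx') gokB (g3okB hx hx') (xr0 hx hx').1 (xr0 hx hx').2 (div_S_le (k := 8) (by norm_num) (by norm_num)) ((gatB22 x).n1) (gatB53 hx hx') (fun h => absurd h (by decide)) (fun h _ => absurd h (by decide)) EG.B213_251m ⟨⟨232471925, by norm_num, by norm_num⟩, by norm_num, by decide⟩ (by norm_num) hx hx'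

theorem sW_B213_251m {x : ℝ} (hx : ((697932185 : ℕ) : ℝ) / S ≤ x) (hx' : x ≤ (((697932185 : ℕ) : ℝ) + (42949674 : ℕ)) / S) :
    Sg12BW PP tK tL tU 3 (eng.v x) (mog.v x) .pnn 2 1 2 5 false 1 67108864 16777216 x :=
  sg12BW_of (P := PP) (RK := tK) (RL := tL) (RC := tU) (Gt := gB) (Dt := dB) (pc := pcB) (KA := 4) (N0 := 3) (C0 := c0B) (En := eng) (mo := mog) rfl trivial (Or.inr rfl) (Or.inl rfl) (lo := false) (up := false) (sideB hx hx') gokB (pinU hx hx') dokB (g3cB hx hx') (g3okB hx hx') (xr0 hx hx').1 (xr0 hx hx').2 (div_S_le (k := 8) (by norm_num) (by norm_num)) ((gatB22 x).n1) (gatB53 hx hx') (fun h => absurd h (by decide)) (fun h _ => absurd h (by decide)) ((datB22 x).n1) (datB53 hx hx') (fun h => absurd h (by decide)) (fun h _ => absurd h (by decide)) EW.B213_251m ⟨⟨232471925, by norm_num, by norm_num⟩, by norm_num, by decide⟩ (by norm_num) hx hx'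

theorem sG_X213_252m {x : ℝ} (hx : ((697932185 : ℕ) : ℝ) / S ≤ x) (hx' : x ≤ (((697932185 : ℕ) : ℝ) + (42949674 : ℕ)) / S) :
    Ex12B PP 2 1 2 5 false 2 67108864 16777216 :=
  ex12B_of (P := PP) (RK := tK) (RL := tL) (Gt := gB) (KA := 4) (C0 := c0B) (x := x) (cn := .pnn) rfl trivial (Or.inr rfl) (Or.inl rfl) gokB (g3okB hx hx') (div_S_le (k := 8) (by norm_num) (by norm_num)) ((gatB22 x).n1) (gatB53 hx hx') EG.X213_252m ⟨⟨232471925, by norm_num, by norm_num⟩, by norm_num, by decide⟩ (by norm_num) hx hx'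

theorem sG_B213_350m {x : ℝ} (hx : ((697932185 : ℕ) : ℝ) / S ≤ x) (hx' : x ≤ (((697932185 : ℕ) : ℝ) + (42949674 : ℕ)) / S) :
    Sg12B PP tK tL true 0 .pnn 2 1 3 5 false 0 67108864 16777216 x :=
  sg12B_of (P := PP) (RK := tK) (RL := tL) (Gt := gB) (pc := pcB) (KA := 4) (C0 := c0B) rfl trivial (Or.inr rfl) (Or.inl rfl) (lo := true) (up := false) (sideB hx hx') gokB (g3okB hx hx') (xr0 hx hx').1 (xr0 hx hx').2 (div_S_le (k := 8) (by norm_num) (by norm_num)) ((gatB32 x).n1) (gatB53 hx hx') (fun _ => (gatB01 x).n1) (fun _ h => absurd h (by decide)) EG.B213_350m ⟨⟨232471925, by norm_num, by norm_num⟩, by norm_num, by decide⟩ (by norm_num) hx hx'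

theorem sW_B213_350m {x : ℝ} (hx : ((697932185 : ℕ) : ℝ) / S ≤ x) (hx' : x ≤ (((697932185 : ℕ) : ℝ) + (42949674 : ℕ)) / S) :
    Sg12BW PP tK tL tU 3 (eng.v x) (mog.v x) .pnn 2 1 3 5 false 0 67108864 16777216 x :=
  sg12BW_of (P := PP) (RK := tK) (RL := tL) (RC := tU) (Gt := gB) (Dt := dB) (pc := pcB) (KA := 4) (N0 := 3) (C0 := c0B) (En := eng) (mo := mog) rfl trivial (Or.inr rfl) (Or.inl rfl) (lo := true) (up := false) (sideB hx hx') gokB (pinU hx hx') dokB (g3cB hx hx') (g3okB hx hx') (xr0 hx hx').1 (xr0 hx hx').2 (div_S_le (k := 8) (by norm_num) (by norm_num)) ((gatB32 x).n1) (gatB53 hx hx') (fun _ => (gatB01 x).n1) (fun _ h => absurd h (by decide)) ((datB32 x).n1) (datB53 hx hx') (fun _ => (datB01 x).n1) (fun _ h => absurd h (by decide)) EW.B213_350m ⟨⟨232471925, by norm_num, by norm_num⟩, by norm_num, by decide⟩ (by norm_num) hx hx'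

theorem sG_B213_351m {x : ℝ} (hx : ((697932185 : ℕ) : ℝ) / S ≤ x) (hx' : x ≤ (((697932185 : ℕ) : ℝ) + (42949674 : ℕ)) / S) :
    Sg12B PP tK tL true 0 .pnn 2 1 3 5 false 1 67108864 16777216 x :=
  sg12B_of (P := PP) (RK := tK) (RL := tL) (Gt := gB) (pc := pcB) (KA := 4) (C0 := c0B) rfl trivial (Or.inr rfl) (Or.inl rfl) (lo := false) (up := false) (sideB hx hx') gokB (g3okB hx hx') (xr0 hx hx').1 (xr0 hx hx').2 (div_S_le (k := 8) (by norm_num) (by norm_num)) ((gatB32 x).n1) (gatB53 hx hx') (fun h => absurd h (by decide)) (fun h _ => absurd h (by decide)) EG.B213_351m ⟨⟨232471925, by norm_num, by norm_num⟩, by norm_num, by decide⟩ (by norm_num) hx hx'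

theorem sW_B213_351m {x : ℝ} (hx : ((697932185 : ℕ) : ℝ) / S ≤ x) (hx' : x ≤ (((697932185 : ℕ) : ℝ) + (42949674 : ℕ)) / S) :
    Sg12BW PP tK tL tU 3 (eng.v x) (mog.v x) .pnn 2 1 3 5 false 1 67108864 16777216 x :=
  sg12BW_of (P := PP) (RK := tK) (RL := tL) (RC := tU) (Gt := gB) (Dt := dB) (pc := pcB) (KA := 4) (N0 := 3) (C0 := c0B) (En := eng) (mo := mog) rfl trivial (Or.inr rfl) (Or.inl rfl) (lo := false) (up := false) (sideB hx hx') gokB (pinU hx hx') dokB (g3cB hx hx') (g3okB hx hx') (xr0 hx hx').1 (xr0 hx hx').2 (div_S_le (k := 8) (by norm_num) (by norm_num)) ((gatB32 x).n1) (gatB53 hx hx') (fun h => absurd h (by decide)) (fun h _ => absurd h (by decide)) ((datB32 x).n1) (datB53 hx hx') (fun h => absurd h (by decide)) (fun h _ => absurd h (by decide)) EW.B213_351m ⟨⟨232471925, by norm_num, by norm_num⟩, by norm_num, by decide⟩ (by norm_num) hx hx'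

theorem sG_X213_352m {x : ℝ} (hx : ((697932185 : ℕ) : ℝ) / S ≤ x) (hx' : x ≤ (((697932185 : ℕ) : ℝ) + (42949674 : ℕ)) / S) :
    Ex12B PP 2 1 3 5 false 2 67108864 16777216 :=
  ex12B_of (P := PP) (RK := tK) (RL := tL) (Gt := gB) (KA := 4) (C0 := c0B) (x := x) (cn := .pnn) rfl trivial (Or.inr rfl) (Or.inl rfl) gokB (g3okB hx hx') (div_S_le (k := 8) (by norm_num) (by norm_num)) ((gatB32 x).n1) (gatB53 hx hx') EG.X213_352m ⟨⟨232471925, by norm_num, by norm_num⟩, by norm_num, by decide⟩ (by norm_num) hx hx'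

theorem sG_B213_450m {x : ℝ} (hx : ((697932185 : ℕ) : ℝ) / S ≤ x) (hx' : x ≤ (((697932185 : ℕ) : ℝ) + (42949674 : ℕ)) / S) :
    Sg12B PP tK tL true 0 .pnn 2 1 4 5 false 0 67108864 16777216 x :=
  sg12B_of (P := PP) (RK := tK) (RL := tL) (Gt := gB) (pc := pcB) (KA := 4) (C0 := c0B) rfl trivial (Or.inr rfl) (Or.inl rfl) (lo := true) (up := false) (sideB hx hx') gokB (g3okB hx hx') (xr0 hx hx').1 (xr0 hx hx').2 (div_S_le (k := 8) (by norm_num) (by norm_num)) ((gatB42 x).n1) (gatB53 hx hx') (fun _ => (gatB01 x).n1) (fun _ h => absurd h (by decide)) EG.B213_450m ⟨⟨232471925, by norm_num, by norm_num⟩, by norm_num, by decide⟩ (by norm_num) hx hx'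

theorem sW_B213_450m {x : ℝ} (hx : ((697932185 : ℕ) : ℝ) / S ≤ x) (hx' : x ≤ (((697932185 : ℕ) : ℝ) + (42949674 : ℕ)) / S) :
    Sg12BW PP tK tL tU 3 (eng.v x) (mog.v x) .pnn 2 1 4 5 false 0 67108864 16777216 x :=
  sg12BW_of (P := PP) (RK := tK) (RL := tL) (RC := tU) (Gt := gB) (Dt := dB) (pc := pcB) (KA := 4) (N0 := 3) (C0 := c0B) (En := eng) (mo := mog) rfl trivial (Or.inr rfl) (Or.inl rfl) (lo := true) (up := false) (sideB hx hx') gokB (pinU hx hx') dokB (g3cB hx hx') (g3okB hx hx') (xr0 hx hx').1 (xr0 hx hx').2 (div_S_le (k := 8) (by norm_num) (by norm_num)) ((gatB42 x).n1) (gatB53 hx hx') (fun _ => (gatB01 x).n1) (fun _ h => absurd h (by decide)) ((datB42 x).n1) (datB53 hx hx') (fun _ => (datB01 x).n1) (fun _ h => absurd h (by decide)) EW.B213_450m ⟨⟨232471925, by norm_num, by norm_num⟩, by norm_num, by decide⟩ (by norm_num) hx hx'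

theorem sG_B213_451m {x : ℝ} (hx : ((697932185 : ℕ) : ℝ) / S ≤ x) (hx' : x ≤ (((697932185 : ℕ) : ℝ) + (42949674 : ℕ)) / S) :
    Sg12B PP tK tL true 0 .pnn 2 1 4 5 false 1 67108864 16777216 x :=
  sg12B_of (P := PP) (RK := tK) (RL := tL) (Gt := gB) (pc := pcB) (KA := 4) (C0 := c0B) rfl trivial (Or.inr rfl) (Or.inl rfl) (lo := false) (up := false) (sideB hx hx') gokB (g3okB hx hx') (xr0 hx hx').1 (xr0 hx hx').2 (div_S_le (k := 8) (by norm_num) (by norm_num)) ((gatB42 x).n1) (gatB53 hx hx') (fun h => absurd h (by decide)) (fun h _ => absurd h (by decide)) EG.B213_451m ⟨⟨232471925, by norm_num, by norm_num⟩, by norm_num, by decide⟩ (by norm_num) hx hx'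

theorem sW_B213_451m {x : ℝ} (hx : ((697932185 : ℕ) : ℝ) / S ≤ x) (hx' : x ≤ (((697932185 : ℕ) : ℝ) + (42949674 : ℕ)) / S) :
    Sg12BW PP tK tL tU 3 (eng.v x) (mog.v x) .pnn 2 1 4 5 false 1 67108864 16777216 x :=
  sg12BW_of (P := PP) (RK := tK) (RL := tL) (RC := tU) (Gt := gB) (Dt := dB) (pc := pcB) (KA := 4) (N0 := 3) (C0 := c0B) (En := eng) (mo := mog) rfl trivial (Or.inr rfl) (Or.inl rfl) (lo := false) (up := false) (sideB hx hx') gokB (pinU hx hx') dokB (g3cB hx hx') (g3okB hx hx') (xr0 hx hx').1 (xr0 hx hx').2 (div_S_le (k := 8) (by norm_num) (by norm_num)) ((gatB42 x).n1) (gatB53 hx hx') (fun h => absurd h (by decide)) (fun h _ => absurd h (by decide)) ((datB42 x).n1) (datB53 hx hx') (fun h => absurd h (by decide)) (fun h _ => absurd h (by decide)) EW.B213_451m ⟨⟨232471925, by norm_num, by norm_num⟩, by norm_num, by decide⟩ (by norm_num) hx hx'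

theorem sG_X213_452m {x : ℝ} (hx : ((697932185 : ℕ) : ℝ) / S ≤ x) (hx' : x ≤ (((697932185 : ℕ) : ℝ) + (42949674 : ℕ)) / S) :
    Ex12B PP 2 1 4 5 false 2 67108864 16777216 :=
  ex12B_of (P := PP) (RK := tK) (RL := tL) (Gt := gB) (KA := 4) (C0 := c0B) (x := x) (cn := .pnn) rfl trivial (Or.inr rfl) (Or.inl rfl) gokB (g3okB hx hx') (div_S_le (k := 8) (by norm_num) (by norm_num)) ((gatB42 x).n1) (gatB53 hx hx') EG.X213_452m ⟨⟨232471925, by norm_num, by norm_num⟩, by norm_num, by decide⟩ (by norm_num) hx hx'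

theorem sG_B113_060p {x : ℝ} (hx : ((697932185 : ℕ) : ℝ) / S ≤ x) (hx' : x ≤ (((697932185 : ℕ) : ℝ) + (42949674 : ℕ)) / S) :
    Sg12B PP tK tL true 0 .nn 1 1 0 6 true 0 67108864 16777216 x :=
  sg12B_of (P := PP) (RK := tK) (RL := tL) (Gt := gB) (pc := pcB) (KA := 4) (C0 := c0B) rfl trivial (Or.inl rfl) (Or.inl rfl) (lo := true) (up := false) (sideB hx hx') gokB (g3okB hx hx') (xr0 hx hx').1 (xr0 hx hx').2 (div_S_le (k := 8) (by norm_num) (by norm_num)) ((gatB01 x).n1) (gatB63 hx hx') (fun _ => (gatB01 x).n1) (fun _ h => absurd h (by decide)) EG.B113_060p ⟨by norm_num, by norm_num, rfl⟩ (by norm_num) hx hx'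

theorem sW_B113_060p {x : ℝ} (hx : ((697932185 : ℕ) : ℝ) / S ≤ x) (hx' : x ≤ (((697932185 : ℕ) : ℝ) + (42949674 : ℕ)) / S) :
    Sg12BW PP tK tL tU 3 (eng.v x) (mog.v x) .nn 1 1 0 6 true 0 67108864 16777216 x :=
  sg12BW_of (P := PP) (RK := tK) (RL := tL) (RC := tU) (Gt := gB) (Dt := dB) (pc := pcB) (KA := 4) (N0 := 3) (C0 := c0B) (En := eng) (mo := mog) rfl trivial (Or.inl rfl) (Or.inl rfl) (lo := true) (up := false) (sideB hx hx') gokB (pinU hx hx') dokB (g3cB hx hx') (g3okB hx hx') (xr0 hx hx').1 (xr0 hx hx').2 (div_S_le (k := 8) (by norm_num) (by norm_num)) ((gatB01 x).n1) (gatB63 hx hx') (fun _ => (gatB01 x).n1) (fun _ h => absurd h (by decide)) ((datB01 x).n1) (datB63 hx hx') (fun _ => (datB01 x).n1) (fun _ h => absurd h (by decide)) EW.B113_060p ⟨by norm_num, by norm_num, rfl⟩ (by norm_num) hx hx'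

theorem sG_X113_061p {x : ℝ} (hx : ((697932185 : ℕ) : ℝ) / S ≤ x) (hx' : x ≤ (((697932185 : ℕ) : ℝ) + (42949674 : ℕ)) / S) :
    Ex12B PP 1 1 0 6 true 1 67108864 16777216 :=
  ex12B_of (P := PP) (RK := tK) (RL := tL) (Gt := gB) (KA := 4) (C0 := c0B) (x := x) (cn := .nn) rfl trivial (Or.inl rfl) (Or.inl rfl) gokB (g3okB hx hx') (div_S_le (k := 8) (by norm_num) (by norm_num)) ((gatB01 x).n1) (gatB63 hx hx') EG.X113_061p ⟨by norm_num, by norm_num, rfl⟩ (by norm_num) hx hx'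

theorem sG_B123_060p {x : ℝ} (hx : ((697932185 : ℕ) : ℝ) / S ≤ x) (hx' : x ≤ (((697932185 : ℕ) : ℝ) + (42949674 : ℕ)) / S) :
    Sg12Bu PP tK tL true 0 .npn 1 2 0 6 true 0 67108864 16777216 x :=
  sg12Bu_of (P := PP) (RK := tK) (RL := tL) (Gt := gB) (pc := pcB) (KA := 4) (C0 := c0B) rfl trivial (Or.inl rfl) (Or.inr rfl) (lo := true) (up := true) (sideB hx hx') gokB (g3okB hx hx') (xr0 hx hx').1 (xr0 hx hx').2 (div_S_le (k := 8) (by norm_num) (by norm_num)) ((gatB01 x).n1) (gatB63 hx hx') (fun _ => (gatB02 x).n1) (fun _ _ => (gatB12 x).n1) EG.B123_060p ⟨⟨232471925, by norm_num, by norm_num⟩, by norm_num, by decide⟩ hx hx'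

theorem sW_B123_060p {x : ℝ} (hx : ((697932185 : ℕ) : ℝ) / S ≤ x) (hx' : x ≤ (((697932185 : ℕ) : ℝ) + (42949674 : ℕ)) / S) :
    Sg12BuW PP tK tL tU 3 (eng.v x) (mog.v x) .npn 1 2 0 6 true 0 67108864 16777216 x :=
  sg12BuW_of (P := PP) (RK := tK) (RL := tL) (RC := tU) (Gt := gB) (Dt := dB) (pc := pcB) (KA := 4) (N0 := 3) (C0 := c0B) (En := eng) (mo := mog) rfl trivial (Or.inl rfl) (Or.inr rfl) (lo := true) (up := true) (sideB hx hx') gokB (pinU hx hx') dokB (g3cB hx hx') (g3okB hx hx') (xr0 hx hx').1 (xr0 hx hx').2 (div_S_le (k := 8) (by norm_num) (by norm_num)) ((gatB01 x).n1) (gatB63 hx hx') (fun _ => (gatB02 x).n1) (fun _ _ => (gatB12 x).n1) ((datB01 x).n1) (datB63 hx hx') (fun _ => (datB02 x).n1) (fun _ _ => (datB12 x).n1) EW.B123_060p ⟨⟨232471925, by norm_num, by norm_num⟩, by norm_num, by decide⟩ hx hx'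

theorem sG_B123_061p {x : ℝ} (hx : ((697932185 : ℕ) : ℝ) / S ≤ x) (hx' : x ≤ (((697932185 : ℕ) : ℝ) + (42949674 : ℕ)) / S) :
    Sg12B PP tK tL true 0 .npn 1 2 0 6 true 1 67108864 16777216 x :=
  sg12B_of (P := PP) (RK := tK) (RL := tL) (Gt := gB) (pc := pcB) (KA := 4) (C0 := c0B) rfl trivial (Or.inl rfl) (Or.inr rfl) (lo := true) (up := true) (sideB hx hx') gokB (g3okB hx hx') (xr0 hx hx').1 (xr0 hx hx').2 (div_S_le (k := 8) (by norm_num) (by norm_num)) ((gatB01 x).n1) (gatB63 hx hx') (fun _ => (gatB12 x).n1) (fun _ _ => (gatB22 x).n1) EG.B123_061p ⟨⟨232471925, by norm_num, by norm_num⟩, by norm_num, by decide⟩ (by norm_num) hx hx'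

theorem sW_B123_061p {x : ℝ} (hx : ((697932185 : ℕ) : ℝ) / S ≤ x) (hx' : x ≤ (((697932185 : ℕ) : ℝ) + (42949674 : ℕ)) / S) :
    Sg12BW PP tK tL tU 3 (eng.v x) (mog.v x) .npn 1 2 0 6 true 1 67108864 16777216 x :=
  sg12BW_of (P := PP) (RK := tK) (RL := tL) (RC := tU) (Gt := gB) (Dt := dB) (pc := pcB) (KA := 4) (N0 := 3) (C0 := c0B) (En := eng) (mo := mog) rfl trivial (Or.inl rfl) (Or.inr rfl) (lo := true) (up := true) (sideB hx hx') gokB (pinU hx hx') dokB (g3cB hx hx') (g3okB hx hx') (xr0 hx hx').1 (xr0 hx hx').2 (div_S_le (k := 8) (by norm_num) (by norm_num)) ((gatB01 x).n1) (gatB63 hx hx') (fun _ => (gatB12 x).n1) (fun _ _ => (gatB22 x).n1) ((datB01 x).n1) (datB63 hx hx') (fun _ => (datB12 x).n1) (fun _ _ => (datB22 x).n1) EW.B123_061p ⟨⟨232471925, by norm_num, by norm_num⟩, by norm_num, by decide⟩ (by norm_num) hx hx'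

theorem sG_B123_062p {x : ℝ} (hx : ((697932185 : ℕ) : ℝ) / S ≤ x) (hx' : x ≤ (((697932185 : ℕ) : ℝ) + (42949674 : ℕ)) / S) :
    Sg12B PP tK tL true 0 .npn 1 2 0 6 true 2 67108864 16777216 x :=
  sg12B_of (P := PP) (RK := tK) (RL := tL) (Gt := gB) (pc := pcB) (KA := 4) (C0 := c0B) rfl trivial (Or.inl rfl) (Or.inr rfl) (lo := true) (up := true) (sideB hx hx') gokB (g3okB hx hx') (xr0 hx hx').1 (xr0 hx hx').2 (div_S_le (k := 8) (by norm_num) (by norm_num)) ((gatB01 x).n1) (gatB63 hx hx') (fun _ => (gatB22 x).n1) (fun _ _ => (gatB32 x).n1) EG.B123_062p ⟨⟨232471925, by norm_num, by norm_num⟩, by norm_num, by decide⟩ (by norm_num) hx hx'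

theorem sW_B123_062p {x : ℝ} (hx : ((697932185 : ℕ) : ℝ) / S ≤ x) (hx' : x ≤ (((697932185 : ℕ) : ℝ) + (42949674 : ℕ)) / S) :
    Sg12BW PP tK tL tU 3 (eng.v x) (mog.v x) .npn 1 2 0 6 true 2 67108864 16777216 x :=
  sg12BW_of (P := PP) (RK := tK) (RL := tL) (RC := tU) (Gt := gB) (Dt := dB) (pc := pcB) (KA := 4) (N0 := 3) (C0 := c0B) (En := eng) (mo := mog) rfl trivial (Or.inl rfl) (Or.inr rfl) (lo := true) (up := true) (sideB hx hx') gokB (pinU hx hx') dokB (g3cB hx hx') (g3okB hx hx') (xr0 hx hx').1 (xr0 hx hx').2 (div_S_le (k := 8) (by norm_num) (by norm_num)) ((gatB01 x).n1) (gatB63 hx hx') (fun _ => (gatB22 x).n1) (fun _ _ => (gatB32 x).n1) ((datB01 x).n1) (datB63 hx hx') (fun _ => (datB22 x).n1) (fun _ _ => (datB32 x).n1) EW.B123_062p ⟨⟨232471925, by norm_num, by norm_num⟩, by norm_num, by decide⟩ (by norm_num) hx hx'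

theorem sG_B123_063p {x : ℝ} (hx : ((697932185 : ℕ) : ℝ) / S ≤ x) (hx' : x ≤ (((697932185 : ℕ) : ℝ) + (42949674 : ℕ)) / S) :
    Sg12B PP tK tL true 0 .npn 1 2 0 6 true 3 67108864 16777216 x :=
  sg12B_of (P := PP) (RK := tK) (RL := tL) (Gt := gB) (pc := pcB) (KA := 4) (C0 := c0B) rfl trivial (Or.inl rfl) (Or.inr rfl) (lo := true) (up := true) (sideB hx hx') gokB (g3okB hx hx') (xr0 hx hx').1 (xr0 hx hx').2 (div_S_le (k := 8) (by norm_num) (by norm_num)) ((gatB01 x).n1) (gatB63 hx hx') (fun _ => (gatB32 x).n1) (fun _ _ => (gatB42 x).n1) EG.B123_063p ⟨⟨232471925, by norm_num, by norm_num⟩, by norm_num, by decide⟩ (by norm_num) hx hx'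

theorem sW_B123_063p {x : ℝ} (hx : ((697932185 : ℕ) : ℝ) / S ≤ x) (hx' : x ≤ (((697932185 : ℕ) : ℝ) + (42949674 : ℕ)) / S) :
    Sg12BW PP tK tL tU 3 (eng.v x) (mog.v x) .npn 1 2 0 6 true 3 67108864 16777216 x :=
  sg12BW_of (P := PP) (RK := tK) (RL := tL) (RC := tU) (Gt := gB) (Dt := dB) (pc := pcB) (KA := 4) (N0 := 3) (C0 := c0B) (En := eng) (mo := mog) rfl trivial (Or.inl rfl) (Or.inr rfl) (lo := true) (up := true) (sideB hx hx') gokB (pinU hx hx') dokB (g3cB hx hx') (g3okB hx hx') (xr0 hx hx').1 (xr0 hx hx').2 (div_S_le (k := 8) (by norm_num) (by norm_num)) ((gatB01 x).n1) (gatB63 hx hx') (fun _ => (gatB32 x).n1) (fun _ _ => (gatB42 x).n1) ((datB01 x).n1) (datB63 hx hx') (fun _ => (datB32 x).n1) (fun _ _ => (datB42 x).n1) EW.B123_063p ⟨⟨232471925, by norm_num, by norm_num⟩, by norm_num, by decide⟩ (by norm_num) hx hx'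

theorem sG_B123_064p {x : ℝ} (hx : ((697932185 : ℕ) : ℝ) / S ≤ x) (hx' : x ≤ (((697932185 : ℕ) : ℝ) + (42949674 : ℕ)) / S) :
    Sg12B PP tK tL true 0 .npn 1 2 0 6 true 4 67108864 16777216 x :=
  sg12B_of (P := PP) (RK := tK) (RL := tL) (Gt := gB) (pc := pcB) (KA := 4) (C0 := c0B) rfl trivial (Or.inl rfl) (Or.inr rfl) (lo := true) (up := false) (sideB hx hx') gokB (g3okB hx hx') (xr0 hx hx').1 (xr0 hx hx').2 (div_S_le (k := 8) (by norm_num) (by norm_num)) ((gatB01 x).n1) (gatB63 hx hx') (fun _ => (gatB42 x).n1) (fun _ h => absurd h (by decide)) EG.B123_064p ⟨⟨232471925, by norm_num, by norm_num⟩, by norm_num, by decide⟩ (by norm_num) hx hx'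

theorem sW_B123_064p {x : ℝ} (hx : ((697932185 : ℕ) : ℝ) / S ≤ x) (hx' : x ≤ (((697932185 : ℕ) : ℝ) + (42949674 : ℕ)) / S) :
    Sg12BW PP tK tL tU 3 (eng.v x) (mog.v x) .npn 1 2 0 6 true 4 67108864 16777216 x :=
  sg12BW_of (P := PP) (RK := tK) (RL := tL) (RC := tU) (Gt := gB) (Dt := dB) (pc := pcB) (KA := 4) (N0 := 3) (C0 := c0B) (En := eng) (mo := mog) rfl trivial (Or.inl rfl) (Or.inr rfl) (lo := true) (up := false) (sideB hx hx') gokB (pinU hx hx') dokB (g3cB hx hx') (g3okB hx hx') (xr0 hx hx').1 (xr0 hx hx').2 (div_S_le (k := 8) (by norm_num) (by norm_num)) ((gatB01 x).n1) (gatB63 hx hx') (fun _ => (gatB42 x).n1) (fun _ h => absurd h (by decide)) ((datB01 x).n1) (datB63 hx hx') (fun _ => (datB42 x).n1) (fun _ h => absurd h (by decide)) EW.B123_064p ⟨⟨232471925, by norm_num, by norm_num⟩, by norm_num, by decide⟩ (by norm_num) hx hx'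

theorem sG_X123_065p {x : ℝ} (hx : ((697932185 : ℕ) : ℝ) / S ≤ x) (hx' : x ≤ (((697932185 : ℕ) : ℝ) + (42949674 : ℕ)) / S) :
    Ex12B PP 1 2 0 6 true 5 67108864 16777216 :=
  ex12B_of (P := PP) (RK := tK) (RL := tL) (Gt := gB) (KA := 4) (C0 := c0B) (x := x) (cn := .npn) rfl trivial (Or.inl rfl) (Or.inr rfl) gokB (g3okB hx hx') (div_S_le (k := 8) (by norm_num) (by norm_num)) ((gatB01 x).n1) (gatB63 hx hx') EG.X123_065p ⟨⟨232471925, by norm_num, by norm_num⟩, by norm_num, by decide⟩ (by norm_num) hx hx'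

theorem sG_B113_060m {x : ℝ} (hx : ((697932185 : ℕ) : ℝ) / S ≤ x) (hx' : x ≤ (((697932185 : ℕ) : ℝ) + (42949674 : ℕ)) / S) :
    Sg12B PP tK tL true 0 .nn 1 1 0 6 false 0 67108864 16777216 x :=
  sg12B_of (P := PP) (RK := tK) (RL := tL) (Gt := gB) (pc := pcB) (KA := 4) (C0 := c0B) rfl trivial (Or.inl rfl) (Or.inl rfl) (lo := true) (up := false) (sideB hx hx') gokB (g3okB hx hx') (xr0 hx hx').1 (xr0 hx hx').2 (div_S_le (k := 8) (by norm_num) (by norm_num)) ((gatB01 x).n1) (gatB63 hx hx') (fun _ => (gatB01 x).n1) (fun _ h => absurd h (by decide)) EG.B113_060m ⟨by norm_num, by norm_num, rfl⟩ (by norm_num) hx hx'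

theorem sW_B113_060m {x : ℝ} (hx : ((697932185 : ℕ) : ℝ) / S ≤ x) (hx' : x ≤ (((697932185 : ℕ) : ℝ) + (42949674 : ℕ)) / S) :
    Sg12BW PP tK tL tU 3 (eng.v x) (mog.v x) .nn 1 1 0 6 false 0 67108864 16777216 x :=
  sg12BW_of (P := PP) (RK := tK) (RL := tL) (RC := tU) (Gt := gB) (Dt := dB) (pc := pcB) (KA := 4) (N0 := 3) (C0 := c0B) (En := eng) (mo := mog) rfl trivial (Or.inl rfl) (Or.inl rfl) (lo := true) (up := false) (sideB hx hx') gokB (pinU hx hx') dokB (g3cB hx hx') (g3okB hx hx') (xr0 hx hx').1 (xr0 hx hx').2 (div_S_le (k := 8) (by norm_num) (by norm_num)) ((gatB01 x).n1) (gatB63 hx hx') (fun _ => (gatB01 x).n1) (fun _ h => absurd h (by decide)) ((datB01 x).n1) (datB63 hx hx') (fun _ => (datB01 x).n1) (fun _ h => absurd h (by decide)) EW.B113_060m ⟨by norm_num, by norm_num, rfl⟩ (by norm_num) hx hx'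

theorem sG_B113_061m {x : ℝ} (hx : ((697932185 : ℕ) : ℝ) / S ≤ x) (hx' : x ≤ (((697932185 : ℕ) : ℝ) + (42949674 : ℕ)) / S) :
    Sg12B PP tK tL true 0 .nn 1 1 0 6 false 1 67108864 16777216 x :=
  sg12B_of (P := PP) (RK := tK) (RL := tL) (Gt := gB) (pc := pcB) (KA := 4) (C0 := c0B) rfl trivial (Or.inl rfl) (Or.inl rfl) (lo := false) (up := false) (sideB hx hx') gokB (g3okB hx hx') (xr0 hx hx').1 (xr0 hx hx').2 (div_S_le (k := 8) (by norm_num) (by norm_num)) ((gatB01 x).n1) (gatB63 hx hx') (fun h => absurd h (by decide)) (fun h _ => absurd h (by decide)) EG.B113_061m ⟨by norm_num, by norm_num, rfl⟩ (by norm_num) hx hx'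

theorem sW_B113_061m {x : ℝ} (hx : ((697932185 : ℕ) : ℝ) / S ≤ x) (hx' : x ≤ (((697932185 : ℕ) : ℝ) + (42949674 : ℕ)) / S) :
    Sg12BW PP tK tL tU 3 (eng.v x) (mog.v x) .nn 1 1 0 6 false 1 67108864 16777216 x :=
  sg12BW_of (P := PP) (RK := tK) (RL := tL) (RC := tU) (Gt := gB) (Dt := dB) (pc := pcB) (KA := 4) (N0 := 3) (C0 := c0B) (En := eng) (mo := mog) rfl trivial (Or.inl rfl) (Or.inl rfl) (lo := false) (up := false) (sideB hx hx') gokB (pinU hx hx') dokB (g3cB hx hx') (g3okB hx hx') (xr0 hx hx').1 (xr0 hx hx').2 (div_S_le (k := 8) (by norm_num) (by norm_num)) ((gatB01 x).n1) (gatB63 hx hx') (fun h => absurd h (by decide)) (fun h _ => absurd h (by decide)) ((datB01 x).n1) (datB63 hx hx') (fun h => absurd h (by decide)) (fun h _ => absurd h (by decide)) EW.B113_061m ⟨by norm_num, by norm_num, rfl⟩ (by norm_num) hx hx'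

theorem sG_X113_062m {x : ℝ} (hx : ((697932185 : ℕ) : ℝ) / S ≤ x) (hx' : x ≤ (((697932185 : ℕ) : ℝ) + (42949674 : ℕ)) / S) :
    Ex12B PP 1 1 0 6 false 2 67108864 16777216 :=
  ex12B_of (P := PP) (RK := tK) (RL := tL) (Gt := gB) (KA := 4) (C0 := c0B) (x := x) (cn := .nn) rfl trivial (Or.inl rfl) (Or.inl rfl) gokB (g3okB hx hx') (div_S_le (k := 8) (by norm_num) (by norm_num)) ((gatB01 x).n1) (gatB63 hx hx') EG.X113_062m ⟨by norm_num, by norm_num, rfl⟩ (by norm_num) hx hx'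

theorem sG_B123_060m {x : ℝ} (hx : ((697932185 : ℕ) : ℝ) / S ≤ x) (hx' : x ≤ (((697932185 : ℕ) : ℝ) + (42949674 : ℕ)) / S) :
    Sg12B PP tK tL true 0 .npn 1 2 0 6 false 0 67108864 16777216 x :=
  sg12B_of (P := PP) (RK := tK) (RL := tL) (Gt := gB) (pc := pcB) (KA := 4) (C0 := c0B) rfl trivial (Or.inl rfl) (Or.inr rfl) (lo := true) (up := true) (sideB hx hx') gokB (g3okB hx hx') (xr0 hx hx').1 (xr0 hx hx').2 (div_S_le (k := 8) (by norm_num) (by norm_num)) ((gatB01 x).n1) (gatB63 hx hx') (fun _ => (gatB02 x).n1) (fun _ _ => (gatB12 x).n1) EG.B123_060m ⟨⟨232471925, by norm_num, by norm_num⟩, by norm_num, by decide⟩ (by norm_num) hx hx'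

theorem sW_B123_060m {x : ℝ} (hx : ((697932185 : ℕ) : ℝ) / S ≤ x) (hx' : x ≤ (((697932185 : ℕ) : ℝ) + (42949674 : ℕ)) / S) :
    Sg12BW PP tK tL tU 3 (eng.v x) (mog.v x) .npn 1 2 0 6 false 0 67108864 16777216 x :=
  sg12BW_of (P := PP) (RK := tK) (RL := tL) (RC := tU) (Gt := gB) (Dt := dB) (pc := pcB) (KA := 4) (N0 := 3) (C0 := c0B) (En := eng) (mo := mog) rfl trivial (Or.inl rfl) (Or.inr rfl) (lo := true) (up := true) (sideB hx hx') gokB (pinU hx hx') dokB (g3cB hx hx') (g3okB hx hx') (xr0 hx hx').1 (xr0 hx hx').2 (div_S_le (k := 8) (by norm_num) (by norm_num)) ((gatB01 x).n1) (gatB63 hx hx') (fun _ => (gatB02 x).n1) (fun _ _ => (gatB12 x).n1) ((datB01 x).n1) (datB63 hx hx') (fun _ => (datB02 x).n1) (fun _ _ => (datB12 x).n1) EW.B123_060m ⟨⟨232471925, by norm_num, by norm_num⟩, by norm_num, by decide⟩ (by norm_num) hx hx'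

theorem sG_B123_061m {x : ℝ} (hx : ((697932185 : ℕ) : ℝ) / S ≤ x) (hx' : x ≤ (((697932185 : ℕ) : ℝ) + (42949674 : ℕ)) / S) :
    Sg12B PP tK tL true 0 .npn 1 2 0 6 false 1 67108864 16777216 x :=
  sg12B_of (P := PP) (RK := tK) (RL := tL) (Gt := gB) (pc := pcB) (KA := 4) (C0 := c0B) rfl trivial (Or.inl rfl) (Or.inr rfl) (lo := true) (up := true) (sideB hx hx') gokB (g3okB hx hx') (xr0 hx hx').1 (xr0 hx hx').2 (div_S_le (k := 8) (by norm_num) (by norm_num)) ((gatB01 x).n1) (gatB63 hx hx') (fun _ => (gatB12 x).n1) (fun _ _ => (gatB22 x).n1) EG.B123_061m ⟨⟨232471925, by norm_num, by norm_num⟩, by norm_num, by decide⟩ (by norm_num) hx hx'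

theorem sW_B123_061m {x : ℝ} (hx : ((697932185 : ℕ) : ℝ) / S ≤ x) (hx' : x ≤ (((697932185 : ℕ) : ℝ) + (42949674 : ℕ)) / S) :
    Sg12BW PP tK tL tU 3 (eng.v x) (mog.v x) .npn 1 2 0 6 false 1 67108864 16777216 x :=
  sg12BW_of (P := PP) (RK := tK) (RL := tL) (RC := tU) (Gt := gB) (Dt := dB) (pc := pcB) (KA := 4) (N0 := 3) (C0 := c0B) (En := eng) (mo := mog) rfl trivial (Or.inl rfl) (Or.inr rfl) (lo := true) (up := true) (sideB hx hx') gokB (pinU hx hx') dokB (g3cB hx hx') (g3okB hx hx') (xr0 hx hx').1 (xr0 hx hx').2 (div_S_le (k := 8) (by norm_num) (by norm_num)) ((gatB01 x).n1) (gatB63 hx hx') (fun _ => (gatB12 x).n1) (fun _ _ => (gatB22 x).n1) ((datB01 x).n1) (datB63 hx hx') (fun _ => (datB12 x).n1) (fun _ _ => (datB22 x).n1) EW.B123_061m ⟨⟨232471925, by norm_num, by norm_num⟩, by norm_num, by decide⟩ (by norm_num) hx hx'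

theorem sG_B123_062m {x : ℝ} (hx : ((697932185 : ℕ) : ℝ) / S ≤ x) (hx' : x ≤ (((697932185 : ℕ) : ℝ) + (42949674 : ℕ)) / S) :
    Sg12B PP tK tL true 0 .npn 1 2 0 6 false 2 67108864 16777216 x :=
  sg12B_of (P := PP) (RK := tK) (RL := tL) (Gt := gB) (pc := pcB) (KA := 4) (C0 := c0B) rfl trivial (Or.inl rfl) (Or.inr rfl) (lo := true) (up := true) (sideB hx hx') gokB (g3okB hx hx') (xr0 hx hx').1 (xr0 hx hx').2 (div_S_le (k := 8) (by norm_num) (by norm_num)) ((gatB01 x).n1) (gatB63 hx hx') (fun _ => (gatB22 x).n1) (fun _ _ => (gatB32 x).n1) EG.B123_062m ⟨⟨232471925, by norm_num, by norm_num⟩, by norm_num, by decide⟩ (by norm_num) hx hx'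

theorem sW_B123_062m {x : ℝ} (hx : ((697932185 : ℕ) : ℝ) / S ≤ x) (hx' : x ≤ (((697932185 : ℕ) : ℝ) + (42949674 : ℕ)) / S) :
    Sg12BW PP tK tL tU 3 (eng.v x) (mog.v x) .npn 1 2 0 6 false 2 67108864 16777216 x :=
  sg12BW_of (P := PP) (RK := tK) (RL := tL) (RC := tU) (Gt := gB) (Dt := dB) (pc := pcB) (KA := 4) (N0 := 3) (C0 := c0B) (En := eng) (mo := mog) rfl trivial (Or.inl rfl) (Or.inr rfl) (lo := true) (up := true) (sideB hx hx') gokB (pinU hx hx') dokB (g3cB hx hx') (g3okB hx hx') (xr0 hx hx').1 (xr0 hx hx').2 (div_S_le (k := 8) (by norm_num) (by norm_num)) ((gatB01 x).n1) (gatB63 hx hx') (fun _ => (gatB22 x).n1) (fun _ _ => (gatB32 x).n1) ((datB01 x).n1) (datB63 hx hx') (fun _ => (datB22 x).n1) (fun _ _ => (datB32 x).n1) EW.B123_062m ⟨⟨232471925, by norm_num, by norm_num⟩, by norm_num, by decide⟩ (by norm_num) hx hx'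

theorem sG_B123_063m {x : ℝ} (hx : ((697932185 : ℕ) : ℝ) / S ≤ x) (hx' : x ≤ (((697932185 : ℕ) : ℝ) + (42949674 : ℕ)) / S) :
    Sg12B PP tK tL true 0 .npn 1 2 0 6 false 3 67108864 16777216 x :=
  sg12B_of (P := PP) (RK := tK) (RL := tL) (Gt := gB) (pc := pcB) (KA := 4) (C0 := c0B) rfl trivial (Or.inl rfl) (Or.inr rfl) (lo := true) (up := true) (sideB hx hx') gokB (g3okB hx hx') (xr0 hx hx').1 (xr0 hx hx').2 (div_S_le (k := 8) (by norm_num) (by norm_num)) ((gatB01 x).n1) (gatB63 hx hx') (fun _ => (gatB32 x).n1) (fun _ _ => (gatB42 x).n1) EG.B123_063m ⟨⟨232471925, by norm_num, by norm_num⟩, by norm_num, by decide⟩ (by norm_num) hx hx'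

theorem sW_B123_063m {x : ℝ} (hx : ((697932185 : ℕ) : ℝ) / S ≤ x) (hx' : x ≤ (((697932185 : ℕ) : ℝ) + (42949674 : ℕ)) / S) :
    Sg12BW PP tK tL tU 3 (eng.v x) (mog.v x) .npn 1 2 0 6 false 3 67108864 16777216 x :=
  sg12BW_of (P := PP) (RK := tK) (RL := tL) (RC := tU) (Gt := gB) (Dt := dB) (pc := pcB) (KA := 4) (N0 := 3) (C0 := c0B) (En := eng) (mo := mog) rfl trivial (Or.inl rfl) (Or.inr rfl) (lo := true) (up := true) (sideB hx hx') gokB (pinU hx hx') dokB (g3cB hx hx') (g3okB hx hx') (xr0 hx hx').1 (xr0 hx hx').2 (div_S_le (k := 8) (by norm_num) (by norm_num)) ((gatB01 x).n1) (gatB63 hx hx') (fun _ => (gatB32 x).n1) (fun _ _ => (gatB42 x).n1) ((datB01 x).n1) (datB63 hx hx') (fun _ => (datB32 x).n1) (fun _ _ => (datB42 x).n1) EW.B123_063m ⟨⟨232471925, by norm_num, by norm_num⟩, by norm_num, by decide⟩ (by norm_num) hx hx'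

theorem sG_B123_064m {x : ℝ} (hx : ((697932185 : ℕ) : ℝ) / S ≤ x) (hx' : x ≤ (((697932185 : ℕ) : ℝ) + (42949674 : ℕ)) / S) :
    Sg12B PP tK tL true 0 .npn 1 2 0 6 false 4 67108864 16777216 x :=
  sg12B_of (P := PP) (RK := tK) (RL := tL) (Gt := gB) (pc := pcB) (KA := 4) (C0 := c0B) rfl trivial (Or.inl rfl) (Or.inr rfl) (lo := true) (up := false) (sideB hx hx') gokB (g3okB hx hx') (xr0 hx hx').1 (xr0 hx hx').2 (div_S_le (k := 8) (by norm_num) (by norm_num)) ((gatB01 x).n1) (gatB63 hx hx') (fun _ => (gatB42 x).n1) (fun _ h => absurd h (by decide)) EG.B123_064m ⟨⟨232471925, by norm_num, by norm_num⟩, by norm_num, by decide⟩ (by norm_num) hx hx'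

theorem sW_B123_064m {x : ℝ} (hx : ((697932185 : ℕ) : ℝ) / S ≤ x) (hx' : x ≤ (((697932185 : ℕ) : ℝ) + (42949674 : ℕ)) / S) :
    Sg12BW PP tK tL tU 3 (eng.v x) (mog.v x) .npn 1 2 0 6 false 4 67108864 16777216 x :=
  sg12BW_of (P := PP) (RK := tK) (RL := tL) (RC := tU) (Gt := gB) (Dt := dB) (pc := pcB) (KA := 4) (N0 := 3) (C0 := c0B) (En := eng) (mo := mog) rfl trivial (Or.inl rfl) (Or.inr rfl) (lo := true) (up := false) (sideB hx hx') gokB (pinU hx hx') dokB (g3cB hx hx') (g3okB hx hx') (xr0 hx hx').1 (xr0 hx hx').2 (div_S_le (k := 8) (by norm_num) (by norm_num)) ((gatB01 x).n1) (gatB63 hx hx') (fun _ => (gatB42 x).n1) (fun _ h => absurd h (by decide)) ((datB01 x).n1) (datB63 hx hx') (fun _ => (datB42 x).n1) (fun _ h => absurd h (by decide)) EW.B123_064m ⟨⟨232471925, by norm_num, by norm_num⟩, by norm_num, by decide⟩ (by norm_num) hx hx'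

theorem sG_B123_065m {x : ℝ} (hx : ((697932185 : ℕ) : ℝ) / S ≤ x) (hx' : x ≤ (((697932185 : ℕ) : ℝ) + (42949674 : ℕ)) / S) :
    Sg12B PP tK tL true 0 .npn 1 2 0 6 false 5 67108864 16777216 x :=
  sg12B_of (P := PP) (RK := tK) (RL := tL) (Gt := gB) (pc := pcB) (KA := 4) (C0 := c0B) rfl trivial (Or.inl rfl) (Or.inr rfl) (lo := false) (up := false) (sideB hx hx') gokB (g3okB hx hx') (xr0 hx hx').1 (xr0 hx hx').2 (div_S_le (k := 8) (by norm_num) (by norm_num)) ((gatB01 x).n1) (gatB63 hx hx') (fun h => absurd h (by decide)) (fun h _ => absurd h (by decide)) EG.B123_065m ⟨⟨232471925, by norm_num, by norm_num⟩, by norm_num, by decide⟩ (by norm_num) hx hx'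

theorem sW_B123_065m {x : ℝ} (hx : ((697932185 : ℕ) : ℝ) / S ≤ x) (hx' : x ≤ (((697932185 : ℕ) : ℝ) + (42949674 : ℕ)) / S) :
    Sg12BW PP tK tL tU 3 (eng.v x) (mog.v x) .npn 1 2 0 6 false 5 67108864 16777216 x :=
  sg12BW_of (P := PP) (RK := tK) (RL := tL) (RC := tU) (Gt := gB) (Dt := dB) (pc := pcB) (KA := 4) (N0 := 3) (C0 := c0B) (En := eng) (mo := mog) rfl trivial (Or.inl rfl) (Or.inr rfl) (lo := false) (up := false) (sideB hx hx') gokB (pinU hx hx') dokB (g3cB hx hx') (g3okB hx hx') (xr0 hx hx').1 (xr0 hx hx').2 (div_S_le (k := 8) (by norm_num) (by norm_num)) ((gatB01 x).n1) (gatB63 hx hx') (fun h => absurd h (by decide)) (fun h _ => absurd h (by decide)) ((datB01 x).n1) (datB63 hx hx') (fun h => absurd h (by decide)) (fun h _ => absurd h (by decide)) EW.B123_065m ⟨⟨232471925, by norm_num, by norm_num⟩, by norm_num, by decide⟩ (by norm_num) hx hx'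

theorem sG_X123_066m {x : ℝ} (hx : ((697932185 : ℕ) : ℝ) / S ≤ x) (hx' : x ≤ (((697932185 : ℕ) : ℝ) + (42949674 : ℕ)) / S) :
    Ex12B PP 1 2 0 6 false 6 67108864 16777216 :=
  ex12B_of (P := PP) (RK := tK) (RL := tL) (Gt := gB) (KA := 4) (C0 := c0B) (x := x) (cn := .npn) rfl trivial (Or.inl rfl) (Or.inr rfl) gokB (g3okB hx hx') (div_S_le (k := 8) (by norm_num) (by norm_num)) ((gatB01 x).n1) (gatB63 hx hx') EG.X123_066m ⟨⟨232471925, by norm_num, by norm_num⟩, by norm_num, by decide⟩ (by norm_num) hx hx'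

theorem sG_B213_061m {x : ℝ} (hx : ((697932185 : ℕ) : ℝ) / S ≤ x) (hx' : x ≤ (((697932185 : ℕ) : ℝ) + (42949674 : ℕ)) / S) :
    Sg12B PP tK tL true 0 .pnn 2 1 0 6 false 1 67108864 16777216 x :=
  sg12B_of (P := PP) (RK := tK) (RL := tL) (Gt := gB) (pc := pcB) (KA := 4) (C0 := c0B) rfl trivial (Or.inr rfl) (Or.inl rfl) (lo := false) (up := false) (sideB hx hx') gokB (g3okB hx hx') (xr0 hx hx').1 (xr0 hx hx').2 (div_S_le (k := 8) (by norm_num) (by norm_num)) ((gatB02 x).n1) (gatB63 hx hx') (fun h => absurd h (by decide)) (fun h _ => absurd h (by decide)) EG.B213_061m ⟨⟨232471925, by norm_num, by norm_num⟩, by norm_num, by decide⟩ (by norm_num) hx hx'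

theorem sW_B213_061m {x : ℝ} (hx : ((697932185 : ℕ) : ℝ) / S ≤ x) (hx' : x ≤ (((697932185 : ℕ) : ℝ) + (42949674 : ℕ)) / S) :
    Sg12BW PP tK tL tU 3 (eng.v x) (mog.v x) .pnn 2 1 0 6 false 1 67108864 16777216 x :=
  sg12BW_of (P := PP) (RK := tK) (RL := tL) (RC := tU) (Gt := gB) (Dt := dB) (pc := pcB) (KA := 4) (N0 := 3) (C0 := c0B) (En := eng) (mo := mog) rfl trivial (Or.inr rfl) (Or.inl rfl) (lo := false) (up := false) (sideB hx hx') gokB (pinU hx hx') dokB (g3cB hx hx') (g3okB hx hx') (xr0 hx hx').1 (xr0 hx hx').2 (div_S_le (k := 8) (by norm_num) (by norm_num)) ((gatB02 x).n1) (gatB63 hx hx') (fun h => absurd h (by decide)) (fun h _ => absurd h (by decide)) ((datB02 x).n1) (datB63 hx hx') (fun h => absurd h (by decide)) (fun h _ => absurd h (by decide)) EW.B213_061m ⟨⟨232471925, by norm_num, by norm_num⟩, by norm_num, by decide⟩ (by norm_num) hx hx'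

theorem sG_X213_062m {x : ℝ} (hx : ((697932185 : ℕ) : ℝ) / S ≤ x) (hx' : x ≤ (((697932185 : ℕ) : ℝ) + (42949674 : ℕ)) / S) :
    Ex12B PP 2 1 0 6 false 2 67108864 16777216 :=
  ex12B_of (P := PP) (RK := tK) (RL := tL) (Gt := gB) (KA := 4) (C0 := c0B) (x := x) (cn := .pnn) rfl trivial (Or.inr rfl) (Or.inl rfl) gokB (g3okB hx hx') (div_S_le (k := 8) (by norm_num) (by norm_num)) ((gatB02 x).n1) (gatB63 hx hx') EG.X213_062m ⟨⟨232471925, by norm_num, by norm_num⟩, by norm_num, by decide⟩ (by norm_num) hx hx'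

theorem sG_B213_160m {x : ℝ} (hx : ((697932185 : ℕ) : ℝ) / S ≤ x) (hx' : x ≤ (((697932185 : ℕ) : ℝ) + (42949674 : ℕ)) / S) :
    Sg12B PP tK tL true 0 .pnn 2 1 1 6 false 0 67108864 16777216 x :=
  sg12B_of (P := PP) (RK := tK) (RL := tL) (Gt := gB) (pc := pcB) (KA := 4) (C0 := c0B) rfl trivial (Or.inr rfl) (Or.inl rfl) (lo := true) (up := false) (sideB hx hx') gokB (g3okB hx hx') (xr0 hx hx').1 (xr0 hx hx').2 (div_S_le (k := 8) (by norm_num) (by norm_num)) ((gatB12 x).n1) (gatB63 hx hx') (fun _ => (gatB01 x).n1) (fun _ h => absurd h (by decide)) EG.B213_160m ⟨⟨232471925, by norm_num, by norm_num⟩, by norm_num, by decide⟩ (by norm_num) hx hx'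

theorem sW_B213_160m {x : ℝ} (hx : ((697932185 : ℕ) : ℝ) / S ≤ x) (hx' : x ≤ (((697932185 : ℕ) : ℝ) + (42949674 : ℕ)) / S) :
    Sg12BW PP tK tL tU 3 (eng.v x) (mog.v x) .pnn 2 1 1 6 false 0 67108864 16777216 x :=
  sg12BW_of (P := PP) (RK := tK) (RL := tL) (RC := tU) (Gt := gB) (Dt := dB) (pc := pcB) (KA := 4) (N0 := 3) (C0 := c0B) (En := eng) (mo := mog) rfl trivial (Or.inr rfl) (Or.inl rfl) (lo := true) (up := false) (sideB hx hx') gokB (pinU hx hx') dokB (g3cB hx hx') (g3okB hx hx') (xr0 hx hx').1 (xr0 hx hx').2 (div_S_le (k := 8) (by norm_num) (by norm_num)) ((gatB12 x).n1) (gatB63 hx hx') (fun _ => (gatB01 x).n1) (fun _ h => absurd h (by decide)) ((datB12 x).n1) (datB63 hx hx') (fun _ => (datB01 x).n1) (fun _ h => absurd h (by decide)) EW.B213_160m ⟨⟨232471925, by norm_num, by norm_num⟩, by norm_num, by decide⟩ (by norm_num) hx hx'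

theorem sG_B213_161m {x : ℝ} (hx : ((697932185 : ℕ) : ℝ) / S ≤ x) (hx' : x ≤ (((697932185 : ℕ) : ℝ) + (42949674 : ℕ)) / S) :
    Sg12B PP tK tL true 0 .pnn 2 1 1 6 false 1 67108864 16777216 x :=
  sg12B_of (P := PP) (RK := tK) (RL := tL) (Gt := gB) (pc := pcB) (KA := 4) (C0 := c0B) rfl trivial (Or.inr rfl) (Or.inl rfl) (lo := false) (up := false) (sideB hx hx') gokB (g3okB hx hx') (xr0 hx hx').1 (xr0 hx hx').2 (div_S_le (k := 8) (by norm_num) (by norm_num)) ((gatB12 x).n1) (gatB63 hx hx') (fun h => absurd h (by decide)) (fun h _ => absurd h (by decide)) EG.B213_161m ⟨⟨232471925, by norm_num, by norm_num⟩, by norm_num, by decide⟩ (by norm_num) hx hx'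

theorem sW_B213_161m {x : ℝ} (hx : ((697932185 : ℕ) : ℝ) / S ≤ x) (hx' : x ≤ (((697932185 : ℕ) : ℝ) + (42949674 : ℕ)) / S) :
    Sg12BW PP tK tL tU 3 (eng.v x) (mog.v x) .pnn 2 1 1 6 false 1 67108864 16777216 x :=
  sg12BW_of (P := PP) (RK := tK) (RL := tL) (RC := tU) (Gt := gB) (Dt := dB) (pc := pcB) (KA := 4) (N0 := 3) (C0 := c0B) (En := eng) (mo := mog) rfl trivial (Or.inr rfl) (Or.inl rfl) (lo := false) (up := false) (sideB hx hx') gokB (pinU hx hx') dokB (g3cB hx hx') (g3okB hx hx') (xr0 hx hx').1 (xr0 hx hx').2 (div_S_le (k := 8) (by norm_num) (by norm_num)) ((gatB12 x).n1) (gatB63 hx hx') (fun h => absurd h (by decide)) (fun h _ => absurd h (by decide)) ((datB12 x).n1) (datB63 hx hx') (fun h => absurd h (by decide)) (fun h _ => absurd h (by decide)) EW.B213_161m ⟨⟨232471925, by norm_num, by norm_num⟩, by norm_num, by decide⟩ (by norm_num) hx hx'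

theorem sG_X213_162m {x : ℝ} (hx : ((697932185 : ℕ) : ℝ) / S ≤ x) (hx' : x ≤ (((697932185 : ℕ) : ℝ) + (42949674 : ℕ)) / S) :
    Ex12B PP 2 1 1 6 false 2 67108864 16777216 :=
  ex12B_of (P := PP) (RK := tK) (RL := tL) (Gt := gB) (KA := 4) (C0 := c0B) (x := x) (cn := .pnn) rfl trivial (Or.inr rfl) (Or.inl rfl) gokB (g3okB hx hx') (div_S_le (k := 8) (by norm_num) (by norm_num)) ((gatB12 x).n1) (gatB63 hx hx') EG.X213_162m ⟨⟨232471925, by norm_num, by norm_num⟩, by norm_num, by decide⟩ (by norm_num) hx hx'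

theorem sG_B213_260m {x : ℝ} (hx : ((697932185 : ℕ) : ℝ) / S ≤ x) (hx' : x ≤ (((697932185 : ℕ) : ℝ) + (42949674 : ℕ)) / S) :
    Sg12B PP tK tL true 0 .pnn 2 1 2 6 false 0 67108864 16777216 x :=
  sg12B_of (P := PP) (RK := tK) (RL := tL) (Gt := gB) (pc := pcB) (KA := 4) (C0 := c0B) rfl trivial (Or.inr rfl) (Or.inl rfl) (lo := true) (up := false) (sideB hx hx') gokB (g3okB hx hx') (xr0 hx hx').1 (xr0 hx hx').2 (div_S_le (k := 8) (by norm_num) (by norm_num)) ((gatB22 x).n1) (gatB63 hx hx') (fun _ => (gatB01 x).n1) (fun _ h => absurd h (by decide)) EG.B213_260m ⟨⟨232471925, by norm_num, by norm_num⟩, by norm_num, by decide⟩ (by norm_num) hx hx'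

theorem sW_B213_260m {x : ℝ} (hx : ((697932185 : ℕ) : ℝ) / S ≤ x) (hx' : x ≤ (((697932185 : ℕ) : ℝ) + (42949674 : ℕ)) / S) :
    Sg12BW PP tK tL tU 3 (eng.v x) (mog.v x) .pnn 2 1 2 6 false 0 67108864 16777216 x :=
  sg12BW_of (P := PP) (RK := tK) (RL := tL) (RC := tU) (Gt := gB) (Dt := dB) (pc := pcB) (KA := 4) (N0 := 3) (C0 := c0B) (En := eng) (mo := mog) rfl trivial (Or.inr rfl) (Or.inl rfl) (lo := true) (up := false) (sideB hx hx') gokB (pinU hx hx') dokB (g3cB hx hx') (g3okB hx hx') (xr0 hx hx').1 (xr0 hx hx').2 (div_S_le (k := 8) (by norm_num) (by norm_num)) ((gatB22 x).n1) (gatB63 hx hx') (fun _ => (gatB01 x).n1) (fun _ h => absurd h (by decide)) ((datB22 x).n1) (datB63 hx hx') (fun _ => (datB01 x).n1) (fun _ h => absurd h (by decide)) EW.B213_260m ⟨⟨232471925, by norm_num, by norm_num⟩, by norm_num, by decide⟩ (by norm_num) hx hx'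

theorem sG_B213_261m {x : ℝ} (hx : ((697932185 : ℕ) : ℝ) / S ≤ x) (hx' : x ≤ (((697932185 : ℕ) : ℝ) + (42949674 : ℕ)) / S) :
    Sg12B PP tK tL true 0 .pnn 2 1 2 6 false 1 67108864 16777216 x :=
  sg12B_of (P := PP) (RK := tK) (RL := tL) (Gt := gB) (pc := pcB) (KA := 4) (C0 := c0B) rfl trivial (Or.inr rfl) (Or.inl rfl) (lo := false) (up := false) (sideB hx hx') gokB (g3okB hx hx') (xr0 hx hx').1 (xr0 hx hx').2 (div_S_le (k := 8) (by norm_num) (by norm_num)) ((gatB22 x).n1) (gatB63 hx hx') (fun h => absurd h (by decide)) (fun h _ => absurd h (by decide)) EG.B213_261m ⟨⟨232471925, by norm_num, by norm_num⟩, by norm_num, by decide⟩ (by norm_num) hx hx'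

theorem sW_B213_261m {x : ℝ} (hx : ((697932185 : ℕ) : ℝ) / S ≤ x) (hx' : x ≤ (((697932185 : ℕ) : ℝ) + (42949674 : ℕ)) / S) :
    Sg12BW PP tK tL tU 3 (eng.v x) (mog.v x) .pnn 2 1 2 6 false 1 67108864 16777216 x :=
  sg12BW_of (P := PP) (RK := tK) (RL := tL) (RC := tU) (Gt := gB) (Dt := dB) (pc := pcB) (KA := 4) (N0 := 3) (C0 := c0B) (En := eng) (mo := mog) rfl trivial (Or.inr rfl) (Or.inl rfl) (lo := false) (up := false) (sideB hx hx') gokB (pinU hx hx') dokB (g3cB hx hx') (g3okB hx hx') (xr0 hx hx').1 (xr0 hx hx').2 (div_S_le (k := 8) (by norm_num) (by norm_num)) ((gatB22 x).n1) (gatB63 hx hx') (fun h => absurd h (by decide)) (fun h _ => absurd h (by decide)) ((datB22 x).n1) (datB63 hx hx') (fun h => absurd h (by decide)) (fun h _ => absurd h (by decide)) EW.B213_261m ⟨⟨232471925, by norm_num, by norm_num⟩, by norm_num, by decide⟩ (by norm_num) hx hx'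

theorem sG_X213_262m {x : ℝ} (hx : ((697932185 : ℕ) : ℝ) / S ≤ x) (hx' : x ≤ (((697932185 : ℕ) : ℝ) + (42949674 : ℕ)) / S) :
    Ex12B PP 2 1 2 6 false 2 67108864 16777216 :=
  ex12B_of (P := PP) (RK := tK) (RL := tL) (Gt := gB) (KA := 4) (C0 := c0B) (x := x) (cn := .pnn) rfl trivial (Or.inr rfl) (Or.inl rfl) gokB (g3okB hx hx') (div_S_le (k := 8) (by norm_num) (by norm_num)) ((gatB22 x).n1) (gatB63 hx hx') EG.X213_262m ⟨⟨232471925, by norm_num, by norm_num⟩, by norm_num, by decide⟩ (by norm_num) hx hx'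

theorem sG_B213_360m {x : ℝ} (hx : ((697932185 : ℕ) : ℝ) / S ≤ x) (hx' : x ≤ (((697932185 : ℕ) : ℝ) + (42949674 : ℕ)) / S) :
    Sg12B PP tK tL true 0 .pnn 2 1 3 6 false 0 67108864 16777216 x :=
  sg12B_of (P := PP) (RK := tK) (RL := tL) (Gt := gB) (pc := pcB) (KA := 4) (C0 := c0B) rfl trivial (Or.inr rfl) (Or.inl rfl) (lo := true) (up := false) (sideB hx hx') gokB (g3okB hx hx') (xr0 hx hx').1 (xr0 hx hx').2 (div_S_le (k := 8) (by norm_num) (by norm_num)) ((gatB32 x).n1) (gatB63 hx hx') (fun _ => (gatB01 x).n1) (fun _ h => absurd h (by decide)) EG.B213_360m ⟨⟨232471925, by norm_num, by norm_num⟩, by norm_num, by decide⟩ (by norm_num) hx hx'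

theorem sW_B213_360m {x : ℝ} (hx : ((697932185 : ℕ) : ℝ) / S ≤ x) (hx' : x ≤ (((697932185 : ℕ) : ℝ) + (42949674 : ℕ)) / S) :
    Sg12BW PP tK tL tU 3 (eng.v x) (mog.v x) .pnn 2 1 3 6 false 0 67108864 16777216 x :=
  sg12BW_of (P := PP) (RK := tK) (RL := tL) (RC := tU) (Gt := gB) (Dt := dB) (pc := pcB) (KA := 4) (N0 := 3) (C0 := c0B) (En := eng) (mo := mog) rfl trivial (Or.inr rfl) (Or.inl rfl) (lo := true) (up := false) (sideB hx hx') gokB (pinU hx hx') dokB (g3cB hx hx') (g3okB hx hx') (xr0 hx hx').1 (xr0 hx hx').2 (div_S_le (k := 8) (by norm_num) (by norm_num)) ((gatB32 x).n1) (gatB63 hx hx') (fun _ => (gatB01 x).n1) (fun _ h => absurd h (by decide)) ((datB32 x).n1) (datB63 hx hx') (fun _ => (datB01 x).n1) (fun _ h => absurd h (by decide)) EW.B213_360m ⟨⟨232471925, by norm_num, by norm_num⟩, by norm_num, by decide⟩ (by norm_num) hx hx'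

theorem sG_B213_361m {x : ℝ} (hx : ((697932185 : ℕ) : ℝ) / S ≤ x) (hx' : x ≤ (((697932185 : ℕ) : ℝ) + (42949674 : ℕ)) / S) :
    Sg12B PP tK tL true 0 .pnn 2 1 3 6 false 1 67108864 16777216 x :=
  sg12B_of (P := PP) (RK := tK) (RL := tL) (Gt := gB) (pc := pcB) (KA := 4) (C0 := c0B) rfl trivial (Or.inr rfl) (Or.inl rfl) (lo := false) (up := false) (sideB hx hx') gokB (g3okB hx hx') (xr0 hx hx').1 (xr0 hx hx').2 (div_S_le (k := 8) (by norm_num) (by norm_num)) ((gatB32 x).n1) (gatB63 hx hx') (fun h => absurd h (by decide)) (fun h _ => absurd h (by decide)) EG.B213_361m ⟨⟨232471925, by norm_num, by norm_num⟩, by norm_num, by decide⟩ (by norm_num) hx hx'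

theorem sW_B213_361m {x : ℝ} (hx : ((697932185 : ℕ) : ℝ) / S ≤ x) (hx' : x ≤ (((697932185 : ℕ) : ℝ) + (42949674 : ℕ)) / S) :
    Sg12BW PP tK tL tU 3 (eng.v x) (mog.v x) .pnn 2 1 3 6 false 1 67108864 16777216 x :=
  sg12BW_of (P := PP) (RK := tK) (RL := tL) (RC := tU) (Gt := gB) (Dt := dB) (pc := pcB) (KA := 4) (N0 := 3) (C0 := c0B) (En := eng) (mo := mog) rfl trivial (Or.inr rfl) (Or.inl rfl) (lo := false) (up := false) (sideB hx hx') gokB (pinU hx hx') dokB (g3cB hx hx') (g3okB hx hx') (xr0 hx hx').1 (xr0 hx hx').2 (div_S_le (k := 8) (by norm_num) (by norm_num)) ((gatB32 x).n1) (gatB63 hx hx') (fun h => absurd h (by decide)) (fun h _ => absurd h (by decide)) ((datB32 x).n1) (datB63 hx hx') (fun h => absurd h (by decide)) (fun h _ => absurd h (by decide)) EW.B213_361m ⟨⟨232471925, by norm_num, by norm_num⟩, by norm_num, by decide⟩ (by norm_num) hx hx'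

theorem sG_X213_362m {x : ℝ} (hx : ((697932185 : ℕ) : ℝ) / S ≤ x) (hx' : x ≤ (((697932185 : ℕ) : ℝ) + (42949674 : ℕ)) / S) :
    Ex12B PP 2 1 3 6 false 2 67108864 16777216 :=
  ex12B_of (P := PP) (RK := tK) (RL := tL) (Gt := gB) (KA := 4) (C0 := c0B) (x := x) (cn := .pnn) rfl trivial (Or.inr rfl) (Or.inl rfl) gokB (g3okB hx hx') (div_S_le (k := 8) (by norm_num) (by norm_num)) ((gatB32 x).n1) (gatB63 hx hx') EG.X213_362m ⟨⟨232471925, by norm_num, by norm_num⟩, by norm_num, by decide⟩ (by norm_num) hx hx'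

theorem sG_B213_460m {x : ℝ} (hx : ((697932185 : ℕ) : ℝ) / S ≤ x) (hx' : x ≤ (((697932185 : ℕ) : ℝ) + (42949674 : ℕ)) / S) :
    Sg12B PP tK tL true 0 .pnn 2 1 4 6 false 0 67108864 16777216 x :=
  sg12B_of (P := PP) (RK := tK) (RL := tL) (Gt := gB) (pc := pcB) (KA := 4) (C0 := c0B) rfl trivial (Or.inr rfl) (Or.inl rfl) (lo := true) (up := false) (sideB hx hx') gokB (g3okB hx hx') (xr0 hx hx').1 (xr0 hx hx').2 (div_S_le (k := 8) (by norm_num) (by norm_num)) ((gatB42 x).n1) (gatB63 hx hx') (fun _ => (gatB01 x).n1) (fun _ h => absurd h (by decide)) EG.B213_460m ⟨⟨232471925, by norm_num, by norm_num⟩, by norm_num, by decide⟩ (by norm_num) hx hx'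

theorem sW_B213_460m {x : ℝ} (hx : ((697932185 : ℕ) : ℝ) / S ≤ x) (hx' : x ≤ (((697932185 : ℕ) : ℝ) + (42949674 : ℕ)) / S) :
    Sg12BW PP tK tL tU 3 (eng.v x) (mog.v x) .pnn 2 1 4 6 false 0 67108864 16777216 x :=
  sg12BW_of (P := PP) (RK := tK) (RL := tL) (RC := tU) (Gt := gB) (Dt := dB) (pc := pcB) (KA := 4) (N0 := 3) (C0 := c0B) (En := eng) (mo := mog) rfl trivial (Or.inr rfl) (Or.inl rfl) (lo := true) (up := false) (sideB hx hx') gokB (pinU hx hx') dokB (g3cB hx hx') (g3okB hx hx') (xr0 hx hx').1 (xr0 hx hx').2 (div_S_le (k := 8) (by norm_num) (by norm_num)) ((gatB42 x).n1) (gatB63 hx hx') (fun _ => (gatB01 x).n1) (fun _ h => absurd h (by decide)) ((datB42 x).n1) (datB63 hx hx') (fun _ => (datB01 x).n1) (fun _ h => absurd h (by decide)) EW.B213_460m ⟨⟨232471925, by norm_num, by norm_num⟩, by norm_num, by decide⟩ (by norm_num) hx hx'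

theorem sG_B213_461m {x : ℝ} (hx : ((697932185 : ℕ) : ℝ) / S ≤ x) (hx' : x ≤ (((697932185 : ℕ) : ℝ) + (42949674 : ℕ)) / S) :
    Sg12B PP tK tL true 0 .pnn 2 1 4 6 false 1 67108864 16777216 x :=
  sg12B_of (P := PP) (RK := tK) (RL := tL) (Gt := gB) (pc := pcB) (KA := 4) (C0 := c0B) rfl trivial (Or.inr rfl) (Or.inl rfl) (lo := false) (up := false) (sideB hx hx') gokB (g3okB hx hx') (xr0 hx hx').1 (xr0 hx hx').2 (div_S_le (k := 8) (by norm_num) (by norm_num)) ((gatB42 x).n1) (gatB63 hx hx') (fun h => absurd h (by decide)) (fun h _ => absurd h (by decide)) EG.B213_461m ⟨⟨232471925, by norm_num, by norm_num⟩, by norm_num, by decide⟩ (by norm_num) hx hx'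

theorem sW_B213_461m {x : ℝ} (hx : ((697932185 : ℕ) : ℝ) / S ≤ x) (hx' : x ≤ (((697932185 : ℕ) : ℝ) + (42949674 : ℕ)) / S) :
    Sg12BW PP tK tL tU 3 (eng.v x) (mog.v x) .pnn 2 1 4 6 false 1 67108864 16777216 x :=
  sg12BW_of (P := PP) (RK := tK) (RL := tL) (RC := tU) (Gt := gB) (Dt := dB) (pc := pcB) (KA := 4) (N0 := 3) (C0 := c0B) (En := eng) (mo := mog) rfl trivial (Or.inr rfl) (Or.inl rfl) (lo := false) (up := false) (sideB hx hx') gokB (pinU hx hx') dokB (g3cB hx hx') (g3okB hx hx') (xr0 hx hx').1 (xr0 hx hx').2 (div_S_le (k := 8) (by norm_num) (by norm_num)) ((gatB42 x).n1) (gatB63 hx hx') (fun h => absurd h (by decide)) (fun h _ => absurd h (by decide)) ((datB42 x).n1) (datB63 hx hx') (fun h => absurd h (by decide)) (fun h _ => absurd h (by decide)) EW.B213_461m ⟨⟨232471925, by norm_num, by norm_num⟩, by norm_num, by decide⟩ (by norm_num) hx hx'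

theorem sG_X213_462m {x : ℝ} (hx : ((697932185 : ℕ) : ℝ) / S ≤ x) (hx' : x ≤ (((697932185 : ℕ) : ℝ) + (42949674 : ℕ)) / S) :
    Ex12B PP 2 1 4 6 false 2 67108864 16777216 :=
  ex12B_of (P := PP) (RK := tK) (RL := tL) (Gt := gB) (KA := 4) (C0 := c0B) (x := x) (cn := .pnn) rfl trivial (Or.inr rfl) (Or.inl rfl) gokB (g3okB hx hx') (div_S_le (k := 8) (by norm_num) (by norm_num)) ((gatB42 x).n1) (gatB63 hx hx') EG.X213_462m ⟨⟨232471925, by norm_num, by norm_num⟩, by norm_num, by decide⟩ (by norm_num) hx hx'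

theorem sG_B113_070p {x : ℝ} (hx : ((697932185 : ℕ) : ℝ) / S ≤ x) (hx' : x ≤ (((697932185 : ℕ) : ℝ) + (42949674 : ℕ)) / S) :
    Sg12B PP tK tL true 0 .nn 1 1 0 7 true 0 67108864 16777216 x :=
  sg12B_of (P := PP) (RK := tK) (RL := tL) (Gt := gB) (pc := pcB) (KA := 4) (C0 := c0B) rfl trivial (Or.inl rfl) (Or.inl rfl) (lo := true) (up := false) (sideB hx hx') gokB (g3okB hx hx') (xr0 hx hx').1 (xr0 hx hx').2 (div_S_le (k := 8) (by norm_num) (by norm_num)) ((gatB01 x).n1) (gatB73 hx hx') (fun _ => (gatB01 x).n1) (fun _ h => absurd h (by decide)) EG.B113_070p ⟨by norm_num, by norm_num, rfl⟩ (by norm_num) hx hx'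

theorem sW_B113_070p {x : ℝ} (hx : ((697932185 : ℕ) : ℝ) / S ≤ x) (hx' : x ≤ (((697932185 : ℕ) : ℝ) + (42949674 : ℕ)) / S) :
    Sg12BW PP tK tL tU 3 (eng.v x) (mog.v x) .nn 1 1 0 7 true 0 67108864 16777216 x :=
  sg12BW_of (P := PP) (RK := tK) (RL := tL) (RC := tU) (Gt := gB) (Dt := dB) (pc := pcB) (KA := 4) (N0 := 3) (C0 := c0B) (En := eng) (mo := mog) rfl trivial (Or.inl rfl) (Or.inl rfl) (lo := true) (up := false) (sideB hx hx') gokB (pinU hx hx') dokB (g3cB hx hx') (g3okB hx hx') (xr0 hx hx').1 (xr0 hx hx').2 (div_S_le (k := 8) (by norm_num) (by norm_num)) ((gatB01 x).n1) (gatB73 hx hx') (fun _ => (gatB01 x).n1) (fun _ h => absurd h (by decide)) ((datB01 x).n1) (datB73 hx hx') (fun _ => (datB01 x).n1) (fun _ h => absurd h (by decide)) EW.B113_070p ⟨by norm_num, by norm_num, rfl⟩ (by norm_num) hx hx'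

theorem sG_X113_071p {x : ℝ} (hx : ((697932185 : ℕ) : ℝ) / S ≤ x) (hx' : x ≤ (((697932185 : ℕ) : ℝ) + (42949674 : ℕ)) / S) :
    Ex12B PP 1 1 0 7 true 1 67108864 16777216 :=
  ex12B_of (P := PP) (RK := tK) (RL := tL) (Gt := gB) (KA := 4) (C0 := c0B) (x := x) (cn := .nn) rfl trivial (Or.inl rfl) (Or.inl rfl) gokB (g3okB hx hx') (div_S_le (k := 8) (by norm_num) (by norm_num)) ((gatB01 x).n1) (gatB73 hx hx') EG.X113_071p ⟨by norm_num, by norm_num, rfl⟩ (by norm_num) hx hx'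

theorem sG_B123_070p {x : ℝ} (hx : ((697932185 : ℕ) : ℝ) / S ≤ x) (hx' : x ≤ (((697932185 : ℕ) : ℝ) + (42949674 : ℕ)) / S) :
    Sg12Bu PP tK tL true 0 .npn 1 2 0 7 true 0 67108864 16777216 x :=
  sg12Bu_of (P := PP) (RK := tK) (RL := tL) (Gt := gB) (pc := pcB) (KA := 4) (C0 := c0B) rfl trivial (Or.inl rfl) (Or.inr rfl) (lo := true) (up := true) (sideB hx hx') gokB (g3okB hx hx') (xr0 hx hx').1 (xr0 hx hx').2 (div_S_le (k := 8) (by norm_num) (by norm_num)) ((gatB01 x).n1) (gatB73 hx hx') (fun _ => (gatB02 x).n1) (fun _ _ => (gatB12 x).n1) EG.B123_070p ⟨⟨232471925, by norm_num, by norm_num⟩, by norm_num, by decide⟩ hx hx'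

theorem sW_B123_070p {x : ℝ} (hx : ((697932185 : ℕ) : ℝ) / S ≤ x) (hx' : x ≤ (((697932185 : ℕ) : ℝ) + (42949674 : ℕ)) / S) :
    Sg12BuW PP tK tL tU 3 (eng.v x) (mog.v x) .npn 1 2 0 7 true 0 67108864 16777216 x :=
  sg12BuW_of (P := PP) (RK := tK) (RL := tL) (RC := tU) (Gt := gB) (Dt := dB) (pc := pcB) (KA := 4) (N0 := 3) (C0 := c0B) (En := eng) (mo := mog) rfl trivial (Or.inl rfl) (Or.inr rfl) (lo := true) (up := true) (sideB hx hx') gokB (pinU hx hx') dokB (g3cB hx hx') (g3okB hx hx') (xr0 hx hx').1 (xr0 hx hx').2 (div_S_le (k := 8) (by norm_num) (by norm_num)) ((gatB01 x).n1) (gatB73 hx hx') (fun _ => (gatB02 x).n1) (fun _ _ => (gatB12 x).n1) ((datB01 x).n1) (datB73 hx hx') (fun _ => (datB02 x).n1) (fun _ _ => (datB12 x).n1) EW.B123_070p ⟨⟨232471925, by norm_num, by norm_num⟩, by norm_num, by decide⟩ hx hx'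

theorem sG_B123_071p {x : ℝ} (hx : ((697932185 : ℕ) : ℝ) / S ≤ x) (hx' : x ≤ (((697932185 : ℕ) : ℝ) + (42949674 : ℕ)) / S) :
    Sg12B PP tK tL true 0 .npn 1 2 0 7 true 1 67108864 16777216 x :=
  sg12B_of (P := PP) (RK := tK) (RL := tL) (Gt := gB) (pc := pcB) (KA := 4) (C0 := c0B) rfl trivial (Or.inl rfl) (Or.inr rfl) (lo := true) (up := true) (sideB hx hx') gokB (g3okB hx hx') (xr0 hx hx').1 (xr0 hx hx').2 (div_S_le (k := 8) (by norm_num) (by norm_num)) ((gatB01 x).n1) (gatB73 hx hx') (fun _ => (gatB12 x).n1) (fun _ _ => (gatB22 x).n1) EG.B123_071p ⟨⟨232471925, by norm_num, by norm_num⟩, by norm_num, by decide⟩ (by norm_num) hx hx'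

theorem sW_B123_071p {x : ℝ} (hx : ((697932185 : ℕ) : ℝ) / S ≤ x) (hx' : x ≤ (((697932185 : ℕ) : ℝ) + (42949674 : ℕ)) / S) :
    Sg12BW PP tK tL tU 3 (eng.v x) (mog.v x) .npn 1 2 0 7 true 1 67108864 16777216 x :=
  sg12BW_of (P := PP) (RK := tK) (RL := tL) (RC := tU) (Gt := gB) (Dt := dB) (pc := pcB) (KA := 4) (N0 := 3) (C0 := c0B) (En := eng) (mo := mog) rfl trivial (Or.inl rfl) (Or.inr rfl) (lo := true) (up := true) (sideB hx hx') gokB (pinU hx hx') dokB (g3cB hx hx') (g3okB hx hx') (xr0 hx hx').1 (xr0 hx hx').2 (div_S_le (k := 8) (by norm_num) (by norm_num)) ((gatB01 x).n1) (gatB73 hx hx') (fun _ => (gatB12 x).n1) (fun _ _ => (gatB22 x).n1) ((datB01 x).n1) (datB73 hx hx') (fun _ => (datB12 x).n1) (fun _ _ => (datB22 x).n1) EW.B123_071p ⟨⟨232471925, by norm_num, by norm_num⟩, by norm_num, by decide⟩ (by norm_num) hx hx'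

theorem sG_B123_072p {x : ℝ} (hx : ((697932185 : ℕ) : ℝ) / S ≤ x) (hx' : x ≤ (((697932185 : ℕ) : ℝ) + (42949674 : ℕ)) / S) :
    Sg12B PP tK tL true 0 .npn 1 2 0 7 true 2 67108864 16777216 x :=
  sg12B_of (P := PP) (RK := tK) (RL := tL) (Gt := gB) (pc := pcB) (KA := 4) (C0 := c0B) rfl trivial (Or.inl rfl) (Or.inr rfl) (lo := true) (up := true) (sideB hx hx') gokB (g3okB hx hx') (xr0 hx hx').1 (xr0 hx hx').2 (div_S_le (k := 8) (by norm_num) (by norm_num)) ((gatB01 x).n1) (gatB73 hx hx') (fun _ => (gatB22 x).n1) (fun _ _ => (gatB32 x).n1) EG.B123_072p ⟨⟨232471925, by norm_num, by norm_num⟩, by norm_num, by decide⟩ (by norm_num) hx hx'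

theorem sW_B123_072p {x : ℝ} (hx : ((697932185 : ℕ) : ℝ) / S ≤ x) (hx' : x ≤ (((697932185 : ℕ) : ℝ) + (42949674 : ℕ)) / S) :
    Sg12BW PP tK tL tU 3 (eng.v x) (mog.v x) .npn 1 2 0 7 true 2 67108864 16777216 x :=
  sg12BW_of (P := PP) (RK := tK) (RL := tL) (RC := tU) (Gt := gB) (Dt := dB) (pc := pcB) (KA := 4) (N0 := 3) (C0 := c0B) (En := eng) (mo := mog) rfl trivial (Or.inl rfl) (Or.inr rfl) (lo := true) (up := true) (sideB hx hx') gokB (pinU hx hx') dokB (g3cB hx hx') (g3okB hx hx') (xr0 hx hx').1 (xr0 hx hx').2 (div_S_le (k := 8) (by norm_num) (by norm_num)) ((gatB01 x).n1) (gatB73 hx hx') (fun _ => (gatB22 x).n1) (fun _ _ => (gatB32 x).n1) ((datB01 x).n1) (datB73 hx hx') (fun _ => (datB22 x).n1) (fun _ _ => (datB32 x).n1) EW.B123_072p ⟨⟨232471925, by norm_num, by norm_num⟩, by norm_num, by decide⟩ (by norm_num) hx hx'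

theorem sG_B123_073p {x : ℝ} (hx : ((697932185 : ℕ) : ℝ) / S ≤ x) (hx' : x ≤ (((697932185 : ℕ) : ℝ) + (42949674 : ℕ)) / S) :
    Sg12B PP tK tL true 0 .npn 1 2 0 7 true 3 67108864 16777216 x :=
  sg12B_of (P := PP) (RK := tK) (RL := tL) (Gt := gB) (pc := pcB) (KA := 4) (C0 := c0B) rfl trivial (Or.inl rfl) (Or.inr rfl) (lo := true) (up := true) (sideB hx hx') gokB (g3okB hx hx') (xr0 hx hx').1 (xr0 hx hx').2 (div_S_le (k := 8) (by norm_num) (by norm_num)) ((gatB01 x).n1) (gatB73 hx hx') (fun _ => (gatB32 x).n1) (fun _ _ => (gatB42 x).n1) EG.B123_073p ⟨⟨232471925, by norm_num, by norm_num⟩, by norm_num, by decide⟩ (by norm_num) hx hx'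

theorem sW_B123_073p {x : ℝ} (hx : ((697932185 : ℕ) : ℝ) / S ≤ x) (hx' : x ≤ (((697932185 : ℕ) : ℝ) + (42949674 : ℕ)) / S) :
    Sg12BW PP tK tL tU 3 (eng.v x) (mog.v x) .npn 1 2 0 7 true 3 67108864 16777216 x :=
  sg12BW_of (P := PP) (RK := tK) (RL := tL) (RC := tU) (Gt := gB) (Dt := dB) (pc := pcB) (KA := 4) (N0 := 3) (C0 := c0B) (En := eng) (mo := mog) rfl trivial (Or.inl rfl) (Or.inr rfl) (lo := true) (up := true) (sideB hx hx') gokB (pinU hx hx') dokB (g3cB hx hx') (g3okB hx hx') (xr0 hx hx').1 (xr0 hx hx').2 (div_S_le (k := 8) (by norm_num) (by norm_num)) ((gatB01 x).n1) (gatB73 hx hx') (fun _ => (gatB32 x).n1) (fun _ _ => (gatB42 x).n1) ((datB01 x).n1) (datB73 hx hx') (fun _ => (datB32 x).n1) (fun _ _ => (datB42 x).n1) EW.B123_073p ⟨⟨232471925, by norm_num, by norm_num⟩, by norm_num, by decide⟩ (by norm_num) hx hx'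

theorem sG_B123_074p {x : ℝ} (hx : ((697932185 : ℕ) : ℝ) / S ≤ x) (hx' : x ≤ (((697932185 : ℕ) : ℝ) + (42949674 : ℕ)) / S) :
    Sg12B PP tK tL true 0 .npn 1 2 0 7 true 4 67108864 16777216 x :=
  sg12B_of (P := PP) (RK := tK) (RL := tL) (Gt := gB) (pc := pcB) (KA := 4) (C0 := c0B) rfl trivial (Or.inl rfl) (Or.inr rfl) (lo := true) (up := false) (sideB hx hx') gokB (g3okB hx hx') (xr0 hx hx').1 (xr0 hx hx').2 (div_S_le (k := 8) (by norm_num) (by norm_num)) ((gatB01 x).n1) (gatB73 hx hx') (fun _ => (gatB42 x).n1) (fun _ h => absurd h (by decide)) EG.B123_074p ⟨⟨232471925, by norm_num, by norm_num⟩, by norm_num, by decide⟩ (by norm_num) hx hx'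

theorem sW_B123_074p {x : ℝ} (hx : ((697932185 : ℕ) : ℝ) / S ≤ x) (hx' : x ≤ (((697932185 : ℕ) : ℝ) + (42949674 : ℕ)) / S) :
    Sg12BW PP tK tL tU 3 (eng.v x) (mog.v x) .npn 1 2 0 7 true 4 67108864 16777216 x :=
  sg12BW_of (P := PP) (RK := tK) (RL := tL) (RC := tU) (Gt := gB) (Dt := dB) (pc := pcB) (KA := 4) (N0 := 3) (C0 := c0B) (En := eng) (mo := mog) rfl trivial (Or.inl rfl) (Or.inr rfl) (lo := true) (up := false) (sideB hx hx') gokB (pinU hx hx') dokB (g3cB hx hx') (g3okB hx hx') (xr0 hx hx').1 (xr0 hx hx').2 (div_S_le (k := 8) (by norm_num) (by norm_num)) ((gatB01 x).n1) (gatB73 hx hx') (fun _ => (gatB42 x).n1) (fun _ h => absurd h (by decide)) ((datB01 x).n1) (datB73 hx hx') (fun _ => (datB42 x).n1) (fun _ h => absurd h (by decide)) EW.B123_074p ⟨⟨232471925, by norm_num, by norm_num⟩, by norm_num, by decide⟩ (by norm_num) hx hx'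

theorem sG_X123_075p {x : ℝ} (hx : ((697932185 : ℕ) : ℝ) / S ≤ x) (hx' : x ≤ (((697932185 : ℕ) : ℝ) + (42949674 : ℕ)) / S) :
    Ex12B PP 1 2 0 7 true 5 67108864 16777216 :=
  ex12B_of (P := PP) (RK := tK) (RL := tL) (Gt := gB) (KA := 4) (C0 := c0B) (x := x) (cn := .npn) rfl trivial (Or.inl rfl) (Or.inr rfl) gokB (g3okB hx hx') (div_S_le (k := 8) (by norm_num) (by norm_num)) ((gatB01 x).n1) (gatB73 hx hx') EG.X123_075p ⟨⟨232471925, by norm_num, by norm_num⟩, by norm_num, by decide⟩ (by norm_num) hx hx'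

theorem sG_B113_070m {x : ℝ} (hx : ((697932185 : ℕ) : ℝ) / S ≤ x) (hx' : x ≤ (((697932185 : ℕ) : ℝ) + (42949674 : ℕ)) / S) :
    Sg12B PP tK tL true 0 .nn 1 1 0 7 false 0 67108864 16777216 x :=
  sg12B_of (P := PP) (RK := tK) (RL := tL) (Gt := gB) (pc := pcB) (KA := 4) (C0 := c0B) rfl trivial (Or.inl rfl) (Or.inl rfl) (lo := true) (up := false) (sideB hx hx') gokB (g3okB hx hx') (xr0 hx hx').1 (xr0 hx hx').2 (div_S_le (k := 8) (by norm_num) (by norm_num)) ((gatB01 x).n1) (gatB73 hx hx') (fun _ => (gatB01 x).n1) (fun _ h => absurd h (by decide)) EG.B113_070m ⟨by norm_num, by norm_num, rfl⟩ (by norm_num) hx hx'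

theorem sW_B113_070m {x : ℝ} (hx : ((697932185 : ℕ) : ℝ) / S ≤ x) (hx' : x ≤ (((697932185 : ℕ) : ℝ) + (42949674 : ℕ)) / S) :
    Sg12BW PP tK tL tU 3 (eng.v x) (mog.v x) .nn 1 1 0 7 false 0 67108864 16777216 x :=
  sg12BW_of (P := PP) (RK := tK) (RL := tL) (RC := tU) (Gt := gB) (Dt := dB) (pc := pcB) (KA := 4) (N0 := 3) (C0 := c0B) (En := eng) (mo := mog) rfl trivial (Or.inl rfl) (Or.inl rfl) (lo := true) (up := false) (sideB hx hx') gokB (pinU hx hx') dokB (g3cB hx hx') (g3okB hx hx') (xr0 hx hx').1 (xr0 hx hx').2 (div_S_le (k := 8) (by norm_num) (by norm_num)) ((gatB01 x).n1) (gatB73 hx hx') (fun _ => (gatB01 x).n1) (fun _ h => absurd h (by decide)) ((datB01 x).n1) (datB73 hx hx') (fun _ => (datB01 x).n1) (fun _ h => absurd h (by decide)) EW.B113_070m ⟨by norm_num, by norm_num, rfl⟩ (by norm_num) hx hx'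

theorem sG_B113_071m {x : ℝ} (hx : ((697932185 : ℕ) : ℝ) / S ≤ x) (hx' : x ≤ (((697932185 : ℕ) : ℝ) + (42949674 : ℕ)) / S) :
    Sg12B PP tK tL true 0 .nn 1 1 0 7 false 1 67108864 16777216 x :=
  sg12B_of (P := PP) (RK := tK) (RL := tL) (Gt := gB) (pc := pcB) (KA := 4) (C0 := c0B) rfl trivial (Or.inl rfl) (Or.inl rfl) (lo := false) (up := false) (sideB hx hx') gokB (g3okB hx hx') (xr0 hx hx').1 (xr0 hx hx').2 (div_S_le (k := 8) (by norm_num) (by norm_num)) ((gatB01 x).n1) (gatB73 hx hx') (fun h => absurd h (by decide)) (fun h _ => absurd h (by decide)) EG.B113_071m ⟨by norm_num, by norm_num, rfl⟩ (by norm_num) hx hx'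

theorem sW_B113_071m {x : ℝ} (hx : ((697932185 : ℕ) : ℝ) / S ≤ x) (hx' : x ≤ (((697932185 : ℕ) : ℝ) + (42949674 : ℕ)) / S) :
    Sg12BW PP tK tL tU 3 (eng.v x) (mog.v x) .nn 1 1 0 7 false 1 67108864 16777216 x :=
  sg12BW_of (P := PP) (RK := tK) (RL := tL) (RC := tU) (Gt := gB) (Dt := dB) (pc := pcB) (KA := 4) (N0 := 3) (C0 := c0B) (En := eng) (mo := mog) rfl trivial (Or.inl rfl) (Or.inl rfl) (lo := false) (up := false) (sideB hx hx') gokB (pinU hx hx') dokB (g3cB hx hx') (g3okB hx hx') (xr0 hx hx').1 (xr0 hx hx').2 (div_S_le (k := 8) (by norm_num) (by norm_num)) ((gatB01 x).n1) (gatB73 hx hx') (fun h => absurd h (by decide)) (fun h _ => absurd h (by decide)) ((datB01 x).n1) (datB73 hx hx') (fun h => absurd h (by decide)) (fun h _ => absurd h (by decide)) EW.B113_071m ⟨by norm_num, by norm_num, rfl⟩ (by norm_num) hx hx'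

theorem sG_X113_072m {x : ℝ} (hx : ((697932185 : ℕ) : ℝ) / S ≤ x) (hx' : x ≤ (((697932185 : ℕ) : ℝ) + (42949674 : ℕ)) / S) :
    Ex12B PP 1 1 0 7 false 2 67108864 16777216 :=
  ex12B_of (P := PP) (RK := tK) (RL := tL) (Gt := gB) (KA := 4) (C0 := c0B) (x := x) (cn := .nn) rfl trivial (Or.inl rfl) (Or.inl rfl) gokB (g3okB hx hx') (div_S_le (k := 8) (by norm_num) (by norm_num)) ((gatB01 x).n1) (gatB73 hx hx') EG.X113_072m ⟨by norm_num, by norm_num, rfl⟩ (by norm_num) hx hx'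

theorem sG_B123_070m {x : ℝ} (hx : ((697932185 : ℕ) : ℝ) / S ≤ x) (hx' : x ≤ (((697932185 : ℕ) : ℝ) + (42949674 : ℕ)) / S) :
    Sg12B PP tK tL true 0 .npn 1 2 0 7 false 0 67108864 16777216 x :=
  sg12B_of (P := PP) (RK := tK) (RL := tL) (Gt := gB) (pc := pcB) (KA := 4) (C0 := c0B) rfl trivial (Or.inl rfl) (Or.inr rfl) (lo := true) (up := true) (sideB hx hx') gokB (g3okB hx hx') (xr0 hx hx').1 (xr0 hx hx').2 (div_S_le (k := 8) (by norm_num) (by norm_num)) ((gatB01 x).n1) (gatB73 hx hx') (fun _ => (gatB02 x).n1) (fun _ _ => (gatB12 x).n1) EG.B123_070m ⟨⟨232471925, by norm_num, by norm_num⟩, by norm_num, by decide⟩ (by norm_num) hx hx'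

theorem sW_B123_070m {x : ℝ} (hx : ((697932185 : ℕ) : ℝ) / S ≤ x) (hx' : x ≤ (((697932185 : ℕ) : ℝ) + (42949674 : ℕ)) / S) :
    Sg12BW PP tK tL tU 3 (eng.v x) (mog.v x) .npn 1 2 0 7 false 0 67108864 16777216 x :=
  sg12BW_of (P := PP) (RK := tK) (RL := tL) (RC := tU) (Gt := gB) (Dt := dB) (pc := pcB) (KA := 4) (N0 := 3) (C0 := c0B) (En := eng) (mo := mog) rfl trivial (Or.inl rfl) (Or.inr rfl) (lo := true) (up := true) (sideB hx hx') gokB (pinU hx hx') dokB (g3cB hx hx') (g3okB hx hx') (xr0 hx hx').1 (xr0 hx hx').2 (div_S_le (k := 8) (by norm_num) (by norm_num)) ((gatB01 x).n1) (gatB73 hx hx') (fun _ => (gatB02 x).n1) (fun _ _ => (gatB12 x).n1) ((datB01 x).n1) (datB73 hx hx') (fun _ => (datB02 x).n1) (fun _ _ => (datB12 x).n1) EW.B123_070m ⟨⟨232471925, by norm_num, by norm_num⟩, by norm_num, by decide⟩ (by norm_num) hx hx'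

theorem sG_B123_071m {x : ℝ} (hx : ((697932185 : ℕ) : ℝ) / S ≤ x) (hx' : x ≤ (((697932185 : ℕ) : ℝ) + (42949674 : ℕ)) / S) :
    Sg12B PP tK tL true 0 .npn 1 2 0 7 false 1 67108864 16777216 x :=
  sg12B_of (P := PP) (RK := tK) (RL := tL) (Gt := gB) (pc := pcB) (KA := 4) (C0 := c0B) rfl trivial (Or.inl rfl) (Or.inr rfl) (lo := true) (up := true) (sideB hx hx') gokB (g3okB hx hx') (xr0 hx hx').1 (xr0 hx hx').2 (div_S_le (k := 8) (by norm_num) (by norm_num)) ((gatB01 x).n1) (gatB73 hx hx') (fun _ => (gatB12 x).n1) (fun _ _ => (gatB22 x).n1) EG.B123_071m ⟨⟨232471925, by norm_num, by norm_num⟩, by norm_num, by decide⟩ (by norm_num) hx hx'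

theorem sW_B123_071m {x : ℝ} (hx : ((697932185 : ℕ) : ℝ) / S ≤ x) (hx' : x ≤ (((697932185 : ℕ) : ℝ) + (42949674 : ℕ)) / S) :
    Sg12BW PP tK tL tU 3 (eng.v x) (mog.v x) .npn 1 2 0 7 false 1 67108864 16777216 x :=
  sg12BW_of (P := PP) (RK := tK) (RL := tL) (RC := tU) (Gt := gB) (Dt := dB) (pc := pcB) (KA := 4) (N0 := 3) (C0 := c0B) (En := eng) (mo := mog) rfl trivial (Or.inl rfl) (Or.inr rfl) (lo := true) (up := true) (sideB hx hx') gokB (pinU hx hx') dokB (g3cB hx hx') (g3okB hx hx') (xr0 hx hx').1 (xr0 hx hx').2 (div_S_le (k := 8) (by norm_num) (by norm_num)) ((gatB01 x).n1) (gatB73 hx hx') (fun _ => (gatB12 x).n1) (fun _ _ => (gatB22 x).n1) ((datB01 x).n1) (datB73 hx hx') (fun _ => (datB12 x).n1) (fun _ _ => (datB22 x).n1) EW.B123_071m ⟨⟨232471925, by norm_num, by norm_num⟩, by norm_num, by decide⟩ (by norm_num) hx hx'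

theorem sG_B123_072m {x : ℝ} (hx : ((697932185 : ℕ) : ℝ) / S ≤ x) (hx' : x ≤ (((697932185 : ℕ) : ℝ) + (42949674 : ℕ)) / S) :
    Sg12B PP tK tL true 0 .npn 1 2 0 7 false 2 67108864 16777216 x :=
  sg12B_of (P := PP) (RK := tK) (RL := tL) (Gt := gB) (pc := pcB) (KA := 4) (C0 := c0B) rfl trivial (Or.inl rfl) (Or.inr rfl) (lo := true) (up := true) (sideB hx hx') gokB (g3okB hx hx') (xr0 hx hx').1 (xr0 hx hx').2 (div_S_le (k := 8) (by norm_num) (by norm_num)) ((gatB01 x).n1) (gatB73 hx hx') (fun _ => (gatB22 x).n1) (fun _ _ => (gatB32 x).n1) EG.B123_072m ⟨⟨232471925, by norm_num, by norm_num⟩, by norm_num, by decide⟩ (by norm_num) hx hx'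

theorem sW_B123_072m {x : ℝ} (hx : ((697932185 : ℕ) : ℝ) / S ≤ x) (hx' : x ≤ (((697932185 : ℕ) : ℝ) + (42949674 : ℕ)) / S) :
    Sg12BW PP tK tL tU 3 (eng.v x) (mog.v x) .npn 1 2 0 7 false 2 67108864 16777216 x :=
  sg12BW_of (P := PP) (RK := tK) (RL := tL) (RC := tU) (Gt := gB) (Dt := dB) (pc := pcB) (KA := 4) (N0 := 3) (C0 := c0B) (En := eng) (mo := mog) rfl trivial (Or.inl rfl) (Or.inr rfl) (lo := true) (up := true) (sideB hx hx') gokB (pinU hx hx') dokB (g3cB hx hx') (g3okB hx hx') (xr0 hx hx').1 (xr0 hx hx').2 (div_S_le (k := 8) (by norm_num) (by norm_num)) ((gatB01 x).n1) (gatB73 hx hx') (fun _ => (gatB22 x).n1) (fun _ _ => (gatB32 x).n1) ((datB01 x).n1) (datB73 hx hx') (fun _ => (datB22 x).n1) (fun _ _ => (datB32 x).n1) EW.B123_072m ⟨⟨232471925, by norm_num, by norm_num⟩, by norm_num, by decide⟩ (by norm_num) hx hx'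

theorem sG_B123_073m {x : ℝ} (hx : ((697932185 : ℕ) : ℝ) / S ≤ x) (hx' : x ≤ (((697932185 : ℕ) : ℝ) + (42949674 : ℕ)) / S) :
    Sg12B PP tK tL true 0 .npn 1 2 0 7 false 3 67108864 16777216 x :=
  sg12B_of (P := PP) (RK := tK) (RL := tL) (Gt := gB) (pc := pcB) (KA := 4) (C0 := c0B) rfl trivial (Or.inl rfl) (Or.inr rfl) (lo := true) (up := true) (sideB hx hx') gokB (g3okB hx hx') (xr0 hx hx').1 (xr0 hx hx').2 (div_S_le (k := 8) (by norm_num) (by norm_num)) ((gatB01 x).n1) (gatB73 hx hx') (fun _ => (gatB32 x).n1) (fun _ _ => (gatB42 x).n1) EG.B123_073m ⟨⟨232471925, by norm_num, by norm_num⟩, by norm_num, by decide⟩ (by norm_num) hx hx'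

theorem sW_B123_073m {x : ℝ} (hx : ((697932185 : ℕ) : ℝ) / S ≤ x) (hx' : x ≤ (((697932185 : ℕ) : ℝ) + (42949674 : ℕ)) / S) :
    Sg12BW PP tK tL tU 3 (eng.v x) (mog.v x) .npn 1 2 0 7 false 3 67108864 16777216 x :=
  sg12BW_of (P := PP) (RK := tK) (RL := tL) (RC := tU) (Gt := gB) (Dt := dB) (pc := pcB) (KA := 4) (N0 := 3) (C0 := c0B) (En := eng) (mo := mog) rfl trivial (Or.inl rfl) (Or.inr rfl) (lo := true) (up := true) (sideB hx hx') gokB (pinU hx hx') dokB (g3cB hx hx') (g3okB hx hx') (xr0 hx hx').1 (xr0 hx hx').2 (div_S_le (k := 8) (by norm_num) (by norm_num)) ((gatB01 x).n1) (gatB73 hx hx') (fun _ => (gatB32 x).n1) (fun _ _ => (gatB42 x).n1) ((datB01 x).n1) (datB73 hx hx') (fun _ => (datB32 x).n1) (fun _ _ => (datB42 x).n1) EW.B123_073m ⟨⟨232471925, by norm_num, by norm_num⟩, by norm_num, by decide⟩ (by norm_num) hx hx'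

theorem sG_B123_074m {x : ℝ} (hx : ((697932185 : ℕ) : ℝ) / S ≤ x) (hx' : x ≤ (((697932185 : ℕ) : ℝ) + (42949674 : ℕ)) / S) :
    Sg12B PP tK tL true 0 .npn 1 2 0 7 false 4 67108864 16777216 x :=
  sg12B_of (P := PP) (RK := tK) (RL := tL) (Gt := gB) (pc := pcB) (KA := 4) (C0 := c0B) rfl trivial (Or.inl rfl) (Or.inr rfl) (lo := true) (up := false) (sideB hx hx') gokB (g3okB hx hx') (xr0 hx hx').1 (xr0 hx hx').2 (div_S_le (k := 8) (by norm_num) (by norm_num)) ((gatB01 x).n1) (gatB73 hx hx') (fun _ => (gatB42 x).n1) (fun _ h => absurd h (by decide)) EG.B123_074m ⟨⟨232471925, by norm_num, by norm_num⟩, by norm_num, by decide⟩ (by norm_num) hx hx'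

theorem sW_B123_074m {x : ℝ} (hx : ((697932185 : ℕ) : ℝ) / S ≤ x) (hx' : x ≤ (((697932185 : ℕ) : ℝ) + (42949674 : ℕ)) / S) :
    Sg12BW PP tK tL tU 3 (eng.v x) (mog.v x) .npn 1 2 0 7 false 4 67108864 16777216 x :=
  sg12BW_of (P := PP) (RK := tK) (RL := tL) (RC := tU) (Gt := gB) (Dt := dB) (pc := pcB) (KA := 4) (N0 := 3) (C0 := c0B) (En := eng) (mo := mog) rfl trivial (Or.inl rfl) (Or.inr rfl) (lo := true) (up := false) (sideB hx hx') gokB (pinU hx hx') dokB (g3cB hx hx') (g3okB hx hx') (xr0 hx hx').1 (xr0 hx hx').2 (div_S_le (k := 8) (by norm_num) (by norm_num)) ((gatB01 x).n1) (gatB73 hx hx') (fun _ => (gatB42 x).n1) (fun _ h => absurd h (by decide)) ((datB01 x).n1) (datB73 hx hx') (fun _ => (datB42 x).n1) (fun _ h => absurd h (by decide)) EW.B123_074m ⟨⟨232471925, by norm_num, by norm_num⟩, by norm_num, by decide⟩ (by norm_num) hx hx'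

theorem sG_B123_075m {x : ℝ} (hx : ((697932185 : ℕ) : ℝ) / S ≤ x) (hx' : x ≤ (((697932185 : ℕ) : ℝ) + (42949674 : ℕ)) / S) :
    Sg12B PP tK tL true 0 .npn 1 2 0 7 false 5 67108864 16777216 x :=
  sg12B_of (P := PP) (RK := tK) (RL := tL) (Gt := gB) (pc := pcB) (KA := 4) (C0 := c0B) rfl trivial (Or.inl rfl) (Or.inr rfl) (lo := false) (up := false) (sideB hx hx') gokB (g3okB hx hx') (xr0 hx hx').1 (xr0 hx hx').2 (div_S_le (k := 8) (by norm_num) (by norm_num)) ((gatB01 x).n1) (gatB73 hx hx') (fun h => absurd h (by decide)) (fun h _ => absurd h (by decide)) EG.B123_075m ⟨⟨232471925, by norm_num, by norm_num⟩, by norm_num, by decide⟩ (by norm_num) hx hx'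

theorem sW_B123_075m {x : ℝ} (hx : ((697932185 : ℕ) : ℝ) / S ≤ x) (hx' : x ≤ (((697932185 : ℕ) : ℝ) + (42949674 : ℕ)) / S) :
    Sg12BW PP tK tL tU 3 (eng.v x) (mog.v x) .npn 1 2 0 7 false 5 67108864 16777216 x :=
  sg12BW_of (P := PP) (RK := tK) (RL := tL) (RC := tU) (Gt := gB) (Dt := dB) (pc := pcB) (KA := 4) (N0 := 3) (C0 := c0B) (En := eng) (mo := mog) rfl trivial (Or.inl rfl) (Or.inr rfl) (lo := false) (up := false) (sideB hx hx') gokB (pinU hx hx') dokB (g3cB hx hx') (g3okB hx hx') (xr0 hx hx').1 (xr0 hx hx').2 (div_S_le (k := 8) (by norm_num) (by norm_num)) ((gatB01 x).n1) (gatB73 hx hx') (fun h => absurd h (by decide)) (fun h _ => absurd h (by decide)) ((datB01 x).n1) (datB73 hx hx') (fun h => absurd h (by decide)) (fun h _ => absurd h (by decide)) EW.B123_075m ⟨⟨232471925, by norm_num, by norm_num⟩, by norm_num, by decide⟩ (by norm_num) hx hx'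

theorem sG_X123_076m {x : ℝ} (hx : ((697932185 : ℕ) : ℝ) / S ≤ x) (hx' : x ≤ (((697932185 : ℕ) : ℝ) + (42949674 : ℕ)) / S) :
    Ex12B PP 1 2 0 7 false 6 67108864 16777216 :=
  ex12B_of (P := PP) (RK := tK) (RL := tL) (Gt := gB) (KA := 4) (C0 := c0B) (x := x) (cn := .npn) rfl trivial (Or.inl rfl) (Or.inr rfl) gokB (g3okB hx hx') (div_S_le (k := 8) (by norm_num) (by norm_num)) ((gatB01 x).n1) (gatB73 hx hx') EG.X123_076m ⟨⟨232471925, by norm_num, by norm_num⟩, by norm_num, by decide⟩ (by norm_num) hx hx'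

theorem sG_B213_071m {x : ℝ} (hx : ((697932185 : ℕ) : ℝ) / S ≤ x) (hx' : x ≤ (((697932185 : ℕ) : ℝ) + (42949674 : ℕ)) / S) :
    Sg12B PP tK tL true 0 .pnn 2 1 0 7 false 1 67108864 16777216 x :=
  sg12B_of (P := PP) (RK := tK) (RL := tL) (Gt := gB) (pc := pcB) (KA := 4) (C0 := c0B) rfl trivial (Or.inr rfl) (Or.inl rfl) (lo := false) (up := false) (sideB hx hx') gokB (g3okB hx hx') (xr0 hx hx').1 (xr0 hx hx').2 (div_S_le (k := 8) (by norm_num) (by norm_num)) ((gatB02 x).n1) (gatB73 hx hx') (fun h => absurd h (by decide)) (fun h _ => absurd h (by decide)) EG.B213_071m ⟨⟨232471925, by norm_num, by norm_num⟩, by norm_num, by decide⟩ (by norm_num) hx hx'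

theorem sW_B213_071m {x : ℝ} (hx : ((697932185 : ℕ) : ℝ) / S ≤ x) (hx' : x ≤ (((697932185 : ℕ) : ℝ) + (42949674 : ℕ)) / S) :
    Sg12BW PP tK tL tU 3 (eng.v x) (mog.v x) .pnn 2 1 0 7 false 1 67108864 16777216 x :=
  sg12BW_of (P := PP) (RK := tK) (RL := tL) (RC := tU) (Gt := gB) (Dt := dB) (pc := pcB) (KA := 4) (N0 := 3) (C0 := c0B) (En := eng) (mo := mog) rfl trivial (Or.inr rfl) (Or.inl rfl) (lo := false) (up := false) (sideB hx hx') gokB (pinU hx hx') dokB (g3cB hx hx') (g3okB hx hx') (xr0 hx hx').1 (xr0 hx hx').2 (div_S_le (k := 8) (by norm_num) (by norm_num)) ((gatB02 x).n1) (gatB73 hx hx') (fun h => absurd h (by decide)) (fun h _ => absurd h (by decide)) ((datB02 x).n1) (datB73 hx hx') (fun h => absurd h (by decide)) (fun h _ => absurd h (by decide)) EW.B213_071m ⟨⟨232471925, by norm_num, by norm_num⟩, by norm_num, by decide⟩ (by norm_num) hx hx'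

theorem sG_X213_072m {x : ℝ} (hx : ((697932185 : ℕ) : ℝ) / S ≤ x) (hx' : x ≤ (((697932185 : ℕ) : ℝ) + (42949674 : ℕ)) / S) :
    Ex12B PP 2 1 0 7 false 2 67108864 16777216 :=
  ex12B_of (P := PP) (RK := tK) (RL := tL) (Gt := gB) (KA := 4) (C0 := c0B) (x := x) (cn := .pnn) rfl trivial (Or.inr rfl) (Or.inl rfl) gokB (g3okB hx hx') (div_S_le (k := 8) (by norm_num) (by norm_num)) ((gatB02 x).n1) (gatB73 hx hx') EG.X213_072m ⟨⟨232471925, by norm_num, by norm_num⟩, by norm_num, by decide⟩ (by norm_num) hx hx'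

theorem sG_B213_170m {x : ℝ} (hx : ((697932185 : ℕ) : ℝ) / S ≤ x) (hx' : x ≤ (((697932185 : ℕ) : ℝ) + (42949674 : ℕ)) / S) :
    Sg12B PP tK tL true 0 .pnn 2 1 1 7 false 0 67108864 16777216 x :=
  sg12B_of (P := PP) (RK := tK) (RL := tL) (Gt := gB) (pc := pcB) (KA := 4) (C0 := c0B) rfl trivial (Or.inr rfl) (Or.inl rfl) (lo := true) (up := false) (sideB hx hx') gokB (g3okB hx hx') (xr0 hx hx').1 (xr0 hx hx').2 (div_S_le (k := 8) (by norm_num) (by norm_num)) ((gatB12 x).n1) (gatB73 hx hx') (fun _ => (gatB01 x).n1) (fun _ h => absurd h (by decide)) EG.B213_170m ⟨⟨232471925, by norm_num, by norm_num⟩, by norm_num, by decide⟩ (by norm_num) hx hx'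

theorem sW_B213_170m {x : ℝ} (hx : ((697932185 : ℕ) : ℝ) / S ≤ x) (hx' : x ≤ (((697932185 : ℕ) : ℝ) + (42949674 : ℕ)) / S) :
    Sg12BW PP tK tL tU 3 (eng.v x) (mog.v x) .pnn 2 1 1 7 false 0 67108864 16777216 x :=
  sg12BW_of (P := PP) (RK := tK) (RL := tL) (RC := tU) (Gt := gB) (Dt := dB) (pc := pcB) (KA := 4) (N0 := 3) (C0 := c0B) (En := eng) (mo := mog) rfl trivial (Or.inr rfl) (Or.inl rfl) (lo := true) (up := false) (sideB hx hx') gokB (pinU hx hx') dokB (g3cB hx hx') (g3okB hx hx') (xr0 hx hx').1 (xr0 hx hx').2 (div_S_le (k := 8) (by norm_num) (by norm_num)) ((gatB12 x).n1) (gatB73 hx hx') (fun _ => (gatB01 x).n1) (fun _ h => absurd h (by decide)) ((datB12 x).n1) (datB73 hx hx') (fun _ => (datB01 x).n1) (fun _ h => absurd h (by decide)) EW.B213_170m ⟨⟨232471925, by norm_num, by norm_num⟩, by norm_num, by decide⟩ (by norm_num) hx hx'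

theorem sG_B213_171m {x : ℝ} (hx : ((697932185 : ℕ) : ℝ) / S ≤ x) (hx' : x ≤ (((697932185 : ℕ) : ℝ) + (42949674 : ℕ)) / S) :
    Sg12B PP tK tL true 0 .pnn 2 1 1 7 false 1 67108864 16777216 x :=
  sg12B_of (P := PP) (RK := tK) (RL := tL) (Gt := gB) (pc := pcB) (KA := 4) (C0 := c0B) rfl trivial (Or.inr rfl) (Or.inl rfl) (lo := false) (up := false) (sideB hx hx') gokB (g3okB hx hx') (xr0 hx hx').1 (xr0 hx hx').2 (div_S_le (k := 8) (by norm_num) (by norm_num)) ((gatB12 x).n1) (gatB73 hx hx') (fun h => absurd h (by decide)) (fun h _ => absurd h (by decide)) EG.B213_171m ⟨⟨232471925, by norm_num, by norm_num⟩, by norm_num, by decide⟩ (by norm_num) hx hx'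

theorem sW_B213_171m {x : ℝ} (hx : ((697932185 : ℕ) : ℝ) / S ≤ x) (hx' : x ≤ (((697932185 : ℕ) : ℝ) + (42949674 : ℕ)) / S) :
    Sg12BW PP tK tL tU 3 (eng.v x) (mog.v x) .pnn 2 1 1 7 false 1 67108864 16777216 x :=
  sg12BW_of (P := PP) (RK := tK) (RL := tL) (RC := tU) (Gt := gB) (Dt := dB) (pc := pcB) (KA := 4) (N0 := 3) (C0 := c0B) (En := eng) (mo := mog) rfl trivial (Or.inr rfl) (Or.inl rfl) (lo := false) (up := false) (sideB hx hx') gokB (pinU hx hx') dokB (g3cB hx hx') (g3okB hx hx') (xr0 hx hx').1 (xr0 hx hx').2 (div_S_le (k := 8) (by norm_num) (by norm_num)) ((gatB12 x).n1) (gatB73 hx hx') (fun h => absurd h (by decide)) (fun h _ => absurd h (by decide)) ((datB12 x).n1) (datB73 hx hx') (fun h => absurd h (by decide)) (fun h _ => absurd h (by decide)) EW.B213_171m ⟨⟨232471925, by norm_num, by norm_num⟩, by norm_num, by decide⟩ (by norm_num) hx hx'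

theorem sG_X213_172m {x : ℝ} (hx : ((697932185 : ℕ) : ℝ) / S ≤ x) (hx' : x ≤ (((697932185 : ℕ) : ℝ) + (42949674 : ℕ)) / S) :
    Ex12B PP 2 1 1 7 false 2 67108864 16777216 :=
  ex12B_of (P := PP) (RK := tK) (RL := tL) (Gt := gB) (KA := 4) (C0 := c0B) (x := x) (cn := .pnn) rfl trivial (Or.inr rfl) (Or.inl rfl) gokB (g3okB hx hx') (div_S_le (k := 8) (by norm_num) (by norm_num)) ((gatB12 x).n1) (gatB73 hx hx') EG.X213_172m ⟨⟨232471925, by norm_num, by norm_num⟩, by norm_num, by decide⟩ (by norm_num) hx hx'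

theorem sG_B213_270m {x : ℝ} (hx : ((697932185 : ℕ) : ℝ) / S ≤ x) (hx' : x ≤ (((697932185 : ℕ) : ℝ) + (42949674 : ℕ)) / S) :
    Sg12B PP tK tL true 0 .pnn 2 1 2 7 false 0 67108864 16777216 x :=
  sg12B_of (P := PP) (RK := tK) (RL := tL) (Gt := gB) (pc := pcB) (KA := 4) (C0 := c0B) rfl trivial (Or.inr rfl) (Or.inl rfl) (lo := true) (up := false) (sideB hx hx') gokB (g3okB hx hx') (xr0 hx hx').1 (xr0 hx hx').2 (div_S_le (k := 8) (by norm_num) (by norm_num)) ((gatB22 x).n1) (gatB73 hx hx') (fun _ => (gatB01 x).n1) (fun _ h => absurd h (by decide)) EG.B213_270m ⟨⟨232471925, by norm_num, by norm_num⟩, by norm_num, by decide⟩ (by norm_num) hx hx'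

theorem sW_B213_270m {x : ℝ} (hx : ((697932185 : ℕ) : ℝ) / S ≤ x) (hx' : x ≤ (((697932185 : ℕ) : ℝ) + (42949674 : ℕ)) / S) :
    Sg12BW PP tK tL tU 3 (eng.v x) (mog.v x) .pnn 2 1 2 7 false 0 67108864 16777216 x :=
  sg12BW_of (P := PP) (RK := tK) (RL := tL) (RC := tU) (Gt := gB) (Dt := dB) (pc := pcB) (KA := 4) (N0 := 3) (C0 := c0B) (En := eng) (mo := mog) rfl trivial (Or.inr rfl) (Or.inl rfl) (lo := true) (up := false) (sideB hx hx') gokB (pinU hx hx') dokB (g3cB hx hx') (g3okB hx hx') (xr0 hx hx').1 (xr0 hx hx').2 (div_S_le (k := 8) (by norm_num) (by norm_num)) ((gatB22 x).n1) (gatB73 hx hx') (fun _ => (gatB01 x).n1) (fun _ h => absurd h (by decide)) ((datB22 x).n1) (datB73 hx hx') (fun _ => (datB01 x).n1) (fun _ h => absurd h (by decide)) EW.B213_270m ⟨⟨232471925, by norm_num, by norm_num⟩, by norm_num, by decide⟩ (by norm_num) hx hx'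

theorem sG_B213_271m {x : ℝ} (hx : ((697932185 : ℕ) : ℝ) / S ≤ x) (hx' : x ≤ (((697932185 : ℕ) : ℝ) + (42949674 : ℕ)) / S) :
    Sg12B PP tK tL true 0 .pnn 2 1 2 7 false 1 67108864 16777216 x :=
  sg12B_of (P := PP) (RK := tK) (RL := tL) (Gt := gB) (pc := pcB) (KA := 4) (C0 := c0B) rfl trivial (Or.inr rfl) (Or.inl rfl) (lo := false) (up := false) (sideB hx hx') gokB (g3okB hx hx') (xr0 hx hx').1 (xr0 hx hx').2 (div_S_le (k := 8) (by norm_num) (by norm_num)) ((gatB22 x).n1) (gatB73 hx hx') (fun h => absurd h (by decide)) (fun h _ => absurd h (by decide)) EG.B213_271m ⟨⟨232471925, by norm_num, by norm_num⟩, by norm_num, by decide⟩ (by norm_num) hx hx'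

theorem sW_B213_271m {x : ℝ} (hx : ((697932185 : ℕ) : ℝ) / S ≤ x) (hx' : x ≤ (((697932185 : ℕ) : ℝ) + (42949674 : ℕ)) / S) :
    Sg12BW PP tK tL tU 3 (eng.v x) (mog.v x) .pnn 2 1 2 7 false 1 67108864 16777216 x :=
  sg12BW_of (P := PP) (RK := tK) (RL := tL) (RC := tU) (Gt := gB) (Dt := dB) (pc := pcB) (KA := 4) (N0 := 3) (C0 := c0B) (En := eng) (mo := mog) rfl trivial (Or.inr rfl) (Or.inl rfl) (lo := false) (up := false) (sideB hx hx') gokB (pinU hx hx') dokB (g3cB hx hx') (g3okB hx hx') (xr0 hx hx').1 (xr0 hx hx').2 (div_S_le (k := 8) (by norm_num) (by norm_num)) ((gatB22 x).n1) (gatB73 hx hx') (fun h => absurd h (by decide)) (fun h _ => absurd h (by decide)) ((datB22 x).n1) (datB73 hx hx') (fun h => absurd h (by decide)) (fun h _ => absurd h (by decide)) EW.B213_271m ⟨⟨232471925, by norm_num, by norm_num⟩, by norm_num, by decide⟩ (by norm_num) hx hx'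

theorem sG_X213_272m {x : ℝ} (hx : ((697932185 : ℕ) : ℝ) / S ≤ x) (hx' : x ≤ (((697932185 : ℕ) : ℝ) + (42949674 : ℕ)) / S) :
    Ex12B PP 2 1 2 7 false 2 67108864 16777216 :=
  ex12B_of (P := PP) (RK := tK) (RL := tL) (Gt := gB) (KA := 4) (C0 := c0B) (x := x) (cn := .pnn) rfl trivial (Or.inr rfl) (Or.inl rfl) gokB (g3okB hx hx') (div_S_le (k := 8) (by norm_num) (by norm_num)) ((gatB22 x).n1) (gatB73 hx hx') EG.X213_272m ⟨⟨232471925, by norm_num, by norm_num⟩, by norm_num, by decide⟩ (by norm_num) hx hx'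

theorem sG_B213_370m {x : ℝ} (hx : ((697932185 : ℕ) : ℝ) / S ≤ x) (hx' : x ≤ (((697932185 : ℕ) : ℝ) + (42949674 : ℕ)) / S) :
    Sg12B PP tK tL true 0 .pnn 2 1 3 7 false 0 67108864 16777216 x :=
  sg12B_of (P := PP) (RK := tK) (RL := tL) (Gt := gB) (pc := pcB) (KA := 4) (C0 := c0B) rfl trivial (Or.inr rfl) (Or.inl rfl) (lo := true) (up := false) (sideB hx hx') gokB (g3okB hx hx') (xr0 hx hx').1 (xr0 hx hx').2 (div_S_le (k := 8) (by norm_num) (by norm_num)) ((gatB32 x).n1) (gatB73 hx hx') (fun _ => (gatB01 x).n1) (fun _ h => absurd h (by decide)) EG.B213_370m ⟨⟨232471925, by norm_num, by norm_num⟩, by norm_num, by decide⟩ (by norm_num) hx hx'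

theorem sW_B213_370m {x : ℝ} (hx : ((697932185 : ℕ) : ℝ) / S ≤ x) (hx' : x ≤ (((697932185 : ℕ) : ℝ) + (42949674 : ℕ)) / S) :
    Sg12BW PP tK tL tU 3 (eng.v x) (mog.v x) .pnn 2 1 3 7 false 0 67108864 16777216 x :=
  sg12BW_of (P := PP) (RK := tK) (RL := tL) (RC := tU) (Gt := gB) (Dt := dB) (pc := pcB) (KA := 4) (N0 := 3) (C0 := c0B) (En := eng) (mo := mog) rfl trivial (Or.inr rfl) (Or.inl rfl) (lo := true) (up := false) (sideB hx hx') gokB (pinU hx hx') dokB (g3cB hx hx') (g3okB hx hx') (xr0 hx hx').1 (xr0 hx hx').2 (div_S_le (k := 8) (by norm_num) (by norm_num)) ((gatB32 x).n1) (gatB73 hx hx') (fun _ => (gatB01 x).n1) (fun _ h => absurd h (by decide)) ((datB32 x).n1) (datB73 hx hx') (fun _ => (datB01 x).n1) (fun _ h => absurd h (by decide)) EW.B213_370m ⟨⟨232471925, by norm_num, by norm_num⟩, by norm_num, by decide⟩ (by norm_num) hx hx'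

theorem sG_B213_371m {x : ℝ} (hx : ((697932185 : ℕ) : ℝ) / S ≤ x) (hx' : x ≤ (((697932185 : ℕ) : ℝ) + (42949674 : ℕ)) / S) :
    Sg12B PP tK tL true 0 .pnn 2 1 3 7 false 1 67108864 16777216 x :=
  sg12B_of (P := PP) (RK := tK) (RL := tL) (Gt := gB) (pc := pcB) (KA := 4) (C0 := c0B) rfl trivial (Or.inr rfl) (Or.inl rfl) (lo := false) (up := false) (sideB hx hx') gokB (g3okB hx hx') (xr0 hx hx').1 (xr0 hx hx').2 (div_S_le (k := 8) (by norm_num) (by norm_num)) ((gatB32 x).n1) (gatB73 hx hx') (fun h => absurd h (by decide)) (fun h _ => absurd h (by decide)) EG.B213_371m ⟨⟨232471925, by norm_num, by norm_num⟩, by norm_num, by decide⟩ (by norm_num) hx hx'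

theorem sW_B213_371m {x : ℝ} (hx : ((697932185 : ℕ) : ℝ) / S ≤ x) (hx' : x ≤ (((697932185 : ℕ) : ℝ) + (42949674 : ℕ)) / S) :
    Sg12BW PP tK tL tU 3 (eng.v x) (mog.v x) .pnn 2 1 3 7 false 1 67108864 16777216 x :=
  sg12BW_of (P := PP) (RK := tK) (RL := tL) (RC := tU) (Gt := gB) (Dt := dB) (pc := pcB) (KA := 4) (N0 := 3) (C0 := c0B) (En := eng) (mo := mog) rfl trivial (Or.inr rfl) (Or.inl rfl) (lo := false) (up := false) (sideB hx hx') gokB (pinU hx hx') dokB (g3cB hx hx') (g3okB hx hx') (xr0 hx hx').1 (xr0 hx hx').2 (div_S_le (k := 8) (by norm_num) (by norm_num)) ((gatB32 x).n1) (gatB73 hx hx') (fun h => absurd h (by decide)) (fun h _ => absurd h (by decide)) ((datB32 x).n1) (datB73 hx hx') (fun h => absurd h (by decide)) (fun h _ => absurd h (by decide)) EW.B213_371m ⟨⟨232471925, by norm_num, by norm_num⟩, by norm_num, by decide⟩ (by norm_num) hx hx'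

theorem sG_X213_372m {x : ℝ} (hx : ((697932185 : ℕ) : ℝ) / S ≤ x) (hx' : x ≤ (((697932185 : ℕ) : ℝ) + (42949674 : ℕ)) / S) :
    Ex12B PP 2 1 3 7 false 2 67108864 16777216 :=
  ex12B_of (P := PP) (RK := tK) (RL := tL) (Gt := gB) (KA := 4) (C0 := c0B) (x := x) (cn := .pnn) rfl trivial (Or.inr rfl) (Or.inl rfl) gokB (g3okB hx hx') (div_S_le (k := 8) (by norm_num) (by norm_num)) ((gatB32 x).n1) (gatB73 hx hx') EG.X213_372m ⟨⟨232471925, by norm_num, by norm_num⟩, by norm_num, by decide⟩ (by norm_num) hx hx'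

theorem sG_B213_470m {x : ℝ} (hx : ((697932185 : ℕ) : ℝ) / S ≤ x) (hx' : x ≤ (((697932185 : ℕ) : ℝ) + (42949674 : ℕ)) / S) :
    Sg12B PP tK tL true 0 .pnn 2 1 4 7 false 0 67108864 16777216 x :=
  sg12B_of (P := PP) (RK := tK) (RL := tL) (Gt := gB) (pc := pcB) (KA := 4) (C0 := c0B) rfl trivial (Or.inr rfl) (Or.inl rfl) (lo := true) (up := false) (sideB hx hx') gokB (g3okB hx hx') (xr0 hx hx').1 (xr0 hx hx').2 (div_S_le (k := 8) (by norm_num) (by norm_num)) ((gatB42 x).n1) (gatB73 hx hx') (fun _ => (gatB01 x).n1) (fun _ h => absurd h (by decide)) EG.B213_470m ⟨⟨232471925, by norm_num, by norm_num⟩, by norm_num, by decide⟩ (by norm_num) hx hx'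

theorem sW_B213_470m {x : ℝ} (hx : ((697932185 : ℕ) : ℝ) / S ≤ x) (hx' : x ≤ (((697932185 : ℕ) : ℝ) + (42949674 : ℕ)) / S) :
    Sg12BW PP tK tL tU 3 (eng.v x) (mog.v x) .pnn 2 1 4 7 false 0 67108864 16777216 x :=
  sg12BW_of (P := PP) (RK := tK) (RL := tL) (RC := tU) (Gt := gB) (Dt := dB) (pc := pcB) (KA := 4) (N0 := 3) (C0 := c0B) (En := eng) (mo := mog) rfl trivial (Or.inr rfl) (Or.inl rfl) (lo := true) (up := false) (sideB hx hx') gokB (pinU hx hx') dokB (g3cB hx hx') (g3okB hx hx') (xr0 hx hx').1 (xr0 hx hx').2 (div_S_le (k := 8) (by norm_num) (by norm_num)) ((gatB42 x).n1) (gatB73 hx hx') (fun _ => (gatB01 x).n1) (fun _ h => absurd h (by decide)) ((datB42 x).n1) (datB73 hx hx') (fun _ => (datB01 x).n1) (fun _ h => absurd h (by decide)) EW.B213_470m ⟨⟨232471925, by norm_num, by norm_num⟩, by norm_num, by decide⟩ (by norm_num) hx hx'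

theorem sG_B213_471m {x : ℝ} (hx : ((697932185 : ℕ) : ℝ) / S ≤ x) (hx' : x ≤ (((697932185 : ℕ) : ℝ) + (42949674 : ℕ)) / S) :
    Sg12B PP tK tL true 0 .pnn 2 1 4 7 false 1 67108864 16777216 x :=
  sg12B_of (P := PP) (RK := tK) (RL := tL) (Gt := gB) (pc := pcB) (KA := 4) (C0 := c0B) rfl trivial (Or.inr rfl) (Or.inl rfl) (lo := false) (up := false) (sideB hx hx') gokB (g3okB hx hx') (xr0 hx hx').1 (xr0 hx hx').2 (div_S_le (k := 8) (by norm_num) (by norm_num)) ((gatB42 x).n1) (gatB73 hx hx') (fun h => absurd h (by decide)) (fun h _ => absurd h (by decide)) EG.B213_471m ⟨⟨232471925, by norm_num, by norm_num⟩, by norm_num, by decide⟩ (by norm_num) hx hx'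

theorem sW_B213_471m {x : ℝ} (hx : ((697932185 : ℕ) : ℝ) / S ≤ x) (hx' : x ≤ (((697932185 : ℕ) : ℝ) + (42949674 : ℕ)) / S) :
    Sg12BW PP tK tL tU 3 (eng.v x) (mog.v x) .pnn 2 1 4 7 false 1 67108864 16777216 x :=
  sg12BW_of (P := PP) (RK := tK) (RL := tL) (RC := tU) (Gt := gB) (Dt := dB) (pc := pcB) (KA := 4) (N0 := 3) (C0 := c0B) (En := eng) (mo := mog) rfl trivial (Or.inr rfl) (Or.inl rfl) (lo := false) (up := false) (sideB hx hx') gokB (pinU hx hx') dokB (g3cB hx hx') (g3okB hx hx') (xr0 hx hx').1 (xr0 hx hx').2 (div_S_le (k := 8) (by norm_num) (by norm_num)) ((gatB42 x).n1) (gatB73 hx hx') (fun h => absurd h (by decide)) (fun h _ => absurd h (by decide)) ((datB42 x).n1) (datB73 hx hx') (fun h => absurd h (by decide)) (fun h _ => absurd h (by decide)) EW.B213_471m ⟨⟨232471925, by norm_num, by norm_num⟩, by norm_num, by decide⟩ (by norm_num) hx hx'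

theorem sG_X213_472m {x : ℝ} (hx : ((697932185 : ℕ) : ℝ) / S ≤ x) (hx' : x ≤ (((697932185 : ℕ) : ℝ) + (42949674 : ℕ)) / S) :
    Ex12B PP 2 1 4 7 false 2 67108864 16777216 :=
  ex12B_of (P := PP) (RK := tK) (RL := tL) (Gt := gB) (KA := 4) (C0 := c0B) (x := x) (cn := .pnn) rfl trivial (Or.inr rfl) (Or.inl rfl) gokB (g3okB hx hx') (div_S_le (k := 8) (by norm_num) (by norm_num)) ((gatB42 x).n1) (gatB73 hx hx') EG.X213_472m ⟨⟨232471925, by norm_num, by norm_num⟩, by norm_num, by decide⟩ (by norm_num) hx hx'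

theorem alt12B_A113_00 {κ x : ℝ} (hκ : κ * h0 = ken x) (hx : ((697932185 : ℕ) : ℝ) / S ≤ x) (hx' : x ≤ (((697932185 : ℕ) : ℝ) + (42949674 : ℕ)) / S) :
    AltEA 3 κ (eng.v x) (3 / 40) (tnt (h0 * x) (3 / 10)) PP tK tL tC pcB (scP esg pd) [⟨0, 1, 0, 67108864⟩, ⟨1, 1, 0, 67108864⟩, ⟨2, 2, 0, 16777216⟩] 1 1 3 0 0 (sgb true) (sgb false) x := by
  refine altEA12 (altA12 (loc113 (m := 5) (by show 1 ≤ rh 5; simp [rh]; try norm_num) (fun tt i hi => ?_)))
  cases tt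
  · fin_cases i
    · exact (sW_A113_000m hx hx').ve rfl (Or.inl rfl) (Or.inl rfl) (sideB hx hx') hκ (thdB hx hx') (sG_A113_000m hx hx')
    · exact (sW_A113_001m hx hx').ve rfl (Or.inl rfl) (Or.inl rfl) (sideB hx hx') hκ (thdB hx hx') (sG_A113_001m hx hx')
    · exact (sW_A113_002m hx hx').ve rfl (Or.inl rfl) (Or.inl rfl) (sideB hx hx') hκ (thdB hx hx') (sG_A113_002m hx hx')
    · exact (sW_A113_003m hx hx').ve rfl (Or.inl rfl) (Or.inl rfl) (sideB hx hx') hκ (thdB hx hx') (sG_A113_003m hx hx')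
    · exact (sW_A113_004m hx hx').ve rfl (Or.inl rfl) (Or.inl rfl) (sideB hx hx') hκ (thdB hx hx') (sG_A113_004m hx hx')
    · exact absurd hi (by decide)
    · exact absurd hi (by decide)
  · fin_cases i
    · exact (sW_A113_000p hx hx').ve rfl (Or.inl rfl) (Or.inl rfl) (sideB hx hx') hκ (thdB hx hx') (sG_A113_000p hx hx')
    · exact (sW_A113_001p hx hx').ve rfl (Or.inl rfl) (Or.inl rfl) (sideB hx hx') hκ (thdB hx hx') (sG_A113_001p hx hx')
    · exact (sW_A113_002p hx hx').ve rfl (Or.inl rfl) (Or.inl rfl) (sideB hx hx') hκ (thdB hx hx') (sG_A113_002p hx hx')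
    · exact (sW_A113_003p hx hx').ve rfl (Or.inl rfl) (Or.inl rfl) (sideB hx hx') hκ (thdB hx hx') (sG_A113_003p hx hx')
    · exact (sW_A113_004p hx hx').ve rfl (Or.inl rfl) (Or.inl rfl) (sideB hx hx') hκ (thdB hx hx') (sG_A113_004p hx hx')
    · exact absurd hi (by decide)
    · exact absurd hi (by decide)

theorem alt12B_A123_01 {κ x : ℝ} (hκ : κ * h0 = ken x) (hx : ((697932185 : ℕ) : ℝ) / S ≤ x) (hx' : x ≤ (((697932185 : ℕ) : ℝ) + (42949674 : ℕ)) / S)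
    (h4 : SgA (VeA κ x 1 2 0 1) PP tK tL pcB 1 2 0 1 true 4 67108864 16777216 x) :
    (AltEA 3 κ (eng.v x) (3 / 40) (tnt (h0 * x) (3 / 10)) PP tK tL tC pcB (scP esg pd) [⟨0, 1, 0, 67108864⟩, ⟨1, 1, 0, 67108864⟩, ⟨2, 2, 0, 16777216⟩] 1 2 3 0 1 (sgb true) (sgb false) x) := by
  refine altEA12 (altA12 (loc123 (m := 4) (by show rh 4 ≤ 1; simp [rh]; try norm_num) (by show rh 1 ≤ 1; simp [rh]; try norm_num) (fun i hi => ?_)))
  fin_cases i
  · exact absurd hi (by decide)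
  · exact absurd hi (by decide)
  · exact absurd hi (by decide)
  · exact absurd hi (by decide)
  · exact h4
  · exact (sW_A123_015p hx hx').ve rfl (Or.inl rfl) (Or.inr rfl) (sideB hx hx') hκ (thdB hx hx') (sG_A123_015p hx hx')
  · exact (sW_A123_016p hx hx').ve rfl (Or.inl rfl) (Or.inr rfl) (sideB hx hx') hκ (thdB hx hx') (sG_A123_016p hx hx')

theorem alt12B_A123_02 {κ x : ℝ} (hκ : κ * h0 = ken x) (hx : ((697932185 : ℕ) : ℝ) / S ≤ x) (hx' : x ≤ (((697932185 : ℕ) : ℝ) + (42949674 : ℕ)) / S)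
    (h4 : SgA (VeA κ x 1 2 0 2) PP tK tL pcB 1 2 0 2 true 4 67108864 16777216 x) :
    (AltEA 3 κ (eng.v x) (3 / 40) (tnt (h0 * x) (3 / 10)) PP tK tL tC pcB (scP esg pd) [⟨0, 1, 0, 67108864⟩, ⟨1, 1, 0, 67108864⟩, ⟨2, 2, 0, 16777216⟩] 1 2 3 0 2 (sgb true) (sgb false) x) := by
  refine altEA12 (altA12 (loc123 (m := 4) (by show rh 4 ≤ 1; simp [rh]; try norm_num) (by show rh 2 ≤ 1; simp [rh]; try norm_num) (fun i hi => ?_)))
  fin_cases i
  · exact absurd hi (by decide)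
  · exact absurd hi (by decide)
  · exact absurd hi (by decide)
  · exact absurd hi (by decide)
  · exact h4
  · exact (sW_A123_025p hx hx').ve rfl (Or.inl rfl) (Or.inr rfl) (sideB hx hx') hκ (thdB hx hx') (sG_A123_025p hx hx')
  · exact (sW_A123_026p hx hx').ve rfl (Or.inl rfl) (Or.inr rfl) (sideB hx hx') hκ (thdB hx hx') (sG_A123_026p hx hx')

theorem alt12B_A123_03 {κ x : ℝ} (hκ : κ * h0 = ken x) (hx : ((697932185 : ℕ) : ℝ) / S ≤ x) (hx' : x ≤ (((697932185 : ℕ) : ℝ) + (42949674 : ℕ)) / S)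
    (h4 : SgA (VeA κ x 1 2 0 3) PP tK tL pcB 1 2 0 3 true 4 67108864 16777216 x) :
    (AltEA 3 κ (eng.v x) (3 / 40) (tnt (h0 * x) (3 / 10)) PP tK tL tC pcB (scP esg pd) [⟨0, 1, 0, 67108864⟩, ⟨1, 1, 0, 67108864⟩, ⟨2, 2, 0, 16777216⟩] 1 2 3 0 3 (sgb true) (sgb false) x) := by
  refine altEA12 (altA12 (loc123 (m := 4) (by show rh 4 ≤ 1; simp [rh]; try norm_num) (by show rh 3 ≤ 1; simp [rh]; try norm_num) (fun i hi => ?_)))
  fin_cases i
  · exact absurd hi (by decide)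
  · exact absurd hi (by decide)
  · exact absurd hi (by decide)
  · exact absurd hi (by decide)
  · exact h4
  · exact (sW_A123_035p hx hx').ve rfl (Or.inl rfl) (Or.inr rfl) (sideB hx hx') hκ (thdB hx hx') (sG_A123_035p hx hx')
  · exact (sW_A123_036p hx hx').ve rfl (Or.inl rfl) (Or.inr rfl) (sideB hx hx') hκ (thdB hx hx') (sG_A123_036p hx hx')

theorem alt12B_A123_04 {κ x : ℝ} (hκ : κ * h0 = ken x) (hx : ((697932185 : ℕ) : ℝ) / S ≤ x) (hx' : x ≤ (((697932185 : ℕ) : ℝ) + (42949674 : ℕ)) / S)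
    (h4 : SgA (VeA κ x 1 2 0 4) PP tK tL pcB 1 2 0 4 true 4 67108864 16777216 x) :
    (AltEA 3 κ (eng.v x) (3 / 40) (tnt (h0 * x) (3 / 10)) PP tK tL tC pcB (scP esg pd) [⟨0, 1, 0, 67108864⟩, ⟨1, 1, 0, 67108864⟩, ⟨2, 2, 0, 16777216⟩] 1 2 3 0 4 (sgb true) (sgb false) x) := by
  refine altEA12 (altA12 (loc123 (m := 4) (by show rh 4 ≤ 1; simp [rh]; try norm_num) (by show rh 4 ≤ 1; simp [rh]; try norm_num) (fun i hi => ?_)))
  fin_cases i
  · exact absurd hi (by decide)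
  · exact absurd hi (by decide)
  · exact absurd hi (by decide)
  · exact absurd hi (by decide)
  · exact h4
  · exact (sW_A123_045p hx hx').ve rfl (Or.inl rfl) (Or.inr rfl) (sideB hx hx') hκ (thdB hx hx') (sG_A123_045p hx hx')
  · exact (sW_A123_046p hx hx').ve rfl (Or.inl rfl) (Or.inr rfl) (sideB hx hx') hκ (thdB hx hx') (sG_A123_046p hx hx')

theorem alt12B_B113_01p {κ x : ℝ} (hκ : κ * h0 = ken x) (hx : ((697932185 : ℕ) : ℝ) / S ≤ x) (hx' : x ≤ (((697932185 : ℕ) : ℝ) + (42949674 : ℕ)) / S) :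
    AltEB 3 κ (eng.v x) (3 / 40) (tnt (h0 * x) (3 / 10)) PP tK tL tC pcB (scP esg pd) [⟨0, 1, 0, 67108864⟩, ⟨1, 1, 0, 67108864⟩, ⟨2, 2, 0, 16777216⟩] 1 1 3 0 1 (sgb true) (sgb true) x := by
  refine altEB12 (altB12 (locB12 (div_S_le (k := 16) (by norm_num) (by norm_num)) (div_S_le (k := 64) (by norm_num) (by norm_num)) (Or.inl rfl) (m := 1) (fun i hi => ?_) (sG_X113_011p hx hx')))
  fin_cases i
  · exact (sW_B113_010p hx hx').ve rfl (Or.inl rfl) (Or.inl rfl) (sideB hx hx') hκ (thdB hx hx') (sG_B113_010p hx hx')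
  · exact absurd hi (by decide)
  · exact absurd hi (by decide)
  · exact absurd hi (by decide)
  · exact absurd hi (by decide)
  · exact absurd hi (by decide)
  · exact absurd hi (by decide)

theorem alt12B_B113_01m {κ x : ℝ} (hκ : κ * h0 = ken x) (hx : ((697932185 : ℕ) : ℝ) / S ≤ x) (hx' : x ≤ (((697932185 : ℕ) : ℝ) + (42949674 : ℕ)) / S) :
    AltEB 3 κ (eng.v x) (3 / 40) (tnt (h0 * x) (3 / 10)) PP tK tL tC pcB (scP esg pd) [⟨0, 1, 0, 67108864⟩, ⟨1, 1, 0, 67108864⟩, ⟨2, 2, 0, 16777216⟩] 1 1 3 0 1 (sgb true) (sgb false) x := by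
  refine altEB12 (altB12 (locB12 (div_S_le (k := 16) (by norm_num) (by norm_num)) (div_S_le (k := 64) (by norm_num) (by norm_num)) (Or.inl rfl) (m := 1) (fun i hi => ?_) (sG_X113_011m hx hx')))
  fin_cases i
  · exact (sW_B113_010m hx hx').ve rfl (Or.inl rfl) (Or.inl rfl) (sideB hx hx') hκ (thdB hx hx') (sG_B113_010m hx hx')
  · exact absurd hi (by decide)
  · exact absurd hi (by decide)
  · exact absurd hi (by decide)
  · exact absurd hi (by decide)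
  · exact absurd hi (by decide)
  · exact absurd hi (by decide)

theorem alt12B_B113_02p {κ x : ℝ} (hκ : κ * h0 = ken x) (hx : ((697932185 : ℕ) : ℝ) / S ≤ x) (hx' : x ≤ (((697932185 : ℕ) : ℝ) + (42949674 : ℕ)) / S) :
    AltEB 3 κ (eng.v x) (3 / 40) (tnt (h0 * x) (3 / 10)) PP tK tL tC pcB (scP esg pd) [⟨0, 1, 0, 67108864⟩, ⟨1, 1, 0, 67108864⟩, ⟨2, 2, 0, 16777216⟩] 1 1 3 0 2 (sgb true) (sgb true) x := by
  refine altEB12 (altB12 (locB12 (div_S_le (k := 16) (by norm_num) (by norm_num)) (div_S_le (k := 64) (by norm_num) (by norm_num)) (Or.inl rfl) (m := 1) (fun i hi => ?_) (sG_X113_021p hx hx')))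
  fin_cases i
  · exact (sW_B113_020p hx hx').ve rfl (Or.inl rfl) (Or.inl rfl) (sideB hx hx') hκ (thdB hx hx') (sG_B113_020p hx hx')
  · exact absurd hi (by decide)
  · exact absurd hi (by decide)
  · exact absurd hi (by decide)
  · exact absurd hi (by decide)
  · exact absurd hi (by decide)
  · exact absurd hi (by decide)

theorem alt12B_B113_02m {κ x : ℝ} (hκ : κ * h0 = ken x) (hx : ((697932185 : ℕ) : ℝ) / S ≤ x) (hx' : x ≤ (((697932185 : ℕ) : ℝ) + (42949674 : ℕ)) / S) :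
    AltEB 3 κ (eng.v x) (3 / 40) (tnt (h0 * x) (3 / 10)) PP tK tL tC pcB (scP esg pd) [⟨0, 1, 0, 67108864⟩, ⟨1, 1, 0, 67108864⟩, ⟨2, 2, 0, 16777216⟩] 1 1 3 0 2 (sgb true) (sgb false) x := by
  refine altEB12 (altB12 (locB12 (div_S_le (k := 16) (by norm_num) (by norm_num)) (div_S_le (k := 64) (by norm_num) (by norm_num)) (Or.inl rfl) (m := 1) (fun i hi => ?_) (sG_X113_021m hx hx')))
  fin_cases i
  · exact (sW_B113_020m hx hx').ve rfl (Or.inl rfl) (Or.inl rfl) (sideB hx hx') hκ (thdB hx hx') (sG_B113_020m hx hx')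
  · exact absurd hi (by decide)
  · exact absurd hi (by decide)
  · exact absurd hi (by decide)
  · exact absurd hi (by decide)
  · exact absurd hi (by decide)
  · exact absurd hi (by decide)

theorem alt12B_B113_03p {κ x : ℝ} (hκ : κ * h0 = ken x) (hx : ((697932185 : ℕ) : ℝ) / S ≤ x) (hx' : x ≤ (((697932185 : ℕ) : ℝ) + (42949674 : ℕ)) / S) :
    AltEB 3 κ (eng.v x) (3 / 40) (tnt (h0 * x) (3 / 10)) PP tK tL tC pcB (scP esg pd) [⟨0, 1, 0, 67108864⟩, ⟨1, 1, 0, 67108864⟩, ⟨2, 2, 0, 16777216⟩] 1 1 3 0 3 (sgb true) (sgb true) x := by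
  refine altEB12 (altB12 (locB12 (div_S_le (k := 16) (by norm_num) (by norm_num)) (div_S_le (k := 64) (by norm_num) (by norm_num)) (Or.inl rfl) (m := 1) (fun i hi => ?_) (sG_X113_031p hx hx')))
  fin_cases i
  · exact (sW_B113_030p hx hx').ve rfl (Or.inl rfl) (Or.inl rfl) (sideB hx hx') hκ (thdB hx hx') (sG_B113_030p hx hx')
  · exact absurd hi (by decide)
  · exact absurd hi (by decide)
  · exact absurd hi (by decide)
  · exact absurd hi (by decide)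
  · exact absurd hi (by decide)
  · exact absurd hi (by decide)

theorem alt12B_B113_03m {κ x : ℝ} (hκ : κ * h0 = ken x) (hx : ((697932185 : ℕ) : ℝ) / S ≤ x) (hx' : x ≤ (((697932185 : ℕ) : ℝ) + (42949674 : ℕ)) / S) :
    AltEB 3 κ (eng.v x) (3 / 40) (tnt (h0 * x) (3 / 10)) PP tK tL tC pcB (scP esg pd) [⟨0, 1, 0, 67108864⟩, ⟨1, 1, 0, 67108864⟩, ⟨2, 2, 0, 16777216⟩] 1 1 3 0 3 (sgb true) (sgb false) x := by
  refine altEB12 (altB12 (locB12 (div_S_le (k := 16) (by norm_num) (by norm_num)) (div_S_le (k := 64) (by norm_num) (by norm_num)) (Or.inl rfl) (m := 1) (fun i hi => ?_) (sG_X113_031m hx hx')))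
  fin_cases i
  · exact (sW_B113_030m hx hx').ve rfl (Or.inl rfl) (Or.inl rfl) (sideB hx hx') hκ (thdB hx hx') (sG_B113_030m hx hx')
  · exact absurd hi (by decide)
  · exact absurd hi (by decide)
  · exact absurd hi (by decide)
  · exact absurd hi (by decide)
  · exact absurd hi (by decide)
  · exact absurd hi (by decide)

theorem alt12B_B113_04p {κ x : ℝ} (hκ : κ * h0 = ken x) (hx : ((697932185 : ℕ) : ℝ) / S ≤ x) (hx' : x ≤ (((697932185 : ℕ) : ℝ) + (42949674 : ℕ)) / S) :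
    AltEB 3 κ (eng.v x) (3 / 40) (tnt (h0 * x) (3 / 10)) PP tK tL tC pcB (scP esg pd) [⟨0, 1, 0, 67108864⟩, ⟨1, 1, 0, 67108864⟩, ⟨2, 2, 0, 16777216⟩] 1 1 3 0 4 (sgb true) (sgb true) x := by
  refine altEB12 (altB12 (locB12 (div_S_le (k := 16) (by norm_num) (by norm_num)) (div_S_le (k := 64) (by norm_num) (by norm_num)) (Or.inl rfl) (m := 1) (fun i hi => ?_) (sG_X113_041p hx hx')))
  fin_cases i
  · exact (sW_B113_040p hx hx').ve rfl (Or.inl rfl) (Or.inl rfl) (sideB hx hx') hκ (thdB hx hx') (sG_B113_040p hx hx')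
  · exact absurd hi (by decide)
  · exact absurd hi (by decide)
  · exact absurd hi (by decide)
  · exact absurd hi (by decide)
  · exact absurd hi (by decide)
  · exact absurd hi (by decide)

theorem alt12B_B113_04m {κ x : ℝ} (hκ : κ * h0 = ken x) (hx : ((697932185 : ℕ) : ℝ) / S ≤ x) (hx' : x ≤ (((697932185 : ℕ) : ℝ) + (42949674 : ℕ)) / S) :
    AltEB 3 κ (eng.v x) (3 / 40) (tnt (h0 * x) (3 / 10)) PP tK tL tC pcB (scP esg pd) [⟨0, 1, 0, 67108864⟩, ⟨1, 1, 0, 67108864⟩, ⟨2, 2, 0, 16777216⟩] 1 1 3 0 4 (sgb true) (sgb false) x := by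
  refine altEB12 (altB12 (locB12 (div_S_le (k := 16) (by norm_num) (by norm_num)) (div_S_le (k := 64) (by norm_num) (by norm_num)) (Or.inl rfl) (m := 1) (fun i hi => ?_) (sG_X113_041m hx hx')))
  fin_cases i
  · exact (sW_B113_040m hx hx').ve rfl (Or.inl rfl) (Or.inl rfl) (sideB hx hx') hκ (thdB hx hx') (sG_B113_040m hx hx')
  · exact absurd hi (by decide)
  · exact absurd hi (by decide)
  · exact absurd hi (by decide)
  · exact absurd hi (by decide)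
  · exact absurd hi (by decide)
  · exact absurd hi (by decide)

theorem alt12B_B113_05p {κ x : ℝ} (hκ : κ * h0 = ken x) (hx : ((697932185 : ℕ) : ℝ) / S ≤ x) (hx' : x ≤ (((697932185 : ℕ) : ℝ) + (42949674 : ℕ)) / S) :
    AltEB 3 κ (eng.v x) (3 / 40) (tnt (h0 * x) (3 / 10)) PP tK tL tC pcB (scP esg pd) [⟨0, 1, 0, 67108864⟩, ⟨1, 1, 0, 67108864⟩, ⟨2, 2, 0, 16777216⟩] 1 1 3 0 5 (sgb true) (sgb true) x := by
  refine altEB12 (altB12 (locB12 (div_S_le (k := 16) (by norm_num) (by norm_num)) (div_S_le (k := 64) (by norm_num) (by norm_num)) (Or.inl rfl) (m := 1) (fun i hi => ?_) (sG_X113_051p hx hx')))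
  fin_cases i
  · exact (sW_B113_050p hx hx').ve rfl (Or.inl rfl) (Or.inl rfl) (sideB hx hx') hκ (thdB hx hx') (sG_B113_050p hx hx')
  · exact absurd hi (by decide)
  · exact absurd hi (by decide)
  · exact absurd hi (by decide)
  · exact absurd hi (by decide)
  · exact absurd hi (by decide)
  · exact absurd hi (by decide)

theorem alt12B_B113_05m {κ x : ℝ} (hκ : κ * h0 = ken x) (hx : ((697932185 : ℕ) : ℝ) / S ≤ x) (hx' : x ≤ (((697932185 : ℕ) : ℝ) + (42949674 : ℕ)) / S) :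
    AltEB 3 κ (eng.v x) (3 / 40) (tnt (h0 * x) (3 / 10)) PP tK tL tC pcB (scP esg pd) [⟨0, 1, 0, 67108864⟩, ⟨1, 1, 0, 67108864⟩, ⟨2, 2, 0, 16777216⟩] 1 1 3 0 5 (sgb true) (sgb false) x := by
  refine altEB12 (altB12 (locB12 (div_S_le (k := 16) (by norm_num) (by norm_num)) (div_S_le (k := 64) (by norm_num) (by norm_num)) (Or.inl rfl) (m := 2) (fun i hi => ?_) (sG_X113_052m hx hx')))
  fin_cases i
  · exact (sW_B113_050m hx hx').ve rfl (Or.inl rfl) (Or.inl rfl) (sideB hx hx') hκ (thdB hx hx') (sG_B113_050m hx hx')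
  · exact (sW_B113_051m hx hx').ve rfl (Or.inl rfl) (Or.inl rfl) (sideB hx hx') hκ (thdB hx hx') (sG_B113_051m hx hx')
  · exact absurd hi (by decide)
  · exact absurd hi (by decide)
  · exact absurd hi (by decide)
  · exact absurd hi (by decide)
  · exact absurd hi (by decide)

theorem alt12B_B113_06p {κ x : ℝ} (hκ : κ * h0 = ken x) (hx : ((697932185 : ℕ) : ℝ) / S ≤ x) (hx' : x ≤ (((697932185 : ℕ) : ℝ) + (42949674 : ℕ)) / S) :
    AltEB 3 κ (eng.v x) (3 / 40) (tnt (h0 * x) (3 / 10)) PP tK tL tC pcB (scP esg pd) [⟨0, 1, 0, 67108864⟩, ⟨1, 1, 0, 67108864⟩, ⟨2, 2, 0, 16777216⟩] 1 1 3 0 6 (sgb true) (sgb true) x := by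
  refine altEB12 (altB12 (locB12 (div_S_le (k := 16) (by norm_num) (by norm_num)) (div_S_le (k := 64) (by norm_num) (by norm_num)) (Or.inl rfl) (m := 1) (fun i hi => ?_) (sG_X113_061p hx hx')))
  fin_cases i
  · exact (sW_B113_060p hx hx').ve rfl (Or.inl rfl) (Or.inl rfl) (sideB hx hx') hκ (thdB hx hx') (sG_B113_060p hx hx')
  · exact absurd hi (by decide)
  · exact absurd hi (by decide)
  · exact absurd hi (by decide)
  · exact absurd hi (by decide)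
  · exact absurd hi (by decide)
  · exact absurd hi (by decide)

theorem alt12B_B113_06m {κ x : ℝ} (hκ : κ * h0 = ken x) (hx : ((697932185 : ℕ) : ℝ) / S ≤ x) (hx' : x ≤ (((697932185 : ℕ) : ℝ) + (42949674 : ℕ)) / S) :
    AltEB 3 κ (eng.v x) (3 / 40) (tnt (h0 * x) (3 / 10)) PP tK tL tC pcB (scP esg pd) [⟨0, 1, 0, 67108864⟩, ⟨1, 1, 0, 67108864⟩, ⟨2, 2, 0, 16777216⟩] 1 1 3 0 6 (sgb true) (sgb false) x := by
  refine altEB12 (altB12 (locB12 (div_S_le (k := 16) (by norm_num) (by norm_num)) (div_S_le (k := 64) (by norm_num) (by norm_num)) (Or.inl rfl) (m := 2) (fun i hi => ?_) (sG_X113_062m hx hx')))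
  fin_cases i
  · exact (sW_B113_060m hx hx').ve rfl (Or.inl rfl) (Or.inl rfl) (sideB hx hx') hκ (thdB hx hx') (sG_B113_060m hx hx')
  · exact (sW_B113_061m hx hx').ve rfl (Or.inl rfl) (Or.inl rfl) (sideB hx hx') hκ (thdB hx hx') (sG_B113_061m hx hx')
  · exact absurd hi (by decide)
  · exact absurd hi (by decide)
  · exact absurd hi (by decide)
  · exact absurd hi (by decide)
  · exact absurd hi (by decide)

theorem alt12B_B113_07p {κ x : ℝ} (hκ : κ * h0 = ken x) (hx : ((697932185 : ℕ) : ℝ) / S ≤ x) (hx' : x ≤ (((697932185 : ℕ) : ℝ) + (42949674 : ℕ)) / S) :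
    AltEB 3 κ (eng.v x) (3 / 40) (tnt (h0 * x) (3 / 10)) PP tK tL tC pcB (scP esg pd) [⟨0, 1, 0, 67108864⟩, ⟨1, 1, 0, 67108864⟩, ⟨2, 2, 0, 16777216⟩] 1 1 3 0 7 (sgb true) (sgb true) x := by
  refine altEB12 (altB12 (locB12 (div_S_le (k := 16) (by norm_num) (by norm_num)) (div_S_le (k := 64) (by norm_num) (by norm_num)) (Or.inl rfl) (m := 1) (fun i hi => ?_) (sG_X113_071p hx hx')))
  fin_cases i
  · exact (sW_B113_070p hx hx').ve rfl (Or.inl rfl) (Or.inl rfl) (sideB hx hx') hκ (thdB hx hx') (sG_B113_070p hx hx')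
  · exact absurd hi (by decide)
  · exact absurd hi (by decide)
  · exact absurd hi (by decide)
  · exact absurd hi (by decide)
  · exact absurd hi (by decide)
  · exact absurd hi (by decide)

theorem alt12B_B113_07m {κ x : ℝ} (hκ : κ * h0 = ken x) (hx : ((697932185 : ℕ) : ℝ) / S ≤ x) (hx' : x ≤ (((697932185 : ℕ) : ℝ) + (42949674 : ℕ)) / S) :
    AltEB 3 κ (eng.v x) (3 / 40) (tnt (h0 * x) (3 / 10)) PP tK tL tC pcB (scP esg pd) [⟨0, 1, 0, 67108864⟩, ⟨1, 1, 0, 67108864⟩, ⟨2, 2, 0, 16777216⟩] 1 1 3 0 7 (sgb true) (sgb false) x := by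
  refine altEB12 (altB12 (locB12 (div_S_le (k := 16) (by norm_num) (by norm_num)) (div_S_le (k := 64) (by norm_num) (by norm_num)) (Or.inl rfl) (m := 2) (fun i hi => ?_) (sG_X113_072m hx hx')))
  fin_cases i
  · exact (sW_B113_070m hx hx').ve rfl (Or.inl rfl) (Or.inl rfl) (sideB hx hx') hκ (thdB hx hx') (sG_B113_070m hx hx')
  · exact (sW_B113_071m hx hx').ve rfl (Or.inl rfl) (Or.inl rfl) (sideB hx hx') hκ (thdB hx hx') (sG_B113_071m hx hx')
  · exact absurd hi (by decide)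
  · exact absurd hi (by decide)
  · exact absurd hi (by decide)
  · exact absurd hi (by decide)
  · exact absurd hi (by decide)

theorem alt12B_B123_01p {κ x : ℝ} (hκ : κ * h0 = ken x) (hx : ((697932185 : ℕ) : ℝ) / S ≤ x) (hx' : x ≤ (((697932185 : ℕ) : ℝ) + (42949674 : ℕ)) / S) :
    AltEB 3 κ (eng.v x) (3 / 40) (tnt (h0 * x) (3 / 10)) PP tK tL tC pcB (scP esg pd) [⟨0, 1, 0, 67108864⟩, ⟨1, 1, 0, 67108864⟩, ⟨2, 2, 0, 16777216⟩] 1 2 3 0 1 (sgb true) (sgb true) x := by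
  refine altEB12 (altB12 (locB12 (div_S_le (k := 16) (by norm_num) (by norm_num)) (div_S_le (k := 64) (by norm_num) (by norm_num)) (Or.inl rfl) (m := 5) (fun i hi => ?_) (sG_X123_015p hx hx')))
  fin_cases i
  · exact (sW_B123_010p hx hx').ve rfl (Or.inl rfl) (Or.inr rfl) (sideB hx hx') hκ (thdB hx hx') (sG_B123_010p hx hx')
  · exact (sW_B123_011p hx hx').ve rfl (Or.inl rfl) (Or.inr rfl) (sideB hx hx') hκ (thdB hx hx') (sG_B123_011p hx hx')
  · exact (sW_B123_012p hx hx').ve rfl (Or.inl rfl) (Or.inr rfl) (sideB hx hx') hκ (thdB hx hx') (sG_B123_012p hx hx')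
  · exact (sW_B123_013p hx hx').ve rfl (Or.inl rfl) (Or.inr rfl) (sideB hx hx') hκ (thdB hx hx') (sG_B123_013p hx hx')
  · exact (sW_B123_014p hx hx').ve rfl (Or.inl rfl) (Or.inr rfl) (sideB hx hx') hκ (thdB hx hx') (sG_B123_014p hx hx')
  · exact absurd hi (by decide)
  · exact absurd hi (by decide)

theorem alt12B_B123_01m {κ x : ℝ} (hκ : κ * h0 = ken x) (hx : ((697932185 : ℕ) : ℝ) / S ≤ x) (hx' : x ≤ (((697932185 : ℕ) : ℝ) + (42949674 : ℕ)) / S) :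
    AltEB 3 κ (eng.v x) (3 / 40) (tnt (h0 * x) (3 / 10)) PP tK tL tC pcB (scP esg pd) [⟨0, 1, 0, 67108864⟩, ⟨1, 1, 0, 67108864⟩, ⟨2, 2, 0, 16777216⟩] 1 2 3 0 1 (sgb true) (sgb false) x := by
  refine altEB12 (altB12 (locB12 (div_S_le (k := 16) (by norm_num) (by norm_num)) (div_S_le (k := 64) (by norm_num) (by norm_num)) (Or.inl rfl) (m := 5) (fun i hi => ?_) (sG_X123_015m hx hx')))
  fin_cases i
  · exact (sW_B123_010m hx hx').ve rfl (Or.inl rfl) (Or.inr rfl) (sideB hx hx') hκ (thdB hx hx') (sG_B123_010m hx hx')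
  · exact (sW_B123_011m hx hx').ve rfl (Or.inl rfl) (Or.inr rfl) (sideB hx hx') hκ (thdB hx hx') (sG_B123_011m hx hx')
  · exact (sW_B123_012m hx hx').ve rfl (Or.inl rfl) (Or.inr rfl) (sideB hx hx') hκ (thdB hx hx') (sG_B123_012m hx hx')
  · exact (sW_B123_013m hx hx').ve rfl (Or.inl rfl) (Or.inr rfl) (sideB hx hx') hκ (thdB hx hx') (sG_B123_013m hx hx')
  · exact (sW_B123_014m hx hx').ve rfl (Or.inl rfl) (Or.inr rfl) (sideB hx hx') hκ (thdB hx hx') (sG_B123_014m hx hx')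
  · exact absurd hi (by decide)
  · exact absurd hi (by decide)

theorem alt12B_B123_02p {κ x : ℝ} (hκ : κ * h0 = ken x) (hx : ((697932185 : ℕ) : ℝ) / S ≤ x) (hx' : x ≤ (((697932185 : ℕ) : ℝ) + (42949674 : ℕ)) / S) :
    AltEB 3 κ (eng.v x) (3 / 40) (tnt (h0 * x) (3 / 10)) PP tK tL tC pcB (scP esg pd) [⟨0, 1, 0, 67108864⟩, ⟨1, 1, 0, 67108864⟩, ⟨2, 2, 0, 16777216⟩] 1 2 3 0 2 (sgb true) (sgb true) x := by
  refine altEB12 (altB12 (locB12 (div_S_le (k := 16) (by norm_num) (by norm_num)) (div_S_le (k := 64) (by norm_num) (by norm_num)) (Or.inl rfl) (m := 5) (fun i hi => ?_) (sG_X123_025p hx hx')))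
  fin_cases i
  · exact (sW_B123_020p hx hx').ve rfl (Or.inl rfl) (Or.inr rfl) (sideB hx hx') hκ (thdB hx hx') (sG_B123_020p hx hx')
  · exact (sW_B123_021p hx hx').ve rfl (Or.inl rfl) (Or.inr rfl) (sideB hx hx') hκ (thdB hx hx') (sG_B123_021p hx hx')
  · exact (sW_B123_022p hx hx').ve rfl (Or.inl rfl) (Or.inr rfl) (sideB hx hx') hκ (thdB hx hx') (sG_B123_022p hx hx')
  · exact (sW_B123_023p hx hx').ve rfl (Or.inl rfl) (Or.inr rfl) (sideB hx hx') hκ (thdB hx hx') (sG_B123_023p hx hx')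
  · exact (sW_B123_024p hx hx').ve rfl (Or.inl rfl) (Or.inr rfl) (sideB hx hx') hκ (thdB hx hx') (sG_B123_024p hx hx')
  · exact absurd hi (by decide)
  · exact absurd hi (by decide)

theorem alt12B_B123_02m {κ x : ℝ} (hκ : κ * h0 = ken x) (hx : ((697932185 : ℕ) : ℝ) / S ≤ x) (hx' : x ≤ (((697932185 : ℕ) : ℝ) + (42949674 : ℕ)) / S) :
    AltEB 3 κ (eng.v x) (3 / 40) (tnt (h0 * x) (3 / 10)) PP tK tL tC pcB (scP esg pd) [⟨0, 1, 0, 67108864⟩, ⟨1, 1, 0, 67108864⟩, ⟨2, 2, 0, 16777216⟩] 1 2 3 0 2 (sgb true) (sgb false) x := by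
  refine altEB12 (altB12 (locB12 (div_S_le (k := 16) (by norm_num) (by norm_num)) (div_S_le (k := 64) (by norm_num) (by norm_num)) (Or.inl rfl) (m := 5) (fun i hi => ?_) (sG_X123_025m hx hx')))
  fin_cases i
  · exact (sW_B123_020m hx hx').ve rfl (Or.inl rfl) (Or.inr rfl) (sideB hx hx') hκ (thdB hx hx') (sG_B123_020m hx hx')
  · exact (sW_B123_021m hx hx').ve rfl (Or.inl rfl) (Or.inr rfl) (sideB hx hx') hκ (thdB hx hx') (sG_B123_021m hx hx')
  · exact (sW_B123_022m hx hx').ve rfl (Or.inl rfl) (Or.inr rfl) (sideB hx hx') hκ (thdB hx hx') (sG_B123_022m hx hx')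
  · exact (sW_B123_023m hx hx').ve rfl (Or.inl rfl) (Or.inr rfl) (sideB hx hx') hκ (thdB hx hx') (sG_B123_023m hx hx')
  · exact (sW_B123_024m hx hx').ve rfl (Or.inl rfl) (Or.inr rfl) (sideB hx hx') hκ (thdB hx hx') (sG_B123_024m hx hx')
  · exact absurd hi (by decide)
  · exact absurd hi (by decide)

theorem alt12B_B123_03p {κ x : ℝ} (hκ : κ * h0 = ken x) (hx : ((697932185 : ℕ) : ℝ) / S ≤ x) (hx' : x ≤ (((697932185 : ℕ) : ℝ) + (42949674 : ℕ)) / S) :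
    AltEB 3 κ (eng.v x) (3 / 40) (tnt (h0 * x) (3 / 10)) PP tK tL tC pcB (scP esg pd) [⟨0, 1, 0, 67108864⟩, ⟨1, 1, 0, 67108864⟩, ⟨2, 2, 0, 16777216⟩] 1 2 3 0 3 (sgb true) (sgb true) x := by
  refine altEB12 (altB12 (locB12 (div_S_le (k := 16) (by norm_num) (by norm_num)) (div_S_le (k := 64) (by norm_num) (by norm_num)) (Or.inl rfl) (m := 5) (fun i hi => ?_) (sG_X123_035p hx hx')))
  fin_cases i
  · exact (sW_B123_030p hx hx').ve rfl (Or.inl rfl) (Or.inr rfl) (sideB hx hx') hκ (thdB hx hx') (sG_B123_030p hx hx')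
  · exact (sW_B123_031p hx hx').ve rfl (Or.inl rfl) (Or.inr rfl) (sideB hx hx') hκ (thdB hx hx') (sG_B123_031p hx hx')
  · exact (sW_B123_032p hx hx').ve rfl (Or.inl rfl) (Or.inr rfl) (sideB hx hx') hκ (thdB hx hx') (sG_B123_032p hx hx')
  · exact (sW_B123_033p hx hx').ve rfl (Or.inl rfl) (Or.inr rfl) (sideB hx hx') hκ (thdB hx hx') (sG_B123_033p hx hx')
  · exact (sW_B123_034p hx hx').ve rfl (Or.inl rfl) (Or.inr rfl) (sideB hx hx') hκ (thdB hx hx') (sG_B123_034p hx hx')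
  · exact absurd hi (by decide)
  · exact absurd hi (by decide)

theorem alt12B_B123_03m {κ x : ℝ} (hκ : κ * h0 = ken x) (hx : ((697932185 : ℕ) : ℝ) / S ≤ x) (hx' : x ≤ (((697932185 : ℕ) : ℝ) + (42949674 : ℕ)) / S) :
    AltEB 3 κ (eng.v x) (3 / 40) (tnt (h0 * x) (3 / 10)) PP tK tL tC pcB (scP esg pd) [⟨0, 1, 0, 67108864⟩, ⟨1, 1, 0, 67108864⟩, ⟨2, 2, 0, 16777216⟩] 1 2 3 0 3 (sgb true) (sgb false) x := by
  refine altEB12 (altB12 (locB12 (div_S_le (k := 16) (by norm_num) (by norm_num)) (div_S_le (k := 64) (by norm_num) (by norm_num)) (Or.inl rfl) (m := 5) (fun i hi => ?_) (sG_X123_035m hx hx')))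
  fin_cases i
  · exact (sW_B123_030m hx hx').ve rfl (Or.inl rfl) (Or.inr rfl) (sideB hx hx') hκ (thdB hx hx') (sG_B123_030m hx hx')
  · exact (sW_B123_031m hx hx').ve rfl (Or.inl rfl) (Or.inr rfl) (sideB hx hx') hκ (thdB hx hx') (sG_B123_031m hx hx')
  · exact (sW_B123_032m hx hx').ve rfl (Or.inl rfl) (Or.inr rfl) (sideB hx hx') hκ (thdB hx hx') (sG_B123_032m hx hx')
  · exact (sW_B123_033m hx hx').ve rfl (Or.inl rfl) (Or.inr rfl) (sideB hx hx') hκ (thdB hx hx') (sG_B123_033m hx hx')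
  · exact (sW_B123_034m hx hx').ve rfl (Or.inl rfl) (Or.inr rfl) (sideB hx hx') hκ (thdB hx hx') (sG_B123_034m hx hx')
  · exact absurd hi (by decide)
  · exact absurd hi (by decide)

theorem alt12B_B123_04p {κ x : ℝ} (hκ : κ * h0 = ken x) (hx : ((697932185 : ℕ) : ℝ) / S ≤ x) (hx' : x ≤ (((697932185 : ℕ) : ℝ) + (42949674 : ℕ)) / S) :
    AltEB 3 κ (eng.v x) (3 / 40) (tnt (h0 * x) (3 / 10)) PP tK tL tC pcB (scP esg pd) [⟨0, 1, 0, 67108864⟩, ⟨1, 1, 0, 67108864⟩, ⟨2, 2, 0, 16777216⟩] 1 2 3 0 4 (sgb true) (sgb true) x := by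
  refine altEB12 (altB12 (locB12 (div_S_le (k := 16) (by norm_num) (by norm_num)) (div_S_le (k := 64) (by norm_num) (by norm_num)) (Or.inl rfl) (m := 5) (fun i hi => ?_) (sG_X123_045p hx hx')))
  fin_cases i
  · exact (sW_B123_040p hx hx').ve rfl (Or.inl rfl) (Or.inr rfl) (sideB hx hx') hκ (thdB hx hx') (sG_B123_040p hx hx')
  · exact (sW_B123_041p hx hx').ve rfl (Or.inl rfl) (Or.inr rfl) (sideB hx hx') hκ (thdB hx hx') (sG_B123_041p hx hx')
  · exact (sW_B123_042p hx hx').ve rfl (Or.inl rfl) (Or.inr rfl) (sideB hx hx') hκ (thdB hx hx') (sG_B123_042p hx hx')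
  · exact (sW_B123_043p hx hx').ve rfl (Or.inl rfl) (Or.inr rfl) (sideB hx hx') hκ (thdB hx hx') (sG_B123_043p hx hx')
  · exact (sW_B123_044p hx hx').ve rfl (Or.inl rfl) (Or.inr rfl) (sideB hx hx') hκ (thdB hx hx') (sG_B123_044p hx hx')
  · exact absurd hi (by decide)
  · exact absurd hi (by decide)

theorem alt12B_B123_04m {κ x : ℝ} (hκ : κ * h0 = ken x) (hx : ((697932185 : ℕ) : ℝ) / S ≤ x) (hx' : x ≤ (((697932185 : ℕ) : ℝ) + (42949674 : ℕ)) / S) :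
    AltEB 3 κ (eng.v x) (3 / 40) (tnt (h0 * x) (3 / 10)) PP tK tL tC pcB (scP esg pd) [⟨0, 1, 0, 67108864⟩, ⟨1, 1, 0, 67108864⟩, ⟨2, 2, 0, 16777216⟩] 1 2 3 0 4 (sgb true) (sgb false) x := by
  refine altEB12 (altB12 (locB12 (div_S_le (k := 16) (by norm_num) (by norm_num)) (div_S_le (k := 64) (by norm_num) (by norm_num)) (Or.inl rfl) (m := 5) (fun i hi => ?_) (sG_X123_045m hx hx')))
  fin_cases i
  · exact (sW_B123_040m hx hx').ve rfl (Or.inl rfl) (Or.inr rfl) (sideB hx hx') hκ (thdB hx hx') (sG_B123_040m hx hx')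
  · exact (sW_B123_041m hx hx').ve rfl (Or.inl rfl) (Or.inr rfl) (sideB hx hx') hκ (thdB hx hx') (sG_B123_041m hx hx')
  · exact (sW_B123_042m hx hx').ve rfl (Or.inl rfl) (Or.inr rfl) (sideB hx hx') hκ (thdB hx hx') (sG_B123_042m hx hx')
  · exact (sW_B123_043m hx hx').ve rfl (Or.inl rfl) (Or.inr rfl) (sideB hx hx') hκ (thdB hx hx') (sG_B123_043m hx hx')
  · exact (sW_B123_044m hx hx').ve rfl (Or.inl rfl) (Or.inr rfl) (sideB hx hx') hκ (thdB hx hx') (sG_B123_044m hx hx')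
  · exact absurd hi (by decide)
  · exact absurd hi (by decide)

theorem alt12B_B123_05p {κ x : ℝ} (hκ : κ * h0 = ken x) (hx : ((697932185 : ℕ) : ℝ) / S ≤ x) (hx' : x ≤ (((697932185 : ℕ) : ℝ) + (42949674 : ℕ)) / S)
    (h0' : SgBl (VeB κ x 1 2 0 5 true) PP tK tL pcB .npn 1 2 0 5 true 0 67108864 16777216 x) :
    (AltEB 3 κ (eng.v x) (3 / 40) (tnt (h0 * x) (3 / 10)) PP tK tL tC pcB (scP esg pd) [⟨0, 1, 0, 67108864⟩, ⟨1, 1, 0, 67108864⟩, ⟨2, 2, 0, 16777216⟩] 1 2 3 0 5 (sgb true) (sgb true) x) := by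
  refine altEB12 (altB12 (locB12 (div_S_le (k := 16) (by norm_num) (by norm_num)) (div_S_le (k := 64) (by norm_num) (by norm_num)) (Or.inl rfl) (m := 5) (fun i hi => ?_) (sG_X123_055p hx hx')))
  fin_cases i
  · exact (sW_B123_050p hx hx').ve rfl (Or.inl rfl) (Or.inr rfl) (sideB hx hx') hκ (thdB hx hx') (sG_B123_050p hx hx') h0'
  · exact (sW_B123_051p hx hx').ve rfl (Or.inl rfl) (Or.inr rfl) (sideB hx hx') hκ (thdB hx hx') (sG_B123_051p hx hx')
  · exact (sW_B123_052p hx hx').ve rfl (Or.inl rfl) (Or.inr rfl) (sideB hx hx') hκ (thdB hx hx') (sG_B123_052p hx hx')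
  · exact (sW_B123_053p hx hx').ve rfl (Or.inl rfl) (Or.inr rfl) (sideB hx hx') hκ (thdB hx hx') (sG_B123_053p hx hx')
  · exact (sW_B123_054p hx hx').ve rfl (Or.inl rfl) (Or.inr rfl) (sideB hx hx') hκ (thdB hx hx') (sG_B123_054p hx hx')
  · exact absurd hi (by decide)
  · exact absurd hi (by decide)

theorem alt12B_B123_05m {κ x : ℝ} (hκ : κ * h0 = ken x) (hx : ((697932185 : ℕ) : ℝ) / S ≤ x) (hx' : x ≤ (((697932185 : ℕ) : ℝ) + (42949674 : ℕ)) / S) :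
    AltEB 3 κ (eng.v x) (3 / 40) (tnt (h0 * x) (3 / 10)) PP tK tL tC pcB (scP esg pd) [⟨0, 1, 0, 67108864⟩, ⟨1, 1, 0, 67108864⟩, ⟨2, 2, 0, 16777216⟩] 1 2 3 0 5 (sgb true) (sgb false) x := by
  refine altEB12 (altB12 (locB12 (div_S_le (k := 16) (by norm_num) (by norm_num)) (div_S_le (k := 64) (by norm_num) (by norm_num)) (Or.inl rfl) (m := 6) (fun i hi => ?_) (sG_X123_056m hx hx')))
  fin_cases i
  · exact (sW_B123_050m hx hx').ve rfl (Or.inl rfl) (Or.inr rfl) (sideB hx hx') hκ (thdB hx hx') (sG_B123_050m hx hx')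
  · exact (sW_B123_051m hx hx').ve rfl (Or.inl rfl) (Or.inr rfl) (sideB hx hx') hκ (thdB hx hx') (sG_B123_051m hx hx')
  · exact (sW_B123_052m hx hx').ve rfl (Or.inl rfl) (Or.inr rfl) (sideB hx hx') hκ (thdB hx hx') (sG_B123_052m hx hx')
  · exact (sW_B123_053m hx hx').ve rfl (Or.inl rfl) (Or.inr rfl) (sideB hx hx') hκ (thdB hx hx') (sG_B123_053m hx hx')
  · exact (sW_B123_054m hx hx').ve rfl (Or.inl rfl) (Or.inr rfl) (sideB hx hx') hκ (thdB hx hx') (sG_B123_054m hx hx')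
  · exact (sW_B123_055m hx hx').ve rfl (Or.inl rfl) (Or.inr rfl) (sideB hx hx') hκ (thdB hx hx') (sG_B123_055m hx hx')
  · exact absurd hi (by decide)

theorem alt12B_B123_06p {κ x : ℝ} (hκ : κ * h0 = ken x) (hx : ((697932185 : ℕ) : ℝ) / S ≤ x) (hx' : x ≤ (((697932185 : ℕ) : ℝ) + (42949674 : ℕ)) / S)
    (h0' : SgBl (VeB κ x 1 2 0 6 true) PP tK tL pcB .npn 1 2 0 6 true 0 67108864 16777216 x) :
    (AltEB 3 κ (eng.v x) (3 / 40) (tnt (h0 * x) (3 / 10)) PP tK tL tC pcB (scP esg pd) [⟨0, 1, 0, 67108864⟩, ⟨1, 1, 0, 67108864⟩, ⟨2, 2, 0, 16777216⟩] 1 2 3 0 6 (sgb true) (sgb true) x) := by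
  refine altEB12 (altB12 (locB12 (div_S_le (k := 16) (by norm_num) (by norm_num)) (div_S_le (k := 64) (by norm_num) (by norm_num)) (Or.inl rfl) (m := 5) (fun i hi => ?_) (sG_X123_065p hx hx')))
  fin_cases i
  · exact (sW_B123_060p hx hx').ve rfl (Or.inl rfl) (Or.inr rfl) (sideB hx hx') hκ (thdB hx hx') (sG_B123_060p hx hx') h0'
  · exact (sW_B123_061p hx hx').ve rfl (Or.inl rfl) (Or.inr rfl) (sideB hx hx') hκ (thdB hx hx') (sG_B123_061p hx hx')
  · exact (sW_B123_062p hx hx').ve rfl (Or.inl rfl) (Or.inr rfl) (sideB hx hx') hκ (thdB hx hx') (sG_B123_062p hx hx')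
  · exact (sW_B123_063p hx hx').ve rfl (Or.inl rfl) (Or.inr rfl) (sideB hx hx') hκ (thdB hx hx') (sG_B123_063p hx hx')
  · exact (sW_B123_064p hx hx').ve rfl (Or.inl rfl) (Or.inr rfl) (sideB hx hx') hκ (thdB hx hx') (sG_B123_064p hx hx')
  · exact absurd hi (by decide)
  · exact absurd hi (by decide)

theorem alt12B_B123_06m {κ x : ℝ} (hκ : κ * h0 = ken x) (hx : ((697932185 : ℕ) : ℝ) / S ≤ x) (hx' : x ≤ (((697932185 : ℕ) : ℝ) + (42949674 : ℕ)) / S) :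
    AltEB 3 κ (eng.v x) (3 / 40) (tnt (h0 * x) (3 / 10)) PP tK tL tC pcB (scP esg pd) [⟨0, 1, 0, 67108864⟩, ⟨1, 1, 0, 67108864⟩, ⟨2, 2, 0, 16777216⟩] 1 2 3 0 6 (sgb true) (sgb false) x := by
  refine altEB12 (altB12 (locB12 (div_S_le (k := 16) (by norm_num) (by norm_num)) (div_S_le (k := 64) (by norm_num) (by norm_num)) (Or.inl rfl) (m := 6) (fun i hi => ?_) (sG_X123_066m hx hx')))
  fin_cases i
  · exact (sW_B123_060m hx hx').ve rfl (Or.inl rfl) (Or.inr rfl) (sideB hx hx') hκ (thdB hx hx') (sG_B123_060m hx hx')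
  · exact (sW_B123_061m hx hx').ve rfl (Or.inl rfl) (Or.inr rfl) (sideB hx hx') hκ (thdB hx hx') (sG_B123_061m hx hx')
  · exact (sW_B123_062m hx hx').ve rfl (Or.inl rfl) (Or.inr rfl) (sideB hx hx') hκ (thdB hx hx') (sG_B123_062m hx hx')
  · exact (sW_B123_063m hx hx').ve rfl (Or.inl rfl) (Or.inr rfl) (sideB hx hx') hκ (thdB hx hx') (sG_B123_063m hx hx')
  · exact (sW_B123_064m hx hx').ve rfl (Or.inl rfl) (Or.inr rfl) (sideB hx hx') hκ (thdB hx hx') (sG_B123_064m hx hx')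
  · exact (sW_B123_065m hx hx').ve rfl (Or.inl rfl) (Or.inr rfl) (sideB hx hx') hκ (thdB hx hx') (sG_B123_065m hx hx')
  · exact absurd hi (by decide)

theorem alt12B_B123_07p {κ x : ℝ} (hκ : κ * h0 = ken x) (hx : ((697932185 : ℕ) : ℝ) / S ≤ x) (hx' : x ≤ (((697932185 : ℕ) : ℝ) + (42949674 : ℕ)) / S)
    (h0' : SgBl (VeB κ x 1 2 0 7 true) PP tK tL pcB .npn 1 2 0 7 true 0 67108864 16777216 x) :
    (AltEB 3 κ (eng.v x) (3 / 40) (tnt (h0 * x) (3 / 10)) PP tK tL tC pcB (scP esg pd) [⟨0, 1, 0, 67108864⟩, ⟨1, 1, 0, 67108864⟩, ⟨2, 2, 0, 16777216⟩] 1 2 3 0 7 (sgb true) (sgb true) x) := by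
  refine altEB12 (altB12 (locB12 (div_S_le (k := 16) (by norm_num) (by norm_num)) (div_S_le (k := 64) (by norm_num) (by norm_num)) (Or.inl rfl) (m := 5) (fun i hi => ?_) (sG_X123_075p hx hx')))
  fin_cases i
  · exact (sW_B123_070p hx hx').ve rfl (Or.inl rfl) (Or.inr rfl) (sideB hx hx') hκ (thdB hx hx') (sG_B123_070p hx hx') h0'
  · exact (sW_B123_071p hx hx').ve rfl (Or.inl rfl) (Or.inr rfl) (sideB hx hx') hκ (thdB hx hx') (sG_B123_071p hx hx')
  · exact (sW_B123_072p hx hx').ve rfl (Or.inl rfl) (Or.inr rfl) (sideB hx hx') hκ (thdB hx hx') (sG_B123_072p hx hx')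
  · exact (sW_B123_073p hx hx').ve rfl (Or.inl rfl) (Or.inr rfl) (sideB hx hx') hκ (thdB hx hx') (sG_B123_073p hx hx')
  · exact (sW_B123_074p hx hx').ve rfl (Or.inl rfl) (Or.inr rfl) (sideB hx hx') hκ (thdB hx hx') (sG_B123_074p hx hx')
  · exact absurd hi (by decide)
  · exact absurd hi (by decide)

theorem alt12B_B123_07m {κ x : ℝ} (hκ : κ * h0 = ken x) (hx : ((697932185 : ℕ) : ℝ) / S ≤ x) (hx' : x ≤ (((697932185 : ℕ) : ℝ) + (42949674 : ℕ)) / S) :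
    AltEB 3 κ (eng.v x) (3 / 40) (tnt (h0 * x) (3 / 10)) PP tK tL tC pcB (scP esg pd) [⟨0, 1, 0, 67108864⟩, ⟨1, 1, 0, 67108864⟩, ⟨2, 2, 0, 16777216⟩] 1 2 3 0 7 (sgb true) (sgb false) x := by
  refine altEB12 (altB12 (locB12 (div_S_le (k := 16) (by norm_num) (by norm_num)) (div_S_le (k := 64) (by norm_num) (by norm_num)) (Or.inl rfl) (m := 6) (fun i hi => ?_) (sG_X123_076m hx hx')))
  fin_cases i
  · exact (sW_B123_070m hx hx').ve rfl (Or.inl rfl) (Or.inr rfl) (sideB hx hx') hκ (thdB hx hx') (sG_B123_070m hx hx')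
  · exact (sW_B123_071m hx hx').ve rfl (Or.inl rfl) (Or.inr rfl) (sideB hx hx') hκ (thdB hx hx') (sG_B123_071m hx hx')
  · exact (sW_B123_072m hx hx').ve rfl (Or.inl rfl) (Or.inr rfl) (sideB hx hx') hκ (thdB hx hx') (sG_B123_072m hx hx')
  · exact (sW_B123_073m hx hx').ve rfl (Or.inl rfl) (Or.inr rfl) (sideB hx hx') hκ (thdB hx hx') (sG_B123_073m hx hx')
  · exact (sW_B123_074m hx hx').ve rfl (Or.inl rfl) (Or.inr rfl) (sideB hx hx') hκ (thdB hx hx') (sG_B123_074m hx hx')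
  · exact (sW_B123_075m hx hx').ve rfl (Or.inl rfl) (Or.inr rfl) (sideB hx hx') hκ (thdB hx hx') (sG_B123_075m hx hx')
  · exact absurd hi (by decide)

theorem alt12B_B213_01p {κ x : ℝ} (hκ : κ * h0 = ken x) (hx : ((697932185 : ℕ) : ℝ) / S ≤ x) (hx' : x ≤ (((697932185 : ℕ) : ℝ) + (42949674 : ℕ)) / S) :
    AltEB 3 κ (eng.v x) (3 / 40) (tnt (h0 * x) (3 / 10)) PP tK tL tC pcB (scP esg pd) [⟨0, 1, 0, 67108864⟩, ⟨1, 1, 0, 67108864⟩, ⟨2, 2, 0, 16777216⟩] 2 1 3 0 1 (sgb true) (sgb true) x := by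
  exact altEB12 (altB12_vac (div_S_le (k := 64) (by norm_num) (by norm_num)) (by show rh 0 ≤ 1; simp [rh]; try norm_num))

theorem alt12B_B213_01m {κ x : ℝ} (hκ : κ * h0 = ken x) (hx : ((697932185 : ℕ) : ℝ) / S ≤ x) (hx' : x ≤ (((697932185 : ℕ) : ℝ) + (42949674 : ℕ)) / S) :
    AltEB 3 κ (eng.v x) (3 / 40) (tnt (h0 * x) (3 / 10)) PP tK tL tC pcB (scP esg pd) [⟨0, 1, 0, 67108864⟩, ⟨1, 1, 0, 67108864⟩, ⟨2, 2, 0, 16777216⟩] 2 1 3 0 1 (sgb true) (sgb false) x := by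
  refine altEB12 (altB12 (locB12 (div_S_le (k := 16) (by norm_num) (by norm_num)) (div_S_le (k := 64) (by norm_num) (by norm_num)) (Or.inr rfl) (m := 1) (fun i hi => ?_) (sG_X213_011m hx hx')))
  fin_cases i
  · exact (sW_B213_010m hx hx').ve rfl (Or.inr rfl) (Or.inl rfl) (sideB hx hx') hκ (thdB hx hx') (sG_B213_010m hx hx')
  · exact absurd hi (by decide)
  · exact absurd hi (by decide)
  · exact absurd hi (by decide)
  · exact absurd hi (by decide)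
  · exact absurd hi (by decide)
  · exact absurd hi (by decide)

theorem alt12B_B213_02p {κ x : ℝ} (hκ : κ * h0 = ken x) (hx : ((697932185 : ℕ) : ℝ) / S ≤ x) (hx' : x ≤ (((697932185 : ℕ) : ℝ) + (42949674 : ℕ)) / S) :
    AltEB 3 κ (eng.v x) (3 / 40) (tnt (h0 * x) (3 / 10)) PP tK tL tC pcB (scP esg pd) [⟨0, 1, 0, 67108864⟩, ⟨1, 1, 0, 67108864⟩, ⟨2, 2, 0, 16777216⟩] 2 1 3 0 2 (sgb true) (sgb true) x := by
  exact altEB12 (altB12_vac (div_S_le (k := 64) (by norm_num) (by norm_num)) (by show rh 0 ≤ 1; simp [rh]; try norm_num))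

theorem alt12B_B213_02m {κ x : ℝ} (hκ : κ * h0 = ken x) (hx : ((697932185 : ℕ) : ℝ) / S ≤ x) (hx' : x ≤ (((697932185 : ℕ) : ℝ) + (42949674 : ℕ)) / S) :
    AltEB 3 κ (eng.v x) (3 / 40) (tnt (h0 * x) (3 / 10)) PP tK tL tC pcB (scP esg pd) [⟨0, 1, 0, 67108864⟩, ⟨1, 1, 0, 67108864⟩, ⟨2, 2, 0, 16777216⟩] 2 1 3 0 2 (sgb true) (sgb false) x := by
  refine altEB12 (altB12 (locB12 (div_S_le (k := 16) (by norm_num) (by norm_num)) (div_S_le (k := 64) (by norm_num) (by norm_num)) (Or.inr rfl) (m := 1) (fun i hi => ?_) (sG_X213_021m hx hx')))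
  fin_cases i
  · exact (sW_B213_020m hx hx').ve rfl (Or.inr rfl) (Or.inl rfl) (sideB hx hx') hκ (thdB hx hx') (sG_B213_020m hx hx')
  · exact absurd hi (by decide)
  · exact absurd hi (by decide)
  · exact absurd hi (by decide)
  · exact absurd hi (by decide)
  · exact absurd hi (by decide)
  · exact absurd hi (by decide)

theorem alt12B_B213_03p {κ x : ℝ} (hκ : κ * h0 = ken x) (hx : ((697932185 : ℕ) : ℝ) / S ≤ x) (hx' : x ≤ (((697932185 : ℕ) : ℝ) + (42949674 : ℕ)) / S) :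
    AltEB 3 κ (eng.v x) (3 / 40) (tnt (h0 * x) (3 / 10)) PP tK tL tC pcB (scP esg pd) [⟨0, 1, 0, 67108864⟩, ⟨1, 1, 0, 67108864⟩, ⟨2, 2, 0, 16777216⟩] 2 1 3 0 3 (sgb true) (sgb true) x := by
  exact altEB12 (altB12_vac (div_S_le (k := 64) (by norm_num) (by norm_num)) (by show rh 0 ≤ 1; simp [rh]; try norm_num))

theorem alt12B_B213_03m {κ x : ℝ} (hκ : κ * h0 = ken x) (hx : ((697932185 : ℕ) : ℝ) / S ≤ x) (hx' : x ≤ (((697932185 : ℕ) : ℝ) + (42949674 : ℕ)) / S) :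
    AltEB 3 κ (eng.v x) (3 / 40) (tnt (h0 * x) (3 / 10)) PP tK tL tC pcB (scP esg pd) [⟨0, 1, 0, 67108864⟩, ⟨1, 1, 0, 67108864⟩, ⟨2, 2, 0, 16777216⟩] 2 1 3 0 3 (sgb true) (sgb false) x := by
  refine altEB12 (altB12 (locB12 (div_S_le (k := 16) (by norm_num) (by norm_num)) (div_S_le (k := 64) (by norm_num) (by norm_num)) (Or.inr rfl) (m := 1) (fun i hi => ?_) (sG_X213_031m hx hx')))
  fin_cases i
  · exact (sW_B213_030m hx hx').ve rfl (Or.inr rfl) (Or.inl rfl) (sideB hx hx') hκ (thdB hx hx') (sG_B213_030m hx hx')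
  · exact absurd hi (by decide)
  · exact absurd hi (by decide)
  · exact absurd hi (by decide)
  · exact absurd hi (by decide)
  · exact absurd hi (by decide)
  · exact absurd hi (by decide)

theorem alt12B_B213_04p {κ x : ℝ} (hκ : κ * h0 = ken x) (hx : ((697932185 : ℕ) : ℝ) / S ≤ x) (hx' : x ≤ (((697932185 : ℕ) : ℝ) + (42949674 : ℕ)) / S) :
    AltEB 3 κ (eng.v x) (3 / 40) (tnt (h0 * x) (3 / 10)) PP tK tL tC pcB (scP esg pd) [⟨0, 1, 0, 67108864⟩, ⟨1, 1, 0, 67108864⟩, ⟨2, 2, 0, 16777216⟩] 2 1 3 0 4 (sgb true) (sgb true) x := by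
  exact altEB12 (altB12_vac (div_S_le (k := 64) (by norm_num) (by norm_num)) (by show rh 0 ≤ 1; simp [rh]; try norm_num))

theorem alt12B_B213_04m {κ x : ℝ} (hκ : κ * h0 = ken x) (hx : ((697932185 : ℕ) : ℝ) / S ≤ x) (hx' : x ≤ (((697932185 : ℕ) : ℝ) + (42949674 : ℕ)) / S) :
    AltEB 3 κ (eng.v x) (3 / 40) (tnt (h0 * x) (3 / 10)) PP tK tL tC pcB (scP esg pd) [⟨0, 1, 0, 67108864⟩, ⟨1, 1, 0, 67108864⟩, ⟨2, 2, 0, 16777216⟩] 2 1 3 0 4 (sgb true) (sgb false) x := by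
  refine altEB12 (altB12 (locB12 (div_S_le (k := 16) (by norm_num) (by norm_num)) (div_S_le (k := 64) (by norm_num) (by norm_num)) (Or.inr rfl) (m := 1) (fun i hi => ?_) (sG_X213_041m hx hx')))
  fin_cases i
  · exact (sW_B213_040m hx hx').ve rfl (Or.inr rfl) (Or.inl rfl) (sideB hx hx') hκ (thdB hx hx') (sG_B213_040m hx hx')
  · exact absurd hi (by decide)
  · exact absurd hi (by decide)
  · exact absurd hi (by decide)
  · exact absurd hi (by decide)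
  · exact absurd hi (by decide)
  · exact absurd hi (by decide)

theorem alt12B_B213_05p {κ x : ℝ} (hκ : κ * h0 = ken x) (hx : ((697932185 : ℕ) : ℝ) / S ≤ x) (hx' : x ≤ (((697932185 : ℕ) : ℝ) + (42949674 : ℕ)) / S) :
    AltEB 3 κ (eng.v x) (3 / 40) (tnt (h0 * x) (3 / 10)) PP tK tL tC pcB (scP esg pd) [⟨0, 1, 0, 67108864⟩, ⟨1, 1, 0, 67108864⟩, ⟨2, 2, 0, 16777216⟩] 2 1 3 0 5 (sgb true) (sgb true) x := by
  exact altEB12 (altB12_vac (div_S_le (k := 64) (by norm_num) (by norm_num)) (by show rh 0 ≤ 1; simp [rh]; try norm_num))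

theorem alt12B_B213_05m {κ x : ℝ} (hκ : κ * h0 = ken x) (hx : ((697932185 : ℕ) : ℝ) / S ≤ x) (hx' : x ≤ (((697932185 : ℕ) : ℝ) + (42949674 : ℕ)) / S)
    (h0' : SgB (VeB κ x 2 1 0 5 false) PP tK tL pcB 2 1 0 5 false 0 67108864 16777216 x) :
    (AltEB 3 κ (eng.v x) (3 / 40) (tnt (h0 * x) (3 / 10)) PP tK tL tC pcB (scP esg pd) [⟨0, 1, 0, 67108864⟩, ⟨1, 1, 0, 67108864⟩, ⟨2, 2, 0, 16777216⟩] 2 1 3 0 5 (sgb true) (sgb false) x) := by
  refine altEB12 (altB12 (locB12 (div_S_le (k := 16) (by norm_num) (by norm_num)) (div_S_le (k := 64) (by norm_num) (by norm_num)) (Or.inr rfl) (m := 2) (fun i hi => ?_) (sG_X213_052m hx hx')))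
  fin_cases i
  · exact h0'
  · exact (sW_B213_051m hx hx').ve rfl (Or.inr rfl) (Or.inl rfl) (sideB hx hx') hκ (thdB hx hx') (sG_B213_051m hx hx')
  · exact absurd hi (by decide)
  · exact absurd hi (by decide)
  · exact absurd hi (by decide)
  · exact absurd hi (by decide)
  · exact absurd hi (by decide)

theorem alt12B_B213_06p {κ x : ℝ} (hκ : κ * h0 = ken x) (hx : ((697932185 : ℕ) : ℝ) / S ≤ x) (hx' : x ≤ (((697932185 : ℕ) : ℝ) + (42949674 : ℕ)) / S) :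
    AltEB 3 κ (eng.v x) (3 / 40) (tnt (h0 * x) (3 / 10)) PP tK tL tC pcB (scP esg pd) [⟨0, 1, 0, 67108864⟩, ⟨1, 1, 0, 67108864⟩, ⟨2, 2, 0, 16777216⟩] 2 1 3 0 6 (sgb true) (sgb true) x := by
  exact altEB12 (altB12_vac (div_S_le (k := 64) (by norm_num) (by norm_num)) (by show rh 0 ≤ 1; simp [rh]; try norm_num))

theorem alt12B_B213_06m {κ x : ℝ} (hκ : κ * h0 = ken x) (hx : ((697932185 : ℕ) : ℝ) / S ≤ x) (hx' : x ≤ (((697932185 : ℕ) : ℝ) + (42949674 : ℕ)) / S)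
    (h0' : SgB (VeB κ x 2 1 0 6 false) PP tK tL pcB 2 1 0 6 false 0 67108864 16777216 x) :
    (AltEB 3 κ (eng.v x) (3 / 40) (tnt (h0 * x) (3 / 10)) PP tK tL tC pcB (scP esg pd) [⟨0, 1, 0, 67108864⟩, ⟨1, 1, 0, 67108864⟩, ⟨2, 2, 0, 16777216⟩] 2 1 3 0 6 (sgb true) (sgb false) x) := by
  refine altEB12 (altB12 (locB12 (div_S_le (k := 16) (by norm_num) (by norm_num)) (div_S_le (k := 64) (by norm_num) (by norm_num)) (Or.inr rfl) (m := 2) (fun i hi => ?_) (sG_X213_062m hx hx')))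
  fin_cases i
  · exact h0'
  · exact (sW_B213_061m hx hx').ve rfl (Or.inr rfl) (Or.inl rfl) (sideB hx hx') hκ (thdB hx hx') (sG_B213_061m hx hx')
  · exact absurd hi (by decide)
  · exact absurd hi (by decide)
  · exact absurd hi (by decide)
  · exact absurd hi (by decide)
  · exact absurd hi (by decide)

theorem alt12B_B213_07p {κ x : ℝ} (hκ : κ * h0 = ken x) (hx : ((697932185 : ℕ) : ℝ) / S ≤ x) (hx' : x ≤ (((697932185 : ℕ) : ℝ) + (42949674 : ℕ)) / S) :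
    AltEB 3 κ (eng.v x) (3 / 40) (tnt (h0 * x) (3 / 10)) PP tK tL tC pcB (scP esg pd) [⟨0, 1, 0, 67108864⟩, ⟨1, 1, 0, 67108864⟩, ⟨2, 2, 0, 16777216⟩] 2 1 3 0 7 (sgb true) (sgb true) x := by
  exact altEB12 (altB12_vac (div_S_le (k := 64) (by norm_num) (by norm_num)) (by show rh 0 ≤ 1; simp [rh]; try norm_num))

theorem alt12B_B213_07m {κ x : ℝ} (hκ : κ * h0 = ken x) (hx : ((697932185 : ℕ) : ℝ) / S ≤ x) (hx' : x ≤ (((697932185 : ℕ) : ℝ) + (42949674 : ℕ)) / S)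
    (h0' : SgB (VeB κ x 2 1 0 7 false) PP tK tL pcB 2 1 0 7 false 0 67108864 16777216 x) :
    (AltEB 3 κ (eng.v x) (3 / 40) (tnt (h0 * x) (3 / 10)) PP tK tL tC pcB (scP esg pd) [⟨0, 1, 0, 67108864⟩, ⟨1, 1, 0, 67108864⟩, ⟨2, 2, 0, 16777216⟩] 2 1 3 0 7 (sgb true) (sgb false) x) := by
  refine altEB12 (altB12 (locB12 (div_S_le (k := 16) (by norm_num) (by norm_num)) (div_S_le (k := 64) (by norm_num) (by norm_num)) (Or.inr rfl) (m := 2) (fun i hi => ?_) (sG_X213_072m hx hx')))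
  fin_cases i
  · exact h0'
  · exact (sW_B213_071m hx hx').ve rfl (Or.inr rfl) (Or.inl rfl) (sideB hx hx') hκ (thdB hx hx') (sG_B213_071m hx hx')
  · exact absurd hi (by decide)
  · exact absurd hi (by decide)
  · exact absurd hi (by decide)
  · exact absurd hi (by decide)
  · exact absurd hi (by decide)

theorem alt12B_B213_11p {κ x : ℝ} (hκ : κ * h0 = ken x) (hx : ((697932185 : ℕ) : ℝ) / S ≤ x) (hx' : x ≤ (((697932185 : ℕ) : ℝ) + (42949674 : ℕ)) / S) :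
    AltEB 3 κ (eng.v x) (3 / 40) (tnt (h0 * x) (3 / 10)) PP tK tL tC pcB (scP esg pd) [⟨0, 1, 0, 67108864⟩, ⟨1, 1, 0, 67108864⟩, ⟨2, 2, 0, 16777216⟩] 2 1 3 1 1 (sgb true) (sgb true) x := by
  exact altEB12 (altB12_vac (div_S_le (k := 64) (by norm_num) (by norm_num)) (by show rh 1 ≤ 1; simp [rh]; try norm_num))

theorem alt12B_B213_11m {κ x : ℝ} (hκ : κ * h0 = ken x) (hx : ((697932185 : ℕ) : ℝ) / S ≤ x) (hx' : x ≤ (((697932185 : ℕ) : ℝ) + (42949674 : ℕ)) / S) :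
    AltEB 3 κ (eng.v x) (3 / 40) (tnt (h0 * x) (3 / 10)) PP tK tL tC pcB (scP esg pd) [⟨0, 1, 0, 67108864⟩, ⟨1, 1, 0, 67108864⟩, ⟨2, 2, 0, 16777216⟩] 2 1 3 1 1 (sgb true) (sgb false) x := by
  refine altEB12 (altB12 (locB12 (div_S_le (k := 16) (by norm_num) (by norm_num)) (div_S_le (k := 64) (by norm_num) (by norm_num)) (Or.inr rfl) (m := 1) (fun i hi => ?_) (sG_X213_111m hx hx')))
  fin_cases i
  · exact (sW_B213_110m hx hx').ve rfl (Or.inr rfl) (Or.inl rfl) (sideB hx hx') hκ (thdB hx hx') (sG_B213_110m hx hx')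
  · exact absurd hi (by decide)
  · exact absurd hi (by decide)
  · exact absurd hi (by decide)
  · exact absurd hi (by decide)
  · exact absurd hi (by decide)
  · exact absurd hi (by decide)

theorem alt12B_B213_12p {κ x : ℝ} (hκ : κ * h0 = ken x) (hx : ((697932185 : ℕ) : ℝ) / S ≤ x) (hx' : x ≤ (((697932185 : ℕ) : ℝ) + (42949674 : ℕ)) / S) :
    AltEB 3 κ (eng.v x) (3 / 40) (tnt (h0 * x) (3 / 10)) PP tK tL tC pcB (scP esg pd) [⟨0, 1, 0, 67108864⟩, ⟨1, 1, 0, 67108864⟩, ⟨2, 2, 0, 16777216⟩] 2 1 3 1 2 (sgb true) (sgb true) x := by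
  exact altEB12 (altB12_vac (div_S_le (k := 64) (by norm_num) (by norm_num)) (by show rh 1 ≤ 1; simp [rh]; try norm_num))

theorem alt12B_B213_12m {κ x : ℝ} (hκ : κ * h0 = ken x) (hx : ((697932185 : ℕ) : ℝ) / S ≤ x) (hx' : x ≤ (((697932185 : ℕ) : ℝ) + (42949674 : ℕ)) / S) :
    AltEB 3 κ (eng.v x) (3 / 40) (tnt (h0 * x) (3 / 10)) PP tK tL tC pcB (scP esg pd) [⟨0, 1, 0, 67108864⟩, ⟨1, 1, 0, 67108864⟩, ⟨2, 2, 0, 16777216⟩] 2 1 3 1 2 (sgb true) (sgb false) x := by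
  refine altEB12 (altB12 (locB12 (div_S_le (k := 16) (by norm_num) (by norm_num)) (div_S_le (k := 64) (by norm_num) (by norm_num)) (Or.inr rfl) (m := 1) (fun i hi => ?_) (sG_X213_121m hx hx')))
  fin_cases i
  · exact (sW_B213_120m hx hx').ve rfl (Or.inr rfl) (Or.inl rfl) (sideB hx hx') hκ (thdB hx hx') (sG_B213_120m hx hx')
  · exact absurd hi (by decide)
  · exact absurd hi (by decide)
  · exact absurd hi (by decide)
  · exact absurd hi (by decide)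
  · exact absurd hi (by decide)
  · exact absurd hi (by decide)

theorem alt12B_B213_13p {κ x : ℝ} (hκ : κ * h0 = ken x) (hx : ((697932185 : ℕ) : ℝ) / S ≤ x) (hx' : x ≤ (((697932185 : ℕ) : ℝ) + (42949674 : ℕ)) / S) :
    AltEB 3 κ (eng.v x) (3 / 40) (tnt (h0 * x) (3 / 10)) PP tK tL tC pcB (scP esg pd) [⟨0, 1, 0, 67108864⟩, ⟨1, 1, 0, 67108864⟩, ⟨2, 2, 0, 16777216⟩] 2 1 3 1 3 (sgb true) (sgb true) x := by
  exact altEB12 (altB12_vac (div_S_le (k := 64) (by norm_num) (by norm_num)) (by show rh 1 ≤ 1; simp [rh]; try norm_num))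

theorem alt12B_B213_13m {κ x : ℝ} (hκ : κ * h0 = ken x) (hx : ((697932185 : ℕ) : ℝ) / S ≤ x) (hx' : x ≤ (((697932185 : ℕ) : ℝ) + (42949674 : ℕ)) / S) :
    AltEB 3 κ (eng.v x) (3 / 40) (tnt (h0 * x) (3 / 10)) PP tK tL tC pcB (scP esg pd) [⟨0, 1, 0, 67108864⟩, ⟨1, 1, 0, 67108864⟩, ⟨2, 2, 0, 16777216⟩] 2 1 3 1 3 (sgb true) (sgb false) x := by
  refine altEB12 (altB12 (locB12 (div_S_le (k := 16) (by norm_num) (by norm_num)) (div_S_le (k := 64) (by norm_num) (by norm_num)) (Or.inr rfl) (m := 1) (fun i hi => ?_) (sG_X213_131m hx hx')))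
  fin_cases i
  · exact (sW_B213_130m hx hx').ve rfl (Or.inr rfl) (Or.inl rfl) (sideB hx hx') hκ (thdB hx hx') (sG_B213_130m hx hx')
  · exact absurd hi (by decide)
  · exact absurd hi (by decide)
  · exact absurd hi (by decide)
  · exact absurd hi (by decide)
  · exact absurd hi (by decide)
  · exact absurd hi (by decide)

theorem alt12B_B213_14p {κ x : ℝ} (hκ : κ * h0 = ken x) (hx : ((697932185 : ℕ) : ℝ) / S ≤ x) (hx' : x ≤ (((697932185 : ℕ) : ℝ) + (42949674 : ℕ)) / S) :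
    AltEB 3 κ (eng.v x) (3 / 40) (tnt (h0 * x) (3 / 10)) PP tK tL tC pcB (scP esg pd) [⟨0, 1, 0, 67108864⟩, ⟨1, 1, 0, 67108864⟩, ⟨2, 2, 0, 16777216⟩] 2 1 3 1 4 (sgb true) (sgb true) x := by
  exact altEB12 (altB12_vac (div_S_le (k := 64) (by norm_num) (by norm_num)) (by show rh 1 ≤ 1; simp [rh]; try norm_num))

theorem alt12B_B213_14m {κ x : ℝ} (hκ : κ * h0 = ken x) (hx : ((697932185 : ℕ) : ℝ) / S ≤ x) (hx' : x ≤ (((697932185 : ℕ) : ℝ) + (42949674 : ℕ)) / S) :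
    AltEB 3 κ (eng.v x) (3 / 40) (tnt (h0 * x) (3 / 10)) PP tK tL tC pcB (scP esg pd) [⟨0, 1, 0, 67108864⟩, ⟨1, 1, 0, 67108864⟩, ⟨2, 2, 0, 16777216⟩] 2 1 3 1 4 (sgb true) (sgb false) x := by
  refine altEB12 (altB12 (locB12 (div_S_le (k := 16) (by norm_num) (by norm_num)) (div_S_le (k := 64) (by norm_num) (by norm_num)) (Or.inr rfl) (m := 1) (fun i hi => ?_) (sG_X213_141m hx hx')))
  fin_cases i
  · exact (sW_B213_140m hx hx').ve rfl (Or.inr rfl) (Or.inl rfl) (sideB hx hx') hκ (thdB hx hx') (sG_B213_140m hx hx')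
  · exact absurd hi (by decide)
  · exact absurd hi (by decide)
  · exact absurd hi (by decide)
  · exact absurd hi (by decide)
  · exact absurd hi (by decide)
  · exact absurd hi (by decide)

theorem alt12B_B213_15p {κ x : ℝ} (hκ : κ * h0 = ken x) (hx : ((697932185 : ℕ) : ℝ) / S ≤ x) (hx' : x ≤ (((697932185 : ℕ) : ℝ) + (42949674 : ℕ)) / S) :
    AltEB 3 κ (eng.v x) (3 / 40) (tnt (h0 * x) (3 / 10)) PP tK tL tC pcB (scP esg pd) [⟨0, 1, 0, 67108864⟩, ⟨1, 1, 0, 67108864⟩, ⟨2, 2, 0, 16777216⟩] 2 1 3 1 5 (sgb true) (sgb true) x := by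
  exact altEB12 (altB12_vac (div_S_le (k := 64) (by norm_num) (by norm_num)) (by show rh 1 ≤ 1; simp [rh]; try norm_num))

theorem alt12B_B213_15m {κ x : ℝ} (hκ : κ * h0 = ken x) (hx : ((697932185 : ℕ) : ℝ) / S ≤ x) (hx' : x ≤ (((697932185 : ℕ) : ℝ) + (42949674 : ℕ)) / S) :
    AltEB 3 κ (eng.v x) (3 / 40) (tnt (h0 * x) (3 / 10)) PP tK tL tC pcB (scP esg pd) [⟨0, 1, 0, 67108864⟩, ⟨1, 1, 0, 67108864⟩, ⟨2, 2, 0, 16777216⟩] 2 1 3 1 5 (sgb true) (sgb false) x := by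
  refine altEB12 (altB12 (locB12 (div_S_le (k := 16) (by norm_num) (by norm_num)) (div_S_le (k := 64) (by norm_num) (by norm_num)) (Or.inr rfl) (m := 2) (fun i hi => ?_) (sG_X213_152m hx hx')))
  fin_cases i
  · exact (sW_B213_150m hx hx').ve rfl (Or.inr rfl) (Or.inl rfl) (sideB hx hx') hκ (thdB hx hx') (sG_B213_150m hx hx')
  · exact (sW_B213_151m hx hx').ve rfl (Or.inr rfl) (Or.inl rfl) (sideB hx hx') hκ (thdB hx hx') (sG_B213_151m hx hx')
  · exact absurd hi (by decide)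
  · exact absurd hi (by decide)
  · exact absurd hi (by decide)
  · exact absurd hi (by decide)
  · exact absurd hi (by decide)

theorem alt12B_B213_16p {κ x : ℝ} (hκ : κ * h0 = ken x) (hx : ((697932185 : ℕ) : ℝ) / S ≤ x) (hx' : x ≤ (((697932185 : ℕ) : ℝ) + (42949674 : ℕ)) / S) :
    AltEB 3 κ (eng.v x) (3 / 40) (tnt (h0 * x) (3 / 10)) PP tK tL tC pcB (scP esg pd) [⟨0, 1, 0, 67108864⟩, ⟨1, 1, 0, 67108864⟩, ⟨2, 2, 0, 16777216⟩] 2 1 3 1 6 (sgb true) (sgb true) x := by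
  exact altEB12 (altB12_vac (div_S_le (k := 64) (by norm_num) (by norm_num)) (by show rh 1 ≤ 1; simp [rh]; try norm_num))

theorem alt12B_B213_16m {κ x : ℝ} (hκ : κ * h0 = ken x) (hx : ((697932185 : ℕ) : ℝ) / S ≤ x) (hx' : x ≤ (((697932185 : ℕ) : ℝ) + (42949674 : ℕ)) / S) :
    AltEB 3 κ (eng.v x) (3 / 40) (tnt (h0 * x) (3 / 10)) PP tK tL tC pcB (scP esg pd) [⟨0, 1, 0, 67108864⟩, ⟨1, 1, 0, 67108864⟩, ⟨2, 2, 0, 16777216⟩] 2 1 3 1 6 (sgb true) (sgb false) x := by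
  refine altEB12 (altB12 (locB12 (div_S_le (k := 16) (by norm_num) (by norm_num)) (div_S_le (k := 64) (by norm_num) (by norm_num)) (Or.inr rfl) (m := 2) (fun i hi => ?_) (sG_X213_162m hx hx')))
  fin_cases i
  · exact (sW_B213_160m hx hx').ve rfl (Or.inr rfl) (Or.inl rfl) (sideB hx hx') hκ (thdB hx hx') (sG_B213_160m hx hx')
  · exact (sW_B213_161m hx hx').ve rfl (Or.inr rfl) (Or.inl rfl) (sideB hx hx') hκ (thdB hx hx') (sG_B213_161m hx hx')
  · exact absurd hi (by decide)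
  · exact absurd hi (by decide)
  · exact absurd hi (by decide)
  · exact absurd hi (by decide)
  · exact absurd hi (by decide)

theorem alt12B_B213_17p {κ x : ℝ} (hκ : κ * h0 = ken x) (hx : ((697932185 : ℕ) : ℝ) / S ≤ x) (hx' : x ≤ (((697932185 : ℕ) : ℝ) + (42949674 : ℕ)) / S) :
    AltEB 3 κ (eng.v x) (3 / 40) (tnt (h0 * x) (3 / 10)) PP tK tL tC pcB (scP esg pd) [⟨0, 1, 0, 67108864⟩, ⟨1, 1, 0, 67108864⟩, ⟨2, 2, 0, 16777216⟩] 2 1 3 1 7 (sgb true) (sgb true) x := by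
  exact altEB12 (altB12_vac (div_S_le (k := 64) (by norm_num) (by norm_num)) (by show rh 1 ≤ 1; simp [rh]; try norm_num))

theorem alt12B_B213_17m {κ x : ℝ} (hκ : κ * h0 = ken x) (hx : ((697932185 : ℕ) : ℝ) / S ≤ x) (hx' : x ≤ (((697932185 : ℕ) : ℝ) + (42949674 : ℕ)) / S) :
    AltEB 3 κ (eng.v x) (3 / 40) (tnt (h0 * x) (3 / 10)) PP tK tL tC pcB (scP esg pd) [⟨0, 1, 0, 67108864⟩, ⟨1, 1, 0, 67108864⟩, ⟨2, 2, 0, 16777216⟩] 2 1 3 1 7 (sgb true) (sgb false) x := by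
  refine altEB12 (altB12 (locB12 (div_S_le (k := 16) (by norm_num) (by norm_num)) (div_S_le (k := 64) (by norm_num) (by norm_num)) (Or.inr rfl) (m := 2) (fun i hi => ?_) (sG_X213_172m hx hx')))
  fin_cases i
  · exact (sW_B213_170m hx hx').ve rfl (Or.inr rfl) (Or.inl rfl) (sideB hx hx') hκ (thdB hx hx') (sG_B213_170m hx hx')
  · exact (sW_B213_171m hx hx').ve rfl (Or.inr rfl) (Or.inl rfl) (sideB hx hx') hκ (thdB hx hx') (sG_B213_171m hx hx')
  · exact absurd hi (by decide)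
  · exact absurd hi (by decide)
  · exact absurd hi (by decide)
  · exact absurd hi (by decide)
  · exact absurd hi (by decide)

theorem alt12B_B213_21p {κ x : ℝ} (hκ : κ * h0 = ken x) (hx : ((697932185 : ℕ) : ℝ) / S ≤ x) (hx' : x ≤ (((697932185 : ℕ) : ℝ) + (42949674 : ℕ)) / S) :
    AltEB 3 κ (eng.v x) (3 / 40) (tnt (h0 * x) (3 / 10)) PP tK tL tC pcB (scP esg pd) [⟨0, 1, 0, 67108864⟩, ⟨1, 1, 0, 67108864⟩, ⟨2, 2, 0, 16777216⟩] 2 1 3 2 1 (sgb true) (sgb true) x := by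
  exact altEB12 (altB12_vac (div_S_le (k := 64) (by norm_num) (by norm_num)) (by show rh 2 ≤ 1; simp [rh]; try norm_num))

theorem alt12B_B213_21m {κ x : ℝ} (hκ : κ * h0 = ken x) (hx : ((697932185 : ℕ) : ℝ) / S ≤ x) (hx' : x ≤ (((697932185 : ℕ) : ℝ) + (42949674 : ℕ)) / S) :
    AltEB 3 κ (eng.v x) (3 / 40) (tnt (h0 * x) (3 / 10)) PP tK tL tC pcB (scP esg pd) [⟨0, 1, 0, 67108864⟩, ⟨1, 1, 0, 67108864⟩, ⟨2, 2, 0, 16777216⟩] 2 1 3 2 1 (sgb true) (sgb false) x := by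
  refine altEB12 (altB12 (locB12 (div_S_le (k := 16) (by norm_num) (by norm_num)) (div_S_le (k := 64) (by norm_num) (by norm_num)) (Or.inr rfl) (m := 1) (fun i hi => ?_) (sG_X213_211m hx hx')))
  fin_cases i
  · exact (sW_B213_210m hx hx').ve rfl (Or.inr rfl) (Or.inl rfl) (sideB hx hx') hκ (thdB hx hx') (sG_B213_210m hx hx')
  · exact absurd hi (by decide)
  · exact absurd hi (by decide)
  · exact absurd hi (by decide)
  · exact absurd hi (by decide)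
  · exact absurd hi (by decide)
  · exact absurd hi (by decide)

theorem alt12B_B213_22p {κ x : ℝ} (hκ : κ * h0 = ken x) (hx : ((697932185 : ℕ) : ℝ) / S ≤ x) (hx' : x ≤ (((697932185 : ℕ) : ℝ) + (42949674 : ℕ)) / S) :
    AltEB 3 κ (eng.v x) (3 / 40) (tnt (h0 * x) (3 / 10)) PP tK tL tC pcB (scP esg pd) [⟨0, 1, 0, 67108864⟩, ⟨1, 1, 0, 67108864⟩, ⟨2, 2, 0, 16777216⟩] 2 1 3 2 2 (sgb true) (sgb true) x := by
  exact altEB12 (altB12_vac (div_S_le (k := 64) (by norm_num) (by norm_num)) (by show rh 2 ≤ 1; simp [rh]; try norm_num))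

theorem alt12B_B213_22m {κ x : ℝ} (hκ : κ * h0 = ken x) (hx : ((697932185 : ℕ) : ℝ) / S ≤ x) (hx' : x ≤ (((697932185 : ℕ) : ℝ) + (42949674 : ℕ)) / S) :
    AltEB 3 κ (eng.v x) (3 / 40) (tnt (h0 * x) (3 / 10)) PP tK tL tC pcB (scP esg pd) [⟨0, 1, 0, 67108864⟩, ⟨1, 1, 0, 67108864⟩, ⟨2, 2, 0, 16777216⟩] 2 1 3 2 2 (sgb true) (sgb false) x := by
  refine altEB12 (altB12 (locB12 (div_S_le (k := 16) (by norm_num) (by norm_num)) (div_S_le (k := 64) (by norm_num) (by norm_num)) (Or.inr rfl) (m := 1) (fun i hi => ?_) (sG_X213_221m hx hx')))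
  fin_cases i
  · exact (sW_B213_220m hx hx').ve rfl (Or.inr rfl) (Or.inl rfl) (sideB hx hx') hκ (thdB hx hx') (sG_B213_220m hx hx')
  · exact absurd hi (by decide)
  · exact absurd hi (by decide)
  · exact absurd hi (by decide)
  · exact absurd hi (by decide)
  · exact absurd hi (by decide)
  · exact absurd hi (by decide)

theorem alt12B_B213_23p {κ x : ℝ} (hκ : κ * h0 = ken x) (hx : ((697932185 : ℕ) : ℝ) / S ≤ x) (hx' : x ≤ (((697932185 : ℕ) : ℝ) + (42949674 : ℕ)) / S) :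
    AltEB 3 κ (eng.v x) (3 / 40) (tnt (h0 * x) (3 / 10)) PP tK tL tC pcB (scP esg pd) [⟨0, 1, 0, 67108864⟩, ⟨1, 1, 0, 67108864⟩, ⟨2, 2, 0, 16777216⟩] 2 1 3 2 3 (sgb true) (sgb true) x := by
  exact altEB12 (altB12_vac (div_S_le (k := 64) (by norm_num) (by norm_num)) (by show rh 2 ≤ 1; simp [rh]; try norm_num))

theorem alt12B_B213_23m {κ x : ℝ} (hκ : κ * h0 = ken x) (hx : ((697932185 : ℕ) : ℝ) / S ≤ x) (hx' : x ≤ (((697932185 : ℕ) : ℝ) + (42949674 : ℕ)) / S) :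
    AltEB 3 κ (eng.v x) (3 / 40) (tnt (h0 * x) (3 / 10)) PP tK tL tC pcB (scP esg pd) [⟨0, 1, 0, 67108864⟩, ⟨1, 1, 0, 67108864⟩, ⟨2, 2, 0, 16777216⟩] 2 1 3 2 3 (sgb true) (sgb false) x := by
  refine altEB12 (altB12 (locB12 (div_S_le (k := 16) (by norm_num) (by norm_num)) (div_S_le (k := 64) (by norm_num) (by norm_num)) (Or.inr rfl) (m := 1) (fun i hi => ?_) (sG_X213_231m hx hx')))
  fin_cases i
  · exact (sW_B213_230m hx hx').ve rfl (Or.inr rfl) (Or.inl rfl) (sideB hx hx') hκ (thdB hx hx') (sG_B213_230m hx hx')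
  · exact absurd hi (by decide)
  · exact absurd hi (by decide)
  · exact absurd hi (by decide)
  · exact absurd hi (by decide)
  · exact absurd hi (by decide)
  · exact absurd hi (by decide)

theorem alt12B_B213_24p {κ x : ℝ} (hκ : κ * h0 = ken x) (hx : ((697932185 : ℕ) : ℝ) / S ≤ x) (hx' : x ≤ (((697932185 : ℕ) : ℝ) + (42949674 : ℕ)) / S) :
    AltEB 3 κ (eng.v x) (3 / 40) (tnt (h0 * x) (3 / 10)) PP tK tL tC pcB (scP esg pd) [⟨0, 1, 0, 67108864⟩, ⟨1, 1, 0, 67108864⟩, ⟨2, 2, 0, 16777216⟩] 2 1 3 2 4 (sgb true) (sgb true) x := by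
  exact altEB12 (altB12_vac (div_S_le (k := 64) (by norm_num) (by norm_num)) (by show rh 2 ≤ 1; simp [rh]; try norm_num))

theorem alt12B_B213_24m {κ x : ℝ} (hκ : κ * h0 = ken x) (hx : ((697932185 : ℕ) : ℝ) / S ≤ x) (hx' : x ≤ (((697932185 : ℕ) : ℝ) + (42949674 : ℕ)) / S) :
    AltEB 3 κ (eng.v x) (3 / 40) (tnt (h0 * x) (3 / 10)) PP tK tL tC pcB (scP esg pd) [⟨0, 1, 0, 67108864⟩, ⟨1, 1, 0, 67108864⟩, ⟨2, 2, 0, 16777216⟩] 2 1 3 2 4 (sgb true) (sgb false) x := by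
  refine altEB12 (altB12 (locB12 (div_S_le (k := 16) (by norm_num) (by norm_num)) (div_S_le (k := 64) (by norm_num) (by norm_num)) (Or.inr rfl) (m := 1) (fun i hi => ?_) (sG_X213_241m hx hx')))
  fin_cases i
  · exact (sW_B213_240m hx hx').ve rfl (Or.inr rfl) (Or.inl rfl) (sideB hx hx') hκ (thdB hx hx') (sG_B213_240m hx hx')
  · exact absurd hi (by decide)
  · exact absurd hi (by decide)
  · exact absurd hi (by decide)
  · exact absurd hi (by decide)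
  · exact absurd hi (by decide)
  · exact absurd hi (by decide)

theorem alt12B_B213_25p {κ x : ℝ} (hκ : κ * h0 = ken x) (hx : ((697932185 : ℕ) : ℝ) / S ≤ x) (hx' : x ≤ (((697932185 : ℕ) : ℝ) + (42949674 : ℕ)) / S) :
    AltEB 3 κ (eng.v x) (3 / 40) (tnt (h0 * x) (3 / 10)) PP tK tL tC pcB (scP esg pd) [⟨0, 1, 0, 67108864⟩, ⟨1, 1, 0, 67108864⟩, ⟨2, 2, 0, 16777216⟩] 2 1 3 2 5 (sgb true) (sgb true) x := by
  exact altEB12 (altB12_vac (div_S_le (k := 64) (by norm_num) (by norm_num)) (by show rh 2 ≤ 1; simp [rh]; try norm_num))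

theorem alt12B_B213_25m {κ x : ℝ} (hκ : κ * h0 = ken x) (hx : ((697932185 : ℕ) : ℝ) / S ≤ x) (hx' : x ≤ (((697932185 : ℕ) : ℝ) + (42949674 : ℕ)) / S) :
    AltEB 3 κ (eng.v x) (3 / 40) (tnt (h0 * x) (3 / 10)) PP tK tL tC pcB (scP esg pd) [⟨0, 1, 0, 67108864⟩, ⟨1, 1, 0, 67108864⟩, ⟨2, 2, 0, 16777216⟩] 2 1 3 2 5 (sgb true) (sgb false) x := by
  refine altEB12 (altB12 (locB12 (div_S_le (k := 16) (by norm_num) (by norm_num)) (div_S_le (k := 64) (by norm_num) (by norm_num)) (Or.inr rfl) (m := 2) (fun i hi => ?_) (sG_X213_252m hx hx')))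
  fin_cases i
  · exact (sW_B213_250m hx hx').ve rfl (Or.inr rfl) (Or.inl rfl) (sideB hx hx') hκ (thdB hx hx') (sG_B213_250m hx hx')
  · exact (sW_B213_251m hx hx').ve rfl (Or.inr rfl) (Or.inl rfl) (sideB hx hx') hκ (thdB hx hx') (sG_B213_251m hx hx')
  · exact absurd hi (by decide)
  · exact absurd hi (by decide)
  · exact absurd hi (by decide)
  · exact absurd hi (by decide)
  · exact absurd hi (by decide)

theorem alt12B_B213_26p {κ x : ℝ} (hκ : κ * h0 = ken x) (hx : ((697932185 : ℕ) : ℝ) / S ≤ x) (hx' : x ≤ (((697932185 : ℕ) : ℝ) + (42949674 : ℕ)) / S) :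
    AltEB 3 κ (eng.v x) (3 / 40) (tnt (h0 * x) (3 / 10)) PP tK tL tC pcB (scP esg pd) [⟨0, 1, 0, 67108864⟩, ⟨1, 1, 0, 67108864⟩, ⟨2, 2, 0, 16777216⟩] 2 1 3 2 6 (sgb true) (sgb true) x := by
  exact altEB12 (altB12_vac (div_S_le (k := 64) (by norm_num) (by norm_num)) (by show rh 2 ≤ 1; simp [rh]; try norm_num))

theorem alt12B_B213_26m {κ x : ℝ} (hκ : κ * h0 = ken x) (hx : ((697932185 : ℕ) : ℝ) / S ≤ x) (hx' : x ≤ (((697932185 : ℕ) : ℝ) + (42949674 : ℕ)) / S) :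
    AltEB 3 κ (eng.v x) (3 / 40) (tnt (h0 * x) (3 / 10)) PP tK tL tC pcB (scP esg pd) [⟨0, 1, 0, 67108864⟩, ⟨1, 1, 0, 67108864⟩, ⟨2, 2, 0, 16777216⟩] 2 1 3 2 6 (sgb true) (sgb false) x := by
  refine altEB12 (altB12 (locB12 (div_S_le (k := 16) (by norm_num) (by norm_num)) (div_S_le (k := 64) (by norm_num) (by norm_num)) (Or.inr rfl) (m := 2) (fun i hi => ?_) (sG_X213_262m hx hx')))
  fin_cases i
  · exact (sW_B213_260m hx hx').ve rfl (Or.inr rfl) (Or.inl rfl) (sideB hx hx') hκ (thdB hx hx') (sG_B213_260m hx hx')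
  · exact (sW_B213_261m hx hx').ve rfl (Or.inr rfl) (Or.inl rfl) (sideB hx hx') hκ (thdB hx hx') (sG_B213_261m hx hx')
  · exact absurd hi (by decide)
  · exact absurd hi (by decide)
  · exact absurd hi (by decide)
  · exact absurd hi (by decide)
  · exact absurd hi (by decide)

theorem alt12B_B213_27p {κ x : ℝ} (hκ : κ * h0 = ken x) (hx : ((697932185 : ℕ) : ℝ) / S ≤ x) (hx' : x ≤ (((697932185 : ℕ) : ℝ) + (42949674 : ℕ)) / S) :
    AltEB 3 κ (eng.v x) (3 / 40) (tnt (h0 * x) (3 / 10)) PP tK tL tC pcB (scP esg pd) [⟨0, 1, 0, 67108864⟩, ⟨1, 1, 0, 67108864⟩, ⟨2, 2, 0, 16777216⟩] 2 1 3 2 7 (sgb true) (sgb true) x := by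
  exact altEB12 (altB12_vac (div_S_le (k := 64) (by norm_num) (by norm_num)) (by show rh 2 ≤ 1; simp [rh]; try norm_num))

theorem alt12B_B213_27m {κ x : ℝ} (hκ : κ * h0 = ken x) (hx : ((697932185 : ℕ) : ℝ) / S ≤ x) (hx' : x ≤ (((697932185 : ℕ) : ℝ) + (42949674 : ℕ)) / S) :
    AltEB 3 κ (eng.v x) (3 / 40) (tnt (h0 * x) (3 / 10)) PP tK tL tC pcB (scP esg pd) [⟨0, 1, 0, 67108864⟩, ⟨1, 1, 0, 67108864⟩, ⟨2, 2, 0, 16777216⟩] 2 1 3 2 7 (sgb true) (sgb false) x := by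
  refine altEB12 (altB12 (locB12 (div_S_le (k := 16) (by norm_num) (by norm_num)) (div_S_le (k := 64) (by norm_num) (by norm_num)) (Or.inr rfl) (m := 2) (fun i hi => ?_) (sG_X213_272m hx hx')))
  fin_cases i
  · exact (sW_B213_270m hx hx').ve rfl (Or.inr rfl) (Or.inl rfl) (sideB hx hx') hκ (thdB hx hx') (sG_B213_270m hx hx')
  · exact (sW_B213_271m hx hx').ve rfl (Or.inr rfl) (Or.inl rfl) (sideB hx hx') hκ (thdB hx hx') (sG_B213_271m hx hx')
  · exact absurd hi (by decide)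
  · exact absurd hi (by decide)
  · exact absurd hi (by decide)
  · exact absurd hi (by decide)
  · exact absurd hi (by decide)

theorem alt12B_B213_31p {κ x : ℝ} (hκ : κ * h0 = ken x) (hx : ((697932185 : ℕ) : ℝ) / S ≤ x) (hx' : x ≤ (((697932185 : ℕ) : ℝ) + (42949674 : ℕ)) / S) :
    AltEB 3 κ (eng.v x) (3 / 40) (tnt (h0 * x) (3 / 10)) PP tK tL tC pcB (scP esg pd) [⟨0, 1, 0, 67108864⟩, ⟨1, 1, 0, 67108864⟩, ⟨2, 2, 0, 16777216⟩] 2 1 3 3 1 (sgb true) (sgb true) x := by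
  exact altEB12 (altB12_vac (div_S_le (k := 64) (by norm_num) (by norm_num)) (by show rh 3 ≤ 1; simp [rh]; try norm_num))

theorem alt12B_B213_31m {κ x : ℝ} (hκ : κ * h0 = ken x) (hx : ((697932185 : ℕ) : ℝ) / S ≤ x) (hx' : x ≤ (((697932185 : ℕ) : ℝ) + (42949674 : ℕ)) / S) :
    AltEB 3 κ (eng.v x) (3 / 40) (tnt (h0 * x) (3 / 10)) PP tK tL tC pcB (scP esg pd) [⟨0, 1, 0, 67108864⟩, ⟨1, 1, 0, 67108864⟩, ⟨2, 2, 0, 16777216⟩] 2 1 3 3 1 (sgb true) (sgb false) x := by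
  refine altEB12 (altB12 (locB12 (div_S_le (k := 16) (by norm_num) (by norm_num)) (div_S_le (k := 64) (by norm_num) (by norm_num)) (Or.inr rfl) (m := 1) (fun i hi => ?_) (sG_X213_311m hx hx')))
  fin_cases i
  · exact (sW_B213_310m hx hx').ve rfl (Or.inr rfl) (Or.inl rfl) (sideB hx hx') hκ (thdB hx hx') (sG_B213_310m hx hx')
  · exact absurd hi (by decide)
  · exact absurd hi (by decide)
  · exact absurd hi (by decide)
  · exact absurd hi (by decide)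
  · exact absurd hi (by decide)
  · exact absurd hi (by decide)

theorem alt12B_B213_32p {κ x : ℝ} (hκ : κ * h0 = ken x) (hx : ((697932185 : ℕ) : ℝ) / S ≤ x) (hx' : x ≤ (((697932185 : ℕ) : ℝ) + (42949674 : ℕ)) / S) :
    AltEB 3 κ (eng.v x) (3 / 40) (tnt (h0 * x) (3 / 10)) PP tK tL tC pcB (scP esg pd) [⟨0, 1, 0, 67108864⟩, ⟨1, 1, 0, 67108864⟩, ⟨2, 2, 0, 16777216⟩] 2 1 3 3 2 (sgb true) (sgb true) x := by
  exact altEB12 (altB12_vac (div_S_le (k := 64) (by norm_num) (by norm_num)) (by show rh 3 ≤ 1; simp [rh]; try norm_num))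

theorem alt12B_B213_32m {κ x : ℝ} (hκ : κ * h0 = ken x) (hx : ((697932185 : ℕ) : ℝ) / S ≤ x) (hx' : x ≤ (((697932185 : ℕ) : ℝ) + (42949674 : ℕ)) / S) :
    AltEB 3 κ (eng.v x) (3 / 40) (tnt (h0 * x) (3 / 10)) PP tK tL tC pcB (scP esg pd) [⟨0, 1, 0, 67108864⟩, ⟨1, 1, 0, 67108864⟩, ⟨2, 2, 0, 16777216⟩] 2 1 3 3 2 (sgb true) (sgb false) x := by
  refine altEB12 (altB12 (locB12 (div_S_le (k := 16) (by norm_num) (by norm_num)) (div_S_le (k := 64) (by norm_num) (by norm_num)) (Or.inr rfl) (m := 1) (fun i hi => ?_) (sG_X213_321m hx hx')))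
  fin_cases i
  · exact (sW_B213_320m hx hx').ve rfl (Or.inr rfl) (Or.inl rfl) (sideB hx hx') hκ (thdB hx hx') (sG_B213_320m hx hx')
  · exact absurd hi (by decide)
  · exact absurd hi (by decide)
  · exact absurd hi (by decide)
  · exact absurd hi (by decide)
  · exact absurd hi (by decide)
  · exact absurd hi (by decide)

theorem alt12B_B213_33p {κ x : ℝ} (hκ : κ * h0 = ken x) (hx : ((697932185 : ℕ) : ℝ) / S ≤ x) (hx' : x ≤ (((697932185 : ℕ) : ℝ) + (42949674 : ℕ)) / S) :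
    AltEB 3 κ (eng.v x) (3 / 40) (tnt (h0 * x) (3 / 10)) PP tK tL tC pcB (scP esg pd) [⟨0, 1, 0, 67108864⟩, ⟨1, 1, 0, 67108864⟩, ⟨2, 2, 0, 16777216⟩] 2 1 3 3 3 (sgb true) (sgb true) x := by
  exact altEB12 (altB12_vac (div_S_le (k := 64) (by norm_num) (by norm_num)) (by show rh 3 ≤ 1; simp [rh]; try norm_num))

theorem alt12B_B213_33m {κ x : ℝ} (hκ : κ * h0 = ken x) (hx : ((697932185 : ℕ) : ℝ) / S ≤ x) (hx' : x ≤ (((697932185 : ℕ) : ℝ) + (42949674 : ℕ)) / S) :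
    AltEB 3 κ (eng.v x) (3 / 40) (tnt (h0 * x) (3 / 10)) PP tK tL tC pcB (scP esg pd) [⟨0, 1, 0, 67108864⟩, ⟨1, 1, 0, 67108864⟩, ⟨2, 2, 0, 16777216⟩] 2 1 3 3 3 (sgb true) (sgb false) x := by
  refine altEB12 (altB12 (locB12 (div_S_le (k := 16) (by norm_num) (by norm_num)) (div_S_le (k := 64) (by norm_num) (by norm_num)) (Or.inr rfl) (m := 1) (fun i hi => ?_) (sG_X213_331m hx hx')))
  fin_cases i
  · exact (sW_B213_330m hx hx').ve rfl (Or.inr rfl) (Or.inl rfl) (sideB hx hx') hκ (thdB hx hx') (sG_B213_330m hx hx')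
  · exact absurd hi (by decide)
  · exact absurd hi (by decide)
  · exact absurd hi (by decide)
  · exact absurd hi (by decide)
  · exact absurd hi (by decide)
  · exact absurd hi (by decide)

theorem alt12B_B213_34p {κ x : ℝ} (hκ : κ * h0 = ken x) (hx : ((697932185 : ℕ) : ℝ) / S ≤ x) (hx' : x ≤ (((697932185 : ℕ) : ℝ) + (42949674 : ℕ)) / S) :
    AltEB 3 κ (eng.v x) (3 / 40) (tnt (h0 * x) (3 / 10)) PP tK tL tC pcB (scP esg pd) [⟨0, 1, 0, 67108864⟩, ⟨1, 1, 0, 67108864⟩, ⟨2, 2, 0, 16777216⟩] 2 1 3 3 4 (sgb true) (sgb true) x := by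
  exact altEB12 (altB12_vac (div_S_le (k := 64) (by norm_num) (by norm_num)) (by show rh 3 ≤ 1; simp [rh]; try norm_num))

theorem alt12B_B213_34m {κ x : ℝ} (hκ : κ * h0 = ken x) (hx : ((697932185 : ℕ) : ℝ) / S ≤ x) (hx' : x ≤ (((697932185 : ℕ) : ℝ) + (42949674 : ℕ)) / S) :
    AltEB 3 κ (eng.v x) (3 / 40) (tnt (h0 * x) (3 / 10)) PP tK tL tC pcB (scP esg pd) [⟨0, 1, 0, 67108864⟩, ⟨1, 1, 0, 67108864⟩, ⟨2, 2, 0, 16777216⟩] 2 1 3 3 4 (sgb true) (sgb false) x := by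
  refine altEB12 (altB12 (locB12 (div_S_le (k := 16) (by norm_num) (by norm_num)) (div_S_le (k := 64) (by norm_num) (by norm_num)) (Or.inr rfl) (m := 1) (fun i hi => ?_) (sG_X213_341m hx hx')))
  fin_cases i
  · exact (sW_B213_340m hx hx').ve rfl (Or.inr rfl) (Or.inl rfl) (sideB hx hx') hκ (thdB hx hx') (sG_B213_340m hx hx')
  · exact absurd hi (by decide)
  · exact absurd hi (by decide)
  · exact absurd hi (by decide)
  · exact absurd hi (by decide)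
  · exact absurd hi (by decide)
  · exact absurd hi (by decide)

theorem alt12B_B213_35p {κ x : ℝ} (hκ : κ * h0 = ken x) (hx : ((697932185 : ℕ) : ℝ) / S ≤ x) (hx' : x ≤ (((697932185 : ℕ) : ℝ) + (42949674 : ℕ)) / S) :
    AltEB 3 κ (eng.v x) (3 / 40) (tnt (h0 * x) (3 / 10)) PP tK tL tC pcB (scP esg pd) [⟨0, 1, 0, 67108864⟩, ⟨1, 1, 0, 67108864⟩, ⟨2, 2, 0, 16777216⟩] 2 1 3 3 5 (sgb true) (sgb true) x := by
  exact altEB12 (altB12_vac (div_S_le (k := 64) (by norm_num) (by norm_num)) (by show rh 3 ≤ 1; simp [rh]; try norm_num))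

theorem alt12B_B213_35m {κ x : ℝ} (hκ : κ * h0 = ken x) (hx : ((697932185 : ℕ) : ℝ) / S ≤ x) (hx' : x ≤ (((697932185 : ℕ) : ℝ) + (42949674 : ℕ)) / S) :
    AltEB 3 κ (eng.v x) (3 / 40) (tnt (h0 * x) (3 / 10)) PP tK tL tC pcB (scP esg pd) [⟨0, 1, 0, 67108864⟩, ⟨1, 1, 0, 67108864⟩, ⟨2, 2, 0, 16777216⟩] 2 1 3 3 5 (sgb true) (sgb false) x := by
  refine altEB12 (altB12 (locB12 (div_S_le (k := 16) (by norm_num) (by norm_num)) (div_S_le (k := 64) (by norm_num) (by norm_num)) (Or.inr rfl) (m := 2) (fun i hi => ?_) (sG_X213_352m hx hx')))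
  fin_cases i
  · exact (sW_B213_350m hx hx').ve rfl (Or.inr rfl) (Or.inl rfl) (sideB hx hx') hκ (thdB hx hx') (sG_B213_350m hx hx')
  · exact (sW_B213_351m hx hx').ve rfl (Or.inr rfl) (Or.inl rfl) (sideB hx hx') hκ (thdB hx hx') (sG_B213_351m hx hx')
  · exact absurd hi (by decide)
  · exact absurd hi (by decide)
  · exact absurd hi (by decide)
  · exact absurd hi (by decide)
  · exact absurd hi (by decide)

theorem alt12B_B213_36p {κ x : ℝ} (hκ : κ * h0 = ken x) (hx : ((697932185 : ℕ) : ℝ) / S ≤ x) (hx' : x ≤ (((697932185 : ℕ) : ℝ) + (42949674 : ℕ)) / S) :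
    AltEB 3 κ (eng.v x) (3 / 40) (tnt (h0 * x) (3 / 10)) PP tK tL tC pcB (scP esg pd) [⟨0, 1, 0, 67108864⟩, ⟨1, 1, 0, 67108864⟩, ⟨2, 2, 0, 16777216⟩] 2 1 3 3 6 (sgb true) (sgb true) x := by
  exact altEB12 (altB12_vac (div_S_le (k := 64) (by norm_num) (by norm_num)) (by show rh 3 ≤ 1; simp [rh]; try norm_num))

theorem alt12B_B213_36m {κ x : ℝ} (hκ : κ * h0 = ken x) (hx : ((697932185 : ℕ) : ℝ) / S ≤ x) (hx' : x ≤ (((697932185 : ℕ) : ℝ) + (42949674 : ℕ)) / S) :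
    AltEB 3 κ (eng.v x) (3 / 40) (tnt (h0 * x) (3 / 10)) PP tK tL tC pcB (scP esg pd) [⟨0, 1, 0, 67108864⟩, ⟨1, 1, 0, 67108864⟩, ⟨2, 2, 0, 16777216⟩] 2 1 3 3 6 (sgb true) (sgb false) x := by
  refine altEB12 (altB12 (locB12 (div_S_le (k := 16) (by norm_num) (by norm_num)) (div_S_le (k := 64) (by norm_num) (by norm_num)) (Or.inr rfl) (m := 2) (fun i hi => ?_) (sG_X213_362m hx hx')))
  fin_cases i
  · exact (sW_B213_360m hx hx').ve rfl (Or.inr rfl) (Or.inl rfl) (sideB hx hx') hκ (thdB hx hx') (sG_B213_360m hx hx')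
  · exact (sW_B213_361m hx hx').ve rfl (Or.inr rfl) (Or.inl rfl) (sideB hx hx') hκ (thdB hx hx') (sG_B213_361m hx hx')
  · exact absurd hi (by decide)
  · exact absurd hi (by decide)
  · exact absurd hi (by decide)
  · exact absurd hi (by decide)
  · exact absurd hi (by decide)

theorem alt12B_B213_37p {κ x : ℝ} (hκ : κ * h0 = ken x) (hx : ((697932185 : ℕ) : ℝ) / S ≤ x) (hx' : x ≤ (((697932185 : ℕ) : ℝ) + (42949674 : ℕ)) / S) :
    AltEB 3 κ (eng.v x) (3 / 40) (tnt (h0 * x) (3 / 10)) PP tK tL tC pcB (scP esg pd) [⟨0, 1, 0, 67108864⟩, ⟨1, 1, 0, 67108864⟩, ⟨2, 2, 0, 16777216⟩] 2 1 3 3 7 (sgb true) (sgb true) x := by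
  exact altEB12 (altB12_vac (div_S_le (k := 64) (by norm_num) (by norm_num)) (by show rh 3 ≤ 1; simp [rh]; try norm_num))

theorem alt12B_B213_37m {κ x : ℝ} (hκ : κ * h0 = ken x) (hx : ((697932185 : ℕ) : ℝ) / S ≤ x) (hx' : x ≤ (((697932185 : ℕ) : ℝ) + (42949674 : ℕ)) / S) :
    AltEB 3 κ (eng.v x) (3 / 40) (tnt (h0 * x) (3 / 10)) PP tK tL tC pcB (scP esg pd) [⟨0, 1, 0, 67108864⟩, ⟨1, 1, 0, 67108864⟩, ⟨2, 2, 0, 16777216⟩] 2 1 3 3 7 (sgb true) (sgb false) x := by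
  refine altEB12 (altB12 (locB12 (div_S_le (k := 16) (by norm_num) (by norm_num)) (div_S_le (k := 64) (by norm_num) (by norm_num)) (Or.inr rfl) (m := 2) (fun i hi => ?_) (sG_X213_372m hx hx')))
  fin_cases i
  · exact (sW_B213_370m hx hx').ve rfl (Or.inr rfl) (Or.inl rfl) (sideB hx hx') hκ (thdB hx hx') (sG_B213_370m hx hx')
  · exact (sW_B213_371m hx hx').ve rfl (Or.inr rfl) (Or.inl rfl) (sideB hx hx') hκ (thdB hx hx') (sG_B213_371m hx hx')
  · exact absurd hi (by decide)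
  · exact absurd hi (by decide)
  · exact absurd hi (by decide)
  · exact absurd hi (by decide)
  · exact absurd hi (by decide)

theorem alt12B_B213_41p {κ x : ℝ} (hκ : κ * h0 = ken x) (hx : ((697932185 : ℕ) : ℝ) / S ≤ x) (hx' : x ≤ (((697932185 : ℕ) : ℝ) + (42949674 : ℕ)) / S) :
    AltEB 3 κ (eng.v x) (3 / 40) (tnt (h0 * x) (3 / 10)) PP tK tL tC pcB (scP esg pd) [⟨0, 1, 0, 67108864⟩, ⟨1, 1, 0, 67108864⟩, ⟨2, 2, 0, 16777216⟩] 2 1 3 4 1 (sgb true) (sgb true) x := by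
  exact altEB12 (altB12_vac (div_S_le (k := 64) (by norm_num) (by norm_num)) (by show rh 4 ≤ 1; simp [rh]; try norm_num))

theorem alt12B_B213_41m {κ x : ℝ} (hκ : κ * h0 = ken x) (hx : ((697932185 : ℕ) : ℝ) / S ≤ x) (hx' : x ≤ (((697932185 : ℕ) : ℝ) + (42949674 : ℕ)) / S) :
    AltEB 3 κ (eng.v x) (3 / 40) (tnt (h0 * x) (3 / 10)) PP tK tL tC pcB (scP esg pd) [⟨0, 1, 0, 67108864⟩, ⟨1, 1, 0, 67108864⟩, ⟨2, 2, 0, 16777216⟩] 2 1 3 4 1 (sgb true) (sgb false) x := by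
  refine altEB12 (altB12 (locB12 (div_S_le (k := 16) (by norm_num) (by norm_num)) (div_S_le (k := 64) (by norm_num) (by norm_num)) (Or.inr rfl) (m := 1) (fun i hi => ?_) (sG_X213_411m hx hx')))
  fin_cases i
  · exact (sW_B213_410m hx hx').ve rfl (Or.inr rfl) (Or.inl rfl) (sideB hx hx') hκ (thdB hx hx') (sG_B213_410m hx hx')
  · exact absurd hi (by decide)
  · exact absurd hi (by decide)
  · exact absurd hi (by decide)
  · exact absurd hi (by decide)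
  · exact absurd hi (by decide)
  · exact absurd hi (by decide)

theorem alt12B_B213_42p {κ x : ℝ} (hκ : κ * h0 = ken x) (hx : ((697932185 : ℕ) : ℝ) / S ≤ x) (hx' : x ≤ (((697932185 : ℕ) : ℝ) + (42949674 : ℕ)) / S) :
    AltEB 3 κ (eng.v x) (3 / 40) (tnt (h0 * x) (3 / 10)) PP tK tL tC pcB (scP esg pd) [⟨0, 1, 0, 67108864⟩, ⟨1, 1, 0, 67108864⟩, ⟨2, 2, 0, 16777216⟩] 2 1 3 4 2 (sgb true) (sgb true) x := by
  exact altEB12 (altB12_vac (div_S_le (k := 64) (by norm_num) (by norm_num)) (by show rh 4 ≤ 1; simp [rh]; try norm_num))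

theorem alt12B_B213_42m {κ x : ℝ} (hκ : κ * h0 = ken x) (hx : ((697932185 : ℕ) : ℝ) / S ≤ x) (hx' : x ≤ (((697932185 : ℕ) : ℝ) + (42949674 : ℕ)) / S) :
    AltEB 3 κ (eng.v x) (3 / 40) (tnt (h0 * x) (3 / 10)) PP tK tL tC pcB (scP esg pd) [⟨0, 1, 0, 67108864⟩, ⟨1, 1, 0, 67108864⟩, ⟨2, 2, 0, 16777216⟩] 2 1 3 4 2 (sgb true) (sgb false) x := by
  refine altEB12 (altB12 (locB12 (div_S_le (k := 16) (by norm_num) (by norm_num)) (div_S_le (k := 64) (by norm_num) (by norm_num)) (Or.inr rfl) (m := 1) (fun i hi => ?_) (sG_X213_421m hx hx')))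
  fin_cases i
  · exact (sW_B213_420m hx hx').ve rfl (Or.inr rfl) (Or.inl rfl) (sideB hx hx') hκ (thdB hx hx') (sG_B213_420m hx hx')
  · exact absurd hi (by decide)
  · exact absurd hi (by decide)
  · exact absurd hi (by decide)
  · exact absurd hi (by decide)
  · exact absurd hi (by decide)
  · exact absurd hi (by decide)

theorem alt12B_B213_43p {κ x : ℝ} (hκ : κ * h0 = ken x) (hx : ((697932185 : ℕ) : ℝ) / S ≤ x) (hx' : x ≤ (((697932185 : ℕ) : ℝ) + (42949674 : ℕ)) / S) :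
    AltEB 3 κ (eng.v x) (3 / 40) (tnt (h0 * x) (3 / 10)) PP tK tL tC pcB (scP esg pd) [⟨0, 1, 0, 67108864⟩, ⟨1, 1, 0, 67108864⟩, ⟨2, 2, 0, 16777216⟩] 2 1 3 4 3 (sgb true) (sgb true) x := by
  exact altEB12 (altB12_vac (div_S_le (k := 64) (by norm_num) (by norm_num)) (by show rh 4 ≤ 1; simp [rh]; try norm_num))

theorem alt12B_B213_43m {κ x : ℝ} (hκ : κ * h0 = ken x) (hx : ((697932185 : ℕ) : ℝ) / S ≤ x) (hx' : x ≤ (((697932185 : ℕ) : ℝ) + (42949674 : ℕ)) / S) :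
    AltEB 3 κ (eng.v x) (3 / 40) (tnt (h0 * x) (3 / 10)) PP tK tL tC pcB (scP esg pd) [⟨0, 1, 0, 67108864⟩, ⟨1, 1, 0, 67108864⟩, ⟨2, 2, 0, 16777216⟩] 2 1 3 4 3 (sgb true) (sgb false) x := by
  refine altEB12 (altB12 (locB12 (div_S_le (k := 16) (by norm_num) (by norm_num)) (div_S_le (k := 64) (by norm_num) (by norm_num)) (Or.inr rfl) (m := 1) (fun i hi => ?_) (sG_X213_431m hx hx')))
  fin_cases i
  · exact (sW_B213_430m hx hx').ve rfl (Or.inr rfl) (Or.inl rfl) (sideB hx hx') hκ (thdB hx hx') (sG_B213_430m hx hx')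
  · exact absurd hi (by decide)
  · exact absurd hi (by decide)
  · exact absurd hi (by decide)
  · exact absurd hi (by decide)
  · exact absurd hi (by decide)
  · exact absurd hi (by decide)

theorem alt12B_B213_44p {κ x : ℝ} (hκ : κ * h0 = ken x) (hx : ((697932185 : ℕ) : ℝ) / S ≤ x) (hx' : x ≤ (((697932185 : ℕ) : ℝ) + (42949674 : ℕ)) / S) :
    AltEB 3 κ (eng.v x) (3 / 40) (tnt (h0 * x) (3 / 10)) PP tK tL tC pcB (scP esg pd) [⟨0, 1, 0, 67108864⟩, ⟨1, 1, 0, 67108864⟩, ⟨2, 2, 0, 16777216⟩] 2 1 3 4 4 (sgb true) (sgb true) x := by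
  exact altEB12 (altB12_vac (div_S_le (k := 64) (by norm_num) (by norm_num)) (by show rh 4 ≤ 1; simp [rh]; try norm_num))

theorem alt12B_B213_44m {κ x : ℝ} (hκ : κ * h0 = ken x) (hx : ((697932185 : ℕ) : ℝ) / S ≤ x) (hx' : x ≤ (((697932185 : ℕ) : ℝ) + (42949674 : ℕ)) / S) :
    AltEB 3 κ (eng.v x) (3 / 40) (tnt (h0 * x) (3 / 10)) PP tK tL tC pcB (scP esg pd) [⟨0, 1, 0, 67108864⟩, ⟨1, 1, 0, 67108864⟩, ⟨2, 2, 0, 16777216⟩] 2 1 3 4 4 (sgb true) (sgb false) x := by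
  refine altEB12 (altB12 (locB12 (div_S_le (k := 16) (by norm_num) (by norm_num)) (div_S_le (k := 64) (by norm_num) (by norm_num)) (Or.inr rfl) (m := 1) (fun i hi => ?_) (sG_X213_441m hx hx')))
  fin_cases i
  · exact (sW_B213_440m hx hx').ve rfl (Or.inr rfl) (Or.inl rfl) (sideB hx hx') hκ (thdB hx hx') (sG_B213_440m hx hx')
  · exact absurd hi (by decide)
  · exact absurd hi (by decide)
  · exact absurd hi (by decide)
  · exact absurd hi (by decide)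
  · exact absurd hi (by decide)
  · exact absurd hi (by decide)

theorem alt12B_B213_45p {κ x : ℝ} (hκ : κ * h0 = ken x) (hx : ((697932185 : ℕ) : ℝ) / S ≤ x) (hx' : x ≤ (((697932185 : ℕ) : ℝ) + (42949674 : ℕ)) / S) :
    AltEB 3 κ (eng.v x) (3 / 40) (tnt (h0 * x) (3 / 10)) PP tK tL tC pcB (scP esg pd) [⟨0, 1, 0, 67108864⟩, ⟨1, 1, 0, 67108864⟩, ⟨2, 2, 0, 16777216⟩] 2 1 3 4 5 (sgb true) (sgb true) x := by
  exact altEB12 (altB12_vac (div_S_le (k := 64) (by norm_num) (by norm_num)) (by show rh 4 ≤ 1; simp [rh]; try norm_num))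

theorem alt12B_B213_45m {κ x : ℝ} (hκ : κ * h0 = ken x) (hx : ((697932185 : ℕ) : ℝ) / S ≤ x) (hx' : x ≤ (((697932185 : ℕ) : ℝ) + (42949674 : ℕ)) / S) :
    AltEB 3 κ (eng.v x) (3 / 40) (tnt (h0 * x) (3 / 10)) PP tK tL tC pcB (scP esg pd) [⟨0, 1, 0, 67108864⟩, ⟨1, 1, 0, 67108864⟩, ⟨2, 2, 0, 16777216⟩] 2 1 3 4 5 (sgb true) (sgb false) x := by
  refine altEB12 (altB12 (locB12 (div_S_le (k := 16) (by norm_num) (by norm_num)) (div_S_le (k := 64) (by norm_num) (by norm_num)) (Or.inr rfl) (m := 2) (fun i hi => ?_) (sG_X213_452m hx hx')))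
  fin_cases i
  · exact (sW_B213_450m hx hx').ve rfl (Or.inr rfl) (Or.inl rfl) (sideB hx hx') hκ (thdB hx hx') (sG_B213_450m hx hx')
  · exact (sW_B213_451m hx hx').ve rfl (Or.inr rfl) (Or.inl rfl) (sideB hx hx') hκ (thdB hx hx') (sG_B213_451m hx hx')
  · exact absurd hi (by decide)
  · exact absurd hi (by decide)
  · exact absurd hi (by decide)
  · exact absurd hi (by decide)
  · exact absurd hi (by decide)

theorem alt12B_B213_46p {κ x : ℝ} (hκ : κ * h0 = ken x) (hx : ((697932185 : ℕ) : ℝ) / S ≤ x) (hx' : x ≤ (((697932185 : ℕ) : ℝ) + (42949674 : ℕ)) / S) :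
    AltEB 3 κ (eng.v x) (3 / 40) (tnt (h0 * x) (3 / 10)) PP tK tL tC pcB (scP esg pd) [⟨0, 1, 0, 67108864⟩, ⟨1, 1, 0, 67108864⟩, ⟨2, 2, 0, 16777216⟩] 2 1 3 4 6 (sgb true) (sgb true) x := by
  exact altEB12 (altB12_vac (div_S_le (k := 64) (by norm_num) (by norm_num)) (by show rh 4 ≤ 1; simp [rh]; try norm_num))

theorem alt12B_B213_46m {κ x : ℝ} (hκ : κ * h0 = ken x) (hx : ((697932185 : ℕ) : ℝ) / S ≤ x) (hx' : x ≤ (((697932185 : ℕ) : ℝ) + (42949674 : ℕ)) / S) :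
    AltEB 3 κ (eng.v x) (3 / 40) (tnt (h0 * x) (3 / 10)) PP tK tL tC pcB (scP esg pd) [⟨0, 1, 0, 67108864⟩, ⟨1, 1, 0, 67108864⟩, ⟨2, 2, 0, 16777216⟩] 2 1 3 4 6 (sgb true) (sgb false) x := by
  refine altEB12 (altB12 (locB12 (div_S_le (k := 16) (by norm_num) (by norm_num)) (div_S_le (k := 64) (by norm_num) (by norm_num)) (Or.inr rfl) (m := 2) (fun i hi => ?_) (sG_X213_462m hx hx')))
  fin_cases i
  · exact (sW_B213_460m hx hx').ve rfl (Or.inr rfl) (Or.inl rfl) (sideB hx hx') hκ (thdB hx hx') (sG_B213_460m hx hx')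
  · exact (sW_B213_461m hx hx').ve rfl (Or.inr rfl) (Or.inl rfl) (sideB hx hx') hκ (thdB hx hx') (sG_B213_461m hx hx')
  · exact absurd hi (by decide)
  · exact absurd hi (by decide)
  · exact absurd hi (by decide)
  · exact absurd hi (by decide)
  · exact absurd hi (by decide)

theorem alt12B_B213_47p {κ x : ℝ} (hκ : κ * h0 = ken x) (hx : ((697932185 : ℕ) : ℝ) / S ≤ x) (hx' : x ≤ (((697932185 : ℕ) : ℝ) + (42949674 : ℕ)) / S) :
    AltEB 3 κ (eng.v x) (3 / 40) (tnt (h0 * x) (3 / 10)) PP tK tL tC pcB (scP esg pd) [⟨0, 1, 0, 67108864⟩, ⟨1, 1, 0, 67108864⟩, ⟨2, 2, 0, 16777216⟩] 2 1 3 4 7 (sgb true) (sgb true) x := by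
  exact altEB12 (altB12_vac (div_S_le (k := 64) (by norm_num) (by norm_num)) (by show rh 4 ≤ 1; simp [rh]; try norm_num))

theorem alt12B_B213_47m {κ x : ℝ} (hκ : κ * h0 = ken x) (hx : ((697932185 : ℕ) : ℝ) / S ≤ x) (hx' : x ≤ (((697932185 : ℕ) : ℝ) + (42949674 : ℕ)) / S) :
    AltEB 3 κ (eng.v x) (3 / 40) (tnt (h0 * x) (3 / 10)) PP tK tL tC pcB (scP esg pd) [⟨0, 1, 0, 67108864⟩, ⟨1, 1, 0, 67108864⟩, ⟨2, 2, 0, 16777216⟩] 2 1 3 4 7 (sgb true) (sgb false) x := by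
  refine altEB12 (altB12 (locB12 (div_S_le (k := 16) (by norm_num) (by norm_num)) (div_S_le (k := 64) (by norm_num) (by norm_num)) (Or.inr rfl) (m := 2) (fun i hi => ?_) (sG_X213_472m hx hx')))
  fin_cases i
  · exact (sW_B213_470m hx hx').ve rfl (Or.inr rfl) (Or.inl rfl) (sideB hx hx') hκ (thdB hx hx') (sG_B213_470m hx hx')
  · exact (sW_B213_471m hx hx').ve rfl (Or.inr rfl) (Or.inl rfl) (sideB hx hx') hκ (thdB hx hx') (sG_B213_471m hx hx')
  · exact absurd hi (by decide)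
  · exact absurd hi (by decide)
  · exact absurd hi (by decide)
  · exact absurd hi (by decide)
  · exact absurd hi (by decide)

end Pool.Agent.Strip051.G.I6500_6900.Tab
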