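import Pool.Agent.Strip051.G.I6500_6900.CrnB
import Pool.Agent.Strip051.G.I6500_6900.CG_0
import Pool.Agent.Strip051.G.I6500_6900.CG_1
import Pool.Agent.Strip051.G.I6500_6900.CW_0
import Pool.Agent.Strip051.G.I6500_6900.CW_1

/-! # Aligned corners: the alternatives (generated) -/

set_option linter.all false

namespace Pool.Agent.Strip051.G.I6500_6900.Tab

open Pool.Agent.Strip051.PB Pool.Agent.StripNear Pool.Agent.Strip051.LC

theorem altB_A022L_24 {κ x : ℝ} (hκ : κ * h0 = ken x) (hx : ((697932185 : ℕ) : ℝ) / S ≤ x) (hx' : x ≤ (((697932185 : ℕ) : ℝ) + (42949674 : ℕ)) / S) :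
    AltEA 3 κ (eng.v x) (3 / 40) (tnt (h0 * x) (3 / 10)) PP tK tL tC pcB (scP esg pd) [⟨0, 0, 0, 67108864⟩, ⟨1, 1, 0, 67108864⟩, ⟨2, 1, 0, 67108864⟩] 0 2 2 2 4 (sgb true) (sgb true) x := by
  have X : XR 67108864 x := XR.of hx hx' (by norm_num) (by norm_num) (by norm_num) (by norm_num)
  have hen : 0 < eng.v x := en_pos X.x0.le
  refine CornW.altA (C := cA022L) (j := (2 : Fin 8)) (k := (4 : Fin 8)) (Ef := esg) (pd := pd) (o := 3 / 40)
    (cornW_of (C := cA022L) (C0 := c0B) (En := eng) (mo := mog) (j := (2 : Fin 8)) (k := (4 : Fin 8)) (lo := 7) (hi := 7) (W := 67108864) (N0 := 3) cA022L_q (sideB hx hx') gokB (pinU hx hx') dokB X (by norm_num) (by norm_num) (l := (7 : Fin 8)) rfl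
      (gatB20 x) (gatB42 x) (gatB72 x) (datB20 x) (datB42 x) (datB72 x) ?_)
    (cornS_of (C := cA022L) (C0 := c0B) (j := (2 : Fin 8)) (k := (4 : Fin 8)) (lo := 7) (hi := 7) (W := 67108864) (N0 := 3) cA022L_q (sideB hx hx') gokB X (by norm_num) (by norm_num) (l := (7 : Fin 8)) rfl
      (gatB20 x) (gatB42 x) (gatB72 x) ?_)
    (thU (pinU hx hx')) rfl hκ (fun j q y => tC_eq j q y x) (esg_rng X.x0.le (by linarith [X.b, X.p0])).1 (mo_v x) le_rfl le_rfl
  · intro ρ a B hρ hd i h1 h2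
    fin_cases i
    · exact absurd h1 (by norm_num)
    · exact absurd h1 (by norm_num)
    · exact absurd h1 (by norm_num)
    · exact absurd h1 (by norm_num)
    · exact absurd h1 (by norm_num)
    · exact absurd h1 (by norm_num)
    · exact corW_cert (G1 := gB2q0) (G2 := gB4q2) (Ga := gB6q2) (Gb := gB7q2) (D1 := dB2q0) (D2 := dB4q2) (Da := dB6q2) (Db := dB7q2) cA022L_ok B hρ hen (gatB20 x) (gatB42 x) (fun h => absurd h (by decide)) (fun _ => gatB72 x) (datB20 x) (datB42 x) (fun h => absurd h (by decide)) (fun _ => datB72 x) hd hx hx' CW.A022L_246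
  · intro ρ a B hρ hd i h1 h2
    fin_cases i
    · exact absurd h1 (by norm_num)
    · exact absurd h1 (by norm_num)
    · exact absurd h1 (by norm_num)
    · exact absurd h1 (by norm_num)
    · exact absurd h1 (by norm_num)
    · exact absurd h1 (by norm_num)
    · exact corT_cert (G1 := gB2q0) (G2 := gB4q2) (Ga := gB6q2) (Gb := gB7q2) cA022L_ok B hρ (gatB20 x) (gatB42 x) (fun h => absurd h (by decide)) (fun _ => gatB72 x) hd hx hx' CG.A022L_246

theorem altB_A022L_33 {κ x : ℝ} (hκ : κ * h0 = ken x) (hx : ((697932185 : ℕ) : ℝ) / S ≤ x) (hx' : x ≤ (((697932185 : ℕ) : ℝ) + (42949674 : ℕ)) / S) :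
    AltEA 3 κ (eng.v x) (3 / 40) (tnt (h0 * x) (3 / 10)) PP tK tL tC pcB (scP esg pd) [⟨0, 0, 0, 67108864⟩, ⟨1, 1, 0, 67108864⟩, ⟨2, 1, 0, 67108864⟩] 0 2 2 3 3 (sgb true) (sgb true) x := by
  have X : XR 67108864 x := XR.of hx hx' (by norm_num) (by norm_num) (by norm_num) (by norm_num)
  have hen : 0 < eng.v x := en_pos X.x0.le
  refine CornW.altA (C := cA022L) (j := (3 : Fin 8)) (k := (3 : Fin 8)) (Ef := esg) (pd := pd) (o := 3 / 40)
    (cornW_of (C := cA022L) (C0 := c0B) (En := eng) (mo := mog) (j := (3 : Fin 8)) (k := (3 : Fin 8)) (lo := 7) (hi := 7) (W := 67108864) (N0 := 3) cA022L_q (sideB hx hx') gokB (pinU hx hx') dokB X (by norm_num) (by norm_num) (l := (7 : Fin 8)) rfl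
      (gatB30 x) (gatB32 x) (gatB72 x) (datB30 x) (datB32 x) (datB72 x) ?_)
    (cornS_of (C := cA022L) (C0 := c0B) (j := (3 : Fin 8)) (k := (3 : Fin 8)) (lo := 7) (hi := 7) (W := 67108864) (N0 := 3) cA022L_q (sideB hx hx') gokB X (by norm_num) (by norm_num) (l := (7 : Fin 8)) rfl
      (gatB30 x) (gatB32 x) (gatB72 x) ?_)
    (thU (pinU hx hx')) rfl hκ (fun j q y => tC_eq j q y x) (esg_rng X.x0.le (by linarith [X.b, X.p0])).1 (mo_v x) le_rfl le_rfl
  · intro ρ a B hρ hd i h1 h2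
    fin_cases i
    · exact absurd h1 (by norm_num)
    · exact absurd h1 (by norm_num)
    · exact absurd h1 (by norm_num)
    · exact absurd h1 (by norm_num)
    · exact absurd h1 (by norm_num)
    · exact absurd h1 (by norm_num)
    · exact corW_cert (G1 := gB3q0) (G2 := gB3q2) (Ga := gB6q2) (Gb := gB7q2) (D1 := dB3q0) (D2 := dB3q2) (Da := dB6q2) (Db := dB7q2) cA022L_ok B hρ hen (gatB30 x) (gatB32 x) (fun h => absurd h (by decide)) (fun _ => gatB72 x) (datB30 x) (datB32 x) (fun h => absurd h (by decide)) (fun _ => datB72 x) hd hx hx' CW.A022L_336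
  · intro ρ a B hρ hd i h1 h2
    fin_cases i
    · exact absurd h1 (by norm_num)
    · exact absurd h1 (by norm_num)
    · exact absurd h1 (by norm_num)
    · exact absurd h1 (by norm_num)
    · exact absurd h1 (by norm_num)
    · exact absurd h1 (by norm_num)
    · exact corT_cert (G1 := gB3q0) (G2 := gB3q2) (Ga := gB6q2) (Gb := gB7q2) cA022L_ok B hρ (gatB30 x) (gatB32 x) (fun h => absurd h (by decide)) (fun _ => gatB72 x) hd hx hx' CG.A022L_336

theorem altB_A022L_34 {κ x : ℝ} (hκ : κ * h0 = ken x) (hx : ((697932185 : ℕ) : ℝ) / S ≤ x) (hx' : x ≤ (((697932185 : ℕ) : ℝ) + (42949674 : ℕ)) / S) :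
    AltEA 3 κ (eng.v x) (3 / 40) (tnt (h0 * x) (3 / 10)) PP tK tL tC pcB (scP esg pd) [⟨0, 0, 0, 67108864⟩, ⟨1, 1, 0, 67108864⟩, ⟨2, 1, 0, 67108864⟩] 0 2 2 3 4 (sgb true) (sgb true) x := by
  have X : XR 67108864 x := XR.of hx hx' (by norm_num) (by norm_num) (by norm_num) (by norm_num)
  have hen : 0 < eng.v x := en_pos X.x0.le
  refine CornW.altA (C := cA022L) (j := (3 : Fin 8)) (k := (4 : Fin 8)) (Ef := esg) (pd := pd) (o := 3 / 40)
    (cornW_of (C := cA022L) (C0 := c0B) (En := eng) (mo := mog) (j := (3 : Fin 8)) (k := (4 : Fin 8)) (lo := 7) (hi := 7) (W := 67108864) (N0 := 3) cA022L_q (sideB hx hx') gokB (pinU hx hx') dokB X (by norm_num) (by norm_num) (l := (7 : Fin 8)) rfl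
      (gatB30 x) (gatB42 x) (gatB72 x) (datB30 x) (datB42 x) (datB72 x) ?_)
    (cornS_of (C := cA022L) (C0 := c0B) (j := (3 : Fin 8)) (k := (4 : Fin 8)) (lo := 7) (hi := 7) (W := 67108864) (N0 := 3) cA022L_q (sideB hx hx') gokB X (by norm_num) (by norm_num) (l := (7 : Fin 8)) rfl
      (gatB30 x) (gatB42 x) (gatB72 x) ?_)
    (thU (pinU hx hx')) rfl hκ (fun j q y => tC_eq j q y x) (esg_rng X.x0.le (by linarith [X.b, X.p0])).1 (mo_v x) le_rfl le_rfl
  · intro ρ a B hρ hd i h1 h2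
    fin_cases i
    · exact absurd h1 (by norm_num)
    · exact absurd h1 (by norm_num)
    · exact absurd h1 (by norm_num)
    · exact absurd h1 (by norm_num)
    · exact absurd h1 (by norm_num)
    · exact absurd h1 (by norm_num)
    · exact corW_cert (G1 := gB3q0) (G2 := gB4q2) (Ga := gB6q2) (Gb := gB7q2) (D1 := dB3q0) (D2 := dB4q2) (Da := dB6q2) (Db := dB7q2) cA022L_ok B hρ hen (gatB30 x) (gatB42 x) (fun h => absurd h (by decide)) (fun _ => gatB72 x) (datB30 x) (datB42 x) (fun h => absurd h (by decide)) (fun _ => datB72 x) hd hx hx' CW.A022L_346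
  · intro ρ a B hρ hd i h1 h2
    fin_cases i
    · exact absurd h1 (by norm_num)
    · exact absurd h1 (by norm_num)
    · exact absurd h1 (by norm_num)
    · exact absurd h1 (by norm_num)
    · exact absurd h1 (by norm_num)
    · exact absurd h1 (by norm_num)
    · exact corT_cert (G1 := gB3q0) (G2 := gB4q2) (Ga := gB6q2) (Gb := gB7q2) cA022L_ok B hρ (gatB30 x) (gatB42 x) (fun h => absurd h (by decide)) (fun _ => gatB72 x) hd hx hx' CG.A022L_346

theorem altB_A022L_44 {κ x : ℝ} (hκ : κ * h0 = ken x) (hx : ((697932185 : ℕ) : ℝ) / S ≤ x) (hx' : x ≤ (((697932185 : ℕ) : ℝ) + (42949674 : ℕ)) / S) :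
    AltEA 3 κ (eng.v x) (3 / 40) (tnt (h0 * x) (3 / 10)) PP tK tL tC pcB (scP esg pd) [⟨0, 0, 0, 67108864⟩, ⟨1, 1, 0, 67108864⟩, ⟨2, 1, 0, 67108864⟩] 0 2 2 4 4 (sgb true) (sgb true) x := by
  have X : XR 67108864 x := XR.of hx hx' (by norm_num) (by norm_num) (by norm_num) (by norm_num)
  have hen : 0 < eng.v x := en_pos X.x0.le
  refine CornW.altA (C := cA022L) (j := (4 : Fin 8)) (k := (4 : Fin 8)) (Ef := esg) (pd := pd) (o := 3 / 40)
    (cornW_of (C := cA022L) (C0 := c0B) (En := eng) (mo := mog) (j := (4 : Fin 8)) (k := (4 : Fin 8)) (lo := 7) (hi := 7) (W := 67108864) (N0 := 3) cA022L_q (sideB hx hx') gokB (pinU hx hx') dokB X (by norm_num) (by norm_num) (l := (7 : Fin 8)) rfl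
      (gatB40 x) (gatB42 x) (gatB72 x) (datB40 x) (datB42 x) (datB72 x) ?_)
    (cornS_of (C := cA022L) (C0 := c0B) (j := (4 : Fin 8)) (k := (4 : Fin 8)) (lo := 7) (hi := 7) (W := 67108864) (N0 := 3) cA022L_q (sideB hx hx') gokB X (by norm_num) (by norm_num) (l := (7 : Fin 8)) rfl
      (gatB40 x) (gatB42 x) (gatB72 x) ?_)
    (thU (pinU hx hx')) rfl hκ (fun j q y => tC_eq j q y x) (esg_rng X.x0.le (by linarith [X.b, X.p0])).1 (mo_v x) le_rfl le_rfl
  · intro ρ a B hρ hd i h1 h2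
    fin_cases i
    · exact absurd h1 (by norm_num)
    · exact absurd h1 (by norm_num)
    · exact absurd h1 (by norm_num)
    · exact absurd h1 (by norm_num)
    · exact absurd h1 (by norm_num)
    · exact absurd h1 (by norm_num)
    · exact corW_cert (G1 := gB4q0) (G2 := gB4q2) (Ga := gB6q2) (Gb := gB7q2) (D1 := dB4q0) (D2 := dB4q2) (Da := dB6q2) (Db := dB7q2) cA022L_ok B hρ hen (gatB40 x) (gatB42 x) (fun h => absurd h (by decide)) (fun _ => gatB72 x) (datB40 x) (datB42 x) (fun h => absurd h (by decide)) (fun _ => datB72 x) hd hx hx' CW.A022L_446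
  · intro ρ a B hρ hd i h1 h2
    fin_cases i
    · exact absurd h1 (by norm_num)
    · exact absurd h1 (by norm_num)
    · exact absurd h1 (by norm_num)
    · exact absurd h1 (by norm_num)
    · exact absurd h1 (by norm_num)
    · exact absurd h1 (by norm_num)
    · exact corT_cert (G1 := gB4q0) (G2 := gB4q2) (Ga := gB6q2) (Gb := gB7q2) cA022L_ok B hρ (gatB40 x) (gatB42 x) (fun h => absurd h (by decide)) (fun _ => gatB72 x) hd hx hx' CG.A022L_446

theorem altB_A022R_07 {κ x : ℝ} (hκ : κ * h0 = ken x) (hx : ((697932185 : ℕ) : ℝ) / S ≤ x) (hx' : x ≤ (((697932185 : ℕ) : ℝ) + (42949674 : ℕ)) / S) :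
    AltEA 3 κ (eng.v x) (3 / 40) (tnt (h0 * x) (3 / 10)) PP tK tL tC pcB (scP esg pd) [⟨0, 0, 0, 67108864⟩, ⟨1, 1, 0, 67108864⟩, ⟨2, 1, 0, 67108864⟩] 0 2 2 0 7 (sgb true) (sgb false) x := by
  have X : XR 67108864 x := XR.of hx hx' (by norm_num) (by norm_num) (by norm_num) (by norm_num)
  have hen : 0 < eng.v x := en_pos X.x0.le
  refine CornW.altA (C := cA022R) (j := (0 : Fin 8)) (k := (7 : Fin 8)) (Ef := esg) (pd := pd) (o := 3 / 40)
    (cornW_of (C := cA022R) (C0 := c0B) (En := eng) (mo := mog) (j := (0 : Fin 8)) (k := (7 : Fin 8)) (lo := 0) (hi := 4) (W := 67108864) (N0 := 3) cA022R_q (sideB hx hx') gokB (pinU hx hx') dokB X (by norm_num) (by norm_num) (l := (0 : Fin 8)) rfl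
      (gatB00 x) (gatB72 x) (gatB02 x) (datB00 x) (datB72 x) (datB02 x) ?_)
    (cornS_of (C := cA022R) (C0 := c0B) (j := (0 : Fin 8)) (k := (7 : Fin 8)) (lo := 0) (hi := 4) (W := 67108864) (N0 := 3) cA022R_q (sideB hx hx') gokB X (by norm_num) (by norm_num) (l := (0 : Fin 8)) rfl
      (gatB00 x) (gatB72 x) (gatB02 x) ?_)
    (thU (pinU hx hx')) rfl hκ (fun j q y => tC_eq j q y x) (esg_rng X.x0.le (by linarith [X.b, X.p0])).1 (mo_v x) le_rfl le_rfl
  · intro ρ a B hρ hd i h1 h2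
    fin_cases i
    · exact corW_cert (G1 := gB0q0) (G2 := gB7q2) (Ga := gB0q2) (Gb := gB1q2) (D1 := dB0q0) (D2 := dB7q2) (Da := dB0q2) (Db := dB1q2) cA022R_ok B hρ hen (gatB00 x) (gatB72 x) (fun _ => gatB02 x) (fun _ => gatB12 x) (datB00 x) (datB72 x) (fun _ => datB02 x) (fun _ => datB12 x) hd hx hx' CW.A022R_070
    · exact corW_cert (G1 := gB0q0) (G2 := gB7q2) (Ga := gB1q2) (Gb := gB2q2) (D1 := dB0q0) (D2 := dB7q2) (Da := dB1q2) (Db := dB2q2) cA022R_ok B hρ hen (gatB00 x) (gatB72 x) (fun _ => gatB12 x) (fun _ => gatB22 x) (datB00 x) (datB72 x) (fun _ => datB12 x) (fun _ => datB22 x) hd hx hx' CW.A022R_071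
    · exact corW_cert (G1 := gB0q0) (G2 := gB7q2) (Ga := gB2q2) (Gb := gB3q2) (D1 := dB0q0) (D2 := dB7q2) (Da := dB2q2) (Db := dB3q2) cA022R_ok B hρ hen (gatB00 x) (gatB72 x) (fun _ => gatB22 x) (fun _ => gatB32 x) (datB00 x) (datB72 x) (fun _ => datB22 x) (fun _ => datB32 x) hd hx hx' CW.A022R_072
    · exact corW_cert (G1 := gB0q0) (G2 := gB7q2) (Ga := gB3q2) (Gb := gB4q2) (D1 := dB0q0) (D2 := dB7q2) (Da := dB3q2) (Db := dB4q2) cA022R_ok B hρ hen (gatB00 x) (gatB72 x) (fun _ => gatB32 x) (fun _ => gatB42 x) (datB00 x) (datB72 x) (fun _ => datB32 x) (fun _ => datB42 x) hd hx hx' CW.A022R_073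
    · exact corW_cert (G1 := gB0q0) (G2 := gB7q2) (Ga := gB4q2) (Gb := gB5q2) (D1 := dB0q0) (D2 := dB7q2) (Da := dB4q2) (Db := dB5q2) cA022R_ok B hρ hen (gatB00 x) (gatB72 x) (fun _ => gatB42 x) (fun h => absurd h (by decide)) (datB00 x) (datB72 x) (fun _ => datB42 x) (fun h => absurd h (by decide)) hd hx hx' CW.A022R_074
    · exact absurd h2 (by norm_num)
    · exact absurd h2 (by norm_num)
  · intro ρ a B hρ hd i h1 h2
    fin_cases i
    · exact corT_cert (G1 := gB0q0) (G2 := gB7q2) (Ga := gB0q2) (Gb := gB1q2) cA022R_ok B hρ (gatB00 x) (gatB72 x) (fun _ => gatB02 x) (fun _ => gatB12 x) hd hx hx' CG.A022R_070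
    · exact corT_cert (G1 := gB0q0) (G2 := gB7q2) (Ga := gB1q2) (Gb := gB2q2) cA022R_ok B hρ (gatB00 x) (gatB72 x) (fun _ => gatB12 x) (fun _ => gatB22 x) hd hx hx' CG.A022R_071
    · exact corT_cert (G1 := gB0q0) (G2 := gB7q2) (Ga := gB2q2) (Gb := gB3q2) cA022R_ok B hρ (gatB00 x) (gatB72 x) (fun _ => gatB22 x) (fun _ => gatB32 x) hd hx hx' CG.A022R_072
    · exact corT_cert (G1 := gB0q0) (G2 := gB7q2) (Ga := gB3q2) (Gb := gB4q2) cA022R_ok B hρ (gatB00 x) (gatB72 x) (fun _ => gatB32 x) (fun _ => gatB42 x) hd hx hx' CG.A022R_073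
    · exact corT_cert (G1 := gB0q0) (G2 := gB7q2) (Ga := gB4q2) (Gb := gB5q2) cA022R_ok B hρ (gatB00 x) (gatB72 x) (fun _ => gatB42 x) (fun h => absurd h (by decide)) hd hx hx' CG.A022R_074
    · exact absurd h2 (by norm_num)
    · exact absurd h2 (by norm_num)

theorem altB_A022R_17 {κ x : ℝ} (hκ : κ * h0 = ken x) (hx : ((697932185 : ℕ) : ℝ) / S ≤ x) (hx' : x ≤ (((697932185 : ℕ) : ℝ) + (42949674 : ℕ)) / S) :
    AltEA 3 κ (eng.v x) (3 / 40) (tnt (h0 * x) (3 / 10)) PP tK tL tC pcB (scP esg pd) [⟨0, 0, 0, 67108864⟩, ⟨1, 1, 0, 67108864⟩, ⟨2, 1, 0, 67108864⟩] 0 2 2 1 7 (sgb true) (sgb false) x := by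
  have X : XR 67108864 x := XR.of hx hx' (by norm_num) (by norm_num) (by norm_num) (by norm_num)
  have hen : 0 < eng.v x := en_pos X.x0.le
  refine CornW.altA (C := cA022R) (j := (1 : Fin 8)) (k := (7 : Fin 8)) (Ef := esg) (pd := pd) (o := 3 / 40)
    (cornW_of (C := cA022R) (C0 := c0B) (En := eng) (mo := mog) (j := (1 : Fin 8)) (k := (7 : Fin 8)) (lo := 0) (hi := 4) (W := 67108864) (N0 := 3) cA022R_q (sideB hx hx') gokB (pinU hx hx') dokB X (by norm_num) (by norm_num) (l := (0 : Fin 8)) rfl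
      (gatB10 x) (gatB72 x) (gatB02 x) (datB10 x) (datB72 x) (datB02 x) ?_)
    (cornS_of (C := cA022R) (C0 := c0B) (j := (1 : Fin 8)) (k := (7 : Fin 8)) (lo := 0) (hi := 4) (W := 67108864) (N0 := 3) cA022R_q (sideB hx hx') gokB X (by norm_num) (by norm_num) (l := (0 : Fin 8)) rfl
      (gatB10 x) (gatB72 x) (gatB02 x) ?_)
    (thU (pinU hx hx')) rfl hκ (fun j q y => tC_eq j q y x) (esg_rng X.x0.le (by linarith [X.b, X.p0])).1 (mo_v x) le_rfl le_rfl
  · intro ρ a B hρ hd i h1 h2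
    fin_cases i
    · exact corW_cert (G1 := gB1q0) (G2 := gB7q2) (Ga := gB0q2) (Gb := gB1q2) (D1 := dB1q0) (D2 := dB7q2) (Da := dB0q2) (Db := dB1q2) cA022R_ok B hρ hen (gatB10 x) (gatB72 x) (fun _ => gatB02 x) (fun _ => gatB12 x) (datB10 x) (datB72 x) (fun _ => datB02 x) (fun _ => datB12 x) hd hx hx' CW.A022R_170
    · exact corW_cert (G1 := gB1q0) (G2 := gB7q2) (Ga := gB1q2) (Gb := gB2q2) (D1 := dB1q0) (D2 := dB7q2) (Da := dB1q2) (Db := dB2q2) cA022R_ok B hρ hen (gatB10 x) (gatB72 x) (fun _ => gatB12 x) (fun _ => gatB22 x) (datB10 x) (datB72 x) (fun _ => datB12 x) (fun _ => datB22 x) hd hx hx' CW.A022R_171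
    · exact corW_cert (G1 := gB1q0) (G2 := gB7q2) (Ga := gB2q2) (Gb := gB3q2) (D1 := dB1q0) (D2 := dB7q2) (Da := dB2q2) (Db := dB3q2) cA022R_ok B hρ hen (gatB10 x) (gatB72 x) (fun _ => gatB22 x) (fun _ => gatB32 x) (datB10 x) (datB72 x) (fun _ => datB22 x) (fun _ => datB32 x) hd hx hx' CW.A022R_172
    · exact corW_cert (G1 := gB1q0) (G2 := gB7q2) (Ga := gB3q2) (Gb := gB4q2) (D1 := dB1q0) (D2 := dB7q2) (Da := dB3q2) (Db := dB4q2) cA022R_ok B hρ hen (gatB10 x) (gatB72 x) (fun _ => gatB32 x) (fun _ => gatB42 x) (datB10 x) (datB72 x) (fun _ => datB32 x) (fun _ => datB42 x) hd hx hx' CW.A022R_173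
    · exact corW_cert (G1 := gB1q0) (G2 := gB7q2) (Ga := gB4q2) (Gb := gB5q2) (D1 := dB1q0) (D2 := dB7q2) (Da := dB4q2) (Db := dB5q2) cA022R_ok B hρ hen (gatB10 x) (gatB72 x) (fun _ => gatB42 x) (fun h => absurd h (by decide)) (datB10 x) (datB72 x) (fun _ => datB42 x) (fun h => absurd h (by decide)) hd hx hx' CW.A022R_174
    · exact absurd h2 (by norm_num)
    · exact absurd h2 (by norm_num)
  · intro ρ a B hρ hd i h1 h2
    fin_cases i
    · exact corT_cert (G1 := gB1q0) (G2 := gB7q2) (Ga := gB0q2) (Gb := gB1q2) cA022R_ok B hρ (gatB10 x) (gatB72 x) (fun _ => gatB02 x) (fun _ => gatB12 x) hd hx hx' CG.A022R_170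
    · exact corT_cert (G1 := gB1q0) (G2 := gB7q2) (Ga := gB1q2) (Gb := gB2q2) cA022R_ok B hρ (gatB10 x) (gatB72 x) (fun _ => gatB12 x) (fun _ => gatB22 x) hd hx hx' CG.A022R_171
    · exact corT_cert (G1 := gB1q0) (G2 := gB7q2) (Ga := gB2q2) (Gb := gB3q2) cA022R_ok B hρ (gatB10 x) (gatB72 x) (fun _ => gatB22 x) (fun _ => gatB32 x) hd hx hx' CG.A022R_172
    · exact corT_cert (G1 := gB1q0) (G2 := gB7q2) (Ga := gB3q2) (Gb := gB4q2) cA022R_ok B hρ (gatB10 x) (gatB72 x) (fun _ => gatB32 x) (fun _ => gatB42 x) hd hx hx' CG.A022R_173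
    · exact corT_cert (G1 := gB1q0) (G2 := gB7q2) (Ga := gB4q2) (Gb := gB5q2) cA022R_ok B hρ (gatB10 x) (gatB72 x) (fun _ => gatB42 x) (fun h => absurd h (by decide)) hd hx hx' CG.A022R_174
    · exact absurd h2 (by norm_num)
    · exact absurd h2 (by norm_num)

theorem altB_A022R_27 {κ x : ℝ} (hκ : κ * h0 = ken x) (hx : ((697932185 : ℕ) : ℝ) / S ≤ x) (hx' : x ≤ (((697932185 : ℕ) : ℝ) + (42949674 : ℕ)) / S) :
    AltEA 3 κ (eng.v x) (3 / 40) (tnt (h0 * x) (3 / 10)) PP tK tL tC pcB (scP esg pd) [⟨0, 0, 0, 67108864⟩, ⟨1, 1, 0, 67108864⟩, ⟨2, 1, 0, 67108864⟩] 0 2 2 2 7 (sgb true) (sgb false) x := by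
  have X : XR 67108864 x := XR.of hx hx' (by norm_num) (by norm_num) (by norm_num) (by norm_num)
  have hen : 0 < eng.v x := en_pos X.x0.le
  refine CornW.altA (C := cA022R) (j := (2 : Fin 8)) (k := (7 : Fin 8)) (Ef := esg) (pd := pd) (o := 3 / 40)
    (cornW_of (C := cA022R) (C0 := c0B) (En := eng) (mo := mog) (j := (2 : Fin 8)) (k := (7 : Fin 8)) (lo := 0) (hi := 4) (W := 67108864) (N0 := 3) cA022R_q (sideB hx hx') gokB (pinU hx hx') dokB X (by norm_num) (by norm_num) (l := (0 : Fin 8)) rfl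
      (gatB20 x) (gatB72 x) (gatB02 x) (datB20 x) (datB72 x) (datB02 x) ?_)
    (cornS_of (C := cA022R) (C0 := c0B) (j := (2 : Fin 8)) (k := (7 : Fin 8)) (lo := 0) (hi := 4) (W := 67108864) (N0 := 3) cA022R_q (sideB hx hx') gokB X (by norm_num) (by norm_num) (l := (0 : Fin 8)) rfl
      (gatB20 x) (gatB72 x) (gatB02 x) ?_)
    (thU (pinU hx hx')) rfl hκ (fun j q y => tC_eq j q y x) (esg_rng X.x0.le (by linarith [X.b, X.p0])).1 (mo_v x) le_rfl le_rfl
  · intro ρ a B hρ hd i h1 h2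
    fin_cases i
    · exact corW_cert (G1 := gB2q0) (G2 := gB7q2) (Ga := gB0q2) (Gb := gB1q2) (D1 := dB2q0) (D2 := dB7q2) (Da := dB0q2) (Db := dB1q2) cA022R_ok B hρ hen (gatB20 x) (gatB72 x) (fun _ => gatB02 x) (fun _ => gatB12 x) (datB20 x) (datB72 x) (fun _ => datB02 x) (fun _ => datB12 x) hd hx hx' CW.A022R_270
    · exact corW_cert (G1 := gB2q0) (G2 := gB7q2) (Ga := gB1q2) (Gb := gB2q2) (D1 := dB2q0) (D2 := dB7q2) (Da := dB1q2) (Db := dB2q2) cA022R_ok B hρ hen (gatB20 x) (gatB72 x) (fun _ => gatB12 x) (fun _ => gatB22 x) (datB20 x) (datB72 x) (fun _ => datB12 x) (fun _ => datB22 x) hd hx hx' CW.A022R_271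
    · exact corW_cert (G1 := gB2q0) (G2 := gB7q2) (Ga := gB2q2) (Gb := gB3q2) (D1 := dB2q0) (D2 := dB7q2) (Da := dB2q2) (Db := dB3q2) cA022R_ok B hρ hen (gatB20 x) (gatB72 x) (fun _ => gatB22 x) (fun _ => gatB32 x) (datB20 x) (datB72 x) (fun _ => datB22 x) (fun _ => datB32 x) hd hx hx' CW.A022R_272
    · exact corW_cert (G1 := gB2q0) (G2 := gB7q2) (Ga := gB3q2) (Gb := gB4q2) (D1 := dB2q0) (D2 := dB7q2) (Da := dB3q2) (Db := dB4q2) cA022R_ok B hρ hen (gatB20 x) (gatB72 x) (fun _ => gatB32 x) (fun _ => gatB42 x) (datB20 x) (datB72 x) (fun _ => datB32 x) (fun _ => datB42 x) hd hx hx' CW.A022R_273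
    · exact corW_cert (G1 := gB2q0) (G2 := gB7q2) (Ga := gB4q2) (Gb := gB5q2) (D1 := dB2q0) (D2 := dB7q2) (Da := dB4q2) (Db := dB5q2) cA022R_ok B hρ hen (gatB20 x) (gatB72 x) (fun _ => gatB42 x) (fun h => absurd h (by decide)) (datB20 x) (datB72 x) (fun _ => datB42 x) (fun h => absurd h (by decide)) hd hx hx' CW.A022R_274
    · exact absurd h2 (by norm_num)
    · exact absurd h2 (by norm_num)
  · intro ρ a B hρ hd i h1 h2
    fin_cases i
    · exact corT_cert (G1 := gB2q0) (G2 := gB7q2) (Ga := gB0q2) (Gb := gB1q2) cA022R_ok B hρ (gatB20 x) (gatB72 x) (fun _ => gatB02 x) (fun _ => gatB12 x) hd hx hx' CG.A022R_270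
    · exact corT_cert (G1 := gB2q0) (G2 := gB7q2) (Ga := gB1q2) (Gb := gB2q2) cA022R_ok B hρ (gatB20 x) (gatB72 x) (fun _ => gatB12 x) (fun _ => gatB22 x) hd hx hx' CG.A022R_271
    · exact corT_cert (G1 := gB2q0) (G2 := gB7q2) (Ga := gB2q2) (Gb := gB3q2) cA022R_ok B hρ (gatB20 x) (gatB72 x) (fun _ => gatB22 x) (fun _ => gatB32 x) hd hx hx' CG.A022R_272
    · exact corT_cert (G1 := gB2q0) (G2 := gB7q2) (Ga := gB3q2) (Gb := gB4q2) cA022R_ok B hρ (gatB20 x) (gatB72 x) (fun _ => gatB32 x) (fun _ => gatB42 x) hd hx hx' CG.A022R_273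
    · exact corT_cert (G1 := gB2q0) (G2 := gB7q2) (Ga := gB4q2) (Gb := gB5q2) cA022R_ok B hρ (gatB20 x) (gatB72 x) (fun _ => gatB42 x) (fun h => absurd h (by decide)) hd hx hx' CG.A022R_274
    · exact absurd h2 (by norm_num)
    · exact absurd h2 (by norm_num)

theorem altB_A022R_37 {κ x : ℝ} (hκ : κ * h0 = ken x) (hx : ((697932185 : ℕ) : ℝ) / S ≤ x) (hx' : x ≤ (((697932185 : ℕ) : ℝ) + (42949674 : ℕ)) / S) :
    AltEA 3 κ (eng.v x) (3 / 40) (tnt (h0 * x) (3 / 10)) PP tK tL tC pcB (scP esg pd) [⟨0, 0, 0, 67108864⟩, ⟨1, 1, 0, 67108864⟩, ⟨2, 1, 0, 67108864⟩] 0 2 2 3 7 (sgb true) (sgb false) x := by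
  have X : XR 67108864 x := XR.of hx hx' (by norm_num) (by norm_num) (by norm_num) (by norm_num)
  have hen : 0 < eng.v x := en_pos X.x0.le
  refine CornW.altA (C := cA022R) (j := (3 : Fin 8)) (k := (7 : Fin 8)) (Ef := esg) (pd := pd) (o := 3 / 40)
    (cornW_of (C := cA022R) (C0 := c0B) (En := eng) (mo := mog) (j := (3 : Fin 8)) (k := (7 : Fin 8)) (lo := 0) (hi := 4) (W := 67108864) (N0 := 3) cA022R_q (sideB hx hx') gokB (pinU hx hx') dokB X (by norm_num) (by norm_num) (l := (0 : Fin 8)) rfl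
      (gatB30 x) (gatB72 x) (gatB02 x) (datB30 x) (datB72 x) (datB02 x) ?_)
    (cornS_of (C := cA022R) (C0 := c0B) (j := (3 : Fin 8)) (k := (7 : Fin 8)) (lo := 0) (hi := 4) (W := 67108864) (N0 := 3) cA022R_q (sideB hx hx') gokB X (by norm_num) (by norm_num) (l := (0 : Fin 8)) rfl
      (gatB30 x) (gatB72 x) (gatB02 x) ?_)
    (thU (pinU hx hx')) rfl hκ (fun j q y => tC_eq j q y x) (esg_rng X.x0.le (by linarith [X.b, X.p0])).1 (mo_v x) le_rfl le_rfl
  · intro ρ a B hρ hd i h1 h2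
    fin_cases i
    · exact corW_cert (G1 := gB3q0) (G2 := gB7q2) (Ga := gB0q2) (Gb := gB1q2) (D1 := dB3q0) (D2 := dB7q2) (Da := dB0q2) (Db := dB1q2) cA022R_ok B hρ hen (gatB30 x) (gatB72 x) (fun _ => gatB02 x) (fun _ => gatB12 x) (datB30 x) (datB72 x) (fun _ => datB02 x) (fun _ => datB12 x) hd hx hx' CW.A022R_370
    · exact corW_cert (G1 := gB3q0) (G2 := gB7q2) (Ga := gB1q2) (Gb := gB2q2) (D1 := dB3q0) (D2 := dB7q2) (Da := dB1q2) (Db := dB2q2) cA022R_ok B hρ hen (gatB30 x) (gatB72 x) (fun _ => gatB12 x) (fun _ => gatB22 x) (datB30 x) (datB72 x) (fun _ => datB12 x) (fun _ => datB22 x) hd hx hx' CW.A022R_371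
    · exact corW_cert (G1 := gB3q0) (G2 := gB7q2) (Ga := gB2q2) (Gb := gB3q2) (D1 := dB3q0) (D2 := dB7q2) (Da := dB2q2) (Db := dB3q2) cA022R_ok B hρ hen (gatB30 x) (gatB72 x) (fun _ => gatB22 x) (fun _ => gatB32 x) (datB30 x) (datB72 x) (fun _ => datB22 x) (fun _ => datB32 x) hd hx hx' CW.A022R_372
    · exact corW_cert (G1 := gB3q0) (G2 := gB7q2) (Ga := gB3q2) (Gb := gB4q2) (D1 := dB3q0) (D2 := dB7q2) (Da := dB3q2) (Db := dB4q2) cA022R_ok B hρ hen (gatB30 x) (gatB72 x) (fun _ => gatB32 x) (fun _ => gatB42 x) (datB30 x) (datB72 x) (fun _ => datB32 x) (fun _ => datB42 x) hd hx hx' CW.A022R_373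
    · exact corW_cert (G1 := gB3q0) (G2 := gB7q2) (Ga := gB4q2) (Gb := gB5q2) (D1 := dB3q0) (D2 := dB7q2) (Da := dB4q2) (Db := dB5q2) cA022R_ok B hρ hen (gatB30 x) (gatB72 x) (fun _ => gatB42 x) (fun h => absurd h (by decide)) (datB30 x) (datB72 x) (fun _ => datB42 x) (fun h => absurd h (by decide)) hd hx hx' CW.A022R_374
    · exact absurd h2 (by norm_num)
    · exact absurd h2 (by norm_num)
  · intro ρ a B hρ hd i h1 h2
    fin_cases i
    · exact corT_cert (G1 := gB3q0) (G2 := gB7q2) (Ga := gB0q2) (Gb := gB1q2) cA022R_ok B hρ (gatB30 x) (gatB72 x) (fun _ => gatB02 x) (fun _ => gatB12 x) hd hx hx' CG.A022R_370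
    · exact corT_cert (G1 := gB3q0) (G2 := gB7q2) (Ga := gB1q2) (Gb := gB2q2) cA022R_ok B hρ (gatB30 x) (gatB72 x) (fun _ => gatB12 x) (fun _ => gatB22 x) hd hx hx' CG.A022R_371
    · exact corT_cert (G1 := gB3q0) (G2 := gB7q2) (Ga := gB2q2) (Gb := gB3q2) cA022R_ok B hρ (gatB30 x) (gatB72 x) (fun _ => gatB22 x) (fun _ => gatB32 x) hd hx hx' CG.A022R_372
    · exact corT_cert (G1 := gB3q0) (G2 := gB7q2) (Ga := gB3q2) (Gb := gB4q2) cA022R_ok B hρ (gatB30 x) (gatB72 x) (fun _ => gatB32 x) (fun _ => gatB42 x) hd hx hx' CG.A022R_373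
    · exact corT_cert (G1 := gB3q0) (G2 := gB7q2) (Ga := gB4q2) (Gb := gB5q2) cA022R_ok B hρ (gatB30 x) (gatB72 x) (fun _ => gatB42 x) (fun h => absurd h (by decide)) hd hx hx' CG.A022R_374
    · exact absurd h2 (by norm_num)
    · exact absurd h2 (by norm_num)

theorem altB_A022R_47 {κ x : ℝ} (hκ : κ * h0 = ken x) (hx : ((697932185 : ℕ) : ℝ) / S ≤ x) (hx' : x ≤ (((697932185 : ℕ) : ℝ) + (42949674 : ℕ)) / S) :
    AltEA 3 κ (eng.v x) (3 / 40) (tnt (h0 * x) (3 / 10)) PP tK tL tC pcB (scP esg pd) [⟨0, 0, 0, 67108864⟩, ⟨1, 1, 0, 67108864⟩, ⟨2, 1, 0, 67108864⟩] 0 2 2 4 7 (sgb true) (sgb false) x := by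
  have X : XR 67108864 x := XR.of hx hx' (by norm_num) (by norm_num) (by norm_num) (by norm_num)
  have hen : 0 < eng.v x := en_pos X.x0.le
  refine CornW.altA (C := cA022R) (j := (4 : Fin 8)) (k := (7 : Fin 8)) (Ef := esg) (pd := pd) (o := 3 / 40)
    (cornW_of (C := cA022R) (C0 := c0B) (En := eng) (mo := mog) (j := (4 : Fin 8)) (k := (7 : Fin 8)) (lo := 0) (hi := 4) (W := 67108864) (N0 := 3) cA022R_q (sideB hx hx') gokB (pinU hx hx') dokB X (by norm_num) (by norm_num) (l := (0 : Fin 8)) rfl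
      (gatB40 x) (gatB72 x) (gatB02 x) (datB40 x) (datB72 x) (datB02 x) ?_)
    (cornS_of (C := cA022R) (C0 := c0B) (j := (4 : Fin 8)) (k := (7 : Fin 8)) (lo := 0) (hi := 4) (W := 67108864) (N0 := 3) cA022R_q (sideB hx hx') gokB X (by norm_num) (by norm_num) (l := (0 : Fin 8)) rfl
      (gatB40 x) (gatB72 x) (gatB02 x) ?_)
    (thU (pinU hx hx')) rfl hκ (fun j q y => tC_eq j q y x) (esg_rng X.x0.le (by linarith [X.b, X.p0])).1 (mo_v x) le_rfl le_rfl
  · intro ρ a B hρ hd i h1 h2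
    fin_cases i
    · exact corW_cert (G1 := gB4q0) (G2 := gB7q2) (Ga := gB0q2) (Gb := gB1q2) (D1 := dB4q0) (D2 := dB7q2) (Da := dB0q2) (Db := dB1q2) cA022R_ok B hρ hen (gatB40 x) (gatB72 x) (fun _ => gatB02 x) (fun _ => gatB12 x) (datB40 x) (datB72 x) (fun _ => datB02 x) (fun _ => datB12 x) hd hx hx' CW.A022R_470
    · exact corW_cert (G1 := gB4q0) (G2 := gB7q2) (Ga := gB1q2) (Gb := gB2q2) (D1 := dB4q0) (D2 := dB7q2) (Da := dB1q2) (Db := dB2q2) cA022R_ok B hρ hen (gatB40 x) (gatB72 x) (fun _ => gatB12 x) (fun _ => gatB22 x) (datB40 x) (datB72 x) (fun _ => datB12 x) (fun _ => datB22 x) hd hx hx' CW.A022R_471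
    · exact corW_cert (G1 := gB4q0) (G2 := gB7q2) (Ga := gB2q2) (Gb := gB3q2) (D1 := dB4q0) (D2 := dB7q2) (Da := dB2q2) (Db := dB3q2) cA022R_ok B hρ hen (gatB40 x) (gatB72 x) (fun _ => gatB22 x) (fun _ => gatB32 x) (datB40 x) (datB72 x) (fun _ => datB22 x) (fun _ => datB32 x) hd hx hx' CW.A022R_472
    · exact corW_cert (G1 := gB4q0) (G2 := gB7q2) (Ga := gB3q2) (Gb := gB4q2) (D1 := dB4q0) (D2 := dB7q2) (Da := dB3q2) (Db := dB4q2) cA022R_ok B hρ hen (gatB40 x) (gatB72 x) (fun _ => gatB32 x) (fun _ => gatB42 x) (datB40 x) (datB72 x) (fun _ => datB32 x) (fun _ => datB42 x) hd hx hx' CW.A022R_473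
    · exact corW_cert (G1 := gB4q0) (G2 := gB7q2) (Ga := gB4q2) (Gb := gB5q2) (D1 := dB4q0) (D2 := dB7q2) (Da := dB4q2) (Db := dB5q2) cA022R_ok B hρ hen (gatB40 x) (gatB72 x) (fun _ => gatB42 x) (fun h => absurd h (by decide)) (datB40 x) (datB72 x) (fun _ => datB42 x) (fun h => absurd h (by decide)) hd hx hx' CW.A022R_474
    · exact absurd h2 (by norm_num)
    · exact absurd h2 (by norm_num)
  · intro ρ a B hρ hd i h1 h2
    fin_cases i
    · exact corT_cert (G1 := gB4q0) (G2 := gB7q2) (Ga := gB0q2) (Gb := gB1q2) cA022R_ok B hρ (gatB40 x) (gatB72 x) (fun _ => gatB02 x) (fun _ => gatB12 x) hd hx hx' CG.A022R_470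
    · exact corT_cert (G1 := gB4q0) (G2 := gB7q2) (Ga := gB1q2) (Gb := gB2q2) cA022R_ok B hρ (gatB40 x) (gatB72 x) (fun _ => gatB12 x) (fun _ => gatB22 x) hd hx hx' CG.A022R_471
    · exact corT_cert (G1 := gB4q0) (G2 := gB7q2) (Ga := gB2q2) (Gb := gB3q2) cA022R_ok B hρ (gatB40 x) (gatB72 x) (fun _ => gatB22 x) (fun _ => gatB32 x) hd hx hx' CG.A022R_472
    · exact corT_cert (G1 := gB4q0) (G2 := gB7q2) (Ga := gB3q2) (Gb := gB4q2) cA022R_ok B hρ (gatB40 x) (gatB72 x) (fun _ => gatB32 x) (fun _ => gatB42 x) hd hx hx' CG.A022R_473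
    · exact corT_cert (G1 := gB4q0) (G2 := gB7q2) (Ga := gB4q2) (Gb := gB5q2) cA022R_ok B hρ (gatB40 x) (gatB72 x) (fun _ => gatB42 x) (fun h => absurd h (by decide)) hd hx hx' CG.A022R_474
    · exact absurd h2 (by norm_num)
    · exact absurd h2 (by norm_num)

theorem altB_A101E_00 {κ x : ℝ} (hκ : κ * h0 = ken x) (hx : ((697932185 : ℕ) : ℝ) / S ≤ x) (hx' : x ≤ (((697932185 : ℕ) : ℝ) + (42949674 : ℕ)) / S) :
    AltEA 3 κ (eng.v x) (3 / 40) (tnt (h0 * x) (3 / 10)) PP tK tL tC pcB (scP esg pd) [⟨0, 1, 0, 67108864⟩, ⟨1, 0, 0, 67108864⟩, ⟨2, 1, 0, 67108864⟩] 1 0 1 0 0 (sgb true) (sgb false) x := by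
  have X : XR 67108864 x := XR.of hx hx' (by norm_num) (by norm_num) (by norm_num) (by norm_num)
  have hen : 0 < eng.v x := en_pos X.x0.le
  refine CornW.altA (C := cA101E) (j := (0 : Fin 8)) (k := (0 : Fin 8)) (Ef := esg) (pd := pd) (o := 3 / 40)
    (cornW_of (C := cA101E) (C0 := c0B) (En := eng) (mo := mog) (j := (0 : Fin 8)) (k := (0 : Fin 8)) (lo := 0) (hi := 0) (W := 67108864) (N0 := 3) cA101E_q (sideB hx hx') gokB (pinU hx hx') dokB X (by norm_num) (by norm_num) (l := (0 : Fin 8)) rfl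
      (gatB01 x) (gatB00 x) (gatB01 x) (datB01 x) (datB00 x) (datB01 x) ?_)
    (cornS_of (C := cA101E) (C0 := c0B) (j := (0 : Fin 8)) (k := (0 : Fin 8)) (lo := 0) (hi := 0) (W := 67108864) (N0 := 3) cA101E_q (sideB hx hx') gokB X (by norm_num) (by norm_num) (l := (0 : Fin 8)) rfl
      (gatB01 x) (gatB00 x) (gatB01 x) ?_)
    (thU (pinU hx hx')) rfl hκ (fun j q y => tC_eq j q y x) (esg_rng X.x0.le (by linarith [X.b, X.p0])).1 (mo_v x) le_rfl le_rfl
  · intro ρ a B hρ hd i h1 h2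
    fin_cases i
    · exact corW_cert (G1 := gB0q1) (G2 := gB0q0) (Ga := gB0q1) (Gb := gB1q1) (D1 := dB0q1) (D2 := dB0q0) (Da := dB0q1) (Db := dB1q1) cA101E_ok B hρ hen (gatB01 x) (gatB00 x) (fun _ => gatB01 x) (fun h => absurd h (by decide)) (datB01 x) (datB00 x) (fun _ => datB01 x) (fun h => absurd h (by decide)) hd hx hx' CW.A101E_000
    · exact absurd h2 (by norm_num)
    · exact absurd h2 (by norm_num)
    · exact absurd h2 (by norm_num)
    · exact absurd h2 (by norm_num)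
    · exact absurd h2 (by norm_num)
    · exact absurd h2 (by norm_num)
  · intro ρ a B hρ hd i h1 h2
    fin_cases i
    · exact corT_cert (G1 := gB0q1) (G2 := gB0q0) (Ga := gB0q1) (Gb := gB1q1) cA101E_ok B hρ (gatB01 x) (gatB00 x) (fun _ => gatB01 x) (fun h => absurd h (by decide)) hd hx hx' CG.A101E_000
    · exact absurd h2 (by norm_num)
    · exact absurd h2 (by norm_num)
    · exact absurd h2 (by norm_num)
    · exact absurd h2 (by norm_num)
    · exact absurd h2 (by norm_num)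
    · exact absurd h2 (by norm_num)

theorem altB_A101E_01 {κ x : ℝ} (hκ : κ * h0 = ken x) (hx : ((697932185 : ℕ) : ℝ) / S ≤ x) (hx' : x ≤ (((697932185 : ℕ) : ℝ) + (42949674 : ℕ)) / S) :
    AltEA 3 κ (eng.v x) (3 / 40) (tnt (h0 * x) (3 / 10)) PP tK tL tC pcB (scP esg pd) [⟨0, 1, 0, 67108864⟩, ⟨1, 0, 0, 67108864⟩, ⟨2, 1, 0, 67108864⟩] 1 0 1 0 1 (sgb true) (sgb false) x := by
  have X : XR 67108864 x := XR.of hx hx' (by norm_num) (by norm_num) (by norm_num) (by norm_num)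
  have hen : 0 < eng.v x := en_pos X.x0.le
  refine CornW.altA (C := cA101E) (j := (0 : Fin 8)) (k := (1 : Fin 8)) (Ef := esg) (pd := pd) (o := 3 / 40)
    (cornW_of (C := cA101E) (C0 := c0B) (En := eng) (mo := mog) (j := (0 : Fin 8)) (k := (1 : Fin 8)) (lo := 0) (hi := 0) (W := 67108864) (N0 := 3) cA101E_q (sideB hx hx') gokB (pinU hx hx') dokB X (by norm_num) (by norm_num) (l := (0 : Fin 8)) rfl
      (gatB01 x) (gatB10 x) (gatB01 x) (datB01 x) (datB10 x) (datB01 x) ?_)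
    (cornS_of (C := cA101E) (C0 := c0B) (j := (0 : Fin 8)) (k := (1 : Fin 8)) (lo := 0) (hi := 0) (W := 67108864) (N0 := 3) cA101E_q (sideB hx hx') gokB X (by norm_num) (by norm_num) (l := (0 : Fin 8)) rfl
      (gatB01 x) (gatB10 x) (gatB01 x) ?_)
    (thU (pinU hx hx')) rfl hκ (fun j q y => tC_eq j q y x) (esg_rng X.x0.le (by linarith [X.b, X.p0])).1 (mo_v x) le_rfl le_rfl
  · intro ρ a B hρ hd i h1 h2
    fin_cases i
    · exact corW_cert (G1 := gB0q1) (G2 := gB1q0) (Ga := gB0q1) (Gb := gB1q1) (D1 := dB0q1) (D2 := dB1q0) (Da := dB0q1) (Db := dB1q1) cA101E_ok B hρ hen (gatB01 x) (gatB10 x) (fun _ => gatB01 x) (fun h => absurd h (by decide)) (datB01 x) (datB10 x) (fun _ => datB01 x) (fun h => absurd h (by decide)) hd hx hx' CW.A101E_010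
    · exact absurd h2 (by norm_num)
    · exact absurd h2 (by norm_num)
    · exact absurd h2 (by norm_num)
    · exact absurd h2 (by norm_num)
    · exact absurd h2 (by norm_num)
    · exact absurd h2 (by norm_num)
  · intro ρ a B hρ hd i h1 h2
    fin_cases i
    · exact corT_cert (G1 := gB0q1) (G2 := gB1q0) (Ga := gB0q1) (Gb := gB1q1) cA101E_ok B hρ (gatB01 x) (gatB10 x) (fun _ => gatB01 x) (fun h => absurd h (by decide)) hd hx hx' CG.A101E_010
    · exact absurd h2 (by norm_num)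
    · exact absurd h2 (by norm_num)
    · exact absurd h2 (by norm_num)
    · exact absurd h2 (by norm_num)
    · exact absurd h2 (by norm_num)
    · exact absurd h2 (by norm_num)

theorem altB_A101E_02 {κ x : ℝ} (hκ : κ * h0 = ken x) (hx : ((697932185 : ℕ) : ℝ) / S ≤ x) (hx' : x ≤ (((697932185 : ℕ) : ℝ) + (42949674 : ℕ)) / S) :
    AltEA 3 κ (eng.v x) (3 / 40) (tnt (h0 * x) (3 / 10)) PP tK tL tC pcB (scP esg pd) [⟨0, 1, 0, 67108864⟩, ⟨1, 0, 0, 67108864⟩, ⟨2, 1, 0, 67108864⟩] 1 0 1 0 2 (sgb true) (sgb false) x := by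
  have X : XR 67108864 x := XR.of hx hx' (by norm_num) (by norm_num) (by norm_num) (by norm_num)
  have hen : 0 < eng.v x := en_pos X.x0.le
  refine CornW.altA (C := cA101E) (j := (0 : Fin 8)) (k := (2 : Fin 8)) (Ef := esg) (pd := pd) (o := 3 / 40)
    (cornW_of (C := cA101E) (C0 := c0B) (En := eng) (mo := mog) (j := (0 : Fin 8)) (k := (2 : Fin 8)) (lo := 0) (hi := 0) (W := 67108864) (N0 := 3) cA101E_q (sideB hx hx') gokB (pinU hx hx') dokB X (by norm_num) (by norm_num) (l := (0 : Fin 8)) rfl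
      (gatB01 x) (gatB20 x) (gatB01 x) (datB01 x) (datB20 x) (datB01 x) ?_)
    (cornS_of (C := cA101E) (C0 := c0B) (j := (0 : Fin 8)) (k := (2 : Fin 8)) (lo := 0) (hi := 0) (W := 67108864) (N0 := 3) cA101E_q (sideB hx hx') gokB X (by norm_num) (by norm_num) (l := (0 : Fin 8)) rfl
      (gatB01 x) (gatB20 x) (gatB01 x) ?_)
    (thU (pinU hx hx')) rfl hκ (fun j q y => tC_eq j q y x) (esg_rng X.x0.le (by linarith [X.b, X.p0])).1 (mo_v x) le_rfl le_rfl
  · intro ρ a B hρ hd i h1 h2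
    fin_cases i
    · exact corW_cert (G1 := gB0q1) (G2 := gB2q0) (Ga := gB0q1) (Gb := gB1q1) (D1 := dB0q1) (D2 := dB2q0) (Da := dB0q1) (Db := dB1q1) cA101E_ok B hρ hen (gatB01 x) (gatB20 x) (fun _ => gatB01 x) (fun h => absurd h (by decide)) (datB01 x) (datB20 x) (fun _ => datB01 x) (fun h => absurd h (by decide)) hd hx hx' CW.A101E_020
    · exact absurd h2 (by norm_num)
    · exact absurd h2 (by norm_num)
    · exact absurd h2 (by norm_num)
    · exact absurd h2 (by norm_num)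
    · exact absurd h2 (by norm_num)
    · exact absurd h2 (by norm_num)
  · intro ρ a B hρ hd i h1 h2
    fin_cases i
    · exact corT_cert (G1 := gB0q1) (G2 := gB2q0) (Ga := gB0q1) (Gb := gB1q1) cA101E_ok B hρ (gatB01 x) (gatB20 x) (fun _ => gatB01 x) (fun h => absurd h (by decide)) hd hx hx' CG.A101E_020
    · exact absurd h2 (by norm_num)
    · exact absurd h2 (by norm_num)
    · exact absurd h2 (by norm_num)
    · exact absurd h2 (by norm_num)
    · exact absurd h2 (by norm_num)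
    · exact absurd h2 (by norm_num)

theorem altB_A101E_03 {κ x : ℝ} (hκ : κ * h0 = ken x) (hx : ((697932185 : ℕ) : ℝ) / S ≤ x) (hx' : x ≤ (((697932185 : ℕ) : ℝ) + (42949674 : ℕ)) / S) :
    AltEA 3 κ (eng.v x) (3 / 40) (tnt (h0 * x) (3 / 10)) PP tK tL tC pcB (scP esg pd) [⟨0, 1, 0, 67108864⟩, ⟨1, 0, 0, 67108864⟩, ⟨2, 1, 0, 67108864⟩] 1 0 1 0 3 (sgb true) (sgb false) x := by
  have X : XR 67108864 x := XR.of hx hx' (by norm_num) (by norm_num) (by norm_num) (by norm_num)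
  have hen : 0 < eng.v x := en_pos X.x0.le
  refine CornW.altA (C := cA101E) (j := (0 : Fin 8)) (k := (3 : Fin 8)) (Ef := esg) (pd := pd) (o := 3 / 40)
    (cornW_of (C := cA101E) (C0 := c0B) (En := eng) (mo := mog) (j := (0 : Fin 8)) (k := (3 : Fin 8)) (lo := 0) (hi := 0) (W := 67108864) (N0 := 3) cA101E_q (sideB hx hx') gokB (pinU hx hx') dokB X (by norm_num) (by norm_num) (l := (0 : Fin 8)) rfl
      (gatB01 x) (gatB30 x) (gatB01 x) (datB01 x) (datB30 x) (datB01 x) ?_)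
    (cornS_of (C := cA101E) (C0 := c0B) (j := (0 : Fin 8)) (k := (3 : Fin 8)) (lo := 0) (hi := 0) (W := 67108864) (N0 := 3) cA101E_q (sideB hx hx') gokB X (by norm_num) (by norm_num) (l := (0 : Fin 8)) rfl
      (gatB01 x) (gatB30 x) (gatB01 x) ?_)
    (thU (pinU hx hx')) rfl hκ (fun j q y => tC_eq j q y x) (esg_rng X.x0.le (by linarith [X.b, X.p0])).1 (mo_v x) le_rfl le_rfl
  · intro ρ a B hρ hd i h1 h2
    fin_cases i
    · exact corW_cert (G1 := gB0q1) (G2 := gB3q0) (Ga := gB0q1) (Gb := gB1q1) (D1 := dB0q1) (D2 := dB3q0) (Da := dB0q1) (Db := dB1q1) cA101E_ok B hρ hen (gatB01 x) (gatB30 x) (fun _ => gatB01 x) (fun h => absurd h (by decide)) (datB01 x) (datB30 x) (fun _ => datB01 x) (fun h => absurd h (by decide)) hd hx hx' CW.A101E_030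
    · exact absurd h2 (by norm_num)
    · exact absurd h2 (by norm_num)
    · exact absurd h2 (by norm_num)
    · exact absurd h2 (by norm_num)
    · exact absurd h2 (by norm_num)
    · exact absurd h2 (by norm_num)
  · intro ρ a B hρ hd i h1 h2
    fin_cases i
    · exact corT_cert (G1 := gB0q1) (G2 := gB3q0) (Ga := gB0q1) (Gb := gB1q1) cA101E_ok B hρ (gatB01 x) (gatB30 x) (fun _ => gatB01 x) (fun h => absurd h (by decide)) hd hx hx' CG.A101E_030
    · exact absurd h2 (by norm_num)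
    · exact absurd h2 (by norm_num)
    · exact absurd h2 (by norm_num)
    · exact absurd h2 (by norm_num)
    · exact absurd h2 (by norm_num)
    · exact absurd h2 (by norm_num)

theorem altB_A101E_04 {κ x : ℝ} (hκ : κ * h0 = ken x) (hx : ((697932185 : ℕ) : ℝ) / S ≤ x) (hx' : x ≤ (((697932185 : ℕ) : ℝ) + (42949674 : ℕ)) / S) :
    AltEA 3 κ (eng.v x) (3 / 40) (tnt (h0 * x) (3 / 10)) PP tK tL tC pcB (scP esg pd) [⟨0, 1, 0, 67108864⟩, ⟨1, 0, 0, 67108864⟩, ⟨2, 1, 0, 67108864⟩] 1 0 1 0 4 (sgb true) (sgb false) x := by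
  have X : XR 67108864 x := XR.of hx hx' (by norm_num) (by norm_num) (by norm_num) (by norm_num)
  have hen : 0 < eng.v x := en_pos X.x0.le
  refine CornW.altA (C := cA101E) (j := (0 : Fin 8)) (k := (4 : Fin 8)) (Ef := esg) (pd := pd) (o := 3 / 40)
    (cornW_of (C := cA101E) (C0 := c0B) (En := eng) (mo := mog) (j := (0 : Fin 8)) (k := (4 : Fin 8)) (lo := 0) (hi := 0) (W := 67108864) (N0 := 3) cA101E_q (sideB hx hx') gokB (pinU hx hx') dokB X (by norm_num) (by norm_num) (l := (0 : Fin 8)) rfl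
      (gatB01 x) (gatB40 x) (gatB01 x) (datB01 x) (datB40 x) (datB01 x) ?_)
    (cornS_of (C := cA101E) (C0 := c0B) (j := (0 : Fin 8)) (k := (4 : Fin 8)) (lo := 0) (hi := 0) (W := 67108864) (N0 := 3) cA101E_q (sideB hx hx') gokB X (by norm_num) (by norm_num) (l := (0 : Fin 8)) rfl
      (gatB01 x) (gatB40 x) (gatB01 x) ?_)
    (thU (pinU hx hx')) rfl hκ (fun j q y => tC_eq j q y x) (esg_rng X.x0.le (by linarith [X.b, X.p0])).1 (mo_v x) le_rfl le_rfl
  · intro ρ a B hρ hd i h1 h2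
    fin_cases i
    · exact corW_cert (G1 := gB0q1) (G2 := gB4q0) (Ga := gB0q1) (Gb := gB1q1) (D1 := dB0q1) (D2 := dB4q0) (Da := dB0q1) (Db := dB1q1) cA101E_ok B hρ hen (gatB01 x) (gatB40 x) (fun _ => gatB01 x) (fun h => absurd h (by decide)) (datB01 x) (datB40 x) (fun _ => datB01 x) (fun h => absurd h (by decide)) hd hx hx' CW.A101E_040
    · exact absurd h2 (by norm_num)
    · exact absurd h2 (by norm_num)
    · exact absurd h2 (by norm_num)
    · exact absurd h2 (by norm_num)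
    · exact absurd h2 (by norm_num)
    · exact absurd h2 (by norm_num)
  · intro ρ a B hρ hd i h1 h2
    fin_cases i
    · exact corT_cert (G1 := gB0q1) (G2 := gB4q0) (Ga := gB0q1) (Gb := gB1q1) cA101E_ok B hρ (gatB01 x) (gatB40 x) (fun _ => gatB01 x) (fun h => absurd h (by decide)) hd hx hx' CG.A101E_040
    · exact absurd h2 (by norm_num)
    · exact absurd h2 (by norm_num)
    · exact absurd h2 (by norm_num)
    · exact absurd h2 (by norm_num)
    · exact absurd h2 (by norm_num)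
    · exact absurd h2 (by norm_num)

theorem altB_A101R_00 {κ x : ℝ} (hκ : κ * h0 = ken x) (hx : ((697932185 : ℕ) : ℝ) / S ≤ x) (hx' : x ≤ (((697932185 : ℕ) : ℝ) + (42949674 : ℕ)) / S) :
    AltEA 3 κ (eng.v x) (3 / 40) (tnt (h0 * x) (3 / 10)) PP tK tL tC pcB (scP esg pd) [⟨0, 1, 0, 67108864⟩, ⟨1, 0, 0, 67108864⟩, ⟨2, 1, 0, 67108864⟩] 1 0 1 0 0 (sgb false) (sgb false) x := by
  have X : XR 67108864 x := XR.of hx hx' (by norm_num) (by norm_num) (by norm_num) (by norm_num)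
  have hen : 0 < eng.v x := en_pos X.x0.le
  refine CornW.altA (C := cA101R) (j := (0 : Fin 8)) (k := (0 : Fin 8)) (Ef := esg) (pd := pd) (o := 3 / 40)
    (cornW_of (C := cA101R) (C0 := c0B) (En := eng) (mo := mog) (j := (0 : Fin 8)) (k := (0 : Fin 8)) (lo := 5) (hi := 7) (W := 67108864) (N0 := 3) cA101R_q (sideB hx hx') gokB (pinU hx hx') dokB X (by norm_num) (by norm_num) (l := (5 : Fin 8)) rfl
      (gatB01 x) (gatB00 x) (gatB51 x) (datB01 x) (datB00 x) (datB51 x) ?_)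
    (cornS_of (C := cA101R) (C0 := c0B) (j := (0 : Fin 8)) (k := (0 : Fin 8)) (lo := 5) (hi := 7) (W := 67108864) (N0 := 3) cA101R_q (sideB hx hx') gokB X (by norm_num) (by norm_num) (l := (5 : Fin 8)) rfl
      (gatB01 x) (gatB00 x) (gatB51 x) ?_)
    (thU (pinU hx hx')) rfl hκ (fun j q y => tC_eq j q y x) (esg_rng X.x0.le (by linarith [X.b, X.p0])).1 (mo_v x) le_rfl le_rfl
  · intro ρ a B hρ hd i h1 h2
    fin_cases i
    · exact absurd h1 (by norm_num)
    · exact absurd h1 (by norm_num)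
    · exact absurd h1 (by norm_num)
    · exact absurd h1 (by norm_num)
    · exact corW_cert (G1 := gB0q1) (G2 := gB0q0) (Ga := gB4q1) (Gb := gB5q1) (D1 := dB0q1) (D2 := dB0q0) (Da := dB4q1) (Db := dB5q1) cA101R_ok B hρ hen (gatB01 x) (gatB00 x) (fun h => absurd h (by decide)) (fun _ => gatB51 x) (datB01 x) (datB00 x) (fun h => absurd h (by decide)) (fun _ => datB51 x) hd hx hx' CW.A101R_004
    · exact corW_cert (G1 := gB0q1) (G2 := gB0q0) (Ga := gB5q1) (Gb := gB6q1) (D1 := dB0q1) (D2 := dB0q0) (Da := dB5q1) (Db := dB6q1) cA101R_ok B hρ hen (gatB01 x) (gatB00 x) (fun _ => gatB51 x) (fun _ => gatB61 x) (datB01 x) (datB00 x) (fun _ => datB51 x) (fun _ => datB61 x) hd hx hx' CW.A101R_005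
    · exact corW_cert (G1 := gB0q1) (G2 := gB0q0) (Ga := gB6q1) (Gb := gB7q1) (D1 := dB0q1) (D2 := dB0q0) (Da := dB6q1) (Db := dB7q1) cA101R_ok B hρ hen (gatB01 x) (gatB00 x) (fun _ => gatB61 x) (fun _ => gatB71 x) (datB01 x) (datB00 x) (fun _ => datB61 x) (fun _ => datB71 x) hd hx hx' CW.A101R_006
  · intro ρ a B hρ hd i h1 h2
    fin_cases i
    · exact absurd h1 (by norm_num)
    · exact absurd h1 (by norm_num)
    · exact absurd h1 (by norm_num)
    · exact absurd h1 (by norm_num)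
    · exact corT_cert (G1 := gB0q1) (G2 := gB0q0) (Ga := gB4q1) (Gb := gB5q1) cA101R_ok B hρ (gatB01 x) (gatB00 x) (fun h => absurd h (by decide)) (fun _ => gatB51 x) hd hx hx' CG.A101R_004
    · exact corT_cert (G1 := gB0q1) (G2 := gB0q0) (Ga := gB5q1) (Gb := gB6q1) cA101R_ok B hρ (gatB01 x) (gatB00 x) (fun _ => gatB51 x) (fun _ => gatB61 x) hd hx hx' CG.A101R_005
    · exact corT_cert (G1 := gB0q1) (G2 := gB0q0) (Ga := gB6q1) (Gb := gB7q1) cA101R_ok B hρ (gatB01 x) (gatB00 x) (fun _ => gatB61 x) (fun _ => gatB71 x) hd hx hx' CG.A101R_006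

theorem altB_A101R_01 {κ x : ℝ} (hκ : κ * h0 = ken x) (hx : ((697932185 : ℕ) : ℝ) / S ≤ x) (hx' : x ≤ (((697932185 : ℕ) : ℝ) + (42949674 : ℕ)) / S) :
    AltEA 3 κ (eng.v x) (3 / 40) (tnt (h0 * x) (3 / 10)) PP tK tL tC pcB (scP esg pd) [⟨0, 1, 0, 67108864⟩, ⟨1, 0, 0, 67108864⟩, ⟨2, 1, 0, 67108864⟩] 1 0 1 0 1 (sgb false) (sgb false) x := by
  have X : XR 67108864 x := XR.of hx hx' (by norm_num) (by norm_num) (by norm_num) (by norm_num)
  have hen : 0 < eng.v x := en_pos X.x0.le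
  refine CornW.altA (C := cA101R) (j := (0 : Fin 8)) (k := (1 : Fin 8)) (Ef := esg) (pd := pd) (o := 3 / 40)
    (cornW_of (C := cA101R) (C0 := c0B) (En := eng) (mo := mog) (j := (0 : Fin 8)) (k := (1 : Fin 8)) (lo := 5) (hi := 7) (W := 67108864) (N0 := 3) cA101R_q (sideB hx hx') gokB (pinU hx hx') dokB X (by norm_num) (by norm_num) (l := (5 : Fin 8)) rfl
      (gatB01 x) (gatB10 x) (gatB51 x) (datB01 x) (datB10 x) (datB51 x) ?_)
    (cornS_of (C := cA101R) (C0 := c0B) (j := (0 : Fin 8)) (k := (1 : Fin 8)) (lo := 5) (hi := 7) (W := 67108864) (N0 := 3) cA101R_q (sideB hx hx') gokB X (by norm_num) (by norm_num) (l := (5 : Fin 8)) rfl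
      (gatB01 x) (gatB10 x) (gatB51 x) ?_)
    (thU (pinU hx hx')) rfl hκ (fun j q y => tC_eq j q y x) (esg_rng X.x0.le (by linarith [X.b, X.p0])).1 (mo_v x) le_rfl le_rfl
  · intro ρ a B hρ hd i h1 h2
    fin_cases i
    · exact absurd h1 (by norm_num)
    · exact absurd h1 (by norm_num)
    · exact absurd h1 (by norm_num)
    · exact absurd h1 (by norm_num)
    · exact corW_cert (G1 := gB0q1) (G2 := gB1q0) (Ga := gB4q1) (Gb := gB5q1) (D1 := dB0q1) (D2 := dB1q0) (Da := dB4q1) (Db := dB5q1) cA101R_ok B hρ hen (gatB01 x) (gatB10 x) (fun h => absurd h (by decide)) (fun _ => gatB51 x) (datB01 x) (datB10 x) (fun h => absurd h (by decide)) (fun _ => datB51 x) hd hx hx' CW.A101R_014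
    · exact corW_cert (G1 := gB0q1) (G2 := gB1q0) (Ga := gB5q1) (Gb := gB6q1) (D1 := dB0q1) (D2 := dB1q0) (Da := dB5q1) (Db := dB6q1) cA101R_ok B hρ hen (gatB01 x) (gatB10 x) (fun _ => gatB51 x) (fun _ => gatB61 x) (datB01 x) (datB10 x) (fun _ => datB51 x) (fun _ => datB61 x) hd hx hx' CW.A101R_015
    · exact corW_cert (G1 := gB0q1) (G2 := gB1q0) (Ga := gB6q1) (Gb := gB7q1) (D1 := dB0q1) (D2 := dB1q0) (Da := dB6q1) (Db := dB7q1) cA101R_ok B hρ hen (gatB01 x) (gatB10 x) (fun _ => gatB61 x) (fun _ => gatB71 x) (datB01 x) (datB10 x) (fun _ => datB61 x) (fun _ => datB71 x) hd hx hx' CW.A101R_016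
  · intro ρ a B hρ hd i h1 h2
    fin_cases i
    · exact absurd h1 (by norm_num)
    · exact absurd h1 (by norm_num)
    · exact absurd h1 (by norm_num)
    · exact absurd h1 (by norm_num)
    · exact corT_cert (G1 := gB0q1) (G2 := gB1q0) (Ga := gB4q1) (Gb := gB5q1) cA101R_ok B hρ (gatB01 x) (gatB10 x) (fun h => absurd h (by decide)) (fun _ => gatB51 x) hd hx hx' CG.A101R_014
    · exact corT_cert (G1 := gB0q1) (G2 := gB1q0) (Ga := gB5q1) (Gb := gB6q1) cA101R_ok B hρ (gatB01 x) (gatB10 x) (fun _ => gatB51 x) (fun _ => gatB61 x) hd hx hx' CG.A101R_015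
    · exact corT_cert (G1 := gB0q1) (G2 := gB1q0) (Ga := gB6q1) (Gb := gB7q1) cA101R_ok B hρ (gatB01 x) (gatB10 x) (fun _ => gatB61 x) (fun _ => gatB71 x) hd hx hx' CG.A101R_016

theorem altB_A101R_02 {κ x : ℝ} (hκ : κ * h0 = ken x) (hx : ((697932185 : ℕ) : ℝ) / S ≤ x) (hx' : x ≤ (((697932185 : ℕ) : ℝ) + (42949674 : ℕ)) / S) :
    AltEA 3 κ (eng.v x) (3 / 40) (tnt (h0 * x) (3 / 10)) PP tK tL tC pcB (scP esg pd) [⟨0, 1, 0, 67108864⟩, ⟨1, 0, 0, 67108864⟩, ⟨2, 1, 0, 67108864⟩] 1 0 1 0 2 (sgb false) (sgb false) x := by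
  have X : XR 67108864 x := XR.of hx hx' (by norm_num) (by norm_num) (by norm_num) (by norm_num)
  have hen : 0 < eng.v x := en_pos X.x0.le
  refine CornW.altA (C := cA101R) (j := (0 : Fin 8)) (k := (2 : Fin 8)) (Ef := esg) (pd := pd) (o := 3 / 40)
    (cornW_of (C := cA101R) (C0 := c0B) (En := eng) (mo := mog) (j := (0 : Fin 8)) (k := (2 : Fin 8)) (lo := 5) (hi := 7) (W := 67108864) (N0 := 3) cA101R_q (sideB hx hx') gokB (pinU hx hx') dokB X (by norm_num) (by norm_num) (l := (5 : Fin 8)) rfl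
      (gatB01 x) (gatB20 x) (gatB51 x) (datB01 x) (datB20 x) (datB51 x) ?_)
    (cornS_of (C := cA101R) (C0 := c0B) (j := (0 : Fin 8)) (k := (2 : Fin 8)) (lo := 5) (hi := 7) (W := 67108864) (N0 := 3) cA101R_q (sideB hx hx') gokB X (by norm_num) (by norm_num) (l := (5 : Fin 8)) rfl
      (gatB01 x) (gatB20 x) (gatB51 x) ?_)
    (thU (pinU hx hx')) rfl hκ (fun j q y => tC_eq j q y x) (esg_rng X.x0.le (by linarith [X.b, X.p0])).1 (mo_v x) le_rfl le_rfl
  · intro ρ a B hρ hd i h1 h2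
    fin_cases i
    · exact absurd h1 (by norm_num)
    · exact absurd h1 (by norm_num)
    · exact absurd h1 (by norm_num)
    · exact absurd h1 (by norm_num)
    · exact corW_cert (G1 := gB0q1) (G2 := gB2q0) (Ga := gB4q1) (Gb := gB5q1) (D1 := dB0q1) (D2 := dB2q0) (Da := dB4q1) (Db := dB5q1) cA101R_ok B hρ hen (gatB01 x) (gatB20 x) (fun h => absurd h (by decide)) (fun _ => gatB51 x) (datB01 x) (datB20 x) (fun h => absurd h (by decide)) (fun _ => datB51 x) hd hx hx' CW.A101R_024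
    · exact corW_cert (G1 := gB0q1) (G2 := gB2q0) (Ga := gB5q1) (Gb := gB6q1) (D1 := dB0q1) (D2 := dB2q0) (Da := dB5q1) (Db := dB6q1) cA101R_ok B hρ hen (gatB01 x) (gatB20 x) (fun _ => gatB51 x) (fun _ => gatB61 x) (datB01 x) (datB20 x) (fun _ => datB51 x) (fun _ => datB61 x) hd hx hx' CW.A101R_025
    · exact corW_cert (G1 := gB0q1) (G2 := gB2q0) (Ga := gB6q1) (Gb := gB7q1) (D1 := dB0q1) (D2 := dB2q0) (Da := dB6q1) (Db := dB7q1) cA101R_ok B hρ hen (gatB01 x) (gatB20 x) (fun _ => gatB61 x) (fun _ => gatB71 x) (datB01 x) (datB20 x) (fun _ => datB61 x) (fun _ => datB71 x) hd hx hx' CW.A101R_026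
  · intro ρ a B hρ hd i h1 h2
    fin_cases i
    · exact absurd h1 (by norm_num)
    · exact absurd h1 (by norm_num)
    · exact absurd h1 (by norm_num)
    · exact absurd h1 (by norm_num)
    · exact corT_cert (G1 := gB0q1) (G2 := gB2q0) (Ga := gB4q1) (Gb := gB5q1) cA101R_ok B hρ (gatB01 x) (gatB20 x) (fun h => absurd h (by decide)) (fun _ => gatB51 x) hd hx hx' CG.A101R_024
    · exact corT_cert (G1 := gB0q1) (G2 := gB2q0) (Ga := gB5q1) (Gb := gB6q1) cA101R_ok B hρ (gatB01 x) (gatB20 x) (fun _ => gatB51 x) (fun _ => gatB61 x) hd hx hx' CG.A101R_025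
    · exact corT_cert (G1 := gB0q1) (G2 := gB2q0) (Ga := gB6q1) (Gb := gB7q1) cA101R_ok B hρ (gatB01 x) (gatB20 x) (fun _ => gatB61 x) (fun _ => gatB71 x) hd hx hx' CG.A101R_026

theorem altB_A101R_03 {κ x : ℝ} (hκ : κ * h0 = ken x) (hx : ((697932185 : ℕ) : ℝ) / S ≤ x) (hx' : x ≤ (((697932185 : ℕ) : ℝ) + (42949674 : ℕ)) / S) :
    AltEA 3 κ (eng.v x) (3 / 40) (tnt (h0 * x) (3 / 10)) PP tK tL tC pcB (scP esg pd) [⟨0, 1, 0, 67108864⟩, ⟨1, 0, 0, 67108864⟩, ⟨2, 1, 0, 67108864⟩] 1 0 1 0 3 (sgb false) (sgb false) x := by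
  have X : XR 67108864 x := XR.of hx hx' (by norm_num) (by norm_num) (by norm_num) (by norm_num)
  have hen : 0 < eng.v x := en_pos X.x0.le
  refine CornW.altA (C := cA101R) (j := (0 : Fin 8)) (k := (3 : Fin 8)) (Ef := esg) (pd := pd) (o := 3 / 40)
    (cornW_of (C := cA101R) (C0 := c0B) (En := eng) (mo := mog) (j := (0 : Fin 8)) (k := (3 : Fin 8)) (lo := 5) (hi := 7) (W := 67108864) (N0 := 3) cA101R_q (sideB hx hx') gokB (pinU hx hx') dokB X (by norm_num) (by norm_num) (l := (5 : Fin 8)) rfl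
      (gatB01 x) (gatB30 x) (gatB51 x) (datB01 x) (datB30 x) (datB51 x) ?_)
    (cornS_of (C := cA101R) (C0 := c0B) (j := (0 : Fin 8)) (k := (3 : Fin 8)) (lo := 5) (hi := 7) (W := 67108864) (N0 := 3) cA101R_q (sideB hx hx') gokB X (by norm_num) (by norm_num) (l := (5 : Fin 8)) rfl
      (gatB01 x) (gatB30 x) (gatB51 x) ?_)
    (thU (pinU hx hx')) rfl hκ (fun j q y => tC_eq j q y x) (esg_rng X.x0.le (by linarith [X.b, X.p0])).1 (mo_v x) le_rfl le_rfl
  · intro ρ a B hρ hd i h1 h2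
    fin_cases i
    · exact absurd h1 (by norm_num)
    · exact absurd h1 (by norm_num)
    · exact absurd h1 (by norm_num)
    · exact absurd h1 (by norm_num)
    · exact corW_cert (G1 := gB0q1) (G2 := gB3q0) (Ga := gB4q1) (Gb := gB5q1) (D1 := dB0q1) (D2 := dB3q0) (Da := dB4q1) (Db := dB5q1) cA101R_ok B hρ hen (gatB01 x) (gatB30 x) (fun h => absurd h (by decide)) (fun _ => gatB51 x) (datB01 x) (datB30 x) (fun h => absurd h (by decide)) (fun _ => datB51 x) hd hx hx' CW.A101R_034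
    · exact corW_cert (G1 := gB0q1) (G2 := gB3q0) (Ga := gB5q1) (Gb := gB6q1) (D1 := dB0q1) (D2 := dB3q0) (Da := dB5q1) (Db := dB6q1) cA101R_ok B hρ hen (gatB01 x) (gatB30 x) (fun _ => gatB51 x) (fun _ => gatB61 x) (datB01 x) (datB30 x) (fun _ => datB51 x) (fun _ => datB61 x) hd hx hx' CW.A101R_035
    · exact corW_cert (G1 := gB0q1) (G2 := gB3q0) (Ga := gB6q1) (Gb := gB7q1) (D1 := dB0q1) (D2 := dB3q0) (Da := dB6q1) (Db := dB7q1) cA101R_ok B hρ hen (gatB01 x) (gatB30 x) (fun _ => gatB61 x) (fun _ => gatB71 x) (datB01 x) (datB30 x) (fun _ => datB61 x) (fun _ => datB71 x) hd hx hx' CW.A101R_036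
  · intro ρ a B hρ hd i h1 h2
    fin_cases i
    · exact absurd h1 (by norm_num)
    · exact absurd h1 (by norm_num)
    · exact absurd h1 (by norm_num)
    · exact absurd h1 (by norm_num)
    · exact corT_cert (G1 := gB0q1) (G2 := gB3q0) (Ga := gB4q1) (Gb := gB5q1) cA101R_ok B hρ (gatB01 x) (gatB30 x) (fun h => absurd h (by decide)) (fun _ => gatB51 x) hd hx hx' CG.A101R_034
    · exact corT_cert (G1 := gB0q1) (G2 := gB3q0) (Ga := gB5q1) (Gb := gB6q1) cA101R_ok B hρ (gatB01 x) (gatB30 x) (fun _ => gatB51 x) (fun _ => gatB61 x) hd hx hx' CG.A101R_035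
    · exact corT_cert (G1 := gB0q1) (G2 := gB3q0) (Ga := gB6q1) (Gb := gB7q1) cA101R_ok B hρ (gatB01 x) (gatB30 x) (fun _ => gatB61 x) (fun _ => gatB71 x) hd hx hx' CG.A101R_036

theorem altB_A101R_04 {κ x : ℝ} (hκ : κ * h0 = ken x) (hx : ((697932185 : ℕ) : ℝ) / S ≤ x) (hx' : x ≤ (((697932185 : ℕ) : ℝ) + (42949674 : ℕ)) / S) :
    AltEA 3 κ (eng.v x) (3 / 40) (tnt (h0 * x) (3 / 10)) PP tK tL tC pcB (scP esg pd) [⟨0, 1, 0, 67108864⟩, ⟨1, 0, 0, 67108864⟩, ⟨2, 1, 0, 67108864⟩] 1 0 1 0 4 (sgb false) (sgb false) x := by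
  have X : XR 67108864 x := XR.of hx hx' (by norm_num) (by norm_num) (by norm_num) (by norm_num)
  have hen : 0 < eng.v x := en_pos X.x0.le
  refine CornW.altA (C := cA101R) (j := (0 : Fin 8)) (k := (4 : Fin 8)) (Ef := esg) (pd := pd) (o := 3 / 40)
    (cornW_of (C := cA101R) (C0 := c0B) (En := eng) (mo := mog) (j := (0 : Fin 8)) (k := (4 : Fin 8)) (lo := 5) (hi := 7) (W := 67108864) (N0 := 3) cA101R_q (sideB hx hx') gokB (pinU hx hx') dokB X (by norm_num) (by norm_num) (l := (5 : Fin 8)) rfl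
      (gatB01 x) (gatB40 x) (gatB51 x) (datB01 x) (datB40 x) (datB51 x) ?_)
    (cornS_of (C := cA101R) (C0 := c0B) (j := (0 : Fin 8)) (k := (4 : Fin 8)) (lo := 5) (hi := 7) (W := 67108864) (N0 := 3) cA101R_q (sideB hx hx') gokB X (by norm_num) (by norm_num) (l := (5 : Fin 8)) rfl
      (gatB01 x) (gatB40 x) (gatB51 x) ?_)
    (thU (pinU hx hx')) rfl hκ (fun j q y => tC_eq j q y x) (esg_rng X.x0.le (by linarith [X.b, X.p0])).1 (mo_v x) le_rfl le_rfl
  · intro ρ a B hρ hd i h1 h2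
    fin_cases i
    · exact absurd h1 (by norm_num)
    · exact absurd h1 (by norm_num)
    · exact absurd h1 (by norm_num)
    · exact absurd h1 (by norm_num)
    · exact corW_cert (G1 := gB0q1) (G2 := gB4q0) (Ga := gB4q1) (Gb := gB5q1) (D1 := dB0q1) (D2 := dB4q0) (Da := dB4q1) (Db := dB5q1) cA101R_ok B hρ hen (gatB01 x) (gatB40 x) (fun h => absurd h (by decide)) (fun _ => gatB51 x) (datB01 x) (datB40 x) (fun h => absurd h (by decide)) (fun _ => datB51 x) hd hx hx' CW.A101R_044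
    · exact corW_cert (G1 := gB0q1) (G2 := gB4q0) (Ga := gB5q1) (Gb := gB6q1) (D1 := dB0q1) (D2 := dB4q0) (Da := dB5q1) (Db := dB6q1) cA101R_ok B hρ hen (gatB01 x) (gatB40 x) (fun _ => gatB51 x) (fun _ => gatB61 x) (datB01 x) (datB40 x) (fun _ => datB51 x) (fun _ => datB61 x) hd hx hx' CW.A101R_045
    · exact corW_cert (G1 := gB0q1) (G2 := gB4q0) (Ga := gB6q1) (Gb := gB7q1) (D1 := dB0q1) (D2 := dB4q0) (Da := dB6q1) (Db := dB7q1) cA101R_ok B hρ hen (gatB01 x) (gatB40 x) (fun _ => gatB61 x) (fun _ => gatB71 x) (datB01 x) (datB40 x) (fun _ => datB61 x) (fun _ => datB71 x) hd hx hx' CW.A101R_046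
  · intro ρ a B hρ hd i h1 h2
    fin_cases i
    · exact absurd h1 (by norm_num)
    · exact absurd h1 (by norm_num)
    · exact absurd h1 (by norm_num)
    · exact absurd h1 (by norm_num)
    · exact corT_cert (G1 := gB0q1) (G2 := gB4q0) (Ga := gB4q1) (Gb := gB5q1) cA101R_ok B hρ (gatB01 x) (gatB40 x) (fun h => absurd h (by decide)) (fun _ => gatB51 x) hd hx hx' CG.A101R_044
    · exact corT_cert (G1 := gB0q1) (G2 := gB4q0) (Ga := gB5q1) (Gb := gB6q1) cA101R_ok B hρ (gatB01 x) (gatB40 x) (fun _ => gatB51 x) (fun _ => gatB61 x) hd hx hx' CG.A101R_045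
    · exact corT_cert (G1 := gB0q1) (G2 := gB4q0) (Ga := gB6q1) (Gb := gB7q1) cA101R_ok B hρ (gatB01 x) (gatB40 x) (fun _ => gatB61 x) (fun _ => gatB71 x) hd hx hx' CG.A101R_046

theorem altB_A102E_00 {κ x : ℝ} (hκ : κ * h0 = ken x) (hx : ((697932185 : ℕ) : ℝ) / S ≤ x) (hx' : x ≤ (((697932185 : ℕ) : ℝ) + (42949674 : ℕ)) / S) :
    AltEA 3 κ (eng.v x) (3 / 40) (tnt (h0 * x) (3 / 10)) PP tK tL tC pcB (scP esg pd) [⟨0, 1, 0, 33554432⟩, ⟨1, 0, 0, 33554432⟩, ⟨2, 1, 0, 33554432⟩] 1 0 2 0 0 (sgb true) (sgb false) x := by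
  have X : XR 33554432 x := XR.of hx hx' (by norm_num) (by norm_num) (by norm_num) (by norm_num)
  have hen : 0 < eng.v x := en_pos X.x0.le
  refine CornW.altA (C := cA102E) (j := (0 : Fin 8)) (k := (0 : Fin 8)) (Ef := esg) (pd := pd) (o := 3 / 40)
    (cornW_of (C := cA102E) (C0 := c0B) (En := eng) (mo := mog) (j := (0 : Fin 8)) (k := (0 : Fin 8)) (lo := 0) (hi := 4) (W := 33554432) (N0 := 3) cA102E_q (sideB hx hx') gokB (pinU hx hx') dokB X (by norm_num) (by norm_num) (l := (0 : Fin 8)) rfl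
      (gatB01 x) (gatB00 x) (gatB02 x) (datB01 x) (datB00 x) (datB02 x) ?_)
    (cornS_of (C := cA102E) (C0 := c0B) (j := (0 : Fin 8)) (k := (0 : Fin 8)) (lo := 0) (hi := 4) (W := 33554432) (N0 := 3) cA102E_q (sideB hx hx') gokB X (by norm_num) (by norm_num) (l := (0 : Fin 8)) rfl
      (gatB01 x) (gatB00 x) (gatB02 x) ?_)
    (thU (pinU hx hx')) rfl hκ (fun j q y => tC_eq j q y x) (esg_rng X.x0.le (by linarith [X.b, X.p0])).1 (mo_v x) le_rfl le_rfl
  · intro ρ a B hρ hd i h1 h2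
    fin_cases i
    · exact corW_cert (G1 := gB0q1) (G2 := gB0q0) (Ga := gB0q2) (Gb := gB1q2) (D1 := dB0q1) (D2 := dB0q0) (Da := dB0q2) (Db := dB1q2) cA102E_ok B hρ hen (gatB01 x) (gatB00 x) (fun _ => gatB02 x) (fun _ => gatB12 x) (datB01 x) (datB00 x) (fun _ => datB02 x) (fun _ => datB12 x) hd hx hx' CW.A102E_000
    · exact corW_cert (G1 := gB0q1) (G2 := gB0q0) (Ga := gB1q2) (Gb := gB2q2) (D1 := dB0q1) (D2 := dB0q0) (Da := dB1q2) (Db := dB2q2) cA102E_ok B hρ hen (gatB01 x) (gatB00 x) (fun _ => gatB12 x) (fun _ => gatB22 x) (datB01 x) (datB00 x) (fun _ => datB12 x) (fun _ => datB22 x) hd hx hx' CW.A102E_001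
    · exact corW_cert (G1 := gB0q1) (G2 := gB0q0) (Ga := gB2q2) (Gb := gB3q2) (D1 := dB0q1) (D2 := dB0q0) (Da := dB2q2) (Db := dB3q2) cA102E_ok B hρ hen (gatB01 x) (gatB00 x) (fun _ => gatB22 x) (fun _ => gatB32 x) (datB01 x) (datB00 x) (fun _ => datB22 x) (fun _ => datB32 x) hd hx hx' CW.A102E_002
    · exact corW_cert (G1 := gB0q1) (G2 := gB0q0) (Ga := gB3q2) (Gb := gB4q2) (D1 := dB0q1) (D2 := dB0q0) (Da := dB3q2) (Db := dB4q2) cA102E_ok B hρ hen (gatB01 x) (gatB00 x) (fun _ => gatB32 x) (fun _ => gatB42 x) (datB01 x) (datB00 x) (fun _ => datB32 x) (fun _ => datB42 x) hd hx hx' CW.A102E_003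
    · exact corW_cert (G1 := gB0q1) (G2 := gB0q0) (Ga := gB4q2) (Gb := gB5q2) (D1 := dB0q1) (D2 := dB0q0) (Da := dB4q2) (Db := dB5q2) cA102E_ok B hρ hen (gatB01 x) (gatB00 x) (fun _ => gatB42 x) (fun h => absurd h (by decide)) (datB01 x) (datB00 x) (fun _ => datB42 x) (fun h => absurd h (by decide)) hd hx hx' CW.A102E_004
    · exact absurd h2 (by norm_num)
    · exact absurd h2 (by norm_num)
  · intro ρ a B hρ hd i h1 h2
    fin_cases i
    · exact corX_cert (G1 := gB0q1) (G2 := gB0q0) (Ga := gB0q2) (Gb := gB1q2) (GT := gB0q2) cA102E_ok tA102E_ok B hρ (gatB01 x) (gatB00 x) (fun _ => gatB02 x) (fun _ => gatB12 x) rfl (tgh_A102E (kodd x) (gpu1 x) (gpu0 x) (gpu2 x) (gatB01 x) (gatB00 x) (gatB02 x) B (le_sixteenth hd (by norm_num))) hd hx hx' CG.A102E_000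
    · exact corT_cert (G1 := gB0q1) (G2 := gB0q0) (Ga := gB1q2) (Gb := gB2q2) cA102E_ok B hρ (gatB01 x) (gatB00 x) (fun _ => gatB12 x) (fun _ => gatB22 x) hd hx hx' CG.A102E_001
    · exact corT_cert (G1 := gB0q1) (G2 := gB0q0) (Ga := gB2q2) (Gb := gB3q2) cA102E_ok B hρ (gatB01 x) (gatB00 x) (fun _ => gatB22 x) (fun _ => gatB32 x) hd hx hx' CG.A102E_002
    · exact corT_cert (G1 := gB0q1) (G2 := gB0q0) (Ga := gB3q2) (Gb := gB4q2) cA102E_ok B hρ (gatB01 x) (gatB00 x) (fun _ => gatB32 x) (fun _ => gatB42 x) hd hx hx' CG.A102E_003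
    · exact corT_cert (G1 := gB0q1) (G2 := gB0q0) (Ga := gB4q2) (Gb := gB5q2) cA102E_ok B hρ (gatB01 x) (gatB00 x) (fun _ => gatB42 x) (fun h => absurd h (by decide)) hd hx hx' CG.A102E_004
    · exact absurd h2 (by norm_num)
    · exact absurd h2 (by norm_num)

theorem altB_A102E_01 {κ x : ℝ} (hκ : κ * h0 = ken x) (hx : ((697932185 : ℕ) : ℝ) / S ≤ x) (hx' : x ≤ (((697932185 : ℕ) : ℝ) + (42949674 : ℕ)) / S) :
    AltEA 3 κ (eng.v x) (3 / 40) (tnt (h0 * x) (3 / 10)) PP tK tL tC pcB (scP esg pd) [⟨0, 1, 0, 67108864⟩, ⟨1, 0, 0, 67108864⟩, ⟨2, 1, 0, 67108864⟩] 1 0 2 0 1 (sgb true) (sgb false) x := by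
  have X : XR 67108864 x := XR.of hx hx' (by norm_num) (by norm_num) (by norm_num) (by norm_num)
  have hen : 0 < eng.v x := en_pos X.x0.le
  refine CornW.altA (C := cA102E) (j := (0 : Fin 8)) (k := (1 : Fin 8)) (Ef := esg) (pd := pd) (o := 3 / 40)
    (cornW_of (C := cA102E) (C0 := c0B) (En := eng) (mo := mog) (j := (0 : Fin 8)) (k := (1 : Fin 8)) (lo := 0) (hi := 4) (W := 67108864) (N0 := 3) cA102E_q (sideB hx hx') gokB (pinU hx hx') dokB X (by norm_num) (by norm_num) (l := (0 : Fin 8)) rfl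
      (gatB01 x) (gatB10 x) (gatB02 x) (datB01 x) (datB10 x) (datB02 x) ?_)
    (cornS_of (C := cA102E) (C0 := c0B) (j := (0 : Fin 8)) (k := (1 : Fin 8)) (lo := 0) (hi := 4) (W := 67108864) (N0 := 3) cA102E_q (sideB hx hx') gokB X (by norm_num) (by norm_num) (l := (0 : Fin 8)) rfl
      (gatB01 x) (gatB10 x) (gatB02 x) ?_)
    (thU (pinU hx hx')) rfl hκ (fun j q y => tC_eq j q y x) (esg_rng X.x0.le (by linarith [X.b, X.p0])).1 (mo_v x) le_rfl le_rfl
  · intro ρ a B hρ hd i h1 h2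
    fin_cases i
    · exact corW_cert (G1 := gB0q1) (G2 := gB1q0) (Ga := gB0q2) (Gb := gB1q2) (D1 := dB0q1) (D2 := dB1q0) (Da := dB0q2) (Db := dB1q2) cA102E_ok B hρ hen (gatB01 x) (gatB10 x) (fun _ => gatB02 x) (fun _ => gatB12 x) (datB01 x) (datB10 x) (fun _ => datB02 x) (fun _ => datB12 x) hd hx hx' CW.A102E_010
    · exact corW_cert (G1 := gB0q1) (G2 := gB1q0) (Ga := gB1q2) (Gb := gB2q2) (D1 := dB0q1) (D2 := dB1q0) (Da := dB1q2) (Db := dB2q2) cA102E_ok B hρ hen (gatB01 x) (gatB10 x) (fun _ => gatB12 x) (fun _ => gatB22 x) (datB01 x) (datB10 x) (fun _ => datB12 x) (fun _ => datB22 x) hd hx hx' CW.A102E_011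
    · exact corW_cert (G1 := gB0q1) (G2 := gB1q0) (Ga := gB2q2) (Gb := gB3q2) (D1 := dB0q1) (D2 := dB1q0) (Da := dB2q2) (Db := dB3q2) cA102E_ok B hρ hen (gatB01 x) (gatB10 x) (fun _ => gatB22 x) (fun _ => gatB32 x) (datB01 x) (datB10 x) (fun _ => datB22 x) (fun _ => datB32 x) hd hx hx' CW.A102E_012
    · exact corW_cert (G1 := gB0q1) (G2 := gB1q0) (Ga := gB3q2) (Gb := gB4q2) (D1 := dB0q1) (D2 := dB1q0) (Da := dB3q2) (Db := dB4q2) cA102E_ok B hρ hen (gatB01 x) (gatB10 x) (fun _ => gatB32 x) (fun _ => gatB42 x) (datB01 x) (datB10 x) (fun _ => datB32 x) (fun _ => datB42 x) hd hx hx' CW.A102E_013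
    · exact corW_cert (G1 := gB0q1) (G2 := gB1q0) (Ga := gB4q2) (Gb := gB5q2) (D1 := dB0q1) (D2 := dB1q0) (Da := dB4q2) (Db := dB5q2) cA102E_ok B hρ hen (gatB01 x) (gatB10 x) (fun _ => gatB42 x) (fun h => absurd h (by decide)) (datB01 x) (datB10 x) (fun _ => datB42 x) (fun h => absurd h (by decide)) hd hx hx' CW.A102E_014
    · exact absurd h2 (by norm_num)
    · exact absurd h2 (by norm_num)
  · intro ρ a B hρ hd i h1 h2
    fin_cases i
    · exact corT_cert (G1 := gB0q1) (G2 := gB1q0) (Ga := gB0q2) (Gb := gB1q2) cA102E_ok B hρ (gatB01 x) (gatB10 x) (fun _ => gatB02 x) (fun _ => gatB12 x) hd hx hx' CG.A102E_010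
    · exact corT_cert (G1 := gB0q1) (G2 := gB1q0) (Ga := gB1q2) (Gb := gB2q2) cA102E_ok B hρ (gatB01 x) (gatB10 x) (fun _ => gatB12 x) (fun _ => gatB22 x) hd hx hx' CG.A102E_011
    · exact corT_cert (G1 := gB0q1) (G2 := gB1q0) (Ga := gB2q2) (Gb := gB3q2) cA102E_ok B hρ (gatB01 x) (gatB10 x) (fun _ => gatB22 x) (fun _ => gatB32 x) hd hx hx' CG.A102E_012
    · exact corT_cert (G1 := gB0q1) (G2 := gB1q0) (Ga := gB3q2) (Gb := gB4q2) cA102E_ok B hρ (gatB01 x) (gatB10 x) (fun _ => gatB32 x) (fun _ => gatB42 x) hd hx hx' CG.A102E_013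
    · exact corT_cert (G1 := gB0q1) (G2 := gB1q0) (Ga := gB4q2) (Gb := gB5q2) cA102E_ok B hρ (gatB01 x) (gatB10 x) (fun _ => gatB42 x) (fun h => absurd h (by decide)) hd hx hx' CG.A102E_014
    · exact absurd h2 (by norm_num)
    · exact absurd h2 (by norm_num)

theorem altB_A102E_02 {κ x : ℝ} (hκ : κ * h0 = ken x) (hx : ((697932185 : ℕ) : ℝ) / S ≤ x) (hx' : x ≤ (((697932185 : ℕ) : ℝ) + (42949674 : ℕ)) / S) :
    AltEA 3 κ (eng.v x) (3 / 40) (tnt (h0 * x) (3 / 10)) PP tK tL tC pcB (scP esg pd) [⟨0, 1, 0, 67108864⟩, ⟨1, 0, 0, 67108864⟩, ⟨2, 1, 0, 67108864⟩] 1 0 2 0 2 (sgb true) (sgb false) x := by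
  have X : XR 67108864 x := XR.of hx hx' (by norm_num) (by norm_num) (by norm_num) (by norm_num)
  have hen : 0 < eng.v x := en_pos X.x0.le
  refine CornW.altA (C := cA102E) (j := (0 : Fin 8)) (k := (2 : Fin 8)) (Ef := esg) (pd := pd) (o := 3 / 40)
    (cornW_of (C := cA102E) (C0 := c0B) (En := eng) (mo := mog) (j := (0 : Fin 8)) (k := (2 : Fin 8)) (lo := 0) (hi := 4) (W := 67108864) (N0 := 3) cA102E_q (sideB hx hx') gokB (pinU hx hx') dokB X (by norm_num) (by norm_num) (l := (0 : Fin 8)) rfl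
      (gatB01 x) (gatB20 x) (gatB02 x) (datB01 x) (datB20 x) (datB02 x) ?_)
    (cornS_of (C := cA102E) (C0 := c0B) (j := (0 : Fin 8)) (k := (2 : Fin 8)) (lo := 0) (hi := 4) (W := 67108864) (N0 := 3) cA102E_q (sideB hx hx') gokB X (by norm_num) (by norm_num) (l := (0 : Fin 8)) rfl
      (gatB01 x) (gatB20 x) (gatB02 x) ?_)
    (thU (pinU hx hx')) rfl hκ (fun j q y => tC_eq j q y x) (esg_rng X.x0.le (by linarith [X.b, X.p0])).1 (mo_v x) le_rfl le_rfl
  · intro ρ a B hρ hd i h1 h2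
    fin_cases i
    · exact corW_cert (G1 := gB0q1) (G2 := gB2q0) (Ga := gB0q2) (Gb := gB1q2) (D1 := dB0q1) (D2 := dB2q0) (Da := dB0q2) (Db := dB1q2) cA102E_ok B hρ hen (gatB01 x) (gatB20 x) (fun _ => gatB02 x) (fun _ => gatB12 x) (datB01 x) (datB20 x) (fun _ => datB02 x) (fun _ => datB12 x) hd hx hx' CW.A102E_020
    · exact corW_cert (G1 := gB0q1) (G2 := gB2q0) (Ga := gB1q2) (Gb := gB2q2) (D1 := dB0q1) (D2 := dB2q0) (Da := dB1q2) (Db := dB2q2) cA102E_ok B hρ hen (gatB01 x) (gatB20 x) (fun _ => gatB12 x) (fun _ => gatB22 x) (datB01 x) (datB20 x) (fun _ => datB12 x) (fun _ => datB22 x) hd hx hx' CW.A102E_021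
    · exact corW_cert (G1 := gB0q1) (G2 := gB2q0) (Ga := gB2q2) (Gb := gB3q2) (D1 := dB0q1) (D2 := dB2q0) (Da := dB2q2) (Db := dB3q2) cA102E_ok B hρ hen (gatB01 x) (gatB20 x) (fun _ => gatB22 x) (fun _ => gatB32 x) (datB01 x) (datB20 x) (fun _ => datB22 x) (fun _ => datB32 x) hd hx hx' CW.A102E_022
    · exact corW_cert (G1 := gB0q1) (G2 := gB2q0) (Ga := gB3q2) (Gb := gB4q2) (D1 := dB0q1) (D2 := dB2q0) (Da := dB3q2) (Db := dB4q2) cA102E_ok B hρ hen (gatB01 x) (gatB20 x) (fun _ => gatB32 x) (fun _ => gatB42 x) (datB01 x) (datB20 x) (fun _ => datB32 x) (fun _ => datB42 x) hd hx hx' CW.A102E_023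
    · exact corW_cert (G1 := gB0q1) (G2 := gB2q0) (Ga := gB4q2) (Gb := gB5q2) (D1 := dB0q1) (D2 := dB2q0) (Da := dB4q2) (Db := dB5q2) cA102E_ok B hρ hen (gatB01 x) (gatB20 x) (fun _ => gatB42 x) (fun h => absurd h (by decide)) (datB01 x) (datB20 x) (fun _ => datB42 x) (fun h => absurd h (by decide)) hd hx hx' CW.A102E_024
    · exact absurd h2 (by norm_num)
    · exact absurd h2 (by norm_num)
  · intro ρ a B hρ hd i h1 h2
    fin_cases i
    · exact corT_cert (G1 := gB0q1) (G2 := gB2q0) (Ga := gB0q2) (Gb := gB1q2) cA102E_ok B hρ (gatB01 x) (gatB20 x) (fun _ => gatB02 x) (fun _ => gatB12 x) hd hx hx' CG.A102E_020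
    · exact corT_cert (G1 := gB0q1) (G2 := gB2q0) (Ga := gB1q2) (Gb := gB2q2) cA102E_ok B hρ (gatB01 x) (gatB20 x) (fun _ => gatB12 x) (fun _ => gatB22 x) hd hx hx' CG.A102E_021
    · exact corT_cert (G1 := gB0q1) (G2 := gB2q0) (Ga := gB2q2) (Gb := gB3q2) cA102E_ok B hρ (gatB01 x) (gatB20 x) (fun _ => gatB22 x) (fun _ => gatB32 x) hd hx hx' CG.A102E_022
    · exact corT_cert (G1 := gB0q1) (G2 := gB2q0) (Ga := gB3q2) (Gb := gB4q2) cA102E_ok B hρ (gatB01 x) (gatB20 x) (fun _ => gatB32 x) (fun _ => gatB42 x) hd hx hx' CG.A102E_023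
    · exact corT_cert (G1 := gB0q1) (G2 := gB2q0) (Ga := gB4q2) (Gb := gB5q2) cA102E_ok B hρ (gatB01 x) (gatB20 x) (fun _ => gatB42 x) (fun h => absurd h (by decide)) hd hx hx' CG.A102E_024
    · exact absurd h2 (by norm_num)
    · exact absurd h2 (by norm_num)

theorem altB_A102E_03 {κ x : ℝ} (hκ : κ * h0 = ken x) (hx : ((697932185 : ℕ) : ℝ) / S ≤ x) (hx' : x ≤ (((697932185 : ℕ) : ℝ) + (42949674 : ℕ)) / S) :
    AltEA 3 κ (eng.v x) (3 / 40) (tnt (h0 * x) (3 / 10)) PP tK tL tC pcB (scP esg pd) [⟨0, 1, 0, 67108864⟩, ⟨1, 0, 0, 67108864⟩, ⟨2, 1, 0, 67108864⟩] 1 0 2 0 3 (sgb true) (sgb false) x := by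
  have X : XR 67108864 x := XR.of hx hx' (by norm_num) (by norm_num) (by norm_num) (by norm_num)
  have hen : 0 < eng.v x := en_pos X.x0.le
  refine CornW.altA (C := cA102E) (j := (0 : Fin 8)) (k := (3 : Fin 8)) (Ef := esg) (pd := pd) (o := 3 / 40)
    (cornW_of (C := cA102E) (C0 := c0B) (En := eng) (mo := mog) (j := (0 : Fin 8)) (k := (3 : Fin 8)) (lo := 0) (hi := 4) (W := 67108864) (N0 := 3) cA102E_q (sideB hx hx') gokB (pinU hx hx') dokB X (by norm_num) (by norm_num) (l := (0 : Fin 8)) rfl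
      (gatB01 x) (gatB30 x) (gatB02 x) (datB01 x) (datB30 x) (datB02 x) ?_)
    (cornS_of (C := cA102E) (C0 := c0B) (j := (0 : Fin 8)) (k := (3 : Fin 8)) (lo := 0) (hi := 4) (W := 67108864) (N0 := 3) cA102E_q (sideB hx hx') gokB X (by norm_num) (by norm_num) (l := (0 : Fin 8)) rfl
      (gatB01 x) (gatB30 x) (gatB02 x) ?_)
    (thU (pinU hx hx')) rfl hκ (fun j q y => tC_eq j q y x) (esg_rng X.x0.le (by linarith [X.b, X.p0])).1 (mo_v x) le_rfl le_rfl
  · intro ρ a B hρ hd i h1 h2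
    fin_cases i
    · exact corW_cert (G1 := gB0q1) (G2 := gB3q0) (Ga := gB0q2) (Gb := gB1q2) (D1 := dB0q1) (D2 := dB3q0) (Da := dB0q2) (Db := dB1q2) cA102E_ok B hρ hen (gatB01 x) (gatB30 x) (fun _ => gatB02 x) (fun _ => gatB12 x) (datB01 x) (datB30 x) (fun _ => datB02 x) (fun _ => datB12 x) hd hx hx' CW.A102E_030
    · exact corW_cert (G1 := gB0q1) (G2 := gB3q0) (Ga := gB1q2) (Gb := gB2q2) (D1 := dB0q1) (D2 := dB3q0) (Da := dB1q2) (Db := dB2q2) cA102E_ok B hρ hen (gatB01 x) (gatB30 x) (fun _ => gatB12 x) (fun _ => gatB22 x) (datB01 x) (datB30 x) (fun _ => datB12 x) (fun _ => datB22 x) hd hx hx' CW.A102E_031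
    · exact corW_cert (G1 := gB0q1) (G2 := gB3q0) (Ga := gB2q2) (Gb := gB3q2) (D1 := dB0q1) (D2 := dB3q0) (Da := dB2q2) (Db := dB3q2) cA102E_ok B hρ hen (gatB01 x) (gatB30 x) (fun _ => gatB22 x) (fun _ => gatB32 x) (datB01 x) (datB30 x) (fun _ => datB22 x) (fun _ => datB32 x) hd hx hx' CW.A102E_032
    · exact corW_cert (G1 := gB0q1) (G2 := gB3q0) (Ga := gB3q2) (Gb := gB4q2) (D1 := dB0q1) (D2 := dB3q0) (Da := dB3q2) (Db := dB4q2) cA102E_ok B hρ hen (gatB01 x) (gatB30 x) (fun _ => gatB32 x) (fun _ => gatB42 x) (datB01 x) (datB30 x) (fun _ => datB32 x) (fun _ => datB42 x) hd hx hx' CW.A102E_033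
    · exact corW_cert (G1 := gB0q1) (G2 := gB3q0) (Ga := gB4q2) (Gb := gB5q2) (D1 := dB0q1) (D2 := dB3q0) (Da := dB4q2) (Db := dB5q2) cA102E_ok B hρ hen (gatB01 x) (gatB30 x) (fun _ => gatB42 x) (fun h => absurd h (by decide)) (datB01 x) (datB30 x) (fun _ => datB42 x) (fun h => absurd h (by decide)) hd hx hx' CW.A102E_034
    · exact absurd h2 (by norm_num)
    · exact absurd h2 (by norm_num)
  · intro ρ a B hρ hd i h1 h2
    fin_cases i
    · exact corT_cert (G1 := gB0q1) (G2 := gB3q0) (Ga := gB0q2) (Gb := gB1q2) cA102E_ok B hρ (gatB01 x) (gatB30 x) (fun _ => gatB02 x) (fun _ => gatB12 x) hd hx hx' CG.A102E_030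
    · exact corT_cert (G1 := gB0q1) (G2 := gB3q0) (Ga := gB1q2) (Gb := gB2q2) cA102E_ok B hρ (gatB01 x) (gatB30 x) (fun _ => gatB12 x) (fun _ => gatB22 x) hd hx hx' CG.A102E_031
    · exact corT_cert (G1 := gB0q1) (G2 := gB3q0) (Ga := gB2q2) (Gb := gB3q2) cA102E_ok B hρ (gatB01 x) (gatB30 x) (fun _ => gatB22 x) (fun _ => gatB32 x) hd hx hx' CG.A102E_032
    · exact corT_cert (G1 := gB0q1) (G2 := gB3q0) (Ga := gB3q2) (Gb := gB4q2) cA102E_ok B hρ (gatB01 x) (gatB30 x) (fun _ => gatB32 x) (fun _ => gatB42 x) hd hx hx' CG.A102E_033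
    · exact corT_cert (G1 := gB0q1) (G2 := gB3q0) (Ga := gB4q2) (Gb := gB5q2) cA102E_ok B hρ (gatB01 x) (gatB30 x) (fun _ => gatB42 x) (fun h => absurd h (by decide)) hd hx hx' CG.A102E_034
    · exact absurd h2 (by norm_num)
    · exact absurd h2 (by norm_num)

theorem altB_A102E_04 {κ x : ℝ} (hκ : κ * h0 = ken x) (hx : ((697932185 : ℕ) : ℝ) / S ≤ x) (hx' : x ≤ (((697932185 : ℕ) : ℝ) + (42949674 : ℕ)) / S) :
    AltEA 3 κ (eng.v x) (3 / 40) (tnt (h0 * x) (3 / 10)) PP tK tL tC pcB (scP esg pd) [⟨0, 1, 0, 67108864⟩, ⟨1, 0, 0, 67108864⟩, ⟨2, 1, 0, 67108864⟩] 1 0 2 0 4 (sgb true) (sgb false) x := by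
  have X : XR 67108864 x := XR.of hx hx' (by norm_num) (by norm_num) (by norm_num) (by norm_num)
  have hen : 0 < eng.v x := en_pos X.x0.le
  refine CornW.altA (C := cA102E) (j := (0 : Fin 8)) (k := (4 : Fin 8)) (Ef := esg) (pd := pd) (o := 3 / 40)
    (cornW_of (C := cA102E) (C0 := c0B) (En := eng) (mo := mog) (j := (0 : Fin 8)) (k := (4 : Fin 8)) (lo := 0) (hi := 4) (W := 67108864) (N0 := 3) cA102E_q (sideB hx hx') gokB (pinU hx hx') dokB X (by norm_num) (by norm_num) (l := (0 : Fin 8)) rfl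
      (gatB01 x) (gatB40 x) (gatB02 x) (datB01 x) (datB40 x) (datB02 x) ?_)
    (cornS_of (C := cA102E) (C0 := c0B) (j := (0 : Fin 8)) (k := (4 : Fin 8)) (lo := 0) (hi := 4) (W := 67108864) (N0 := 3) cA102E_q (sideB hx hx') gokB X (by norm_num) (by norm_num) (l := (0 : Fin 8)) rfl
      (gatB01 x) (gatB40 x) (gatB02 x) ?_)
    (thU (pinU hx hx')) rfl hκ (fun j q y => tC_eq j q y x) (esg_rng X.x0.le (by linarith [X.b, X.p0])).1 (mo_v x) le_rfl le_rfl
  · intro ρ a B hρ hd i h1 h2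
    fin_cases i
    · exact corW_cert (G1 := gB0q1) (G2 := gB4q0) (Ga := gB0q2) (Gb := gB1q2) (D1 := dB0q1) (D2 := dB4q0) (Da := dB0q2) (Db := dB1q2) cA102E_ok B hρ hen (gatB01 x) (gatB40 x) (fun _ => gatB02 x) (fun _ => gatB12 x) (datB01 x) (datB40 x) (fun _ => datB02 x) (fun _ => datB12 x) hd hx hx' CW.A102E_040
    · exact corW_cert (G1 := gB0q1) (G2 := gB4q0) (Ga := gB1q2) (Gb := gB2q2) (D1 := dB0q1) (D2 := dB4q0) (Da := dB1q2) (Db := dB2q2) cA102E_ok B hρ hen (gatB01 x) (gatB40 x) (fun _ => gatB12 x) (fun _ => gatB22 x) (datB01 x) (datB40 x) (fun _ => datB12 x) (fun _ => datB22 x) hd hx hx' CW.A102E_041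
    · exact corW_cert (G1 := gB0q1) (G2 := gB4q0) (Ga := gB2q2) (Gb := gB3q2) (D1 := dB0q1) (D2 := dB4q0) (Da := dB2q2) (Db := dB3q2) cA102E_ok B hρ hen (gatB01 x) (gatB40 x) (fun _ => gatB22 x) (fun _ => gatB32 x) (datB01 x) (datB40 x) (fun _ => datB22 x) (fun _ => datB32 x) hd hx hx' CW.A102E_042
    · exact corW_cert (G1 := gB0q1) (G2 := gB4q0) (Ga := gB3q2) (Gb := gB4q2) (D1 := dB0q1) (D2 := dB4q0) (Da := dB3q2) (Db := dB4q2) cA102E_ok B hρ hen (gatB01 x) (gatB40 x) (fun _ => gatB32 x) (fun _ => gatB42 x) (datB01 x) (datB40 x) (fun _ => datB32 x) (fun _ => datB42 x) hd hx hx' CW.A102E_043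
    · exact corW_cert (G1 := gB0q1) (G2 := gB4q0) (Ga := gB4q2) (Gb := gB5q2) (D1 := dB0q1) (D2 := dB4q0) (Da := dB4q2) (Db := dB5q2) cA102E_ok B hρ hen (gatB01 x) (gatB40 x) (fun _ => gatB42 x) (fun h => absurd h (by decide)) (datB01 x) (datB40 x) (fun _ => datB42 x) (fun h => absurd h (by decide)) hd hx hx' CW.A102E_044
    · exact absurd h2 (by norm_num)
    · exact absurd h2 (by norm_num)
  · intro ρ a B hρ hd i h1 h2
    fin_cases i
    · exact corT_cert (G1 := gB0q1) (G2 := gB4q0) (Ga := gB0q2) (Gb := gB1q2) cA102E_ok B hρ (gatB01 x) (gatB40 x) (fun _ => gatB02 x) (fun _ => gatB12 x) hd hx hx' CG.A102E_040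
    · exact corT_cert (G1 := gB0q1) (G2 := gB4q0) (Ga := gB1q2) (Gb := gB2q2) cA102E_ok B hρ (gatB01 x) (gatB40 x) (fun _ => gatB12 x) (fun _ => gatB22 x) hd hx hx' CG.A102E_041
    · exact corT_cert (G1 := gB0q1) (G2 := gB4q0) (Ga := gB2q2) (Gb := gB3q2) cA102E_ok B hρ (gatB01 x) (gatB40 x) (fun _ => gatB22 x) (fun _ => gatB32 x) hd hx hx' CG.A102E_042
    · exact corT_cert (G1 := gB0q1) (G2 := gB4q0) (Ga := gB3q2) (Gb := gB4q2) cA102E_ok B hρ (gatB01 x) (gatB40 x) (fun _ => gatB32 x) (fun _ => gatB42 x) hd hx hx' CG.A102E_043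
    · exact corT_cert (G1 := gB0q1) (G2 := gB4q0) (Ga := gB4q2) (Gb := gB5q2) cA102E_ok B hρ (gatB01 x) (gatB40 x) (fun _ => gatB42 x) (fun h => absurd h (by decide)) hd hx hx' CG.A102E_044
    · exact absurd h2 (by norm_num)
    · exact absurd h2 (by norm_num)

theorem altB_A102R_00 {κ x : ℝ} (hκ : κ * h0 = ken x) (hx : ((697932185 : ℕ) : ℝ) / S ≤ x) (hx' : x ≤ (((697932185 : ℕ) : ℝ) + (42949674 : ℕ)) / S) :
    AltEA 3 κ (eng.v x) (3 / 40) (tnt (h0 * x) (3 / 10)) PP tK tL tC pcB (scP esg pd) [⟨0, 1, 0, 67108864⟩, ⟨1, 0, 0, 67108864⟩, ⟨2, 1, 0, 67108864⟩] 1 0 2 0 0 (sgb false) (sgb false) x := by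
  have X : XR 67108864 x := XR.of hx hx' (by norm_num) (by norm_num) (by norm_num) (by norm_num)
  have hen : 0 < eng.v x := en_pos X.x0.le
  refine CornW.altA (C := cA102R) (j := (0 : Fin 8)) (k := (0 : Fin 8)) (Ef := esg) (pd := pd) (o := 3 / 40)
    (cornW_of (C := cA102R) (C0 := c0B) (En := eng) (mo := mog) (j := (0 : Fin 8)) (k := (0 : Fin 8)) (lo := 7) (hi := 7) (W := 67108864) (N0 := 3) cA102R_q (sideB hx hx') gokB (pinU hx hx') dokB X (by norm_num) (by norm_num) (l := (7 : Fin 8)) rfl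
      (gatB01 x) (gatB00 x) (gatB72 x) (datB01 x) (datB00 x) (datB72 x) ?_)
    (cornS_of (C := cA102R) (C0 := c0B) (j := (0 : Fin 8)) (k := (0 : Fin 8)) (lo := 7) (hi := 7) (W := 67108864) (N0 := 3) cA102R_q (sideB hx hx') gokB X (by norm_num) (by norm_num) (l := (7 : Fin 8)) rfl
      (gatB01 x) (gatB00 x) (gatB72 x) ?_)
    (thU (pinU hx hx')) rfl hκ (fun j q y => tC_eq j q y x) (esg_rng X.x0.le (by linarith [X.b, X.p0])).1 (mo_v x) le_rfl le_rfl
  · intro ρ a B hρ hd i h1 h2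
    fin_cases i
    · exact absurd h1 (by norm_num)
    · exact absurd h1 (by norm_num)
    · exact absurd h1 (by norm_num)
    · exact absurd h1 (by norm_num)
    · exact absurd h1 (by norm_num)
    · exact absurd h1 (by norm_num)
    · exact corW_cert (G1 := gB0q1) (G2 := gB0q0) (Ga := gB6q2) (Gb := gB7q2) (D1 := dB0q1) (D2 := dB0q0) (Da := dB6q2) (Db := dB7q2) cA102R_ok B hρ hen (gatB01 x) (gatB00 x) (fun h => absurd h (by decide)) (fun _ => gatB72 x) (datB01 x) (datB00 x) (fun h => absurd h (by decide)) (fun _ => datB72 x) hd hx hx' CW.A102R_006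
  · intro ρ a B hρ hd i h1 h2
    fin_cases i
    · exact absurd h1 (by norm_num)
    · exact absurd h1 (by norm_num)
    · exact absurd h1 (by norm_num)
    · exact absurd h1 (by norm_num)
    · exact absurd h1 (by norm_num)
    · exact absurd h1 (by norm_num)
    · exact corT_cert (G1 := gB0q1) (G2 := gB0q0) (Ga := gB6q2) (Gb := gB7q2) cA102R_ok B hρ (gatB01 x) (gatB00 x) (fun h => absurd h (by decide)) (fun _ => gatB72 x) hd hx hx' CG.A102R_006

theorem altB_A102R_01 {κ x : ℝ} (hκ : κ * h0 = ken x) (hx : ((697932185 : ℕ) : ℝ) / S ≤ x) (hx' : x ≤ (((697932185 : ℕ) : ℝ) + (42949674 : ℕ)) / S) :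
    AltEA 3 κ (eng.v x) (3 / 40) (tnt (h0 * x) (3 / 10)) PP tK tL tC pcB (scP esg pd) [⟨0, 1, 0, 67108864⟩, ⟨1, 0, 0, 67108864⟩, ⟨2, 1, 0, 67108864⟩] 1 0 2 0 1 (sgb false) (sgb false) x := by
  have X : XR 67108864 x := XR.of hx hx' (by norm_num) (by norm_num) (by norm_num) (by norm_num)
  have hen : 0 < eng.v x := en_pos X.x0.le
  refine CornW.altA (C := cA102R) (j := (0 : Fin 8)) (k := (1 : Fin 8)) (Ef := esg) (pd := pd) (o := 3 / 40)
    (cornW_of (C := cA102R) (C0 := c0B) (En := eng) (mo := mog) (j := (0 : Fin 8)) (k := (1 : Fin 8)) (lo := 7) (hi := 7) (W := 67108864) (N0 := 3) cA102R_q (sideB hx hx') gokB (pinU hx hx') dokB X (by norm_num) (by norm_num) (l := (7 : Fin 8)) rfl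
      (gatB01 x) (gatB10 x) (gatB72 x) (datB01 x) (datB10 x) (datB72 x) ?_)
    (cornS_of (C := cA102R) (C0 := c0B) (j := (0 : Fin 8)) (k := (1 : Fin 8)) (lo := 7) (hi := 7) (W := 67108864) (N0 := 3) cA102R_q (sideB hx hx') gokB X (by norm_num) (by norm_num) (l := (7 : Fin 8)) rfl
      (gatB01 x) (gatB10 x) (gatB72 x) ?_)
    (thU (pinU hx hx')) rfl hκ (fun j q y => tC_eq j q y x) (esg_rng X.x0.le (by linarith [X.b, X.p0])).1 (mo_v x) le_rfl le_rfl
  · intro ρ a B hρ hd i h1 h2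
    fin_cases i
    · exact absurd h1 (by norm_num)
    · exact absurd h1 (by norm_num)
    · exact absurd h1 (by norm_num)
    · exact absurd h1 (by norm_num)
    · exact absurd h1 (by norm_num)
    · exact absurd h1 (by norm_num)
    · exact corW_cert (G1 := gB0q1) (G2 := gB1q0) (Ga := gB6q2) (Gb := gB7q2) (D1 := dB0q1) (D2 := dB1q0) (Da := dB6q2) (Db := dB7q2) cA102R_ok B hρ hen (gatB01 x) (gatB10 x) (fun h => absurd h (by decide)) (fun _ => gatB72 x) (datB01 x) (datB10 x) (fun h => absurd h (by decide)) (fun _ => datB72 x) hd hx hx' CW.A102R_016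
  · intro ρ a B hρ hd i h1 h2
    fin_cases i
    · exact absurd h1 (by norm_num)
    · exact absurd h1 (by norm_num)
    · exact absurd h1 (by norm_num)
    · exact absurd h1 (by norm_num)
    · exact absurd h1 (by norm_num)
    · exact absurd h1 (by norm_num)
    · exact corT_cert (G1 := gB0q1) (G2 := gB1q0) (Ga := gB6q2) (Gb := gB7q2) cA102R_ok B hρ (gatB01 x) (gatB10 x) (fun h => absurd h (by decide)) (fun _ => gatB72 x) hd hx hx' CG.A102R_016

theorem altB_A102R_02 {κ x : ℝ} (hκ : κ * h0 = ken x) (hx : ((697932185 : ℕ) : ℝ) / S ≤ x) (hx' : x ≤ (((697932185 : ℕ) : ℝ) + (42949674 : ℕ)) / S) :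
    AltEA 3 κ (eng.v x) (3 / 40) (tnt (h0 * x) (3 / 10)) PP tK tL tC pcB (scP esg pd) [⟨0, 1, 0, 67108864⟩, ⟨1, 0, 0, 67108864⟩, ⟨2, 1, 0, 67108864⟩] 1 0 2 0 2 (sgb false) (sgb false) x := by
  have X : XR 67108864 x := XR.of hx hx' (by norm_num) (by norm_num) (by norm_num) (by norm_num)
  have hen : 0 < eng.v x := en_pos X.x0.le
  refine CornW.altA (C := cA102R) (j := (0 : Fin 8)) (k := (2 : Fin 8)) (Ef := esg) (pd := pd) (o := 3 / 40)
    (cornW_of (C := cA102R) (C0 := c0B) (En := eng) (mo := mog) (j := (0 : Fin 8)) (k := (2 : Fin 8)) (lo := 7) (hi := 7) (W := 67108864) (N0 := 3) cA102R_q (sideB hx hx') gokB (pinU hx hx') dokB X (by norm_num) (by norm_num) (l := (7 : Fin 8)) rfl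
      (gatB01 x) (gatB20 x) (gatB72 x) (datB01 x) (datB20 x) (datB72 x) ?_)
    (cornS_of (C := cA102R) (C0 := c0B) (j := (0 : Fin 8)) (k := (2 : Fin 8)) (lo := 7) (hi := 7) (W := 67108864) (N0 := 3) cA102R_q (sideB hx hx') gokB X (by norm_num) (by norm_num) (l := (7 : Fin 8)) rfl
      (gatB01 x) (gatB20 x) (gatB72 x) ?_)
    (thU (pinU hx hx')) rfl hκ (fun j q y => tC_eq j q y x) (esg_rng X.x0.le (by linarith [X.b, X.p0])).1 (mo_v x) le_rfl le_rfl
  · intro ρ a B hρ hd i h1 h2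
    fin_cases i
    · exact absurd h1 (by norm_num)
    · exact absurd h1 (by norm_num)
    · exact absurd h1 (by norm_num)
    · exact absurd h1 (by norm_num)
    · exact absurd h1 (by norm_num)
    · exact absurd h1 (by norm_num)
    · exact corW_cert (G1 := gB0q1) (G2 := gB2q0) (Ga := gB6q2) (Gb := gB7q2) (D1 := dB0q1) (D2 := dB2q0) (Da := dB6q2) (Db := dB7q2) cA102R_ok B hρ hen (gatB01 x) (gatB20 x) (fun h => absurd h (by decide)) (fun _ => gatB72 x) (datB01 x) (datB20 x) (fun h => absurd h (by decide)) (fun _ => datB72 x) hd hx hx' CW.A102R_026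
  · intro ρ a B hρ hd i h1 h2
    fin_cases i
    · exact absurd h1 (by norm_num)
    · exact absurd h1 (by norm_num)
    · exact absurd h1 (by norm_num)
    · exact absurd h1 (by norm_num)
    · exact absurd h1 (by norm_num)
    · exact absurd h1 (by norm_num)
    · exact corT_cert (G1 := gB0q1) (G2 := gB2q0) (Ga := gB6q2) (Gb := gB7q2) cA102R_ok B hρ (gatB01 x) (gatB20 x) (fun h => absurd h (by decide)) (fun _ => gatB72 x) hd hx hx' CG.A102R_026

theorem altB_A102R_03 {κ x : ℝ} (hκ : κ * h0 = ken x) (hx : ((697932185 : ℕ) : ℝ) / S ≤ x) (hx' : x ≤ (((697932185 : ℕ) : ℝ) + (42949674 : ℕ)) / S) :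
    AltEA 3 κ (eng.v x) (3 / 40) (tnt (h0 * x) (3 / 10)) PP tK tL tC pcB (scP esg pd) [⟨0, 1, 0, 67108864⟩, ⟨1, 0, 0, 67108864⟩, ⟨2, 1, 0, 67108864⟩] 1 0 2 0 3 (sgb false) (sgb false) x := by
  have X : XR 67108864 x := XR.of hx hx' (by norm_num) (by norm_num) (by norm_num) (by norm_num)
  have hen : 0 < eng.v x := en_pos X.x0.le
  refine CornW.altA (C := cA102R) (j := (0 : Fin 8)) (k := (3 : Fin 8)) (Ef := esg) (pd := pd) (o := 3 / 40)
    (cornW_of (C := cA102R) (C0 := c0B) (En := eng) (mo := mog) (j := (0 : Fin 8)) (k := (3 : Fin 8)) (lo := 7) (hi := 7) (W := 67108864) (N0 := 3) cA102R_q (sideB hx hx') gokB (pinU hx hx') dokB X (by norm_num) (by norm_num) (l := (7 : Fin 8)) rfl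
      (gatB01 x) (gatB30 x) (gatB72 x) (datB01 x) (datB30 x) (datB72 x) ?_)
    (cornS_of (C := cA102R) (C0 := c0B) (j := (0 : Fin 8)) (k := (3 : Fin 8)) (lo := 7) (hi := 7) (W := 67108864) (N0 := 3) cA102R_q (sideB hx hx') gokB X (by norm_num) (by norm_num) (l := (7 : Fin 8)) rfl
      (gatB01 x) (gatB30 x) (gatB72 x) ?_)
    (thU (pinU hx hx')) rfl hκ (fun j q y => tC_eq j q y x) (esg_rng X.x0.le (by linarith [X.b, X.p0])).1 (mo_v x) le_rfl le_rfl
  · intro ρ a B hρ hd i h1 h2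
    fin_cases i
    · exact absurd h1 (by norm_num)
    · exact absurd h1 (by norm_num)
    · exact absurd h1 (by norm_num)
    · exact absurd h1 (by norm_num)
    · exact absurd h1 (by norm_num)
    · exact absurd h1 (by norm_num)
    · exact corW_cert (G1 := gB0q1) (G2 := gB3q0) (Ga := gB6q2) (Gb := gB7q2) (D1 := dB0q1) (D2 := dB3q0) (Da := dB6q2) (Db := dB7q2) cA102R_ok B hρ hen (gatB01 x) (gatB30 x) (fun h => absurd h (by decide)) (fun _ => gatB72 x) (datB01 x) (datB30 x) (fun h => absurd h (by decide)) (fun _ => datB72 x) hd hx hx' CW.A102R_036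
  · intro ρ a B hρ hd i h1 h2
    fin_cases i
    · exact absurd h1 (by norm_num)
    · exact absurd h1 (by norm_num)
    · exact absurd h1 (by norm_num)
    · exact absurd h1 (by norm_num)
    · exact absurd h1 (by norm_num)
    · exact absurd h1 (by norm_num)
    · exact corT_cert (G1 := gB0q1) (G2 := gB3q0) (Ga := gB6q2) (Gb := gB7q2) cA102R_ok B hρ (gatB01 x) (gatB30 x) (fun h => absurd h (by decide)) (fun _ => gatB72 x) hd hx hx' CG.A102R_036

theorem altB_A102R_04 {κ x : ℝ} (hκ : κ * h0 = ken x) (hx : ((697932185 : ℕ) : ℝ) / S ≤ x) (hx' : x ≤ (((697932185 : ℕ) : ℝ) + (42949674 : ℕ)) / S) :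
    AltEA 3 κ (eng.v x) (3 / 40) (tnt (h0 * x) (3 / 10)) PP tK tL tC pcB (scP esg pd) [⟨0, 1, 0, 67108864⟩, ⟨1, 0, 0, 67108864⟩, ⟨2, 1, 0, 67108864⟩] 1 0 2 0 4 (sgb false) (sgb false) x := by
  have X : XR 67108864 x := XR.of hx hx' (by norm_num) (by norm_num) (by norm_num) (by norm_num)
  have hen : 0 < eng.v x := en_pos X.x0.le
  refine CornW.altA (C := cA102R) (j := (0 : Fin 8)) (k := (4 : Fin 8)) (Ef := esg) (pd := pd) (o := 3 / 40)
    (cornW_of (C := cA102R) (C0 := c0B) (En := eng) (mo := mog) (j := (0 : Fin 8)) (k := (4 : Fin 8)) (lo := 7) (hi := 7) (W := 67108864) (N0 := 3) cA102R_q (sideB hx hx') gokB (pinU hx hx') dokB X (by norm_num) (by norm_num) (l := (7 : Fin 8)) rfl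
      (gatB01 x) (gatB40 x) (gatB72 x) (datB01 x) (datB40 x) (datB72 x) ?_)
    (cornS_of (C := cA102R) (C0 := c0B) (j := (0 : Fin 8)) (k := (4 : Fin 8)) (lo := 7) (hi := 7) (W := 67108864) (N0 := 3) cA102R_q (sideB hx hx') gokB X (by norm_num) (by norm_num) (l := (7 : Fin 8)) rfl
      (gatB01 x) (gatB40 x) (gatB72 x) ?_)
    (thU (pinU hx hx')) rfl hκ (fun j q y => tC_eq j q y x) (esg_rng X.x0.le (by linarith [X.b, X.p0])).1 (mo_v x) le_rfl le_rfl
  · intro ρ a B hρ hd i h1 h2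
    fin_cases i
    · exact absurd h1 (by norm_num)
    · exact absurd h1 (by norm_num)
    · exact absurd h1 (by norm_num)
    · exact absurd h1 (by norm_num)
    · exact absurd h1 (by norm_num)
    · exact absurd h1 (by norm_num)
    · exact corW_cert (G1 := gB0q1) (G2 := gB4q0) (Ga := gB6q2) (Gb := gB7q2) (D1 := dB0q1) (D2 := dB4q0) (Da := dB6q2) (Db := dB7q2) cA102R_ok B hρ hen (gatB01 x) (gatB40 x) (fun h => absurd h (by decide)) (fun _ => gatB72 x) (datB01 x) (datB40 x) (fun h => absurd h (by decide)) (fun _ => datB72 x) hd hx hx' CW.A102R_046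
  · intro ρ a B hρ hd i h1 h2
    fin_cases i
    · exact absurd h1 (by norm_num)
    · exact absurd h1 (by norm_num)
    · exact absurd h1 (by norm_num)
    · exact absurd h1 (by norm_num)
    · exact absurd h1 (by norm_num)
    · exact absurd h1 (by norm_num)
    · exact corT_cert (G1 := gB0q1) (G2 := gB4q0) (Ga := gB6q2) (Gb := gB7q2) cA102R_ok B hρ (gatB01 x) (gatB40 x) (fun h => absurd h (by decide)) (fun _ => gatB72 x) hd hx hx' CG.A102R_046

theorem altB_A202E_00 {κ x : ℝ} (hκ : κ * h0 = ken x) (hx : ((697932185 : ℕ) : ℝ) / S ≤ x) (hx' : x ≤ (((697932185 : ℕ) : ℝ) + (42949674 : ℕ)) / S) :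
    AltEA 3 κ (eng.v x) (3 / 40) (tnt (h0 * x) (3 / 10)) PP tK tL tC pcB (scP esg pd) [⟨0, 1, 0, 67108864⟩, ⟨1, 0, 0, 67108864⟩, ⟨2, 1, 0, 67108864⟩] 2 0 2 0 0 (sgb true) (sgb false) x := by
  have X : XR 67108864 x := XR.of hx hx' (by norm_num) (by norm_num) (by norm_num) (by norm_num)
  have hen : 0 < eng.v x := en_pos X.x0.le
  refine CornW.altA (C := cA202E) (j := (0 : Fin 8)) (k := (0 : Fin 8)) (Ef := esg) (pd := pd) (o := 3 / 40)
    (cornW_of (C := cA202E) (C0 := c0B) (En := eng) (mo := mog) (j := (0 : Fin 8)) (k := (0 : Fin 8)) (lo := 0) (hi := 4) (W := 67108864) (N0 := 3) cA202E_q (sideB hx hx') gokB (pinU hx hx') dokB X (by norm_num) (by norm_num) (l := (0 : Fin 8)) rfl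
      (gatB02 x) (gatB00 x) (gatB02 x) (datB02 x) (datB00 x) (datB02 x) ?_)
    (cornS_of (C := cA202E) (C0 := c0B) (j := (0 : Fin 8)) (k := (0 : Fin 8)) (lo := 0) (hi := 4) (W := 67108864) (N0 := 3) cA202E_q (sideB hx hx') gokB X (by norm_num) (by norm_num) (l := (0 : Fin 8)) rfl
      (gatB02 x) (gatB00 x) (gatB02 x) ?_)
    (thU (pinU hx hx')) rfl hκ (fun j q y => tC_eq j q y x) (esg_rng X.x0.le (by linarith [X.b, X.p0])).1 (mo_v x) le_rfl le_rfl
  · intro ρ a B hρ hd i h1 h2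
    fin_cases i
    · exact corW_cert (G1 := gB0q2) (G2 := gB0q0) (Ga := gB0q2) (Gb := gB1q2) (D1 := dB0q2) (D2 := dB0q0) (Da := dB0q2) (Db := dB1q2) cA202E_ok B hρ hen (gatB02 x) (gatB00 x) (fun _ => gatB02 x) (fun _ => gatB12 x) (datB02 x) (datB00 x) (fun _ => datB02 x) (fun _ => datB12 x) hd hx hx' CW.A202E_000
    · exact corW_cert (G1 := gB0q2) (G2 := gB0q0) (Ga := gB1q2) (Gb := gB2q2) (D1 := dB0q2) (D2 := dB0q0) (Da := dB1q2) (Db := dB2q2) cA202E_ok B hρ hen (gatB02 x) (gatB00 x) (fun _ => gatB12 x) (fun _ => gatB22 x) (datB02 x) (datB00 x) (fun _ => datB12 x) (fun _ => datB22 x) hd hx hx' CW.A202E_001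
    · exact corW_cert (G1 := gB0q2) (G2 := gB0q0) (Ga := gB2q2) (Gb := gB3q2) (D1 := dB0q2) (D2 := dB0q0) (Da := dB2q2) (Db := dB3q2) cA202E_ok B hρ hen (gatB02 x) (gatB00 x) (fun _ => gatB22 x) (fun _ => gatB32 x) (datB02 x) (datB00 x) (fun _ => datB22 x) (fun _ => datB32 x) hd hx hx' CW.A202E_002
    · exact corW_cert (G1 := gB0q2) (G2 := gB0q0) (Ga := gB3q2) (Gb := gB4q2) (D1 := dB0q2) (D2 := dB0q0) (Da := dB3q2) (Db := dB4q2) cA202E_ok B hρ hen (gatB02 x) (gatB00 x) (fun _ => gatB32 x) (fun _ => gatB42 x) (datB02 x) (datB00 x) (fun _ => datB32 x) (fun _ => datB42 x) hd hx hx' CW.A202E_003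
    · exact corW_cert (G1 := gB0q2) (G2 := gB0q0) (Ga := gB4q2) (Gb := gB5q2) (D1 := dB0q2) (D2 := dB0q0) (Da := dB4q2) (Db := dB5q2) cA202E_ok B hρ hen (gatB02 x) (gatB00 x) (fun _ => gatB42 x) (fun h => absurd h (by decide)) (datB02 x) (datB00 x) (fun _ => datB42 x) (fun h => absurd h (by decide)) hd hx hx' CW.A202E_004
    · exact absurd h2 (by norm_num)
    · exact absurd h2 (by norm_num)
  · intro ρ a B hρ hd i h1 h2
    fin_cases i
    · exact corT_cert (G1 := gB0q2) (G2 := gB0q0) (Ga := gB0q2) (Gb := gB1q2) cA202E_ok B hρ (gatB02 x) (gatB00 x) (fun _ => gatB02 x) (fun _ => gatB12 x) hd hx hx' CG.A202E_000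
    · exact corT_cert (G1 := gB0q2) (G2 := gB0q0) (Ga := gB1q2) (Gb := gB2q2) cA202E_ok B hρ (gatB02 x) (gatB00 x) (fun _ => gatB12 x) (fun _ => gatB22 x) hd hx hx' CG.A202E_001
    · exact corT_cert (G1 := gB0q2) (G2 := gB0q0) (Ga := gB2q2) (Gb := gB3q2) cA202E_ok B hρ (gatB02 x) (gatB00 x) (fun _ => gatB22 x) (fun _ => gatB32 x) hd hx hx' CG.A202E_002
    · exact corT_cert (G1 := gB0q2) (G2 := gB0q0) (Ga := gB3q2) (Gb := gB4q2) cA202E_ok B hρ (gatB02 x) (gatB00 x) (fun _ => gatB32 x) (fun _ => gatB42 x) hd hx hx' CG.A202E_003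
    · exact corT_cert (G1 := gB0q2) (G2 := gB0q0) (Ga := gB4q2) (Gb := gB5q2) cA202E_ok B hρ (gatB02 x) (gatB00 x) (fun _ => gatB42 x) (fun h => absurd h (by decide)) hd hx hx' CG.A202E_004
    · exact absurd h2 (by norm_num)
    · exact absurd h2 (by norm_num)

theorem altB_A202E_01 {κ x : ℝ} (hκ : κ * h0 = ken x) (hx : ((697932185 : ℕ) : ℝ) / S ≤ x) (hx' : x ≤ (((697932185 : ℕ) : ℝ) + (42949674 : ℕ)) / S) :
    AltEA 3 κ (eng.v x) (3 / 40) (tnt (h0 * x) (3 / 10)) PP tK tL tC pcB (scP esg pd) [⟨0, 1, 0, 67108864⟩, ⟨1, 0, 0, 67108864⟩, ⟨2, 1, 0, 67108864⟩] 2 0 2 0 1 (sgb true) (sgb false) x := by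
  have X : XR 67108864 x := XR.of hx hx' (by norm_num) (by norm_num) (by norm_num) (by norm_num)
  have hen : 0 < eng.v x := en_pos X.x0.le
  refine CornW.altA (C := cA202E) (j := (0 : Fin 8)) (k := (1 : Fin 8)) (Ef := esg) (pd := pd) (o := 3 / 40)
    (cornW_of (C := cA202E) (C0 := c0B) (En := eng) (mo := mog) (j := (0 : Fin 8)) (k := (1 : Fin 8)) (lo := 0) (hi := 4) (W := 67108864) (N0 := 3) cA202E_q (sideB hx hx') gokB (pinU hx hx') dokB X (by norm_num) (by norm_num) (l := (0 : Fin 8)) rfl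
      (gatB02 x) (gatB10 x) (gatB02 x) (datB02 x) (datB10 x) (datB02 x) ?_)
    (cornS_of (C := cA202E) (C0 := c0B) (j := (0 : Fin 8)) (k := (1 : Fin 8)) (lo := 0) (hi := 4) (W := 67108864) (N0 := 3) cA202E_q (sideB hx hx') gokB X (by norm_num) (by norm_num) (l := (0 : Fin 8)) rfl
      (gatB02 x) (gatB10 x) (gatB02 x) ?_)
    (thU (pinU hx hx')) rfl hκ (fun j q y => tC_eq j q y x) (esg_rng X.x0.le (by linarith [X.b, X.p0])).1 (mo_v x) le_rfl le_rfl
  · intro ρ a B hρ hd i h1 h2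
    fin_cases i
    · exact corW_cert (G1 := gB0q2) (G2 := gB1q0) (Ga := gB0q2) (Gb := gB1q2) (D1 := dB0q2) (D2 := dB1q0) (Da := dB0q2) (Db := dB1q2) cA202E_ok B hρ hen (gatB02 x) (gatB10 x) (fun _ => gatB02 x) (fun _ => gatB12 x) (datB02 x) (datB10 x) (fun _ => datB02 x) (fun _ => datB12 x) hd hx hx' CW.A202E_010
    · exact corW_cert (G1 := gB0q2) (G2 := gB1q0) (Ga := gB1q2) (Gb := gB2q2) (D1 := dB0q2) (D2 := dB1q0) (Da := dB1q2) (Db := dB2q2) cA202E_ok B hρ hen (gatB02 x) (gatB10 x) (fun _ => gatB12 x) (fun _ => gatB22 x) (datB02 x) (datB10 x) (fun _ => datB12 x) (fun _ => datB22 x) hd hx hx' CW.A202E_011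
    · exact corW_cert (G1 := gB0q2) (G2 := gB1q0) (Ga := gB2q2) (Gb := gB3q2) (D1 := dB0q2) (D2 := dB1q0) (Da := dB2q2) (Db := dB3q2) cA202E_ok B hρ hen (gatB02 x) (gatB10 x) (fun _ => gatB22 x) (fun _ => gatB32 x) (datB02 x) (datB10 x) (fun _ => datB22 x) (fun _ => datB32 x) hd hx hx' CW.A202E_012
    · exact corW_cert (G1 := gB0q2) (G2 := gB1q0) (Ga := gB3q2) (Gb := gB4q2) (D1 := dB0q2) (D2 := dB1q0) (Da := dB3q2) (Db := dB4q2) cA202E_ok B hρ hen (gatB02 x) (gatB10 x) (fun _ => gatB32 x) (fun _ => gatB42 x) (datB02 x) (datB10 x) (fun _ => datB32 x) (fun _ => datB42 x) hd hx hx' CW.A202E_013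
    · exact corW_cert (G1 := gB0q2) (G2 := gB1q0) (Ga := gB4q2) (Gb := gB5q2) (D1 := dB0q2) (D2 := dB1q0) (Da := dB4q2) (Db := dB5q2) cA202E_ok B hρ hen (gatB02 x) (gatB10 x) (fun _ => gatB42 x) (fun h => absurd h (by decide)) (datB02 x) (datB10 x) (fun _ => datB42 x) (fun h => absurd h (by decide)) hd hx hx' CW.A202E_014
    · exact absurd h2 (by norm_num)
    · exact absurd h2 (by norm_num)
  · intro ρ a B hρ hd i h1 h2
    fin_cases i
    · exact corT_cert (G1 := gB0q2) (G2 := gB1q0) (Ga := gB0q2) (Gb := gB1q2) cA202E_ok B hρ (gatB02 x) (gatB10 x) (fun _ => gatB02 x) (fun _ => gatB12 x) hd hx hx' CG.A202E_010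
    · exact corT_cert (G1 := gB0q2) (G2 := gB1q0) (Ga := gB1q2) (Gb := gB2q2) cA202E_ok B hρ (gatB02 x) (gatB10 x) (fun _ => gatB12 x) (fun _ => gatB22 x) hd hx hx' CG.A202E_011
    · exact corT_cert (G1 := gB0q2) (G2 := gB1q0) (Ga := gB2q2) (Gb := gB3q2) cA202E_ok B hρ (gatB02 x) (gatB10 x) (fun _ => gatB22 x) (fun _ => gatB32 x) hd hx hx' CG.A202E_012
    · exact corT_cert (G1 := gB0q2) (G2 := gB1q0) (Ga := gB3q2) (Gb := gB4q2) cA202E_ok B hρ (gatB02 x) (gatB10 x) (fun _ => gatB32 x) (fun _ => gatB42 x) hd hx hx' CG.A202E_013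
    · exact corT_cert (G1 := gB0q2) (G2 := gB1q0) (Ga := gB4q2) (Gb := gB5q2) cA202E_ok B hρ (gatB02 x) (gatB10 x) (fun _ => gatB42 x) (fun h => absurd h (by decide)) hd hx hx' CG.A202E_014
    · exact absurd h2 (by norm_num)
    · exact absurd h2 (by norm_num)

theorem altB_A202E_02 {κ x : ℝ} (hκ : κ * h0 = ken x) (hx : ((697932185 : ℕ) : ℝ) / S ≤ x) (hx' : x ≤ (((697932185 : ℕ) : ℝ) + (42949674 : ℕ)) / S) :
    AltEA 3 κ (eng.v x) (3 / 40) (tnt (h0 * x) (3 / 10)) PP tK tL tC pcB (scP esg pd) [⟨0, 1, 0, 67108864⟩, ⟨1, 0, 0, 67108864⟩, ⟨2, 1, 0, 67108864⟩] 2 0 2 0 2 (sgb true) (sgb false) x := by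
  have X : XR 67108864 x := XR.of hx hx' (by norm_num) (by norm_num) (by norm_num) (by norm_num)
  have hen : 0 < eng.v x := en_pos X.x0.le
  refine CornW.altA (C := cA202E) (j := (0 : Fin 8)) (k := (2 : Fin 8)) (Ef := esg) (pd := pd) (o := 3 / 40)
    (cornW_of (C := cA202E) (C0 := c0B) (En := eng) (mo := mog) (j := (0 : Fin 8)) (k := (2 : Fin 8)) (lo := 0) (hi := 4) (W := 67108864) (N0 := 3) cA202E_q (sideB hx hx') gokB (pinU hx hx') dokB X (by norm_num) (by norm_num) (l := (0 : Fin 8)) rfl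
      (gatB02 x) (gatB20 x) (gatB02 x) (datB02 x) (datB20 x) (datB02 x) ?_)
    (cornS_of (C := cA202E) (C0 := c0B) (j := (0 : Fin 8)) (k := (2 : Fin 8)) (lo := 0) (hi := 4) (W := 67108864) (N0 := 3) cA202E_q (sideB hx hx') gokB X (by norm_num) (by norm_num) (l := (0 : Fin 8)) rfl
      (gatB02 x) (gatB20 x) (gatB02 x) ?_)
    (thU (pinU hx hx')) rfl hκ (fun j q y => tC_eq j q y x) (esg_rng X.x0.le (by linarith [X.b, X.p0])).1 (mo_v x) le_rfl le_rfl
  · intro ρ a B hρ hd i h1 h2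
    fin_cases i
    · exact corW_cert (G1 := gB0q2) (G2 := gB2q0) (Ga := gB0q2) (Gb := gB1q2) (D1 := dB0q2) (D2 := dB2q0) (Da := dB0q2) (Db := dB1q2) cA202E_ok B hρ hen (gatB02 x) (gatB20 x) (fun _ => gatB02 x) (fun _ => gatB12 x) (datB02 x) (datB20 x) (fun _ => datB02 x) (fun _ => datB12 x) hd hx hx' CW.A202E_020
    · exact corW_cert (G1 := gB0q2) (G2 := gB2q0) (Ga := gB1q2) (Gb := gB2q2) (D1 := dB0q2) (D2 := dB2q0) (Da := dB1q2) (Db := dB2q2) cA202E_ok B hρ hen (gatB02 x) (gatB20 x) (fun _ => gatB12 x) (fun _ => gatB22 x) (datB02 x) (datB20 x) (fun _ => datB12 x) (fun _ => datB22 x) hd hx hx' CW.A202E_021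
    · exact corW_cert (G1 := gB0q2) (G2 := gB2q0) (Ga := gB2q2) (Gb := gB3q2) (D1 := dB0q2) (D2 := dB2q0) (Da := dB2q2) (Db := dB3q2) cA202E_ok B hρ hen (gatB02 x) (gatB20 x) (fun _ => gatB22 x) (fun _ => gatB32 x) (datB02 x) (datB20 x) (fun _ => datB22 x) (fun _ => datB32 x) hd hx hx' CW.A202E_022
    · exact corW_cert (G1 := gB0q2) (G2 := gB2q0) (Ga := gB3q2) (Gb := gB4q2) (D1 := dB0q2) (D2 := dB2q0) (Da := dB3q2) (Db := dB4q2) cA202E_ok B hρ hen (gatB02 x) (gatB20 x) (fun _ => gatB32 x) (fun _ => gatB42 x) (datB02 x) (datB20 x) (fun _ => datB32 x) (fun _ => datB42 x) hd hx hx' CW.A202E_023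
    · exact corW_cert (G1 := gB0q2) (G2 := gB2q0) (Ga := gB4q2) (Gb := gB5q2) (D1 := dB0q2) (D2 := dB2q0) (Da := dB4q2) (Db := dB5q2) cA202E_ok B hρ hen (gatB02 x) (gatB20 x) (fun _ => gatB42 x) (fun h => absurd h (by decide)) (datB02 x) (datB20 x) (fun _ => datB42 x) (fun h => absurd h (by decide)) hd hx hx' CW.A202E_024
    · exact absurd h2 (by norm_num)
    · exact absurd h2 (by norm_num)
  · intro ρ a B hρ hd i h1 h2
    fin_cases i
    · exact corT_cert (G1 := gB0q2) (G2 := gB2q0) (Ga := gB0q2) (Gb := gB1q2) cA202E_ok B hρ (gatB02 x) (gatB20 x) (fun _ => gatB02 x) (fun _ => gatB12 x) hd hx hx' CG.A202E_020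
    · exact corT_cert (G1 := gB0q2) (G2 := gB2q0) (Ga := gB1q2) (Gb := gB2q2) cA202E_ok B hρ (gatB02 x) (gatB20 x) (fun _ => gatB12 x) (fun _ => gatB22 x) hd hx hx' CG.A202E_021
    · exact corT_cert (G1 := gB0q2) (G2 := gB2q0) (Ga := gB2q2) (Gb := gB3q2) cA202E_ok B hρ (gatB02 x) (gatB20 x) (fun _ => gatB22 x) (fun _ => gatB32 x) hd hx hx' CG.A202E_022
    · exact corT_cert (G1 := gB0q2) (G2 := gB2q0) (Ga := gB3q2) (Gb := gB4q2) cA202E_ok B hρ (gatB02 x) (gatB20 x) (fun _ => gatB32 x) (fun _ => gatB42 x) hd hx hx' CG.A202E_023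
    · exact corT_cert (G1 := gB0q2) (G2 := gB2q0) (Ga := gB4q2) (Gb := gB5q2) cA202E_ok B hρ (gatB02 x) (gatB20 x) (fun _ => gatB42 x) (fun h => absurd h (by decide)) hd hx hx' CG.A202E_024
    · exact absurd h2 (by norm_num)
    · exact absurd h2 (by norm_num)

theorem altB_A202E_03 {κ x : ℝ} (hκ : κ * h0 = ken x) (hx : ((697932185 : ℕ) : ℝ) / S ≤ x) (hx' : x ≤ (((697932185 : ℕ) : ℝ) + (42949674 : ℕ)) / S) :
    AltEA 3 κ (eng.v x) (3 / 40) (tnt (h0 * x) (3 / 10)) PP tK tL tC pcB (scP esg pd) [⟨0, 1, 0, 67108864⟩, ⟨1, 0, 0, 67108864⟩, ⟨2, 1, 0, 67108864⟩] 2 0 2 0 3 (sgb true) (sgb false) x := by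
  have X : XR 67108864 x := XR.of hx hx' (by norm_num) (by norm_num) (by norm_num) (by norm_num)
  have hen : 0 < eng.v x := en_pos X.x0.le
  refine CornW.altA (C := cA202E) (j := (0 : Fin 8)) (k := (3 : Fin 8)) (Ef := esg) (pd := pd) (o := 3 / 40)
    (cornW_of (C := cA202E) (C0 := c0B) (En := eng) (mo := mog) (j := (0 : Fin 8)) (k := (3 : Fin 8)) (lo := 0) (hi := 4) (W := 67108864) (N0 := 3) cA202E_q (sideB hx hx') gokB (pinU hx hx') dokB X (by norm_num) (by norm_num) (l := (0 : Fin 8)) rfl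
      (gatB02 x) (gatB30 x) (gatB02 x) (datB02 x) (datB30 x) (datB02 x) ?_)
    (cornS_of (C := cA202E) (C0 := c0B) (j := (0 : Fin 8)) (k := (3 : Fin 8)) (lo := 0) (hi := 4) (W := 67108864) (N0 := 3) cA202E_q (sideB hx hx') gokB X (by norm_num) (by norm_num) (l := (0 : Fin 8)) rfl
      (gatB02 x) (gatB30 x) (gatB02 x) ?_)
    (thU (pinU hx hx')) rfl hκ (fun j q y => tC_eq j q y x) (esg_rng X.x0.le (by linarith [X.b, X.p0])).1 (mo_v x) le_rfl le_rfl
  · intro ρ a B hρ hd i h1 h2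
    fin_cases i
    · exact corW_cert (G1 := gB0q2) (G2 := gB3q0) (Ga := gB0q2) (Gb := gB1q2) (D1 := dB0q2) (D2 := dB3q0) (Da := dB0q2) (Db := dB1q2) cA202E_ok B hρ hen (gatB02 x) (gatB30 x) (fun _ => gatB02 x) (fun _ => gatB12 x) (datB02 x) (datB30 x) (fun _ => datB02 x) (fun _ => datB12 x) hd hx hx' CW.A202E_030
    · exact corW_cert (G1 := gB0q2) (G2 := gB3q0) (Ga := gB1q2) (Gb := gB2q2) (D1 := dB0q2) (D2 := dB3q0) (Da := dB1q2) (Db := dB2q2) cA202E_ok B hρ hen (gatB02 x) (gatB30 x) (fun _ => gatB12 x) (fun _ => gatB22 x) (datB02 x) (datB30 x) (fun _ => datB12 x) (fun _ => datB22 x) hd hx hx' CW.A202E_031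
    · exact corW_cert (G1 := gB0q2) (G2 := gB3q0) (Ga := gB2q2) (Gb := gB3q2) (D1 := dB0q2) (D2 := dB3q0) (Da := dB2q2) (Db := dB3q2) cA202E_ok B hρ hen (gatB02 x) (gatB30 x) (fun _ => gatB22 x) (fun _ => gatB32 x) (datB02 x) (datB30 x) (fun _ => datB22 x) (fun _ => datB32 x) hd hx hx' CW.A202E_032
    · exact corW_cert (G1 := gB0q2) (G2 := gB3q0) (Ga := gB3q2) (Gb := gB4q2) (D1 := dB0q2) (D2 := dB3q0) (Da := dB3q2) (Db := dB4q2) cA202E_ok B hρ hen (gatB02 x) (gatB30 x) (fun _ => gatB32 x) (fun _ => gatB42 x) (datB02 x) (datB30 x) (fun _ => datB32 x) (fun _ => datB42 x) hd hx hx' CW.A202E_033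
    · exact corW_cert (G1 := gB0q2) (G2 := gB3q0) (Ga := gB4q2) (Gb := gB5q2) (D1 := dB0q2) (D2 := dB3q0) (Da := dB4q2) (Db := dB5q2) cA202E_ok B hρ hen (gatB02 x) (gatB30 x) (fun _ => gatB42 x) (fun h => absurd h (by decide)) (datB02 x) (datB30 x) (fun _ => datB42 x) (fun h => absurd h (by decide)) hd hx hx' CW.A202E_034
    · exact absurd h2 (by norm_num)
    · exact absurd h2 (by norm_num)
  · intro ρ a B hρ hd i h1 h2
    fin_cases i
    · exact corT_cert (G1 := gB0q2) (G2 := gB3q0) (Ga := gB0q2) (Gb := gB1q2) cA202E_ok B hρ (gatB02 x) (gatB30 x) (fun _ => gatB02 x) (fun _ => gatB12 x) hd hx hx' CG.A202E_030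
    · exact corT_cert (G1 := gB0q2) (G2 := gB3q0) (Ga := gB1q2) (Gb := gB2q2) cA202E_ok B hρ (gatB02 x) (gatB30 x) (fun _ => gatB12 x) (fun _ => gatB22 x) hd hx hx' CG.A202E_031
    · exact corT_cert (G1 := gB0q2) (G2 := gB3q0) (Ga := gB2q2) (Gb := gB3q2) cA202E_ok B hρ (gatB02 x) (gatB30 x) (fun _ => gatB22 x) (fun _ => gatB32 x) hd hx hx' CG.A202E_032
    · exact corT_cert (G1 := gB0q2) (G2 := gB3q0) (Ga := gB3q2) (Gb := gB4q2) cA202E_ok B hρ (gatB02 x) (gatB30 x) (fun _ => gatB32 x) (fun _ => gatB42 x) hd hx hx' CG.A202E_033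
    · exact corT_cert (G1 := gB0q2) (G2 := gB3q0) (Ga := gB4q2) (Gb := gB5q2) cA202E_ok B hρ (gatB02 x) (gatB30 x) (fun _ => gatB42 x) (fun h => absurd h (by decide)) hd hx hx' CG.A202E_034
    · exact absurd h2 (by norm_num)
    · exact absurd h2 (by norm_num)

theorem altB_A202E_04 {κ x : ℝ} (hκ : κ * h0 = ken x) (hx : ((697932185 : ℕ) : ℝ) / S ≤ x) (hx' : x ≤ (((697932185 : ℕ) : ℝ) + (42949674 : ℕ)) / S) :
    AltEA 3 κ (eng.v x) (3 / 40) (tnt (h0 * x) (3 / 10)) PP tK tL tC pcB (scP esg pd) [⟨0, 1, 0, 67108864⟩, ⟨1, 0, 0, 67108864⟩, ⟨2, 1, 0, 67108864⟩] 2 0 2 0 4 (sgb true) (sgb false) x := by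
  have X : XR 67108864 x := XR.of hx hx' (by norm_num) (by norm_num) (by norm_num) (by norm_num)
  have hen : 0 < eng.v x := en_pos X.x0.le
  refine CornW.altA (C := cA202E) (j := (0 : Fin 8)) (k := (4 : Fin 8)) (Ef := esg) (pd := pd) (o := 3 / 40)
    (cornW_of (C := cA202E) (C0 := c0B) (En := eng) (mo := mog) (j := (0 : Fin 8)) (k := (4 : Fin 8)) (lo := 0) (hi := 4) (W := 67108864) (N0 := 3) cA202E_q (sideB hx hx') gokB (pinU hx hx') dokB X (by norm_num) (by norm_num) (l := (0 : Fin 8)) rfl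
      (gatB02 x) (gatB40 x) (gatB02 x) (datB02 x) (datB40 x) (datB02 x) ?_)
    (cornS_of (C := cA202E) (C0 := c0B) (j := (0 : Fin 8)) (k := (4 : Fin 8)) (lo := 0) (hi := 4) (W := 67108864) (N0 := 3) cA202E_q (sideB hx hx') gokB X (by norm_num) (by norm_num) (l := (0 : Fin 8)) rfl
      (gatB02 x) (gatB40 x) (gatB02 x) ?_)
    (thU (pinU hx hx')) rfl hκ (fun j q y => tC_eq j q y x) (esg_rng X.x0.le (by linarith [X.b, X.p0])).1 (mo_v x) le_rfl le_rfl
  · intro ρ a B hρ hd i h1 h2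
    fin_cases i
    · exact corW_cert (G1 := gB0q2) (G2 := gB4q0) (Ga := gB0q2) (Gb := gB1q2) (D1 := dB0q2) (D2 := dB4q0) (Da := dB0q2) (Db := dB1q2) cA202E_ok B hρ hen (gatB02 x) (gatB40 x) (fun _ => gatB02 x) (fun _ => gatB12 x) (datB02 x) (datB40 x) (fun _ => datB02 x) (fun _ => datB12 x) hd hx hx' CW.A202E_040
    · exact corW_cert (G1 := gB0q2) (G2 := gB4q0) (Ga := gB1q2) (Gb := gB2q2) (D1 := dB0q2) (D2 := dB4q0) (Da := dB1q2) (Db := dB2q2) cA202E_ok B hρ hen (gatB02 x) (gatB40 x) (fun _ => gatB12 x) (fun _ => gatB22 x) (datB02 x) (datB40 x) (fun _ => datB12 x) (fun _ => datB22 x) hd hx hx' CW.A202E_041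
    · exact corW_cert (G1 := gB0q2) (G2 := gB4q0) (Ga := gB2q2) (Gb := gB3q2) (D1 := dB0q2) (D2 := dB4q0) (Da := dB2q2) (Db := dB3q2) cA202E_ok B hρ hen (gatB02 x) (gatB40 x) (fun _ => gatB22 x) (fun _ => gatB32 x) (datB02 x) (datB40 x) (fun _ => datB22 x) (fun _ => datB32 x) hd hx hx' CW.A202E_042
    · exact corW_cert (G1 := gB0q2) (G2 := gB4q0) (Ga := gB3q2) (Gb := gB4q2) (D1 := dB0q2) (D2 := dB4q0) (Da := dB3q2) (Db := dB4q2) cA202E_ok B hρ hen (gatB02 x) (gatB40 x) (fun _ => gatB32 x) (fun _ => gatB42 x) (datB02 x) (datB40 x) (fun _ => datB32 x) (fun _ => datB42 x) hd hx hx' CW.A202E_043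
    · exact corW_cert (G1 := gB0q2) (G2 := gB4q0) (Ga := gB4q2) (Gb := gB5q2) (D1 := dB0q2) (D2 := dB4q0) (Da := dB4q2) (Db := dB5q2) cA202E_ok B hρ hen (gatB02 x) (gatB40 x) (fun _ => gatB42 x) (fun h => absurd h (by decide)) (datB02 x) (datB40 x) (fun _ => datB42 x) (fun h => absurd h (by decide)) hd hx hx' CW.A202E_044
    · exact absurd h2 (by norm_num)
    · exact absurd h2 (by norm_num)
  · intro ρ a B hρ hd i h1 h2
    fin_cases i
    · exact corT_cert (G1 := gB0q2) (G2 := gB4q0) (Ga := gB0q2) (Gb := gB1q2) cA202E_ok B hρ (gatB02 x) (gatB40 x) (fun _ => gatB02 x) (fun _ => gatB12 x) hd hx hx' CG.A202E_040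
    · exact corT_cert (G1 := gB0q2) (G2 := gB4q0) (Ga := gB1q2) (Gb := gB2q2) cA202E_ok B hρ (gatB02 x) (gatB40 x) (fun _ => gatB12 x) (fun _ => gatB22 x) hd hx hx' CG.A202E_041
    · exact corT_cert (G1 := gB0q2) (G2 := gB4q0) (Ga := gB2q2) (Gb := gB3q2) cA202E_ok B hρ (gatB02 x) (gatB40 x) (fun _ => gatB22 x) (fun _ => gatB32 x) hd hx hx' CG.A202E_042
    · exact corT_cert (G1 := gB0q2) (G2 := gB4q0) (Ga := gB3q2) (Gb := gB4q2) cA202E_ok B hρ (gatB02 x) (gatB40 x) (fun _ => gatB32 x) (fun _ => gatB42 x) hd hx hx' CG.A202E_043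
    · exact corT_cert (G1 := gB0q2) (G2 := gB4q0) (Ga := gB4q2) (Gb := gB5q2) cA202E_ok B hρ (gatB02 x) (gatB40 x) (fun _ => gatB42 x) (fun h => absurd h (by decide)) hd hx hx' CG.A202E_044
    · exact absurd h2 (by norm_num)
    · exact absurd h2 (by norm_num)

theorem altB_A202E_11 {κ x : ℝ} (hκ : κ * h0 = ken x) (hx : ((697932185 : ℕ) : ℝ) / S ≤ x) (hx' : x ≤ (((697932185 : ℕ) : ℝ) + (42949674 : ℕ)) / S) :
    AltEA 3 κ (eng.v x) (3 / 40) (tnt (h0 * x) (3 / 10)) PP tK tL tC pcB (scP esg pd) [⟨0, 1, 0, 67108864⟩, ⟨1, 0, 0, 67108864⟩, ⟨2, 1, 0, 67108864⟩] 2 0 2 1 1 (sgb true) (sgb false) x := by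
  have X : XR 67108864 x := XR.of hx hx' (by norm_num) (by norm_num) (by norm_num) (by norm_num)
  have hen : 0 < eng.v x := en_pos X.x0.le
  refine CornW.altA (C := cA202E) (j := (1 : Fin 8)) (k := (1 : Fin 8)) (Ef := esg) (pd := pd) (o := 3 / 40)
    (cornW_of (C := cA202E) (C0 := c0B) (En := eng) (mo := mog) (j := (1 : Fin 8)) (k := (1 : Fin 8)) (lo := 0) (hi := 4) (W := 67108864) (N0 := 3) cA202E_q (sideB hx hx') gokB (pinU hx hx') dokB X (by norm_num) (by norm_num) (l := (0 : Fin 8)) rfl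
      (gatB12 x) (gatB10 x) (gatB02 x) (datB12 x) (datB10 x) (datB02 x) ?_)
    (cornS_of (C := cA202E) (C0 := c0B) (j := (1 : Fin 8)) (k := (1 : Fin 8)) (lo := 0) (hi := 4) (W := 67108864) (N0 := 3) cA202E_q (sideB hx hx') gokB X (by norm_num) (by norm_num) (l := (0 : Fin 8)) rfl
      (gatB12 x) (gatB10 x) (gatB02 x) ?_)
    (thU (pinU hx hx')) rfl hκ (fun j q y => tC_eq j q y x) (esg_rng X.x0.le (by linarith [X.b, X.p0])).1 (mo_v x) le_rfl le_rfl
  · intro ρ a B hρ hd i h1 h2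
    fin_cases i
    · exact corW_cert (G1 := gB1q2) (G2 := gB1q0) (Ga := gB0q2) (Gb := gB1q2) (D1 := dB1q2) (D2 := dB1q0) (Da := dB0q2) (Db := dB1q2) cA202E_ok B hρ hen (gatB12 x) (gatB10 x) (fun _ => gatB02 x) (fun _ => gatB12 x) (datB12 x) (datB10 x) (fun _ => datB02 x) (fun _ => datB12 x) hd hx hx' CW.A202E_110
    · exact corW_cert (G1 := gB1q2) (G2 := gB1q0) (Ga := gB1q2) (Gb := gB2q2) (D1 := dB1q2) (D2 := dB1q0) (Da := dB1q2) (Db := dB2q2) cA202E_ok B hρ hen (gatB12 x) (gatB10 x) (fun _ => gatB12 x) (fun _ => gatB22 x) (datB12 x) (datB10 x) (fun _ => datB12 x) (fun _ => datB22 x) hd hx hx' CW.A202E_111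
    · exact corW_cert (G1 := gB1q2) (G2 := gB1q0) (Ga := gB2q2) (Gb := gB3q2) (D1 := dB1q2) (D2 := dB1q0) (Da := dB2q2) (Db := dB3q2) cA202E_ok B hρ hen (gatB12 x) (gatB10 x) (fun _ => gatB22 x) (fun _ => gatB32 x) (datB12 x) (datB10 x) (fun _ => datB22 x) (fun _ => datB32 x) hd hx hx' CW.A202E_112
    · exact corW_cert (G1 := gB1q2) (G2 := gB1q0) (Ga := gB3q2) (Gb := gB4q2) (D1 := dB1q2) (D2 := dB1q0) (Da := dB3q2) (Db := dB4q2) cA202E_ok B hρ hen (gatB12 x) (gatB10 x) (fun _ => gatB32 x) (fun _ => gatB42 x) (datB12 x) (datB10 x) (fun _ => datB32 x) (fun _ => datB42 x) hd hx hx' CW.A202E_113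
    · exact corW_cert (G1 := gB1q2) (G2 := gB1q0) (Ga := gB4q2) (Gb := gB5q2) (D1 := dB1q2) (D2 := dB1q0) (Da := dB4q2) (Db := dB5q2) cA202E_ok B hρ hen (gatB12 x) (gatB10 x) (fun _ => gatB42 x) (fun h => absurd h (by decide)) (datB12 x) (datB10 x) (fun _ => datB42 x) (fun h => absurd h (by decide)) hd hx hx' CW.A202E_114
    · exact absurd h2 (by norm_num)
    · exact absurd h2 (by norm_num)
  · intro ρ a B hρ hd i h1 h2
    fin_cases i
    · exact corT_cert (G1 := gB1q2) (G2 := gB1q0) (Ga := gB0q2) (Gb := gB1q2) cA202E_ok B hρ (gatB12 x) (gatB10 x) (fun _ => gatB02 x) (fun _ => gatB12 x) hd hx hx' CG.A202E_110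
    · exact corT_cert (G1 := gB1q2) (G2 := gB1q0) (Ga := gB1q2) (Gb := gB2q2) cA202E_ok B hρ (gatB12 x) (gatB10 x) (fun _ => gatB12 x) (fun _ => gatB22 x) hd hx hx' CG.A202E_111
    · exact corT_cert (G1 := gB1q2) (G2 := gB1q0) (Ga := gB2q2) (Gb := gB3q2) cA202E_ok B hρ (gatB12 x) (gatB10 x) (fun _ => gatB22 x) (fun _ => gatB32 x) hd hx hx' CG.A202E_112
    · exact corT_cert (G1 := gB1q2) (G2 := gB1q0) (Ga := gB3q2) (Gb := gB4q2) cA202E_ok B hρ (gatB12 x) (gatB10 x) (fun _ => gatB32 x) (fun _ => gatB42 x) hd hx hx' CG.A202E_113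
    · exact corT_cert (G1 := gB1q2) (G2 := gB1q0) (Ga := gB4q2) (Gb := gB5q2) cA202E_ok B hρ (gatB12 x) (gatB10 x) (fun _ => gatB42 x) (fun h => absurd h (by decide)) hd hx hx' CG.A202E_114
    · exact absurd h2 (by norm_num)
    · exact absurd h2 (by norm_num)

theorem altB_A202E_12 {κ x : ℝ} (hκ : κ * h0 = ken x) (hx : ((697932185 : ℕ) : ℝ) / S ≤ x) (hx' : x ≤ (((697932185 : ℕ) : ℝ) + (42949674 : ℕ)) / S) :
    AltEA 3 κ (eng.v x) (3 / 40) (tnt (h0 * x) (3 / 10)) PP tK tL tC pcB (scP esg pd) [⟨0, 1, 0, 67108864⟩, ⟨1, 0, 0, 67108864⟩, ⟨2, 1, 0, 67108864⟩] 2 0 2 1 2 (sgb true) (sgb false) x := by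
  have X : XR 67108864 x := XR.of hx hx' (by norm_num) (by norm_num) (by norm_num) (by norm_num)
  have hen : 0 < eng.v x := en_pos X.x0.le
  refine CornW.altA (C := cA202E) (j := (1 : Fin 8)) (k := (2 : Fin 8)) (Ef := esg) (pd := pd) (o := 3 / 40)
    (cornW_of (C := cA202E) (C0 := c0B) (En := eng) (mo := mog) (j := (1 : Fin 8)) (k := (2 : Fin 8)) (lo := 0) (hi := 4) (W := 67108864) (N0 := 3) cA202E_q (sideB hx hx') gokB (pinU hx hx') dokB X (by norm_num) (by norm_num) (l := (0 : Fin 8)) rfl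
      (gatB12 x) (gatB20 x) (gatB02 x) (datB12 x) (datB20 x) (datB02 x) ?_)
    (cornS_of (C := cA202E) (C0 := c0B) (j := (1 : Fin 8)) (k := (2 : Fin 8)) (lo := 0) (hi := 4) (W := 67108864) (N0 := 3) cA202E_q (sideB hx hx') gokB X (by norm_num) (by norm_num) (l := (0 : Fin 8)) rfl
      (gatB12 x) (gatB20 x) (gatB02 x) ?_)
    (thU (pinU hx hx')) rfl hκ (fun j q y => tC_eq j q y x) (esg_rng X.x0.le (by linarith [X.b, X.p0])).1 (mo_v x) le_rfl le_rfl
  · intro ρ a B hρ hd i h1 h2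
    fin_cases i
    · exact corW_cert (G1 := gB1q2) (G2 := gB2q0) (Ga := gB0q2) (Gb := gB1q2) (D1 := dB1q2) (D2 := dB2q0) (Da := dB0q2) (Db := dB1q2) cA202E_ok B hρ hen (gatB12 x) (gatB20 x) (fun _ => gatB02 x) (fun _ => gatB12 x) (datB12 x) (datB20 x) (fun _ => datB02 x) (fun _ => datB12 x) hd hx hx' CW.A202E_120
    · exact corW_cert (G1 := gB1q2) (G2 := gB2q0) (Ga := gB1q2) (Gb := gB2q2) (D1 := dB1q2) (D2 := dB2q0) (Da := dB1q2) (Db := dB2q2) cA202E_ok B hρ hen (gatB12 x) (gatB20 x) (fun _ => gatB12 x) (fun _ => gatB22 x) (datB12 x) (datB20 x) (fun _ => datB12 x) (fun _ => datB22 x) hd hx hx' CW.A202E_121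
    · exact corW_cert (G1 := gB1q2) (G2 := gB2q0) (Ga := gB2q2) (Gb := gB3q2) (D1 := dB1q2) (D2 := dB2q0) (Da := dB2q2) (Db := dB3q2) cA202E_ok B hρ hen (gatB12 x) (gatB20 x) (fun _ => gatB22 x) (fun _ => gatB32 x) (datB12 x) (datB20 x) (fun _ => datB22 x) (fun _ => datB32 x) hd hx hx' CW.A202E_122
    · exact corW_cert (G1 := gB1q2) (G2 := gB2q0) (Ga := gB3q2) (Gb := gB4q2) (D1 := dB1q2) (D2 := dB2q0) (Da := dB3q2) (Db := dB4q2) cA202E_ok B hρ hen (gatB12 x) (gatB20 x) (fun _ => gatB32 x) (fun _ => gatB42 x) (datB12 x) (datB20 x) (fun _ => datB32 x) (fun _ => datB42 x) hd hx hx' CW.A202E_123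
    · exact corW_cert (G1 := gB1q2) (G2 := gB2q0) (Ga := gB4q2) (Gb := gB5q2) (D1 := dB1q2) (D2 := dB2q0) (Da := dB4q2) (Db := dB5q2) cA202E_ok B hρ hen (gatB12 x) (gatB20 x) (fun _ => gatB42 x) (fun h => absurd h (by decide)) (datB12 x) (datB20 x) (fun _ => datB42 x) (fun h => absurd h (by decide)) hd hx hx' CW.A202E_124
    · exact absurd h2 (by norm_num)
    · exact absurd h2 (by norm_num)
  · intro ρ a B hρ hd i h1 h2
    fin_cases i
    · exact corT_cert (G1 := gB1q2) (G2 := gB2q0) (Ga := gB0q2) (Gb := gB1q2) cA202E_ok B hρ (gatB12 x) (gatB20 x) (fun _ => gatB02 x) (fun _ => gatB12 x) hd hx hx' CG.A202E_120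
    · exact corT_cert (G1 := gB1q2) (G2 := gB2q0) (Ga := gB1q2) (Gb := gB2q2) cA202E_ok B hρ (gatB12 x) (gatB20 x) (fun _ => gatB12 x) (fun _ => gatB22 x) hd hx hx' CG.A202E_121
    · exact corT_cert (G1 := gB1q2) (G2 := gB2q0) (Ga := gB2q2) (Gb := gB3q2) cA202E_ok B hρ (gatB12 x) (gatB20 x) (fun _ => gatB22 x) (fun _ => gatB32 x) hd hx hx' CG.A202E_122
    · exact corT_cert (G1 := gB1q2) (G2 := gB2q0) (Ga := gB3q2) (Gb := gB4q2) cA202E_ok B hρ (gatB12 x) (gatB20 x) (fun _ => gatB32 x) (fun _ => gatB42 x) hd hx hx' CG.A202E_123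
    · exact corT_cert (G1 := gB1q2) (G2 := gB2q0) (Ga := gB4q2) (Gb := gB5q2) cA202E_ok B hρ (gatB12 x) (gatB20 x) (fun _ => gatB42 x) (fun h => absurd h (by decide)) hd hx hx' CG.A202E_124
    · exact absurd h2 (by norm_num)
    · exact absurd h2 (by norm_num)

theorem altB_A202E_13 {κ x : ℝ} (hκ : κ * h0 = ken x) (hx : ((697932185 : ℕ) : ℝ) / S ≤ x) (hx' : x ≤ (((697932185 : ℕ) : ℝ) + (42949674 : ℕ)) / S) :
    AltEA 3 κ (eng.v x) (3 / 40) (tnt (h0 * x) (3 / 10)) PP tK tL tC pcB (scP esg pd) [⟨0, 1, 0, 67108864⟩, ⟨1, 0, 0, 67108864⟩, ⟨2, 1, 0, 67108864⟩] 2 0 2 1 3 (sgb true) (sgb false) x := by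
  have X : XR 67108864 x := XR.of hx hx' (by norm_num) (by norm_num) (by norm_num) (by norm_num)
  have hen : 0 < eng.v x := en_pos X.x0.le
  refine CornW.altA (C := cA202E) (j := (1 : Fin 8)) (k := (3 : Fin 8)) (Ef := esg) (pd := pd) (o := 3 / 40)
    (cornW_of (C := cA202E) (C0 := c0B) (En := eng) (mo := mog) (j := (1 : Fin 8)) (k := (3 : Fin 8)) (lo := 0) (hi := 4) (W := 67108864) (N0 := 3) cA202E_q (sideB hx hx') gokB (pinU hx hx') dokB X (by norm_num) (by norm_num) (l := (0 : Fin 8)) rfl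
      (gatB12 x) (gatB30 x) (gatB02 x) (datB12 x) (datB30 x) (datB02 x) ?_)
    (cornS_of (C := cA202E) (C0 := c0B) (j := (1 : Fin 8)) (k := (3 : Fin 8)) (lo := 0) (hi := 4) (W := 67108864) (N0 := 3) cA202E_q (sideB hx hx') gokB X (by norm_num) (by norm_num) (l := (0 : Fin 8)) rfl
      (gatB12 x) (gatB30 x) (gatB02 x) ?_)
    (thU (pinU hx hx')) rfl hκ (fun j q y => tC_eq j q y x) (esg_rng X.x0.le (by linarith [X.b, X.p0])).1 (mo_v x) le_rfl le_rfl
  · intro ρ a B hρ hd i h1 h2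
    fin_cases i
    · exact corW_cert (G1 := gB1q2) (G2 := gB3q0) (Ga := gB0q2) (Gb := gB1q2) (D1 := dB1q2) (D2 := dB3q0) (Da := dB0q2) (Db := dB1q2) cA202E_ok B hρ hen (gatB12 x) (gatB30 x) (fun _ => gatB02 x) (fun _ => gatB12 x) (datB12 x) (datB30 x) (fun _ => datB02 x) (fun _ => datB12 x) hd hx hx' CW.A202E_130
    · exact corW_cert (G1 := gB1q2) (G2 := gB3q0) (Ga := gB1q2) (Gb := gB2q2) (D1 := dB1q2) (D2 := dB3q0) (Da := dB1q2) (Db := dB2q2) cA202E_ok B hρ hen (gatB12 x) (gatB30 x) (fun _ => gatB12 x) (fun _ => gatB22 x) (datB12 x) (datB30 x) (fun _ => datB12 x) (fun _ => datB22 x) hd hx hx' CW.A202E_131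
    · exact corW_cert (G1 := gB1q2) (G2 := gB3q0) (Ga := gB2q2) (Gb := gB3q2) (D1 := dB1q2) (D2 := dB3q0) (Da := dB2q2) (Db := dB3q2) cA202E_ok B hρ hen (gatB12 x) (gatB30 x) (fun _ => gatB22 x) (fun _ => gatB32 x) (datB12 x) (datB30 x) (fun _ => datB22 x) (fun _ => datB32 x) hd hx hx' CW.A202E_132
    · exact corW_cert (G1 := gB1q2) (G2 := gB3q0) (Ga := gB3q2) (Gb := gB4q2) (D1 := dB1q2) (D2 := dB3q0) (Da := dB3q2) (Db := dB4q2) cA202E_ok B hρ hen (gatB12 x) (gatB30 x) (fun _ => gatB32 x) (fun _ => gatB42 x) (datB12 x) (datB30 x) (fun _ => datB32 x) (fun _ => datB42 x) hd hx hx' CW.A202E_133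
    · exact corW_cert (G1 := gB1q2) (G2 := gB3q0) (Ga := gB4q2) (Gb := gB5q2) (D1 := dB1q2) (D2 := dB3q0) (Da := dB4q2) (Db := dB5q2) cA202E_ok B hρ hen (gatB12 x) (gatB30 x) (fun _ => gatB42 x) (fun h => absurd h (by decide)) (datB12 x) (datB30 x) (fun _ => datB42 x) (fun h => absurd h (by decide)) hd hx hx' CW.A202E_134
    · exact absurd h2 (by norm_num)
    · exact absurd h2 (by norm_num)
  · intro ρ a B hρ hd i h1 h2
    fin_cases i
    · exact corT_cert (G1 := gB1q2) (G2 := gB3q0) (Ga := gB0q2) (Gb := gB1q2) cA202E_ok B hρ (gatB12 x) (gatB30 x) (fun _ => gatB02 x) (fun _ => gatB12 x) hd hx hx' CG.A202E_130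
    · exact corT_cert (G1 := gB1q2) (G2 := gB3q0) (Ga := gB1q2) (Gb := gB2q2) cA202E_ok B hρ (gatB12 x) (gatB30 x) (fun _ => gatB12 x) (fun _ => gatB22 x) hd hx hx' CG.A202E_131
    · exact corT_cert (G1 := gB1q2) (G2 := gB3q0) (Ga := gB2q2) (Gb := gB3q2) cA202E_ok B hρ (gatB12 x) (gatB30 x) (fun _ => gatB22 x) (fun _ => gatB32 x) hd hx hx' CG.A202E_132
    · exact corT_cert (G1 := gB1q2) (G2 := gB3q0) (Ga := gB3q2) (Gb := gB4q2) cA202E_ok B hρ (gatB12 x) (gatB30 x) (fun _ => gatB32 x) (fun _ => gatB42 x) hd hx hx' CG.A202E_133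
    · exact corT_cert (G1 := gB1q2) (G2 := gB3q0) (Ga := gB4q2) (Gb := gB5q2) cA202E_ok B hρ (gatB12 x) (gatB30 x) (fun _ => gatB42 x) (fun h => absurd h (by decide)) hd hx hx' CG.A202E_134
    · exact absurd h2 (by norm_num)
    · exact absurd h2 (by norm_num)

theorem altB_A202E_14 {κ x : ℝ} (hκ : κ * h0 = ken x) (hx : ((697932185 : ℕ) : ℝ) / S ≤ x) (hx' : x ≤ (((697932185 : ℕ) : ℝ) + (42949674 : ℕ)) / S) :
    AltEA 3 κ (eng.v x) (3 / 40) (tnt (h0 * x) (3 / 10)) PP tK tL tC pcB (scP esg pd) [⟨0, 1, 0, 67108864⟩, ⟨1, 0, 0, 67108864⟩, ⟨2, 1, 0, 67108864⟩] 2 0 2 1 4 (sgb true) (sgb false) x := by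
  have X : XR 67108864 x := XR.of hx hx' (by norm_num) (by norm_num) (by norm_num) (by norm_num)
  have hen : 0 < eng.v x := en_pos X.x0.le
  refine CornW.altA (C := cA202E) (j := (1 : Fin 8)) (k := (4 : Fin 8)) (Ef := esg) (pd := pd) (o := 3 / 40)
    (cornW_of (C := cA202E) (C0 := c0B) (En := eng) (mo := mog) (j := (1 : Fin 8)) (k := (4 : Fin 8)) (lo := 0) (hi := 4) (W := 67108864) (N0 := 3) cA202E_q (sideB hx hx') gokB (pinU hx hx') dokB X (by norm_num) (by norm_num) (l := (0 : Fin 8)) rfl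
      (gatB12 x) (gatB40 x) (gatB02 x) (datB12 x) (datB40 x) (datB02 x) ?_)
    (cornS_of (C := cA202E) (C0 := c0B) (j := (1 : Fin 8)) (k := (4 : Fin 8)) (lo := 0) (hi := 4) (W := 67108864) (N0 := 3) cA202E_q (sideB hx hx') gokB X (by norm_num) (by norm_num) (l := (0 : Fin 8)) rfl
      (gatB12 x) (gatB40 x) (gatB02 x) ?_)
    (thU (pinU hx hx')) rfl hκ (fun j q y => tC_eq j q y x) (esg_rng X.x0.le (by linarith [X.b, X.p0])).1 (mo_v x) le_rfl le_rfl
  · intro ρ a B hρ hd i h1 h2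
    fin_cases i
    · exact corW_cert (G1 := gB1q2) (G2 := gB4q0) (Ga := gB0q2) (Gb := gB1q2) (D1 := dB1q2) (D2 := dB4q0) (Da := dB0q2) (Db := dB1q2) cA202E_ok B hρ hen (gatB12 x) (gatB40 x) (fun _ => gatB02 x) (fun _ => gatB12 x) (datB12 x) (datB40 x) (fun _ => datB02 x) (fun _ => datB12 x) hd hx hx' CW.A202E_140
    · exact corW_cert (G1 := gB1q2) (G2 := gB4q0) (Ga := gB1q2) (Gb := gB2q2) (D1 := dB1q2) (D2 := dB4q0) (Da := dB1q2) (Db := dB2q2) cA202E_ok B hρ hen (gatB12 x) (gatB40 x) (fun _ => gatB12 x) (fun _ => gatB22 x) (datB12 x) (datB40 x) (fun _ => datB12 x) (fun _ => datB22 x) hd hx hx' CW.A202E_141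
    · exact corW_cert (G1 := gB1q2) (G2 := gB4q0) (Ga := gB2q2) (Gb := gB3q2) (D1 := dB1q2) (D2 := dB4q0) (Da := dB2q2) (Db := dB3q2) cA202E_ok B hρ hen (gatB12 x) (gatB40 x) (fun _ => gatB22 x) (fun _ => gatB32 x) (datB12 x) (datB40 x) (fun _ => datB22 x) (fun _ => datB32 x) hd hx hx' CW.A202E_142
    · exact corW_cert (G1 := gB1q2) (G2 := gB4q0) (Ga := gB3q2) (Gb := gB4q2) (D1 := dB1q2) (D2 := dB4q0) (Da := dB3q2) (Db := dB4q2) cA202E_ok B hρ hen (gatB12 x) (gatB40 x) (fun _ => gatB32 x) (fun _ => gatB42 x) (datB12 x) (datB40 x) (fun _ => datB32 x) (fun _ => datB42 x) hd hx hx' CW.A202E_143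
    · exact corW_cert (G1 := gB1q2) (G2 := gB4q0) (Ga := gB4q2) (Gb := gB5q2) (D1 := dB1q2) (D2 := dB4q0) (Da := dB4q2) (Db := dB5q2) cA202E_ok B hρ hen (gatB12 x) (gatB40 x) (fun _ => gatB42 x) (fun h => absurd h (by decide)) (datB12 x) (datB40 x) (fun _ => datB42 x) (fun h => absurd h (by decide)) hd hx hx' CW.A202E_144
    · exact absurd h2 (by norm_num)
    · exact absurd h2 (by norm_num)
  · intro ρ a B hρ hd i h1 h2
    fin_cases i
    · exact corT_cert (G1 := gB1q2) (G2 := gB4q0) (Ga := gB0q2) (Gb := gB1q2) cA202E_ok B hρ (gatB12 x) (gatB40 x) (fun _ => gatB02 x) (fun _ => gatB12 x) hd hx hx' CG.A202E_140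
    · exact corT_cert (G1 := gB1q2) (G2 := gB4q0) (Ga := gB1q2) (Gb := gB2q2) cA202E_ok B hρ (gatB12 x) (gatB40 x) (fun _ => gatB12 x) (fun _ => gatB22 x) hd hx hx' CG.A202E_141
    · exact corT_cert (G1 := gB1q2) (G2 := gB4q0) (Ga := gB2q2) (Gb := gB3q2) cA202E_ok B hρ (gatB12 x) (gatB40 x) (fun _ => gatB22 x) (fun _ => gatB32 x) hd hx hx' CG.A202E_142
    · exact corT_cert (G1 := gB1q2) (G2 := gB4q0) (Ga := gB3q2) (Gb := gB4q2) cA202E_ok B hρ (gatB12 x) (gatB40 x) (fun _ => gatB32 x) (fun _ => gatB42 x) hd hx hx' CG.A202E_143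
    · exact corT_cert (G1 := gB1q2) (G2 := gB4q0) (Ga := gB4q2) (Gb := gB5q2) cA202E_ok B hρ (gatB12 x) (gatB40 x) (fun _ => gatB42 x) (fun h => absurd h (by decide)) hd hx hx' CG.A202E_144
    · exact absurd h2 (by norm_num)
    · exact absurd h2 (by norm_num)

theorem altB_A202E_22 {κ x : ℝ} (hκ : κ * h0 = ken x) (hx : ((697932185 : ℕ) : ℝ) / S ≤ x) (hx' : x ≤ (((697932185 : ℕ) : ℝ) + (42949674 : ℕ)) / S) :
    AltEA 3 κ (eng.v x) (3 / 40) (tnt (h0 * x) (3 / 10)) PP tK tL tC pcB (scP esg pd) [⟨0, 1, 0, 67108864⟩, ⟨1, 0, 0, 67108864⟩, ⟨2, 1, 0, 67108864⟩] 2 0 2 2 2 (sgb true) (sgb false) x := by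
  have X : XR 67108864 x := XR.of hx hx' (by norm_num) (by norm_num) (by norm_num) (by norm_num)
  have hen : 0 < eng.v x := en_pos X.x0.le
  refine CornW.altA (C := cA202E) (j := (2 : Fin 8)) (k := (2 : Fin 8)) (Ef := esg) (pd := pd) (o := 3 / 40)
    (cornW_of (C := cA202E) (C0 := c0B) (En := eng) (mo := mog) (j := (2 : Fin 8)) (k := (2 : Fin 8)) (lo := 0) (hi := 4) (W := 67108864) (N0 := 3) cA202E_q (sideB hx hx') gokB (pinU hx hx') dokB X (by norm_num) (by norm_num) (l := (0 : Fin 8)) rfl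
      (gatB22 x) (gatB20 x) (gatB02 x) (datB22 x) (datB20 x) (datB02 x) ?_)
    (cornS_of (C := cA202E) (C0 := c0B) (j := (2 : Fin 8)) (k := (2 : Fin 8)) (lo := 0) (hi := 4) (W := 67108864) (N0 := 3) cA202E_q (sideB hx hx') gokB X (by norm_num) (by norm_num) (l := (0 : Fin 8)) rfl
      (gatB22 x) (gatB20 x) (gatB02 x) ?_)
    (thU (pinU hx hx')) rfl hκ (fun j q y => tC_eq j q y x) (esg_rng X.x0.le (by linarith [X.b, X.p0])).1 (mo_v x) le_rfl le_rfl
  · intro ρ a B hρ hd i h1 h2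
    fin_cases i
    · exact corW_cert (G1 := gB2q2) (G2 := gB2q0) (Ga := gB0q2) (Gb := gB1q2) (D1 := dB2q2) (D2 := dB2q0) (Da := dB0q2) (Db := dB1q2) cA202E_ok B hρ hen (gatB22 x) (gatB20 x) (fun _ => gatB02 x) (fun _ => gatB12 x) (datB22 x) (datB20 x) (fun _ => datB02 x) (fun _ => datB12 x) hd hx hx' CW.A202E_220
    · exact corW_cert (G1 := gB2q2) (G2 := gB2q0) (Ga := gB1q2) (Gb := gB2q2) (D1 := dB2q2) (D2 := dB2q0) (Da := dB1q2) (Db := dB2q2) cA202E_ok B hρ hen (gatB22 x) (gatB20 x) (fun _ => gatB12 x) (fun _ => gatB22 x) (datB22 x) (datB20 x) (fun _ => datB12 x) (fun _ => datB22 x) hd hx hx' CW.A202E_221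
    · exact corW_cert (G1 := gB2q2) (G2 := gB2q0) (Ga := gB2q2) (Gb := gB3q2) (D1 := dB2q2) (D2 := dB2q0) (Da := dB2q2) (Db := dB3q2) cA202E_ok B hρ hen (gatB22 x) (gatB20 x) (fun _ => gatB22 x) (fun _ => gatB32 x) (datB22 x) (datB20 x) (fun _ => datB22 x) (fun _ => datB32 x) hd hx hx' CW.A202E_222
    · exact corW_cert (G1 := gB2q2) (G2 := gB2q0) (Ga := gB3q2) (Gb := gB4q2) (D1 := dB2q2) (D2 := dB2q0) (Da := dB3q2) (Db := dB4q2) cA202E_ok B hρ hen (gatB22 x) (gatB20 x) (fun _ => gatB32 x) (fun _ => gatB42 x) (datB22 x) (datB20 x) (fun _ => datB32 x) (fun _ => datB42 x) hd hx hx' CW.A202E_223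
    · exact corW_cert (G1 := gB2q2) (G2 := gB2q0) (Ga := gB4q2) (Gb := gB5q2) (D1 := dB2q2) (D2 := dB2q0) (Da := dB4q2) (Db := dB5q2) cA202E_ok B hρ hen (gatB22 x) (gatB20 x) (fun _ => gatB42 x) (fun h => absurd h (by decide)) (datB22 x) (datB20 x) (fun _ => datB42 x) (fun h => absurd h (by decide)) hd hx hx' CW.A202E_224
    · exact absurd h2 (by norm_num)
    · exact absurd h2 (by norm_num)
  · intro ρ a B hρ hd i h1 h2
    fin_cases i
    · exact corT_cert (G1 := gB2q2) (G2 := gB2q0) (Ga := gB0q2) (Gb := gB1q2) cA202E_ok B hρ (gatB22 x) (gatB20 x) (fun _ => gatB02 x) (fun _ => gatB12 x) hd hx hx' CG.A202E_220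
    · exact corT_cert (G1 := gB2q2) (G2 := gB2q0) (Ga := gB1q2) (Gb := gB2q2) cA202E_ok B hρ (gatB22 x) (gatB20 x) (fun _ => gatB12 x) (fun _ => gatB22 x) hd hx hx' CG.A202E_221
    · exact corT_cert (G1 := gB2q2) (G2 := gB2q0) (Ga := gB2q2) (Gb := gB3q2) cA202E_ok B hρ (gatB22 x) (gatB20 x) (fun _ => gatB22 x) (fun _ => gatB32 x) hd hx hx' CG.A202E_222
    · exact corT_cert (G1 := gB2q2) (G2 := gB2q0) (Ga := gB3q2) (Gb := gB4q2) cA202E_ok B hρ (gatB22 x) (gatB20 x) (fun _ => gatB32 x) (fun _ => gatB42 x) hd hx hx' CG.A202E_223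
    · exact corT_cert (G1 := gB2q2) (G2 := gB2q0) (Ga := gB4q2) (Gb := gB5q2) cA202E_ok B hρ (gatB22 x) (gatB20 x) (fun _ => gatB42 x) (fun h => absurd h (by decide)) hd hx hx' CG.A202E_224
    · exact absurd h2 (by norm_num)
    · exact absurd h2 (by norm_num)

theorem altB_A202E_23 {κ x : ℝ} (hκ : κ * h0 = ken x) (hx : ((697932185 : ℕ) : ℝ) / S ≤ x) (hx' : x ≤ (((697932185 : ℕ) : ℝ) + (42949674 : ℕ)) / S) :
    AltEA 3 κ (eng.v x) (3 / 40) (tnt (h0 * x) (3 / 10)) PP tK tL tC pcB (scP esg pd) [⟨0, 1, 0, 67108864⟩, ⟨1, 0, 0, 67108864⟩, ⟨2, 1, 0, 67108864⟩] 2 0 2 2 3 (sgb true) (sgb false) x := by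
  have X : XR 67108864 x := XR.of hx hx' (by norm_num) (by norm_num) (by norm_num) (by norm_num)
  have hen : 0 < eng.v x := en_pos X.x0.le
  refine CornW.altA (C := cA202E) (j := (2 : Fin 8)) (k := (3 : Fin 8)) (Ef := esg) (pd := pd) (o := 3 / 40)
    (cornW_of (C := cA202E) (C0 := c0B) (En := eng) (mo := mog) (j := (2 : Fin 8)) (k := (3 : Fin 8)) (lo := 0) (hi := 4) (W := 67108864) (N0 := 3) cA202E_q (sideB hx hx') gokB (pinU hx hx') dokB X (by norm_num) (by norm_num) (l := (0 : Fin 8)) rfl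
      (gatB22 x) (gatB30 x) (gatB02 x) (datB22 x) (datB30 x) (datB02 x) ?_)
    (cornS_of (C := cA202E) (C0 := c0B) (j := (2 : Fin 8)) (k := (3 : Fin 8)) (lo := 0) (hi := 4) (W := 67108864) (N0 := 3) cA202E_q (sideB hx hx') gokB X (by norm_num) (by norm_num) (l := (0 : Fin 8)) rfl
      (gatB22 x) (gatB30 x) (gatB02 x) ?_)
    (thU (pinU hx hx')) rfl hκ (fun j q y => tC_eq j q y x) (esg_rng X.x0.le (by linarith [X.b, X.p0])).1 (mo_v x) le_rfl le_rfl
  · intro ρ a B hρ hd i h1 h2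
    fin_cases i
    · exact corW_cert (G1 := gB2q2) (G2 := gB3q0) (Ga := gB0q2) (Gb := gB1q2) (D1 := dB2q2) (D2 := dB3q0) (Da := dB0q2) (Db := dB1q2) cA202E_ok B hρ hen (gatB22 x) (gatB30 x) (fun _ => gatB02 x) (fun _ => gatB12 x) (datB22 x) (datB30 x) (fun _ => datB02 x) (fun _ => datB12 x) hd hx hx' CW.A202E_230
    · exact corW_cert (G1 := gB2q2) (G2 := gB3q0) (Ga := gB1q2) (Gb := gB2q2) (D1 := dB2q2) (D2 := dB3q0) (Da := dB1q2) (Db := dB2q2) cA202E_ok B hρ hen (gatB22 x) (gatB30 x) (fun _ => gatB12 x) (fun _ => gatB22 x) (datB22 x) (datB30 x) (fun _ => datB12 x) (fun _ => datB22 x) hd hx hx' CW.A202E_231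
    · exact corW_cert (G1 := gB2q2) (G2 := gB3q0) (Ga := gB2q2) (Gb := gB3q2) (D1 := dB2q2) (D2 := dB3q0) (Da := dB2q2) (Db := dB3q2) cA202E_ok B hρ hen (gatB22 x) (gatB30 x) (fun _ => gatB22 x) (fun _ => gatB32 x) (datB22 x) (datB30 x) (fun _ => datB22 x) (fun _ => datB32 x) hd hx hx' CW.A202E_232
    · exact corW_cert (G1 := gB2q2) (G2 := gB3q0) (Ga := gB3q2) (Gb := gB4q2) (D1 := dB2q2) (D2 := dB3q0) (Da := dB3q2) (Db := dB4q2) cA202E_ok B hρ hen (gatB22 x) (gatB30 x) (fun _ => gatB32 x) (fun _ => gatB42 x) (datB22 x) (datB30 x) (fun _ => datB32 x) (fun _ => datB42 x) hd hx hx' CW.A202E_233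
    · exact corW_cert (G1 := gB2q2) (G2 := gB3q0) (Ga := gB4q2) (Gb := gB5q2) (D1 := dB2q2) (D2 := dB3q0) (Da := dB4q2) (Db := dB5q2) cA202E_ok B hρ hen (gatB22 x) (gatB30 x) (fun _ => gatB42 x) (fun h => absurd h (by decide)) (datB22 x) (datB30 x) (fun _ => datB42 x) (fun h => absurd h (by decide)) hd hx hx' CW.A202E_234
    · exact absurd h2 (by norm_num)
    · exact absurd h2 (by norm_num)
  · intro ρ a B hρ hd i h1 h2
    fin_cases i
    · exact corT_cert (G1 := gB2q2) (G2 := gB3q0) (Ga := gB0q2) (Gb := gB1q2) cA202E_ok B hρ (gatB22 x) (gatB30 x) (fun _ => gatB02 x) (fun _ => gatB12 x) hd hx hx' CG.A202E_230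
    · exact corT_cert (G1 := gB2q2) (G2 := gB3q0) (Ga := gB1q2) (Gb := gB2q2) cA202E_ok B hρ (gatB22 x) (gatB30 x) (fun _ => gatB12 x) (fun _ => gatB22 x) hd hx hx' CG.A202E_231
    · exact corT_cert (G1 := gB2q2) (G2 := gB3q0) (Ga := gB2q2) (Gb := gB3q2) cA202E_ok B hρ (gatB22 x) (gatB30 x) (fun _ => gatB22 x) (fun _ => gatB32 x) hd hx hx' CG.A202E_232
    · exact corT_cert (G1 := gB2q2) (G2 := gB3q0) (Ga := gB3q2) (Gb := gB4q2) cA202E_ok B hρ (gatB22 x) (gatB30 x) (fun _ => gatB32 x) (fun _ => gatB42 x) hd hx hx' CG.A202E_233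
    · exact corT_cert (G1 := gB2q2) (G2 := gB3q0) (Ga := gB4q2) (Gb := gB5q2) cA202E_ok B hρ (gatB22 x) (gatB30 x) (fun _ => gatB42 x) (fun h => absurd h (by decide)) hd hx hx' CG.A202E_234
    · exact absurd h2 (by norm_num)
    · exact absurd h2 (by norm_num)

theorem altB_A202E_24 {κ x : ℝ} (hκ : κ * h0 = ken x) (hx : ((697932185 : ℕ) : ℝ) / S ≤ x) (hx' : x ≤ (((697932185 : ℕ) : ℝ) + (42949674 : ℕ)) / S) :
    AltEA 3 κ (eng.v x) (3 / 40) (tnt (h0 * x) (3 / 10)) PP tK tL tC pcB (scP esg pd) [⟨0, 1, 0, 67108864⟩, ⟨1, 0, 0, 67108864⟩, ⟨2, 1, 0, 67108864⟩] 2 0 2 2 4 (sgb true) (sgb false) x := by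
  have X : XR 67108864 x := XR.of hx hx' (by norm_num) (by norm_num) (by norm_num) (by norm_num)
  have hen : 0 < eng.v x := en_pos X.x0.le
  refine CornW.altA (C := cA202E) (j := (2 : Fin 8)) (k := (4 : Fin 8)) (Ef := esg) (pd := pd) (o := 3 / 40)
    (cornW_of (C := cA202E) (C0 := c0B) (En := eng) (mo := mog) (j := (2 : Fin 8)) (k := (4 : Fin 8)) (lo := 0) (hi := 4) (W := 67108864) (N0 := 3) cA202E_q (sideB hx hx') gokB (pinU hx hx') dokB X (by norm_num) (by norm_num) (l := (0 : Fin 8)) rfl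
      (gatB22 x) (gatB40 x) (gatB02 x) (datB22 x) (datB40 x) (datB02 x) ?_)
    (cornS_of (C := cA202E) (C0 := c0B) (j := (2 : Fin 8)) (k := (4 : Fin 8)) (lo := 0) (hi := 4) (W := 67108864) (N0 := 3) cA202E_q (sideB hx hx') gokB X (by norm_num) (by norm_num) (l := (0 : Fin 8)) rfl
      (gatB22 x) (gatB40 x) (gatB02 x) ?_)
    (thU (pinU hx hx')) rfl hκ (fun j q y => tC_eq j q y x) (esg_rng X.x0.le (by linarith [X.b, X.p0])).1 (mo_v x) le_rfl le_rfl
  · intro ρ a B hρ hd i h1 h2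
    fin_cases i
    · exact corW_cert (G1 := gB2q2) (G2 := gB4q0) (Ga := gB0q2) (Gb := gB1q2) (D1 := dB2q2) (D2 := dB4q0) (Da := dB0q2) (Db := dB1q2) cA202E_ok B hρ hen (gatB22 x) (gatB40 x) (fun _ => gatB02 x) (fun _ => gatB12 x) (datB22 x) (datB40 x) (fun _ => datB02 x) (fun _ => datB12 x) hd hx hx' CW.A202E_240
    · exact corW_cert (G1 := gB2q2) (G2 := gB4q0) (Ga := gB1q2) (Gb := gB2q2) (D1 := dB2q2) (D2 := dB4q0) (Da := dB1q2) (Db := dB2q2) cA202E_ok B hρ hen (gatB22 x) (gatB40 x) (fun _ => gatB12 x) (fun _ => gatB22 x) (datB22 x) (datB40 x) (fun _ => datB12 x) (fun _ => datB22 x) hd hx hx' CW.A202E_241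
    · exact corW_cert (G1 := gB2q2) (G2 := gB4q0) (Ga := gB2q2) (Gb := gB3q2) (D1 := dB2q2) (D2 := dB4q0) (Da := dB2q2) (Db := dB3q2) cA202E_ok B hρ hen (gatB22 x) (gatB40 x) (fun _ => gatB22 x) (fun _ => gatB32 x) (datB22 x) (datB40 x) (fun _ => datB22 x) (fun _ => datB32 x) hd hx hx' CW.A202E_242
    · exact corW_cert (G1 := gB2q2) (G2 := gB4q0) (Ga := gB3q2) (Gb := gB4q2) (D1 := dB2q2) (D2 := dB4q0) (Da := dB3q2) (Db := dB4q2) cA202E_ok B hρ hen (gatB22 x) (gatB40 x) (fun _ => gatB32 x) (fun _ => gatB42 x) (datB22 x) (datB40 x) (fun _ => datB32 x) (fun _ => datB42 x) hd hx hx' CW.A202E_243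
    · exact corW_cert (G1 := gB2q2) (G2 := gB4q0) (Ga := gB4q2) (Gb := gB5q2) (D1 := dB2q2) (D2 := dB4q0) (Da := dB4q2) (Db := dB5q2) cA202E_ok B hρ hen (gatB22 x) (gatB40 x) (fun _ => gatB42 x) (fun h => absurd h (by decide)) (datB22 x) (datB40 x) (fun _ => datB42 x) (fun h => absurd h (by decide)) hd hx hx' CW.A202E_244
    · exact absurd h2 (by norm_num)
    · exact absurd h2 (by norm_num)
  · intro ρ a B hρ hd i h1 h2
    fin_cases i
    · exact corT_cert (G1 := gB2q2) (G2 := gB4q0) (Ga := gB0q2) (Gb := gB1q2) cA202E_ok B hρ (gatB22 x) (gatB40 x) (fun _ => gatB02 x) (fun _ => gatB12 x) hd hx hx' CG.A202E_240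
    · exact corT_cert (G1 := gB2q2) (G2 := gB4q0) (Ga := gB1q2) (Gb := gB2q2) cA202E_ok B hρ (gatB22 x) (gatB40 x) (fun _ => gatB12 x) (fun _ => gatB22 x) hd hx hx' CG.A202E_241
    · exact corT_cert (G1 := gB2q2) (G2 := gB4q0) (Ga := gB2q2) (Gb := gB3q2) cA202E_ok B hρ (gatB22 x) (gatB40 x) (fun _ => gatB22 x) (fun _ => gatB32 x) hd hx hx' CG.A202E_242
    · exact corT_cert (G1 := gB2q2) (G2 := gB4q0) (Ga := gB3q2) (Gb := gB4q2) cA202E_ok B hρ (gatB22 x) (gatB40 x) (fun _ => gatB32 x) (fun _ => gatB42 x) hd hx hx' CG.A202E_243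
    · exact corT_cert (G1 := gB2q2) (G2 := gB4q0) (Ga := gB4q2) (Gb := gB5q2) cA202E_ok B hρ (gatB22 x) (gatB40 x) (fun _ => gatB42 x) (fun h => absurd h (by decide)) hd hx hx' CG.A202E_244
    · exact absurd h2 (by norm_num)
    · exact absurd h2 (by norm_num)

theorem altB_A202E_33 {κ x : ℝ} (hκ : κ * h0 = ken x) (hx : ((697932185 : ℕ) : ℝ) / S ≤ x) (hx' : x ≤ (((697932185 : ℕ) : ℝ) + (42949674 : ℕ)) / S) :
    AltEA 3 κ (eng.v x) (3 / 40) (tnt (h0 * x) (3 / 10)) PP tK tL tC pcB (scP esg pd) [⟨0, 1, 0, 67108864⟩, ⟨1, 0, 0, 67108864⟩, ⟨2, 1, 0, 67108864⟩] 2 0 2 3 3 (sgb true) (sgb false) x := by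
  have X : XR 67108864 x := XR.of hx hx' (by norm_num) (by norm_num) (by norm_num) (by norm_num)
  have hen : 0 < eng.v x := en_pos X.x0.le
  refine CornW.altA (C := cA202E) (j := (3 : Fin 8)) (k := (3 : Fin 8)) (Ef := esg) (pd := pd) (o := 3 / 40)
    (cornW_of (C := cA202E) (C0 := c0B) (En := eng) (mo := mog) (j := (3 : Fin 8)) (k := (3 : Fin 8)) (lo := 0) (hi := 4) (W := 67108864) (N0 := 3) cA202E_q (sideB hx hx') gokB (pinU hx hx') dokB X (by norm_num) (by norm_num) (l := (0 : Fin 8)) rfl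
      (gatB32 x) (gatB30 x) (gatB02 x) (datB32 x) (datB30 x) (datB02 x) ?_)
    (cornS_of (C := cA202E) (C0 := c0B) (j := (3 : Fin 8)) (k := (3 : Fin 8)) (lo := 0) (hi := 4) (W := 67108864) (N0 := 3) cA202E_q (sideB hx hx') gokB X (by norm_num) (by norm_num) (l := (0 : Fin 8)) rfl
      (gatB32 x) (gatB30 x) (gatB02 x) ?_)
    (thU (pinU hx hx')) rfl hκ (fun j q y => tC_eq j q y x) (esg_rng X.x0.le (by linarith [X.b, X.p0])).1 (mo_v x) le_rfl le_rfl
  · intro ρ a B hρ hd i h1 h2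
    fin_cases i
    · exact corW_cert (G1 := gB3q2) (G2 := gB3q0) (Ga := gB0q2) (Gb := gB1q2) (D1 := dB3q2) (D2 := dB3q0) (Da := dB0q2) (Db := dB1q2) cA202E_ok B hρ hen (gatB32 x) (gatB30 x) (fun _ => gatB02 x) (fun _ => gatB12 x) (datB32 x) (datB30 x) (fun _ => datB02 x) (fun _ => datB12 x) hd hx hx' CW.A202E_330
    · exact corW_cert (G1 := gB3q2) (G2 := gB3q0) (Ga := gB1q2) (Gb := gB2q2) (D1 := dB3q2) (D2 := dB3q0) (Da := dB1q2) (Db := dB2q2) cA202E_ok B hρ hen (gatB32 x) (gatB30 x) (fun _ => gatB12 x) (fun _ => gatB22 x) (datB32 x) (datB30 x) (fun _ => datB12 x) (fun _ => datB22 x) hd hx hx' CW.A202E_331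
    · exact corW_cert (G1 := gB3q2) (G2 := gB3q0) (Ga := gB2q2) (Gb := gB3q2) (D1 := dB3q2) (D2 := dB3q0) (Da := dB2q2) (Db := dB3q2) cA202E_ok B hρ hen (gatB32 x) (gatB30 x) (fun _ => gatB22 x) (fun _ => gatB32 x) (datB32 x) (datB30 x) (fun _ => datB22 x) (fun _ => datB32 x) hd hx hx' CW.A202E_332
    · exact corW_cert (G1 := gB3q2) (G2 := gB3q0) (Ga := gB3q2) (Gb := gB4q2) (D1 := dB3q2) (D2 := dB3q0) (Da := dB3q2) (Db := dB4q2) cA202E_ok B hρ hen (gatB32 x) (gatB30 x) (fun _ => gatB32 x) (fun _ => gatB42 x) (datB32 x) (datB30 x) (fun _ => datB32 x) (fun _ => datB42 x) hd hx hx' CW.A202E_333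
    · exact corW_cert (G1 := gB3q2) (G2 := gB3q0) (Ga := gB4q2) (Gb := gB5q2) (D1 := dB3q2) (D2 := dB3q0) (Da := dB4q2) (Db := dB5q2) cA202E_ok B hρ hen (gatB32 x) (gatB30 x) (fun _ => gatB42 x) (fun h => absurd h (by decide)) (datB32 x) (datB30 x) (fun _ => datB42 x) (fun h => absurd h (by decide)) hd hx hx' CW.A202E_334
    · exact absurd h2 (by norm_num)
    · exact absurd h2 (by norm_num)
  · intro ρ a B hρ hd i h1 h2
    fin_cases i
    · exact corT_cert (G1 := gB3q2) (G2 := gB3q0) (Ga := gB0q2) (Gb := gB1q2) cA202E_ok B hρ (gatB32 x) (gatB30 x) (fun _ => gatB02 x) (fun _ => gatB12 x) hd hx hx' CG.A202E_330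
    · exact corT_cert (G1 := gB3q2) (G2 := gB3q0) (Ga := gB1q2) (Gb := gB2q2) cA202E_ok B hρ (gatB32 x) (gatB30 x) (fun _ => gatB12 x) (fun _ => gatB22 x) hd hx hx' CG.A202E_331
    · exact corT_cert (G1 := gB3q2) (G2 := gB3q0) (Ga := gB2q2) (Gb := gB3q2) cA202E_ok B hρ (gatB32 x) (gatB30 x) (fun _ => gatB22 x) (fun _ => gatB32 x) hd hx hx' CG.A202E_332
    · exact corT_cert (G1 := gB3q2) (G2 := gB3q0) (Ga := gB3q2) (Gb := gB4q2) cA202E_ok B hρ (gatB32 x) (gatB30 x) (fun _ => gatB32 x) (fun _ => gatB42 x) hd hx hx' CG.A202E_333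
    · exact corT_cert (G1 := gB3q2) (G2 := gB3q0) (Ga := gB4q2) (Gb := gB5q2) cA202E_ok B hρ (gatB32 x) (gatB30 x) (fun _ => gatB42 x) (fun h => absurd h (by decide)) hd hx hx' CG.A202E_334
    · exact absurd h2 (by norm_num)
    · exact absurd h2 (by norm_num)

theorem altB_A202E_34 {κ x : ℝ} (hκ : κ * h0 = ken x) (hx : ((697932185 : ℕ) : ℝ) / S ≤ x) (hx' : x ≤ (((697932185 : ℕ) : ℝ) + (42949674 : ℕ)) / S) :
    AltEA 3 κ (eng.v x) (3 / 40) (tnt (h0 * x) (3 / 10)) PP tK tL tC pcB (scP esg pd) [⟨0, 1, 0, 67108864⟩, ⟨1, 0, 0, 67108864⟩, ⟨2, 1, 0, 67108864⟩] 2 0 2 3 4 (sgb true) (sgb false) x := by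
  have X : XR 67108864 x := XR.of hx hx' (by norm_num) (by norm_num) (by norm_num) (by norm_num)
  have hen : 0 < eng.v x := en_pos X.x0.le
  refine CornW.altA (C := cA202E) (j := (3 : Fin 8)) (k := (4 : Fin 8)) (Ef := esg) (pd := pd) (o := 3 / 40)
    (cornW_of (C := cA202E) (C0 := c0B) (En := eng) (mo := mog) (j := (3 : Fin 8)) (k := (4 : Fin 8)) (lo := 0) (hi := 4) (W := 67108864) (N0 := 3) cA202E_q (sideB hx hx') gokB (pinU hx hx') dokB X (by norm_num) (by norm_num) (l := (0 : Fin 8)) rfl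
      (gatB32 x) (gatB40 x) (gatB02 x) (datB32 x) (datB40 x) (datB02 x) ?_)
    (cornS_of (C := cA202E) (C0 := c0B) (j := (3 : Fin 8)) (k := (4 : Fin 8)) (lo := 0) (hi := 4) (W := 67108864) (N0 := 3) cA202E_q (sideB hx hx') gokB X (by norm_num) (by norm_num) (l := (0 : Fin 8)) rfl
      (gatB32 x) (gatB40 x) (gatB02 x) ?_)
    (thU (pinU hx hx')) rfl hκ (fun j q y => tC_eq j q y x) (esg_rng X.x0.le (by linarith [X.b, X.p0])).1 (mo_v x) le_rfl le_rfl
  · intro ρ a B hρ hd i h1 h2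
    fin_cases i
    · exact corW_cert (G1 := gB3q2) (G2 := gB4q0) (Ga := gB0q2) (Gb := gB1q2) (D1 := dB3q2) (D2 := dB4q0) (Da := dB0q2) (Db := dB1q2) cA202E_ok B hρ hen (gatB32 x) (gatB40 x) (fun _ => gatB02 x) (fun _ => gatB12 x) (datB32 x) (datB40 x) (fun _ => datB02 x) (fun _ => datB12 x) hd hx hx' CW.A202E_340
    · exact corW_cert (G1 := gB3q2) (G2 := gB4q0) (Ga := gB1q2) (Gb := gB2q2) (D1 := dB3q2) (D2 := dB4q0) (Da := dB1q2) (Db := dB2q2) cA202E_ok B hρ hen (gatB32 x) (gatB40 x) (fun _ => gatB12 x) (fun _ => gatB22 x) (datB32 x) (datB40 x) (fun _ => datB12 x) (fun _ => datB22 x) hd hx hx' CW.A202E_341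
    · exact corW_cert (G1 := gB3q2) (G2 := gB4q0) (Ga := gB2q2) (Gb := gB3q2) (D1 := dB3q2) (D2 := dB4q0) (Da := dB2q2) (Db := dB3q2) cA202E_ok B hρ hen (gatB32 x) (gatB40 x) (fun _ => gatB22 x) (fun _ => gatB32 x) (datB32 x) (datB40 x) (fun _ => datB22 x) (fun _ => datB32 x) hd hx hx' CW.A202E_342
    · exact corW_cert (G1 := gB3q2) (G2 := gB4q0) (Ga := gB3q2) (Gb := gB4q2) (D1 := dB3q2) (D2 := dB4q0) (Da := dB3q2) (Db := dB4q2) cA202E_ok B hρ hen (gatB32 x) (gatB40 x) (fun _ => gatB32 x) (fun _ => gatB42 x) (datB32 x) (datB40 x) (fun _ => datB32 x) (fun _ => datB42 x) hd hx hx' CW.A202E_343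
    · exact corW_cert (G1 := gB3q2) (G2 := gB4q0) (Ga := gB4q2) (Gb := gB5q2) (D1 := dB3q2) (D2 := dB4q0) (Da := dB4q2) (Db := dB5q2) cA202E_ok B hρ hen (gatB32 x) (gatB40 x) (fun _ => gatB42 x) (fun h => absurd h (by decide)) (datB32 x) (datB40 x) (fun _ => datB42 x) (fun h => absurd h (by decide)) hd hx hx' CW.A202E_344
    · exact absurd h2 (by norm_num)
    · exact absurd h2 (by norm_num)
  · intro ρ a B hρ hd i h1 h2
    fin_cases i
    · exact corT_cert (G1 := gB3q2) (G2 := gB4q0) (Ga := gB0q2) (Gb := gB1q2) cA202E_ok B hρ (gatB32 x) (gatB40 x) (fun _ => gatB02 x) (fun _ => gatB12 x) hd hx hx' CG.A202E_340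
    · exact corT_cert (G1 := gB3q2) (G2 := gB4q0) (Ga := gB1q2) (Gb := gB2q2) cA202E_ok B hρ (gatB32 x) (gatB40 x) (fun _ => gatB12 x) (fun _ => gatB22 x) hd hx hx' CG.A202E_341
    · exact corT_cert (G1 := gB3q2) (G2 := gB4q0) (Ga := gB2q2) (Gb := gB3q2) cA202E_ok B hρ (gatB32 x) (gatB40 x) (fun _ => gatB22 x) (fun _ => gatB32 x) hd hx hx' CG.A202E_342
    · exact corT_cert (G1 := gB3q2) (G2 := gB4q0) (Ga := gB3q2) (Gb := gB4q2) cA202E_ok B hρ (gatB32 x) (gatB40 x) (fun _ => gatB32 x) (fun _ => gatB42 x) hd hx hx' CG.A202E_343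
    · exact corT_cert (G1 := gB3q2) (G2 := gB4q0) (Ga := gB4q2) (Gb := gB5q2) cA202E_ok B hρ (gatB32 x) (gatB40 x) (fun _ => gatB42 x) (fun h => absurd h (by decide)) hd hx hx' CG.A202E_344
    · exact absurd h2 (by norm_num)
    · exact absurd h2 (by norm_num)

theorem altB_A202E_44 {κ x : ℝ} (hκ : κ * h0 = ken x) (hx : ((697932185 : ℕ) : ℝ) / S ≤ x) (hx' : x ≤ (((697932185 : ℕ) : ℝ) + (42949674 : ℕ)) / S) :
    AltEA 3 κ (eng.v x) (3 / 40) (tnt (h0 * x) (3 / 10)) PP tK tL tC pcB (scP esg pd) [⟨0, 1, 0, 67108864⟩, ⟨1, 0, 0, 67108864⟩, ⟨2, 1, 0, 67108864⟩] 2 0 2 4 4 (sgb true) (sgb false) x := by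
  have X : XR 67108864 x := XR.of hx hx' (by norm_num) (by norm_num) (by norm_num) (by norm_num)
  have hen : 0 < eng.v x := en_pos X.x0.le
  refine CornW.altA (C := cA202E) (j := (4 : Fin 8)) (k := (4 : Fin 8)) (Ef := esg) (pd := pd) (o := 3 / 40)
    (cornW_of (C := cA202E) (C0 := c0B) (En := eng) (mo := mog) (j := (4 : Fin 8)) (k := (4 : Fin 8)) (lo := 0) (hi := 4) (W := 67108864) (N0 := 3) cA202E_q (sideB hx hx') gokB (pinU hx hx') dokB X (by norm_num) (by norm_num) (l := (0 : Fin 8)) rfl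
      (gatB42 x) (gatB40 x) (gatB02 x) (datB42 x) (datB40 x) (datB02 x) ?_)
    (cornS_of (C := cA202E) (C0 := c0B) (j := (4 : Fin 8)) (k := (4 : Fin 8)) (lo := 0) (hi := 4) (W := 67108864) (N0 := 3) cA202E_q (sideB hx hx') gokB X (by norm_num) (by norm_num) (l := (0 : Fin 8)) rfl
      (gatB42 x) (gatB40 x) (gatB02 x) ?_)
    (thU (pinU hx hx')) rfl hκ (fun j q y => tC_eq j q y x) (esg_rng X.x0.le (by linarith [X.b, X.p0])).1 (mo_v x) le_rfl le_rfl
  · intro ρ a B hρ hd i h1 h2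
    fin_cases i
    · exact corW_cert (G1 := gB4q2) (G2 := gB4q0) (Ga := gB0q2) (Gb := gB1q2) (D1 := dB4q2) (D2 := dB4q0) (Da := dB0q2) (Db := dB1q2) cA202E_ok B hρ hen (gatB42 x) (gatB40 x) (fun _ => gatB02 x) (fun _ => gatB12 x) (datB42 x) (datB40 x) (fun _ => datB02 x) (fun _ => datB12 x) hd hx hx' CW.A202E_440
    · exact corW_cert (G1 := gB4q2) (G2 := gB4q0) (Ga := gB1q2) (Gb := gB2q2) (D1 := dB4q2) (D2 := dB4q0) (Da := dB1q2) (Db := dB2q2) cA202E_ok B hρ hen (gatB42 x) (gatB40 x) (fun _ => gatB12 x) (fun _ => gatB22 x) (datB42 x) (datB40 x) (fun _ => datB12 x) (fun _ => datB22 x) hd hx hx' CW.A202E_441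
    · exact corW_cert (G1 := gB4q2) (G2 := gB4q0) (Ga := gB2q2) (Gb := gB3q2) (D1 := dB4q2) (D2 := dB4q0) (Da := dB2q2) (Db := dB3q2) cA202E_ok B hρ hen (gatB42 x) (gatB40 x) (fun _ => gatB22 x) (fun _ => gatB32 x) (datB42 x) (datB40 x) (fun _ => datB22 x) (fun _ => datB32 x) hd hx hx' CW.A202E_442
    · exact corW_cert (G1 := gB4q2) (G2 := gB4q0) (Ga := gB3q2) (Gb := gB4q2) (D1 := dB4q2) (D2 := dB4q0) (Da := dB3q2) (Db := dB4q2) cA202E_ok B hρ hen (gatB42 x) (gatB40 x) (fun _ => gatB32 x) (fun _ => gatB42 x) (datB42 x) (datB40 x) (fun _ => datB32 x) (fun _ => datB42 x) hd hx hx' CW.A202E_443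
    · exact corW_cert (G1 := gB4q2) (G2 := gB4q0) (Ga := gB4q2) (Gb := gB5q2) (D1 := dB4q2) (D2 := dB4q0) (Da := dB4q2) (Db := dB5q2) cA202E_ok B hρ hen (gatB42 x) (gatB40 x) (fun _ => gatB42 x) (fun h => absurd h (by decide)) (datB42 x) (datB40 x) (fun _ => datB42 x) (fun h => absurd h (by decide)) hd hx hx' CW.A202E_444
    · exact absurd h2 (by norm_num)
    · exact absurd h2 (by norm_num)
  · intro ρ a B hρ hd i h1 h2
    fin_cases i
    · exact corT_cert (G1 := gB4q2) (G2 := gB4q0) (Ga := gB0q2) (Gb := gB1q2) cA202E_ok B hρ (gatB42 x) (gatB40 x) (fun _ => gatB02 x) (fun _ => gatB12 x) hd hx hx' CG.A202E_440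
    · exact corT_cert (G1 := gB4q2) (G2 := gB4q0) (Ga := gB1q2) (Gb := gB2q2) cA202E_ok B hρ (gatB42 x) (gatB40 x) (fun _ => gatB12 x) (fun _ => gatB22 x) hd hx hx' CG.A202E_441
    · exact corT_cert (G1 := gB4q2) (G2 := gB4q0) (Ga := gB2q2) (Gb := gB3q2) cA202E_ok B hρ (gatB42 x) (gatB40 x) (fun _ => gatB22 x) (fun _ => gatB32 x) hd hx hx' CG.A202E_442
    · exact corT_cert (G1 := gB4q2) (G2 := gB4q0) (Ga := gB3q2) (Gb := gB4q2) cA202E_ok B hρ (gatB42 x) (gatB40 x) (fun _ => gatB32 x) (fun _ => gatB42 x) hd hx hx' CG.A202E_443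
    · exact corT_cert (G1 := gB4q2) (G2 := gB4q0) (Ga := gB4q2) (Gb := gB5q2) cA202E_ok B hρ (gatB42 x) (gatB40 x) (fun _ => gatB42 x) (fun h => absurd h (by decide)) hd hx hx' CG.A202E_444
    · exact absurd h2 (by norm_num)
    · exact absurd h2 (by norm_num)

theorem altB_A202R_00 {κ x : ℝ} (hκ : κ * h0 = ken x) (hx : ((697932185 : ℕ) : ℝ) / S ≤ x) (hx' : x ≤ (((697932185 : ℕ) : ℝ) + (42949674 : ℕ)) / S) :
    AltEA 3 κ (eng.v x) (3 / 40) (tnt (h0 * x) (3 / 10)) PP tK tL tC pcB (scP esg pd) [⟨0, 1, 0, 53687091⟩, ⟨1, 0, 0, 53687091⟩, ⟨2, 1, 0, 53687091⟩] 2 0 2 0 0 (sgb false) (sgb false) x := by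
  have X : XR 53687091 x := XR.of hx hx' (by norm_num) (by norm_num) (by norm_num) (by norm_num)
  have hen : 0 < eng.v x := en_pos X.x0.le
  refine CornW.altA (C := cA202R) (j := (0 : Fin 8)) (k := (0 : Fin 8)) (Ef := esg) (pd := pd) (o := 3 / 40)
    (cornW_of (C := cA202R) (C0 := c0B) (En := eng) (mo := mog) (j := (0 : Fin 8)) (k := (0 : Fin 8)) (lo := 7) (hi := 7) (W := 53687091) (N0 := 3) cA202R_q (sideB hx hx') gokB (pinU hx hx') dokB X (by norm_num) (by norm_num) (l := (7 : Fin 8)) rfl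
      (gatB02 x) (gatB00 x) (gatB72 x) (datB02 x) (datB00 x) (datB72 x) ?_)
    (cornS_of (C := cA202R) (C0 := c0B) (j := (0 : Fin 8)) (k := (0 : Fin 8)) (lo := 7) (hi := 7) (W := 53687091) (N0 := 3) cA202R_q (sideB hx hx') gokB X (by norm_num) (by norm_num) (l := (7 : Fin 8)) rfl
      (gatB02 x) (gatB00 x) (gatB72 x) ?_)
    (thU (pinU hx hx')) rfl hκ (fun j q y => tC_eq j q y x) (esg_rng X.x0.le (by linarith [X.b, X.p0])).1 (mo_v x) le_rfl le_rfl
  · intro ρ a B hρ hd i h1 h2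
    fin_cases i
    · exact absurd h1 (by norm_num)
    · exact absurd h1 (by norm_num)
    · exact absurd h1 (by norm_num)
    · exact absurd h1 (by norm_num)
    · exact absurd h1 (by norm_num)
    · exact absurd h1 (by norm_num)
    · exact corW_cert (G1 := gB0q2) (G2 := gB0q0) (Ga := gB6q2) (Gb := gB7q2) (D1 := dB0q2) (D2 := dB0q0) (Da := dB6q2) (Db := dB7q2) cA202R_ok B hρ hen (gatB02 x) (gatB00 x) (fun h => absurd h (by decide)) (fun _ => gatB72 x) (datB02 x) (datB00 x) (fun h => absurd h (by decide)) (fun _ => datB72 x) hd hx hx' CW.A202R_006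
  · intro ρ a B hρ hd i h1 h2
    fin_cases i
    · exact absurd h1 (by norm_num)
    · exact absurd h1 (by norm_num)
    · exact absurd h1 (by norm_num)
    · exact absurd h1 (by norm_num)
    · exact absurd h1 (by norm_num)
    · exact absurd h1 (by norm_num)
    · exact corX_cert (G1 := gB0q2) (G2 := gB0q0) (Ga := gB6q2) (Gb := gB7q2) (GT := gB7q2) cA202R_ok tA202R_ok B hρ (gatB02 x) (gatB00 x) (fun h => absurd h (by decide)) (fun _ => gatB72 x) rfl (tgh_A202R (kodd x) (gpu2 x) (gpu0 x) (gpt2 x) (gatB02 x) (gatB00 x) (gatB72 x) B (le_sixteenth hd (by norm_num))) hd hx hx' CG.A202R_006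

theorem altB_A202R_01 {κ x : ℝ} (hκ : κ * h0 = ken x) (hx : ((697932185 : ℕ) : ℝ) / S ≤ x) (hx' : x ≤ (((697932185 : ℕ) : ℝ) + (42949674 : ℕ)) / S) :
    AltEA 3 κ (eng.v x) (3 / 40) (tnt (h0 * x) (3 / 10)) PP tK tL tC pcB (scP esg pd) [⟨0, 1, 0, 67108864⟩, ⟨1, 0, 0, 67108864⟩, ⟨2, 1, 0, 67108864⟩] 2 0 2 0 1 (sgb false) (sgb false) x := by
  have X : XR 67108864 x := XR.of hx hx' (by norm_num) (by norm_num) (by norm_num) (by norm_num)
  have hen : 0 < eng.v x := en_pos X.x0.le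
  refine CornW.altA (C := cA202R) (j := (0 : Fin 8)) (k := (1 : Fin 8)) (Ef := esg) (pd := pd) (o := 3 / 40)
    (cornW_of (C := cA202R) (C0 := c0B) (En := eng) (mo := mog) (j := (0 : Fin 8)) (k := (1 : Fin 8)) (lo := 7) (hi := 7) (W := 67108864) (N0 := 3) cA202R_q (sideB hx hx') gokB (pinU hx hx') dokB X (by norm_num) (by norm_num) (l := (7 : Fin 8)) rfl
      (gatB02 x) (gatB10 x) (gatB72 x) (datB02 x) (datB10 x) (datB72 x) ?_)
    (cornS_of (C := cA202R) (C0 := c0B) (j := (0 : Fin 8)) (k := (1 : Fin 8)) (lo := 7) (hi := 7) (W := 67108864) (N0 := 3) cA202R_q (sideB hx hx') gokB X (by norm_num) (by norm_num) (l := (7 : Fin 8)) rfl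
      (gatB02 x) (gatB10 x) (gatB72 x) ?_)
    (thU (pinU hx hx')) rfl hκ (fun j q y => tC_eq j q y x) (esg_rng X.x0.le (by linarith [X.b, X.p0])).1 (mo_v x) le_rfl le_rfl
  · intro ρ a B hρ hd i h1 h2
    fin_cases i
    · exact absurd h1 (by norm_num)
    · exact absurd h1 (by norm_num)
    · exact absurd h1 (by norm_num)
    · exact absurd h1 (by norm_num)
    · exact absurd h1 (by norm_num)
    · exact absurd h1 (by norm_num)
    · exact corW_cert (G1 := gB0q2) (G2 := gB1q0) (Ga := gB6q2) (Gb := gB7q2) (D1 := dB0q2) (D2 := dB1q0) (Da := dB6q2) (Db := dB7q2) cA202R_ok B hρ hen (gatB02 x) (gatB10 x) (fun h => absurd h (by decide)) (fun _ => gatB72 x) (datB02 x) (datB10 x) (fun h => absurd h (by decide)) (fun _ => datB72 x) hd hx hx' CW.A202R_016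
  · intro ρ a B hρ hd i h1 h2
    fin_cases i
    · exact absurd h1 (by norm_num)
    · exact absurd h1 (by norm_num)
    · exact absurd h1 (by norm_num)
    · exact absurd h1 (by norm_num)
    · exact absurd h1 (by norm_num)
    · exact absurd h1 (by norm_num)
    · exact corT_cert (G1 := gB0q2) (G2 := gB1q0) (Ga := gB6q2) (Gb := gB7q2) cA202R_ok B hρ (gatB02 x) (gatB10 x) (fun h => absurd h (by decide)) (fun _ => gatB72 x) hd hx hx' CG.A202R_016

theorem altB_A202R_02 {κ x : ℝ} (hκ : κ * h0 = ken x) (hx : ((697932185 : ℕ) : ℝ) / S ≤ x) (hx' : x ≤ (((697932185 : ℕ) : ℝ) + (42949674 : ℕ)) / S) :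
    AltEA 3 κ (eng.v x) (3 / 40) (tnt (h0 * x) (3 / 10)) PP tK tL tC pcB (scP esg pd) [⟨0, 1, 0, 67108864⟩, ⟨1, 0, 0, 67108864⟩, ⟨2, 1, 0, 67108864⟩] 2 0 2 0 2 (sgb false) (sgb false) x := by
  have X : XR 67108864 x := XR.of hx hx' (by norm_num) (by norm_num) (by norm_num) (by norm_num)
  have hen : 0 < eng.v x := en_pos X.x0.le
  refine CornW.altA (C := cA202R) (j := (0 : Fin 8)) (k := (2 : Fin 8)) (Ef := esg) (pd := pd) (o := 3 / 40)
    (cornW_of (C := cA202R) (C0 := c0B) (En := eng) (mo := mog) (j := (0 : Fin 8)) (k := (2 : Fin 8)) (lo := 7) (hi := 7) (W := 67108864) (N0 := 3) cA202R_q (sideB hx hx') gokB (pinU hx hx') dokB X (by norm_num) (by norm_num) (l := (7 : Fin 8)) rfl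
      (gatB02 x) (gatB20 x) (gatB72 x) (datB02 x) (datB20 x) (datB72 x) ?_)
    (cornS_of (C := cA202R) (C0 := c0B) (j := (0 : Fin 8)) (k := (2 : Fin 8)) (lo := 7) (hi := 7) (W := 67108864) (N0 := 3) cA202R_q (sideB hx hx') gokB X (by norm_num) (by norm_num) (l := (7 : Fin 8)) rfl
      (gatB02 x) (gatB20 x) (gatB72 x) ?_)
    (thU (pinU hx hx')) rfl hκ (fun j q y => tC_eq j q y x) (esg_rng X.x0.le (by linarith [X.b, X.p0])).1 (mo_v x) le_rfl le_rfl
  · intro ρ a B hρ hd i h1 h2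
    fin_cases i
    · exact absurd h1 (by norm_num)
    · exact absurd h1 (by norm_num)
    · exact absurd h1 (by norm_num)
    · exact absurd h1 (by norm_num)
    · exact absurd h1 (by norm_num)
    · exact absurd h1 (by norm_num)
    · exact corW_cert (G1 := gB0q2) (G2 := gB2q0) (Ga := gB6q2) (Gb := gB7q2) (D1 := dB0q2) (D2 := dB2q0) (Da := dB6q2) (Db := dB7q2) cA202R_ok B hρ hen (gatB02 x) (gatB20 x) (fun h => absurd h (by decide)) (fun _ => gatB72 x) (datB02 x) (datB20 x) (fun h => absurd h (by decide)) (fun _ => datB72 x) hd hx hx' CW.A202R_026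
  · intro ρ a B hρ hd i h1 h2
    fin_cases i
    · exact absurd h1 (by norm_num)
    · exact absurd h1 (by norm_num)
    · exact absurd h1 (by norm_num)
    · exact absurd h1 (by norm_num)
    · exact absurd h1 (by norm_num)
    · exact absurd h1 (by norm_num)
    · exact corT_cert (G1 := gB0q2) (G2 := gB2q0) (Ga := gB6q2) (Gb := gB7q2) cA202R_ok B hρ (gatB02 x) (gatB20 x) (fun h => absurd h (by decide)) (fun _ => gatB72 x) hd hx hx' CG.A202R_026

theorem altB_A202R_03 {κ x : ℝ} (hκ : κ * h0 = ken x) (hx : ((697932185 : ℕ) : ℝ) / S ≤ x) (hx' : x ≤ (((697932185 : ℕ) : ℝ) + (42949674 : ℕ)) / S) :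
    AltEA 3 κ (eng.v x) (3 / 40) (tnt (h0 * x) (3 / 10)) PP tK tL tC pcB (scP esg pd) [⟨0, 1, 0, 67108864⟩, ⟨1, 0, 0, 67108864⟩, ⟨2, 1, 0, 67108864⟩] 2 0 2 0 3 (sgb false) (sgb false) x := by
  have X : XR 67108864 x := XR.of hx hx' (by norm_num) (by norm_num) (by norm_num) (by norm_num)
  have hen : 0 < eng.v x := en_pos X.x0.le
  refine CornW.altA (C := cA202R) (j := (0 : Fin 8)) (k := (3 : Fin 8)) (Ef := esg) (pd := pd) (o := 3 / 40)
    (cornW_of (C := cA202R) (C0 := c0B) (En := eng) (mo := mog) (j := (0 : Fin 8)) (k := (3 : Fin 8)) (lo := 7) (hi := 7) (W := 67108864) (N0 := 3) cA202R_q (sideB hx hx') gokB (pinU hx hx') dokB X (by norm_num) (by norm_num) (l := (7 : Fin 8)) rfl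
      (gatB02 x) (gatB30 x) (gatB72 x) (datB02 x) (datB30 x) (datB72 x) ?_)
    (cornS_of (C := cA202R) (C0 := c0B) (j := (0 : Fin 8)) (k := (3 : Fin 8)) (lo := 7) (hi := 7) (W := 67108864) (N0 := 3) cA202R_q (sideB hx hx') gokB X (by norm_num) (by norm_num) (l := (7 : Fin 8)) rfl
      (gatB02 x) (gatB30 x) (gatB72 x) ?_)
    (thU (pinU hx hx')) rfl hκ (fun j q y => tC_eq j q y x) (esg_rng X.x0.le (by linarith [X.b, X.p0])).1 (mo_v x) le_rfl le_rfl
  · intro ρ a B hρ hd i h1 h2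
    fin_cases i
    · exact absurd h1 (by norm_num)
    · exact absurd h1 (by norm_num)
    · exact absurd h1 (by norm_num)
    · exact absurd h1 (by norm_num)
    · exact absurd h1 (by norm_num)
    · exact absurd h1 (by norm_num)
    · exact corW_cert (G1 := gB0q2) (G2 := gB3q0) (Ga := gB6q2) (Gb := gB7q2) (D1 := dB0q2) (D2 := dB3q0) (Da := dB6q2) (Db := dB7q2) cA202R_ok B hρ hen (gatB02 x) (gatB30 x) (fun h => absurd h (by decide)) (fun _ => gatB72 x) (datB02 x) (datB30 x) (fun h => absurd h (by decide)) (fun _ => datB72 x) hd hx hx' CW.A202R_036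
  · intro ρ a B hρ hd i h1 h2
    fin_cases i
    · exact absurd h1 (by norm_num)
    · exact absurd h1 (by norm_num)
    · exact absurd h1 (by norm_num)
    · exact absurd h1 (by norm_num)
    · exact absurd h1 (by norm_num)
    · exact absurd h1 (by norm_num)
    · exact corT_cert (G1 := gB0q2) (G2 := gB3q0) (Ga := gB6q2) (Gb := gB7q2) cA202R_ok B hρ (gatB02 x) (gatB30 x) (fun h => absurd h (by decide)) (fun _ => gatB72 x) hd hx hx' CG.A202R_036

theorem altB_A202R_04 {κ x : ℝ} (hκ : κ * h0 = ken x) (hx : ((697932185 : ℕ) : ℝ) / S ≤ x) (hx' : x ≤ (((697932185 : ℕ) : ℝ) + (42949674 : ℕ)) / S) :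
    AltEA 3 κ (eng.v x) (3 / 40) (tnt (h0 * x) (3 / 10)) PP tK tL tC pcB (scP esg pd) [⟨0, 1, 0, 67108864⟩, ⟨1, 0, 0, 67108864⟩, ⟨2, 1, 0, 67108864⟩] 2 0 2 0 4 (sgb false) (sgb false) x := by
  have X : XR 67108864 x := XR.of hx hx' (by norm_num) (by norm_num) (by norm_num) (by norm_num)
  have hen : 0 < eng.v x := en_pos X.x0.le
  refine CornW.altA (C := cA202R) (j := (0 : Fin 8)) (k := (4 : Fin 8)) (Ef := esg) (pd := pd) (o := 3 / 40)
    (cornW_of (C := cA202R) (C0 := c0B) (En := eng) (mo := mog) (j := (0 : Fin 8)) (k := (4 : Fin 8)) (lo := 7) (hi := 7) (W := 67108864) (N0 := 3) cA202R_q (sideB hx hx') gokB (pinU hx hx') dokB X (by norm_num) (by norm_num) (l := (7 : Fin 8)) rfl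
      (gatB02 x) (gatB40 x) (gatB72 x) (datB02 x) (datB40 x) (datB72 x) ?_)
    (cornS_of (C := cA202R) (C0 := c0B) (j := (0 : Fin 8)) (k := (4 : Fin 8)) (lo := 7) (hi := 7) (W := 67108864) (N0 := 3) cA202R_q (sideB hx hx') gokB X (by norm_num) (by norm_num) (l := (7 : Fin 8)) rfl
      (gatB02 x) (gatB40 x) (gatB72 x) ?_)
    (thU (pinU hx hx')) rfl hκ (fun j q y => tC_eq j q y x) (esg_rng X.x0.le (by linarith [X.b, X.p0])).1 (mo_v x) le_rfl le_rfl
  · intro ρ a B hρ hd i h1 h2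
    fin_cases i
    · exact absurd h1 (by norm_num)
    · exact absurd h1 (by norm_num)
    · exact absurd h1 (by norm_num)
    · exact absurd h1 (by norm_num)
    · exact absurd h1 (by norm_num)
    · exact absurd h1 (by norm_num)
    · exact corW_cert (G1 := gB0q2) (G2 := gB4q0) (Ga := gB6q2) (Gb := gB7q2) (D1 := dB0q2) (D2 := dB4q0) (Da := dB6q2) (Db := dB7q2) cA202R_ok B hρ hen (gatB02 x) (gatB40 x) (fun h => absurd h (by decide)) (fun _ => gatB72 x) (datB02 x) (datB40 x) (fun h => absurd h (by decide)) (fun _ => datB72 x) hd hx hx' CW.A202R_046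
  · intro ρ a B hρ hd i h1 h2
    fin_cases i
    · exact absurd h1 (by norm_num)
    · exact absurd h1 (by norm_num)
    · exact absurd h1 (by norm_num)
    · exact absurd h1 (by norm_num)
    · exact absurd h1 (by norm_num)
    · exact absurd h1 (by norm_num)
    · exact corT_cert (G1 := gB0q2) (G2 := gB4q0) (Ga := gB6q2) (Gb := gB7q2) cA202R_ok B hρ (gatB02 x) (gatB40 x) (fun h => absurd h (by decide)) (fun _ => gatB72 x) hd hx hx' CG.A202R_046

theorem altB_A202R_11 {κ x : ℝ} (hκ : κ * h0 = ken x) (hx : ((697932185 : ℕ) : ℝ) / S ≤ x) (hx' : x ≤ (((697932185 : ℕ) : ℝ) + (42949674 : ℕ)) / S) :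
    AltEA 3 κ (eng.v x) (3 / 40) (tnt (h0 * x) (3 / 10)) PP tK tL tC pcB (scP esg pd) [⟨0, 1, 0, 67108864⟩, ⟨1, 0, 0, 67108864⟩, ⟨2, 1, 0, 67108864⟩] 2 0 2 1 1 (sgb false) (sgb false) x := by
  have X : XR 67108864 x := XR.of hx hx' (by norm_num) (by norm_num) (by norm_num) (by norm_num)
  have hen : 0 < eng.v x := en_pos X.x0.le
  refine CornW.altA (C := cA202R) (j := (1 : Fin 8)) (k := (1 : Fin 8)) (Ef := esg) (pd := pd) (o := 3 / 40)
    (cornW_of (C := cA202R) (C0 := c0B) (En := eng) (mo := mog) (j := (1 : Fin 8)) (k := (1 : Fin 8)) (lo := 7) (hi := 7) (W := 67108864) (N0 := 3) cA202R_q (sideB hx hx') gokB (pinU hx hx') dokB X (by norm_num) (by norm_num) (l := (7 : Fin 8)) rfl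
      (gatB12 x) (gatB10 x) (gatB72 x) (datB12 x) (datB10 x) (datB72 x) ?_)
    (cornS_of (C := cA202R) (C0 := c0B) (j := (1 : Fin 8)) (k := (1 : Fin 8)) (lo := 7) (hi := 7) (W := 67108864) (N0 := 3) cA202R_q (sideB hx hx') gokB X (by norm_num) (by norm_num) (l := (7 : Fin 8)) rfl
      (gatB12 x) (gatB10 x) (gatB72 x) ?_)
    (thU (pinU hx hx')) rfl hκ (fun j q y => tC_eq j q y x) (esg_rng X.x0.le (by linarith [X.b, X.p0])).1 (mo_v x) le_rfl le_rfl
  · intro ρ a B hρ hd i h1 h2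
    fin_cases i
    · exact absurd h1 (by norm_num)
    · exact absurd h1 (by norm_num)
    · exact absurd h1 (by norm_num)
    · exact absurd h1 (by norm_num)
    · exact absurd h1 (by norm_num)
    · exact absurd h1 (by norm_num)
    · exact corW_cert (G1 := gB1q2) (G2 := gB1q0) (Ga := gB6q2) (Gb := gB7q2) (D1 := dB1q2) (D2 := dB1q0) (Da := dB6q2) (Db := dB7q2) cA202R_ok B hρ hen (gatB12 x) (gatB10 x) (fun h => absurd h (by decide)) (fun _ => gatB72 x) (datB12 x) (datB10 x) (fun h => absurd h (by decide)) (fun _ => datB72 x) hd hx hx' CW.A202R_116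
  · intro ρ a B hρ hd i h1 h2
    fin_cases i
    · exact absurd h1 (by norm_num)
    · exact absurd h1 (by norm_num)
    · exact absurd h1 (by norm_num)
    · exact absurd h1 (by norm_num)
    · exact absurd h1 (by norm_num)
    · exact absurd h1 (by norm_num)
    · exact corT_cert (G1 := gB1q2) (G2 := gB1q0) (Ga := gB6q2) (Gb := gB7q2) cA202R_ok B hρ (gatB12 x) (gatB10 x) (fun h => absurd h (by decide)) (fun _ => gatB72 x) hd hx hx' CG.A202R_116

theorem altB_A202R_12 {κ x : ℝ} (hκ : κ * h0 = ken x) (hx : ((697932185 : ℕ) : ℝ) / S ≤ x) (hx' : x ≤ (((697932185 : ℕ) : ℝ) + (42949674 : ℕ)) / S) :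
    AltEA 3 κ (eng.v x) (3 / 40) (tnt (h0 * x) (3 / 10)) PP tK tL tC pcB (scP esg pd) [⟨0, 1, 0, 67108864⟩, ⟨1, 0, 0, 67108864⟩, ⟨2, 1, 0, 67108864⟩] 2 0 2 1 2 (sgb false) (sgb false) x := by
  have X : XR 67108864 x := XR.of hx hx' (by norm_num) (by norm_num) (by norm_num) (by norm_num)
  have hen : 0 < eng.v x := en_pos X.x0.le
  refine CornW.altA (C := cA202R) (j := (1 : Fin 8)) (k := (2 : Fin 8)) (Ef := esg) (pd := pd) (o := 3 / 40)
    (cornW_of (C := cA202R) (C0 := c0B) (En := eng) (mo := mog) (j := (1 : Fin 8)) (k := (2 : Fin 8)) (lo := 7) (hi := 7) (W := 67108864) (N0 := 3) cA202R_q (sideB hx hx') gokB (pinU hx hx') dokB X (by norm_num) (by norm_num) (l := (7 : Fin 8)) rfl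
      (gatB12 x) (gatB20 x) (gatB72 x) (datB12 x) (datB20 x) (datB72 x) ?_)
    (cornS_of (C := cA202R) (C0 := c0B) (j := (1 : Fin 8)) (k := (2 : Fin 8)) (lo := 7) (hi := 7) (W := 67108864) (N0 := 3) cA202R_q (sideB hx hx') gokB X (by norm_num) (by norm_num) (l := (7 : Fin 8)) rfl
      (gatB12 x) (gatB20 x) (gatB72 x) ?_)
    (thU (pinU hx hx')) rfl hκ (fun j q y => tC_eq j q y x) (esg_rng X.x0.le (by linarith [X.b, X.p0])).1 (mo_v x) le_rfl le_rfl
  · intro ρ a B hρ hd i h1 h2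
    fin_cases i
    · exact absurd h1 (by norm_num)
    · exact absurd h1 (by norm_num)
    · exact absurd h1 (by norm_num)
    · exact absurd h1 (by norm_num)
    · exact absurd h1 (by norm_num)
    · exact absurd h1 (by norm_num)
    · exact corW_cert (G1 := gB1q2) (G2 := gB2q0) (Ga := gB6q2) (Gb := gB7q2) (D1 := dB1q2) (D2 := dB2q0) (Da := dB6q2) (Db := dB7q2) cA202R_ok B hρ hen (gatB12 x) (gatB20 x) (fun h => absurd h (by decide)) (fun _ => gatB72 x) (datB12 x) (datB20 x) (fun h => absurd h (by decide)) (fun _ => datB72 x) hd hx hx' CW.A202R_126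
  · intro ρ a B hρ hd i h1 h2
    fin_cases i
    · exact absurd h1 (by norm_num)
    · exact absurd h1 (by norm_num)
    · exact absurd h1 (by norm_num)
    · exact absurd h1 (by norm_num)
    · exact absurd h1 (by norm_num)
    · exact absurd h1 (by norm_num)
    · exact corT_cert (G1 := gB1q2) (G2 := gB2q0) (Ga := gB6q2) (Gb := gB7q2) cA202R_ok B hρ (gatB12 x) (gatB20 x) (fun h => absurd h (by decide)) (fun _ => gatB72 x) hd hx hx' CG.A202R_126

theorem altB_A202R_13 {κ x : ℝ} (hκ : κ * h0 = ken x) (hx : ((697932185 : ℕ) : ℝ) / S ≤ x) (hx' : x ≤ (((697932185 : ℕ) : ℝ) + (42949674 : ℕ)) / S) :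
    AltEA 3 κ (eng.v x) (3 / 40) (tnt (h0 * x) (3 / 10)) PP tK tL tC pcB (scP esg pd) [⟨0, 1, 0, 67108864⟩, ⟨1, 0, 0, 67108864⟩, ⟨2, 1, 0, 67108864⟩] 2 0 2 1 3 (sgb false) (sgb false) x := by
  have X : XR 67108864 x := XR.of hx hx' (by norm_num) (by norm_num) (by norm_num) (by norm_num)
  have hen : 0 < eng.v x := en_pos X.x0.le
  refine CornW.altA (C := cA202R) (j := (1 : Fin 8)) (k := (3 : Fin 8)) (Ef := esg) (pd := pd) (o := 3 / 40)
    (cornW_of (C := cA202R) (C0 := c0B) (En := eng) (mo := mog) (j := (1 : Fin 8)) (k := (3 : Fin 8)) (lo := 7) (hi := 7) (W := 67108864) (N0 := 3) cA202R_q (sideB hx hx') gokB (pinU hx hx') dokB X (by norm_num) (by norm_num) (l := (7 : Fin 8)) rfl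
      (gatB12 x) (gatB30 x) (gatB72 x) (datB12 x) (datB30 x) (datB72 x) ?_)
    (cornS_of (C := cA202R) (C0 := c0B) (j := (1 : Fin 8)) (k := (3 : Fin 8)) (lo := 7) (hi := 7) (W := 67108864) (N0 := 3) cA202R_q (sideB hx hx') gokB X (by norm_num) (by norm_num) (l := (7 : Fin 8)) rfl
      (gatB12 x) (gatB30 x) (gatB72 x) ?_)
    (thU (pinU hx hx')) rfl hκ (fun j q y => tC_eq j q y x) (esg_rng X.x0.le (by linarith [X.b, X.p0])).1 (mo_v x) le_rfl le_rfl
  · intro ρ a B hρ hd i h1 h2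
    fin_cases i
    · exact absurd h1 (by norm_num)
    · exact absurd h1 (by norm_num)
    · exact absurd h1 (by norm_num)
    · exact absurd h1 (by norm_num)
    · exact absurd h1 (by norm_num)
    · exact absurd h1 (by norm_num)
    · exact corW_cert (G1 := gB1q2) (G2 := gB3q0) (Ga := gB6q2) (Gb := gB7q2) (D1 := dB1q2) (D2 := dB3q0) (Da := dB6q2) (Db := dB7q2) cA202R_ok B hρ hen (gatB12 x) (gatB30 x) (fun h => absurd h (by decide)) (fun _ => gatB72 x) (datB12 x) (datB30 x) (fun h => absurd h (by decide)) (fun _ => datB72 x) hd hx hx' CW.A202R_136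
  · intro ρ a B hρ hd i h1 h2
    fin_cases i
    · exact absurd h1 (by norm_num)
    · exact absurd h1 (by norm_num)
    · exact absurd h1 (by norm_num)
    · exact absurd h1 (by norm_num)
    · exact absurd h1 (by norm_num)
    · exact absurd h1 (by norm_num)
    · exact corT_cert (G1 := gB1q2) (G2 := gB3q0) (Ga := gB6q2) (Gb := gB7q2) cA202R_ok B hρ (gatB12 x) (gatB30 x) (fun h => absurd h (by decide)) (fun _ => gatB72 x) hd hx hx' CG.A202R_136

theorem altB_A202R_14 {κ x : ℝ} (hκ : κ * h0 = ken x) (hx : ((697932185 : ℕ) : ℝ) / S ≤ x) (hx' : x ≤ (((697932185 : ℕ) : ℝ) + (42949674 : ℕ)) / S) :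
    AltEA 3 κ (eng.v x) (3 / 40) (tnt (h0 * x) (3 / 10)) PP tK tL tC pcB (scP esg pd) [⟨0, 1, 0, 67108864⟩, ⟨1, 0, 0, 67108864⟩, ⟨2, 1, 0, 67108864⟩] 2 0 2 1 4 (sgb false) (sgb false) x := by
  have X : XR 67108864 x := XR.of hx hx' (by norm_num) (by norm_num) (by norm_num) (by norm_num)
  have hen : 0 < eng.v x := en_pos X.x0.le
  refine CornW.altA (C := cA202R) (j := (1 : Fin 8)) (k := (4 : Fin 8)) (Ef := esg) (pd := pd) (o := 3 / 40)
    (cornW_of (C := cA202R) (C0 := c0B) (En := eng) (mo := mog) (j := (1 : Fin 8)) (k := (4 : Fin 8)) (lo := 7) (hi := 7) (W := 67108864) (N0 := 3) cA202R_q (sideB hx hx') gokB (pinU hx hx') dokB X (by norm_num) (by norm_num) (l := (7 : Fin 8)) rfl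
      (gatB12 x) (gatB40 x) (gatB72 x) (datB12 x) (datB40 x) (datB72 x) ?_)
    (cornS_of (C := cA202R) (C0 := c0B) (j := (1 : Fin 8)) (k := (4 : Fin 8)) (lo := 7) (hi := 7) (W := 67108864) (N0 := 3) cA202R_q (sideB hx hx') gokB X (by norm_num) (by norm_num) (l := (7 : Fin 8)) rfl
      (gatB12 x) (gatB40 x) (gatB72 x) ?_)
    (thU (pinU hx hx')) rfl hκ (fun j q y => tC_eq j q y x) (esg_rng X.x0.le (by linarith [X.b, X.p0])).1 (mo_v x) le_rfl le_rfl
  · intro ρ a B hρ hd i h1 h2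
    fin_cases i
    · exact absurd h1 (by norm_num)
    · exact absurd h1 (by norm_num)
    · exact absurd h1 (by norm_num)
    · exact absurd h1 (by norm_num)
    · exact absurd h1 (by norm_num)
    · exact absurd h1 (by norm_num)
    · exact corW_cert (G1 := gB1q2) (G2 := gB4q0) (Ga := gB6q2) (Gb := gB7q2) (D1 := dB1q2) (D2 := dB4q0) (Da := dB6q2) (Db := dB7q2) cA202R_ok B hρ hen (gatB12 x) (gatB40 x) (fun h => absurd h (by decide)) (fun _ => gatB72 x) (datB12 x) (datB40 x) (fun h => absurd h (by decide)) (fun _ => datB72 x) hd hx hx' CW.A202R_146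
  · intro ρ a B hρ hd i h1 h2
    fin_cases i
    · exact absurd h1 (by norm_num)
    · exact absurd h1 (by norm_num)
    · exact absurd h1 (by norm_num)
    · exact absurd h1 (by norm_num)
    · exact absurd h1 (by norm_num)
    · exact absurd h1 (by norm_num)
    · exact corT_cert (G1 := gB1q2) (G2 := gB4q0) (Ga := gB6q2) (Gb := gB7q2) cA202R_ok B hρ (gatB12 x) (gatB40 x) (fun h => absurd h (by decide)) (fun _ => gatB72 x) hd hx hx' CG.A202R_146

theorem altB_A202R_22 {κ x : ℝ} (hκ : κ * h0 = ken x) (hx : ((697932185 : ℕ) : ℝ) / S ≤ x) (hx' : x ≤ (((697932185 : ℕ) : ℝ) + (42949674 : ℕ)) / S) :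
    AltEA 3 κ (eng.v x) (3 / 40) (tnt (h0 * x) (3 / 10)) PP tK tL tC pcB (scP esg pd) [⟨0, 1, 0, 67108864⟩, ⟨1, 0, 0, 67108864⟩, ⟨2, 1, 0, 67108864⟩] 2 0 2 2 2 (sgb false) (sgb false) x := by
  have X : XR 67108864 x := XR.of hx hx' (by norm_num) (by norm_num) (by norm_num) (by norm_num)
  have hen : 0 < eng.v x := en_pos X.x0.le
  refine CornW.altA (C := cA202R) (j := (2 : Fin 8)) (k := (2 : Fin 8)) (Ef := esg) (pd := pd) (o := 3 / 40)
    (cornW_of (C := cA202R) (C0 := c0B) (En := eng) (mo := mog) (j := (2 : Fin 8)) (k := (2 : Fin 8)) (lo := 7) (hi := 7) (W := 67108864) (N0 := 3) cA202R_q (sideB hx hx') gokB (pinU hx hx') dokB X (by norm_num) (by norm_num) (l := (7 : Fin 8)) rfl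
      (gatB22 x) (gatB20 x) (gatB72 x) (datB22 x) (datB20 x) (datB72 x) ?_)
    (cornS_of (C := cA202R) (C0 := c0B) (j := (2 : Fin 8)) (k := (2 : Fin 8)) (lo := 7) (hi := 7) (W := 67108864) (N0 := 3) cA202R_q (sideB hx hx') gokB X (by norm_num) (by norm_num) (l := (7 : Fin 8)) rfl
      (gatB22 x) (gatB20 x) (gatB72 x) ?_)
    (thU (pinU hx hx')) rfl hκ (fun j q y => tC_eq j q y x) (esg_rng X.x0.le (by linarith [X.b, X.p0])).1 (mo_v x) le_rfl le_rfl
  · intro ρ a B hρ hd i h1 h2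
    fin_cases i
    · exact absurd h1 (by norm_num)
    · exact absurd h1 (by norm_num)
    · exact absurd h1 (by norm_num)
    · exact absurd h1 (by norm_num)
    · exact absurd h1 (by norm_num)
    · exact absurd h1 (by norm_num)
    · exact corW_cert (G1 := gB2q2) (G2 := gB2q0) (Ga := gB6q2) (Gb := gB7q2) (D1 := dB2q2) (D2 := dB2q0) (Da := dB6q2) (Db := dB7q2) cA202R_ok B hρ hen (gatB22 x) (gatB20 x) (fun h => absurd h (by decide)) (fun _ => gatB72 x) (datB22 x) (datB20 x) (fun h => absurd h (by decide)) (fun _ => datB72 x) hd hx hx' CW.A202R_226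
  · intro ρ a B hρ hd i h1 h2
    fin_cases i
    · exact absurd h1 (by norm_num)
    · exact absurd h1 (by norm_num)
    · exact absurd h1 (by norm_num)
    · exact absurd h1 (by norm_num)
    · exact absurd h1 (by norm_num)
    · exact absurd h1 (by norm_num)
    · exact corT_cert (G1 := gB2q2) (G2 := gB2q0) (Ga := gB6q2) (Gb := gB7q2) cA202R_ok B hρ (gatB22 x) (gatB20 x) (fun h => absurd h (by decide)) (fun _ => gatB72 x) hd hx hx' CG.A202R_226

theorem altB_A202R_23 {κ x : ℝ} (hκ : κ * h0 = ken x) (hx : ((697932185 : ℕ) : ℝ) / S ≤ x) (hx' : x ≤ (((697932185 : ℕ) : ℝ) + (42949674 : ℕ)) / S) :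
    AltEA 3 κ (eng.v x) (3 / 40) (tnt (h0 * x) (3 / 10)) PP tK tL tC pcB (scP esg pd) [⟨0, 1, 0, 67108864⟩, ⟨1, 0, 0, 67108864⟩, ⟨2, 1, 0, 67108864⟩] 2 0 2 2 3 (sgb false) (sgb false) x := by
  have X : XR 67108864 x := XR.of hx hx' (by norm_num) (by norm_num) (by norm_num) (by norm_num)
  have hen : 0 < eng.v x := en_pos X.x0.le
  refine CornW.altA (C := cA202R) (j := (2 : Fin 8)) (k := (3 : Fin 8)) (Ef := esg) (pd := pd) (o := 3 / 40)
    (cornW_of (C := cA202R) (C0 := c0B) (En := eng) (mo := mog) (j := (2 : Fin 8)) (k := (3 : Fin 8)) (lo := 7) (hi := 7) (W := 67108864) (N0 := 3) cA202R_q (sideB hx hx') gokB (pinU hx hx') dokB X (by norm_num) (by norm_num) (l := (7 : Fin 8)) rfl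
      (gatB22 x) (gatB30 x) (gatB72 x) (datB22 x) (datB30 x) (datB72 x) ?_)
    (cornS_of (C := cA202R) (C0 := c0B) (j := (2 : Fin 8)) (k := (3 : Fin 8)) (lo := 7) (hi := 7) (W := 67108864) (N0 := 3) cA202R_q (sideB hx hx') gokB X (by norm_num) (by norm_num) (l := (7 : Fin 8)) rfl
      (gatB22 x) (gatB30 x) (gatB72 x) ?_)
    (thU (pinU hx hx')) rfl hκ (fun j q y => tC_eq j q y x) (esg_rng X.x0.le (by linarith [X.b, X.p0])).1 (mo_v x) le_rfl le_rfl
  · intro ρ a B hρ hd i h1 h2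
    fin_cases i
    · exact absurd h1 (by norm_num)
    · exact absurd h1 (by norm_num)
    · exact absurd h1 (by norm_num)
    · exact absurd h1 (by norm_num)
    · exact absurd h1 (by norm_num)
    · exact absurd h1 (by norm_num)
    · exact corW_cert (G1 := gB2q2) (G2 := gB3q0) (Ga := gB6q2) (Gb := gB7q2) (D1 := dB2q2) (D2 := dB3q0) (Da := dB6q2) (Db := dB7q2) cA202R_ok B hρ hen (gatB22 x) (gatB30 x) (fun h => absurd h (by decide)) (fun _ => gatB72 x) (datB22 x) (datB30 x) (fun h => absurd h (by decide)) (fun _ => datB72 x) hd hx hx' CW.A202R_236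
  · intro ρ a B hρ hd i h1 h2
    fin_cases i
    · exact absurd h1 (by norm_num)
    · exact absurd h1 (by norm_num)
    · exact absurd h1 (by norm_num)
    · exact absurd h1 (by norm_num)
    · exact absurd h1 (by norm_num)
    · exact absurd h1 (by norm_num)
    · exact corT_cert (G1 := gB2q2) (G2 := gB3q0) (Ga := gB6q2) (Gb := gB7q2) cA202R_ok B hρ (gatB22 x) (gatB30 x) (fun h => absurd h (by decide)) (fun _ => gatB72 x) hd hx hx' CG.A202R_236

theorem altB_A202R_24 {κ x : ℝ} (hκ : κ * h0 = ken x) (hx : ((697932185 : ℕ) : ℝ) / S ≤ x) (hx' : x ≤ (((697932185 : ℕ) : ℝ) + (42949674 : ℕ)) / S) :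
    AltEA 3 κ (eng.v x) (3 / 40) (tnt (h0 * x) (3 / 10)) PP tK tL tC pcB (scP esg pd) [⟨0, 1, 0, 67108864⟩, ⟨1, 0, 0, 67108864⟩, ⟨2, 1, 0, 67108864⟩] 2 0 2 2 4 (sgb false) (sgb false) x := by
  have X : XR 67108864 x := XR.of hx hx' (by norm_num) (by norm_num) (by norm_num) (by norm_num)
  have hen : 0 < eng.v x := en_pos X.x0.le
  refine CornW.altA (C := cA202R) (j := (2 : Fin 8)) (k := (4 : Fin 8)) (Ef := esg) (pd := pd) (o := 3 / 40)
    (cornW_of (C := cA202R) (C0 := c0B) (En := eng) (mo := mog) (j := (2 : Fin 8)) (k := (4 : Fin 8)) (lo := 7) (hi := 7) (W := 67108864) (N0 := 3) cA202R_q (sideB hx hx') gokB (pinU hx hx') dokB X (by norm_num) (by norm_num) (l := (7 : Fin 8)) rfl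
      (gatB22 x) (gatB40 x) (gatB72 x) (datB22 x) (datB40 x) (datB72 x) ?_)
    (cornS_of (C := cA202R) (C0 := c0B) (j := (2 : Fin 8)) (k := (4 : Fin 8)) (lo := 7) (hi := 7) (W := 67108864) (N0 := 3) cA202R_q (sideB hx hx') gokB X (by norm_num) (by norm_num) (l := (7 : Fin 8)) rfl
      (gatB22 x) (gatB40 x) (gatB72 x) ?_)
    (thU (pinU hx hx')) rfl hκ (fun j q y => tC_eq j q y x) (esg_rng X.x0.le (by linarith [X.b, X.p0])).1 (mo_v x) le_rfl le_rfl
  · intro ρ a B hρ hd i h1 h2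
    fin_cases i
    · exact absurd h1 (by norm_num)
    · exact absurd h1 (by norm_num)
    · exact absurd h1 (by norm_num)
    · exact absurd h1 (by norm_num)
    · exact absurd h1 (by norm_num)
    · exact absurd h1 (by norm_num)
    · exact corW_cert (G1 := gB2q2) (G2 := gB4q0) (Ga := gB6q2) (Gb := gB7q2) (D1 := dB2q2) (D2 := dB4q0) (Da := dB6q2) (Db := dB7q2) cA202R_ok B hρ hen (gatB22 x) (gatB40 x) (fun h => absurd h (by decide)) (fun _ => gatB72 x) (datB22 x) (datB40 x) (fun h => absurd h (by decide)) (fun _ => datB72 x) hd hx hx' CW.A202R_246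
  · intro ρ a B hρ hd i h1 h2
    fin_cases i
    · exact absurd h1 (by norm_num)
    · exact absurd h1 (by norm_num)
    · exact absurd h1 (by norm_num)
    · exact absurd h1 (by norm_num)
    · exact absurd h1 (by norm_num)
    · exact absurd h1 (by norm_num)
    · exact corT_cert (G1 := gB2q2) (G2 := gB4q0) (Ga := gB6q2) (Gb := gB7q2) cA202R_ok B hρ (gatB22 x) (gatB40 x) (fun h => absurd h (by decide)) (fun _ => gatB72 x) hd hx hx' CG.A202R_246

theorem altB_A202R_33 {κ x : ℝ} (hκ : κ * h0 = ken x) (hx : ((697932185 : ℕ) : ℝ) / S ≤ x) (hx' : x ≤ (((697932185 : ℕ) : ℝ) + (42949674 : ℕ)) / S) :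
    AltEA 3 κ (eng.v x) (3 / 40) (tnt (h0 * x) (3 / 10)) PP tK tL tC pcB (scP esg pd) [⟨0, 1, 0, 67108864⟩, ⟨1, 0, 0, 67108864⟩, ⟨2, 1, 0, 67108864⟩] 2 0 2 3 3 (sgb false) (sgb false) x := by
  have X : XR 67108864 x := XR.of hx hx' (by norm_num) (by norm_num) (by norm_num) (by norm_num)
  have hen : 0 < eng.v x := en_pos X.x0.le
  refine CornW.altA (C := cA202R) (j := (3 : Fin 8)) (k := (3 : Fin 8)) (Ef := esg) (pd := pd) (o := 3 / 40)
    (cornW_of (C := cA202R) (C0 := c0B) (En := eng) (mo := mog) (j := (3 : Fin 8)) (k := (3 : Fin 8)) (lo := 7) (hi := 7) (W := 67108864) (N0 := 3) cA202R_q (sideB hx hx') gokB (pinU hx hx') dokB X (by norm_num) (by norm_num) (l := (7 : Fin 8)) rfl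
      (gatB32 x) (gatB30 x) (gatB72 x) (datB32 x) (datB30 x) (datB72 x) ?_)
    (cornS_of (C := cA202R) (C0 := c0B) (j := (3 : Fin 8)) (k := (3 : Fin 8)) (lo := 7) (hi := 7) (W := 67108864) (N0 := 3) cA202R_q (sideB hx hx') gokB X (by norm_num) (by norm_num) (l := (7 : Fin 8)) rfl
      (gatB32 x) (gatB30 x) (gatB72 x) ?_)
    (thU (pinU hx hx')) rfl hκ (fun j q y => tC_eq j q y x) (esg_rng X.x0.le (by linarith [X.b, X.p0])).1 (mo_v x) le_rfl le_rfl
  · intro ρ a B hρ hd i h1 h2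
    fin_cases i
    · exact absurd h1 (by norm_num)
    · exact absurd h1 (by norm_num)
    · exact absurd h1 (by norm_num)
    · exact absurd h1 (by norm_num)
    · exact absurd h1 (by norm_num)
    · exact absurd h1 (by norm_num)
    · exact corW_cert (G1 := gB3q2) (G2 := gB3q0) (Ga := gB6q2) (Gb := gB7q2) (D1 := dB3q2) (D2 := dB3q0) (Da := dB6q2) (Db := dB7q2) cA202R_ok B hρ hen (gatB32 x) (gatB30 x) (fun h => absurd h (by decide)) (fun _ => gatB72 x) (datB32 x) (datB30 x) (fun h => absurd h (by decide)) (fun _ => datB72 x) hd hx hx' CW.A202R_336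
  · intro ρ a B hρ hd i h1 h2
    fin_cases i
    · exact absurd h1 (by norm_num)
    · exact absurd h1 (by norm_num)
    · exact absurd h1 (by norm_num)
    · exact absurd h1 (by norm_num)
    · exact absurd h1 (by norm_num)
    · exact absurd h1 (by norm_num)
    · exact corT_cert (G1 := gB3q2) (G2 := gB3q0) (Ga := gB6q2) (Gb := gB7q2) cA202R_ok B hρ (gatB32 x) (gatB30 x) (fun h => absurd h (by decide)) (fun _ => gatB72 x) hd hx hx' CG.A202R_336

theorem altB_A202R_34 {κ x : ℝ} (hκ : κ * h0 = ken x) (hx : ((697932185 : ℕ) : ℝ) / S ≤ x) (hx' : x ≤ (((697932185 : ℕ) : ℝ) + (42949674 : ℕ)) / S) :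
    AltEA 3 κ (eng.v x) (3 / 40) (tnt (h0 * x) (3 / 10)) PP tK tL tC pcB (scP esg pd) [⟨0, 1, 0, 67108864⟩, ⟨1, 0, 0, 67108864⟩, ⟨2, 1, 0, 67108864⟩] 2 0 2 3 4 (sgb false) (sgb false) x := by
  have X : XR 67108864 x := XR.of hx hx' (by norm_num) (by norm_num) (by norm_num) (by norm_num)
  have hen : 0 < eng.v x := en_pos X.x0.le
  refine CornW.altA (C := cA202R) (j := (3 : Fin 8)) (k := (4 : Fin 8)) (Ef := esg) (pd := pd) (o := 3 / 40)
    (cornW_of (C := cA202R) (C0 := c0B) (En := eng) (mo := mog) (j := (3 : Fin 8)) (k := (4 : Fin 8)) (lo := 7) (hi := 7) (W := 67108864) (N0 := 3) cA202R_q (sideB hx hx') gokB (pinU hx hx') dokB X (by norm_num) (by norm_num) (l := (7 : Fin 8)) rfl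
      (gatB32 x) (gatB40 x) (gatB72 x) (datB32 x) (datB40 x) (datB72 x) ?_)
    (cornS_of (C := cA202R) (C0 := c0B) (j := (3 : Fin 8)) (k := (4 : Fin 8)) (lo := 7) (hi := 7) (W := 67108864) (N0 := 3) cA202R_q (sideB hx hx') gokB X (by norm_num) (by norm_num) (l := (7 : Fin 8)) rfl
      (gatB32 x) (gatB40 x) (gatB72 x) ?_)
    (thU (pinU hx hx')) rfl hκ (fun j q y => tC_eq j q y x) (esg_rng X.x0.le (by linarith [X.b, X.p0])).1 (mo_v x) le_rfl le_rfl
  · intro ρ a B hρ hd i h1 h2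
    fin_cases i
    · exact absurd h1 (by norm_num)
    · exact absurd h1 (by norm_num)
    · exact absurd h1 (by norm_num)
    · exact absurd h1 (by norm_num)
    · exact absurd h1 (by norm_num)
    · exact absurd h1 (by norm_num)
    · exact corW_cert (G1 := gB3q2) (G2 := gB4q0) (Ga := gB6q2) (Gb := gB7q2) (D1 := dB3q2) (D2 := dB4q0) (Da := dB6q2) (Db := dB7q2) cA202R_ok B hρ hen (gatB32 x) (gatB40 x) (fun h => absurd h (by decide)) (fun _ => gatB72 x) (datB32 x) (datB40 x) (fun h => absurd h (by decide)) (fun _ => datB72 x) hd hx hx' CW.A202R_346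
  · intro ρ a B hρ hd i h1 h2
    fin_cases i
    · exact absurd h1 (by norm_num)
    · exact absurd h1 (by norm_num)
    · exact absurd h1 (by norm_num)
    · exact absurd h1 (by norm_num)
    · exact absurd h1 (by norm_num)
    · exact absurd h1 (by norm_num)
    · exact corT_cert (G1 := gB3q2) (G2 := gB4q0) (Ga := gB6q2) (Gb := gB7q2) cA202R_ok B hρ (gatB32 x) (gatB40 x) (fun h => absurd h (by decide)) (fun _ => gatB72 x) hd hx hx' CG.A202R_346

theorem altB_A202R_44 {κ x : ℝ} (hκ : κ * h0 = ken x) (hx : ((697932185 : ℕ) : ℝ) / S ≤ x) (hx' : x ≤ (((697932185 : ℕ) : ℝ) + (42949674 : ℕ)) / S) :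
    AltEA 3 κ (eng.v x) (3 / 40) (tnt (h0 * x) (3 / 10)) PP tK tL tC pcB (scP esg pd) [⟨0, 1, 0, 67108864⟩, ⟨1, 0, 0, 67108864⟩, ⟨2, 1, 0, 67108864⟩] 2 0 2 4 4 (sgb false) (sgb false) x := by
  have X : XR 67108864 x := XR.of hx hx' (by norm_num) (by norm_num) (by norm_num) (by norm_num)
  have hen : 0 < eng.v x := en_pos X.x0.le
  refine CornW.altA (C := cA202R) (j := (4 : Fin 8)) (k := (4 : Fin 8)) (Ef := esg) (pd := pd) (o := 3 / 40)
    (cornW_of (C := cA202R) (C0 := c0B) (En := eng) (mo := mog) (j := (4 : Fin 8)) (k := (4 : Fin 8)) (lo := 7) (hi := 7) (W := 67108864) (N0 := 3) cA202R_q (sideB hx hx') gokB (pinU hx hx') dokB X (by norm_num) (by norm_num) (l := (7 : Fin 8)) rfl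
      (gatB42 x) (gatB40 x) (gatB72 x) (datB42 x) (datB40 x) (datB72 x) ?_)
    (cornS_of (C := cA202R) (C0 := c0B) (j := (4 : Fin 8)) (k := (4 : Fin 8)) (lo := 7) (hi := 7) (W := 67108864) (N0 := 3) cA202R_q (sideB hx hx') gokB X (by norm_num) (by norm_num) (l := (7 : Fin 8)) rfl
      (gatB42 x) (gatB40 x) (gatB72 x) ?_)
    (thU (pinU hx hx')) rfl hκ (fun j q y => tC_eq j q y x) (esg_rng X.x0.le (by linarith [X.b, X.p0])).1 (mo_v x) le_rfl le_rfl
  · intro ρ a B hρ hd i h1 h2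
    fin_cases i
    · exact absurd h1 (by norm_num)
    · exact absurd h1 (by norm_num)
    · exact absurd h1 (by norm_num)
    · exact absurd h1 (by norm_num)
    · exact absurd h1 (by norm_num)
    · exact absurd h1 (by norm_num)
    · exact corW_cert (G1 := gB4q2) (G2 := gB4q0) (Ga := gB6q2) (Gb := gB7q2) (D1 := dB4q2) (D2 := dB4q0) (Da := dB6q2) (Db := dB7q2) cA202R_ok B hρ hen (gatB42 x) (gatB40 x) (fun h => absurd h (by decide)) (fun _ => gatB72 x) (datB42 x) (datB40 x) (fun h => absurd h (by decide)) (fun _ => datB72 x) hd hx hx' CW.A202R_446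
  · intro ρ a B hρ hd i h1 h2
    fin_cases i
    · exact absurd h1 (by norm_num)
    · exact absurd h1 (by norm_num)
    · exact absurd h1 (by norm_num)
    · exact absurd h1 (by norm_num)
    · exact absurd h1 (by norm_num)
    · exact absurd h1 (by norm_num)
    · exact corT_cert (G1 := gB4q2) (G2 := gB4q0) (Ga := gB6q2) (Gb := gB7q2) cA202R_ok B hρ (gatB42 x) (gatB40 x) (fun h => absurd h (by decide)) (fun _ => gatB72 x) hd hx hx' CG.A202R_446

theorem altB_B011E_00 {κ x : ℝ} (hκ : κ * h0 = ken x) (hx : ((697932185 : ℕ) : ℝ) / S ≤ x) (hx' : x ≤ (((697932185 : ℕ) : ℝ) + (42949674 : ℕ)) / S) :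
    AltEB 3 κ (eng.v x) (3 / 40) (tnt (h0 * x) (3 / 10)) PP tK tL tC pcB (scP esg pd) [⟨0, 0, 0, 67108864⟩, ⟨1, 1, 0, 67108864⟩, ⟨2, 1, 0, 67108864⟩] 0 1 1 0 0 (sgb true) (sgb true) x := by
  have X : XR 67108864 x := XR.of hx hx' (by norm_num) (by norm_num) (by norm_num) (by norm_num)
  have hen : 0 < eng.v x := en_pos X.x0.le
  refine CornW.altB (C := cB011E) (j := (0 : Fin 8)) (k := (0 : Fin 8)) (Ef := esg) (pd := pd) (o := 3 / 40)
    (cornW_of (C := cB011E) (C0 := c0B) (En := eng) (mo := mog) (j := (0 : Fin 8)) (k := (0 : Fin 8)) (lo := 0) (hi := 0) (W := 67108864) (N0 := 3) cB011E_q (sideB hx hx') gokB (pinU hx hx') dokB X (by norm_num) (by norm_num) (l := (0 : Fin 8)) rfl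
      (gatB00 x) (gatB01 x) (gatB01 x) (datB00 x) (datB01 x) (datB01 x) ?_)
    (cornS_of (C := cB011E) (C0 := c0B) (j := (0 : Fin 8)) (k := (0 : Fin 8)) (lo := 0) (hi := 0) (W := 67108864) (N0 := 3) cB011E_q (sideB hx hx') gokB X (by norm_num) (by norm_num) (l := (0 : Fin 8)) rfl
      (gatB00 x) (gatB01 x) (gatB01 x) ?_)
    (thU (pinU hx hx')) rfl hκ (fun j q y => tC_eq j q y x) (esg_rng X.x0.le (by linarith [X.b, X.p0])).1 (mo_v x) le_rfl le_rfl
  · intro ρ a B hρ hd i h1 h2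
    fin_cases i
    · exact corW_cert (G1 := gB0q0) (G2 := gB0q1) (Ga := gB0q1) (Gb := gB1q1) (D1 := dB0q0) (D2 := dB0q1) (Da := dB0q1) (Db := dB1q1) cB011E_ok B hρ hen (gatB00 x) (gatB01 x) (fun _ => gatB01 x) (fun h => absurd h (by decide)) (datB00 x) (datB01 x) (fun _ => datB01 x) (fun h => absurd h (by decide)) hd hx hx' CW.B011E_000
    · exact absurd h2 (by norm_num)
    · exact absurd h2 (by norm_num)
    · exact absurd h2 (by norm_num)
    · exact absurd h2 (by norm_num)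
    · exact absurd h2 (by norm_num)
    · exact absurd h2 (by norm_num)
  · intro ρ a B hρ hd i h1 h2
    fin_cases i
    · exact corT_cert (G1 := gB0q0) (G2 := gB0q1) (Ga := gB0q1) (Gb := gB1q1) cB011E_ok B hρ (gatB00 x) (gatB01 x) (fun _ => gatB01 x) (fun h => absurd h (by decide)) hd hx hx' CG.B011E_000
    · exact absurd h2 (by norm_num)
    · exact absurd h2 (by norm_num)
    · exact absurd h2 (by norm_num)
    · exact absurd h2 (by norm_num)
    · exact absurd h2 (by norm_num)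
    · exact absurd h2 (by norm_num)

end Pool.Agent.Strip051.G.I6500_6900.Tab
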