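import Pool.Agent.Strip051.G.I6500_6900.DgP

/-! # The corner (1, 1, 2): certificates of the degenerate charts (generated) -/

set_option linter.all false

namespace Pool.Agent.Strip051.G.I6500_6900.Tab.DG

open Pool.Agent.Strip051.PB Pool.Agent.Strip051.PB.Dg Pool.Agent.StripNear Pool.Agent.Strip051.LC

theorem cNA5 : ∃ t, chk3 (onCell 0 232471925 0 1073741824 697932185 42949674 (fdAW pN qN (ndUR ndN5) (ndUR ndN6) (thLo (ndUR ndN5) (ndUR ndN6)) (tuLo (ndUR ndN5) (ndUR ndN6) (suR ndN5) (suR ndN6)))) t 1 1 1 = true :=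
  ⟨(T.a (T.a (T.b (T.b (T.l 2) (T.c (T.c (T.l 0) (T.l 0)) (T.l 0))) (T.b (T.b (T.c (T.c (T.l 0) (T.l 0)) (T.l 0)) (T.l 3)) (T.l 3))) (T.b (T.b (T.l 2) (T.c (T.c (T.l 0) (T.l 0)) (T.l 0))) (T.b (T.b (T.a (T.c (T.c (T.l 0) (T.l 0)) (T.l 0)) (T.c (T.a (T.l 174760) (T.l 174760)) (T.l 0))) (T.l 3)) (T.l 3)))) (T.b (T.a (T.b (T.l 2) (T.b (T.c (T.l 174760) (T.l 0)) (T.c (T.a (T.l 174760) (T.l 174760)) (T.l 0)))) (T.b (T.l 2) (T.b (T.b (T.l 2) (T.a (T.l 174760) (T.l 174760))) (T.a (T.b (T.l 174760) (T.l 174760)) (T.b (T.l 174760) (T.l 174760)))))) (T.b (T.a (T.b (T.a (T.c (T.a (T.l 174760) (T.l 174760)) (T.l 0)) (T.c (T.a (T.l 174760) (T.l 174760)) (T.l 0))) (T.b (T.b (T.a (T.a (T.l 3) (T.l 174760)) (T.a (T.l 174760) (T.l 174760))) (T.l 3)) (T.l 3))) (T.a (T.b (T.b (T.a (T.l 174760) (T.l 174760)) (T.c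 (T.l 174760) (T.l 0))) (T.b (T.b (T.a (T.l 174760) (T.l 174760)) (T.l 3)) (T.l 3))) (T.b (T.b (T.a (T.l 174760) (T.l 174760)) (T.a (T.l 174760) (T.l 174760))) (T.b (T.c (T.a (T.l 174760) (T.l 174760)) (T.l 0)) (T.l 3))))) (T.l 3)))), by decide +kernel⟩
theorem cNA6 : ∃ t, chk3 (onCell 0 232471925 0 1073741824 697932185 42949674 (fdAW pN qN (ndUR ndN6) (dgSC pN) (thUp (ndUR ndN6) (dgSC pN)) (tuUp (ndUR ndN6) (dgSC pN) (suR ndN6) (suC qN)))) t 1 1 1 = true :=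
  ⟨(T.b (T.l 2) (T.a (T.a (T.b (T.c (T.c (T.l 0) (T.l 0)) (T.a (T.l 0) (T.l 0))) (T.c (T.c (T.a (T.l 0) (T.l 0)) (T.a (T.l 0) (T.l 0))) (T.b (T.l 0) (T.l 0)))) (T.a (T.b (T.a (T.c (T.c (T.l 0) (T.l 0)) (T.a (T.l 0) (T.l 0))) (T.c (T.b (T.c (T.l 0) (T.l 0)) (T.c (T.l 0) (T.l 0))) (T.b (T.l 0) (T.l 0)))) (T.c (T.a (T.b (T.c (T.l 0) (T.l 0)) (T.c (T.l 0) (T.l 0))) (T.c (T.a (T.l 0) (T.l 0)) (T.a (T.l 0) (T.l 0)))) (T.a (T.b (T.l 0) (T.l 0)) (T.b (T.l 0) (T.a (T.l 0) (T.l 0)))))) (T.a (T.b (T.c (T.b (T.b (T.l 2) (T.l 174760)) (T.b (T.l 174760) (T.l 174760))) (T.b (T.l 0) (T.l 0))) (T.c (T.b (T.c (T.l 0) (T.l 0)) (T.c (T.l 0) (T.l 0))) (T.b (T.l 0) (T.l 0)))) (T.b (T.c (T.b (T.c (T.l 0) (T.l 0)) (T.c (T.l 0) (T.l 0))) (T.b (T.a (T.l 0) (T.l 0)) (T.a (T.l 0) (T.l 0)))) (T.b (T.c (T.c (T.l 0) (T.l 0))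 (T.a (T.l 0) (T.l 0))) (T.c (T.a (T.c (T.l 0) (T.l 0)) (T.c (T.l 0) (T.l 0))) (T.a (T.a (T.l 0) (T.l 0)) (T.a (T.l 0) (T.l 0))))))))) (T.b (T.b (T.a (T.a (T.b (T.l 2) (T.b (T.l 2) (T.b (T.l 2) (T.a (T.a (T.l 174760) (T.l 174760)) (T.a (T.l 174760) (T.l 2)))))) (T.l 2)) (T.l 2)) (T.a (T.a (T.a (T.c (T.c (T.l 0) (T.l 0)) (T.a (T.l 0) (T.l 0))) (T.c (T.a (T.a (T.l 174760) (T.l 174760)) (T.a (T.l 174760) (T.l 174760))) (T.a (T.l 0) (T.l 0)))) (T.a (T.c (T.a (T.a (T.l 174760) (T.l 174760)) (T.a (T.l 174760) (T.l 174760))) (T.a (T.l 0) (T.l 0))) (T.c (T.a (T.a (T.l 174760) (T.l 174760)) (T.a (T.l 174760) (T.l 174760))) (T.a (T.l 0) (T.l 0))))) (T.a (T.a (T.c (T.a (T.b (T.l 174760) (T.l 174760)) (T.b (T.l 174760) (T.l 174760))) (T.a (T.a (T.l 0) (T.l 0)) (T.a (T.l 0) (T.l 0)))) (T.c (T.a (T.a (T.l 174760)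 (T.l 174760)) (T.a (T.l 174760) (T.l 174760))) (T.a (T.a (T.l 0) (T.l 0)) (T.a (T.l 0) (T.l 0))))) (T.a (T.c (T.a (T.a (T.l 174760) (T.l 174760)) (T.a (T.l 174760) (T.l 174760))) (T.a (T.a (T.l 0) (T.l 0)) (T.a (T.l 0) (T.l 0)))) (T.c (T.a (T.b (T.l 174760) (T.l 174760)) (T.a (T.l 174760) (T.l 174760))) (T.b (T.a (T.l 0) (T.l 0)) (T.a (T.l 0) (T.l 0)))))))) (T.b (T.b (T.a (T.a (T.a (T.c (T.a (T.l 174760) (T.l 174760)) (T.a (T.l 0) (T.l 0))) (T.c (T.a (T.l 174760) (T.l 174760)) (T.a (T.l 0) (T.l 0)))) (T.a (T.c (T.a (T.l 174760) (T.l 174760)) (T.a (T.l 0) (T.l 0))) (T.c (T.a (T.l 174760) (T.l 174760)) (T.a (T.l 0) (T.l 0))))) (T.a (T.a (T.c (T.a (T.l 174760) (T.l 174760)) (T.a (T.l 0) (T.l 0))) (T.c (T.a (T.l 174760) (T.l 174760)) (T.a (T.l 0) (T.l 0)))) (T.a (T.c (T.a (T.l 174760) (T.l 174760))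 (T.a (T.l 0) (T.l 0))) (T.c (T.a (T.a (T.l 174760) (T.l 174760)) (T.a (T.l 174760) (T.l 174760))) (T.a (T.a (T.l 0) (T.l 0)) (T.a (T.l 0) (T.l 0))))))) (T.a (T.a (T.a (T.c (T.a (T.l 174760) (T.l 174760)) (T.a (T.l 0) (T.l 0))) (T.c (T.a (T.l 174760) (T.l 174760)) (T.a (T.l 0) (T.l 0)))) (T.a (T.c (T.a (T.l 174760) (T.l 174760)) (T.a (T.l 0) (T.l 0))) (T.c (T.a (T.l 174760) (T.l 174760)) (T.a (T.l 0) (T.l 0))))) (T.a (T.a (T.c (T.a (T.l 174760) (T.l 174760)) (T.a (T.l 0) (T.l 0))) (T.c (T.a (T.l 174760) (T.a (T.l 174760) (T.l 174760))) (T.a (T.l 0) (T.l 0)))) (T.a (T.c (T.a (T.a (T.l 174760) (T.l 174760)) (T.a (T.l 174760) (T.l 174760))) (T.a (T.a (T.l 0) (T.l 512)) (T.a (T.l 512) (T.l 512)))) (T.a (T.a (T.c (T.l 174760) (T.l 544)) (T.l 4)) (T.l 4)))))) (T.b (T.c (T.a (T.a (T.a (T.a (T.l 174760)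 (T.l 174760)) (T.a (T.a (T.l 174760) (T.l 174760)) (T.a (T.l 174760) (T.l 174760)))) (T.a (T.a (T.a (T.l 174760) (T.l 174760)) (T.a (T.l 174760) (T.l 174760))) (T.a (T.a (T.l 174760) (T.l 174760)) (T.a (T.l 174760) (T.l 174760))))) (T.a (T.a (T.a (T.a (T.l 174760) (T.l 174760)) (T.a (T.l 174760) (T.l 174760))) (T.a (T.a (T.l 174760) (T.l 174760)) (T.c (T.l 0) (T.l 512)))) (T.a (T.a (T.c (T.l 0) (T.l 544)) (T.l 4)) (T.l 4)))) (T.a (T.a (T.a (T.a (T.l 0) (T.l 0)) (T.a (T.l 0) (T.l 0))) (T.a (T.a (T.l 0) (T.l 0)) (T.a (T.l 0) (T.l 0)))) (T.a (T.a (T.a (T.l 0) (T.a (T.l 0) (T.l 0))) (T.a (T.a (T.l 0) (T.l 0)) (T.a (T.l 131616) (T.l 139808)))) (T.a (T.a (T.a (T.l 139808) (T.l 4)) (T.l 4)) (T.l 4))))) (T.c (T.a (T.a (T.a (T.a (T.a (T.l 174760) (T.l 174760)) (T.a (T.l 174760) (T.l 174760))) (T.a (T.a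 (T.l 174760) (T.l 174760)) (T.a (T.l 174760) (T.l 174760)))) (T.a (T.a (T.a (T.l 174760) (T.l 174760)) (T.b (T.l 174760) (T.l 174760))) (T.a (T.c (T.l 0) (T.l 0)) (T.c (T.l 0) (T.l 0))))) (T.a (T.a (T.a (T.c (T.l 0) (T.l 0)) (T.c (T.l 174760) (T.a (T.l 0) (T.l 0)))) (T.a (T.c (T.l 174760) (T.a (T.l 0) (T.l 680))) (T.l 4))) (T.l 4))) (T.a (T.a (T.a (T.a (T.l 0) (T.l 0)) (T.a (T.l 0) (T.l 0))) (T.a (T.a (T.l 544) (T.a (T.l 0) (T.l 0))) (T.a (T.a (T.l 0) (T.l 0)) (T.a (T.l 0) (T.l 0))))) (T.a (T.a (T.a (T.a (T.l 0) (T.l 0)) (T.b (T.l 0) (T.a (T.l 0) (T.l 174760)))) (T.a (T.c (T.a (T.l 174760) (T.l 174760)) (T.a (T.l 174760) (T.l 174760))) (T.l 4))) (T.l 4))))))))), by decide +kernel⟩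
theorem cNB5 : ∃ t, chk3 (onCell 0 232471925 0 2684354560 697932185 42949674 (fdBW pN qN (ndUR ndN5) (suR ndN5))) t 1 1 1 = true :=
  ⟨(T.b (T.b (T.a (T.b (T.c (T.c (T.l 0) (T.l 0)) (T.l 0)) (T.b (T.c (T.c (T.l 0) (T.l 0)) (T.l 0)) (T.l 4))) (T.b (T.l 2) (T.b (T.a (T.b (T.c (T.c (T.l 0) (T.l 0)) (T.l 0)) (T.l 4)) (T.b (T.b (T.l 2) (T.c (T.a (T.l 174760) (T.l 174760)) (T.l 0))) (T.l 4))) (T.l 4)))) (T.l 4)) (T.a (T.l 4) (T.b (T.l 4) (T.a (T.l 4) (T.l 4))))), by decide +kernel⟩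
theorem cNB6 : ∃ t, chk3 (onCell 0 232471925 0 2684354560 697932185 42949674 (fdBW pN qN (ndUR ndN6) (suR ndN6))) t 1 1 1 = true :=
  ⟨(T.b (T.b (T.b (T.l 2) (T.a (T.a (T.b (T.l 2) (T.c (T.c (T.l 0) (T.l 0)) (T.l 0))) (T.b (T.l 2) (T.b (T.l 2) (T.b (T.l 2) (T.b (T.l 2) (T.a (T.c (T.c (T.l 0) (T.l 0)) (T.l 0)) (T.b (T.l 2) (T.c (T.l 174760) (T.l 0))))))))) (T.a (T.a (T.b (T.l 2) (T.b (T.l 2) (T.b (T.l 2) (T.b (T.l 2) (T.b (T.l 2) (T.c (T.b (T.l 2) (T.l 174760)) (T.l 0))))))) (T.l 2)) (T.l 2)))) (T.b (T.a (T.a (T.b (T.b (T.a (T.l 174760) (T.l 174760)) (T.l 4)) (T.l 4)) (T.b (T.b (T.b (T.a (T.l 174760) (T.a (T.l 174760) (T.l 174760))) (T.l 4)) (T.l 4)) (T.l 4))) (T.b (T.b (T.b (T.a (T.a (T.a (T.l 174760) (T.l 174760)) (T.b (T.c (T.l 174760) (T.l 0)) (T.l 174760))) (T.a (T.b (T.c (T.a (T.l 174760)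 (T.l 174760)) (T.l 0)) (T.l 174760)) (T.c (T.c (T.l 0) (T.l 0)) (T.l 0)))) (T.a (T.l 4) (T.b (T.a (T.l 174760) (T.l 174760)) (T.l 4)))) (T.l 4)) (T.l 4))) (T.l 4))) (T.a (T.l 4) (T.b (T.l 4) (T.a (T.l 4) (T.l 4))))), by decide +kernel⟩
theorem cNB7 : ∃ t, chk3 (onCell 0 232471925 0 2684354560 697932185 42949674 (fdBW pN qN (dgSC pN) (suC qN))) t 1 1 1 = true :=
  ⟨(T.b (T.b (T.l 2) (T.b (T.l 2) (T.a (T.b (T.a (T.a (T.b (T.b (T.l 2) (T.b (T.l 2) (T.c (T.c (T.l 0) (T.l 0)) (T.l 0)))) (T.c (T.a (T.l 174760) (T.l 174760)) (T.l 34816))) (T.b (T.b (T.l 2) (T.b (T.l 2) (T.c (T.c (T.l 0) (T.l 0)) (T.l 0)))) (T.b (T.a (T.l 174760) (T.l 174760)) (T.l 4)))) (T.b (T.b (T.l 2) (T.b (T.l 2) (T.a (T.a (T.c (T.c (T.l 0) (T.l 0)) (T.l 0)) (T.c (T.c (T.l 0) (T.l 0)) (T.l 0))) (T.a (T.c (T.c (T.l 0) (T.l 0)) (T.l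 0)) (T.c (T.c (T.l 0) (T.l 0)) (T.a (T.l 0) (T.l 0))))))) (T.a (T.b (T.a (T.l 174760) (T.l 174760)) (T.l 4)) (T.b (T.a (T.a (T.l 174760) (T.l 174760)) (T.a (T.a (T.l 174760) (T.l 174760)) (T.l 174760))) (T.l 4))))) (T.l 4)) (T.b (T.a (T.b (T.b (T.l 2) (T.b (T.l 2) (T.a (T.a (T.a (T.c (T.c (T.l 0) (T.l 0)) (T.l 0)) (T.c (T.c (T.l 0) (T.l 0)) (T.l 0))) (T.c (T.c (T.a (T.l 0) (T.l 0)) (T.a (T.l 0) (T.l 0))) (T.a (T.l 0) (T.l 0)))) (T.a (T.c (T.a (T.a (T.l 174760) (T.l 174760)) (T.c (T.l 0) (T.l 0))) (T.a (T.l 0) (T.l 0))) (T.c (T.a (T.c (T.l 0) (T.l 0)) (T.c (T.l 0) (T.l 0))) (T.a (T.l 0) (T.a (T.l 0) (T.l 0)))))))) (T.a (T.b (T.a (T.a (T.l 174760) (T.a (T.l 174760) (T.l 174760))) (T.b (T.a (T.l 174760) (T.l 174760)) (T.l 174760))) (T.l 4)) (T.b (T.a (T.b (T.a (T.l 174760) (T.l 174760)) (T.l 174760))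 (T.a (T.a (T.l 174760) (T.l 174760)) (T.b (T.l 174760) (T.l 174760)))) (T.l 4)))) (T.a (T.a (T.b (T.b (T.l 2) (T.b (T.l 2) (T.a (T.c (T.c (T.l 0) (T.l 0)) (T.a (T.l 0) (T.l 0))) (T.c (T.c (T.l 0) (T.l 34816)) (T.a (T.l 0) (T.l 174216)))))) (T.b (T.a (T.c (T.l 174760) (T.l 174760)) (T.c (T.a (T.l 174760) (T.l 6)) (T.l 174760))) (T.l 4))) (T.a (T.b (T.b (T.l 2) (T.b (T.l 2) (T.l 6))) (T.l 6)) (T.l 6))) (T.l 6))) (T.l 4))))) (T.b (T.a (T.l 4) (T.a (T.l 4) (T.l 4))) (T.a (T.l 4) (T.a (T.l 4) (T.l 4))))), by decide +kernel⟩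
theorem cNP5 : ∃ t, chk3 (onCell 0 232471925 0 1073741824 697932185 42949674 (fdPW pN qN (ndUR ndN5) (suR ndN5))) t 1 1 1 = true :=
  ⟨(T.b (T.a (T.b (T.b (T.l 174760) (T.a (T.l 174760) (T.l 174760))) (T.b (T.c (T.c (T.l 0) (T.l 0)) (T.l 0)) (T.l 2))) (T.b (T.b (T.l 174760) (T.a (T.l 174760) (T.l 174760))) (T.a (T.b (T.b (T.l 174760) (T.c (T.c (T.l 0) (T.l 0)) (T.l 0))) (T.l 2)) (T.b (T.b (T.l 174760) (T.c (T.c (T.l 0) (T.l 0)) (T.l 0))) (T.l 2))))) (T.l 2)), by decide +kernel⟩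
theorem cNP6 : ∃ t, chk3 (onCell 0 232471925 0 1073741824 697932185 42949674 (fdPW pN qN (ndUR ndN6) (suR ndN6))) t 1 1 1 = true :=
  ⟨(T.a (T.a (T.b (T.b (T.l 174760) (T.l 174760)) (T.b (T.b (T.c (T.c (T.l 0) (T.l 0)) (T.l 0)) (T.l 2)) (T.l 2))) (T.b (T.b (T.l 174760) (T.l 174760)) (T.b (T.b (T.b (T.l 174760) (T.a (T.c (T.c (T.l 0) (T.l 0)) (T.l 0)) (T.c (T.c (T.l 0) (T.l 0)) (T.l 0)))) (T.l 2)) (T.l 2)))) (T.b (T.b (T.a (T.l 174760) (T.l 174760)) (T.a (T.a (T.l 174760) (T.l 174760)) (T.a (T.l 174760) (T.l 174760)))) (T.b (T.a (T.b (T.b (T.l 174760) (T.a (T.c (T.a (T.l 174760) (T.l 174760)) (T.l 0)) (T.a (T.l 174760) (T.l 174760)))) (T.b (T.b (T.a (T.a (T.l 2) (T.b (T.c (T.b (T.l 174760) (T.l 2)) (T.l 0)) (T.l 2))) (T.b (T.c (T.c (T.l 0) (T.l 0)) (T.l 0)) (T.l 2))) (T.l 2)) (T.l 2))) (T.b (T.b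 (T.l 174760) (T.a (T.a (T.l 174760) (T.l 174760)) (T.l 174760))) (T.b (T.b (T.a (T.b (T.c (T.a (T.l 174760) (T.l 174760)) (T.l 0)) (T.l 2)) (T.c (T.c (T.l 0) (T.l 0)) (T.l 0))) (T.l 2)) (T.l 2)))) (T.l 2)))), by decide +kernel⟩

end Pool.Agent.Strip051.G.I6500_6900.Tab.DG
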