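import Pool.Agent.Strip051.G.I6500_6900.DgP

/-! # The corner (1, 1, 2): certificates of the degenerate charts (generated) -/

set_option linter.all false

namespace Pool.Agent.Strip051.G.I6500_6900.Tab.DG

open Pool.Agent.Strip051.PB Pool.Agent.Strip051.PB.Dg Pool.Agent.StripNear Pool.Agent.Strip051.LC

theorem cNP7 : ∃ t, chk3 (onCell 0 232471925 0 1073741824 697932185 42949674 (fdPW pN qN (dgSC pN) (suC qN))) t 1 1 1 = true :=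
  ⟨(T.a (T.a (T.b (T.l 174760) (T.b (T.l 174760) (T.b (T.l 174760) (T.b (T.l 174760) (T.c (T.c (T.l 0) (T.l 0)) (T.l 0)))))) (T.a (T.b (T.l 174760) (T.b (T.l 174760) (T.b (T.l 174760) (T.b (T.l 174760) (T.b (T.l 174760) (T.a (T.c (T.c (T.l 0) (T.l 0)) (T.l 0)) (T.c (T.a (T.l 174760) (T.l 174760)) (T.l 0)))))))) (T.b (T.l 174760) (T.b (T.l 174760) (T.b (T.l 174760) (T.a (T.c (T.c (T.l 0) (T.l 0)) (T.l 0)) (T.b (T.l 174760) (T.b (T.l 174760) (T.c (T.a (T.l 174760) (T.l 174760)) (T.l 0)))))))))) (T.b (T.a (T.a (T.l 174760) (T.l 174760)) (T.b (T.l 4) (T.l 174760))) (T.b (T.a (T.a (T.l 174760) (T.l 174760)) (T.a (T.l 174760) (T.l 174760))) (T.b (T.a (T.a (T.l 174760) (T.l 174760)) (T.a (T.l 174760) (T.a (T.l 174760) (T.l 174760)))) (T.b (T.a (T.a (T.a (T.l 174760) (T.l 174760)) (T.a (T.l 174760) (T.l 174760))) (T.a (T.a (T.l 174760)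 (T.l 174760)) (T.a (T.l 174760) (T.l 3)))) (T.b (T.a (T.a (T.a (T.l 174760) (T.l 174760)) (T.a (T.l 174760) (T.l 174760))) (T.a (T.a (T.l 174760) (T.l 174760)) (T.l 3))) (T.a (T.a (T.a (T.b (T.l 174760) (T.c (T.a (T.l 174760) (T.l 174760)) (T.a (T.l 0) (T.l 0)))) (T.b (T.l 174760) (T.c (T.a (T.l 174760) (T.l 174760)) (T.a (T.l 0) (T.l 0))))) (T.a (T.b (T.l 174760) (T.c (T.a (T.l 174760) (T.l 174760)) (T.a (T.l 0) (T.l 0)))) (T.c (T.a (T.l 174760) (T.a (T.l 174760) (T.l 174760))) (T.a (T.l 0) (T.l 0))))) (T.a (T.a (T.a (T.c (T.a (T.l 174760) (T.l 174760)) (T.l 0)) (T.b (T.l 174760) (T.c (T.a (T.l 174760) (T.l 174760)) (T.l 174760)))) (T.a (T.b (T.l 174760) (T.l 3)) (T.l 3))) (T.l 3))))))))), by decide +kernel⟩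
theorem cNC1 : ∃ t, chk3 (onCell 0 232471925 0 1073741824 697932185 42949674 (fdCW pN qN ndN4 (thLo (ndUL pN ndN4) (ndUR ndN5)) (tuLo (ndUL pN ndN4) (ndUR ndN5) (suL qN ndN4) (suR ndN5)) cvN1 cFsDD1 (ndUR ndN5))) t 1 1 1 = true :=
  ⟨(T.a (T.b (T.b (T.b (T.a (T.a (T.l 0) (T.l 0)) (T.b (T.a (T.l 0) (T.l 2048)) (T.a (T.l 2048) (T.l 10240)))) (T.l 1)) (T.l 1)) (T.l 1)) (T.b (T.b (T.b (T.b (T.a (T.a (T.l 10240) (T.l 10240)) (T.a (T.l 10240) (T.l 10240))) (T.a (T.a (T.l 10240) (T.l 10240)) (T.b (T.a (T.l 10240) (T.l 174088)) (T.a (T.l 43016) (T.l 43016))))) (T.l 1)) (T.l 1)) (T.a (T.a (T.l 1) (T.l 3)) (T.l 3)))), by decide +kernel⟩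
theorem cNC2 : ∃ t, chk3 (onCell 0 232471925 0 1073741824 697932185 42949674 (fdCW pN qN ndN4 (thLo (ndUL pN ndN4) (ndUR ndN5)) (tuLo (ndUL pN ndN4) (ndUR ndN5) (suL qN ndN4) (suR ndN5)) cvN2 cFsDD2 (ndUR ndN5))) t 1 1 1 = true :=
  ⟨(T.a (T.b (T.b (T.b (T.a (T.l 0) (T.l 0)) (T.l 1)) (T.l 1)) (T.l 1)) (T.b (T.b (T.b (T.b (T.l 0) (T.a (T.l 0) (T.a (T.l 0) (T.l 0)))) (T.l 1)) (T.l 1)) (T.a (T.a (T.l 1) (T.l 3)) (T.l 3)))), by decide +kernel⟩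
theorem cNC3 : ∃ t, chk3 (onCell 0 232471925 0 1073741824 697932185 42949674 (fdCW pN qN ndN4 (thLo (ndUL pN ndN4) (ndUR ndN5)) (tuLo (ndUL pN ndN4) (ndUR ndN5) (suL qN ndN4) (suR ndN5)) cvN3 cFsDD3 (ndUR ndN5))) t 1 1 1 = true :=
  ⟨(T.a (T.b (T.b (T.b (T.a (T.l 0) (T.l 0)) (T.l 512)) (T.l 1)) (T.l 1)) (T.b (T.b (T.b (T.b (T.l 0) (T.a (T.l 0) (T.a (T.l 0) (T.l 0)))) (T.b (T.a (T.l 131584) (T.l 131584)) (T.l 1))) (T.l 1)) (T.a (T.a (T.l 1) (T.l 3)) (T.l 3)))), by decide +kernel⟩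
theorem cNC4 : ∃ t, chk3 (onCell 0 232471925 0 1073741824 697932185 42949674 (fdCW pN qN ndN4 (thLo (ndUL pN ndN4) (ndUR ndN5)) (tuLo (ndUL pN ndN4) (ndUR ndN5) (suL qN ndN4) (suR ndN5)) cvN4 cFsDD4 (ndUR ndN5))) t 1 1 1 = true :=
  ⟨(T.a (T.b (T.b (T.b (T.a (T.l 0) (T.l 0)) (T.l 512)) (T.l 1)) (T.l 1)) (T.b (T.b (T.b (T.b (T.l 0) (T.a (T.l 0) (T.l 131584))) (T.b (T.a (T.l 131584) (T.l 131584)) (T.l 1))) (T.l 1)) (T.a (T.a (T.l 1) (T.l 3)) (T.l 3)))), by decide +kernel⟩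

end Pool.Agent.Strip051.G.I6500_6900.Tab.DG
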