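import Pool.Agent.Strip051.PB.FactE
import Pool.Agent.Strip051.G.I6500_6900.Tab

/-! # Facts about a table (generated) -/

set_option linter.all false

namespace Pool.Agent.Strip051.G.I6500_6900.Tab

open Pool.Agent.Strip051.PB Pool.Agent.StripNear Pool.Agent.Strip051.LC

theorem c1g_v : c1g.v = c1n := by funext y; simp [c1g, c1n]
theorem c3g_v : c3g.v = c3n := by funext y; simp [c3g, c3n]
theorem swg_v : swg.v = swn := by funext y; simp [swg, swn]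
theorem yag_v {y : ℝ} (h0y : 0 ≤ y) (h : h0 * y < 1) : yag.v (c1n y) = y := by
  have := ya_eq h0y h
  simpa [yag] using this
theorem ycg_v {y : ℝ} (h0y : 0 ≤ y) (h : y ≤ 2) : ycg.v (c3n y) = y := by
  have := yc_eq h0y h
  simpa [ycg] using this
theorem ya1 : yag.v (1/2) = 1 := by
  have := yag_v (y := 1) (by norm_num) (by rw [mul_one]; exact h0_lt_one)
  rwa [c1n_one] at this
theorem yc0 : ycg.v 0 = 2 := by
  have := ycg_v (y := 2) (by norm_num) le_rfl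
  rwa [c3n_two] at this
noncomputable def rh : Fin 8 → ℝ := ![0, 1 / 10, 3 / 10, 3 / 5, 9 / 10, 13 / 10, 8 / 5, 2]
noncomputable def PP : Pos 7 where
  ρ := rh
  zero := by simp [rh]
  last := by simp [rh, Fin.last]
  mono := by
    intro i j h
    fin_cases i <;> fin_cases j <;> simp_all [rh] <;> norm_num
theorem cv1m_v (y : ℝ) : cv1m.v y = c1n y * (1 - 1 / 10) + (swn y + 1 / 2) * (1 / 10) := by
  simp only [cv1m, c1g_v, c3g_v, swg_v]
  push_cast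
  ring
theorem cv2m_v (y : ℝ) : cv2m.v y = c1n y * (1 - 3 / 10) + (swn y + 1 / 2) * (3 / 10) := by
  simp only [cv2m, c1g_v, c3g_v, swg_v]
  push_cast
  ring
theorem cv3m_v (y : ℝ) : cv3m.v y = c1n y * (1 - 3 / 5) + (swn y + 1 / 2) * (3 / 5) := by
  simp only [cv3m, c1g_v, c3g_v, swg_v]
  push_cast
  ring
theorem cv4m_v (y : ℝ) : cv4m.v y = c1n y * (1 - 9 / 10) + (swn y + 1 / 2) * (9 / 10) := by
  simp only [cv4m, c1g_v, c3g_v, swg_v]
  push_cast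
  ring
theorem cv5m_v (y : ℝ) : cv5m.v y = (swn y + 1 / 2) * (2 - 13 / 10) + c3n y * (13 / 10 - 1) := by
  simp only [cv5m, c1g_v, c3g_v, swg_v]
  push_cast
  ring
theorem cv6m_v (y : ℝ) : cv6m.v y = (swn y + 1 / 2) * (2 - 8 / 5) + c3n y * (8 / 5 - 1) := by
  simp only [cv6m, c1g_v, c3g_v, swg_v]
  push_cast
  ring
theorem cv1p_v (y : ℝ) : cv1p.v y = c1n y * (1 - 1 / 10) + (swn y - 1 / 2) * (1 / 10) := by
  simp only [cv1p, c1g_v, c3g_v, swg_v]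
  push_cast
  ring
theorem cv2p_v (y : ℝ) : cv2p.v y = c1n y * (1 - 3 / 10) + (swn y - 1 / 2) * (3 / 10) := by
  simp only [cv2p, c1g_v, c3g_v, swg_v]
  push_cast
  ring
theorem cv3p_v (y : ℝ) : cv3p.v y = c1n y * (1 - 3 / 5) + (swn y - 1 / 2) * (3 / 5) := by
  simp only [cv3p, c1g_v, c3g_v, swg_v]
  push_cast
  ring
theorem cv4p_v (y : ℝ) : cv4p.v y = c1n y * (1 - 9 / 10) + (swn y - 1 / 2) * (9 / 10) := by
  simp only [cv4p, c1g_v, c3g_v, swg_v]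
  push_cast
  ring
theorem cv5p_v (y : ℝ) : cv5p.v y = (swn y - 1 / 2) * (2 - 13 / 10) + c3n y * (13 / 10 - 1) := by
  simp only [cv5p, c1g_v, c3g_v, swg_v]
  push_cast
  ring
theorem cv6p_v (y : ℝ) : cv6p.v y = (swn y - 1 / 2) * (2 - 8 / 5) + c3n y * (8 / 5 - 1) := by
  simp only [cv6p, c1g_v, c3g_v, swg_v]
  push_cast
  ring
theorem cv1r_v (y : ℝ) : cv1r.v y = (swn y - 1 / 2) * (1 / 10) := by
  simp only [cv1r, c1g_v, c3g_v, swg_v]
  push_cast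
  ring
theorem cv2r_v (y : ℝ) : cv2r.v y = (swn y - 1 / 2) * (3 / 10) := by
  simp only [cv2r, c1g_v, c3g_v, swg_v]
  push_cast
  ring
theorem cv3r_v (y : ℝ) : cv3r.v y = (swn y - 1 / 2) * (3 / 5) := by
  simp only [cv3r, c1g_v, c3g_v, swg_v]
  push_cast
  ring
theorem cv4r_v (y : ℝ) : cv4r.v y = (swn y - 1 / 2) * (9 / 10) := by
  simp only [cv4r, c1g_v, c3g_v, swg_v]
  push_cast
  ring
theorem cv5r_v (y : ℝ) : cv5r.v y = (swn y - 1 / 2) * (2 - 13 / 10) + c3n y * (13 / 10 - 1) := by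
  simp only [cv5r, c1g_v, c3g_v, swg_v]
  push_cast
  ring
theorem cv6r_v (y : ℝ) : cv6r.v y = (swn y - 1 / 2) * (2 - 8 / 5) + c3n y * (8 / 5 - 1) := by
  simp only [cv6r, c1g_v, c3g_v, swg_v]
  push_cast
  ring
theorem crv0 (q : ℕ) (y : ℝ) : crv PP 0 q y = c1n y := by simp [crv, gamn, PP, rh]
theorem crv1 (q : ℕ) (y : ℝ) : crv PP 1 q y = c1n y * (1 - 1 / 10) + Wn (decide (2 ≤ q)) y * (1 / 10) := by
  have : PP.ρ 1 = 1 / 10 := rfl
  simp only [crv, gamn, this]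
  rw [if_pos (by norm_num)]
  ring
theorem crv2 (q : ℕ) (y : ℝ) : crv PP 2 q y = c1n y * (1 - 3 / 10) + Wn (decide (2 ≤ q)) y * (3 / 10) := by
  have : PP.ρ 2 = 3 / 10 := rfl
  simp only [crv, gamn, this]
  rw [if_pos (by norm_num)]
  ring
theorem crv3 (q : ℕ) (y : ℝ) : crv PP 3 q y = c1n y * (1 - 3 / 5) + Wn (decide (2 ≤ q)) y * (3 / 5) := by
  have : PP.ρ 3 = 3 / 5 := rfl
  simp only [crv, gamn, this]
  rw [if_pos (by norm_num)]
  ring
theorem crv4 (q : ℕ) (y : ℝ) : crv PP 4 q y = c1n y * (1 - 9 / 10) + Wn (decide (2 ≤ q)) y * (9 / 10) := by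
  have : PP.ρ 4 = 9 / 10 := rfl
  simp only [crv, gamn, this]
  rw [if_pos (by norm_num)]
  ring
theorem crv5 (q : ℕ) (y : ℝ) : crv PP 5 q y = Wn (decide (2 ≤ q)) y * (2 - 13 / 10) + c3n y * (13 / 10 - 1) := by
  have : PP.ρ 5 = 13 / 10 := rfl
  simp only [crv, gamn, this]
  rw [if_neg (by norm_num)]
  ring
theorem crv6 (q : ℕ) (y : ℝ) : crv PP 6 q y = Wn (decide (2 ≤ q)) y * (2 - 8 / 5) + c3n y * (8 / 5 - 1) := by
  have : PP.ρ 6 = 8 / 5 := rfl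
  simp only [crv, gamn, this]
  rw [if_neg (by norm_num)]
  ring
theorem crv7 (q : ℕ) (y : ℝ) : crv PP 7 q y = c3n y := by
  have : PP.ρ 7 = 2 := rfl
  simp only [crv, gamn, this]
  rw [if_neg (by norm_num)]
  ring
noncomputable def crd (j : Fin 8) (q : ℕ) (y : ℝ) : ℝ :=
  match j, q with
  | 0, 2 => c1n y
  | 5, 3 => c3n y
  | 6, 3 => c3n y
  | 7, 3 => c3n y
  | _, _ => y
theorem onc {j : Fin 8} {q : ℕ} {y : ℝ} (hq : InQ q y) (hj : j ≠ 0) : OnC j q y := ⟨hq, fun h => absurd h hj⟩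
theorem c1g_off {y : ℝ} (h : 1 ≤ h0 * y) : c1g.v y = 0 := by rw [c1g_v]; exact c1n_off h
theorem c1g_sq {y : ℝ} (hy : 0 ≤ y) (h : h0 * y < 1) : 0 ≤ c1g.v y ∧ c1g.v y ^ 2 = 1 - 3 / 4 * y ^ 2 := by
  rw [c1g_v]
  exact ⟨Real.sqrt_nonneg _, c1n_sq (on_sq hy h).le⟩
theorem lm0m_v (X y : ℝ) : lm0m.v X y = lam (X - c1g.v y) (cv1m.v y - c1g.v y) := rfl
theorem lm0p_v (X y : ℝ) : lm0p.v X y = lam (X - c1g.v y) (cv1p.v y - c1g.v y) := rfl
theorem lm1m_v (X y : ℝ) : lm1m.v X y = lam (X - cv1m.v y) (cv2m.v y - cv1m.v y) := rfl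
theorem lm1p_v (X y : ℝ) : lm1p.v X y = lam (X - cv1p.v y) (cv2p.v y - cv1p.v y) := rfl
theorem lm1r_v (X y : ℝ) : lm1r.v X y = lam (X - cv1r.v y) (cv2r.v y - cv1r.v y) := rfl
theorem lm2m_v (X y : ℝ) : lm2m.v X y = lam (X - cv2m.v y) (cv3m.v y - cv2m.v y) := rfl
theorem lm2p_v (X y : ℝ) : lm2p.v X y = lam (X - cv2p.v y) (cv3p.v y - cv2p.v y) := rfl
theorem lm2r_v (X y : ℝ) : lm2r.v X y = lam (X - cv2r.v y) (cv3r.v y - cv2r.v y) := rfl
theorem lm3m_v (X y : ℝ) : lm3m.v X y = lam (X - cv3m.v y) (cv4m.v y - cv3m.v y) := rfl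
theorem lm3p_v (X y : ℝ) : lm3p.v X y = lam (X - cv3p.v y) (cv4p.v y - cv3p.v y) := rfl
theorem lm3r_v (X y : ℝ) : lm3r.v X y = lam (X - cv3r.v y) (cv4r.v y - cv3r.v y) := rfl
theorem lm4m_v (X y : ℝ) : lm4m.v X y = lam (X - cv4m.v y) (cv5m.v y - cv4m.v y) := rfl
theorem lm4p_v (X y : ℝ) : lm4p.v X y = lam (X - cv4p.v y) (cv5p.v y - cv4p.v y) := rfl
theorem lm4r_v (X y : ℝ) : lm4r.v X y = lam (X - cv4r.v y) (cv5r.v y - cv4r.v y) := rfl
theorem lm5m_v (X y : ℝ) : lm5m.v X y = lam (X - cv5m.v y) (cv6m.v y - cv5m.v y) := rfl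
theorem lm5p_v (X y : ℝ) : lm5p.v X y = lam (X - cv5p.v y) (cv6p.v y - cv5p.v y) := rfl
theorem lm5r_v (X y : ℝ) : lm5r.v X y = lam (X - cv5r.v y) (cv6r.v y - cv5r.v y) := rfl
theorem lm6m_v (X y : ℝ) : lm6m.v X y = lam (X - cv6m.v y) (c3g.v y - cv6m.v y) := rfl
theorem lm6p_v (X y : ℝ) : lm6p.v X y = lam (X - cv6p.v y) (c3g.v y - cv6p.v y) := rfl
theorem lm6r_v (X y : ℝ) : lm6r.v X y = lam (X - cv6r.v y) (c3g.v y - cv6r.v y) := rfl
theorem ecv1q0 {y : ℝ} : crv PP 1 0 y = cv1m.v y := by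
  rw [crv1, cv1m_v, wn0]
theorem ecv2q0 {y : ℝ} : crv PP 2 0 y = cv2m.v y := by
  rw [crv2, cv2m_v, wn0]
theorem ecv3q0 {y : ℝ} : crv PP 3 0 y = cv3m.v y := by
  rw [crv3, cv3m_v, wn0]
theorem ecv4q0 {y : ℝ} : crv PP 4 0 y = cv4m.v y := by
  rw [crv4, cv4m_v, wn0]
theorem ecv5q0 {y : ℝ} : crv PP 5 0 y = cv5m.v y := by
  rw [crv5, cv5m_v, wn0]
theorem ecv6q0 {y : ℝ} : crv PP 6 0 y = cv6m.v y := by
  rw [crv6, cv6m_v, wn0]
theorem ecv1q1 {y : ℝ} : crv PP 1 1 y = cv1m.v y := by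
  rw [crv1, cv1m_v, wn1]
theorem ecv2q1 {y : ℝ} : crv PP 2 1 y = cv2m.v y := by
  rw [crv2, cv2m_v, wn1]
theorem ecv3q1 {y : ℝ} : crv PP 3 1 y = cv3m.v y := by
  rw [crv3, cv3m_v, wn1]
theorem ecv4q1 {y : ℝ} : crv PP 4 1 y = cv4m.v y := by
  rw [crv4, cv4m_v, wn1]
theorem ecv5q1 {y : ℝ} : crv PP 5 1 y = cv5m.v y := by
  rw [crv5, cv5m_v, wn1]
theorem ecv6q1 {y : ℝ} : crv PP 6 1 y = cv6m.v y := by
  rw [crv6, cv6m_v, wn1]
theorem ecv1q2 {y : ℝ} : crv PP 1 2 y = cv1p.v y := by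
  rw [crv1, cv1p_v, wn2]
theorem ecv2q2 {y : ℝ} : crv PP 2 2 y = cv2p.v y := by
  rw [crv2, cv2p_v, wn2]
theorem ecv3q2 {y : ℝ} : crv PP 3 2 y = cv3p.v y := by
  rw [crv3, cv3p_v, wn2]
theorem ecv4q2 {y : ℝ} : crv PP 4 2 y = cv4p.v y := by
  rw [crv4, cv4p_v, wn2]
theorem ecv5q2 {y : ℝ} : crv PP 5 2 y = cv5p.v y := by
  rw [crv5, cv5p_v, wn2]
theorem ecv6q2 {y : ℝ} : crv PP 6 2 y = cv6p.v y := by
  rw [crv6, cv6p_v, wn2]
theorem ecv1q3 {y : ℝ} (hy : 3 / 2 ≤ y) : crv PP 1 3 y = cv1r.v y := by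
  rw [crv1, cv1r_v, wn3, c1n_off (off_y hy)]
  ring
theorem ecv2q3 {y : ℝ} (hy : 3 / 2 ≤ y) : crv PP 2 3 y = cv2r.v y := by
  rw [crv2, cv2r_v, wn3, c1n_off (off_y hy)]
  ring
theorem ecv3q3 {y : ℝ} (hy : 3 / 2 ≤ y) : crv PP 3 3 y = cv3r.v y := by
  rw [crv3, cv3r_v, wn3, c1n_off (off_y hy)]
  ring
theorem ecv4q3 {y : ℝ} (hy : 3 / 2 ≤ y) : crv PP 4 3 y = cv4r.v y := by
  rw [crv4, cv4r_v, wn3, c1n_off (off_y hy)]
  ring
theorem ecv5q3 {y : ℝ} (hy : 3 / 2 ≤ y) : crv PP 5 3 y = cv5r.v y := by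
  rw [crv5, cv5r_v, wn3]
theorem ecv6q3 {y : ℝ} (hy : 3 / 2 ≤ y) : crv PP 6 3 y = cv6r.v y := by
  rw [crv6, cv6r_v, wn3]
theorem kcg_near {p x : ℝ} (h1 : -(1 / 20) < p) (h2 : p < 1 / 20) : kcg.v p x = (14430391 / 5000000) * p := by
  simp only [kcg, kcg_3, kcg_6, kcg_9, kcg_12, kcg_13, kcg_16, kcg_28, kcg_36, kcg_41, kcg_51, kcg_59, kcg_60, kcg_65, kcg_77, kcg_84, kcg_85, kcg_90, kcg_101, kcg_106, kcg_111, kcg_123, kcg_133, kcg_136, kcg_137, kcg_141, kcg_153, kcg_158, kcg_161, kcg_171, kcg_179, kcg_180, kcg_184, kcg_194, kcg_202, kcg_206, kcg_215, kcg_220, kcg_227, kcg_228, kcg_229, kcg_249, kcg_258, kcg_278, kcg_279, kcg_300]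
  rcases le_or_gt p 0 with hp | hp
  · ((try push_cast); (repeat first | rw [if_pos (by linarith)] | rw [if_neg (by linarith)] | erw [if_pos (by linarith)] | erw [if_neg (by linarith)]); (try ring1))
  · ((try push_cast); (repeat first | rw [if_pos (by linarith)] | rw [if_neg (by linarith)] | erw [if_pos (by linarith)] | erw [if_neg (by linarith)]); (try ring1))
theorem txg_nearL {p c x : ℝ} (h1 : -(1 / 100) < p) (h2 : p ≤ 0) : txg.v p c x = (506230761 / 5000000000 + (x - 67 / 100) * (40410769 / 750000000) + (x - 67 / 100) ^ 2 * (2033 / 12500000)) + (19691389 / 100000000 + (x - 67 / 100) * (-7622347 / 7500000) + (x - 67 / 100) ^ 2 * (-2033 / 250000)) * p + (-277511 / 1000000 + (x - 67 / 100) * (120113 / 12500) + (x - 67 / 100) ^ 2 * (-2033 / 2500)) * p ^ 2 := by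
  simp only [txg, txg_4, txg_6, txg_26, txg_29, txg_32, txg_55, txg_95, txg_98, txg_139, txg_183, txg_186, txg_189, txg_226, txg_265, txg_268, txg_307, txg_341, txg_363, txg_365, txg_367, txg_369, txg_419, txg_462, txg_464, txg_506]
  ((try push_cast); (repeat first | rw [if_pos (by linarith)] | rw [if_neg (by linarith)] | erw [if_pos (by linarith)] | erw [if_neg (by linarith)]); (try ring1))
theorem txg_nearR {p c x : ℝ} (h1 : 0 ≤ p) (h2 : p < 1 / 100) : txg.v p c x = (506230761 / 5000000000 + (x - 67 / 100) * (40410769 / 750000000) + (x - 67 / 100) ^ 2 * (2033 / 12500000)) + (19691389 / 100000000 + (x - 67 / 100) * (-7622347 / 7500000) + (x - 67 / 100) ^ 2 * (-2033 / 250000)) * p + (-277511 / 1000000 + (x - 67 / 100) * (120113 / 12500) + (x - 67 / 100) ^ 2 * (-2033 / 2500)) * p ^ 2 := by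
  simp only [txg, txg_4, txg_6, txg_26, txg_29, txg_32, txg_55, txg_95, txg_98, txg_139, txg_183, txg_186, txg_189, txg_226, txg_265, txg_268, txg_307, txg_341, txg_363, txg_365, txg_367, txg_369, txg_419, txg_462, txg_464, txg_506]
  ((try push_cast); (repeat first | rw [if_pos (by linarith)] | rw [if_neg (by linarith)] | erw [if_pos (by linarith)] | erw [if_neg (by linarith)]); (try ring1))
noncomputable def ndB (j : Fin 8) (q : ℕ) : Node :=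
  match j, q with
  | 0, 0 => ndB0q0
  | 0, 1 => ndB0q1
  | 0, 2 => ndB0q2
  | 1, 0 => ndB1q0
  | 1, 1 => ndB1q1
  | 1, 2 => ndB1q2
  | 1, 3 => ndB1q3
  | 2, 0 => ndB2q0
  | 2, 1 => ndB2q1
  | 2, 2 => ndB2q2
  | 2, 3 => ndB2q3
  | 3, 0 => ndB3q0
  | 3, 1 => ndB3q1
  | 3, 2 => ndB3q2
  | 3, 3 => ndB3q3
  | 4, 0 => ndB4q0
  | 4, 1 => ndB4q1
  | 4, 2 => ndB4q2
  | 4, 3 => ndB4q3
  | 5, 0 => ndB5q0
  | 5, 1 => ndB5q1
  | 5, 2 => ndB5q2
  | 5, 3 => ndB5q3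
  | 6, 0 => ndB6q0
  | 6, 1 => ndB6q1
  | 6, 2 => ndB6q2
  | 6, 3 => ndB6q3
  | 7, 0 => ndB7q0
  | 7, 1 => ndB7q1
  | 7, 2 => ndB7q2
  | 7, 3 => ndB7q3
  | _, _ => ndB0q0
noncomputable def nc (j : Fin 8) (q : ℕ) : Fn2 :=
  match j, q with
  | 0, 0 => cd0q0
  | 0, 1 => cd0q1
  | 0, 2 => cd0q2
  | 1, 0 => cd1q0
  | 1, 1 => cd1q1
  | 1, 2 => cd1q2
  | 1, 3 => cd1q3
  | 2, 0 => cd2q0
  | 2, 1 => cd2q1
  | 2, 2 => cd2q2
  | 2, 3 => cd2q3
  | 3, 0 => cd3q0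
  | 3, 1 => cd3q1
  | 3, 2 => cd3q2
  | 3, 3 => cd3q3
  | 4, 0 => cd4q0
  | 4, 1 => cd4q1
  | 4, 2 => cd4q2
  | 4, 3 => cd4q3
  | 5, 0 => cd5q0
  | 5, 1 => cd5q1
  | 5, 2 => cd5q2
  | 5, 3 => cd5q3
  | 6, 0 => cd6q0
  | 6, 1 => cd6q1
  | 6, 2 => cd6q2
  | 6, 3 => cd6q3
  | 7, 0 => cd7q0
  | 7, 1 => cd7q1
  | 7, 2 => cd7q2
  | 7, 3 => cd7q3
  | _, _ => cd0q0
noncomputable def pcB (q : ℕ) : Piece :=
  match q with
  | 0 => pcB0
  | 1 => pcB1
  | 2 => pcB2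
  | _ => pcB3
noncomputable def pd (q : ℕ) : Fn3 :=
  match q with
  | 0 => pd0
  | 1 => pd1
  | 2 => pd2
  | _ => pd3
theorem nBY0 (q : ℕ) (y : ℝ) (h : OnC (0 : Fin 8) q y) : (ndB 0 q).Y.v (crd 0 q y) = y := by
  have h1 := h.1.nonneg
  have h2 := h.1.le_two
  match q, h with
  | 0, _ => rfl
  | 1, _ => rfl
  | 2, h => exact yag_v h1 (h.2 rfl)
  | 3, h => exact absurd h.1.1 (by linarith [y_lt (h.2 rfl)])
  | _ + 4, h => exact h.1.elim
theorem nBX0 (q : ℕ) (y : ℝ) (h : OnC (0 : Fin 8) q y) : (ndB 0 q).X.v (crd 0 q y) = crv PP 0 q y := by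
  have h1 := h.1.nonneg
  have h2 := h.1.le_two
  match q, h with
  | 0, _ =>
    rw [crv0]
    exact congrFun c1g_v y
  | 1, _ =>
    rw [crv0]
    exact congrFun c1g_v y
  | 2, _ =>
    rw [crv0]
    rfl
  | 3, h => exact absurd h.1.1 (by linarith [y_lt (h.2 rfl)])
  | _ + 4, h => exact h.1.elim
theorem nBY1 (q : ℕ) (y : ℝ) (h : OnC (1 : Fin 8) q y) : (ndB 1 q).Y.v (crd 1 q y) = y := by
  have h1 := h.1.nonneg
  have h2 := h.1.le_two
  match q, h with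
  | 0, _ => rfl
  | 1, _ => rfl
  | 2, h => rfl
  | 3, h => rfl
  | _ + 4, h => exact h.1.elim
theorem nBX1 (q : ℕ) (y : ℝ) (h : OnC (1 : Fin 8) q y) : (ndB 1 q).X.v (crd 1 q y) = crv PP 1 q y := by
  have h1 := h.1.nonneg
  have h2 := h.1.le_two
  match q, h with
  | 0, _ => exact ecv1q0.symm
  | 1, _ => exact ecv1q1.symm
  | 2, _ => exact ecv1q2.symm
  | 3, h => exact (ecv1q3 h.1.1).symm
  | _ + 4, h => exact h.1.elim
theorem nBY2 (q : ℕ) (y : ℝ) (h : OnC (2 : Fin 8) q y) : (ndB 2 q).Y.v (crd 2 q y) = y := by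
  have h1 := h.1.nonneg
  have h2 := h.1.le_two
  match q, h with
  | 0, _ => rfl
  | 1, _ => rfl
  | 2, h => rfl
  | 3, h => rfl
  | _ + 4, h => exact h.1.elim
theorem nBX2 (q : ℕ) (y : ℝ) (h : OnC (2 : Fin 8) q y) : (ndB 2 q).X.v (crd 2 q y) = crv PP 2 q y := by
  have h1 := h.1.nonneg
  have h2 := h.1.le_two
  match q, h with
  | 0, _ => exact ecv2q0.symm
  | 1, _ => exact ecv2q1.symm
  | 2, _ => exact ecv2q2.symm
  | 3, h => exact (ecv2q3 h.1.1).symm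
  | _ + 4, h => exact h.1.elim
theorem nBY3 (q : ℕ) (y : ℝ) (h : OnC (3 : Fin 8) q y) : (ndB 3 q).Y.v (crd 3 q y) = y := by
  have h1 := h.1.nonneg
  have h2 := h.1.le_two
  match q, h with
  | 0, _ => rfl
  | 1, _ => rfl
  | 2, h => rfl
  | 3, h => rfl
  | _ + 4, h => exact h.1.elim
theorem nBX3 (q : ℕ) (y : ℝ) (h : OnC (3 : Fin 8) q y) : (ndB 3 q).X.v (crd 3 q y) = crv PP 3 q y := by
  have h1 := h.1.nonneg
  have h2 := h.1.le_two
  match q, h with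
  | 0, _ => exact ecv3q0.symm
  | 1, _ => exact ecv3q1.symm
  | 2, _ => exact ecv3q2.symm
  | 3, h => exact (ecv3q3 h.1.1).symm
  | _ + 4, h => exact h.1.elim
theorem nBY4 (q : ℕ) (y : ℝ) (h : OnC (4 : Fin 8) q y) : (ndB 4 q).Y.v (crd 4 q y) = y := by
  have h1 := h.1.nonneg
  have h2 := h.1.le_two
  match q, h with
  | 0, _ => rfl
  | 1, _ => rfl
  | 2, h => rfl
  | 3, h => rfl
  | _ + 4, h => exact h.1.elim
theorem nBX4 (q : ℕ) (y : ℝ) (h : OnC (4 : Fin 8) q y) : (ndB 4 q).X.v (crd 4 q y) = crv PP 4 q y := by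
  have h1 := h.1.nonneg
  have h2 := h.1.le_two
  match q, h with
  | 0, _ => exact ecv4q0.symm
  | 1, _ => exact ecv4q1.symm
  | 2, _ => exact ecv4q2.symm
  | 3, h => exact (ecv4q3 h.1.1).symm
  | _ + 4, h => exact h.1.elim
theorem nBY5 (q : ℕ) (y : ℝ) (h : OnC (5 : Fin 8) q y) : (ndB 5 q).Y.v (crd 5 q y) = y := by
  have h1 := h.1.nonneg
  have h2 := h.1.le_two
  match q, h with
  | 0, _ => rfl
  | 1, _ => rfl
  | 2, h => rfl
  | 3, h => exact ycg_v h1 h2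
  | _ + 4, h => exact h.1.elim
theorem nBX5 (q : ℕ) (y : ℝ) (h : OnC (5 : Fin 8) q y) : (ndB 5 q).X.v (crd 5 q y) = crv PP 5 q y := by
  have h1 := h.1.nonneg
  have h2 := h.1.le_two
  match q, h with
  | 0, _ => exact ecv5q0.symm
  | 1, _ => exact ecv5q1.symm
  | 2, _ => exact ecv5q2.symm
  | 3, h =>
    rw [crv5]
    show xc53.v (c3n y) = _
    simp only [xc53, c3g_v, swg_v, wn3, ycg_v h1 h2]
    push_cast
    ring
  | _ + 4, h => exact h.1.elim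
theorem nBY6 (q : ℕ) (y : ℝ) (h : OnC (6 : Fin 8) q y) : (ndB 6 q).Y.v (crd 6 q y) = y := by
  have h1 := h.1.nonneg
  have h2 := h.1.le_two
  match q, h with
  | 0, _ => rfl
  | 1, _ => rfl
  | 2, h => rfl
  | 3, h => exact ycg_v h1 h2
  | _ + 4, h => exact h.1.elim
theorem nBX6 (q : ℕ) (y : ℝ) (h : OnC (6 : Fin 8) q y) : (ndB 6 q).X.v (crd 6 q y) = crv PP 6 q y := by
  have h1 := h.1.nonneg
  have h2 := h.1.le_two
  match q, h with
  | 0, _ => exact ecv6q0.symm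
  | 1, _ => exact ecv6q1.symm
  | 2, _ => exact ecv6q2.symm
  | 3, h =>
    rw [crv6]
    show xc63.v (c3n y) = _
    simp only [xc63, c3g_v, swg_v, wn3, ycg_v h1 h2]
    push_cast
    ring
  | _ + 4, h => exact h.1.elim
theorem nBY7 (q : ℕ) (y : ℝ) (h : OnC (7 : Fin 8) q y) : (ndB 7 q).Y.v (crd 7 q y) = y := by
  have h1 := h.1.nonneg
  have h2 := h.1.le_two
  match q, h with
  | 0, _ => rfl
  | 1, _ => rfl
  | 2, h => rfl
  | 3, h => exact ycg_v h1 h2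
  | _ + 4, h => exact h.1.elim
theorem nBX7 (q : ℕ) (y : ℝ) (h : OnC (7 : Fin 8) q y) : (ndB 7 q).X.v (crd 7 q y) = crv PP 7 q y := by
  have h1 := h.1.nonneg
  have h2 := h.1.le_two
  match q, h with
  | 0, _ =>
    rw [crv7]
    exact congrFun c3g_v y
  | 1, _ =>
    rw [crv7]
    exact congrFun c3g_v y
  | 2, _ =>
    rw [crv7]
    exact congrFun c3g_v y
  | 3, _ =>
    rw [crv7]
    rfl
  | _ + 4, h => exact h.1.elim
noncomputable abbrev tK : Fin 8 → ℕ → ℝ → ℝ → ℝ := tbF (fun j q => (ndB j q).K) crd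
noncomputable abbrev tL : Fin 8 → ℕ → ℝ → ℝ → ℝ := tbF (fun j q => (ndB j q).L) crd
noncomputable abbrev tU : Fin 8 → ℕ → ℝ → ℝ → ℝ := tbF nc crd
noncomputable abbrev tC : Fin 8 → ℕ → ℝ → ℝ → ℝ := tbF (scT esg nc) crd
theorem corB00 (x : ℝ) : (ndB 0 0).X.v 0 = 1 ∧ (ndB 0 0).K.v 0 x = 1 * (1) ∧
    (ndB 0 0).L.v 0 x = 0 ∧ (nc 0 0).v 0 x = 0 := by
  refine ⟨?_, ?_, ?_, ?_⟩
  · show c1g.v 0 = _
    simp only [cv1m, cv2m, cv3m, cv4m, cv5m, cv6m, cv1p, cv2p, cv3p, cv4p, cv5p, cv6p, cv1r, cv2r, cv3r, cv4r, cv5r, cv6r, c1g_v, swg_v, c3g_v, c1n_zero, swn_zero, c3n_zero]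
    all_goals norm_num
  · show kf0q0.v 0 x = _
    simp only [kf0q0, kf0q0_9, kf0q0_12, kcg, kcg_3, kcg_6, kcg_9, kcg_12, kcg_13, kcg_16, kcg_28, kcg_36, kcg_41, kcg_51, kcg_59, kcg_60, kcg_65, kcg_77, kcg_84, kcg_85, kcg_90, kcg_101, kcg_106, kcg_111, kcg_123, kcg_133, kcg_136, kcg_137, kcg_141, kcg_153, kcg_158, kcg_161, kcg_171, kcg_179, kcg_180, kcg_184, kcg_194, kcg_202, kcg_206, kcg_215, kcg_220, kcg_227, kcg_228, kcg_229, kcg_249, kcg_258, kcg_278, kcg_279, kcg_300, cv1m, cv2m, cv3m, cv4m, cv5m, cv6m, cv1p, cv2p, cv3p, cv4p, cv5p, cv6p, cv1r, cv2r, cv3r, cv4r, cv5r, cv6r, c1g_v, swg_v, c3g_v, c1n_zero, swn_zero, c3n_zero, ya1]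
    all_goals ((try norm_num) <;> (try ring))
  · show l0q0.v 0 x = _
    simp only [l0q0, txg, txg_4, txg_6, txg_26, txg_29, txg_32, txg_55, txg_95, txg_98, txg_139, txg_183, txg_186, txg_189, txg_226, txg_265, txg_268, txg_307, txg_341, txg_363, txg_365, txg_367, txg_369, txg_419, txg_462, txg_464, txg_506, kcg, kcg_3, kcg_6, kcg_9, kcg_12, kcg_13, kcg_16, kcg_28, kcg_36, kcg_41, kcg_51, kcg_59, kcg_60, kcg_65, kcg_77, kcg_84, kcg_85, kcg_90, kcg_101, kcg_106, kcg_111, kcg_123, kcg_133, kcg_136, kcg_137, kcg_141, kcg_153, kcg_158, kcg_161, kcg_171, kcg_179, kcg_180, kcg_184, kcg_194, kcg_202, kcg_206, kcg_215, kcg_220, kcg_227, kcg_228, kcg_229, kcg_249, kcg_258, kcg_278, kcg_279, kcg_300, cv1m, cv2m, cv3m, cv4m, cv5m, cv6m, cv1p, cv2p, cv3p, cv4p, cv5p, cv6p, cv1r, cv2r, cv3r, cv4r, cv5r, cv6r, c1g_v, swg_v, c3g_v, c1n_zero, swn_zero, c3n_zero, ya1]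
    all_goals ((try norm_num) <;> (try ring))
  · show kc0q0.v 0 x = _
    simp only [kc0q0, kc0q0_3, kc0q0_8, cv1m, cv2m, cv3m, cv4m, cv5m, cv6m, cv1p, cv2p, cv3p, cv4p, cv5p, cv6p, cv1r, cv2r, cv3r, cv4r, cv5r, cv6r, c1g_v, swg_v, c3g_v, c1n_zero, swn_zero, c3n_zero, ya1]
    all_goals ((try norm_num) <;> (try ring))
theorem corB01 (x : ℝ) : (ndB 0 1).X.v 1 = 1 / 2 ∧ (ndB 0 1).K.v 1 x = 1 * (1 / 2) ∧
    (ndB 0 1).L.v 1 x = 0 ∧ (nc 0 1).v 1 x = 0 := by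
  refine ⟨?_, ?_, ?_, ?_⟩
  · show c1g.v 1 = _
    simp only [cv1m, cv2m, cv3m, cv4m, cv5m, cv6m, cv1p, cv2p, cv3p, cv4p, cv5p, cv6p, cv1r, cv2r, cv3r, cv4r, cv5r, cv6r, c1g_v, swg_v, c3g_v, c1n_one, swn_one, c3n_one]
    all_goals norm_num
  · show kf0q1.v 1 x = _
    simp only [kf0q1, kf0q1_10, kcg, kcg_3, kcg_6, kcg_9, kcg_12, kcg_13, kcg_16, kcg_28, kcg_36, kcg_41, kcg_51, kcg_59, kcg_60, kcg_65, kcg_77, kcg_84, kcg_85, kcg_90, kcg_101, kcg_106, kcg_111, kcg_123, kcg_133, kcg_136, kcg_137, kcg_141, kcg_153, kcg_158, kcg_161, kcg_171, kcg_179, kcg_180, kcg_184, kcg_194, kcg_202, kcg_206, kcg_215, kcg_220, kcg_227, kcg_228, kcg_229, kcg_249, kcg_258, kcg_278, kcg_279, kcg_300, cv1m, cv2m, cv3m, cv4m, cv5m, cv6m, cv1p, cv2p, cv3p, cv4p, cv5p, cv6p, cv1r, cv2r, cv3r, cv4r, cv5r, cv6r, c1g_v, swg_v, c3g_v, c1n_one, swn_one, c3n_one, ya1]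
    all_goals ((try norm_num) <;> (try ring))
  · show l0q1.v 1 x = _
    simp only [l0q1, txg, txg_4, txg_6, txg_26, txg_29, txg_32, txg_55, txg_95, txg_98, txg_139, txg_183, txg_186, txg_189, txg_226, txg_265, txg_268, txg_307, txg_341, txg_363, txg_365, txg_367, txg_369, txg_419, txg_462, txg_464, txg_506, kcg, kcg_3, kcg_6, kcg_9, kcg_12, kcg_13, kcg_16, kcg_28, kcg_36, kcg_41, kcg_51, kcg_59, kcg_60, kcg_65, kcg_77, kcg_84, kcg_85, kcg_90, kcg_101, kcg_106, kcg_111, kcg_123, kcg_133, kcg_136, kcg_137, kcg_141, kcg_153, kcg_158, kcg_161, kcg_171, kcg_179, kcg_180, kcg_184, kcg_194, kcg_202, kcg_206, kcg_215, kcg_220, kcg_227, kcg_228, kcg_229, kcg_249, kcg_258, kcg_278, kcg_279, kcg_300, cv1m, cv2m, cv3m, cv4m, cv5m, cv6m, cv1p, cv2p, cv3p, cv4p, cv5p, cv6p, cv1r, cv2r, cv3r, cv4r, cv5r, cv6r, c1g_v, swg_v, c3g_v, c1n_one, swn_one, c3n_one, ya1]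
    all_goals ((try norm_num) <;> (try ring))
  · show kc0q1.v 1 x = _
    simp only [kc0q1, kc0q1_3, kc0q1_9, kcg, kcg_3, kcg_6, kcg_9, kcg_12, kcg_13, kcg_16, kcg_28, kcg_36, kcg_41, kcg_51, kcg_59, kcg_60, kcg_65, kcg_77, kcg_84, kcg_85, kcg_90, kcg_101, kcg_106, kcg_111, kcg_123, kcg_133, kcg_136, kcg_137, kcg_141, kcg_153, kcg_158, kcg_161, kcg_171, kcg_179, kcg_180, kcg_184, kcg_194, kcg_202, kcg_206, kcg_215, kcg_220, kcg_227, kcg_228, kcg_229, kcg_249, kcg_258, kcg_278, kcg_279, kcg_300, cv1m, cv2m, cv3m, cv4m, cv5m, cv6m, cv1p, cv2p, cv3p, cv4p, cv5p, cv6p, cv1r, cv2r, cv3r, cv4r, cv5r, cv6r, c1g_v, swg_v, c3g_v, c1n_one, swn_one, c3n_one, ya1]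
    all_goals ((try norm_num) <;> (try ring))
theorem corB02 (x : ℝ) : (ndB 0 2).X.v (1 / 2) = 1 / 2 ∧ (ndB 0 2).K.v (1 / 2) x = 1 * (1 / 2) ∧
    (ndB 0 2).L.v (1 / 2) x = 0 ∧ (nc 0 2).v (1 / 2) x = 0 := by
  refine ⟨?_, ?_, ?_, ?_⟩
  · show idf.v (1 / 2) = _
    simp only [idf, cv1m, cv2m, cv3m, cv4m, cv5m, cv6m, cv1p, cv2p, cv3p, cv4p, cv5p, cv6p, cv1r, cv2r, cv3r, cv4r, cv5r, cv6r, c1g_v, swg_v, c3g_v, c1n_one, swn_one, c3n_one]
    all_goals norm_num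
  · show kfc02.v (1 / 2) x = _
    simp only [kfc02, kcg, kcg_3, kcg_6, kcg_9, kcg_12, kcg_13, kcg_16, kcg_28, kcg_36, kcg_41, kcg_51, kcg_59, kcg_60, kcg_65, kcg_77, kcg_84, kcg_85, kcg_90, kcg_101, kcg_106, kcg_111, kcg_123, kcg_133, kcg_136, kcg_137, kcg_141, kcg_153, kcg_158, kcg_161, kcg_171, kcg_179, kcg_180, kcg_184, kcg_194, kcg_202, kcg_206, kcg_215, kcg_220, kcg_227, kcg_228, kcg_229, kcg_249, kcg_258, kcg_278, kcg_279, kcg_300, cv1m, cv2m, cv3m, cv4m, cv5m, cv6m, cv1p, cv2p, cv3p, cv4p, cv5p, cv6p, cv1r, cv2r, cv3r, cv4r, cv5r, cv6r, c1g_v, swg_v, c3g_v, c1n_one, swn_one, c3n_one, ya1]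
    all_goals ((try norm_num) <;> (try ring))
  · show lc02.v (1 / 2) x = _
    simp only [lc02, lc02_7, lc02_8, txg, txg_4, txg_6, txg_26, txg_29, txg_32, txg_55, txg_95, txg_98, txg_139, txg_183, txg_186, txg_189, txg_226, txg_265, txg_268, txg_307, txg_341, txg_363, txg_365, txg_367, txg_369, txg_419, txg_462, txg_464, txg_506, kcg, kcg_3, kcg_6, kcg_9, kcg_12, kcg_13, kcg_16, kcg_28, kcg_36, kcg_41, kcg_51, kcg_59, kcg_60, kcg_65, kcg_77, kcg_84, kcg_85, kcg_90, kcg_101, kcg_106, kcg_111, kcg_123, kcg_133, kcg_136, kcg_137, kcg_141, kcg_153, kcg_158, kcg_161, kcg_171, kcg_179, kcg_180, kcg_184, kcg_194, kcg_202, kcg_206, kcg_215, kcg_220, kcg_227, kcg_228, kcg_229, kcg_249, kcg_258, kcg_278, kcg_279, kcg_300, cv1m, cv2m, cv3m, cv4m, cv5m, cv6m, cv1p, cv2p, cv3p, cv4p, cv5p, cv6p, cv1r, cv2r, cv3r, cv4r, cv5r, cv6r, c1g_v, swg_v, c3g_v, c1n_one, swn_one, c3n_one, ya1]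
    all_goals ((try norm_num) <;> (try ring))
  · show kcc02.v (1 / 2) x = _
    simp only [kcc02, kcc02_4, cv1m, cv2m, cv3m, cv4m, cv5m, cv6m, cv1p, cv2p, cv3p, cv4p, cv5p, cv6p, cv1r, cv2r, cv3r, cv4r, cv5r, cv6r, c1g_v, swg_v, c3g_v, c1n_one, swn_one, c3n_one, ya1]
    all_goals ((try norm_num) <;> (try ring))
theorem corB10 (x : ℝ) : (ndB 1 0).X.v 0 = 1 ∧ (ndB 1 0).K.v 0 x = 1 * (1) ∧
    (ndB 1 0).L.v 0 x = 0 ∧ (nc 1 0).v 0 x = 0 := by
  refine ⟨?_, ?_, ?_, ?_⟩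
  · show cv1m.v 0 = _
    simp only [cv1m, cv1m, cv2m, cv3m, cv4m, cv5m, cv6m, cv1p, cv2p, cv3p, cv4p, cv5p, cv6p, cv1r, cv2r, cv3r, cv4r, cv5r, cv6r, c1g_v, swg_v, c3g_v, c1n_zero, swn_zero, c3n_zero]
    all_goals norm_num
  · show kf1q0.v 0 x = _
    simp only [kf1q0, bf1q0, bf1q0_3, cv1m, cv2m, cv3m, cv4m, cv5m, cv6m, cv1p, cv2p, cv3p, cv4p, cv5p, cv6p, cv1r, cv2r, cv3r, cv4r, cv5r, cv6r, c1g_v, swg_v, c3g_v, c1n_zero, swn_zero, c3n_zero, ya1]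
    all_goals ((try norm_num) <;> (try ring))
  · show l1q0.v 0 x = _
    simp only [l1q0, bx1q0, bx1q0_3, cv1m, cv2m, cv3m, cv4m, cv5m, cv6m, cv1p, cv2p, cv3p, cv4p, cv5p, cv6p, cv1r, cv2r, cv3r, cv4r, cv5r, cv6r, c1g_v, swg_v, c3g_v, c1n_zero, swn_zero, c3n_zero, ya1]
    all_goals ((try norm_num) <;> (try ring))
  · show kc1q0.v 0 x = _
    simp only [kc1q0, bd1q0, cv1m, cv2m, cv3m, cv4m, cv5m, cv6m, cv1p, cv2p, cv3p, cv4p, cv5p, cv6p, cv1r, cv2r, cv3r, cv4r, cv5r, cv6r, c1g_v, swg_v, c3g_v, c1n_zero, swn_zero, c3n_zero, ya1]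
    all_goals ((try norm_num) <;> (try ring))
theorem corB12 (x : ℝ) : (ndB 1 2).X.v 1 = 1 / 2 ∧ (ndB 1 2).K.v 1 x = 1 * (1 / 2) ∧
    (ndB 1 2).L.v 1 x = 0 ∧ (nc 1 2).v 1 x = 0 := by
  refine ⟨?_, ?_, ?_, ?_⟩
  · show cv1p.v 1 = _
    simp only [cv1p, cv1m, cv2m, cv3m, cv4m, cv5m, cv6m, cv1p, cv2p, cv3p, cv4p, cv5p, cv6p, cv1r, cv2r, cv3r, cv4r, cv5r, cv6r, c1g_v, swg_v, c3g_v, c1n_one, swn_one, c3n_one]
    all_goals norm_num
  · show kf1q2.v 1 x = _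
    simp only [kf1q2, kf1q2_4, kf1q2_9, cv1m, cv2m, cv3m, cv4m, cv5m, cv6m, cv1p, cv2p, cv3p, cv4p, cv5p, cv6p, cv1r, cv2r, cv3r, cv4r, cv5r, cv6r, c1g_v, swg_v, c3g_v, c1n_one, swn_one, c3n_one, ya1]
    all_goals ((try norm_num) <;> (try ring))
  · show l1q2.v 1 x = _
    simp only [l1q2, l1q2_4, l1q2_12, cv1m, cv2m, cv3m, cv4m, cv5m, cv6m, cv1p, cv2p, cv3p, cv4p, cv5p, cv6p, cv1r, cv2r, cv3r, cv4r, cv5r, cv6r, c1g_v, swg_v, c3g_v, c1n_one, swn_one, c3n_one, ya1]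
    all_goals ((try norm_num) <;> (try ring))
  · show kc1q2.v 1 x = _
    simp only [kc1q2, kc1q2_4, kc1q2_11, cv1m, cv2m, cv3m, cv4m, cv5m, cv6m, cv1p, cv2p, cv3p, cv4p, cv5p, cv6p, cv1r, cv2r, cv3r, cv4r, cv5r, cv6r, c1g_v, swg_v, c3g_v, c1n_one, swn_one, c3n_one, ya1]
    all_goals ((try norm_num) <;> (try ring))
theorem corB20 (x : ℝ) : (ndB 2 0).X.v 0 = 1 ∧ (ndB 2 0).K.v 0 x = 1 * (1) ∧
    (ndB 2 0).L.v 0 x = 0 ∧ (nc 2 0).v 0 x = 0 := by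
  refine ⟨?_, ?_, ?_, ?_⟩
  · show cv2m.v 0 = _
    simp only [cv2m, cv1m, cv2m, cv3m, cv4m, cv5m, cv6m, cv1p, cv2p, cv3p, cv4p, cv5p, cv6p, cv1r, cv2r, cv3r, cv4r, cv5r, cv6r, c1g_v, swg_v, c3g_v, c1n_zero, swn_zero, c3n_zero]
    all_goals norm_num
  · show kf2q0.v 0 x = _
    simp only [kf2q0, bf2q0, bf2q0_3, cv1m, cv2m, cv3m, cv4m, cv5m, cv6m, cv1p, cv2p, cv3p, cv4p, cv5p, cv6p, cv1r, cv2r, cv3r, cv4r, cv5r, cv6r, c1g_v, swg_v, c3g_v, c1n_zero, swn_zero, c3n_zero, ya1]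
    all_goals ((try norm_num) <;> (try ring))
  · show l2q0.v 0 x = _
    simp only [l2q0, bx2q0, bx2q0_3, cv1m, cv2m, cv3m, cv4m, cv5m, cv6m, cv1p, cv2p, cv3p, cv4p, cv5p, cv6p, cv1r, cv2r, cv3r, cv4r, cv5r, cv6r, c1g_v, swg_v, c3g_v, c1n_zero, swn_zero, c3n_zero, ya1]
    all_goals ((try norm_num) <;> (try ring))
  · show kc2q0.v 0 x = _
    simp only [kc2q0, bd2q0, cv1m, cv2m, cv3m, cv4m, cv5m, cv6m, cv1p, cv2p, cv3p, cv4p, cv5p, cv6p, cv1r, cv2r, cv3r, cv4r, cv5r, cv6r, c1g_v, swg_v, c3g_v, c1n_zero, swn_zero, c3n_zero, ya1]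
    all_goals ((try norm_num) <;> (try ring))
theorem corB22 (x : ℝ) : (ndB 2 2).X.v 1 = 1 / 2 ∧ (ndB 2 2).K.v 1 x = 1 * (1 / 2) ∧
    (ndB 2 2).L.v 1 x = 0 ∧ (nc 2 2).v 1 x = 0 := by
  refine ⟨?_, ?_, ?_, ?_⟩
  · show cv2p.v 1 = _
    simp only [cv2p, cv1m, cv2m, cv3m, cv4m, cv5m, cv6m, cv1p, cv2p, cv3p, cv4p, cv5p, cv6p, cv1r, cv2r, cv3r, cv4r, cv5r, cv6r, c1g_v, swg_v, c3g_v, c1n_one, swn_one, c3n_one]
    all_goals norm_num
  · show kf2q2.v 1 x = _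
    simp only [kf2q2, kf2q2_4, cv1m, cv2m, cv3m, cv4m, cv5m, cv6m, cv1p, cv2p, cv3p, cv4p, cv5p, cv6p, cv1r, cv2r, cv3r, cv4r, cv5r, cv6r, c1g_v, swg_v, c3g_v, c1n_one, swn_one, c3n_one, ya1]
    all_goals ((try norm_num) <;> (try ring))
  · show l2q2.v 1 x = _
    simp only [l2q2, l2q2_4, cv1m, cv2m, cv3m, cv4m, cv5m, cv6m, cv1p, cv2p, cv3p, cv4p, cv5p, cv6p, cv1r, cv2r, cv3r, cv4r, cv5r, cv6r, c1g_v, swg_v, c3g_v, c1n_one, swn_one, c3n_one, ya1]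
    all_goals ((try norm_num) <;> (try ring))
  · show kc2q2.v 1 x = _
    simp only [kc2q2, kc2q2_4, cv1m, cv2m, cv3m, cv4m, cv5m, cv6m, cv1p, cv2p, cv3p, cv4p, cv5p, cv6p, cv1r, cv2r, cv3r, cv4r, cv5r, cv6r, c1g_v, swg_v, c3g_v, c1n_one, swn_one, c3n_one, ya1]
    all_goals ((try norm_num) <;> (try ring))
theorem corB30 (x : ℝ) : (ndB 3 0).X.v 0 = 1 ∧ (ndB 3 0).K.v 0 x = 1 * (1) ∧
    (ndB 3 0).L.v 0 x = 0 ∧ (nc 3 0).v 0 x = 0 := by
  refine ⟨?_, ?_, ?_, ?_⟩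
  · show cv3m.v 0 = _
    simp only [cv3m, cv1m, cv2m, cv3m, cv4m, cv5m, cv6m, cv1p, cv2p, cv3p, cv4p, cv5p, cv6p, cv1r, cv2r, cv3r, cv4r, cv5r, cv6r, c1g_v, swg_v, c3g_v, c1n_zero, swn_zero, c3n_zero]
    all_goals norm_num
  · show kf3q0.v 0 x = _
    simp only [kf3q0, bf3q0, bf3q0_3, cv1m, cv2m, cv3m, cv4m, cv5m, cv6m, cv1p, cv2p, cv3p, cv4p, cv5p, cv6p, cv1r, cv2r, cv3r, cv4r, cv5r, cv6r, c1g_v, swg_v, c3g_v, c1n_zero, swn_zero, c3n_zero, ya1]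
    all_goals ((try norm_num) <;> (try ring))
  · show l3q0.v 0 x = _
    simp only [l3q0, bx3q0, bx3q0_3, cv1m, cv2m, cv3m, cv4m, cv5m, cv6m, cv1p, cv2p, cv3p, cv4p, cv5p, cv6p, cv1r, cv2r, cv3r, cv4r, cv5r, cv6r, c1g_v, swg_v, c3g_v, c1n_zero, swn_zero, c3n_zero, ya1]
    all_goals ((try norm_num) <;> (try ring))
  · show kc3q0.v 0 x = _
    simp only [kc3q0, bd3q0, cv1m, cv2m, cv3m, cv4m, cv5m, cv6m, cv1p, cv2p, cv3p, cv4p, cv5p, cv6p, cv1r, cv2r, cv3r, cv4r, cv5r, cv6r, c1g_v, swg_v, c3g_v, c1n_zero, swn_zero, c3n_zero, ya1]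
    all_goals ((try norm_num) <;> (try ring))
theorem corB32 (x : ℝ) : (ndB 3 2).X.v 1 = 1 / 2 ∧ (ndB 3 2).K.v 1 x = 1 * (1 / 2) ∧
    (ndB 3 2).L.v 1 x = 0 ∧ (nc 3 2).v 1 x = 0 := by
  refine ⟨?_, ?_, ?_, ?_⟩
  · show cv3p.v 1 = _
    simp only [cv3p, cv1m, cv2m, cv3m, cv4m, cv5m, cv6m, cv1p, cv2p, cv3p, cv4p, cv5p, cv6p, cv1r, cv2r, cv3r, cv4r, cv5r, cv6r, c1g_v, swg_v, c3g_v, c1n_one, swn_one, c3n_one]
    all_goals norm_num
  · show kf3q2.v 1 x = _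
    simp only [kf3q2, kf3q2_4, cv1m, cv2m, cv3m, cv4m, cv5m, cv6m, cv1p, cv2p, cv3p, cv4p, cv5p, cv6p, cv1r, cv2r, cv3r, cv4r, cv5r, cv6r, c1g_v, swg_v, c3g_v, c1n_one, swn_one, c3n_one, ya1]
    all_goals ((try norm_num) <;> (try ring))
  · show l3q2.v 1 x = _
    simp only [l3q2, l3q2_4, cv1m, cv2m, cv3m, cv4m, cv5m, cv6m, cv1p, cv2p, cv3p, cv4p, cv5p, cv6p, cv1r, cv2r, cv3r, cv4r, cv5r, cv6r, c1g_v, swg_v, c3g_v, c1n_one, swn_one, c3n_one, ya1]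
    all_goals ((try norm_num) <;> (try ring))
  · show kc3q2.v 1 x = _
    simp only [kc3q2, kc3q2_4, cv1m, cv2m, cv3m, cv4m, cv5m, cv6m, cv1p, cv2p, cv3p, cv4p, cv5p, cv6p, cv1r, cv2r, cv3r, cv4r, cv5r, cv6r, c1g_v, swg_v, c3g_v, c1n_one, swn_one, c3n_one, ya1]
    all_goals ((try norm_num) <;> (try ring))
theorem corB40 (x : ℝ) : (ndB 4 0).X.v 0 = 1 ∧ (ndB 4 0).K.v 0 x = 1 * (1) ∧
    (ndB 4 0).L.v 0 x = 0 ∧ (nc 4 0).v 0 x = 0 := by
  refine ⟨?_, ?_, ?_, ?_⟩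
  · show cv4m.v 0 = _
    simp only [cv4m, cv1m, cv2m, cv3m, cv4m, cv5m, cv6m, cv1p, cv2p, cv3p, cv4p, cv5p, cv6p, cv1r, cv2r, cv3r, cv4r, cv5r, cv6r, c1g_v, swg_v, c3g_v, c1n_zero, swn_zero, c3n_zero]
    all_goals norm_num
  · show kf4q0.v 0 x = _
    simp only [kf4q0, bf4q0, bf4q0_3, cv1m, cv2m, cv3m, cv4m, cv5m, cv6m, cv1p, cv2p, cv3p, cv4p, cv5p, cv6p, cv1r, cv2r, cv3r, cv4r, cv5r, cv6r, c1g_v, swg_v, c3g_v, c1n_zero, swn_zero, c3n_zero, ya1]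
    all_goals ((try norm_num) <;> (try ring))
  · show l4q0.v 0 x = _
    simp only [l4q0, bx4q0, bx4q0_3, cv1m, cv2m, cv3m, cv4m, cv5m, cv6m, cv1p, cv2p, cv3p, cv4p, cv5p, cv6p, cv1r, cv2r, cv3r, cv4r, cv5r, cv6r, c1g_v, swg_v, c3g_v, c1n_zero, swn_zero, c3n_zero, ya1]
    all_goals ((try norm_num) <;> (try ring))
  · show kc4q0.v 0 x = _
    simp only [kc4q0, bd4q0, cv1m, cv2m, cv3m, cv4m, cv5m, cv6m, cv1p, cv2p, cv3p, cv4p, cv5p, cv6p, cv1r, cv2r, cv3r, cv4r, cv5r, cv6r, c1g_v, swg_v, c3g_v, c1n_zero, swn_zero, c3n_zero, ya1]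
    all_goals ((try norm_num) <;> (try ring))
theorem corB42 (x : ℝ) : (ndB 4 2).X.v 1 = 1 / 2 ∧ (ndB 4 2).K.v 1 x = 1 * (1 / 2) ∧
    (ndB 4 2).L.v 1 x = 0 ∧ (nc 4 2).v 1 x = 0 := by
  refine ⟨?_, ?_, ?_, ?_⟩
  · show cv4p.v 1 = _
    simp only [cv4p, cv1m, cv2m, cv3m, cv4m, cv5m, cv6m, cv1p, cv2p, cv3p, cv4p, cv5p, cv6p, cv1r, cv2r, cv3r, cv4r, cv5r, cv6r, c1g_v, swg_v, c3g_v, c1n_one, swn_one, c3n_one]
    all_goals norm_num
  · show kf4q2.v 1 x = _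
    simp only [kf4q2, kf4q2_4, cv1m, cv2m, cv3m, cv4m, cv5m, cv6m, cv1p, cv2p, cv3p, cv4p, cv5p, cv6p, cv1r, cv2r, cv3r, cv4r, cv5r, cv6r, c1g_v, swg_v, c3g_v, c1n_one, swn_one, c3n_one, ya1]
    all_goals ((try norm_num) <;> (try ring))
  · show l4q2.v 1 x = _
    simp only [l4q2, l4q2_4, cv1m, cv2m, cv3m, cv4m, cv5m, cv6m, cv1p, cv2p, cv3p, cv4p, cv5p, cv6p, cv1r, cv2r, cv3r, cv4r, cv5r, cv6r, c1g_v, swg_v, c3g_v, c1n_one, swn_one, c3n_one, ya1]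
    all_goals ((try norm_num) <;> (try ring))
  · show kc4q2.v 1 x = _
    simp only [kc4q2, kc4q2_4, cv1m, cv2m, cv3m, cv4m, cv5m, cv6m, cv1p, cv2p, cv3p, cv4p, cv5p, cv6p, cv1r, cv2r, cv3r, cv4r, cv5r, cv6r, c1g_v, swg_v, c3g_v, c1n_one, swn_one, c3n_one, ya1]
    all_goals ((try norm_num) <;> (try ring))
theorem corB51 (x : ℝ) : (ndB 5 1).X.v 1 = 3 / 2 ∧ (ndB 5 1).K.v 1 x = 1 * (3 / 2) ∧
    (ndB 5 1).L.v 1 x = 0 ∧ (nc 5 1).v 1 x = 0 := by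
  refine ⟨?_, ?_, ?_, ?_⟩
  · show cv5m.v 1 = _
    simp only [cv5m, cv1m, cv2m, cv3m, cv4m, cv5m, cv6m, cv1p, cv2p, cv3p, cv4p, cv5p, cv6p, cv1r, cv2r, cv3r, cv4r, cv5r, cv6r, c1g_v, swg_v, c3g_v, c1n_one, swn_one, c3n_one]
    all_goals norm_num
  · show kf5q1.v 1 x = _
    simp only [kf5q1, bf5q1, bf5q1_3, cv1m, cv2m, cv3m, cv4m, cv5m, cv6m, cv1p, cv2p, cv3p, cv4p, cv5p, cv6p, cv1r, cv2r, cv3r, cv4r, cv5r, cv6r, c1g_v, swg_v, c3g_v, c1n_one, swn_one, c3n_one, ya1]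
    all_goals ((try norm_num) <;> (try ring))
  · show l5q1.v 1 x = _
    simp only [l5q1, bx5q1, bx5q1_3, cv1m, cv2m, cv3m, cv4m, cv5m, cv6m, cv1p, cv2p, cv3p, cv4p, cv5p, cv6p, cv1r, cv2r, cv3r, cv4r, cv5r, cv6r, c1g_v, swg_v, c3g_v, c1n_one, swn_one, c3n_one, ya1]
    all_goals ((try norm_num) <;> (try ring))
  · show kc5q1.v 1 x = _
    simp only [kc5q1, bd5q1, cv1m, cv2m, cv3m, cv4m, cv5m, cv6m, cv1p, cv2p, cv3p, cv4p, cv5p, cv6p, cv1r, cv2r, cv3r, cv4r, cv5r, cv6r, c1g_v, swg_v, c3g_v, c1n_one, swn_one, c3n_one, ya1]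
    all_goals ((try norm_num) <;> (try ring))
theorem corB61 (x : ℝ) : (ndB 6 1).X.v 1 = 3 / 2 ∧ (ndB 6 1).K.v 1 x = 1 * (3 / 2) ∧
    (ndB 6 1).L.v 1 x = 0 ∧ (nc 6 1).v 1 x = 0 := by
  refine ⟨?_, ?_, ?_, ?_⟩
  · show cv6m.v 1 = _
    simp only [cv6m, cv1m, cv2m, cv3m, cv4m, cv5m, cv6m, cv1p, cv2p, cv3p, cv4p, cv5p, cv6p, cv1r, cv2r, cv3r, cv4r, cv5r, cv6r, c1g_v, swg_v, c3g_v, c1n_one, swn_one, c3n_one]
    all_goals norm_num
  · show kf6q1.v 1 x = _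
    simp only [kf6q1, bf6q1, bf6q1_3, cv1m, cv2m, cv3m, cv4m, cv5m, cv6m, cv1p, cv2p, cv3p, cv4p, cv5p, cv6p, cv1r, cv2r, cv3r, cv4r, cv5r, cv6r, c1g_v, swg_v, c3g_v, c1n_one, swn_one, c3n_one, ya1]
    all_goals ((try norm_num) <;> (try ring))
  · show l6q1.v 1 x = _
    simp only [l6q1, bx6q1, bx6q1_3, cv1m, cv2m, cv3m, cv4m, cv5m, cv6m, cv1p, cv2p, cv3p, cv4p, cv5p, cv6p, cv1r, cv2r, cv3r, cv4r, cv5r, cv6r, c1g_v, swg_v, c3g_v, c1n_one, swn_one, c3n_one, ya1]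
    all_goals ((try norm_num) <;> (try ring))
  · show kc6q1.v 1 x = _
    simp only [kc6q1, bd6q1, cv1m, cv2m, cv3m, cv4m, cv5m, cv6m, cv1p, cv2p, cv3p, cv4p, cv5p, cv6p, cv1r, cv2r, cv3r, cv4r, cv5r, cv6r, c1g_v, swg_v, c3g_v, c1n_one, swn_one, c3n_one, ya1]
    all_goals ((try norm_num) <;> (try ring))
theorem corB71 (x : ℝ) : (ndB 7 1).X.v 1 = 3 / 2 ∧ (ndB 7 1).K.v 1 x = 1 * (3 / 2) ∧
    (ndB 7 1).L.v 1 x = 0 ∧ (nc 7 1).v 1 x = 0 := by
  refine ⟨?_, ?_, ?_, ?_⟩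
  · show c3g.v 1 = _
    simp only [cv1m, cv2m, cv3m, cv4m, cv5m, cv6m, cv1p, cv2p, cv3p, cv4p, cv5p, cv6p, cv1r, cv2r, cv3r, cv4r, cv5r, cv6r, c1g_v, swg_v, c3g_v, c1n_one, swn_one, c3n_one]
    all_goals norm_num
  · show kf7q1.v 1 x = _
    simp only [kf7q1, kcg, kcg_3, kcg_6, kcg_9, kcg_12, kcg_13, kcg_16, kcg_28, kcg_36, kcg_41, kcg_51, kcg_59, kcg_60, kcg_65, kcg_77, kcg_84, kcg_85, kcg_90, kcg_101, kcg_106, kcg_111, kcg_123, kcg_133, kcg_136, kcg_137, kcg_141, kcg_153, kcg_158, kcg_161, kcg_171, kcg_179, kcg_180, kcg_184, kcg_194, kcg_202, kcg_206, kcg_215, kcg_220, kcg_227, kcg_228, kcg_229, kcg_249, kcg_258, kcg_278, kcg_279, kcg_300, cv1m, cv2m, cv3m, cv4m, cv5m, cv6m, cv1p, cv2p, cv3p, cv4p, cv5p, cv6p, cv1r, cv2r, cv3r, cv4r, cv5r, cv6r, c1g_v, swg_v, c3g_v, c1n_one, swn_one, c3n_one, ya1]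
    all_goals ((try norm_num) <;> (try ring))
  · show l7q1.v 1 x = _
    simp only [l7q1, l7q1_7, l7q1_8, l7q1_9, txg, txg_4, txg_6, txg_26, txg_29, txg_32, txg_55, txg_95, txg_98, txg_139, txg_183, txg_186, txg_189, txg_226, txg_265, txg_268, txg_307, txg_341, txg_363, txg_365, txg_367, txg_369, txg_419, txg_462, txg_464, txg_506, kcg, kcg_3, kcg_6, kcg_9, kcg_12, kcg_13, kcg_16, kcg_28, kcg_36, kcg_41, kcg_51, kcg_59, kcg_60, kcg_65, kcg_77, kcg_84, kcg_85, kcg_90, kcg_101, kcg_106, kcg_111, kcg_123, kcg_133, kcg_136, kcg_137, kcg_141, kcg_153, kcg_158, kcg_161, kcg_171, kcg_179, kcg_180, kcg_184, kcg_194, kcg_202, kcg_206, kcg_215, kcg_220, kcg_227, kcg_228, kcg_229, kcg_249, kcg_258, kcg_278, kcg_279, kcg_300, cv1m, cv2m, cv3m, cv4m, cv5m, cv6m, cv1p, cv2p, cv3p, cv4p, cv5p, cv6p, cv1r, cv2r, cv3r, cv4r, cv5r, cv6r, c1g_v, swg_v, c3g_v, c1n_one, swn_one, c3n_one, ya1]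
    all_goals ((try norm_num) <;> (try ring))
  · show kc7q1.v 1 x = _
    simp only [kc7q1, kc7q1_3, kc7q1_7, cv1m, cv2m, cv3m, cv4m, cv5m, cv6m, cv1p, cv2p, cv3p, cv4p, cv5p, cv6p, cv1r, cv2r, cv3r, cv4r, cv5r, cv6r, c1g_v, swg_v, c3g_v, c1n_one, swn_one, c3n_one, ya1]
    all_goals ((try norm_num) <;> (try ring))
theorem corB72 (x : ℝ) : (ndB 7 2).X.v 1 = 3 / 2 ∧ (ndB 7 2).K.v 1 x = 1 * (3 / 2) ∧
    (ndB 7 2).L.v 1 x = 0 ∧ (nc 7 2).v 1 x = 0 := by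
  refine ⟨?_, ?_, ?_, ?_⟩
  · show c3g.v 1 = _
    simp only [cv1m, cv2m, cv3m, cv4m, cv5m, cv6m, cv1p, cv2p, cv3p, cv4p, cv5p, cv6p, cv1r, cv2r, cv3r, cv4r, cv5r, cv6r, c1g_v, swg_v, c3g_v, c1n_one, swn_one, c3n_one]
    all_goals norm_num
  · show kf7q2.v 1 x = _
    simp only [kf7q2, kcg, kcg_3, kcg_6, kcg_9, kcg_12, kcg_13, kcg_16, kcg_28, kcg_36, kcg_41, kcg_51, kcg_59, kcg_60, kcg_65, kcg_77, kcg_84, kcg_85, kcg_90, kcg_101, kcg_106, kcg_111, kcg_123, kcg_133, kcg_136, kcg_137, kcg_141, kcg_153, kcg_158, kcg_161, kcg_171, kcg_179, kcg_180, kcg_184, kcg_194, kcg_202, kcg_206, kcg_215, kcg_220, kcg_227, kcg_228, kcg_229, kcg_249, kcg_258, kcg_278, kcg_279, kcg_300, cv1m, cv2m, cv3m, cv4m, cv5m, cv6m, cv1p, cv2p, cv3p, cv4p, cv5p, cv6p, cv1r, cv2r, cv3r, cv4r, cv5r, cv6r, c1g_v, swg_v, c3g_v, c1n_one, swn_one, c3n_one, ya1]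
    all_goals ((try norm_num) <;> (try ring))
  · show l7q2.v 1 x = _
    simp only [l7q2, l7q2_7, l7q2_8, l7q2_9, l7q2_12, l7q2_14, txg, txg_4, txg_6, txg_26, txg_29, txg_32, txg_55, txg_95, txg_98, txg_139, txg_183, txg_186, txg_189, txg_226, txg_265, txg_268, txg_307, txg_341, txg_363, txg_365, txg_367, txg_369, txg_419, txg_462, txg_464, txg_506, kcg, kcg_3, kcg_6, kcg_9, kcg_12, kcg_13, kcg_16, kcg_28, kcg_36, kcg_41, kcg_51, kcg_59, kcg_60, kcg_65, kcg_77, kcg_84, kcg_85, kcg_90, kcg_101, kcg_106, kcg_111, kcg_123, kcg_133, kcg_136, kcg_137, kcg_141, kcg_153, kcg_158, kcg_161, kcg_171, kcg_179, kcg_180, kcg_184, kcg_194, kcg_202, kcg_206, kcg_215, kcg_220, kcg_227, kcg_228, kcg_229, kcg_249, kcg_258, kcg_278, kcg_279, kcg_300, cv1m, cv2m, cv3m, cv4m, cv5m, cv6m, cv1p, cv2p, cv3p, cv4p, cv5p, cv6p, cv1r, cv2r, cv3r, cv4r, cv5r, cv6r, c1g_v, swg_v, c3g_v, c1n_one, swn_one, c3n_one,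 ya1]
    all_goals ((try norm_num) <;> (try ring))
  · show kc7q2.v 1 x = _
    simp only [kc7q2, kc7q2_3, kc7q2_9, cv1m, cv2m, cv3m, cv4m, cv5m, cv6m, cv1p, cv2p, cv3p, cv4p, cv5p, cv6p, cv1r, cv2r, cv3r, cv4r, cv5r, cv6r, c1g_v, swg_v, c3g_v, c1n_one, swn_one, c3n_one, ya1]
    all_goals ((try norm_num) <;> (try ring))
theorem pzeroK (x : ℝ) : ∀ j, PP.ρ j ≤ 1 → (ndB j 0).K.v (crd j 0 0) x = (ndB 0 0).K.v (crd 0 0 0) x := by
  intro j hj
  fin_cases j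
  · rfl
  · show kf1q0.v 0 x = kf0q0.v 0 x
    simp only [kf1q0, bf1q0, bf1q0_3, kf0q0, kf0q0_9, kf0q0_12, kcg, kcg_3, kcg_6, kcg_9, kcg_12, kcg_13, kcg_16, kcg_28, kcg_36, kcg_41, kcg_51, kcg_59, kcg_60, kcg_65, kcg_77, kcg_84, kcg_85, kcg_90, kcg_101, kcg_106, kcg_111, kcg_123, kcg_133, kcg_136, kcg_137, kcg_141, kcg_153, kcg_158, kcg_161, kcg_171, kcg_179, kcg_180, kcg_184, kcg_194, kcg_202, kcg_206, kcg_215, kcg_220, kcg_227, kcg_228, kcg_229, kcg_249, kcg_258, kcg_278, kcg_279, kcg_300, cv1m, cv2m, cv3m, cv4m, cv5m, cv6m, cv1p, cv2p, cv3p, cv4p, cv5p, cv6p, cv1r, cv2r, cv3r, cv4r, cv5r, cv6r, c1g_v, swg_v, c3g_v, c1n_zero, swn_zero]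
    ((try norm_num) <;> (try ring))
  · show kf2q0.v 0 x = kf0q0.v 0 x
    simp only [kf2q0, bf2q0, bf2q0_3, kf0q0, kf0q0_9, kf0q0_12, kcg, kcg_3, kcg_6, kcg_9, kcg_12, kcg_13, kcg_16, kcg_28, kcg_36, kcg_41, kcg_51, kcg_59, kcg_60, kcg_65, kcg_77, kcg_84, kcg_85, kcg_90, kcg_101, kcg_106, kcg_111, kcg_123, kcg_133, kcg_136, kcg_137, kcg_141, kcg_153, kcg_158, kcg_161, kcg_171, kcg_179, kcg_180, kcg_184, kcg_194, kcg_202, kcg_206, kcg_215, kcg_220, kcg_227, kcg_228, kcg_229, kcg_249, kcg_258, kcg_278, kcg_279, kcg_300, cv1m, cv2m, cv3m, cv4m, cv5m, cv6m, cv1p, cv2p, cv3p, cv4p, cv5p, cv6p, cv1r, cv2r, cv3r, cv4r, cv5r, cv6r, c1g_v, swg_v, c3g_v, c1n_zero, swn_zero]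
    ((try norm_num) <;> (try ring))
  · show kf3q0.v 0 x = kf0q0.v 0 x
    simp only [kf3q0, bf3q0, bf3q0_3, kf0q0, kf0q0_9, kf0q0_12, kcg, kcg_3, kcg_6, kcg_9, kcg_12, kcg_13, kcg_16, kcg_28, kcg_36, kcg_41, kcg_51, kcg_59, kcg_60, kcg_65, kcg_77, kcg_84, kcg_85, kcg_90, kcg_101, kcg_106, kcg_111, kcg_123, kcg_133, kcg_136, kcg_137, kcg_141, kcg_153, kcg_158, kcg_161, kcg_171, kcg_179, kcg_180, kcg_184, kcg_194, kcg_202, kcg_206, kcg_215, kcg_220, kcg_227, kcg_228, kcg_229, kcg_249, kcg_258, kcg_278, kcg_279, kcg_300, cv1m, cv2m, cv3m, cv4m, cv5m, cv6m, cv1p, cv2p, cv3p, cv4p, cv5p, cv6p, cv1r, cv2r, cv3r, cv4r, cv5r, cv6r, c1g_v, swg_v, c3g_v, c1n_zero, swn_zero]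
    ((try norm_num) <;> (try ring))
  · show kf4q0.v 0 x = kf0q0.v 0 x
    simp only [kf4q0, bf4q0, bf4q0_3, kf0q0, kf0q0_9, kf0q0_12, kcg, kcg_3, kcg_6, kcg_9, kcg_12, kcg_13, kcg_16, kcg_28, kcg_36, kcg_41, kcg_51, kcg_59, kcg_60, kcg_65, kcg_77, kcg_84, kcg_85, kcg_90, kcg_101, kcg_106, kcg_111, kcg_123, kcg_133, kcg_136, kcg_137, kcg_141, kcg_153, kcg_158, kcg_161, kcg_171, kcg_179, kcg_180, kcg_184, kcg_194, kcg_202, kcg_206, kcg_215, kcg_220, kcg_227, kcg_228, kcg_229, kcg_249, kcg_258, kcg_278, kcg_279, kcg_300, cv1m, cv2m, cv3m, cv4m, cv5m, cv6m, cv1p, cv2p, cv3p, cv4p, cv5p, cv6p, cv1r, cv2r, cv3r, cv4r, cv5r, cv6r, c1g_v, swg_v, c3g_v, c1n_zero, swn_zero]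
    ((try norm_num) <;> (try ring))
  · exact absurd (show (13 / 10 : ℝ) ≤ 1 from hj) (by norm_num)
  · exact absurd (show (8 / 5 : ℝ) ≤ 1 from hj) (by norm_num)
  · exact absurd (show (2 : ℝ) ≤ 1 from hj) (by norm_num)
theorem pmidK (x : ℝ) : ∀ j, PP.ρ j ≤ 1 → (ndB j 2).K.v (crd j 2 1) x = (ndB 0 2).K.v (crd 0 2 1) x := by
  intro j hj
  fin_cases j
  · rfl
  · show kf1q2.v 1 x = kfc02.v (c1n 1) x
    simp only [kf1q2, kf1q2_4, kf1q2_9, kfc02, kcg, kcg_3, kcg_6, kcg_9, kcg_12, kcg_13, kcg_16, kcg_28, kcg_36, kcg_41, kcg_51, kcg_59, kcg_60, kcg_65, kcg_77, kcg_84, kcg_85, kcg_90, kcg_101, kcg_106, kcg_111, kcg_123, kcg_133, kcg_136, kcg_137, kcg_141, kcg_153, kcg_158, kcg_161, kcg_171, kcg_179, kcg_180, kcg_184, kcg_194, kcg_202, kcg_206, kcg_215, kcg_220, kcg_227, kcg_228, kcg_229, kcg_249, kcg_258, kcg_278, kcg_279, kcg_300, cv1m, cv2m, cv3m, cv4m, cv5m, cv6m, cv1p, cv2p, cv3p,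 cv4p, cv5p, cv6p, cv1r, cv2r, cv3r, cv4r, cv5r, cv6r, c1g_v, swg_v, c3g_v, c1n_one, swn_one, ya1]
    ((try norm_num) <;> (try ring))
  · show kf2q2.v 1 x = kfc02.v (c1n 1) x
    simp only [kf2q2, kf2q2_4, kfc02, kcg, kcg_3, kcg_6, kcg_9, kcg_12, kcg_13, kcg_16, kcg_28, kcg_36, kcg_41, kcg_51, kcg_59, kcg_60, kcg_65, kcg_77, kcg_84, kcg_85, kcg_90, kcg_101, kcg_106, kcg_111, kcg_123, kcg_133, kcg_136, kcg_137, kcg_141, kcg_153, kcg_158, kcg_161, kcg_171, kcg_179, kcg_180, kcg_184, kcg_194, kcg_202, kcg_206, kcg_215, kcg_220, kcg_227, kcg_228, kcg_229, kcg_249, kcg_258, kcg_278, kcg_279, kcg_300, cv1m, cv2m, cv3m, cv4m, cv5m, cv6m, cv1p, cv2p, cv3p, cv4p, cv5p, cv6p, cv1r, cv2r, cv3r, cv4r, cv5r, cv6r, c1g_v, swg_v, c3g_v, c1n_one, swn_one, ya1]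
    ((try norm_num) <;> (try ring))
  · show kf3q2.v 1 x = kfc02.v (c1n 1) x
    simp only [kf3q2, kf3q2_4, kfc02, kcg, kcg_3, kcg_6, kcg_9, kcg_12, kcg_13, kcg_16, kcg_28, kcg_36, kcg_41, kcg_51, kcg_59, kcg_60, kcg_65, kcg_77, kcg_84, kcg_85, kcg_90, kcg_101, kcg_106, kcg_111, kcg_123, kcg_133, kcg_136, kcg_137, kcg_141, kcg_153, kcg_158, kcg_161, kcg_171, kcg_179, kcg_180, kcg_184, kcg_194, kcg_202, kcg_206, kcg_215, kcg_220, kcg_227, kcg_228, kcg_229, kcg_249, kcg_258, kcg_278, kcg_279, kcg_300, cv1m, cv2m, cv3m, cv4m, cv5m, cv6m, cv1p, cv2p, cv3p, cv4p, cv5p, cv6p, cv1r, cv2r, cv3r, cv4r, cv5r, cv6r, c1g_v, swg_v, c3g_v, c1n_one, swn_one, ya1]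
    ((try norm_num) <;> (try ring))
  · show kf4q2.v 1 x = kfc02.v (c1n 1) x
    simp only [kf4q2, kf4q2_4, kfc02, kcg, kcg_3, kcg_6, kcg_9, kcg_12, kcg_13, kcg_16, kcg_28, kcg_36, kcg_41, kcg_51, kcg_59, kcg_60, kcg_65, kcg_77, kcg_84, kcg_85, kcg_90, kcg_101, kcg_106, kcg_111, kcg_123, kcg_133, kcg_136, kcg_137, kcg_141, kcg_153, kcg_158, kcg_161, kcg_171, kcg_179, kcg_180, kcg_184, kcg_194, kcg_202, kcg_206, kcg_215, kcg_220, kcg_227, kcg_228, kcg_229, kcg_249, kcg_258, kcg_278, kcg_279, kcg_300, cv1m, cv2m, cv3m, cv4m, cv5m, cv6m, cv1p, cv2p, cv3p, cv4p, cv5p, cv6p, cv1r, cv2r, cv3r, cv4r, cv5r, cv6r, c1g_v, swg_v, c3g_v, c1n_one, swn_one, ya1]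
    ((try norm_num) <;> (try ring))
  · exact absurd (show (13 / 10 : ℝ) ≤ 1 from hj) (by norm_num)
  · exact absurd (show (8 / 5 : ℝ) ≤ 1 from hj) (by norm_num)
  · exact absurd (show (2 : ℝ) ≤ 1 from hj) (by norm_num)
theorem ptopK (x : ℝ) : ∀ j, j ≠ 0 → (ndB j 3).K.v (crd j 3 2) x = 0 := by
  intro j hj
  fin_cases j
  · exact absurd rfl hj
  · show kf1q3.v 2 x = 0
    simp only [kf1q3, bf1q3, bf1q3_3, cv1m, cv2m, cv3m, cv4m, cv5m, cv6m, cv1p, cv2p, cv3p, cv4p, cv5p, cv6p, cv1r, cv2r, cv3r, cv4r, cv5r, cv6r, c1g_v, swg_v, c3g_v, swn_two, c1n_two, c3n_two, yc0]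
    norm_num
  · show kf2q3.v 2 x = 0
    simp only [kf2q3, bf2q3, bf2q3_3, cv1m, cv2m, cv3m, cv4m, cv5m, cv6m, cv1p, cv2p, cv3p, cv4p, cv5p, cv6p, cv1r, cv2r, cv3r, cv4r, cv5r, cv6r, c1g_v, swg_v, c3g_v, swn_two, c1n_two, c3n_two, yc0]
    norm_num
  · show kf3q3.v 2 x = 0
    simp only [kf3q3, bf3q3, bf3q3_3, cv1m, cv2m, cv3m, cv4m, cv5m, cv6m, cv1p, cv2p, cv3p, cv4p, cv5p, cv6p, cv1r, cv2r, cv3r, cv4r, cv5r, cv6r, c1g_v, swg_v, c3g_v, swn_two, c1n_two, c3n_two, yc0]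
    norm_num
  · show kf4q3.v 2 x = 0
    simp only [kf4q3, bf4q3, bf4q3_3, cv1m, cv2m, cv3m, cv4m, cv5m, cv6m, cv1p, cv2p, cv3p, cv4p, cv5p, cv6p, cv1r, cv2r, cv3r, cv4r, cv5r, cv6r, c1g_v, swg_v, c3g_v, swn_two, c1n_two, c3n_two, yc0]
    norm_num
  · show kfc53.v (c3n 2) x = 0
    simp only [kfc53, kfc53_6, kfc53_9, kfc53_11, kfc53_47, kfc53_48, kfc53_49, kfc53_50, kfc53_67, kfc53_69, kcg, kcg_3, kcg_6, kcg_9, kcg_12, kcg_13, kcg_16, kcg_28, kcg_36, kcg_41, kcg_51, kcg_59, kcg_60, kcg_65, kcg_77, kcg_84, kcg_85, kcg_90, kcg_101, kcg_106, kcg_111, kcg_123, kcg_133, kcg_136, kcg_137, kcg_141, kcg_153, kcg_158, kcg_161, kcg_171, kcg_179, kcg_180, kcg_184, kcg_194, kcg_202, kcg_206, kcg_215, kcg_220, kcg_227, kcg_228, kcg_229, kcg_249, kcg_258, kcg_278, kcg_279, kcg_300, bf4q3, bf4q3_3, cv1m, cv2m, cv3m, cv4m, cv5m, cv6m, cv1p, cv2p, cv3p, cv4p, cv5p, cv6p, cv1r, cv2r, cv3r, cv4r,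 cv5r, cv6r, c1g_v, swg_v, c3g_v, swn_two, c1n_two, c3n_two, yc0]
    norm_num
  · show kfc63.v (c3n 2) x = 0
    simp only [kfc63, kfc63_11, cv1m, cv2m, cv3m, cv4m, cv5m, cv6m, cv1p, cv2p, cv3p, cv4p, cv5p, cv6p, cv1r, cv2r, cv3r, cv4r, cv5r, cv6r, c1g_v, swg_v, c3g_v, swn_two, c1n_two, c3n_two, yc0]
    norm_num
  · show kfc73.v (c3n 2) x = 0
    simp only [kfc73, kcg, kcg_3, kcg_6, kcg_9, kcg_12, kcg_13, kcg_16, kcg_28, kcg_36, kcg_41, kcg_51, kcg_59, kcg_60, kcg_65, kcg_77, kcg_84, kcg_85, kcg_90, kcg_101, kcg_106, kcg_111, kcg_123, kcg_133, kcg_136, kcg_137, kcg_141, kcg_153, kcg_158, kcg_161, kcg_171, kcg_179, kcg_180, kcg_184, kcg_194, kcg_202, kcg_206, kcg_215, kcg_220, kcg_227, kcg_228, kcg_229, kcg_249, kcg_258, kcg_278, kcg_279, kcg_300, cv1m, cv2m, cv3m, cv4m, cv5m, cv6m, cv1p, cv2p, cv3p, cv4p, cv5p, cv6p, cv1r, cv2r, cv3r, cv4r, cv5r, cv6r, c1g_v, swg_v, c3g_v, swn_two,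 c1n_two, c3n_two, yc0]
    norm_num
theorem thK0 {x : ℝ} (h : Pins PP tK x) : ∀ X y, InQ 0 y → 1 ≤ qqn X y → qqn X y ≤ 3 →
    thd PP tK 0 X y x = (pcB 0).K.v X y x := by
  intro X y hq k1 k3
  have hy0 := hq.nonneg
  have hy2 := hq.le_two
  have hyl := hq.1
  have hyr := hq.2
  have on0 : h0 * y < 1 := on_half (by linarith)
  refine third7 h hq (F := fun X => rkbq0.v X y x) (x0 := c1g.v y) (x1 := cv1m.v y) (x2 := cv2m.v y) (x3 := cv3m.v y) (x4 := cv4m.v y) (x5 := cv5m.v y) (x6 := cv6m.v y) (x7 := c3g.v y)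
    (v0 := kf0q0.v y x) (v1 := kf1q0.v y x) (v2 := kf2q0.v y x) (v3 := kf3q0.v y x) (v4 := kf4q0.v y x) (v5 := kf5q0.v y x) (v6 := kf6q0.v y x) (v7 := kf7q0.v y x)
    ?_ ?_ ?_ ?_ ?_ ?_ ?_ ?_ ?_ ?_ ?_ ?_ ?_ ?_ ?_ ?_ (fun X => rfl) ?_ ?_ ?_ ?_ ?_ ?_ ?_ k1 k3
  · rw [crv0]; rw [c1g_v]
  · exact ecv1q0
  · exact ecv2q0
  · exact ecv3q0
  · exact ecv4q0
  · exact ecv5q0
  · exact ecv6q0
  · rw [crv7, c3g_v]
  · exact tbF_on ⟨hq, fun _ => on0⟩
  · exact tbF_on (onc hq (by decide))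
  · exact tbF_on (onc hq (by decide))
  · exact tbF_on (onc hq (by decide))
  · exact tbF_on (onc hq (by decide))
  · exact tbF_on (onc hq (by decide))
  · exact tbF_on (onc hq (by decide))
  · exact tbF_on (onc hq (by decide))
  · intro X g0 g1
    refine lin_of g0 g1 fun L hL hX => ?_
    simp only [rkbq0_38, rkbq0_40, rkbq0_41, rkbq0_44, rkbq0_64, kf6q0, kf7q0, kf5q0, kf5q0_4, kf5q0_42, kf5q0_43, kf5q0_46, kf5q0_64, bf5q0, bf5q0_3, kf4q0, kf0q0, kf0q0_9, kf0q0_12, kf1q0, lm0m_v, hL]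
    all_goals (clear hL; subst hX; ((try push_cast); all_goals (first | ring1 | (split_ifs <;> first | (exfalso; linarith) | ring1 | ((repeat first | erw [if_pos (by linarith)] | erw [if_neg (by linarith)]); ring1)))))
  · intro X g0 g1
    refine lin_of g0 g1 fun L hL hX => ?_
    simp only [rkbq0_38, rkbq0_40, rkbq0_41, rkbq0_44, rkbq0_64, kf6q0, kf7q0, kf5q0, kf5q0_4, kf5q0_42, kf5q0_43, kf5q0_46, kf5q0_64, bf5q0, bf5q0_3, kf4q0, kf0q0, kf0q0_9, kf0q0_12, kf1q0, kf2q0, lm1m_v, hL]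
    all_goals (clear hL; subst hX; ((try push_cast); all_goals (first | ring1 | (split_ifs <;> first | (exfalso; linarith) | ring1 | ((repeat first | erw [if_pos (by linarith)] | erw [if_neg (by linarith)]); ring1)))))
  · intro X g0 g1
    refine lin_of g0 g1 fun L hL hX => ?_
    simp only [rkbq0_38, rkbq0_40, rkbq0_41, rkbq0_44, rkbq0_64, kf6q0, kf7q0, kf5q0, kf5q0_4, kf5q0_42, kf5q0_43, kf5q0_46, kf5q0_64, bf5q0, bf5q0_3, kf4q0, kf0q0, kf0q0_9, kf0q0_12, kf2q0, kf3q0, lm2m_v, hL]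
    all_goals (clear hL; subst hX; ((try push_cast); all_goals (first | ring1 | (split_ifs <;> first | (exfalso; linarith) | ring1 | ((repeat first | erw [if_pos (by linarith)] | erw [if_neg (by linarith)]); ring1)))))
  · intro X g0 g1
    refine lin_of g0 g1 fun L hL hX => ?_
    simp only [rkbq0_38, rkbq0_40, rkbq0_41, rkbq0_44, rkbq0_64, kf6q0, kf7q0, kf5q0, kf5q0_4, kf5q0_42, kf5q0_43, kf5q0_46, kf5q0_64, bf5q0, bf5q0_3, kf4q0, kf0q0, kf0q0_9, kf0q0_12, kf3q0, lm3m_v, hL]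
    all_goals (clear hL; subst hX; ((try push_cast); all_goals (first | ring1 | (split_ifs <;> first | (exfalso; linarith) | ring1 | ((repeat first | erw [if_pos (by linarith)] | erw [if_neg (by linarith)]); ring1)))))
  · intro X g0 g1
    refine lin_of g0 g1 fun L hL hX => ?_
    simp only [rkbq0_38, rkbq0_40, rkbq0_41, rkbq0_44, rkbq0_64, kf6q0, kf7q0, kf5q0, kf5q0_4, kf5q0_42, kf5q0_43, kf5q0_46, kf5q0_64, bf5q0, bf5q0_3, kf4q0, kf0q0, kf0q0_9, kf0q0_12, lm4m_v, hL]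
    all_goals (clear hL; subst hX; ((try push_cast); all_goals (first | ring1 | (split_ifs <;> first | (exfalso; linarith) | ring1 | ((repeat first | erw [if_pos (by linarith)] | erw [if_neg (by linarith)]); ring1)))))
  · intro X g0 g1
    refine lin_of g0 g1 fun L hL hX => ?_
    simp only [rkbq0_38, rkbq0_40, rkbq0_41, rkbq0_44, rkbq0_64, kf6q0, kf7q0, kf5q0, kf5q0_4, kf5q0_42, kf5q0_43, kf5q0_46, kf5q0_64, bf5q0, bf5q0_3, kf4q0, kf0q0, kf0q0_9, kf0q0_12, lm5m_v, hL]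
    all_goals (clear hL; subst hX; ((try push_cast); all_goals (first | ring1 | (split_ifs <;> first | (exfalso; linarith) | ring1 | ((repeat first | erw [if_pos (by linarith)] | erw [if_neg (by linarith)]); ring1)))))
  · intro X g0 g1
    refine lin_of g0 g1 fun L hL hX => ?_
    simp only [rkbq0_38, rkbq0_40, rkbq0_41, rkbq0_44, rkbq0_64, kf6q0, kf7q0, kf5q0, kf5q0_4, kf5q0_42, kf5q0_43, kf5q0_46, kf5q0_64, bf5q0, bf5q0_3, kf4q0, kf0q0, kf0q0_9, kf0q0_12, lm6m_v, hL]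
    all_goals (clear hL; subst hX; ((try push_cast); all_goals (first | ring1 | (split_ifs <;> first | (exfalso; linarith) | ring1 | ((repeat first | erw [if_pos (by linarith)] | erw [if_neg (by linarith)]); ring1)))))
theorem thK1 {x : ℝ} (h : Pins PP tK x) : ∀ X y, InQ 1 y → 1 ≤ qqn X y → qqn X y ≤ 3 →
    thd PP tK 1 X y x = (pcB 1).K.v X y x := by
  intro X y hq k1 k3
  have hy0 := hq.nonneg
  have hy2 := hq.le_two
  have hyl := hq.1
  have hyr := hq.2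
  have on0 : h0 * y < 1 := on_half (by linarith)
  refine third7 h hq (F := fun X => rkbq1.v X y x) (x0 := c1g.v y) (x1 := cv1m.v y) (x2 := cv2m.v y) (x3 := cv3m.v y) (x4 := cv4m.v y) (x5 := cv5m.v y) (x6 := cv6m.v y) (x7 := c3g.v y)
    (v0 := kf0q1.v y x) (v1 := kf1q1.v y x) (v2 := kf2q1.v y x) (v3 := kf3q1.v y x) (v4 := kf4q1.v y x) (v5 := kf5q1.v y x) (v6 := kf6q1.v y x) (v7 := kf7q1.v y x)
    ?_ ?_ ?_ ?_ ?_ ?_ ?_ ?_ ?_ ?_ ?_ ?_ ?_ ?_ ?_ ?_ (fun X => rfl) ?_ ?_ ?_ ?_ ?_ ?_ ?_ k1 k3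
  · rw [crv0]; rw [c1g_v]
  · exact ecv1q1
  · exact ecv2q1
  · exact ecv3q1
  · exact ecv4q1
  · exact ecv5q1
  · exact ecv6q1
  · rw [crv7, c3g_v]
  · exact tbF_on ⟨hq, fun _ => on0⟩
  · exact tbF_on (onc hq (by decide))
  · exact tbF_on (onc hq (by decide))
  · exact tbF_on (onc hq (by decide))
  · exact tbF_on (onc hq (by decide))
  · exact tbF_on (onc hq (by decide))
  · exact tbF_on (onc hq (by decide))
  · exact tbF_on (onc hq (by decide))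
  · intro X g0 g1
    refine lin_of g0 g1 fun L hL hX => ?_
    simp only [kf6q1, kf7q1, kf0q1, kf0q1_10, kf1q1, lm0m_v, hL]
    all_goals (clear hL; subst hX; ((try push_cast); all_goals (first | ring1 | (split_ifs <;> first | (exfalso; linarith) | ring1 | ((repeat first | erw [if_pos (by linarith)] | erw [if_neg (by linarith)]); ring1)))))
  · intro X g0 g1
    refine lin_of g0 g1 fun L hL hX => ?_
    simp only [kf6q1, kf7q1, kf0q1, kf0q1_10, kf1q1, kf2q1, lm1m_v, hL]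
    all_goals (clear hL; subst hX; ((try push_cast); all_goals (first | ring1 | (split_ifs <;> first | (exfalso; linarith) | ring1 | ((repeat first | erw [if_pos (by linarith)] | erw [if_neg (by linarith)]); ring1)))))
  · intro X g0 g1
    refine lin_of g0 g1 fun L hL hX => ?_
    simp only [kf6q1, kf7q1, kf0q1, kf0q1_10, kf2q1, kf3q1, lm2m_v, hL]
    all_goals (clear hL; subst hX; ((try push_cast); all_goals (first | ring1 | (split_ifs <;> first | (exfalso; linarith) | ring1 | ((repeat first | erw [if_pos (by linarith)] | erw [if_neg (by linarith)]); ring1)))))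
  · intro X g0 g1
    refine lin_of g0 g1 fun L hL hX => ?_
    simp only [kf6q1, kf7q1, kf0q1, kf0q1_10, kf3q1, kf4q1, lm3m_v, hL]
    all_goals (clear hL; subst hX; ((try push_cast); all_goals (first | ring1 | (split_ifs <;> first | (exfalso; linarith) | ring1 | ((repeat first | erw [if_pos (by linarith)] | erw [if_neg (by linarith)]); ring1)))))
  · intro X g0 g1
    refine lin_of g0 g1 fun L hL hX => ?_
    simp only [kf6q1, kf7q1, kf0q1, kf0q1_10, kf4q1, kf5q1, lm4m_v, hL]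
    all_goals (clear hL; subst hX; ((try push_cast); all_goals (first | ring1 | (split_ifs <;> first | (exfalso; linarith) | ring1 | ((repeat first | erw [if_pos (by linarith)] | erw [if_neg (by linarith)]); ring1)))))
  · intro X g0 g1
    refine lin_of g0 g1 fun L hL hX => ?_
    simp only [kf6q1, kf7q1, kf0q1, kf0q1_10, kf5q1, lm5m_v, hL]
    all_goals (clear hL; subst hX; ((try push_cast); all_goals (first | ring1 | (split_ifs <;> first | (exfalso; linarith) | ring1 | ((repeat first | erw [if_pos (by linarith)] | erw [if_neg (by linarith)]); ring1)))))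
  · intro X g0 g1
    refine lin_of g0 g1 fun L hL hX => ?_
    simp only [kf6q1, kf7q1, kf0q1, kf0q1_10, lm6m_v, hL]
    all_goals (clear hL; subst hX; ((try push_cast); all_goals (first | ring1 | (split_ifs <;> first | (exfalso; linarith) | ring1 | ((repeat first | erw [if_pos (by linarith)] | erw [if_neg (by linarith)]); ring1)))))
theorem thK2 {x : ℝ} (h : Pins PP tK x) : ∀ X y, InQ 2 y → 1 ≤ qqn X y → qqn X y ≤ 3 →
    thd PP tK 2 X y x = (pcB 2).K.v X y x := by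
  intro X y hq k1 k3
  have hy0 := hq.nonneg
  have hy2 := hq.le_two
  have hyl := hq.1
  have hyr := hq.2
  refine third7 h hq (F := fun X => rkbq2.v X y x) (x0 := c1g.v y) (x1 := cv1p.v y) (x2 := cv2p.v y) (x3 := cv3p.v y) (x4 := cv4p.v y) (x5 := cv5p.v y) (x6 := cv6p.v y) (x7 := c3g.v y)
    (v0 := tK 0 2 y x) (v1 := kf1q2.v y x) (v2 := kf2q2.v y x) (v3 := kf3q2.v y x) (v4 := kf4q2.v y x) (v5 := kf5q2.v y x) (v6 := kf6q2.v y x) (v7 := kf7q2.v y x)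
    ?_ ?_ ?_ ?_ ?_ ?_ ?_ ?_ ?_ ?_ ?_ ?_ ?_ ?_ ?_ ?_ (fun X => rfl) ?_ ?_ ?_ ?_ ?_ ?_ ?_ k1 k3
  · rw [crv0]; rw [c1g_v]
  · exact ecv1q2
  · exact ecv2q2
  · exact ecv3q2
  · exact ecv4q2
  · exact ecv5q2
  · exact ecv6q2
  · rw [crv7, c3g_v]
  · rfl
  · exact tbF_on (onc hq (by decide))
  · exact tbF_on (onc hq (by decide))
  · exact tbF_on (onc hq (by decide))
  · exact tbF_on (onc hq (by decide))
  · exact tbF_on (onc hq (by decide))
  · exact tbF_on (onc hq (by decide))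
  · exact tbF_on (onc hq (by decide))
  · intro X g0 g1
    refine lin_of g0 g1 fun L hL hX => ?_
    by_cases on : h0 * y < 1
    · have e0 : tK 0 2 y x = kfc02.v (c1g.v y) x := by
        rw [c1g_v]; exact tbF_on ⟨hq, fun _ => on⟩
      have e1 : yag.v (c1g.v y) = y := by rw [c1g_v]; exact yag_v hy0 on
      have hlt := on_lt on
      obtain ⟨c0, c2⟩ := c1g_sq hy0 on
      rw [e0]
      rcases le_or_gt (y - (577 : ℕ) / (500 : ℕ)) 0 with c | c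
      · simp only [rkbq2_73, rkbq2_75, kf6q2, kf7q2, bf4q2, bf4q2_3, bf3q2, bf3q2_3, bf2q2, bf2q2_3, bf1q2, bf1q2_3, bf1q2_8, kf0q2, n0b, kf1q2, kf1q2_4, kf1q2_9, kfc02, lm0p_v, hL, e1, if_pos c]
        all_goals (clear hL; subst hX; ((try push_cast); all_goals (first | ring1 | (split_ifs <;> first | (exfalso; linarith) | ring1 | ((repeat first | erw [if_pos (by linarith)] | erw [if_neg (by linarith)]); ring1)))))
      · have hc1 : c1g.v y < 1 / 20 := by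
          push_cast at c
          nlinarith
        have hc' : ¬ (y - (577 : ℕ) / (500 : ℕ) ≤ 0) := not_le.2 c
        have kn1 := kcg_near (p := -c1g.v y) (x := x) (by linarith) (by linarith)
        have kn2 := kcg_near (p := c1g.v y) (x := x) (by linarith) (by linarith)
        simp only [rkbq2_73, rkbq2_75, kf6q2, kf7q2, bf4q2, bf4q2_3, bf3q2, bf3q2_3, bf2q2, bf2q2_3, bf1q2, bf1q2_3, bf1q2_8, kf0q2, n0b, kf1q2, kf1q2_4, kf1q2_9, kfc02, lm0p_v, hL, e1, if_neg hc', abs_neg, abs_of_nonneg c0, neg_neg, kn1, kn2]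
        all_goals (clear hL; subst hX; (try push_cast); (try simp only [← c2]); ((try push_cast); all_goals (first | ring1 | (split_ifs <;> first | (exfalso; linarith) | ring1 | ((repeat first | erw [if_pos (by linarith)] | erw [if_neg (by linarith)]); ring1)))))
    · have off : 1 ≤ h0 * y := not_lt.1 on
      have hc := c1g_off off
      have e0 : tK 0 2 y x = 0 := tbF_off off
      have hlt := lt_off off
      simp only [rkbq2_73, rkbq2_75, kf6q2, kf7q2, bf4q2, bf4q2_3, bf3q2, bf3q2_3, bf2q2, bf2q2_3, bf1q2, bf1q2_3, bf1q2_8, kf0q2, n0b, kf1q2, kf1q2_4, kf1q2_9, lm0p_v, hL, hc, e0]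
      all_goals (clear hL; subst hX; (try simp only [hc]); ((try push_cast); all_goals (first | ring1 | (split_ifs <;> first | (exfalso; linarith) | ring1 | ((repeat first | erw [if_pos (by linarith)] | erw [if_neg (by linarith)]); ring1)))))
  · intro X g0 g1
    refine lin_of g0 g1 fun L hL hX => ?_
    simp only [rkbq2_73, rkbq2_75, kf6q2, kf7q2, bf4q2, bf4q2_3, bf3q2, bf3q2_3, bf2q2, bf2q2_3, bf1q2, bf1q2_3, bf1q2_8, kf0q2, n0b, kf1q2, kf1q2_4, kf1q2_9, kf2q2, kf2q2_4, lm1p_v, hL]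
    all_goals (clear hL; subst hX; ((try push_cast); all_goals (first | ring1 | (split_ifs <;> first | (exfalso; linarith) | ring1 | ((repeat first | erw [if_pos (by linarith)] | erw [if_neg (by linarith)]); ring1)))))
  · intro X g0 g1
    refine lin_of g0 g1 fun L hL hX => ?_
    simp only [rkbq2_73, rkbq2_75, kf6q2, kf7q2, bf4q2, bf4q2_3, bf3q2, bf3q2_3, bf2q2, bf2q2_3, bf1q2, bf1q2_3, bf1q2_8, kf0q2, n0b, kf2q2, kf2q2_4, kf3q2, kf3q2_4, lm2p_v, hL]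
    all_goals (clear hL; subst hX; ((try push_cast); all_goals (first | ring1 | (split_ifs <;> first | (exfalso; linarith) | ring1 | ((repeat first | erw [if_pos (by linarith)] | erw [if_neg (by linarith)]); ring1)))))
  · intro X g0 g1
    refine lin_of g0 g1 fun L hL hX => ?_
    simp only [rkbq2_73, rkbq2_75, kf6q2, kf7q2, bf4q2, bf4q2_3, bf3q2, bf3q2_3, bf2q2, bf2q2_3, bf1q2, bf1q2_3, bf1q2_8, kf0q2, n0b, kf3q2, kf3q2_4, kf4q2, kf4q2_4, lm3p_v, hL]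
    all_goals (clear hL; subst hX; ((try push_cast); all_goals (first | ring1 | (split_ifs <;> first | (exfalso; linarith) | ring1 | ((repeat first | erw [if_pos (by linarith)] | erw [if_neg (by linarith)]); ring1)))))
  · intro X g0 g1
    refine lin_of g0 g1 fun L hL hX => ?_
    simp only [rkbq2_73, rkbq2_75, kf6q2, kf7q2, bf4q2, bf4q2_3, bf3q2, bf3q2_3, bf2q2, bf2q2_3, bf1q2, bf1q2_3, bf1q2_8, kf0q2, n0b, kf4q2, kf4q2_4, kf5q2, lm4p_v, hL]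
    all_goals (clear hL; subst hX; ((try push_cast); all_goals (first | ring1 | (split_ifs <;> first | (exfalso; linarith) | ring1 | ((repeat first | erw [if_pos (by linarith)] | erw [if_neg (by linarith)]); ring1)))))
  · intro X g0 g1
    refine lin_of g0 g1 fun L hL hX => ?_
    simp only [rkbq2_73, rkbq2_75, kf6q2, kf7q2, bf4q2, bf4q2_3, bf3q2, bf3q2_3, bf2q2, bf2q2_3, bf1q2, bf1q2_3, bf1q2_8, kf0q2, n0b, kf5q2, lm5p_v, hL]
    all_goals (clear hL; subst hX; ((try push_cast); all_goals (first | ring1 | (split_ifs <;> first | (exfalso; linarith) | ring1 | ((repeat first | erw [if_pos (by linarith)] | erw [if_neg (by linarith)]); ring1)))))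
  · intro X g0 g1
    refine lin_of g0 g1 fun L hL hX => ?_
    simp only [rkbq2_73, rkbq2_75, kf6q2, kf7q2, bf4q2, bf4q2_3, bf3q2, bf3q2_3, bf2q2, bf2q2_3, bf1q2, bf1q2_3, bf1q2_8, kf0q2, n0b, lm6p_v, hL]
    all_goals (clear hL; subst hX; ((try push_cast); all_goals (first | ring1 | (split_ifs <;> first | (exfalso; linarith) | ring1 | ((repeat first | erw [if_pos (by linarith)] | erw [if_neg (by linarith)]); ring1)))))
theorem thK3 {x : ℝ} (h : Pins PP tK x) : ∀ X y, InQ 3 y → 1 ≤ qqn X y → qqn X y ≤ 3 →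
    thd PP tK 3 X y x = (pcB 3).K.v X y x := by
  intro X y hq k1 k3
  have hy0 := hq.nonneg
  have hy2 := hq.le_two
  have hyl := hq.1
  have hyr := hq.2
  refine third7 h hq (F := fun X => rkbq3.v X y x) (x0 := 0) (x1 := cv1r.v y) (x2 := cv2r.v y) (x3 := cv3r.v y) (x4 := cv4r.v y) (x5 := cv5r.v y) (x6 := cv6r.v y) (x7 := c3g.v y)
    (v0 := 0) (v1 := kf1q3.v y x) (v2 := kf2q3.v y x) (v3 := kf3q3.v y x) (v4 := kf4q3.v y x) (v5 := kf5q3.v y x) (v6 := kf6q3.v y x) (v7 := kf7q3.v y x)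
    ?_ ?_ ?_ ?_ ?_ ?_ ?_ ?_ ?_ ?_ ?_ ?_ ?_ ?_ ?_ ?_ (fun X => rfl) ?_ ?_ ?_ ?_ ?_ ?_ ?_ k1 k3
  · rw [crv0]; exact c1n_off (off_y hyl)
  · exact ecv1q3 hyl
  · exact ecv2q3 hyl
  · exact ecv3q3 hyl
  · exact ecv4q3 hyl
  · exact ecv5q3 hyl
  · exact ecv6q3 hyl
  · rw [crv7, c3g_v]
  · exact tbF_off (off_y hyl)
  · exact tbF_on (onc hq (by decide))
  · exact tbF_on (onc hq (by decide))
  · exact tbF_on (onc hq (by decide))
  · exact tbF_on (onc hq (by decide))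
  · refine (tbF_on (onc hq (by decide))).trans ?_
    show kfc53.v (c3n y) x = _
    simp only [kf5q3, kf5q3_4, kf5q3_42, kf5q3_43, kf5q3_44, kf5q3_45, kf5q3_64, kfc53, kfc53_6, kfc53_9, kfc53_11, kfc53_47, kfc53_48, kfc53_49, kfc53_50, kfc53_67, kfc53_69, ycg_v hy0 hy2, c3g_v, cv1r, cv2r, cv3r, cv4r, cv5r, cv6r]
    all_goals (try rfl)
  · refine (tbF_on (onc hq (by decide))).trans ?_
    show kfc63.v (c3n y) x = _
    simp only [kf6q3, kf6q3_4, kfc63, kfc63_11, ycg_v hy0 hy2, c3g_v, cv1r, cv2r, cv3r, cv4r, cv5r, cv6r]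
    all_goals (try rfl)
  · refine (tbF_on (onc hq (by decide))).trans ?_
    show kfc73.v (c3n y) x = _
    simp only [kf7q3, kfc73, ycg_v hy0 hy2, c3g_v, c3g_v]
    all_goals (try rfl)
  · intro X g0 g1
    refine lin_of g0 g1 fun L hL hX => ?_
    simp only [rkbq3_38, rkbq3_39, rkbq3_40, rkbq3_41, rkbq3_42, rkbq3_64, kf6q3, kf6q3_4, kf7q3, bf6q3, bf6q3_3, kf5q3, kf5q3_4, kf5q3_42, kf5q3_43, kf5q3_44, kf5q3_45, kf5q3_64, bf5q3, bf5q3_3, kf4q3, kf1q3, hL]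
    all_goals (clear hL; subst hX; ((try push_cast); all_goals (first | ring1 | (split_ifs <;> first | (exfalso; linarith) | ring1 | ((repeat first | erw [if_pos (by linarith)] | erw [if_neg (by linarith)]); ring1)))))
  · intro X g0 g1
    refine lin_of g0 g1 fun L hL hX => ?_
    simp only [rkbq3_38, rkbq3_39, rkbq3_40, rkbq3_41, rkbq3_42, rkbq3_64, kf6q3, kf6q3_4, kf7q3, bf6q3, bf6q3_3, kf5q3, kf5q3_4, kf5q3_42, kf5q3_43, kf5q3_44, kf5q3_45, kf5q3_64, bf5q3, bf5q3_3, kf4q3, kf1q3, kf2q3, lm1r_v, hL]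
    all_goals (clear hL; subst hX; ((try push_cast); all_goals (first | ring1 | (split_ifs <;> first | (exfalso; linarith) | ring1 | ((repeat first | erw [if_pos (by linarith)] | erw [if_neg (by linarith)]); ring1)))))
  · intro X g0 g1
    refine lin_of g0 g1 fun L hL hX => ?_
    simp only [rkbq3_38, rkbq3_39, rkbq3_40, rkbq3_41, rkbq3_42, rkbq3_64, kf6q3, kf6q3_4, kf7q3, bf6q3, bf6q3_3, kf5q3, kf5q3_4, kf5q3_42, kf5q3_43, kf5q3_44, kf5q3_45, kf5q3_64, bf5q3, bf5q3_3, kf4q3, kf2q3, kf3q3, lm2r_v, hL]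
    all_goals (clear hL; subst hX; ((try push_cast); all_goals (first | ring1 | (split_ifs <;> first | (exfalso; linarith) | ring1 | ((repeat first | erw [if_pos (by linarith)] | erw [if_neg (by linarith)]); ring1)))))
  · intro X g0 g1
    refine lin_of g0 g1 fun L hL hX => ?_
    simp only [rkbq3_38, rkbq3_39, rkbq3_40, rkbq3_41, rkbq3_42, rkbq3_64, kf6q3, kf6q3_4, kf7q3, bf6q3, bf6q3_3, kf5q3, kf5q3_4, kf5q3_42, kf5q3_43, kf5q3_44, kf5q3_45, kf5q3_64, bf5q3, bf5q3_3, kf4q3, kf3q3, lm3r_v, hL]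
    all_goals (clear hL; subst hX; ((try push_cast); all_goals (first | ring1 | (split_ifs <;> first | (exfalso; linarith) | ring1 | ((repeat first | erw [if_pos (by linarith)] | erw [if_neg (by linarith)]); ring1)))))
  · intro X g0 g1
    refine lin_of g0 g1 fun L hL hX => ?_
    simp only [rkbq3_38, rkbq3_39, rkbq3_40, rkbq3_41, rkbq3_42, rkbq3_64, kf6q3, kf6q3_4, kf7q3, bf6q3, bf6q3_3, kf5q3, kf5q3_4, kf5q3_42, kf5q3_43, kf5q3_44, kf5q3_45, kf5q3_64, bf5q3, bf5q3_3, kf4q3, lm4r_v, hL]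
    all_goals (clear hL; subst hX; ((try push_cast); all_goals (first | ring1 | (split_ifs <;> first | (exfalso; linarith) | ring1 | ((repeat first | erw [if_pos (by linarith)] | erw [if_neg (by linarith)]); ring1)))))
  · intro X g0 g1
    refine lin_of g0 g1 fun L hL hX => ?_
    simp only [rkbq3_38, rkbq3_39, rkbq3_40, rkbq3_41, rkbq3_42, rkbq3_64, kf6q3, kf6q3_4, kf7q3, bf6q3, bf6q3_3, kf5q3, kf5q3_4, kf5q3_42, kf5q3_43, kf5q3_44, kf5q3_45, kf5q3_64, bf5q3, bf5q3_3, kf4q3, lm5r_v, hL]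
    all_goals (clear hL; subst hX; ((try push_cast); all_goals (first | ring1 | (split_ifs <;> first | (exfalso; linarith) | ring1 | ((repeat first | erw [if_pos (by linarith)] | erw [if_neg (by linarith)]); ring1)))))
  · intro X g0 g1
    refine lin_of g0 g1 fun L hL hX => ?_
    simp only [rkbq3_38, rkbq3_39, rkbq3_40, rkbq3_41, rkbq3_42, rkbq3_64, kf6q3, kf6q3_4, kf7q3, bf6q3, bf6q3_3, kf5q3, kf5q3_4, kf5q3_42, kf5q3_43, kf5q3_44, kf5q3_45, kf5q3_64, bf5q3, bf5q3_3, kf4q3, lm6r_v, hL]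
    all_goals (clear hL; subst hX; ((try push_cast); all_goals (first | ring1 | (split_ifs <;> first | (exfalso; linarith) | ring1 | ((repeat first | erw [if_pos (by linarith)] | erw [if_neg (by linarith)]); ring1)))))
theorem pzeroL (x : ℝ) : ∀ j, PP.ρ j ≤ 1 → (ndB j 0).L.v (crd j 0 0) x = (ndB 0 0).L.v (crd 0 0 0) x := by
  intro j hj
  fin_cases j
  · rfl
  · show l1q0.v 0 x = l0q0.v 0 x
    simp only [l1q0, bx1q0, bx1q0_3, l0q0, txg, txg_4, txg_6, txg_26, txg_29, txg_32, txg_55, txg_95, txg_98, txg_139, txg_183, txg_186, txg_189, txg_226, txg_265, txg_268, txg_307, txg_341, txg_363, txg_365, txg_367, txg_369, txg_419, txg_462, txg_464, txg_506, kcg, kcg_3, kcg_6, kcg_9, kcg_12, kcg_13, kcg_16, kcg_28, kcg_36, kcg_41, kcg_51, kcg_59, kcg_60, kcg_65, kcg_77, kcg_84, kcg_85, kcg_90, kcg_101, kcg_106, kcg_111, kcg_123, kcg_133, kcg_136, kcg_137, kcg_141, kcg_153, kcg_158, kcg_161,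 kcg_171, kcg_179, kcg_180, kcg_184, kcg_194, kcg_202, kcg_206, kcg_215, kcg_220, kcg_227, kcg_228, kcg_229, kcg_249, kcg_258, kcg_278, kcg_279, kcg_300, cv1m, cv2m, cv3m, cv4m, cv5m, cv6m, cv1p, cv2p, cv3p, cv4p, cv5p, cv6p, cv1r, cv2r, cv3r, cv4r, cv5r, cv6r, c1g_v, swg_v, c3g_v, c1n_zero, swn_zero]
    ((try norm_num) <;> (try ring))
  · show l2q0.v 0 x = l0q0.v 0 x
    simp only [l2q0, bx2q0, bx2q0_3, l0q0, txg, txg_4, txg_6, txg_26, txg_29, txg_32, txg_55, txg_95, txg_98, txg_139, txg_183, txg_186, txg_189, txg_226, txg_265, txg_268, txg_307, txg_341, txg_363, txg_365, txg_367, txg_369, txg_419, txg_462, txg_464, txg_506, kcg, kcg_3, kcg_6, kcg_9, kcg_12, kcg_13, kcg_16, kcg_28, kcg_36, kcg_41, kcg_51, kcg_59, kcg_60, kcg_65, kcg_77, kcg_84, kcg_85, kcg_90, kcg_101, kcg_106, kcg_111, kcg_123, kcg_133, kcg_136, kcg_137, kcg_141, kcg_153, kcg_158, kcg_161, kcg_171, kcg_179, kcg_180,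 kcg_184, kcg_194, kcg_202, kcg_206, kcg_215, kcg_220, kcg_227, kcg_228, kcg_229, kcg_249, kcg_258, kcg_278, kcg_279, kcg_300, cv1m, cv2m, cv3m, cv4m, cv5m, cv6m, cv1p, cv2p, cv3p, cv4p, cv5p, cv6p, cv1r, cv2r, cv3r, cv4r, cv5r, cv6r, c1g_v, swg_v, c3g_v, c1n_zero, swn_zero]
    ((try norm_num) <;> (try ring))
  · show l3q0.v 0 x = l0q0.v 0 x
    simp only [l3q0, bx3q0, bx3q0_3, l0q0, txg, txg_4, txg_6, txg_26, txg_29, txg_32, txg_55, txg_95, txg_98, txg_139, txg_183, txg_186, txg_189, txg_226, txg_265, txg_268, txg_307, txg_341, txg_363, txg_365, txg_367, txg_369, txg_419, txg_462, txg_464, txg_506, kcg, kcg_3, kcg_6, kcg_9, kcg_12, kcg_13, kcg_16, kcg_28, kcg_36, kcg_41, kcg_51, kcg_59, kcg_60, kcg_65, kcg_77, kcg_84, kcg_85, kcg_90, kcg_101, kcg_106, kcg_111, kcg_123, kcg_133, kcg_136, kcg_137, kcg_141, kcg_153, kcg_158, kcg_161, kcg_171, kcg_179, kcg_180, kcg_184, kcg_194, kcg_202,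 kcg_206, kcg_215, kcg_220, kcg_227, kcg_228, kcg_229, kcg_249, kcg_258, kcg_278, kcg_279, kcg_300, cv1m, cv2m, cv3m, cv4m, cv5m, cv6m, cv1p, cv2p, cv3p, cv4p, cv5p, cv6p, cv1r, cv2r, cv3r, cv4r, cv5r, cv6r, c1g_v, swg_v, c3g_v, c1n_zero, swn_zero]
    ((try norm_num) <;> (try ring))
  · show l4q0.v 0 x = l0q0.v 0 x
    simp only [l4q0, bx4q0, bx4q0_3, l0q0, txg, txg_4, txg_6, txg_26, txg_29, txg_32, txg_55, txg_95, txg_98, txg_139, txg_183, txg_186, txg_189, txg_226, txg_265, txg_268, txg_307, txg_341, txg_363, txg_365, txg_367, txg_369, txg_419, txg_462, txg_464, txg_506, kcg, kcg_3, kcg_6, kcg_9, kcg_12, kcg_13, kcg_16, kcg_28, kcg_36, kcg_41, kcg_51, kcg_59, kcg_60, kcg_65, kcg_77, kcg_84, kcg_85, kcg_90, kcg_101, kcg_106, kcg_111, kcg_123, kcg_133, kcg_136, kcg_137, kcg_141, kcg_153, kcg_158, kcg_161, kcg_171, kcg_179, kcg_180, kcg_184, kcg_194, kcg_202, kcg_206, kcg_215, kcg_220,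 kcg_227, kcg_228, kcg_229, kcg_249, kcg_258, kcg_278, kcg_279, kcg_300, cv1m, cv2m, cv3m, cv4m, cv5m, cv6m, cv1p, cv2p, cv3p, cv4p, cv5p, cv6p, cv1r, cv2r, cv3r, cv4r, cv5r, cv6r, c1g_v, swg_v, c3g_v, c1n_zero, swn_zero]
    ((try norm_num) <;> (try ring))
  · exact absurd (show (13 / 10 : ℝ) ≤ 1 from hj) (by norm_num)
  · exact absurd (show (8 / 5 : ℝ) ≤ 1 from hj) (by norm_num)
  · exact absurd (show (2 : ℝ) ≤ 1 from hj) (by norm_num)
theorem pmidL (x : ℝ) : ∀ j, PP.ρ j ≤ 1 → (ndB j 2).L.v (crd j 2 1) x = (ndB 0 2).L.v (crd 0 2 1) x := by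
  intro j hj
  fin_cases j
  · rfl
  · show l1q2.v 1 x = lc02.v (c1n 1) x
    simp only [l1q2, l1q2_4, l1q2_12, lc02, lc02_7, lc02_8, txg, txg_4, txg_6, txg_26, txg_29, txg_32, txg_55, txg_95, txg_98, txg_139, txg_183, txg_186, txg_189, txg_226, txg_265, txg_268, txg_307, txg_341, txg_363, txg_365, txg_367, txg_369, txg_419, txg_462, txg_464, txg_506, kcg, kcg_3, kcg_6, kcg_9, kcg_12, kcg_13, kcg_16, kcg_28, kcg_36, kcg_41, kcg_51, kcg_59, kcg_60, kcg_65, kcg_77, kcg_84, kcg_85, kcg_90, kcg_101, kcg_106, kcg_111, kcg_123, kcg_133, kcg_136, kcg_137, kcg_141, kcg_153, kcg_158, kcg_161, kcg_171, kcg_179, kcg_180, kcg_184, kcg_194, kcg_202, kcg_206, kcg_215, kcg_220, kcg_227, kcg_228, kcg_229, kcg_249, kcg_258, kcg_278, kcg_279, kcg_300, cv1m, cv2m, cv3m, cv4m, cv5m, cv6m, cv1p, cv2p, cv3p, cv4p, cv5p, cv6p, cv1r, cv2r, cv3r, cv4r, cv5r, cv6r, c1g_v, swg_v, c3g_v, c1n_one, swn_one, ya1]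
    ((try norm_num) <;> (try ring))
  · show l2q2.v 1 x = lc02.v (c1n 1) x
    simp only [l2q2, l2q2_4, lc02, lc02_7, lc02_8, txg, txg_4, txg_6, txg_26, txg_29, txg_32, txg_55, txg_95, txg_98, txg_139, txg_183, txg_186, txg_189, txg_226, txg_265, txg_268, txg_307, txg_341, txg_363, txg_365, txg_367, txg_369, txg_419, txg_462, txg_464, txg_506, kcg, kcg_3, kcg_6, kcg_9, kcg_12, kcg_13, kcg_16, kcg_28, kcg_36, kcg_41, kcg_51, kcg_59, kcg_60, kcg_65, kcg_77, kcg_84, kcg_85, kcg_90, kcg_101, kcg_106, kcg_111, kcg_123, kcg_133, kcg_136, kcg_137, kcg_141, kcg_153, kcg_158, kcg_161, kcg_171, kcg_179, kcg_180, kcg_184, kcg_194, kcg_202, kcg_206, kcg_215, kcg_220, kcg_227, kcg_228, kcg_229, kcg_249, kcg_258, kcg_278, kcg_279, kcg_300, cv1m, cv2m, cv3m, cv4m, cv5m, cv6m, cv1p, cv2p, cv3p, cv4p, cv5p, cv6p, cv1r, cv2r, cv3r, cv4r, cv5r, cv6r, c1g_v, swg_v, c3g_v, c1n_one, swn_one, ya1]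
    ((try norm_num) <;> (try ring))
  · show l3q2.v 1 x = lc02.v (c1n 1) x
    simp only [l3q2, l3q2_4, lc02, lc02_7, lc02_8, txg, txg_4, txg_6, txg_26, txg_29, txg_32, txg_55, txg_95, txg_98, txg_139, txg_183, txg_186, txg_189, txg_226, txg_265, txg_268, txg_307, txg_341, txg_363, txg_365, txg_367, txg_369, txg_419, txg_462, txg_464, txg_506, kcg, kcg_3, kcg_6, kcg_9, kcg_12, kcg_13, kcg_16, kcg_28, kcg_36, kcg_41, kcg_51, kcg_59, kcg_60, kcg_65, kcg_77, kcg_84, kcg_85, kcg_90, kcg_101, kcg_106, kcg_111, kcg_123, kcg_133, kcg_136, kcg_137, kcg_141, kcg_153, kcg_158, kcg_161, kcg_171, kcg_179, kcg_180, kcg_184, kcg_194, kcg_202, kcg_206, kcg_215, kcg_220, kcg_227, kcg_228, kcg_229, kcg_249, kcg_258, kcg_278, kcg_279, kcg_300, cv1m, cv2m, cv3m, cv4m, cv5m, cv6m, cv1p, cv2p, cv3p, cv4p, cv5p, cv6p, cv1r, cv2r, cv3r, cv4r, cv5r, cv6r, c1g_v, swg_v, c3g_v, c1n_one, swn_one, ya1]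
    ((try norm_num) <;> (try ring))
  · show l4q2.v 1 x = lc02.v (c1n 1) x
    simp only [l4q2, l4q2_4, lc02, lc02_7, lc02_8, txg, txg_4, txg_6, txg_26, txg_29, txg_32, txg_55, txg_95, txg_98, txg_139, txg_183, txg_186, txg_189, txg_226, txg_265, txg_268, txg_307, txg_341, txg_363, txg_365, txg_367, txg_369, txg_419, txg_462, txg_464, txg_506, kcg, kcg_3, kcg_6, kcg_9, kcg_12, kcg_13, kcg_16, kcg_28, kcg_36, kcg_41, kcg_51, kcg_59, kcg_60, kcg_65, kcg_77, kcg_84, kcg_85, kcg_90, kcg_101, kcg_106, kcg_111, kcg_123, kcg_133, kcg_136, kcg_137, kcg_141, kcg_153, kcg_158, kcg_161, kcg_171, kcg_179, kcg_180, kcg_184, kcg_194, kcg_202, kcg_206, kcg_215, kcg_220, kcg_227, kcg_228, kcg_229, kcg_249, kcg_258, kcg_278, kcg_279, kcg_300, cv1m, cv2m, cv3m, cv4m, cv5m, cv6m, cv1p, cv2p, cv3p, cv4p, cv5p, cv6p, cv1r, cv2r, cv3r, cv4r, cv5r, cv6r, c1g_v, swg_v, c3g_v, c1n_one, swn_one, ya1]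
    ((try norm_num) <;> (try ring))
  · exact absurd (show (13 / 10 : ℝ) ≤ 1 from hj) (by norm_num)
  · exact absurd (show (8 / 5 : ℝ) ≤ 1 from hj) (by norm_num)
  · exact absurd (show (2 : ℝ) ≤ 1 from hj) (by norm_num)
theorem ptopL (x : ℝ) : ∀ j, j ≠ 0 → (ndB j 3).L.v (crd j 3 2) x = 0 := by
  intro j hj
  fin_cases j
  · exact absurd rfl hj
  · show l1q3.v 2 x = 0
    simp only [l1q3, bx1q3, bx1q3_3, cv1m, cv2m, cv3m, cv4m, cv5m, cv6m, cv1p, cv2p, cv3p, cv4p, cv5p, cv6p, cv1r, cv2r, cv3r, cv4r, cv5r, cv6r, c1g_v, swg_v, c3g_v, swn_two, c1n_two, c3n_two, yc0]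
    norm_num
  · show l2q3.v 2 x = 0
    simp only [l2q3, bx2q3, bx2q3_3, cv1m, cv2m, cv3m, cv4m, cv5m, cv6m, cv1p, cv2p, cv3p, cv4p, cv5p, cv6p, cv1r, cv2r, cv3r, cv4r, cv5r, cv6r, c1g_v, swg_v, c3g_v, swn_two, c1n_two, c3n_two, yc0]
    norm_num
  · show l3q3.v 2 x = 0
    simp only [l3q3, bx3q3, bx3q3_3, cv1m, cv2m, cv3m, cv4m, cv5m, cv6m, cv1p, cv2p, cv3p, cv4p, cv5p, cv6p, cv1r, cv2r, cv3r, cv4r, cv5r, cv6r, c1g_v, swg_v, c3g_v, swn_two, c1n_two, c3n_two, yc0]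
    norm_num
  · show l4q3.v 2 x = 0
    simp only [l4q3, bx4q3, bx4q3_3, cv1m, cv2m, cv3m, cv4m, cv5m, cv6m, cv1p, cv2p, cv3p, cv4p, cv5p, cv6p, cv1r, cv2r, cv3r, cv4r, cv5r, cv6r, c1g_v, swg_v, c3g_v, swn_two, c1n_two, c3n_two, yc0]
    norm_num
  · show lc53.v (c3n 2) x = 0
    simp only [lc53, lc53_6, lc53_9, lc53_11, lc53_26, lc53_60, lc53_73, lc53_75, kcg, kcg_3, kcg_6, kcg_9, kcg_12, kcg_13, kcg_16, kcg_28, kcg_36, kcg_41, kcg_51, kcg_59, kcg_60, kcg_65, kcg_77, kcg_84, kcg_85, kcg_90, kcg_101, kcg_106, kcg_111, kcg_123, kcg_133, kcg_136, kcg_137, kcg_141, kcg_153, kcg_158, kcg_161, kcg_171, kcg_179, kcg_180, kcg_184, kcg_194, kcg_202, kcg_206, kcg_215, kcg_220, kcg_227, kcg_228, kcg_229, kcg_249, kcg_258, kcg_278, kcg_279, kcg_300, bx4q3, bx4q3_3, cv1m, cv2m, cv3m, cv4m, cv5m, cv6m, cv1p, cv2p, cv3p, cv4p, cv5p, cv6p, cv1r, cv2r, cv3r, cv4r, cv5r, cv6r, c1g_v, swg_v, c3g_v,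 swn_two, c1n_two, c3n_two, yc0]
    norm_num
  · show lc63.v (c3n 2) x = 0
    simp only [lc63, lc63_11, cv1m, cv2m, cv3m, cv4m, cv5m, cv6m, cv1p, cv2p, cv3p, cv4p, cv5p, cv6p, cv1r, cv2r, cv3r, cv4r, cv5r, cv6r, c1g_v, swg_v, c3g_v, swn_two, c1n_two, c3n_two, yc0]
    norm_num
  · show lc73.v (c3n 2) x = 0
    simp only [lc73, lc73_7, lc73_8, lc73_9, lc73_12, lc73_14, txg, txg_4, txg_6, txg_26, txg_29, txg_32, txg_55, txg_95, txg_98, txg_139, txg_183, txg_186, txg_189, txg_226, txg_265, txg_268, txg_307, txg_341, txg_363, txg_365, txg_367, txg_369, txg_419, txg_462, txg_464, txg_506, kcg, kcg_3, kcg_6, kcg_9, kcg_12, kcg_13, kcg_16, kcg_28, kcg_36, kcg_41, kcg_51, kcg_59, kcg_60, kcg_65, kcg_77, kcg_84, kcg_85, kcg_90, kcg_101, kcg_106, kcg_111, kcg_123, kcg_133, kcg_136, kcg_137, kcg_141, kcg_153, kcg_158, kcg_161, kcg_171, kcg_179, kcg_180, kcg_184, kcg_194, kcg_202, kcg_206, kcg_215,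 kcg_220, kcg_227, kcg_228, kcg_229, kcg_249, kcg_258, kcg_278, kcg_279, kcg_300, cv1m, cv2m, cv3m, cv4m, cv5m, cv6m, cv1p, cv2p, cv3p, cv4p, cv5p, cv6p, cv1r, cv2r, cv3r, cv4r, cv5r, cv6r, c1g_v, swg_v, c3g_v, swn_two, c1n_two, c3n_two, yc0]
    norm_num
theorem thL0 {x : ℝ} (h : Pins PP tL x) : ∀ X y, InQ 0 y → 1 ≤ qqn X y → qqn X y ≤ 3 →
    thd PP tL 0 X y x = (pcB 0).L.v X y x := by
  intro X y hq k1 k3
  have hy0 := hq.nonneg
  have hy2 := hq.le_two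
  have hyl := hq.1
  have hyr := hq.2
  have on0 : h0 * y < 1 := on_half (by linarith)
  refine third7 h hq (F := fun X => rxq0.v X y x) (x0 := c1g.v y) (x1 := cv1m.v y) (x2 := cv2m.v y) (x3 := cv3m.v y) (x4 := cv4m.v y) (x5 := cv5m.v y) (x6 := cv6m.v y) (x7 := c3g.v y)
    (v0 := l0q0.v y x) (v1 := l1q0.v y x) (v2 := l2q0.v y x) (v3 := l3q0.v y x) (v4 := l4q0.v y x) (v5 := l5q0.v y x) (v6 := l6q0.v y x) (v7 := l7q0.v y x)
    ?_ ?_ ?_ ?_ ?_ ?_ ?_ ?_ ?_ ?_ ?_ ?_ ?_ ?_ ?_ ?_ (fun X => rfl) ?_ ?_ ?_ ?_ ?_ ?_ ?_ k1 k3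
  · rw [crv0]; rw [c1g_v]
  · exact ecv1q0
  · exact ecv2q0
  · exact ecv3q0
  · exact ecv4q0
  · exact ecv5q0
  · exact ecv6q0
  · rw [crv7, c3g_v]
  · exact tbF_on ⟨hq, fun _ => on0⟩
  · exact tbF_on (onc hq (by decide))
  · exact tbF_on (onc hq (by decide))
  · exact tbF_on (onc hq (by decide))
  · exact tbF_on (onc hq (by decide))
  · exact tbF_on (onc hq (by decide))
  · exact tbF_on (onc hq (by decide))
  · exact tbF_on (onc hq (by decide))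
  · intro X g0 g1
    refine lin_of g0 g1 fun L hL hX => ?_
    simp only [rxq0_38, rxq0_40, rxq0_57, l6q0, l7q0, l7q0_6, l7q0_7, l7q0_8, l5q0, l5q0_4, l5q0_30, l5q0_54, l5q0_69, bx5q0, bx5q0_3, bx5q0_29, l4q0, l0q0, l1q0, lm0m_v, hL]
    all_goals (clear hL; subst hX; ((try push_cast); all_goals (first | ring1 | (split_ifs <;> first | (exfalso; linarith) | ring1 | ((repeat first | erw [if_pos (by linarith)] | erw [if_neg (by linarith)]); ring1)))))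
  · intro X g0 g1
    refine lin_of g0 g1 fun L hL hX => ?_
    simp only [rxq0_38, rxq0_40, rxq0_57, l6q0, l7q0, l7q0_6, l7q0_7, l7q0_8, l5q0, l5q0_4, l5q0_30, l5q0_54, l5q0_69, bx5q0, bx5q0_3, bx5q0_29, l4q0, l0q0, l1q0, l2q0, lm1m_v, hL]
    all_goals (clear hL; subst hX; ((try push_cast); all_goals (first | ring1 | (split_ifs <;> first | (exfalso; linarith) | ring1 | ((repeat first | erw [if_pos (by linarith)] | erw [if_neg (by linarith)]); ring1)))))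
  · intro X g0 g1
    refine lin_of g0 g1 fun L hL hX => ?_
    simp only [rxq0_38, rxq0_40, rxq0_57, l6q0, l7q0, l7q0_6, l7q0_7, l7q0_8, l5q0, l5q0_4, l5q0_30, l5q0_54, l5q0_69, bx5q0, bx5q0_3, bx5q0_29, l4q0, l0q0, l2q0, l3q0, lm2m_v, hL]
    all_goals (clear hL; subst hX; ((try push_cast); all_goals (first | ring1 | (split_ifs <;> first | (exfalso; linarith) | ring1 | ((repeat first | erw [if_pos (by linarith)] | erw [if_neg (by linarith)]); ring1)))))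
  · intro X g0 g1
    refine lin_of g0 g1 fun L hL hX => ?_
    simp only [rxq0_38, rxq0_40, rxq0_57, l6q0, l7q0, l7q0_6, l7q0_7, l7q0_8, l5q0, l5q0_4, l5q0_30, l5q0_54, l5q0_69, bx5q0, bx5q0_3, bx5q0_29, l4q0, l0q0, l3q0, lm3m_v, hL]
    all_goals (clear hL; subst hX; ((try push_cast); all_goals (first | ring1 | (split_ifs <;> first | (exfalso; linarith) | ring1 | ((repeat first | erw [if_pos (by linarith)] | erw [if_neg (by linarith)]); ring1)))))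
  · intro X g0 g1
    refine lin_of g0 g1 fun L hL hX => ?_
    simp only [rxq0_38, rxq0_40, rxq0_57, l6q0, l7q0, l7q0_6, l7q0_7, l7q0_8, l5q0, l5q0_4, l5q0_30, l5q0_54, l5q0_69, bx5q0, bx5q0_3, bx5q0_29, l4q0, l0q0, lm4m_v, hL]
    all_goals (clear hL; subst hX; ((try push_cast); all_goals (first | ring1 | (split_ifs <;> first | (exfalso; linarith) | ring1 | ((repeat first | erw [if_pos (by linarith)] | erw [if_neg (by linarith)]); ring1)))))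
  · intro X g0 g1
    refine lin_of g0 g1 fun L hL hX => ?_
    simp only [rxq0_38, rxq0_40, rxq0_57, l6q0, l7q0, l7q0_6, l7q0_7, l7q0_8, l5q0, l5q0_4, l5q0_30, l5q0_54, l5q0_69, bx5q0, bx5q0_3, bx5q0_29, l4q0, l0q0, lm5m_v, hL]
    all_goals (clear hL; subst hX; ((try push_cast); all_goals (first | ring1 | (split_ifs <;> first | (exfalso; linarith) | ring1 | ((repeat first | erw [if_pos (by linarith)] | erw [if_neg (by linarith)]); ring1)))))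
  · intro X g0 g1
    refine lin_of g0 g1 fun L hL hX => ?_
    simp only [rxq0_38, rxq0_40, rxq0_57, l6q0, l7q0, l7q0_6, l7q0_7, l7q0_8, l5q0, l5q0_4, l5q0_30, l5q0_54, l5q0_69, bx5q0, bx5q0_3, bx5q0_29, l4q0, l0q0, lm6m_v, hL]
    all_goals (clear hL; subst hX; ((try push_cast); all_goals (first | ring1 | (split_ifs <;> first | (exfalso; linarith) | ring1 | ((repeat first | erw [if_pos (by linarith)] | erw [if_neg (by linarith)]); ring1)))))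
theorem thL1 {x : ℝ} (h : Pins PP tL x) : ∀ X y, InQ 1 y → 1 ≤ qqn X y → qqn X y ≤ 3 →
    thd PP tL 1 X y x = (pcB 1).L.v X y x := by
  intro X y hq k1 k3
  have hy0 := hq.nonneg
  have hy2 := hq.le_two
  have hyl := hq.1
  have hyr := hq.2
  have on0 : h0 * y < 1 := on_half (by linarith)
  refine third7 h hq (F := fun X => rxq1.v X y x) (x0 := c1g.v y) (x1 := cv1m.v y) (x2 := cv2m.v y) (x3 := cv3m.v y) (x4 := cv4m.v y) (x5 := cv5m.v y) (x6 := cv6m.v y) (x7 := c3g.v y)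
    (v0 := l0q1.v y x) (v1 := l1q1.v y x) (v2 := l2q1.v y x) (v3 := l3q1.v y x) (v4 := l4q1.v y x) (v5 := l5q1.v y x) (v6 := l6q1.v y x) (v7 := l7q1.v y x)
    ?_ ?_ ?_ ?_ ?_ ?_ ?_ ?_ ?_ ?_ ?_ ?_ ?_ ?_ ?_ ?_ (fun X => rfl) ?_ ?_ ?_ ?_ ?_ ?_ ?_ k1 k3
  · rw [crv0]; rw [c1g_v]
  · exact ecv1q1
  · exact ecv2q1
  · exact ecv3q1
  · exact ecv4q1
  · exact ecv5q1
  · exact ecv6q1
  · rw [crv7, c3g_v]
  · exact tbF_on ⟨hq, fun _ => on0⟩
  · exact tbF_on (onc hq (by decide))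
  · exact tbF_on (onc hq (by decide))
  · exact tbF_on (onc hq (by decide))
  · exact tbF_on (onc hq (by decide))
  · exact tbF_on (onc hq (by decide))
  · exact tbF_on (onc hq (by decide))
  · exact tbF_on (onc hq (by decide))
  · intro X g0 g1
    refine lin_of g0 g1 fun L hL hX => ?_
    simp only [l6q1, l7q1, l7q1_7, l7q1_8, l7q1_9, l0q1, l1q1, lm0m_v, hL]
    all_goals (clear hL; subst hX; ((try push_cast); all_goals (first | ring1 | (split_ifs <;> first | (exfalso; linarith) | ring1 | ((repeat first | erw [if_pos (by linarith)] | erw [if_neg (by linarith)]); ring1)))))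
  · intro X g0 g1
    refine lin_of g0 g1 fun L hL hX => ?_
    simp only [l6q1, l7q1, l7q1_7, l7q1_8, l7q1_9, l0q1, l1q1, l2q1, lm1m_v, hL]
    all_goals (clear hL; subst hX; ((try push_cast); all_goals (first | ring1 | (split_ifs <;> first | (exfalso; linarith) | ring1 | ((repeat first | erw [if_pos (by linarith)] | erw [if_neg (by linarith)]); ring1)))))
  · intro X g0 g1
    refine lin_of g0 g1 fun L hL hX => ?_
    simp only [l6q1, l7q1, l7q1_7, l7q1_8, l7q1_9, l0q1, l2q1, l3q1, lm2m_v, hL]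
    all_goals (clear hL; subst hX; ((try push_cast); all_goals (first | ring1 | (split_ifs <;> first | (exfalso; linarith) | ring1 | ((repeat first | erw [if_pos (by linarith)] | erw [if_neg (by linarith)]); ring1)))))
  · intro X g0 g1
    refine lin_of g0 g1 fun L hL hX => ?_
    simp only [l6q1, l7q1, l7q1_7, l7q1_8, l7q1_9, l0q1, l3q1, l4q1, lm3m_v, hL]
    all_goals (clear hL; subst hX; ((try push_cast); all_goals (first | ring1 | (split_ifs <;> first | (exfalso; linarith) | ring1 | ((repeat first | erw [if_pos (by linarith)] | erw [if_neg (by linarith)]); ring1)))))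
  · intro X g0 g1
    refine lin_of g0 g1 fun L hL hX => ?_
    simp only [l6q1, l7q1, l7q1_7, l7q1_8, l7q1_9, l0q1, l4q1, l5q1, lm4m_v, hL]
    all_goals (clear hL; subst hX; ((try push_cast); all_goals (first | ring1 | (split_ifs <;> first | (exfalso; linarith) | ring1 | ((repeat first | erw [if_pos (by linarith)] | erw [if_neg (by linarith)]); ring1)))))
  · intro X g0 g1
    refine lin_of g0 g1 fun L hL hX => ?_
    simp only [l6q1, l7q1, l7q1_7, l7q1_8, l7q1_9, l0q1, l5q1, lm5m_v, hL]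
    all_goals (clear hL; subst hX; ((try push_cast); all_goals (first | ring1 | (split_ifs <;> first | (exfalso; linarith) | ring1 | ((repeat first | erw [if_pos (by linarith)] | erw [if_neg (by linarith)]); ring1)))))
  · intro X g0 g1
    refine lin_of g0 g1 fun L hL hX => ?_
    simp only [l6q1, l7q1, l7q1_7, l7q1_8, l7q1_9, l0q1, lm6m_v, hL]
    all_goals (clear hL; subst hX; ((try push_cast); all_goals (first | ring1 | (split_ifs <;> first | (exfalso; linarith) | ring1 | ((repeat first | erw [if_pos (by linarith)] | erw [if_neg (by linarith)]); ring1)))))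
theorem thL2 {x : ℝ} (h : Pins PP tL x) : ∀ X y, InQ 2 y → 1 ≤ qqn X y → qqn X y ≤ 3 →
    thd PP tL 2 X y x = (pcB 2).L.v X y x := by
  intro X y hq k1 k3
  have hy0 := hq.nonneg
  have hy2 := hq.le_two
  have hyl := hq.1
  have hyr := hq.2
  refine third7 h hq (F := fun X => rxq2.v X y x) (x0 := c1g.v y) (x1 := cv1p.v y) (x2 := cv2p.v y) (x3 := cv3p.v y) (x4 := cv4p.v y) (x5 := cv5p.v y) (x6 := cv6p.v y) (x7 := c3g.v y)
    (v0 := tL 0 2 y x) (v1 := l1q2.v y x) (v2 := l2q2.v y x) (v3 := l3q2.v y x) (v4 := l4q2.v y x) (v5 := l5q2.v y x) (v6 := l6q2.v y x) (v7 := l7q2.v y x)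
    ?_ ?_ ?_ ?_ ?_ ?_ ?_ ?_ ?_ ?_ ?_ ?_ ?_ ?_ ?_ ?_ (fun X => rfl) ?_ ?_ ?_ ?_ ?_ ?_ ?_ k1 k3
  · rw [crv0]; rw [c1g_v]
  · exact ecv1q2
  · exact ecv2q2
  · exact ecv3q2
  · exact ecv4q2
  · exact ecv5q2
  · exact ecv6q2
  · rw [crv7, c3g_v]
  · rfl
  · exact tbF_on (onc hq (by decide))
  · exact tbF_on (onc hq (by decide))
  · exact tbF_on (onc hq (by decide))
  · exact tbF_on (onc hq (by decide))
  · exact tbF_on (onc hq (by decide))
  · exact tbF_on (onc hq (by decide))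
  · exact tbF_on (onc hq (by decide))
  · intro X g0 g1
    refine lin_of g0 g1 fun L hL hX => ?_
    by_cases on : h0 * y < 1
    · have e0 : tL 0 2 y x = lc02.v (c1g.v y) x := by
        rw [c1g_v]; exact tbF_on ⟨hq, fun _ => on⟩
      have e1 : yag.v (c1g.v y) = y := by rw [c1g_v]; exact yag_v hy0 on
      have hlt := on_lt on
      obtain ⟨c0, c2⟩ := c1g_sq hy0 on
      rw [e0]
      rcases le_or_gt (y - (23093 : ℕ) / (20000 : ℕ)) 0 with c | c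
      · simp only [rxq2_73, rxq2_75, l6q2, l7q2, l7q2_7, l7q2_8, l7q2_9, l7q2_12, l7q2_14, bx4q2, bx4q2_3, bx3q2, bx3q2_3, bx2q2, bx2q2_3, bx1q2, bx1q2_3, bx1q2_11, l0q2, l0q2_7, l0q2_8, n0x, n0x_3, l1q2, l1q2_4, l1q2_12, lc02, lc02_7, lc02_8, lm0p_v, hL, e1, if_pos c]
        all_goals (clear hL; subst hX; ((try push_cast); all_goals (first | ring1 | (split_ifs <;> first | (exfalso; linarith) | ring1 | ((repeat first | erw [if_pos (by linarith)] | erw [if_neg (by linarith)]); ring1)))))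
      · have hc1 : c1g.v y < 1 / 100 := by
          push_cast at c
          nlinarith
        have hc' : ¬ (y - (23093 : ℕ) / (20000 : ℕ) ≤ 0) := not_le.2 c
        have tn1 := fun c' => txg_nearL (p := -c1g.v y) (c := c') (x := x) (by linarith) (by linarith)
        have tn2 := fun c' => txg_nearR (p := c1g.v y) (c := c') (x := x) (by linarith) (by linarith)
        simp only [rxq2_73, rxq2_75, l6q2, l7q2, l7q2_7, l7q2_8, l7q2_9, l7q2_12, l7q2_14, bx4q2, bx4q2_3, bx3q2, bx3q2_3, bx2q2, bx2q2_3, bx1q2, bx1q2_3, bx1q2_11, l0q2, l0q2_7, l0q2_8, n0x, n0x_3, l1q2, l1q2_4, l1q2_12, lc02, lc02_7, lc02_8, lm0p_v, hL, e1, if_neg hc', abs_neg, abs_of_nonneg c0, neg_neg, tn1, tn2]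
        all_goals (clear hL; subst hX; (try push_cast); (try simp only [← c2]); ((try push_cast); all_goals (first | ring1 | (split_ifs <;> first | (exfalso; linarith) | ring1 | ((repeat first | erw [if_pos (by linarith)] | erw [if_neg (by linarith)]); ring1)))))
    · have off : 1 ≤ h0 * y := not_lt.1 on
      have hc := c1g_off off
      have e0 : tL 0 2 y x = 0 := tbF_off off
      have hlt := lt_off off
      simp only [rxq2_73, rxq2_75, l6q2, l7q2, l7q2_7, l7q2_8, l7q2_9, l7q2_12, l7q2_14, bx4q2, bx4q2_3, bx3q2, bx3q2_3, bx2q2, bx2q2_3, bx1q2, bx1q2_3, bx1q2_11, l0q2, l0q2_7, l0q2_8, n0x, n0x_3, l1q2, l1q2_4, l1q2_12, lm0p_v, hL, hc, e0]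
      all_goals (clear hL; subst hX; (try simp only [hc]); ((try push_cast); all_goals (first | ring1 | (split_ifs <;> first | (exfalso; linarith) | ring1 | ((repeat first | erw [if_pos (by linarith)] | erw [if_neg (by linarith)]); ring1)))))
  · intro X g0 g1
    refine lin_of g0 g1 fun L hL hX => ?_
    simp only [rxq2_73, rxq2_75, l6q2, l7q2, l7q2_7, l7q2_8, l7q2_9, l7q2_12, l7q2_14, bx4q2, bx4q2_3, bx3q2, bx3q2_3, bx2q2, bx2q2_3, bx1q2, bx1q2_3, bx1q2_11, l0q2, l0q2_7, l0q2_8, n0x, n0x_3, l1q2, l1q2_4, l1q2_12, l2q2, l2q2_4, lm1p_v, hL]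
    all_goals (clear hL; subst hX; ((try push_cast); all_goals (first | ring1 | (split_ifs <;> first | (exfalso; linarith) | ring1 | ((repeat first | erw [if_pos (by linarith)] | erw [if_neg (by linarith)]); ring1)))))
  · intro X g0 g1
    refine lin_of g0 g1 fun L hL hX => ?_
    simp only [rxq2_73, rxq2_75, l6q2, l7q2, l7q2_7, l7q2_8, l7q2_9, l7q2_12, l7q2_14, bx4q2, bx4q2_3, bx3q2, bx3q2_3, bx2q2, bx2q2_3, bx1q2, bx1q2_3, bx1q2_11, l0q2, l0q2_7, l0q2_8, n0x, n0x_3, l2q2, l2q2_4, l3q2, l3q2_4, lm2p_v, hL]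
    all_goals (clear hL; subst hX; ((try push_cast); all_goals (first | ring1 | (split_ifs <;> first | (exfalso; linarith) | ring1 | ((repeat first | erw [if_pos (by linarith)] | erw [if_neg (by linarith)]); ring1)))))
  · intro X g0 g1
    refine lin_of g0 g1 fun L hL hX => ?_
    simp only [rxq2_73, rxq2_75, l6q2, l7q2, l7q2_7, l7q2_8, l7q2_9, l7q2_12, l7q2_14, bx4q2, bx4q2_3, bx3q2, bx3q2_3, bx2q2, bx2q2_3, bx1q2, bx1q2_3, bx1q2_11, l0q2, l0q2_7, l0q2_8, n0x, n0x_3, l3q2, l3q2_4, l4q2, l4q2_4, lm3p_v, hL]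
    all_goals (clear hL; subst hX; ((try push_cast); all_goals (first | ring1 | (split_ifs <;> first | (exfalso; linarith) | ring1 | ((repeat first | erw [if_pos (by linarith)] | erw [if_neg (by linarith)]); ring1)))))
  · intro X g0 g1
    refine lin_of g0 g1 fun L hL hX => ?_
    simp only [rxq2_73, rxq2_75, l6q2, l7q2, l7q2_7, l7q2_8, l7q2_9, l7q2_12, l7q2_14, bx4q2, bx4q2_3, bx3q2, bx3q2_3, bx2q2, bx2q2_3, bx1q2, bx1q2_3, bx1q2_11, l0q2, l0q2_7, l0q2_8, n0x, n0x_3, l4q2, l4q2_4, l5q2, lm4p_v, hL]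
    all_goals (clear hL; subst hX; ((try push_cast); all_goals (first | ring1 | (split_ifs <;> first | (exfalso; linarith) | ring1 | ((repeat first | erw [if_pos (by linarith)] | erw [if_neg (by linarith)]); ring1)))))
  · intro X g0 g1
    refine lin_of g0 g1 fun L hL hX => ?_
    simp only [rxq2_73, rxq2_75, l6q2, l7q2, l7q2_7, l7q2_8, l7q2_9, l7q2_12, l7q2_14, bx4q2, bx4q2_3, bx3q2, bx3q2_3, bx2q2, bx2q2_3, bx1q2, bx1q2_3, bx1q2_11, l0q2, l0q2_7, l0q2_8, n0x, n0x_3, l5q2, lm5p_v, hL]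
    all_goals (clear hL; subst hX; ((try push_cast); all_goals (first | ring1 | (split_ifs <;> first | (exfalso; linarith) | ring1 | ((repeat first | erw [if_pos (by linarith)] | erw [if_neg (by linarith)]); ring1)))))
  · intro X g0 g1
    refine lin_of g0 g1 fun L hL hX => ?_
    simp only [rxq2_73, rxq2_75, l6q2, l7q2, l7q2_7, l7q2_8, l7q2_9, l7q2_12, l7q2_14, bx4q2, bx4q2_3, bx3q2, bx3q2_3, bx2q2, bx2q2_3, bx1q2, bx1q2_3, bx1q2_11, l0q2, l0q2_7, l0q2_8, n0x, n0x_3, lm6p_v, hL]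
    all_goals (clear hL; subst hX; ((try push_cast); all_goals (first | ring1 | (split_ifs <;> first | (exfalso; linarith) | ring1 | ((repeat first | erw [if_pos (by linarith)] | erw [if_neg (by linarith)]); ring1)))))
theorem thL3 {x : ℝ} (h : Pins PP tL x) : ∀ X y, InQ 3 y → 1 ≤ qqn X y → qqn X y ≤ 3 →
    thd PP tL 3 X y x = (pcB 3).L.v X y x := by
  intro X y hq k1 k3
  have hy0 := hq.nonneg
  have hy2 := hq.le_two
  have hyl := hq.1
  have hyr := hq.2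
  refine third7 h hq (F := fun X => rxq3.v X y x) (x0 := 0) (x1 := cv1r.v y) (x2 := cv2r.v y) (x3 := cv3r.v y) (x4 := cv4r.v y) (x5 := cv5r.v y) (x6 := cv6r.v y) (x7 := c3g.v y)
    (v0 := 0) (v1 := l1q3.v y x) (v2 := l2q3.v y x) (v3 := l3q3.v y x) (v4 := l4q3.v y x) (v5 := l5q3.v y x) (v6 := l6q3.v y x) (v7 := l7q3.v y x)
    ?_ ?_ ?_ ?_ ?_ ?_ ?_ ?_ ?_ ?_ ?_ ?_ ?_ ?_ ?_ ?_ (fun X => rfl) ?_ ?_ ?_ ?_ ?_ ?_ ?_ k1 k3
  · rw [crv0]; exact c1n_off (off_y hyl)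
  · exact ecv1q3 hyl
  · exact ecv2q3 hyl
  · exact ecv3q3 hyl
  · exact ecv4q3 hyl
  · exact ecv5q3 hyl
  · exact ecv6q3 hyl
  · rw [crv7, c3g_v]
  · exact tbF_off (off_y hyl)
  · exact tbF_on (onc hq (by decide))
  · exact tbF_on (onc hq (by decide))
  · exact tbF_on (onc hq (by decide))
  · exact tbF_on (onc hq (by decide))
  · refine (tbF_on (onc hq (by decide))).trans ?_
    show lc53.v (c3n y) x = _
    simp only [l5q3, l5q3_4, l5q3_20, l5q3_54, l5q3_69, lc53, lc53_6, lc53_9, lc53_11, lc53_26, lc53_60, lc53_73, lc53_75, ycg_v hy0 hy2, c3g_v, cv1r, cv2r, cv3r, cv4r, cv5r, cv6r]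
    all_goals (try rfl)
  · refine (tbF_on (onc hq (by decide))).trans ?_
    show lc63.v (c3n y) x = _
    simp only [l6q3, l6q3_4, lc63, lc63_11, ycg_v hy0 hy2, c3g_v, cv1r, cv2r, cv3r, cv4r, cv5r, cv6r]
    all_goals (try rfl)
  · refine (tbF_on (onc hq (by decide))).trans ?_
    show lc73.v (c3n y) x = _
    simp only [l7q3, l7q3_7, l7q3_8, l7q3_9, l7q3_12, l7q3_14, lc73, lc73_7, lc73_8, lc73_9, lc73_12, lc73_14, ycg_v hy0 hy2, c3g_v, c3g_v]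
    all_goals (try rfl)
  · intro X g0 g1
    refine lin_of g0 g1 fun L hL hX => ?_
    simp only [rxq3_38, rxq3_39, rxq3_57, l6q3, l6q3_4, l7q3, l7q3_7, l7q3_8, l7q3_9, l7q3_12, l7q3_14, bx6q3, bx6q3_3, l5q3, l5q3_4, l5q3_20, l5q3_54, l5q3_69, bx5q3, bx5q3_3, bx5q3_19, l4q3, l1q3, hL]
    all_goals (clear hL; subst hX; ((try push_cast); all_goals (first | ring1 | (split_ifs <;> first | (exfalso; linarith) | ring1 | ((repeat first | erw [if_pos (by linarith)] | erw [if_neg (by linarith)]); ring1)))))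
  · intro X g0 g1
    refine lin_of g0 g1 fun L hL hX => ?_
    simp only [rxq3_38, rxq3_39, rxq3_57, l6q3, l6q3_4, l7q3, l7q3_7, l7q3_8, l7q3_9, l7q3_12, l7q3_14, bx6q3, bx6q3_3, l5q3, l5q3_4, l5q3_20, l5q3_54, l5q3_69, bx5q3, bx5q3_3, bx5q3_19, l4q3, l1q3, l2q3, lm1r_v, hL]
    all_goals (clear hL; subst hX; ((try push_cast); all_goals (first | ring1 | (split_ifs <;> first | (exfalso; linarith) | ring1 | ((repeat first | erw [if_pos (by linarith)] | erw [if_neg (by linarith)]); ring1)))))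
  · intro X g0 g1
    refine lin_of g0 g1 fun L hL hX => ?_
    simp only [rxq3_38, rxq3_39, rxq3_57, l6q3, l6q3_4, l7q3, l7q3_7, l7q3_8, l7q3_9, l7q3_12, l7q3_14, bx6q3, bx6q3_3, l5q3, l5q3_4, l5q3_20, l5q3_54, l5q3_69, bx5q3, bx5q3_3, bx5q3_19, l4q3, l2q3, l3q3, lm2r_v, hL]
    all_goals (clear hL; subst hX; ((try push_cast); all_goals (first | ring1 | (split_ifs <;> first | (exfalso; linarith) | ring1 | ((repeat first | erw [if_pos (by linarith)] | erw [if_neg (by linarith)]); ring1)))))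
  · intro X g0 g1
    refine lin_of g0 g1 fun L hL hX => ?_
    simp only [rxq3_38, rxq3_39, rxq3_57, l6q3, l6q3_4, l7q3, l7q3_7, l7q3_8, l7q3_9, l7q3_12, l7q3_14, bx6q3, bx6q3_3, l5q3, l5q3_4, l5q3_20, l5q3_54, l5q3_69, bx5q3, bx5q3_3, bx5q3_19, l4q3, l3q3, lm3r_v, hL]
    all_goals (clear hL; subst hX; ((try push_cast); all_goals (first | ring1 | (split_ifs <;> first | (exfalso; linarith) | ring1 | ((repeat first | erw [if_pos (by linarith)] | erw [if_neg (by linarith)]); ring1)))))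
  · intro X g0 g1
    refine lin_of g0 g1 fun L hL hX => ?_
    simp only [rxq3_38, rxq3_39, rxq3_57, l6q3, l6q3_4, l7q3, l7q3_7, l7q3_8, l7q3_9, l7q3_12, l7q3_14, bx6q3, bx6q3_3, l5q3, l5q3_4, l5q3_20, l5q3_54, l5q3_69, bx5q3, bx5q3_3, bx5q3_19, l4q3, lm4r_v, hL]
    all_goals (clear hL; subst hX; ((try push_cast); all_goals (first | ring1 | (split_ifs <;> first | (exfalso; linarith) | ring1 | ((repeat first | erw [if_pos (by linarith)] | erw [if_neg (by linarith)]); ring1)))))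
  · intro X g0 g1
    refine lin_of g0 g1 fun L hL hX => ?_
    simp only [rxq3_38, rxq3_39, rxq3_57, l6q3, l6q3_4, l7q3, l7q3_7, l7q3_8, l7q3_9, l7q3_12, l7q3_14, bx6q3, bx6q3_3, l5q3, l5q3_4, l5q3_20, l5q3_54, l5q3_69, bx5q3, bx5q3_3, bx5q3_19, l4q3, lm5r_v, hL]
    all_goals (clear hL; subst hX; ((try push_cast); all_goals (first | ring1 | (split_ifs <;> first | (exfalso; linarith) | ring1 | ((repeat first | erw [if_pos (by linarith)] | erw [if_neg (by linarith)]); ring1)))))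
  · intro X g0 g1
    refine lin_of g0 g1 fun L hL hX => ?_
    simp only [rxq3_38, rxq3_39, rxq3_57, l6q3, l6q3_4, l7q3, l7q3_7, l7q3_8, l7q3_9, l7q3_12, l7q3_14, bx6q3, bx6q3_3, l5q3, l5q3_4, l5q3_20, l5q3_54, l5q3_69, bx5q3, bx5q3_3, bx5q3_19, l4q3, lm6r_v, hL]
    all_goals (clear hL; subst hX; ((try push_cast); all_goals (first | ring1 | (split_ifs <;> first | (exfalso; linarith) | ring1 | ((repeat first | erw [if_pos (by linarith)] | erw [if_neg (by linarith)]); ring1)))))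
theorem pzeroU (x : ℝ) : ∀ j, PP.ρ j ≤ 1 → (nc j 0).v (crd j 0 0) x = (nc 0 0).v (crd 0 0 0) x := by
  intro j hj
  fin_cases j
  · rfl
  · show kc1q0.v 0 x = kc0q0.v 0 x
    simp only [kc1q0, bd1q0, kc0q0, kc0q0_3, kc0q0_8, cv1m, cv2m, cv3m, cv4m, cv5m, cv6m, cv1p, cv2p, cv3p, cv4p, cv5p, cv6p, cv1r, cv2r, cv3r, cv4r, cv5r, cv6r, c1g_v, swg_v, c3g_v, c1n_zero, swn_zero]
    ((try norm_num) <;> (try ring))
  · show kc2q0.v 0 x = kc0q0.v 0 x
    simp only [kc2q0, bd2q0, kc0q0, kc0q0_3, kc0q0_8, cv1m, cv2m, cv3m, cv4m, cv5m, cv6m, cv1p, cv2p, cv3p, cv4p, cv5p, cv6p, cv1r, cv2r, cv3r, cv4r, cv5r, cv6r, c1g_v, swg_v, c3g_v, c1n_zero, swn_zero]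
    ((try norm_num) <;> (try ring))
  · show kc3q0.v 0 x = kc0q0.v 0 x
    simp only [kc3q0, bd3q0, kc0q0, kc0q0_3, kc0q0_8, cv1m, cv2m, cv3m, cv4m, cv5m, cv6m, cv1p, cv2p, cv3p, cv4p, cv5p, cv6p, cv1r, cv2r, cv3r, cv4r, cv5r, cv6r, c1g_v, swg_v, c3g_v, c1n_zero, swn_zero]
    ((try norm_num) <;> (try ring))
  · show kc4q0.v 0 x = kc0q0.v 0 x
    simp only [kc4q0, bd4q0, kc0q0, kc0q0_3, kc0q0_8, cv1m, cv2m, cv3m, cv4m, cv5m, cv6m, cv1p, cv2p, cv3p, cv4p, cv5p, cv6p, cv1r, cv2r, cv3r, cv4r, cv5r, cv6r, c1g_v, swg_v, c3g_v, c1n_zero, swn_zero]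
    ((try norm_num) <;> (try ring))
  · exact absurd (show (13 / 10 : ℝ) ≤ 1 from hj) (by norm_num)
  · exact absurd (show (8 / 5 : ℝ) ≤ 1 from hj) (by norm_num)
  · exact absurd (show (2 : ℝ) ≤ 1 from hj) (by norm_num)
theorem pmidU (x : ℝ) : ∀ j, PP.ρ j ≤ 1 → (nc j 2).v (crd j 2 1) x = (nc 0 2).v (crd 0 2 1) x := by
  intro j hj
  fin_cases j
  · rfl
  · show kc1q2.v 1 x = kcc02.v (c1n 1) x
    simp only [kc1q2, kc1q2_4, kc1q2_11, kcc02, kcc02_4, cv1m, cv2m, cv3m, cv4m, cv5m, cv6m, cv1p, cv2p, cv3p, cv4p, cv5p, cv6p, cv1r, cv2r, cv3r, cv4r, cv5r, cv6r, c1g_v, swg_v, c3g_v, c1n_one, swn_one, ya1]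
    ((try norm_num) <;> (try ring))
  · show kc2q2.v 1 x = kcc02.v (c1n 1) x
    simp only [kc2q2, kc2q2_4, kcc02, kcc02_4, cv1m, cv2m, cv3m, cv4m, cv5m, cv6m, cv1p, cv2p, cv3p, cv4p, cv5p, cv6p, cv1r, cv2r, cv3r, cv4r, cv5r, cv6r, c1g_v, swg_v, c3g_v, c1n_one, swn_one, ya1]
    ((try norm_num) <;> (try ring))
  · show kc3q2.v 1 x = kcc02.v (c1n 1) x
    simp only [kc3q2, kc3q2_4, kcc02, kcc02_4, cv1m, cv2m, cv3m, cv4m, cv5m, cv6m, cv1p, cv2p, cv3p, cv4p, cv5p, cv6p, cv1r, cv2r, cv3r, cv4r, cv5r, cv6r, c1g_v, swg_v, c3g_v, c1n_one, swn_one, ya1]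
    ((try norm_num) <;> (try ring))
  · show kc4q2.v 1 x = kcc02.v (c1n 1) x
    simp only [kc4q2, kc4q2_4, kcc02, kcc02_4, cv1m, cv2m, cv3m, cv4m, cv5m, cv6m, cv1p, cv2p, cv3p, cv4p, cv5p, cv6p, cv1r, cv2r, cv3r, cv4r, cv5r, cv6r, c1g_v, swg_v, c3g_v, c1n_one, swn_one, ya1]
    ((try norm_num) <;> (try ring))
  · exact absurd (show (13 / 10 : ℝ) ≤ 1 from hj) (by norm_num)
  · exact absurd (show (8 / 5 : ℝ) ≤ 1 from hj) (by norm_num)
  · exact absurd (show (2 : ℝ) ≤ 1 from hj) (by norm_num)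
theorem ptopU (x : ℝ) : ∀ j, j ≠ 0 → (nc j 3).v (crd j 3 2) x = 0 := by
  intro j hj
  fin_cases j
  · exact absurd rfl hj
  · show kc1q3.v 2 x = 0
    simp only [kc1q3, bd1q3, cv1m, cv2m, cv3m, cv4m, cv5m, cv6m, cv1p, cv2p, cv3p, cv4p, cv5p, cv6p, cv1r, cv2r, cv3r, cv4r, cv5r, cv6r, c1g_v, swg_v, c3g_v, swn_two, c1n_two, c3n_two, yc0]
    norm_num
  · show kc2q3.v 2 x = 0
    simp only [kc2q3, bd2q3, cv1m, cv2m, cv3m, cv4m, cv5m, cv6m, cv1p, cv2p, cv3p, cv4p, cv5p, cv6p, cv1r, cv2r, cv3r, cv4r, cv5r, cv6r, c1g_v, swg_v, c3g_v, swn_two, c1n_two, c3n_two, yc0]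
    norm_num
  · show kc3q3.v 2 x = 0
    simp only [kc3q3, bd3q3, cv1m, cv2m, cv3m, cv4m, cv5m, cv6m, cv1p, cv2p, cv3p, cv4p, cv5p, cv6p, cv1r, cv2r, cv3r, cv4r, cv5r, cv6r, c1g_v, swg_v, c3g_v, swn_two, c1n_two, c3n_two, yc0]
    norm_num
  · show kc4q3.v 2 x = 0
    simp only [kc4q3, bd4q3, cv1m, cv2m, cv3m, cv4m, cv5m, cv6m, cv1p, cv2p, cv3p, cv4p, cv5p, cv6p, cv1r, cv2r, cv3r, cv4r, cv5r, cv6r, c1g_v, swg_v, c3g_v, swn_two, c1n_two, c3n_two, yc0]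
    norm_num
  · show kcc53.v (c3n 2) x = 0
    simp only [kcc53, kcc53_6, kcc53_9, kcc53_11, kcc53_35, kcc53_36, kcc53_40, kcc53_45, kcc53_47, kcc53_48, kcc53_73, kcc53_75, kcg, kcg_3, kcg_6, kcg_9, kcg_12, kcg_13, kcg_16, kcg_28, kcg_36, kcg_41, kcg_51, kcg_59, kcg_60, kcg_65, kcg_77, kcg_84, kcg_85, kcg_90, kcg_101, kcg_106, kcg_111, kcg_123, kcg_133, kcg_136, kcg_137, kcg_141, kcg_153, kcg_158, kcg_161, kcg_171, kcg_179, kcg_180, kcg_184, kcg_194, kcg_202, kcg_206, kcg_215, kcg_220, kcg_227, kcg_228, kcg_229, kcg_249, kcg_258, kcg_278, kcg_279, kcg_300, bd4q3, cv1m, cv2m, cv3m, cv4m, cv5m, cv6m, cv1p, cv2p, cv3p, cv4p, cv5p, cv6p, cv1r, cv2r, cv3r, cv4r, cv5r, cv6r, c1g_v, swg_v, c3g_v, swn_two, c1n_two, c3n_two, yc0]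
    norm_num
  · show kcc63.v (c3n 2) x = 0
    simp only [kcc63, cv1m, cv2m, cv3m, cv4m, cv5m, cv6m, cv1p, cv2p, cv3p, cv4p, cv5p, cv6p, cv1r, cv2r, cv3r, cv4r, cv5r, cv6r, c1g_v, swg_v, c3g_v, swn_two, c1n_two, c3n_two, yc0]
    norm_num
  · show kcc73.v (c3n 2) x = 0
    simp only [kcc73, kcc73_4, kcc73_9, cv1m, cv2m, cv3m, cv4m, cv5m, cv6m, cv1p, cv2p, cv3p, cv4p, cv5p, cv6p, cv1r, cv2r, cv3r, cv4r, cv5r, cv6r, c1g_v, swg_v, c3g_v, swn_two, c1n_two, c3n_two, yc0]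
    norm_num
theorem thU0 {x : ℝ} (h : Pins PP tU x) : ∀ X y, InQ 0 y → 1 ≤ qqn X y → qqn X y ≤ 3 →
    thd PP tU 0 X y x = (pd 0).v X y x := by
  intro X y hq k1 k3
  have hy0 := hq.nonneg
  have hy2 := hq.le_two
  have hyl := hq.1
  have hyr := hq.2
  have on0 : h0 * y < 1 := on_half (by linarith)
  refine third7 h hq (F := fun X => rcq0.v X y x) (x0 := c1g.v y) (x1 := cv1m.v y) (x2 := cv2m.v y) (x3 := cv3m.v y) (x4 := cv4m.v y) (x5 := cv5m.v y) (x6 := cv6m.v y) (x7 := c3g.v y)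
    (v0 := kc0q0.v y x) (v1 := kc1q0.v y x) (v2 := kc2q0.v y x) (v3 := kc3q0.v y x) (v4 := kc4q0.v y x) (v5 := kc5q0.v y x) (v6 := kc6q0.v y x) (v7 := kc7q0.v y x)
    ?_ ?_ ?_ ?_ ?_ ?_ ?_ ?_ ?_ ?_ ?_ ?_ ?_ ?_ ?_ ?_ (fun X => rfl) ?_ ?_ ?_ ?_ ?_ ?_ ?_ k1 k3
  · rw [crv0]; rw [c1g_v]
  · exact ecv1q0
  · exact ecv2q0
  · exact ecv3q0
  · exact ecv4q0
  · exact ecv5q0
  · exact ecv6q0
  · rw [crv7, c3g_v]
  · exact tbF_on ⟨hq, fun _ => on0⟩
  · exact tbF_on (onc hq (by decide))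
  · exact tbF_on (onc hq (by decide))
  · exact tbF_on (onc hq (by decide))
  · exact tbF_on (onc hq (by decide))
  · exact tbF_on (onc hq (by decide))
  · exact tbF_on (onc hq (by decide))
  · exact tbF_on (onc hq (by decide))
  · intro X g0 g1
    refine lin_of g0 g1 fun L hL hX => ?_
    simp only [rcq0_38, rcq0_40, rcq0_41, rcq0_45, rcq0_49, rcq0_51, rcq0_52, rcq0_82, kc6q0, kc7q0, kc7q0_3, kc7q0_6, kc5q0, kc5q0_4, kc5q0_29, kc5q0_30, kc5q0_34, kc5q0_38, kc5q0_40, kc5q0_41, kc5q0_70, bd5q0, bd5q0_3, kc4q0, kc0q0, kc0q0_3, kc0q0_8, kc1q0, lm0m_v, hL]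
    all_goals (clear hL; subst hX; ((try push_cast); all_goals (first | ring1 | (split_ifs <;> first | (exfalso; linarith) | ring1 | ((repeat first | erw [if_pos (by linarith)] | erw [if_neg (by linarith)]); ring1)))))
  · intro X g0 g1
    refine lin_of g0 g1 fun L hL hX => ?_
    simp only [rcq0_38, rcq0_40, rcq0_41, rcq0_45, rcq0_49, rcq0_51, rcq0_52, rcq0_82, kc6q0, kc7q0, kc7q0_3, kc7q0_6, kc5q0, kc5q0_4, kc5q0_29, kc5q0_30, kc5q0_34, kc5q0_38, kc5q0_40, kc5q0_41, kc5q0_70, bd5q0, bd5q0_3, kc4q0, kc0q0, kc0q0_3, kc0q0_8, kc1q0, kc2q0, lm1m_v, hL]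
    all_goals (clear hL; subst hX; ((try push_cast); all_goals (first | ring1 | (split_ifs <;> first | (exfalso; linarith) | ring1 | ((repeat first | erw [if_pos (by linarith)] | erw [if_neg (by linarith)]); ring1)))))
  · intro X g0 g1
    refine lin_of g0 g1 fun L hL hX => ?_
    simp only [rcq0_38, rcq0_40, rcq0_41, rcq0_45, rcq0_49, rcq0_51, rcq0_52, rcq0_82, kc6q0, kc7q0, kc7q0_3, kc7q0_6, kc5q0, kc5q0_4, kc5q0_29, kc5q0_30, kc5q0_34, kc5q0_38, kc5q0_40, kc5q0_41, kc5q0_70, bd5q0, bd5q0_3, kc4q0, kc0q0, kc0q0_3, kc0q0_8, kc2q0, kc3q0, lm2m_v, hL]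
    all_goals (clear hL; subst hX; ((try push_cast); all_goals (first | ring1 | (split_ifs <;> first | (exfalso; linarith) | ring1 | ((repeat first | erw [if_pos (by linarith)] | erw [if_neg (by linarith)]); ring1)))))
  · intro X g0 g1
    refine lin_of g0 g1 fun L hL hX => ?_
    simp only [rcq0_38, rcq0_40, rcq0_41, rcq0_45, rcq0_49, rcq0_51, rcq0_52, rcq0_82, kc6q0, kc7q0, kc7q0_3, kc7q0_6, kc5q0, kc5q0_4, kc5q0_29, kc5q0_30, kc5q0_34, kc5q0_38, kc5q0_40, kc5q0_41, kc5q0_70, bd5q0, bd5q0_3, kc4q0, kc0q0, kc0q0_3, kc0q0_8, kc3q0, lm3m_v, hL]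
    all_goals (clear hL; subst hX; ((try push_cast); all_goals (first | ring1 | (split_ifs <;> first | (exfalso; linarith) | ring1 | ((repeat first | erw [if_pos (by linarith)] | erw [if_neg (by linarith)]); ring1)))))
  · intro X g0 g1
    refine lin_of g0 g1 fun L hL hX => ?_
    simp only [rcq0_38, rcq0_40, rcq0_41, rcq0_45, rcq0_49, rcq0_51, rcq0_52, rcq0_82, kc6q0, kc7q0, kc7q0_3, kc7q0_6, kc5q0, kc5q0_4, kc5q0_29, kc5q0_30, kc5q0_34, kc5q0_38, kc5q0_40, kc5q0_41, kc5q0_70, bd5q0, bd5q0_3, kc4q0, kc0q0, kc0q0_3, kc0q0_8, lm4m_v, hL]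
    all_goals (clear hL; subst hX; ((try push_cast); all_goals (first | ring1 | (split_ifs <;> first | (exfalso; linarith) | ring1 | ((repeat first | erw [if_pos (by linarith)] | erw [if_neg (by linarith)]); ring1)))))
  · intro X g0 g1
    refine lin_of g0 g1 fun L hL hX => ?_
    simp only [rcq0_38, rcq0_40, rcq0_41, rcq0_45, rcq0_49, rcq0_51, rcq0_52, rcq0_82, kc6q0, kc7q0, kc7q0_3, kc7q0_6, kc5q0, kc5q0_4, kc5q0_29, kc5q0_30, kc5q0_34, kc5q0_38, kc5q0_40, kc5q0_41, kc5q0_70, bd5q0, bd5q0_3, kc4q0, kc0q0, kc0q0_3, kc0q0_8, lm5m_v, hL]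
    all_goals (clear hL; subst hX; ((try push_cast); all_goals (first | ring1 | (split_ifs <;> first | (exfalso; linarith) | ring1 | ((repeat first | erw [if_pos (by linarith)] | erw [if_neg (by linarith)]); ring1)))))
  · intro X g0 g1
    refine lin_of g0 g1 fun L hL hX => ?_
    simp only [rcq0_38, rcq0_40, rcq0_41, rcq0_45, rcq0_49, rcq0_51, rcq0_52, rcq0_82, kc6q0, kc7q0, kc7q0_3, kc7q0_6, kc5q0, kc5q0_4, kc5q0_29, kc5q0_30, kc5q0_34, kc5q0_38, kc5q0_40, kc5q0_41, kc5q0_70, bd5q0, bd5q0_3, kc4q0, kc0q0, kc0q0_3, kc0q0_8, lm6m_v, hL]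
    all_goals (clear hL; subst hX; ((try push_cast); all_goals (first | ring1 | (split_ifs <;> first | (exfalso; linarith) | ring1 | ((repeat first | erw [if_pos (by linarith)] | erw [if_neg (by linarith)]); ring1)))))
theorem thU1 {x : ℝ} (h : Pins PP tU x) : ∀ X y, InQ 1 y → 1 ≤ qqn X y → qqn X y ≤ 3 →
    thd PP tU 1 X y x = (pd 1).v X y x := by
  intro X y hq k1 k3
  have hy0 := hq.nonneg
  have hy2 := hq.le_two
  have hyl := hq.1
  have hyr := hq.2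
  have on0 : h0 * y < 1 := on_half (by linarith)
  refine third7 h hq (F := fun X => rcq1.v X y x) (x0 := c1g.v y) (x1 := cv1m.v y) (x2 := cv2m.v y) (x3 := cv3m.v y) (x4 := cv4m.v y) (x5 := cv5m.v y) (x6 := cv6m.v y) (x7 := c3g.v y)
    (v0 := kc0q1.v y x) (v1 := kc1q1.v y x) (v2 := kc2q1.v y x) (v3 := kc3q1.v y x) (v4 := kc4q1.v y x) (v5 := kc5q1.v y x) (v6 := kc6q1.v y x) (v7 := kc7q1.v y x)
    ?_ ?_ ?_ ?_ ?_ ?_ ?_ ?_ ?_ ?_ ?_ ?_ ?_ ?_ ?_ ?_ (fun X => rfl) ?_ ?_ ?_ ?_ ?_ ?_ ?_ k1 k3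
  · rw [crv0]; rw [c1g_v]
  · exact ecv1q1
  · exact ecv2q1
  · exact ecv3q1
  · exact ecv4q1
  · exact ecv5q1
  · exact ecv6q1
  · rw [crv7, c3g_v]
  · exact tbF_on ⟨hq, fun _ => on0⟩
  · exact tbF_on (onc hq (by decide))
  · exact tbF_on (onc hq (by decide))
  · exact tbF_on (onc hq (by decide))
  · exact tbF_on (onc hq (by decide))
  · exact tbF_on (onc hq (by decide))
  · exact tbF_on (onc hq (by decide))
  · exact tbF_on (onc hq (by decide))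
  · intro X g0 g1
    refine lin_of g0 g1 fun L hL hX => ?_
    simp only [kc6q1, kc7q1, kc7q1_3, kc7q1_7, kc0q1, kc0q1_3, kc0q1_9, kc1q1, lm0m_v, hL]
    all_goals (clear hL; subst hX; ((try push_cast); all_goals (first | ring1 | (split_ifs <;> first | (exfalso; linarith) | ring1 | ((repeat first | erw [if_pos (by linarith)] | erw [if_neg (by linarith)]); ring1)))))
  · intro X g0 g1
    refine lin_of g0 g1 fun L hL hX => ?_
    simp only [kc6q1, kc7q1, kc7q1_3, kc7q1_7, kc0q1, kc0q1_3, kc0q1_9, kc1q1, kc2q1, lm1m_v, hL]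
    all_goals (clear hL; subst hX; ((try push_cast); all_goals (first | ring1 | (split_ifs <;> first | (exfalso; linarith) | ring1 | ((repeat first | erw [if_pos (by linarith)] | erw [if_neg (by linarith)]); ring1)))))
  · intro X g0 g1
    refine lin_of g0 g1 fun L hL hX => ?_
    simp only [kc6q1, kc7q1, kc7q1_3, kc7q1_7, kc0q1, kc0q1_3, kc0q1_9, kc2q1, kc3q1, lm2m_v, hL]
    all_goals (clear hL; subst hX; ((try push_cast); all_goals (first | ring1 | (split_ifs <;> first | (exfalso; linarith) | ring1 | ((repeat first | erw [if_pos (by linarith)] | erw [if_neg (by linarith)]); ring1)))))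
  · intro X g0 g1
    refine lin_of g0 g1 fun L hL hX => ?_
    simp only [kc6q1, kc7q1, kc7q1_3, kc7q1_7, kc0q1, kc0q1_3, kc0q1_9, kc3q1, kc4q1, lm3m_v, hL]
    all_goals (clear hL; subst hX; ((try push_cast); all_goals (first | ring1 | (split_ifs <;> first | (exfalso; linarith) | ring1 | ((repeat first | erw [if_pos (by linarith)] | erw [if_neg (by linarith)]); ring1)))))
  · intro X g0 g1
    refine lin_of g0 g1 fun L hL hX => ?_
    simp only [kc6q1, kc7q1, kc7q1_3, kc7q1_7, kc0q1, kc0q1_3, kc0q1_9, kc4q1, kc5q1, lm4m_v, hL]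
    all_goals (clear hL; subst hX; ((try push_cast); all_goals (first | ring1 | (split_ifs <;> first | (exfalso; linarith) | ring1 | ((repeat first | erw [if_pos (by linarith)] | erw [if_neg (by linarith)]); ring1)))))
  · intro X g0 g1
    refine lin_of g0 g1 fun L hL hX => ?_
    simp only [kc6q1, kc7q1, kc7q1_3, kc7q1_7, kc0q1, kc0q1_3, kc0q1_9, kc5q1, lm5m_v, hL]
    all_goals (clear hL; subst hX; ((try push_cast); all_goals (first | ring1 | (split_ifs <;> first | (exfalso; linarith) | ring1 | ((repeat first | erw [if_pos (by linarith)] | erw [if_neg (by linarith)]); ring1)))))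
  · intro X g0 g1
    refine lin_of g0 g1 fun L hL hX => ?_
    simp only [kc6q1, kc7q1, kc7q1_3, kc7q1_7, kc0q1, kc0q1_3, kc0q1_9, lm6m_v, hL]
    all_goals (clear hL; subst hX; ((try push_cast); all_goals (first | ring1 | (split_ifs <;> first | (exfalso; linarith) | ring1 | ((repeat first | erw [if_pos (by linarith)] | erw [if_neg (by linarith)]); ring1)))))
theorem thU2 {x : ℝ} (h : Pins PP tU x) : ∀ X y, InQ 2 y → 1 ≤ qqn X y → qqn X y ≤ 3 →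
    thd PP tU 2 X y x = (pd 2).v X y x := by
  intro X y hq k1 k3
  have hy0 := hq.nonneg
  have hy2 := hq.le_two
  have hyl := hq.1
  have hyr := hq.2
  refine third7 h hq (F := fun X => rcq2.v X y x) (x0 := c1g.v y) (x1 := cv1p.v y) (x2 := cv2p.v y) (x3 := cv3p.v y) (x4 := cv4p.v y) (x5 := cv5p.v y) (x6 := cv6p.v y) (x7 := c3g.v y)
    (v0 := tU 0 2 y x) (v1 := kc1q2.v y x) (v2 := kc2q2.v y x) (v3 := kc3q2.v y x) (v4 := kc4q2.v y x) (v5 := kc5q2.v y x) (v6 := kc6q2.v y x) (v7 := kc7q2.v y x)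
    ?_ ?_ ?_ ?_ ?_ ?_ ?_ ?_ ?_ ?_ ?_ ?_ ?_ ?_ ?_ ?_ (fun X => rfl) ?_ ?_ ?_ ?_ ?_ ?_ ?_ k1 k3
  · rw [crv0]; rw [c1g_v]
  · exact ecv1q2
  · exact ecv2q2
  · exact ecv3q2
  · exact ecv4q2
  · exact ecv5q2
  · exact ecv6q2
  · rw [crv7, c3g_v]
  · rfl
  · exact tbF_on (onc hq (by decide))
  · exact tbF_on (onc hq (by decide))
  · exact tbF_on (onc hq (by decide))
  · exact tbF_on (onc hq (by decide))
  · exact tbF_on (onc hq (by decide))
  · exact tbF_on (onc hq (by decide))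
  · exact tbF_on (onc hq (by decide))
  · intro X g0 g1
    refine lin_of g0 g1 fun L hL hX => ?_
    by_cases on : h0 * y < 1
    · have e0 : tU 0 2 y x = kcc02.v (c1g.v y) x := by
        rw [c1g_v]; exact tbF_on ⟨hq, fun _ => on⟩
      have e1 : yag.v (c1g.v y) = y := by rw [c1g_v]; exact yag_v hy0 on
      have hlt := on_lt on
      obtain ⟨c0, c2⟩ := c1g_sq hy0 on
      rw [e0]
      rcases le_or_gt (y - (1149 : ℕ) / (1000 : ℕ)) 0 with c | c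
      · simp only [rcq2_73, rcq2_75, kc6q2, kc7q2, kc7q2_3, kc7q2_9, bd4q2, bd4q2_3, bd3q2, bd3q2_3, bd2q2, bd2q2_3, bd1q2, bd1q2_3, bd1q2_10, kc0q2, kc0q2_3, n0d, kc1q2, kc1q2_4, kc1q2_11, kcc02, kcc02_4, lm0p_v, hL, e1, if_pos c]
        all_goals (clear hL; subst hX; ((try push_cast); all_goals (first | ring1 | (split_ifs <;> first | (exfalso; linarith) | ring1 | ((repeat first | erw [if_pos (by linarith)] | erw [if_neg (by linarith)]); ring1)))))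
      · have hc1 : c1g.v y < 1 / 10 := by
          push_cast at c
          nlinarith
        have hc' : ¬ (y - (1149 : ℕ) / (1000 : ℕ) ≤ 0) := not_le.2 c
        simp only [rcq2_73, rcq2_75, kc6q2, kc7q2, kc7q2_3, kc7q2_9, bd4q2, bd4q2_3, bd3q2, bd3q2_3, bd2q2, bd2q2_3, bd1q2, bd1q2_3, bd1q2_10, kc0q2, kc0q2_3, n0d, kc1q2, kc1q2_4, kc1q2_11, kcc02, kcc02_4, lm0p_v, hL, e1, if_neg hc', abs_neg, abs_of_nonneg c0, neg_neg]
        all_goals (clear hL; subst hX; (try push_cast); (try simp only [← c2]); ((try push_cast); all_goals (first | ring1 | (split_ifs <;> first | (exfalso; linarith) | ring1 | ((repeat first | erw [if_pos (by linarith)] | erw [if_neg (by linarith)]); ring1)))))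
    · have off : 1 ≤ h0 * y := not_lt.1 on
      have hc := c1g_off off
      have e0 : tU 0 2 y x = 0 := tbF_off off
      have hlt := lt_off off
      simp only [rcq2_73, rcq2_75, kc6q2, kc7q2, kc7q2_3, kc7q2_9, bd4q2, bd4q2_3, bd3q2, bd3q2_3, bd2q2, bd2q2_3, bd1q2, bd1q2_3, bd1q2_10, kc0q2, kc0q2_3, n0d, kc1q2, kc1q2_4, kc1q2_11, lm0p_v, hL, hc, e0]
      all_goals (clear hL; subst hX; (try simp only [hc]); ((try push_cast); all_goals (first | ring1 | (split_ifs <;> first | (exfalso; linarith) | ring1 | ((repeat first | erw [if_pos (by linarith)] | erw [if_neg (by linarith)]); ring1)))))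
  · intro X g0 g1
    refine lin_of g0 g1 fun L hL hX => ?_
    simp only [rcq2_73, rcq2_75, kc6q2, kc7q2, kc7q2_3, kc7q2_9, bd4q2, bd4q2_3, bd3q2, bd3q2_3, bd2q2, bd2q2_3, bd1q2, bd1q2_3, bd1q2_10, kc0q2, kc0q2_3, n0d, kc1q2, kc1q2_4, kc1q2_11, kc2q2, kc2q2_4, lm1p_v, hL]
    all_goals (clear hL; subst hX; ((try push_cast); all_goals (first | ring1 | (split_ifs <;> first | (exfalso; linarith) | ring1 | ((repeat first | erw [if_pos (by linarith)] | erw [if_neg (by linarith)]); ring1)))))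
  · intro X g0 g1
    refine lin_of g0 g1 fun L hL hX => ?_
    simp only [rcq2_73, rcq2_75, kc6q2, kc7q2, kc7q2_3, kc7q2_9, bd4q2, bd4q2_3, bd3q2, bd3q2_3, bd2q2, bd2q2_3, bd1q2, bd1q2_3, bd1q2_10, kc0q2, kc0q2_3, n0d, kc2q2, kc2q2_4, kc3q2, kc3q2_4, lm2p_v, hL]
    all_goals (clear hL; subst hX; ((try push_cast); all_goals (first | ring1 | (split_ifs <;> first | (exfalso; linarith) | ring1 | ((repeat first | erw [if_pos (by linarith)] | erw [if_neg (by linarith)]); ring1)))))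
  · intro X g0 g1
    refine lin_of g0 g1 fun L hL hX => ?_
    simp only [rcq2_73, rcq2_75, kc6q2, kc7q2, kc7q2_3, kc7q2_9, bd4q2, bd4q2_3, bd3q2, bd3q2_3, bd2q2, bd2q2_3, bd1q2, bd1q2_3, bd1q2_10, kc0q2, kc0q2_3, n0d, kc3q2, kc3q2_4, kc4q2, kc4q2_4, lm3p_v, hL]
    all_goals (clear hL; subst hX; ((try push_cast); all_goals (first | ring1 | (split_ifs <;> first | (exfalso; linarith) | ring1 | ((repeat first | erw [if_pos (by linarith)] | erw [if_neg (by linarith)]); ring1)))))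
  · intro X g0 g1
    refine lin_of g0 g1 fun L hL hX => ?_
    simp only [rcq2_73, rcq2_75, kc6q2, kc7q2, kc7q2_3, kc7q2_9, bd4q2, bd4q2_3, bd3q2, bd3q2_3, bd2q2, bd2q2_3, bd1q2, bd1q2_3, bd1q2_10, kc0q2, kc0q2_3, n0d, kc4q2, kc4q2_4, kc5q2, lm4p_v, hL]
    all_goals (clear hL; subst hX; ((try push_cast); all_goals (first | ring1 | (split_ifs <;> first | (exfalso; linarith) | ring1 | ((repeat first | erw [if_pos (by linarith)] | erw [if_neg (by linarith)]); ring1)))))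
  · intro X g0 g1
    refine lin_of g0 g1 fun L hL hX => ?_
    simp only [rcq2_73, rcq2_75, kc6q2, kc7q2, kc7q2_3, kc7q2_9, bd4q2, bd4q2_3, bd3q2, bd3q2_3, bd2q2, bd2q2_3, bd1q2, bd1q2_3, bd1q2_10, kc0q2, kc0q2_3, n0d, kc5q2, lm5p_v, hL]
    all_goals (clear hL; subst hX; ((try push_cast); all_goals (first | ring1 | (split_ifs <;> first | (exfalso; linarith) | ring1 | ((repeat first | erw [if_pos (by linarith)] | erw [if_neg (by linarith)]); ring1)))))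
  · intro X g0 g1
    refine lin_of g0 g1 fun L hL hX => ?_
    simp only [rcq2_73, rcq2_75, kc6q2, kc7q2, kc7q2_3, kc7q2_9, bd4q2, bd4q2_3, bd3q2, bd3q2_3, bd2q2, bd2q2_3, bd1q2, bd1q2_3, bd1q2_10, kc0q2, kc0q2_3, n0d, lm6p_v, hL]
    all_goals (clear hL; subst hX; ((try push_cast); all_goals (first | ring1 | (split_ifs <;> first | (exfalso; linarith) | ring1 | ((repeat first | erw [if_pos (by linarith)] | erw [if_neg (by linarith)]); ring1)))))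
theorem thU3 {x : ℝ} (h : Pins PP tU x) : ∀ X y, InQ 3 y → 1 ≤ qqn X y → qqn X y ≤ 3 →
    thd PP tU 3 X y x = (pd 3).v X y x := by
  intro X y hq k1 k3
  have hy0 := hq.nonneg
  have hy2 := hq.le_two
  have hyl := hq.1
  have hyr := hq.2
  refine third7 h hq (F := fun X => rcq3.v X y x) (x0 := 0) (x1 := cv1r.v y) (x2 := cv2r.v y) (x3 := cv3r.v y) (x4 := cv4r.v y) (x5 := cv5r.v y) (x6 := cv6r.v y) (x7 := c3g.v y)
    (v0 := 0) (v1 := kc1q3.v y x) (v2 := kc2q3.v y x) (v3 := kc3q3.v y x) (v4 := kc4q3.v y x) (v5 := kc5q3.v y x) (v6 := kc6q3.v y x) (v7 := kc7q3.v y x)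
    ?_ ?_ ?_ ?_ ?_ ?_ ?_ ?_ ?_ ?_ ?_ ?_ ?_ ?_ ?_ ?_ (fun X => rfl) ?_ ?_ ?_ ?_ ?_ ?_ ?_ k1 k3
  · rw [crv0]; exact c1n_off (off_y hyl)
  · exact ecv1q3 hyl
  · exact ecv2q3 hyl
  · exact ecv3q3 hyl
  · exact ecv4q3 hyl
  · exact ecv5q3 hyl
  · exact ecv6q3 hyl
  · rw [crv7, c3g_v]
  · exact tbF_off (off_y hyl)
  · exact tbF_on (onc hq (by decide))
  · exact tbF_on (onc hq (by decide))
  · exact tbF_on (onc hq (by decide))
  · exact tbF_on (onc hq (by decide))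
  · refine (tbF_on (onc hq (by decide))).trans ?_
    show kcc53.v (c3n y) x = _
    simp only [kc5q3, kc5q3_4, kc5q3_29, kc5q3_30, kc5q3_34, kc5q3_39, kc5q3_41, kc5q3_42, kc5q3_70, kcc53, kcc53_6, kcc53_9, kcc53_11, kcc53_35, kcc53_36, kcc53_40, kcc53_45, kcc53_47, kcc53_48, kcc53_73, kcc53_75, ycg_v hy0 hy2, c3g_v, cv1r, cv2r, cv3r, cv4r, cv5r, cv6r]
    all_goals (try rfl)
  · refine (tbF_on (onc hq (by decide))).trans ?_
    show kcc63.v (c3n y) x = _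
    simp only [kc6q3, kcc63, ycg_v hy0 hy2, c3g_v, cv1r, cv2r, cv3r, cv4r, cv5r, cv6r]
    all_goals (try rfl)
  · refine (tbF_on (onc hq (by decide))).trans ?_
    show kcc73.v (c3n y) x = _
    simp only [kc7q3, kc7q3_3, kc7q3_9, kcc73, kcc73_4, kcc73_9, ycg_v hy0 hy2, c3g_v, c3g_v]
    all_goals (try rfl)
  · intro X g0 g1
    refine lin_of g0 g1 fun L hL hX => ?_
    simp only [rcq3_38, rcq3_39, rcq3_40, rcq3_44, rcq3_49, rcq3_51, rcq3_52, rcq3_82, kc6q3, kc7q3, kc7q3_3, kc7q3_9, bd6q3, kc5q3, kc5q3_4, kc5q3_29, kc5q3_30, kc5q3_34, kc5q3_39, kc5q3_41, kc5q3_42, kc5q3_70, bd5q3, bd5q3_3, kc4q3, kc1q3, hL]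
    all_goals (clear hL; subst hX; ((try push_cast); all_goals (first | ring1 | (split_ifs <;> first | (exfalso; linarith) | ring1 | ((repeat first | erw [if_pos (by linarith)] | erw [if_neg (by linarith)]); ring1)))))
  · intro X g0 g1
    refine lin_of g0 g1 fun L hL hX => ?_
    simp only [rcq3_38, rcq3_39, rcq3_40, rcq3_44, rcq3_49, rcq3_51, rcq3_52, rcq3_82, kc6q3, kc7q3, kc7q3_3, kc7q3_9, bd6q3, kc5q3, kc5q3_4, kc5q3_29, kc5q3_30, kc5q3_34, kc5q3_39, kc5q3_41, kc5q3_42, kc5q3_70, bd5q3, bd5q3_3, kc4q3, kc1q3, kc2q3, lm1r_v, hL]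
    all_goals (clear hL; subst hX; ((try push_cast); all_goals (first | ring1 | (split_ifs <;> first | (exfalso; linarith) | ring1 | ((repeat first | erw [if_pos (by linarith)] | erw [if_neg (by linarith)]); ring1)))))
  · intro X g0 g1
    refine lin_of g0 g1 fun L hL hX => ?_
    simp only [rcq3_38, rcq3_39, rcq3_40, rcq3_44, rcq3_49, rcq3_51, rcq3_52, rcq3_82, kc6q3, kc7q3, kc7q3_3, kc7q3_9, bd6q3, kc5q3, kc5q3_4, kc5q3_29, kc5q3_30, kc5q3_34, kc5q3_39, kc5q3_41, kc5q3_42, kc5q3_70, bd5q3, bd5q3_3, kc4q3, kc2q3, kc3q3, lm2r_v, hL]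
    all_goals (clear hL; subst hX; ((try push_cast); all_goals (first | ring1 | (split_ifs <;> first | (exfalso; linarith) | ring1 | ((repeat first | erw [if_pos (by linarith)] | erw [if_neg (by linarith)]); ring1)))))
  · intro X g0 g1
    refine lin_of g0 g1 fun L hL hX => ?_
    simp only [rcq3_38, rcq3_39, rcq3_40, rcq3_44, rcq3_49, rcq3_51, rcq3_52, rcq3_82, kc6q3, kc7q3, kc7q3_3, kc7q3_9, bd6q3, kc5q3, kc5q3_4, kc5q3_29, kc5q3_30, kc5q3_34, kc5q3_39, kc5q3_41, kc5q3_42, kc5q3_70, bd5q3, bd5q3_3, kc4q3, kc3q3, lm3r_v, hL]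
    all_goals (clear hL; subst hX; ((try push_cast); all_goals (first | ring1 | (split_ifs <;> first | (exfalso; linarith) | ring1 | ((repeat first | erw [if_pos (by linarith)] | erw [if_neg (by linarith)]); ring1)))))
  · intro X g0 g1
    refine lin_of g0 g1 fun L hL hX => ?_
    simp only [rcq3_38, rcq3_39, rcq3_40, rcq3_44, rcq3_49, rcq3_51, rcq3_52, rcq3_82, kc6q3, kc7q3, kc7q3_3, kc7q3_9, bd6q3, kc5q3, kc5q3_4, kc5q3_29, kc5q3_30, kc5q3_34, kc5q3_39, kc5q3_41, kc5q3_42, kc5q3_70, bd5q3, bd5q3_3, kc4q3, lm4r_v, hL]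
    all_goals (clear hL; subst hX; ((try push_cast); all_goals (first | ring1 | (split_ifs <;> first | (exfalso; linarith) | ring1 | ((repeat first | erw [if_pos (by linarith)] | erw [if_neg (by linarith)]); ring1)))))
  · intro X g0 g1
    refine lin_of g0 g1 fun L hL hX => ?_
    simp only [rcq3_38, rcq3_39, rcq3_40, rcq3_44, rcq3_49, rcq3_51, rcq3_52, rcq3_82, kc6q3, kc7q3, kc7q3_3, kc7q3_9, bd6q3, kc5q3, kc5q3_4, kc5q3_29, kc5q3_30, kc5q3_34, kc5q3_39, kc5q3_41, kc5q3_42, kc5q3_70, bd5q3, bd5q3_3, kc4q3, lm5r_v, hL]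
    all_goals (clear hL; subst hX; ((try push_cast); all_goals (first | ring1 | (split_ifs <;> first | (exfalso; linarith) | ring1 | ((repeat first | erw [if_pos (by linarith)] | erw [if_neg (by linarith)]); ring1)))))
  · intro X g0 g1
    refine lin_of g0 g1 fun L hL hX => ?_
    simp only [rcq3_38, rcq3_39, rcq3_40, rcq3_44, rcq3_49, rcq3_51, rcq3_52, rcq3_82, kc6q3, kc7q3, kc7q3_3, kc7q3_9, bd6q3, kc5q3, kc5q3_4, kc5q3_29, kc5q3_30, kc5q3_34, kc5q3_39, kc5q3_41, kc5q3_42, kc5q3_70, bd5q3, bd5q3_3, kc4q3, lm6r_v, hL]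
    all_goals (clear hL; subst hX; ((try push_cast); all_goals (first | ring1 | (split_ifs <;> first | (exfalso; linarith) | ring1 | ((repeat first | erw [if_pos (by linarith)] | erw [if_neg (by linarith)]); ring1)))))
theorem bx00 : BoxC crd (0 : Fin 8) 0 0 536870912 := by
  refine boxC_of (lo := 0) (hi := 1 / 2) ?_ (by norm_num) (by norm_num)
  intro y h
  obtain ⟨h1, h2⟩ := onC_rng h
  push_cast at h1 h2
  show 0 ≤ y ∧ y ≤ 1 / 2
  constructor <;> linarith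
theorem bx01 : BoxC crd (0 : Fin 8) 1 536870912 536870912 := by
  refine boxC_of (lo := 1 / 2) (hi := 1) ?_ (by norm_num) (by norm_num)
  intro y h
  obtain ⟨h1, h2⟩ := onC_rng h
  push_cast at h1 h2
  show 1 / 2 ≤ y ∧ y ≤ 1
  constructor <;> linarith
theorem bx02 : BoxC crd (0 : Fin 8) 2 0 536870912 := by
  refine boxC_of (lo := 0) (hi := 1 / 2) ?_ (by norm_num) (by norm_num)
  intro y h
  obtain ⟨h1, h2⟩ := onC_rng h
  push_cast at h1 h2
  exact c1n_half (by linarith)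
theorem bx10 : BoxC crd (1 : Fin 8) 0 0 536870912 := by
  refine boxC_of (lo := 0) (hi := 1 / 2) ?_ (by norm_num) (by norm_num)
  intro y h
  obtain ⟨h1, h2⟩ := onC_rng h
  push_cast at h1 h2
  show 0 ≤ y ∧ y ≤ 1 / 2
  constructor <;> linarith
theorem bx11 : BoxC crd (1 : Fin 8) 1 536870912 536870912 := by
  refine boxC_of (lo := 1 / 2) (hi := 1) ?_ (by norm_num) (by norm_num)
  intro y h
  obtain ⟨h1, h2⟩ := onC_rng h
  push_cast at h1 h2
  show 1 / 2 ≤ y ∧ y ≤ 1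
  constructor <;> linarith
theorem bx12 : BoxC crd (1 : Fin 8) 2 1073741824 536870912 := by
  refine boxC_of (lo := 1) (hi := 3 / 2) ?_ (by norm_num) (by norm_num)
  intro y h
  obtain ⟨h1, h2⟩ := onC_rng h
  push_cast at h1 h2
  show 1 ≤ y ∧ y ≤ 3 / 2
  constructor <;> linarith
theorem bx13 : BoxC crd (1 : Fin 8) 3 1610612736 536870912 := by
  refine boxC_of (lo := 3 / 2) (hi := 2) ?_ (by norm_num) (by norm_num)
  intro y h
  obtain ⟨h1, h2⟩ := onC_rng h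
  push_cast at h1 h2
  show 3 / 2 ≤ y ∧ y ≤ 2
  constructor <;> linarith
theorem bx20 : BoxC crd (2 : Fin 8) 0 0 536870912 := by
  refine boxC_of (lo := 0) (hi := 1 / 2) ?_ (by norm_num) (by norm_num)
  intro y h
  obtain ⟨h1, h2⟩ := onC_rng h
  push_cast at h1 h2
  show 0 ≤ y ∧ y ≤ 1 / 2
  constructor <;> linarith
theorem bx21 : BoxC crd (2 : Fin 8) 1 536870912 536870912 := by
  refine boxC_of (lo := 1 / 2) (hi := 1) ?_ (by norm_num) (by norm_num)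
  intro y h
  obtain ⟨h1, h2⟩ := onC_rng h
  push_cast at h1 h2
  show 1 / 2 ≤ y ∧ y ≤ 1
  constructor <;> linarith
theorem bx22 : BoxC crd (2 : Fin 8) 2 1073741824 536870912 := by
  refine boxC_of (lo := 1) (hi := 3 / 2) ?_ (by norm_num) (by norm_num)
  intro y h
  obtain ⟨h1, h2⟩ := onC_rng h
  push_cast at h1 h2
  show 1 ≤ y ∧ y ≤ 3 / 2
  constructor <;> linarith
theorem bx23 : BoxC crd (2 : Fin 8) 3 1610612736 536870912 := by
  refine boxC_of (lo := 3 / 2) (hi := 2) ?_ (by norm_num) (by norm_num)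
  intro y h
  obtain ⟨h1, h2⟩ := onC_rng h
  push_cast at h1 h2
  show 3 / 2 ≤ y ∧ y ≤ 2
  constructor <;> linarith
theorem bx30 : BoxC crd (3 : Fin 8) 0 0 536870912 := by
  refine boxC_of (lo := 0) (hi := 1 / 2) ?_ (by norm_num) (by norm_num)
  intro y h
  obtain ⟨h1, h2⟩ := onC_rng h
  push_cast at h1 h2
  show 0 ≤ y ∧ y ≤ 1 / 2
  constructor <;> linarith
theorem bx31 : BoxC crd (3 : Fin 8) 1 536870912 536870912 := by
  refine boxC_of (lo := 1 / 2) (hi := 1) ?_ (by norm_num) (by norm_num)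
  intro y h
  obtain ⟨h1, h2⟩ := onC_rng h
  push_cast at h1 h2
  show 1 / 2 ≤ y ∧ y ≤ 1
  constructor <;> linarith
theorem bx32 : BoxC crd (3 : Fin 8) 2 1073741824 536870912 := by
  refine boxC_of (lo := 1) (hi := 3 / 2) ?_ (by norm_num) (by norm_num)
  intro y h
  obtain ⟨h1, h2⟩ := onC_rng h
  push_cast at h1 h2
  show 1 ≤ y ∧ y ≤ 3 / 2
  constructor <;> linarith
theorem bx33 : BoxC crd (3 : Fin 8) 3 1610612736 536870912 := by
  refine boxC_of (lo := 3 / 2) (hi := 2) ?_ (by norm_num) (by norm_num)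
  intro y h
  obtain ⟨h1, h2⟩ := onC_rng h
  push_cast at h1 h2
  show 3 / 2 ≤ y ∧ y ≤ 2
  constructor <;> linarith
theorem bx40 : BoxC crd (4 : Fin 8) 0 0 536870912 := by
  refine boxC_of (lo := 0) (hi := 1 / 2) ?_ (by norm_num) (by norm_num)
  intro y h
  obtain ⟨h1, h2⟩ := onC_rng h
  push_cast at h1 h2
  show 0 ≤ y ∧ y ≤ 1 / 2
  constructor <;> linarith
theorem bx41 : BoxC crd (4 : Fin 8) 1 536870912 536870912 := by
  refine boxC_of (lo := 1 / 2) (hi := 1) ?_ (by norm_num) (by norm_num)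
  intro y h
  obtain ⟨h1, h2⟩ := onC_rng h
  push_cast at h1 h2
  show 1 / 2 ≤ y ∧ y ≤ 1
  constructor <;> linarith
theorem bx42 : BoxC crd (4 : Fin 8) 2 1073741824 536870912 := by
  refine boxC_of (lo := 1) (hi := 3 / 2) ?_ (by norm_num) (by norm_num)
  intro y h
  obtain ⟨h1, h2⟩ := onC_rng h
  push_cast at h1 h2
  show 1 ≤ y ∧ y ≤ 3 / 2
  constructor <;> linarith
theorem bx43 : BoxC crd (4 : Fin 8) 3 1610612736 536870912 := by
  refine boxC_of (lo := 3 / 2) (hi := 2) ?_ (by norm_num) (by norm_num)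
  intro y h
  obtain ⟨h1, h2⟩ := onC_rng h
  push_cast at h1 h2
  show 3 / 2 ≤ y ∧ y ≤ 2
  constructor <;> linarith
theorem bx50 : BoxC crd (5 : Fin 8) 0 0 536870912 := by
  refine boxC_of (lo := 0) (hi := 1 / 2) ?_ (by norm_num) (by norm_num)
  intro y h
  obtain ⟨h1, h2⟩ := onC_rng h
  push_cast at h1 h2
  show 0 ≤ y ∧ y ≤ 1 / 2
  constructor <;> linarith
theorem bx51 : BoxC crd (5 : Fin 8) 1 536870912 536870912 := by
  refine boxC_of (lo := 1 / 2) (hi := 1) ?_ (by norm_num) (by norm_num)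
  intro y h
  obtain ⟨h1, h2⟩ := onC_rng h
  push_cast at h1 h2
  show 1 / 2 ≤ y ∧ y ≤ 1
  constructor <;> linarith
theorem bx52 : BoxC crd (5 : Fin 8) 2 1073741824 536870912 := by
  refine boxC_of (lo := 1) (hi := 3 / 2) ?_ (by norm_num) (by norm_num)
  intro y h
  obtain ⟨h1, h2⟩ := onC_rng h
  push_cast at h1 h2
  show 1 ≤ y ∧ y ≤ 3 / 2
  constructor <;> linarith
theorem bx53 : BoxC crd (5 : Fin 8) 3 0 1230186008 := by
  refine boxC_of (lo := 0) (hi := 11457 / 10000) ?_ (by norm_num) (by norm_num)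
  intro y h
  obtain ⟨h1, h2⟩ := onC_rng h
  push_cast at h1 h2
  exact c3n_box (by linarith)
theorem bx60 : BoxC crd (6 : Fin 8) 0 0 536870912 := by
  refine boxC_of (lo := 0) (hi := 1 / 2) ?_ (by norm_num) (by norm_num)
  intro y h
  obtain ⟨h1, h2⟩ := onC_rng h
  push_cast at h1 h2
  show 0 ≤ y ∧ y ≤ 1 / 2
  constructor <;> linarith
theorem bx61 : BoxC crd (6 : Fin 8) 1 536870912 536870912 := by
  refine boxC_of (lo := 1 / 2) (hi := 1) ?_ (by norm_num) (by norm_num)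
  intro y h
  obtain ⟨h1, h2⟩ := onC_rng h
  push_cast at h1 h2
  show 1 / 2 ≤ y ∧ y ≤ 1
  constructor <;> linarith
theorem bx62 : BoxC crd (6 : Fin 8) 2 1073741824 536870912 := by
  refine boxC_of (lo := 1) (hi := 3 / 2) ?_ (by norm_num) (by norm_num)
  intro y h
  obtain ⟨h1, h2⟩ := onC_rng h
  push_cast at h1 h2
  show 1 ≤ y ∧ y ≤ 3 / 2
  constructor <;> linarith
theorem bx63 : BoxC crd (6 : Fin 8) 3 0 1230186008 := by
  refine boxC_of (lo := 0) (hi := 11457 / 10000) ?_ (by norm_num) (by norm_num)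
  intro y h
  obtain ⟨h1, h2⟩ := onC_rng h
  push_cast at h1 h2
  exact c3n_box (by linarith)
theorem bx70 : BoxC crd (7 : Fin 8) 0 0 536870912 := by
  refine boxC_of (lo := 0) (hi := 1 / 2) ?_ (by norm_num) (by norm_num)
  intro y h
  obtain ⟨h1, h2⟩ := onC_rng h
  push_cast at h1 h2
  show 0 ≤ y ∧ y ≤ 1 / 2
  constructor <;> linarith
theorem bx71 : BoxC crd (7 : Fin 8) 1 536870912 536870912 := by
  refine boxC_of (lo := 1 / 2) (hi := 1) ?_ (by norm_num) (by norm_num)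
  intro y h
  obtain ⟨h1, h2⟩ := onC_rng h
  push_cast at h1 h2
  show 1 / 2 ≤ y ∧ y ≤ 1
  constructor <;> linarith
theorem bx72 : BoxC crd (7 : Fin 8) 2 1073741824 536870912 := by
  refine boxC_of (lo := 1) (hi := 3 / 2) ?_ (by norm_num) (by norm_num)
  intro y h
  obtain ⟨h1, h2⟩ := onC_rng h
  push_cast at h1 h2
  show 1 ≤ y ∧ y ≤ 3 / 2
  constructor <;> linarith
theorem bx73 : BoxC crd (7 : Fin 8) 3 0 1230186008 := by
  refine boxC_of (lo := 0) (hi := 11457 / 10000) ?_ (by norm_num) (by norm_num)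
  intro y h
  obtain ⟨h1, h2⟩ := onC_rng h
  push_cast at h1 h2
  exact c3n_box (by linarith)
theorem bdK00 : ∃ t, chk3 (onCell 0 536870912 0 0 697932185 42949674 (bndR ((ndB 0 0).K))) t 1 1 1 = true := ⟨fullT 4 0, by decide +kernel⟩
theorem bdK01 : ∃ t, chk3 (onCell 536870912 536870912 0 0 697932185 42949674 (bndR ((ndB 0 1).K))) t 1 1 1 = true := ⟨fullT 4 0, by decide +kernel⟩
theorem bdK02 : ∃ t, chk3 (onCell 0 536870912 0 0 697932185 42949674 (bndR ((ndB 0 2).K))) t 1 1 1 = true := ⟨fullT 4 0, by decide +kernel⟩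
theorem bdK10 : ∃ t, chk3 (onCell 0 536870912 0 0 697932185 42949674 (bndR ((ndB 1 0).K))) t 1 1 1 = true := ⟨fullT 4 0, by decide +kernel⟩
theorem bdK11 : ∃ t, chk3 (onCell 536870912 536870912 0 0 697932185 42949674 (bndR ((ndB 1 1).K))) t 1 1 1 = true := ⟨fullT 4 0, by decide +kernel⟩
theorem bdK12 : ∃ t, chk3 (onCell 1073741824 536870912 0 0 697932185 42949674 (bndR ((ndB 1 2).K))) t 1 1 1 = true := ⟨fullT 4 0, by decide +kernel⟩
theorem bdK13 : ∃ t, chk3 (onCell 1610612736 536870912 0 0 697932185 42949674 (bndR ((ndB 1 3).K))) t 1 1 1 = true := ⟨fullT 4 0, by decide +kernel⟩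
theorem bdK20 : ∃ t, chk3 (onCell 0 536870912 0 0 697932185 42949674 (bndR ((ndB 2 0).K))) t 1 1 1 = true := ⟨fullT 4 0, by decide +kernel⟩
theorem bdK21 : ∃ t, chk3 (onCell 536870912 536870912 0 0 697932185 42949674 (bndR ((ndB 2 1).K))) t 1 1 1 = true := ⟨fullT 4 0, by decide +kernel⟩
theorem bdK22 : ∃ t, chk3 (onCell 1073741824 536870912 0 0 697932185 42949674 (bndR ((ndB 2 2).K))) t 1 1 1 = true := ⟨fullT 4 0, by decide +kernel⟩
theorem bdK23 : ∃ t, chk3 (onCell 1610612736 536870912 0 0 697932185 42949674 (bndR ((ndB 2 3).K))) t 1 1 1 = true := ⟨fullT 4 0, by decide +kernel⟩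
theorem bdK30 : ∃ t, chk3 (onCell 0 536870912 0 0 697932185 42949674 (bndR ((ndB 3 0).K))) t 1 1 1 = true := ⟨fullT 4 0, by decide +kernel⟩
theorem bdK31 : ∃ t, chk3 (onCell 536870912 536870912 0 0 697932185 42949674 (bndR ((ndB 3 1).K))) t 1 1 1 = true := ⟨fullT 4 0, by decide +kernel⟩
theorem bdK32 : ∃ t, chk3 (onCell 1073741824 536870912 0 0 697932185 42949674 (bndR ((ndB 3 2).K))) t 1 1 1 = true := ⟨fullT 4 0, by decide +kernel⟩
theorem bdK33 : ∃ t, chk3 (onCell 1610612736 536870912 0 0 697932185 42949674 (bndR ((ndB 3 3).K))) t 1 1 1 = true := ⟨fullT 4 0, by decide +kernel⟩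
theorem bdK40 : ∃ t, chk3 (onCell 0 536870912 0 0 697932185 42949674 (bndR ((ndB 4 0).K))) t 1 1 1 = true := ⟨fullT 4 0, by decide +kernel⟩
theorem bdK41 : ∃ t, chk3 (onCell 536870912 536870912 0 0 697932185 42949674 (bndR ((ndB 4 1).K))) t 1 1 1 = true := ⟨fullT 4 0, by decide +kernel⟩
theorem bdK42 : ∃ t, chk3 (onCell 1073741824 536870912 0 0 697932185 42949674 (bndR ((ndB 4 2).K))) t 1 1 1 = true := ⟨fullT 4 0, by decide +kernel⟩
theorem bdK43 : ∃ t, chk3 (onCell 1610612736 536870912 0 0 697932185 42949674 (bndR ((ndB 4 3).K))) t 1 1 1 = true := ⟨fullT 4 0, by decide +kernel⟩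
theorem bdK50 : ∃ t, chk3 (onCell 0 536870912 0 0 697932185 42949674 (bndR ((ndB 5 0).K))) t 1 1 1 = true := ⟨fullT 4 0, by decide +kernel⟩
theorem bdK51 : ∃ t, chk3 (onCell 536870912 536870912 0 0 697932185 42949674 (bndR ((ndB 5 1).K))) t 1 1 1 = true := ⟨fullT 4 0, by decide +kernel⟩
theorem bdK52 : ∃ t, chk3 (onCell 1073741824 536870912 0 0 697932185 42949674 (bndR ((ndB 5 2).K))) t 1 1 1 = true := ⟨fullT 4 0, by decide +kernel⟩
theorem bdK53 : ∃ t, chk3 (onCell 0 1230186008 0 0 697932185 42949674 (bndR ((ndB 5 3).K))) t 1 1 1 = true := ⟨fullT 4 0, by decide +kernel⟩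
theorem bdK60 : ∃ t, chk3 (onCell 0 536870912 0 0 697932185 42949674 (bndR ((ndB 6 0).K))) t 1 1 1 = true := ⟨fullT 4 0, by decide +kernel⟩
theorem bdK61 : ∃ t, chk3 (onCell 536870912 536870912 0 0 697932185 42949674 (bndR ((ndB 6 1).K))) t 1 1 1 = true := ⟨fullT 4 0, by decide +kernel⟩
theorem bdK62 : ∃ t, chk3 (onCell 1073741824 536870912 0 0 697932185 42949674 (bndR ((ndB 6 2).K))) t 1 1 1 = true := ⟨fullT 4 0, by decide +kernel⟩
theorem bdK63 : ∃ t, chk3 (onCell 0 1230186008 0 0 697932185 42949674 (bndR ((ndB 6 3).K))) t 1 1 1 = true := ⟨fullT 4 0, by decide +kernel⟩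
theorem bdK70 : ∃ t, chk3 (onCell 0 536870912 0 0 697932185 42949674 (bndR ((ndB 7 0).K))) t 1 1 1 = true := ⟨fullT 4 0, by decide +kernel⟩
theorem bdK71 : ∃ t, chk3 (onCell 536870912 536870912 0 0 697932185 42949674 (bndR ((ndB 7 1).K))) t 1 1 1 = true := ⟨fullT 4 0, by decide +kernel⟩
theorem bdK72 : ∃ t, chk3 (onCell 1073741824 536870912 0 0 697932185 42949674 (bndR ((ndB 7 2).K))) t 1 1 1 = true := ⟨fullT 4 0, by decide +kernel⟩
theorem bdK73 : ∃ t, chk3 (onCell 0 1230186008 0 0 697932185 42949674 (bndR ((ndB 7 3).K))) t 1 1 1 = true := ⟨fullT 4 0, by decide +kernel⟩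
theorem bddK {x : ℝ} (hx : ((697932185 : ℕ) : ℝ) / S ≤ x) (hx' : x ≤ (((697932185 : ℕ) : ℝ) + (42949674 : ℕ)) / S) : ∃ C, ∀ j q y, OnC j q y → |((ndB j q).K).v (crd j q y) x| ≤ C := by
  refine ⟨64, ?_⟩
  intro j q y h
  fin_cases j
  · match q, h with
    | 0, h => exact bnd_sound bdK00 (bx00 y h).1 (bx00 y h).2 hx hx'
    | 1, h => exact bnd_sound bdK01 (bx01 y h).1 (bx01 y h).2 hx hx'
    | 2, h => exact bnd_sound bdK02 (bx02 y h).1 (bx02 y h).2 hx hx'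
    | 3, h => exact absurd h.1.1 (by linarith [y_lt (h.2 rfl)])
    | _ + 4, h => exact h.1.elim
  · match q, h with
    | 0, h => exact bnd_sound bdK10 (bx10 y h).1 (bx10 y h).2 hx hx'
    | 1, h => exact bnd_sound bdK11 (bx11 y h).1 (bx11 y h).2 hx hx'
    | 2, h => exact bnd_sound bdK12 (bx12 y h).1 (bx12 y h).2 hx hx'
    | 3, h => exact bnd_sound bdK13 (bx13 y h).1 (bx13 y h).2 hx hx'
    | _ + 4, h => exact h.1.elim
  · match q, h with
    | 0, h => exact bnd_sound bdK20 (bx20 y h).1 (bx20 y h).2 hx hx'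
    | 1, h => exact bnd_sound bdK21 (bx21 y h).1 (bx21 y h).2 hx hx'
    | 2, h => exact bnd_sound bdK22 (bx22 y h).1 (bx22 y h).2 hx hx'
    | 3, h => exact bnd_sound bdK23 (bx23 y h).1 (bx23 y h).2 hx hx'
    | _ + 4, h => exact h.1.elim
  · match q, h with
    | 0, h => exact bnd_sound bdK30 (bx30 y h).1 (bx30 y h).2 hx hx'
    | 1, h => exact bnd_sound bdK31 (bx31 y h).1 (bx31 y h).2 hx hx'
    | 2, h => exact bnd_sound bdK32 (bx32 y h).1 (bx32 y h).2 hx hx'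
    | 3, h => exact bnd_sound bdK33 (bx33 y h).1 (bx33 y h).2 hx hx'
    | _ + 4, h => exact h.1.elim
  · match q, h with
    | 0, h => exact bnd_sound bdK40 (bx40 y h).1 (bx40 y h).2 hx hx'
    | 1, h => exact bnd_sound bdK41 (bx41 y h).1 (bx41 y h).2 hx hx'
    | 2, h => exact bnd_sound bdK42 (bx42 y h).1 (bx42 y h).2 hx hx'
    | 3, h => exact bnd_sound bdK43 (bx43 y h).1 (bx43 y h).2 hx hx'
    | _ + 4, h => exact h.1.elim
  · match q, h with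
    | 0, h => exact bnd_sound bdK50 (bx50 y h).1 (bx50 y h).2 hx hx'
    | 1, h => exact bnd_sound bdK51 (bx51 y h).1 (bx51 y h).2 hx hx'
    | 2, h => exact bnd_sound bdK52 (bx52 y h).1 (bx52 y h).2 hx hx'
    | 3, h => exact bnd_sound bdK53 (bx53 y h).1 (bx53 y h).2 hx hx'
    | _ + 4, h => exact h.1.elim
  · match q, h with
    | 0, h => exact bnd_sound bdK60 (bx60 y h).1 (bx60 y h).2 hx hx'
    | 1, h => exact bnd_sound bdK61 (bx61 y h).1 (bx61 y h).2 hx hx'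
    | 2, h => exact bnd_sound bdK62 (bx62 y h).1 (bx62 y h).2 hx hx'
    | 3, h => exact bnd_sound bdK63 (bx63 y h).1 (bx63 y h).2 hx hx'
    | _ + 4, h => exact h.1.elim
  · match q, h with
    | 0, h => exact bnd_sound bdK70 (bx70 y h).1 (bx70 y h).2 hx hx'
    | 1, h => exact bnd_sound bdK71 (bx71 y h).1 (bx71 y h).2 hx hx'
    | 2, h => exact bnd_sound bdK72 (bx72 y h).1 (bx72 y h).2 hx hx'
    | 3, h => exact bnd_sound bdK73 (bx73 y h).1 (bx73 y h).2 hx hx'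
    | _ + 4, h => exact h.1.elim
theorem bdL00 : ∃ t, chk3 (onCell 0 536870912 0 0 697932185 42949674 (bndR ((ndB 0 0).L))) t 1 1 1 = true := ⟨fullT 4 0, by decide +kernel⟩
theorem bdL01 : ∃ t, chk3 (onCell 536870912 536870912 0 0 697932185 42949674 (bndR ((ndB 0 1).L))) t 1 1 1 = true := ⟨fullT 4 0, by decide +kernel⟩
theorem bdL02 : ∃ t, chk3 (onCell 0 536870912 0 0 697932185 42949674 (bndR ((ndB 0 2).L))) t 1 1 1 = true := ⟨fullT 4 0, by decide +kernel⟩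
theorem bdL10 : ∃ t, chk3 (onCell 0 536870912 0 0 697932185 42949674 (bndR ((ndB 1 0).L))) t 1 1 1 = true := ⟨fullT 4 0, by decide +kernel⟩
theorem bdL11 : ∃ t, chk3 (onCell 536870912 536870912 0 0 697932185 42949674 (bndR ((ndB 1 1).L))) t 1 1 1 = true := ⟨fullT 4 0, by decide +kernel⟩
theorem bdL12 : ∃ t, chk3 (onCell 1073741824 536870912 0 0 697932185 42949674 (bndR ((ndB 1 2).L))) t 1 1 1 = true := ⟨fullT 4 0, by decide +kernel⟩
theorem bdL13 : ∃ t, chk3 (onCell 1610612736 536870912 0 0 697932185 42949674 (bndR ((ndB 1 3).L))) t 1 1 1 = true := ⟨fullT 4 0, by decide +kernel⟩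
theorem bdL20 : ∃ t, chk3 (onCell 0 536870912 0 0 697932185 42949674 (bndR ((ndB 2 0).L))) t 1 1 1 = true := ⟨fullT 4 0, by decide +kernel⟩
theorem bdL21 : ∃ t, chk3 (onCell 536870912 536870912 0 0 697932185 42949674 (bndR ((ndB 2 1).L))) t 1 1 1 = true := ⟨fullT 4 0, by decide +kernel⟩
theorem bdL22 : ∃ t, chk3 (onCell 1073741824 536870912 0 0 697932185 42949674 (bndR ((ndB 2 2).L))) t 1 1 1 = true := ⟨fullT 4 0, by decide +kernel⟩
theorem bdL23 : ∃ t, chk3 (onCell 1610612736 536870912 0 0 697932185 42949674 (bndR ((ndB 2 3).L))) t 1 1 1 = true := ⟨fullT 4 0, by decide +kernel⟩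
theorem bdL30 : ∃ t, chk3 (onCell 0 536870912 0 0 697932185 42949674 (bndR ((ndB 3 0).L))) t 1 1 1 = true := ⟨fullT 4 0, by decide +kernel⟩
theorem bdL31 : ∃ t, chk3 (onCell 536870912 536870912 0 0 697932185 42949674 (bndR ((ndB 3 1).L))) t 1 1 1 = true := ⟨fullT 4 0, by decide +kernel⟩
theorem bdL32 : ∃ t, chk3 (onCell 1073741824 536870912 0 0 697932185 42949674 (bndR ((ndB 3 2).L))) t 1 1 1 = true := ⟨fullT 4 0, by decide +kernel⟩
theorem bdL33 : ∃ t, chk3 (onCell 1610612736 536870912 0 0 697932185 42949674 (bndR ((ndB 3 3).L))) t 1 1 1 = true := ⟨fullT 4 0, by decide +kernel⟩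
theorem bdL40 : ∃ t, chk3 (onCell 0 536870912 0 0 697932185 42949674 (bndR ((ndB 4 0).L))) t 1 1 1 = true := ⟨fullT 4 0, by decide +kernel⟩
theorem bdL41 : ∃ t, chk3 (onCell 536870912 536870912 0 0 697932185 42949674 (bndR ((ndB 4 1).L))) t 1 1 1 = true := ⟨fullT 4 0, by decide +kernel⟩
theorem bdL42 : ∃ t, chk3 (onCell 1073741824 536870912 0 0 697932185 42949674 (bndR ((ndB 4 2).L))) t 1 1 1 = true := ⟨fullT 4 0, by decide +kernel⟩
theorem bdL43 : ∃ t, chk3 (onCell 1610612736 536870912 0 0 697932185 42949674 (bndR ((ndB 4 3).L))) t 1 1 1 = true := ⟨fullT 4 0, by decide +kernel⟩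
theorem bdL50 : ∃ t, chk3 (onCell 0 536870912 0 0 697932185 42949674 (bndR ((ndB 5 0).L))) t 1 1 1 = true := ⟨fullT 4 0, by decide +kernel⟩
theorem bdL51 : ∃ t, chk3 (onCell 536870912 536870912 0 0 697932185 42949674 (bndR ((ndB 5 1).L))) t 1 1 1 = true := ⟨fullT 4 0, by decide +kernel⟩
theorem bdL52 : ∃ t, chk3 (onCell 1073741824 536870912 0 0 697932185 42949674 (bndR ((ndB 5 2).L))) t 1 1 1 = true := ⟨fullT 4 0, by decide +kernel⟩
theorem bdL53 : ∃ t, chk3 (onCell 0 1230186008 0 0 697932185 42949674 (bndR ((ndB 5 3).L))) t 1 1 1 = true := ⟨fullT 4 0, by decide +kernel⟩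
theorem bdL60 : ∃ t, chk3 (onCell 0 536870912 0 0 697932185 42949674 (bndR ((ndB 6 0).L))) t 1 1 1 = true := ⟨fullT 4 0, by decide +kernel⟩
theorem bdL61 : ∃ t, chk3 (onCell 536870912 536870912 0 0 697932185 42949674 (bndR ((ndB 6 1).L))) t 1 1 1 = true := ⟨fullT 4 0, by decide +kernel⟩
theorem bdL62 : ∃ t, chk3 (onCell 1073741824 536870912 0 0 697932185 42949674 (bndR ((ndB 6 2).L))) t 1 1 1 = true := ⟨fullT 4 0, by decide +kernel⟩
theorem bdL63 : ∃ t, chk3 (onCell 0 1230186008 0 0 697932185 42949674 (bndR ((ndB 6 3).L))) t 1 1 1 = true := ⟨fullT 4 0, by decide +kernel⟩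
theorem bdL70 : ∃ t, chk3 (onCell 0 536870912 0 0 697932185 42949674 (bndR ((ndB 7 0).L))) t 1 1 1 = true := ⟨fullT 4 0, by decide +kernel⟩
theorem bdL71 : ∃ t, chk3 (onCell 536870912 536870912 0 0 697932185 42949674 (bndR ((ndB 7 1).L))) t 1 1 1 = true := ⟨fullT 4 0, by decide +kernel⟩
theorem bdL72 : ∃ t, chk3 (onCell 1073741824 536870912 0 0 697932185 42949674 (bndR ((ndB 7 2).L))) t 1 1 1 = true := ⟨fullT 4 0, by decide +kernel⟩
theorem bdL73 : ∃ t, chk3 (onCell 0 1230186008 0 0 697932185 42949674 (bndR ((ndB 7 3).L))) t 1 1 1 = true := ⟨fullT 4 0, by decide +kernel⟩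
theorem bddL {x : ℝ} (hx : ((697932185 : ℕ) : ℝ) / S ≤ x) (hx' : x ≤ (((697932185 : ℕ) : ℝ) + (42949674 : ℕ)) / S) : ∃ C, ∀ j q y, OnC j q y → |((ndB j q).L).v (crd j q y) x| ≤ C := by
  refine ⟨64, ?_⟩
  intro j q y h
  fin_cases j
  · match q, h with
    | 0, h => exact bnd_sound bdL00 (bx00 y h).1 (bx00 y h).2 hx hx'
    | 1, h => exact bnd_sound bdL01 (bx01 y h).1 (bx01 y h).2 hx hx'
    | 2, h => exact bnd_sound bdL02 (bx02 y h).1 (bx02 y h).2 hx hx'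
    | 3, h => exact absurd h.1.1 (by linarith [y_lt (h.2 rfl)])
    | _ + 4, h => exact h.1.elim
  · match q, h with
    | 0, h => exact bnd_sound bdL10 (bx10 y h).1 (bx10 y h).2 hx hx'
    | 1, h => exact bnd_sound bdL11 (bx11 y h).1 (bx11 y h).2 hx hx'
    | 2, h => exact bnd_sound bdL12 (bx12 y h).1 (bx12 y h).2 hx hx'
    | 3, h => exact bnd_sound bdL13 (bx13 y h).1 (bx13 y h).2 hx hx'
    | _ + 4, h => exact h.1.elim
  · match q, h with
    | 0, h => exact bnd_sound bdL20 (bx20 y h).1 (bx20 y h).2 hx hx'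
    | 1, h => exact bnd_sound bdL21 (bx21 y h).1 (bx21 y h).2 hx hx'
    | 2, h => exact bnd_sound bdL22 (bx22 y h).1 (bx22 y h).2 hx hx'
    | 3, h => exact bnd_sound bdL23 (bx23 y h).1 (bx23 y h).2 hx hx'
    | _ + 4, h => exact h.1.elim
  · match q, h with
    | 0, h => exact bnd_sound bdL30 (bx30 y h).1 (bx30 y h).2 hx hx'
    | 1, h => exact bnd_sound bdL31 (bx31 y h).1 (bx31 y h).2 hx hx'
    | 2, h => exact bnd_sound bdL32 (bx32 y h).1 (bx32 y h).2 hx hx'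
    | 3, h => exact bnd_sound bdL33 (bx33 y h).1 (bx33 y h).2 hx hx'
    | _ + 4, h => exact h.1.elim
  · match q, h with
    | 0, h => exact bnd_sound bdL40 (bx40 y h).1 (bx40 y h).2 hx hx'
    | 1, h => exact bnd_sound bdL41 (bx41 y h).1 (bx41 y h).2 hx hx'
    | 2, h => exact bnd_sound bdL42 (bx42 y h).1 (bx42 y h).2 hx hx'
    | 3, h => exact bnd_sound bdL43 (bx43 y h).1 (bx43 y h).2 hx hx'
    | _ + 4, h => exact h.1.elim
  · match q, h with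
    | 0, h => exact bnd_sound bdL50 (bx50 y h).1 (bx50 y h).2 hx hx'
    | 1, h => exact bnd_sound bdL51 (bx51 y h).1 (bx51 y h).2 hx hx'
    | 2, h => exact bnd_sound bdL52 (bx52 y h).1 (bx52 y h).2 hx hx'
    | 3, h => exact bnd_sound bdL53 (bx53 y h).1 (bx53 y h).2 hx hx'
    | _ + 4, h => exact h.1.elim
  · match q, h with
    | 0, h => exact bnd_sound bdL60 (bx60 y h).1 (bx60 y h).2 hx hx'
    | 1, h => exact bnd_sound bdL61 (bx61 y h).1 (bx61 y h).2 hx hx'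
    | 2, h => exact bnd_sound bdL62 (bx62 y h).1 (bx62 y h).2 hx hx'
    | 3, h => exact bnd_sound bdL63 (bx63 y h).1 (bx63 y h).2 hx hx'
    | _ + 4, h => exact h.1.elim
  · match q, h with
    | 0, h => exact bnd_sound bdL70 (bx70 y h).1 (bx70 y h).2 hx hx'
    | 1, h => exact bnd_sound bdL71 (bx71 y h).1 (bx71 y h).2 hx hx'
    | 2, h => exact bnd_sound bdL72 (bx72 y h).1 (bx72 y h).2 hx hx'
    | 3, h => exact bnd_sound bdL73 (bx73 y h).1 (bx73 y h).2 hx hx'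
    | _ + 4, h => exact h.1.elim
theorem bdU00 : ∃ t, chk3 (onCell 0 536870912 0 0 697932185 42949674 (bndR ((nc 0 0)))) t 1 1 1 = true := ⟨fullT 4 0, by decide +kernel⟩
theorem bdU01 : ∃ t, chk3 (onCell 536870912 536870912 0 0 697932185 42949674 (bndR ((nc 0 1)))) t 1 1 1 = true := ⟨fullT 4 0, by decide +kernel⟩
theorem bdU02 : ∃ t, chk3 (onCell 0 536870912 0 0 697932185 42949674 (bndR ((nc 0 2)))) t 1 1 1 = true := ⟨fullT 4 0, by decide +kernel⟩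
theorem bdU10 : ∃ t, chk3 (onCell 0 536870912 0 0 697932185 42949674 (bndR ((nc 1 0)))) t 1 1 1 = true := ⟨fullT 4 0, by decide +kernel⟩
theorem bdU11 : ∃ t, chk3 (onCell 536870912 536870912 0 0 697932185 42949674 (bndR ((nc 1 1)))) t 1 1 1 = true := ⟨fullT 4 0, by decide +kernel⟩
theorem bdU12 : ∃ t, chk3 (onCell 1073741824 536870912 0 0 697932185 42949674 (bndR ((nc 1 2)))) t 1 1 1 = true := ⟨fullT 4 0, by decide +kernel⟩
theorem bdU13 : ∃ t, chk3 (onCell 1610612736 536870912 0 0 697932185 42949674 (bndR ((nc 1 3)))) t 1 1 1 = true := ⟨fullT 4 0, by decide +kernel⟩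
theorem bdU20 : ∃ t, chk3 (onCell 0 536870912 0 0 697932185 42949674 (bndR ((nc 2 0)))) t 1 1 1 = true := ⟨fullT 4 0, by decide +kernel⟩
theorem bdU21 : ∃ t, chk3 (onCell 536870912 536870912 0 0 697932185 42949674 (bndR ((nc 2 1)))) t 1 1 1 = true := ⟨fullT 4 0, by decide +kernel⟩
theorem bdU22 : ∃ t, chk3 (onCell 1073741824 536870912 0 0 697932185 42949674 (bndR ((nc 2 2)))) t 1 1 1 = true := ⟨fullT 4 0, by decide +kernel⟩
theorem bdU23 : ∃ t, chk3 (onCell 1610612736 536870912 0 0 697932185 42949674 (bndR ((nc 2 3)))) t 1 1 1 = true := ⟨fullT 4 0, by decide +kernel⟩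
theorem bdU30 : ∃ t, chk3 (onCell 0 536870912 0 0 697932185 42949674 (bndR ((nc 3 0)))) t 1 1 1 = true := ⟨fullT 4 0, by decide +kernel⟩
theorem bdU31 : ∃ t, chk3 (onCell 536870912 536870912 0 0 697932185 42949674 (bndR ((nc 3 1)))) t 1 1 1 = true := ⟨fullT 4 0, by decide +kernel⟩
theorem bdU32 : ∃ t, chk3 (onCell 1073741824 536870912 0 0 697932185 42949674 (bndR ((nc 3 2)))) t 1 1 1 = true := ⟨fullT 4 0, by decide +kernel⟩
theorem bdU33 : ∃ t, chk3 (onCell 1610612736 536870912 0 0 697932185 42949674 (bndR ((nc 3 3)))) t 1 1 1 = true := ⟨fullT 4 0, by decide +kernel⟩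
theorem bdU40 : ∃ t, chk3 (onCell 0 536870912 0 0 697932185 42949674 (bndR ((nc 4 0)))) t 1 1 1 = true := ⟨fullT 4 0, by decide +kernel⟩
theorem bdU41 : ∃ t, chk3 (onCell 536870912 536870912 0 0 697932185 42949674 (bndR ((nc 4 1)))) t 1 1 1 = true := ⟨fullT 4 0, by decide +kernel⟩
theorem bdU42 : ∃ t, chk3 (onCell 1073741824 536870912 0 0 697932185 42949674 (bndR ((nc 4 2)))) t 1 1 1 = true := ⟨fullT 4 0, by decide +kernel⟩
theorem bdU43 : ∃ t, chk3 (onCell 1610612736 536870912 0 0 697932185 42949674 (bndR ((nc 4 3)))) t 1 1 1 = true := ⟨fullT 4 0, by decide +kernel⟩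
theorem bdU50 : ∃ t, chk3 (onCell 0 536870912 0 0 697932185 42949674 (bndR ((nc 5 0)))) t 1 1 1 = true := ⟨fullT 4 0, by decide +kernel⟩
theorem bdU51 : ∃ t, chk3 (onCell 536870912 536870912 0 0 697932185 42949674 (bndR ((nc 5 1)))) t 1 1 1 = true := ⟨fullT 4 0, by decide +kernel⟩
theorem bdU52 : ∃ t, chk3 (onCell 1073741824 536870912 0 0 697932185 42949674 (bndR ((nc 5 2)))) t 1 1 1 = true := ⟨fullT 4 0, by decide +kernel⟩
theorem bdU53 : ∃ t, chk3 (onCell 0 1230186008 0 0 697932185 42949674 (bndR ((nc 5 3)))) t 1 1 1 = true := ⟨fullT 4 0, by decide +kernel⟩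
theorem bdU60 : ∃ t, chk3 (onCell 0 536870912 0 0 697932185 42949674 (bndR ((nc 6 0)))) t 1 1 1 = true := ⟨fullT 4 0, by decide +kernel⟩
theorem bdU61 : ∃ t, chk3 (onCell 536870912 536870912 0 0 697932185 42949674 (bndR ((nc 6 1)))) t 1 1 1 = true := ⟨fullT 4 0, by decide +kernel⟩
theorem bdU62 : ∃ t, chk3 (onCell 1073741824 536870912 0 0 697932185 42949674 (bndR ((nc 6 2)))) t 1 1 1 = true := ⟨fullT 4 0, by decide +kernel⟩
theorem bdU63 : ∃ t, chk3 (onCell 0 1230186008 0 0 697932185 42949674 (bndR ((nc 6 3)))) t 1 1 1 = true := ⟨fullT 4 0, by decide +kernel⟩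
theorem bdU70 : ∃ t, chk3 (onCell 0 536870912 0 0 697932185 42949674 (bndR ((nc 7 0)))) t 1 1 1 = true := ⟨fullT 4 0, by decide +kernel⟩
theorem bdU71 : ∃ t, chk3 (onCell 536870912 536870912 0 0 697932185 42949674 (bndR ((nc 7 1)))) t 1 1 1 = true := ⟨fullT 4 0, by decide +kernel⟩
theorem bdU72 : ∃ t, chk3 (onCell 1073741824 536870912 0 0 697932185 42949674 (bndR ((nc 7 2)))) t 1 1 1 = true := ⟨fullT 4 0, by decide +kernel⟩
theorem bdU73 : ∃ t, chk3 (onCell 0 1230186008 0 0 697932185 42949674 (bndR ((nc 7 3)))) t 1 1 1 = true := ⟨fullT 4 0, by decide +kernel⟩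
theorem bddU {x : ℝ} (hx : ((697932185 : ℕ) : ℝ) / S ≤ x) (hx' : x ≤ (((697932185 : ℕ) : ℝ) + (42949674 : ℕ)) / S) : ∃ C, ∀ j q y, OnC j q y → |((nc j q)).v (crd j q y) x| ≤ C := by
  refine ⟨64, ?_⟩
  intro j q y h
  fin_cases j
  · match q, h with
    | 0, h => exact bnd_sound bdU00 (bx00 y h).1 (bx00 y h).2 hx hx'
    | 1, h => exact bnd_sound bdU01 (bx01 y h).1 (bx01 y h).2 hx hx'
    | 2, h => exact bnd_sound bdU02 (bx02 y h).1 (bx02 y h).2 hx hx'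
    | 3, h => exact absurd h.1.1 (by linarith [y_lt (h.2 rfl)])
    | _ + 4, h => exact h.1.elim
  · match q, h with
    | 0, h => exact bnd_sound bdU10 (bx10 y h).1 (bx10 y h).2 hx hx'
    | 1, h => exact bnd_sound bdU11 (bx11 y h).1 (bx11 y h).2 hx hx'
    | 2, h => exact bnd_sound bdU12 (bx12 y h).1 (bx12 y h).2 hx hx'
    | 3, h => exact bnd_sound bdU13 (bx13 y h).1 (bx13 y h).2 hx hx'
    | _ + 4, h => exact h.1.elim
  · match q, h with
    | 0, h => exact bnd_sound bdU20 (bx20 y h).1 (bx20 y h).2 hx hx'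
    | 1, h => exact bnd_sound bdU21 (bx21 y h).1 (bx21 y h).2 hx hx'
    | 2, h => exact bnd_sound bdU22 (bx22 y h).1 (bx22 y h).2 hx hx'
    | 3, h => exact bnd_sound bdU23 (bx23 y h).1 (bx23 y h).2 hx hx'
    | _ + 4, h => exact h.1.elim
  · match q, h with
    | 0, h => exact bnd_sound bdU30 (bx30 y h).1 (bx30 y h).2 hx hx'
    | 1, h => exact bnd_sound bdU31 (bx31 y h).1 (bx31 y h).2 hx hx'
    | 2, h => exact bnd_sound bdU32 (bx32 y h).1 (bx32 y h).2 hx hx'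
    | 3, h => exact bnd_sound bdU33 (bx33 y h).1 (bx33 y h).2 hx hx'
    | _ + 4, h => exact h.1.elim
  · match q, h with
    | 0, h => exact bnd_sound bdU40 (bx40 y h).1 (bx40 y h).2 hx hx'
    | 1, h => exact bnd_sound bdU41 (bx41 y h).1 (bx41 y h).2 hx hx'
    | 2, h => exact bnd_sound bdU42 (bx42 y h).1 (bx42 y h).2 hx hx'
    | 3, h => exact bnd_sound bdU43 (bx43 y h).1 (bx43 y h).2 hx hx'
    | _ + 4, h => exact h.1.elim
  · match q, h with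
    | 0, h => exact bnd_sound bdU50 (bx50 y h).1 (bx50 y h).2 hx hx'
    | 1, h => exact bnd_sound bdU51 (bx51 y h).1 (bx51 y h).2 hx hx'
    | 2, h => exact bnd_sound bdU52 (bx52 y h).1 (bx52 y h).2 hx hx'
    | 3, h => exact bnd_sound bdU53 (bx53 y h).1 (bx53 y h).2 hx hx'
    | _ + 4, h => exact h.1.elim
  · match q, h with
    | 0, h => exact bnd_sound bdU60 (bx60 y h).1 (bx60 y h).2 hx hx'
    | 1, h => exact bnd_sound bdU61 (bx61 y h).1 (bx61 y h).2 hx hx'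
    | 2, h => exact bnd_sound bdU62 (bx62 y h).1 (bx62 y h).2 hx hx'
    | 3, h => exact bnd_sound bdU63 (bx63 y h).1 (bx63 y h).2 hx hx'
    | _ + 4, h => exact h.1.elim
  · match q, h with
    | 0, h => exact bnd_sound bdU70 (bx70 y h).1 (bx70 y h).2 hx hx'
    | 1, h => exact bnd_sound bdU71 (bx71 y h).1 (bx71 y h).2 hx hx'
    | 2, h => exact bnd_sound bdU72 (bx72 y h).1 (bx72 y h).2 hx hx'
    | 3, h => exact bnd_sound bdU73 (bx73 y h).1 (bx73 y h).2 hx hx'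
    | _ + 4, h => exact h.1.elim
theorem pinK {x : ℝ} (hx : ((697932185 : ℕ) : ℝ) / S ≤ x) (hx' : x ≤ (((697932185 : ℕ) : ℝ) + (42949674 : ℕ)) / S) : Pins PP tK x :=
  pins_of (fn := fun j q => (ndB j q).K) (pzeroK x) (pmidK x) (ptopK x) (bddK hx hx')
theorem thK {x : ℝ} (h : Pins PP tK x) : ∀ q X y, InQ q y → 1 ≤ qqn X y → qqn X y ≤ 3 →
    thd PP tK q X y x = (pcB q).K.v X y x
  | 0 => thK0 h
  | 1 => thK1 h
  | 2 => thK2 h
  | 3 => thK3 h
  | _ + 4 => fun _ _ h => h.elim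
theorem pinL {x : ℝ} (hx : ((697932185 : ℕ) : ℝ) / S ≤ x) (hx' : x ≤ (((697932185 : ℕ) : ℝ) + (42949674 : ℕ)) / S) : Pins PP tL x :=
  pins_of (fn := fun j q => (ndB j q).L) (pzeroL x) (pmidL x) (ptopL x) (bddL hx hx')
theorem thL {x : ℝ} (h : Pins PP tL x) : ∀ q X y, InQ q y → 1 ≤ qqn X y → qqn X y ≤ 3 →
    thd PP tL q X y x = (pcB q).L.v X y x
  | 0 => thL0 h
  | 1 => thL1 h
  | 2 => thL2 h
  | 3 => thL3 h
  | _ + 4 => fun _ _ h => h.elim
theorem pinU {x : ℝ} (hx : ((697932185 : ℕ) : ℝ) / S ≤ x) (hx' : x ≤ (((697932185 : ℕ) : ℝ) + (42949674 : ℕ)) / S) : Pins PP tU x :=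
  pins_of (fn := nc) (pzeroU x) (pmidU x) (ptopU x) (bddU hx hx')
theorem thU {x : ℝ} (h : Pins PP tU x) : ∀ q X y, InQ q y → 1 ≤ qqn X y → qqn X y ≤ 3 →
    thd PP tU q X y x = (pd q).v X y x
  | 0 => thU0 h
  | 1 => thU1 h
  | 2 => thU2 h
  | 3 => thU3 h
  | _ + 4 => fun _ _ h => h.elim
theorem sideB {x : ℝ} (hx : ((697932185 : ℕ) : ℝ) / S ≤ x) (hx' : x ≤ (((697932185 : ℕ) : ℝ) + (42949674 : ℕ)) / S) : SideOk PP tK tL pcB x :=
  ⟨pinK hx hx', pinL hx hx', thK (pinK hx hx'), thL (pinL hx hx')⟩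
theorem thrB {x : ℝ} (hx : ((697932185 : ℕ) : ℝ) / S ≤ x) (hx' : x ≤ (((697932185 : ℕ) : ℝ) + (42949674 : ℕ)) / S) : ThrOk PP tC (scP esg pd) x :=
  ThrOk.sc ⟨pinU hx hx', thU (pinU hx hx')⟩
theorem atB00 {y x : ℝ} (h : OnC (0 : Fin 8) 0 y) : AtC PP tK tL tC ndB0q0 (Fn2.sc esg cd0q0) 0 0 y (y) x :=
  (atC_main (fC := nc) (nBY0 0) (nBX0 0) rfl rfl rfl h).sc
theorem covB00 {x : ℝ} : CovC PP tK tL tC ndB0q0 (Fn2.sc esg cd0q0) 0 0 0 536870912 (fun _ => True) x :=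
  (covC_main (fC := nc) (nBY0 0) (nBX0 0) rfl rfl rfl bx00).sc
theorem atB01 {y x : ℝ} (h : OnC (0 : Fin 8) 1 y) : AtC PP tK tL tC ndB0q1 (Fn2.sc esg cd0q1) 0 1 y (y) x :=
  (atC_main (fC := nc) (nBY0 1) (nBX0 1) rfl rfl rfl h).sc
theorem covB01 {x : ℝ} : CovC PP tK tL tC ndB0q1 (Fn2.sc esg cd0q1) 0 1 536870912 536870912 (fun _ => True) x :=
  (covC_main (fC := nc) (nBY0 1) (nBX0 1) rfl rfl rfl bx01).sc
theorem atB02 {y x : ℝ} (h : OnC (0 : Fin 8) 2 y) : AtC PP tK tL tC ndB0q2 (Fn2.sc esg cd0q2) 0 2 y (c1n y) x :=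
  (atC_main (fC := nc) (nBY0 2) (nBX0 2) rfl rfl rfl h).sc
theorem covB02 {x : ℝ} : CovC PP tK tL tC ndB0q2 (Fn2.sc esg cd0q2) 0 2 0 536870912 (fun _ => True) x :=
  (covC_main (fC := nc) (nBY0 2) (nBX0 2) rfl rfl rfl bx02).sc
theorem atB10 {y x : ℝ} (h : OnC (1 : Fin 8) 0 y) : AtC PP tK tL tC ndB1q0 (Fn2.sc esg cd1q0) 1 0 y (y) x :=
  (atC_main (fC := nc) (nBY1 0) (nBX1 0) rfl rfl rfl h).sc
theorem covB10 {x : ℝ} : CovC PP tK tL tC ndB1q0 (Fn2.sc esg cd1q0) 1 0 0 536870912 (fun _ => True) x :=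
  (covC_main (fC := nc) (nBY1 0) (nBX1 0) rfl rfl rfl bx10).sc
theorem atB11 {y x : ℝ} (h : OnC (1 : Fin 8) 1 y) : AtC PP tK tL tC ndB1q1 (Fn2.sc esg cd1q1) 1 1 y (y) x :=
  (atC_main (fC := nc) (nBY1 1) (nBX1 1) rfl rfl rfl h).sc
theorem covB11 {x : ℝ} : CovC PP tK tL tC ndB1q1 (Fn2.sc esg cd1q1) 1 1 536870912 536870912 (fun _ => True) x :=
  (covC_main (fC := nc) (nBY1 1) (nBX1 1) rfl rfl rfl bx11).sc
theorem atB12 {y x : ℝ} (h : OnC (1 : Fin 8) 2 y) : AtC PP tK tL tC ndB1q2 (Fn2.sc esg cd1q2) 1 2 y (y) x :=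
  (atC_main (fC := nc) (nBY1 2) (nBX1 2) rfl rfl rfl h).sc
theorem covB12 {x : ℝ} : CovC PP tK tL tC ndB1q2 (Fn2.sc esg cd1q2) 1 2 1073741824 536870912 (fun _ => True) x :=
  (covC_main (fC := nc) (nBY1 2) (nBX1 2) rfl rfl rfl bx12).sc
theorem atB13 {y x : ℝ} (h : OnC (1 : Fin 8) 3 y) : AtC PP tK tL tC ndB1q3 (Fn2.sc esg cd1q3) 1 3 y (y) x :=
  (atC_main (fC := nc) (nBY1 3) (nBX1 3) rfl rfl rfl h).sc
theorem covB13 {x : ℝ} : CovC PP tK tL tC ndB1q3 (Fn2.sc esg cd1q3) 1 3 1610612736 536870912 (fun _ => True) x :=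
  (covC_main (fC := nc) (nBY1 3) (nBX1 3) rfl rfl rfl bx13).sc
theorem atB20 {y x : ℝ} (h : OnC (2 : Fin 8) 0 y) : AtC PP tK tL tC ndB2q0 (Fn2.sc esg cd2q0) 2 0 y (y) x :=
  (atC_main (fC := nc) (nBY2 0) (nBX2 0) rfl rfl rfl h).sc
theorem covB20 {x : ℝ} : CovC PP tK tL tC ndB2q0 (Fn2.sc esg cd2q0) 2 0 0 536870912 (fun _ => True) x :=
  (covC_main (fC := nc) (nBY2 0) (nBX2 0) rfl rfl rfl bx20).sc
theorem atB21 {y x : ℝ} (h : OnC (2 : Fin 8) 1 y) : AtC PP tK tL tC ndB2q1 (Fn2.sc esg cd2q1) 2 1 y (y) x :=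
  (atC_main (fC := nc) (nBY2 1) (nBX2 1) rfl rfl rfl h).sc
theorem covB21 {x : ℝ} : CovC PP tK tL tC ndB2q1 (Fn2.sc esg cd2q1) 2 1 536870912 536870912 (fun _ => True) x :=
  (covC_main (fC := nc) (nBY2 1) (nBX2 1) rfl rfl rfl bx21).sc
theorem atB22 {y x : ℝ} (h : OnC (2 : Fin 8) 2 y) : AtC PP tK tL tC ndB2q2 (Fn2.sc esg cd2q2) 2 2 y (y) x :=
  (atC_main (fC := nc) (nBY2 2) (nBX2 2) rfl rfl rfl h).sc
theorem covB22 {x : ℝ} : CovC PP tK tL tC ndB2q2 (Fn2.sc esg cd2q2) 2 2 1073741824 536870912 (fun _ => True) x :=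
  (covC_main (fC := nc) (nBY2 2) (nBX2 2) rfl rfl rfl bx22).sc
theorem atB23 {y x : ℝ} (h : OnC (2 : Fin 8) 3 y) : AtC PP tK tL tC ndB2q3 (Fn2.sc esg cd2q3) 2 3 y (y) x :=
  (atC_main (fC := nc) (nBY2 3) (nBX2 3) rfl rfl rfl h).sc
theorem covB23 {x : ℝ} : CovC PP tK tL tC ndB2q3 (Fn2.sc esg cd2q3) 2 3 1610612736 536870912 (fun _ => True) x :=
  (covC_main (fC := nc) (nBY2 3) (nBX2 3) rfl rfl rfl bx23).sc
theorem atB30 {y x : ℝ} (h : OnC (3 : Fin 8) 0 y) : AtC PP tK tL tC ndB3q0 (Fn2.sc esg cd3q0) 3 0 y (y) x :=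
  (atC_main (fC := nc) (nBY3 0) (nBX3 0) rfl rfl rfl h).sc
theorem covB30 {x : ℝ} : CovC PP tK tL tC ndB3q0 (Fn2.sc esg cd3q0) 3 0 0 536870912 (fun _ => True) x :=
  (covC_main (fC := nc) (nBY3 0) (nBX3 0) rfl rfl rfl bx30).sc
theorem atB31 {y x : ℝ} (h : OnC (3 : Fin 8) 1 y) : AtC PP tK tL tC ndB3q1 (Fn2.sc esg cd3q1) 3 1 y (y) x :=
  (atC_main (fC := nc) (nBY3 1) (nBX3 1) rfl rfl rfl h).sc
theorem covB31 {x : ℝ} : CovC PP tK tL tC ndB3q1 (Fn2.sc esg cd3q1) 3 1 536870912 536870912 (fun _ => True) x :=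
  (covC_main (fC := nc) (nBY3 1) (nBX3 1) rfl rfl rfl bx31).sc
theorem atB32 {y x : ℝ} (h : OnC (3 : Fin 8) 2 y) : AtC PP tK tL tC ndB3q2 (Fn2.sc esg cd3q2) 3 2 y (y) x :=
  (atC_main (fC := nc) (nBY3 2) (nBX3 2) rfl rfl rfl h).sc
theorem covB32 {x : ℝ} : CovC PP tK tL tC ndB3q2 (Fn2.sc esg cd3q2) 3 2 1073741824 536870912 (fun _ => True) x :=
  (covC_main (fC := nc) (nBY3 2) (nBX3 2) rfl rfl rfl bx32).sc
theorem atB33 {y x : ℝ} (h : OnC (3 : Fin 8) 3 y) : AtC PP tK tL tC ndB3q3 (Fn2.sc esg cd3q3) 3 3 y (y) x :=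
  (atC_main (fC := nc) (nBY3 3) (nBX3 3) rfl rfl rfl h).sc
theorem covB33 {x : ℝ} : CovC PP tK tL tC ndB3q3 (Fn2.sc esg cd3q3) 3 3 1610612736 536870912 (fun _ => True) x :=
  (covC_main (fC := nc) (nBY3 3) (nBX3 3) rfl rfl rfl bx33).sc
theorem atB40 {y x : ℝ} (h : OnC (4 : Fin 8) 0 y) : AtC PP tK tL tC ndB4q0 (Fn2.sc esg cd4q0) 4 0 y (y) x :=
  (atC_main (fC := nc) (nBY4 0) (nBX4 0) rfl rfl rfl h).sc
theorem covB40 {x : ℝ} : CovC PP tK tL tC ndB4q0 (Fn2.sc esg cd4q0) 4 0 0 536870912 (fun _ => True) x :=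
  (covC_main (fC := nc) (nBY4 0) (nBX4 0) rfl rfl rfl bx40).sc
theorem atB41 {y x : ℝ} (h : OnC (4 : Fin 8) 1 y) : AtC PP tK tL tC ndB4q1 (Fn2.sc esg cd4q1) 4 1 y (y) x :=
  (atC_main (fC := nc) (nBY4 1) (nBX4 1) rfl rfl rfl h).sc
theorem covB41 {x : ℝ} : CovC PP tK tL tC ndB4q1 (Fn2.sc esg cd4q1) 4 1 536870912 536870912 (fun _ => True) x :=
  (covC_main (fC := nc) (nBY4 1) (nBX4 1) rfl rfl rfl bx41).sc
theorem atB42 {y x : ℝ} (h : OnC (4 : Fin 8) 2 y) : AtC PP tK tL tC ndB4q2 (Fn2.sc esg cd4q2) 4 2 y (y) x :=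
  (atC_main (fC := nc) (nBY4 2) (nBX4 2) rfl rfl rfl h).sc
theorem covB42 {x : ℝ} : CovC PP tK tL tC ndB4q2 (Fn2.sc esg cd4q2) 4 2 1073741824 536870912 (fun _ => True) x :=
  (covC_main (fC := nc) (nBY4 2) (nBX4 2) rfl rfl rfl bx42).sc
theorem atB43 {y x : ℝ} (h : OnC (4 : Fin 8) 3 y) : AtC PP tK tL tC ndB4q3 (Fn2.sc esg cd4q3) 4 3 y (y) x :=
  (atC_main (fC := nc) (nBY4 3) (nBX4 3) rfl rfl rfl h).sc
theorem covB43 {x : ℝ} : CovC PP tK tL tC ndB4q3 (Fn2.sc esg cd4q3) 4 3 1610612736 536870912 (fun _ => True) x :=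
  (covC_main (fC := nc) (nBY4 3) (nBX4 3) rfl rfl rfl bx43).sc
theorem atB50 {y x : ℝ} (h : OnC (5 : Fin 8) 0 y) : AtC PP tK tL tC ndB5q0 (Fn2.sc esg cd5q0) 5 0 y (y) x :=
  (atC_main (fC := nc) (nBY5 0) (nBX5 0) rfl rfl rfl h).sc
theorem covB50 {x : ℝ} : CovC PP tK tL tC ndB5q0 (Fn2.sc esg cd5q0) 5 0 0 536870912 (fun _ => True) x :=
  (covC_main (fC := nc) (nBY5 0) (nBX5 0) rfl rfl rfl bx50).sc
theorem atB51 {y x : ℝ} (h : OnC (5 : Fin 8) 1 y) : AtC PP tK tL tC ndB5q1 (Fn2.sc esg cd5q1) 5 1 y (y) x :=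
  (atC_main (fC := nc) (nBY5 1) (nBX5 1) rfl rfl rfl h).sc
theorem covB51 {x : ℝ} : CovC PP tK tL tC ndB5q1 (Fn2.sc esg cd5q1) 5 1 536870912 536870912 (fun _ => True) x :=
  (covC_main (fC := nc) (nBY5 1) (nBX5 1) rfl rfl rfl bx51).sc
theorem atB52 {y x : ℝ} (h : OnC (5 : Fin 8) 2 y) : AtC PP tK tL tC ndB5q2 (Fn2.sc esg cd5q2) 5 2 y (y) x :=
  (atC_main (fC := nc) (nBY5 2) (nBX5 2) rfl rfl rfl h).sc
theorem covB52 {x : ℝ} : CovC PP tK tL tC ndB5q2 (Fn2.sc esg cd5q2) 5 2 1073741824 536870912 (fun _ => True) x :=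
  (covC_main (fC := nc) (nBY5 2) (nBX5 2) rfl rfl rfl bx52).sc
theorem atB53 {y x : ℝ} (h : OnC (5 : Fin 8) 3 y) : AtC PP tK tL tC ndB5q3 (Fn2.sc esg cd5q3) 5 3 y (c3n y) x :=
  (atC_main (fC := nc) (nBY5 3) (nBX5 3) rfl rfl rfl h).sc
theorem covB53 {x : ℝ} : CovC PP tK tL tC ndB5q3 (Fn2.sc esg cd5q3) 5 3 0 1230186008 (fun _ => True) x :=
  (covC_main (fC := nc) (nBY5 3) (nBX5 3) rfl rfl rfl bx53).sc
theorem atB60 {y x : ℝ} (h : OnC (6 : Fin 8) 0 y) : AtC PP tK tL tC ndB6q0 (Fn2.sc esg cd6q0) 6 0 y (y) x :=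
  (atC_main (fC := nc) (nBY6 0) (nBX6 0) rfl rfl rfl h).sc
theorem covB60 {x : ℝ} : CovC PP tK tL tC ndB6q0 (Fn2.sc esg cd6q0) 6 0 0 536870912 (fun _ => True) x :=
  (covC_main (fC := nc) (nBY6 0) (nBX6 0) rfl rfl rfl bx60).sc
theorem atB61 {y x : ℝ} (h : OnC (6 : Fin 8) 1 y) : AtC PP tK tL tC ndB6q1 (Fn2.sc esg cd6q1) 6 1 y (y) x :=
  (atC_main (fC := nc) (nBY6 1) (nBX6 1) rfl rfl rfl h).sc
theorem covB61 {x : ℝ} : CovC PP tK tL tC ndB6q1 (Fn2.sc esg cd6q1) 6 1 536870912 536870912 (fun _ => True) x :=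
  (covC_main (fC := nc) (nBY6 1) (nBX6 1) rfl rfl rfl bx61).sc
theorem atB62 {y x : ℝ} (h : OnC (6 : Fin 8) 2 y) : AtC PP tK tL tC ndB6q2 (Fn2.sc esg cd6q2) 6 2 y (y) x :=
  (atC_main (fC := nc) (nBY6 2) (nBX6 2) rfl rfl rfl h).sc
theorem covB62 {x : ℝ} : CovC PP tK tL tC ndB6q2 (Fn2.sc esg cd6q2) 6 2 1073741824 536870912 (fun _ => True) x :=
  (covC_main (fC := nc) (nBY6 2) (nBX6 2) rfl rfl rfl bx62).sc
theorem atB63 {y x : ℝ} (h : OnC (6 : Fin 8) 3 y) : AtC PP tK tL tC ndB6q3 (Fn2.sc esg cd6q3) 6 3 y (c3n y) x :=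
  (atC_main (fC := nc) (nBY6 3) (nBX6 3) rfl rfl rfl h).sc
theorem covB63 {x : ℝ} : CovC PP tK tL tC ndB6q3 (Fn2.sc esg cd6q3) 6 3 0 1230186008 (fun _ => True) x :=
  (covC_main (fC := nc) (nBY6 3) (nBX6 3) rfl rfl rfl bx63).sc
theorem atB70 {y x : ℝ} (h : OnC (7 : Fin 8) 0 y) : AtC PP tK tL tC ndB7q0 (Fn2.sc esg cd7q0) 7 0 y (y) x :=
  (atC_main (fC := nc) (nBY7 0) (nBX7 0) rfl rfl rfl h).sc
theorem covB70 {x : ℝ} : CovC PP tK tL tC ndB7q0 (Fn2.sc esg cd7q0) 7 0 0 536870912 (fun _ => True) x :=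
  (covC_main (fC := nc) (nBY7 0) (nBX7 0) rfl rfl rfl bx70).sc
theorem atB71 {y x : ℝ} (h : OnC (7 : Fin 8) 1 y) : AtC PP tK tL tC ndB7q1 (Fn2.sc esg cd7q1) 7 1 y (y) x :=
  (atC_main (fC := nc) (nBY7 1) (nBX7 1) rfl rfl rfl h).sc
theorem covB71 {x : ℝ} : CovC PP tK tL tC ndB7q1 (Fn2.sc esg cd7q1) 7 1 536870912 536870912 (fun _ => True) x :=
  (covC_main (fC := nc) (nBY7 1) (nBX7 1) rfl rfl rfl bx71).sc
theorem atB72 {y x : ℝ} (h : OnC (7 : Fin 8) 2 y) : AtC PP tK tL tC ndB7q2 (Fn2.sc esg cd7q2) 7 2 y (y) x :=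
  (atC_main (fC := nc) (nBY7 2) (nBX7 2) rfl rfl rfl h).sc
theorem covB72 {x : ℝ} : CovC PP tK tL tC ndB7q2 (Fn2.sc esg cd7q2) 7 2 1073741824 536870912 (fun _ => True) x :=
  (covC_main (fC := nc) (nBY7 2) (nBX7 2) rfl rfl rfl bx72).sc
theorem atB73 {y x : ℝ} (h : OnC (7 : Fin 8) 3 y) : AtC PP tK tL tC ndB7q3 (Fn2.sc esg cd7q3) 7 3 y (c3n y) x :=
  (atC_main (fC := nc) (nBY7 3) (nBX7 3) rfl rfl rfl h).sc
theorem covB73 {x : ℝ} : CovC PP tK tL tC ndB7q3 (Fn2.sc esg cd7q3) 7 3 0 1230186008 (fun _ => True) x :=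
  (covC_main (fC := nc) (nBY7 3) (nBX7 3) rfl rfl rfl bx73).sc
theorem mu_v (x : ℝ) : mug3.v x = mun 3 x := by
  simp only [mug3, mun, gsg, c1n]
  push_cast
  rw [one_div]
  congr 1
  ring_nf
theorem esg_v (x : ℝ) : esg.v x = esn x := by
  simp only [esg, gsg, esn, c1n]
  push_cast
  ring_nf
theorem mo_v (x : ℝ) : mog.v x = mun 3 x * (esg.v x * (3 / 40)) := by
  rw [← mu_v]
  simp only [mog]
  push_cast
  ring
theorem gug_nn {x : ℝ} (hx : 0 ≤ x) : 0 ≤ gug.v x := by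
  have h : gsg.v x ≤ 1 := by
    simp only [gsg]
    apply Real.sqrt_le_one.2 <;> (push_cast; nlinarith)
  simp only [gug]
  push_cast
  nlinarith
theorem en_v (x : ℝ) : eng.v x = 1 + mun 3 x * gug.v x := by
  rw [← mu_v]
  simp only [eng]
  push_cast
  ring
theorem en_pos {x : ℝ} (hx : 0 ≤ x) : 0 < eng.v x := by
  have h1 : 0 ≤ mun 3 x := by
    unfold mun
    have : 0 ≤ c1n x := Real.sqrt_nonneg _
    positivity
  have h2 := gug_nn hx
  rw [en_v]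
  positivity
theorem esg_rng {x : ℝ} (h0x : 0 ≤ x) (h1x : x ≤ 1) : 0 ≤ esg.v x ∧ esg.v x ≤ 31 / 200 := by
  rw [esg_v]
  exact esn_rng h0x h1x
theorem one0 {x : ℝ} (hx : ((697932185 : ℕ) : ℝ) / S ≤ x) (hx' : x ≤ (((697932185 : ℕ) : ℝ) + (42949674 : ℕ)) / S) : 0 ≤ crv PP 0 2 1 - 1 / 2 + mun 3 x * (tL 0 2 1 x - h0 * (3 / 40) * (2 * |smT h0⁻¹ tC 0 2 1 x|)) := by
  unfold smT
  have e1 : crv PP 0 2 1 - 1 / 2 = 0 := by
    rw [crv0]
    simp only [c1n_one, swn_one]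
    norm_num
  have e2 : tL 0 2 1 x = 0 := by
    refine (tbF_on (onC_one 0)).trans ?_
    show (ndB 0 2).L.v (c1n 1) x = 0
    rw [c1n_one]
    exact (corB02 x).2.2.1
  have e3 : tC 0 2 1 x = 0 := by
    refine (tbF_sc (F := esg) (fn := nc) (crd := crd) _ _ _ _).trans ?_
    have : tU 0 2 1 x = 0 := by
      refine (tbF_on (onC_one 0)).trans ?_
      show (nc 0 2).v (c1n 1) x = 0
      rw [c1n_one]
      exact (corB02 x).2.2.2
    exact (congrArg (esg.v x * ·) this).trans (mul_zero _)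
  rw [e1, e2, e3]
  norm_num
theorem one1 {x : ℝ} (hx : ((697932185 : ℕ) : ℝ) / S ≤ x) (hx' : x ≤ (((697932185 : ℕ) : ℝ) + (42949674 : ℕ)) / S) : 0 ≤ crv PP 1 2 1 - 1 / 2 + mun 3 x * (tL 1 2 1 x - h0 * (3 / 40) * (2 * |smT h0⁻¹ tC 1 2 1 x|)) := by
  unfold smT
  have e1 : crv PP 1 2 1 - 1 / 2 = 0 := by
    rw [crv1]
    simp only [wn2, c1n_one, swn_one]
    norm_num
  have e2 : tL 1 2 1 x = 0 := by
    refine (tbF_on (onC_one 1)).trans ?_
    show (ndB 1 2).L.v 1 x = 0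
    exact (corB12 x).2.2.1
  have e3 : tC 1 2 1 x = 0 := by
    refine (tbF_sc (F := esg) (fn := nc) (crd := crd) _ _ _ _).trans ?_
    have : tU 1 2 1 x = 0 := by
      refine (tbF_on (onC_one 1)).trans ?_
      show (nc 1 2).v 1 x = 0
      exact (corB12 x).2.2.2
    exact (congrArg (esg.v x * ·) this).trans (mul_zero _)
  rw [e1, e2, e3]
  norm_num
theorem one2 {x : ℝ} (hx : ((697932185 : ℕ) : ℝ) / S ≤ x) (hx' : x ≤ (((697932185 : ℕ) : ℝ) + (42949674 : ℕ)) / S) : 0 ≤ crv PP 2 2 1 - 1 / 2 + mun 3 x * (tL 2 2 1 x - h0 * (3 / 40) * (2 * |smT h0⁻¹ tC 2 2 1 x|)) := by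
  unfold smT
  have e1 : crv PP 2 2 1 - 1 / 2 = 0 := by
    rw [crv2]
    simp only [wn2, c1n_one, swn_one]
    norm_num
  have e2 : tL 2 2 1 x = 0 := by
    refine (tbF_on (onC_one 2)).trans ?_
    show (ndB 2 2).L.v 1 x = 0
    exact (corB22 x).2.2.1
  have e3 : tC 2 2 1 x = 0 := by
    refine (tbF_sc (F := esg) (fn := nc) (crd := crd) _ _ _ _).trans ?_
    have : tU 2 2 1 x = 0 := by
      refine (tbF_on (onC_one 2)).trans ?_
      show (nc 2 2).v 1 x = 0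
      exact (corB22 x).2.2.2
    exact (congrArg (esg.v x * ·) this).trans (mul_zero _)
  rw [e1, e2, e3]
  norm_num
theorem one3 {x : ℝ} (hx : ((697932185 : ℕ) : ℝ) / S ≤ x) (hx' : x ≤ (((697932185 : ℕ) : ℝ) + (42949674 : ℕ)) / S) : 0 ≤ crv PP 3 2 1 - 1 / 2 + mun 3 x * (tL 3 2 1 x - h0 * (3 / 40) * (2 * |smT h0⁻¹ tC 3 2 1 x|)) := by
  unfold smT
  have e1 : crv PP 3 2 1 - 1 / 2 = 0 := by
    rw [crv3]
    simp only [wn2, c1n_one, swn_one]
    norm_num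
  have e2 : tL 3 2 1 x = 0 := by
    refine (tbF_on (onC_one 3)).trans ?_
    show (ndB 3 2).L.v 1 x = 0
    exact (corB32 x).2.2.1
  have e3 : tC 3 2 1 x = 0 := by
    refine (tbF_sc (F := esg) (fn := nc) (crd := crd) _ _ _ _).trans ?_
    have : tU 3 2 1 x = 0 := by
      refine (tbF_on (onC_one 3)).trans ?_
      show (nc 3 2).v 1 x = 0
      exact (corB32 x).2.2.2
    exact (congrArg (esg.v x * ·) this).trans (mul_zero _)
  rw [e1, e2, e3]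
  norm_num
theorem one4 {x : ℝ} (hx : ((697932185 : ℕ) : ℝ) / S ≤ x) (hx' : x ≤ (((697932185 : ℕ) : ℝ) + (42949674 : ℕ)) / S) : 0 ≤ crv PP 4 2 1 - 1 / 2 + mun 3 x * (tL 4 2 1 x - h0 * (3 / 40) * (2 * |smT h0⁻¹ tC 4 2 1 x|)) := by
  unfold smT
  have e1 : crv PP 4 2 1 - 1 / 2 = 0 := by
    rw [crv4]
    simp only [wn2, c1n_one, swn_one]
    norm_num
  have e2 : tL 4 2 1 x = 0 := by
    refine (tbF_on (onC_one 4)).trans ?_
    show (ndB 4 2).L.v 1 x = 0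
    exact (corB42 x).2.2.1
  have e3 : tC 4 2 1 x = 0 := by
    refine (tbF_sc (F := esg) (fn := nc) (crd := crd) _ _ _ _).trans ?_
    have : tU 4 2 1 x = 0 := by
      refine (tbF_on (onC_one 4)).trans ?_
      show (nc 4 2).v 1 x = 0
      exact (corB42 x).2.2.2
    exact (congrArg (esg.v x * ·) this).trans (mul_zero _)
  rw [e1, e2, e3]
  norm_num
theorem one5 {x : ℝ} (hx : ((697932185 : ℕ) : ℝ) / S ≤ x) (hx' : x ≤ (((697932185 : ℕ) : ℝ) + (42949674 : ℕ)) / S) : 0 ≤ crv PP 5 2 1 - 1 / 2 + mun 3 x * (tL 5 2 1 x - h0 * (3 / 40) * (2 * |smT h0⁻¹ tC 5 2 1 x|)) := by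
  unfold smT
  have e1 : crv PP 5 2 1 - 1 / 2 = 3 / 10 := by
    rw [crv5]
    simp only [wn2, c1n_one, swn_one, c3n_one]
    norm_num
  have e2 : tL 5 2 1 x = l5q2.v 1 x := tbF_on (onC_one 5)
  have e3 : tC 5 2 1 x = esg.v x * kc5q2.v 1 x := by
    refine (tbF_sc (F := esg) (fn := nc) (crd := crd) _ _ _ _).trans ?_
    exact congrArg _ (tbF_on (onC_one 5))
  have hr := esg_rng (x := x) (by rw [S_num] at hx; norm_num at hx; linarith) (by rw [S_num] at hx'; norm_num at hx'; linarith)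
  have hb : |kc5q2.v 1 x| ≤ 19 / 50 := by
    refine abs_le.2 ⟨?_, ?_⟩
    all_goals
      simp only [kc5q2, bd5q2, cv1m, cv2m, cv3m, cv4m, cv5m, cv6m, cv1p, cv2p, cv3p, cv4p, cv5p, cv6p, cv1r, cv2r, cv3r, cv4r, cv5r, cv6r, c1g_v, swg_v, c3g_v, c1n_one, swn_one, c3n_one]
      rw [S_num] at hx hx'
      norm_num at hx hx' ⊢
      try nlinarith
  rw [e1, e2, e3]
  refine oneE_of (by norm_num) (by norm_num) ?_
  refine sub_abs (B := 589 / 10000) (by norm_num) (by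
    rw [abs_mul, abs_of_nonneg hr.1]
    calc _ ≤ 31 / 200 * (19 / 50 : ℝ) := mul_le_mul hr.2 hb (abs_nonneg _) (by norm_num)
      _ ≤ _ := by norm_num) ?_
  simp only [l5q2, bx5q2, bx5q2_3, cv1m, cv2m, cv3m, cv4m, cv5m, cv6m, cv1p, cv2p, cv3p, cv4p, cv5p, cv6p, cv1r, cv2r, cv3r, cv4r, cv5r, cv6r, c1g_v, swg_v, c3g_v, c1n_one, swn_one, c3n_one]
  rw [S_num] at hx hx'
  norm_num at hx hx' ⊢
  try nlinarith
theorem one6 {x : ℝ} (hx : ((697932185 : ℕ) : ℝ) / S ≤ x) (hx' : x ≤ (((697932185 : ℕ) : ℝ) + (42949674 : ℕ)) / S) : 0 ≤ crv PP 6 2 1 - 1 / 2 + mun 3 x * (tL 6 2 1 x - h0 * (3 / 40) * (2 * |smT h0⁻¹ tC 6 2 1 x|)) := by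
  unfold smT
  have e1 : crv PP 6 2 1 - 1 / 2 = 3 / 5 := by
    rw [crv6]
    simp only [wn2, c1n_one, swn_one, c3n_one]
    norm_num
  have e2 : tL 6 2 1 x = l6q2.v 1 x := tbF_on (onC_one 6)
  have e3 : tC 6 2 1 x = esg.v x * kc6q2.v 1 x := by
    refine (tbF_sc (F := esg) (fn := nc) (crd := crd) _ _ _ _).trans ?_
    exact congrArg _ (tbF_on (onC_one 6))
  have hr := esg_rng (x := x) (by rw [S_num] at hx; norm_num at hx; linarith) (by rw [S_num] at hx'; norm_num at hx'; linarith)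
  have hb : |kc6q2.v 1 x| ≤ 29 / 100 := by
    refine abs_le.2 ⟨?_, ?_⟩
    all_goals
      simp only [kc6q2, bd6q2, cv1m, cv2m, cv3m, cv4m, cv5m, cv6m, cv1p, cv2p, cv3p, cv4p, cv5p, cv6p, cv1r, cv2r, cv3r, cv4r, cv5r, cv6r, c1g_v, swg_v, c3g_v, c1n_one, swn_one, c3n_one]
      rw [S_num] at hx hx'
      norm_num at hx hx' ⊢
      try nlinarith
  rw [e1, e2, e3]
  refine oneE_of (by norm_num) (by norm_num) ?_
  refine sub_abs (B := 899 / 20000) (by norm_num) (by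
    rw [abs_mul, abs_of_nonneg hr.1]
    calc _ ≤ 31 / 200 * (29 / 100 : ℝ) := mul_le_mul hr.2 hb (abs_nonneg _) (by norm_num)
      _ ≤ _ := by norm_num) ?_
  simp only [l6q2, bx6q2, bx6q2_3, cv1m, cv2m, cv3m, cv4m, cv5m, cv6m, cv1p, cv2p, cv3p, cv4p, cv5p, cv6p, cv1r, cv2r, cv3r, cv4r, cv5r, cv6r, c1g_v, swg_v, c3g_v, c1n_one, swn_one, c3n_one]
  rw [S_num] at hx hx'
  norm_num at hx hx' ⊢
  try nlinarith
theorem one7 {x : ℝ} (hx : ((697932185 : ℕ) : ℝ) / S ≤ x) (hx' : x ≤ (((697932185 : ℕ) : ℝ) + (42949674 : ℕ)) / S) : 0 ≤ crv PP 7 2 1 - 1 / 2 + mun 3 x * (tL 7 2 1 x - h0 * (3 / 40) * (2 * |smT h0⁻¹ tC 7 2 1 x|)) := by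
  unfold smT
  have e1 : crv PP 7 2 1 - 1 / 2 = 1 := by
    rw [crv7]
    simp only [c3n_one]
    norm_num
  have e2 : tL 7 2 1 x = l7q2.v 1 x := tbF_on (onC_one 7)
  have e3 : tC 7 2 1 x = esg.v x * kc7q2.v 1 x := by
    refine (tbF_sc (F := esg) (fn := nc) (crd := crd) _ _ _ _).trans ?_
    exact congrArg _ (tbF_on (onC_one 7))
  have hr := esg_rng (x := x) (by rw [S_num] at hx; norm_num at hx; linarith) (by rw [S_num] at hx'; norm_num at hx'; linarith)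
  have hb : |kc7q2.v 1 x| ≤ 1 / 50 := by
    refine abs_le.2 ⟨?_, ?_⟩
    all_goals
      simp only [kc7q2, kc7q2_3, kc7q2_9, cv1m, cv2m, cv3m, cv4m, cv5m, cv6m, cv1p, cv2p, cv3p, cv4p, cv5p, cv6p, cv1r, cv2r, cv3r, cv4r, cv5r, cv6r, c1g_v, swg_v, c3g_v, c1n_one, swn_one, c3n_one]
      rw [S_num] at hx hx'
      norm_num at hx hx' ⊢
      try nlinarith
  rw [e1, e2, e3]
  refine oneE_of (by norm_num) (by norm_num) ?_
  refine sub_abs (B := 31 / 10000) (by norm_num) (by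
    rw [abs_mul, abs_of_nonneg hr.1]
    calc _ ≤ 31 / 200 * (1 / 50 : ℝ) := mul_le_mul hr.2 hb (abs_nonneg _) (by norm_num)
      _ ≤ _ := by norm_num) ?_
  simp only [l7q2, l7q2_7, l7q2_8, l7q2_9, l7q2_12, l7q2_14, txg, txg_4, txg_6, txg_26, txg_29, txg_32, txg_55, txg_95, txg_98, txg_139, txg_183, txg_186, txg_189, txg_226, txg_265, txg_268, txg_307, txg_341, txg_363, txg_365, txg_367, txg_369, txg_419, txg_462, txg_464, txg_506, kcg, kcg_3, kcg_6, kcg_9, kcg_12, kcg_13, kcg_16, kcg_28, kcg_36, kcg_41, kcg_51, kcg_59, kcg_60, kcg_65, kcg_77, kcg_84, kcg_85, kcg_90, kcg_101, kcg_106, kcg_111, kcg_123, kcg_133, kcg_136, kcg_137, kcg_141, kcg_153, kcg_158, kcg_161, kcg_171, kcg_179, kcg_180, kcg_184, kcg_194, kcg_202, kcg_206, kcg_215, kcg_220, kcg_227, kcg_228, kcg_229, kcg_249, kcg_258, kcg_278, kcg_279, kcg_300, cv1m, cv2m, cv3m, cv4m, cv5m, cv6m, cv1p, cv2p, cv3p, cv4p, cv5p,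 cv6p, cv1r, cv2r, cv3r, cv4r, cv5r, cv6r, c1g_v, swg_v, c3g_v, c1n_one, swn_one, c3n_one]
  rw [S_num] at hx hx'
  norm_num at hx hx' ⊢
  try nlinarith
theorem atu12a {y x : ℝ} (h : OnC (1 : Fin 8) 2 y) (hv : h0 * y < 1) : AtC PP tK tL tU ndB1q2a cd1q2a 1 2 y (c1n y) x := by
  have h1 := h.1.nonneg
  have e := yag_v h1 hv
  have hc : ((1 : ℝ) - 3 / 4 * y ^ 2 ≤ 0) = False := eq_false (by
    have := on_sq h1 hv
    linarith)
  refine ⟨⟨?_, ?_, ?_, ?_⟩, ?_⟩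
  · exact e
  · rw [← nBX1 2 y h]
    show xc12a.v (c1n y) = cv1p.v y
    simp only [xc12a, cv1p, e, c1g_v]
    all_goals ((try push_cast); (try ring))
  · refine Eq.trans ?_ (tbF_on h).symm
    show kfc12a.v (c1n y) x = kf1q2.v y x
    simp only [kfc12a, kfc12a_11, kf1q2, kf1q2_4, kf1q2_9, cv1p, e, c1g_v]
    all_goals ((try push_cast); (try simp only [hc, if_true, if_false]); (try ring1))
  · refine Eq.trans ?_ (tbF_on h).symm
    show lc12a.v (c1n y) x = l1q2.v y x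
    simp only [lc12a, lc12a_11, l1q2, l1q2_4, l1q2_12, cv1p, e, c1g_v]
    all_goals ((try push_cast); (try simp only [hc, if_true, if_false]); (try ring1))
  · refine Eq.trans ?_ (tbF_on h).symm
    show kcc12a.v (c1n y) x = kc1q2.v y x
    simp only [kcc12a, kcc12a_11, kc1q2, kc1q2_4, kc1q2_11, cv1p, e, c1g_v]
    all_goals ((try push_cast); (try simp only [hc, if_true, if_false]); (try ring1))
theorem atB12a {y x : ℝ} (h : OnC (1 : Fin 8) 2 y) (hv : h0 * y < 1) : AtC PP tK tL tC ndB1q2a (Fn2.sc esg cd1q2a) 1 2 y (c1n y) x :=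
  (atu12a h hv).sc
theorem covB12a {x : ℝ} : CovC PP tK tL tC ndB1q2a (Fn2.sc esg cd1q2a) 1 2 0 536870912 (fun y => h0 * y < 1) x :=
  covC_var (lo := 0) (hi := 1 / 2) (fun y => c1n y) (fun y h hv => atB12a h hv)
    (fun y h hv => c1n_half (by have := h.1.1; linarith)) (by norm_num) (by norm_num)
theorem atu12b {y x : ℝ} (h : OnC (1 : Fin 8) 2 y) (hv : 1 ≤ h0 * y) : AtC PP tK tL tU ndB1q2b cd1q2b 1 2 y (y) x := by
  have h1 := h.1.nonneg
  have e := c1g_off hv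
  have hc : ((1 : ℝ) - 3 / 4 * y ^ 2 ≤ 0) = True := eq_true (by
    have := off_sq hv
    linarith)
  refine ⟨⟨?_, ?_, ?_, ?_⟩, ?_⟩
  · exact rfl
  · rw [← nBX1 2 y h]
    show xc12b.v (y) = cv1p.v y
    simp only [xc12b, cv1p, e]
    all_goals ((try push_cast); (try ring))
  · refine Eq.trans ?_ (tbF_on h).symm
    show kfc12b.v (y) x = kf1q2.v y x
    simp only [kfc12b, kfc12b_9, kf1q2, kf1q2_4, kf1q2_9, cv1p, e]
    all_goals ((try push_cast); (try simp only [hc, if_true, if_false]); (try ring1))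
  · refine Eq.trans ?_ (tbF_on h).symm
    show lc12b.v (y) x = l1q2.v y x
    simp only [lc12b, lc12b_9, l1q2, l1q2_4, l1q2_12, cv1p, e]
    all_goals ((try push_cast); (try simp only [hc, if_true, if_false]); (try ring1))
  · refine Eq.trans ?_ (tbF_on h).symm
    show kcc12b.v (y) x = kc1q2.v y x
    simp only [kcc12b, kcc12b_9, kc1q2, kc1q2_4, kc1q2_11, cv1p, e]
    all_goals ((try push_cast); (try simp only [hc, if_true, if_false]); (try ring1))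
theorem atB12b {y x : ℝ} (h : OnC (1 : Fin 8) 2 y) (hv : 1 ≤ h0 * y) : AtC PP tK tL tC ndB1q2b (Fn2.sc esg cd1q2b) 1 2 y (y) x :=
  (atu12b h hv).sc
theorem covB12b {x : ℝ} : CovC PP tK tL tC ndB1q2b (Fn2.sc esg cd1q2b) 1 2 1239849684 370763052 (fun y => 1 ≤ h0 * y) x :=
  covC_var (lo := 11547 / 10000) (hi := 3 / 2) (fun y => y) (fun y h hv => atB12b h hv)
    (fun y h hv => ⟨(lt_off hv).le, by have := h.1.2; linarith⟩) (by norm_num) (by norm_num)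
theorem atu22a {y x : ℝ} (h : OnC (2 : Fin 8) 2 y) (hv : h0 * y < 1) : AtC PP tK tL tU ndB2q2a cd2q2a 2 2 y (c1n y) x := by
  have h1 := h.1.nonneg
  have e := yag_v h1 hv
  have hc : ((1 : ℝ) - 3 / 4 * y ^ 2 ≤ 0) = False := eq_false (by
    have := on_sq h1 hv
    linarith)
  refine ⟨⟨?_, ?_, ?_, ?_⟩, ?_⟩
  · exact e
  · rw [← nBX2 2 y h]
    show xc22a.v (c1n y) = cv2p.v y
    simp only [xc22a, cv2p, e, c1g_v]
    all_goals ((try push_cast); (try ring))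
  · refine Eq.trans ?_ (tbF_on h).symm
    show kfc22a.v (c1n y) x = kf2q2.v y x
    simp only [kfc22a, kfc22a_11, kf2q2, kf2q2_4, cv2p, e, c1g_v]
    all_goals ((try push_cast); (try simp only [hc, if_true, if_false]); (try ring1))
  · refine Eq.trans ?_ (tbF_on h).symm
    show lc22a.v (c1n y) x = l2q2.v y x
    simp only [lc22a, lc22a_11, l2q2, l2q2_4, cv2p, e, c1g_v]
    all_goals ((try push_cast); (try simp only [hc, if_true, if_false]); (try ring1))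
  · refine Eq.trans ?_ (tbF_on h).symm
    show kcc22a.v (c1n y) x = kc2q2.v y x
    simp only [kcc22a, kcc22a_11, kc2q2, kc2q2_4, cv2p, e, c1g_v]
    all_goals ((try push_cast); (try simp only [hc, if_true, if_false]); (try ring1))
theorem atB22a {y x : ℝ} (h : OnC (2 : Fin 8) 2 y) (hv : h0 * y < 1) : AtC PP tK tL tC ndB2q2a (Fn2.sc esg cd2q2a) 2 2 y (c1n y) x :=
  (atu22a h hv).sc
theorem covB22a {x : ℝ} : CovC PP tK tL tC ndB2q2a (Fn2.sc esg cd2q2a) 2 2 0 536870912 (fun y => h0 * y < 1) x :=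
  covC_var (lo := 0) (hi := 1 / 2) (fun y => c1n y) (fun y h hv => atB22a h hv)
    (fun y h hv => c1n_half (by have := h.1.1; linarith)) (by norm_num) (by norm_num)
theorem atu22b {y x : ℝ} (h : OnC (2 : Fin 8) 2 y) (hv : 1 ≤ h0 * y) : AtC PP tK tL tU ndB2q2b cd2q2b 2 2 y (y) x := by
  have h1 := h.1.nonneg
  have e := c1g_off hv
  have hc : ((1 : ℝ) - 3 / 4 * y ^ 2 ≤ 0) = True := eq_true (by
    have := off_sq hv
    linarith)
  refine ⟨⟨?_, ?_, ?_, ?_⟩, ?_⟩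
  · exact rfl
  · rw [← nBX2 2 y h]
    show xc22b.v (y) = cv2p.v y
    simp only [xc22b, cv2p, e]
    all_goals ((try push_cast); (try ring))
  · refine Eq.trans ?_ (tbF_on h).symm
    show kfc22b.v (y) x = kf2q2.v y x
    simp only [kfc22b, kfc22b_9, kf2q2, kf2q2_4, cv2p, e]
    all_goals ((try push_cast); (try simp only [hc, if_true, if_false]); (try ring1))
  · refine Eq.trans ?_ (tbF_on h).symm
    show lc22b.v (y) x = l2q2.v y x
    simp only [lc22b, lc22b_9, l2q2, l2q2_4, cv2p, e]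
    all_goals ((try push_cast); (try simp only [hc, if_true, if_false]); (try ring1))
  · refine Eq.trans ?_ (tbF_on h).symm
    show kcc22b.v (y) x = kc2q2.v y x
    simp only [kcc22b, kc2q2, kc2q2_4, cv2p, e]
    all_goals ((try push_cast); (try simp only [hc, if_true, if_false]); (try ring1))
theorem atB22b {y x : ℝ} (h : OnC (2 : Fin 8) 2 y) (hv : 1 ≤ h0 * y) : AtC PP tK tL tC ndB2q2b (Fn2.sc esg cd2q2b) 2 2 y (y) x :=
  (atu22b h hv).sc
theorem covB22b {x : ℝ} : CovC PP tK tL tC ndB2q2b (Fn2.sc esg cd2q2b) 2 2 1239849684 370763052 (fun y => 1 ≤ h0 * y) x :=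
  covC_var (lo := 11547 / 10000) (hi := 3 / 2) (fun y => y) (fun y h hv => atB22b h hv)
    (fun y h hv => ⟨(lt_off hv).le, by have := h.1.2; linarith⟩) (by norm_num) (by norm_num)
theorem atu32a {y x : ℝ} (h : OnC (3 : Fin 8) 2 y) (hv : h0 * y < 1) : AtC PP tK tL tU ndB3q2a cd3q2a 3 2 y (c1n y) x := by
  have h1 := h.1.nonneg
  have e := yag_v h1 hv
  have hc : ((1 : ℝ) - 3 / 4 * y ^ 2 ≤ 0) = False := eq_false (by
    have := on_sq h1 hv
    linarith)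
  refine ⟨⟨?_, ?_, ?_, ?_⟩, ?_⟩
  · exact e
  · rw [← nBX3 2 y h]
    show xc32a.v (c1n y) = cv3p.v y
    simp only [xc32a, cv3p, e, c1g_v]
    all_goals ((try push_cast); (try ring))
  · refine Eq.trans ?_ (tbF_on h).symm
    show kfc32a.v (c1n y) x = kf3q2.v y x
    simp only [kfc32a, kfc32a_11, kf3q2, kf3q2_4, cv3p, e, c1g_v]
    all_goals ((try push_cast); (try simp only [hc, if_true, if_false]); (try ring1))
  · refine Eq.trans ?_ (tbF_on h).symm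
    show lc32a.v (c1n y) x = l3q2.v y x
    simp only [lc32a, lc32a_11, l3q2, l3q2_4, cv3p, e, c1g_v]
    all_goals ((try push_cast); (try simp only [hc, if_true, if_false]); (try ring1))
  · refine Eq.trans ?_ (tbF_on h).symm
    show kcc32a.v (c1n y) x = kc3q2.v y x
    simp only [kcc32a, kcc32a_11, kc3q2, kc3q2_4, cv3p, e, c1g_v]
    all_goals ((try push_cast); (try simp only [hc, if_true, if_false]); (try ring1))
theorem atB32a {y x : ℝ} (h : OnC (3 : Fin 8) 2 y) (hv : h0 * y < 1) : AtC PP tK tL tC ndB3q2a (Fn2.sc esg cd3q2a) 3 2 y (c1n y) x :=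
  (atu32a h hv).sc
theorem covB32a {x : ℝ} : CovC PP tK tL tC ndB3q2a (Fn2.sc esg cd3q2a) 3 2 0 536870912 (fun y => h0 * y < 1) x :=
  covC_var (lo := 0) (hi := 1 / 2) (fun y => c1n y) (fun y h hv => atB32a h hv)
    (fun y h hv => c1n_half (by have := h.1.1; linarith)) (by norm_num) (by norm_num)
theorem atu32b {y x : ℝ} (h : OnC (3 : Fin 8) 2 y) (hv : 1 ≤ h0 * y) : AtC PP tK tL tU ndB3q2b cd3q2b 3 2 y (y) x := by
  have h1 := h.1.nonneg
  have e := c1g_off hv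
  have hc : ((1 : ℝ) - 3 / 4 * y ^ 2 ≤ 0) = True := eq_true (by
    have := off_sq hv
    linarith)
  refine ⟨⟨?_, ?_, ?_, ?_⟩, ?_⟩
  · exact rfl
  · rw [← nBX3 2 y h]
    show xc32b.v (y) = cv3p.v y
    simp only [xc32b, cv3p, e]
    all_goals ((try push_cast); (try ring))
  · refine Eq.trans ?_ (tbF_on h).symm
    show kfc32b.v (y) x = kf3q2.v y x
    simp only [kfc32b, kfc32b_9, kf3q2, kf3q2_4, cv3p, e]
    all_goals ((try push_cast); (try simp only [hc, if_true, if_false]); (try ring1))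
  · refine Eq.trans ?_ (tbF_on h).symm
    show lc32b.v (y) x = l3q2.v y x
    simp only [lc32b, lc32b_9, l3q2, l3q2_4, cv3p, e]
    all_goals ((try push_cast); (try simp only [hc, if_true, if_false]); (try ring1))
  · refine Eq.trans ?_ (tbF_on h).symm
    show kcc32b.v (y) x = kc3q2.v y x
    simp only [kcc32b, kc3q2, kc3q2_4, cv3p, e]
    all_goals ((try push_cast); (try simp only [hc, if_true, if_false]); (try ring1))
theorem atB32b {y x : ℝ} (h : OnC (3 : Fin 8) 2 y) (hv : 1 ≤ h0 * y) : AtC PP tK tL tC ndB3q2b (Fn2.sc esg cd3q2b) 3 2 y (y) x :=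
  (atu32b h hv).sc
theorem covB32b {x : ℝ} : CovC PP tK tL tC ndB3q2b (Fn2.sc esg cd3q2b) 3 2 1239849684 370763052 (fun y => 1 ≤ h0 * y) x :=
  covC_var (lo := 11547 / 10000) (hi := 3 / 2) (fun y => y) (fun y h hv => atB32b h hv)
    (fun y h hv => ⟨(lt_off hv).le, by have := h.1.2; linarith⟩) (by norm_num) (by norm_num)
theorem atu42a {y x : ℝ} (h : OnC (4 : Fin 8) 2 y) (hv : h0 * y < 1) : AtC PP tK tL tU ndB4q2a cd4q2a 4 2 y (c1n y) x := by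
  have h1 := h.1.nonneg
  have e := yag_v h1 hv
  have hc : ((1 : ℝ) - 3 / 4 * y ^ 2 ≤ 0) = False := eq_false (by
    have := on_sq h1 hv
    linarith)
  refine ⟨⟨?_, ?_, ?_, ?_⟩, ?_⟩
  · exact e
  · rw [← nBX4 2 y h]
    show xc42a.v (c1n y) = cv4p.v y
    simp only [xc42a, cv4p, e, c1g_v]
    all_goals ((try push_cast); (try ring))
  · refine Eq.trans ?_ (tbF_on h).symm
    show kfc42a.v (c1n y) x = kf4q2.v y x
    simp only [kfc42a, kfc42a_11, kf4q2, kf4q2_4, cv4p, e, c1g_v]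
    all_goals ((try push_cast); (try simp only [hc, if_true, if_false]); (try ring1))
  · refine Eq.trans ?_ (tbF_on h).symm
    show lc42a.v (c1n y) x = l4q2.v y x
    simp only [lc42a, lc42a_11, l4q2, l4q2_4, cv4p, e, c1g_v]
    all_goals ((try push_cast); (try simp only [hc, if_true, if_false]); (try ring1))
  · refine Eq.trans ?_ (tbF_on h).symm
    show kcc42a.v (c1n y) x = kc4q2.v y x
    simp only [kcc42a, kcc42a_11, kc4q2, kc4q2_4, cv4p, e, c1g_v]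
    all_goals ((try push_cast); (try simp only [hc, if_true, if_false]); (try ring1))
theorem atB42a {y x : ℝ} (h : OnC (4 : Fin 8) 2 y) (hv : h0 * y < 1) : AtC PP tK tL tC ndB4q2a (Fn2.sc esg cd4q2a) 4 2 y (c1n y) x :=
  (atu42a h hv).sc
theorem covB42a {x : ℝ} : CovC PP tK tL tC ndB4q2a (Fn2.sc esg cd4q2a) 4 2 0 536870912 (fun y => h0 * y < 1) x :=
  covC_var (lo := 0) (hi := 1 / 2) (fun y => c1n y) (fun y h hv => atB42a h hv)
    (fun y h hv => c1n_half (by have := h.1.1; linarith)) (by norm_num) (by norm_num)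
theorem atu42b {y x : ℝ} (h : OnC (4 : Fin 8) 2 y) (hv : 1 ≤ h0 * y) : AtC PP tK tL tU ndB4q2b cd4q2b 4 2 y (y) x := by
  have h1 := h.1.nonneg
  have e := c1g_off hv
  have hc : ((1 : ℝ) - 3 / 4 * y ^ 2 ≤ 0) = True := eq_true (by
    have := off_sq hv
    linarith)
  refine ⟨⟨?_, ?_, ?_, ?_⟩, ?_⟩
  · exact rfl
  · rw [← nBX4 2 y h]
    show xc42b.v (y) = cv4p.v y
    simp only [xc42b, cv4p, e]
    all_goals ((try push_cast); (try ring))
  · refine Eq.trans ?_ (tbF_on h).symm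
    show kfc42b.v (y) x = kf4q2.v y x
    simp only [kfc42b, kfc42b_9, kf4q2, kf4q2_4, cv4p, e]
    all_goals ((try push_cast); (try simp only [hc, if_true, if_false]); (try ring1))
  · refine Eq.trans ?_ (tbF_on h).symm
    show lc42b.v (y) x = l4q2.v y x
    simp only [lc42b, lc42b_9, l4q2, l4q2_4, cv4p, e]
    all_goals ((try push_cast); (try simp only [hc, if_true, if_false]); (try ring1))
  · refine Eq.trans ?_ (tbF_on h).symm
    show kcc42b.v (y) x = kc4q2.v y x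
    simp only [kcc42b, kc4q2, kc4q2_4, cv4p, e]
    all_goals ((try push_cast); (try simp only [hc, if_true, if_false]); (try ring1))
theorem atB42b {y x : ℝ} (h : OnC (4 : Fin 8) 2 y) (hv : 1 ≤ h0 * y) : AtC PP tK tL tC ndB4q2b (Fn2.sc esg cd4q2b) 4 2 y (y) x :=
  (atu42b h hv).sc
theorem covB42b {x : ℝ} : CovC PP tK tL tC ndB4q2b (Fn2.sc esg cd4q2b) 4 2 1239849684 370763052 (fun y => 1 ≤ h0 * y) x :=
  covC_var (lo := 11547 / 10000) (hi := 3 / 2) (fun y => y) (fun y h hv => atB42b h hv)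
    (fun y h hv => ⟨(lt_off hv).le, by have := h.1.2; linarith⟩) (by norm_num) (by norm_num)

end Pool.Agent.Strip051.G.I6500_6900.Tab
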