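import Pool.Agent.Strip051.G.I6500_6900.MolD

/-! # The tight charts of a table: certificates (generated) -/

set_option linter.all false
set_option maxRecDepth 100000

namespace Pool.Agent.Strip051.G.I6500_6900.Tab.Mo

open Pool.Agent.Strip051.PB Pool.Agent.Strip051.PB.Mol Pool.Agent.Strip051.PB.T
open Pool.Agent.Strip051.G.I6500_6900.Tab

noncomputable def f2Ap : ℕ → ℕ → ℕ → ℕ → Bool :=
  onCell 0 41943040 0 33554432 697932185 42949674 (c2_Ap.row false 20971520)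

theorem h0_2Ap : ∃ t, chk3 f2Ap t 1 2 2 = true :=
  ⟨(a (b (c (a (l 8) (l 10)) (a (l 8) (c (l 10) (l 10)))) (c (a (c (l 10) (l 10)) (c (l 10) (l 10))) (a (c (l 8) (l 8)) (b (c (l 10) (l 10)) (c (l 10) (l 10)))))) (b (c (a (c (l 10) (l 10)) (b (c (l 2) (a (l 2) (l 2))) (c (l 2) (a (l 2) (c (l 2) (l 2)))))) (b (a (c (l 10) (a (l 10) (l 2))) (c (a (l 2) (l 2)) (l 2))) (a (c (l 2) (a (l 2) (l 2))) (c (a (c (l 2) (l 2)) (l 2)) (l 2))))) (c (a (c (l 2) (a (l 2) (l 2))) (b (a (c (l 2) (l 2)) (l 1)) (l 1))) (a (c (a (l 2) (b (l 2) (l 2))) (b (a (l 2) (l 2)) (a (l 2) (l 2)))) (b (c (a (l 2) (l 1)) (l 2)) (l 1)))))), by decide +kernel⟩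

theorem h1_2Ap : ∃ t, chk3 f2Ap t 1 2 3 = true :=
  ⟨(a (b (c (a (c (l 8) (l 8)) (b (c (l 10) (a (l 8) (l 10))) (c (l 10) (a (l 8) (l 10))))) (a (b (c (l 8) (a (l 8) (l 8))) (c (l 8) (a (l 8) (l 8)))) (a (c (b (l 8) (l 8)) (l 8)) (l 10)))) (c (a (b (c (l 8) (l 8)) (c (l 8) (l 8))) (c (a (l 10) (b (l 10) (l 2))) (b (a (l 10) (l 10)) (a (l 10) (l 2))))) (a (c (a (l 8) (b (l 8) (l 8))) (b (a (l 8) (l 8)) (a (l 8) (l 8)))) (c (a (b (l 10) (l 10)) (l 10)) (l 10))))) (b (c (a (c (a (b (l 10) (l 2)) (l 2)) (l 10)) (c (l 2) (l 2))) (b (a (l 10) (l 2)) (a (l 2) (l 2)))) (c (a (c (a (b (l 2) (l 2)) (l 2)) (l 2)) (c (l 2) (l 2))) (a (c (l 2) (l 2)) (b (c (l 2) (l 2)) (l 1)))))), by decide +kernel⟩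

theorem h2_2Ap : ∃ t, chk3 f2Ap t 1 3 1 = true :=
  ⟨(c (a (c (b (a (c (l 10) (l 10)) (b (c (l 10) (l 10)) (c (l 2) (l 10)))) (a (b (c (l 10) (l 10)) (c (l 10) (l 10))) (c (a (l 2) (l 2)) (a (l 2) (l 2))))) (b (a (b (c (l 10) (l 10)) (c (l 10) (l 10))) (b (c (l 10) (a (l 10) (l 2))) (c (a (l 2) (l 2)) (l 10)))) (a (c (b (l 10) (a (l 10) (l 10))) (b (a (l 10) (l 10)) (a (l 10) (l 10)))) (c (a (l 2) (l 2)) (a (l 2) (l 2)))))) (b (a (c (a (b (l 2) (c (l 2) (l 2))) (l 1)) (a (c (l 2) (l 2)) (l 1))) (l 1)) (l 1))) (a (c (a (b (b (c (l 10) (a (l 8) (l 10))) (c (a (l 8) (l 10)) (l 10))) (c (b (a (l 8) (l 10)) (l 10)) (a (l 10) (l 10)))) (b (c (a (l 10) (l 2)) (a (b (l 10) (l 10)) (b (l 2) (l 2)))) (c (a (l 2) (l 2)) (a (b (l 2) (l 2)) (b (l 2) (l 1)))))) (b (a (c (a (l 8) (b (l 10) (l 10))) (a (b (l 8)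 (l 8)) (b (l 10) (l 10)))) (c (a (b (l 10) (l 10)) (l 2)) (a (l 10) (l 2)))) (a (c (a (l 10) (b (l 10) (l 10))) (a (b (l 10) (l 10)) (b (l 10) (l 10)))) (c (a (b (l 2) (l 2)) (l 2)) (b (l 2) (a (l 2) (l 1))))))) (b (a (a (c (c (b (l 2) (l 2)) (l 2)) (c (l 2) (l 2))) (l 1)) (l 1)) (l 1)))), by decide +kernel⟩

theorem h3_2Ap : ∃ t, chk3 f2Ap t 1 2 1 = true := ex3_c h0_2Ap h1_2Ap

theorem h4_2Ap : ∃ t, chk3 f2Ap t 1 1 1 = true := ex3_b h3_2Ap h2_2Ap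

theorem ct_2Ap : ∃ t, chk3 f2Ap t 1 1 1 = true := h4_2Ap

noncomputable def f2Apk1 : ℕ → ℕ → ℕ → ℕ → Bool :=
  onCell 0 41943040 0 33554432 697932185 42949674 (c2_Apk1.row false 20971520)

theorem h0_2Apk1 : ∃ t, chk3 f2Apk1 t 1 2 1 = true :=
  ⟨(c (a (b (c (a (l 8) (l 10)) (a (l 8) (l 10))) (c (a (l 10) (c (l 10) (l 10))) (a (c (l 8) (l 8)) (c (l 10) (l 10))))) (b (c (a (c (l 10) (l 10)) (c (l 2) (a (l 2) (b (l 2) (l 2))))) (b (a (c (l 10) (l 10)) (c (a (l 2) (l 2)) (l 2))) (a (c (l 2) (a (l 2) (l 2))) (c (a (l 2) (l 2)) (l 2))))) (c (a (c (l 2) (l 2)) (b (a (c (l 2) (l 2)) (l 1)) (l 1))) (a (c (b (l 2) (a (l 2) (l 2))) (b (a (l 2) (l 2)) (l 2))) (b (c (l 2) (l 2)) (l 1)))))) (a (b (c (a (l 8) (c (l 10) (b (l 10) (a (l 8) (l 10))))) (a (b (c (l 8) (l 8)) (c (l 8) (a (l 8) (l 8)))) (a (c (l 8) (l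 8)) (l 10)))) (c (a (c (l 8) (l 8)) (b (c (l 10) (a (l 10) (l 10))) (c (a (l 10) (l 2)) (l 10)))) (a (b (c (l 8) (a (l 8) (l 8))) (c (a (l 8) (l 8)) (l 8))) (c (a (l 10) (l 10)) (l 10))))) (b (c (a (c (a (b (l 10) (l 2)) (l 2)) (l 10)) (l 2)) (b (a (l 10) (l 2)) (a (l 2) (l 2)))) (c (a (c (a (l 2) (l 2)) (l 2)) (c (l 2) (l 2))) (a (c (l 2) (l 2)) (c (l 2) (l 2))))))), by decide +kernel⟩

theorem h1_2Apk1 : ∃ t, chk3 f2Apk1 t 1 3 1 = true :=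
  ⟨(c (a (c (b (a (c (l 10) (l 10)) (c (l 10) (a (l 10) (l 2)))) (a (c (l 10) (a (l 10) (l 10))) (c (a (l 2) (l 2)) (a (l 2) (l 2))))) (b (a (c (l 10) (a (l 8) (l 10))) (b (c (l 10) (l 10)) (c (l 10) (l 10)))) (a (c (a (l 10) (l 10)) (a (l 10) (l 10))) (c (a (l 2) (l 2)) (a (l 2) (l 2)))))) (b (a (c (a (c (l 2) (l 2)) (l 1)) (a (c (l 2) (l 2)) (l 1))) (l 1)) (l 1))) (a (c (a (b (c (a (l 8) (l 10)) (a (l 8) (l 10))) (c (a (l 10) (l 10)) (a (l 10) (l 10)))) (b (c (a (l 10) (l 2)) (a (l 10) (l 2))) (c (a (l 2) (l 2)) (a (l 10) (l 2))))) (b (a (c (a (l 8) (l 10)) (a (l 8) (l 10))) (c (a (l 10) (l 2)) (l 10))) (a (c (a (l 10) (l 10)) (a (l 10) (l 10))) (c (a (l 10) (l 2)) (a (l 2) (l 2)))))) (b (a (a (c (c (l 2) (l 2)) (l 2)) (l 1)) (l 1)) (l 1)))), by decide +kernel⟩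

theorem h2_2Apk1 : ∃ t, chk3 f2Apk1 t 1 1 1 = true := ex3_b h0_2Apk1 h1_2Apk1

theorem ct_2Apk1 : ∃ t, chk3 f2Apk1 t 1 1 1 = true := h2_2Apk1

noncomputable def f2Apk2 : ℕ → ℕ → ℕ → ℕ → Bool :=
  onCell 0 41943040 0 33554432 697932185 42949674 (c2_Apk2.row false 20971520)

theorem h0_2Apk2 : ∃ t, chk3 f2Apk2 t 1 2 1 = true :=
  ⟨(c (a (b (c (a (l 8) (l 10)) (a (l 8) (l 10))) (c (a (l 10) (l 10)) (a (l 10) (l 10)))) (b (c (a (l 10) (c (l 2) (a (l 2) (l 2)))) (b (a (c (l 10) (l 10)) (c (l 2) (l 2))) (a (c (l 2) (l 2)) (c (a (l 2) (l 2)) (l 2))))) (c (a (l 2) (b (a (l 2) (l 1)) (l 1))) (a (b (c (l 2) (l 2)) (c (l 2) (l 2))) (c (l 2) (l 2)))))) (a (b (c (a (l 8) (c (l 10) (l 10))) (a (c (l 8) (l 8)) (a (c (l 8) (l 8)) (l 10)))) (c (a (l 10) (c (a (l 10) (l 10)) (a (l 10) (l 10)))) (a (c (l 8) (a (l 8)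 (l 8))) (c (l 10) (l 10))))) (b (c (a (c (a (l 10) (l 2)) (l 10)) (l 2)) (a (l 10) (l 2))) (c (a (c (l 2) (l 2)) (l 2)) (a (l 2) (l 2)))))), by decide +kernel⟩

theorem h1_2Apk2 : ∃ t, chk3 f2Apk2 t 1 3 1 = true :=
  ⟨(c (a (c (b (a (l 10) (c (l 10) (l 10))) (a (c (l 10) (l 10)) (c (l 2) (l 2)))) (b (a (c (l 10) (l 10)) (c (l 10) (l 10))) (a (c (l 10) (l 10)) (c (l 2) (l 2))))) (b (a (c (c (l 2) (l 2)) (a (l 2) (l 1))) (l 1)) (l 1))) (a (c (a (b (c (l 10) (l 10)) (c (l 10) (l 10))) (b (c (l 10) (a (l 10) (l 2))) (c (l 10) (a (l 2) (l 2))))) (b (a (c (l 10) (l 10)) (c (a (l 10) (l 2)) (l 10))) (a (c (l 10) (l 10)) (c (a (l 2) (l 2)) (l 10))))) (b (a (c (c (a (l 2) (l 1)) (l 2)) (l 2)) (l 1)) (l 1)))), by decide +kernel⟩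

theorem h2_2Apk2 : ∃ t, chk3 f2Apk2 t 1 1 1 = true := ex3_b h0_2Apk2 h1_2Apk2

theorem ct_2Apk2 : ∃ t, chk3 f2Apk2 t 1 1 1 = true := h2_2Apk2

noncomputable def f2Apk3 : ℕ → ℕ → ℕ → ℕ → Bool :=
  onCell 0 41943040 0 33554432 697932185 42949674 (c2_Apk3.row false 20971520)

theorem h0_2Apk3 : ∃ t, chk3 f2Apk3 t 1 1 1 = true :=
  ⟨(b (c (a (b (c (l 10) (l 10)) (c (l 10) (a (l 10) (l 10)))) (b (c (a (l 10) (c (l 2) (l 2))) (a (c (l 10) (l 10)) (c (l 2) (l 2)))) (c (a (l 2) (a (l 2) (l 1))) (a (c (l 2) (l 2)) (l 2))))) (a (b (c (a (l 8) (l 10)) (a (l 8) (c (l 10) (l 10)))) (c (a (l 8) (c (l 10) (l 10))) (a (c (l 8) (l 8)) (l 10)))) (b (c (a (c (l 10) (l 10)) (l 2)) (l 10)) (c (a (l 2) (l 2)) (l 2))))) (c (a (c (b (a (l 10) (l 10)) (a (l 10) (c (l 2) (l 2)))) (b (a (l 10) (l 10)) (a (l 10) (c (l 2) (l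 2))))) (b (a (c (l 2) (l 2)) (l 1)) (l 1))) (a (c (a (b (l 10) (c (l 10) (l 10))) (b (l 10) (c (l 2) (l 10)))) (b (a (l 10) (c (l 10) (l 10))) (a (c (l 10) (l 10)) (c (l 10) (l 2))))) (b (a (c (c (l 2) (l 2)) (l 2)) (l 1)) (l 1))))), by decide +kernel⟩

theorem ct_2Apk3 : ∃ t, chk3 f2Apk3 t 1 1 1 = true := h0_2Apk3

noncomputable def f2Apk4 : ℕ → ℕ → ℕ → ℕ → Bool :=
  onCell 0 41943040 0 33554432 697932185 42949674 (c2_Apk4.row false 20971520)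

theorem h0_2Apk4 : ∃ t, chk3 f2Apk4 t 1 1 1 = true :=
  ⟨(c (b (a (c (l 10) (l 10)) (b (c (a (l 10) (l 2)) (a (l 10) (c (l 2) (l 2)))) (c (a (l 2) (c (l 2) (l 2))) (a (c (l 2) (l 2)) (l 2))))) (a (c (a (l 10) (b (l 10) (l 2))) (b (l 10) (a (l 10) (l 2)))) (b (a (c (l 2) (l 2)) (l 1)) (l 1)))) (b (a (b (c (a (l 8) (l 10)) (a (l 8) (l 10))) (c (a (l 8) (l 10)) (a (l 10) (l 10)))) (c (a (b (l 10) (l 2)) (l 2)) (l 10))) (a (c (a (b (l 10) (l 10)) (b (l 10) (l 10))) (b (a (l 10) (l 10)) (a (l 10) (l 10)))) (b (c (a (l 2) (l 1)) (l 2)) (l 1))))), by decide +kernel⟩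

theorem ct_2Apk4 : ∃ t, chk3 f2Apk4 t 1 1 1 = true := h0_2Apk4

noncomputable def f2Am : ℕ → ℕ → ℕ → ℕ → Bool :=
  onCell 0 41943040 0 33554432 697932185 42949674 (c2_Am.row true 20971520)

theorem h0_2Am : ∃ t, chk3 f2Am t 1 2 2 = true :=
  ⟨(a (b (c (b (a (l 8) (l 10)) (a (l 8) (l 8))) (b (a (l 8) (l 10)) (a (l 8) (l 8)))) (c (a (c (l 8) (l 8)) (c (l 8) (l 8))) (a (c (l 8) (l 8)) (c (l 8) (l 8))))) (b (c (a (c (l 10) (l 10)) (c (l 2) (a (l 2) (b (c (l 2) (l 2)) (l 2))))) (b (a (c (l 10) (a (l 10) (l 2))) (c (a (l 2) (l 2)) (a (l 2) (l 2)))) (a (c (l 10) (a (l 10) (l 2))) (c (a (l 2) (l 2)) (a (l 2) (l 2)))))) (c (a (c (l 10) (l 10)) (c (l 2) (a (l 2) (l 2)))) (a (c (l 10) (a (l 10) (l 10))) (c (a (l 2) (b (l 2) (l 2))) (b (a (l 2) (l 2)) (a (l 2) (l 2)))))))), by decide +kernel⟩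

theorem h1_2Am : ∃ t, chk3 f2Am t 1 2 3 = true :=
  ⟨(b (a (c (a (c (l 8) (l 8)) (c (l 10) (b (a (l 8) (l 10)) (l 8)))) (b (a (c (l 8) (a (l 8) (l 8))) (c (a (l 8) (l 10)) (l 10))) (a (c (l 8) (l 8)) (c (a (l 8) (l 8)) (l 8))))) (c (a (b (c (a (l 10) (l 2)) (a (l 10) (l 2))) (c (a (l 10) (l 2)) (a (l 10) (l 2)))) (b (l 2) (c (a (l 2) (l 2)) (l 2)))) (b (a (l 10) (l 2)) (a (c (a (l 10) (l 2)) (l 10)) (c (l 2) (l 2)))))) (a (c (a (c (l 8) (l 8)) (c (l 8) (a (l 8) (l 8)))) (a (b (c (l 8) (l 8)) (l 3)) (c (a (l 8) (b (l 8) (l 8))) (b (l 8) (a (l 8) (l 8)))))) (c (a (c (a (l 10) (b (l 10) (l 10))) (b (a (l 10) (l 10)) (a (l 8) (l 10)))) (b (c (a (l 2) (l 2)) (a (l 2) (l 2))) (c (a (l 2) (c (l 2) (l 2))) (b (a (l 2) (l 2)) (a (l 2) (l 2)))))) (b (a (c (a (l 10) (l 10)) (a (l 10) (l 10))) (c (l 2) (l 2)))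 (a (c (b (l 10) (a (l 8) (l 10))) (b (a (l 8) (l 10)) (a (l 8) (l 10)))) (b (l 2) (c (a (l 2) (l 2)) (a (l 2) (l 2))))))))), by decide +kernel⟩

theorem h2_2Am : ∃ t, chk3 f2Am t 1 3 2 = true :=
  ⟨(b (a (a (l 3) (a (l 3) (b (c (b (l 8) (l 8)) (b (c (l 8) (l 8)) (l 8))) (b (c (l 8) (l 8)) (l 3))))) (b (c (a (b (c (l 10) (l 10)) (c (l 10) (l 10))) (c (b (a (l 2) (l 2)) (l 10)) (a (c (l 10) (l 10)) (l 2)))) (a (c (b (l 10) (l 10)) (a (l 8) (l 10))) (c (a (l 10) (l 2)) (a (l 10) (l 2))))) (c (a (c (a (l 8) (l 10)) (a (l 8) (l 10))) (c (a (l 10) (l 2)) (a (l 10) (l 2)))) (a (c (a (l 8) (l 10)) (a (l 8) (l 10))) (c (a (l 10) (l 2)) (a (l 10) (l 2))))))) (a (l 3) (c (a (b (c (l 8) (l 8)) (c (l 8) (l 8))) (b (c (a (l 10) (l 2)) (a (l 10) (l 10))) (c (l 10) (a (l 10) (l 10))))) (a (b (c (a (l 8) (l 8)) (a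 (l 8) (l 8))) (c (l 8) (a (l 3) (l 8)))) (b (c (a (l 10) (l 10)) (a (l 10) (l 10))) (c (a (l 10) (l 10)) (a (l 10) (l 10)))))))), by decide +kernel⟩

theorem h3_2Am : ∃ t, chk3 f2Am t 1 3 3 = true :=
  ⟨(b (a (a (l 3) (a (l 3) (c (b (c (l 8) (l 8)) (c (l 8) (l 8))) (b (c (l 8) (l 8)) (c (l 8) (l 8)))))) (c (a (b (c (a (l 8) (l 10)) (a (l 8) (l 10))) (c (a (l 8) (l 10)) (a (l 8) (l 10)))) (b (c (a (l 10) (c (l 2) (l 2))) (a (c (l 10) (l 10)) (c (l 2) (l 2)))) (c (a (l 10) (l 2)) (a (l 10) (c (l 2) (l 2)))))) (b (a (c (a (l 8) (c (l 10) (l 10))) (a (c (l 8) (l 8)) (c (l 10) (l 10)))) (c (a (c (l 10) (l 10)) (l 2)) (a (l 10) (l 2)))) (a (c (a (l 8) (l 10)) (a (l 8) (c (l 10) (l 10)))) (c (a (c (l 10) (l 10)) (c (l 2) (l 2))) (a (c (l 10) (l 10)) (l 2))))))) (a (l 3) (c (a (b (c (a (l 8) (l 8)) (a (l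 8) (l 8))) (a (l 3) (c (l 8) (l 8)))) (b (c (a (l 10) (l 10)) (a (l 10) (l 10))) (c (a (l 10) (l 10)) (a (l 10) (l 10))))) (a (b (c (a (l 8) (l 8)) (a (l 8) (l 8))) (a (l 3) (c (l 8) (l 8)))) (b (c (a (l 10) (c (l 10) (l 10))) (a (c (l 10) (l 10)) (c (l 10) (l 10)))) (c (a (l 10) (l 10)) (a (l 10) (c (l 10) (l 10))))))))), by decide +kernel⟩

theorem h4_2Am : ∃ t, chk3 f2Am t 1 3 1 = true := ex3_c h2_2Am h3_2Am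

theorem h5_2Am : ∃ t, chk3 f2Am t 1 2 1 = true := ex3_c h0_2Am h1_2Am

theorem h6_2Am : ∃ t, chk3 f2Am t 1 1 1 = true := ex3_b h5_2Am h4_2Am

theorem ct_2Am : ∃ t, chk3 f2Am t 1 1 1 = true := h6_2Am

noncomputable def f2Bp : ℕ → ℕ → ℕ → ℕ → Bool :=
  onCell 0 41943040 0 33554432 697932185 42949674 (c2_Bp.row false 20971520)

theorem h0_2Bp : ∃ t, chk3 f2Bp t 2 2 2 = true :=
  ⟨(b (c (b (a (c (l 8) (l 8)) (c (l 10) (l 10))) (a (c (l 8) (l 8)) (c (l 8) (a (l 8) (l 8))))) (b (a (c (l 8) (l 8)) (c (l 10) (l 10))) (a (c (l 8) (a (l 8) (l 8))) (c (a (l 8) (l 8)) (a (l 8) (l 8)))))) (c (a (b (c (l 8) (a (l 3) (l 8))) (l 3)) (b (c (l 8) (a (l 8) (l 8))) (c (a (l 8) (l 8)) (a (l 8) (l 8))))) (a (b (c (l 8) (a (l 3) (l 8))) (l 3)) (b (c (a (l 8) (l 8)) (a (l 8) (l 8))) (c (a (l 8) (l 8)) (a (l 8) (l 8))))))),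 by decide +kernel⟩

theorem h1_2Bp : ∃ t, chk3 f2Bp t 3 4 2 = true :=
  ⟨(c (b (a (c (l 10) (l 10)) (c (a (l 2) (l 2)) (a (l 2) (b (b (c (l 2) (a (l 2) (l 2))) (c (l 2) (a (l 2) (l 2)))) (c (l 2) (a (l 2) (l 2))))))) (a (c (a (l 10) (l 2)) (a (l 10) (l 2))) (c (l 2) (a (l 2) (b (c (l 2) (a (l 2) (l 2))) (l 2)))))) (b (a (c (a (l 10) (l 2)) (a (l 10) (b (c (l 2) (a (l 2) (l 2))) (c (l 2) (a (l 2) (l 2)))))) (c (a (b (b (c (l 2) (a (l 2) (l 2))) (c (l 2) (a (l 2) (l 2)))) (c (l 2) (a (l 2) (l 2)))) (b (c (l 2) (l 2)) (c (l 2) (l 2)))) (a (b (c (l 2) (l 2)) (c (l 2) (l 2))) (l 2)))) (a (c (a (l 10) (l 2)) (a (l 10) (b (c (l 2) (a (l 2) (l 2))) (l 2)))) (c (a (b (c (l 2) (a (l 2) (l 2))) (l 2)) (b (c (l 2) (l 2)) (c (l 2) (l 2)))) (a (b (c (l 2) (l 2)) (c (l 2) (l 2))) (b (c (a (l 2) (l 2)) (l 2)) (c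 (a (l 2) (l 2)) (a (l 2) (l 2))))))))), by decide +kernel⟩

theorem h2_2Bp : ∃ t, chk3 f2Bp t 3 5 2 = true :=
  ⟨(c (a (b (c (a (l 10) (l 10)) (a (l 10) (l 10))) (c (a (l 10) (l 10)) (a (l 8) (l 10)))) (c (b (a (l 2) (l 2)) (a (l 2) (l 2))) (b (a (l 2) (c (l 2) (l 2))) (a (l 2) (c (l 2) (l 2)))))) (a (c (b (a (l 10) (l 10)) (a (l 8) (l 10))) (b (a (l 10) (c (l 10) (l 10))) (a (l 8) (c (l 10) (l 10))))) (c (a (b (c (l 2) (l 2)) (c (l 2) (l 2))) (b (c (l 2) (a (l 2) (l 2))) (l 2))) (b (a (c (l 2) (a (l 2) (l 2))) (b (c (a (l 2) (l 2)) (a (l 2) (l 2))) (c (a (l 2) (l 2)) (a (l 2) (l 2))))) (a (l 2) (c (l 2) (b (a (l 2) (l 2)) (l 2)))))))), by decide +kernel⟩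

theorem h3_2Bp : ∃ t, chk3 f2Bp t 2 4 3 = true :=
  ⟨(c (a (b (c (a (l 8) (l 8)) (l 8)) (c (a (l 8) (l 8)) (a (l 8) (l 8)))) (b (c (a (l 8) (l 10)) (a (l 8) (b (c (l 10) (a (l 8) (l 10))) (c (l 8) (a (l 8) (l 8)))))) (c (a (l 8) (l 8)) (a (l 8) (b (c (l 8) (a (l 8) (l 8))) (l 8)))))) (b (a (c (a (l 8) (l 8)) (a (l 8) (b (c (l 8) (a (l 8) (l 8))) (c (l 8) (a (l 8) (l 8)))))) (c (a (b (c (l 8) (a (l 8) (l 8))) (c (l 8) (a (l 8) (l 8)))) (c (l 10) (l 10))) (a (c (l 8) (l 8)) (l 10)))) (a (c (a (l 8) (l 8)) (a (l 8) (b (c (l 8) (l 8)) (l 8)))) (c (a (b (c (l 8) (l 8)) (l 8)) (c (l 8) (a (l 8) (l 8)))) (a (c (l 8) (a (l 8) (l 8))) (c (a (l 8) (l 8)) (l 8))))))), by decide +kernel⟩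

theorem h4_2Bp : ∃ t, chk3 f2Bp t 2 5 3 = true :=
  ⟨(c (a (b (a (l 3) (c (l 8) (l 8))) (l 3)) (c (b (a (l 8) (l 8)) (a (l 8) (l 8))) (b (a (l 8) (c (l 8) (l 8))) (a (c (l 8) (l 8)) (c (l 8) (l 8)))))) (a (b (a (l 3) (c (l 8) (c (l 8) (l 8)))) (l 3)) (c (a (b (c (l 8) (l 8)) (c (l 8) (l 8))) (b (c (l 8) (a (l 8) (l 8))) (l 8))) (b (a (c (l 8) (a (l 8) (l 8))) (b (c (l 8) (l 8)) (c (l 8) (l 8)))) (a (l 8) (c (a (l 8) (l 8)) (a (l 8) (l 8)))))))), by decide +kernel⟩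

theorem h5_2Bp : ∃ t, chk3 f2Bp t 3 4 3 = true :=
  ⟨(c (a (b (c (a (b (c (l 10) (a (l 10) (l 2))) (c (l 10) (a (l 10) (l 2)))) (b (c (l 2) (l 2)) (c (l 2) (l 2)))) (a (c (l 10) (l 10)) (l 2))) (c (a (b (c (l 10) (a (l 10) (l 10))) (l 10)) (c (a (l 2) (l 2)) (a (l 2) (l 2)))) (a (c (l 10) (a (l 10) (l 10))) (c (a (l 2) (l 2)) (l 2))))) (b (b (c (l 2) (l 2)) (c (l 2) (l 2))) (c (a (b (c (l 2) (l 2)) (c (a (l 2) (l 2)) (a (l 2) (l 2)))) (l 2)) (a (l 2) (l 2))))) (b (a (b (c (l 10) (l 10)) (c (l 10) (l 10))) (c (a (l 2) (l 2)) (l 2))) (a (c (a (c (a (l 10) (l 10)) (l 10)) (l 2)) (a (l 10) (l 2))) (c (a (l 2) (l 2)) (a (l 2) (l 2)))))), by decide +kernel⟩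

theorem h6_2Bp : ∃ t, chk3 f2Bp t 3 5 6 = true :=
  ⟨(a (c (a (b (c (l 10) (l 10)) (c (l 8) (l 8))) (b (c (l 10) (a (l 10) (l 2))) (l 10))) (b (a (c (l 10) (a (l 8) (l 10))) (b (c (a (l 10) (l 2)) (a (l 10) (l 2))) (c (a (l 10) (l 2)) (a (l 10) (l 2))))) (a (l 8) (c (l 10) (a (l 10) (l 10)))))) (b (c (a (b (c (a (l 2) (l 2)) (a (l 2) (l 2))) (c (a (l 2) (l 2)) (a (l 2) (l 2)))) (b (l 2) (c (a (l 2) (l 2)) (l 2)))) (a (b (l 2) (c (a (l 2) (l 2)) (l 2))) (l 2))) (c (a (c (l 2) (a (l 2) (l 2))) (b (c (a (l 2) (l 2)) (l 2)) (c (a (l 2) (l 2)) (a (l 2) (l 2))))) (a (b (c (a (l 2) (l 2)) (l 2)) (c (a (l 2) (l 2)) (l 2))) (b (l 2) (c (l 2) (l 2))))))), by decide +kernel⟩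

theorem h7_2Bp : ∃ t, chk3 f2Bp t 3 5 7 = true :=
  ⟨(a (b (c (a (b (c (l 10) (l 10)) (c (l 10) (a (l 8) (l 10)))) (b (l 10) (c (a (l 10) (l 2)) (l 10)))) (a (a (c (l 8) (l 8)) (l 10)) (l 10))) (c (a (c (l 8) (a (l 8) (l 8))) (b (c (a (l 10) (l 2)) (l 10)) (c (l 10) (l 10)))) (a (b (c (l 8) (l 8)) (c (l 8) (l 8))) (b (l 10) (c (l 10) (l 10)))))) (b (c (a (l 2) (l 2)) (a (l 2) (l 2))) (c (a (b (l 2) (c (l 2) (l 2))) (c (l 2) (l 2))) (a (c (l 2) (l 2)) (b (l 2) (c (l 2) (l 2))))))), by decide +kernel⟩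

theorem h8_2Bp : ∃ t, chk3 f2Bp t 2 6 2 = true :=
  ⟨(a (l 3) (b (a (l 3) (c (b (c (l 8) (l 8)) (a (l 3) (c (c (l 8) (l 8)) (c (l 8) (l 8))))) (b (c (l 8) (c (l 8) (l 8))) (a (l 3) (c (l 8) (l 8)))))) (b (a (l 3) (b (a (l 3) (b (c (l 8) (c (l 8) (l 8))) (l 3))) (l 3))) (l 3)))), by decide +kernel⟩

theorem h9_2Bp : ∃ t, chk3 f2Bp t 3 12 2 = true :=
  ⟨(c (a (b (c (a (l 8) (l 10)) (a (l 8) (c (l 10) (l 10)))) (c (a (b (l 8) (l 8)) (c (l 10) (l 10))) (a (c (l 8) (l 8)) (c (l 10) (l 10))))) (b (c (b (l 2) (a (l 2) (l 2))) (a (c (l 2) (l 2)) (c (l 2) (a (l 2) (l 2))))) (c (a (c (l 10) (l 10)) (c (l 2) (l 2))) (a (c (l 10) (l 10)) (c (l 2) (l 2)))))) (a (b (c (b (l 10) (a (l 8) (c (l 10) (l 10)))) (a (c (l 8) (l 8)) (b (l 10) (c (l 10) (l 10))))) (c (a (c (l 8) (l 8)) (c (l 10) (l 10))) (a (c (l 8) (l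 8)) (c (l 10) (l 10))))) (b (c (a (b (l 2) (c (l 2) (l 2))) (b (l 2) (l 2))) (a (b (l 2) (l 2)) (b (l 2) (l 2)))) (c (a (c (l 10) (l 10)) (c (l 2) (l 2))) (a (c (l 10) (l 10)) (c (l 2) (l 2))))))), by decide +kernel⟩

theorem h10_2Bp : ∃ t, chk3 f2Bp t 3 13 2 = true :=
  ⟨(c (a (a (c (b (l 8) (c (l 8) (l 8))) (b (l 8) (l 8))) (c (b (l 10) (l 10)) (b (c (l 10) (l 10)) (l 10)))) (c (b (a (c (l 10) (l 10)) (c (l 2) (l 2))) (a (l 10) (c (l 2) (l 2)))) (a (b (c (l 10) (l 10)) (c (l 10) (l 10))) (b (c (l 2) (l 2)) (c (l 2) (l 2)))))) (a (c (b (a (c (l 8) (l 8)) (c (l 10) (l 10))) (a (l 8) (c (l 8) (l 10)))) (b (a (c (l 8) (l 8)) (c (l 10) (l 10))) (a (c (l 8) (l 8)) (c (l 10) (l 8))))) (c (a (b (c (l 10) (l 10)) (c (l 10) (l 10))) (b (c (l 2) (l 2)) (c (l 2) (l 2)))) (b (a (c (l 10) (l 10)) (c (l 2) (l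 2))) (a (c (l 10) (l 10)) (c (l 2) (l 2))))))), by decide +kernel⟩

theorem h11_2Bp : ∃ t, chk3 f2Bp t 2 6 3 = true :=
  ⟨(a (l 3) (b (a (l 3) (c (b (c (c (l 8) (l 8)) (b (l 8) (c (l 8) (l 8)))) (a (l 3) (c (l 8) (c (l 8) (l 8))))) (b (c (b (l 8) (c (l 8) (l 8))) (b (l 8) (l 8))) (a (l 3) (c (l 8) (l 8)))))) (b (a (l 3) (c (b (c (l 8) (c (l 8) (l 8))) (l 3)) (b (c (l 8) (l 8)) (l 3)))) (l 3)))), by decide +kernel⟩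

theorem h12_2Bp : ∃ t, chk3 f2Bp t 3 6 6 = true :=
  ⟨(a (b (b (a (c (b (l 8) (c (l 8) (l 8))) (b (l 8) (l 8))) (c (b (l 10) (l 10)) (b (l 10) (l 10)))) (a (c (c (l 8) (l 8)) (c (l 8) (l 8))) (c (c (l 10) (l 10)) (c (l 10) (l 10))))) (c (a (b (c (l 8) (l 8)) (c (l 8) (l 8))) (b (c (l 10) (l 10)) (c (l 8) (l 8)))) (b (a (c (l 8) (l 8)) (c (l 10) (l 10))) (a (c (l 8) (l 8)) (c (l 8) (l 8)))))) (b (b (c (a (b (l 2) (l 2)) (b (c (a (l 2) (l 2)) (a (l 2) (l 2))) (c (l 2) (l 2)))) (a (b (c (a (l 2) (l 2)) (a (l 2) (l 2))) (c (l 2) (l 2))) (c (b (a (l 2) (l 2)) (l 2)) (l 2)))) (c (a (c (l 10) (l 10)) (c (l 2) (a (l 2) (l 2)))) (a (c (l 10) (a (l 10) (l 2))) (c (a (l 2) (l 2)) (a (l 2) (l 2)))))) (c (b (a (c (l 10) (l 10)) (c (l 2) (l 2))) (a (c (l 10) (l 10)) (c (l 2) (l 2)))) (a (b (c (l 10) (l 10)) (c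 (l 10) (l 10))) (b (c (a (l 2) (l 2)) (a (l 2) (l 2))) (c (l 2) (a (l 2) (l 2)))))))), by decide +kernel⟩

theorem h13_2Bp : ∃ t, chk3 f2Bp t 3 6 7 = true :=
  ⟨(b (a (b (a (c (b (l 8) (l 8)) (b (c (a (l 8) (l 8)) (a (l 8) (l 8))) (c (l 8) (l 8)))) (c (b (c (a (l 8) (l 10)) (a (l 10) (l 10))) (c (l 10) (l 10))) (a (b (c (l 10) (l 8)) (l 8)) (l 10)))) (c (a (c (l 8) (l 8)) (c (l 10) (a (l 8) (l 10)))) (a (c (l 8) (a (l 8) (l 8))) (c (a (l 8) (l 10)) (a (l 8) (l 10)))))) (c (a (b (c (b (l 2) (l 2)) (l 2)) (c (a (l 10) (l 2)) (a (l 10) (l 2)))) (b (c (l 2) (l 2)) (l 2))) (b (a (c (l 2) (l 2)) (c (l 2) (l 2))) (a (c (l 10) (l 10)) (c (l 2) (l 2)))))) (a (c (b (a (c (l 8) (l 8)) (c (l 10) (l 10))) (a (c (l 8) (l 8)) (c (l 8) (l 8)))) (a (b (c (l 8) (l 8)) (c (l 8) (l 8))) (b (c (a (l 8) (l 10)) (a (l 8)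 (l 10))) (c (a (l 8) (l 8)) (a (l 8) (l 8)))))) (c (a (b (c (a (l 10) (l 2)) (a (l 10) (l 2))) (c (a (l 10) (l 10)) (a (l 10) (l 10)))) (b (c (a (l 2) (l 2)) (l 2)) (c (a (l 2) (l 2)) (a (l 2) (l 2))))) (a (b (c (a (l 10) (l 2)) (l 10)) (c (a (l 10) (l 10)) (a (l 10) (l 2)))) (b (c (l 2) (l 2)) (l 2)))))), by decide +kernel⟩

theorem h14_2Bp : ∃ t, chk3 f2Bp t 2 7 1 = true :=
  ⟨(l 3), by decide +kernel⟩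

theorem h15_2Bp : ∃ t, chk3 f2Bp t 3 7 4 = true :=
  ⟨(a (b (c (a (b (c (l 8) (l 8)) (l 3)) (b (l 10) (c (l 8) (l 8)))) (b (a (l 8) (l 10)) (a (l 3) (c (l 8) (l 8))))) (a (l 3) (a (l 3) (c (c (l 8) (l 8)) (c (l 8) (l 8)))))) (b (c (b (a (c (l 10) (l 10)) (c (l 2) (l 2))) (a (c (l 10) (l 10)) (l 2))) (a (b (c (l 10) (l 10)) (c (l 10) (l 10))) (b (c (l 2) (a (l 2) (l 2))) (c (l 2) (a (l 2) (l 2)))))) (c (a (b (c (l 10) (l 10)) (c (l 10) (l 10))) (b (c (l 2) (l 2)) (c (l 2) (l 10)))) (a (b (c (l 10) (l 10)) (c (l 10) (l 10))) (c (a (l 10) (l 2)) (b (a (l 10) (l 2)) (l 10))))))), by decide +kernel⟩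

theorem h16_2Bp : ∃ t, chk3 f2Bp t 3 7 5 = true :=
  ⟨(a (b (c (b (a (l 8) (c (l 8) (l 8))) (a (l 3) (c (l 8) (l 8)))) (a (b (c (l 8) (l 8)) (l 3)) (b (c (l 8) (a (l 8) (l 8))) (c (l 8) (a (l 8) (l 8)))))) (a (l 3) (a (l 3) (c (c (l 8) (l 8)) (c (b (l 8) (l 8)) (b (l 8) (l 8))))))) (b (c (a (b (c (l 10) (a (l 10) (l 10))) (c (l 10) (a (l 10) (l 10)))) (b (c (l 2) (l 2)) (c (l 10) (l 2)))) (a (b (c (l 10) (l 10)) (c (l 10) (l 10))) (b (c (l 2) (l 2)) (c (l 2) (l 2))))) (c (a (c (b (l 10) (l 10)) (b (a (l 8) (l 10)) (l 10))) (b (c (l 10) (l 10)) (c (l 10) (l 10)))) (a (b (c (l 10) (l 10)) (c (l 10) (l 10))) (b (c (l 10) (l 10)) (c (l 10) (l 10))))))), by decide +kernel⟩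

theorem h17_2Bp : ∃ t, chk3 f2Bp t 3 7 6 = true :=
  ⟨(a (b (c (a (b (c (l 8) (a (l 3) (l 8))) (l 3)) (b (c (l 8) (l 8)) (c (l 8) (l 8)))) (a (b (c (l 8) (l 8)) (l 3)) (b (c (l 8) (l 8)) (c (l 8) (l 8))))) (a (l 3) (a (l 3) (c (b (c (l 8) (l 8)) (c (l 8) (l 8))) (c (l 8) (l 8)))))) (b (c (a (b (c (l 10) (l 10)) (c (l 10) (l 10))) (b (c (l 2) (l 2)) (c (l 2) (l 2)))) (a (b (c (l 10) (l 10)) (c (l 10) (l 10))) (b (c (l 2) (a (l 2) (l 2))) (c (l 2) (l 2))))) (c (a (b (c (l 10) (l 10)) (c (l 10) (l 10))) (b (c (l 10) (l 10)) (c (l 10) (l 10)))) (a (b (c (l 10) (l 10)) (c (l 10) (l 10))) (b (c (l 10) (l 10)) (c (l 10) (l 10))))))), by decide +kernel⟩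

theorem h18_2Bp : ∃ t, chk3 f2Bp t 3 7 7 = true :=
  ⟨(a (b (c (a (b (c (l 8) (l 8)) (l 3)) (b (c (l 8) (l 8)) (c (l 8) (l 8)))) (a (b (c (l 8) (l 8)) (l 3)) (b (c (l 8) (a (l 8) (l 8))) (c (l 8) (l 8))))) (a (l 3) (a (l 3) (c (c (l 8) (l 8)) (c (l 8) (l 8)))))) (b (c (a (b (c (l 10) (a (l 10) (l 10))) (c (l 10) (l 10))) (b (c (a (l 2) (l 2)) (a (l 2) (l 2))) (c (a (l 2) (l 2)) (a (l 2) (l 2))))) (a (b (c (a (l 10) (l 10)) (a (l 10) (l 10))) (c (a (l 8) (l 10)) (a (l 10) (l 10)))) (c (b (l 2) (a (l 2) (l 2))) (a (l 10) (l 2))))) (c (a (b (c (l 10) (l 10)) (c (l 10) (l 10))) (b (c (l 10) (a (l 10) (l 2))) (c (l 10) (l 10)))) (a (b (c (l 10) (a (l 8) (l 10))) (c (l 10) (l 10))) (b (c (a (l 10) (l 2)) (a (l 10) (l 2))) (c (a (l 10) (l 2)) (a (l 10) (l 2)))))))), by decide +kernel⟩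

theorem h19_2Bp : ∃ t, chk3 f2Bp t 3 7 3 = true := ex3_c h17_2Bp h18_2Bp

theorem h20_2Bp : ∃ t, chk3 f2Bp t 3 7 2 = true := ex3_c h15_2Bp h16_2Bp

theorem h21_2Bp : ∃ t, chk3 f2Bp t 3 7 1 = true := ex3_c h20_2Bp h19_2Bp

theorem h22_2Bp : ∃ t, chk3 f2Bp t 1 7 1 = true := ex3_a h14_2Bp h21_2Bp

theorem h23_2Bp : ∃ t, chk3 f2Bp t 3 6 3 = true := ex3_c h12_2Bp h13_2Bp

theorem h24_2Bp : ∃ t, chk3 f2Bp t 1 6 3 = true := ex3_a h11_2Bp h23_2Bp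

theorem h25_2Bp : ∃ t, chk3 f2Bp t 3 6 2 = true := ex3_b h9_2Bp h10_2Bp

theorem h26_2Bp : ∃ t, chk3 f2Bp t 1 6 2 = true := ex3_a h8_2Bp h25_2Bp

theorem h27_2Bp : ∃ t, chk3 f2Bp t 1 6 1 = true := ex3_c h26_2Bp h24_2Bp

theorem h28_2Bp : ∃ t, chk3 f2Bp t 1 3 1 = true := ex3_b h27_2Bp h22_2Bp

theorem h29_2Bp : ∃ t, chk3 f2Bp t 3 5 3 = true := ex3_c h6_2Bp h7_2Bp

theorem h30_2Bp : ∃ t, chk3 f2Bp t 3 2 3 = true := ex3_b h5_2Bp h29_2Bp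

theorem h31_2Bp : ∃ t, chk3 f2Bp t 2 2 3 = true := ex3_b h3_2Bp h4_2Bp

theorem h32_2Bp : ∃ t, chk3 f2Bp t 1 2 3 = true := ex3_a h31_2Bp h30_2Bp

theorem h33_2Bp : ∃ t, chk3 f2Bp t 3 2 2 = true := ex3_b h1_2Bp h2_2Bp

theorem h34_2Bp : ∃ t, chk3 f2Bp t 1 2 2 = true := ex3_a h0_2Bp h33_2Bp

theorem h35_2Bp : ∃ t, chk3 f2Bp t 1 2 1 = true := ex3_c h34_2Bp h32_2Bp

theorem h36_2Bp : ∃ t, chk3 f2Bp t 1 1 1 = true := ex3_b h35_2Bp h28_2Bp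

theorem ct_2Bp : ∃ t, chk3 f2Bp t 1 1 1 = true := h36_2Bp

noncomputable def f2Bpk1 : ℕ → ℕ → ℕ → ℕ → Bool :=
  onCell 0 41943040 0 33554432 697932185 42949674 (c2_Bpk1.row false 20971520)

theorem h0_2Bpk1 : ∃ t, chk3 f2Bpk1 t 2 2 2 = true :=
  ⟨(b (c (b (a (c (l 8) (l 8)) (c (l 10) (l 10))) (a (c (l 8) (l 8)) (c (l 8) (l 8)))) (b (a (c (l 8) (l 8)) (c (l 10) (l 10))) (a (c (l 8) (l 8)) (c (l 8) (l 8))))) (c (a (b (c (l 8) (l 8)) (l 3)) (b (c (l 8) (l 8)) (c (l 8) (l 8)))) (a (b (c (l 8) (l 8)) (l 3)) (b (c (l 8) (l 8)) (c (l 8) (a (l 8) (l 8))))))), by decide +kernel⟩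

theorem h1_2Bpk1 : ∃ t, chk3 f2Bpk1 t 3 2 2 = true :=
  ⟨(b (c (b (a (c (l 10) (l 10)) (c (l 2) (a (l 2) (b (c (l 2) (a (l 2) (l 2))) (c (l 2) (a (l 2) (l 2))))))) (a (c (l 10) (l 10)) (c (l 2) (b (a (l 2) (c (l 2) (l 2))) (l 2))))) (b (a (c (l 10) (a (l 10) (c (l 2) (a (l 2) (l 2))))) (c (a (c (a (l 2) (l 2)) (a (l 2) (l 2))) (c (l 2) (l 2))) (a (c (l 2) (l 2)) (l 2)))) (a (c (l 10) (b (a (l 10) (c (l 2) (l 2))) (l 10))) (c (a (b (c (l 2) (l 2)) (l 2)) (c (l 2) (l 2))) (a (c (l 2) (l 2)) (b (c (l 2) (l 2)) (c (l 2) (l 2)))))))) (c (a (b (c (l 10) (l 10)) (c (l 10) (a (l 8) (l 10)))) (c (b (l 2) (a (l 2) (l 2))) (a (l 2) (b (l 2) (l 2))))) (a (c (b (l 10) (a (l 8) (l 10))) (b (a (l 10) (l 10)) (a (l 8) (l 10)))) (c (a (b (l 2) (l 2)) (b (c (l 2) (l 2)) (l 2))) (b (a (c (l 2) (l 2)) (b (c (l 2) (l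 2)) (c (l 2) (l 2)))) (a (l 2) (b (c (l 2) (l 2)) (l 2)))))))), by decide +kernel⟩

theorem h2_2Bpk1 : ∃ t, chk3 f2Bpk1 t 1 4 3 = true :=
  ⟨(a (c (a (b (c (l 8) (l 8)) (c (l 8) (l 8))) (b (c (l 10) (a (l 8) (c (l 10) (a (l 8) (l 10))))) (c (l 8) (b (a (l 8) (c (l 8) (l 8))) (l 8))))) (b (a (c (a (l 8) (l 8)) (a (l 8) (c (l 8) (a (l 8) (l 8))))) (c (a (c (l 8) (a (l 8) (l 8))) (c (l 10) (l 10))) (a (l 8) (l 10)))) (a (c (l 8) (b (a (l 8) (c (l 8) (l 8))) (l 8))) (c (a (c (l 8) (l 8)) (c (l 8) (l 8))) (a (c (l 8) (l 8)) (c (l 8) (l 8))))))) (c (a (b (c (a (c (l 10) (a (l 10) (l 2))) (c (l 2) (l 2))) (a (c (l 10) (l 10)) (l 2))) (c (a (c (l 10) (a (l 10) (l 10))) (c (l 2) (l 2))) (a (c (l 10) (l 10)) (c (l 2) (l 2))))) (b (c (l 2) (l 2)) (c (a (c (a (l 2) (l 2)) (l 2)) (l 2)) (l 2)))) (b (a (c (l 10)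 (l 10)) (c (l 2) (l 2))) (a (c (a (c (l 10) (l 10)) (l 2)) (l 10)) (c (l 2) (l 2)))))), by decide +kernel⟩

theorem h3_2Bpk1 : ∃ t, chk3 f2Bpk1 t 2 5 3 = true :=
  ⟨(c (a (b (c (l 8) (a (l 3) (l 8))) (l 3)) (c (b (l 8) (a (l 8) (l 8))) (b (a (l 8) (l 8)) (a (l 8) (l 8))))) (a (b (a (l 3) (c (l 8) (l 8))) (l 3)) (c (a (b (l 8) (l 8)) (b (c (l 8) (l 8)) (l 8))) (b (a (c (l 8) (l 8)) (c (l 8) (l 8))) (a (l 8) (c (l 8) (a (l 8) (l 8)))))))), by decide +kernel⟩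

theorem h4_2Bpk1 : ∃ t, chk3 f2Bpk1 t 3 5 3 = true :=
  ⟨(c (a (c (a (b (l 10) (l 8)) (b (c (l 10) (l 10)) (l 10))) (b (a (c (l 10) (l 10)) (b (c (l 10) (l 10)) (c (l 10) (l 10)))) (a (l 8) (b (c (l 10) (l 10)) (l 10))))) (b (c (a (b (c (l 2) (l 2)) (c (l 2) (l 2))) (b (l 2) (c (a (l 2) (l 2)) (l 2)))) (a (b (l 2) (c (l 2) (l 2))) (l 2))) (c (a (b (c (l 2) (l 2)) (l 2)) (b (c (l 2) (l 2)) (c (l 2) (l 2)))) (a (b (c (l 2) (l 2)) (c (l 2) (l 2))) (b (l 2) (c (l 2) (l 2))))))) (a (b (c (a (c (l 10) (a (l 8) (l 10))) (b (l 10) (c (l 10) (l 10)))) (a (c (a (l 8) (l 10)) (l 10)) (l 10))) (c (a (b (c (l 8) (l 8)) (l 8)) (b (c (l 10) (l 10)) (c (l 10) (l 10)))) (a (b (c (l 8) (l 8)) (c (l 8) (l 8))) (b (l 10) (l 10))))) (b (c (a (l 2) (l 2)) (a (l 2) (l 2))) (c (a (b (l 2) (l 2)) (l 2)) (a (l 2) (l 2)))))),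 by decide +kernel⟩

theorem h5_2Bpk1 : ∃ t, chk3 f2Bpk1 t 1 6 2 = true :=
  ⟨(a (a (l 3) (b (a (l 3) (c (c (l 8) (l 8)) (c (c (l 8) (l 8)) (b (l 8) (c (l 8) (l 8)))))) (b (a (l 3) (b (a (l 3) (c (l 8) (c (l 8) (l 8)))) (l 3))) (l 3)))) (b (c (a (c (a (l 8) (c (l 10) (l 10))) (b (l 10) (a (l 8) (c (l 10) (l 10))))) (c (b (l 2) (a (c (l 10) (l 10)) (c (l 2) (l 2)))) (b (a (l 2) (l 2)) (a (c (l 10) (l 10)) (c (l 2) (l 2)))))) (a (c (b (l 10) (a (c (l 8) (l 8)) (c (l 10) (l 10)))) (b (a (l 8) (l 10)) (a (c (l 8) (l 8)) (b (l 10) (l 10))))) (c (b (a (l 2) (l 2)) (a (b (l 10) (l 10)) (c (l 2) (l 2)))) (b (a (l 2) (l 2)) (a (c (l 10) (l 10)) (c (l 2) (l 2))))))) (c (a (c (b (a (l 8) (l 10)) (a (l 8) (l 10))) (b (a (l 8) (l 10)) (a (l 8) (l 10)))) (c (b (a (l 10) (l 2)) (a (l 10) (c (l 2) (l 2)))) (a (b (l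 10) (c (l 10) (l 10))) (b (c (l 2) (l 2)) (c (l 2) (l 2)))))) (a (a (c (b (l 8) (l 8)) (b (l 8) (l 8))) (c (b (l 10) (l 10)) (b (c (l 10) (l 10)) (c (l 10) (l 10))))) (c (a (b (c (l 10) (l 10)) (c (l 10) (l 10))) (b (l 2) (l 2))) (b (a (l 10) (l 2)) (a (l 10) (l 2)))))))), by decide +kernel⟩

theorem h6_2Bpk1 : ∃ t, chk3 f2Bpk1 t 2 6 3 = true :=
  ⟨(a (l 3) (b (a (l 3) (c (c (b (l 8) (c (l 8) (l 8))) (b (l 8) (b (c (l 8) (l 8)) (l 8)))) (b (c (l 8) (l 8)) (a (l 3) (c (l 8) (l 8)))))) (b (a (l 3) (c (c (l 8) (c (l 8) (l 8))) (c (l 8) (l 8)))) (l 3)))), by decide +kernel⟩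

theorem h7_2Bpk1 : ∃ t, chk3 f2Bpk1 t 3 6 6 = true :=
  ⟨(a (b (b (c (a (l 8) (l 10)) (a (l 8) (l 10))) (a (c (b (l 8) (l 8)) (c (l 8) (l 8))) (c (c (l 10) (l 10)) (c (l 10) (l 10))))) (c (a (b (c (l 8) (l 8)) (c (l 8) (l 8))) (b (l 10) (l 10))) (b (a (l 8) (l 10)) (a (l 8) (l 10))))) (b (b (c (a (l 2) (c (l 2) (a (l 2) (l 2)))) (a (c (l 2) (a (l 2) (l 2))) (c (a (l 2) (l 2)) (l 2)))) (c (a (c (l 10) (l 10)) (c (l 2) (l 2))) (a (c (l 10) (l 10)) (c (a (l 2) (l 2)) (l 2))))) (c (b (a (l 10) (c (l 2) (l 2))) (a (l 10) (l 2))) (a (b (c (l 10) (l 10)) (l 10)) (b (c (l 2) (a (l 2) (l 2))) (c (l 2) (l 2))))))), by decide +kernel⟩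

theorem h8_2Bpk1 : ∃ t, chk3 f2Bpk1 t 3 6 7 = true :=
  ⟨(b (a (b (c (a (l 8) (c (l 10) (l 10))) (a (c (l 8) (l 8)) (c (l 10) (l 10)))) (c (a (c (l 8) (l 8)) (c (l 10) (l 10))) (a (c (l 8) (l 8)) (c (l 10) (l 10))))) (c (a (b (c (a (l 2) (l 2)) (l 2)) (c (a (l 10) (l 2)) (l 10))) (b (l 2) (l 2))) (b (a (l 2) (c (l 2) (l 2))) (a (l 10) (l 2))))) (a (c (b (a (l 8) (c (l 10) (l 10))) (a (l 8) (l 10))) (a (b (c (l 8) (l 8)) (l 8)) (b (c (l 10) (l 10)) (c (l 10) (l 10))))) (c (a (b (c (l 10) (l 10)) (c (l 10) (l 10))) (b (c (l 2) (l 2)) (c (l 2) (l 2)))) (a (b (c (l 10) (l 10)) (c (l 10) (l 10))) (c (l 2) (l 2)))))), by decide +kernel⟩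

theorem h9_2Bpk1 : ∃ t, chk3 f2Bpk1 t 2 7 1 = true :=
  ⟨(l 3), by decide +kernel⟩

theorem h10_2Bpk1 : ∃ t, chk3 f2Bpk1 t 3 7 2 = true :=
  ⟨(c (a (b (c (a (b (l 8) (l 3)) (b (l 10) (l 10))) (b (a (l 8) (l 10)) (a (l 3) (l 8)))) (a (l 3) (a (l 3) (c (c (l 8) (l 8)) (c (l 8) (l 8)))))) (b (c (b (a (l 10) (l 2)) (a (l 10) (l 2))) (a (b (c (l 10) (l 10)) (l 10)) (b (c (l 2) (l 2)) (c (l 2) (l 10))))) (c (a (b (l 10) (l 10)) (b (l 2) (l 10))) (a (b (l 10) (l 10)) (c (a (l 10) (l 2)) (a (l 10) (l 2))))))) (a (b (c (b (a (l 8) (c (l 8) (l 8))) (a (l 3) (l 8))) (a (b (c (l 8) (l 8)) (l 3)) (b (c (l 8) (l 8)) (c (l 8) (l 8))))) (a (l 3) (a (l 3) (c (c (l 8) (l 8)) (c (l 8) (l 8)))))) (b (c (a (b (c (l 10) (l 10)) (c (l 10) (l 10))) (b (c (l 2) (l 2)) (c (l 2) (l 2)))) (a (b (c (l 10) (l 10)) (c (l 10) (l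 10))) (b (l 2) (l 10)))) (c (a (c (a (l 10) (l 10)) (a (l 10) (l 10))) (b (c (l 10) (l 10)) (c (l 10) (l 10)))) (a (b (c (l 10) (l 10)) (c (l 10) (l 10))) (b (l 10) (c (l 10) (l 10)))))))), by decide +kernel⟩

theorem h11_2Bpk1 : ∃ t, chk3 f2Bpk1 t 3 7 3 = true :=
  ⟨(c (a (b (c (a (b (c (l 8) (l 8)) (l 3)) (b (c (l 8) (l 8)) (c (l 8) (l 8)))) (a (b (c (l 8) (l 8)) (l 3)) (b (l 8) (l 8)))) (a (l 3) (a (l 3) (c (c (l 8) (l 8)) (c (l 8) (l 8)))))) (b (c (a (b (l 10) (l 10)) (b (l 2) (l 10))) (a (b (l 10) (l 10)) (b (c (l 2) (l 2)) (l 10)))) (c (a (b (l 10) (c (l 10) (l 10))) (b (l 10) (l 10))) (a (b (l 10) (l 10)) (b (l 10) (l 10)))))) (a (b (c (a (b (l 8) (l 3)) (b (l 8) (l 8))) (a (b (l 8) (l 3)) (b (c (l 8) (l 8)) (l 8)))) (a (l 3) (a (l 3) (c (c (l 8) (l 8)) (c (l 8) (l 8)))))) (b (c (a (b (c (l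 10) (l 10)) (l 10)) (b (c (l 2) (l 2)) (c (l 10) (a (l 2) (l 2))))) (a (b (c (l 10) (l 10)) (c (l 10) (l 10))) (c (b (l 2) (l 10)) (l 10)))) (c (a (b (l 10) (l 10)) (b (c (l 10) (l 10)) (c (l 10) (l 10)))) (a (b (c (l 10) (l 10)) (c (l 10) (l 10))) (b (c (a (l 10) (l 2)) (l 10)) (c (a (l 10) (l 2)) (l 10)))))))), by decide +kernel⟩

theorem h12_2Bpk1 : ∃ t, chk3 f2Bpk1 t 3 7 1 = true := ex3_c h10_2Bpk1 h11_2Bpk1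

theorem h13_2Bpk1 : ∃ t, chk3 f2Bpk1 t 1 7 1 = true := ex3_a h9_2Bpk1 h12_2Bpk1

theorem h14_2Bpk1 : ∃ t, chk3 f2Bpk1 t 3 6 3 = true := ex3_c h7_2Bpk1 h8_2Bpk1

theorem h15_2Bpk1 : ∃ t, chk3 f2Bpk1 t 1 6 3 = true := ex3_a h6_2Bpk1 h14_2Bpk1

theorem h16_2Bpk1 : ∃ t, chk3 f2Bpk1 t 1 6 1 = true := ex3_c h5_2Bpk1 h15_2Bpk1

theorem h17_2Bpk1 : ∃ t, chk3 f2Bpk1 t 1 3 1 = true := ex3_b h16_2Bpk1 h13_2Bpk1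

theorem h18_2Bpk1 : ∃ t, chk3 f2Bpk1 t 1 5 3 = true := ex3_a h3_2Bpk1 h4_2Bpk1

theorem h19_2Bpk1 : ∃ t, chk3 f2Bpk1 t 1 2 3 = true := ex3_b h2_2Bpk1 h18_2Bpk1

theorem h20_2Bpk1 : ∃ t, chk3 f2Bpk1 t 1 2 2 = true := ex3_a h0_2Bpk1 h1_2Bpk1

theorem h21_2Bpk1 : ∃ t, chk3 f2Bpk1 t 1 2 1 = true := ex3_c h20_2Bpk1 h19_2Bpk1

theorem h22_2Bpk1 : ∃ t, chk3 f2Bpk1 t 1 1 1 = true := ex3_b h21_2Bpk1 h17_2Bpk1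

theorem ct_2Bpk1 : ∃ t, chk3 f2Bpk1 t 1 1 1 = true := h22_2Bpk1

noncomputable def f2Bpk2 : ℕ → ℕ → ℕ → ℕ → Bool :=
  onCell 0 41943040 0 33554432 697932185 42949674 (c2_Bpk2.row false 20971520)

theorem h0_2Bpk2 : ∃ t, chk3 f2Bpk2 t 1 2 2 = true :=
  ⟨(a (b (c (b (a (c (l 8) (l 8)) (l 10)) (a (l 8) (c (l 8) (l 8)))) (b (a (l 8) (l 10)) (a (l 8) (l 8)))) (c (a (c (l 8) (l 8)) (c (l 8) (l 8))) (a (c (l 8) (l 8)) (c (l 8) (l 8))))) (c (b (b (a (l 10) (c (l 2) (a (l 2) (c (l 2) (a (l 2) (l 2)))))) (a (l 10) (c (l 2) (b (a (l 2) (l 2)) (l 2))))) (a (c (a (l 10) (l 10)) (a (l 10) (l 10))) (c (a (l 2) (l 2)) (a (l 2) (l 2))))) (b (b (a (c (l 10) (a (l 10) (c (l 2) (l 2)))) (c (a (c (l 2) (a (l 2) (l 2))) (l 2)) (a (l 2) (l 2)))) (a (c (l 10) (a (l 10) (l 2))) (c (a (c (l 2) (l 2)) (l 2)) (a (l 2) (c (l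 2) (l 2)))))) (a (c (a (l 10) (l 10)) (a (l 10) (l 10))) (c (a (l 2) (b (l 2) (l 2))) (b (a (l 2) (c (l 2) (l 2))) (a (l 2) (c (l 2) (l 2))))))))), by decide +kernel⟩

theorem h1_2Bpk2 : ∃ t, chk3 f2Bpk2 t 1 4 3 = true :=
  ⟨(a (c (b (a (l 8) (c (l 10) (a (l 8) (c (l 10) (l 10))))) (a (c (l 8) (l 8)) (c (l 8) (a (l 8) (l 8))))) (b (a (c (l 8) (a (l 8) (c (l 8) (l 8)))) (c (a (c (l 8) (l 8)) (l 10)) (a (l 8) (l 10)))) (a (c (l 8) (a (l 8) (l 8))) (c (a (l 8) (l 8)) (a (l 8) (l 8)))))) (c (a (b (c (a (c (l 10) (l 10)) (l 2)) (a (l 10) (l 2))) (c (a (l 10) (l 2)) (a (l 10) (l 2)))) (b (l 2) (c (a (l 2) (l 2)) (l 2)))) (b (a (c (l 10) (l 10)) (c (l 2) (l 2))) (a (c (a (l 10) (l 2)) (l 10)) (c (l 2) (l 2)))))), by decide +kernel⟩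

theorem h2_2Bpk2 : ∃ t, chk3 f2Bpk2 t 1 5 3 = true :=
  ⟨(a (c (a (b (c (l 8) (l 8)) (l 3)) (c (a (l 8) (l 8)) (a (l 8) (l 8)))) (a (b (c (l 8) (l 8)) (l 3)) (c (a (l 8) (b (l 8) (l 8))) (b (a (l 8) (l 8)) (a (l 8) (l 8)))))) (c (a (c (a (l 10) (b (l 10) (l 10))) (b (a (l 10) (l 10)) (a (l 8) (l 10)))) (b (c (a (c (l 2) (l 2)) (c (l 2) (l 2))) (a (c (l 2) (l 2)) (l 2))) (c (a (l 2) (c (l 2) (l 2))) (a (c (l 2) (l 2)) (c (l 2) (l 2)))))) (a (b (c (a (l 10) (c (l 10) (l 10))) (a (l 10) (l 10))) (c (a (l 10) (c (l 10) (l 10))) (a (c (l 8) (l 8)) (c (l 10) (l 10))))) (b (c (l 2) (l 2)) (c (a (c (l 2) (l 2)) (l 2)) (l 2)))))), by decide +kernel⟩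

theorem h3_2Bpk2 : ∃ t, chk3 f2Bpk2 t 1 3 2 = true :=
  ⟨(b (a (c (a (l 3) (a (l 3) (b (l 8) (c (l 8) (l 8))))) (a (l 3) (a (l 3) (b (l 8) (b (l 8) (l 3)))))) (c (b (a (c (l 10) (l 10)) (c (l 10) (a (l 10) (l 2)))) (a (c (a (l 8) (l 10)) (b (l 10) (a (l 8) (l 10)))) (c (b (l 10) (a (l 10) (l 2))) (b (a (l 10) (l 2)) (a (l 10) (l 2)))))) (b (a (c (l 10) (a (l 8) (l 10))) (c (a (l 10) (l 2)) (l 10))) (a (c (b (l 10) (a (l 8) (l 10))) (b (l 10) (a (l 8) (l 10)))) (c (a (b (l 10) (l 10)) (c (l 2) (l 2))) (b (a (l 10) (l 2)) (a (l 10) (l 2)))))))) (a (l 3) (c (a (b (c (a (l 8) (l 10)) (a (l 8) (l 10))) (a (l 3) (c (l 10) (l 10)))) (b (c (b (a (l 10) (l 2)) (l 10)) (a (c (l 10) (l 10)) (c (l 10) (l 10)))) (c (a (l 10) (l 10)) (a (l 10) (c (l 10) (l 10)))))) (a (b (c (b (l 10) (l 10)) (a (c (l 8) (l 8))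 (c (l 10) (l 10)))) (a (l 3) (c (l 8) (c (l 8) (l 8))))) (b (c (a (c (l 10) (l 10)) (c (l 10) (l 10))) (a (c (l 10) (l 10)) (l 10))) (c (a (c (l 10) (l 10)) (c (l 10) (l 10))) (a (c (l 10) (l 10)) (c (l 10) (l 10))))))))), by decide +kernel⟩

theorem h4_2Bpk2 : ∃ t, chk3 f2Bpk2 t 1 6 3 = true :=
  ⟨(a (c (a (l 3) (a (l 3) (b (c (l 8) (l 8)) (b (c (l 8) (l 8)) (l 3))))) (a (l 3) (a (l 3) (b (c (l 8) (l 8)) (b (c (l 8) (l 8)) (l 3)))))) (c (a (b (c (a (l 8) (l 10)) (l 10)) (a (c (b (l 8) (l 8)) (c (l 8) (l 8))) (b (c (l 10) (l 10)) (c (l 10) (l 10))))) (b (c (a (l 10) (c (l 2) (l 2))) (a (c (l 10) (l 10)) (c (l 2) (l 2)))) (c (b (a (l 10) (l 2)) (l 10)) (a (b (l 10) (l 10)) (b (c (l 2) (l 2)) (l 2)))))) (b (a (c (a (l 8) (c (l 10) (l 10))) (a (c (l 8) (l 8)) (c (l 10) (l 10)))) (c (a (c (l 10) (l 10))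 (l 2)) (l 10))) (a (b (c (a (l 8) (l 10)) (a (l 8) (c (l 10) (l 10)))) (c (l 10) (a (l 8) (l 10)))) (c (a (b (c (l 10) (l 10)) (l 10)) (b (c (l 2) (l 2)) (l 2))) (a (b (l 10) (l 10)) (c (l 2) (l 2)))))))), by decide +kernel⟩

theorem h5_2Bpk2 : ∃ t, chk3 f2Bpk2 t 1 7 3 = true :=
  ⟨(a (l 3) (c (a (b (c (a (c (l 8) (l 8)) (c (l 10) (l 8))) (a (c (l 8) (l 8)) (l 10))) (a (l 3) (a (l 3) (c (l 8) (l 8))))) (b (c (a (l 10) (l 10)) (a (l 10) (c (l 2) (l 10)))) (c (a (c (l 10) (l 10)) (l 10)) (a (l 10) (l 10))))) (a (b (c (a (l 8) (l 10)) (a (l 8) (c (l 8) (l 10)))) (a (l 3) (c (l 8) (l 8)))) (b (c (a (c (l 10) (l 10)) (b (l 2) (c (l 2) (l 2)))) (a (b (l 10) (l 10)) (c (l 10) (l 2)))) (c (a (l 10) (c (l 10) (l 10))) (a (c (l 10) (l 10)) (b (l 10) (l 10)))))))), by decide +kernel⟩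

theorem h6_2Bpk2 : ∃ t, chk3 f2Bpk2 t 1 3 3 = true := ex3_b h4_2Bpk2 h5_2Bpk2

theorem h7_2Bpk2 : ∃ t, chk3 f2Bpk2 t 1 3 1 = true := ex3_c h3_2Bpk2 h6_2Bpk2

theorem h8_2Bpk2 : ∃ t, chk3 f2Bpk2 t 1 2 3 = true := ex3_b h1_2Bpk2 h2_2Bpk2

theorem h9_2Bpk2 : ∃ t, chk3 f2Bpk2 t 1 2 1 = true := ex3_c h0_2Bpk2 h8_2Bpk2

theorem h10_2Bpk2 : ∃ t, chk3 f2Bpk2 t 1 1 1 = true := ex3_b h9_2Bpk2 h7_2Bpk2

theorem ct_2Bpk2 : ∃ t, chk3 f2Bpk2 t 1 1 1 = true := h10_2Bpk2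

noncomputable def f2Bpk3 : ℕ → ℕ → ℕ → ℕ → Bool :=
  onCell 0 41943040 0 33554432 697932185 42949674 (c2_Bpk3.row false 20971520)

theorem h0_2Bpk3 : ∃ t, chk3 f2Bpk3 t 1 2 1 = true :=
  ⟨(c (a (b (c (a (l 8) (l 10)) (a (l 8) (l 10))) (c (a (l 8) (c (l 8) (l 8))) (a (c (l 8) (l 8)) (l 8)))) (c (b (a (l 10) (c (l 2) (a (l 2) (b (c (l 2) (l 2)) (l 2))))) (a (l 10) (c (l 2) (l 2)))) (b (b (a (c (l 10) (a (l 10) (l 2))) (c (a (l 2) (l 2)) (a (l 2) (l 2)))) (a (c (l 10) (l 10)) (c (a (l 2) (l 2)) (a (l 2) (l 2))))) (a (c (l 10) (l 10)) (c (a (l 2) (l 2)) (b (a (l 2) (l 2)) (l 2))))))) (a (b (c (a (l 8) (c (l 10) (b (a (l 8) (l 10)) (l 8)))) (b (a (c (l 8) (l 8)) (c (a (l 8) (l 10)) (l 10))) (a (c (l 8) (l 8)) (c (a (l 8) (l 8)) (l 8))))) (c (a (l 8) (c (l 8) (l 8))) (a (c (l 8) (l 8)) (c (a (l 8) (l 8))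 (a (l 8) (l 8)))))) (c (b (a (b (c (a (l 10) (l 2)) (l 10)) (c (a (l 10) (l 2)) (l 10))) (b (l 2) (c (a (l 2) (l 2)) (l 2)))) (a (c (a (l 10) (l 10)) (a (l 10) (l 10))) (b (c (a (l 2) (l 2)) (a (l 2) (l 2))) (c (a (l 2) (l 2)) (a (l 2) (l 2)))))) (b (a (b (l 10) (c (l 10) (l 10))) (l 2)) (a (b (c (l 10) (a (l 10) (l 10))) (c (a (l 10) (l 10)) (a (l 10) (l 10)))) (b (l 2) (c (a (l 2) (l 2)) (l 2)))))))), by decide +kernel⟩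

theorem h1_2Bpk3 : ∃ t, chk3 f2Bpk3 t 1 3 1 = true :=
  ⟨(c (a (b (a (l 3) (c (l 8) (c (l 8) (l 8)))) (l 3)) (b (c (a (c (l 10) (l 10)) (c (l 10) (a (l 10) (l 2)))) (a (c (l 10) (a (l 8) (l 10))) (c (a (l 10) (l 2)) (l 10)))) (c (a (c (l 10) (l 10)) (c (a (l 10) (l 10)) (b (l 10) (a (l 10) (l 10))))) (a (c (a (l 8) (l 10)) (b (l 10) (a (l 3) (l 10)))) (b (c (l 10) (l 10)) (c (a (l 10) (l 10)) (a (l 10) (l 10)))))))) (a (b (a (l 3) (a (l 3) (c (c (l 8) (l 8)) (l 8)))) (l 3)) (b (c (a (a (c (l 8) (l 8)) (l 10)) (b (c (a (l 2) (l 2)) (a (l 10) (l 2))) (c (l 10) (a (l 10) (l 2))))) (a (b (c (a (l 8) (l 10)) (a (l 8) (l 10))) (c (l 10) (a (l 8) (l 10)))) (b (c (a (l 10) (l 2)) (l 10)) (c (a (l 10) (l 2)) (a (l 10) (l 2)))))) (c (a (b (c (l 10) (l 10)) (a (l 3) (c (l 8) (l 8)))) (b (c (l 10) (l 10)) (c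 (a (l 10) (l 10)) (a (l 10) (l 10))))) (a (b (c (l 10) (l 10)) (a (l 3) (c (l 8) (l 8)))) (b (c (a (l 10) (l 10)) (a (l 10) (l 2))) (c (a (l 10) (l 10)) (a (l 10) (c (l 10) (l 10)))))))))), by decide +kernel⟩

theorem h2_2Bpk3 : ∃ t, chk3 f2Bpk3 t 1 1 1 = true := ex3_b h0_2Bpk3 h1_2Bpk3

theorem ct_2Bpk3 : ∃ t, chk3 f2Bpk3 t 1 1 1 = true := h2_2Bpk3

noncomputable def f2Bpk4 : ℕ → ℕ → ℕ → ℕ → Bool :=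
  onCell 0 41943040 0 33554432 697932185 42949674 (c2_Bpk4.row false 20971520)

theorem h0_2Bpk4 : ∃ t, chk3 f2Bpk4 t 1 2 1 = true :=
  ⟨(c (a (b (c (l 10) (l 10)) (c (l 8) (a (l 8) (l 8)))) (b (c (a (l 10) (c (l 2) (b (a (l 2) (l 2)) (l 2)))) (b (a (c (l 10) (l 10)) (c (a (l 2) (l 2)) (l 2))) (a (c (l 10) (l 10)) (c (a (l 2) (l 2)) (l 2))))) (c (a (l 10) (l 2)) (a (l 10) (c (a (l 2) (l 2)) (l 2)))))) (a (b (c (a (l 8) (b (c (l 10) (l 10)) (l 8))) (b (a (c (l 8) (l 8)) (c (l 10) (l 10))) (a (l 8) (c (l 8) (l 8))))) (c (a (l 8) (l 8)) (a (l 8) (c (a (l 8) (l 8)) (l 8))))) (b (c (a (c (a (l 10) (l 2)) (l 10)) (b (l 2) (c (l 2) (l 2)))) (b (l 10) (a (c (l 10) (l 10)) (l 2)))) (c (a (c (a (l 10) (l 10)) (l 10)) (b (c (l 2) (l 2)) (c (l 2) (l 2)))) (a (c (l 10) (a (l 10) (l 10))) (b (l 2) (c (l 2) (l 2)))))))),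 by decide +kernel⟩

theorem h1_2Bpk4 : ∃ t, chk3 f2Bpk4 t 1 3 1 = true :=
  ⟨(c (a (b (c (l 8) (a (l 3) (l 8))) (l 3)) (c (b (a (l 10) (c (l 10) (l 10))) (a (l 10) (c (l 10) (l 10)))) (b (a (l 10) (c (l 10) (l 10))) (a (l 10) (c (l 10) (l 10)))))) (a (b (a (l 3) (c (l 8) (c (l 8) (l 8)))) (l 3)) (c (a (b (c (l 10) (l 10)) (c (l 10) (l 10))) (b (c (a (l 10) (l 2)) (a (l 10) (l 2))) (c (l 10) (l 10)))) (b (a (c (l 10) (a (l 8) (l 10))) (b (c (l 10) (l 2)) (c (a (l 10) (l 2)) (a (l 10) (l 2))))) (a (c (l 10) (l 10)) (c (a (l 10) (l 10)) (a (l 10) (l 10)))))))), by decide +kernel⟩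

theorem h2_2Bpk4 : ∃ t, chk3 f2Bpk4 t 1 1 1 = true := ex3_b h0_2Bpk4 h1_2Bpk4

theorem ct_2Bpk4 : ∃ t, chk3 f2Bpk4 t 1 1 1 = true := h2_2Bpk4

noncomputable def f2Bm : ℕ → ℕ → ℕ → ℕ → Bool :=
  onCell 0 41943040 0 33554432 697932185 42949674 (c2_Bm.row true 20971520)

theorem h0_2Bm : ∃ t, chk3 f2Bm t 2 2 2 = true :=
  ⟨(b (c (a (b (c (l 8) (l 8)) (c (a (l 8) (l 8)) (a (l 8) (l 8)))) (b (c (l 10) (l 10)) (c (a (l 8) (l 10)) (l 10)))) (a (b (c (l 8) (l 8)) (c (l 8) (l 8))) (b (c (l 10) (l 10)) (c (l 10) (a (l 8) (l 10)))))) (c (a (b (c (a (l 8) (l 8)) (a (l 8) (l 8))) (c (a (l 8) (l 8)) (a (l 8) (l 8)))) (b (c (a (l 10) (l 10)) (l 10)) (c (l 10) (a (l 10) (l 2))))) (a (b (c (a (l 8) (l 8)) (l 8)) (c (l 8) (a (l 8) (l 8)))) (b (c (a (l 10) (l 10)) (a (l 10) (c (l 10) (l 10)))) (c (a (l 10) (c (l 2)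 (l 2))) (a (c (l 10) (l 10)) (c (l 2) (l 2)))))))), by decide +kernel⟩

theorem h1_2Bm : ∃ t, chk3 f2Bm t 3 2 4 = true :=
  ⟨(b (a (b (c (l 10) (l 10)) (c (l 2) (a (l 2) (l 2)))) (b (c (a (l 2) (b (l 2) (c (l 2) (l 2)))) (b (a (l 2) (b (b (c (a (l 2) (l 2)) (a (l 2) (l 2))) (c (a (l 2) (l 2)) (a (l 2) (l 2)))) (c (a (l 2) (l 2)) (a (l 2) (l 2))))) (a (c (l 2) (l 2)) (c (a (l 2) (c (l 2) (l 2))) (a (c (l 2) (l 2)) (l 2)))))) (c (a (l 2) (a (l 2) (l 1))) (a (c (l 2) (a (l 2) (b (l 2) (l 2)))) (b (c (a (l 2) (l 1)) (l 2)) (l 1)))))) (a (b (c (a (l 2) (l 2)) (a (l 2) (c (l 2) (l 2)))) (c (a (l 2) (c (l 2) (l 2))) (a (c (l 2) (l 2)) (c (l 2) (l 2))))) (b (a (a (c (l 2) (l 2)) (l 1)) (l 1)) (l 1)))), by decide +kernel⟩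

theorem h2_2Bm : ∃ t, chk3 f2Bm t 3 2 5 = true :=
  ⟨(b (b (a (c (a (l 10) (c (l 2) (l 2))) (b (a (l 10) (b (c (a (l 2) (l 2)) (a (l 2) (l 2))) (c (a (l 2) (l 2)) (a (l 2) (l 2))))) (a (c (l 2) (l 2)) (c (a (l 2) (l 2)) (a (l 2) (l 2)))))) (c (a (b (b (b (c (l 2) (a (l 2) (l 2))) (c (a (l 2) (l 2)) (a (l 2) (l 2)))) (c (a (l 2) (l 2)) (a (l 2) (l 2)))) (c (a (l 2) (l 2)) (a (l 2) (l 2)))) (l 2)) (l 2))) (a (c (a (l 2) (c (l 2) (a (l 2) (l 2)))) (a (c (l 2) (a (l 2) (l 2))) (c (a (l 2) (l 2)) (l 2)))) (c (a (b (c (a (l 2) (l 2)) (l 2)) (c (l 2) (l 2))) (l 2)) (l 2)))) (a (c (b (a (c (l 2) (l 2)) (c (l 2) (l 2))) (a (c (l 2) (l 2)) (c (l 2) (l 2)))) (b (a (c (l 2) (l 2)) (b (c (l 2) (l 2)) (c (l 2) (l 2)))) (a (c (l 2) (l 2)) (c (a (l 2) (l 2)) (a (l 2) (l 2)))))) (b (a (c (a (c (l 2) (l 2)) (l 1))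 (l 2)) (l 1)) (l 1)))), by decide +kernel⟩

theorem h3_2Bm : ∃ t, chk3 f2Bm t 2 2 6 = true :=
  ⟨(b (a (b (c (l 8) (l 8)) (c (l 8) (a (l 8) (l 8)))) (b (c (a (l 8) (c (l 10) (l 10))) (a (c (l 8) (l 8)) (b (b (c (l 10) (a (l 8) (l 10))) (c (l 10) (a (l 8) (l 10)))) (a (c (l 8) (l 8)) (l 10))))) (c (a (l 8) (c (l 10) (a (l 10) (l 10)))) (a (c (l 8) (a (l 8) (l 8))) (c (a (l 10) (l 10)) (l 10)))))) (a (b (c (a (l 8) (l 8)) (a (l 8) (c (l 8) (l 8)))) (c (a (l 8) (c (l 8) (l 8))) (a (c (l 8) (l 8)) (c (l 8) (l 8))))) (c (b (a (c (l 10) (l 10)) (c (l 10) (l 10))) (a (c (l 10) (l 10)) (c (l 2) (l 2)))) (b (a (c (l 10) (l 10)) (b (c (l 10) (l 10)) (c (l 10) (l 10)))) (a (c (l 10) (l 10)) (c (a (l 2) (l 2)) (l 2))))))), by decide +kernel⟩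

theorem h4_2Bm : ∃ t, chk3 f2Bm t 2 2 7 = true :=
  ⟨(b (a (b (c (a (l 8) (c (l 8) (l 8))) (b (a (l 8) (c (l 8) (a (l 8) (l 8)))) (a (c (l 8) (l 8)) (c (a (l 8) (l 8)) (l 8))))) (c (a (l 8) (c (l 8) (a (l 8) (l 8)))) (a (c (l 8) (a (l 8) (l 8))) (c (a (l 8) (l 8)) (l 8))))) (a (c (b (b (b (c (l 8) (a (l 8) (l 8))) (c (l 8) (a (l 8) (l 8)))) (c (a (l 8) (l 8)) (l 8))) (c (a (l 8) (l 8)) (l 8))) (b (l 8) (l 8))) (c (b (l 10) (l 10)) (b (l 10) (l 10))))) (a (c (b (a (c (l 8) (l 8)) (c (l 8) (l 8))) (a (c (l 8) (l 8)) (c (l 8) (l 8)))) (b (a (c (l 8) (l 8)) (b (c (l 8) (l 8)) (c (l 8) (l 8)))) (a (c (l 8) (l 8)) (c (a (l 8) (l 8)) (a (l 8) (l 8)))))) (c (a (b (b (c (l 10) (l 8)) (c (l 10) (l 10))) (c (a (l 10) (l 10)) (a (l 10) (l 10)))) (b (l 10) (l 2))) (b (a (l 10) (l 10)) (a (l 10) (l 2)))))), by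 decide +kernel⟩

theorem h5_2Bm : ∃ t, chk3 f2Bm t 3 2 3 = true :=
  ⟨(b (c (a (c (a (b (b (b (c (l 10) (a (l 10) (l 2))) (c (a (l 2) (l 2)) (a (l 2) (l 2)))) (c (a (l 2) (l 2)) (a (l 2) (l 2)))) (c (a (l 2) (l 2)) (l 2))) (l 2)) (a (l 10) (l 2))) (b (c (l 2) (l 2)) (c (l 2) (l 2)))) (b (a (c (a (l 10) (l 2)) (l 10)) (c (l 2) (l 2))) (a (c (l 2) (l 2)) (c (l 2) (l 2))))) (c (a (c (a (b (b (c (l 2) (l 2)) (c (l 2) (l 2))) (c (a (l 2) (l 2)) (a (l 2) (l 2)))) (b (l 2) (l 2))) (a (b (l 2) (l 2)) (l 2))) (b (c (l 2) (l 2)) (l 1))) (a (b (c (l 2) (l 2)) (c (l 2) (l 2))) (b (a (l 2) (l 1)) (l 1))))), by decide +kernel⟩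

theorem h6_2Bm : ∃ t, chk3 f2Bm t 2 3 2 = true :=
  ⟨(c (a (b (c (b (a (l 8) (l 10)) (a (l 8) (l 10))) (b (a (l 8) (l 10)) (a (l 8) (l 10)))) (b (c (a (l 10) (l 10)) (a (l 10) (l 10))) (c (a (l 10) (l 10)) (a (l 10) (c (l 10) (l 10)))))) (b (c (b (a (l 10) (l 2)) (a (l 2) (l 2))) (b (a (l 10) (l 2)) (a (l 10) (c (l 2) (l 2))))) (c (b (a (l 2) (c (l 2) (l 2))) (a (c (l 2) (l 2)) (l 1))) (b (a (c (l 2) (l 2)) (c (l 2) (l 2))) (a (c (l 2) (l 2)) (l 1)))))) (a (b (b (c (a (l 8) (l 10)) (a (l 8) (c (l 10) (l 10)))) (c (a (l 8) (l 10)) (a (l 8) (c (l 10) (l 10))))) (c (b (a (l 10) (c (l 10) (l 10))) (a (c (l 10) (l 10)) (c (l 10) (l 10)))) (b (a (c (l 8) (l 8)) (c (l 10) (l 10))) (a (c (l 10) (l 10)) (c (l 10) (l 10)))))) (b (b (c (a (c (l 10) (l 10)) (c (l 2) (l 2))) (a (c (l 10) (l 10)) (l 2))) (c (a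 (c (l 10) (l 10)) (l 2)) (a (l 10) (l 2)))) (c (b (a (c (l 2) (l 2)) (l 2)) (a (l 2) (l 1))) (b (a (l 2) (l 2)) (a (l 2) (l 1))))))), by decide +kernel⟩

theorem h7_2Bm : ∃ t, chk3 f2Bm t 3 3 2 = true :=
  ⟨(b (c (a (a (b (c (l 2) (c (l 2) (l 2))) (c (c (l 2) (l 2)) (l 2))) (l 1)) (l 1)) (a (a (c (b (l 2) (l 2)) (c (l 2) (b (l 2) (l 2)))) (l 1)) (l 1))) (l 1)), by decide +kernel⟩

theorem h8_2Bm : ∃ t, chk3 f2Bm t 2 3 3 = true :=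
  ⟨(c (a (b (b (c (a (c (l 8) (l 8)) (c (l 10) (l 10))) (a (c (l 8) (l 8)) (l 8))) (c (a (c (l 8) (l 8)) (l 10)) (a (l 8) (l 10)))) (c (b (a (c (l 8) (l 8)) (c (l 10) (l 10))) (a (c (l 8) (l 8)) (c (l 10) (l 10)))) (b (a (c (l 8) (l 8)) (c (l 10) (l 10))) (a (c (l 8) (l 8)) (c (l 10) (l 10)))))) (b (c (a (b (l 10) (l 10)) (c (l 2) (b (l 2) (l 2)))) (a (b (c (l 10) (l 10)) (c (l 10) (l 10))) (b (c (l 2) (l 2)) (c (l 2) (l 2))))) (c (a (b (l 10) (l 2)) (c (l 2) (l 2))) (a (b (c (l 10) (l 10)) (l 2)) (b (c (l 2) (l 2)) (l 1)))))) (b (a (b (c (a (l 8) (c (l 8) (l 8))) (a (c (l 8) (l 8)) (c (l 8) (l 8)))) (c (a (c (l 8) (l 8)) (c (l 10) (l 10))) (a (c (l 8) (l 8)) (c (l 10) (l 10))))) (c (a (b (c (l 10) (l 10)) (c (l 10) (l 10))) (l 2)) (a (l 10) (l 2)))) (a (c (a (b (c (l 8) (l 8)) (c (l 8) (l 10))) (b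 (c (l 10) (l 10)) (c (l 10) (l 10)))) (a (b (c (l 8) (l 8)) (c (l 10) (l 10))) (b (c (l 10) (l 10)) (c (l 10) (l 10))))) (c (a (b (c (l 10) (l 2)) (c (l 2) (l 2))) (l 2)) (b (a (l 2) (l 2)) (a (l 2) (l 1))))))), by decide +kernel⟩

theorem h9_2Bm : ∃ t, chk3 f2Bm t 3 3 3 = true :=
  ⟨(b (a (a (c (c (b (c (l 2) (l 2)) (c (l 2) (l 2))) (l 2)) (c (l 2) (l 2))) (l 1)) (l 1)) (l 1)), by decide +kernel⟩

theorem h10_2Bm : ∃ t, chk3 f2Bm t 1 3 3 = true := ex3_a h8_2Bm h9_2Bm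

theorem h11_2Bm : ∃ t, chk3 f2Bm t 1 3 2 = true := ex3_a h6_2Bm h7_2Bm

theorem h12_2Bm : ∃ t, chk3 f2Bm t 1 3 1 = true := ex3_c h11_2Bm h10_2Bm

theorem h13_2Bm : ∃ t, chk3 f2Bm t 2 2 3 = true := ex3_c h3_2Bm h4_2Bm

theorem h14_2Bm : ∃ t, chk3 f2Bm t 1 2 3 = true := ex3_a h13_2Bm h5_2Bm

theorem h15_2Bm : ∃ t, chk3 f2Bm t 3 2 2 = true := ex3_c h1_2Bm h2_2Bm

theorem h16_2Bm : ∃ t, chk3 f2Bm t 1 2 2 = true := ex3_a h0_2Bm h15_2Bm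

theorem h17_2Bm : ∃ t, chk3 f2Bm t 1 2 1 = true := ex3_c h16_2Bm h14_2Bm

theorem h18_2Bm : ∃ t, chk3 f2Bm t 1 1 1 = true := ex3_b h17_2Bm h12_2Bm

theorem ct_2Bm : ∃ t, chk3 f2Bm t 1 1 1 = true := h18_2Bm

end Pool.Agent.Strip051.G.I6500_6900.Tab.Mo
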