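import Pool.Agent.Strip051.PB.StripQF
import Pool.Agent.Strip051.PB.StripC
import Pool.Agent.Strip051.G.I6500_6900.Fact

/-! # Facts about the strips of a table (generated) -/

set_option linter.all false
set_option maxRecDepth 4000

namespace Pool.Agent.Strip051.G.I6500_6900.Tab.St

open Pool.Agent.Strip051.PB Pool.Agent.StripNear Pool.Agent.Strip051.LC
open Pool.Agent.Strip051.G.I6500_6900.Tab

noncomputable def sl1 : Fn1 := ⟨_, _, fun h1 => (enc_norm (enc_subr 940720231 20000000 (enc_scale 19832377 200000 (enc_subr 67 100 h1))))⟩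
noncomputable def sv1 : Fn1 := ⟨_, _, fun h1 => (enc_norm (enc_subr 2215521217 200000000 (enc_scale 6816093 312500 (enc_subr 67 100 h1))))⟩
noncomputable def sw1 : Fn1 := ⟨_, _, fun h1 => (enc_norm (enc_subr 50798693 1000000 (enc_scale 5508983 50000 (enc_subr 67 100 h1))))⟩
noncomputable def sl2 : Fn1 := ⟨_, _, fun h1 => (enc_norm (enc_subr 90847391 20000000 (enc_neg (enc_scale 9323 2000000 (enc_subr 67 100 h1)))))⟩
noncomputable def sv2 : Fn1 := ⟨_, _, fun h1 => (enc_norm (enc_subr 37913417 25000000 (enc_neg (enc_scale 5009757 10000000 (enc_subr 67 100 h1)))))⟩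
noncomputable def sw2 : Fn1 := ⟨_, _, fun h1 => (enc_norm (enc_subr 716707 200000 (enc_neg (enc_scale 539 100000 (enc_subr 67 100 h1)))))⟩
noncomputable def sl3 : Fn1 := ⟨_, _, fun h1 => (enc_norm (enc_subr 443991167 20000000 (enc_scale 61 50000 (enc_subr 67 100 h1))))⟩
noncomputable def sv3 : Fn1 := ⟨_, _, fun h1 => (enc_norm (enc_subr 126199361 25000000 (enc_neg (enc_scale 4997991 10000000 (enc_subr 67 100 h1)))))⟩
noncomputable def sw3 : Fn1 := ⟨_, _, fun h1 => (enc_norm (enc_subr 25655021 1000000 (enc_scale 49 25000 (enc_subr 67 100 h1))))⟩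
noncomputable def sl4 : Fn1 := ⟨_, _, fun h1 => (enc_norm (enc_sub (enc_rat _ 217028981 10000000) (enc_scale 101 250000 (enc_subr 67 100 h1))))⟩
noncomputable def sv4 : Fn1 := ⟨_, _, fun h1 => (enc_norm (enc_sub (enc_rat _ 263495543 100000000) (enc_scale 5000833 10000000 (enc_subr 67 100 h1))))⟩
noncomputable def sw4 : Fn1 := ⟨_, _, fun h1 => (enc_norm (enc_sub (enc_rat _ 18531387 500000) (enc_scale 9 25000 (enc_subr 67 100 h1))))⟩
noncomputable def sl5 : Fn1 := ⟨_, _, fun h1 => (enc_norm (enc_subr 62866823 20000000 (enc_scale 1821 2000000 (enc_subr 67 100 h1))))⟩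
noncomputable def sv5 : Fn1 := ⟨_, _, fun h1 => (enc_norm (enc_subr 218396087 200000000 (enc_neg (enc_scale 9997721 20000000 (enc_subr 67 100 h1)))))⟩
noncomputable def sw5 : Fn1 := ⟨_, _, fun h1 => (enc_norm (enc_subr 34781 8000 (enc_scale 183 100000 (enc_subr 67 100 h1))))⟩
noncomputable def sl6 : Fn1 := ⟨_, _, fun h1 => (enc_norm (enc_add (enc_scale 156557 2000000 (enc_subr 67 100 h1)) (enc_rat _ 426182437 20000000)))⟩
noncomputable def sv6 : Fn1 := ⟨_, _, fun h1 => (enc_norm (enc_sub (enc_rat _ 12278609 6250000) (enc_scale 4902153 10000000 (enc_subr 67 100 h1))))⟩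
noncomputable def sw6 : Fn1 := ⟨_, _, fun h1 => (enc_norm (enc_add (enc_scale 15657 100000 (enc_subr 67 100 h1)) (enc_rat _ 44557301 1000000)))⟩
noncomputable def sl7 : Fn1 := ⟨_, _, fun h1 => (enc_norm (enc_subr 209403 156250 (enc_neg (enc_scale 43837 400000 (enc_subr 67 100 h1)))))⟩
noncomputable def sv7 : Fn1 := ⟨_, _, fun h1 => (enc_norm (enc_subr 6007053 20000000 (enc_neg (enc_scale 5090023 10000000 (enc_subr 67 100 h1)))))⟩
noncomputable def sw7 : Fn1 := ⟨_, _, fun h1 => (enc_norm (enc_subr 377061 31250 (enc_neg (enc_scale 31311 100000 (enc_subr 67 100 h1)))))⟩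
noncomputable def sl8 : Fn1 := ⟨_, _, fun h1 => (enc_norm (enc_add (enc_scale 3003131 100000 (enc_subr 67 100 h1)) (enc_rat _ 3206517 2500000)))⟩
noncomputable def sv8 : Fn1 := ⟨_, _, fun h1 => (enc_norm (enc_subr 1036437 10000000 (enc_scale 3503131 2000000 (enc_subr 67 100 h1))))⟩
noncomputable def sw8 : Fn1 := ⟨_, _, fun h1 => (enc_norm (enc_subr 830833 250000 (enc_scale 1251957 12500 (enc_subr 67 100 h1))))⟩
noncomputable def sl9 : Fn1 := ⟨_, _, fun h1 => (enc_norm (enc_sub (enc_rat _ 38248833 10000000) (enc_scale 2499999 250000 (enc_subr 67 100 h1))))⟩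
noncomputable def sv9 : Fn1 := ⟨_, _, fun h1 => (enc_norm (enc_sub (enc_rat _ 2347013 100000000) (enc_scale 2499999 10000000 (enc_subr 67 100 h1))))⟩
noncomputable def sw9 : Fn1 := ⟨_, _, fun h1 => (enc_norm (enc_sub (enc_rat _ 187761 20000) (enc_scale 2499999 25000 (enc_subr 67 100 h1))))⟩
noncomputable def sl10 : Fn1 := ⟨_, _, fun h1 => (enc_rat _ 14430391 5000000)⟩
noncomputable def sv10 : Fn1 := ⟨_, _, fun h1 => (enc_pnc _ 0)⟩
noncomputable def sl11 : Fn1 := ⟨_, _, fun h1 => (enc_norm (enc_sub (enc_rat _ 38248833 10000000) (enc_scale 2499999 250000 (enc_subr 67 100 h1))))⟩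
noncomputable def sv11 : Fn1 := ⟨_, _, fun h1 => (enc_norm (enc_subr 2347013 100000000 (enc_scale 2499999 10000000 (enc_subr 67 100 h1))))⟩
noncomputable def sw11 : Fn1 := ⟨_, _, fun h1 => (enc_norm (enc_subr 187761 20000 (enc_scale 2499999 25000 (enc_subr 67 100 h1))))⟩
noncomputable def sl12 : Fn1 := ⟨_, _, fun h1 => (enc_norm (enc_add (enc_scale 3003131 100000 (enc_subr 67 100 h1)) (enc_rat _ 3206517 2500000)))⟩
noncomputable def sv12 : Fn1 := ⟨_, _, fun h1 => (enc_norm (enc_sub (enc_rat _ 1036437 10000000) (enc_scale 3503131 2000000 (enc_subr 67 100 h1))))⟩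
noncomputable def sw12 : Fn1 := ⟨_, _, fun h1 => (enc_norm (enc_sub (enc_rat _ 830833 250000) (enc_scale 1251957 12500 (enc_subr 67 100 h1))))⟩
noncomputable def sl13 : Fn1 := ⟨_, _, fun h1 => (enc_norm (enc_subr 209403 156250 (enc_neg (enc_scale 43837 400000 (enc_subr 67 100 h1)))))⟩
noncomputable def sv13 : Fn1 := ⟨_, _, fun h1 => (enc_norm (enc_add (enc_scale 5090023 10000000 (enc_subr 67 100 h1)) (enc_rat _ 6007053 20000000)))⟩
noncomputable def sw13 : Fn1 := ⟨_, _, fun h1 => (enc_norm (enc_add (enc_scale 31311 100000 (enc_subr 67 100 h1)) (enc_rat _ 377061 31250)))⟩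
noncomputable def sl14 : Fn1 := ⟨_, _, fun h1 => (enc_norm (enc_add (enc_scale 156557 2000000 (enc_subr 67 100 h1)) (enc_rat _ 426182437 20000000)))⟩
noncomputable def sv14 : Fn1 := ⟨_, _, fun h1 => (enc_norm (enc_subr 12278609 6250000 (enc_scale 4902153 10000000 (enc_subr 67 100 h1))))⟩
noncomputable def sw14 : Fn1 := ⟨_, _, fun h1 => (enc_norm (enc_subr 44557301 1000000 (enc_neg (enc_scale 15657 100000 (enc_subr 67 100 h1)))))⟩
noncomputable def sl15 : Fn1 := ⟨_, _, fun h1 => (enc_norm (enc_subr 62866823 20000000 (enc_scale 1821 2000000 (enc_subr 67 100 h1))))⟩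
noncomputable def sv15 : Fn1 := ⟨_, _, fun h1 => (enc_norm (enc_add (enc_scale 9997721 20000000 (enc_subr 67 100 h1)) (enc_rat _ 218396087 200000000)))⟩
noncomputable def sw15 : Fn1 := ⟨_, _, fun h1 => (enc_norm (enc_sub (enc_rat _ 34781 8000) (enc_scale 183 100000 (enc_subr 67 100 h1))))⟩
noncomputable def sl16 : Fn1 := ⟨_, _, fun h1 => (enc_norm (enc_sub (enc_rat _ 217028981 10000000) (enc_scale 101 250000 (enc_subr 67 100 h1))))⟩
noncomputable def sv16 : Fn1 := ⟨_, _, fun h1 => (enc_norm (enc_subr 263495543 100000000 (enc_scale 5000833 10000000 (enc_subr 67 100 h1))))⟩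
noncomputable def sw16 : Fn1 := ⟨_, _, fun h1 => (enc_norm (enc_subr 18531387 500000 (enc_scale 9 25000 (enc_subr 67 100 h1))))⟩
noncomputable def sl17 : Fn1 := ⟨_, _, fun h1 => (enc_norm (enc_subr 443991167 20000000 (enc_scale 61 50000 (enc_subr 67 100 h1))))⟩
noncomputable def sv17 : Fn1 := ⟨_, _, fun h1 => (enc_norm (enc_add (enc_scale 4997991 10000000 (enc_subr 67 100 h1)) (enc_rat _ 126199361 25000000)))⟩
noncomputable def sw17 : Fn1 := ⟨_, _, fun h1 => (enc_norm (enc_sub (enc_rat _ 25655021 1000000) (enc_scale 49 25000 (enc_subr 67 100 h1))))⟩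
noncomputable def sl18 : Fn1 := ⟨_, _, fun h1 => (enc_norm (enc_subr 90847391 20000000 (enc_neg (enc_scale 9323 2000000 (enc_subr 67 100 h1)))))⟩
noncomputable def sv18 : Fn1 := ⟨_, _, fun h1 => (enc_norm (enc_add (enc_scale 5009757 10000000 (enc_subr 67 100 h1)) (enc_rat _ 37913417 25000000)))⟩
noncomputable def sw18 : Fn1 := ⟨_, _, fun h1 => (enc_norm (enc_add (enc_scale 539 100000 (enc_subr 67 100 h1)) (enc_rat _ 716707 200000)))⟩
noncomputable def sl19 : Fn1 := ⟨_, _, fun h1 => (enc_norm (enc_subr 940720231 20000000 (enc_scale 19832377 200000 (enc_subr 67 100 h1))))⟩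
noncomputable def sv19 : Fn1 := ⟨_, _, fun h1 => (enc_norm (enc_sub (enc_rat _ 2215521217 200000000) (enc_scale 6816093 312500 (enc_subr 67 100 h1))))⟩
noncomputable def sw19 : Fn1 := ⟨_, _, fun h1 => (enc_norm (enc_sub (enc_rat _ 50798693 1000000) (enc_scale 5508983 50000 (enc_subr 67 100 h1))))⟩
noncomputable def sl38 : Fn1 := ⟨_, _, fun h1 => (enc_norm (enc_sub (enc_rat _ 88849259 60000000) (enc_scale 208305059 15000000 (enc_subr 67 100 h1))))⟩
noncomputable def sv38 : Fn1 := ⟨_, _, fun h1 => (enc_norm (enc_sub (enc_rat _ 46904909 120000000) (enc_scale 85710209 30000000 (enc_subr 67 100 h1))))⟩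
noncomputable def sw38 : Fn1 := ⟨_, _, fun h1 => (enc_norm (enc_sub (enc_rat _ 279629 200000) (enc_scale 817299 50000 (enc_subr 67 100 h1))))⟩
noncomputable def sl39 : Fn1 := ⟨_, _, fun h1 => (enc_norm (enc_sub (enc_rat _ 175166453 300000000) (enc_scale 283222243 30000000 (enc_subr 67 100 h1))))⟩
noncomputable def sv39 : Fn1 := ⟨_, _, fun h1 => (enc_norm (enc_sub (enc_rat _ 1350713011 7500000000) (enc_scale 1359102041 750000000 (enc_subr 67 100 h1))))⟩
noncomputable def sw39 : Fn1 := ⟨_, _, fun h1 => (enc_norm (enc_sub (enc_rat _ 443961 1000000) (enc_scale 1161591 100000 (enc_subr 67 100 h1))))⟩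
noncomputable def sl40 : Fn1 := ⟨_, _, fun h1 => (enc_norm (enc_subr 146064801 50000000 (enc_scale 26417051 10000000 (enc_subr 67 100 h1))))⟩
noncomputable def sv40 : Fn1 := ⟨_, _, fun h1 => (enc_norm (enc_subr 147761357 250000000 (enc_scale 42300137 50000000 (enc_subr 67 100 h1))))⟩
noncomputable def sw40 : Fn1 := ⟨_, _, fun h1 => (enc_norm (enc_subr 3539203 1000000 (enc_scale 105707 50000 (enc_subr 67 100 h1))))⟩
noncomputable def sl41 : Fn1 := ⟨_, _, fun h1 => (enc_norm (enc_sub (enc_rat _ 25665819 50000000) (enc_scale 3354343 500000 (enc_subr 67 100 h1))))⟩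
noncomputable def sv41 : Fn1 := ⟨_, _, fun h1 => (enc_norm (enc_sub (enc_rat _ 23969243 250000000) (enc_scale 10240753 10000000 (enc_subr 67 100 h1))))⟩
noncomputable def sw41 : Fn1 := ⟨_, _, fun h1 => (enc_norm (enc_sub (enc_rat _ 754063 1000000) (enc_scale 191477 20000 (enc_subr 67 100 h1))))⟩
noncomputable def sl42 : Fn1 := ⟨_, _, fun h1 => (enc_norm (enc_subr 125218237 300000000 (enc_neg (enc_scale 12661789 10000000 (enc_subr 67 100 h1)))))⟩
noncomputable def sv42 : Fn1 := ⟨_, _, fun h1 => (enc_norm (enc_subr 179127127 2500000000 (enc_neg (enc_scale 5553041 125000000 (enc_subr 67 100 h1)))))⟩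
noncomputable def sw42 : Fn1 := ⟨_, _, fun h1 => (enc_norm (enc_subr 538591 1000000 (enc_neg (enc_scale 201481 100000 (enc_subr 67 100 h1)))))⟩
noncomputable def sl43 : Fn1 := ⟨_, _, fun h1 => (enc_norm (enc_add (enc_scale 86717889 10000000 (enc_subr 67 100 h1)) (enc_rat _ 29172059 25000000)))⟩
noncomputable def sv43 : Fn1 := ⟨_, _, fun h1 => (enc_norm (enc_add (enc_scale 1595340029 1000000000 (enc_subr 67 100 h1)) (enc_rat _ 474386899 2500000000)))⟩
noncomputable def sw43 : Fn1 := ⟨_, _, fun h1 => (enc_norm (enc_add (enc_scale 81517 6250 (enc_subr 67 100 h1)) (enc_rat _ 465457 250000)))⟩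
noncomputable def sl44 : Fn1 := ⟨_, _, fun h1 => (enc_norm (enc_add (enc_scale 14662103 2000000 (enc_subr 67 100 h1)) (enc_rat _ 114490307 100000000)))⟩
noncomputable def sv44 : Fn1 := ⟨_, _, fun h1 => (enc_norm (enc_add (enc_scale 56037337 40000000 (enc_subr 67 100 h1)) (enc_rat _ 37313547 200000000)))⟩
noncomputable def sw44 : Fn1 := ⟨_, _, fun h1 => (enc_norm (enc_add (enc_scale 107311 10000 (enc_subr 67 100 h1)) (enc_rat _ 1823933 1000000)))⟩
noncomputable def sl45 : Fn1 := ⟨_, _, fun h1 => (enc_norm (enc_sub (enc_rat _ 39253883 20000000) (enc_scale 15154097 2500000 (enc_subr 67 100 h1))))⟩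
noncomputable def sv45 : Fn1 := ⟨_, _, fun h1 => (enc_norm (enc_sub (enc_rat _ 28879163 100000000) (enc_scale 2731529 10000000 (enc_subr 67 100 h1))))⟩
noncomputable def sw45 : Fn1 := ⟨_, _, fun h1 => (enc_norm (enc_sub (enc_rat _ 691903 200000) (enc_scale 401357 25000 (enc_subr 67 100 h1))))⟩
noncomputable def sl46 : Fn1 := ⟨_, _, fun h1 => (enc_norm (enc_sub (enc_rat _ 70760887 150000000) (enc_scale 14752949 3750000 (enc_subr 67 100 h1))))⟩
noncomputable def sv46 : Fn1 := ⟨_, _, fun h1 => (enc_norm (enc_sub (enc_rat _ 165301727 1250000000) (enc_scale 97194 1953125 (enc_subr 67 100 h1))))⟩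
noncomputable def sw46 : Fn1 := ⟨_, _, fun h1 => (enc_norm (enc_subr 45189 500000 (enc_neg (enc_scale 274719 25000 (enc_subr 67 100 h1)))))⟩
noncomputable def sl47 : Fn1 := ⟨_, _, fun h1 => (enc_norm (enc_subr 1563199 25000000 (enc_neg (enc_scale 10604 15625 (enc_subr 67 100 h1)))))⟩
noncomputable def sv47 : Fn1 := ⟨_, _, fun h1 => (enc_norm (enc_add (enc_scale 3040353 12500000 (enc_subr 67 100 h1)) (enc_rat _ 105196643 1250000000)))⟩
noncomputable def sw47 : Fn1 := ⟨_, _, fun h1 => (enc_norm (enc_subr 1574453 1000000 (enc_neg (enc_scale 9729 5000 (enc_subr 67 100 h1)))))⟩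
noncomputable def sl48 : Fn1 := ⟨_, _, fun h1 => (enc_norm (enc_sub (enc_rat _ 3618881 12500000) (enc_scale 20368393 5000000 (enc_subr 67 100 h1))))⟩
noncomputable def sv48 : Fn1 := ⟨_, _, fun h1 => (enc_norm (enc_add (enc_scale 139421 25000000 (enc_subr 67 100 h1)) (enc_rat _ 13600001 125000000)))⟩
noncomputable def sw48 : Fn1 := ⟨_, _, fun h1 => (enc_norm (enc_subr 317173 1000000 (enc_neg (enc_scale 1407089 100000 (enc_subr 67 100 h1)))))⟩
noncomputable def sl49 : Fn1 := ⟨_, _, fun h1 => (enc_norm (enc_sub (enc_rat _ 5185993 100000000) (enc_scale 1730521 250000 (enc_subr 67 100 h1))))⟩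
noncomputable def sv49 : Fn1 := ⟨_, _, fun h1 => (enc_norm (enc_sub (enc_rat _ 96917493 1000000000) (enc_scale 342109 2500000 (enc_subr 67 100 h1))))⟩
noncomputable def sw49 : Fn1 := ⟨_, _, fun h1 => (enc_norm (enc_subr 1505427 1000000 (enc_neg (enc_scale 283129 10000 (enc_subr 67 100 h1)))))⟩
noncomputable def sl50 : Fn1 := ⟨_, _, fun h1 => (enc_norm (enc_sub (enc_rat _ 19576611 100000000) (enc_scale 135497 400000 (enc_subr 67 100 h1))))⟩
noncomputable def sv50 : Fn1 := ⟨_, _, fun h1 => (enc_norm (enc_add (enc_scale 242627 4000000 (enc_subr 67 100 h1)) (enc_rat _ 506173377 5000000000)))⟩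
noncomputable def sw50 : Fn1 := ⟨_, _, fun h1 => (enc_norm (enc_subr 9569 31250 (enc_scale 106193 4000 (enc_subr 67 100 h1))))⟩
noncomputable def sl51_2 : Fn1 := ⟨_, _, fun h1 => (enc_subr 67 100 h1)⟩
noncomputable def sl51 : Fn1 := ⟨_, _, fun h1 => (enc_norm (enc_sub (enc_sub (enc_rat _ 19691389 100000000) (enc_scale 7622347 7500000 (sl51_2.enc h1))) (enc_scale 2033 250000 (enc_sq (enc_norm (sl51_2.enc h1))))))⟩
noncomputable def sv51_2 : Fn1 := ⟨_, _, fun h1 => (enc_subr 67 100 h1)⟩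
noncomputable def sv51 : Fn1 := ⟨_, _, fun h1 => (enc_norm (enc_add (enc_add (enc_scale 40410769 750000000 (sv51_2.enc h1)) (enc_rat _ 506230761 5000000000)) (enc_scale 2033 12500000 (enc_sq (enc_norm (sv51_2.enc h1))))))⟩
noncomputable def sw51_2 : Fn1 := ⟨_, _, fun h1 => (enc_subr 67 100 h1)⟩
noncomputable def sw51 : Fn1 := ⟨_, _, fun h1 => (enc_norm (enc_sub (enc_subr 277511 1000000 (enc_scale 120113 12500 (sw51_2.enc h1))) (enc_scale 2033 2500 (enc_sq (enc_norm (sw51_2.enc h1))))))⟩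
noncomputable def sl52_2 : Fn1 := ⟨_, _, fun h1 => (enc_subr 67 100 h1)⟩
noncomputable def sl52 : Fn1 := ⟨_, _, fun h1 => (enc_norm (enc_sub (enc_sub (enc_rat _ 1740049076531039131 9033773937450000000) (enc_scale 556105078873398389 451688696872500000 (sl52_2.enc h1))) (enc_scale 6541303630407 65891859500000 (enc_sq (enc_norm (sl52_2.enc h1))))))⟩
noncomputable def sv52_2 : Fn1 := ⟨_, _, fun h1 => (enc_subr 67 100 h1)⟩
noncomputable def sv52 : Fn1 := ⟨_, _, fun h1 => (enc_norm (enc_add (enc_add (enc_scale 496453802594105497 9033773937450000000 (sv52_2.enc h1)) (enc_rat _ 9148289864419105061 90337739374500000000)) (enc_scale 109205635669 131783719000000 (enc_sq (enc_norm (sv52_2.enc h1))))))⟩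
noncomputable def sw52_2 : Fn1 := ⟨_, _, fun h1 => (enc_subr 67 100 h1)⟩
noncomputable def sw52 : Fn1 := ⟨_, _, fun h1 => (enc_norm (enc_add (enc_subr 31309 500000 (enc_scale 127199 6250 (sw52_2.enc h1))) (enc_scale 8203 5000 (enc_sq (enc_norm (sw52_2.enc h1))))))⟩
noncomputable def sl54_2 : Fn1 := ⟨_, _, fun h1 => (enc_subr 67 100 h1)⟩
noncomputable def sl54 : Fn1 := ⟨_, _, fun h1 => (enc_norm (enc_add (enc_add (enc_scale 37131402253 27636000000 (sl54_2.enc h1)) (enc_rat _ 37790193746873 48363000000000)) (enc_scale 3876899957 117500000 (enc_sq (enc_norm (sl54_2.enc h1))))))⟩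
noncomputable def sv54_2 : Fn1 := ⟨_, _, fun h1 => (enc_subr 67 100 h1)⟩
noncomputable def sv54 : Fn1 := ⟨_, _, fun h1 => (enc_norm (enc_sub (enc_sub (enc_rat _ 3097600791007 48363000000000) (enc_scale 9667499957 345450000000 (sv54_2.enc h1))) (enc_scale 447099057 235000000 (enc_sq (enc_norm (sv54_2.enc h1))))))⟩
noncomputable def sw54_2 : Fn1 := ⟨_, _, fun h1 => (enc_subr 67 100 h1)⟩
noncomputable def sw54 : Fn1 := ⟨_, _, fun h1 => (enc_norm (enc_sub (enc_subr 2828017 1000000 (enc_neg (enc_scale 13499 4000 (sw54_2.enc h1)))) (enc_scale 327037 2500 (enc_sq (enc_norm (sw54_2.enc h1))))))⟩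
noncomputable def sl55_2 : Fn1 := ⟨_, _, fun h1 => (enc_subr 67 100 h1)⟩
noncomputable def sl55 : Fn1 := ⟨_, _, fun h1 => (enc_norm (enc_sub (enc_add (enc_scale 3510587441 1850000000 (sl55_2.enc h1)) (enc_rat _ 35435546779 37000000000)) (enc_scale 246767037 10000000 (enc_sq (enc_norm (sl55_2.enc h1))))))⟩
noncomputable def sv55_2 : Fn1 := ⟨_, _, fun h1 => (enc_subr 67 100 h1)⟩
noncomputable def sv55 : Fn1 := ⟨_, _, fun h1 => (enc_norm (enc_add (enc_sub (enc_rat _ 9190427021 185000000000) (enc_scale 676529891 9250000000 (sv55_2.enc h1))) (enc_scale 110807237 50000000 (enc_sq (enc_norm (sv55_2.enc h1))))))⟩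
noncomputable def sw55_2 : Fn1 := ⟨_, _, fun h1 => (enc_subr 67 100 h1)⟩
noncomputable def sw55 : Fn1 := ⟨_, _, fun h1 => (enc_norm (enc_add (enc_subr 3368909 1000000 (enc_neg (enc_scale 253711 50000 (sw55_2.enc h1)))) (enc_scale 679799 10000 (enc_sq (enc_norm (sw55_2.enc h1))))))⟩
noncomputable def sl56 : Fn1 := ⟨_, _, fun h1 => (enc_norm (enc_subr 1167739 2000000 (enc_scale 5564263 2000000 (enc_subr 67 100 h1))))⟩
noncomputable def sv56 : Fn1 := ⟨_, _, fun h1 => (enc_norm (enc_sub (enc_rat _ 2038367 10000000) (enc_scale 1615901 10000000 (enc_subr 67 100 h1))))⟩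
noncomputable def sw56 : Fn1 := ⟨_, _, fun h1 => (enc_norm (enc_sub (enc_rat _ 242529 500000) (enc_scale 728551 100000 (enc_subr 67 100 h1))))⟩
noncomputable def sl57 : Fn1 := ⟨_, _, fun h1 => (enc_norm (enc_subr 299489 625000 (enc_neg (enc_scale 10735833 2000000 (enc_subr 67 100 h1)))))⟩
noncomputable def sv57 : Fn1 := ⟨_, _, fun h1 => (enc_norm (enc_add (enc_scale 17143313 20000000 (enc_subr 67 100 h1)) (enc_rat _ 476877 2500000)))⟩
noncomputable def sw57 : Fn1 := ⟨_, _, fun h1 => (enc_norm (enc_add (enc_scale 901459 100000 (enc_subr 67 100 h1)) (enc_rat _ 68921 250000)))⟩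
noncomputable def sl58 : Fn1 := ⟨_, _, fun h1 => (enc_norm (enc_sub (enc_rat _ 3250013 10000000) (enc_scale 4287179 2000000 (enc_subr 67 100 h1))))⟩
noncomputable def sv58 : Fn1 := ⟨_, _, fun h1 => (enc_norm (enc_add (enc_scale 1494067 4000000 (enc_subr 67 100 h1)) (enc_rat _ 7012323 100000000)))⟩
noncomputable def sw58 : Fn1 := ⟨_, _, fun h1 => (enc_norm (enc_subr 532311 500000 (enc_scale 364071 100000 (enc_subr 67 100 h1))))⟩
noncomputable def sl59 : Fn1 := ⟨_, _, fun h1 => (enc_norm (enc_subr 21406137 20000000 (enc_scale 6676669 1000000 (enc_subr 67 100 h1))))⟩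
noncomputable def sv59 : Fn1 := ⟨_, _, fun h1 => (enc_norm (enc_sub (enc_rat _ 1571511 5000000) (enc_scale 2925071 2500000 (enc_subr 67 100 h1))))⟩
noncomputable def sw59 : Fn1 := ⟨_, _, fun h1 => (enc_norm (enc_sub (enc_rat _ 37147 40000) (enc_scale 447983 50000 (enc_subr 67 100 h1))))⟩
noncomputable def sl60 : Fn1 := ⟨_, _, fun h1 => (enc_norm (enc_sub (enc_rat _ 269311 800000) (enc_scale 5536343 2000000 (enc_subr 67 100 h1))))⟩
noncomputable def sv60 : Fn1 := ⟨_, _, fun h1 => (enc_norm (enc_add (enc_scale 3594699 5000000 (enc_subr 67 100 h1)) (enc_rat _ 822827 25000000)))⟩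
noncomputable def sw60 : Fn1 := ⟨_, _, fun h1 => (enc_norm (enc_subr 830007 1000000 (enc_scale 284639 100000 (enc_subr 67 100 h1))))⟩
noncomputable def sl61 : Fn1 := ⟨_, _, fun h1 => (enc_norm (enc_subr 9601523 5000000 (enc_scale 6977217 500000 (enc_subr 67 100 h1))))⟩
noncomputable def sv61 : Fn1 := ⟨_, _, fun h1 => (enc_norm (enc_sub (enc_rat _ 5407253 10000000) (enc_scale 3043647 1000000 (enc_subr 67 100 h1))))⟩
noncomputable def sw61 : Fn1 := ⟨_, _, fun h1 => (enc_norm (enc_sub (enc_rat _ 419427 250000) (enc_scale 393357 25000 (enc_subr 67 100 h1))))⟩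
noncomputable def skf0 : Fn2 := ⟨_, _, fun h1 h2 => (enc_norm (enc_add (bf1q0.enc h1 h2) (enc_mul (enc_norm (enc_sub (enc_mul (c1g.enc h1) (bf1q0.enc h1 h2)) (kf0q0.enc h1 h2))) (enc_inv (enc_sub (cv1m.enc h1) (c1g.enc h1))))))⟩
noncomputable def sxf0 : Fn2 := ⟨_, _, fun h1 h2 => (enc_norm (enc_mul (enc_norm (enc_sub (l1q0.enc h1 h2) (l0q0.enc h1 h2))) (enc_inv (enc_sub (cv1m.enc h1) (c1g.enc h1)))))⟩
noncomputable def skl0 : Fn2 := ⟨_, _, fun h1 h2 => (enc_norm (enc_add (bf6q0.enc h1 h2) (enc_mul (enc_norm (enc_sub (kf7q0.enc h1 h2) (enc_mul (c3g.enc h1) (bf6q0.enc h1 h2)))) (enc_inv (enc_sub (c3g.enc h1) (cv6m.enc h1))))))⟩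
noncomputable def sxl0 : Fn2 := ⟨_, _, fun h1 h2 => (enc_norm (enc_mul (enc_norm (enc_sub (l7q0.enc h1 h2) (l6q0.enc h1 h2))) (enc_inv (enc_sub (c3g.enc h1) (cv6m.enc h1)))))⟩
noncomputable def skf1 : Fn2 := ⟨_, _, fun h1 h2 => (enc_norm (enc_add (bf1q1.enc h1 h2) (enc_mul (enc_norm (enc_sub (enc_mul (c1g.enc h1) (bf1q1.enc h1 h2)) (kf0q1.enc h1 h2))) (enc_inv (enc_sub (cv1m.enc h1) (c1g.enc h1))))))⟩
noncomputable def sxf1 : Fn2 := ⟨_, _, fun h1 h2 => (enc_norm (enc_mul (enc_norm (enc_sub (l1q1.enc h1 h2) (l0q1.enc h1 h2))) (enc_inv (enc_sub (cv1m.enc h1) (c1g.enc h1)))))⟩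
noncomputable def skl1 : Fn2 := ⟨_, _, fun h1 h2 => (enc_norm (enc_add (bf6q1.enc h1 h2) (enc_mul (enc_norm (enc_sub (kf7q1.enc h1 h2) (enc_mul (c3g.enc h1) (bf6q1.enc h1 h2)))) (enc_inv (enc_sub (c3g.enc h1) (cv6m.enc h1))))))⟩
noncomputable def sxl1 : Fn2 := ⟨_, _, fun h1 h2 => (enc_norm (enc_mul (enc_norm (enc_sub (l7q1.enc h1 h2) (l6q1.enc h1 h2))) (enc_inv (enc_sub (c3g.enc h1) (cv6m.enc h1)))))⟩
noncomputable def skf2 : Fn2 := ⟨_, _, fun h1 h2 => (enc_norm (enc_add (bf1q2.enc h1 h2) (enc_mul (enc_norm (enc_add (enc_mul (c1g.enc h1) (enc_norm (enc_subn 1 (bf1q2.enc h1 h2)))) (enc_mul (enc_norm (enc_subn 1 h1)) (kcg.enc (c1g.enc h1) h2)))) (enc_inv (enc_sub (cv1p.enc h1) (c1g.enc h1))))))⟩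
noncomputable def sxf2 : Fn2 := ⟨_, _, fun h1 h2 => (enc_norm (enc_mul (enc_norm (enc_sub (l1q2.enc h1 h2) (l0q2.enc h1 h2))) (enc_inv (enc_sub (cv1p.enc h1) (c1g.enc h1)))))⟩
noncomputable def skl2 : Fn2 := ⟨_, _, fun h1 h2 => (enc_norm (enc_add (bf6q2.enc h1 h2) (enc_mul (enc_norm (enc_sub (kf7q2.enc h1 h2) (enc_mul (c3g.enc h1) (bf6q2.enc h1 h2)))) (enc_inv (enc_sub (c3g.enc h1) (cv6p.enc h1))))))⟩
noncomputable def sxl2 : Fn2 := ⟨_, _, fun h1 h2 => (enc_norm (enc_mul (enc_norm (enc_sub (l7q2.enc h1 h2) (l6q2.enc h1 h2))) (enc_inv (enc_sub (c3g.enc h1) (cv6p.enc h1)))))⟩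
noncomputable def skl3 : Fn2 := ⟨_, _, fun h1 h2 => (enc_norm (enc_add (bf6q3.enc h1 h2) (enc_mul (enc_norm (enc_sub (kf7q3.enc h1 h2) (enc_mul (c3g.enc h1) (bf6q3.enc h1 h2)))) (enc_inv (enc_sub (c3g.enc h1) (cv6r.enc h1))))))⟩
noncomputable def sxl3 : Fn2 := ⟨_, _, fun h1 h2 => (enc_norm (enc_mul (enc_norm (enc_sub (l7q3.enc h1 h2) (l6q3.enc h1 h2))) (enc_inv (enc_sub (c3g.enc h1) (cv6r.enc h1)))))⟩
noncomputable def rhk : Fn2 := ⟨_, _, fun h1 h2 => (enc_norm (enc_mul (enc_norm (enc_sub (bf1q2.enc h1 h2) (n0b.enc h1 h2))) (enc_norm (enc_mul (cv1p.enc h1) (enc_inv (enc_sub (cv1p.enc h1) (c1g.enc h1)))))))⟩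
noncomputable def rhx : Fn2 := ⟨_, _, fun h1 h2 => (enc_norm (enc_mul (enc_norm (enc_sub (bx1q2.enc h1 h2) (n0x.enc h1 h2))) (enc_norm (enc_mul (cv1p.enc h1) (enc_inv (enc_sub (cv1p.enc h1) (c1g.enc h1)))))))⟩
noncomputable def sbk : Fn1 := ⟨_, _, fun h1 => (enc_norm (enc_add (enc_scale 28279 2300 (enc_subr 67 100 h1)) (enc_rat _ 17459 28750)))⟩
noncomputable def sbx : Fn1 := ⟨_, _, fun h1 => (enc_norm (enc_sub (enc_rat _ 9359 5000) (enc_scale 43251 2875 (enc_subr 67 100 h1))))⟩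
noncomputable def frw : Fn1 := ⟨_, _, fun h1 => (enc_norm (enc_scale 1 10 (enc_sub (enc_subr 1 2 (swg.enc h1)) (c1g.enc h1))))⟩
noncomputable def q1k : Fn1 := ⟨_, _, fun h1 => (enc_norm (enc_sub (enc_rat _ 8861 25000) (enc_scale 13503 1250 (enc_subr 67 100 h1))))⟩
noncomputable def q1x : Fn1 := ⟨_, _, fun h1 => (enc_norm (enc_subr 7181 50000 (enc_scale 5633 2500 (enc_subr 67 100 h1))))⟩
noncomputable def a2k0 : Fn1 := ⟨_, _, fun h1 => (enc_norm (enc_sub (enc_rat _ 17221 31250) (enc_scale 8821 6250 (enc_subr 67 100 h1))))⟩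
noncomputable def a2k1 : Fn1 := ⟨_, _, fun h1 => (enc_norm (enc_add (enc_scale 104811 5000 (enc_subr 67 100 h1)) (enc_rat _ 5031 50000)))⟩
noncomputable def b2k0 : Fn1 := ⟨_, _, fun h1 => (enc_norm (enc_sub (enc_rat _ 137699 250000) (enc_scale 67507 50000 (enc_subr 67 100 h1))))⟩
noncomputable def b2k1 : Fn1 := ⟨_, _, fun h1 => (enc_norm (enc_subr 80281 29000 (enc_scale 246319 11600 (enc_subr 67 100 h1))))⟩
noncomputable def a2x0 : Fn1 := ⟨_, _, fun h1 => (enc_norm (enc_subr 97909 250000 (enc_scale 151963 100000 (enc_subr 67 100 h1))))⟩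
noncomputable def a2x1 : Fn1 := ⟨_, _, fun h1 => (enc_norm (enc_sub (enc_rat _ 4071 6250) (enc_scale 20369 5000 (enc_subr 67 100 h1))))⟩
noncomputable def b2x0 : Fn1 := ⟨_, _, fun h1 => (enc_norm (enc_subr 196101 500000 (enc_scale 156049 100000 (enc_subr 67 100 h1))))⟩
noncomputable def b2x1 : Fn1 := ⟨_, _, fun h1 => (enc_norm (enc_sub (enc_rat _ 221497 116000) (enc_scale 1847 464 (enc_subr 67 100 h1))))⟩
noncomputable def k0c : Fn1 := ⟨_, _, fun h1 => (enc_rat _ 14430391 5000000)⟩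
noncomputable def m0c_2 : Fn1 := ⟨_, _, fun h1 => (enc_subr 67 100 h1)⟩
noncomputable def m0c : Fn1 := ⟨_, _, fun h1 => (enc_norm (enc_add (enc_subr 19691389 50000000 (enc_scale 7622347 3750000 (m0c_2.enc h1))) (enc_scale 2033 125000 (enc_sq (enc_norm (m0c_2.enc h1))))))⟩
noncomputable def sl85_2 : Fn1 := ⟨_, _, fun h1 => (enc_subr 67 100 h1)⟩
noncomputable def sl85 : Fn1 := ⟨_, _, fun h1 => (enc_norm (enc_add (enc_sub (enc_rat _ 98390551845566821 18067547874900000000) (enc_scale 278670522227028509 602251595830000000 (sl85_2.enc h1))) (enc_scale 5469638427499 65891859500000 (enc_sq (enc_norm (sl85_2.enc h1))))))⟩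
noncomputable def sv85_2 : Fn1 := ⟨_, _, fun h1 => (enc_subr 67 100 h1)⟩
noncomputable def sv85 : Fn1 := ⟨_, _, fun h1 => (enc_norm (enc_add (enc_sub (enc_rat _ 29781424717985237 903377393745000000000) (enc_scale 103011129372629581 18067547874900000000 (sv85_2.enc h1))) (enc_scale 109205635669 131783719000000 (enc_sq (enc_norm (sv85_2.enc h1))))))⟩
noncomputable def sw85_2 : Fn1 := ⟨_, _, fun h1 => (enc_subr 67 100 h1)⟩
noncomputable def sw85 : Fn1 := ⟨_, _, fun h1 => (enc_norm (enc_add (enc_sub (enc_rat _ 24359 100000) (enc_scale 619641 100000 (sw85_2.enc h1))) (enc_scale 8203 5000 (enc_sq (enc_norm (sw85_2.enc h1))))))⟩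
noncomputable def sl86_2 : Fn1 := ⟨_, _, fun h1 => (enc_subr 67 100 h1)⟩
noncomputable def sl86 : Fn1 := ⟨_, _, fun h1 => (enc_norm (enc_add (enc_add (enc_scale 3032750450043659 14115271777265625 (sl86_2.enc h1)) (enc_rat _ 77652981745714099 18067547874900000000)) (enc_scale 6005471028953 65891859500000 (enc_sq (enc_norm (sl86_2.enc h1))))))⟩
noncomputable def sv86_2 : Fn1 := ⟨_, _, fun h1 => (enc_subr 67 100 h1)⟩
noncomputable def sv86 : Fn1 := ⟨_, _, fun h1 => (enc_norm (enc_add (enc_add (enc_scale 24262000536889079 22584434843625000000 (sv86_2.enc h1)) (enc_rat _ 19413543045452621 903377393745000000000)) (enc_scale 2194308290271 3294592975000000 (enc_sq (enc_norm (sv86_2.enc h1))))))⟩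
noncomputable def sw86_2 : Fn1 := ⟨_, _, fun h1 => (enc_subr 67 100 h1)⟩
noncomputable def sw86 : Fn1 := ⟨_, _, fun h1 => (enc_norm (enc_add (enc_add (enc_scale 26857 2500 (sw86_2.enc h1)) (enc_rat _ 214893 1000000)) (enc_scale 12269 5000 (enc_sq (enc_norm (sw86_2.enc h1))))))⟩
noncomputable def sl87 : Fn1 := ⟨_, _, fun h1 => (enc_pnc _ 0)⟩
noncomputable def sv87 : Fn1 := ⟨_, _, fun h1 => (enc_pnc _ 0)⟩
noncomputable def sl88_2 : Fn1 := ⟨_, _, fun h1 => (enc_subr 67 100 h1)⟩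
noncomputable def sl88 : Fn1 := ⟨_, _, fun h1 => (enc_norm (enc_add (enc_add (enc_scale 3032750450043659 14115271777265625 (sl88_2.enc h1)) (enc_rat _ 77652981745714099 18067547874900000000)) (enc_scale 6005471028953 65891859500000 (enc_sq (enc_norm (sl88_2.enc h1))))))⟩
noncomputable def sv88_2 : Fn1 := ⟨_, _, fun h1 => (enc_subr 67 100 h1)⟩
noncomputable def sv88 : Fn1 := ⟨_, _, fun h1 => (enc_norm (enc_sub (enc_subr 19413543045452621 903377393745000000000 (enc_neg (enc_scale 24262000536889079 22584434843625000000 (sv88_2.enc h1)))) (enc_scale 2194308290271 3294592975000000 (enc_sq (enc_norm (sv88_2.enc h1))))))⟩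
noncomputable def sw88_2 : Fn1 := ⟨_, _, fun h1 => (enc_subr 67 100 h1)⟩
noncomputable def sw88 : Fn1 := ⟨_, _, fun h1 => (enc_norm (enc_sub (enc_subr 214893 1000000 (enc_neg (enc_scale 26857 2500 (sw88_2.enc h1)))) (enc_scale 12269 5000 (enc_sq (enc_norm (sw88_2.enc h1))))))⟩
noncomputable def sl89_2 : Fn1 := ⟨_, _, fun h1 => (enc_subr 67 100 h1)⟩
noncomputable def sl89 : Fn1 := ⟨_, _, fun h1 => (enc_norm (enc_add (enc_sub (enc_rat _ 98390551845566821 18067547874900000000) (enc_scale 278670522227028509 602251595830000000 (sl89_2.enc h1))) (enc_scale 5469638427499 65891859500000 (enc_sq (enc_norm (sl89_2.enc h1))))))⟩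
noncomputable def sv89_2 : Fn1 := ⟨_, _, fun h1 => (enc_subr 67 100 h1)⟩
noncomputable def sv89 : Fn1 := ⟨_, _, fun h1 => (enc_norm (enc_sub (enc_subr 29781424717985237 903377393745000000000 (enc_scale 103011129372629581 18067547874900000000 (sv89_2.enc h1))) (enc_scale 109205635669 131783719000000 (enc_sq (enc_norm (sv89_2.enc h1))))))⟩
noncomputable def sw89_2 : Fn1 := ⟨_, _, fun h1 => (enc_subr 67 100 h1)⟩
noncomputable def sw89 : Fn1 := ⟨_, _, fun h1 => (enc_norm (enc_sub (enc_subr 24359 100000 (enc_scale 619641 100000 (sw89_2.enc h1))) (enc_scale 8203 5000 (enc_sq (enc_norm (sw89_2.enc h1))))))⟩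
noncomputable def kqf : Fn2 := ⟨_, _, fun h1 h2 => (enc_norm (enc_mul (enc_norm (enc_subn 1 h1)) (enc_norm (enc_case (enc_subr 1 20 (c1g.enc h1)) (enc_rat _ 14430391 5000000) (enc_mul (kcg.enc (c1g.enc h1) h2) (enc_inv (c1g.enc h1)))))))⟩
noncomputable def skm : Fn2 := ⟨_, _, fun h1 h2 => (enc_norm (enc_sub (enc_mul (enc_norm (enc_mul (cv1p.enc h1) (enc_inv (enc_sub (cv1p.enc h1) (c1g.enc h1))))) (enc_norm (enc_add (enc_subn 1 (bf1q2.enc h1 h2)) (kqf.enc h1 h2)))) (kqf.enc h1 h2)))⟩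
noncomputable def cv1pA : Fn2 := ⟨_, _, fun h1 h2 => (enc_norm (enc_add (enc_scale 9 10 h1) (enc_scale 1 10 (enc_subr 1 2 (swg.enc h2)))))⟩
noncomputable def cv2pA : Fn2 := ⟨_, _, fun h1 h2 => (enc_norm (enc_add (enc_scale 7 10 h1) (enc_scale 3 10 (enc_subr 1 2 (swg.enc h2)))))⟩
noncomputable def cv3pA : Fn2 := ⟨_, _, fun h1 h2 => (enc_norm (enc_add (enc_scale 2 5 h1) (enc_scale 3 5 (enc_subr 1 2 (swg.enc h2)))))⟩
noncomputable def cv4pA : Fn2 := ⟨_, _, fun h1 h2 => (enc_norm (enc_add (enc_scale 1 10 h1) (enc_scale 9 10 (enc_subr 1 2 (swg.enc h2)))))⟩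
noncomputable def lm4pA : Fn3 := ⟨_, _, fun h1 h2 h3 => (enc_lam (enc_norm (enc_sub h1 (cv4pA.enc h2 h3))) (enc_sub (cv5p.enc h3) (cv4pA.enc h2 h3)))⟩
noncomputable def bf4q2A_3 : Fn3 := ⟨_, _, fun h1 h2 h3 => (enc_subr 67 100 h3)⟩
noncomputable def bf4q2A : Fn3 := ⟨_, _, fun h1 h2 h3 => (enc_norm (enc_case (enc_subr 1 4 h1) (enc_case (enc_subr 1 10 h1) (enc_case (enc_subr 1 20 h1) (enc_add (enc_add (enc_scale 31421 50000 h1) (enc_rat _ 665257 1000000)) (enc_mul (enc_norm (bf4q2A_3.enc h1 h2 h3)) (enc_norm (enc_subr 6579 20000 (enc_scale 2143 1250 h1))))) (enc_add (enc_add (enc_scale 1323 2000 h1) (enc_rat _ 663603 1000000)) (enc_mul (enc_norm (bf4q2A_3.enc h1 h2 h3)) (enc_norm (enc_subr 29819 100000 (enc_scale 687 625 h1)))))) (enc_case (enc_subr 3 20 h1) (enc_add (enc_add (enc_scale 34687 50000 h1) (enc_rat _ 660379 1000000)) (enc_mul (enc_norm (bf4q2A_3.enc h1 h2 h3)) (enc_norm (enc_subr 22477 100000 (enc_scale 73 200 h1))))) (enc_case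 (enc_subr 1 5 h1) (enc_add (enc_add (enc_scale 283 400 h1) (enc_rat _ 131663 200000)) (enc_mul (enc_norm (bf4q2A_3.enc h1 h2 h3)) (enc_norm (enc_subr 1717 10000 (enc_scale 7 625 h1))))) (enc_add (enc_add (enc_scale 35413 50000 h1) (enc_rat _ 658163 1000000)) (enc_mul (enc_norm (bf4q2A_3.enc h1 h2 h3)) (enc_norm (enc_subr 1547 10000 (enc_neg (enc_scale 369 5000 h1))))))))) (enc_case (enc_subr 7 20 h1) (enc_case (enc_subr 3 10 h1) (enc_add (enc_add (enc_scale 34839 50000 h1) (enc_rat _ 661033 1000000)) (enc_mul (enc_norm (bf4q2A_3.enc h1 h2 h3)) (enc_norm (enc_subr 49 250 (enc_scale 457 5000 h1))))) (enc_add (enc_add (enc_scale 6771 10000 h1) (enc_rat _ 666937 1000000)) (enc_mul (enc_norm (bf4q2A_3.enc h1 h2 h3)) (enc_norm (enc_subr 7609 25000 (enc_scale 2263 5000 h1)))))) (enc_case (enc_subr 2 5 h1) (enc_add (enc_add (enc_scale 33163 50000 h1) (enc_rat _ 671781 1000000)) (enc_mul (enc_norm (bf4q2A_3.enc h1 h2 h3)) (enc_norm (enc_subr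 22477 50000 (enc_scale 4337 5000 h1))))) (enc_case (enc_subr 9 20 h1) (enc_add (enc_add (enc_scale 32401 50000 h1) (enc_rat _ 677877 1000000)) (enc_mul (enc_norm (bf4q2A_3.enc h1 h2 h3)) (enc_norm (enc_subr 27497 50000 (enc_scale 699 625 h1))))) (enc_add (enc_add (enc_scale 15257 25000 h1) (enc_rat _ 34743 50000)) (enc_mul (enc_norm (bf4q2A_3.enc h1 h2 h3)) (enc_norm (enc_subr 2333 5000 (enc_scale 2333 2500 h1))))))))))⟩
noncomputable def lm3pA : Fn3 := ⟨_, _, fun h1 h2 h3 => (enc_lam (enc_norm (enc_sub h1 (cv3pA.enc h2 h3))) (enc_sub (cv4pA.enc h2 h3) (cv3pA.enc h2 h3)))⟩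
noncomputable def bf3q2A_3 : Fn3 := ⟨_, _, fun h1 h2 h3 => (enc_subr 67 100 h3)⟩
noncomputable def bf3q2A : Fn3 := ⟨_, _, fun h1 h2 h3 => (enc_norm (enc_case (enc_subr 1 4 h1) (enc_case (enc_subr 1 10 h1) (enc_case (enc_subr 1 20 h1) (enc_add (enc_add (enc_scale 9099 12500 h1) (enc_rat _ 273827 500000)) (enc_mul (enc_norm (bf3q2A_3.enc h1 h2 h3)) (enc_norm (enc_subr 51523 100000 (enc_scale 1797 200 h1))))) (enc_add (enc_add (enc_scale 5189 6250 h1) (enc_rat _ 271269 500000)) (enc_mul (enc_norm (bf3q2A_3.enc h1 h2 h3)) (enc_norm (enc_subr 39453 100000 (enc_scale 6571 1000 h1)))))) (enc_case (enc_subr 3 20 h1) (enc_add (enc_add (enc_scale 24781 25000 h1) (enc_rat _ 263219 500000)) (enc_mul (enc_norm (bf3q2A_3.enc h1 h2 h3)) (enc_norm (enc_add (enc_scale 8359 5000 h1) (enc_rat _ 9539 100000))))) (enc_case (enc_subr 1 5 h1) (enc_add (enc_add (enc_scale 52473 50000 h1) (enc_rat _ 103541 200000)) (enc_mul (enc_norm (bf3q2A_3.enc h1 h2 h3))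 (enc_norm (enc_sub (enc_rat _ 3017 6250) (enc_scale 569 625 h1))))) (enc_add (enc_add (enc_scale 53059 50000 h1) (enc_rat _ 515361 1000000)) (enc_mul (enc_norm (bf3q2A_3.enc h1 h2 h3)) (enc_norm (enc_sub (enc_rat _ 8579 12500) (enc_scale 4821 2500 h1)))))))) (enc_case (enc_subr 7 20 h1) (enc_case (enc_subr 3 10 h1) (enc_add (enc_add (enc_scale 52459 50000 h1) (enc_rat _ 518361 1000000)) (enc_mul (enc_norm (bf3q2A_3.enc h1 h2 h3)) (enc_norm (enc_sub (enc_rat _ 71207 100000) (enc_scale 10157 5000 h1))))) (enc_add (enc_add (enc_scale 50119 50000 h1) (enc_rat _ 532401 1000000)) (enc_mul (enc_norm (bf3q2A_3.enc h1 h2 h3)) (enc_norm (enc_sub (enc_rat _ 11713 20000) (enc_scale 161 100 h1)))))) (enc_case (enc_subr 2 5 h1) (enc_add (enc_add (enc_scale 45759 50000 h1) (enc_rat _ 562921 1000000)) (enc_mul (enc_norm (bf3q2A_3.enc h1 h2 h3)) (enc_norm (enc_sub (enc_rat _ 6547 20000) (enc_scale 109 125 h1))))) (enc_case (enc_subr 9 20 h1) (enc_add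 (enc_add (enc_scale 759 1000 h1) (enc_rat _ 625393 1000000)) (enc_mul (enc_norm (bf3q2A_3.enc h1 h2 h3)) (enc_norm (enc_subr 1353 100000 (enc_neg (enc_scale 99 5000 h1)))))) (enc_add (enc_add (enc_scale 33057 50000 h1) (enc_rat _ 66943 100000)) (enc_mul (enc_norm (bf3q2A_3.enc h1 h2 h3)) (enc_norm (enc_subr 561 2500 (enc_scale 561 1250 h1))))))))))⟩
noncomputable def lm2pA : Fn3 := ⟨_, _, fun h1 h2 h3 => (enc_lam (enc_norm (enc_sub h1 (cv2pA.enc h2 h3))) (enc_sub (cv3pA.enc h2 h3) (cv2pA.enc h2 h3)))⟩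
noncomputable def bf2q2A_3 : Fn3 := ⟨_, _, fun h1 h2 h3 => (enc_subr 67 100 h3)⟩
noncomputable def bf2q2A : Fn3 := ⟨_, _, fun h1 h2 h3 => (enc_norm (enc_case (enc_subr 1 4 h1) (enc_case (enc_subr 1 10 h1) (enc_case (enc_subr 1 20 h1) (enc_add (enc_add (enc_scale 5031 50000 h1) (enc_rat _ 17221 31250)) (enc_mul (enc_norm (bf2q2A_3.enc h1 h2 h3)) (enc_norm (enc_subr 8821 6250 (enc_scale 104811 5000 h1))))) (enc_add (enc_add (enc_scale 14127 25000 h1) (enc_rat _ 527849 1000000)) (enc_mul (enc_norm (bf2q2A_3.enc h1 h2 h3)) (enc_norm (enc_subr 17579 20000 (enc_scale 5157 500 h1)))))) (enc_case (enc_subr 3 20 h1) (enc_add (enc_add (enc_scale 9481 10000 h1) (enc_rat _ 489547 1000000)) (enc_mul (enc_norm (bf2q2A_3.enc h1 h2 h3)) (enc_norm (enc_subr 2951 20000 (enc_nat 3 h1))))) (enc_case (enc_subr 1 5 h1) (enc_add (enc_add (enc_scale 27833 25000 h1) (enc_rat _ 116191 250000)) (enc_mul (enc_norm (bf2q2A_3.enc h1 h2 h3)) (enc_norm (enc_add (enc_scale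 32 625 h1) (enc_rat _ 29477 100000))))) (enc_add (enc_add (enc_scale 59417 50000 h1) (enc_rat _ 2811 6250)) (enc_mul (enc_norm (bf2q2A_3.enc h1 h2 h3)) (enc_norm (enc_sub (enc_rat _ 11141 20000) (enc_scale 6301 5000 h1)))))))) (enc_case (enc_subr 7 20 h1) (enc_case (enc_subr 3 10 h1) (enc_add (enc_add (enc_scale 61103 50000 h1) (enc_rat _ 44133 100000)) (enc_mul (enc_norm (bf2q2A_3.enc h1 h2 h3)) (enc_norm (enc_sub (enc_rat _ 859 1250) (enc_scale 1113 625 h1))))) (enc_add (enc_add (enc_scale 61299 50000 h1) (enc_rat _ 220077 500000)) (enc_mul (enc_norm (bf2q2A_3.enc h1 h2 h3)) (enc_norm (enc_sub (enc_rat _ 7103 10000) (enc_scale 9289 5000 h1)))))) (enc_case (enc_subr 2 5 h1) (enc_add (enc_add (enc_scale 29609 25000 h1) (enc_rat _ 454721 1000000)) (enc_mul (enc_norm (bf2q2A_3.enc h1 h2 h3)) (enc_norm (enc_sub (enc_rat _ 53173 100000) (enc_scale 3369 2500 h1))))) (enc_case (enc_subr 9 20 h1) (enc_add (enc_add (enc_scale 40991 50000 h1)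 (enc_rat _ 600537 1000000)) (enc_mul (enc_norm (bf2q2A_3.enc h1 h2 h3)) (enc_norm (enc_sub (enc_rat _ 4317 100000) (enc_scale 631 5000 h1))))) (enc_add (enc_add (enc_scale 1909 3125 h1) (enc_rat _ 4341 6250)) (enc_mul (enc_norm (bf2q2A_3.enc h1 h2 h3)) (enc_norm (enc_subr 681 5000 (enc_scale 681 2500 h1))))))))))⟩
noncomputable def lm1pA : Fn3 := ⟨_, _, fun h1 h2 h3 => (enc_lam (enc_norm (enc_sub h1 (cv1pA.enc h2 h3))) (enc_sub (cv2pA.enc h2 h3) (cv1pA.enc h2 h3)))⟩
noncomputable def bf1q2A_3 : Fn3 := ⟨_, _, fun h1 h2 h3 => (enc_subr 67 100 h3)⟩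
noncomputable def bf1q2A : Fn3 := ⟨_, _, fun h1 h2 h3 => (enc_norm (enc_add (enc_sub (enc_pnc _ 1) (enc_scale 14430391 5000000 (enc_subn 1 h2))) (enc_case (enc_subr 1 4 h1) (enc_case (enc_subr 1 10 h1) (enc_case (enc_subr 1 20 h1) (enc_sub (enc_scale 8861 25000 h1) (enc_mul (enc_norm (bf1q2A_3.enc h1 h2 h3)) (enc_scale 13503 1250 h1))) (enc_add (enc_subr 63 125000 (enc_scale 9113 25000 h1)) (enc_mul (enc_norm (bf1q2A_3.enc h1 h2 h3)) (enc_norm (enc_subr 379 4000 (enc_neg (enc_scale 44537 5000 h1))))))) (enc_case (enc_subr 3 20 h1) (enc_add (enc_sub (enc_rat _ 821 15625) (enc_scale 4149 25000 h1)) (enc_mul (enc_norm (bf1q2A_3.enc h1 h2 h3)) (enc_norm (enc_subr 39289 20000 (enc_scale 12237 1250 h1))))) (enc_case (enc_subr 1 5 h1) (enc_add (enc_sub (enc_rat _ 13603 200000) (enc_scale 2691 10000 h1)) (enc_mul (enc_norm (bf1q2A_3.enc h1 h2 h3)) (enc_norm (enc_subr 28693 12500 (enc_scale 59981 5000 h1))))) (enc_add (enc_subr 140133 1000000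 (enc_scale 19291 25000 h1)) (enc_mul (enc_norm (bf1q2A_3.enc h1 h2 h3)) (enc_norm (enc_sub (enc_rat _ 237 1000) (enc_scale 333 500 h1)))))))) (enc_case (enc_subr 7 20 h1) (enc_case (enc_subr 3 10 h1) (enc_add (enc_subr 139983 1000000 (enc_scale 4819 6250 h1)) (enc_mul (enc_norm (bf1q2A_3.enc h1 h2 h3)) (enc_norm (enc_sub (enc_rat _ 9219 20000) (enc_scale 7809 5000 h1))))) (enc_add (enc_subr 98817 1000000 (enc_scale 31691 50000 h1)) (enc_mul (enc_norm (bf1q2A_3.enc h1 h2 h3)) (enc_norm (enc_sub (enc_rat _ 32817 100000) (enc_scale 1399 1250 h1)))))) (enc_case (enc_subr 2 5 h1) (enc_add (enc_sub (enc_rat _ 129887 1000000) (enc_scale 981 50000 h1)) (enc_mul (enc_norm (bf1q2A_3.enc h1 h2 h3)) (enc_norm (enc_subr 6831 100000 (enc_scale 17 1250 h1))))) (enc_case (enc_subr 9 20 h1) (enc_add (enc_sub (enc_rat _ 506639 1000000) (enc_scale 1923 2000 h1)) (enc_mul (enc_norm (bf1q2A_3.enc h1 h2 h3)) (enc_norm (enc_subr 45023 100000 (enc_scale 2421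 2500 h1))))) (enc_add (enc_sub (enc_rat _ 18491 25000) (enc_scale 18491 12500 h1)) (enc_mul (enc_norm (bf1q2A_3.enc h1 h2 h3)) (enc_norm (enc_subr 289 2000 (enc_scale 289 1000 h1)))))))))))⟩
noncomputable def lm0pA : Fn3 := ⟨_, _, fun h1 h2 h3 => (enc_lam (enc_norm (enc_sub h1 h2)) (enc_sub (cv1pA.enc h2 h3) h2))⟩
noncomputable def rkbq2A : Fn4Q := ⟨_, _, fun h1 h2 h3 h4 => (enc_case (enc_sub h1 (cv1pA.enc h2 h3)) (enc_add (enc_mul h1 (bf1q2A.enc h2 h3 h4)) (enc_mul (enc_norm (enc_sub (enc_pnc _ 1) (lm0pA.enc h1 h2 h3))) (enc_norm (enc_mul h2 (enc_norm (enc_sub (n0b.enc h3 h4) (bf1q2A.enc h2 h3 h4))))))) (enc_case (enc_sub h1 (cv2pA.enc h2 h3)) (enc_add (enc_mul h1 (bf2q2A.enc h2 h3 h4)) (enc_mul (enc_norm (enc_mul (enc_norm (enc_sub (enc_pnc _ 1) (lm1pA.enc h1 h2 h3))) (cv1pA.enc h2 h3))) (enc_norm (enc_sub (bf1q2A.enc h2 h3 h4) (bf2q2A.enc h2 h3 h4))))) (enc_case (enc_sub h1 (cv3pA.enc h2 h3)) (enc_add (enc_mul h1 (bf3q2A.enc h2 h3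 h4)) (enc_mul (enc_norm (enc_mul (enc_norm (enc_sub (enc_pnc _ 1) (lm2pA.enc h1 h2 h3))) (cv2pA.enc h2 h3))) (enc_norm (enc_sub (bf2q2A.enc h2 h3 h4) (bf3q2A.enc h2 h3 h4))))) (enc_case (enc_sub h1 (cv4pA.enc h2 h3)) (enc_add (enc_mul h1 (bf4q2A.enc h2 h3 h4)) (enc_mul (enc_norm (enc_mul (enc_norm (enc_sub (enc_pnc _ 1) (lm3pA.enc h1 h2 h3))) (cv3pA.enc h2 h3))) (enc_norm (enc_sub (bf3q2A.enc h2 h3 h4) (bf4q2A.enc h2 h3 h4))))) (enc_case (enc_sub h1 (cv5p.enc h3)) (enc_add (enc_mul h1 (bf5q2.enc h3 h4)) (enc_mul (enc_norm (enc_mul (enc_norm (enc_sub (enc_pnc _ 1) (lm4pA.enc h1 h2 h3))) (cv4pA.enc h2 h3))) (enc_norm (enc_sub (bf4q2A.enc h2 h3 h4) (bf5q2.enc h3 h4))))) (enc_case (enc_sub h1 (cv6p.enc h3)) (enc_add (enc_mul h1 (bf6q2.enc h3 h4)) (enc_mul (enc_norm (enc_mul (enc_norm (enc_sub (enc_pnc _ 1) (lm5p.enc h1 h3))) (cv5p.enc h3))) (enc_norm (enc_sub (bf5q2.enc h3 h4) (bf6q2.enc h3 h4))))) (enc_add (kf6q2.enc h3 h4) (enc_mul (lm6p.enc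 h1 h3) (enc_norm (enc_sub (kf7q2.enc h3 h4) (kf6q2.enc h3 h4)))))))))))⟩
noncomputable def rsbq2A : Fn4Q := ⟨_, _, fun h1 h2 h3 h4 => (enc_case h1 (enc_neg (rkbq2A.enc (enc_neg h1) h2 h3 h4)) (rkbq2A.enc h1 h2 h3 h4))⟩
noncomputable def bx4q2A_3 : Fn3 := ⟨_, _, fun h1 h2 h3 => (enc_subr 67 100 h3)⟩
noncomputable def bx4q2A : Fn3 := ⟨_, _, fun h1 h2 h3 => (enc_norm (enc_case (enc_subr 1 4 h1) (enc_case (enc_subr 1 10 h1) (enc_case (enc_subr 1 20 h1) (enc_add (enc_subr 4727 200000 (enc_scale 403 2500 h1)) (enc_mul (enc_norm (bx4q2A_3.enc h1 h2 h3)) (enc_norm (enc_subr 44229 100000 (enc_neg (enc_scale 2843 5000 h1)))))) (enc_add (enc_subr 4651 200000 (enc_scale 96 625 h1)) (enc_mul (enc_norm (bx4q2A_3.enc h1 h2 h3)) (enc_norm (enc_subr 46157 100000 (enc_neg (enc_scale 183 1000 h1))))))) (enc_case (enc_subr 3 20 h1) (enc_add (enc_subr 3439 200000 (enc_scale 93 1000 h1)) (enc_mul (enc_norm (bx4q2A_3.enc h1 h2 h3)) (enc_norm (enc_subr 61287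 100000 (enc_scale 133 100 h1))))) (enc_case (enc_subr 1 5 h1) (enc_add (enc_subr 9989 1000000 (enc_scale 281 6250 h1)) (enc_mul (enc_norm (bx4q2A_3.enc h1 h2 h3)) (enc_norm (enc_subr 17931 25000 (enc_scale 10129 5000 h1))))) (enc_add (enc_subr 4209 1000000 (enc_scale 803 50000 h1)) (enc_mul (enc_norm (bx4q2A_3.enc h1 h2 h3)) (enc_norm (enc_subr 19147 25000 (enc_scale 2269 1000 h1)))))))) (enc_case (enc_subr 7 20 h1) (enc_case (enc_subr 3 10 h1) (enc_add (enc_subr 197 500000 (enc_scale 1 1250 h1)) (enc_mul (enc_norm (bx4q2A_3.enc h1 h2 h3)) (enc_norm (enc_subr 36749 50000 (enc_scale 10727 5000 h1))))) (enc_add (enc_sub (enc_rat _ 617 250000) (enc_scale 437 50000 h1)) (enc_mul (enc_norm (bx4q2A_3.enc h1 h2 h3)) (enc_norm (enc_subr 14431 25000 (enc_scale 4049 2500 h1)))))) (enc_case (enc_subr 2 5 h1) (enc_add (enc_sub (enc_rat _ 387 62500) (enc_scale 969 50000 h1)) (enc_mul (enc_norm (bx4q2A_3.enc h1 h2 h3)) (enc_norm (enc_subr 11299 50000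 (enc_scale 77 125 h1))))) (enc_case (enc_subr 9 20 h1) (enc_add (enc_sub (enc_rat _ 13 2500) (enc_scale 169 10000 h1)) (enc_mul (enc_norm (bx4q2A_3.enc h1 h2 h3)) (enc_norm (enc_sub (enc_rat _ 2657 50000) (enc_scale 409 5000 h1))))) (enc_add (enc_subr 481 20000 (enc_scale 481 10000 h1)) (enc_mul (enc_norm (bx4q2A_3.enc h1 h2 h3)) (enc_norm (enc_sub (enc_rat _ 1633 10000) (enc_scale 1633 5000 h1))))))))))⟩
noncomputable def bx3q2A_3 : Fn3 := ⟨_, _, fun h1 h2 h3 => (enc_subr 67 100 h3)⟩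
noncomputable def bx3q2A : Fn3 := ⟨_, _, fun h1 h2 h3 => (enc_norm (enc_case (enc_subr 1 4 h1) (enc_case (enc_subr 1 10 h1) (enc_case (enc_subr 1 20 h1) (enc_add (enc_subr 213383 1000000 (enc_scale 15941 25000 h1)) (enc_mul (enc_norm (bx3q2A_3.enc h1 h2 h3)) (enc_norm (enc_sub (enc_rat _ 43111 100000) (enc_scale 8239 5000 h1))))) (enc_add (enc_subr 42471 200000 (enc_scale 15427 25000 h1)) (enc_mul (enc_norm (bx3q2A_3.enc h1 h2 h3)) (enc_norm (enc_sub (enc_rat _ 20597 50000) (enc_scale 3161 2500 h1)))))) (enc_case (enc_subr 3 20 h1) (enc_add (enc_subr 211599 1000000 (enc_scale 7619 12500 h1)) (enc_mul (enc_norm (bx3q2A_3.enc h1 h2 h3)) (enc_norm (enc_sub (enc_rat _ 2319 5000) (enc_scale 1783 1000 h1))))) (enc_case (enc_subr 1 5 h1) (enc_add (enc_subr 204273 1000000 (enc_scale 14017 25000 h1)) (enc_mul (enc_norm (bx3q2A_3.enc h1 h2 h3)) (enc_norm (enc_sub (enc_rat _ 41487 100000) (enc_scale 1821 1250 h1))))) (enc_add (enc_subr 191273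 1000000 (enc_scale 1549 3125 h1)) (enc_mul (enc_norm (bx3q2A_3.enc h1 h2 h3)) (enc_norm (enc_sub (enc_rat _ 28023 100000) (enc_scale 1959 2500 h1)))))))) (enc_case (enc_subr 7 20 h1) (enc_case (enc_subr 3 10 h1) (enc_add (enc_subr 87889 500000 (enc_scale 4337 10000 h1)) (enc_mul (enc_norm (bx3q2A_3.enc h1 h2 h3)) (enc_norm (enc_sub (enc_rat _ 12813 100000) (enc_scale 219 1250 h1))))) (enc_add (enc_subr 19243 125000 (enc_scale 9023 25000 h1)) (enc_mul (enc_norm (bx3q2A_3.enc h1 h2 h3)) (enc_norm (enc_add (enc_scale 68 625 h1) (enc_rat _ 4293 100000)))))) (enc_case (enc_subr 2 5 h1) (enc_add (enc_subr 56427 500000 (enc_scale 761 3125 h1)) (enc_mul (enc_norm (bx3q2A_3.enc h1 h2 h3)) (enc_norm (enc_sub (enc_rat _ 14793 100000) (enc_scale 239 1250 h1))))) (enc_case (enc_subr 9 20 h1) (enc_add (enc_subr 39943 500000 (enc_scale 1611 10000 h1)) (enc_mul (enc_norm (bx3q2A_3.enc h1 h2 h3)) (enc_norm (enc_sub (enc_rat _ 33537 100000) (enc_scale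 3299 5000 h1))))) (enc_add (enc_subr 7391 100000 (enc_scale 7391 50000 h1)) (enc_mul (enc_norm (bx3q2A_3.enc h1 h2 h3)) (enc_norm (enc_sub (enc_rat _ 1923 5000) (enc_scale 1923 2500 h1))))))))))⟩
noncomputable def bx2q2A_3 : Fn3 := ⟨_, _, fun h1 h2 h3 => (enc_subr 67 100 h3)⟩
noncomputable def bx2q2A : Fn3 := ⟨_, _, fun h1 h2 h3 => (enc_norm (enc_case (enc_subr 1 4 h1) (enc_case (enc_subr 1 10 h1) (enc_case (enc_subr 1 20 h1) (enc_add (enc_subr 97909 250000 (enc_scale 4071 6250 h1)) (enc_mul (enc_norm (bx2q2A_3.enc h1 h2 h3)) (enc_norm (enc_sub (enc_rat _ 151963 100000) (enc_scale 20369 5000 h1))))) (enc_add (enc_subr 402819 1000000 (enc_scale 43751 50000 h1)) (enc_mul (enc_norm (bx2q2A_3.enc h1 h2 h3)) (enc_norm (enc_sub (enc_rat _ 78197 50000) (enc_scale 124 25 h1)))))) (enc_case (enc_subr 3 20 h1) (enc_add (enc_subr 410859 1000000 (enc_scale 47771 50000 h1)) (enc_mul (enc_norm (bx2q2A_3.enc h1 h2 h3)) (enc_norm (enc_sub (enc_rat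 _ 4747 3125) (enc_scale 4511 1000 h1))))) (enc_case (enc_subr 1 5 h1) (enc_add (enc_subr 208707 500000 (enc_scale 12489 12500 h1)) (enc_mul (enc_norm (bx2q2A_3.enc h1 h2 h3)) (enc_norm (enc_sub (enc_rat _ 17419 12500) (enc_scale 18371 5000 h1))))) (enc_add (enc_subr 210627 500000 (enc_scale 12729 12500 h1)) (enc_mul (enc_norm (bx2q2A_3.enc h1 h2 h3)) (enc_norm (enc_sub (enc_rat _ 29833 25000) (enc_scale 6683 2500 h1)))))))) (enc_case (enc_subr 7 20 h1) (enc_case (enc_subr 3 10 h1) (enc_add (enc_subr 419689 1000000 (enc_scale 50603 50000 h1)) (enc_mul (enc_norm (bx2q2A_3.enc h1 h2 h3)) (enc_norm (enc_sub (enc_rat _ 105797 100000) (enc_scale 10659 5000 h1))))) (enc_add (enc_subr 395713 1000000 (enc_scale 46607 50000 h1)) (enc_mul (enc_norm (bx2q2A_3.enc h1 h2 h3)) (enc_norm (enc_sub (enc_rat _ 103943 100000) (enc_scale 207 100 h1)))))) (enc_case (enc_subr 2 5 h1) (enc_add (enc_subr 171617 500000 (enc_scale 3911 5000 h1)) (enc_mul (enc_norm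 (bx2q2A_3.enc h1 h2 h3)) (enc_norm (enc_sub (enc_rat _ 553 500) (enc_scale 11301 5000 h1))))) (enc_case (enc_subr 9 20 h1) (enc_add (enc_subr 86681 500000 (enc_scale 4469 12500 h1)) (enc_mul (enc_norm (bx2q2A_3.enc h1 h2 h3)) (enc_norm (enc_sub (enc_rat _ 698 625) (enc_scale 2859 1250 h1))))) (enc_add (enc_subr 6239 50000 (enc_scale 6239 25000 h1)) (enc_mul (enc_norm (bx2q2A_3.enc h1 h2 h3)) (enc_norm (enc_sub (enc_rat _ 2189 2500) (enc_scale 2189 1250 h1))))))))))⟩
noncomputable def bx1q2A_3 : Fn3 := ⟨_, _, fun h1 h2 h3 => (enc_subr 67 100 h3)⟩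
noncomputable def bx1q2A : Fn3 := ⟨_, _, fun h1 h2 h3 => (enc_norm (enc_add (enc_subr 19691389 50000000 (enc_mul (enc_norm (enc_add (enc_scale 2033 125000 (bx1q2A_3.enc h1 h2 h3)) (enc_rat _ 7622347 3750000))) (enc_norm (bx1q2A_3.enc h1 h2 h3)))) (enc_case (enc_subr 1 4 h1) (enc_case (enc_subr 1 10 h1) (enc_case (enc_subr 1 20 h1) (enc_sub (enc_mul (enc_norm (bx1q2A_3.enc h1 h2 h3)) (enc_scale 5633 2500 h1)) (enc_scale 7181 50000 h1)) (enc_add (enc_subr 8687 1000000 (enc_scale 753 25000 h1)) (enc_mul (enc_norm (bx1q2A_3.enc h1 h2 h3)) (enc_norm (enc_sub (enc_rat _ 38541 50000) (enc_scale 8227 625 h1)))))) (enc_case (enc_subr 3 20 h1) (enc_add (enc_subr 12111 200000 (enc_scale 343 625 h1)) (enc_mul (enc_norm (bx1q2A_3.enc h1 h2 h3)) (enc_norm (enc_sub (enc_rat _ 3901 12500) (enc_scale 42879 5000 h1))))) (enc_case (enc_subr 1 5 h1) (enc_add (enc_subr 13191 100000 (enc_scale 2049 2000 h1)) (enc_mul (enc_norm (bx1q2A_3.enc h1 h2 h3)) (enc_norm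 (enc_subr 24109 100000 (enc_neg (enc_scale 611 125 h1)))))) (enc_add (enc_subr 100681 500000 (enc_scale 17147 12500 h1)) (enc_mul (enc_norm (bx1q2A_3.enc h1 h2 h3)) (enc_norm (enc_subr 23133 100000 (enc_neg (enc_scale 6171 1250 h1))))))))) (enc_case (enc_subr 7 20 h1) (enc_case (enc_subr 3 10 h1) (enc_add (enc_subr 221647 1000000 (enc_scale 14529 10000 h1)) (enc_mul (enc_norm (bx1q2A_3.enc h1 h2 h3)) (enc_norm (enc_subr 40463 100000 (enc_neg (enc_scale 10609 2500 h1)))))) (enc_add (enc_subr 229717 1000000 (enc_scale 7399 5000 h1)) (enc_mul (enc_norm (bx1q2A_3.enc h1 h2 h3)) (enc_norm (enc_subr 61019 100000 (enc_neg (enc_scale 2224 625 h1))))))) (enc_case (enc_subr 2 5 h1) (enc_add (enc_subr 25873 200000 (enc_scale 29827 25000 h1)) (enc_mul (enc_norm (bx1q2A_3.enc h1 h2 h3)) (enc_norm (enc_subr 8239 5000 (enc_neg (enc_scale 2969 5000 h1)))))) (enc_case (enc_subr 9 20 h1) (enc_add (enc_add (enc_scale 30249 50000 h1) (enc_rat _ 847 8000))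 (enc_mul (enc_norm (bx1q2A_3.enc h1 h2 h3)) (enc_norm (enc_subr 6377 5000 (enc_neg (enc_scale 953 625 h1)))))) (enc_add (enc_add (enc_add (enc_scale 785589 2500000 h1) (enc_rat _ 11835499 50000000)) (enc_mul (enc_norm (bx1q2A_3.enc h1 h2 h3)) (enc_norm (enc_subr 1652459 1250000 (enc_neg (enc_scale 266497 187500 h1)))))) (enc_mul (enc_sq (enc_norm (bx1q2A_3.enc h1 h2 h3))) (enc_norm (enc_sub (enc_rat _ 18297 125000) (enc_scale 2033 6250 h1)))))))))))⟩
noncomputable def rxq2A : Fn4Q := ⟨_, _, fun h1 h2 h3 h4 => (enc_case (enc_sub h1 (cv1pA.enc h2 h3)) (enc_add (enc_mul h1 (bx1q2A.enc h2 h3 h4)) (enc_mul (enc_norm (enc_sub (enc_pnc _ 1) (lm0pA.enc h1 h2 h3))) (enc_norm (enc_mul h2 (enc_norm (enc_sub (n0x.enc h3 h4) (bx1q2A.enc h2 h3 h4))))))) (enc_case (enc_sub h1 (cv2pA.enc h2 h3)) (enc_add (enc_mul h1 (bx2q2A.enc h2 h3 h4)) (enc_mul (enc_norm (enc_mul (enc_norm (enc_sub (enc_pnc _ 1) (lm1pA.enc h1 h2 h3))) (cv1pA.enc h2 h3))) (enc_norm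 (enc_sub (bx1q2A.enc h2 h3 h4) (bx2q2A.enc h2 h3 h4))))) (enc_case (enc_sub h1 (cv3pA.enc h2 h3)) (enc_add (enc_mul h1 (bx3q2A.enc h2 h3 h4)) (enc_mul (enc_norm (enc_mul (enc_norm (enc_sub (enc_pnc _ 1) (lm2pA.enc h1 h2 h3))) (cv2pA.enc h2 h3))) (enc_norm (enc_sub (bx2q2A.enc h2 h3 h4) (bx3q2A.enc h2 h3 h4))))) (enc_case (enc_sub h1 (cv4pA.enc h2 h3)) (enc_add (enc_mul h1 (bx4q2A.enc h2 h3 h4)) (enc_mul (enc_norm (enc_mul (enc_norm (enc_sub (enc_pnc _ 1) (lm3pA.enc h1 h2 h3))) (cv3pA.enc h2 h3))) (enc_norm (enc_sub (bx3q2A.enc h2 h3 h4) (bx4q2A.enc h2 h3 h4))))) (enc_case (enc_sub h1 (cv5p.enc h3)) (enc_add (enc_mul h1 (bx5q2.enc h3 h4)) (enc_mul (enc_norm (enc_mul (enc_norm (enc_sub (enc_pnc _ 1) (lm4pA.enc h1 h2 h3))) (cv4pA.enc h2 h3))) (enc_norm (enc_sub (bx4q2A.enc h2 h3 h4) (bx5q2.enc h3 h4))))) (enc_case (enc_sub h1 (cv6p.enc h3)) (enc_add (enc_mul h1 (bx6q2.enc h3 h4)) (enc_mul (enc_norm (enc_mul (enc_norm (enc_sub (enc_pnc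 _ 1) (lm5p.enc h1 h3))) (cv5p.enc h3))) (enc_norm (enc_sub (bx5q2.enc h3 h4) (bx6q2.enc h3 h4))))) (enc_add (l6q2.enc h3 h4) (enc_mul (lm6p.enc h1 h3) (enc_norm (enc_sub (l7q2.enc h3 h4) (l6q2.enc h3 h4)))))))))))⟩
noncomputable def rlq2A : Fn4Q := ⟨_, _, fun h1 h2 h3 h4 => (enc_case h1 (enc_neg (rxq2A.enc (enc_neg h1) h2 h3 h4)) (rxq2A.enc h1 h2 h3 h4))⟩
noncomputable def cv1pB : Fn1 := ⟨_, _, fun h1 => (enc_norm (enc_add (enc_scale 9 10 (enc_pnc _ 0)) (enc_scale 1 10 (enc_subr 1 2 (swg.enc h1)))))⟩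
noncomputable def cv2pB : Fn1 := ⟨_, _, fun h1 => (enc_norm (enc_add (enc_scale 7 10 (enc_pnc _ 0)) (enc_scale 3 10 (enc_subr 1 2 (swg.enc h1)))))⟩
noncomputable def cv3pB : Fn1 := ⟨_, _, fun h1 => (enc_norm (enc_add (enc_scale 2 5 (enc_pnc _ 0)) (enc_scale 3 5 (enc_subr 1 2 (swg.enc h1)))))⟩
noncomputable def cv4pB : Fn1 := ⟨_, _, fun h1 => (enc_norm (enc_add (enc_scale 1 10 (enc_pnc _ 0)) (enc_scale 9 10 (enc_subr 1 2 (swg.enc h1)))))⟩
noncomputable def lm4pB : Fn2 := ⟨_, _, fun h1 h2 => (enc_lam (enc_norm (enc_sub h1 (cv4pB.enc h2))) (enc_sub (cv5p.enc h2) (cv4pB.enc h2)))⟩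
noncomputable def bf4q2B_3 : Fn2 := ⟨_, _, fun h1 h2 => (enc_subr 67 100 h2)⟩
noncomputable def bf4q2B : Fn2 := ⟨_, _, fun h1 h2 => (enc_norm (enc_case (enc_subr 127 100 h1) (enc_add (enc_sub (enc_rat _ 122388029 29000000) (enc_scale 35707 11600 h1)) (enc_mul (enc_norm (bf4q2B_3.enc h1 h2)) (enc_norm (enc_subr 44535723 5800000 (enc_scale 73519 11600 h1))))) (enc_case (enc_subr 69 50 h1) (enc_add (enc_sub (enc_rat _ 5117067 1375000) (enc_scale 1477 550 h1)) (enc_mul (enc_norm (bf4q2B_3.enc h1 h2)) (enc_norm (enc_subr 4780409 550000 (enc_scale 78491 11000 h1))))) (enc_add (enc_sub (enc_rat _ 7933193 2000000) (enc_scale 343567 120000 h1)) (enc_mul (enc_norm (bf4q2B_3.enc h1 h2)) (enc_norm (enc_subr 1837729 50000 (enc_scale 27471 1000 h1))))))))⟩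
noncomputable def lm3pB : Fn2 := ⟨_, _, fun h1 h2 => (enc_lam (enc_norm (enc_sub h1 (cv3pB.enc h2))) (enc_sub (cv4pB.enc h2) (cv3pB.enc h2)))⟩
noncomputable def bf3q2B_3 : Fn2 := ⟨_, _, fun h1 h2 => (enc_subr 67 100 h2)⟩
noncomputable def bf3q2B : Fn2 := ⟨_, _, fun h1 h2 => (enc_norm (enc_case (enc_subr 127 100 h1) (enc_add (enc_sub (enc_rat _ 18784193 3625000) (enc_scale 232683 58000 h1)) (enc_mul (enc_norm (bf3q2B_3.enc h1 h2)) (enc_norm (enc_subr 70832833 2900000 (enc_scale 29893 1450 h1))))) (enc_case (enc_subr 69 50 h1) (enc_add (enc_sub (enc_rat _ 10084053 11000000) (enc_scale 17969 27500 h1)) (enc_mul (enc_norm (bf3q2B_3.enc h1 h2)) (enc_norm (enc_subr 395229 68750 (enc_scale 65011 11000 h1))))) (enc_add (enc_sub (enc_rat _ 1531 16000) (enc_scale 1403 24000 h1)) (enc_mul (enc_norm (bf3q2B_3.enc h1 h2)) (enc_norm (enc_subr 93689 20000 (enc_scale 30833 6000 h1))))))))⟩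
noncomputable def lm2pB : Fn2 := ⟨_, _, fun h1 h2 => (enc_lam (enc_norm (enc_sub h1 (cv2pB.enc h2))) (enc_sub (cv3pB.enc h2) (cv2pB.enc h2)))⟩
noncomputable def bf2q2B_3 : Fn2 := ⟨_, _, fun h1 h2 => (enc_subr 67 100 h2)⟩
noncomputable def bf2q2B : Fn2 := ⟨_, _, fun h1 h2 => (enc_norm (enc_case (enc_subr 127 100 h1) (enc_add (enc_sub (enc_rat _ 54308679 14500000) (enc_scale 80281 29000 h1)) (enc_mul (enc_norm (bf2q2B_3.enc h1 h2)) (enc_norm (enc_subr 239931 9280 (enc_scale 246319 11600 h1))))) (enc_case (enc_subr 69 50 h1) (enc_add (enc_sub (enc_rat _ 27331397 11000000) (enc_scale 39063 22000 h1)) (enc_mul (enc_norm (bf2q2B_3.enc h1 h2)) (enc_norm (enc_subr 19372251 1100000 (enc_scale 81089 5500 h1))))) (enc_add (enc_sub (enc_rat _ 4585201 2000000) (enc_scale 196369 120000 h1)) (enc_mul (enc_norm (bf2q2B_3.enc h1 h2)) (enc_norm (enc_subr 3023117 200000 (enc_scale 155221 12000 h1))))))))⟩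
noncomputable def lm1pB : Fn2 := ⟨_, _, fun h1 h2 => (enc_lam (enc_norm (enc_sub h1 (cv1pB.enc h2))) (enc_sub (cv2pB.enc h2) (cv1pB.enc h2)))⟩
noncomputable def bf1q2B_3 : Fn2 := ⟨_, _, fun h1 h2 => (enc_subr 67 100 h2)⟩
noncomputable def bf1q2B : Fn2 := ⟨_, _, fun h1 h2 => (enc_norm (enc_add (enc_sub (enc_pnc _ 1) (enc_scale 14430391 5000000 (enc_subn 1 h1))) (enc_case (enc_subr 127 100 h1) (enc_case (enc_subr 231 200 h1) (enc_pnc _ 0) (enc_add (enc_subr 4033029 5750000 (enc_scale 17459 28750 h1)) (enc_mul (enc_norm (bf1q2B_3.enc h1 h2)) (enc_norm (enc_subr 6532449 460000 (enc_scale 28279 2300 h1)))))) (enc_case (enc_subr 139 100 h1) (enc_add (enc_subr 8447827 12000000 (enc_scale 73117 120000 h1)) (enc_mul (enc_norm (bf1q2B_3.enc h1 h2)) (enc_norm (enc_subr 3504053 240000 (enc_scale 30263 2400 h1))))) (enc_add (enc_subr 1938083 2750000 (enc_scale 13417 22000 h1)) (enc_mul (enc_norm (bf1q2B_3.enc h1 h2)) (enc_norm (enc_subr 4055947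 275000 (enc_scale 69941 5500 h1)))))))))⟩
noncomputable def lm0pB : Fn2 := ⟨_, _, fun h1 h2 => (enc_lam (enc_norm (enc_subn 0 h1)) (enc_subn 0 (cv1pB.enc h2)))⟩
noncomputable def rkbq2B_69 : Fn3 := ⟨_, _, fun h1 h2 h3 => (enc_mul h1 (bf1q2B.enc h2 h3))⟩
noncomputable def rkbq2B : Fn3 := ⟨_, _, fun h1 h2 h3 => (enc_case (enc_sub h1 (cv1pB.enc h2)) (enc_case (enc_subr 2887 2500 h2) (enc_add (rkbq2B_69.enc h1 h2 h3) (enc_mul (enc_norm (enc_sub (enc_pnc _ 1) (lm0pB.enc h1 h2))) (enc_norm (enc_mul (enc_pnc _ 0) (enc_norm (enc_sub (n0b.enc h2 h3) (bf1q2B.enc h2 h3))))))) (rkbq2B_69.enc h1 h2 h3)) (enc_case (enc_sub h1 (cv2pB.enc h2)) (enc_add (enc_mul h1 (bf2q2B.enc h2 h3)) (enc_mul (enc_norm (enc_mul (enc_norm (enc_sub (enc_pnc _ 1) (lm1pB.enc h1 h2))) (cv1pB.enc h2))) (enc_norm (enc_sub (bf1q2B.enc h2 h3) (bf2q2B.enc h2 h3))))) (enc_case (enc_sub h1 (cv3pB.enc h2)) (enc_add (enc_mul h1 (bf3q2B.enc h2 h3)) (enc_mul (enc_norm (enc_mul (enc_norm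 (enc_sub (enc_pnc _ 1) (lm2pB.enc h1 h2))) (cv2pB.enc h2))) (enc_norm (enc_sub (bf2q2B.enc h2 h3) (bf3q2B.enc h2 h3))))) (enc_case (enc_sub h1 (cv4pB.enc h2)) (enc_add (enc_mul h1 (bf4q2B.enc h2 h3)) (enc_mul (enc_norm (enc_mul (enc_norm (enc_sub (enc_pnc _ 1) (lm3pB.enc h1 h2))) (cv3pB.enc h2))) (enc_norm (enc_sub (bf3q2B.enc h2 h3) (bf4q2B.enc h2 h3))))) (enc_case (enc_sub h1 (cv5p.enc h2)) (enc_add (enc_mul h1 (bf5q2.enc h2 h3)) (enc_mul (enc_norm (enc_mul (enc_norm (enc_sub (enc_pnc _ 1) (lm4pB.enc h1 h2))) (cv4pB.enc h2))) (enc_norm (enc_sub (bf4q2B.enc h2 h3) (bf5q2.enc h2 h3))))) (enc_case (enc_sub h1 (cv6p.enc h2)) (enc_add (enc_mul h1 (bf6q2.enc h2 h3)) (enc_mul (enc_norm (enc_mul (enc_norm (enc_sub (enc_pnc _ 1) (lm5p.enc h1 h2))) (cv5p.enc h2))) (enc_norm (enc_sub (bf5q2.enc h2 h3) (bf6q2.enc h2 h3))))) (enc_add (kf6q2.enc h2 h3) (enc_mul (lm6p.enc h1 h2) (enc_norm (enc_sub (kf7q2.enc h2 h3) (kf6q2.enc h2 h3)))))))))))⟩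
noncomputable def rsbq2B : Fn3 := ⟨_, _, fun h1 h2 h3 => (enc_case h1 (enc_neg (rkbq2B.enc (enc_neg h1) h2 h3)) (rkbq2B.enc h1 h2 h3))⟩
noncomputable def bx4q2B_3 : Fn2 := ⟨_, _, fun h1 h2 => (enc_subr 67 100 h2)⟩
noncomputable def bx4q2B : Fn2 := ⟨_, _, fun h1 h2 => (enc_norm (enc_case (enc_subr 127 100 h1) (enc_add (enc_subr 739937 5800000 (enc_scale 1309 14500 h1)) (enc_mul (enc_norm (bx4q2B_3.enc h1 h2)) (enc_norm (enc_subr 55316319 5800000 (enc_scale 91241 11600 h1))))) (enc_case (enc_subr 69 50 h1) (enc_add (enc_subr 1270987 1000000 (enc_scale 4953 5000 h1)) (enc_mul (enc_norm (bx4q2B_3.enc h1 h2)) (enc_norm (enc_subr 5573323 550000 (enc_scale 22921 2750 h1))))) (enc_add (enc_subr 22017 16000 (enc_scale 128009 120000 h1)) (enc_mul (enc_norm (bx4q2B_3.enc h1 h2)) (enc_norm (enc_sub (enc_rat _ 7047 2000) (enc_scale 1171 750 h1))))))))⟩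
noncomputable def bx3q2B_3 : Fn2 := ⟨_, _, fun h1 h2 => (enc_subr 67 100 h2)⟩
noncomputable def bx3q2B : Fn2 := ⟨_, _, fun h1 h2 => (enc_norm (enc_case (enc_subr 127 100 h1) (enc_add (enc_subr 46830707 29000000 (enc_scale 35153 29000 h1)) (enc_mul (enc_norm (bx3q2B_3.enc h1 h2)) (enc_norm (enc_subr 5422111 580000 (enc_scale 49293 5800 h1))))) (enc_case (enc_subr 69 50 h1) (enc_add (enc_subr 356388 171875 (enc_scale 173067 110000 h1)) (enc_mul (enc_norm (bx3q2B_3.enc h1 h2)) (enc_norm (enc_sub (enc_rat _ 643041 22000) (enc_scale 4813 220 h1))))) (enc_add (enc_subr 49553 31250 (enc_scale 7319 6000 h1)) (enc_mul (enc_norm (bx3q2B_3.enc h1 h2)) (enc_norm (enc_sub (enc_rat _ 3406083 100000) (enc_scale 50757 2000 h1))))))))⟩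
noncomputable def bx2q2B_3 : Fn2 := ⟨_, _, fun h1 h2 => (enc_subr 67 100 h2)⟩
noncomputable def bx2q2B : Fn2 := ⟨_, _, fun h1 h2 => (enc_norm (enc_case (enc_subr 127 100 h1) (enc_add (enc_subr 30110297 11600000 (enc_scale 221497 116000 h1)) (enc_mul (enc_norm (bx2q2B_3.enc h1 h2)) (enc_norm (enc_sub (enc_rat _ 35693817 5800000) (enc_scale 1847 464 h1))))) (enc_case (enc_subr 69 50 h1) (enc_add (enc_subr 28627257 11000000 (enc_scale 105313 55000 h1)) (enc_mul (enc_norm (bx2q2B_3.enc h1 h2)) (enc_norm (enc_sub (enc_rat _ 21185587 1100000) (enc_scale 157299 11000 h1))))) (enc_add (enc_subr 5208709 2000000 (enc_scale 229937 120000 h1)) (enc_mul (enc_norm (bx2q2B_3.enc h1 h2)) (enc_norm (enc_sub (enc_rat _ 4635629 200000) (enc_scale 205673 12000 h1))))))))⟩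
noncomputable def bx1q2B_3 : Fn2 := ⟨_, _, fun h1 h2 => (enc_subr 67 100 h2)⟩
noncomputable def bx1q2B : Fn2 := ⟨_, _, fun h1 h2 => (enc_norm (enc_add (enc_subr 19691389 50000000 (enc_mul (enc_norm (enc_add (enc_scale 2033 125000 (bx1q2B_3.enc h1 h2)) (enc_rat _ 7622347 3750000))) (enc_norm (bx1q2B_3.enc h1 h2)))) (enc_case (enc_subr 127 100 h1) (enc_case (enc_subr 231 200 h1) (enc_pnc _ 0) (enc_add (enc_subr 2161929 1000000 (enc_scale 9359 5000 h1)) (enc_mul (enc_norm (bx1q2B_3.enc h1 h2)) (enc_norm (enc_sub (enc_rat _ 9990981 575000) (enc_scale 43251 2875 h1)))))) (enc_case (enc_subr 139 100 h1) (enc_add (enc_subr 2168787 1000000 (enc_scale 4693 2500 h1)) (enc_mul (enc_norm (bx1q2B_3.enc h1 h2)) (enc_norm (enc_sub (enc_rat _ 2571197 150000) (enc_scale 22289 1500 h1))))) (enc_add (enc_subr 23907531 11000000 (enc_scale 103429 55000 h1)) (enc_mul (enc_norm (bx1q2B_3.enc h1 h2)) (enc_norm (enc_sub (enc_rat _ 18754577 1100000) (enc_scale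 162727 11000 h1)))))))))⟩
noncomputable def rxq2B_69 : Fn3 := ⟨_, _, fun h1 h2 h3 => (enc_mul h1 (bx1q2B.enc h2 h3))⟩
noncomputable def rxq2B : Fn3 := ⟨_, _, fun h1 h2 h3 => (enc_case (enc_sub h1 (cv1pB.enc h2)) (enc_case (enc_subr 2887 2500 h2) (enc_add (rxq2B_69.enc h1 h2 h3) (enc_mul (enc_norm (enc_sub (enc_pnc _ 1) (lm0pB.enc h1 h2))) (enc_norm (enc_mul (enc_pnc _ 0) (enc_norm (enc_sub (n0x.enc h2 h3) (bx1q2B.enc h2 h3))))))) (rxq2B_69.enc h1 h2 h3)) (enc_case (enc_sub h1 (cv2pB.enc h2)) (enc_add (enc_mul h1 (bx2q2B.enc h2 h3)) (enc_mul (enc_norm (enc_mul (enc_norm (enc_sub (enc_pnc _ 1) (lm1pB.enc h1 h2))) (cv1pB.enc h2))) (enc_norm (enc_sub (bx1q2B.enc h2 h3) (bx2q2B.enc h2 h3))))) (enc_case (enc_sub h1 (cv3pB.enc h2)) (enc_add (enc_mul h1 (bx3q2B.enc h2 h3)) (enc_mul (enc_norm (enc_mul (enc_norm (enc_sub (enc_pnc _ 1) (lm2pB.enc h1 h2))) (cv2pB.enc h2))) (enc_norm (enc_sub (bx2q2B.enc h2 h3) (bx3q2B.enc h2 h3))))) (enc_case (enc_sub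 h1 (cv4pB.enc h2)) (enc_add (enc_mul h1 (bx4q2B.enc h2 h3)) (enc_mul (enc_norm (enc_mul (enc_norm (enc_sub (enc_pnc _ 1) (lm3pB.enc h1 h2))) (cv3pB.enc h2))) (enc_norm (enc_sub (bx3q2B.enc h2 h3) (bx4q2B.enc h2 h3))))) (enc_case (enc_sub h1 (cv5p.enc h2)) (enc_add (enc_mul h1 (bx5q2.enc h2 h3)) (enc_mul (enc_norm (enc_mul (enc_norm (enc_sub (enc_pnc _ 1) (lm4pB.enc h1 h2))) (cv4pB.enc h2))) (enc_norm (enc_sub (bx4q2B.enc h2 h3) (bx5q2.enc h2 h3))))) (enc_case (enc_sub h1 (cv6p.enc h2)) (enc_add (enc_mul h1 (bx6q2.enc h2 h3)) (enc_mul (enc_norm (enc_mul (enc_norm (enc_sub (enc_pnc _ 1) (lm5p.enc h1 h2))) (cv5p.enc h2))) (enc_norm (enc_sub (bx5q2.enc h2 h3) (bx6q2.enc h2 h3))))) (enc_add (l6q2.enc h2 h3) (enc_mul (lm6p.enc h1 h2) (enc_norm (enc_sub (l7q2.enc h2 h3) (l6q2.enc h2 h3)))))))))))⟩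
noncomputable def rlq2B : Fn3 := ⟨_, _, fun h1 h2 h3 => (enc_case h1 (enc_neg (rxq2B.enc (enc_neg h1) h2 h3)) (rxq2B.enc h1 h2 h3))⟩
noncomputable def dt1 : DT := .quad sw1 sl1 sv1
noncomputable def dt2 : DT := .quad sw2 sl2 sv2
noncomputable def dt3 : DT := .quad sw3 sl3 sv3
noncomputable def dt4 : DT := .quad sw4 sl4 sv4
noncomputable def dt5 : DT := .quad sw5 sl5 sv5
noncomputable def dt6 : DT := .quad sw6 sl6 sv6
noncomputable def dt7 : DT := .quad sw7 sl7 sv7
noncomputable def dt8 : DT := .quad sw8 sl8 sv8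
noncomputable def dt9 : DT := .quad sw9 sl9 sv9
noncomputable def dt10 : DT := .lin sl10 sv10
noncomputable def dt11 : DT := .quad sw11 sl11 sv11
noncomputable def dt12 : DT := .quad sw12 sl12 sv12
noncomputable def dt13 : DT := .quad sw13 sl13 sv13
noncomputable def dt14 : DT := .quad sw14 sl14 sv14
noncomputable def dt15 : DT := .quad sw15 sl15 sv15
noncomputable def dt16 : DT := .quad sw16 sl16 sv16
noncomputable def dt17 : DT := .quad sw17 sl17 sv17
noncomputable def dt18 : DT := .quad sw18 sl18 sv18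
noncomputable def dt19 : DT := .quad sw19 sl19 sv19
noncomputable def dt20 : DT := .node ((Cn.rt 9 20).ng) dt1 dt2
noncomputable def dt21 : DT := .node ((Cn.rt 7 20).ng) dt3 dt4
noncomputable def dt22 : DT := .node ((Cn.rt 2 5).ng) dt20 dt21
noncomputable def dt23 : DT := .node ((Cn.rt 1 4).ng) dt5 dt6
noncomputable def dt24 : DT := .node ((Cn.rt 1 10).ng) dt8 dt9
noncomputable def dt25 : DT := .node ((Cn.rt 3 20).ng) dt7 dt24
noncomputable def dt26 : DT := .node ((Cn.rt 1 5).ng) dt23 dt25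
noncomputable def dt27 : DT := .node ((Cn.rt 3 10).ng) dt22 dt26
noncomputable def dt28 : DT := .node (Cn.rt 1 20) dt10 dt11
noncomputable def dt29 : DT := .node (Cn.rt 1 5) dt13 dt14
noncomputable def dt30 : DT := .node (Cn.rt 3 20) dt12 dt29
noncomputable def dt31 : DT := .node (Cn.rt 1 10) dt28 dt30
noncomputable def dt32 : DT := .node (Cn.rt 3 10) dt15 dt16
noncomputable def dt33 : DT := .node (Cn.rt 9 20) dt18 dt19
noncomputable def dt34 : DT := .node (Cn.rt 2 5) dt17 dt33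
noncomputable def dt35 : DT := .node (Cn.rt 7 20) dt32 dt34
noncomputable def dt36 : DT := .node (Cn.rt 1 4) dt31 dt35
noncomputable def dt37 : DT := .node ((Cn.rt 1 20).ng) dt27 dt36
noncomputable def dt38 : DT := .quad sw38 sl38 sv38
noncomputable def dt39 : DT := .quad sw39 sl39 sv39
noncomputable def dt40 : DT := .quad sw40 sl40 sv40
noncomputable def dt41 : DT := .quad sw41 sl41 sv41
noncomputable def dt42 : DT := .quad sw42 sl42 sv42
noncomputable def dt43 : DT := .quad sw43 sl43 sv43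
noncomputable def dt44 : DT := .quad sw44 sl44 sv44
noncomputable def dt45 : DT := .quad sw45 sl45 sv45
noncomputable def dt46 : DT := .quad sw46 sl46 sv46
noncomputable def dt47 : DT := .quad sw47 sl47 sv47
noncomputable def dt48 : DT := .quad sw48 sl48 sv48
noncomputable def dt49 : DT := .quad sw49 sl49 sv49
noncomputable def dt50 : DT := .quad sw50 sl50 sv50
noncomputable def dt51 : DT := .quad sw51 sl51 sv51
noncomputable def dt52 : DT := .quad sw52 sl52 sv52
noncomputable def dt53 : DT := .clo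
noncomputable def dt54 : DT := .quad sw54 sl54 sv54
noncomputable def dt55 : DT := .quad sw55 sl55 sv55
noncomputable def dt56 : DT := .quad sw56 sl56 sv56
noncomputable def dt57 : DT := .quad sw57 sl57 sv57
noncomputable def dt58 : DT := .quad sw58 sl58 sv58
noncomputable def dt59 : DT := .quad sw59 sl59 sv59
noncomputable def dt60 : DT := .quad sw60 sl60 sv60
noncomputable def dt61 : DT := .quad sw61 sl61 sv61
noncomputable def dt62 : DT := .node ((Cn.rt 11 25).ng) dt39 dt40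
noncomputable def dt63 : DT := .node ((Cn.rt 47 100).ng) dt38 dt62
noncomputable def dt64 : DT := .node ((Cn.rt 33 100).ng) dt42 dt43
noncomputable def dt65 : DT := .node ((Cn.rt 9 25).ng) dt41 dt64
noncomputable def dt66 : DT := .node ((Cn.rt 2 5).ng) dt63 dt65
noncomputable def dt67 : DT := .node ((Cn.rt 21 100).ng) dt45 dt46
noncomputable def dt68 : DT := .node ((Cn.rt 1 4).ng) dt44 dt67
noncomputable def dt69 : DT := .node ((Cn.rt 1 10).ng) dt48 dt49
noncomputable def dt70 : DT := .node ((Cn.rt 7 50).ng) dt47 dt69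
noncomputable def dt71 : DT := .node ((Cn.rt 9 50).ng) dt68 dt70
noncomputable def dt72 : DT := .node ((Cn.rt 29 100).ng) dt66 dt71
noncomputable def dt73 : DT := .node (Cn.rt 1 100) dt51 dt52
noncomputable def dt74 : DT := .node ((Cn.rt 1 50).ng) dt50 dt73
noncomputable def dt75 : DT := .node (Cn.rt 163 1000) dt54 dt55
noncomputable def dt76 : DT := .node (Cn.rt 1 7) dt53 dt75
noncomputable def dt77 : DT := .node (Cn.rt 47 914) dt74 dt76
noncomputable def dt78 : DT := .node (Cn.rt 3 10) dt57 dt58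
noncomputable def dt79 : DT := .node (Cn.rt 1 4) dt56 dt78
noncomputable def dt80 : DT := .node (Cn.rt 9 20) dt60 dt61
noncomputable def dt81 : DT := .node (Cn.rt 2 5) dt59 dt80
noncomputable def dt82 : DT := .node (Cn.rt 7 20) dt79 dt81
noncomputable def dt83 : DT := .node (Cn.rt 1 5) dt77 dt82
noncomputable def dt84 : DT := .node ((Cn.rt 3 50).ng) dt72 dt83
noncomputable def dt85 : DT := .quad sw85 sl85 sv85
noncomputable def dt86 : DT := .quad sw86 sl86 sv86
noncomputable def dt87 : DT := .lin sl87 sv87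
noncomputable def dt88 : DT := .quad sw88 sl88 sv88
noncomputable def dt89 : DT := .quad sw89 sl89 sv89
noncomputable def dt90 : DT := .node ((Cn.rt 1 50).ng) dt85 dt86
noncomputable def dt91 : DT := .node (Cn.rt 1 50) dt88 dt89
noncomputable def dt92 : DT := .node (Cn.rt 1 100) dt87 dt91
noncomputable def dt93 : DT := .node ((Cn.rt 1 100).ng) dt90 dt92
noncomputable def dd : SDat := ⟨dt37, kcg, dt84, Kh.T⟩
noncomputable def gf0 : Sg := ⟨cv1m, skf0, sxf0⟩
noncomputable def gf1 : Sg := ⟨cv1m, skf1, sxf1⟩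
noncomputable def gf2 : Sg := ⟨cv1p, skf2, sxf2⟩
noncomputable def gf3 : Sg := ⟨cv1r, skf2, sxf2⟩
noncomputable def gl0 : Sg := ⟨cv6m, skl0, sxl0⟩
noncomputable def gl1 : Sg := ⟨cv6m, skl1, sxl1⟩
noncomputable def gl2 : Sg := ⟨cv6p, skl2, sxl2⟩
noncomputable def gl3 : Sg := ⟨cv6r, skl3, sxl3⟩
noncomputable def vv : Vt := ⟨(Cn.rt 1 100), (Cn.rt 115471 100000), (Cn.rt 231 200), (Cn.rt 127 100), k0c, m0c, sbk, sbx, rhk, rhx, bf1q2, bx1q2, (Cn.rt 47 914), (Cn.rt 115471 100000), skm, dt93⟩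
noncomputable def ff (q : ℕ) : Sg := match q with
  | 0 => gf0
  | 1 => gf1
  | 2 => gf2
  | _ => gf3
noncomputable def fl (q : ℕ) : Sg := match q with
  | 0 => gl0
  | 1 => gl1
  | 2 => gl2
  | _ => gl3
noncomputable def tt : STab 7 := ⟨dd, 0, 6, ff, fl, vv⟩
noncomputable def ww : Wt := ⟨(Cn.rt 1 20), (Cn.rt 577 500), (Cn.rt 23093 20000), q1k, q1x, frw, cv2p, a2k0, a2k1, a2x0, a2x1, b2k0, b2k1, b2x0, b2x1, rsbq2A, rlq2A, ⟨rsbq2B, rlq2B⟩⟩
theorem kcl0 {p x : ℝ} (h1 : -1 / 2 ≤ p) (h2 : p ≤ -9 / 20) : kcg.v p x = (-2215521217 / 200000000 + (x - 67 / 100) * (6816093 / 312500)) + (-940720231 / 20000000 + (x - 67 / 100) * (19832377 / 200000)) * p + (-50798693 / 1000000 + (x - 67 / 100) * (5508983 / 50000)) * p ^ 2 := by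
  simp only [kcg, kcg_3, kcg_6, kcg_9, kcg_12, kcg_13, kcg_16, kcg_28, kcg_36, kcg_41, kcg_51, kcg_59, kcg_60, kcg_65, kcg_77, kcg_84, kcg_85, kcg_90, kcg_101, kcg_106, kcg_111, kcg_123, kcg_133, kcg_136, kcg_137, kcg_141, kcg_153, kcg_158, kcg_161, kcg_171, kcg_179, kcg_180, kcg_184, kcg_194, kcg_202, kcg_206, kcg_215, kcg_220, kcg_227, kcg_228, kcg_229, kcg_249, kcg_258, kcg_278, kcg_279, kcg_300]
  rcases eq_or_lt_of_le h1 with h | h1
  · subst h
    ((try push_cast); (repeat first | rw [if_pos (by linarith)] | rw [if_neg (by linarith)] | erw [if_pos (by linarith)] | erw [if_neg (by linarith)]); (try push_cast); (try ring1))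
  rcases eq_or_lt_of_le h2 with h | h2
  · subst h
    ((try push_cast); (repeat first | rw [if_pos (by linarith)] | rw [if_neg (by linarith)] | erw [if_pos (by linarith)] | erw [if_neg (by linarith)]); (try push_cast); (try ring1))
  · ((try push_cast); (repeat first | rw [if_pos (by linarith)] | rw [if_neg (by linarith)] | erw [if_pos (by linarith)] | erw [if_neg (by linarith)]); (try push_cast); (try ring1))
theorem kcl1 {p x : ℝ} (h1 : -9 / 20 ≤ p) (h2 : p ≤ -2 / 5) : kcg.v p x = (-37913417 / 25000000 + (x - 67 / 100) * (-5009757 / 10000000)) + (-90847391 / 20000000 + (x - 67 / 100) * (-9323 / 2000000)) * p + (-716707 / 200000 + (x - 67 / 100) * (-539 / 100000)) * p ^ 2 := by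
  simp only [kcg, kcg_3, kcg_6, kcg_9, kcg_12, kcg_13, kcg_16, kcg_28, kcg_36, kcg_41, kcg_51, kcg_59, kcg_60, kcg_65, kcg_77, kcg_84, kcg_85, kcg_90, kcg_101, kcg_106, kcg_111, kcg_123, kcg_133, kcg_136, kcg_137, kcg_141, kcg_153, kcg_158, kcg_161, kcg_171, kcg_179, kcg_180, kcg_184, kcg_194, kcg_202, kcg_206, kcg_215, kcg_220, kcg_227, kcg_228, kcg_229, kcg_249, kcg_258, kcg_278, kcg_279, kcg_300]
  rcases eq_or_lt_of_le h1 with h | h1
  · subst h
    ((try push_cast); (repeat first | rw [if_pos (by linarith)] | rw [if_neg (by linarith)] | erw [if_pos (by linarith)] | erw [if_neg (by linarith)]); (try push_cast); (try ring1))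
  rcases eq_or_lt_of_le h2 with h | h2
  · subst h
    ((try push_cast); (repeat first | rw [if_pos (by linarith)] | rw [if_neg (by linarith)] | erw [if_pos (by linarith)] | erw [if_neg (by linarith)]); (try push_cast); (try ring1))
  · ((try push_cast); (repeat first | rw [if_pos (by linarith)] | rw [if_neg (by linarith)] | erw [if_pos (by linarith)] | erw [if_neg (by linarith)]); (try push_cast); (try ring1))
theorem kcl2 {p x : ℝ} (h1 : -2 / 5 ≤ p) (h2 : p ≤ -7 / 20) : kcg.v p x = (-126199361 / 25000000 + (x - 67 / 100) * (-4997991 / 10000000)) + (-443991167 / 20000000 + (x - 67 / 100) * (61 / 50000)) * p + (-25655021 / 1000000 + (x - 67 / 100) * (49 / 25000)) * p ^ 2 := by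
  simp only [kcg, kcg_3, kcg_6, kcg_9, kcg_12, kcg_13, kcg_16, kcg_28, kcg_36, kcg_41, kcg_51, kcg_59, kcg_60, kcg_65, kcg_77, kcg_84, kcg_85, kcg_90, kcg_101, kcg_106, kcg_111, kcg_123, kcg_133, kcg_136, kcg_137, kcg_141, kcg_153, kcg_158, kcg_161, kcg_171, kcg_179, kcg_180, kcg_184, kcg_194, kcg_202, kcg_206, kcg_215, kcg_220, kcg_227, kcg_228, kcg_229, kcg_249, kcg_258, kcg_278, kcg_279, kcg_300]
  rcases eq_or_lt_of_le h1 with h | h1
  · subst h
    ((try push_cast); (repeat first | rw [if_pos (by linarith)] | rw [if_neg (by linarith)] | erw [if_pos (by linarith)] | erw [if_neg (by linarith)]); (try push_cast); (try ring1))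
  rcases eq_or_lt_of_le h2 with h | h2
  · subst h
    ((try push_cast); (repeat first | rw [if_pos (by linarith)] | rw [if_neg (by linarith)] | erw [if_pos (by linarith)] | erw [if_neg (by linarith)]); (try push_cast); (try ring1))
  · ((try push_cast); (repeat first | rw [if_pos (by linarith)] | rw [if_neg (by linarith)] | erw [if_pos (by linarith)] | erw [if_neg (by linarith)]); (try push_cast); (try ring1))
theorem kcl3 {p x : ℝ} (h1 : -7 / 20 ≤ p) (h2 : p ≤ -3 / 10) : kcg.v p x = (263495543 / 100000000 + (x - 67 / 100) * (-5000833 / 10000000)) + (217028981 / 10000000 + (x - 67 / 100) * (-101 / 250000)) * p + (18531387 / 500000 + (x - 67 / 100) * (-9 / 25000)) * p ^ 2 := by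
  simp only [kcg, kcg_3, kcg_6, kcg_9, kcg_12, kcg_13, kcg_16, kcg_28, kcg_36, kcg_41, kcg_51, kcg_59, kcg_60, kcg_65, kcg_77, kcg_84, kcg_85, kcg_90, kcg_101, kcg_106, kcg_111, kcg_123, kcg_133, kcg_136, kcg_137, kcg_141, kcg_153, kcg_158, kcg_161, kcg_171, kcg_179, kcg_180, kcg_184, kcg_194, kcg_202, kcg_206, kcg_215, kcg_220, kcg_227, kcg_228, kcg_229, kcg_249, kcg_258, kcg_278, kcg_279, kcg_300]
  rcases eq_or_lt_of_le h1 with h | h1
  · subst h
    ((try push_cast); (repeat first | rw [if_pos (by linarith)] | rw [if_neg (by linarith)] | erw [if_pos (by linarith)] | erw [if_neg (by linarith)]); (try push_cast); (try ring1))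
  rcases eq_or_lt_of_le h2 with h | h2
  · subst h
    ((try push_cast); (repeat first | rw [if_pos (by linarith)] | rw [if_neg (by linarith)] | erw [if_pos (by linarith)] | erw [if_neg (by linarith)]); (try push_cast); (try ring1))
  · ((try push_cast); (repeat first | rw [if_pos (by linarith)] | rw [if_neg (by linarith)] | erw [if_pos (by linarith)] | erw [if_neg (by linarith)]); (try push_cast); (try ring1))
theorem kcl4 {p x : ℝ} (h1 : -3 / 10 ≤ p) (h2 : p ≤ -1 / 4) : kcg.v p x = (-218396087 / 200000000 + (x - 67 / 100) * (-9997721 / 20000000)) + (-62866823 / 20000000 + (x - 67 / 100) * (1821 / 2000000)) * p + (-34781 / 8000 + (x - 67 / 100) * (183 / 100000)) * p ^ 2 := by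
  simp only [kcg, kcg_3, kcg_6, kcg_9, kcg_12, kcg_13, kcg_16, kcg_28, kcg_36, kcg_41, kcg_51, kcg_59, kcg_60, kcg_65, kcg_77, kcg_84, kcg_85, kcg_90, kcg_101, kcg_106, kcg_111, kcg_123, kcg_133, kcg_136, kcg_137, kcg_141, kcg_153, kcg_158, kcg_161, kcg_171, kcg_179, kcg_180, kcg_184, kcg_194, kcg_202, kcg_206, kcg_215, kcg_220, kcg_227, kcg_228, kcg_229, kcg_249, kcg_258, kcg_278, kcg_279, kcg_300]
  rcases eq_or_lt_of_le h1 with h | h1
  · subst h
    ((try push_cast); (repeat first | rw [if_pos (by linarith)] | rw [if_neg (by linarith)] | erw [if_pos (by linarith)] | erw [if_neg (by linarith)]); (try push_cast); (try ring1))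
  rcases eq_or_lt_of_le h2 with h | h2
  · subst h
    ((try push_cast); (repeat first | rw [if_pos (by linarith)] | rw [if_neg (by linarith)] | erw [if_pos (by linarith)] | erw [if_neg (by linarith)]); (try push_cast); (try ring1))
  · ((try push_cast); (repeat first | rw [if_pos (by linarith)] | rw [if_neg (by linarith)] | erw [if_pos (by linarith)] | erw [if_neg (by linarith)]); (try push_cast); (try ring1))
theorem kcl5 {p x : ℝ} (h1 : -1 / 4 ≤ p) (h2 : p ≤ -1 / 5) : kcg.v p x = (12278609 / 6250000 + (x - 67 / 100) * (-4902153 / 10000000)) + (426182437 / 20000000 + (x - 67 / 100) * (156557 / 2000000)) * p + (44557301 / 1000000 + (x - 67 / 100) * (15657 / 100000)) * p ^ 2 := by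
  simp only [kcg, kcg_3, kcg_6, kcg_9, kcg_12, kcg_13, kcg_16, kcg_28, kcg_36, kcg_41, kcg_51, kcg_59, kcg_60, kcg_65, kcg_77, kcg_84, kcg_85, kcg_90, kcg_101, kcg_106, kcg_111, kcg_123, kcg_133, kcg_136, kcg_137, kcg_141, kcg_153, kcg_158, kcg_161, kcg_171, kcg_179, kcg_180, kcg_184, kcg_194, kcg_202, kcg_206, kcg_215, kcg_220, kcg_227, kcg_228, kcg_229, kcg_249, kcg_258, kcg_278, kcg_279, kcg_300]
  rcases eq_or_lt_of_le h1 with h | h1
  · subst h
    ((try push_cast); (repeat first | rw [if_pos (by linarith)] | rw [if_neg (by linarith)] | erw [if_pos (by linarith)] | erw [if_neg (by linarith)]); (try push_cast); (try ring1))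
  rcases eq_or_lt_of_le h2 with h | h2
  · subst h
    ((try push_cast); (repeat first | rw [if_pos (by linarith)] | rw [if_neg (by linarith)] | erw [if_pos (by linarith)] | erw [if_neg (by linarith)]); (try push_cast); (try ring1))
  · ((try push_cast); (repeat first | rw [if_pos (by linarith)] | rw [if_neg (by linarith)] | erw [if_pos (by linarith)] | erw [if_neg (by linarith)]); (try push_cast); (try ring1))
theorem kcl6 {p x : ℝ} (h1 : -1 / 5 ≤ p) (h2 : p ≤ -3 / 20) : kcg.v p x = (-6007053 / 20000000 + (x - 67 / 100) * (-5090023 / 10000000)) + (-209403 / 156250 + (x - 67 / 100) * (-43837 / 400000)) * p + (-377061 / 31250 + (x - 67 / 100) * (-31311 / 100000)) * p ^ 2 := by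
  simp only [kcg, kcg_3, kcg_6, kcg_9, kcg_12, kcg_13, kcg_16, kcg_28, kcg_36, kcg_41, kcg_51, kcg_59, kcg_60, kcg_65, kcg_77, kcg_84, kcg_85, kcg_90, kcg_101, kcg_106, kcg_111, kcg_123, kcg_133, kcg_136, kcg_137, kcg_141, kcg_153, kcg_158, kcg_161, kcg_171, kcg_179, kcg_180, kcg_184, kcg_194, kcg_202, kcg_206, kcg_215, kcg_220, kcg_227, kcg_228, kcg_229, kcg_249, kcg_258, kcg_278, kcg_279, kcg_300]
  rcases eq_or_lt_of_le h1 with h | h1
  · subst h
    ((try push_cast); (repeat first | rw [if_pos (by linarith)] | rw [if_neg (by linarith)] | erw [if_pos (by linarith)] | erw [if_neg (by linarith)]); (try push_cast); (try ring1))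
  rcases eq_or_lt_of_le h2 with h | h2
  · subst h
    ((try push_cast); (repeat first | rw [if_pos (by linarith)] | rw [if_neg (by linarith)] | erw [if_pos (by linarith)] | erw [if_neg (by linarith)]); (try push_cast); (try ring1))
  · ((try push_cast); (repeat first | rw [if_pos (by linarith)] | rw [if_neg (by linarith)] | erw [if_pos (by linarith)] | erw [if_neg (by linarith)]); (try push_cast); (try ring1))
theorem kcl7 {p x : ℝ} (h1 : -3 / 20 ≤ p) (h2 : p ≤ -1 / 10) : kcg.v p x = (-1036437 / 10000000 + (x - 67 / 100) * (3503131 / 2000000)) + (3206517 / 2500000 + (x - 67 / 100) * (3003131 / 100000)) * p + (-830833 / 250000 + (x - 67 / 100) * (1251957 / 12500)) * p ^ 2 := by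
  simp only [kcg, kcg_3, kcg_6, kcg_9, kcg_12, kcg_13, kcg_16, kcg_28, kcg_36, kcg_41, kcg_51, kcg_59, kcg_60, kcg_65, kcg_77, kcg_84, kcg_85, kcg_90, kcg_101, kcg_106, kcg_111, kcg_123, kcg_133, kcg_136, kcg_137, kcg_141, kcg_153, kcg_158, kcg_161, kcg_171, kcg_179, kcg_180, kcg_184, kcg_194, kcg_202, kcg_206, kcg_215, kcg_220, kcg_227, kcg_228, kcg_229, kcg_249, kcg_258, kcg_278, kcg_279, kcg_300]
  rcases eq_or_lt_of_le h1 with h | h1
  · subst h
    ((try push_cast); (repeat first | rw [if_pos (by linarith)] | rw [if_neg (by linarith)] | erw [if_pos (by linarith)] | erw [if_neg (by linarith)]); (try push_cast); (try ring1))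
  rcases eq_or_lt_of_le h2 with h | h2
  · subst h
    ((try push_cast); (repeat first | rw [if_pos (by linarith)] | rw [if_neg (by linarith)] | erw [if_pos (by linarith)] | erw [if_neg (by linarith)]); (try push_cast); (try ring1))
  · ((try push_cast); (repeat first | rw [if_pos (by linarith)] | rw [if_neg (by linarith)] | erw [if_pos (by linarith)] | erw [if_neg (by linarith)]); (try push_cast); (try ring1))
theorem kcl8 {p x : ℝ} (h1 : -1 / 10 ≤ p) (h2 : p ≤ -1 / 20) : kcg.v p x = (2347013 / 100000000 + (x - 67 / 100) * (-2499999 / 10000000)) + (38248833 / 10000000 + (x - 67 / 100) * (-2499999 / 250000)) * p + (187761 / 20000 + (x - 67 / 100) * (-2499999 / 25000)) * p ^ 2 := by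
  simp only [kcg, kcg_3, kcg_6, kcg_9, kcg_12, kcg_13, kcg_16, kcg_28, kcg_36, kcg_41, kcg_51, kcg_59, kcg_60, kcg_65, kcg_77, kcg_84, kcg_85, kcg_90, kcg_101, kcg_106, kcg_111, kcg_123, kcg_133, kcg_136, kcg_137, kcg_141, kcg_153, kcg_158, kcg_161, kcg_171, kcg_179, kcg_180, kcg_184, kcg_194, kcg_202, kcg_206, kcg_215, kcg_220, kcg_227, kcg_228, kcg_229, kcg_249, kcg_258, kcg_278, kcg_279, kcg_300]
  rcases eq_or_lt_of_le h1 with h | h1
  · subst h
    ((try push_cast); (repeat first | rw [if_pos (by linarith)] | rw [if_neg (by linarith)] | erw [if_pos (by linarith)] | erw [if_neg (by linarith)]); (try push_cast); (try ring1))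
  rcases eq_or_lt_of_le h2 with h | h2
  · subst h
    ((try push_cast); (repeat first | rw [if_pos (by linarith)] | rw [if_neg (by linarith)] | erw [if_pos (by linarith)] | erw [if_neg (by linarith)]); (try push_cast); (try ring1))
  · ((try push_cast); (repeat first | rw [if_pos (by linarith)] | rw [if_neg (by linarith)] | erw [if_pos (by linarith)] | erw [if_neg (by linarith)]); (try push_cast); (try ring1))
theorem kcl9 {p x : ℝ} (h1 : -1 / 20 ≤ p) (h2 : p ≤ 1 / 20) : kcg.v p x = (0) + (14430391 / 5000000) * p := by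
  simp only [kcg, kcg_3, kcg_6, kcg_9, kcg_12, kcg_13, kcg_16, kcg_28, kcg_36, kcg_41, kcg_51, kcg_59, kcg_60, kcg_65, kcg_77, kcg_84, kcg_85, kcg_90, kcg_101, kcg_106, kcg_111, kcg_123, kcg_133, kcg_136, kcg_137, kcg_141, kcg_153, kcg_158, kcg_161, kcg_171, kcg_179, kcg_180, kcg_184, kcg_194, kcg_202, kcg_206, kcg_215, kcg_220, kcg_227, kcg_228, kcg_229, kcg_249, kcg_258, kcg_278, kcg_279, kcg_300]
  rcases eq_or_lt_of_le h1 with h | h1
  · subst h
    ((try push_cast); (repeat first | rw [if_pos (by linarith)] | rw [if_neg (by linarith)] | erw [if_pos (by linarith)] | erw [if_neg (by linarith)]); (try push_cast); (try ring1))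
  rcases eq_or_lt_of_le h2 with h | h2
  · subst h
    ((try push_cast); (repeat first | rw [if_pos (by linarith)] | rw [if_neg (by linarith)] | erw [if_pos (by linarith)] | erw [if_neg (by linarith)]); (try push_cast); (try ring1))
  rcases lt_trichotomy p 0 with h | h | h
  · ((try push_cast); (repeat first | rw [if_pos (by linarith)] | rw [if_neg (by linarith)] | erw [if_pos (by linarith)] | erw [if_neg (by linarith)]); (try push_cast); (try ring1))
  · subst h
    ((try push_cast); (repeat first | rw [if_pos (by linarith)] | rw [if_neg (by linarith)] | erw [if_pos (by linarith)] | erw [if_neg (by linarith)]); (try push_cast); (try ring1))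
  · ((try push_cast); (repeat first | rw [if_pos (by linarith)] | rw [if_neg (by linarith)] | erw [if_pos (by linarith)] | erw [if_neg (by linarith)]); (try push_cast); (try ring1))
theorem kcl10 {p x : ℝ} (h1 : 1 / 20 ≤ p) (h2 : p ≤ 1 / 10) : kcg.v p x = (-2347013 / 100000000 + (x - 67 / 100) * (2499999 / 10000000)) + (38248833 / 10000000 + (x - 67 / 100) * (-2499999 / 250000)) * p + (-187761 / 20000 + (x - 67 / 100) * (2499999 / 25000)) * p ^ 2 := by
  simp only [kcg, kcg_3, kcg_6, kcg_9, kcg_12, kcg_13, kcg_16, kcg_28, kcg_36, kcg_41, kcg_51, kcg_59, kcg_60, kcg_65, kcg_77, kcg_84, kcg_85, kcg_90, kcg_101, kcg_106, kcg_111, kcg_123, kcg_133, kcg_136, kcg_137, kcg_141, kcg_153, kcg_158, kcg_161, kcg_171, kcg_179, kcg_180, kcg_184, kcg_194, kcg_202, kcg_206, kcg_215, kcg_220, kcg_227, kcg_228, kcg_229, kcg_249, kcg_258, kcg_278, kcg_279, kcg_300]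
  rcases eq_or_lt_of_le h1 with h | h1
  · subst h
    ((try push_cast); (repeat first | rw [if_pos (by linarith)] | rw [if_neg (by linarith)] | erw [if_pos (by linarith)] | erw [if_neg (by linarith)]); (try push_cast); (try ring1))
  rcases eq_or_lt_of_le h2 with h | h2
  · subst h
    ((try push_cast); (repeat first | rw [if_pos (by linarith)] | rw [if_neg (by linarith)] | erw [if_pos (by linarith)] | erw [if_neg (by linarith)]); (try push_cast); (try ring1))
  · ((try push_cast); (repeat first | rw [if_pos (by linarith)] | rw [if_neg (by linarith)] | erw [if_pos (by linarith)] | erw [if_neg (by linarith)]); (try push_cast); (try ring1))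
theorem kcl11 {p x : ℝ} (h1 : 1 / 10 ≤ p) (h2 : p ≤ 3 / 20) : kcg.v p x = (1036437 / 10000000 + (x - 67 / 100) * (-3503131 / 2000000)) + (3206517 / 2500000 + (x - 67 / 100) * (3003131 / 100000)) * p + (830833 / 250000 + (x - 67 / 100) * (-1251957 / 12500)) * p ^ 2 := by
  simp only [kcg, kcg_3, kcg_6, kcg_9, kcg_12, kcg_13, kcg_16, kcg_28, kcg_36, kcg_41, kcg_51, kcg_59, kcg_60, kcg_65, kcg_77, kcg_84, kcg_85, kcg_90, kcg_101, kcg_106, kcg_111, kcg_123, kcg_133, kcg_136, kcg_137, kcg_141, kcg_153, kcg_158, kcg_161, kcg_171, kcg_179, kcg_180, kcg_184, kcg_194, kcg_202, kcg_206, kcg_215, kcg_220, kcg_227, kcg_228, kcg_229, kcg_249, kcg_258, kcg_278, kcg_279, kcg_300]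
  rcases eq_or_lt_of_le h1 with h | h1
  · subst h
    ((try push_cast); (repeat first | rw [if_pos (by linarith)] | rw [if_neg (by linarith)] | erw [if_pos (by linarith)] | erw [if_neg (by linarith)]); (try push_cast); (try ring1))
  rcases eq_or_lt_of_le h2 with h | h2
  · subst h
    ((try push_cast); (repeat first | rw [if_pos (by linarith)] | rw [if_neg (by linarith)] | erw [if_pos (by linarith)] | erw [if_neg (by linarith)]); (try push_cast); (try ring1))
  · ((try push_cast); (repeat first | rw [if_pos (by linarith)] | rw [if_neg (by linarith)] | erw [if_pos (by linarith)] | erw [if_neg (by linarith)]); (try push_cast); (try ring1))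
theorem kcl12 {p x : ℝ} (h1 : 3 / 20 ≤ p) (h2 : p ≤ 1 / 5) : kcg.v p x = (6007053 / 20000000 + (x - 67 / 100) * (5090023 / 10000000)) + (-209403 / 156250 + (x - 67 / 100) * (-43837 / 400000)) * p + (377061 / 31250 + (x - 67 / 100) * (31311 / 100000)) * p ^ 2 := by
  simp only [kcg, kcg_3, kcg_6, kcg_9, kcg_12, kcg_13, kcg_16, kcg_28, kcg_36, kcg_41, kcg_51, kcg_59, kcg_60, kcg_65, kcg_77, kcg_84, kcg_85, kcg_90, kcg_101, kcg_106, kcg_111, kcg_123, kcg_133, kcg_136, kcg_137, kcg_141, kcg_153, kcg_158, kcg_161, kcg_171, kcg_179, kcg_180, kcg_184, kcg_194, kcg_202, kcg_206, kcg_215, kcg_220, kcg_227, kcg_228, kcg_229, kcg_249, kcg_258, kcg_278, kcg_279, kcg_300]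
  rcases eq_or_lt_of_le h1 with h | h1
  · subst h
    ((try push_cast); (repeat first | rw [if_pos (by linarith)] | rw [if_neg (by linarith)] | erw [if_pos (by linarith)] | erw [if_neg (by linarith)]); (try push_cast); (try ring1))
  rcases eq_or_lt_of_le h2 with h | h2
  · subst h
    ((try push_cast); (repeat first | rw [if_pos (by linarith)] | rw [if_neg (by linarith)] | erw [if_pos (by linarith)] | erw [if_neg (by linarith)]); (try push_cast); (try ring1))
  · ((try push_cast); (repeat first | rw [if_pos (by linarith)] | rw [if_neg (by linarith)] | erw [if_pos (by linarith)] | erw [if_neg (by linarith)]); (try push_cast); (try ring1))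
theorem kcl13 {p x : ℝ} (h1 : 1 / 5 ≤ p) (h2 : p ≤ 1 / 4) : kcg.v p x = (-12278609 / 6250000 + (x - 67 / 100) * (4902153 / 10000000)) + (426182437 / 20000000 + (x - 67 / 100) * (156557 / 2000000)) * p + (-44557301 / 1000000 + (x - 67 / 100) * (-15657 / 100000)) * p ^ 2 := by
  simp only [kcg, kcg_3, kcg_6, kcg_9, kcg_12, kcg_13, kcg_16, kcg_28, kcg_36, kcg_41, kcg_51, kcg_59, kcg_60, kcg_65, kcg_77, kcg_84, kcg_85, kcg_90, kcg_101, kcg_106, kcg_111, kcg_123, kcg_133, kcg_136, kcg_137, kcg_141, kcg_153, kcg_158, kcg_161, kcg_171, kcg_179, kcg_180, kcg_184, kcg_194, kcg_202, kcg_206, kcg_215, kcg_220, kcg_227, kcg_228, kcg_229, kcg_249, kcg_258, kcg_278, kcg_279, kcg_300]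
  rcases eq_or_lt_of_le h1 with h | h1
  · subst h
    ((try push_cast); (repeat first | rw [if_pos (by linarith)] | rw [if_neg (by linarith)] | erw [if_pos (by linarith)] | erw [if_neg (by linarith)]); (try push_cast); (try ring1))
  rcases eq_or_lt_of_le h2 with h | h2
  · subst h
    ((try push_cast); (repeat first | rw [if_pos (by linarith)] | rw [if_neg (by linarith)] | erw [if_pos (by linarith)] | erw [if_neg (by linarith)]); (try push_cast); (try ring1))
  · ((try push_cast); (repeat first | rw [if_pos (by linarith)] | rw [if_neg (by linarith)] | erw [if_pos (by linarith)] | erw [if_neg (by linarith)]); (try push_cast); (try ring1))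
theorem kcl14 {p x : ℝ} (h1 : 1 / 4 ≤ p) (h2 : p ≤ 3 / 10) : kcg.v p x = (218396087 / 200000000 + (x - 67 / 100) * (9997721 / 20000000)) + (-62866823 / 20000000 + (x - 67 / 100) * (1821 / 2000000)) * p + (34781 / 8000 + (x - 67 / 100) * (-183 / 100000)) * p ^ 2 := by
  simp only [kcg, kcg_3, kcg_6, kcg_9, kcg_12, kcg_13, kcg_16, kcg_28, kcg_36, kcg_41, kcg_51, kcg_59, kcg_60, kcg_65, kcg_77, kcg_84, kcg_85, kcg_90, kcg_101, kcg_106, kcg_111, kcg_123, kcg_133, kcg_136, kcg_137, kcg_141, kcg_153, kcg_158, kcg_161, kcg_171, kcg_179, kcg_180, kcg_184, kcg_194, kcg_202, kcg_206, kcg_215, kcg_220, kcg_227, kcg_228, kcg_229, kcg_249, kcg_258, kcg_278, kcg_279, kcg_300]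
  rcases eq_or_lt_of_le h1 with h | h1
  · subst h
    ((try push_cast); (repeat first | rw [if_pos (by linarith)] | rw [if_neg (by linarith)] | erw [if_pos (by linarith)] | erw [if_neg (by linarith)]); (try push_cast); (try ring1))
  rcases eq_or_lt_of_le h2 with h | h2
  · subst h
    ((try push_cast); (repeat first | rw [if_pos (by linarith)] | rw [if_neg (by linarith)] | erw [if_pos (by linarith)] | erw [if_neg (by linarith)]); (try push_cast); (try ring1))
  · ((try push_cast); (repeat first | rw [if_pos (by linarith)] | rw [if_neg (by linarith)] | erw [if_pos (by linarith)] | erw [if_neg (by linarith)]); (try push_cast); (try ring1))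
theorem kcl15 {p x : ℝ} (h1 : 3 / 10 ≤ p) (h2 : p ≤ 7 / 20) : kcg.v p x = (-263495543 / 100000000 + (x - 67 / 100) * (5000833 / 10000000)) + (217028981 / 10000000 + (x - 67 / 100) * (-101 / 250000)) * p + (-18531387 / 500000 + (x - 67 / 100) * (9 / 25000)) * p ^ 2 := by
  simp only [kcg, kcg_3, kcg_6, kcg_9, kcg_12, kcg_13, kcg_16, kcg_28, kcg_36, kcg_41, kcg_51, kcg_59, kcg_60, kcg_65, kcg_77, kcg_84, kcg_85, kcg_90, kcg_101, kcg_106, kcg_111, kcg_123, kcg_133, kcg_136, kcg_137, kcg_141, kcg_153, kcg_158, kcg_161, kcg_171, kcg_179, kcg_180, kcg_184, kcg_194, kcg_202, kcg_206, kcg_215, kcg_220, kcg_227, kcg_228, kcg_229, kcg_249, kcg_258, kcg_278, kcg_279, kcg_300]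
  rcases eq_or_lt_of_le h1 with h | h1
  · subst h
    ((try push_cast); (repeat first | rw [if_pos (by linarith)] | rw [if_neg (by linarith)] | erw [if_pos (by linarith)] | erw [if_neg (by linarith)]); (try push_cast); (try ring1))
  rcases eq_or_lt_of_le h2 with h | h2
  · subst h
    ((try push_cast); (repeat first | rw [if_pos (by linarith)] | rw [if_neg (by linarith)] | erw [if_pos (by linarith)] | erw [if_neg (by linarith)]); (try push_cast); (try ring1))
  · ((try push_cast); (repeat first | rw [if_pos (by linarith)] | rw [if_neg (by linarith)] | erw [if_pos (by linarith)] | erw [if_neg (by linarith)]); (try push_cast); (try ring1))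
theorem kcl16 {p x : ℝ} (h1 : 7 / 20 ≤ p) (h2 : p ≤ 2 / 5) : kcg.v p x = (126199361 / 25000000 + (x - 67 / 100) * (4997991 / 10000000)) + (-443991167 / 20000000 + (x - 67 / 100) * (61 / 50000)) * p + (25655021 / 1000000 + (x - 67 / 100) * (-49 / 25000)) * p ^ 2 := by
  simp only [kcg, kcg_3, kcg_6, kcg_9, kcg_12, kcg_13, kcg_16, kcg_28, kcg_36, kcg_41, kcg_51, kcg_59, kcg_60, kcg_65, kcg_77, kcg_84, kcg_85, kcg_90, kcg_101, kcg_106, kcg_111, kcg_123, kcg_133, kcg_136, kcg_137, kcg_141, kcg_153, kcg_158, kcg_161, kcg_171, kcg_179, kcg_180, kcg_184, kcg_194, kcg_202, kcg_206, kcg_215, kcg_220, kcg_227, kcg_228, kcg_229, kcg_249, kcg_258, kcg_278, kcg_279, kcg_300]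
  rcases eq_or_lt_of_le h1 with h | h1
  · subst h
    ((try push_cast); (repeat first | rw [if_pos (by linarith)] | rw [if_neg (by linarith)] | erw [if_pos (by linarith)] | erw [if_neg (by linarith)]); (try push_cast); (try ring1))
  rcases eq_or_lt_of_le h2 with h | h2
  · subst h
    ((try push_cast); (repeat first | rw [if_pos (by linarith)] | rw [if_neg (by linarith)] | erw [if_pos (by linarith)] | erw [if_neg (by linarith)]); (try push_cast); (try ring1))
  · ((try push_cast); (repeat first | rw [if_pos (by linarith)] | rw [if_neg (by linarith)] | erw [if_pos (by linarith)] | erw [if_neg (by linarith)]); (try push_cast); (try ring1))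
theorem kcl17 {p x : ℝ} (h1 : 2 / 5 ≤ p) (h2 : p ≤ 9 / 20) : kcg.v p x = (37913417 / 25000000 + (x - 67 / 100) * (5009757 / 10000000)) + (-90847391 / 20000000 + (x - 67 / 100) * (-9323 / 2000000)) * p + (716707 / 200000 + (x - 67 / 100) * (539 / 100000)) * p ^ 2 := by
  simp only [kcg, kcg_3, kcg_6, kcg_9, kcg_12, kcg_13, kcg_16, kcg_28, kcg_36, kcg_41, kcg_51, kcg_59, kcg_60, kcg_65, kcg_77, kcg_84, kcg_85, kcg_90, kcg_101, kcg_106, kcg_111, kcg_123, kcg_133, kcg_136, kcg_137, kcg_141, kcg_153, kcg_158, kcg_161, kcg_171, kcg_179, kcg_180, kcg_184, kcg_194, kcg_202, kcg_206, kcg_215, kcg_220, kcg_227, kcg_228, kcg_229, kcg_249, kcg_258, kcg_278, kcg_279, kcg_300]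
  rcases eq_or_lt_of_le h1 with h | h1
  · subst h
    ((try push_cast); (repeat first | rw [if_pos (by linarith)] | rw [if_neg (by linarith)] | erw [if_pos (by linarith)] | erw [if_neg (by linarith)]); (try push_cast); (try ring1))
  rcases eq_or_lt_of_le h2 with h | h2
  · subst h
    ((try push_cast); (repeat first | rw [if_pos (by linarith)] | rw [if_neg (by linarith)] | erw [if_pos (by linarith)] | erw [if_neg (by linarith)]); (try push_cast); (try ring1))
  · ((try push_cast); (repeat first | rw [if_pos (by linarith)] | rw [if_neg (by linarith)] | erw [if_pos (by linarith)] | erw [if_neg (by linarith)]); (try push_cast); (try ring1))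
theorem kcl18 {p x : ℝ} (h1 : 9 / 20 ≤ p) (h2 : p ≤ 1 / 2) : kcg.v p x = (2215521217 / 200000000 + (x - 67 / 100) * (-6816093 / 312500)) + (-940720231 / 20000000 + (x - 67 / 100) * (19832377 / 200000)) * p + (50798693 / 1000000 + (x - 67 / 100) * (-5508983 / 50000)) * p ^ 2 := by
  simp only [kcg, kcg_3, kcg_6, kcg_9, kcg_12, kcg_13, kcg_16, kcg_28, kcg_36, kcg_41, kcg_51, kcg_59, kcg_60, kcg_65, kcg_77, kcg_84, kcg_85, kcg_90, kcg_101, kcg_106, kcg_111, kcg_123, kcg_133, kcg_136, kcg_137, kcg_141, kcg_153, kcg_158, kcg_161, kcg_171, kcg_179, kcg_180, kcg_184, kcg_194, kcg_202, kcg_206, kcg_215, kcg_220, kcg_227, kcg_228, kcg_229, kcg_249, kcg_258, kcg_278, kcg_279, kcg_300]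
  rcases eq_or_lt_of_le h1 with h | h1
  · subst h
    ((try push_cast); (repeat first | rw [if_pos (by linarith)] | rw [if_neg (by linarith)] | erw [if_pos (by linarith)] | erw [if_neg (by linarith)]); (try push_cast); (try ring1))
  rcases eq_or_lt_of_le h2 with h | h2
  · subst h
    ((try push_cast); (repeat first | rw [if_pos (by linarith)] | rw [if_neg (by linarith)] | erw [if_pos (by linarith)] | erw [if_neg (by linarith)]); (try push_cast); (try ring1))
  · ((try push_cast); (repeat first | rw [if_pos (by linarith)] | rw [if_neg (by linarith)] | erw [if_pos (by linarith)] | erw [if_neg (by linarith)]); (try push_cast); (try ring1))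
theorem kvh0 {p x : ℝ} (h2 : p ≤ -9 / 20) : dt37.kv p x = (-2215521217 / 200000000 + (x - 67 / 100) * (6816093 / 312500)) + (-940720231 / 20000000 + (x - 67 / 100) * (19832377 / 200000)) * p + (-50798693 / 1000000 + (x - 67 / 100) * (5508983 / 50000)) * p ^ 2 := by
  refine (DT.kv_le (by simp only [Cn.rt_v, Cn.ng_v]; push_cast; linarith)).trans ?_
  refine (DT.kv_le (by simp only [Cn.rt_v, Cn.ng_v]; push_cast; linarith)).trans ?_
  refine (DT.kv_le (by simp only [Cn.rt_v, Cn.ng_v]; push_cast; linarith)).trans ?_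
  refine (DT.kv_le (by simp only [Cn.rt_v, Cn.ng_v]; push_cast; linarith)).trans ?_
  simp only [dt1, DT.kv, sw1, sl1, sv1]
  ((try push_cast); ring1)
theorem kvh1 {p x : ℝ} (h1 : -9 / 20 < p) (h2 : p ≤ -2 / 5) : dt37.kv p x = (-37913417 / 25000000 + (x - 67 / 100) * (-5009757 / 10000000)) + (-90847391 / 20000000 + (x - 67 / 100) * (-9323 / 2000000)) * p + (-716707 / 200000 + (x - 67 / 100) * (-539 / 100000)) * p ^ 2 := by
  refine (DT.kv_le (by simp only [Cn.rt_v, Cn.ng_v]; push_cast; linarith)).trans ?_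
  refine (DT.kv_le (by simp only [Cn.rt_v, Cn.ng_v]; push_cast; linarith)).trans ?_
  refine (DT.kv_le (by simp only [Cn.rt_v, Cn.ng_v]; push_cast; linarith)).trans ?_
  refine (DT.kv_gt (by simp only [Cn.rt_v, Cn.ng_v]; push_cast; linarith)).trans ?_
  simp only [dt2, DT.kv, sw2, sl2, sv2]
  ((try push_cast); ring1)
theorem kvh2 {p x : ℝ} (h1 : -2 / 5 < p) (h2 : p ≤ -7 / 20) : dt37.kv p x = (-126199361 / 25000000 + (x - 67 / 100) * (-4997991 / 10000000)) + (-443991167 / 20000000 + (x - 67 / 100) * (61 / 50000)) * p + (-25655021 / 1000000 + (x - 67 / 100) * (49 / 25000)) * p ^ 2 := by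
  refine (DT.kv_le (by simp only [Cn.rt_v, Cn.ng_v]; push_cast; linarith)).trans ?_
  refine (DT.kv_le (by simp only [Cn.rt_v, Cn.ng_v]; push_cast; linarith)).trans ?_
  refine (DT.kv_gt (by simp only [Cn.rt_v, Cn.ng_v]; push_cast; linarith)).trans ?_
  refine (DT.kv_le (by simp only [Cn.rt_v, Cn.ng_v]; push_cast; linarith)).trans ?_
  simp only [dt3, DT.kv, sw3, sl3, sv3]
  ((try push_cast); ring1)
theorem kvh3 {p x : ℝ} (h1 : -7 / 20 < p) (h2 : p ≤ -3 / 10) : dt37.kv p x = (263495543 / 100000000 + (x - 67 / 100) * (-5000833 / 10000000)) + (217028981 / 10000000 + (x - 67 / 100) * (-101 / 250000)) * p + (18531387 / 500000 + (x - 67 / 100) * (-9 / 25000)) * p ^ 2 := by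
  refine (DT.kv_le (by simp only [Cn.rt_v, Cn.ng_v]; push_cast; linarith)).trans ?_
  refine (DT.kv_le (by simp only [Cn.rt_v, Cn.ng_v]; push_cast; linarith)).trans ?_
  refine (DT.kv_gt (by simp only [Cn.rt_v, Cn.ng_v]; push_cast; linarith)).trans ?_
  refine (DT.kv_gt (by simp only [Cn.rt_v, Cn.ng_v]; push_cast; linarith)).trans ?_
  simp only [dt4, DT.kv, sw4, sl4, sv4]
  ((try push_cast); ring1)
theorem kvh4 {p x : ℝ} (h1 : -3 / 10 < p) (h2 : p ≤ -1 / 4) : dt37.kv p x = (-218396087 / 200000000 + (x - 67 / 100) * (-9997721 / 20000000)) + (-62866823 / 20000000 + (x - 67 / 100) * (1821 / 2000000)) * p + (-34781 / 8000 + (x - 67 / 100) * (183 / 100000)) * p ^ 2 := by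
  refine (DT.kv_le (by simp only [Cn.rt_v, Cn.ng_v]; push_cast; linarith)).trans ?_
  refine (DT.kv_gt (by simp only [Cn.rt_v, Cn.ng_v]; push_cast; linarith)).trans ?_
  refine (DT.kv_le (by simp only [Cn.rt_v, Cn.ng_v]; push_cast; linarith)).trans ?_
  refine (DT.kv_le (by simp only [Cn.rt_v, Cn.ng_v]; push_cast; linarith)).trans ?_
  simp only [dt5, DT.kv, sw5, sl5, sv5]
  ((try push_cast); ring1)
theorem kvh5 {p x : ℝ} (h1 : -1 / 4 < p) (h2 : p ≤ -1 / 5) : dt37.kv p x = (12278609 / 6250000 + (x - 67 / 100) * (-4902153 / 10000000)) + (426182437 / 20000000 + (x - 67 / 100) * (156557 / 2000000)) * p + (44557301 / 1000000 + (x - 67 / 100) * (15657 / 100000)) * p ^ 2 := by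
  refine (DT.kv_le (by simp only [Cn.rt_v, Cn.ng_v]; push_cast; linarith)).trans ?_
  refine (DT.kv_gt (by simp only [Cn.rt_v, Cn.ng_v]; push_cast; linarith)).trans ?_
  refine (DT.kv_le (by simp only [Cn.rt_v, Cn.ng_v]; push_cast; linarith)).trans ?_
  refine (DT.kv_gt (by simp only [Cn.rt_v, Cn.ng_v]; push_cast; linarith)).trans ?_
  simp only [dt6, DT.kv, sw6, sl6, sv6]
  ((try push_cast); ring1)
theorem kvh6 {p x : ℝ} (h1 : -1 / 5 < p) (h2 : p ≤ -3 / 20) : dt37.kv p x = (-6007053 / 20000000 + (x - 67 / 100) * (-5090023 / 10000000)) + (-209403 / 156250 + (x - 67 / 100) * (-43837 / 400000)) * p + (-377061 / 31250 + (x - 67 / 100) * (-31311 / 100000)) * p ^ 2 := by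
  refine (DT.kv_le (by simp only [Cn.rt_v, Cn.ng_v]; push_cast; linarith)).trans ?_
  refine (DT.kv_gt (by simp only [Cn.rt_v, Cn.ng_v]; push_cast; linarith)).trans ?_
  refine (DT.kv_gt (by simp only [Cn.rt_v, Cn.ng_v]; push_cast; linarith)).trans ?_
  refine (DT.kv_le (by simp only [Cn.rt_v, Cn.ng_v]; push_cast; linarith)).trans ?_
  simp only [dt7, DT.kv, sw7, sl7, sv7]
  ((try push_cast); ring1)
theorem kvh7 {p x : ℝ} (h1 : -3 / 20 < p) (h2 : p ≤ -1 / 10) : dt37.kv p x = (-1036437 / 10000000 + (x - 67 / 100) * (3503131 / 2000000)) + (3206517 / 2500000 + (x - 67 / 100) * (3003131 / 100000)) * p + (-830833 / 250000 + (x - 67 / 100) * (1251957 / 12500)) * p ^ 2 := by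
  refine (DT.kv_le (by simp only [Cn.rt_v, Cn.ng_v]; push_cast; linarith)).trans ?_
  refine (DT.kv_gt (by simp only [Cn.rt_v, Cn.ng_v]; push_cast; linarith)).trans ?_
  refine (DT.kv_gt (by simp only [Cn.rt_v, Cn.ng_v]; push_cast; linarith)).trans ?_
  refine (DT.kv_gt (by simp only [Cn.rt_v, Cn.ng_v]; push_cast; linarith)).trans ?_
  refine (DT.kv_le (by simp only [Cn.rt_v, Cn.ng_v]; push_cast; linarith)).trans ?_
  simp only [dt8, DT.kv, sw8, sl8, sv8]
  ((try push_cast); ring1)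
theorem kvh8 {p x : ℝ} (h1 : -1 / 10 < p) (h2 : p ≤ -1 / 20) : dt37.kv p x = (2347013 / 100000000 + (x - 67 / 100) * (-2499999 / 10000000)) + (38248833 / 10000000 + (x - 67 / 100) * (-2499999 / 250000)) * p + (187761 / 20000 + (x - 67 / 100) * (-2499999 / 25000)) * p ^ 2 := by
  refine (DT.kv_le (by simp only [Cn.rt_v, Cn.ng_v]; push_cast; linarith)).trans ?_
  refine (DT.kv_gt (by simp only [Cn.rt_v, Cn.ng_v]; push_cast; linarith)).trans ?_
  refine (DT.kv_gt (by simp only [Cn.rt_v, Cn.ng_v]; push_cast; linarith)).trans ?_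
  refine (DT.kv_gt (by simp only [Cn.rt_v, Cn.ng_v]; push_cast; linarith)).trans ?_
  refine (DT.kv_gt (by simp only [Cn.rt_v, Cn.ng_v]; push_cast; linarith)).trans ?_
  simp only [dt9, DT.kv, sw9, sl9, sv9]
  ((try push_cast); ring1)
theorem kvh9 {p x : ℝ} (h1 : -1 / 20 < p) (h2 : p ≤ 1 / 20) : dt37.kv p x = (0) + (14430391 / 5000000) * p := by
  refine (DT.kv_gt (by simp only [Cn.rt_v, Cn.ng_v]; push_cast; linarith)).trans ?_
  refine (DT.kv_le (by simp only [Cn.rt_v, Cn.ng_v]; push_cast; linarith)).trans ?_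
  refine (DT.kv_le (by simp only [Cn.rt_v, Cn.ng_v]; push_cast; linarith)).trans ?_
  refine (DT.kv_le (by simp only [Cn.rt_v, Cn.ng_v]; push_cast; linarith)).trans ?_
  simp only [dt10, DT.kv, sl10, sv10]
  ((try push_cast); ring1)
theorem kvh10 {p x : ℝ} (h1 : 1 / 20 < p) (h2 : p ≤ 1 / 10) : dt37.kv p x = (-2347013 / 100000000 + (x - 67 / 100) * (2499999 / 10000000)) + (38248833 / 10000000 + (x - 67 / 100) * (-2499999 / 250000)) * p + (-187761 / 20000 + (x - 67 / 100) * (2499999 / 25000)) * p ^ 2 := by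
  refine (DT.kv_gt (by simp only [Cn.rt_v, Cn.ng_v]; push_cast; linarith)).trans ?_
  refine (DT.kv_le (by simp only [Cn.rt_v, Cn.ng_v]; push_cast; linarith)).trans ?_
  refine (DT.kv_le (by simp only [Cn.rt_v, Cn.ng_v]; push_cast; linarith)).trans ?_
  refine (DT.kv_gt (by simp only [Cn.rt_v, Cn.ng_v]; push_cast; linarith)).trans ?_
  simp only [dt11, DT.kv, sw11, sl11, sv11]
  ((try push_cast); ring1)
theorem kvh11 {p x : ℝ} (h1 : 1 / 10 < p) (h2 : p ≤ 3 / 20) : dt37.kv p x = (1036437 / 10000000 + (x - 67 / 100) * (-3503131 / 2000000)) + (3206517 / 2500000 + (x - 67 / 100) * (3003131 / 100000)) * p + (830833 / 250000 + (x - 67 / 100) * (-1251957 / 12500)) * p ^ 2 := by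
  refine (DT.kv_gt (by simp only [Cn.rt_v, Cn.ng_v]; push_cast; linarith)).trans ?_
  refine (DT.kv_le (by simp only [Cn.rt_v, Cn.ng_v]; push_cast; linarith)).trans ?_
  refine (DT.kv_gt (by simp only [Cn.rt_v, Cn.ng_v]; push_cast; linarith)).trans ?_
  refine (DT.kv_le (by simp only [Cn.rt_v, Cn.ng_v]; push_cast; linarith)).trans ?_
  simp only [dt12, DT.kv, sw12, sl12, sv12]
  ((try push_cast); ring1)
theorem kvh12 {p x : ℝ} (h1 : 3 / 20 < p) (h2 : p ≤ 1 / 5) : dt37.kv p x = (6007053 / 20000000 + (x - 67 / 100) * (5090023 / 10000000)) + (-209403 / 156250 + (x - 67 / 100) * (-43837 / 400000)) * p + (377061 / 31250 + (x - 67 / 100) * (31311 / 100000)) * p ^ 2 := by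
  refine (DT.kv_gt (by simp only [Cn.rt_v, Cn.ng_v]; push_cast; linarith)).trans ?_
  refine (DT.kv_le (by simp only [Cn.rt_v, Cn.ng_v]; push_cast; linarith)).trans ?_
  refine (DT.kv_gt (by simp only [Cn.rt_v, Cn.ng_v]; push_cast; linarith)).trans ?_
  refine (DT.kv_gt (by simp only [Cn.rt_v, Cn.ng_v]; push_cast; linarith)).trans ?_
  refine (DT.kv_le (by simp only [Cn.rt_v, Cn.ng_v]; push_cast; linarith)).trans ?_
  simp only [dt13, DT.kv, sw13, sl13, sv13]
  ((try push_cast); ring1)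
theorem kvh13 {p x : ℝ} (h1 : 1 / 5 < p) (h2 : p ≤ 1 / 4) : dt37.kv p x = (-12278609 / 6250000 + (x - 67 / 100) * (4902153 / 10000000)) + (426182437 / 20000000 + (x - 67 / 100) * (156557 / 2000000)) * p + (-44557301 / 1000000 + (x - 67 / 100) * (-15657 / 100000)) * p ^ 2 := by
  refine (DT.kv_gt (by simp only [Cn.rt_v, Cn.ng_v]; push_cast; linarith)).trans ?_
  refine (DT.kv_le (by simp only [Cn.rt_v, Cn.ng_v]; push_cast; linarith)).trans ?_
  refine (DT.kv_gt (by simp only [Cn.rt_v, Cn.ng_v]; push_cast; linarith)).trans ?_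
  refine (DT.kv_gt (by simp only [Cn.rt_v, Cn.ng_v]; push_cast; linarith)).trans ?_
  refine (DT.kv_gt (by simp only [Cn.rt_v, Cn.ng_v]; push_cast; linarith)).trans ?_
  simp only [dt14, DT.kv, sw14, sl14, sv14]
  ((try push_cast); ring1)
theorem kvh14 {p x : ℝ} (h1 : 1 / 4 < p) (h2 : p ≤ 3 / 10) : dt37.kv p x = (218396087 / 200000000 + (x - 67 / 100) * (9997721 / 20000000)) + (-62866823 / 20000000 + (x - 67 / 100) * (1821 / 2000000)) * p + (34781 / 8000 + (x - 67 / 100) * (-183 / 100000)) * p ^ 2 := by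
  refine (DT.kv_gt (by simp only [Cn.rt_v, Cn.ng_v]; push_cast; linarith)).trans ?_
  refine (DT.kv_gt (by simp only [Cn.rt_v, Cn.ng_v]; push_cast; linarith)).trans ?_
  refine (DT.kv_le (by simp only [Cn.rt_v, Cn.ng_v]; push_cast; linarith)).trans ?_
  refine (DT.kv_le (by simp only [Cn.rt_v, Cn.ng_v]; push_cast; linarith)).trans ?_
  simp only [dt15, DT.kv, sw15, sl15, sv15]
  ((try push_cast); ring1)
theorem kvh15 {p x : ℝ} (h1 : 3 / 10 < p) (h2 : p ≤ 7 / 20) : dt37.kv p x = (-263495543 / 100000000 + (x - 67 / 100) * (5000833 / 10000000)) + (217028981 / 10000000 + (x - 67 / 100) * (-101 / 250000)) * p + (-18531387 / 500000 + (x - 67 / 100) * (9 / 25000)) * p ^ 2 := by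
  refine (DT.kv_gt (by simp only [Cn.rt_v, Cn.ng_v]; push_cast; linarith)).trans ?_
  refine (DT.kv_gt (by simp only [Cn.rt_v, Cn.ng_v]; push_cast; linarith)).trans ?_
  refine (DT.kv_le (by simp only [Cn.rt_v, Cn.ng_v]; push_cast; linarith)).trans ?_
  refine (DT.kv_gt (by simp only [Cn.rt_v, Cn.ng_v]; push_cast; linarith)).trans ?_
  simp only [dt16, DT.kv, sw16, sl16, sv16]
  ((try push_cast); ring1)
theorem kvh16 {p x : ℝ} (h1 : 7 / 20 < p) (h2 : p ≤ 2 / 5) : dt37.kv p x = (126199361 / 25000000 + (x - 67 / 100) * (4997991 / 10000000)) + (-443991167 / 20000000 + (x - 67 / 100) * (61 / 50000)) * p + (25655021 / 1000000 + (x - 67 / 100) * (-49 / 25000)) * p ^ 2 := by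
  refine (DT.kv_gt (by simp only [Cn.rt_v, Cn.ng_v]; push_cast; linarith)).trans ?_
  refine (DT.kv_gt (by simp only [Cn.rt_v, Cn.ng_v]; push_cast; linarith)).trans ?_
  refine (DT.kv_gt (by simp only [Cn.rt_v, Cn.ng_v]; push_cast; linarith)).trans ?_
  refine (DT.kv_le (by simp only [Cn.rt_v, Cn.ng_v]; push_cast; linarith)).trans ?_
  simp only [dt17, DT.kv, sw17, sl17, sv17]
  ((try push_cast); ring1)
theorem kvh17 {p x : ℝ} (h1 : 2 / 5 < p) (h2 : p ≤ 9 / 20) : dt37.kv p x = (37913417 / 25000000 + (x - 67 / 100) * (5009757 / 10000000)) + (-90847391 / 20000000 + (x - 67 / 100) * (-9323 / 2000000)) * p + (716707 / 200000 + (x - 67 / 100) * (539 / 100000)) * p ^ 2 := by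
  refine (DT.kv_gt (by simp only [Cn.rt_v, Cn.ng_v]; push_cast; linarith)).trans ?_
  refine (DT.kv_gt (by simp only [Cn.rt_v, Cn.ng_v]; push_cast; linarith)).trans ?_
  refine (DT.kv_gt (by simp only [Cn.rt_v, Cn.ng_v]; push_cast; linarith)).trans ?_
  refine (DT.kv_gt (by simp only [Cn.rt_v, Cn.ng_v]; push_cast; linarith)).trans ?_
  refine (DT.kv_le (by simp only [Cn.rt_v, Cn.ng_v]; push_cast; linarith)).trans ?_
  simp only [dt18, DT.kv, sw18, sl18, sv18]
  ((try push_cast); ring1)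
theorem kvh18 {p x : ℝ} (h1 : 9 / 20 < p) (h2 : p ≤ 1 / 2) : dt37.kv p x = (2215521217 / 200000000 + (x - 67 / 100) * (-6816093 / 312500)) + (-940720231 / 20000000 + (x - 67 / 100) * (19832377 / 200000)) * p + (50798693 / 1000000 + (x - 67 / 100) * (-5508983 / 50000)) * p ^ 2 := by
  refine (DT.kv_gt (by simp only [Cn.rt_v, Cn.ng_v]; push_cast; linarith)).trans ?_
  refine (DT.kv_gt (by simp only [Cn.rt_v, Cn.ng_v]; push_cast; linarith)).trans ?_
  refine (DT.kv_gt (by simp only [Cn.rt_v, Cn.ng_v]; push_cast; linarith)).trans ?_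
  refine (DT.kv_gt (by simp only [Cn.rt_v, Cn.ng_v]; push_cast; linarith)).trans ?_
  refine (DT.kv_gt (by simp only [Cn.rt_v, Cn.ng_v]; push_cast; linarith)).trans ?_
  simp only [dt19, DT.kv, sw19, sl19, sv19]
  ((try push_cast); ring1)
theorem kvl0 {p x : ℝ} (h1 : -1 / 2 ≤ p) (h2 : p ≤ -9 / 20) : dt37.kv p x = (-2215521217 / 200000000 + (x - 67 / 100) * (6816093 / 312500)) + (-940720231 / 20000000 + (x - 67 / 100) * (19832377 / 200000)) * p + (-50798693 / 1000000 + (x - 67 / 100) * (5508983 / 50000)) * p ^ 2 := by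
  exact kvh0 h2
theorem kvl1 {p x : ℝ} (h1 : -9 / 20 ≤ p) (h2 : p ≤ -2 / 5) : dt37.kv p x = (-37913417 / 25000000 + (x - 67 / 100) * (-5009757 / 10000000)) + (-90847391 / 20000000 + (x - 67 / 100) * (-9323 / 2000000)) * p + (-716707 / 200000 + (x - 67 / 100) * (-539 / 100000)) * p ^ 2 := by
  rcases eq_or_lt_of_le h1 with h | h1
  · subst h
    rw [kvh0 (by norm_num)]
    ring1
  · exact kvh1 h1 h2
theorem kvl2 {p x : ℝ} (h1 : -2 / 5 ≤ p) (h2 : p ≤ -7 / 20) : dt37.kv p x = (-126199361 / 25000000 + (x - 67 / 100) * (-4997991 / 10000000)) + (-443991167 / 20000000 + (x - 67 / 100) * (61 / 50000)) * p + (-25655021 / 1000000 + (x - 67 / 100) * (49 / 25000)) * p ^ 2 := by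
  rcases eq_or_lt_of_le h1 with h | h1
  · subst h
    rw [kvh1 (by norm_num) (by norm_num)]
    ring1
  · exact kvh2 h1 h2
theorem kvl3 {p x : ℝ} (h1 : -7 / 20 ≤ p) (h2 : p ≤ -3 / 10) : dt37.kv p x = (263495543 / 100000000 + (x - 67 / 100) * (-5000833 / 10000000)) + (217028981 / 10000000 + (x - 67 / 100) * (-101 / 250000)) * p + (18531387 / 500000 + (x - 67 / 100) * (-9 / 25000)) * p ^ 2 := by
  rcases eq_or_lt_of_le h1 with h | h1
  · subst h
    rw [kvh2 (by norm_num) (by norm_num)]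
    ring1
  · exact kvh3 h1 h2
theorem kvl4 {p x : ℝ} (h1 : -3 / 10 ≤ p) (h2 : p ≤ -1 / 4) : dt37.kv p x = (-218396087 / 200000000 + (x - 67 / 100) * (-9997721 / 20000000)) + (-62866823 / 20000000 + (x - 67 / 100) * (1821 / 2000000)) * p + (-34781 / 8000 + (x - 67 / 100) * (183 / 100000)) * p ^ 2 := by
  rcases eq_or_lt_of_le h1 with h | h1
  · subst h
    rw [kvh3 (by norm_num) (by norm_num)]
    ring1
  · exact kvh4 h1 h2
theorem kvl5 {p x : ℝ} (h1 : -1 / 4 ≤ p) (h2 : p ≤ -1 / 5) : dt37.kv p x = (12278609 / 6250000 + (x - 67 / 100) * (-4902153 / 10000000)) + (426182437 / 20000000 + (x - 67 / 100) * (156557 / 2000000)) * p + (44557301 / 1000000 + (x - 67 / 100) * (15657 / 100000)) * p ^ 2 := by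
  rcases eq_or_lt_of_le h1 with h | h1
  · subst h
    rw [kvh4 (by norm_num) (by norm_num)]
    ring1
  · exact kvh5 h1 h2
theorem kvl6 {p x : ℝ} (h1 : -1 / 5 ≤ p) (h2 : p ≤ -3 / 20) : dt37.kv p x = (-6007053 / 20000000 + (x - 67 / 100) * (-5090023 / 10000000)) + (-209403 / 156250 + (x - 67 / 100) * (-43837 / 400000)) * p + (-377061 / 31250 + (x - 67 / 100) * (-31311 / 100000)) * p ^ 2 := by
  rcases eq_or_lt_of_le h1 with h | h1
  · subst h
    rw [kvh5 (by norm_num) (by norm_num)]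
    ring1
  · exact kvh6 h1 h2
theorem kvl7 {p x : ℝ} (h1 : -3 / 20 ≤ p) (h2 : p ≤ -1 / 10) : dt37.kv p x = (-1036437 / 10000000 + (x - 67 / 100) * (3503131 / 2000000)) + (3206517 / 2500000 + (x - 67 / 100) * (3003131 / 100000)) * p + (-830833 / 250000 + (x - 67 / 100) * (1251957 / 12500)) * p ^ 2 := by
  rcases eq_or_lt_of_le h1 with h | h1
  · subst h
    rw [kvh6 (by norm_num) (by norm_num)]
    ring1
  · exact kvh7 h1 h2
theorem kvl8 {p x : ℝ} (h1 : -1 / 10 ≤ p) (h2 : p ≤ -1 / 20) : dt37.kv p x = (2347013 / 100000000 + (x - 67 / 100) * (-2499999 / 10000000)) + (38248833 / 10000000 + (x - 67 / 100) * (-2499999 / 250000)) * p + (187761 / 20000 + (x - 67 / 100) * (-2499999 / 25000)) * p ^ 2 := by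
  rcases eq_or_lt_of_le h1 with h | h1
  · subst h
    rw [kvh7 (by norm_num) (by norm_num)]
    ring1
  · exact kvh8 h1 h2
theorem kvl9 {p x : ℝ} (h1 : -1 / 20 ≤ p) (h2 : p ≤ 1 / 20) : dt37.kv p x = (0) + (14430391 / 5000000) * p := by
  rcases eq_or_lt_of_le h1 with h | h1
  · subst h
    rw [kvh8 (by norm_num) (by norm_num)]
    ring1
  · exact kvh9 h1 h2
theorem kvl10 {p x : ℝ} (h1 : 1 / 20 ≤ p) (h2 : p ≤ 1 / 10) : dt37.kv p x = (-2347013 / 100000000 + (x - 67 / 100) * (2499999 / 10000000)) + (38248833 / 10000000 + (x - 67 / 100) * (-2499999 / 250000)) * p + (-187761 / 20000 + (x - 67 / 100) * (2499999 / 25000)) * p ^ 2 := by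
  rcases eq_or_lt_of_le h1 with h | h1
  · subst h
    rw [kvh9 (by norm_num) (by norm_num)]
    ring1
  · exact kvh10 h1 h2
theorem kvl11 {p x : ℝ} (h1 : 1 / 10 ≤ p) (h2 : p ≤ 3 / 20) : dt37.kv p x = (1036437 / 10000000 + (x - 67 / 100) * (-3503131 / 2000000)) + (3206517 / 2500000 + (x - 67 / 100) * (3003131 / 100000)) * p + (830833 / 250000 + (x - 67 / 100) * (-1251957 / 12500)) * p ^ 2 := by
  rcases eq_or_lt_of_le h1 with h | h1
  · subst h
    rw [kvh10 (by norm_num) (by norm_num)]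
    ring1
  · exact kvh11 h1 h2
theorem kvl12 {p x : ℝ} (h1 : 3 / 20 ≤ p) (h2 : p ≤ 1 / 5) : dt37.kv p x = (6007053 / 20000000 + (x - 67 / 100) * (5090023 / 10000000)) + (-209403 / 156250 + (x - 67 / 100) * (-43837 / 400000)) * p + (377061 / 31250 + (x - 67 / 100) * (31311 / 100000)) * p ^ 2 := by
  rcases eq_or_lt_of_le h1 with h | h1
  · subst h
    rw [kvh11 (by norm_num) (by norm_num)]
    ring1
  · exact kvh12 h1 h2
theorem kvl13 {p x : ℝ} (h1 : 1 / 5 ≤ p) (h2 : p ≤ 1 / 4) : dt37.kv p x = (-12278609 / 6250000 + (x - 67 / 100) * (4902153 / 10000000)) + (426182437 / 20000000 + (x - 67 / 100) * (156557 / 2000000)) * p + (-44557301 / 1000000 + (x - 67 / 100) * (-15657 / 100000)) * p ^ 2 := by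
  rcases eq_or_lt_of_le h1 with h | h1
  · subst h
    rw [kvh12 (by norm_num) (by norm_num)]
    ring1
  · exact kvh13 h1 h2
theorem kvl14 {p x : ℝ} (h1 : 1 / 4 ≤ p) (h2 : p ≤ 3 / 10) : dt37.kv p x = (218396087 / 200000000 + (x - 67 / 100) * (9997721 / 20000000)) + (-62866823 / 20000000 + (x - 67 / 100) * (1821 / 2000000)) * p + (34781 / 8000 + (x - 67 / 100) * (-183 / 100000)) * p ^ 2 := by
  rcases eq_or_lt_of_le h1 with h | h1
  · subst h
    rw [kvh13 (by norm_num) (by norm_num)]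
    ring1
  · exact kvh14 h1 h2
theorem kvl15 {p x : ℝ} (h1 : 3 / 10 ≤ p) (h2 : p ≤ 7 / 20) : dt37.kv p x = (-263495543 / 100000000 + (x - 67 / 100) * (5000833 / 10000000)) + (217028981 / 10000000 + (x - 67 / 100) * (-101 / 250000)) * p + (-18531387 / 500000 + (x - 67 / 100) * (9 / 25000)) * p ^ 2 := by
  rcases eq_or_lt_of_le h1 with h | h1
  · subst h
    rw [kvh14 (by norm_num) (by norm_num)]
    ring1
  · exact kvh15 h1 h2
theorem kvl16 {p x : ℝ} (h1 : 7 / 20 ≤ p) (h2 : p ≤ 2 / 5) : dt37.kv p x = (126199361 / 25000000 + (x - 67 / 100) * (4997991 / 10000000)) + (-443991167 / 20000000 + (x - 67 / 100) * (61 / 50000)) * p + (25655021 / 1000000 + (x - 67 / 100) * (-49 / 25000)) * p ^ 2 := by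
  rcases eq_or_lt_of_le h1 with h | h1
  · subst h
    rw [kvh15 (by norm_num) (by norm_num)]
    ring1
  · exact kvh16 h1 h2
theorem kvl17 {p x : ℝ} (h1 : 2 / 5 ≤ p) (h2 : p ≤ 9 / 20) : dt37.kv p x = (37913417 / 25000000 + (x - 67 / 100) * (5009757 / 10000000)) + (-90847391 / 20000000 + (x - 67 / 100) * (-9323 / 2000000)) * p + (716707 / 200000 + (x - 67 / 100) * (539 / 100000)) * p ^ 2 := by
  rcases eq_or_lt_of_le h1 with h | h1
  · subst h
    rw [kvh16 (by norm_num) (by norm_num)]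
    ring1
  · exact kvh17 h1 h2
theorem kvl18 {p x : ℝ} (h1 : 9 / 20 ≤ p) (h2 : p ≤ 1 / 2) : dt37.kv p x = (2215521217 / 200000000 + (x - 67 / 100) * (-6816093 / 312500)) + (-940720231 / 20000000 + (x - 67 / 100) * (19832377 / 200000)) * p + (50798693 / 1000000 + (x - 67 / 100) * (-5508983 / 50000)) * p ^ 2 := by
  rcases eq_or_lt_of_le h1 with h | h1
  · subst h
    rw [kvh17 (by norm_num) (by norm_num)]
    ring1
  · exact kvh18 h1 h2
theorem kfe {x p : ℝ} (h : |p| ≤ 1 / 2) : kcg.v p x = dt37.kv p x := by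
  obtain ⟨h1, h2⟩ := abs_le.1 h
  rcases le_total p (-9 / 20) with g0 | g1000
  · rw [kcl0 (by linarith) g0, kvl0 (by linarith) g0]
  rcases le_total p (-2 / 5) with g1 | g1001
  · rw [kcl1 g1000 g1, kvl1 g1000 g1]
  rcases le_total p (-7 / 20) with g2 | g1002
  · rw [kcl2 g1001 g2, kvl2 g1001 g2]
  rcases le_total p (-3 / 10) with g3 | g1003
  · rw [kcl3 g1002 g3, kvl3 g1002 g3]
  rcases le_total p (-1 / 4) with g4 | g1004
  · rw [kcl4 g1003 g4, kvl4 g1003 g4]
  rcases le_total p (-1 / 5) with g5 | g1005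
  · rw [kcl5 g1004 g5, kvl5 g1004 g5]
  rcases le_total p (-3 / 20) with g6 | g1006
  · rw [kcl6 g1005 g6, kvl6 g1005 g6]
  rcases le_total p (-1 / 10) with g7 | g1007
  · rw [kcl7 g1006 g7, kvl7 g1006 g7]
  rcases le_total p (-1 / 20) with g8 | g1008
  · rw [kcl8 g1007 g8, kvl8 g1007 g8]
  rcases le_total p (1 / 20) with g9 | g1009
  · rw [kcl9 g1008 g9, kvl9 g1008 g9]
  rcases le_total p (1 / 10) with g10 | g1010
  · rw [kcl10 g1009 g10, kvl10 g1009 g10]
  rcases le_total p (3 / 20) with g11 | g1011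
  · rw [kcl11 g1010 g11, kvl11 g1010 g11]
  rcases le_total p (1 / 5) with g12 | g1012
  · rw [kcl12 g1011 g12, kvl12 g1011 g12]
  rcases le_total p (1 / 4) with g13 | g1013
  · rw [kcl13 g1012 g13, kvl13 g1012 g13]
  rcases le_total p (3 / 10) with g14 | g1014
  · rw [kcl14 g1013 g14, kvl14 g1013 g14]
  rcases le_total p (7 / 20) with g15 | g1015
  · rw [kcl15 g1014 g15, kvl15 g1014 g15]
  rcases le_total p (2 / 5) with g16 | g1016
  · rw [kcl16 g1015 g16, kvl16 g1015 g16]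
  rcases le_total p (9 / 20) with g17 | g1017
  · rw [kcl17 g1016 g17, kvl17 g1016 g17]
  · rw [kcl18 g1017 (by linarith), kvl18 g1017 (by linarith)]
theorem odd {x p : ℝ} (h : |p| ≤ 1 / 2) : kcg.v (-p) x = -kcg.v p x := by
  obtain ⟨h1, h2⟩ := abs_le.1 h
  rcases le_total p (-9 / 20) with g0 | g1000
  · rw [kcl0 (by linarith) g0, kcl18 (p := -p) (by linarith) (by linarith)]; ring
  rcases le_total p (-2 / 5) with g1 | g1001
  · rw [kcl1 g1000 g1, kcl17 (p := -p) (by linarith) (by linarith)]; ring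
  rcases le_total p (-7 / 20) with g2 | g1002
  · rw [kcl2 g1001 g2, kcl16 (p := -p) (by linarith) (by linarith)]; ring
  rcases le_total p (-3 / 10) with g3 | g1003
  · rw [kcl3 g1002 g3, kcl15 (p := -p) (by linarith) (by linarith)]; ring
  rcases le_total p (-1 / 4) with g4 | g1004
  · rw [kcl4 g1003 g4, kcl14 (p := -p) (by linarith) (by linarith)]; ring
  rcases le_total p (-1 / 5) with g5 | g1005
  · rw [kcl5 g1004 g5, kcl13 (p := -p) (by linarith) (by linarith)]; ring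
  rcases le_total p (-3 / 20) with g6 | g1006
  · rw [kcl6 g1005 g6, kcl12 (p := -p) (by linarith) (by linarith)]; ring
  rcases le_total p (-1 / 10) with g7 | g1007
  · rw [kcl7 g1006 g7, kcl11 (p := -p) (by linarith) (by linarith)]; ring
  rcases le_total p (-1 / 20) with g8 | g1008
  · rw [kcl8 g1007 g8, kcl10 (p := -p) (by linarith) (by linarith)]; ring
  rcases le_total p (1 / 20) with g9 | g1009
  · rw [kcl9 g1008 g9, kcl9 (p := -p) (by linarith) (by linarith)]; ring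
  rcases le_total p (1 / 10) with g10 | g1010
  · rw [kcl10 g1009 g10, kcl8 (p := -p) (by linarith) (by linarith)]; ring
  rcases le_total p (3 / 20) with g11 | g1011
  · rw [kcl11 g1010 g11, kcl7 (p := -p) (by linarith) (by linarith)]; ring
  rcases le_total p (1 / 5) with g12 | g1012
  · rw [kcl12 g1011 g12, kcl6 (p := -p) (by linarith) (by linarith)]; ring
  rcases le_total p (1 / 4) with g13 | g1013
  · rw [kcl13 g1012 g13, kcl5 (p := -p) (by linarith) (by linarith)]; ring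
  rcases le_total p (3 / 10) with g14 | g1014
  · rw [kcl14 g1013 g14, kcl4 (p := -p) (by linarith) (by linarith)]; ring
  rcases le_total p (7 / 20) with g15 | g1015
  · rw [kcl15 g1014 g15, kcl3 (p := -p) (by linarith) (by linarith)]; ring
  rcases le_total p (2 / 5) with g16 | g1016
  · rw [kcl16 g1015 g16, kcl2 (p := -p) (by linarith) (by linarith)]; ring
  rcases le_total p (9 / 20) with g17 | g1017
  · rw [kcl17 g1016 g17, kcl1 (p := -p) (by linarith) (by linarith)]; ring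
  · rw [kcl18 g1017 (by linarith), kcl0 (p := -p) (by linarith) (by linarith)]; ring
theorem ctA : cT (47 / 914) = 767 / 914 := by
  unfold cT
  rw [show (3 / 4 * (1 - (47 / 914 : ℝ) ^ 2)) = (1581 / 1828) ^ 2 by norm_num, Real.sqrt_sq (by norm_num)]
  norm_num
theorem ctB : cT (1 / 7) = 11 / 14 := by
  unfold cT
  rw [show (3 / 4 * (1 - (1 / 7 : ℝ) ^ 2)) = (6 / 7) ^ 2 by norm_num, Real.sqrt_sq (by norm_num)]
  norm_num
theorem kgA {x : ℝ} : kcg.v (47 / 914) x = (774776760187 / 5221225000000 + (x - 67 / 100) * (422499831 / 2088490000000)) := by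
  rw [kcl10 (by norm_num) (by norm_num)]
  ring
theorem kgB {x : ℝ} : kcg.v (1 / 7) x = (173801209 / 490000000 + (x - 67 / 100) * (6924543 / 14000000)) := by
  rw [kcl11 (by norm_num) (by norm_num)]
  ring
theorem ka_dt1 (x : ℝ) : dt1.kv (-1 / 2) x = (-6481839 / 25000000 + (x - 67 / 100) * (-2245299 / 10000000)) := by
  simp only [dt1, DT.kv, sw1, sl1, sv1]
  ((try push_cast); ring1)
theorem kb_dt1 (x : ℝ) : dt1.kv (-9 / 20) x = (-9906811 / 50000000 + (x - 67 / 100) * (-999939 / 2000000)) := by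
  simp only [dt1, DT.kv, sw1, sl1, sv1]
  ((try push_cast); ring1)
theorem ka_dt2 (x : ℝ) : dt2.kv (-9 / 20) x = (-9906811 / 50000000 + (x - 67 / 100) * (-999939 / 2000000)) := by
  simp only [dt2, DT.kv, sw2, sl2, sv2]
  ((try push_cast); ring1)
theorem kb_dt2 (x : ℝ) : dt2.kv (-2 / 5) x = (-13647723 / 50000000 + (x - 67 / 100) * (-999947 / 2000000)) := by
  simp only [dt2, DT.kv, sw2, sl2, sv2]
  ((try push_cast); ring1)
theorem ka_dt20 (x : ℝ) : dt20.kv (-1 / 2) x = (-6481839 / 25000000 + (x - 67 / 100) * (-2245299 / 10000000)) :=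
  (DT.kv_le (by simp only [Cn.rt_v, Cn.ng_v]; norm_num)).trans (ka_dt1 x)
theorem kb_dt20 (x : ℝ) : dt20.kv (-2 / 5) x = (-13647723 / 50000000 + (x - 67 / 100) * (-999947 / 2000000)) :=
  (DT.kv_gt (by simp only [Cn.rt_v, Cn.ng_v]; norm_num)).trans (kb_dt2 x)
theorem ka_dt3 (x : ℝ) : dt3.kv (-2 / 5) x = (-13647723 / 50000000 + (x - 67 / 100) * (-999947 / 2000000)) := by
  simp only [dt3, DT.kv, sw3, sl3, sv3]
  ((try push_cast); ring1)
theorem kb_dt3 (x : ℝ) : dt3.kv (-7 / 20) x = (-42086909 / 100000000 + (x - 67 / 100) * (-249993 / 500000)) := by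
  simp only [dt3, DT.kv, sw3, sl3, sv3]
  ((try push_cast); ring1)
theorem ka_dt4 (x : ℝ) : dt4.kv (-7 / 20) x = (-42086909 / 100000000 + (x - 67 / 100) * (-249993 / 500000)) := by
  simp only [dt4, DT.kv, sw4, sl4, sv4]
  ((try push_cast); ring1)
theorem kb_dt4 (x : ℝ) : dt4.kv (-3 / 10) x = (-27013217 / 50000000 + (x - 67 / 100) * (-999989 / 2000000)) := by
  simp only [dt4, DT.kv, sw4, sl4, sv4]
  ((try push_cast); ring1)
theorem ka_dt21 (x : ℝ) : dt21.kv (-2 / 5) x = (-13647723 / 50000000 + (x - 67 / 100) * (-999947 / 2000000)) :=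
  (DT.kv_le (by simp only [Cn.rt_v, Cn.ng_v]; norm_num)).trans (ka_dt3 x)
theorem kb_dt21 (x : ℝ) : dt21.kv (-3 / 10) x = (-27013217 / 50000000 + (x - 67 / 100) * (-999989 / 2000000)) :=
  (DT.kv_gt (by simp only [Cn.rt_v, Cn.ng_v]; norm_num)).trans (kb_dt4 x)
theorem ka_dt22 (x : ℝ) : dt22.kv (-1 / 2) x = (-6481839 / 25000000 + (x - 67 / 100) * (-2245299 / 10000000)) :=
  (DT.kv_le (by simp only [Cn.rt_v, Cn.ng_v]; norm_num)).trans (ka_dt20 x)
theorem kb_dt22 (x : ℝ) : dt22.kv (-3 / 10) x = (-27013217 / 50000000 + (x - 67 / 100) * (-999989 / 2000000)) :=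
  (DT.kv_gt (by simp only [Cn.rt_v, Cn.ng_v]; norm_num)).trans (kb_dt21 x)
theorem ka_dt5 (x : ℝ) : dt5.kv (-3 / 10) x = (-27013217 / 50000000 + (x - 67 / 100) * (-999989 / 2000000)) := by
  simp only [dt5, DT.kv, sw5, sl5, sv5]
  ((try push_cast); ring1)
theorem kb_dt5 (x : ℝ) : dt5.kv (-1 / 4) x = (-57787171 / 100000000 + (x - 67 / 100) * (-4999993 / 10000000)) := by
  simp only [dt5, DT.kv, sw5, sl5, sv5]
  ((try push_cast); ring1)
theorem ka_dt6 (x : ℝ) : dt6.kv (-1 / 4) x = (-57787171 / 100000000 + (x - 67 / 100) * (-4999993 / 10000000)) := by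
  simp only [dt6, DT.kv, sw6, sl6, sv6]
  ((try push_cast); ring1)
theorem kb_dt6 (x : ℝ) : dt6.kv (-1 / 5) x = (-51495489 / 100000000 + (x - 67 / 100) * (-2498041 / 5000000)) := by
  simp only [dt6, DT.kv, sw6, sl6, sv6]
  ((try push_cast); ring1)
theorem ka_dt23 (x : ℝ) : dt23.kv (-3 / 10) x = (-27013217 / 50000000 + (x - 67 / 100) * (-999989 / 2000000)) :=
  (DT.kv_le (by simp only [Cn.rt_v, Cn.ng_v]; norm_num)).trans (ka_dt5 x)
theorem kb_dt23 (x : ℝ) : dt23.kv (-1 / 5) x = (-51495489 / 100000000 + (x - 67 / 100) * (-2498041 / 5000000)) :=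
  (DT.kv_gt (by simp only [Cn.rt_v, Cn.ng_v]; norm_num)).trans (kb_dt6 x)
theorem ka_dt7 (x : ℝ) : dt7.kv (-1 / 5) x = (-51495489 / 100000000 + (x - 67 / 100) * (-2498041 / 5000000)) := by
  simp only [dt7, DT.kv, sw7, sl7, sv7]
  ((try push_cast); ring1)
theorem kb_dt7 (x : ℝ) : dt7.kv (-3 / 20) x = (-37080969 / 100000000 + (x - 67 / 100) * (-1249021 / 2500000)) := by
  simp only [dt7, DT.kv, sw7, sl7, sv7]
  ((try push_cast); ring1)
theorem ka_dt8 (x : ℝ) : dt8.kv (-3 / 20) x = (-37080969 / 100000000 + (x - 67 / 100) * (-1249021 / 2500000)) := by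
  simp only [dt8, DT.kv, sw8, sl8, sv8]
  ((try push_cast); ring1)
theorem kb_dt8 (x : ℝ) : dt8.kv (-1 / 10) x = (-2651377 / 10000000 + (x - 67 / 100) * (-2499999 / 10000000)) := by
  simp only [dt8, DT.kv, sw8, sl8, sv8]
  ((try push_cast); ring1)
theorem ka_dt9 (x : ℝ) : dt9.kv (-1 / 10) x = (-2651377 / 10000000 + (x - 67 / 100) * (-2499999 / 10000000)) := by
  simp only [dt9, DT.kv, sw9, sl9, sv9]
  ((try push_cast); ring1)
theorem kb_dt9 (x : ℝ) : dt9.kv (-1 / 20) x = (-14430391 / 100000000) := by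
  simp only [dt9, DT.kv, sw9, sl9, sv9]
  ((try push_cast); ring1)
theorem ka_dt24 (x : ℝ) : dt24.kv (-3 / 20) x = (-37080969 / 100000000 + (x - 67 / 100) * (-1249021 / 2500000)) :=
  (DT.kv_le (by simp only [Cn.rt_v, Cn.ng_v]; norm_num)).trans (ka_dt8 x)
theorem kb_dt24 (x : ℝ) : dt24.kv (-1 / 20) x = (-14430391 / 100000000) :=
  (DT.kv_gt (by simp only [Cn.rt_v, Cn.ng_v]; norm_num)).trans (kb_dt9 x)
theorem ka_dt25 (x : ℝ) : dt25.kv (-1 / 5) x = (-51495489 / 100000000 + (x - 67 / 100) * (-2498041 / 5000000)) :=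
  (DT.kv_le (by simp only [Cn.rt_v, Cn.ng_v]; norm_num)).trans (ka_dt7 x)
theorem kb_dt25 (x : ℝ) : dt25.kv (-1 / 20) x = (-14430391 / 100000000) :=
  (DT.kv_gt (by simp only [Cn.rt_v, Cn.ng_v]; norm_num)).trans (kb_dt24 x)
theorem ka_dt26 (x : ℝ) : dt26.kv (-3 / 10) x = (-27013217 / 50000000 + (x - 67 / 100) * (-999989 / 2000000)) :=
  (DT.kv_le (by simp only [Cn.rt_v, Cn.ng_v]; norm_num)).trans (ka_dt23 x)
theorem kb_dt26 (x : ℝ) : dt26.kv (-1 / 20) x = (-14430391 / 100000000) :=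
  (DT.kv_gt (by simp only [Cn.rt_v, Cn.ng_v]; norm_num)).trans (kb_dt25 x)
theorem ka_dt27 (x : ℝ) : dt27.kv (-1 / 2) x = (-6481839 / 25000000 + (x - 67 / 100) * (-2245299 / 10000000)) :=
  (DT.kv_le (by simp only [Cn.rt_v, Cn.ng_v]; norm_num)).trans (ka_dt22 x)
theorem kb_dt27 (x : ℝ) : dt27.kv (-1 / 20) x = (-14430391 / 100000000) :=
  (DT.kv_gt (by simp only [Cn.rt_v, Cn.ng_v]; norm_num)).trans (kb_dt26 x)
theorem ka_dt10 (x : ℝ) : dt10.kv (-1 / 20) x = (-14430391 / 100000000) := by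
  simp only [dt10, DT.kv, sl10, sv10]
  ((try push_cast); ring1)
theorem kb_dt10 (x : ℝ) : dt10.kv (1 / 20) x = (14430391 / 100000000) := by
  simp only [dt10, DT.kv, sl10, sv10]
  ((try push_cast); ring1)
theorem ka_dt11 (x : ℝ) : dt11.kv (1 / 20) x = (14430391 / 100000000) := by
  simp only [dt11, DT.kv, sw11, sl11, sv11]
  ((try push_cast); ring1)
theorem kb_dt11 (x : ℝ) : dt11.kv (1 / 10) x = (2651377 / 10000000 + (x - 67 / 100) * (2499999 / 10000000)) := by
  simp only [dt11, DT.kv, sw11, sl11, sv11]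
  ((try push_cast); ring1)
theorem ka_dt28 (x : ℝ) : dt28.kv (-1 / 20) x = (-14430391 / 100000000) :=
  (DT.kv_le (by simp only [Cn.rt_v, Cn.ng_v]; norm_num)).trans (ka_dt10 x)
theorem kb_dt28 (x : ℝ) : dt28.kv (1 / 10) x = (2651377 / 10000000 + (x - 67 / 100) * (2499999 / 10000000)) :=
  (DT.kv_gt (by simp only [Cn.rt_v, Cn.ng_v]; norm_num)).trans (kb_dt11 x)
theorem ka_dt12 (x : ℝ) : dt12.kv (1 / 10) x = (2651377 / 10000000 + (x - 67 / 100) * (2499999 / 10000000)) := by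
  simp only [dt12, DT.kv, sw12, sl12, sv12]
  ((try push_cast); ring1)
theorem kb_dt12 (x : ℝ) : dt12.kv (3 / 20) x = (37080969 / 100000000 + (x - 67 / 100) * (1249021 / 2500000)) := by
  simp only [dt12, DT.kv, sw12, sl12, sv12]
  ((try push_cast); ring1)
theorem ka_dt13 (x : ℝ) : dt13.kv (3 / 20) x = (37080969 / 100000000 + (x - 67 / 100) * (1249021 / 2500000)) := by
  simp only [dt13, DT.kv, sw13, sl13, sv13]
  ((try push_cast); ring1)
theorem kb_dt13 (x : ℝ) : dt13.kv (1 / 5) x = (51495489 / 100000000 + (x - 67 / 100) * (2498041 / 5000000)) := by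
  simp only [dt13, DT.kv, sw13, sl13, sv13]
  ((try push_cast); ring1)
theorem ka_dt14 (x : ℝ) : dt14.kv (1 / 5) x = (51495489 / 100000000 + (x - 67 / 100) * (2498041 / 5000000)) := by
  simp only [dt14, DT.kv, sw14, sl14, sv14]
  ((try push_cast); ring1)
theorem kb_dt14 (x : ℝ) : dt14.kv (1 / 4) x = (57787171 / 100000000 + (x - 67 / 100) * (4999993 / 10000000)) := by
  simp only [dt14, DT.kv, sw14, sl14, sv14]
  ((try push_cast); ring1)
theorem ka_dt29 (x : ℝ) : dt29.kv (3 / 20) x = (37080969 / 100000000 + (x - 67 / 100) * (1249021 / 2500000)) :=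
  (DT.kv_le (by simp only [Cn.rt_v, Cn.ng_v]; norm_num)).trans (ka_dt13 x)
theorem kb_dt29 (x : ℝ) : dt29.kv (1 / 4) x = (57787171 / 100000000 + (x - 67 / 100) * (4999993 / 10000000)) :=
  (DT.kv_gt (by simp only [Cn.rt_v, Cn.ng_v]; norm_num)).trans (kb_dt14 x)
theorem ka_dt30 (x : ℝ) : dt30.kv (1 / 10) x = (2651377 / 10000000 + (x - 67 / 100) * (2499999 / 10000000)) :=
  (DT.kv_le (by simp only [Cn.rt_v, Cn.ng_v]; norm_num)).trans (ka_dt12 x)
theorem kb_dt30 (x : ℝ) : dt30.kv (1 / 4) x = (57787171 / 100000000 + (x - 67 / 100) * (4999993 / 10000000)) :=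
  (DT.kv_gt (by simp only [Cn.rt_v, Cn.ng_v]; norm_num)).trans (kb_dt29 x)
theorem ka_dt31 (x : ℝ) : dt31.kv (-1 / 20) x = (-14430391 / 100000000) :=
  (DT.kv_le (by simp only [Cn.rt_v, Cn.ng_v]; norm_num)).trans (ka_dt28 x)
theorem kb_dt31 (x : ℝ) : dt31.kv (1 / 4) x = (57787171 / 100000000 + (x - 67 / 100) * (4999993 / 10000000)) :=
  (DT.kv_gt (by simp only [Cn.rt_v, Cn.ng_v]; norm_num)).trans (kb_dt30 x)
theorem ka_dt15 (x : ℝ) : dt15.kv (1 / 4) x = (57787171 / 100000000 + (x - 67 / 100) * (4999993 / 10000000)) := by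
  simp only [dt15, DT.kv, sw15, sl15, sv15]
  ((try push_cast); ring1)
theorem kb_dt15 (x : ℝ) : dt15.kv (3 / 10) x = (27013217 / 50000000 + (x - 67 / 100) * (999989 / 2000000)) := by
  simp only [dt15, DT.kv, sw15, sl15, sv15]
  ((try push_cast); ring1)
theorem ka_dt16 (x : ℝ) : dt16.kv (3 / 10) x = (27013217 / 50000000 + (x - 67 / 100) * (999989 / 2000000)) := by
  simp only [dt16, DT.kv, sw16, sl16, sv16]
  ((try push_cast); ring1)
theorem kb_dt16 (x : ℝ) : dt16.kv (7 / 20) x = (42086909 / 100000000 + (x - 67 / 100) * (249993 / 500000)) := by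
  simp only [dt16, DT.kv, sw16, sl16, sv16]
  ((try push_cast); ring1)
theorem ka_dt32 (x : ℝ) : dt32.kv (1 / 4) x = (57787171 / 100000000 + (x - 67 / 100) * (4999993 / 10000000)) :=
  (DT.kv_le (by simp only [Cn.rt_v, Cn.ng_v]; norm_num)).trans (ka_dt15 x)
theorem kb_dt32 (x : ℝ) : dt32.kv (7 / 20) x = (42086909 / 100000000 + (x - 67 / 100) * (249993 / 500000)) :=
  (DT.kv_gt (by simp only [Cn.rt_v, Cn.ng_v]; norm_num)).trans (kb_dt16 x)
theorem ka_dt17 (x : ℝ) : dt17.kv (7 / 20) x = (42086909 / 100000000 + (x - 67 / 100) * (249993 / 500000)) := by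
  simp only [dt17, DT.kv, sw17, sl17, sv17]
  ((try push_cast); ring1)
theorem kb_dt17 (x : ℝ) : dt17.kv (2 / 5) x = (13647723 / 50000000 + (x - 67 / 100) * (999947 / 2000000)) := by
  simp only [dt17, DT.kv, sw17, sl17, sv17]
  ((try push_cast); ring1)
theorem ka_dt18 (x : ℝ) : dt18.kv (2 / 5) x = (13647723 / 50000000 + (x - 67 / 100) * (999947 / 2000000)) := by
  simp only [dt18, DT.kv, sw18, sl18, sv18]
  ((try push_cast); ring1)
theorem kb_dt18 (x : ℝ) : dt18.kv (9 / 20) x = (9906811 / 50000000 + (x - 67 / 100) * (999939 / 2000000)) := by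
  simp only [dt18, DT.kv, sw18, sl18, sv18]
  ((try push_cast); ring1)
theorem ka_dt19 (x : ℝ) : dt19.kv (9 / 20) x = (9906811 / 50000000 + (x - 67 / 100) * (999939 / 2000000)) := by
  simp only [dt19, DT.kv, sw19, sl19, sv19]
  ((try push_cast); ring1)
theorem kb_dt19 (x : ℝ) : dt19.kv (1 / 2) x = (6481839 / 25000000 + (x - 67 / 100) * (2245299 / 10000000)) := by
  simp only [dt19, DT.kv, sw19, sl19, sv19]
  ((try push_cast); ring1)
theorem ka_dt33 (x : ℝ) : dt33.kv (2 / 5) x = (13647723 / 50000000 + (x - 67 / 100) * (999947 / 2000000)) :=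
  (DT.kv_le (by simp only [Cn.rt_v, Cn.ng_v]; norm_num)).trans (ka_dt18 x)
theorem kb_dt33 (x : ℝ) : dt33.kv (1 / 2) x = (6481839 / 25000000 + (x - 67 / 100) * (2245299 / 10000000)) :=
  (DT.kv_gt (by simp only [Cn.rt_v, Cn.ng_v]; norm_num)).trans (kb_dt19 x)
theorem ka_dt34 (x : ℝ) : dt34.kv (7 / 20) x = (42086909 / 100000000 + (x - 67 / 100) * (249993 / 500000)) :=
  (DT.kv_le (by simp only [Cn.rt_v, Cn.ng_v]; norm_num)).trans (ka_dt17 x)
theorem kb_dt34 (x : ℝ) : dt34.kv (1 / 2) x = (6481839 / 25000000 + (x - 67 / 100) * (2245299 / 10000000)) :=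
  (DT.kv_gt (by simp only [Cn.rt_v, Cn.ng_v]; norm_num)).trans (kb_dt33 x)
theorem ka_dt35 (x : ℝ) : dt35.kv (1 / 4) x = (57787171 / 100000000 + (x - 67 / 100) * (4999993 / 10000000)) :=
  (DT.kv_le (by simp only [Cn.rt_v, Cn.ng_v]; norm_num)).trans (ka_dt32 x)
theorem kb_dt35 (x : ℝ) : dt35.kv (1 / 2) x = (6481839 / 25000000 + (x - 67 / 100) * (2245299 / 10000000)) :=
  (DT.kv_gt (by simp only [Cn.rt_v, Cn.ng_v]; norm_num)).trans (kb_dt34 x)
theorem ka_dt36 (x : ℝ) : dt36.kv (-1 / 20) x = (-14430391 / 100000000) :=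
  (DT.kv_le (by simp only [Cn.rt_v, Cn.ng_v]; norm_num)).trans (ka_dt31 x)
theorem kb_dt36 (x : ℝ) : dt36.kv (1 / 2) x = (6481839 / 25000000 + (x - 67 / 100) * (2245299 / 10000000)) :=
  (DT.kv_gt (by simp only [Cn.rt_v, Cn.ng_v]; norm_num)).trans (kb_dt35 x)
theorem ka_dt37 (x : ℝ) : dt37.kv (-1 / 2) x = (-6481839 / 25000000 + (x - 67 / 100) * (-2245299 / 10000000)) :=
  (DT.kv_le (by simp only [Cn.rt_v, Cn.ng_v]; norm_num)).trans (ka_dt27 x)
theorem kb_dt37 (x : ℝ) : dt37.kv (1 / 2) x = (6481839 / 25000000 + (x - 67 / 100) * (2245299 / 10000000)) :=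
  (DT.kv_gt (by simp only [Cn.rt_v, Cn.ng_v]; norm_num)).trans (kb_dt36 x)
theorem ko_dt1 (x : ℝ) : dt1.KOk x := trivial
theorem ko_dt2 (x : ℝ) : dt2.KOk x := trivial
theorem ko_dt20 (x : ℝ) : dt20.KOk x :=
  DT.kOk_node (v := -9 / 20) (by simp only [Cn.rt_v, Cn.ng_v]; norm_num) (kb_dt1 x) (ka_dt2 x) (by ring1) (ko_dt1 x) (ko_dt2 x)
theorem ko_dt3 (x : ℝ) : dt3.KOk x := trivial
theorem ko_dt4 (x : ℝ) : dt4.KOk x := trivial
theorem ko_dt21 (x : ℝ) : dt21.KOk x :=
  DT.kOk_node (v := -7 / 20) (by simp only [Cn.rt_v, Cn.ng_v]; norm_num) (kb_dt3 x) (ka_dt4 x) (by ring1) (ko_dt3 x) (ko_dt4 x)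
theorem ko_dt22 (x : ℝ) : dt22.KOk x :=
  DT.kOk_node (v := -2 / 5) (by simp only [Cn.rt_v, Cn.ng_v]; norm_num) (kb_dt20 x) (ka_dt21 x) (by ring1) (ko_dt20 x) (ko_dt21 x)
theorem ko_dt5 (x : ℝ) : dt5.KOk x := trivial
theorem ko_dt6 (x : ℝ) : dt6.KOk x := trivial
theorem ko_dt23 (x : ℝ) : dt23.KOk x :=
  DT.kOk_node (v := -1 / 4) (by simp only [Cn.rt_v, Cn.ng_v]; norm_num) (kb_dt5 x) (ka_dt6 x) (by ring1) (ko_dt5 x) (ko_dt6 x)
theorem ko_dt7 (x : ℝ) : dt7.KOk x := trivial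
theorem ko_dt8 (x : ℝ) : dt8.KOk x := trivial
theorem ko_dt9 (x : ℝ) : dt9.KOk x := trivial
theorem ko_dt24 (x : ℝ) : dt24.KOk x :=
  DT.kOk_node (v := -1 / 10) (by simp only [Cn.rt_v, Cn.ng_v]; norm_num) (kb_dt8 x) (ka_dt9 x) (by ring1) (ko_dt8 x) (ko_dt9 x)
theorem ko_dt25 (x : ℝ) : dt25.KOk x :=
  DT.kOk_node (v := -3 / 20) (by simp only [Cn.rt_v, Cn.ng_v]; norm_num) (kb_dt7 x) (ka_dt24 x) (by ring1) (ko_dt7 x) (ko_dt24 x)
theorem ko_dt26 (x : ℝ) : dt26.KOk x :=
  DT.kOk_node (v := -1 / 5) (by simp only [Cn.rt_v, Cn.ng_v]; norm_num) (kb_dt23 x) (ka_dt25 x) (by ring1) (ko_dt23 x) (ko_dt25 x)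
theorem ko_dt27 (x : ℝ) : dt27.KOk x :=
  DT.kOk_node (v := -3 / 10) (by simp only [Cn.rt_v, Cn.ng_v]; norm_num) (kb_dt22 x) (ka_dt26 x) (by ring1) (ko_dt22 x) (ko_dt26 x)
theorem ko_dt10 (x : ℝ) : dt10.KOk x := trivial
theorem ko_dt11 (x : ℝ) : dt11.KOk x := trivial
theorem ko_dt28 (x : ℝ) : dt28.KOk x :=
  DT.kOk_node (v := 1 / 20) (by simp only [Cn.rt_v, Cn.ng_v]; norm_num) (kb_dt10 x) (ka_dt11 x) (by ring1) (ko_dt10 x) (ko_dt11 x)
theorem ko_dt12 (x : ℝ) : dt12.KOk x := trivial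
theorem ko_dt13 (x : ℝ) : dt13.KOk x := trivial
theorem ko_dt14 (x : ℝ) : dt14.KOk x := trivial
theorem ko_dt29 (x : ℝ) : dt29.KOk x :=
  DT.kOk_node (v := 1 / 5) (by simp only [Cn.rt_v, Cn.ng_v]; norm_num) (kb_dt13 x) (ka_dt14 x) (by ring1) (ko_dt13 x) (ko_dt14 x)
theorem ko_dt30 (x : ℝ) : dt30.KOk x :=
  DT.kOk_node (v := 3 / 20) (by simp only [Cn.rt_v, Cn.ng_v]; norm_num) (kb_dt12 x) (ka_dt29 x) (by ring1) (ko_dt12 x) (ko_dt29 x)
theorem ko_dt31 (x : ℝ) : dt31.KOk x :=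
  DT.kOk_node (v := 1 / 10) (by simp only [Cn.rt_v, Cn.ng_v]; norm_num) (kb_dt28 x) (ka_dt30 x) (by ring1) (ko_dt28 x) (ko_dt30 x)
theorem ko_dt15 (x : ℝ) : dt15.KOk x := trivial
theorem ko_dt16 (x : ℝ) : dt16.KOk x := trivial
theorem ko_dt32 (x : ℝ) : dt32.KOk x :=
  DT.kOk_node (v := 3 / 10) (by simp only [Cn.rt_v, Cn.ng_v]; norm_num) (kb_dt15 x) (ka_dt16 x) (by ring1) (ko_dt15 x) (ko_dt16 x)
theorem ko_dt17 (x : ℝ) : dt17.KOk x := trivial
theorem ko_dt18 (x : ℝ) : dt18.KOk x := trivial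
theorem ko_dt19 (x : ℝ) : dt19.KOk x := trivial
theorem ko_dt33 (x : ℝ) : dt33.KOk x :=
  DT.kOk_node (v := 9 / 20) (by simp only [Cn.rt_v, Cn.ng_v]; norm_num) (kb_dt18 x) (ka_dt19 x) (by ring1) (ko_dt18 x) (ko_dt19 x)
theorem ko_dt34 (x : ℝ) : dt34.KOk x :=
  DT.kOk_node (v := 2 / 5) (by simp only [Cn.rt_v, Cn.ng_v]; norm_num) (kb_dt17 x) (ka_dt33 x) (by ring1) (ko_dt17 x) (ko_dt33 x)
theorem ko_dt35 (x : ℝ) : dt35.KOk x :=
  DT.kOk_node (v := 7 / 20) (by simp only [Cn.rt_v, Cn.ng_v]; norm_num) (kb_dt32 x) (ka_dt34 x) (by ring1) (ko_dt32 x) (ko_dt34 x)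
theorem ko_dt36 (x : ℝ) : dt36.KOk x :=
  DT.kOk_node (v := 1 / 4) (by simp only [Cn.rt_v, Cn.ng_v]; norm_num) (kb_dt31 x) (ka_dt35 x) (by ring1) (ko_dt31 x) (ko_dt35 x)
theorem ko_dt37 (x : ℝ) : dt37.KOk x :=
  DT.kOk_node (v := -1 / 20) (by simp only [Cn.rt_v, Cn.ng_v]; norm_num) (kb_dt27 x) (ka_dt36 x) (by ring1) (ko_dt27 x) (ko_dt36 x)
theorem txl0 {p c x : ℝ} (h1 : -1 / 2 ≤ p) (h2 : p ≤ -47 / 100) : txg.v p c x = dt84.val (fun p x => kcg.v p x) p c x := by
  symm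
  refine (DT.val_le (by simp only [Cn.rt_v, Cn.ng_v]; push_cast; linarith)).trans ?_
  refine (DT.val_le (by simp only [Cn.rt_v, Cn.ng_v]; push_cast; linarith)).trans ?_
  refine (DT.val_le (by simp only [Cn.rt_v, Cn.ng_v]; push_cast; linarith)).trans ?_
  refine (DT.val_le (by simp only [Cn.rt_v, Cn.ng_v]; push_cast; linarith)).trans ?_
  simp only [dt38, DT.val, cloR, sw38, sl38, sv38, txg, txg_4, txg_6, txg_26, txg_29, txg_32, txg_55, txg_95, txg_98, txg_139, txg_183, txg_186, txg_189, txg_226, txg_265, txg_268, txg_307, txg_341, txg_363, txg_365, txg_367, txg_369, txg_419, txg_462, txg_464, txg_506]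
  rcases eq_or_lt_of_le h1 with h | h1
  · subst h
    ((try push_cast); (repeat first | rw [if_pos (by linarith)] | rw [if_neg (by linarith)] | erw [if_pos (by linarith)] | erw [if_neg (by linarith)]); (try push_cast); (try ring1))
  rcases eq_or_lt_of_le h2 with h | h2
  · subst h
    ((try push_cast); (repeat first | rw [if_pos (by linarith)] | rw [if_neg (by linarith)] | erw [if_pos (by linarith)] | erw [if_neg (by linarith)]); (try push_cast); (try ring1))
  · ((try push_cast); (repeat first | rw [if_pos (by linarith)] | rw [if_neg (by linarith)] | erw [if_pos (by linarith)] | erw [if_neg (by linarith)]); (try push_cast); (try ring1))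
theorem txl1 {p c x : ℝ} (h1 : -47 / 100 < p) (h2 : p ≤ -11 / 25) : txg.v p c x = dt84.val (fun p x => kcg.v p x) p c x := by
  symm
  refine (DT.val_le (by simp only [Cn.rt_v, Cn.ng_v]; push_cast; linarith)).trans ?_
  refine (DT.val_le (by simp only [Cn.rt_v, Cn.ng_v]; push_cast; linarith)).trans ?_
  refine (DT.val_le (by simp only [Cn.rt_v, Cn.ng_v]; push_cast; linarith)).trans ?_
  refine (DT.val_gt (by simp only [Cn.rt_v, Cn.ng_v]; push_cast; linarith)).trans ?_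
  refine (DT.val_le (by simp only [Cn.rt_v, Cn.ng_v]; push_cast; linarith)).trans ?_
  simp only [dt39, DT.val, cloR, sw39, sl39, sv39, txg, txg_4, txg_6, txg_26, txg_29, txg_32, txg_55, txg_95, txg_98, txg_139, txg_183, txg_186, txg_189, txg_226, txg_265, txg_268, txg_307, txg_341, txg_363, txg_365, txg_367, txg_369, txg_419, txg_462, txg_464, txg_506]
  rcases eq_or_lt_of_le h2 with h | h2
  · subst h
    ((try push_cast); (repeat first | rw [if_pos (by linarith)] | rw [if_neg (by linarith)] | erw [if_pos (by linarith)] | erw [if_neg (by linarith)]); (try push_cast); (try ring1))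
  · ((try push_cast); (repeat first | rw [if_pos (by linarith)] | rw [if_neg (by linarith)] | erw [if_pos (by linarith)] | erw [if_neg (by linarith)]); (try push_cast); (try ring1))
theorem txl2 {p c x : ℝ} (h1 : -11 / 25 < p) (h2 : p ≤ -2 / 5) : txg.v p c x = dt84.val (fun p x => kcg.v p x) p c x := by
  symm
  refine (DT.val_le (by simp only [Cn.rt_v, Cn.ng_v]; push_cast; linarith)).trans ?_
  refine (DT.val_le (by simp only [Cn.rt_v, Cn.ng_v]; push_cast; linarith)).trans ?_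
  refine (DT.val_le (by simp only [Cn.rt_v, Cn.ng_v]; push_cast; linarith)).trans ?_
  refine (DT.val_gt (by simp only [Cn.rt_v, Cn.ng_v]; push_cast; linarith)).trans ?_
  refine (DT.val_gt (by simp only [Cn.rt_v, Cn.ng_v]; push_cast; linarith)).trans ?_
  simp only [dt40, DT.val, cloR, sw40, sl40, sv40, txg, txg_4, txg_6, txg_26, txg_29, txg_32, txg_55, txg_95, txg_98, txg_139, txg_183, txg_186, txg_189, txg_226, txg_265, txg_268, txg_307, txg_341, txg_363, txg_365, txg_367, txg_369, txg_419, txg_462, txg_464, txg_506]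
  rcases eq_or_lt_of_le h2 with h | h2
  · subst h
    ((try push_cast); (repeat first | rw [if_pos (by linarith)] | rw [if_neg (by linarith)] | erw [if_pos (by linarith)] | erw [if_neg (by linarith)]); (try push_cast); (try ring1))
  · ((try push_cast); (repeat first | rw [if_pos (by linarith)] | rw [if_neg (by linarith)] | erw [if_pos (by linarith)] | erw [if_neg (by linarith)]); (try push_cast); (try ring1))
theorem txl3 {p c x : ℝ} (h1 : -2 / 5 < p) (h2 : p ≤ -9 / 25) : txg.v p c x = dt84.val (fun p x => kcg.v p x) p c x := by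
  symm
  refine (DT.val_le (by simp only [Cn.rt_v, Cn.ng_v]; push_cast; linarith)).trans ?_
  refine (DT.val_le (by simp only [Cn.rt_v, Cn.ng_v]; push_cast; linarith)).trans ?_
  refine (DT.val_gt (by simp only [Cn.rt_v, Cn.ng_v]; push_cast; linarith)).trans ?_
  refine (DT.val_le (by simp only [Cn.rt_v, Cn.ng_v]; push_cast; linarith)).trans ?_
  simp only [dt41, DT.val, cloR, sw41, sl41, sv41, txg, txg_4, txg_6, txg_26, txg_29, txg_32, txg_55, txg_95, txg_98, txg_139, txg_183, txg_186, txg_189, txg_226, txg_265, txg_268, txg_307, txg_341, txg_363, txg_365, txg_367, txg_369, txg_419, txg_462, txg_464, txg_506]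
  rcases eq_or_lt_of_le h2 with h | h2
  · subst h
    ((try push_cast); (repeat first | rw [if_pos (by linarith)] | rw [if_neg (by linarith)] | erw [if_pos (by linarith)] | erw [if_neg (by linarith)]); (try push_cast); (try ring1))
  · ((try push_cast); (repeat first | rw [if_pos (by linarith)] | rw [if_neg (by linarith)] | erw [if_pos (by linarith)] | erw [if_neg (by linarith)]); (try push_cast); (try ring1))
theorem txl4 {p c x : ℝ} (h1 : -9 / 25 < p) (h2 : p ≤ -33 / 100) : txg.v p c x = dt84.val (fun p x => kcg.v p x) p c x := by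
  symm
  refine (DT.val_le (by simp only [Cn.rt_v, Cn.ng_v]; push_cast; linarith)).trans ?_
  refine (DT.val_le (by simp only [Cn.rt_v, Cn.ng_v]; push_cast; linarith)).trans ?_
  refine (DT.val_gt (by simp only [Cn.rt_v, Cn.ng_v]; push_cast; linarith)).trans ?_
  refine (DT.val_gt (by simp only [Cn.rt_v, Cn.ng_v]; push_cast; linarith)).trans ?_
  refine (DT.val_le (by simp only [Cn.rt_v, Cn.ng_v]; push_cast; linarith)).trans ?_
  simp only [dt42, DT.val, cloR, sw42, sl42, sv42, txg, txg_4, txg_6, txg_26, txg_29, txg_32, txg_55, txg_95, txg_98, txg_139, txg_183, txg_186, txg_189, txg_226, txg_265, txg_268, txg_307, txg_341, txg_363, txg_365, txg_367, txg_369, txg_419, txg_462, txg_464, txg_506]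
  rcases eq_or_lt_of_le h2 with h | h2
  · subst h
    ((try push_cast); (repeat first | rw [if_pos (by linarith)] | rw [if_neg (by linarith)] | erw [if_pos (by linarith)] | erw [if_neg (by linarith)]); (try push_cast); (try ring1))
  · ((try push_cast); (repeat first | rw [if_pos (by linarith)] | rw [if_neg (by linarith)] | erw [if_pos (by linarith)] | erw [if_neg (by linarith)]); (try push_cast); (try ring1))
theorem txl5 {p c x : ℝ} (h1 : -33 / 100 < p) (h2 : p ≤ -29 / 100) : txg.v p c x = dt84.val (fun p x => kcg.v p x) p c x := by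
  symm
  refine (DT.val_le (by simp only [Cn.rt_v, Cn.ng_v]; push_cast; linarith)).trans ?_
  refine (DT.val_le (by simp only [Cn.rt_v, Cn.ng_v]; push_cast; linarith)).trans ?_
  refine (DT.val_gt (by simp only [Cn.rt_v, Cn.ng_v]; push_cast; linarith)).trans ?_
  refine (DT.val_gt (by simp only [Cn.rt_v, Cn.ng_v]; push_cast; linarith)).trans ?_
  refine (DT.val_gt (by simp only [Cn.rt_v, Cn.ng_v]; push_cast; linarith)).trans ?_
  simp only [dt43, DT.val, cloR, sw43, sl43, sv43, txg, txg_4, txg_6, txg_26, txg_29, txg_32, txg_55, txg_95, txg_98, txg_139, txg_183, txg_186, txg_189, txg_226, txg_265, txg_268, txg_307, txg_341, txg_363, txg_365, txg_367, txg_369, txg_419, txg_462, txg_464, txg_506]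
  rcases eq_or_lt_of_le h2 with h | h2
  · subst h
    ((try push_cast); (repeat first | rw [if_pos (by linarith)] | rw [if_neg (by linarith)] | erw [if_pos (by linarith)] | erw [if_neg (by linarith)]); (try push_cast); (try ring1))
  · ((try push_cast); (repeat first | rw [if_pos (by linarith)] | rw [if_neg (by linarith)] | erw [if_pos (by linarith)] | erw [if_neg (by linarith)]); (try push_cast); (try ring1))
theorem txl6 {p c x : ℝ} (h1 : -29 / 100 < p) (h2 : p ≤ -1 / 4) : txg.v p c x = dt84.val (fun p x => kcg.v p x) p c x := by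
  symm
  refine (DT.val_le (by simp only [Cn.rt_v, Cn.ng_v]; push_cast; linarith)).trans ?_
  refine (DT.val_gt (by simp only [Cn.rt_v, Cn.ng_v]; push_cast; linarith)).trans ?_
  refine (DT.val_le (by simp only [Cn.rt_v, Cn.ng_v]; push_cast; linarith)).trans ?_
  refine (DT.val_le (by simp only [Cn.rt_v, Cn.ng_v]; push_cast; linarith)).trans ?_
  simp only [dt44, DT.val, cloR, sw44, sl44, sv44, txg, txg_4, txg_6, txg_26, txg_29, txg_32, txg_55, txg_95, txg_98, txg_139, txg_183, txg_186, txg_189, txg_226, txg_265, txg_268, txg_307, txg_341, txg_363, txg_365, txg_367, txg_369, txg_419, txg_462, txg_464, txg_506]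
  rcases eq_or_lt_of_le h2 with h | h2
  · subst h
    ((try push_cast); (repeat first | rw [if_pos (by linarith)] | rw [if_neg (by linarith)] | erw [if_pos (by linarith)] | erw [if_neg (by linarith)]); (try push_cast); (try ring1))
  · ((try push_cast); (repeat first | rw [if_pos (by linarith)] | rw [if_neg (by linarith)] | erw [if_pos (by linarith)] | erw [if_neg (by linarith)]); (try push_cast); (try ring1))
theorem txl7 {p c x : ℝ} (h1 : -1 / 4 < p) (h2 : p ≤ -21 / 100) : txg.v p c x = dt84.val (fun p x => kcg.v p x) p c x := by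
  symm
  refine (DT.val_le (by simp only [Cn.rt_v, Cn.ng_v]; push_cast; linarith)).trans ?_
  refine (DT.val_gt (by simp only [Cn.rt_v, Cn.ng_v]; push_cast; linarith)).trans ?_
  refine (DT.val_le (by simp only [Cn.rt_v, Cn.ng_v]; push_cast; linarith)).trans ?_
  refine (DT.val_gt (by simp only [Cn.rt_v, Cn.ng_v]; push_cast; linarith)).trans ?_
  refine (DT.val_le (by simp only [Cn.rt_v, Cn.ng_v]; push_cast; linarith)).trans ?_
  simp only [dt45, DT.val, cloR, sw45, sl45, sv45, txg, txg_4, txg_6, txg_26, txg_29, txg_32, txg_55, txg_95, txg_98, txg_139, txg_183, txg_186, txg_189, txg_226, txg_265, txg_268, txg_307, txg_341, txg_363, txg_365, txg_367, txg_369, txg_419, txg_462, txg_464, txg_506]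
  rcases eq_or_lt_of_le h2 with h | h2
  · subst h
    ((try push_cast); (repeat first | rw [if_pos (by linarith)] | rw [if_neg (by linarith)] | erw [if_pos (by linarith)] | erw [if_neg (by linarith)]); (try push_cast); (try ring1))
  · ((try push_cast); (repeat first | rw [if_pos (by linarith)] | rw [if_neg (by linarith)] | erw [if_pos (by linarith)] | erw [if_neg (by linarith)]); (try push_cast); (try ring1))
theorem txl8 {p c x : ℝ} (h1 : -21 / 100 < p) (h2 : p ≤ -9 / 50) : txg.v p c x = dt84.val (fun p x => kcg.v p x) p c x := by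
  symm
  refine (DT.val_le (by simp only [Cn.rt_v, Cn.ng_v]; push_cast; linarith)).trans ?_
  refine (DT.val_gt (by simp only [Cn.rt_v, Cn.ng_v]; push_cast; linarith)).trans ?_
  refine (DT.val_le (by simp only [Cn.rt_v, Cn.ng_v]; push_cast; linarith)).trans ?_
  refine (DT.val_gt (by simp only [Cn.rt_v, Cn.ng_v]; push_cast; linarith)).trans ?_
  refine (DT.val_gt (by simp only [Cn.rt_v, Cn.ng_v]; push_cast; linarith)).trans ?_
  simp only [dt46, DT.val, cloR, sw46, sl46, sv46, txg, txg_4, txg_6, txg_26, txg_29, txg_32, txg_55, txg_95, txg_98, txg_139, txg_183, txg_186, txg_189, txg_226, txg_265, txg_268, txg_307, txg_341, txg_363, txg_365, txg_367, txg_369, txg_419, txg_462, txg_464, txg_506]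
  rcases eq_or_lt_of_le h2 with h | h2
  · subst h
    ((try push_cast); (repeat first | rw [if_pos (by linarith)] | rw [if_neg (by linarith)] | erw [if_pos (by linarith)] | erw [if_neg (by linarith)]); (try push_cast); (try ring1))
  · ((try push_cast); (repeat first | rw [if_pos (by linarith)] | rw [if_neg (by linarith)] | erw [if_pos (by linarith)] | erw [if_neg (by linarith)]); (try push_cast); (try ring1))
theorem txl9 {p c x : ℝ} (h1 : -9 / 50 < p) (h2 : p ≤ -7 / 50) : txg.v p c x = dt84.val (fun p x => kcg.v p x) p c x := by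
  symm
  refine (DT.val_le (by simp only [Cn.rt_v, Cn.ng_v]; push_cast; linarith)).trans ?_
  refine (DT.val_gt (by simp only [Cn.rt_v, Cn.ng_v]; push_cast; linarith)).trans ?_
  refine (DT.val_gt (by simp only [Cn.rt_v, Cn.ng_v]; push_cast; linarith)).trans ?_
  refine (DT.val_le (by simp only [Cn.rt_v, Cn.ng_v]; push_cast; linarith)).trans ?_
  simp only [dt47, DT.val, cloR, sw47, sl47, sv47, txg, txg_4, txg_6, txg_26, txg_29, txg_32, txg_55, txg_95, txg_98, txg_139, txg_183, txg_186, txg_189, txg_226, txg_265, txg_268, txg_307, txg_341, txg_363, txg_365, txg_367, txg_369, txg_419, txg_462, txg_464, txg_506]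
  rcases eq_or_lt_of_le h2 with h | h2
  · subst h
    ((try push_cast); (repeat first | rw [if_pos (by linarith)] | rw [if_neg (by linarith)] | erw [if_pos (by linarith)] | erw [if_neg (by linarith)]); (try push_cast); (try ring1))
  · ((try push_cast); (repeat first | rw [if_pos (by linarith)] | rw [if_neg (by linarith)] | erw [if_pos (by linarith)] | erw [if_neg (by linarith)]); (try push_cast); (try ring1))
theorem txl10 {p c x : ℝ} (h1 : -7 / 50 < p) (h2 : p ≤ -1 / 10) : txg.v p c x = dt84.val (fun p x => kcg.v p x) p c x := by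
  symm
  refine (DT.val_le (by simp only [Cn.rt_v, Cn.ng_v]; push_cast; linarith)).trans ?_
  refine (DT.val_gt (by simp only [Cn.rt_v, Cn.ng_v]; push_cast; linarith)).trans ?_
  refine (DT.val_gt (by simp only [Cn.rt_v, Cn.ng_v]; push_cast; linarith)).trans ?_
  refine (DT.val_gt (by simp only [Cn.rt_v, Cn.ng_v]; push_cast; linarith)).trans ?_
  refine (DT.val_le (by simp only [Cn.rt_v, Cn.ng_v]; push_cast; linarith)).trans ?_
  simp only [dt48, DT.val, cloR, sw48, sl48, sv48, txg, txg_4, txg_6, txg_26, txg_29, txg_32, txg_55, txg_95, txg_98, txg_139, txg_183, txg_186, txg_189, txg_226, txg_265, txg_268, txg_307, txg_341, txg_363, txg_365, txg_367, txg_369, txg_419, txg_462, txg_464, txg_506]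
  rcases eq_or_lt_of_le h2 with h | h2
  · subst h
    ((try push_cast); (repeat first | rw [if_pos (by linarith)] | rw [if_neg (by linarith)] | erw [if_pos (by linarith)] | erw [if_neg (by linarith)]); (try push_cast); (try ring1))
  · ((try push_cast); (repeat first | rw [if_pos (by linarith)] | rw [if_neg (by linarith)] | erw [if_pos (by linarith)] | erw [if_neg (by linarith)]); (try push_cast); (try ring1))
theorem txl11 {p c x : ℝ} (h1 : -1 / 10 < p) (h2 : p ≤ -3 / 50) : txg.v p c x = dt84.val (fun p x => kcg.v p x) p c x := by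
  symm
  refine (DT.val_le (by simp only [Cn.rt_v, Cn.ng_v]; push_cast; linarith)).trans ?_
  refine (DT.val_gt (by simp only [Cn.rt_v, Cn.ng_v]; push_cast; linarith)).trans ?_
  refine (DT.val_gt (by simp only [Cn.rt_v, Cn.ng_v]; push_cast; linarith)).trans ?_
  refine (DT.val_gt (by simp only [Cn.rt_v, Cn.ng_v]; push_cast; linarith)).trans ?_
  refine (DT.val_gt (by simp only [Cn.rt_v, Cn.ng_v]; push_cast; linarith)).trans ?_
  simp only [dt49, DT.val, cloR, sw49, sl49, sv49, txg, txg_4, txg_6, txg_26, txg_29, txg_32, txg_55, txg_95, txg_98, txg_139, txg_183, txg_186, txg_189, txg_226, txg_265, txg_268, txg_307, txg_341, txg_363, txg_365, txg_367, txg_369, txg_419, txg_462, txg_464, txg_506]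
  rcases eq_or_lt_of_le h2 with h | h2
  · subst h
    ((try push_cast); (repeat first | rw [if_pos (by linarith)] | rw [if_neg (by linarith)] | erw [if_pos (by linarith)] | erw [if_neg (by linarith)]); (try push_cast); (try ring1))
  · ((try push_cast); (repeat first | rw [if_pos (by linarith)] | rw [if_neg (by linarith)] | erw [if_pos (by linarith)] | erw [if_neg (by linarith)]); (try push_cast); (try ring1))
theorem txl12 {p c x : ℝ} (h1 : -3 / 50 < p) (h2 : p ≤ -1 / 50) : txg.v p c x = dt84.val (fun p x => kcg.v p x) p c x := by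
  symm
  refine (DT.val_gt (by simp only [Cn.rt_v, Cn.ng_v]; push_cast; linarith)).trans ?_
  refine (DT.val_le (by simp only [Cn.rt_v, Cn.ng_v]; push_cast; linarith)).trans ?_
  refine (DT.val_le (by simp only [Cn.rt_v, Cn.ng_v]; push_cast; linarith)).trans ?_
  refine (DT.val_le (by simp only [Cn.rt_v, Cn.ng_v]; push_cast; linarith)).trans ?_
  simp only [dt50, DT.val, cloR, sw50, sl50, sv50, txg, txg_4, txg_6, txg_26, txg_29, txg_32, txg_55, txg_95, txg_98, txg_139, txg_183, txg_186, txg_189, txg_226, txg_265, txg_268, txg_307, txg_341, txg_363, txg_365, txg_367, txg_369, txg_419, txg_462, txg_464, txg_506]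
  rcases eq_or_lt_of_le h2 with h | h2
  · subst h
    ((try push_cast); (repeat first | rw [if_pos (by linarith)] | rw [if_neg (by linarith)] | erw [if_pos (by linarith)] | erw [if_neg (by linarith)]); (try push_cast); (try ring1))
  · ((try push_cast); (repeat first | rw [if_pos (by linarith)] | rw [if_neg (by linarith)] | erw [if_pos (by linarith)] | erw [if_neg (by linarith)]); (try push_cast); (try ring1))
theorem txl13 {p c x : ℝ} (h1 : -1 / 50 < p) (h2 : p ≤ 1 / 100) : txg.v p c x = dt84.val (fun p x => kcg.v p x) p c x := by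
  symm
  refine (DT.val_gt (by simp only [Cn.rt_v, Cn.ng_v]; push_cast; linarith)).trans ?_
  refine (DT.val_le (by simp only [Cn.rt_v, Cn.ng_v]; push_cast; linarith)).trans ?_
  refine (DT.val_le (by simp only [Cn.rt_v, Cn.ng_v]; push_cast; linarith)).trans ?_
  refine (DT.val_gt (by simp only [Cn.rt_v, Cn.ng_v]; push_cast; linarith)).trans ?_
  refine (DT.val_le (by simp only [Cn.rt_v, Cn.ng_v]; push_cast; linarith)).trans ?_
  simp only [dt51, DT.val, cloR, sw51, sw51_2, sl51, sl51_2, sv51, sv51_2, txg, txg_4, txg_6, txg_26, txg_29, txg_32, txg_55, txg_95, txg_98, txg_139, txg_183, txg_186, txg_189, txg_226, txg_265, txg_268, txg_307, txg_341, txg_363, txg_365, txg_367, txg_369, txg_419, txg_462, txg_464, txg_506]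
  rcases eq_or_lt_of_le h2 with h | h2
  · subst h
    ((try push_cast); (repeat first | rw [if_pos (by linarith)] | rw [if_neg (by linarith)] | erw [if_pos (by linarith)] | erw [if_neg (by linarith)]); (try push_cast); (try ring1))
  · ((try push_cast); (repeat first | rw [if_pos (by linarith)] | rw [if_neg (by linarith)] | erw [if_pos (by linarith)] | erw [if_neg (by linarith)]); (try push_cast); (try ring1))
theorem txl14 {p c x : ℝ} (h1 : 1 / 100 < p) (h2 : p ≤ 47 / 914) : txg.v p c x = dt84.val (fun p x => kcg.v p x) p c x := by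
  symm
  refine (DT.val_gt (by simp only [Cn.rt_v, Cn.ng_v]; push_cast; linarith)).trans ?_
  refine (DT.val_le (by simp only [Cn.rt_v, Cn.ng_v]; push_cast; linarith)).trans ?_
  refine (DT.val_le (by simp only [Cn.rt_v, Cn.ng_v]; push_cast; linarith)).trans ?_
  refine (DT.val_gt (by simp only [Cn.rt_v, Cn.ng_v]; push_cast; linarith)).trans ?_
  refine (DT.val_gt (by simp only [Cn.rt_v, Cn.ng_v]; push_cast; linarith)).trans ?_
  simp only [dt52, DT.val, cloR, sw52, sw52_2, sl52, sl52_2, sv52, sv52_2, txg, txg_4, txg_6, txg_26, txg_29, txg_32, txg_55, txg_95, txg_98, txg_139, txg_183, txg_186, txg_189, txg_226, txg_265, txg_268, txg_307, txg_341, txg_363, txg_365, txg_367, txg_369, txg_419, txg_462, txg_464, txg_506]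
  rcases eq_or_lt_of_le h2 with h | h2
  · subst h
    ((try push_cast); (repeat first | rw [if_pos (by linarith)] | rw [if_neg (by linarith)] | erw [if_pos (by linarith)] | erw [if_neg (by linarith)]); (try push_cast); (try ring1))
  · ((try push_cast); (repeat first | rw [if_pos (by linarith)] | rw [if_neg (by linarith)] | erw [if_pos (by linarith)] | erw [if_neg (by linarith)]); (try push_cast); (try ring1))
theorem txl15 {p c x : ℝ} (h1 : 47 / 914 < p) (h2 : p ≤ 1 / 7) : txg.v p c x = dt84.val (fun p x => kcg.v p x) p c x := by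
  symm
  refine (DT.val_gt (by simp only [Cn.rt_v, Cn.ng_v]; push_cast; linarith)).trans ?_
  refine (DT.val_le (by simp only [Cn.rt_v, Cn.ng_v]; push_cast; linarith)).trans ?_
  refine (DT.val_gt (by simp only [Cn.rt_v, Cn.ng_v]; push_cast; linarith)).trans ?_
  refine (DT.val_le (by simp only [Cn.rt_v, Cn.ng_v]; push_cast; linarith)).trans ?_
  simp only [dt53, DT.val, cloR, txg, txg_4, txg_6, txg_26, txg_29, txg_32, txg_55, txg_95, txg_98, txg_139, txg_183, txg_186, txg_189, txg_226, txg_265, txg_268, txg_307, txg_341, txg_363, txg_365, txg_367, txg_369, txg_419, txg_462, txg_464, txg_506]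
  rcases eq_or_lt_of_le h2 with h | h2
  · subst h
    ((try push_cast); (repeat first | rw [if_pos (by linarith)] | rw [if_neg (by linarith)] | erw [if_pos (by linarith)] | erw [if_neg (by linarith)]); (try push_cast); (try ring1))
  · ((try push_cast); (repeat first | rw [if_pos (by linarith)] | rw [if_neg (by linarith)] | erw [if_pos (by linarith)] | erw [if_neg (by linarith)]); (try push_cast); (try ring1))
theorem txl16 {p c x : ℝ} (h1 : 1 / 7 < p) (h2 : p ≤ 163 / 1000) : txg.v p c x = dt84.val (fun p x => kcg.v p x) p c x := by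
  symm
  refine (DT.val_gt (by simp only [Cn.rt_v, Cn.ng_v]; push_cast; linarith)).trans ?_
  refine (DT.val_le (by simp only [Cn.rt_v, Cn.ng_v]; push_cast; linarith)).trans ?_
  refine (DT.val_gt (by simp only [Cn.rt_v, Cn.ng_v]; push_cast; linarith)).trans ?_
  refine (DT.val_gt (by simp only [Cn.rt_v, Cn.ng_v]; push_cast; linarith)).trans ?_
  refine (DT.val_le (by simp only [Cn.rt_v, Cn.ng_v]; push_cast; linarith)).trans ?_
  simp only [dt54, DT.val, cloR, sw54, sw54_2, sl54, sl54_2, sv54, sv54_2, txg, txg_4, txg_6, txg_26, txg_29, txg_32, txg_55, txg_95, txg_98, txg_139, txg_183, txg_186, txg_189, txg_226, txg_265, txg_268, txg_307, txg_341, txg_363, txg_365, txg_367, txg_369, txg_419, txg_462, txg_464, txg_506]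
  rcases eq_or_lt_of_le h2 with h | h2
  · subst h
    ((try push_cast); (repeat first | rw [if_pos (by linarith)] | rw [if_neg (by linarith)] | erw [if_pos (by linarith)] | erw [if_neg (by linarith)]); (try push_cast); (try ring1))
  · ((try push_cast); (repeat first | rw [if_pos (by linarith)] | rw [if_neg (by linarith)] | erw [if_pos (by linarith)] | erw [if_neg (by linarith)]); (try push_cast); (try ring1))
theorem txl17 {p c x : ℝ} (h1 : 163 / 1000 < p) (h2 : p ≤ 1 / 5) : txg.v p c x = dt84.val (fun p x => kcg.v p x) p c x := by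
  symm
  refine (DT.val_gt (by simp only [Cn.rt_v, Cn.ng_v]; push_cast; linarith)).trans ?_
  refine (DT.val_le (by simp only [Cn.rt_v, Cn.ng_v]; push_cast; linarith)).trans ?_
  refine (DT.val_gt (by simp only [Cn.rt_v, Cn.ng_v]; push_cast; linarith)).trans ?_
  refine (DT.val_gt (by simp only [Cn.rt_v, Cn.ng_v]; push_cast; linarith)).trans ?_
  refine (DT.val_gt (by simp only [Cn.rt_v, Cn.ng_v]; push_cast; linarith)).trans ?_
  simp only [dt55, DT.val, cloR, sw55, sw55_2, sl55, sl55_2, sv55, sv55_2, txg, txg_4, txg_6, txg_26, txg_29, txg_32, txg_55, txg_95, txg_98, txg_139, txg_183, txg_186, txg_189, txg_226, txg_265, txg_268, txg_307, txg_341, txg_363, txg_365, txg_367, txg_369, txg_419, txg_462, txg_464, txg_506]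
  rcases eq_or_lt_of_le h2 with h | h2
  · subst h
    ((try push_cast); (repeat first | rw [if_pos (by linarith)] | rw [if_neg (by linarith)] | erw [if_pos (by linarith)] | erw [if_neg (by linarith)]); (try push_cast); (try ring1))
  · ((try push_cast); (repeat first | rw [if_pos (by linarith)] | rw [if_neg (by linarith)] | erw [if_pos (by linarith)] | erw [if_neg (by linarith)]); (try push_cast); (try ring1))
theorem txl18 {p c x : ℝ} (h1 : 1 / 5 < p) (h2 : p ≤ 1 / 4) : txg.v p c x = dt84.val (fun p x => kcg.v p x) p c x := by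
  symm
  refine (DT.val_gt (by simp only [Cn.rt_v, Cn.ng_v]; push_cast; linarith)).trans ?_
  refine (DT.val_gt (by simp only [Cn.rt_v, Cn.ng_v]; push_cast; linarith)).trans ?_
  refine (DT.val_le (by simp only [Cn.rt_v, Cn.ng_v]; push_cast; linarith)).trans ?_
  refine (DT.val_le (by simp only [Cn.rt_v, Cn.ng_v]; push_cast; linarith)).trans ?_
  simp only [dt56, DT.val, cloR, sw56, sl56, sv56, txg, txg_4, txg_6, txg_26, txg_29, txg_32, txg_55, txg_95, txg_98, txg_139, txg_183, txg_186, txg_189, txg_226, txg_265, txg_268, txg_307, txg_341, txg_363, txg_365, txg_367, txg_369, txg_419, txg_462, txg_464, txg_506]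
  rcases eq_or_lt_of_le h2 with h | h2
  · subst h
    ((try push_cast); (repeat first | rw [if_pos (by linarith)] | rw [if_neg (by linarith)] | erw [if_pos (by linarith)] | erw [if_neg (by linarith)]); (try push_cast); (try ring1))
  · ((try push_cast); (repeat first | rw [if_pos (by linarith)] | rw [if_neg (by linarith)] | erw [if_pos (by linarith)] | erw [if_neg (by linarith)]); (try push_cast); (try ring1))
theorem txl19 {p c x : ℝ} (h1 : 1 / 4 < p) (h2 : p ≤ 3 / 10) : txg.v p c x = dt84.val (fun p x => kcg.v p x) p c x := by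
  symm
  refine (DT.val_gt (by simp only [Cn.rt_v, Cn.ng_v]; push_cast; linarith)).trans ?_
  refine (DT.val_gt (by simp only [Cn.rt_v, Cn.ng_v]; push_cast; linarith)).trans ?_
  refine (DT.val_le (by simp only [Cn.rt_v, Cn.ng_v]; push_cast; linarith)).trans ?_
  refine (DT.val_gt (by simp only [Cn.rt_v, Cn.ng_v]; push_cast; linarith)).trans ?_
  refine (DT.val_le (by simp only [Cn.rt_v, Cn.ng_v]; push_cast; linarith)).trans ?_
  simp only [dt57, DT.val, cloR, sw57, sl57, sv57, txg, txg_4, txg_6, txg_26, txg_29, txg_32, txg_55, txg_95, txg_98, txg_139, txg_183, txg_186, txg_189, txg_226, txg_265, txg_268, txg_307, txg_341, txg_363, txg_365, txg_367, txg_369, txg_419, txg_462, txg_464, txg_506]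
  rcases eq_or_lt_of_le h2 with h | h2
  · subst h
    ((try push_cast); (repeat first | rw [if_pos (by linarith)] | rw [if_neg (by linarith)] | erw [if_pos (by linarith)] | erw [if_neg (by linarith)]); (try push_cast); (try ring1))
  · ((try push_cast); (repeat first | rw [if_pos (by linarith)] | rw [if_neg (by linarith)] | erw [if_pos (by linarith)] | erw [if_neg (by linarith)]); (try push_cast); (try ring1))
theorem txl20 {p c x : ℝ} (h1 : 3 / 10 < p) (h2 : p ≤ 7 / 20) : txg.v p c x = dt84.val (fun p x => kcg.v p x) p c x := by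
  symm
  refine (DT.val_gt (by simp only [Cn.rt_v, Cn.ng_v]; push_cast; linarith)).trans ?_
  refine (DT.val_gt (by simp only [Cn.rt_v, Cn.ng_v]; push_cast; linarith)).trans ?_
  refine (DT.val_le (by simp only [Cn.rt_v, Cn.ng_v]; push_cast; linarith)).trans ?_
  refine (DT.val_gt (by simp only [Cn.rt_v, Cn.ng_v]; push_cast; linarith)).trans ?_
  refine (DT.val_gt (by simp only [Cn.rt_v, Cn.ng_v]; push_cast; linarith)).trans ?_
  simp only [dt58, DT.val, cloR, sw58, sl58, sv58, txg, txg_4, txg_6, txg_26, txg_29, txg_32, txg_55, txg_95, txg_98, txg_139, txg_183, txg_186, txg_189, txg_226, txg_265, txg_268, txg_307, txg_341, txg_363, txg_365, txg_367, txg_369, txg_419, txg_462, txg_464, txg_506]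
  rcases eq_or_lt_of_le h2 with h | h2
  · subst h
    ((try push_cast); (repeat first | rw [if_pos (by linarith)] | rw [if_neg (by linarith)] | erw [if_pos (by linarith)] | erw [if_neg (by linarith)]); (try push_cast); (try ring1))
  · ((try push_cast); (repeat first | rw [if_pos (by linarith)] | rw [if_neg (by linarith)] | erw [if_pos (by linarith)] | erw [if_neg (by linarith)]); (try push_cast); (try ring1))
theorem txl21 {p c x : ℝ} (h1 : 7 / 20 < p) (h2 : p ≤ 2 / 5) : txg.v p c x = dt84.val (fun p x => kcg.v p x) p c x := by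
  symm
  refine (DT.val_gt (by simp only [Cn.rt_v, Cn.ng_v]; push_cast; linarith)).trans ?_
  refine (DT.val_gt (by simp only [Cn.rt_v, Cn.ng_v]; push_cast; linarith)).trans ?_
  refine (DT.val_gt (by simp only [Cn.rt_v, Cn.ng_v]; push_cast; linarith)).trans ?_
  refine (DT.val_le (by simp only [Cn.rt_v, Cn.ng_v]; push_cast; linarith)).trans ?_
  simp only [dt59, DT.val, cloR, sw59, sl59, sv59, txg, txg_4, txg_6, txg_26, txg_29, txg_32, txg_55, txg_95, txg_98, txg_139, txg_183, txg_186, txg_189, txg_226, txg_265, txg_268, txg_307, txg_341, txg_363, txg_365, txg_367, txg_369, txg_419, txg_462, txg_464, txg_506]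
  rcases eq_or_lt_of_le h2 with h | h2
  · subst h
    ((try push_cast); (repeat first | rw [if_pos (by linarith)] | rw [if_neg (by linarith)] | erw [if_pos (by linarith)] | erw [if_neg (by linarith)]); (try push_cast); (try ring1))
  · ((try push_cast); (repeat first | rw [if_pos (by linarith)] | rw [if_neg (by linarith)] | erw [if_pos (by linarith)] | erw [if_neg (by linarith)]); (try push_cast); (try ring1))
theorem txl22 {p c x : ℝ} (h1 : 2 / 5 < p) (h2 : p ≤ 9 / 20) : txg.v p c x = dt84.val (fun p x => kcg.v p x) p c x := by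
  symm
  refine (DT.val_gt (by simp only [Cn.rt_v, Cn.ng_v]; push_cast; linarith)).trans ?_
  refine (DT.val_gt (by simp only [Cn.rt_v, Cn.ng_v]; push_cast; linarith)).trans ?_
  refine (DT.val_gt (by simp only [Cn.rt_v, Cn.ng_v]; push_cast; linarith)).trans ?_
  refine (DT.val_gt (by simp only [Cn.rt_v, Cn.ng_v]; push_cast; linarith)).trans ?_
  refine (DT.val_le (by simp only [Cn.rt_v, Cn.ng_v]; push_cast; linarith)).trans ?_
  simp only [dt60, DT.val, cloR, sw60, sl60, sv60, txg, txg_4, txg_6, txg_26, txg_29, txg_32, txg_55, txg_95, txg_98, txg_139, txg_183, txg_186, txg_189, txg_226, txg_265, txg_268, txg_307, txg_341, txg_363, txg_365, txg_367, txg_369, txg_419, txg_462, txg_464, txg_506]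
  rcases eq_or_lt_of_le h2 with h | h2
  · subst h
    ((try push_cast); (repeat first | rw [if_pos (by linarith)] | rw [if_neg (by linarith)] | erw [if_pos (by linarith)] | erw [if_neg (by linarith)]); (try push_cast); (try ring1))
  · ((try push_cast); (repeat first | rw [if_pos (by linarith)] | rw [if_neg (by linarith)] | erw [if_pos (by linarith)] | erw [if_neg (by linarith)]); (try push_cast); (try ring1))
theorem txl23 {p c x : ℝ} (h1 : 9 / 20 < p) (h2 : p ≤ 1 / 2) : txg.v p c x = dt84.val (fun p x => kcg.v p x) p c x := by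
  symm
  refine (DT.val_gt (by simp only [Cn.rt_v, Cn.ng_v]; push_cast; linarith)).trans ?_
  refine (DT.val_gt (by simp only [Cn.rt_v, Cn.ng_v]; push_cast; linarith)).trans ?_
  refine (DT.val_gt (by simp only [Cn.rt_v, Cn.ng_v]; push_cast; linarith)).trans ?_
  refine (DT.val_gt (by simp only [Cn.rt_v, Cn.ng_v]; push_cast; linarith)).trans ?_
  refine (DT.val_gt (by simp only [Cn.rt_v, Cn.ng_v]; push_cast; linarith)).trans ?_
  simp only [dt61, DT.val, cloR, sw61, sl61, sv61, txg, txg_4, txg_6, txg_26, txg_29, txg_32, txg_55, txg_95, txg_98, txg_139, txg_183, txg_186, txg_189, txg_226, txg_265, txg_268, txg_307, txg_341, txg_363, txg_365, txg_367, txg_369, txg_419, txg_462, txg_464, txg_506]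
  rcases eq_or_lt_of_le h2 with h | h2
  · subst h
    ((try push_cast); (repeat first | rw [if_pos (by linarith)] | rw [if_neg (by linarith)] | erw [if_pos (by linarith)] | erw [if_neg (by linarith)]); (try push_cast); (try ring1))
  · ((try push_cast); (repeat first | rw [if_pos (by linarith)] | rw [if_neg (by linarith)] | erw [if_pos (by linarith)] | erw [if_neg (by linarith)]); (try push_cast); (try ring1))
theorem txe {x : ℝ} (p c : ℝ) (h : |p| ≤ 1 / 2) : txg.v p c x = dt84.val (fun p x => kcg.v p x) p c x := by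
  obtain ⟨h1, h2⟩ := abs_le.1 h
  rcases le_or_gt p (-47 / 100) with g0 | g1000
  · exact txl0 (by linarith) g0
  rcases le_or_gt p (-11 / 25) with g1 | g1001
  · exact txl1 g1000 g1
  rcases le_or_gt p (-2 / 5) with g2 | g1002
  · exact txl2 g1001 g2
  rcases le_or_gt p (-9 / 25) with g3 | g1003
  · exact txl3 g1002 g3
  rcases le_or_gt p (-33 / 100) with g4 | g1004
  · exact txl4 g1003 g4
  rcases le_or_gt p (-29 / 100) with g5 | g1005
  · exact txl5 g1004 g5
  rcases le_or_gt p (-1 / 4) with g6 | g1006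
  · exact txl6 g1005 g6
  rcases le_or_gt p (-21 / 100) with g7 | g1007
  · exact txl7 g1006 g7
  rcases le_or_gt p (-9 / 50) with g8 | g1008
  · exact txl8 g1007 g8
  rcases le_or_gt p (-7 / 50) with g9 | g1009
  · exact txl9 g1008 g9
  rcases le_or_gt p (-1 / 10) with g10 | g1010
  · exact txl10 g1009 g10
  rcases le_or_gt p (-3 / 50) with g11 | g1011
  · exact txl11 g1010 g11
  rcases le_or_gt p (-1 / 50) with g12 | g1012
  · exact txl12 g1011 g12
  rcases le_or_gt p (1 / 100) with g13 | g1013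
  · exact txl13 g1012 g13
  rcases le_or_gt p (47 / 914) with g14 | g1014
  · exact txl14 g1013 g14
  rcases le_or_gt p (1 / 7) with g15 | g1015
  · exact txl15 g1014 g15
  rcases le_or_gt p (163 / 1000) with g16 | g1016
  · exact txl16 g1015 g16
  rcases le_or_gt p (1 / 5) with g17 | g1017
  · exact txl17 g1016 g17
  rcases le_or_gt p (1 / 4) with g18 | g1018
  · exact txl18 g1017 g18
  rcases le_or_gt p (3 / 10) with g19 | g1019
  · exact txl19 g1018 g19
  rcases le_or_gt p (7 / 20) with g20 | g1020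
  · exact txl20 g1019 g20
  rcases le_or_gt p (2 / 5) with g21 | g1021
  · exact txl21 g1020 g21
  rcases le_or_gt p (9 / 20) with g22 | g1022
  · exact txl22 g1021 g22
  · exact txl23 g1022 (by linarith)
theorem ta_dt38 (x : ℝ) : dt38.val (fun p x => kcg.v p x) (-1 / 2) (cT (-1 / 2)) x = (0) := by
  simp only [dt38, DT.val, sw38, sl38, sv38]
  ((try push_cast); ring1)
theorem tb_dt38 (x : ℝ) : dt38.val (fun p x => kcg.v p x) (-47 / 100) (cT (-47 / 100)) x = (373861 / 100000000 + (x - 67 / 100) * (590579 / 10000000)) := by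
  simp only [dt38, DT.val, sw38, sl38, sv38]
  ((try push_cast); ring1)
theorem ta_dt39 (x : ℝ) : dt39.val (fun p x => kcg.v p x) (-47 / 100) (cT (-47 / 100)) x = (373861 / 100000000 + (x - 67 / 100) * (590579 / 10000000)) := by
  simp only [dt39, DT.val, sw39, sl39, sv39]
  ((try push_cast); ring1)
theorem tb_dt39 (x : ℝ) : dt39.val (fun p x => kcg.v p x) (-11 / 25) (cT (-11 / 25)) x = (114189 / 12500000 + (x - 67 / 100) * (1859 / 20000)) := by
  simp only [dt39, DT.val, sw39, sl39, sv39]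
  ((try push_cast); ring1)
theorem ta_dt40 (x : ℝ) : dt40.val (fun p x => kcg.v p x) (-11 / 25) (cT (-11 / 25)) x = (114189 / 12500000 + (x - 67 / 100) * (1859 / 20000)) := by
  simp only [dt40, DT.val, sw40, sl40, sv40]
  ((try push_cast); ring1)
theorem tb_dt40 (x : ℝ) : dt40.val (fun p x => kcg.v p x) (-2 / 5) (cT (-2 / 5)) x = (22401 / 2000000 + (x - 67 / 100) * (1275831 / 10000000)) := by
  simp only [dt40, DT.val, sw40, sl40, sv40]
  ((try push_cast); ring1)
theorem ta_dt62 (x : ℝ) : dt62.val (fun p x => kcg.v p x) (-47 / 100) (cT (-47 / 100)) x = (373861 / 100000000 + (x - 67 / 100) * (590579 / 10000000)) :=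
  (DT.val_le (by simp only [Cn.rt_v, Cn.ng_v]; norm_num)).trans (ta_dt39 x)
theorem tb_dt62 (x : ℝ) : dt62.val (fun p x => kcg.v p x) (-2 / 5) (cT (-2 / 5)) x = (22401 / 2000000 + (x - 67 / 100) * (1275831 / 10000000)) :=
  (DT.val_gt (by simp only [Cn.rt_v, Cn.ng_v]; norm_num)).trans (tb_dt40 x)
theorem ta_dt63 (x : ℝ) : dt63.val (fun p x => kcg.v p x) (-1 / 2) (cT (-1 / 2)) x = (0) :=
  (DT.val_le (by simp only [Cn.rt_v, Cn.ng_v]; norm_num)).trans (ta_dt38 x)
theorem tb_dt63 (x : ℝ) : dt63.val (fun p x => kcg.v p x) (-2 / 5) (cT (-2 / 5)) x = (22401 / 2000000 + (x - 67 / 100) * (1275831 / 10000000)) :=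
  (DT.val_gt (by simp only [Cn.rt_v, Cn.ng_v]; norm_num)).trans (tb_dt62 x)
theorem ta_dt41 (x : ℝ) : dt41.val (fun p x => kcg.v p x) (-2 / 5) (cT (-2 / 5)) x = (22401 / 2000000 + (x - 67 / 100) * (1275831 / 10000000)) := by
  simp only [dt41, DT.val, sw41, sl41, sv41]
  ((try push_cast); ring1)
theorem tb_dt41 (x : ℝ) : dt41.val (fun p x => kcg.v p x) (-9 / 25) (cT (-9 / 25)) x = (220241 / 25000000 + (x - 67 / 100) * (1502807 / 10000000)) := by
  simp only [dt41, DT.val, sw41, sl41, sv41]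
  ((try push_cast); ring1)
theorem ta_dt42 (x : ℝ) : dt42.val (fun p x => kcg.v p x) (-9 / 25) (cT (-9 / 25)) x = (220241 / 25000000 + (x - 67 / 100) * (1502807 / 10000000)) := by
  simp only [dt42, DT.val, sw42, sl42, sv42]
  ((try push_cast); ring1)
theorem tb_dt42 (x : ℝ) : dt42.val (fun p x => kcg.v p x) (-33 / 100) (cT (-33 / 100)) x = (148733 / 20000000 + (x - 67 / 100) * (1540019 / 10000000)) := by
  simp only [dt42, DT.val, sw42, sl42, sv42]
  ((try push_cast); ring1)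
theorem ta_dt43 (x : ℝ) : dt43.val (fun p x => kcg.v p x) (-33 / 100) (cT (-33 / 100)) x = (148733 / 20000000 + (x - 67 / 100) * (1540019 / 10000000)) := by
  simp only [dt43, DT.val, sw43, sl43, sv43]
  ((try push_cast); ring1)
theorem tb_dt43 (x : ℝ) : dt43.val (fun p x => kcg.v p x) (-29 / 100) (cT (-29 / 100)) x = (793861 / 100000000 + (x - 67 / 100) * (88707 / 500000)) := by
  simp only [dt43, DT.val, sw43, sl43, sv43]
  ((try push_cast); ring1)
theorem ta_dt64 (x : ℝ) : dt64.val (fun p x => kcg.v p x) (-9 / 25) (cT (-9 / 25)) x = (220241 / 25000000 + (x - 67 / 100) * (1502807 / 10000000)) :=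
  (DT.val_le (by simp only [Cn.rt_v, Cn.ng_v]; norm_num)).trans (ta_dt42 x)
theorem tb_dt64 (x : ℝ) : dt64.val (fun p x => kcg.v p x) (-29 / 100) (cT (-29 / 100)) x = (793861 / 100000000 + (x - 67 / 100) * (88707 / 500000)) :=
  (DT.val_gt (by simp only [Cn.rt_v, Cn.ng_v]; norm_num)).trans (tb_dt43 x)
theorem ta_dt65 (x : ℝ) : dt65.val (fun p x => kcg.v p x) (-2 / 5) (cT (-2 / 5)) x = (22401 / 2000000 + (x - 67 / 100) * (1275831 / 10000000)) :=
  (DT.val_le (by simp only [Cn.rt_v, Cn.ng_v]; norm_num)).trans (ta_dt41 x)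
theorem tb_dt65 (x : ℝ) : dt65.val (fun p x => kcg.v p x) (-29 / 100) (cT (-29 / 100)) x = (793861 / 100000000 + (x - 67 / 100) * (88707 / 500000)) :=
  (DT.val_gt (by simp only [Cn.rt_v, Cn.ng_v]; norm_num)).trans (tb_dt64 x)
theorem ta_dt66 (x : ℝ) : dt66.val (fun p x => kcg.v p x) (-1 / 2) (cT (-1 / 2)) x = (0) :=
  (DT.val_le (by simp only [Cn.rt_v, Cn.ng_v]; norm_num)).trans (ta_dt63 x)
theorem tb_dt66 (x : ℝ) : dt66.val (fun p x => kcg.v p x) (-29 / 100) (cT (-29 / 100)) x = (793861 / 100000000 + (x - 67 / 100) * (88707 / 500000)) :=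
  (DT.val_gt (by simp only [Cn.rt_v, Cn.ng_v]; norm_num)).trans (tb_dt65 x)
theorem ta_dt44 (x : ℝ) : dt44.val (fun p x => kcg.v p x) (-29 / 100) (cT (-29 / 100)) x = (793861 / 100000000 + (x - 67 / 100) * (88707 / 500000)) := by
  simp only [dt44, DT.val, sw44, sl44, sv44]
  ((try push_cast); ring1)
theorem tb_dt44 (x : ℝ) : dt44.val (fun p x => kcg.v p x) (-1 / 4) (cT (-1 / 4)) x = (716889 / 50000000 + (x - 67 / 100) * (2388643 / 10000000)) := by
  simp only [dt44, DT.val, sw44, sl44, sv44]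
  ((try push_cast); ring1)
theorem ta_dt45 (x : ℝ) : dt45.val (fun p x => kcg.v p x) (-1 / 4) (cT (-1 / 4)) x = (716889 / 50000000 + (x - 67 / 100) * (2388643 / 10000000)) := by
  simp only [dt45, DT.val, sw45, sl45, sv45]
  ((try push_cast); ring1)
theorem tb_dt45 (x : ℝ) : dt45.val (fun p x => kcg.v p x) (-21 / 100) (cT (-21 / 100)) x = (2919047 / 100000000 + (x - 67 / 100) * (116719 / 400000)) := by
  simp only [dt45, DT.val, sw45, sl45, sv45]
  ((try push_cast); ring1)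
theorem ta_dt46 (x : ℝ) : dt46.val (fun p x => kcg.v p x) (-21 / 100) (cT (-21 / 100)) x = (2919047 / 100000000 + (x - 67 / 100) * (116719 / 400000)) := by
  simp only [dt46, DT.val, sw46, sl46, sv46]
  ((try push_cast); ring1)
theorem tb_dt46 (x : ℝ) : dt46.val (fun p x => kcg.v p x) (-9 / 50) (cT (-9 / 50)) x = (4440007 / 100000000 + (x - 67 / 100) * (47241 / 156250)) := by
  simp only [dt46, DT.val, sw46, sl46, sv46]
  ((try push_cast); ring1)
theorem ta_dt67 (x : ℝ) : dt67.val (fun p x => kcg.v p x) (-1 / 4) (cT (-1 / 4)) x = (716889 / 50000000 + (x - 67 / 100) * (2388643 / 10000000)) :=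
  (DT.val_le (by simp only [Cn.rt_v, Cn.ng_v]; norm_num)).trans (ta_dt45 x)
theorem tb_dt67 (x : ℝ) : dt67.val (fun p x => kcg.v p x) (-9 / 50) (cT (-9 / 50)) x = (4440007 / 100000000 + (x - 67 / 100) * (47241 / 156250)) :=
  (DT.val_gt (by simp only [Cn.rt_v, Cn.ng_v]; norm_num)).trans (tb_dt46 x)
theorem ta_dt68 (x : ℝ) : dt68.val (fun p x => kcg.v p x) (-29 / 100) (cT (-29 / 100)) x = (793861 / 100000000 + (x - 67 / 100) * (88707 / 500000)) :=
  (DT.val_le (by simp only [Cn.rt_v, Cn.ng_v]; norm_num)).trans (ta_dt44 x)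
theorem tb_dt68 (x : ℝ) : dt68.val (fun p x => kcg.v p x) (-9 / 50) (cT (-9 / 50)) x = (4440007 / 100000000 + (x - 67 / 100) * (47241 / 156250)) :=
  (DT.val_gt (by simp only [Cn.rt_v, Cn.ng_v]; norm_num)).trans (tb_dt67 x)
theorem ta_dt47 (x : ℝ) : dt47.val (fun p x => kcg.v p x) (-9 / 50) (cT (-9 / 50)) x = (4440007 / 100000000 + (x - 67 / 100) * (47241 / 156250)) := by
  simp only [dt47, DT.val, sw47, sl47, sv47]
  ((try push_cast); ring1)
theorem tb_dt47 (x : ℝ) : dt47.val (fun p x => kcg.v p x) (-7 / 50) (cT (-7 / 50)) x = (1241039 / 20000000 + (x - 67 / 100) * (46891 / 156250)) := by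
  simp only [dt47, DT.val, sw47, sl47, sv47]
  ((try push_cast); ring1)
theorem ta_dt48 (x : ℝ) : dt48.val (fun p x => kcg.v p x) (-7 / 50) (cT (-7 / 50)) x = (1241039 / 20000000 + (x - 67 / 100) * (46891 / 156250)) := by
  simp only [dt48, DT.val, sw48, sl48, sv48]
  ((try push_cast); ring1)
theorem tb_dt48 (x : ℝ) : dt48.val (fun p x => kcg.v p x) (-1 / 10) (cT (-1 / 10)) x = (7667723 / 100000000 + (x - 67 / 100) * (1361179 / 5000000)) := by
  simp only [dt48, DT.val, sw48, sl48, sv48]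
  ((try push_cast); ring1)
theorem ta_dt49 (x : ℝ) : dt49.val (fun p x => kcg.v p x) (-1 / 10) (cT (-1 / 10)) x = (7667723 / 100000000 + (x - 67 / 100) * (1361179 / 5000000)) := by
  simp only [dt49, DT.val, sw49, sl49, sv49]
  ((try push_cast); ring1)
theorem tb_dt49 (x : ℝ) : dt49.val (fun p x => kcg.v p x) (-3 / 50) (cT (-3 / 50)) x = (2209659 / 25000000 + (x - 67 / 100) * (35311 / 200000)) := by
  simp only [dt49, DT.val, sw49, sl49, sv49]
  ((try push_cast); ring1)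
theorem ta_dt69 (x : ℝ) : dt69.val (fun p x => kcg.v p x) (-7 / 50) (cT (-7 / 50)) x = (1241039 / 20000000 + (x - 67 / 100) * (46891 / 156250)) :=
  (DT.val_le (by simp only [Cn.rt_v, Cn.ng_v]; norm_num)).trans (ta_dt48 x)
theorem tb_dt69 (x : ℝ) : dt69.val (fun p x => kcg.v p x) (-3 / 50) (cT (-3 / 50)) x = (2209659 / 25000000 + (x - 67 / 100) * (35311 / 200000)) :=
  (DT.val_gt (by simp only [Cn.rt_v, Cn.ng_v]; norm_num)).trans (tb_dt49 x)
theorem ta_dt70 (x : ℝ) : dt70.val (fun p x => kcg.v p x) (-9 / 50) (cT (-9 / 50)) x = (4440007 / 100000000 + (x - 67 / 100) * (47241 / 156250)) :=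
  (DT.val_le (by simp only [Cn.rt_v, Cn.ng_v]; norm_num)).trans (ta_dt47 x)
theorem tb_dt70 (x : ℝ) : dt70.val (fun p x => kcg.v p x) (-3 / 50) (cT (-3 / 50)) x = (2209659 / 25000000 + (x - 67 / 100) * (35311 / 200000)) :=
  (DT.val_gt (by simp only [Cn.rt_v, Cn.ng_v]; norm_num)).trans (tb_dt69 x)
theorem ta_dt71 (x : ℝ) : dt71.val (fun p x => kcg.v p x) (-29 / 100) (cT (-29 / 100)) x = (793861 / 100000000 + (x - 67 / 100) * (88707 / 500000)) :=
  (DT.val_le (by simp only [Cn.rt_v, Cn.ng_v]; norm_num)).trans (ta_dt68 x)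
theorem tb_dt71 (x : ℝ) : dt71.val (fun p x => kcg.v p x) (-3 / 50) (cT (-3 / 50)) x = (2209659 / 25000000 + (x - 67 / 100) * (35311 / 200000)) :=
  (DT.val_gt (by simp only [Cn.rt_v, Cn.ng_v]; norm_num)).trans (tb_dt70 x)
theorem ta_dt72 (x : ℝ) : dt72.val (fun p x => kcg.v p x) (-1 / 2) (cT (-1 / 2)) x = (0) :=
  (DT.val_le (by simp only [Cn.rt_v, Cn.ng_v]; norm_num)).trans (ta_dt66 x)
theorem tb_dt72 (x : ℝ) : dt72.val (fun p x => kcg.v p x) (-3 / 50) (cT (-3 / 50)) x = (2209659 / 25000000 + (x - 67 / 100) * (35311 / 200000)) :=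
  (DT.val_gt (by simp only [Cn.rt_v, Cn.ng_v]; norm_num)).trans (tb_dt71 x)
theorem ta_dt50 (x : ℝ) : dt50.val (fun p x => kcg.v p x) (-3 / 50) (cT (-3 / 50)) x = (2209659 / 25000000 + (x - 67 / 100) * (35311 / 200000)) := by
  simp only [dt50, DT.val, sw50, sl50, sv50]
  ((try push_cast); ring1)
theorem tb_dt50 (x : ℝ) : dt50.val (fun p x => kcg.v p x) (-1 / 50) (cT (-1 / 50)) x = (9719687 / 100000000 + (x - 67 / 100) * (780509 / 10000000)) := by
  simp only [dt50, DT.val, sw50, sl50, sv50]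
  ((try push_cast); ring1)
theorem ta_dt51 (x : ℝ) : dt51.val (fun p x => kcg.v p x) (-1 / 50) (cT (-1 / 50)) x = (9719687 / 100000000 + (x - 67 / 100) * (780509 / 10000000)) := by
  simp only [dt51, DT.val, sw51, sw51_2, sl51, sl51_2, sv51, sv51_2]
  ((try push_cast); ring1)
theorem tb_dt51 (x : ℝ) : dt51.val (fun p x => kcg.v p x) (1 / 100) (cT (1 / 100)) x = (5159377 / 50000000 + (x - 67 / 100) * (111697 / 2500000)) := by
  simp only [dt51, DT.val, sw51, sw51_2, sl51, sl51_2, sv51, sv51_2]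
  ((try push_cast); ring1)
theorem ta_dt52 (x : ℝ) : dt52.val (fun p x => kcg.v p x) (1 / 100) (cT (1 / 100)) x = (5159377 / 50000000 + (x - 67 / 100) * (111697 / 2500000)) := by
  simp only [dt52, DT.val, sw52, sw52_2, sl52, sl52_2, sv52, sv52_2]
  ((try push_cast); ring1)
theorem tb_dt52 (x : ℝ) : dt52.val (fun p x => kcg.v p x) (47 / 914) (767 / 914) x = (605235634344591971 / 5452238100125000000 + (x - 67 / 100) * (99146109673758343 / 2180895240050000000) + (x - 67 / 100) ^ 2 * (2957498817 / 47721996500000)) := by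
  simp only [dt52, DT.val, sw52, sw52_2, sl52, sl52_2, sv52, sv52_2]
  ((try push_cast); ring1)
theorem ta_dt73 (x : ℝ) : dt73.val (fun p x => kcg.v p x) (-1 / 50) (cT (-1 / 50)) x = (9719687 / 100000000 + (x - 67 / 100) * (780509 / 10000000)) :=
  (DT.val_le (by simp only [Cn.rt_v, Cn.ng_v]; norm_num)).trans (ta_dt51 x)
theorem tb_dt73 (x : ℝ) : dt73.val (fun p x => kcg.v p x) (47 / 914) (767 / 914) x = (605235634344591971 / 5452238100125000000 + (x - 67 / 100) * (99146109673758343 / 2180895240050000000) + (x - 67 / 100) ^ 2 * (2957498817 / 47721996500000)) :=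
  (DT.val_gt (by simp only [Cn.rt_v, Cn.ng_v]; norm_num)).trans (tb_dt52 x)
theorem ta_dt74 (x : ℝ) : dt74.val (fun p x => kcg.v p x) (-3 / 50) (cT (-3 / 50)) x = (2209659 / 25000000 + (x - 67 / 100) * (35311 / 200000)) :=
  (DT.val_le (by simp only [Cn.rt_v, Cn.ng_v]; norm_num)).trans (ta_dt50 x)
theorem tb_dt74 (x : ℝ) : dt74.val (fun p x => kcg.v p x) (47 / 914) (767 / 914) x = (605235634344591971 / 5452238100125000000 + (x - 67 / 100) * (99146109673758343 / 2180895240050000000) + (x - 67 / 100) ^ 2 * (2957498817 / 47721996500000)) :=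
  (DT.val_gt (by simp only [Cn.rt_v, Cn.ng_v]; norm_num)).trans (tb_dt73 x)
theorem ta_dt53 (x : ℝ) : dt53.val (fun p x => kcg.v p x) (47 / 914) (767 / 914) x = (605235634344591971 / 5452238100125000000 + (x - 67 / 100) * (99146109673758343 / 2180895240050000000) + (x - 67 / 100) ^ 2 * (2957498817 / 47721996500000)) := by
  simp only [dt53, DT.val, cloR, kgA]
  ring1
theorem tb_dt53 (x : ℝ) : dt53.val (fun p x => kcg.v p x) (1 / 7) (11 / 14) x = (141612162521 / 1200500000000 + (x - 67 / 100) * (3261363347 / 34300000000) + (x - 67 / 100) ^ 2 * (6924543 / 49000000)) := by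
  simp only [dt53, DT.val, cloR, kgB]
  ring1
theorem ta_dt54 (x : ℝ) : dt54.val (fun p x => kcg.v p x) (1 / 7) (11 / 14) x = (141612162521 / 1200500000000 + (x - 67 / 100) * (3261363347 / 34300000000) + (x - 67 / 100) ^ 2 * (6924543 / 49000000)) := by
  simp only [dt54, DT.val, sw54, sw54_2, sl54, sl54_2, sv54, sv54_2]
  ((try push_cast); ring1)
theorem tb_dt54 (x : ℝ) : dt54.val (fun p x => kcg.v p x) (163 / 1000) (cT (163 / 1000)) x = (11627739 / 100000000 + (x - 67 / 100) * (1013559 / 10000000)) := by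
  simp only [dt54, DT.val, sw54, sw54_2, sl54, sl54_2, sv54, sv54_2]
  ((try push_cast); ring1)
theorem ta_dt55 (x : ℝ) : dt55.val (fun p x => kcg.v p x) (163 / 1000) (cT (163 / 1000)) x = (11627739 / 100000000 + (x - 67 / 100) * (1013559 / 10000000)) := by
  simp only [dt55, DT.val, sw55, sw55_2, sl55, sl55_2, sv55, sv55_2]
  ((try push_cast); ring1)
theorem tb_dt55 (x : ℝ) : dt55.val (fun p x => kcg.v p x) (1 / 5) (cT (1 / 5)) x = (665407 / 6250000 + (x - 67 / 100) * (517079 / 5000000)) := by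
  simp only [dt55, DT.val, sw55, sw55_2, sl55, sl55_2, sv55, sv55_2]
  ((try push_cast); ring1)
theorem ta_dt75 (x : ℝ) : dt75.val (fun p x => kcg.v p x) (1 / 7) (11 / 14) x = (141612162521 / 1200500000000 + (x - 67 / 100) * (3261363347 / 34300000000) + (x - 67 / 100) ^ 2 * (6924543 / 49000000)) :=
  (DT.val_le (by simp only [Cn.rt_v, Cn.ng_v]; norm_num)).trans (ta_dt54 x)
theorem tb_dt75 (x : ℝ) : dt75.val (fun p x => kcg.v p x) (1 / 5) (cT (1 / 5)) x = (665407 / 6250000 + (x - 67 / 100) * (517079 / 5000000)) :=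
  (DT.val_gt (by simp only [Cn.rt_v, Cn.ng_v]; norm_num)).trans (tb_dt55 x)
theorem ta_dt76 (x : ℝ) : dt76.val (fun p x => kcg.v p x) (47 / 914) (767 / 914) x = (605235634344591971 / 5452238100125000000 + (x - 67 / 100) * (99146109673758343 / 2180895240050000000) + (x - 67 / 100) ^ 2 * (2957498817 / 47721996500000)) :=
  (DT.val_le (by simp only [Cn.rt_v, Cn.ng_v]; norm_num)).trans (ta_dt53 x)
theorem tb_dt76 (x : ℝ) : dt76.val (fun p x => kcg.v p x) (1 / 5) (cT (1 / 5)) x = (665407 / 6250000 + (x - 67 / 100) * (517079 / 5000000)) :=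
  (DT.val_gt (by simp only [Cn.rt_v, Cn.ng_v]; norm_num)).trans (tb_dt75 x)
theorem ta_dt77 (x : ℝ) : dt77.val (fun p x => kcg.v p x) (-3 / 50) (cT (-3 / 50)) x = (2209659 / 25000000 + (x - 67 / 100) * (35311 / 200000)) :=
  (DT.val_le (by simp only [Cn.rt_v, Cn.ng_v]; norm_num)).trans (ta_dt74 x)
theorem tb_dt77 (x : ℝ) : dt77.val (fun p x => kcg.v p x) (1 / 5) (cT (1 / 5)) x = (665407 / 6250000 + (x - 67 / 100) * (517079 / 5000000)) :=
  (DT.val_gt (by simp only [Cn.rt_v, Cn.ng_v]; norm_num)).trans (tb_dt76 x)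
theorem ta_dt56 (x : ℝ) : dt56.val (fun p x => kcg.v p x) (1 / 5) (cT (1 / 5)) x = (665407 / 6250000 + (x - 67 / 100) * (517079 / 5000000)) := by
  simp only [dt56, DT.val, sw56, sl56, sv56]
  ((try push_cast); ring1)
theorem tb_dt56 (x : ℝ) : dt56.val (fun p x => kcg.v p x) (1 / 4) (cT (1 / 4)) x = (1763709 / 20000000 + (x - 67 / 100) * (12281 / 156250)) := by
  simp only [dt56, DT.val, sw56, sl56, sv56]
  ((try push_cast); ring1)
theorem ta_dt57 (x : ℝ) : dt57.val (fun p x => kcg.v p x) (1 / 4) (cT (1 / 4)) x = (1763709 / 20000000 + (x - 67 / 100) * (12281 / 156250)) := by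
  simp only [dt57, DT.val, sw57, sl57, sv57]
  ((try push_cast); ring1)
theorem tb_dt57 (x : ℝ) : dt57.val (fun p x => kcg.v p x) (3 / 10) (cT (3 / 10)) x = (1795191 / 25000000 + (x - 67 / 100) * (290519 / 5000000)) := by
  simp only [dt57, DT.val, sw57, sl57, sv57]
  ((try push_cast); ring1)
theorem ta_dt58 (x : ℝ) : dt58.val (fun p x => kcg.v p x) (3 / 10) (cT (3 / 10)) x = (1795191 / 25000000 + (x - 67 / 100) * (290519 / 5000000)) := by
  simp only [dt58, DT.val, sw58, sl58, sv58]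
  ((try push_cast); ring1)
theorem tb_dt58 (x : ℝ) : dt58.val (fun p x => kcg.v p x) (7 / 20) (cT (7 / 20)) x = (5345749 / 100000000 + (x - 67 / 100) * (346237 / 5000000)) := by
  simp only [dt58, DT.val, sw58, sl58, sv58]
  ((try push_cast); ring1)
theorem ta_dt78 (x : ℝ) : dt78.val (fun p x => kcg.v p x) (1 / 4) (cT (1 / 4)) x = (1763709 / 20000000 + (x - 67 / 100) * (12281 / 156250)) :=
  (DT.val_le (by simp only [Cn.rt_v, Cn.ng_v]; norm_num)).trans (ta_dt57 x)
theorem tb_dt78 (x : ℝ) : dt78.val (fun p x => kcg.v p x) (7 / 20) (cT (7 / 20)) x = (5345749 / 100000000 + (x - 67 / 100) * (346237 / 5000000)) :=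
  (DT.val_gt (by simp only [Cn.rt_v, Cn.ng_v]; norm_num)).trans (tb_dt58 x)
theorem ta_dt79 (x : ℝ) : dt79.val (fun p x => kcg.v p x) (1 / 5) (cT (1 / 5)) x = (665407 / 6250000 + (x - 67 / 100) * (517079 / 5000000)) :=
  (DT.val_le (by simp only [Cn.rt_v, Cn.ng_v]; norm_num)).trans (ta_dt56 x)
theorem tb_dt79 (x : ℝ) : dt79.val (fun p x => kcg.v p x) (7 / 20) (cT (7 / 20)) x = (5345749 / 100000000 + (x - 67 / 100) * (346237 / 5000000)) :=
  (DT.val_gt (by simp only [Cn.rt_v, Cn.ng_v]; norm_num)).trans (tb_dt78 x)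
theorem ta_dt59 (x : ℝ) : dt59.val (fun p x => kcg.v p x) (7 / 20) (cT (7 / 20)) x = (5345749 / 100000000 + (x - 67 / 100) * (346237 / 5000000)) := by
  simp only [dt59, DT.val, sw59, sl59, sv59]
  ((try push_cast); ring1)
theorem tb_dt59 (x : ℝ) : dt59.val (fun p x => kcg.v p x) (2 / 5) (cT (2 / 5)) x = (1738373 / 50000000 + (x - 67 / 100) * (83867 / 1250000)) := by
  simp only [dt59, DT.val, sw59, sl59, sv59]
  ((try push_cast); ring1)
theorem ta_dt60 (x : ℝ) : dt60.val (fun p x => kcg.v p x) (2 / 5) (cT (2 / 5)) x = (1738373 / 50000000 + (x - 67 / 100) * (83867 / 1250000)) := by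
  simp only [dt60, DT.val, sw60, sl60, sv60]
  ((try push_cast); ring1)
theorem tb_dt60 (x : ℝ) : dt60.val (fun p x => kcg.v p x) (9 / 20) (cT (9 / 20)) x = (163241 / 10000000 + (x - 67 / 100) * (248283 / 5000000)) := by
  simp only [dt60, DT.val, sw60, sl60, sv60]
  ((try push_cast); ring1)
theorem ta_dt61 (x : ℝ) : dt61.val (fun p x => kcg.v p x) (9 / 20) (cT (9 / 20)) x = (163241 / 10000000 + (x - 67 / 100) * (248283 / 5000000)) := by
  simp only [dt61, DT.val, sw61, sl61, sv61]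
  ((try push_cast); ring1)
theorem tb_dt61 (x : ℝ) : dt61.val (fun p x => kcg.v p x) (1 / 2) (cT (1 / 2)) x = (0) := by
  simp only [dt61, DT.val, sw61, sl61, sv61]
  ((try push_cast); ring1)
theorem ta_dt80 (x : ℝ) : dt80.val (fun p x => kcg.v p x) (2 / 5) (cT (2 / 5)) x = (1738373 / 50000000 + (x - 67 / 100) * (83867 / 1250000)) :=
  (DT.val_le (by simp only [Cn.rt_v, Cn.ng_v]; norm_num)).trans (ta_dt60 x)
theorem tb_dt80 (x : ℝ) : dt80.val (fun p x => kcg.v p x) (1 / 2) (cT (1 / 2)) x = (0) :=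
  (DT.val_gt (by simp only [Cn.rt_v, Cn.ng_v]; norm_num)).trans (tb_dt61 x)
theorem ta_dt81 (x : ℝ) : dt81.val (fun p x => kcg.v p x) (7 / 20) (cT (7 / 20)) x = (5345749 / 100000000 + (x - 67 / 100) * (346237 / 5000000)) :=
  (DT.val_le (by simp only [Cn.rt_v, Cn.ng_v]; norm_num)).trans (ta_dt59 x)
theorem tb_dt81 (x : ℝ) : dt81.val (fun p x => kcg.v p x) (1 / 2) (cT (1 / 2)) x = (0) :=
  (DT.val_gt (by simp only [Cn.rt_v, Cn.ng_v]; norm_num)).trans (tb_dt80 x)
theorem ta_dt82 (x : ℝ) : dt82.val (fun p x => kcg.v p x) (1 / 5) (cT (1 / 5)) x = (665407 / 6250000 + (x - 67 / 100) * (517079 / 5000000)) :=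
  (DT.val_le (by simp only [Cn.rt_v, Cn.ng_v]; norm_num)).trans (ta_dt79 x)
theorem tb_dt82 (x : ℝ) : dt82.val (fun p x => kcg.v p x) (1 / 2) (cT (1 / 2)) x = (0) :=
  (DT.val_gt (by simp only [Cn.rt_v, Cn.ng_v]; norm_num)).trans (tb_dt81 x)
theorem ta_dt83 (x : ℝ) : dt83.val (fun p x => kcg.v p x) (-3 / 50) (cT (-3 / 50)) x = (2209659 / 25000000 + (x - 67 / 100) * (35311 / 200000)) :=
  (DT.val_le (by simp only [Cn.rt_v, Cn.ng_v]; norm_num)).trans (ta_dt77 x)
theorem tb_dt83 (x : ℝ) : dt83.val (fun p x => kcg.v p x) (1 / 2) (cT (1 / 2)) x = (0) :=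
  (DT.val_gt (by simp only [Cn.rt_v, Cn.ng_v]; norm_num)).trans (tb_dt82 x)
theorem ta_dt84 (x : ℝ) : dt84.val (fun p x => kcg.v p x) (-1 / 2) (cT (-1 / 2)) x = (0) :=
  (DT.val_le (by simp only [Cn.rt_v, Cn.ng_v]; norm_num)).trans (ta_dt72 x)
theorem tb_dt84 (x : ℝ) : dt84.val (fun p x => kcg.v p x) (1 / 2) (cT (1 / 2)) x = (0) :=
  (DT.val_gt (by simp only [Cn.rt_v, Cn.ng_v]; norm_num)).trans (tb_dt83 x)
theorem to_dt38 (x : ℝ) : dt38.Ok (fun p x => kcg.v p x) x := trivial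
theorem to_dt39 (x : ℝ) : dt39.Ok (fun p x => kcg.v p x) x := trivial
theorem to_dt40 (x : ℝ) : dt40.Ok (fun p x => kcg.v p x) x := trivial
theorem to_dt62 (x : ℝ) : dt62.Ok (fun p x => kcg.v p x) x :=
  DT.ok_node (v := -11 / 25) (by simp only [Cn.rt_v, Cn.ng_v]; norm_num) (by rw [abs_le]; constructor <;> norm_num) rfl (tb_dt39 x) (ta_dt40 x) (by ring1) (to_dt39 x) (to_dt40 x)
theorem to_dt63 (x : ℝ) : dt63.Ok (fun p x => kcg.v p x) x :=
  DT.ok_node (v := -47 / 100) (by simp only [Cn.rt_v, Cn.ng_v]; norm_num) (by rw [abs_le]; constructor <;> norm_num) rfl (tb_dt38 x) (ta_dt62 x) (by ring1) (to_dt38 x) (to_dt62 x)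
theorem to_dt41 (x : ℝ) : dt41.Ok (fun p x => kcg.v p x) x := trivial
theorem to_dt42 (x : ℝ) : dt42.Ok (fun p x => kcg.v p x) x := trivial
theorem to_dt43 (x : ℝ) : dt43.Ok (fun p x => kcg.v p x) x := trivial
theorem to_dt64 (x : ℝ) : dt64.Ok (fun p x => kcg.v p x) x :=
  DT.ok_node (v := -33 / 100) (by simp only [Cn.rt_v, Cn.ng_v]; norm_num) (by rw [abs_le]; constructor <;> norm_num) rfl (tb_dt42 x) (ta_dt43 x) (by ring1) (to_dt42 x) (to_dt43 x)
theorem to_dt65 (x : ℝ) : dt65.Ok (fun p x => kcg.v p x) x :=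
  DT.ok_node (v := -9 / 25) (by simp only [Cn.rt_v, Cn.ng_v]; norm_num) (by rw [abs_le]; constructor <;> norm_num) rfl (tb_dt41 x) (ta_dt64 x) (by ring1) (to_dt41 x) (to_dt64 x)
theorem to_dt66 (x : ℝ) : dt66.Ok (fun p x => kcg.v p x) x :=
  DT.ok_node (v := -2 / 5) (by simp only [Cn.rt_v, Cn.ng_v]; norm_num) (by rw [abs_le]; constructor <;> norm_num) rfl (tb_dt63 x) (ta_dt65 x) (by ring1) (to_dt63 x) (to_dt65 x)
theorem to_dt44 (x : ℝ) : dt44.Ok (fun p x => kcg.v p x) x := trivial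
theorem to_dt45 (x : ℝ) : dt45.Ok (fun p x => kcg.v p x) x := trivial
theorem to_dt46 (x : ℝ) : dt46.Ok (fun p x => kcg.v p x) x := trivial
theorem to_dt67 (x : ℝ) : dt67.Ok (fun p x => kcg.v p x) x :=
  DT.ok_node (v := -21 / 100) (by simp only [Cn.rt_v, Cn.ng_v]; norm_num) (by rw [abs_le]; constructor <;> norm_num) rfl (tb_dt45 x) (ta_dt46 x) (by ring1) (to_dt45 x) (to_dt46 x)
theorem to_dt68 (x : ℝ) : dt68.Ok (fun p x => kcg.v p x) x :=
  DT.ok_node (v := -1 / 4) (by simp only [Cn.rt_v, Cn.ng_v]; norm_num) (by rw [abs_le]; constructor <;> norm_num) rfl (tb_dt44 x) (ta_dt67 x) (by ring1) (to_dt44 x) (to_dt67 x)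
theorem to_dt47 (x : ℝ) : dt47.Ok (fun p x => kcg.v p x) x := trivial
theorem to_dt48 (x : ℝ) : dt48.Ok (fun p x => kcg.v p x) x := trivial
theorem to_dt49 (x : ℝ) : dt49.Ok (fun p x => kcg.v p x) x := trivial
theorem to_dt69 (x : ℝ) : dt69.Ok (fun p x => kcg.v p x) x :=
  DT.ok_node (v := -1 / 10) (by simp only [Cn.rt_v, Cn.ng_v]; norm_num) (by rw [abs_le]; constructor <;> norm_num) rfl (tb_dt48 x) (ta_dt49 x) (by ring1) (to_dt48 x) (to_dt49 x)
theorem to_dt70 (x : ℝ) : dt70.Ok (fun p x => kcg.v p x) x :=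
  DT.ok_node (v := -7 / 50) (by simp only [Cn.rt_v, Cn.ng_v]; norm_num) (by rw [abs_le]; constructor <;> norm_num) rfl (tb_dt47 x) (ta_dt69 x) (by ring1) (to_dt47 x) (to_dt69 x)
theorem to_dt71 (x : ℝ) : dt71.Ok (fun p x => kcg.v p x) x :=
  DT.ok_node (v := -9 / 50) (by simp only [Cn.rt_v, Cn.ng_v]; norm_num) (by rw [abs_le]; constructor <;> norm_num) rfl (tb_dt68 x) (ta_dt70 x) (by ring1) (to_dt68 x) (to_dt70 x)
theorem to_dt72 (x : ℝ) : dt72.Ok (fun p x => kcg.v p x) x :=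
  DT.ok_node (v := -29 / 100) (by simp only [Cn.rt_v, Cn.ng_v]; norm_num) (by rw [abs_le]; constructor <;> norm_num) rfl (tb_dt66 x) (ta_dt71 x) (by ring1) (to_dt66 x) (to_dt71 x)
theorem to_dt50 (x : ℝ) : dt50.Ok (fun p x => kcg.v p x) x := trivial
theorem to_dt51 (x : ℝ) : dt51.Ok (fun p x => kcg.v p x) x := trivial
theorem to_dt52 (x : ℝ) : dt52.Ok (fun p x => kcg.v p x) x := trivial
theorem to_dt73 (x : ℝ) : dt73.Ok (fun p x => kcg.v p x) x :=
  DT.ok_node (v := 1 / 100) (by simp only [Cn.rt_v, Cn.ng_v]; norm_num) (by rw [abs_le]; constructor <;> norm_num) rfl (tb_dt51 x) (ta_dt52 x) (by ring1) (to_dt51 x) (to_dt52 x)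
theorem to_dt74 (x : ℝ) : dt74.Ok (fun p x => kcg.v p x) x :=
  DT.ok_node (v := -1 / 50) (by simp only [Cn.rt_v, Cn.ng_v]; norm_num) (by rw [abs_le]; constructor <;> norm_num) rfl (tb_dt50 x) (ta_dt73 x) (by ring1) (to_dt50 x) (to_dt73 x)
theorem to_dt53 (x : ℝ) : dt53.Ok (fun p x => kcg.v p x) x := trivial
theorem to_dt54 (x : ℝ) : dt54.Ok (fun p x => kcg.v p x) x := trivial
theorem to_dt55 (x : ℝ) : dt55.Ok (fun p x => kcg.v p x) x := trivial
theorem to_dt75 (x : ℝ) : dt75.Ok (fun p x => kcg.v p x) x :=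
  DT.ok_node (v := 163 / 1000) (by simp only [Cn.rt_v, Cn.ng_v]; norm_num) (by rw [abs_le]; constructor <;> norm_num) rfl (tb_dt54 x) (ta_dt55 x) (by ring1) (to_dt54 x) (to_dt55 x)
theorem to_dt76 (x : ℝ) : dt76.Ok (fun p x => kcg.v p x) x :=
  DT.ok_node (v := 1 / 7) (by simp only [Cn.rt_v, Cn.ng_v]; norm_num) (by rw [abs_le]; constructor <;> norm_num) ctB (tb_dt53 x) (ta_dt75 x) (by ring1) (to_dt53 x) (to_dt75 x)
theorem to_dt77 (x : ℝ) : dt77.Ok (fun p x => kcg.v p x) x :=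
  DT.ok_node (v := 47 / 914) (by simp only [Cn.rt_v, Cn.ng_v]; norm_num) (by rw [abs_le]; constructor <;> norm_num) ctA (tb_dt74 x) (ta_dt76 x) (by ring1) (to_dt74 x) (to_dt76 x)
theorem to_dt56 (x : ℝ) : dt56.Ok (fun p x => kcg.v p x) x := trivial
theorem to_dt57 (x : ℝ) : dt57.Ok (fun p x => kcg.v p x) x := trivial
theorem to_dt58 (x : ℝ) : dt58.Ok (fun p x => kcg.v p x) x := trivial
theorem to_dt78 (x : ℝ) : dt78.Ok (fun p x => kcg.v p x) x :=
  DT.ok_node (v := 3 / 10) (by simp only [Cn.rt_v, Cn.ng_v]; norm_num) (by rw [abs_le]; constructor <;> norm_num) rfl (tb_dt57 x) (ta_dt58 x) (by ring1) (to_dt57 x) (to_dt58 x)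
theorem to_dt79 (x : ℝ) : dt79.Ok (fun p x => kcg.v p x) x :=
  DT.ok_node (v := 1 / 4) (by simp only [Cn.rt_v, Cn.ng_v]; norm_num) (by rw [abs_le]; constructor <;> norm_num) rfl (tb_dt56 x) (ta_dt78 x) (by ring1) (to_dt56 x) (to_dt78 x)
theorem to_dt59 (x : ℝ) : dt59.Ok (fun p x => kcg.v p x) x := trivial
theorem to_dt60 (x : ℝ) : dt60.Ok (fun p x => kcg.v p x) x := trivial
theorem to_dt61 (x : ℝ) : dt61.Ok (fun p x => kcg.v p x) x := trivial
theorem to_dt80 (x : ℝ) : dt80.Ok (fun p x => kcg.v p x) x :=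
  DT.ok_node (v := 9 / 20) (by simp only [Cn.rt_v, Cn.ng_v]; norm_num) (by rw [abs_le]; constructor <;> norm_num) rfl (tb_dt60 x) (ta_dt61 x) (by ring1) (to_dt60 x) (to_dt61 x)
theorem to_dt81 (x : ℝ) : dt81.Ok (fun p x => kcg.v p x) x :=
  DT.ok_node (v := 2 / 5) (by simp only [Cn.rt_v, Cn.ng_v]; norm_num) (by rw [abs_le]; constructor <;> norm_num) rfl (tb_dt59 x) (ta_dt80 x) (by ring1) (to_dt59 x) (to_dt80 x)
theorem to_dt82 (x : ℝ) : dt82.Ok (fun p x => kcg.v p x) x :=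
  DT.ok_node (v := 7 / 20) (by simp only [Cn.rt_v, Cn.ng_v]; norm_num) (by rw [abs_le]; constructor <;> norm_num) rfl (tb_dt79 x) (ta_dt81 x) (by ring1) (to_dt79 x) (to_dt81 x)
theorem to_dt83 (x : ℝ) : dt83.Ok (fun p x => kcg.v p x) x :=
  DT.ok_node (v := 1 / 5) (by simp only [Cn.rt_v, Cn.ng_v]; norm_num) (by rw [abs_le]; constructor <;> norm_num) rfl (tb_dt77 x) (ta_dt82 x) (by ring1) (to_dt77 x) (to_dt82 x)
theorem to_dt84 (x : ℝ) : dt84.Ok (fun p x => kcg.v p x) x :=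
  DT.ok_node (v := -3 / 50) (by simp only [Cn.rt_v, Cn.ng_v]; norm_num) (by rw [abs_le]; constructor <;> norm_num) rfl (tb_dt72 x) (ta_dt83 x) (by ring1) (to_dt72 x) (to_dt83 x)
theorem dok (x : ℝ) : dd.Ok x := ⟨ko_dt37 x, fun p h => kfe h, to_dt84 x⟩
theorem K0_ (x : ℝ) : ∀ q y, OnC (0 : Fin 8) q y → TightK (tyO q) q (fun p => dd.kf.v p x) (c1n y) y (tK 0 q y x) := by
  refine K0_of (R := fun q y => tK 0 q y x) (kc := fun p => kcg.v p x) ?_ ?_ ?_
  · intro y h
    show tK 0 0 y x = _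
    ·
      rw [← (atB00 h).K]
      show kf0q0.v y x = _
      simp only [kf0q0, kf0q0_9, kf0q0_12, c1g_v]
      ((try push_cast); (try simp only [mul_inv]); (try ring_nf))
  · intro y h
    show tK 0 1 y x = _
    ·
      rw [← (atB01 h).K]
      show kf0q1.v y x = _
      simp only [kf0q1, kf0q1_10, c1g_v]
      ((try push_cast); (try simp only [mul_inv]); (try ring_nf))
  · intro y h
    show tK 0 2 y x = _
    ·
      have ey := yag_v h.1.nonneg (h.2 rfl)
      rw [← (atB02 h).K]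
      show kfc02.v (c1n y) x = _
      simp only [kfc02, c1g_v, ey]
      ((try push_cast); (try simp only [mul_inv]); (try ring_nf))
theorem L0_ (x : ℝ) : ∀ q y, OnC (0 : Fin 8) q y → TightL (tyO q) (fun p c => dd.TX.val dd.kf.v p c x) (c1n y) y (tL 0 q y x) := by
  refine L0_of (R := fun q y => tL 0 q y x) (tx := fun p c => txg.v p c x) txe ?_ ?_ ?_
  · intro y h
    show tL 0 0 y x = _
    ·
      rw [← (atB00 h).L]
      show l0q0.v y x = _
      simp only [l0q0, c1g_v]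
      ((try push_cast); (try simp only [mul_inv]); (try ring_nf))
  · intro y h
    show tL 0 1 y x = _
    ·
      rw [← (atB01 h).L]
      show l0q1.v y x = _
      simp only [l0q1, c1g_v]
      ((try push_cast); (try simp only [mul_inv]); (try ring_nf))
  · intro y h
    show tL 0 2 y x = _
    ·
      have ey := yag_v h.1.nonneg (h.2 rfl)
      rw [← (atB02 h).L]
      show lc02.v (c1n y) x = _
      simp only [lc02, lc02_7, lc02_8, c1g_v, ey]
      ((try push_cast); (try simp only [mul_inv]); (try ring_nf))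
theorem Kn_ (x : ℝ) : ∀ q y, InQ q y → TightK (tyN q) q (fun p => dd.kf.v p x) (c3n y) y (tK (Fin.last 7) q y x) := by
  refine Kn_of (R := fun q y => tK 7 q y x) (kc := fun p => kcg.v p x) ?_ ?_ ?_ ?_
  · intro y h
    show tK 7 0 y x = _
    ·
      rw [← (atB70 (onc h (by decide))).K]
      show kf7q0.v y x = _
      simp only [kf7q0, c3g_v]
      ((try push_cast); (try simp only [mul_inv]); (try ring_nf))
  · intro y h
    show tK 7 1 y x = _
    ·
      rw [← (atB71 (onc h (by decide))).K]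
      show kf7q1.v y x = _
      simp only [kf7q1, c3g_v]
      ((try push_cast); (try simp only [mul_inv]); (try ring_nf))
  · intro y h
    show tK 7 2 y x = _
    ·
      rw [← (atB72 (onc h (by decide))).K]
      show kf7q2.v y x = _
      simp only [kf7q2, c3g_v]
      ((try push_cast); (try simp only [mul_inv]); (try ring_nf))
  · intro y h
    show tK 7 3 y x = _
    ·
      have ey := ycg_v h.nonneg h.le_two
      rw [← (atB73 (onc h (by decide))).K]
      show kfc73.v (c3n y) x = _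
      simp only [kfc73, c3g_v, ey]
      ((try push_cast); (try simp only [mul_inv]); (try ring_nf))
theorem Ln_ (x : ℝ) : ∀ q y, InQ q y → TightL (tyN q) (fun p c => dd.TX.val dd.kf.v p c x) (c3n y) y (tL (Fin.last 7) q y x) := by
  refine Ln_of (R := fun q y => tL 7 q y x) (tx := fun p c => txg.v p c x) txe ?_ ?_ ?_ ?_
  · intro y h
    show tL 7 0 y x = _
    ·
      rw [← (atB70 (onc h (by decide))).L]
      show l7q0.v y x = _
      simp only [l7q0, l7q0_6, l7q0_7, l7q0_8, c3g_v]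
      ((try push_cast); (try simp only [mul_inv]); (try ring_nf))
  · intro y h
    show tL 7 1 y x = _
    ·
      rw [← (atB71 (onc h (by decide))).L]
      show l7q1.v y x = _
      simp only [l7q1, l7q1_7, l7q1_8, l7q1_9, c3g_v]
      ((try push_cast); (try simp only [mul_inv]); (try ring_nf))
  · intro y h
    show tL 7 2 y x = _
    ·
      rw [← (atB72 (onc h (by decide))).L]
      show l7q2.v y x = _
      simp only [l7q2, l7q2_7, l7q2_8, l7q2_9, l7q2_12, l7q2_14, c3g_v]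
      ((try push_cast); (try simp only [mul_inv]); (try ring_nf))
  · intro y h
    show tL 7 3 y x = _
    ·
      have ey := ycg_v h.nonneg h.le_two
      rw [← (atB73 (onc h (by decide))).L]
      show lc73.v (c3n y) x = _
      simp only [lc73, lc73_7, lc73_8, lc73_9, lc73_12, lc73_14, c3g_v, ey]
      ((try push_cast); (try simp only [mul_inv]); (try ring_nf))
theorem f0_ : ∀ q y, InQ q y → (ff q).f.v y = crv PP 1 q y
  | 0, y, _ => ecv1q0.symm
  | 1, y, _ => ecv1q1.symm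
  | 2, y, _ => ecv1q2.symm
  | 3, y, h => (ecv1q3 h.1).symm
theorem fn_ : ∀ q y, InQ q y → (fl q).f.v y = crv PP 6 q y
  | 0, y, _ => ecv6q0.symm
  | 1, y, _ => ecv6q1.symm
  | 2, y, _ => ecv6q2.symm
  | 3, y, h => (ecv6q3 h.1).symm
theorem yK00 {y x : ℝ} (h : OnC (0 : Fin 8) 0 y) : tK 0 0 y x = kf0q0.v y x := (atB00 h).K.symm
theorem yK10 {y x : ℝ} (h : InQ 0 y) : tK 1 0 y x = kf1q0.v y x := (atB10 (onc h (by decide))).K.symm
theorem yK01 {y x : ℝ} (h : OnC (0 : Fin 8) 1 y) : tK 0 1 y x = kf0q1.v y x := (atB01 h).K.symm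
theorem yK11 {y x : ℝ} (h : InQ 1 y) : tK 1 1 y x = kf1q1.v y x := (atB11 (onc h (by decide))).K.symm
theorem yK02 {y x : ℝ} (h : OnC (0 : Fin 8) 2 y) : tK 0 2 y x = kf0q2.v y x := by
  rw [← (atB02 h).K]
  show kfc02.v (c1n y) x = _
  have ey := yag_v h.1.nonneg (h.2 rfl)
  simp only [kfc02, kf0q2, ey, c1g_v, c3g_v, swg_v]
  ((try push_cast); (try ring_nf))
theorem yK12 {y x : ℝ} (h : InQ 2 y) : tK 1 2 y x = kf1q2.v y x := (atB12 (onc h (by decide))).K.symm
theorem yK70 {y x : ℝ} (h : InQ 0 y) : tK 7 0 y x = kf7q0.v y x := (atB70 (onc h (by decide))).K.symm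
theorem yK60 {y x : ℝ} (h : InQ 0 y) : tK 6 0 y x = kf6q0.v y x := (atB60 (onc h (by decide))).K.symm
theorem yK71 {y x : ℝ} (h : InQ 1 y) : tK 7 1 y x = kf7q1.v y x := (atB71 (onc h (by decide))).K.symm
theorem yK61 {y x : ℝ} (h : InQ 1 y) : tK 6 1 y x = kf6q1.v y x := (atB61 (onc h (by decide))).K.symm
theorem yK72 {y x : ℝ} (h : InQ 2 y) : tK 7 2 y x = kf7q2.v y x := (atB72 (onc h (by decide))).K.symm
theorem yK62 {y x : ℝ} (h : InQ 2 y) : tK 6 2 y x = kf6q2.v y x := (atB62 (onc h (by decide))).K.symm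
theorem yK73 {y x : ℝ} (h : InQ 3 y) : tK 7 3 y x = kf7q3.v y x := by
  rw [← (atB73 (onc h (by decide))).K]
  show kfc73.v (c3n y) x = _
  have ey := ycg_v h.nonneg h.le_two
  simp only [kfc73, kf7q3, ey, c1g_v, c3g_v, swg_v]
  ((try push_cast); (try ring_nf))
theorem yK63 {y x : ℝ} (h : InQ 3 y) : tK 6 3 y x = kf6q3.v y x := by
  rw [← (atB63 (onc h (by decide))).K]
  show kfc63.v (c3n y) x = _
  have ey := ycg_v h.nonneg h.le_two
  simp only [kfc63, kfc63_11, kf6q3, kf6q3_4, cv6r, ey, c1g_v, c3g_v, swg_v]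
  ((try push_cast); (try ring_nf))
theorem yL00 {y x : ℝ} (h : OnC (0 : Fin 8) 0 y) : tL 0 0 y x = l0q0.v y x := (atB00 h).L.symm
theorem yL10 {y x : ℝ} (h : InQ 0 y) : tL 1 0 y x = l1q0.v y x := (atB10 (onc h (by decide))).L.symm
theorem yL01 {y x : ℝ} (h : OnC (0 : Fin 8) 1 y) : tL 0 1 y x = l0q1.v y x := (atB01 h).L.symm
theorem yL11 {y x : ℝ} (h : InQ 1 y) : tL 1 1 y x = l1q1.v y x := (atB11 (onc h (by decide))).L.symm
theorem yL02 {y x : ℝ} (h : OnC (0 : Fin 8) 2 y) : tL 0 2 y x = l0q2.v y x := by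
  rw [← (atB02 h).L]
  show lc02.v (c1n y) x = _
  have ey := yag_v h.1.nonneg (h.2 rfl)
  simp only [lc02, lc02_7, lc02_8, l0q2, l0q2_7, l0q2_8, ey, c1g_v, c3g_v, swg_v]
  ((try push_cast); (try ring_nf))
theorem yL12 {y x : ℝ} (h : InQ 2 y) : tL 1 2 y x = l1q2.v y x := (atB12 (onc h (by decide))).L.symm
theorem yL70 {y x : ℝ} (h : InQ 0 y) : tL 7 0 y x = l7q0.v y x := (atB70 (onc h (by decide))).L.symm
theorem yL60 {y x : ℝ} (h : InQ 0 y) : tL 6 0 y x = l6q0.v y x := (atB60 (onc h (by decide))).L.symm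
theorem yL71 {y x : ℝ} (h : InQ 1 y) : tL 7 1 y x = l7q1.v y x := (atB71 (onc h (by decide))).L.symm
theorem yL61 {y x : ℝ} (h : InQ 1 y) : tL 6 1 y x = l6q1.v y x := (atB61 (onc h (by decide))).L.symm
theorem yL72 {y x : ℝ} (h : InQ 2 y) : tL 7 2 y x = l7q2.v y x := (atB72 (onc h (by decide))).L.symm
theorem yL62 {y x : ℝ} (h : InQ 2 y) : tL 6 2 y x = l6q2.v y x := (atB62 (onc h (by decide))).L.symm
theorem yL73 {y x : ℝ} (h : InQ 3 y) : tL 7 3 y x = l7q3.v y x := by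
  rw [← (atB73 (onc h (by decide))).L]
  show lc73.v (c3n y) x = _
  have ey := ycg_v h.nonneg h.le_two
  simp only [lc73, lc73_7, lc73_8, lc73_9, lc73_12, lc73_14, l7q3, l7q3_7, l7q3_8, l7q3_9, l7q3_12, l7q3_14, ey, c1g_v, c3g_v, swg_v]
  ((try push_cast); (try ring_nf))
theorem yL63 {y x : ℝ} (h : InQ 3 y) : tL 6 3 y x = l6q3.v y x := by
  rw [← (atB63 (onc h (by decide))).L]
  show lc63.v (c3n y) x = _
  have ey := ycg_v h.nonneg h.le_two
  simp only [lc63, lc63_11, l6q3, l6q3_4, cv6r, ey, c1g_v, c3g_v, swg_v]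
  ((try push_cast); (try ring_nf))
theorem sK0_ (x : ℝ) : ∀ q y, OnC (0 : Fin 8) q y → c1n y < crv PP 1 q y →
    (ff q).SK.v y x * (crv PP 1 q y - c1n y) = tK 1 q y x - tK 0 q y x := by
  intro q y h hlt
  rcases onC_q h with rfl | rfl | rfl
  · rw [yK10 h.1, yK00 h]
    rw [ecv1q0, ← c1g_v] at hlt ⊢
    have hd : 0 < cv1m.v y - c1g.v y := sub_pos.2 hlt
    have hi := inv_mul_cancel₀ hd.ne'
    show skf0.v y x * _ = _
    simp only [skf0, kf1q0]
    (try push_cast)
    linear_combination (c1g.v y * bf1q0.v y x - kf0q0.v y x) * hi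
  · rw [yK11 h.1, yK01 h]
    rw [ecv1q1, ← c1g_v] at hlt ⊢
    have hd : 0 < cv1m.v y - c1g.v y := sub_pos.2 hlt
    have hi := inv_mul_cancel₀ hd.ne'
    show skf1.v y x * _ = _
    simp only [skf1, kf1q1]
    (try push_cast)
    linear_combination (c1g.v y * bf1q1.v y x - kf0q1.v y x) * hi
  · rw [yK12 h.1, yK02 h]
    rw [ecv1q2, ← c1g_v] at hlt ⊢
    have hd : 0 < cv1p.v y - c1g.v y := sub_pos.2 hlt
    have hi := inv_mul_cancel₀ hd.ne'
    have hB : kf1q2.v y x = cv1p.v y * bf1q2.v y x := by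
      simp only [kf1q2, kf1q2_4, kf1q2_9, bf1q2, bf1q2_3, bf1q2_8]
    have hb : |c1g.v y| ≤ 1 / 2 := by rw [c1g_v]; exact bnd_O h
    have eo := odd (x := x) hb
    show skf2.v y x * _ = _
    simp only [skf2, hB, kf0q2, eo]
    (try push_cast)
    linear_combination (c1g.v y * (bf1q2.v y x - 1) + (y - 1) * kcg.v (c1g.v y) x) * hi
theorem sX0_ (x : ℝ) : ∀ q y, OnC (0 : Fin 8) q y → c1n y < crv PP 1 q y →
    (ff q).SX.v y x * (crv PP 1 q y - c1n y) = tL 1 q y x - tL 0 q y x := by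
  intro q y h hlt
  rcases onC_q h with rfl | rfl | rfl
  · rw [yL10 h.1, yL00 h]
    rw [ecv1q0, ← c1g_v] at hlt ⊢
    have hd : 0 < cv1m.v y - c1g.v y := sub_pos.2 hlt
    have hi := inv_mul_cancel₀ hd.ne'
    show sxf0.v y x * _ = _
    simp only [sxf0]
    (try push_cast)
    linear_combination (l1q0.v y x - l0q0.v y x) * hi
  · rw [yL11 h.1, yL01 h]
    rw [ecv1q1, ← c1g_v] at hlt ⊢
    have hd : 0 < cv1m.v y - c1g.v y := sub_pos.2 hlt
    have hi := inv_mul_cancel₀ hd.ne'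
    show sxf1.v y x * _ = _
    simp only [sxf1]
    (try push_cast)
    linear_combination (l1q1.v y x - l0q1.v y x) * hi
  · rw [yL12 h.1, yL02 h]
    rw [ecv1q2, ← c1g_v] at hlt ⊢
    have hd : 0 < cv1p.v y - c1g.v y := sub_pos.2 hlt
    have hi := inv_mul_cancel₀ hd.ne'
    show sxf2.v y x * _ = _
    simp only [sxf2]
    (try push_cast)
    linear_combination (l1q2.v y x - l0q2.v y x) * hi
theorem sKn_ (x : ℝ) : ∀ q y, InQ q y → crv PP 6 q y < c3n y →
    (fl q).SK.v y x * (c3n y - crv PP 6 q y) = tK 7 q y x - tK 6 q y x := by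
  intro q y h hlt
  match q, h with
  | 0, h =>
    rw [yK70 h, yK60 h]
    rw [ecv6q0, ← c3g_v] at hlt ⊢
    have hd : 0 < c3g.v y - cv6m.v y := sub_pos.2 hlt
    have hi := inv_mul_cancel₀ hd.ne'
    show skl0.v y x * _ = _
    simp only [skl0, kf6q0]
    (try push_cast)
    linear_combination (kf7q0.v y x - c3g.v y * bf6q0.v y x) * hi
  | 1, h =>
    rw [yK71 h, yK61 h]
    rw [ecv6q1, ← c3g_v] at hlt ⊢
    have hd : 0 < c3g.v y - cv6m.v y := sub_pos.2 hlt
    have hi := inv_mul_cancel₀ hd.ne'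
    show skl1.v y x * _ = _
    simp only [skl1, kf6q1]
    (try push_cast)
    linear_combination (kf7q1.v y x - c3g.v y * bf6q1.v y x) * hi
  | 2, h =>
    rw [yK72 h, yK62 h]
    rw [ecv6q2, ← c3g_v] at hlt ⊢
    have hd : 0 < c3g.v y - cv6p.v y := sub_pos.2 hlt
    have hi := inv_mul_cancel₀ hd.ne'
    show skl2.v y x * _ = _
    simp only [skl2, kf6q2]
    (try push_cast)
    linear_combination (kf7q2.v y x - c3g.v y * bf6q2.v y x) * hi
  | 3, h =>
    rw [yK73 h, yK63 h]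
    rw [ecv6q3 h.1, ← c3g_v] at hlt ⊢
    have hd : 0 < c3g.v y - cv6r.v y := sub_pos.2 hlt
    have hi := inv_mul_cancel₀ hd.ne'
    have hB : kf6q3.v y x = cv6r.v y * bf6q3.v y x := by
      simp only [kf6q3, kf6q3_4, bf6q3, bf6q3_3]
    show skl3.v y x * _ = _
    simp only [skl3, hB]
    (try push_cast)
    linear_combination (kf7q3.v y x - c3g.v y * bf6q3.v y x) * hi
theorem sXn_ (x : ℝ) : ∀ q y, InQ q y → crv PP 6 q y < c3n y →
    (fl q).SX.v y x * (c3n y - crv PP 6 q y) = tL 7 q y x - tL 6 q y x := by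
  intro q y h hlt
  match q, h with
  | 0, h =>
    rw [yL70 h, yL60 h]
    rw [ecv6q0, ← c3g_v] at hlt ⊢
    have hd : 0 < c3g.v y - cv6m.v y := sub_pos.2 hlt
    have hi := inv_mul_cancel₀ hd.ne'
    show sxl0.v y x * _ = _
    simp only [sxl0]
    (try push_cast)
    linear_combination (l7q0.v y x - l6q0.v y x) * hi
  | 1, h =>
    rw [yL71 h, yL61 h]
    rw [ecv6q1, ← c3g_v] at hlt ⊢
    have hd : 0 < c3g.v y - cv6m.v y := sub_pos.2 hlt
    have hi := inv_mul_cancel₀ hd.ne'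
    show sxl1.v y x * _ = _
    simp only [sxl1]
    (try push_cast)
    linear_combination (l7q1.v y x - l6q1.v y x) * hi
  | 2, h =>
    rw [yL72 h, yL62 h]
    rw [ecv6q2, ← c3g_v] at hlt ⊢
    have hd : 0 < c3g.v y - cv6p.v y := sub_pos.2 hlt
    have hi := inv_mul_cancel₀ hd.ne'
    show sxl2.v y x * _ = _
    simp only [sxl2]
    (try push_cast)
    linear_combination (l7q2.v y x - l6q2.v y x) * hi
  | 3, h =>
    rw [yL73 h, yL63 h]
    rw [ecv6q3 h.1, ← c3g_v] at hlt ⊢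
    have hd : 0 < c3g.v y - cv6r.v y := sub_pos.2 hlt
    have hi := inv_mul_cancel₀ hd.ne'
    show sxl3.v y x * _ = _
    simp only [sxl3]
    (try push_cast)
    linear_combination (l7q3.v y x - l6q3.v y x) * hi
theorem kn_ (x : ℝ) : ∀ X, |X| ≤ vv.k1.v → kcg.v (-X) x = -(k0c.v x * X) := by
  intro X h
  have h : |X| ≤ 1 / 100 := by
    refine h.trans_eq ?_
    show (Cn.rt 1 100).v = _
    rw [Cn.rt_v]
    norm_num
  obtain ⟨h1, h2⟩ := abs_le.1 h
  rw [kcl9 (p := -X) (by linarith) (by linarith)]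
  simp only [k0c]
  push_cast
  ring
theorem tvm {p c x : ℝ} (h1 : -1 / 50 ≤ p) (h2 : p ≤ 1 / 100) : dt84.val (fun p x => kcg.v p x) p c x = (506230761 / 5000000000 + (x - 67 / 100) * (40410769 / 750000000) + (x - 67 / 100) ^ 2 * (2033 / 12500000)) + (19691389 / 100000000 + (x - 67 / 100) * (-7622347 / 7500000) + (x - 67 / 100) ^ 2 * (-2033 / 250000)) * p + (-277511 / 1000000 + (x - 67 / 100) * (120113 / 12500) + (x - 67 / 100) ^ 2 * (-2033 / 2500)) * p ^ 2 := by
  rcases eq_or_lt_of_le h1 with h | h1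
  · subst h
    refine (DT.val_gt (by simp only [Cn.rt_v, Cn.ng_v]; push_cast; linarith)).trans ?_
    refine (DT.val_le (by simp only [Cn.rt_v, Cn.ng_v]; push_cast; linarith)).trans ?_
    refine (DT.val_le (by simp only [Cn.rt_v, Cn.ng_v]; push_cast; linarith)).trans ?_
    refine (DT.val_le (by simp only [Cn.rt_v, Cn.ng_v]; push_cast; linarith)).trans ?_
    simp only [dt50, DT.val, sw50, sl50, sv50]
    ((try push_cast); ring1)
  ·
    refine (DT.val_gt (by simp only [Cn.rt_v, Cn.ng_v]; push_cast; linarith)).trans ?_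
    refine (DT.val_le (by simp only [Cn.rt_v, Cn.ng_v]; push_cast; linarith)).trans ?_
    refine (DT.val_le (by simp only [Cn.rt_v, Cn.ng_v]; push_cast; linarith)).trans ?_
    refine (DT.val_gt (by simp only [Cn.rt_v, Cn.ng_v]; push_cast; linarith)).trans ?_
    refine (DT.val_le (by simp only [Cn.rt_v, Cn.ng_v]; push_cast; linarith)).trans ?_
    simp only [dt51, DT.val, sw51, sw51_2, sl51, sl51_2, sv51, sv51_2]
    ((try push_cast); ring1)
theorem tn_ (x : ℝ) : ∀ X, |X| ≤ vv.k1.v → dd.tF x (-X) - dd.tF x X = m0c.v x * X := by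
  intro X h
  have h : |X| ≤ 1 / 100 := by
    refine h.trans_eq ?_
    show (Cn.rt 1 100).v = _
    rw [Cn.rt_v]
    norm_num
  obtain ⟨h1, h2⟩ := abs_le.1 h
  show dt84.val (fun p x => kcg.v p x) (-X) (cT (-X)) x - dt84.val (fun p x => kcg.v p x) X (cT X) x = _
  rw [tvm (p := -X) (by linarith) (by linarith), tvm (p := X) (by linarith) (by linarith)]
  simp only [m0c, m0c_2]
  push_cast
  ring
theorem vK_ (x : ℝ) : ∀ y, InQ 2 y → tK 1 2 y x = crv PP 1 2 y * bf1q2.v y x := by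
  intro y h
  rw [yK12 h, ecv1q2]
  simp only [kf1q2, kf1q2_4, kf1q2_9, bf1q2, bf1q2_3, bf1q2_8]
theorem vX_ (x : ℝ) : ∀ y, InQ 2 y → tL 1 2 y x = crv PP 1 2 y * bx1q2.v y x := by
  intro y h
  rw [yL12 h, ecv1q2]
  simp only [l1q2, l1q2_4, l1q2_12, bx1q2, bx1q2_3, bx1q2_11]
theorem n0_rK (y x : ℝ) : n0b.v y x = (1 - (y - 1) * k0c.v x) := by
  simp only [n0b, k0c]
  all_goals (try push_cast)
  all_goals (try ring)
theorem rK_ (x : ℝ) : ∀ y, OnC (0 : Fin 8) 2 y → c1n y < crv PP 1 2 y →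
    rhk.v y x * (crv PP 1 2 y - c1n y) = crv PP 1 2 y * (bf1q2.v y x - (1 - (y - 1) * k0c.v x)) := by
  intro y h hlt
  rw [ecv1q2, ← c1g_v] at hlt ⊢
  have hd : 0 < cv1p.v y - c1g.v y := sub_pos.2 hlt
  have hi := inv_mul_cancel₀ hd.ne'
  rw [← n0_rK]
  simp only [rhk]
  linear_combination ((bf1q2.v y x - n0b.v y x) * cv1p.v y) * hi
theorem n0_rX (y x : ℝ) : n0x.v y x = m0c.v x := by
  simp only [n0x, n0x_3, m0c, m0c_2]
  all_goals (try push_cast)
  all_goals (try ring)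
theorem rX_ (x : ℝ) : ∀ y, OnC (0 : Fin 8) 2 y → c1n y < crv PP 1 2 y →
    rhx.v y x * (crv PP 1 2 y - c1n y) = crv PP 1 2 y * (bx1q2.v y x - m0c.v x) := by
  intro y h hlt
  rw [ecv1q2, ← c1g_v] at hlt ⊢
  have hd : 0 < cv1p.v y - c1g.v y := sub_pos.2 hlt
  have hi := inv_mul_cancel₀ hd.ne'
  rw [← n0_rX]
  simp only [rhx]
  linear_combination ((bx1q2.v y x - n0x.v y x) * cv1p.v y) * hi
theorem flat_ (x : ℝ) : ∀ y, InQ 2 y → vv.ya.v ≤ y → y ≤ vv.yb.v → bf1q2.v y x = 1 - (y - 1) * k0c.v x ∧ bx1q2.v y x = m0c.v x := by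
  intro y h h1 h2
  have ea : vv.ya.v = 115471 / 100000 := by
    show (Cn.rt 115471 100000).v = _
    rw [Cn.rt_v]
    norm_num
  have eb : vv.yb.v = 231 / 200 := by
    show (Cn.rt 231 200).v = _
    rw [Cn.rt_v]
    norm_num
  rw [ea] at h1
  rw [eb] at h2
  have hy2 : 4 / 3 ≤ y ^ 2 := by nlinarith
  constructor
  · simp only [bf1q2, bf1q2_3, bf1q2_8, k0c]
    rcases eq_or_lt_of_le h1 with g | h1
    · subst g
      ((try push_cast); (repeat first | rw [if_pos (by linarith)] | rw [if_neg (by linarith)] | erw [if_pos (by linarith)] | erw [if_neg (by linarith)]); (try push_cast); (try ring1))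
    rcases eq_or_lt_of_le h2 with g | h2
    · subst g
      ((try push_cast); (repeat first | rw [if_pos (by linarith)] | rw [if_neg (by linarith)] | erw [if_pos (by linarith)] | erw [if_neg (by linarith)]); (try push_cast); (try ring1))
    · ((try push_cast); (repeat first | rw [if_pos (by linarith)] | rw [if_neg (by linarith)] | erw [if_pos (by linarith)] | erw [if_neg (by linarith)]); (try push_cast); (try ring1))
  · simp only [bx1q2, bx1q2_3, bx1q2_11, m0c, m0c_2]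
    rcases eq_or_lt_of_le h1 with g | h1
    · subst g
      ((try push_cast); (repeat first | rw [if_pos (by linarith)] | rw [if_neg (by linarith)] | erw [if_pos (by linarith)] | erw [if_neg (by linarith)]); (try push_cast); (try ring1))
    rcases eq_or_lt_of_le h2 with g | h2
    · subst g
      ((try push_cast); (repeat first | rw [if_pos (by linarith)] | rw [if_neg (by linarith)] | erw [if_pos (by linarith)] | erw [if_neg (by linarith)]); (try push_cast); (try ring1))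
    · ((try push_cast); (repeat first | rw [if_pos (by linarith)] | rw [if_neg (by linarith)] | erw [if_pos (by linarith)] | erw [if_neg (by linarith)]); (try push_cast); (try ring1))
theorem abk_ (x : ℝ) : ∀ y, InQ 2 y → vv.yb.v ≤ y → y ≤ vv.yk.v → bf1q2.v y x = 1 - (y - 1) * k0c.v x + sbk.v x * (y - vv.yb.v) ∧
    bx1q2.v y x = m0c.v x + sbx.v x * (y - vv.yb.v) := by
  intro y h h1 h2
  have eb : vv.yb.v = 231 / 200 := by
    show (Cn.rt 231 200).v = _
    rw [Cn.rt_v]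
    norm_num
  have ek : vv.yk.v = 127 / 100 := by
    show (Cn.rt 127 100).v = _
    rw [Cn.rt_v]
    norm_num
  rw [eb] at h1 ⊢
  rw [ek] at h2
  have hy2 : 4 / 3 ≤ y ^ 2 := by nlinarith
  constructor
  · simp only [bf1q2, bf1q2_3, bf1q2_8, k0c, sbk]
    rcases eq_or_lt_of_le h1 with g | h1
    · subst g
      ((try push_cast); (repeat first | rw [if_pos (by linarith)] | rw [if_neg (by linarith)] | erw [if_pos (by linarith)] | erw [if_neg (by linarith)]); (try push_cast); (try ring1))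
    rcases eq_or_lt_of_le h2 with g | h2
    · subst g
      ((try push_cast); (repeat first | rw [if_pos (by linarith)] | rw [if_neg (by linarith)] | erw [if_pos (by linarith)] | erw [if_neg (by linarith)]); (try push_cast); (try ring1))
    · ((try push_cast); (repeat first | rw [if_pos (by linarith)] | rw [if_neg (by linarith)] | erw [if_pos (by linarith)] | erw [if_neg (by linarith)]); (try push_cast); (try ring1))
  · simp only [bx1q2, bx1q2_3, bx1q2_11, m0c, m0c_2, sbx]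
    rcases eq_or_lt_of_le h1 with g | h1
    · subst g
      ((try push_cast); (repeat first | rw [if_pos (by linarith)] | rw [if_neg (by linarith)] | erw [if_pos (by linarith)] | erw [if_neg (by linarith)]); (try push_cast); (try ring1))
    rcases eq_or_lt_of_le h2 with g | h2
    · subst g
      ((try push_cast); (repeat first | rw [if_pos (by linarith)] | rw [if_neg (by linarith)] | erw [if_pos (by linarith)] | erw [if_neg (by linarith)]); (try push_cast); (try ring1))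
    · ((try push_cast); (repeat first | rw [if_pos (by linarith)] | rw [if_neg (by linarith)] | erw [if_pos (by linarith)] | erw [if_neg (by linarith)]); (try push_cast); (try ring1))
theorem ka_dt85 (x : ℝ) : dt85.kv (-47 / 914) x = (43296221860489719 / 109044762002500000000 + (x - 67 / 100) * (11171754418855069 / 6542685720150000000) + (x - 67 / 100) ^ 2 * (8573792083 / 9544399300000)) := by
  simp only [dt85, DT.kv, sw85, sw85_2, sl85, sl85_2, sv85, sv85_2]
  ((try push_cast); ring1)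
theorem kb_dt85 (x : ℝ) : dt85.kv (-1 / 50) x = (4853088152339059 / 225844348436250000000 + (x - 67 / 100) * (24262012790729851 / 22584434843625000000) + (x - 67 / 100) ^ 2 * (-28872692093 / 164729648750000)) := by
  simp only [dt85, DT.kv, sw85, sw85_2, sl85, sl85_2, sv85, sv85_2]
  ((try push_cast); ring1)
theorem ka_dt86 (x : ℝ) : dt86.kv (-1 / 50) x = (4853088152339059 / 225844348436250000000 + (x - 67 / 100) * (24262012790729851 / 22584434843625000000) + (x - 67 / 100) ^ 2 * (-28872692093 / 164729648750000)) := by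
  simp only [dt86, DT.kv, sw86, sw86_2, sl86, sl86_2, sv86, sv86_2]
  ((try push_cast); ring1)
theorem kb_dt86 (x : ℝ) : dt86.kv (-1 / 100) x = (0) := by
  simp only [dt86, DT.kv, sw86, sw86_2, sl86, sl86_2, sv86, sv86_2]
  ((try push_cast); ring1)
theorem ka_dt90 (x : ℝ) : dt90.kv (-47 / 914) x = (43296221860489719 / 109044762002500000000 + (x - 67 / 100) * (11171754418855069 / 6542685720150000000) + (x - 67 / 100) ^ 2 * (8573792083 / 9544399300000)) :=
  (DT.kv_le (by simp only [Cn.rt_v, Cn.ng_v]; norm_num)).trans (ka_dt85 x)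
theorem kb_dt90 (x : ℝ) : dt90.kv (-1 / 100) x = (0) :=
  (DT.kv_gt (by simp only [Cn.rt_v, Cn.ng_v]; norm_num)).trans (kb_dt86 x)
theorem ka_dt87 (x : ℝ) : dt87.kv (-1 / 100) x = (0) := by
  simp only [dt87, DT.kv, sl87, sv87]
  ((try push_cast); ring1)
theorem kb_dt87 (x : ℝ) : dt87.kv (1 / 100) x = (0) := by
  simp only [dt87, DT.kv, sl87, sv87]
  ((try push_cast); ring1)
theorem ka_dt88 (x : ℝ) : dt88.kv (1 / 100) x = (0) := by
  simp only [dt88, DT.kv, sw88, sw88_2, sl88, sl88_2, sv88, sv88_2]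
  ((try push_cast); ring1)
theorem kb_dt88 (x : ℝ) : dt88.kv (1 / 50) x = (-4853088152339059 / 225844348436250000000 + (x - 67 / 100) * (-24262012790729851 / 22584434843625000000) + (x - 67 / 100) ^ 2 * (28872692093 / 164729648750000)) := by
  simp only [dt88, DT.kv, sw88, sw88_2, sl88, sl88_2, sv88, sv88_2]
  ((try push_cast); ring1)
theorem ka_dt89 (x : ℝ) : dt89.kv (1 / 50) x = (-4853088152339059 / 225844348436250000000 + (x - 67 / 100) * (-24262012790729851 / 22584434843625000000) + (x - 67 / 100) ^ 2 * (28872692093 / 164729648750000)) := by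
  simp only [dt89, DT.kv, sw89, sw89_2, sl89, sl89_2, sv89, sv89_2]
  ((try push_cast); ring1)
theorem kb_dt89 (x : ℝ) : dt89.kv (47 / 914) x = (-43296221860489719 / 109044762002500000000 + (x - 67 / 100) * (-11171754418855069 / 6542685720150000000) + (x - 67 / 100) ^ 2 * (-8573792083 / 9544399300000)) := by
  simp only [dt89, DT.kv, sw89, sw89_2, sl89, sl89_2, sv89, sv89_2]
  ((try push_cast); ring1)
theorem ka_dt91 (x : ℝ) : dt91.kv (1 / 100) x = (0) :=
  (DT.kv_le (by simp only [Cn.rt_v, Cn.ng_v]; norm_num)).trans (ka_dt88 x)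
theorem kb_dt91 (x : ℝ) : dt91.kv (47 / 914) x = (-43296221860489719 / 109044762002500000000 + (x - 67 / 100) * (-11171754418855069 / 6542685720150000000) + (x - 67 / 100) ^ 2 * (-8573792083 / 9544399300000)) :=
  (DT.kv_gt (by simp only [Cn.rt_v, Cn.ng_v]; norm_num)).trans (kb_dt89 x)
theorem ka_dt92 (x : ℝ) : dt92.kv (-1 / 100) x = (0) :=
  (DT.kv_le (by simp only [Cn.rt_v, Cn.ng_v]; norm_num)).trans (ka_dt87 x)
theorem kb_dt92 (x : ℝ) : dt92.kv (47 / 914) x = (-43296221860489719 / 109044762002500000000 + (x - 67 / 100) * (-11171754418855069 / 6542685720150000000) + (x - 67 / 100) ^ 2 * (-8573792083 / 9544399300000)) :=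
  (DT.kv_gt (by simp only [Cn.rt_v, Cn.ng_v]; norm_num)).trans (kb_dt91 x)
theorem ka_dt93 (x : ℝ) : dt93.kv (-47 / 914) x = (43296221860489719 / 109044762002500000000 + (x - 67 / 100) * (11171754418855069 / 6542685720150000000) + (x - 67 / 100) ^ 2 * (8573792083 / 9544399300000)) :=
  (DT.kv_le (by simp only [Cn.rt_v, Cn.ng_v]; norm_num)).trans (ka_dt90 x)
theorem kb_dt93 (x : ℝ) : dt93.kv (47 / 914) x = (-43296221860489719 / 109044762002500000000 + (x - 67 / 100) * (-11171754418855069 / 6542685720150000000) + (x - 67 / 100) ^ 2 * (-8573792083 / 9544399300000)) :=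
  (DT.kv_gt (by simp only [Cn.rt_v, Cn.ng_v]; norm_num)).trans (kb_dt92 x)
theorem ko_dt85 (x : ℝ) : dt85.KOk x := trivial
theorem ko_dt86 (x : ℝ) : dt86.KOk x := trivial
theorem ko_dt90 (x : ℝ) : dt90.KOk x :=
  DT.kOk_node (v := -1 / 50) (by simp only [Cn.rt_v, Cn.ng_v]; norm_num) (kb_dt85 x) (ka_dt86 x) (by ring1) (ko_dt85 x) (ko_dt86 x)
theorem ko_dt87 (x : ℝ) : dt87.KOk x := trivial
theorem ko_dt88 (x : ℝ) : dt88.KOk x := trivial
theorem ko_dt89 (x : ℝ) : dt89.KOk x := trivial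
theorem ko_dt91 (x : ℝ) : dt91.KOk x :=
  DT.kOk_node (v := 1 / 50) (by simp only [Cn.rt_v, Cn.ng_v]; norm_num) (kb_dt88 x) (ka_dt89 x) (by ring1) (ko_dt88 x) (ko_dt89 x)
theorem ko_dt92 (x : ℝ) : dt92.KOk x :=
  DT.kOk_node (v := 1 / 100) (by simp only [Cn.rt_v, Cn.ng_v]; norm_num) (kb_dt87 x) (ka_dt91 x) (by ring1) (ko_dt87 x) (ko_dt91 x)
theorem ko_dt93 (x : ℝ) : dt93.KOk x :=
  DT.kOk_node (v := -1 / 100) (by simp only [Cn.rt_v, Cn.ng_v]; norm_num) (kb_dt90 x) (ka_dt92 x) (by ring1) (ko_dt90 x) (ko_dt92 x)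
theorem phl0 {p x : ℝ} (h2 : p ≤ -1 / 50) : dt93.kv p x = (29781424717985237 / 903377393745000000000 + (x - 67 / 100) * (-103011129372629581 / 18067547874900000000) + (x - 67 / 100) ^ 2 * (109205635669 / 131783719000000)) + (98390551845566821 / 18067547874900000000 + (x - 67 / 100) * (-278670522227028509 / 602251595830000000) + (x - 67 / 100) ^ 2 * (5469638427499 / 65891859500000)) * p + (24359 / 100000 + (x - 67 / 100) * (-619641 / 100000) + (x - 67 / 100) ^ 2 * (8203 / 5000)) * p ^ 2 := by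
  refine (DT.kv_le (by simp only [Cn.rt_v, Cn.ng_v]; push_cast; linarith)).trans ?_
  refine (DT.kv_le (by simp only [Cn.rt_v, Cn.ng_v]; push_cast; linarith)).trans ?_
  simp only [dt85, DT.kv, sw85, sw85_2, sl85, sl85_2, sv85, sv85_2]
  ((try push_cast); ring1)
theorem phl1 {p x : ℝ} (h1 : -1 / 50 < p) (h2 : p ≤ -1 / 100) : dt93.kv p x = (19413543045452621 / 903377393745000000000 + (x - 67 / 100) * (24262000536889079 / 22584434843625000000) + (x - 67 / 100) ^ 2 * (2194308290271 / 3294592975000000)) + (77652981745714099 / 18067547874900000000 + (x - 67 / 100) * (3032750450043659 / 14115271777265625) + (x - 67 / 100) ^ 2 * (6005471028953 / 65891859500000)) * p + (214893 / 1000000 + (x - 67 / 100) * (26857 / 2500) + (x - 67 / 100) ^ 2 * (12269 / 5000)) * p ^ 2 := by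
  refine (DT.kv_le (by simp only [Cn.rt_v, Cn.ng_v]; push_cast; linarith)).trans ?_
  refine (DT.kv_gt (by simp only [Cn.rt_v, Cn.ng_v]; push_cast; linarith)).trans ?_
  simp only [dt86, DT.kv, sw86, sw86_2, sl86, sl86_2, sv86, sv86_2]
  ((try push_cast); ring1)
theorem phl2 {p x : ℝ} (h1 : -1 / 100 < p) (h2 : p ≤ 1 / 100) : dt93.kv p x = (0) + (0) * p := by
  refine (DT.kv_gt (by simp only [Cn.rt_v, Cn.ng_v]; push_cast; linarith)).trans ?_
  refine (DT.kv_le (by simp only [Cn.rt_v, Cn.ng_v]; push_cast; linarith)).trans ?_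
  simp only [dt87, DT.kv, sl87, sv87]
  ((try push_cast); ring1)
theorem phl3 {p x : ℝ} (h1 : 1 / 100 < p) (h2 : p ≤ 1 / 50) : dt93.kv p x = (-19413543045452621 / 903377393745000000000 + (x - 67 / 100) * (-24262000536889079 / 22584434843625000000) + (x - 67 / 100) ^ 2 * (-2194308290271 / 3294592975000000)) + (77652981745714099 / 18067547874900000000 + (x - 67 / 100) * (3032750450043659 / 14115271777265625) + (x - 67 / 100) ^ 2 * (6005471028953 / 65891859500000)) * p + (-214893 / 1000000 + (x - 67 / 100) * (-26857 / 2500) + (x - 67 / 100) ^ 2 * (-12269 / 5000)) * p ^ 2 := by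
  refine (DT.kv_gt (by simp only [Cn.rt_v, Cn.ng_v]; push_cast; linarith)).trans ?_
  refine (DT.kv_gt (by simp only [Cn.rt_v, Cn.ng_v]; push_cast; linarith)).trans ?_
  refine (DT.kv_le (by simp only [Cn.rt_v, Cn.ng_v]; push_cast; linarith)).trans ?_
  simp only [dt88, DT.kv, sw88, sw88_2, sl88, sl88_2, sv88, sv88_2]
  ((try push_cast); ring1)
theorem phl4 {p x : ℝ} (h1 : 1 / 50 < p) (h2 : p ≤ 47 / 914) : dt93.kv p x = (-29781424717985237 / 903377393745000000000 + (x - 67 / 100) * (103011129372629581 / 18067547874900000000) + (x - 67 / 100) ^ 2 * (-109205635669 / 131783719000000)) + (98390551845566821 / 18067547874900000000 + (x - 67 / 100) * (-278670522227028509 / 602251595830000000) + (x - 67 / 100) ^ 2 * (5469638427499 / 65891859500000)) * p + (-24359 / 100000 + (x - 67 / 100) * (619641 / 100000) + (x - 67 / 100) ^ 2 * (-8203 / 5000)) * p ^ 2 := by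
  refine (DT.kv_gt (by simp only [Cn.rt_v, Cn.ng_v]; push_cast; linarith)).trans ?_
  refine (DT.kv_gt (by simp only [Cn.rt_v, Cn.ng_v]; push_cast; linarith)).trans ?_
  refine (DT.kv_gt (by simp only [Cn.rt_v, Cn.ng_v]; push_cast; linarith)).trans ?_
  simp only [dt89, DT.kv, sw89, sw89_2, sl89, sl89_2, sv89, sv89_2]
  ((try push_cast); ring1)
theorem tvc12 {p x : ℝ} (h1 : -3 / 50 ≤ p) (h2 : p ≤ -1 / 50) : dt84.val (fun p x => kcg.v p x) p (cT p) x = (506173377 / 5000000000 + (x - 67 / 100) * (242627 / 4000000)) + (19576611 / 100000000 + (x - 67 / 100) * (-135497 / 400000)) * p + (-9569 / 31250 + (x - 67 / 100) * (106193 / 4000)) * p ^ 2 := by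
  rcases eq_or_lt_of_le h1 with h | h1
  · subst h
    refine (DT.val_le (by simp only [Cn.rt_v, Cn.ng_v]; push_cast; linarith)).trans ?_
    refine (DT.val_gt (by simp only [Cn.rt_v, Cn.ng_v]; push_cast; linarith)).trans ?_
    refine (DT.val_gt (by simp only [Cn.rt_v, Cn.ng_v]; push_cast; linarith)).trans ?_
    refine (DT.val_gt (by simp only [Cn.rt_v, Cn.ng_v]; push_cast; linarith)).trans ?_
    refine (DT.val_gt (by simp only [Cn.rt_v, Cn.ng_v]; push_cast; linarith)).trans ?_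
    simp only [dt49, DT.val, sw49, sl49, sv49]
    ((try push_cast); ring1)
  ·
    refine (DT.val_gt (by simp only [Cn.rt_v, Cn.ng_v]; push_cast; linarith)).trans ?_
    refine (DT.val_le (by simp only [Cn.rt_v, Cn.ng_v]; push_cast; linarith)).trans ?_
    refine (DT.val_le (by simp only [Cn.rt_v, Cn.ng_v]; push_cast; linarith)).trans ?_
    refine (DT.val_le (by simp only [Cn.rt_v, Cn.ng_v]; push_cast; linarith)).trans ?_
    simp only [dt50, DT.val, sw50, sl50, sv50]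
    ((try push_cast); ring1)
theorem tvc13 {p x : ℝ} (h1 : -1 / 50 ≤ p) (h2 : p ≤ 1 / 100) : dt84.val (fun p x => kcg.v p x) p (cT p) x = (506230761 / 5000000000 + (x - 67 / 100) * (40410769 / 750000000) + (x - 67 / 100) ^ 2 * (2033 / 12500000)) + (19691389 / 100000000 + (x - 67 / 100) * (-7622347 / 7500000) + (x - 67 / 100) ^ 2 * (-2033 / 250000)) * p + (-277511 / 1000000 + (x - 67 / 100) * (120113 / 12500) + (x - 67 / 100) ^ 2 * (-2033 / 2500)) * p ^ 2 := by
  rcases eq_or_lt_of_le h1 with h | h1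
  · subst h
    refine (DT.val_gt (by simp only [Cn.rt_v, Cn.ng_v]; push_cast; linarith)).trans ?_
    refine (DT.val_le (by simp only [Cn.rt_v, Cn.ng_v]; push_cast; linarith)).trans ?_
    refine (DT.val_le (by simp only [Cn.rt_v, Cn.ng_v]; push_cast; linarith)).trans ?_
    refine (DT.val_le (by simp only [Cn.rt_v, Cn.ng_v]; push_cast; linarith)).trans ?_
    simp only [dt50, DT.val, sw50, sl50, sv50]
    ((try push_cast); ring1)
  ·
    refine (DT.val_gt (by simp only [Cn.rt_v, Cn.ng_v]; push_cast; linarith)).trans ?_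
    refine (DT.val_le (by simp only [Cn.rt_v, Cn.ng_v]; push_cast; linarith)).trans ?_
    refine (DT.val_le (by simp only [Cn.rt_v, Cn.ng_v]; push_cast; linarith)).trans ?_
    refine (DT.val_gt (by simp only [Cn.rt_v, Cn.ng_v]; push_cast; linarith)).trans ?_
    refine (DT.val_le (by simp only [Cn.rt_v, Cn.ng_v]; push_cast; linarith)).trans ?_
    simp only [dt51, DT.val, sw51, sw51_2, sl51, sl51_2, sv51, sv51_2]
    ((try push_cast); ring1)
theorem tvc14 {p x : ℝ} (h1 : 1 / 100 ≤ p) (h2 : p ≤ 47 / 914) : dt84.val (fun p x => kcg.v p x) p (cT p) x = (9148289864419105061 / 90337739374500000000 + (x - 67 / 100) * (496453802594105497 / 9033773937450000000) + (x - 67 / 100) ^ 2 * (109205635669 / 131783719000000)) + (1740049076531039131 / 9033773937450000000 + (x - 67 / 100) * (-556105078873398389 / 451688696872500000) + (x - 67 / 100) ^ 2 * (-6541303630407 / 65891859500000)) * p + (-31309 / 500000 + (x - 67 / 100) * (127199 / 6250) +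 (x - 67 / 100) ^ 2 * (8203 / 5000)) * p ^ 2 := by
  rcases eq_or_lt_of_le h1 with h | h1
  · subst h
    refine (DT.val_gt (by simp only [Cn.rt_v, Cn.ng_v]; push_cast; linarith)).trans ?_
    refine (DT.val_le (by simp only [Cn.rt_v, Cn.ng_v]; push_cast; linarith)).trans ?_
    refine (DT.val_le (by simp only [Cn.rt_v, Cn.ng_v]; push_cast; linarith)).trans ?_
    refine (DT.val_gt (by simp only [Cn.rt_v, Cn.ng_v]; push_cast; linarith)).trans ?_
    refine (DT.val_le (by simp only [Cn.rt_v, Cn.ng_v]; push_cast; linarith)).trans ?_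
    simp only [dt51, DT.val, sw51, sw51_2, sl51, sl51_2, sv51, sv51_2]
    ((try push_cast); ring1)
  ·
    refine (DT.val_gt (by simp only [Cn.rt_v, Cn.ng_v]; push_cast; linarith)).trans ?_
    refine (DT.val_le (by simp only [Cn.rt_v, Cn.ng_v]; push_cast; linarith)).trans ?_
    refine (DT.val_le (by simp only [Cn.rt_v, Cn.ng_v]; push_cast; linarith)).trans ?_
    refine (DT.val_gt (by simp only [Cn.rt_v, Cn.ng_v]; push_cast; linarith)).trans ?_
    refine (DT.val_gt (by simp only [Cn.rt_v, Cn.ng_v]; push_cast; linarith)).trans ?_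
    simp only [dt52, DT.val, sw52, sw52_2, sl52, sl52_2, sv52, sv52_2]
    ((try push_cast); ring1)
theorem ph_ (x : ℝ) : ∀ u, |u| ≤ vv.k2.v → dd.tF x (-u) - dd.tF x u = m0c.v x * u + dt93.kv u x := by
  intro u h
  have h : |u| ≤ 47 / 914 := by
    refine h.trans_eq ?_
    show (Cn.rt 47 914).v = _
    rw [Cn.rt_v]
    norm_num
  obtain ⟨h1, h2⟩ := abs_le.1 h
  show dt84.val (fun p x => kcg.v p x) (-u) (cT (-u)) x - dt84.val (fun p x => kcg.v p x) u (cT u) x = _
  rcases le_or_gt u (-1 / 50) with g0 | g1000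
  ·
    rw [tvc14 (p := -u) (by linarith) (by linarith), tvc12 (p := u) (by linarith) (by linarith), phl0 g0]
    simp only [m0c, m0c_2]
    push_cast
    ring
  rcases le_or_gt u (-1 / 100) with g1 | g1001
  ·
    rw [tvc14 (p := -u) (by linarith) (by linarith), tvc13 (p := u) (by linarith) (by linarith), phl1 g1000 g1]
    simp only [m0c, m0c_2]
    push_cast
    ring
  rcases le_or_gt u (1 / 100) with g2 | g1002
  ·
    rw [tvc13 (p := -u) (by linarith) (by linarith), tvc13 (p := u) (by linarith) (by linarith), phl2 g1001 g2]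
    simp only [m0c, m0c_2]
    push_cast
    ring
  rcases le_or_gt u (1 / 50) with g3 | g1003
  ·
    rw [tvc13 (p := -u) (by linarith) (by linarith), tvc14 (p := u) (by linarith) (by linarith), phl3 g1002 g3]
    simp only [m0c, m0c_2]
    push_cast
    ring
  ·
    rw [tvc12 (p := -u) (by linarith) (by linarith), tvc14 (p := u) (by linarith) (by linarith), phl4 g1003 (by linarith)]
    simp only [m0c, m0c_2]
    push_cast
    ring
theorem kqf_ {y : ℝ} (x : ℝ) (h : OnC (0 : Fin 8) 2 y) : kqf.v y x * c1g.v y = (y - 1) * kcg.v (c1g.v y) x := by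
  have h0 : 0 ≤ c1g.v y := by rw [c1g_v]; exact c1n_nn y
  simp only [kqf]
  (try push_cast)
  split_ifs with hh
  · rw [kcl9 (p := c1g.v y) (by linarith) (by linarith)]
    ring
  · have hc : c1g.v y ≠ 0 := by
      intro e
      rw [e] at hh
      exact hh (by norm_num)
    have hi := inv_mul_cancel₀ hc
    linear_combination ((y - 1) * kcg.v (c1g.v y) x) * hi
theorem sM_ (x : ℝ) : ∀ y, OnC (0 : Fin 8) 2 y → c1n y < crv PP 1 2 y →
    (1 + skm.v y x) * (crv PP 1 2 y - c1n y) = tK 1 2 y x - tK 0 2 y x := by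
  intro y h hlt
  rw [yK12 h.1, yK02 h]
  rw [ecv1q2, ← c1g_v] at hlt ⊢
  have hd : 0 < cv1p.v y - c1g.v y := sub_pos.2 hlt
  have hi := inv_mul_cancel₀ hd.ne'
  have hb : |c1g.v y| ≤ 1 / 2 := by rw [c1g_v]; exact bnd_O h
  have eo := odd (x := x) hb
  have hk := kqf_ x h
  have hB : kf1q2.v y x = cv1p.v y * bf1q2.v y x := by
    simp only [kf1q2, kf1q2_4, kf1q2_9, bf1q2, bf1q2_3, bf1q2_8]
  simp only [skm, hB, kf0q2, eo]
  (try push_cast)
  linear_combination (cv1p.v y * ((bf1q2.v y x - 1) + kqf.v y x)) * hi + hk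
theorem ok (x : ℝ) : tt.Ok PP tK tL x where
  i0 := rfl
  il := rfl
  rl := by
    show 1 < PP.ρ 6
    have e : PP.ρ 6 = 8 / 5 := rfl
    rw [e]
    norm_num
  ok := dok x
  kh := rfl
  odd := fun p h => odd h
  K0 := K0_ x
  L0 := L0_ x
  Kn := Kn_ x
  Ln := Ln_ x
  f0 := f0_
  fn := fn_
  sK0 := sK0_ x
  sX0 := sX0_ x
  sKn := sKn_ x
  sXn := sXn_ x
  k1 := by
    show 0 ≤ (Cn.rt 1 100).v ∧ (Cn.rt 1 100).v ≤ 1 / 2
    rw [Cn.rt_v]
    constructor <;> norm_num
  kn := kn_ x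
  tn := tn_ x
  vK := vK_ x
  vX := vX_ x
  rK := rK_ x
  rX := rX_ x
  yb := by
    show 0 ≤ (Cn.rt 231 200).v ∧ 1 ≤ 3 / 4 * (Cn.rt 231 200).v ^ 2
    rw [Cn.rt_v]
    constructor <;> norm_num
  flat := flat_ x
  abk := abk_ x
  phk := ko_dt93 x
  ph := ph_ x
  sM := sM_ x
  yz := by
    show (Cn.rt 115471 100000).v ≤ (Cn.rt 115471 100000).v ∧ 0 ≤ (Cn.rt 115471 100000).v ∧ 1 ≤ 3 / 4 * (Cn.rt 115471 100000).v ^ 2 + (Cn.rt 1 100).v ^ 2
    simp only [Cn.rt_v]
    refine ⟨?_, ?_, ?_⟩ <;> norm_num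
theorem yK22_ {y x : ℝ} (h : InQ 2 y) : tK 2 2 y x = kf2q2.v y x := (atB22 (onc h (by decide))).K.symm
theorem yL22_ {y x : ℝ} (h : InQ 2 y) : tL 2 2 y x = l2q2.v y x := (atB22 (onc h (by decide))).L.symm
theorem fr_ : ∀ y, InQ 2 y → crv PP 1 2 y = c1n y + ww.FR.v y := by
  intro y h
  rw [ecv1q2, ← c1g_v]
  show _ = c1g.v y + frw.v y
  simp only [cv1p, frw]
  push_cast
  ring
theorem f2_ : ∀ y, InQ 2 y → ww.f2.v y = crv PP 2 2 y := fun _ _ => ecv2q2.symm
theorem b1_ (x : ℝ) : ∀ y, InQ 2 y → y ≤ vv.yb.v → c1n y ≤ ww.c2.v → bf1q2.v y x = 1 - (y - 1) * k0c.v x + q1k.v x * c1n y ∧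
    bx1q2.v y x = m0c.v x + q1x.v x * c1n y := by
  intro y h h1 h2
  have eb : vv.yb.v = 231 / 200 := by
    show (Cn.rt 231 200).v = _
    rw [Cn.rt_v]
    norm_num
  have ec2 : ww.c2.v = 1 / 20 := by
    show (Cn.rt 1 20).v = _
    rw [Cn.rt_v]
    norm_num
  rw [eb] at h1
  rw [ec2] at h2
  have hcv : c1g.v y ≤ 1 / 20 := by
    rw [c1g_v]
    linarith
  rcases lt_or_ge (3 / 4 * y ^ 2) 1 with ht | ht
  · rw [← c1g_v]
    constructor
    · simp only [bf1q2, bf1q2_3, bf1q2_8, k0c, q1k]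
      (try push_cast)
      (repeat first | rw [if_pos (by linarith)] | rw [if_neg (by linarith)])
      (try push_cast)
      ring1
    · simp only [bx1q2, bx1q2_3, bx1q2_11, m0c, m0c_2, q1x]
      (try push_cast)
      (repeat first | rw [if_pos (by linarith)] | rw [if_neg (by linarith)])
      (try push_cast)
      ring1
  · have hz : c1n y = 0 := by
      unfold c1n
      exact Real.sqrt_eq_zero_of_nonpos (by linarith)
    rw [hz]
    constructor
    · simp only [bf1q2, bf1q2_3, bf1q2_8, k0c, q1k]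
      (try push_cast)
      (repeat first | rw [if_pos (by linarith)] | rw [if_neg (by linarith)])
      (try push_cast)
      ring1
    · simp only [bx1q2, bx1q2_3, bx1q2_11, m0c, m0c_2, q1x]
      (try push_cast)
      (repeat first | rw [if_pos (by linarith)] | rw [if_neg (by linarith)])
      (try push_cast)
      ring1
theorem a2_ (x : ℝ) : ∀ y, InQ 2 y → 3 / 4 * y ^ 2 < 1 → c1n y ≤ ww.c2.v →
    tK 2 2 y x = crv PP 2 2 y * (a2k0.v x + a2k1.v x * c1n y) ∧
    tL 2 2 y x = crv PP 2 2 y * (a2x0.v x + a2x1.v x * c1n y) := by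
  intro y h ht h2
  have ec2 : ww.c2.v = 1 / 20 := by
    show (Cn.rt 1 20).v = _
    rw [Cn.rt_v]
    norm_num
  rw [ec2] at h2
  have hcv : c1g.v y ≤ 1 / 20 := by
    rw [c1g_v]
    linarith
  rw [yK22_ h, yL22_ h, ecv2q2, ← c1g_v]
  constructor
  · simp only [kf2q2, kf2q2_4, a2k0, a2k1]
    (try push_cast)
    (repeat first | rw [if_pos (by linarith)] | rw [if_neg (by linarith)])
    (try push_cast)
    ring1
  · simp only [l2q2, l2q2_4, a2x0, a2x1]
    (try push_cast)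
    (repeat first | rw [if_pos (by linarith)] | rw [if_neg (by linarith)])
    (try push_cast)
    ring1
theorem b2_ (x : ℝ) : ∀ y, InQ 2 y → 1 ≤ 3 / 4 * y ^ 2 → y ≤ vv.yb.v →
    tK 2 2 y x = crv PP 2 2 y * (b2k0.v x + b2k1.v x * (y - ww.y2.v)) ∧
    tL 2 2 y x = crv PP 2 2 y * (b2x0.v x + b2x1.v x * (y - ww.y2.v)) := by
  intro y h ht h2
  have eb : vv.yb.v = 231 / 200 := by
    show (Cn.rt 231 200).v = _
    rw [Cn.rt_v]
    norm_num
  have ey2 : ww.y2.v = 577 / 500 := by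
    show (Cn.rt 577 500).v = _
    rw [Cn.rt_v]
    norm_num
  rw [eb] at h2
  rw [ey2, yK22_ h, yL22_ h, ecv2q2]
  constructor
  · simp only [kf2q2, kf2q2_4, b2k0, b2k1]
    (try push_cast)
    (repeat first | rw [if_pos (by linarith)] | rw [if_neg (by linarith)])
    (try push_cast)
    ring1
  · simp only [l2q2, l2q2_4, b2x0, b2x1]
    (try push_cast)
    (repeat first | rw [if_pos (by linarith)] | rw [if_neg (by linarith)])
    (try push_cast)
    ring1
theorem ecv1pA {y : ℝ} (h1 : 23093 / 20000 < y) (h2 : 3 / 4 * y ^ 2 < 1) : cv1p.v y = cv1pA.v (c1g.v y) y := by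
  simp only [cv1p, cv1pA]
  all_goals (first | rfl | ring)
theorem ecv2pA {y : ℝ} (h1 : 23093 / 20000 < y) (h2 : 3 / 4 * y ^ 2 < 1) : cv2p.v y = cv2pA.v (c1g.v y) y := by
  simp only [cv2p, cv2pA]
  all_goals (first | rfl | ring)
theorem ecv3pA {y : ℝ} (h1 : 23093 / 20000 < y) (h2 : 3 / 4 * y ^ 2 < 1) : cv3p.v y = cv3pA.v (c1g.v y) y := by
  simp only [cv3p, cv3pA]
  all_goals (first | rfl | ring)
theorem ecv4pA {y : ℝ} (h1 : 23093 / 20000 < y) (h2 : 3 / 4 * y ^ 2 < 1) : cv4p.v y = cv4pA.v (c1g.v y) y := by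
  simp only [cv4p, cv4pA]
  all_goals (first | rfl | ring)
theorem elm4pA {a1 y : ℝ} (h1 : 23093 / 20000 < y) (h2 : 3 / 4 * y ^ 2 < 1) : lm4p.v a1 y = lm4pA.v a1 (c1g.v y) y := by
  simp only [lm4p, lm4pA, ecv4pA h1 h2]
  all_goals (first | rfl | ring)
theorem ebf4q2A {y a2 : ℝ} (h1 : 23093 / 20000 < y) (h2 : 3 / 4 * y ^ 2 < 1) : bf4q2.v y a2 = bf4q2A.v (c1g.v y) y a2 := by
  have ht : ¬ (((1 : ℕ) : ℝ) - ((3 : ℕ) : ℝ) / ((4 : ℕ) : ℝ) * y ^ 2 ≤ 0) := by
    push_cast
    linarith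
  simp only [bf4q2, bf4q2_3, bf4q2A, bf4q2A_3, if_neg ht]
  all_goals (first | rfl | ring)
theorem elm3pA {a1 y : ℝ} (h1 : 23093 / 20000 < y) (h2 : 3 / 4 * y ^ 2 < 1) : lm3p.v a1 y = lm3pA.v a1 (c1g.v y) y := by
  simp only [lm3p, lm3pA, ecv3pA h1 h2, ecv4pA h1 h2]
  all_goals (first | rfl | ring)
theorem ebf3q2A {y a2 : ℝ} (h1 : 23093 / 20000 < y) (h2 : 3 / 4 * y ^ 2 < 1) : bf3q2.v y a2 = bf3q2A.v (c1g.v y) y a2 := by
  have ht : ¬ (((1 : ℕ) : ℝ) - ((3 : ℕ) : ℝ) / ((4 : ℕ) : ℝ) * y ^ 2 ≤ 0) := by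
    push_cast
    linarith
  simp only [bf3q2, bf3q2_3, bf3q2A, bf3q2A_3, if_neg ht]
  all_goals (first | rfl | ring)
theorem elm2pA {a1 y : ℝ} (h1 : 23093 / 20000 < y) (h2 : 3 / 4 * y ^ 2 < 1) : lm2p.v a1 y = lm2pA.v a1 (c1g.v y) y := by
  simp only [lm2p, lm2pA, ecv2pA h1 h2, ecv3pA h1 h2]
  all_goals (first | rfl | ring)
theorem ebf2q2A {y a2 : ℝ} (h1 : 23093 / 20000 < y) (h2 : 3 / 4 * y ^ 2 < 1) : bf2q2.v y a2 = bf2q2A.v (c1g.v y) y a2 := by
  have ht : ¬ (((1 : ℕ) : ℝ) - ((3 : ℕ) : ℝ) / ((4 : ℕ) : ℝ) * y ^ 2 ≤ 0) := by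
    push_cast
    linarith
  simp only [bf2q2, bf2q2_3, bf2q2A, bf2q2A_3, if_neg ht]
  all_goals (first | rfl | ring)
theorem elm1pA {a1 y : ℝ} (h1 : 23093 / 20000 < y) (h2 : 3 / 4 * y ^ 2 < 1) : lm1p.v a1 y = lm1pA.v a1 (c1g.v y) y := by
  simp only [lm1p, lm1pA, ecv1pA h1 h2, ecv2pA h1 h2]
  all_goals (first | rfl | ring)
theorem ebf1q2A {y a2 : ℝ} (h1 : 23093 / 20000 < y) (h2 : 3 / 4 * y ^ 2 < 1) : bf1q2.v y a2 = bf1q2A.v (c1g.v y) y a2 := by
  have ht : ¬ (((1 : ℕ) : ℝ) - ((3 : ℕ) : ℝ) / ((4 : ℕ) : ℝ) * y ^ 2 ≤ 0) := by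
    push_cast
    linarith
  simp only [bf1q2, bf1q2_3, bf1q2_8, bf1q2A, bf1q2A_3, if_neg ht]
  all_goals (first | rfl | ring)
theorem elm0pA {a1 y : ℝ} (h1 : 23093 / 20000 < y) (h2 : 3 / 4 * y ^ 2 < 1) : lm0p.v a1 y = lm0pA.v a1 (c1g.v y) y := by
  simp only [lm0p, lm0pA, ecv1pA h1 h2]
  all_goals (first | rfl | ring)
theorem erkbq2A {a1 y a3 : ℝ} (h1 : 23093 / 20000 < y) (h2 : 3 / 4 * y ^ 2 < 1) : rkbq2.v a1 y a3 = rkbq2A.v a1 (c1g.v y) y a3 := by
  have hr0 : ¬ (y - ((577 : ℕ) : ℝ) / ((500 : ℕ) : ℝ) ≤ 0) := by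
    push_cast
    linarith
  have hr1 : y - ((2887 : ℕ) : ℝ) / ((2500 : ℕ) : ℝ) ≤ 0 := by
    push_cast
    nlinarith
  simp only [rkbq2, rkbq2_73, rkbq2_75, rkbq2A, if_neg hr0, if_pos hr1, ecv1pA h1 h2, ecv2pA h1 h2, ecv3pA h1 h2, ecv4pA h1 h2, elm4pA h1 h2, ebf4q2A h1 h2, elm3pA h1 h2, ebf3q2A h1 h2, elm2pA h1 h2, ebf2q2A h1 h2, elm1pA h1 h2, ebf1q2A h1 h2, elm0pA h1 h2]
  all_goals (first | rfl | ring)
theorem ersbq2A {a1 y a3 : ℝ} (h1 : 23093 / 20000 < y) (h2 : 3 / 4 * y ^ 2 < 1) : rsbq2.v a1 y a3 = rsbq2A.v a1 (c1g.v y) y a3 := by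
  simp only [rsbq2, rsbq2A, erkbq2A h1 h2]
  all_goals (first | rfl | ring)
theorem ebx4q2A {y a2 : ℝ} (h1 : 23093 / 20000 < y) (h2 : 3 / 4 * y ^ 2 < 1) : bx4q2.v y a2 = bx4q2A.v (c1g.v y) y a2 := by
  have ht : ¬ (((1 : ℕ) : ℝ) - ((3 : ℕ) : ℝ) / ((4 : ℕ) : ℝ) * y ^ 2 ≤ 0) := by
    push_cast
    linarith
  simp only [bx4q2, bx4q2_3, bx4q2A, bx4q2A_3, if_neg ht]
  all_goals (first | rfl | ring)
theorem ebx3q2A {y a2 : ℝ} (h1 : 23093 / 20000 < y) (h2 : 3 / 4 * y ^ 2 < 1) : bx3q2.v y a2 = bx3q2A.v (c1g.v y) y a2 := by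
  have ht : ¬ (((1 : ℕ) : ℝ) - ((3 : ℕ) : ℝ) / ((4 : ℕ) : ℝ) * y ^ 2 ≤ 0) := by
    push_cast
    linarith
  simp only [bx3q2, bx3q2_3, bx3q2A, bx3q2A_3, if_neg ht]
  all_goals (first | rfl | ring)
theorem ebx2q2A {y a2 : ℝ} (h1 : 23093 / 20000 < y) (h2 : 3 / 4 * y ^ 2 < 1) : bx2q2.v y a2 = bx2q2A.v (c1g.v y) y a2 := by
  have ht : ¬ (((1 : ℕ) : ℝ) - ((3 : ℕ) : ℝ) / ((4 : ℕ) : ℝ) * y ^ 2 ≤ 0) := by
    push_cast
    linarith
  simp only [bx2q2, bx2q2_3, bx2q2A, bx2q2A_3, if_neg ht]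
  all_goals (first | rfl | ring)
theorem ebx1q2A {y a2 : ℝ} (h1 : 23093 / 20000 < y) (h2 : 3 / 4 * y ^ 2 < 1) : bx1q2.v y a2 = bx1q2A.v (c1g.v y) y a2 := by
  have ht : ¬ (((1 : ℕ) : ℝ) - ((3 : ℕ) : ℝ) / ((4 : ℕ) : ℝ) * y ^ 2 ≤ 0) := by
    push_cast
    linarith
  simp only [bx1q2, bx1q2_3, bx1q2_11, bx1q2A, bx1q2A_3, if_neg ht]
  all_goals (first | rfl | ring)
theorem erxq2A {a1 y a3 : ℝ} (h1 : 23093 / 20000 < y) (h2 : 3 / 4 * y ^ 2 < 1) : rxq2.v a1 y a3 = rxq2A.v a1 (c1g.v y) y a3 := by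
  have hr0 : ¬ (y - ((23093 : ℕ) : ℝ) / ((20000 : ℕ) : ℝ) ≤ 0) := by
    push_cast
    linarith
  have hr1 : y - ((2887 : ℕ) : ℝ) / ((2500 : ℕ) : ℝ) ≤ 0 := by
    push_cast
    nlinarith
  simp only [rxq2, rxq2_73, rxq2_75, rxq2A, if_neg hr0, if_pos hr1, ecv1pA h1 h2, ecv2pA h1 h2, ecv3pA h1 h2, ecv4pA h1 h2, elm4pA h1 h2, ebx4q2A h1 h2, elm3pA h1 h2, ebx3q2A h1 h2, elm2pA h1 h2, ebx2q2A h1 h2, elm1pA h1 h2, ebx1q2A h1 h2, elm0pA h1 h2]
  all_goals (first | rfl | ring)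
theorem erlq2A {a1 y a3 : ℝ} (h1 : 23093 / 20000 < y) (h2 : 3 / 4 * y ^ 2 < 1) : rlq2.v a1 y a3 = rlq2A.v a1 (c1g.v y) y a3 := by
  simp only [rlq2, rlq2A, erxq2A h1 h2]
  all_goals (first | rfl | ring)
theorem c0_ {y : ℝ} (h2 : 1 ≤ 3 / 4 * y ^ 2) : c1g.v y = ((0 : ℕ) : ℝ) := by
  rw [c1g_v]
  unfold c1n
  push_cast
  exact Real.sqrt_eq_zero_of_nonpos (by linarith)
theorem ecv1pB {y : ℝ} (h1 : 23093 / 20000 < y) (h2 : 1 ≤ 3 / 4 * y ^ 2) : cv1p.v y = cv1pB.v y := by
  simp only [cv1p, cv1pB, c0_ h2]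
  all_goals (first | rfl | ring)
theorem ecv2pB {y : ℝ} (h1 : 23093 / 20000 < y) (h2 : 1 ≤ 3 / 4 * y ^ 2) : cv2p.v y = cv2pB.v y := by
  simp only [cv2p, cv2pB, c0_ h2]
  all_goals (first | rfl | ring)
theorem ecv3pB {y : ℝ} (h1 : 23093 / 20000 < y) (h2 : 1 ≤ 3 / 4 * y ^ 2) : cv3p.v y = cv3pB.v y := by
  simp only [cv3p, cv3pB, c0_ h2]
  all_goals (first | rfl | ring)
theorem ecv4pB {y : ℝ} (h1 : 23093 / 20000 < y) (h2 : 1 ≤ 3 / 4 * y ^ 2) : cv4p.v y = cv4pB.v y := by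
  simp only [cv4p, cv4pB, c0_ h2]
  all_goals (first | rfl | ring)
theorem elm4pB {a1 y : ℝ} (h1 : 23093 / 20000 < y) (h2 : 1 ≤ 3 / 4 * y ^ 2) : lm4p.v a1 y = lm4pB.v a1 y := by
  simp only [lm4p, lm4pB, ecv4pB h1 h2]
  all_goals (first | rfl | ring)
theorem ebf4q2B {y a2 : ℝ} (h1 : 23093 / 20000 < y) (h2 : 1 ≤ 3 / 4 * y ^ 2) : bf4q2.v y a2 = bf4q2B.v y a2 := by
  have ht : ((1 : ℕ) : ℝ) - ((3 : ℕ) : ℝ) / ((4 : ℕ) : ℝ) * y ^ 2 ≤ 0 := by
    push_cast
    linarith
  simp only [bf4q2, bf4q2_3, bf4q2B, bf4q2B_3, if_pos ht, c0_ h2]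
  all_goals (first | rfl | ring)
theorem elm3pB {a1 y : ℝ} (h1 : 23093 / 20000 < y) (h2 : 1 ≤ 3 / 4 * y ^ 2) : lm3p.v a1 y = lm3pB.v a1 y := by
  simp only [lm3p, lm3pB, ecv3pB h1 h2, ecv4pB h1 h2]
  all_goals (first | rfl | ring)
theorem ebf3q2B {y a2 : ℝ} (h1 : 23093 / 20000 < y) (h2 : 1 ≤ 3 / 4 * y ^ 2) : bf3q2.v y a2 = bf3q2B.v y a2 := by
  have ht : ((1 : ℕ) : ℝ) - ((3 : ℕ) : ℝ) / ((4 : ℕ) : ℝ) * y ^ 2 ≤ 0 := by
    push_cast
    linarith
  simp only [bf3q2, bf3q2_3, bf3q2B, bf3q2B_3, if_pos ht, c0_ h2]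
  all_goals (first | rfl | ring)
theorem elm2pB {a1 y : ℝ} (h1 : 23093 / 20000 < y) (h2 : 1 ≤ 3 / 4 * y ^ 2) : lm2p.v a1 y = lm2pB.v a1 y := by
  simp only [lm2p, lm2pB, ecv2pB h1 h2, ecv3pB h1 h2]
  all_goals (first | rfl | ring)
theorem ebf2q2B {y a2 : ℝ} (h1 : 23093 / 20000 < y) (h2 : 1 ≤ 3 / 4 * y ^ 2) : bf2q2.v y a2 = bf2q2B.v y a2 := by
  have ht : ((1 : ℕ) : ℝ) - ((3 : ℕ) : ℝ) / ((4 : ℕ) : ℝ) * y ^ 2 ≤ 0 := by
    push_cast
    linarith
  simp only [bf2q2, bf2q2_3, bf2q2B, bf2q2B_3, if_pos ht, c0_ h2]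
  all_goals (first | rfl | ring)
theorem elm1pB {a1 y : ℝ} (h1 : 23093 / 20000 < y) (h2 : 1 ≤ 3 / 4 * y ^ 2) : lm1p.v a1 y = lm1pB.v a1 y := by
  simp only [lm1p, lm1pB, ecv1pB h1 h2, ecv2pB h1 h2]
  all_goals (first | rfl | ring)
theorem ebf1q2B {y a2 : ℝ} (h1 : 23093 / 20000 < y) (h2 : 1 ≤ 3 / 4 * y ^ 2) : bf1q2.v y a2 = bf1q2B.v y a2 := by
  have ht : ((1 : ℕ) : ℝ) - ((3 : ℕ) : ℝ) / ((4 : ℕ) : ℝ) * y ^ 2 ≤ 0 := by
    push_cast
    linarith
  simp only [bf1q2, bf1q2_3, bf1q2_8, bf1q2B, bf1q2B_3, if_pos ht, c0_ h2]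
  all_goals (first | rfl | ring)
theorem elm0pB {a1 y : ℝ} (h1 : 23093 / 20000 < y) (h2 : 1 ≤ 3 / 4 * y ^ 2) : lm0p.v a1 y = lm0pB.v a1 y := by
  simp only [lm0p, lm0pB, ecv1pB h1 h2, c0_ h2]
  all_goals (first | rfl | ring)
theorem erkbq2B {a1 y a3 : ℝ} (h1 : 23093 / 20000 < y) (h2 : 1 ≤ 3 / 4 * y ^ 2) : rkbq2.v a1 y a3 = rkbq2B.v a1 y a3 := by
  have hr0 : ¬ (y - ((577 : ℕ) : ℝ) / ((500 : ℕ) : ℝ) ≤ 0) := by
    push_cast
    linarith
  simp only [rkbq2, rkbq2_73, rkbq2_75, rkbq2B, rkbq2B_69, if_neg hr0, ecv1pB h1 h2, ecv2pB h1 h2, ecv3pB h1 h2, ecv4pB h1 h2, elm4pB h1 h2, ebf4q2B h1 h2, elm3pB h1 h2, ebf3q2B h1 h2, elm2pB h1 h2, ebf2q2B h1 h2, elm1pB h1 h2, ebf1q2B h1 h2, elm0pB h1 h2, c0_ h2]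
  all_goals (first | rfl | ring)
theorem ersbq2B {a1 y a3 : ℝ} (h1 : 23093 / 20000 < y) (h2 : 1 ≤ 3 / 4 * y ^ 2) : rsbq2.v a1 y a3 = rsbq2B.v a1 y a3 := by
  simp only [rsbq2, rsbq2B, erkbq2B h1 h2]
  all_goals (first | rfl | ring)
theorem ebx4q2B {y a2 : ℝ} (h1 : 23093 / 20000 < y) (h2 : 1 ≤ 3 / 4 * y ^ 2) : bx4q2.v y a2 = bx4q2B.v y a2 := by
  have ht : ((1 : ℕ) : ℝ) - ((3 : ℕ) : ℝ) / ((4 : ℕ) : ℝ) * y ^ 2 ≤ 0 := by
    push_cast
    linarith
  simp only [bx4q2, bx4q2_3, bx4q2B, bx4q2B_3, if_pos ht, c0_ h2]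
  all_goals (first | rfl | ring)
theorem ebx3q2B {y a2 : ℝ} (h1 : 23093 / 20000 < y) (h2 : 1 ≤ 3 / 4 * y ^ 2) : bx3q2.v y a2 = bx3q2B.v y a2 := by
  have ht : ((1 : ℕ) : ℝ) - ((3 : ℕ) : ℝ) / ((4 : ℕ) : ℝ) * y ^ 2 ≤ 0 := by
    push_cast
    linarith
  simp only [bx3q2, bx3q2_3, bx3q2B, bx3q2B_3, if_pos ht, c0_ h2]
  all_goals (first | rfl | ring)
theorem ebx2q2B {y a2 : ℝ} (h1 : 23093 / 20000 < y) (h2 : 1 ≤ 3 / 4 * y ^ 2) : bx2q2.v y a2 = bx2q2B.v y a2 := by
  have ht : ((1 : ℕ) : ℝ) - ((3 : ℕ) : ℝ) / ((4 : ℕ) : ℝ) * y ^ 2 ≤ 0 := by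
    push_cast
    linarith
  simp only [bx2q2, bx2q2_3, bx2q2B, bx2q2B_3, if_pos ht, c0_ h2]
  all_goals (first | rfl | ring)
theorem ebx1q2B {y a2 : ℝ} (h1 : 23093 / 20000 < y) (h2 : 1 ≤ 3 / 4 * y ^ 2) : bx1q2.v y a2 = bx1q2B.v y a2 := by
  have ht : ((1 : ℕ) : ℝ) - ((3 : ℕ) : ℝ) / ((4 : ℕ) : ℝ) * y ^ 2 ≤ 0 := by
    push_cast
    linarith
  simp only [bx1q2, bx1q2_3, bx1q2_11, bx1q2B, bx1q2B_3, if_pos ht, c0_ h2]
  all_goals (first | rfl | ring)
theorem erxq2B {a1 y a3 : ℝ} (h1 : 23093 / 20000 < y) (h2 : 1 ≤ 3 / 4 * y ^ 2) : rxq2.v a1 y a3 = rxq2B.v a1 y a3 := by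
  have hr0 : ¬ (y - ((23093 : ℕ) : ℝ) / ((20000 : ℕ) : ℝ) ≤ 0) := by
    push_cast
    linarith
  simp only [rxq2, rxq2_73, rxq2_75, rxq2B, rxq2B_69, if_neg hr0, ecv1pB h1 h2, ecv2pB h1 h2, ecv3pB h1 h2, ecv4pB h1 h2, elm4pB h1 h2, ebx4q2B h1 h2, elm3pB h1 h2, ebx3q2B h1 h2, elm2pB h1 h2, ebx2q2B h1 h2, elm1pB h1 h2, ebx1q2B h1 h2, elm0pB h1 h2, c0_ h2]
  all_goals (first | rfl | ring)
theorem erlq2B {a1 y a3 : ℝ} (h1 : 23093 / 20000 < y) (h2 : 1 ≤ 3 / 4 * y ^ 2) : rlq2.v a1 y a3 = rlq2B.v a1 y a3 := by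
  simp only [rlq2, rlq2B, erxq2B h1 h2]
  all_goals (first | rfl | ring)
theorem pA_ (x : ℝ) : ∀ X y, ww.ym.v < y → 3 / 4 * y ^ 2 < 1 →
    (pcB 2).K.v X y x = ww.AK.v X (c1n y) y x ∧ (pcB 2).L.v X y x = ww.AL.v X (c1n y) y x := by
  intro X y h1 h2
  have em : ww.ym.v = 23093 / 20000 := by
    show (Cn.rt 23093 20000).v = _
    rw [Cn.rt_v]
    norm_num
  rw [em] at h1
  rw [← c1g_v]
  exact ⟨ersbq2A h1 h2, erlq2A h1 h2⟩
theorem pB_ (x : ℝ) : ∀ X y, ww.ym.v < y → 1 ≤ 3 / 4 * y ^ 2 →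
    (pcB 2).K.v X y x = ww.B.K.v X y x ∧ (pcB 2).L.v X y x = ww.B.L.v X y x := by
  intro X y h1 h2
  have em : ww.ym.v = 23093 / 20000 := by
    show (Cn.rt 23093 20000).v = _
    rw [Cn.rt_v]
    norm_num
  rw [em] at h1
  exact ⟨ersbq2B h1 h2, erlq2B h1 h2⟩
theorem ok6 (x : ℝ) : tt.Ok6 ww 1 PP tK tL pcB x where
  hi := rfl
  c2n := by
    show 0 ≤ (Cn.rt 1 20).v
    rw [Cn.rt_v]
    norm_num
  c2h := by
    show (Cn.rt 1 20).v ≤ 1 / 2
    rw [Cn.rt_v]
    norm_num
  fr := fr_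
  b1 := b1_ x
  f2 := f2_
  a2 := a2_ x
  b2 := b2_ x
  pA := pA_ x
  pB := pB_ x
theorem okx6 {x : ℝ} (hx : ((697932185 : ℕ) : ℝ) / S ≤ x) (hx' : x ≤ (((697932185 : ℕ) : ℝ) + (42949674 : ℕ)) / S) : tt.Ok6 ww 1 PP tK tL pcB x := ok6 x
theorem okx {x : ℝ} (hx : ((697932185 : ℕ) : ℝ) / S ≤ x) (hx' : x ≤ (((697932185 : ℕ) : ℝ) + (42949674 : ℕ)) / S) : tt.Ok PP tK tL x := ok x

end Pool.Agent.Strip051.G.I6500_6900.Tab.St
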