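import Pool.Agent.Strip051.G.I6500_6900.StH
import Pool.Agent.Strip051.G.I6500_6900.StF

/-! # Unit strips 11 (generated) -/

set_option linter.all false
set_option maxRecDepth 100000

namespace Pool.Agent.Strip051.G.I6500_6900.Tab.St.C

open Pool.Agent.Strip051.PB Pool.Agent.Strip051.PB.T Pool.Agent.StripNear Pool.Agent.Strip051.LC
open Pool.Agent.Strip051.G.I6500_6900.Tab Pool.Agent.Strip051.G.I6500_6900.Tab.St

noncomputable def cut_A00pp_001_s1 : Cut := Cut.of [[⟨4, 0, 0, 1449551462⟩]]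

noncomputable def f_A00pp_001_s1 : ℕ → ℕ → ℕ → ℕ → Bool := onCell 0 536870912 0 536870912 697932185 42949674
    (rowF 0 true true true .up 0 0 1 (qsf 0 536870912 0 536870912 1) ndB0q0 ndB0q0 pcB1 cut_A00pp_001_s1 Ext.none)

def k0_A00pp_001_s1 : ∃ t, chk3 f_A00pp_001_s1 t 1 1 1 = true :=
  ⟨(l 4), by decide +kernel⟩

theorem c_A00pp_001_s1 : CertF 0 536870912 0 536870912 697932185 42949674 true true true .up 0 0 1
    ndB0q0 ndB0q0 pcB1 cut_A00pp_001_s1 Ext.none :=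
  certF0 (fam := true) (s1 := true) (s2 := true) (a := 0) (b := 0) (c := 1) (cn := .up) (n1 := ndB0q0) (n2 := ndB0q0) (pc := pcB1) (cut := cut_A00pp_001_s1) (xt := Ext.none) (P1 := 0) (W1 := 536870912) (P2 := 0) (W2 := 536870912) (P3 := 697932185) (W3 := 42949674)
    rfl k0_A00pp_001_s1

theorem s_A00pp_001_s1 {κ x : ℝ} (hκ : κ * h0 = ken x) (hx : ((697932185 : ℕ) : ℝ) / S ≤ x)
    (hx' : x ≤ (((697932185 : ℕ) : ℝ) + (42949674 : ℕ)) / S) :
    AltA (VFD κ) PP tK tL pcB [⟨3, 0, 0, 1449551462⟩] 0 0 1 0 0 (sgb true) (sgb true) x :=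
  strip_altAD (m := 1449551462) true rfl hκ (SH.κ0 hκ (SH.hx1 hx).le (SH.hx2 hx').le) (SH.hx1 hx).le (SH.hx2 hx') (covB00).cov (covB00).cov hx hx' c_A00pp_001_s1 cutA_nil (noExt_A)

noncomputable def cut_A00pp_001_s3 : Cut := Cut.of [[⟨3, 0, 0, 2845415833⟩]]

noncomputable def f_A00pp_001_s3 : ℕ → ℕ → ℕ → ℕ → Bool := onCell 0 536870912 0 536870912 697932185 42949674
    (rowF 0 true true true .up 0 0 1 (qsf 0 536870912 0 536870912 1) ndB0q0 ndB0q0 pcB1 cut_A00pp_001_s3 Ext.none)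

def k0_A00pp_001_s3 : ∃ t, chk3 f_A00pp_001_s3 t 1 1 1 = true :=
  ⟨(l 4), by decide +kernel⟩

theorem c_A00pp_001_s3 : CertF 0 536870912 0 536870912 697932185 42949674 true true true .up 0 0 1
    ndB0q0 ndB0q0 pcB1 cut_A00pp_001_s3 Ext.none :=
  certF0 (fam := true) (s1 := true) (s2 := true) (a := 0) (b := 0) (c := 1) (cn := .up) (n1 := ndB0q0) (n2 := ndB0q0) (pc := pcB1) (cut := cut_A00pp_001_s3) (xt := Ext.none) (P1 := 0) (W1 := 536870912) (P2 := 0) (W2 := 536870912) (P3 := 697932185) (W3 := 42949674)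
    rfl k0_A00pp_001_s3

theorem s_A00pp_001_s3 {κ x : ℝ} (hκ : κ * h0 = ken x) (hx : ((697932185 : ℕ) : ℝ) / S ≤ x)
    (hx' : x ≤ (((697932185 : ℕ) : ℝ) + (42949674 : ℕ)) / S) :
    AltA (VFD κ) PP tK tL pcB [⟨4, 0, 0, 2845415833⟩] 0 0 1 0 0 (sgb true) (sgb true) x :=
  strip_altAD (m := 2845415833) false rfl hκ (SH.κ0 hκ (SH.hx1 hx).le (SH.hx2 hx').le) (SH.hx1 hx).le (SH.hx2 hx') (covB00).cov (covB00).cov hx hx' c_A00pp_001_s3 cutA_nil (noExt_A)

noncomputable def cut_A00pp_011_s1 : Cut := Cut.of [[⟨4, 0, 0, 1449551462⟩], [⟨0, 0, 0, 67108864⟩, ⟨1, 1, 0, 67108864⟩, ⟨2, 1, 0, 67108864⟩]]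

noncomputable def f_A00pp_011_s1 : ℕ → ℕ → ℕ → ℕ → Bool := onCell 0 536870912 536870912 536870912 697932185 42949674
    (rowF 0 true true true .pnn 0 1 1 (qsf 0 536870912 536870912 536870912 1) ndB0q0 ndB0q1 pcB1 cut_A00pp_011_s1 Ext.none)

def k0_A00pp_011_s1 : ∃ t, chk3 f_A00pp_011_s1 t 1 1 1 = true :=
  ⟨(l 6), by decide +kernel⟩

theorem c_A00pp_011_s1 : CertF 0 536870912 536870912 536870912 697932185 42949674 true true true .pnn 0 1 1
    ndB0q0 ndB0q1 pcB1 cut_A00pp_011_s1 Ext.none :=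
  certF0 (fam := true) (s1 := true) (s2 := true) (a := 0) (b := 1) (c := 1) (cn := .pnn) (n1 := ndB0q0) (n2 := ndB0q1) (pc := pcB1) (cut := cut_A00pp_011_s1) (xt := Ext.none) (P1 := 0) (W1 := 536870912) (P2 := 536870912) (W2 := 536870912) (P3 := 697932185) (W3 := 42949674)
    rfl k0_A00pp_011_s1

theorem s_A00pp_011_s1 {κ x : ℝ} (hκ : κ * h0 = ken x) (hx : ((697932185 : ℕ) : ℝ) / S ≤ x)
    (hx' : x ≤ (((697932185 : ℕ) : ℝ) + (42949674 : ℕ)) / S)
    (H : CutA (VFD κ) PP tK tL pcB (Cut.of [[⟨0, 0, 0, 67108864⟩, ⟨1, 1, 0, 67108864⟩, ⟨2, 1, 0, 67108864⟩]]) 0 1 1 0 0 (sgb true) (sgb true) x) :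
    AltA (VFD κ) PP tK tL pcB [⟨3, 0, 0, 1449551462⟩] 0 1 1 0 0 (sgb true) (sgb true) x :=
  strip_altAD (m := 1449551462) true rfl hκ (SH.κ0 hκ (SH.hx1 hx).le (SH.hx2 hx').le) (SH.hx1 hx).le (SH.hx2 hx') (covB00).cov (covB01).cov hx hx' c_A00pp_011_s1 H (noExt_A)

noncomputable def cut_A00pp_011_s3 : Cut := Cut.of [[⟨3, 0, 0, 2845415833⟩], [⟨0, 0, 0, 67108864⟩, ⟨1, 1, 0, 67108864⟩, ⟨2, 1, 0, 67108864⟩]]

noncomputable def f_A00pp_011_s3 : ℕ → ℕ → ℕ → ℕ → Bool := onCell 0 536870912 536870912 536870912 697932185 42949674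
    (rowF 0 true true true .pnn 0 1 1 (qsf 0 536870912 536870912 536870912 1) ndB0q0 ndB0q1 pcB1 cut_A00pp_011_s3 Ext.none)

def k0_A00pp_011_s3 : ∃ t, chk3 f_A00pp_011_s3 t 1 1 1 = true :=
  ⟨(b (l 4) (a (b (l 4) (a (b (l 4) (a (b (l 4) (a (l 14) (l 4))) (l 4))) (l 4))) (l 4))), by decide +kernel⟩

theorem c_A00pp_011_s3 : CertF 0 536870912 536870912 536870912 697932185 42949674 true true true .pnn 0 1 1
    ndB0q0 ndB0q1 pcB1 cut_A00pp_011_s3 Ext.none :=
  certF0 (fam := true) (s1 := true) (s2 := true) (a := 0) (b := 1) (c := 1) (cn := .pnn) (n1 := ndB0q0) (n2 := ndB0q1) (pc := pcB1) (cut := cut_A00pp_011_s3) (xt := Ext.none) (P1 := 0) (W1 := 536870912) (P2 := 536870912) (W2 := 536870912) (P3 := 697932185) (W3 := 42949674)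
    rfl k0_A00pp_011_s3

theorem s_A00pp_011_s3 {κ x : ℝ} (hκ : κ * h0 = ken x) (hx : ((697932185 : ℕ) : ℝ) / S ≤ x)
    (hx' : x ≤ (((697932185 : ℕ) : ℝ) + (42949674 : ℕ)) / S)
    (H : CutA (VFD κ) PP tK tL pcB (Cut.of [[⟨0, 0, 0, 67108864⟩, ⟨1, 1, 0, 67108864⟩, ⟨2, 1, 0, 67108864⟩]]) 0 1 1 0 0 (sgb true) (sgb true) x) :
    AltA (VFD κ) PP tK tL pcB [⟨4, 0, 0, 2845415833⟩] 0 1 1 0 0 (sgb true) (sgb true) x :=
  strip_altAD (m := 2845415833) false rfl hκ (SH.κ0 hκ (SH.hx1 hx).le (SH.hx2 hx').le) (SH.hx1 hx).le (SH.hx2 hx') (covB00).cov (covB01).cov hx hx' c_A00pp_011_s3 H (noExt_A)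

noncomputable def cut_A00pp_012_s1 : Cut := Cut.of [[⟨4, 0, 0, 1449551462⟩], [⟨0, 0, 0, 67108864⟩, ⟨1, 1, 0, 67108864⟩, ⟨2, 1, 0, 67108864⟩]]

noncomputable def f_A00pp_012_s1 : ℕ → ℕ → ℕ → ℕ → Bool := onCell 0 536870912 536870912 536870912 697932185 42949674
    (rowF 0 true true true .pnp 0 1 2 (qsf 0 536870912 536870912 536870912 2) ndB0q0 ndB0q1 pcB2 cut_A00pp_012_s1 Ext.none)

def k0_A00pp_012_s1 : ∃ t, chk3 f_A00pp_012_s1 t 1 1 1 = true :=
  ⟨(l 6), by decide +kernel⟩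

theorem c_A00pp_012_s1 : CertF 0 536870912 536870912 536870912 697932185 42949674 true true true .pnp 0 1 2
    ndB0q0 ndB0q1 pcB2 cut_A00pp_012_s1 Ext.none :=
  certF0 (fam := true) (s1 := true) (s2 := true) (a := 0) (b := 1) (c := 2) (cn := .pnp) (n1 := ndB0q0) (n2 := ndB0q1) (pc := pcB2) (cut := cut_A00pp_012_s1) (xt := Ext.none) (P1 := 0) (W1 := 536870912) (P2 := 536870912) (W2 := 536870912) (P3 := 697932185) (W3 := 42949674)
    rfl k0_A00pp_012_s1

theorem s_A00pp_012_s1 {κ x : ℝ} (hκ : κ * h0 = ken x) (hx : ((697932185 : ℕ) : ℝ) / S ≤ x)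
    (hx' : x ≤ (((697932185 : ℕ) : ℝ) + (42949674 : ℕ)) / S)
    (H : CutA (VFD κ) PP tK tL pcB (Cut.of [[⟨0, 0, 0, 67108864⟩, ⟨1, 1, 0, 67108864⟩, ⟨2, 1, 0, 67108864⟩]]) 0 1 2 0 0 (sgb true) (sgb true) x) :
    AltA (VFD κ) PP tK tL pcB [⟨3, 0, 0, 1449551462⟩] 0 1 2 0 0 (sgb true) (sgb true) x :=
  strip_altAD (m := 1449551462) true rfl hκ (SH.κ0 hκ (SH.hx1 hx).le (SH.hx2 hx').le) (SH.hx1 hx).le (SH.hx2 hx') (covB00).cov (covB01).cov hx hx' c_A00pp_012_s1 H (noExt_A)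

noncomputable def cut_A00pp_012_s3 : Cut := Cut.of [[⟨3, 0, 0, 2845415833⟩], [⟨0, 0, 0, 67108864⟩, ⟨1, 1, 0, 67108864⟩, ⟨2, 1, 0, 67108864⟩]]

noncomputable def f_A00pp_012_s3 : ℕ → ℕ → ℕ → ℕ → Bool := onCell 0 536870912 536870912 536870912 697932185 42949674
    (rowF 0 true true true .pnp 0 1 2 (qsf 0 536870912 536870912 536870912 2) ndB0q0 ndB0q1 pcB2 cut_A00pp_012_s3 Ext.none)

def k0_A00pp_012_s3 : ∃ t, chk3 f_A00pp_012_s3 t 1 1 1 = true :=
  ⟨(b (l 4) (a (a (a (b (l 1) (a (b (l 1) (b (l 4) (l 14))) (l 4))) (l 4)) (l 4)) (l 4))), by decide +kernel⟩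

theorem c_A00pp_012_s3 : CertF 0 536870912 536870912 536870912 697932185 42949674 true true true .pnp 0 1 2
    ndB0q0 ndB0q1 pcB2 cut_A00pp_012_s3 Ext.none :=
  certF0 (fam := true) (s1 := true) (s2 := true) (a := 0) (b := 1) (c := 2) (cn := .pnp) (n1 := ndB0q0) (n2 := ndB0q1) (pc := pcB2) (cut := cut_A00pp_012_s3) (xt := Ext.none) (P1 := 0) (W1 := 536870912) (P2 := 536870912) (W2 := 536870912) (P3 := 697932185) (W3 := 42949674)
    rfl k0_A00pp_012_s3

theorem s_A00pp_012_s3 {κ x : ℝ} (hκ : κ * h0 = ken x) (hx : ((697932185 : ℕ) : ℝ) / S ≤ x)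
    (hx' : x ≤ (((697932185 : ℕ) : ℝ) + (42949674 : ℕ)) / S)
    (H : CutA (VFD κ) PP tK tL pcB (Cut.of [[⟨0, 0, 0, 67108864⟩, ⟨1, 1, 0, 67108864⟩, ⟨2, 1, 0, 67108864⟩]]) 0 1 2 0 0 (sgb true) (sgb true) x) :
    AltA (VFD κ) PP tK tL pcB [⟨4, 0, 0, 2845415833⟩] 0 1 2 0 0 (sgb true) (sgb true) x :=
  strip_altAD (m := 2845415833) false rfl hκ (SH.κ0 hκ (SH.hx1 hx).le (SH.hx2 hx').le) (SH.hx1 hx).le (SH.hx2 hx') (covB00).cov (covB01).cov hx hx' c_A00pp_012_s3 H (noExt_A)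

noncomputable def cut_A00pp_022_s1 : Cut := Cut.of [[⟨4, 0, 0, 1449551462⟩], [⟨0, 0, 0, 53687091⟩, ⟨1, 1, 0, 53687091⟩, ⟨2, 1, 0, 53687091⟩]]

noncomputable def f_A00pp_022_s1 : ℕ → ℕ → ℕ → ℕ → Bool := onCell 0 536870912 0 536870912 697932185 42949674
    (rowF 0 true true true .pp 0 2 2 (qsf 0 536870912 0 536870912 2) ndB0q0 ndB0q2 pcB2 cut_A00pp_022_s1 Ext.none)

def k0_A00pp_022_s1 : ∃ t, chk3 f_A00pp_022_s1 t 1 1 1 = true :=
  ⟨(l 6), by decide +kernel⟩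

theorem c_A00pp_022_s1 : CertF 0 536870912 0 536870912 697932185 42949674 true true true .pp 0 2 2
    ndB0q0 ndB0q2 pcB2 cut_A00pp_022_s1 Ext.none :=
  certF0 (fam := true) (s1 := true) (s2 := true) (a := 0) (b := 2) (c := 2) (cn := .pp) (n1 := ndB0q0) (n2 := ndB0q2) (pc := pcB2) (cut := cut_A00pp_022_s1) (xt := Ext.none) (P1 := 0) (W1 := 536870912) (P2 := 0) (W2 := 536870912) (P3 := 697932185) (W3 := 42949674)
    rfl k0_A00pp_022_s1

theorem s_A00pp_022_s1 {κ x : ℝ} (hκ : κ * h0 = ken x) (hx : ((697932185 : ℕ) : ℝ) / S ≤ x)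
    (hx' : x ≤ (((697932185 : ℕ) : ℝ) + (42949674 : ℕ)) / S)
    (H : CutA (VFD κ) PP tK tL pcB (Cut.of [[⟨0, 0, 0, 53687091⟩, ⟨1, 1, 0, 53687091⟩, ⟨2, 1, 0, 53687091⟩]]) 0 2 2 0 0 (sgb true) (sgb true) x) :
    AltA (VFD κ) PP tK tL pcB [⟨3, 0, 0, 1449551462⟩] 0 2 2 0 0 (sgb true) (sgb true) x :=
  strip_altAD (m := 1449551462) true rfl hκ (SH.κ0 hκ (SH.hx1 hx).le (SH.hx2 hx').le) (SH.hx1 hx).le (SH.hx2 hx') (covB00).cov (covB02).cov hx hx' c_A00pp_022_s1 H (noExt_A)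

noncomputable def cut_A00pp_022_s3 : Cut := Cut.of [[⟨3, 0, 0, 2845415833⟩], [⟨0, 0, 0, 53687091⟩, ⟨1, 1, 0, 53687091⟩, ⟨2, 1, 0, 53687091⟩]]

noncomputable def xt_A00pp_022_s3 : Ext := strExt6 dd true true true .u0 .u2 .s2 .pp 0 2 2 rfl rfl gl2 vv ww ndB0q0 ndB0q2

noncomputable def f_A00pp_022_s3 : ℕ → ℕ → ℕ → ℕ → Bool := onCell 1073741824 536870912 0 536870912 697932185 42949674
    (rowF 2 true true true .pp 0 2 2 (qsf 0 536870912 0 536870912 2) ndB0q0 ndB0q2 pcB2 cut_A00pp_022_s3 xt_A00pp_022_s3)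

def k0_A00pp_022_s3 : ∃ t, chk3 f_A00pp_022_s3 t 2 2 1 = true :=
  ⟨(a (l 6) (b (l 6) (b (l 6) (b (l 6) (a (l 6) (a (a (l 6) (b (l 6) (c (l 16575192) (l 16574496)))) (a (b (b (l 6) (l 16576264)) (l 16629952)) (b (l 16585544) (l 16643120))))))))), by decide +kernel⟩

def k1_A00pp_022_s3 : ∃ t, chk3 f_A00pp_022_s3 t 8 6 1 = true :=
  ⟨(l 1), by decide +kernel⟩

def k2_A00pp_022_s3 : ∃ t, chk3 f_A00pp_022_s3 t 9 12 1 = true :=
  ⟨(a (l 1) (b (l 6) (b (l 6) (b (a (l 6) (a (l 6) (c (l 16579056) (l 16578408)))) (a (l 6) (a (a (l 16576832) (l 16581112)) (c (l 16587776) (l 16586672)))))))), by decide +kernel⟩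

def k3_A00pp_022_s3 : ∃ t, chk3 f_A00pp_022_s3 t 18 13 1 = true :=
  ⟨(b (a (l 1) (a (b (l 1) (a (l 1) (b (l 1) (a (l 1) (b (l 1) (l 16582728)))))) (b (a (l 1) (b (l 1) (a (l 16569680) (l 16582648)))) (a (b (a (l 16573656) (b (l 16573904) (l 16578472))) (a (l 16582928) (l 16585448))) (b (a (l 16578696) (l 16581152)) (l 16589144)))))) (a (a (l 1) (b (a (l 1) (b (l 1) (a (l 1) (l 16589392)))) (a (b (l 16593240) (a (b (l 16600272) (l 16606080)) (b (l 16603000) (l 16608784)))) (b (a (b (l 16594592) (l 16600064)) (b (l 16597272) (l 16602728))) (l 16609888))))) (b (a (a (b (a (l 1) (l 16584728)) (a (b (l 16589496) (l 16594632)) (l 16594680))) (b (a (b (l 16584920) (l 16589768)) (l 16589904)) (l 16598544))) (b (a (l 16593688) (l 16598600)) (a (l 16603560) (l 16608440)))) (b (a (a (l 16603928) (l 16609048)) (a (l 16614024) (l 16618864))) (a (a (l 16615088) (l 16620144)) (c (l 16628832) (l 16626112))))))), by decide +kernel⟩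

def k4_A00pp_022_s3 : ∃ t, chk3 f_A00pp_022_s3 t 19 13 1 = true :=
  ⟨(a (b (a (b (a (b (l 6) (l 16575808)) (b (l 16571800) (l 16580528))) (b (a (l 16584760) (l 16589456)) (a (l 16593944) (l 16598608)))) (b (b (a (l 16576432) (l 16580920)) (a (l 16585120) (l 16589592))) (b (a (l 16594016) (l 16598464)) (a (l 16603144) (l 16607584))))) (a (a (b (b (l 16603368) (l 16613184)) (b (l 16623584) (l 16634576))) (b (b (l 16608016) (l 16617816)) (b (l 16628192) (l 16639160)))) (b (b (a (l 16612544) (l 16616976)) (a (l 16622336) (l 16626768))) (b (c (l 16635968) (l 16633840)) (c (l 16646904) (l 16644824)))))) (b (b (a (a (b (l 16585296) (l 16593936)) (a (l 16592832) (l 16594936))) (c (b (l 16596296) (l 16604944)) (b (l 16595096) (l 16603712)))) (a (a (b (l 16602800) (l 16611920)) (b (l 16607040) (l 16616168))) (b (c (l 16613840) (l 16612560)) (l 16622384)))) (a (b (b (a (l 16621320) (l 16625576)) (c (l 16634144) (l 16632328)))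 (b (c (l 16644536) (l 16642704)) (c (l 16655488) (l 16653688)))) (b (b (l 16631832) (c (l 16647664) (l 16640904))) (b (c (l 16652864) (l 16651320)) (c (l 16663864) (l 16662328))))))), by decide +kernel⟩

def k5_A00pp_022_s3 : ∃ t, chk3 f_A00pp_022_s3 t 8 14 1 = true :=
  ⟨(a (l 1) (b (a (l 1) (a (l 1) (b (l 1) (a (b (l 1) (a (l 16632608) (b (l 16631888) (l 16638976)))) (b (a (l 16624336) (b (l 16623752) (l 16630528))) (l 16639584)))))) (a (b (l 1) (l 14)) (b (b (a (a (l 1) (a (l 16641440) (b (l 16640584) (l 16647952)))) (a (l 16648448) (l 16653904))) (a (a (b (l 16658888) (a (l 14) (l 16657480))) (l 16657848)) (a (l 16663320) (l 16668672)))) (b (a (a (l 16667800) (l 16673280)) (a (l 16678648) (l 16683896))) (a (a (l 16689048) (l 16689176)) (a (l 16694432) (l 16699584)))))))), by decide +kernel⟩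

def k6_A00pp_022_s3 : ∃ t, chk3 f_A00pp_022_s3 t 8 30 1 = true :=
  ⟨(a (l 14) (b (b (a (l 14) (a (a (c (l 16711728) (l 16704536)) (c (l 16706424) (l 16709872))) (a (c (l 16721992) (l 16720344)) (a (l 16714496) (l 16717000))))) (a (l 14) (a (a (b (l 16712912) (a (l 14) (l 16722792))) (b (l 16718088) (a (l 16725352) (l 16727896)))) (a (b (l 16723176) (a (l 16730416) (l 16732920))) (b (l 16733424) (a (l 16735400) (l 16737856))))))) (a (l 14) (a (b (a (a (l 14) (b (l 16731496) (l 16740352))) (b (a (l 16734040) (l 16736560)) (a (l 16748112) (l 16750608)))) (a (a (l 14) (a (l 14) (b (l 16749960) (b (l 16756776) (l 16761368))))) (b (a (b (l 16749568) (l 16754088)) (b (l 16752056) (l 16759176))) (a (b (c (l 16758872) (l 16758392)) (a (l 16765216) (l 1063896591))) (b (c (l 16763920) (l 16763504)) (a (l 1063910415) (l 1063923727))))))) (b (a (b (a (l 16739056) (l 16741536)) (a (b (l 16745632) (l 16750056)) (c (l 16750640)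 (l 16749960)))) (a (b (l 16744000) (b (l 16750536) (l 16754944))) (b (l 16751688) (b (l 16752968) (l 16759992))))) (b (b (a (a (l 16754512) (l 16759584)) (a (l 1065694735) (l 1064646159))) (a (a (c (l 16759240) (l 16758776)) (c (l 16764264) (l 16763864))) (a (l 1064589327) (l 1064077327)))) (b (a (a (a (l 16765544) (l 1063980047)) (l 1065069583)) (a (l 1064021007) (l 1064045583))) (a (a (a (l 1063936527) (l 1063949327)) (l 1064502287)) (a (l 1063990287) (l 1064013839)))))))))), by decide +kernel⟩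

def k7_A00pp_022_s3 : ∃ t, chk3 f_A00pp_022_s3 t 8 31 1 = true :=
  ⟨(a (l 14) (a (l 14) (b (b (b (b (a (a (a (l 14) (a (l 14) (l 1063839759))) (a (a (l 1063853583) (l 1063867407)) (a (l 1063880719) (l 1063894031)))) (a (a (l 1064983567) (l 1063934991)) (a (l 1063959055) (l 1063982607)))) (a (a (a (l 14) (a (l 14) (l 1063811599))) (a (a (l 1063824911) (l 1063838223)) (a (l 1063851535) (l 1063864335)))) (a (a (l 1063880207) (l 1063904783)) (l 4)))) (a (b (a (a (l 14) (a (l 14) (l 1063783439))) (a (a (l 1063796751) (l 1063809551)) (l 1064362511))) (a (a (l 14) (a (l 14) (l 1063755279))) (l 4))) (l 4))) (l 4)) (l 4)))), by decide +kernel⟩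

def k8_A00pp_022_s3 : ∃ t, chk3 f_A00pp_022_s3 t 9 56 1 = true :=
  ⟨(b (a (a (a (a (l 1) (a (b (l 1) (l 16612696)) (b (l 16609312) (l 16615432)))) (a (l 16611176) (l 16621696))) (a (a (l 16626832) (l 16631832)) (a (l 16636720) (l 16641488)))) (a (a (b (l 16645480) (l 16651408)) (c (l 16658392) (l 16656400))) (a (c (l 16666992) (l 16665264)) (a (l 16672576) (l 16676808))))) (a (a (a (a (a (b (l 1) (l 16619912)) (b (l 16616232) (l 16622680))) (l 16618304)) (a (l 16628880) (l 16634080))) (a (a (l 16639152) (l 16644096)) (b (l 16648192) (l 16654432)))) (a (a (b (l 16657472) (l 16663680)) (a (l 16667304) (l 16671720))) (a (c (l 16679048) (l 16677424)) (a (l 16684704) (l 16688960)))))), by decide +kernel⟩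

def k9_A00pp_022_s3 : ∃ t, chk3 f_A00pp_022_s3 t 18 114 2 = true :=
  ⟨(b (c (a (a (l 16633080) (l 16643344)) (a (l 16653128) (l 16662496))) (b (c (b (a (a (l 16629392) (l 16639832)) (a (l 16649768) (l 16659264))) (c (b (c (a (a (l 16630928) (l 16641312)) (a (l 16651208) (l 16660672))) (a (a (l 16630728) (l 16641136)) (a (l 16651048) (l 16660528)))) (c (b (a (a (l 16631544) (l 16641920)) (a (l 16651808) (l 16661272))) (a (a (l 16631960) (l 16642328)) (a (l 16652216) (l 16661672)))) (b (a (a (l 16631344) (l 16641744)) (a (l 16651648) (l 16661128))) (a (a (l 16631752) (l 16642152)) (a (l 16652056) (l 16661528)))))) (b (a (a (l 16630416) (l 16640856)) (a (l 16650808) (l 16660320))) (c (a (a (l 16631344) (l 16641768)) (a (l 16651696) (l 16661192))) (a (a (l 16631136) (l 16641584)) (a (l 16651536) (l 16661048))))))) (b (c (b (a (a (l 16628360) (l 16638872)) (a (l 16648872) (l 16658440))) (c (a (a (l 16629280) (l 16639776))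 (a (l 16649760) (l 16659304))) (a (a (l 16629072) (l 16639584)) (a (l 16649600) (l 16659160))))) (b (a (a (l 16627936) (l 16638496)) (a (l 16648544) (l 16658144))) (c (a (a (l 16628864) (l 16639400)) (a (l 16649432) (l 16659016))) (a (a (l 16628656) (l 16639216)) (a (l 16649272) (l 16658872)))))) (c (a (a (l 16630416) (l 16640904)) (a (l 16650888) (l 16660432))) (a (a (l 16630000) (l 16640536)) (a (l 16650560) (l 16660144)))))) (a (a (l 16633104) (l 16643536)) (a (l 16653480) (l 16662984))))) (a (a (l 16638920) (l 16649192)) (a (l 16659008) (l 16668408)))), by decide +kernel⟩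

def k10_A00pp_022_s3 : ∃ t, chk3 f_A00pp_022_s3 t 18 114 3 = true :=
  ⟨(b (c (b (c (b (c (b (a (a (l 16627520) (l 16638120)) (a (l 16648216) (l 16657856))) (c (a (a (l 16628448) (l 16639032)) (a (l 16649104) (l 16658728))) (a (a (l 16628240) (l 16638848)) (a (l 16648936) (l 16658584))))) (a (a (l 16627512) (l 16638160)) (a (l 16648288) (l 16657960)))) (a (a (l 16629376) (l 16639976)) (a (l 16650072) (l 16659712)))) (b (c (a (a (l 16627088) (l 16637784)) (a (l 16647952) (l 16657664))) (b (c (a (a (l 16626360) (l 16637088)) (a (l 16647296) (l 16657040))) (a (a (l 16626144) (l 16636896)) (a (l 16647128) (l 16656896)))) (a (a (l 16627080) (l 16637816)) (a (l 16648024) (l 16657776))))) (a (a (l 16628544) (l 16639232)) (a (l 16649408) (l 16659128))))) (a (a (l 16631472) (l 16642080)) (a (l 16652192) (l 16661856)))) (a (a (l 16628128) (l 16638936)) (a (l 16649232) (l 16659056)))) (a (a (l 16635744) (l 16646384)) (a (l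 16656520) (l 16666224)))), by decide +kernel⟩

def k11_A00pp_022_s3 : ∃ t, chk3 f_A00pp_022_s3 t 19 114 1 = true :=
  ⟨(a (a (a (l 16671000) (l 16675520)) (a (l 16679976) (l 16684384))) (a (a (l 16688752) (l 16693088)) (a (l 16697392) (l 16701680)))), by decide +kernel⟩

def k12_A00pp_022_s3 : ∃ t, chk3 f_A00pp_022_s3 t 9 115 1 = true :=
  ⟨(a (a (a (a (l 16645008) (l 16650304)) (a (l 16655472) (l 16660520))) (a (b (l 16664480) (l 16671304)) (b (l 16673984) (l 16680760)))) (a (a (a (l 16684248) (l 16688752)) (a (l 16693200) (l 16697600))) (a (a (l 16701968) (l 16706304)) (a (l 16710632) (l 16720176))))), by decide +kernel⟩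

def k13_A00pp_022_s3 : ∃ t, chk3 f_A00pp_022_s3 t 9 29 1 = true :=
  ⟨(a (a (b (a (b (a (l 16659232) (l 16664432)) (a (l 16673896) (l 16679016))) (b (c (l 16673176) (l 16670840)) (b (l 16682816) (l 16690168)))) (a (b (a (l 16689032) (l 16694064)) (a (l 16704632) (l 16720080))) (b (a (l 16699008) (l 16703856)) (a (l 16724960) (l 16724512))))) (b (a (b (b (l 16678248) (l 16685304)) (a (l 16693760) (l 16698496))) (b (a (l 16688848) (l 16693472)) (a (l 16703152) (l 16707736)))) (a (b (a (l 16708624) (l 16713320)) (a (a (l 16722816) (l 16725160)) (a (l 16727488) (l 16729800)))) (b (a (l 16717944) (l 16732992)) (b (a (l 16729352) (l 16733896)) (a (l 16737128) (l 16746904))))))) (a (b (a (b (a (l 16698008) (l 16702488)) (a (l 16712256) (l 16716720))) (b (a (l 16706920) (l 16711320)) (a (l 16721144) (l 16730792)))) (a (b (a (l 16732248) (l 16736696)) (a (b (l 16738384) (l 16751384)) (b (l 16748072) (l 1064917519)))) (b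 (a (b (l 16732136) (l 16739632)) (b (l 16736536) (l 16749280))) (a (b (l 16752496) (l 1064945679)) (b (l 1065039887) (l 1064977935)))))) (b (a (b (a (l 16715696) (l 16725296)) (a (b (l 16726304) (l 16733552)) (b (l 16730664) (l 16737912)))) (b (a (l 16729624) (l 1067103759)) (a (l 1066417679) (l 1065910799)))) (a (a (b (b (l 16740920) (l 1065134095)) (l 1065574415)) (b (l 1065729039) (l 1066681359))) (a (b (l 1065760271) (l 1065102863)) (b (l 1065254415) (l 1065133583))))))), by decide +kernel⟩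

def k14_A00pp_022_s3 : ∃ t, chk3 f_A00pp_022_s3 t 18 15 1 = true :=
  ⟨(b (a (b (a (b (a (c (l 16726640) (l 16725280)) (a (l 16734888) (l 16737312))) (b (a (l 16738344) (a (l 16736736) (l 16739144))) (a (a (l 16740304) (l 16742728)) (a (l 16745136) (l 16752768))))) (b (a (a (l 16734480) (l 16736864)) (b (l 16731136) (l 16744464))) (a (b (a (l 16741528) (l 16743904)) (a (b (l 16747792) (l 16752008)) (b (l 16750152) (l 16754368)))) (a (b (l 16746256) (l 1065526287)) (b (l 16753840) (l 1064472591)))))) (a (b (b (a (a (c (l 16749216) (l 16748512)) (c (l 16751592) (l 16750952))) (a (a (l 16758312) (l 16759504)) (b (l 16753896) (l 16760816)))) (a (a (b (l 16755384) (l 1064166415)) (b (l 16760400) (l 1064189967))) (a (b (l 1064246287) (l 1064212495)) (l 1065858575)))) (b (a (a (b (l 1064133135) (l 1064100879)) (b (l 1064156687) (l 1064123919))) (a (l 1065768975) (l 1064717327))) (a (a (b (l 1064068623) (l 1064036879))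 (l 1065144847)) (a (l 1064629775) (l 1064113679))))) (a (b (a (b (l 1066486287) (l 1064805903)) (b (l 1064897039) (l 1064289807))) (b (a (l 1064201231) (l 1064221199)) (l 4))) (a (b (b (l 1064380431) (l 1064309775)) (b (l 1064240143) (l 4))) (b (b (l 1064399887) (l 1064328719)) (l 4)))))) (b (a (b (b (a (l 16735832) (l 16745704)) (a (a (l 16742728) (l 16745048)) (a (l 16747360) (l 16749648)))) (b (a (a (l 16756168) (l 1064583183)) (a (l 1064601103) (l 1064618511))) (a (a (l 1064492047) (l 1064510479)) (a (l 1064527887) (l 1064544783))))) (b (a (b (l 16750280) (a (l 16757176) (l 1064718863))) (b (l 1066412559) (l 1065808911))) (a (b (a (l 1064634895) (l 1064650255)) (l 1066174479)) (b (l 1066277903) (l 1065130511))))) (b (b (a (a (a (l 1064418831) (l 1064436751)) (l 1066067471)) (a (l 1065025551) (l 1064517647))) (a (a (a (l 1064346639) (l 1064364047)) (l 1064920591)) (l 4))) (l 4)))) (l 4)), by decide +kernel⟩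

def k15_A00pp_022_s3 : ∃ t, chk3 f_A00pp_022_s3 t 19 15 1 = true :=
  ⟨(b (b (b (b (a (a (a (l 1064827407) (l 1064849423)) (a (l 1064882191) (l 1064916495))) (a (a (l 1064950287) (l 1064983055)) (l 1065024015))) (a (a (a (l 1064760335) (l 1064785423)) (a (l 1064819727) (l 1064854543))) (a (a (l 1064888847) (l 4)) (l 4)))) (a (a (a (b (l 1066296847) (l 1065695247)) (b (l 1064721423) (l 1064656911))) (a (l 1066867727) (l 1065829903))) (l 4))) (l 4)) (l 4)), by decide +kernel⟩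

def k16_A00pp_022_s3 : ∃ t, chk3 f_A00pp_022_s3 t 20 6 1 = true :=
  ⟨(a (a (b (b (l 6) (b (l 6) (c (b (l 16582584) (l 16591552)) (l 16587848)))) (b (b (a (b (l 16600376) (l 16610280)) (b (l 16602376) (l 16612408))) (b (a (l 16619272) (l 16622912)) (l 16630448))) (b (b (l 16639968) (l 16649912)) (b (a (l 16658352) (l 16662456)) (a (l 16669400) (l 16673552)))))) (b (a (b (l 6) (b (l 6) (b (l 16590896) (a (l 16594304) (l 16595312))))) (b (l 6) (b (c (l 16574328) (l 16574592)) (b (l 16587576) (l 16602096))))) (b (b (c (a (b (l 16604248) (l 16603872)) (b (l 16606496) (l 16616720))) (c (l 16605512) (l 16611096))) (c (b (l 16626152) (l 16637232)) (b (l 16626776) (l 16637904)))) (b (b (l 16647928) (l 16657976)) (b (l 16668584) (l 16679744)))))) (a (a (b (b (l 6) (b (c (l 16576264) (l 16576328)) (b (l 16589584) (l 16598976)))) (b (b (a (b (l 16608304) (l 16618648)) (b (l 16609440) (l 16619840))) (b (l 16630088) (l 16641384)))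 (b (c (l 16653576) (l 16658504)) (b (l 16674648) (l 16685880))))) (b (b (l 6) (b (c (l 16588760) (l 16578144)) (b (l 16591672) (l 16601176)))) (b (c (b (b (l 16611208) (l 16621640)) (b (l 16632528) (l 16633368))) (b (b (l 16611248) (l 16621776)) (l 16638496))) (b (c (l 16656416) (l 16662232)) (b (l 16678664) (l 16689920)))))) (b (b (l 6) (b (c (a (l 16590848) (l 16593008)) (l 16581024)) (a (b (l 16593832) (l 16608688)) (b (l 16606552) (l 16611024))))) (b (c (a (b (b (l 16613664) (l 16624192)) (b (l 16635184) (l 16646608))) (b (b (l 16616176) (l 16626808)) (b (l 16637888) (l 16649416)))) (b (b (l 16614720) (l 16625408)) (b (l 16626080) (l 16648176)))) (b (b (c (l 16659912) (l 16660224)) (l 16672320)) (b (l 16684608) (l 16695920))))))), by decide +kernel⟩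

def k17_A00pp_022_s3 : ∃ t, chk3 f_A00pp_022_s3 t 21 6 2 = true :=
  ⟨(b (b (a (b (l 6) (a (c (l 16568320) (l 16567696)) (a (l 16571216) (a (l 16572888) (l 16574328))))) (b (a (l 6) (l 16568184)) (a (l 16589288) (l 16585856)))) (a (a (a (b (l 16595240) (b (l 16598712) (l 16608496))) (b (l 16597544) (b (l 16601160) (l 16611032)))) (b (a (l 16599912) (a (l 16591240) (l 16592736))) (a (b (l 16603672) (l 16613640)) (a (c (l 16616184) (l 16610328)) (b (l 16607128) (l 16617200)))))) (b (a (a (l 16605936) (l 16599040)) (c (l 16604688) (l 16604112))) (a (b (l 16622160) (a (l 16619944) (l 16623584))) (b (l 16618872) (l 16629000)))))) (b (a (b (a (a (b (l 16618752) (l 16629480)) (b (l 16621392) (l 16632208))) (a (b (l 16624088) (l 16635000)) (b (a (l 16626152) (l 16627752)) (a (l 16637136) (l 16638768))))) (a (b (c (l 16642184) (l 16641976)) (c (l 16653800) (l 16653680))) (b (a (l 16646376) (a (l 16648584) (l 16650240)))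 (a (l 16658184) (a (l 16660464) (l 16662144)))))) (b (a (b (c (l 16632584) (l 16632104)) (c (l 16643584) (l 16643176))) (b (l 16639608) (l 16650680))) (a (b (l 16654864) (l 16666784)) (b (l 16662208) (l 16674168))))) (a (b (a (b (b (l 16662752) (l 16668896)) (l 16678240)) (a (b (l 16670424) (l 16682976)) (b (a (l 16672768) (l 16674480)) (l 1065109007)))) (a (b (l 16690760) (l 16703376)) (b (l 1066717199) (l 1066159631)))) (b (a (b (l 16684384) (b (l 16688616) (l 16694976))) (b (b (l 16683408) (l 16689696)) (l 1066131983))) (a (b (l 16704568) (l 16717416)) (l 1066905615)))))), by decide +kernel⟩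

def k18_A00pp_022_s3 : ∃ t, chk3 f_A00pp_022_s3 t 21 6 3 = true :=
  ⟨(b (a (a (b (b (l 6) (l 16567040)) (b (l 16585128) (c (l 16614816) (l 16604128)))) (b (b (l 6) (a (l 16569976) (l 16572216))) (b (a (l 16588392) (l 16611784)) (a (l 16607792) (a (l 16609632) (l 16611160)))))) (b (b (a (l 6) (l 16566920)) (a (l 16577552) (l 16584816))) (b (a (l 16596192) (l 16603512)) (a (l 16626312) (l 16633680))))) (b (a (b (a (b (l 16619568) (l 16630464)) (a (l 16628872) (a (l 16630872) (l 16632464)))) (a (b (l 16641832) (l 16653648)) (a (a (l 16656448) (l 16652632)) (a (l 16654072) (l 16660968))))) (b (a (b (l 16631584) (l 16642752)) (b (l 16638992) (l 16650176))) (a (b (l 16654392) (l 16666480)) (b (l 16661832) (l 16673944))))) (a (b (a (b (l 16644936) (l 16678472)) (b (a (l 16670336) (l 1065113615)) (l 1066737679))) (a (b (l 16691096) (l 16703560)) (a (l 16702280) (l 1066166287)))) (a (b (b (b (l 16675816) (l 16682176)) (l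 1066158607)) (l 1067216911)) (b (b (l 1066141199) (l 16699320)) (l 1066126351)))))), by decide +kernel⟩

def k19_A00pp_022_s3 : ∃ t, chk3 f_A00pp_022_s3 t 11 12 1 = true :=
  ⟨(b (b (a (a (a (l 16595408) (l 16581344)) (c (l 16612936) (l 16633336))) (a (c (l 16626312) (b (l 16600680) (l 16609680))) (c (l 16639624) (l 16618760)))) (a (a (a (l 16613288) (l 16620288)) (a (l 16606272) (l 16634168))) (a (a (l 16630592) (a (l 16646248) (l 16649696))) (a (l 16654872) (l 16661776))))) (b (a (a (c (a (l 16621928) (l 16618456)) (a (l 16610736) (l 16617904))) (c (a (l 16625448) (l 16632432)) (b (l 16644696) (l 16643920)))) (b (a (a (l 16634344) (l 1066573327)) (a (l 16648368) (l 16676376))) (a (a (l 16654640) (c (l 16651304) (l 16651288))) (a (l 16668816) (l 1066418703))))) (b (a (a (a (l 16636104) (l 16632776)) (a (l 16639920) (l 16657544))) (c (a (a (l 16654328) (l 16671904)) (a (c (l 16679064) (l 16678992)) (l 16680920)))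 (a (l 16668264) (a (l 16668616) (l 16675872))))) (a (a (a (c (l 16636168) (l 16635592)) (l 16653512)) (a (l 16655464) (c (l 16657592) (l 16657344)))) (b (a (a (l 16672440) (c (l 16669232) (l 16669192))) (a (l 1066255887) (l 1066220559))) (a (a (c (l 16667408) (l 16667272)) (c (l 16674600) (l 16685048))) (a (l 1066135055) (l 1066164751)))))))), by decide +kernel⟩

def k20_A00pp_022_s3 : ∃ t, chk3 f_A00pp_022_s3 t 11 13 1 = true :=
  ⟨(a (b (a (b (a (c (b (l 16646824) (l 16657944)) (b (l 16646320) (l 16657536))) (c (b (l 16654016) (l 16665184)) (b (l 16653616) (l 16664864)))) (a (b (c (l 16669512) (l 16669216)) (c (l 16686752) (l 16686592))) (a (b (l 16674816) (l 16692160)) (b (l 16678488) (l 1066099215))))) (b (a (c (b (l 16661216) (l 16672432)) (b (l 16660904) (l 16672200))) (a (b (l 16666448) (l 16682992)) (b (l 16670072) (l 16686648)))) (a (a (b (l 16687400) (l 1066079759)) (b (l 16691072) (l 1066059791))) (a (b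 (l 1066093071) (l 1066039311)) (b (l 1066073103) (l 1066017295)))))) (a (b (a (b (a (l 1066123791) (l 1066106895)) (l 1066102799)) (b (l 1066177039) (l 1066068495))) (a (b (l 1066093583) (l 1066082831)) (a (l 1066064911) (l 1066049551)))) (b (a (b (l 1066171919) (l 1066031631)) (b (l 1065995279) (l 1065990159))) (a (l 1067093007) (l 1065928719))))) (b (a (b (a (a (b (l 16678952) (l 1066125839)) (b (l 1066193423) (l 1066105871))) (a (b (l 1066174991) (l 1066084879)) (b (l 1066155535) (l 1066063375)))) (a (b (c (l 1067116047) (l 1066041359)) (l 1065979919)) (a (b (l 1066006543) (l 1065944591)) (b (l 1065982479) (l 1065917455))))) (b (b (a (a (l 1066136079) (l 1066115599)) (c (a (l 1066093583) (l 1066070543)) (l 1066093071))) (a (a (l 1066040847) (l 1066018319)) (a (l 1065994767) (a (l 1065977359) (l 1065965583))))) (b (a (a (l 1065956879) (l 1065931279)) (a (l 1065904655) (a (l 1065884687) (l 1065870863)))) (a (c (l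 1065867791) (l 1065885711)) (a (l 1065829903) (l 1065798159)))))) (a (a (b (b (l 1065947663) (l 1065943055)) (l 1065836559)) (b (b (l 1065893391) (l 1065888783)) (l 1065743375))) (b (a (b (c (l 1065821711) (l 1065850895)) (l 1065793039)) (b (a (l 1065784335) (l 1066286095)) (l 1065693199))) (a (l 1065650703) (l 1065557007)))))), by decide +kernel⟩

def k21_A00pp_022_s3 : ∃ t, chk3 f_A00pp_022_s3 t 5 7 1 = true :=
  ⟨(a (b (a (b (a (b (a (b (a (l 16681024) (l 16685216)) (a (l 16693208) (l 16697424))) (b (a (l 16689384) (l 1066349583)) (a (l 16706864) (l 1065956367)))) (a (b (a (l 16705936) (l 16715424)) (a (l 16724448) (c (l 16729080) (l 16723024)))) (b (a (l 16719624) (b (l 16715288) (l 16721792))) (a (b (l 16724264) (l 16731016)) (l 1065180175))))) (b (a (b (b (l 16696672) (l 16702680)) (a (l 1065978895) (l 16713976))) (b (c (l 16708008) (l 16707408)) (l 1066558479))) (a (b (b (l 1065894415) (l 1065835535)) (l 1065744399))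 (b (l 1065902607) (l 1065787919))))) (a (b (a (b (a (l 1066595343) (l 1066085903)) (a (l 1065402895) (l 1065431055))) (b (l 1065579535) (a (l 1065457679) (l 1065483279)))) (a (b (a (l 1065283599) (l 1065312271)) (a (l 1065163791) (l 1065192463))) (c (l 1065610767) (l 1065474063)))) (b (a (b (l 1065629199) (l 1063902735)) (l 1066145295)) (a (l 1065329679) (l 1065378831))))) (b (a (b (b (a (l 1066713103) (l 1066152463)) (a (l 1066056719) (l 1066083855))) (b (a (l 1065939471) (l 1065968655)) (a (l 1065826319) (l 1065856527)))) (a (b (c (l 1067152911) (l 1066608143)) (b (l 1065931791) (l 1065821199))) (b (l 1067106319) (b (l 1065870351) (a (l 1065779727) (l 1065751055)))))) (b (a (a (l 1065650191) (l 1065683471)) (a (l 1065651215) (l 4))) (l 4)))) (l 4)) (b (b (a (a (b (a (a (l 1065993743) (l 1066490383)) (b (l 1065947151) (l 1065835023))) (a (b (l 1065803791) (l 1065689615)) (b (l 1065721871) (l 4)))) (b (a (l 1065801743)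 (l 1065716239)) (b (l 1065591823) (l 4)))) (b (a (a (l 1065630223) (l 1065544207)) (l 4)) (l 4))) (l 4)) (l 4))), by decide +kernel⟩

def k22_A00pp_022_s3 : ∃ t, chk3 f_A00pp_022_s3 t 12 2 1 = true :=
  ⟨(b (l 6) (b (b (l 6) (a (l 6) (l 16581832))) (b (a (b (l 16578216) (l 16632744)) (a (l 16642968) (l 16634608))) (a (a (b (l 16598288) (l 16635272)) (b (l 16611072) (l 16648480))) (a (b (l 16622952) (b (l 16635432) (l 16644344))) (b (l 16636136) (a (l 16650112) (l 16657352)))))))), by decide +kernel⟩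

def k23_A00pp_022_s3 : ∃ t, chk3 f_A00pp_022_s3 t 12 12 1 = true :=
  ⟨(a (b (a (a (b (l 16628728) (l 16658216)) (b (l 16656472) (a (l 16652960) (l 16677424)))) (a (b (l 16663280) (l 1067357199)) (b (l 16669464) (l 1067094543)))) (b (b (a (a (l 16672960) (l 16680072)) (a (l 1066400271) (l 1066339343))) (a (a (l 1066389519) (l 1066360847)) (a (l 1066292239) (l 1066230799)))) (a (b (a (c (l 1066266639) (l 16693648)) (c (l 1066231311) (l 1066232335))) (a (c (l 1066148879) (l 1066169871)) (a (l 1066130447) (l 1066113551)))) (b (a (c (l 1066193935) (l 1066150415)) (a (l 1066128911) (l 1066102799))) (a (a (l 1066078223) (l 1066041359)) (a (l 1066008079) (l 1065982479))))))) (b (a (a (b (l 16665512) (b (l 16669648) (l 16690248))) (b (l 16672400) (l 1066421775))) (b (a (l 1066584591) (l 1066592271)) (a (l 1066424335) (l 1066442767)))) (a (b (a (b (l 1066297871) (l 1066191887)) (b (l 1066282511) (l 1066184207))) (a (b (b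 (l 1066106895) (l 1066048015)) (a (l 1065965071) (l 1065824271))) (b (a (l 1066074127) (l 1066081295)) (c (l 1065988623) (l 1065930767))))) (b (a (b (l 1066296847) (l 1066203151)) (b (l 1066320911) (l 1066228751))) (a (b (l 1066096143) (l 1065981967)) (b (l 1066120719) (l 1066003983))))))), by decide +kernel⟩

def k24_A00pp_022_s3 : ∃ t, chk3 f_A00pp_022_s3 t 24 26 1 = true :=
  ⟨(a (b (b (a (c (a (l 1066048015) (l 1066025487)) (l 1066056207)) (c (a (l 1066003471) (l 1065982991)) (l 1066404367))) (b (a (a (l 1065973775) (l 1065951247)) (a (l 1065929231) (l 1065908239))) (a (c (l 1065868303) (l 1065924623)) (c (c (l 1065848847) (l 1065856015)) (l 1065857039))))) (b (c (a (a (l 1065842703) (l 1065814031)) (a (l 1065852431) (c (l 1065755151) (l 1065763855)))) (a (l 1066387983) (a (l 1065795599) (l 1065746447)))) (a (c (a (l 1065756687) (l 1065722895)) (l 1065759247)) (a (b (l 1065724943) (l 1065676303)) (b (a (l 1065694735)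 (l 1065670671)) (l 1066029071)))))) (b (b (a (a (a (l 1065970191) (l 1065950223)) (a (l 1065931279) (l 1065912847))) (b (a (l 1065917967) (l 1065892879)) (a (l 1065858063) (l 1065832975)))) (a (a (b (l 1065871375) (a (l 1065823247) (l 1065802255))) (a (l 1065610255) (l 1065793039))) (a (b (l 1065797647) (l 1065738255)) (b (l 1065774095) (c (l 1065738767) (l 1065683983)))))) (a (a (b (c (c (l 1065729039) (l 1065732111)) (l 1065698831)) (b (l 1065636367) (l 1065578511))) (a (b (l 1065692687) (l 1065574415)) (b (l 1065673231) (l 1065554447)))) (b (a (a (l 1065656335) (b (l 1065672207) (l 1065613839))) (b (a (l 1065662991) (l 1065658895)) (a (l 1065607183) (l 1065606159)))) (a (b (a (l 1065567759) (l 1065557519)) (a (l 1065509391) (l 1065504783))) (b (l 1065554447) (l 1065503759))))))), by decide +kernel⟩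

def k25_A00pp_022_s3 : ∃ t, chk3 f_A00pp_022_s3 t 24 27 1 = true :=
  ⟨(a (b (a (b (b (a (l 1065720847) (l 1065676303)) (l 1066192399)) (a (l 1065618959) (l 1065568271))) (a (b (b (l 1065624079) (l 1065577999)) (l 1065517583)) (b (b (l 1065572367) (l 1065793551)) (l 1065466895)))) (a (b (l 1065507855) (l 4)) (l 4))) (b (b (a (a (b (c (l 1065541135) (l 1065494031)) (b (l 1065483279) (l 1065462287))) (a (b (l 1065486863) (b (a (l 1065451023) (l 1065438735)) (l 1065422863))) (b (a (l 1065470991) (l 1065459727)) (b (a (l 1065427983) (l 1065419791)) (a (l 1065466383) (l 1065395727)))))) (b (a (a (b (l 1065468431) (l 1065442831)) (l 1065454095)) (l 1065453071)) (b (l 1065415183) (l 4)))) (a (b (a (l 1065434639) (a (b (l 1065404943) (l 4)) (l 4))) (l 4)) (l 4))) (l 4))), by decide +kernel⟩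

def k26_A00pp_022_s3 : ∃ t, chk3 f_A00pp_022_s3 t 25 13 1 = true :=
  ⟨(b (a (b (b (a (a (b (l 1065877519) (l 1065820175)) (c (l 1065871375) (l 1065814543))) (a (l 1065852943) (l 1065859087))) (a (a (a (b (l 1065765903) (l 1065711631)) (b (l 1065765391) (l 1065712143))) (a (l 1065739791) (l 1065473039))) (b (c (l 1065792527) (l 1065744399)) (c (l 1065737231) (l 1065691663))))) (a (a (b (l 1065699855) (l 1065529359)) (b (a (l 1065634319) (l 1065635855)) (l 1065530895))) (b (b (a (l 1065664527) (l 1065669135)) (l 1065613327)) (c (l 1065548815) (l 1065509391))))) (b (b (a (a (l 1065866255) (l 1065874447)) (a (l 1065884175) (l 1065894415))) (a (a (b (l 1065783311) (c (l 1065743375) (l 1065703439))) (b (l 1065790991) (a (l 1065734159) (l 1065737743)))) (b (a (l 1065799695) (l 1065808911)) (a (c (l 1065753615) (l 1065722383)) (l 1065752079))))) (b (a (a (c (l 1065660431) (l 1065624079)) (a (b (l 1065679375) (l 1065625615))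 (b (b (l 1065360911) (l 1065669647)) (l 4)))) (b (a (c (b (l 1065711119) (l 1065682447)) (l 1065701903)) (l 4)) (l 4))) (l 4)))) (b (a (b (a (b (l 1065453071) (l 4)) (l 4)) (l 4)) (l 4)) (l 4))), by decide +kernel⟩

def k27_A00pp_022_s3 : ∃ t, chk3 f_A00pp_022_s3 t 12 7 1 = true :=
  ⟨(l 4), by decide +kernel⟩

def k28_A00pp_022_s3 : ∃ t, chk3 f_A00pp_022_s3 t 13 1 1 = true :=
  ⟨(a (b (b (l 6) (b (b (l 16627480) (a (l 16601680) (l 16615952))) (b (a (l 16659096) (b (l 16635128) (l 16691064))) (a (b (l 16650520) (l 1067286543)) (b (l 1066942991) (l 1067293711)))))) (b (b (b (a (b (l 1067148303) (a (l 1066464783) (l 1066487311))) (b (l 1067168271) (l 1067048975))) (a (a (b (a (l 1066297871) (l 1066313231)) (b (l 1066149903) (l 1066030095))) (b (l 1066336271) (b (l 1066183695) (l 1066059791)))) (b (b (l 1066415631) (a (l 1066326543) (l 1066359823))) (b (b (l 1066268175) (l 1066204687)) (l 1066509327))))) (b (c (b (a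 (b (l 1066464271) (a (l 1065798159) (l 1065818127))) (b (l 1066518031) (l 4))) (l 4)) (b (b (a (l 1066106383) (l 1065967119)) (a (a (l 1065778703) (l 1065806863)) (l 4))) (l 4))) (l 4))) (l 4))) (b (b (l 6) (b (b (l 16613928) (a (l 16630440) (l 16644712))) (b (a (b (l 16649472) (l 16705336)) (b (l 16663632) (l 16708888))) (a (b (l 1066946063) (l 1067286031)) (b (a (l 16710880) (l 16717776)) (a (l 1066723855) (l 1066689551))))))) (b (b (b (a (b (a (l 1066636303) (l 1066627599)) (a (l 1066530319) (l 1067062287))) (b (a (l 1066603023) (l 1066561551)) (a (l 1066627599) (b (l 1066480655) (l 1066424847))))) (a (b (a (b (l 1066448911) (l 1066387471)) (b (l 1066444303) (a (l 1066390543) (l 1066379791)))) (b (a (b (l 1066353679) (l 1066272271)) (b (l 1066342415) (l 4))) (a (a (l 1066159119) (l 4)) (l 4)))) (b (a (b (l 1066408463) (l 1066349583)) (b (a (l 1066378255) (l 1066358799)) (c (l 1066339855) (l 1066273807)))) (l 4))))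 (l 4)) (l 4)))), by decide +kernel⟩

def k29_A00pp_022_s3 : ∃ t, chk3 f_A00pp_022_s3 t 14 2 1 = true :=
  ⟨(b (b (l 6) (a (b (l 6) (l 16703992)) (b (l 16627264) (l 16730136)))) (b (b (a (a (l 16634872) (l 16648216)) (b (l 16746312) (l 16737000))) (a (a (l 16700472) (b (l 16665864) (l 16678200))) (b (a (l 16679424) (l 16693360)) (a (l 16692024) (l 16748072))))) (b (a (b (a (l 16677384) (l 16722496)) (a (a (l 16687712) (l 16715496)) (b (l 1067312143) (l 1067126799)))) (a (b (l 1067674127) (b (l 1067379215) (l 1067175951))) (b (a (l 16715688) (l 16743864)) (a (l 1067373583) (b (l 16754304) (l 1067372559)))))) (a (b (a (a (l 1066899983) (l 1066878479)) (b (l 1066946063) (l 1066775055))) (a (a (l 1066380303) (b (l 1066667023) (l 1066561551))) (a (b (l 1066635791) (l 1066520591)) (b (l 1066609679) (l 1066481679))))) (a (a (b (b (l 1066961423) (l 1066769935)) (b (l 1066591759) (b (l 1066476047) (l 1066419215)))) (a (b (l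 1066881039) (b (l 1066588175) (b (l 1066457615) (l 1066390543)))) (b (l 1066899983) (b (l 1066593295) (b (l 1066450959) (l 1066910735)))))) (a (a (b (l 1066927119) (b (l 1066608655) (b (l 1066453519) (b (l 1066381327) (a (l 1066345487) (b (l 1066347535) (l 1066329615))))))) (a (b (l 1066954767) (b (l 1066631183) (b (a (l 1066465807) (l 1066475023)) (c (a (l 1066414607) (b (l 1066447375) (l 1066394127))) (l 1066315791))))) (b (l 1066977807) (b (l 1066653711) (c (b (l 1066550287) (l 1066442255)) (l 1066390031)))))) (b (b (l 1067160079) (c (l 1067555343) (l 1066875919))) (b (a (c (l 1066763279) (l 1066637327)) (l 1066769423)) (c (l 1066577423) (l 1066466319)))))))))), by decide +kernel⟩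

def k30_A00pp_022_s3 : ∃ t, chk3 f_A00pp_022_s3 t 14 3 1 = true :=
  ⟨(b (b (a (b (a (b (a (l 1066518543) (l 1066476559)) (a (b (l 1066439183) (l 1066384911)) (l 1066372623))) (b (c (a (l 1066466831) (l 1066432015)) (l 1066912783)) (c (a (l 1066372623) (l 1066340367)) (l 1066805263)))) (b (a (b (a (l 1066329615) (l 4)) (l 4)) (l 4)) (l 4))) (b (b (b (b (a (c (l 1066679823) (l 1066323983)) (a (a (l 1066318351) (a (b (a (l 1066312207) (b (l 1066309135) (l 4))) (l 4)) (l 4))) (l 4))) (a (c (l 1066390543) (l 1066299407)) (l 4))) (a (a (l 1066331663) (l 1066561039)) (l 4))) (l 4)) (l 4))) (l 4)) (l 4)), by decide +kernel⟩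

def k31_A00pp_022_s3 : ∃ t, chk3 f_A00pp_022_s3 t 15 1 1 = true :=
  ⟨(b (b (b (a (l 16715744) (b (l 16650952) (l 16664600))) (a (b (l 16654232) (l 16757840)) (b (l 16764776) (a (l 16694536) (l 16706448))))) (b (b (a (a (l 16689456) (l 16745568)) (a (l 16758976) (c (l 16771920) (l 16769400)))) (a (b (a (l 16707760) (l 16763976)) (a (c (l 16763808) (l 16761312)) (l 1068702735))) (a (b (l 16766408) (l 1069026831)) (b (l 1069327887) (a (l 1069240847) (l 1069349391)))))) (a (b (b (a (a (l 16751176) (l 1068206607)) (b (l 1068554767) (l 1068395023))) (a (b (l 1067822095) (l 1067609103)) (l 1068074511))) (a (b (l 1067283471) (b (l 1066952719) (b (l 1066785807) (l 4)))) (b (l 1067624975) (l 4)))) (b (a (b (b (l 1068923919) (a (l 1068687375) (l 1068887055))) (a (l 1068364815) (l 1068567567))) (b (a (b (l 1069188111) (l 1069079567)) (a (l 1069271055) (l 1070383119))) (a (l 1068775951) (b (a (l 1069045775) (l 4)) (l 4)))))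 (a (b (a (l 1067905039) (l 4)) (l 4)) (l 4)))))) (b (l 4) (l 4))), by decide +kernel⟩

theorem t32_A00pp_022_s3 : ∃ t, chk3 f_A00pp_022_s3 t 14 1 1 = true := ex3_b k29_A00pp_022_s3 k30_A00pp_022_s3

theorem t33_A00pp_022_s3 : ∃ t, chk3 f_A00pp_022_s3 t 7 1 1 = true := ex3_a t32_A00pp_022_s3 k31_A00pp_022_s3

theorem t34_A00pp_022_s3 : ∃ t, chk3 f_A00pp_022_s3 t 24 13 1 = true := ex3_b k24_A00pp_022_s3 k25_A00pp_022_s3

theorem t35_A00pp_022_s3 : ∃ t, chk3 f_A00pp_022_s3 t 12 13 1 = true := ex3_a t34_A00pp_022_s3 k26_A00pp_022_s3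

theorem t36_A00pp_022_s3 : ∃ t, chk3 f_A00pp_022_s3 t 12 6 1 = true := ex3_b k23_A00pp_022_s3 t35_A00pp_022_s3

theorem t37_A00pp_022_s3 : ∃ t, chk3 f_A00pp_022_s3 t 12 3 1 = true := ex3_b t36_A00pp_022_s3 k27_A00pp_022_s3

theorem t38_A00pp_022_s3 : ∃ t, chk3 f_A00pp_022_s3 t 12 1 1 = true := ex3_b k22_A00pp_022_s3 t37_A00pp_022_s3

theorem t39_A00pp_022_s3 : ∃ t, chk3 f_A00pp_022_s3 t 6 1 1 = true := ex3_a t38_A00pp_022_s3 k28_A00pp_022_s3

theorem t40_A00pp_022_s3 : ∃ t, chk3 f_A00pp_022_s3 t 3 1 1 = true := ex3_a t39_A00pp_022_s3 t33_A00pp_022_s3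

theorem t41_A00pp_022_s3 : ∃ t, chk3 f_A00pp_022_s3 t 11 6 1 = true := ex3_b k19_A00pp_022_s3 k20_A00pp_022_s3

theorem t42_A00pp_022_s3 : ∃ t, chk3 f_A00pp_022_s3 t 21 6 1 = true := ex3_c k17_A00pp_022_s3 k18_A00pp_022_s3

theorem t43_A00pp_022_s3 : ∃ t, chk3 f_A00pp_022_s3 t 10 6 1 = true := ex3_a k16_A00pp_022_s3 t42_A00pp_022_s3

theorem t44_A00pp_022_s3 : ∃ t, chk3 f_A00pp_022_s3 t 5 6 1 = true := ex3_a t43_A00pp_022_s3 t41_A00pp_022_s3

theorem t45_A00pp_022_s3 : ∃ t, chk3 f_A00pp_022_s3 t 5 3 1 = true := ex3_b t44_A00pp_022_s3 k21_A00pp_022_s3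

theorem t46_A00pp_022_s3 : ∃ t, chk3 f_A00pp_022_s3 t 9 15 1 = true := ex3_a k14_A00pp_022_s3 k15_A00pp_022_s3

theorem t47_A00pp_022_s3 : ∃ t, chk3 f_A00pp_022_s3 t 18 114 1 = true := ex3_c k9_A00pp_022_s3 k10_A00pp_022_s3

theorem t48_A00pp_022_s3 : ∃ t, chk3 f_A00pp_022_s3 t 9 114 1 = true := ex3_a t47_A00pp_022_s3 k11_A00pp_022_s3

theorem t49_A00pp_022_s3 : ∃ t, chk3 f_A00pp_022_s3 t 9 57 1 = true := ex3_b t48_A00pp_022_s3 k12_A00pp_022_s3

theorem t50_A00pp_022_s3 : ∃ t, chk3 f_A00pp_022_s3 t 9 28 1 = true := ex3_b k8_A00pp_022_s3 t49_A00pp_022_s3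

theorem t51_A00pp_022_s3 : ∃ t, chk3 f_A00pp_022_s3 t 9 14 1 = true := ex3_b t50_A00pp_022_s3 k13_A00pp_022_s3

theorem t52_A00pp_022_s3 : ∃ t, chk3 f_A00pp_022_s3 t 9 7 1 = true := ex3_b t51_A00pp_022_s3 t46_A00pp_022_s3

theorem t53_A00pp_022_s3 : ∃ t, chk3 f_A00pp_022_s3 t 8 15 1 = true := ex3_b k6_A00pp_022_s3 k7_A00pp_022_s3

theorem t54_A00pp_022_s3 : ∃ t, chk3 f_A00pp_022_s3 t 8 7 1 = true := ex3_b k5_A00pp_022_s3 t53_A00pp_022_s3

theorem t55_A00pp_022_s3 : ∃ t, chk3 f_A00pp_022_s3 t 4 7 1 = true := ex3_a t54_A00pp_022_s3 t52_A00pp_022_s3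

theorem t56_A00pp_022_s3 : ∃ t, chk3 f_A00pp_022_s3 t 9 13 1 = true := ex3_a k3_A00pp_022_s3 k4_A00pp_022_s3

theorem t57_A00pp_022_s3 : ∃ t, chk3 f_A00pp_022_s3 t 9 6 1 = true := ex3_b k2_A00pp_022_s3 t56_A00pp_022_s3

theorem t58_A00pp_022_s3 : ∃ t, chk3 f_A00pp_022_s3 t 4 6 1 = true := ex3_a k1_A00pp_022_s3 t57_A00pp_022_s3

theorem t59_A00pp_022_s3 : ∃ t, chk3 f_A00pp_022_s3 t 4 3 1 = true := ex3_b t58_A00pp_022_s3 t55_A00pp_022_s3

theorem t60_A00pp_022_s3 : ∃ t, chk3 f_A00pp_022_s3 t 2 3 1 = true := ex3_a t59_A00pp_022_s3 t45_A00pp_022_s3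

theorem t61_A00pp_022_s3 : ∃ t, chk3 f_A00pp_022_s3 t 2 1 1 = true := ex3_b k0_A00pp_022_s3 t60_A00pp_022_s3

theorem t62_A00pp_022_s3 : ∃ t, chk3 f_A00pp_022_s3 t 1 1 1 = true := ex3_a t61_A00pp_022_s3 t40_A00pp_022_s3

theorem c_A00pp_022_s3 : CertF 0 536870912 0 536870912 697932185 42949674 true true true .pp 0 2 2
    ndB0q0 ndB0q2 pcB2 cut_A00pp_022_s3 xt_A00pp_022_s3 :=
  certF2 (fam := true) (s1 := true) (s2 := true) (a := 0) (b := 2) (c := 2) (cn := .pp) (n1 := ndB0q0) (n2 := ndB0q2) (pc := pcB2) (cut := cut_A00pp_022_s3) (xt := xt_A00pp_022_s3) (P1 := 0) (W1 := 536870912) (P2 := 0) (W2 := 536870912) (P3 := 697932185) (W3 := 42949674)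
    rfl (fun _ => rfl) t62_A00pp_022_s3

theorem s_A00pp_022_s3 {κ x : ℝ} (hκ : κ * h0 = ken x) (hx : ((697932185 : ℕ) : ℝ) / S ≤ x)
    (hx' : x ≤ (((697932185 : ℕ) : ℝ) + (42949674 : ℕ)) / S)
    (H : CutA (VFD κ) PP tK tL pcB (Cut.of [[⟨0, 0, 0, 53687091⟩, ⟨1, 1, 0, 53687091⟩, ⟨2, 1, 0, 53687091⟩]]) 0 2 2 0 0 (sgb true) (sgb true) x) :
    AltA (VFD κ) PP tK tL pcB [⟨4, 0, 0, 2845415833⟩] 0 2 2 0 0 (sgb true) (sgb true) x :=
  strip_altAD (m := 2845415833) false rfl hκ (SH.κ0 hκ (SH.hx1 hx).le (SH.hx2 hx').le) (SH.hx1 hx).le (SH.hx2 hx') (covB00).cov (covB02).cov hx hx' c_A00pp_022_s3 H ((okx6 hx hx').extA (T := tt) (okx hx hx') (sideB hx hx') hκ rfl rfl (.O 0 true) (.O 2 true) (Or.inl rfl))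

noncomputable def cut_A00pp_023_s1 : Cut := Cut.of [[⟨4, 0, 0, 1449551462⟩]]

noncomputable def f_A00pp_023_s1 : ℕ → ℕ → ℕ → ℕ → Bool := onCell 0 536870912 0 536870912 697932185 42949674
    (rowF 0 true true true .up 0 2 3 (qsf 0 536870912 0 536870912 3) ndB0q0 ndB0q2 pcB3 cut_A00pp_023_s1 Ext.none)

def k0_A00pp_023_s1 : ∃ t, chk3 f_A00pp_023_s1 t 1 1 1 = true :=
  ⟨(l 6), by decide +kernel⟩

theorem c_A00pp_023_s1 : CertF 0 536870912 0 536870912 697932185 42949674 true true true .up 0 2 3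
    ndB0q0 ndB0q2 pcB3 cut_A00pp_023_s1 Ext.none :=
  certF0 (fam := true) (s1 := true) (s2 := true) (a := 0) (b := 2) (c := 3) (cn := .up) (n1 := ndB0q0) (n2 := ndB0q2) (pc := pcB3) (cut := cut_A00pp_023_s1) (xt := Ext.none) (P1 := 0) (W1 := 536870912) (P2 := 0) (W2 := 536870912) (P3 := 697932185) (W3 := 42949674)
    rfl k0_A00pp_023_s1

theorem s_A00pp_023_s1 {κ x : ℝ} (hκ : κ * h0 = ken x) (hx : ((697932185 : ℕ) : ℝ) / S ≤ x)
    (hx' : x ≤ (((697932185 : ℕ) : ℝ) + (42949674 : ℕ)) / S) :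
    AltA (VFD κ) PP tK tL pcB [⟨3, 0, 0, 1449551462⟩] 0 2 3 0 0 (sgb true) (sgb true) x :=
  strip_altAD (m := 1449551462) true rfl hκ (SH.κ0 hκ (SH.hx1 hx).le (SH.hx2 hx').le) (SH.hx1 hx).le (SH.hx2 hx') (covB00).cov (covB02).cov hx hx' c_A00pp_023_s1 cutA_nil (noExt_A)

noncomputable def cut_A00pp_023_s3 : Cut := Cut.of [[⟨3, 0, 0, 2845415833⟩]]

noncomputable def xt_A00pp_023_s3 : Ext := strExt6 dd true true true .u0 .u2 .s2 .up 0 2 3 rfl rfl gl3 vv ww ndB0q0 ndB0q2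

noncomputable def f_A00pp_023_s3 : ℕ → ℕ → ℕ → ℕ → Bool := onCell 1610612736 536870912 0 536870912 697932185 42949674
    (rowF 2 true true true .up 0 2 3 (qsf 0 536870912 0 536870912 3) ndB0q0 ndB0q2 pcB3 cut_A00pp_023_s3 xt_A00pp_023_s3)

def k0_A00pp_023_s3 : ∃ t, chk3 f_A00pp_023_s3 t 1 1 1 = true :=
  ⟨(a (a (b (b (a (b (a (b (l 16671576) (l 16769248)) (b (l 16687360) (l 16701168))) (a (b (a (l 16696784) (l 16705768)) (a (l 16716560) (l 16767264))) (b (a (l 16713600) (l 16721472)) (a (l 16754664) (l 1069298703))))) (b (b (a (l 16701264) (a (l 16710336) (l 16715992))) (a (a (l 16712352) (l 16719584)) (a (l 16726600) (l 1069114383)))) (a (b (a (l 16771376) (l 1070778383)) (a (b (l 16766192) (l 1069145615)) (l 1068988943))) (b (a (l 1068903439) (l 1068747791)) (a (l 1068703247) (b (l 1068469775) (l 1068371983))))))) (a (b (a (b (a (a (l 16736168) (l 16782792)) (b (l 16741640) (l 16774056))) (a (b (l 1069383183)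 (l 1069345807)) (l 1069338127))) (b (b (a (l 16771336) (l 1069216783)) (a (l 1069292559) (l 1069142543))) (a (l 1069274127) (l 1069173775)))) (b (a (b (a (l 1069298703) (l 4)) (l 4)) (l 4)) (l 4))) (b (b (a (b (a (l 1069088783) (l 1068920847)) (a (l 1069027343) (l 4))) (l 4)) (l 4)) (l 4)))) (l 4)) (b (b (a (b (a (b (a (l 16730232) (l 16743000)) (b (a (l 16742568) (l 16770128)) (a (l 1069411343) (l 1069835279)))) (l 2)) (a (b (a (l 1069130767) (l 1069552143)) (c (l 1068999183) (l 1068991503))) (l 2))) (l 2)) (l 4)) (l 4))) (l 2)), by decide +kernel⟩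

theorem c_A00pp_023_s3 : CertF 0 536870912 0 536870912 697932185 42949674 true true true .up 0 2 3
    ndB0q0 ndB0q2 pcB3 cut_A00pp_023_s3 xt_A00pp_023_s3 :=
  certF2 (fam := true) (s1 := true) (s2 := true) (a := 0) (b := 2) (c := 3) (cn := .up) (n1 := ndB0q0) (n2 := ndB0q2) (pc := pcB3) (cut := cut_A00pp_023_s3) (xt := xt_A00pp_023_s3) (P1 := 0) (W1 := 536870912) (P2 := 0) (W2 := 536870912) (P3 := 697932185) (W3 := 42949674)
    rfl (fun _ => rfl) k0_A00pp_023_s3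

theorem s_A00pp_023_s3 {κ x : ℝ} (hκ : κ * h0 = ken x) (hx : ((697932185 : ℕ) : ℝ) / S ≤ x)
    (hx' : x ≤ (((697932185 : ℕ) : ℝ) + (42949674 : ℕ)) / S) :
    AltA (VFD κ) PP tK tL pcB [⟨4, 0, 0, 2845415833⟩] 0 2 3 0 0 (sgb true) (sgb true) x :=
  strip_altAD (m := 2845415833) false rfl hκ (SH.κ0 hκ (SH.hx1 hx).le (SH.hx2 hx').le) (SH.hx1 hx).le (SH.hx2 hx') (covB00).cov (covB02).cov hx hx' c_A00pp_023_s3 cutA_nil ((okx6 hx hx').extA (T := tt) (okx hx hx') (sideB hx hx') hκ rfl rfl (.O 0 true) (.O 2 true) (Or.inr rfl))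

noncomputable def cut_A00pp_101_s1 : Cut := Cut.of [[⟨4, 0, 0, 1449551462⟩]]

noncomputable def f_A00pp_101_s1 : ℕ → ℕ → ℕ → ℕ → Bool := onCell 536870912 536870912 0 536870912 697932185 42949674
    (rowF 0 true true true .npn 1 0 1 (qsf 536870912 536870912 0 536870912 1) ndB0q1 ndB0q0 pcB1 cut_A00pp_101_s1 Ext.none)

def k0_A00pp_101_s1 : ∃ t, chk3 f_A00pp_101_s1 t 1 1 1 = true :=
  ⟨(l 6), by decide +kernel⟩

theorem c_A00pp_101_s1 : CertF 536870912 536870912 0 536870912 697932185 42949674 true true true .npn 1 0 1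
    ndB0q1 ndB0q0 pcB1 cut_A00pp_101_s1 Ext.none :=
  certF0 (fam := true) (s1 := true) (s2 := true) (a := 1) (b := 0) (c := 1) (cn := .npn) (n1 := ndB0q1) (n2 := ndB0q0) (pc := pcB1) (cut := cut_A00pp_101_s1) (xt := Ext.none) (P1 := 536870912) (W1 := 536870912) (P2 := 0) (W2 := 536870912) (P3 := 697932185) (W3 := 42949674)
    rfl k0_A00pp_101_s1

theorem s_A00pp_101_s1 {κ x : ℝ} (hκ : κ * h0 = ken x) (hx : ((697932185 : ℕ) : ℝ) / S ≤ x)
    (hx' : x ≤ (((697932185 : ℕ) : ℝ) + (42949674 : ℕ)) / S) :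
    AltA (VFD κ) PP tK tL pcB [⟨3, 0, 0, 1449551462⟩] 1 0 1 0 0 (sgb true) (sgb true) x :=
  strip_altAD (m := 1449551462) true rfl hκ (SH.κ0 hκ (SH.hx1 hx).le (SH.hx2 hx').le) (SH.hx1 hx).le (SH.hx2 hx') (covB01).cov (covB00).cov hx hx' c_A00pp_101_s1 cutA_nil (noExt_A)

noncomputable def cut_A00pp_101_s3 : Cut := Cut.of [[⟨3, 0, 0, 2845415833⟩]]

noncomputable def f_A00pp_101_s3 : ℕ → ℕ → ℕ → ℕ → Bool := onCell 536870912 536870912 0 536870912 697932185 42949674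
    (rowF 0 true true true .npn 1 0 1 (qsf 536870912 536870912 0 536870912 1) ndB0q1 ndB0q0 pcB1 cut_A00pp_101_s3 Ext.none)

def k0_A00pp_101_s3 : ∃ t, chk3 f_A00pp_101_s3 t 1 1 1 = true :=
  ⟨(a (l 4) (l 5)), by decide +kernel⟩

theorem c_A00pp_101_s3 : CertF 536870912 536870912 0 536870912 697932185 42949674 true true true .npn 1 0 1
    ndB0q1 ndB0q0 pcB1 cut_A00pp_101_s3 Ext.none :=
  certF0 (fam := true) (s1 := true) (s2 := true) (a := 1) (b := 0) (c := 1) (cn := .npn) (n1 := ndB0q1) (n2 := ndB0q0) (pc := pcB1) (cut := cut_A00pp_101_s3) (xt := Ext.none) (P1 := 536870912) (W1 := 536870912) (P2 := 0) (W2 := 536870912) (P3 := 697932185) (W3 := 42949674)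
    rfl k0_A00pp_101_s3

theorem s_A00pp_101_s3 {κ x : ℝ} (hκ : κ * h0 = ken x) (hx : ((697932185 : ℕ) : ℝ) / S ≤ x)
    (hx' : x ≤ (((697932185 : ℕ) : ℝ) + (42949674 : ℕ)) / S) :
    AltA (VFD κ) PP tK tL pcB [⟨4, 0, 0, 2845415833⟩] 1 0 1 0 0 (sgb true) (sgb true) x :=
  strip_altAD (m := 2845415833) false rfl hκ (SH.κ0 hκ (SH.hx1 hx).le (SH.hx2 hx').le) (SH.hx1 hx).le (SH.hx2 hx') (covB01).cov (covB00).cov hx hx' c_A00pp_101_s3 cutA_nil (noExt_A)

noncomputable def cut_A00pp_102_s1 : Cut := Cut.of [[⟨4, 0, 0, 1449551462⟩]]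

noncomputable def f_A00pp_102_s1 : ℕ → ℕ → ℕ → ℕ → Bool := onCell 536870912 536870912 0 536870912 697932185 42949674
    (rowF 0 true true true .npp 1 0 2 (qsf 536870912 536870912 0 536870912 2) ndB0q1 ndB0q0 pcB2 cut_A00pp_102_s1 Ext.none)

def k0_A00pp_102_s1 : ∃ t, chk3 f_A00pp_102_s1 t 1 1 1 = true :=
  ⟨(l 6), by decide +kernel⟩

theorem c_A00pp_102_s1 : CertF 536870912 536870912 0 536870912 697932185 42949674 true true true .npp 1 0 2
    ndB0q1 ndB0q0 pcB2 cut_A00pp_102_s1 Ext.none :=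
  certF0 (fam := true) (s1 := true) (s2 := true) (a := 1) (b := 0) (c := 2) (cn := .npp) (n1 := ndB0q1) (n2 := ndB0q0) (pc := pcB2) (cut := cut_A00pp_102_s1) (xt := Ext.none) (P1 := 536870912) (W1 := 536870912) (P2 := 0) (W2 := 536870912) (P3 := 697932185) (W3 := 42949674)
    rfl k0_A00pp_102_s1

theorem s_A00pp_102_s1 {κ x : ℝ} (hκ : κ * h0 = ken x) (hx : ((697932185 : ℕ) : ℝ) / S ≤ x)
    (hx' : x ≤ (((697932185 : ℕ) : ℝ) + (42949674 : ℕ)) / S) :
    AltA (VFD κ) PP tK tL pcB [⟨3, 0, 0, 1449551462⟩] 1 0 2 0 0 (sgb true) (sgb true) x :=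
  strip_altAD (m := 1449551462) true rfl hκ (SH.κ0 hκ (SH.hx1 hx).le (SH.hx2 hx').le) (SH.hx1 hx).le (SH.hx2 hx') (covB01).cov (covB00).cov hx hx' c_A00pp_102_s1 cutA_nil (noExt_A)

noncomputable def cut_A00pp_102_s3 : Cut := Cut.of [[⟨3, 0, 0, 2845415833⟩]]

noncomputable def f_A00pp_102_s3 : ℕ → ℕ → ℕ → ℕ → Bool := onCell 536870912 536870912 0 536870912 697932185 42949674
    (rowF 0 true true true .npp 1 0 2 (qsf 536870912 536870912 0 536870912 2) ndB0q1 ndB0q0 pcB2 cut_A00pp_102_s3 Ext.none)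

def k0_A00pp_102_s3 : ∃ t, chk3 f_A00pp_102_s3 t 1 1 1 = true :=
  ⟨(a (l 4) (l 5)), by decide +kernel⟩

theorem c_A00pp_102_s3 : CertF 536870912 536870912 0 536870912 697932185 42949674 true true true .npp 1 0 2
    ndB0q1 ndB0q0 pcB2 cut_A00pp_102_s3 Ext.none :=
  certF0 (fam := true) (s1 := true) (s2 := true) (a := 1) (b := 0) (c := 2) (cn := .npp) (n1 := ndB0q1) (n2 := ndB0q0) (pc := pcB2) (cut := cut_A00pp_102_s3) (xt := Ext.none) (P1 := 536870912) (W1 := 536870912) (P2 := 0) (W2 := 536870912) (P3 := 697932185) (W3 := 42949674)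
    rfl k0_A00pp_102_s3

theorem s_A00pp_102_s3 {κ x : ℝ} (hκ : κ * h0 = ken x) (hx : ((697932185 : ℕ) : ℝ) / S ≤ x)
    (hx' : x ≤ (((697932185 : ℕ) : ℝ) + (42949674 : ℕ)) / S) :
    AltA (VFD κ) PP tK tL pcB [⟨4, 0, 0, 2845415833⟩] 1 0 2 0 0 (sgb true) (sgb true) x :=
  strip_altAD (m := 2845415833) false rfl hκ (SH.κ0 hκ (SH.hx1 hx).le (SH.hx2 hx').le) (SH.hx1 hx).le (SH.hx2 hx') (covB01).cov (covB00).cov hx hx' c_A00pp_102_s3 cutA_nil (noExt_A)

noncomputable def cut_A00pp_112_s1 : Cut := Cut.of [[⟨4, 0, 0, 1449551462⟩]]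

noncomputable def f_A00pp_112_s1 : ℕ → ℕ → ℕ → ℕ → Bool := onCell 536870912 536870912 536870912 536870912 697932185 42949674
    (rowF 0 true true true .dn 1 1 2 (qsf 536870912 536870912 536870912 536870912 2) ndB0q1 ndB0q1 pcB2 cut_A00pp_112_s1 Ext.none)

def k0_A00pp_112_s1 : ∃ t, chk3 f_A00pp_112_s1 t 1 1 1 = true :=
  ⟨(l 4), by decide +kernel⟩

theorem c_A00pp_112_s1 : CertF 536870912 536870912 536870912 536870912 697932185 42949674 true true true .dn 1 1 2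
    ndB0q1 ndB0q1 pcB2 cut_A00pp_112_s1 Ext.none :=
  certF0 (fam := true) (s1 := true) (s2 := true) (a := 1) (b := 1) (c := 2) (cn := .dn) (n1 := ndB0q1) (n2 := ndB0q1) (pc := pcB2) (cut := cut_A00pp_112_s1) (xt := Ext.none) (P1 := 536870912) (W1 := 536870912) (P2 := 536870912) (W2 := 536870912) (P3 := 697932185) (W3 := 42949674)
    rfl k0_A00pp_112_s1

theorem s_A00pp_112_s1 {κ x : ℝ} (hκ : κ * h0 = ken x) (hx : ((697932185 : ℕ) : ℝ) / S ≤ x)
    (hx' : x ≤ (((697932185 : ℕ) : ℝ) + (42949674 : ℕ)) / S) :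
    AltA (VFD κ) PP tK tL pcB [⟨3, 0, 0, 1449551462⟩] 1 1 2 0 0 (sgb true) (sgb true) x :=
  strip_altAD (m := 1449551462) true rfl hκ (SH.κ0 hκ (SH.hx1 hx).le (SH.hx2 hx').le) (SH.hx1 hx).le (SH.hx2 hx') (covB01).cov (covB01).cov hx hx' c_A00pp_112_s1 cutA_nil (noExt_A)

noncomputable def cut_A00pp_112_s3 : Cut := Cut.of [[⟨3, 0, 0, 2845415833⟩]]

noncomputable def f_A00pp_112_s3 : ℕ → ℕ → ℕ → ℕ → Bool := onCell 536870912 536870912 536870912 536870912 697932185 42949674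
    (rowF 0 true true true .dn 1 1 2 (qsf 536870912 536870912 536870912 536870912 2) ndB0q1 ndB0q1 pcB2 cut_A00pp_112_s3 Ext.none)

def k0_A00pp_112_s3 : ∃ t, chk3 f_A00pp_112_s3 t 1 1 1 = true :=
  ⟨(l 4), by decide +kernel⟩

theorem c_A00pp_112_s3 : CertF 536870912 536870912 536870912 536870912 697932185 42949674 true true true .dn 1 1 2
    ndB0q1 ndB0q1 pcB2 cut_A00pp_112_s3 Ext.none :=
  certF0 (fam := true) (s1 := true) (s2 := true) (a := 1) (b := 1) (c := 2) (cn := .dn) (n1 := ndB0q1) (n2 := ndB0q1) (pc := pcB2) (cut := cut_A00pp_112_s3) (xt := Ext.none) (P1 := 536870912) (W1 := 536870912) (P2 := 536870912) (W2 := 536870912) (P3 := 697932185) (W3 := 42949674)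
    rfl k0_A00pp_112_s3

theorem s_A00pp_112_s3 {κ x : ℝ} (hκ : κ * h0 = ken x) (hx : ((697932185 : ℕ) : ℝ) / S ≤ x)
    (hx' : x ≤ (((697932185 : ℕ) : ℝ) + (42949674 : ℕ)) / S) :
    AltA (VFD κ) PP tK tL pcB [⟨4, 0, 0, 2845415833⟩] 1 1 2 0 0 (sgb true) (sgb true) x :=
  strip_altAD (m := 2845415833) false rfl hκ (SH.κ0 hκ (SH.hx1 hx).le (SH.hx2 hx').le) (SH.hx1 hx).le (SH.hx2 hx') (covB01).cov (covB01).cov hx hx' c_A00pp_112_s3 cutA_nil (noExt_A)

noncomputable def cut_A00pp_113_s1 : Cut := Cut.of [[⟨4, 0, 0, 1449551462⟩]]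

noncomputable def f_A00pp_113_s1 : ℕ → ℕ → ℕ → ℕ → Bool := onCell 536870912 536870912 536870912 536870912 697932185 42949674
    (rowF 0 true true true .nn 1 1 3 (qsf 536870912 536870912 536870912 536870912 3) ndB0q1 ndB0q1 pcB3 cut_A00pp_113_s1 Ext.none)

def k0_A00pp_113_s1 : ∃ t, chk3 f_A00pp_113_s1 t 1 1 1 = true :=
  ⟨(l 4), by decide +kernel⟩

theorem c_A00pp_113_s1 : CertF 536870912 536870912 536870912 536870912 697932185 42949674 true true true .nn 1 1 3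
    ndB0q1 ndB0q1 pcB3 cut_A00pp_113_s1 Ext.none :=
  certF0 (fam := true) (s1 := true) (s2 := true) (a := 1) (b := 1) (c := 3) (cn := .nn) (n1 := ndB0q1) (n2 := ndB0q1) (pc := pcB3) (cut := cut_A00pp_113_s1) (xt := Ext.none) (P1 := 536870912) (W1 := 536870912) (P2 := 536870912) (W2 := 536870912) (P3 := 697932185) (W3 := 42949674)
    rfl k0_A00pp_113_s1

theorem s_A00pp_113_s1 {κ x : ℝ} (hκ : κ * h0 = ken x) (hx : ((697932185 : ℕ) : ℝ) / S ≤ x)
    (hx' : x ≤ (((697932185 : ℕ) : ℝ) + (42949674 : ℕ)) / S) :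
    AltA (VFD κ) PP tK tL pcB [⟨3, 0, 0, 1449551462⟩] 1 1 3 0 0 (sgb true) (sgb true) x :=
  strip_altAD (m := 1449551462) true rfl hκ (SH.κ0 hκ (SH.hx1 hx).le (SH.hx2 hx').le) (SH.hx1 hx).le (SH.hx2 hx') (covB01).cov (covB01).cov hx hx' c_A00pp_113_s1 cutA_nil (noExt_A)

noncomputable def cut_A00pp_113_s3 : Cut := Cut.of [[⟨3, 0, 0, 2845415833⟩]]

noncomputable def f_A00pp_113_s3 : ℕ → ℕ → ℕ → ℕ → Bool := onCell 536870912 536870912 536870912 536870912 697932185 42949674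
    (rowF 0 true true true .nn 1 1 3 (qsf 536870912 536870912 536870912 536870912 3) ndB0q1 ndB0q1 pcB3 cut_A00pp_113_s3 Ext.none)

def k0_A00pp_113_s3 : ∃ t, chk3 f_A00pp_113_s3 t 1 1 1 = true :=
  ⟨(l 4), by decide +kernel⟩

theorem c_A00pp_113_s3 : CertF 536870912 536870912 536870912 536870912 697932185 42949674 true true true .nn 1 1 3
    ndB0q1 ndB0q1 pcB3 cut_A00pp_113_s3 Ext.none :=
  certF0 (fam := true) (s1 := true) (s2 := true) (a := 1) (b := 1) (c := 3) (cn := .nn) (n1 := ndB0q1) (n2 := ndB0q1) (pc := pcB3) (cut := cut_A00pp_113_s3) (xt := Ext.none) (P1 := 536870912) (W1 := 536870912) (P2 := 536870912) (W2 := 536870912) (P3 := 697932185) (W3 := 42949674)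
    rfl k0_A00pp_113_s3

theorem s_A00pp_113_s3 {κ x : ℝ} (hκ : κ * h0 = ken x) (hx : ((697932185 : ℕ) : ℝ) / S ≤ x)
    (hx' : x ≤ (((697932185 : ℕ) : ℝ) + (42949674 : ℕ)) / S) :
    AltA (VFD κ) PP tK tL pcB [⟨4, 0, 0, 2845415833⟩] 1 1 3 0 0 (sgb true) (sgb true) x :=
  strip_altAD (m := 2845415833) false rfl hκ (SH.κ0 hκ (SH.hx1 hx).le (SH.hx2 hx').le) (SH.hx1 hx).le (SH.hx2 hx') (covB01).cov (covB01).cov hx hx' c_A00pp_113_s3 cutA_nil (noExt_A)

noncomputable def cut_A00pp_123_s1 : Cut := Cut.of [[⟨4, 0, 0, 1449551462⟩]]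

noncomputable def f_A00pp_123_s1 : ℕ → ℕ → ℕ → ℕ → Bool := onCell 536870912 536870912 0 536870912 697932185 42949674
    (rowF 0 true true true .npn 1 2 3 (qsf 536870912 536870912 0 536870912 3) ndB0q1 ndB0q2 pcB3 cut_A00pp_123_s1 Ext.none)

def k0_A00pp_123_s1 : ∃ t, chk3 f_A00pp_123_s1 t 1 1 1 = true :=
  ⟨(l 6), by decide +kernel⟩

theorem c_A00pp_123_s1 : CertF 536870912 536870912 0 536870912 697932185 42949674 true true true .npn 1 2 3
    ndB0q1 ndB0q2 pcB3 cut_A00pp_123_s1 Ext.none :=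
  certF0 (fam := true) (s1 := true) (s2 := true) (a := 1) (b := 2) (c := 3) (cn := .npn) (n1 := ndB0q1) (n2 := ndB0q2) (pc := pcB3) (cut := cut_A00pp_123_s1) (xt := Ext.none) (P1 := 536870912) (W1 := 536870912) (P2 := 0) (W2 := 536870912) (P3 := 697932185) (W3 := 42949674)
    rfl k0_A00pp_123_s1

theorem s_A00pp_123_s1 {κ x : ℝ} (hκ : κ * h0 = ken x) (hx : ((697932185 : ℕ) : ℝ) / S ≤ x)
    (hx' : x ≤ (((697932185 : ℕ) : ℝ) + (42949674 : ℕ)) / S) :
    AltA (VFD κ) PP tK tL pcB [⟨3, 0, 0, 1449551462⟩] 1 2 3 0 0 (sgb true) (sgb true) x :=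
  strip_altAD (m := 1449551462) true rfl hκ (SH.κ0 hκ (SH.hx1 hx).le (SH.hx2 hx').le) (SH.hx1 hx).le (SH.hx2 hx') (covB01).cov (covB02).cov hx hx' c_A00pp_123_s1 cutA_nil (noExt_A)

noncomputable def cut_A00pp_123_s3 : Cut := Cut.of [[⟨3, 0, 0, 2845415833⟩]]

noncomputable def xt_A00pp_123_s3 : Ext := strExt6 dd true true true .u0 .u2 .s2 .npn 1 2 3 rfl rfl gl3 vv ww ndB0q1 ndB0q2

noncomputable def f_A00pp_123_s3 : ℕ → ℕ → ℕ → ℕ → Bool := onCell 536870912 536870912 0 536870912 697932185 42949674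
    (rowF 0 true true true .npn 1 2 3 (qsf 536870912 536870912 0 536870912 3) ndB0q1 ndB0q2 pcB3 cut_A00pp_123_s3 xt_A00pp_123_s3)

def k0_A00pp_123_s3 : ∃ t, chk3 f_A00pp_123_s3 t 1 1 1 = true :=
  ⟨(b (a (b (a (a (b (a (b (a (l 1070553615) (l 1070902799)) (a (b (l 1070375439) (l 1070175759)) (b (l 1070754319) (l 1070625807)))) (b (l 1071401999) (b (l 1071260687) (l 4)))) (a (b (a (l 1069842447) (l 4)) (l 4)) (l 4))) (b (a (b (l 1072179727) (l 4)) (l 4)) (l 4))) (l 4)) (l 4)) (l 4)) (l 4)), by decide +kernel⟩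

theorem c_A00pp_123_s3 : CertF 536870912 536870912 0 536870912 697932185 42949674 true true true .npn 1 2 3
    ndB0q1 ndB0q2 pcB3 cut_A00pp_123_s3 xt_A00pp_123_s3 :=
  certF0 (fam := true) (s1 := true) (s2 := true) (a := 1) (b := 2) (c := 3) (cn := .npn) (n1 := ndB0q1) (n2 := ndB0q2) (pc := pcB3) (cut := cut_A00pp_123_s3) (xt := xt_A00pp_123_s3) (P1 := 536870912) (W1 := 536870912) (P2 := 0) (W2 := 536870912) (P3 := 697932185) (W3 := 42949674)
    rfl k0_A00pp_123_s3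

theorem s_A00pp_123_s3 {κ x : ℝ} (hκ : κ * h0 = ken x) (hx : ((697932185 : ℕ) : ℝ) / S ≤ x)
    (hx' : x ≤ (((697932185 : ℕ) : ℝ) + (42949674 : ℕ)) / S) :
    AltA (VFD κ) PP tK tL pcB [⟨4, 0, 0, 2845415833⟩] 1 2 3 0 0 (sgb true) (sgb true) x :=
  strip_altAD (m := 2845415833) false rfl hκ (SH.κ0 hκ (SH.hx1 hx).le (SH.hx2 hx').le) (SH.hx1 hx).le (SH.hx2 hx') (covB01).cov (covB02).cov hx hx' c_A00pp_123_s3 cutA_nil ((okx6 hx hx').extA (T := tt) (okx hx hx') (sideB hx hx') hκ rfl rfl (.O 1 true) (.O 2 true) (Or.inr rfl))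

noncomputable def cut_A00pp_202_s1 : Cut := Cut.of [[⟨4, 0, 0, 1449551462⟩]]

noncomputable def f_A00pp_202_s1 : ℕ → ℕ → ℕ → ℕ → Bool := onCell 0 536870912 0 536870912 697932185 42949674
    (rowF 0 true true true .pp 2 0 2 (qsf 0 536870912 0 536870912 2) ndB0q2 ndB0q0 pcB2 cut_A00pp_202_s1 Ext.none)

def k0_A00pp_202_s1 : ∃ t, chk3 f_A00pp_202_s1 t 1 1 1 = true :=
  ⟨(l 5), by decide +kernel⟩

theorem c_A00pp_202_s1 : CertF 0 536870912 0 536870912 697932185 42949674 true true true .pp 2 0 2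
    ndB0q2 ndB0q0 pcB2 cut_A00pp_202_s1 Ext.none :=
  certF0 (fam := true) (s1 := true) (s2 := true) (a := 2) (b := 0) (c := 2) (cn := .pp) (n1 := ndB0q2) (n2 := ndB0q0) (pc := pcB2) (cut := cut_A00pp_202_s1) (xt := Ext.none) (P1 := 0) (W1 := 536870912) (P2 := 0) (W2 := 536870912) (P3 := 697932185) (W3 := 42949674)
    rfl k0_A00pp_202_s1

theorem s_A00pp_202_s1 {κ x : ℝ} (hκ : κ * h0 = ken x) (hx : ((697932185 : ℕ) : ℝ) / S ≤ x)
    (hx' : x ≤ (((697932185 : ℕ) : ℝ) + (42949674 : ℕ)) / S) :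
    AltA (VFD κ) PP tK tL pcB [⟨3, 0, 0, 1449551462⟩] 2 0 2 0 0 (sgb true) (sgb true) x :=
  strip_altAD (m := 1449551462) true rfl hκ (SH.κ0 hκ (SH.hx1 hx).le (SH.hx2 hx').le) (SH.hx1 hx).le (SH.hx2 hx') (covB02).cov (covB00).cov hx hx' c_A00pp_202_s1 cutA_nil (noExt_A)

noncomputable def cut_A00pp_202_s3 : Cut := Cut.of [[⟨3, 0, 0, 2845415833⟩]]

noncomputable def f_A00pp_202_s3 : ℕ → ℕ → ℕ → ℕ → Bool := onCell 0 536870912 0 536870912 697932185 42949674
    (rowF 0 true true true .pp 2 0 2 (qsf 0 536870912 0 536870912 2) ndB0q2 ndB0q0 pcB2 cut_A00pp_202_s3 Ext.none)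

def k0_A00pp_202_s3 : ∃ t, chk3 f_A00pp_202_s3 t 1 1 1 = true :=
  ⟨(l 5), by decide +kernel⟩

theorem c_A00pp_202_s3 : CertF 0 536870912 0 536870912 697932185 42949674 true true true .pp 2 0 2
    ndB0q2 ndB0q0 pcB2 cut_A00pp_202_s3 Ext.none :=
  certF0 (fam := true) (s1 := true) (s2 := true) (a := 2) (b := 0) (c := 2) (cn := .pp) (n1 := ndB0q2) (n2 := ndB0q0) (pc := pcB2) (cut := cut_A00pp_202_s3) (xt := Ext.none) (P1 := 0) (W1 := 536870912) (P2 := 0) (W2 := 536870912) (P3 := 697932185) (W3 := 42949674)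
    rfl k0_A00pp_202_s3

theorem s_A00pp_202_s3 {κ x : ℝ} (hκ : κ * h0 = ken x) (hx : ((697932185 : ℕ) : ℝ) / S ≤ x)
    (hx' : x ≤ (((697932185 : ℕ) : ℝ) + (42949674 : ℕ)) / S) :
    AltA (VFD κ) PP tK tL pcB [⟨4, 0, 0, 2845415833⟩] 2 0 2 0 0 (sgb true) (sgb true) x :=
  strip_altAD (m := 2845415833) false rfl hκ (SH.κ0 hκ (SH.hx1 hx).le (SH.hx2 hx').le) (SH.hx1 hx).le (SH.hx2 hx') (covB02).cov (covB00).cov hx hx' c_A00pp_202_s3 cutA_nil (noExt_A)

noncomputable def cut_A00pp_203_s1 : Cut := Cut.of [[⟨4, 0, 0, 1449551462⟩]]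

noncomputable def f_A00pp_203_s1 : ℕ → ℕ → ℕ → ℕ → Bool := onCell 0 536870912 0 536870912 697932185 42949674
    (rowF 0 true true true .up 2 0 3 (qsf 0 536870912 0 536870912 3) ndB0q2 ndB0q0 pcB3 cut_A00pp_203_s1 Ext.none)

def k0_A00pp_203_s1 : ∃ t, chk3 f_A00pp_203_s1 t 1 1 1 = true :=
  ⟨(l 5), by decide +kernel⟩

theorem c_A00pp_203_s1 : CertF 0 536870912 0 536870912 697932185 42949674 true true true .up 2 0 3
    ndB0q2 ndB0q0 pcB3 cut_A00pp_203_s1 Ext.none :=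
  certF0 (fam := true) (s1 := true) (s2 := true) (a := 2) (b := 0) (c := 3) (cn := .up) (n1 := ndB0q2) (n2 := ndB0q0) (pc := pcB3) (cut := cut_A00pp_203_s1) (xt := Ext.none) (P1 := 0) (W1 := 536870912) (P2 := 0) (W2 := 536870912) (P3 := 697932185) (W3 := 42949674)
    rfl k0_A00pp_203_s1

theorem s_A00pp_203_s1 {κ x : ℝ} (hκ : κ * h0 = ken x) (hx : ((697932185 : ℕ) : ℝ) / S ≤ x)
    (hx' : x ≤ (((697932185 : ℕ) : ℝ) + (42949674 : ℕ)) / S) :
    AltA (VFD κ) PP tK tL pcB [⟨3, 0, 0, 1449551462⟩] 2 0 3 0 0 (sgb true) (sgb true) x :=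
  strip_altAD (m := 1449551462) true rfl hκ (SH.κ0 hκ (SH.hx1 hx).le (SH.hx2 hx').le) (SH.hx1 hx).le (SH.hx2 hx') (covB02).cov (covB00).cov hx hx' c_A00pp_203_s1 cutA_nil (noExt_A)

noncomputable def cut_A00pp_203_s3 : Cut := Cut.of [[⟨3, 0, 0, 2845415833⟩]]

noncomputable def f_A00pp_203_s3 : ℕ → ℕ → ℕ → ℕ → Bool := onCell 0 536870912 0 536870912 697932185 42949674
    (rowF 0 true true true .up 2 0 3 (qsf 0 536870912 0 536870912 3) ndB0q2 ndB0q0 pcB3 cut_A00pp_203_s3 Ext.none)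

def k0_A00pp_203_s3 : ∃ t, chk3 f_A00pp_203_s3 t 1 1 1 = true :=
  ⟨(l 5), by decide +kernel⟩

theorem c_A00pp_203_s3 : CertF 0 536870912 0 536870912 697932185 42949674 true true true .up 2 0 3
    ndB0q2 ndB0q0 pcB3 cut_A00pp_203_s3 Ext.none :=
  certF0 (fam := true) (s1 := true) (s2 := true) (a := 2) (b := 0) (c := 3) (cn := .up) (n1 := ndB0q2) (n2 := ndB0q0) (pc := pcB3) (cut := cut_A00pp_203_s3) (xt := Ext.none) (P1 := 0) (W1 := 536870912) (P2 := 0) (W2 := 536870912) (P3 := 697932185) (W3 := 42949674)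
    rfl k0_A00pp_203_s3

theorem s_A00pp_203_s3 {κ x : ℝ} (hκ : κ * h0 = ken x) (hx : ((697932185 : ℕ) : ℝ) / S ≤ x)
    (hx' : x ≤ (((697932185 : ℕ) : ℝ) + (42949674 : ℕ)) / S) :
    AltA (VFD κ) PP tK tL pcB [⟨4, 0, 0, 2845415833⟩] 2 0 3 0 0 (sgb true) (sgb true) x :=
  strip_altAD (m := 2845415833) false rfl hκ (SH.κ0 hκ (SH.hx1 hx).le (SH.hx2 hx').le) (SH.hx1 hx).le (SH.hx2 hx') (covB02).cov (covB00).cov hx hx' c_A00pp_203_s3 cutA_nil (noExt_A)

noncomputable def cut_A00pp_213_s1 : Cut := Cut.of [[⟨4, 0, 0, 1449551462⟩]]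

noncomputable def f_A00pp_213_s1 : ℕ → ℕ → ℕ → ℕ → Bool := onCell 0 536870912 536870912 536870912 697932185 42949674
    (rowF 0 true true true .pnn 2 1 3 (qsf 0 536870912 536870912 536870912 3) ndB0q2 ndB0q1 pcB3 cut_A00pp_213_s1 Ext.none)

def k0_A00pp_213_s1 : ∃ t, chk3 f_A00pp_213_s1 t 1 1 1 = true :=
  ⟨(l 6), by decide +kernel⟩

theorem c_A00pp_213_s1 : CertF 0 536870912 536870912 536870912 697932185 42949674 true true true .pnn 2 1 3
    ndB0q2 ndB0q1 pcB3 cut_A00pp_213_s1 Ext.none :=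
  certF0 (fam := true) (s1 := true) (s2 := true) (a := 2) (b := 1) (c := 3) (cn := .pnn) (n1 := ndB0q2) (n2 := ndB0q1) (pc := pcB3) (cut := cut_A00pp_213_s1) (xt := Ext.none) (P1 := 0) (W1 := 536870912) (P2 := 536870912) (W2 := 536870912) (P3 := 697932185) (W3 := 42949674)
    rfl k0_A00pp_213_s1

theorem s_A00pp_213_s1 {κ x : ℝ} (hκ : κ * h0 = ken x) (hx : ((697932185 : ℕ) : ℝ) / S ≤ x)
    (hx' : x ≤ (((697932185 : ℕ) : ℝ) + (42949674 : ℕ)) / S) :
    AltA (VFD κ) PP tK tL pcB [⟨3, 0, 0, 1449551462⟩] 2 1 3 0 0 (sgb true) (sgb true) x :=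
  strip_altAD (m := 1449551462) true rfl hκ (SH.κ0 hκ (SH.hx1 hx).le (SH.hx2 hx').le) (SH.hx1 hx).le (SH.hx2 hx') (covB02).cov (covB01).cov hx hx' c_A00pp_213_s1 cutA_nil (noExt_A)

noncomputable def cut_A00pp_213_s3 : Cut := Cut.of [[⟨3, 0, 0, 2845415833⟩]]

noncomputable def f_A00pp_213_s3 : ℕ → ℕ → ℕ → ℕ → Bool := onCell 0 536870912 536870912 536870912 697932185 42949674
    (rowF 0 true true true .pnn 2 1 3 (qsf 0 536870912 536870912 536870912 3) ndB0q2 ndB0q1 pcB3 cut_A00pp_213_s3 Ext.none)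

def k0_A00pp_213_s3 : ∃ t, chk3 f_A00pp_213_s3 t 1 1 1 = true :=
  ⟨(a (l 5) (l 4)), by decide +kernel⟩

theorem c_A00pp_213_s3 : CertF 0 536870912 536870912 536870912 697932185 42949674 true true true .pnn 2 1 3
    ndB0q2 ndB0q1 pcB3 cut_A00pp_213_s3 Ext.none :=
  certF0 (fam := true) (s1 := true) (s2 := true) (a := 2) (b := 1) (c := 3) (cn := .pnn) (n1 := ndB0q2) (n2 := ndB0q1) (pc := pcB3) (cut := cut_A00pp_213_s3) (xt := Ext.none) (P1 := 0) (W1 := 536870912) (P2 := 536870912) (W2 := 536870912) (P3 := 697932185) (W3 := 42949674)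
    rfl k0_A00pp_213_s3

theorem s_A00pp_213_s3 {κ x : ℝ} (hκ : κ * h0 = ken x) (hx : ((697932185 : ℕ) : ℝ) / S ≤ x)
    (hx' : x ≤ (((697932185 : ℕ) : ℝ) + (42949674 : ℕ)) / S) :
    AltA (VFD κ) PP tK tL pcB [⟨4, 0, 0, 2845415833⟩] 2 1 3 0 0 (sgb true) (sgb true) x :=
  strip_altAD (m := 2845415833) false rfl hκ (SH.κ0 hκ (SH.hx1 hx).le (SH.hx2 hx').le) (SH.hx1 hx).le (SH.hx2 hx') (covB02).cov (covB01).cov hx hx' c_A00pp_213_s3 cutA_nil (noExt_A)

noncomputable def cut_A00pm_001_s1 : Cut := Cut.of [[⟨4, 0, 0, 1449551462⟩]]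

noncomputable def f_A00pm_001_s1 : ℕ → ℕ → ℕ → ℕ → Bool := onCell 0 536870912 0 536870912 697932185 42949674
    (rowF 0 true true false .up 0 0 1 (qsf 0 536870912 0 536870912 1) ndB0q0 ndB0q0 pcB1 cut_A00pm_001_s1 Ext.none)

def k0_A00pm_001_s1 : ∃ t, chk3 f_A00pm_001_s1 t 1 1 1 = true :=
  ⟨(l 3), by decide +kernel⟩

theorem c_A00pm_001_s1 : CertF 0 536870912 0 536870912 697932185 42949674 true true false .up 0 0 1
    ndB0q0 ndB0q0 pcB1 cut_A00pm_001_s1 Ext.none :=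
  certF0 (fam := true) (s1 := true) (s2 := false) (a := 0) (b := 0) (c := 1) (cn := .up) (n1 := ndB0q0) (n2 := ndB0q0) (pc := pcB1) (cut := cut_A00pm_001_s1) (xt := Ext.none) (P1 := 0) (W1 := 536870912) (P2 := 0) (W2 := 536870912) (P3 := 697932185) (W3 := 42949674)
    rfl k0_A00pm_001_s1

theorem s_A00pm_001_s1 {κ x : ℝ} (hκ : κ * h0 = ken x) (hx : ((697932185 : ℕ) : ℝ) / S ≤ x)
    (hx' : x ≤ (((697932185 : ℕ) : ℝ) + (42949674 : ℕ)) / S) :
    AltA (VFD κ) PP tK tL pcB [⟨3, 0, 0, 1449551462⟩] 0 0 1 0 0 (sgb true) (sgb false) x :=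
  strip_altAD (m := 1449551462) true rfl hκ (SH.κ0 hκ (SH.hx1 hx).le (SH.hx2 hx').le) (SH.hx1 hx).le (SH.hx2 hx') (covB00).cov (covB00).cov hx hx' c_A00pm_001_s1 cutA_nil (noExt_A)

noncomputable def cut_A00pm_001_s3 : Cut := Cut.of [[⟨3, 0, 0, 2845415833⟩]]

noncomputable def f_A00pm_001_s3 : ℕ → ℕ → ℕ → ℕ → Bool := onCell 0 536870912 0 536870912 697932185 42949674
    (rowF 0 true true false .up 0 0 1 (qsf 0 536870912 0 536870912 1) ndB0q0 ndB0q0 pcB1 cut_A00pm_001_s3 Ext.none)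

def k0_A00pm_001_s3 : ∃ t, chk3 f_A00pm_001_s3 t 1 1 1 = true :=
  ⟨(l 3), by decide +kernel⟩

theorem c_A00pm_001_s3 : CertF 0 536870912 0 536870912 697932185 42949674 true true false .up 0 0 1
    ndB0q0 ndB0q0 pcB1 cut_A00pm_001_s3 Ext.none :=
  certF0 (fam := true) (s1 := true) (s2 := false) (a := 0) (b := 0) (c := 1) (cn := .up) (n1 := ndB0q0) (n2 := ndB0q0) (pc := pcB1) (cut := cut_A00pm_001_s3) (xt := Ext.none) (P1 := 0) (W1 := 536870912) (P2 := 0) (W2 := 536870912) (P3 := 697932185) (W3 := 42949674)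
    rfl k0_A00pm_001_s3

theorem s_A00pm_001_s3 {κ x : ℝ} (hκ : κ * h0 = ken x) (hx : ((697932185 : ℕ) : ℝ) / S ≤ x)
    (hx' : x ≤ (((697932185 : ℕ) : ℝ) + (42949674 : ℕ)) / S) :
    AltA (VFD κ) PP tK tL pcB [⟨4, 0, 0, 2845415833⟩] 0 0 1 0 0 (sgb true) (sgb false) x :=
  strip_altAD (m := 2845415833) false rfl hκ (SH.κ0 hκ (SH.hx1 hx).le (SH.hx2 hx').le) (SH.hx1 hx).le (SH.hx2 hx') (covB00).cov (covB00).cov hx hx' c_A00pm_001_s3 cutA_nil (noExt_A)

noncomputable def cut_A00pm_011_s1 : Cut := Cut.of [[⟨4, 0, 0, 1449551462⟩], [⟨0, 0, 0, 67108864⟩, ⟨1, 1, 0, 67108864⟩, ⟨2, 1, 0, 67108864⟩]]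

noncomputable def f_A00pm_011_s1 : ℕ → ℕ → ℕ → ℕ → Bool := onCell 536870912 536870912 536870912 536870912 697932185 42949674
    (rowF 2 true true false .pnn 0 1 1 (qsf 0 536870912 536870912 536870912 1) ndB0q0 ndB0q1 pcB1 cut_A00pm_011_s1 Ext.none)

def k0_A00pm_011_s1 : ∃ t, chk3 f_A00pm_011_s1 t 1 1 1 = true :=
  ⟨(a (l 3) (b (l 3) (a (l 3) (b (l 3) (a (l 3) (b (l 3) (a (l 3) (b (l 3) (l 14))))))))), by decide +kernel⟩

theorem c_A00pm_011_s1 : CertF 0 536870912 536870912 536870912 697932185 42949674 true true false .pnn 0 1 1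
    ndB0q0 ndB0q1 pcB1 cut_A00pm_011_s1 Ext.none :=
  certF2 (fam := true) (s1 := true) (s2 := false) (a := 0) (b := 1) (c := 1) (cn := .pnn) (n1 := ndB0q0) (n2 := ndB0q1) (pc := pcB1) (cut := cut_A00pm_011_s1) (xt := Ext.none) (P1 := 0) (W1 := 536870912) (P2 := 536870912) (W2 := 536870912) (P3 := 697932185) (W3 := 42949674)
    rfl (fun _ => rfl) k0_A00pm_011_s1

theorem s_A00pm_011_s1 {κ x : ℝ} (hκ : κ * h0 = ken x) (hx : ((697932185 : ℕ) : ℝ) / S ≤ x)
    (hx' : x ≤ (((697932185 : ℕ) : ℝ) + (42949674 : ℕ)) / S)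
    (H : CutA (VFD κ) PP tK tL pcB (Cut.of [[⟨0, 0, 0, 67108864⟩, ⟨1, 1, 0, 67108864⟩, ⟨2, 1, 0, 67108864⟩]]) 0 1 1 0 0 (sgb true) (sgb false) x) :
    AltA (VFD κ) PP tK tL pcB [⟨3, 0, 0, 1449551462⟩] 0 1 1 0 0 (sgb true) (sgb false) x :=
  strip_altAD (m := 1449551462) true rfl hκ (SH.κ0 hκ (SH.hx1 hx).le (SH.hx2 hx').le) (SH.hx1 hx).le (SH.hx2 hx') (covB00).cov (covB01).cov hx hx' c_A00pm_011_s1 H (noExt_A)

noncomputable def cut_A00pm_011_s3 : Cut := Cut.of [[⟨3, 0, 0, 2845415833⟩], [⟨0, 0, 0, 67108864⟩, ⟨1, 1, 0, 67108864⟩, ⟨2, 1, 0, 67108864⟩]]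

noncomputable def f_A00pm_011_s3 : ℕ → ℕ → ℕ → ℕ → Bool := onCell 0 536870912 536870912 536870912 697932185 42949674
    (rowF 0 true true false .pnn 0 1 1 (qsf 0 536870912 536870912 536870912 1) ndB0q0 ndB0q1 pcB1 cut_A00pm_011_s3 Ext.none)

def k0_A00pm_011_s3 : ∃ t, chk3 f_A00pm_011_s3 t 1 1 1 = true :=
  ⟨(l 6), by decide +kernel⟩

theorem c_A00pm_011_s3 : CertF 0 536870912 536870912 536870912 697932185 42949674 true true false .pnn 0 1 1
    ndB0q0 ndB0q1 pcB1 cut_A00pm_011_s3 Ext.none :=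
  certF0 (fam := true) (s1 := true) (s2 := false) (a := 0) (b := 1) (c := 1) (cn := .pnn) (n1 := ndB0q0) (n2 := ndB0q1) (pc := pcB1) (cut := cut_A00pm_011_s3) (xt := Ext.none) (P1 := 0) (W1 := 536870912) (P2 := 536870912) (W2 := 536870912) (P3 := 697932185) (W3 := 42949674)
    rfl k0_A00pm_011_s3

theorem s_A00pm_011_s3 {κ x : ℝ} (hκ : κ * h0 = ken x) (hx : ((697932185 : ℕ) : ℝ) / S ≤ x)
    (hx' : x ≤ (((697932185 : ℕ) : ℝ) + (42949674 : ℕ)) / S)
    (H : CutA (VFD κ) PP tK tL pcB (Cut.of [[⟨0, 0, 0, 67108864⟩, ⟨1, 1, 0, 67108864⟩, ⟨2, 1, 0, 67108864⟩]]) 0 1 1 0 0 (sgb true) (sgb false) x) :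
    AltA (VFD κ) PP tK tL pcB [⟨4, 0, 0, 2845415833⟩] 0 1 1 0 0 (sgb true) (sgb false) x :=
  strip_altAD (m := 2845415833) false rfl hκ (SH.κ0 hκ (SH.hx1 hx).le (SH.hx2 hx').le) (SH.hx1 hx).le (SH.hx2 hx') (covB00).cov (covB01).cov hx hx' c_A00pm_011_s3 H (noExt_A)

noncomputable def cut_A00pm_012_s3 : Cut := Cut.of [[⟨3, 0, 0, 2845415833⟩], [⟨0, 0, 0, 33554432⟩, ⟨1, 1, 0, 33554432⟩, ⟨2, 1, 0, 33554432⟩]]

noncomputable def f_A00pm_012_s3 : ℕ → ℕ → ℕ → ℕ → Bool := onCell 0 536870912 536870912 536870912 697932185 42949674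
    (rowF 0 true true false .pnp 0 1 2 (qsf 0 536870912 536870912 536870912 2) ndB0q0 ndB0q1 pcB2 cut_A00pm_012_s3 Ext.none)

def k0_A00pm_012_s3 : ∃ t, chk3 f_A00pm_012_s3 t 1 1 1 = true :=
  ⟨(l 6), by decide +kernel⟩

theorem c_A00pm_012_s3 : CertF 0 536870912 536870912 536870912 697932185 42949674 true true false .pnp 0 1 2
    ndB0q0 ndB0q1 pcB2 cut_A00pm_012_s3 Ext.none :=
  certF0 (fam := true) (s1 := true) (s2 := false) (a := 0) (b := 1) (c := 2) (cn := .pnp) (n1 := ndB0q0) (n2 := ndB0q1) (pc := pcB2) (cut := cut_A00pm_012_s3) (xt := Ext.none) (P1 := 0) (W1 := 536870912) (P2 := 536870912) (W2 := 536870912) (P3 := 697932185) (W3 := 42949674)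
    rfl k0_A00pm_012_s3

theorem s_A00pm_012_s3 {κ x : ℝ} (hκ : κ * h0 = ken x) (hx : ((697932185 : ℕ) : ℝ) / S ≤ x)
    (hx' : x ≤ (((697932185 : ℕ) : ℝ) + (42949674 : ℕ)) / S)
    (H : CutA (VFD κ) PP tK tL pcB (Cut.of [[⟨0, 0, 0, 33554432⟩, ⟨1, 1, 0, 33554432⟩, ⟨2, 1, 0, 33554432⟩]]) 0 1 2 0 0 (sgb true) (sgb false) x) :
    AltA (VFD κ) PP tK tL pcB [⟨4, 0, 0, 2845415833⟩] 0 1 2 0 0 (sgb true) (sgb false) x :=
  strip_altAD (m := 2845415833) false rfl hκ (SH.κ0 hκ (SH.hx1 hx).le (SH.hx2 hx').le) (SH.hx1 hx).le (SH.hx2 hx') (covB00).cov (covB01).cov hx hx' c_A00pm_012_s3 H (noExt_A)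

noncomputable def cut_A00pm_022_s1 : Cut := Cut.of [[⟨4, 0, 0, 1449551462⟩], [⟨0, 0, 0, 67108864⟩, ⟨1, 1, 0, 67108864⟩, ⟨2, 1, 0, 67108864⟩]]

noncomputable def f_A00pm_022_s1 : ℕ → ℕ → ℕ → ℕ → Bool := onCell 1073741824 536870912 0 536870912 697932185 42949674
    (rowF 2 true true false .pp 0 2 2 (qsf 0 536870912 0 536870912 2) ndB0q0 ndB0q2 pcB2 cut_A00pm_022_s1 Ext.none)

def k0_A00pm_022_s1 : ∃ t, chk3 f_A00pm_022_s1 t 4 2 1 = true :=
  ⟨(a (l 1) (l 6)), by decide +kernel⟩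

def k1_A00pm_022_s1 : ∃ t, chk3 f_A00pm_022_s1 t 8 3 1 = true :=
  ⟨(b (l 1) (a (b (l 1) (l 14)) (a (b (b (l 1) (l 14)) (l 14)) (a (b (b (l 1) (l 14)) (l 14)) (a (b (b (l 16621320) (l 14)) (l 14)) (b (b (l 16642472) (b (l 16646896) (l 16663136))) (b (b (l 16678848) (l 16691928)) (b (l 16695104) (b (l 16696720) (b (l 16697176) (l 16697320))))))))))), by decide +kernel⟩

def k2_A00pm_022_s1 : ∃ t, chk3 f_A00pm_022_s1 t 9 3 1 = true :=
  ⟨(b (b (a (l 1) (l 6)) (a (b (a (l 1) (b (l 16569824) (a (l 16563648) (l 16566480)))) (a (b (l 16577416) (l 16616824)) (b (a (l 16580872) (l 16582552)) (a (l 16597528) (l 16598104))))) (b (a (b (a (l 16554240) (l 6)) (a (l 16568848) (l 16486896))) (l 6)) (a (b (l 16500408) (l 16598304)) (c (l 16592304) (l 16545928)))))) (b (a (b (a (b (a (l 16612944) (l 16613216)) (a (l 16629704) (l 16628904))) (b (l 16570952) (l 16627080))) (b (a (l 16644792) (l 16640672)) (a (l 16659776) (l 16653008))))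 (b (a (a (l 16618544) (l 16617152)) (l 16605448)) (a (l 16664024) (b (l 16612824) (l 16617168))))) (b (a (b (a (l 16674312) (l 16657184)) (a (l 16679864) (b (l 16659864) (l 16661488)))) (a (b (l 16638672) (a (l 16646520) (l 16637240))) (b (l 16641760) (l 16644776)))) (b (a (a (b (l 16682256) (a (l 16688392) (l 16678584))) (a (l 16678776) (l 16658624))) (a (a (l 16649080) (l 16639696)) (a (l 16630504) (l 16621520)))) (b (a (a (a (l 16689336) (l 16679440)) (a (l 16669576) (l 16659832))) (a (a (l 16650192) (l 16640712)) (a (l 16631416) (l 16622312)))) (a (a (a (b (l 16689728) (a (l 16692328) (l 16687320))) (b (l 16679784) (a (l 16682320) (l 16677336)))) (a (b (l 16669864) (c (l 16671112) (b (l 16668816) (l 16668696)))) (b (l 16660080) (c (l 16661456) (b (l 16658856) (l 16658728)))))) (a (a (b (l 16650392) (c (l 16651880) (b (l 16648992) (l 16654088)))) (c (l 16642432) (a (l 16641736) (l 16636936)))) (a (b (l 16631496)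 (a (l 16633712) (l 16629048))) (c (l 16624192) (b (l 16620632) (l 16620288))))))))))), by decide +kernel⟩

def k3_A00pm_022_s1 : ∃ t, chk3 f_A00pm_022_s1 t 5 2 1 = true :=
  ⟨(l 6), by decide +kernel⟩

def k4_A00pm_022_s1 : ∃ t, chk3 f_A00pm_022_s1 t 5 6 1 = true :=
  ⟨(a (a (a (b (l 6) (b (l 6) (a (l 16583712) (l 6)))) (l 6)) (l 6)) (l 6)), by decide +kernel⟩

def k5_A00pm_022_s1 : ∃ t, chk3 f_A00pm_022_s1 t 10 7 1 = true :=
  ⟨(b (b (a (a (a (l 16593248) (l 16585528)) (a (l 16578272) (a (l 16573312) (a (l 16571392) (c (l 16569312) (l 16530848)))))) (a (l 6) (l 6))) (a (a (b (l 16596456) (l 16600568)) (a (l 16587184) (a (l 16582168) (a (l 16580312) (b (l 16577656) (l 16581680)))))) (a (a (l 16575096) (l 16609616)) (l 16603032)))) (a (b (a (b (l 16604000) (c (l 16607456) (l 16606336))) (a (b (l 16592304) (l 16594880)) (a (b (l 16587216) (l 16589736)) (a (b (l 16585392) (l 16587920)) (b (l 16626920) (c (l 16588064)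 (l 16629408))))))) (c (a (b (l 16652024) (a (l 16615392) (l 16606960))) (a (b (l 16598104) (l 16599008)) (a (b (l 16592800) (l 16593512)) (a (b (l 16590816) (l 16591440)) (a (b (l 16632704) (a (a (l 16591008) (a (l 16591192) (l 16591520))) (l 16591160))) (b (l 16589768) (l 16590360))))))) (a (a (b (l 16611768) (b (l 16611912) (c (l 16612384) (l 16610512)))) (b (l 16603296) (b (l 16603312) (l 16602712)))) (a (b (l 16595440) (a (l 16596864) (l 16603512))) (a (b (l 16590240) (b (l 16590016) (l 16589176))) (b (a (l 16588608) (a (a (a (l 16588472) (l 16610312)) (l 16589016)) (l 16588192))) (a (a (l 16587944) (a (l 16587680) (l 16587672))) (a (a (a (l 16587872) (a (l 16588208) (a (a (l 16588536) (b (l 16589160) (l 16588320))) (l 16588768)))) (l 16588448)) (l 16587592))))))))) (b (a (a (b (l 16580128) (l 16582560)) (b (l 16572344) (l 16574472))) (b (l 16564264) (l 16565272))) (a (a (b (l 16584040) (c (l 16585544) (b (l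 16582840) (l 16581848)))) (a (b (l 16577640) (a (l 16578264) (l 16576016))) (b (l 16573488) (a (l 16573768) (l 16571704))))) (b (l 16607120) (b (l 16563960) (c (l 16565008) (l 16560032)))))))), by decide +kernel⟩

def k6_A00pm_022_s1 : ∃ t, chk3 f_A00pm_022_s1 t 11 7 1 = true :=
  ⟨(b (l 6) (b (a (a (b (l 16553944) (l 16553288)) (l 6)) (l 6)) (a (a (b (l 16551312) (b (l 16548792) (l 16567312))) (b (l 16537152) (b (l 16533432) (l 16530376)))) (a (b (l 6) (l 16517016)) (l 6))))), by decide +kernel⟩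

def k7_A00pm_022_s1 : ∃ t, chk3 f_A00pm_022_s1 t 3 1 1 = true :=
  ⟨(b (l 6) (l 6)), by decide +kernel⟩

theorem t8_A00pm_022_s1 : ∃ t, chk3 f_A00pm_022_s1 t 5 7 1 = true := ex3_a k5_A00pm_022_s1 k6_A00pm_022_s1

theorem t9_A00pm_022_s1 : ∃ t, chk3 f_A00pm_022_s1 t 5 3 1 = true := ex3_b k4_A00pm_022_s1 t8_A00pm_022_s1

theorem t10_A00pm_022_s1 : ∃ t, chk3 f_A00pm_022_s1 t 5 1 1 = true := ex3_b k3_A00pm_022_s1 t9_A00pm_022_s1

theorem t11_A00pm_022_s1 : ∃ t, chk3 f_A00pm_022_s1 t 4 3 1 = true := ex3_a k1_A00pm_022_s1 k2_A00pm_022_s1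

theorem t12_A00pm_022_s1 : ∃ t, chk3 f_A00pm_022_s1 t 4 1 1 = true := ex3_b k0_A00pm_022_s1 t11_A00pm_022_s1

theorem t13_A00pm_022_s1 : ∃ t, chk3 f_A00pm_022_s1 t 2 1 1 = true := ex3_a t12_A00pm_022_s1 t10_A00pm_022_s1

theorem t14_A00pm_022_s1 : ∃ t, chk3 f_A00pm_022_s1 t 1 1 1 = true := ex3_a t13_A00pm_022_s1 k7_A00pm_022_s1

theorem c_A00pm_022_s1 : CertF 0 536870912 0 536870912 697932185 42949674 true true false .pp 0 2 2
    ndB0q0 ndB0q2 pcB2 cut_A00pm_022_s1 Ext.none :=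
  certF2 (fam := true) (s1 := true) (s2 := false) (a := 0) (b := 2) (c := 2) (cn := .pp) (n1 := ndB0q0) (n2 := ndB0q2) (pc := pcB2) (cut := cut_A00pm_022_s1) (xt := Ext.none) (P1 := 0) (W1 := 536870912) (P2 := 0) (W2 := 536870912) (P3 := 697932185) (W3 := 42949674)
    rfl (fun _ => rfl) t14_A00pm_022_s1

theorem s_A00pm_022_s1 {κ x : ℝ} (hκ : κ * h0 = ken x) (hx : ((697932185 : ℕ) : ℝ) / S ≤ x)
    (hx' : x ≤ (((697932185 : ℕ) : ℝ) + (42949674 : ℕ)) / S)
    (H : CutA (VFD κ) PP tK tL pcB (Cut.of [[⟨0, 0, 0, 67108864⟩, ⟨1, 1, 0, 67108864⟩, ⟨2, 1, 0, 67108864⟩]]) 0 2 2 0 0 (sgb true) (sgb false) x) :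
    AltA (VFD κ) PP tK tL pcB [⟨3, 0, 0, 1449551462⟩] 0 2 2 0 0 (sgb true) (sgb false) x :=
  strip_altAD (m := 1449551462) true rfl hκ (SH.κ0 hκ (SH.hx1 hx).le (SH.hx2 hx').le) (SH.hx1 hx).le (SH.hx2 hx') (covB00).cov (covB02).cov hx hx' c_A00pm_022_s1 H (noExt_A)

noncomputable def cut_A00pm_022_s3 : Cut := Cut.of [[⟨3, 0, 0, 2845415833⟩], [⟨0, 0, 0, 67108864⟩, ⟨1, 1, 0, 67108864⟩, ⟨2, 1, 0, 67108864⟩]]

noncomputable def f_A00pm_022_s3 : ℕ → ℕ → ℕ → ℕ → Bool := onCell 1073741824 536870912 0 536870912 697932185 42949674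
    (rowF 2 true true false .pp 0 2 2 (qsf 0 536870912 0 536870912 2) ndB0q0 ndB0q2 pcB2 cut_A00pm_022_s3 Ext.none)

def k0_A00pm_022_s3 : ∃ t, chk3 f_A00pm_022_s3 t 1 1 1 = true :=
  ⟨(a (l 6) (b (l 6) (l 6))), by decide +kernel⟩

theorem c_A00pm_022_s3 : CertF 0 536870912 0 536870912 697932185 42949674 true true false .pp 0 2 2
    ndB0q0 ndB0q2 pcB2 cut_A00pm_022_s3 Ext.none :=
  certF2 (fam := true) (s1 := true) (s2 := false) (a := 0) (b := 2) (c := 2) (cn := .pp) (n1 := ndB0q0) (n2 := ndB0q2) (pc := pcB2) (cut := cut_A00pm_022_s3) (xt := Ext.none) (P1 := 0) (W1 := 536870912) (P2 := 0) (W2 := 536870912) (P3 := 697932185) (W3 := 42949674)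
    rfl (fun _ => rfl) k0_A00pm_022_s3

theorem s_A00pm_022_s3 {κ x : ℝ} (hκ : κ * h0 = ken x) (hx : ((697932185 : ℕ) : ℝ) / S ≤ x)
    (hx' : x ≤ (((697932185 : ℕ) : ℝ) + (42949674 : ℕ)) / S)
    (H : CutA (VFD κ) PP tK tL pcB (Cut.of [[⟨0, 0, 0, 67108864⟩, ⟨1, 1, 0, 67108864⟩, ⟨2, 1, 0, 67108864⟩]]) 0 2 2 0 0 (sgb true) (sgb false) x) :
    AltA (VFD κ) PP tK tL pcB [⟨4, 0, 0, 2845415833⟩] 0 2 2 0 0 (sgb true) (sgb false) x :=
  strip_altAD (m := 2845415833) false rfl hκ (SH.κ0 hκ (SH.hx1 hx).le (SH.hx2 hx').le) (SH.hx1 hx).le (SH.hx2 hx') (covB00).cov (covB02).cov hx hx' c_A00pm_022_s3 H (noExt_A)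

noncomputable def cut_A00pm_023_s1 : Cut := Cut.of [[⟨4, 0, 0, 1449551462⟩]]

noncomputable def f_A00pm_023_s1 : ℕ → ℕ → ℕ → ℕ → Bool := onCell 1610612736 536870912 0 536870912 697932185 42949674
    (rowF 2 true true false .up 0 2 3 (qsf 0 536870912 0 536870912 3) ndB0q0 ndB0q2 pcB3 cut_A00pm_023_s1 Ext.none)

def k0_A00pm_023_s1 : ∃ t, chk3 f_A00pm_023_s1 t 1 1 1 = true :=
  ⟨(l 6), by decide +kernel⟩

theorem c_A00pm_023_s1 : CertF 0 536870912 0 536870912 697932185 42949674 true true false .up 0 2 3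
    ndB0q0 ndB0q2 pcB3 cut_A00pm_023_s1 Ext.none :=
  certF2 (fam := true) (s1 := true) (s2 := false) (a := 0) (b := 2) (c := 3) (cn := .up) (n1 := ndB0q0) (n2 := ndB0q2) (pc := pcB3) (cut := cut_A00pm_023_s1) (xt := Ext.none) (P1 := 0) (W1 := 536870912) (P2 := 0) (W2 := 536870912) (P3 := 697932185) (W3 := 42949674)
    rfl (fun _ => rfl) k0_A00pm_023_s1

theorem s_A00pm_023_s1 {κ x : ℝ} (hκ : κ * h0 = ken x) (hx : ((697932185 : ℕ) : ℝ) / S ≤ x)
    (hx' : x ≤ (((697932185 : ℕ) : ℝ) + (42949674 : ℕ)) / S) :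
    AltA (VFD κ) PP tK tL pcB [⟨3, 0, 0, 1449551462⟩] 0 2 3 0 0 (sgb true) (sgb false) x :=
  strip_altAD (m := 1449551462) true rfl hκ (SH.κ0 hκ (SH.hx1 hx).le (SH.hx2 hx').le) (SH.hx1 hx).le (SH.hx2 hx') (covB00).cov (covB02).cov hx hx' c_A00pm_023_s1 cutA_nil (noExt_A)

noncomputable def cut_A00pm_023_s3 : Cut := Cut.of [[⟨3, 0, 0, 2845415833⟩]]

noncomputable def f_A00pm_023_s3 : ℕ → ℕ → ℕ → ℕ → Bool := onCell 0 536870912 0 536870912 697932185 42949674
    (rowF 0 true true false .up 0 2 3 (qsf 0 536870912 0 536870912 3) ndB0q0 ndB0q2 pcB3 cut_A00pm_023_s3 Ext.none)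

def k0_A00pm_023_s3 : ∃ t, chk3 f_A00pm_023_s3 t 1 1 1 = true :=
  ⟨(a (l 1) (b (a (b (a (l 1) (b (a (l 1) (b (l 16657976) (l 6))) (l 6))) (l 6)) (a (b (b (a (b (l 16673960) (l 6)) (b (l 16687040) (l 16673960))) (l 6)) (l 6)) (b (a (b (b (l 16696336) (l 16679920)) (l 16693000)) (b (b (a (l 16714040) (l 16728056)) (l 16707832)) (a (l 16678296) (l 16694752)))) (l 6)))) (l 6))), by decide +kernel⟩

theorem c_A00pm_023_s3 : CertF 0 536870912 0 536870912 697932185 42949674 true true false .up 0 2 3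
    ndB0q0 ndB0q2 pcB3 cut_A00pm_023_s3 Ext.none :=
  certF0 (fam := true) (s1 := true) (s2 := false) (a := 0) (b := 2) (c := 3) (cn := .up) (n1 := ndB0q0) (n2 := ndB0q2) (pc := pcB3) (cut := cut_A00pm_023_s3) (xt := Ext.none) (P1 := 0) (W1 := 536870912) (P2 := 0) (W2 := 536870912) (P3 := 697932185) (W3 := 42949674)
    rfl k0_A00pm_023_s3

theorem s_A00pm_023_s3 {κ x : ℝ} (hκ : κ * h0 = ken x) (hx : ((697932185 : ℕ) : ℝ) / S ≤ x)
    (hx' : x ≤ (((697932185 : ℕ) : ℝ) + (42949674 : ℕ)) / S) :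
    AltA (VFD κ) PP tK tL pcB [⟨4, 0, 0, 2845415833⟩] 0 2 3 0 0 (sgb true) (sgb false) x :=
  strip_altAD (m := 2845415833) false rfl hκ (SH.κ0 hκ (SH.hx1 hx).le (SH.hx2 hx').le) (SH.hx1 hx).le (SH.hx2 hx') (covB00).cov (covB02).cov hx hx' c_A00pm_023_s3 cutA_nil (noExt_A)

noncomputable def cut_A00pm_101_s1 : Cut := Cut.of [[⟨4, 0, 0, 1449551462⟩], [⟨0, 1, 0, 67108864⟩, ⟨1, 0, 0, 67108864⟩, ⟨2, 1, 0, 67108864⟩]]

noncomputable def f_A00pm_101_s1 : ℕ → ℕ → ℕ → ℕ → Bool := onCell 536870912 536870912 536870912 536870912 697932185 42949674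
    (rowF 1 true true false .npn 1 0 1 (qsf 536870912 536870912 0 536870912 1) ndB0q1 ndB0q0 pcB1 cut_A00pm_101_s1 Ext.none)

def k0_A00pm_101_s1 : ∃ t, chk3 f_A00pm_101_s1 t 1 1 1 = true :=
  ⟨(b (l 3) (a (l 3) (b (l 3) (a (l 3) (b (l 3) (a (l 3) (b (l 3) (a (l 3) (l 14))))))))), by decide +kernel⟩

theorem c_A00pm_101_s1 : CertF 536870912 536870912 0 536870912 697932185 42949674 true true false .npn 1 0 1
    ndB0q1 ndB0q0 pcB1 cut_A00pm_101_s1 Ext.none :=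
  certF1 (fam := true) (s1 := true) (s2 := false) (a := 1) (b := 0) (c := 1) (cn := .npn) (n1 := ndB0q1) (n2 := ndB0q0) (pc := pcB1) (cut := cut_A00pm_101_s1) (xt := Ext.none) (P1 := 536870912) (W1 := 536870912) (P2 := 0) (W2 := 536870912) (P3 := 697932185) (W3 := 42949674)
    rfl (fun _ => rfl) k0_A00pm_101_s1

theorem s_A00pm_101_s1 {κ x : ℝ} (hκ : κ * h0 = ken x) (hx : ((697932185 : ℕ) : ℝ) / S ≤ x)
    (hx' : x ≤ (((697932185 : ℕ) : ℝ) + (42949674 : ℕ)) / S)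
    (H : CutA (VFD κ) PP tK tL pcB (Cut.of [[⟨0, 1, 0, 67108864⟩, ⟨1, 0, 0, 67108864⟩, ⟨2, 1, 0, 67108864⟩]]) 1 0 1 0 0 (sgb true) (sgb false) x) :
    AltA (VFD κ) PP tK tL pcB [⟨3, 0, 0, 1449551462⟩] 1 0 1 0 0 (sgb true) (sgb false) x :=
  strip_altAD (m := 1449551462) true rfl hκ (SH.κ0 hκ (SH.hx1 hx).le (SH.hx2 hx').le) (SH.hx1 hx).le (SH.hx2 hx') (covB01).cov (covB00).cov hx hx' c_A00pm_101_s1 H (noExt_A)

noncomputable def cut_A00pm_101_s3 : Cut := Cut.of [[⟨3, 0, 0, 2845415833⟩], [⟨0, 1, 0, 67108864⟩, ⟨1, 0, 0, 67108864⟩, ⟨2, 1, 0, 67108864⟩]]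

noncomputable def f_A00pm_101_s3 : ℕ → ℕ → ℕ → ℕ → Bool := onCell 536870912 536870912 0 536870912 697932185 42949674
    (rowF 0 true true false .npn 1 0 1 (qsf 536870912 536870912 0 536870912 1) ndB0q1 ndB0q0 pcB1 cut_A00pm_101_s3 Ext.none)

def k0_A00pm_101_s3 : ∃ t, chk3 f_A00pm_101_s3 t 1 1 1 = true :=
  ⟨(l 6), by decide +kernel⟩

theorem c_A00pm_101_s3 : CertF 536870912 536870912 0 536870912 697932185 42949674 true true false .npn 1 0 1
    ndB0q1 ndB0q0 pcB1 cut_A00pm_101_s3 Ext.none :=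
  certF0 (fam := true) (s1 := true) (s2 := false) (a := 1) (b := 0) (c := 1) (cn := .npn) (n1 := ndB0q1) (n2 := ndB0q0) (pc := pcB1) (cut := cut_A00pm_101_s3) (xt := Ext.none) (P1 := 536870912) (W1 := 536870912) (P2 := 0) (W2 := 536870912) (P3 := 697932185) (W3 := 42949674)
    rfl k0_A00pm_101_s3

theorem s_A00pm_101_s3 {κ x : ℝ} (hκ : κ * h0 = ken x) (hx : ((697932185 : ℕ) : ℝ) / S ≤ x)
    (hx' : x ≤ (((697932185 : ℕ) : ℝ) + (42949674 : ℕ)) / S)
    (H : CutA (VFD κ) PP tK tL pcB (Cut.of [[⟨0, 1, 0, 67108864⟩, ⟨1, 0, 0, 67108864⟩, ⟨2, 1, 0, 67108864⟩]]) 1 0 1 0 0 (sgb true) (sgb false) x) :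
    AltA (VFD κ) PP tK tL pcB [⟨4, 0, 0, 2845415833⟩] 1 0 1 0 0 (sgb true) (sgb false) x :=
  strip_altAD (m := 2845415833) false rfl hκ (SH.κ0 hκ (SH.hx1 hx).le (SH.hx2 hx').le) (SH.hx1 hx).le (SH.hx2 hx') (covB01).cov (covB00).cov hx hx' c_A00pm_101_s3 H (noExt_A)

noncomputable def cut_A00pm_102_s3 : Cut := Cut.of [[⟨3, 0, 0, 2845415833⟩], [⟨0, 1, 0, 33554432⟩, ⟨1, 0, 0, 33554432⟩, ⟨2, 1, 0, 33554432⟩]]

noncomputable def f_A00pm_102_s3 : ℕ → ℕ → ℕ → ℕ → Bool := onCell 536870912 536870912 0 536870912 697932185 42949674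
    (rowF 0 true true false .npp 1 0 2 (qsf 536870912 536870912 0 536870912 2) ndB0q1 ndB0q0 pcB2 cut_A00pm_102_s3 Ext.none)

def k0_A00pm_102_s3 : ∃ t, chk3 f_A00pm_102_s3 t 1 1 1 = true :=
  ⟨(l 6), by decide +kernel⟩

theorem c_A00pm_102_s3 : CertF 536870912 536870912 0 536870912 697932185 42949674 true true false .npp 1 0 2
    ndB0q1 ndB0q0 pcB2 cut_A00pm_102_s3 Ext.none :=
  certF0 (fam := true) (s1 := true) (s2 := false) (a := 1) (b := 0) (c := 2) (cn := .npp) (n1 := ndB0q1) (n2 := ndB0q0) (pc := pcB2) (cut := cut_A00pm_102_s3) (xt := Ext.none) (P1 := 536870912) (W1 := 536870912) (P2 := 0) (W2 := 536870912) (P3 := 697932185) (W3 := 42949674)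
    rfl k0_A00pm_102_s3

theorem s_A00pm_102_s3 {κ x : ℝ} (hκ : κ * h0 = ken x) (hx : ((697932185 : ℕ) : ℝ) / S ≤ x)
    (hx' : x ≤ (((697932185 : ℕ) : ℝ) + (42949674 : ℕ)) / S)
    (H : CutA (VFD κ) PP tK tL pcB (Cut.of [[⟨0, 1, 0, 33554432⟩, ⟨1, 0, 0, 33554432⟩, ⟨2, 1, 0, 33554432⟩]]) 1 0 2 0 0 (sgb true) (sgb false) x) :
    AltA (VFD κ) PP tK tL pcB [⟨4, 0, 0, 2845415833⟩] 1 0 2 0 0 (sgb true) (sgb false) x :=
  strip_altAD (m := 2845415833) false rfl hκ (SH.κ0 hκ (SH.hx1 hx).le (SH.hx2 hx').le) (SH.hx1 hx).le (SH.hx2 hx') (covB01).cov (covB00).cov hx hx' c_A00pm_102_s3 H (noExt_A)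

end Pool.Agent.Strip051.G.I6500_6900.Tab.St.C
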