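import Pool.Agent.Strip051.G.I6500_6900.StH
import Pool.Agent.Strip051.G.I6500_6900.StF

/-! # Unit strips 13 (generated) -/

set_option linter.all false
set_option maxRecDepth 100000

namespace Pool.Agent.Strip051.G.I6500_6900.Tab.St.C

open Pool.Agent.Strip051.PB Pool.Agent.Strip051.PB.T Pool.Agent.StripNear Pool.Agent.Strip051.LC
open Pool.Agent.Strip051.G.I6500_6900.Tab Pool.Agent.Strip051.G.I6500_6900.Tab.St

noncomputable def cut_A00pm_123_s3 : Cut := Cut.of [[⟨3, 0, 0, 2845415833⟩], [⟨0, 1, 0, 67108864⟩, ⟨1, 1, 0, 67108864⟩, ⟨2, 2, 0, 16777216⟩], [⟨0, 0, 1, 20971520⟩, ⟨1, 1, 0, 33554432⟩, ⟨2, 1, 1, 20971520⟩]]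

noncomputable def xt_A00pm_123_s3 : Ext := strExt6 dd true true false .u0 .u2 .s2 .npn 1 2 3 rfl rfl gl3 vv ww ndB0q1 ndB0q2

noncomputable def f_A00pm_123_s3 : ℕ → ℕ → ℕ → ℕ → Bool := onCell 1610612736 536870912 0 536870912 697932185 42949674
    (rowF 2 true true false .npn 1 2 3 (qsf 536870912 536870912 0 536870912 3) ndB0q1 ndB0q2 pcB3 cut_A00pm_123_s3 xt_A00pm_123_s3)

def k0_A00pm_123_s3 : ∃ t, chk3 f_A00pm_123_s3 t 2 1 1 = true :=
  ⟨(a (b (b (l 1) (l 6)) (l 6)) (b (a (b (a (a (l 1) (b (b (l 16729504) (l 16717800)) (l 16701312))) (b (b (a (l 16741416) (l 16751296)) (a (l 16730592) (l 16741344))) (a (l 16715000) (l 16726832)))) (b (a (b (l 16676616) (l 6)) (b (l 16705416) (l 16696920))) (l 6))) (b (b (a (b (b (l 1071555599) (l 1071624719)) (a (l 16750728) (l 16759208))) (b (c (l 1072581135) (l 1072142863)) (b (l 1072451599) (a (l 16764848) (l 16770808))))) (a (b (a (l 16742176) (l 16751976)) (l 16738736)) (b (a (l 16760576) (l 16767808))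 (b (l 16760336) (l 16757864))))) (b (a (b (l 16730960) (l 16724936)) (b (l 16754960) (l 16752856))) (a (a (l 6) (b (l 16728520) (l 6))) (b (l 16753288) (b (l 16750648) (l 16745128))))))) (a (l 6) (b (l 6) (l 6))))), by decide +kernel⟩

def k1_A00pm_123_s3 : ∃ t, chk3 f_A00pm_123_s3 t 6 4 1 = true :=
  ⟨(a (b (a (b (c (l 1073337359) (l 1073004047)) (b (l 1073367567) (a (l 1073177615) (c (l 1073726991) (l 1073390095))))) (a (b (l 4) (b (l 4) (a (l 1073863183) (l 1074017295)))) (l 4))) (a (b (a (c (l 16780152) (l 16771400)) (c (b (l 1073692175) (l 1073666063)) (b (l 1073386511) (l 16772608)))) (a (l 16771344) (b (c (l 16776432) (l 16774568)) (l 16775496)))) (b (a (c (l 1073966095) (l 1073828879)) (l 1074235407)) (a (b (l 1073850895) (l 1073868303)) (b (c (l 1074261007) (l 1074157071)) (a (l 16779512) (l 1074351631))))))) (b (l 4) (b (a (a (a (l 1074522127) (l 4)) (l 4)) (l 4)) (a (b (a (c (a (l 1074518543) (c (l 1074806799) (l 1074753039)))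 (a (l 1074426895) (l 1074680847))) (b (l 4) (l 1075130895))) (a (a (a (l 1074526735) (l 1074658831)) (l 1074870287)) (l 1075245583))) (l 4))))), by decide +kernel⟩

def k2_A00pm_123_s3 : ∃ t, chk3 f_A00pm_123_s3 t 6 10 1 = true :=
  ⟨(a (a (b (a (l 16770504) (l 16775904)) (a (l 16771984) (l 16778496))) (b (a (a (l 16778800) (l 16780544)) (b (l 1074350095) (l 1074469903))) (a (l 16783896) (b (l 16786904) (l 16790712))))) (a (b (a (b (a (l 1074734095) (l 1075016207)) (a (l 16785360) (l 16785608))) (b (l 1075393039) (b (l 1075500047) (l 1075571215)))) (a (b (a (l 16788992) (l 16789552)) (l 16794056)) (b (a (l 16789232) (l 16788256)) (l 1075383311)))) (b (a (b (a (l 1075740687) (a (l 1075823631) (a (l 1075829263) (l 4)))) (a (b (l 1075847695) (l 1075920399)) (a (b (l 1075929103) (l 1076007439)) (c (b (l 1076016655) (l 1076089871)) (b (l 1075852815) (l 1075912719)))))) (b (l 4) (a (a (b (c (l 1076024335) (l 1075862031)) (l 1076025359)) (b (l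 4) (c (l 1076109839) (l 1075941903)))) (l 4)))) (a (b (a (l 1075535375) (a (b (l 1076108303) (l 16775552)) (b (l 1076126735) (l 1076256271)))) (a (l 1076309519) (a (l 16769432) (l 1075923983)))) (a (b (b (a (l 1076153871) (c (l 1076235279) (l 1076075535))) (c (l 1076361231) (l 1076206607))) (a (l 1075933199) (b (l 1076407823) (l 16781560)))) (c (b (c (a (b (l 1076264463) (l 1076383759)) (b (a (b (l 4) (a (l 1076283919) (l 1076279311))) (l 4)) (a (l 1076369935) (l 1076358671)))) (a (b (l 1076188687) (l 1076311567)) (b (a (b (l 4) (a (l 1076209679) (l 1076205071))) (l 4)) (a (l 1076298767) (l 1076287503))))) (a (b (l 1076466191) (l 1076580879)) (b (l 1076445711) (l 1076557839)))) (b (c (a (b (l 1075841039) (l 1076236815)) (b (a (b (l 4) (a (l 1076132879) (l 1076128271))) (l 4)) (a (l 1076224527) (l 1076213775)))) (a (b (l 1076028431) (l 1076158991)) (b (a (b (l 4) (a (l 1076053007) (l 1076048911))) (l 4)) (a (l 1076147215) (l 1076137487)))))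 (a (b (l 1076323343) (l 1076444687)) (b (l 1076304911) (l 1076423695)))))))))), by decide +kernel⟩

def k3_A00pm_123_s3 : ∃ t, chk3 f_A00pm_123_s3 t 6 11 1 = true :=
  ⟨(a (a (b (a (l 16776000) (l 16783784)) (l 16738696)) (b (a (l 16791280) (l 16798080)) (l 16799576))) (a (b (a (b (l 16799640) (l 16804992)) (b (l 16800224) (l 16806112))) (a (l 16808496) (l 16810264))) (b (a (b (a (l 16798888) (l 1076160527)) (a (l 16805080) (l 16802160))) (b (a (b (l 1076648975) (l 16772912)) (b (a (l 16777352) (l 1076603407)) (a (l 16790864) (l 16778336)))) (a (l 16777088) (a (l 16794792) (l 16782104))))) (a (a (l 16809280) (l 16764016)) (a (b (l 16801176) (l 16801752)) (b (l 16796384) (l 16796600))))))), by decide +kernel⟩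

def k4_A00pm_123_s3 : ∃ t, chk3 f_A00pm_123_s3 t 7 4 1 = true :=
  ⟨(l 4), by decide +kernel⟩

def k5_A00pm_123_s3 : ∃ t, chk3 f_A00pm_123_s3 t 14 10 1 = true :=
  ⟨(a (a (b (l 4) (b (a (a (b (l 4) (a (c (l 1076310543) (l 1076164111)) (b (l 4) (c (l 1076324367) (l 1076179983))))) (l 4)) (l 4)) (a (c (a (b (l 1076417551) (l 1076527631)) (b (a (l 1076390927) (c (l 1076404239) (l 1076338191))) (b (l 1076463119) (l 1076515855)))) (b (a (l 1076278287) (b (a (l 1076223503) (l 1076204559)) (l 1076272655))) (a (l 1076394511) (b (l 1076329487) (l 1076385807))))) (b (a (a (a (b (l 4) (c (l 1076382223) (l 1076246031))) (l 4)) (l 4)) (l 4)) (a (a (b (b (c (l 1076416527) (l 1076282895)) (l 1076512271)) (l 1076418063)) (c (l 1076431375) (l 1076300303))) (b (l 4) (l 1076353551))))))) (l 4)) (l 4)), by decide +kernel⟩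

def k6_A00pm_123_s3 : ∃ t, chk3 f_A00pm_123_s3 t 28 11 1 = true :=
  ⟨(a (b (b (a (b (a (l 1076571151) (l 1076531727)) (l 1076654607)) (b (a (l 1076484111) (l 1076429839)) (b (l 1076532751) (l 1076572175)))) (a (b (l 1076661263) (l 16784816)) (b (a (l 16779880) (l 1076455439)) (l 1075743759)))) (a (b (b (l 16791200) (l 16791736)) (l 16770432)) (b (b (l 1075457039) (l 1075151375)) (b (l 16786704) (l 16786136))))) (b (a (b (a (b (l 1076367887) (b (l 1076439055) (l 1076541455))) (b (l 4) (a (b (l 1076386831) (l 1076407311)) (b (a (l 1076350479) (l 4)) (l 1076327951))))) (a (b (b (l 1076388367) (l 1076243983)) (l 1075455503)) (b (a (b (l 1076219407) (l 1076056591)) (l 1076082191)) (a (l 1075822095) (l 1075771407))))) (b (a (b (l 4) (b (l 4) (l 1075749903))) (l 4)) (a (b (a (l 1076054543) (l 1076035087)) (a (l 1075748367) (b (l 1075805711) (l 1075660303)))) (a (b (b (l 4) (a (l 1075947535) (b (l 4) (a (l 1075906575) (l 1075904527))))) (a (b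 (a (l 1075932687) (l 1075796495)) (l 1075653135)) (l 1075721231))) (b (l 4) (l 1076256783)))))) (a (a (b (a (l 1075558927) (l 1075455503)) (l 1074958351)) (b (a (l 1075384335) (l 1075348495)) (l 1074864655))) (b (a (b (l 1075458063) (l 1075195407)) (b (a (l 1075444751) (l 1075444751)) (l 1075187215))) (a (l 1074836495) (l 1074835471)))))), by decide +kernel⟩

def k7_A00pm_123_s3 : ∃ t, chk3 f_A00pm_123_s3 t 29 11 1 = true :=
  ⟨(a (b (a (b (l 4) (a (b (l 4) (a (b (a (l 1075793423) (l 4)) (l 1075653647)) (b (l 4) (l 1075932175)))) (l 4))) (l 4)) (a (b (b (a (a (l 1075450383) (l 1075462671)) (a (b (l 1075546639) (l 1075417103)) (b (l 4) (l 1075442191)))) (a (l 1075204111) (a (l 1075231759) (l 1075258383)))) (a (b (l 1074969103) (l 1074751503)) (b (l 1075014159) (l 1074800655)))) (b (b (l 4) (a (a (b (l 1075350543) (l 1075232271)) (b (l 4) (l 1075271183))) (b (l 4) (a (b (l 4) (l 1075287567)) (l 4))))) (b (a (b (l 1075138063) (l 1075029007))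 (b (a (l 1075204111) (l 1075255823)) (a (l 1075096079) (l 1075148815)))) (a (l 1074873359) (b (l 1075019279) (l 1074920463))))))) (b (l 4) (b (l 4) (a (b (a (b (l 4) (a (l 1075207695) (l 4))) (l 4)) (a (b (a (l 1075105295) (l 1075170831)) (a (l 1075007503) (l 1075073551))) (a (b (l 4) (a (l 1075126799) (a (b (l 4) (b (l 4) (l 1075110415))) (l 4)))) (l 4)))) (l 4))))), by decide +kernel⟩

def k8_A00pm_123_s3 : ∃ t, chk3 f_A00pm_123_s3 t 15 5 1 = true :=
  ⟨(l 4), by decide +kernel⟩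

def k9_A00pm_123_s3 : ∃ t, chk3 f_A00pm_123_s3 t 12 6 1 = true :=
  ⟨(b (a (b (l 16685080) (l 16755480)) (b (a (l 16791560) (l 16803032)) (a (l 16783704) (l 16798280)))) (a (l 6) (b (a (l 16775736) (l 16792808)) (a (l 6) (l 16785048))))), by decide +kernel⟩

def k10_A00pm_123_s3 : ∃ t, chk3 f_A00pm_123_s3 t 13 6 1 = true :=
  ⟨(a (b (b (b (l 16810608) (a (l 16808896) (l 16810968))) (a (a (l 16805904) (l 16809232)) (a (b (l 16810552) (l 16811392)) (b (b (l 16811664) (l 16790240)) (l 16812232))))) (a (b (l 16804744) (l 16757240)) (b (a (l 16810176) (l 16769960)) (a (l 16805976) (b (l 16808896) (l 16808120)))))) (b (a (a (b (b (l 16810192) (l 16810000)) (b (b (l 16810208) (b (l 16800104) (a (l 16810872) (a (l 16800088) (l 16809800))))) (a (l 16801376) (b (a (l 16811008) (b (b (l 16809768) (l 16810096)) (l 16810440))) (l 16811336))))) (b (l 16785704) (b (b (l 16805904) (l 16806032)) (b (a (b (a (b (l 16808488) (l 16808480)) (l 16807120)) (l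 16808200)) (b (l 16804720) (a (l 16805568) (l 16804088)))) (l 16796928))))) (b (b (l 16756432) (l 16796552)) (b (a (l 16800024) (l 16793824)) (a (b (a (l 16801912) (l 16798376)) (a (b (l 16780728) (l 16802512)) (b (l 16798576) (l 16798576)))) (b (l 16794016) (a (b (l 16795344) (l 16795584)) (l 16793040))))))) (a (a (b (b (a (l 16812336) (l 16790872)) (a (l 16811720) (l 16811448))) (a (b (l 16810352) (l 16810296)) (b (l 16810888) (l 16811976)))) (b (b (b (l 16808272) (l 16808744)) (c (l 16765528) (l 16769840))) (b (a (l 16810664) (l 16768592)) (a (l 16813336) (l 16814696))))) (a (b (b (b (a (l 16803416) (l 16799728)) (l 16782008)) (b (l 16762128) (l 16763608))) (b (a (l 16767584) (l 16765128)) (b (l 16770128) (l 16773648)))) (b (b (b (a (l 16796536) (b (l 16772392) (l 16794272))) (l 16796864)) (a (l 16758896) (l 16777728))) (b (a (l 16763048) (l 16761352)) (b (l 16808608) (l 16812560)))))))), by decide +kernel⟩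

def k11_A00pm_123_s3 : ∃ t, chk3 f_A00pm_123_s3 t 6 7 1 = true :=
  ⟨(a (l 6) (b (a (b (b (a (l 16796312) (a (l 16804304) (l 16809640))) (a (l 6) (a (b (l 16805496) (l 6)) (b (l 16811864) (l 16813960))))) (a (l 6) (b (a (l 6) (b (l 16815448) (l 6))) (l 6)))) (a (c (b (a (b (l 16807736) (l 16770784)) (b (l 16812560) (l 16777944))) (b (a (l 16816112) (l 16783568)) (a (l 16799328) (l 16787792)))) (a (b (b (l 16822568) (l 16789840)) (b (l 16838240) (b (l 16843320) (l 16847560)))) (b (b (l 16829200) (l 16799376)) (b (l 16808224) (l 16815264))))) (b (b (a (b (l 16777888) (l 16782832)) (b (l 16817224) (l 16822648))) (a (a (l 16750216) (l 16749240)) (a (l 16748256) (l 16747224)))) (b (a (b (b (l 16757760) (l 16759368)) (b (l 16760552) (l 16761800))) (c (l 16747432) (l 16812440))) (a (c (l 16793504) (l 16821192)) (b (l 16762840) (l 16765176))))))) (a (l 6) (a (a (l 6) (b (b (c (l 16813680) (c (l 16856624) (l 16873032))) (c (l 16829272) (c (l 16863472)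 (l 16881184)))) (l 6))) (b (b (c (a (l 16818304) (l 16839584)) (a (c (l 16861016) (l 16877240)) (l 16825128))) (c (a (c (l 16836480) (l 16850784)) (l 16801640)) (a (b (l 16831456) (l 16834544)) (l 16830952)))) (b (a (a (l 6) (c (l 16847984) (l 16838760))) (c (b (l 16847072) (l 16849608)) (b (l 16793816) (l 16839128)))) (a (l 6) (c (b (l 16852472) (l 16855512)) (b (l 16842816) (l 16846648)))))))))), by decide +kernel⟩

def k12_A00pm_123_s3 : ∃ t, chk3 f_A00pm_123_s3 t 28 6 1 = true :=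
  ⟨(b (a (b (a (b (l 16789976) (l 16788776)) (b (l 16774920) (l 16784528))) (b (l 16744760) (a (l 16789784) (l 16787344)))) (b (b (a (a (l 16782808) (l 16771400)) (a (l 1075006479) (b (l 16775472) (l 16780856)))) (a (l 16782384) (a (l 16781832) (l 16781720)))) (a (b (l 16783856) (l 16786512)) (b (l 16783800) (l 16787296))))) (b (a (b (a (b (a (b (l 16791696) (l 16791904)) (l 16769728)) (a (l 16793632) (l 16770744))) (b (l 16789080) (a (b (l 16790424) (l 16791208)) (b (l 16789792) (l 16790600))))) (a (c (l 16775656) (l 16775000)) (b (l 16792816) (l 16795552)))) (b (a (b (l 16788712) (l 16790368)) (l 16790552)) (a (b (a (b (l 16791296) (l 16792744)) (b (l 16791808) (l 16792512))) (l 16794936)) (b (a (l 16792904) (l 16793152)) (a (l 16773536) (b (l 16794376) (l 16794992))))))) (b (a (a (a (l 16760024) (l 16759024)) (b (l 16798600) (l 16801720))) (a (c (l 16778304) (l 16778664)) (c (l 16799168) (l 16798240)))) (c (a (b (l 16782368) (l 16764608))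 (a (l 16804456) (l 16803464))) (a (a (l 16770864) (l 16768688)) (b (l 16784096) (l 16767680))))))), by decide +kernel⟩

def k13_A00pm_123_s3 : ∃ t, chk3 f_A00pm_123_s3 t 29 12 1 = true :=
  ⟨(b (a (a (b (b (a (l 1074570255) (l 1074627599)) (a (l 16780608) (l 1074587663))) (a (l 16771232) (l 1074671631))) (b (b (b (a (l 1074735119) (a (l 1074808847) (l 1074867215))) (a (l 1074697231) (l 1074822159))) (a (l 1074705423) (b (l 1074847247) (l 1074894863)))) (a (b (l 16775952) (l 16782552)) (b (l 1074995215) (l 16777360))))) (a (b (b (a (a (b (b (l 1074942479) (l 1074930703)) (l 1074947599)) (b (b (b (l 1075018255) (l 1075011087)) (l 1075018767)) (a (l 1075028495) (l 1075094031)))) (a (b (b (a (l 1075079695) (a (l 1075121679) (l 1075137039))) (a (l 1075117583) (l 1075157519))) (l 1075180047)) (b (l 1075188239) (l 1075244047)))) (a (a (l 1075037711) (b (l 1075137039) (l 1075201551))) (a (b (l 1075235855) (l 1075295247)) (l 1075328015)))) (a (b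 (a (l 1075182607) (l 1075294735)) (l 1075366415)) (b (a (l 1075378703) (l 1075438607)) (l 1075518991)))) (b (a (b (b (l 4) (a (l 1075300367) (l 4))) (a (l 1075384335) (l 1075439119))) (b (l 4) (a (b (l 4) (l 1075520015)) (l 4)))) (a (b (a (l 1075494927) (l 1075549711)) (l 1075633167)) (b (a (l 1075602959) (b (l 1075626511) (l 1075681295))) (a (l 1075711503) (l 1075763215))))))) (a (b (a (a (l 16784248) (l 16784720)) (a (l 16774560) (l 16779936))) (a (l 16788232) (a (l 16788872) (l 16788848)))) (a (b (a (b (l 16783968) (l 16785712)) (b (l 1075626511) (l 16784944))) (a (l 16788456) (b (l 16786784) (l 16788488)))) (b (a (b (l 1075740687) (l 1075846159)) (b (l 1075846671) (l 1075952143))) (b (a (l 16785720) (l 1076052495)) (a (l 16787416) (l 16786160))))))), by decide +kernel⟩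

def k14_A00pm_123_s3 : ∃ t, chk3 f_A00pm_123_s3 t 29 13 1 = true :=
  ⟨(b (a (b (a (l 16791736) (l 16791968)) (a (b (l 16793640) (a (l 16795048) (l 16794728))) (l 16794064))) (a (b (b (l 16790328) (l 16791488)) (l 16792880)) (b (b (a (l 16788816) (l 16787544)) (l 16778824)) (b (l 16790216) (l 16790880))))) (a (b (a (b (a (l 16796304) (b (l 16795568) (l 16796216))) (l 16798400)) (b (a (l 16774720) (l 16794904)) (a (l 16796920) (b (l 16795520) (l 16796352))))) (a (c (l 16801976) (l 16803120)) (c (l 16799840) (l 16778624)))) (b (a (b (l 16793800) (a (l 16774232) (l 16794040))) (l 16791912)) (a (b (a (l 16796568) (b (l 16794720) (l 16795688))) (l 16798152)) (b (a (l 16773264) (l 16793112)) (a (l 16796136) (b (l 16794392) (l 16795656)))))))), by decide +kernel⟩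

def k15_A00pm_123_s3 : ∃ t, chk3 f_A00pm_123_s3 t 14 14 1 = true :=
  ⟨(a (b (b (a (a (b (l 16815736) (l 16820944)) (l 16774872)) (a (l 16772720) (l 16780584))) (a (c (l 16779112) (l 16794616)) (a (l 16782072) (b (l 16818256) (l 16822560))))) (a (b (b (b (l 16751496) (l 16775720)) (a (l 16758544) (l 16756072))) (a (b (l 16761272) (l 16763608)) (b (l 16758904) (l 16761144)))) (a (a (b (l 16772520) (l 16757840)) (b (l 16770200) (l 16756192))) (b (l 16787688) (c (l 16829224) (l 16845872)))))) (a (a (b (b (c (l 16806640) (l 16769232)) (c (l 16812848) (l 16820928))) (b (l 16783568) (c (l 16827280) (l 16841968)))) (b (b (c (l 16804288) (l 16765272)) (c (l 16810096) (l 16816320))) (b (l 16780088) (c (l 16783696) (l 16838584))))) (a (b (b (c (l 16801856) (l 16761360)) (c (l 16807880) (l 16812456))) (b (l 16777088) (b (l 16826344) (l 16831488)))) (b (b (c (l 16799952) (l 16779176)) (c (l 16806064) (l 16767240))) (b (b (l 16814016) (l 16818656))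 (b (l 16823520) (l 16828640))))))), by decide +kernel⟩

def k16_A00pm_123_s3 : ∃ t, chk3 f_A00pm_123_s3 t 14 15 1 = true :=
  ⟨(a (b (c (a (b (c (l 16791152) (l 16802104)) (c (l 16816680) (l 16807520))) (b (b (l 16834512) (l 16837464)) (b (l 16798808) (l 16802432)))) (a (c (b (l 16814192) (l 16820552)) (b (l 16869360) (l 16876760))) (b (l 16835016) (a (l 16865688) (l 16863480))))) (a (a (b (c (l 16827928) (l 16835880)) (c (c (l 16848768) (l 16862648)) (l 16844224))) (b (c (l 16849528) (l 16876416)) (c (b (l 16854944) (l 16858648)) (l 16843584)))) (b (a (c (l 16808128) (l 16875000)) (b (l 16817288) (l 16800696))) (a (c (b (l 16855984) (l 16817776)) (l 16842768)) (b (l 16804928) (a (l 16830136) (l 16829240))))))) (b (a (b (b (l 16797432) (b (l 16800544) (l 16803000))) (b (c (l 16839704) (l 16857464)) (c (l 16843632) (l 16819632)))) (a (b (l 16796192) (b (l 16844472) (l 16848384))) (a (b (l 16835784) (l 16801192)) (b (l 16833408) (l 16795920)))))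 (c (a (b (a (l 16850000) (l 16848464)) (b (l 16854216) (l 16814792))) (a (b (l 16845384) (l 16849976)) (b (l 16841040) (l 16844976)))) (a (a (b (l 16822840) (a (l 16822224) (l 16816152))) (b (l 16810376) (a (l 16810432) (l 16805048)))) (a (b (l 16799528) (a (l 16799960) (l 16795224))) (b (l 16789960) (a (l 16790656) (l 16786352)))))))), by decide +kernel⟩

def k17_A00pm_123_s3 : ∃ t, chk3 f_A00pm_123_s3 t 60 12 1 = true :=
  ⟨(b (a (b (l 4) (a (b (b (l 4) (a (l 1075730959) (a (l 1075766287) (l 4)))) (a (l 1075812367) (b (l 1075832847) (l 1075887119)))) (b (l 4) (a (b (a (l 1075867151) (l 4)) (l 1075933199)) (a (b (l 4) (l 1075965967)) (l 4)))))) (l 4)) (b (a (a (b (a (l 1075919375) (l 1075967503)) (a (l 1076024847) (l 1076072463))) (b (a (b (l 1075986447) (l 1076039183)) (b (c (l 1076141071) (l 1075917839)) (l 1076083215))) (a (b (l 1076091407) (l 1076143631)) (b (l 1076135951) (l 1076187663))))) (b (a (a (b (l 4) (c (l 1076232207) (l 1076016655)))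 (l 4)) (l 4)) (a (a (b (a (l 1076166671) (c (l 1076292111) (l 1076080143))) (a (l 1076218383) (l 1076239375))) (a (b (c (l 1076311055) (b (l 1076087823) (l 1076114959))) (l 1076259343)) (b (b (l 4) (l 1076239887)) (l 1076278799)))) (b (l 4) (a (c (l 1076407823) (a (l 1076195855) (l 1076215311))) (l 4)))))) (a (b (a (b (l 1076127759) (l 1076168207)) (b (a (l 1076194831) (l 1076238863)) (a (l 16779712) (l 1076273679)))) (a (l 1076708879) (a (l 1076220431) (l 1076247055)))) (a (b (b (a (l 1076280847) (l 1076320783)) (a (l 1076311567) (a (l 1076335631) (l 1076349967)))) (a (b (l 1076288015) (l 1076236815)) (b (l 1076301327) (l 1076232207)))) (b (b (a (c (l 1076456463) (b (l 1076245519) (l 1076269583))) (b (a (l 1076373007) (l 4)) (b (a (l 1076391951) (a (a (l 1076401167) (l 4)) (l 4))) (a (c (l 1076500495) (l 1076306447)) (l 1076418063))))) (a (b (a (l 1076368911) (l 1076377103)) (l 1076617743)) (a (b (a (l 1076379151) (l 1076376591)) (l 1076341775))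 (l 1076379663)))) (a (b (b (l 1076313615) (l 1076273679)) (l 1076225039)) (b (a (l 1076297743) (l 1076320271)) (l 1076255247)))))))), by decide +kernel⟩

def k18_A00pm_123_s3 : ∃ t, chk3 f_A00pm_123_s3 t 61 12 1 = true :=
  ⟨(b (l 4) (a (b (l 4) (a (a (b (b (l 4) (l 1076427791)) (l 1076342287)) (b (l 4) (l 1076411919))) (b (l 4) (a (l 1076487695) (l 4))))) (l 4))), by decide +kernel⟩

def k19_A00pm_123_s3 : ∃ t, chk3 f_A00pm_123_s3 t 30 13 1 = true :=
  ⟨(b (a (a (b (b (a (l 16780840) (l 1077215759)) (a (l 16787176) (l 1076018703))) (a (l 16783232) (b (l 16786512) (l 16787376)))) (b (a (b (a (l 1076136463) (l 1076130319)) (a (l 16784272) (l 16783464))) (b (a (l 1076140047) (l 1076179471)) (a (l 1076048911) (l 1076096527)))) (b (a (l 16779720) (l 1076545039)) (a (l 16786032) (l 16784744))))) (a (b (a (b (a (l 1076243471) (l 1076314639)) (l 1076203023)) (b (l 1075900943) (l 1076361231))) (a (b (l 1076142607) (l 16778200)) (b (l 1076303887)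 (l 1076265999)))) (b (a (b (l 1076078607) (l 1076542479)) (l 4)) (a (b (l 1074877967) (a (l 1076398095) (l 1076497423))) (b (a (l 1076633615) (l 1076741647)) (a (l 1076601871) (l 1076711439))))))) (a (a (a (b (l 16790048) (b (l 16792040) (l 16773384))) (b (l 16788872) (l 16792144))) (b (a (l 16777248) (l 16781368)) (a (l 16791232) (l 16790296)))) (a (b (a (b (l 16784720) (l 16786168)) (b (l 16778128) (l 16779672))) (a (l 16778816) (b (l 16786928) (l 16789416)))) (b (a (b (a (l 16776984) (l 1076484111)) (a (l 16783840) (l 16777800))) (b (a (l 1076590607) (l 1077241359)) (a (l 1076136975) (b (l 1076751887) (l 1076877839))))) (a (b (a (l 16785920) (l 16785168)) (l 16782864)) (a (b (l 1075876879) (l 16786848)) (b (a (l 16778424) (l 1077165071)) (l 16780640)))))))), by decide +kernel⟩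

def k20_A00pm_123_s3 : ∃ t, chk3 f_A00pm_123_s3 t 30 14 1 = true :=
  ⟨(a (b (b (a (b (a (l 16796768) (b (l 16795272) (l 16796576))) (l 16799632)) (a (b (l 16774488) (l 16798096)) (b (l 16794312) (a (l 16776568) (l 16776448))))) (a (l 16815864) (b (l 16801536) (l 16805304)))) (b (a (b (l 16811720) (l 16816048)) (b (l 16809016) (l 16812800))) (a (l 16801216) (b (l 16816240) (l 16819480))))) (b (a (b (a (b (l 16793400) (l 16776056)) (l 16783472)) (b (a (l 16799696) (l 16804192)) (l 16802632))) (b (a (b (l 16780424) (l 16793952)) (b (c (l 16789240) (l 16783616)) (l 16786592))) (a (b (l 16797112) (a (l 16800176) (l 16799384))) (a (b (l 16795328) (l 16797312)) (l 16784240))))) (a (b (a (l 16808240) (l 16806064)) (c (l 16810544) (l 16789032))) (b (a (l 16792368) (b (c (l 16797920) (a (l 16798616) (l 16796568))) (l 16798928))) (a (l 16784160) (b (l 16800280) (l 16801608))))))), by decide +kernel⟩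

def k21_A00pm_123_s3 : ∃ t, chk3 f_A00pm_123_s3 t 30 15 1 = true :=
  ⟨(b (b (b (a (a (l 16828144) (l 16779496)) (a (l 16812960) (l 16783880))) (a (a (l 16831024) (l 16780144)) (a (a (l 16815696) (l 16811544)) (a (l 16807624) (l 16804008))))) (a (a (a (l 16790960) (l 16786288)) (b (l 16821816) (l 16779768))) (a (b (l 16792888) (l 16771848)) (b (a (l 16808448) (c (l 16806928) (l 16802584))) (a (l 16808264) (l 16804712)))))) (a (a (b (b (l 16788176) (a (l 16790160) (l 16785712))) (c (l 16836440) (b (l 16780552) (l 16780072)))) (b (b (l 16779576) (b (l 16779440) (l 16779336))) (c (l 16805936) (b (l 16773008) (l 16782936))))) (a (c (b (l 16817552) (a (l 16820120) (l 16815760))) (b (b (l 16809360) (l 16787680)) (b (l 16776496) (b (l 16786528) (l 16786256))))) (c (b (a (l 16811312) (l 16807304)) (b (l 16788472) (a (l 16811680) (l 16807560)))) (b (b (l 16802936) (l 16781240)) (b (b (l 16780712) (l 16780360)) (a (l 16781440) (b (l 16799440) (l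 16799160))))))))), by decide +kernel⟩

def k22_A00pm_123_s3 : ∃ t, chk3 f_A00pm_123_s3 t 31 6 1 = true :=
  ⟨(b (l 4) (a (b (a (b (l 4) (a (b (l 4) (a (l 1076826127) (l 4))) (l 4))) (l 4)) (a (b (a (b (b (a (l 1076816911) (l 1076939279)) (a (a (l 1076787727) (l 1077874191)) (a (c (l 1076972047) (l 1077857295)) (b (l 1076982799) (c (l 1077083151) (l 1077441039)))))) (a (b (a (l 1076852239) (l 1076937743)) (l 1076515855)) (b (a (l 1077019151) (l 1077101071)) (a (l 1077179407) (l 1077242895))))) (b (a (a (b (l 4) (b (l 4) (l 1077037583))) (l 4)) (l 4)) (a (b (l 1076630543) (l 1076772879)) (b (l 4) (c (l 1077444623) (l 1076765711)))))) (a (b (a (a (l 1077249551) (l 1076254735)) (b (a (l 1077326863) (l 1077386255)) (l 1076963855))) (a (c (l 16779608) (l 1077513231)) (b (l 1077096975) (l 16781384)))) (a (b (b (l 1076911631) (l 1077047311)) (a (l 1077760527) (l 1077796367))) (b (b (l 1076440591) (l 1077112847)) (a (l 1077829135) (l 1077858831))))))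 (b (l 4) (a (a (b (b (l 1076492815) (l 1077702671)) (a (l 1077884943) (l 1077907983))) (b (l 4) (b (l 1077874191) (l 1078003215)))) (b (l 4) (b (l 4) (a (a (l 1078016527) (l 4)) (l 4)))))))) (l 4))), by decide +kernel⟩

def k23_A00pm_123_s3 : ∃ t, chk3 f_A00pm_123_s3 t 124 14 1 = true :=
  ⟨(b (b (a (a (b (l 16787264) (l 16789912)) (b (l 1079025679) (l 16783200))) (b (a (l 1079106063) (c (l 1078136335) (l 1079133199))) (a (l 1079238671) (a (l 16779968) (l 1078071823))))) (a (b (c (l 16790960) (l 16785848)) (l 16786888)) (a (b (l 16788040) (l 16783968)) (b (a (l 16786640) (l 16785728)) (l 16787400))))) (b (b (a (b (l 16792712) (a (l 16794640) (l 16792312))) (a (l 16790280) (l 16783256))) (a (b (l 16794376) (l 16774000)) (a (b (l 16791048) (l 16791896)) (b (l 16789288) (c (l 16789992) (l 16789840)))))) (a (b (l 16796136) (l 16797608)) (b (l 16781608) (l 16793688))))), by decide +kernel⟩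

def k24_A00pm_123_s3 : ∃ t, chk3 f_A00pm_123_s3 t 125 28 1 = true :=
  ⟨(b (a (b (a (a (l 1078134799) (l 1078157839)) (b (l 1078128655) (l 1078142479))) (b (a (l 1078078479) (l 1078019599)) (a (l 1077959183) (l 1078437903)))) (a (b (b (c (l 1078183951) (l 1079194127)) (c (l 1078077455) (l 1079119887))) (b (a (l 1077987855) (l 1077967887)) (a (l 1077870095) (l 1077850127)))) (a (b (b (l 4) (l 1078071311)) (b (l 1077950479) (l 1077833743))) (b (l 4) (b (l 1077937167) (l 1078222863)))))) (a (a (b (a (l 16784840) (l 1078850063)) (b (l 1077626383) (l 16780720))) (a (b (a (l 16783320) (l 1077743119)) (b (l 16784104) (l 16784712))) (b (b (l 1077778447) (l 16780000)) (b (l 16783280) (l 16783904))))) (b (b (a (a (l 1077756431) (l 1077736975)) (a (l 1077720591) (a (l 1077175311) (l 1076633103)))) (b (a (a (l 1077673999) (l 1077654543)) (a (l 1077102095) (l 1077089295))) (a (a (l 16781976) (l 1077600783)) (a (l 1077048335) (l 1077036047))))) (b (b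 (a (a (l 16782312) (l 1077548047)) (a (l 1076995599) (a (l 1077525007) (l 1077519375)))) (a (a (l 16782632) (l 1077498383)) (a (l 1076946447) (a (l 16780472) (l 1077471247))))) (a (a (l 16783104) (c (l 16782336) (l 16779688))) (a (b (l 1076904463) (l 1076869135)) (a (a (l 16781064) (l 1076880911)) (b (l 1077431823) (l 16780760))))))))), by decide +kernel⟩

def k25_A00pm_123_s3 : ∃ t, chk3 f_A00pm_123_s3 t 125 29 1 = true :=
  ⟨(b (b (a (a (c (l 16786840) (l 16781544)) (b (c (l 16784936) (l 16779640)) (l 16785488))) (a (b (a (l 16783720) (l 16782952)) (a (l 16784312) (l 16783552))) (b (c (a (l 16782208) (l 16778832)) (a (l 16779552) (a (l 16781608) (l 16781232)))) (a (l 16782800) (c (l 16782080) (l 16779408)))))) (a (c (a (l 16782576) (l 16786336)) (a (l 16782456) (l 16781000))) (a (a (l 16785136) (l 16781752)) (b (a (l 16783368) (l 16782624)) (a (l 16783888) (l 16783152)))))) (a (b (a (a (l 16779312) (b (l 16777792) (l 16789064))) (b (l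 16781648) (a (l 16788200) (l 16781976)))) (l 16779328)) (b (a (b (l 16785496) (a (l 16780976) (l 16785560))) (b (l 16778768) (l 16784456))) (a (b (a (l 16787064) (b (l 16780632) (l 16786296))) (l 16787328)) (a (b (b (l 16785128) (l 16780096)) (l 16785952)) (b (l 16784496) (b (a (l 16785040) (l 16784552)) (l 16785200)))))))), by decide +kernel⟩

def k26_A00pm_123_s3 : ∃ t, chk3 f_A00pm_123_s3 t 62 15 1 = true :=
  ⟨(b (a (c (a (b (l 16800848) (b (l 16802792) (l 16803320))) (b (l 16796736) (b (l 16798736) (l 16799696)))) (a (b (l 16798224) (b (c (l 16800128) (l 16798128)) (l 16799008))) (b (l 16794760) (b (l 16795816) (l 16796280))))) (b (a (b (l 16791320) (l 16792688)) (b (a (l 16788472) (l 16781336)) (a (l 16789880) (l 16788008)))) (b (a (l 16783376) (a (l 16791088) (l 16789240))) (a (a (b (l 16795408) (l 16795432)) (b (l 16793576) (l 16793888))) (b (l 16780464) (a (l 16781712) (l 16779880))))))) (a (c (a (b (l 16803416) (b (l 16803472)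 (l 16787864))) (b (b (l 16799672) (l 16799648)) (b (l 16799664) (b (l 16799744) (l 16778872))))) (b (b (c (l 16798200) (l 16774704)) (a (l 16797680) (l 16773800))) (b (a (b (l 16797144) (l 16796784)) (b (l 16794264) (l 16793936))) (a (b (l 16796464) (l 16785696)) (b (l 16783152) (a (l 16794072) (l 16792712))))))) (b (a (b (c (l 16796016) (l 16792688)) (b (l 16773216) (a (l 16773848) (l 16772248)))) (b (c (l 16787240) (c (l 16790680) (l 16789328))) (a (c (l 16793320) (l 16779520)) (b (l 16790272) (l 16779656))))) (c (a (b (c (l 16797016) (l 16784440)) (c (l 16797288) (b (l 16794904) (l 16794920)))) (b (b (l 16792472) (l 16782024)) (b (b (l 16792552) (l 16782096)) (a (l 16783024) (l 16781272))))) (a (b (b (l 16781040) (l 16780744)) (b (a (l 16791616) (l 16790320)) (a (l 16791384) (l 16790088)))) (a (b (b (l 16789560) (l 16789296)) (b (l 16789048) (c (l 16790080) (l 16787504)))) (b (b (l 16788296) (l 16788040)) (b (l 16787800) (c (l 16788696)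 (l 16786400)))))))))), by decide +kernel⟩

def k27_A00pm_123_s3 : ∃ t, chk3 f_A00pm_123_s3 t 252 56 1 = true :=
  ⟨(a (a (b (l 4) (b (l 4) (a (l 1077814799) (l 1077810703)))) (l 4)) (l 4)), by decide +kernel⟩

def k28_A00pm_123_s3 : ∃ t, chk3 f_A00pm_123_s3 t 504 57 1 = true :=
  ⟨(b (a (c (b (l 1077699599) (a (l 1077063183) (l 1077060111))) (b (a (l 1076898319) (a (l 1077164559) (l 1077162511))) (a (a (l 1077054991) (l 1077052943)) (a (l 1077051407) (l 1076781071))))) (c (b (l 1077694479) (l 1077859855)) (c (b (b (l 1077184527) (l 1077128207)) (a (l 1076780047) (b (l 1077611535) (l 1077557263)))) (c (b (a (b (l 1077726735) (l 1077668879)) (b (l 4) (l 1077666831))) (a (b (l 1077611535) (l 1077555727)) (b (l 1077609999) (l 1077553679)))) (b (a (b (l 1077728783) (l 1077669903)) (b (l 4) (l 1077667855))) (a (b (l 1077611535) (l 1077554191)) (b (l 1077609487) (l 1077552143)))))))) (b (c (a (b (l 1077521935) (l 1076939279)) (b (l 1076980239)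 (c (l 1076943887) (l 1076393487)))) (a (a (b (l 1077508111) (l 1077457935)) (b (l 1077504527) (l 1077454863))) (a (b (l 1077501967) (l 1076916239)) (b (l 1076963855) (a (l 1077453839) (l 1077454863)))))) (a (a (b (l 1077429775) (l 1077399567)) (b (l 1077429263) (l 1077400591))) (a (b (l 1076893711) (l 1077402639)) (b (a (l 1077433359) (l 1077434895)) (l 1077942287)))))), by decide +kernel⟩

def k29_A00pm_123_s3 : ∃ t, chk3 f_A00pm_123_s3 t 505 57 1 = true :=
  ⟨(b (b (l 4) (b (a (a (a (l 1077613583) (l 1077613583)) (l 4)) (l 4)) (a (a (a (l 1077560335) (l 1077560847)) (a (l 1078097935) (a (l 1077561871) (l 4)))) (l 4)))) (a (b (a (c (b (l 1077518351) (l 1077478927)) (a (b (l 1077500943) (a (l 1077455887) (l 1077456911))) (b (l 1077500943) (b (l 1077465615) (l 1077449743))))) (a (c (b (l 1077513743) (l 1077481999)) (b (b (l 1077514767) (l 1077485071)) (b (l 1077467663) (l 1077452303)))) (c (b (l 1077515791) (l 1077485071)) (b (b (l 1077515279)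 (a (l 1077486607) (l 1077487631))) (b (a (l 1077469711) (l 1077471759)) (l 1077454863)))))) (c (a (b (l 1077450767) (l 1077423119)) (b (l 1077990927) (l 1077425679))) (a (a (b (l 1077425679) (l 1077395471)) (b (l 1077427727) (l 1077397007))) (a (b (l 1077966351) (l 1077398031)) (b (c (l 1077436431) (l 1077963279)) (l 1077399055)))))) (c (a (a (b (b (l 1078055439) (l 1077485583)) (b (l 1077456399) (l 1077427215))) (b (b (l 4) (l 1077486095)) (l 1076904975))) (b (b (l 4) (l 1077485583)) (b (l 1077456399) (l 1077426703)))) (b (b (a (a (c (b (l 1077520911) (l 1077493263)) (a (b (l 1077513231) (b (l 1077492751) (l 1077480975))) (b (l 4) (b (l 1077493263) (a (l 1077481487) (l 1077481487)))))) (l 4)) (l 4)) (b (a (a (a (l 1077472271) (l 1077472783)) (l 1077472271)) (l 4)) (c (a (l 1077459983) (l 1077460495)) (a (a (l 1077451791) (l 1077451791)) (a (l 1077452303) (l 4)))))) (c (b (a (c (l 1077438991) (l 1076896783)) (l 1077436431)) (a (l 1077404687)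 (l 1077404687))) (b (a (a (l 1077964303) (l 1077427215)) (a (l 1077964303) (l 1077964303))) (a (a (l 1077393935) (l 1077393935)) (a (l 1077393935) (l 1077394447))))))))), by decide +kernel⟩

def k30_A00pm_123_s3 : ∃ t, chk3 f_A00pm_123_s3 t 253 28 1 = true :=
  ⟨(b (l 4) (a (a (b (l 4) (b (l 4) (a (c (b (l 1077457423) (l 1077427727)) (b (b (l 4) (l 1077961231)) (a (l 1077400079) (l 1077401103)))) (a (b (l 4) (l 1077951503)) (l 4))))) (l 4)) (l 4))), by decide +kernel⟩

def k31_A00pm_123_s3 : ∃ t, chk3 f_A00pm_123_s3 t 252 58 1 = true :=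
  ⟨(a (b (a (b (a (a (l 16780968) (l 16780776)) (b (l 16780336) (l 16780656))) (c (l 16781328) (b (l 16781144) (l 16781440)))) (b (a (b (l 1077374479) (l 16780288)) (b (l 1077376015) (l 1077346319))) (a (c (l 16780768) (l 16780736)) (b (l 16780224) (l 16780528))))) (a (b (c (l 16781912) (l 16781856)) (l 16782424)) (a (b (l 16781336) (l 16781872)) (b (l 16780968) (l 16781512))))) (b (a (b (a (b (l 1077915151) (l 1077347855)) (b (a (l 1077380111) (l 1077380623)) (l 1077885967))) (a (b (l 1077317135) (l 16780160)) (b (l 1077318159) (l 1077286927)))) (a (b (b (a (l 1077381135) (l 1077381135)) (l 1077885967)) (b (l 1077318159) (l 1077286415))) (b (b (a (l 1077381135) (l 1077381647)) (l 1077885967)) (b (l 1077854735) (l 1077286927))))) (b (a (a (a (l 16780688) (l 16780504)) (a (l 16780320) (l 16780144))) (a (b (l 1077255183) (l 16780008)) (b (l 1077255183) (l 14)))) (a (a (l 16781144) (l 14)) (l 14))))), by decide +kernel⟩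

def k32_A00pm_123_s3 : ∃ t, chk3 f_A00pm_123_s3 t 253 58 1 = true :=
  ⟨(b (a (b (c (a (a (a (l 1076847119) (l 1076847631)) (a (l 1076312079) (l 1076313103))) (a (b (l 1077402639) (l 1077372943)) (b (l 4) (l 1077376527)))) (c (a (b (a (l 1077373967) (l 1077375503)) (a (l 1077342223) (l 1077343759))) (b (a (l 1076841487) (l 4)) (a (l 1077346319) (l 1076812815)))) (a (b (a (a (l 1077361679) (l 1077362191)) (a (l 1077363215) (l 1077364239))) (a (l 1076790287) (c (l 1076795407) (l 1076788751)))) (b (a (a (l 1077365263) (l 4)) (l 4)) (a (a (l 1077331983) (l 1077333519)) (a (l 1077335055) (l 4))))))) (b (a (a (l 1077855759) (a (l 1077321231) (l 1077322255))) (a (a (l 1077323279) (l 1077325327)) (a (l 1077326863) (l 1077328911)))) (a (a (l 1077824527) (l 1077826063)) (a (a (l 1077292047) (l 1077293583)) (l 14))))) (b (l 4) (b (b (l 4) (l 14)) (l 14)))) (a (b (a (a (b (l 1077256207) (l 14)) (l 14)) (l 14)) (l 14)) (l 14))), by decide +kernel⟩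

def k33_A00pm_123_s3 : ∃ t, chk3 f_A00pm_123_s3 t 126 59 1 = true :=
  ⟨(a (a (a (a (b (l 16783320) (b (l 16783952) (b (l 16784240) (l 16779248)))) (l 14)) (l 14)) (l 14)) (l 14)), by decide +kernel⟩

def k34_A00pm_123_s3 : ∃ t, chk3 f_A00pm_123_s3 t 126 15 1 = true :=
  ⟨(a (a (a (b (b (b (c (l 16780192) (l 16779824)) (l 16786608)) (b (l 16787848) (l 16788864))) (c (b (b (l 16790320) (l 16790280)) (b (l 16790336) (b (l 16790408) (l 16779968)))) (b (b (l 16788368) (l 16787728)) (b (b (l 16787352) (l 16787112)) (b (l 16786872) (l 16786648)))))) (l 14)) (l 14)) (l 14)), by decide +kernel⟩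

def k35_A00pm_123_s3 : ∃ t, chk3 f_A00pm_123_s3 t 127 7 1 = true :=
  ⟨(b (b (l 4) (b (b (l 4) (l 14)) (l 14))) (l 14)), by decide +kernel⟩

theorem t36_A00pm_123_s3 : ∃ t, chk3 f_A00pm_123_s3 t 126 58 1 = true := ex3_a k31_A00pm_123_s3 k32_A00pm_123_s3

theorem t37_A00pm_123_s3 : ∃ t, chk3 f_A00pm_123_s3 t 126 29 1 = true := ex3_b t36_A00pm_123_s3 k33_A00pm_123_s3

theorem t38_A00pm_123_s3 : ∃ t, chk3 f_A00pm_123_s3 t 252 57 1 = true := ex3_a k28_A00pm_123_s3 k29_A00pm_123_s3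

theorem t39_A00pm_123_s3 : ∃ t, chk3 f_A00pm_123_s3 t 252 28 1 = true := ex3_b k27_A00pm_123_s3 t38_A00pm_123_s3

theorem t40_A00pm_123_s3 : ∃ t, chk3 f_A00pm_123_s3 t 126 28 1 = true := ex3_a t39_A00pm_123_s3 k30_A00pm_123_s3

theorem t41_A00pm_123_s3 : ∃ t, chk3 f_A00pm_123_s3 t 126 14 1 = true := ex3_b t40_A00pm_123_s3 t37_A00pm_123_s3

theorem t42_A00pm_123_s3 : ∃ t, chk3 f_A00pm_123_s3 t 126 7 1 = true := ex3_b t41_A00pm_123_s3 k34_A00pm_123_s3

theorem t43_A00pm_123_s3 : ∃ t, chk3 f_A00pm_123_s3 t 63 7 1 = true := ex3_a t42_A00pm_123_s3 k35_A00pm_123_s3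

theorem t44_A00pm_123_s3 : ∃ t, chk3 f_A00pm_123_s3 t 125 14 1 = true := ex3_b k24_A00pm_123_s3 k25_A00pm_123_s3

theorem t45_A00pm_123_s3 : ∃ t, chk3 f_A00pm_123_s3 t 62 14 1 = true := ex3_a k23_A00pm_123_s3 t44_A00pm_123_s3

theorem t46_A00pm_123_s3 : ∃ t, chk3 f_A00pm_123_s3 t 62 7 1 = true := ex3_b t45_A00pm_123_s3 k26_A00pm_123_s3

theorem t47_A00pm_123_s3 : ∃ t, chk3 f_A00pm_123_s3 t 31 7 1 = true := ex3_a t46_A00pm_123_s3 t43_A00pm_123_s3

theorem t48_A00pm_123_s3 : ∃ t, chk3 f_A00pm_123_s3 t 31 3 1 = true := ex3_b k22_A00pm_123_s3 t47_A00pm_123_s3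

theorem t49_A00pm_123_s3 : ∃ t, chk3 f_A00pm_123_s3 t 30 7 1 = true := ex3_b k20_A00pm_123_s3 k21_A00pm_123_s3

theorem t50_A00pm_123_s3 : ∃ t, chk3 f_A00pm_123_s3 t 30 12 1 = true := ex3_a k17_A00pm_123_s3 k18_A00pm_123_s3

theorem t51_A00pm_123_s3 : ∃ t, chk3 f_A00pm_123_s3 t 30 6 1 = true := ex3_b t50_A00pm_123_s3 k19_A00pm_123_s3

theorem t52_A00pm_123_s3 : ∃ t, chk3 f_A00pm_123_s3 t 30 3 1 = true := ex3_b t51_A00pm_123_s3 t49_A00pm_123_s3

theorem t53_A00pm_123_s3 : ∃ t, chk3 f_A00pm_123_s3 t 15 3 1 = true := ex3_a t52_A00pm_123_s3 t48_A00pm_123_s3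

theorem t54_A00pm_123_s3 : ∃ t, chk3 f_A00pm_123_s3 t 14 7 1 = true := ex3_b k15_A00pm_123_s3 k16_A00pm_123_s3

theorem t55_A00pm_123_s3 : ∃ t, chk3 f_A00pm_123_s3 t 29 6 1 = true := ex3_b k13_A00pm_123_s3 k14_A00pm_123_s3

theorem t56_A00pm_123_s3 : ∃ t, chk3 f_A00pm_123_s3 t 14 6 1 = true := ex3_a k12_A00pm_123_s3 t55_A00pm_123_s3

theorem t57_A00pm_123_s3 : ∃ t, chk3 f_A00pm_123_s3 t 14 3 1 = true := ex3_b t56_A00pm_123_s3 t54_A00pm_123_s3

theorem t58_A00pm_123_s3 : ∃ t, chk3 f_A00pm_123_s3 t 7 3 1 = true := ex3_a t57_A00pm_123_s3 t53_A00pm_123_s3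

theorem t59_A00pm_123_s3 : ∃ t, chk3 f_A00pm_123_s3 t 6 6 1 = true := ex3_a k9_A00pm_123_s3 k10_A00pm_123_s3

theorem t60_A00pm_123_s3 : ∃ t, chk3 f_A00pm_123_s3 t 6 3 1 = true := ex3_b t59_A00pm_123_s3 k11_A00pm_123_s3

theorem t61_A00pm_123_s3 : ∃ t, chk3 f_A00pm_123_s3 t 3 3 1 = true := ex3_a t60_A00pm_123_s3 t58_A00pm_123_s3

theorem t62_A00pm_123_s3 : ∃ t, chk3 f_A00pm_123_s3 t 14 11 1 = true := ex3_a k6_A00pm_123_s3 k7_A00pm_123_s3

theorem t63_A00pm_123_s3 : ∃ t, chk3 f_A00pm_123_s3 t 14 5 1 = true := ex3_b k5_A00pm_123_s3 t62_A00pm_123_s3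

theorem t64_A00pm_123_s3 : ∃ t, chk3 f_A00pm_123_s3 t 7 5 1 = true := ex3_a t63_A00pm_123_s3 k8_A00pm_123_s3

theorem t65_A00pm_123_s3 : ∃ t, chk3 f_A00pm_123_s3 t 7 2 1 = true := ex3_b k4_A00pm_123_s3 t64_A00pm_123_s3

theorem t66_A00pm_123_s3 : ∃ t, chk3 f_A00pm_123_s3 t 6 5 1 = true := ex3_b k2_A00pm_123_s3 k3_A00pm_123_s3

theorem t67_A00pm_123_s3 : ∃ t, chk3 f_A00pm_123_s3 t 6 2 1 = true := ex3_b k1_A00pm_123_s3 t66_A00pm_123_s3

theorem t68_A00pm_123_s3 : ∃ t, chk3 f_A00pm_123_s3 t 3 2 1 = true := ex3_a t67_A00pm_123_s3 t65_A00pm_123_s3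

theorem t69_A00pm_123_s3 : ∃ t, chk3 f_A00pm_123_s3 t 3 1 1 = true := ex3_b t68_A00pm_123_s3 t61_A00pm_123_s3

theorem t70_A00pm_123_s3 : ∃ t, chk3 f_A00pm_123_s3 t 1 1 1 = true := ex3_a k0_A00pm_123_s3 t69_A00pm_123_s3

theorem c_A00pm_123_s3 : CertF 536870912 536870912 0 536870912 697932185 42949674 true true false .npn 1 2 3
    ndB0q1 ndB0q2 pcB3 cut_A00pm_123_s3 xt_A00pm_123_s3 :=
  certF2 (fam := true) (s1 := true) (s2 := false) (a := 1) (b := 2) (c := 3) (cn := .npn) (n1 := ndB0q1) (n2 := ndB0q2) (pc := pcB3) (cut := cut_A00pm_123_s3) (xt := xt_A00pm_123_s3) (P1 := 536870912) (W1 := 536870912) (P2 := 0) (W2 := 536870912) (P3 := 697932185) (W3 := 42949674)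
    rfl (fun _ => rfl) t70_A00pm_123_s3

theorem s_A00pm_123_s3 {κ x : ℝ} (hκ : κ * h0 = ken x) (hx : ((697932185 : ℕ) : ℝ) / S ≤ x)
    (hx' : x ≤ (((697932185 : ℕ) : ℝ) + (42949674 : ℕ)) / S)
    (H : CutA (VFD κ) PP tK tL pcB (Cut.of [[⟨0, 1, 0, 67108864⟩, ⟨1, 1, 0, 67108864⟩, ⟨2, 2, 0, 16777216⟩], [⟨0, 0, 1, 20971520⟩, ⟨1, 1, 0, 33554432⟩, ⟨2, 1, 1, 20971520⟩]]) 1 2 3 0 0 (sgb true) (sgb false) x) :
    AltA (VFD κ) PP tK tL pcB [⟨4, 0, 0, 2845415833⟩] 1 2 3 0 0 (sgb true) (sgb false) x :=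
  strip_altAD (m := 2845415833) false rfl hκ (SH.κ0 hκ (SH.hx1 hx).le (SH.hx2 hx').le) (SH.hx1 hx).le (SH.hx2 hx') (covB01).cov (covB02).cov hx hx' c_A00pm_123_s3 H ((okx6 hx hx').extA (T := tt) (okx hx hx') (sideB hx hx') hκ rfl rfl (.O 1 true) (.O 2 false) (Or.inr rfl))

noncomputable def cut_A00pm_202_s1 : Cut := Cut.of [[⟨4, 0, 0, 1449551462⟩], [⟨0, 1, 0, 67108864⟩, ⟨1, 0, 0, 67108864⟩, ⟨2, 1, 0, 67108864⟩]]

noncomputable def f_A00pm_202_s1 : ℕ → ℕ → ℕ → ℕ → Bool := onCell 0 536870912 1073741824 536870912 697932185 42949674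
    (rowF 1 true true false .pp 2 0 2 (qsf 0 536870912 0 536870912 2) ndB0q2 ndB0q0 pcB2 cut_A00pm_202_s1 Ext.none)

def k0_A00pm_202_s1 : ∃ t, chk3 f_A00pm_202_s1 t 2 4 1 = true :=
  ⟨(b (l 1) (l 6)), by decide +kernel⟩

def k1_A00pm_202_s1 : ∃ t, chk3 f_A00pm_202_s1 t 3 8 1 = true :=
  ⟨(a (l 1) (b (a (l 1) (l 14)) (b (a (a (l 1) (l 14)) (l 14)) (b (a (a (l 1) (l 14)) (l 14)) (b (a (a (l 16642288) (l 14)) (l 14)) (a (a (l 42982957911) (a (l 16646896) (l 16663136))) (b (l 14) (a (l 16686104) (a (l 16693872) (a (l 16695488) (l 16698640))))))))))), by decide +kernel⟩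

def k2_A00pm_202_s1 : ∃ t, chk3 f_A00pm_202_s1 t 3 9 1 = true :=
  ⟨(a (a (b (l 1) (l 6)) (b (a (b (l 1) (a (b (l 1) (l 16550800)) (b (l 16563648) (l 16566480)))) (b (b (l 1) (a (l 16578712) (l 16596544))) (a (b (l 16580872) (l 16582552)) (b (l 16597528) (l 16598104))))) (a (b (a (b (l 16554240) (l 6)) (b (l 16568848) (l 16486896))) (l 6)) (a (b (l 16500408) (l 16585464)) (b (l 16598304) (l 16597616)))))) (a (b (a (a (b (b (l 16612944) (l 16613216)) (l 16570952)) (b (b (l 16629704) (l 16628904)) (l 16627080))) (a (b (l 16644792) (l 16640672)) (b (l 16659776) (l 16653008)))) (a (b (b (l 16618544) (l 16617152)) (l 16605448)) (b (l 16664024) (a (l 16612824) (l 16617168))))) (a (b (a (b (l 16674312) (l 16657184)) (b (l 16679864) (a (l 16659864) (l 16661488)))) (b (a (l 16638672) (b (l 16646520) (l 16637240))) (a (l 16641760) (l 16644776)))) (a (b (b (a (l 16682256) (b (l 16688392) (l 16678584))) (b (l 16689256) (l 16658624))) (b (b (l 16649080)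 (l 16639696)) (b (l 16630504) (l 16621520)))) (a (b (b (b (l 16689336) (l 16679440)) (b (l 16669576) (l 16659832))) (b (b (l 16650192) (l 16640712)) (b (l 16631416) (l 16622312)))) (b (b (a (b (l 16689728) (l 16679784)) (b (b (l 16692328) (l 16687320)) (b (l 16682320) (l 16677336)))) (b (a (l 16669864) (c (l 16671112) (a (l 16668816) (l 16668696)))) (a (l 16660080) (c (l 16661456) (a (l 16658856) (l 16658728)))))) (b (b (a (l 16650392) (c (l 16651880) (a (l 16648992) (l 16654088)))) (c (l 16642432) (b (l 16641736) (l 16636936)))) (a (b (l 16631496) (l 16622336)) (b (b (l 16633712) (l 16629048)) (b (l 16624440) (l 16619904))))))))))), by decide +kernel⟩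

def k3_A00pm_202_s1 : ∃ t, chk3 f_A00pm_202_s1 t 2 5 1 = true :=
  ⟨(l 6), by decide +kernel⟩

def k4_A00pm_202_s1 : ∃ t, chk3 f_A00pm_202_s1 t 6 5 1 = true :=
  ⟨(b (b (b (a (l 6) (a (l 6) (b (l 16583712) (l 6)))) (l 6)) (l 6)) (l 6)), by decide +kernel⟩

def k5_A00pm_202_s1 : ∃ t, chk3 f_A00pm_202_s1 t 7 10 1 = true :=
  ⟨(a (a (b (b (b (l 16593248) (l 16585528)) (b (l 16578272) (b (l 16573312) (b (l 16571392) (c (l 16569312) (l 16530848)))))) (b (l 6) (l 6))) (b (b (a (l 16596456) (l 16600568)) (b (l 16587184) (b (l 16582168) (b (l 16580312) (a (l 16577656) (l 16581680)))))) (b (b (l 16575096) (l 16609616)) (l 16603032)))) (b (a (b (a (l 16604000) (c (l 16607456) (l 16606336))) (b (a (l 16592304) (l 16594880)) (b (a (l 16587216) (l 16589736)) (b (a (l 16585392) (l 16587920)) (a (l 16626920) (c (l 16588064) (l 16629408))))))) (c (b (a (l 16652024) (b (l 16615392) (l 16606960))) (b (a (l 16598104) (l 16599008)) (b (a (l 16592800) (l 16593512))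 (b (a (l 16590816) (l 16591440)) (b (a (l 16632704) (b (a (l 16612688) (b (l 16590824) (l 16591392))) (l 16591160))) (a (l 16589768) (l 16590360))))))) (b (b (a (l 16611768) (a (l 16611912) (c (l 16612384) (l 16610512)))) (a (l 16603296) (a (l 16603312) (l 16602712)))) (b (a (l 16595440) (b (l 16596864) (l 16593024))) (b (a (l 16590240) (a (l 16590016) (l 16589176))) (a (b (l 16588608) (b (b (b (l 16588472) (l 16610312)) (l 16589016)) (l 16588192))) (b (a (l 16588344) (b (l 16587432) (l 16587208))) (b (b (b (l 16587872) (b (l 16588208) (a (l 16589104) (a (l 16588536) (a (l 16588120) (l 16587784)))))) (l 16588448)) (l 16587592))))))))) (a (b (b (a (l 16580128) (l 16582560)) (a (l 16572344) (l 16574472))) (a (l 16564264) (l 16565272))) (b (b (a (l 16584040) (c (l 16585544) (a (l 16582840) (l 16581848)))) (a (c (l 16577024) (l 16574448)) (b (a (l 16577472) (l 16576656)) (b (l 16573768) (l 16571704))))) (a (l 16607120) (a (l 16563960) (c (l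 16565008) (l 16560032)))))))), by decide +kernel⟩

def k6_A00pm_202_s1 : ∃ t, chk3 f_A00pm_202_s1 t 7 11 1 = true :=
  ⟨(a (l 6) (a (b (b (a (l 16553944) (l 16553288)) (l 6)) (l 6)) (b (b (a (l 16551312) (a (l 16548792) (l 16567312))) (a (l 16537152) (a (l 16533432) (l 16530376)))) (a (l 6) (b (l 16517016) (l 6)))))), by decide +kernel⟩

def k7_A00pm_202_s1 : ∃ t, chk3 f_A00pm_202_s1 t 1 3 1 = true :=
  ⟨(a (l 6) (l 6)), by decide +kernel⟩

theorem t8_A00pm_202_s1 : ∃ t, chk3 f_A00pm_202_s1 t 7 5 1 = true := ex3_b k5_A00pm_202_s1 k6_A00pm_202_s1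

theorem t9_A00pm_202_s1 : ∃ t, chk3 f_A00pm_202_s1 t 3 5 1 = true := ex3_a k4_A00pm_202_s1 t8_A00pm_202_s1

theorem t10_A00pm_202_s1 : ∃ t, chk3 f_A00pm_202_s1 t 1 5 1 = true := ex3_a k3_A00pm_202_s1 t9_A00pm_202_s1

theorem t11_A00pm_202_s1 : ∃ t, chk3 f_A00pm_202_s1 t 3 4 1 = true := ex3_b k1_A00pm_202_s1 k2_A00pm_202_s1

theorem t12_A00pm_202_s1 : ∃ t, chk3 f_A00pm_202_s1 t 1 4 1 = true := ex3_a k0_A00pm_202_s1 t11_A00pm_202_s1

theorem t13_A00pm_202_s1 : ∃ t, chk3 f_A00pm_202_s1 t 1 2 1 = true := ex3_b t12_A00pm_202_s1 t10_A00pm_202_s1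

theorem t14_A00pm_202_s1 : ∃ t, chk3 f_A00pm_202_s1 t 1 1 1 = true := ex3_b t13_A00pm_202_s1 k7_A00pm_202_s1

theorem c_A00pm_202_s1 : CertF 0 536870912 0 536870912 697932185 42949674 true true false .pp 2 0 2
    ndB0q2 ndB0q0 pcB2 cut_A00pm_202_s1 Ext.none :=
  certF1 (fam := true) (s1 := true) (s2 := false) (a := 2) (b := 0) (c := 2) (cn := .pp) (n1 := ndB0q2) (n2 := ndB0q0) (pc := pcB2) (cut := cut_A00pm_202_s1) (xt := Ext.none) (P1 := 0) (W1 := 536870912) (P2 := 0) (W2 := 536870912) (P3 := 697932185) (W3 := 42949674)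
    rfl (fun _ => rfl) t14_A00pm_202_s1

theorem s_A00pm_202_s1 {κ x : ℝ} (hκ : κ * h0 = ken x) (hx : ((697932185 : ℕ) : ℝ) / S ≤ x)
    (hx' : x ≤ (((697932185 : ℕ) : ℝ) + (42949674 : ℕ)) / S)
    (H : CutA (VFD κ) PP tK tL pcB (Cut.of [[⟨0, 1, 0, 67108864⟩, ⟨1, 0, 0, 67108864⟩, ⟨2, 1, 0, 67108864⟩]]) 2 0 2 0 0 (sgb true) (sgb false) x) :
    AltA (VFD κ) PP tK tL pcB [⟨3, 0, 0, 1449551462⟩] 2 0 2 0 0 (sgb true) (sgb false) x :=
  strip_altAD (m := 1449551462) true rfl hκ (SH.κ0 hκ (SH.hx1 hx).le (SH.hx2 hx').le) (SH.hx1 hx).le (SH.hx2 hx') (covB02).cov (covB00).cov hx hx' c_A00pm_202_s1 H (noExt_A)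

noncomputable def cut_A00pm_202_s3 : Cut := Cut.of [[⟨3, 0, 0, 2845415833⟩], [⟨0, 1, 0, 67108864⟩, ⟨1, 0, 0, 67108864⟩, ⟨2, 1, 0, 67108864⟩]]

noncomputable def f_A00pm_202_s3 : ℕ → ℕ → ℕ → ℕ → Bool := onCell 0 536870912 1073741824 536870912 697932185 42949674
    (rowF 1 true true false .pp 2 0 2 (qsf 0 536870912 0 536870912 2) ndB0q2 ndB0q0 pcB2 cut_A00pm_202_s3 Ext.none)

def k0_A00pm_202_s3 : ∃ t, chk3 f_A00pm_202_s3 t 1 1 1 = true :=
  ⟨(b (l 6) (a (l 6) (l 6))), by decide +kernel⟩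

theorem c_A00pm_202_s3 : CertF 0 536870912 0 536870912 697932185 42949674 true true false .pp 2 0 2
    ndB0q2 ndB0q0 pcB2 cut_A00pm_202_s3 Ext.none :=
  certF1 (fam := true) (s1 := true) (s2 := false) (a := 2) (b := 0) (c := 2) (cn := .pp) (n1 := ndB0q2) (n2 := ndB0q0) (pc := pcB2) (cut := cut_A00pm_202_s3) (xt := Ext.none) (P1 := 0) (W1 := 536870912) (P2 := 0) (W2 := 536870912) (P3 := 697932185) (W3 := 42949674)
    rfl (fun _ => rfl) k0_A00pm_202_s3

theorem s_A00pm_202_s3 {κ x : ℝ} (hκ : κ * h0 = ken x) (hx : ((697932185 : ℕ) : ℝ) / S ≤ x)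
    (hx' : x ≤ (((697932185 : ℕ) : ℝ) + (42949674 : ℕ)) / S)
    (H : CutA (VFD κ) PP tK tL pcB (Cut.of [[⟨0, 1, 0, 67108864⟩, ⟨1, 0, 0, 67108864⟩, ⟨2, 1, 0, 67108864⟩]]) 2 0 2 0 0 (sgb true) (sgb false) x) :
    AltA (VFD κ) PP tK tL pcB [⟨4, 0, 0, 2845415833⟩] 2 0 2 0 0 (sgb true) (sgb false) x :=
  strip_altAD (m := 2845415833) false rfl hκ (SH.κ0 hκ (SH.hx1 hx).le (SH.hx2 hx').le) (SH.hx1 hx).le (SH.hx2 hx') (covB02).cov (covB00).cov hx hx' c_A00pm_202_s3 H (noExt_A)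

noncomputable def cut_A00pm_203_s1 : Cut := Cut.of [[⟨4, 0, 0, 1449551462⟩]]

noncomputable def f_A00pm_203_s1 : ℕ → ℕ → ℕ → ℕ → Bool := onCell 0 536870912 1610612736 536870912 697932185 42949674
    (rowF 1 true true false .up 2 0 3 (qsf 0 536870912 0 536870912 3) ndB0q2 ndB0q0 pcB3 cut_A00pm_203_s1 Ext.none)

def k0_A00pm_203_s1 : ∃ t, chk3 f_A00pm_203_s1 t 1 1 1 = true :=
  ⟨(l 6), by decide +kernel⟩

theorem c_A00pm_203_s1 : CertF 0 536870912 0 536870912 697932185 42949674 true true false .up 2 0 3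
    ndB0q2 ndB0q0 pcB3 cut_A00pm_203_s1 Ext.none :=
  certF1 (fam := true) (s1 := true) (s2 := false) (a := 2) (b := 0) (c := 3) (cn := .up) (n1 := ndB0q2) (n2 := ndB0q0) (pc := pcB3) (cut := cut_A00pm_203_s1) (xt := Ext.none) (P1 := 0) (W1 := 536870912) (P2 := 0) (W2 := 536870912) (P3 := 697932185) (W3 := 42949674)
    rfl (fun _ => rfl) k0_A00pm_203_s1

theorem s_A00pm_203_s1 {κ x : ℝ} (hκ : κ * h0 = ken x) (hx : ((697932185 : ℕ) : ℝ) / S ≤ x)
    (hx' : x ≤ (((697932185 : ℕ) : ℝ) + (42949674 : ℕ)) / S) :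
    AltA (VFD κ) PP tK tL pcB [⟨3, 0, 0, 1449551462⟩] 2 0 3 0 0 (sgb true) (sgb false) x :=
  strip_altAD (m := 1449551462) true rfl hκ (SH.κ0 hκ (SH.hx1 hx).le (SH.hx2 hx').le) (SH.hx1 hx).le (SH.hx2 hx') (covB02).cov (covB00).cov hx hx' c_A00pm_203_s1 cutA_nil (noExt_A)

noncomputable def cut_A00pm_203_s3 : Cut := Cut.of [[⟨3, 0, 0, 2845415833⟩]]

noncomputable def f_A00pm_203_s3 : ℕ → ℕ → ℕ → ℕ → Bool := onCell 0 536870912 0 536870912 697932185 42949674
    (rowF 0 true true false .up 2 0 3 (qsf 0 536870912 0 536870912 3) ndB0q2 ndB0q0 pcB3 cut_A00pm_203_s3 Ext.none)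

def k0_A00pm_203_s3 : ∃ t, chk3 f_A00pm_203_s3 t 1 1 1 = true :=
  ⟨(a (b (l 1) (b (a (b (l 1) (a (b (l 1) (a (l 16657976) (l 6))) (l 6))) (l 6)) (b (a (a (b (a (l 16673960) (l 6)) (a (l 16687040) (l 16673960))) (l 6)) (l 6)) (a (b (a (a (l 16696336) (l 16679920)) (l 16693000)) (a (a (b (l 16714040) (l 16728056)) (l 16707832)) (a (l 16694080) (l 16678696)))) (l 6))))) (l 6)), by decide +kernel⟩

theorem c_A00pm_203_s3 : CertF 0 536870912 0 536870912 697932185 42949674 true true false .up 2 0 3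
    ndB0q2 ndB0q0 pcB3 cut_A00pm_203_s3 Ext.none :=
  certF0 (fam := true) (s1 := true) (s2 := false) (a := 2) (b := 0) (c := 3) (cn := .up) (n1 := ndB0q2) (n2 := ndB0q0) (pc := pcB3) (cut := cut_A00pm_203_s3) (xt := Ext.none) (P1 := 0) (W1 := 536870912) (P2 := 0) (W2 := 536870912) (P3 := 697932185) (W3 := 42949674)
    rfl k0_A00pm_203_s3

theorem s_A00pm_203_s3 {κ x : ℝ} (hκ : κ * h0 = ken x) (hx : ((697932185 : ℕ) : ℝ) / S ≤ x)
    (hx' : x ≤ (((697932185 : ℕ) : ℝ) + (42949674 : ℕ)) / S) :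
    AltA (VFD κ) PP tK tL pcB [⟨4, 0, 0, 2845415833⟩] 2 0 3 0 0 (sgb true) (sgb false) x :=
  strip_altAD (m := 2845415833) false rfl hκ (SH.κ0 hκ (SH.hx1 hx).le (SH.hx2 hx').le) (SH.hx1 hx).le (SH.hx2 hx') (covB02).cov (covB00).cov hx hx' c_A00pm_203_s3 cutA_nil (noExt_A)

noncomputable def cut_A00pm_213_s1 : Cut := Cut.of [[⟨4, 0, 0, 1449551462⟩], [⟨0, 1, 0, 67108864⟩, ⟨1, 1, 0, 67108864⟩, ⟨2, 2, 0, 16777216⟩], [⟨0, 1, 0, 33554432⟩, ⟨1, 0, 1, 20971520⟩, ⟨2, 1, 1, 20971520⟩]]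

noncomputable def f_A00pm_213_s1 : ℕ → ℕ → ℕ → ℕ → Bool := onCell 0 536870912 536870912 536870912 697932185 42949674
    (rowF 0 true true false .pnn 2 1 3 (qsf 0 536870912 536870912 536870912 3) ndB0q2 ndB0q1 pcB3 cut_A00pm_213_s1 Ext.none)

def k0_A00pm_213_s1 : ∃ t, chk3 f_A00pm_213_s1 t 1 1 1 = true :=
  ⟨(l 6), by decide +kernel⟩

theorem c_A00pm_213_s1 : CertF 0 536870912 536870912 536870912 697932185 42949674 true true false .pnn 2 1 3
    ndB0q2 ndB0q1 pcB3 cut_A00pm_213_s1 Ext.none :=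
  certF0 (fam := true) (s1 := true) (s2 := false) (a := 2) (b := 1) (c := 3) (cn := .pnn) (n1 := ndB0q2) (n2 := ndB0q1) (pc := pcB3) (cut := cut_A00pm_213_s1) (xt := Ext.none) (P1 := 0) (W1 := 536870912) (P2 := 536870912) (W2 := 536870912) (P3 := 697932185) (W3 := 42949674)
    rfl k0_A00pm_213_s1

theorem s_A00pm_213_s1 {κ x : ℝ} (hκ : κ * h0 = ken x) (hx : ((697932185 : ℕ) : ℝ) / S ≤ x)
    (hx' : x ≤ (((697932185 : ℕ) : ℝ) + (42949674 : ℕ)) / S)
    (H : CutA (VFD κ) PP tK tL pcB (Cut.of [[⟨0, 1, 0, 67108864⟩, ⟨1, 1, 0, 67108864⟩, ⟨2, 2, 0, 16777216⟩], [⟨0, 1, 0, 33554432⟩, ⟨1, 0, 1, 20971520⟩, ⟨2, 1, 1, 20971520⟩]]) 2 1 3 0 0 (sgb true) (sgb false) x) :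
    AltA (VFD κ) PP tK tL pcB [⟨3, 0, 0, 1449551462⟩] 2 1 3 0 0 (sgb true) (sgb false) x :=
  strip_altAD (m := 1449551462) true rfl hκ (SH.κ0 hκ (SH.hx1 hx).le (SH.hx2 hx').le) (SH.hx1 hx).le (SH.hx2 hx') (covB02).cov (covB01).cov hx hx' c_A00pm_213_s1 H (noExt_A)

noncomputable def cut_A00pm_213_s3 : Cut := Cut.of [[⟨3, 0, 0, 2845415833⟩], [⟨0, 1, 0, 67108864⟩, ⟨1, 1, 0, 67108864⟩, ⟨2, 2, 0, 16777216⟩], [⟨0, 1, 0, 33554432⟩, ⟨1, 0, 1, 20971520⟩, ⟨2, 1, 1, 20971520⟩]]

noncomputable def xt_A00pm_213_s3 : Ext := strExt6 dd true true false .u2 .u0m .s2m .pnn 2 1 3 rfl rfl gl3 vv ww ndB0q2 ndB0q1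

noncomputable def f_A00pm_213_s3 : ℕ → ℕ → ℕ → ℕ → Bool := onCell 0 536870912 1610612736 536870912 697932185 42949674
    (rowF 1 true true false .pnn 2 1 3 (qsf 0 536870912 536870912 536870912 3) ndB0q2 ndB0q1 pcB3 cut_A00pm_213_s3 xt_A00pm_213_s3)

def k0_A00pm_213_s3 : ∃ t, chk3 f_A00pm_213_s3 t 2 2 1 = true :=
  ⟨(b (a (l 1) (l 6)) (b (a (a (b (a (b (l 1) (l 16729504)) (l 16710264)) (a (b (l 16741416) (l 16751296)) (b (l 16730592) (l 16741344)))) (b (b (l 1) (l 16701312)) (b (l 16715000) (l 16726832)))) (a (b (a (l 16676616) (l 6)) (a (l 16705416) (l 16696920))) (l 6))) (b (b (a (a (a (a (l 16761976) (l 16757208)) (l 16750728)) (l 16737760)) (a (l 16721096) (l 6))) (a (a (a (a (l 1071734799) (l 16764720)) (l 16759208)) (a (l 16751976) (l 16744248))) (a (l 16734680) (a (l 16728520) (l 6))))) (a (a (a (a (l 1072324623) (b (l 1072184335) (l 1072604175))) (a (b (l 16767672) (l 1072663055)) (b (l 16764848) (l 16770808)))) (a (b (l 16760576)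 (l 16767808)) (a (l 16760336) (l 16757864)))) (a (a (l 16754960) (l 16752856)) (a (l 16753288) (a (l 16750648) (l 16745128)))))))), by decide +kernel⟩

def k1_A00pm_213_s3 : ∃ t, chk3 f_A00pm_213_s3 t 4 6 1 = true :=
  ⟨(b (a (a (a (l 4) (b (b (l 1073070095) (l 4)) (l 4))) (b (a (b (l 1073129487) (l 1073565711)) (a (b (l 1073172495) (b (l 1073539599) (c (l 1073808911) (l 1073517071)))) (b (l 1073191439) (b (l 16776720) (b (l 16777112) (l 1073750543)))))) (a (l 4) (b (a (a (l 4) (l 1073944079)) (l 1073933327)) (l 4))))) (a (a (b (b (l 16773952) (b (l 16776432) (c (l 1073775119) (l 16779176)))) (b (c (l 1073984015) (l 1073839631)) (l 1074248207))) (b (b (l 16772840) (b (l 16775888) (l 16776824))) (b (l 1073879567) (l 1074220047)))) (b (b (l 16771344) (a (c (l 16776432) (l 16774568)) (l 16775496))) (b (a (a (l 1073854991) (l 1073845263)) (c (l 16773368) (l 16777736))) (a (a (l 1074199055) (b (l 16778720) (l 1074292239))) (b (l 16779512) (c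 (l 16780208) (l 16779736)))))))) (a (l 4) (a (b (b (b (l 1074521615) (l 4)) (l 4)) (l 4)) (b (b (b (a (c (a (l 1074542095) (b (l 16778784) (l 1074598415))) (a (l 1074444815) (l 1074451471))) (b (c (l 16780240) (l 16779856)) (l 1074660879))) (a (a (c (c (l 1073710095) (l 1074731023)) (l 1074124303)) (a (b (l 1074655759) (l 1074800143)) (l 1074773007))) (l 1074327567))) (a (a (l 4) (l 1075128847)) (l 1075243535))) (l 4))))), by decide +kernel⟩

def k2_A00pm_213_s3 : ∃ t, chk3 f_A00pm_213_s3 t 10 12 1 = true :=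
  ⟨(a (b (b (l 16770504) (l 16775904)) (b (b (l 16778800) (l 16780544)) (a (b (l 16781008) (l 16781904)) (b (l 16783024) (l 16784376))))) (b (b (l 16771984) (l 16778496)) (b (l 16783896) (a (l 16786904) (l 16790712))))), by decide +kernel⟩

def k3_A00pm_213_s3 : ∃ t, chk3 f_A00pm_213_s3 t 10 26 1 = true :=
  ⟨(a (a (b (b (l 1074737167) (l 1075016719)) (l 1075391503)) (b (b (l 16785360) (l 16785608)) (a (l 1074960911) (b (l 16785952) (l 16774288))))) (b (a (b (l 16788992) (l 16789552)) (l 16794056)) (a (b (l 16789232) (l 16788256)) (b (l 16794352) (l 16793648))))), by decide +kernel⟩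

def k4_A00pm_213_s3 : ∃ t, chk3 f_A00pm_213_s3 t 20 27 1 = true :=
  ⟨(b (a (b (l 1075740687) (a (l 4) (b (l 1075858959) (a (l 4) (l 4))))) (c (b (a (l 1075928591) (l 1076006927)) (b (a (a (l 1075990543) (l 1076028431)) (l 1076099087)) (a (a (b (l 1075996175) (l 1075998735)) (l 1075497999)) (b (l 1076093967) (l 1076096015))))) (b (a (l 1075764751) (l 1075830799)) (a (b (a (l 1075831311) (l 1075862543)) (b (c (l 1075893263) (l 1075809295)) (a (l 1075838479) (l 1075868687)))) (b (l 1075928079) (b (l 1075919375) (l 1075920911))))))) (a (l 4) (b (c (b (a (a (l 4) (l 1076037135)) (b (l 1076097039) (l 1075564047))) (a (l 4) (b (a (l 1076075535) (l 1076141071)) (l 1076108303)))) (b (a (a (l 4) (l 1075870223)) (b (l 1075921935) (l 1075390479))) (a (l 4) (b (a (l 1075904015) (l 1075974671)) (l 1075941391))))) (l 4)))), by decide +kernel⟩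

def k5_A00pm_213_s3 : ∃ t, chk3 f_A00pm_213_s3 t 21 27 1 = true :=
  ⟨(b (a (b (b (l 16766144) (b (l 16765440) (l 16775344))) (a (b (b (l 16783808) (l 16777840)) (c (l 1076209679) (l 1076036623))) (b (l 16775552) (b (l 16784928) (l 16773688))))) (b (a (l 16790744) (l 16793776)) (b (l 16769432) (a (l 16787320) (l 16790296))))) (a (b (c (a (b (l 1076226575) (a (l 1076204047) (l 1076266511))) (b (l 1076359695) (c (l 1076395023) (l 1076321807)))) (a (b (l 1076060175) (a (l 1076041743) (l 1076108303))) (b (l 1076203535) (a (l 1076173327) (l 1076237839))))) (a (a (b (c (l 1076195855) (l 1076036111)) (l 4)) (c (b (a (l 1076241935) (c (b (l 1076312591) (l 1076305423)) (l 1076234767))) (b (c (b (a (l 1076269071) (c (l 1076317199) (l 1076280847))) (a (l 4) (a (l 4) (l 1076301327)))) (b (a (l 1076194319) (a (l 1076217359) (l 1076232719))) (a (l 4) (a (l 4) (l 1076228111))))) (l 4))) (b (a (l 1076085263) (c (l 1075888655) (a (l 1076068879) (l 1076085263))))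 (b (c (a (b (l 1076117007) (l 4)) (b (a (l 1076140559) (l 1076156431)) (a (l 4) (l 1076151823)))) (a (b (l 1076036623) (l 4)) (b (a (c (l 1076081167) (l 1076040719)) (l 1076077071)) (a (l 4) (l 1076072975))))) (l 4))))) (c (b (c (b (l 1076387343) (l 1076379663)) (b (l 1076314639) (l 1076307983))) (b (a (b (c (l 1076343311) (l 1076270607)) (l 1076302351)) (l 1076364303)) (l 1076323855))) (b (c (b (l 1076239375) (l 1076233231)) (a (l 1075992079) (l 1076190735))) (b (b (c (l 1076226575) (a (l 1076117519) (l 1076181007))) (l 1076184079)) (l 1076176399)))))) (a (b (b (l 16780472) (b (l 16779200) (l 16778344))) (b (c (b (l 1076469775) (l 1076461583)) (b (l 1076326415) (l 1076319247))) (c (b (l 1076451343) (l 1076439055)) (b (l 1076310031) (l 1076298767))))) (b (b (l 16788600) (l 16781560)) (b (b (l 16780200) (l 16779288)) (c (l 1076557839) (l 1076423695))))))), by decide +kernel⟩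

def k6_A00pm_213_s3 : ∃ t, chk3 f_A00pm_213_s3 t 11 6 1 = true :=
  ⟨(b (b (a (b (l 16776000) (l 16783784)) (l 16738696)) (a (b (l 16791280) (l 16798080)) (l 16799576))) (b (a (a (b (l 16799640) (l 16800224)) (b (l 16804992) (l 16806112))) (b (l 16808496) (l 16810264))) (a (b (a (b (l 16798888) (b (l 16796944) (l 16795224))) (b (l 16805080) (l 16802160))) (a (b (a (b (l 16791656) (l 16789760)) (l 16772912)) (a (b (l 16777352) (l 1076066831)) (b (l 16790864) (l 16778336)))) (b (l 16777088) (b (l 16794792) (l 16782104))))) (b (b (l 16809280) (l 16764016)) (a (b (l 16801176) (l 16796384)) (b (l 16801752) (l 16796600))))))), by decide +kernel⟩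

def k7_A00pm_213_s3 : ∃ t, chk3 f_A00pm_213_s3 t 4 7 1 = true :=
  ⟨(l 4), by decide +kernel⟩

def k8_A00pm_213_s3 : ∃ t, chk3 f_A00pm_213_s3 t 10 7 1 = true :=
  ⟨(b (b (a (l 4) (b (a (a (l 4) (b (b (a (b (c (l 1076147215) (l 1076065807)) (l 4)) (b (c (l 1076339215) (l 1076194319)) (c (l 1076190223) (l 1076045839)))) (l 4)) (l 4))) (c (b (a (b (l 1076149263) (a (b (l 1076363279) (c (l 1076377103) (l 1076310031))) (b (l 1076418575) (l 1076398607)))) (b (a (l 1076499983) (l 1076554255)) (a (b (l 1076472847) (l 1076451855)) (l 1076515343)))) (b (a (a (l 4) (a (l 4) (b (b (l 1076395535) (l 4)) (l 4)))) (a (b (a (c (l 1076448271) (l 1076384271)) (l 1076442639)) (l 1076405775)) (l 1076469775))) (a (l 4) (a (l 4) (l 1076417039))))) (b (a (b (l 1076009999) (a (b (l 1076223503) (c (l 1076240399) (l 1076167695))) (b (l 1076281871) (l 1076262415)))) (b (l 1076394511) (a (b (l 1076339215) (l 1076319247)) (l 1076385295)))) (a (a (l 4) (b (b (c (l 1076275727)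 (l 1076205071)) (l 4)) (l 4))) (a (b (b (c (l 1076331023) (l 1076261903)) (l 1076273167)) (l 4)) (l 1076046863)))))) (l 4))) (l 4)) (l 4)), by decide +kernel⟩

def k9_A00pm_213_s3 : ∃ t, chk3 f_A00pm_213_s3 t 22 28 1 = true :=
  ⟨(b (a (c (b (a (b (l 1076633103) (l 1076593167)) (l 1076444175)) (a (l 1076519951) (a (l 1076591119) (l 1076629519)))) (b (a (b (l 1076506639) (l 1076467215)) (l 1076592655)) (a (l 1075857935) (a (l 1076470287) (l 1076510735))))) (b (a (b (l 16789344) (l 16776736)) (l 16784816)) (a (b (l 16779880) (a (l 1076501007) (l 16783512))) (b (l 16786744) (l 16784592))))) (b (b (a (a (c (l 1076429327) (l 1076303887)) (a (l 1076438543) (a (b (l 16777152) (l 1075916303)) (b (l 16780352) (l 1076438031))))) (a (c (a (l 1076451343) (l 1076311055)) (a (l 1076323855) (l 1076171279))) (b (l 16782984) (l 16779368)))) (a (a (l 4) (a (b (l 1076386831) (a (l 4) (c (l 1076432399) (l 1076311055)))) (a (c (b (l 1076474383) (b (l 1076442127)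 (l 1076426767))) (b (l 1076353551) (b (l 1076320783) (l 1076304911)))) (c (b (l 1076472335) (l 1076354575)) (b (l 1076350479) (l 1076225551)))))) (a (b (a (b (l 16776840) (l 1076214799)) (l 1076068367)) (b (l 1076089871) (l 1076072975))) (b (l 1075822095) (l 1075771407))))) (a (a (l 4) (a (l 4) (a (l 4) (b (l 1076247055) (l 4))))) (b (a (b (l 1076054031) (a (l 1076114447) (l 1075957263))) (a (a (l 1075717135) (l 1075777039)) (l 1075935759))) (b (a (a (l 4) (b (l 1075947535) (a (l 4) (a (l 1075924495) (l 1075886607))))) (b (a (a (l 1075834383) (l 1075760655)) (l 1075653135)) (l 1075721231))) (a (l 4) (a (l 1075791887) (l 1075649039)))))))), by decide +kernel⟩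

def k10_A00pm_213_s3 : ∃ t, chk3 f_A00pm_213_s3 t 23 28 1 = true :=
  ⟨(b (a (b (b (l 16792768) (l 16790368)) (b (l 16788008) (b (l 16786200) (l 16779864)))) (b (l 16770432) (a (l 16786704) (l 16786136)))) (b (a (b (a (l 1075657231) (l 16783656)) (a (b (l 16776744) (l 1075484175)) (l 1075232271))) (b (l 1074957327) (a (l 16782336) (l 16782144)))) (a (b (a (l 1075189263) (l 1075195407)) (a (b (l 1075444751) (l 1075444239)) (l 1075187215))) (b (a (l 1074951695) (l 16776120)) (a (l 1074948111) (l 1074726415)))))), by decide +kernel⟩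

def k11_A00pm_213_s3 : ∃ t, chk3 f_A00pm_213_s3 t 11 29 1 = true :=
  ⟨(b (a (a (l 4) (b (b (a (l 4) (a (b (b (l 1075793423) (l 4)) (l 4)) (b (l 1075653135) (b (l 1075660303) (l 4))))) (l 4)) (l 4))) (b (a (a (b (a (b (l 1075516943) (l 1075528719)) (l 1075391503)) (a (b (a (l 4) (l 1075513871)) (l 4)) (b (l 1075417103) (a (l 1075473935) (l 1075410959))))) (b (a (l 1075265039) (l 1075143183)) (a (b (l 1075292175) (l 1075318287)) (l 1075185679)))) (a (b (l 1074969103) (a (l 1075069967) (l 1074958863))) (b (l 1074751503) (l 1074800143)))) (a (a (l 4) (b (a (b (a (l 1075380751) (l 1075320335)) (l 4)) (b (l 1075232271) (l 1075271183))) (a (l 4) (b (a (l 4) (l 1075287567)) (l 4))))) (a (b (a (b (l 1075118095) (l 1075158031)) (l 1075029007)) (a (b (l 1075204111) (a (l 4) (l 1075228687))) (b (l 1075096079) (l 1075148815)))) (b (a (l 1074924047) (l 1074823183)) (a (b (l 1074992143) (l 1075045903)) (l 1074920463))))))) (a (l 4) (a (l 4) (b (a (b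 (a (l 4) (b (a (l 4) (l 1075181583)) (l 4))) (l 4)) (b (a (b (l 1075105295) (l 1075170831)) (b (l 1075007503) (a (l 1075097615) (l 1075049999)))) (a (l 4) (b (b (l 1075126799) (a (l 4) (b (l 1075130383) (l 4)))) (l 4))))) (l 4))))), by decide +kernel⟩

def k12_A00pm_213_s3 : ∃ t, chk3 f_A00pm_213_s3 t 11 15 1 = true :=
  ⟨(l 4), by decide +kernel⟩

def k13_A00pm_213_s3 : ∃ t, chk3 f_A00pm_213_s3 t 3 2 1 = true :=
  ⟨(a (a (b (l 6) (l 6)) (l 6)) (l 6)), by decide +kernel⟩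

def k14_A00pm_213_s3 : ∃ t, chk3 f_A00pm_213_s3 t 6 12 1 = true :=
  ⟨(a (b (a (l 16685080) (l 16755480)) (a (b (l 16791560) (l 16803032)) (b (l 16783704) (l 16798280)))) (b (l 6) (a (b (l 16775736) (l 16792808)) (b (l 6) (l 16785048))))), by decide +kernel⟩

def k15_A00pm_213_s3 : ∃ t, chk3 f_A00pm_213_s3 t 6 13 1 = true :=
  ⟨(b (a (a (a (l 16810608) (b (l 16808896) (l 16810968))) (a (b (l 16807896) (b (l 16810552) (a (l 16811664) (l 16790240)))) (b (l 16807240) (a (l 16769968) (l 16812048))))) (b (a (l 16804744) (l 16757240)) (a (b (l 16810176) (l 16769960)) (b (l 16805976) (a (l 16808896) (l 16808120)))))) (a (a (b (a (l 16808344) (b (l 16810000) (l 16805896))) (a (l 16756432) (l 16796552))) (b (a (a (b (l 16810208) (l 16805904)) (b (a (l 16800104) (b (l 16810872) (b (l 16800088) (l 16809800)))) (l 16806032))) (b (b (l 16801376) (a (b (l 16811008) (a (a (l 16809768) (l 16810096)) (l 16810440))) (l 16811336))) (a (b (a (b (a (l 16808488)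 (l 16808480)) (l 16807120)) (l 16808200)) (a (l 16804720) (b (l 16805568) (l 16804088)))) (l 16796928)))) (a (a (l 16796624) (l 16796648)) (b (a (b (l 16801912) (l 16798376)) (b (a (l 16780728) (l 16802512)) (a (l 16798576) (l 16798576)))) (a (l 16794016) (b (a (l 16795344) (l 16795584)) (l 16793040))))))) (b (b (a (a (b (l 16812336) (l 16790872)) (b (l 16811720) (l 16811448))) (b (a (l 16810352) (l 16810296)) (a (l 16810888) (l 16811976)))) (a (a (a (l 16808272) (l 16808744)) (c (l 16765528) (l 16769840))) (a (b (l 16810664) (l 16768592)) (b (l 16813336) (l 16814696))))) (b (a (a (a (b (l 16803416) (l 16799728)) (l 16782008)) (a (l 16762128) (l 16763608))) (a (b (l 16767584) (l 16765128)) (a (l 16770128) (l 16773648)))) (a (a (a (b (l 16796536) (a (l 16772392) (l 16794272))) (l 16796864)) (b (l 16758896) (l 16777728))) (a (b (l 16763048) (l 16761352)) (a (l 16808608) (l 16812560)))))))), by decide +kernel⟩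

def k16_A00pm_213_s3 : ∃ t, chk3 f_A00pm_213_s3 t 6 28 1 = true :=
  ⟨(a (b (a (a (b (l 16789976) (l 16774920)) (b (l 16788776) (l 16784528))) (a (l 16744760) (b (l 16789784) (l 16787344)))) (a (a (b (a (l 16771832) (l 16782080)) (a (b (l 16781216) (l 16775472)) (b (l 16781200) (l 16780856)))) (b (l 16782384) (b (l 16781832) (l 16781720)))) (b (a (l 16783856) (l 16786512)) (a (l 16783800) (l 16787296))))) (a (b (a (b (a (b (a (l 16791696) (l 16791904)) (l 16769728)) (b (l 16793632) (l 16770744))) (a (l 16789080) (b (a (l 16790424) (l 16791208)) (a (l 16789792) (l 16790600))))) (b (c (l 16775656) (l 16775000)) (a (l 16792816) (l 16795552)))) (a (b (a (l 16788712) (l 16790368)) (l 16790552)) (b (a (b (a (l 16791296) (l 16792744)) (a (l 16791808) (l 16792512))) (l 16794936)) (a (b (l 16792904) (l 16793152)) (b (l 16773536) (a (l 16794376) (l 16794992))))))) (a (b (b (b (l 16760024) (l 16759024)) (a (l 16798600) (l 16801720))) (b (c (l 16778304)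 (l 16778664)) (c (l 16799168) (l 16798240)))) (c (b (a (l 16782368) (l 16764608)) (b (l 16804456) (l 16803464))) (b (b (l 16770864) (l 16768688)) (a (l 16784096) (l 16767680))))))), by decide +kernel⟩

def k17_A00pm_213_s3 : ∃ t, chk3 f_A00pm_213_s3 t 24 29 1 = true :=
  ⟨(b (a (b (a (b (l 1075643919) (a (l 1074657295) (l 1074606095))) (b (l 16780608) (a (l 16780224) (l 16780560)))) (a (a (b (l 1074735119) (a (l 1074852367) (l 1074828303))) (b (l 1074697231) (b (l 1074786319) (l 1074859535)))) (b (a (l 1074696207) (l 16780392)) (a (b (l 16779728) (l 1074892815)) (l 1075431951))))) (b (b (l 16771232) (a (l 16781216) (l 16782344))) (a (b (l 16775952) (b (l 16781176) (l 16781104))) (b (l 16782552) (l 16777360))))) (a (b (b (a (a (a (b (l 1074942479) (a (l 1075018255) (l 1075011087))) (b (l 1074930703) (b (l 1074993679) (l 1075044367)))) (b (a (l 1074938383) (l 1074958351)) (b (l 1075029007) (l 1075096079)))) (b (a (l 1075001871) (l 16777328))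 (a (l 1075134479) (l 1075201551)))) (a (a (b (b (a (a (c (l 1075217935) (l 1074924559)) (b (l 1075068431) (l 1075099663))) (l 1075110415)) (a (a (b (a (l 1075106319) (l 1075130383)) (l 1075130383)) (l 1075134991)) (l 1075156495))) (c (l 1075329551) (l 1075043855))) (b (b (l 1075159055) (l 1075200015)) (l 1075244047))) (b (a (l 1075238415) (l 1075295247)) (l 1075328015)))) (b (a (a (l 4) (b (l 1075300367) (l 4))) (a (b (l 1075356175) (l 1075410959)) (l 1075574799))) (a (l 4) (b (a (l 4) (l 1075520015)) (l 4))))) (b (b (a (a (l 1075209743) (l 1075274255)) (l 1075366415)) (a (b (l 1075378703) (l 1075438607)) (l 1075518991))) (b (a (a (l 1075495951) (l 1075550735)) (l 1076169743)) (a (a (b (l 1075574799) (l 1075626511)) (b (l 1075629583) (l 1075681295))) (a (l 1075711503) (l 1075765263))))))), by decide +kernel⟩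

def k18_A00pm_213_s3 : ∃ t, chk3 f_A00pm_213_s3 t 25 29 1 = true :=
  ⟨(b (a (b (b (l 16784248) (l 16784720)) (b (l 16774560) (l 16779936))) (b (l 16788232) (b (l 16788872) (l 16788848)))) (a (b (b (a (l 16783968) (l 16785712)) (a (l 1075626511) (l 16784944))) (a (b (l 1075740175) (a (l 1075819023) (l 1075872271))) (b (l 1075846159) (b (l 16780360) (l 1075975183))))) (b (a (b (l 16787560) (l 16786784)) (l 16778416)) (a (b (l 16785720) (b (l 16784808) (l 16784144))) (b (l 16787416) (l 16786160)))))), by decide +kernel⟩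

def k19_A00pm_213_s3 : ∃ t, chk3 f_A00pm_213_s3 t 13 29 1 = true :=
  ⟨(a (b (a (b (l 16791736) (l 16791968)) (b (a (l 16793640) (b (l 16795048) (l 16794728))) (l 16794064))) (a (b (a (l 16790328) (l 16791488)) (a (b (l 16788816) (l 16787544)) (l 16778824))) (b (l 16792880) (b (l 16791296) (l 16789920))))) (b (a (b (a (b (l 16796304) (a (l 16795568) (l 16796216))) (l 16798400)) (a (b (l 16774720) (l 16794904)) (b (l 16796920) (a (l 16795520) (l 16796352))))) (b (c (l 16801976) (l 16803120)) (c (l 16799840) (l 16778624)))) (a (b (a (l 16793800) (b (l 16774232) (l 16794040))) (l 16791912)) (b (a (b (l 16796568) (a (l 16794720) (l 16795688))) (l 16798152)) (a (b (l 16773264) (l 16793112)) (b (l 16796136) (a (l 16794392) (l 16795656)))))))), by decide +kernel⟩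

def k20_A00pm_213_s3 : ∃ t, chk3 f_A00pm_213_s3 t 24 60 1 = true :=
  ⟨(b (a (l 4) (b (a (a (l 4) (b (l 1075730959) (a (l 4) (l 1075791887)))) (a (b (l 1075785231) (b (l 1075820559) (l 1075844111))) (b (l 1075838991) (l 1075886607)))) (a (l 4) (b (a (b (l 1075867151) (l 4)) (c (l 1076046863) (l 1075816463))) (a (l 4) (a (l 4) (a (l 4) (l 1075996687)))))))) (l 4)), by decide +kernel⟩

def k21_A00pm_213_s3 : ∃ t, chk3 f_A00pm_213_s3 t 25 60 1 = true :=
  ⟨(a (b (a (b (a (b (l 1075892751) (l 1075940367)) (l 1075971087)) (b (a (l 1075986447) (l 1076039183)) (a (c (l 1076140559) (l 1075917839)) (l 1076083215)))) (b (a (l 1076023823) (l 1076076047)) (a (b (l 1076091407) (a (l 1076122127) (l 1076148239))) (b (l 1076143631) (l 1076187663))))) (b (a (b (a (l 4) (c (l 1076232207) (b (l 1076004879) (l 1076026383)))) (l 4)) (b (a (c (l 1076282895) (a (l 1076056591) (l 1076083215))) (b (l 1076218383) (l 1076239375))) (b (a (a (c (l 1076298255) (l 1076087823))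 (l 1076220431)) (l 1076259343)) (a (a (l 4) (l 1076239887)) (l 1076278799))))) (a (l 4) (a (l 4) (b (b (l 1076298255) (a (l 4) (l 1076329487))) (l 4)))))) (b (a (b (a (l 1076127247) (l 1076168207)) (a (b (l 1076194831) (l 1076238863)) (b (l 16779712) (l 1076273679)))) (b (b (l 16785104) (l 16784344)) (a (b (l 16783152) (l 16779704)) (l 1076217359)))) (a (b (a (b (l 1076280847) (a (l 1076307983) (l 1076333071))) (b (l 1076713999) (a (l 1076346383) (l 1076337167)))) (a (a (b (l 1076346383) (b (l 1076373007) (l 4))) (b (a (l 1076365327) (l 1076376591)) (b (a (l 1076391951) (b (l 1076395535) (a (l 1076405263) (l 1076408335)))) (b (b (a (l 1076403727) (a (l 1076411407) (l 1076403727))) (a (l 4) (c (l 1076523535) (l 1076331023)))) (l 4))))) (b (a (b (l 1076368911) (a (l 1076384271) (l 1076374031))) (b (l 1076348943) (l 1076346895))) (a (b (a (b (l 1076390927) (l 1076386831)) (l 1076369935)) (l 1076395023)) (b (l 1076343823) (l 1076364303))))))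 (b (a (b (l 1076287503) (a (l 1076315151) (l 1076285455))) (b (l 1076236303) (l 1076230671))) (b (a (a (l 1076580367) (l 1076275215)) (l 1076225039)) (a (b (l 1076295695) (l 1076320271)) (l 1076252687))))))), by decide +kernel⟩

def k22_A00pm_213_s3 : ∃ t, chk3 f_A00pm_213_s3 t 12 61 1 = true :=
  ⟨(a (l 4) (b (a (l 4) (a (b (a (l 4) (b (l 1076427791) (l 4))) (l 4)) (b (a (b (l 1076369423) (l 1076438543)) (l 1076890127)) (b (l 1076487183) (l 4))))) (l 4))), by decide +kernel⟩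

def k23_A00pm_213_s3 : ∃ t, chk3 f_A00pm_213_s3 t 13 30 1 = true :=
  ⟨(a (b (a (b (a (b (l 16780840) (a (l 1076169743) (l 16779472))) (b (l 16787176) (a (l 16785264) (l 16785760)))) (b (a (a (b (l 16782832) (l 1076161039)) (l 1076101647)) (b (l 16784272) (l 16783464))) (a (a (b (l 1076166159) (l 1076201999)) (b (l 16781720) (l 1076155919))) (a (l 1076091919) (l 1076054031))))) (b (b (l 16783232) (a (l 16786512) (l 16787376))) (a (b (l 16779720) (a (l 16783232) (l 16783832))) (b (l 16786032) (l 16784744))))) (b (a (b (a (a (l 1076303887) (l 1076259343)) (a (l 1076219919) (l 1076184591))) (a (b (l 1076391439) (l 1076474383)) (l 1075824143))) (a (b (l 1077216271) (l 1075230223)) (b (l 16778200) (l 1075729423)))) (a (b (a (l 1076078095) (l 1076004879)) (l 4)) (b (a (b (l 1076433423) (l 1076530703)) (b (l 1076398095) (l 1076496911))) (a (b (a (l 1076643343) (l 1076622351)) (l 1076741135)) (b (l 1076601359) (l 1076711439))))))) (b (b (b (a (l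 16790048) (a (l 16792040) (l 16773384))) (a (l 16788872) (l 16792144))) (a (b (l 16777248) (l 16781368)) (b (l 16791232) (l 16790296)))) (b (a (b (a (l 16784720) (l 16786168)) (a (l 16778128) (l 16779672))) (b (l 16778816) (b (l 16777984) (l 16777368)))) (a (a (b (b (l 16776984) (l 1076484111)) (b (l 1076053519) (a (l 1076700687) (l 1076702223)))) (b (b (l 16783840) (l 16777800)) (a (b (l 16779072) (l 1076751887)) (b (l 16782664) (l 1076877839))))) (b (a (a (l 16779712) (l 16780888)) (l 16782864)) (a (a (b (l 16783760) (l 1077040655)) (b (l 16784944) (l 16784016))) (b (l 16786848) (l 16780640)))))))), by decide +kernel⟩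

def k24_A00pm_213_s3 : ∃ t, chk3 f_A00pm_213_s3 t 6 31 1 = true :=
  ⟨(a (l 4) (b (a (b (a (l 4) (b (a (l 4) (b (l 1075752463) (l 4))) (l 4))) (l 4)) (b (a (b (a (a (b (l 1076816911) (l 1078012431)) (a (b (l 1076816911) (b (l 1076905487) (c (l 1077055503) (l 1076875279)))) (a (b (l 1076818447) (b (l 1076910095) (c (l 1077060111) (l 1076879887)))) (b (l 1076827663) (b (l 1076923407) (c (l 1077072399) (l 1077429263))))))) (b (a (a (l 1076860943) (l 1076929551)) (b (l 16778352) (l 1077095439))) (a (b (a (l 1076983311) (l 1077060623)) (a (l 1077617167) (l 1077137935))) (b (l 1077179407) (l 1077246479))))) (a (a (l 4) (a (l 4) (b (a (a (l 4) (l 1077047823)) (l 1077075471)) (l 4)))) (b (a (l 1076630543) (l 1076772879)) (a (l 4) (c (l 1077444623) (l 1076765711)))))) (b (a (b (a (l 1076678159) (l 1077365263)) (a (c (l 1076897807) (l 1076213775)) (l 1076426767))) (a (b (l 1077508111) (l 1077096975)) (b (l 16780096) (l 16781384)))) (b (a (a (l 1076911631)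 (l 1077047311)) (a (l 1077715983) (l 1077844495))) (a (a (c (l 1077577231) (l 1076911119)) (l 1076575759)) (a (l 1077782031) (l 1077910543)))))) (a (l 4) (b (b (a (a (l 1076492303) (l 1077702159)) (a (l 1077834767) (l 1077963791))) (b (a (l 4) (a (l 1077860367) (l 1077989391))) (a (l 4) (a (l 4) (l 1078004751))))) (b (b (a (l 4) (a (l 4) (l 1078016527))) (l 4)) (l 4)))))) (l 4))), by decide +kernel⟩

def k25_A00pm_213_s3 : ∃ t, chk3 f_A00pm_213_s3 t 7 6 1 = true :=
  ⟨(b (l 6) (a (b (a (a (b (l 16796312) (b (l 16804304) (l 16809640))) (b (l 6) (b (a (l 16805496) (l 6)) (a (l 16811864) (l 16813960))))) (b (l 6) (a (b (l 6) (a (l 16815448) (l 6))) (l 6)))) (b (c (a (b (a (l 16807736) (l 16770784)) (a (l 16812560) (l 16777944))) (a (b (l 16816112) (l 16783568)) (b (l 16799328) (l 16787792)))) (b (a (a (l 16822568) (l 16789840)) (a (l 16838240) (a (l 16843320) (l 16847560)))) (a (a (l 16829200) (l 16799376)) (a (l 16808224) (l 16815264)))))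 (a (a (b (a (l 16777888) (l 16782832)) (a (l 16817224) (l 16822648))) (b (b (l 16750216) (l 16749240)) (b (l 16748256) (l 16747224)))) (a (b (a (a (l 16757760) (l 16759368)) (a (l 16760552) (l 16761800))) (c (l 16747432) (l 16812440))) (b (c (l 16793504) (l 16821192)) (a (l 16762840) (l 16765176))))))) (b (l 6) (b (b (l 6) (a (a (c (l 16813680) (c (l 16856624) (l 16873032))) (c (l 16829272) (c (l 16863472) (l 16881184)))) (l 6))) (a (a (c (b (l 16818304) (l 16839584)) (b (c (l 16861016) (l 16877240)) (l 16825128))) (c (b (c (l 16836480) (l 16850784)) (l 16801640)) (b (a (l 16831456) (l 16834544)) (l 16830952)))) (a (b (b (l 6) (c (l 16847984) (l 16838760))) (c (a (l 16847072) (l 16849608)) (a (l 16793816) (l 16839128)))) (b (l 6) (c (a (l 16852472) (l 16855512)) (a (l 16842816) (l 16846648)))))))))), by decide +kernel⟩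

def k26_A00pm_213_s3 : ∃ t, chk3 f_A00pm_213_s3 t 14 14 1 = true :=
  ⟨(b (a (a (b (b (a (l 16815736) (l 16820944)) (l 16774872)) (b (l 16772720) (l 16780584))) (b (c (l 16779112) (l 16794616)) (b (l 16782072) (a (l 16818256) (l 16822560))))) (b (a (a (a (l 16751496) (l 16775720)) (b (l 16758544) (l 16756072))) (b (a (l 16761272) (l 16763608)) (a (l 16758904) (l 16761144)))) (a (b (a (l 16831408) (l 16752616)) (l 16787688)) (b (c (l 16831800) (l 16766904)) (c (l 16829224) (l 16845872)))))) (b (b (a (a (c (l 16806640) (l 16769232)) (c (l 16812848) (l 16820928))) (a (l 16783568) (c (l 16827280) (l 16841968)))) (a (a (c (l 16804288) (l 16765272)) (c (l 16810096) (l 16816320))) (a (l 16780088) (c (l 16783696) (l 16838584))))) (b (a (a (c (l 16801856) (l 16761360)) (c (l 16807880) (l 16812456))) (a (l 16777088) (a (l 16826344) (l 16831488)))) (a (a (c (l 16799952) (l 16779176)) (c (l 16806064) (l 16767240))) (a (a (l 16814016) (l 16818656))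 (a (l 16823520) (l 16828640))))))), by decide +kernel⟩

def k27_A00pm_213_s3 : ∃ t, chk3 f_A00pm_213_s3 t 15 14 1 = true :=
  ⟨(b (a (c (b (a (c (l 16791152) (l 16802104)) (c (l 16816680) (l 16807520))) (a (a (l 16834512) (l 16837464)) (a (l 16798808) (l 16802432)))) (b (c (a (l 16814192) (l 16820552)) (a (l 16869360) (l 16876760))) (a (l 16835016) (b (l 16865688) (l 16863480))))) (b (b (a (c (l 16827928) (l 16835880)) (c (c (l 16848768) (l 16862648)) (l 16844224))) (a (c (l 16849528) (l 16876416)) (c (a (l 16854944) (l 16858648)) (l 16843584)))) (a (b (c (l 16808128) (l 16875000)) (a (l 16817288) (l 16800696))) (b (c (a (l 16855984) (l 16817776)) (l 16842768)) (a (l 16804928) (a (l 16828856) (l 16830560))))))) (a (b (a (a (l 16797432) (a (l 16800544) (l 16803000))) (a (c (l 16839704) (l 16857464)) (c (l 16843632) (l 16819632)))) (b (a (l 16796192) (a (l 16844472) (l 16848384))) (b (a (l 16835784) (l 16801192)) (a (l 16833408) (l 16795920)))))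 (c (b (a (b (l 16850000) (l 16848464)) (a (l 16854216) (l 16814792))) (b (a (l 16845384) (l 16849976)) (a (l 16841040) (l 16844976)))) (b (a (b (l 16822840) (l 16810376)) (a (a (l 16814296) (l 16813616)) (b (l 16818592) (l 16807328)))) (a (b (l 16799528) (l 16789960)) (c (a (l 16839720) (l 16797440)) (b (l 16792552) (l 16794432)))))))), by decide +kernel⟩

def k28_A00pm_213_s3 : ∃ t, chk3 f_A00pm_213_s3 t 7 30 1 = true :=
  ⟨(a (b (a (a (b (a (b (l 16796768) (a (l 16795272) (l 16796576))) (l 16799632)) (a (b (l 16774488) (l 16794312)) (b (l 16798096) (a (l 16796880) (l 16798152))))) (b (l 16815864) (a (l 16801536) (l 16805304)))) (a (b (a (l 16811720) (l 16816048)) (a (l 16809016) (l 16812800))) (b (l 16801216) (a (l 16816240) (l 16819480))))) (a (b (a (b (a (l 16793400) (l 16776056)) (l 16783472)) (a (b (l 16799696) (l 16804192)) (l 16802632))) (a (a (b (l 16780424) (c (l 16789240) (l 16783616))) (b (l 16793952) (l 16786592))) (a (b (l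 16797112) (l 16794688)) (a (b (l 16799320) (l 16796144)) (b (l 16800352) (l 16796456)))))) (b (a (b (l 16808240) (l 16806064)) (c (l 16810544) (l 16789032))) (a (b (l 16792368) (a (c (l 16797920) (b (l 16798616) (l 16796568))) (l 16798928))) (b (l 16784160) (a (l 16800280) (l 16801608))))))) (a (a (a (b (b (l 16828144) (l 16779496)) (b (l 16812960) (l 16783880))) (b (b (l 16831024) (l 16780144)) (b (a (l 16792344) (l 16792928)) (b (l 16807624) (l 16804008))))) (b (b (b (l 16790960) (l 16786288)) (a (l 16821816) (l 16779768))) (b (a (l 16792888) (l 16771848)) (a (b (l 16808448) (c (l 16806928) (l 16802584))) (b (l 16808264) (l 16804712)))))) (b (a (a (b (l 16788176) (l 16779576)) (c (l 16799696) (b (l 16781216) (l 16773672)))) (c (b (l 16836440) (l 16805936)) (b (a (l 16780552) (l 16780072)) (a (l 16773008) (l 16782936))))) (b (c (a (l 16817552) (a (l 16817840) (l 16818104))) (a (a (l 16809360) (l 16787680)) (a (l 16776496) (a (l 16786528)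 (l 16786256))))) (c (a (a (l 16809296) (l 16809368)) (a (l 16788472) (a (l 16788568) (l 16788696)))) (a (a (l 16802936) (l 16781240)) (a (a (l 16780712) (l 16780360)) (b (l 16781440) (a (l 16799440) (l 16799160)))))))))), by decide +kernel⟩

def k29_A00pm_213_s3 : ∃ t, chk3 f_A00pm_213_s3 t 14 124 1 = true :=
  ⟨(a (a (b (b (a (l 16787264) (l 16789912)) (a (c (l 16785960) (l 16780528)) (l 16783200))) (b (a (a (l 1077968911) (l 16779704)) (c (l 16786600) (l 16781456))) (b (a (l 1079151631) (l 16779968)) (a (l 1079718415) (c (l 16784248) (l 1079703055)))))) (b (a (c (l 16790960) (l 16785848)) (l 16786888)) (a (b (l 16788040) (a (l 16785856) (l 16781272))) (b (l 16783968) (l 16787400))))) (a (a (a (b (l 16792712) (l 16783896)) (b (b (l 16794640) (l 16792312)) (l 16784416))) (b (a (l 16794376) (l 16774000)) (b (a (l 16791048) (l 16791896)) (a (l 16789288) (c (l 16789992) (l 16789840)))))) (b (a (l 16796136) (l 16797608)) (a (l 16781608) (l 16793688))))),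 by decide +kernel⟩

def k30_A00pm_213_s3 : ∃ t, chk3 f_A00pm_213_s3 t 28 125 1 = true :=
  ⟨(a (b (a (a (b (l 1078088719) (l 1078128655)) (b (l 1078201871) (l 1078141967))) (a (b (l 1078077967) (l 1078556175)) (b (l 1077958671) (l 1078706191)))) (a (b (c (a (l 1078183439) (l 1078077455)) (a (l 1079193615) (l 1079186959))) (c (a (l 4) (l 1078580239)) (c (a (l 4) (b (l 1078080015) (l 4))) (a (l 4) (a (l 4) (l 1078053391)))))) (b (a (a (l 1078003215) (l 1077943311)) (a (l 1077884431) (l 1077826575))) (a (b (l 1077950479) (a (l 1077966863) (l 1077907983))) (b (l 1077833743) (a (l 1077312527) (l 1077255183))))))) (b (b (a (a (l 1077842959) (l 16784744)) (c (l 16780432) (b (l 16786088) (l 16779992)))) (b (a (a (l 16782760) (l 16783464)) (a (l 16784104) (l 16784712))) (a (a (l 1077778447) (l 16780000)) (a (l 16783280) (l 16783904))))) (a (a (a (b (l 1077769231) (b (l 1077211663) (l 1077198863))) (b (l 1077713423) (b (l 1077156367) (l 1077143567))))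 (c (b (l 1078171151) (b (l 1077616655) (l 1077604879))) (b (b (l 1077645839) (l 1077625871)) (b (l 1077877263) (a (l 1077087247) (l 1077031439)))))) (a (b (b (l 1077809679) (a (l 1077548047) (l 1077497871))) (a (b (l 1076995599) (a (l 1077533711) (l 1077507599))) (b (l 1076945935) (a (l 1077483023) (l 1077461007))))) (b (b (l 16783104) (c (l 16782336) (l 16779688))) (a (b (l 1076904463) (a (l 1077441039) (l 1077423119))) (b (l 1076868623) (a (l 1077406735) (l 1077391887))))))))), by decide +kernel⟩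

def k31_A00pm_213_s3 : ∃ t, chk3 f_A00pm_213_s3 t 29 125 1 = true :=
  ⟨(a (a (b (b (c (l 16786840) (l 16781544)) (a (c (l 16784936) (l 16779640)) (l 16785488))) (b (a (b (l 16783720) (l 16782952)) (b (l 16784312) (l 16783552))) (a (c (b (l 16782208) (l 16778832)) (b (l 16779552) (b (l 16781608) (l 16781232)))) (b (l 16782800) (c (l 16782080) (l 16779408)))))) (b (c (b (l 16782576) (l 16786336)) (b (l 16782456) (l 16781000))) (b (b (l 16785136) (l 16781752)) (a (b (l 16783368) (l 16782624)) (b (l 16783888) (l 16783152)))))) (b (a (a (b (a (l 16778056) (l 16789040)) (l 16781648)) (a (b (l 16789352) (l 16782240)) (l 16778464))) (l 16779328)) (a (b (a (l 16785496) (b (l 16780976) (l 16785560))) (a (l 16778768) (l 16784456))) (b (a (b (l 16787064) (a (l 16780632) (l 16786296))) (l 16787328)) (a (b (a (l 16785128) (l 16780096)) (l 16784496)) (a (b (l 16785744) (a (l 16784680) (l 16779664))) (l 16785696))))))), by decide +kernel⟩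

def k32_A00pm_213_s3 : ∃ t, chk3 f_A00pm_213_s3 t 15 62 1 = true :=
  ⟨(a (b (c (b (a (l 16800848) (a (l 16802792) (l 16803320))) (a (l 16796736) (a (l 16798736) (l 16799696)))) (b (a (l 16798224) (a (c (l 16800128) (l 16798128)) (l 16799008))) (a (l 16794760) (a (l 16795816) (l 16796280))))) (a (b (a (l 16791320) (l 16792688)) (a (b (l 16788472) (l 16781336)) (b (l 16789880) (l 16788008)))) (a (b (l 16783376) (b (l 16791088) (l 16789240))) (b (b (a (l 16795408) (l 16795432)) (a (l 16793576) (l 16793888))) (a (l 16780464) (b (l 16781712) (l 16779880))))))) (b (c (b (a (l 16803416) (a (l 16803472) (l 16787864))) (a (a (l 16799672) (l 16799648)) (a (l 16799664) (a (l 16799744) (l 16778872))))) (a (a (c (l 16798200) (l 16774704)) (b (l 16797680) (l 16773800))) (a (b (a (l 16797144) (l 16796784)) (a (l 16794264) (l 16793936))) (b (a (l 16796464) (l 16785696)) (a (l 16783152) (b (l 16794072) (l 16792712))))))) (a (b (a (c (l 16796016) (l 16792688))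 (a (l 16773216) (b (l 16773848) (l 16772248)))) (a (c (l 16787240) (c (l 16790680) (l 16789328))) (a (b (l 16791816) (l 16790272)) (b (l 16781184) (l 16779656))))) (c (b (a (c (l 16797016) (l 16784440)) (c (l 16797288) (a (l 16794904) (l 16794920)))) (a (a (l 16792472) (l 16782024)) (a (a (l 16792552) (l 16782096)) (b (l 16783024) (l 16781272))))) (b (a (a (l 16781040) (l 16780744)) (a (b (l 16791616) (l 16790320)) (b (l 16791384) (l 16790088)))) (b (a (a (l 16789560) (l 16789296)) (a (l 16789048) (c (l 16790080) (l 16787504)))) (a (a (l 16788296) (l 16788040)) (a (l 16787800) (c (l 16788696) (l 16786400)))))))))), by decide +kernel⟩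

def k33_A00pm_213_s3 : ∃ t, chk3 f_A00pm_213_s3 t 56 252 1 = true :=
  ⟨(b (b (b (a (l 4) (a (l 4) (l 1077814799))) (b (a (l 4) (a (l 4) (l 1077812751))) (a (l 4) (l 4)))) (l 4)) (l 4)), by decide +kernel⟩

def k34_A00pm_213_s3 : ∃ t, chk3 f_A00pm_213_s3 t 114 252 1 = true :=
  ⟨(b (a (c (b (l 1077699599) (l 1078231567)) (a (b (l 1077191695) (a (l 4) (l 1077171727))) (b (l 1077134351) (a (l 1077143055) (l 1077114383))))) (c (b (l 1077596175) (a (l 1077080591) (l 1077029903))) (b (a (c (l 1077078543) (l 1077077007)) (a (l 1077572623) (l 1077545487))) (a (b (l 1077612047) (l 1077073423)) (b (l 1077556239) (l 1077018127)))))) (a (l 4) (b (c (c (l 1078131727) (a (l 1077075983) (l 1077024783))) (c (a (b (l 1077611023) (l 4)) (b (l 1077556751) (l 1077557263))) (a (b (c (l 1077608975) (l 1077340175)) (l 4)) (a (b (l 1077566479) (l 1077566991)) (b (l 1077538831) (l 1077539343)))))) (l 4)))), by decide +kernel⟩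

def k35_A00pm_213_s3 : ∃ t, chk3 f_A00pm_213_s3 t 115 252 1 = true :=
  ⟨(b (a (a (c (b (l 1077521423) (l 1076980239)) (b (a (l 1077517839) (l 1077490703)) (b (l 1076964879) (a (l 1077514255) (l 1077487119))))) (a (b (l 1076937743) (b (l 1077473295) (l 1077472783))) (b (l 1076917263) (b (l 1077453839) (l 1077454863))))) (b (a (a (l 1076898831) (l 1076882447)) (a (l 1076868111) (l 1077391375))) (b (a (a (l 1077437455) (l 1077423631)) (l 1076866063)) (a (a (l 1077440527) (l 1077426703)) (a (l 1077412367) (l 1077398031)))))) (b (b (a (a (a (l 1077520911) (l 1077763599)) (c (l 1076937231) (a (l 1077731855) (l 1077448207)))) (a (a (l 1077444111) (l 1077429775)) (a (l 1077415439) (l 1077400591)))) (a (a (c (l 1076982287) (a (l 1078051343) (a (l 1077494287) (a (l 1077484559) (l 1077478415))))) (a (a (b (l 1077480463) (l 1077483535)) (b (l 1077473295) (l 1077475855))) (b (l 1077462543) (l 1077465103)))) (a (a (b (l 1077448207) (l 1077449743)) (a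 (l 1077437455) (l 1077429775))) (a (l 1077417999) (l 1077402639))))) (c (b (a (b (a (a (l 1077533199) (l 1077509135)) (a (l 1077494799) (l 1077478415))) (a (l 4) (l 1077486095))) (a (l 1077992463) (l 1077426191))) (a (a (l 4) (l 1077485583)) (a (l 1077456399) (l 1077426703)))) (a (c (a (b (b (a (l 1077519375) (a (l 1077499919) (l 1077487631))) (l 4)) (l 4)) (b (b (a (l 1077477903) (l 1077461007)) (l 1077468687)) (a (l 4) (l 1077460495)))) (b (a (b (b (a (l 1077513231) (a (l 1077492751) (l 1077479951))) (a (l 4) (a (l 1077493263) (a (l 1077483535) (l 1077478927))))) (l 4)) (b (a (a (b (l 1077472783) (l 1077472783)) (l 1077464079)) (l 1077451791)) (a (l 1077468687) (l 1077451791)))) (a (l 4) (a (l 4) (c (l 1077453327) (l 1077986319)))))) (a (a (b (b (l 1077440015) (l 1077440015)) (l 1077976079)) (b (l 1077959695) (l 1077423119))) (a (b (l 1077406735) (l 1077406735)) (b (l 1077390351) (l 1077390863)))))))), by decide +kernel⟩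

def k36_A00pm_213_s3 : ∃ t, chk3 f_A00pm_213_s3 t 28 253 1 = true :=
  ⟨(a (l 4) (b (b (b (a (l 4) (a (l 4) (a (a (l 4) (a (l 1077440015) (l 1077432335))) (a (l 1077420559) (l 1077404687))))) (a (l 4) (a (l 4) (a (l 4) (a (l 4) (l 1077406735)))))) (l 4)) (l 4))), by decide +kernel⟩

def k37_A00pm_213_s3 : ∃ t, chk3 f_A00pm_213_s3 t 58 252 1 = true :=
  ⟨(a (b (a (b (a (a (l 1077377551) (l 1077363727)) (a (l 1077349903) (l 1077335567))) (a (b (l 1077374479) (l 1076838927)) (a (l 1078156303) (l 1077873167)))) (a (a (b (l 1077321231) (l 1077858319)) (b (l 16781232) (l 1077306383))) (b (l 16781456) (a (l 1077291535) (l 1077276175))))) (a (b (b (a (a (l 1077385743) (l 1077370383)) (l 1077884431)) (a (a (l 1077387279) (l 1077371919)) (l 1076811791))) (b (a (a (l 1077388303) (l 1077372431)) (a (l 1077357071) (l 1077341199))) (a (a (l 1077388303) (l 1077372943)) (a (l 1077357071) (l 1077341711))))) (a (b (b (l 1077317135) (l 1077854735)) (b (l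 1077854735) (l 1076781071))) (b (a (l 1078365711) (l 1077813263)) (b (l 1077286415) (l 1077823503)))))) (b (a (b (c (l 16781912) (l 16781856)) (b (l 16781336) (l 16780968))) (b (l 16782424) (c (l 16781728) (l 16781664)))) (a (a (a (b (l 1077797391) (l 1078333455)) (b (l 1077244943) (l 1077781007))) (a (b (l 1077229583) (l 1077765135)) (b (l 1077213711) (l 14)))) (b (b (l 16781144) (l 14)) (l 14))))), by decide +kernel⟩

def k38_A00pm_213_s3 : ∃ t, chk3 f_A00pm_213_s3 t 58 253 1 = true :=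
  ⟨(a (b (a (c (b (a (a (l 1077403663) (l 1077388815)) (c (l 1076838927) (l 1076282383))) (a (a (l 4) (l 1076856847)) (a (l 1076841999) (l 1076826639)))) (c (b (a (a (l 1076842511) (l 1076826639)) (a (l 1076810767) (l 1076794383))) (a (b (l 1076841487) (l 4)) (b (l 1077346319) (l 1076812815)))) (a (b (b (a (l 1077369359) (l 1077352463)) (a (l 1077370895) (l 1077353999))) (b (a (l 4) (l 1077356559)) (l 4))) (b (b (l 1076790287) (a (l 1077337615) (l 1077320719))) (b (a (l 1077340175) (l 1077323279)) (a (l 4) (l 1077326863))))))) (c (b (a (l 1076261903) (l 1076232207)) (b (a (l 1077342735) (l 1077313039)) (l 1077599759))) (c (b (a (a (l 1076778511) (l 1077299215)) (b (l 1077277711) (l 1077279247))) (a (a (l 1076783119) (l 1076766735)) (a (l 1076750863) (l 14)))) (a (b (b (l 1076757007) (l 1076758543)) (b (l 1076492303) (a (l 1077309967) (l 1077293071)))) (b (b (l 1076723215) (l 1076724751)) (b (l 1076727311) (l 14))))))) (a (l 4) (a (a (l 4)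 (l 14)) (l 14)))) (b (b (a (a (b (l 1077792783) (l 14)) (l 14)) (l 14)) (l 14)) (l 14))), by decide +kernel⟩

def k39_A00pm_213_s3 : ∃ t, chk3 f_A00pm_213_s3 t 59 126 1 = true :=
  ⟨(b (b (b (a (l 16780520) (a (l 16783776) (a (l 16784064) (b (l 16779248) (l 14))))) (l 14)) (l 14)) (l 14)), by decide +kernel⟩

def k40_A00pm_213_s3 : ∃ t, chk3 f_A00pm_213_s3 t 15 126 1 = true :=
  ⟨(b (b (b (a (a (a (c (l 16780192) (l 16779824)) (l 16786608)) (a (l 16787848) (l 16788864))) (c (a (a (l 16790320) (l 16790280)) (a (l 16790336) (a (l 16790408) (l 16779968)))) (a (a (l 16788368) (l 16787728)) (a (a (l 16787352) (l 16787112)) (a (l 16786872) (l 16786648)))))) (l 14)) (l 14)) (l 14)), by decide +kernel⟩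

def k41_A00pm_213_s3 : ∃ t, chk3 f_A00pm_213_s3 t 7 127 1 = true :=
  ⟨(a (a (l 4) (a (a (l 4) (l 14)) (l 14))) (l 14)), by decide +kernel⟩

theorem t42_A00pm_213_s3 : ∃ t, chk3 f_A00pm_213_s3 t 58 126 1 = true := ex3_b k37_A00pm_213_s3 k38_A00pm_213_s3

theorem t43_A00pm_213_s3 : ∃ t, chk3 f_A00pm_213_s3 t 29 126 1 = true := ex3_a t42_A00pm_213_s3 k39_A00pm_213_s3

theorem t44_A00pm_213_s3 : ∃ t, chk3 f_A00pm_213_s3 t 57 252 1 = true := ex3_a k34_A00pm_213_s3 k35_A00pm_213_s3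

theorem t45_A00pm_213_s3 : ∃ t, chk3 f_A00pm_213_s3 t 28 252 1 = true := ex3_a k33_A00pm_213_s3 t44_A00pm_213_s3

theorem t46_A00pm_213_s3 : ∃ t, chk3 f_A00pm_213_s3 t 28 126 1 = true := ex3_b t45_A00pm_213_s3 k36_A00pm_213_s3

theorem t47_A00pm_213_s3 : ∃ t, chk3 f_A00pm_213_s3 t 14 126 1 = true := ex3_a t46_A00pm_213_s3 t43_A00pm_213_s3

theorem t48_A00pm_213_s3 : ∃ t, chk3 f_A00pm_213_s3 t 7 126 1 = true := ex3_a t47_A00pm_213_s3 k40_A00pm_213_s3

theorem t49_A00pm_213_s3 : ∃ t, chk3 f_A00pm_213_s3 t 7 63 1 = true := ex3_b t48_A00pm_213_s3 k41_A00pm_213_s3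

theorem t50_A00pm_213_s3 : ∃ t, chk3 f_A00pm_213_s3 t 14 125 1 = true := ex3_a k30_A00pm_213_s3 k31_A00pm_213_s3

theorem t51_A00pm_213_s3 : ∃ t, chk3 f_A00pm_213_s3 t 14 62 1 = true := ex3_b k29_A00pm_213_s3 t50_A00pm_213_s3

theorem t52_A00pm_213_s3 : ∃ t, chk3 f_A00pm_213_s3 t 7 62 1 = true := ex3_a t51_A00pm_213_s3 k32_A00pm_213_s3

theorem t53_A00pm_213_s3 : ∃ t, chk3 f_A00pm_213_s3 t 7 31 1 = true := ex3_b t52_A00pm_213_s3 t49_A00pm_213_s3

theorem t54_A00pm_213_s3 : ∃ t, chk3 f_A00pm_213_s3 t 7 15 1 = true := ex3_b k28_A00pm_213_s3 t53_A00pm_213_s3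

theorem t55_A00pm_213_s3 : ∃ t, chk3 f_A00pm_213_s3 t 7 14 1 = true := ex3_a k26_A00pm_213_s3 k27_A00pm_213_s3

theorem t56_A00pm_213_s3 : ∃ t, chk3 f_A00pm_213_s3 t 7 7 1 = true := ex3_b t55_A00pm_213_s3 t54_A00pm_213_s3

theorem t57_A00pm_213_s3 : ∃ t, chk3 f_A00pm_213_s3 t 7 3 1 = true := ex3_b k25_A00pm_213_s3 t56_A00pm_213_s3

theorem t58_A00pm_213_s3 : ∃ t, chk3 f_A00pm_213_s3 t 12 60 1 = true := ex3_a k20_A00pm_213_s3 k21_A00pm_213_s3

theorem t59_A00pm_213_s3 : ∃ t, chk3 f_A00pm_213_s3 t 12 30 1 = true := ex3_b t58_A00pm_213_s3 k22_A00pm_213_s3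

theorem t60_A00pm_213_s3 : ∃ t, chk3 f_A00pm_213_s3 t 6 30 1 = true := ex3_a t59_A00pm_213_s3 k23_A00pm_213_s3

theorem t61_A00pm_213_s3 : ∃ t, chk3 f_A00pm_213_s3 t 6 15 1 = true := ex3_b t60_A00pm_213_s3 k24_A00pm_213_s3

theorem t62_A00pm_213_s3 : ∃ t, chk3 f_A00pm_213_s3 t 12 29 1 = true := ex3_a k17_A00pm_213_s3 k18_A00pm_213_s3

theorem t63_A00pm_213_s3 : ∃ t, chk3 f_A00pm_213_s3 t 6 29 1 = true := ex3_a t62_A00pm_213_s3 k19_A00pm_213_s3

theorem t64_A00pm_213_s3 : ∃ t, chk3 f_A00pm_213_s3 t 6 14 1 = true := ex3_b k16_A00pm_213_s3 t63_A00pm_213_s3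

theorem t65_A00pm_213_s3 : ∃ t, chk3 f_A00pm_213_s3 t 6 7 1 = true := ex3_b t64_A00pm_213_s3 t61_A00pm_213_s3

theorem t66_A00pm_213_s3 : ∃ t, chk3 f_A00pm_213_s3 t 6 6 1 = true := ex3_b k14_A00pm_213_s3 k15_A00pm_213_s3

theorem t67_A00pm_213_s3 : ∃ t, chk3 f_A00pm_213_s3 t 6 3 1 = true := ex3_b t66_A00pm_213_s3 t65_A00pm_213_s3

theorem t68_A00pm_213_s3 : ∃ t, chk3 f_A00pm_213_s3 t 3 3 1 = true := ex3_a t67_A00pm_213_s3 t57_A00pm_213_s3

theorem t69_A00pm_213_s3 : ∃ t, chk3 f_A00pm_213_s3 t 3 1 1 = true := ex3_b k13_A00pm_213_s3 t68_A00pm_213_s3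

theorem t70_A00pm_213_s3 : ∃ t, chk3 f_A00pm_213_s3 t 11 28 1 = true := ex3_a k9_A00pm_213_s3 k10_A00pm_213_s3

theorem t71_A00pm_213_s3 : ∃ t, chk3 f_A00pm_213_s3 t 11 14 1 = true := ex3_b t70_A00pm_213_s3 k11_A00pm_213_s3

theorem t72_A00pm_213_s3 : ∃ t, chk3 f_A00pm_213_s3 t 11 7 1 = true := ex3_b t71_A00pm_213_s3 k12_A00pm_213_s3

theorem t73_A00pm_213_s3 : ∃ t, chk3 f_A00pm_213_s3 t 5 7 1 = true := ex3_a k8_A00pm_213_s3 t72_A00pm_213_s3

theorem t74_A00pm_213_s3 : ∃ t, chk3 f_A00pm_213_s3 t 2 7 1 = true := ex3_a k7_A00pm_213_s3 t73_A00pm_213_s3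

theorem t75_A00pm_213_s3 : ∃ t, chk3 f_A00pm_213_s3 t 10 27 1 = true := ex3_a k4_A00pm_213_s3 k5_A00pm_213_s3

theorem t76_A00pm_213_s3 : ∃ t, chk3 f_A00pm_213_s3 t 10 13 1 = true := ex3_b k3_A00pm_213_s3 t75_A00pm_213_s3

theorem t77_A00pm_213_s3 : ∃ t, chk3 f_A00pm_213_s3 t 10 6 1 = true := ex3_b k2_A00pm_213_s3 t76_A00pm_213_s3

theorem t78_A00pm_213_s3 : ∃ t, chk3 f_A00pm_213_s3 t 5 6 1 = true := ex3_a t77_A00pm_213_s3 k6_A00pm_213_s3

theorem t79_A00pm_213_s3 : ∃ t, chk3 f_A00pm_213_s3 t 2 6 1 = true := ex3_a k1_A00pm_213_s3 t78_A00pm_213_s3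

theorem t80_A00pm_213_s3 : ∃ t, chk3 f_A00pm_213_s3 t 2 3 1 = true := ex3_b t79_A00pm_213_s3 t74_A00pm_213_s3

theorem t81_A00pm_213_s3 : ∃ t, chk3 f_A00pm_213_s3 t 2 1 1 = true := ex3_b k0_A00pm_213_s3 t80_A00pm_213_s3

theorem t82_A00pm_213_s3 : ∃ t, chk3 f_A00pm_213_s3 t 1 1 1 = true := ex3_a t81_A00pm_213_s3 t69_A00pm_213_s3

theorem c_A00pm_213_s3 : CertF 0 536870912 536870912 536870912 697932185 42949674 true true false .pnn 2 1 3
    ndB0q2 ndB0q1 pcB3 cut_A00pm_213_s3 xt_A00pm_213_s3 :=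
  certF1 (fam := true) (s1 := true) (s2 := false) (a := 2) (b := 1) (c := 3) (cn := .pnn) (n1 := ndB0q2) (n2 := ndB0q1) (pc := pcB3) (cut := cut_A00pm_213_s3) (xt := xt_A00pm_213_s3) (P1 := 0) (W1 := 536870912) (P2 := 536870912) (W2 := 536870912) (P3 := 697932185) (W3 := 42949674)
    rfl (fun _ => rfl) t82_A00pm_213_s3

theorem s_A00pm_213_s3 {κ x : ℝ} (hκ : κ * h0 = ken x) (hx : ((697932185 : ℕ) : ℝ) / S ≤ x)
    (hx' : x ≤ (((697932185 : ℕ) : ℝ) + (42949674 : ℕ)) / S)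
    (H : CutA (VFD κ) PP tK tL pcB (Cut.of [[⟨0, 1, 0, 67108864⟩, ⟨1, 1, 0, 67108864⟩, ⟨2, 2, 0, 16777216⟩], [⟨0, 1, 0, 33554432⟩, ⟨1, 0, 1, 20971520⟩, ⟨2, 1, 1, 20971520⟩]]) 2 1 3 0 0 (sgb true) (sgb false) x) :
    AltA (VFD κ) PP tK tL pcB [⟨4, 0, 0, 2845415833⟩] 2 1 3 0 0 (sgb true) (sgb false) x :=
  strip_altAD (m := 2845415833) false rfl hκ (SH.κ0 hκ (SH.hx1 hx).le (SH.hx2 hx').le) (SH.hx1 hx).le (SH.hx2 hx') (covB02).cov (covB01).cov hx hx' c_A00pm_213_s3 H ((okx6 hx hx').extA (T := tt) (okx hx hx') (sideB hx hx') hκ rfl rfl (.O 2 true) (.O 1 false) (Or.inr rfl))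

noncomputable def cut_A00mm_001_s1 : Cut := Cut.of [[⟨4, 0, 0, 1449551462⟩]]

noncomputable def f_A00mm_001_s1 : ℕ → ℕ → ℕ → ℕ → Bool := onCell 0 536870912 0 536870912 697932185 42949674
    (rowF 0 true false false .up 0 0 1 (qsf 0 536870912 0 536870912 1) ndB0q0 ndB0q0 pcB1 cut_A00mm_001_s1 Ext.none)

def k0_A00mm_001_s1 : ∃ t, chk3 f_A00mm_001_s1 t 1 1 1 = true :=
  ⟨(l 4), by decide +kernel⟩

theorem c_A00mm_001_s1 : CertF 0 536870912 0 536870912 697932185 42949674 true false false .up 0 0 1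
    ndB0q0 ndB0q0 pcB1 cut_A00mm_001_s1 Ext.none :=
  certF0 (fam := true) (s1 := false) (s2 := false) (a := 0) (b := 0) (c := 1) (cn := .up) (n1 := ndB0q0) (n2 := ndB0q0) (pc := pcB1) (cut := cut_A00mm_001_s1) (xt := Ext.none) (P1 := 0) (W1 := 536870912) (P2 := 0) (W2 := 536870912) (P3 := 697932185) (W3 := 42949674)
    rfl k0_A00mm_001_s1

theorem s_A00mm_001_s1 {κ x : ℝ} (hκ : κ * h0 = ken x) (hx : ((697932185 : ℕ) : ℝ) / S ≤ x)
    (hx' : x ≤ (((697932185 : ℕ) : ℝ) + (42949674 : ℕ)) / S) :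
    AltA (VFD κ) PP tK tL pcB [⟨3, 0, 0, 1449551462⟩] 0 0 1 0 0 (sgb false) (sgb false) x :=
  strip_altAD (m := 1449551462) true rfl hκ (SH.κ0 hκ (SH.hx1 hx).le (SH.hx2 hx').le) (SH.hx1 hx).le (SH.hx2 hx') (covB00).cov (covB00).cov hx hx' c_A00mm_001_s1 cutA_nil (noExt_A)

noncomputable def cut_A00mm_001_s3 : Cut := Cut.of [[⟨3, 0, 0, 2845415833⟩]]

noncomputable def f_A00mm_001_s3 : ℕ → ℕ → ℕ → ℕ → Bool := onCell 0 536870912 0 536870912 697932185 42949674
    (rowF 0 true false false .up 0 0 1 (qsf 0 536870912 0 536870912 1) ndB0q0 ndB0q0 pcB1 cut_A00mm_001_s3 Ext.none)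

def k0_A00mm_001_s3 : ∃ t, chk3 f_A00mm_001_s3 t 1 1 1 = true :=
  ⟨(l 4), by decide +kernel⟩

theorem c_A00mm_001_s3 : CertF 0 536870912 0 536870912 697932185 42949674 true false false .up 0 0 1
    ndB0q0 ndB0q0 pcB1 cut_A00mm_001_s3 Ext.none :=
  certF0 (fam := true) (s1 := false) (s2 := false) (a := 0) (b := 0) (c := 1) (cn := .up) (n1 := ndB0q0) (n2 := ndB0q0) (pc := pcB1) (cut := cut_A00mm_001_s3) (xt := Ext.none) (P1 := 0) (W1 := 536870912) (P2 := 0) (W2 := 536870912) (P3 := 697932185) (W3 := 42949674)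
    rfl k0_A00mm_001_s3

theorem s_A00mm_001_s3 {κ x : ℝ} (hκ : κ * h0 = ken x) (hx : ((697932185 : ℕ) : ℝ) / S ≤ x)
    (hx' : x ≤ (((697932185 : ℕ) : ℝ) + (42949674 : ℕ)) / S) :
    AltA (VFD κ) PP tK tL pcB [⟨4, 0, 0, 2845415833⟩] 0 0 1 0 0 (sgb false) (sgb false) x :=
  strip_altAD (m := 2845415833) false rfl hκ (SH.κ0 hκ (SH.hx1 hx).le (SH.hx2 hx').le) (SH.hx1 hx).le (SH.hx2 hx') (covB00).cov (covB00).cov hx hx' c_A00mm_001_s3 cutA_nil (noExt_A)

noncomputable def cut_A00mm_011_s1 : Cut := Cut.of [[⟨4, 0, 0, 1449551462⟩]]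

noncomputable def f_A00mm_011_s1 : ℕ → ℕ → ℕ → ℕ → Bool := onCell 0 536870912 536870912 536870912 697932185 42949674
    (rowF 0 true false false .pnn 0 1 1 (qsf 0 536870912 536870912 536870912 1) ndB0q0 ndB0q1 pcB1 cut_A00mm_011_s1 Ext.none)

def k0_A00mm_011_s1 : ∃ t, chk3 f_A00mm_011_s1 t 1 1 1 = true :=
  ⟨(l 6), by decide +kernel⟩

theorem c_A00mm_011_s1 : CertF 0 536870912 536870912 536870912 697932185 42949674 true false false .pnn 0 1 1
    ndB0q0 ndB0q1 pcB1 cut_A00mm_011_s1 Ext.none :=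
  certF0 (fam := true) (s1 := false) (s2 := false) (a := 0) (b := 1) (c := 1) (cn := .pnn) (n1 := ndB0q0) (n2 := ndB0q1) (pc := pcB1) (cut := cut_A00mm_011_s1) (xt := Ext.none) (P1 := 0) (W1 := 536870912) (P2 := 536870912) (W2 := 536870912) (P3 := 697932185) (W3 := 42949674)
    rfl k0_A00mm_011_s1

theorem s_A00mm_011_s1 {κ x : ℝ} (hκ : κ * h0 = ken x) (hx : ((697932185 : ℕ) : ℝ) / S ≤ x)
    (hx' : x ≤ (((697932185 : ℕ) : ℝ) + (42949674 : ℕ)) / S) :
    AltA (VFD κ) PP tK tL pcB [⟨3, 0, 0, 1449551462⟩] 0 1 1 0 0 (sgb false) (sgb false) x :=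
  strip_altAD (m := 1449551462) true rfl hκ (SH.κ0 hκ (SH.hx1 hx).le (SH.hx2 hx').le) (SH.hx1 hx).le (SH.hx2 hx') (covB00).cov (covB01).cov hx hx' c_A00mm_011_s1 cutA_nil (noExt_A)

noncomputable def cut_A00mm_011_s3 : Cut := Cut.of [[⟨3, 0, 0, 2845415833⟩]]

noncomputable def f_A00mm_011_s3 : ℕ → ℕ → ℕ → ℕ → Bool := onCell 0 536870912 536870912 536870912 697932185 42949674
    (rowF 0 true false false .pnn 0 1 1 (qsf 0 536870912 536870912 536870912 1) ndB0q0 ndB0q1 pcB1 cut_A00mm_011_s3 Ext.none)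

def k0_A00mm_011_s3 : ∃ t, chk3 f_A00mm_011_s3 t 1 1 1 = true :=
  ⟨(b (l 4) (l 5)), by decide +kernel⟩

theorem c_A00mm_011_s3 : CertF 0 536870912 536870912 536870912 697932185 42949674 true false false .pnn 0 1 1
    ndB0q0 ndB0q1 pcB1 cut_A00mm_011_s3 Ext.none :=
  certF0 (fam := true) (s1 := false) (s2 := false) (a := 0) (b := 1) (c := 1) (cn := .pnn) (n1 := ndB0q0) (n2 := ndB0q1) (pc := pcB1) (cut := cut_A00mm_011_s3) (xt := Ext.none) (P1 := 0) (W1 := 536870912) (P2 := 536870912) (W2 := 536870912) (P3 := 697932185) (W3 := 42949674)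
    rfl k0_A00mm_011_s3

theorem s_A00mm_011_s3 {κ x : ℝ} (hκ : κ * h0 = ken x) (hx : ((697932185 : ℕ) : ℝ) / S ≤ x)
    (hx' : x ≤ (((697932185 : ℕ) : ℝ) + (42949674 : ℕ)) / S) :
    AltA (VFD κ) PP tK tL pcB [⟨4, 0, 0, 2845415833⟩] 0 1 1 0 0 (sgb false) (sgb false) x :=
  strip_altAD (m := 2845415833) false rfl hκ (SH.κ0 hκ (SH.hx1 hx).le (SH.hx2 hx').le) (SH.hx1 hx).le (SH.hx2 hx') (covB00).cov (covB01).cov hx hx' c_A00mm_011_s3 cutA_nil (noExt_A)

noncomputable def cut_A00mm_012_s1 : Cut := Cut.of [[⟨4, 0, 0, 1449551462⟩]]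

noncomputable def f_A00mm_012_s1 : ℕ → ℕ → ℕ → ℕ → Bool := onCell 0 536870912 536870912 536870912 697932185 42949674
    (rowF 0 true false false .pnp 0 1 2 (qsf 0 536870912 536870912 536870912 2) ndB0q0 ndB0q1 pcB2 cut_A00mm_012_s1 Ext.none)

def k0_A00mm_012_s1 : ∃ t, chk3 f_A00mm_012_s1 t 1 1 1 = true :=
  ⟨(l 6), by decide +kernel⟩

theorem c_A00mm_012_s1 : CertF 0 536870912 536870912 536870912 697932185 42949674 true false false .pnp 0 1 2
    ndB0q0 ndB0q1 pcB2 cut_A00mm_012_s1 Ext.none :=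
  certF0 (fam := true) (s1 := false) (s2 := false) (a := 0) (b := 1) (c := 2) (cn := .pnp) (n1 := ndB0q0) (n2 := ndB0q1) (pc := pcB2) (cut := cut_A00mm_012_s1) (xt := Ext.none) (P1 := 0) (W1 := 536870912) (P2 := 536870912) (W2 := 536870912) (P3 := 697932185) (W3 := 42949674)
    rfl k0_A00mm_012_s1

theorem s_A00mm_012_s1 {κ x : ℝ} (hκ : κ * h0 = ken x) (hx : ((697932185 : ℕ) : ℝ) / S ≤ x)
    (hx' : x ≤ (((697932185 : ℕ) : ℝ) + (42949674 : ℕ)) / S) :
    AltA (VFD κ) PP tK tL pcB [⟨3, 0, 0, 1449551462⟩] 0 1 2 0 0 (sgb false) (sgb false) x :=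
  strip_altAD (m := 1449551462) true rfl hκ (SH.κ0 hκ (SH.hx1 hx).le (SH.hx2 hx').le) (SH.hx1 hx).le (SH.hx2 hx') (covB00).cov (covB01).cov hx hx' c_A00mm_012_s1 cutA_nil (noExt_A)

noncomputable def cut_A00mm_012_s3 : Cut := Cut.of [[⟨3, 0, 0, 2845415833⟩]]

noncomputable def f_A00mm_012_s3 : ℕ → ℕ → ℕ → ℕ → Bool := onCell 0 536870912 536870912 536870912 697932185 42949674
    (rowF 0 true false false .pnp 0 1 2 (qsf 0 536870912 536870912 536870912 2) ndB0q0 ndB0q1 pcB2 cut_A00mm_012_s3 Ext.none)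

def k0_A00mm_012_s3 : ∃ t, chk3 f_A00mm_012_s3 t 1 1 1 = true :=
  ⟨(b (l 4) (l 5)), by decide +kernel⟩

theorem c_A00mm_012_s3 : CertF 0 536870912 536870912 536870912 697932185 42949674 true false false .pnp 0 1 2
    ndB0q0 ndB0q1 pcB2 cut_A00mm_012_s3 Ext.none :=
  certF0 (fam := true) (s1 := false) (s2 := false) (a := 0) (b := 1) (c := 2) (cn := .pnp) (n1 := ndB0q0) (n2 := ndB0q1) (pc := pcB2) (cut := cut_A00mm_012_s3) (xt := Ext.none) (P1 := 0) (W1 := 536870912) (P2 := 536870912) (W2 := 536870912) (P3 := 697932185) (W3 := 42949674)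
    rfl k0_A00mm_012_s3

theorem s_A00mm_012_s3 {κ x : ℝ} (hκ : κ * h0 = ken x) (hx : ((697932185 : ℕ) : ℝ) / S ≤ x)
    (hx' : x ≤ (((697932185 : ℕ) : ℝ) + (42949674 : ℕ)) / S) :
    AltA (VFD κ) PP tK tL pcB [⟨4, 0, 0, 2845415833⟩] 0 1 2 0 0 (sgb false) (sgb false) x :=
  strip_altAD (m := 2845415833) false rfl hκ (SH.κ0 hκ (SH.hx1 hx).le (SH.hx2 hx').le) (SH.hx1 hx).le (SH.hx2 hx') (covB00).cov (covB01).cov hx hx' c_A00mm_012_s3 cutA_nil (noExt_A)

noncomputable def cut_A00mm_022_s1 : Cut := Cut.of [[⟨4, 0, 0, 1449551462⟩]]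

noncomputable def f_A00mm_022_s1 : ℕ → ℕ → ℕ → ℕ → Bool := onCell 0 536870912 0 536870912 697932185 42949674
    (rowF 0 true false false .pp 0 2 2 (qsf 0 536870912 0 536870912 2) ndB0q0 ndB0q2 pcB2 cut_A00mm_022_s1 Ext.none)

def k0_A00mm_022_s1 : ∃ t, chk3 f_A00mm_022_s1 t 1 1 1 = true :=
  ⟨(l 5), by decide +kernel⟩

theorem c_A00mm_022_s1 : CertF 0 536870912 0 536870912 697932185 42949674 true false false .pp 0 2 2
    ndB0q0 ndB0q2 pcB2 cut_A00mm_022_s1 Ext.none :=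
  certF0 (fam := true) (s1 := false) (s2 := false) (a := 0) (b := 2) (c := 2) (cn := .pp) (n1 := ndB0q0) (n2 := ndB0q2) (pc := pcB2) (cut := cut_A00mm_022_s1) (xt := Ext.none) (P1 := 0) (W1 := 536870912) (P2 := 0) (W2 := 536870912) (P3 := 697932185) (W3 := 42949674)
    rfl k0_A00mm_022_s1

theorem s_A00mm_022_s1 {κ x : ℝ} (hκ : κ * h0 = ken x) (hx : ((697932185 : ℕ) : ℝ) / S ≤ x)
    (hx' : x ≤ (((697932185 : ℕ) : ℝ) + (42949674 : ℕ)) / S) :
    AltA (VFD κ) PP tK tL pcB [⟨3, 0, 0, 1449551462⟩] 0 2 2 0 0 (sgb false) (sgb false) x :=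
  strip_altAD (m := 1449551462) true rfl hκ (SH.κ0 hκ (SH.hx1 hx).le (SH.hx2 hx').le) (SH.hx1 hx).le (SH.hx2 hx') (covB00).cov (covB02).cov hx hx' c_A00mm_022_s1 cutA_nil (noExt_A)

noncomputable def cut_A00mm_022_s3 : Cut := Cut.of [[⟨3, 0, 0, 2845415833⟩]]

noncomputable def f_A00mm_022_s3 : ℕ → ℕ → ℕ → ℕ → Bool := onCell 0 536870912 0 536870912 697932185 42949674
    (rowF 0 true false false .pp 0 2 2 (qsf 0 536870912 0 536870912 2) ndB0q0 ndB0q2 pcB2 cut_A00mm_022_s3 Ext.none)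

def k0_A00mm_022_s3 : ∃ t, chk3 f_A00mm_022_s3 t 1 1 1 = true :=
  ⟨(l 5), by decide +kernel⟩

theorem c_A00mm_022_s3 : CertF 0 536870912 0 536870912 697932185 42949674 true false false .pp 0 2 2
    ndB0q0 ndB0q2 pcB2 cut_A00mm_022_s3 Ext.none :=
  certF0 (fam := true) (s1 := false) (s2 := false) (a := 0) (b := 2) (c := 2) (cn := .pp) (n1 := ndB0q0) (n2 := ndB0q2) (pc := pcB2) (cut := cut_A00mm_022_s3) (xt := Ext.none) (P1 := 0) (W1 := 536870912) (P2 := 0) (W2 := 536870912) (P3 := 697932185) (W3 := 42949674)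
    rfl k0_A00mm_022_s3

theorem s_A00mm_022_s3 {κ x : ℝ} (hκ : κ * h0 = ken x) (hx : ((697932185 : ℕ) : ℝ) / S ≤ x)
    (hx' : x ≤ (((697932185 : ℕ) : ℝ) + (42949674 : ℕ)) / S) :
    AltA (VFD κ) PP tK tL pcB [⟨4, 0, 0, 2845415833⟩] 0 2 2 0 0 (sgb false) (sgb false) x :=
  strip_altAD (m := 2845415833) false rfl hκ (SH.κ0 hκ (SH.hx1 hx).le (SH.hx2 hx').le) (SH.hx1 hx).le (SH.hx2 hx') (covB00).cov (covB02).cov hx hx' c_A00mm_022_s3 cutA_nil (noExt_A)

noncomputable def cut_A00mm_023_s1 : Cut := Cut.of [[⟨4, 0, 0, 1449551462⟩]]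

noncomputable def f_A00mm_023_s1 : ℕ → ℕ → ℕ → ℕ → Bool := onCell 0 536870912 0 536870912 697932185 42949674
    (rowF 0 true false false .up 0 2 3 (qsf 0 536870912 0 536870912 3) ndB0q0 ndB0q2 pcB3 cut_A00mm_023_s1 Ext.none)

def k0_A00mm_023_s1 : ∃ t, chk3 f_A00mm_023_s1 t 1 1 1 = true :=
  ⟨(l 5), by decide +kernel⟩

theorem c_A00mm_023_s1 : CertF 0 536870912 0 536870912 697932185 42949674 true false false .up 0 2 3
    ndB0q0 ndB0q2 pcB3 cut_A00mm_023_s1 Ext.none :=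
  certF0 (fam := true) (s1 := false) (s2 := false) (a := 0) (b := 2) (c := 3) (cn := .up) (n1 := ndB0q0) (n2 := ndB0q2) (pc := pcB3) (cut := cut_A00mm_023_s1) (xt := Ext.none) (P1 := 0) (W1 := 536870912) (P2 := 0) (W2 := 536870912) (P3 := 697932185) (W3 := 42949674)
    rfl k0_A00mm_023_s1

theorem s_A00mm_023_s1 {κ x : ℝ} (hκ : κ * h0 = ken x) (hx : ((697932185 : ℕ) : ℝ) / S ≤ x)
    (hx' : x ≤ (((697932185 : ℕ) : ℝ) + (42949674 : ℕ)) / S) :
    AltA (VFD κ) PP tK tL pcB [⟨3, 0, 0, 1449551462⟩] 0 2 3 0 0 (sgb false) (sgb false) x :=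
  strip_altAD (m := 1449551462) true rfl hκ (SH.κ0 hκ (SH.hx1 hx).le (SH.hx2 hx').le) (SH.hx1 hx).le (SH.hx2 hx') (covB00).cov (covB02).cov hx hx' c_A00mm_023_s1 cutA_nil (noExt_A)

noncomputable def cut_A00mm_023_s3 : Cut := Cut.of [[⟨3, 0, 0, 2845415833⟩]]

noncomputable def f_A00mm_023_s3 : ℕ → ℕ → ℕ → ℕ → Bool := onCell 0 536870912 0 536870912 697932185 42949674
    (rowF 0 true false false .up 0 2 3 (qsf 0 536870912 0 536870912 3) ndB0q0 ndB0q2 pcB3 cut_A00mm_023_s3 Ext.none)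

def k0_A00mm_023_s3 : ∃ t, chk3 f_A00mm_023_s3 t 1 1 1 = true :=
  ⟨(l 5), by decide +kernel⟩

theorem c_A00mm_023_s3 : CertF 0 536870912 0 536870912 697932185 42949674 true false false .up 0 2 3
    ndB0q0 ndB0q2 pcB3 cut_A00mm_023_s3 Ext.none :=
  certF0 (fam := true) (s1 := false) (s2 := false) (a := 0) (b := 2) (c := 3) (cn := .up) (n1 := ndB0q0) (n2 := ndB0q2) (pc := pcB3) (cut := cut_A00mm_023_s3) (xt := Ext.none) (P1 := 0) (W1 := 536870912) (P2 := 0) (W2 := 536870912) (P3 := 697932185) (W3 := 42949674)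
    rfl k0_A00mm_023_s3

theorem s_A00mm_023_s3 {κ x : ℝ} (hκ : κ * h0 = ken x) (hx : ((697932185 : ℕ) : ℝ) / S ≤ x)
    (hx' : x ≤ (((697932185 : ℕ) : ℝ) + (42949674 : ℕ)) / S) :
    AltA (VFD κ) PP tK tL pcB [⟨4, 0, 0, 2845415833⟩] 0 2 3 0 0 (sgb false) (sgb false) x :=
  strip_altAD (m := 2845415833) false rfl hκ (SH.κ0 hκ (SH.hx1 hx).le (SH.hx2 hx').le) (SH.hx1 hx).le (SH.hx2 hx') (covB00).cov (covB02).cov hx hx' c_A00mm_023_s3 cutA_nil (noExt_A)

noncomputable def cut_A00mm_101_s1 : Cut := Cut.of [[⟨4, 0, 0, 1449551462⟩], [⟨0, 1, 0, 67108864⟩, ⟨1, 0, 0, 67108864⟩, ⟨2, 1, 0, 67108864⟩]]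

noncomputable def f_A00mm_101_s1 : ℕ → ℕ → ℕ → ℕ → Bool := onCell 536870912 536870912 0 536870912 697932185 42949674
    (rowF 0 true false false .npn 1 0 1 (qsf 536870912 536870912 0 536870912 1) ndB0q1 ndB0q0 pcB1 cut_A00mm_101_s1 Ext.none)

def k0_A00mm_101_s1 : ∃ t, chk3 f_A00mm_101_s1 t 1 1 1 = true :=
  ⟨(l 6), by decide +kernel⟩

theorem c_A00mm_101_s1 : CertF 536870912 536870912 0 536870912 697932185 42949674 true false false .npn 1 0 1
    ndB0q1 ndB0q0 pcB1 cut_A00mm_101_s1 Ext.none :=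
  certF0 (fam := true) (s1 := false) (s2 := false) (a := 1) (b := 0) (c := 1) (cn := .npn) (n1 := ndB0q1) (n2 := ndB0q0) (pc := pcB1) (cut := cut_A00mm_101_s1) (xt := Ext.none) (P1 := 536870912) (W1 := 536870912) (P2 := 0) (W2 := 536870912) (P3 := 697932185) (W3 := 42949674)
    rfl k0_A00mm_101_s1

theorem s_A00mm_101_s1 {κ x : ℝ} (hκ : κ * h0 = ken x) (hx : ((697932185 : ℕ) : ℝ) / S ≤ x)
    (hx' : x ≤ (((697932185 : ℕ) : ℝ) + (42949674 : ℕ)) / S)
    (H : CutA (VFD κ) PP tK tL pcB (Cut.of [[⟨0, 1, 0, 67108864⟩, ⟨1, 0, 0, 67108864⟩, ⟨2, 1, 0, 67108864⟩]]) 1 0 1 0 0 (sgb false) (sgb false) x) :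
    AltA (VFD κ) PP tK tL pcB [⟨3, 0, 0, 1449551462⟩] 1 0 1 0 0 (sgb false) (sgb false) x :=
  strip_altAD (m := 1449551462) true rfl hκ (SH.κ0 hκ (SH.hx1 hx).le (SH.hx2 hx').le) (SH.hx1 hx).le (SH.hx2 hx') (covB01).cov (covB00).cov hx hx' c_A00mm_101_s1 H (noExt_A)

noncomputable def cut_A00mm_101_s3 : Cut := Cut.of [[⟨3, 0, 0, 2845415833⟩], [⟨0, 1, 0, 67108864⟩, ⟨1, 0, 0, 67108864⟩, ⟨2, 1, 0, 67108864⟩]]

noncomputable def f_A00mm_101_s3 : ℕ → ℕ → ℕ → ℕ → Bool := onCell 536870912 536870912 0 536870912 697932185 42949674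
    (rowF 0 true false false .npn 1 0 1 (qsf 536870912 536870912 0 536870912 1) ndB0q1 ndB0q0 pcB1 cut_A00mm_101_s3 Ext.none)

def k0_A00mm_101_s3 : ∃ t, chk3 f_A00mm_101_s3 t 1 1 1 = true :=
  ⟨(a (l 4) (b (a (l 4) (b (a (l 4) (b (a (l 4) (b (l 14) (l 4))) (l 4))) (l 4))) (l 4))), by decide +kernel⟩

theorem c_A00mm_101_s3 : CertF 536870912 536870912 0 536870912 697932185 42949674 true false false .npn 1 0 1
    ndB0q1 ndB0q0 pcB1 cut_A00mm_101_s3 Ext.none :=
  certF0 (fam := true) (s1 := false) (s2 := false) (a := 1) (b := 0) (c := 1) (cn := .npn) (n1 := ndB0q1) (n2 := ndB0q0) (pc := pcB1) (cut := cut_A00mm_101_s3) (xt := Ext.none) (P1 := 536870912) (W1 := 536870912) (P2 := 0) (W2 := 536870912) (P3 := 697932185) (W3 := 42949674)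
    rfl k0_A00mm_101_s3

theorem s_A00mm_101_s3 {κ x : ℝ} (hκ : κ * h0 = ken x) (hx : ((697932185 : ℕ) : ℝ) / S ≤ x)
    (hx' : x ≤ (((697932185 : ℕ) : ℝ) + (42949674 : ℕ)) / S)
    (H : CutA (VFD κ) PP tK tL pcB (Cut.of [[⟨0, 1, 0, 67108864⟩, ⟨1, 0, 0, 67108864⟩, ⟨2, 1, 0, 67108864⟩]]) 1 0 1 0 0 (sgb false) (sgb false) x) :
    AltA (VFD κ) PP tK tL pcB [⟨4, 0, 0, 2845415833⟩] 1 0 1 0 0 (sgb false) (sgb false) x :=
  strip_altAD (m := 2845415833) false rfl hκ (SH.κ0 hκ (SH.hx1 hx).le (SH.hx2 hx').le) (SH.hx1 hx).le (SH.hx2 hx') (covB01).cov (covB00).cov hx hx' c_A00mm_101_s3 H (noExt_A)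

noncomputable def cut_A00mm_102_s1 : Cut := Cut.of [[⟨4, 0, 0, 1449551462⟩], [⟨0, 1, 0, 67108864⟩, ⟨1, 0, 0, 67108864⟩, ⟨2, 1, 0, 67108864⟩]]

noncomputable def f_A00mm_102_s1 : ℕ → ℕ → ℕ → ℕ → Bool := onCell 536870912 536870912 0 536870912 697932185 42949674
    (rowF 0 true false false .npp 1 0 2 (qsf 536870912 536870912 0 536870912 2) ndB0q1 ndB0q0 pcB2 cut_A00mm_102_s1 Ext.none)

def k0_A00mm_102_s1 : ∃ t, chk3 f_A00mm_102_s1 t 1 1 1 = true :=
  ⟨(l 6), by decide +kernel⟩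

theorem c_A00mm_102_s1 : CertF 536870912 536870912 0 536870912 697932185 42949674 true false false .npp 1 0 2
    ndB0q1 ndB0q0 pcB2 cut_A00mm_102_s1 Ext.none :=
  certF0 (fam := true) (s1 := false) (s2 := false) (a := 1) (b := 0) (c := 2) (cn := .npp) (n1 := ndB0q1) (n2 := ndB0q0) (pc := pcB2) (cut := cut_A00mm_102_s1) (xt := Ext.none) (P1 := 536870912) (W1 := 536870912) (P2 := 0) (W2 := 536870912) (P3 := 697932185) (W3 := 42949674)
    rfl k0_A00mm_102_s1

theorem s_A00mm_102_s1 {κ x : ℝ} (hκ : κ * h0 = ken x) (hx : ((697932185 : ℕ) : ℝ) / S ≤ x)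
    (hx' : x ≤ (((697932185 : ℕ) : ℝ) + (42949674 : ℕ)) / S)
    (H : CutA (VFD κ) PP tK tL pcB (Cut.of [[⟨0, 1, 0, 67108864⟩, ⟨1, 0, 0, 67108864⟩, ⟨2, 1, 0, 67108864⟩]]) 1 0 2 0 0 (sgb false) (sgb false) x) :
    AltA (VFD κ) PP tK tL pcB [⟨3, 0, 0, 1449551462⟩] 1 0 2 0 0 (sgb false) (sgb false) x :=
  strip_altAD (m := 1449551462) true rfl hκ (SH.κ0 hκ (SH.hx1 hx).le (SH.hx2 hx').le) (SH.hx1 hx).le (SH.hx2 hx') (covB01).cov (covB00).cov hx hx' c_A00mm_102_s1 H (noExt_A)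

noncomputable def cut_A00mm_102_s3 : Cut := Cut.of [[⟨3, 0, 0, 2845415833⟩], [⟨0, 1, 0, 67108864⟩, ⟨1, 0, 0, 67108864⟩, ⟨2, 1, 0, 67108864⟩]]

noncomputable def f_A00mm_102_s3 : ℕ → ℕ → ℕ → ℕ → Bool := onCell 536870912 536870912 0 536870912 697932185 42949674
    (rowF 0 true false false .npp 1 0 2 (qsf 536870912 536870912 0 536870912 2) ndB0q1 ndB0q0 pcB2 cut_A00mm_102_s3 Ext.none)

def k0_A00mm_102_s3 : ∃ t, chk3 f_A00mm_102_s3 t 1 1 1 = true :=
  ⟨(a (l 4) (b (a (l 4) (a (l 4) (a (l 4) (b (b (b (l 14) (l 4)) (l 4)) (l 4))))) (l 4))), by decide +kernel⟩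

theorem c_A00mm_102_s3 : CertF 536870912 536870912 0 536870912 697932185 42949674 true false false .npp 1 0 2
    ndB0q1 ndB0q0 pcB2 cut_A00mm_102_s3 Ext.none :=
  certF0 (fam := true) (s1 := false) (s2 := false) (a := 1) (b := 0) (c := 2) (cn := .npp) (n1 := ndB0q1) (n2 := ndB0q0) (pc := pcB2) (cut := cut_A00mm_102_s3) (xt := Ext.none) (P1 := 536870912) (W1 := 536870912) (P2 := 0) (W2 := 536870912) (P3 := 697932185) (W3 := 42949674)
    rfl k0_A00mm_102_s3

theorem s_A00mm_102_s3 {κ x : ℝ} (hκ : κ * h0 = ken x) (hx : ((697932185 : ℕ) : ℝ) / S ≤ x)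
    (hx' : x ≤ (((697932185 : ℕ) : ℝ) + (42949674 : ℕ)) / S)
    (H : CutA (VFD κ) PP tK tL pcB (Cut.of [[⟨0, 1, 0, 67108864⟩, ⟨1, 0, 0, 67108864⟩, ⟨2, 1, 0, 67108864⟩]]) 1 0 2 0 0 (sgb false) (sgb false) x) :
    AltA (VFD κ) PP tK tL pcB [⟨4, 0, 0, 2845415833⟩] 1 0 2 0 0 (sgb false) (sgb false) x :=
  strip_altAD (m := 2845415833) false rfl hκ (SH.κ0 hκ (SH.hx1 hx).le (SH.hx2 hx').le) (SH.hx1 hx).le (SH.hx2 hx') (covB01).cov (covB00).cov hx hx' c_A00mm_102_s3 H (noExt_A)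

noncomputable def cut_A00mm_112_s1 : Cut := Cut.of [[⟨4, 0, 0, 1449551462⟩]]

noncomputable def f_A00mm_112_s1 : ℕ → ℕ → ℕ → ℕ → Bool := onCell 536870912 536870912 536870912 536870912 697932185 42949674
    (rowF 0 true false false .dn 1 1 2 (qsf 536870912 536870912 536870912 536870912 2) ndB0q1 ndB0q1 pcB2 cut_A00mm_112_s1 Ext.none)

def k0_A00mm_112_s1 : ∃ t, chk3 f_A00mm_112_s1 t 1 1 1 = true :=
  ⟨(l 4), by decide +kernel⟩

theorem c_A00mm_112_s1 : CertF 536870912 536870912 536870912 536870912 697932185 42949674 true false false .dn 1 1 2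
    ndB0q1 ndB0q1 pcB2 cut_A00mm_112_s1 Ext.none :=
  certF0 (fam := true) (s1 := false) (s2 := false) (a := 1) (b := 1) (c := 2) (cn := .dn) (n1 := ndB0q1) (n2 := ndB0q1) (pc := pcB2) (cut := cut_A00mm_112_s1) (xt := Ext.none) (P1 := 536870912) (W1 := 536870912) (P2 := 536870912) (W2 := 536870912) (P3 := 697932185) (W3 := 42949674)
    rfl k0_A00mm_112_s1

theorem s_A00mm_112_s1 {κ x : ℝ} (hκ : κ * h0 = ken x) (hx : ((697932185 : ℕ) : ℝ) / S ≤ x)
    (hx' : x ≤ (((697932185 : ℕ) : ℝ) + (42949674 : ℕ)) / S) :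
    AltA (VFD κ) PP tK tL pcB [⟨3, 0, 0, 1449551462⟩] 1 1 2 0 0 (sgb false) (sgb false) x :=
  strip_altAD (m := 1449551462) true rfl hκ (SH.κ0 hκ (SH.hx1 hx).le (SH.hx2 hx').le) (SH.hx1 hx).le (SH.hx2 hx') (covB01).cov (covB01).cov hx hx' c_A00mm_112_s1 cutA_nil (noExt_A)

noncomputable def cut_A00mm_112_s3 : Cut := Cut.of [[⟨3, 0, 0, 2845415833⟩]]

noncomputable def f_A00mm_112_s3 : ℕ → ℕ → ℕ → ℕ → Bool := onCell 536870912 536870912 536870912 536870912 697932185 42949674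
    (rowF 0 true false false .dn 1 1 2 (qsf 536870912 536870912 536870912 536870912 2) ndB0q1 ndB0q1 pcB2 cut_A00mm_112_s3 Ext.none)

def k0_A00mm_112_s3 : ∃ t, chk3 f_A00mm_112_s3 t 1 1 1 = true :=
  ⟨(l 4), by decide +kernel⟩

theorem c_A00mm_112_s3 : CertF 536870912 536870912 536870912 536870912 697932185 42949674 true false false .dn 1 1 2
    ndB0q1 ndB0q1 pcB2 cut_A00mm_112_s3 Ext.none :=
  certF0 (fam := true) (s1 := false) (s2 := false) (a := 1) (b := 1) (c := 2) (cn := .dn) (n1 := ndB0q1) (n2 := ndB0q1) (pc := pcB2) (cut := cut_A00mm_112_s3) (xt := Ext.none) (P1 := 536870912) (W1 := 536870912) (P2 := 536870912) (W2 := 536870912) (P3 := 697932185) (W3 := 42949674)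
    rfl k0_A00mm_112_s3

theorem s_A00mm_112_s3 {κ x : ℝ} (hκ : κ * h0 = ken x) (hx : ((697932185 : ℕ) : ℝ) / S ≤ x)
    (hx' : x ≤ (((697932185 : ℕ) : ℝ) + (42949674 : ℕ)) / S) :
    AltA (VFD κ) PP tK tL pcB [⟨4, 0, 0, 2845415833⟩] 1 1 2 0 0 (sgb false) (sgb false) x :=
  strip_altAD (m := 2845415833) false rfl hκ (SH.κ0 hκ (SH.hx1 hx).le (SH.hx2 hx').le) (SH.hx1 hx).le (SH.hx2 hx') (covB01).cov (covB01).cov hx hx' c_A00mm_112_s3 cutA_nil (noExt_A)

noncomputable def cut_A00mm_113_s1 : Cut := Cut.of [[⟨4, 0, 0, 1449551462⟩]]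

noncomputable def f_A00mm_113_s1 : ℕ → ℕ → ℕ → ℕ → Bool := onCell 536870912 536870912 536870912 536870912 697932185 42949674
    (rowF 0 true false false .nn 1 1 3 (qsf 536870912 536870912 536870912 536870912 3) ndB0q1 ndB0q1 pcB3 cut_A00mm_113_s1 Ext.none)

def k0_A00mm_113_s1 : ∃ t, chk3 f_A00mm_113_s1 t 1 1 1 = true :=
  ⟨(l 4), by decide +kernel⟩

theorem c_A00mm_113_s1 : CertF 536870912 536870912 536870912 536870912 697932185 42949674 true false false .nn 1 1 3
    ndB0q1 ndB0q1 pcB3 cut_A00mm_113_s1 Ext.none :=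
  certF0 (fam := true) (s1 := false) (s2 := false) (a := 1) (b := 1) (c := 3) (cn := .nn) (n1 := ndB0q1) (n2 := ndB0q1) (pc := pcB3) (cut := cut_A00mm_113_s1) (xt := Ext.none) (P1 := 536870912) (W1 := 536870912) (P2 := 536870912) (W2 := 536870912) (P3 := 697932185) (W3 := 42949674)
    rfl k0_A00mm_113_s1

theorem s_A00mm_113_s1 {κ x : ℝ} (hκ : κ * h0 = ken x) (hx : ((697932185 : ℕ) : ℝ) / S ≤ x)
    (hx' : x ≤ (((697932185 : ℕ) : ℝ) + (42949674 : ℕ)) / S) :
    AltA (VFD κ) PP tK tL pcB [⟨3, 0, 0, 1449551462⟩] 1 1 3 0 0 (sgb false) (sgb false) x :=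
  strip_altAD (m := 1449551462) true rfl hκ (SH.κ0 hκ (SH.hx1 hx).le (SH.hx2 hx').le) (SH.hx1 hx).le (SH.hx2 hx') (covB01).cov (covB01).cov hx hx' c_A00mm_113_s1 cutA_nil (noExt_A)

noncomputable def cut_A00mm_113_s3 : Cut := Cut.of [[⟨3, 0, 0, 2845415833⟩]]

noncomputable def f_A00mm_113_s3 : ℕ → ℕ → ℕ → ℕ → Bool := onCell 536870912 536870912 536870912 536870912 697932185 42949674
    (rowF 0 true false false .nn 1 1 3 (qsf 536870912 536870912 536870912 536870912 3) ndB0q1 ndB0q1 pcB3 cut_A00mm_113_s3 Ext.none)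

def k0_A00mm_113_s3 : ∃ t, chk3 f_A00mm_113_s3 t 1 1 1 = true :=
  ⟨(l 4), by decide +kernel⟩

theorem c_A00mm_113_s3 : CertF 536870912 536870912 536870912 536870912 697932185 42949674 true false false .nn 1 1 3
    ndB0q1 ndB0q1 pcB3 cut_A00mm_113_s3 Ext.none :=
  certF0 (fam := true) (s1 := false) (s2 := false) (a := 1) (b := 1) (c := 3) (cn := .nn) (n1 := ndB0q1) (n2 := ndB0q1) (pc := pcB3) (cut := cut_A00mm_113_s3) (xt := Ext.none) (P1 := 536870912) (W1 := 536870912) (P2 := 536870912) (W2 := 536870912) (P3 := 697932185) (W3 := 42949674)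
    rfl k0_A00mm_113_s3

theorem s_A00mm_113_s3 {κ x : ℝ} (hκ : κ * h0 = ken x) (hx : ((697932185 : ℕ) : ℝ) / S ≤ x)
    (hx' : x ≤ (((697932185 : ℕ) : ℝ) + (42949674 : ℕ)) / S) :
    AltA (VFD κ) PP tK tL pcB [⟨4, 0, 0, 2845415833⟩] 1 1 3 0 0 (sgb false) (sgb false) x :=
  strip_altAD (m := 2845415833) false rfl hκ (SH.κ0 hκ (SH.hx1 hx).le (SH.hx2 hx').le) (SH.hx1 hx).le (SH.hx2 hx') (covB01).cov (covB01).cov hx hx' c_A00mm_113_s3 cutA_nil (noExt_A)

noncomputable def cut_A00mm_123_s1 : Cut := Cut.of [[⟨4, 0, 0, 1449551462⟩]]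

noncomputable def f_A00mm_123_s1 : ℕ → ℕ → ℕ → ℕ → Bool := onCell 536870912 536870912 0 536870912 697932185 42949674
    (rowF 0 true false false .npn 1 2 3 (qsf 536870912 536870912 0 536870912 3) ndB0q1 ndB0q2 pcB3 cut_A00mm_123_s1 Ext.none)

def k0_A00mm_123_s1 : ∃ t, chk3 f_A00mm_123_s1 t 1 1 1 = true :=
  ⟨(l 6), by decide +kernel⟩

theorem c_A00mm_123_s1 : CertF 536870912 536870912 0 536870912 697932185 42949674 true false false .npn 1 2 3
    ndB0q1 ndB0q2 pcB3 cut_A00mm_123_s1 Ext.none :=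
  certF0 (fam := true) (s1 := false) (s2 := false) (a := 1) (b := 2) (c := 3) (cn := .npn) (n1 := ndB0q1) (n2 := ndB0q2) (pc := pcB3) (cut := cut_A00mm_123_s1) (xt := Ext.none) (P1 := 536870912) (W1 := 536870912) (P2 := 0) (W2 := 536870912) (P3 := 697932185) (W3 := 42949674)
    rfl k0_A00mm_123_s1

theorem s_A00mm_123_s1 {κ x : ℝ} (hκ : κ * h0 = ken x) (hx : ((697932185 : ℕ) : ℝ) / S ≤ x)
    (hx' : x ≤ (((697932185 : ℕ) : ℝ) + (42949674 : ℕ)) / S) :
    AltA (VFD κ) PP tK tL pcB [⟨3, 0, 0, 1449551462⟩] 1 2 3 0 0 (sgb false) (sgb false) x :=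
  strip_altAD (m := 1449551462) true rfl hκ (SH.κ0 hκ (SH.hx1 hx).le (SH.hx2 hx').le) (SH.hx1 hx).le (SH.hx2 hx') (covB01).cov (covB02).cov hx hx' c_A00mm_123_s1 cutA_nil (noExt_A)

noncomputable def cut_A00mm_123_s3 : Cut := Cut.of [[⟨3, 0, 0, 2845415833⟩]]

noncomputable def f_A00mm_123_s3 : ℕ → ℕ → ℕ → ℕ → Bool := onCell 536870912 536870912 0 536870912 697932185 42949674
    (rowF 0 true false false .npn 1 2 3 (qsf 536870912 536870912 0 536870912 3) ndB0q1 ndB0q2 pcB3 cut_A00mm_123_s3 Ext.none)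

def k0_A00mm_123_s3 : ∃ t, chk3 f_A00mm_123_s3 t 1 1 1 = true :=
  ⟨(a (l 5) (l 4)), by decide +kernel⟩

theorem c_A00mm_123_s3 : CertF 536870912 536870912 0 536870912 697932185 42949674 true false false .npn 1 2 3
    ndB0q1 ndB0q2 pcB3 cut_A00mm_123_s3 Ext.none :=
  certF0 (fam := true) (s1 := false) (s2 := false) (a := 1) (b := 2) (c := 3) (cn := .npn) (n1 := ndB0q1) (n2 := ndB0q2) (pc := pcB3) (cut := cut_A00mm_123_s3) (xt := Ext.none) (P1 := 536870912) (W1 := 536870912) (P2 := 0) (W2 := 536870912) (P3 := 697932185) (W3 := 42949674)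
    rfl k0_A00mm_123_s3

theorem s_A00mm_123_s3 {κ x : ℝ} (hκ : κ * h0 = ken x) (hx : ((697932185 : ℕ) : ℝ) / S ≤ x)
    (hx' : x ≤ (((697932185 : ℕ) : ℝ) + (42949674 : ℕ)) / S) :
    AltA (VFD κ) PP tK tL pcB [⟨4, 0, 0, 2845415833⟩] 1 2 3 0 0 (sgb false) (sgb false) x :=
  strip_altAD (m := 2845415833) false rfl hκ (SH.κ0 hκ (SH.hx1 hx).le (SH.hx2 hx').le) (SH.hx1 hx).le (SH.hx2 hx') (covB01).cov (covB02).cov hx hx' c_A00mm_123_s3 cutA_nil (noExt_A)

noncomputable def cut_A00mm_202_s1 : Cut := Cut.of [[⟨4, 0, 0, 1449551462⟩], [⟨0, 1, 0, 53687091⟩, ⟨1, 0, 0, 53687091⟩, ⟨2, 1, 0, 53687091⟩]]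

noncomputable def f_A00mm_202_s1 : ℕ → ℕ → ℕ → ℕ → Bool := onCell 0 536870912 0 536870912 697932185 42949674
    (rowF 0 true false false .pp 2 0 2 (qsf 0 536870912 0 536870912 2) ndB0q2 ndB0q0 pcB2 cut_A00mm_202_s1 Ext.none)

def k0_A00mm_202_s1 : ∃ t, chk3 f_A00mm_202_s1 t 1 1 1 = true :=
  ⟨(l 6), by decide +kernel⟩

theorem c_A00mm_202_s1 : CertF 0 536870912 0 536870912 697932185 42949674 true false false .pp 2 0 2
    ndB0q2 ndB0q0 pcB2 cut_A00mm_202_s1 Ext.none :=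
  certF0 (fam := true) (s1 := false) (s2 := false) (a := 2) (b := 0) (c := 2) (cn := .pp) (n1 := ndB0q2) (n2 := ndB0q0) (pc := pcB2) (cut := cut_A00mm_202_s1) (xt := Ext.none) (P1 := 0) (W1 := 536870912) (P2 := 0) (W2 := 536870912) (P3 := 697932185) (W3 := 42949674)
    rfl k0_A00mm_202_s1

theorem s_A00mm_202_s1 {κ x : ℝ} (hκ : κ * h0 = ken x) (hx : ((697932185 : ℕ) : ℝ) / S ≤ x)
    (hx' : x ≤ (((697932185 : ℕ) : ℝ) + (42949674 : ℕ)) / S)
    (H : CutA (VFD κ) PP tK tL pcB (Cut.of [[⟨0, 1, 0, 53687091⟩, ⟨1, 0, 0, 53687091⟩, ⟨2, 1, 0, 53687091⟩]]) 2 0 2 0 0 (sgb false) (sgb false) x) :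
    AltA (VFD κ) PP tK tL pcB [⟨3, 0, 0, 1449551462⟩] 2 0 2 0 0 (sgb false) (sgb false) x :=
  strip_altAD (m := 1449551462) true rfl hκ (SH.κ0 hκ (SH.hx1 hx).le (SH.hx2 hx').le) (SH.hx1 hx).le (SH.hx2 hx') (covB02).cov (covB00).cov hx hx' c_A00mm_202_s1 H (noExt_A)

noncomputable def cut_A00mm_202_s3 : Cut := Cut.of [[⟨3, 0, 0, 2845415833⟩], [⟨0, 1, 0, 53687091⟩, ⟨1, 0, 0, 53687091⟩, ⟨2, 1, 0, 53687091⟩]]

noncomputable def xt_A00mm_202_s3 : Ext := strExt6 dd true false false .u2 .u0m .s2m .pp 2 0 2 rfl rfl gl2 vv ww ndB0q2 ndB0q0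

noncomputable def f_A00mm_202_s3 : ℕ → ℕ → ℕ → ℕ → Bool := onCell 0 536870912 1073741824 536870912 697932185 42949674
    (rowF 1 true false false .pp 2 0 2 (qsf 0 536870912 0 536870912 2) ndB0q2 ndB0q0 pcB2 cut_A00mm_202_s3 xt_A00mm_202_s3)

def k0_A00mm_202_s3 : ∃ t, chk3 f_A00mm_202_s3 t 2 2 1 = true :=
  ⟨(b (l 6) (a (l 6) (a (l 6) (a (l 6) (b (l 6) (b (b (l 6) (a (l 6) (c (l 16575192) (l 16574496)))) (b (a (a (l 6) (l 16576264)) (l 16629952)) (a (l 16585544) (l 16643120))))))))), by decide +kernel⟩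

def k1_A00mm_202_s3 : ∃ t, chk3 f_A00mm_202_s3 t 6 8 1 = true :=
  ⟨(l 1), by decide +kernel⟩

def k2_A00mm_202_s3 : ∃ t, chk3 f_A00mm_202_s3 t 12 9 1 = true :=
  ⟨(b (l 1) (a (l 6) (b (l 6) (a (l 6) (a (b (l 6) (c (l 16579056) (l 16578408))) (b (b (l 16576832) (l 16581112)) (c (l 16587776) (l 16586672)))))))), by decide +kernel⟩

def k3_A00mm_202_s3 : ∃ t, chk3 f_A00mm_202_s3 t 13 18 1 = true :=
  ⟨(a (b (l 1) (b (a (l 1) (b (l 1) (a (l 1) (b (l 1) (a (l 1) (l 16582728)))))) (a (b (l 1) (a (l 1) (b (l 16569680) (l 16582648)))) (b (a (b (l 16573656) (a (l 16573904) (l 16578472))) (b (l 16593416) (l 16585448))) (a (b (l 16578696) (l 16581152)) (l 16589144)))))) (b (b (l 1) (a (b (l 1) (a (l 1) (b (l 1) (l 16589392)))) (b (a (b (l 1) (l 16594608)) (b (a (l 16600272) (l 16606080)) (a (l 16603000) (l 16608784)))) (a (b (a (l 16594592) (l 16600064)) (a (l 16597272) (l 16602728))) (l 16604640))))) (a (b (b (a (b (l 1) (a (l 1) (l 16587160)))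 (b (a (l 16589496) (l 16594632)) (l 16594680))) (a (b (a (l 16584920) (l 16589768)) (l 16589904)) (l 16598544))) (a (b (l 16593688) (l 16598600)) (b (l 16603560) (l 16608440)))) (b (a (b (l 16603928) (l 16609048)) (b (l 16615088) (l 16620144))) (a (b (l 16614024) (l 16618864)) (b (l 16625080) (l 16629880))))))), by decide +kernel⟩

def k4_A00mm_202_s3 : ∃ t, chk3 f_A00mm_202_s3 t 13 19 1 = true :=
  ⟨(a (b (b (a (b (a (l 6) (l 16575808)) (a (l 16571800) (l 16580528))) (a (b (l 16584760) (l 16589456)) (b (l 16593944) (l 16598608)))) (a (a (b (l 16576432) (l 16580920)) (b (l 16585120) (l 16589592))) (a (b (l 16594016) (l 16598464)) (b (l 16603144) (l 16607584))))) (a (a (b (b (l 16585296) (l 16589552)) (c (l 16596296) (l 16595096))) (b (b (l 16593936) (l 1066902031)) (c (l 16604944) (l 16603712)))) (b (b (a (l 16602800) (l 16611920)) (a (l 16607040) (l 16616168))) (a (c (l 16613840) (l 16612560)) (l 16622384))))) (a (b (b (a (b (l 16603368)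 (l 16608016)) (b (l 16613184) (l 16617816))) (a (b (l 16612544) (l 16616976)) (b (l 16622336) (l 16626768)))) (b (a (b (l 16621320) (l 16625576)) (b (l 16631120) (l 16635400))) (a (l 16631832) (c (l 16647664) (l 16640904))))) (b (a (b (b (l 16623584) (l 16628192)) (b (l 16632704) (l 16637136))) (b (b (l 16634576) (l 16639160)) (b (l 16643664) (l 16648088)))) (a (b (b (l 16641496) (l 16645784)) (b (l 16650024) (l 16654208))) (a (b (l 16651808) (l 16660304)) (b (l 16657432) (l 16665952))))))), by decide +kernel⟩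

def k5_A00mm_202_s3 : ∃ t, chk3 f_A00mm_202_s3 t 14 8 1 = true :=
  ⟨(b (l 1) (a (b (l 1) (a (l 1) (b (l 1) (a (b (l 1) (a (b (l 1) (l 16623752)) (b (l 16627744) (l 16630528)))) (b (b (l 16632608) (a (l 16631888) (l 16638976))) (l 16639584)))))) (a (b (l 1) (a (b (b (l 1) (b (l 16641440) (a (l 16640584) (l 16647952)))) (b (l 16648448) (l 16653904))) (b (b (a (b (l 1) (l 16649832)) (b (l 14) (l 16657480))) (l 16657848)) (b (l 16663320) (l 16668672))))) (b (l 14) (a (b (b (l 16667800) (l 16673280)) (b (l 16678648) (l 16683896))) (b (b (l 16689048) (l 16689176)) (b (l 16694432) (l 16699584)))))))), by decide +kernel⟩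

def k6_A00mm_202_s3 : ∃ t, chk3 f_A00mm_202_s3 t 15 8 1 = true :=
  ⟨(b (l 14) (a (b (l 14) (a (a (a (b (b (l 16696096) (l 16701384)) (b (l 16706560) (l 16711648))) (b (b (l 16704440) (l 16709680)) (b (l 16714808) (l 16719848)))) (a (b (b (l 16712912) (l 16718088)) (b (l 16723176) (l 16733424))) (b (a (b (l 16719336) (l 16724480)) (b (l 16723664) (l 16728776))) (a (l 1064275471) (l 1064241167))))) (a (a (b (a (b (l 16728024) (l 16733120)) (b (l 16732416) (l 16742728))) (a (l 1064207375) (l 1064711183))) (b (a (b (l 1063999503) (l 1064058895)) (b (l 1063968783) (l 1064027663))) (a (b (l 1064114703) (l 1064166927)) (a (l 1064117775) (l 1064101903))))) (a (a (b (a (l 1063976975) (l 1063961615)) (a (l 1064085519) (l 1064069647))) (b (a (l 1063946767) (l 1063931407)) (a (l 1064053775) (l 1064037903)))) (a (a (b (l 1063916559) (l 1064022031)) (b (l 1063901711) (l 1064006159))) (a (b (l 1063886863) (l 1063990799)) (b (l 1063872015) (l 1063974927))))))))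 (b (l 14) (a (a (a (b (a (a (l 1063857167) (l 1063842831)) (a (l 1063828495) (l 1064350735))) (a (a (l 1063959567) (l 1064481295)) (b (a (l 1063904783) (l 1063889935)) (l 4)))) (b (a (a (b (l 1063772687) (l 1063825423)) (b (l 1063758863) (l 1063811087))) (b (a (l 1063744527) (l 1063730703)) (l 4))) (l 4))) (l 4)) (l 4))))), by decide +kernel⟩

def k7_A00mm_202_s3 : ∃ t, chk3 f_A00mm_202_s3 t 28 9 1 = true :=
  ⟨(b (a (b (b (a (b (l 1) (b (a (l 1) (l 16612696)) (a (l 16609312) (l 16615432)))) (b (a (b (l 1) (l 16616232)) (b (l 16619912) (l 16622680))) (a (l 16620344) (l 16626760)))) (a (b (l 16611176) (l 16621696)) (b (l 16628880) (l 16634080)))) (a (b (b (l 16626832) (l 16631832)) (b (l 16636720) (l 16641488))) (b (b (l 16639152) (l 16644096)) (b (l 16648936) (l 16653664))))) (b (a (b (b (l 16631272) (l 16636656)) (b (l 16641904) (l 16647024))) (b (b (l 16645008) (l 16650304)) (b (l 16655472) (l 16660520)))) (a (b (b (l 16652032) (l 16656920))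 (b (l 16661712) (l 16666400))) (b (b (l 16665456) (l 16670288)) (b (l 16675032) (l 16679680)))))) (a (b (a (b (b (l 16646144) (l 16650712)) (b (l 16655200) (l 16659624))) (b (b (l 16658288) (l 16662832)) (b (l 16667304) (l 16671720)))) (a (a (b (l 16663200) (l 16671736)) (b (l 16669112) (l 16677664))) (a (b (l 16675168) (l 16683736)) (b (l 16681360) (l 16689944))))) (a (b (b (b (l 16671000) (l 16675520)) (b (l 16679976) (l 16684384))) (a (b (l 16687696) (l 16706776)) (l 1066750991))) (b (b (b (l 16684248) (l 16688752)) (b (l 16693200) (l 16697600))) (a (l 1066688015) (l 1066626575)))))), by decide +kernel⟩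

def k8_A00mm_202_s3 : ∃ t, chk3 f_A00mm_202_s3 t 29 9 1 = true :=
  ⟨(a (b (a (b (b (b (l 16659232) (l 16664432)) (b (l 16669512) (l 16674496))) (b (b (l 16679368) (l 16684152)) (b (l 16688848) (l 16693472)))) (b (b (b (l 16673896) (l 16679016)) (b (l 16684024) (l 16688936))) (b (b (l 16693760) (l 16698496)) (b (l 16703152) (l 16707736))))) (b (a (a (b (l 16696760) (l 16705640)) (b (l 16703760) (l 16723112))) (b (b (l 16712256) (l 16716720)) (b (l 16721144) (l 16730792)))) (a (a (l 1066565135) (l 1066503695)) (a (l 1066442255) (l 1066381327))))) (b (a (b (b (b (l 16689032) (l 16694064)) (b (l 16699008) (l 16703856))) (b (b (l 16708624) (l 16713320)) (b (l 16717944) (l 16732992)))) (b (b (b (l 16704632) (l 16720080)) (b (l 16724960) (l 16724512))) (b (a (l 1064862735) (l 1065334799)) (a (l 1064928271) (l 1064862223))))) (a (b (b (b (l 16732248) (l 16736696)) (a (l 1065158159) (l 1065093135))) (a (b (l 1065215503) (l 1065276431)) (b (l 1065154063)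 (l 1065215503)))) (b (a (b (l 1064978447) (l 1065029135)) (b (l 1064911375) (l 1064965647))) (a (b (l 1065092623) (l 1065154575)) (b (l 1065030671) (l 1065093135))))))), by decide +kernel⟩

def k9_A00mm_202_s3 : ∃ t, chk3 f_A00mm_202_s3 t 15 9 1 = true :=
  ⟨(b (a (a (a (b (a (b (b (l 16716640) (l 16721552)) (b (l 16726384) (l 16731136))) (b (b (l 16724808) (l 16729680)) (b (l 16739728) (l 16744464)))) (a (b (l 1066342415) (l 1065869327)) (b (a (l 1064683535) (l 1064649231)) (a (l 1064747023) (l 1064713231))))) (a (a (b (b (l 1064446991) (l 1064537615)) (b (l 1064614927) (l 1064678415))) (b (b (l 1064412687) (l 1064502799)) (b (l 1064579087) (l 1064640527)))) (b (b (a (l 1064377871) (l 1064342543)) (a (l 1064466447) (l 1064430095))) (b (a (l 1064542223) (l 1064504847)) (a (l 1064606223) (l 1064567311)))))) (b (b (a (a (a (l 1064307215) (l 1064272911)) (a (l 1064775183) (l 1065277967))) (a (a (a (l 1064180239) (l 1064163343)) (a (l 1064146959)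 (l 1064130063))) (a (a (l 1064113679) (l 1064097295)) (a (l 1064080911) (l 1064064527))))) (a (a (a (l 1064393743) (l 1064357903)) (a (l 1064322063) (l 1064286735))) (a (a (l 1064788495) (l 1065290767)) (l 4)))) (a (a (b (a (l 1064467471) (l 1064430607)) (a (l 1064529423) (l 1064491535))) (b (a (l 1064393743) (l 1064357391)) (l 4))) (l 4)))) (l 4)) (a (a (a (b (a (b (l 1065380367) (l 1065977359)) (b (a (l 1064795151) (l 1064765455)) (l 1064839695))) (a (b (l 1066042895) (l 1065031695)) (a (l 1065493519) (l 4)))) (b (a (b (a (l 1064715791) (l 1066309647)) (l 1065850895)) (b (a (l 1065735183) (l 1065699343)) (l 4))) (l 4))) (l 4)) (l 4))), by decide +kernel⟩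

def k10_A00mm_202_s3 : ∃ t, chk3 f_A00mm_202_s3 t 12 10 1 = true :=
  ⟨(b (a (l 6) (b (b (a (l 6) (c (a (l 16582584) (l 16591552)) (l 16587848))) (b (a (l 6) (c (a (l 16585472) (l 16594616)) (l 16590536))) (a (c (l 16584816) (l 16574592)) (a (l 16587576) (l 16602096))))) (b (a (a (l 6) (a (l 16589824) (l 16589040))) (a (b (l 16589584) (l 16591672)) (b (l 16604224) (l 16606416)))) (a (c (a (l 16576928) (l 16585920)) (l 16581024)) (a (b (l 16593832) (l 16606552)) (b (l 16608688) (l 16611024))))))) (a (a (a (l 6) (b (l 6) (b (l 6) (l 16571856)))) (a (b (l 6) (b (l 16573560) (l 16580704))) (b (b (l 16582296) (b (l 16574976) (a (l 1066815503) (l 1066777103)))) (b (l 16593096) (l 16589784))))) (b (b (c (a (a (l 16581288) (l 16590488)) (c (a (l 16600176) (l 16615216)) (a (l 16599720) (l 16609560)))) (a (l 16585128) (c (l 16614816) (l 16604128)))) (a (b (a (l 16584136) (l 16593520)) (c (b (l 16591240) (l 16592736)) (l 16611784))) (a (b (l 16613632)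 (b (l 16605008) (l 16606544))) (b (l 16618408) (b (l 16615104) (l 16616664)))))) (a (b (c (a (l 16592504) (l 16601968)) (l 16596192)) (b (l 16612568) (l 16616160))) (a (c (b (l 16622160) (l 16618872)) (b (l 16610728) (l 16618088))) (b (b (l 16619432) (l 16623112)) (a (l 16625984) (l 16636440)))))))), by decide +kernel⟩

def k11_A00mm_202_s3 : ∃ t, chk3 f_A00mm_202_s3 t 12 11 1 = true :=
  ⟨(a (c (b (b (a (b (l 16575056) (l 16581856)) (b (l 16592824) (l 16599736))) (a (l 16612936) (b (l 16606608) (l 16613448)))) (b (a (l 16626312) (a (l 16619000) (l 16649336))) (a (l 16639624) (a (l 16632560) (l 16663064))))) (b (a (b (l 16619456) (l 16633336)) (b (l 16616496) (l 16630576))) (b (a (a (l 16600680) (l 16609680)) (a (l 16597888) (l 1066681871))) (a (l 16618760) (l 16658488))))) (b (a (b (c (b (l 16621928) (l 16618456)) (b (l 16610736) (l 16617904))) (c (b (l 16625448) (l 16632432)) (a (l 16644696) (l 16643920)))) (b (a (b (l 16636104) (l 16632776))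 (b (a (l 16633216) (l 16638440)) (l 16653512))) (a (b (l 16639920) (l 16657544)) (b (l 16655464) (l 1066331151))))) (a (b (a (b (l 16634344) (l 1066577423)) (c (b (l 16644288) (l 16651304)) (l 1066494479))) (a (a (l 1066561551) (l 1066513423)) (b (l 16668816) (l 1066421775)))) (b (a (c (b (l 16654328) (l 16671904)) (l 16668264)) (c (b (l 16675232) (l 1066271247)) (b (l 16685568) (l 1066269199)))) (b (a (a (l 16676416) (l 1066313743)) (a (l 1066258447) (l 1066204687))) (a (c (l 16680920) (l 16675872)) (a (l 1066222607) (l 1066166799)))))))), by decide +kernel⟩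

def k12_A00mm_202_s3 : ∃ t, chk3 f_A00mm_202_s3 t 26 10 1 = true :=
  ⟨(b (b (a (a (c (b (l 16601016) (b (l 16604248) (l 16606496))) (b (l 16601816) (l 16605816))) (b (a (l 16608784) (l 16613888)) (b (l 16614616) (a (l 16614272) (l 16619520))))) (a (a (b (l 16618984) (l 16623696)) (b (l 16623512) (l 16629152))) (b (l 16625208) (a (l 16634720) (l 16640392))))) (a (c (b (a (c (l 16610032) (l 16610000)) (a (l 16617736) (l 16623040))) (a (a (l 16612328) (l 16617504)) (a (l 16622792) (l 16628200)))) (a (b (l 16610128) (l 16614720)) (b (l 16610112) (l 16625408)))) (a (b (b (l 16630088) (a (l 16629816) (l 16635408))) (a (l 1067066895) (l 1066505743))) (a (b (l 16639800) (l 1066484239)) (b (l 16645576) (l 16650992)))))) (a (a (b (b (c (a (l 16617432) (l 16622704)) (l 16619568)) (b (l 16623672) (b (l 16625688) (l 16627272)))) (b (b (l 16630056) (l 16633752)) (a (l 16641768) (l 16647216)))) (b (c (b (a (l 16628088) (l 16633592)) (b (l 16635000) (a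 (l 1066359311) (l 1066327055)))) (b (l 16630464) (c (l 1066875919) (l 1066327055)))) (a (b (l 1066319375) (l 16647544)) (b (l 1066287631) (l 16653224))))) (b (b (a (a (l 1066414607) (l 1066390031)) (a (l 1066368527) (l 1066350607))) (b (a (l 16646112) (l 16658016)) (a (a (l 1066278415) (l 1066253327)) (c (l 1066236431) (l 1066212879))))) (b (a (c (l 16654864) (l 16654392)) (c (l 16666784) (l 16666480))) (a (c (l 16662208) (l 16661832)) (c (l 16674168) (l 16673944))))))), by decide +kernel⟩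

def k13_A00mm_202_s3 : ∃ t, chk3 f_A00mm_202_s3 t 27 10 1 = true :=
  ⟨(b (a (a (a (b (a (l 1067121167) (l 1066885647)) (b (l 16651464) (l 16656976))) (b (b (l 16642400) (l 16650384)) (c (l 1066755599) (l 16660504)))) (b (b (l 16649912) (l 16657976)) (b (l 16665944) (l 16672320)))) (b (a (b (l 1066304527) (l 16668584)) (b (a (l 16679136) (l 16684808)) (l 16679744))) (a (a (l 1066960399) (l 1066359311)) (a (l 1066295311) (l 1066231823))))) (a (b (b (a (a (l 1066337295) (l 16668920)) (l 16678320)) (a (a (l 1066226191) (l 1066217999)) (l 1066208783))) (a (a (a (l 1066171407) (l 1066165775)) (a (l 1066162191) (l 1066159631))) (a (l 1065082383) (l 1066151439)))) (a (a (b (l 1066253327) (l 1066145807)) (b (l 1066245647) (l 1066140175))) (b (c (l 1067022351) (l 1066251279)) (l 1066665999))))), by decide +kernel⟩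

def k14_A00mm_202_s3 : ∃ t, chk3 f_A00mm_202_s3 t 13 11 1 = true :=
  ⟨(a (b (a (b (a (c (b (l 16646824) (l 16654016)) (b (l 16646320) (l 16653616))) (c (b (l 16657944) (l 16665184)) (b (l 16657536) (l 16664864)))) (a (b (l 1066808335) (a (l 16675976) (l 16676280))) (c (b (l 16672432) (l 16684944)) (a (l 1066189327) (l 1066151951))))) (b (b (a (c (l 16669512) (l 16669216)) (c (l 16686752) (l 16686592))) (a (l 1066696719) (a (l 1066121743) (l 1066101263)))) (a (c (a (l 1066129935) (l 1066634255)) (a (l 1066118671) (l 1066088975))) (a (a (l 1066069519) (l 1066057231)) (l 1065907215))))) (a (b (b (a (c (l 1066748431) (l 1066203151)) (a (l 1066138127) (l 1066097679))) (a (a (l 1066191375) (l 1066143247)) (a (l 1066097679) (l 1066054671)))) (c (a (a (b (l 1066153487) (l 1066109967)) (b (l 1066103311) (l 1066056719))) (a (b (l 1066054671) (l 1066005519)) (b (l 1066008079) (l 1066090511)))) (a (b (l 1066133519) (l 1066095631)) (b (l 1066037775)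 (l 1065994767))))) (b (a (a (b (l 1066059791) (l 1066014735)) (b (l 1066025999) (l 1065978383))) (a (a (l 1065979407) (l 1065965583)) (a (l 1065952783) (l 1065942031)))) (b (a (a (l 1065898511) (l 1065926159)) (a (l 1065891343) (l 1065862159))) (c (a (a (b (l 1065923599) (l 1065895439)) (l 1065865231)) (a (l 1065825295) (l 1065790479))) (a (a (l 1065926159) (l 1065884687)) (c (l 1066224143) (l 1066378255)))))))) (a (b (a (a (b (l 1065568271) (l 1066026511)) (b (l 1066097679) (l 1066019343))) (b (l 1066091535) (l 1066619407))) (a (a (b (l 1066063375) (b (l 1065841167) (l 1065774607))) (b (l 1065921551) (b (l 1065831951) (l 1065761295)))) (b (c (l 1065904143) (l 1065922575)) (b (l 1066331663) (a (l 1065717263) (l 1065673231)))))) (a (b (b (l 1066082831) (l 1066010127)) (b (l 1065844751) (b (l 1065701391) (l 1065605135)))) (b (b (l 1066609167) (l 1065926671)) (b (l 1065743887) (b (l 1065606159) (l 1065514511))))))), by decide +kernel⟩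

def k15_A00mm_202_s3 : ∃ t, chk3 f_A00mm_202_s3 t 7 5 1 = true :=
  ⟨(b (a (a (b (a (b (a (b (a (l 16690632) (l 16691352)) (l 1066077199)) (a (a (l 1065977359) (l 1065945615)) (l 1066703887))) (a (b (l 1066118159) (l 1066153999)) (b (l 1065993743) (l 1066031631)))) (a (a (b (l 1066373647) (l 1065924111)) (b (l 1066312719) (l 1065864719))) (b (a (l 1066253327) (l 1065657359)) (l 1066311695)))) (a (a (b (c (l 1067265039) (l 1066709007)) (l 1067186703)) (a (b (l 1066109455) (l 1066047503)) (b (l 1066050575) (l 1065991183)))) (a (b (a (l 1065991695) (l 1065933839)) (b (a (l 1065966095) (l 1065909775)) (a (l 1065903631) (l 1065843727)))) (b (l 1066920463) (a (b (l 1065854991) (l 1065792527)) (l 1065767951)))))) (a (b (a (b (a (l 1065597967) (l 1065539087)) (l 1065658895)) (b (a (l 1065479695) (l 1065419791)) (l 1066078223))) (a (b (l 1065733135) (b (l 1065713679) (l 4))) (b (l 1065619471) (l 4)))) (b (a (b (a (l 1065359887) (l 1065299983)) (l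 1066228751)) (b (a (l 1064702991) (l 1064105999)) (l 4))) (l 4)))) (l 4)) (a (a (a (a (b (b (l 1067332111) (l 1065818127)) (b (l 1065641999) (l 4))) (b (b (b (l 1065918991) (l 1065837583)) (l 1065709071)) (l 4))) (b (a (b (b (l 1065803791) (l 1065723919)) (l 1065598991)) (b (a (b (l 1065727503) (l 4)) (l 4)) (l 4))) (l 4))) (l 4)) (l 4))), by decide +kernel⟩

def k16_A00mm_202_s3 : ∃ t, chk3 f_A00mm_202_s3 t 2 6 1 = true :=
  ⟨(a (l 6) (b (a (a (l 6) (b (l 6) (l 16581832))) (a (b (a (l 16578216) (l 16632744)) (b (l 16642968) (l 16634608))) (b (a (b (l 16598288) (l 16611072)) (b (l 16635272) (l 16648480))) (b (a (l 16622952) (a (l 16635432) (l 16644344))) (a (l 16636136) (b (l 16650112) (l 16657352))))))) (a (a (b (l 16627480) (l 16613928)) (b (b (l 16601680) (l 16615952)) (b (l 16630440) (l 16644712)))) (a (b (b (l 16659096) (a (l 16635128) (l 16691064))) (a (b (l 16649472) (l 16663632)) (b (l 16705336) (l 16708888)))) (b (a (b (l 16650520)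 (a (l 16681824) (l 1066894863))) (b (c (l 16689536) (l 16689024)) (b (l 16700536) (l 16707808)))) (a (b (a (l 16696096) (l 16704632)) (b (l 16710880) (l 16717776))) (b (b (l 16715024) (l 1067550735)) (a (l 1067293711) (b (l 16723552) (l 1066648079)))))))))), by decide +kernel⟩

def k17_A00mm_202_s3 : ∃ t, chk3 f_A00mm_202_s3 t 4 7 1 = true :=
  ⟨(a (b (l 6) (b (l 16715744) (a (l 16650952) (l 16664600)))) (b (b (a (l 6) (l 16703992)) (a (l 16627264) (l 16730136))) (b (a (l 16654232) (l 16757840)) (a (l 16764776) (b (l 16694536) (l 16706448)))))), by decide +kernel⟩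

def k18_A00mm_202_s3 : ∃ t, chk3 f_A00mm_202_s3 t 10 7 1 = true :=
  ⟨(b (a (b (b (l 16634872) (l 16648216)) (a (l 16746312) (l 16737000))) (b (b (l 16700472) (l 16724608)) (a (b (l 16679424) (l 16693360)) (b (l 16692024) (l 16748072))))) (a (b (b (l 16689456) (l 16745568)) (b (l 16758976) (c (l 16771920) (l 16769400)))) (b (a (b (l 16707760) (l 16763976)) (b (b (l 16716976) (l 16724232)) (b (l 16731312) (l 16737992)))) (a (b (l 16766408) (b (l 16743592) (l 16748832))) (b (b (l 16765280) (l 16771192)) (b (c (l 16777280) (l 16776136)) (l 1069344271))))))), by decide +kernel⟩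

def k19_A00mm_202_s3 : ∃ t, chk3 f_A00mm_202_s3 t 11 14 1 = true :=
  ⟨(a (b (a (b (l 16677384) (l 16722496)) (b (b (l 16687712) (l 16715496)) (b (l 16722392) (l 16729376)))) (a (b (a (l 16701744) (l 16729336)) (b (l 16715688) (l 16743864))) (b (a (l 1067916815) (b (l 16740256) (l 16736936))) (a (b (l 16726072) (l 16754304)) (b (l 1067267087) (l 1067372559)))))) (b (a (b (a (l 1066965519) (l 1066816015)) (a (b (l 16734224) (l 1066948623)) (b (l 1066783759) (l 1067308047)))) (a (b (b (l 1066702863) (l 1066667535)) (b (l 1067709967) (a (l 1066648079) (l 1066573327)))) (b (b (l 1066604047) (l 1067635727)) (a (c (l 1067092495) (l 1066491919)) (c (l 1067046415) (l 1066445327)))))) (a (b (a (b (l 1066961423) (l 1066992655)) (b (c (l 1066817039) (l 1066720783)) (c (l 1067379215) (l 1066730511)))) (a (b (l 1067052559) (l 1067160591)) (a (b (l 1066891279) (l 1067000847)) (b (l 1067320335) (l 1066894351))))) (b (a (a (b (l 1066634767) (l 1067174927))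 (b (l 1066550799) (a (l 1066565647) (l 1067056143)))) (a (b (l 1067013135) (b (l 1066994703) (a (l 1066473487) (l 1066429455)))) (a (b (l 1066430991) (a (l 1066405391) (l 1066388495))) (c (b (l 1066447375) (l 1066815503)) (l 1066882575))))) (a (a (b (b (l 1066661391) (l 1066695695)) (l 1066787855)) (b (b (l 1066556431) (l 1066587663)) (c (l 1066742799) (l 1066620431)))) (b (a (b (b (l 1066451983) (l 1066457103)) (b (l 1066469903) (l 1066494479))) (b (b (a (l 1066382351) (c (l 1066929167) (l 1066296335))) (a (c (l 1066430991) (l 1066330639)) (a (l 1066347535) (a (l 1066333199) (l 1066326031))))) (b (b (a (l 1066386447) (a (l 1066347535) (a (l 1066329103) (l 1066320399)))) (a (l 1066394127) (a (l 1066356239) (a (l 1066335759) (b (l 1066316815) (l 1066325007)))))) (a (l 1066416143) (l 1066363919))))) (c (a (l 1066632207) (c (l 1066548239) (l 1066496015))) (l 1066466831)))))))), by decide +kernel⟩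

def k20_A00mm_202_s3 : ∃ t, chk3 f_A00mm_202_s3 t 11 15 1 = true :=
  ⟨(a (b (a (a (b (l 1068198927) (l 1068555279)) (b (l 1068029967) (b (l 16768608) (l 1068491279)))) (b (a (l 1067822607) (l 1067609615)) (a (l 1068184079) (l 1067964431)))) (a (b (a (b (l 16774768) (l 1069015567)) (b (l 1068687375) (a (l 1068933647) (l 1068840463)))) (a (b (b (l 16774136) (l 1069227535)) (b (l 1069297167) (l 1069315599))) (a (b (l 1069137423) (b (l 1069265423) (l 1069383695))) (b (l 1069046799) (c (l 1070974479) (l 1070203407)))))) (b (a (b (l 1068475919) (l 1068678671)) (b (l 1068252687) (l 1068454415))) (a (b (l 1068887055) (a (l 1071279119) (l 4))) (l 4))))) (b (a (b (a (l 1067393039) (l 1067173903)) (a (l 1067739151) (l 1067509775))) (b (a (c (l 1067555343) (l 1066887183)) (a (a (l 1066813967) (l 4)) (l 4))) (l 4))) (b (a (b (l 1067905551) (l 4)) (l 4)) (l 4)))), by decide +kernel⟩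

def k21_A00mm_202_s3 : ∃ t, chk3 f_A00mm_202_s3 t 12 12 1 = true :=
  ⟨(a (b (a (b (c (l 16652960) (l 16653376)) (a (l 16661720) (l 1067203599))) (b (b (l 16658216) (a (l 16649800) (l 16659584))) (a (c (l 16670352) (l 16659120)) (c (l 1067028495) (l 16679480))))) (a (a (b (l 16664128) (l 1066627087)) (b (l 1066570767) (l 1066551823))) (b (a (l 1066747919) (b (l 16690248) (l 16692336))) (a (l 1066474511) (l 1066662415))))) (b (a (a (b (b (l 16672960) (l 16680072)) (b (l 1066401807) (l 1066340879))) (b (b (a (l 16680528) (l 16685648)) (l 1066899983)) (b (a (l 16689200) (l 1066266127)) (l 1066500623)))) (b (b (a (c (l 1066269199) (l 16693648)) (c (c (l 1066016783) (l 1066153487)) (l 1066172431))) (a (c (l 1066501647) (l 1066234383)) (c (a (l 1066141711) (l 1066081807)) (l 1066387471)))) (a (b (c (l 1066732559) (l 1066151951)) (a (l 1066145807) (l 1066085391))) (b (c (a (l 1066105871) (l 1066045455)) (a (l 1066063887) (l 1066004495))) (a (l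 1066024975) (l 1065964559)))))) (a (b (a (b (l 1066299407) (l 1066283535)) (b (l 1066193423) (l 1066185231))) (a (b (l 1066297871) (l 1066321935)) (b (l 1066204175) (l 1066229775)))) (b (a (b (a (l 1066108431) (l 1066049039)) (a (l 1066105871) (l 1066050063))) (b (a (l 1065989647) (c (l 1065957391) (l 1065896975))) (a (l 1065994255) (l 1065938447)))) (a (b (l 1066097167) (l 1066121743)) (b (a (l 1066011663) (l 1065954831)) (l 1066005007))))))), by decide +kernel⟩

def k22_A00mm_202_s3 : ∃ t, chk3 f_A00mm_202_s3 t 26 24 1 = true :=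
  ⟨(a (b (a (a (b (c (l 1066065423) (l 1066086415)) (c (l 1066022927) (l 1066032655))) (b (c (l 1066010127) (l 1066031119)) (b (l 1065985551) (l 1065966095)))) (a (b (c (l 1065955855) (l 1065977359)) (c (c (l 1065906191) (l 1065912335)) (l 1065916431))) (b (b (l 1065923087) (a (l 1065911823) (l 1065885711))) (c (b (l 1065865231) (l 1065840655)) (l 1065858575))))) (a (a (b (c (l 1066387471) (l 1065945103)) (b (l 1065918479) (l 1065892879))) (b (b (l 1065930767) (l 1065891855)) (b (l 1065858063) (l 1065833487)))) (b (b (a (a (l 1065886735) (l 1065857039)) (a (l 1065827343) (l 1065797647))) (a (c (l 1065849871) (l 1065805327)) (c (l 1065789967) (l 1065745423)))) (a (b (l 1065798159) (l 1065774607)) (b (l 1065738255) (c (l 1065739279) (l 1065683983))))))) (b (b (b (a (a (l 1065874447) (l 1065828367)) (a (l 1065786383) (l 1065749519))) (a (a (l 1066116623) (l 1065800207)) (a (l 1066023951) (l 1066252815)))) (b (a (a (a (l 1065835535) (l 1065809935))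 (l 1066107919)) (a (l 1066127887) (a (l 1065690127) (l 1065663503)))) (a (c (a (l 1065785871) (l 1065732623)) (l 1066014735)) (c (a (l 1065681935) (l 1065902607)) (a (l 1065659407) (l 1065602063)))))) (b (a (a (b (c (l 1065761807) (l 1065729551)) (c (l 1065731087) (l 1065685007))) (a (b (l 1065709583) (l 1065668111)) (b (l 1065680399) (l 1065638415)))) (a (b (c (l 1065652751) (l 1065610767)) (c (l 1065613327) (l 1065565199))) (b (a (l 1065593359) (l 1065564687)) (b (l 1065545231) (l 1065524751))))) (b (a (a (l 1065678863) (l 1065619471)) (a (l 1065762831) (b (l 1065509391) (l 1065504783)))) (a (a (c (l 1065682959) (l 1065628687)) (l 1065607183)) (a (l 1065554959) (l 1065503759))))))), by decide +kernel⟩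

def k23_A00mm_202_s3 : ∃ t, chk3 f_A00mm_202_s3 t 26 25 1 = true :=
  ⟨(a (a (b (b (a (c (l 1065900047) (l 1066109967)) (b (l 1065820687) (l 1065821199))) (a (c (l 1065905167) (l 1065851407)) (c (l 1065848847) (l 1065798159)))) (b (a (c (l 1065916431) (l 1065869839)) (b (l 1065839119) (l 1065846799))) (b (l 1065884175) (l 1065894927)))) (b (a (b (b (a (l 1065779215) (l 1065752079)) (l 1065767439)) (c (l 1065860111) (l 1065744911))) (b (c (l 1065835023) (a (l 1065694735) (l 1065668623))) (c (a (l 1065752079) (l 1065724431)) (a (l 1065705487) (l 1065679375))))) (b (a (b (c (l 1065799695) (l 1065757199)) (c (l 1065804815) (l 1065766415))) (b (c (a (l 1065757711) (l 1065730063)) (l 1065703439)) (a (c (l 1065762831) (l 1065725967)) (b (l 1065720335) (l 1065723919))))) (a (b (l 1065799695) (l 1065808911)) (b (c (l 1065888271) (l 1065756175)) (l 1065752591)))))) (b (a (a (a (b (l 1065673231) (a (l 1065687055) (l 1065673743))) (b (l 1065647119)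 (l 1065653775))) (b (l 1065742351) (c (l 1065629711) (l 1065587727)))) (a (b (l 1065555983) (l 1065561615)) (b (l 1065504783) (l 1065509903)))) (a (a (b (a (b (l 1065688591) (c (b (l 1065705487) (l 1065707535)) (b (l 1065670159) (l 1065674767)))) (l 1065664527)) (b (a (c (l 1065711119) (l 1065681935)) (a (c (l 1065689615) (l 1065661967)) (l 4))) (l 4))) (b (c (l 1065903631) (b (l 1065597967) (l 1065606159))) (l 4))) (l 4)))), by decide +kernel⟩

def k24_A00mm_202_s3 : ∃ t, chk3 f_A00mm_202_s3 t 27 12 1 = true :=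
  ⟨(b (a (b (a (a (a (b (l 1065709583) (b (l 1065637391) (l 1065586191))) (b (l 1065690639) (c (l 1065871375) (l 1065559567)))) (a (b (l 1065667599) (a (l 1065567759) (l 1065556495))) (b (l 1065646607) (l 1065541647)))) (a (b (l 1065615375) (l 1065512463)) (b (l 1065573391) (l 1065473039)))) (a (b (b (b (a (c (l 1065955855) (l 1065507343)) (a (l 1065496591) (l 1065475599))) (a (a (l 1065524239) (l 1065496591)) (a (l 1065738767) (l 1065449487)))) (b (a (a (l 1065501711) (l 1065472527)) (a (a (l 1065451535) (l 1065571855)) (l 1065422863))) (b (a (l 1065470991) (a (a (l 1065434127) (b (l 1065422863) (l 1065417231))) (l 1065538575))) (a (l 1065461263) (a (l 1065421327) (a (b (l 1065399823) (l 1065530383)) (l 4))))))) (a (b (a (a (l 1065474063) (l 1065461263)) (l 1065442831)) (l 1065453583)) (a (l 1065416207) (l 4)))) (a (b (b (l 1065434639) (b (l 1065398287) (l 4))) (l 4)) (l 4)))) (a (b (b (a (l 1065530895) (l 1065488399)) (l 4)) (l 4)) (l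 4))) (a (a (a (b (b (l 1065454095) (l 4)) (l 4)) (l 4)) (l 4)) (l 4))), by decide +kernel⟩

def k25_A00mm_202_s3 : ∃ t, chk3 f_A00mm_202_s3 t 7 12 1 = true :=
  ⟨(l 4), by decide +kernel⟩

def k26_A00mm_202_s3 : ∃ t, chk3 f_A00mm_202_s3 t 3 13 1 = true :=
  ⟨(a (a (a (b (a (b (a (l 1066648079) (l 1066581519)) (a (l 1066663439) (l 1066605071))) (b (a (l 1066512911) (l 1066440719)) (a (l 1066545679) (l 1067020815)))) (b (a (b (l 1066637327) (l 1066628623)) (a (l 1067094031) (b (l 1066504207) (l 1066500623)))) (a (b (l 1066603535) (l 1066562063)) (b (a (l 1066522639) (l 1066466319)) (a (l 1066481167) (l 1066425359)))))) (b (a (a (b (l 1066899983) (b (l 1066405903) (l 1066429967))) (b (b (l 1066259983) (l 1066293263)) (a (l 1066363407) (l 1066858511)))) (a (b (a (l 1066197519) (l 1066136591)) (a (b (l 1066251791) (l 1066290703)) (l 1066206735))) (b (b (l 1066030607) (l 1066060303)) (a (l 1066141199) (l 1066076687))))) (a (b (a (b (l 1066449423)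 (l 1066780687)) (b (b (l 1066652687) (l 1066933775)) (b (l 1066390543) (l 1066379791)))) (a (b (l 1066408463) (b (l 1066378767) (l 1066358799))) (b (a (l 1066364943) (l 1066335247)) (c (a (l 1066353679) (l 4)) (l 1066274319))))) (b (a (b (a (l 1066600463) (l 1066272271)) (a (b (a (l 1066360335) (l 1066622479)) (l 1066334223)) (l 4))) (b (a (l 1066202639) (l 4)) (l 4))) (l 4))))) (a (b (a (a (b (b (l 1065911823) (l 1065937935)) (a (l 1066549775) (l 4))) (b (a (b (l 1065824783) (l 1065847823)) (a (b (l 1065781263) (l 4)) (l 4))) (l 4))) (l 4)) (l 4)) (l 4))) (l 4)), by decide +kernel⟩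

def k27_A00mm_202_s3 : ∃ t, chk3 f_A00mm_202_s3 t 3 7 1 = true :=
  ⟨(b (a (a (a (a (a (b (b (l 1066523663) (l 1066976783)) (a (a (b (l 1066375183) (b (b (l 1066323983) (a (b (b (l 1066313231) (b (l 1066579471) (l 4))) (l 4)) (l 4))) (l 4))) (b (l 1066363919) (b (b (l 1066313231) (l 4)) (l 4)))) (b (c (l 1066391055) (l 1066299919)) (l 4)))) (b (b (b (l 1066492943) (l 1066451983)) (c (l 1066963471) (l 1066350607))) (b (b (l 1066332175) (a (l 1066304015) (l 4))) (l 4)))) (b (b (a (b (l 1066439695) (l 1066399759)) (b (l 1066385423) (l 1066346511))) (a (b (l 1066360847) (l 1066321935)) (b (l 1066308623) (l 4)))) (l 4))) (b (a (a (b (b (l 1066330127) (l 4)) (l 4)) (l 4)) (l 4)) (l 4))) (l 4)) (l 4)) (a (l 4) (l 4))), by decide +kernel⟩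

theorem t28_A00mm_202_s3 : ∃ t, chk3 f_A00mm_202_s3 t 26 12 1 = true := ex3_b k22_A00mm_202_s3 k23_A00mm_202_s3

theorem t29_A00mm_202_s3 : ∃ t, chk3 f_A00mm_202_s3 t 13 12 1 = true := ex3_a t28_A00mm_202_s3 k24_A00mm_202_s3

theorem t30_A00mm_202_s3 : ∃ t, chk3 f_A00mm_202_s3 t 6 12 1 = true := ex3_a k21_A00mm_202_s3 t29_A00mm_202_s3

theorem t31_A00mm_202_s3 : ∃ t, chk3 f_A00mm_202_s3 t 3 12 1 = true := ex3_a t30_A00mm_202_s3 k25_A00mm_202_s3

theorem t32_A00mm_202_s3 : ∃ t, chk3 f_A00mm_202_s3 t 3 6 1 = true := ex3_b t31_A00mm_202_s3 k26_A00mm_202_s3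

theorem t33_A00mm_202_s3 : ∃ t, chk3 f_A00mm_202_s3 t 3 3 1 = true := ex3_b t32_A00mm_202_s3 k27_A00mm_202_s3

theorem t34_A00mm_202_s3 : ∃ t, chk3 f_A00mm_202_s3 t 11 7 1 = true := ex3_b k19_A00mm_202_s3 k20_A00mm_202_s3

theorem t35_A00mm_202_s3 : ∃ t, chk3 f_A00mm_202_s3 t 5 7 1 = true := ex3_a k18_A00mm_202_s3 t34_A00mm_202_s3

theorem t36_A00mm_202_s3 : ∃ t, chk3 f_A00mm_202_s3 t 2 7 1 = true := ex3_a k17_A00mm_202_s3 t35_A00mm_202_s3

theorem t37_A00mm_202_s3 : ∃ t, chk3 f_A00mm_202_s3 t 2 3 1 = true := ex3_b k16_A00mm_202_s3 t36_A00mm_202_s3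

theorem t38_A00mm_202_s3 : ∃ t, chk3 f_A00mm_202_s3 t 1 3 1 = true := ex3_a t37_A00mm_202_s3 t33_A00mm_202_s3

theorem t39_A00mm_202_s3 : ∃ t, chk3 f_A00mm_202_s3 t 13 10 1 = true := ex3_a k12_A00mm_202_s3 k13_A00mm_202_s3

theorem t40_A00mm_202_s3 : ∃ t, chk3 f_A00mm_202_s3 t 13 5 1 = true := ex3_b t39_A00mm_202_s3 k14_A00mm_202_s3

theorem t41_A00mm_202_s3 : ∃ t, chk3 f_A00mm_202_s3 t 12 5 1 = true := ex3_b k10_A00mm_202_s3 k11_A00mm_202_s3

theorem t42_A00mm_202_s3 : ∃ t, chk3 f_A00mm_202_s3 t 6 5 1 = true := ex3_a t41_A00mm_202_s3 t40_A00mm_202_s3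

theorem t43_A00mm_202_s3 : ∃ t, chk3 f_A00mm_202_s3 t 3 5 1 = true := ex3_a t42_A00mm_202_s3 k15_A00mm_202_s3

theorem t44_A00mm_202_s3 : ∃ t, chk3 f_A00mm_202_s3 t 14 9 1 = true := ex3_a k7_A00mm_202_s3 k8_A00mm_202_s3

theorem t45_A00mm_202_s3 : ∃ t, chk3 f_A00mm_202_s3 t 7 9 1 = true := ex3_a t44_A00mm_202_s3 k9_A00mm_202_s3

theorem t46_A00mm_202_s3 : ∃ t, chk3 f_A00mm_202_s3 t 7 8 1 = true := ex3_a k5_A00mm_202_s3 k6_A00mm_202_s3

theorem t47_A00mm_202_s3 : ∃ t, chk3 f_A00mm_202_s3 t 7 4 1 = true := ex3_b t46_A00mm_202_s3 t45_A00mm_202_s3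

theorem t48_A00mm_202_s3 : ∃ t, chk3 f_A00mm_202_s3 t 13 9 1 = true := ex3_b k3_A00mm_202_s3 k4_A00mm_202_s3

theorem t49_A00mm_202_s3 : ∃ t, chk3 f_A00mm_202_s3 t 6 9 1 = true := ex3_a k2_A00mm_202_s3 t48_A00mm_202_s3

theorem t50_A00mm_202_s3 : ∃ t, chk3 f_A00mm_202_s3 t 6 4 1 = true := ex3_b k1_A00mm_202_s3 t49_A00mm_202_s3

theorem t51_A00mm_202_s3 : ∃ t, chk3 f_A00mm_202_s3 t 3 4 1 = true := ex3_a t50_A00mm_202_s3 t47_A00mm_202_s3

theorem t52_A00mm_202_s3 : ∃ t, chk3 f_A00mm_202_s3 t 3 2 1 = true := ex3_b t51_A00mm_202_s3 t43_A00mm_202_s3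

theorem t53_A00mm_202_s3 : ∃ t, chk3 f_A00mm_202_s3 t 1 2 1 = true := ex3_a k0_A00mm_202_s3 t52_A00mm_202_s3

theorem t54_A00mm_202_s3 : ∃ t, chk3 f_A00mm_202_s3 t 1 1 1 = true := ex3_b t53_A00mm_202_s3 t38_A00mm_202_s3

theorem c_A00mm_202_s3 : CertF 0 536870912 0 536870912 697932185 42949674 true false false .pp 2 0 2
    ndB0q2 ndB0q0 pcB2 cut_A00mm_202_s3 xt_A00mm_202_s3 :=
  certF1 (fam := true) (s1 := false) (s2 := false) (a := 2) (b := 0) (c := 2) (cn := .pp) (n1 := ndB0q2) (n2 := ndB0q0) (pc := pcB2) (cut := cut_A00mm_202_s3) (xt := xt_A00mm_202_s3) (P1 := 0) (W1 := 536870912) (P2 := 0) (W2 := 536870912) (P3 := 697932185) (W3 := 42949674)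
    rfl (fun _ => rfl) t54_A00mm_202_s3

theorem s_A00mm_202_s3 {κ x : ℝ} (hκ : κ * h0 = ken x) (hx : ((697932185 : ℕ) : ℝ) / S ≤ x)
    (hx' : x ≤ (((697932185 : ℕ) : ℝ) + (42949674 : ℕ)) / S)
    (H : CutA (VFD κ) PP tK tL pcB (Cut.of [[⟨0, 1, 0, 53687091⟩, ⟨1, 0, 0, 53687091⟩, ⟨2, 1, 0, 53687091⟩]]) 2 0 2 0 0 (sgb false) (sgb false) x) :
    AltA (VFD κ) PP tK tL pcB [⟨4, 0, 0, 2845415833⟩] 2 0 2 0 0 (sgb false) (sgb false) x :=
  strip_altAD (m := 2845415833) false rfl hκ (SH.κ0 hκ (SH.hx1 hx).le (SH.hx2 hx').le) (SH.hx1 hx).le (SH.hx2 hx') (covB02).cov (covB00).cov hx hx' c_A00mm_202_s3 H ((okx6 hx hx').extA (T := tt) (okx hx hx') (sideB hx hx') hκ rfl rfl (.O 2 false) (.O 0 false) (Or.inl rfl))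

noncomputable def cut_A00mm_203_s1 : Cut := Cut.of [[⟨4, 0, 0, 1449551462⟩]]

noncomputable def f_A00mm_203_s1 : ℕ → ℕ → ℕ → ℕ → Bool := onCell 0 536870912 0 536870912 697932185 42949674
    (rowF 0 true false false .up 2 0 3 (qsf 0 536870912 0 536870912 3) ndB0q2 ndB0q0 pcB3 cut_A00mm_203_s1 Ext.none)

def k0_A00mm_203_s1 : ∃ t, chk3 f_A00mm_203_s1 t 1 1 1 = true :=
  ⟨(l 6), by decide +kernel⟩

theorem c_A00mm_203_s1 : CertF 0 536870912 0 536870912 697932185 42949674 true false false .up 2 0 3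
    ndB0q2 ndB0q0 pcB3 cut_A00mm_203_s1 Ext.none :=
  certF0 (fam := true) (s1 := false) (s2 := false) (a := 2) (b := 0) (c := 3) (cn := .up) (n1 := ndB0q2) (n2 := ndB0q0) (pc := pcB3) (cut := cut_A00mm_203_s1) (xt := Ext.none) (P1 := 0) (W1 := 536870912) (P2 := 0) (W2 := 536870912) (P3 := 697932185) (W3 := 42949674)
    rfl k0_A00mm_203_s1

theorem s_A00mm_203_s1 {κ x : ℝ} (hκ : κ * h0 = ken x) (hx : ((697932185 : ℕ) : ℝ) / S ≤ x)
    (hx' : x ≤ (((697932185 : ℕ) : ℝ) + (42949674 : ℕ)) / S) :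
    AltA (VFD κ) PP tK tL pcB [⟨3, 0, 0, 1449551462⟩] 2 0 3 0 0 (sgb false) (sgb false) x :=
  strip_altAD (m := 1449551462) true rfl hκ (SH.κ0 hκ (SH.hx1 hx).le (SH.hx2 hx').le) (SH.hx1 hx).le (SH.hx2 hx') (covB02).cov (covB00).cov hx hx' c_A00mm_203_s1 cutA_nil (noExt_A)

noncomputable def cut_A00mm_203_s3 : Cut := Cut.of [[⟨3, 0, 0, 2845415833⟩]]

noncomputable def xt_A00mm_203_s3 : Ext := strExt6 dd true false false .u2 .u0m .s2m .up 2 0 3 rfl rfl gl3 vv ww ndB0q2 ndB0q0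

noncomputable def f_A00mm_203_s3 : ℕ → ℕ → ℕ → ℕ → Bool := onCell 0 536870912 1610612736 536870912 697932185 42949674
    (rowF 1 true false false .up 2 0 3 (qsf 0 536870912 0 536870912 3) ndB0q2 ndB0q0 pcB3 cut_A00mm_203_s3 xt_A00mm_203_s3)

def k0_A00mm_203_s3 : ∃ t, chk3 f_A00mm_203_s3 t 1 1 1 = true :=
  ⟨(a (b (a (b (a (b (b (a (l 16671576) (l 16769248)) (a (l 16687360) (l 16701168))) (a (b (l 16701264) (b (l 16710336) (l 16715992))) (b (b (l 16712352) (l 16719584)) (b (l 16726600) (c (l 16775888) (l 16776456)))))) (b (a (b (b (l 16696784) (l 16705768)) (b (l 16713600) (l 16721472))) (b (b (l 16716560) (l 16767264)) (b (l 16754664) (a (l 16736656) (l 16768768))))) (b (a (b (l 16771376) (c (l 16778992) (l 16758800))) (a (b (l 16766192) (l 1069005327)) (b (l 1069146127) (l 1068966415)))) (b (a (a (l 16740400) (b (l 16749032) (l 16774456))) (a (a (l 1068715535) (l 1068703247)) (l 1068689935))) (a (a (l 1068845071) (b (c (l 16779272) (l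 16769152)) (b (l 1068697615) (l 1068780559)))) (a (a (b (l 1068478991) (l 1068602895)) (l 1068475407)) (b (l 1068393487) (l 4)))))))) (b (a (b (a (b (l 16730232) (l 16743000)) (a (b (l 16742568) (l 16770128)) (b (l 1069410831) (a (l 1069880847) (l 1069787151))))) (l 2)) (b (b (a (l 1069133839) (a (a (a (l 1068916239) (l 1068981775)) (l 4)) (l 4))) (a (l 1069553679) (l 4))) (l 2))) (l 2))) (b (a (a (b (b (a (b (l 16732816) (l 16741640)) (b (l 16786128) (l 16774056))) (a (b (l 16771336) (b (l 16757032) (l 1069176335))) (b (l 1069292559) (l 1069161487)))) (b (a (b (l 1069624847) (l 1068920847)) (b (a (l 1069038607) (l 1068996111)) (l 4))) (l 4))) (b (b (b (a (l 1069383695) (l 1069344783)) (a (l 1069351951) (l 1069325327))) (b (l 1069813263) (a (l 1069168655) (l 4)))) (l 4))) (a (a (b (b (a (l 1069309455) (a (l 1069292047) (l 4))) (l 4)) (l 4)) (l 4)) (l 4))) (l 4))) (l 2)) (b (l 4) (l 2))), by decide +kernel⟩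

theorem c_A00mm_203_s3 : CertF 0 536870912 0 536870912 697932185 42949674 true false false .up 2 0 3
    ndB0q2 ndB0q0 pcB3 cut_A00mm_203_s3 xt_A00mm_203_s3 :=
  certF1 (fam := true) (s1 := false) (s2 := false) (a := 2) (b := 0) (c := 3) (cn := .up) (n1 := ndB0q2) (n2 := ndB0q0) (pc := pcB3) (cut := cut_A00mm_203_s3) (xt := xt_A00mm_203_s3) (P1 := 0) (W1 := 536870912) (P2 := 0) (W2 := 536870912) (P3 := 697932185) (W3 := 42949674)
    rfl (fun _ => rfl) k0_A00mm_203_s3

theorem s_A00mm_203_s3 {κ x : ℝ} (hκ : κ * h0 = ken x) (hx : ((697932185 : ℕ) : ℝ) / S ≤ x)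
    (hx' : x ≤ (((697932185 : ℕ) : ℝ) + (42949674 : ℕ)) / S) :
    AltA (VFD κ) PP tK tL pcB [⟨4, 0, 0, 2845415833⟩] 2 0 3 0 0 (sgb false) (sgb false) x :=
  strip_altAD (m := 2845415833) false rfl hκ (SH.κ0 hκ (SH.hx1 hx).le (SH.hx2 hx').le) (SH.hx1 hx).le (SH.hx2 hx') (covB02).cov (covB00).cov hx hx' c_A00mm_203_s3 cutA_nil ((okx6 hx hx').extA (T := tt) (okx hx hx') (sideB hx hx') hκ rfl rfl (.O 2 false) (.O 0 false) (Or.inr rfl))

noncomputable def cut_A00mm_213_s1 : Cut := Cut.of [[⟨4, 0, 0, 1449551462⟩]]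

noncomputable def f_A00mm_213_s1 : ℕ → ℕ → ℕ → ℕ → Bool := onCell 0 536870912 536870912 536870912 697932185 42949674
    (rowF 0 true false false .pnn 2 1 3 (qsf 0 536870912 536870912 536870912 3) ndB0q2 ndB0q1 pcB3 cut_A00mm_213_s1 Ext.none)

def k0_A00mm_213_s1 : ∃ t, chk3 f_A00mm_213_s1 t 1 1 1 = true :=
  ⟨(l 6), by decide +kernel⟩

theorem c_A00mm_213_s1 : CertF 0 536870912 536870912 536870912 697932185 42949674 true false false .pnn 2 1 3
    ndB0q2 ndB0q1 pcB3 cut_A00mm_213_s1 Ext.none :=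
  certF0 (fam := true) (s1 := false) (s2 := false) (a := 2) (b := 1) (c := 3) (cn := .pnn) (n1 := ndB0q2) (n2 := ndB0q1) (pc := pcB3) (cut := cut_A00mm_213_s1) (xt := Ext.none) (P1 := 0) (W1 := 536870912) (P2 := 536870912) (W2 := 536870912) (P3 := 697932185) (W3 := 42949674)
    rfl k0_A00mm_213_s1

theorem s_A00mm_213_s1 {κ x : ℝ} (hκ : κ * h0 = ken x) (hx : ((697932185 : ℕ) : ℝ) / S ≤ x)
    (hx' : x ≤ (((697932185 : ℕ) : ℝ) + (42949674 : ℕ)) / S) :
    AltA (VFD κ) PP tK tL pcB [⟨3, 0, 0, 1449551462⟩] 2 1 3 0 0 (sgb false) (sgb false) x :=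
  strip_altAD (m := 1449551462) true rfl hκ (SH.κ0 hκ (SH.hx1 hx).le (SH.hx2 hx').le) (SH.hx1 hx).le (SH.hx2 hx') (covB02).cov (covB01).cov hx hx' c_A00mm_213_s1 cutA_nil (noExt_A)

noncomputable def cut_A00mm_213_s3 : Cut := Cut.of [[⟨3, 0, 0, 2845415833⟩]]

noncomputable def xt_A00mm_213_s3 : Ext := strExt6 dd true false false .u2 .u0m .s2m .pnn 2 1 3 rfl rfl gl3 vv ww ndB0q2 ndB0q1

noncomputable def f_A00mm_213_s3 : ℕ → ℕ → ℕ → ℕ → Bool := onCell 0 536870912 536870912 536870912 697932185 42949674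
    (rowF 0 true false false .pnn 2 1 3 (qsf 0 536870912 536870912 536870912 3) ndB0q2 ndB0q1 pcB3 cut_A00mm_213_s3 xt_A00mm_213_s3)

def k0_A00mm_213_s3 : ∃ t, chk3 f_A00mm_213_s3 t 1 1 1 = true :=
  ⟨(a (b (b (a (a (b (b (b (a (a (l 16749424) (l 16776936)) (a (b (l 16760512) (l 16775624)) (a (b (l 16766064) (l 1070337551)) (l 1070121487)))) (a (a (l 16758752) (l 1070860815)) (a (b (l 1070668303) (l 1070839311)) (c (b (l 1070595087) (l 1070814735)) (a (l 1070545935) (l 1070446095)))))) (a (c (a (l 1071595535) (l 1071505423)) (l 1071247887)) (a (l 1071255567) (l 4)))) (a (b (a (l 1072214543) (l 4)) (l 4)) (l 4))) (b (a (b (b (l 1069843983) (l 4)) (l 4)) (l 4)) (l 4))) (l 4)) (l 4)) (l 4)) (l 4)), by decide +kernel⟩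

theorem c_A00mm_213_s3 : CertF 0 536870912 536870912 536870912 697932185 42949674 true false false .pnn 2 1 3
    ndB0q2 ndB0q1 pcB3 cut_A00mm_213_s3 xt_A00mm_213_s3 :=
  certF0 (fam := true) (s1 := false) (s2 := false) (a := 2) (b := 1) (c := 3) (cn := .pnn) (n1 := ndB0q2) (n2 := ndB0q1) (pc := pcB3) (cut := cut_A00mm_213_s3) (xt := xt_A00mm_213_s3) (P1 := 0) (W1 := 536870912) (P2 := 536870912) (W2 := 536870912) (P3 := 697932185) (W3 := 42949674)
    rfl k0_A00mm_213_s3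

theorem s_A00mm_213_s3 {κ x : ℝ} (hκ : κ * h0 = ken x) (hx : ((697932185 : ℕ) : ℝ) / S ≤ x)
    (hx' : x ≤ (((697932185 : ℕ) : ℝ) + (42949674 : ℕ)) / S) :
    AltA (VFD κ) PP tK tL pcB [⟨4, 0, 0, 2845415833⟩] 2 1 3 0 0 (sgb false) (sgb false) x :=
  strip_altAD (m := 2845415833) false rfl hκ (SH.κ0 hκ (SH.hx1 hx).le (SH.hx2 hx').le) (SH.hx1 hx).le (SH.hx2 hx') (covB02).cov (covB01).cov hx hx' c_A00mm_213_s3 cutA_nil ((okx6 hx hx').extA (T := tt) (okx hx hx') (sideB hx hx') hκ rfl rfl (.O 2 false) (.O 1 false) (Or.inr rfl))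

noncomputable def cut_A07pp_001_s1 : Cut := Cut.of [[⟨4, 0, 0, 1449551462⟩]]

noncomputable def f_A07pp_001_s1 : ℕ → ℕ → ℕ → ℕ → Bool := onCell 0 536870912 0 536870912 697932185 42949674
    (rowF 0 true true true .up 0 0 1 (qsf 0 536870912 0 536870912 1) ndB0q0 ndB7q0 pcB1 cut_A07pp_001_s1 Ext.none)

def k0_A07pp_001_s1 : ∃ t, chk3 f_A07pp_001_s1 t 1 1 1 = true :=
  ⟨(l 4), by decide +kernel⟩

theorem c_A07pp_001_s1 : CertF 0 536870912 0 536870912 697932185 42949674 true true true .up 0 0 1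
    ndB0q0 ndB7q0 pcB1 cut_A07pp_001_s1 Ext.none :=
  certF0 (fam := true) (s1 := true) (s2 := true) (a := 0) (b := 0) (c := 1) (cn := .up) (n1 := ndB0q0) (n2 := ndB7q0) (pc := pcB1) (cut := cut_A07pp_001_s1) (xt := Ext.none) (P1 := 0) (W1 := 536870912) (P2 := 0) (W2 := 536870912) (P3 := 697932185) (W3 := 42949674)
    rfl k0_A07pp_001_s1

theorem s_A07pp_001_s1 {κ x : ℝ} (hκ : κ * h0 = ken x) (hx : ((697932185 : ℕ) : ℝ) / S ≤ x)
    (hx' : x ≤ (((697932185 : ℕ) : ℝ) + (42949674 : ℕ)) / S) :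
    AltA (VFD κ) PP tK tL pcB [⟨3, 0, 0, 1449551462⟩] 0 0 1 0 7 (sgb true) (sgb true) x :=
  strip_altAD (m := 1449551462) true rfl hκ (SH.κ0 hκ (SH.hx1 hx).le (SH.hx2 hx').le) (SH.hx1 hx).le (SH.hx2 hx') (covB00).cov (covB70).cov hx hx' c_A07pp_001_s1 cutA_nil (noExt_A)

noncomputable def cut_A07pp_011_s1 : Cut := Cut.of [[⟨4, 0, 0, 1449551462⟩]]

noncomputable def f_A07pp_011_s1 : ℕ → ℕ → ℕ → ℕ → Bool := onCell 0 536870912 536870912 536870912 697932185 42949674
    (rowF 0 true true true .pnn 0 1 1 (qsf 0 536870912 536870912 536870912 1) ndB0q0 ndB7q1 pcB1 cut_A07pp_011_s1 Ext.none)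

def k0_A07pp_011_s1 : ∃ t, chk3 f_A07pp_011_s1 t 1 1 1 = true :=
  ⟨(l 4), by decide +kernel⟩

theorem c_A07pp_011_s1 : CertF 0 536870912 536870912 536870912 697932185 42949674 true true true .pnn 0 1 1
    ndB0q0 ndB7q1 pcB1 cut_A07pp_011_s1 Ext.none :=
  certF0 (fam := true) (s1 := true) (s2 := true) (a := 0) (b := 1) (c := 1) (cn := .pnn) (n1 := ndB0q0) (n2 := ndB7q1) (pc := pcB1) (cut := cut_A07pp_011_s1) (xt := Ext.none) (P1 := 0) (W1 := 536870912) (P2 := 536870912) (W2 := 536870912) (P3 := 697932185) (W3 := 42949674)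
    rfl k0_A07pp_011_s1

theorem s_A07pp_011_s1 {κ x : ℝ} (hκ : κ * h0 = ken x) (hx : ((697932185 : ℕ) : ℝ) / S ≤ x)
    (hx' : x ≤ (((697932185 : ℕ) : ℝ) + (42949674 : ℕ)) / S) :
    AltA (VFD κ) PP tK tL pcB [⟨3, 0, 0, 1449551462⟩] 0 1 1 0 7 (sgb true) (sgb true) x :=
  strip_altAD (m := 1449551462) true rfl hκ (SH.κ0 hκ (SH.hx1 hx).le (SH.hx2 hx').le) (SH.hx1 hx).le (SH.hx2 hx') (covB00).cov (covB71).cov hx hx' c_A07pp_011_s1 cutA_nil (noExt_A)

noncomputable def cut_A07pp_012_s1 : Cut := Cut.of [[⟨4, 0, 0, 1449551462⟩]]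

noncomputable def f_A07pp_012_s1 : ℕ → ℕ → ℕ → ℕ → Bool := onCell 0 536870912 536870912 536870912 697932185 42949674
    (rowF 0 true true true .pnp 0 1 2 (qsf 0 536870912 536870912 536870912 2) ndB0q0 ndB7q1 pcB2 cut_A07pp_012_s1 Ext.none)

def k0_A07pp_012_s1 : ∃ t, chk3 f_A07pp_012_s1 t 1 1 1 = true :=
  ⟨(l 4), by decide +kernel⟩

theorem c_A07pp_012_s1 : CertF 0 536870912 536870912 536870912 697932185 42949674 true true true .pnp 0 1 2
    ndB0q0 ndB7q1 pcB2 cut_A07pp_012_s1 Ext.none :=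
  certF0 (fam := true) (s1 := true) (s2 := true) (a := 0) (b := 1) (c := 2) (cn := .pnp) (n1 := ndB0q0) (n2 := ndB7q1) (pc := pcB2) (cut := cut_A07pp_012_s1) (xt := Ext.none) (P1 := 0) (W1 := 536870912) (P2 := 536870912) (W2 := 536870912) (P3 := 697932185) (W3 := 42949674)
    rfl k0_A07pp_012_s1

theorem s_A07pp_012_s1 {κ x : ℝ} (hκ : κ * h0 = ken x) (hx : ((697932185 : ℕ) : ℝ) / S ≤ x)
    (hx' : x ≤ (((697932185 : ℕ) : ℝ) + (42949674 : ℕ)) / S) :
    AltA (VFD κ) PP tK tL pcB [⟨3, 0, 0, 1449551462⟩] 0 1 2 0 7 (sgb true) (sgb true) x :=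
  strip_altAD (m := 1449551462) true rfl hκ (SH.κ0 hκ (SH.hx1 hx).le (SH.hx2 hx').le) (SH.hx1 hx).le (SH.hx2 hx') (covB00).cov (covB71).cov hx hx' c_A07pp_012_s1 cutA_nil (noExt_A)

noncomputable def cut_A07pp_022_s1 : Cut := Cut.of [[⟨4, 0, 0, 1449551462⟩]]

noncomputable def f_A07pp_022_s1 : ℕ → ℕ → ℕ → ℕ → Bool := onCell 0 536870912 1073741824 536870912 697932185 42949674
    (rowF 0 true true true .pp 0 2 2 (qsf 0 536870912 1073741824 536870912 2) ndB0q0 ndB7q2 pcB2 cut_A07pp_022_s1 Ext.none)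

def k0_A07pp_022_s1 : ∃ t, chk3 f_A07pp_022_s1 t 1 1 1 = true :=
  ⟨(l 4), by decide +kernel⟩

theorem c_A07pp_022_s1 : CertF 0 536870912 1073741824 536870912 697932185 42949674 true true true .pp 0 2 2
    ndB0q0 ndB7q2 pcB2 cut_A07pp_022_s1 Ext.none :=
  certF0 (fam := true) (s1 := true) (s2 := true) (a := 0) (b := 2) (c := 2) (cn := .pp) (n1 := ndB0q0) (n2 := ndB7q2) (pc := pcB2) (cut := cut_A07pp_022_s1) (xt := Ext.none) (P1 := 0) (W1 := 536870912) (P2 := 1073741824) (W2 := 536870912) (P3 := 697932185) (W3 := 42949674)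
    rfl k0_A07pp_022_s1

theorem s_A07pp_022_s1 {κ x : ℝ} (hκ : κ * h0 = ken x) (hx : ((697932185 : ℕ) : ℝ) / S ≤ x)
    (hx' : x ≤ (((697932185 : ℕ) : ℝ) + (42949674 : ℕ)) / S) :
    AltA (VFD κ) PP tK tL pcB [⟨3, 0, 0, 1449551462⟩] 0 2 2 0 7 (sgb true) (sgb true) x :=
  strip_altAD (m := 1449551462) true rfl hκ (SH.κ0 hκ (SH.hx1 hx).le (SH.hx2 hx').le) (SH.hx1 hx).le (SH.hx2 hx') (covB00).cov (covB72).cov hx hx' c_A07pp_022_s1 cutA_nil (noExt_A)

noncomputable def cut_A07pp_023_s1 : Cut := Cut.of [[⟨4, 0, 0, 1449551462⟩]]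

noncomputable def f_A07pp_023_s1 : ℕ → ℕ → ℕ → ℕ → Bool := onCell 0 536870912 1073741824 536870912 697932185 42949674
    (rowF 0 true true true .up 0 2 3 (qsf 0 536870912 1073741824 536870912 3) ndB0q0 ndB7q2 pcB3 cut_A07pp_023_s1 Ext.none)

def k0_A07pp_023_s1 : ∃ t, chk3 f_A07pp_023_s1 t 1 1 1 = true :=
  ⟨(l 4), by decide +kernel⟩

theorem c_A07pp_023_s1 : CertF 0 536870912 1073741824 536870912 697932185 42949674 true true true .up 0 2 3
    ndB0q0 ndB7q2 pcB3 cut_A07pp_023_s1 Ext.none :=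
  certF0 (fam := true) (s1 := true) (s2 := true) (a := 0) (b := 2) (c := 3) (cn := .up) (n1 := ndB0q0) (n2 := ndB7q2) (pc := pcB3) (cut := cut_A07pp_023_s1) (xt := Ext.none) (P1 := 0) (W1 := 536870912) (P2 := 1073741824) (W2 := 536870912) (P3 := 697932185) (W3 := 42949674)
    rfl k0_A07pp_023_s1

theorem s_A07pp_023_s1 {κ x : ℝ} (hκ : κ * h0 = ken x) (hx : ((697932185 : ℕ) : ℝ) / S ≤ x)
    (hx' : x ≤ (((697932185 : ℕ) : ℝ) + (42949674 : ℕ)) / S) :
    AltA (VFD κ) PP tK tL pcB [⟨3, 0, 0, 1449551462⟩] 0 2 3 0 7 (sgb true) (sgb true) x :=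
  strip_altAD (m := 1449551462) true rfl hκ (SH.κ0 hκ (SH.hx1 hx).le (SH.hx2 hx').le) (SH.hx1 hx).le (SH.hx2 hx') (covB00).cov (covB72).cov hx hx' c_A07pp_023_s1 cutA_nil (noExt_A)

noncomputable def cut_A07pp_033_s1 : Cut := Cut.of [[⟨4, 0, 0, 1449551462⟩]]

noncomputable def f_A07pp_033_s1 : ℕ → ℕ → ℕ → ℕ → Bool := onCell 0 536870912 0 1230186008 697932185 42949674
    (rowF 0 true true true .pnn 0 3 3 (qsf 0 536870912 0 1230186008 3) ndB0q0 ndB7q3 pcB3 cut_A07pp_033_s1 Ext.none)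

def k0_A07pp_033_s1 : ∃ t, chk3 f_A07pp_033_s1 t 1 1 1 = true :=
  ⟨(l 4), by decide +kernel⟩

theorem c_A07pp_033_s1 : CertF 0 536870912 0 1230186008 697932185 42949674 true true true .pnn 0 3 3
    ndB0q0 ndB7q3 pcB3 cut_A07pp_033_s1 Ext.none :=
  certF0 (fam := true) (s1 := true) (s2 := true) (a := 0) (b := 3) (c := 3) (cn := .pnn) (n1 := ndB0q0) (n2 := ndB7q3) (pc := pcB3) (cut := cut_A07pp_033_s1) (xt := Ext.none) (P1 := 0) (W1 := 536870912) (P2 := 0) (W2 := 1230186008) (P3 := 697932185) (W3 := 42949674)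
    rfl k0_A07pp_033_s1

theorem s_A07pp_033_s1 {κ x : ℝ} (hκ : κ * h0 = ken x) (hx : ((697932185 : ℕ) : ℝ) / S ≤ x)
    (hx' : x ≤ (((697932185 : ℕ) : ℝ) + (42949674 : ℕ)) / S) :
    AltA (VFD κ) PP tK tL pcB [⟨3, 0, 0, 1449551462⟩] 0 3 3 0 7 (sgb true) (sgb true) x :=
  strip_altAD (m := 1449551462) true rfl hκ (SH.κ0 hκ (SH.hx1 hx).le (SH.hx2 hx').le) (SH.hx1 hx).le (SH.hx2 hx') (covB00).cov (covB73).cov hx hx' c_A07pp_033_s1 cutA_nil (noExt_A)

noncomputable def cut_A07pp_101_s1 : Cut := Cut.of [[⟨4, 0, 0, 1449551462⟩]]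

noncomputable def f_A07pp_101_s1 : ℕ → ℕ → ℕ → ℕ → Bool := onCell 536870912 536870912 0 536870912 697932185 42949674
    (rowF 0 true true true .npn 1 0 1 (qsf 536870912 536870912 0 536870912 1) ndB0q1 ndB7q0 pcB1 cut_A07pp_101_s1 Ext.none)

def k0_A07pp_101_s1 : ∃ t, chk3 f_A07pp_101_s1 t 1 1 1 = true :=
  ⟨(l 4), by decide +kernel⟩

theorem c_A07pp_101_s1 : CertF 536870912 536870912 0 536870912 697932185 42949674 true true true .npn 1 0 1
    ndB0q1 ndB7q0 pcB1 cut_A07pp_101_s1 Ext.none :=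
  certF0 (fam := true) (s1 := true) (s2 := true) (a := 1) (b := 0) (c := 1) (cn := .npn) (n1 := ndB0q1) (n2 := ndB7q0) (pc := pcB1) (cut := cut_A07pp_101_s1) (xt := Ext.none) (P1 := 536870912) (W1 := 536870912) (P2 := 0) (W2 := 536870912) (P3 := 697932185) (W3 := 42949674)
    rfl k0_A07pp_101_s1

theorem s_A07pp_101_s1 {κ x : ℝ} (hκ : κ * h0 = ken x) (hx : ((697932185 : ℕ) : ℝ) / S ≤ x)
    (hx' : x ≤ (((697932185 : ℕ) : ℝ) + (42949674 : ℕ)) / S) :
    AltA (VFD κ) PP tK tL pcB [⟨3, 0, 0, 1449551462⟩] 1 0 1 0 7 (sgb true) (sgb true) x :=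
  strip_altAD (m := 1449551462) true rfl hκ (SH.κ0 hκ (SH.hx1 hx).le (SH.hx2 hx').le) (SH.hx1 hx).le (SH.hx2 hx') (covB01).cov (covB70).cov hx hx' c_A07pp_101_s1 cutA_nil (noExt_A)

noncomputable def cut_A07pp_102_s1 : Cut := Cut.of [[⟨4, 0, 0, 1449551462⟩]]

noncomputable def f_A07pp_102_s1 : ℕ → ℕ → ℕ → ℕ → Bool := onCell 536870912 536870912 0 536870912 697932185 42949674
    (rowF 0 true true true .npp 1 0 2 (qsf 536870912 536870912 0 536870912 2) ndB0q1 ndB7q0 pcB2 cut_A07pp_102_s1 Ext.none)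

def k0_A07pp_102_s1 : ∃ t, chk3 f_A07pp_102_s1 t 1 1 1 = true :=
  ⟨(l 4), by decide +kernel⟩

theorem c_A07pp_102_s1 : CertF 536870912 536870912 0 536870912 697932185 42949674 true true true .npp 1 0 2
    ndB0q1 ndB7q0 pcB2 cut_A07pp_102_s1 Ext.none :=
  certF0 (fam := true) (s1 := true) (s2 := true) (a := 1) (b := 0) (c := 2) (cn := .npp) (n1 := ndB0q1) (n2 := ndB7q0) (pc := pcB2) (cut := cut_A07pp_102_s1) (xt := Ext.none) (P1 := 536870912) (W1 := 536870912) (P2 := 0) (W2 := 536870912) (P3 := 697932185) (W3 := 42949674)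
    rfl k0_A07pp_102_s1

theorem s_A07pp_102_s1 {κ x : ℝ} (hκ : κ * h0 = ken x) (hx : ((697932185 : ℕ) : ℝ) / S ≤ x)
    (hx' : x ≤ (((697932185 : ℕ) : ℝ) + (42949674 : ℕ)) / S) :
    AltA (VFD κ) PP tK tL pcB [⟨3, 0, 0, 1449551462⟩] 1 0 2 0 7 (sgb true) (sgb true) x :=
  strip_altAD (m := 1449551462) true rfl hκ (SH.κ0 hκ (SH.hx1 hx).le (SH.hx2 hx').le) (SH.hx1 hx).le (SH.hx2 hx') (covB01).cov (covB70).cov hx hx' c_A07pp_102_s1 cutA_nil (noExt_A)

noncomputable def cut_A07pp_112_s1 : Cut := Cut.of [[⟨4, 0, 0, 1449551462⟩]]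

noncomputable def f_A07pp_112_s1 : ℕ → ℕ → ℕ → ℕ → Bool := onCell 536870912 536870912 536870912 536870912 697932185 42949674
    (rowF 0 true true true .dn 1 1 2 (qsf 536870912 536870912 536870912 536870912 2) ndB0q1 ndB7q1 pcB2 cut_A07pp_112_s1 Ext.none)

def k0_A07pp_112_s1 : ∃ t, chk3 f_A07pp_112_s1 t 1 1 1 = true :=
  ⟨(l 4), by decide +kernel⟩

theorem c_A07pp_112_s1 : CertF 536870912 536870912 536870912 536870912 697932185 42949674 true true true .dn 1 1 2
    ndB0q1 ndB7q1 pcB2 cut_A07pp_112_s1 Ext.none :=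
  certF0 (fam := true) (s1 := true) (s2 := true) (a := 1) (b := 1) (c := 2) (cn := .dn) (n1 := ndB0q1) (n2 := ndB7q1) (pc := pcB2) (cut := cut_A07pp_112_s1) (xt := Ext.none) (P1 := 536870912) (W1 := 536870912) (P2 := 536870912) (W2 := 536870912) (P3 := 697932185) (W3 := 42949674)
    rfl k0_A07pp_112_s1

theorem s_A07pp_112_s1 {κ x : ℝ} (hκ : κ * h0 = ken x) (hx : ((697932185 : ℕ) : ℝ) / S ≤ x)
    (hx' : x ≤ (((697932185 : ℕ) : ℝ) + (42949674 : ℕ)) / S) :
    AltA (VFD κ) PP tK tL pcB [⟨3, 0, 0, 1449551462⟩] 1 1 2 0 7 (sgb true) (sgb true) x :=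
  strip_altAD (m := 1449551462) true rfl hκ (SH.κ0 hκ (SH.hx1 hx).le (SH.hx2 hx').le) (SH.hx1 hx).le (SH.hx2 hx') (covB01).cov (covB71).cov hx hx' c_A07pp_112_s1 cutA_nil (noExt_A)

noncomputable def cut_A07pp_113_s1 : Cut := Cut.of [[⟨4, 0, 0, 1449551462⟩]]

noncomputable def f_A07pp_113_s1 : ℕ → ℕ → ℕ → ℕ → Bool := onCell 536870912 536870912 536870912 536870912 697932185 42949674
    (rowF 0 true true true .nn 1 1 3 (qsf 536870912 536870912 536870912 536870912 3) ndB0q1 ndB7q1 pcB3 cut_A07pp_113_s1 Ext.none)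

def k0_A07pp_113_s1 : ∃ t, chk3 f_A07pp_113_s1 t 1 1 1 = true :=
  ⟨(l 4), by decide +kernel⟩

theorem c_A07pp_113_s1 : CertF 536870912 536870912 536870912 536870912 697932185 42949674 true true true .nn 1 1 3
    ndB0q1 ndB7q1 pcB3 cut_A07pp_113_s1 Ext.none :=
  certF0 (fam := true) (s1 := true) (s2 := true) (a := 1) (b := 1) (c := 3) (cn := .nn) (n1 := ndB0q1) (n2 := ndB7q1) (pc := pcB3) (cut := cut_A07pp_113_s1) (xt := Ext.none) (P1 := 536870912) (W1 := 536870912) (P2 := 536870912) (W2 := 536870912) (P3 := 697932185) (W3 := 42949674)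
    rfl k0_A07pp_113_s1

theorem s_A07pp_113_s1 {κ x : ℝ} (hκ : κ * h0 = ken x) (hx : ((697932185 : ℕ) : ℝ) / S ≤ x)
    (hx' : x ≤ (((697932185 : ℕ) : ℝ) + (42949674 : ℕ)) / S) :
    AltA (VFD κ) PP tK tL pcB [⟨3, 0, 0, 1449551462⟩] 1 1 3 0 7 (sgb true) (sgb true) x :=
  strip_altAD (m := 1449551462) true rfl hκ (SH.κ0 hκ (SH.hx1 hx).le (SH.hx2 hx').le) (SH.hx1 hx).le (SH.hx2 hx') (covB01).cov (covB71).cov hx hx' c_A07pp_113_s1 cutA_nil (noExt_A)

noncomputable def cut_A07pp_123_s1 : Cut := Cut.of [[⟨4, 0, 0, 1449551462⟩]]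

noncomputable def f_A07pp_123_s1 : ℕ → ℕ → ℕ → ℕ → Bool := onCell 536870912 536870912 1073741824 536870912 697932185 42949674
    (rowF 0 true true true .npn 1 2 3 (qsf 536870912 536870912 1073741824 536870912 3) ndB0q1 ndB7q2 pcB3 cut_A07pp_123_s1 Ext.none)

def k0_A07pp_123_s1 : ∃ t, chk3 f_A07pp_123_s1 t 1 1 1 = true :=
  ⟨(l 4), by decide +kernel⟩

theorem c_A07pp_123_s1 : CertF 536870912 536870912 1073741824 536870912 697932185 42949674 true true true .npn 1 2 3
    ndB0q1 ndB7q2 pcB3 cut_A07pp_123_s1 Ext.none :=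
  certF0 (fam := true) (s1 := true) (s2 := true) (a := 1) (b := 2) (c := 3) (cn := .npn) (n1 := ndB0q1) (n2 := ndB7q2) (pc := pcB3) (cut := cut_A07pp_123_s1) (xt := Ext.none) (P1 := 536870912) (W1 := 536870912) (P2 := 1073741824) (W2 := 536870912) (P3 := 697932185) (W3 := 42949674)
    rfl k0_A07pp_123_s1

theorem s_A07pp_123_s1 {κ x : ℝ} (hκ : κ * h0 = ken x) (hx : ((697932185 : ℕ) : ℝ) / S ≤ x)
    (hx' : x ≤ (((697932185 : ℕ) : ℝ) + (42949674 : ℕ)) / S) :
    AltA (VFD κ) PP tK tL pcB [⟨3, 0, 0, 1449551462⟩] 1 2 3 0 7 (sgb true) (sgb true) x :=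
  strip_altAD (m := 1449551462) true rfl hκ (SH.κ0 hκ (SH.hx1 hx).le (SH.hx2 hx').le) (SH.hx1 hx).le (SH.hx2 hx') (covB01).cov (covB72).cov hx hx' c_A07pp_123_s1 cutA_nil (noExt_A)

noncomputable def cut_A07pp_133_s1 : Cut := Cut.of [[⟨4, 0, 0, 1449551462⟩]]

noncomputable def f_A07pp_133_s1 : ℕ → ℕ → ℕ → ℕ → Bool := onCell 536870912 536870912 0 1230186008 697932185 42949674
    (rowF 0 true true true .dn 1 3 3 (qsf 536870912 536870912 0 1230186008 3) ndB0q1 ndB7q3 pcB3 cut_A07pp_133_s1 Ext.none)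

def k0_A07pp_133_s1 : ∃ t, chk3 f_A07pp_133_s1 t 1 1 1 = true :=
  ⟨(l 4), by decide +kernel⟩

theorem c_A07pp_133_s1 : CertF 536870912 536870912 0 1230186008 697932185 42949674 true true true .dn 1 3 3
    ndB0q1 ndB7q3 pcB3 cut_A07pp_133_s1 Ext.none :=
  certF0 (fam := true) (s1 := true) (s2 := true) (a := 1) (b := 3) (c := 3) (cn := .dn) (n1 := ndB0q1) (n2 := ndB7q3) (pc := pcB3) (cut := cut_A07pp_133_s1) (xt := Ext.none) (P1 := 536870912) (W1 := 536870912) (P2 := 0) (W2 := 1230186008) (P3 := 697932185) (W3 := 42949674)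
    rfl k0_A07pp_133_s1

theorem s_A07pp_133_s1 {κ x : ℝ} (hκ : κ * h0 = ken x) (hx : ((697932185 : ℕ) : ℝ) / S ≤ x)
    (hx' : x ≤ (((697932185 : ℕ) : ℝ) + (42949674 : ℕ)) / S) :
    AltA (VFD κ) PP tK tL pcB [⟨3, 0, 0, 1449551462⟩] 1 3 3 0 7 (sgb true) (sgb true) x :=
  strip_altAD (m := 1449551462) true rfl hκ (SH.κ0 hκ (SH.hx1 hx).le (SH.hx2 hx').le) (SH.hx1 hx).le (SH.hx2 hx') (covB01).cov (covB73).cov hx hx' c_A07pp_133_s1 cutA_nil (noExt_A)

noncomputable def cut_A07pp_202_s1 : Cut := Cut.of [[⟨4, 0, 0, 1449551462⟩]]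

noncomputable def f_A07pp_202_s1 : ℕ → ℕ → ℕ → ℕ → Bool := onCell 0 536870912 0 536870912 697932185 42949674
    (rowF 0 true true true .pp 2 0 2 (qsf 0 536870912 0 536870912 2) ndB0q2 ndB7q0 pcB2 cut_A07pp_202_s1 Ext.none)

def k0_A07pp_202_s1 : ∃ t, chk3 f_A07pp_202_s1 t 1 1 1 = true :=
  ⟨(l 4), by decide +kernel⟩

theorem c_A07pp_202_s1 : CertF 0 536870912 0 536870912 697932185 42949674 true true true .pp 2 0 2
    ndB0q2 ndB7q0 pcB2 cut_A07pp_202_s1 Ext.none :=
  certF0 (fam := true) (s1 := true) (s2 := true) (a := 2) (b := 0) (c := 2) (cn := .pp) (n1 := ndB0q2) (n2 := ndB7q0) (pc := pcB2) (cut := cut_A07pp_202_s1) (xt := Ext.none) (P1 := 0) (W1 := 536870912) (P2 := 0) (W2 := 536870912) (P3 := 697932185) (W3 := 42949674)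
    rfl k0_A07pp_202_s1

theorem s_A07pp_202_s1 {κ x : ℝ} (hκ : κ * h0 = ken x) (hx : ((697932185 : ℕ) : ℝ) / S ≤ x)
    (hx' : x ≤ (((697932185 : ℕ) : ℝ) + (42949674 : ℕ)) / S) :
    AltA (VFD κ) PP tK tL pcB [⟨3, 0, 0, 1449551462⟩] 2 0 2 0 7 (sgb true) (sgb true) x :=
  strip_altAD (m := 1449551462) true rfl hκ (SH.κ0 hκ (SH.hx1 hx).le (SH.hx2 hx').le) (SH.hx1 hx).le (SH.hx2 hx') (covB02).cov (covB70).cov hx hx' c_A07pp_202_s1 cutA_nil (noExt_A)

noncomputable def cut_A07pp_203_s1 : Cut := Cut.of [[⟨4, 0, 0, 1449551462⟩]]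

noncomputable def f_A07pp_203_s1 : ℕ → ℕ → ℕ → ℕ → Bool := onCell 0 536870912 0 536870912 697932185 42949674
    (rowF 0 true true true .up 2 0 3 (qsf 0 536870912 0 536870912 3) ndB0q2 ndB7q0 pcB3 cut_A07pp_203_s1 Ext.none)

def k0_A07pp_203_s1 : ∃ t, chk3 f_A07pp_203_s1 t 1 1 1 = true :=
  ⟨(l 4), by decide +kernel⟩

theorem c_A07pp_203_s1 : CertF 0 536870912 0 536870912 697932185 42949674 true true true .up 2 0 3
    ndB0q2 ndB7q0 pcB3 cut_A07pp_203_s1 Ext.none :=
  certF0 (fam := true) (s1 := true) (s2 := true) (a := 2) (b := 0) (c := 3) (cn := .up) (n1 := ndB0q2) (n2 := ndB7q0) (pc := pcB3) (cut := cut_A07pp_203_s1) (xt := Ext.none) (P1 := 0) (W1 := 536870912) (P2 := 0) (W2 := 536870912) (P3 := 697932185) (W3 := 42949674)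
    rfl k0_A07pp_203_s1

theorem s_A07pp_203_s1 {κ x : ℝ} (hκ : κ * h0 = ken x) (hx : ((697932185 : ℕ) : ℝ) / S ≤ x)
    (hx' : x ≤ (((697932185 : ℕ) : ℝ) + (42949674 : ℕ)) / S) :
    AltA (VFD κ) PP tK tL pcB [⟨3, 0, 0, 1449551462⟩] 2 0 3 0 7 (sgb true) (sgb true) x :=
  strip_altAD (m := 1449551462) true rfl hκ (SH.κ0 hκ (SH.hx1 hx).le (SH.hx2 hx').le) (SH.hx1 hx).le (SH.hx2 hx') (covB02).cov (covB70).cov hx hx' c_A07pp_203_s1 cutA_nil (noExt_A)

noncomputable def cut_A07pp_213_s1 : Cut := Cut.of [[⟨4, 0, 0, 1449551462⟩]]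

noncomputable def f_A07pp_213_s1 : ℕ → ℕ → ℕ → ℕ → Bool := onCell 0 536870912 536870912 536870912 697932185 42949674
    (rowF 0 true true true .pnn 2 1 3 (qsf 0 536870912 536870912 536870912 3) ndB0q2 ndB7q1 pcB3 cut_A07pp_213_s1 Ext.none)

def k0_A07pp_213_s1 : ∃ t, chk3 f_A07pp_213_s1 t 1 1 1 = true :=
  ⟨(l 4), by decide +kernel⟩

theorem c_A07pp_213_s1 : CertF 0 536870912 536870912 536870912 697932185 42949674 true true true .pnn 2 1 3
    ndB0q2 ndB7q1 pcB3 cut_A07pp_213_s1 Ext.none :=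
  certF0 (fam := true) (s1 := true) (s2 := true) (a := 2) (b := 1) (c := 3) (cn := .pnn) (n1 := ndB0q2) (n2 := ndB7q1) (pc := pcB3) (cut := cut_A07pp_213_s1) (xt := Ext.none) (P1 := 0) (W1 := 536870912) (P2 := 536870912) (W2 := 536870912) (P3 := 697932185) (W3 := 42949674)
    rfl k0_A07pp_213_s1

theorem s_A07pp_213_s1 {κ x : ℝ} (hκ : κ * h0 = ken x) (hx : ((697932185 : ℕ) : ℝ) / S ≤ x)
    (hx' : x ≤ (((697932185 : ℕ) : ℝ) + (42949674 : ℕ)) / S) :
    AltA (VFD κ) PP tK tL pcB [⟨3, 0, 0, 1449551462⟩] 2 1 3 0 7 (sgb true) (sgb true) x :=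
  strip_altAD (m := 1449551462) true rfl hκ (SH.κ0 hκ (SH.hx1 hx).le (SH.hx2 hx').le) (SH.hx1 hx).le (SH.hx2 hx') (covB02).cov (covB71).cov hx hx' c_A07pp_213_s1 cutA_nil (noExt_A)

end Pool.Agent.Strip051.G.I6500_6900.Tab.St.C
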