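import Pool.Agent.Strip051.G.I6500_6900.St1
import Pool.Agent.Strip051.G.I6500_6900.St2
import Pool.Agent.Strip051.G.I6500_6900.St3
import Pool.Agent.Strip051.G.I6500_6900.St4
import Pool.Agent.Strip051.G.I6500_6900.StH
import Pool.Agent.Strip051.G.I6500_6900.StF

/-! # Unit strips 5 (generated) -/

set_option linter.all false
set_option maxRecDepth 100000

namespace Pool.Agent.Strip051.G.I6500_6900.Tab.St.C

open Pool.Agent.Strip051.PB Pool.Agent.Strip051.PB.T Pool.Agent.StripNear Pool.Agent.Strip051.LC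
open Pool.Agent.Strip051.G.I6500_6900.Tab Pool.Agent.Strip051.G.I6500_6900.Tab.St

theorem t416_A00pm_012_s1 : ∃ t, chk3 f_A00pm_012_s1 t 3 6 1 = true := ex3_a k413_A00pm_012_s1 k414_A00pm_012_s1

theorem t417_A00pm_012_s1 : ∃ t, chk3 f_A00pm_012_s1 t 3 3 1 = true := ex3_b t416_A00pm_012_s1 k415_A00pm_012_s1

theorem t418_A00pm_012_s1 : ∃ t, chk3 f_A00pm_012_s1 t 1 3 1 = true := ex3_a k412_A00pm_012_s1 t417_A00pm_012_s1

theorem t419_A00pm_012_s1 : ∃ t, chk3 f_A00pm_012_s1 t 6 11 1 = true := ex3_a k409_A00pm_012_s1 k410_A00pm_012_s1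

theorem t420_A00pm_012_s1 : ∃ t, chk3 f_A00pm_012_s1 t 3 11 1 = true := ex3_a t419_A00pm_012_s1 k411_A00pm_012_s1

theorem t421_A00pm_012_s1 : ∃ t, chk3 f_A00pm_012_s1 t 7 21 1 = true := ex3_a k407_A00pm_012_s1 k408_A00pm_012_s1

theorem t422_A00pm_012_s1 : ∃ t, chk3 f_A00pm_012_s1 t 6 21 1 = true := ex3_a k405_A00pm_012_s1 k406_A00pm_012_s1

theorem t423_A00pm_012_s1 : ∃ t, chk3 f_A00pm_012_s1 t 3 21 1 = true := ex3_a t422_A00pm_012_s1 t421_A00pm_012_s1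

theorem t424_A00pm_012_s1 : ∃ t, chk3 f_A00pm_012_s1 t 15 2682 1 = true := ex3_b k401_A00pm_012_s1 k402_A00pm_012_s1

theorem t425_A00pm_012_s1 : ∃ t, chk3 f_A00pm_012_s1 t 15 1341 1 = true := ex3_b t424_A00pm_012_s1 k403_A00pm_012_s1

theorem t426_A00pm_012_s1 : ∃ t, chk3 f_A00pm_012_s1 t 15 10726 1 = true := ex3_b k398_A00pm_012_s1 k399_A00pm_012_s1

theorem t427_A00pm_012_s1 : ∃ t, chk3 f_A00pm_012_s1 t 15 5363 1 = true := ex3_b t426_A00pm_012_s1 k400_A00pm_012_s1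

theorem t428_A00pm_012_s1 : ∃ t, chk3 f_A00pm_012_s1 t 31 5362 1 = true := ex3_b k396_A00pm_012_s1 k397_A00pm_012_s1

theorem t429_A00pm_012_s1 : ∃ t, chk3 f_A00pm_012_s1 t 15 5362 1 = true := ex3_a k395_A00pm_012_s1 t428_A00pm_012_s1

theorem t430_A00pm_012_s1 : ∃ t, chk3 f_A00pm_012_s1 t 15 2681 1 = true := ex3_b t429_A00pm_012_s1 t427_A00pm_012_s1

theorem t431_A00pm_012_s1 : ∃ t, chk3 f_A00pm_012_s1 t 31 2680 1 = true := ex3_a k393_A00pm_012_s1 k394_A00pm_012_s1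

theorem t432_A00pm_012_s1 : ∃ t, chk3 f_A00pm_012_s1 t 15 2680 1 = true := ex3_a k392_A00pm_012_s1 t431_A00pm_012_s1

theorem t433_A00pm_012_s1 : ∃ t, chk3 f_A00pm_012_s1 t 15 1340 1 = true := ex3_b t432_A00pm_012_s1 t430_A00pm_012_s1

theorem t434_A00pm_012_s1 : ∃ t, chk3 f_A00pm_012_s1 t 15 670 1 = true := ex3_b t433_A00pm_012_s1 t425_A00pm_012_s1

theorem t435_A00pm_012_s1 : ∃ t, chk3 f_A00pm_012_s1 t 15 335 1 = true := ex3_b t434_A00pm_012_s1 k404_A00pm_012_s1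

theorem t436_A00pm_012_s1 : ∃ t, chk3 f_A00pm_012_s1 t 31 1339 1 = true := ex3_c k390_A00pm_012_s1 k391_A00pm_012_s1

theorem t437_A00pm_012_s1 : ∃ t, chk3 f_A00pm_012_s1 t 31 669 1 = true := ex3_b k389_A00pm_012_s1 t436_A00pm_012_s1

theorem t438_A00pm_012_s1 : ∃ t, chk3 f_A00pm_012_s1 t 31 1337 1 = true := ex3_a k387_A00pm_012_s1 k388_A00pm_012_s1

theorem t439_A00pm_012_s1 : ∃ t, chk3 f_A00pm_012_s1 t 31 668 1 = true := ex3_b k386_A00pm_012_s1 t438_A00pm_012_s1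

theorem t440_A00pm_012_s1 : ∃ t, chk3 f_A00pm_012_s1 t 31 334 1 = true := ex3_b t439_A00pm_012_s1 t437_A00pm_012_s1

theorem t441_A00pm_012_s1 : ∃ t, chk3 f_A00pm_012_s1 t 30 669 1 = true := ex3_a k384_A00pm_012_s1 k385_A00pm_012_s1

theorem t442_A00pm_012_s1 : ∃ t, chk3 f_A00pm_012_s1 t 30 668 1 = true := ex3_a k382_A00pm_012_s1 k383_A00pm_012_s1

theorem t443_A00pm_012_s1 : ∃ t, chk3 f_A00pm_012_s1 t 30 334 1 = true := ex3_b t442_A00pm_012_s1 t441_A00pm_012_s1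

theorem t444_A00pm_012_s1 : ∃ t, chk3 f_A00pm_012_s1 t 15 334 1 = true := ex3_a t443_A00pm_012_s1 t440_A00pm_012_s1

theorem t445_A00pm_012_s1 : ∃ t, chk3 f_A00pm_012_s1 t 15 167 1 = true := ex3_b t444_A00pm_012_s1 t435_A00pm_012_s1

theorem t446_A00pm_012_s1 : ∃ t, chk3 f_A00pm_012_s1 t 29 2681 1 = true := ex3_b k378_A00pm_012_s1 k379_A00pm_012_s1

theorem t447_A00pm_012_s1 : ∃ t, chk3 f_A00pm_012_s1 t 29 1340 1 = true := ex3_b k377_A00pm_012_s1 t446_A00pm_012_s1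

theorem t448_A00pm_012_s1 : ∃ t, chk3 f_A00pm_012_s1 t 29 670 1 = true := ex3_b t447_A00pm_012_s1 k380_A00pm_012_s1

theorem t449_A00pm_012_s1 : ∃ t, chk3 f_A00pm_012_s1 t 29 335 1 = true := ex3_b t448_A00pm_012_s1 k381_A00pm_012_s1

theorem t450_A00pm_012_s1 : ∃ t, chk3 f_A00pm_012_s1 t 29 167 1 = true := ex3_b k376_A00pm_012_s1 t449_A00pm_012_s1

theorem t451_A00pm_012_s1 : ∃ t, chk3 f_A00pm_012_s1 t 28 167 1 = true := ex3_b k374_A00pm_012_s1 k375_A00pm_012_s1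

theorem t452_A00pm_012_s1 : ∃ t, chk3 f_A00pm_012_s1 t 14 167 1 = true := ex3_a t451_A00pm_012_s1 t450_A00pm_012_s1

theorem t453_A00pm_012_s1 : ∃ t, chk3 f_A00pm_012_s1 t 7 167 1 = true := ex3_a t452_A00pm_012_s1 t445_A00pm_012_s1

theorem t454_A00pm_012_s1 : ∃ t, chk3 f_A00pm_012_s1 t 31 166 2 = true := ex3_b k371_A00pm_012_s1 k372_A00pm_012_s1

theorem t455_A00pm_012_s1 : ∃ t, chk3 f_A00pm_012_s1 t 31 166 1 = true := ex3_c t454_A00pm_012_s1 k373_A00pm_012_s1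

theorem t456_A00pm_012_s1 : ∃ t, chk3 f_A00pm_012_s1 t 60 333 1 = true := ex3_b k368_A00pm_012_s1 k369_A00pm_012_s1

theorem t457_A00pm_012_s1 : ∃ t, chk3 f_A00pm_012_s1 t 30 333 1 = true := ex3_a t456_A00pm_012_s1 k370_A00pm_012_s1

theorem t458_A00pm_012_s1 : ∃ t, chk3 f_A00pm_012_s1 t 30 332 1 = true := ex3_b k366_A00pm_012_s1 k367_A00pm_012_s1

theorem t459_A00pm_012_s1 : ∃ t, chk3 f_A00pm_012_s1 t 30 166 1 = true := ex3_b t458_A00pm_012_s1 t457_A00pm_012_s1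

theorem t460_A00pm_012_s1 : ∃ t, chk3 f_A00pm_012_s1 t 15 166 1 = true := ex3_a t459_A00pm_012_s1 t455_A00pm_012_s1

theorem t461_A00pm_012_s1 : ∃ t, chk3 f_A00pm_012_s1 t 59 333 1 = true := ex3_c k364_A00pm_012_s1 k365_A00pm_012_s1

theorem t462_A00pm_012_s1 : ∃ t, chk3 f_A00pm_012_s1 t 59 664 1 = true := ex3_c k361_A00pm_012_s1 k362_A00pm_012_s1

theorem t463_A00pm_012_s1 : ∃ t, chk3 f_A00pm_012_s1 t 59 332 1 = true := ex3_b t462_A00pm_012_s1 k363_A00pm_012_s1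

theorem t464_A00pm_012_s1 : ∃ t, chk3 f_A00pm_012_s1 t 59 166 1 = true := ex3_b t463_A00pm_012_s1 t461_A00pm_012_s1

theorem t465_A00pm_012_s1 : ∃ t, chk3 f_A00pm_012_s1 t 29 166 1 = true := ex3_a k360_A00pm_012_s1 t464_A00pm_012_s1

theorem t466_A00pm_012_s1 : ∃ t, chk3 f_A00pm_012_s1 t 14 166 1 = true := ex3_a k359_A00pm_012_s1 t465_A00pm_012_s1

theorem t467_A00pm_012_s1 : ∃ t, chk3 f_A00pm_012_s1 t 7 166 1 = true := ex3_a t466_A00pm_012_s1 t460_A00pm_012_s1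

theorem t468_A00pm_012_s1 : ∃ t, chk3 f_A00pm_012_s1 t 7 83 1 = true := ex3_b t467_A00pm_012_s1 t453_A00pm_012_s1

theorem t469_A00pm_012_s1 : ∃ t, chk3 f_A00pm_012_s1 t 61 331 1 = true := ex3_b k356_A00pm_012_s1 k357_A00pm_012_s1

theorem t470_A00pm_012_s1 : ∃ t, chk3 f_A00pm_012_s1 t 30 331 1 = true := ex3_a k355_A00pm_012_s1 t469_A00pm_012_s1

theorem t471_A00pm_012_s1 : ∃ t, chk3 f_A00pm_012_s1 t 30 165 1 = true := ex3_b k354_A00pm_012_s1 t470_A00pm_012_s1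

theorem t472_A00pm_012_s1 : ∃ t, chk3 f_A00pm_012_s1 t 15 165 1 = true := ex3_a t471_A00pm_012_s1 k358_A00pm_012_s1

theorem t473_A00pm_012_s1 : ∃ t, chk3 f_A00pm_012_s1 t 59 165 1 = true := ex3_b k352_A00pm_012_s1 k353_A00pm_012_s1

theorem t474_A00pm_012_s1 : ∃ t, chk3 f_A00pm_012_s1 t 58 165 1 = true := ex3_b k350_A00pm_012_s1 k351_A00pm_012_s1

theorem t475_A00pm_012_s1 : ∃ t, chk3 f_A00pm_012_s1 t 29 165 1 = true := ex3_a t474_A00pm_012_s1 t473_A00pm_012_s1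

theorem t476_A00pm_012_s1 : ∃ t, chk3 f_A00pm_012_s1 t 14 165 1 = true := ex3_a k349_A00pm_012_s1 t475_A00pm_012_s1

theorem t477_A00pm_012_s1 : ∃ t, chk3 f_A00pm_012_s1 t 7 165 1 = true := ex3_a t476_A00pm_012_s1 t472_A00pm_012_s1

theorem t478_A00pm_012_s1 : ∃ t, chk3 f_A00pm_012_s1 t 118 329 1 = true := ex3_b k345_A00pm_012_s1 k346_A00pm_012_s1

theorem t479_A00pm_012_s1 : ∃ t, chk3 f_A00pm_012_s1 t 59 329 1 = true := ex3_a t478_A00pm_012_s1 k347_A00pm_012_s1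

theorem t480_A00pm_012_s1 : ∃ t, chk3 f_A00pm_012_s1 t 59 164 1 = true := ex3_b k344_A00pm_012_s1 t479_A00pm_012_s1

theorem t481_A00pm_012_s1 : ∃ t, chk3 f_A00pm_012_s1 t 29 164 1 = true := ex3_a k343_A00pm_012_s1 t480_A00pm_012_s1

theorem t482_A00pm_012_s1 : ∃ t, chk3 f_A00pm_012_s1 t 57 164 1 = true := ex3_b k341_A00pm_012_s1 k342_A00pm_012_s1

theorem t483_A00pm_012_s1 : ∃ t, chk3 f_A00pm_012_s1 t 113 328 1 = true := ex3_b k338_A00pm_012_s1 k339_A00pm_012_s1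

theorem t484_A00pm_012_s1 : ∃ t, chk3 f_A00pm_012_s1 t 56 328 1 = true := ex3_a k337_A00pm_012_s1 t483_A00pm_012_s1

theorem t485_A00pm_012_s1 : ∃ t, chk3 f_A00pm_012_s1 t 56 164 1 = true := ex3_b t484_A00pm_012_s1 k340_A00pm_012_s1

theorem t486_A00pm_012_s1 : ∃ t, chk3 f_A00pm_012_s1 t 28 164 1 = true := ex3_a t485_A00pm_012_s1 t482_A00pm_012_s1

theorem t487_A00pm_012_s1 : ∃ t, chk3 f_A00pm_012_s1 t 14 164 1 = true := ex3_a t486_A00pm_012_s1 t481_A00pm_012_s1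

theorem t488_A00pm_012_s1 : ∃ t, chk3 f_A00pm_012_s1 t 7 164 1 = true := ex3_a t487_A00pm_012_s1 k348_A00pm_012_s1

theorem t489_A00pm_012_s1 : ∃ t, chk3 f_A00pm_012_s1 t 7 82 1 = true := ex3_b t488_A00pm_012_s1 t477_A00pm_012_s1

theorem t490_A00pm_012_s1 : ∃ t, chk3 f_A00pm_012_s1 t 7 41 1 = true := ex3_b t489_A00pm_012_s1 t468_A00pm_012_s1

theorem t491_A00pm_012_s1 : ∃ t, chk3 f_A00pm_012_s1 t 13 670 1 = true := ex3_b k334_A00pm_012_s1 k335_A00pm_012_s1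

theorem t492_A00pm_012_s1 : ∃ t, chk3 f_A00pm_012_s1 t 13 335 1 = true := ex3_b t491_A00pm_012_s1 k336_A00pm_012_s1

theorem t493_A00pm_012_s1 : ∃ t, chk3 f_A00pm_012_s1 t 13 167 1 = true := ex3_b k333_A00pm_012_s1 t492_A00pm_012_s1

theorem t494_A00pm_012_s1 : ∃ t, chk3 f_A00pm_012_s1 t 27 166 1 = true := ex3_a k331_A00pm_012_s1 k332_A00pm_012_s1

theorem t495_A00pm_012_s1 : ∃ t, chk3 f_A00pm_012_s1 t 13 166 1 = true := ex3_a k330_A00pm_012_s1 t494_A00pm_012_s1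

theorem t496_A00pm_012_s1 : ∃ t, chk3 f_A00pm_012_s1 t 13 83 1 = true := ex3_b t495_A00pm_012_s1 t493_A00pm_012_s1

theorem t497_A00pm_012_s1 : ∃ t, chk3 f_A00pm_012_s1 t 27 82 1 = true := ex3_b k328_A00pm_012_s1 k329_A00pm_012_s1

theorem t498_A00pm_012_s1 : ∃ t, chk3 f_A00pm_012_s1 t 26 82 1 = true := ex3_b k326_A00pm_012_s1 k327_A00pm_012_s1

theorem t499_A00pm_012_s1 : ∃ t, chk3 f_A00pm_012_s1 t 13 82 1 = true := ex3_a t498_A00pm_012_s1 t497_A00pm_012_s1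

theorem t500_A00pm_012_s1 : ∃ t, chk3 f_A00pm_012_s1 t 13 41 1 = true := ex3_b t499_A00pm_012_s1 t496_A00pm_012_s1

theorem t501_A00pm_012_s1 : ∃ t, chk3 f_A00pm_012_s1 t 12 167 1 = true := ex3_a k324_A00pm_012_s1 k325_A00pm_012_s1

theorem t502_A00pm_012_s1 : ∃ t, chk3 f_A00pm_012_s1 t 12 83 1 = true := ex3_b k323_A00pm_012_s1 t501_A00pm_012_s1

theorem t503_A00pm_012_s1 : ∃ t, chk3 f_A00pm_012_s1 t 12 41 1 = true := ex3_b k322_A00pm_012_s1 t502_A00pm_012_s1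

theorem t504_A00pm_012_s1 : ∃ t, chk3 f_A00pm_012_s1 t 6 41 1 = true := ex3_a t503_A00pm_012_s1 t500_A00pm_012_s1

theorem t505_A00pm_012_s1 : ∃ t, chk3 f_A00pm_012_s1 t 3 41 1 = true := ex3_a t504_A00pm_012_s1 t490_A00pm_012_s1

theorem t506_A00pm_012_s1 : ∃ t, chk3 f_A00pm_012_s1 t 14 327 3 = true := ex3_a k319_A00pm_012_s1 k320_A00pm_012_s1

theorem t507_A00pm_012_s1 : ∃ t, chk3 f_A00pm_012_s1 t 7 327 3 = true := ex3_a t506_A00pm_012_s1 k321_A00pm_012_s1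

theorem t508_A00pm_012_s1 : ∃ t, chk3 f_A00pm_012_s1 t 7 163 3 = true := ex3_b k318_A00pm_012_s1 t507_A00pm_012_s1

theorem t509_A00pm_012_s1 : ∃ t, chk3 f_A00pm_012_s1 t 7 81 3 = true := ex3_b k317_A00pm_012_s1 t508_A00pm_012_s1

theorem t510_A00pm_012_s1 : ∃ t, chk3 f_A00pm_012_s1 t 57 163 2 = true := ex3_b k313_A00pm_012_s1 k314_A00pm_012_s1

theorem t511_A00pm_012_s1 : ∃ t, chk3 f_A00pm_012_s1 t 28 163 2 = true := ex3_a k312_A00pm_012_s1 t510_A00pm_012_s1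

theorem t512_A00pm_012_s1 : ∃ t, chk3 f_A00pm_012_s1 t 14 163 2 = true := ex3_a t511_A00pm_012_s1 k315_A00pm_012_s1

theorem t513_A00pm_012_s1 : ∃ t, chk3 f_A00pm_012_s1 t 7 163 2 = true := ex3_a t512_A00pm_012_s1 k316_A00pm_012_s1

theorem t514_A00pm_012_s1 : ∃ t, chk3 f_A00pm_012_s1 t 7 81 2 = true := ex3_b k311_A00pm_012_s1 t513_A00pm_012_s1

theorem t515_A00pm_012_s1 : ∃ t, chk3 f_A00pm_012_s1 t 7 81 1 = true := ex3_c t514_A00pm_012_s1 t509_A00pm_012_s1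

theorem t516_A00pm_012_s1 : ∃ t, chk3 f_A00pm_012_s1 t 7 40 1 = true := ex3_b k310_A00pm_012_s1 t515_A00pm_012_s1

theorem t517_A00pm_012_s1 : ∃ t, chk3 f_A00pm_012_s1 t 55 163 1 = true := ex3_a k308_A00pm_012_s1 k309_A00pm_012_s1

theorem t518_A00pm_012_s1 : ∃ t, chk3 f_A00pm_012_s1 t 27 163 1 = true := ex3_a k307_A00pm_012_s1 t517_A00pm_012_s1

theorem t519_A00pm_012_s1 : ∃ t, chk3 f_A00pm_012_s1 t 55 162 1 = true := ex3_b k305_A00pm_012_s1 k306_A00pm_012_s1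

theorem t520_A00pm_012_s1 : ∃ t, chk3 f_A00pm_012_s1 t 109 650 1 = true := ex3_a k302_A00pm_012_s1 k303_A00pm_012_s1

theorem t521_A00pm_012_s1 : ∃ t, chk3 f_A00pm_012_s1 t 109 325 1 = true := ex3_b t520_A00pm_012_s1 k304_A00pm_012_s1

theorem t522_A00pm_012_s1 : ∃ t, chk3 f_A00pm_012_s1 t 54 325 1 = true := ex3_a k301_A00pm_012_s1 t521_A00pm_012_s1

theorem t523_A00pm_012_s1 : ∃ t, chk3 f_A00pm_012_s1 t 108 324 1 = true := ex3_b k298_A00pm_012_s1 k299_A00pm_012_s1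

theorem t524_A00pm_012_s1 : ∃ t, chk3 f_A00pm_012_s1 t 54 324 1 = true := ex3_a t523_A00pm_012_s1 k300_A00pm_012_s1

theorem t525_A00pm_012_s1 : ∃ t, chk3 f_A00pm_012_s1 t 54 162 1 = true := ex3_b t524_A00pm_012_s1 t522_A00pm_012_s1

theorem t526_A00pm_012_s1 : ∃ t, chk3 f_A00pm_012_s1 t 27 162 1 = true := ex3_a t525_A00pm_012_s1 t519_A00pm_012_s1

theorem t527_A00pm_012_s1 : ∃ t, chk3 f_A00pm_012_s1 t 27 81 1 = true := ex3_b t526_A00pm_012_s1 t518_A00pm_012_s1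

theorem t528_A00pm_012_s1 : ∃ t, chk3 f_A00pm_012_s1 t 52 162 1 = true := ex3_a k294_A00pm_012_s1 k295_A00pm_012_s1

theorem t529_A00pm_012_s1 : ∃ t, chk3 f_A00pm_012_s1 t 26 162 1 = true := ex3_a t528_A00pm_012_s1 k296_A00pm_012_s1

theorem t530_A00pm_012_s1 : ∃ t, chk3 f_A00pm_012_s1 t 26 81 1 = true := ex3_b t529_A00pm_012_s1 k297_A00pm_012_s1

theorem t531_A00pm_012_s1 : ∃ t, chk3 f_A00pm_012_s1 t 13 81 1 = true := ex3_a t530_A00pm_012_s1 t527_A00pm_012_s1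

theorem t532_A00pm_012_s1 : ∃ t, chk3 f_A00pm_012_s1 t 27 161 1 = true := ex3_a k292_A00pm_012_s1 k293_A00pm_012_s1

theorem t533_A00pm_012_s1 : ∃ t, chk3 f_A00pm_012_s1 t 27 80 1 = true := ex3_b k291_A00pm_012_s1 t532_A00pm_012_s1

theorem t534_A00pm_012_s1 : ∃ t, chk3 f_A00pm_012_s1 t 107 647 1 = true := ex3_a k289_A00pm_012_s1 k290_A00pm_012_s1

theorem t535_A00pm_012_s1 : ∃ t, chk3 f_A00pm_012_s1 t 214 1293 1 = true := ex3_b k286_A00pm_012_s1 k287_A00pm_012_s1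

theorem t536_A00pm_012_s1 : ∃ t, chk3 f_A00pm_012_s1 t 214 1292 1 = true := ex3_a k284_A00pm_012_s1 k285_A00pm_012_s1

theorem t537_A00pm_012_s1 : ∃ t, chk3 f_A00pm_012_s1 t 214 646 1 = true := ex3_b t536_A00pm_012_s1 t535_A00pm_012_s1

theorem t538_A00pm_012_s1 : ∃ t, chk3 f_A00pm_012_s1 t 107 646 1 = true := ex3_a t537_A00pm_012_s1 k288_A00pm_012_s1

theorem t539_A00pm_012_s1 : ∃ t, chk3 f_A00pm_012_s1 t 107 323 1 = true := ex3_b t538_A00pm_012_s1 t534_A00pm_012_s1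

theorem t540_A00pm_012_s1 : ∃ t, chk3 f_A00pm_012_s1 t 53 323 1 = true := ex3_a k283_A00pm_012_s1 t539_A00pm_012_s1

theorem t541_A00pm_012_s1 : ∃ t, chk3 f_A00pm_012_s1 t 106 322 1 = true := ex3_b k280_A00pm_012_s1 k281_A00pm_012_s1

theorem t542_A00pm_012_s1 : ∃ t, chk3 f_A00pm_012_s1 t 53 322 1 = true := ex3_a t541_A00pm_012_s1 k282_A00pm_012_s1

theorem t543_A00pm_012_s1 : ∃ t, chk3 f_A00pm_012_s1 t 53 161 1 = true := ex3_b t542_A00pm_012_s1 t540_A00pm_012_s1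

theorem t544_A00pm_012_s1 : ∃ t, chk3 f_A00pm_012_s1 t 26 161 1 = true := ex3_a k279_A00pm_012_s1 t543_A00pm_012_s1

theorem t545_A00pm_012_s1 : ∃ t, chk3 f_A00pm_012_s1 t 52 160 1 = true := ex3_a k276_A00pm_012_s1 k277_A00pm_012_s1

theorem t546_A00pm_012_s1 : ∃ t, chk3 f_A00pm_012_s1 t 26 160 1 = true := ex3_a t545_A00pm_012_s1 k278_A00pm_012_s1

theorem t547_A00pm_012_s1 : ∃ t, chk3 f_A00pm_012_s1 t 26 80 1 = true := ex3_b t546_A00pm_012_s1 t544_A00pm_012_s1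

theorem t548_A00pm_012_s1 : ∃ t, chk3 f_A00pm_012_s1 t 13 80 1 = true := ex3_a t547_A00pm_012_s1 t533_A00pm_012_s1

theorem t549_A00pm_012_s1 : ∃ t, chk3 f_A00pm_012_s1 t 13 40 1 = true := ex3_b t548_A00pm_012_s1 t531_A00pm_012_s1

theorem t550_A00pm_012_s1 : ∃ t, chk3 f_A00pm_012_s1 t 25 81 1 = true := ex3_b k274_A00pm_012_s1 k275_A00pm_012_s1

theorem t551_A00pm_012_s1 : ∃ t, chk3 f_A00pm_012_s1 t 25 80 1 = true := ex3_a k272_A00pm_012_s1 k273_A00pm_012_s1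

theorem t552_A00pm_012_s1 : ∃ t, chk3 f_A00pm_012_s1 t 25 40 1 = true := ex3_b t551_A00pm_012_s1 t550_A00pm_012_s1

theorem t553_A00pm_012_s1 : ∃ t, chk3 f_A00pm_012_s1 t 24 80 1 = true := ex3_a k269_A00pm_012_s1 k270_A00pm_012_s1

theorem t554_A00pm_012_s1 : ∃ t, chk3 f_A00pm_012_s1 t 24 40 1 = true := ex3_b t553_A00pm_012_s1 k271_A00pm_012_s1

theorem t555_A00pm_012_s1 : ∃ t, chk3 f_A00pm_012_s1 t 12 40 1 = true := ex3_a t554_A00pm_012_s1 t552_A00pm_012_s1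

theorem t556_A00pm_012_s1 : ∃ t, chk3 f_A00pm_012_s1 t 6 40 1 = true := ex3_a t555_A00pm_012_s1 t549_A00pm_012_s1

theorem t557_A00pm_012_s1 : ∃ t, chk3 f_A00pm_012_s1 t 3 40 1 = true := ex3_a t556_A00pm_012_s1 t516_A00pm_012_s1

theorem t558_A00pm_012_s1 : ∃ t, chk3 f_A00pm_012_s1 t 3 20 1 = true := ex3_b t557_A00pm_012_s1 t505_A00pm_012_s1

theorem t559_A00pm_012_s1 : ∃ t, chk3 f_A00pm_012_s1 t 3 10 1 = true := ex3_b t558_A00pm_012_s1 t423_A00pm_012_s1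

theorem t560_A00pm_012_s1 : ∃ t, chk3 f_A00pm_012_s1 t 3 5 1 = true := ex3_b t559_A00pm_012_s1 t420_A00pm_012_s1

theorem t561_A00pm_012_s1 : ∃ t, chk3 f_A00pm_012_s1 t 51 159 1 = true := ex3_a k265_A00pm_012_s1 k266_A00pm_012_s1

theorem t562_A00pm_012_s1 : ∃ t, chk3 f_A00pm_012_s1 t 51 79 1 = true := ex3_b k264_A00pm_012_s1 t561_A00pm_012_s1

theorem t563_A00pm_012_s1 : ∃ t, chk3 f_A00pm_012_s1 t 100 316 1 = true := ex3_a k259_A00pm_012_s1 k260_A00pm_012_s1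

theorem t564_A00pm_012_s1 : ∃ t, chk3 f_A00pm_012_s1 t 50 316 1 = true := ex3_a t563_A00pm_012_s1 k261_A00pm_012_s1

theorem t565_A00pm_012_s1 : ∃ t, chk3 f_A00pm_012_s1 t 50 158 1 = true := ex3_b t564_A00pm_012_s1 k262_A00pm_012_s1

theorem t566_A00pm_012_s1 : ∃ t, chk3 f_A00pm_012_s1 t 50 79 1 = true := ex3_b t565_A00pm_012_s1 k263_A00pm_012_s1

theorem t567_A00pm_012_s1 : ∃ t, chk3 f_A00pm_012_s1 t 25 79 1 = true := ex3_a t566_A00pm_012_s1 t562_A00pm_012_s1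

theorem t568_A00pm_012_s1 : ∃ t, chk3 f_A00pm_012_s1 t 25 78 1 = true := ex3_a k257_A00pm_012_s1 k258_A00pm_012_s1

theorem t569_A00pm_012_s1 : ∃ t, chk3 f_A00pm_012_s1 t 25 39 1 = true := ex3_b t568_A00pm_012_s1 t567_A00pm_012_s1

theorem t570_A00pm_012_s1 : ∃ t, chk3 f_A00pm_012_s1 t 48 79 1 = true := ex3_b k254_A00pm_012_s1 k255_A00pm_012_s1

theorem t571_A00pm_012_s1 : ∃ t, chk3 f_A00pm_012_s1 t 24 79 1 = true := ex3_a t570_A00pm_012_s1 k256_A00pm_012_s1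

theorem t572_A00pm_012_s1 : ∃ t, chk3 f_A00pm_012_s1 t 99 157 1 = true := ex3_b k252_A00pm_012_s1 k253_A00pm_012_s1

theorem t573_A00pm_012_s1 : ∃ t, chk3 f_A00pm_012_s1 t 49 157 1 = true := ex3_a k251_A00pm_012_s1 t572_A00pm_012_s1

theorem t574_A00pm_012_s1 : ∃ t, chk3 f_A00pm_012_s1 t 49 78 1 = true := ex3_b k250_A00pm_012_s1 t573_A00pm_012_s1

theorem t575_A00pm_012_s1 : ∃ t, chk3 f_A00pm_012_s1 t 48 156 1 = true := ex3_a k247_A00pm_012_s1 k248_A00pm_012_s1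

theorem t576_A00pm_012_s1 : ∃ t, chk3 f_A00pm_012_s1 t 48 78 1 = true := ex3_b t575_A00pm_012_s1 k249_A00pm_012_s1

theorem t577_A00pm_012_s1 : ∃ t, chk3 f_A00pm_012_s1 t 24 78 1 = true := ex3_a t576_A00pm_012_s1 t574_A00pm_012_s1

theorem t578_A00pm_012_s1 : ∃ t, chk3 f_A00pm_012_s1 t 24 39 1 = true := ex3_b t577_A00pm_012_s1 t571_A00pm_012_s1

theorem t579_A00pm_012_s1 : ∃ t, chk3 f_A00pm_012_s1 t 12 39 1 = true := ex3_a t578_A00pm_012_s1 t569_A00pm_012_s1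

theorem t580_A00pm_012_s1 : ∃ t, chk3 f_A00pm_012_s1 t 48 155 1 = true := ex3_a k243_A00pm_012_s1 k244_A00pm_012_s1

theorem t581_A00pm_012_s1 : ∃ t, chk3 f_A00pm_012_s1 t 48 77 1 = true := ex3_b k242_A00pm_012_s1 t580_A00pm_012_s1

theorem t582_A00pm_012_s1 : ∃ t, chk3 f_A00pm_012_s1 t 24 77 1 = true := ex3_a t581_A00pm_012_s1 k245_A00pm_012_s1

theorem t583_A00pm_012_s1 : ∃ t, chk3 f_A00pm_012_s1 t 24 38 1 = true := ex3_b k241_A00pm_012_s1 t582_A00pm_012_s1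

theorem t584_A00pm_012_s1 : ∃ t, chk3 f_A00pm_012_s1 t 12 38 1 = true := ex3_a t583_A00pm_012_s1 k246_A00pm_012_s1

theorem t585_A00pm_012_s1 : ∃ t, chk3 f_A00pm_012_s1 t 12 19 1 = true := ex3_b t584_A00pm_012_s1 t579_A00pm_012_s1

theorem t586_A00pm_012_s1 : ∃ t, chk3 f_A00pm_012_s1 t 12 9 1 = true := ex3_b k240_A00pm_012_s1 t585_A00pm_012_s1

theorem t587_A00pm_012_s1 : ∃ t, chk3 f_A00pm_012_s1 t 6 9 1 = true := ex3_a t586_A00pm_012_s1 k267_A00pm_012_s1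

theorem t588_A00pm_012_s1 : ∃ t, chk3 f_A00pm_012_s1 t 3 9 1 = true := ex3_a t587_A00pm_012_s1 k268_A00pm_012_s1

theorem t589_A00pm_012_s1 : ∃ t, chk3 f_A00pm_012_s1 t 3 4 1 = true := ex3_b k239_A00pm_012_s1 t588_A00pm_012_s1

theorem t590_A00pm_012_s1 : ∃ t, chk3 f_A00pm_012_s1 t 3 2 1 = true := ex3_b t589_A00pm_012_s1 t560_A00pm_012_s1

theorem t591_A00pm_012_s1 : ∃ t, chk3 f_A00pm_012_s1 t 11 41 1 = true := ex3_b k235_A00pm_012_s1 k236_A00pm_012_s1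

theorem t592_A00pm_012_s1 : ∃ t, chk3 f_A00pm_012_s1 t 11 40 1 = true := ex3_a k233_A00pm_012_s1 k234_A00pm_012_s1

theorem t593_A00pm_012_s1 : ∃ t, chk3 f_A00pm_012_s1 t 11 20 1 = true := ex3_b t592_A00pm_012_s1 t591_A00pm_012_s1

theorem t594_A00pm_012_s1 : ∃ t, chk3 f_A00pm_012_s1 t 10 41 1 = true := ex3_a k231_A00pm_012_s1 k232_A00pm_012_s1

theorem t595_A00pm_012_s1 : ∃ t, chk3 f_A00pm_012_s1 t 10 20 1 = true := ex3_b k230_A00pm_012_s1 t594_A00pm_012_s1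

theorem t596_A00pm_012_s1 : ∃ t, chk3 f_A00pm_012_s1 t 5 20 1 = true := ex3_a t595_A00pm_012_s1 t593_A00pm_012_s1

theorem t597_A00pm_012_s1 : ∃ t, chk3 f_A00pm_012_s1 t 5 10 1 = true := ex3_b t596_A00pm_012_s1 k237_A00pm_012_s1

theorem t598_A00pm_012_s1 : ∃ t, chk3 f_A00pm_012_s1 t 5 5 1 = true := ex3_b t597_A00pm_012_s1 k238_A00pm_012_s1

theorem t599_A00pm_012_s1 : ∃ t, chk3 f_A00pm_012_s1 t 2 5 1 = true := ex3_a k229_A00pm_012_s1 t598_A00pm_012_s1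

theorem t600_A00pm_012_s1 : ∃ t, chk3 f_A00pm_012_s1 t 47 79 1 = true := ex3_b k227_A00pm_012_s1 k228_A00pm_012_s1

theorem t601_A00pm_012_s1 : ∃ t, chk3 f_A00pm_012_s1 t 23 79 1 = true := ex3_a k226_A00pm_012_s1 t600_A00pm_012_s1

theorem t602_A00pm_012_s1 : ∃ t, chk3 f_A00pm_012_s1 t 47 157 1 = true := ex3_a k224_A00pm_012_s1 k225_A00pm_012_s1

theorem t603_A00pm_012_s1 : ∃ t, chk3 f_A00pm_012_s1 t 47 78 1 = true := ex3_b k223_A00pm_012_s1 t602_A00pm_012_s1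

theorem t604_A00pm_012_s1 : ∃ t, chk3 f_A00pm_012_s1 t 46 78 1 = true := ex3_b k221_A00pm_012_s1 k222_A00pm_012_s1

theorem t605_A00pm_012_s1 : ∃ t, chk3 f_A00pm_012_s1 t 23 78 1 = true := ex3_a t604_A00pm_012_s1 t603_A00pm_012_s1

theorem t606_A00pm_012_s1 : ∃ t, chk3 f_A00pm_012_s1 t 23 39 1 = true := ex3_b t605_A00pm_012_s1 t601_A00pm_012_s1

theorem t607_A00pm_012_s1 : ∃ t, chk3 f_A00pm_012_s1 t 11 39 1 = true := ex3_a k220_A00pm_012_s1 t606_A00pm_012_s1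

theorem t608_A00pm_012_s1 : ∃ t, chk3 f_A00pm_012_s1 t 47 155 1 = true := ex3_a k218_A00pm_012_s1 k219_A00pm_012_s1

theorem t609_A00pm_012_s1 : ∃ t, chk3 f_A00pm_012_s1 t 47 154 1 = true := ex3_a k216_A00pm_012_s1 k217_A00pm_012_s1

theorem t610_A00pm_012_s1 : ∃ t, chk3 f_A00pm_012_s1 t 47 77 1 = true := ex3_b t609_A00pm_012_s1 t608_A00pm_012_s1

theorem t611_A00pm_012_s1 : ∃ t, chk3 f_A00pm_012_s1 t 23 77 1 = true := ex3_a k215_A00pm_012_s1 t610_A00pm_012_s1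

theorem t612_A00pm_012_s1 : ∃ t, chk3 f_A00pm_012_s1 t 46 76 1 = true := ex3_b k212_A00pm_012_s1 k213_A00pm_012_s1

theorem t613_A00pm_012_s1 : ∃ t, chk3 f_A00pm_012_s1 t 23 76 1 = true := ex3_a t612_A00pm_012_s1 k214_A00pm_012_s1

theorem t614_A00pm_012_s1 : ∃ t, chk3 f_A00pm_012_s1 t 23 38 1 = true := ex3_b t613_A00pm_012_s1 t611_A00pm_012_s1

theorem t615_A00pm_012_s1 : ∃ t, chk3 f_A00pm_012_s1 t 45 77 1 = true := ex3_b k210_A00pm_012_s1 k211_A00pm_012_s1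

theorem t616_A00pm_012_s1 : ∃ t, chk3 f_A00pm_012_s1 t 22 77 1 = true := ex3_a k209_A00pm_012_s1 t615_A00pm_012_s1

theorem t617_A00pm_012_s1 : ∃ t, chk3 f_A00pm_012_s1 t 45 76 1 = true := ex3_b k207_A00pm_012_s1 k208_A00pm_012_s1

theorem t618_A00pm_012_s1 : ∃ t, chk3 f_A00pm_012_s1 t 44 76 1 = true := ex3_b k205_A00pm_012_s1 k206_A00pm_012_s1

theorem t619_A00pm_012_s1 : ∃ t, chk3 f_A00pm_012_s1 t 22 76 1 = true := ex3_a t618_A00pm_012_s1 t617_A00pm_012_s1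

theorem t620_A00pm_012_s1 : ∃ t, chk3 f_A00pm_012_s1 t 22 38 1 = true := ex3_b t619_A00pm_012_s1 t616_A00pm_012_s1

theorem t621_A00pm_012_s1 : ∃ t, chk3 f_A00pm_012_s1 t 11 38 1 = true := ex3_a t620_A00pm_012_s1 t614_A00pm_012_s1

theorem t622_A00pm_012_s1 : ∃ t, chk3 f_A00pm_012_s1 t 11 19 1 = true := ex3_b t621_A00pm_012_s1 t607_A00pm_012_s1

theorem t623_A00pm_012_s1 : ∃ t, chk3 f_A00pm_012_s1 t 10 19 1 = true := ex3_a k203_A00pm_012_s1 k204_A00pm_012_s1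

theorem t624_A00pm_012_s1 : ∃ t, chk3 f_A00pm_012_s1 t 5 19 1 = true := ex3_a t623_A00pm_012_s1 t622_A00pm_012_s1

theorem t625_A00pm_012_s1 : ∃ t, chk3 f_A00pm_012_s1 t 45 75 1 = true := ex3_b k200_A00pm_012_s1 k201_A00pm_012_s1

theorem t626_A00pm_012_s1 : ∃ t, chk3 f_A00pm_012_s1 t 44 151 1 = true := ex3_a k198_A00pm_012_s1 k199_A00pm_012_s1

theorem t627_A00pm_012_s1 : ∃ t, chk3 f_A00pm_012_s1 t 88 300 1 = true := ex3_c k194_A00pm_012_s1 k195_A00pm_012_s1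

theorem t628_A00pm_012_s1 : ∃ t, chk3 f_A00pm_012_s1 t 88 150 1 = true := ex3_b t627_A00pm_012_s1 k196_A00pm_012_s1

theorem t629_A00pm_012_s1 : ∃ t, chk3 f_A00pm_012_s1 t 44 150 1 = true := ex3_a t628_A00pm_012_s1 k197_A00pm_012_s1

theorem t630_A00pm_012_s1 : ∃ t, chk3 f_A00pm_012_s1 t 44 75 1 = true := ex3_b t629_A00pm_012_s1 t626_A00pm_012_s1

theorem t631_A00pm_012_s1 : ∃ t, chk3 f_A00pm_012_s1 t 22 75 1 = true := ex3_a t630_A00pm_012_s1 t625_A00pm_012_s1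

theorem t632_A00pm_012_s1 : ∃ t, chk3 f_A00pm_012_s1 t 22 37 1 = true := ex3_b k193_A00pm_012_s1 t631_A00pm_012_s1

theorem t633_A00pm_012_s1 : ∃ t, chk3 f_A00pm_012_s1 t 11 37 1 = true := ex3_a t632_A00pm_012_s1 k202_A00pm_012_s1

theorem t634_A00pm_012_s1 : ∃ t, chk3 f_A00pm_012_s1 t 11 18 1 = true := ex3_b k192_A00pm_012_s1 t633_A00pm_012_s1

theorem t635_A00pm_012_s1 : ∃ t, chk3 f_A00pm_012_s1 t 43 75 1 = true := ex3_b k190_A00pm_012_s1 k191_A00pm_012_s1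

theorem t636_A00pm_012_s1 : ∃ t, chk3 f_A00pm_012_s1 t 21 75 1 = true := ex3_a k189_A00pm_012_s1 t635_A00pm_012_s1

theorem t637_A00pm_012_s1 : ∃ t, chk3 f_A00pm_012_s1 t 43 149 1 = true := ex3_a k187_A00pm_012_s1 k188_A00pm_012_s1

theorem t638_A00pm_012_s1 : ∃ t, chk3 f_A00pm_012_s1 t 43 74 1 = true := ex3_b k186_A00pm_012_s1 t637_A00pm_012_s1

theorem t639_A00pm_012_s1 : ∃ t, chk3 f_A00pm_012_s1 t 42 74 1 = true := ex3_b k184_A00pm_012_s1 k185_A00pm_012_s1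

theorem t640_A00pm_012_s1 : ∃ t, chk3 f_A00pm_012_s1 t 21 74 1 = true := ex3_a t639_A00pm_012_s1 t638_A00pm_012_s1

theorem t641_A00pm_012_s1 : ∃ t, chk3 f_A00pm_012_s1 t 21 37 1 = true := ex3_b t640_A00pm_012_s1 t636_A00pm_012_s1

theorem t642_A00pm_012_s1 : ∃ t, chk3 f_A00pm_012_s1 t 10 37 1 = true := ex3_a k183_A00pm_012_s1 t641_A00pm_012_s1

theorem t643_A00pm_012_s1 : ∃ t, chk3 f_A00pm_012_s1 t 84 147 1 = true := ex3_b k179_A00pm_012_s1 k180_A00pm_012_s1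

theorem t644_A00pm_012_s1 : ∃ t, chk3 f_A00pm_012_s1 t 42 147 1 = true := ex3_a t643_A00pm_012_s1 k181_A00pm_012_s1

theorem t645_A00pm_012_s1 : ∃ t, chk3 f_A00pm_012_s1 t 42 73 1 = true := ex3_b k178_A00pm_012_s1 t644_A00pm_012_s1

theorem t646_A00pm_012_s1 : ∃ t, chk3 f_A00pm_012_s1 t 21 73 1 = true := ex3_a t645_A00pm_012_s1 k182_A00pm_012_s1

theorem t647_A00pm_012_s1 : ∃ t, chk3 f_A00pm_012_s1 t 21 36 1 = true := ex3_b k177_A00pm_012_s1 t646_A00pm_012_s1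

theorem t648_A00pm_012_s1 : ∃ t, chk3 f_A00pm_012_s1 t 83 146 1 = true := ex3_b k174_A00pm_012_s1 k175_A00pm_012_s1

theorem t649_A00pm_012_s1 : ∃ t, chk3 f_A00pm_012_s1 t 41 146 1 = true := ex3_a k173_A00pm_012_s1 t648_A00pm_012_s1

theorem t650_A00pm_012_s1 : ∃ t, chk3 f_A00pm_012_s1 t 41 73 1 = true := ex3_b t649_A00pm_012_s1 k176_A00pm_012_s1

theorem t651_A00pm_012_s1 : ∃ t, chk3 f_A00pm_012_s1 t 20 73 1 = true := ex3_a k172_A00pm_012_s1 t650_A00pm_012_s1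

theorem t652_A00pm_012_s1 : ∃ t, chk3 f_A00pm_012_s1 t 41 145 1 = true := ex3_a k170_A00pm_012_s1 k171_A00pm_012_s1

theorem t653_A00pm_012_s1 : ∃ t, chk3 f_A00pm_012_s1 t 41 72 1 = true := ex3_b k169_A00pm_012_s1 t652_A00pm_012_s1

theorem t654_A00pm_012_s1 : ∃ t, chk3 f_A00pm_012_s1 t 40 144 1 = true := ex3_a k166_A00pm_012_s1 k167_A00pm_012_s1

theorem t655_A00pm_012_s1 : ∃ t, chk3 f_A00pm_012_s1 t 40 72 1 = true := ex3_b t654_A00pm_012_s1 k168_A00pm_012_s1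

theorem t656_A00pm_012_s1 : ∃ t, chk3 f_A00pm_012_s1 t 20 72 1 = true := ex3_a t655_A00pm_012_s1 t653_A00pm_012_s1

theorem t657_A00pm_012_s1 : ∃ t, chk3 f_A00pm_012_s1 t 20 36 1 = true := ex3_b t656_A00pm_012_s1 t651_A00pm_012_s1

theorem t658_A00pm_012_s1 : ∃ t, chk3 f_A00pm_012_s1 t 10 36 1 = true := ex3_a t657_A00pm_012_s1 t647_A00pm_012_s1

theorem t659_A00pm_012_s1 : ∃ t, chk3 f_A00pm_012_s1 t 10 18 1 = true := ex3_b t658_A00pm_012_s1 t642_A00pm_012_s1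

theorem t660_A00pm_012_s1 : ∃ t, chk3 f_A00pm_012_s1 t 5 18 1 = true := ex3_a t659_A00pm_012_s1 t634_A00pm_012_s1

theorem t661_A00pm_012_s1 : ∃ t, chk3 f_A00pm_012_s1 t 5 9 1 = true := ex3_b t660_A00pm_012_s1 t624_A00pm_012_s1

theorem t662_A00pm_012_s1 : ∃ t, chk3 f_A00pm_012_s1 t 5 4 1 = true := ex3_b k165_A00pm_012_s1 t661_A00pm_012_s1

theorem t663_A00pm_012_s1 : ∃ t, chk3 f_A00pm_012_s1 t 19 19 1 = true := ex3_b k163_A00pm_012_s1 k164_A00pm_012_s1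

theorem t664_A00pm_012_s1 : ∃ t, chk3 f_A00pm_012_s1 t 9 19 1 = true := ex3_a k162_A00pm_012_s1 t663_A00pm_012_s1

theorem t665_A00pm_012_s1 : ∃ t, chk3 f_A00pm_012_s1 t 39 36 1 = true := ex3_b k159_A00pm_012_s1 k160_A00pm_012_s1

theorem t666_A00pm_012_s1 : ∃ t, chk3 f_A00pm_012_s1 t 19 36 1 = true := ex3_a k158_A00pm_012_s1 t665_A00pm_012_s1

theorem t667_A00pm_012_s1 : ∃ t, chk3 f_A00pm_012_s1 t 19 18 1 = true := ex3_b t666_A00pm_012_s1 k161_A00pm_012_s1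

theorem t668_A00pm_012_s1 : ∃ t, chk3 f_A00pm_012_s1 t 37 36 1 = true := ex3_b k155_A00pm_012_s1 k156_A00pm_012_s1

theorem t669_A00pm_012_s1 : ∃ t, chk3 f_A00pm_012_s1 t 18 36 1 = true := ex3_a k154_A00pm_012_s1 t668_A00pm_012_s1

theorem t670_A00pm_012_s1 : ∃ t, chk3 f_A00pm_012_s1 t 18 18 1 = true := ex3_b t669_A00pm_012_s1 k157_A00pm_012_s1

theorem t671_A00pm_012_s1 : ∃ t, chk3 f_A00pm_012_s1 t 9 18 1 = true := ex3_a t670_A00pm_012_s1 t667_A00pm_012_s1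

theorem t672_A00pm_012_s1 : ∃ t, chk3 f_A00pm_012_s1 t 9 9 1 = true := ex3_b t671_A00pm_012_s1 t664_A00pm_012_s1

theorem t673_A00pm_012_s1 : ∃ t, chk3 f_A00pm_012_s1 t 4 9 1 = true := ex3_a k153_A00pm_012_s1 t672_A00pm_012_s1

theorem t674_A00pm_012_s1 : ∃ t, chk3 f_A00pm_012_s1 t 39 143 1 = true := ex3_a k151_A00pm_012_s1 k152_A00pm_012_s1

theorem t675_A00pm_012_s1 : ∃ t, chk3 f_A00pm_012_s1 t 79 285 1 = true := ex3_a k149_A00pm_012_s1 k150_A00pm_012_s1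

theorem t676_A00pm_012_s1 : ∃ t, chk3 f_A00pm_012_s1 t 79 142 1 = true := ex3_b k148_A00pm_012_s1 t675_A00pm_012_s1

theorem t677_A00pm_012_s1 : ∃ t, chk3 f_A00pm_012_s1 t 39 142 1 = true := ex3_a k147_A00pm_012_s1 t676_A00pm_012_s1

theorem t678_A00pm_012_s1 : ∃ t, chk3 f_A00pm_012_s1 t 39 71 1 = true := ex3_b t677_A00pm_012_s1 t674_A00pm_012_s1

theorem t679_A00pm_012_s1 : ∃ t, chk3 f_A00pm_012_s1 t 19 71 1 = true := ex3_a k146_A00pm_012_s1 t678_A00pm_012_s1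

theorem t680_A00pm_012_s1 : ∃ t, chk3 f_A00pm_012_s1 t 38 141 1 = true := ex3_a k143_A00pm_012_s1 k144_A00pm_012_s1

theorem t681_A00pm_012_s1 : ∃ t, chk3 f_A00pm_012_s1 t 76 281 1 = true := ex3_a k140_A00pm_012_s1 k141_A00pm_012_s1

theorem t682_A00pm_012_s1 : ∃ t, chk3 f_A00pm_012_s1 t 305 560 1 = true := ex3_b k136_A00pm_012_s1 k137_A00pm_012_s1

theorem t683_A00pm_012_s1 : ∃ t, chk3 f_A00pm_012_s1 t 152 560 1 = true := ex3_a k135_A00pm_012_s1 t682_A00pm_012_s1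

theorem t684_A00pm_012_s1 : ∃ t, chk3 f_A00pm_012_s1 t 152 280 1 = true := ex3_b t683_A00pm_012_s1 k138_A00pm_012_s1

theorem t685_A00pm_012_s1 : ∃ t, chk3 f_A00pm_012_s1 t 76 280 1 = true := ex3_a t684_A00pm_012_s1 k139_A00pm_012_s1

theorem t686_A00pm_012_s1 : ∃ t, chk3 f_A00pm_012_s1 t 76 140 1 = true := ex3_b t685_A00pm_012_s1 t681_A00pm_012_s1

theorem t687_A00pm_012_s1 : ∃ t, chk3 f_A00pm_012_s1 t 38 140 1 = true := ex3_a t686_A00pm_012_s1 k142_A00pm_012_s1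

theorem t688_A00pm_012_s1 : ∃ t, chk3 f_A00pm_012_s1 t 38 70 1 = true := ex3_b t687_A00pm_012_s1 t680_A00pm_012_s1

theorem t689_A00pm_012_s1 : ∃ t, chk3 f_A00pm_012_s1 t 19 70 1 = true := ex3_a t688_A00pm_012_s1 k145_A00pm_012_s1

theorem t690_A00pm_012_s1 : ∃ t, chk3 f_A00pm_012_s1 t 19 35 1 = true := ex3_b t689_A00pm_012_s1 t679_A00pm_012_s1

theorem t691_A00pm_012_s1 : ∃ t, chk3 f_A00pm_012_s1 t 304 559 1 = true := ex3_b k129_A00pm_012_s1 k130_A00pm_012_s1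

theorem t692_A00pm_012_s1 : ∃ t, chk3 f_A00pm_012_s1 t 152 559 1 = true := ex3_a t691_A00pm_012_s1 k131_A00pm_012_s1

theorem t693_A00pm_012_s1 : ∃ t, chk3 f_A00pm_012_s1 t 152 279 1 = true := ex3_b k128_A00pm_012_s1 t692_A00pm_012_s1

theorem t694_A00pm_012_s1 : ∃ t, chk3 f_A00pm_012_s1 t 76 279 1 = true := ex3_a t693_A00pm_012_s1 k132_A00pm_012_s1

theorem t695_A00pm_012_s1 : ∃ t, chk3 f_A00pm_012_s1 t 76 139 1 = true := ex3_b k127_A00pm_012_s1 t694_A00pm_012_s1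

theorem t696_A00pm_012_s1 : ∃ t, chk3 f_A00pm_012_s1 t 38 139 1 = true := ex3_a t695_A00pm_012_s1 k133_A00pm_012_s1

theorem t697_A00pm_012_s1 : ∃ t, chk3 f_A00pm_012_s1 t 38 69 1 = true := ex3_b k126_A00pm_012_s1 t696_A00pm_012_s1

theorem t698_A00pm_012_s1 : ∃ t, chk3 f_A00pm_012_s1 t 19 69 1 = true := ex3_a t697_A00pm_012_s1 k134_A00pm_012_s1

theorem t699_A00pm_012_s1 : ∃ t, chk3 f_A00pm_012_s1 t 19 34 1 = true := ex3_b k125_A00pm_012_s1 t698_A00pm_012_s1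

theorem t700_A00pm_012_s1 : ∃ t, chk3 f_A00pm_012_s1 t 19 17 1 = true := ex3_b t699_A00pm_012_s1 t690_A00pm_012_s1

theorem t701_A00pm_012_s1 : ∃ t, chk3 f_A00pm_012_s1 t 75 280 1 = true := ex3_a k120_A00pm_012_s1 k121_A00pm_012_s1

theorem t702_A00pm_012_s1 : ∃ t, chk3 f_A00pm_012_s1 t 75 140 1 = true := ex3_b t701_A00pm_012_s1 k122_A00pm_012_s1

theorem t703_A00pm_012_s1 : ∃ t, chk3 f_A00pm_012_s1 t 75 70 1 = true := ex3_b t702_A00pm_012_s1 k123_A00pm_012_s1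

theorem t704_A00pm_012_s1 : ∃ t, chk3 f_A00pm_012_s1 t 37 70 1 = true := ex3_a k119_A00pm_012_s1 t703_A00pm_012_s1

theorem t705_A00pm_012_s1 : ∃ t, chk3 f_A00pm_012_s1 t 37 35 1 = true := ex3_b t704_A00pm_012_s1 k124_A00pm_012_s1

theorem t706_A00pm_012_s1 : ∃ t, chk3 f_A00pm_012_s1 t 36 35 1 = true := ex3_b k117_A00pm_012_s1 k118_A00pm_012_s1

theorem t707_A00pm_012_s1 : ∃ t, chk3 f_A00pm_012_s1 t 18 35 1 = true := ex3_a t706_A00pm_012_s1 t705_A00pm_012_s1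

theorem t708_A00pm_012_s1 : ∃ t, chk3 f_A00pm_012_s1 t 303 559 1 = true := ex3_b k115_A00pm_012_s1 k116_A00pm_012_s1

theorem t709_A00pm_012_s1 : ∃ t, chk3 f_A00pm_012_s1 t 151 559 1 = true := ex3_a k114_A00pm_012_s1 t708_A00pm_012_s1

theorem t710_A00pm_012_s1 : ∃ t, chk3 f_A00pm_012_s1 t 303 1117 1 = true := ex3_a k112_A00pm_012_s1 k113_A00pm_012_s1

theorem t711_A00pm_012_s1 : ∃ t, chk3 f_A00pm_012_s1 t 303 558 1 = true := ex3_b k111_A00pm_012_s1 t710_A00pm_012_s1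

theorem t712_A00pm_012_s1 : ∃ t, chk3 f_A00pm_012_s1 t 302 1116 2 = true := ex3_a k107_A00pm_012_s1 k108_A00pm_012_s1

theorem t713_A00pm_012_s1 : ∃ t, chk3 f_A00pm_012_s1 t 302 558 2 = true := ex3_b t712_A00pm_012_s1 k109_A00pm_012_s1

theorem t714_A00pm_012_s1 : ∃ t, chk3 f_A00pm_012_s1 t 302 558 1 = true := ex3_c t713_A00pm_012_s1 k110_A00pm_012_s1

theorem t715_A00pm_012_s1 : ∃ t, chk3 f_A00pm_012_s1 t 151 558 1 = true := ex3_a t714_A00pm_012_s1 t711_A00pm_012_s1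

theorem t716_A00pm_012_s1 : ∃ t, chk3 f_A00pm_012_s1 t 151 279 1 = true := ex3_b t715_A00pm_012_s1 t709_A00pm_012_s1

theorem t717_A00pm_012_s1 : ∃ t, chk3 f_A00pm_012_s1 t 150 279 1 = true := ex3_c k105_A00pm_012_s1 k106_A00pm_012_s1

theorem t718_A00pm_012_s1 : ∃ t, chk3 f_A00pm_012_s1 t 75 279 1 = true := ex3_a t717_A00pm_012_s1 t716_A00pm_012_s1

theorem t719_A00pm_012_s1 : ∃ t, chk3 f_A00pm_012_s1 t 604 1115 1 = true := ex3_b k101_A00pm_012_s1 k102_A00pm_012_s1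

theorem t720_A00pm_012_s1 : ∃ t, chk3 f_A00pm_012_s1 t 302 1115 1 = true := ex3_a t719_A00pm_012_s1 k103_A00pm_012_s1

theorem t721_A00pm_012_s1 : ∃ t, chk3 f_A00pm_012_s1 t 302 557 1 = true := ex3_b k100_A00pm_012_s1 t720_A00pm_012_s1

theorem t722_A00pm_012_s1 : ∃ t, chk3 f_A00pm_012_s1 t 151 557 1 = true := ex3_a t721_A00pm_012_s1 k104_A00pm_012_s1

theorem t723_A00pm_012_s1 : ∃ t, chk3 f_A00pm_012_s1 t 151 278 1 = true := ex3_b k99_A00pm_012_s1 t722_A00pm_012_s1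

theorem t724_A00pm_012_s1 : ∃ t, chk3 f_A00pm_012_s1 t 603 1114 1 = true := ex3_b k96_A00pm_012_s1 k97_A00pm_012_s1

theorem t725_A00pm_012_s1 : ∃ t, chk3 f_A00pm_012_s1 t 301 1114 1 = true := ex3_a k95_A00pm_012_s1 t724_A00pm_012_s1

theorem t726_A00pm_012_s1 : ∃ t, chk3 f_A00pm_012_s1 t 301 557 1 = true := ex3_b t725_A00pm_012_s1 k98_A00pm_012_s1

theorem t727_A00pm_012_s1 : ∃ t, chk3 f_A00pm_012_s1 t 150 557 1 = true := ex3_a k94_A00pm_012_s1 t726_A00pm_012_s1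

theorem t728_A00pm_012_s1 : ∃ t, chk3 f_A00pm_012_s1 t 602 1113 1 = true := ex3_b k91_A00pm_012_s1 k92_A00pm_012_s1

theorem t729_A00pm_012_s1 : ∃ t, chk3 f_A00pm_012_s1 t 301 1113 1 = true := ex3_a t728_A00pm_012_s1 k93_A00pm_012_s1

theorem t730_A00pm_012_s1 : ∃ t, chk3 f_A00pm_012_s1 t 301 556 1 = true := ex3_b k90_A00pm_012_s1 t729_A00pm_012_s1

theorem t731_A00pm_012_s1 : ∃ t, chk3 f_A00pm_012_s1 t 300 1112 1 = true := ex3_a k87_A00pm_012_s1 k88_A00pm_012_s1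

theorem t732_A00pm_012_s1 : ∃ t, chk3 f_A00pm_012_s1 t 300 556 1 = true := ex3_b t731_A00pm_012_s1 k89_A00pm_012_s1

theorem t733_A00pm_012_s1 : ∃ t, chk3 f_A00pm_012_s1 t 150 556 1 = true := ex3_a t732_A00pm_012_s1 t730_A00pm_012_s1

theorem t734_A00pm_012_s1 : ∃ t, chk3 f_A00pm_012_s1 t 150 278 1 = true := ex3_b t733_A00pm_012_s1 t727_A00pm_012_s1

theorem t735_A00pm_012_s1 : ∃ t, chk3 f_A00pm_012_s1 t 75 278 1 = true := ex3_a t734_A00pm_012_s1 t723_A00pm_012_s1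

theorem t736_A00pm_012_s1 : ∃ t, chk3 f_A00pm_012_s1 t 75 139 1 = true := ex3_b t735_A00pm_012_s1 t718_A00pm_012_s1

theorem t737_A00pm_012_s1 : ∃ t, chk3 f_A00pm_012_s1 t 149 278 1 = true := ex3_c k84_A00pm_012_s1 k85_A00pm_012_s1

theorem t738_A00pm_012_s1 : ∃ t, chk3 f_A00pm_012_s1 t 149 139 1 = true := ex3_b t737_A00pm_012_s1 k86_A00pm_012_s1

theorem t739_A00pm_012_s1 : ∃ t, chk3 f_A00pm_012_s1 t 148 139 1 = true := ex3_b k82_A00pm_012_s1 k83_A00pm_012_s1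

theorem t740_A00pm_012_s1 : ∃ t, chk3 f_A00pm_012_s1 t 74 139 1 = true := ex3_a t739_A00pm_012_s1 t738_A00pm_012_s1

theorem t741_A00pm_012_s1 : ∃ t, chk3 f_A00pm_012_s1 t 37 139 1 = true := ex3_a t740_A00pm_012_s1 t736_A00pm_012_s1

theorem t742_A00pm_012_s1 : ∃ t, chk3 f_A00pm_012_s1 t 300 555 1 = true := ex3_b k78_A00pm_012_s1 k79_A00pm_012_s1

theorem t743_A00pm_012_s1 : ∃ t, chk3 f_A00pm_012_s1 t 150 555 1 = true := ex3_a t742_A00pm_012_s1 k80_A00pm_012_s1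

theorem t744_A00pm_012_s1 : ∃ t, chk3 f_A00pm_012_s1 t 150 277 1 = true := ex3_b k77_A00pm_012_s1 t743_A00pm_012_s1

theorem t745_A00pm_012_s1 : ∃ t, chk3 f_A00pm_012_s1 t 75 277 1 = true := ex3_a t744_A00pm_012_s1 k81_A00pm_012_s1

theorem t746_A00pm_012_s1 : ∃ t, chk3 f_A00pm_012_s1 t 75 138 1 = true := ex3_b k76_A00pm_012_s1 t745_A00pm_012_s1

theorem t747_A00pm_012_s1 : ∃ t, chk3 f_A00pm_012_s1 t 299 555 1 = true := ex3_b k74_A00pm_012_s1 k75_A00pm_012_s1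

theorem t748_A00pm_012_s1 : ∃ t, chk3 f_A00pm_012_s1 t 149 555 1 = true := ex3_a k73_A00pm_012_s1 t747_A00pm_012_s1

theorem t749_A00pm_012_s1 : ∃ t, chk3 f_A00pm_012_s1 t 149 554 1 = true := ex3_a k71_A00pm_012_s1 k72_A00pm_012_s1

theorem t750_A00pm_012_s1 : ∃ t, chk3 f_A00pm_012_s1 t 149 277 1 = true := ex3_b t749_A00pm_012_s1 t748_A00pm_012_s1

theorem t751_A00pm_012_s1 : ∃ t, chk3 f_A00pm_012_s1 t 148 277 1 = true := ex3_c k69_A00pm_012_s1 k70_A00pm_012_s1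

theorem t752_A00pm_012_s1 : ∃ t, chk3 f_A00pm_012_s1 t 74 277 1 = true := ex3_a t751_A00pm_012_s1 t750_A00pm_012_s1

theorem t753_A00pm_012_s1 : ∃ t, chk3 f_A00pm_012_s1 t 148 276 1 = true := ex3_b k66_A00pm_012_s1 k67_A00pm_012_s1

theorem t754_A00pm_012_s1 : ∃ t, chk3 f_A00pm_012_s1 t 74 276 1 = true := ex3_a t753_A00pm_012_s1 k68_A00pm_012_s1

theorem t755_A00pm_012_s1 : ∃ t, chk3 f_A00pm_012_s1 t 74 138 1 = true := ex3_b t754_A00pm_012_s1 t752_A00pm_012_s1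

theorem t756_A00pm_012_s1 : ∃ t, chk3 f_A00pm_012_s1 t 37 138 1 = true := ex3_a t755_A00pm_012_s1 t746_A00pm_012_s1

theorem t757_A00pm_012_s1 : ∃ t, chk3 f_A00pm_012_s1 t 37 69 1 = true := ex3_b t756_A00pm_012_s1 t741_A00pm_012_s1

theorem t758_A00pm_012_s1 : ∃ t, chk3 f_A00pm_012_s1 t 37 34 1 = true := ex3_b k65_A00pm_012_s1 t757_A00pm_012_s1

theorem t759_A00pm_012_s1 : ∃ t, chk3 f_A00pm_012_s1 t 73 277 1 = true := ex3_a k62_A00pm_012_s1 k63_A00pm_012_s1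

theorem t760_A00pm_012_s1 : ∃ t, chk3 f_A00pm_012_s1 t 73 276 1 = true := ex3_a k60_A00pm_012_s1 k61_A00pm_012_s1

theorem t761_A00pm_012_s1 : ∃ t, chk3 f_A00pm_012_s1 t 73 138 1 = true := ex3_b t760_A00pm_012_s1 t759_A00pm_012_s1

theorem t762_A00pm_012_s1 : ∃ t, chk3 f_A00pm_012_s1 t 73 69 1 = true := ex3_b t761_A00pm_012_s1 k64_A00pm_012_s1

theorem t763_A00pm_012_s1 : ∃ t, chk3 f_A00pm_012_s1 t 36 69 1 = true := ex3_a k59_A00pm_012_s1 t762_A00pm_012_s1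

theorem t764_A00pm_012_s1 : ∃ t, chk3 f_A00pm_012_s1 t 73 275 1 = true := ex3_a k57_A00pm_012_s1 k58_A00pm_012_s1

theorem t765_A00pm_012_s1 : ∃ t, chk3 f_A00pm_012_s1 t 73 137 1 = true := ex3_b k56_A00pm_012_s1 t764_A00pm_012_s1

theorem t766_A00pm_012_s1 : ∃ t, chk3 f_A00pm_012_s1 t 72 274 1 = true := ex3_a k53_A00pm_012_s1 k54_A00pm_012_s1

theorem t767_A00pm_012_s1 : ∃ t, chk3 f_A00pm_012_s1 t 72 137 1 = true := ex3_b t766_A00pm_012_s1 k55_A00pm_012_s1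

theorem t768_A00pm_012_s1 : ∃ t, chk3 f_A00pm_012_s1 t 36 137 1 = true := ex3_a t767_A00pm_012_s1 t765_A00pm_012_s1

theorem t769_A00pm_012_s1 : ∃ t, chk3 f_A00pm_012_s1 t 144 272 1 = true := ex3_b k48_A00pm_012_s1 k49_A00pm_012_s1

theorem t770_A00pm_012_s1 : ∃ t, chk3 f_A00pm_012_s1 t 72 272 1 = true := ex3_a t769_A00pm_012_s1 k50_A00pm_012_s1

theorem t771_A00pm_012_s1 : ∃ t, chk3 f_A00pm_012_s1 t 72 136 1 = true := ex3_b t770_A00pm_012_s1 k51_A00pm_012_s1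

theorem t772_A00pm_012_s1 : ∃ t, chk3 f_A00pm_012_s1 t 36 136 1 = true := ex3_a t771_A00pm_012_s1 k52_A00pm_012_s1

theorem t773_A00pm_012_s1 : ∃ t, chk3 f_A00pm_012_s1 t 36 68 1 = true := ex3_b t772_A00pm_012_s1 t768_A00pm_012_s1

theorem t774_A00pm_012_s1 : ∃ t, chk3 f_A00pm_012_s1 t 36 34 1 = true := ex3_b t773_A00pm_012_s1 t763_A00pm_012_s1

theorem t775_A00pm_012_s1 : ∃ t, chk3 f_A00pm_012_s1 t 18 34 1 = true := ex3_a t774_A00pm_012_s1 t758_A00pm_012_s1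

theorem t776_A00pm_012_s1 : ∃ t, chk3 f_A00pm_012_s1 t 18 17 1 = true := ex3_b t775_A00pm_012_s1 t707_A00pm_012_s1

theorem t777_A00pm_012_s1 : ∃ t, chk3 f_A00pm_012_s1 t 9 17 1 = true := ex3_a t776_A00pm_012_s1 t700_A00pm_012_s1

theorem t778_A00pm_012_s1 : ∃ t, chk3 f_A00pm_012_s1 t 9 8 1 = true := ex3_b k47_A00pm_012_s1 t777_A00pm_012_s1

theorem t779_A00pm_012_s1 : ∃ t, chk3 f_A00pm_012_s1 t 71 136 1 = true := ex3_b k42_A00pm_012_s1 k43_A00pm_012_s1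

theorem t780_A00pm_012_s1 : ∃ t, chk3 f_A00pm_012_s1 t 71 68 1 = true := ex3_b t779_A00pm_012_s1 k44_A00pm_012_s1

theorem t781_A00pm_012_s1 : ∃ t, chk3 f_A00pm_012_s1 t 35 68 1 = true := ex3_a k41_A00pm_012_s1 t780_A00pm_012_s1

theorem t782_A00pm_012_s1 : ∃ t, chk3 f_A00pm_012_s1 t 35 34 1 = true := ex3_b t781_A00pm_012_s1 k45_A00pm_012_s1

theorem t783_A00pm_012_s1 : ∃ t, chk3 f_A00pm_012_s1 t 34 68 1 = true := ex3_a k38_A00pm_012_s1 k39_A00pm_012_s1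

theorem t784_A00pm_012_s1 : ∃ t, chk3 f_A00pm_012_s1 t 34 34 1 = true := ex3_b t783_A00pm_012_s1 k40_A00pm_012_s1

theorem t785_A00pm_012_s1 : ∃ t, chk3 f_A00pm_012_s1 t 17 34 1 = true := ex3_a t784_A00pm_012_s1 t782_A00pm_012_s1

theorem t786_A00pm_012_s1 : ∃ t, chk3 f_A00pm_012_s1 t 17 17 1 = true := ex3_b t785_A00pm_012_s1 k46_A00pm_012_s1

theorem t787_A00pm_012_s1 : ∃ t, chk3 f_A00pm_012_s1 t 8 17 1 = true := ex3_a k37_A00pm_012_s1 t786_A00pm_012_s1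

theorem t788_A00pm_012_s1 : ∃ t, chk3 f_A00pm_012_s1 t 575 1087 1 = true := ex3_c k35_A00pm_012_s1 k36_A00pm_012_s1

theorem t789_A00pm_012_s1 : ∃ t, chk3 f_A00pm_012_s1 t 287 1087 1 = true := ex3_a k34_A00pm_012_s1 t788_A00pm_012_s1

theorem t790_A00pm_012_s1 : ∃ t, chk3 f_A00pm_012_s1 t 287 543 1 = true := ex3_b k33_A00pm_012_s1 t789_A00pm_012_s1

theorem t791_A00pm_012_s1 : ∃ t, chk3 f_A00pm_012_s1 t 143 543 1 = true := ex3_a k32_A00pm_012_s1 t790_A00pm_012_s1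

theorem t792_A00pm_012_s1 : ∃ t, chk3 f_A00pm_012_s1 t 143 271 1 = true := ex3_b k31_A00pm_012_s1 t791_A00pm_012_s1

theorem t793_A00pm_012_s1 : ∃ t, chk3 f_A00pm_012_s1 t 71 271 1 = true := ex3_a k30_A00pm_012_s1 t792_A00pm_012_s1

theorem t794_A00pm_012_s1 : ∃ t, chk3 f_A00pm_012_s1 t 71 135 1 = true := ex3_b k29_A00pm_012_s1 t793_A00pm_012_s1

theorem t795_A00pm_012_s1 : ∃ t, chk3 f_A00pm_012_s1 t 71 67 1 = true := ex3_b k28_A00pm_012_s1 t794_A00pm_012_s1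

theorem t796_A00pm_012_s1 : ∃ t, chk3 f_A00pm_012_s1 t 70 135 1 = true := ex3_a k26_A00pm_012_s1 k27_A00pm_012_s1

theorem t797_A00pm_012_s1 : ∃ t, chk3 f_A00pm_012_s1 t 70 269 1 = true := ex3_a k24_A00pm_012_s1 k25_A00pm_012_s1

theorem t798_A00pm_012_s1 : ∃ t, chk3 f_A00pm_012_s1 t 70 134 1 = true := ex3_b k23_A00pm_012_s1 t797_A00pm_012_s1

theorem t799_A00pm_012_s1 : ∃ t, chk3 f_A00pm_012_s1 t 70 67 1 = true := ex3_b t798_A00pm_012_s1 t796_A00pm_012_s1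

theorem t800_A00pm_012_s1 : ∃ t, chk3 f_A00pm_012_s1 t 35 67 1 = true := ex3_a t799_A00pm_012_s1 t795_A00pm_012_s1

theorem t801_A00pm_012_s1 : ∃ t, chk3 f_A00pm_012_s1 t 35 33 1 = true := ex3_b k22_A00pm_012_s1 t800_A00pm_012_s1

theorem t802_A00pm_012_s1 : ∃ t, chk3 f_A00pm_012_s1 t 69 134 1 = true := ex3_a k19_A00pm_012_s1 k20_A00pm_012_s1

theorem t803_A00pm_012_s1 : ∃ t, chk3 f_A00pm_012_s1 t 69 67 1 = true := ex3_b t802_A00pm_012_s1 k21_A00pm_012_s1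

theorem t804_A00pm_012_s1 : ∃ t, chk3 f_A00pm_012_s1 t 34 67 1 = true := ex3_a k18_A00pm_012_s1 t803_A00pm_012_s1

theorem t805_A00pm_012_s1 : ∃ t, chk3 f_A00pm_012_s1 t 138 133 1 = true := ex3_b k15_A00pm_012_s1 k16_A00pm_012_s1

theorem t806_A00pm_012_s1 : ∃ t, chk3 f_A00pm_012_s1 t 69 133 1 = true := ex3_a t805_A00pm_012_s1 k17_A00pm_012_s1

theorem t807_A00pm_012_s1 : ∃ t, chk3 f_A00pm_012_s1 t 69 66 1 = true := ex3_b k14_A00pm_012_s1 t806_A00pm_012_s1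

theorem t808_A00pm_012_s1 : ∃ t, chk3 f_A00pm_012_s1 t 137 266 1 = true := ex3_a k11_A00pm_012_s1 k12_A00pm_012_s1

theorem t809_A00pm_012_s1 : ∃ t, chk3 f_A00pm_012_s1 t 137 133 1 = true := ex3_b t808_A00pm_012_s1 k13_A00pm_012_s1

theorem t810_A00pm_012_s1 : ∃ t, chk3 f_A00pm_012_s1 t 68 133 1 = true := ex3_a k10_A00pm_012_s1 t809_A00pm_012_s1

theorem t811_A00pm_012_s1 : ∃ t, chk3 f_A00pm_012_s1 t 137 265 1 = true := ex3_b k8_A00pm_012_s1 k9_A00pm_012_s1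

theorem t812_A00pm_012_s1 : ∃ t, chk3 f_A00pm_012_s1 t 137 132 1 = true := ex3_b k7_A00pm_012_s1 t811_A00pm_012_s1

theorem t813_A00pm_012_s1 : ∃ t, chk3 f_A00pm_012_s1 t 136 265 1 = true := ex3_a k5_A00pm_012_s1 k6_A00pm_012_s1

theorem t814_A00pm_012_s1 : ∃ t, chk3 f_A00pm_012_s1 t 136 529 1 = true := ex3_a k3_A00pm_012_s1 k4_A00pm_012_s1

theorem t815_A00pm_012_s1 : ∃ t, chk3 f_A00pm_012_s1 t 136 264 1 = true := ex3_b k2_A00pm_012_s1 t814_A00pm_012_s1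

theorem t816_A00pm_012_s1 : ∃ t, chk3 f_A00pm_012_s1 t 136 132 1 = true := ex3_b t815_A00pm_012_s1 t813_A00pm_012_s1

theorem t817_A00pm_012_s1 : ∃ t, chk3 f_A00pm_012_s1 t 68 132 1 = true := ex3_a t816_A00pm_012_s1 t812_A00pm_012_s1

theorem t818_A00pm_012_s1 : ∃ t, chk3 f_A00pm_012_s1 t 68 66 1 = true := ex3_b t817_A00pm_012_s1 t810_A00pm_012_s1

theorem t819_A00pm_012_s1 : ∃ t, chk3 f_A00pm_012_s1 t 34 66 1 = true := ex3_a t818_A00pm_012_s1 t807_A00pm_012_s1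

theorem t820_A00pm_012_s1 : ∃ t, chk3 f_A00pm_012_s1 t 34 33 1 = true := ex3_b t819_A00pm_012_s1 t804_A00pm_012_s1

theorem t821_A00pm_012_s1 : ∃ t, chk3 f_A00pm_012_s1 t 17 33 1 = true := ex3_a t820_A00pm_012_s1 t801_A00pm_012_s1

theorem t822_A00pm_012_s1 : ∃ t, chk3 f_A00pm_012_s1 t 17 16 1 = true := ex3_b k1_A00pm_012_s1 t821_A00pm_012_s1

theorem t823_A00pm_012_s1 : ∃ t, chk3 f_A00pm_012_s1 t 8 16 1 = true := ex3_a k0_A00pm_012_s1 t822_A00pm_012_s1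

theorem t824_A00pm_012_s1 : ∃ t, chk3 f_A00pm_012_s1 t 8 8 1 = true := ex3_b t823_A00pm_012_s1 t787_A00pm_012_s1

theorem t825_A00pm_012_s1 : ∃ t, chk3 f_A00pm_012_s1 t 4 8 1 = true := ex3_a t824_A00pm_012_s1 t778_A00pm_012_s1

theorem t826_A00pm_012_s1 : ∃ t, chk3 f_A00pm_012_s1 t 4 4 1 = true := ex3_b t825_A00pm_012_s1 t673_A00pm_012_s1

theorem t827_A00pm_012_s1 : ∃ t, chk3 f_A00pm_012_s1 t 2 4 1 = true := ex3_a t826_A00pm_012_s1 t662_A00pm_012_s1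

theorem t828_A00pm_012_s1 : ∃ t, chk3 f_A00pm_012_s1 t 2 2 1 = true := ex3_b t827_A00pm_012_s1 t599_A00pm_012_s1

theorem t829_A00pm_012_s1 : ∃ t, chk3 f_A00pm_012_s1 t 1 2 1 = true := ex3_a t828_A00pm_012_s1 t590_A00pm_012_s1

theorem t830_A00pm_012_s1 : ∃ t, chk3 f_A00pm_012_s1 t 1 1 1 = true := ex3_b t829_A00pm_012_s1 t418_A00pm_012_s1

theorem c_A00pm_012_s1 : CertF 0 536870912 536870912 536870912 697932185 42949674 true true false .pnp 0 1 2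
    ndB0q0 ndB0q1 pcB2 cut_A00pm_012_s1 xt_A00pm_012_s1 :=
  certF1 (fam := true) (s1 := true) (s2 := false) (a := 0) (b := 1) (c := 2) (cn := .pnp) (n1 := ndB0q0) (n2 := ndB0q1) (pc := pcB2) (cut := cut_A00pm_012_s1) (xt := xt_A00pm_012_s1) (P1 := 0) (W1 := 536870912) (P2 := 536870912) (W2 := 536870912) (P3 := 697932185) (W3 := 42949674)
    rfl (fun _ => rfl) t830_A00pm_012_s1

theorem s_A00pm_012_s1 {κ x : ℝ} (hκ : κ * h0 = ken x) (hx : ((697932185 : ℕ) : ℝ) / S ≤ x)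
    (hx' : x ≤ (((697932185 : ℕ) : ℝ) + (42949674 : ℕ)) / S)
    (H : CutA (VFD κ) PP tK tL pcB (Cut.of [[⟨0, 0, 0, 33554432⟩, ⟨1, 1, 0, 33554432⟩, ⟨2, 1, 0, 33554432⟩]]) 0 1 2 0 0 (sgb true) (sgb false) x) :
    AltA (VFD κ) PP tK tL pcB [⟨3, 0, 0, 1449551462⟩] 0 1 2 0 0 (sgb true) (sgb false) x :=
  strip_altAD (m := 1449551462) true rfl hκ (SH.κ0 hκ (SH.hx1 hx).le (SH.hx2 hx').le) (SH.hx1 hx).le (SH.hx2 hx') (covB00).cov (covB01).cov hx hx' c_A00pm_012_s1 H ((okx6 hx hx').extA (T := tt) (okx hx hx') (sideB hx hx') hκ rfl rfl (.O 0 true) (.O 1 false) rfl)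

end Pool.Agent.Strip051.G.I6500_6900.Tab.St.C
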