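import Pool.Agent.Strip051.G.I6500_6900.Tab
import Pool.Agent.Strip051.PB.StripB

/-! # Strips, near vertex: certificates 0 (generated) -/

set_option linter.all false
set_option maxRecDepth 100000

namespace Pool.Agent.Strip051.G.I6500_6900.Tab.CS.BA00

open Pool.Agent.Strip051.PB Pool.Agent.Strip051.PB.T
open Pool.Agent.Strip051.G.I6500_6900.Tab

noncomputable def cut_pp_001_s : Cut := Cut.of [[⟨4, 0, 0, 1449551462⟩]]

noncomputable def f_pp_001_s : ℕ → ℕ → ℕ → ℕ → Bool := onCell 0 536870912 0 536870912 697932185 42949674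
    (rowNE 3 eng mog cd0q0 cd0q0 pd1 0 true true true .up 0 0 1 (qsf 0 536870912 0 536870912 1) ndB0q0 ndB0q0 pcB1 cut_pp_001_s Ext.none)

def k0_pp_001_s : ∃ t, chk3 f_pp_001_s t 1 1 1 = true :=
  ⟨(l 4), by decide +kernel⟩

theorem c_pp_001_s : CertNE 0 536870912 0 536870912 697932185 42949674 3 eng mog cd0q0 cd0q0 pd1 true true true .up 0 0 1
    ndB0q0 ndB0q0 pcB1 cut_pp_001_s Ext.none :=
  certNE0 (fam := true) (s1 := true) (s2 := true) (a := 0) (b := 0) (c := 1) (cn := .up) (n1 := ndB0q0) (n2 := ndB0q0) (pc := pcB1) (cut := cut_pp_001_s) (xt := Ext.none) (P1 := 0) (W1 := 536870912) (P2 := 0) (W2 := 536870912) (P3 := 697932185) (W3 := 42949674) (N0 := 3) (En := eng) (mo := mog) (C1 := cd0q0) (C2 := cd0q0) (C3 := pd1)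
    rfl k0_pp_001_s

noncomputable def cut_pp_001_t : Cut := Cut.of [[⟨3, 0, 0, 2845415833⟩]]

noncomputable def f_pp_001_t : ℕ → ℕ → ℕ → ℕ → Bool := onCell 0 536870912 0 536870912 697932185 42949674
    (rowNE 3 eng mog cd0q0 cd0q0 pd1 0 true true true .up 0 0 1 (qsf 0 536870912 0 536870912 1) ndB0q0 ndB0q0 pcB1 cut_pp_001_t Ext.none)

def k0_pp_001_t : ∃ t, chk3 f_pp_001_t t 1 1 1 = true :=
  ⟨(l 4), by decide +kernel⟩

theorem c_pp_001_t : CertNE 0 536870912 0 536870912 697932185 42949674 3 eng mog cd0q0 cd0q0 pd1 true true true .up 0 0 1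
    ndB0q0 ndB0q0 pcB1 cut_pp_001_t Ext.none :=
  certNE0 (fam := true) (s1 := true) (s2 := true) (a := 0) (b := 0) (c := 1) (cn := .up) (n1 := ndB0q0) (n2 := ndB0q0) (pc := pcB1) (cut := cut_pp_001_t) (xt := Ext.none) (P1 := 0) (W1 := 536870912) (P2 := 0) (W2 := 536870912) (P3 := 697932185) (W3 := 42949674) (N0 := 3) (En := eng) (mo := mog) (C1 := cd0q0) (C2 := cd0q0) (C3 := pd1)
    rfl k0_pp_001_t

noncomputable def cut_pp_011_s : Cut := Cut.of [[⟨4, 0, 0, 1449551462⟩], [⟨0, 0, 0, 67108864⟩, ⟨1, 1, 0, 67108864⟩, ⟨2, 1, 0, 67108864⟩]]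

noncomputable def f_pp_011_s : ℕ → ℕ → ℕ → ℕ → Bool := onCell 0 536870912 536870912 536870912 697932185 42949674
    (rowNE 3 eng mog cd0q0 cd0q1 pd1 0 true true true .pnn 0 1 1 (qsf 0 536870912 536870912 536870912 1) ndB0q0 ndB0q1 pcB1 cut_pp_011_s Ext.none)

def k0_pp_011_s : ∃ t, chk3 f_pp_011_s t 1 1 1 = true :=
  ⟨(l 6), by decide +kernel⟩

theorem c_pp_011_s : CertNE 0 536870912 536870912 536870912 697932185 42949674 3 eng mog cd0q0 cd0q1 pd1 true true true .pnn 0 1 1
    ndB0q0 ndB0q1 pcB1 cut_pp_011_s Ext.none :=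
  certNE0 (fam := true) (s1 := true) (s2 := true) (a := 0) (b := 1) (c := 1) (cn := .pnn) (n1 := ndB0q0) (n2 := ndB0q1) (pc := pcB1) (cut := cut_pp_011_s) (xt := Ext.none) (P1 := 0) (W1 := 536870912) (P2 := 536870912) (W2 := 536870912) (P3 := 697932185) (W3 := 42949674) (N0 := 3) (En := eng) (mo := mog) (C1 := cd0q0) (C2 := cd0q1) (C3 := pd1)
    rfl k0_pp_011_s

noncomputable def cut_pp_011_t : Cut := Cut.of [[⟨3, 0, 0, 2845415833⟩], [⟨0, 0, 0, 67108864⟩, ⟨1, 1, 0, 67108864⟩, ⟨2, 1, 0, 67108864⟩]]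

noncomputable def f_pp_011_t : ℕ → ℕ → ℕ → ℕ → Bool := onCell 0 536870912 536870912 536870912 697932185 42949674
    (rowNE 3 eng mog cd0q0 cd0q1 pd1 0 true true true .pnn 0 1 1 (qsf 0 536870912 536870912 536870912 1) ndB0q0 ndB0q1 pcB1 cut_pp_011_t Ext.none)

def k0_pp_011_t : ∃ t, chk3 f_pp_011_t t 1 1 1 = true :=
  ⟨(b (l 4) (a (b (l 4) (a (b (l 4) (a (b (l 4) (a (l 14) (l 4))) (l 4))) (l 4))) (l 4))), by decide +kernel⟩

theorem c_pp_011_t : CertNE 0 536870912 536870912 536870912 697932185 42949674 3 eng mog cd0q0 cd0q1 pd1 true true true .pnn 0 1 1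
    ndB0q0 ndB0q1 pcB1 cut_pp_011_t Ext.none :=
  certNE0 (fam := true) (s1 := true) (s2 := true) (a := 0) (b := 1) (c := 1) (cn := .pnn) (n1 := ndB0q0) (n2 := ndB0q1) (pc := pcB1) (cut := cut_pp_011_t) (xt := Ext.none) (P1 := 0) (W1 := 536870912) (P2 := 536870912) (W2 := 536870912) (P3 := 697932185) (W3 := 42949674) (N0 := 3) (En := eng) (mo := mog) (C1 := cd0q0) (C2 := cd0q1) (C3 := pd1)
    rfl k0_pp_011_t

noncomputable def cut_pp_012_s : Cut := Cut.of [[⟨4, 0, 0, 1449551462⟩], [⟨0, 0, 0, 67108864⟩, ⟨1, 1, 0, 67108864⟩, ⟨2, 1, 0, 67108864⟩]]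

noncomputable def f_pp_012_s : ℕ → ℕ → ℕ → ℕ → Bool := onCell 0 536870912 536870912 536870912 697932185 42949674
    (rowNE 3 eng mog cd0q0 cd0q1 pd2 0 true true true .pnp 0 1 2 (qsf 0 536870912 536870912 536870912 2) ndB0q0 ndB0q1 pcB2 cut_pp_012_s Ext.none)

def k0_pp_012_s : ∃ t, chk3 f_pp_012_s t 1 1 1 = true :=
  ⟨(l 6), by decide +kernel⟩

theorem c_pp_012_s : CertNE 0 536870912 536870912 536870912 697932185 42949674 3 eng mog cd0q0 cd0q1 pd2 true true true .pnp 0 1 2
    ndB0q0 ndB0q1 pcB2 cut_pp_012_s Ext.none :=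
  certNE0 (fam := true) (s1 := true) (s2 := true) (a := 0) (b := 1) (c := 2) (cn := .pnp) (n1 := ndB0q0) (n2 := ndB0q1) (pc := pcB2) (cut := cut_pp_012_s) (xt := Ext.none) (P1 := 0) (W1 := 536870912) (P2 := 536870912) (W2 := 536870912) (P3 := 697932185) (W3 := 42949674) (N0 := 3) (En := eng) (mo := mog) (C1 := cd0q0) (C2 := cd0q1) (C3 := pd2)
    rfl k0_pp_012_s

noncomputable def cut_pp_012_t : Cut := Cut.of [[⟨3, 0, 0, 2845415833⟩], [⟨0, 0, 0, 67108864⟩, ⟨1, 1, 0, 67108864⟩, ⟨2, 1, 0, 67108864⟩]]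

noncomputable def f_pp_012_t : ℕ → ℕ → ℕ → ℕ → Bool := onCell 0 536870912 536870912 536870912 697932185 42949674
    (rowNE 3 eng mog cd0q0 cd0q1 pd2 0 true true true .pnp 0 1 2 (qsf 0 536870912 536870912 536870912 2) ndB0q0 ndB0q1 pcB2 cut_pp_012_t Ext.none)

def k0_pp_012_t : ∃ t, chk3 f_pp_012_t t 1 1 1 = true :=
  ⟨(b (l 4) (a (b (l 4) (a (b (l 4) (a (b (l 4) (a (l 14) (l 4))) (l 4))) (l 4))) (l 4))), by decide +kernel⟩

theorem c_pp_012_t : CertNE 0 536870912 536870912 536870912 697932185 42949674 3 eng mog cd0q0 cd0q1 pd2 true true true .pnp 0 1 2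
    ndB0q0 ndB0q1 pcB2 cut_pp_012_t Ext.none :=
  certNE0 (fam := true) (s1 := true) (s2 := true) (a := 0) (b := 1) (c := 2) (cn := .pnp) (n1 := ndB0q0) (n2 := ndB0q1) (pc := pcB2) (cut := cut_pp_012_t) (xt := Ext.none) (P1 := 0) (W1 := 536870912) (P2 := 536870912) (W2 := 536870912) (P3 := 697932185) (W3 := 42949674) (N0 := 3) (En := eng) (mo := mog) (C1 := cd0q0) (C2 := cd0q1) (C3 := pd2)
    rfl k0_pp_012_t

noncomputable def cut_pp_022_s : Cut := Cut.of [[⟨4, 0, 0, 1449551462⟩], [⟨0, 0, 0, 53687091⟩, ⟨1, 1, 0, 53687091⟩, ⟨2, 1, 0, 53687091⟩]]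

noncomputable def f_pp_022_s : ℕ → ℕ → ℕ → ℕ → Bool := onCell 0 536870912 0 536870912 697932185 42949674
    (rowNE 3 eng mog cd0q0 cd0q2 pd2 0 true true true .pp 0 2 2 (qsf 0 536870912 0 536870912 2) ndB0q0 ndB0q2 pcB2 cut_pp_022_s Ext.none)

def k0_pp_022_s : ∃ t, chk3 f_pp_022_s t 1 1 1 = true :=
  ⟨(l 6), by decide +kernel⟩

theorem c_pp_022_s : CertNE 0 536870912 0 536870912 697932185 42949674 3 eng mog cd0q0 cd0q2 pd2 true true true .pp 0 2 2
    ndB0q0 ndB0q2 pcB2 cut_pp_022_s Ext.none :=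
  certNE0 (fam := true) (s1 := true) (s2 := true) (a := 0) (b := 2) (c := 2) (cn := .pp) (n1 := ndB0q0) (n2 := ndB0q2) (pc := pcB2) (cut := cut_pp_022_s) (xt := Ext.none) (P1 := 0) (W1 := 536870912) (P2 := 0) (W2 := 536870912) (P3 := 697932185) (W3 := 42949674) (N0 := 3) (En := eng) (mo := mog) (C1 := cd0q0) (C2 := cd0q2) (C3 := pd2)
    rfl k0_pp_022_s

noncomputable def cut_pp_022_t : Cut := Cut.of [[⟨3, 0, 0, 2845415833⟩], [⟨0, 0, 0, 53687091⟩, ⟨1, 1, 0, 53687091⟩, ⟨2, 1, 0, 53687091⟩]]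

noncomputable def f_pp_022_t : ℕ → ℕ → ℕ → ℕ → Bool := onCell 0 536870912 0 536870912 697932185 42949674
    (rowNE 3 eng mog cd0q0 cd0q2 pd2 0 true true true .pp 0 2 2 (qsf 0 536870912 0 536870912 2) ndB0q0 ndB0q2 pcB2 cut_pp_022_t Ext.none)

def k0_pp_022_t : ∃ t, chk3 f_pp_022_t t 2 2 1 = true :=
  ⟨(a (b (l 6) (a (l 6) (b (l 6) (b (l 6) (a (a (l 6) (b (l 6) (l 16570712))) (a (l 16594120) (l 16612376))))))) (b (a (l 6) (a (l 6) (b (l 6) (b (l 6) (l 16675864))))) (a (b (a (l 6) (b (l 6) (l 16591928))) (a (a (b (l 16583152) (l 16625320)) (b (l 16593680) (l 16638304))) (b (a (l 16605352) (l 16618456)) (a (l 16660928) (a (l 16639296) (l 16646272)))))) (b (a (a (b (l 16594848) (l 16613048)) (b (l 16609128) (l 16627512))) (b (l 16632856) (a (l 16641832) (l 16655808)))) (a (b (a (b (l 16627512) (l 16638072)) (l 16689176)) (a (c (l 16699416) (l 16688272)) (b (l 16685728) (a (l 16675168) (l 16682472))))) (b (a (l 16692944) (l 16701672)) (a (a (l 16714240) (l 16721384))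 (b (l 16714040) (b (l 16724616) (l 16732320)))))))))), by decide +kernel⟩

def k1_pp_022_t : ∃ t, chk3 f_pp_022_t t 8 6 1 = true :=
  ⟨(b (b (b (l 6) (a (l 6) (a (l 6) (a (l 16568104) (b (l 16590072) (l 16597232)))))) (b (a (l 6) (a (a (l 16575256) (l 16579080)) (a (l 16583216) (l 16608616)))) (a (a (a (l 6) (l 16572880)) (a (l 16581336) (l 16586576))) (a (a (l 16590312) (l 16594368)) (a (b (l 16594744) (l 16602696)) (l 16603376)))))) (a (b (a (a (b (l 16594928) (a (l 16581696) (l 16586592))) (b (l 16583168) (b (l 16590992) (l 16596336)))) (b (a (l 16591888) (l 16600176)) (a (l 16602696) (l 16611288)))) (a (b (a (b (l 16592008) (l 16597504)) (a (l 16602208) (l 16607000))) (a (a (l 16614480) (l 16630208)) (c (l 16639256) (l 16636304)))) (b (a (b (l 16611040) (l 16616888)) (b (l 16619872) (l 16625880))) (a (b (l 16623152) (l 16629856)) (b (l 16632296) (l 16639144)))))) (a (b (b (a (l 16606368) (l 16610664)) (a (l 16619544) (l 16627520))) (b (a (l 16631456) (l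 16639768)) (a (b (l 16641096) (l 16648072)) (b (l 16649632) (l 16656744))))) (b (b (a (l 16615256) (l 16620112)) (a (l 16633000) (l 16638072))) (b (a (l 16647880) (l 16655840)) (a (l 16661584) (l 16669848))))))), by decide +kernel⟩

def k2_pp_022_t : ∃ t, chk3 f_pp_022_t t 9 6 1 = true :=
  ⟨(b (a (b (b (a (l 16590544) (l 16604376)) (a (a (l 16579288) (l 16586432)) (l 16617960))) (a (b (a (b (l 16610480) (a (l 16595104) (l 16598232))) (l 16600192)) (a (b (a (l 16602936) (l 16605616)) (l 16612336)) (b (l 16610824) (a (l 16637512) (l 16620080))))) (b (a (l 16607376) (l 16614488)) (b (l 16642680) (l 16650184))))) (b (a (c (b (l 16597336) (l 16611160)) (l 16603552)) (b (l 16610544) (l 16624688))) (a (b (a (l 16621568) (l 16628616)) (a (l 16636264) (l 16664408))) (b (l 16639176) (l 16668592))))) (a (b (a (a (b (b (l 16620824) (l 16629624)) (l 16643384)) (b (a (b (l 16624800) (l 16633656)) (b (l 16627952) (l 16657464))) (l 16648936))) (b (a (b (l 16633432) (l 16662640))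 (l 16665840)) (a (b (a (c (l 16669896) (l 16627448)) (l 16652096)) (b (l 16662472) (l 16661976))) (b (l 16657664) (l 16666624))))) (a (b (a (l 16662544) (l 16668296)) (a (l 16678024) (l 16686088))) (b (b (a (l 16669320) (a (l 16674136) (l 16677776))) (a (l 16679224) (a (l 16683920) (l 16687320)))) (a (l 16693912) (b (l 16705888) (l 16705160)))))) (b (b (b (a (a (l 16648024) (l 16655264)) (a (l 16662512) (l 16669760))) (a (a (l 16656352) (l 16663640)) (l 16674576))) (b (a (a (l 16665032) (l 16672368)) (l 16693848)) (a (l 16677728) (l 16699024)))) (a (b (a (l 16688136) (l 16695576)) (a (a (b (l 16700528) (l 16710160)) (b (l 16704256) (l 16713736))) (b (l 16709880) (l 16719360)))) (b (a (l 16713488) (b (l 16705616) (l 16715240))) (a (b (l 16717352) (l 16726864)) (c (l 16740024) (l 16729736)))))))), by decide +kernel⟩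

def k3_pp_022_t : ∃ t, chk3 f_pp_022_t t 16 14 1 = true :=
  ⟨(b (b (a (a (a (b (l 16614064) (l 16621400)) (b (l 16619400) (l 16626792))) (a (b (l 16624592) (l 16632040)) (l 16643872))) (a (a (l 16659328) (l 16664176)) (a (l 16668912) (l 16673552)))) (a (a (a (b (l 16629208) (l 16637496)) (b (l 16634648) (l 16642976))) (b (a (l 16639952) (l 16645120)) (a (l 16648312) (l 16653528)))) (a (b (a (l 16650168) (l 16655096)) (a (l 16658616) (l 16663600))) (b (l 16672784) (a (l 16668472) (l 16673248)))))) (b (a (a (a (b (l 16646200) (c (l 16656808) (l 16653800))) (b (l 16651712) (l 16671328))) (b (a (l 16657088) (l 16662336)) (a (l 16666248) (l 16671528)))) (a (b (a (l 16667464) (l 16672488)) (a (l 16676696) (l 16681752))) (b (a (l 16677408) (l 16682224)) (a (l 16686712) (l 16691568))))) (a (a (a (b (c (l 16666248) (l 16663416)) (l 14)) (b (c (l 16671712) (l 16669056)) (c (l 16692072) (l 16689616)))) (b (a (c (l 16677056) (l 16674568)) (l 16692592)) (a (c (l 16686952)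 (l 16684664)) (c (l 16692192) (l 16690072))))) (a (b (a (l 16696800) (l 16701896)) (a (c (l 16697336) (l 16695360)) (c (l 16702368) (l 16700552)))) (b (a (l 16706880) (l 16711784)) (a (c (l 16707312) (l 16705640)) (c (l 16712176) (l 16710640)))))))), by decide +kernel⟩

def k4_pp_022_t : ∃ t, chk3 f_pp_022_t t 17 14 1 = true :=
  ⟨(b (b (a (a (a (l 16678104) (l 16682576)) (a (l 16676504) (l 16680864))) (a (b (l 16672840) (l 16680864)) (b (l 16691768) (l 16699896)))) (b (a (a (l 16682048) (l 16680528)) (a (l 16699784) (l 16708408))) (a (a (a (l 16677928) (l 16682528)) (a (l 16687056) (l 16691520))) (a (a (l 16695936) (l 16700320)) (a (l 16704664) (l 16708992)))))) (b (a (a (b (a (l 16686960) (l 16691608)) (a (l 16696344) (l 16701040))) (b (a (l 16696176) (l 16700680)) (a (l 16705656) (l 16710200)))) (a (b (a (l 16705128) (l 16709544)) (c (l 16725376) (l 16726800))) (b (c (l 16727144) (l 16715544)) (a (l 16723544) (l 16738416))))) (a (a (b (a (l 16716592) (l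 16721328)) (a (c (l 16716952) (l 16715552)) (c (l 16721656) (l 16720384)))) (b (a (l 16725984) (l 16730576)) (a (c (l 16726288) (l 16725144)) (c (l 16741352) (l 16729840))))) (b (a (a (l 16729864) (c (l 16729584) (l 16728600))) (b (a (l 16730992) (l 16735392)) (c (l 16743928) (l 16748384)))) (a (b (a (l 16732304) (l 16736808)) (a (l 16737552) (l 16747320))) (b (a (l 16741272) (l 16750944)) (a (l 16751800) (c (l 16751264) (l 16750720))))))))), by decide +kernel⟩

def k5_pp_022_t : ∃ t, chk3 f_pp_022_t t 16 15 1 = true :=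
  ⟨(b (a (a (l 14) (b (b (b (a (c (l 16694632) (l 16692512)) (l 16709400)) (a (l 14) (c (l 16705168) (l 16703320)))) (l 14)) (l 14))) (a (b (b (b (a (l 16704144) (l 16709272)) (a (c (l 16710328) (l 16708632)) (c (l 16715392) (l 16713840)))) (a (b (c (l 16715720) (l 16714144)) (c (l 16721224) (l 16719776))) (b (c (l 16720792) (l 16719360)) (c (l 16726296) (l 16724992))))) (b (a (l 14) (a (b (l 16735312) (l 14)) (b (l 16737864) (c (l 16738960) (l 16737960))))) (l 14))) (b (b (a (c (b (l 16715064) (l 16720360)) (l 16721496)) (b (l 16719256) (l 16729864))) (a (b (c (l 16725768) (l 16724480)) (c (l 16731288) (l 16730120))) (b (c (l 16730672) (l 16729520)) (c (l 16736192) (l 16735168))))) (b (a (a (b (l 16740392) (c (l 16741456) (l 16740528))) (b (l 16741592) (c (l 16743928) (l 16743072)))) (b (c (a (l 16740616) (l 16743056)) (l 16743568)) (c (a (l 16746392) (l 16748832)) (a (l 16745600) (l 16748104))))) (a (b (c (a (l 16749968) (l 16752448)) (a (l 16746568) (l 16749112)))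 (l 14)) (b (c (a (b (l 16750800) (l 16753776)) (b (l 16753240) (l 16756216))) (a (l 16754264) (l 16756768))) (b (c (a (l 16756784) (l 16759224)) (a (l 16756256) (l 16758760))) (c (a (l 16759824) (l 16763576)) (a (l 16759368) (l 16761880)))))))))) (a (l 14) (b (a (l 14) (b (b (a (l 14) (a (l 14) (a (b (c (l 16764728) (l 16764400)) (l 14)) (b (c (l 16765944) (l 16765648)) (b (l 16769456) (l 14)))))) (l 14)) (l 14))) (l 14)))), by decide +kernel⟩

def k6_pp_022_t : ∃ t, chk3 f_pp_022_t t 34 60 1 = true :=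
  ⟨(a (b (a (b (l 16724120) (l 16734744)) (c (b (l 16729464) (l 16734808)) (l 16737632))) (b (a (c (l 16735496) (l 16734472)) (c (l 16740248) (l 16739352))) (a (c (l 16746272) (l 16740128)) (c (l 16749720) (l 16745024))))) (b (b (a (l 16744120) (l 16743536)) (a (c (l 16739480) (l 16738600)) (c (l 16744096) (l 16743336)))) (b (a (c (l 16744936) (l 16744168)) (c (l 16754808) (l 16748912))) (a (c (a (l 16749320) (l 16751656)) (l 16755088)) (c (c (l 16757888) (l 16760248)) (a (l 16753424) (l 16755784))))))), by decide +kernel⟩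

def k7_pp_022_t : ∃ t, chk3 f_pp_022_t t 68 61 1 = true :=
  ⟨(a (c (b (b (a (l 16745472) (l 16747880)) (a (l 16751256) (l 16756280))) (b (a (c (l 16759904) (l 16757024)) (c (l 16762296) (l 16762072))) (b (a (l 16761656) (l 16765368)) (a (c (l 16764776) (l 16764608)) (c (l 16768472) (l 16767032)))))) (b (b (a (l 16744680) (l 16747144)) (a (l 16750592) (l 16753064))) (b (a (l 16758928) (b (l 16757584) (l 16760640))) (b (a (l 16761248) (l 16763720)) (a (l 16766992) (c (l 16766904) (l 16766776))))))) (a (c (b (b (l 16750264) (l 16758672)) (b (b (l 16760464) (l 16763440)) (a (b (l 16765856) (l 16770208)) (b (l 16767048) (l 16770744))))) (b (b (l 16749592) (l 16755512)) (b (c (l 16764280) (l 16764088)) (b (l 16768800) (a (l 16768680) (l 16771216)))))) (b (b (c (l 16752632) (l 16752024)) (c (b (l 16756960) (l 16759880)) (l 16760576))) (b (b (c (l 16762840) (l 16762472)) (c (l 16767128) (l 16765528))) (a (b (c (l 16768240) (l 16768008)) (c (c (l 16772624) (l 16772552))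 (l 16772272))) (b (c (l 16770736) (l 16769224)) (c (b (l 16771704) (l 16774536)) (b (l 16771560) (l 16774440))))))))), by decide +kernel⟩

def k8_pp_022_t : ∃ t, chk3 f_pp_022_t t 138 61 1 = true :=
  ⟨(b (b (c (a (l 16754992) (l 16759952)) (a (l 16754440) (l 16756848))) (c (a (c (l 16763504) (l 16760680)) (c (l 16764520) (l 16765664))) (a (l 16762992) (c (l 16765488) (l 16765312))))) (b (c (b (a (l 16765200) (l 16768856)) (a (c (l 16770864) (l 16770744)) (a (l 16772568) (l 16772424)))) (a (b (l 16764896) (l 16769264)) (b (l 16769928) (a (l 16769760) (l 16773584))))) (b (a (a (c (l 16771920) (l 16773056)) (b (l 16772256) (a (l 16772184) (l 16772776)))) (a (c (b (l 16772200) (l 16775024)) (b (l 16772072) (l 16774936))) (a (b (l 16773032) (b (l 16774176) (l 16774944))) (b (l 16774936) (b (l 16774768) (a (l 16775392) (l 16775688))))))) (b (a (c (a (l 16774192) (c (l 16775392) (l 16775352))) (a (l 16772776) (l 16775296))) (b (a (a (l 16774528) (l 16775120)) (l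 16776344)) (a (l 16775928) (a (l 16776488) (a (l 16776928) (l 44795167959)))))) (a (c (a (a (l 16774112) (l 16776016)) (l 16775592)) (c (l 16774960) (l 16774928))) (a (a (c (c (l 16777128) (l 16777112)) (l 16777104)) (b (l 16776664) (a (a (l 16777832) (l 74323068039)) (l 117272741159)))) (b (a (b (l 16777704) (l 91502937351)) (l 182234121047)) (l 4)))))))), by decide +kernel⟩

def k9_pp_022_t : ∃ t, chk3 f_pp_022_t t 139 61 1 = true :=
  ⟨(b (a (b (b (l 16757992) (l 16763520)) (b (c (l 16763992) (l 16763664)) (c (l 16769544) (l 16766664)))) (b (b (l 16762960) (a (l 16762656) (l 16763824))) (b (c (l 16766312) (l 16766040)) (c (c (l 16771912) (l 16771816)) (l 16770360))))) (b (b (b (a (a (l 16768448) (l 16769624)) (c (l 16772768) (l 16773936))) (a (c (l 16771936) (l 16770456)) (a (l 16773616) (a (l 16773184) (l 16775080))))) (b (a (c (c (l 16773456) (l 16774704)) (l 16773304)) (a (c (l 16775168) (l 16776400)) (l 16775648))) (a (a (a (l 16772688) (l 16773280))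 (a (l 16775176) (a (l 16774312) (l 16775912)))) (b (c (l 16775896) (l 16775528)) (a (l 16775720) (a (l 16776600) (a (l 16777024) (l 64122520871)))))))) (b (a (b (c (c (l 16775792) (l 16775112)) (l 16775728)) (a (c (c (l 16776720) (l 16776048)) (l 16776024)) (b (a (l 16776544) (a (l 16776976) (l 54458844407))) (a (a (l 16777792) (l 88281711959)) (l 4))))) (a (a (c (b (l 16777392) (l 173107315879)) (b (l 16777864) (l 175791670407))) (b (b (l 16776768) (c (l 93650421271) (l 94187292167))) (l 4))) (a (b (b (a (l 16777832) (l 100092872007)) (l 4)) (l 4)) (l 4)))) (b (a (a (a (b (l 16777704) (c (l 154853704279) (l 115662128679))) (b (a (l 65733133623) (l 133915739415)) (l 4))) (l 4)) (l 4)) (l 4))))), by decide +kernel⟩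

def k10_pp_022_t : ∃ t, chk3 f_pp_022_t t 35 60 1 = true :=
  ⟨(b (a (b (a (l 16748136) (c (l 16747760) (l 16747112))) (a (c (l 16748656) (l 16748008)) (c (l 16758408) (l 16752624)))) (a (a (b (l 16750816) (l 16761536)) (b (l 16753056) (l 16761160))) (a (b (l 16760528) (c (l 16766192) (l 16760592))) (b (l 16762744) (c (l 16765776) (l 16768088)))))) (b (a (a (a (l 16757960) (l 16757648)) (b (c (l 16757280) (l 16756824)) (c (l 16765296) (l 16759656)))) (b (a (c (l 16764376) (l 16766656)) (a (l 16767576) (c (l 16767296) (l 16767080)))) (a (a (l 16768512) (l 16768144)) (a (c (l 16767880) (l 16767664)) (c (l 16772712) (l 16772552)))))) (b (a (a (c (l 16758312) (l 16757872)) (a (l 16761544) (l 16766448))) (b (a (a (l 16765392) (l 16767648)) (a (l 16772520) (a (l 16771584) (l 16770080)))) (a (a (l 16766816) (l 16771696)) (a (c (l 16774016) (l 16771264)) (l 16773576))))) (a (a (c (l 16763096) (l 16763376)) (a (l 16767016) (c (l 16766808) (l 16766560)))) (a (b (a (l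 16770864) (c (l 16770584) (l 16770432))) (a (l 16770992) (a (l 16771384) (l 16775136)))) (b (c (c (l 16774600) (l 16773912)) (l 16774424)) (a (l 16774864) (a (l 16775896) (a (l 16778032) (a (l 16778424) (l 73249327143))))))))))), by decide +kernel⟩

def k11_pp_022_t : ∃ t, chk3 f_pp_022_t t 70 122 1 = true :=
  ⟨(a (b (b (a (l 16765288) (a (l 16764400) (l 16765552))) (c (a (l 16765712) (l 16770624)) (a (l 16765432) (l 16770400)))) (a (b (c (l 16769928) (l 16771024)) (a (c (l 16773592) (l 16773440)) (b (l 16771320) (l 16774120)))) (c (b (b (l 16770176) (l 16772952)) (b (a (l 16772536) (l 16776304)) (l 16775240))) (b (b (l 16770008) (l 16774128)) (l 16774416))))) (b (a (b (c (l 16770016) (l 16767168)) (c (c (l 16772944) (l 16772864)) (l 16772080))) (b (c (l 16770976) (l 16772104)) (a (b (l 16771184) (l 16775272)) (b (l 16774952) (a (l 16773512) (l 16774088)))))) (b (b (a (a (l 16771824) (a (l 16772688) (l 16773264))) (c (l 16774728) (l 16774672))) (a (a (c (l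 16773352) (l 16773256)) (c (c (l 16777128) (l 16774472)) (l 16771800))) (a (l 16775608) (a (l 16777776) (b (l 16776672) (l 74323068551)))))) (a (b (c (l 16775880) (l 16775344)) (a (c (l 16777272) (l 16776264)) (b (a (l 16776776) (l 63585650375)) (c (l 151632478999) (l 153243091703))))) (b (b (c (a (l 16778024) (l 156464317287)) (a (l 16776704) (l 158611800919))) (a (a (l 16778120) (l 101703486247)) (l 4))) (l 4)))))), by decide +kernel⟩

def k12_pp_022_t : ∃ t, chk3 f_pp_022_t t 71 122 1 = true :=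
  ⟨(b (a (a (b (a (a (l 16773624) (l 16774192)) (b (l 16771696) (a (l 16772864) (l 16773432)))) (c (c (l 16775800) (l 16776104)) (c (l 16774760) (l 16774736)))) (b (c (l 16774984) (l 16774088)) (b (a (l 16775752) (a (l 16777904) (b (l 16776792) (l 95261034151)))) (b (a (l 16778136) (l 167738606599)) (a (a (l 16778208) (l 4)) (l 4)))))) (a (a (b (c (b (l 16773808) (l 16777856)) (l 16777272)) (a (b (a (l 88818583751) (l 167738606455)) (l 4)) (l 4))) (b (b (l 16777528) (a (c (l 65196263623) (l 64659392695)) (l 166664864743))) (l 4))) (b (b (a (b (l 16778264) (c (l 101703485671) (l 101703485655))) (l 187065960103)) (l 4)) (l 4)))) (a (a (b (b (a (c (l 16777728) (l 16776392)) (b (a (l 16776888) (l 82913003239)) (l 161833026487))) (b (a (a (l 16778152) (l 108682808183)) (l 4)) (l 4))) (l 4)) (l 4)) (l 4))), by decide +kernel⟩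

def k13_pp_022_t : ∃ t, chk3 f_pp_022_t t 35 123 1 = true :=
  ⟨(a (b (b (a (a (c (c (c (l 16775192) (l 16775176)) (l 16775152)) (c (l 16775120) (l 16774432))) (a (b (l 16775800) (a (c (l 16777664) (l 16777976)) (b (l 16776880) (l 110830290599)))) (a (b (l 16776992) (a (b (l 16777912) (l 4)) (l 176865412103))) (b (a (l 16777744) (b (l 16776688) (l 85060486535))) (l 4))))) (b (a (a (b (a (l 16778072) (l 123178321495)) (l 187065959671)) (l 4)) (l 4)) (l 4))) (a (a (b (a (c (l 16776904) (l 16776144)) (b (a (l 16776656) (a (l 16777072) (l 59290683159))) (a (a (l 16777864) (l 114588386551)) (l 4)))) (a (a (b (l 16777968) (l 172570444519)) (c (c (l 158611801079) (l 159685542887)) (l 160759284695))) (l 4))) (a (a (b (l 182770992423) (l 4)) (l 4)) (l 4))) (l 4))) (l 4)) (l 4)), by decide +kernel⟩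

def k14_pp_022_t : ∃ t, chk3 f_pp_022_t t 68 248 1 = true :=
  ⟨(b (a (b (a (a (l 16766248) (l 16767472)) (a (l 16770000) (l 16771216))) (a (c (l 16769512) (l 16768304)) (c (c (l 16772288) (l 16772208)) (c (l 16772128) (l 16770736))))) (a (c (a (b (l 16771192) (l 16774048)) (b (l 16772384) (a (l 16773632) (l 16775536)))) (b (c (l 16773000) (l 16772928)) (a (l 16772624) (l 16775152)))) (b (a (c (l 16774232) (l 16774792)) (b (a (l 16774040) (l 16774640)) (a (l 16774824) (a (l 16775272) (l 16775568))))) (a (a (b (l 16774400) (l 16776496)) (b (l 16776312) (a (l 16775632) (l 16775280)))) (a (c (l 16776008) (l 16775976)) (b (l 16776200) (a (l 16776832) (a (l 16777696) (l 39426458663))))))))) (b (a (a (c (c (l 16770128) (l 16770032)) (l 16770712)) (c (a (l 16771888) (l 16773744)) (a (l 16771752) (l 16774288)))) (a (c (b (a (l 16773896) (c (l 16776416) (l 16776384))) (a (l 16775328) (l 16775864))) (a (c (l 16775536) (l 16775504)) (l 16775432))) (a (a (c (c (l 16777024)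 (l 16777016)) (l 16777000)) (b (l 16776568) (b (a (l 16777000) (l 65733133191)) (c (l 113514644631) (l 114588386439))))) (b (a (a (l 16777696) (b (l 16777112) (l 101166614023))) (c (l 164517380839) (l 172570444487))) (l 4))))) (a (a (a (a (l 14) (l 16771256)) (a (l 16773176) (l 16773136))) (a (c (c (l 16774776) (l 16774728)) (l 16774656)) (a (c (l 16775656) (l 16775576)) (b (l 16774520) (a (l 16775160) (l 16775456)))))) (a (a (c (c (l 16776176) (l 16775832)) (l 16775808)) (b (a (l 16776336) (a (l 16776784) (b (l 16776888) (l 59827553127)))) (b (a (l 16777408) (c (l 107072193735) (l 107072193735))) (a (a (l 16777480) (l 123178320695)) (l 4))))) (b (b (a (a (a (l 16777824) (l 91502937575)) (l 4)) (l 4)) (l 4)) (l 4)))))), by decide +kernel⟩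

def k15_pp_022_t : ∃ t, chk3 f_pp_022_t t 68 249 1 = true :=
  ⟨(a (a (a (l 14) (b (a (b (a (l 16773296) (l 16774912)) (l 14)) (b (c (l 16775416) (l 16774024)) (b (a (l 14) (l 16775408)) (l 14)))) (l 14))) (b (b (a (a (b (l 16774272) (l 16775728)) (b (l 16775544) (c (l 16776352) (l 16775656)))) (a (c (l 16775904) (l 16775872)) (b (l 16776096) (a (l 16776744) (b (l 16776848) (l 50700747559)))))) (a (a (c (c (l 16776768) (l 16776920)) (l 16776576)) (b (l 16776640) (b (a (l 16776920) (a (l 16777136) (l 16777584))) (a (a (l 16777536) (l 106535322327)) (l 4))))) (b (b (a (l 16777288) (a (l 72712455095) (l 4))) (a (a (l 16777440) (l 107072193367)) (l 4))) (a (a (l 180623508135) (l 4)) (l 4))))) (a (a (a (l 14) (a (l 14) (a (l 14) (l 4)))) (l 4)) (l 4)))) (b (b (a (a (a (b (c (l 16777368) (l 16776696)) (b (a (l 16777456) (l 111904031607)) (l 184381604471))) (b (b (a (l 16776960) (l 54995714887)) (a (l 78081164247) (l 4))) (l 4))) (l 4)) (l 4)) (l 4)) (l 4))), by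 decide +kernel⟩

def k16_pp_022_t : ∃ t, chk3 f_pp_022_t t 69 124 1 = true :=
  ⟨(b (a (b (b (a (a (c (c (l 16776608) (l 16775936)) (l 16775912)) (b (a (l 16776432) (a (l 16776880) (a (l 16777744) (l 49090135143)))) (a (a (l 16777704) (a (l 54995715223) (l 93113549895))) (c (l 175791670039) (l 177939153671))))) (b (a (a (c (l 148411253271) (l 106535323175)) (l 4)) (l 4)) (l 4))) (a (a (a (b (c (l 16777456) (l 16776784)) (a (b (l 16777856) (l 4)) (l 184381604519))) (b (a (c (l 47479522471) (l 16777840)) (c (l 107609064679) (l 108145935575))) (l 4))) (l 4)) (l 4))) (l 4)) (l 4)) (l 4)), by decide +kernel⟩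

def k17_pp_022_t : ∃ t, chk3 f_pp_022_t t 34 125 1 = true :=
  ⟨(l 4), by decide +kernel⟩

def k18_pp_022_t : ∃ t, chk3 f_pp_022_t t 35 62 1 = true :=
  ⟨(l 4), by decide +kernel⟩

def k19_pp_022_t : ∃ t, chk3 f_pp_022_t t 17 63 1 = true :=
  ⟨(l 4), by decide +kernel⟩

def k20_pp_022_t : ∃ t, chk3 f_pp_022_t t 18 28 1 = true :=
  ⟨(a (a (a (b (b (l 16687552) (l 16695760)) (b (l 16704336) (l 16713304))) (b (l 16695832) (b (l 16708592) (l 16717592)))) (c (b (l 16702456) (c (l 16725264) (l 16719632))) (b (l 16701600) (l 16725720)))) (b (a (b (l 16705976) (l 16714400)) (b (l 16713928) (l 16722456))) (a (b (l 16723176) (l 16737544)) (b (l 16731312) (a (l 16738464) (l 16742536)))))), by decide +kernel⟩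

def k21_pp_022_t : ∃ t, chk3 f_pp_022_t t 36 29 1 = true :=
  ⟨(b (b (a (a (l 16722624) (l 16737432)) (a (l 16736472) (a (l 16734416) (l 16736520)))) (a (a (l 16737544) (a (l 16735568) (l 16737728))) (a (a (l 16745128) (l 16747272)) (b (l 16742744) (l 16758200))))) (b (a (b (a (l 16739784) (l 16744152)) (a (l 16744904) (l 16754520))) (a (b (l 16753728) (c (l 16753840) (l 16753392))) (b (c (l 16752984) (l 16752552)) (c (l 16763336) (l 16762984))))) (a (a (b (l 16755352) (c (l 16760880) (l 16755192))) (a (b (l 16753408) (l 16763968)) (b (l 16755592) (l 16763536)))) (b (a (a (l 16763008) (l 16765176)) (a (l 16764712) (b (l 16762912) (l 16765560)))) (a (a (c (l 16768472) (l 16762952)) (b (l 16763920) (l 16771848))) (c (l 16771208) (l 16768416))))))), by decide +kernel⟩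

def k22_pp_022_t : ∃ t, chk3 f_pp_022_t t 37 29 1 = true :=
  ⟨(b (c (b (a (l 16742024) (l 16755456)) (a (c (l 16757112) (l 16751672)) (a (l 16757960) (l 16767296)))) (a (a (a (l 16748480) (l 16750608)) (a (l 16752720) (a (l 16754296) (l 16755344)))) (b (l 16749840) (b (l 16757232) (l 16767520))))) (b (a (c (a (l 16762376) (a (l 16762888) (l 16767592))) (a (b (l 16756840) (b (l 16760736) (l 16763360))) (l 16767640))) (a (b (l 16768032) (c (l 16773272) (l 16770536))) (b (c (l 16769616) (l 16769496)) (a (c (l 16773744) (l 16773688)) (b (l 16774472) (a (l 16779160) (a (l 64122523111) (l 74859941127)))))))) (a (b (a (c (l 16767528) (l 16767344)) (c (a (l 16770672) (l 16772760)) (l 16772928))) (a (c (a (l 16771768) (l 16775680)) (a (l 16771664) (l 16775120))) (a (b (l 16774616) (c (b (l 16779232) (l 136600093671)) (b (l 16779216) (l 95261036679)))) (a (b (l 16778808) (l 179549767959)) (b (b (l 16776568) (l 109756550311)) (l 4)))))) (b (a (b (a (l 16773496) (l 16777864))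 (a (c (l 16779080) (l 16778728)) (a (a (l 67880619655) (l 101166616407)) (l 174717929559)))) (a (b (a (a (l 16779456) (l 65733135927)) (l 144653157607)) (l 4)) (l 4))) (a (b (a (c (b (l 145190028519) (l 4)) (l 157538060391)) (l 4)) (l 4)) (l 4)))))), by decide +kernel⟩

def k23_pp_022_t : ∃ t, chk3 f_pp_022_t t 19 28 1 = true :=
  ⟨(a (b (a (b (a (l 16719808) (l 16739032)) (l 16730376)) (a (b (l 16737416) (a (l 16735272) (l 16750296))) (b (l 16730696) (b (l 16737712) (l 16752752))))) (b (a (l 16744560) (a (l 16745248) (a (l 16748192) (b (l 16747808) (l 16752440))))) (a (c (l 16753976) (l 16748416)) (a (l 16759808) (l 16762448))))) (b (a (b (l 16736336) (c (l 16745624) (l 16745408))) (b (l 16748968) (c (l 16758328) (l 16752904)))) (a (a (a (b (b (l 16749688) (l 16764856)) (c (l 16766776) (l 16766640))) (b (l 16753920) (b (c (l 16766328) (l 16766192)) (l 16771056)))) (b (l 16762000) (b (l 16763896) (a (b (l 16766552) (l 16775272)) (l 16769696))))) (b (c (a (l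 16760616) (l 16769680)) (c (l 16767688) (l 16767616))) (b (a (l 16772984) (c (l 16771640) (l 16771584))) (a (c (l 16772624) (l 16772584)) (b (c (l 16778872) (l 16777872)) (a (c (l 20099108535) (l 16779320)) (c (l 165054253063) (l 166127994807)))))))))), by decide +kernel⟩

def k24_pp_022_t : ∃ t, chk3 f_pp_022_t t 19 29 1 = true :=
  ⟨(a (b (b (a (a (l 16760080) (a (l 16759176) (l 16766432))) (a (b (l 16761744) (l 16771880)) (b (l 16765720) (c (l 16770664) (l 16770584))))) (a (a (c (c (l 16771392) (l 16771320)) (l 16768576)) (b (l 16770200) (c (l 16773960) (l 16772592)))) (b (a (c (l 16771640) (l 16771576)) (a (a (l 16774112) (l 16777720)) (b (l 16775344) (a (l 70028103639) (l 159148672535))))) (a (b (a (l 16774384) (c (l 16778992) (l 16778968))) (a (a (l 16776400) (l 71638716471)) (c (l 166664866167) (l 168812349735)))) (b (a (c (l 147874383415) (l 149484996087)) (l 4)) (l 4)))))) (b (a (b (b (a (l 16775000) (a (l 16775432) (a (l 23857204807) (l 99556004295))))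 (a (a (l 16773928) (l 16778912)) (a (c (b (l 67880619527) (l 174717929463)) (l 133915739031)) (l 4)))) (a (b (a (c (c (l 16779120) (l 16779112)) (l 16779096)) (c (l 150558738247) (l 152706221815))) (a (c (l 174181059223) (l 172570446407)) (l 4))) (l 4))) (b (a (b (a (l 187602832487) (l 4)) (l 4)) (l 4)) (l 4))) (l 4))) (b (a (b (b (a (l 16772296) (a (c (l 16775256) (l 16775216)) (a (b (l 16772864) (l 16775312)) (b (l 16773832) (c (l 771758263) (l 16780208)))))) (b (a (l 16775968) (a (l 4529852199) (a (l 96334778535) (a (l 180086638359) (l 4))))) (a (a (l 16774840) (a (l 16776312) (l 69491232647))) (a (l 165054253175) (l 4))))) (b (a (b (a (a (l 16779424) (l 96871649527)) (l 185455348599)) (l 4)) (l 4)) (l 4))) (b (b (a (b (a (l 16775296) (a (l 16779360) (l 95261036647))) (a (a (l 68954361527) (l 124252066039)) (l 4))) (b (a (l 182770993863) (l 4)) (l 4))) (l 4)) (l 4))) (l 4))), by decide +kernel⟩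

def k25_pp_022_t : ∃ t, chk3 f_pp_022_t t 36 120 1 = true :=
  ⟨(a (a (a (b (l 16764960) (b (l 16763832) (l 16769232))) (b (c (l 16767328) (l 16761768)) (b (l 16768672) (c (l 16771536) (l 16768736))))) (b (a (c (l 16766888) (l 16769240)) (b (l 16764968) (c (l 16767792) (l 16767600)))) (c (a (b (l 16768352) (c (l 16773760) (l 16768448))) (l 16773216)) (c (l 16772024) (l 16771960))))) (b (a (c (c (l 16772344) (l 16769648)) (l 16772152)) (b (c (l 16773920) (l 16772520)) (a (l 16775536) (a (l 16777144) (b (l 16776224) (l 79154908295)))))) (a (b (a (l 16772648) (c (l 16774848) (l 16774800))) (b (a (l 16774728) (a (l 16776360) (a (l 16778440) (l 101166614935)))) (a (c (l 16777440) (l 16776104)) (c (a (l 95261035271) (l 4)) (l 151632479623))))) (b (a (a (b (l 16775752) (l 42110815175)) (b (l 16778112) (l 173107316055))) (c (b (l 155927447191) (l 4)) (l 172033574791))) (l 4))))), by decide +kernel⟩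

def k26_pp_022_t : ∃ t, chk3 f_pp_022_t t 36 121 1 = true :=
  ⟨(a (b (a (a (a (b (l 16768856) (b (l 16770976) (l 16772392))) (b (l 16772592) (b (l 16772088) (l 16770888)))) (a (b (l 16773704) (l 16773912)) (c (l 16774624) (l 16773560)))) (b (b (c (l 16774928) (l 16774216)) (a (l 16774552) (a (l 16776200) (c (l 56069458583) (l 55532587639))))) (b (a (c (l 16777280) (l 16775944)) (a (a (l 61438167319) (l 125325806071)) (l 4))) (a (c (a (l 16778120) (l 147337511879)) (a (l 16776792) (l 108145937319))) (l 4))))) (a (b (a (c (c (l 16776440) (l 16776416)) (l 16776376)) (a (b (l 16776048) (a (l 47479523591) (l 104387840455))) (b (a (l 16778168) (l 69491231143)) (l 4)))) (a (a (c (b (l 16777984) (l 159148672231)) (b (l 16776656) (l 161296155831))) (b (a (a (l 67343747127) (l 77007424727)) (l 179012895895)) (l 4))) (l 4))) (a (a (b (b (l 175254799751) (l 4)) (l 4)) (l 4)) (l 4)))) (b (a (b (a (a (b (a (l 16776704) (l 16778472)) (l 184918476359)) (b (l 156464317575)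 (l 4))) (l 4)) (l 4)) (l 4)) (l 4))), by decide +kernel⟩

def k27_pp_022_t : ∃ t, chk3 f_pp_022_t t 37 60 1 = true :=
  ⟨(b (a (b (a (b (a (c (c (l 16778408) (l 16778392)) (l 16778368)) (a (b (l 16776680) (l 121567710247)) (a (l 148411254007) (l 181697251335)))) (b (a (a (l 56606329655) (l 183844734519)) (l 4)) (l 4))) (l 4)) (l 4)) (l 4)) (l 4)), by decide +kernel⟩

def k28_pp_022_t : ∃ t, chk3 f_pp_022_t t 18 61 1 = true :=
  ⟨(l 4), by decide +kernel⟩

def k29_pp_022_t : ∃ t, chk3 f_pp_022_t t 18 31 1 = true :=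
  ⟨(l 4), by decide +kernel⟩

def k30_pp_022_t : ∃ t, chk3 f_pp_022_t t 19 15 1 = true :=
  ⟨(l 4), by decide +kernel⟩

def k31_pp_022_t : ∃ t, chk3 f_pp_022_t t 10 12 1 = true :=
  ⟨(a (b (a (a (l 16648584) (l 16655408)) (b (l 16637576) (l 16652368))) (b (a (l 16674248) (l 16688432)) (a (a (l 16664952) (l 16672152)) (b (l 16699992) (l 16697488))))) (b (b (a (l 16650456) (l 16664072)) (a (l 16686584) (l 16700480))) (a (b (c (l 16702536) (l 16680976)) (a (l 16714992) (l 16711688))) (b (a (l 16691800) (l 16699208)) (a (l 16720176) (c (l 16726544) (l 16715568))))))), by decide +kernel⟩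

def k32_pp_022_t : ∃ t, chk3 f_pp_022_t t 20 13 1 = true :=
  ⟨(b (b (a (c (l 16695488) (l 16695432)) (a (l 16706440) (l 16711232))) (a (a (l 16709472) (b (l 16701816) (l 16711032))) (a (b (l 16709248) (l 16718504)) (b (l 16716728) (l 16726032))))) (a (a (b (b (l 16713064) (l 16722720)) (b (l 16732328) (l 16747112))) (b (c (l 16735832) (l 16725488)) (b (l 16750352) (c (l 16749312) (l 16749120))))) (b (a (b (l 16728056) (l 16748256)) (b (l 16740864) (c (l 16745296) (l 16745272)))) (a (a (b (l 16745448) (l 16760096)) (b (l 16749176) (l 16762584))) (b (c (l 16760152) (l 16759992)) (c (a (l 16767784) (l 16770344)) (b (l 16761936) (l 16772024)))))))), by decide +kernel⟩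

def k33_pp_022_t : ∃ t, chk3 f_pp_022_t t 21 26 1 = true :=
  ⟨(a (b (a (b (l 16706480) (l 16715232)) (a (l 16726992) (l 16730792))) (a (b (l 16724280) (l 16738872)) (b (l 16737168) (c (l 16741264) (l 16741368))))) (b (a (b (l 16721376) (l 16735624)) (b (l 16739416) (c (l 16738120) (l 16737864)))) (a (b (c (l 16739608) (l 16739520)) (c (l 16752984) (l 16749000))) (b (c (l 16752656) (l 16747240)) (c (c (l 16760896) (l 16762176)) (l 16760768)))))), by decide +kernel⟩

def k34_pp_022_t : ∃ t, chk3 f_pp_022_t t 42 27 1 = true :=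
  ⟨(b (a (b (c (l 16743200) (l 16743312)) (c (l 16758216) (l 16752832))) (a (b (l 16749040) (c (l 16758744) (l 16758624))) (b (l 16755512) (c (l 16767880) (l 16762544))))) (b (a (c (b (l 16765408) (l 16768432)) (c (l 16767752) (l 16767680))) (a (b (l 16771208) (c (l 16770880) (l 16770824))) (a (b (l 16768928) (l 16775152)) (b (l 16770920) (b (l 16774608) (a (l 16779184) (l 94724164327))))))) (a (b (a (l 16770464) (c (l 16771808) (l 16771752))) (a (c (l 16774048) (l 16772696)) (b (c (c (l 16779392) (l 16778072)) (l 16778056)) (a (c (c (l 26541559335) (l 16779504)) (l 16779488)) (l 175791670759))))) (b (a (b (c (l 16774544) (l 16774512)) (a (l 16778608) (c (l 143579414055) (l 108145939367)))) (a (b (b (l 20099108231) (l 128010162487)) (l 4)) (l 4))) (a (b (a (c (l 159685543431) (l 160759285175)) (l 4)) (l 4)) (l 4)))))), by decide +kernel⟩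

def k35_pp_022_t : ∃ t, chk3 f_pp_022_t t 43 27 1 = true :=
  ⟨(b (b (a (c (a (l 16756792) (l 16765984)) (c (l 16763952) (l 16763888))) (a (c (l 16767336) (l 16764640)) (b (l 16768848) (c (l 16771192) (l 16771152))))) (a (a (b (l 16764088) (l 16771288)) (b (l 16770688) (c (l 16774336) (l 16772992)))) (b (a (c (l 16772104) (l 16772072)) (c (b (l 16777536) (a (l 16779000) (l 160222414247))) (b (l 16774896) (a (l 16776360) (l 161833026903))))) (a (b (a (l 16774800) (a (l 16776320) (l 83986744647))) (a (a (l 16778728) (l 107609066279)) (l 194045282887))) (b (a (l 175254799703) (l 4)) (l 4)))))) (b (a (b (a (c (b (l 16772704) (a (l 16774160) (l 16778784))) (l 16776520)) (b (a (l 16778328) (c (b (l 16779704) (l 172033574295)) (l 97408521031))) (a (c (l 150558737495) (l 115662132407)) (l 4)))) (a (b (a (c (c (l 16779232) (l 16776600)) (l 16776592)) (c (l 166664865527) (l 168275478183))) (a (l 182234122567) (l 4))) (l 4))) (l 4)) (l 4))), by decide +kernel⟩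

def k36_pp_022_t : ∃ t, chk3 f_pp_022_t t 11 12 1 = true :=
  ⟨(a (b (a (b (l 16699944) (a (l 16690832) (l 16698592))) (b (a (l 16690376) (l 16718832)) (a (l 16706312) (a (l 16712072) (l 16736856))))) (a (b (a (l 16706936) (l 16735776)) (a (a (l 16732168) (l 16736136)) (c (l 16742232) (l 16741896)))) (a (b (l 16733128) (c (a (l 16748136) (l 16752064)) (l 16749856))) (b (l 16746152) (b (l 16753520) (a (l 16749760) (l 16753688))))))) (b (a (b (c (l 16729944) (l 16729776)) (a (c (l 16742592) (l 16742352)) (l 16744768))) (b (a (l 16740824) (l 16747976)) (a (c (l 16757472) (l 16736336)) (c (l 16754280) (l 16764632))))) (a (b (a (b (c (l 16744480) (l 16733776)) (a (l 16740384) (l 16754720))) (b (l 16751992) (c (l 16760488) (l 16760360)))) (b (a (c (l 16750856) (l 16750736)) (a (a (l 16766128) (l 16765424)) (l 16765672))) (a (c (l 16767432) (l 16759504)) (a (b (c (l 16763152) (l 16763112)) (l 16772856)) (b (a (l 16771280) (l 16767960)) (c (a (l 16770520) (l 16772448))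 (l 16776712))))))) (b (a (c (a (l 16761944) (l 16765680)) (l 16763688)) (a (b (l 16754584) (l 16773624)) (b (l 16758256) (l 16774712)))) (a (b (a (l 16770792) (c (l 16778528) (l 16768000))) (a (b (l 16776072) (a (l 16774368) (a (l 16779736) (b (l 16775624) (l 112440906023))))) (b (c (a (l 16773688) (l 16780832)) (l 16774624)) (b (a (l 38889591895) (l 139284453671)) (l 4))))) (b (a (c (b (l 16769624) (l 16773976)) (l 16771776)) (b (l 16775960) (a (b (l 16775680) (l 105461585655)) (a (l 109219680487) (l 161296156359))))) (b (a (a (b (l 16776352) (l 131231389879)) (a (l 154316834439) (l 182770993863))) (l 4)) (l 4)))))))), by decide +kernel⟩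

def k37_pp_022_t : ∃ t, chk3 f_pp_022_t t 22 26 1 = true :=
  ⟨(a (b (b (a (l 16743360) (c (l 16744888) (l 16744688))) (a (c (l 16751264) (l 16745808)) (a (l 16757224) (l 16761248)))) (a (b (c (b (l 16753008) (l 16763000)) (l 16760480)) (a (c (l 16765584) (l 16762880)) (c (c (l 16772280) (l 16767024)) (l 16766968)))) (b (c (a (l 16766696) (l 16768112)) (a (l 16761352) (l 16765424))) (b (a (l 16771264) (c (l 16772720) (l 16772696))) (a (c (b (l 16772320) (l 16777400)) (l 16773528)) (b (a (l 16775368) (a (l 20099108119) (l 116735873239))) (a (a (l 86134228183) (l 139284451735)) (l 4)))))))) (b (a (b (c (l 16758080) (l 16752704)) (c (a (l 16760048) (l 16769288)) (l 16767216))) (a (b (l 16763984) (c (a (l 16767032) (l 16774264)) (l 16767992))) (b (c (l 16762720) (l 16762656)) (b (l 16772264) (c (a (l 16773368) (b (l 16774168) (l 16779160))) (l 16779592)))))) (b (a (a (c (a (l 16773752) (l 16771840)) (l 16769480)) (a (b (l 16770120) (c (l 16777560) (l 16774928)))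 (b (l 16772136) (b (l 16775744) (c (l 152169350119) (l 119957099591)))))) (b (b (a (l 16774600) (a (c (l 28689043223) (l 16776912)) (l 177939154839))) (a (c (a (l 16775344) (l 88818583287)) (l 13119788663)) (a (l 194582153623) (l 4)))) (a (b (a (c (l 104924710903) (l 104387842711)) (l 4)) (l 4)) (l 4)))) (a (b (a (b (c (a (l 16774544) (l 16779184)) (l 16775536)) (a (a (l 16776472) (l 95261033847)) (l 181160380471))) (b (a (c (l 166664865335) (l 138210710679)) (l 4)) (l 4))) (a (b (a (l 197266508359) (l 4)) (l 4)) (l 4))) (l 4))))), by decide +kernel⟩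

def k38_pp_022_t : ∃ t, chk3 f_pp_022_t t 22 27 1 = true :=
  ⟨(a (b (b (a (a (a (b (l 16769264) (c (l 16774248) (l 16774224))) (b (l 16771304) (b (l 16775040) (b (l 18488495495) (l 130157646439))))) (b (a (l 16773360) (a (l 16776208) (b (l 16774688) (l 78618035223)))) (b (a (a (l 16779192) (l 99556001319)) (l 187065960743)) (l 4)))) (b (a (b (a (c (l 16776224) (l 16776208)) (c (l 155927446679) (l 122641454311))) (a (c (l 171496703751) (l 173107316391)) (l 4))) (l 4)) (l 4))) (a (b (a (b (a (c (l 145190025415) (l 109756552199)) (l 4)) (l 4)) (l 4)) (l 4)) (l 4))) (l 4)) (l 4)), by decide +kernel⟩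

def k39_pp_022_t : ∃ t, chk3 f_pp_022_t t 23 13 1 = true :=
  ⟨(b (b (a (a (b (a (c (l 16771888) (l 16766616)) (b (l 16773504) (c (l 16772872) (l 16772856)))) (b (a (c (l 16776224) (l 16773592)) (b (c (a (l 16775384) (l 87744843927)) (l 16780280)) (a (c (l 102777229847) (l 103314100679)) (l 4)))) (a (b (a (l 16778768) (c (l 118346486679) (l 117809615863))) (a (c (l 163443639735) (l 135526356007)) (l 4))) (l 4)))) (b (b (a (c (l 16772160) (l 16772152)) (b (c (a (l 16773928) (l 16778480)) (l 16780128)) (a (l 16778840) (a (l 101703487319) (l 141431937431))))) (a (b (c (c (l 16778240) (l 16775616)) (l 16775608)) (a (c (l 32984010407) (l 16776944)) (l 170959832903))) (b (a (l 129620775815) (l 4)) (l 4)))) (a (b (c (l 191897798823) (l 194582155767)) (l 4)) (l 4)))) (a (b (a (b (b (a (c (l 98482262919) (l 16780008)) (l 4)) (l 4)) (l 4)) (l 4)) (l 4)) (l 4))) (l 4)) (l 4)), by decide +kernel⟩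

def k40_pp_022_t : ∃ t, chk3 f_pp_022_t t 40 28 1 = true :=
  ⟨(b (a (b (c (l 16761704) (l 16751032)) (c (c (l 16765904) (l 16765848)) (l 16765736))) (b (c (a (l 16756832) (l 16760616)) (l 16763816)) (a (c (l 16771592) (l 16766248)) (b (l 16772984) (c (l 16772608) (l 16772560)))))) (b (a (a (b (l 16765816) (l 16773264)) (b (l 16772288) (a (l 16773552) (a (l 16777632) (b (l 16774768) (l 71638716007)))))) (b (a (c (b (l 16772352) (l 16777400)) (l 16776152)) (a (b (l 16775264) (a (l 72712457831) (l 159148672247))) (b (a (l 16779336) (l 99556003863)) (l 4)))) (a (b (a (c (l 16778848) (l 16776208)) (c (l 148411253975) (l 149484995735))) (a (c (l 166127994823) (l 167738607479)) (l 4))) (l 4)))) (a (b (a (a (a (l 16774048) (l 16777640)) (b (l 16775264) (a (l 71101845095) (l 124252066103)))) (b (a (a (l 16779320) (l 97408520215)) (l 184381606503)) (l 4))) (a (b (a (c (l 147337512183) (l 148411253959)) (l 4)) (l 4)) (l 4))) (l 4)))), by decide +kernel⟩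

def k41_pp_022_t : ∃ t, chk3 f_pp_022_t t 41 28 1 = true :=
  ⟨(b (b (a (a (c (l 16769680) (l 16764328)) (b (l 16765832) (l 16773296))) (b (a (l 16772344) (c (a (l 16772688) (l 16777272)) (l 16776256))) (b (a (l 16774688) (a (c (l 16778944) (l 16776312)) (c (l 154316834135) (l 155390575895)))) (a (a (l 16774832) (a (l 16776304) (l 78618036727))) (a (c (l 171496704023) (l 173107316679)) (l 4)))))) (a (b (a (c (l 16771656) (l 16771600)) (a (a (l 16774072) (l 16777672)) (b (l 16775304) (a (l 75933680807) (l 161833026855))))) (a (b (c (a (l 16774312) (l 16778872)) (l 16777880)) (a (a (l 16776240) (l 74323067991)) (c (l 167738607559) (l 169886091127)))) (b (a (c (l 150558737655) (l 152169350327)) (l 4)) (l 4)))) (b (a (b (a (a (l 16779384) (l 103314099015)) (l 188139702919)) (l 4)) (l 4)) (l 4)))) (b (a (b (a (b (a (l 185455348311) (l 4)) (l 4)) (l 4)) (l 4)) (l 4)) (l 4))), by decide +kernel⟩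

def k42_pp_022_t : ∃ t, chk3 f_pp_022_t t 21 28 1 = true :=
  ⟨(b (a (b (a (b (a (a (b (l 16775392) (a (l 81839262183) (l 167201736087))) (b (a (l 19562237255) (l 109219679191)) (l 4))) (b (a (l 192434670327) (l 4)) (l 4))) (l 4)) (l 4)) (l 4)) (l 4)) (l 4)), by decide +kernel⟩

def k43_pp_022_t : ∃ t, chk3 f_pp_022_t t 10 29 1 = true :=
  ⟨(l 4), by decide +kernel⟩

def k44_pp_022_t : ∃ t, chk3 f_pp_022_t t 10 15 1 = true :=
  ⟨(l 4), by decide +kernel⟩

def k45_pp_022_t : ∃ t, chk3 f_pp_022_t t 11 7 1 = true :=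
  ⟨(l 4), by decide +kernel⟩

def k46_pp_022_t : ∃ t, chk3 f_pp_022_t t 6 4 1 = true :=
  ⟨(a (a (b (l 6) (a (l 16645720) (l 16658560))) (a (b (l 6) (l 16671920)) (b (l 16636336) (l 16706824)))) (a (a (b (l 16649680) (l 16720808)) (b (l 16661648) (l 16754408))) (a (b (l 16671776) (a (l 16720856) (l 16725840))) (l 2)))), by decide +kernel⟩

def k47_pp_022_t : ∃ t, chk3 f_pp_022_t t 12 5 1 = true :=
  ⟨(b (a (a (b (l 16650376) (l 16690328)) (b (l 16663736) (l 16703944))) (a (b (l 16677480) (l 16738880)) (b (l 16691744) (b (l 16706280) (l 16737192))))) (a (b (b (a (l 16683904) (l 16718632)) (a (l 16694384) (l 16729184))) (a (b (l 16725184) (a (l 16717984) (l 16745944))) (b (c (l 16742048) (l 16720432)) (a (l 16753024) (l 16752312))))) (b (a (b (l 16732752) (a (l 16718848) (l 16746992))) (a (b (l 16722552) (l 16754240)) (b (l 16729856) (a (l 16738752) (l 16742416))))) (a (b (a (l 16731480) (l 16759680)) (a (c (l 16767568) (l 16767240)) (c (l 16764376) (l 16764080))))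 (a (b (l 16755848) (b (l 16767520) (c (l 16775680) (l 16765040)))) (a (b (l 16772512) (b (l 16762600) (c (l 16770760) (l 16770664)))) (b (l 16765712) (b (l 16766312) (b (l 16772336) (a (l 16778240) (a (l 44795172279) (l 94724167879)))))))))))), by decide +kernel⟩

def k48_pp_022_t : ∃ t, chk3 f_pp_022_t t 13 5 1 = true :=
  ⟨(b (a (b (a (l 16706048) (l 16740008)) (a (b (l 16720640) (l 16751552)) (a (l 16756576) (l 16762728)))) (b (a (b (l 16725472) (l 16735264)) (l 16781824)) (b (a (l 16766192) (l 33386666551)) (a (c (l 16776728) (l 16775568)) (c (l 16781008) (l 16785584)))))) (a (b (a (b (a (l 16737088) (l 16764952)) (a (l 16768784) (l 16765200))) (b (b (l 16772144) (a (l 16753096) (l 16780232))) (a (c (l 16782520) (l 16761000)) (c (l 16778120) (l 16777760))))) (a (a (b (c (l 16771320) (l 16770936)) (a (b (l 16772592) (b (c (l 29225917767) (l 16781248)) (a (l 155927444455) (l 4)))) (c (b (b (l 16771656) (l 16775568)) (l 168275469575)) (b (l 16778768) (l 172033569463)))))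 (b (b (l 16774616) (c (a (l 16769536) (l 16772904)) (l 16781576))) (b (c (b (a (l 16775136) (l 94187300455)) (a (l 104924718967) (l 4))) (a (b (l 16775080) (l 135526349287)) (l 140358186247))) (l 4)))) (b (a (a (b (l 16769104) (b (l 16774344) (c (l 84523623607) (l 84523623639)))) (b (l 16772312) (b (c (l 64659399447) (l 65196270311)) (l 4)))) (b (b (c (a (l 16773792) (l 16776712)) (l 36205243527)) (a (c (l 58216947863) (l 16776936)) (l 158074926823))) (l 4))) (l 4)))) (b (a (b (a (c (l 16762808) (l 16762096)) (b (l 16765312) (l 16780856))) (a (b (l 16780832) (b (a (l 16773304) (l 16781320)) (a (l 47479529607) (l 103314106343)))) (a (b (l 29762789319) (b (l 97408526247) (l 4))) (b (c (l 63048789895) (l 63048789783)) (l 4))))) (b (a (b (l 16770200) (c (c (l 48553277639) (l 16784408)) (l 49627020439))) (a (b (l 16773640) (l 88818595831)) (l 2))) (a (b (b (a (l 84523624007) (l 4)) (l 4)) (l 4)) (l 4)))) (a (a (a (b (b (l 153779958423) (l 4)) (l 4)) (l 4)) (l 4))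 (l 4))))), by decide +kernel⟩

def k49_pp_022_t : ∃ t, chk3 f_pp_022_t t 7 2 1 = true :=
  ⟨(b (l 2) (b (l 2) (b (l 2) (l 4)))), by decide +kernel⟩

def k50_pp_022_t : ∃ t, chk3 f_pp_022_t t 24 12 1 = true :=
  ⟨(b (a (b (a (l 16749808) (c (l 16762240) (l 16741072))) (a (c (l 16761496) (l 16761368)) (b (l 16764408) (a (l 16760632) (l 16769528))))) (b (a (c (l 16758952) (l 16758760)) (b (l 16761944) (a (l 16758168) (l 16761832)))) (a (b (c (l 16771752) (l 16761144)) (a (c (l 16767992) (l 16767920)) (c (l 16776912) (l 16771624)))) (a (b (l 16771968) (b (l 16775800) (b (c (l 28152174103) (l 16780344)) (a (l 96871645415) (l 4))))) (a (b (l 16774736) (b (c (l 16775976) (l 16775952)) (l 190287184279))) (b (l 16773960) (b (c (l 94187297703) (l 94187297751)) (l 4)))))))) (a (b (a (b (c (l 16774248) (l 16774176)) (b (c (l 16775456) (l 16770176)) (a (l 16772688) (a (l 16779712) (c (l 83986744839) (l 48553269879)))))) (b (c (a (l 16769248) (c (l 16778176) (l 16778160)))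 (a (l 16769192) (b (l 16770712) (l 16780304)))) (b (a (a (l 16774800) (b (l 16775560) (l 100629747095))) (b (a (l 88818581575) (l 4)) (l 4))) (a (c (l 161296157127) (l 168812348295)) (l 4))))) (a (b (b (c (a (b (l 16781200) (l 103850972247)) (l 172033576471)) (a (b (l 16775936) (l 105998458519)) (l 181697250855))) (l 4)) (l 4)) (l 4))) (b (b (a (b (a (c (l 16774448) (l 16774424)) (a (b (l 16776128) (l 119420229415)) (b (l 108145940071) (l 4)))) (a (a (b (l 31373398407) (l 137136969607)) (l 169886090103)) (l 4))) (l 4)) (l 4)) (l 4)))), by decide +kernel⟩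

def k51_pp_022_t : ∃ t, chk3 f_pp_022_t t 25 12 1 = true :=
  ⟨(b (a (b (a (b (c (l 16758856) (l 16758680)) (a (l 16770760) (c (l 16769256) (l 16769168)))) (b (a (l 16774784) (l 16773248)) (b (c (a (l 16770808) (l 16774520)) (l 16778504)) (a (c (l 16780344) (l 16775072)) (b (c (l 90966072359) (l 90429201575)) (l 175791668727)))))) (a (b (a (b (l 16771960) (a (l 16779288) (c (l 48016398759) (l 48016398711)))) (b (a (l 16774752) (c (l 33520883255) (l 16779208))) (c (l 160759284167) (l 166127991991)))) (a (c (l 182770992679) (l 189750311863)) (l 4))) (a (b (b (c (l 148411250215) (l 152706219143)) (l 4)) (l 4)) (l 4)))) (b (a (b (b (c (l 16771496) (l 16771424)) (a (l 16777192) (b (c (l 16779208) (l 16776560)) (a (l 97408521511) (l 4))))) (a (b (a (b (l 16776224) (l 118883358295)) (l 155390573991)) (l 4)) (l 4))) (b (b (a (c (c (l 46942658727) (l 48016400199)) (b (l 16776000) (l 99019136279))) (l 180086632343)) (l 4)) (l 4))) (l 4))) (l 4)), by decide +kernel⟩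

def k52_pp_022_t : ∃ t, chk3 f_pp_022_t t 13 12 1 = true :=
  ⟨(l 4), by decide +kernel⟩

def k53_pp_022_t : ∃ t, chk3 f_pp_022_t t 6 13 1 = true :=
  ⟨(l 4), by decide +kernel⟩

def k54_pp_022_t : ∃ t, chk3 f_pp_022_t t 6 7 1 = true :=
  ⟨(l 4), by decide +kernel⟩

def k55_pp_022_t : ∃ t, chk3 f_pp_022_t t 7 3 1 = true :=
  ⟨(l 4), by decide +kernel⟩

theorem s56_pp_022_t : ∃ t, chk3 f_pp_022_t t 12 12 1 = true := ex3_a k50_pp_022_t k51_pp_022_t

theorem s57_pp_022_t : ∃ t, chk3 f_pp_022_t t 6 12 1 = true := ex3_a s56_pp_022_t k52_pp_022_t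

theorem s58_pp_022_t : ∃ t, chk3 f_pp_022_t t 6 6 1 = true := ex3_b s57_pp_022_t k53_pp_022_t

theorem s59_pp_022_t : ∃ t, chk3 f_pp_022_t t 6 3 1 = true := ex3_b s58_pp_022_t k54_pp_022_t

theorem s60_pp_022_t : ∃ t, chk3 f_pp_022_t t 3 3 1 = true := ex3_a s59_pp_022_t k55_pp_022_t

theorem s61_pp_022_t : ∃ t, chk3 f_pp_022_t t 6 5 1 = true := ex3_a k47_pp_022_t k48_pp_022_t

theorem s62_pp_022_t : ∃ t, chk3 f_pp_022_t t 6 2 1 = true := ex3_b k46_pp_022_t s61_pp_022_t

theorem s63_pp_022_t : ∃ t, chk3 f_pp_022_t t 3 2 1 = true := ex3_a s62_pp_022_t k49_pp_022_t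

theorem s64_pp_022_t : ∃ t, chk3 f_pp_022_t t 3 1 1 = true := ex3_b s63_pp_022_t s60_pp_022_t

theorem s65_pp_022_t : ∃ t, chk3 f_pp_022_t t 20 28 1 = true := ex3_a k40_pp_022_t k41_pp_022_t

theorem s66_pp_022_t : ∃ t, chk3 f_pp_022_t t 10 28 1 = true := ex3_a s65_pp_022_t k42_pp_022_t

theorem s67_pp_022_t : ∃ t, chk3 f_pp_022_t t 10 14 1 = true := ex3_b s66_pp_022_t k43_pp_022_t

theorem s68_pp_022_t : ∃ t, chk3 f_pp_022_t t 10 7 1 = true := ex3_b s67_pp_022_t k44_pp_022_t

theorem s69_pp_022_t : ∃ t, chk3 f_pp_022_t t 5 7 1 = true := ex3_a s68_pp_022_t k45_pp_022_t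

theorem s70_pp_022_t : ∃ t, chk3 f_pp_022_t t 22 13 1 = true := ex3_b k37_pp_022_t k38_pp_022_t

theorem s71_pp_022_t : ∃ t, chk3 f_pp_022_t t 11 13 1 = true := ex3_a s70_pp_022_t k39_pp_022_t

theorem s72_pp_022_t : ∃ t, chk3 f_pp_022_t t 11 6 1 = true := ex3_b k36_pp_022_t s71_pp_022_t

theorem s73_pp_022_t : ∃ t, chk3 f_pp_022_t t 21 27 1 = true := ex3_a k34_pp_022_t k35_pp_022_t

theorem s74_pp_022_t : ∃ t, chk3 f_pp_022_t t 21 13 1 = true := ex3_b k33_pp_022_t s73_pp_022_t

theorem s75_pp_022_t : ∃ t, chk3 f_pp_022_t t 10 13 1 = true := ex3_a k32_pp_022_t s74_pp_022_t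

theorem s76_pp_022_t : ∃ t, chk3 f_pp_022_t t 10 6 1 = true := ex3_b k31_pp_022_t s75_pp_022_t

theorem s77_pp_022_t : ∃ t, chk3 f_pp_022_t t 5 6 1 = true := ex3_a s76_pp_022_t s72_pp_022_t

theorem s78_pp_022_t : ∃ t, chk3 f_pp_022_t t 5 3 1 = true := ex3_b s77_pp_022_t s69_pp_022_t

theorem s79_pp_022_t : ∃ t, chk3 f_pp_022_t t 36 60 1 = true := ex3_b k25_pp_022_t k26_pp_022_t

theorem s80_pp_022_t : ∃ t, chk3 f_pp_022_t t 18 60 1 = true := ex3_a s79_pp_022_t k27_pp_022_t

theorem s81_pp_022_t : ∃ t, chk3 f_pp_022_t t 18 30 1 = true := ex3_b s80_pp_022_t k28_pp_022_t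

theorem s82_pp_022_t : ∃ t, chk3 f_pp_022_t t 18 15 1 = true := ex3_b s81_pp_022_t k29_pp_022_t

theorem s83_pp_022_t : ∃ t, chk3 f_pp_022_t t 9 15 1 = true := ex3_a s82_pp_022_t k30_pp_022_t

theorem s84_pp_022_t : ∃ t, chk3 f_pp_022_t t 19 14 1 = true := ex3_b k23_pp_022_t k24_pp_022_t

theorem s85_pp_022_t : ∃ t, chk3 f_pp_022_t t 18 29 1 = true := ex3_a k21_pp_022_t k22_pp_022_t

theorem s86_pp_022_t : ∃ t, chk3 f_pp_022_t t 18 14 1 = true := ex3_b k20_pp_022_t s85_pp_022_t

theorem s87_pp_022_t : ∃ t, chk3 f_pp_022_t t 9 14 1 = true := ex3_a s86_pp_022_t s84_pp_022_t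

theorem s88_pp_022_t : ∃ t, chk3 f_pp_022_t t 9 7 1 = true := ex3_b s87_pp_022_t s83_pp_022_t

theorem s89_pp_022_t : ∃ t, chk3 f_pp_022_t t 68 124 1 = true := ex3_b k14_pp_022_t k15_pp_022_t

theorem s90_pp_022_t : ∃ t, chk3 f_pp_022_t t 34 124 1 = true := ex3_a s89_pp_022_t k16_pp_022_t

theorem s91_pp_022_t : ∃ t, chk3 f_pp_022_t t 34 62 1 = true := ex3_b s90_pp_022_t k17_pp_022_t

theorem s92_pp_022_t : ∃ t, chk3 f_pp_022_t t 17 62 1 = true := ex3_a s91_pp_022_t k18_pp_022_t

theorem s93_pp_022_t : ∃ t, chk3 f_pp_022_t t 17 31 1 = true := ex3_b s92_pp_022_t k19_pp_022_t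

theorem s94_pp_022_t : ∃ t, chk3 f_pp_022_t t 35 122 1 = true := ex3_a k11_pp_022_t k12_pp_022_t

theorem s95_pp_022_t : ∃ t, chk3 f_pp_022_t t 35 61 1 = true := ex3_b s94_pp_022_t k13_pp_022_t

theorem s96_pp_022_t : ∃ t, chk3 f_pp_022_t t 35 30 1 = true := ex3_b k10_pp_022_t s95_pp_022_t

theorem s97_pp_022_t : ∃ t, chk3 f_pp_022_t t 69 61 1 = true := ex3_a k8_pp_022_t k9_pp_022_t

theorem s98_pp_022_t : ∃ t, chk3 f_pp_022_t t 34 61 1 = true := ex3_a k7_pp_022_t s97_pp_022_t

theorem s99_pp_022_t : ∃ t, chk3 f_pp_022_t t 34 30 1 = true := ex3_b k6_pp_022_t s98_pp_022_t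

theorem s100_pp_022_t : ∃ t, chk3 f_pp_022_t t 17 30 1 = true := ex3_a s99_pp_022_t s96_pp_022_t

theorem s101_pp_022_t : ∃ t, chk3 f_pp_022_t t 17 15 1 = true := ex3_b s100_pp_022_t s93_pp_022_t

theorem s102_pp_022_t : ∃ t, chk3 f_pp_022_t t 8 15 1 = true := ex3_a k5_pp_022_t s101_pp_022_t

theorem s103_pp_022_t : ∃ t, chk3 f_pp_022_t t 8 14 1 = true := ex3_a k3_pp_022_t k4_pp_022_t

theorem s104_pp_022_t : ∃ t, chk3 f_pp_022_t t 8 7 1 = true := ex3_b s103_pp_022_t s102_pp_022_t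

theorem s105_pp_022_t : ∃ t, chk3 f_pp_022_t t 4 7 1 = true := ex3_a s104_pp_022_t s88_pp_022_t

theorem s106_pp_022_t : ∃ t, chk3 f_pp_022_t t 4 6 1 = true := ex3_a k1_pp_022_t k2_pp_022_t

theorem s107_pp_022_t : ∃ t, chk3 f_pp_022_t t 4 3 1 = true := ex3_b s106_pp_022_t s105_pp_022_t

theorem s108_pp_022_t : ∃ t, chk3 f_pp_022_t t 2 3 1 = true := ex3_a s107_pp_022_t s78_pp_022_t

theorem s109_pp_022_t : ∃ t, chk3 f_pp_022_t t 2 1 1 = true := ex3_b k0_pp_022_t s108_pp_022_t

theorem s110_pp_022_t : ∃ t, chk3 f_pp_022_t t 1 1 1 = true := ex3_a s109_pp_022_t s64_pp_022_t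

theorem c_pp_022_t : CertNE 0 536870912 0 536870912 697932185 42949674 3 eng mog cd0q0 cd0q2 pd2 true true true .pp 0 2 2
    ndB0q0 ndB0q2 pcB2 cut_pp_022_t Ext.none :=
  certNE0 (fam := true) (s1 := true) (s2 := true) (a := 0) (b := 2) (c := 2) (cn := .pp) (n1 := ndB0q0) (n2 := ndB0q2) (pc := pcB2) (cut := cut_pp_022_t) (xt := Ext.none) (P1 := 0) (W1 := 536870912) (P2 := 0) (W2 := 536870912) (P3 := 697932185) (W3 := 42949674) (N0 := 3) (En := eng) (mo := mog) (C1 := cd0q0) (C2 := cd0q2) (C3 := pd2)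
    rfl s110_pp_022_t

noncomputable def cut_pp_023_s : Cut := Cut.of [[⟨4, 0, 0, 1449551462⟩]]

noncomputable def f_pp_023_s : ℕ → ℕ → ℕ → ℕ → Bool := onCell 0 536870912 0 536870912 697932185 42949674
    (rowNE 3 eng mog cd0q0 cd0q2 pd3 0 true true true .up 0 2 3 (qsf 0 536870912 0 536870912 3) ndB0q0 ndB0q2 pcB3 cut_pp_023_s Ext.none)

def k0_pp_023_s : ∃ t, chk3 f_pp_023_s t 1 1 1 = true :=
  ⟨(l 6), by decide +kernel⟩

theorem c_pp_023_s : CertNE 0 536870912 0 536870912 697932185 42949674 3 eng mog cd0q0 cd0q2 pd3 true true true .up 0 2 3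
    ndB0q0 ndB0q2 pcB3 cut_pp_023_s Ext.none :=
  certNE0 (fam := true) (s1 := true) (s2 := true) (a := 0) (b := 2) (c := 3) (cn := .up) (n1 := ndB0q0) (n2 := ndB0q2) (pc := pcB3) (cut := cut_pp_023_s) (xt := Ext.none) (P1 := 0) (W1 := 536870912) (P2 := 0) (W2 := 536870912) (P3 := 697932185) (W3 := 42949674) (N0 := 3) (En := eng) (mo := mog) (C1 := cd0q0) (C2 := cd0q2) (C3 := pd3)
    rfl k0_pp_023_s

noncomputable def cut_pp_023_t : Cut := Cut.of [[⟨3, 0, 0, 2845415833⟩]]

noncomputable def f_pp_023_t : ℕ → ℕ → ℕ → ℕ → Bool := onCell 1610612736 536870912 0 536870912 697932185 42949674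
    (rowNE 3 eng mog cd0q0 cd0q2 pd3 2 true true true .up 0 2 3 (qsf 0 536870912 0 536870912 3) ndB0q0 ndB0q2 pcB3 cut_pp_023_t Ext.none)

def k0_pp_023_t : ∃ t, chk3 f_pp_023_t t 4 2 1 = true :=
  ⟨(a (b (b (a (b (l 16671576) (l 16706336)) (b (l 16687360) (l 16701168))) (b (a (l 16701512) (a (l 16713600) (l 16721472))) (a (a (l 16716560) (l 16725320)) (a (l 16733696) (l 16763136))))) (b (a (b (a (l 16738560) (l 16768392)) (a (b (l 16776864) (a (l 16765440) (l 16780456))) (b (l 16775344) (b (a (l 16771504) (c (l 60901308695) (l 60364437895))) (a (b (l 54458854039) (l 97408530359)) (l 144116280055)))))) (b (a (l 16777232) (b (l 16780272) (b (l 16778680) (a (l 16771904) (a (l 16775480) (l 89892335847)))))) (a (b (a (b (l 16768680) (l 49627017175)) (b (l 16773288) (l 115125253495))) (b (a (l 128547024983) (l 4)) (l 4))) (b (a (b (b (l 16781648) (l 109756561031)) (l 4)) (l 4)) (l 4))))) (a (b (a (b (a (a (b (l 16773320) (l 114588382903)) (b (l 49627014615) (l 4)))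 (a (b (l 78081176119) (l 4)) (l 135526344679))) (l 4)) (l 4)) (l 4)) (l 4)))) (b (b (a (b (l 16701264) (l 16736904)) (a (l 16744272) (b (l 16715992) (l 16734192)))) (a (a (b (l 16729432) (l 16771904)) (b (l 16737464) (b (l 16754064) (a (l 16763792) (l 16768624))))) (b (a (l 16766664) (b (l 16749728) (l 16782488))) (a (b (l 16784400) (b (a (l 16770472) (l 49627017639)) (a (l 75933683671) (l 147874376039)))) (b (a (b (l 16767936) (l 16779944)) (b (l 16773608) (l 121567703687))) (a (l 146263760743) (l 4))))))) (b (b (a (a (b (a (l 16766296) (b (l 16768048) (l 16782048))) (a (b (a (l 16774168) (l 58216949863)) (l 142505667463)) (b (l 130157637895) (l 4)))) (b (a (b (l 16772944) (b (l 90429206919) (l 150021861303))) (b (b (l 53385112087) (l 108145948231)) (l 4))) (l 4))) (l 4)) (l 4)) (l 4)))), by decide +kernel⟩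

def k1_pp_023_t : ∃ t, chk3 f_pp_023_t t 5 2 1 = true :=
  ⟨(b (a (a (b (a (b (l 16730232) (l 16768088)) (b (l 16743000) (l 16779576))) (b (a (b (l 16761632) (b (l 16782848) (a (l 16772976) (l 95797918119)))) (b (a (l 16769696) (b (l 16772016) (l 86134238775))) (a (b (l 90429207175) (l 4)) (l 153779952263)))) (a (b (a (b (l 102240370647) (l 4)) (l 4)) (l 4)) (l 4)))) (b (l 2) (l 2))) (l 2)) (l 4)), by decide +kernel⟩

def k2_pp_023_t : ∃ t, chk3 f_pp_023_t t 2 3 1 = true :=
  ⟨(l 4), by decide +kernel⟩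

def k3_pp_023_t : ∃ t, chk3 f_pp_023_t t 3 1 1 = true :=
  ⟨(l 2), by decide +kernel⟩

theorem s4_pp_023_t : ∃ t, chk3 f_pp_023_t t 2 2 1 = true := ex3_a k0_pp_023_t k1_pp_023_t

theorem s5_pp_023_t : ∃ t, chk3 f_pp_023_t t 2 1 1 = true := ex3_b s4_pp_023_t k2_pp_023_t

theorem s6_pp_023_t : ∃ t, chk3 f_pp_023_t t 1 1 1 = true := ex3_a s5_pp_023_t k3_pp_023_t

theorem c_pp_023_t : CertNE 0 536870912 0 536870912 697932185 42949674 3 eng mog cd0q0 cd0q2 pd3 true true true .up 0 2 3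
    ndB0q0 ndB0q2 pcB3 cut_pp_023_t Ext.none :=
  certNE2 (fam := true) (s1 := true) (s2 := true) (a := 0) (b := 2) (c := 3) (cn := .up) (n1 := ndB0q0) (n2 := ndB0q2) (pc := pcB3) (cut := cut_pp_023_t) (xt := Ext.none) (P1 := 0) (W1 := 536870912) (P2 := 0) (W2 := 536870912) (P3 := 697932185) (W3 := 42949674) (N0 := 3) (En := eng) (mo := mog) (C1 := cd0q0) (C2 := cd0q2) (C3 := pd3)
    rfl (fun _ => rfl) s6_pp_023_t

noncomputable def cut_pp_101_s : Cut := Cut.of [[⟨4, 0, 0, 1449551462⟩]]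

noncomputable def f_pp_101_s : ℕ → ℕ → ℕ → ℕ → Bool := onCell 536870912 536870912 0 536870912 697932185 42949674
    (rowNE 3 eng mog cd0q1 cd0q0 pd1 0 true true true .npn 1 0 1 (qsf 536870912 536870912 0 536870912 1) ndB0q1 ndB0q0 pcB1 cut_pp_101_s Ext.none)

def k0_pp_101_s : ∃ t, chk3 f_pp_101_s t 1 1 1 = true :=
  ⟨(l 6), by decide +kernel⟩

theorem c_pp_101_s : CertNE 536870912 536870912 0 536870912 697932185 42949674 3 eng mog cd0q1 cd0q0 pd1 true true true .npn 1 0 1
    ndB0q1 ndB0q0 pcB1 cut_pp_101_s Ext.none :=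
  certNE0 (fam := true) (s1 := true) (s2 := true) (a := 1) (b := 0) (c := 1) (cn := .npn) (n1 := ndB0q1) (n2 := ndB0q0) (pc := pcB1) (cut := cut_pp_101_s) (xt := Ext.none) (P1 := 536870912) (W1 := 536870912) (P2 := 0) (W2 := 536870912) (P3 := 697932185) (W3 := 42949674) (N0 := 3) (En := eng) (mo := mog) (C1 := cd0q1) (C2 := cd0q0) (C3 := pd1)
    rfl k0_pp_101_s

noncomputable def cut_pp_101_t : Cut := Cut.of [[⟨3, 0, 0, 2845415833⟩]]

noncomputable def f_pp_101_t : ℕ → ℕ → ℕ → ℕ → Bool := onCell 536870912 536870912 0 536870912 697932185 42949674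
    (rowNE 3 eng mog cd0q1 cd0q0 pd1 0 true true true .npn 1 0 1 (qsf 536870912 536870912 0 536870912 1) ndB0q1 ndB0q0 pcB1 cut_pp_101_t Ext.none)

def k0_pp_101_t : ∃ t, chk3 f_pp_101_t t 1 1 1 = true :=
  ⟨(a (l 4) (l 5)), by decide +kernel⟩

theorem c_pp_101_t : CertNE 536870912 536870912 0 536870912 697932185 42949674 3 eng mog cd0q1 cd0q0 pd1 true true true .npn 1 0 1
    ndB0q1 ndB0q0 pcB1 cut_pp_101_t Ext.none :=
  certNE0 (fam := true) (s1 := true) (s2 := true) (a := 1) (b := 0) (c := 1) (cn := .npn) (n1 := ndB0q1) (n2 := ndB0q0) (pc := pcB1) (cut := cut_pp_101_t) (xt := Ext.none) (P1 := 536870912) (W1 := 536870912) (P2 := 0) (W2 := 536870912) (P3 := 697932185) (W3 := 42949674) (N0 := 3) (En := eng) (mo := mog) (C1 := cd0q1) (C2 := cd0q0) (C3 := pd1)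
    rfl k0_pp_101_t

noncomputable def cut_pp_102_s : Cut := Cut.of [[⟨4, 0, 0, 1449551462⟩]]

noncomputable def f_pp_102_s : ℕ → ℕ → ℕ → ℕ → Bool := onCell 536870912 536870912 0 536870912 697932185 42949674
    (rowNE 3 eng mog cd0q1 cd0q0 pd2 0 true true true .npp 1 0 2 (qsf 536870912 536870912 0 536870912 2) ndB0q1 ndB0q0 pcB2 cut_pp_102_s Ext.none)

def k0_pp_102_s : ∃ t, chk3 f_pp_102_s t 1 1 1 = true :=
  ⟨(l 6), by decide +kernel⟩

theorem c_pp_102_s : CertNE 536870912 536870912 0 536870912 697932185 42949674 3 eng mog cd0q1 cd0q0 pd2 true true true .npp 1 0 2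
    ndB0q1 ndB0q0 pcB2 cut_pp_102_s Ext.none :=
  certNE0 (fam := true) (s1 := true) (s2 := true) (a := 1) (b := 0) (c := 2) (cn := .npp) (n1 := ndB0q1) (n2 := ndB0q0) (pc := pcB2) (cut := cut_pp_102_s) (xt := Ext.none) (P1 := 536870912) (W1 := 536870912) (P2 := 0) (W2 := 536870912) (P3 := 697932185) (W3 := 42949674) (N0 := 3) (En := eng) (mo := mog) (C1 := cd0q1) (C2 := cd0q0) (C3 := pd2)
    rfl k0_pp_102_s

noncomputable def cut_pp_102_t : Cut := Cut.of [[⟨3, 0, 0, 2845415833⟩]]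

noncomputable def f_pp_102_t : ℕ → ℕ → ℕ → ℕ → Bool := onCell 536870912 536870912 0 536870912 697932185 42949674
    (rowNE 3 eng mog cd0q1 cd0q0 pd2 0 true true true .npp 1 0 2 (qsf 536870912 536870912 0 536870912 2) ndB0q1 ndB0q0 pcB2 cut_pp_102_t Ext.none)

def k0_pp_102_t : ∃ t, chk3 f_pp_102_t t 1 1 1 = true :=
  ⟨(a (l 4) (l 5)), by decide +kernel⟩

theorem c_pp_102_t : CertNE 536870912 536870912 0 536870912 697932185 42949674 3 eng mog cd0q1 cd0q0 pd2 true true true .npp 1 0 2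
    ndB0q1 ndB0q0 pcB2 cut_pp_102_t Ext.none :=
  certNE0 (fam := true) (s1 := true) (s2 := true) (a := 1) (b := 0) (c := 2) (cn := .npp) (n1 := ndB0q1) (n2 := ndB0q0) (pc := pcB2) (cut := cut_pp_102_t) (xt := Ext.none) (P1 := 536870912) (W1 := 536870912) (P2 := 0) (W2 := 536870912) (P3 := 697932185) (W3 := 42949674) (N0 := 3) (En := eng) (mo := mog) (C1 := cd0q1) (C2 := cd0q0) (C3 := pd2)
    rfl k0_pp_102_t

noncomputable def cut_pp_112_s : Cut := Cut.of [[⟨4, 0, 0, 1449551462⟩]]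

noncomputable def f_pp_112_s : ℕ → ℕ → ℕ → ℕ → Bool := onCell 536870912 536870912 536870912 536870912 697932185 42949674
    (rowNE 3 eng mog cd0q1 cd0q1 pd2 0 true true true .dn 1 1 2 (qsf 536870912 536870912 536870912 536870912 2) ndB0q1 ndB0q1 pcB2 cut_pp_112_s Ext.none)

def k0_pp_112_s : ∃ t, chk3 f_pp_112_s t 1 1 1 = true :=
  ⟨(l 4), by decide +kernel⟩

theorem c_pp_112_s : CertNE 536870912 536870912 536870912 536870912 697932185 42949674 3 eng mog cd0q1 cd0q1 pd2 true true true .dn 1 1 2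
    ndB0q1 ndB0q1 pcB2 cut_pp_112_s Ext.none :=
  certNE0 (fam := true) (s1 := true) (s2 := true) (a := 1) (b := 1) (c := 2) (cn := .dn) (n1 := ndB0q1) (n2 := ndB0q1) (pc := pcB2) (cut := cut_pp_112_s) (xt := Ext.none) (P1 := 536870912) (W1 := 536870912) (P2 := 536870912) (W2 := 536870912) (P3 := 697932185) (W3 := 42949674) (N0 := 3) (En := eng) (mo := mog) (C1 := cd0q1) (C2 := cd0q1) (C3 := pd2)
    rfl k0_pp_112_s

noncomputable def cut_pp_112_t : Cut := Cut.of [[⟨3, 0, 0, 2845415833⟩]]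

noncomputable def f_pp_112_t : ℕ → ℕ → ℕ → ℕ → Bool := onCell 536870912 536870912 536870912 536870912 697932185 42949674
    (rowNE 3 eng mog cd0q1 cd0q1 pd2 0 true true true .dn 1 1 2 (qsf 536870912 536870912 536870912 536870912 2) ndB0q1 ndB0q1 pcB2 cut_pp_112_t Ext.none)

def k0_pp_112_t : ∃ t, chk3 f_pp_112_t t 1 1 1 = true :=
  ⟨(l 4), by decide +kernel⟩

theorem c_pp_112_t : CertNE 536870912 536870912 536870912 536870912 697932185 42949674 3 eng mog cd0q1 cd0q1 pd2 true true true .dn 1 1 2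
    ndB0q1 ndB0q1 pcB2 cut_pp_112_t Ext.none :=
  certNE0 (fam := true) (s1 := true) (s2 := true) (a := 1) (b := 1) (c := 2) (cn := .dn) (n1 := ndB0q1) (n2 := ndB0q1) (pc := pcB2) (cut := cut_pp_112_t) (xt := Ext.none) (P1 := 536870912) (W1 := 536870912) (P2 := 536870912) (W2 := 536870912) (P3 := 697932185) (W3 := 42949674) (N0 := 3) (En := eng) (mo := mog) (C1 := cd0q1) (C2 := cd0q1) (C3 := pd2)
    rfl k0_pp_112_t

noncomputable def cut_pp_113_s : Cut := Cut.of [[⟨4, 0, 0, 1449551462⟩]]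

noncomputable def f_pp_113_s : ℕ → ℕ → ℕ → ℕ → Bool := onCell 536870912 536870912 536870912 536870912 697932185 42949674
    (rowNE 3 eng mog cd0q1 cd0q1 pd3 0 true true true .nn 1 1 3 (qsf 536870912 536870912 536870912 536870912 3) ndB0q1 ndB0q1 pcB3 cut_pp_113_s Ext.none)

def k0_pp_113_s : ∃ t, chk3 f_pp_113_s t 1 1 1 = true :=
  ⟨(l 4), by decide +kernel⟩

theorem c_pp_113_s : CertNE 536870912 536870912 536870912 536870912 697932185 42949674 3 eng mog cd0q1 cd0q1 pd3 true true true .nn 1 1 3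
    ndB0q1 ndB0q1 pcB3 cut_pp_113_s Ext.none :=
  certNE0 (fam := true) (s1 := true) (s2 := true) (a := 1) (b := 1) (c := 3) (cn := .nn) (n1 := ndB0q1) (n2 := ndB0q1) (pc := pcB3) (cut := cut_pp_113_s) (xt := Ext.none) (P1 := 536870912) (W1 := 536870912) (P2 := 536870912) (W2 := 536870912) (P3 := 697932185) (W3 := 42949674) (N0 := 3) (En := eng) (mo := mog) (C1 := cd0q1) (C2 := cd0q1) (C3 := pd3)
    rfl k0_pp_113_s

noncomputable def cut_pp_113_t : Cut := Cut.of [[⟨3, 0, 0, 2845415833⟩]]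

noncomputable def f_pp_113_t : ℕ → ℕ → ℕ → ℕ → Bool := onCell 536870912 536870912 536870912 536870912 697932185 42949674
    (rowNE 3 eng mog cd0q1 cd0q1 pd3 0 true true true .nn 1 1 3 (qsf 536870912 536870912 536870912 536870912 3) ndB0q1 ndB0q1 pcB3 cut_pp_113_t Ext.none)

def k0_pp_113_t : ∃ t, chk3 f_pp_113_t t 1 1 1 = true :=
  ⟨(l 4), by decide +kernel⟩

theorem c_pp_113_t : CertNE 536870912 536870912 536870912 536870912 697932185 42949674 3 eng mog cd0q1 cd0q1 pd3 true true true .nn 1 1 3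
    ndB0q1 ndB0q1 pcB3 cut_pp_113_t Ext.none :=
  certNE0 (fam := true) (s1 := true) (s2 := true) (a := 1) (b := 1) (c := 3) (cn := .nn) (n1 := ndB0q1) (n2 := ndB0q1) (pc := pcB3) (cut := cut_pp_113_t) (xt := Ext.none) (P1 := 536870912) (W1 := 536870912) (P2 := 536870912) (W2 := 536870912) (P3 := 697932185) (W3 := 42949674) (N0 := 3) (En := eng) (mo := mog) (C1 := cd0q1) (C2 := cd0q1) (C3 := pd3)
    rfl k0_pp_113_t

noncomputable def cut_pp_123_s : Cut := Cut.of [[⟨4, 0, 0, 1449551462⟩]]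

noncomputable def f_pp_123_s : ℕ → ℕ → ℕ → ℕ → Bool := onCell 536870912 536870912 0 536870912 697932185 42949674
    (rowNE 3 eng mog cd0q1 cd0q2 pd3 0 true true true .npn 1 2 3 (qsf 536870912 536870912 0 536870912 3) ndB0q1 ndB0q2 pcB3 cut_pp_123_s Ext.none)

def k0_pp_123_s : ∃ t, chk3 f_pp_123_s t 1 1 1 = true :=
  ⟨(l 6), by decide +kernel⟩

theorem c_pp_123_s : CertNE 536870912 536870912 0 536870912 697932185 42949674 3 eng mog cd0q1 cd0q2 pd3 true true true .npn 1 2 3
    ndB0q1 ndB0q2 pcB3 cut_pp_123_s Ext.none :=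
  certNE0 (fam := true) (s1 := true) (s2 := true) (a := 1) (b := 2) (c := 3) (cn := .npn) (n1 := ndB0q1) (n2 := ndB0q2) (pc := pcB3) (cut := cut_pp_123_s) (xt := Ext.none) (P1 := 536870912) (W1 := 536870912) (P2 := 0) (W2 := 536870912) (P3 := 697932185) (W3 := 42949674) (N0 := 3) (En := eng) (mo := mog) (C1 := cd0q1) (C2 := cd0q2) (C3 := pd3)
    rfl k0_pp_123_s

noncomputable def cut_pp_123_t : Cut := Cut.of [[⟨3, 0, 0, 2845415833⟩]]

noncomputable def f_pp_123_t : ℕ → ℕ → ℕ → ℕ → Bool := onCell 536870912 536870912 0 536870912 697932185 42949674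
    (rowNE 3 eng mog cd0q1 cd0q2 pd3 0 true true true .npn 1 2 3 (qsf 536870912 536870912 0 536870912 3) ndB0q1 ndB0q2 pcB3 cut_pp_123_t Ext.none)

def k0_pp_123_t : ∃ t, chk3 f_pp_123_t t 1 1 1 = true :=
  ⟨(a (b (a (b (a (b (a (b (a (l 16752712) (l 16761776)) (a (a (l 16764248) (l 36742112423)) (b (a (l 16769272) (l 16772928)) (a (b (l 16774392) (l 103314108167)) (l 123178305671))))) (b (a (b (l 16766384) (l 16771856)) (b (l 16772704) (a (l 82376115975) (l 110830285719)))) (a (b (a (l 65733114791) (l 110830285543)) (l 4)) (l 4)))) (a (b (a (b (a (b (l 16774120) (l 104387850919)) (l 124788928215)) (l 4)) (l 4)) (l 4)) (l 4))) (b (a (b (a (b (a (l 80765502503) (l 110830285799)) (l 4)) (l 4)) (l 4)) (l 4)) (l 4))) (l 4)) (l 4)) (l 4)) (l 4)), by decide +kernel⟩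

theorem c_pp_123_t : CertNE 536870912 536870912 0 536870912 697932185 42949674 3 eng mog cd0q1 cd0q2 pd3 true true true .npn 1 2 3
    ndB0q1 ndB0q2 pcB3 cut_pp_123_t Ext.none :=
  certNE0 (fam := true) (s1 := true) (s2 := true) (a := 1) (b := 2) (c := 3) (cn := .npn) (n1 := ndB0q1) (n2 := ndB0q2) (pc := pcB3) (cut := cut_pp_123_t) (xt := Ext.none) (P1 := 536870912) (W1 := 536870912) (P2 := 0) (W2 := 536870912) (P3 := 697932185) (W3 := 42949674) (N0 := 3) (En := eng) (mo := mog) (C1 := cd0q1) (C2 := cd0q2) (C3 := pd3)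
    rfl k0_pp_123_t

noncomputable def cut_pp_202_s : Cut := Cut.of [[⟨4, 0, 0, 1449551462⟩]]

noncomputable def f_pp_202_s : ℕ → ℕ → ℕ → ℕ → Bool := onCell 0 536870912 0 536870912 697932185 42949674
    (rowNE 3 eng mog cd0q2 cd0q0 pd2 0 true true true .pp 2 0 2 (qsf 0 536870912 0 536870912 2) ndB0q2 ndB0q0 pcB2 cut_pp_202_s Ext.none)

def k0_pp_202_s : ∃ t, chk3 f_pp_202_s t 1 1 1 = true :=
  ⟨(l 5), by decide +kernel⟩

theorem c_pp_202_s : CertNE 0 536870912 0 536870912 697932185 42949674 3 eng mog cd0q2 cd0q0 pd2 true true true .pp 2 0 2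
    ndB0q2 ndB0q0 pcB2 cut_pp_202_s Ext.none :=
  certNE0 (fam := true) (s1 := true) (s2 := true) (a := 2) (b := 0) (c := 2) (cn := .pp) (n1 := ndB0q2) (n2 := ndB0q0) (pc := pcB2) (cut := cut_pp_202_s) (xt := Ext.none) (P1 := 0) (W1 := 536870912) (P2 := 0) (W2 := 536870912) (P3 := 697932185) (W3 := 42949674) (N0 := 3) (En := eng) (mo := mog) (C1 := cd0q2) (C2 := cd0q0) (C3 := pd2)
    rfl k0_pp_202_s

noncomputable def cut_pp_202_t : Cut := Cut.of [[⟨3, 0, 0, 2845415833⟩]]

noncomputable def f_pp_202_t : ℕ → ℕ → ℕ → ℕ → Bool := onCell 0 536870912 0 536870912 697932185 42949674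
    (rowNE 3 eng mog cd0q2 cd0q0 pd2 0 true true true .pp 2 0 2 (qsf 0 536870912 0 536870912 2) ndB0q2 ndB0q0 pcB2 cut_pp_202_t Ext.none)

def k0_pp_202_t : ∃ t, chk3 f_pp_202_t t 1 1 1 = true :=
  ⟨(l 5), by decide +kernel⟩

theorem c_pp_202_t : CertNE 0 536870912 0 536870912 697932185 42949674 3 eng mog cd0q2 cd0q0 pd2 true true true .pp 2 0 2
    ndB0q2 ndB0q0 pcB2 cut_pp_202_t Ext.none :=
  certNE0 (fam := true) (s1 := true) (s2 := true) (a := 2) (b := 0) (c := 2) (cn := .pp) (n1 := ndB0q2) (n2 := ndB0q0) (pc := pcB2) (cut := cut_pp_202_t) (xt := Ext.none) (P1 := 0) (W1 := 536870912) (P2 := 0) (W2 := 536870912) (P3 := 697932185) (W3 := 42949674) (N0 := 3) (En := eng) (mo := mog) (C1 := cd0q2) (C2 := cd0q0) (C3 := pd2)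
    rfl k0_pp_202_t

noncomputable def cut_pp_203_s : Cut := Cut.of [[⟨4, 0, 0, 1449551462⟩]]

noncomputable def f_pp_203_s : ℕ → ℕ → ℕ → ℕ → Bool := onCell 0 536870912 0 536870912 697932185 42949674
    (rowNE 3 eng mog cd0q2 cd0q0 pd3 0 true true true .up 2 0 3 (qsf 0 536870912 0 536870912 3) ndB0q2 ndB0q0 pcB3 cut_pp_203_s Ext.none)

def k0_pp_203_s : ∃ t, chk3 f_pp_203_s t 1 1 1 = true :=
  ⟨(l 5), by decide +kernel⟩

theorem c_pp_203_s : CertNE 0 536870912 0 536870912 697932185 42949674 3 eng mog cd0q2 cd0q0 pd3 true true true .up 2 0 3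
    ndB0q2 ndB0q0 pcB3 cut_pp_203_s Ext.none :=
  certNE0 (fam := true) (s1 := true) (s2 := true) (a := 2) (b := 0) (c := 3) (cn := .up) (n1 := ndB0q2) (n2 := ndB0q0) (pc := pcB3) (cut := cut_pp_203_s) (xt := Ext.none) (P1 := 0) (W1 := 536870912) (P2 := 0) (W2 := 536870912) (P3 := 697932185) (W3 := 42949674) (N0 := 3) (En := eng) (mo := mog) (C1 := cd0q2) (C2 := cd0q0) (C3 := pd3)
    rfl k0_pp_203_s

noncomputable def cut_pp_203_t : Cut := Cut.of [[⟨3, 0, 0, 2845415833⟩]]

noncomputable def f_pp_203_t : ℕ → ℕ → ℕ → ℕ → Bool := onCell 0 536870912 0 536870912 697932185 42949674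
    (rowNE 3 eng mog cd0q2 cd0q0 pd3 0 true true true .up 2 0 3 (qsf 0 536870912 0 536870912 3) ndB0q2 ndB0q0 pcB3 cut_pp_203_t Ext.none)

def k0_pp_203_t : ∃ t, chk3 f_pp_203_t t 1 1 1 = true :=
  ⟨(l 5), by decide +kernel⟩

theorem c_pp_203_t : CertNE 0 536870912 0 536870912 697932185 42949674 3 eng mog cd0q2 cd0q0 pd3 true true true .up 2 0 3
    ndB0q2 ndB0q0 pcB3 cut_pp_203_t Ext.none :=
  certNE0 (fam := true) (s1 := true) (s2 := true) (a := 2) (b := 0) (c := 3) (cn := .up) (n1 := ndB0q2) (n2 := ndB0q0) (pc := pcB3) (cut := cut_pp_203_t) (xt := Ext.none) (P1 := 0) (W1 := 536870912) (P2 := 0) (W2 := 536870912) (P3 := 697932185) (W3 := 42949674) (N0 := 3) (En := eng) (mo := mog) (C1 := cd0q2) (C2 := cd0q0) (C3 := pd3)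
    rfl k0_pp_203_t

noncomputable def cut_pp_213_s : Cut := Cut.of [[⟨4, 0, 0, 1449551462⟩]]

noncomputable def f_pp_213_s : ℕ → ℕ → ℕ → ℕ → Bool := onCell 0 536870912 536870912 536870912 697932185 42949674
    (rowNE 3 eng mog cd0q2 cd0q1 pd3 0 true true true .pnn 2 1 3 (qsf 0 536870912 536870912 536870912 3) ndB0q2 ndB0q1 pcB3 cut_pp_213_s Ext.none)

def k0_pp_213_s : ∃ t, chk3 f_pp_213_s t 1 1 1 = true :=
  ⟨(l 6), by decide +kernel⟩

theorem c_pp_213_s : CertNE 0 536870912 536870912 536870912 697932185 42949674 3 eng mog cd0q2 cd0q1 pd3 true true true .pnn 2 1 3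
    ndB0q2 ndB0q1 pcB3 cut_pp_213_s Ext.none :=
  certNE0 (fam := true) (s1 := true) (s2 := true) (a := 2) (b := 1) (c := 3) (cn := .pnn) (n1 := ndB0q2) (n2 := ndB0q1) (pc := pcB3) (cut := cut_pp_213_s) (xt := Ext.none) (P1 := 0) (W1 := 536870912) (P2 := 536870912) (W2 := 536870912) (P3 := 697932185) (W3 := 42949674) (N0 := 3) (En := eng) (mo := mog) (C1 := cd0q2) (C2 := cd0q1) (C3 := pd3)
    rfl k0_pp_213_s

noncomputable def cut_pp_213_t : Cut := Cut.of [[⟨3, 0, 0, 2845415833⟩]]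

noncomputable def f_pp_213_t : ℕ → ℕ → ℕ → ℕ → Bool := onCell 0 536870912 536870912 536870912 697932185 42949674
    (rowNE 3 eng mog cd0q2 cd0q1 pd3 0 true true true .pnn 2 1 3 (qsf 0 536870912 536870912 536870912 3) ndB0q2 ndB0q1 pcB3 cut_pp_213_t Ext.none)

def k0_pp_213_t : ∃ t, chk3 f_pp_213_t t 1 1 1 = true :=
  ⟨(a (l 5) (l 4)), by decide +kernel⟩

theorem c_pp_213_t : CertNE 0 536870912 536870912 536870912 697932185 42949674 3 eng mog cd0q2 cd0q1 pd3 true true true .pnn 2 1 3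
    ndB0q2 ndB0q1 pcB3 cut_pp_213_t Ext.none :=
  certNE0 (fam := true) (s1 := true) (s2 := true) (a := 2) (b := 1) (c := 3) (cn := .pnn) (n1 := ndB0q2) (n2 := ndB0q1) (pc := pcB3) (cut := cut_pp_213_t) (xt := Ext.none) (P1 := 0) (W1 := 536870912) (P2 := 536870912) (W2 := 536870912) (P3 := 697932185) (W3 := 42949674) (N0 := 3) (En := eng) (mo := mog) (C1 := cd0q2) (C2 := cd0q1) (C3 := pd3)
    rfl k0_pp_213_t

noncomputable def cut_pm_001_s : Cut := Cut.of [[⟨4, 0, 0, 1449551462⟩]]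

noncomputable def f_pm_001_s : ℕ → ℕ → ℕ → ℕ → Bool := onCell 0 536870912 0 536870912 697932185 42949674
    (rowNE 3 eng mog cd0q0 cd0q0 pd1 0 true true false .up 0 0 1 (qsf 0 536870912 0 536870912 1) ndB0q0 ndB0q0 pcB1 cut_pm_001_s Ext.none)

def k0_pm_001_s : ∃ t, chk3 f_pm_001_s t 1 1 1 = true :=
  ⟨(l 3), by decide +kernel⟩

theorem c_pm_001_s : CertNE 0 536870912 0 536870912 697932185 42949674 3 eng mog cd0q0 cd0q0 pd1 true true false .up 0 0 1
    ndB0q0 ndB0q0 pcB1 cut_pm_001_s Ext.none :=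
  certNE0 (fam := true) (s1 := true) (s2 := false) (a := 0) (b := 0) (c := 1) (cn := .up) (n1 := ndB0q0) (n2 := ndB0q0) (pc := pcB1) (cut := cut_pm_001_s) (xt := Ext.none) (P1 := 0) (W1 := 536870912) (P2 := 0) (W2 := 536870912) (P3 := 697932185) (W3 := 42949674) (N0 := 3) (En := eng) (mo := mog) (C1 := cd0q0) (C2 := cd0q0) (C3 := pd1)
    rfl k0_pm_001_s

noncomputable def cut_pm_001_t : Cut := Cut.of [[⟨3, 0, 0, 2845415833⟩]]

noncomputable def f_pm_001_t : ℕ → ℕ → ℕ → ℕ → Bool := onCell 0 536870912 0 536870912 697932185 42949674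
    (rowNE 3 eng mog cd0q0 cd0q0 pd1 0 true true false .up 0 0 1 (qsf 0 536870912 0 536870912 1) ndB0q0 ndB0q0 pcB1 cut_pm_001_t Ext.none)

def k0_pm_001_t : ∃ t, chk3 f_pm_001_t t 1 1 1 = true :=
  ⟨(l 3), by decide +kernel⟩

theorem c_pm_001_t : CertNE 0 536870912 0 536870912 697932185 42949674 3 eng mog cd0q0 cd0q0 pd1 true true false .up 0 0 1
    ndB0q0 ndB0q0 pcB1 cut_pm_001_t Ext.none :=
  certNE0 (fam := true) (s1 := true) (s2 := false) (a := 0) (b := 0) (c := 1) (cn := .up) (n1 := ndB0q0) (n2 := ndB0q0) (pc := pcB1) (cut := cut_pm_001_t) (xt := Ext.none) (P1 := 0) (W1 := 536870912) (P2 := 0) (W2 := 536870912) (P3 := 697932185) (W3 := 42949674) (N0 := 3) (En := eng) (mo := mog) (C1 := cd0q0) (C2 := cd0q0) (C3 := pd1)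
    rfl k0_pm_001_t

noncomputable def cut_pm_011_s : Cut := Cut.of [[⟨4, 0, 0, 1449551462⟩], [⟨0, 0, 0, 67108864⟩, ⟨1, 1, 0, 67108864⟩, ⟨2, 1, 0, 67108864⟩]]

noncomputable def f_pm_011_s : ℕ → ℕ → ℕ → ℕ → Bool := onCell 536870912 536870912 536870912 536870912 697932185 42949674
    (rowNE 3 eng mog cd0q0 cd0q1 pd1 2 true true false .pnn 0 1 1 (qsf 0 536870912 536870912 536870912 1) ndB0q0 ndB0q1 pcB1 cut_pm_011_s Ext.none)

def k0_pm_011_s : ∃ t, chk3 f_pm_011_s t 1 1 1 = true :=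
  ⟨(a (l 3) (b (l 3) (a (l 3) (b (l 3) (a (l 3) (b (l 3) (a (l 3) (b (l 3) (l 14))))))))), by decide +kernel⟩

theorem c_pm_011_s : CertNE 0 536870912 536870912 536870912 697932185 42949674 3 eng mog cd0q0 cd0q1 pd1 true true false .pnn 0 1 1
    ndB0q0 ndB0q1 pcB1 cut_pm_011_s Ext.none :=
  certNE2 (fam := true) (s1 := true) (s2 := false) (a := 0) (b := 1) (c := 1) (cn := .pnn) (n1 := ndB0q0) (n2 := ndB0q1) (pc := pcB1) (cut := cut_pm_011_s) (xt := Ext.none) (P1 := 0) (W1 := 536870912) (P2 := 536870912) (W2 := 536870912) (P3 := 697932185) (W3 := 42949674) (N0 := 3) (En := eng) (mo := mog) (C1 := cd0q0) (C2 := cd0q1) (C3 := pd1)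
    rfl (fun _ => rfl) k0_pm_011_s

noncomputable def cut_pm_011_t : Cut := Cut.of [[⟨3, 0, 0, 2845415833⟩], [⟨0, 0, 0, 67108864⟩, ⟨1, 1, 0, 67108864⟩, ⟨2, 1, 0, 67108864⟩]]

noncomputable def f_pm_011_t : ℕ → ℕ → ℕ → ℕ → Bool := onCell 0 536870912 536870912 536870912 697932185 42949674
    (rowNE 3 eng mog cd0q0 cd0q1 pd1 0 true true false .pnn 0 1 1 (qsf 0 536870912 536870912 536870912 1) ndB0q0 ndB0q1 pcB1 cut_pm_011_t Ext.none)

def k0_pm_011_t : ∃ t, chk3 f_pm_011_t t 1 1 1 = true :=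
  ⟨(l 6), by decide +kernel⟩

theorem c_pm_011_t : CertNE 0 536870912 536870912 536870912 697932185 42949674 3 eng mog cd0q0 cd0q1 pd1 true true false .pnn 0 1 1
    ndB0q0 ndB0q1 pcB1 cut_pm_011_t Ext.none :=
  certNE0 (fam := true) (s1 := true) (s2 := false) (a := 0) (b := 1) (c := 1) (cn := .pnn) (n1 := ndB0q0) (n2 := ndB0q1) (pc := pcB1) (cut := cut_pm_011_t) (xt := Ext.none) (P1 := 0) (W1 := 536870912) (P2 := 536870912) (W2 := 536870912) (P3 := 697932185) (W3 := 42949674) (N0 := 3) (En := eng) (mo := mog) (C1 := cd0q0) (C2 := cd0q1) (C3 := pd1)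
    rfl k0_pm_011_t

end Pool.Agent.Strip051.G.I6500_6900.Tab.CS.BA00

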