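import Pool.Agent.Strip051.G.I6500_6900.Tab
import Pool.Agent.Strip051.PB.StripB

/-! # Strips, near vertex: certificates 1 (generated) -/

set_option linter.all false
set_option maxRecDepth 100000

namespace Pool.Agent.Strip051.G.I6500_6900.Tab.CS.BA00

open Pool.Agent.Strip051.PB Pool.Agent.Strip051.PB.T
open Pool.Agent.Strip051.G.I6500_6900.Tab

noncomputable def cut_pm_012_s : Cut := Cut.of [[⟨4, 0, 0, 1449551462⟩], [⟨0, 0, 0, 33554432⟩, ⟨1, 1, 0, 33554432⟩, ⟨2, 1, 0, 33554432⟩]]

noncomputable def f_pm_012_s : ℕ → ℕ → ℕ → ℕ → Bool := onCell 1073741824 536870912 536870912 536870912 697932185 42949674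
    (rowNE 3 eng mog cd0q0 cd0q1 pd2 2 true true false .pnp 0 1 2 (qsf 0 536870912 536870912 536870912 2) ndB0q0 ndB0q1 pcB2 cut_pm_012_s Ext.none)

def k0_pm_012_s : ∃ t, chk3 f_pm_012_s t 4 2 1 = true :=
  ⟨(a (l 3) (l 3)), by decide +kernel⟩

def k1_pm_012_s : ∃ t, chk3 f_pm_012_s t 8 6 1 = true :=
  ⟨(l 3), by decide +kernel⟩

def k2_pm_012_s : ∃ t, chk3 f_pm_012_s t 18 6 1 = true :=
  ⟨(b (l 3) (b (l 3) (a (l 3) (a (l 3) (b (l 3) (b (l 3) (a (l 3) (b (a (l 3) (b (a (l 3) (c (c (c (l 137606727975) (l 16777152)) (l 16777152)) (a (l 233706620391) (l 16778344)))) (c (c (c (a (l 145122920615) (l 16776016)) (l 63518540311)) (l 16779288)) (a (a (l 240685942199) (l 16778368)) (l 16776056))))) (a (a (b (l 3) (c (c (c (l 150491629735) (l 16778488)) (l 16777176)) (c (l 157470951591) (l 159081562855)))) (c (c (b (c (l 148881017015) (l 16778488)) (l 16776024)) (l 16779296)) (b (c (l 155860338855) (l 157470950119)) (l 16776064)))) (c (c (c (l 16774576) (l 16774592)) (l 16774616)) (c (l 16774656) (l 16774696)))))))))))),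 by decide +kernel⟩

def k3_pm_012_s : ∃ t, chk3 f_pm_012_s t 19 12 1 = true :=
  ⟨(a (l 3) (b (l 3) (a (b (l 3) (a (l 3) (b (l 3) (a (l 3) (b (l 3) (c (l 277193165095) (l 264845134039))))))) (b (a (l 3) (b (a (l 3) (b (l 3) (c (l 244980913271) (l 225116689191)))) (a (b (l 3) (c (l 149417892023) (l 141364827879))) (c (b (l 16777120) (l 16775448)) (c (b (l 16779776) (l 16775504)) (l 16781616)))))) (a (a (b (l 3) (b (c (l 152102248887) (c (l 144049184231) (l 149954763959))) (c (l 16776048) (a (l 16779504) (l 16775384))))) (b (c (b (l 303499839911) (l 84993383255)) (b (l 251423365943) (c (l 78014060311) (l 16777168)))) (c (l 16775400) (b (l 16775288) (l 16773152))))) (b (c (a (b (l 16776336) (l 16774376)) (l 16772600)) (c (a (l 16779360) (l 16772720)) (a (l 16775456) (l 16772760)))) (a (c (l 16771192) (b (l 16772440) (l 16770312))) (b (l 16772248) (l 16767464))))))))), by decide +kernel⟩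

def k4_pm_012_s : ∃ t, chk3 f_pm_012_s t 38 26 1 = true :=
  ⟨(a (l 3) (b (l 3) (a (b (l 3) (a (l 3) (a (l 3) (b (l 3) (b (l 304573580167) (l 87140862871)))))) (a (b (l 3) (b (a (l 284709356711) (b (l 196125657815) (l 16776680))) (c (l 16775512) (a (l 16778928) (l 16774848))))) (b (b (l 3) (c (b (l 180019532231) (l 16779432)) (a (l 188609465943) (l 16779336)))) (b (c (l 16774976) (l 16775056)) (c (l 16772392) (l 16772552)))))))), by decide +kernel⟩

def k5_pm_012_s : ∃ t, chk3 f_pm_012_s t 38 54 1 = true :=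
  ⟨(a (a (a (l 3) (b (l 3) (b (l 3) (c (l 330343385047) (l 326048417575))))) (b (a (l 3) (a (l 3) (b (l 3) (c (l 243370298231) (l 256255197975))))) (c (a (b (l 309942290119) (b (a (l 284709357047) (l 16778216)) (c (l 16778928) (l 16776320)))) (c (b (a (l 118816247303) (l 16776016)) (l 16774128)) (b (a (l 126869310903) (l 16776040)) (l 16774176)))) (b (a (l 306184193575) (a (b (l 255181455895) (l 16776808)) (b (l 16776680) (l 16775472)))) (a (a (b (l 296520516375) (l 75866572887)) (b (l 16778224) (l 16775696))) (l 16773616)))))) (a (a (b (a (b (l 3) (c (c (l 16778984) (l 16778992)) (b (l 177872046071) (l 16776536)))) (b (c (l 207936818375) (l 224042941671)) (c (l 16775696) (l 16775744)))) (c (b (l 16773856) (l 16771872)) (b (c (l 16773944) (l 16774016)) (l 16771440)))) (b (b (b (a (l 120963730151) (l 16775936)) (c (l 16775376) (l 16775440))) (c (l 16773424) (l 16773560))) (b (c (l 16770808) (l 16771032)) (c (l 16768152) (l 16768472))))) (b (b (c (l 16771352) (a (l 16773080) (l 16770032))) (c (b (l 16769384)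 (l 16770680)) (a (l 16770544) (l 16767496)))) (c (b (a (c (l 16762376) (l 16762504)) (b (a (l 16765968) (l 16764528)) (l 16763880))) (a (c (b (l 16770896) (l 16764544)) (l 16766632)) (l 16762864))) (b (a (l 16768000) (a (a (l 16766096) (l 16765424)) (l 16765224))) (a (b (a (l 16761600) (l 16765416)) (a (l 16765640) (l 16764504))) (l 16763416))))))), by decide +kernel⟩

def k6_pm_012_s : ∃ t, chk3 f_pm_012_s t 76 55 1 = true :=
  ⟨(b (a (b (a (l 3) (a (b (l 3) (c (c (l 93046442215) (l 16777120)) (c (l 16777120) (l 105394471543)))) (c (c (b (l 16778392) (l 16775816)) (l 16776456)) (c (l 16779088) (b (l 91435829079) (l 16775880)))))) (a (a (b (l 3) (c (c (a (l 197199398359) (l 16778296)) (l 16777128)) (a (l 212231783863) (l 16778304)))) (c (c (c (l 16779192) (l 16779200)) (l 16779200)) (b (a (l 199883752919) (l 16776944)) (l 16776000)))) (c (c (c (l 16774464) (l 16774480)) (l 16774512)) (c (l 16774560) (l 16774272))))) (c (b (c (a (l 16774328) (l 16771432)) (l 16772960)) (c (c (l 16772728) (l 16770160))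 (l 16770240))) (b (a (c (l 16774424) (l 16774464)) (l 16771688)) (a (c (l 16771768) (l 16771832)) (l 16769384))))) (a (b (c (c (a (c (l 16774552) (l 16774568)) (l 16771672)) (a (l 16774592) (l 16771744))) (a (c (l 16774632) (l 16774672)) (l 16771896))) (c (c (a (l 16771696) (l 16768816)) (l 16770344)) (a (l 16771912) (l 16769160)))) (c (b (a (c (l 16768776) (l 16768904)) (c (a (l 16768256) (l 16766648)) (l 16768808))) (a (c (b (l 16768296) (l 16766728)) (l 16768864)) (c (l 16763656) (l 16763672)))) (b (a (l 16769144) (c (l 16769664) (b (l 16769688) (l 16768312)))) (a (a (l 16769712) (l 16768320)) (l 16763616)))))), by decide +kernel⟩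

def k7_pm_012_s : ∃ t, chk3 f_pm_012_s t 77 55 1 = true :=
  ⟨(b (b (a (a (c (c (l 16768448) (l 16768584)) (l 16768840)) (c (c (b (l 16766064) (l 16764904)) (l 16768328)) (b (l 16769672) (a (l 16766016) (l 16764864))))) (c (c (l 16767288) (l 16762208)) (a (l 16763544) (c (l 16760912) (l 16760848))))) (a (c (c (a (c (l 16768408) (l 16768488)) (l 16763384)) (a (l 16768632) (l 16763608))) (a (c (c (l 16771416) (l 16769576)) (b (l 16769624) (l 16768288))) (c (l 16763624) (l 16763592)))) (c (c (l 16759696) (l 16759688)) (a (b (l 16761584) (l 16760232)) (c (l 16758288) (l 16760736)))))) (b (a (a (c (c (l 16763584) (l 16763672)) (l 16766264)) (c (l 16761024) (l 16760888))) (c (c (l 16757152) (l 16757056)) (a (c (l 16758232) (l 16758032)) (l 16755400)))) (c (c (a (l 16759704) (l 16759728)) (a (l 16759640) (l 16754296))) (a (a (l 16760824) (l 16763280)) (a (l 16755248) (l 16752472)))))), by decide +kernel⟩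

def k8_pm_012_s : ∃ t, chk3 f_pm_012_s t 39 26 1 = true :=
  ⟨(a (b (a (b (l 3) (a (b (l 3) (l 272898197287)) (a (b (l 3) (l 60834188919)) (b (l 138680472567) (l 16775440))))) (b (b (a (l 3) (c (l 68350384871) (c (l 16779536) (l 55465480455)))) (a (a (l 222432334439) (l 16779608)) (l 16774672))) (a (b (c (l 16775424) (l 16775496)) (l 16773048)) (c (l 16771008) (l 16771288))))) (a (b (b (a (a (c (l 137069859351) (l 121500602423)) (l 16776112)) (l 16773752)) (a (l 16774416) (l 16771264))) (b (a (l 16771880) (l 16768760)) (a (l 16769336) (a (l 16767008) (l 16768128))))) (b (a (c (l 16769248) (l 16769568)) (b (l 16767584) (c (l 16765056) (l 16765616)))) (a (b (c (l 16765552) (l 16768664)) (c (l 16763480) (l 16766688))) (c (l 16764904) (b (l 16763752) (l 16761800))))))) (b (a (b (a (b (l 16773840) (l 16771568)) (c (l 16769600) (l 16769936))) (a (c (l 16767944) (l 16768400)) (b (l 16766528) (l 16767128)))) (a (b (b (l 16768064) (l 16765960)) (b (l 16763968) (l 16762112))) (b (b (c (l 16765216) (l 16765464))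 (l 16763448)) (c (l 16760632) (l 16760640))))) (b (a (b (a (c (l 16764600) (l 16765240)) (l 16762608)) (c (l 16761752) (l 16765960))) (a (b (l 16760240) (l 16758312)) (b (l 16757832) (l 16755872)))) (c (a (l 16758952) (c (l 16754256) (l 16764656))) (a (a (b (l 16761296) (l 16759256)) (b (l 16758752) (l 16756688))) (b (l 16760152) (l 16758048))))))), by decide +kernel⟩

def k9_pm_012_s : ∃ t, chk3 f_pm_012_s t 39 54 1 = true :=
  ⟨(b (b (a (a (a (a (l 16767552) (l 16768624)) (c (l 16763888) (a (l 16764912) (l 16763824)))) (a (l 16762104) (l 16758408))) (a (c (l 16756032) (c (l 16766424) (l 16761008))) (a (l 16752248) (l 16749744)))) (a (a (a (c (a (l 16770136) (l 16763664)) (a (l 16766640) (l 16764176))) (c (l 16762112) (l 16762760))) (c (l 16758848) (a (l 16760192) (l 16757608)))) (a (c (l 16754016) (a (l 16755008) (l 16752400))) (c (l 16749176) (c (l 16748696) (l 16748240)))))) (a (a (c (c (b (l 16761320) (l 16759440)) (l 16765888)) (b (a (l 16763096) (l 16760584)) (a (l 16760808) (c (l 16758240)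 (l 16758128))))) (c (c (l 16755688) (l 16755680)) (a (b (l 16757984) (l 16755576)) (b (l 16755376) (l 16752952))))) (b (c (a (l 16757152) (l 16747040)) (a (a (l 16752760) (l 16750136)) (c (l 16746456) (l 16745928)))) (c (a (c (l 16749736) (l 16749528)) (l 16744744)) (a (a (l 16750320) (l 16747696)) (a (l 16745064) (l 16742440))))))), by decide +kernel⟩

def k10_pm_012_s : ∃ t, chk3 f_pm_012_s t 39 110 1 = true :=
  ⟨(b (a (c (c (a (l 16757136) (l 16762704)) (a (l 16757112) (l 16752056))) (a (a (c (l 16758304) (l 16763408)) (c (l 16755704) (l 16755480))) (c (l 16757048) (a (l 16752800) (l 16750120))))) (a (c (c (l 16747352) (l 16747040)) (c (l 16746624) (a (l 16747440) (l 16744760)))) (a (c (l 16743520) (l 16742424)) (c (c (l 16741304) (l 16740792)) (c (l 16745400) (a (b (l 16740760) (l 16739360)) (b (l 16739416) (l 16738032)))))))) (a (c (a (c (l 16754664) (l 16765016)) (c (l 16749704) (l 16749432))) (a (c (a (l 16755640) (l 16753000)) (a (l 16755384) (l 16752656))) (c (l 16749064) (a (l 16749952)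 (l 16747248))))) (a (c (c (l 16744800) (l 16744384)) (a (b (l 16745600) (l 16744144)) (b (l 16742960) (l 16741496)))) (b (c (c (l 16740592) (l 16750536)) (a (a (l 16740976) (a (l 16739992) (l 16739328))) (a (l 16738344) (l 16737032)))) (c (c (l 16739264) (l 16738672)) (a (c (l 16739248) (a (a (l 16739448) (l 16738776)) (l 16737776))) (c (l 16736656) (l 16735776)))))))), by decide +kernel⟩

def k11_pm_012_s : ∃ t, chk3 f_pm_012_s t 39 111 1 = true :=
  ⟨(b (a (a (c (c (l 16752064) (l 16751824)) (a (l 16752664) (l 16749944))) (c (c (l 16747048) (l 16746664)) (c (l 16746176) (a (l 16746960) (l 16744224))))) (a (a (c (l 16743096) (c (l 16742232) (l 16741512))) (c (c (l 16740880) (l 16740304)) (a (b (l 16740656) (a (l 16739440) (l 16738784))) (b (a (l 16739664) (a (l 16739168) (l 16738840))) (l 16737792))))) (c (c (l 16737200) (l 16736520)) (a (c (l 16737016) (b (a (l 16737584) (l 16736248)) (l 16735336))) (c (l 16734432) (l 16733472)))))) (a (a (a (c (l 16750488) (l 16749704)) (c (l 16747896) (l 16746944)))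 (a (c (l 16745320) (l 16744200)) (c (l 16742760) (l 16741472)))) (a (c (a (c (l 16740520) (l 16739904)) (c (l 16738032) (l 16737344))) (b (b (a (l 16742568) (l 16737280)) (a (a (l 16739832) (l 16738488)) (l 16736480))) (a (c (l 16738400) (a (l 16738208) (l 16736840))) (l 16735288)))) (c (c (l 16734344) (l 16733544)) (c (l 16732624) (a (l 16732912) (l 16730248))))))), by decide +kernel⟩

def k12_pm_012_s : ∃ t, chk3 f_pm_012_s t 8 14 1 = true :=
  ⟨(a (l 3) (b (l 3) (a (l 3) (b (l 3) (a (b (l 3) (a (l 3) (b (l 3) (a (b (l 3) (c (l 292225549287) (l 299741741863))) (a (b (l 3) (c (l 123648081511) (b (l 193441300743) (l 16776824)))) (b (c (l 188072591719) (l 180556397335)) (l 16776680))))))) (b (a (b (l 3) (a (l 3) (a (l 3) (a (l 300815483687) (b (l 3) (l 163913401175)))))) (b (a (l 3) (a (b (l 3) (l 133311759751)) (b (l 190756946855) (l 16776208)))) (a (a (b (l 261623906759) (l 16777928)) (b (l 80161539495) (l 16775400))) (c (l 16774480) (l 16774464))))) (a (b (a (b (l 319069094839) (a (l 246591521191)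 (a (l 122037469815) (l 16776648)))) (a (b (a (l 201494364567) (l 95730795015)) (l 16775704)) (b (l 16776152) (l 16774440)))) (a (b (c (l 16777208) (l 16777512)) (l 16774824)) (b (l 16773360) (a (l 16772280) (c (l 16771104) (l 16772280)))))) (b (a (c (l 16773552) (l 16773488)) (b (l 16773360) (c (l 16773136) (l 16772208)))) (a (b (a (l 16771600) (l 16773160)) (c (l 16772128) (l 16771032))) (b (l 16768952) (l 16767192))))))))))), by decide +kernel⟩

def k13_pm_012_s : ∃ t, chk3 f_pm_012_s t 16 30 1 = true :=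
  ⟨(a (l 3) (b (l 3) (a (l 3) (b (l 3) (a (l 3) (b (l 3) (a (b (l 3) (b (l 3) (a (l 3) (a (c (l 226190426439) (l 232096006423)) (b (l 156934078839) (l 16776856)))))) (a (a (b (l 3) (b (b (l 311552901463) (l 124184953207)) (l 16776480))) (b (l 295983644087) (b (a (l 68350378359) (l 16776736)) (l 16775840)))) (b (a (b (l 3) (a (l 175724560823) (l 91435827639))) (b (a (l 308868546951) (l 198810010119)) (l 16777320))) (c (l 16775432) (a (l 16775680) (l 16774992)))))))))))), by decide +kernel⟩

def k14_pm_012_s : ∃ t, chk3 f_pm_012_s t 32 31 1 = true :=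
  ⟨(b (a (l 3) (b (l 3) (a (l 3) (b (l 3) (b (l 3) (b (l 3) (a (l 3) (a (l 3) (a (b (l 3) (b (l 3) (l 14))) (a (b (l 290614935863) (b (a (c (l 167134625879) (l 173577076807)) (l 16777344)) (l 16776960))) (b (b (l 268603228343) (a (c (l 141901693063) (l 150491627607)) (l 16777112))) (l 16776808)))))))))))) (b (a (l 14) (b (b (b (b (a (l 3) (a (l 3) (a (l 14) (a (l 14) (c (l 16776440) (l 16776448)))))) (l 14)) (l 14)) (l 14)) (l 14))) (l 14))), by decide +kernel⟩

def k15_pm_012_s : ∃ t, chk3 f_pm_012_s t 66 124 1 = true :=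
  ⟨(a (l 3) (b (l 3) (a (l 3) (b (l 3) (a (b (l 3) (a (l 279877516487) (b (c (l 232096006423) (l 239612199143)) (a (c (l 112910663927) (l 116668760311)) (l 16776960))))) (a (a (b (l 3) (b (a (l 112373793031) (l 16777088)) (l 16776688))) (b (b (l 3) (l 178945786007)) (l 16776648))) (b (b (a (l 290078064903) (l 140827951351)) (c (l 16776952) (l 16777280))) (l 16776232)))))))), by decide +kernel⟩

def k16_pm_012_s : ∃ t, chk3 f_pm_012_s t 132 250 1 = true :=
  ⟨(b (l 3) (a (l 3) (b (b (l 3) (b (l 3) (a (l 3) (a (l 3) (a (l 3) (l 118279372999)))))) (b (a (l 3) (b (a (l 3) (a (l 140291080343) (l 16777000))) (a (a (l 3) (l 161765916791)) (l 16776888)))) (a (a (l 3) (c (l 242833424711) (l 250886487687))) (a (a (b (l 183777624167) (l 16777080)) (l 16777264)) (l 16776536))))))), by decide +kernel⟩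

def k17_pm_012_s : ∃ t, chk3 f_pm_012_s t 132 502 1 = true :=
  ⟨(a (a (l 3) (a (b (l 3) (b (l 3) (a (b (l 3) (c (l 169818980439) (l 175187689559))) (b (a (l 236390973511) (l 100025761991)) (l 16777032))))) (a (b (l 3) (b (b (l 3) (a (l 208473686087) (l 16777336))) (l 16777048))) (b (l 299204869319) (b (b (a (l 181630140487) (l 16777144)) (l 16776984)) (l 16776608)))))) (a (a (b (b (c (l 272361324935) (l 279340646727)) (a (b (l 275045679287) (a (l 153175982183) (l 16777120))) (a (b (l 124721823895) (l 16776992)) (l 16776976)))) (c (l 16776440) (l 16776544))) (b (b (a (b (l 226727297111) (c (l 16777128) (l 16777288))) (b (l 16777432) (l 16776872))) (l 16776640)) (b (l 16776152) (l 16775656)))) (a (b (c (l 16776336) (l 16776360)) (b (l 16775608) (c (l 16775112) (l 16775160)))) (b (c (l 16775784) (l 16775816)) (b (c (l 16775064) (l 16775120)) (l 16774576)))))), by decide +kernel⟩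

def k18_pm_012_s : ∃ t, chk3 f_pm_012_s t 132 503 1 = true :=
  ⟨(b (b (a (a (a (l 3) (a (c (l 229948522727) (a (l 3) (l 226727297159))) (b (c (l 189146333255) (l 194515042375)) (c (l 16777080) (l 16777408))))) (a (a (b (l 16777384) (l 16776816)) (l 16776664)) (l 16776256))) (a (a (l 16775704) (c (l 16775160) (l 16775200))) (l 16774336))) (a (a (b (a (c (l 242833424647) (l 250349616727)) (a (c (l 16777104) (l 3925868807)) (l 16776840))) (a (a (l 243907166359) (a (a (l 131164274839) (l 16777160)) (l 16777072))) (l 16776728))) (a (l 16776304) (l 16775912))) (a (a (c (l 16775200) (l 16775248)) (l 16774664)) (l 16773824)))) (b (a (a (a (b (a (a (c (l 120963727495) (l 124721823879)) (l 16777096)) (l 16776888)) (l 16776776)) (l 16776352)) (a (c (l 16775776) (l 16775808)) (a (l 16775384) (l 16775144)))) (a (l 16774432) (l 16773304))) (a (a (a (c (l 16776392) (l 16776408)) (c (l 16775824) (l 16775848))) (a (a (l 16775632) (l 16775184)) (l 16774752))) (a (l 16773912) (a (l 16773072) (l 16772504)))))), by decide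 +kernel⟩

def k19_pm_012_s : ∃ t, chk3 f_pm_012_s t 133 125 1 = true :=
  ⟨(b (a (a (b (b (l 3) (a (l 3) (b (l 3) (a (l 245517779159) (b (l 199346880647) (l 16777104)))))) (a (a (b (b (l 286319968535) (b (l 95730794743) (l 16776968))) (l 16776376)) (b (b (b (l 250886488135) (l 73719087399)) (l 16776816)) (l 16776112))) (b (b (c (l 16776880) (l 16777304)) (l 16776424)) (c (l 16775680) (l 16775728))))) (b (b (b (l 294909903431) (a (l 3) (a (c (l 182167011415) (l 186461978743)) (c (l 16777080) (l 16777408))))) (a (a (b (l 213842395287) (l 16776960)) (b (b (l 153712853127) (l 16777048)) (l 16776696))) (c (l 16776536) (l 16776520)))) (a (b (l 16776296) (b (l 16775424) (l 16774960))) (b (c (l 16775576) (l 16775584)) (b (l 16774896) (l 16774400)))))) (a (b (b (a (b (a (c (l 146733531319) (l 153712853111)) (l 16777352)) (l 16776696)) (l 16776384)) (a (l 16775984) (a (l 16775576) (l 16775312)))) (b (a (b (l 16775296) (l 16774816)) (b (l 16774736) (l 16774312))) (l 16773808))) (b (a (b (l 16775832) (b (l 16775136)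 (l 16774648))) (c (b (l 16775320) (l 16774376)) (b (l 16775256) (l 16774296)))) (c (l 16773160) (l 16773232))))) (b (a (a (a (b (b (l 16775512) (c (l 16775024) (l 16775080))) (l 16774272)) (b (b (l 16775008) (l 16774488)) (l 16773712))) (b (l 16773904) (l 16772856))) (b (c (l 16772160) (l 16772216)) (c (a (l 16770376) (l 16770536)) (l 16771152)))) (b (a (a (l 16772952) (a (l 16770784) (l 16771520))) (a (a (l 16770944) (l 16769040)) (a (l 16769800) (l 16769328)))) (a (a (a (l 16770880) (l 16771616)) (b (l 16771016) (l 16770488))) (a (a (l 16770128) (l 16769520)) (l 16768880)))))), by decide +kernel⟩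

def k20_pm_012_s : ∃ t, chk3 f_pm_012_s t 134 124 1 = true :=
  ⟨(b (b (b (l 3) (a (l 3) (a (l 3) (a (l 3) (a (l 234780360983) (b (l 306184192263) (l 16777112))))))) (b (a (l 3) (b (a (l 3) (a (c (l 152639111367) (l 158007820471)) (l 16776752))) (a (a (l 3) (a (l 293299290359) (l 143512305831))) (l 16777200)))) (a (a (l 3) (a (l 3) (l 260013292679))) (a (a (b (l 213305524407) (c (l 16777040) (l 16777368))) (c (l 16776704) (l 16777336))) (l 16776120))))) (a (a (a (b (b (l 3) (b (l 3) (a (l 242296553671) (l 103783858503)))) (b (b (l 16777528) (l 16776392)) (l 16775664))) (b (b (l 3) (b (a (l 203641847975) (l 71571603767)) (l 16776792))) (b (l 16776064) (l 16775448)))) (a (b (b (b (l 282561872199) (a (l 166060884135) (l 16777064))) (l 16776464)) (b (l 16775488) (a (l 16774680) (l 16774384)))) (b (b (a (b (l 127943049415) (l 16776768)) (l 16776728)) (l 16775880)) (b (l 16775584) (l 16773976))))) (b (a (a (c (l 16775816) (l 16775760)) (b (l 16775688) (l 16775384))) (a (b (l 16775088) (a (l 16774272) (l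 16773968))) (b (l 16775168) (l 16773568)))) (a (b (a (a (l 16774480) (l 16774184)) (l 16773776)) (l 16773256)) (l 16772664))))), by decide +kernel⟩

def k21_pm_012_s : ∃ t, chk3 f_pm_012_s t 135 124 1 = true :=
  ⟨(b (a (a (b (a (b (l 283635614135) (b (l 91435827543) (l 16776648))) (b (b (l 227801039063) (l 60297314695)) (l 16776296))) (b (l 16775576) (a (l 16773560) (a (l 16774416) (l 16774112))))) (b (b (a (l 16777528) (l 16776072)) (l 16775352)) (a (b (l 16773320) (b (l 16773888) (l 16773440))) (b (a (l 16774176) (l 16773864)) (l 16773128))))) (a (b (b (l 16775112) (a (l 16773072) (b (l 16773992) (a (l 16773648) (l 16773336))))) (a (b (b (a (l 16773784) (l 16773464)) (l 16773200)) (l 16772640)) (l 16772512))) (b (a (a (b (l 16774288) (b (l 16773512) (l 16773080))) (b (l 16773960) (l 16775624))) (b (b (l 16773720) (a (l 16773368) (l 16773072))) (l 16772640))) (l 16771768)))) (a (b (a (a (b (a (l 16775352) (l 16773744)) (l 16773096)) (l 16773616)) (l 16772240)) (c (l 16771040) (l 16771136))) (a (b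 (l 16771256) (l 16769312)) (b (l 16770280) (a (l 16768416) (l 16767792)))))), by decide +kernel⟩

def k22_pm_012_s : ∃ t, chk3 f_pm_012_s t 67 125 1 = true :=
  ⟨(a (b (b (b (a (a (a (b (l 16774960) (l 16774472)) (c (l 16774208) (l 16774112))) (l 16773440)) (l 16771808)) (a (c (l 16773016) (l 16773088)) (l 16770736))) (a (a (a (l 16772328) (l 16771752)) (a (l 16771168) (l 16770584))) (a (c (l 16769824) (l 16769696)) (b (l 16767080) (l 16768144))))) (b (b (a (a (a (l 16770736) (l 16770152)) (l 16769928)) (c (l 16768560) (l 16767968))) (a (a (b (l 16767664) (l 16769184)) (l 16768512)) (l 16767272))) (a (b (l 16768952) (l 16767336)) (l 16765408)))) (b (b (b (a (l 16769456) (c (l 16768520) (l 16767264))) (a (a (l 16766336) (l 16767816)) (l 16766520))) (a (a (b (l 16767976) (l 16767264)) (l 16766792)) (l 16765176))) (b (c (l 16765104) (l 16763960)) (a (b (l 16760856) (l 16762240)) (l 16762936))))), by decide +kernel⟩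

def k23_pm_012_s : ∃ t, chk3 f_pm_012_s t 33 126 1 = true :=
  ⟨(a (a (b (b (b (b (a (a (a (c (l 16775864) (l 16775888)) (a (c (l 16775456) (l 16775488)) (l 16775224))) (l 16774512)) (c (a (l 16772072) (l 16772256)) (l 16773176))) (a (a (a (a (l 14) (l 16775432)) (l 16774840)) (l 16774000)) (c (l 16772632) (l 16772328)))) (a (a (a (l 14) (l 16774232)) (c (l 16773224) (l 16773248))) (b (a (c (l 16772352) (l 16772376)) (l 16771536)) (a (a (l 16772128) (l 16771560)) (l 16771136))))) (b (a (a (l 14) (a (l 14) (b (l 16772176) (l 14)))) (a (b (a (l 16771600) (l 16771096)) (l 16770992)) (l 16770320))) (a (l 14) (c (l 16769880) (l 16769816))))) (a (l 14) (a (l 14) (a (l 14) (b (l 16767896) (l 14)))))) (b (b (b (a (a (b (l 16771120) (l 16770960)) (a (l 16770144) (l 16769704))) (l 16768624)) (a (c (a (l 16770120) (l 16769272)) (l 16769768)) (l 16767344))) (a (b (l 16768608) (a (l 16765968) (l 16766664))) (b (a (l 16766696) (l 16765424)) (l 16764760)))) (b (b (a (l 16767304) (l 16763456)) (a (l 16764672) (l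 16762144))) (b (a (l 16763336) (l 16760768)) (a (l 14) (l 16759312)))))) (a (b (b (a (c (l 16765512) (l 16765360)) (c (l 16765624) (l 16762784))) (a (c (l 16765616) (l 16762760)) (l 16760352))) (b (a (a (l 16760896) (l 16759624)) (c (l 16757864) (l 16757480))) (c (a (l 16757616) (l 16755024)) (a (l 16757208) (l 16754544))))) (a (b (b (l 16760360) (c (l 16757992) (l 16757632))) (b (c (l 16755296) (l 16754840)) (l 16752160))) (b (b (l 16757832) (c (l 16755456) (l 16755024))) (b (l 16752440) (l 16749544)))))), by decide +kernel⟩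

def k24_pm_012_s : ∃ t, chk3 f_pm_012_s t 33 127 1 = true :=
  ⟨(b (a (a (l 14) (a (l 14) (b (b (l 16757808) (l 14)) (l 14)))) (a (b (c (a (l 16754680) (l 16752096)) (a (l 16754168) (l 16751512))) (c (b (l 16751160) (l 16750960)) (a (l 16751072) (l 16748432)))) (b (c (a (l 16749520) (l 16746960)) (a (l 16748872) (l 16746240))) (c (b (l 16746024) (l 16744528)) (a (l 16745800) (l 16743184)))))) (a (l 14) (a (a (l 14) (b (b (l 16746456) (l 14)) (l 14))) (b (c (a (b (l 16744288) (l 16742816)) (b (l 16741744) (l 16740296))) (a (b (l 16743456) (l 16741952)) (b (l 16740856) (l 16739368)))) (c (c (a (l 16740888) (l 16738376)) (a (l 16740424) (l 16737880))) (a (l 16741720) (l 16737160))))))), by decide +kernel⟩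

def k25_pm_012_s : ∃ t, chk3 f_pm_012_s t 34 60 1 = true :=
  ⟨(a (l 3) (b (l 3) (a (b (l 3) (a (l 3) (b (c (l 254107714455) (a (l 3) (l 246054650295))) (a (a (l 220821715991) (b (l 249275875607) (l 16776856))) (b (l 16777824) (l 16776016)))))) (b (a (a (l 3) (b (l 3) (a (l 229411651911) (b (l 258402681079) (l 16776872))))) (b (a (l 243907164055) (b (l 160155303287) (l 16776592))) (c (l 16777208) (a (l 16777760) (l 16775312))))) (a (b (a (b (l 161765915975) (l 16776600)) (l 16775904)) (l 16774768)) (b (l 16774208) (c (a (l 16773064) (l 16772000)) (a (l 16773112) (l 16771944))))))))), by decide +kernel⟩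

def k26_pm_012_s : ∃ t, chk3 f_pm_012_s t 68 61 1 = true :=
  ⟨(b (a (b (l 3) (a (l 3) (a (l 3) (a (l 3) (b (l 3) (l 259476423239)))))) (b (a (l 3) (b (l 3) (a (l 303499838295) (b (l 241759682967) (a (l 139754209687) (l 16776760)))))) (a (a (b (l 3) (a (b (l 3) (l 91435827799)) (b (l 175724560727) (l 16776552)))) (b (a (l 275582550663) (b (l 3) (l 116131889671))) (b (l 16777608) (l 16775688)))) (a (b (b (a (l 199346880839) (l 16776984)) (l 16776384)) (l 16775016)) (b (l 16775696) (c (l 16773984) (l 16773920))))))) (b (a (a (b (l 3) (b (a (l 3) (a (l 262160777607) (a (l 161765916983) (l 16777432)))) (a (a (l 3) (a (l 230485393655) (l 138680467863))) (a (l 16777520) (l 16776232))))) (b (b (a (l 309942289031) (a (l 148344144279) (l 16776792))) (a (a (l 205252460759) (l 62981669495)) (l 16776112))) (c (a (l 16775856) (l 16774712)) (a (l 16777112) (l 16774624))))) (a (a (b (l 16775432) (b (l 16774032) (a (l 16773368) (l 16772832)))) (b (c (l 16774368) (l 16774296)) (b (l 16772944) (l 16772152)))) (b (a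 (b (l 16773688) (l 16772768)) (a (l 16772096) (l 16771976))) (l 16771032)))) (b (a (a (a (b (a (a (l 113447535111) (l 16776928)) (l 16776440)) (l 16775704)) (c (l 16775056) (l 16774960))) (a (b (l 16772368) (a (l 16773656) (l 16773104))) (b (a (l 16773520) (l 16772968)) (l 16772408)))) (a (l 16771448) (l 16769040))) (a (b (a (a (a (l 16773640) (l 16774352)) (a (b (l 16774016) (l 16773528)) (l 16774544))) (l 16772728)) (a (a (c (l 16775048) (b (l 16776424) (a (l 16773552) (l 16773000)))) (l 16772624)) (l 16771336))) (a (l 16769544) (l 16767016)))))), by decide +kernel⟩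

def k27_pm_012_s : ∃ t, chk3 f_pm_012_s t 69 61 1 = true :=
  ⟨(b (a (b (a (a (b (c (l 226190426631) (l 232632876167)) (b (l 16777768) (l 16775904))) (b (b (a (l 237464715543) (l 16777072)) (l 16776544)) (l 16775224))) (a (b (l 16775848) (l 16774128)) (b (l 16774728) (a (l 16773336) (l 16772768))))) (a (a (b (l 16774584) (b (l 16773296) (l 16772400))) (b (c (l 16773536) (l 16772848)) (l 16771808))) (a (b (b (l 16772848) (l 16772008)) (l 16770568)) (l 16770296)))) (b (a (a (b (l 16773640) (c (l 16771936) (l 16771896))) (b (c (l 16772512) (l 16771856)) (l 16770712))) (b (c (l 16770792) (l 16770872)) (l 16768896))) (b (a (l 16769416) (l 16767000)) (b (l 16766776) (l 16765816))))) (a (b (c (a (l 16769472) (l 16767008)) (a (l 16769560) (l 16767088))) (b (a (c (l 16763896) (l 16763968)) (a (l 16764712) (b (l 16763984) (l 16760408)))) (a (c (l 16765832) (l 16764576)) (c (l 16762512) (l 16762616))))) (b (a (c (c (l 16764528) (l 16764552)) (l 16765920)) (a (b (l 16763768) (l 16761960)) (b (l 16767800) (l 16761032))))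 (b (a (c (l 16762000) (l 16762104)) (l 16760280)) (l 16759984))))), by decide +kernel⟩

def k28_pm_012_s : ∃ t, chk3 f_pm_012_s t 35 60 1 = true :=
  ⟨(a (b (a (b (a (l 3) (a (l 314774127751) (b (l 3) (b (l 244444037415) (l 12515804023))))) (a (b (c (l 255718327079) (a (l 3) (l 243370295639))) (a (b (l 265382003079) (l 105931341447)) (a (l 16777984) (l 16776104)))) (a (b (b (l 146196659559) (l 16776504)) (l 16775240)) (l 16774944)))) (b (a (b (a (c (l 220821717303) (l 225116681895)) (b (l 115595017655) (l 16776328))) (c (l 16775672) (l 16776304))) (c (l 16774112) (l 16775376))) (a (b (l 16773976) (a (l 16772896) (l 16771720))) (b (a (l 16772200) (l 16770968)) (l 16769952))))) (a (b (a (b (l 16775296) (c (l 16773656) (l 16773632))) (a (b (l 16773560) (c (l 16771928) (l 16771872))) (b (l 16772424) (l 16770760)))) (a (b (c (a (l 16772552) (l 16771400)) (a (l 16772520) (l 16771344))) (l 16770256)) (l 16768784))) (b (a (a (b (l 16771224) (l 16769696)) (l 16769368)) (l 16767720)) (c (l 16766488) (l 16765304)))))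 (b (a (b (a (a (b (l 16770472) (l 16771424)) (b (l 16771864) (l 16770184))) (a (b (l 16771912) (l 16769072)) (a (l 16768944) (l 16768416)))) (a (l 16768504) (l 16766280))) (b (c (l 16766008) (l 16767456)) (c (l 16762488) (l 16762656)))) (b (a (a (l 16765408) (l 16763048)) (a (l 16760392) (b (l 16753304) (l 16756896)))) (a (a (l 16761696) (b (l 16760264) (l 16758504))) (a (b (l 16757768) (l 16756488)) (l 16755128)))))), by decide +kernel⟩

def k29_pm_012_s : ∃ t, chk3 f_pm_012_s t 35 61 1 = true :=
  ⟨(a (b (a (a (b (c (l 16767400) (l 16767488)) (c (a (l 16761592) (l 16759072)) (l 16763688))) (b (l 16765056) (b (l 16756976) (l 16760520)))) (b (a (l 16762680) (b (l 16756008) (l 16759512))) (b (a (l 16760016) (l 16758224)) (l 16757936)))) (b (a (b (a (l 16761680) (l 16759232)) (l 16758952)) (l 16755016)) (b (c (l 16754552) (l 16754232)) (a (l 16754816) (l 16749600))))) (b (a (b (a (b (l 16759016) (l 16757720)) (l 16756680)) (l 16753952)) (b (l 16752960) (l 16748864))) (a (b (b (l 16750808) (l 16748680))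 (b (l 16746536) (l 16744376))) (b (l 16749920) (l 16740408))))), by decide +kernel⟩

def k30_pm_012_s : ∃ t, chk3 f_pm_012_s t 34 62 1 = true :=
  ⟨(b (b (b (a (a (a (b (b (a (a (a (l 16773264) (l 16773024)) (l 16772720)) (l 16772080)) (l 16772128)) (l 16771568)) (l 16770048)) (a (l 16767472) (c (a (l 16762928) (l 16764416)) (l 16766352)))) (a (a (c (l 16763016) (l 16763120)) (l 16761312)) (l 16757784))) (a (a (a (l 16770440) (l 16767928)) (a (a (b (l 16766536) (l 16762712)) (a (l 16765144) (l 16764648))) (c (l 16763504) (l 16763608)))) (a (l 16760688) (l 16755552)))) (a (a (a (b (l 16768056) (b (a (l 16764760) (l 16766240)) (l 16766072))) (b (c (b (l 16766312) (l 16765504)) (a (l 16766488) (l 16765456))) (l 16764544))) (b (a (l 16764696) (l 16762240)) (l 16761208))) (a (b (l 16758432) (a (l 16752176) (l 16754872))) (b (l 16755928) (l 16751040))))) (a (b (a (c (b (l 16763896) (l 16761560)) (b (l 16763760) (l 16761344))) (b (l 16758872) (c (l 16759296) (l 16758960)))) (b (a (a (l 16760272) (l 16757824))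 (l 16756744)) (a (a (l 16757832) (l 16755384)) (a (l 16752920) (l 16750416))))) (b (a (b (l 16756464) (l 16751504)) (b (l 16748752) (a (l 16747704) (l 16745136)))) (a (b (a (l 16750376) (l 16747840)) (c (l 16746888) (l 16746256))) (b (c (l 16744304) (l 16743608)) (l 16741368)))))), by decide +kernel⟩

def k31_pm_012_s : ∃ t, chk3 f_pm_012_s t 34 63 1 = true :=
  ⟨(b (a (b (a (a (b (l 16755344) (l 16752688)) (b (l 16752864) (l 16750136))) (b (c (l 16749336) (l 16748760)) (c (l 16746632) (l 16745960)))) (a (b (c (l 16748896) (l 16748272)) (c (l 16746064) (l 16745344))) (b (c (l 16743872) (l 16743112)) (c (l 16741056) (l 16740208))))) (b (a (b (l 16743896) (l 16741168)) (b (l 16738728) (l 16736032))) (b (a (l 16738392) (l 16733280)) (a (l 16738176) (l 16730480))))) (a (b (a (b (b (l 16743512) (l 16744648)) (c (b (l 16740976) (l 16739488)) (l 16739320))) (b (c (l 16738184) (l 16737248)) (b (l 16735480) (a (l 16737848) (l 16732712))))) (a (b (c (c (b (l 16738256) (l 16736816)) (b (l 16737752) (l 16736304)))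 (b (a (l 16738288) (l 16735752)) (l 16740792))) (c (c (a (l 16735880) (l 16733416)) (l 16738048)) (c (l 16737520) (l 16737016)))) (c (b (c (l 16732616) (l 16732056)) (c (l 16729720) (l 16729128))) (b (a (l 16732496) (l 16729968)) (a (l 16729536) (l 16727008)))))) (a (b (b (c (l 16733192) (l 16732136)) (c (b (l 16731016) (l 16729552)) (l 16729136))) (c (b (l 16732632) (c (l 16724800) (l 16724152))) (b (l 16726192) (l 16723224)))) (b (b (l 16727616) (c (c (l 16725656) (l 16725016)) (l 16724080))) (c (b (l 16722456) (l 16719528)) (b (l 16721152) (l 16718176))))))), by decide +kernel⟩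

def k32_pm_012_s : ∃ t, chk3 f_pm_012_s t 35 31 1 = true :=
  ⟨(b (b (a (a (a (b (c (l 16758224) (l 16752584)) (l 16748320)) (b (l 16750200) (l 16745744))) (b (b (l 16747408) (l 16745216)) (b (l 16743000) (l 16740744)))) (b (a (l 16743744) (b (l 16737176) (l 16734976))) (a (b (l 16737808) (l 16735512)) (b (l 16732704) (l 16730336))))) (a (b (a (b (l 16743608) (l 16741216)) (b (l 16738400) (l 16735936))) (a (c (l 16737864) (l 16736976)) (c (l 16732696) (l 16731656)))) (b (a (c (l 16732416) (l 16731352)) (c (l 16727336) (l 16726128))) (a (c (l 16727544) (l 16726352)) (c (l 16722496) (l 16721160)))))) (b (a (b (a (c (l 16732728) (l 16731688)) (c (l 16727624) (l 16726440))) (a (c (l 16727384) (l 16726200)) (c (l 16722352) (l 16721024)))) (b (a (c (l 16722520) (l 16721192)) (c (l 16717504) (l 16716032))) (a (c (l 16717312) (l 16715856)) (c (l 16712328) (l 16710736))))) (a (a (b (b (l 16722568) (c (l 16720400) (l 16719024))) (c (b (l 16717520) (l 16714592)) (b (l 16716104) (l 16713128)))) (b (c (b (l 16718240)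 (l 16715448)) (b (l 16716816) (l 16713968))) (c (b (l 16712584) (l 16709648)) (l 16714816)))) (b (b (c (a (l 16713256) (l 16708304)) (a (l 16711704) (l 16706624))) (c (a (l 16710480) (l 16705528)) (l 16710280))) (c (a (b (l 16707624) (l 16704696)) (b (l 16702680) (l 16699752))) (a (l 16704504) (l 16699432))))))), by decide +kernel⟩

def k33_pm_012_s : ∃ t, chk3 f_pm_012_s t 36 28 1 = true :=
  ⟨(b (l 3) (a (l 3) (b (a (l 3) (b (l 3) (a (l 3) (b (l 3) (c (a (l 3) (c (l 166597757207) (l 166597757191))) (l 248202133975)))))) (a (b (l 3) (a (l 3) (b (c (l 296520516695) (l 307257934791)) (c (a (l 248739004887) (l 16778448)) (a (l 247128392887) (l 16776632)))))) (b (b (a (l 3) (a (c (b (l 231559136423) (l 74792830743)) (l 145659791671)) (c (l 16775992) (l 16775992)))) (a (c (a (l 327659029383) (c (l 107541954407) (l 16778360))) (a (l 331953996567) (l 16779656))) (c (l 16775024) (l 16775024)))) (c (a (b (c (a (l 76403441639) (l 16775512)) (l 16778784)) (l 16774496)) (l 16772448)) (a (b (l 16778776) (l 16774480))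 (l 16772440)))))))), by decide +kernel⟩

def k34_pm_012_s : ∃ t, chk3 f_pm_012_s t 74 56 1 = true :=
  ⟨(b (l 3) (a (b (l 3) (a (l 3) (a (l 3) (c (c (l 302426097111) (l 305110451591)) (l 313700386087))))) (b (a (c (c (l 333027739895) (l 335712094359)) (l 344838899703)) (a (b (c (l 343228286103) (l 353428833319)) (c (c (l 102173245111) (l 16777048)) (l 111300053159))) (c (c (b (c (l 116668762311) (l 16777112)) (l 16775704)) (l 16779032)) (b (l 123648084167) (l 16775744))))) (c (c (a (b (a (l 306184193015) (l 87140859559)) (a (l 16778160) (l 16775480))) (l 16774096)) (a (b (l 162839659335) (l 16776160)) (l 16774120))) (a (b (a (l 317458482055) (l 16778264)) (l 16778136)) (l 16774168)))))), by decide +kernel⟩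

def k35_pm_012_s : ∃ t, chk3 f_pm_012_s t 74 57 1 = true :=
  ⟨(b (a (b (a (a (l 3) (c (c (l 278266905687) (l 279877518359)) (l 285783098311))) (c (c (a (b (l 270750712503) (l 16776568)) (b (l 16779344) (l 16775192))) (b (a (l 259476424135) (l 16776720)) (l 16778488))) (b (a (l 279877517927) (l 16776728)) (l 16777848)))) (c (a (c (b (a (l 199346882439) (l 16776400)) (l 16775480)) (b (a (l 199883753335) (l 16776400)) (l 16775488))) (c (l 16773496) (l 16773512))) (a (b (a (l 208473687879) (l 16776400)) (l 16775488)) (l 16773544)))) (b (c (c (a (l 16773832) (l 16770952)) (a (l 16773848) (l 16771000))) (a (l 16773888) (l 16771088))) (c (a (c (l 16770656) (l 16770696)) (b (c (l 16768536) (l 16768600)) (c (l 16767008) (l 16767080)))) (a (l 16770768) (b (l 16768712) (l 16767216)))))) (a (b (c (a (c (l 16773008) (l 16773008)) (c (l 16770288) (l 16770312))) (a (l 16773024) (l 16770368))) (a (a (c (b (l 16771192) (l 16769504)) (l 16765120)) (c (l 16770272) (l 16768992))) (c (b (a (l 16768512) (l 16767312))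 (l 16767096)) (b (l 16767984) (l 16766560))))) (b (c (a (b (c (l 16768240) (l 16768288)) (c (l 16766776) (l 16766832))) (c (l 16764872) (l 16764968))) (a (b (l 16768376) (l 16766952)) (l 16765152))) (c (a (l 16764600) (l 16762056)) (a (l 16764800) (l 16762376)))))), by decide +kernel⟩

def k36_pm_012_s : ∃ t, chk3 f_pm_012_s t 75 56 1 = true :=
  ⟨(b (a (b (a (l 3) (a (b (l 3) (c (c (c (l 142975437079) (l 16778456)) (l 16777144)) (l 149417885399))) (c (c (b (c (l 149417887895) (l 16778472)) (l 16775984)) (l 16779264)) (b (c (l 120426860775) (l 156934077879)) (l 16776016))))) (a (a (b (l 3) (c (c (c (l 128479922343) (l 16779712)) (l 16777096)) (l 135459241575))) (c (c (b (c (l 136532986087) (l 16778432)) (l 16775872)) (l 16779176)) (b (l 143512305303) (l 16775912)))) (c (c (l 16774296) (l 16774488)) (l 16774536)))) (b (c (c (a (c (l 16774544) (l 16774552)) (l 16771664)) (l 16773392)) (a (l 16775128) (l 16771864))) (c (c (a (l 16771568) (l 16768680)) (a (l 16771632) (l 16768784))) (a (l 16771752) (l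 16768984))))) (a (b (c (c (a (l 16774304) (l 16771424)) (l 16772568)) (a (l 16774384) (l 16771592))) (c (a (c (l 16771216) (l 16771272)) (c (b (l 16769120) (l 16767560)) (l 16768408))) (a (l 16771368) (l 16769232)))) (b (c (a (c (b (l 16769312) (l 16767768)) (l 16768624)) (c (b (l 16766512) (l 16765216)) (l 16766040))) (a (l 16768808) (b (l 16766880) (l 16765392)))) (c (a (c (b (l 16766352) (l 16765040)) (b (l 16766480) (l 16765200))) (c (l 16763232) (l 16763208))) (a (b (l 16766712) (l 16765192)) (l 16763104)))))), by decide +kernel⟩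

def k37_pm_012_s : ∃ t, chk3 f_pm_012_s t 75 57 1 = true :=
  ⟨(b (c (a (b (b (a (l 16768904) (c (l 16766152) (l 16766272))) (a (c (l 16767304) (l 16767392)) (l 16764856))) (a (c (b (l 16765888) (l 16764440)) (l 16762696)) (c (l 16762744) (l 16762880)))) (c (b (l 16761656) (l 16758752)) (b (l 16761608) (l 16758664)))) (a (b (a (b (l 16769088) (l 16767552)) (l 16764440)) (a (l 16765528) (l 16762792))) (b (l 16761456) (l 16758440)))) (c (c (a (b (l 16761184) (l 16758424)) (b (l 16755944) (l 16753184))) (a (b (l 16761384) (l 16758624)) (b (l 16755824) (l 16753040)))) (a (b (l 16761328) (l 16758496)) (b (l 16755544) (l 16752712))))), by decide +kernel⟩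

def k38_pm_012_s : ∃ t, chk3 f_pm_012_s t 36 116 1 = true :=
  ⟨(a (a (l 3) (b (l 3) (a (b (l 3) (l 285246227271)) (b (a (l 324437803751) (b (l 194515043559) (l 16778096))) (a (b (l 132238018167) (l 16776496)) (l 16775504)))))) (a (b (a (a (b (l 3) (c (c (l 154249726055) (l 148344145991)) (l 16778424))) (c (b (l 192367560471) (l 16776120)) (b (l 199346882263) (l 16776112)))) (b (c (a (l 16776392) (l 16772328)) (l 16775648)) (l 16774224))) (b (c (a (l 16775088) (c (l 16769520) (l 16772112))) (l 16773568)) (a (l 16773280) (a (l 16771040) (l 16769560))))) (b (b (c (c (l 16772600) (l 16771272)) (l 16771256)) (a (a (l 16772992) (l 16770232)) (a (l 16768800) (b (l 16767848) (l 16767088))))) (a (c (b (a (l 16769928) (l 16768448)) (a (l 16770088) (l 16766888))) (b (l 16763872) (a (l 16768056) (l 16766856)))) (c (b (a (l 16768488) (l 16765952)) (l 16765056)) (l 16765928)))))), by decide +kernel⟩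

def k39_pm_012_s : ∃ t, chk3 f_pm_012_s t 36 117 1 = true :=
  ⟨(b (a (a (b (l 3) (a (l 3) (c (a (l 3) (l 160692176743)) (l 217063620855)))) (a (c (b (a (l 226190426391) (l 16779176)) (l 16776864)) (b (a (l 210621170839) (l 16776544)) (l 16775536))) (c (l 16773560) (l 16773528)))) (b (a (a (a (l 16772216) (l 16770720)) (a (l 16769224) (a (l 16770720) (l 16768936)))) (c (a (l 16767304) (l 16763568)) (l 16764856))) (a (b (a (l 16770104) (a (l 16767880) (l 16766600))) (a (c (l 16771800) (l 16769104)) (l 16766528))) (c (l 16764560) (l 16758072))))) (a (b (a (a (l 319069094839) (a (a (l 170892723319) (l 16776872)) (l 16775928))) (a (l 16773800) (a (l 16771584) (l 16770080)))) (a (a (a (l 250886488487) (a (l 106468214119) (l 16776568))) (l 16774896)) (a (l 16772016) (a (l 16769744) (a (l 16771248) (l 16767968)))))) (a (a (b (a (a (l 16768912) (l 16770824)) (a (l 16767568) (l 16766912))) (c (l 16766416) (l 16766368))) (c (l 16764616) (l 16764608))) (c (a (l 16762192) (l 16759832)) (l 16761128))))), by decide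 +kernel⟩

def k40_pm_012_s : ∃ t, chk3 f_pm_012_s t 36 59 1 = true :=
  ⟨(a (a (b (b (a (b (c (l 16778504) (l 16775888)) (l 16774264)) (c (l 16772320) (l 16772296))) (a (b (l 16772608) (c (l 16773472) (l 16773472))) (b (c (l 16771664) (l 16770976)) (a (l 16768816) (l 16767368))))) (b (a (b (c (l 16769336) (l 16769360)) (l 16767640)) (b (l 16761208) (l 16764840))) (b (l 16764592) (a (l 16759096) (l 16761608))))) (a (b (a (b (b (l 16770976) (a (l 16769536) (l 16774096))) (b (l 16767600) (l 16766000))) (b (b (a (l 16769848) (l 16769072)) (l 16770480)) (l 16766768))) (c (b (l 16762944) (l 16759744)) (l 16761440))) (c (b (b (b (a (l 16770744) (l 16766744)) (l 16765848)) (l 16763504)) (b (l 16760352) (l 16757184))) (b (b (l 16766712) (l 16763520)) (b (l 16760440) (l 16757344)))))) (a (a (b (c (b (l 16764056) (l 16760960)) (l 16762552)) (c (b (l 16757848) (l 16754704)) (l 16756456))) (b (c (b (l 16761576) (l 16758504)) (l 16760152)) (b (c (l 16755408) (l 16755624)) (b (l 16753200) (l 16751856))))) (b (c (b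 (l 16759128) (a (l 16756112) (l 16753776))) (b (l 16758176) (l 16755200))) (b (c (a (l 16753032) (b (l 16751496) (l 16750208))) (l 16752344)) (c (b (l 16750064) (l 16748960)) (l 16750000)))))), by decide +kernel⟩

def k41_pm_012_s : ∃ t, chk3 f_pm_012_s t 37 29 1 = true :=
  ⟨(b (a (b (a (b (a (c (b (c (a (l 16770432) (l 16766648)) (l 16767248)) (l 16766400)) (b (l 16767280) (l 16765816))) (c (l 16764176) (l 16764352))) (c (c (l 16762312) (l 16762384)) (l 16762536))) (c (b (c (l 16760376) (l 16760520)) (c (l 16757488) (l 16757664))) (b (l 16760792) (l 16758000)))) (a (c (b (c (l 16759328) (l 16759432)) (l 16757704)) (b (l 16759648) (l 16756728))) (c (b (l 16756000) (a (l 16752944) (l 16750688))) (b (l 16755200) (l 16752472))))) (b (a (c (b (c (l 16755664) (l 16755832)) (l 16753040)) (b (l 16755664) (l 16752848))) (b (c (l 16750392) (l 16749936)) (c (a (l 16749040) (l 16746272)) (l 16747120)))) (a (c (b (a (l 16751344) (l 16749008)) (a (l 16748656) (l 16746176))) (b (l 16750024) (l 16747144))) (b (c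 (a (l 16746272) (l 16743472)) (l 16746888)) (a (l 16743120) (l 16740240)))))) (a (b (a (b (c (l 16753384) (l 16753792)) (c (b (l 16751152) (l 16749832)) (l 16751016))) (b (c (a (l 16750056) (l 16748104)) (l 16749784)) (c (l 16746792) (l 16746696)))) (a (c (b (l 16748136) (l 16746008)) (l 16747344)) (b (l 16743704) (l 16740408)))) (b (b (a (c (l 16744608) (l 16744104)) (a (l 16740136) (l 16737288))) (a (l 16741320) (l 16740952))) (b (a (l 16738192) (l 16732648)) (a (l 16740208) (l 16729488)))))), by decide +kernel⟩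

def k42_pm_012_s : ∃ t, chk3 f_pm_012_s t 18 30 1 = true :=
  ⟨(a (b (a (b (a (b (b (l 16761312) (a (l 16761000) (l 16758344))) (a (c (l 16758392) (l 16758568)) (b (l 16756696) (l 16755160)))) (b (a (c (l 16756520) (l 16756696)) (b (l 16754896) (l 16753464))) (a (c (l 16753656) (l 16753936)) (l 16751840)))) (a (b (a (c (l 16755360) (l 16755608)) (l 16753472)) (l 16751952)) (b (l 16750736) (l 16746864)))) (a (b (b (c (a (l 16751992) (l 16750088)) (l 16751464)) (l 16749184)) (b (l 16745584) (l 16741720))) (b (b (l 16747696) (l 16744112)) (b (l 16740376) (l 16736544))))) (b (a (a (b (l 16747960) (l 16749120)) (b (c (l 16735320) (l 16742560)) (l 16738824))) (b (a (l 16737776) (l 16732624)) (a (l 16733736) (l 16728616)))) (b (a (a (l 16739704) (l 16734680)) (a (l 16729592) (b (l 16725528) (l 16723440)))) (a (a (l 16735448) (b (l 16731488) (l 16729336))) (a (b (l 16726416) (l 16724192)) (l 16720120)))))) (b (b (a (a (b (l 16742384) (l 16738808)) (a (l 16736592) (l 16744416))) (a (c (l 16740920) (l 16729360))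 (l 16729800))) (b (a (a (l 16735120) (l 16729888)) (l 16727288)) (a (a (l 16731336) (l 16726160)) (a (l 16721016) (l 16715808))))) (b (a (a (b (l 16727448) (l 16723440)) (b (l 16722336) (l 16718360))) (a (b (l 16717216) (l 16713224)) (b (l 16712088) (l 16708040)))) (a (b (a (l 16719328) (l 16714136)) (a (l 16714928) (l 16709800))) (b (a (l 16709016) (l 16703896)) (a (l 16704712) (l 16699632))))))), by decide +kernel⟩

def k43_pm_012_s : ∃ t, chk3 f_pm_012_s t 18 31 1 = true :=
  ⟨(b (b (a (a (b (a (b (l 16732184) (l 16729936)) (l 16725952)) (a (l 16726424) (l 16721312))) (b (a (l 16720792) (l 16715632)) (c (l 16719688) (l 16712816)))) (a (b (a (l 16710472) (l 16705384)) (a (l 16705952) (l 16700896))) (b (a (l 16700336) (l 16695296)) (c (l 16694536) (l 16692248))))) (a (a (a (b (l 16721664) (l 16716776)) (b (l 16716576) (l 16711720))) (b (c (l 16715072) (l 16708080)) (c (l 16710320) (l 16703216)))) (a (b (a (l 16701328) (l 16696312)) (c (l 16695192) (l 16693024))) (b (c (l 16690064) (l 16687672)) (c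 (l 16685464) (l 16682984)))))) (b (b (a (a (c (a (l 16712544) (l 16707584)) (l 16713632)) (c (l 16705416) (l 16698208))) (a (c (l 16690360) (l 16688096)) (c (l 16680712) (l 16678136)))) (b (a (a (a (l 16707832) (l 16702824)) (l 16695344)) (a (a (l 16687888) (l 16682960)) (a (l 16678088) (l 16673240)))) (a (a (a (l 16705168) (l 16700160)) (a (l 16700416) (l 16695464))) (a (c (l 16689272) (l 16681656)) (c (l 16674352) (l 16671672)))))) (a (a (b (c (b (a (l 16703376) (l 16698440)) (l 16703360)) (a (l 16700168) (l 16695096))) (c (a (l 16696280) (l 16691336)) (a (l 16694368) (l 16689288)))) (b (c (a (l 16692120) (l 16687208)) (a (l 16690024) (l 16684976))) (c (a (l 16686400) (l 16681480)) (a (l 16684224) (l 16679176))))) (a (b (c (a (l 16682312) (l 16677448)) (l 16682696)) (c (a (l 16676576) (l 16671712)) (a (l 16674136) (l 16669128)))) (b (c (a (l 16672616) (l 16667808)) (l 16667488)) (c (a (l 16666880) (l 16662064)) (a (l 16664144) (l 16659176)))))))), by decide +kernel⟩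

def k44_pm_012_s : ∃ t, chk3 f_pm_012_s t 38 28 2 = true :=
  ⟨(b (a (b (a (b (a (c (l 16768784) (l 16768896)) (c (b (l 16767976) (l 16765408)) (l 16766232))) (a (c (b (l 16767272) (l 16765344)) (l 16766168)) (c (l 16763536) (l 16763528)))) (c (b (a (l 16763616) (l 16760960)) (l 16759504)) (b (l 16762264) (l 16759400)))) (a (c (b (l 16762048) (l 16759128)) (b (l 16762000) (l 16759016))) (c (a (c (l 16759168) (l 16756472)) (b (l 16755272) (l 16752304))) (b (l 16756448) (l 16763904))))) (b (b (a (c (l 16756976) (l 16756824)) (c (l 16751720) (l 16751424))) (a (c (a (l 16755480) (l 16752816)) (l 16753912)) (c (l 16748848) (l 16748464)))) (a (c (b (l 16756472) (l 16748240)) (b (l 16750912) (l 16747832))) (b (c (l 16745888) (l 16745408)) (c (a (l 16744192) (b (l 16742280) (l 16740736))) (a (l 16743664) (l 16740888))))))) (a (b (b (a (c (l 16758776) (l 16755984)) (c (a (l 16752032) (l 16749288)) (l 16750336))) (a (c (a (l 16754608) (l 16751848)) (l 16758248)) (c (l 16747704) (l 16747320)))) (a (a (b (l 16752984)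 (l 16748920)) (b (l 16748864) (l 16746096))) (b (a (l 16746040) (c (l 16743448) (l 16742968))) (a (a (l 16743960) (l 16742536)) (c (l 16740640) (l 16740120)))))) (b (a (b (c (l 16745192) (l 16744712)) (a (c (l 16743568) (l 16743056)) (c (b (l 16741568) (l 16740088)) (b (l 16740984) (l 16739472))))) (b (a (c (b (l 16741880) (l 16740344)) (l 16740496)) (c (b (l 16739184) (l 16737632)) (l 16737696))) (c (a (l 16738080) (l 16735352)) (l 16735960)))) (a (b (a (c (b (l 16741392) (l 16739960)) (l 16740104)) (l 16737568)) (c (l 16736432) (l 16735752))) (b (c (l 16733752) (l 16732928)) (c (l 16730872) (l 16729992))))))), by decide +kernel⟩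

def k45_pm_012_s : ∃ t, chk3 f_pm_012_s t 39 28 2 = true :=
  ⟨(b (a (b (a (c (b (l 16746520) (a (l 16744912) (l 16742304))) (b (l 16746080) (l 16743056))) (a (b (l 16742400) (c (b (l 16740464) (l 16738968)) (l 16739040))) (b (c (l 16740128) (l 16739480)) (l 16736784)))) (a (b (c (a (l 16741920) (b (l 16740048) (l 16738520))) (a (l 16741304) (l 16738592))) (c (a (b (l 16739616) (l 16738064)) (l 16736192)) (a (l 16738136) (l 16735392)))) (c (b (l 16735376) (l 16732240)) (b (l 16734552) (l 16731304))))) (b (a (c (b (l 16736344) (l 16733328)) (b (l 16735576) (l 16732440))) (c (b (l 16731360) (l 16728288)) (b (l 16730440) (l 16727256)))) (a (c (b (l 16730216) (l 16727040)) (b (l 16729224) (l 16725936))) (c (b (l 16725136) (l 16721912)) (b (l 16723992) (l 16720664)))))) (a (b (c (a (b (l 16734376) (l 16731288)) (b (l 16729056) (l 16725928))) (a (b (l 16733520) (l 16730344)) (b (l 16728024) (l 16724808)))) (a (b (c (l 16728288) (l 16727280)) (c (l 16725376) (l 16724312))) (b (c (l 16722904) (l 16721712))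 (c (l 16719960) (l 16718712))))) (b (a (b (c (l 16723816) (l 16722616)) (c (l 16720648) (l 16719360))) (b (c (l 16718648) (l 16717296)) (c (l 16715448) (l 16714008)))) (a (b (c (l 16717592) (l 16716232)) (c (l 16714624) (l 16713208))) (b (c (l 16712360) (l 16710848)) (c (l 16709376) (l 16707800))))))), by decide +kernel⟩

def k46_pm_012_s : ∃ t, chk3 f_pm_012_s t 38 28 3 = true :=
  ⟨(b (a (b (a (b (a (l 16769112) (a (l 16769672) (l 16765656))) (a (b (l 16767000) (l 16765536)) (l 16763440))) (a (b (l 16763544) (l 16760584)) (b (l 16760720) (l 16757720)))) (a (b (l 16761856) (l 16758760)) (b (a (l 16757528) (l 16754632)) (l 16763408)))) (a (b (a (b (l 16757896) (l 16754864)) (b (l 16755072) (l 16752008))) (b (l 16755544) (l 16747080))) (b (b (a (l 16752248) (l 16749432)) (a (l 16749152) (l 16746304))) (b (l 16744528) (a (l 16742704) (l 16745024)))))) (a (b (a (b (l 16755616) (l 16763032)) (b (l 16749728) (l 16746600))) (a (b (l 16754848) (a (l 16748280) (l 16745272))) (b (a (l 16745112) (l 16742096))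 (a (l 16742224) (l 16739168))))) (b (a (b (l 16743824) (a (l 16742120) (l 16739136))) (b (a (l 16739384) (l 16736448)) (l 16734656))) (a (b (a (l 16739080) (l 16736040)) (l 16734568)) (b (l 16731520) (l 16728496)))))), by decide +kernel⟩

def k47_pm_012_s : ∃ t, chk3 f_pm_012_s t 39 28 3 = true :=
  ⟨(b (a (b (a (a (b (l 16746632) (l 16743464)) (b (l 16743832) (b (l 16741448) (l 16739816)))) (b (a (c (l 16741432) (l 16740648)) (a (b (l 16739784) (l 16738176)) (b (l 16738416) (l 16736800)))) (a (b (a (l 16739336) (l 16737944)) (l 16737008)) (l 16735032)))) (a (b (a (b (l 16741032) (l 16739376)) (b (l 16738176) (l 16736520))) (a (l 16736888) (l 16733984))) (b (l 16735064) (l 16729704)))) (b (a (a (b (a (l 16736240) (l 16734880)) (l 16732272)) (b (l 16732848) (l 16729536))) (a (b (l 16730168) (l 16726824)) (b (a (l 16728168) (l 16726848)) (l 16724136)))) (a (b (c (l 16728120) (l 16726896)) (a (l 16725472) (l 16722680))) (a (b (l 16723400) (l 16719920)) (b (l 16720696) (l 16717192)))))) (a (b (a (b (l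 16732040) (l 16728736)) (b (l 16726264) (l 16722920))) (a (b (l 16725568) (l 16722520)) (b (l 16719720) (l 16716640)))) (b (a (b (c (l 16721296) (l 16719864)) (l 16717208)) (b (c (l 16715816) (l 16714216)) (c (l 16712440) (l 16710752)))) (a (b (l 16713976) (l 16710864)) (b (l 16708344) (l 16705216)))))), by decide +kernel⟩

def k48_pm_012_s : ∃ t, chk3 f_pm_012_s t 38 29 1 = true :=
  ⟨(b (a (b (a (b (c (a (l 16746208) (b (l 16744056) (l 16742688))) (a (l 16745504) (l 16742472))) (c (a (l 16746080) (l 16740608)) (l 16746408))) (c (b (l 16744296) (l 16736296)) (b (l 16737848) (l 16735016)))) (a (c (a (l 16744464) (l 16736408)) (l 16742048)) (c (b (l 16733552) (l 16730784)) (l 16730784)))) (b (c (a (b (l 16738544) (l 16730568)) (b (c (l 16728064) (l 16727144)) (l 16724864))) (a (b (l 16731672) (l 16728880)) (b (l 16725584) (l 16722768)))) (c (a (b (l 16727848) (l 16725152)) (b (l 16722176) (l 16719512))) (a (l 16724704) (l 16718696))))) (b (b (a (a (l 16733008) (l 16727280)) (a (l 16721544) (l 16715808)))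 (a (a (l 16730072) (l 16724408)) (a (l 16718752) (l 16713096)))) (a (c (b (l 16735472) (l 16732472)) (a (l 16724824) (l 16719120))) (c (b (l 16714128) (l 16711280)) (a (l 16713432) (l 16707752)))))), by decide +kernel⟩

def k49_pm_012_s : ∃ t, chk3 f_pm_012_s t 39 29 1 = true :=
  ⟨(b (a (b (c (a (b (c (l 16722544) (l 16721440)) (l 16719232)) (b (c (l 16717112) (l 16715816)) (l 16713688))) (a (b (l 16719584) (l 16716752)) (b (l 16713680) (l 16710832)))) (c (a (b (l 16716536) (l 16713904)) (b (l 16710976) (l 16708328))) (a (l 16723176) (l 16717224)))) (b (c (a (b (c (l 16711752) (l 16710296)) (c (l 16708960) (l 16707472))) (b (c (l 16706472) (l 16704864)) (c (l 16703664) (l 16702024)))) (a (b (l 16707888) (l 16705016)) (b (l 16702216) (l 16699328)))) (c (a (b (l 16705504) (l 16702856)) (b (l 16700128) (l 16697472))) (a (b (l 16702256) (l 16699600)) (b (l 16696560) (l 16693896)))))) (a (b (a (b (l 16715304) (l 16707456)) (c (b (l 16705752) (l 16703192)) (l 16701584))) (b (a (l 16704784) (l 16699216))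 (a (c (l 16703248) (l 16700664)) (c (l 16697904) (l 16695016))))) (b (a (b (c (l 16700272) (l 16697024)) (c (l 16697744) (l 16694512))) (b (c (l 16694880) (l 16691304)) (c (a (l 16693680) (l 16690976)) (a (l 16690208) (l 16687344))))) (a (b (c (a (l 16696552) (l 16693832)) (a (l 16693432) (l 16690552))) (c (l 16692440) (l 16689224))) (c (b (l 16689680) (l 16686952)) (b (l 16686136) (l 16683400))))))), by decide +kernel⟩

def k50_pm_012_s : ∃ t, chk3 f_pm_012_s t 19 30 1 = true :=
  ⟨(b (a (a (a (b (l 16719176) (b (l 16714136) (l 16710616))) (b (l 16713784) (b (l 16708840) (l 16705272)))) (b (a (b (l 16709968) (l 16706816)) (b (l 16704544) (l 16701464))) (a (b (l 16703512) (l 16699936)) (l 16696360)))) (a (a (b (b (c (l 16700384) (l 16697768)) (l 16695960)) (l 16690984)) (b (c (l 16693448) (l 16690496)) (l 16690840))) (c (a (b (l 16688056) (l 16681840)) (b (l 16682688) (l 16676616))) (b (a (l 16684816) (l 16679144)) (a (l 16678536) (l 16673048)))))) (a (a (a (b (l 16704840) (b (l 16698760) (l 16694560)))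 (b (l 16699592) (b (l 16693624) (l 16689480)))) (b (a (l 16694360) (l 16689144)) (b (l 16685968) (l 16681944)))) (a (b (c (l 16682816) (l 16679784)) (c (l 16685896) (l 16682744))) (b (a (c (l 16675160) (l 16671776)) (c (l 16670096) (l 16666488))) (c (a (l 16667992) (l 16663104)) (l 16667248)))))), by decide +kernel⟩

def k51_pm_012_s : ∃ t, chk3 f_pm_012_s t 19 31 1 = true :=
  ⟨(a (b (b (a (b (a (l 16690264) (l 16685256)) (c (l 16684744) (l 16682112))) (b (l 16688304) (l 16673616))) (a (b (c (l 16680352) (l 16677640)) (c (l 16675840) (l 16673040))) (b (l 16669288) (l 16664840)))) (b (b (a (c (l 16681616) (l 16668248)) (c (b (l 16662960) (l 16660600)) (b (l 16659800) (l 16657400)))) (a (c (a (l 16668504) (l 16663712)) (l 16668416)) (c (l 16656664) (l 16653400)))) (a (c (b (l 16671128) (a (l 16657272) (l 16652504))) (b (l 16657600) (a (l 16654232) (l 16649312)))) (c (b (l 16651208) (a (l 16647784) (l 16643120))) (b (l 16647856) (a (l 16644432) (l 16639616))))))) (b (a (b (b (l 16667960) (l 16663920))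 (b (l 16659744) (l 16655448))) (b (c (a (l 16660416) (l 16655696)) (l 16654448)) (a (c (l 16652344) (l 16648728)) (b (l 16648016) (l 16643880))))) (b (a (a (b (a (l 16654312) (l 16651976)) (l 16647904)) (b (l 16648480) (l 16643216))) (c (a (l 16643104) (l 16638560)) (b (l 16639624) (l 16634392)))) (a (c (b (l 16641936) (a (l 16638488) (l 16633896))) (b (l 16638280) (a (l 16634824) (l 16630072)))) (c (a (b (l 16635072) (l 16629352)) (l 16630384)) (b (l 16628896) (a (l 16625376) (l 16620752)))))))), by decide +kernel⟩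

def k52_pm_012_s : ∃ t, chk3 f_pm_012_s t 40 2 1 = true :=
  ⟨(b (l 3) (b (l 3) (a (l 3) (b (l 3) (b (a (l 3) (a (l 3) (a (b (l 3) (b (l 3) (l 169818983047))) (b (b (l 3) (l 278266904439)) (b (c (l 81772152999) (l 16778392)) (l 16776144)))))) (a (b (l 3) (a (l 3) (b (l 233169751607) (c (l 109152570919) (l 109152570599))))) (a (a (b (l 225653558327) (l 16778712)) (b (a (l 161765920071) (l 111300054407)) (l 16774936))) (b (a (l 16778768) (l 16774616)) (l 16778424))))))))), by decide +kernel⟩

def k53_pm_012_s : ∃ t, chk3 f_pm_012_s t 41 4 1 = true :=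
  ⟨(l 2), by decide +kernel⟩

def k54_pm_012_s : ∃ t, chk3 f_pm_012_s t 82 10 1 = true :=
  ⟨(b (l 3) (a (l 3) (b (l 3) (a (l 3) (a (a (l 3) (b (l 3) (b (l 3) (a (l 152102242151) (l 49023027239))))) (a (b (l 3) (c (b (l 130627405831) (l 16776936)) (b (l 119353116727) (l 16776896)))) (b (b (l 3) (l 116668763015)) (a (b (l 16778424) (l 16776496)) (b (l 16776832) (l 16776224)))))))))), by decide +kernel⟩

def k55_pm_012_s : ∃ t, chk3 f_pm_012_s t 164 22 1 = true :=
  ⟨(b (l 3) (b (a (l 3) (a (a (l 3) (b (l 3) (b (l 3) (c (l 202031235911) (l 182703883287))))) (b (a (l 3) (b (c (l 225116684311) (l 213842394999)) (a (c (l 164987142871) (l 149954757383)) (c (l 32380027575) (l 16777632))))) (a (b (a (l 3) (b (l 167671497511) (l 16777648))) (a (c (l 16777792) (l 16777792)) (l 16777488))) (b (c (l 16777464) (l 16777440)) (a (l 16777168) (l 16776200))))))) (b (a (l 3) (a (a (b (l 3) (a (l 203104977863) (c (l 119889986279) (l 107005084551)))) (c (b (c (l 71571604327) (l 65666024359)) (l 16776728)) (b (c (l 59760444407)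 (l 54391735271)) (l 16776704)))) (a (c (c (l 16776352) (l 16776976)) (c (l 16776952) (l 16776928))) (a (c (l 16776544) (l 16776464)) (c (l 16776256) (l 16776800)))))) (a (a (l 3) (a (b (l 3) (l 262160778695)) (b (c (l 240149070791) (l 237464716343)) (c (l 16777040) (l 16777032))))) (b (a (a (a (l 16777696) (l 16776728)) (l 16776904)) (a (l 16776936) (l 16775024))) (c (a (l 16776112) (l 16774944)) (a (l 16776056) (l 16774792)))))))), by decide +kernel⟩

def k56_pm_012_s : ∃ t, chk3 f_pm_012_s t 165 44 1 = true :=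
  ⟨(b (b (a (l 3) (a (a (b (l 150491629207) (a (l 16777840) (l 16777104))) (b (l 16777984) (l 16776664))) (c (a (l 16776320) (l 16775824)) (c (l 16775960) (l 16775888))))) (a (a (l 3) (a (l 3) (a (c (l 108615697671) (l 124721825111)) (c (l 22716351751) (l 15200159047))))) (c (a (a (c (l 16776752) (l 16776728)) (l 16776200)) (c (l 16775512) (l 16775400))) (a (a (c (l 16776704) (l 16776688)) (l 16776088)) (c (l 16775288) (l 16775184)))))) (a (a (b (a (l 3) (b (l 3) (c (l 176261432263) (l 161765917751)))) (a (a (l 3) (b (l 3) (b (c (l 163376529911) (l 149954757127)) (c (l 62444798439) (l 51170509367))))) (b (a (c (l 135996113639) (l 124721824503)) (c (l 16777064) (l 16777048))) (b (a (a (l 16777144) (l 16776992)) (l 16777088)) (c (l 16776728) (l 16776696)))))) (a (b (b (a (l 171966464919) (a (l 16777616) (l 16777136))) (a (a (l 31306285863) (l 16777064)) (l 16777168))) (b (c (l 16776624) (l 16776576)) (c (l 16776248) (l 16776824)))) (b (c (c (l 16776616) (l 16776592)) (c (l 16776560) (l 16776536))) (c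 (c (l 16775912) (l 16775848)) (c (l 16775784) (l 16775728)))))) (c (a (a (b (l 16776056) (l 16775352)) (b (l 16775536) (l 16774864))) (b (c (l 16774912) (l 16774760)) (b (l 16776984) (l 16776664)))) (a (a (b (l 16776592) (l 16775168)) (b (l 16775352) (l 16774600))) (b (c (l 16774608) (l 16774456)) (c (l 16773904) (l 16773712))))))), by decide +kernel⟩

def k57_pm_012_s : ∃ t, chk3 f_pm_012_s t 165 45 1 = true :=
  ⟨(c (a (b (b (b (a (a (a (c (l 103783858743) (l 97341407847)) (l 16776880)) (l 16776928)) (a (l 16775864) (l 16775328))) (a (a (l 16776624) (l 16776040)) (c (l 16775264) (l 16775168)))) (a (a (c (l 16776032) (l 16775984)) (l 16776096)) (c (l 16776024) (l 16775896)))) (b (a (c (l 16775936) (l 16775840)) (c (l 16773968) (l 16773800))) (a (l 16774728) (l 16773104)))) (b (a (b (b (a (l 16776136) (l 16774360)) (l 16774320)) (c (l 16773808) (l 16773600))) (a (b (l 16775728) (l 16773088)) (b (l 16774680) (l 16772728)))) (b (a (c (l 16775736) (l 16775488)) (c (l 16772408) (l 16772056))) (a (l 16772256)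 (c (l 16771736) (l 16771344)))))) (a (b (b (a (a (b (a (a (l 115058147991) (l 16777424)) (l 16776856)) (l 16776584)) (c (l 16776832) (l 16776800))) (a (c (l 16776888) (l 16776824)) (c (l 16775000) (l 16774904)))) (a (a (c (l 16775944) (l 16775904)) (l 16776608)) (c (l 16775776) (l 16775664)))) (b (a (c (l 16775752) (l 16775992)) (c (l 16773640) (l 16773488))) (a (l 16775136) (l 16772704)))) (b (a (a (b (l 16775032) (l 16773576)) (b (l 16773840) (l 16773056))) (b (c (l 16773192) (l 16772960)) (b (l 16772512) (l 16772136)))) (b (a (c (l 16772624) (l 16772392)) (c (l 16774344) (l 16774008))) (a (l 16771680) (c (l 16773584) (l 16770592))))))), by decide +kernel⟩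

def k58_pm_012_s : ∃ t, chk3 f_pm_012_s t 82 23 1 = true :=
  ⟨(a (b (a (a (c (b (b (l 255181455271) (l 53317994743)) (l 16775432)) (b (b (l 257328938903) (l 45801802119)) (l 16775384))) (b (b (a (c (l 44728059767) (l 36674996151)) (l 16777952)) (l 16776952)) (b (l 16774664) (l 16773696)))) (a (b (b (a (l 16776992) (l 16776376)) (l 16777032)) (l 16775784)) (b (b (a (l 16775776) (l 16773888)) (l 16773256)) (l 16773864)))) (a (b (c (l 16775536) (l 16775384)) (c (l 16771120) (l 16770888))) (b (c (l 16773496) (l 16773104)) (c (l 16769304) (l 16768920))))) (b (a (a (b (b (a (l 16773336) (l 16772808)) (l 16772192)) (b (l 16771320) (l 16770480))) (b (c (l 16773224) (l 16772696)) (b (l 16770400) (l 16769624)))) (a (b (c (b (l 16771544) (l 16775992)) (b (l 16770864) (l 16770016))) (c (l 16774816) (l 16768904))) (b (b (c (c (l 16770976) (l 16770568)) (l 16769984)) (l 16774808)) (l 16773600)))) (a (b (a (l 16774560) (l 16768536)) (l 16767528)) (b (l 16767248) (l 16776192))))), by decide +kernel⟩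

def k59_pm_012_s : ∃ t, chk3 f_pm_012_s t 166 10 1 = true :=
  ⟨(b (a (l 3) (b (l 2) (b (l 2) (a (a (l 3) (a (l 116131892231) (l 87140863463))) (a (c (l 16777000) (l 16776960)) (c (l 16776672) (l 16776568))))))) (a (a (a (b (l 3) (b (b (c (l 16778472) (l 16778400)) (c (l 16777024) (l 16776984))) (c (b (l 16776480) (l 16775928)) (b (l 16776376) (l 16775752))))) (b (b (l 3) (b (l 3) (l 115595021351))) (b (b (a (l 16777152) (l 16776880)) (l 16777776)) (c (l 16777032) (b (l 16775816) (l 16775208)))))) (a (b (b (l 3) (b (l 109689441175) (l 16778320))) (b (b (l 16776496) (l 16776608)) (b (l 16775400) (l 16774832)))) (b (b (c (l 126332439575) (l 122037472471)) (c (l 16778104) (l 16778032))) (b (c (l 16777152) (l 16778280)) (c (l 16774800) (l 16774496)))))) (a (b (c (a (b (l 16778448) (l 16776368)) (b (l 16776752) (l 16775984))) (a (b (l 16778760) (l 16776240)) (b (l 16776664) (l 16775800)))) (b (c (b (l 16775472) (l 16774960)) (b (l 16775240) (l 16774680))) (b (b (l 16774088) (l 16773648)) (a (l 16773928)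 (l 16778752))))) (a (b (c (b (l 16776392) (l 16775608)) (b (l 16776248) (l 16775376))) (b (c (l 16774648) (l 16774328)) (b (l 16773664) (l 16773104)))) (b (b (c (l 16776048) (l 16775856)) (c (l 16775248) (l 16774976))) (b (b (l 16774360) (l 16773816)) (c (l 16777088) (l 16777992)))))))), by decide +kernel⟩

def k60_pm_012_s : ∃ t, chk3 f_pm_012_s t 332 22 1 = true :=
  ⟨(b (a (a (b (c (b (l 16775368) (l 16774800)) (b (l 16775104) (l 16774448))) (c (b (l 16773400) (l 16773632)) (b (l 16773784) (l 16773096)))) (b (b (l 16774744) (a (l 16774280) (l 16774024))) (c (b (l 16773792) (l 16773216)) (b (l 16770664) (l 16775240))))) (b (c (b (l 16774216) (l 16776288)) (b (l 16773824) (l 16775824))) (c (b (c (l 16773248) (l 16772968)) (c (l 16775312) (l 16774984))) (b (l 16775176) (c (l 16774672) (l 16774368)))))) (b (c (a (a (b (c (l 16773184) (l 16772864)) (l 16772400)) (b (l 16772624) (c (l 16772200) (l 16771800)))) (a (b (b (l 16772312) (l 16772000)) (b (l 16771648) (l 16771256))) (b (l 16774232) (l 16770800))))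 (a (a (c (b (l 16772544) (l 16771848)) (b (l 16772232) (l 16771488))) (b (l 16774544) (c (l 16771400) (l 16771016)))) (a (b (l 16774064) (a (l 16770848) (l 16770584))) (b (l 16773576) (l 16770192))))) (b (c (a (c (a (l 16771952) (l 16771480)) (a (l 16771536) (l 16771064))) (c (l 16770440) (l 16770120))) (a (a (b (l 16771112) (l 16770736)) (b (l 16770656) (l 16770272))) (c (l 16769816) (l 16769528)))) (a (b (a (a (l 16770872) (l 16770664)) (l 16770248)) (c (l 16773104) (l 16774960))) (c (l 16769416) (l 16768872)))))), by decide +kernel⟩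

def k61_pm_012_s : ∃ t, chk3 f_pm_012_s t 333 22 1 = true :=
  ⟨(a (b (a (b (c (l 16777240) (l 16772832)) (c (b (l 16772448) (l 16771768)) (c (l 16774280) (l 16774008)))) (b (b (l 16778184) (c (l 16772600) (l 16772080))) (b (a (l 16771792) (l 16771504)) (l 16773504)))) (b (c (b (l 16770640) (c (l 16769920) (l 16769696))) (b (l 16771472) (c (l 16769480) (l 16769280)))) (c (b (c (l 16769056) (l 16768864)) (l 16768096)) (b (c (l 16768672) (l 16768496)) (l 16767776))))) (b (b (c (b (l 16776368) (l 16774344)) (b (l 16777256) (l 16773928))) (a (b (l 16771056) (l 16770280)) (c (l 16771520) (l 16771224)))) (a (b (b (l 16770792) (a (l 16768832) (l 16768520))) (b (c (l 16767968) (l 16767736)) (l 16769632))) (b (b (l 16768864) (a (l 16768208) (l 16767888))) (b (a (l 16770000) (l 16769680)) (l 16769000)))))), by decide +kernel⟩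

def k62_pm_012_s : ∃ t, chk3 f_pm_012_s t 166 23 1 = true :=
  ⟨(b (a (a (b (b (c (l 16775064) (l 16774352)) (l 16773856)) (c (l 16772872) (l 16772352))) (b (b (a (l 16768592) (l 16767992)) (l 16772680)) (l 16772080))) (a (b (b (a (l 16767392) (l 16766776)) (l 16766232)) (c (l 16765048) (l 16764880))) (b (b (a (l 16766160) (l 16765520)) (l 16764976)) (l 16770264)))) (a (a (b (l 16776208) (l 16764088)) (b (l 16764528) (l 16762896))) (b (a (l 16763312) (l 16762048)) (l 16761024)))), by decide +kernel⟩

def k63_pm_012_s : ∃ t, chk3 f_pm_012_s t 167 20 1 = true :=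
  ⟨(b (l 2) (b (l 2) (a (a (a (a (l 16776368) (l 16776200)) (c (l 16776032) (l 16775856))) (b (l 2) (a (l 16775448) (l 7616847991)))) (b (l 2) (a (a (a (l 16774704) (a (l 16774488) (c (l 16769304) (l 16768800)))) (l 16774064)) (l 16773584)))))), by decide +kernel⟩

def k64_pm_012_s : ∃ t, chk3 f_pm_012_s t 167 21 1 = true :=
  ⟨(a (a (a (b (b (c (l 16775712) (l 16775480)) (b (l 16774976) (l 16774496))) (b (b (l 16773976) (l 16778648)) (c (l 16775240) (l 16777496)))) (b (b (b (l 16772816) (l 16775048)) (b (l 16774600) (a (l 16774216) (l 16774008)))) (b (c (b (l 16773712) (l 16773064)) (b (l 16773360) (l 16772712))) (c (b (l 16772352) (l 16771608)) (l 16768400))))) (a (b (b (b (l 16775080) (l 16772040)) (c (l 16779312) (l 16778984))) (b (c (l 16775416) (l 16777720)) (c (l 16771360) (l 16771080)))) (b (b (c (c (l 16772032) (l 16771880)) (b (l 16774512) (l 16774032))) (c (b (l 16773816) (l 16773224)) (l 16770560))) (b (c (b (l 16772568) (l 16771880)) (b (l 16772216) (l 16771528))) (c (b (l 16771176) (l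 16770456)) (b (l 16770824) (l 16770096))))))) (a (a (a (b (b (c (l 16774200) (l 16773840)) (c (l 16773144) (l 16772704))) (b (c (l 16777104) (l 16776608)) (c (l 16775720) (l 16775176)))) (a (b (b (c (l 16774024) (l 16773552)) (c (l 16772968) (l 16772392))) (b (b (l 16776952) (l 16776256)) (c (l 16770344) (l 16774824)))) (b (b (c (b (l 16768880) (l 16768408)) (l 16771968)) (c (b (l 16769192) (l 16768280)) (b (l 16767160) (l 16766512)))) (b (c (c (c (l 16777136) (l 16776920)) (l 16776600)) (b (l 16765816) (l 16766400))) (c (c (c (l 16775840) (l 16770344)) (l 16775208)) (b (l 16774840) (l 16774088))))))) (b (b (b (l 16773600) (l 16773080)) (c (l 16772600) (l 16771800))) (b (c (l 16771328) (l 16770408)) (c (l 16769960) (l 16768920))))) (b (b (l 16772856) (l 16776968)) (b (c (l 16770840) (l 16769936)) (c (l 16769480) (l 16768456)))))), by decide +kernel⟩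

def k65_pm_012_s : ∃ t, chk3 f_pm_012_s t 334 22 1 = true :=
  ⟨(a (a (b (b (c (l 16771128) (l 16770832)) (c (l 16769536) (l 16771936))) (b (b (l 16768224) (a (l 16767568) (l 16767240))) (b (c (l 16766624) (l 16766504)) (l 16768344)))) (b (b (c (b (l 16770840) (l 16770056)) (b (l 16770592) (l 16769840))) (c (b (l 16769256) (l 16768440)) (b (l 16769072) (l 16768280)))) (b (c (b (l 16767616) (l 16766776)) (b (l 16767480) (l 16766656))) (c (b (l 16765936) (l 16765080)) (b (l 16765824) (l 16764968)))))) (a (b (b (c (l 16772464) (l 16774848)) (c (l 16770880) (l 16770672))) (b (c (l 16769264) (l 16768728)) (b (c (l 16765400) (l 16765176)) (l 16769680)))) (b (b (c (b (l 16769720) (l 16768968)) (b (l 16769352) (l 16768592))) (c (b (l 16768200) (l 16767424)) (b (l 16767808) (l 16767016)))) (b (c (b (l 16766640) (l 16765848)) (b (l 16766200) (l 16765376))) (c (b (l 16765040) (l 16764224)) (b (l 16764536) (l 16763672))))))), by decide +kernel⟩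

def k66_pm_012_s : ∃ t, chk3 f_pm_012_s t 335 22 1 = true :=
  ⟨(a (a (a (b (b (b (l 16774344) (l 16773592)) (b (l 16772832) (l 16772056))) (b (b (l 16771264) (l 16770456)) (b (a (l 16764472) (l 16764336)) (l 16763568)))) (a (b (b (b (l 16774112) (l 16773360)) (c (l 16767472) (l 16766488))) (b (c (l 16765968) (l 16764856)) (b (c (l 16764808) (l 16763592)) (l 16768608)))) (b (b (c (c (c (l 16774488) (l 16768960)) (l 16768528)) (b (l 16765448) (l 16762040))) (c (c (c (l 16773096) (l 16767520)) (l 16762448)) (c (l 16763120) (c (l 16760688) (l 16761688))))) (a (a (b (c (l 16765968) (l 16764616)) (c (l 16767056) (a (l 16768208) (l 16768128)))) (b (c (b (l 16766264) (l 16765504)) (b (l 16764816) (l 16763976))) (c (b (l 16764736) (l 16763960)) (b (l 16768368) (l 16762264))))) (b (c (l 16765752) (l 16764280)) (c (l 16766824) (l 16767816))))))) (b (b (c (l 16768552) (l 16767376)) (c (l 16767080) (l 16765768))) (b (c (l 16765568) (l 16764104)) (c (l 16766640) (l 16767632))))) (b (b (c (l 16768064) (l 16766912))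 (c (l 16766600) (l 16765304))) (b (c (l 16765080) (l 16763632)) (c (l 16766128) (l 16767144))))), by decide +kernel⟩

def k67_pm_012_s : ∃ t, chk3 f_pm_012_s t 167 23 1 = true :=
  ⟨(b (b (b (a (a (a (l 16764856) (l 16769400)) (a (l 16763576) (l 16768336))) (a (a (a (l 16762728) (a (l 16758592) (a (a (l 16762416) (a (a (a (l 16762376) (a (l 16762368) (b (l 16762464) (c (l 16767400) (l 16761144))))) (l 16762152)) (l 16762144))) (l 16762120)))) (l 16761928)) (l 16761416))) (a (a (a (l 16763992) (l 16763296)) (a (l 16762712) (l 16762240))) (a (a (a (l 16761888) (a (l 16761680) (a (a (l 16766824) (a (a (a (l 16761544) (a (l 16761528) (c (c (l 16768080) (l 16761880)) (l 16765752)))) (l 16761312)) (l 16761304))) (l 16761280)))) (l 16761088)) (l 16760568)))) (a (a (c (l 16767640) (l 16767536)) (a (l 16761440) (c (l 16761352) (l 16760632)))) (a (a (c (a (l 16761240) (a (l 16766480) (a (a (l 16761232) (b (c (l 16767240) (l 16761048)) (l 16771168))) (l 16760944)))) (a (l 16760072) (a (b (l 16760120) (l 16759296))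 (a (a (l 16769984) (l 16767152)) (l 16759184))))) (l 16759840)) (l 16769792)))) (a (a (b (l 16771160) (l 16753784)) (a (b (l 16759768) (l 16758136)) (b (l 16767224) (l 16765656)))) (a (a (a (b (b (l 16769912) (l 16753408)) (l 16757552)) (a (b (l 16769360) (l 16757336)) (a (a (b (l 16758736) (l 16757152)) (b (l 16769032) (l 16756952))) (l 16757624)))) (l 16767904)) (l 16758152)))), by decide +kernel⟩

def k68_pm_012_s : ∃ t, chk3 f_pm_012_s t 21 2 1 = true :=
  ⟨(b (l 2) (b (b (a (b (l 2) (a (b (l 2) (b (l 2) (l 16775896))) (l 2))) (l 2)) (a (b (a (b (b (l 16775392) (l 16774848)) (b (l 16774256) (l 16773608))) (b (l 16764680) (l 16763320))) (b (a (a (b (l 16769048) (l 16768344)) (l 16765920)) (l 16772280)) (a (a (b (l 16767632) (l 16766920)) (l 16764472)) (l 16770712)))) (b (b (l 2) (l 16776696)) (b (l 16774880) (l 16770424))))) (b (a (b (a (b (a (a (l 16771736) (l 16765120)) (l 16763000)) (c (l 16768784) (l 16764864))) (b (l 16769192) (l 16767624))) (a (b (a (c (l 16763376) (l 16761952)) (l 16759824))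 (b (c (l 16766024) (l 16764464)) (c (l 16765192) (l 16768800)))) (b (l 16755496) (l 16764224)))) (b (a (c (l 16774160) (l 16772320)) (l 16767680)) (b (a (l 16749688) (l 16744008)) (a (l 16747904) (l 16742144))))) (b (a (a (b (b (a (l 16770152) (l 16756768)) (c (l 16768728) (l 16766952))) (c (l 16767392) (l 16755136))) (b (a (l 16763856) (l 16750416)) (c (l 16751016) (l 16749032)))) (b (l 16764048) (c (l 16763312) (l 16760856)))) (a (a (b (l 16754248) (l 16752520)) (a (l 16769696) (l 16766600))) (b (a (l 16742032) (l 16736088)) (l 16757944))))))), by decide +kernel⟩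

def k69_pm_012_s : ∃ t, chk3 f_pm_012_s t 11 2 1 = true :=
  ⟨(b (l 2) (b (a (b (l 2) (b (l 2) (a (b (l 2) (l 16742152)) (l 2)))) (l 2)) (b (a (b (a (a (l 16741472) (l 16736512)) (l 16729672)) (a (b (l 16735856) (l 16733824)) (l 16745720))) (b (l 2) (a (l 16715872) (l 2)))) (a (b (a (a (l 16754424) (l 16727936)) (l 16741008)) (a (c (l 16748840) (l 16745768)) (b (l 16716568) (l 16714112)))) (b (a (l 16710352) (l 16701912)) (a (l 16705208) (l 16696056))))))), by decide +kernel⟩

def k70_pm_012_s : ∃ t, chk3 f_pm_012_s t 40 24 1 = true :=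
  ⟨(a (a (b (l 3) (b (l 3) (a (l 3) (b (l 190756950103) (l 16779384))))) (b (a (l 3) (b (l 3) (a (l 253570848599) (l 143512310055)))) (b (a (b (l 215989881719) (l 120426861639)) (a (l 34527518871) (l 16775104))) (a (b (l 16775888) (l 16774520)) (c (l 16772832) (l 16773088)))))) (b (a (b (a (b (l 250886491591) (l 129016795831)) (c (l 16778264) (l 16780960))) (a (c (l 16780920) (l 16775792)) (l 16773600))) (b (a (l 16778680) (l 16771176)) (a (l 16771376) (l 16772056)))) (a (b (a (l 16773544) (l 16771392)) (a (l 16770864) (b (l 16769512) (l 16768256)))) (b (a (b (l 16769864) (l 16768960)) (l 16770560)) (a (l 16767432) (l 16765968)))))), by decide +kernel⟩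

def k71_pm_012_s : ∃ t, chk3 f_pm_012_s t 40 25 1 = true :=
  ⟨(a (b (a (b (c (a (b (l 16779896) (l 16776224)) (l 16774560)) (a (b (l 161229049895) (l 16776272)) (b (l 16775416) (l 16773888)))) (c (b (l 16773312) (l 16771512)) (b (a (l 16774680) (l 16772224)) (l 16774312)))) (b (c (a (l 16772064) (l 16769560)) (a (l 16774928) (b (l 16770768) (l 16769040)))) (a (c (b (l 16769416) (l 16767520)) (b (l 16769728) (l 16767872))) (c (b (l 16766984) (l 16765424)) (b (c (l 16767280) (l 16767376)) (l 16765640)))))) (a (b (c (a (l 16769928) (b (l 16768256) (l 16766296))) (b (l 16772424) (a (l 16769112) (l 16766528)))) (c (a (b (l 16766808) (l 16764768)) (l 16763496)) (a (b (l 16767032) (a (l 16765544) (l 16764280))) (b (l 16764520) (l 16762504))))) (b (a (c (b (l 16765760) (l 16764072)) (b (l 16766024) (l 16764168))) (c (l 16763088) (b (l 16763912) (l 16762000)))) (a (b (l 16762312) (l 16760312)) (c (l 16759352) (b (l 16759936) (l 16757744))))))) (b (a (b (c (a (l 16767784) (l 16766360)) (a (b (l 16768640) (l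 16767104)) (l 16766192))) (c (b (l 16764920) (l 16763312)) (b (a (l 16765544) (l 16763736)) (l 16762872)))) (b (c (l 16764104) (c (l 16784696) (l 16773904))) (c (l 16771192) (b (l 16760856) (l 16758864))))) (b (a (c (b (l 16761536) (l 16759608)) (c (l 16770584) (l 16759680))) (c (l 16767224) (b (l 16756728) (l 16754456)))) (b (a (c (l 16757544) (l 16756600)) (c (l 16753424) (l 16752064))) (a (a (l 16755952) (l 16753752)) (c (l 16751088) (l 16760064))))))), by decide +kernel⟩

def k72_pm_012_s : ∃ t, chk3 f_pm_012_s t 40 26 1 = true :=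
  ⟨(a (b (a (b (a (b (l 16762960) (l 16761104)) (b (l 16760640) (l 16758728))) (c (c (l 16767728) (l 16767648)) (c (l 16767464) (l 16761936)))) (a (b (b (l 16758288) (l 16756328)) (b (l 16754384) (l 16752440))) (b (b (l 16755992) (l 16753952)) (c (l 16751424) (l 16750416))))) (a (b (c (l 16758648) (b (l 16753848) (l 16751808))) (c (l 16749456) (b (l 16749728) (l 16747608)))) (c (b (a (l 16749856) (l 16747512)) (a (l 16745864) (l 16753968))) (b (a (l 16748944) (l 16746352)) (a (l 16744760) (b (l 16743224) (l 16746328))))))) (b (a (b (c (a (l 16753224) (l 16751032)) (b (l 16751960) (l 16749744))) (c (a (l 16749176) (l 16746856)) (a (l 16747864) (l 16745296)))) (b (a (c (l 16748784) (l 16749784)) (b (l 16746824) (l 16744488))) (a (b (l 16744712) (c (l 16743416) (l 16741664))) (b (l 16747496) (l 16740088))))) (a (b (a (c (l 16745176) (l 16743768)) (b (l 16743056) (a (l 16741632) (l 16740360)))) (b (a (c (l 16742112) (l 16745864)) (l 16738904)) (a (c (l 16740024) (l 16738472)) (l 16736800)))) (b (b (a (c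 (l 16741352) (l 16739576)) (l 16738008)) (c (l 16738096) (l 16736192))) (c (l 16734984) (b (l 16734088) (l 16731952))))))), by decide +kernel⟩

def k73_pm_012_s : ∃ t, chk3 f_pm_012_s t 80 27 1 = true :=
  ⟨(b (b (a (c (b (l 16746408) (l 16744328)) (b (l 16745448) (a (l 16744560) (l 16741944)))) (c (a (b (l 16742784) (l 16740680)) (b (l 16740352) (l 16738240))) (a (b (l 16741528) (a (l 16739984) (l 16738672))) (b (a (l 16739568) (l 16738264)) (l 16736712))))) (b (a (c (a (l 16743384) (l 16740944)) (a (l 16742280) (c (l 16740032) (a (l 16739920) (l 16738592))))) (c (l 16737264) (a (l 16737040) (l 16734432)))) (a (c (a (c (l 16741312) (l 16740808)) (l 16738616)) (a (c (l 16740176) (a (l 16742704) (b (l 16739400) (l 16738104)))) (l 16737192))) (c (l 16734928) (a (l 16734576) (l 16731968)))))) (b (c (a (c (b (l 16737656) (l 16735072)) (b (l 16737032) (l 16734352))) (c (b (l 16732808) (l 16730200)) (l 16730712))) (a (b (a (a (l 16737824) (l 16736512)) (l 16734552)) (b (a (l 16735064) (l 16732448)) (c (l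 16732792) (a (l 16733112) (l 16730464))))) (b (c (l 16731136) (a (l 16731424) (l 16728776))) (b (a (l 16729840) (l 16727240)) (c (l 16727648) (a (l 16727824) (l 16725192))))))) (c (a (c (b (l 16732336) (l 16729448)) (b (l 16731512) (l 16728512))) (c (b (l 16727456) (l 16724576)) (l 16725032))) (a (b (c (l 16730568) (a (l 16730816) (c (l 16728456) (l 16727872)))) (c (l 16727456) (a (l 16727592) (l 16724968)))) (c (b (l 16725432) (l 16722344)) (b (c (l 16724536) (a (l 16725216) (l 16722576))) (a (l 16722336) (l 16719728)))))))), by decide +kernel⟩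

def k74_pm_012_s : ∃ t, chk3 f_pm_012_s t 81 27 1 = true :=
  ⟨(b (c (b (a (b (l 16736712) (l 16734576)) (b (l 16731816) (l 16729672))) (a (c (l 16731608) (l 16730792)) (c (l 16726752) (l 16725800)))) (b (a (b (l 16735000) (c (l 16733296) (l 16732272))) (b (l 16729784) (c (l 16728160) (l 16726984)))) (a (a (b (l 16731824) (l 16729368)) (b (l 16729216) (l 16726768))) (a (b (l 16726616) (l 16724176)) (b (l 16724024) (l 16721584)))))) (c (b (c (a (b (l 16727960) (l 16725344)) (b (l 16723080) (l 16720464))) (a (l 16725720) (l 16720728))) (a (c (l 16721160) (l 16720048)) (c (l 16716272) (l 16715072)))) (b (a (b (a (l 16726736) (l 16724136)) (a (b (l 16724648) (l 16721896)) (b (l 16722056) (l 16720616)))) (b (a (l 16721552) (l 16718968)) (c (l 16718144) (a (c (l 16718424) (l 16717720)) (l 16715480))))) (a (c (b (l 16720328) (l 16717256)) (b (a (l 16720288) (l 16717688)) (a (l 16717120) (l 16714528)))) (b (c (l 16715240) (a (l 16715088) (l 16712504))) (a (l 16712712) (l 16710168))))))), by decide +kernel⟩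

def k75_pm_012_s : ∃ t, chk3 f_pm_012_s t 82 12 1 = true :=
  ⟨(b (a (b (a (b (c (l 16769408) (l 16769184)) (l 16770536)) (b (l 16767760) (l 16766440))) (b (a (l 16766552) (l 16764872)) (c (l 16763624) (l 16763232)))) (b (a (b (l 16766120) (l 16775136)) (b (l 16774648) (l 16752104))) (b (l 16761928) (a (l 16760600) (l 16779392))))) (b (a (b (c (l 16781504) (a (l 16760792) (l 16758888))) (c (l 16767304) (c (l 16766584) (l 16755536)))) (b (a (c (l 16757536) (l 16756896)) (c (l 16755272) (l 16754792))) (c (a (l 16753664) (b (l 16752408) (l 16750368))) (a (l 16752696) (b (l 16751640) (l 16749384)))))) (a (b (c (l 16763040) (a (l 16752344) (l 16750168))) (c (a (l 16748920) (l 16746688)) (a (l 16747344) (b (l 16746376) (l 16743736))))) (b (a (c (l 16749280) (b (l 16749192) (l 16746712))) (c (l 16747128) (l 16745784))) (c (a (l 16744504) (l 16742368)) (a (l 16748024) (l 16740544))))))), by decide +kernel⟩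

def k76_pm_012_s : ∃ t, chk3 f_pm_012_s t 82 13 1 = true :=
  ⟨(b (b (a (b (a (b (c (l 16745288) (l 16743520)) (c (l 16742968) (l 16741088))) (c (l 16741872) (l 16739904))) (a (c (l 16739664) (l 16737632)) (c (l 16737360) (l 16735144)))) (b (c (a (l 16739664) (l 16737424)) (a (l 16737552) (l 16735192))) (a (c (l 16735048) (l 16732680)) (c (l 16732704) (l 16730216))))) (a (b (c (a (l 16735464) (l 16733064)) (a (l 16733312) (l 16730736))) (c (a (l 16731304) (l 16728864)) (a (l 16729104) (l 16726496)))) (b (a (c (l 16730672) (l 16728184)) (c (l 16728208) (l 16725592))) (a (b (l 16726264) (l 16724144)) (b (l 16723704) (a (l 16722216) (l 16720920))))))) (b (a (c (b (a (l 16727064) (l 16724608)) (c (a (l 16723080) (l 16720640)) (l 16720792))) (b (a (b (l 16725872) (l 16723688)) (b (l 16723272) (l 16721088))) (a (b (l 16721424) (l 16718992)) (c (l 16718304) (l 16716936))))) (c (b (a (l 16722128) (c (l 16720184) (l 16718992))) (c (a (l 16718176) (l 16715664)) (l 16726224))) (b (a (b (l 16720664) (l 16718488))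 (b (l 16718040) (l 16715872))) (a (c (l 16715736) (l 16714328)) (c (l 16713144) (l 16711704)))))) (a (c (b (c (b (l 16718176) (l 16715544)) (a (l 16716976) (l 16714472))) (c (a (l 16712584) (l 16710128)) (a (l 16711328) (l 16708840)))) (b (b (a (l 16716392) (l 16713816)) (c (l 16713048) (a (l 16712888) (l 16710304)))) (a (c (l 16709936) (b (l 16709928) (l 16706816))) (b (l 16708144) (l 16705088))))) (c (b (c (b (l 16713208) (l 16710576)) (a (l 16711952) (l 16709400))) (c (l 16706384) (l 16715544))) (b (a (b (l 16711232) (l 16708496)) (b (l 16708648) (l 16705920))) (a (b (l 16705600) (l 16702560)) (b (l 16703048) (l 16700032)))))))), by decide +kernel⟩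

def k77_pm_012_s : ∃ t, chk3 f_pm_012_s t 166 12 1 = true :=
  ⟨(b (b (a (a (l 16762952) (l 16760456)) (b (l 16759408) (l 16757816))) (a (b (l 16758440) (l 16754760)) (b (c (l 16756088) (l 16756152)) (c (l 16764560) (l 16764376))))) (b (a (b (c (a (l 16753464) (l 16752552)) (a (l 16753112) (l 16752112))) (c (l 16759848) (b (l 16749536) (l 16747312)))) (b (c (l 16751312) (l 16750664)) (c (l 16747632) (l 16746456)))) (a (b (c (l 16745120) (l 16743664)) (c (l 16740248) (b (l 16739696) (l 16736920)))) (b (c (l 16743224) (l 16741552)) (c (l 16738216) (b (l 16737504) (l 16734672))))))), by decide +kernel⟩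

def k78_pm_012_s : ∃ t, chk3 f_pm_012_s t 167 12 1 = true :=
  ⟨(b (a (b (c (a (b (l 16767952) (l 16766488)) (a (l 16756192) (l 16756096))) (a (l 16756672) (a (l 16755776) (l 16755304)))) (a (b (l 16754520) (l 16773480)) (a (l 16752752) (l 16754928)))) (a (a (a (b (l 16755344) (l 16751832)) (a (b (l 16755040) (l 16754064)) (b (b (c (l 16766712) (l 16754640)) (l 16753840)) (b (l 16752144) (l 16749912))))) (b (l 16754264) (l 16750616))) (b (l 16753648) (l 16749952)))) (a (b (c (a (b (l 16749888) (l 16746136)) (b (l 16749000) (l 16766128))) (b (a (l 16749056) (l 16768840)) (a (l 16744808) (l 16755400)))) (c (a (b (l 16741640) (l 16736560)) (b (l 16740584) (c (l 16736016) (l 16734824)))) (a (b (l 16739848) (l 16734312)) (b (l 16749096) (c (l 16733632) (l 16732440)))))) (a (a (a (b (b (l 16747640) (c (l 16744456) (l 16742712))) (b (c (l 16739824) (l 16737704)) (c (l 16734616) (l 16732120)))) (a (b (b (l 16747240) (c (l 16744112) (l 16742280))) (b (c (l 16739472) (l 16737288)) (c (l 16734248) (l 16731720))))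 (b (b (c (l 16747656) (c (l 16746376) (l 16735120))) (c (c (l 16744288) (l 16743256)) (c (l 16742280) (l 16741376)))) (b (c (l 16749608) (c (l 16737400) (l 16736328))) (c (c (l 16734592) (l 16733232)) (c (l 16731936) (l 16730704))))))) (b (b (l 16746440) (l 16747656)) (b (l 16737608) (l 16732224)))) (b (b (l 16745760) (c (l 16742736) (l 16740752))) (b (l 16736880) (l 16731456)))))), by decide +kernel⟩

def k79_pm_012_s : ∃ t, chk3 f_pm_012_s t 166 13 1 = true :=
  ⟨(b (b (b (a (c (l 16735192) (b (l 16734184) (l 16731544))) (c (l 16733040) (b (l 16731872) (l 16729184)))) (a (a (a (l 16730000) (l 16729400)) (l 16728528)) (a (l 16727344) (l 16726128)))) (a (b (c (a (l 16726360) (l 16725192)) (a (l 16723664) (l 16722400))) (c (a (l 16721984) (l 16720768)) (a (l 16719272) (l 16717960)))) (b (c (a (l 16724000) (l 16722776)) (a (l 16721128) (l 16719832))) (c (a (l 16719528) (l 16718256)) (a (l 16716648) (l 16715312)))))) (b (a (c (b (c (l 16717664) (l 16716416)) (c (l 16713120) (l 16711880))) (b (c (l 16715056)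 (l 16724088)) (a (l 16710472) (l 16709168)))) (c (b (c (l 16715176) (l 16713832)) (c (l 16710592) (l 16709280))) (b (a (l 16712352) (l 16711000)) (a (l 16707840) (l 16706496))))) (c (a (b (c (l 16708088) (l 16706824)) (c (l 16702568) (l 16701232))) (b (c (l 16705536) (l 16704216)) (c (l 16700008) (l 16698640)))) (b (a (c (l 16705440) (l 16714432)) (b (l 16703424) (l 16700728))) (a (b (l 16700488) (l 16697496)) (a (l 16697080) (l 16695792))))))), by decide +kernel⟩

def k80_pm_012_s : ∃ t, chk3 f_pm_012_s t 334 13 1 = true :=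
  ⟨(b (a (b (b (c (l 16731296) (l 16728672)) (c (l 16726272) (l 16723408))) (b (c (l 16721480) (l 16718496)) (c (l 16716912) (l 16713936)))) (a (b (b (c (l 16730400) (l 16727712)) (l 16723872)) (b (l 16718984) (c (l 16715856) (l 16712848)))) (b (b (c (l 16729784) (l 16727024)) (l 16723176)) (b (l 16718256) (c (l 16715120) (l 16712088)))))) (b (c (a (b (c (l 16713160) (l 16711760)) (l 16707896)) (b (c (l 16722208) (l 16710288)) (c (l 16707088) (l 16705728)))) (a (b (l 16709584) (l 16705120)) (a (b (l 16708512) (l 16704048)) (b (l 16707744) (l 16703288))))) (b (b (c (a (l 16704152) (c (l 16703320) (l 16701992))) (a (l 16701392) (a (l 16700336) (l 16699600)))) (c (a (l 16701496) (a (l 16700408) (c (l 16700320) (c (l 16699320) (l 16698656))))) (a (l 16698728) (a (l 16697688) (a (l 16697152) (b (l 16697448) (l 16696112))))))) (c (a (b (l 16698728) (c (l 16696560) (a (l 16695512) (l 16694832)))) (c (a (b (l 16698336) (l 16695576)) (b (l 16697664) (l 16695000))) (a (b (l 16696992) (l 16694176)) (b (c (l 16696640)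 (l 16695952)) (l 16693552))))) (a (b (l 16695928) (a (l 16693328) (b (l 16693416) (l 16691928)))) (a (b (a (l 16695088) (l 16694744)) (l 16692024)) (a (b (b (l 16695096) (l 16693704)) (l 16691536)) (l 16692656)))))))), by decide +kernel⟩

def k81_pm_012_s : ∃ t, chk3 f_pm_012_s t 335 26 1 = true :=
  ⟨(b (a (a (a (b (c (l 16729232) (l 16726424)) (l 16722576)) (a (b (c (l 16728848) (l 16726032)) (l 16722168)) (b (a (a (l 16727176) (b (l 16728392) (l 16725696))) (l 16726976)) (a (a (l 16721928) (l 16721784)) (l 16721736))))) (b (l 16726680) (l 16721424))) (b (l 16725880) (l 16720584))) (a (a (a (b (l 16717632) (c (l 16714480) (l 16711456))) (a (b (l 16717216) (c (l 16714048) (l 16711056))) (a (a (b (l 16716968) (c (l 16713784) (l 16710824))) (b (c (l 16718392) (l 16715328)) (c (c (l 16714456) (l 16712896)) (b (l 16711816) (l 16709568))))) (b (l 16716776) (l 16712088))))) (b (l 16716456) (l 16711752))) (b (l 16715584) (l 16710856)))), by decide +kernel⟩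

def k82_pm_012_s : ∃ t, chk3 f_pm_012_s t 1340 27 2 = true :=
  ⟨(a (b (b (l 16709976) (l 16705352)) (b (b (c (l 16702288) (l 16700960)) (c (l 16699752) (l 16698408))) (c (l 16695888) (l 16694448)))) (a (b (b (l 16709528) (c (l 16705600) (l 16704248))) (b (b (c (l 16701920) (c (l 16700920) (l 16700264))) (c (l 16699504) (l 16698128))) (c (l 16695632) (l 16694176)))) (a (a (b (b (l 16709256) (b (l 16705824) (c (l 16704120) (l 16702792)))) (b (c (l 16700592) (l 16699232)) (c (l 16695496) (l 16694040)))) (b (b (c (l 16709880) (l 16708416)) (b (c (l 16706408) (l 16705024)) (a (a (a (l 16703368) (a (l 16703344) (a (l 16703336) (c (l 16704072) (l 16702712))))) (l 16703448)) (l 16703432)))) (b (c (c (l 16700944) (b (l 16701424) (l 16699000))) (a (a (a (l 16699192) (b (l 16700408) (l 16703192))) (l 16699232)) (l 16699216))) (c (l 16695472) (c (b (l 16695696) (l 16692968)) (b (l 16694984) (l 16692232))))))) (b (b (l 16709120) (b (l 16705688) (l 16703384))) (b (c (l 16700608) (l 16699168)) (l 16694712)))))),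 by decide +kernel⟩

def k83_pm_012_s : ∃ t, chk3 f_pm_012_s t 1340 27 3 = true :=
  ⟨(b (b (a (l 16707104) (a (l 16706704) (a (a (l 16706472) (b (l 16707392) (l 16705256))) (l 16706264)))) (b (a (l 16703816) (a (l 16703424) (a (a (l 16703200) (c (l 16703704) (l 16702448))) (l 16703000)))) (a (l 16701472) (a (c (l 16701728) (l 16700464)) (a (a (b (l 16701472) (l 16700296)) (a (a (a (l 16700824) (a (l 16700808) (a (l 16700792) (l 16700792)))) (l 16700800)) (l 16700784))) (l 16700728)))))) (b (a (a (b (l 16699096) (b (l 16697160) (l 16695848))) (b (l 16698888) (l 16696328))) (a (b (a (l 16698720) (l 16698600)) (l 16696136)) (a (a (c (l 16697912) (l 16696648)) (a (a (a (l 16697232) (a (l 16697224) (b (l 16698448) (l 16695944)))) (l 16697216)) (l 16697200))) (l 16697152)))) (a (c (l 16693024) (l 16691616)) (a (c (l 16692752) (l 16691360)) (a (a (l 16691928) (a (a (a (l 16691896) (a (l 16691888) (a (l 16691888) (l 16697128)))) (l 16691880)) (l 16691864))) (l 16691816)))))), by decide +kernel⟩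

def k84_pm_012_s : ∃ t, chk3 f_pm_012_s t 1341 27 1 = true :=
  ⟨(b (b (c (l 16708784) (l 16705912)) (c (b (l 16705352) (l 16703040)) (b (l 16702640) (l 16700368)))) (c (b (c (l 16700272) (l 16698824)) (l 16694368)) (b (l 16696792) (l 16691456)))), by decide +kernel⟩

def k85_pm_012_s : ∃ t, chk3 f_pm_012_s t 671 27 1 = true :=
  ⟨(b (b (c (l 16707888) (l 16704960)) (c (b (l 16704448) (l 16702128)) (b (l 16701680) (l 16699408)))) (c (b (c (l 16699368) (l 16697896)) (l 16693456)) (b (l 16695832) (l 16690496)))), by decide +kernel⟩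

def k86_pm_012_s : ∃ t, chk3 f_pm_012_s t 21 12 1 = true :=
  ⟨(b (b (a (b (a (l 16750808) (l 16744376)) (l 16766752)) (b (l 16755880) (l 16753792))) (a (b (l 16764824) (l 16762344)) (b (l 16751528) (l 16727696)))) (a (a (b (b (l 16762648) (c (l 16738576) (l 16736584))) (b (c (l 16733832) (l 16731472)) (c (l 16728376) (l 16725600)))) (b (b (l 16734512) (l 16751264)) (b (l 16746152) (c (l 16720760) (l 16717888))))) (b (b (l 16744992) (c (l 16720544) (l 16718608))) (b (l 16735312) (a (l 16711888) (l 16704656)))))), by decide +kernel⟩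

def k87_pm_012_s : ∃ t, chk3 f_pm_012_s t 21 13 1 = true :=
  ⟨(b (b (a (b (a (c (l 16722752) (l 16719640)) (l 16734088)) (a (c (l 16717352) (l 16714024)) (l 16707240))) (b (a (l 16705488) (l 16698080)) (a (l 16699216) (l 16691600)))) (a (b (a (c (l 16712192) (l 16708768)) (c (l 16703576) (l 16699760))) (c (a (l 16707248) (l 16698320)) (a (b (l 16705056) (l 16702680)) (l 16694464)))) (b (a (l 16693280) (l 16685288)) (a (c (l 16689752) (l 16685528)) (l 16679312))))) (b (a (b (c (a (b (l 16703704) (l 16701368)) (b (l 16694520) (l 16692056))) (a (b (l 16700424) (l 16698176)) (b (l 16690712) (l 16688320)))) (c (b (a (c (l 16699832) (l 16698240)) (l 16689624)) (a (c (l 16697464) (l 16695904)) (c (l 16688024) (l 16686232)))) (a (b (l 16695952) (b (l 16694240) (l 16693096))) (b (l 16686000) (b (l 16684168) (l 16682968)))))) (b (a (c (l 16684432) (l 16680216)) (c (l 16675904) (l 16671352))) (c (a (b (l 16680512) (l 16677864)) (l 16670376)) (a (b (l 16676384) (l 16673800)) (l 16665856))))) (a (b (c (a (c (l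 16704448) (b (l 16693584) (l 16691128))) (c (b (l 16685656) (l 16683232)) (l 16693112))) (a (b (l 16691320) (l 16688816)) (b (l 16681176) (l 16678688)))) (c (c (a (l 16688840) (l 16679336)) (a (l 16687168) (l 16677448))) (a (b (l 16686152) (l 16683336)) (l 16685128)))) (b (c (a (c (l 16685624) (l 16673096)) (b (l 16666240) (l 16663664))) (a (b (l 16671288) (l 16668688)) (b (l 16661720) (l 16659008)))) (c (a (c (l 16669968) (l 16667840)) (c (l 16660800) (l 16658456))) (a (b (l 16666008) (l 16663224)) (l 16665304))))))), by decide +kernel⟩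

def k88_pm_012_s : ∃ t, chk3 f_pm_012_s t 11 6 1 = true :=
  ⟨(b (b (a (b (a (a (l 16724632) (l 16718712)) (l 16710216)) (a (l 16758144) (l 16725104))) (b (a (l 16699648) (l 16690128)) (a (l 16692944) (l 16682720)))) (a (a (b (b (l 16710600) (l 16726760)) (b (l 16700232) (l 16693944))) (b (b (l 16697944) (l 16692688)) (b (l 16686720) (l 16680088)))) (b (b (a (l 16686144) (l 16675320)) (a (l 16680424) (l 16669112))) (a (b (l 16673984) (l 16666888)) (b (l 16662160) (l 16654544)))))) (b (a (b (a (b (l 16687264) (l 16704136)) (b (l 16673120) (l 16666232))) (a (b (a (l 16677680) (l 16670272)) (a (l 16671344) (l 16663736))) (b (l 16659424) (a (l 16656320) (l 16649048))))) (b (a (b (l 16659520) (l 16652296)) (l 16663776)) (a (b (l 16645200) (l 16638240)) (b (l 16631504) (l 16624184))))) (a (b (a (b (a (l 16665360) (l 16657416)) (a (c (l 16661888) (l 16657056)) (l 16656504))) (b (a (l 16649800) (l 16642360)) (a (l 16643328) (l 16635712)))) (a (b (c (b (a (l 16657488) (l 16649056)) (a (l 16654784) (l 16646208)))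 (b (a (l 16652624) (l 16643952)) (a (l 16649752) (l 16640904)))) (c (a (c (l 16651880) (l 16649336)) (c (l 16643256) (l 16640576))) (a (l 16645328) (l 16646768)))) (b (b (a (l 16638392) (l 16630528)) (a (c (l 16637872) (l 16632440)) (l 16627176))) (c (a (l 16633528) (l 16625360)) (a (l 16638120) (l 16619360)))))) (b (a (b (l 16631424) (a (l 16628248) (l 16620904))) (b (l 16617072) (l 16609976))) (a (b (b (l 16619200) (a (l 16619384) (l 16611816))) (a (c (l 16617384) (l 16611424)) (l 16606832))) (b (a (l 16606256) (l 16598904)) (a (l 16599208) (l 16591656)))))))), by decide +kernel⟩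

def k89_pm_012_s : ∃ t, chk3 f_pm_012_s t 40 56 1 = true :=
  ⟨(a (b (c (a (c (b (l 16726440) (l 16723320)) (b (l 16725392) (l 16722152))) (c (b (l 16721544) (l 16718416)) (b (l 16720392) (l 16717144)))) (a (b (c (l 16724216) (a (l 16724240) (l 16721600))) (a (l 16721488) (l 16718864))) (a (b (a (l 16720344) (l 16719056)) (l 16716272)) (b (l 16717128) (l 16713696))))) (c (a (c (b (l 16720128) (l 16716864)) (b (l 16718848) (l 16715472))) (c (b (l 16715176) (l 16711880)) (b (l 16713792) (l 16710384)))) (a (a (b (l 16718016) (l 16714488)) (b (l 16715368) (l 16711824))) (a (b (l 16712752) (l 16709184)) (b (l 16710168) (l 16706576)))))) (b (c (a (c (b (l 16716688) (l 16713544)) (b (l 16715432) (l 16712176))) (c (l 16710256) (l 16714120))) (a (a (b (l 16714568) (l 16711144)) (b (l 16712008) (l 16708608))) (a (b (l 16709472) (l 16706088)) (b (l 16706936) (l 16703576))))) (c (a (c (b (l 16710296) (l 16706968)) (b (l 16708824) (l 16705376))) (c (b (l 16705440) (l 16702104)) (b (l 16703896) (l 16700456))))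 (a (b (c (l 16707208) (l 16715936)) (l 16707968)) (b (a (l 16702568) (l 16700080)) (l 16697712)))))), by decide +kernel⟩

def k90_pm_012_s : ∃ t, chk3 f_pm_012_s t 40 57 1 = true :=
  ⟨(a (b (c (a (b (c (l 16713560) (l 16712072)) (c (l 16710336) (l 16708752))) (b (c (l 16708552) (l 16706952)) (c (l 16705296) (l 16703600)))) (a (b (l 16709600) (l 16706144)) (b (l 16704288) (l 16700800)))) (a (c (b (c (l 16707216) (l 16705568)) (c (l 16704208) (l 16702496))) (b (c (l 16703784) (l 16701872)) (l 16699688))) (c (b (c (l 16702152) (l 16700384)) (c (l 16699120) (l 16697296))) (b (l 16692232) (c (l 16695336) (l 16693232)))))) (b (c (a (b (c (l 16703608) (l 16701912)) (c (l 16700320) (l 16698536))) (b (c (l 16698720) (l 16696968)) (c (l 16695416) (l 16693568)))) (a (b (l 16699104) (l 16695584)) (b (l 16694056) (l 16685280)))) (a (c (b (c (l 16697160) (l 16695304)) (c (l 16694112) (l 16692200))) (b (l 16692240) (c (l 16690136) (l 16687928)))) (b (c (c (l 16692240) (l 16690320)) (c (l 16688256) (l 16686032)))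 (c (a (l 16689440) (b (l 16687744) (a (l 16686840) (c (l 16686592) (l 16684592))))) (a (l 16685208) (b (l 16683496) (l 16681912)))))))), by decide +kernel⟩

def k91_pm_012_s : ∃ t, chk3 f_pm_012_s t 40 58 1 = true :=
  ⟨(a (b (a (c (b (c (l 16701288) (l 16699544)) (c (l 16698464) (l 16696688))) (b (l 16696664) (l 16693776))) (c (b (c (l 16696192) (l 16694328)) (c (l 16693352) (l 16691464))) (b (l 16691264) (l 16688352)))) (a (b (c (l 16694848) (l 16690992)) (c (a (l 16693496) (l 16690872)) (l 16688304))) (b (a (l 16694248) (b (l 16687072) (a (l 16686352) (a (l 16685376) (l 16689952))))) (a (c (b (l 16688936) (l 16687600)) (b (l 16684880) (l 16683528))) (c (c (l 16686600) (l 16684640)) (l 16681432)))))) (b (a (b (c (c (l 16691168) (l 16689216)) (l 16686000)) (a (c (c (l 16689568) (l 16687600)) (l 16684376)) (c (b (c (a (l 16688400) (l 16687152)) (l 16685776)) (a (c (l 16686992) (l 16684992)) (l 16684728))) (b (l 16682488) (l 16683656))))) (b (a (c (b (l 16687200) (a (l 16686360) (b (l 16685480) (l 16684744))))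 (b (l 16682904) (a (l 16682040) (l 16680752)))) (c (b (a (c (l 16686336) (l 16684320)) (l 16684096)) (l 16683224)) (b (a (l 16681000) (l 16679712)) (l 16678784)))) (c (a (b (c (a (l 16685904) (l 16684648)) (l 16683232)) (l 16682808)) (c (l 16682040) (l 16679912))) (a (b (l 16679880) (l 16678344)) (l 16676448))))) (a (b (a (b (c (a (l 16687160) (l 16685880)) (l 16682248)) (a (l 16683704) (l 16682360))) (c (l 16683216) (l 16678800))) (c (a (l 16683000) (l 16680392)) (l 16677272))) (c (b (a (l 16680640) (l 16678096)) (a (l 16677808) (l 16675256))) (b (a (l 16676096) (l 16673432)) (a (l 16673184) (l 16670512))))))), by decide +kernel⟩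

def k92_pm_012_s : ∃ t, chk3 f_pm_012_s t 40 59 1 = true :=
  ⟨(a (b (a (b (c (a (b (l 16691544) (l 16690248)) (b (l 16688904) (l 16687544))) (a (l 16687088) (l 16684288))) (c (l 16686880) (l 16682992))) (c (b (a (l 16685536) (l 16682880)) (l 16681496)) (b (l 16680024) (l 16677288)))) (c (a (b (l 16684200) (l 16681504)) (b (l 16678808) (l 16676104))) (a (b (l 16680312) (l 16677624)) (b (l 16674592) (l 16671904))))) (a (b (c (b (a (l 16680232) (l 16677616)) (l 16676208)) (b (l 16674448) (l 16671704))) (c (b (l 16673512) (l 16670808)) (b (l 16669008) (l 16666312)))) (b (c (b (a (l 16675032) (l 16672472)) (a (l 16672304) (l 16669744))) (b (a (l 16670360) (l 16667680)) (a (l 16667608) (l 16664928)))) (a (c (l 16668248) (a (l 16664232) (l 16662880))) (b (l 16664688) (l 16659368)))))), by decide +kernel⟩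

def k93_pm_012_s : ∃ t, chk3 f_pm_012_s t 82 56 1 = true :=
  ⟨(a (b (c (c (l 16705360) (a (l 16705160) (l 16702688))) (a (b (l 16704416) (l 16701072)) (b (l 16701896) (l 16698576)))) (c (b (c (l 16700568) (l 16699000)) (c (l 16697248) (l 16695576))) (b (l 16696368) (l 16692784)))) (b (c (c (l 16700408) (l 16704192)) (a (l 16697752) (l 16695264))) (c (a (c (l 16695256) (l 16693624)) (b (l 16693640) (c (l 16691136) (b (l 16690328) (l 16688624))))) (a (l 16690920) (b (l 16690232) (a (l 16687336) (l 16686136))))))), by decide +kernel⟩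

def k94_pm_012_s : ∃ t, chk3 f_pm_012_s t 82 57 1 = true :=
  ⟨(a (b (c (b (c (l 16693872) (l 16692096)) (a (c (l 16691768) (l 16689904)) (c (l 16689344) (l 16687472)))) (a (b (l 16690368) (l 16686816)) (b (l 16687944) (c (l 16685456) (l 16683288))))) (b (a (c (c (b (l 16689368) (l 16687808)) (l 16686640)) (b (l 16684280) (a (l 16683248) (l 16682016)))) (c (b (a (l 16686608) (c (l 16686336) (l 16684408))) (a (c (l 16685984) (l 16684016)) (l 16683792))) (b (a (l 16682448) (c (l 16682328) (l 16680096))) (a (c (l 16681896) (l 16679632)) (l 16679512))))) (a (c (b (a (c (l 16686880) (l 16684896)) (c (l 16685656) (l 16683664))) (c (a (l 16685368) (l 16684136)) (l 16682720))) (b (a (l 16681632) (b (l 16680800) (l 16679968))) (l 16679384))) (c (c (l 16683056) (l 16680992)) (c (l 16678792) (l 16676440)))))) (b (a (b (c (c (l 16690240) (l 16688464)) (b (l 16686440) (l 16684640))) (c (a (b (l 16687448) (c (l 16686728) (l 16684832))) (b (c (l 16687144) (l 16685304)) (l 16684584))) (b (a (l 16683472) (c (l 16683320)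 (l 16681192))) (a (c (l 16682800) (l 16680616)) (l 16680488))))) (b (c (a (b (l 16688392) (c (l 16687584) (l 16685792))) (b (c (l 16688024) (l 16686296)) (l 16685496))) (a (b (l 16684648) (c (l 16683864) (l 16681800))) (b (c (l 16684432) (l 16682432)) (l 16681624)))) (c (c (l 16684536) (l 16682632)) (c (a (l 16681208) (l 16679984)) (l 16678432))))) (c (a (b (c (l 16683736) (l 16681744)) (c (l 16680624) (l 16678512))) (b (c (l 16681336) (l 16679304)) (c (l 16678216) (l 16676064)))) (a (b (c (l 16679608) (b (l 16678208) (l 16676464))) (c (l 16676272) (l 16673896))) (b (c (l 16677136) (a (l 16675464) (l 16674240))) (c (l 16673800) (l 16671416))))))), by decide +kernel⟩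

def k95_pm_012_s : ∃ t, chk3 f_pm_012_s t 82 29 1 = true :=
  ⟨(b (a (b (c (a (b (c (l 16682496) (l 16680392)) (c (l 16679552) (l 16677368))) (b (c (l 16680032) (l 16677872)) (c (l 16677080) (l 16674840)))) (a (b (l 16676960) (l 16673832)) (b (l 16674376) (l 16671240)))) (c (a (b (c (l 16676680) (l 16674432)) (l 16672728)) (b (l 16673056) (l 16670208))) (a (b (l 16670808) (l 16667880)) (b (l 16668216) (l 16665288))))) (b (c (a (b (c (l 16677592) (l 16675384)) (c (l 16674632) (l 16672344))) (b (c (l 16675176) (l 16672928)) (c (l 16672208) (l 16669888)))) (a (b (l 16671840) (l 16668696)) (b (l 16669360) (l 16666216)))) (c (a (b (l 16670584) (l 16667728)) (b (l 16668136) (l 16665288))) (a (b (l 16665664) (l 16662736)) (b (l 16663184) (l 16660256)))))) (b (a (c (a (b (l 16669944) (l 16667208)) (b (l 16667424) (l 16664696))) (a (b (l 16665048) (l 16662296)) (b (l 16662448) (l 16659696)))) (a (c (b (l 16664944) (l 16662216)) (b (l 16659904) (l 16657152))) (c (b (l 16662504) (l 16659776)) (b (l 16657424)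 (l 16654688))))) (b (a (c (a (l 16664512) (l 16662000)) (a (l 16659592) (l 16657000))) (a (c (l 16659520) (l 16654464)) (c (l 16657096) (l 16652008)))) (a (c (l 16660560) (a (l 16656912) (l 16654320))) (c (a (l 16656832) (l 16654416)) (a (l 16651800) (l 16649360))))))), by decide +kernel⟩

def k96_pm_012_s : ∃ t, chk3 f_pm_012_s t 332 14 1 = true :=
  ⟨(b (b (b (c (c (l 16696616) (l 16695168)) (b (l 16694376) (l 16691144))) (b (c (a (l 16691760) (c (l 16691288) (b (l 16690544) (l 16688912)))) (a (l 16688408) (b (l 16688032) (c (l 16687216) (l 16685408))))) (c (a (c (l 16689280) (b (l 16688480) (l 16686784))) (l 16687264)) (a (b (c (l 16686736) (l 16684856)) (l 16684032)) (l 16683680))))) (b (c (a (b (l 16685136) (l 16681800)) (b (l 16683928) (l 16680600))) (b (c (a (l 16682312) (l 16681072)) (l 16679656)) (c (a (l 16678768) (l 16677544)) (a (l 16676600) (l 16675376))))) (c (b (a (l 16678536) (l 16677328)) (a (l 16675352) (l 16674144))) (b (c (a (l 16675320) (l 16674096)) (a (l 16673032) (l 16671816)))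 (a (l 16670792) (l 16669568)))))) (a (b (b (c (b (l 16672256) (l 16669248)) (b (l 16667528) (l 16664384))) (c (b (l 16666328) (l 16663480)) (b (l 16661360) (l 16658440)))) (b (b (l 16658200) (a (l 16655768) (l 16655168))) (c (l 16653976) (b (l 16650224) (l 16647584))))) (b (b (c (b (l 16671048) (l 16668040)) (b (l 16666312) (l 16663168))) (c (l 16668920) (b (l 16660144) (l 16657232)))) (b (b (l 16656984) (l 16654264)) (b (l 16651608) (l 16648960)))))), by decide +kernel⟩

def k97_pm_012_s : ∃ t, chk3 f_pm_012_s t 333 14 1 = true :=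
  ⟨(a (b (b (b (c (b (l 16695544) (c (l 16693192) (l 16691696))) (b (l 16692496) (b (l 16690096) (c (l 16689296) (l 16687600))))) (c (b (c (l 16690080) (l 16688496)) (l 16686064)) (b (b (l 16686792) (l 16685072)) (l 16682432)))) (b (c (b (l 16682728) (l 16679400)) (b (c (l 16679840) (l 16677808)) (c (l 16676320) (l 16674168)))) (c (b (l 16676136) (l 16672944)) (b (c (l 16672880) (l 16670616)) (l 16668368))))) (b (b (c (b (l 16669840) (l 16666832)) (b (l 16665112) (l 16661976))) (c (b (l 16663912) (l 16661064)) (b (l 16658960) (l 16656056)))) (b (b (l 16655800) (l 16653088)) (b (l 16650440) (l 16647808))))) (b (b (b (c (b (c (l 16694952) (l 16693520)) (c (l 16691952) (a (l 16690752) (l 16690136)))) (b (c (l 16692016) (a (l 16690744) (l 16690120))) (c (l 16688856) (a (l 16687504) (l 16686880))))) (b (c (l 16688096) (l 16684688)) (c (l 16684864) (a (l 16681504) (l 16680888))))) (b (c (b (l 16681528) (l 16678208)) (b (c (l 16678616) (l 16676600)) (c (l 16675120) (l 16672984)))) (c (b (l 16674944) (l 16671752))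 (b (c (l 16671696) (l 16669456)) (l 16667200))))) (b (b (c (b (l 16668648) (l 16665640)) (b (l 16663944) (l 16660824))) (c (b (l 16662720) (l 16659888)) (b (l 16657816) (l 16654920)))) (b (b (l 16654648) (a (l 16652232) (l 16651672))) (b (l 16649320) (l 16646704)))))), by decide +kernel⟩

def k98_pm_012_s : ∃ t, chk3 f_pm_012_s t 668 14 1 = true :=
  ⟨(b (b (b (c (b (c (l 16693672) (a (l 16692544) (l 16691920))) (c (l 16690760) (l 16689200))) (b (a (b (l 16691056) (l 16689496)) (l 16689640)) (l 16686776))) (c (c (l 16686136) (b (l 16686040) (l 16682744))) (c (b (l 16684320) (l 16680912)) (b (l 16682552) (l 16679032))))) (b (c (b (l 16680320) (l 16677008)) (b (c (l 16677408) (a (l 16675704) (l 16675120))) (c (l 16673928) (a (l 16672112) (l 16671544))))) (c (b (l 16679000) (c (l 16671680) (l 16669464))) (b (c (l 16670528) (l 16668328)) (c (l 16667208) (l 16664928)))))) (b (b (c (b (c (l 16668616) (l 16666328)) (l 16669720)) (b (c (l 16664000) (l 16661656)) (c (l 16660920) (l 16658520)))) (c (b (l 16661560)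 (l 16658736)) (b (l 16656736) (l 16653856)))) (a (b (c (l 16654920) (l 16649992)) (c (l 16649640) (l 16644768))) (b (c (l 16654368) (l 16649504)) (c (l 16649112) (l 16644312)))))), by decide +kernel⟩

def k99_pm_012_s : ∃ t, chk3 f_pm_012_s t 669 14 1 = true :=
  ⟨(a (b (b (b (c (c (l 16691336) (l 16689792)) (c (l 16688224) (l 16686632))) (c (b (l 16685960) (l 16682728)) (c (b (l 16683384) (l 16679992)) (l 16679904)))) (b (c (b (l 16679408) (l 16676104)) (b (c (l 16676512) (l 16674552)) (c (l 16673048) (l 16670992)))) (c (b (l 16672864) (l 16669688)) (b (l 16668600) (l 16665256))))) (b (b (c (b (l 16666600) (l 16663608)) (b (l 16662032) (l 16658936))) (b (l 16663584) (l 16655504))) (b (c (l 16664312) (l 16649040)) (c (l 16648600) (l 16643888))))) (b (b (c (b (c (l 16690744) (l 16689168)) (b (l 16685344) (l 16682120))) (b (c (l 16687592) (l 16686008)) (c (b (l 16682768) (l 16679384)) (b (l 16681048) (l 16677568))))) (b (c (b (l 16678800) (l 16675504)) (b (c (l 16675920) (l 16674000)) (c (l 16672472)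 (l 16670456)))) (c (b (l 16672272) (l 16669104)) (b (l 16668064) (l 16664744))))) (a (b (b (c (l 16664656) (l 16660088)) (c (l 16658872) (l 16654176))) (b (c (l 16653432) (l 16648728)) (c (l 16648232) (l 16643616)))) (b (b (b (l 16663640) (l 16660616)) (c (l 16658600) (l 16653976))) (b (c (l 16653184) (l 16648552)) (c (l 16648008) (l 16643472))))))), by decide +kernel⟩

def k100_pm_012_s : ∃ t, chk3 f_pm_012_s t 670 56 1 = true :=
  ⟨(a (a (b (c (c (l 16690272) (l 16688680)) (c (l 16687104) (l 16685544))) (c (l 16683264) (c (b (l 16682304) (l 16678936)) (b (l 16680616) (l 16677160))))) (a (b (c (c (l 16690008) (l 16688408)) (c (l 16686848) (l 16685328))) (c (l 16683008) (c (b (l 16682072) (l 16678720)) (b (l 16680424) (l 16676984))))) (a (a (b (c (l 16689072) (c (l 16686736) (l 16685240))) (c (l 16682888) (c (l 16680312) (l 16678656)))) (c (b (b (c (l 16691296) (b (l 16690456) (l 16688984))) (l 16687528)) (b (c (l 16685304) (l 16683584)) (c (b (l 16682936) (l 16681320)) (l 16680336)))) (a (a (b (a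 (l 16685960) (a (l 16685952) (c (l 16686696) (l 16685224)))) (a (c (l 16680296) (l 16678656)) (b (c (l 16681944) (l 16680360)) (c (l 16678616) (c (l 16677360) (l 16676544)))))) (b (l 16685944) (c (l 16680280) (l 16678656)))) (b (l 16685928) (c (l 16680264) (l 16678640)))))) (b (c (l 16689000) (l 16685880)) (c (l 16682800) (c (l 16680216) (l 16678592))))))) (b (c (l 16688664) (l 16685520)) (c (l 16682464) (c (l 16679864) (l 16678232))))), by decide +kernel⟩

def k101_pm_012_s : ∃ t, chk3 f_pm_012_s t 670 57 1 = true :=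
  ⟨(c (a (a (b (b (l 16678336) (l 16675048)) (b (l 16671832) (l 16668672))) (a (b (b (l 16678088) (l 16674808)) (b (l 16671608) (l 16668464))) (a (a (b (l 16676368) (b (l 16671512) (l 16668376))) (a (a (a (b (l 16676336) (l 16669912)) (b (a (l 16676328) (b (l 16677944) (l 16674680))) (a (l 16669912) (a (l 16669904) (b (l 16671488) (l 16673600)))))) (b (l 16676336) (l 16669896))) (b (l 16676320) (l 16669888)))) (b (l 16676272) (l 16669840))))) (b (l 16675936) (l 16669504))) (a (a (b (b (c (l 16675488) (l 16673616)) (l 16671080)) (b (l 16667704) (l 16664408))) (a (b (b (c (l 16675288) (l 16673464)) (l 16670920)) (b (l 16667568) (l 16664288))) (a (a (b (b (l 16674312) (l 16670880)) (l 16665896)) (a (a (a (b (b (l 16674312) (l 16670888)) (l 16665904)) (b (b (a (l 16674312) (a (l 16674320) (l 16674320))) (l 16670896)) (a (l 16665920) (b (l 16667576) (l 16664328))))) (b (l 16672624) (l 16665920))) (b (l 16672608) (l 16665904)))) (b (l 16672560) (l 16665856))))) (b (b (l 16673888) (l 16670472)) (l 16665504)))),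 by decide +kernel⟩

def k102_pm_012_s : ∃ t, chk3 f_pm_012_s t 671 28 1 = true :=
  ⟨(b (b (c (l 16687752) (l 16684568)) (c (l 16681552) (c (l 16678928) (l 16677264)))) (b (c (l 16675032) (b (l 16672944) (l 16669528))) (c (l 16668608) (l 16664560)))), by decide +kernel⟩

def k103_pm_012_s : ∃ t, chk3 f_pm_012_s t 335 58 1 = true :=
  ⟨(c (b (a (a (a (b (l 16665600) (l 16662632)) (a (b (l 16665408) (l 16662448)) (a (a (b (l 16665328) (l 16662384)) (a (a (a (l 16663832) (a (l 16663832) (a (l 16663840) (b (c (l 16666384) (l 16664256)) (l 16662376))))) (l 16663816)) (l 16663800))) (l 16663752)))) (l 16663416)) (l 16662520)) (a (a (a (c (l 16659504) (l 16657208)) (a (a (l 16658208) (l 16658168)) (a (a (l 16658152) (a (a (a (l 16658152) (a (l 16658152) (a (l 16658160) (b (l 16659536) (l 16656792))))) (l 16658128)) (l 16658112))) (l 16658064)))) (l 16657728)) (l 16656824))) (a (c (a (b (a (l 16660768) (a (l 16660656) (a (a (l 16660648) (a (a (a (l 16660664) (a (l 16660680) (l 16660688))) (l 16660672)) (l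 16660656))) (l 16660608)))) (a (l 16654944) (a (l 16654872) (a (a (l 16654896) (a (a (a (l 16654928) (a (l 16654944) (l 16654960))) (l 16654944)) (l 16654928))) (l 16654880))))) (b (l 16660256) (l 16654520))) (a (a (b (l 16658584) (l 16652712)) (a (b (l 16658536) (l 16652704)) (a (a (b (l 16658576) (l 16652792)) (a (a (a (b (l 16658624) (l 16652848)) (a (b (l 16658640) (l 16652872)) (b (l 16658672) (l 16652912)))) (b (l 16658664) (l 16652912))) (b (l 16658648) (l 16652896)))) (b (l 16658600) (l 16652848))))) (b (l 16658240) (l 16652480)))) (b (l 16658296) (l 16652536)))), by decide +kernel⟩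

def k104_pm_012_s : ∃ t, chk3 f_pm_012_s t 335 59 1 = true :=
  ⟨(a (a (a (b (b (l 16662480) (l 16659880)) (c (l 16658312) (l 16643416))) (a (b (c (a (l 16652848) (l 16652824)) (l 16648456)) (b (l 16657320) (l 16644360))) (a (a (b (c (l 16652824) (l 16648552)) (c (l 16647760) (l 16643616))) (a (a (a (b (l 16650696) (l 16645720)) (b (a (l 16650720) (c (b (l 16654136) (l 16651568)) (l 16648672))) (a (l 16645744) (a (l 16645768) (b (l 16646992) (l 16644552)))))) (b (l 16650704) (l 16645736))) (b (l 16650688) (l 16645720)))) (b (l 16650640) (l 16645672))))) (b (l 16660776) (l 16645312))) (b (c (l 16651496) (l 16647264)) (l 16654848))), by decide +kernel⟩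

def k105_pm_012_s : ∃ t, chk3 f_pm_012_s t 21 28 1 = true :=
  ⟨(b (a (b (c (c (a (l 16683208) (l 16673720)) (a (l 16681424) (l 16671720))) (a (c (l 16679688) (l 16678008)) (b (l 16670272) (l 16667192)))) (c (a (b (l 16677720) (l 16674520)) (b (l 16668152) (l 16664976))) (a (c (b (l 16674952) (l 16671640)) (b (l 16673168) (l 16669784))) (c (l 16663384) (l 16661280))))) (b (a (c (c (l 16664368) (l 16662136)) (l 16658760)) (c (b (l 16655384) (l 16652440)) (b (l 16650400) (l 16647352)))) (c (a (b (l 16658704) (l 16655536)) (c (l 16649096) (l 16646512))) (a (c (l 16653568) (l 16651168)) (b (l 16644168) (l 16640872)))))) (a (b (c (a (b (l 16671248) (l 16668000)) (b (l 16661720) (l 16658496))) (a (b (c (l 16668248) (l 16666312)) (l 16663872)) (b (l 16657248) (l 16653888)))) (c (a (b (l 16664824) (a (l 16664088) (l 16659360))) (b (l 16655360) (l 16652296))) (a (b (l 16660576) (l 16657336)) (l 16649032)))) (c (b (a (l 16650720) (b (l 16643000) (l 16639816))) (a (b (l 16645984) (l 16642952)) (b (l 16636720)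 (l 16633704)))) (b (a (b (l 16647320) (l 16643992)) (b (l 16637504) (l 16634192))) (a (b (l 16640760) (l 16637624)) (b (l 16630992) (l 16627888))))))), by decide +kernel⟩

def k106_pm_012_s : ∃ t, chk3 f_pm_012_s t 21 29 1 = true :=
  ⟨(b (a (a (b (a (c (a (l 16660744) (l 16658368)) (l 16655176)) (b (l 16654008) (l 16651008))) (c (c (b (l 16654016) (l 16651240)) (b (l 16651672) (l 16648888))) (b (l 16648256) (l 16645464)))) (b (c (b (l 16649296) (l 16646336)) (b (l 16644368) (l 16641328))) (c (c (b (l 16644744) (l 16641944)) (l 16640768)) (l 16647456)))) (c (b (a (b (l 16639984) (l 16637080)) (b (l 16630768) (l 16627896))) (a (b (l 16634240) (l 16631432)) (c (l 16625184) (l 16622216)))) (b (a (l 16633080) (l 16623392)) (a (l 16627240) (l 16617688))))) (a (c (a (b (c (b (l 16648552) (l 16645936)) (l 16655392)) (b (l 16642232) (l 16639728))) (b (b (l 16643160) (l 16635280)) (b (l 16632704) (l 16630160)))) (b (a (b (l 16642784) (l 16640224)) (l 16652456)) (a (b (l 16637752) (l 16635328)) (l 16626400))))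 (c (b (a (b (l 16628712) (l 16626048)) (b (l 16619648) (l 16616984))) (a (b (l 16623424) (l 16620848)) (b (l 16614384) (l 16611784)))) (b (a (l 16621784) (l 16622712)) (a (l 16616560) (l 16607032)))))), by decide +kernel⟩

def k107_pm_012_s : ∃ t, chk3 f_pm_012_s t 10 60 1 = true :=
  ⟨(b (a (a (b (a (a (l 16676856) (c (l 16673384) (l 16669208))) (a (a (l 16667240) (l 16664552)) (a (l 16661896) (l 16659280)))) (a (a (l 16674016) (l 16668560)) (a (l 16663168) (l 16657872)))) (a (a (a (b (l 16656704) (l 16654000)) (b (l 16654160) (l 16651464))) (a (b (l 16651672) (l 16648992)) (b (l 16649256) (l 16646600)))) (a (b (a (c (l 16649392) (l 16644392)) (a (l 16645192) (l 16644112))) (a (c (l 16646728) (l 16641800)) (c (l 16644472) (l 16639648)))) (a (a (b (a (l 16643344) (l 16642880)) (l 16640568)) (a (c (l 16643456) (l 16638896)) (c (l 16653520) (l 16638616)))) (a (a (a (c (l 16642792) (l 16638552)) (a (c (l 16642760) (l 16638688)) (a (a (l 16640816) (b (c (l 16654584) (l 16640208)) (c (l 16641664) (l 16637888))))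 (l 16640856)))) (l 16640496)) (l 16639544)))))) (a (a (c (b (l 16637248) (l 16634792)) (l 16631760)) (c (b (l 16627648) (l 16625168)) (l 16621528))) (a (c (b (l 16618296) (l 16615784)) (l 16611584)) (c (b (l 16609192) (l 16606640)) (l 16601936))))) (a (a (b (a (a (l 16671056) (l 16665704)) (a (l 16660376) (l 16655144))) (a (a (l 16667984) (l 16662728)) (a (l 16657512) (l 16652344)))) (a (b (a (c (l 16652392) (l 16647608)) (a (l 16646312) (l 16643936))) (a (l 16647312) (c (l 16644832) (l 16640048)))) (a (a (a (l 16651384) (l 16650256)) (c (c (l 16641696) (l 16639360)) (l 16641080))) (a (a (c (l 16639024) (l 16634512)) (a (l 16636176) (c (l 16638000) (l 16633800)))) (a (a (a (l 16635800) (a (l 16635912) (a (a (l 16636080) (c (l 16638040) (l 16634464))) (l 16636160)))) (l 16635800)) (l 16634840)))))) (a (a (a (l 16631656) (l 16626608)) (a (l 16632104) (l 16616696))) (a (a (l 16611832) (l 16607040)) (c (l 16602872) (l 16597040)))))), by decide +kernel⟩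

def k108_pm_012_s : ∃ t, chk3 f_pm_012_s t 10 61 1 = true :=
  ⟨(b (a (a (a (a (l 16663160) (l 16658048)) (a (l 16652984) (l 16648000))) (a (a (c (l 16645368) (l 16640776)) (a (l 16639536) (l 16637264))) (a (a (c (l 16637376) (l 16632776)) (c (l 16635296) (l 16630832))) (a (a (l 16652712) (a (l 16631232) (l 16631024))) (a (a (a (l 16631024) (a (l 16631216) (a (a (l 16631440) (l 16631624)) (l 16631568)))) (l 16631208)) (l 16630240)))))) (c (a (a (l 16626392) (l 16616688)) (a (l 16607208) (l 16597960))) (a (a (l 16622680) (l 16612312)) (l 16607736)))) (a (a (a (a (l 16656328) (l 16651416)) (a (l 16646568) (l 16641816))) (a (a (c (l 16639408) (l 16634968)) (c (l 16635000) (l 16630560))) (a (a (l 16645424) (c (l 16629936) (l 16625720))) (a (a (l 16626696) (c (l 16628160) (l 16624448))) (a (a (a (l 16626296) (a (l 16626560) (a (a (l 16626832) (c (l 16628544) (l 16625600))) (l 16627000)))) (l 16626640)) (l 16625688)))))) (a (a (c (l 16642664) (l 16618320)) (b (l 16611072) (a (l 16611296) (l 16606328))))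 (a (c (l 16602448) (l 16597752)) (l 16590520))))), by decide +kernel⟩

def k109_pm_012_s : ∃ t, chk3 f_pm_012_s t 10 62 1 = true :=
  ⟨(b (a (a (a (a (l 16649096) (l 16644400)) (a (l 16639784) (l 16635280))) (a (a (l 16651912) (c (b (l 16630512) (l 16648328)) (l 16645560))) (a (a (b (l 16625472) (c (l 16624480) (l 16620344))) (b (l 16623776) (c (l 16622656) (l 16618680)))) (a (b (a (l 16622752) (a (l 16622408) (l 16622312))) (l 16640216)) (a (a (a (l 16631096) (a (l 16620776) (l 16621080))) (l 16620696)) (l 16619768)))))) (a (a (l 16624640) (a (l 16606688) (l 16622696))) (a (l 16594480) (l 16605992)))) (a (a (a (b (l 16641184) (a (l 16639352) (l 16634840))) (a (b (l 16634400) (l 16630296)) (b (l 16651016) (l 16625792)))) (a (a (b (a (l 16626848) (l 16624720)) (l 16621416)) (b (l 16642544) (l 16617216))) (a (c (l 16638600) (l 16613496)) (a (a (l 16613384) (l 16612888)) (a (a (a (l 16612784) (a (l 16612984) (c (l 16614936) (l 16611912)))) (l 16612992)) (l 16612088)))))) (a (a (c (l 16608416) (l 16605008))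 (a (l 16599296) (a (l 16595632) (l 16593224)))) (a (l 16597864) (l 16578072))))), by decide +kernel⟩

def k110_pm_012_s : ∃ t, chk3 f_pm_012_s t 10 63 1 = true :=
  ⟨(b (a (a (a (c (l 16631856) (b (l 16630304) (l 16625168))) (c (l 16623048) (b (l 16621208) (l 16616176)))) (a (a (c (l 16616600) (l 16612144)) (c (l 16612496) (l 16608048))) (a (c (a (l 16609568) (l 16607768)) (a (l 16605184) (l 16603528))) (a (a (l 16604496) (c (l 16606040) (l 16602224))) (a (a (a (l 16604016) (a (l 16604248) (a (a (l 16604496) (l 16604704)) (l 16604624)))) (l 16604296)) (l 16603416)))))) (a (a (c (l 16599976) (l 16596432)) (a (l 16590984) (a (l 16587400) (l 16585080)))) (a (b (l 16581560) (l 16577352)) (b (l 16572480) (l 16568520))))) (b (a (a (a (c (l 16623952) (l 16619720)) (c (l 16615296) (l 16610840))) (a (a (l 16606624) (l 16602608)) (a (a (l 16599784) (l 16598104)) (a (a (l 16597056) (l 16596672)) (a (a (a (l 16596656) (a (l 16596904) (c (l 16599080) (c (l 16596544) (l 16600344))))) (l 16596984)) (l 16596120))))))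 (a (a (c (l 16592840) (l 16589184)) (a (l 16583912) (a (l 16580392) (l 16578152)))) (a (l 16593848) (l 16564272)))) (a (a (a (c (l 16618288) (a (l 16616192) (l 16611696))) (c (l 16609704) (a (l 16607280) (l 16602960)))) (a (a (a (l 16602064) (l 16600016)) (c (l 16599488) (l 16594832))) (a (c (a (l 16596680) (l 16594968)) (a (l 16592096) (l 16590520))) (a (a (l 16591648) (a (l 16591288) (l 16591200))) (a (a (a (l 16591296) (a (l 16591552) (a (a (l 16591824) (l 16592048)) (l 16591968)))) (l 16591648)) (l 16590792)))))) (a (a (c (l 16587632) (l 16583896)) (a (l 16578728) (a (l 16575248) (l 16573064)))) (a (c (l 16570600) (l 16565576)) (c (l 16562584) (l 16556936))))))), by decide +kernel⟩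

def k111_pm_012_s : ∃ t, chk3 f_pm_012_s t 11 56 1 = true :=
  ⟨(a (a (b (c (a (c (l 16646128) (l 16643432)) (c (l 16637360) (l 16634464))) (a (b (l 16640784) (l 16637632)) (b (l 16631504) (l 16628240)))) (c (a (b (l 16640200) (l 16637048)) (b (c (l 16632752) (l 16629736)) (c (l 16629576) (l 16626480)))) (a (b (l 16634432) (l 16631152)) (b (l 16624968) (l 16621592))))) (b (c (a (b (l 16628960) (l 16625808)) (b (l 16620720) (l 16617520))) (a (b (l 16622664) (l 16619272)) (b (l 16614224) (l 16610712)))) (c (a (b (l 16622584) (c (l 16620944) (l 16617632))) (b (l 16614232) (l 16610888))) (a (b (l 16615832) (l 16612352)) (b (l 16607144) (l 16603544)))))) (a (b (a (c (l 16611104) (b (l 16606136) (l 16602520))) (c (l 16603264) (l 16596528))) (c (a (b (l 16606144) (l 16602744)) (l 16596568)) (a (b (l 16598840) (l 16595120)) (b (l 16590896) (l 16587072))))) (b (a (c (l 16595560) (l 16589040)) (l 16584968)) (a (c (l 16588864) (l 16581312)) (c (l 16581288) (l 16573944)))))), by decide +kernel⟩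

def k112_pm_012_s : ∃ t, chk3 f_pm_012_s t 11 57 1 = true :=
  ⟨(a (a (b (a (c (b (l 16633832) (l 16630656)) (b (l 16627800) (l 16624504))) (c (b (c (l 16626376) (l 16623208)) (l 16621640)) (b (l 16618224) (l 16614952)))) (c (a (b (l 16627576) (l 16624576)) (b (l 16618568) (l 16615584))) (a (b (l 16621328) (l 16618248)) (b (c (l 16613528) (l 16610016)) (l 16608720))))) (b (a (c (b (c (l 16617704) (l 16614304)) (c (l 16614512) (l 16611048))) (b (l 16608912) (l 16605552))) (c (b (c (l 16609280) (l 16605688)) (c (l 16606040) (l 16602360))) (b (l 16599936) (l 16596472)))) (a (c (b (a (l 16611920) (l 16607536)) (l 16606736)) (b (a (l 16604720) (l 16600048)) (c (l 16601240) (l 16597392)))) (c (b (a (l 16603216) (l 16598968)) (a (l 16600208) (l 16595936))) (b (a (l 16595464) (l 16590960)) (a (l 16592384) (l 16587840))))))) (a (b (c (a (b (l 16599312) (c (l 16597856) (l 16594008))) (b (l 16591368) (l 16587976))) (a (b (l 16591400) (l 16587816)) (b (l 16583248) (l 16579544)))) (a (c (b (c (l 16594696) (l 16590744))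 (a (l 16591736) (l 16587608))) (b (l 16584416) (l 16581192))) (c (b (l 16584704) (l 16584184)) (b (l 16576032) (l 16572696))))) (b (b (a (c (l 16583648) (l 16575440)) (l 16572184)) (a (c (l 16580224) (l 16571640)) (l 16568528))) (a (c (b (l 16576920) (l 16573736)) (b (l 16568032) (l 16564592))) (c (b (l 16569344) (l 16566136)) (b (l 16560360) (l 16556832))))))), by decide +kernel⟩

def k113_pm_012_s : ∃ t, chk3 f_pm_012_s t 22 29 1 = true :=
  ⟨(b (a (c (b (a (b (l 16621664) (l 16618816)) (b (l 16612680) (l 16609856))) (a (b (l 16616040) (l 16613328)) (b (l 16607104) (l 16604416)))) (b (a (l 16613800) (l 16614800)) (a (l 16608168) (l 16598744)))) (b (a (c (b (l 16603840) (l 16601032)) (b (l 16596392) (l 16593544))) (b (c (a (l 16597320) (l 16593024)) (a (l 16589448) (l 16584872))) (c (l 16592360) (l 16584328)))) (c (a (b (l 16598288) (l 16595624)) (b (l 16589624) (l 16586968))) (a (l 16589432) (b (l 16581584) (l 16578936)))))) (a (b (c (a (b (l 16610664) (l 16608064)) (b (l 16601784) (l 16599216)))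 (a (l 16602848) (l 16593504))) (a (c (b (l 16605488) (l 16602896)) (l 16597656)) (c (b (l 16596672) (l 16594144)) (l 16588448)))) (b (a (c (b (l 16593016) (l 16590472)) (l 16584256)) (c (b (l 16584384) (l 16581856)) (l 16575120))) (c (a (l 16586712) (l 16588616)) (a (l 16579280) (l 16570208)))))), by decide +kernel⟩

def k114_pm_012_s : ∃ t, chk3 f_pm_012_s t 23 29 1 = true :=
  ⟨(b (a (b (a (c (b (a (l 16588792) (l 16584632)) (a (l 16585960) (l 16581784))) (b (a (l 16580376) (l 16575952)) (a (l 16577512) (l 16573056)))) (c (b (a (l 16580552) (l 16576544)) (a (l 16577664) (l 16573624))) (b (l 16569536) (a (l 16568680) (l 16564416))))) (a (b (c (a (l 16583240) (l 16579032)) (l 16572520)) (c (l 16578480) (l 16569896))) (c (b (a (l 16574896) (l 16570824)) (a (l 16572224) (l 16568136))) (b (a (l 16565888) (l 16561552)) (l 16561032))))) (b (a (c (b (l 16570664) (l 16567712)) (b (l 16561320) (l 16558208))) (c (b (l 16563040) (l 16560048)) (b (l 16553464) (l 16550264)))) (a (c (b (a (l 16566832) (l 16562912))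 (a (l 16564104) (l 16560160))) (b (a (l 16557336) (l 16553216)) (c (l 16554984) (l 16549904)))) (c (b (l 16557160) (l 16554376)) (b (l 16547216) (a (l 16546328) (l 16542344))))))) (a (b (a (c (b (l 16575904) (l 16573384)) (l 16566112)) (c (b (a (l 16569648) (l 16565536)) (l 16565080)) (b (l 16558464) (l 16556024)))) (c (b (a (l 16570920) (l 16562624)) (a (l 16568464) (l 16560176))) (a (l 16561256) (l 16552432)))) (b (a (c (b (a (l 16561488) (l 16557512)) (c (l 16559208) (l 16554648))) (b (l 16549864) (l 16547344))) (c (b (c (l 16554040) (l 16549264)) (c (l 16551456) (l 16546672))) (b (l 16552064) (l 16538976)))) (c (a (b (c (l 16556728) (l 16552192)) (c (l 16554280) (l 16549776))) (b (c (l 16548960) (l 16544176)) (c (l 16546472) (l 16541712)))) (a (b (l 16544936) (l 16542584)) (b (l 16536512) (l 16534088))))))), by decide +kernel⟩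

def k115_pm_012_s : ∃ t, chk3 f_pm_012_s t 11 15 1 = true :=
  ⟨(b (a (b (a (b (a (b (l 16607608) (l 16594568)) (b (l 16588184) (l 16585632))) (a (c (l 16593928) (l 16587576)) (c (l 16585232) (l 16578416)))) (b (a (c (l 16581704) (l 16574352)) (c (l 16573192) (l 16565368))) (a (c (l 16576664) (l 16569392)) (l 16564464)))) (a (b (a (c (l 16588960) (l 16582792)) (l 16597856)) (a (l 16581176) (l 16572096))) (b (a (l 16568152) (l 16559552)) (a (l 16563272) (l 16554720))))) (b (a (b (a (c (l 16564792) (l 16556480)) (c (l 16556528) (l 16547704))) (a (l 16555904) (l 16547456))) (b (a (c (l 16548424) (l 16539072)) (c (b (l 16541696) (l 16539288)) (l 16530560))) (c (a (l 16543616) (l 16535704)) (l 16530208)))) (a (b (c (l 16550960) (l 16542712)) (a (l 16546304) (l 16538048))) (a (b (l 16534472) (l 16529856)) (b (l 16526344) (l 16521776)))))) (a (b (a (b (a (c (l 16578704) (l 16572840)) (c (l 16569968) (l 16563536))) (a (l 16569000) (l 16560144))) (b (a (c (l 16561456) (l 16554496)) (b (l 16550984) (l 16547912)))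 (a (l 16551520) (l 16543136)))) (a (b (a (c (l 16564808) (l 16558584)) (c (l 16556464) (l 16549600))) (a (b (l 16555624) (l 16561776)) (c (l 16548592) (l 16541624)))) (b (a (c (l 16548312) (l 16540832)) (c (l 16540360) (l 16532312))) (a (c (l 16540672) (l 16533064)) (c (l 16532936) (l 16524720)))))) (b (a (b (a (b (l 16542672) (l 16539680)) (b (l 16534496) (l 16531616))) (a (l 16534992) (l 16527096))) (b (b (a (l 16526392) (l 16518392)) (l 16519736)) (a (l 16540288) (l 6)))) (a (b (a (c (l 16532624) (l 16524040)) (c (l 16525096) (l 16516032))) (a (c (l 16535888) (l 16516608)) (c (l 16528552) (l 16508744)))) (b (a (c (l 16517768) (l 16508280)) (l 6)) (l 6)))))), by decide +kernel⟩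

def k116_pm_012_s : ∃ t, chk3 f_pm_012_s t 6 2 1 = true :=
  ⟨(b (l 2) (b (l 2) (a (b (l 2) (a (b (l 2) (a (l 16688112) (l 2))) (l 2))) (l 2)))), by decide +kernel⟩

def k117_pm_012_s : ∃ t, chk3 f_pm_012_s t 6 6 1 = true :=
  ⟨(a (b (b (a (a (b (l 16681656) (l 16673576)) (b (l 16674504) (l 16665952))) (b (l 2) (a (l 16660304) (l 2)))) (a (b (a (b (l 16665536) (l 16658856)) (b (l 16657392) (l 16650312))) (a (l 16647272) (b (l 16642392) (l 16633720)))) (b (b (l 16648968) (l 16641624)) (a (l 16631680) (l 16626296))))) (b (a (b (a (l 16651608) (a (l 16622352) (l 16618448))) (a (b (l 16618560) (l 16610776)) (a (l 16605512) (l 16601208)))) (b (a (l 16613416) (l 16607528)) (a (l 16595648) (l 16589152)))) (a (b (a (b (l 16603232) (l 16595760)) (a (l 16589592) (l 16584856))) (a (b (l 16588032) (b (l 16582144) (l 16578656))) (b (l 16596040) (a (l 16569560) (l 16564152))))) (b (a (l 16578720) (l 16571464)) (a (b (l 16565928) (l 16557096)) (b (l 16558056) (l 16548728))))))) (a (a (b (b (l 2) (b (l 2) (l 16621840)))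 (b (b (l 16602632) (l 16583712)) (b (l 16565376) (l 6)))) (b (l 2) (l 6))) (l 6))), by decide +kernel⟩

def k118_pm_012_s : ∃ t, chk3 f_pm_012_s t 12 28 1 = true :=
  ⟨(a (b (a (b (a (l 16577504) (l 16570024)) (a (l 16570424) (l 16563088))) (b (a (l 16562720) (l 16556864)) (a (l 16555872) (l 16549832)))) (a (b (a (b (l 16564856) (l 16561176)) (b (l 16557592) (l 16553960))) (a (c (l 16560304) (l 16551168)) (b (l 16550432) (l 16547008)))) (b (a (c (l 16552232) (l 16544696)) (l 16542528)) (a (c (a (l 16547520) (l 16544112)) (l 16552832)) (c (l 16539616) (l 16530808)))))) (b (a (b (a (l 16551544) (l 16546528)) (l 16541576)) (a (b (l 16541856) (l 16533944)) (l 6))) (a (b (a (l 16536760) (l 16531224)) (a (l 16529520) (l 16523800))) (l 6)))), by decide +kernel⟩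

def k119_pm_012_s : ∃ t, chk3 f_pm_012_s t 12 29 1 = true :=
  ⟨(a (b (a (b (a (c (b (l 16555608) (l 16552600)) (b (l 16545944) (l 16542656))) (c (l 16552056) (l 16537008))) (a (c (b (l 16549688) (l 16546880)) (b (l 16539520) (l 16536536))) (c (b (l 16542416) (l 16539592)) (b (l 16532152) (l 16529088))))) (b (a (a (c (l 16541416) (l 16531720)) (c (l 16538024) (l 16528368))) (c (l 16554424) (l 16523640))) (a (c (a (l 16535632) (l 16532240)) (a (l 16525232) (l 16521792))) (c (b (l 16529024) (l 16526168)) (l 16516960))))) (b (a (a (c (b (l 16544160) (l 16541528)) (b (l 16533696) (l 16531000))) (c (b (l 16536856) (l 16534200)) (b (l 16526168) (l 16523384)))) (a (c (a (l 16530168) (l 16526760)) (a (l 16519296) (l 16526264))) (c (b (l 16523376) (l 16520664)) (b (l 16512240) (l 16509280))))) (b (a (c (a (l 16559944) (l 16531624)) (a (l 16528416) (l 16520712))) (c (a (l 16524528) (l 16518000)) (a (l 16513352) (l 16506424)))) (a (c (a (c (l 16538920) (l 16533928)) (l 16529072)) (a (l 16525912) (l 16518120)))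 (a (a (c (l 16523688) (l 16512504)) (c (l 16520248) (l 16508872))) (l 6)))))) (b (a (a (b (c (l 16527496) (l 16517528)) (c (l 16532024) (l 16510712))) (l 6)) (l 6)) (l 6))), by decide +kernel⟩

def k120_pm_012_s : ∃ t, chk3 f_pm_012_s t 13 14 1 = true :=
  ⟨(l 6), by decide +kernel⟩

def k121_pm_012_s : ∃ t, chk3 f_pm_012_s t 6 15 1 = true :=
  ⟨(a (b (a (b (b (a (a (c (b (l 16534000) (l 16531552)) (l 16522312)) (c (c (l 16527864) (l 16522688)) (l 16514360))) (a (c (a (l 16519904) (l 16516424)) (a (l 16508648) (l 16504952))) (l 6))) (a (a (c (b (l 16529152) (l 16526784)) (l 16517688)) (c (c (l 16522968) (l 16517840)) (l 16509632))) (l 6))) (a (a (b (c (l 16523248) (l 16513240)) (l 16513840)) (b (c (l 16515696) (l 16505120)) (l 6))) (l 6))) (l 6)) (l 6)) (l 6)), by decide +kernel⟩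

def k122_pm_012_s : ∃ t, chk3 f_pm_012_s t 7 1 1 = true :=
  ⟨(b (l 2) (l 6)), by decide +kernel⟩

theorem s123_pm_012_s : ∃ t, chk3 f_pm_012_s t 12 14 1 = true := ex3_b k118_pm_012_s k119_pm_012_s

theorem s124_pm_012_s : ∃ t, chk3 f_pm_012_s t 6 14 1 = true := ex3_a s123_pm_012_s k120_pm_012_s

theorem s125_pm_012_s : ∃ t, chk3 f_pm_012_s t 6 7 1 = true := ex3_b s124_pm_012_s k121_pm_012_s

theorem s126_pm_012_s : ∃ t, chk3 f_pm_012_s t 6 3 1 = true := ex3_b k117_pm_012_s s125_pm_012_s

theorem s127_pm_012_s : ∃ t, chk3 f_pm_012_s t 6 1 1 = true := ex3_b k116_pm_012_s s126_pm_012_s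

theorem s128_pm_012_s : ∃ t, chk3 f_pm_012_s t 3 1 1 = true := ex3_a s127_pm_012_s k122_pm_012_s

theorem s129_pm_012_s : ∃ t, chk3 f_pm_012_s t 11 29 1 = true := ex3_a k113_pm_012_s k114_pm_012_s

theorem s130_pm_012_s : ∃ t, chk3 f_pm_012_s t 11 28 1 = true := ex3_b k111_pm_012_s k112_pm_012_s

theorem s131_pm_012_s : ∃ t, chk3 f_pm_012_s t 11 14 1 = true := ex3_b s130_pm_012_s s129_pm_012_s

theorem s132_pm_012_s : ∃ t, chk3 f_pm_012_s t 11 7 1 = true := ex3_b s131_pm_012_s k115_pm_012_s

theorem s133_pm_012_s : ∃ t, chk3 f_pm_012_s t 10 31 1 = true := ex3_b k109_pm_012_s k110_pm_012_s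

theorem s134_pm_012_s : ∃ t, chk3 f_pm_012_s t 10 30 1 = true := ex3_b k107_pm_012_s k108_pm_012_s

theorem s135_pm_012_s : ∃ t, chk3 f_pm_012_s t 10 15 1 = true := ex3_b s134_pm_012_s s133_pm_012_s

theorem s136_pm_012_s : ∃ t, chk3 f_pm_012_s t 21 14 1 = true := ex3_b k105_pm_012_s k106_pm_012_s

theorem s137_pm_012_s : ∃ t, chk3 f_pm_012_s t 335 29 1 = true := ex3_b k103_pm_012_s k104_pm_012_s

theorem s138_pm_012_s : ∃ t, chk3 f_pm_012_s t 670 28 1 = true := ex3_b k100_pm_012_s k101_pm_012_s

theorem s139_pm_012_s : ∃ t, chk3 f_pm_012_s t 335 28 1 = true := ex3_a s138_pm_012_s k102_pm_012_s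

theorem s140_pm_012_s : ∃ t, chk3 f_pm_012_s t 335 14 1 = true := ex3_b s139_pm_012_s s137_pm_012_s

theorem s141_pm_012_s : ∃ t, chk3 f_pm_012_s t 334 14 1 = true := ex3_a k98_pm_012_s k99_pm_012_s

theorem s142_pm_012_s : ∃ t, chk3 f_pm_012_s t 167 14 1 = true := ex3_a s141_pm_012_s s140_pm_012_s

theorem s143_pm_012_s : ∃ t, chk3 f_pm_012_s t 166 14 1 = true := ex3_a k96_pm_012_s k97_pm_012_s

theorem s144_pm_012_s : ∃ t, chk3 f_pm_012_s t 83 14 1 = true := ex3_a s143_pm_012_s s142_pm_012_s

theorem s145_pm_012_s : ∃ t, chk3 f_pm_012_s t 82 28 1 = true := ex3_b k93_pm_012_s k94_pm_012_s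

theorem s146_pm_012_s : ∃ t, chk3 f_pm_012_s t 82 14 1 = true := ex3_b s145_pm_012_s k95_pm_012_s

theorem s147_pm_012_s : ∃ t, chk3 f_pm_012_s t 41 14 1 = true := ex3_a s146_pm_012_s s144_pm_012_s

theorem s148_pm_012_s : ∃ t, chk3 f_pm_012_s t 40 29 1 = true := ex3_b k91_pm_012_s k92_pm_012_s

theorem s149_pm_012_s : ∃ t, chk3 f_pm_012_s t 40 28 1 = true := ex3_b k89_pm_012_s k90_pm_012_s

theorem s150_pm_012_s : ∃ t, chk3 f_pm_012_s t 40 14 1 = true := ex3_b s149_pm_012_s s148_pm_012_s

theorem s151_pm_012_s : ∃ t, chk3 f_pm_012_s t 20 14 1 = true := ex3_a s150_pm_012_s s147_pm_012_s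

theorem s152_pm_012_s : ∃ t, chk3 f_pm_012_s t 10 14 1 = true := ex3_a s151_pm_012_s s136_pm_012_s

theorem s153_pm_012_s : ∃ t, chk3 f_pm_012_s t 10 7 1 = true := ex3_b s152_pm_012_s s135_pm_012_s

theorem s154_pm_012_s : ∃ t, chk3 f_pm_012_s t 5 7 1 = true := ex3_a s153_pm_012_s s132_pm_012_s

theorem s155_pm_012_s : ∃ t, chk3 f_pm_012_s t 21 6 1 = true := ex3_b k86_pm_012_s k87_pm_012_s

theorem s156_pm_012_s : ∃ t, chk3 f_pm_012_s t 1340 27 1 = true := ex3_c k82_pm_012_s k83_pm_012_s

theorem s157_pm_012_s : ∃ t, chk3 f_pm_012_s t 670 27 1 = true := ex3_a s156_pm_012_s k84_pm_012_s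

theorem s158_pm_012_s : ∃ t, chk3 f_pm_012_s t 335 27 1 = true := ex3_a s157_pm_012_s k85_pm_012_s

theorem s159_pm_012_s : ∃ t, chk3 f_pm_012_s t 335 13 1 = true := ex3_b k81_pm_012_s s158_pm_012_s

theorem s160_pm_012_s : ∃ t, chk3 f_pm_012_s t 167 13 1 = true := ex3_a k80_pm_012_s s159_pm_012_s

theorem s161_pm_012_s : ∃ t, chk3 f_pm_012_s t 83 13 1 = true := ex3_a k79_pm_012_s s160_pm_012_s

theorem s162_pm_012_s : ∃ t, chk3 f_pm_012_s t 83 12 1 = true := ex3_a k77_pm_012_s k78_pm_012_s

theorem s163_pm_012_s : ∃ t, chk3 f_pm_012_s t 83 6 1 = true := ex3_b s162_pm_012_s s161_pm_012_s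

theorem s164_pm_012_s : ∃ t, chk3 f_pm_012_s t 82 6 1 = true := ex3_b k75_pm_012_s k76_pm_012_s

theorem s165_pm_012_s : ∃ t, chk3 f_pm_012_s t 41 6 1 = true := ex3_a s164_pm_012_s s163_pm_012_s

theorem s166_pm_012_s : ∃ t, chk3 f_pm_012_s t 40 27 1 = true := ex3_a k73_pm_012_s k74_pm_012_s

theorem s167_pm_012_s : ∃ t, chk3 f_pm_012_s t 40 13 1 = true := ex3_b k72_pm_012_s s166_pm_012_s

theorem s168_pm_012_s : ∃ t, chk3 f_pm_012_s t 40 12 1 = true := ex3_b k70_pm_012_s k71_pm_012_s

theorem s169_pm_012_s : ∃ t, chk3 f_pm_012_s t 40 6 1 = true := ex3_b s168_pm_012_s s167_pm_012_s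

theorem s170_pm_012_s : ∃ t, chk3 f_pm_012_s t 20 6 1 = true := ex3_a s169_pm_012_s s165_pm_012_s

theorem s171_pm_012_s : ∃ t, chk3 f_pm_012_s t 10 6 1 = true := ex3_a s170_pm_012_s s155_pm_012_s

theorem s172_pm_012_s : ∃ t, chk3 f_pm_012_s t 5 6 1 = true := ex3_a s171_pm_012_s k88_pm_012_s

theorem s173_pm_012_s : ∃ t, chk3 f_pm_012_s t 5 3 1 = true := ex3_b s172_pm_012_s s154_pm_012_s

theorem s174_pm_012_s : ∃ t, chk3 f_pm_012_s t 167 22 1 = true := ex3_a k65_pm_012_s k66_pm_012_s

theorem s175_pm_012_s : ∃ t, chk3 f_pm_012_s t 167 11 1 = true := ex3_b s174_pm_012_s k67_pm_012_s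

theorem s176_pm_012_s : ∃ t, chk3 f_pm_012_s t 167 10 1 = true := ex3_b k63_pm_012_s k64_pm_012_s

theorem s177_pm_012_s : ∃ t, chk3 f_pm_012_s t 167 5 1 = true := ex3_b s176_pm_012_s s175_pm_012_s

theorem s178_pm_012_s : ∃ t, chk3 f_pm_012_s t 166 22 1 = true := ex3_a k60_pm_012_s k61_pm_012_s

theorem s179_pm_012_s : ∃ t, chk3 f_pm_012_s t 166 11 1 = true := ex3_b s178_pm_012_s k62_pm_012_s

theorem s180_pm_012_s : ∃ t, chk3 f_pm_012_s t 166 5 1 = true := ex3_b k59_pm_012_s s179_pm_012_s

theorem s181_pm_012_s : ∃ t, chk3 f_pm_012_s t 83 5 1 = true := ex3_a s180_pm_012_s s177_pm_012_s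

theorem s182_pm_012_s : ∃ t, chk3 f_pm_012_s t 165 22 1 = true := ex3_b k56_pm_012_s k57_pm_012_s

theorem s183_pm_012_s : ∃ t, chk3 f_pm_012_s t 82 22 1 = true := ex3_a k55_pm_012_s s182_pm_012_s

theorem s184_pm_012_s : ∃ t, chk3 f_pm_012_s t 82 11 1 = true := ex3_b s183_pm_012_s k58_pm_012_s

theorem s185_pm_012_s : ∃ t, chk3 f_pm_012_s t 82 5 1 = true := ex3_b k54_pm_012_s s184_pm_012_s

theorem s186_pm_012_s : ∃ t, chk3 f_pm_012_s t 41 5 1 = true := ex3_a s185_pm_012_s s181_pm_012_s

theorem s187_pm_012_s : ∃ t, chk3 f_pm_012_s t 41 2 1 = true := ex3_b k53_pm_012_s s186_pm_012_s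

theorem s188_pm_012_s : ∃ t, chk3 f_pm_012_s t 20 2 1 = true := ex3_a k52_pm_012_s s187_pm_012_s

theorem s189_pm_012_s : ∃ t, chk3 f_pm_012_s t 10 2 1 = true := ex3_a s188_pm_012_s k68_pm_012_s

theorem s190_pm_012_s : ∃ t, chk3 f_pm_012_s t 5 2 1 = true := ex3_a s189_pm_012_s k69_pm_012_s

theorem s191_pm_012_s : ∃ t, chk3 f_pm_012_s t 5 1 1 = true := ex3_b s190_pm_012_s s173_pm_012_s

theorem s192_pm_012_s : ∃ t, chk3 f_pm_012_s t 19 15 1 = true := ex3_b k50_pm_012_s k51_pm_012_s

theorem s193_pm_012_s : ∃ t, chk3 f_pm_012_s t 19 29 1 = true := ex3_a k48_pm_012_s k49_pm_012_s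

theorem s194_pm_012_s : ∃ t, chk3 f_pm_012_s t 19 28 3 = true := ex3_a k46_pm_012_s k47_pm_012_s

theorem s195_pm_012_s : ∃ t, chk3 f_pm_012_s t 19 28 2 = true := ex3_a k44_pm_012_s k45_pm_012_s

theorem s196_pm_012_s : ∃ t, chk3 f_pm_012_s t 19 28 1 = true := ex3_c s195_pm_012_s s194_pm_012_s

theorem s197_pm_012_s : ∃ t, chk3 f_pm_012_s t 19 14 1 = true := ex3_b s196_pm_012_s s193_pm_012_s

theorem s198_pm_012_s : ∃ t, chk3 f_pm_012_s t 19 7 1 = true := ex3_b s197_pm_012_s s192_pm_012_s

theorem s199_pm_012_s : ∃ t, chk3 f_pm_012_s t 18 15 1 = true := ex3_b k42_pm_012_s k43_pm_012_s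

theorem s200_pm_012_s : ∃ t, chk3 f_pm_012_s t 36 58 1 = true := ex3_b k38_pm_012_s k39_pm_012_s

theorem s201_pm_012_s : ∃ t, chk3 f_pm_012_s t 36 29 1 = true := ex3_b s200_pm_012_s k40_pm_012_s

theorem s202_pm_012_s : ∃ t, chk3 f_pm_012_s t 18 29 1 = true := ex3_a s201_pm_012_s k41_pm_012_s

theorem s203_pm_012_s : ∃ t, chk3 f_pm_012_s t 75 28 1 = true := ex3_b k36_pm_012_s k37_pm_012_s

theorem s204_pm_012_s : ∃ t, chk3 f_pm_012_s t 74 28 1 = true := ex3_b k34_pm_012_s k35_pm_012_s

theorem s205_pm_012_s : ∃ t, chk3 f_pm_012_s t 37 28 1 = true := ex3_a s204_pm_012_s s203_pm_012_s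

theorem s206_pm_012_s : ∃ t, chk3 f_pm_012_s t 18 28 1 = true := ex3_a k33_pm_012_s s205_pm_012_s

theorem s207_pm_012_s : ∃ t, chk3 f_pm_012_s t 18 14 1 = true := ex3_b s206_pm_012_s s202_pm_012_s

theorem s208_pm_012_s : ∃ t, chk3 f_pm_012_s t 18 7 1 = true := ex3_b s207_pm_012_s s199_pm_012_s

theorem s209_pm_012_s : ∃ t, chk3 f_pm_012_s t 9 7 1 = true := ex3_a s208_pm_012_s s198_pm_012_s

theorem s210_pm_012_s : ∃ t, chk3 f_pm_012_s t 34 31 1 = true := ex3_b k30_pm_012_s k31_pm_012_s

theorem s211_pm_012_s : ∃ t, chk3 f_pm_012_s t 17 31 1 = true := ex3_a s210_pm_012_s k32_pm_012_s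

theorem s212_pm_012_s : ∃ t, chk3 f_pm_012_s t 35 30 1 = true := ex3_b k28_pm_012_s k29_pm_012_s

theorem s213_pm_012_s : ∃ t, chk3 f_pm_012_s t 34 61 1 = true := ex3_a k26_pm_012_s k27_pm_012_s

theorem s214_pm_012_s : ∃ t, chk3 f_pm_012_s t 34 30 1 = true := ex3_b k25_pm_012_s s213_pm_012_s

theorem s215_pm_012_s : ∃ t, chk3 f_pm_012_s t 17 30 1 = true := ex3_a s214_pm_012_s s212_pm_012_s

theorem s216_pm_012_s : ∃ t, chk3 f_pm_012_s t 17 15 1 = true := ex3_b s215_pm_012_s s211_pm_012_s

theorem s217_pm_012_s : ∃ t, chk3 f_pm_012_s t 33 63 1 = true := ex3_b k23_pm_012_s k24_pm_012_s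

theorem s218_pm_012_s : ∃ t, chk3 f_pm_012_s t 67 124 1 = true := ex3_a k20_pm_012_s k21_pm_012_s

theorem s219_pm_012_s : ∃ t, chk3 f_pm_012_s t 67 62 1 = true := ex3_b s218_pm_012_s k22_pm_012_s

theorem s220_pm_012_s : ∃ t, chk3 f_pm_012_s t 132 251 1 = true := ex3_b k17_pm_012_s k18_pm_012_s

theorem s221_pm_012_s : ∃ t, chk3 f_pm_012_s t 132 125 1 = true := ex3_b k16_pm_012_s s220_pm_012_s

theorem s222_pm_012_s : ∃ t, chk3 f_pm_012_s t 66 125 1 = true := ex3_a s221_pm_012_s k19_pm_012_s

theorem s223_pm_012_s : ∃ t, chk3 f_pm_012_s t 66 62 1 = true := ex3_b k15_pm_012_s s222_pm_012_s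

theorem s224_pm_012_s : ∃ t, chk3 f_pm_012_s t 33 62 1 = true := ex3_a s223_pm_012_s s219_pm_012_s

theorem s225_pm_012_s : ∃ t, chk3 f_pm_012_s t 33 31 1 = true := ex3_b s224_pm_012_s s217_pm_012_s

theorem s226_pm_012_s : ∃ t, chk3 f_pm_012_s t 16 31 1 = true := ex3_a k14_pm_012_s s225_pm_012_s

theorem s227_pm_012_s : ∃ t, chk3 f_pm_012_s t 16 15 1 = true := ex3_b k13_pm_012_s s226_pm_012_s

theorem s228_pm_012_s : ∃ t, chk3 f_pm_012_s t 8 15 1 = true := ex3_a s227_pm_012_s s216_pm_012_s

theorem s229_pm_012_s : ∃ t, chk3 f_pm_012_s t 8 7 1 = true := ex3_b k12_pm_012_s s228_pm_012_s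

theorem s230_pm_012_s : ∃ t, chk3 f_pm_012_s t 4 7 1 = true := ex3_a s229_pm_012_s s209_pm_012_s

theorem s231_pm_012_s : ∃ t, chk3 f_pm_012_s t 39 55 1 = true := ex3_b k10_pm_012_s k11_pm_012_s

theorem s232_pm_012_s : ∃ t, chk3 f_pm_012_s t 39 27 1 = true := ex3_b k9_pm_012_s s231_pm_012_s

theorem s233_pm_012_s : ∃ t, chk3 f_pm_012_s t 39 13 1 = true := ex3_b k8_pm_012_s s232_pm_012_s

theorem s234_pm_012_s : ∃ t, chk3 f_pm_012_s t 38 55 1 = true := ex3_a k6_pm_012_s k7_pm_012_s

theorem s235_pm_012_s : ∃ t, chk3 f_pm_012_s t 38 27 1 = true := ex3_b k5_pm_012_s s234_pm_012_s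

theorem s236_pm_012_s : ∃ t, chk3 f_pm_012_s t 38 13 1 = true := ex3_b k4_pm_012_s s235_pm_012_s

theorem s237_pm_012_s : ∃ t, chk3 f_pm_012_s t 19 13 1 = true := ex3_a s236_pm_012_s s233_pm_012_s

theorem s238_pm_012_s : ∃ t, chk3 f_pm_012_s t 19 6 1 = true := ex3_b k3_pm_012_s s237_pm_012_s

theorem s239_pm_012_s : ∃ t, chk3 f_pm_012_s t 9 6 1 = true := ex3_a k2_pm_012_s s238_pm_012_s

theorem s240_pm_012_s : ∃ t, chk3 f_pm_012_s t 4 6 1 = true := ex3_a k1_pm_012_s s239_pm_012_s

theorem s241_pm_012_s : ∃ t, chk3 f_pm_012_s t 4 3 1 = true := ex3_b s240_pm_012_s s230_pm_012_s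

theorem s242_pm_012_s : ∃ t, chk3 f_pm_012_s t 4 1 1 = true := ex3_b k0_pm_012_s s241_pm_012_s

theorem s243_pm_012_s : ∃ t, chk3 f_pm_012_s t 2 1 1 = true := ex3_a s242_pm_012_s s191_pm_012_s

theorem s244_pm_012_s : ∃ t, chk3 f_pm_012_s t 1 1 1 = true := ex3_a s243_pm_012_s s128_pm_012_s

theorem c_pm_012_s : CertNE 0 536870912 536870912 536870912 697932185 42949674 3 eng mog cd0q0 cd0q1 pd2 true true false .pnp 0 1 2
    ndB0q0 ndB0q1 pcB2 cut_pm_012_s Ext.none :=
  certNE2 (fam := true) (s1 := true) (s2 := false) (a := 0) (b := 1) (c := 2) (cn := .pnp) (n1 := ndB0q0) (n2 := ndB0q1) (pc := pcB2) (cut := cut_pm_012_s) (xt := Ext.none) (P1 := 0) (W1 := 536870912) (P2 := 536870912) (W2 := 536870912) (P3 := 697932185) (W3 := 42949674) (N0 := 3) (En := eng) (mo := mog) (C1 := cd0q0) (C2 := cd0q1) (C3 := pd2)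
    rfl (fun _ => rfl) s244_pm_012_s

noncomputable def cut_pm_012_t : Cut := Cut.of [[⟨3, 0, 0, 2845415833⟩], [⟨0, 0, 0, 33554432⟩, ⟨1, 1, 0, 33554432⟩, ⟨2, 1, 0, 33554432⟩]]

noncomputable def f_pm_012_t : ℕ → ℕ → ℕ → ℕ → Bool := onCell 0 536870912 536870912 536870912 697932185 42949674
    (rowNE 3 eng mog cd0q0 cd0q1 pd2 0 true true false .pnp 0 1 2 (qsf 0 536870912 536870912 536870912 2) ndB0q0 ndB0q1 pcB2 cut_pm_012_t Ext.none)

def k0_pm_012_t : ∃ t, chk3 f_pm_012_t t 1 1 1 = true :=
  ⟨(l 6), by decide +kernel⟩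

theorem c_pm_012_t : CertNE 0 536870912 536870912 536870912 697932185 42949674 3 eng mog cd0q0 cd0q1 pd2 true true false .pnp 0 1 2
    ndB0q0 ndB0q1 pcB2 cut_pm_012_t Ext.none :=
  certNE0 (fam := true) (s1 := true) (s2 := false) (a := 0) (b := 1) (c := 2) (cn := .pnp) (n1 := ndB0q0) (n2 := ndB0q1) (pc := pcB2) (cut := cut_pm_012_t) (xt := Ext.none) (P1 := 0) (W1 := 536870912) (P2 := 536870912) (W2 := 536870912) (P3 := 697932185) (W3 := 42949674) (N0 := 3) (En := eng) (mo := mog) (C1 := cd0q0) (C2 := cd0q1) (C3 := pd2)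
    rfl k0_pm_012_t

noncomputable def cut_pm_022_s : Cut := Cut.of [[⟨4, 0, 0, 1449551462⟩], [⟨0, 0, 0, 67108864⟩, ⟨1, 1, 0, 67108864⟩, ⟨2, 1, 0, 67108864⟩]]

noncomputable def f_pm_022_s : ℕ → ℕ → ℕ → ℕ → Bool := onCell 1073741824 536870912 0 536870912 697932185 42949674
    (rowNE 3 eng mog cd0q0 cd0q2 pd2 2 true true false .pp 0 2 2 (qsf 0 536870912 0 536870912 2) ndB0q0 ndB0q2 pcB2 cut_pm_022_s Ext.none)

def k0_pm_022_s : ∃ t, chk3 f_pm_022_s t 8 1 1 = true :=
  ⟨(b (l 1) (b (l 1) (b (a (l 1) (b (a (l 1) (b (l 1) (a (l 1) (l 16630144)))) (a (l 14) (a (l 14) (a (l 14) (b (l 16646896) (l 16663136))))))) (a (l 14) (a (l 14) (a (l 14) (a (l 14) (a (l 14) (b (b (l 16678408) (l 16690704)) (b (l 16672904) (b (l 16695488) (b (l 16695936) (l 16696072))))))))))))), by decide +kernel⟩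

def k1_pm_022_s : ∃ t, chk3 f_pm_022_s t 9 2 1 = true :=
  ⟨(l 6), by decide +kernel⟩

def k2_pm_022_s : ∃ t, chk3 f_pm_022_s t 9 6 1 = true :=
  ⟨(b (a (l 1) (l 6)) (a (b (a (l 1) (b (a (l 1) (l 16550800)) (a (l 16563648) (l 16566480)))) (a (a (l 1) (b (l 16578712) (l 16596544))) (b (a (l 16580872) (l 16582552)) (a (l 16597528) (l 16556160))))) (b (a (b (a (l 16554240) (l 6)) (a (l 16568848) (l 16507864))) (l 6)) (a (a (b (l 16520920) (l 16598344)) (b (l 16584744) (l 16598272))) (a (l 16549808) (l 16591528)))))), by decide +kernel⟩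

def k3_pm_022_s : ∃ t, chk3 f_pm_022_s t 9 7 1 = true :=
  ⟨(b (a (b (a (b (a (l 16612944) (l 16613216)) (a (l 16629704) (l 16628904))) (a (b (l 16571176) (l 16627784)) (b (l 16612664) (l 16626392)))) (b (a (a (l 16645704) (l 16643880)) (l 16640672)) (a (a (l 16661176) (l 16658408)) (l 16653008)))) (b (a (b (l 16611448) (l 16623872)) (b (l 16602808) (l 16607920))) (a (b (l 16630168) (l 16634744)) (a (b (l 16617024) (l 16621408)) (b (l 16608536) (l 16612784)))))) (b (a (a (b (c (l 16674832) (l 16672888)) (a (l 16684656) (l 16675016))) (b (a (l 16661824) (l 16652480)) (a (b (l 16664576) (l 16666216)) (b (l 16655112) (l 16656680))))) (a (b (a (l 16643192) (l 16634064)) (a (l 16646520) (l 16637240))) (b (a (l 16625104) (l 16616376)) (a (l 16628176) (l 16619328))))) (a (b (a (a (b (l 16687080) (l 16688392)) (b (l 16677368) (l 16678584))) (a (b (l 16667664) (l 16668808)) (b (l 16658032) (l 16659112)))) (a (b (a (c (l 16689800) (l 16688936)) (c (l 16680048) (l 16678920))) (a (a (b (l 16692216) (l 16697568))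 (b (l 16687232) (l 16687320))) (b (c (l 16680664) (l 16678968)) (c (l 16680904) (l 16678824))))) (b (a (l 16680064) (l 16659832)) (b (a (l 16680352) (l 16660080)) (a (c (l 16671112) (l 16668760)) (c (l 16661456) (l 16658800))))))) (a (b (a (b (l 16648512) (l 16649536)) (b (l 16639168) (l 16640120))) (b (a (l 16650192) (l 16640712)) (b (a (l 16650392) (l 16640856)) (a (c (l 16651880) (l 16648928)) (c (l 16642472) (l 16639200)))))) (b (a (l 16651480) (b (l 16621056) (l 16621872))) (a (b (l 16631416) (c (l 16633216) (b (l 16629944) (l 16629648)))) (b (c (l 16623872) (l 16620888)) (c (a (l 16626400) (l 16621952)) (b (l 16620632) (l 16620288)))))))))), by decide +kernel⟩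

def k4_pm_022_s : ∃ t, chk3 f_pm_022_s t 5 2 1 = true :=
  ⟨(l 6), by decide +kernel⟩

def k5_pm_022_s : ∃ t, chk3 f_pm_022_s t 5 6 1 = true :=
  ⟨(a (a (b (l 6) (a (b (l 6) (a (l 16583712) (l 6))) (l 6))) (l 6)) (l 6)), by decide +kernel⟩

def k6_pm_022_s : ∃ t, chk3 f_pm_022_s t 10 14 1 = true :=
  ⟨(a (a (b (a (l 16608976) (b (l 16583000) (l 16587824))) (b (a (l 16600304) (l 16592424)) (l 16621536))) (a (b (b (l 16575792) (l 16580552)) (b (l 16585080) (l 16589040))) (a (b (l 16594288) (l 16582168)) (b (a (l 16592368) (c (l 16590288) (l 16520360))) (a (l 16580312) (b (l 16577656) (l 16602648))))))) (a (b (l 6) (a (l 16596072) (a (l 16569432) (l 16586872)))) (b (l 6) (b (l 6) (l 16562328))))), by decide +kernel⟩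

def k7_pm_022_s : ∃ t, chk3 f_pm_022_s t 10 15 1 = true :=
  ⟨(a (a (b (b (a (l 16607936) (l 16599840)) (a (l 16610752) (l 16602528))) (b (a (l 16612800) (b (l 16604048) (l 16604720))) (a (b (l 16613480) (c (l 16615424) (b (l 16611600) (l 16611216)))) (b (l 16604992) (c (l 16606936) (b (l 16602920) (l 16602472))))))) (a (b (b (l 16592304) (l 16594880)) (b (b (l 16596312) (l 16596888)) (b (a (l 16598872) (l 16595056)) (a (c (l 16600776) (l 16596432)) (c (l 16596888) (l 16592552)))))) (b (a (b (l 16587216) (l 16589736)) (a (b (l 16585392) (l 16587920)) (b (c (l 16605984) (l 16606368)) (b (l 16607952) (c (l 16609680) (l 16608824)))))) (b (a (l 16612360) (a (l 16610536) (a (a (a (l 16589280) (a (l 16589520) (l 16589928))) (l 16589600)) (l 16588808)))) (b (a (l 16591656) (a (c (l 16591464) (l 16588344)) (a (a (a (l 16589504) (a (l 16589752) (l 16590184))) (l 16589848)) (l 16589024)))) (a (c (a (l 16594128) (l 16592456)) (a (l 16589864) (l 16588328))) (a (a (l 16589304) (a (l 16588960) (l 16588872))) (a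 (a (a (l 16588976) (a (l 16589240) (a (a (l 16589504) (b (l 16589912) (l 16589504))) (l 16589648)))) (l 16589336)) (l 16588496))))))))) (b (a (b (a (l 16580128) (l 16593312)) (a (l 16582560) (a (l 16576440) (l 16572504)))) (b (l 16564264) (l 16586248))) (a (b (a (l 16605016) (a (l 16577640) (b (l 16573368) (l 16573488)))) (b (a (l 16584096) (a (l 16577472) (a (l 16574136) (l 16572120)))) (a (c (l 16585296) (l 16581848)) (a (c (l 16578744) (l 16574800)) (a (l 16573232) (l 16592096)))))) (b (b (l 16565328) (l 16585864)) (b (a (l 16567616) (l 16560240)) (a (c (l 16568776) (l 16564080)) (c (l 16561184) (l 16555912)))))))), by decide +kernel⟩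

def k8_pm_022_s : ∃ t, chk3 f_pm_022_s t 11 7 1 = true :=
  ⟨(b (l 6) (b (a (a (b (l 16553944) (l 16553288)) (l 6)) (l 6)) (a (b (a (b (l 16552040) (l 16571584)) (a (l 16540696) (l 6))) (a (b (a (l 16552664) (l 16544936)) (a (c (l 16553424) (l 16547512)) (c (l 16545664) (l 16539088)))) (b (a (l 16537224) (l 16529680)) (a (c (l 16537968) (l 16530720)) (c (l 16530480) (l 16522600)))))) (b (l 6) (a (b (l 6) (a (c (l 16523168) (l 16514696)) (l 6))) (l 6)))))), by decide +kernel⟩

def k9_pm_022_s : ∃ t, chk3 f_pm_022_s t 3 1 1 = true :=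
  ⟨(b (l 6) (l 6)), by decide +kernel⟩

theorem s10_pm_022_s : ∃ t, chk3 f_pm_022_s t 10 7 1 = true := ex3_b k6_pm_022_s k7_pm_022_s

theorem s11_pm_022_s : ∃ t, chk3 f_pm_022_s t 5 7 1 = true := ex3_a s10_pm_022_s k8_pm_022_s

theorem s12_pm_022_s : ∃ t, chk3 f_pm_022_s t 5 3 1 = true := ex3_b k5_pm_022_s s11_pm_022_s

theorem s13_pm_022_s : ∃ t, chk3 f_pm_022_s t 5 1 1 = true := ex3_b k4_pm_022_s s12_pm_022_s

theorem s14_pm_022_s : ∃ t, chk3 f_pm_022_s t 9 3 1 = true := ex3_b k2_pm_022_s k3_pm_022_s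

theorem s15_pm_022_s : ∃ t, chk3 f_pm_022_s t 9 1 1 = true := ex3_b k1_pm_022_s s14_pm_022_s

theorem s16_pm_022_s : ∃ t, chk3 f_pm_022_s t 4 1 1 = true := ex3_a k0_pm_022_s s15_pm_022_s

theorem s17_pm_022_s : ∃ t, chk3 f_pm_022_s t 2 1 1 = true := ex3_a s16_pm_022_s s13_pm_022_s

theorem s18_pm_022_s : ∃ t, chk3 f_pm_022_s t 1 1 1 = true := ex3_a s17_pm_022_s k9_pm_022_s

theorem c_pm_022_s : CertNE 0 536870912 0 536870912 697932185 42949674 3 eng mog cd0q0 cd0q2 pd2 true true false .pp 0 2 2
    ndB0q0 ndB0q2 pcB2 cut_pm_022_s Ext.none :=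
  certNE2 (fam := true) (s1 := true) (s2 := false) (a := 0) (b := 2) (c := 2) (cn := .pp) (n1 := ndB0q0) (n2 := ndB0q2) (pc := pcB2) (cut := cut_pm_022_s) (xt := Ext.none) (P1 := 0) (W1 := 536870912) (P2 := 0) (W2 := 536870912) (P3 := 697932185) (W3 := 42949674) (N0 := 3) (En := eng) (mo := mog) (C1 := cd0q0) (C2 := cd0q2) (C3 := pd2)
    rfl (fun _ => rfl) s18_pm_022_s

noncomputable def cut_pm_022_t : Cut := Cut.of [[⟨3, 0, 0, 2845415833⟩], [⟨0, 0, 0, 67108864⟩, ⟨1, 1, 0, 67108864⟩, ⟨2, 1, 0, 67108864⟩]]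

noncomputable def f_pm_022_t : ℕ → ℕ → ℕ → ℕ → Bool := onCell 1073741824 536870912 0 536870912 697932185 42949674
    (rowNE 3 eng mog cd0q0 cd0q2 pd2 2 true true false .pp 0 2 2 (qsf 0 536870912 0 536870912 2) ndB0q0 ndB0q2 pcB2 cut_pm_022_t Ext.none)

def k0_pm_022_t : ∃ t, chk3 f_pm_022_t t 1 1 1 = true :=
  ⟨(a (l 6) (b (l 6) (l 6))), by decide +kernel⟩

theorem c_pm_022_t : CertNE 0 536870912 0 536870912 697932185 42949674 3 eng mog cd0q0 cd0q2 pd2 true true false .pp 0 2 2
    ndB0q0 ndB0q2 pcB2 cut_pm_022_t Ext.none :=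
  certNE2 (fam := true) (s1 := true) (s2 := false) (a := 0) (b := 2) (c := 2) (cn := .pp) (n1 := ndB0q0) (n2 := ndB0q2) (pc := pcB2) (cut := cut_pm_022_t) (xt := Ext.none) (P1 := 0) (W1 := 536870912) (P2 := 0) (W2 := 536870912) (P3 := 697932185) (W3 := 42949674) (N0 := 3) (En := eng) (mo := mog) (C1 := cd0q0) (C2 := cd0q2) (C3 := pd2)
    rfl (fun _ => rfl) k0_pm_022_t

noncomputable def cut_pm_023_s : Cut := Cut.of [[⟨4, 0, 0, 1449551462⟩]]

noncomputable def f_pm_023_s : ℕ → ℕ → ℕ → ℕ → Bool := onCell 1610612736 536870912 0 536870912 697932185 42949674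
    (rowNE 3 eng mog cd0q0 cd0q2 pd3 2 true true false .up 0 2 3 (qsf 0 536870912 0 536870912 3) ndB0q0 ndB0q2 pcB3 cut_pm_023_s Ext.none)

def k0_pm_023_s : ∃ t, chk3 f_pm_023_s t 1 1 1 = true :=
  ⟨(l 6), by decide +kernel⟩

theorem c_pm_023_s : CertNE 0 536870912 0 536870912 697932185 42949674 3 eng mog cd0q0 cd0q2 pd3 true true false .up 0 2 3
    ndB0q0 ndB0q2 pcB3 cut_pm_023_s Ext.none :=
  certNE2 (fam := true) (s1 := true) (s2 := false) (a := 0) (b := 2) (c := 3) (cn := .up) (n1 := ndB0q0) (n2 := ndB0q2) (pc := pcB3) (cut := cut_pm_023_s) (xt := Ext.none) (P1 := 0) (W1 := 536870912) (P2 := 0) (W2 := 536870912) (P3 := 697932185) (W3 := 42949674) (N0 := 3) (En := eng) (mo := mog) (C1 := cd0q0) (C2 := cd0q2) (C3 := pd3)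
    rfl (fun _ => rfl) k0_pm_023_s

noncomputable def cut_pm_023_t : Cut := Cut.of [[⟨3, 0, 0, 2845415833⟩]]

noncomputable def f_pm_023_t : ℕ → ℕ → ℕ → ℕ → Bool := onCell 0 536870912 0 536870912 697932185 42949674
    (rowNE 3 eng mog cd0q0 cd0q2 pd3 0 true true false .up 0 2 3 (qsf 0 536870912 0 536870912 3) ndB0q0 ndB0q2 pcB3 cut_pm_023_t Ext.none)

def k0_pm_023_t : ∃ t, chk3 f_pm_023_t t 1 1 1 = true :=
  ⟨(a (l 1) (b (a (b (a (l 1) (a (l 6) (b (a (l 6) (l 16656792)) (l 6)))) (l 6)) (a (b (b (a (l 16647216) (l 16701832)) (l 6)) (l 6)) (b (a (b (b (l 16696336) (l 16679920)) (l 16651064)) (b (b (l 16721208) (l 16707832)) (l 16707560))) (l 6)))) (l 6))), by decide +kernel⟩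

theorem c_pm_023_t : CertNE 0 536870912 0 536870912 697932185 42949674 3 eng mog cd0q0 cd0q2 pd3 true true false .up 0 2 3
    ndB0q0 ndB0q2 pcB3 cut_pm_023_t Ext.none :=
  certNE0 (fam := true) (s1 := true) (s2 := false) (a := 0) (b := 2) (c := 3) (cn := .up) (n1 := ndB0q0) (n2 := ndB0q2) (pc := pcB3) (cut := cut_pm_023_t) (xt := Ext.none) (P1 := 0) (W1 := 536870912) (P2 := 0) (W2 := 536870912) (P3 := 697932185) (W3 := 42949674) (N0 := 3) (En := eng) (mo := mog) (C1 := cd0q0) (C2 := cd0q2) (C3 := pd3)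
    rfl k0_pm_023_t

noncomputable def cut_pm_101_s : Cut := Cut.of [[⟨4, 0, 0, 1449551462⟩], [⟨0, 1, 0, 67108864⟩, ⟨1, 0, 0, 67108864⟩, ⟨2, 1, 0, 67108864⟩]]

noncomputable def f_pm_101_s : ℕ → ℕ → ℕ → ℕ → Bool := onCell 536870912 536870912 536870912 536870912 697932185 42949674
    (rowNE 3 eng mog cd0q1 cd0q0 pd1 1 true true false .npn 1 0 1 (qsf 536870912 536870912 0 536870912 1) ndB0q1 ndB0q0 pcB1 cut_pm_101_s Ext.none)

def k0_pm_101_s : ∃ t, chk3 f_pm_101_s t 1 1 1 = true :=
  ⟨(b (l 3) (a (l 3) (b (l 3) (a (l 3) (b (l 3) (a (l 3) (b (l 3) (a (l 3) (l 14))))))))), by decide +kernel⟩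

theorem c_pm_101_s : CertNE 536870912 536870912 0 536870912 697932185 42949674 3 eng mog cd0q1 cd0q0 pd1 true true false .npn 1 0 1
    ndB0q1 ndB0q0 pcB1 cut_pm_101_s Ext.none :=
  certNE1 (fam := true) (s1 := true) (s2 := false) (a := 1) (b := 0) (c := 1) (cn := .npn) (n1 := ndB0q1) (n2 := ndB0q0) (pc := pcB1) (cut := cut_pm_101_s) (xt := Ext.none) (P1 := 536870912) (W1 := 536870912) (P2 := 0) (W2 := 536870912) (P3 := 697932185) (W3 := 42949674) (N0 := 3) (En := eng) (mo := mog) (C1 := cd0q1) (C2 := cd0q0) (C3 := pd1)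
    rfl (fun _ => rfl) k0_pm_101_s

noncomputable def cut_pm_101_t : Cut := Cut.of [[⟨3, 0, 0, 2845415833⟩], [⟨0, 1, 0, 67108864⟩, ⟨1, 0, 0, 67108864⟩, ⟨2, 1, 0, 67108864⟩]]

noncomputable def f_pm_101_t : ℕ → ℕ → ℕ → ℕ → Bool := onCell 536870912 536870912 0 536870912 697932185 42949674
    (rowNE 3 eng mog cd0q1 cd0q0 pd1 0 true true false .npn 1 0 1 (qsf 536870912 536870912 0 536870912 1) ndB0q1 ndB0q0 pcB1 cut_pm_101_t Ext.none)

def k0_pm_101_t : ∃ t, chk3 f_pm_101_t t 1 1 1 = true :=
  ⟨(l 6), by decide +kernel⟩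

theorem c_pm_101_t : CertNE 536870912 536870912 0 536870912 697932185 42949674 3 eng mog cd0q1 cd0q0 pd1 true true false .npn 1 0 1
    ndB0q1 ndB0q0 pcB1 cut_pm_101_t Ext.none :=
  certNE0 (fam := true) (s1 := true) (s2 := false) (a := 1) (b := 0) (c := 1) (cn := .npn) (n1 := ndB0q1) (n2 := ndB0q0) (pc := pcB1) (cut := cut_pm_101_t) (xt := Ext.none) (P1 := 536870912) (W1 := 536870912) (P2 := 0) (W2 := 536870912) (P3 := 697932185) (W3 := 42949674) (N0 := 3) (En := eng) (mo := mog) (C1 := cd0q1) (C2 := cd0q0) (C3 := pd1)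
    rfl k0_pm_101_t

end Pool.Agent.Strip051.G.I6500_6900.Tab.CS.BA00

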