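import Pool.Agent.Strip051.G.I6500_6900.Tab
import Pool.Agent.Strip051.PB.StripB

/-! # Strips, near vertex: certificates 2 (generated) -/

set_option linter.all false
set_option maxRecDepth 100000

namespace Pool.Agent.Strip051.G.I6500_6900.Tab.CS.BA00

open Pool.Agent.Strip051.PB Pool.Agent.Strip051.PB.T
open Pool.Agent.Strip051.G.I6500_6900.Tab

noncomputable def cut_pm_102_s : Cut := Cut.of [[⟨4, 0, 0, 1449551462⟩], [⟨0, 1, 0, 33554432⟩, ⟨1, 0, 0, 33554432⟩, ⟨2, 1, 0, 33554432⟩]]

noncomputable def f_pm_102_s : ℕ → ℕ → ℕ → ℕ → Bool := onCell 536870912 536870912 1073741824 536870912 697932185 42949674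
    (rowNE 3 eng mog cd0q1 cd0q0 pd2 1 true true false .npp 1 0 2 (qsf 536870912 536870912 0 536870912 2) ndB0q1 ndB0q0 pcB2 cut_pm_102_s Ext.none)

def k0_pm_102_s : ∃ t, chk3 f_pm_102_s t 2 4 1 = true :=
  ⟨(b (l 3) (l 3)), by decide +kernel⟩

def k1_pm_102_s : ∃ t, chk3 f_pm_102_s t 2 40 1 = true :=
  ⟨(a (l 3) (a (l 3) (b (l 3) (a (l 3) (b (a (l 3) (a (l 3) (b (l 3) (a (l 233169751607) (l 105394475815))))) (a (b (l 3) (b (a (l 3) (a (l 3) (l 169818983047))) (a (a (l 3) (l 278266904439)) (a (c (l 16778400) (l 16778392)) (l 16776144))))) (b (a (b (l 225653558327) (a (l 187535722919) (l 16776496))) (c (l 16779416) (l 16778152))) (a (b (l 16778440) (l 16774616)) (l 16778424))))))))), by decide +kernel⟩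

def k2_pm_102_s : ∃ t, chk3 f_pm_102_s t 4 41 1 = true :=
  ⟨(l 2), by decide +kernel⟩

def k3_pm_102_s : ∃ t, chk3 f_pm_102_s t 10 82 1 = true :=
  ⟨(a (l 3) (b (l 3) (a (l 3) (b (l 3) (b (a (l 3) (a (l 3) (b (l 3) (a (l 157470951015) (l 94657054599))))) (b (a (l 3) (c (a (l 130627405831) (l 16776936)) (a (l 119353116727) (l 16776896)))) (a (a (l 3) (l 116668763015)) (c (c (l 16778032) (l 16777992)) (c (l 16777960) (l 16777928)))))))))), by decide +kernel⟩

def k4_pm_102_s : ∃ t, chk3 f_pm_102_s t 22 164 1 = true :=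
  ⟨(a (l 3) (a (b (l 3) (b (b (l 3) (a (l 3) (a (l 3) (c (l 202031235911) (l 182703883287))))) (a (b (l 3) (a (c (l 225116684311) (l 213842394999)) (b (c (l 164987142871) (l 149954757383)) (c (l 32380027575) (l 16777552))))) (b (a (b (l 3) (a (l 167671497511) (l 16777648))) (b (c (l 16777792) (l 16777792)) (l 16776832))) (a (c (l 16777464) (l 16777440)) (b (l 16777168) (l 16776200))))))) (a (b (l 3) (b (b (a (l 3) (c (l 152639112311) (a (l 157470950311) (l 16777848)))) (a (c (a (l 95193924503) (l 16777056)) (a (l 83382764503) (l 16777048))) (c (l 16776728) (l 16776704)))) (a (c (c (l 16776272) (l 16776240)) (c (l 16776208) (l 16776184))) (c (l 16776800) (l 16776712))))) (b (b (l 3) (b (l 279340647703) (a (l 229948524119) (l 38285608855)))) (b (a (b (a (l 16777648) (l 16776768)) (l 16777560)) (b (l 16776408) (l 16775776))) (c (l 16776632) (l 16776704))))))), by decide +kernel⟩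

def k5_pm_102_s : ∃ t, chk3 f_pm_102_s t 44 165 1 = true :=
  ⟨(a (a (b (l 3) (b (b (a (l 150491629207) (a (l 101099505063) (l 16777808))) (c (l 16776848) (l 16776808))) (c (c (l 16776104) (l 16776032)) (c (l 16775960) (l 16775888))))) (b (b (l 3) (b (l 3) (a (c (l 147270403175) (l 134385501351)) (c (l 16777784) (l 16777776))))) (c (b (b (c (l 16776752) (l 16776728)) (l 16776200)) (c (l 16775512) (l 16775400))) (b (b (c (l 16776704) (l 16776688)) (l 16776088)) (c (l 16775288) (l 16775184)))))) (b (a (b (b (l 3) (a (l 3) (c (l 176261432263) (l 161765917751)))) (a (b (b (l 171966464919) (a (l 16777856) (l 16777120))) (a (l 16777512) (l 16777328))) (b (b (a (l 16777688) (l 16777048)) (l 16777496)) (c (l 16776424) (l 16776352))))) (b (b (b (l 3) (a (l 3) (a (c (l 163376529911) (l 149954757127)) (c (l 62444798439) (l 51170509367))))) (a (b (c (l 135996113639) (l 124721824503)) (c (l 16777064) (l 16777048))) (a (b (a (l 16777448) (l 16777024)) (l 16777088)) (c (l 16776728) (l 16776696))))) (b (a (c (l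 16776624) (l 16776576)) (c (l 16776248) (l 16776168))) (c (c (l 16775912) (l 16775848)) (c (l 16775784) (l 16775728)))))) (c (b (a (b (l 16776056) (l 16775536)) (c (l 16775824) (l 16775864))) (a (c (l 16774912) (l 16774760)) (a (l 16776984) (l 16776664)))) (b (a (b (l 16775936) (l 16775352)) (c (l 16775920) (l 16775480))) (a (c (l 16774608) (l 16774456)) (c (l 16773904) (l 16773712))))))), by decide +kernel⟩

def k6_pm_102_s : ∃ t, chk3 f_pm_102_s t 45 165 1 = true :=
  ⟨(b (b (a (a (b (a (b (c (c (l 103783858743) (l 97341407847)) (a (l 128479920679) (l 16777072))) (c (l 16776880) (l 16776856))) (c (l 16776624) (l 16776584))) (c (c (l 16776912) (l 16776872)) (c (l 16776832) (l 16776800)))) (a (c (b (l 16776216) (l 16775640)) (c (l 16777160) (l 16777112))) (c (l 16776416) (l 16776368)))) (c (a (c (l 16776264) (l 16776168)) (l 16775384)) (a (c (l 16776072) (l 16775992)) (l 16775136)))) (a (b (a (c (a (l 16775864) (l 16775488)) (c (l 16776888) (l 16776824))) (c (l 16774904) (l 16776016))) (c (a (c (l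 16775200) (l 16775096)) (l 16774400)) (a (c (l 16775000) (l 16774904)) (l 16774128)))) (c (a (l 16774656) (l 16773104)) (a (l 16774712) (l 16772704))))) (a (c (b (a (a (b (l 16776136) (l 16774360)) (l 16774320)) (c (l 16773808) (l 16773600))) (a (b (l 16775728) (l 16774680)) (c (l 16773056) (l 16775376)))) (b (a (b (l 16775032) (l 16773840)) (c (l 16773408) (l 16773216))) (a (c (l 16773192) (l 16772960)) (a (l 16772512) (l 16772136))))) (c (b (a (l 16772984) (l 16772256)) (a (c (l 16772408) (l 16772056)) (c (l 16771736) (l 16771344)))) (b (a (l 16772504) (l 16771680)) (a (l 16771552) (c (l 16773584) (l 16770592))))))), by decide +kernel⟩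

def k7_pm_102_s : ∃ t, chk3 f_pm_102_s t 23 82 1 = true :=
  ⟨(b (a (b (b (a (a (a (l 3) (l 220284848535)) (c (l 53317994743) (l 45801802119))) (c (l 16775432) (l 16775384))) (a (a (a (b (l 71571605335) (l 16776560)) (l 16777696)) (l 16778264)) (l 16777120))) (a (a (c (b (l 16775416) (l 16774280)) (b (l 16775320) (l 16774080))) (c (l 16776216) (l 16776336))) (c (l 16775856) (l 16775568)))) (b (a (c (l 16775536) (l 16775384)) (c (l 16771120) (l 16770888))) (a (c (l 16773496) (l 16773104)) (c (l 16769304) (l 16768920))))) (a (b (b (a (c (l 16774784) (l 16774416)) (l 16776128)) (a (c (l 16774536) (l 16774008)) (a (l 16770400) (l 16769624)))) (b (a (a (a (l 16771368) (l 16770984)) (l 16770376)) (c (l 16774816) (l 16768904))) (a (a (c (c (l 16770976) (l 16770568)) (l 16769984)) (l 16769560)) (l 16773600)))) (b (a (c (l 16775120) (l 16768688)) (l 16767528)) (a (l 16767248) (l 16776192))))), by decide +kernel⟩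

def k8_pm_102_s : ∃ t, chk3 f_pm_102_s t 10 166 1 = true :=
  ⟨(a (b (l 3) (a (l 2) (a (l 2) (b (b (l 3) (c (l 16778808) (l 100025764599))) (b (c (l 16777000) (l 16776960)) (a (l 16776768) (l 16776472))))))) (a (b (b (b (l 3) (a (l 3) (c (l 129553665831) (l 136532987639)))) (b (a (l 3) (a (l 109689441175) (l 16778320))) (a (c (l 126332439575) (l 122037472471)) (c (l 16778104) (l 16778032))))) (c (b (a (a (l 66202897735) (l 16776768)) (a (l 16776384) (l 16775952))) (a (c (l 16776256) (l 16776176)) (a (l 16774336) (l 16775208)))) (b (a (a (l 59223575831) (l 16776688)) (a (l 16776248) (l 16775768))) (a (c (l 16776096) (l 16776008)) (c (l 16775896) (l 16775768)))))) (a (a (b (c (b (b (l 16778472) (l 16777032)) (l 16776312)) (b (b (l 16778400) (l 16777000)) (l 16776192))) (b (b (l 16775568) (l 16775152)) (b (l 16774752) (l 16774360)))) (b (b (b (c (l 16777024) (l 16776984)) (l 16776464)) (c (l 16775800) (l 16778240))) (b (b (l 16775032) (l 16774616)) (b (l 16779456) (l 16773816))))) (a (b (b (b (a (l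 16776576) (l 16776280)) (l 16776928)) (b (l 16775400) (l 16774928))) (b (a (l 16774088) (l 16773480)) (b (l 16773664) (l 16778512)))) (b (b (b (a (l 16775984) (l 16775688)) (l 16775984)) (b (l 16774832) (l 16774368))) (c (b (l 16776536) (l 16777016)) (b (l 16773520) (l 16777904)))))))), by decide +kernel⟩

def k9_pm_102_s : ∃ t, chk3 f_pm_102_s t 22 332 1 = true :=
  ⟨(a (b (b (a (c (a (l 16775368) (l 16774800)) (a (l 16775104) (l 16774448))) (c (a (l 16773240) (l 16773632)) (a (l 16773784) (l 16773096)))) (a (a (l 16774744) (a (l 16774304) (l 16774000))) (c (a (l 16773792) (l 16773216)) (a (l 16770664) (l 16772616))))) (a (c (a (l 16774216) (l 16776288)) (a (l 16773824) (l 16773200))) (c (a (c (l 16773248) (l 16772968)) (c (l 16775312) (l 16774984))) (a (l 16775176) (c (l 16774672) (l 16774368)))))) (a (c (b (b (a (c (l 16773184) (l 16772864)) (l 16772400)) (a (l 16772624) (c (l 16772200) (l 16771800)))) (b (a (l 16773464) (a (l 16771648) (l 16771256))) (a (l 16774232) (l 16770800)))) (b (b (c (a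 (l 16772544) (l 16771848)) (a (l 16772232) (l 16771488))) (a (l 16774544) (c (l 16771400) (l 16771016)))) (a (b (l 16774064) (l 16773576)) (c (b (l 16770896) (l 16770336)) (l 16772912))))) (a (c (b (c (b (l 16771952) (l 16771480)) (b (l 16771536) (l 16771064))) (l 16772904)) (b (c (b (l 16771120) (l 16770664)) (b (l 16770720) (l 16770272))) (l 16772296))) (c (b (a (b (l 16771200) (l 16770632)) (l 16775728)) (l 16769416)) (b (b (l 16772776) (l 16769672)) (l 16768872)))))), by decide +kernel⟩

def k10_pm_102_s : ∃ t, chk3 f_pm_102_s t 22 333 1 = true :=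
  ⟨(b (a (b (a (c (l 16775928) (l 16772832)) (c (a (l 16772448) (l 16771768)) (c (l 16774280) (l 16774008)))) (a (a (l 16778184) (c (l 16772600) (l 16772080))) (a (a (l 16771832) (l 16771464)) (l 16770880)))) (a (c (a (l 16770640) (c (l 16769920) (l 16769696))) (a (l 16771472) (c (l 16769480) (l 16769280)))) (a (c (l 16768960) (l 16771208)) (b (l 16768240) (l 16767632))))) (a (a (c (a (l 16776368) (l 16774344)) (a (l 16777256) (l 16773928))) (a (b (l 16771056) (l 16770448)) (b (l 16770280) (l 16769664)))) (a (a (b (l 16769488) (l 16768864)) (c (c (l 16768536) (l 16768416)) (c (l 16768304) (l 16768192)))) (c (a (l 16770248) (l 16766776)) (a (l 16770056) (l 16766600)))))), by decide +kernel⟩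

def k11_pm_102_s : ∃ t, chk3 f_pm_102_s t 23 166 1 = true :=
  ⟨(a (b (b (a (a (c (l 16775064) (l 16774352)) (l 16773856)) (c (l 16772872) (l 16772352))) (a (c (l 16773344) (a (l 16768056) (l 16767232))) (l 16771424))) (b (a (c (l 16772032) (l 16771768)) (l 16770208)) (a (c (l 16770712) (l 16770576)) (l 16768952)))) (b (a (b (l 16776208) (l 16764528)) (c (l 16774016) (l 16758176))) (a (b (l 16763312) (l 16762048)) (l 16761024)))), by decide +kernel⟩

def k12_pm_102_s : ∃ t, chk3 f_pm_102_s t 20 167 1 = true :=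
  ⟨(a (l 2) (a (l 2) (b (b (b (a (l 16776432) (l 16776128)) (c (l 16776032) (l 16775856))) (a (l 2) (b (l 16775448) (l 16773096)))) (a (l 2) (b (b (b (l 16774704) (b (l 16774488) (c (l 16769304) (l 16768800)))) (l 16774064)) (l 16773584)))))), by decide +kernel⟩

def k13_pm_102_s : ∃ t, chk3 f_pm_102_s t 21 167 1 = true :=
  ⟨(b (b (b (a (a (c (l 16775712) (l 16775480)) (a (l 16774976) (l 16774496))) (a (a (l 16773976) (l 16778648)) (c (l 16775240) (l 16777496)))) (a (a (a (l 16772816) (l 16775048)) (a (l 16774600) (a (l 16774240) (l 16779216)))) (a (c (a (l 16773712) (l 16773064)) (a (l 16773360) (l 16772712))) (c (l 16773296) (l 16769056))))) (b (a (a (a (l 16775080) (l 16772040)) (c (l 16779312) (l 16778984))) (a (c (l 16775416) (l 16777720)) (c (l 16771360) (l 16771080)))) (a (a (a (l 16772520) (a (l 16774312) (l 16774048))) (c (l 16769920) (l 16770560))) (a (c (a (l 16772568) (l 16771880)) (a (l 16772216) (l 16771528))) (c (a (l 16771176) (l 16770456)) (a (l 16770824) (l 16770096))))))) (b (b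 (b (a (a (c (l 16774200) (l 16773840)) (c (l 16773144) (l 16772704))) (a (c (l 16777104) (l 16776608)) (c (l 16775720) (l 16775176)))) (b (a (a (c (l 16774024) (l 16773552)) (c (l 16772968) (l 16772392))) (a (a (l 16776952) (l 16776256)) (c (l 16770344) (l 16774824)))) (a (a (c (a (l 16768880) (l 16768408)) (l 16771968)) (c (a (l 16769192) (l 16767952)) (a (l 16767160) (l 16766512)))) (a (c (c (c (l 16777136) (l 16776920)) (l 16776600)) (a (l 16765816) (l 16765088))) (c (c (c (l 16775840) (l 16770344)) (l 16775208)) (a (l 16774840) (l 16774088))))))) (a (a (a (l 16773600) (l 16773080)) (c (l 16772600) (l 16771800))) (a (c (l 16771328) (l 16770408)) (c (l 16769960) (l 16768920))))) (a (a (l 16772856) (l 16776968)) (a (c (l 16770840) (l 16769936)) (c (l 16769480) (l 16768456)))))), by decide +kernel⟩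

def k14_pm_102_s : ∃ t, chk3 f_pm_102_s t 22 334 1 = true :=
  ⟨(b (b (a (a (c (l 16771128) (l 16770832)) (c (l 16769536) (l 16771936))) (a (a (l 16768224) (a (l 16767608) (l 16767192))) (a (l 16769192) (l 16765720)))) (a (a (c (a (l 16770840) (l 16770056)) (a (l 16770592) (l 16769840))) (c (a (l 16769256) (l 16768440)) (a (l 16769072) (l 16768280)))) (a (c (a (l 16767616) (l 16766776)) (a (l 16767480) (l 16766656))) (c (c (l 16770776) (l 16770720)) (c (l 16770672) (l 16770608)))))) (b (a (a (c (l 16772464) (l 16774848)) (c (l 16770880) (l 16770672))) (a (c (l 16769264) (l 16769056)) (a (l 16767912) (l 16764440)))) (a (a (c (a (l 16769720) (l 16768968)) (a (l 16769352) (l 16768592))) (c (a (l 16768200) (l 16767424)) (a (l 16767808) (l 16767016)))) (a (c (a (l 16766640) (l 16765848)) (a (l 16766200) (l 16765376))) (a (a (l 16770232) (l 16769816)) (l 16769184)))))), by decide +kernel⟩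

def k15_pm_102_s : ∃ t, chk3 f_pm_102_s t 22 335 1 = true :=
  ⟨(b (b (b (a (a (a (l 16774344) (l 16773592)) (a (l 16772832) (l 16772056))) (a (a (l 16771264) (l 16770456)) (c (l 16769696) (l 16768792)))) (b (a (c (a (l 16768936) (l 16767472)) (a (l 16768072) (l 16766488))) (a (c (l 16765968) (l 16764856)) (c (l 16764416) (l 16768408)))) (a (a (c (c (l 16774344) (l 16768528)) (a (l 16762832) (l 16762040))) (c (c (c (l 16773096) (l 16767520)) (l 16762448)) (c (l 16762464) (c (l 16760688) (l 16761688))))) (a (a (c (a (l 16769048) (l 16768016)) (a (l 16770304) (l 16769888))) (c (c (l 16768488) (l 16765104)) (c (l 16764368) (l 16761040)))) (a (b (b (l 16764072) (c (l 16764736) (l 16763128))) (l 16763792)) (b (b (l 16763248) (c (l 16763960) (l 16762264))) (l 16762960))))))) (a (a (c (l 16768552) (l 16767376)) (c (l 16767080) (l 16765768))) (a (c (l 16765568) (l 16764104)) (c (l 16764016) (l 16767632))))) (a (a (c (l 16768064) (l 16766912)) (c (l 16766600) (l 16765304))) (a (c (l 16765080) (l 16763632))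 (c (l 16763512) (l 16761904))))), by decide +kernel⟩

def k16_pm_102_s : ∃ t, chk3 f_pm_102_s t 23 167 1 = true :=
  ⟨(b (b (a (a (c (c (l 16769376) (l 16769336)) (c (l 16769280) (l 16769216))) (c (l 16772880) (l 16772784))) (a (l 16771160) (l 16748544))) (b (a (a (l 16768392) (l 16761440)) (a (l 16759768) (l 16758136))) (a (a (c (l 16762992) (l 16762360)) (c (l 16761352) (l 16760632))) (a (l 16769840) (l 16768280))))) (a (a (a (b (b (b (l 16762728) (b (l 16762520) (b (b (l 16762416) (b (b (b (l 16762376) (b (l 16762368) (c (c (l 16768888) (l 16762712)) (l 16766608)))) (l 16762152)) (l 16762144))) (l 16762120)))) (l 16761928)) (l 16761416)) (b (b (b (l 16761888) (b (l 16761680) (b (b (l 16766824) (b (b (b (l 16761544) (b (l 16761528) (c (c (l 16768080) (l 16761880)) (l 16765752)))) (l 16761312)) (l 16761304))) (l 16761280)))) (l 16761088)) (l 16760568))) (b (b (b (l 16771120) (b (b (l 16770976) (l 16768280)) (b (b (a (l 16771240) (l 16759944)) (a (c (c (l 16767240) (l 16761048)) (l 16759696)) (l 16770248)))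 (l 16760040)))) (l 16759840)) (l 16769792))) (b (b (b (a (l 16769528) (l 16757552)) (b (a (l 16758872) (l 16757336)) (b (b (l 16768424) (a (l 16769032) (l 16756952))) (l 16757624)))) (l 16757416)) (l 16756848)))), by decide +kernel⟩

def k17_pm_102_s : ∃ t, chk3 f_pm_102_s t 2 21 1 = true :=
  ⟨(a (l 2) (a (a (b (b (a (l 2) (a (l 2) (a (l 2) (l 16775896)))) (l 2)) (l 2)) (b (a (b (a (a (l 16775392) (l 16774848)) (a (l 16774256) (l 16773608))) (a (l 16764680) (l 16763320))) (a (b (b (a (l 16769048) (l 16768344)) (l 16765920)) (l 16772280)) (b (b (a (l 16767632) (l 16766920)) (l 16764472)) (l 16770712)))) (a (a (l 2) (l 16776696)) (a (l 16774880) (l 16773048))))) (a (b (a (b (a (b (a (l 16766192) (l 16765440)) (l 16763000)) (c (l 16768784) (l 16764864))) (a (l 16769192) (l 16767624))) (b (b (a (c (l 16763376) (l 16761952)) (c (l 16767016) (l 16765440))) (a (l 16759824) (l 16768592))) (a (l 16755496) (l 16764224)))) (b (a (a (l 16753048) (l 16751400)) (a (l 16749688) (l 16747904))) (a (l 16767680) (l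 16764048)))) (a (b (b (a (a (c (l 16759104) (l 16767872)) (c (l 16768728) (l 16766952))) (c (l 16767392) (l 16755136))) (a (b (l 16753368) (l 16750416)) (b (l 16751504) (l 16748512)))) (a (l 16764048) (b (l 16744048) (l 16738184)))) (b (a (b (l 16754248) (l 16748112)) (b (l 16752520) (l 16746240))) (b (l 16761992) (l 16755992))))))), by decide +kernel⟩

def k18_pm_102_s : ∃ t, chk3 f_pm_102_s t 2 11 1 = true :=
  ⟨(a (l 2) (a (b (a (l 2) (a (l 2) (b (a (l 2) (l 16742152)) (l 2)))) (l 2)) (b (a (b (a (b (l 16741472) (l 16736512)) (a (l 16735856) (l 16733824))) (a (l 16729672) (l 16724744))) (a (b (b (l 16754424) (l 16727936)) (l 16741008)) (b (b (l 16729176) (l 16723528)) (a (l 16716568) (l 16714112))))) (a (a (l 2) (b (l 16715872) (l 2))) (a (b (l 16710352) (l 16701912)) (b (l 16705208) (l 16696056))))))), by decide +kernel⟩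

def k19_pm_102_s : ∃ t, chk3 f_pm_102_s t 2 3 1 = true :=
  ⟨(a (l 2) (b (a (l 2) (b (a (l 2) (b (a (l 2) (l 16726528)) (l 2))) (l 2))) (l 2))), by decide +kernel⟩

def k20_pm_102_s : ∃ t, chk3 f_pm_102_s t 6 8 1 = true :=
  ⟨(l 3), by decide +kernel⟩

def k21_pm_102_s : ∃ t, chk3 f_pm_102_s t 6 18 1 = true :=
  ⟨(a (l 3) (b (l 3) (a (l 3) (b (l 3) (a (l 3) (a (l 3) (b (l 3) (a (b (l 3) (b (a (l 3) (a (c (l 225116685847) (l 238001587703)) (c (l 84993376759) (l 16778368)))) (c (c (a (l 135996115239) (l 16776016)) (l 16779280)) (a (a (l 230485394903) (l 16778344)) (l 16776056))))) (b (b (a (l 3) (c (c (l 147270404439) (l 16777176)) (c (l 157470951591) (l 159081562855)))) (a (c (c (l 145659791703) (l 16777176)) (c (l 155860338855) (l 157470950119))) (c (l 16776032) (l 16776064)))) (c (c (l 16774584) (l 16774616)) (c (l 16774656) (l 16774696)))))))))))), by decide +kernel⟩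

def k22_pm_102_s : ∃ t, chk3 f_pm_102_s t 12 19 1 = true :=
  ⟨(b (l 3) (a (l 3) (b (a (l 3) (b (l 3) (a (l 3) (b (l 3) (a (l 3) (l 266992617719)))))) (a (b (l 3) (a (b (l 3) (l 279877519287)) (a (b (l 3) (l 16779768)) (b (l 139754216119) (l 16775488))))) (b (a (b (l 3) (a (l 300278614391) (l 78014061751))) (b (a (c (l 152102248887) (l 142438571831)) (c (l 16776048) (l 16776120))) (a (l 16775248) (l 16773088)))) (a (b (c (l 16780600) (l 16780688)) (l 16772688)) (b (a (l 16772376) (l 16770224)) (l 16768544)))))))), by decide +kernel⟩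

def k23_pm_102_s : ∃ t, chk3 f_pm_102_s t 26 76 1 = true :=
  ⟨(l 3), by decide +kernel⟩

def k24_pm_102_s : ∃ t, chk3 f_pm_102_s t 54 76 1 = true :=
  ⟨(b (a (l 3) (b (l 3) (a (l 3) (c (b (l 3) (l 329806513591)) (l 326048417575))))) (a (a (l 3) (a (l 3) (b (l 3) (c (l 265382003671) (l 257865810807))))) (b (a (c (b (l 3) (l 291151807671)) (l 306184193575)) (c (c (a (b (l 301352355255) (l 16776904)) (l 16778928)) (b (l 155323469191) (l 16776272))) (a (b (l 296520516375) (l 57612961847)) (b (l 75866571575) (l 16775696))))) (b (a (c (c (l 118816244679) (l 126869310903)) (a (l 255181455895) (l 16776808))) (c (l 16774872) (l 16774952))) (c (a (c (l 16776016) (l 16776040)) (l 16773432)) (a (a (l 16776680) (l 16775472)) (l 16773576))))))), by decide +kernel⟩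

def k25_pm_102_s : ∃ t, chk3 f_pm_102_s t 55 76 1 = true :=
  ⟨(a (a (b (b (l 3) (a (b (l 3) (a (c (l 153712854775) (l 158007821815)) (c (l 16778128) (l 16776832)))) (c (c (l 16779096) (l 16779112)) (a (b (l 176798303751) (l 16776200)) (l 16777856))))) (c (c (b (l 16774328) (l 16771432)) (b (l 16774368) (l 16771520))) (b (c (l 16774424) (l 16774464)) (l 16771688)))) (b (b (b (a (l 3) (c (c (l 112373795063) (l 16777128)) (a (l 207936816631) (l 73719087335)))) (a (c (c (l 16779728) (l 16777104)) (a (l 193978172935) (l 16776960))) (c (l 16775952) (l 16776000)))) (c (c (l 16774472) (l 16774512)) (c (l 16774560) (l 16774272)))) (c (c (b (l 16771576) (l 16768672)) (b (l 16771664) (l 16768808))) (b (c (l 16771768) (l 16771832)) (c (l 16768968) (l 16769080)))))) (b (a (c (c (b (l 16774560) (l 16771672)) (b (l 16774592) (l 16771744))) (b (b (l 16775352) (l 16773968)) (c (l 16771840) (l 16771904)))) (c (c (b (l 16771696) (l 16768816)) (l 16770344)) (b (l 16771912) (l 16769160)))) (c (a (b (c (l 16768776) (l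 16768904)) (c (a (l 16766584) (l 16765360)) (a (l 16766752) (l 16765560)))) (b (c (a (l 16766656) (l 16765416)) (l 16768864)) (c (l 16763656) (l 16763672)))) (b (a (c (l 16769056) (l 16769144)) (a (l 16770368) (l 16768320))) (a (c (l 16769832) (a (l 16769688) (l 16768312))) (l 16766232)))))), by decide +kernel⟩

def k26_pm_102_s : ∃ t, chk3 f_pm_102_s t 26 77 1 = true :=
  ⟨(a (l 3) (b (a (l 3) (a (l 3) (a (l 317458483415) (b (l 3) (b (l 3) (l 16778736)))))) (b (a (l 3) (a (a (l 262697649191) (b (l 241222814007) (l 16776680))) (c (l 16775512) (a (l 16778808) (l 16774968))))) (a (a (l 3) (b (l 192904433911) (a (l 16777128) (l 16776144)))) (a (c (l 16774976) (l 16775056)) (l 16772464)))))), by decide +kernel⟩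

def k27_pm_102_s : ∃ t, chk3 f_pm_102_s t 27 77 1 = true :=
  ⟨(b (b (c (a (a (a (l 260550165559) (a (l 84993377671) (l 16775784))) (a (l 16773856) (c (l 16771168) (l 16771264)))) (a (a (c (l 16768448) (l 16768584)) (c (c (l 16768408) (l 16768488)) (a (l 16766560) (l 16765392)))) (c (l 16764960) (l 16766272)))) (a (a (b (a (l 3) (a (l 177872046071) (l 16776536))) (a (l 224042942983) (l 16775744))) (a (l 16773320) (l 16771440))) (a (a (l 16768840) (c (c (l 16768800) (l 16769576)) (a (l 16769624) (l 16768288)))) (a (l 16766264) (l 16760824))))) (a (a (a (a (b (l 120426859239) (l 16775936)) (l 16775408)) (c (l 16773424) (l 16773560))) (a (c (l 16770808) (l 16771032)) (c (l 16768152) (l 16768472)))) (a (c (a (c (a (l 16766064) (l 16764904)) (l 16768328)) (c (l 16763384) (l 16763608))) (a (c (c (l 16771112) (l 16768616)) (a (l 16769304) (l 16768208))) (c (l 16763624) (l 16763592)))) (c (c (l 16759720) (l 16759664)) (a (c (l 16760944) (l 16760816)) (l 16763280)))))) (c (a (a (a (l 16771352) (a (l 16769384)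 (l 16768064))) (a (a (c (l 16769984) (l 16770456)) (b (l 16767008) (l 16764208))) (b (c (a (l 16770896) (l 16764544)) (l 16767936)) (l 16762864)))) (a (a (c (l 16767288) (l 16762208)) (c (l 16759696) (l 16759688))) (c (a (l 16757152) (l 16764976)) (a (l 16757056) (l 16759536))))) (b (a (a (a (l 16773080) (l 16770544)) (a (l 16768000) (a (b (l 16761600) (l 16765416)) (b (l 16765640) (l 16764504))))) (a (a (l 16766168) (a (l 16761584) (l 16765472))) (a (c (l 16758232) (l 16758032)) (l 16755248)))) (a (a (a (l 16770032) (l 16767496)) (a (a (l 16767312) (l 16765992)) (l 16763416))) (a (a (c (l 16760912) (l 16760848)) (c (l 16758288) (l 16760736))) (a (l 16755400) (l 16752472))))))), by decide +kernel⟩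

def k28_pm_102_s : ∃ t, chk3 f_pm_102_s t 26 39 1 = true :=
  ⟨(b (a (b (a (l 3) (b (a (l 3) (l 272898197287)) (a (l 224579813207) (c (l 16778768) (l 16780120))))) (a (a (b (l 3) (c (l 16780824) (l 54928611479))) (b (c (l 126332443847) (l 110226315735)) (l 16774672))) (b (a (l 16778080) (l 16773048)) (c (l 16771008) (l 16771288))))) (b (a (b (a (b (l 126869309735) (l 16776112)) (l 16774416)) (c (l 16772424) (l 16772608))) (b (a (l 16771880) (l 16769336)) (a (l 16768760) (a (l 16766872) (l 16765640))))) (a (b (c (l 16769248) (l 16769568)) (a (l 16767584) (c (l 16765056) (l 16765616)))) (b (a (c (l 16765552) (l 16766040)) (c (l 16763480) (l 16766688))) (c (l 16762280) (l 16766744)))))) (a (b (a (b (a (l 16773840) (l 16771568)) (l 16769792)) (b (l 16768152) (a (l 16766528) (l 16764512)))) (a (b (a (l 16768064) (l 16765960)) (a (l 16765376) (l 16763448))) (b (a (l 16763968) (l 16762112)) (l 16760680)))) (a (b (b (a (l 16768824) (l 16763088)) (l 16761672)) (c (l 16758080) (b (l 16759232) (l 16756688))))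 (b (c (l 16758952) (b (l 16760280) (a (l 16758752) (l 16756688)))) (a (c (l 16755208) (l 16754904)) (b (l 16754320) (l 16751832))))))), by decide +kernel⟩

def k29_pm_102_s : ∃ t, chk3 f_pm_102_s t 54 39 1 = true :=
  ⟨(a (b (b (a (a (b (l 16767416) (a (l 16764776) (l 16764272))) (b (l 16766136) (l 16763616))) (b (c (b (l 16770136) (l 16763664)) (b (l 16765328) (l 16764176))) (l 16765040))) (c (l 16765096) (a (l 16761016) (b (l 16760192) (l 16757608))))) (b (a (b (l 16753304) (l 16754752)) (c (l 16754016) (b (l 16755008) (l 16752400)))) (c (l 16758088) (a (l 16750664) (b (l 16749792) (l 16747176)))))) (b (b (c (c (l 16763088) (l 16765888)) (a (b (l 16763096) (l 16760584)) (b (l 16760808) (c (l 16758240) (l 16758128))))) (c (a (l 16756792) (l 16754560)) (a (b (l 16757984) (l 16755376)) (b (l 16755576) (l 16752952))))) (a (b (c (l 16751912) (b (l 16752760) (l 16750136))) (b (l 16746632) (l 16745416))) (c (b (l 16749648) (l 16744744)) (b (b (l 16750320) (l 16747696)) (a (l 16744384) (l 16743112))))))),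 by decide +kernel⟩

def k30_pm_102_s : ∃ t, chk3 f_pm_102_s t 110 39 1 = true :=
  ⟨(a (b (c (b (c (l 16757136) (l 16757112)) (b (l 16753392) (l 16750920))) (b (b (c (l 16758304) (l 16763408)) (c (l 16755704) (l 16755480))) (c (l 16757048) (b (l 16752800) (l 16750120))))) (b (c (l 16747208) (b (l 16747696) (l 16745056))) (c (b (l 16743520) (l 16741064)) (b (l 16742424) (a (b (l 16741128) (l 16739816)) (b (l 16739760) (l 16738448))))))) (b (c (b (c (l 16754664) (l 16765016)) (c (l 16749704) (l 16749432))) (b (c (b (l 16755640) (l 16753000)) (b (l 16755384) (l 16752656))) (c (l 16749064) (b (l 16749952) (l 16747248))))) (b (c (c (l 16744800) (l 16744384)) (a (b (l 16745600) (l 16742960)) (b (l 16744144) (l 16741496)))) (c (b (c (l 16741160) (l 16740624)) (l 16738432)) (a (b (a (l 16740680) (b (l 16740616) (l 16739304))) (b (l 16738344) (l 16737032))) (b (c (l 16739248) (b (a (l 16739488) (l 16738736)) (l 16737776))) (c (l 16736656) (l 16735776)))))))), by decide +kernel⟩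

def k31_pm_102_s : ∃ t, chk3 f_pm_102_s t 111 39 1 = true :=
  ⟨(a (b (b (c (c (l 16752064) (l 16751824)) (b (l 16752664) (l 16749944))) (c (c (l 16747048) (l 16746664)) (c (l 16746176) (b (l 16746960) (l 16744224))))) (b (c (b (l 16743096) (c (l 16740880) (l 16740304))) (a (b (l 16742640) (b (l 16740656) (a (l 16739712) (a (l 16739144) (l 16738760))))) (b (l 16741112) (b (a (l 16739504) (l 16738720)) (l 16737792))))) (c (c (l 16737200) (l 16736520)) (b (c (l 16737016) (a (b (l 16737584) (l 16736248)) (l 16735336))) (c (l 16734432) (l 16733472)))))) (b (b (b (c (l 16750488) (l 16749704)) (c (l 16747896) (l 16746944))) (b (c (l 16745320) (l 16744200)) (c (l 16742760) (l 16741472)))) (b (c (b (c (l 16740520) (l 16739904)) (l 16737704)) (a (b (b (l 16740224) (a (l 16739272) (l 16738488))) (c (l 16737312) (l 16736416))) (b (c (l 16738400) (b (l 16740832) (l 16736840))) (l 16735288)))) (c (c (l 16734344) (l 16733544)) (c (l 16732624) (b (l 16732912) (l 16730248))))))), by decide +kernel⟩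

def k32_pm_102_s : ∃ t, chk3 f_pm_102_s t 14 8 1 = true :=
  ⟨(b (l 3) (a (l 3) (b (l 3) (a (l 3) (b (a (l 3) (b (l 3) (a (l 3) (b (a (l 3) (l 295983642951)) (b (a (l 3) (a (l 196662526327) (l 16777480))) (a (c (l 188072591719) (l 180556397335)) (l 16776024))))))) (a (b (a (l 3) (a (l 3) (a (l 3) (b (l 3) (b (l 3) (l 144586048599)))))) (a (b (l 3) (b (a (l 3) (c (l 140291080151) (l 129016792199))) (a (c (l 197199397671) (l 186998850279)) (l 16776208)))) (b (a (b (l 261623906759) (a (l 149954757351) (l 16776624))) (c (l 16778632) (l 16778616))) (c (l 16774480) (l 16774464))))) (b (a (b (a (l 319069094839) (b (l 246054650279) (a (l 145659789719) (l 16776528)))) (a (b (a (l 231559135639) (l 16776984)) (l 16776152)) (a (l 16775496) (l 16774648)))) (a (b (c (l 16777208) (l 16777512)) (l 16773360)) (b (l 16774168) (b (l 16772280) (c (l 16771104) (l 16772280)))))) (a (b (c (l 16773552) (l 16773488)) (a (l 16773360) (c (l 16772480) (l 16772208)))) (b (a (b (l 16771600) (l 16773160)) (c (l 16772128) (l 16771032)))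 (c (l 16768040) (l 16768144))))))))))), by decide +kernel⟩

def k33_pm_102_s : ∃ t, chk3 f_pm_102_s t 30 16 1 = true :=
  ⟨(b (l 3) (a (l 3) (b (l 3) (a (l 3) (b (l 3) (a (l 3) (b (a (l 3) (a (l 3) (b (l 3) (b (c (l 226190426439) (l 232096006423)) (a (l 156934078839) (l 16776856)))))) (b (b (a (l 3) (a (a (l 311552901463) (l 124184953207)) (l 16776480))) (a (l 295983645399) (c (l 16777544) (a (l 45801800039) (l 16774496))))) (a (b (a (l 3) (a (l 224042942791) (l 16777056))) (a (a (l 3) (l 180019528215)) (l 16777320))) (c (l 16775432) (b (l 16775680) (l 16774992)))))))))))), by decide +kernel⟩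

def k34_pm_102_s : ∃ t, chk3 f_pm_102_s t 31 32 1 = true :=
  ⟨(a (b (l 3) (a (l 3) (b (l 3) (a (l 3) (a (l 3) (b (l 3) (a (l 3) (b (l 3) (b (a (l 3) (a (l 3) (l 14))) (b (a (l 290614935863) (a (b (c (l 167134625879) (l 173577076807)) (l 16777344)) (l 16776960))) (a (a (l 268603228343) (a (c (l 133311758503) (l 138680467607)) (l 16777280))) (l 16776808)))))))))))) (a (b (l 14) (a (a (a (a (b (l 3) (b (l 3) (b (l 14) (b (l 14) (c (l 16776440) (l 16776448)))))) (l 14)) (l 14)) (l 14)) (l 14))) (l 14))), by decide +kernel⟩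

def k35_pm_102_s : ∃ t, chk3 f_pm_102_s t 124 66 1 = true :=
  ⟨(b (l 3) (a (l 3) (b (l 3) (a (l 3) (b (a (l 3) (b (l 279877516487) (a (l 234780360951) (b (c (l 112910663927) (l 116668760311)) (l 16776960))))) (b (b (a (l 3) (a (a (l 153712853095) (l 16777040)) (l 16776688))) (a (a (l 3) (l 178945786007)) (l 16776648))) (a (a (b (l 290078064903) (l 140827951351)) (c (l 16776952) (l 16777280))) (l 16776232)))))))), by decide +kernel⟩

def k36_pm_102_s : ∃ t, chk3 f_pm_102_s t 250 132 1 = true :=
  ⟨(b (l 3) (a (l 3) (a (a (l 3) (a (l 3) (b (l 3) (b (l 3) (b (l 3) (l 118279372999)))))) (a (b (l 3) (a (b (l 3) (b (l 140291080343) (l 16777000))) (b (b (l 3) (l 161765916791)) (l 16776888)))) (b (a (l 3) (a (l 3) (b (l 3) (l 222432329895)))) (b (b (a (l 183777624167) (l 16777080)) (l 16777264)) (l 16776536))))))), by decide +kernel⟩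

def k37_pm_102_s : ∃ t, chk3 f_pm_102_s t 251 132 1 = true :=
  ⟨(a (b (b (l 3) (b (a (l 3) (a (l 3) (b (a (l 3) (c (l 169818980439) (l 175187689559))) (a (a (l 225116684343) (l 106468212935)) (l 16777032))))) (a (l 298131127607) (a (b (a (l 3) (a (l 197199396951) (l 81235280119))) (a (a (l 171429593175) (l 16777480)) (l 16776984))) (c (l 16776744) (l 16776752)))))) (b (b (a (a (c (l 272361324935) (l 279340646727)) (b (a (l 275045679287) (a (l 141364822183) (l 16777128))) (a (a (l 113984405719) (l 16777104)) (l 16776928)))) (c (l 16776440) (l 16776544))) (a (a (b (a (l 227264168023) (c (l 16777128) (l 16777288))) (a (l 16777432) (l 16776872))) (l 16776640)) (a (l 16776152) (l 16775656)))) (b (a (c (l 16776336) (l 16776360)) (a (l 16775608) (c (l 16775112) (l 16775160)))) (a (c (l 16775784) (l 16775816)) (a (c (l 16775064) (l 16775120)) (l 16774576)))))) (a (a (b (b (b (l 3) (b (c (l 229948522727) (a (l 3) (l 214379266103))) (a (c (l 189146333255) (l 194515042375)) (c (l 16777080) (l 16777408)))))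 (b (a (b (l 16777384) (l 16776784)) (l 16776672)) (l 16776256))) (b (b (l 16775704) (c (l 16775160) (l 16775200))) (l 16774336))) (b (b (a (b (c (l 242833424647) (l 250349616727)) (b (b (l 29158801639) (l 16777048)) (l 16776840))) (b (b (l 243907166359) (a (a (l 123111211143) (l 16777488)) (l 16777072))) (l 16776728))) (b (l 16776304) (l 16775912))) (b (b (c (l 16775200) (l 16775248)) (l 16774664)) (l 16773824)))) (b (a (b (b (b (b (a (c (l 120963727495) (l 124721823879)) (l 16776984)) (l 16777128)) (l 16776760)) (l 16776352)) (b (c (l 16775776) (l 16775808)) (a (l 16775376) (l 16775152)))) (b (b (c (l 16776392) (l 16776408)) (c (l 16775824) (l 16775848))) (b (a (l 16775744) (l 16775192)) (l 16774752)))) (b (c (l 16774152) (l 16774192)) (l 16773376))))), by decide +kernel⟩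

def k38_pm_102_s : ∃ t, chk3 f_pm_102_s t 125 133 1 = true :=
  ⟨(a (a (a (b (b (l 3) (a (l 295446774343) (b (l 3) (b (a (l 3) (l 126869307607)) (c (l 16777080) (l 16777408)))))) (b (b (a (b (c (l 146733531319) (l 153712853111)) (l 16777352)) (l 16776696)) (l 16776384)) (b (l 16775832) (l 16775456)))) (b (b (a (l 3) (b (l 3) (b (l 245517779159) (a (l 199346880647) (l 16777104))))) (b (a (b (l 213842395287) (a (l 153712853127) (l 16777048))) (c (l 16776824) (l 16776824))) (c (l 16776536) (l 16776520)))) (a (b (l 16775944) (b (l 16775136) (l 16774560))) (b (a (l 16775592) (l 16775376)) (b (l 16774648) (l 16774152)))))) (b (b (b (a (a (b (l 286319968535) (a (l 250886488135) (l 73719087399))) (a (b (l 95730794743) (l 16776936)) (l 16776832))) (c (l 16776232) (l 16776248))) (a (a (c (l 16776880) (l 16777304)) (l 16776424)) (c (l 16775680) (l 16775728)))) (b (a (l 16776128) (a (l 16775424) (l 16774960))) (a (c (l 16775576) (l 16775584)) (a (l 16774896) (l 16774400))))) (a (b (b (a (l 16775296) (l 16774816))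 (a (l 16774736) (l 16774312))) (l 16773720)) (b (l 16773808) (l 16772664))))) (a (b (a (b (a (b (l 16775512) (l 16775008)) (b (c (l 16775024) (l 16775080)) (l 16774488))) (l 16773904)) (b (l 16774152) (l 16772856))) (a (c (l 16772160) (l 16772216)) (c (b (l 16770376) (l 16770536)) (l 16771152)))) (a (b (b (l 16772952) (a (l 16770760) (l 16770232))) (a (b (l 16770912) (l 16769752)) (b (l 16769064) (l 16769368)))) (b (a (b (l 16770856) (l 16771016)) (b (l 16770336) (l 16770488))) (a (b (l 16769912) (l 16769032)) (l 16769816)))))), by decide +kernel⟩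

def k39_pm_102_s : ∃ t, chk3 f_pm_102_s t 124 134 1 = true :=
  ⟨(a (a (a (l 3) (b (l 3) (b (l 3) (b (l 3) (a (l 306721063271) (a (l 177872044279) (l 16777128))))))) (a (b (l 3) (b (a (l 3) (a (l 284709355943) (b (l 3) (l 151028498615)))) (b (a (c (l 152639111367) (l 158007820471)) (l 16776848)) (l 16776496)))) (b (a (l 3) (b (l 3) (l 269140098215))) (b (b (a (l 213305524407) (c (l 16777040) (l 16777368))) (c (l 16776704) (l 16777336))) (l 16776120))))) (b (b (b (a (a (l 3) (a (l 3) (b (l 242296553671) (l 103783858503)))) (a (a (l 16777528) (l 16776392)) (l 16775664))) (a (a (l 3) (a (a (l 189683204279) (l 81235280199)) (l 16776792))) (a (l 16776064) (l 16775448)))) (b (a (a (a (l 282561872199) (a (l 154249724087) (l 16777736))) (l 16776464)) (a (l 16775488) (a (l 16774776) (l 16774288)))) (a (a (a (a (l 116668760327) (l 16776992)) (l 16776624)) (l 16775880)) (a (l 16775584) (l 16773976))))) (a (a (a (b (l 16776240) (l 16775032)) (b (l 16775744) (l 16775224))) (a (b (l 16775240) (a (l 16775496) (l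 16775256))) (b (l 16775432) (l 16773624)))) (a (b (b (a (l 16774576) (l 16774088)) (l 16773776)) (l 16773056)) (l 16772760))))), by decide +kernel⟩

def k40_pm_102_s : ∃ t, chk3 f_pm_102_s t 124 135 1 = true :=
  ⟨(a (b (b (a (b (a (l 283635614135) (a (l 91435827543) (l 16776648))) (a (a (l 227801039063) (l 60297314695)) (l 16776296))) (a (l 16775576) (b (l 16773560) (l 16774936)))) (a (a (b (l 16777528) (l 16776072)) (l 16775352)) (b (a (l 16773320) (a (l 16773888) (l 16773440))) (a (b (l 16774176) (l 16773864)) (l 16773128))))) (b (a (a (l 16775112) (b (l 16773072) (a (l 16773992) (a (l 16773616) (l 16773368))))) (a (a (a (l 16774112) (b (l 16773504) (l 16772992))) (l 16772952)) (l 16772392))) (a (b (a (c (l 16774200) (l 16774048)) (a (c (l 16771480) (l 16775888)) (l 16772960))) (a (a (l 16773720) (a (l 16775960) (l 16773104))) (l 16772640))) (l 16771768)))) (b (b (a (b (a (a (l 16774128) (l 16772352)) (l 16773096)) (l 16772960)) (l 16771672)) (a (l 16772240) (l 16770496))) (a (c (l 16770816) (l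 16770712)) (a (l 16769264) (a (l 16768440) (l 16767864)))))), by decide +kernel⟩

def k41_pm_102_s : ∃ t, chk3 f_pm_102_s t 125 67 1 = true :=
  ⟨(b (a (a (a (b (b (b (a (l 16774960) (l 16774472)) (a (l 16774384) (l 16773984))) (l 16773440)) (l 16771808)) (b (c (l 16773016) (l 16773088)) (l 16770736))) (b (b (c (l 16772016) (l 16772080)) (l 16770880)) (b (c (l 16769656) (l 16769696)) (a (l 16766424) (l 16768144))))) (a (a (b (b (l 16769136) (l 16769928)) (c (l 16769216) (l 16767968))) (b (b (a (l 16767664) (l 16769184)) (l 16768512)) (l 16767272))) (b (a (l 16768952) (l 16767336)) (l 16765408)))) (b (a (b (a (l 16769504) (c (l 16768304) (l 16767704))) (a (a (l 16766240) (l 16767816)) (l 16766792))) (a (l 16765320) (a (l 16763480) (l 16762240)))) (a (a (a (c (l 16768520) (l 16767264)) (l 16766520)) (l 16765176)) (a (l 16762760) (l 16760312))))), by decide +kernel⟩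

def k42_pm_102_s : ∃ t, chk3 f_pm_102_s t 126 33 1 = true :=
  ⟨(b (b (a (a (a (a (b (b (b (c (l 16775864) (l 16775888)) (a (c (l 16775448) (l 16775480)) (l 16775240))) (l 16774512)) (c (b (l 16772072) (l 16772256)) (l 16773176))) (b (b (b (b (l 14) (l 16775272)) (l 16774840)) (l 16774000)) (c (l 16772632) (l 16772328)))) (b (b (b (l 14) (l 16774072)) (c (l 16773224) (l 16773248))) (b (b (c (l 16772376) (l 16772400)) (l 16770672)) (a (l 16771208) (l 16771136))))) (a (b (b (l 14) (b (l 14) (l 16772232))) (b (a (b (l 16771600) (l 16771096)) (l 16770992)) (l 16770320))) (b (l 14) (l 16770176)))) (a (a (a (b (l 14) (l 16768864)) (l 14)) (l 14)) (l 14))) (a (a (a (b (a (b (l 16771120) (l 16770088)) (b (l 16770960) (l 16769744))) (l 16768624)) (b (b (l 16770464) (l 16769256)) (l 16767344))) (b (c (l 16768664) (l 16767896)) (a (b (l 16766696) (l 16765424)) (l 16764760)))) (a (a (b (l 16767304) (l 16763456)) (b (l 16764672) (l 16762144))) (a (b (l 16763336) (l 16760768)) (b (l 14) (l 16759312)))))) (a (b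 (a (b (c (l 16765512) (l 16765360)) (c (l 16765624) (l 16762784))) (b (c (l 16762992) (l 16762760)) (l 16760352))) (b (a (l 16760360) (l 16759120)) (a (l 16757832) (c (l 16755456) (l 16755024))))) (b (b (a (c (l 16761720) (l 16760096)) (c (l 16757616) (l 16757208))) (a (c (l 16757864) (l 16757480)) (l 16754784))) (b (a (l 16755064) (l 16752160)) (a (l 16752440) (l 16749544)))))), by decide +kernel⟩

def k43_pm_102_s : ∃ t, chk3 f_pm_102_s t 127 33 1 = true :=
  ⟨(a (b (a (b (l 14) (b (l 14) (c (l 16757280) (l 16756832)))) (l 14)) (b (a (c (b (l 16754680) (l 16752096)) (b (l 16754168) (l 16751512))) (c (b (l 16751688) (l 16749120)) (b (l 16751072) (l 16748432)))) (b (a (l 16749200) (c (l 16746552) (l 16745800))) (a (l 16746592) (c (l 16744000) (l 16743184)))))) (b (l 14) (b (a (a (b (l 14) (l 16746456)) (l 14)) (l 14)) (a (c (b (a (l 16744288) (l 16742816)) (a (l 16741744) (l 16740296))) (b (a (l 16743456) (l 16741952)) (a (l 16740856) (l 16739368)))) (c (b (c (l 16740888) (l 16740424)) (l 16740744))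 (b (l 16742376) (l 16737160))))))), by decide +kernel⟩

def k44_pm_102_s : ∃ t, chk3 f_pm_102_s t 60 34 1 = true :=
  ⟨(b (l 3) (a (l 3) (b (a (l 3) (b (l 3) (a (c (l 254107714455) (b (l 3) (l 246054650295))) (a (b (l 263771390407) (l 16777824)) (b (a (l 148344144455) (l 16776904)) (l 16776016)))))) (a (b (a (l 3) (a (l 287930581767) (b (l 3) (a (l 158007820807) (l 16776928))))) (a (b (l 243907164055) (a (l 160155303287) (l 16776592))) (c (l 16777208) (b (l 16777760) (l 16775312))))) (b (a (b (a (l 162302786887) (l 16776600)) (l 16775904)) (l 16774768)) (a (l 16774208) (c (b (l 16773064) (l 16772000)) (b (l 16773112) (l 16771944))))))))), by decide +kernel⟩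

def k45_pm_102_s : ∃ t, chk3 f_pm_102_s t 61 68 1 = true :=
  ⟨(a (b (a (l 3) (a (l 3) (b (l 3) (b (l 3) (l 279340644535))))) (a (b (l 3) (a (l 3) (a (l 269676968103) (b (l 300278612551) (a (l 120963728023) (l 16776832)))))) (b (b (a (l 3) (a (a (l 306721063399) (l 182167011799)) (b (l 91435827799) (l 16776552)))) (a (a (l 3) (a (l 234243490103) (l 128479920679))) (a (l 16777608) (l 16775688)))) (b (a (a (a (l 177872044407) (l 76403442439)) (l 16776384)) (l 16775016)) (a (l 16775696) (c (l 16773984) (l 16773920))))))) (a (b (b (a (l 3) (a (b (l 3) (a (l 248202133847) (a (l 158544691767) (l 101099504071)))) (a (b (l 302426096103) (l 23253222199)) (b (b (l 3) (l 110226309559)) (l 16776288))))) (a (a (b (l 309942289031) (b (l 148344144279) (l 16776792))) (b (b (l 205789331671) (l 63518540407)) (l 16776112))) (b (c (l 16775856) (l 16777112)) (l 16775328)))) (b (b (a (l 16775432) (a (l 16774032) (l 16773024))) (a (c (l 16774368) (l 16774296)) (a (l 16772944) (l 16772152)))) (a (a (b (l 16773688) (l 16772592))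 (b (l 16772768) (l 16771824))) (l 16771032)))) (a (b (b (b (a (a (b (l 147270402455) (l 16776704)) (l 16776496)) (l 16775704)) (c (l 16775056) (l 16774960))) (a (b (l 16772368) (a (l 16773488) (l 16773008))) (b (a (l 16773632) (l 16773144)) (l 16772408)))) (b (l 16771448) (l 16769040))) (b (a (b (b (b (l 16773640) (l 16774352)) (a (b (l 16774016) (l 16773464)) (l 16773928))) (l 16772728)) (b (b (c (l 16775048) (a (l 16776424) (b (l 16773552) (l 16773000)))) (l 16772624)) (l 16771336))) (b (l 16769544) (l 16767016)))))), by decide +kernel⟩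

def k46_pm_102_s : ∃ t, chk3 f_pm_102_s t 61 69 1 = true :=
  ⟨(a (b (a (b (b (a (c (l 226190426631) (l 232632876167)) (a (l 16777768) (l 16775904))) (a (a (a (l 210084299111) (l 107541955335)) (l 16776544)) (l 16775224))) (a (c (l 16775304) (l 16775272)) (a (l 16774032) (b (l 16773688) (l 16772608))))) (b (b (a (l 16774584) (a (l 16773296) (l 16772400))) (a (c (l 16773536) (l 16772848)) (l 16771808))) (a (a (b (l 16772848) (l 16771736)) (l 16771424)) (l 16769952)))) (a (b (b (a (l 16773640) (c (l 16771936) (l 16771896))) (a (c (l 16772512) (l 16771856)) (l 16770712))) (a (c (l 16770792) (l 16770872)) (l 16768896))) (a (b (l 16769416) (l 16767000)) (b (l 16767504) (l 16761160))))) (b (c (a (b (l 16769472) (l 16767008)) (b (a (l 16763896) (l 16765832)) (a (b (l 16764680) (l 16760184)) (l 16762512)))) (a (b (l 16769560) (l 16767088)) (b (a (l 16763968) (l 16764576)) (a (l 16764112) (l 16762616))))) (a (b (c (c (l 16764528) (l 16764552)) (l 16765920)) (a (a (l 16763656) (l 16760048)) (l 16762520)))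 (a (b (c (l 16762000) (l 16762104)) (l 16760280)) (l 16759984))))), by decide +kernel⟩

def k47_pm_102_s : ∃ t, chk3 f_pm_102_s t 60 35 1 = true :=
  ⟨(b (a (b (a (b (l 3) (a (l 3) (a (l 269140099687) (b (l 310479159815) (l 12515804023))))) (b (a (c (l 255718327079) (b (l 3) (l 243370295639))) (a (b (l 265382003079) (l 16776800)) (b (l 105931341447) (l 16775976)))) (a (a (b (l 146196659559) (l 16776168)) (l 16775920)) (l 16774656)))) (a (b (a (a (b (l 3) (l 115595017655)) (b (l 180019528183) (l 16776328))) (c (l 16775672) (l 16776304))) (c (l 16774112) (l 16775376))) (b (a (l 16773976) (a (l 16772736) (l 16771904))) (a (a (l 16772016) (l 16771160)) (l 16769952))))) (b (a (b (a (l 16775296) (c (l 16773656) (l 16773632))) (b (a (l 16773560) (c (l 16771928) (l 16771872))) (a (l 16772424) (l 16770760)))) (b (a (b (a (l 16772944) (l 16772096)) (l 16771376)) (l 16770256)) (l 16768784))) (a (a (b (b (l 16771224) (l 16770128)) (l 16768480)) (l 16769320)) (c (l 16765184) (l 16765304))))) (a (b (a (b (a (c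 (l 16772536) (l 16772448)) (a (l 16773848) (l 16770384))) (a (b (l 16771912) (a (l 16772416) (l 16769064))) (l 16768512))) (b (l 16768504) (l 16766280))) (a (c (l 16766008) (l 16767456)) (b (l 16764000) (l 16761168)))) (a (b (b (l 16765408) (l 16763048)) (b (l 16760392) (a (l 16748056) (l 16756896)))) (b (b (l 16761696) (a (l 16760264) (l 16758504))) (b (a (l 16757768) (l 16756488)) (l 16755128)))))), by decide +kernel⟩

def k48_pm_102_s : ∃ t, chk3 f_pm_102_s t 61 35 1 = true :=
  ⟨(b (a (b (b (a (l 16768744) (c (b (l 16758968) (l 16760384)) (l 16763688))) (a (l 16765056) (a (l 16756976) (l 16760520)))) (a (b (l 16762680) (a (l 16756008) (l 16759512))) (b (a (l 16760016) (l 16758728)) (l 16757688)))) (a (b (a (b (l 16762336) (l 16759232)) (l 16758952)) (l 16755016)) (a (c (l 16754552) (l 16754232)) (b (l 16754816) (l 16749600))))) (a (b (a (b (a (l 16759016) (l 16757720)) (l 16756680)) (l 16753952)) (a (l 16752960) (l 16748864))) (b (a (a (l 16750808) (l 16748680)) (b (l 16746760) (l 16744152)))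 (a (l 16749920) (l 16740408))))), by decide +kernel⟩

def k49_pm_102_s : ∃ t, chk3 f_pm_102_s t 62 34 1 = true :=
  ⟨(a (a (a (b (b (b (a (a (a (b (b (l 16773256) (l 16772808)) (l 16772176)) (l 16772512)) (l 16772128)) (l 16771568)) (l 16770048)) (b (l 16767472) (c (b (l 16762928) (l 16764416)) (l 16766352)))) (b (b (c (l 16763016) (l 16763120)) (l 16761312)) (l 16757784))) (b (b (b (l 16770440) (l 16767928)) (a (b (b (l 16766536) (l 16767896)) (l 16763840)) (b (l 16766008) (l 16763192)))) (b (l 16760688) (l 16755552)))) (b (b (b (a (l 16768384) (a (a (l 16767016) (l 16766584)) (l 16766072))) (a (a (b (l 16766968) (l 16765736)) (l 16766192)) (l 16764544))) (a (b (l 16764040) (l 16762240)) (l 16761208))) (b (c (l 16757920) (l 16757144)) (b (l 16756072) (l 16750888))))) (b (a (b (c (a (l 16763896) (l 16761560)) (a (l 16763760) (l 16761344))) (a (l 16758872) (c (l 16759296) (l 16758960)))) (a (b (b (l 16760272) (l 16757824)) (l 16756744)) (b (b (l 16757832) (l 16755384)) (b (l 16752920) (l 16750416)))))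 (a (a (b (l 16756464) (l 16748752)) (b (l 16751504) (b (l 16747704) (l 16745136)))) (b (a (b (l 16750376) (l 16747840)) (b (l 16747864) (l 16745272))) (a (l 16746584) (l 16741368)))))), by decide +kernel⟩

def k50_pm_102_s : ∃ t, chk3 f_pm_102_s t 63 34 1 = true :=
  ⟨(a (b (a (b (a (b (l 16755344) (l 16752864)) (c (l 16752984) (l 16751144))) (a (b (l 16750336) (l 16747760)) (l 16748920))) (b (a (c (l 16748896) (l 16748272)) (c (l 16746064) (l 16745344))) (a (l 16746112) (l 16743248)))) (a (b (a (l 16743896) (l 16741168)) (c (l 16737832) (l 16736936))) (a (b (l 16738392) (l 16733280)) (b (l 16735552) (l 16730480))))) (b (a (b (a (c (l 16743184) (l 16742360)) (a (l 16743152) (l 16741640))) (a (c (l 16738184) (l 16737248)) (a (l 16735480) (b (l 16735232) (l 16732712))))) (b (b (a (c (c (l 16738768) (l 16738280)) (a (l 16738288) (l 16736816))) (c (l 16735616) (l 16734600))) (a (c (l 16736040) (l 16735024)) (c (l 16733136) (l 16732064)))) (c (a (b (l 16733568) (l 16731096)) (c (l 16729720) (l 16729128)))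 (a (b (l 16732496) (l 16729968)) (l 16732200))))) (a (a (b (l 16732656) (l 16727616)) (b (c (a (l 16731016) (l 16729552)) (l 16729136)) (c (l 16725336) (l 16724080)))) (b (c (a (l 16727392) (l 16724472)) (a (l 16726192) (l 16723224))) (c (a (l 16722456) (l 16719528)) (a (l 16721152) (l 16718176))))))), by decide +kernel⟩

def k51_pm_102_s : ∃ t, chk3 f_pm_102_s t 31 35 1 = true :=
  ⟨(a (a (b (a (b (b (a (l 16753904) (l 16751680)) (l 16750200)) (l 16748936)) (b (a (l 16748160) (l 16745912)) (a (l 16743000) (l 16740744)))) (a (b (l 16741120) (a (l 16737176) (l 16734976))) (b (a (l 16737808) (l 16735512)) (a (l 16732704) (l 16730336))))) (b (a (b (a (l 16743608) (l 16741216)) (a (l 16738400) (l 16735936))) (b (c (l 16737864) (l 16736976)) (c (l 16732696) (l 16731656)))) (a (b (c (l 16732416) (l 16731352)) (l 16726736)) (b (c (l 16727544) (l 16726352)) (l 16721832))))) (a (b (a (b (c (l 16732728) (l 16731688)) (c (l 16727624) (l 16726440))) (b (c (l 16727384) (l 16726200)) (c (l 16722352) (l 16721024))))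 (a (b (l 16723816) (l 16716768)) (b (c (l 16717312) (l 16715856)) (l 16711528)))) (b (a (b (a (l 16722568) (c (l 16720400) (l 16719024))) (c (a (l 16718240) (l 16715448)) (a (l 16716816) (l 16713968)))) (c (b (a (l 16717520) (l 16714592)) (a (l 16712584) (l 16709648))) (b (a (l 16716104) (l 16713128)) (l 16709568)))) (a (a (b (c (l 16713256) (l 16711704)) (c (l 16708304) (l 16706624))) (b (l 16714920) (l 16704656))) (c (b (l 16706168) (l 16701224)) (b (l 16704504) (l 16699432))))))), by decide +kernel⟩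

def k52_pm_102_s : ∃ t, chk3 f_pm_102_s t 28 36 1 = true :=
  ⟨(a (l 3) (b (l 3) (a (b (l 3) (a (l 3) (b (l 3) (a (l 3) (c (b (l 3) (c (l 166597757207) (l 166597757191))) (l 248202133975)))))) (b (a (l 3) (b (l 3) (a (c (l 296520516695) (l 307257934791)) (c (b (l 248739004887) (c (l 16779272) (l 16776640))) (b (l 247128392887) (l 16776632)))))) (a (a (b (l 3) (b (c (a (l 231559136423) (l 16778120)) (l 16778392)) (c (l 16775992) (l 16775992)))) (b (c (b (l 327659029383) (c (l 107541954407) (l 16778360))) (l 178408915559)) (c (l 16775024) (l 16775024)))) (c (b (a (c (b (l 76403441639) (l 16775512)) (l 16778784)) (l 16774496)) (c (l 16772456) (l 16772448))) (b (b (l 16778648) (l 16774624)) (l 16772440)))))))), by decide +kernel⟩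

def k53_pm_102_s : ∃ t, chk3 f_pm_102_s t 28 74 1 = true :=
  ⟨(a (a (l 3) (b (a (l 3) (b (l 3) (c (c (l 307257935847) (l 309942290311)) (l 319069095671)))) (b (a (a (l 3) (c (l 333027739239) (l 343228286423))) (c (a (b (l 305110451159) (c (l 16778272) (l 16776960))) (c (b (l 16776848) (l 16775480)) (l 16778776))) (a (b (l 317458482055) (l 16778264)) (l 16778464)))) (a (c (a (b (l 343228286103) (c (l 115595020487) (l 16777104))) (c (b (l 16778360) (l 16775704)) (l 16778992))) (a (b (l 353428833319) (l 123648084167)) (b (l 111300053159) (l 16775744)))) (c (c (l 16774096) (l 16774120)) (l 16774168)))))) (a (b (a (b (a (l 3) (c (c (l 273971938327) (l 276119421911)) (l 282561872775))) (c (c (b (a (l 270750712503) (l 16776568)) (a (l 16779344) (l 16775192))) (a (b (l 259476424135) (l 16776720)) (l 16778488))) (a (b (l 279877517927) (l 16776728)) (l 16777848)))) (c (b (b (a (a (l 333027738343) (l 149954757031)) (l 16777512)) (c (l 16775584) (l 16775584))) (c (l 16773496) (l 16773512))) (b (a (b (l 208473687879)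 (l 16776400)) (l 16775488)) (l 16773544)))) (a (c (c (b (l 16773832) (l 16770952)) (b (l 16773848) (l 16771000))) (b (l 16773888) (l 16771088))) (c (b (c (l 16770656) (l 16770696)) (a (l 16768568) (c (l 16767008) (l 16767080)))) (b (l 16770768) (a (l 16768712) (l 16767216)))))) (b (b (c (c (a (l 16773008) (c (l 16770928) (l 16769608))) (a (l 16773008) (l 16770920))) (a (l 16773024) (l 16769624))) (a (c (c (l 16770288) (l 16770312)) (l 16770368)) (c (a (b (l 16765888) (l 16767312)) (a (l 16766792) (l 16766040))) (a (l 16767984) (l 16766560))))) (a (c (b (a (c (l 16768240) (l 16768288)) (c (l 16766776) (l 16766832))) (c (l 16764872) (l 16764968))) (b (a (l 16768376) (l 16766952)) (l 16765152))) (c (b (l 16764600) (l 16762056)) (l 16763696)))))), by decide +kernel⟩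

def k54_pm_102_s : ∃ t, chk3 f_pm_102_s t 28 75 1 = true :=
  ⟨(a (a (b (a (b (l 3) (b (a (l 3) (c (c (l 141364824343) (l 16777144)) (l 149417885399))) (a (c (c (l 145659791671) (l 16777168)) (c (l 120426860775) (l 156934077879))) (c (l 16775984) (l 16776016))))) (b (a (b (l 3) (c (c (l 134922373351) (l 16777120)) (l 143512305303))) (c (c (b (l 125795567863) (l 16775872)) (l 16779144)) (b (l 135459241575) (l 16775912)))) (c (c (l 16774456) (l 16774488)) (l 16774536)))) (a (c (c (b (l 16774552) (l 16771664)) (b (l 16774576) (l 16771728))) (b (a (l 16775344) (l 16773920)) (l 16771864))) (c (c (b (l 16771568) (l 16768680)) (b (l 16771632) (l 16768784))) (b (l 16771752) (l 16768984))))) (b (a (c (c (b (l 16774304) (l 16771424)) (b (l 16774328) (l 16771480))) (b (l 16774384) (l 16771592))) (c (b (c (l 16771216) (l 16771272)) (c (a (l 16769120) (l 16767560)) (l 16768408))) (b (l 16771368) (l 16769064)))) (a (c (b (c (l 16768520) (l 16768624)) (c (a (l 16766512) (l 16765216)) (a (l 16766648) (l 16765384))))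 (b (l 16768808) (a (l 16766880) (l 16765392)))) (c (b (a (c (l 16766352) (l 16766480)) (l 16763800)) (l 16763224)) (b (a (l 16766712) (l 16765192)) (l 16763104)))))) (a (b (a (c (a (b (l 16768904) (c (l 16766152) (l 16766272))) (b (c (l 16767304) (l 16767392)) (l 16764856))) (b (a (l 16769088) (l 16767552)) (l 16764440))) (c (b (c (a (l 16765888) (l 16764440)) (l 16762696)) (l 16762832)) (b (l 16765528) (l 16762792)))) (c (a (c (l 16761656) (l 16761608)) (c (l 16758752) (l 16758664))) (a (l 16761456) (l 16758440)))) (c (b (a (c (l 16761184) (l 16761384)) (c (l 16758424) (l 16758624))) (a (c (l 16755944) (l 16755824)) (a (l 16753816) (l 16752448)))) (b (a (l 16761328) (l 16758496)) (a (l 16755544) (l 16752712)))))), by decide +kernel⟩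

def k55_pm_102_s : ∃ t, chk3 f_pm_102_s t 58 72 1 = true :=
  ⟨(a (b (l 3) (a (l 3) (b (a (l 3) (c (l 285783098279) (l 286319969015))) (a (c (b (l 322827191079) (c (l 113447534391) (l 16779640))) (l 171429593319)) (c (c (b (l 74792828679) (l 16775512)) (l 16778768)) (l 16778760)))))) (a (b (a (l 3) (b (l 3) (c (b (l 3) (c (l 166060885543) (l 160692176391))) (l 217063620855)))) (b (c (c (a (b (l 228874780967) (l 16776560)) (l 16775560)) (a (b (l 211694912567) (l 16776552)) (l 16775552))) (a (b (l 210621170839) (l 16776544)) (l 16775536))) (c (c (l 16773568) (l 16773552)) (l 16773528)))) (a (b (b (l 319069094839) (b (a (l 195051914151) (l 16778120)) (l 16775928))) (b (l 16773800) (b (l 16771584) (l 16770080)))) (b (b (b (l 250886488487) (a (l 124184954071) (l 16776496))) (l 16774896)) (b (l 16772016) (b (l 16772368) (a (l 16771304) (l 16767904)))))))), by decide +kernel⟩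

def k56_pm_102_s : ∃ t, chk3 f_pm_102_s t 58 73 1 = true :=
  ⟨(a (b (a (b (a (c (b (l 3) (a (l 332490867335) (l 145122920055))) (l 251423359479)) (c (b (c (l 154249726055) (l 148344145991)) (l 16776120)) (l 73182217383))) (c (a (c (l 16776976) (l 16775656)) (l 16773912)) (l 16774760))) (a (c (b (l 16775088) (c (l 16769520) (l 16772112))) (l 16773568)) (c (c (l 16771824) (l 16771792)) (l 16771760)))) (a (a (c (c (l 16772600) (l 16771272)) (l 16771256)) (b (c (c (l 16770984) (l 16770960)) (l 16770936)) (b (l 16770112) (c (c (l 16770112) (l 16767480)) (l 16767472))))) (b (c (a (b (l 16769928) (l 16769760)) (b (a (l 16768584) (l 16767712)) (c (l 16766904) (l 16766872)))) (a (l 16763872) (b (l 16768056) (l 16766856)))) (c (a (b (c (l 16767192) (l 16767168)) (l 16765952)) (l 16765056)) (l 16765928))))) (b (a (b (a (b (l 16773528) (l 16770720)) (a (l 16772720) (b (l 16769944) (l 16769720)))) (b (a (l 16769224) (c (c (l 16767592) (l 16767544)) (l 16767488))) (a (c (c (l 16770472) (l 16767808)) (l 16767760))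 (l 16766232)))) (a (b (a (b (l 16769016) (l 16769096)) (b (a (l 16768328) (l 16767936)) (l 16766824))) (l 16767968)) (b (b (l 16768312) (l 16765696)) (l 16763856)))) (a (c (b (a (c (l 16766008) (l 16765984)) (l 16764440)) (l 16764136)) (a (l 16764856) (l 16758072))) (c (b (l 16762192) (l 16759832)) (l 16761128))))), by decide +kernel⟩

def k57_pm_102_s : ∃ t, chk3 f_pm_102_s t 59 36 1 = true :=
  ⟨(b (a (b (a (a (b (c (b (l 16779136) (l 16775256)) (l 16775888)) (l 16773176)) (b (l 16774264) (l 16771440))) (b (a (l 16772608) (a (l 16771304) (l 16773088))) (b (a (a (l 16770872) (l 16767352)) (l 16768816)) (a (a (l 16771992) (l 16768608)) (l 16767368))))) (b (b (a (a (l 16770976) (a (l 16769608) (l 16768800))) (a (l 16767600) (l 16766000))) (a (a (a (l 16769928) (l 16771624)) (c (l 16767888) (l 16767840))) (l 16766768))) (b (a (a (a (l 16771064) (l 16767664)) (l 16766480)) (l 16765456)) (a (l 16767256) (l 16765488))))) (b (a (a (b (c (l 16770640) (l 16769360)) (l 16763832)) (a (l 16766624) (l 16765816)))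 (a (a (l 16765000) (l 16764184)) (l 16763608))) (b (c (a (l 16762944) (l 16759744)) (l 16761440)) (c (a (l 16760352) (l 16757184)) (a (l 16760440) (l 16757344)))))) (a (b (b (c (a (l 16764056) (l 16760960)) (l 16762552)) (c (a (l 16761576) (l 16758504)) (l 16760152))) (c (c (a (l 16759264) (l 16757512)) (l 16759128)) (a (l 16758176) (l 16755200)))) (b (b (c (a (l 16757848) (l 16754704)) (l 16756456)) (a (c (l 16755408) (l 16755624)) (a (l 16753200) (l 16751200)))) (a (c (b (l 16755656) (a (l 16751496) (l 16750208))) (l 16752344)) (c (b (l 16747800) (l 16748608)) (l 16750000)))))), by decide +kernel⟩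

def k58_pm_102_s : ∃ t, chk3 f_pm_102_s t 29 37 1 = true :=
  ⟨(a (b (b (a (a (b (c (a (c (b (l 16770432) (l 16766648)) (l 16767248)) (c (l 16765736) (l 16765760))) (l 16767904)) (c (l 16764176) (l 16764352))) (c (c (l 16762312) (l 16762384)) (l 16762536))) (c (a (c (l 16759328) (l 16759432)) (c (l 16756328) (l 16756464))) (a (l 16759648) (l 16756728)))) (a (c (a (c (l 16760376) (l 16760520)) (c (l 16757488) (l 16757664))) (a (l 16760792) (l 16758000))) (c (a (c (l 16754592) (l 16754800)) (b (l 16752944) (l 16750688))) (a (l 16755200) (l 16752472))))) (a (a (b (c (c (l 16755664) (l 16755832)) (l 16755664)) (c (a (l 16751080) (l 16749712)) (l 16749936))) (b (c (c (l 16752896) (l 16753064)) (l 16752848)) (c (b (l 16749040) (l 16748240)) (l 16747120)))) (b (c (a (b (l 16751344) (l 16749008)) (b (l 16748656) (l 16746176))) (a (l 16750024) (l 16747144))) (a (c (b (l 16746272) (l 16743472)) (l 16744264)) (c (l 16742000) (l 16741296)))))) (b (a (b (a (c (c (b (l 16754456) (l 16752168)) (l 16753464)) (l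 16753792)) (c (b (a (l 16752248) (l 16750760)) (l 16749480)) (l 16751016))) (a (c (b (l 16750056) (l 16748104)) (l 16749784)) (c (l 16746792) (l 16746696)))) (b (c (a (l 16748464) (l 16746008)) (l 16747344)) (c (l 16742312) (l 16741768)))) (a (a (a (b (l 16745152) (l 16739464)) (b (l 16743632) (l 16743216))) (b (l 16741320) (l 16738336))) (a (b (l 16738192) (l 16732648)) (b (l 16740208) (l 16729488)))))), by decide +kernel⟩

def k59_pm_102_s : ∃ t, chk3 f_pm_102_s t 30 18 1 = true :=
  ⟨(b (a (b (a (b (a (c (b (l 16756544) (l 16759104)) (l 16760560)) (a (b (l 16759312) (l 16756696)) (b (l 16757616) (l 16755160)))) (a (a (b (l 16757392) (l 16754896)) (b (l 16755792) (l 16753464))) (b (c (l 16753656) (l 16753936)) (l 16751840)))) (b (a (b (a (l 16756024) (l 16754808)) (l 16753472)) (l 16751952)) (a (l 16750736) (l 16746864)))) (a (b (a (c (b (l 16751992) (l 16750088)) (l 16751464)) (l 16749184)) (c (l 16746104) (l 16745704))) (b (a (l 16745584) (l 16741720)) (a (l 16740376) (l 16736544))))) (a (b (b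 (a (l 16747960) (l 16749120)) (a (c (l 16735320) (l 16742560)) (l 16738824))) (a (b (l 16737776) (l 16732624)) (b (l 16733736) (l 16728616)))) (a (b (b (l 16739704) (l 16734680)) (b (l 16729592) (l 16729720))) (b (b (l 16735448) (a (l 16731488) (l 16729336))) (b (a (l 16726416) (l 16724192)) (l 16720120)))))) (a (b (a (a (b (l 16742384) (l 16737008)) (b (l 16738808) (l 16733504))) (a (b (l 16735120) (l 16729888)) (b (l 16731336) (l 16726160)))) (a (b (c (l 16740920) (l 16729360)) (l 16729800)) (b (l 16722848) (a (l 16719408) (l 16715808))))) (a (b (b (a (l 16727448) (l 16723440)) (a (l 16722336) (l 16718360))) (b (a (l 16717216) (l 16713224)) (a (l 16712088) (l 16708040)))) (b (a (b (l 16719328) (l 16714136)) (b (l 16714928) (l 16709800))) (a (b (l 16709016) (l 16703896)) (b (l 16704712) (l 16699632))))))), by decide +kernel⟩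

def k60_pm_102_s : ∃ t, chk3 f_pm_102_s t 31 18 1 = true :=
  ⟨(a (a (b (b (a (b (a (l 16732184) (l 16729936)) (l 16725952)) (b (l 16726424) (l 16721312))) (a (b (l 16720792) (l 16715632)) (b (l 16716192) (l 16711072)))) (b (a (b (l 16710472) (l 16705384)) (b (l 16705952) (l 16700896))) (a (b (l 16700336) (l 16695296)) (b (l 16695888) (l 16690888))))) (b (b (a (b (l 16721664) (l 16716576)) (b (l 16716776) (l 16711720))) (a (b (l 16711488) (l 16706408)) (b (l 16706664) (l 16701616)))) (b (a (b (l 16701328) (l 16696312)) (b (l 16696584) (l 16691608))) (a (l 16694112) (l 16689464))))) (a (b (b (a (a (l 16715744) (l 16713184)) (b (l 16706512) (c (l 16702432) (l 16700560)))) (a (b (l 16701680) (l 16696672)) (a (l 16695344) (c (l 16699008) (l 16691664))))) (b (a (b (l 16691680) (l 16686744)) (c (a (l 16686600) (l 16684032)) (b (l 16685440) (l 16680464)))) (a (l 16689904) (c (a (l 16677000) (l 16674352)) (a (l 16674360) (l 16671672)))))) (b (b (a (a (b (l 16707696) (l 16697456)) (b (l 16699640) (l 16694640)))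 (c (b (l 16696280) (l 16691336)) (b (l 16694368) (l 16689288)))) (a (c (b (l 16692120) (l 16687208)) (b (l 16690024) (l 16684976))) (c (b (l 16686400) (l 16681480)) (b (l 16684224) (l 16679176))))) (b (a (c (b (l 16682312) (l 16677448)) (l 16682696)) (c (b (l 16676576) (l 16671712)) (b (l 16674136) (l 16669128)))) (a (c (l 16670224) (l 16667488)) (c (b (l 16666880) (l 16662064)) (b (l 16664144) (l 16659176)))))))), by decide +kernel⟩

def k61_pm_102_s : ∃ t, chk3 f_pm_102_s t 28 38 2 = true :=
  ⟨(a (b (a (b (a (b (c (l 16768784) (l 16768896)) (c (a (l 16766664) (l 16765408)) (l 16768856))) (b (c (a (l 16766616) (l 16765344)) (l 16766168)) (l 16763536))) (a (c (l 16762296) (l 16762264)) (c (l 16759504) (l 16759400)))) (b (c (a (l 16762048) (l 16759128)) (a (l 16762000) (l 16759016))) (a (c (l 16756624) (l 16756448)) (b (l 16757552) (l 16752168))))) (a (c (b (a (l 16756976) (l 16759392)) (a (l 16751720) (l 16748848))) (b (a (l 16756824) (l 16753912)) (a (l 16751424) (l 16748464)))) (b (c (a (l 16751232)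 (l 16748240)) (a (l 16750912) (l 16747832))) (a (c (l 16745888) (l 16745408)) (b (l 16743944) (c (l 16741512) (l 16740888))))))) (b (a (a (b (c (l 16756152) (l 16755984)) (b (l 16751896) (l 16749120))) (b (c (b (l 16754608) (l 16751848)) (l 16758248)) (c (l 16747704) (l 16747320)))) (b (a (b (l 16751680) (l 16748864)) (b (l 16748920) (l 16746096))) (a (b (l 16746040) (c (l 16743448) (l 16742968))) (b (c (l 16743448) (l 16743024)) (c (l 16740640) (l 16740120)))))) (a (b (a (c (l 16745192) (l 16744712)) (b (c (l 16743568) (l 16743056)) (c (a (l 16741568) (l 16740088)) (l 16740224)))) (a (b (c (a (l 16741880) (l 16740344)) (l 16740496)) (c (a (l 16739184) (l 16737632)) (l 16737696))) (c (l 16736712) (l 16735960)))) (b (a (b (a (c (l 16741392) (l 16740840)) (l 16739680)) (l 16737568)) (c (l 16736432) (l 16735752))) (a (c (l 16733752) (l 16732928)) (c (l 16730872) (l 16729992))))))), by decide +kernel⟩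

def k62_pm_102_s : ∃ t, chk3 f_pm_102_s t 28 39 2 = true :=
  ⟨(a (b (a (b (a (c (l 16746520) (l 16746080)) (c (l 16743608) (l 16748296))) (b (a (l 16742400) (c (l 16739720) (l 16739040))) (a (c (l 16740128) (l 16739480)) (l 16736784)))) (b (a (b (c (l 16741920) (l 16741304)) (c (a (l 16740048) (l 16738520)) (l 16738592))) (b (c (a (l 16739616) (l 16738064)) (l 16738136)) (l 16735800))) (c (a (l 16735376) (l 16732240)) (a (l 16734552) (l 16731304))))) (a (b (c (a (l 16736344) (l 16733328)) (a (l 16735576) (l 16732440))) (c (a (l 16731360) (l 16728288)) (a (l 16730440) (l 16727256)))) (b (c (a (l 16730216) (l 16727040)) (a (l 16729224) (l 16725936))) (c (a (l 16725136) (l 16721912)) (a (l 16723992) (l 16720664)))))) (b (a (b (a (c (l 16734376) (l 16733520)) (c (l 16731288) (l 16730344))) (a (c (l 16729056) (l 16728024)) (c (l 16725928) (l 16724808)))) (b (a (c (l 16728288) (l 16727280)) (c (l 16725376) (l 16724312))) (a (c (l 16722904) (l 16721712)) (c (l 16719960) (l 16718712))))) (a (b (a (c (l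 16723816) (l 16722616)) (c (l 16720648) (l 16719360))) (a (c (l 16718648) (l 16717296)) (c (l 16715448) (l 16714008)))) (b (a (c (l 16717592) (l 16716232)) (c (l 16714624) (l 16713208))) (a (c (l 16712360) (l 16710848)) (c (l 16709376) (l 16707800))))))), by decide +kernel⟩

def k63_pm_102_s : ∃ t, chk3 f_pm_102_s t 28 38 3 = true :=
  ⟨(a (b (a (a (b (b (l 16769112) (a (l 16769688) (l 16765640))) (b (l 16763544) (l 16760720))) (b (b (a (l 16767000) (l 16765536)) (l 16763440)) (b (l 16760584) (l 16757720)))) (b (a (l 16761856) (l 16758760)) (a (b (l 16757528) (l 16754632)) (l 16763408)))) (b (a (a (b (l 16757896) (l 16755072)) (b (l 16754864) (l 16752008))) (a (l 16755544) (l 16747080))) (a (a (b (l 16752248) (l 16749432)) (c (l 16747992) (l 16752680))) (a (l 16744528) (b (l 16742704) (l 16745024)))))) (b (a (b (a (l 16755616) (l 16763032)) (a (l 16749728) (l 16746600))) (b (a (l 16749608) (l 16752000)) (a (b (l 16745112) (l 16742096)) (b (l 16742224) (l 16739168))))) (a (b (a (l 16743824) (b (l 16742120)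 (l 16739136))) (a (b (l 16739384) (l 16736448)) (l 16734656))) (b (a (b (l 16739080) (l 16736040)) (l 16734568)) (a (l 16731520) (l 16728496)))))), by decide +kernel⟩

def k64_pm_102_s : ∃ t, chk3 f_pm_102_s t 28 39 3 = true :=
  ⟨(a (b (a (b (a (b (l 16746632) (l 16743832)) (b (l 16743464) (c (l 16741016) (l 16745456)))) (a (b (c (l 16741432) (l 16740648)) (a (b (l 16739784) (l 16738416)) (b (l 16738176) (l 16736800)))) (b (a (a (l 16739040) (l 16738232)) (l 16737008)) (l 16735032)))) (b (a (b (a (l 16741032) (l 16739376)) (a (l 16738176) (l 16736520))) (b (l 16736888) (l 16733984))) (a (c (l 16733608) (l 16732560)) (c (l 16730264) (l 16729112))))) (a (b (a (c (l 16734688) (b (l 16735064) (l 16732312))) (b (l 16732272) (l 16729536))) (a (c (l 16729400) (b (l 16729592) (l 16726896))) (b (l 16726824) (l 16724136)))) (b (a (c (l 16728120) (l 16726896)) (b (l 16725472) (l 16722680))) (a (a (l 16722912) (l 16721176)) (c (l 16719288) (l 16717792)))))) (b (a (b (a (l 16732040) (l 16728736)) (a (l 16726264)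 (l 16722920))) (b (a (l 16725568) (l 16722520)) (a (l 16719720) (l 16716640)))) (a (b (a (b (l 16722000) (l 16719192)) (l 16717208)) (a (l 16715032) (l 16711616))) (b (a (l 16713976) (l 16710864)) (a (l 16708344) (l 16705216)))))), by decide +kernel⟩

def k65_pm_102_s : ∃ t, chk3 f_pm_102_s t 29 38 1 = true :=
  ⟨(a (b (a (b (a (c (b (c (l 16746336) (l 16746056)) (c (l 16746160) (l 16743176))) (b (l 16745504) (l 16742472))) (b (c (c (l 16743608) (l 16743296)) (l 16742688)) (l 16740160))) (c (a (c (l 16739296) (l 16738784)) (l 16741536)) (a (l 16737848) (l 16735016)))) (b (c (a (l 16744472) (l 16736400)) (l 16742048)) (c (c (l 16742944) (l 16731856)) (l 16730784)))) (a (a (b (c (c (l 16733648) (l 16732928)) (l 16731672)) (c (c (l 16728064) (l 16727144)) (l 16725584))) (b (c (l 16733192) (l 16728880)) (c (c (l 16725328) (l 16724376)) (l 16722768)))) (b (c (a (l 16727848) (l 16725152)) (l 16724704)) (c (a (l 16722176) (l 16719512)) (l 16718696))))) (b (b (a (a (l 16738248) (l 16730072)) (c (l 16726192)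 (l 16724824))) (a (c (l 16733784) (l 16725056)) (c (l 16720784) (l 16719120)))) (a (a (b (l 16721544) (l 16721048)) (b (l 16718752) (l 16713096))) (c (b (l 16715392) (l 16710016)) (b (l 16713432) (l 16707752)))))), by decide +kernel⟩

def k66_pm_102_s : ∃ t, chk3 f_pm_102_s t 29 39 1 = true :=
  ⟨(a (b (a (c (b (a (c (l 16722544) (l 16721440)) (c (l 16719792) (l 16718648))) (a (c (l 16717112) (l 16715816)) (c (l 16714336) (l 16713016)))) (b (a (l 16719584) (l 16716752)) (a (l 16713680) (l 16710832)))) (b (c (a (l 16716536) (l 16713904)) (l 16723176)) (c (a (l 16710976) (l 16708328)) (l 16717224)))) (a (b (c (a (c (l 16711752) (l 16710296)) (c (l 16708960) (l 16707472))) (a (l 16707888) (l 16705016))) (c (a (c (l 16706472) (l 16704864)) (c (l 16703664) (l 16702024))) (a (l 16702216) (l 16699328)))) (b (c (a (c (l 16706240) (l 16704736)) (l 16702856)) (a (l 16702256) (l 16699600))) (c (a (c (l 16700936) (l 16699280)) (l 16697472)) (a (l 16696560) (l 16693896)))))) (b (a (b (c (a (l 16711280) (l 16708672))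 (l 16707408)) (c (a (l 16705752) (l 16703192)) (l 16701584))) (b (c (a (l 16706016) (l 16703248)) (l 16702048)) (a (c (l 16700600) (l 16697720)) (c (l 16697904) (l 16695016))))) (a (b (c (a (l 16700272) (l 16697744)) (a (l 16697024) (l 16694512))) (a (c (b (l 16696224) (l 16693544)) (l 16691304)) (c (b (l 16693680) (a (l 16691632) (l 16690304))) (b (l 16690208) (l 16687344))))) (b (a (c (b (l 16696552) (l 16693832)) (b (l 16693432) (l 16690552))) (c (l 16692440) (l 16689224))) (c (a (l 16689680) (l 16686952)) (a (l 16686136) (l 16683400))))))), by decide +kernel⟩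

def k67_pm_102_s : ∃ t, chk3 f_pm_102_s t 30 19 1 = true :=
  ⟨(b (a (a (b (b (l 16729664) (l 16713784)) (b (a (l 16709968) (l 16706816)) (a (l 16704544) (c (l 16702624) (l 16700224))))) (b (b (a (l 16714136) (l 16710616)) (a (l 16708840) (l 16705272))) (b (a (l 16703512) (l 16699936)) (l 16696360)))) (b (b (a (l 16704840) (a (l 16698760) (l 16694560))) (a (l 16699592) (a (l 16693624) (l 16689480)))) (a (b (l 16694360) (l 16689144)) (a (l 16691216) (l 16692432))))) (a (b (b (a (a (c (l 16700384) (l 16697768)) (l 16695960)) (l 16696224)) (a (c (l 16693448) (l 16690496)) (c (l 16687080) (l 16684040)))) (b (a (c (l 16688056) (l 16684816)) (c (l 16681840) (l 16678536))) (a (c (l 16682688) (l 16679144)) (c (l 16676616) (l 16673048))))) (b (a (c (l 16688056) (l 16679784)) (c (l 16685896) (l 16682744))) (a (b (c (l 16675160) (l 16671776)) (c (l 16670096) (l 16666488))) (b (c (l 16667992) (l 16664528)) (l 16661288)))))), by decide +kernel⟩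

def k68_pm_102_s : ∃ t, chk3 f_pm_102_s t 31 19 1 = true :=
  ⟨(b (a (b (a (a (b (l 16690264) (l 16685256)) (l 16683432)) (a (l 16679000) (l 16674440))) (a (a (l 16688304) (l 16673616)) (a (l 16669288) (l 16664840)))) (a (b (a (c (l 16671128) (l 16668248)) (c (l 16676616) (l 16673664))) (a (b (l 16662512) (l 16657816)) (c (l 16656664) (l 16653400)))) (b (a (c (l 16660640) (l 16657600)) (c (b (l 16657272) (l 16652504)) (b (l 16654232) (l 16649312)))) (a (c (l 16651208) (l 16647856)) (c (l 16655952) (b (l 16644432) (l 16639616))))))) (a (b (a (a (l 16667960) (l 16663920)) (a (l 16659744) (l 16655448))) (a (b (l 16658648) (l 16653848)) (a (l 16650360) (b (l 16648448) (l 16643880))))) (a (b (a (b (l 16653144) (l 16648480)) (c (l 16647376) (l 16643808))) (c (a (l 16643392) (l 16638256)) (a (l 16639624) (l 16634392)))) (b (c (a (l 16641936) (l 16636200)) (a (l 16638280) (b (l 16634824) (l 16630072)))) (c (a (l 16632848) (b (l 16629352) (l 16624872))) (a (l 16628896) (b (l 16625376) (l 16620752)))))))),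 by decide +kernel⟩

def k69_pm_102_s : ∃ t, chk3 f_pm_102_s t 12 40 1 = true :=
  ⟨(a (b (b (a (l 3) (a (l 3) (b (l 3) (a (l 190756950103) (l 16776760))))) (a (a (l 3) (b (l 3) (b (l 253570848599) (l 143512310055)))) (b (a (a (l 215989881719) (l 120426861639)) (l 16781120)) (a (a (l 16781432) (l 16775032)) (l 16778224))))) (a (b (a (b (a (l 250886491591) (l 129016795831)) (c (l 16778264) (l 16775720))) (b (c (l 16775680) (l 16775792)) (l 16773600))) (a (b (l 16773440) (l 16771176)) (b (l 16771376) (l 16769432)))) (b (a (b (l 16773544) (l 16771392)) (b (l 16770864) (a (l 16769512) (l 16768256)))) (a (b (l 16775680) (l 16767936)) (b (l 16767432) (l 16765968)))))) (b (a (b (a (b (a (l 158544696439) (l 16776256)) (l 16774624)) (b (a (l 16774648) (l 16772904)) (l 16771264))) (a (b (l 16772216) (a (l 16770632) (l 16768888))) (a (b (l 16769608) (l 16767208)) (b (l 16767736) (l 16765576))))) (b (a (b (l 16770048) (a (l 16768424) (l 16766448))) (b (a (l 16766960) (l 16764888)) (a (l 16764504) (l 16762584))))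 (a (b (a (l 16765936) (l 16764168)) (a (l 16763960) (l 16762160))) (b (a (l 16762312) (l 16760312)) (a (l 16760192) (l 16758088)))))) (a (b (a (b (a (l 16768560) (l 16767080)) (l 16766304)) (b (l 16764824) (l 16763112))) (a (l 16763864) (c (l 16781680) (l 16759880)))) (a (b (c (l 16767136) (l 16770384)) (c (l 16756736) (l 16766088))) (b (b (l 16767544) (l 16754896)) (a (l 16752784) (l 16755616))))))), by decide +kernel⟩

def k70_pm_102_s : ∃ t, chk3 f_pm_102_s t 26 40 1 = true :=
  ⟨(b (a (b (b (a (l 16764656) (a (l 16759240) (l 16757336))) (a (a (l 16760640) (l 16758728)) (l 16755864))) (b (a (l 16757320) (l 16753400)) (a (c (l 16755328) (l 16754496)) (c (l 16751424) (l 16750416))))) (a (b (b (l 16757024) (l 16751936)) (b (l 16749456) (a (l 16748000) (l 16745976)))) (b (c (l 16749456) (b (l 16749968) (l 16747368))) (b (l 16745368) (c (l 16743480) (a (l 16743224) (l 16741088))))))) (a (b (b (a (l 16752688) (l 16748576)) (a (l 16750368) (l 16746128))) (a (b (l 16748024) (a (l 16746824) (l 16744488)))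 (b (a (l 16744712) (l 16742600)) (a (l 16742256) (l 16740088))))) (b (a (b (l 16744528) (c (l 16753272) (a (l 16742200) (l 16740120)))) (b (c (a (l 16742112) (l 16740024)) (a (l 16740624) (l 16738472))) (c (l 16738640) (l 16736936)))) (a (b (a (c (l 16741352) (l 16739576)) (l 16738472)) (l 16736968)) (c (l 16734984) (b (l 16734328) (l 16731712))))))), by decide +kernel⟩

def k71_pm_102_s : ∃ t, chk3 f_pm_102_s t 27 80 1 = true :=
  ⟨(a (a (a (b (a (l 16746512) (l 16745456)) (b (l 16742224) (c (l 16740352) (b (l 16739568) (l 16738264))))) (b (b (l 16745112) (l 16742592)) (b (b (c (l 16741296) (l 16739984)) (l 16739432)) (l 16737544)))) (a (b (b (l 16742896) (c (l 16740944) (b (l 16740312) (l 16739000)))) (b (l 16737832) (l 16735304))) (b (c (b (l 16741080) (l 16738616)) (b (c (l 16740176) (b (l 16740088) (a (l 16739400) (l 16738104)))) (l 16737192))) (c (l 16734928) (b (l 16734576) (l 16731968)))))) (a (c (b (a (l 16737360) (l 16734728)) (c (l 16731520) (l 16730712))) (b (a (b (c (l 16737576) (l 16736736))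 (l 16734552)) (c (l 16733504) (b (c (l 16734104) (l 16733608)) (c (l 16731472) (l 16729624))))) (a (b (l 16731936) (l 16729336)) (c (l 16728368) (b (c (l 16728848) (l 16728272)) (c (l 16726232) (l 16725624))))))) (c (b (c (a (l 16732336) (l 16729448)) (l 16730008)) (c (l 16726032) (l 16725032))) (b (a (c (l 16730568) (b (l 16730816) (l 16728168))) (c (l 16727456) (b (l 16727592) (l 16724968)))) (a (c (l 16725432) (b (l 16725536) (l 16722912))) (b (l 16723000) (l 16720416))))))), by decide +kernel⟩

def k72_pm_102_s : ∃ t, chk3 f_pm_102_s t 27 81 1 = true :=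
  ⟨(b (a (a (c (l 16735664) (a (l 16735000) (l 16732800))) (a (b (l 16732776) (l 16730248)) (c (l 16730024) (a (l 16728696) (l 16727424))))) (c (a (c (l 16726664) (l 16725720)) (c (l 16721160) (l 16720048))) (a (a (b (l 16726736) (l 16724136)) (c (l 16723248) (b (l 16723304) (l 16720680)))) (a (c (l 16720328) (b (l 16720288) (l 16717688))) (b (l 16717840) (l 16715272)))))) (a (a (c (l 16730768) (a (l 16729784) (l 16724968))) (a (b (l 16727720) (l 16725192)) (b (l 16722704) (l 16722792)))) (c (a (a (l 16722592) (l 16719936)) (c (l 16716272) (l 16715072))) (a (a (b (l 16721552) (l 16718968)) (c (l 16718144) (b (l 16718080) (l 16715480)))) (a (b (l 16715816) (l 16713256)) (b (l 16712712) (l 16710168))))))), by decide +kernel⟩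

def k73_pm_102_s : ∃ t, chk3 f_pm_102_s t 6 82 1 = true :=
  ⟨(a (a (b (a (b (a (l 16773880) (l 16767912)) (a (l 16767760) (l 16766440))) (a (b (l 16766552) (l 16764872)) (b (l 16764320) (l 16762536)))) (a (b (a (l 16766120) (l 16775136)) (a (l 16774648) (l 16762592))) (a (l 16761928) (l 16756896)))) (a (b (a (c (l 16781504) (l 16759848)) (b (l 16757368) (l 16755336))) (a (b (l 16757248) (l 16755072)) (b (l 16753224) (a (l 16752072) (l 16749920))))) (b (a (b (l 16753024) (l 16750864)) (b (l 16748184) (a (l 16747200) (l 16744648)))) (a (b (a (l 16749848) (l 16747456)) (l 16746504)) (b (l 16743696) (l 16741504)))))) (a (a (b (a (b (a (l 16744456) (l 16742088)) (l 16740944)) (b (l 16738712) (l 16736312))) (a (b (l 16738664) (l 16736360)) (b (l 16733920) (l 16731512)))) (b (a (b (c (l 16735464) (l 16733312)) (c (l 16733064) (l 16730736))) (c (b (l 16731304) (l 16728864)) (b (l 16729104) (l 16726496)))) (a (b (c (l 16730672) (l 16728184)) (c (l 16728208) (l 16725592))) (b (c (l 16726392) (l 16723864))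 (c (l 16723888) (l 16721248)))))) (a (b (a (a (b (l 16727064) (l 16724536)) (b (l 16724896) (l 16722360))) (a (b (l 16722656) (l 16720120)) (c (l 16720144) (b (l 16718992) (l 16716408))))) (a (c (b (l 16722128) (l 16719600)) (b (l 16719600) (l 16716984))) (c (b (l 16717616) (l 16715080)) (b (l 16715048) (l 16712440))))) (b (c (a (c (l 16716872) (l 16715720)) (c (l 16711360) (l 16710080))) (a (a (b (l 16716392) (l 16713816)) (b (l 16713624) (l 16711056))) (a (b (l 16710704) (l 16708144)) (b (l 16707632) (l 16705088))))) (c (a (b (l 16712576) (l 16710040)) (b (l 16707008) (l 16704472))) (a (b (c (l 16710608) (l 16709120)) (l 16712544)) (b (a (l 16705600) (l 16702560)) (l 16701552)))))))), by decide +kernel⟩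

def k74_pm_102_s : ∃ t, chk3 f_pm_102_s t 12 83 1 = true :=
  ⟨(b (a (a (b (c (l 16771472) (l 16761056)) (a (l 16759408) (l 16757816))) (b (a (l 16758440) (l 16756072)) (a (l 16756144) (l 16752696)))) (a (b (a (b (l 16753328) (l 16752368)) (c (l 16749368) (l 16748432))) (a (l 16771984) (l 16747064))) (b (a (l 16744432) (c (l 16740248) (l 16738304))) (a (l 16742408) (c (l 16738216) (l 16736080)))))) (a (b (b (a (a (l 16757432) (l 16766440)) (a (l 16754520) (l 16752512))) (b (a (a (l 16751400) (l 16755312)) (l 16752752)) (a (l 16766176) (l 16752304)))) (b (b (b (a (l 16755344) (l 16751832)) (b (a (l 16755040) (l 16751440)) (a (a (c (l 16756224) (l 16754640)) (l 16753840)) (a (l 16752144) (l 16749912))))) (a (l 16754264) (l 16750616))) (a (l 16753648) (l 16749952)))) (b (b (a (a (l 16749488) (l 16745480)) (a (l 16740760) (l 16735448))) (b (a (l 16767760) (a (l 16739896) (l 16734552))) (a (a (l 16748168) (l 16744104)) (a (l 16739304) (l 16733920))))) (b (b (b (a (a (l 16747640) (l 16743568)) (a (l 16738752)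 (l 16733352))) (b (a (a (l 16747240) (l 16743168)) (a (l 16738360) (l 16732960))) (a (a (l 16767760) (c (l 16743768) (l 16741824))) (a (c (l 16739128) (l 16736856)) (c (c (l 16734592) (l 16733232)) (l 16741800)))))) (a (l 16765496) (a (l 16737608) (l 16732224)))) (a (l 16764808) (a (l 16736880) (l 16731456))))))), by decide +kernel⟩

def k75_pm_102_s : ∃ t, chk3 f_pm_102_s t 13 166 1 = true :=
  ⟨(a (a (b (a (c (l 16735192) (l 16732848)) (c (l 16730376) (l 16727768))) (a (c (l 16733040) (l 16730512)) (c (l 16728096) (l 16725312)))) (b (a (b (l 16725064) (l 16723840)) (c (l 16731864) (b (l 16719272) (l 16717960)))) (a (b (l 16722600) (l 16721328)) (b (l 16718128) (l 16716808))))) (a (b (a (c (l 16717056) (b (l 16715000) (l 16713688))) (c (l 16712512) (b (l 16710472) (l 16709168)))) (a (b (l 16713800) (l 16712464)) (c (l 16709944) (l 16717656)))) (c (b (a (l 16707472) (l 16701920)) (a (l 16704888) (l 16699336))) (b (a (b (l 16705360) (l 16704056)) (l 16699008)) (a (b (l 16702752) (l 16701432)) (b (l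 16697080) (l 16695792))))))), by decide +kernel⟩

def k76_pm_102_s : ∃ t, chk3 f_pm_102_s t 13 334 1 = true :=
  ⟨(a (b (a (a (l 16730000) (c (l 16726272) (l 16723408))) (a (c (l 16721480) (l 16718496)) (c (l 16716912) (l 16713936)))) (b (a (a (l 16729056) (l 16723872)) (a (l 16718984) (l 16714360))) (a (a (l 16728400) (l 16723176)) (a (l 16718256) (l 16713608))))) (b (a (a (c (l 16712464) (l 16709584)) (c (l 16707896) (l 16705120))) (a (c (l 16702840) (l 16700072)) (b (c (l 16697664) (l 16694808)) (a (l 16697008) (c (l 16695528) (a (l 16693416) (l 16691928))))))) (a (b (a (l 16709968) (l 16705440)) (a (l 16709192) (c (l 16706032) (l 16703288)))) (a (a (b (l 16701712) (l 16700944)) (b (l 16699064) (c (l 16699656) (a (l 16697640) (b (l 16696472) (l 16696112)))))) (b (a (c (l 16697664) (c (l 16695616) (l 16694208))) (c (l 16694880) (l 16692024))) (b (c (l 16695800) (a (l 16694400) (l 16691536))) (c (l 16695488) (l 16692656)))))))), by decide +kernel⟩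

def k77_pm_102_s : ∃ t, chk3 f_pm_102_s t 13 670 1 = true :=
  ⟨(a (a (b (b (a (l 16727816) (l 16722576)) (b (a (l 16727416) (l 16722168)) (b (b (a (l 16727176) (l 16721928)) (a (l 16727032) (l 16721784))) (l 16724312)))) (l 16724000)) (b (b (a (l 16717632) (l 16712952)) (b (a (l 16717216) (l 16712536)) (b (b (a (l 16716968) (l 16712280)) (a (l 16716832) (c (l 16713672) (l 16710680)))) (a (l 16716776) (l 16712088))))) (a (l 16716456) (l 16711752)))) (a (a (b (b (l 16708528) (b (l 16708096) (b (b (l 16707840) (c (l 16709136) (a (l 16707392) (l 16705256)))) (l 16707656)))) (l 16707312)) (a (b (b (l 16705168) (b (l 16704744) (b (b (l 16704488) (c (l 16705712) (c (l 16703704) (l 16702448)))) (l 16704304)))) (l 16703960)) (b (b (l 16702792) (b (c (l 16703696) (l 16701096)) (b (b (c (l 16703448) (l 16700888)) (b (b (b (l 16702072) (b (l 16702048) (b (l 16702040) (c (l 16703384) (l 16700792))))) (l 16702080)) (l 16702064))) (l 16702016)))) (l 16701664)))) (b (b (a (b (a (l 16700416) (c (l 16699160) (l 16696504)))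 (a (c (l 16701504) (l 16698888)) (l 16697648))) (c (l 16695168) (l 16692320))) (b (a (b (a (l 16700000) (l 16697512)) (a (l 16699880) (l 16697408))) (c (l 16694896) (l 16692056))) (b (c (b (a (l 16699904) (l 16694760)) (a (c (l 16711064) (c (l 16699528) (l 16709328))) (c (l 16695472) (l 16693984)))) (b (a (l 16697272) (l 16691928)) (b (b (b (a (l 16697232) (l 16691896)) (b (a (l 16697224) (l 16691888)) (a (c (l 16697856) (l 16696592)) (l 16702368)))) (a (l 16697216) (l 16691880))) (a (l 16697200) (l 16691864))))) (a (c (l 16699880) (l 16697152)) (l 16693224))))) (a (c (l 16699536) (l 16696792)) (l 16695496))))), by decide +kernel⟩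

def k78_pm_102_s : ∃ t, chk3 f_pm_102_s t 13 671 1 = true :=
  ⟨(a (a (a (l 16725880) (l 16720584)) (a (l 16715584) (l 16710856))) (a (a (l 16706384) (a (l 16703024) (l 16700728))) (a (c (l 16698624) (l 16695832)) (c (l 16693456) (l 16690496))))), by decide +kernel⟩

def k79_pm_102_s : ∃ t, chk3 f_pm_102_s t 6 21 1 = true :=
  ⟨(a (a (a (b (b (l 16765680) (l 16764400)) (a (l 16755880) (l 16753792))) (b (a (l 16764824) (l 16741376)) (a (l 16751528) (l 16727696)))) (b (a (a (l 16738072) (a (l 16755968) (l 16753688))) (a (b (l 16732624) (l 16725176)) (b (l 16726960) (l 16719312)))) (a (b (l 16725392) (l 16718432)) (a (l 16714336) (l 16729200))))) (a (a (b (a (b (l 16721168) (l 16713120)) (b (l 16715664) (l 16707240))) (a (b (l 16705488) (l 16698080)) (b (l 16699216) (l 16691600)))) (b (a (b (c (l 16712192) (l 16708768)) (l 16701656)) (b (c (l 16707248) (l 16703856)) (c (l 16698320) (l 16694464)))) (a (b (l 16693280) (l 16685288)) (b (l 16687648) (l 16679312))))) (a (b (a (b (c (l 16702552) (a (l 16700424)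 (l 16698176))) (c (l 16693304) (l 16689528))) (b (a (c (l 16699032) (l 16695952)) (c (l 16696680) (b (l 16696216) (l 16691128)))) (a (l 16698288) (b (l 16687768) (l 16682936))))) (a (b (c (l 16684432) (l 16680216)) (l 16673656)) (b (c (l 16679200) (a (l 16676384) (l 16673800))) (c (l 16670376) (l 16665856))))) (b (a (b (c (l 16693160) (c (l 16690832) (l 16699832))) (c (l 16683536) (a (l 16681176) (l 16678688)))) (c (b (l 16688000) (l 16678392)) (b (a (l 16686152) (l 16683336)) (l 16674640)))) (a (b (c (l 16674120) (a (l 16671288) (l 16668688))) (c (l 16664952) (a (l 16661720) (l 16659008)))) (b (c (l 16668904) (l 16675088)) (c (l 16659632) (l 16654816)))))))), by decide +kernel⟩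

def k80_pm_102_s : ∃ t, chk3 f_pm_102_s t 6 11 1 = true :=
  ⟨(a (b (a (a (b (l 16742616) (l 16710216)) (b (l 16758144) (l 16725104))) (a (b (l 16750208) (l 16716368)) (b (a (l 16700232) (l 16693944)) (a (l 16686720) (l 16680088))))) (b (a (a (l 16699648) (l 16692944)) (a (l 16683368) (l 16691392))) (a (a (l 16690128) (l 16682720)) (a (l 16672304) (l 16658336))))) (a (b (a (b (a (l 16687264) (l 16701512)) (a (l 16673120) (l 16666232))) (b (a (b (l 16677680) (l 16670272)) (b (l 16671344) (l 16663736))) (a (l 16659424) (b (l 16656320) (l 16649048))))) (a (b (a (l 16659520) (l 16652296)) (l 16642808)) (b (a (l 16645200) (l 16638240)) (a (l 16631504) (l 16624184))))) (b (a (b (a (b (l 16665360) (l 16657416)) (b (l 16659528) (l 16651264))) (a (b (l 16649800) (l 16642360)) (b (l 16643328) (l 16635712)))) (b (a (a (b (c (l 16657488) (l 16652624)) (l 16646576)) (b (l 16652320) (l 16643624))) (b (c (l 16650624) (l 16645328)) (c (l 16641936) (l 16636280)))) (a (b (a (l 16638392) (l 16635248)) (a (l 16630528)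 (l 16627176))) (b (c (l 16633528) (l 16627632)) (c (l 16625360) (l 16619360)))))) (a (b (a (l 16631424) (b (l 16628248) (l 16620904))) (a (l 16617072) (l 16609976))) (b (a (b (a (l 16622936) (l 16619384)) (l 16613680)) (b (l 16614536) (l 16606832))) (a (l 16602576) (b (l 16599208) (l 16591656)))))))), by decide +kernel⟩

def k81_pm_102_s : ∃ t, chk3 f_pm_102_s t 56 40 1 = true :=
  ⟨(b (a (c (b (c (a (l 16726440) (l 16723320)) (a (l 16725392) (l 16722152))) (c (a (l 16721544) (l 16718416)) (a (l 16720392) (l 16717144)))) (b (a (c (l 16724216) (b (l 16724240) (l 16721600))) (b (l 16721488) (l 16718864))) (a (b (l 16719696) (l 16717128)) (b (l 16716272) (l 16713696))))) (c (b (c (a (l 16720128) (l 16716864)) (a (l 16718848) (l 16715472))) (c (a (l 16715176) (l 16711880)) (a (l 16713792) (l 16710384)))) (b (a (a (l 16717568) (l 16715816)) (c (l 16713960) (l 16712320))) (a (a (l 16712344) (l 16710568)) (b (l 16709184) (l 16706576)))))) (a (c (b (a (l 16716080) (c (l 16713544) (l 16712176))) (c (l 16710256)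 (l 16708872))) (b (a (b (l 16714568) (l 16712008)) (a (l 16710744) (l 16709000))) (a (a (l 16709024) (l 16707376)) (b (l 16706088) (l 16703576))))) (c (b (c (a (l 16710296) (l 16706968)) (l 16707112)) (a (l 16704688) (l 16701296))) (b (a (c (l 16707208) (l 16705448)) (l 16702728)) (a (l 16706560) (l 16697712)))))), by decide +kernel⟩

def k82_pm_102_s : ∃ t, chk3 f_pm_102_s t 57 40 1 = true :=
  ⟨(b (a (c (b (a (c (l 16713560) (l 16712072)) (c (l 16710336) (l 16708752))) (a (c (l 16708552) (l 16706952)) (c (l 16705296) (l 16703600)))) (b (a (l 16709600) (l 16706144)) (a (l 16704288) (l 16700800)))) (b (c (a (c (l 16707216) (l 16705568)) (c (l 16704208) (l 16702496))) (a (l 16702840) (l 16699688))) (c (a (c (l 16702152) (l 16700384)) (c (l 16699120) (b (l 16698584) (l 16696008)))) (a (l 16697472) (l 16694296))))) (a (b (c (a (c (l 16703608) (l 16701912)) (c (l 16700320) (l 16698536))) (a (l 16699104) (l 16695584))) (c (a (c (l 16698720) (l 16696968)) (c (l 16695416) (l 16693568))) (a (l 16694056) (l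 16690520)))) (b (c (a (c (l 16697160) (l 16695304)) (c (l 16694112) (l 16692200))) (a (l 16692240) (l 16689048))) (a (c (c (b (l 16693464) (l 16691016)) (l 16690320)) (l 16687160)) (a (c (c (l 16689936) (l 16687976)) (l 16684744)) (c (b (l 16688688) (c (b (l 16687816) (c (l 16687064) (l 16686104))) (l 16685200))) (b (l 16684432) (l 16681912)))))))), by decide +kernel⟩

def k83_pm_102_s : ∃ t, chk3 f_pm_102_s t 58 80 1 = true :=
  ⟨(a (b (c (a (c (l 16701288) (l 16699544)) (c (l 16698464) (l 16696688))) (a (l 16696664) (l 16693776))) (c (a (c (l 16696192) (l 16694328)) (c (l 16693352) (l 16691464))) (a (l 16691264) (l 16688352)))) (b (c (a (c (l 16695728) (l 16693936)) (b (l 16693496) (c (l 16691768) (l 16689936)))) (a (l 16690992) (l 16688304))) (a (c (b (l 16690960) (a (l 16689072) (c (l 16688656) (l 16686720)))) (b (l 16686912) (a (l 16684920) (l 16683528)))) (b (c (a (c (l 16689864) (l 16687976)) (c (l 16688528) (l 16686632))) (a (l 16684880) (l 16683528))) (c (c (l 16686600) (l 16684640)) (l 16681432)))))),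 by decide +kernel⟩

def k84_pm_102_s : ∃ t, chk3 f_pm_102_s t 58 81 1 = true :=
  ⟨(a (b (a (c (c (l 16691168) (b (l 16690480) (l 16687952))) (l 16686000)) (c (b (c (l 16689568) (l 16687600)) (b (a (l 16687424) (c (l 16686992) (l 16684992))) (a (c (l 16687152) (l 16685144)) (l 16684728)))) (b (l 16684376) (a (l 16682488) (l 16681032))))) (a (b (c (c (a (l 16688176) (b (l 16687344) (a (l 16686472) (l 16685744)))) (a (l 16686184) (b (l 16685336) (a (l 16684456) (l 16683712))))) (a (l 16682904) (b (l 16682040) (l 16680752)))) (c (a (c (b (a (l 16686704) (l 16685968)) (l 16685096)) (b (l 16684320) (l 16683064))) (c (l 16684232) (l 16682168))) (a (b (l 16681000) (l 16679712)) (l 16678784)))) (c (b (b (a (c (l 16685904) (l 16683872)) (l 16683448)) (c (l 16683920) (l 16681840))) (c (l 16682040) (l 16679912))) (b (a (l 16679880) (l 16678344)) (l 16676448))))) (b (a (b (c (b (a (c (l 16688120) (l 16686152)) (l 16685760)) (c (l 16686152) (l 16684144))) (a (l 16682248) (l 16680808))) (c (c (l 16684224) (l 16682168))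 (l 16678800))) (c (c (l 16682712) (b (l 16681960) (l 16679320))) (l 16677272))) (c (b (c (a (l 16681688) (l 16678880)) (a (l 16679560) (l 16676704))) (c (a (l 16679168) (l 16676360)) (a (l 16676976) (l 16674120)))) (a (b (l 16676096) (l 16673432)) (b (l 16673184) (l 16670512)))))), by decide +kernel⟩

def k85_pm_102_s : ∃ t, chk3 f_pm_102_s t 59 40 1 = true :=
  ⟨(b (a (b (a (c (b (a (l 16691544) (l 16690248)) (a (l 16694144) (l 16687544))) (b (l 16687088) (l 16684288))) (c (c (l 16687776) (l 16685952)) (l 16682992))) (c (a (c (l 16685168) (l 16683208)) (c (l 16682472) (l 16680496))) (a (l 16680024) (l 16677288)))) (b (c (a (l 16684200) (l 16681504)) (a (l 16680312) (l 16677624))) (c (a (c (l 16679792) (l 16677800)) (l 16676104)) (a (l 16674592) (l 16671904))))) (a (b (c (a (c (l 16679968) (l 16677856)) (c (l 16677256) (l 16675128))) (a (l 16674448) (b (l 16673080) (l 16670328)))) (c (a (c (b (l 16676120) (l 16673592)) (l 16672616)) (b (l 16672304) (l 16669744))) (a (b (l 16670360) (l 16667680)) (b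 (l 16667608) (l 16664928))))) (b (c (a (c (l 16674568) (l 16672424)) (c (l 16671864) (l 16669720))) (a (l 16669008) (l 16666312))) (c (a (c (l 16669448) (l 16667176)) (l 16665616)) (a (b (l 16664904) (l 16662224)) (b (l 16662216) (l 16659536))))))), by decide +kernel⟩

def k86_pm_102_s : ∃ t, chk3 f_pm_102_s t 28 82 1 = true :=
  ⟨(a (b (a (c (c (l 16705360) (l 16703928)) (b (a (l 16704416) (l 16701072)) (l 16700248))) (c (a (l 16699808) (l 16696432)) (b (l 16695800) (l 16693360)))) (b (a (c (l 16700952) (l 16697752)) (c (l 16694456) (l 16690920))) (a (c (l 16698440) (l 16695264)) (a (c (l 16693640) (l 16690232)) (a (l 16689464) (c (l 16689480) (l 16685848))))))) (b (a (c (a (b (l 16694216) (l 16691792)) (b (l 16690856) (c (l 16689344) (l 16687472)))) (a (l 16689160) (b (l 16686816) (l 16684392)))) (a (b (c (c (a (l 16689368) (b (l 16688416) (l 16687200))) (l 16686640)) (l 16683440)) (c (a (b (l 16686608) (a (l 16685792) (l 16684992))) (b (a (a (l 16685616) (l 16685216)) (l 16684624)) (l 16683792)))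 (a (b (l 16682448) (l 16681232)) (b (l 16680784) (l 16679512))))) (b (c (a (b (c (l 16686880) (l 16684896)) (c (a (l 16686040) (l 16685280)) (l 16683664))) (c (b (c (l 16685848) (l 16684880)) (l 16684136)) (l 16682720))) (a (b (l 16681632) (l 16680384)) (l 16679384))) (c (c (c (l 16683552) (l 16682552)) (l 16680992)) (l 16677632))))) (a (b (a (c (a (l 16690216) (l 16688520)) (l 16685536)) (c (b (a (l 16687448) (c (l 16686728) (l 16684832))) (a (l 16686240) (l 16684584))) (b (a (l 16683472) (l 16681728)) (a (l 16682272) (l 16680488))))) (a (c (b (a (l 16688392) (l 16686704)) (a (l 16687176) (l 16685496))) (b (a (l 16684648) (l 16682848)) (a (l 16683448) (l 16681624)))) (c (l 16683600) (l 16679528)))) (c (b (a (c (l 16683736) (l 16681744)) (c (l 16680624) (l 16678512))) (a (c (l 16681336) (l 16679304)) (c (l 16678216) (l 16676064)))) (b (a (l 16678488) (l 16675104)) (a (l 16676008) (l 16672624))))))), by decide +kernel⟩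

def k87_pm_102_s : ∃ t, chk3 f_pm_102_s t 29 82 1 = true :=
  ⟨(a (b (a (c (b (c (a (c (l 16683000) (l 16681984)) (c (l 16680080) (l 16679024))) (a (l 16680392) (l 16677368))) (c (a (c (l 16680552) (l 16679504)) (c (l 16677624) (l 16676536))) (a (l 16677872) (l 16674840)))) (b (a (l 16676960) (l 16673832)) (a (l 16674376) (l 16671240)))) (c (b (a (c (c (l 16677216) (l 16676128)) (l 16674432)) (c (l 16673856) (l 16671560))) (a (c (c (l 16674752) (l 16673632)) (l 16671896)) (c (l 16671368) (l 16669024)))) (b (a (l 16670808) (l 16667880)) (a (l 16668216) (l 16665288))))) (a (c (b (b (c (a (l 16678200) (l 16675240)) (l 16674472)) (a (l 16675888) (l 16672888))) (a (c (l 16675176) (l 16672928)) (c (l 16672208) (l 16669888)))) (b (a (l 16671840) (l 16668696)) (a (l 16669360) (l 16666216)))) (c (b (a (c (b (l 16672352) (l 16671128)) (l 16669392)) (c (l 16671536) (l 16666520))) (a (b (l 16668744) (l 16667528)) (b (l 16665888) (l 16664680)))) (b (a (l 16665664) (l 16662736)) (a (l 16663184) (l 16660256))))))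 (a (b (c (b (a (c (l 16671096) (l 16668760)) (l 16667208)) (a (c (l 16668600) (l 16666216)) (l 16664696))) (b (a (l 16665048) (l 16662296)) (a (l 16662448) (l 16659696)))) (b (c (a (l 16664944) (l 16662216)) (a (l 16659904) (l 16657152))) (c (a (l 16662504) (l 16659776)) (a (l 16657424) (l 16654688))))) (b (c (b (a (l 16664512) (l 16661808)) (a (l 16662000) (l 16659296))) (b (a (l 16659592) (l 16656912)) (a (l 16657000) (l 16654320)))) (c (b (a (l 16659520) (l 16656832)) (a (l 16657096) (l 16654416))) (b (a (l 16654464) (l 16651800)) (a (l 16652008) (l 16649360))))))), by decide +kernel⟩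

def k88_pm_102_s : ∃ t, chk3 f_pm_102_s t 28 166 1 = true :=
  ⟨(a (b (a (c (a (l 16697448) (l 16694344)) (a (l 16694376) (l 16691144))) (c (a (b (l 16691760) (a (l 16691328) (l 16689712))) (b (a (l 16689304) (l 16687640)) (l 16687264))) (a (b (l 16688408) (a (l 16688032) (l 16686328))) (b (a (l 16685816) (l 16684032)) (l 16683680))))) (b (a (a (l 16694064) (a (l 16691712) (c (l 16691664) (l 16688464)))) (c (a (l 16689304) (l 16686064)) (a (c (l 16686816) (l 16685040)) (l 16682432)))) (b (a (a (l 16693096) (c (l 16691512) (l 16688344))) (c (l 16686792) (l 16683264))) (a (a (c (l 16693920) (l 16690912)) (l 16689344)) (c (l 16686192) (l 16682648)))))) (a (b (c (a (b (l 16685136) (l 16683928)) (b (l 16681800) (l 16680600))) (a (b (l 16681304) (l 16680064)) (b (l 16677696) (l 16676472)))) (c (a (b (l 16682728) (l 16681528)) (b (l 16679400) (l 16678208))) (b (a (l 16678832) (l 16675256)) (a (l 16677616) (l 16674056))))) (b (c (a (b (l 16678536) (l 16677328)) (b (l 16675352) (l 16674144))) (a (b (l 16674184)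 (l 16672968)) (b (l 16670792) (l 16669568)))) (c (b (a (l 16676136) (l 16672944)) (a (l 16674944) (l 16671752))) (b (a (l 16671760) (l 16668368)) (a (l 16670576) (l 16667200))))))), by decide +kernel⟩

def k89_pm_102_s : ∃ t, chk3 f_pm_102_s t 29 166 1 = true :=
  ⟨(a (b (a (c (b (a (l 16672256) (l 16669248)) (a (l 16671048) (l 16668040))) (a (b (l 16667528) (l 16666312)) (b (l 16664384) (l 16663168)))) (c (b (a (l 16666328) (l 16663480)) (a (l 16665112) (l 16662264))) (a (b (l 16661360) (l 16660144)) (b (l 16658440) (l 16657232))))) (a (c (b (a (l 16669840) (l 16666832)) (a (l 16668648) (l 16665640))) (b (a (l 16665112) (l 16661976)) (a (l 16663944) (l 16660824)))) (c (b (a (l 16663912) (l 16661064)) (a (l 16662720) (l 16659888))) (b (a (l 16658960) (l 16656056)) (a (l 16657816) (l 16654920)))))) (a (b (c (a (b (l 16660696) (l 16659488)) (l 16657384)) (a (b (l 16655616) (l 16654416)) (b (l 16652888) (l 16651696)))) (c (a (b (l 16658296) (l 16657120)) (b (l 16655592) (l 16654432))) (b (a (l 16653248)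 (l 16650544)) (a (l 16652136) (l 16649440))))) (b (b (c (l 16653976) (a (l 16650224) (l 16647584))) (a (l 16651608) (l 16648960))) (a (b (l 16650440) (a (l 16649976) (l 16648664))) (b (l 16647808) (a (l 16647360) (l 16646056))))))), by decide +kernel⟩

def k90_pm_102_s : ∃ t, chk3 f_pm_102_s t 14 334 1 = true :=
  ⟨(b (a (a (b (a (a (c (l 16693272) (l 16690280)) (l 16688720)) (c (l 16685584) (l 16682032))) (a (c (l 16691184) (l 16688064)) (c (l 16684968) (l 16681416)))) (a (c (a (l 16680320) (l 16677008)) (a (l 16676416) (l 16672880))) (c (a (l 16673752) (c (l 16671680) (l 16669464))) (a (l 16669432) (l 16666072))))) (a (a (c (a (c (l 16668616) (l 16666328)) (l 16669720)) (a (l 16662832) (l 16659720))) (c (a (l 16661560) (l 16658736)) (a (l 16656736) (l 16653856)))) (b (a (a (l 16653808) (l 16651136)) (c (l 16649640) (l 16644768))) (a (a (l 16653280) (l 16650616)) (c (l 16649112) (l 16644312)))))) (b (a (a (a (c (l 16690568) (l 16687432)) (c (l 16684360) (l 16680808))) (a (c (l 16683024) (l 16673800))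 (c (a (l 16672864) (l 16669688)) (l 16666904)))) (a (a (c (a (l 16666600) (l 16663608)) (l 16660464)) (a (l 16658344) (l 16655504))) (a (a (l 16652768) (l 16660600)) (c (l 16648600) (l 16643888))))) (a (a (a (c (l 16689952) (l 16686800)) (c (l 16683744) (a (l 16681904) (l 16678480)))) (a (c (a (l 16678800) (l 16675504)) (a (l 16674960) (l 16671464))) (c (a (l 16672272) (l 16669104)) (a (l 16668064) (l 16664744))))) (b (a (a (c (l 16664656) (l 16660088)) (c (l 16658872) (l 16654176))) (a (c (l 16653432) (l 16648728)) (c (l 16648232) (l 16643616)))) (a (a (c (l 16664376) (l 16659864)) (c (l 16658600) (l 16653976))) (a (c (l 16653184) (l 16648552)) (c (l 16648008) (l 16643472)))))))), by decide +kernel⟩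

def k91_pm_102_s : ∃ t, chk3 f_pm_102_s t 28 335 1 = true :=
  ⟨(a (b (b (b (a (c (l 16689472) (l 16686320)) (c (l 16683264) (l 16679760))) (b (a (c (l 16689208) (l 16686080)) (c (l 16683008) (l 16679560))) (b (b (a (c (l 16689072) (l 16685984)) (c (l 16682888) (l 16679480))) (b (b (b (a (l 16687472) (l 16681136)) (b (a (l 16687464) (l 16681128)) (a (c (l 16689040) (l 16685952)) (c (a (l 16684448) (l 16681232)) (l 16679472))))) (a (l 16687464) (l 16681120))) (a (l 16687448) (l 16681112)))) (a (l 16687400) (l 16681064))))) (a (l 16687056) (c (l 16682464) (l 16679040)))) (a (l 16686120) (c (l 16681552) (l 16678088)))) (c (b (b (b (a (a (l 16678336) (l 16675048)) (a (l 16671832) (l 16668672))) (b (a (a (l 16678088) (l 16674808)) (a (l 16671608) (l 16668464))) (b (b (a (l 16676368) (a (l 16671512) (l 16668376))) (b (b (b (a (l 16676336) (l 16669912)) (b (a (l 16676328) (l 16669912)) (a (a (l 16677944) (l 16674680)) (b (l 16669904) (a (l 16671488) (l 16668360)))))) (a (l 16676336) (l 16669896))) (a (l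 16676320) (l 16669888)))) (a (l 16676272) (l 16669840))))) (a (l 16675936) (l 16669504))) (a (l 16675032) (l 16668608))) (b (b (b (a (l 16672840) (l 16668656)) (b (a (l 16672672) (a (l 16667568) (l 16664288))) (b (b (a (l 16672624) (l 16665896)) (b (b (b (a (l 16672624) (l 16665904)) (b (a (l 16672624) (l 16665920)) (a (l 16677872) (a (l 16667576) (l 16664328))))) (a (l 16672624) (l 16665920))) (a (l 16672608) (l 16665904)))) (a (l 16672560) (l 16665856))))) (a (l 16672200) (l 16665504))) (a (l 16671256) (l 16664560))))), by decide +kernel⟩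

def k92_pm_102_s : ∃ t, chk3 f_pm_102_s t 29 335 1 = true :=
  ⟨(a (c (b (b (b (a (a (l 16665600) (l 16662632)) (c (l 16659504) (l 16657208))) (b (a (a (l 16665408) (l 16662448)) (a (l 16659592) (l 16656824))) (b (b (a (a (l 16665328) (l 16662384)) (l 16658152)) (b (a (b (b (l 16663832) (b (l 16663832) (b (l 16663840) (a (l 16665312) (l 16662376))))) (l 16663816)) (b (b (l 16658152) (b (l 16658152) (b (l 16658160) (a (l 16659536) (l 16656792))))) (l 16658128))) (a (l 16663800) (l 16658112)))) (a (l 16663752) (l 16658064))))) (a (l 16663416) (l 16657728))) (a (l 16662520) (l 16656824))) (b (b (b (a (a (l 16661224) (l 16658168)) (a (l 16655248) (l 16652440))) (b (a (a (l 16661128) (l 16658096)) (a (l 16655192) (l 16652416))) (b (b (a (l 16659608) (l 16653840)) (b (b (b (a (l 16659640) (l 16653880)) (a (a (c (l 16662200) (l 16660200)) (l 16668680)) (a (l 16665808) (l 16663056)))) (a (l 16659656) (l 16653920))) (a (l 16659640) (l 16653904)))) (a (l 16659592) (l 16653848))))) (a (l 16659240) (l 16653488)))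 (a (l 16658296) (l 16652536)))) (b (b (b (a (c (c (l 16664600) (l 16651824)) (l 16648448)) (a (l 16657344) (l 16644360))) (b (a (c (a (l 16654144) (l 16651544)) (l 16648456)) (c (c (l 16648840) (l 16646664)) (l 16643480))) (b (b (a (c (l 16663312) (l 16648552)) (c (l 16647760) (l 16643616))) (b (b (b (a (c (l 16652840) (l 16648616)) (l 16645720)) (b (a (c (l 16652848) (l 16648640)) (l 16645744)) (a (c (a (l 16662000) (l 16662048)) (l 16648672)) (a (a (l 16647600) (l 16646376)) (l 16655040))))) (a (l 16661192) (l 16645736))) (a (l 16661176) (l 16645720)))) (a (l 16661128) (l 16645672))))) (a (c (l 16652416) (l 16648232)) (l 16645312))) (a (c (l 16651496) (l 16647264)) (l 16654848)))), by decide +kernel⟩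

def k93_pm_102_s : ∃ t, chk3 f_pm_102_s t 14 21 1 = true :=
  ⟨(a (a (b (a (c (b (l 16682304) (l 16672720)) (b (l 16678840) (l 16668744))) (c (b (l 16686616) (l 16666576)) (b (l 16682872) (l 16662328)))) (a (b (c (l 16663256) (l 16658760)) (b (l 16653824) (l 16649056))) (b (c (l 16657128) (l 16652368)) (c (l 16647808) (l 16642528))))) (b (a (c (b (a (l 16671248) (l 16668000)) (l 16660128)) (b (a (l 16667272) (l 16663872)) (l 16655592))) (b (c (a (l 16664824) (b (l 16664088) (l 16659360))) (a (l 16660576) (l 16657336))) (c (a (l 16655360) (l 16652296)) (l 16649032)))) (a (b (c (l 16650720) (l 16645680)) (c (l 16641424) (l 16635872))) (b (c (a (l 16645984) (l 16642952)) (l 16639176)) (c (l 16635200) (l 16629424)))))) (a (a (b (b (a (b (l 16669328) (l 16654008)) (b (l 16661088) (l 16651008))) (c (a (l 16649296) (l 16646336)) (a (l 16644368) (l 16641328)))) (b (c (a (l 16639984) (l 16637080)) (l 16633080)) (c (a (l 16630768) (l 16627896)) (l 16623392)))) (b (b (c (c (a (l 16654016) (l 16651240)) (a (l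 16651672) (l 16648888))) (a (l 16648256) (l 16645464))) (c (c (a (l 16644744) (l 16641944)) (l 16640768)) (l 16657936))) (b (c (a (l 16634240) (l 16631432)) (l 16627240)) (c (c (l 16625184) (l 16622216)) (l 16617688))))) (a (b (b (c (c (a (l 16648552) (l 16645936)) (l 16655392)) (a (l 16642784) (l 16640224))) (c (a (c (l 16639216) (l 16636632)) (l 16635280)) (l 16652456))) (b (c (a (l 16628712) (l 16626048)) (l 16621784)) (c (a (l 16619648) (l 16616984)) (l 16612224)))) (b (b (a (b (l 16642456) (l 16637488)) (c (l 16639728) (l 16635328))) (c (a (l 16632704) (l 16630160)) (l 16626400))) (b (c (a (l 16623424) (l 16620848)) (l 16616560)) (c (a (l 16614384) (l 16611784)) (l 16607032))))))), by decide +kernel⟩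

def k94_pm_102_s : ∃ t, chk3 f_pm_102_s t 30 40 1 = true :=
  ⟨(a (b (c (a (b (a (l 16678736) (l 16675896)) (a (l 16673384) (l 16670584))) (b (l 16671416) (l 16666240))) (a (b (a (l 16674872) (l 16672048)) (a (l 16669208) (l 16666448))) (b (l 16667576) (l 16662136)))) (a (b (c (a (l 16668080) (l 16665336)) (a (l 16663624) (l 16660920))) (c (a (l 16662896) (l 16660160)) (a (l 16658192) (l 16655504)))) (a (b (l 16660376) (l 16655144)) (b (l 16657512) (l 16652344))))) (b (a (b (l 16668408) (l 16658048)) (b (l 16656328) (l 16651416))) (a (b (l 16652984) (l 16653240)) (b (l 16646568) (l 16641816))))), by decide +kernel⟩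

def k95_pm_102_s : ∃ t, chk3 f_pm_102_s t 30 82 1 = true :=
  ⟨(a (b (a (a (b (l 16656704) (l 16654160)) (b (l 16654000) (l 16651464))) (a (a (l 16650712) (l 16649352)) (l 16647312))) (a (a (b (l 16651672) (a (l 16649928) (l 16648592))) (b (l 16648992) (l 16646600))) (c (b (l 16647352) (l 16645008)) (b (l 16642520) (l 16640160))))) (b (a (c (l 16655848) (l 16640776)) (c (l 16639408) (l 16634968))) (a (b (l 16639536) (l 16647752)) (c (l 16645488) (l 16630560))))), by decide +kernel⟩

def k96_pm_102_s : ∃ t, chk3 f_pm_102_s t 30 83 1 = true :=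
  ⟨(b (b (a (a (a (b (l 16647496) (l 16646328)) (a (l 16644944) (l 16643624))) (a (l 16652144) (l 16639024))) (a (c (l 16637376) (l 16632776)) (c (l 16631872) (l 16627504)))) (b (a (a (c (l 16646320) (l 16641416)) (c (l 16641048) (l 16636312))) (a (l 16633520) (l 16628256))) (a (a (c (l 16645224) (l 16640392)) (c (l 16639992) (l 16635344))) (a (l 16632584) (l 16627392))))) (b (b (a (a (a (a (l 16643760) (l 16642480)) (l 16651056)) (c (l 16639024) (l 16634512))) (a (c (l 16633880) (l 16629608)) (l 16626696))) (b (a (a (c (l 16643456) (l 16638896)) (l 16646656)) (a (l 16631232) (l 16626296))) (a (a (c (l 16653520) (l 16638616)) (c (l 16638000) (l 16633800))) (a (l 16631024) (l 16626192))))) (b (b (b (a (a (c (l 16642792) (l 16638552)) (l 16635800)) (a (l 16631024) (l 16626296))) (b (a (a (c (l 16642760) (l 16638688)) (l 16635912)) (a (l 16631216) (l 16626560))) (b (b (a (a (l 16651304) (l 16636080)) (a (l 16631440) (l 16626832))) (a (a (a (c (c (l 16645112) (l 16643104)) (l 16640208)) (c (l 16641664)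 (l 16637888))) (c (l 16648528) (l 16634464))) (a (l 16652592) (c (l 16628544) (l 16625600))))) (a (a (l 16640856) (l 16636160)) (a (l 16631568) (l 16627000)))))) (a (a (l 16640496) (l 16635800)) (a (l 16631208) (l 16626640)))) (a (a (l 16639544) (l 16634840)) (a (l 16630240) (l 16625688)))))), by decide +kernel⟩

def k97_pm_102_s : ∃ t, chk3 f_pm_102_s t 30 21 1 = true :=
  ⟨(b (b (a (a (c (a (l 16637248) (l 16634792)) (l 16631760)) (a (l 16640792) (l 16627968))) (a (c (l 16626392) (l 16622680)) (c (l 16632176) (l 16618320)))) (a (a (c (a (l 16627648) (l 16625168)) (l 16621528)) (a (l 16630832) (l 16617976))) (a (c (l 16616688) (l 16612312)) (a (l 16611072) (b (l 16611296) (l 16606328)))))) (a (c (a (b (a (l 16618296) (l 16615784)) (a (l 16609192) (l 16606640))) (b (a (l 16613296) (l 16610840)) (l 16610736))) (a (b (l 16611584) (l 16601936)) (b (l 16606800) (l 16597040)))) (a (b (c (l 16607208) (l 16602200)) (c (l 16597960) (l 16592352))) (b (c (l 16602448) (l 16597752)) (l 16590520))))), by decide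 +kernel⟩

def k98_pm_102_s : ∃ t, chk3 f_pm_102_s t 62 10 1 = true :=
  ⟨(a (b (b (a (b (l 16648584) (l 16639264)) (b (l 16644936) (l 16635856))) (b (b (l 16641424) (c (a (l 16630512) (l 16637840)) (l 16645560))) (b (b (a (l 16625472) (c (l 16624480) (l 16620344))) (a (l 16623776) (c (l 16622656) (l 16618680)))) (b (a (b (l 16622752) (a (l 16623152) (l 16621680))) (l 16640216)) (b (b (b (l 16631096) (b (l 16620776) (l 16631560))) (l 16620696)) (l 16619768)))))) (b (b (l 16624640) (b (l 16606688) (l 16612216))) (b (l 16615456) (c (l 16587656) (l 16582400))))) (b (b (b (a (l 16641184) (b (l 16639352) (l 16634840))) (a (b (l 16634400) (l 16651016)) (b (l 16630296) (l 16625792)))) (b (a (b (a (l 16626776) (l 16624736)) (l 16642544)) (b (l 16621416) (l 16617216))) (b (c (l 16638600) (l 16613496)) (b (b (l 16613384) (l 16612888)) (b (b (b (l 16612784) (b (l 16612984) (c (l 16614936) (l 16611912)))) (l 16612992)) (l 16612088)))))) (b (b (c (l 16608416) (l 16605008)) (b (l 16599296) (b (l 16595632) (l 16593224))))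 (b (l 16597864) (l 16578072))))), by decide +kernel⟩

def k99_pm_102_s : ∃ t, chk3 f_pm_102_s t 63 10 1 = true :=
  ⟨(b (b (a (b (c (l 16631856) (a (l 16630304) (l 16625168))) (c (l 16623048) (a (l 16621208) (l 16616176)))) (b (c (a (l 16623952) (l 16618288)) (a (l 16619720) (b (l 16616192) (l 16611696)))) (c (a (l 16615296) (l 16609704)) (a (l 16610840) (b (l 16607280) (l 16602960)))))) (b (a (b (c (l 16616600) (l 16612144)) (c (l 16612496) (l 16608048))) (b (c (l 16606240) (a (l 16604384) (l 16598776))) (c (l 16602256) (a (l 16600384) (l 16594832))))) (b (a (c (b (l 16609568) (l 16607768)) (b (l 16605184) (l 16603528))) (c (b (l 16599424) (l 16597696)) (b (a (l 16597592) (l 16592096)) (a (l 16595992) (l 16590520))))) (b (b (a (l 16604496) (c (l 16596584) (l 16592360))) (a (c (l 16606040) (l 16602224)) (a (l 16596672) (a (l 16592672) (l 16589888))))) (b (b (b (a (l 16604016) (a (l 16596656) (l 16591296))) (b (a (l 16604248) (a (l 16596904) (l 16591552))) (b (b (a (l 16604496) (a (l 16597160) (l 16591824)))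 (a (l 16604704) (a (l 16597384) (l 16592048)))) (a (l 16604624) (l 16594672))))) (a (l 16604296) (l 16594352))) (a (l 16603416) (a (l 16596120) (l 16590792)))))))) (b (a (b (c (l 16599976) (l 16596432)) (b (l 16590984) (b (l 16587400) (l 16585080)))) (b (a (c (l 16592840) (l 16589184)) (c (l 16587632) (l 16583896))) (b (a (l 16583912) (l 16578728)) (b (a (l 16580392) (l 16575248)) (a (l 16578152) (l 16573064)))))) (a (b (a (l 16581560) (l 16577352)) (a (l 16572480) (l 16568520))) (a (b (l 16593848) (l 16564272)) (b (c (l 16570600) (l 16565576)) (c (l 16562584) (l 16556936))))))), by decide +kernel⟩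

def k100_pm_102_s : ∃ t, chk3 f_pm_102_s t 28 11 1 = true :=
  ⟨(a (b (b (a (a (b (l 16643584) (l 16634552)) (b (l 16640504) (l 16631376))) (a (b (l 16637360) (c (l 16631264) (l 16624968))) (b (l 16634152) (c (l 16628048) (l 16621592))))) (a (b (c (l 16627392) (a (l 16622664) (l 16619272))) (c (l 16619128) (a (l 16614224) (l 16610712)))) (b (c (a (l 16622584) (l 16619304)) (a (l 16615832) (l 16612352))) (c (a (l 16614232) (l 16610888)) (a (l 16607144) (l 16603544)))))) (b (a (b (c (l 16611104) (l 16604336)) (c (l 16603264) (l 16596528))) (b (c (l 16609696) (a (l 16598840) (l 16595120))) (c (l 16596568) (a (l 16590896) (l 16587072))))) (a (b (l 16592464) (l 16584968)) (b (c (l 16588864) (l 16581312)) (c (l 16581288) (l 16573944)))))) (b (b (a (b (c (l 16632264) (l 16626176)) (a (c (l 16624808) (l 16618224)) (l 16618352))) (b (c (l 16626064) (l 16619768)) (c (l 16617064) (l 16610240)))) (a (b (c (a (l 16616024) (l 16612800)) (a (l 16608912) (l 16605552))) (c (a (l 16607512) (l 16604224)) (a (l 16599936)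 (l 16596472)))) (b (b (c (l 16610408) (l 16603176)) (a (l 16603872) (l 16600856))) (c (a (l 16601096) (l 16598064)) (a (l 16593224) (l 16590104)))))) (b (a (b (c (a (l 16599312) (l 16595960)) (a (l 16591400) (l 16587816))) (c (a (l 16591368) (l 16587976)) (a (l 16583248) (l 16579544)))) (b (c (a (l 16592744) (l 16589664)) (a (l 16584416) (l 16581192))) (c (a (l 16584704) (l 16581568)) (a (l 16576032) (l 16572696))))) (a (b (c (l 16581952) (a (l 16575440) (l 16571640))) (c (l 16574392) (l 16566016))) (b (c (a (l 16576920) (l 16573736)) (a (l 16568032) (l 16564592))) (c (l 16567720) (a (l 16560360) (l 16556832)))))))), by decide +kernel⟩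

def k101_pm_102_s : ∃ t, chk3 f_pm_102_s t 29 11 1 = true :=
  ⟨(b (a (b (a (b (c (a (l 16621664) (l 16618816)) (l 16613800)) (c (a (l 16612680) (l 16609856)) (l 16604312))) (b (c (a (l 16616040) (l 16613328)) (l 16608168)) (c (a (l 16607104) (l 16604416)) (l 16598744)))) (b (a (c (a (l 16603840) (l 16601032)) (l 16605440)) (c (a (l 16598288) (l 16595624)) (l 16589432))) (a (b (c (l 16595904) (l 16588016)) (a (l 16589040) (l 16586216))) (c (l 16598776) (l 16580248))))) (b (a (b (c (a (l 16610664) (l 16608064)) (l 16602848)) (c (a (l 16601784) (l 16599216)) (l 16593504))) (b (c (a (l 16605488) (l 16602896)) (l 16597656)) (c (l 16595408) (l 16588448)))) (a (b (c (l 16602232) (l 16584256)) (c (l 16583120) (l 16575120))) (b (c (l 16586712) (l 16579280)) (c (l 16578136) (l 16570208)))))) (a (b (a (b (c (a (l 16586720) (l 16583864)) (a (l 16578176) (l 16575272))) (c (a (l 16578544) (l 16575632)) (a (l 16569536) (l 16566536)))) (b (b (c (l 16581896) (l 16573448)) (a (l 16574768) (l 16572120))) (c (a (l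 16572864) (l 16570168)) (a (l 16563728) (l 16561032))))) (a (b (c (a (l 16570664) (l 16567712)) (a (l 16561320) (l 16558208))) (c (a (l 16563040) (l 16560048)) (a (l 16553464) (l 16550264)))) (b (c (a (l 16564864) (l 16562120)) (a (l 16555264) (l 16552472))) (c (a (l 16557160) (l 16554376)) (a (l 16547216) (l 16544320)))))) (b (a (b (c (l 16574640) (l 16566112)) (a (c (l 16567584) (l 16558464)) (c (l 16565080) (l 16556024)))) (b (c (l 16569688) (l 16561256)) (c (l 16561392) (l 16552432)))) (a (b (c (a (l 16559504) (l 16556960)) (a (l 16549864) (l 16547344))) (c (a (l 16551688) (l 16549096)) (a (l 16541576) (l 16538976)))) (b (a (c (l 16554488) (l 16544936)) (l 16547432)) (c (a (l 16546600) (l 16544128)) (a (l 16536512) (l 16534088)))))))), by decide +kernel⟩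

def k102_pm_102_s : ∃ t, chk3 f_pm_102_s t 15 11 1 = true :=
  ⟨(a (b (a (b (a (a (b (l 16607608) (l 16588184)) (b (l 16594568) (l 16585632))) (b (c (l 16593928) (l 16587576)) (c (l 16585232) (l 16578416)))) (a (b (c (l 16581704) (l 16574352)) (c (l 16573192) (l 16565368))) (b (c (l 16576664) (l 16569392)) (l 16564464)))) (b (a (b (c (l 16588960) (l 16582792)) (l 16587376)) (b (l 16581176) (l 16572096))) (a (b (l 16568152) (l 16559552)) (b (l 16563272) (l 16554720))))) (a (b (a (b (c (l 16564792) (l 16556480)) (c (l 16556528) (l 16547704))) (b (l 16555904) (l 16547456))) (a (b (c (l 16548424) (l 16539072)) (a (l 16536840) (l 16534480))) (b (l 16539136) (l 16530968)))) (a (b (b (l 16551112) (l 16542736)) (b (l 16534472) (l 16526344))) (b (b (l 16546304) (l 16538048)) (l 16525800))))) (b (a (b (a (b (c (l 16578704) (l 16572840)) (c (l 16569968) (l 16563536))) (b (l 16569000) (l 16560144))) (a (b (c (l 16561456) (l 16554496)) (a (l 16550984) (l 16547912))) (b (l 16551520) (l 16543136)))) (b (a (b (c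 (l 16564808) (l 16558584)) (c (l 16556464) (l 16549600))) (b (a (l 16555624) (l 16561776)) (c (l 16548592) (l 16541624)))) (a (b (c (l 16548312) (l 16540832)) (c (l 16540360) (l 16532312))) (b (c (l 16540672) (l 16533064)) (c (l 16532936) (l 16524720)))))) (a (b (a (a (a (l 16560184) (l 16537848)) (l 16556608)) (b (l 16534992) (l 16527096))) (a (a (b (l 16526392) (l 16518392)) (l 16519736)) (b (l 16519320) (l 6)))) (b (a (b (c (l 16532624) (l 16524040)) (c (l 16525096) (l 16516032))) (a (b (l 16522920) (l 16515280)) (b (a (l 16520024) (l 16518008)) (l 6)))) (a (b (c (l 16517768) (l 16508280)) (l 6)) (l 6)))))), by decide +kernel⟩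

def k103_pm_102_s : ∃ t, chk3 f_pm_102_s t 6 12 1 = true :=
  ⟨(a (a (b (b (a (l 16681656) (l 16673576)) (a (l 16674504) (l 16665952))) (a (l 2) (l 16699744))) (b (a (b (l 16662288) (l 16653960)) (b (l 16647272) (l 16659016))) (a (l 16666376) (b (l 16631680) (l 16626296))))) (a (b (b (a (l 16630632) (l 16614624)) (a (l 16641344) (b (l 16605512) (l 16601208)))) (a (b (l 16613416) (l 16607528)) (b (l 16595648) (l 16589152)))) (b (b (a (a (l 16603232) (l 16595760)) (a (l 16588032) (b (l 16584144) (l 16576696)))) (a (b (l 16589592) (l 16584856)) (a (l 16575064) (b (l 16569560) (l 16564152))))) (a (b (l 16578720) (l 16571464)) (b (a (l 16565928) (l 16557096)) (a (l 16558056) (l 16548728))))))), by decide +kernel⟩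

def k104_pm_102_s : ∃ t, chk3 f_pm_102_s t 7 12 1 = true :=
  ⟨(a (a (b (a (b (a (l 16573768) (b (l 16570424) (l 16563088))) (b (a (l 16562720) (l 16555872)) (a (l 16556864) (l 16549832)))) (b (a (b (a (l 16564856) (l 16561176)) (l 16555800)) (b (c (l 16560304) (l 16551168)) (a (l 16550432) (l 16547008)))) (a (b (b (l 16550392) (l 16547000)) (l 16542528)) (b (b (l 16543368) (l 16539992)) (l 16535440))))) (a (b (a (l 16569968) (l 16541576)) (a (c (l 16543024) (l 16535784)) (l 16531544))) (b (a (b (l 16536760) (l 16531224)) (b (l 16529520) (l 16523800))) (l 6)))) (b (a (b (a (b (c (l 16554088) (a (l 16545944) (l 16542656))) (c (l 16546808) (l 16537008))) (a (b (c (l 16549688) (l 16539520)) (l 16537464)) (b (c (l 16546880) (l 16536536)) (l 16545000)))) (b (a (b (l 16536776) (c (l 16538024) (l 16528368))) (b (c (l 16535632) (l 16525232)) (c (l 16532240) (l 16521792)))) (a (c (l 16533448) (l 16523640)) (a (l 16524008) (l 16520952))))) (b (a (a (b (l 16539080) (l 16552656)) (b (l 16536416) (l 16528960)))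 (b (c (l 16558680) (l 16527152)) (c (l 16540824) (l 16519400)))) (a (b (c (b (l 16530168) (l 16526760)) (b (l 16519296) (l 16515776))) (c (l 16542984) (l 16510752))) (b (c (b (l 16524968) (l 16521528)) (l 16512008)) (c (a (l 16518000) (l 6)) (l 16505024)))))) (a (b (b (a (l 16522736) (c (l 16521536) (l 16510712))) (l 6)) (l 6)) (l 6)))) (a (b (a (b (a (b (c (l 16532768) (l 16522312)) (c (l 16525312) (l 16514360))) (b (a (l 16524120) (l 16521808)) (c (l 16520440) (l 16509632)))) (b (a (c (b (l 16519904) (l 16516424)) (l 16506792)) (l 6)) (l 6))) (b (a (b (l 16518360) (c (l 16515696) (l 16505120))) (b (l 16513840) (l 6))) (l 6))) (l 6)) (l 6))), by decide +kernel⟩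

def k105_pm_102_s : ∃ t, chk3 f_pm_102_s t 3 13 1 = true :=
  ⟨(b (a (a (a (l 2) (a (l 2) (l 16640944))) (b (a (a (l 16602632) (l 16583712)) (a (l 16565376) (l 6))) (l 6))) (l 6)) (a (l 6) (l 6))), by decide +kernel⟩

def k106_pm_102_s : ∃ t, chk3 f_pm_102_s t 3 7 1 = true :=
  ⟨(l 6), by decide +kernel⟩

theorem s107_pm_102_s : ∃ t, chk3 f_pm_102_s t 3 12 1 = true := ex3_a k103_pm_102_s k104_pm_102_s

theorem s108_pm_102_s : ∃ t, chk3 f_pm_102_s t 3 6 1 = true := ex3_b s107_pm_102_s k105_pm_102_s

theorem s109_pm_102_s : ∃ t, chk3 f_pm_102_s t 3 3 1 = true := ex3_b s108_pm_102_s k106_pm_102_s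

theorem s110_pm_102_s : ∃ t, chk3 f_pm_102_s t 14 11 1 = true := ex3_a k100_pm_102_s k101_pm_102_s

theorem s111_pm_102_s : ∃ t, chk3 f_pm_102_s t 7 11 1 = true := ex3_a s110_pm_102_s k102_pm_102_s

theorem s112_pm_102_s : ∃ t, chk3 f_pm_102_s t 31 10 1 = true := ex3_a k98_pm_102_s k99_pm_102_s

theorem s113_pm_102_s : ∃ t, chk3 f_pm_102_s t 30 41 1 = true := ex3_b k95_pm_102_s k96_pm_102_s

theorem s114_pm_102_s : ∃ t, chk3 f_pm_102_s t 30 20 1 = true := ex3_b k94_pm_102_s s113_pm_102_s

theorem s115_pm_102_s : ∃ t, chk3 f_pm_102_s t 30 10 1 = true := ex3_b s114_pm_102_s k97_pm_102_s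

theorem s116_pm_102_s : ∃ t, chk3 f_pm_102_s t 15 10 1 = true := ex3_a s115_pm_102_s s112_pm_102_s

theorem s117_pm_102_s : ∃ t, chk3 f_pm_102_s t 14 335 1 = true := ex3_a k91_pm_102_s k92_pm_102_s

theorem s118_pm_102_s : ∃ t, chk3 f_pm_102_s t 14 167 1 = true := ex3_b k90_pm_102_s s117_pm_102_s

theorem s119_pm_102_s : ∃ t, chk3 f_pm_102_s t 14 166 1 = true := ex3_a k88_pm_102_s k89_pm_102_s

theorem s120_pm_102_s : ∃ t, chk3 f_pm_102_s t 14 83 1 = true := ex3_b s119_pm_102_s s118_pm_102_s

theorem s121_pm_102_s : ∃ t, chk3 f_pm_102_s t 14 82 1 = true := ex3_a k86_pm_102_s k87_pm_102_s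

theorem s122_pm_102_s : ∃ t, chk3 f_pm_102_s t 14 41 1 = true := ex3_b s121_pm_102_s s120_pm_102_s

theorem s123_pm_102_s : ∃ t, chk3 f_pm_102_s t 58 40 1 = true := ex3_b k83_pm_102_s k84_pm_102_s

theorem s124_pm_102_s : ∃ t, chk3 f_pm_102_s t 29 40 1 = true := ex3_a s123_pm_102_s k85_pm_102_s

theorem s125_pm_102_s : ∃ t, chk3 f_pm_102_s t 28 40 1 = true := ex3_a k81_pm_102_s k82_pm_102_s

theorem s126_pm_102_s : ∃ t, chk3 f_pm_102_s t 14 40 1 = true := ex3_a s125_pm_102_s s124_pm_102_s

theorem s127_pm_102_s : ∃ t, chk3 f_pm_102_s t 14 20 1 = true := ex3_b s126_pm_102_s s122_pm_102_s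

theorem s128_pm_102_s : ∃ t, chk3 f_pm_102_s t 14 10 1 = true := ex3_b s127_pm_102_s k93_pm_102_s

theorem s129_pm_102_s : ∃ t, chk3 f_pm_102_s t 7 10 1 = true := ex3_a s128_pm_102_s s116_pm_102_s

theorem s130_pm_102_s : ∃ t, chk3 f_pm_102_s t 7 5 1 = true := ex3_b s129_pm_102_s s111_pm_102_s

theorem s131_pm_102_s : ∃ t, chk3 f_pm_102_s t 13 335 1 = true := ex3_b k77_pm_102_s k78_pm_102_s

theorem s132_pm_102_s : ∃ t, chk3 f_pm_102_s t 13 167 1 = true := ex3_b k76_pm_102_s s131_pm_102_s

theorem s133_pm_102_s : ∃ t, chk3 f_pm_102_s t 13 83 1 = true := ex3_b k75_pm_102_s s132_pm_102_s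

theorem s134_pm_102_s : ∃ t, chk3 f_pm_102_s t 6 83 1 = true := ex3_a k74_pm_102_s s133_pm_102_s

theorem s135_pm_102_s : ∃ t, chk3 f_pm_102_s t 6 41 1 = true := ex3_b k73_pm_102_s s134_pm_102_s

theorem s136_pm_102_s : ∃ t, chk3 f_pm_102_s t 27 40 1 = true := ex3_b k71_pm_102_s k72_pm_102_s

theorem s137_pm_102_s : ∃ t, chk3 f_pm_102_s t 13 40 1 = true := ex3_a k70_pm_102_s s136_pm_102_s

theorem s138_pm_102_s : ∃ t, chk3 f_pm_102_s t 6 40 1 = true := ex3_a k69_pm_102_s s137_pm_102_s

theorem s139_pm_102_s : ∃ t, chk3 f_pm_102_s t 6 20 1 = true := ex3_b s138_pm_102_s s135_pm_102_s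

theorem s140_pm_102_s : ∃ t, chk3 f_pm_102_s t 6 10 1 = true := ex3_b s139_pm_102_s k79_pm_102_s

theorem s141_pm_102_s : ∃ t, chk3 f_pm_102_s t 6 5 1 = true := ex3_b s140_pm_102_s k80_pm_102_s

theorem s142_pm_102_s : ∃ t, chk3 f_pm_102_s t 3 5 1 = true := ex3_a s141_pm_102_s s130_pm_102_s

theorem s143_pm_102_s : ∃ t, chk3 f_pm_102_s t 15 19 1 = true := ex3_a k67_pm_102_s k68_pm_102_s

theorem s144_pm_102_s : ∃ t, chk3 f_pm_102_s t 29 19 1 = true := ex3_b k65_pm_102_s k66_pm_102_s

theorem s145_pm_102_s : ∃ t, chk3 f_pm_102_s t 28 19 3 = true := ex3_b k63_pm_102_s k64_pm_102_s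

theorem s146_pm_102_s : ∃ t, chk3 f_pm_102_s t 28 19 2 = true := ex3_b k61_pm_102_s k62_pm_102_s

theorem s147_pm_102_s : ∃ t, chk3 f_pm_102_s t 28 19 1 = true := ex3_c s146_pm_102_s s145_pm_102_s

theorem s148_pm_102_s : ∃ t, chk3 f_pm_102_s t 14 19 1 = true := ex3_a s147_pm_102_s s144_pm_102_s

theorem s149_pm_102_s : ∃ t, chk3 f_pm_102_s t 7 19 1 = true := ex3_a s148_pm_102_s s143_pm_102_s

theorem s150_pm_102_s : ∃ t, chk3 f_pm_102_s t 15 18 1 = true := ex3_a k59_pm_102_s k60_pm_102_s

theorem s151_pm_102_s : ∃ t, chk3 f_pm_102_s t 58 36 1 = true := ex3_b k55_pm_102_s k56_pm_102_s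

theorem s152_pm_102_s : ∃ t, chk3 f_pm_102_s t 29 36 1 = true := ex3_a s151_pm_102_s k57_pm_102_s

theorem s153_pm_102_s : ∃ t, chk3 f_pm_102_s t 29 18 1 = true := ex3_b s152_pm_102_s k58_pm_102_s

theorem s154_pm_102_s : ∃ t, chk3 f_pm_102_s t 28 37 1 = true := ex3_b k53_pm_102_s k54_pm_102_s

theorem s155_pm_102_s : ∃ t, chk3 f_pm_102_s t 28 18 1 = true := ex3_b k52_pm_102_s s154_pm_102_s

theorem s156_pm_102_s : ∃ t, chk3 f_pm_102_s t 14 18 1 = true := ex3_a s155_pm_102_s s153_pm_102_s

theorem s157_pm_102_s : ∃ t, chk3 f_pm_102_s t 7 18 1 = true := ex3_a s156_pm_102_s s150_pm_102_s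

theorem s158_pm_102_s : ∃ t, chk3 f_pm_102_s t 7 9 1 = true := ex3_b s157_pm_102_s s149_pm_102_s

theorem s159_pm_102_s : ∃ t, chk3 f_pm_102_s t 31 34 1 = true := ex3_a k49_pm_102_s k50_pm_102_s

theorem s160_pm_102_s : ∃ t, chk3 f_pm_102_s t 31 17 1 = true := ex3_b s159_pm_102_s k51_pm_102_s

theorem s161_pm_102_s : ∃ t, chk3 f_pm_102_s t 30 35 1 = true := ex3_a k47_pm_102_s k48_pm_102_s

theorem s162_pm_102_s : ∃ t, chk3 f_pm_102_s t 61 34 1 = true := ex3_b k45_pm_102_s k46_pm_102_s

theorem s163_pm_102_s : ∃ t, chk3 f_pm_102_s t 30 34 1 = true := ex3_a k44_pm_102_s s162_pm_102_s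

theorem s164_pm_102_s : ∃ t, chk3 f_pm_102_s t 30 17 1 = true := ex3_b s163_pm_102_s s161_pm_102_s

theorem s165_pm_102_s : ∃ t, chk3 f_pm_102_s t 15 17 1 = true := ex3_a s164_pm_102_s s160_pm_102_s

theorem s166_pm_102_s : ∃ t, chk3 f_pm_102_s t 63 33 1 = true := ex3_a k42_pm_102_s k43_pm_102_s

theorem s167_pm_102_s : ∃ t, chk3 f_pm_102_s t 124 67 1 = true := ex3_b k39_pm_102_s k40_pm_102_s

theorem s168_pm_102_s : ∃ t, chk3 f_pm_102_s t 62 67 1 = true := ex3_a s167_pm_102_s k41_pm_102_s

theorem s169_pm_102_s : ∃ t, chk3 f_pm_102_s t 125 132 1 = true := ex3_a k36_pm_102_s k37_pm_102_s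

theorem s170_pm_102_s : ∃ t, chk3 f_pm_102_s t 125 66 1 = true := ex3_b s169_pm_102_s k38_pm_102_s

theorem s171_pm_102_s : ∃ t, chk3 f_pm_102_s t 62 66 1 = true := ex3_a k35_pm_102_s s170_pm_102_s

theorem s172_pm_102_s : ∃ t, chk3 f_pm_102_s t 62 33 1 = true := ex3_b s171_pm_102_s s168_pm_102_s

theorem s173_pm_102_s : ∃ t, chk3 f_pm_102_s t 31 33 1 = true := ex3_a s172_pm_102_s s166_pm_102_s

theorem s174_pm_102_s : ∃ t, chk3 f_pm_102_s t 31 16 1 = true := ex3_b k34_pm_102_s s173_pm_102_s

theorem s175_pm_102_s : ∃ t, chk3 f_pm_102_s t 15 16 1 = true := ex3_a k33_pm_102_s s174_pm_102_s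

theorem s176_pm_102_s : ∃ t, chk3 f_pm_102_s t 15 8 1 = true := ex3_b s175_pm_102_s s165_pm_102_s

theorem s177_pm_102_s : ∃ t, chk3 f_pm_102_s t 7 8 1 = true := ex3_a k32_pm_102_s s176_pm_102_s

theorem s178_pm_102_s : ∃ t, chk3 f_pm_102_s t 7 4 1 = true := ex3_b s177_pm_102_s s158_pm_102_s

theorem s179_pm_102_s : ∃ t, chk3 f_pm_102_s t 55 39 1 = true := ex3_a k30_pm_102_s k31_pm_102_s

theorem s180_pm_102_s : ∃ t, chk3 f_pm_102_s t 27 39 1 = true := ex3_a k29_pm_102_s s179_pm_102_s

theorem s181_pm_102_s : ∃ t, chk3 f_pm_102_s t 13 39 1 = true := ex3_a k28_pm_102_s s180_pm_102_s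

theorem s182_pm_102_s : ∃ t, chk3 f_pm_102_s t 13 77 1 = true := ex3_a k26_pm_102_s k27_pm_102_s

theorem s183_pm_102_s : ∃ t, chk3 f_pm_102_s t 27 76 1 = true := ex3_a k24_pm_102_s k25_pm_102_s

theorem s184_pm_102_s : ∃ t, chk3 f_pm_102_s t 13 76 1 = true := ex3_a k23_pm_102_s s183_pm_102_s

theorem s185_pm_102_s : ∃ t, chk3 f_pm_102_s t 13 38 1 = true := ex3_b s184_pm_102_s s182_pm_102_s

theorem s186_pm_102_s : ∃ t, chk3 f_pm_102_s t 13 19 1 = true := ex3_b s185_pm_102_s s181_pm_102_s

theorem s187_pm_102_s : ∃ t, chk3 f_pm_102_s t 6 19 1 = true := ex3_a k22_pm_102_s s186_pm_102_s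

theorem s188_pm_102_s : ∃ t, chk3 f_pm_102_s t 6 9 1 = true := ex3_b k21_pm_102_s s187_pm_102_s

theorem s189_pm_102_s : ∃ t, chk3 f_pm_102_s t 6 4 1 = true := ex3_b k20_pm_102_s s188_pm_102_s

theorem s190_pm_102_s : ∃ t, chk3 f_pm_102_s t 3 4 1 = true := ex3_a s189_pm_102_s s178_pm_102_s

theorem s191_pm_102_s : ∃ t, chk3 f_pm_102_s t 3 2 1 = true := ex3_b s190_pm_102_s s142_pm_102_s

theorem s192_pm_102_s : ∃ t, chk3 f_pm_102_s t 3 1 1 = true := ex3_b s191_pm_102_s s109_pm_102_s

theorem s193_pm_102_s : ∃ t, chk3 f_pm_102_s t 22 167 1 = true := ex3_b k14_pm_102_s k15_pm_102_s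

theorem s194_pm_102_s : ∃ t, chk3 f_pm_102_s t 11 167 1 = true := ex3_a s193_pm_102_s k16_pm_102_s

theorem s195_pm_102_s : ∃ t, chk3 f_pm_102_s t 10 167 1 = true := ex3_a k12_pm_102_s k13_pm_102_s

theorem s196_pm_102_s : ∃ t, chk3 f_pm_102_s t 5 167 1 = true := ex3_a s195_pm_102_s s194_pm_102_s

theorem s197_pm_102_s : ∃ t, chk3 f_pm_102_s t 22 166 1 = true := ex3_b k9_pm_102_s k10_pm_102_s

theorem s198_pm_102_s : ∃ t, chk3 f_pm_102_s t 11 166 1 = true := ex3_a s197_pm_102_s k11_pm_102_s

theorem s199_pm_102_s : ∃ t, chk3 f_pm_102_s t 5 166 1 = true := ex3_a k8_pm_102_s s198_pm_102_s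

theorem s200_pm_102_s : ∃ t, chk3 f_pm_102_s t 5 83 1 = true := ex3_b s199_pm_102_s s196_pm_102_s

theorem s201_pm_102_s : ∃ t, chk3 f_pm_102_s t 22 165 1 = true := ex3_a k5_pm_102_s k6_pm_102_s

theorem s202_pm_102_s : ∃ t, chk3 f_pm_102_s t 22 82 1 = true := ex3_b k4_pm_102_s s201_pm_102_s

theorem s203_pm_102_s : ∃ t, chk3 f_pm_102_s t 11 82 1 = true := ex3_a s202_pm_102_s k7_pm_102_s

theorem s204_pm_102_s : ∃ t, chk3 f_pm_102_s t 5 82 1 = true := ex3_a k3_pm_102_s s203_pm_102_s

theorem s205_pm_102_s : ∃ t, chk3 f_pm_102_s t 5 41 1 = true := ex3_b s204_pm_102_s s200_pm_102_s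

theorem s206_pm_102_s : ∃ t, chk3 f_pm_102_s t 2 41 1 = true := ex3_a k2_pm_102_s s205_pm_102_s

theorem s207_pm_102_s : ∃ t, chk3 f_pm_102_s t 2 20 1 = true := ex3_b k1_pm_102_s s206_pm_102_s

theorem s208_pm_102_s : ∃ t, chk3 f_pm_102_s t 2 10 1 = true := ex3_b s207_pm_102_s k17_pm_102_s

theorem s209_pm_102_s : ∃ t, chk3 f_pm_102_s t 2 5 1 = true := ex3_b s208_pm_102_s k18_pm_102_s

theorem s210_pm_102_s : ∃ t, chk3 f_pm_102_s t 2 2 1 = true := ex3_b k0_pm_102_s s209_pm_102_s

theorem s211_pm_102_s : ∃ t, chk3 f_pm_102_s t 2 1 1 = true := ex3_b s210_pm_102_s k19_pm_102_s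

theorem s212_pm_102_s : ∃ t, chk3 f_pm_102_s t 1 1 1 = true := ex3_a s211_pm_102_s s192_pm_102_s

theorem c_pm_102_s : CertNE 536870912 536870912 0 536870912 697932185 42949674 3 eng mog cd0q1 cd0q0 pd2 true true false .npp 1 0 2
    ndB0q1 ndB0q0 pcB2 cut_pm_102_s Ext.none :=
  certNE1 (fam := true) (s1 := true) (s2 := false) (a := 1) (b := 0) (c := 2) (cn := .npp) (n1 := ndB0q1) (n2 := ndB0q0) (pc := pcB2) (cut := cut_pm_102_s) (xt := Ext.none) (P1 := 536870912) (W1 := 536870912) (P2 := 0) (W2 := 536870912) (P3 := 697932185) (W3 := 42949674) (N0 := 3) (En := eng) (mo := mog) (C1 := cd0q1) (C2 := cd0q0) (C3 := pd2)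
    rfl (fun _ => rfl) s212_pm_102_s

noncomputable def cut_pm_102_t : Cut := Cut.of [[⟨3, 0, 0, 2845415833⟩], [⟨0, 1, 0, 33554432⟩, ⟨1, 0, 0, 33554432⟩, ⟨2, 1, 0, 33554432⟩]]

noncomputable def f_pm_102_t : ℕ → ℕ → ℕ → ℕ → Bool := onCell 536870912 536870912 0 536870912 697932185 42949674
    (rowNE 3 eng mog cd0q1 cd0q0 pd2 0 true true false .npp 1 0 2 (qsf 536870912 536870912 0 536870912 2) ndB0q1 ndB0q0 pcB2 cut_pm_102_t Ext.none)

def k0_pm_102_t : ∃ t, chk3 f_pm_102_t t 1 1 1 = true :=
  ⟨(l 6), by decide +kernel⟩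

theorem c_pm_102_t : CertNE 536870912 536870912 0 536870912 697932185 42949674 3 eng mog cd0q1 cd0q0 pd2 true true false .npp 1 0 2
    ndB0q1 ndB0q0 pcB2 cut_pm_102_t Ext.none :=
  certNE0 (fam := true) (s1 := true) (s2 := false) (a := 1) (b := 0) (c := 2) (cn := .npp) (n1 := ndB0q1) (n2 := ndB0q0) (pc := pcB2) (cut := cut_pm_102_t) (xt := Ext.none) (P1 := 536870912) (W1 := 536870912) (P2 := 0) (W2 := 536870912) (P3 := 697932185) (W3 := 42949674) (N0 := 3) (En := eng) (mo := mog) (C1 := cd0q1) (C2 := cd0q0) (C3 := pd2)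
    rfl k0_pm_102_t

noncomputable def cut_pm_112_s : Cut := Cut.of [[⟨4, 0, 0, 1449551462⟩]]

noncomputable def f_pm_112_s : ℕ → ℕ → ℕ → ℕ → Bool := onCell 1073741824 536870912 536870912 536870912 697932185 42949674
    (rowNE 3 eng mog cd0q1 cd0q1 pd2 2 true true false .dn 1 1 2 (qsf 536870912 536870912 536870912 536870912 2) ndB0q1 ndB0q1 pcB2 cut_pm_112_s Ext.none)

def k0_pm_112_s : ∃ t, chk3 f_pm_112_s t 4 2 1 = true :=
  ⟨(a (l 3) (l 3)), by decide +kernel⟩

def k1_pm_112_s : ∃ t, chk3 f_pm_112_s t 40 2 1 = true :=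
  ⟨(b (l 3) (b (l 3) (l 1))), by decide +kernel⟩

def k2_pm_112_s : ∃ t, chk3 f_pm_112_s t 82 4 1 = true :=
  ⟨(l 3), by decide +kernel⟩

def k3_pm_112_s : ∃ t, chk3 f_pm_112_s t 166 4 1 = true :=
  ⟨(b (b (b (a (l 3) (a (l 3) (a (b (c (l 16779152) (l 109689441399)) (l 3)) (c (b (l 16776936) (l 118816247687)) (b (l 16776888) (l 124184956263)))))) (l 3)) (l 3)) (l 3)), by decide +kernel⟩

def k4_pm_112_s : ∃ t, chk3 f_pm_112_s t 167 16 1 = true :=
  ⟨(b (a (a (a (b (c (l 16776592) (l 16776496)) (b (l 16776912) (l 60297316727))) (c (b (l 16776256) (l 16776696)) (b (l 16776112) (l 16777944)))) (b (a (l 16775816) (a (b (l 16775376) (l 16775680)) (c (l 16775440) (l 16775208)))) (a (c (l 16776376) (l 16776272)) (c (l 16776056) (l 16775904))))) (a (a (a (b (c (l 16775208) (l 16769704)) (b (l 16772944) (l 16773208))) (a (b (c (l 16775016) (l 16774688)) (b (l 16775376) (l 16773040))) (b (c (b (l 16769456) (l 16769816)) (b (l 16768984) (l 16772040))) (c (b (l 16772752) (l 16773024)) (b (l 16772424) (l 16772760))))))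 (b (l 16770472) (l 16775120))) (b (l 16773848) (b (l 16774424) (l 16774752))))) (a (a (a (b (c (l 133311762327) (l 148881018599)) (l 3)) (c (b (c (l 16777040) (l 16777040)) (b (l 16778456) (l 322290321207))) (b (c (l 16778352) (l 16778760)) (b (l 113984408391) (l 377588025111))))) (b (a (c (l 16778032) (b (l 16776600) (l 16776784))) (a (c (l 16776504) (l 16776440)) (l 16776320))) (b (a (c (l 16776952) (l 16776952)) (a (l 16776720) (l 16773952))) (a (a (l 16777184) (l 16777024)) (a (l 16776872) (l 16775408)))))) (a (a (a (b (b (l 16776056) (l 16776256)) (c (l 16776536) (l 16777112))) (a (b (b (l 16773288) (a (l 16776144) (l 16776096))) (b (l 16776304) (l 16776464))) (a (a (b (c (l 16773408) (l 16773240)) (b (l 16773624) (l 16776408))) (b (b (l 16773168) (l 16773392)) (c (l 16776352) (b (l 16773528) (l 16773704))))) (b (l 16775208) (b (l 16776184) (l 16776344)))))) (b (b (l 16775552) (l 16775792)) (b (l 16776000) (l 16776168)))) (b (b (l 16775040) (l 16775296)) (b (l 16775520) (l 16775696)))))), by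 decide +kernel⟩

def k5_pm_112_s : ∃ t, chk3 f_pm_112_s t 167 17 1 = true :=
  ⟨(a (a (l 3) (b (a (b (a (b (l 362018768023) (l 3)) (c (b (l 16777152) (l 16777152)) (b (l 16777160) (c (l 16777144) (l 226190427111))))) (l 3)) (a (c (b (b (l 16776992) (l 16777112)) (l 105394472999)) (b (b (l 16776992) (c (l 16777120) (l 49559896695))) (b (l 86603990199) (l 154786595831)))) (c (b (l 16777560) (l 16777112)) (b (b (l 16776832) (l 16776952)) (b (l 16777064) (l 16777168)))))) (b (a (l 3) (a (l 3) (b (a (l 164987142631) (l 70497862375)) (l 3)))) (l 3)))) (a (b (a (a (c (b (b (l 16776728) (l 16776832)) (l 16777552)) (b (b (l 16776672) (c (l 16776808) (l 16777440))) (c (l 16776960) (b (l 16776248) (l 16777000))))) (a (b (b (l 16776592) (a (l 16776728) (l 16776688))) (c (l 16776880) (a (l 16776856) (l 16776824)))) (b (b (l 16776504) (b (l 16776600) (l 16776656))) (c (l 16776808) (l 16776920))))) (b (b (l 16776304) (l 16776432)) (b (l 16776544) (l 16776640)))) (a (a (b (a (c (l 16777176) (c (l 16777176) (l 16777832)))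 (c (l 16777104) (c (l 16777096) (l 16777096)))) (a (b (l 152639111623) (l 3)) (b (a (l 16777216) (l 16777184)) (l 129553662503)))) (a (b (c (l 16777032) (a (l 16777040) (l 16777328))) (a (b (l 16777144) (l 16777192)) (b (l 16777104) (l 16777160)))) (b (c (l 16776968) (l 16777264)) (c (l 16777088) (l 16777728))))) (c (b (l 16776792) (l 16776912)) (b (l 16776736) (l 16776872))))) (b (b (c (l 16775984) (l 16777136)) (l 16777448)) (b (c (l 16776376) (l 16777576)) (b (l 16776424) (l 16776480)))))), by decide +kernel⟩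

def k6_pm_112_s : ∃ t, chk3 f_pm_112_s t 334 9 1 = true :=
  ⟨(b (l 3) (a (l 3) (a (b (l 3) (a (b (l 3) (b (l 3) (l 283098744087))) (c (b (l 151028499927) (l 84456507303)) (b (b (l 3) (l 168208368535)) (b (l 98415150183) (l 16777072)))))) (a (b (l 3) (c (b (c (l 16777208) (l 16778520)) (l 16777640)) (b (a (b (l 3) (l 16777200)) (b (l 16777200) (l 16777128))) (b (l 16777048) (l 16776912))))) (b (b (l 3) (c (l 120426858023) (b (l 161765917239) (l 91435828167)))) (c (b (l 16777720) (l 16776848)) (b (b (l 16777112) (l 16777008)) (b (l 16776568) (l 16776760))))))))), by decide +kernel⟩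

def k7_pm_112_s : ∃ t, chk3 f_pm_112_s t 670 9 1 = true :=
  ⟨(a (b (a (b (l 3) (l 3)) (a (b (b (a (b (l 16777192) (l 3)) (b (l 16777200) (l 16777200))) (l 3)) (b (a (l 3) (b (l 3) (l 146196660583))) (a (b (l 3) (l 16777208)) (c (l 16777200) (a (l 16777864) (l 16777848)))))) (b (b (c (l 16777160) (l 16777808)) (b (l 16777192) (l 16777200))) (b (c (l 16777192) (l 16777848)) (b (l 16777160) (l 16777128)))))) (a (b (b (a (c (l 16777160) (c (l 16777152) (l 154786595831))) (c (l 16777200) (c (l 16777200) (l 95730795863)))) (a (c (l 16777136) (c (l 16777136) (l 16777792))) (c (l 16777072) (c (l 16777064) (l 16777056))))) (c (b (c (l 16776936) (l 16776928)) (l 16776728)) (b (c (l 16776920) (b (l 16776960) (l 16776848))) (b (c (l 16776752) (l 16776728)) (l 16776608))))) (b (a (b (a (b (l 16777176) (l 16777120)) (c (l 16777112) (a (l 16777768) (l 16777584)))) (c (l 16777664) (c (l 16776992) (b (l 16777016) (l 16776936))))) (b (b (l 16777088) (l 16777032)) (c (l 16776944) (b (l 16775640) (l 16775552))))) (a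 (b (c (l 16776840) (b (l 16777504) (l 16776744))) (b (a (l 16776680) (l 16776640)) (l 16776536))) (b (c (l 16776776) (c (l 16776728) (l 16776704))) (b (b (l 16776608) (l 16776552)) (l 16776456))))))) (b (c (b (b (l 16776992) (l 16777024)) (b (l 16777024) (l 16776984))) (b (b (l 16776960) (l 16777496)) (b (l 16777000) (l 16776952)))) (b (c (b (l 16776896) (l 16776768)) (b (l 16776856) (l 16776712))) (b (b (l 16776616) (l 16776512)) (c (l 16776384) (l 16777256)))))), by decide +kernel⟩

def k8_pm_112_s : ∃ t, chk3 f_pm_112_s t 671 9 1 = true :=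
  ⟨(b (b (b (l 16776536) (c (l 16776616) (l 16776536))) (b (c (l 16776616) (l 16776536)) (c (l 16776576) (l 16777800)))) (b (b (b (l 16776472) (l 16776416)) (c (l 16776368) (l 16777560))) (b (c (l 16776192) (l 16776056)) (c (l 16775968) (l 16777120))))), by decide +kernel⟩

def k9_pm_112_s : ∃ t, chk3 f_pm_112_s t 82 20 1 = true :=
  ⟨(l 3), by decide +kernel⟩

def k10_pm_112_s : ∃ t, chk3 f_pm_112_s t 83 40 1 = true :=
  ⟨(a (a (l 3) (a (l 3) (a (l 3) (b (l 3) (c (l 150491630359) (l 186461981303)))))) (a (a (a (b (l 3) (b (l 118816247031) (l 60297316663))) (c (a (b (l 210084301671) (l 16776992)) (b (l 160692178487) (l 16776840))) (b (b (l 261623909207) (l 16777160)) (b (l 16776984) (l 16776792))))) (a (b (a (b (l 16777736) (l 16776928)) (b (l 16776928) (l 16776776))) (c (l 16776616) (l 16777544))) (a (b (b (l 16776784) (l 16776632)) (l 16777024)) (b (b (l 16776648) (l 16773864)) (l 16776216))))) (a (a (a (b (c (l 16776472) (b (l 16776464) (l 16776296))) (c (l 16781376) (l 16778608))) (a (b (b (l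 16777712) (l 16776232)) (b (a (l 16776064) (l 16776016)) (l 16773192))) (a (a (b (b (l 16776344) (l 16776176)) (b (l 16775968) (l 16775736))) (b (c (l 16776288) (b (l 16773640) (l 16778688))) (b (l 16773312) (l 16773064)))) (b (b (l 16776288) (l 16776104)) (l 16774464))))) (b (b (l 16776120) (l 16775936)) (b (l 16775720) (l 16775472)))) (b (b (l 16775672) (l 16775488)) (b (l 16775264) (l 16775008)))))), by decide +kernel⟩

def k11_pm_112_s : ∃ t, chk3 f_pm_112_s t 83 41 1 = true :=
  ⟨(a (a (l 3) (a (a (l 3) (b (l 3) (a (l 116668763143) (l 88214605287)))) (a (b (c (l 130627406839) (l 146733533943)) (c (l 16777000) (l 16776960))) (b (c (l 16778448) (l 80161541991)) (c (l 16776672) (l 16776576)))))) (b (a (c (a (a (l 16776840) (l 16776536)) (a (l 16776232) (l 16775928))) (a (a (l 16776776) (l 16776440)) (a (l 16776104) (l 16775752)))) (a (a (a (b (l 16773088) (l 16772800)) (a (c (l 16772896) (l 16772656)) (c (b (l 16772920) (l 16772632)) (b (l 16772632) (l 16772280))))) (b (l 16775184) (l 16774856)))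 (b (l 16774712) (l 16774384)))) (a (a (a (a (l 16776368) (l 16776200)) (c (l 16776032) (l 16775856))) (a (b (l 16770520) (l 16775448)) (a (b (l 16775504) (l 16775168)) (c (l 16775264) (l 16775016))))) (a (a (a (c (l 16775048) (l 16769520)) (a (c (l 16774864) (l 16774512)) (c (b (l 16769680) (l 16769304)) (b (l 16771872) (l 16768800))))) (b (l 16774480) (l 16774064))) (l 16773800))))), by decide +kernel⟩

def k12_pm_112_s : ∃ t, chk3 f_pm_112_s t 41 21 1 = true :=
  ⟨(a (l 1) (a (l 1) (a (l 1) (a (l 1) (b (b (l 16778104) (l 1)) (l 1)))))), by decide +kernel⟩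

def k13_pm_112_s : ∃ t, chk3 f_pm_112_s t 41 11 1 = true :=
  ⟨(l 1), by decide +kernel⟩

def k14_pm_112_s : ∃ t, chk3 f_pm_112_s t 21 4 1 = true :=
  ⟨(b (b (a (a (b (b (b (l 16775392) (l 16775896)) (b (l 16776352) (l 16776768))) (b (b (l 16777152) (c (l 16777784) (l 16777208))) (a (b (l 16773888) (l 16774112)) (l 16771392)))) (b (b (l 16764016) (l 16765288)) (b (l 16766392) (l 16777840)))) (b (b (l 16774872) (a (l 16758976) (l 16752368))) (b (l 16778320) (l 16779800)))) (a (a (b (b (a (b (l 16776912) (l 16774432)) (l 16777128)) (b (l 16775960) (l 16776088))) (b (a (l 16777448) (l 16772440)) (b (l 16775072) (l 16776456)))) (b (b (l 16778544) (l 16768552)) (b (l 16768848) (l 16769096)))) (a (b (a (l 16774960) (l 16761920)) (l 16774760)) (b (l 16757880) (l 16759456))))) (b (b (a (a (b (a (l 16777040) (l 16772752)) (a (c (l 16775264) (l 16777624)) (l 16772824))) (l 16777184)) (l 16783400)) (a (a (b (a (c (l 16775272) (l 16777296)) (l 16772848)) (a (c (l 16775232) (l 16777584)) (l 16772816))) (b (l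 16769432) (l 16769416))) (a (l 16764920) (l 16760472)))) (a (a (a (b (b (c (l 16775144) (l 16777488)) (c (l 16775016) (l 16777344))) (b (c (l 16774832) (l 16777144)) (b (l 16774504) (l 16774368)))) (b (b (l 16772728) (l 16772584)) (b (l 16772384) (l 16772120)))) (b (b (l 16769336) (l 16769192)) (c (l 16779848) (l 16778816)))) (a (b (l 16764808) (l 16764392)) (b (l 16760432) (l 16760032)))))), by decide +kernel⟩

def k15_pm_112_s : ∃ t, chk3 f_pm_112_s t 21 5 1 = true :=
  ⟨(b (b (a (b (b (a (a (b (l 16774216) (l 16774008)) (l 16777032)) (l 16773592)) (a (a (b (l 16773760) (l 16773472)) (l 16771240)) (a (l 16768904) (l 16766624)))) (a (b (b (l 16777160) (l 16776776)) (b (l 16776360) (l 16775896))) (b (l 16777400) (l 16765872)))) (b (b (l 16761656) (l 16771520)) (a (b (l 16762312) (l 16761128)) (b (l 16757904) (l 16756616))))) (a (b (a (b (b (l 16775400) (l 16774848)) (c (l 59626220663) (l 16773504))) (b (l 16764680) (l 16763328))) (a (l 1) (b (l 16772280) (l 1)))) (b (a (b (l 16759736) (l 16758192))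 (l 16775224)) (b (l 16773248) (l 47815054983))))) (b (a (l 1) (b (a (l 1) (l 16767688)) (l 1))) (l 1))), by decide +kernel⟩

def k16_pm_112_s : ∃ t, chk3 f_pm_112_s t 11 2 1 = true :=
  ⟨(b (b (a (b (b (a (b (l 16739992) (l 16742232)) (l 16727128)) (a (b (l 16744360) (l 16746488)) (l 16753240))) (b (a (b (l 16748512) (l 16750152)) (l 16737056)) (a (l 16772792) (l 16741200)))) (b (b (a (l 16712992) (l 16699000)) (a (l 16718584) (l 16704872))) (b (a (l 16724320) (l 16711064)) (a (l 16729352) (l 16717088))))) (a (b (b (a (l 16753328) (l 16743704)) (a (l 16753856) (l 16745160))) (a (b (l 16753968) (l 16753648)) (l 16766472))) (b (b (a (l 16733560) (l 16722256)) (l 16751928)) (a (l 16779480) (l 16729336))))) (b (a (b (a (b (l 16752792) (l 16771840)) (b (l 16744648) (l 16742736))) (b (a (a (l 16749736) (l 16745424)) (l 16739352)) (a (b (l 16744408) (l 16742160)) (b (l 16735872) (l 16733384))))) (b (b (l 16733104) (l 16731376)) (b (l 16749024) (a (l 16726872) (l 16719728))))) (a (b (b (a (a (l 16741472)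 (l 16736512)) (l 16729672)) (a (b (l 16735864) (l 1)) (l 16745728))) (a (l 1) (b (l 16741016) (l 1)))) (b (b (a (l 16721392) (l 16714064)) (a (l 16715880) (l 16708032))) (a (b (l 16710352) (l 16726184)) (b (l 16701912) (l 16696056))))))), by decide +kernel⟩

def k17_pm_112_s : ∃ t, chk3 f_pm_112_s t 2 3 1 = true :=
  ⟨(a (l 1) (b (a (l 1) (b (a (l 1) (b (b (a (l 1) (l 16690136)) (l 1)) (l 1))) (l 1))) (l 1))), by decide +kernel⟩

def k18_pm_112_s : ∃ t, chk3 f_pm_112_s t 3 1 1 = true :=
  ⟨(a (a (b (b (b (a (b (a (b (l 16684824) (l 16691336)) (b (l 16670704) (l 16677872))) (b (a (l 16697808) (l 16684856)) (l 16718800))) (b (b (a (l 16653664) (l 16634480)) (a (l 16665016) (l 16648808))) (a (l 16676128) (b (l 16660208) (l 16667664))))) (b (a (b (l 16725776) (l 16710168)) (b (l 16680680) (l 16687560))) (a (b (l 16714560) (l 16717320)) (b (l 16694504) (l 16699440))))) (b (b (a (b (l 16718672) (l 16717816)) (l 16745344)) (a (b (l 16714808) (l 16710168)) (b (l 16703280) (l 16699520)))) (b (a (b (l 16704408)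 (l 16698064)) (b (l 16694104) (l 16687784))) (a (b (a (l 16694520) (l 16688248)) (a (l 16688112) (l 16681328))) (b (l 16680728) (l 16673504)))))) (b (b (b (a (a (b (l 16681656) (l 16673584)) (b (l 16674512) (l 16665960))) (b (l 16687232) (a (l 16660312) (l 16655528)))) (a (b (a (l 1) (l 60162924119)) (l 1)) (b (a (l 16648008) (l 16643000)) (a (l 16631680) (l 16626296))))) (b (a (l 1) (b (l 96133221431) (l 1))) (l 1))) (l 1))) (a (b (b (b (b (b (a (l 16612384) (l 6)) (a (l 16630208) (l 16608696))) (b (a (l 16644824) (l 16626888)) (l 16670208))) (b (a (l 16667880) (l 16657760)) (l 16676880))) (b (b (l 16709472) (l 16690592)) (b (l 16725416) (l 16669944)))) (b (a (b (b (l 16656184) (b (l 16638904) (l 16621840))) (b (a (l 78953246567) (l 82711327879)) (l 1))) (b (b (l 16653192) (b (l 16635736) (l 16618352))) (l 6))) (l 1))) (b (b (b (l 6) (l 6)) (l 6)) (b (l 6) (l 6))))) (b (b (l 6) (l 6)) (l 6))), by decide +kernel⟩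

theorem s19_pm_112_s : ∃ t, chk3 f_pm_112_s t 21 2 1 = true := ex3_b k14_pm_112_s k15_pm_112_s

theorem s20_pm_112_s : ∃ t, chk3 f_pm_112_s t 83 20 1 = true := ex3_b k10_pm_112_s k11_pm_112_s

theorem s21_pm_112_s : ∃ t, chk3 f_pm_112_s t 41 20 1 = true := ex3_a k9_pm_112_s s20_pm_112_s

theorem s22_pm_112_s : ∃ t, chk3 f_pm_112_s t 41 10 1 = true := ex3_b s21_pm_112_s k12_pm_112_s

theorem s23_pm_112_s : ∃ t, chk3 f_pm_112_s t 41 5 1 = true := ex3_b s22_pm_112_s k13_pm_112_s

theorem s24_pm_112_s : ∃ t, chk3 f_pm_112_s t 335 9 1 = true := ex3_a k7_pm_112_s k8_pm_112_s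

theorem s25_pm_112_s : ∃ t, chk3 f_pm_112_s t 167 9 1 = true := ex3_a k6_pm_112_s s24_pm_112_s

theorem s26_pm_112_s : ∃ t, chk3 f_pm_112_s t 167 8 1 = true := ex3_b k4_pm_112_s k5_pm_112_s

theorem s27_pm_112_s : ∃ t, chk3 f_pm_112_s t 167 4 1 = true := ex3_b s26_pm_112_s s25_pm_112_s

theorem s28_pm_112_s : ∃ t, chk3 f_pm_112_s t 83 4 1 = true := ex3_a k3_pm_112_s s27_pm_112_s

theorem s29_pm_112_s : ∃ t, chk3 f_pm_112_s t 41 4 1 = true := ex3_a k2_pm_112_s s28_pm_112_s

theorem s30_pm_112_s : ∃ t, chk3 f_pm_112_s t 41 2 1 = true := ex3_b s29_pm_112_s s23_pm_112_s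

theorem s31_pm_112_s : ∃ t, chk3 f_pm_112_s t 20 2 1 = true := ex3_a k1_pm_112_s s30_pm_112_s

theorem s32_pm_112_s : ∃ t, chk3 f_pm_112_s t 10 2 1 = true := ex3_a s31_pm_112_s s19_pm_112_s

theorem s33_pm_112_s : ∃ t, chk3 f_pm_112_s t 5 2 1 = true := ex3_a s32_pm_112_s k16_pm_112_s

theorem s34_pm_112_s : ∃ t, chk3 f_pm_112_s t 2 2 1 = true := ex3_a k0_pm_112_s s33_pm_112_s

theorem s35_pm_112_s : ∃ t, chk3 f_pm_112_s t 2 1 1 = true := ex3_b s34_pm_112_s k17_pm_112_s

theorem s36_pm_112_s : ∃ t, chk3 f_pm_112_s t 1 1 1 = true := ex3_a s35_pm_112_s k18_pm_112_s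

theorem c_pm_112_s : CertNE 536870912 536870912 536870912 536870912 697932185 42949674 3 eng mog cd0q1 cd0q1 pd2 true true false .dn 1 1 2
    ndB0q1 ndB0q1 pcB2 cut_pm_112_s Ext.none :=
  certNE2 (fam := true) (s1 := true) (s2 := false) (a := 1) (b := 1) (c := 2) (cn := .dn) (n1 := ndB0q1) (n2 := ndB0q1) (pc := pcB2) (cut := cut_pm_112_s) (xt := Ext.none) (P1 := 536870912) (W1 := 536870912) (P2 := 536870912) (W2 := 536870912) (P3 := 697932185) (W3 := 42949674) (N0 := 3) (En := eng) (mo := mog) (C1 := cd0q1) (C2 := cd0q1) (C3 := pd2)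
    rfl (fun _ => rfl) s36_pm_112_s

noncomputable def cut_pm_112_t : Cut := Cut.of [[⟨3, 0, 0, 2845415833⟩]]

noncomputable def f_pm_112_t : ℕ → ℕ → ℕ → ℕ → Bool := onCell 536870912 536870912 1073741824 536870912 697932185 42949674
    (rowNE 3 eng mog cd0q1 cd0q1 pd2 1 true true false .dn 1 1 2 (qsf 536870912 536870912 536870912 536870912 2) ndB0q1 ndB0q1 pcB2 cut_pm_112_t Ext.none)

def k0_pm_112_t : ∃ t, chk3 f_pm_112_t t 1 1 1 = true :=
  ⟨(l 6), by decide +kernel⟩

theorem c_pm_112_t : CertNE 536870912 536870912 536870912 536870912 697932185 42949674 3 eng mog cd0q1 cd0q1 pd2 true true false .dn 1 1 2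
    ndB0q1 ndB0q1 pcB2 cut_pm_112_t Ext.none :=
  certNE1 (fam := true) (s1 := true) (s2 := false) (a := 1) (b := 1) (c := 2) (cn := .dn) (n1 := ndB0q1) (n2 := ndB0q1) (pc := pcB2) (cut := cut_pm_112_t) (xt := Ext.none) (P1 := 536870912) (W1 := 536870912) (P2 := 536870912) (W2 := 536870912) (P3 := 697932185) (W3 := 42949674) (N0 := 3) (En := eng) (mo := mog) (C1 := cd0q1) (C2 := cd0q1) (C3 := pd2)
    rfl (fun _ => rfl) k0_pm_112_t

noncomputable def cut_pm_113_s : Cut := Cut.of [[⟨4, 0, 0, 1449551462⟩], [⟨0, 1, 0, 67108864⟩, ⟨1, 1, 0, 67108864⟩, ⟨2, 2, 0, 16777216⟩], [⟨0, 0, 1, 20971520⟩, ⟨1, 1, 0, 33554432⟩, ⟨2, 1, 1, 20971520⟩], [⟨0, 1, 0, 33554432⟩, ⟨1, 0, 1, 20971520⟩, ⟨2, 1, 1, 20971520⟩]]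

noncomputable def f_pm_113_s : ℕ → ℕ → ℕ → ℕ → Bool := onCell 1610612736 536870912 536870912 536870912 697932185 42949674
    (rowNE 3 eng mog cd0q1 cd0q1 pd3 2 true true false .nn 1 1 3 (qsf 536870912 536870912 536870912 536870912 3) ndB0q1 ndB0q1 pcB3 cut_pm_113_s Ext.none)

def k0_pm_113_s : ∃ t, chk3 f_pm_113_s t 1 1 1 = true :=
  ⟨(a (b (a (l 6) (l 6)) (l 6)) (l 6)), by decide +kernel⟩

theorem c_pm_113_s : CertNE 536870912 536870912 536870912 536870912 697932185 42949674 3 eng mog cd0q1 cd0q1 pd3 true true false .nn 1 1 3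
    ndB0q1 ndB0q1 pcB3 cut_pm_113_s Ext.none :=
  certNE2 (fam := true) (s1 := true) (s2 := false) (a := 1) (b := 1) (c := 3) (cn := .nn) (n1 := ndB0q1) (n2 := ndB0q1) (pc := pcB3) (cut := cut_pm_113_s) (xt := Ext.none) (P1 := 536870912) (W1 := 536870912) (P2 := 536870912) (W2 := 536870912) (P3 := 697932185) (W3 := 42949674) (N0 := 3) (En := eng) (mo := mog) (C1 := cd0q1) (C2 := cd0q1) (C3 := pd3)
    rfl (fun _ => rfl) k0_pm_113_s

noncomputable def cut_pm_113_t : Cut := Cut.of [[⟨3, 0, 0, 2845415833⟩], [⟨0, 1, 0, 67108864⟩, ⟨1, 1, 0, 67108864⟩, ⟨2, 2, 0, 16777216⟩], [⟨0, 0, 1, 20971520⟩, ⟨1, 1, 0, 33554432⟩, ⟨2, 1, 1, 20971520⟩], [⟨0, 1, 0, 33554432⟩, ⟨1, 0, 1, 20971520⟩, ⟨2, 1, 1, 20971520⟩]]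

noncomputable def f_pm_113_t : ℕ → ℕ → ℕ → ℕ → Bool := onCell 536870912 536870912 536870912 536870912 697932185 42949674
    (rowNE 3 eng mog cd0q1 cd0q1 pd3 0 true true false .nn 1 1 3 (qsf 536870912 536870912 536870912 536870912 3) ndB0q1 ndB0q1 pcB3 cut_pm_113_t Ext.none)

def k0_pm_113_t : ∃ t, chk3 f_pm_113_t t 2 1 1 = true :=
  ⟨(l 6), by decide +kernel⟩

def k1_pm_113_t : ∃ t, chk3 f_pm_113_t t 3 2 1 = true :=
  ⟨(l 6), by decide +kernel⟩

def k2_pm_113_t : ∃ t, chk3 f_pm_113_t t 6 3 1 = true :=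
  ⟨(b (l 6) (a (l 6) (b (l 6) (b (l 6) (a (l 6) (a (l 6) (b (l 6) (a (l 6) (b (l 6) (b (l 6) (c (l 16859912) (l 16894736)))))))))))), by decide +kernel⟩

def k3_pm_113_t : ∃ t, chk3 f_pm_113_t t 7 6 1 = true :=
  ⟨(a (l 6) (a (l 6) (b (l 6) (b (l 6) (b (l 6) (a (l 6) (a (l 6) (a (l 6) (b (l 6) (c (l 16859912) (l 16894736))))))))))), by decide +kernel⟩

def k4_pm_113_t : ∃ t, chk3 f_pm_113_t t 14 7 1 = true :=
  ⟨(b (l 6) (b (a (l 6) (b (a (l 6) (l 16897152)) (a (l 16889408) (c (l 16880408) (l 16886168))))) (a (a (b (b (l 6) (l 6)) (c (b (l 16827952) (a (l 16801792) (l 16803680))) (b (l 16899912) (c (l 16889600) (l 16856992))))) (b (b (l 16827256) (c (l 16874008) (l 16892976))) (a (b (l 16822136) (b (l 16822272) (l 16815816))) (b (l 16842096) (b (l 16800056) (l 16835712)))))) (b (b (a (l 16882440) (l 16854048)) (a (c (l 16872504) (l 16840216)) (c (l 16865392) (l 16808984)))) (a (a (b (l 16818456) (b (l 16793688) (l 16808416))) (b (l 16797256) (b (c (l 16865440) (l 16806624)) (l 16785656)))) (c (b (l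 16861072) (b (l 16833768) (l 16799816))) (b (a (l 16809232) (l 16801056)) (b (a (l 16797488) (l 16810360)) (a (a (l 16797688) (l 16792952)) (a (l 16788488) (l 16784224))))))))))), by decide +kernel⟩

def k5_pm_113_t : ∃ t, chk3 f_pm_113_t t 15 14 1 = true :=
  ⟨(a (b (l 6) (a (b (l 6) (l 16897152)) (b (l 16889408) (c (l 16880408) (l 16886168))))) (b (b (a (a (l 6) (l 6)) (c (a (l 16827952) (a (l 16805456) (l 16800008))) (a (l 16878944) (a (l 16860184) (l 16873736))))) (a (a (c (l 16876944) (l 16891000)) (c (l 16874008) (l 16892976))) (a (c (l 16872400) (l 16826744)) (a (b (l 16822272) (l 16800056)) (b (l 16815816) (l 16835712)))))) (a (b (a (l 16882440) (c (l 16872504) (l 16840216))) (a (l 16875024) (c (l 16865392) (l 16819464)))) (c (b (a (l 16869600) (a (l 16867160) (l 16861752))) (a (l 16861072) (a (l 16833768) (l 16799816)))) (b (a (l 16802648) (a (b (l 16817040) (l 16806624)) (l 16792368))) (a (b (l 16809232) (l 16801056)) (a (b (l 16797488) (l 16810360)) (b (c (l 16842728) (l 16831560)) (b (l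 16788488) (l 16784224)))))))))), by decide +kernel⟩

def k6_pm_113_t : ∃ t, chk3 f_pm_113_t t 30 15 1 = true :=
  ⟨(b (b (a (l 16887000) (a (l 16875344) (l 16868616))) (a (b (l 16875344) (l 16868616)) (c (l 16857144) (l 16857080)))) (b (b (a (l 16838360) (a (l 16847184) (l 16840056))) (a (b (l 16830680) (l 16804344)) (c (l 16835456) (l 16799120)))) (b (a (a (b (l 16803000) (l 16786104)) (b (l 16794512) (a (l 16790440) (l 16786552)))) (a (b (l 16807656) (a (l 16782776) (l 16779112))) (b (l 16800480) (a (l 16786056) (l 16782672))))) (c (a (b (l 16814056) (a (l 16836528) (l 16785024))) (a (b (l 16821976) (c (l 16820744) (l 16815312))) (b (l 16814024) (b (l 16789272) (a (l 16811344) (l 16786240)))))) (a (a (b (l 16803008) (b (b (l 16798616) (l 16819392)) (l 16799904))) (b (l 16796264) (b (b (l 16812808) (l 16780424)) (l 16792216)))) (b (a (l 16779624) (a (l 16806824) (l 16783216))) (b (a (a (l 16786592) (l 16783608)) (a (l 16801768) (l 16799128))) (a (a (l 16807800) (l 16804384)) (a (c (l 16803832) (l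 16798232)) (b (c (l 16800056) (l 16794880)) (l 16798496))))))))))), by decide +kernel⟩

def k7_pm_113_t : ∃ t, chk3 f_pm_113_t t 31 30 1 = true :=
  ⟨(a (b (a (l 16859328) (b (l 16853416) (l 16844744))) (c (l 16803520) (c (l 16816480) (l 16798688)))) (b (a (b (a (l 16803000) (l 16786104)) (a (l 16794512) (b (l 16790440) (l 16786552)))) (c (a (l 16814056) (b (l 16836528) (l 16806000))) (b (a (l 16803008) (a (c (l 16824048) (l 16814920)) (l 16799904))) (a (l 16796264) (a (a (l 16812808) (l 16780424)) (l 16792216)))))) (a (b (a (l 16807656) (b (l 16782776) (l 16779112))) (a (l 16800480) (b (l 16786056) (l 16782672)))) (c (b (a (l 16821976) (c (l 16820744) (l 16815312))) (a (l 16814024) (a (l 16789272) (b (l 16811344) (l 16786240))))) (a (b (l 16779624) (b (l 16806824) (l 16783216))) (a (b (b (l 16786592) (l 16783608)) (b (l 16801768) (l 16799128))) (b (b (l 16807800) (l 16804384)) (b (c (l 16803832) (l 16798232)) (a (c (l 16800056) (l 16794880)) (l 16798496)))))))))), by decide +kernel⟩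

def k8_pm_113_t : ∃ t, chk3 f_pm_113_t t 31 62 1 = true :=
  ⟨(a (c (b (l 16829096) (l 16800000)) (b (l 16807120) (l 16798984))) (a (a (c (l 16792512) (l 16789904)) (b (b (l 16789992) (l 16787008)) (c (l 16805152) (l 16802424)))) (a (a (b (b (l 16785704) (l 16782736)) (b (l 16779936) (l 16777280))) (b (c (l 16805432) (b (l 16799992) (l 16797696))) (b (b (l 16777768) (l 16776400)) (b (l 16780312) (l 16779016))))) (b (a (c (l 16781960) (b (l 16796688) (l 16794424))) (b (c (l 16782320) (a (c (l 16797008) (l 16792432)) (l 16795536))) (c (b (l 16779504) (l 16777696)) (a (c (l 16794224) (a (l 16790400) (l 16790000))) (l 16784880))))) (a (b (c (l 16776912) (l 16787056)) (c (l 16784176) (c (l 16791456) (l 16789056)))) (a (b (c (l 16775144) (c (l 16791656) (a (l 16788632) (l 16787944)))) (c (l 16782368) (b (l 16788432) (l 16787432)))) (b (c (l 16775008) (c (l 16791672) (l 16788448))) (b (c (l 16772312) (c (l 16789544) (l 16786736))) (c (l 16781048) (c (l 16788168) (a (l 16785384) (l 16785944)))))))))))),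 by decide +kernel⟩

def k9_pm_113_t : ∃ t, chk3 f_pm_113_t t 62 63 1 = true :=
  ⟨(b (a (b (l 16794120) (a (l 16789992) (l 16787008))) (c (l 16786752) (a (l 16785648) (l 16783576)))) (b (b (a (a (l 16785704) (l 16782736)) (a (l 16779936) (l 16777280))) (a (c (l 16805432) (a (l 16799992) (l 16797696))) (a (a (l 16777768) (l 16776400)) (a (l 16780312) (l 16779016))))) (a (b (c (l 16781960) (a (l 16796688) (l 16794424))) (a (c (l 16782320) (b (c (l 16797008) (l 16792432)) (l 16795536))) (c (a (l 16779504) (l 16777696)) (b (c (l 16794224) (b (l 16790400) (l 16790000))) (l 16786192))))) (b (a (c (l 16776912) (l 16787056)) (c (l 16784176) (c (l 16791456) (l 16789056)))) (b (a (c (l 16775144) (c (l 16791656) (b (l 16788632) (l 16787944)))) (c (l 16782368) (a (l 16788432) (l 16787432)))) (a (c (l 16775008) (c (l 16791672) (l 16788448))) (a (c (l 16772312) (c (l 16789544) (l 16786736))) (c (l 16781048) (c (l 16788168) (b (l 16785384) (l 16785944))))))))))), by decide +kernel⟩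

def k10_pm_113_t : ∃ t, chk3 f_pm_113_t t 63 63 1 = true :=
  ⟨(b (a (c (l 16791168) (c (l 16780680) (l 16780680))) (a (b (a (l 16795720) (b (l 16782984) (l 16781736))) (c (l 16792384) (l 16780768))) (a (a (b (c (l 16792152) (l 16778624)) (b (l 16778352) (l 14))) (b (c (l 16780432) (c (l 16788448) (l 16786608))) (l 14))) (b (a (c (l 16779224) (c (l 16786992) (l 16784968))) (b (c (l 16779336) (c (l 16786848) (a (l 16784408) (l 16784856)))) (l 14))) (l 14))))) (a (b (b (a (l 16785232) (l 16782808)) (a (a (l 16782984) (l 16781736)) (c (l 16791072) (l 16779160)))) (b (b (a (c (l 16792152) (l 16778624)) (a (l 16778352) (l 14))) (a (c (l 16780432) (c (l 16788448) (l 16786608))) (l 14))) (a (b (c (l 16779224) (c (l 16786992) (l 16784968))) (a (c (l 16779336) (c (l 16786848) (b (l 16784408) (l 16784856)))) (l 14))) (l 14)))) (b (a (c (l 16784224) (l 16781272)) (l 14)) (l 14)))), by decide +kernel⟩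

theorem s11_pm_113_t : ∃ t, chk3 f_pm_113_t t 31 63 1 = true := ex3_a k9_pm_113_t k10_pm_113_t

theorem s12_pm_113_t : ∃ t, chk3 f_pm_113_t t 31 31 1 = true := ex3_b k8_pm_113_t s11_pm_113_t

theorem s13_pm_113_t : ∃ t, chk3 f_pm_113_t t 31 15 1 = true := ex3_b k7_pm_113_t s12_pm_113_t

theorem s14_pm_113_t : ∃ t, chk3 f_pm_113_t t 15 15 1 = true := ex3_a k6_pm_113_t s13_pm_113_t

theorem s15_pm_113_t : ∃ t, chk3 f_pm_113_t t 15 7 1 = true := ex3_b k5_pm_113_t s14_pm_113_t

theorem s16_pm_113_t : ∃ t, chk3 f_pm_113_t t 7 7 1 = true := ex3_a k4_pm_113_t s15_pm_113_t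

theorem s17_pm_113_t : ∃ t, chk3 f_pm_113_t t 7 3 1 = true := ex3_b k3_pm_113_t s16_pm_113_t

theorem s18_pm_113_t : ∃ t, chk3 f_pm_113_t t 3 3 1 = true := ex3_a k2_pm_113_t s17_pm_113_t

theorem s19_pm_113_t : ∃ t, chk3 f_pm_113_t t 3 1 1 = true := ex3_b k1_pm_113_t s18_pm_113_t

theorem s20_pm_113_t : ∃ t, chk3 f_pm_113_t t 1 1 1 = true := ex3_a k0_pm_113_t s19_pm_113_t

theorem c_pm_113_t : CertNE 536870912 536870912 536870912 536870912 697932185 42949674 3 eng mog cd0q1 cd0q1 pd3 true true false .nn 1 1 3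
    ndB0q1 ndB0q1 pcB3 cut_pm_113_t Ext.none :=
  certNE0 (fam := true) (s1 := true) (s2 := false) (a := 1) (b := 1) (c := 3) (cn := .nn) (n1 := ndB0q1) (n2 := ndB0q1) (pc := pcB3) (cut := cut_pm_113_t) (xt := Ext.none) (P1 := 536870912) (W1 := 536870912) (P2 := 536870912) (W2 := 536870912) (P3 := 697932185) (W3 := 42949674) (N0 := 3) (En := eng) (mo := mog) (C1 := cd0q1) (C2 := cd0q1) (C3 := pd3)
    rfl s20_pm_113_t

noncomputable def cut_pm_123_s : Cut := Cut.of [[⟨4, 0, 0, 1449551462⟩], [⟨0, 1, 0, 67108864⟩, ⟨1, 1, 0, 67108864⟩, ⟨2, 2, 0, 16777216⟩], [⟨0, 0, 1, 20971520⟩, ⟨1, 1, 0, 33554432⟩, ⟨2, 1, 1, 20971520⟩]]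

noncomputable def f_pm_123_s : ℕ → ℕ → ℕ → ℕ → Bool := onCell 536870912 536870912 0 536870912 697932185 42949674
    (rowNE 3 eng mog cd0q1 cd0q2 pd3 0 true true false .npn 1 2 3 (qsf 536870912 536870912 0 536870912 3) ndB0q1 ndB0q2 pcB3 cut_pm_123_s Ext.none)

def k0_pm_123_s : ∃ t, chk3 f_pm_123_s t 1 1 1 = true :=
  ⟨(l 6), by decide +kernel⟩

theorem c_pm_123_s : CertNE 536870912 536870912 0 536870912 697932185 42949674 3 eng mog cd0q1 cd0q2 pd3 true true false .npn 1 2 3
    ndB0q1 ndB0q2 pcB3 cut_pm_123_s Ext.none :=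
  certNE0 (fam := true) (s1 := true) (s2 := false) (a := 1) (b := 2) (c := 3) (cn := .npn) (n1 := ndB0q1) (n2 := ndB0q2) (pc := pcB3) (cut := cut_pm_123_s) (xt := Ext.none) (P1 := 536870912) (W1 := 536870912) (P2 := 0) (W2 := 536870912) (P3 := 697932185) (W3 := 42949674) (N0 := 3) (En := eng) (mo := mog) (C1 := cd0q1) (C2 := cd0q2) (C3 := pd3)
    rfl k0_pm_123_s

end Pool.Agent.Strip051.G.I6500_6900.Tab.CS.BA00

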