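import Pool.Agent.Strip051.G.I6500_6900.StH
import Pool.Agent.Strip051.G.I6500_6900.StF

/-! # Unit strips 14 (generated) -/

set_option linter.all false
set_option maxRecDepth 100000

namespace Pool.Agent.Strip051.G.I6500_6900.Tab.St.C

open Pool.Agent.Strip051.PB Pool.Agent.Strip051.PB.T Pool.Agent.StripNear Pool.Agent.Strip051.LC
open Pool.Agent.Strip051.G.I6500_6900.Tab Pool.Agent.Strip051.G.I6500_6900.Tab.St

noncomputable def cut_A07pm_001_s1 : Cut := Cut.of [[⟨4, 0, 0, 1449551462⟩]]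

noncomputable def xt_A07pm_001_s1 : Ext := strExt6 dd true true false .u0 .s0m .u0m .up 0 0 1 rfl rfl gf1 vv ww ndB0q0 ndB7q0

noncomputable def f_A07pm_001_s1 : ℕ → ℕ → ℕ → ℕ → Bool := onCell 0 536870912 536870912 536870912 697932185 42949674
    (rowF 1 true true false .up 0 0 1 (qsf 0 536870912 0 536870912 1) ndB0q0 ndB7q0 pcB1 cut_A07pm_001_s1 xt_A07pm_001_s1)

def k0_A07pm_001_s1 : ∃ t, chk3 f_A07pm_001_s1 t 2 1 1 = true :=
  ⟨(b (l 3) (b (b (l 3) (l 2)) (l 2))), by decide +kernel⟩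

def k1_A07pm_001_s1 : ∃ t, chk3 f_A07pm_001_s1 t 6 1 1 = true :=
  ⟨(b (b (l 3) (l 3)) (b (b (a (a (l 3) (a (l 3) (b (l 3) (b (l 3) (b (l 3) (a (l 1040923663) (c (l 1040057871) (l 1040238095)))))))) (b (a (l 3) (a (b (l 3) (l 1047330831)) (b (a (l 1050132495) (l 1050150415)) (b (a (l 1050001423) (l 1050118671)) (a (l 1048707087) (l 16769536)))))) (a (a (b (l 1042219535) (l 1042619919)) (l 1043573263)) (a (b (l 1046012431) (l 1044978703)) (b (a (l 1047659023) (l 1048732687)) (l 1046971407)))))) (a (b (a (l 2) (a (l 2) (b (a (l 2) (l 1041879055)) (l 2)))) (l 2)) (b (a (b (a (b (l 1041276943) (l 1041396239)) (l 1042586639)) (a (l 1041731599) (l 1042591247))) (a (b (l 1044175887) (l 16684400)) (b (l 16701680) (l 16664928)))) (a (b (a (l 2) (l 16670768)) (l 2)) (b (a (l 16605640) (l 16627824)) (a (l 16569104) (l 16549024))))))) (b (a (l 2) (b (a (l 2) (a (l 2) (b (l 16512896) (l 2)))) (l 2))) (l 2)))), by decide +kernel⟩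

def k2_A07pm_001_s1 : ∃ t, chk3 f_A07pm_001_s1 t 7 1 1 = true :=
  ⟨(b (b (l 3) (a (b (l 3) (b (a (l 3) (a (l 3) (b (l 3) (l 1049528335)))) (a (b (l 1048745999) (l 1049196047)) (a (b (l 1047378447) (l 1048138767)) (b (c (l 1049725455) (l 1047283215)) (l 1049653263)))))) (b (b (a (l 3) (a (l 3) (l 1057511951))) (a (b (l 3) (l 1052753935)) (b (a (l 1054937103) (l 1056138255)) (a (c (l 1054831631) (l 1053275151)) (l 1055321615))))) (b (a (l 1051731471) (a (b (l 1053539343) (l 16759864)) (b (l 1054630927) (l 16700112)))) (a (b (a (l 1049835023) (l 16751384)) (a (l 16782872) (l 16678600))) (b (a (l 16690088) (l 16672672)) (l 16734672))))))) (b (b (b (a (a (b (l 1049547791) (a (b (l 1049843215) (l 16752904)) (l 1049458191))) (b (a (l 1048592399) (l 16774896)) (a (l 16731328) (l 16661704)))) (a (b (c (l 16743624) (l 16732200)) (l 16700992)) (a (l 16691200) (l 16590608)))) (b (a (a (a (l 1049115151) (l 16769456)) (l 16708360))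 (a (l 16586656) (l 16537824))) (a (a (a (l 16718040) (l 16653496)) (l 16635760)) (a (l 16555352) (l 16491904))))) (b (a (a (b (b (l 16680648) (l 16662792)) (b (l 16644800) (l 16626704))) (b (l 16664944) (a (l 16560280) (l 16534176)))) (a (a (l 16522312) (l 16491352)) (l 16441352))) (a (a (b (b (l 16608496) (l 16590136)) (b (l 16592616) (l 16573984))) (a (b (l 16525016) (l 16489072)) (l 16566952))) (a (a (l 16455648) (l 16426704)) (l 16379440))))) (b (a (b (a (b (a (l 16493824) (l 16473784)) (l 16531456)) (a (l 16517856) (l 16495872))) (a (b (l 16412664) (l 2)) (l 16477488))) (a (b (l 16458416) (l 16388640)) (b (l 16400528) (l 16337904)))) (a (b (a (l 2) (l 16369344)) (l 2)) (a (b (l 16238280) (l 16177128)) (b (l 16272464) (l 16127464))))))), by decide +kernel⟩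

theorem t3_A07pm_001_s1 : ∃ t, chk3 f_A07pm_001_s1 t 3 1 1 = true := ex3_a k1_A07pm_001_s1 k2_A07pm_001_s1

theorem t4_A07pm_001_s1 : ∃ t, chk3 f_A07pm_001_s1 t 1 1 1 = true := ex3_a k0_A07pm_001_s1 t3_A07pm_001_s1

theorem c_A07pm_001_s1 : CertF 0 536870912 0 536870912 697932185 42949674 true true false .up 0 0 1
    ndB0q0 ndB7q0 pcB1 cut_A07pm_001_s1 xt_A07pm_001_s1 :=
  certF1 (fam := true) (s1 := true) (s2 := false) (a := 0) (b := 0) (c := 1) (cn := .up) (n1 := ndB0q0) (n2 := ndB7q0) (pc := pcB1) (cut := cut_A07pm_001_s1) (xt := xt_A07pm_001_s1) (P1 := 0) (W1 := 536870912) (P2 := 0) (W2 := 536870912) (P3 := 697932185) (W3 := 42949674)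
    rfl (fun _ => rfl) t4_A07pm_001_s1

theorem s_A07pm_001_s1 {κ x : ℝ} (hκ : κ * h0 = ken x) (hx : ((697932185 : ℕ) : ℝ) / S ≤ x)
    (hx' : x ≤ (((697932185 : ℕ) : ℝ) + (42949674 : ℕ)) / S) :
    AltA (VFD κ) PP tK tL pcB [⟨3, 0, 0, 1449551462⟩] 0 0 1 0 7 (sgb true) (sgb false) x :=
  strip_altAD (m := 1449551462) true rfl hκ (SH.κ0 hκ (SH.hx1 hx).le (SH.hx2 hx').le) (SH.hx1 hx).le (SH.hx2 hx') (covB00).cov (covB70).cov hx hx' c_A07pm_001_s1 cutA_nil ((okx6 hx hx').extA (T := tt) (okx hx hx') (sideB hx hx') hκ rfl rfl (.O 0 true) (.N 0 false) (Or.inr rfl))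

noncomputable def cut_A07pm_011_s1 : Cut := Cut.of [[⟨4, 0, 0, 1449551462⟩], [⟨0, 0, 0, 53687091⟩, ⟨1, 1, 0, 53687091⟩, ⟨2, 1, 0, 53687091⟩]]

noncomputable def xt_A07pm_011_s1 : Ext := strExt6 dd true true false .u0 .s0m .u0m .pnn 0 1 1 rfl rfl gf1 vv ww ndB0q0 ndB7q1

noncomputable def f_A07pm_011_s1 : ℕ → ℕ → ℕ → ℕ → Bool := onCell 0 536870912 536870912 536870912 697932185 42949674
    (rowF 1 true true false .pnn 0 1 1 (qsf 0 536870912 536870912 536870912 1) ndB0q0 ndB7q1 pcB1 cut_A07pm_011_s1 xt_A07pm_011_s1)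

def k0_A07pm_011_s1 : ∃ t, chk3 f_A07pm_011_s1 t 1 2 1 = true :=
  ⟨(a (l 3) (a (b (l 1) (l 3)) (l 1))), by decide +kernel⟩

def k1_A07pm_011_s1 : ∃ t, chk3 f_A07pm_011_s1 t 2 6 1 = true :=
  ⟨(b (l 3) (b (l 3) (a (l 3) (a (l 3) (a (b (l 3) (a (l 3) (l 1042044943))) (b (a (l 3) (b (l 1044586511) (l 1042816527))) (l 1042520591))))))), by decide +kernel⟩

def k2_A07pm_011_s1 : ∃ t, chk3 f_A07pm_011_s1 t 4 7 1 = true :=
  ⟨(b (b (l 3) (a (l 3) (a (l 3) (a (l 3) (b (l 3) (l 1046088207)))))) (b (a (b (l 3) (a (l 3) (a (l 3) (a (l 3) (b (l 3) (l 1046637583)))))) (a (a (b (l 3) (a (b (l 3) (l 1046786575)) (l 1046750223))) (b (l 1046317583) (a (l 1046821391) (l 1046888463)))) (a (b (l 1046448143) (l 1046939151)) (b (l 1046553615) (l 1047059983))))) (a (b (a (b (l 3) (b (l 3) (b (l 3) (l 14)))) (a (a (b (l 3) (a (l 1046902799) (l 1046940175))) (a (l 1046883343) (l 1046927887))) (a (a (l 1046976015) (l 1047027727)) (l 1048688143))))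 (a (l 14) (b (a (a (a (l 1047005199) (l 1047047183)) (a (l 1047093263) (l 1047143439))) (a (l 1048254991) (l 1047323663))) (a (a (l 14) (b (l 16746720) (l 16732840))) (a (l 1050471439) (l 16729888)))))) (a (a (b (a (l 1050463759) (l 1050470415)) (a (l 1049672719) (l 1047674383))) (b (a (l 1047350287) (l 1047409167)) (b (l 16715416) (l 16688464)))) (a (b (l 1047991311) (l 1050625039)) (b (l 1047581711) (l 16660032))))))), by decide +kernel⟩

def k3_A07pm_011_s1 : ∃ t, chk3 f_A07pm_011_s1 t 5 7 1 = true :=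
  ⟨(b (a (b (a (l 3) (b (l 3) (a (l 1043706895) (l 1043470351)))) (a (b (a (l 3) (l 1045122063)) (a (l 1046077455) (l 1046088207))) (a (l 1047173135) (l 1047866895)))) (b (a (b (a (b (l 3) (l 1042342415)) (l 1042367503)) (a (b (a (l 1042768399) (l 1042816527)) (a (l 1043649551) (l 1043517455))) (b (l 1042909199) (l 1043436559)))) (b (l 1042735119) (b (l 1043102735) (l 1043531791)))) (a (b (a (l 1046457871) (l 1044225039)) (a (l 1045133839) (l 16680536))) (b (l 1045361679) (a (l 16636184) (l 16612808)))))) (b (b (a (a (a (l 1046618127) (l 1046767631)) (l 1046773775)) (a (a (l 16649824) (l 16626256)) (l 16623288))) (a (a (a (l 1047129615) (l 1047252495)) (b (l 16691568) (l 16685648))) (a (a (l 1047372303) (l 16635224)) (l 16580136)))) (a (a (a (b (l 16693728) (l 16640864)) (b (l 16652448) (l 16620000))) (b (a (l 16630560) (l 16607744)) (l 16628768))) (a (b (l 16593488) (l 16561240)) (b (a (l 16537960) (l 16515752)) (a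 (l 16505736) (l 16483816))))))), by decide +kernel⟩

def k4_A07pm_011_s1 : ∃ t, chk3 f_A07pm_011_s1 t 3 3 1 = true :=
  ⟨(b (b (a (a (a (l 3) (a (l 3) (b (l 1) (b (l 3) (b (l 3) (a (l 1040924175) (l 1040017423))))))) (b (l 1) (a (a (b (l 1) (l 1041548303)) (l 1)) (l 1)))) (l 1)) (a (a (b (a (b (l 3) (l 1043502095)) (a (l 1041707535) (b (a (l 1041097231) (l 1041880591)) (l 1041737231)))) (a (b (a (l 1043088911) (l 1042891279)) (a (a (l 1043112975) (l 1043217935)) (l 1043239951))) (b (l 1042544655) (l 1043043855)))) (b (a (b (a (b (l 1041278479) (l 1041397263)) (l 1042588175)) (a (l 1041734159) (l 16707656))) (b (l 1) (a (l 16642656) (l 1)))) (a (b (a (l 16696936) (l 16670960)) (a (l 16619024) (l 16592632))) (b (a (l 16605832) (l 16586080)) (a (l 16569296) (l 16549216)))))) (a (b (l 1) (a (b (l 1) (b (l 1) (l 16553336))) (l 1))) (l 1)))) (a (b (a (b (a (b (a (l 1043310095) (l 16707256)) (a (l 16696632) (l 16629880))) (b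 (l 1043475471) (l 1043998223))) (a (b (l 1046683663) (l 16618896)) (b (l 16599736) (l 16568616)))) (b (a (b (l 1046136335) (a (l 16549888) (l 16523816))) (a (b (l 16533448) (l 16499448)) (b (l 16513080) (l 16478088)))) (a (b (l 16546384) (l 16473984)) (b (l 16455200) (l 16423216))))) (a (b (a (b (l 16587776) (l 16514392)) (b (l 16496672) (l 16466984))) (a (b (l 16482944) (a (l 16462424) (l 16440944))) (l 16464504))) (a (b (l 16431016) (l 16375864)) (b (l 16378368) (l 16327120))))) (b (a (b (a (b (a (l 16494024) (l 16473992)) (l 16531888)) (a (l 16518352) (l 1))) (a (l 16501168) (l 16436400))) (a (b (l 1) (l 16389648)) (l 1))) (a (b (a (l 16331672) (l 16286216)) (a (l 16275128) (l 16226128))) (a (b (l 16323072) (l 16177920)) (b (l 16189648) (l 16128408))))))), by decide +kernel⟩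

theorem t5_A07pm_011_s1 : ∃ t, chk3 f_A07pm_011_s1 t 2 7 1 = true := ex3_a k2_A07pm_011_s1 k3_A07pm_011_s1

theorem t6_A07pm_011_s1 : ∃ t, chk3 f_A07pm_011_s1 t 2 3 1 = true := ex3_b k1_A07pm_011_s1 t5_A07pm_011_s1

theorem t7_A07pm_011_s1 : ∃ t, chk3 f_A07pm_011_s1 t 1 3 1 = true := ex3_a t6_A07pm_011_s1 k4_A07pm_011_s1

theorem t8_A07pm_011_s1 : ∃ t, chk3 f_A07pm_011_s1 t 1 1 1 = true := ex3_b k0_A07pm_011_s1 t7_A07pm_011_s1

theorem c_A07pm_011_s1 : CertF 0 536870912 536870912 536870912 697932185 42949674 true true false .pnn 0 1 1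
    ndB0q0 ndB7q1 pcB1 cut_A07pm_011_s1 xt_A07pm_011_s1 :=
  certF1 (fam := true) (s1 := true) (s2 := false) (a := 0) (b := 1) (c := 1) (cn := .pnn) (n1 := ndB0q0) (n2 := ndB7q1) (pc := pcB1) (cut := cut_A07pm_011_s1) (xt := xt_A07pm_011_s1) (P1 := 0) (W1 := 536870912) (P2 := 536870912) (W2 := 536870912) (P3 := 697932185) (W3 := 42949674)
    rfl (fun _ => rfl) t8_A07pm_011_s1

theorem s_A07pm_011_s1 {κ x : ℝ} (hκ : κ * h0 = ken x) (hx : ((697932185 : ℕ) : ℝ) / S ≤ x)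
    (hx' : x ≤ (((697932185 : ℕ) : ℝ) + (42949674 : ℕ)) / S)
    (H : CutA (VFD κ) PP tK tL pcB (Cut.of [[⟨0, 0, 0, 53687091⟩, ⟨1, 1, 0, 53687091⟩, ⟨2, 1, 0, 53687091⟩]]) 0 1 1 0 7 (sgb true) (sgb false) x) :
    AltA (VFD κ) PP tK tL pcB [⟨3, 0, 0, 1449551462⟩] 0 1 1 0 7 (sgb true) (sgb false) x :=
  strip_altAD (m := 1449551462) true rfl hκ (SH.κ0 hκ (SH.hx1 hx).le (SH.hx2 hx').le) (SH.hx1 hx).le (SH.hx2 hx') (covB00).cov (covB71).cov hx hx' c_A07pm_011_s1 H ((okx6 hx hx').extA (T := tt) (okx hx hx') (sideB hx hx') hκ rfl rfl (.O 0 true) (.N 1 false) (Or.inr rfl))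

noncomputable def cut_A07pm_012_s1 : Cut := Cut.of [[⟨4, 0, 0, 1449551462⟩], [⟨0, 0, 0, 67108864⟩, ⟨1, 1, 0, 67108864⟩, ⟨2, 1, 0, 67108864⟩]]

noncomputable def f_A07pm_012_s1 : ℕ → ℕ → ℕ → ℕ → Bool := onCell 1073741824 536870912 536870912 536870912 697932185 42949674
    (rowF 2 true true false .pnp 0 1 2 (qsf 0 536870912 536870912 536870912 2) ndB0q0 ndB7q1 pcB2 cut_A07pm_012_s1 Ext.none)

def k0_A07pm_012_s1 : ∃ t, chk3 f_A07pm_012_s1 t 4 2 1 = true :=
  ⟨(b (a (b (a (a (l 16261512) (l 16206336)) (l 6)) (a (b (l 16138744) (l 16190824)) (b (l 16046112) (l 16107624)))) (l 6)) (a (b (a (b (l 16245912) (a (l 16315976) (l 16274832))) (b (l 16164488) (l 16213768))) (a (b (l 16403184) (a (b (l 16396192) (l 16418072)) (l 16444472))) (b (a (l 16275624) (l 16234424)) (a (l 16315456) (l 16271408))))) (b (a (l 16108160) (l 6)) (a (b (a (l 16193768) (l 16153416)) (l 16376232)) (b (l 16092976) (l 16127840)))))), by decide +kernel⟩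

def k1_A07pm_012_s1 : ∃ t, chk3 f_A07pm_012_s1 t 8 3 1 = true :=
  ⟨(b (a (a (b (b (b (l 16439992) (l 16461912)) (l 16538568)) (b (b (l 16531424) (l 16554648)) (b (l 16576800) (l 16597840)))) (b (b (l 16486368) (l 16528136)) (b (l 16488352) (l 16531744)))) (b (b (a (l 16354920) (l 16308712)) (a (l 16394456) (l 16346128))) (a (b (l 16519128) (a (l 16489824) (l 16462408))) (b (l 16383000) (l 16505480))))) (a (a (b (b (b (l 16617968) (l 16637232)) (a (b (l 16667984) (l 16707160)) (l 16681848))) (b (b (a (a (l 16708632) (l 16699184)) (l 16676592)) (a (l 14) (b (l 16688912) (l 14)))) (l 14))) (b (b (l 16612816) (b (a (l 16612272) (l 16583440)) (a (l 16629768) (l 16600480)))) (b (a (b (l 16667616) (a (l 16670048) (l 16654928))) (b (l 16616824) (l 16674256))) (b (a (l 14) (b (l 16643096) (l 14))) (l 14))))) (a (b (b (b (l 16505576) (l 16523544)) (b (l 16540616) (l 16556928))) (b (b (l 16614496) (a (l 16602288) (l 16572376)))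 (b (b (l 16639536) (a (l 16619264) (l 16588824))) (a (l 14) (b (l 16594720) (l 14)))))) (b (b (l 16542912) (b (l 16484152) (l 16499736))) (b (b (l 16514360) (l 16611960)) (b (b (l 16537600) (l 16543592)) (b (l 16549120) (a (l 16569488) (l 16539032))))))))), by decide +kernel⟩

def k2_A07pm_012_s1 : ∃ t, chk3 f_A07pm_012_s1 t 9 3 1 = true :=
  ⟨(b (b (b (a (l 16325728) (l 16242160)) (a (a (l 16298936) (l 16253264)) (l 16187552))) (a (b (a (l 16333632) (l 16285888)) (a (l 16368832) (l 16317152))) (b (l 16383856) (l 16328768)))) (b (b (a (b (l 16368128) (l 16468576)) (b (l 16264744) (l 16278904))) (a (b (l 16484712) (l 16541224)) (b (l 16292256) (l 16389448)))) (a (b (b (b (l 16509624) (l 16516072)) (a (l 16469928) (l 16412928))) (a (b (l 16565304) (b (l 16489072) (l 16493712))) (b (l 16423320) (l 16495128)))) (a (b (b (l 16345776) (l 16356864)) (b (l 16366368) (l 16374088))) (b (l 16296616) (b (l 16310304) (l 16317032))))))),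 by decide +kernel⟩

def k3_A07pm_012_s1 : ∃ t, chk3 f_A07pm_012_s1 t 5 1 1 = true :=
  ⟨(b (b (l 6) (l 6)) (b (a (b (a (b (l 6) (a (l 16125288) (l 6))) (l 6)) (a (b (a (l 16151704) (l 16279792)) (a (l 16176312) (a (l 16144080) (l 16123112)))) (b (l 6) (l 16072680)))) (l 6)) (a (b (b (a (a (l 16198928) (a (l 16164424) (l 16141944))) (a (l 16109192) (l 6))) (a (a (l 16221128) (a (l 16183128) (l 16325744))) (l 16352648))) (b (a (a (l 16242048) (a (l 16202016) (a (l 16181976) (l 16167584)))) (b (l 16108736) (l 16281824))) (a (a (b (l 16254936) (l 16260632)) (a (l 16216440) (a (l 16195264) (b (l 16177024) (l 16180784))))) (a (a (l 16159032) (l 16133048)) (l 16092784))))) (a (b (l 6) (a (b (l 16040208) (l 16041336)) (l 6))) (l 6))))), by decide +kernel⟩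

def k4_A07pm_012_s1 : ∃ t, chk3 f_A07pm_012_s1 t 3 1 1 = true :=
  ⟨(b (l 6) (l 6)), by decide +kernel⟩

theorem t5_A07pm_012_s1 : ∃ t, chk3 f_A07pm_012_s1 t 4 3 1 = true := ex3_a k1_A07pm_012_s1 k2_A07pm_012_s1

theorem t6_A07pm_012_s1 : ∃ t, chk3 f_A07pm_012_s1 t 4 1 1 = true := ex3_b k0_A07pm_012_s1 t5_A07pm_012_s1

theorem t7_A07pm_012_s1 : ∃ t, chk3 f_A07pm_012_s1 t 2 1 1 = true := ex3_a t6_A07pm_012_s1 k3_A07pm_012_s1

theorem t8_A07pm_012_s1 : ∃ t, chk3 f_A07pm_012_s1 t 1 1 1 = true := ex3_a t7_A07pm_012_s1 k4_A07pm_012_s1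

theorem c_A07pm_012_s1 : CertF 0 536870912 536870912 536870912 697932185 42949674 true true false .pnp 0 1 2
    ndB0q0 ndB7q1 pcB2 cut_A07pm_012_s1 Ext.none :=
  certF2 (fam := true) (s1 := true) (s2 := false) (a := 0) (b := 1) (c := 2) (cn := .pnp) (n1 := ndB0q0) (n2 := ndB7q1) (pc := pcB2) (cut := cut_A07pm_012_s1) (xt := Ext.none) (P1 := 0) (W1 := 536870912) (P2 := 536870912) (W2 := 536870912) (P3 := 697932185) (W3 := 42949674)
    rfl (fun _ => rfl) t8_A07pm_012_s1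

theorem s_A07pm_012_s1 {κ x : ℝ} (hκ : κ * h0 = ken x) (hx : ((697932185 : ℕ) : ℝ) / S ≤ x)
    (hx' : x ≤ (((697932185 : ℕ) : ℝ) + (42949674 : ℕ)) / S)
    (H : CutA (VFD κ) PP tK tL pcB (Cut.of [[⟨0, 0, 0, 67108864⟩, ⟨1, 1, 0, 67108864⟩, ⟨2, 1, 0, 67108864⟩]]) 0 1 2 0 7 (sgb true) (sgb false) x) :
    AltA (VFD κ) PP tK tL pcB [⟨3, 0, 0, 1449551462⟩] 0 1 2 0 7 (sgb true) (sgb false) x :=
  strip_altAD (m := 1449551462) true rfl hκ (SH.κ0 hκ (SH.hx1 hx).le (SH.hx2 hx').le) (SH.hx1 hx).le (SH.hx2 hx') (covB00).cov (covB71).cov hx hx' c_A07pm_012_s1 H (noExt_A)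

noncomputable def cut_A07pm_022_s1 : Cut := Cut.of [[⟨4, 0, 0, 1449551462⟩], [⟨0, 0, 0, 67108864⟩, ⟨1, 1, 0, 67108864⟩, ⟨2, 1, 0, 67108864⟩]]

noncomputable def f_A07pm_022_s1 : ℕ → ℕ → ℕ → ℕ → Bool := onCell 0 536870912 1073741824 536870912 697932185 42949674
    (rowF 1 true true false .pp 0 2 2 (qsf 0 536870912 1073741824 536870912 2) ndB0q0 ndB7q2 pcB2 cut_A07pm_022_s1 Ext.none)

def k0_A07pm_022_s1 : ∃ t, chk3 f_A07pm_022_s1 t 1 4 1 = true :=
  ⟨(a (b (a (a (a (b (l 14) (b (l 14) (b (l 14) (a (l 16645888) (l 16616472))))) (b (a (l 14) (l 1)) (b (a (l 14) (a (l 14) (l 1))) (b (a (l 14) (a (l 14) (l 16553104))) (a (l 16584800) (a (l 16559336) (l 16541312))))))) (a (b (l 1) (b (l 1) (a (b (l 1) (l 16512544)) (l 1)))) (l 1))) (l 1)) (a (a (a (b (b (a (l 16621752) (b (l 16601472) (l 16586344))) (a (l 16589456) (l 16563344))) (b (l 16544872) (l 16512776))) (b (a (b (a (l 16571624) (l 16555976)) (l 16535320)) (b (b (l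 16537840) (l 16524952)) (l 16588776))) (a (b (l 16506064) (l 16476280)) (b (l 16477600) (l 16449488))))) (b (a (b (a (b (l 81100521127) (l 16489984)) (b (l 1) (l 16451600))) (a (b (l 16478160) (l 16465968)) (b (l 16441280) (l 16430536)))) (b (l 1) (a (b (l 1) (l 16391776)) (l 1)))) (a (b (a (l 16447040) (l 16413648)) (a (l 16420872) (l 16389992))) (b (a (l 99890827831) (l 16337216)) (a (l 16356296) (l 16319448)))))) (a (b (l 1) (a (b (l 1) (a (l 16279096) (l 1))) (l 1))) (l 1)))) (l 1)), by decide +kernel⟩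

def k1_A07pm_022_s1 : ∃ t, chk3 f_A07pm_022_s1 t 1 5 1 = true :=
  ⟨(a (a (b (b (b (a (a (l 16479832) (b (l 16441136) (l 16425856))) (a (a (l 16393416) (l 16364856)) (a (l 16333728) (l 16299736)))) (b (a (a (l 16454464) (l 16409888)) (a (l 16358688) (l 16299920))) (a (b (a (l 16440544) (l 16396944)) (b (a (l 16432272) (l 16389064)) (a (l 16425352) (a (l 16393552) (l 16370520))))) (b (a (l 16347360) (l 16290384)) (a (l 16504384) (b (l 16284656) (l 16279736))))))) (a (a (l 16391312) (b (l 16449800) (l 16338224))) (a (b (l 16319888) (l 16293280)) (b (l 16266888) (l 16243648))))) (a (b (a (l 16331152) (l 16298136)) (a (l 16273552) (l 16248056))) (a (b (l 16424648) (l 16213192)) (b (l 16210192) (l 16170528))))) (b (a (b (b (a (a (l 16262544) (l 16221512)) (l 1)) (b (a (l 16271736) (l 1)) (a (b (l 16222464) (a (l 16232672) (l 16280184))) (b (l 1) (b (l 1) (l 16133408)))))) (a (b (l 16287816) (l 16184824)) (b (l 102037916407)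 (l 16113640)))) (b (l 1) (a (b (l 1) (l 16026336)) (l 1)))) (a (b (a (l 16156152) (b (l 16099008) (l 16085128))) (a (l 16122672) (l 16065872))) (b (a (b (l 16018040) (l 16009984)) (b (l 1) (l 6))) (l 6))))) (a (b (l 1) (l 6)) (l 1))), by decide +kernel⟩

def k2_A07pm_022_s1 : ∃ t, chk3 f_A07pm_022_s1 t 1 3 1 = true :=
  ⟨(b (a (a (b (a (b (a (l 16217912) (l 16200728)) (a (l 16162544) (l 6))) (b (a (l 16173128) (l 16137088)) (l 6))) (l 6)) (l 6)) (l 6)) (l 6)), by decide +kernel⟩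

theorem t3_A07pm_022_s1 : ∃ t, chk3 f_A07pm_022_s1 t 1 2 1 = true := ex3_b k0_A07pm_022_s1 k1_A07pm_022_s1

theorem t4_A07pm_022_s1 : ∃ t, chk3 f_A07pm_022_s1 t 1 1 1 = true := ex3_b t3_A07pm_022_s1 k2_A07pm_022_s1

theorem c_A07pm_022_s1 : CertF 0 536870912 1073741824 536870912 697932185 42949674 true true false .pp 0 2 2
    ndB0q0 ndB7q2 pcB2 cut_A07pm_022_s1 Ext.none :=
  certF1 (fam := true) (s1 := true) (s2 := false) (a := 0) (b := 2) (c := 2) (cn := .pp) (n1 := ndB0q0) (n2 := ndB7q2) (pc := pcB2) (cut := cut_A07pm_022_s1) (xt := Ext.none) (P1 := 0) (W1 := 536870912) (P2 := 1073741824) (W2 := 536870912) (P3 := 697932185) (W3 := 42949674)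
    rfl (fun _ => rfl) t4_A07pm_022_s1

theorem s_A07pm_022_s1 {κ x : ℝ} (hκ : κ * h0 = ken x) (hx : ((697932185 : ℕ) : ℝ) / S ≤ x)
    (hx' : x ≤ (((697932185 : ℕ) : ℝ) + (42949674 : ℕ)) / S)
    (H : CutA (VFD κ) PP tK tL pcB (Cut.of [[⟨0, 0, 0, 67108864⟩, ⟨1, 1, 0, 67108864⟩, ⟨2, 1, 0, 67108864⟩]]) 0 2 2 0 7 (sgb true) (sgb false) x) :
    AltA (VFD κ) PP tK tL pcB [⟨3, 0, 0, 1449551462⟩] 0 2 2 0 7 (sgb true) (sgb false) x :=
  strip_altAD (m := 1449551462) true rfl hκ (SH.κ0 hκ (SH.hx1 hx).le (SH.hx2 hx').le) (SH.hx1 hx).le (SH.hx2 hx') (covB00).cov (covB72).cov hx hx' c_A07pm_022_s1 H (noExt_A)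

noncomputable def cut_A07pm_023_s1 : Cut := Cut.of [[⟨4, 0, 0, 1449551462⟩]]

noncomputable def f_A07pm_023_s1 : ℕ → ℕ → ℕ → ℕ → Bool := onCell 1610612736 536870912 1073741824 536870912 697932185 42949674
    (rowF 2 true true false .up 0 2 3 (qsf 0 536870912 1073741824 536870912 3) ndB0q0 ndB7q2 pcB3 cut_A07pm_023_s1 Ext.none)

def k0_A07pm_023_s1 : ∃ t, chk3 f_A07pm_023_s1 t 1 1 1 = true :=
  ⟨(a (l 6) (l 6)), by decide +kernel⟩

theorem c_A07pm_023_s1 : CertF 0 536870912 1073741824 536870912 697932185 42949674 true true false .up 0 2 3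
    ndB0q0 ndB7q2 pcB3 cut_A07pm_023_s1 Ext.none :=
  certF2 (fam := true) (s1 := true) (s2 := false) (a := 0) (b := 2) (c := 3) (cn := .up) (n1 := ndB0q0) (n2 := ndB7q2) (pc := pcB3) (cut := cut_A07pm_023_s1) (xt := Ext.none) (P1 := 0) (W1 := 536870912) (P2 := 1073741824) (W2 := 536870912) (P3 := 697932185) (W3 := 42949674)
    rfl (fun _ => rfl) k0_A07pm_023_s1

theorem s_A07pm_023_s1 {κ x : ℝ} (hκ : κ * h0 = ken x) (hx : ((697932185 : ℕ) : ℝ) / S ≤ x)
    (hx' : x ≤ (((697932185 : ℕ) : ℝ) + (42949674 : ℕ)) / S) :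
    AltA (VFD κ) PP tK tL pcB [⟨3, 0, 0, 1449551462⟩] 0 2 3 0 7 (sgb true) (sgb false) x :=
  strip_altAD (m := 1449551462) true rfl hκ (SH.κ0 hκ (SH.hx1 hx).le (SH.hx2 hx').le) (SH.hx1 hx).le (SH.hx2 hx') (covB00).cov (covB72).cov hx hx' c_A07pm_023_s1 cutA_nil (noExt_A)

noncomputable def cut_A07pm_033_s1 : Cut := Cut.of [[⟨4, 0, 0, 1449551462⟩]]

noncomputable def f_A07pm_033_s1 : ℕ → ℕ → ℕ → ℕ → Bool := onCell 1610612736 536870912 0 1230186008 697932185 42949674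
    (rowF 2 true true false .pnn 0 3 3 (qsf 0 536870912 0 1230186008 3) ndB0q0 ndB7q3 pcB3 cut_A07pm_033_s1 Ext.none)

def k0_A07pm_033_s1 : ∃ t, chk3 f_A07pm_033_s1 t 1 1 1 = true :=
  ⟨(b (l 6) (l 6)), by decide +kernel⟩

theorem c_A07pm_033_s1 : CertF 0 536870912 0 1230186008 697932185 42949674 true true false .pnn 0 3 3
    ndB0q0 ndB7q3 pcB3 cut_A07pm_033_s1 Ext.none :=
  certF2 (fam := true) (s1 := true) (s2 := false) (a := 0) (b := 3) (c := 3) (cn := .pnn) (n1 := ndB0q0) (n2 := ndB7q3) (pc := pcB3) (cut := cut_A07pm_033_s1) (xt := Ext.none) (P1 := 0) (W1 := 536870912) (P2 := 0) (W2 := 1230186008) (P3 := 697932185) (W3 := 42949674)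
    rfl (fun _ => rfl) k0_A07pm_033_s1

theorem s_A07pm_033_s1 {κ x : ℝ} (hκ : κ * h0 = ken x) (hx : ((697932185 : ℕ) : ℝ) / S ≤ x)
    (hx' : x ≤ (((697932185 : ℕ) : ℝ) + (42949674 : ℕ)) / S) :
    AltA (VFD κ) PP tK tL pcB [⟨3, 0, 0, 1449551462⟩] 0 3 3 0 7 (sgb true) (sgb false) x :=
  strip_altAD (m := 1449551462) true rfl hκ (SH.κ0 hκ (SH.hx1 hx).le (SH.hx2 hx').le) (SH.hx1 hx).le (SH.hx2 hx') (covB00).cov (covB73).cov hx hx' c_A07pm_033_s1 cutA_nil (noExt_A)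

noncomputable def cut_A07pm_101_s1 : Cut := Cut.of [[⟨4, 0, 0, 1449551462⟩]]

noncomputable def xt_A07pm_101_s1 : Ext := strExt6 dd true true false .u0 .s0m .u0m .npn 1 0 1 rfl rfl gf1 vv ww ndB0q1 ndB7q0

noncomputable def f_A07pm_101_s1 : ℕ → ℕ → ℕ → ℕ → Bool := onCell 536870912 536870912 536870912 536870912 697932185 42949674
    (rowF 1 true true false .npn 1 0 1 (qsf 536870912 536870912 0 536870912 1) ndB0q1 ndB7q0 pcB1 cut_A07pm_101_s1 xt_A07pm_101_s1)

def k0_A07pm_101_s1 : ∃ t, chk3 f_A07pm_101_s1 t 1 2 1 = true :=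
  ⟨(a (b (b (a (a (l 3) (b (l 1) (a (l 1061749263) (l 1)))) (l 1)) (b (a (a (a (l 3) (l 1061499407)) (a (l 1061892111) (l 1062120463))) (l 1)) (a (a (a (a (l 3) (b (l 3) (l 1060373519))) (l 1061117455)) (a (l 1061657103) (l 1062024207))) (a (a (l 130493170983) (l 1)) (l 1))))) (a (b (a (b (a (a (l 1058513935) (b (l 1060982287) (l 1059020303))) (b (l 1060586511) (a (l 16763680) (l 16728872)))) (a (b (a (l 1057254415) (l 1058272783)) (a (l 1056462863) (l 16717216))) (b (l 1061074447) (l 16696688)))) (a (b (b (l 16767184) (l 16708416)) (b (l 16690160) (l 16670120))) (b (b (l 16698048) (l 16680880)) (l 16654552)))) (b (a (b (a (l 1056361999) (l 16674976)) (a (l 1055704591) (l 16651216))) (a (l 16733024) (l 16613608))) (a (a (a (l 16642872) (l 16629544)) (a (l 16617912) (l 16607248))) (a (l 16589520) (l 16566752))))) (b (a (a (b (l 16746992) (l 16626688)) (l 16617104)) (a (l 16591944) (l 1))) (a (a (l 16565176) (l 16535992))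 (l 16659200))))) (a (b (l 1) (a (b (l 1) (a (l 16456008) (l 1))) (l 1))) (l 1))), by decide +kernel⟩

def k1_A07pm_101_s1 : ∃ t, chk3 f_A07pm_101_s1 t 1 3 1 = true :=
  ⟨(a (b (a (b (a (b (a (b (l 16588824) (l 16553920)) (l 16550704)) (a (l 16491744) (l 16476208))) (a (l 16664872) (l 16479664))) (a (a (b (l 16389328) (l 16313568)) (l 16409704)) (b (l 16348328) (l 16270000)))) (a (a (b (l 16460224) (l 16312424)) (b (l 16436176) (l 16466568))) (b (a (l 16408472) (l 16379672)) (a (l 16365008) (l 6))))) (a (a (b (a (b (l 16254936) (l 16195896)) (l 16330512)) (a (b (l 16137840) (l 16077456)) (b (l 16079968) (l 16027024)))) (b (b (l 16154808) (l 16024120)) (a (l 15987256) (l 6)))) (b (a (b (l 16081152) (l 6)) (l 6)) (l 6)))) (a (b (a (l 6) (l 6)) (l 6)) (l 6))), by decide +kernel⟩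

theorem t2_A07pm_101_s1 : ∃ t, chk3 f_A07pm_101_s1 t 1 1 1 = true := ex3_b k0_A07pm_101_s1 k1_A07pm_101_s1

theorem c_A07pm_101_s1 : CertF 536870912 536870912 0 536870912 697932185 42949674 true true false .npn 1 0 1
    ndB0q1 ndB7q0 pcB1 cut_A07pm_101_s1 xt_A07pm_101_s1 :=
  certF1 (fam := true) (s1 := true) (s2 := false) (a := 1) (b := 0) (c := 1) (cn := .npn) (n1 := ndB0q1) (n2 := ndB7q0) (pc := pcB1) (cut := cut_A07pm_101_s1) (xt := xt_A07pm_101_s1) (P1 := 536870912) (W1 := 536870912) (P2 := 0) (W2 := 536870912) (P3 := 697932185) (W3 := 42949674)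
    rfl (fun _ => rfl) t2_A07pm_101_s1

theorem s_A07pm_101_s1 {κ x : ℝ} (hκ : κ * h0 = ken x) (hx : ((697932185 : ℕ) : ℝ) / S ≤ x)
    (hx' : x ≤ (((697932185 : ℕ) : ℝ) + (42949674 : ℕ)) / S) :
    AltA (VFD κ) PP tK tL pcB [⟨3, 0, 0, 1449551462⟩] 1 0 1 0 7 (sgb true) (sgb false) x :=
  strip_altAD (m := 1449551462) true rfl hκ (SH.κ0 hκ (SH.hx1 hx).le (SH.hx2 hx').le) (SH.hx1 hx).le (SH.hx2 hx') (covB01).cov (covB70).cov hx hx' c_A07pm_101_s1 cutA_nil ((okx6 hx hx').extA (T := tt) (okx hx hx') (sideB hx hx') hκ rfl rfl (.O 1 true) (.N 0 false) (Or.inr rfl))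

noncomputable def cut_A07pm_102_s1 : Cut := Cut.of [[⟨4, 0, 0, 1449551462⟩]]

noncomputable def f_A07pm_102_s1 : ℕ → ℕ → ℕ → ℕ → Bool := onCell 536870912 536870912 1073741824 536870912 697932185 42949674
    (rowF 1 true true false .npp 1 0 2 (qsf 536870912 536870912 0 536870912 2) ndB0q1 ndB7q0 pcB2 cut_A07pm_102_s1 Ext.none)

def k0_A07pm_102_s1 : ∃ t, chk3 f_A07pm_102_s1 t 1 1 1 = true :=
  ⟨(a (b (a (b (b (a (a (b (l 6) (l 6)) (l 6)) (l 6)) (l 6)) (l 6)) (l 6)) (l 6)) (l 6)), by decide +kernel⟩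

theorem c_A07pm_102_s1 : CertF 536870912 536870912 0 536870912 697932185 42949674 true true false .npp 1 0 2
    ndB0q1 ndB7q0 pcB2 cut_A07pm_102_s1 Ext.none :=
  certF1 (fam := true) (s1 := true) (s2 := false) (a := 1) (b := 0) (c := 2) (cn := .npp) (n1 := ndB0q1) (n2 := ndB7q0) (pc := pcB2) (cut := cut_A07pm_102_s1) (xt := Ext.none) (P1 := 536870912) (W1 := 536870912) (P2 := 0) (W2 := 536870912) (P3 := 697932185) (W3 := 42949674)
    rfl (fun _ => rfl) k0_A07pm_102_s1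

theorem s_A07pm_102_s1 {κ x : ℝ} (hκ : κ * h0 = ken x) (hx : ((697932185 : ℕ) : ℝ) / S ≤ x)
    (hx' : x ≤ (((697932185 : ℕ) : ℝ) + (42949674 : ℕ)) / S) :
    AltA (VFD κ) PP tK tL pcB [⟨3, 0, 0, 1449551462⟩] 1 0 2 0 7 (sgb true) (sgb false) x :=
  strip_altAD (m := 1449551462) true rfl hκ (SH.κ0 hκ (SH.hx1 hx).le (SH.hx2 hx').le) (SH.hx1 hx).le (SH.hx2 hx') (covB01).cov (covB70).cov hx hx' c_A07pm_102_s1 cutA_nil (noExt_A)

noncomputable def cut_A07pm_112_s1 : Cut := Cut.of [[⟨4, 0, 0, 1449551462⟩]]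

noncomputable def f_A07pm_112_s1 : ℕ → ℕ → ℕ → ℕ → Bool := onCell 536870912 536870912 536870912 536870912 697932185 42949674
    (rowF 0 true true false .dn 1 1 2 (qsf 536870912 536870912 536870912 536870912 2) ndB0q1 ndB7q1 pcB2 cut_A07pm_112_s1 Ext.none)

def k0_A07pm_112_s1 : ∃ t, chk3 f_A07pm_112_s1 t 1 1 1 = true :=
  ⟨(a (b (b (a (a (b (a (l 16051056) (l 6)) (l 6)) (l 6)) (l 6)) (l 6)) (l 6)) (l 6)), by decide +kernel⟩

theorem c_A07pm_112_s1 : CertF 536870912 536870912 536870912 536870912 697932185 42949674 true true false .dn 1 1 2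
    ndB0q1 ndB7q1 pcB2 cut_A07pm_112_s1 Ext.none :=
  certF0 (fam := true) (s1 := true) (s2 := false) (a := 1) (b := 1) (c := 2) (cn := .dn) (n1 := ndB0q1) (n2 := ndB7q1) (pc := pcB2) (cut := cut_A07pm_112_s1) (xt := Ext.none) (P1 := 536870912) (W1 := 536870912) (P2 := 536870912) (W2 := 536870912) (P3 := 697932185) (W3 := 42949674)
    rfl k0_A07pm_112_s1

theorem s_A07pm_112_s1 {κ x : ℝ} (hκ : κ * h0 = ken x) (hx : ((697932185 : ℕ) : ℝ) / S ≤ x)
    (hx' : x ≤ (((697932185 : ℕ) : ℝ) + (42949674 : ℕ)) / S) :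
    AltA (VFD κ) PP tK tL pcB [⟨3, 0, 0, 1449551462⟩] 1 1 2 0 7 (sgb true) (sgb false) x :=
  strip_altAD (m := 1449551462) true rfl hκ (SH.κ0 hκ (SH.hx1 hx).le (SH.hx2 hx').le) (SH.hx1 hx).le (SH.hx2 hx') (covB01).cov (covB71).cov hx hx' c_A07pm_112_s1 cutA_nil (noExt_A)

noncomputable def cut_A07pm_113_s1 : Cut := Cut.of [[⟨4, 0, 0, 1449551462⟩]]

noncomputable def f_A07pm_113_s1 : ℕ → ℕ → ℕ → ℕ → Bool := onCell 536870912 536870912 1610612736 536870912 697932185 42949674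
    (rowF 1 true true false .nn 1 1 3 (qsf 536870912 536870912 536870912 536870912 3) ndB0q1 ndB7q1 pcB3 cut_A07pm_113_s1 Ext.none)

def k0_A07pm_113_s1 : ∃ t, chk3 f_A07pm_113_s1 t 1 1 1 = true :=
  ⟨(l 6), by decide +kernel⟩

theorem c_A07pm_113_s1 : CertF 536870912 536870912 536870912 536870912 697932185 42949674 true true false .nn 1 1 3
    ndB0q1 ndB7q1 pcB3 cut_A07pm_113_s1 Ext.none :=
  certF1 (fam := true) (s1 := true) (s2 := false) (a := 1) (b := 1) (c := 3) (cn := .nn) (n1 := ndB0q1) (n2 := ndB7q1) (pc := pcB3) (cut := cut_A07pm_113_s1) (xt := Ext.none) (P1 := 536870912) (W1 := 536870912) (P2 := 536870912) (W2 := 536870912) (P3 := 697932185) (W3 := 42949674)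
    rfl (fun _ => rfl) k0_A07pm_113_s1

theorem s_A07pm_113_s1 {κ x : ℝ} (hκ : κ * h0 = ken x) (hx : ((697932185 : ℕ) : ℝ) / S ≤ x)
    (hx' : x ≤ (((697932185 : ℕ) : ℝ) + (42949674 : ℕ)) / S) :
    AltA (VFD κ) PP tK tL pcB [⟨3, 0, 0, 1449551462⟩] 1 1 3 0 7 (sgb true) (sgb false) x :=
  strip_altAD (m := 1449551462) true rfl hκ (SH.κ0 hκ (SH.hx1 hx).le (SH.hx2 hx').le) (SH.hx1 hx).le (SH.hx2 hx') (covB01).cov (covB71).cov hx hx' c_A07pm_113_s1 cutA_nil (noExt_A)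

noncomputable def cut_A07pm_123_s1 : Cut := Cut.of [[⟨4, 0, 0, 1449551462⟩]]

noncomputable def f_A07pm_123_s1 : ℕ → ℕ → ℕ → ℕ → Bool := onCell 536870912 536870912 1073741824 536870912 697932185 42949674
    (rowF 0 true true false .npn 1 2 3 (qsf 536870912 536870912 1073741824 536870912 3) ndB0q1 ndB7q2 pcB3 cut_A07pm_123_s1 Ext.none)

def k0_A07pm_123_s1 : ∃ t, chk3 f_A07pm_123_s1 t 1 1 1 = true :=
  ⟨(l 6), by decide +kernel⟩

theorem c_A07pm_123_s1 : CertF 536870912 536870912 1073741824 536870912 697932185 42949674 true true false .npn 1 2 3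
    ndB0q1 ndB7q2 pcB3 cut_A07pm_123_s1 Ext.none :=
  certF0 (fam := true) (s1 := true) (s2 := false) (a := 1) (b := 2) (c := 3) (cn := .npn) (n1 := ndB0q1) (n2 := ndB7q2) (pc := pcB3) (cut := cut_A07pm_123_s1) (xt := Ext.none) (P1 := 536870912) (W1 := 536870912) (P2 := 1073741824) (W2 := 536870912) (P3 := 697932185) (W3 := 42949674)
    rfl k0_A07pm_123_s1

theorem s_A07pm_123_s1 {κ x : ℝ} (hκ : κ * h0 = ken x) (hx : ((697932185 : ℕ) : ℝ) / S ≤ x)
    (hx' : x ≤ (((697932185 : ℕ) : ℝ) + (42949674 : ℕ)) / S) :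
    AltA (VFD κ) PP tK tL pcB [⟨3, 0, 0, 1449551462⟩] 1 2 3 0 7 (sgb true) (sgb false) x :=
  strip_altAD (m := 1449551462) true rfl hκ (SH.κ0 hκ (SH.hx1 hx).le (SH.hx2 hx').le) (SH.hx1 hx).le (SH.hx2 hx') (covB01).cov (covB72).cov hx hx' c_A07pm_123_s1 cutA_nil (noExt_A)

noncomputable def cut_A07pm_133_s1 : Cut := Cut.of [[⟨4, 0, 0, 1449551462⟩]]

noncomputable def f_A07pm_133_s1 : ℕ → ℕ → ℕ → ℕ → Bool := onCell 536870912 536870912 0 1230186008 697932185 42949674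
    (rowF 0 true true false .dn 1 3 3 (qsf 536870912 536870912 0 1230186008 3) ndB0q1 ndB7q3 pcB3 cut_A07pm_133_s1 Ext.none)

def k0_A07pm_133_s1 : ∃ t, chk3 f_A07pm_133_s1 t 1 1 1 = true :=
  ⟨(l 6), by decide +kernel⟩

theorem c_A07pm_133_s1 : CertF 536870912 536870912 0 1230186008 697932185 42949674 true true false .dn 1 3 3
    ndB0q1 ndB7q3 pcB3 cut_A07pm_133_s1 Ext.none :=
  certF0 (fam := true) (s1 := true) (s2 := false) (a := 1) (b := 3) (c := 3) (cn := .dn) (n1 := ndB0q1) (n2 := ndB7q3) (pc := pcB3) (cut := cut_A07pm_133_s1) (xt := Ext.none) (P1 := 536870912) (W1 := 536870912) (P2 := 0) (W2 := 1230186008) (P3 := 697932185) (W3 := 42949674)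
    rfl k0_A07pm_133_s1

theorem s_A07pm_133_s1 {κ x : ℝ} (hκ : κ * h0 = ken x) (hx : ((697932185 : ℕ) : ℝ) / S ≤ x)
    (hx' : x ≤ (((697932185 : ℕ) : ℝ) + (42949674 : ℕ)) / S) :
    AltA (VFD κ) PP tK tL pcB [⟨3, 0, 0, 1449551462⟩] 1 3 3 0 7 (sgb true) (sgb false) x :=
  strip_altAD (m := 1449551462) true rfl hκ (SH.κ0 hκ (SH.hx1 hx).le (SH.hx2 hx').le) (SH.hx1 hx).le (SH.hx2 hx') (covB01).cov (covB73).cov hx hx' c_A07pm_133_s1 cutA_nil (noExt_A)

noncomputable def cut_A07pm_202_s1 : Cut := Cut.of [[⟨4, 0, 0, 1449551462⟩]]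

noncomputable def f_A07pm_202_s1 : ℕ → ℕ → ℕ → ℕ → Bool := onCell 0 536870912 0 536870912 697932185 42949674
    (rowF 0 true true false .pp 2 0 2 (qsf 0 536870912 0 536870912 2) ndB0q2 ndB7q0 pcB2 cut_A07pm_202_s1 Ext.none)

def k0_A07pm_202_s1 : ∃ t, chk3 f_A07pm_202_s1 t 1 1 1 = true :=
  ⟨(l 6), by decide +kernel⟩

theorem c_A07pm_202_s1 : CertF 0 536870912 0 536870912 697932185 42949674 true true false .pp 2 0 2
    ndB0q2 ndB7q0 pcB2 cut_A07pm_202_s1 Ext.none :=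
  certF0 (fam := true) (s1 := true) (s2 := false) (a := 2) (b := 0) (c := 2) (cn := .pp) (n1 := ndB0q2) (n2 := ndB7q0) (pc := pcB2) (cut := cut_A07pm_202_s1) (xt := Ext.none) (P1 := 0) (W1 := 536870912) (P2 := 0) (W2 := 536870912) (P3 := 697932185) (W3 := 42949674)
    rfl k0_A07pm_202_s1

theorem s_A07pm_202_s1 {κ x : ℝ} (hκ : κ * h0 = ken x) (hx : ((697932185 : ℕ) : ℝ) / S ≤ x)
    (hx' : x ≤ (((697932185 : ℕ) : ℝ) + (42949674 : ℕ)) / S) :
    AltA (VFD κ) PP tK tL pcB [⟨3, 0, 0, 1449551462⟩] 2 0 2 0 7 (sgb true) (sgb false) x :=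
  strip_altAD (m := 1449551462) true rfl hκ (SH.κ0 hκ (SH.hx1 hx).le (SH.hx2 hx').le) (SH.hx1 hx).le (SH.hx2 hx') (covB02).cov (covB70).cov hx hx' c_A07pm_202_s1 cutA_nil (noExt_A)

noncomputable def cut_A07pm_203_s1 : Cut := Cut.of [[⟨4, 0, 0, 1449551462⟩]]

noncomputable def f_A07pm_203_s1 : ℕ → ℕ → ℕ → ℕ → Bool := onCell 0 536870912 0 536870912 697932185 42949674
    (rowF 0 true true false .up 2 0 3 (qsf 0 536870912 0 536870912 3) ndB0q2 ndB7q0 pcB3 cut_A07pm_203_s1 Ext.none)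

def k0_A07pm_203_s1 : ∃ t, chk3 f_A07pm_203_s1 t 1 1 1 = true :=
  ⟨(l 6), by decide +kernel⟩

theorem c_A07pm_203_s1 : CertF 0 536870912 0 536870912 697932185 42949674 true true false .up 2 0 3
    ndB0q2 ndB7q0 pcB3 cut_A07pm_203_s1 Ext.none :=
  certF0 (fam := true) (s1 := true) (s2 := false) (a := 2) (b := 0) (c := 3) (cn := .up) (n1 := ndB0q2) (n2 := ndB7q0) (pc := pcB3) (cut := cut_A07pm_203_s1) (xt := Ext.none) (P1 := 0) (W1 := 536870912) (P2 := 0) (W2 := 536870912) (P3 := 697932185) (W3 := 42949674)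
    rfl k0_A07pm_203_s1

theorem s_A07pm_203_s1 {κ x : ℝ} (hκ : κ * h0 = ken x) (hx : ((697932185 : ℕ) : ℝ) / S ≤ x)
    (hx' : x ≤ (((697932185 : ℕ) : ℝ) + (42949674 : ℕ)) / S) :
    AltA (VFD κ) PP tK tL pcB [⟨3, 0, 0, 1449551462⟩] 2 0 3 0 7 (sgb true) (sgb false) x :=
  strip_altAD (m := 1449551462) true rfl hκ (SH.κ0 hκ (SH.hx1 hx).le (SH.hx2 hx').le) (SH.hx1 hx).le (SH.hx2 hx') (covB02).cov (covB70).cov hx hx' c_A07pm_203_s1 cutA_nil (noExt_A)

noncomputable def cut_A07pm_213_s1 : Cut := Cut.of [[⟨4, 0, 0, 1449551462⟩]]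

noncomputable def f_A07pm_213_s1 : ℕ → ℕ → ℕ → ℕ → Bool := onCell 0 536870912 536870912 536870912 697932185 42949674
    (rowF 0 true true false .pnn 2 1 3 (qsf 0 536870912 536870912 536870912 3) ndB0q2 ndB7q1 pcB3 cut_A07pm_213_s1 Ext.none)

def k0_A07pm_213_s1 : ∃ t, chk3 f_A07pm_213_s1 t 1 1 1 = true :=
  ⟨(l 6), by decide +kernel⟩

theorem c_A07pm_213_s1 : CertF 0 536870912 536870912 536870912 697932185 42949674 true true false .pnn 2 1 3
    ndB0q2 ndB7q1 pcB3 cut_A07pm_213_s1 Ext.none :=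
  certF0 (fam := true) (s1 := true) (s2 := false) (a := 2) (b := 1) (c := 3) (cn := .pnn) (n1 := ndB0q2) (n2 := ndB7q1) (pc := pcB3) (cut := cut_A07pm_213_s1) (xt := Ext.none) (P1 := 0) (W1 := 536870912) (P2 := 536870912) (W2 := 536870912) (P3 := 697932185) (W3 := 42949674)
    rfl k0_A07pm_213_s1

theorem s_A07pm_213_s1 {κ x : ℝ} (hκ : κ * h0 = ken x) (hx : ((697932185 : ℕ) : ℝ) / S ≤ x)
    (hx' : x ≤ (((697932185 : ℕ) : ℝ) + (42949674 : ℕ)) / S) :
    AltA (VFD κ) PP tK tL pcB [⟨3, 0, 0, 1449551462⟩] 2 1 3 0 7 (sgb true) (sgb false) x :=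
  strip_altAD (m := 1449551462) true rfl hκ (SH.κ0 hκ (SH.hx1 hx).le (SH.hx2 hx').le) (SH.hx1 hx).le (SH.hx2 hx') (covB02).cov (covB71).cov hx hx' c_A07pm_213_s1 cutA_nil (noExt_A)

noncomputable def cut_A07mm_001_s1 : Cut := Cut.of [[⟨4, 0, 0, 1449551462⟩]]

noncomputable def f_A07mm_001_s1 : ℕ → ℕ → ℕ → ℕ → Bool := onCell 0 536870912 0 536870912 697932185 42949674
    (rowF 0 true false false .up 0 0 1 (qsf 0 536870912 0 536870912 1) ndB0q0 ndB7q0 pcB1 cut_A07mm_001_s1 Ext.none)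

def k0_A07mm_001_s1 : ∃ t, chk3 f_A07mm_001_s1 t 1 1 1 = true :=
  ⟨(l 4), by decide +kernel⟩

theorem c_A07mm_001_s1 : CertF 0 536870912 0 536870912 697932185 42949674 true false false .up 0 0 1
    ndB0q0 ndB7q0 pcB1 cut_A07mm_001_s1 Ext.none :=
  certF0 (fam := true) (s1 := false) (s2 := false) (a := 0) (b := 0) (c := 1) (cn := .up) (n1 := ndB0q0) (n2 := ndB7q0) (pc := pcB1) (cut := cut_A07mm_001_s1) (xt := Ext.none) (P1 := 0) (W1 := 536870912) (P2 := 0) (W2 := 536870912) (P3 := 697932185) (W3 := 42949674)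
    rfl k0_A07mm_001_s1

theorem s_A07mm_001_s1 {κ x : ℝ} (hκ : κ * h0 = ken x) (hx : ((697932185 : ℕ) : ℝ) / S ≤ x)
    (hx' : x ≤ (((697932185 : ℕ) : ℝ) + (42949674 : ℕ)) / S) :
    AltA (VFD κ) PP tK tL pcB [⟨3, 0, 0, 1449551462⟩] 0 0 1 0 7 (sgb false) (sgb false) x :=
  strip_altAD (m := 1449551462) true rfl hκ (SH.κ0 hκ (SH.hx1 hx).le (SH.hx2 hx').le) (SH.hx1 hx).le (SH.hx2 hx') (covB00).cov (covB70).cov hx hx' c_A07mm_001_s1 cutA_nil (noExt_A)

noncomputable def cut_A07mm_011_s1 : Cut := Cut.of [[⟨4, 0, 0, 1449551462⟩]]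

noncomputable def f_A07mm_011_s1 : ℕ → ℕ → ℕ → ℕ → Bool := onCell 0 536870912 536870912 536870912 697932185 42949674
    (rowF 0 true false false .pnn 0 1 1 (qsf 0 536870912 536870912 536870912 1) ndB0q0 ndB7q1 pcB1 cut_A07mm_011_s1 Ext.none)

def k0_A07mm_011_s1 : ∃ t, chk3 f_A07mm_011_s1 t 1 1 1 = true :=
  ⟨(l 4), by decide +kernel⟩

theorem c_A07mm_011_s1 : CertF 0 536870912 536870912 536870912 697932185 42949674 true false false .pnn 0 1 1
    ndB0q0 ndB7q1 pcB1 cut_A07mm_011_s1 Ext.none :=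
  certF0 (fam := true) (s1 := false) (s2 := false) (a := 0) (b := 1) (c := 1) (cn := .pnn) (n1 := ndB0q0) (n2 := ndB7q1) (pc := pcB1) (cut := cut_A07mm_011_s1) (xt := Ext.none) (P1 := 0) (W1 := 536870912) (P2 := 536870912) (W2 := 536870912) (P3 := 697932185) (W3 := 42949674)
    rfl k0_A07mm_011_s1

theorem s_A07mm_011_s1 {κ x : ℝ} (hκ : κ * h0 = ken x) (hx : ((697932185 : ℕ) : ℝ) / S ≤ x)
    (hx' : x ≤ (((697932185 : ℕ) : ℝ) + (42949674 : ℕ)) / S) :
    AltA (VFD κ) PP tK tL pcB [⟨3, 0, 0, 1449551462⟩] 0 1 1 0 7 (sgb false) (sgb false) x :=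
  strip_altAD (m := 1449551462) true rfl hκ (SH.κ0 hκ (SH.hx1 hx).le (SH.hx2 hx').le) (SH.hx1 hx).le (SH.hx2 hx') (covB00).cov (covB71).cov hx hx' c_A07mm_011_s1 cutA_nil (noExt_A)

noncomputable def cut_A07mm_012_s1 : Cut := Cut.of [[⟨4, 0, 0, 1449551462⟩]]

noncomputable def f_A07mm_012_s1 : ℕ → ℕ → ℕ → ℕ → Bool := onCell 0 536870912 536870912 536870912 697932185 42949674
    (rowF 0 true false false .pnp 0 1 2 (qsf 0 536870912 536870912 536870912 2) ndB0q0 ndB7q1 pcB2 cut_A07mm_012_s1 Ext.none)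

def k0_A07mm_012_s1 : ∃ t, chk3 f_A07mm_012_s1 t 1 1 1 = true :=
  ⟨(l 4), by decide +kernel⟩

theorem c_A07mm_012_s1 : CertF 0 536870912 536870912 536870912 697932185 42949674 true false false .pnp 0 1 2
    ndB0q0 ndB7q1 pcB2 cut_A07mm_012_s1 Ext.none :=
  certF0 (fam := true) (s1 := false) (s2 := false) (a := 0) (b := 1) (c := 2) (cn := .pnp) (n1 := ndB0q0) (n2 := ndB7q1) (pc := pcB2) (cut := cut_A07mm_012_s1) (xt := Ext.none) (P1 := 0) (W1 := 536870912) (P2 := 536870912) (W2 := 536870912) (P3 := 697932185) (W3 := 42949674)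
    rfl k0_A07mm_012_s1

theorem s_A07mm_012_s1 {κ x : ℝ} (hκ : κ * h0 = ken x) (hx : ((697932185 : ℕ) : ℝ) / S ≤ x)
    (hx' : x ≤ (((697932185 : ℕ) : ℝ) + (42949674 : ℕ)) / S) :
    AltA (VFD κ) PP tK tL pcB [⟨3, 0, 0, 1449551462⟩] 0 1 2 0 7 (sgb false) (sgb false) x :=
  strip_altAD (m := 1449551462) true rfl hκ (SH.κ0 hκ (SH.hx1 hx).le (SH.hx2 hx').le) (SH.hx1 hx).le (SH.hx2 hx') (covB00).cov (covB71).cov hx hx' c_A07mm_012_s1 cutA_nil (noExt_A)

noncomputable def cut_A07mm_022_s1 : Cut := Cut.of [[⟨4, 0, 0, 1449551462⟩]]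

noncomputable def f_A07mm_022_s1 : ℕ → ℕ → ℕ → ℕ → Bool := onCell 0 536870912 1073741824 536870912 697932185 42949674
    (rowF 0 true false false .pp 0 2 2 (qsf 0 536870912 1073741824 536870912 2) ndB0q0 ndB7q2 pcB2 cut_A07mm_022_s1 Ext.none)

def k0_A07mm_022_s1 : ∃ t, chk3 f_A07mm_022_s1 t 1 1 1 = true :=
  ⟨(l 4), by decide +kernel⟩

theorem c_A07mm_022_s1 : CertF 0 536870912 1073741824 536870912 697932185 42949674 true false false .pp 0 2 2
    ndB0q0 ndB7q2 pcB2 cut_A07mm_022_s1 Ext.none :=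
  certF0 (fam := true) (s1 := false) (s2 := false) (a := 0) (b := 2) (c := 2) (cn := .pp) (n1 := ndB0q0) (n2 := ndB7q2) (pc := pcB2) (cut := cut_A07mm_022_s1) (xt := Ext.none) (P1 := 0) (W1 := 536870912) (P2 := 1073741824) (W2 := 536870912) (P3 := 697932185) (W3 := 42949674)
    rfl k0_A07mm_022_s1

theorem s_A07mm_022_s1 {κ x : ℝ} (hκ : κ * h0 = ken x) (hx : ((697932185 : ℕ) : ℝ) / S ≤ x)
    (hx' : x ≤ (((697932185 : ℕ) : ℝ) + (42949674 : ℕ)) / S) :
    AltA (VFD κ) PP tK tL pcB [⟨3, 0, 0, 1449551462⟩] 0 2 2 0 7 (sgb false) (sgb false) x :=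
  strip_altAD (m := 1449551462) true rfl hκ (SH.κ0 hκ (SH.hx1 hx).le (SH.hx2 hx').le) (SH.hx1 hx).le (SH.hx2 hx') (covB00).cov (covB72).cov hx hx' c_A07mm_022_s1 cutA_nil (noExt_A)

noncomputable def cut_A07mm_023_s1 : Cut := Cut.of [[⟨4, 0, 0, 1449551462⟩]]

noncomputable def f_A07mm_023_s1 : ℕ → ℕ → ℕ → ℕ → Bool := onCell 0 536870912 1073741824 536870912 697932185 42949674
    (rowF 0 true false false .up 0 2 3 (qsf 0 536870912 1073741824 536870912 3) ndB0q0 ndB7q2 pcB3 cut_A07mm_023_s1 Ext.none)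

def k0_A07mm_023_s1 : ∃ t, chk3 f_A07mm_023_s1 t 1 1 1 = true :=
  ⟨(l 4), by decide +kernel⟩

theorem c_A07mm_023_s1 : CertF 0 536870912 1073741824 536870912 697932185 42949674 true false false .up 0 2 3
    ndB0q0 ndB7q2 pcB3 cut_A07mm_023_s1 Ext.none :=
  certF0 (fam := true) (s1 := false) (s2 := false) (a := 0) (b := 2) (c := 3) (cn := .up) (n1 := ndB0q0) (n2 := ndB7q2) (pc := pcB3) (cut := cut_A07mm_023_s1) (xt := Ext.none) (P1 := 0) (W1 := 536870912) (P2 := 1073741824) (W2 := 536870912) (P3 := 697932185) (W3 := 42949674)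
    rfl k0_A07mm_023_s1

theorem s_A07mm_023_s1 {κ x : ℝ} (hκ : κ * h0 = ken x) (hx : ((697932185 : ℕ) : ℝ) / S ≤ x)
    (hx' : x ≤ (((697932185 : ℕ) : ℝ) + (42949674 : ℕ)) / S) :
    AltA (VFD κ) PP tK tL pcB [⟨3, 0, 0, 1449551462⟩] 0 2 3 0 7 (sgb false) (sgb false) x :=
  strip_altAD (m := 1449551462) true rfl hκ (SH.κ0 hκ (SH.hx1 hx).le (SH.hx2 hx').le) (SH.hx1 hx).le (SH.hx2 hx') (covB00).cov (covB72).cov hx hx' c_A07mm_023_s1 cutA_nil (noExt_A)

noncomputable def cut_A07mm_033_s1 : Cut := Cut.of [[⟨4, 0, 0, 1449551462⟩]]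

noncomputable def f_A07mm_033_s1 : ℕ → ℕ → ℕ → ℕ → Bool := onCell 0 536870912 0 1230186008 697932185 42949674
    (rowF 0 true false false .pnn 0 3 3 (qsf 0 536870912 0 1230186008 3) ndB0q0 ndB7q3 pcB3 cut_A07mm_033_s1 Ext.none)

def k0_A07mm_033_s1 : ∃ t, chk3 f_A07mm_033_s1 t 1 1 1 = true :=
  ⟨(l 4), by decide +kernel⟩

theorem c_A07mm_033_s1 : CertF 0 536870912 0 1230186008 697932185 42949674 true false false .pnn 0 3 3
    ndB0q0 ndB7q3 pcB3 cut_A07mm_033_s1 Ext.none :=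
  certF0 (fam := true) (s1 := false) (s2 := false) (a := 0) (b := 3) (c := 3) (cn := .pnn) (n1 := ndB0q0) (n2 := ndB7q3) (pc := pcB3) (cut := cut_A07mm_033_s1) (xt := Ext.none) (P1 := 0) (W1 := 536870912) (P2 := 0) (W2 := 1230186008) (P3 := 697932185) (W3 := 42949674)
    rfl k0_A07mm_033_s1

theorem s_A07mm_033_s1 {κ x : ℝ} (hκ : κ * h0 = ken x) (hx : ((697932185 : ℕ) : ℝ) / S ≤ x)
    (hx' : x ≤ (((697932185 : ℕ) : ℝ) + (42949674 : ℕ)) / S) :
    AltA (VFD κ) PP tK tL pcB [⟨3, 0, 0, 1449551462⟩] 0 3 3 0 7 (sgb false) (sgb false) x :=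
  strip_altAD (m := 1449551462) true rfl hκ (SH.κ0 hκ (SH.hx1 hx).le (SH.hx2 hx').le) (SH.hx1 hx).le (SH.hx2 hx') (covB00).cov (covB73).cov hx hx' c_A07mm_033_s1 cutA_nil (noExt_A)

noncomputable def cut_A07mm_101_s1 : Cut := Cut.of [[⟨4, 0, 0, 1449551462⟩]]

noncomputable def f_A07mm_101_s1 : ℕ → ℕ → ℕ → ℕ → Bool := onCell 536870912 536870912 0 536870912 697932185 42949674
    (rowF 0 true false false .npn 1 0 1 (qsf 536870912 536870912 0 536870912 1) ndB0q1 ndB7q0 pcB1 cut_A07mm_101_s1 Ext.none)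

def k0_A07mm_101_s1 : ∃ t, chk3 f_A07mm_101_s1 t 1 1 1 = true :=
  ⟨(l 4), by decide +kernel⟩

theorem c_A07mm_101_s1 : CertF 536870912 536870912 0 536870912 697932185 42949674 true false false .npn 1 0 1
    ndB0q1 ndB7q0 pcB1 cut_A07mm_101_s1 Ext.none :=
  certF0 (fam := true) (s1 := false) (s2 := false) (a := 1) (b := 0) (c := 1) (cn := .npn) (n1 := ndB0q1) (n2 := ndB7q0) (pc := pcB1) (cut := cut_A07mm_101_s1) (xt := Ext.none) (P1 := 536870912) (W1 := 536870912) (P2 := 0) (W2 := 536870912) (P3 := 697932185) (W3 := 42949674)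
    rfl k0_A07mm_101_s1

theorem s_A07mm_101_s1 {κ x : ℝ} (hκ : κ * h0 = ken x) (hx : ((697932185 : ℕ) : ℝ) / S ≤ x)
    (hx' : x ≤ (((697932185 : ℕ) : ℝ) + (42949674 : ℕ)) / S) :
    AltA (VFD κ) PP tK tL pcB [⟨3, 0, 0, 1449551462⟩] 1 0 1 0 7 (sgb false) (sgb false) x :=
  strip_altAD (m := 1449551462) true rfl hκ (SH.κ0 hκ (SH.hx1 hx).le (SH.hx2 hx').le) (SH.hx1 hx).le (SH.hx2 hx') (covB01).cov (covB70).cov hx hx' c_A07mm_101_s1 cutA_nil (noExt_A)

noncomputable def cut_A07mm_102_s1 : Cut := Cut.of [[⟨4, 0, 0, 1449551462⟩]]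

noncomputable def f_A07mm_102_s1 : ℕ → ℕ → ℕ → ℕ → Bool := onCell 536870912 536870912 0 536870912 697932185 42949674
    (rowF 0 true false false .npp 1 0 2 (qsf 536870912 536870912 0 536870912 2) ndB0q1 ndB7q0 pcB2 cut_A07mm_102_s1 Ext.none)

def k0_A07mm_102_s1 : ∃ t, chk3 f_A07mm_102_s1 t 1 1 1 = true :=
  ⟨(l 4), by decide +kernel⟩

theorem c_A07mm_102_s1 : CertF 536870912 536870912 0 536870912 697932185 42949674 true false false .npp 1 0 2
    ndB0q1 ndB7q0 pcB2 cut_A07mm_102_s1 Ext.none :=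
  certF0 (fam := true) (s1 := false) (s2 := false) (a := 1) (b := 0) (c := 2) (cn := .npp) (n1 := ndB0q1) (n2 := ndB7q0) (pc := pcB2) (cut := cut_A07mm_102_s1) (xt := Ext.none) (P1 := 536870912) (W1 := 536870912) (P2 := 0) (W2 := 536870912) (P3 := 697932185) (W3 := 42949674)
    rfl k0_A07mm_102_s1

theorem s_A07mm_102_s1 {κ x : ℝ} (hκ : κ * h0 = ken x) (hx : ((697932185 : ℕ) : ℝ) / S ≤ x)
    (hx' : x ≤ (((697932185 : ℕ) : ℝ) + (42949674 : ℕ)) / S) :
    AltA (VFD κ) PP tK tL pcB [⟨3, 0, 0, 1449551462⟩] 1 0 2 0 7 (sgb false) (sgb false) x :=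
  strip_altAD (m := 1449551462) true rfl hκ (SH.κ0 hκ (SH.hx1 hx).le (SH.hx2 hx').le) (SH.hx1 hx).le (SH.hx2 hx') (covB01).cov (covB70).cov hx hx' c_A07mm_102_s1 cutA_nil (noExt_A)

noncomputable def cut_A07mm_112_s1 : Cut := Cut.of [[⟨4, 0, 0, 1449551462⟩]]

noncomputable def f_A07mm_112_s1 : ℕ → ℕ → ℕ → ℕ → Bool := onCell 536870912 536870912 536870912 536870912 697932185 42949674
    (rowF 0 true false false .dn 1 1 2 (qsf 536870912 536870912 536870912 536870912 2) ndB0q1 ndB7q1 pcB2 cut_A07mm_112_s1 Ext.none)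

def k0_A07mm_112_s1 : ∃ t, chk3 f_A07mm_112_s1 t 1 1 1 = true :=
  ⟨(l 4), by decide +kernel⟩

theorem c_A07mm_112_s1 : CertF 536870912 536870912 536870912 536870912 697932185 42949674 true false false .dn 1 1 2
    ndB0q1 ndB7q1 pcB2 cut_A07mm_112_s1 Ext.none :=
  certF0 (fam := true) (s1 := false) (s2 := false) (a := 1) (b := 1) (c := 2) (cn := .dn) (n1 := ndB0q1) (n2 := ndB7q1) (pc := pcB2) (cut := cut_A07mm_112_s1) (xt := Ext.none) (P1 := 536870912) (W1 := 536870912) (P2 := 536870912) (W2 := 536870912) (P3 := 697932185) (W3 := 42949674)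
    rfl k0_A07mm_112_s1

theorem s_A07mm_112_s1 {κ x : ℝ} (hκ : κ * h0 = ken x) (hx : ((697932185 : ℕ) : ℝ) / S ≤ x)
    (hx' : x ≤ (((697932185 : ℕ) : ℝ) + (42949674 : ℕ)) / S) :
    AltA (VFD κ) PP tK tL pcB [⟨3, 0, 0, 1449551462⟩] 1 1 2 0 7 (sgb false) (sgb false) x :=
  strip_altAD (m := 1449551462) true rfl hκ (SH.κ0 hκ (SH.hx1 hx).le (SH.hx2 hx').le) (SH.hx1 hx).le (SH.hx2 hx') (covB01).cov (covB71).cov hx hx' c_A07mm_112_s1 cutA_nil (noExt_A)

noncomputable def cut_A07mm_113_s1 : Cut := Cut.of [[⟨4, 0, 0, 1449551462⟩]]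

noncomputable def f_A07mm_113_s1 : ℕ → ℕ → ℕ → ℕ → Bool := onCell 536870912 536870912 536870912 536870912 697932185 42949674
    (rowF 0 true false false .nn 1 1 3 (qsf 536870912 536870912 536870912 536870912 3) ndB0q1 ndB7q1 pcB3 cut_A07mm_113_s1 Ext.none)

def k0_A07mm_113_s1 : ∃ t, chk3 f_A07mm_113_s1 t 1 1 1 = true :=
  ⟨(l 4), by decide +kernel⟩

theorem c_A07mm_113_s1 : CertF 536870912 536870912 536870912 536870912 697932185 42949674 true false false .nn 1 1 3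
    ndB0q1 ndB7q1 pcB3 cut_A07mm_113_s1 Ext.none :=
  certF0 (fam := true) (s1 := false) (s2 := false) (a := 1) (b := 1) (c := 3) (cn := .nn) (n1 := ndB0q1) (n2 := ndB7q1) (pc := pcB3) (cut := cut_A07mm_113_s1) (xt := Ext.none) (P1 := 536870912) (W1 := 536870912) (P2 := 536870912) (W2 := 536870912) (P3 := 697932185) (W3 := 42949674)
    rfl k0_A07mm_113_s1

theorem s_A07mm_113_s1 {κ x : ℝ} (hκ : κ * h0 = ken x) (hx : ((697932185 : ℕ) : ℝ) / S ≤ x)
    (hx' : x ≤ (((697932185 : ℕ) : ℝ) + (42949674 : ℕ)) / S) :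
    AltA (VFD κ) PP tK tL pcB [⟨3, 0, 0, 1449551462⟩] 1 1 3 0 7 (sgb false) (sgb false) x :=
  strip_altAD (m := 1449551462) true rfl hκ (SH.κ0 hκ (SH.hx1 hx).le (SH.hx2 hx').le) (SH.hx1 hx).le (SH.hx2 hx') (covB01).cov (covB71).cov hx hx' c_A07mm_113_s1 cutA_nil (noExt_A)

noncomputable def cut_A07mm_123_s1 : Cut := Cut.of [[⟨4, 0, 0, 1449551462⟩]]

noncomputable def f_A07mm_123_s1 : ℕ → ℕ → ℕ → ℕ → Bool := onCell 536870912 536870912 1073741824 536870912 697932185 42949674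
    (rowF 0 true false false .npn 1 2 3 (qsf 536870912 536870912 1073741824 536870912 3) ndB0q1 ndB7q2 pcB3 cut_A07mm_123_s1 Ext.none)

def k0_A07mm_123_s1 : ∃ t, chk3 f_A07mm_123_s1 t 1 1 1 = true :=
  ⟨(l 4), by decide +kernel⟩

theorem c_A07mm_123_s1 : CertF 536870912 536870912 1073741824 536870912 697932185 42949674 true false false .npn 1 2 3
    ndB0q1 ndB7q2 pcB3 cut_A07mm_123_s1 Ext.none :=
  certF0 (fam := true) (s1 := false) (s2 := false) (a := 1) (b := 2) (c := 3) (cn := .npn) (n1 := ndB0q1) (n2 := ndB7q2) (pc := pcB3) (cut := cut_A07mm_123_s1) (xt := Ext.none) (P1 := 536870912) (W1 := 536870912) (P2 := 1073741824) (W2 := 536870912) (P3 := 697932185) (W3 := 42949674)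
    rfl k0_A07mm_123_s1

theorem s_A07mm_123_s1 {κ x : ℝ} (hκ : κ * h0 = ken x) (hx : ((697932185 : ℕ) : ℝ) / S ≤ x)
    (hx' : x ≤ (((697932185 : ℕ) : ℝ) + (42949674 : ℕ)) / S) :
    AltA (VFD κ) PP tK tL pcB [⟨3, 0, 0, 1449551462⟩] 1 2 3 0 7 (sgb false) (sgb false) x :=
  strip_altAD (m := 1449551462) true rfl hκ (SH.κ0 hκ (SH.hx1 hx).le (SH.hx2 hx').le) (SH.hx1 hx).le (SH.hx2 hx') (covB01).cov (covB72).cov hx hx' c_A07mm_123_s1 cutA_nil (noExt_A)

noncomputable def cut_A07mm_133_s1 : Cut := Cut.of [[⟨4, 0, 0, 1449551462⟩]]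

noncomputable def f_A07mm_133_s1 : ℕ → ℕ → ℕ → ℕ → Bool := onCell 536870912 536870912 0 1230186008 697932185 42949674
    (rowF 0 true false false .dn 1 3 3 (qsf 536870912 536870912 0 1230186008 3) ndB0q1 ndB7q3 pcB3 cut_A07mm_133_s1 Ext.none)

def k0_A07mm_133_s1 : ∃ t, chk3 f_A07mm_133_s1 t 1 1 1 = true :=
  ⟨(l 4), by decide +kernel⟩

theorem c_A07mm_133_s1 : CertF 536870912 536870912 0 1230186008 697932185 42949674 true false false .dn 1 3 3
    ndB0q1 ndB7q3 pcB3 cut_A07mm_133_s1 Ext.none :=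
  certF0 (fam := true) (s1 := false) (s2 := false) (a := 1) (b := 3) (c := 3) (cn := .dn) (n1 := ndB0q1) (n2 := ndB7q3) (pc := pcB3) (cut := cut_A07mm_133_s1) (xt := Ext.none) (P1 := 536870912) (W1 := 536870912) (P2 := 0) (W2 := 1230186008) (P3 := 697932185) (W3 := 42949674)
    rfl k0_A07mm_133_s1

theorem s_A07mm_133_s1 {κ x : ℝ} (hκ : κ * h0 = ken x) (hx : ((697932185 : ℕ) : ℝ) / S ≤ x)
    (hx' : x ≤ (((697932185 : ℕ) : ℝ) + (42949674 : ℕ)) / S) :
    AltA (VFD κ) PP tK tL pcB [⟨3, 0, 0, 1449551462⟩] 1 3 3 0 7 (sgb false) (sgb false) x :=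
  strip_altAD (m := 1449551462) true rfl hκ (SH.κ0 hκ (SH.hx1 hx).le (SH.hx2 hx').le) (SH.hx1 hx).le (SH.hx2 hx') (covB01).cov (covB73).cov hx hx' c_A07mm_133_s1 cutA_nil (noExt_A)

noncomputable def cut_A07mm_202_s1 : Cut := Cut.of [[⟨4, 0, 0, 1449551462⟩]]

noncomputable def f_A07mm_202_s1 : ℕ → ℕ → ℕ → ℕ → Bool := onCell 0 536870912 0 536870912 697932185 42949674
    (rowF 0 true false false .pp 2 0 2 (qsf 0 536870912 0 536870912 2) ndB0q2 ndB7q0 pcB2 cut_A07mm_202_s1 Ext.none)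

def k0_A07mm_202_s1 : ∃ t, chk3 f_A07mm_202_s1 t 1 1 1 = true :=
  ⟨(l 4), by decide +kernel⟩

theorem c_A07mm_202_s1 : CertF 0 536870912 0 536870912 697932185 42949674 true false false .pp 2 0 2
    ndB0q2 ndB7q0 pcB2 cut_A07mm_202_s1 Ext.none :=
  certF0 (fam := true) (s1 := false) (s2 := false) (a := 2) (b := 0) (c := 2) (cn := .pp) (n1 := ndB0q2) (n2 := ndB7q0) (pc := pcB2) (cut := cut_A07mm_202_s1) (xt := Ext.none) (P1 := 0) (W1 := 536870912) (P2 := 0) (W2 := 536870912) (P3 := 697932185) (W3 := 42949674)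
    rfl k0_A07mm_202_s1

theorem s_A07mm_202_s1 {κ x : ℝ} (hκ : κ * h0 = ken x) (hx : ((697932185 : ℕ) : ℝ) / S ≤ x)
    (hx' : x ≤ (((697932185 : ℕ) : ℝ) + (42949674 : ℕ)) / S) :
    AltA (VFD κ) PP tK tL pcB [⟨3, 0, 0, 1449551462⟩] 2 0 2 0 7 (sgb false) (sgb false) x :=
  strip_altAD (m := 1449551462) true rfl hκ (SH.κ0 hκ (SH.hx1 hx).le (SH.hx2 hx').le) (SH.hx1 hx).le (SH.hx2 hx') (covB02).cov (covB70).cov hx hx' c_A07mm_202_s1 cutA_nil (noExt_A)

noncomputable def cut_A07mm_203_s1 : Cut := Cut.of [[⟨4, 0, 0, 1449551462⟩]]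

noncomputable def f_A07mm_203_s1 : ℕ → ℕ → ℕ → ℕ → Bool := onCell 0 536870912 0 536870912 697932185 42949674
    (rowF 0 true false false .up 2 0 3 (qsf 0 536870912 0 536870912 3) ndB0q2 ndB7q0 pcB3 cut_A07mm_203_s1 Ext.none)

def k0_A07mm_203_s1 : ∃ t, chk3 f_A07mm_203_s1 t 1 1 1 = true :=
  ⟨(l 4), by decide +kernel⟩

theorem c_A07mm_203_s1 : CertF 0 536870912 0 536870912 697932185 42949674 true false false .up 2 0 3
    ndB0q2 ndB7q0 pcB3 cut_A07mm_203_s1 Ext.none :=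
  certF0 (fam := true) (s1 := false) (s2 := false) (a := 2) (b := 0) (c := 3) (cn := .up) (n1 := ndB0q2) (n2 := ndB7q0) (pc := pcB3) (cut := cut_A07mm_203_s1) (xt := Ext.none) (P1 := 0) (W1 := 536870912) (P2 := 0) (W2 := 536870912) (P3 := 697932185) (W3 := 42949674)
    rfl k0_A07mm_203_s1

theorem s_A07mm_203_s1 {κ x : ℝ} (hκ : κ * h0 = ken x) (hx : ((697932185 : ℕ) : ℝ) / S ≤ x)
    (hx' : x ≤ (((697932185 : ℕ) : ℝ) + (42949674 : ℕ)) / S) :
    AltA (VFD κ) PP tK tL pcB [⟨3, 0, 0, 1449551462⟩] 2 0 3 0 7 (sgb false) (sgb false) x :=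
  strip_altAD (m := 1449551462) true rfl hκ (SH.κ0 hκ (SH.hx1 hx).le (SH.hx2 hx').le) (SH.hx1 hx).le (SH.hx2 hx') (covB02).cov (covB70).cov hx hx' c_A07mm_203_s1 cutA_nil (noExt_A)

noncomputable def cut_A07mm_213_s1 : Cut := Cut.of [[⟨4, 0, 0, 1449551462⟩]]

noncomputable def f_A07mm_213_s1 : ℕ → ℕ → ℕ → ℕ → Bool := onCell 0 536870912 536870912 536870912 697932185 42949674
    (rowF 0 true false false .pnn 2 1 3 (qsf 0 536870912 536870912 536870912 3) ndB0q2 ndB7q1 pcB3 cut_A07mm_213_s1 Ext.none)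

def k0_A07mm_213_s1 : ∃ t, chk3 f_A07mm_213_s1 t 1 1 1 = true :=
  ⟨(l 4), by decide +kernel⟩

theorem c_A07mm_213_s1 : CertF 0 536870912 536870912 536870912 697932185 42949674 true false false .pnn 2 1 3
    ndB0q2 ndB7q1 pcB3 cut_A07mm_213_s1 Ext.none :=
  certF0 (fam := true) (s1 := false) (s2 := false) (a := 2) (b := 1) (c := 3) (cn := .pnn) (n1 := ndB0q2) (n2 := ndB7q1) (pc := pcB3) (cut := cut_A07mm_213_s1) (xt := Ext.none) (P1 := 0) (W1 := 536870912) (P2 := 536870912) (W2 := 536870912) (P3 := 697932185) (W3 := 42949674)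
    rfl k0_A07mm_213_s1

theorem s_A07mm_213_s1 {κ x : ℝ} (hκ : κ * h0 = ken x) (hx : ((697932185 : ℕ) : ℝ) / S ≤ x)
    (hx' : x ≤ (((697932185 : ℕ) : ℝ) + (42949674 : ℕ)) / S) :
    AltA (VFD κ) PP tK tL pcB [⟨3, 0, 0, 1449551462⟩] 2 1 3 0 7 (sgb false) (sgb false) x :=
  strip_altAD (m := 1449551462) true rfl hκ (SH.κ0 hκ (SH.hx1 hx).le (SH.hx2 hx').le) (SH.hx1 hx).le (SH.hx2 hx') (covB02).cov (covB71).cov hx hx' c_A07mm_213_s1 cutA_nil (noExt_A)

noncomputable def cut_B00pp_001_s1 : Cut := Cut.of [[⟨4, 0, 0, 1449551462⟩]]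

noncomputable def f_B00pp_001_s1 : ℕ → ℕ → ℕ → ℕ → Bool := onCell 0 536870912 0 536870912 697932185 42949674
    (rowF 1 false true true .up 0 0 1 (qsf 0 536870912 536870912 536870912 0) ndB0q0 ndB0q1 pcB0 cut_B00pp_001_s1 Ext.none)

def k0_B00pp_001_s1 : ∃ t, chk3 f_B00pp_001_s1 t 1 1 1 = true :=
  ⟨(l 3), by decide +kernel⟩

theorem c_B00pp_001_s1 : CertF 0 536870912 536870912 536870912 697932185 42949674 false true true .up 0 0 1
    ndB0q0 ndB0q1 pcB0 cut_B00pp_001_s1 Ext.none :=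
  certF1 (fam := false) (s1 := true) (s2 := true) (a := 0) (b := 0) (c := 1) (cn := .up) (n1 := ndB0q0) (n2 := ndB0q1) (pc := pcB0) (cut := cut_B00pp_001_s1) (xt := Ext.none) (P1 := 0) (W1 := 536870912) (P2 := 536870912) (W2 := 536870912) (P3 := 697932185) (W3 := 42949674)
    rfl (fun _ => rfl) k0_B00pp_001_s1

theorem s_B00pp_001_s1 {κ x : ℝ} (hκ : κ * h0 = ken x) (hx : ((697932185 : ℕ) : ℝ) / S ≤ x)
    (hx' : x ≤ (((697932185 : ℕ) : ℝ) + (42949674 : ℕ)) / S) :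
    AltB (VFD κ) PP tK tL pcB [⟨3, 0, 0, 1449551462⟩] 0 0 1 0 0 (sgb true) (sgb true) x :=
  strip_altBD (m := 1449551462) true rfl hκ (SH.κ0 hκ (SH.hx1 hx).le (SH.hx2 hx').le) (SH.hx1 hx).le (SH.hx2 hx') (covB00).cov (covB01).cov hx hx' c_B00pp_001_s1 cutB_nil (noExt_B)

noncomputable def cut_B00pp_001_s3 : Cut := Cut.of [[⟨3, 0, 0, 2845415833⟩]]

noncomputable def f_B00pp_001_s3 : ℕ → ℕ → ℕ → ℕ → Bool := onCell 0 536870912 536870912 536870912 697932185 42949674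
    (rowF 0 false true true .up 0 0 1 (qsf 0 536870912 536870912 536870912 0) ndB0q0 ndB0q1 pcB0 cut_B00pp_001_s3 Ext.none)

def k0_B00pp_001_s3 : ∃ t, chk3 f_B00pp_001_s3 t 1 1 1 = true :=
  ⟨(l 6), by decide +kernel⟩

theorem c_B00pp_001_s3 : CertF 0 536870912 536870912 536870912 697932185 42949674 false true true .up 0 0 1
    ndB0q0 ndB0q1 pcB0 cut_B00pp_001_s3 Ext.none :=
  certF0 (fam := false) (s1 := true) (s2 := true) (a := 0) (b := 0) (c := 1) (cn := .up) (n1 := ndB0q0) (n2 := ndB0q1) (pc := pcB0) (cut := cut_B00pp_001_s3) (xt := Ext.none) (P1 := 0) (W1 := 536870912) (P2 := 536870912) (W2 := 536870912) (P3 := 697932185) (W3 := 42949674)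
    rfl k0_B00pp_001_s3

theorem s_B00pp_001_s3 {κ x : ℝ} (hκ : κ * h0 = ken x) (hx : ((697932185 : ℕ) : ℝ) / S ≤ x)
    (hx' : x ≤ (((697932185 : ℕ) : ℝ) + (42949674 : ℕ)) / S) :
    AltB (VFD κ) PP tK tL pcB [⟨4, 0, 0, 2845415833⟩] 0 0 1 0 0 (sgb true) (sgb true) x :=
  strip_altBD (m := 2845415833) false rfl hκ (SH.κ0 hκ (SH.hx1 hx).le (SH.hx2 hx').le) (SH.hx1 hx).le (SH.hx2 hx') (covB00).cov (covB01).cov hx hx' c_B00pp_001_s3 cutB_nil (noExt_B)

noncomputable def cut_B00pp_011_s1 : Cut := Cut.of [[⟨4, 0, 0, 1449551462⟩], [⟨0, 0, 0, 67108864⟩, ⟨1, 1, 0, 67108864⟩, ⟨2, 1, 0, 67108864⟩]]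

noncomputable def f_B00pp_011_s1 : ℕ → ℕ → ℕ → ℕ → Bool := onCell 536870912 536870912 536870912 536870912 697932185 42949674
    (rowF 2 false true true .pnn 0 1 1 (qsf 0 536870912 536870912 536870912 1) ndB0q0 ndB0q1 pcB1 cut_B00pp_011_s1 Ext.none)

def k0_B00pp_011_s1 : ∃ t, chk3 f_B00pp_011_s1 t 1 1 1 = true :=
  ⟨(a (l 3) (b (l 3) (a (l 3) (b (l 3) (a (l 3) (b (l 3) (b (l 3) (a (l 3) (l 14))))))))), by decide +kernel⟩

theorem c_B00pp_011_s1 : CertF 0 536870912 536870912 536870912 697932185 42949674 false true true .pnn 0 1 1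
    ndB0q0 ndB0q1 pcB1 cut_B00pp_011_s1 Ext.none :=
  certF2 (fam := false) (s1 := true) (s2 := true) (a := 0) (b := 1) (c := 1) (cn := .pnn) (n1 := ndB0q0) (n2 := ndB0q1) (pc := pcB1) (cut := cut_B00pp_011_s1) (xt := Ext.none) (P1 := 0) (W1 := 536870912) (P2 := 536870912) (W2 := 536870912) (P3 := 697932185) (W3 := 42949674)
    rfl (fun _ => rfl) k0_B00pp_011_s1

theorem s_B00pp_011_s1 {κ x : ℝ} (hκ : κ * h0 = ken x) (hx : ((697932185 : ℕ) : ℝ) / S ≤ x)
    (hx' : x ≤ (((697932185 : ℕ) : ℝ) + (42949674 : ℕ)) / S)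
    (H : CutB (VFD κ) PP tK tL pcB (Cut.of [[⟨0, 0, 0, 67108864⟩, ⟨1, 1, 0, 67108864⟩, ⟨2, 1, 0, 67108864⟩]]) 0 1 1 0 0 (sgb true) (sgb true) x) :
    AltB (VFD κ) PP tK tL pcB [⟨3, 0, 0, 1449551462⟩] 0 1 1 0 0 (sgb true) (sgb true) x :=
  strip_altBD (m := 1449551462) true rfl hκ (SH.κ0 hκ (SH.hx1 hx).le (SH.hx2 hx').le) (SH.hx1 hx).le (SH.hx2 hx') (covB00).cov (covB01).cov hx hx' c_B00pp_011_s1 H (noExt_B)

noncomputable def cut_B00pp_011_s3 : Cut := Cut.of [[⟨3, 0, 0, 2845415833⟩], [⟨0, 0, 0, 67108864⟩, ⟨1, 1, 0, 67108864⟩, ⟨2, 1, 0, 67108864⟩]]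

noncomputable def f_B00pp_011_s3 : ℕ → ℕ → ℕ → ℕ → Bool := onCell 0 536870912 536870912 536870912 697932185 42949674
    (rowF 0 false true true .pnn 0 1 1 (qsf 0 536870912 536870912 536870912 1) ndB0q0 ndB0q1 pcB1 cut_B00pp_011_s3 Ext.none)

def k0_B00pp_011_s3 : ∃ t, chk3 f_B00pp_011_s3 t 1 1 1 = true :=
  ⟨(l 6), by decide +kernel⟩

theorem c_B00pp_011_s3 : CertF 0 536870912 536870912 536870912 697932185 42949674 false true true .pnn 0 1 1
    ndB0q0 ndB0q1 pcB1 cut_B00pp_011_s3 Ext.none :=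
  certF0 (fam := false) (s1 := true) (s2 := true) (a := 0) (b := 1) (c := 1) (cn := .pnn) (n1 := ndB0q0) (n2 := ndB0q1) (pc := pcB1) (cut := cut_B00pp_011_s3) (xt := Ext.none) (P1 := 0) (W1 := 536870912) (P2 := 536870912) (W2 := 536870912) (P3 := 697932185) (W3 := 42949674)
    rfl k0_B00pp_011_s3

theorem s_B00pp_011_s3 {κ x : ℝ} (hκ : κ * h0 = ken x) (hx : ((697932185 : ℕ) : ℝ) / S ≤ x)
    (hx' : x ≤ (((697932185 : ℕ) : ℝ) + (42949674 : ℕ)) / S)
    (H : CutB (VFD κ) PP tK tL pcB (Cut.of [[⟨0, 0, 0, 67108864⟩, ⟨1, 1, 0, 67108864⟩, ⟨2, 1, 0, 67108864⟩]]) 0 1 1 0 0 (sgb true) (sgb true) x) :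
    AltB (VFD κ) PP tK tL pcB [⟨4, 0, 0, 2845415833⟩] 0 1 1 0 0 (sgb true) (sgb true) x :=
  strip_altBD (m := 2845415833) false rfl hκ (SH.κ0 hκ (SH.hx1 hx).le (SH.hx2 hx').le) (SH.hx1 hx).le (SH.hx2 hx') (covB00).cov (covB01).cov hx hx' c_B00pp_011_s3 H (noExt_B)

noncomputable def cut_B00pp_012_s1 : Cut := Cut.of [[⟨4, 0, 0, 1449551462⟩], [⟨0, 0, 0, 33554432⟩, ⟨1, 1, 0, 33554432⟩, ⟨2, 1, 0, 33554432⟩]]

noncomputable def xt_B00pp_012_s1 : Ext := strExt6 dd false true true .u0 .u2 .u0m .pnp 0 1 2 rfl rfl gf1 vv ww ndB0q0 ndB0q2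

noncomputable def f_B00pp_012_s1 : ℕ → ℕ → ℕ → ℕ → Bool := onCell 536870912 536870912 0 536870912 697932185 42949674
    (rowF 2 false true true .pnp 0 1 2 (qsf 0 536870912 0 536870912 1) ndB0q0 ndB0q2 pcB1 cut_B00pp_012_s1 xt_B00pp_012_s1)

def k0_B00pp_012_s1 : ∃ t, chk3 f_B00pp_012_s1 t 2 1 1 = true :=
  ⟨(b (a (b (l 2) (l 3)) (a (b (b (a (a (l 2) (a (l 2) (b (b (l 16746376) (l 16736496)) (b (l 16769216) (l 1067938319))))) (b (a (b (l 16715552) (a (a (l 16731448) (l 16728392)) (l 16744960))) (l 16750520)) (b (a (l 1068044303) (a (b (l 16725792) (l 16731568)) (l 16743408))) (a (l 1067870223) (l 1067821583))))) (a (b (a (l 2) (l 1067678735)) (l 3)) (b (a (l 1067578895) (b (l 1068704783) (a (l 1067443727) (l 1067458063)))) (a (b (c (l 1067390991) (l 1067184655)) (l 3)) (b (a (l 1068330511) (l 1067275791)) (l 1067196431)))))) (l 3)) (b (b (a (b (c (l 16733344) (l 16770456)) (a (b (l 16712624) (a (b (l 16724160) (l 16730000))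 (b (l 16717840) (l 16723296)))) (c (l 16748792) (l 16745096)))) (b (l 16746000) (c (l 16728688) (l 16723544)))) (a (b (b (a (l 1067641871) (b (l 16740296) (l 16745784))) (a (l 1067477007) (l 16755152))) (a (l 1067315727) (b (l 1067382287) (l 1067292175)))) (b (a (b (l 16708736) (b (l 16759520) (l 16765208))) (l 16742656)) (b (a (l 16774856) (b (l 16715760) (l 16721608))) (a (l 1067277839) (l 16731408)))))) (b (a (b (b (a (l 1067183631) (a (l 1067198479) (l 1067196431))) (a (l 3) (a (l 3) (l 1067101199)))) (l 3)) (b (a (b (a (l 1067189263) (l 16775624)) (a (l 1067094543) (l 1067096591))) (b (l 1067155471) (l 1067621903))) (a (b (a (l 1067045903) (l 1067057679)) (l 3)) (b (l 1067025423) (l 1066962959))))) (l 3))))) (l 3)), by decide +kernel⟩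

def k1_B00pp_012_s1 : ∃ t, chk3 f_B00pp_012_s1 t 6 4 1 = true :=
  ⟨(a (b (a (b (l 16633600) (a (l 16662784) (l 16647816))) (a (b (l 16610744) (l 16632304)) (b (b (l 6) (l 16600648)) (l 16616704)))) (a (b (a (l 16685776) (l 16670632)) (a (b (l 16704392) (b (l 16734472) (l 16740336))) (b (l 16688664) (l 16743232)))) (b (a (l 16655000) (l 16639152)) (a (b (l 16672920) (l 16685240)) (b (l 16656904) (l 16669128)))))) (b (a (b (a (b (l 6) (l 16586112)) (l 6)) (a (l 16601824) (b (l 16583288) (l 16593736)))) (b (l 6) (b (l 6) (a (l 16581448) (l 6))))) (a (b (a (l 16623488) (l 16609584)) (a (b (l 16640688) (l 16652600)) (a (l 16635504) (l 16628592)))) (b (a (l 16597008) (l 16584848)) (a (l 16618608) (l 16605720)))))), by decide +kernel⟩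

def k2_B00pp_012_s1 : ∃ t, chk3 f_B00pp_012_s1 t 24 5 1 = true :=
  ⟨(b (b (b (a (l 16771272) (a (l 16717232) (b (l 16706528) (l 16712464)))) (a (l 1066976271) (a (l 16730560) (l 16722328)))) (a (b (b (l 1066925583) (l 1066889743)) (l 1066833423)) (a (b (l 16764528) (a (l 1066706959) (l 1066605071))) (b (l 16735384) (l 1066462735))))) (b (a (b (b (l 1066774031) (a (l 3) (b (l 1066694671) (a (l 3) (a (l 3) (b (b (l 1066642447) (l 3)) (l 3))))))) (l 3)) (b (a (a (a (b (l 1066657807) (b (c (a (l 1066897935) (l 1066862607)) (l 1066348559)) (b (c (a (l 1066876431) (l 1066834447)) (l 1066323983)) (l 1066539023)))) (b (l 1066596367) (b (b (l 1066552335) (l 1066529295)) (l 1066475023)))) (b (b (l 16767984) (l 1066481167)) (b (a (l 1066467855) (l 1066398735)) (l 1066360847)))) (b (a (l 1066385935) (l 16766760)) (b (l 1066249743) (l 1066174479)))) (a (b (a (l 1066391055) (l 1066234895)) (l 3)) (b (l 1066050063) (l 1065880591)))))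 (l 3))), by decide +kernel⟩

def k3_B00pp_012_s1 : ∃ t, chk3 f_B00pp_012_s1 t 25 5 1 = true :=
  ⟨(b (b (a (b (a (l 16701688) (l 16693752)) (a (b (l 16710776) (l 16717344)) (b (l 16703400) (l 16709480)))) (b (l 16681560) (a (l 16698856) (l 16689848)))) (a (b (a (l 16727112) (l 16719192)) (a (l 1066331663) (l 16732120))) (b (a (b (l 16708216) (l 16714616)) (b (l 16699600) (l 16705800))) (a (l 16724168) (l 16715392))))) (b (a (b (b (a (l 1066181135) (l 16741904)) (a (l 1066048527) (l 16758976))) (a (b (l 1065886735) (l 1065719823)) (l 1065730575))) (b (a (l 1066013711) (l 16749208)) (a (l 1065699855) (l 1065588751)))) (a (b (a (b (l 1065549327) (a (l 3) (l 1065352207))) (b (l 1065480207) (l 1065310735))) (b (a (l 3) (c (b (l 1065392143) (l 3)) (l 1064927247))) (l 3))) (b (a (l 1065369615) (l 1065267727)) (b (a (a (l 1065143823) (l 1065100815)) (a (l 1065042447) (l 1065010191))) (b (a (a (l 3) (l 1064976399)) (a (l 1064920591)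 (a (l 1064893967) (l 1064907279)))) (a (l 3) (a (c (l 1065019407) (l 1064653327)) (c (a (a (l 1065330703) (a (l 1064997903) (l 1065003023))) (c (l 1065102351) (l 1064930831))) (a (l 1064632335) (l 1064662543))))))))))), by decide +kernel⟩

def k4_B00pp_012_s1 : ∃ t, chk3 f_B00pp_012_s1 t 13 5 1 = true :=
  ⟨(b (a (b (a (a (l 16675088) (l 16667056)) (a (l 16659464) (l 16652144))) (a (b (a (l 16694088) (l 16685840)) (a (b (l 16703648) (l 16710088)) (b (l 16695472) (l 16701952)))) (a (l 16705440) (l 16676824)))) (b (a (l 16641528) (l 16627760)) (a (l 16665560) (l 16651024)))) (a (b (a (b (b (l 16733384) (l 16739768)) (a (l 1065532431) (l 16745552))) (b (a (b (l 16700496) (l 16706768)) (l 16716920)) (b (l 16730208) (l 16715864)))) (b (a (a (b (l 1065303055) (l 1065198095)) (l 1065335823)) (l 1065988623)) (a (b (a (a (l 1065041423) (l 1065085455)) (l 1065157135)) (b (a (a (l 1064943631) (l 1064997391)) (l 1065079823)) (a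 (a (b (l 1064900623) (l 1064877071)) (l 1064949263)) (l 1065036303)))) (b (l 1065299471) (l 1065213455))))) (a (b (b (l 16684128) (a (l 16700736) (l 16693184))) (b (a (l 16714016) (l 16705976)) (a (l 1065383439) (l 16740640)))) (a (b (l 16721080) (b (l 16698352) (l 16711624))) (b (l 16671720) (b (l 16690776) (l 16703608))))))), by decide +kernel⟩

def k5_B00pp_012_s1 : ∃ t, chk3 f_B00pp_012_s1 t 6 3 1 = true :=
  ⟨(b (a (b (a (l 3) (b (a (l 3) (b (a (l 3) (a (l 3) (a (b (b (a (a (a (l 3) (b (b (l 1064769039) (l 3)) (l 3))) (l 1064765455)) (l 1064778255)) (l 3)) (l 3)) (b (b (l 1064803343) (l 1064772111)) (l 3))))) (l 3))) (l 3))) (l 3)) (b (a (b (a (b (a (b (c (l 1065039887) (l 1064690191)) (a (a (l 3) (l 1064789007)) (l 1064835087))) (b (l 1064986639) (l 1064921615))) (a (l 3) (b (a (l 1064827919) (l 1064882703)) (l 3)))) (b (l 1065109519) (a (l 1064925199) (l 1065017359)))) (b (a (l 3) (a (a (l 3) (b (l 1064845327)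 (l 3))) (b (l 1064911887) (a (l 3) (l 1064860175))))) (l 3))) (b (a (b (a (l 1065239055) (l 1065307151)) (a (l 1065097743) (l 1065160719))) (b (l 1065372175) (a (l 1065167887) (l 1065213967)))) (a (b (a (b (l 1064989199) (l 1064915983)) (b (l 1066120207) (a (l 1064956943) (l 1064926735)))) (b (a (a (l 3) (b (l 1064879119) (a (l 3) (l 1064842767)))) (b (l 1065397775) (l 1064806927))) (a (l 3) (l 1064727055)))) (b (b (l 1066650127) (a (l 1064924687) (l 1064968207))) (b (a (l 1064823311) (l 1064869903)) (a (l 1064721423) (l 1064772623))))))) (a (l 3) (b (a (l 3) (b (b (a (a (l 1064615439) (l 1064629263)) (l 1064675855)) (a (l 3) (a (b (l 1064583695) (b (l 1064546831) (l 3))) (l 1065138703)))) (b (a (l 3) (b (a (l 3) (b (a (l 3) (l 1064555535)) (l 3))) (l 3))) (l 3)))) (l 3))))) (l 3)), by decide +kernel⟩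

def k6_B00pp_012_s1 : ∃ t, chk3 f_B00pp_012_s1 t 7 2 1 = true :=
  ⟨(b (a (b (l 6) (a (b (a (l 16573304) (l 6)) (a (l 16593376) (l 16581592))) (b (l 6) (a (l 16570840) (l 6))))) (l 6)) (a (b (a (b (a (l 16614472) (l 16602088)) (a (l 16637064) (l 16624056))) (a (b (l 16590864) (l 16612472)) (b (l 16581288) (l 16602520)))) (a (a (b (l 16702904) (b (l 16679704) (a (l 16696216) (l 16689000)))) (b (b (l 16641568) (l 16653768)) (b (l 16666208) (l 16678840)))) (a (b (b (l 16629840) (l 16641968)) (a (b (l 16657064) (l 16669464)) (l 16668080))) (b (b (l 16619752) (l 16631896)) (b (l 16643896) (a (l 16658368) (l 16653336))))))) (b (b (a (a (l 16573336) (l 6)) (l 6)) (a (a (l 16594232) (l 16587064)) (b (l 6) (l 16602976)))) (b (a (a (b (l 16611264) (l 16623104)) (b (l 16603600) (l 16614424))) (b (a (l 16594872) (l 16582376)) (a (l 16601256) (l 16588648)))) (b (a (a (l 16650560) (a (l 16625736) (l 16618936))) (a (a (l 16612272)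 (l 16605760)) (b (l 16594184) (l 16619328)))) (a (a (a (l 16648512) (l 16642144)) (a (b (l 16632584) (l 16637608)) (b (l 16625744) (l 16630744)))) (a (b (a (l 16619040) (l 16612488)) (a (l 16624024) (l 16617448))) (a (l 16619072) (l 16623216))))))))), by decide +kernel⟩

def k7_B00pp_012_s1 : ∃ t, chk3 f_B00pp_012_s1 t 14 6 1 = true :=
  ⟨(b (a (a (b (b (a (l 16709176) (l 16701840)) (l 1065906191)) (b (a (l 1065111567) (l 1065252367)) (a (l 1064922127) (l 1065071631)))) (b (b (a (l 16695088) (l 16688424)) (a (l 16707744) (l 16743192))) (b (a (l 16741536) (l 16734840)) (a (l 1065267215) (l 16737240))))) (a (b (b (l 16679016) (l 16691992)) (a (b (l 16707680) (l 16720272)) (b (l 16701624) (l 16714176)))) (b (b (a (l 16670504) (l 16665160)) (a (l 16682824) (l 16677096))) (a (b (l 16695520) (l 16706712)) (b (l 16688496) (l 16699120)))))) (a (a (b (b (a (b (l 1064783887) (a (b (l 1064681999) (l 1064634895)) (l 1064727055)))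 (b (l 1064940047) (a (l 1064807439) (l 1064899087)))) (a (b (a (b (b (l 1064599567) (l 1064576015)) (l 1064540687)) (l 1064634383)) (a (l 3) (l 1064541199))) (a (l 1064670735) (l 1064764943)))) (a (l 3) (b (b (a (l 1064533007) (a (l 1064604687) (l 1064655887))) (l 3)) (l 3)))) (b (a (b (a (l 1065046543) (l 1065182223)) (a (l 1065417743) (b (l 1065080335) (l 1065021455)))) (b (l 1065414159) (b (l 1065334799) (l 1065277455)))) (b (a (b (a (a (b (l 1064738831) (l 1064695823)) (l 1064818703)) (l 1063886351)) (l 1064770063)) (b (l 1065217039) (l 1065107471))) (a (a (l 3) (l 1064712207)) (l 1064949775))))) (b (a (a (b (l 1065701903) (l 1065591311)) (b (l 16736456) (l 1065759759))) (b (a (l 16718128) (l 16710440)) (a (l 1065802255) (l 16722792)))) (a (b (a (l 1065422863) (l 1065645071)) (l 1065316367)) (b (a (l 1065818127) (l 1065930255)) (a (l 1065580047) (l 1065693711))))))), by decide +kernel⟩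

def k8_B00pp_012_s1 : ∃ t, chk3 f_B00pp_012_s1 t 30 12 1 = true :=
  ⟨(a (b (a (b (l 16659720) (l 16670488)) (b (a (l 16654304) (l 16650744)) (a (l 16665064) (l 16661496)))) (a (b (l 16670624) (l 16681240)) (b (a (l 16675680) (l 16672120)) (a (l 16686328) (l 16677536))))) (b (c (b (a (b (l 16642944) (l 16648280)) (a (l 16650912) (l 16647528))) (a (b (l 16653592) (l 16658904)) (a (l 16651096) (l 16647696)))) (b (a (l 16650760) (b (l 16635960) (l 16641328))) (a (a (l 16658040) (l 16654536)) (b (b (l 16645328) (l 16648000)) (b (l 16650664) (l 16653336)))))) (a (a (b (b (l 16655440) (l 16671232)) (b (l 16676536) (l 16681976))) (b (c (l 16667768) (l 16665176)) (b (l 16673056) (l 16678512)))) (b (a (b (l 16658984) (l 16664304)) (b (l 16655576) (l 16660896))) (a (b (l 16669616) (l 16675080)) (b (a (l 16667064) (l 16665368)) (b (l 16670288) (l 16673088)))))))), by decide +kernel⟩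

def k9_B00pp_012_s1 : ∃ t, chk3 f_B00pp_012_s1 t 31 12 1 = true :=
  ⟨(b (a (b (a (b (l 16629248) (a (l 16636248) (l 16632912))) (b (l 16622648) (l 16627976))) (a (b (a (l 16641560) (l 16638216)) (a (l 16646880) (l 16643536))) (b (a (l 16634912) (l 16631640)) (a (l 16640224) (l 16636936))))) (b (a (b (l 16616184) (l 16621472)) (b (l 16609792) (l 16615032))) (a (b (l 16631992) (a (l 16633664) (l 16630392))) (a (l 16629760) (l 16631744))))) (a (b (a (b (a (l 16652200) (l 16654096)) (a (l 16660136) (a (l 16655008) (l 16653344)))) (b (a (l 16650784) (l 16642240)) (a (a (l 16651680) (l 16650024)) (b (l 16646208) (l 16648856))))) (a (b (a (a (l 16663688) (l 16662008)) (a (l 16660336) (l 16658664))) (b (a (l 16666920) (l 16663568)) (a (l 16669720) (l 16666360)))) (b (a (a (l 16656992) (l 16655328)) (b (l 16651496) (l 16654160))) (a (b (l 16660224) (l 16663008)) (b (l 16656880) (l 16659656)))))) (a (b (b (a (l 16638944) (l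 16635648)) (a (c (l 16644256) (l 16644296)) (l 16640904))) (a (b (c (l 16649504) (l 16649608)) (b (l 16653536) (l 16656304))) (b (c (l 16646176) (l 16646280)) (b (l 16650192) (l 16652960))))) (b (a (b (l 16632360) (l 16637592)) (b (l 16629064) (l 16634288))) (a (b (c (l 16642848) (l 16642952)) (b (l 16646848) (l 16649608))) (b (l 16639512) (l 16644880))))))), by decide +kernel⟩

def k10_B00pp_012_s1 : ∃ t, chk3 f_B00pp_012_s1 t 15 13 1 = true :=
  ⟨(a (b (a (b (a (b (l 16700072) (l 16705960)) (b (l 16692912) (l 16698800))) (a (l 16715344) (b (l 16704904) (l 16711304)))) (b (b (a (c (l 16685936) (l 16675520)) (a (l 16670304) (a (l 16678240) (l 16676552)))) (a (l 16691832) (a (l 16676224) (l 16683328)))) (a (b (l 16697936) (l 16704280)) (a (l 16675008) (l 16682112))))) (a (b (a (l 16731048) (l 16721224)) (a (l 1065759247) (l 1065799183))) (a (b (b (l 16710808) (l 16716368)) (l 1065833999)) (b (b (l 16703944) (l 16709024))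 (l 16721568))))) (b (b (a (a (a (b (c (l 16673984) (l 16668928)) (c (l 16679856) (l 16669656))) (b (b (l 16669208) (l 16672112)) (c (l 16676464) (l 16666304)))) (b (a (b (l 16665848) (l 16668752)) (b (l 16662496) (l 16665384))) (b (a (l 16671704) (l 16668336)) (c (l 16672872) (l 16673272))))) (a (a (b (b (l 16659136) (l 16662024)) (b (l 16664968) (l 16667960))) (b (b (l 16655784) (l 16658664)) (b (l 16661600) (l 16664584)))) (b (a (b (l 16652424) (l 16655296)) (b (l 16649064) (l 16651928))) (b (a (l 16658224) (l 16654856)) (l 16662136))))) (b (b (a (a (l 16682824) (l 16676072)) (a (l 16669312) (l 16662552))) (a (a (l 16685928) (l 16679168)) (a (l 16672400) (l 16665624)))) (a (a (l 16690672) (l 16673416)) (a (l 16677128) (l 16670336))))) (b (a (a (b (l 16696728) (l 16701360)) (b (l 16689480) (l 16693944))) (a (b (l 16682432) (l 16686656)) (a (l 16679320) (l 16675896)))) (a (a (b (l 16706296) (l 16690176)) (b (l 16698608)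 (l 16703456))) (a (l 16693432) (l 16686024)))))), by decide +kernel⟩

def k11_B00pp_012_s1 : ∃ t, chk3 f_B00pp_012_s1 t 7 14 1 = true :=
  ⟨(a (a (l 3) (b (a (b (l 1065088527) (l 3)) (b (a (l 1065338895) (l 1065440783)) (a (b (l 1065161231) (l 1066118159)) (b (a (l 1065240079) (l 1065256463)) (a (l 1065107471) (l 1065138703)))))) (a (l 3) (b (a (l 3) (l 1064418831)) (l 3))))) (a (b (a (b (a (a (l 1065474063) (l 1065492495)) (b (l 16745192) (l 1065451535))) (b (a (a (l 1065276431) (l 1065296911)) (l 1065322511)) (a (l 1065168399) (l 1065206799)))) (b (a (c (l 16740576) (l 1065433615)) (a (l 16728792) (l 1065594895))) (a (b (l 1065357327) (l 1065240079)) (b (l 1063779343) (l 1063660559))))) (a (b (b (l 1065064975) (l 1064951311)) (b (l 1064835599) (l 1065254927))) (b (a (l 1065059343) (b (l 1063543823) (l 1063426063))) (a (l 1065359375) (b (a (l 1064917519) (l 1064930831)) (a (l 1064798223) (l 1064813583))))))) (b (b (a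 (a (l 16724120) (l 16711112)) (a (b (l 16679608) (l 16684864)) (a (l 16655272) (l 16693504)))) (b (a (a (l 1065425423) (l 16718928)) (a (l 16710912) (l 16682072))) (a (a (l 1062891023) (l 16724448)) (a (l 16716312) (l 16708280))))) (a (b (a (a (l 1065120783) (l 1065142287)) (b (l 16730088) (l 1065114127))) (a (b (l 1064956431) (a (l 1064837647) (l 1063256591))) (b (b (l 16750672) (l 16748360)) (a (l 16754968) (l 16750632))))) (b (a (b (l 16721816) (l 16737880)) (b (l 16713520) (l 16718896))) (a (b (a (l 16735232) (l 16730896)) (a (l 16741000) (l 16736584))) (b (a (l 16726544) (l 16722184)) (a (l 16732144) (l 16727688))))))))), by decide +kernel⟩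

def k12_B00pp_012_s1 : ∃ t, chk3 f_B00pp_012_s1 t 14 15 1 = true :=
  ⟨(l 3), by decide +kernel⟩

def k13_B00pp_012_s1 : ∃ t, chk3 f_B00pp_012_s1 t 30 15 1 = true :=
  ⟨(b (a (l 3) (b (a (b (c (l 1066945551) (l 1066109967)) (l 3)) (b (a (l 1064677903) (l 1064692239)) (a (l 1065091599) (c (l 1066864655) (l 1066019343))))) (a (l 3) (b (a (l 3) (c (l 1066713103) (l 1065854991))) (l 3))))) (l 3)), by decide +kernel⟩

def k14_B00pp_012_s1 : ∃ t, chk3 f_B00pp_012_s1 t 31 30 1 = true :=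
  ⟨(a (b (a (b (a (b (l 1064758287) (l 1064702991)) (a (l 1064752655) (l 1064761871))) (b (l 1064846863) (a (l 1064570895) (l 1064584719)))) (b (a (a (l 16762088) (l 16759880)) (c (l 16756968) (l 16756112))) (a (a (l 1065699343) (l 1066771471)) (b (l 16761040) (l 1067262479))))) (a (b (b (a (l 1064494607) (l 1064507407)) (a (l 1064421903) (l 1064970255))) (a (l 3) (b (l 1065974287) (a (l 3) (l 1064304655))))) (b (a (b (l 1065581583) (c (l 1066736143) (l 1065877519))) (a (b (l 1064507407) (l 1064432655)) (b (l 1064501263) (l 1064425999)))) (b (b (a (l 1064920591) (a (l 1064381967) (l 1064375311))) (a (l 1065423375) (a (l 1064348175) (l 1064341007)))) (b (a (l 1066463759) (a (l 1064314895) (l 1064307727))) (a (a (l 1064291343) (l 1064288271)) (a (l 1064283151) (l 1064275983)))))))) (b (a (b (a (l 16752096) (l 16747600)) (a (b (l 16751280) (c (l 16754648) (l 16753864))) (b (l 16746736) (l 16754928)))) (b (a (l 16737832)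 (l 16743776)) (a (b (l 16742152) (l 16745072)) (b (l 16737560) (l 16745688))))) (a (b (b (a (a (l 16758440) (l 16756144)) (a (l 16753840) (l 16751528))) (a (a (l 1065491471) (c (l 16759512) (l 16758888))) (a (l 16762136) (l 16754560)))) (a (a (a (b (l 1064351247) (l 1065358351)) (b (l 16766672) (l 1065890319))) (b (c (l 16765184) (l 16762040)) (b (l 1065362447) (l 1065866767)))) (a (b (c (l 16762896) (l 16759664)) (b (l 16764944) (a (l 16764480) (l 16763304)))) (b (c (l 16757976) (l 16757288)) (b (l 16759976) (l 14)))))) (b (a (b (c (l 16748536) (l 16747520)) (a (l 16752232) (l 16749888))) (b (c (l 16749192) (l 16742768)) (l 14))) (a (a (b (a (l 16755880) (l 16754712)) (l 14)) (l 14)) (l 14)))))), by decide +kernel⟩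

def k15_B00pp_012_s1 : ∃ t, chk3 f_B00pp_012_s1 t 31 31 1 = true :=
  ⟨(a (b (a (l 3) (b (a (a (l 3) (b (a (l 1064243727) (l 1064241167)) (l 3))) (b (b (a (l 1064252431) (l 1064244751)) (a (l 1064222735) (l 1064752143))) (b (a (l 1064194575) (l 1065260559)) (a (l 3) (c (l 1066472463) (l 1064520207)))))) (a (l 3) (a (l 3) (a (l 3) (a (l 3) (a (l 3) (l 14)))))))) (l 3)) (a (b (b (a (b (b (a (l 1065309199) (a (l 1064230927) (l 1064225295))) (a (c (l 1065980431) (l 1064567823)) (a (l 1064200719) (l 1064195599)))) (b (a (a (l 1064182799) (l 1064177679)) (l 14)) (b (a (l 1064695311) (l 14)) (a (l 1065219087) (l 14))))) (a (a (b (b (l 16766056) (l 14)) (l 14)) (l 14)) (l 14))) (l 14)) (l 14)) (l 14))), by decide +kernel⟩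

theorem t16_B00pp_012_s1 : ∃ t, chk3 f_B00pp_012_s1 t 31 15 1 = true := ex3_b k14_B00pp_012_s1 k15_B00pp_012_s1

theorem t17_B00pp_012_s1 : ∃ t, chk3 f_B00pp_012_s1 t 15 15 1 = true := ex3_a k13_B00pp_012_s1 t16_B00pp_012_s1

theorem t18_B00pp_012_s1 : ∃ t, chk3 f_B00pp_012_s1 t 7 15 1 = true := ex3_a k12_B00pp_012_s1 t17_B00pp_012_s1

theorem t19_B00pp_012_s1 : ∃ t, chk3 f_B00pp_012_s1 t 7 7 1 = true := ex3_b k11_B00pp_012_s1 t18_B00pp_012_s1

theorem t20_B00pp_012_s1 : ∃ t, chk3 f_B00pp_012_s1 t 15 12 1 = true := ex3_a k8_B00pp_012_s1 k9_B00pp_012_s1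

theorem t21_B00pp_012_s1 : ∃ t, chk3 f_B00pp_012_s1 t 15 6 1 = true := ex3_b t20_B00pp_012_s1 k10_B00pp_012_s1

theorem t22_B00pp_012_s1 : ∃ t, chk3 f_B00pp_012_s1 t 7 6 1 = true := ex3_a k7_B00pp_012_s1 t21_B00pp_012_s1

theorem t23_B00pp_012_s1 : ∃ t, chk3 f_B00pp_012_s1 t 7 3 1 = true := ex3_b t22_B00pp_012_s1 t19_B00pp_012_s1

theorem t24_B00pp_012_s1 : ∃ t, chk3 f_B00pp_012_s1 t 7 1 1 = true := ex3_b k6_B00pp_012_s1 t23_B00pp_012_s1

theorem t25_B00pp_012_s1 : ∃ t, chk3 f_B00pp_012_s1 t 12 5 1 = true := ex3_a k2_B00pp_012_s1 k3_B00pp_012_s1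

theorem t26_B00pp_012_s1 : ∃ t, chk3 f_B00pp_012_s1 t 6 5 1 = true := ex3_a t25_B00pp_012_s1 k4_B00pp_012_s1

theorem t27_B00pp_012_s1 : ∃ t, chk3 f_B00pp_012_s1 t 6 2 1 = true := ex3_b k1_B00pp_012_s1 t26_B00pp_012_s1

theorem t28_B00pp_012_s1 : ∃ t, chk3 f_B00pp_012_s1 t 6 1 1 = true := ex3_b t27_B00pp_012_s1 k5_B00pp_012_s1

theorem t29_B00pp_012_s1 : ∃ t, chk3 f_B00pp_012_s1 t 3 1 1 = true := ex3_a t28_B00pp_012_s1 t24_B00pp_012_s1

theorem t30_B00pp_012_s1 : ∃ t, chk3 f_B00pp_012_s1 t 1 1 1 = true := ex3_a k0_B00pp_012_s1 t29_B00pp_012_s1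

theorem c_B00pp_012_s1 : CertF 0 536870912 0 536870912 697932185 42949674 false true true .pnp 0 1 2
    ndB0q0 ndB0q2 pcB1 cut_B00pp_012_s1 xt_B00pp_012_s1 :=
  certF2 (fam := false) (s1 := true) (s2 := true) (a := 0) (b := 1) (c := 2) (cn := .pnp) (n1 := ndB0q0) (n2 := ndB0q2) (pc := pcB1) (cut := cut_B00pp_012_s1) (xt := xt_B00pp_012_s1) (P1 := 0) (W1 := 536870912) (P2 := 0) (W2 := 536870912) (P3 := 697932185) (W3 := 42949674)
    rfl (fun _ => rfl) t30_B00pp_012_s1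

theorem s_B00pp_012_s1 {κ x : ℝ} (hκ : κ * h0 = ken x) (hx : ((697932185 : ℕ) : ℝ) / S ≤ x)
    (hx' : x ≤ (((697932185 : ℕ) : ℝ) + (42949674 : ℕ)) / S)
    (H : CutB (VFD κ) PP tK tL pcB (Cut.of [[⟨0, 0, 0, 33554432⟩, ⟨1, 1, 0, 33554432⟩, ⟨2, 1, 0, 33554432⟩]]) 0 1 2 0 0 (sgb true) (sgb true) x) :
    AltB (VFD κ) PP tK tL pcB [⟨3, 0, 0, 1449551462⟩] 0 1 2 0 0 (sgb true) (sgb true) x :=
  strip_altBD (m := 1449551462) true rfl hκ (SH.κ0 hκ (SH.hx1 hx).le (SH.hx2 hx').le) (SH.hx1 hx).le (SH.hx2 hx') (covB00).cov (covB02).cov hx hx' c_B00pp_012_s1 H ((okx6 hx hx').extB (T := tt) (okx hx hx') (sideB hx hx') hκ rfl rfl (.O 0 true) (.O 2 true) (Or.inr rfl))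

noncomputable def cut_B00pp_012_s3 : Cut := Cut.of [[⟨3, 0, 0, 2845415833⟩], [⟨0, 0, 0, 33554432⟩, ⟨1, 1, 0, 33554432⟩, ⟨2, 1, 0, 33554432⟩]]

noncomputable def f_B00pp_012_s3 : ℕ → ℕ → ℕ → ℕ → Bool := onCell 0 536870912 0 536870912 697932185 42949674
    (rowF 0 false true true .pnp 0 1 2 (qsf 0 536870912 0 536870912 1) ndB0q0 ndB0q2 pcB1 cut_B00pp_012_s3 Ext.none)

def k0_B00pp_012_s3 : ∃ t, chk3 f_B00pp_012_s3 t 1 1 1 = true :=
  ⟨(l 6), by decide +kernel⟩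

theorem c_B00pp_012_s3 : CertF 0 536870912 0 536870912 697932185 42949674 false true true .pnp 0 1 2
    ndB0q0 ndB0q2 pcB1 cut_B00pp_012_s3 Ext.none :=
  certF0 (fam := false) (s1 := true) (s2 := true) (a := 0) (b := 1) (c := 2) (cn := .pnp) (n1 := ndB0q0) (n2 := ndB0q2) (pc := pcB1) (cut := cut_B00pp_012_s3) (xt := Ext.none) (P1 := 0) (W1 := 536870912) (P2 := 0) (W2 := 536870912) (P3 := 697932185) (W3 := 42949674)
    rfl k0_B00pp_012_s3

theorem s_B00pp_012_s3 {κ x : ℝ} (hκ : κ * h0 = ken x) (hx : ((697932185 : ℕ) : ℝ) / S ≤ x)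
    (hx' : x ≤ (((697932185 : ℕ) : ℝ) + (42949674 : ℕ)) / S)
    (H : CutB (VFD κ) PP tK tL pcB (Cut.of [[⟨0, 0, 0, 33554432⟩, ⟨1, 1, 0, 33554432⟩, ⟨2, 1, 0, 33554432⟩]]) 0 1 2 0 0 (sgb true) (sgb true) x) :
    AltB (VFD κ) PP tK tL pcB [⟨4, 0, 0, 2845415833⟩] 0 1 2 0 0 (sgb true) (sgb true) x :=
  strip_altBD (m := 2845415833) false rfl hκ (SH.κ0 hκ (SH.hx1 hx).le (SH.hx2 hx').le) (SH.hx1 hx).le (SH.hx2 hx') (covB00).cov (covB02).cov hx hx' c_B00pp_012_s3 H (noExt_B)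

noncomputable def cut_B00pp_022_s1 : Cut := Cut.of [[⟨4, 0, 0, 1449551462⟩], [⟨0, 0, 0, 67108864⟩, ⟨1, 1, 0, 67108864⟩, ⟨2, 1, 0, 67108864⟩]]

noncomputable def f_B00pp_022_s1 : ℕ → ℕ → ℕ → ℕ → Bool := onCell 1073741824 536870912 0 536870912 697932185 42949674
    (rowF 2 false true true .pp 0 2 2 (qsf 0 536870912 0 536870912 2) ndB0q0 ndB0q2 pcB2 cut_B00pp_022_s1 Ext.none)

def k0_B00pp_022_s1 : ∃ t, chk3 f_B00pp_022_s1 t 4 2 1 = true :=
  ⟨(c (a (b (l 6) (a (b (l 6) (b (l 6) (b (l 16580280) (l 16611344)))) (l 6))) (l 6)) (b (l 6) (a (a (b (l 6) (b (l 6) (a (l 16632456) (l 16579784)))) (l 6)) (l 6)))), by decide +kernel⟩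

def k1_B00pp_022_s1 : ∃ t, chk3 f_B00pp_022_s1 t 8 6 1 = true :=
  ⟨(b (a (b (b (a (a (l 16604448) (l 16602680)) (l 16594080)) (a (a (a (l 16614216) (l 16613472)) (l 16612176)) (l 16624552))) (b (a (a (a (b (l 16621544) (l 16626568)) (c (l 16622608) (l 16624272))) (l 16632624)) (c (l 16614000) (l 16611616))) (a (a (a (b (l 16631672) (l 16641968)) (c (l 16638104) (l 16634376))) (a (l 16638040) (l 16631944))) (c (l 16633856) (c (l 16621608) (l 16620144)))))) (b (a (b (l 16580136) (a (l 16592520) (l 16585136))) (c (l 16583376) (b (l 6) (l 16570984)))) (b (c (a (l 16599264) (l 16584768)) (a (l 16615944) (l 16578504))) (a (c (l 16607800) (l 16624344)) (a (l 16593488) (l 16585384)))))) (a (b (a (a (a (b (a (b (l 16641752) (l 16646496)) (b (l 16641464) (l 16646208))) (b (a (l 16651096) (l 16650824)) (l 16655456))) (b (b (l 16646224) (l 16645736)) (b (l 16650368) (l 16654872)))) (b (b (l 16629360) (l 16634144)) (a (l 16641480)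 (l 16651176)))) (a (b (c (l 16637384) (l 16635424)) (l 16626440)) (b (l 16627800) (l 16638272)))) (b (a (a (a (b (l 16659840) (l 16664240)) (b (l 16659272) (l 16663688))) (a (l 16660840) (l 16660088))) (a (l 16658744) (l 16649336))) (a (a (a (a (l 16671440) (l 16671200)) (l 16670800)) (a (l 16670160) (l 16669392))) (a (l 16668056) (l 16660104))))) (b (a (b (c (l 16616872) (l 16633384)) (a (l 16629120) (l 16619976))) (a (b (l 16601800) (l 16610808)) (b (l 16593160) (l 16601560)))) (a (b (a (l 16639712) (l 16630024)) (l 16644776)) (b (a (l 16620240) (l 16610328)) (l 16644800)))))), by decide +kernel⟩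

def k2_B00pp_022_s1 : ∃ t, chk3 f_B00pp_022_s1 t 8 7 1 = true :=
  ⟨(a (b (b (b (a (a (a (a (l 16681704) (l 16681472)) (l 16681064)) (l 16680056)) (a (l 16678304) (l 16669944))) (b (a (a (l 16689584) (l 16688272)) (l 16682272)) (l 14))) (l 14)) (l 14)) (a (b (b (b (l 16653640) (l 16661440)) (l 14)) (l 14)) (b (b (b (l 16652104) (l 16658136)) (a (l 14) (b (l 16635200) (l 1)))) (l 1)))), by decide +kernel⟩

def k3_B00pp_022_s1 : ∃ t, chk3 f_B00pp_022_s1 t 9 3 1 = true :=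
  ⟨(b (b (b (l 6) (a (a (b (l 16587688) (l 16594168)) (b (l 6) (l 16577648))) (l 6))) (b (a (a (b (l 16601016) (l 16608384)) (b (l 16583032) (c (l 16573040) (l 16562040)))) (a (b (l 16584944) (l 1)) (l 1))) (a (a (b (l 16636968) (l 16643832)) (b (l 16615544) (l 1))) (l 1)))) (a (a (b (b (b (l 16607304) (l 16611216)) (l 1)) (l 1)) (l 1)) (l 1))), by decide +kernel⟩

def k4_B00pp_022_s1 : ∃ t, chk3 f_B00pp_022_s1 t 5 1 1 = true :=
  ⟨(b (l 6) (b (l 1) (l 1))), by decide +kernel⟩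

def k5_B00pp_022_s1 : ∃ t, chk3 f_B00pp_022_s1 t 3 1 1 = true :=
  ⟨(l 1), by decide +kernel⟩

theorem t6_B00pp_022_s1 : ∃ t, chk3 f_B00pp_022_s1 t 8 3 1 = true := ex3_b k1_B00pp_022_s1 k2_B00pp_022_s1

theorem t7_B00pp_022_s1 : ∃ t, chk3 f_B00pp_022_s1 t 4 3 1 = true := ex3_a t6_B00pp_022_s1 k3_B00pp_022_s1

theorem t8_B00pp_022_s1 : ∃ t, chk3 f_B00pp_022_s1 t 4 1 1 = true := ex3_b k0_B00pp_022_s1 t7_B00pp_022_s1

theorem t9_B00pp_022_s1 : ∃ t, chk3 f_B00pp_022_s1 t 2 1 1 = true := ex3_a t8_B00pp_022_s1 k4_B00pp_022_s1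

theorem t10_B00pp_022_s1 : ∃ t, chk3 f_B00pp_022_s1 t 1 1 1 = true := ex3_a t9_B00pp_022_s1 k5_B00pp_022_s1

theorem c_B00pp_022_s1 : CertF 0 536870912 0 536870912 697932185 42949674 false true true .pp 0 2 2
    ndB0q0 ndB0q2 pcB2 cut_B00pp_022_s1 Ext.none :=
  certF2 (fam := false) (s1 := true) (s2 := true) (a := 0) (b := 2) (c := 2) (cn := .pp) (n1 := ndB0q0) (n2 := ndB0q2) (pc := pcB2) (cut := cut_B00pp_022_s1) (xt := Ext.none) (P1 := 0) (W1 := 536870912) (P2 := 0) (W2 := 536870912) (P3 := 697932185) (W3 := 42949674)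
    rfl (fun _ => rfl) t10_B00pp_022_s1

theorem s_B00pp_022_s1 {κ x : ℝ} (hκ : κ * h0 = ken x) (hx : ((697932185 : ℕ) : ℝ) / S ≤ x)
    (hx' : x ≤ (((697932185 : ℕ) : ℝ) + (42949674 : ℕ)) / S)
    (H : CutB (VFD κ) PP tK tL pcB (Cut.of [[⟨0, 0, 0, 67108864⟩, ⟨1, 1, 0, 67108864⟩, ⟨2, 1, 0, 67108864⟩]]) 0 2 2 0 0 (sgb true) (sgb true) x) :
    AltB (VFD κ) PP tK tL pcB [⟨3, 0, 0, 1449551462⟩] 0 2 2 0 0 (sgb true) (sgb true) x :=
  strip_altBD (m := 1449551462) true rfl hκ (SH.κ0 hκ (SH.hx1 hx).le (SH.hx2 hx').le) (SH.hx1 hx).le (SH.hx2 hx') (covB00).cov (covB02).cov hx hx' c_B00pp_022_s1 H (noExt_B)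

noncomputable def cut_B00pp_022_s3 : Cut := Cut.of [[⟨3, 0, 0, 2845415833⟩], [⟨0, 0, 0, 67108864⟩, ⟨1, 1, 0, 67108864⟩, ⟨2, 1, 0, 67108864⟩]]

noncomputable def f_B00pp_022_s3 : ℕ → ℕ → ℕ → ℕ → Bool := onCell 0 536870912 0 536870912 697932185 42949674
    (rowF 0 false true true .pp 0 2 2 (qsf 0 536870912 0 536870912 2) ndB0q0 ndB0q2 pcB2 cut_B00pp_022_s3 Ext.none)

def k0_B00pp_022_s3 : ∃ t, chk3 f_B00pp_022_s3 t 1 1 1 = true :=
  ⟨(l 6), by decide +kernel⟩

theorem c_B00pp_022_s3 : CertF 0 536870912 0 536870912 697932185 42949674 false true true .pp 0 2 2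
    ndB0q0 ndB0q2 pcB2 cut_B00pp_022_s3 Ext.none :=
  certF0 (fam := false) (s1 := true) (s2 := true) (a := 0) (b := 2) (c := 2) (cn := .pp) (n1 := ndB0q0) (n2 := ndB0q2) (pc := pcB2) (cut := cut_B00pp_022_s3) (xt := Ext.none) (P1 := 0) (W1 := 536870912) (P2 := 0) (W2 := 536870912) (P3 := 697932185) (W3 := 42949674)
    rfl k0_B00pp_022_s3

theorem s_B00pp_022_s3 {κ x : ℝ} (hκ : κ * h0 = ken x) (hx : ((697932185 : ℕ) : ℝ) / S ≤ x)
    (hx' : x ≤ (((697932185 : ℕ) : ℝ) + (42949674 : ℕ)) / S)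
    (H : CutB (VFD κ) PP tK tL pcB (Cut.of [[⟨0, 0, 0, 67108864⟩, ⟨1, 1, 0, 67108864⟩, ⟨2, 1, 0, 67108864⟩]]) 0 2 2 0 0 (sgb true) (sgb true) x) :
    AltB (VFD κ) PP tK tL pcB [⟨4, 0, 0, 2845415833⟩] 0 2 2 0 0 (sgb true) (sgb true) x :=
  strip_altBD (m := 2845415833) false rfl hκ (SH.κ0 hκ (SH.hx1 hx).le (SH.hx2 hx').le) (SH.hx1 hx).le (SH.hx2 hx') (covB00).cov (covB02).cov hx hx' c_B00pp_022_s3 H (noExt_B)

noncomputable def cut_B00pp_101_s1 : Cut := Cut.of [[⟨4, 0, 0, 1449551462⟩]]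

noncomputable def f_B00pp_101_s1 : ℕ → ℕ → ℕ → ℕ → Bool := onCell 536870912 536870912 536870912 536870912 697932185 42949674
    (rowF 0 false true true .npn 1 0 1 (qsf 536870912 536870912 536870912 536870912 0) ndB0q1 ndB0q1 pcB0 cut_B00pp_101_s1 Ext.none)

def k0_B00pp_101_s1 : ∃ t, chk3 f_B00pp_101_s1 t 1 1 1 = true :=
  ⟨(l 3), by decide +kernel⟩

theorem c_B00pp_101_s1 : CertF 536870912 536870912 536870912 536870912 697932185 42949674 false true true .npn 1 0 1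
    ndB0q1 ndB0q1 pcB0 cut_B00pp_101_s1 Ext.none :=
  certF0 (fam := false) (s1 := true) (s2 := true) (a := 1) (b := 0) (c := 1) (cn := .npn) (n1 := ndB0q1) (n2 := ndB0q1) (pc := pcB0) (cut := cut_B00pp_101_s1) (xt := Ext.none) (P1 := 536870912) (W1 := 536870912) (P2 := 536870912) (W2 := 536870912) (P3 := 697932185) (W3 := 42949674)
    rfl k0_B00pp_101_s1

theorem s_B00pp_101_s1 {κ x : ℝ} (hκ : κ * h0 = ken x) (hx : ((697932185 : ℕ) : ℝ) / S ≤ x)
    (hx' : x ≤ (((697932185 : ℕ) : ℝ) + (42949674 : ℕ)) / S) :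
    AltB (VFD κ) PP tK tL pcB [⟨3, 0, 0, 1449551462⟩] 1 0 1 0 0 (sgb true) (sgb true) x :=
  strip_altBD (m := 1449551462) true rfl hκ (SH.κ0 hκ (SH.hx1 hx).le (SH.hx2 hx').le) (SH.hx1 hx).le (SH.hx2 hx') (covB01).cov (covB01).cov hx hx' c_B00pp_101_s1 cutB_nil (noExt_B)

noncomputable def cut_B00pp_101_s3 : Cut := Cut.of [[⟨3, 0, 0, 2845415833⟩]]

noncomputable def f_B00pp_101_s3 : ℕ → ℕ → ℕ → ℕ → Bool := onCell 536870912 536870912 536870912 536870912 697932185 42949674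
    (rowF 0 false true true .npn 1 0 1 (qsf 536870912 536870912 536870912 536870912 0) ndB0q1 ndB0q1 pcB0 cut_B00pp_101_s3 Ext.none)

def k0_B00pp_101_s3 : ∃ t, chk3 f_B00pp_101_s3 t 1 1 1 = true :=
  ⟨(l 3), by decide +kernel⟩

theorem c_B00pp_101_s3 : CertF 536870912 536870912 536870912 536870912 697932185 42949674 false true true .npn 1 0 1
    ndB0q1 ndB0q1 pcB0 cut_B00pp_101_s3 Ext.none :=
  certF0 (fam := false) (s1 := true) (s2 := true) (a := 1) (b := 0) (c := 1) (cn := .npn) (n1 := ndB0q1) (n2 := ndB0q1) (pc := pcB0) (cut := cut_B00pp_101_s3) (xt := Ext.none) (P1 := 536870912) (W1 := 536870912) (P2 := 536870912) (W2 := 536870912) (P3 := 697932185) (W3 := 42949674)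
    rfl k0_B00pp_101_s3

theorem s_B00pp_101_s3 {κ x : ℝ} (hκ : κ * h0 = ken x) (hx : ((697932185 : ℕ) : ℝ) / S ≤ x)
    (hx' : x ≤ (((697932185 : ℕ) : ℝ) + (42949674 : ℕ)) / S) :
    AltB (VFD κ) PP tK tL pcB [⟨4, 0, 0, 2845415833⟩] 1 0 1 0 0 (sgb true) (sgb true) x :=
  strip_altBD (m := 2845415833) false rfl hκ (SH.κ0 hκ (SH.hx1 hx).le (SH.hx2 hx').le) (SH.hx1 hx).le (SH.hx2 hx') (covB01).cov (covB01).cov hx hx' c_B00pp_101_s3 cutB_nil (noExt_B)

noncomputable def cut_B00pp_102_s1 : Cut := Cut.of [[⟨4, 0, 0, 1449551462⟩]]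

noncomputable def f_B00pp_102_s1 : ℕ → ℕ → ℕ → ℕ → Bool := onCell 0 536870912 0 536870912 697932185 42949674
    (rowF 2 false true true .npp 1 0 2 (qsf 536870912 536870912 0 536870912 0) ndB0q1 ndB0q2 pcB0 cut_B00pp_102_s1 Ext.none)

def k0_B00pp_102_s1 : ∃ t, chk3 f_B00pp_102_s1 t 1 1 1 = true :=
  ⟨(a (b (l 3) (l 3)) (l 3)), by decide +kernel⟩

theorem c_B00pp_102_s1 : CertF 536870912 536870912 0 536870912 697932185 42949674 false true true .npp 1 0 2
    ndB0q1 ndB0q2 pcB0 cut_B00pp_102_s1 Ext.none :=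
  certF2 (fam := false) (s1 := true) (s2 := true) (a := 1) (b := 0) (c := 2) (cn := .npp) (n1 := ndB0q1) (n2 := ndB0q2) (pc := pcB0) (cut := cut_B00pp_102_s1) (xt := Ext.none) (P1 := 536870912) (W1 := 536870912) (P2 := 0) (W2 := 536870912) (P3 := 697932185) (W3 := 42949674)
    rfl (fun _ => rfl) k0_B00pp_102_s1

theorem s_B00pp_102_s1 {κ x : ℝ} (hκ : κ * h0 = ken x) (hx : ((697932185 : ℕ) : ℝ) / S ≤ x)
    (hx' : x ≤ (((697932185 : ℕ) : ℝ) + (42949674 : ℕ)) / S) :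
    AltB (VFD κ) PP tK tL pcB [⟨3, 0, 0, 1449551462⟩] 1 0 2 0 0 (sgb true) (sgb true) x :=
  strip_altBD (m := 1449551462) true rfl hκ (SH.κ0 hκ (SH.hx1 hx).le (SH.hx2 hx').le) (SH.hx1 hx).le (SH.hx2 hx') (covB01).cov (covB02).cov hx hx' c_B00pp_102_s1 cutB_nil (noExt_B)

noncomputable def cut_B00pp_102_s3 : Cut := Cut.of [[⟨3, 0, 0, 2845415833⟩]]

noncomputable def f_B00pp_102_s3 : ℕ → ℕ → ℕ → ℕ → Bool := onCell 536870912 536870912 0 536870912 697932185 42949674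
    (rowF 0 false true true .npp 1 0 2 (qsf 536870912 536870912 0 536870912 0) ndB0q1 ndB0q2 pcB0 cut_B00pp_102_s3 Ext.none)

def k0_B00pp_102_s3 : ∃ t, chk3 f_B00pp_102_s3 t 1 1 1 = true :=
  ⟨(l 6), by decide +kernel⟩

theorem c_B00pp_102_s3 : CertF 536870912 536870912 0 536870912 697932185 42949674 false true true .npp 1 0 2
    ndB0q1 ndB0q2 pcB0 cut_B00pp_102_s3 Ext.none :=
  certF0 (fam := false) (s1 := true) (s2 := true) (a := 1) (b := 0) (c := 2) (cn := .npp) (n1 := ndB0q1) (n2 := ndB0q2) (pc := pcB0) (cut := cut_B00pp_102_s3) (xt := Ext.none) (P1 := 536870912) (W1 := 536870912) (P2 := 0) (W2 := 536870912) (P3 := 697932185) (W3 := 42949674)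
    rfl k0_B00pp_102_s3

theorem s_B00pp_102_s3 {κ x : ℝ} (hκ : κ * h0 = ken x) (hx : ((697932185 : ℕ) : ℝ) / S ≤ x)
    (hx' : x ≤ (((697932185 : ℕ) : ℝ) + (42949674 : ℕ)) / S) :
    AltB (VFD κ) PP tK tL pcB [⟨4, 0, 0, 2845415833⟩] 1 0 2 0 0 (sgb true) (sgb true) x :=
  strip_altBD (m := 2845415833) false rfl hκ (SH.κ0 hκ (SH.hx1 hx).le (SH.hx2 hx').le) (SH.hx1 hx).le (SH.hx2 hx') (covB01).cov (covB02).cov hx hx' c_B00pp_102_s3 cutB_nil (noExt_B)

noncomputable def cut_B00pp_112_s1 : Cut := Cut.of [[⟨4, 0, 0, 1449551462⟩]]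

noncomputable def xt_B00pp_112_s1 : Ext := strExt6 dd false true true .u0 .u2 .u0m .dn 1 1 2 rfl rfl gf1 vv ww ndB0q1 ndB0q2

noncomputable def f_B00pp_112_s1 : ℕ → ℕ → ℕ → ℕ → Bool := onCell 536870912 536870912 0 536870912 697932185 42949674
    (rowF 0 false true true .dn 1 1 2 (qsf 536870912 536870912 0 536870912 1) ndB0q1 ndB0q2 pcB1 cut_B00pp_112_s1 xt_B00pp_112_s1)

def k0_B00pp_112_s1 : ∃ t, chk3 f_B00pp_112_s1 t 1 1 1 = true :=
  ⟨(a (b (b (a (a (b (a (b (b (a (a (b (l 16723552) (l 16729192)) (b (l 16729792) (l 16735640))) (a (l 16738992) (l 16745280))) (a (l 1068264975) (l 1068369423))) (b (a (a (l 16771240) (l 1068183055)) (a (l 1068245519) (l 1068309519))) (a (c (l 1068132879) (l 1067861007)) (c (a (l 1068291599) (l 1068358159)) (a (l 1068003855) (l 1068071439)))))) (b (c (a (l 1068618255) (l 1068653071)) (a (l 1068351503) (l 1068396047))) (b (l 1068399119) (l 3)))) (a (b (a (l 1067723279) (l 3)) (l 3)) (l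 3))) (b (a (b (a (b (l 1068575247) (l 3)) (l 3)) (l 3)) (l 3)) (l 3))) (l 3)) (l 3)) (l 3)) (l 1)), by decide +kernel⟩

theorem c_B00pp_112_s1 : CertF 536870912 536870912 0 536870912 697932185 42949674 false true true .dn 1 1 2
    ndB0q1 ndB0q2 pcB1 cut_B00pp_112_s1 xt_B00pp_112_s1 :=
  certF0 (fam := false) (s1 := true) (s2 := true) (a := 1) (b := 1) (c := 2) (cn := .dn) (n1 := ndB0q1) (n2 := ndB0q2) (pc := pcB1) (cut := cut_B00pp_112_s1) (xt := xt_B00pp_112_s1) (P1 := 536870912) (W1 := 536870912) (P2 := 0) (W2 := 536870912) (P3 := 697932185) (W3 := 42949674)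
    rfl k0_B00pp_112_s1

theorem s_B00pp_112_s1 {κ x : ℝ} (hκ : κ * h0 = ken x) (hx : ((697932185 : ℕ) : ℝ) / S ≤ x)
    (hx' : x ≤ (((697932185 : ℕ) : ℝ) + (42949674 : ℕ)) / S) :
    AltB (VFD κ) PP tK tL pcB [⟨3, 0, 0, 1449551462⟩] 1 1 2 0 0 (sgb true) (sgb true) x :=
  strip_altBD (m := 1449551462) true rfl hκ (SH.κ0 hκ (SH.hx1 hx).le (SH.hx2 hx').le) (SH.hx1 hx).le (SH.hx2 hx') (covB01).cov (covB02).cov hx hx' c_B00pp_112_s1 cutB_nil ((okx6 hx hx').extB (T := tt) (okx hx hx') (sideB hx hx') hκ rfl rfl (.O 1 true) (.O 2 true) (Or.inr rfl))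

noncomputable def cut_B00pp_112_s3 : Cut := Cut.of [[⟨3, 0, 0, 2845415833⟩]]

noncomputable def f_B00pp_112_s3 : ℕ → ℕ → ℕ → ℕ → Bool := onCell 536870912 536870912 0 536870912 697932185 42949674
    (rowF 0 false true true .dn 1 1 2 (qsf 536870912 536870912 0 536870912 1) ndB0q1 ndB0q2 pcB1 cut_B00pp_112_s3 Ext.none)

def k0_B00pp_112_s3 : ∃ t, chk3 f_B00pp_112_s3 t 1 1 1 = true :=
  ⟨(l 6), by decide +kernel⟩

theorem c_B00pp_112_s3 : CertF 536870912 536870912 0 536870912 697932185 42949674 false true true .dn 1 1 2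
    ndB0q1 ndB0q2 pcB1 cut_B00pp_112_s3 Ext.none :=
  certF0 (fam := false) (s1 := true) (s2 := true) (a := 1) (b := 1) (c := 2) (cn := .dn) (n1 := ndB0q1) (n2 := ndB0q2) (pc := pcB1) (cut := cut_B00pp_112_s3) (xt := Ext.none) (P1 := 536870912) (W1 := 536870912) (P2 := 0) (W2 := 536870912) (P3 := 697932185) (W3 := 42949674)
    rfl k0_B00pp_112_s3

theorem s_B00pp_112_s3 {κ x : ℝ} (hκ : κ * h0 = ken x) (hx : ((697932185 : ℕ) : ℝ) / S ≤ x)
    (hx' : x ≤ (((697932185 : ℕ) : ℝ) + (42949674 : ℕ)) / S) :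
    AltB (VFD κ) PP tK tL pcB [⟨4, 0, 0, 2845415833⟩] 1 1 2 0 0 (sgb true) (sgb true) x :=
  strip_altBD (m := 2845415833) false rfl hκ (SH.κ0 hκ (SH.hx1 hx).le (SH.hx2 hx').le) (SH.hx1 hx).le (SH.hx2 hx') (covB01).cov (covB02).cov hx hx' c_B00pp_112_s3 cutB_nil (noExt_B)

noncomputable def cut_B00pp_202_s1 : Cut := Cut.of [[⟨4, 0, 0, 1449551462⟩]]

noncomputable def f_B00pp_202_s1 : ℕ → ℕ → ℕ → ℕ → Bool := onCell 0 536870912 0 536870912 697932185 42949674
    (rowF 0 false true true .pp 2 0 2 (qsf 0 536870912 0 536870912 0) ndB0q2 ndB0q2 pcB0 cut_B00pp_202_s1 Ext.none)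

def k0_B00pp_202_s1 : ∃ t, chk3 f_B00pp_202_s1 t 1 1 1 = true :=
  ⟨(l 3), by decide +kernel⟩

theorem c_B00pp_202_s1 : CertF 0 536870912 0 536870912 697932185 42949674 false true true .pp 2 0 2
    ndB0q2 ndB0q2 pcB0 cut_B00pp_202_s1 Ext.none :=
  certF0 (fam := false) (s1 := true) (s2 := true) (a := 2) (b := 0) (c := 2) (cn := .pp) (n1 := ndB0q2) (n2 := ndB0q2) (pc := pcB0) (cut := cut_B00pp_202_s1) (xt := Ext.none) (P1 := 0) (W1 := 536870912) (P2 := 0) (W2 := 536870912) (P3 := 697932185) (W3 := 42949674)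
    rfl k0_B00pp_202_s1

theorem s_B00pp_202_s1 {κ x : ℝ} (hκ : κ * h0 = ken x) (hx : ((697932185 : ℕ) : ℝ) / S ≤ x)
    (hx' : x ≤ (((697932185 : ℕ) : ℝ) + (42949674 : ℕ)) / S) :
    AltB (VFD κ) PP tK tL pcB [⟨3, 0, 0, 1449551462⟩] 2 0 2 0 0 (sgb true) (sgb true) x :=
  strip_altBD (m := 1449551462) true rfl hκ (SH.κ0 hκ (SH.hx1 hx).le (SH.hx2 hx').le) (SH.hx1 hx).le (SH.hx2 hx') (covB02).cov (covB02).cov hx hx' c_B00pp_202_s1 cutB_nil (noExt_B)

noncomputable def cut_B00pp_202_s3 : Cut := Cut.of [[⟨3, 0, 0, 2845415833⟩]]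

noncomputable def f_B00pp_202_s3 : ℕ → ℕ → ℕ → ℕ → Bool := onCell 0 536870912 0 536870912 697932185 42949674
    (rowF 0 false true true .pp 2 0 2 (qsf 0 536870912 0 536870912 0) ndB0q2 ndB0q2 pcB0 cut_B00pp_202_s3 Ext.none)

def k0_B00pp_202_s3 : ∃ t, chk3 f_B00pp_202_s3 t 1 1 1 = true :=
  ⟨(l 3), by decide +kernel⟩

theorem c_B00pp_202_s3 : CertF 0 536870912 0 536870912 697932185 42949674 false true true .pp 2 0 2
    ndB0q2 ndB0q2 pcB0 cut_B00pp_202_s3 Ext.none :=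
  certF0 (fam := false) (s1 := true) (s2 := true) (a := 2) (b := 0) (c := 2) (cn := .pp) (n1 := ndB0q2) (n2 := ndB0q2) (pc := pcB0) (cut := cut_B00pp_202_s3) (xt := Ext.none) (P1 := 0) (W1 := 536870912) (P2 := 0) (W2 := 536870912) (P3 := 697932185) (W3 := 42949674)
    rfl k0_B00pp_202_s3

theorem s_B00pp_202_s3 {κ x : ℝ} (hκ : κ * h0 = ken x) (hx : ((697932185 : ℕ) : ℝ) / S ≤ x)
    (hx' : x ≤ (((697932185 : ℕ) : ℝ) + (42949674 : ℕ)) / S) :
    AltB (VFD κ) PP tK tL pcB [⟨4, 0, 0, 2845415833⟩] 2 0 2 0 0 (sgb true) (sgb true) x :=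
  strip_altBD (m := 2845415833) false rfl hκ (SH.κ0 hκ (SH.hx1 hx).le (SH.hx2 hx').le) (SH.hx1 hx).le (SH.hx2 hx') (covB02).cov (covB02).cov hx hx' c_B00pp_202_s3 cutB_nil (noExt_B)

noncomputable def cut_B00pm_001_s1 : Cut := Cut.of [[⟨4, 0, 0, 1449551462⟩]]

noncomputable def f_B00pm_001_s1 : ℕ → ℕ → ℕ → ℕ → Bool := onCell 0 536870912 536870912 536870912 697932185 42949674
    (rowF 0 false true false .up 0 0 1 (qsf 0 536870912 536870912 536870912 0) ndB0q0 ndB0q1 pcB0 cut_B00pm_001_s1 Ext.none)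

def k0_B00pm_001_s1 : ∃ t, chk3 f_B00pm_001_s1 t 1 1 1 = true :=
  ⟨(l 6), by decide +kernel⟩

theorem c_B00pm_001_s1 : CertF 0 536870912 536870912 536870912 697932185 42949674 false true false .up 0 0 1
    ndB0q0 ndB0q1 pcB0 cut_B00pm_001_s1 Ext.none :=
  certF0 (fam := false) (s1 := true) (s2 := false) (a := 0) (b := 0) (c := 1) (cn := .up) (n1 := ndB0q0) (n2 := ndB0q1) (pc := pcB0) (cut := cut_B00pm_001_s1) (xt := Ext.none) (P1 := 0) (W1 := 536870912) (P2 := 536870912) (W2 := 536870912) (P3 := 697932185) (W3 := 42949674)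
    rfl k0_B00pm_001_s1

theorem s_B00pm_001_s1 {κ x : ℝ} (hκ : κ * h0 = ken x) (hx : ((697932185 : ℕ) : ℝ) / S ≤ x)
    (hx' : x ≤ (((697932185 : ℕ) : ℝ) + (42949674 : ℕ)) / S) :
    AltB (VFD κ) PP tK tL pcB [⟨3, 0, 0, 1449551462⟩] 0 0 1 0 0 (sgb true) (sgb false) x :=
  strip_altBD (m := 1449551462) true rfl hκ (SH.κ0 hκ (SH.hx1 hx).le (SH.hx2 hx').le) (SH.hx1 hx).le (SH.hx2 hx') (covB00).cov (covB01).cov hx hx' c_B00pm_001_s1 cutB_nil (noExt_B)

noncomputable def cut_B00pm_001_s3 : Cut := Cut.of [[⟨3, 0, 0, 2845415833⟩]]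

noncomputable def xt_B00pm_001_s3 : Ext := strExt6 dd false true false .u0 .u0m .s0m .up 0 0 1 rfl rfl gl0 vv ww ndB0q0 ndB0q1

noncomputable def f_B00pm_001_s3 : ℕ → ℕ → ℕ → ℕ → Bool := onCell 0 536870912 536870912 536870912 697932185 42949674
    (rowF 0 false true false .up 0 0 1 (qsf 0 536870912 536870912 536870912 0) ndB0q0 ndB0q1 pcB0 cut_B00pm_001_s3 xt_B00pm_001_s3)

def k0_B00pm_001_s3 : ∃ t, chk3 f_B00pm_001_s3 t 2 1 1 = true :=
  ⟨(b (l 4) (b (b (l 4) (l 2)) (l 2))), by decide +kernel⟩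

def k1_B00pm_001_s3 : ∃ t, chk3 f_B00pm_001_s3 t 6 2 1 = true :=
  ⟨(b (l 4) (l 4)), by decide +kernel⟩

def k2_B00pm_001_s3 : ∃ t, chk3 f_B00pm_001_s3 t 7 4 1 = true :=
  ⟨(l 4), by decide +kernel⟩

def k3_B00pm_001_s3 : ∃ t, chk3 f_B00pm_001_s3 t 14 5 1 = true :=
  ⟨(b (l 4) (b (a (l 4) (a (l 4) (b (l 4) (a (b (l 4) (c (l 1067866639) (l 1067237903))) (b (l 1067895311) (c (l 1068114959) (l 1067478543))))))) (a (b (a (l 4) (c (l 1067593743) (l 1067008015))) (a (l 1067403791) (l 1067532303))) (a (b (c (b (l 1067511311) (l 1067632655)) (b (l 1067438095) (l 1067051023))) (c (l 1067823119) (l 1067251215))) (a (b (b (c (l 1067771407) (l 1067154447)) (l 1067401231)) (l 1067513359)) (b (b (c (l 1068014607) (l 1067392527)) (l 1067628559)) (l 1067604495))))))), by decide +kernel⟩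

def k4_B00pm_001_s3 : ∃ t, chk3 f_B00pm_001_s3 t 15 5 1 = true :=
  ⟨(b (a (a (l 4) (b (l 4) (b (l 4) (b (b (l 4) (l 1069158415)) (l 1069097487))))) (b (a (l 4) (b (l 4) (a (l 4) (b (l 4) (a (l 1070952975) (l 1071116303)))))) (a (b (a (l 4) (b (l 4) (c (l 1070611983) (l 1069606415)))) (a (b (b (a (l 4) (a (b (l 4) (c (l 1070081551) (l 1069198863))) (c (l 1070206991) (l 1069298703)))) (a (l 1069510671) (a (l 1069618703) (b (a (l 1069684751) (l 1069728271)) (l 1069684239))))) (a (l 1069449231) (c (l 1070011407) (l 1069167119)))) (b (a (b (c (l 1070366223) (l 1069427727)) (b (c (l 1070300687) (l 1069384207)) (l 1070017551))) (b (l 1070087695) (l 1070017039))) (a (b (a (l 1069735951) (l 1069824015)) (l 1069732879)) (b (l 1069960719) (l 1069909007)))))) (b (a (c (l 1071094287) (l 1069981199)) (b (a (l 1070852111) (l 1071015951)) (l 1070824975))) (b (b (a (l 1070367759) (l 1070731791)) (a (c (l 1070801423) (l 1069794319))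 (l 1070668303))) (a (a (a (l 1070609935) (l 1070165519)) (l 1070841871)) (c (l 1071102991) (l 1070060559)))))))) (a (b (b (a (l 1068425743) (l 1068965903)) (b (l 1068549647) (a (l 1068178447) (l 1068713999)))) (c (b (a (b (l 1068393487) (l 1068297743)) (l 1068882959)) (a (l 1068182031) (l 1068682767))) (b (a (b (l 1067756559) (l 1067682831)) (l 1068231183)) (a (l 1067605519) (l 1068085263))))) (b (b (a (a (b (l 1069434383) (l 1069340687)) (b (a (l 1069663247) (l 1069834255)) (l 1069649935))) (b (a (b (l 1070668815) (l 1070078991)) (b (l 1070501903) (l 1070448143))) (a (l 1069999631) (l 1070904335)))) (a (a (l 1069189647) (b (l 1069547023) (l 1069438991))) (b (a (l 1069892111) (l 1070256655)) (a (l 1069779983) (l 1070141967))))) (b (a (b (l 1069173775) (l 1069068815)) (b (a (l 16737848) (l 16737160)) (l 1069728271))) (a (b (l 16726600) (l 16719144)) (b (l 16724232) (l 16717208))))))), by decide +kernel⟩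

def k5_B00pm_001_s3 : ∃ t, chk3 f_B00pm_001_s3 t 6 3 1 = true :=
  ⟨(b (b (a (b (l 4) (a (l 4) (a (l 4) (b (l 4) (b (l 4) (a (b (l 4) (l 2)) (a (b (l 4) (l 1062511119)) (b (l 1062573071) (l 1062558735))))))))) (a (b (l 4) (b (a (l 1063229967) (l 1064021519)) (a (b (l 1063006735) (a (l 1063296527) (l 1063042575))) (b (l 1063695375) (l 1063516175))))) (b (a (b (l 4) (l 1065660943)) (b (a (b (l 4) (l 1067079183)) (l 1067260431)) (a (b (a (l 1066616847) (l 1067049999)) (l 1066336783)) (b (l 1067158031) (l 1066814479))))) (a (b (l 1064961551) (l 1064397839)) (a (b (l 1065748495) (l 1065078287)) (b (l 1067339279) (l 1065531407))))))) (a (b (a (l 2) (a (l 2) (a (l 2) (b (a (l 2) (b (l 1063787023) (l 2))) (l 2))))) (l 2)) (b (a (b (a (a (b (b (l 1062766607) (l 1062834703)) (a (l 2) (l 1062985231))) (b (l 1063013391) (l 1063108111))) (b (l 1063426063) (l 1063449615))) (a (a (l 2) (c (l 1063498767) (l 1063164431))) (a (l 1064559631)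 (l 1063683087)))) (a (b (l 1064062991) (l 1064056847)) (b (b (l 16718128) (l 16682904)) (a (l 16664808) (l 16659080))))) (a (b (a (l 2) (a (l 2) (l 38218326743))) (l 2)) (b (a (a (l 16693744) (l 16644328)) (b (l 16641488) (l 16628144))) (a (c (l 56471887863) (l 65598659207)) (b (l 16614760) (l 16601256)))))))) (b (a (l 2) (b (a (l 2) (b (a (l 2) (l 64524843143)) (l 2))) (l 2))) (l 2))), by decide +kernel⟩

def k6_B00pm_001_s3 : ∃ t, chk3 f_B00pm_001_s3 t 7 3 1 = true :=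
  ⟨(b (b (a (b (a (b (l 1068604943) (a (b (l 1067316751) (l 1067139087)) (l 1067534863))) (b (a (l 1067768847) (l 1067777551)) (a (l 1067791887) (b (l 16744024) (l 1067942927))))) (a (a (b (b (l 1066841103) (l 16747648)) (b (l 16713960) (l 16700192))) (b (l 1067060239) (b (l 16702440) (l 16688864)))) (b (a (l 16751704) (l 1068246543)) (a (l 16684760) (l 16675104))))) (b (a (b (a (l 1067883023) (l 1068227087)) (a (l 16706888) (l 1068152847))) (b (a (l 16707280) (l 16705952)) (a (l 16689536) (l 16688840)))) (a (b (a (l 1068494863) (l 16679392)) (a (b (l 16674328) (l 16661128)) (a (l 16662408) (l 16657840)))) (b (a (b (l 16674472) (l 16664408)) (l 16666872)) (a (l 16649880) (b (l 16648016) (l 16636320))))))) (a (a (b (a (b (b (l 16685952) (l 16671752)) (l 16692592)) (b (l 16667744) (l 16639680))) (b (a (l 16623376) (l 16612208)) (a (l 16596184) (l 16584680)))) (b (b (a (l 16657016) (l 16647400)) (a (l 16629096) (l 16619376)))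 (b (a (l 16601432) (l 16591544)) (a (l 16573448) (l 16563032))))) (a (b (a (b (l 16639920) (l 16611704)) (b (l 16635072) (l 16606808))) (b (a (l 16583472) (l 16578096)) (a (l 16554368) (l 6)))) (b (a (b (l 16629360) (l 16604976)) (b (l 16621368) (l 16602440))) (b (a (l 16576128) (l 6)) (l 6)))))) (b (a (b (a (b (a (l 16568872) (l 16556872)) (b (a (l 16548840) (l 16536808)) (a (l 2) (l 16523296)))) (b (a (l 16545088) (l 16534256)) (l 6))) (a (a (l 2) (l 6)) (l 6))) (l 6)) (l 6))), by decide +kernel⟩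

theorem t7_B00pm_001_s3 : ∃ t, chk3 f_B00pm_001_s3 t 3 3 1 = true := ex3_a k5_B00pm_001_s3 k6_B00pm_001_s3

theorem t8_B00pm_001_s3 : ∃ t, chk3 f_B00pm_001_s3 t 7 5 1 = true := ex3_a k3_B00pm_001_s3 k4_B00pm_001_s3

theorem t9_B00pm_001_s3 : ∃ t, chk3 f_B00pm_001_s3 t 7 2 1 = true := ex3_b k2_B00pm_001_s3 t8_B00pm_001_s3

theorem t10_B00pm_001_s3 : ∃ t, chk3 f_B00pm_001_s3 t 3 2 1 = true := ex3_a k1_B00pm_001_s3 t9_B00pm_001_s3

theorem t11_B00pm_001_s3 : ∃ t, chk3 f_B00pm_001_s3 t 3 1 1 = true := ex3_b t10_B00pm_001_s3 t7_B00pm_001_s3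

theorem t12_B00pm_001_s3 : ∃ t, chk3 f_B00pm_001_s3 t 1 1 1 = true := ex3_a k0_B00pm_001_s3 t11_B00pm_001_s3

theorem c_B00pm_001_s3 : CertF 0 536870912 536870912 536870912 697932185 42949674 false true false .up 0 0 1
    ndB0q0 ndB0q1 pcB0 cut_B00pm_001_s3 xt_B00pm_001_s3 :=
  certF0 (fam := false) (s1 := true) (s2 := false) (a := 0) (b := 0) (c := 1) (cn := .up) (n1 := ndB0q0) (n2 := ndB0q1) (pc := pcB0) (cut := cut_B00pm_001_s3) (xt := xt_B00pm_001_s3) (P1 := 0) (W1 := 536870912) (P2 := 536870912) (W2 := 536870912) (P3 := 697932185) (W3 := 42949674)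
    rfl t12_B00pm_001_s3

theorem s_B00pm_001_s3 {κ x : ℝ} (hκ : κ * h0 = ken x) (hx : ((697932185 : ℕ) : ℝ) / S ≤ x)
    (hx' : x ≤ (((697932185 : ℕ) : ℝ) + (42949674 : ℕ)) / S) :
    AltB (VFD κ) PP tK tL pcB [⟨4, 0, 0, 2845415833⟩] 0 0 1 0 0 (sgb true) (sgb false) x :=
  strip_altBD (m := 2845415833) false rfl hκ (SH.κ0 hκ (SH.hx1 hx).le (SH.hx2 hx').le) (SH.hx1 hx).le (SH.hx2 hx') (covB00).cov (covB01).cov hx hx' c_B00pm_001_s3 cutB_nil ((okx6 hx hx').extB (T := tt) (okx hx hx') (sideB hx hx') hκ rfl rfl (.O 0 true) (.O 1 false) (Or.inl rfl))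

noncomputable def cut_B00pm_011_s1 : Cut := Cut.of [[⟨4, 0, 0, 1449551462⟩], [⟨0, 0, 0, 53687091⟩, ⟨1, 1, 0, 53687091⟩, ⟨2, 1, 0, 53687091⟩]]

noncomputable def f_B00pm_011_s1 : ℕ → ℕ → ℕ → ℕ → Bool := onCell 0 536870912 536870912 536870912 697932185 42949674
    (rowF 0 false true false .pnn 0 1 1 (qsf 0 536870912 536870912 536870912 1) ndB0q0 ndB0q1 pcB1 cut_B00pm_011_s1 Ext.none)

def k0_B00pm_011_s1 : ∃ t, chk3 f_B00pm_011_s1 t 1 1 1 = true :=
  ⟨(l 6), by decide +kernel⟩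

theorem c_B00pm_011_s1 : CertF 0 536870912 536870912 536870912 697932185 42949674 false true false .pnn 0 1 1
    ndB0q0 ndB0q1 pcB1 cut_B00pm_011_s1 Ext.none :=
  certF0 (fam := false) (s1 := true) (s2 := false) (a := 0) (b := 1) (c := 1) (cn := .pnn) (n1 := ndB0q0) (n2 := ndB0q1) (pc := pcB1) (cut := cut_B00pm_011_s1) (xt := Ext.none) (P1 := 0) (W1 := 536870912) (P2 := 536870912) (W2 := 536870912) (P3 := 697932185) (W3 := 42949674)
    rfl k0_B00pm_011_s1

theorem s_B00pm_011_s1 {κ x : ℝ} (hκ : κ * h0 = ken x) (hx : ((697932185 : ℕ) : ℝ) / S ≤ x)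
    (hx' : x ≤ (((697932185 : ℕ) : ℝ) + (42949674 : ℕ)) / S)
    (H : CutB (VFD κ) PP tK tL pcB (Cut.of [[⟨0, 0, 0, 53687091⟩, ⟨1, 1, 0, 53687091⟩, ⟨2, 1, 0, 53687091⟩]]) 0 1 1 0 0 (sgb true) (sgb false) x) :
    AltB (VFD κ) PP tK tL pcB [⟨3, 0, 0, 1449551462⟩] 0 1 1 0 0 (sgb true) (sgb false) x :=
  strip_altBD (m := 1449551462) true rfl hκ (SH.κ0 hκ (SH.hx1 hx).le (SH.hx2 hx').le) (SH.hx1 hx).le (SH.hx2 hx') (covB00).cov (covB01).cov hx hx' c_B00pm_011_s1 H (noExt_B)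

noncomputable def cut_B00pm_011_s3 : Cut := Cut.of [[⟨3, 0, 0, 2845415833⟩], [⟨0, 0, 0, 53687091⟩, ⟨1, 1, 0, 53687091⟩, ⟨2, 1, 0, 53687091⟩]]

noncomputable def xt_B00pm_011_s3 : Ext := strExt6 dd false true false .u0 .u0m .s0m .pnn 0 1 1 rfl rfl gl1 vv ww ndB0q0 ndB0q1

noncomputable def f_B00pm_011_s3 : ℕ → ℕ → ℕ → ℕ → Bool := onCell 0 536870912 536870912 536870912 697932185 42949674
    (rowF 0 false true false .pnn 0 1 1 (qsf 0 536870912 536870912 536870912 1) ndB0q0 ndB0q1 pcB1 cut_B00pm_011_s3 xt_B00pm_011_s3)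

def k0_B00pm_011_s3 : ∃ t, chk3 f_B00pm_011_s3 t 1 2 1 = true :=
  ⟨(a (l 4) (a (b (l 1) (l 4)) (l 1))), by decide +kernel⟩

def k1_B00pm_011_s3 : ∃ t, chk3 f_B00pm_011_s3 t 2 6 1 = true :=
  ⟨(b (l 4) (b (l 4) (a (l 4) (a (l 4) (a (b (l 4) (a (l 4) (b (l 4) (a (l 4) (l 1062501903))))) (b (a (l 4) (b (a (l 4) (a (l 4) (l 1062976527))) (l 1062880271))) (a (b (l 1062631951) (l 1062644751)) (b (l 1062864399) (l 1062862351))))))))), by decide +kernel⟩

def k2_B00pm_011_s3 : ∃ t, chk3 f_B00pm_011_s3 t 4 14 1 = true :=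
  ⟨(b (l 4) (a (l 4) (a (l 4) (a (l 4) (b (l 4) (b (l 4) (a (l 1063216143) (l 1063197711)))))))), by decide +kernel⟩

def k3_B00pm_011_s3 : ∃ t, chk3 f_B00pm_011_s3 t 4 30 1 = true :=
  ⟨(a (b (l 4) (a (l 4) (a (l 4) (a (l 4) (a (l 4) (b (l 4) (b (l 4) (l 1062704655)))))))) (a (a (b (l 4) (a (b (l 4) (a (b (l 4) (l 1063861775)) (b (l 1062846479) (l 1062872591)))) (a (b (l 1062891023) (a (l 1063459343) (l 1062963215))) (b (l 1062969871) (a (l 1063003663) (l 1063043599)))))) (b (a (l 4) (b (l 4) (a (l 1063140879) (l 1063212559)))) (a (a (b (l 1063047695) (a (l 1064157199) (l 1063660047))) (b (l 1063124495) (a (l 1063162383) (l 1063199759)))) (a (b (l 1063199759) (l 1063256079)) (b (l 1063273999) (l 1063332367)))))) (b (a (a (a (l 1063247375) (l 1063315983)) (a (l 1063382543) (l 1063446031))) (a (a (l 1063492111) (l 1063519759)) (l 1064058383))) (a (a (b (l 1063378447) (c (l 1063568911) (l 1063313935))) (b (l 1063520783)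 (l 1063587855))) (a (a (l 1063661583) (l 1063730191)) (a (l 1063797263) (b (l 1063821327) (l 16727936)))))))), by decide +kernel⟩

def k4_B00pm_011_s3 : ∃ t, chk3 f_B00pm_011_s3 t 8 62 1 = true :=
  ⟨(a (b (l 4) (b (l 4) (b (l 4) (l 14)))) (b (b (a (l 4) (a (a (l 4) (l 1062594575)) (a (l 1062669327) (l 1062749199)))) (a (a (l 4) (a (l 4) (l 1062511631))) (a (a (l 1062573071) (l 1062640143)) (a (l 1062712847) (l 1062790159))))) (b (a (a (a (l 4) (a (l 4) (l 1062481935))) (a (a (l 1062504463) (l 1062528015)) (l 1062560271))) (a (a (l 1062618639) (l 1062682639)) (a (l 1062752271) (l 1062827535)))) (a (a (a (a (l 1063021071) (l 1062499343)) (a (l 1062515727) (l 1062534159))) (a (a (l 1062554639) (l 1062576655)) (l 1063679503))) (b (a (a (l 1062651919) (l 1062713359)) (a (l 16754208) (l 16749008))) (a (a (l 1062672399) (l 16754352)) (a (l 16743864) (l 16749144)))))))), by decide +kernel⟩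

def k5_B00pm_011_s3 : ∃ t, chk3 f_B00pm_011_s3 t 8 63 1 = true :=
  ⟨(a (l 14) (b (a (b (a (a (a (l 14) (l 1062553103)) (a (l 1062567439) (l 1062583823))) (a (a (l 1062601743) (l 1062621711)) (a (l 1062643215) (b (l 16753248) (l 16748024))))) (a (a (l 14) (a (l 14) (b (l 16758792) (l 14)))) (b (a (b (l 16756040) (a (l 16754768) (l 16757432))) (b (a (l 16746776) (l 16744216)) (l 16742944))) (a (l 16744384) (l 16739128))))) (b (a (b (a (l 16754488) (l 16749168)) (a (b (l 16745328) (a (l 16744064) (l 16741528))) (a (b (l 16741384) (l 16738888)) (l 16748160)))) (b (a (b (l 16740000) (a (l 16738744) (l 16736256))) (a (b (l 16736144) (l 16733688)) (l 16743000))) (c (l 16731936) (l 16730552)))) (a (c (b (l 16742280) (l 16732064)) (a (l 16735856) (l 16730656))) (a (l 16736768) (l 16721304))))) (a (a (l 14) (a (b (b (l 16739248) (l 14)) (l 14)) (b (b (l 16734016) (l 16739368)) (l 16721152)))) (a (b (b (c (l 16737504) (l 16725504))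 (c (l 16732576) (l 16720472))) (l 16724032)) (b (b (a (l 16718696) (l 16713792)) (l 16711248)) (l 16703672)))))), by decide +kernel⟩

def k6_B00pm_011_s3 : ∃ t, chk3 f_B00pm_011_s3 t 9 62 1 = true :=
  ⟨(a (b (a (a (a (c (l 1063012367) (l 1062691343)) (a (l 1062920719) (l 1062958095))) (a (a (l 1062996495) (l 1063035919)) (a (l 1063074319) (l 1063112719)))) (a (c (a (l 1063317519) (l 1063392271)) (a (l 1063024655) (l 1063106063))) (a (l 1063326223) (a (l 1063385615) (b (l 16729464) (l 16720096)))))) (a (b (a (a (l 1062907407) (l 1062990351)) (a (l 1063070735) (b (l 16733528) (l 16728608)))) (a (a (b (l 16738656) (b (l 16734848) (a (l 16733600) (l 16731184)))) (b (l 16733576) (a (b (l 16731096) (l 16728680)) (l 16738024)))) (b (c (a (b (l 16730552) (l 16738656)) (b (l 16736240) (l 16723376))) (a (l 16738384) (l 16744104))) (l 16721400)))) (a (a (b (b (l 16728616) (c (b (l 16725696) (l 16733848)) (l 16733464))) (l 16716632))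 (b (b (l 16723728) (b (l 16730688) (l 16717824))) (l 16711920))) (b (b (a (b (l 16720144) (l 16728312)) (a (l 16726000) (l 16713200))) (l 16711960)) (l 16715432))))) (b (a (a (b (l 1063494159) (a (b (l 16718936) (a (l 16715392) (l 16723600))) (b (l 16714224) (l 16720224)))) (a (b (l 16716488) (b (l 16720104) (l 16705096))) (b (l 16711824) (l 16718696)))) (a (b (c (a (l 16729016) (l 16724608)) (l 16725128)) (l 16696104)) (a (b (l 16719400) (l 16689464)) (l 16710648)))) (b (a (a (l 16726024) (l 16696000)) (l 16703720)) (a (a (l 16695824) (l 16686888)) (l 16694776))))), by decide +kernel⟩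

def k7_B00pm_011_s3 : ∃ t, chk3 f_B00pm_011_s3 t 9 63 1 = true :=
  ⟨(a (b (a (b (a (a (l 16736736) (l 16721384)) (c (l 16725560) (l 16713288))) (a (c (l 16725384) (l 16713080)) (b (l 16706904) (l 16712456)))) (a (b (l 16715240) (b (l 16697568) (l 16713744))) (b (l 16695544) (a (l 16698800) (l 16683864))))) (b (a (a (a (a (l 16728736) (l 16705368)) (l 16701808)) (l 16715736)) (l 16702008)) (a (c (l 16706384) (l 16688240)) (l 16692336)))) (b (b (a (a (l 16686536) (l 16677680)) (c (l 16687088) (l 16663448))) (a (a (l 16698248) (l 16668616)) (l 16655872))) (a (c (l 16681336) (l 16657376)) (l 16642288)))), by decide +kernel⟩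

def k8_B00pm_011_s3 : ∃ t, chk3 f_B00pm_011_s3 t 10 14 1 = true :=
  ⟨(a (b (l 4) (a (b (l 4) (a (b (a (l 1062983183) (l 1062993935)) (a (l 1063198735) (l 1063214095))) (b (l 1063011855) (l 1063221775)))) (b (b (a (l 4) (l 1062677007)) (a (l 1062836239) (l 1062888975))) (b (a (l 1063050767) (l 1063099407)) (a (l 1063256079) (l 1063300623)))))) (b (b (l 4) (b (a (l 4) (a (b (l 4) (l 1062449679)) (b (b (l 4) (l 1062394383)) (l 1062486031)))) (a (a (l 4) (l 1062573071)) (a (l 1062622735) (l 1062665231))))) (b (a (b (a (l 1062734863) (l 1062792719)) (a (l 1062946831) (l 1063005711))) (b (a (l 1062847503) (l 1062897167)) (a (l 1063064591) (l 1063120399)))) (a (b (a (l 1063154703) (l 1063214095)) (a (l 1063353359) (l 1063412751))) (b (a (l 1063275023) (l 1063335439)) (l 1064038927)))))), by decide +kernel⟩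

def k9_B00pm_011_s3 : ∃ t, chk3 f_B00pm_011_s3 t 11 28 1 = true :=
  ⟨(a (b (a (a (a (a (l 4) (a (l 4) (a (l 4) (l 1062281231)))) (b (l 4) (l 1062330383))) (b (l 4) (l 1062399503))) (b (a (l 1062446095) (b (l 1062525967) (l 1062545423))) (a (l 1062490639) (b (a (l 1062546959) (l 1062590991)) (l 1062593039))))) (a (b (b (a (a (a (l 1062378511) (b (a (l 1062349839) (b (l 1062332943) (l 1062370319))) (l 1062414351))) (b (b (a (l 1062350863) (l 1062371855)) (a (l 1062373391) (l 1062390287))) (a (l 1062419983) (l 1062431247)))) (b (l 1062704143) (a (l 1062454799) (l 1062493199)))) (a (a (l 1062507023) (a (b (l 1062483983) (l 1062547471)) (l 1062523919))) (a (b (l 1062509583) (l 1062569487)) (l 1062566927)))) (a (a (l 1062692367) (b (l 1062645263) (l 1062768655))) (b (a (l 1062662671) (l 1062682639)) (a (l 1062786063) (l 1062805519))))) (b (b (a (b (l 1062525455) (l 1062554127)) (b (l 1062614543) (l 1062639631))) (a (a (l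 1062600719) (l 1062637071)) (a (l 1062674959) (l 1062714383)))) (a (b (a (l 1062708239) (l 1062737935)) (l 1062836751)) (b (l 1062786063) (l 1062891535)))))) (b (a (b (a (l 1062626319) (l 1062721551)) (a (b (l 1062656527) (l 1062681103)) (l 1062758927))) (b (a (l 1062822927) (l 1062931471)) (a (l 1062854159) (l 1062955535)))) (a (b (a (b (a (l 1062691855) (l 1062735375)) (a (l 1062754319) (l 1062795279))) (b (l 1062799887) (l 1062855695))) (a (b (l 1062857231) (l 1062953999)) (b (l 1062931983) (l 1063022095)))) (b (a (b (l 1062890511) (l 1062940175)) (b (l 1062986767) (l 1063030287))) (a (b (l 1063009807) (l 1063093775)) (b (l 1063093263) (l 1063170063))))))), by decide +kernel⟩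

def k10_B00pm_011_s3 : ∃ t, chk3 f_B00pm_011_s3 t 11 29 1 = true :=
  ⟨(a (a (b (b (a (a (l 1062930959) (l 1062949903)) (b (l 1062917135) (l 1063037455))) (a (l 1063170575) (l 1063214095))) (b (a (l 1063391759) (l 1063441935)) (a (l 16696960) (l 16676632)))) (b (b (a (b (l 1062956559) (l 1063077391)) (b (l 1063004175) (l 1063120399))) (a (l 1063255567) (b (l 1063238159) (l 16683096)))) (b (a (l 1063486479) (l 1063529487)) (a (l 16666784) (l 16656952))))) (b (a (b (a (b (l 1063059471) (l 1063170575)) (b (l 1063121423) (l 1063226383))) (a (l 1063341583) (l 1063391759))) (a (b (b (l 1063187471) (l 1063287823)) (l 1063446031)) (b (b (l 1063257103) (l 16662616)) (l 1063504399)))) (a (b (a (l 1063572495) (l 1063617039)) (a (l 16647144) (l 16637376))) (b (a (l 16652272) (l 16631968)) (a (l 16627672) (l 16618016)))))), by decide +kernel⟩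

def k11_B00pm_011_s3 : ∃ t, chk3 f_B00pm_011_s3 t 5 15 1 = true :=
  ⟨(a (b (a (b (a (a (b (l 1063393295) (l 1063627791)) (b (l 1063411727) (l 1063615503))) (a (b (l 1063439375) (l 1063628303)) (b (l 1063479823) (l 1063660559)))) (b (a (a (l 1063847951) (l 1063839759)) (a (l 16717928) (b (l 16691072) (l 16683000)))) (b (a (a (l 16704632) (l 16695064)) (a (l 16685008) (l 16675288))) (a (a (l 16716952) (l 16708120)) (l 16672280))))) (b (a (a (l 1064153103) (l 1063673359)) (b (l 1063681551) (a (l 16674136) (l 16675128)))) (b (b (a (a (l 16681296) (l 16671640)) (a (l 16662264) (l 16653224))) (a (a (l 16673296) (l 16663976)) (l 16650120))) (a (l 16667504) (l 16638912))))) (a (b (a (b (a (l 16682952) (l 16674352)) (l 16682272)) (b (a (l 16686360) (l 16655904)) (a (l 16649000) (c (l 16683712) (l 16660176))))) (b (a (b (l 16648336) (l 16639624)) (l 16649448)) (a (l 16626456) (l 16611504)))) (a (b (b (l 16641904) (b (l 16630768)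 (l 16623416))) (b (l 16612368) (l 16597072))) (b (b (l 16624224) (l 16630816)) (l 16609656))))) (b (b (b (a (a (a (l 16670896) (l 16661352)) (a (l 16651800) (l 16642192))) (a (a (b (l 16636320) (l 16629144)) (b (l 16626720) (l 16619800))) (a (b (l 16617232) (l 16610384)) (l 16604456)))) (a (a (a (b (l 16659280) (l 16651584)) (b (l 16649904) (l 16642584))) (a (b (l 16640640) (l 16633416)) (l 16638432))) (a (l 16614040) (l 16595632)))) (a (a (b (l 16636024) (l 16621568)) (b (l 16618272) (l 16604352))) (a (b (l 16600392) (l 16586984)) (b (l 16582440) (l 16569496))))) (a (b (b (a (l 16607408) (l 16590744)) (a (l 16593664) (l 16577616))) (a (l 16594216) (l 16573760))) (b (b (a (l 16584320) (c (l 16558448) (l 16555312))) (a (l 16561272) (l 16544744))) (a (l 16558288) (l 16547792)))))), by decide +kernel⟩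

def k12_B00pm_011_s3 : ∃ t, chk3 f_B00pm_011_s3 t 3 6 1 = true :=
  ⟨(a (b (a (a (l 4) (b (l 4) (a (l 4) (b (l 4) (b (l 4) (a (b (l 4) (l 1061990927)) (a (b (l 4) (l 1061885455)) (l 1062474767)))))))) (a (b (l 1) (b (l 1) (a (b (l 1) (l 1062311951)) (l 1)))) (l 1))) (a (b (a (a (b (l 4) (l 1062771215)) (l 1062573071)) (a (l 1062499343) (a (l 1062422543) (b (a (l 1062180367) (l 1063745039)) (l 1062553615))))) (a (b (a (b (a (l 1063001103) (l 1062996495)) (a (b (l 1063080463) (l 1064183311)) (l 1063095311))) (b (l 1062978063) (l 1063110159))) (a (a (a (l 1063020559) (a (l 1063062031) (l 1063084559))) (b (l 1063127567) (l 1063130127))) (b (l 1063170575) (a (l 1063185423) (l 1063220239))))) (b (a (l 1063546383) (l 1063481359)) (a (b (l 1063180815) (l 1063245839)) (l 1063736335))))) (b (a (b (a (b (b (l 1063367183) (l 1063383567)) (a (l 1062300687) (l 1062482959))) (b (l 1) (l 1062886415))) (a (a (l 1062551567) (l 1062654991))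 (b (l 1062926351) (l 16699744)))) (a (b (l 1) (l 34393139639)) (l 1))) (a (b (a (a (l 1062912015) (l 16692512)) (l 1062621711)) (a (c (l 1064324623) (l 1064226831)) (l 16637752))) (a (b (l 16639792) (l 16652264)) (b (l 16668520) (l 16596928))))))) (b (l 1) (b (l 1) (a (a (a (b (l 1) (l 16585240)) (l 1)) (l 1)) (l 1))))), by decide +kernel⟩

def k13_B00pm_011_s3 : ∃ t, chk3 f_B00pm_011_s3 t 12 14 1 = true :=
  ⟨(b (a (b (a (b (a (l 1063044623) (l 1063135759)) (a (b (l 1063055887) (l 1063068175)) (l 1063689231))) (b (a (l 1063203343) (l 1063251983)) (a (l 1063225359) (l 1063283727)))) (a (a (b (b (l 1063087119) (l 1063125519)) (b (l 1063181839) (l 1063251471))) (b (b (l 1063176207) (l 1063211535)) (a (l 1063275535) (l 1063312911)))) (a (b (b (l 1063250959) (l 1063285263)) (c (l 1063463951) (l 1063265295))) (b (c (l 1063426063) (l 1063230991)) (c (l 1063522831) (l 16634920)))))) (b (a (b (l 1063296015) (a (l 1063328271)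 (l 16657504))) (b (l 1063319567) (l 1063388175))) (a (b (a (l 1063380495) (l 1063420431)) (a (l 1063478799) (l 16626368))) (a (b (l 16620696) (l 16605536)) (b (l 16610024) (l 16595064)))))) (a (a (b (b (a (b (l 16660136) (l 16647384)) (b (l 16644920) (l 16637472))) (a (l 1063565839) (l 16637064))) (b (a (l 16622248) (l 16612568)) (a (b (l 16611920) (l 16605128)) (b (l 16602376) (l 16595712))))) (a (b (b (b (l 16634952) (l 16627568)) (l 16616768)) (b (l 16602904) (b (l 16592840) (l 16586240)))) (b (b (l 16631768) (l 16606960)) (b (l 16593240) (l 16580032))))) (b (a (b (a (l 16621776) (l 16601232)) (a (l 16597120) (l 16587224))) (a (b (l 16591072) (l 16577240)) (b (l 16580792) (l 16567184)))) (a (b (a (l 16604536) (l 16594808)) (l 16565760)) (b (a (l 16585000) (l 16554144)) (l 16546544)))))), by decide +kernel⟩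

def k14_B00pm_011_s3 : ∃ t, chk3 f_B00pm_011_s3 t 13 14 1 = true :=
  ⟨(a (b (b (a (b (l 16656152) (l 1063428623)) (a (l 16602008) (l 16592728))) (a (b (c (l 1063581711) (l 16593016)) (a (l 16584624) (l 16574536))) (b (l 16574736) (l 16560256)))) (b (a (a (b (l 16570544) (l 16557136)) (b (l 16560608) (l 16547328))) (b (l 16567536) (l 16554296))) (a (c (l 16555944) (l 16552672)) (l 16535944)))) (b (b (a (l 16622144) (l 16566536)) (a (l 16571480) (l 16536672))) (b (a (b (l 16529584) (l 16516592)) (l 16508680)) (a (l 16498352) (l 6))))), by decide +kernel⟩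

def k15_B00pm_011_s3 : ∃ t, chk3 f_B00pm_011_s3 t 6 15 1 = true :=
  ⟨(a (b (a (b (a (b (l 16590408) (l 16577336)) (a (l 16591008) (l 16581808))) (a (b (l 16564544) (l 16552032)) (b (l 16546800) (l 16534720)))) (b (a (b (l 16553184) (l 16540952)) (l 16549416)) (a (b (l 16529056) (l 16517472)) (b (l 16511168) (l 6))))) (a (b (a (b (l 16560864) (l 16528176)) (b (l 16523072) (l 6))) (a (l 16531920) (l 6))) (b (l 6) (l 6)))) (a (b (b (a (l 16530848) (l 16492104)) (l 6)) (l 6)) (l 6))), by decide +kernel⟩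

def k16_B00pm_011_s3 : ∃ t, chk3 f_B00pm_011_s3 t 7 7 1 = true :=
  ⟨(b (a (b (a (b (l 58015281527) (a (l 16524416) (l 16512048))) (b (l 1) (l 6))) (a (b (l 16490192) (l 6)) (l 6))) (l 6)) (l 6)), by decide +kernel⟩

theorem t17_B00pm_011_s3 : ∃ t, chk3 f_B00pm_011_s3 t 6 14 1 = true := ex3_a k13_B00pm_011_s3 k14_B00pm_011_s3

theorem t18_B00pm_011_s3 : ∃ t, chk3 f_B00pm_011_s3 t 6 7 1 = true := ex3_b t17_B00pm_011_s3 k15_B00pm_011_s3

theorem t19_B00pm_011_s3 : ∃ t, chk3 f_B00pm_011_s3 t 3 7 1 = true := ex3_a t18_B00pm_011_s3 k16_B00pm_011_s3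

theorem t20_B00pm_011_s3 : ∃ t, chk3 f_B00pm_011_s3 t 3 3 1 = true := ex3_b k12_B00pm_011_s3 t19_B00pm_011_s3

theorem t21_B00pm_011_s3 : ∃ t, chk3 f_B00pm_011_s3 t 11 14 1 = true := ex3_b k9_B00pm_011_s3 k10_B00pm_011_s3

theorem t22_B00pm_011_s3 : ∃ t, chk3 f_B00pm_011_s3 t 5 14 1 = true := ex3_a k8_B00pm_011_s3 t21_B00pm_011_s3

theorem t23_B00pm_011_s3 : ∃ t, chk3 f_B00pm_011_s3 t 5 7 1 = true := ex3_b t22_B00pm_011_s3 k11_B00pm_011_s3

theorem t24_B00pm_011_s3 : ∃ t, chk3 f_B00pm_011_s3 t 9 31 1 = true := ex3_b k6_B00pm_011_s3 k7_B00pm_011_s3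

theorem t25_B00pm_011_s3 : ∃ t, chk3 f_B00pm_011_s3 t 8 31 1 = true := ex3_b k4_B00pm_011_s3 k5_B00pm_011_s3

theorem t26_B00pm_011_s3 : ∃ t, chk3 f_B00pm_011_s3 t 4 31 1 = true := ex3_a t25_B00pm_011_s3 t24_B00pm_011_s3

theorem t27_B00pm_011_s3 : ∃ t, chk3 f_B00pm_011_s3 t 4 15 1 = true := ex3_b k3_B00pm_011_s3 t26_B00pm_011_s3

theorem t28_B00pm_011_s3 : ∃ t, chk3 f_B00pm_011_s3 t 4 7 1 = true := ex3_b k2_B00pm_011_s3 t27_B00pm_011_s3

theorem t29_B00pm_011_s3 : ∃ t, chk3 f_B00pm_011_s3 t 2 7 1 = true := ex3_a t28_B00pm_011_s3 t23_B00pm_011_s3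

theorem t30_B00pm_011_s3 : ∃ t, chk3 f_B00pm_011_s3 t 2 3 1 = true := ex3_b k1_B00pm_011_s3 t29_B00pm_011_s3

theorem t31_B00pm_011_s3 : ∃ t, chk3 f_B00pm_011_s3 t 1 3 1 = true := ex3_a t30_B00pm_011_s3 t20_B00pm_011_s3

theorem t32_B00pm_011_s3 : ∃ t, chk3 f_B00pm_011_s3 t 1 1 1 = true := ex3_b k0_B00pm_011_s3 t31_B00pm_011_s3

theorem c_B00pm_011_s3 : CertF 0 536870912 536870912 536870912 697932185 42949674 false true false .pnn 0 1 1
    ndB0q0 ndB0q1 pcB1 cut_B00pm_011_s3 xt_B00pm_011_s3 :=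
  certF0 (fam := false) (s1 := true) (s2 := false) (a := 0) (b := 1) (c := 1) (cn := .pnn) (n1 := ndB0q0) (n2 := ndB0q1) (pc := pcB1) (cut := cut_B00pm_011_s3) (xt := xt_B00pm_011_s3) (P1 := 0) (W1 := 536870912) (P2 := 536870912) (W2 := 536870912) (P3 := 697932185) (W3 := 42949674)
    rfl t32_B00pm_011_s3

theorem s_B00pm_011_s3 {κ x : ℝ} (hκ : κ * h0 = ken x) (hx : ((697932185 : ℕ) : ℝ) / S ≤ x)
    (hx' : x ≤ (((697932185 : ℕ) : ℝ) + (42949674 : ℕ)) / S)
    (H : CutB (VFD κ) PP tK tL pcB (Cut.of [[⟨0, 0, 0, 53687091⟩, ⟨1, 1, 0, 53687091⟩, ⟨2, 1, 0, 53687091⟩]]) 0 1 1 0 0 (sgb true) (sgb false) x) :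
    AltB (VFD κ) PP tK tL pcB [⟨4, 0, 0, 2845415833⟩] 0 1 1 0 0 (sgb true) (sgb false) x :=
  strip_altBD (m := 2845415833) false rfl hκ (SH.κ0 hκ (SH.hx1 hx).le (SH.hx2 hx').le) (SH.hx1 hx).le (SH.hx2 hx') (covB00).cov (covB01).cov hx hx' c_B00pm_011_s3 H ((okx6 hx hx').extB (T := tt) (okx hx hx') (sideB hx hx') hκ rfl rfl (.O 0 true) (.O 1 false) (Or.inr rfl))

noncomputable def cut_B00pm_012_s1 : Cut := Cut.of [[⟨4, 0, 0, 1449551462⟩], [⟨0, 0, 0, 53687091⟩, ⟨1, 1, 0, 53687091⟩, ⟨2, 1, 0, 53687091⟩]]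

noncomputable def f_B00pm_012_s1 : ℕ → ℕ → ℕ → ℕ → Bool := onCell 0 536870912 0 536870912 697932185 42949674
    (rowF 0 false true false .pnp 0 1 2 (qsf 0 536870912 0 536870912 1) ndB0q0 ndB0q2 pcB1 cut_B00pm_012_s1 Ext.none)

def k0_B00pm_012_s1 : ∃ t, chk3 f_B00pm_012_s1 t 1 1 1 = true :=
  ⟨(a (l 6) (b (a (b (a (l 6) (b (a (l 6) (b (a (l 6) (l 6)) (l 6))) (l 6))) (l 6)) (b (b (a (a (b (a (b (l 16611760) (l 6)) (l 16621032)) (l 6)) (b (l 16642200) (a (b (l 16620064) (l 6)) (l 16628328)))) (a (b (l 16710488) (l 16689968)) (a (b (l 16687568) (l 16666520)) (b (l 16700096) (l 16678728))))) (a (l 6) (a (b (b (a (l 16626976) (l 16639072)) (a (l 6) (l 16629336))) (l 6)) (b (a (l 16645576) (l 16657776)) (b (a (l 16630632) (l 16641272)) (a (l 6) (l 16631160))))))) (l 6))) (l 6))), by decide +kernel⟩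

theorem c_B00pm_012_s1 : CertF 0 536870912 0 536870912 697932185 42949674 false true false .pnp 0 1 2
    ndB0q0 ndB0q2 pcB1 cut_B00pm_012_s1 Ext.none :=
  certF0 (fam := false) (s1 := true) (s2 := false) (a := 0) (b := 1) (c := 2) (cn := .pnp) (n1 := ndB0q0) (n2 := ndB0q2) (pc := pcB1) (cut := cut_B00pm_012_s1) (xt := Ext.none) (P1 := 0) (W1 := 536870912) (P2 := 0) (W2 := 536870912) (P3 := 697932185) (W3 := 42949674)
    rfl k0_B00pm_012_s1

theorem s_B00pm_012_s1 {κ x : ℝ} (hκ : κ * h0 = ken x) (hx : ((697932185 : ℕ) : ℝ) / S ≤ x)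
    (hx' : x ≤ (((697932185 : ℕ) : ℝ) + (42949674 : ℕ)) / S)
    (H : CutB (VFD κ) PP tK tL pcB (Cut.of [[⟨0, 0, 0, 53687091⟩, ⟨1, 1, 0, 53687091⟩, ⟨2, 1, 0, 53687091⟩]]) 0 1 2 0 0 (sgb true) (sgb false) x) :
    AltB (VFD κ) PP tK tL pcB [⟨3, 0, 0, 1449551462⟩] 0 1 2 0 0 (sgb true) (sgb false) x :=
  strip_altBD (m := 1449551462) true rfl hκ (SH.κ0 hκ (SH.hx1 hx).le (SH.hx2 hx').le) (SH.hx1 hx).le (SH.hx2 hx') (covB00).cov (covB02).cov hx hx' c_B00pm_012_s1 H (noExt_B)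

noncomputable def cut_B00pm_012_s3 : Cut := Cut.of [[⟨3, 0, 0, 2845415833⟩], [⟨0, 0, 0, 53687091⟩, ⟨1, 1, 0, 53687091⟩, ⟨2, 1, 0, 53687091⟩]]

noncomputable def f_B00pm_012_s3 : ℕ → ℕ → ℕ → ℕ → Bool := onCell 0 536870912 0 536870912 697932185 42949674
    (rowF 0 false true false .pnp 0 1 2 (qsf 0 536870912 0 536870912 1) ndB0q0 ndB0q2 pcB1 cut_B00pm_012_s3 Ext.none)

def k0_B00pm_012_s3 : ∃ t, chk3 f_B00pm_012_s3 t 1 1 1 = true :=
  ⟨(a (b (l 6) (a (b (a (l 2) (a (b (l 2) (b (l 6) (l 6))) (l 6))) (b (a (a (l 2) (b (a (l 2) (b (l 2) (b (l 16551480) (l 16561216)))) (a (b (l 2) (l 14)) (b (a (l 16619016) (l 16615744)) (l 16637200))))) (b (a (b (a (l 16532112) (l 16568136)) (a (l 16549912) (l 16584872))) (b (l 6) (l 16572952))) (a (b (a (l 16610264) (l 16602328)) (l 16645432)) (b (l 16588584) (l 16600976))))) (a (a (l 14) (a (l 14) (b (b (l 16657800) (l 16673224)) (b (b (l 16682392) (l 16688544)) (b (l 16694624) (b (l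 16699080) (l 16712480))))))) (b (a (b (l 16658616) (b (l 16645520) (l 16650944))) (a (l 16620968) (l 16607192))) (b (a (a (b (l 16664896) (l 16670608)) (l 16651112)) (a (l 16635280) (l 16620240))) (a (b (a (l 16676256) (l 16658944)) (a (b (l 16680392) (l 16683096)) (l 16664016))) (b (l 16676472) (a (l 16647128) (l 16631040))))))))) (b (l 6) (b (a (b (l 6) (a (l 16574064) (l 6))) (l 6)) (a (b (a (b (l 16584296) (l 16591536)) (l 16565472)) (a (b (l 16599144) (a (l 16613832) (l 16599608))) (b (l 16574088) (a (l 16586360) (l 16572808))))) (b (l 6) (a (b (l 16548856) (a (l 16558560) (l 16544288))) (a (b (l 6) (l 16529744)) (l 6))))))))) (b (l 6) (a (l 6) (l 6)))), by decide +kernel⟩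

theorem c_B00pm_012_s3 : CertF 0 536870912 0 536870912 697932185 42949674 false true false .pnp 0 1 2
    ndB0q0 ndB0q2 pcB1 cut_B00pm_012_s3 Ext.none :=
  certF0 (fam := false) (s1 := true) (s2 := false) (a := 0) (b := 1) (c := 2) (cn := .pnp) (n1 := ndB0q0) (n2 := ndB0q2) (pc := pcB1) (cut := cut_B00pm_012_s3) (xt := Ext.none) (P1 := 0) (W1 := 536870912) (P2 := 0) (W2 := 536870912) (P3 := 697932185) (W3 := 42949674)
    rfl k0_B00pm_012_s3

theorem s_B00pm_012_s3 {κ x : ℝ} (hκ : κ * h0 = ken x) (hx : ((697932185 : ℕ) : ℝ) / S ≤ x)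
    (hx' : x ≤ (((697932185 : ℕ) : ℝ) + (42949674 : ℕ)) / S)
    (H : CutB (VFD κ) PP tK tL pcB (Cut.of [[⟨0, 0, 0, 53687091⟩, ⟨1, 1, 0, 53687091⟩, ⟨2, 1, 0, 53687091⟩]]) 0 1 2 0 0 (sgb true) (sgb false) x) :
    AltB (VFD κ) PP tK tL pcB [⟨4, 0, 0, 2845415833⟩] 0 1 2 0 0 (sgb true) (sgb false) x :=
  strip_altBD (m := 2845415833) false rfl hκ (SH.κ0 hκ (SH.hx1 hx).le (SH.hx2 hx').le) (SH.hx1 hx).le (SH.hx2 hx') (covB00).cov (covB02).cov hx hx' c_B00pm_012_s3 H (noExt_B)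

noncomputable def cut_B00pm_022_s1 : Cut := Cut.of [[⟨4, 0, 0, 1449551462⟩], [⟨0, 0, 0, 67108864⟩, ⟨1, 1, 0, 67108864⟩, ⟨2, 1, 0, 67108864⟩]]

noncomputable def f_B00pm_022_s1 : ℕ → ℕ → ℕ → ℕ → Bool := onCell 1073741824 536870912 0 536870912 697932185 42949674
    (rowF 2 false true false .pp 0 2 2 (qsf 0 536870912 0 536870912 2) ndB0q0 ndB0q2 pcB2 cut_B00pm_022_s1 Ext.none)

def k0_B00pm_022_s1 : ∃ t, chk3 f_B00pm_022_s1 t 1 1 1 = true :=
  ⟨(l 6), by decide +kernel⟩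

theorem c_B00pm_022_s1 : CertF 0 536870912 0 536870912 697932185 42949674 false true false .pp 0 2 2
    ndB0q0 ndB0q2 pcB2 cut_B00pm_022_s1 Ext.none :=
  certF2 (fam := false) (s1 := true) (s2 := false) (a := 0) (b := 2) (c := 2) (cn := .pp) (n1 := ndB0q0) (n2 := ndB0q2) (pc := pcB2) (cut := cut_B00pm_022_s1) (xt := Ext.none) (P1 := 0) (W1 := 536870912) (P2 := 0) (W2 := 536870912) (P3 := 697932185) (W3 := 42949674)
    rfl (fun _ => rfl) k0_B00pm_022_s1

theorem s_B00pm_022_s1 {κ x : ℝ} (hκ : κ * h0 = ken x) (hx : ((697932185 : ℕ) : ℝ) / S ≤ x)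
    (hx' : x ≤ (((697932185 : ℕ) : ℝ) + (42949674 : ℕ)) / S)
    (H : CutB (VFD κ) PP tK tL pcB (Cut.of [[⟨0, 0, 0, 67108864⟩, ⟨1, 1, 0, 67108864⟩, ⟨2, 1, 0, 67108864⟩]]) 0 2 2 0 0 (sgb true) (sgb false) x) :
    AltB (VFD κ) PP tK tL pcB [⟨3, 0, 0, 1449551462⟩] 0 2 2 0 0 (sgb true) (sgb false) x :=
  strip_altBD (m := 1449551462) true rfl hκ (SH.κ0 hκ (SH.hx1 hx).le (SH.hx2 hx').le) (SH.hx1 hx).le (SH.hx2 hx') (covB00).cov (covB02).cov hx hx' c_B00pm_022_s1 H (noExt_B)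

noncomputable def cut_B00pm_022_s3 : Cut := Cut.of [[⟨3, 0, 0, 2845415833⟩], [⟨0, 0, 0, 67108864⟩, ⟨1, 1, 0, 67108864⟩, ⟨2, 1, 0, 67108864⟩]]

noncomputable def f_B00pm_022_s3 : ℕ → ℕ → ℕ → ℕ → Bool := onCell 0 536870912 0 536870912 697932185 42949674
    (rowF 0 false true false .pp 0 2 2 (qsf 0 536870912 0 536870912 2) ndB0q0 ndB0q2 pcB2 cut_B00pm_022_s3 Ext.none)

def k0_B00pm_022_s3 : ∃ t, chk3 f_B00pm_022_s3 t 1 1 1 = true :=
  ⟨(a (b (l 6) (a (b (b (l 6) (a (a (b (a (a (b (a (b (l 6) (l 16572096)) (l 6)) (a (b (l 16577096) (l 16582168)) (b (l 16577928) (l 16582960)))) (b (l 6) (a (l 16586360) (l 16581616)))) (b (l 6) (a (l 16582104) (l 6)))) (a (a (a (b (b (l 16587328) (l 16592720)) (b (l 16598560) (l 16604888))) (b (b (l 16588080) (l 16593432)) (b (l 16599232) (l 16605504)))) (b (a (l 16591320) (l 16591736)) (a (l 16602824) (l 16603144)))) (a (b (l 16592096) (l 16582408)) (b (l 16592152) (l 16603264))))) (b (l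 6) (b (a (a (l 16587192) (l 16578624)) (l 6)) (a (l 16596832) (a (l 16582672) (l 16572952)))))) (b (l 6) (a (l 6) (l 1))))) (a (b (b (a (a (a (a (b (b (l 16611688) (l 16618976)) (b (l 16626744) (l 14))) (b (b (l 16612264) (l 16619504)) (b (l 16627232) (l 14)))) (b (a (l 16616256) (l 16616488)) (a (l 16631616) (l 16631768)))) (b (a (l 16616592) (l 16616296)) (a (b (l 16627728) (l 14)) (l 16631272)))) (a (b (l 16610096) (l 16622720)) (b (l 16589440) (a (l 16606024) (l 16594512))))) (a (l 14) (a (l 14) (a (l 14) (a (l 14) (l 1)))))) (a (l 14) (a (l 14) (l 1)))) (b (a (b (a (b (l 16599080) (l 16618488)) (l 1)) (l 1)) (l 1)) (l 1)))) (b (l 1) (l 1)))) (l 1)), by decide +kernel⟩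

theorem c_B00pm_022_s3 : CertF 0 536870912 0 536870912 697932185 42949674 false true false .pp 0 2 2
    ndB0q0 ndB0q2 pcB2 cut_B00pm_022_s3 Ext.none :=
  certF0 (fam := false) (s1 := true) (s2 := false) (a := 0) (b := 2) (c := 2) (cn := .pp) (n1 := ndB0q0) (n2 := ndB0q2) (pc := pcB2) (cut := cut_B00pm_022_s3) (xt := Ext.none) (P1 := 0) (W1 := 536870912) (P2 := 0) (W2 := 536870912) (P3 := 697932185) (W3 := 42949674)
    rfl k0_B00pm_022_s3

theorem s_B00pm_022_s3 {κ x : ℝ} (hκ : κ * h0 = ken x) (hx : ((697932185 : ℕ) : ℝ) / S ≤ x)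
    (hx' : x ≤ (((697932185 : ℕ) : ℝ) + (42949674 : ℕ)) / S)
    (H : CutB (VFD κ) PP tK tL pcB (Cut.of [[⟨0, 0, 0, 67108864⟩, ⟨1, 1, 0, 67108864⟩, ⟨2, 1, 0, 67108864⟩]]) 0 2 2 0 0 (sgb true) (sgb false) x) :
    AltB (VFD κ) PP tK tL pcB [⟨4, 0, 0, 2845415833⟩] 0 2 2 0 0 (sgb true) (sgb false) x :=
  strip_altBD (m := 2845415833) false rfl hκ (SH.κ0 hκ (SH.hx1 hx).le (SH.hx2 hx').le) (SH.hx1 hx).le (SH.hx2 hx') (covB00).cov (covB02).cov hx hx' c_B00pm_022_s3 H (noExt_B)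

noncomputable def cut_B00pm_101_s1 : Cut := Cut.of [[⟨4, 0, 0, 1449551462⟩], [⟨0, 1, 0, 67108864⟩, ⟨1, 0, 0, 67108864⟩, ⟨2, 1, 0, 67108864⟩], [⟨0, 0, 1, 20971520⟩, ⟨1, 1, 2, 20971520⟩, ⟨2, 1, 0, 33554432⟩]]

noncomputable def f_B00pm_101_s1 : ℕ → ℕ → ℕ → ℕ → Bool := onCell 536870912 536870912 536870912 536870912 697932185 42949674
    (rowF 0 false true false .npn 1 0 1 (qsf 536870912 536870912 536870912 536870912 0) ndB0q1 ndB0q1 pcB0 cut_B00pm_101_s1 Ext.none)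

def k0_B00pm_101_s1 : ∃ t, chk3 f_B00pm_101_s1 t 1 1 1 = true :=
  ⟨(a (l 6) (b (l 6) (a (b (l 6) (b (l 6) (a (l 6) (b (l 6) (a (l 6) (b (l 6) (b (l 6) (a (l 6) (a (l 6) (c (l 16883896) (l 16890912))))))))))) (b (a (l 6) (l 1)) (b (a (l 6) (b (l 1) (a (a (a (a (l 6) (l 1)) (l 1)) (l 1)) (l 1)))) (a (b (a (l 6) (b (a (l 6) (b (l 16820368) (l 16813184))) (a (b (l 16860336) (l 16823528)) (b (l 16806904) (a (l 16846240) (l 16840824)))))) (a (a (b (b (l 6) (l 6)) (b (a (l 16880760) (l 16871864)) (a (l 16899568) (l 16869600)))) (b (b (a (l 6) (l 16861024)) (c (l 16818984) (l 16820672))) (b (a (l 16862928) (l 16854712)) (a (l 16850088) (l 16831296))))) (a (b (b (a (l 16853912) (l 16847520)) (a (l 16850368) (l 16843912))) (b (a (l 16847448) (l 16840920)) (a (l 16823952) (l 16817336)))) (b (b (a (l 16841712) (l 16836248)) (a (l 16838040) (l 16832528))) (b (a (l 16834976) (l 16829408)) (a (l 16811320) (l 16784712))))))) (b (b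 (a (a (b (a (l 16854576) (l 16849328)) (a (l 16847344) (l 14))) (b (l 1) (l 14))) (l 1)) (a (a (a (b (l 16841008) (l 16835504)) (l 14)) (l 14)) (l 14))) (a (a (a (b (b (l 16830888) (l 16827112)) (b (l 16823944) (l 16800152))) (l 14)) (l 14)) (l 14))))))))), by decide +kernel⟩

theorem c_B00pm_101_s1 : CertF 536870912 536870912 536870912 536870912 697932185 42949674 false true false .npn 1 0 1
    ndB0q1 ndB0q1 pcB0 cut_B00pm_101_s1 Ext.none :=
  certF0 (fam := false) (s1 := true) (s2 := false) (a := 1) (b := 0) (c := 1) (cn := .npn) (n1 := ndB0q1) (n2 := ndB0q1) (pc := pcB0) (cut := cut_B00pm_101_s1) (xt := Ext.none) (P1 := 536870912) (W1 := 536870912) (P2 := 536870912) (W2 := 536870912) (P3 := 697932185) (W3 := 42949674)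
    rfl k0_B00pm_101_s1

theorem s_B00pm_101_s1 {κ x : ℝ} (hκ : κ * h0 = ken x) (hx : ((697932185 : ℕ) : ℝ) / S ≤ x)
    (hx' : x ≤ (((697932185 : ℕ) : ℝ) + (42949674 : ℕ)) / S)
    (H : CutB (VFD κ) PP tK tL pcB (Cut.of [[⟨0, 1, 0, 67108864⟩, ⟨1, 0, 0, 67108864⟩, ⟨2, 1, 0, 67108864⟩], [⟨0, 0, 1, 20971520⟩, ⟨1, 1, 2, 20971520⟩, ⟨2, 1, 0, 33554432⟩]]) 1 0 1 0 0 (sgb true) (sgb false) x) :
    AltB (VFD κ) PP tK tL pcB [⟨3, 0, 0, 1449551462⟩] 1 0 1 0 0 (sgb true) (sgb false) x :=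
  strip_altBD (m := 1449551462) true rfl hκ (SH.κ0 hκ (SH.hx1 hx).le (SH.hx2 hx').le) (SH.hx1 hx).le (SH.hx2 hx') (covB01).cov (covB01).cov hx hx' c_B00pm_101_s1 H (noExt_B)

noncomputable def cut_B00pm_101_s3 : Cut := Cut.of [[⟨3, 0, 0, 2845415833⟩], [⟨0, 1, 0, 67108864⟩, ⟨1, 0, 0, 67108864⟩, ⟨2, 1, 0, 67108864⟩], [⟨0, 0, 1, 20971520⟩, ⟨1, 1, 2, 20971520⟩, ⟨2, 1, 0, 33554432⟩]]

noncomputable def xt_B00pm_101_s3 : Ext := strExt6 dd false true false .u0 .u0m .s0m .npn 1 0 1 rfl rfl gl0 vv ww ndB0q1 ndB0q1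

noncomputable def f_B00pm_101_s3 : ℕ → ℕ → ℕ → ℕ → Bool := onCell 536870912 536870912 536870912 536870912 697932185 42949674
    (rowF 0 false true false .npn 1 0 1 (qsf 536870912 536870912 536870912 536870912 0) ndB0q1 ndB0q1 pcB0 cut_B00pm_101_s3 xt_B00pm_101_s3)

def k0_B00pm_101_s3 : ∃ t, chk3 f_B00pm_101_s3 t 4 4 1 = true :=
  ⟨(a (b (l 4) (a (a (l 4) (a (l 4) (a (l 4) (b (l 4) (b (l 4) (l 1072743439)))))) (a (b (l 4) (a (b (l 4) (l 1073524751)) (b (l 1074617359) (l 1073326095)))) (a (b (l 4) (b (l 1074991631) (l 1073680399))) (a (b (l 4) (c (b (l 1074976271) (l 1074704911)) (l 1073326095))) (b (a (l 4) (b (l 4) (b (l 4) (l 1075237391)))) (c (c (l 1075420687) (l 1074655247)) (l 1073515023)))))))) (b (a (a (l 4) (l 1)) (l 1)) (a (a (b (c (c (b (l 1075888655) (c (a (l 1075992591) (l 1076055567)) (l 1075906063))) (b (l 1075483151) (c (l 1075782159) (l 1075500047)))) (b (l 1074909199) (c (l 1074897423) (l 1074099727))))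 (a (c (b (c (c (l 1076098575) (l 1075705359)) (l 1075117071)) (l 1075206159)) (b (c (l 1074337807) (l 1073563663)) (l 1073680911))) (b (c (c (l 1076178447) (l 1075563023)) (c (l 1074769423) (l 1073981455))) (c (l 1075631119) (l 1074077711))))) (b (b (a (a (l 1075382287) (l 1)) (l 1)) (c (a (l 1075916303) (a (l 1075944463) (l 1075961359))) (l 1075414031))) (a (b (c (l 1076126223) (l 1074824719)) (c (l 1076080143) (l 1074497039))) (c (b (l 1076177935) (l 1076367375)) (b (l 1075303951) (l 1074941455)))))) (a (a (b (a (b (l 1) (c (l 1075975183) (l 1075434511))) (l 1)) (c (b (l 1076219407) (c (l 1076531215) (l 1076310031))) (b (l 1075720719) (l 1075413519)))) (b (l 1) (c (b (l 1076251151) (c (l 1076578831) (l 1076350479))) (b (l 1075740175) (l 1075915791))))) (b (l 1) (c (b (c (c (l 1076476431) (l 1076347407)) (l 1076152335)) (c (l 1076635663) (l 1076398095))) (b (c (l 1075888655) (l 1075620367)) (c (l 1076156431) (l 1075910671))))))))),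 by decide +kernel⟩

def k1_B00pm_101_s3 : ∃ t, chk3 f_B00pm_101_s3 t 8 20 1 = true :=
  ⟨(a (a (a (b (l 4) (c (l 1072058895) (l 1070761999))) (b (b (l 4) (b (l 4) (l 1071845903))) (c (l 1072396815) (l 1071069711)))) (b (a (b (a (l 4) (b (l 4) (l 1072308239))) (c (l 1072858639) (l 1071493647))) (b (c (a (a (b (b (l 4) (l 1073133583)) (l 1073107983)) (b (b (l 1073224719) (l 1073205263)) (l 1073183247))) (b (l 1073335311) (b (l 1073307151) (l 1073290255)))) (a (b (a (l 1071765519) (l 1071836687)) (l 1071767567)) (b (l 1071948815) (a (l 1071877135) (l 1071951375))))) (a (a (l 1072365583) (l 1072441359)) (a (l 1073053711) (l 1074203663))))) (a (c (c (l 1073068047) (l 1072390671)) (l 1071376399)) (a (b (c (l 1073015823) (l 1071642639)) (l 1072248847)) (b (l 1072483343) (l 1072407055)))))) (b (a (a (b (b (c (l 1073582095) (l 1072178191)) (c (l 1073541135) (l 1072141327))) (c (b (l 1073505295) (l 1073470479)) (b (l 1072107023)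 (l 1072072207)))) (b (b (l 1073207823) (l 1073165839)) (c (l 1073820687) (l 1072401423)))) (b (c (b (l 1074461711) (l 1074411023)) (l 1072973327)) (a (l 1073445391) (l 1073795087)))) (a (a (c (b (l 1074490895) (l 1073342479)) (b (l 1072020495) (l 1071949839))) (b (c (l 1073749519) (l 1072331791)) (c (l 1073677327) (l 1072261647)))) (b (a (l 1073372175) (l 1073717775)) (a (l 1073838095) (l 1073645071)))))), by decide +kernel⟩

def k2_B00pm_101_s3 : ∃ t, chk3 f_B00pm_101_s3 t 8 21 1 = true :=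
  ⟨(a (b (a (a (b (a (l 1071179279) (l 1071344143)) (a (l 1071079439) (l 1071245327))) (c (l 1072188431) (l 1070897167))) (a (a (l 1071791119) (a (l 1071915023) (l 1071997455))) (c (c (l 1073220111) (l 1072541199)) (l 1071524879)))) (a (b (a (c (l 1071640591) (l 1070467087)) (c (l 1072017935) (l 1070774799))) (a (c (l 1071505423) (l 1070387215)) (l 1071302159))) (a (b (c (l 1072379919) (l 1071084047)) (c (l 1072274959) (l 1071014927))) (b (c (l 1072735247) (l 1071402511)) (c (l 1072637967) (l 1071326223)))))) (a (b (a (c (c (l 1073566735) (l 1072873999)) (l 1071838223)) (b (l 1073432079) (l 1073891855))) (a (c (b (l 1073085967) (l 1072993295)) (l 1071682575)) (b (l 1073811983) (l 1072656911)))) (b (a (b (l 1073228815) (l 1073155087)) (b (l 1073573391) (l 1073500175))) (b (a (l 1073078287) (l 1073425423)) (a (l 1072998415) (l 1073347087)))))), by decide +kernel⟩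

def k3_B00pm_101_s3 : ∃ t, chk3 f_B00pm_101_s3 t 8 11 1 = true :=
  ⟨(a (b (b (a (b (c (l 1071576079) (l 1070474767)) (a (l 1070738959) (l 1071108111))) (a (b (l 1071560719) (l 1071470607)) (b (c (l 1072541711) (l 1071265295)) (l 1071824399)))) (a (b (a (l 1070629903) (l 1071004175)) (a (l 16743016) (l 16743800))) (b (a (l 1071373839) (l 16772696)) (a (l 16745400) (l 16747776))))) (b (a (b (l 1070586895) (l 16742560)) (b (a (l 16740584) (l 16743416)) (l 16757904))) (a (b (l 16725984) (l 16719544)) (b (l 16731616) (l 16725928))))) (a (b (b (a (b (c (l 1072902671) (l 1071576079)) (b (l 1072184335) (l 16756656))) (b (l 1072577039) (l 1073038863))) (b (a (l 16754296) (l 1072430607)) (a (l 16750832) (l 16754552)))) (b (b (l 16748984) (l 16744984)) (l 16738248))) (b (b (a (b (l 1072919055) (l 16763816)) (b (l 16770216) (l 16768344))) (b (a (l 1072769039) (l 16766312)) (a (l 1072698895) (l 1073041935)))) (b (b (c (l 1073446927)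 (l 1072145423)) (l 16755936)) (l 16750760))))), by decide +kernel⟩

def k4_B00pm_101_s3 : ∃ t, chk3 f_B00pm_101_s3 t 9 10 1 = true :=
  ⟨(b (a (b (a (b (a (c (l 1075011087) (l 1073509391)) (c (l 1075418639) (l 1073888783))) (a (l 1075234319) (l 1075081231))) (a (b (a (l 1074960399) (l 1075173391)) (l 1074948111)) (b (l 1076040207) (l 1075373583)))) (a (a (b (l 1074078223) (l 1074002447)) (b (l 1074455055) (l 1074375183))) (c (b (l 1075837967) (l 1075748879)) (a (l 1074036239) (l 1074702351))))) (a (a (b (b (c (l 1076546575) (l 1075159567)) (l 1076360207)) (b (a (l 1075593743) (l 1075819023)) (c (l 16815680) (l 16792568)))) (b (b (c (l 1076599823) (l 1075635215)) (a (l 1076177935) (l 1076423695))) (c (c (l 1076758031) (l 1076521999)) (c (l 1075702799) (l 1074890255))))) (b (c (b (a (l 1076643343) (l 1076677647)) (c (l 1076831759) (l 1076626447))) (b (c (l 1076331023) (l 1075984911)) (c (l 1076418063) (l 1075807759))))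 (c (c (a (l 1076825615) (l 1076882959)) (b (l 1076666383) (l 1076681743))) (c (a (l 1076180495) (l 1076512783)) (a (l 1075351567) (l 1075842063))))))) (a (b (a (a (b (l 1073929743) (l 1073857039)) (b (l 1074299919) (l 1074226191))) (c (b (l 1075667983) (l 1075591183)) (a (l 1073878031) (l 1074265103)))) (b (a (a (l 1073782799) (l 1074152463)) (a (l 1073998351) (l 16776520))) (a (a (l 16797664) (l 16782504)) (a (l 16789424) (l 16797528))))) (b (a (a (c (l 1076278799) (c (l 1075070479) (l 1074273807))) (c (l 1076626959) (c (l 1075505679) (l 1074692623)))) (c (c (l 1076547599) (c (l 1076710415) (l 1076639247))) (c (a (l 1075964431) (l 1076449295)) (a (l 1075134479) (l 1075602447))))) (b (a (a (l 16785536) (l 16774992)) (c (l 16797440) (c (l 16826584) (l 16808752)))) (a (c (l 16828520) (l 16796008)) (c (l 16842584) (l 16817968))))))), by decide +kernel⟩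

def k5_B00pm_101_s3 : ∃ t, chk3 f_B00pm_101_s3 t 9 11 1 = true :=
  ⟨(b (a (b (a (a (b (l 16775360) (l 16773832)) (b (l 16781536) (l 16780344))) (c (b (l 16807528) (l 16807696)) (b (l 16778392) (l 16776880)))) (a (b (a (l 16772128) (l 16778976)) (l 16773728)) (b (l 16791376) (l 16790344)))) (b (a (b (c (l 16829752) (l 16795376)) (c (l 16830664) (l 16794528))) (c (b (l 16846184) (l 16850144)) (b (l 16818008) (l 16817816)))) (a (b (l 16812336) (l 16811968)) (b (l 16797256) (l 16839488))))) (a (b (a (b (a (l 1073321999) (l 16775800)) (a (l 16766176) (l 16774048))) (b (l 16789176) (l 16787888))) (a (b (b (l 16768384) (l 16767192)) (l 16765176)) (b (a (l 16781464) (l 16791896)) (l 16785024)))) (a (b (a (l 16804968) (l 16817656)) (l 16809584)) (b (a (l 16831872) (l 16847752)) (l 6))))), by decide +kernel⟩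

def k6_B00pm_101_s3 : ∃ t, chk3 f_B00pm_101_s3 t 5 4 1 = true :=
  ⟨(a (b (l 1) (a (a (a (b (l 1) (b (l 1) (c (l 1076537871) (l 1076036623)))) (l 1)) (l 1)) (l 1))) (l 1)), by decide +kernel⟩

def k7_B00pm_101_s3 : ∃ t, chk3 f_B00pm_101_s3 t 5 5 1 = true :=
  ⟨(b (a (b (b (b (a (a (a (c (l 1076700687) (l 1076233743)) (c (l 68753108919) (l 1076216847))) (l 1)) (l 1)) (a (a (a (a (l 1076554255) (l 1076560399)) (a (l 1076557839) (l 1076547599))) (a (a (l 1075993615) (l 1)) (l 1))) (l 1))) (a (a (c (a (c (l 1076929551) (l 1076738575)) (c (l 1076946447) (l 1076749327))) (a (c (l 1076544015) (l 1075809295)) (b (l 16807480) (l 16812112)))) (b (a (c (l 16839944) (l 16810248)) (c (l 16842848) (l 16833496))) (a (c (l 16844616) (l 16815096)) (c (l 16847720) (l 16838544))))) (a (a (b (l 1) (c (l 16850296) (l 16840536))) (l 1)) (l 1)))) (a (b (a (c (b (a (l 16840592) (l 16845064)) (a (l 16844168) (l 16848856))) (b (a (l 16833760)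 (l 16837512)) (a (l 16836928) (l 16841760)))) (c (b (a (l 16848952) (l 16852272)) (a (l 16852960) (l 16856504))) (b (a (l 16840728) (l 16843416)) (a (l 16845192) (l 16848096))))) (c (a (b (a (l 16847496) (l 16852384)) (l 16811376)) (b (l 16837464) (l 16862400))) (a (a (b (l 16837984) (l 16838808)) (b (l 16845856) (l 16850136))) (b (a (l 16849496) (l 16852616)) (a (l 16853968) (l 16857288)))))) (b (a (a (a (b (l 16807920) (l 16854472)) (b (l 16850976) (l 16855680))) (b (l 31709046567) (l 16836224))) (a (b (l 1) (l 16837928)) (l 1))) (a (a (b (a (l 16858848) (l 16860160)) (l 16822064)) (b (l 16840848) (l 6))) (l 6))))) (a (b (l 1) (l 6)) (l 1))) (a (b (a (b (a (a (b (l 16810576) (l 16857040)) (b (l 16815496) (l 16862136))) (a (b (l 16819856) (l 16866688)) (b (l 16823688) (l 6)))) (a (c (l 16826560) (b (l 16848152) (l 16848200))) (l 6))) (l 6)) (l 6)) (l 6))), by decide +kernel⟩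

def k8_B00pm_101_s3 : ∃ t, chk3 f_B00pm_101_s3 t 2 3 1 = true :=
  ⟨(b (a (a (b (a (b (b (a (l 16709112) (l 16716576)) (a (l 16692976) (l 16701808))) (b (a (l 16671736) (l 16681840)) (a (l 16644264) (l 16655200)))) (b (b (b (l 16737176) (l 16731984)) (l 16722528)) (b (l 16705440) (l 16681416)))) (b (a (a (b (a (l 16616712) (l 16616864)) (l 6)) (l 6)) (l 6)) (l 6))) (b (b (a (b (b (a (l 16762104) (l 16783232)) (l 16769176)) (l 16763368)) (l 6)) (l 6)) (l 6))) (l 6)) (l 6)), by decide +kernel⟩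

def k9_B00pm_101_s3 : ∃ t, chk3 f_B00pm_101_s3 t 3 1 1 = true :=
  ⟨(b (a (b (l 1) (l 6)) (l 1)) (l 6)), by decide +kernel⟩

theorem t10_B00pm_101_s3 : ∃ t, chk3 f_B00pm_101_s3 t 5 2 1 = true := ex3_b k6_B00pm_101_s3 k7_B00pm_101_s3

theorem t11_B00pm_101_s3 : ∃ t, chk3 f_B00pm_101_s3 t 9 5 1 = true := ex3_b k4_B00pm_101_s3 k5_B00pm_101_s3

theorem t12_B00pm_101_s3 : ∃ t, chk3 f_B00pm_101_s3 t 8 10 1 = true := ex3_b k1_B00pm_101_s3 k2_B00pm_101_s3

theorem t13_B00pm_101_s3 : ∃ t, chk3 f_B00pm_101_s3 t 8 5 1 = true := ex3_b t12_B00pm_101_s3 k3_B00pm_101_s3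

theorem t14_B00pm_101_s3 : ∃ t, chk3 f_B00pm_101_s3 t 4 5 1 = true := ex3_a t13_B00pm_101_s3 t11_B00pm_101_s3

theorem t15_B00pm_101_s3 : ∃ t, chk3 f_B00pm_101_s3 t 4 2 1 = true := ex3_b k0_B00pm_101_s3 t14_B00pm_101_s3

theorem t16_B00pm_101_s3 : ∃ t, chk3 f_B00pm_101_s3 t 2 2 1 = true := ex3_a t15_B00pm_101_s3 t10_B00pm_101_s3

theorem t17_B00pm_101_s3 : ∃ t, chk3 f_B00pm_101_s3 t 2 1 1 = true := ex3_b t16_B00pm_101_s3 k8_B00pm_101_s3

theorem t18_B00pm_101_s3 : ∃ t, chk3 f_B00pm_101_s3 t 1 1 1 = true := ex3_a t17_B00pm_101_s3 k9_B00pm_101_s3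

theorem c_B00pm_101_s3 : CertF 536870912 536870912 536870912 536870912 697932185 42949674 false true false .npn 1 0 1
    ndB0q1 ndB0q1 pcB0 cut_B00pm_101_s3 xt_B00pm_101_s3 :=
  certF0 (fam := false) (s1 := true) (s2 := false) (a := 1) (b := 0) (c := 1) (cn := .npn) (n1 := ndB0q1) (n2 := ndB0q1) (pc := pcB0) (cut := cut_B00pm_101_s3) (xt := xt_B00pm_101_s3) (P1 := 536870912) (W1 := 536870912) (P2 := 536870912) (W2 := 536870912) (P3 := 697932185) (W3 := 42949674)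
    rfl t18_B00pm_101_s3

theorem s_B00pm_101_s3 {κ x : ℝ} (hκ : κ * h0 = ken x) (hx : ((697932185 : ℕ) : ℝ) / S ≤ x)
    (hx' : x ≤ (((697932185 : ℕ) : ℝ) + (42949674 : ℕ)) / S)
    (H : CutB (VFD κ) PP tK tL pcB (Cut.of [[⟨0, 1, 0, 67108864⟩, ⟨1, 0, 0, 67108864⟩, ⟨2, 1, 0, 67108864⟩], [⟨0, 0, 1, 20971520⟩, ⟨1, 1, 2, 20971520⟩, ⟨2, 1, 0, 33554432⟩]]) 1 0 1 0 0 (sgb true) (sgb false) x) :
    AltB (VFD κ) PP tK tL pcB [⟨4, 0, 0, 2845415833⟩] 1 0 1 0 0 (sgb true) (sgb false) x :=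
  strip_altBD (m := 2845415833) false rfl hκ (SH.κ0 hκ (SH.hx1 hx).le (SH.hx2 hx').le) (SH.hx1 hx).le (SH.hx2 hx') (covB01).cov (covB01).cov hx hx' c_B00pm_101_s3 H ((okx6 hx hx').extB (T := tt) (okx hx hx') (sideB hx hx') hκ rfl rfl (.O 1 true) (.O 1 false) (Or.inl rfl))

end Pool.Agent.Strip051.G.I6500_6900.Tab.St.C
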