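import Pool.Agent.Strip051.G.I6500_6900.StH
import Pool.Agent.Strip051.G.I6500_6900.StF

/-! # Unit strips 15 (generated) -/

set_option linter.all false
set_option maxRecDepth 100000

namespace Pool.Agent.Strip051.G.I6500_6900.Tab.St.C

open Pool.Agent.Strip051.PB Pool.Agent.Strip051.PB.T Pool.Agent.StripNear Pool.Agent.Strip051.LC
open Pool.Agent.Strip051.G.I6500_6900.Tab Pool.Agent.Strip051.G.I6500_6900.Tab.St

noncomputable def cut_B00pm_102_s1 : Cut := Cut.of [[⟨4, 0, 0, 1449551462⟩], [⟨0, 1, 0, 33554432⟩, ⟨1, 0, 0, 33554432⟩, ⟨2, 1, 0, 33554432⟩], [⟨0, 0, 1, 20971520⟩, ⟨1, 1, 2, 20971520⟩, ⟨2, 1, 0, 33554432⟩]]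

noncomputable def xt_B00pm_102_s1 : Ext := strExt6 dd false true false .u0 .u2 .u0m .npp 1 0 2 rfl rfl gf0 vv ww ndB0q1 ndB0q2

noncomputable def f_B00pm_102_s1 : ℕ → ℕ → ℕ → ℕ → Bool := onCell 536870912 536870912 0 536870912 697932185 42949674
    (rowF 0 false true false .npp 1 0 2 (qsf 536870912 536870912 0 536870912 0) ndB0q1 ndB0q2 pcB0 cut_B00pm_102_s1 xt_B00pm_102_s1)

def k0_B00pm_102_s1 : ∃ t, chk3 f_B00pm_102_s1 t 4 2 1 = true :=
  ⟨(b (l 2) (a (l 2) (a (l 2) (a (l 2) (a (l 2) (b (l 2) (b (l 2) (l 88684077191)))))))), by decide +kernel⟩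

def k1_B00pm_102_s1 : ∃ t, chk3 f_B00pm_102_s1 t 5 4 1 = true :=
  ⟨(b (a (a (a (l 2) (l 3)) (l 3)) (l 3)) (a (a (a (l 2) (a (a (l 2) (b (l 2) (b (b (l 2) (l 1067929615)) (b (l 1067959311) (b (l 16741368) (c (l 16733760) (a (b (l 16732008) (l 16730144)) (a (l 16734816) (l 16732856))))))))) (a (b (l 1067756047) (b (b (l 1067809807) (l 1067829775)) (b (l 1067862543) (a (b (l 16738272) (l 16734960)) (l 16743328))))) (b (l 1067645967) (b (b (l 1067702287) (l 1067723791)) (c (l 1067903503) (b (l 16751656) (l 16744832)))))))) (b (a (b (l 3) (a (l 1067495951) (b (l 3) (l 1067247631)))) (l 3)) (b (b (b (a (a (l 1067523599) (l 1067265039)) (a (a (a (l 1067087375) (l 3)) (l 3)) (l 3))) (a (a (l 1067532815) (a (l 1067342863) (b (l 1067203599) (l 1067209231)))) (b (a (a (a (l 1067095567) (c (l 1066657295) (l 1066970127))) (l 3)) (l 3)) (a (a (a (l 1067099663) (c (l 1067201551) (l 1066982415))) (l 1066911247)) (l 3))))) (a (a (c (l 1067663375) (c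 (l 1067503119) (l 1067413007))) (a (c (l 1067461647) (l 1067287567)) (b (a (l 1067258383) (l 1067190799)) (l 1067251727)))) (a (a (a (b (b (l 1067115023) (l 1067130383)) (l 1067153935)) (c (l 1067235343) (l 1067021327))) (l 1066953743)) (c (l 1066639887) (l 1066742287))))) (a (b (a (c (l 1067706383) (c (l 1067544079) (l 1067452943))) (a (c (l 1067513359) (l 1067335695)) (l 1067294735))) (a (c (l 1067754511) (l 1067809807)) (c (l 1067495439) (l 1067328527)))) (a (a (c (l 1067319311) (l 1067140623)) (l 1067051023)) (c (l 1066723343) (l 1066848271))))))) (a (b (l 3) (a (b (l 3) (a (c (b (l 1066704911) (l 1067301391)) (l 1066771983)) (a (b (l 3) (l 1067099663)) (l 3)))) (l 3))) (l 3)))), by decide +kernel⟩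

def k2_B00pm_102_s1 : ∃ t, chk3 f_B00pm_102_s1 t 20 10 1 = true :=
  ⟨(a (a (l 2) (a (b (l 2) (b (l 2) (l 16680880))) (b (b (l 2) (b (l 2) (l 16703064))) (b (c (l 16688136) (l 16696912)) (l 16684296))))) (b (b (b (b (a (c (l 16728312) (l 9764248551)) (a (a (b (l 16735144) (l 16730624)) (b (l 16733920) (l 16732320))) (a (l 16734496) (l 16736040)))) (a (c (l 16724448) (l 16727808)) (a (l 16728592) (a (b (l 16732112) (l 16730184)) (b (l 16733448) (l 16731904)))))) (a (c (l 16718728) (a (l 16715184) (l 16718600))) (c (l 16725544) (a (l 16722016) (l 16725424))))) (b (a (a (l 4932374695) (l 16717232)) (a (l 16720640) (l 16724024))) (a (a (l 16706488) (l 16704656)) (c (l 16710712) (l 16714144))))) (b (a (b (a (l 16694112) (l 16697528)) (l 16699384)) (b (a (l 16700944) (l 16704336)) (l 16706232))) (a (b (l 16682208) (l 16675728)) (b (l 16689080) (l 16682648)))))), by decide +kernel⟩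

def k3_B00pm_102_s1 : ∃ t, chk3 f_B00pm_102_s1 t 21 10 1 = true :=
  ⟨(b (a (b (a (a (b (c (l 16742432) (c (l 16746512) (l 16740592))) (b (c (l 16732424) (a (l 16732688) (l 16733968))) (l 16727736))) (b (l 1067635215) (b (a (l 16733560) (l 16735224)) (c (l 16731936) (a (l 16729688) (l 16730984)))))) (a (a (b (l 1067551759) (b (l 16736728) (l 16733088))) (l 1067518991)) (b (l 1067405327) (l 1067459087)))) (a (a (b (l 16727384) (l 16714816)) (b (l 16730696) (l 16718144))) (b (b (a (c (l 16731416) (a (l 16729312) (l 16730616))) (c (l 16733896) (l 16735408))) (a (l 16726872) (a (l 16729544) (a (l 16730536) (l 16731080))))) (c (l 16723736) (l 16727640))))) (b (a (c (l 1067395599) (a (l 1067246607) (l 1067133455))) (b (l 1067070991) (l 1067122703))) (a (a (a (b (c (l 16736952) (l 16738608)) (c (l 16727944) (l 16732112))) (b (l 16746160) (b (c (l 16731152) (l 16729904)) (l 16726776)))) (b (l 1067260431) (a (b (l 16731600) (l 16728616)) (b (l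 16733488) (l 16732560))))) (a (b (l 1067169295) (a (b (l 16735144) (l 16731256)) (l 16745752))) (b (l 1067181071) (l 1067233295)))))) (a (b (a (c (l 16717328) (a (l 16713928) (l 16717328))) (c (l 16723792) (a (l 16720712) (l 16724064)))) (a (b (l 16695912) (l 16689544)) (b (l 16702632) (l 16696344)))) (b (b (a (c (l 16723416) (l 16727160)) (a (a (l 16731944) (b (l 16732520) (l 16726400))) (a (b (l 16731696) (l 16728656)) (b (l 16734016) (l 16730560))))) (a (l 16720864) (l 16727632))) (a (b (l 16709168) (l 16702976)) (b (l 16715896) (l 16709784)))))), by decide +kernel⟩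

def k4_B00pm_102_s1 : ∃ t, chk3 f_B00pm_102_s1 t 10 11 1 = true :=
  ⟨(a (b (a (a (b (l 16663184) (l 11911580311)) (b (l 16670024) (l 16656952))) (b (b (l 16683408) (l 16666912)) (l 16678824))) (b (a (b (l 16655432) (l 16626912)) (b (l 16647360) (l 16641944))) (a (l 16616008) (l 16630784)))) (b (a (b (b (l 16697336) (l 16681008)) (l 16682736)) (a (b (l 16704768) (l 16682968)) (b (l 16711800) (l 16690336)))) (b (a (l 16680208) (l 16674760)) (a (b (l 16649384) (l 16643408)) (b (l 16665256) (l 16657744)))))), by decide +kernel⟩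

def k5_B00pm_102_s1 : ∃ t, chk3 f_B00pm_102_s1 t 22 20 1 = true :=
  ⟨(a (b (a (b (l 1067105807) (l 1067162639)) (b (l 1066915855) (l 1066978319))) (b (a (c (l 1067475983) (l 1066967055)) (b (l 1067025423) (c (l 1067571727) (l 1067084303)))) (a (c (l 1067534351) (l 1067023375)) (c (a (l 1067595279) (l 1067650575)) (b (l 1067115535) (l 1067150351)))))) (b (b (a (c (l 1067541007) (l 1067077135)) (l 3)) (a (c (l 1068214799) (l 1067143183)) (a (a (l 1067474959) (l 3)) (l 3)))) (a (a (b (b (l 1066852367) (l 1066886159)) (c (l 1067717135) (l 1066702863))) (b (c (b (b (l 1067693583) (l 1067711503)) (a (l 1067719183) (l 1067759631))) (b (l 1066697231) (l 1066731535))) (c (b (l 1067775503) (l 1067816975)) (l 1066786831)))) (b (c (a (a (b (b (l 1067755535) (l 1067774479)) (l 1067801615)) (c (l 1067942927) (l 1067705871))) (c (l 1068002831) (l 1067767823))) (a (a (b (b (l 1067291151) (l 1067308559)) (l 1067334671)) (c (l 1067473935) (l 1067248143)))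 (c (l 1067538447) (l 1067314191)))) (a (c (b (l 1067857935) (l 1067899919)) (b (l 1067390991) (l 1067433999))) (c (b (l 1067932687) (l 1067987471)) (l 1066960911))))))), by decide +kernel⟩

def k6_B00pm_102_s1 : ∃ t, chk3 f_B00pm_102_s1 t 22 21 1 = true :=
  ⟨(a (b (b (b (a (l 1067327503) (a (l 16745672) (l 16752528))) (a (a (a (l 16732376) (l 16734720)) (l 16737928)) (c (l 16748240) (l 16748320)))) (a (a (b (a (l 16729416) (l 16731368)) (l 16727024)) (b (a (l 16733184) (l 16735560)) (b (l 16732056) (l 16730552)))) (a (b (l 16738792) (b (l 16736256) (l 16734376))) (l 16744048)))) (a (b (l 16724432) (l 16718440)) (b (b (a (b (l 16733088) (l 16731616)) (b (l 16737312) (l 16735472))) (a (l 16729240) (l 16733688))) (l 16727032)))) (b (a (b (c (a (l 1067803151) (l 1067886607)) (a (l 1067328527) (l 1067418127))) (c (a (l 16746952) (l 16751024)) (l 1066937871))) (b (a (c (l 1067972111) (l 1067511311)) (c (l 1068065295) (l 1067612687))) (c (a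 (l 1068073999) (l 1068174351)) (l 1067135503)))) (b (a (a (b (l 16740864) (l 16737400)) (l 16743576)) (c (l 1068239887) (l 1067269135))) (a (b (a (l 16734992) (l 16738632)) (a (l 16731960) (l 16736336))) (b (l 16745336) (a (l 16739944) (l 16744520))))))), by decide +kernel⟩

def k7_B00pm_102_s1 : ∃ t, chk3 f_B00pm_102_s1 t 23 10 1 = true :=
  ⟨(b (a (b (l 3) (a (a (b (a (b (l 3) (l 1067740175)) (l 3)) (c (b (l 1068036111) (l 1068090895)) (l 1067072015))) (b (l 3) (c (l 1068170767) (l 1067720207)))) (l 3))) (l 3)) (a (a (b (b (c (a (l 1068173839) (l 1068288015)) (c (l 1067359759) (l 1067143695))) (c (a (l 1068285967) (l 1068407311)) (l 1067373071))) (b (c (l 1068462095) (l 1068038671)) (l 1067837967))) (b (c (b (a (l 1068421647) (l 1068575759)) (l 1068625423)) (b (a (l 1067987471) (l 1068149263)) (l 1068205583))) (b (c (l 1068758543) (l 1068349967)) (l 1068157967)))) (b (b (l 3) (a (l 1068785679) (l 3))) (a (b (l 1068940303) (l 1069101071))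 (c (l 1069682703) (l 1069331983)))))), by decide +kernel⟩

def k8_B00pm_102_s1 : ∃ t, chk3 f_B00pm_102_s1 t 11 11 1 = true :=
  ⟨(b (a (a (b (b (a (l 16712704) (l 16721536)) (l 16722256)) (b (l 16706440) (l 16700824))) (b (b (a (l 16730064) (b (a (l 16737776) (l 16741376)) (l 16737464))) (a (l 16725064) (l 16733480))) (b (l 16724456) (l 16719368)))) (b (a (b (a (b (l 16748016) (a (l 16742912) (l 16747440))) (l 1068843023)) (a (b (a (l 16741008) (l 16744592)) (l 16740944)) (b (l 16751216) (l 16748400)))) (a (l 1068815375) (b (l 1069781519) (l 1069975055)))) (a (a (l 16734888) (b (b (l 16746536) (l 16744784)) (l 16741048))) (a (b (b (l 16754944) (l 16752312)) (a (l 16747904) (l 16751680))) (b (l 16766880) (a (l 16755512) (l 16759800))))))) (a (a (b (l 16691960) (l 16679336)) (b (l 16711344) (l 16699928))) (b (b (a (l 16732064) (a (l 16745288) (a (l 16752288) (l 16756096)))) (a (l 16727160) (l 16745352))) (a (l 16719464) (a (l 16733832) (l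 16743360)))))), by decide +kernel⟩

def k9_B00pm_102_s1 : ∃ t, chk3 f_B00pm_102_s1 t 2 3 1 = true :=
  ⟨(a (b (l 6) (l 6)) (b (b (b (a (a (b (a (l 16601080) (l 16616248)) (l 16635560)) (b (a (l 16632200) (l 16649960)) (l 16669024))) (a (b (a (l 16687144) (l 16688704)) (a (l 16656952) (l 16678208))) (a (b (l 16709496) (l 16700384)) (b (l 16729856) (l 16722296))))) (a (a (l 6) (b (l 16615176) (l 16604400))) (a (b (l 16657568) (l 16649944)) (a (b (l 16694040) (l 16687912)) (b (l 16715736) (l 16713680)))))) (a (l 6) (b (a (l 16661696) (a (l 16681568) (l 16708168))) (a (l 6) (b (l 16691944) (l 16692944)))))) (l 6))), by decide +kernel⟩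

def k10_B00pm_102_s1 : ∃ t, chk3 f_B00pm_102_s1 t 3 2 1 = true :=
  ⟨(a (b (l 3) (b (a (a (a (b (l 3) (b (l 3) (b (l 3) (l 1070511119)))) (l 3)) (l 3)) (l 3)) (a (a (b (a (a (b (b (l 1070391823) (l 1070600207)) (b (l 1070764559) (l 1070842383))) (b (b (l 1071105551) (b (l 1071288335) (a (l 1071197199) (l 1071567375)))) (b (a (l 1071293967) (l 1071604751)) (a (l 16769568) (l 1071695887))))) (b (a (b (l 3) (a (l 1072015887) (l 3))) (l 3)) (a (b (l 1072333839) (a (l 1072158735) (l 1072591887))) (b (a (l 1072962575) (l 3)) (a (a (l 1072881167) (l 1073057295)) (l 1073338383)))))) (a (b (a (b (a (l 16759840) (l 16763808)) (a (l 16757040) (l 16760824))) (a (b (l 16767056) (l 16764416)) (l 1071831567))) (a (l 16752792) (b (a (l 16762152) (b (l 16766392) (l 16765560))) (l 16760272)))) (b (a (a (l 1072248847) (l 1072643599)) (l 1073210383)) (a (b (a (b (l 16769920) (l 16768936)) (l 16772320)) (a (b (l 16768192) (l 16766328)) (b (l 16771352) (l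 16770856)))) (b (l 1073263119) (a (b (l 16774168) (l 16773664)) (l 16775864))))))) (b (a (b (l 3) (a (b (l 3) (l 1073870351)) (l 3))) (l 3)) (b (a (a (l 1073854479) (l 1074267151)) (l 3)) (a (a (l 1073818127) (b (l 1074150927) (l 1074064911))) (a (b (l 1074227215) (l 1074082831)) (a (l 1074038799) (b (l 3) (b (l 3) (l 1073231887))))))))) (l 3)))) (l 3)), by decide +kernel⟩

def k11_B00pm_102_s1 : ∃ t, chk3 f_B00pm_102_s1 t 12 6 1 = true :=
  ⟨(b (a (b (b (a (a (l 16744976) (l 16754888)) (a (b (l 16766080) (l 16763120)) (b (a (b (l 16773296) (l 16771808)) (b (l 16775480) (l 16775240))) (l 16771616)))) (a (l 16743704) (a (l 16759648) (l 16768400)))) (a (b (l 16739600) (a (l 16730776) (l 16743080))) (b (a (l 16756568) (l 16765728)) (l 16759872)))) (b (a (b (a (b (a (b (l 16777008) (l 16776824)) (l 16777792)) (a (b (l 16776720) (l 16775592)) (b (l 16777760) (l 16777760)))) (b (l 1073991695) (b (l 16778264) (a (l 16778304) (l 16778400)))))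 (a (b (l 16775248) (l 16773600)) (b (a (b (l 16767888) (l 16777576)) (b (l 16778480) (l 16778576))) (l 16777128)))) (b (a (b (b (l 1073981967) (l 1073416719)) (l 1073387023)) (a (b (a (l 1073850895) (l 1073326095)) (l 1073387023)) (b (l 1073260047) (l 1073858575)))) (a (b (a (l 16772896) (l 16772848)) (a (b (l 16778440) (l 16778072)) (b (l 16778432) (a (l 16778816) (l 16768304))))) (a (b (l 1073977359) (b (l 16778480) (l 16778776))) (l 1073977359))))) (b (a (a (l 16772080) (l 16776000)) (a (b (l 16778312) (l 16778416)) (b (a (b (a (l 16758312) (b (l 16779032) (l 16779264))) (l 16779224)) (b (l 16778856) (a (b (l 16779296) (l 16779352)) (b (l 16779112) (l 16768848))))) (a (l 16779384) (l 16779560))))) (a (a (l 16771696) (l 16776320)) (a (l 16758272) (b (l 16780008) (l 16780728))))))) (b (a (a (b (l 16736680) (l 16734056)) (b (a (l 16755072) (l 16764480)) (l 16759544))) (b (a (l 16775384) (b (l 16759896) (l 16739752))) (a (a (l 16774200)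 (b (l 16778512) (l 16780008))) (a (l 16760840) (l 16783904))))) (a (a (l 16734456) (l 16760464)) (a (l 16736720) (b (b (a (l 16784448) (l 16785368)) (l 16786016)) (l 16788416)))))), by decide +kernel⟩

def k12_B00pm_102_s1 : ∃ t, chk3 f_B00pm_102_s1 t 26 24 1 = true :=
  ⟨(a (a (b (a (l 1073753103) (l 1073709071)) (l 1073388559)) (b (b (l 3) (l 1074084367)) (c (l 1074018831) (l 1073338895)))) (a (b (l 3) (a (b (l 1073945615) (l 1074107407)) (b (l 3) (l 1074199055)))) (l 3))), by decide +kernel⟩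

def k13_B00pm_102_s1 : ∃ t, chk3 f_B00pm_102_s1 t 52 25 1 = true :=
  ⟨(b (a (b (a (b (l 16778552) (l 16779016)) (l 1074107919)) (a (b (a (b (l 16774192) (l 16779600)) (b (l 16779360) (c (l 16779936) (l 16774016)))) (l 16779832)) (b (l 16779344) (a (b (a (l 16779872) (l 16779744)) (l 16780088)) (b (l 16779784) (a (l 16774880) (l 16774776))))))) (c (b (l 1074230287) (l 1074385423)) (b (l 1074106383) (l 1074275343)))) (a (b (a (l 16780248) (b (a (l 16780256) (l 16770024)) (l 16780696))) (l 16770632)) (b (a (b (a (b (c (l 16775400) (a (l 16774920) (l 16780088))) (l 16775536)) (b (l 16780392) (a (a (l 16775576) (l 16775520)) (l 16775480)))) (c (l 16771040) (a (l 16780664) (b (l 16775688) (l 16781000))))) (b (l 1074505743) (a (a (b (b (l 16781056) (l 16781336)) (l 16781440)) (b (l 16781136) (a (l 16781576) (l 16776408)))) (b (l 16781176) (a (b (l 16781480) (l 16776520)) (l 16781584)))))) (a (l 16781656) (a (l 16782008) (a (l 16782200) (b (b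 (b (l 16776736) (l 16782072)) (l 16782224)) (l 16782528)))))))), by decide +kernel⟩

def k14_B00pm_102_s1 : ∃ t, chk3 f_B00pm_102_s1 t 53 25 1 = true :=
  ⟨(b (c (a (b (l 1074385935) (l 1074573327)) (c (b (l 1074662415) (l 1074878991)) (b (l 1074618895) (l 1074845199)))) (a (b (l 1073745423) (a (l 1074425359) (l 1074557967))) (a (b (l 1074485775) (l 1074181135)) (a (b (l 1074610191) (l 1074856463)) (b (l 3) (l 1074957839)))))) (a (a (b (l 1074131471) (b (a (a (b (b (l 16781944) (l 16776968)) (l 16782360)) (b (l 16782056) (c (l 16782752) (b (l 16777048) (l 16782400))))) (a (b (l 16782072) (b (l 16782432) (a (l 16782704) (l 16782672)))) (l 16782296))) (a (l 16782744) (b (c (l 16777960) (a (l 16782712) (b (l 16777560) (l 16782952)))) (l 16783144))))) (b (c (l 1074845199) (l 1074247695)) (b (l 1074956303) (b (a (a (b (l 16782944) (a (l 16783200) (l 16783168))) (l 16783056)) (l 16782992)) (a (c (l 16778448) (a (l 16783296) (b (l 16778096) (l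 16783544)))) (c (l 16778304) (a (b (l 16783376) (l 16783608)) (l 16783496)))))))) (a (b (b (l 1074923535) (l 1075038735)) (c (l 1075194383) (l 1074630159))) (b (b (l 1074579471) (l 1074701327)) (c (l 1075385871) (l 1074841615)))))), by decide +kernel⟩

def k15_B00pm_102_s1 : ∃ t, chk3 f_B00pm_102_s1 t 27 12 1 = true :=
  ⟨(b (l 3) (a (a (b (b (l 3) (a (l 1074795535) (a (l 1075304463) (l 3)))) (a (b (b (l 1075336719) (a (l 1075404815) (l 1075522575))) (c (l 1075599375) (l 1075077135))) (c (b (a (l 1075062287) (l 1075167247)) (l 1075273231)) (b (a (b (l 1075531791) (l 1075658767)) (b (a (l 1075123215) (l 1075185679)) (l 1075787279))) (a (l 1075237903) (l 1075942415)))))) (b (l 3) (b (b (l 3) (l 1076186127)) (l 1075779087)))) (b (l 3) (a (b (l 3) (l 1076876303)) (l 3))))), by decide +kernel⟩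

def k16_B00pm_102_s1 : ∃ t, chk3 f_B00pm_102_s1 t 26 13 1 = true :=
  ⟨(b (b (a (a (l 16771888) (b (l 16772208) (l 16783584))) (b (a (a (l 16773040) (a (l 16778768) (b (a (l 16784104) (b (b (l 16778712) (l 16784224)) (l 16784336))) (l 16784568)))) (b (a (a (a (b (b (l 16783976) (l 16778984)) (l 16784584)) (b (l 16784088) (b (l 16784504) (l 16784816)))) (c (l 16779000) (b (l 16783968) (b (l 16784480) (l 16779472))))) (l 1075508239)) (a (a (l 16784944) (a (l 16780088) (b (b (l 16785080) (l 16785424)) (l 16785552)))) (a (a (b (l 16785176) (l 16785824)) (b (l 16785184) (a (l 16780632) (l 16785832)))) (a (l 16780152) (l 16785360)))))) (a (l 16774248) (b (a (l 16785584) (b (a (l 16786088) (c (l 16781192) (b (l 16781096) (l 16786680)))) (l 16786528))) (l 16786448))))) (a (b (l 16763128) (l 16785264)) (b (a (l 16785744) (l 16787216)) (l 16766584)))) (b (a (b (l 16786624) (a (l 16787888) (l 16788488))) (l 16768784)) (a (b (l 16770000) (l 16792832))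 (b (a (l 16791864) (l 16793816)) (a (l 16795800) (l 16796480)))))), by decide +kernel⟩

def k17_B00pm_102_s1 : ∃ t, chk3 f_B00pm_102_s1 t 27 13 1 = true :=
  ⟨(b (a (b (a (b (a (a (l 1075719695) (l 1075830799)) (l 1076042255)) (b (a (a (b (l 16786328) (a (l 16787136) (l 16781848))) (l 16786552)) (l 16786072)) (a (b (a (l 16787440) (c (l 16787664) (l 16782624))) (l 16787936)) (b (l 16787488) (a (l 16783184) (l 16788296)))))) (c (l 1076536335) (l 1075559951))) (b (a (b (a (l 16788280) (b (a (l 16788944) (l 16789128)) (l 16789480))) (l 16789328)) (b (a (b (l 16788680) (a (l 16789808) (l 16789496))) (l 16787936)) (a (b (a (l 16790496) (l 16790424)) (l 16791000)) (b (l 16789632) (l 16780080))))) (a (l 16790184) (b (a (l 16791296) (b (l 16786344) (l 16792264))) (l 16792232))))) (b (a (l 1076556815) (l 1077512719)) (a (b (l 1077319183) (a (b (l 16780248) (b (l 16781984) (l 16793272))) (b (l 16788920) (l 16791312)))) (l 1077763599)))) (b (a (b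 (l 16792304) (l 16793952)) (a (b (b (a (l 16793624) (l 16793512)) (l 16794376)) (l 16795576)) (b (a (b (l 16791712) (l 16783520)) (b (l 16788960) (l 16791328))) (a (l 16795184) (b (l 16792712) (l 16793280)))))) (a (l 16776800) (a (l 16798776) (l 16796200))))), by decide +kernel⟩

def k18_B00pm_102_s1 : ∃ t, chk3 f_B00pm_102_s1 t 6 7 1 = true :=
  ⟨(b (a (b (a (a (b (l 16740616) (l 6)) (l 16771648)) (a (l 16790544) (l 16799312))) (a (l 6) (a (b (b (l 16804056) (l 16725584)) (l 6)) (b (l 16816512) (b (l 16826296) (l 16830536)))))) (b (a (b (a (l 16798088) (l 16802168)) (a (l 16807768) (l 16811360))) (b (a (b (a (l 16760256) (l 16803584)) (a (l 16806560) (l 16808384))) (b (l 16760568) (a (l 16807728) (l 16805920)))) (a (l 16815136) (b (a (l 16814040) (l 16769896)) (l 16819616))))) (a (b (l 16779968) (b (a (l 16830672) (l 16835072)) (a (l 16838568) (l 16842336)))) (b (a (l 16827792) (l 16828904)) (a (l 16842880) (l 16843880)))))) (a (l 6)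 (b (a (b (a (l 16846304) (b (l 16809344) (l 16857368))) (a (l 6) (b (l 16865336) (l 16832688)))) (b (a (b (l 16855000) (l 16864424)) (b (l 16856552) (a (l 16866136) (a (l 16865152) (l 16862488))))) (a (a (l 16875800) (l 16878856)) (a (b (l 16874928) (c (l 16878840) (l 16877408))) (b (l 16870096) (l 16875208)))))) (a (b (a (l 6) (b (c (l 16881960) (l 16888880)) (l 6))) (l 6)) (a (b (a (b (l 16892016) (b (l 16901240) (l 6))) (b (a (l 16894864) (l 16894912)) (b (l 16891488) (l 16905800)))) (b (b (a (l 6) (a (l 6) (l 16906952))) (l 6)) (l 6))) (b (b (a (l 16889984) (l 16880640)) (l 16891216)) (b (b (l 16895880) (a (l 16901928) (l 16893280))) (a (b (l 16898776) (l 6)) (a (l 16849320) (l 16845096)))))))))), by decide +kernel⟩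

def k19_B00pm_102_s1 : ∃ t, chk3 f_B00pm_102_s1 t 7 6 1 = true :=
  ⟨(a (b (l 3) (a (b (a (b (l 3) (a (l 1077672975) (l 1076864015))) (l 3)) (a (b (a (b (l 1077275663) (a (b (l 16788624) (l 16779408)) (l 16774968))) (a (l 1075202575) (b (l 1075466767) (l 1075728911)))) (a (b (a (l 16791472) (b (l 16776736) (l 16788528))) (l 16792152)) (b (a (b (l 16783848) (a (l 16785656) (l 16783792))) (l 1075452943)) (a (l 16766288) (b (a (l 16772688) (l 16781584)) (l 16783992)))))) (b (a (b (l 1075133455) (l 1074866703)) (l 3)) (a (b (l 1074665999) (a (b (l 16779936) (a (l 16770384) (l 16779728))) (l 1074284559))) (a (l 1073953807) (l 1073613327)))))) (b (l 3) (a (b (l 3) (a (b (l 3) (l 1073220111)) (l 3))) (l 3))))) (l 3)), by decide +kernel⟩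

def k20_B00pm_102_s1 : ∃ t, chk3 f_B00pm_102_s1 t 28 14 1 = true :=
  ⟨(b (a (b (a (l 16777696) (b (l 16768232) (l 16795008))) (a (b (l 16808400) (l 16816200)) (l 16764720))) (b (a (b (a (b (l 16771416) (l 16784200)) (b (a (l 16768504) (l 16778264)) (a (l 16781000) (b (l 16778416) (l 16779472))))) (a (l 16788904) (l 16784520))) (b (a (b (l 16777472) (a (a (l 16767344) (l 16777528)) (l 16777256))) (l 1073567759)) (a (b (a (l 16779688) (b (l 16777232) (l 16778248))) (l 16781848)) (b (a (a (l 16766392) (l 16776816)) (l 16776664)) (a (b (a (l 16778144) (l 16777224)) (l 16779352)) (b (a (l 16776624) (l 16776560)) (a (l 16777712) (l 16776848)))))))) (a (b (l 16773536) (l 16803568)) (a (b (b (l 16785784) (l 16789912)) (l 16795968)) (b (a (l 16763160) (l 16781672)) (l 16790456)))))) (a (a (b (l 16827336) (l 16820320)) (b (b (l 16820656) (l 16827736)) (b (l 16832888) (l 16836928)))) (b (a (b (a (l 16815736) (l 16810032)) (b (l 16818496) (l 16820696)))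 (b (l 16758696) (l 16807240))) (a (l 16824424) (b (l 16813032) (l 16816264)))))), by decide +kernel⟩

def k21_B00pm_102_s1 : ∃ t, chk3 f_B00pm_102_s1 t 58 28 1 = true :=
  ⟨(b (a (b (l 1073265167) (a (b (l 1073393679) (a (a (l 16776408) (l 16776440)) (l 16776416))) (l 1073298959))) (b (a (l 1073090575) (l 3)) (a (l 1073242639) (l 1073241615)))) (a (b (a (b (a (b (a (l 16777344) (b (l 16776368) (l 16776752))) (l 16778456)) (b (l 16776336) (a (l 16777080) (b (l 16776360) (l 16776568))))) (a (l 16781216) (l 16779080))) (b (l 1073403919) (a (b (a (b (l 16776512) (l 16777168)) (b (l 16776408) (l 16776496))) (l 16778064)) (b (l 16776472) (a (b (l 16776512) (l 16777104)) (a (l 16776504) (l 16776568))))))) (a (l 16775112) (b (a (l 16780616) (b (a (l 16778304) (b (l 16777104) (l 16777832))) (l 16779584))) (l 16783144)))) (b (a (l 1073436175) (l 1073485839)) (b (a (a (b (a (b (l 16776632) (a (l 16777232) (l 16776912))) (l 16776712)) (a (l 16778256)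 (b (a (l 16777272) (l 16776976)) (l 16777840)))) (a (b (l 16776832) (b (l 16776896) (a (l 16777336) (l 16777064)))) (l 16776968))) (l 1073701903)) (a (a (l 16780376) (b (a (l 16778296) (b (a (l 16777408) (l 16777184)) (l 16777984))) (l 16779560))) (a (b (a (b (l 16777240) (a (b (l 16777320) (l 16777632)) (l 16777336))) (l 16777368)) (a (b (l 16778088) (l 16778824)) (b (a (b (l 16777472) (l 16777752)) (l 16777528)) (a (l 16778288) (l 16778024))))) (a (b (l 16777440) (b (l 16777616) (a (b (l 16777672) (l 16777880)) (l 16777760)))) (l 1073913871)))))))), by decide +kernel⟩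

def k22_B00pm_102_s1 : ∃ t, chk3 f_B00pm_102_s1 t 59 28 1 = true :=
  ⟨(a (b (a (b (l 3) (l 1073296911)) (l 3)) (b (a (b (l 1073515535) (l 1073675791)) (a (l 1073712655) (a (l 1073784847) (l 3)))) (a (b (b (l 1073805327) (l 1073894415)) (a (l 1073979919) (l 1074080271))) (b (a (b (l 1073950223) (a (l 1074020879) (l 1074077711))) (a (b (l 1074035727) (b (l 1074113551) (l 1074158607))) (a (b (l 1074081807) (l 1074184719)) (b (l 1074115599) (l 1074220559))))) (a (b (l 1074145807) (l 1074245135)) (a (l 1074289167) (l 1074362383))))))) (b (l 3) (b (l 3) (a (b (a (b (l 3) (l 1074312719)) (l 3)) (a (l 1074478607) (l 1074643471))) (b (l 3) (a (l 1074820111) (l 3))))))), by decide +kernel⟩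

def k23_B00pm_102_s1 : ∃ t, chk3 f_B00pm_102_s1 t 58 58 1 = true :=
  ⟨(a (b (a (l 16792760) (l 16788304)) (l 16776160)) (b (a (b (l 16772368) (l 16786104)) (b (a (b (l 16779672) (l 16781264)) (b (a (b (a (l 16778400) (b (l 16777960) (l 16778280))) (l 16779024)) (b (a (b (l 16777912) (c (l 16778320) (l 16777776))) (l 16777984)) (a (l 16778560) (b (c (l 16778408) (l 16777872)) (l 16778448))))) (l 16779864))) (a (l 16783632) (l 16782176)))) (a (l 16790816) (b (l 16785912) (l 16788832))))), by decide +kernel⟩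

def k24_B00pm_102_s1 : ∃ t, chk3 f_B00pm_102_s1 t 118 116 1 = true :=
  ⟨(a (b (b (a (a (b (l 16778024) (a (b (l 16778136) (a (l 16778248) (l 16778224))) (l 16778208))) (l 16778160)) (l 1074224143)) (a (a (b (a (l 16778736) (b (l 16778336) (l 16778632))) (l 16779296)) (b (a (b (l 16778376) (l 16778448)) (l 16778448)) (a (b (a (l 16778760) (l 16778648)) (l 16779040)) (b (l 16778576) (a (l 16778864) (l 16778752)))))) (a (c (l 16778800) (l 16778352)) (l 16778608)))) (a (b (a (l 16780440) (l 16779840)) (l 16781624)) (b (a (b (a (b (a (l 16778968) (l 16778856)) (l 16779240)) (b (l 16778864) (a (l 16779072) (l 16778984)))) (a (l 16779784) (l 16779536))) (b (l 16778944) (a (b (a (l 16779184) (l 16779112)) (l 16779472)) (b (l 16779136) (a (l 16779296) (l 16779256)))))) (a (l 16780752) (b (a (l 16779984) (b (l 16779592) (l 16779912))) (l 16780576)))))) (b (a (a (l 1074366991) (l 1074435087)) (a (l 1074507791) (l 1074586127))) (a (b (l 1074565135)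 (a (b (a (b (a (l 16779424) (l 16779416)) (a (l 16779728) (l 16779640))) (b (l 16779424) (a (l 16779552) (l 16779568)))) (a (l 16780200) (b (a (l 16779864) (l 16779768)) (l 16780136)))) (b (l 16779488) (a (b (l 16779688) (a (l 16779992) (l 16779896))) (l 16779768))))) (l 1074780687)))), by decide +kernel⟩

def k25_B00pm_102_s1 : ∃ t, chk3 f_B00pm_102_s1 t 118 117 1 = true :=
  ⟨(a (b (a (l 16783824) (b (l 16781920) (l 16783328))) (l 16785992)) (b (a (b (a (l 16781136) (b (a (l 16780432) (b (a (l 16780128) (l 16780032)) (l 16780384))) (l 16781016))) (l 16782280)) (b (a (b (a (b (l 16780016) (a (l 16780264) (l 16780176))) (l 16780088)) (a (l 16780712) (b (a (l 16780400) (l 16780328)) (l 16780688)))) (b (l 16780064) (a (b (l 16780336) (a (l 16780536) (l 16780488))) (l 16780400)))) (a (l 16781600) (b (a (c (l 16781160) (l 16780880)) (b (a (l 16780688) (l 16780672)) (a (l 16780984) (l 16780928)))) (l 16781528))))) (a (l 16784296) (b (l 16782712)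 (l 16784000))))), by decide +kernel⟩

def k26_B00pm_102_s1 : ∃ t, chk3 f_B00pm_102_s1 t 119 58 1 = true :=
  ⟨(b (a (b (a (l 1074711055) (l 1074887183)) (a (l 1074956815) (l 1075145231))) (b (a (l 1075075087) (l 1075275279)) (a (l 1075345423) (l 1075558415)))) (a (b (a (b (l 1075150863) (a (b (a (b (l 16780648) (a (l 16780840) (l 16780832))) (l 16780712)) (a (b (a (l 16781152) (l 16781072)) (l 16781416)) (b (l 16780984) (a (l 16781312) (l 16781224))))) (b (l 16780640) (a (l 16781048) (l 16781016))))) (l 1075417615)) (a (b (a (l 16782136) (b (a (b (a (l 16781464) (l 16781376)) (l 16781720)) (b (l 16781336) (a (l 16781624) (l 16781528)))) (a (l 16782192) (l 16782048)))) (l 16783208)) (b (a (b (l 16781360) (a (b (a (l 16781776) (l 16781696)) (l 16782064)) (b (l 16781672) (a (l 16781928) (l 16781872))))) (l 16781440)) (a (b (b (a (l 16782336) (l 16782232)) (l 16782568)) (l 16783024)) (b (a (b (a (l 16782088) (l 16782064)) (a (l 16782392) (l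 16782344))) (b (l 16782000) (l 16782224))) (b (a (l 16782656) (a (l 16782576) (l 16782504))) (l 16782888))))))) (b (a (l 1075631119) (l 1075857423)) (a (b (l 1075856399) (a (b (l 16781984) (a (b (l 16782392) (c (l 16782784) (l 16782664))) (l 16782440))) (l 16782024))) (l 1076173327))))), by decide +kernel⟩

def k27_B00pm_102_s1 : ∃ t, chk3 f_B00pm_102_s1 t 29 59 1 = true :=
  ⟨(a (a (b (l 16781800) (l 16765992)) (b (l 16773752) (a (l 16759776) (l 16776552)))) (a (b (a (l 16779440) (b (l 16775840) (l 16788688))) (a (l 16794312) (l 16791880))) (b (a (b (a (l 16785016) (b (l 16783760) (l 16784896))) (l 16781632)) (b (b (a (a (b (a (l 16783136) (b (c (l 16782944) (l 16782832)) (l 16783168))) (l 16783640)) (b (b (l 16782712) (a (l 16783048) (l 16782936))) (a (l 16783496) (b (l 16783208) (l 16783544))))) (a (b (l 16782600) (a (b (l 16783104) (l 16783376)) (l 16783120))) (l 16782592))) (a (l 16784352) (a (b (a (l 16781248) (b (l 16783552) (l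 16783904))) (l 16784320)) (b (l 16780848) (a (a (l 16784240) (l 16781584)) (a (l 16781496) (l 16784024))))))) (a (l 16785928) (b (l 16785000) (l 16785976))))) (a (b (l 16788896) (l 16790704)) (b (a (l 16787840) (l 16787336)) (l 16789208)))))), by decide +kernel⟩

def k28_B00pm_102_s1 : ∃ t, chk3 f_B00pm_102_s1 t 30 28 1 = true :=
  ⟨(l 3), by decide +kernel⟩

def k29_B00pm_102_s1 : ∃ t, chk3 f_B00pm_102_s1 t 60 29 1 = true :=
  ⟨(b (a (b (a (b (l 3) (a (l 1075784207) (l 1076024335))) (l 3)) (a (a (b (l 1076097551) (l 1076428303)) (b (l 1076352015) (l 1076698127))) (a (b (l 1076621327) (l 1076983823)) (c (l 1076003855) (l 1076040719))))) (a (a (a (b (l 3) (l 1076251663)) (l 3)) (l 3)) (l 3))) (a (b (a (a (b (a (b (l 16782248) (l 16783512)) (l 1076848655)) (b (a (a (b (b (l 16784432) (l 16784720)) (l 16785072)) (b (l 16781784) (l 16785048))) (a (b (l 16784280) (c (l 16782296) (l 16782392))) (l 16781752))) (a (l 16785752) (b (a (l 16785448)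 (l 16782832)) (l 16785880))))) (b (l 1077064207) (b (l 1077352975) (b (a (a (a (l 16782760) (l 16785272)) (l 16785120)) (l 16784800)) (a (l 16785888) (l 16785528)))))) (b (c (l 1075875855) (l 1075945999)) (c (l 1078551055) (l 1077836303)))) (a (b (a (l 16781760) (b (b (a (l 16786264) (l 16783656)) (l 16786656)) (l 16787176))) (b (l 16787872) (l 16777880))) (b (a (b (a (b (l 16785864) (a (l 16786672) (l 16786448))) (l 16782752)) (a (l 16786792) (b (c (l 16783472) (l 16786320)) (l 16786360)))) (a (b (l 16784416) (b (l 16785272) (a (l 16786000) (l 16785544)))) (l 1077787151))) (a (l 16786880) (b (a (l 16786040) (b (a (l 16785568) (l 16785104)) (l 16785632))) (l 16786016)))))) (b (a (c (l 1078354447) (l 1078304783)) (a (l 1077523983) (l 3))) (a (b (l 1077585935) (a (b (a (b (l 16784424) (a (l 16782520) (l 16782064))) (l 16781120)) (a (b (a (l 16785344) (b (l 16782448) (l 16785128))) (l 16785344)) (a (b (b (l 16784624) (l 16782240)) (l 16784976))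 (b (l 16784288) (b (l 16782032) (l 16784776)))))) (a (b (l 16780184) (b (l 16783608) (a (l 16781672) (l 16783904)))) (l 1077353487)))) (a (l 1077294095) (l 1077144079)))))), by decide +kernel⟩

def k30_B00pm_102_s1 : ∃ t, chk3 f_B00pm_102_s1 t 61 29 1 = true :=
  ⟨(a (b (l 3) (a (b (l 3) (a (l 1076996623) (l 1076852751))) (l 3))) (l 3)), by decide +kernel⟩

def k31_B00pm_102_s1 : ∃ t, chk3 f_B00pm_102_s1 t 31 14 1 = true :=
  ⟨(l 3), by decide +kernel⟩

def k32_B00pm_102_s1 : ∃ t, chk3 f_B00pm_102_s1 t 14 15 1 = true :=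
  ⟨(b (a (b (a (b (l 16824776) (l 16849800)) (a (l 16832072) (l 16822280))) (a (b (a (l 16860688) (l 16849680)) (l 16859968)) (b (a (l 16838648) (l 16829368)) (a (l 16844632) (l 16793144))))) (b (a (a (l 16771704) (b (l 16803808) (l 16808168))) (a (b (a (l 16777976) (b (l 16794304) (l 16796568))) (l 16801232)) (b (a (b (l 16792272) (l 16772376)) (b (l 16790568) (l 16791592))) (a (l 16775880) (b (c (l 16771176) (l 16771848)) (l 16794608)))))) (a (b (l 16774808) (a (a (l 16786240) (l 16781936)) (l 16776096))) (a (l 16787760) (b (l 16778632) (l 16804936)))))) (a (b (a (b (l 16865520) (l 16871536)) (a (l 16853064) (a (l 16803872) (l 16799400)))) (a (b (b (l 16876312) (a (l 16883832) (l 16873864))) (a (a (l 16840744) (l 16836288)) (l 16829416))) (b (a (c (l 16859104) (l 16823360)) (l 16810960)) (a (l 16820288) (a (l 16855928) (l 16810248)))))) (b (a (a (b (l 16831968) (l 16838168)) (b (l 16782784) (l 16830496))) (b (a (b (l 16773648) (l 16819024))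 (b (l 16809232) (l 16770248))) (b (l 16776568) (l 16779744)))) (a (b (b (l 16797152) (l 16800528)) (b (a (l 16806032) (l 16798976)) (a (l 16845080) (l 16838416)))) (a (b (l 16830040) (b (l 16802776) (l 16832360))) (b (l 16823408) (b (l 16785856) (l 16826680)))))))), by decide +kernel⟩

def k33_B00pm_102_s1 : ∃ t, chk3 f_B00pm_102_s1 t 60 30 1 = true :=
  ⟨(b (a (b (a (b (l 16778432) (l 16789616)) (b (a (l 16787432) (l 16781192)) (l 16787600))) (a (b (l 16790416) (c (l 16770368) (l 16781424))) (b (l 16788400) (l 16789184)))) (b (a (b (a (b (a (l 16785552) (l 16785056)) (l 16785600)) (b (a (a (l 16782104) (b (a (l 16781832) (l 16781624)) (l 16784520))) (b (a (l 16781272) (l 16783512)) (a (l 16781696) (b (l 16783840) (l 16781456))))) (a (l 16784864) (l 16784376)))) (a (l 16786112) (b (l 16784952) (l 16785312)))) (a (b (a (b (c (l 16780400) (l 16780448)) (b (a (b (l 16781264) (l 16783968)) (b (l 16783472) (l 16781072))) (l 16783968))) (b (l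 16782240) (b (l 16782968) (a (b (l 16780880) (l 16783664)) (b (l 16783120) (l 16783312)))))) (b (a (l 16784216) (b (a (l 16783760) (l 16780936)) (l 16783808))) (l 16784320))) (b (l 1076984847) (a (b (b (a (b (l 16783120) (l 16783344)) (l 16780192)) (a (l 16783440) (b (a (l 16783232) (l 16783080)) (l 16783240)))) (l 16783592)) (b (b (l 16782264) (a (b (l 16782768) (a (l 16783080) (l 16782904))) (l 16782488))) (b (a (l 16783128) (b (c (l 16782824) (l 16780192)) (l 16782936))) (l 16783192))))))) (a (b (a (l 16786896) (l 16785904)) (l 16787304)) (b (a (l 16784912) (b (l 16783728) (l 16784136))) (a (l 16785808) (l 16784816)))))) (a (b (a (l 16794904) (b (a (l 16791608) (l 16779552)) (l 16793064))) (l 16777640)) (b (a (b (a (l 16778192) (l 16787848)) (b (l 16779096) (l 16790696))) (b (l 16786344) (b (l 16787208) (a (l 16788496) (l 16787248))))) (a (l 16793960) (b (a (l 16790304) (l 16778552)) (l 16792240)))))), by decide +kernel⟩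

def k34_B00pm_102_s1 : ∃ t, chk3 f_B00pm_102_s1 t 122 120 1 = true :=
  ⟨(a (a (b (l 1076842511) (b (l 1076767247) (a (b (a (b (l 16782456) (c (l 16782656) (l 16782632))) (l 16782176)) (a (l 16782856) (b (c (l 16782480) (l 16782448)) (l 16782656)))) (a (b (l 16781800) (b (l 16782120) (a (l 16782400) (l 16782224)))) (l 16781640))))) (b (l 1076703759) (l 1076605967))) (a (b (l 1076568079) (a (l 1076506639) (l 1076441103))) (b (l 1076434959) (l 1076343823)))), by decide +kernel⟩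

def k35_B00pm_102_s1 : ∃ t, chk3 f_B00pm_102_s1 t 244 121 1 = true :=
  ⟨(b (b (a (a (l 16782992) (b (a (b (a (l 16782536) (l 16782424)) (l 16782576)) (b (l 16782120) (a (l 16782408) (l 16782256)))) (l 16782600))) (a (a (b (l 16781856) (b (a (l 16782272) (l 16782088)) (l 16782280))) (b (l 16781536) (b (l 16781824) (a (l 16782120) (l 16781920))))) (l 16781208))) (a (a (l 16783400) (l 16782912)) (a (b (l 16782320) (l 16782528)) (a (b (b (a (a (l 16782000) (l 16781912)) (l 16781760)) (l 16782024)) (l 16782160)) (b (b (l 16781528) (a (c (l 16781840) (l 16781760)) (l 16781616))) (b (a (l 16781920) (l 16781816)) (l 16781968))))))) (a (b (l 16783592) (l 16784064)) (b (a (l 16782856) (l 16782360)) (l 16783080)))), by decide +kernel⟩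

def k36_B00pm_102_s1 : ∃ t, chk3 f_B00pm_102_s1 t 245 121 1 = true :=
  ⟨(b (a (a (a (b (l 16780688) (b (l 16781280) (b (a (l 16781632) (l 16781480)) (a (l 16781784) (b (l 16781616) (l 16781696)))))) (a (b (l 16780440) (b (l 16781024) (b (l 16781312) (l 16781472)))) (l 1076389903))) (l 1076349455)) (l 1076254223)) (a (b (a (a (l 16781992) (b (a (l 16781720) (b (a (l 16781560) (l 16781464)) (l 16781632))) (l 16781864))) (b (a (b (l 16781240) (a (a (l 16781544) (l 16781496)) (a (l 16781408) (l 16781312)))) (l 16781016)) (a (l 16781616) (b (a (b (l 16781344) (l 16781400)) (a (l 16781248) (l 16781168))) (l 16781440))))) (a (l 16782336) (b (l 16781720) (l 16781968)))) (b (a (a (b (l 16780712) (b (l 16780984) (a (a (l 16781288) (l 16781200)) (l 16781056)))) (l 16780576)) (l 1076159503)) (a (b (b (a (c (l 16781392) (l 16781272)) (a (b (l 16781040) (l 16781152)) (l 16780928))) (a (l 16781416) (a (l 16781232) (b (l 16781080) (l 16781136))))) (l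 16781472)) (a (a (b (b (l 16780792) (b (l 16780920) (l 16781008))) (l 16781168)) (b (l 16780728) (b (b (l 16780936) (l 16781024)) (l 16781104)))) (b (l 16780496) (a (b (a (l 16780848) (l 16780784)) (l 16781000)) (b (l 16780680) (b (l 16780792) (l 16780904)))))))))), by decide +kernel⟩

def k37_B00pm_102_s1 : ∃ t, chk3 f_B00pm_102_s1 t 123 60 1 = true :=
  ⟨(b (a (a (b (l 3) (l 1076216335)) (l 3)) (l 3)) (a (a (b (l 1076130319) (a (a (a (b (l 1076122127) (b (l 16780272) (b (l 16780528) (l 16780680)))) (l 1076086799)) (l 1076064271)) (l 1076021775))) (b (l 1076009487) (a (b (l 1075979791) (l 1075944463)) (b (l 1075916815) (l 1075888655))))) (a (a (b (l 1075927567) (c (l 1075907599) (l 1075793935))) (b (l 3) (a (l 1075803663) (l 1075773455)))) (b (l 3) (a (a (l 1075744271) (l 1075716623)) (l 1075675151)))))), by decide +kernel⟩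

def k38_B00pm_102_s1 : ∃ t, chk3 f_B00pm_102_s1 t 122 61 1 = true :=
  ⟨(b (a (b (a (l 16784848) (b (l 16783584) (l 16784128))) (a (l 16786008) (l 16785008))) (b (a (b (l 16782592) (l 16783128)) (b (a (l 16781848) (b (l 16781224) (l 16781488))) (a (l 16782384) (l 16781888)))) (a (l 16784000) (b (l 16782704) (l 16783304))))) (a (b (b (a (l 16786856) (l 16785952)) (a (l 16788072) (l 16786560))) (a (l 16789936) (l 16788592))) (b (a (l 16785280) (l 16784272)) (b (a (l 16786352) (l 16785304)) (a (l 16787632) (l 16786184)))))), by decide +kernel⟩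

def k39_B00pm_102_s1 : ∃ t, chk3 f_B00pm_102_s1 t 246 122 1 = true :=
  ⟨(b (b (a (a (a (b (b (a (b (l 16780832) (l 16780888)) (b (l 16780664) (l 16780768))) (l 16780920)) (l 16781112)) (b (b (l 16780496) (a (b (l 16780696) (l 16780776)) (b (l 16780552) (l 16780624)))) (c (l 16780968) (b (l 16780760) (l 16780872))))) (a (b (l 16780296) (c (b (a (l 16780688) (l 16780520)) (l 16780800)) (b (a (b (l 16780488) (l 16780592)) (l 16780368)) (a (l 16780680) (b (l 16780528) (l 16780584)))))) (b (l 16780008) (a (b (l 16780328) (b (l 16780432) (a (l 16780576) (l 16780496)))) (l 16780256))))) (c (l 1075950607) (l 1076644367))) (b (b (b (a (a (l 16781152) (a (l 16780784) (a (l 16780600) (c (l 16780552) (l 16780400))))) (l 1075871247)) (a (a (l 16781224) (l 16780728)) (a (a (a (l 16780408) (l 16780272)) (l 16780064)) (l 16779664)))) (a (a (l 16781320) (l 16780824)) (a (a (a (l 16780536) (b (l 16780336) (l 16780448))) (a (a (l 16780264) (l 16780216))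 (l 16780120))) (l 16779784)))) (b (a (a (l 16781456) (l 16780960)) (a (a (l 16780592) (c (a (l 16780512) (l 16780352)) (a (l 16780352) (b (l 16780136) (l 16780248))))) (c (l 16780000) (l 16779840)))) (a (l 16781352) (a (l 16780600) (a (a (a (l 16780344) (b (l 16780216) (l 16780296))) (b (l 16780120) (l 16780200))) (l 16779960))))))) (a (b (a (l 16781952) (l 16781456)) (l 16782304)) (b (a (b (l 16780816) (l 16781104)) (b (c (a (l 16780536) (b (a (l 16780280) (l 16780112)) (l 16780384))) (a (l 16780376) (b (a (b (l 16780056) (l 16780152)) (b (l 16779928) (l 16779992))) (a (l 16780248) (l 16780144))))) (l 16780600))) (a (l 16781552) (l 16781048))))), by decide +kernel⟩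

def k40_B00pm_102_s1 : ∃ t, chk3 f_B00pm_102_s1 t 247 122 1 = true :=
  ⟨(b (a (a (l 1076326927) (l 1075736591)) (a (l 1075684879) (l 1075635727))) (a (b (a (a (a (b (b (l 16779920) (b (l 16780016) (l 16780128))) (l 16780288)) (b (b (l 16779792) (l 16779920)) (b (b (l 16780064) (l 16780128)) (l 16780240)))) (a (b (l 16779736) (b (b (l 16779920) (l 16780008)) (l 16780120))) (b (l 16779608) (b (l 16779840) (b (l 16779944) (l 16780040)))))) (a (a (b (l 16779480) (b (l 16779712) (b (l 16779824) (l 16779888)))) (l 1075712015)) (l 1075693583))) (a (b (l 16780400) (l 16780696)) (a (b (b (a (l 16780032) (b (l 16779832) (l 16779944))) (l 16780096)) (l 16780320)) (b (a (b (l 16779736) (b (l 16779888) (l 16779944))) (b (l 16779640) (b (l 16779736) (l 16779832)))) (l 16780072))))) (a (a (b (l 1075670031) (b (l 16779520) (a (b (b (l 16779768) (l 16779864)) (l 16779968)) (b (b (l 16779656) (l 16779712)) (l 16779864))))) (b (l 1075646991) (b (l 16779288)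 (b (l 16779512) (a (b (l 16779664) (l 16779776)) (l 16779568)))))) (l 1075606031)))), by decide +kernel⟩

def k41_B00pm_102_s1 : ∃ t, chk3 f_B00pm_102_s1 t 123 123 1 = true :=
  ⟨(a (b (a (l 16783264) (b (l 16781928) (l 16782584))) (a (b (l 16784288) (l 16784928)) (l 16783624))) (b (a (b (c (l 16780992) (l 16780856)) (l 16781568)) (b (a (a (l 16780288) (a (l 16780104) (b (a (l 16779864) (b (l 16779736) (l 16779872))) (l 16780144)))) (a (a (b (b (b (l 16779568) (l 16779672)) (l 16779776)) (l 16780016)) (b (b (l 16779496) (b (l 16779616) (l 16779704))) (l 16779896))) (c (b (b (l 16779424) (l 16779536)) (b (a (l 16779808) (l 16779672)) (l 16779888))) (b (b (l 16779248) (a (l 16779416) (l 16779328))) (b (a (l 16779616) (c (l 16779528) (l 16779440))) (l 16779696)))))) (c (l 16780648) (a (l 16780752) (l 16780240))))) (a (b (l 16782248) (l 16782960)) (b (l 16781240) (l 16781944))))), by decide +kernel⟩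

def k42_B00pm_102_s1 : ∃ t, chk3 f_B00pm_102_s1 t 62 60 1 = true :=
  ⟨(l 3), by decide +kernel⟩

def k43_B00pm_102_s1 : ∃ t, chk3 f_B00pm_102_s1 t 124 122 1 = true :=
  ⟨(b (a (a (a (l 1075590159) (l 1075547663)) (l 3)) (l 3)) (a (c (a (l 1075626511) (l 1075562511)) (a (l 1075470863) (l 1075398159))) (a (a (l 1075435023) (l 3)) (l 3)))), by decide +kernel⟩

def k44_B00pm_102_s1 : ∃ t, chk3 f_B00pm_102_s1 t 124 123 1 = true :=
  ⟨(a (b (a (a (a (b (b (l 16779176) (a (b (l 16779424) (a (l 16779640) (l 16779600))) (b (l 16779336) (a (l 16779520) (l 16779432))))) (c (l 16780040) (l 16779864))) (b (b (l 16778960) (l 16779224)) (b (b (c (l 16779560) (a (l 16779448) (l 16779280))) (l 16779640)) (l 16779864)))) (b (l 1075523087) (b (a (b (l 16779232) (a (a (l 16779488) (l 16779400)) (l 16779296))) (l 16779088)) (b (c (a (l 16779672) (l 16779368)) (a (l 16779480) (a (l 16779256) (l 16779136)))) (a (l 16779704) (c (l 16779600) (a (l 16779424)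 (l 16779328)))))))) (a (a (a (b (l 1075504143) (b (l 16778928) (a (b (l 16779168) (l 16779296)) (l 16779152)))) (l 1075495951)) (l 1075485199)) (l 1075465743))) (a (b (c (l 16780336) (a (l 16780432) (l 16779920))) (l 16780952)) (a (a (b (b (a (l 16779544) (b (a (l 16779376) (l 16779288)) (l 16779488))) (l 16779808)) (l 16780328)) (b (b (a (b (l 16779184) (l 16779392)) (b (l 16779104) (a (l 16779288) (l 16779200)))) (l 16779560)) (l 16780080))) (a (b (b (a (l 16779048) (l 16778968)) (b (c (l 16779344) (a (l 16779224) (l 16779056))) (l 16779408))) (l 16779840)) (b (b (l 16778808) (b (l 16779016) (a (a (l 16779272) (l 16779192)) (l 16779080)))) (b (c (l 16779552) (l 16779368)) (l 16779768))))))) (b (c (a (l 1075522575) (l 1075490831)) (a (l 1075343887) (l 1075842063))) (a (b (l 1075447311) (a (a (b (c (b (l 16779168) (l 16779400)) (b (a (l 16779048) (l 16778928)) (l 16779208))) (l 16779520)) (a (b (c (l 16779064) (b (l 16778856) (l 16778968)))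 (l 16779352)) (b (l 16778912) (b (a (l 16779184) (l 16779104)) (l 16779304))))) (b (l 16778656) (a (a (b (l 16778992) (l 16779208)) (b (l 16778920) (l 16779064))) (c (l 16778896) (l 16778720)))))) (c (l 1075522575) (l 1075332111))))), by decide +kernel⟩

def k45_B00pm_102_s1 : ∃ t, chk3 f_B00pm_102_s1 t 125 61 1 = true :=
  ⟨(b (l 3) (b (l 3) (a (a (a (l 1075415055) (l 1075410959)) (a (l 1075408911) (l 3))) (l 3)))), by decide +kernel⟩

def k46_B00pm_102_s1 : ∃ t, chk3 f_B00pm_102_s1 t 63 30 1 = true :=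
  ⟨(l 3), by decide +kernel⟩

def k47_B00pm_102_s1 : ∃ t, chk3 f_B00pm_102_s1 t 30 31 1 = true :=
  ⟨(b (a (b (a (l 16783088) (l 16777088)) (a (b (l 16788048) (l 16812040)) (b (l 16781304) (b (l 16783984) (l 16806456))))) (a (b (b (a (l 16791968) (l 16788888)) (l 16772328)) (b (l 16796280) (a (l 16779864) (l 16797592)))) (b (a (b (b (a (l 16786048) (l 16784624)) (a (l 16787296) (l 16785920))) (l 16788664)) (b (a (b (l 16783704) (b (l 16784248) (l 16784672))) (l 16783056)) (b (a (l 16785776) (a (l 16784600) (l 16783904))) (l 16786376)))) (a (l 16772144) (b (l 16788496) (l 16791488)))))) (a (b (a (l 16774976) (l 16789520)) (b (a (l 16779496) (l 16794200)) (a (l 16821120) (l 16773800)))) (b (a (b (a (l 16804088) (l 16780128)) (l 16805720)) (b (a (b (l 16796848) (l 16798624)) (b (l 16793784) (l 16784824))) (a (l 16800928) (l 16797720)))) (a (b (l 16809024) (c (l 16788736) (l 16790056))) (b (l 16781584) (b (a (l 16785256) (l 16782128)) (l 16782928))))))),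 by decide +kernel⟩

def k48_B00pm_102_s1 : ∃ t, chk3 f_B00pm_102_s1 t 124 62 1 = true :=
  ⟨(b (a (b (a (b (l 16781680) (l 16782432)) (b (c (l 16780752) (l 16780624)) (l 16781432))) (a (b (l 16783216) (a (l 16784520) (l 16783760))) (b (l 16782208) (l 16782928)))) (b (a (b (a (l 16779944) (a (l 16779568) (b (b (a (l 16779144) (l 16778984)) (l 16779240)) (l 16779504)))) (c (l 16780512) (l 16780376))) (b (a (a (b (b (l 16778848) (a (l 16779072) (l 16778912))) (c (l 16779392) (l 16779208))) (b (l 16778720) (a (b (l 16778992) (l 16779168)) (b (l 16778864) (l 16779072))))) (a (a (b (l 16778576) (b (l 16778784) (l 16778912))) (l 1075455503)) (l 1075453967))) (a (c (l 16779776) (l 16779616)) (b (a (a (l 16779200) (b (l 16779000) (l 16779168))) (a (b (l 16778848) (l 16779064)) (b (l 16778776) (l 16778928)))) (l 16779384))))) (a (b (l 16781208) (l 16782000)) (b (c (l 16780280) (l 16780144)) (l 16780992))))) (a (b (a (l 16786200) (b (a (l 16784448)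 (l 16778440)) (l 16785408))) (l 16777912)) (b (a (b (a (l 16777752) (l 16782568)) (b (l 16778392) (l 16784280))) (b (l 16781808) (b (l 16782432) (a (l 16783200) (l 16782552))))) (a (l 16786112) (b (a (l 16784232) (l 16778352)) (l 16785336)))))), by decide +kernel⟩

def k49_B00pm_102_s1 : ∃ t, chk3 f_B00pm_102_s1 t 125 124 1 = true :=
  ⟨(a (b (a (b (l 1075986959) (a (a (b (a (l 16778712) (l 16778648)) (b (a (l 16779008) (l 16778848)) (l 16779104))) (b (l 16778496) (b (l 16778712) (a (l 16778944) (l 16778784))))) (l 1075478543))) (a (l 1075464719) (l 1075469839))) (a (b (b (a (c (l 16779392) (l 16779224)) (c (a (b (l 16778880) (l 16779112)) (b (l 16778688) (l 16778808))) (a (b (a (l 16778776) (l 16778648)) (l 16778936)) (b (l 16778528) (a (l 16778704) (l 16778624)))))) (a (l 16779648) (a (l 16779272) (a (l 16779088) (b (l 16778888) (l 16779056)))))) (c (l 16780056) (l 16779928))) (b (b (l 1075511823) (a (a (a (b (l 16778728) (l 16778952))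 (b (l 16778648) (l 16778808))) (c (l 16778616) (l 16778464))) (l 1075534351))) (a (a (l 16779352) (b (b (a (l 16778896) (l 16778736)) (l 16779000)) (l 16779296))) (a (b (b (l 16778600) (a (l 16778832) (l 16778672))) (l 16779080)) (b (l 16778472) (b (a (l 16778760) (l 16778624)) (l 16778920)))))))) (b (a (a (l 1075478031) (l 1075488271)) (l 3)) (a (a (b (l 1075535887) (a (a (b (l 16778312) (b (l 16778544) (l 16778688))) (l 1075573775)) (l 1075579407))) (l 1075566607)) (a (l 1075584015) (l 1075603471))))), by decide +kernel⟩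

def k50_B00pm_102_s1 : ∃ t, chk3 f_B00pm_102_s1 t 125 125 1 = true :=
  ⟨(a (b (b (a (l 16780792) (a (l 16780024) (c (l 16779584) (l 16779448)))) (a (l 16781616) (c (l 16780640) (l 16780552)))) (a (b (a (b (l 16782464) (l 16783160)) (b (l 16781992) (l 16782400))) (a (l 16784192) (l 16783504))) (b (l 16781432) (a (b (c (l 16782376) (l 16782376)) (l 16783048)) (b (l 16781816) (c (l 16782344) (l 16782344))))))) (b (a (b (a (b (b (a (c (l 16778944) (l 16778784)) (a (l 16778624) (l 16778544))) (a (l 16779024) (a (l 16778856) (l 16778712)))) (l 16779200)) (a (b (a (l 16778488) (l 16778408)) (b (a (l 16778800) (a (l 16778672) (l 16778600))) (l 16778912))) (b (l 16778248) (b (l 16778488) (c (a (l 16778808) (l 16778648)) (a (l 16778656) (l 16778496))))))) (a (l 16779808) (a (l 16779416) (a (l 16779224) (b (l 16778920) (l 14)))))) (a (b (l 1075655695) (a (b (b (a (a (l 16778696) (l 16778616)) (l 16778520)) (l 14)) (l 14)) (l 14))) (b (l 1075678735)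 (l 14)))) (a (a (b (l 16780648) (l 14)) (l 14)) (l 14)))), by decide +kernel⟩

def k51_B00pm_102_s1 : ∃ t, chk3 f_B00pm_102_s1 t 63 62 1 = true :=
  ⟨(b (l 3) (l 14)), by decide +kernel⟩

def k52_B00pm_102_s1 : ∃ t, chk3 f_B00pm_102_s1 t 31 63 1 = true :=
  ⟨(a (b (a (b (a (a (l 16792144) (l 16790664)) (a (l 16789128) (l 16787584))) (a (b (a (l 16794632) (l 16792976)) (l 16795344)) (b (a (l 16791336) (l 16789872)) (a (l 16793056) (l 16781008))))) (a (b (a (l 16775560) (c (l 16779208) (l 16784592))) (l 14)) (l 14))) (a (a (b (l 16797760) (b (l 16779000) (l 16799784))) (b (l 16784112) (l 14))) (l 14))) (l 14)), by decide +kernel⟩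

theorem t53_B00pm_102_s1 : ∃ t, chk3 f_B00pm_102_s1 t 125 62 1 = true := ex3_b k49_B00pm_102_s1 k50_B00pm_102_s1

theorem t54_B00pm_102_s1 : ∃ t, chk3 f_B00pm_102_s1 t 62 62 1 = true := ex3_a k48_B00pm_102_s1 t53_B00pm_102_s1

theorem t55_B00pm_102_s1 : ∃ t, chk3 f_B00pm_102_s1 t 31 62 1 = true := ex3_a t54_B00pm_102_s1 k51_B00pm_102_s1

theorem t56_B00pm_102_s1 : ∃ t, chk3 f_B00pm_102_s1 t 31 31 1 = true := ex3_b t55_B00pm_102_s1 k52_B00pm_102_s1

theorem t57_B00pm_102_s1 : ∃ t, chk3 f_B00pm_102_s1 t 15 31 1 = true := ex3_a k47_B00pm_102_s1 t56_B00pm_102_s1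

theorem t58_B00pm_102_s1 : ∃ t, chk3 f_B00pm_102_s1 t 124 61 1 = true := ex3_b k43_B00pm_102_s1 k44_B00pm_102_s1

theorem t59_B00pm_102_s1 : ∃ t, chk3 f_B00pm_102_s1 t 62 61 1 = true := ex3_a t58_B00pm_102_s1 k45_B00pm_102_s1

theorem t60_B00pm_102_s1 : ∃ t, chk3 f_B00pm_102_s1 t 62 30 1 = true := ex3_b k42_B00pm_102_s1 t59_B00pm_102_s1

theorem t61_B00pm_102_s1 : ∃ t, chk3 f_B00pm_102_s1 t 31 30 1 = true := ex3_a t60_B00pm_102_s1 k46_B00pm_102_s1

theorem t62_B00pm_102_s1 : ∃ t, chk3 f_B00pm_102_s1 t 123 122 1 = true := ex3_a k39_B00pm_102_s1 k40_B00pm_102_s1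

theorem t63_B00pm_102_s1 : ∃ t, chk3 f_B00pm_102_s1 t 123 61 1 = true := ex3_b t62_B00pm_102_s1 k41_B00pm_102_s1

theorem t64_B00pm_102_s1 : ∃ t, chk3 f_B00pm_102_s1 t 61 61 1 = true := ex3_a k38_B00pm_102_s1 t63_B00pm_102_s1

theorem t65_B00pm_102_s1 : ∃ t, chk3 f_B00pm_102_s1 t 122 121 1 = true := ex3_a k35_B00pm_102_s1 k36_B00pm_102_s1

theorem t66_B00pm_102_s1 : ∃ t, chk3 f_B00pm_102_s1 t 122 60 1 = true := ex3_b k34_B00pm_102_s1 t65_B00pm_102_s1

theorem t67_B00pm_102_s1 : ∃ t, chk3 f_B00pm_102_s1 t 61 60 1 = true := ex3_a t66_B00pm_102_s1 k37_B00pm_102_s1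

theorem t68_B00pm_102_s1 : ∃ t, chk3 f_B00pm_102_s1 t 61 30 1 = true := ex3_b t67_B00pm_102_s1 t64_B00pm_102_s1

theorem t69_B00pm_102_s1 : ∃ t, chk3 f_B00pm_102_s1 t 30 30 1 = true := ex3_a k33_B00pm_102_s1 t68_B00pm_102_s1

theorem t70_B00pm_102_s1 : ∃ t, chk3 f_B00pm_102_s1 t 15 30 1 = true := ex3_a t69_B00pm_102_s1 t61_B00pm_102_s1

theorem t71_B00pm_102_s1 : ∃ t, chk3 f_B00pm_102_s1 t 15 15 1 = true := ex3_b t70_B00pm_102_s1 t57_B00pm_102_s1

theorem t72_B00pm_102_s1 : ∃ t, chk3 f_B00pm_102_s1 t 7 15 1 = true := ex3_a k32_B00pm_102_s1 t71_B00pm_102_s1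

theorem t73_B00pm_102_s1 : ∃ t, chk3 f_B00pm_102_s1 t 30 29 1 = true := ex3_a k29_B00pm_102_s1 k30_B00pm_102_s1

theorem t74_B00pm_102_s1 : ∃ t, chk3 f_B00pm_102_s1 t 30 14 1 = true := ex3_b k28_B00pm_102_s1 t73_B00pm_102_s1

theorem t75_B00pm_102_s1 : ∃ t, chk3 f_B00pm_102_s1 t 15 14 1 = true := ex3_a t74_B00pm_102_s1 k31_B00pm_102_s1

theorem t76_B00pm_102_s1 : ∃ t, chk3 f_B00pm_102_s1 t 118 58 1 = true := ex3_b k24_B00pm_102_s1 k25_B00pm_102_s1

theorem t77_B00pm_102_s1 : ∃ t, chk3 f_B00pm_102_s1 t 59 58 1 = true := ex3_a t76_B00pm_102_s1 k26_B00pm_102_s1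

theorem t78_B00pm_102_s1 : ∃ t, chk3 f_B00pm_102_s1 t 29 58 1 = true := ex3_a k23_B00pm_102_s1 t77_B00pm_102_s1

theorem t79_B00pm_102_s1 : ∃ t, chk3 f_B00pm_102_s1 t 29 29 1 = true := ex3_b t78_B00pm_102_s1 k27_B00pm_102_s1

theorem t80_B00pm_102_s1 : ∃ t, chk3 f_B00pm_102_s1 t 29 28 1 = true := ex3_a k21_B00pm_102_s1 k22_B00pm_102_s1

theorem t81_B00pm_102_s1 : ∃ t, chk3 f_B00pm_102_s1 t 29 14 1 = true := ex3_b t80_B00pm_102_s1 t79_B00pm_102_s1

theorem t82_B00pm_102_s1 : ∃ t, chk3 f_B00pm_102_s1 t 14 14 1 = true := ex3_a k20_B00pm_102_s1 t81_B00pm_102_s1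

theorem t83_B00pm_102_s1 : ∃ t, chk3 f_B00pm_102_s1 t 7 14 1 = true := ex3_a t82_B00pm_102_s1 t75_B00pm_102_s1

theorem t84_B00pm_102_s1 : ∃ t, chk3 f_B00pm_102_s1 t 7 7 1 = true := ex3_b t83_B00pm_102_s1 t72_B00pm_102_s1

theorem t85_B00pm_102_s1 : ∃ t, chk3 f_B00pm_102_s1 t 7 3 1 = true := ex3_b k19_B00pm_102_s1 t84_B00pm_102_s1

theorem t86_B00pm_102_s1 : ∃ t, chk3 f_B00pm_102_s1 t 13 13 1 = true := ex3_a k16_B00pm_102_s1 k17_B00pm_102_s1

theorem t87_B00pm_102_s1 : ∃ t, chk3 f_B00pm_102_s1 t 26 25 1 = true := ex3_a k13_B00pm_102_s1 k14_B00pm_102_s1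

theorem t88_B00pm_102_s1 : ∃ t, chk3 f_B00pm_102_s1 t 26 12 1 = true := ex3_b k12_B00pm_102_s1 t87_B00pm_102_s1

theorem t89_B00pm_102_s1 : ∃ t, chk3 f_B00pm_102_s1 t 13 12 1 = true := ex3_a t88_B00pm_102_s1 k15_B00pm_102_s1

theorem t90_B00pm_102_s1 : ∃ t, chk3 f_B00pm_102_s1 t 13 6 1 = true := ex3_b t89_B00pm_102_s1 t86_B00pm_102_s1

theorem t91_B00pm_102_s1 : ∃ t, chk3 f_B00pm_102_s1 t 6 6 1 = true := ex3_a k11_B00pm_102_s1 t90_B00pm_102_s1

theorem t92_B00pm_102_s1 : ∃ t, chk3 f_B00pm_102_s1 t 6 3 1 = true := ex3_b t91_B00pm_102_s1 k18_B00pm_102_s1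

theorem t93_B00pm_102_s1 : ∃ t, chk3 f_B00pm_102_s1 t 3 3 1 = true := ex3_a t92_B00pm_102_s1 t85_B00pm_102_s1

theorem t94_B00pm_102_s1 : ∃ t, chk3 f_B00pm_102_s1 t 3 1 1 = true := ex3_b k10_B00pm_102_s1 t93_B00pm_102_s1

theorem t95_B00pm_102_s1 : ∃ t, chk3 f_B00pm_102_s1 t 22 10 1 = true := ex3_b k5_B00pm_102_s1 k6_B00pm_102_s1

theorem t96_B00pm_102_s1 : ∃ t, chk3 f_B00pm_102_s1 t 11 10 1 = true := ex3_a t95_B00pm_102_s1 k7_B00pm_102_s1

theorem t97_B00pm_102_s1 : ∃ t, chk3 f_B00pm_102_s1 t 11 5 1 = true := ex3_b t96_B00pm_102_s1 k8_B00pm_102_s1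

theorem t98_B00pm_102_s1 : ∃ t, chk3 f_B00pm_102_s1 t 10 10 1 = true := ex3_a k2_B00pm_102_s1 k3_B00pm_102_s1

theorem t99_B00pm_102_s1 : ∃ t, chk3 f_B00pm_102_s1 t 10 5 1 = true := ex3_b t98_B00pm_102_s1 k4_B00pm_102_s1

theorem t100_B00pm_102_s1 : ∃ t, chk3 f_B00pm_102_s1 t 5 5 1 = true := ex3_a t99_B00pm_102_s1 t97_B00pm_102_s1

theorem t101_B00pm_102_s1 : ∃ t, chk3 f_B00pm_102_s1 t 5 2 1 = true := ex3_b k1_B00pm_102_s1 t100_B00pm_102_s1

theorem t102_B00pm_102_s1 : ∃ t, chk3 f_B00pm_102_s1 t 2 2 1 = true := ex3_a k0_B00pm_102_s1 t101_B00pm_102_s1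

theorem t103_B00pm_102_s1 : ∃ t, chk3 f_B00pm_102_s1 t 2 1 1 = true := ex3_b t102_B00pm_102_s1 k9_B00pm_102_s1

theorem t104_B00pm_102_s1 : ∃ t, chk3 f_B00pm_102_s1 t 1 1 1 = true := ex3_a t103_B00pm_102_s1 t94_B00pm_102_s1

theorem c_B00pm_102_s1 : CertF 536870912 536870912 0 536870912 697932185 42949674 false true false .npp 1 0 2
    ndB0q1 ndB0q2 pcB0 cut_B00pm_102_s1 xt_B00pm_102_s1 :=
  certF0 (fam := false) (s1 := true) (s2 := false) (a := 1) (b := 0) (c := 2) (cn := .npp) (n1 := ndB0q1) (n2 := ndB0q2) (pc := pcB0) (cut := cut_B00pm_102_s1) (xt := xt_B00pm_102_s1) (P1 := 536870912) (W1 := 536870912) (P2 := 0) (W2 := 536870912) (P3 := 697932185) (W3 := 42949674)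
    rfl t104_B00pm_102_s1

theorem s_B00pm_102_s1 {κ x : ℝ} (hκ : κ * h0 = ken x) (hx : ((697932185 : ℕ) : ℝ) / S ≤ x)
    (hx' : x ≤ (((697932185 : ℕ) : ℝ) + (42949674 : ℕ)) / S)
    (H : CutB (VFD κ) PP tK tL pcB (Cut.of [[⟨0, 1, 0, 33554432⟩, ⟨1, 0, 0, 33554432⟩, ⟨2, 1, 0, 33554432⟩], [⟨0, 0, 1, 20971520⟩, ⟨1, 1, 2, 20971520⟩, ⟨2, 1, 0, 33554432⟩]]) 1 0 2 0 0 (sgb true) (sgb false) x) :
    AltB (VFD κ) PP tK tL pcB [⟨3, 0, 0, 1449551462⟩] 1 0 2 0 0 (sgb true) (sgb false) x :=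
  strip_altBD (m := 1449551462) true rfl hκ (SH.κ0 hκ (SH.hx1 hx).le (SH.hx2 hx').le) (SH.hx1 hx).le (SH.hx2 hx') (covB01).cov (covB02).cov hx hx' c_B00pm_102_s1 H ((okx6 hx hx').extB (T := tt) (okx hx hx') (sideB hx hx') hκ rfl rfl (.O 1 true) (.O 2 false) (Or.inl rfl))

noncomputable def cut_B00pm_102_s3 : Cut := Cut.of [[⟨3, 0, 0, 2845415833⟩], [⟨0, 1, 0, 33554432⟩, ⟨1, 0, 0, 33554432⟩, ⟨2, 1, 0, 33554432⟩], [⟨0, 0, 1, 20971520⟩, ⟨1, 1, 2, 20971520⟩, ⟨2, 1, 0, 33554432⟩]]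

noncomputable def f_B00pm_102_s3 : ℕ → ℕ → ℕ → ℕ → Bool := onCell 536870912 536870912 0 536870912 697932185 42949674
    (rowF 0 false true false .npp 1 0 2 (qsf 536870912 536870912 0 536870912 0) ndB0q1 ndB0q2 pcB0 cut_B00pm_102_s3 Ext.none)

def k0_B00pm_102_s3 : ∃ t, chk3 f_B00pm_102_s3 t 1 1 1 = true :=
  ⟨(l 6), by decide +kernel⟩

theorem c_B00pm_102_s3 : CertF 536870912 536870912 0 536870912 697932185 42949674 false true false .npp 1 0 2
    ndB0q1 ndB0q2 pcB0 cut_B00pm_102_s3 Ext.none :=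
  certF0 (fam := false) (s1 := true) (s2 := false) (a := 1) (b := 0) (c := 2) (cn := .npp) (n1 := ndB0q1) (n2 := ndB0q2) (pc := pcB0) (cut := cut_B00pm_102_s3) (xt := Ext.none) (P1 := 536870912) (W1 := 536870912) (P2 := 0) (W2 := 536870912) (P3 := 697932185) (W3 := 42949674)
    rfl k0_B00pm_102_s3

theorem s_B00pm_102_s3 {κ x : ℝ} (hκ : κ * h0 = ken x) (hx : ((697932185 : ℕ) : ℝ) / S ≤ x)
    (hx' : x ≤ (((697932185 : ℕ) : ℝ) + (42949674 : ℕ)) / S)
    (H : CutB (VFD κ) PP tK tL pcB (Cut.of [[⟨0, 1, 0, 33554432⟩, ⟨1, 0, 0, 33554432⟩, ⟨2, 1, 0, 33554432⟩], [⟨0, 0, 1, 20971520⟩, ⟨1, 1, 2, 20971520⟩, ⟨2, 1, 0, 33554432⟩]]) 1 0 2 0 0 (sgb true) (sgb false) x) :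
    AltB (VFD κ) PP tK tL pcB [⟨4, 0, 0, 2845415833⟩] 1 0 2 0 0 (sgb true) (sgb false) x :=
  strip_altBD (m := 2845415833) false rfl hκ (SH.κ0 hκ (SH.hx1 hx).le (SH.hx2 hx').le) (SH.hx1 hx).le (SH.hx2 hx') (covB01).cov (covB02).cov hx hx' c_B00pm_102_s3 H (noExt_B)

noncomputable def cut_B00pm_112_s1 : Cut := Cut.of [[⟨4, 0, 0, 1449551462⟩]]

noncomputable def xt_B00pm_112_s1 : Ext := strExt6 dd false true false .u0 .u2 .u0m .dn 1 1 2 rfl rfl gf1 vv ww ndB0q1 ndB0q2

noncomputable def f_B00pm_112_s1 : ℕ → ℕ → ℕ → ℕ → Bool := onCell 536870912 536870912 0 536870912 697932185 42949674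
    (rowF 2 false true false .dn 1 1 2 (qsf 536870912 536870912 0 536870912 1) ndB0q1 ndB0q2 pcB1 cut_B00pm_112_s1 xt_B00pm_112_s1)

def k0_B00pm_112_s1 : ∃ t, chk3 f_B00pm_112_s1 t 8 4 1 = true :=
  ⟨(b (a (b (l 3) (b (a (l 3) (a (l 3) (l 1068889103))) (b (a (l 3) (a (c (l 1068236303) (l 1068014095)) (c (l 1068434447) (l 1068207631)))) (a (a (l 3) (l 1067835407)) (a (l 1068071439) (c (l 1068370447) (l 1068165647))))))) (b (a (b (l 3) (l 1068421647)) (b (l 1068522511) (l 1068569103))) (b (a (l 1068459535) (l 1068611599)) (a (b (l 1068479503) (a (l 1068414991) (l 1068520975))) (l 1068642319))))) (a (b (b (a (a (l 1067480591) (l 1067749903)) (a (c (l 1068069391) (l 1067903503)) (c (l 1068275727) (l 1068102671)))) (a (a (c (l 1067426319) (l 1067308559)) (l 1067632143)) (a (l 1067868175) (l 1068073999)))) (b (a (a (b (l 1067280399) (c (l 1067265551) (l 1067202063))) (b (l 1067543055) (a (l 16737232) (l 16734280)))) (a (b (l 16748760) (b (a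 (l 16733528) (l 16730744)) (a (l 16729400) (l 16726728)))) (b (b (l 16745152) (a (l 16732072) (l 16729496))) (l 16724816)))) (a (a (b (a (l 1067152399) (a (l 16732440) (b (l 16733088) (l 16728760)))) (b (a (a (l 16728928) (b (l 16728536) (l 16726376))) (b (a (l 16727048) (l 16725648)) (l 16724232))) (a (a (b (l 16725704) (l 16723552)) (l 16723184)) (l 16721064)))) (b (a (b (l 16730832) (a (l 16727376) (l 16726000))) (a (b (l 16728720) (l 16724568)) (l 16725336))) (l 16719008))) (a (a (l 16719120) (l 16716504)) (l 16712664))))) (b (b (a (a (l 1068348431) (l 1068471823)) (a (b (l 16745392) (l 16759488)) (b (l 16739768) (l 16743872)))) (a (a (b (l 16742544) (b (l 16736952) (l 16743688))) (b (a (l 16738416) (l 16735648)) (b (l 16731728) (l 16727896)))) (b (a (b (l 16733552) (l 16729968)) (l 16726344)) (l 16721832)))) (b (a (b (a (b (l 16729480) (l 16725464)) (l 16722176)) (l 16716968)) (l 16721120)) (a (a (l 16707648) (l 16702728)) (l 16695456)))))),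 by decide +kernel⟩

def k1_B00pm_112_s1 : ∃ t, chk3 f_B00pm_112_s1 t 9 4 1 = true :=
  ⟨(b (b (a (b (a (l 1068606991) (l 1068637199)) (a (l 1068658703) (l 1068695567))) (b (a (l 1068623375) (a (l 16744600) (l 16759248))) (a (a (l 16744776) (b (l 16741848) (l 16735864))) (a (b (l 16735728) (l 16730384)) (l 16748368))))) (a (b (a (l 1068707855) (a (l 16744624) (b (l 16741856) (l 16735896)))) (a (b (l 16765120) (a (l 16740720) (l 16756264))) (b (a (l 16735720) (l 16730184)) (l 16726912)))) (b (a (a (b (l 16756880) (l 16730376)) (l 16748552)) (l 16718480)) (a (l 16718400) (l 16706840))))) (a (b (b (a (b (a (l 16755496) (l 16728920)) (l 16725088)) (l 16717352)) (a (l 16714824) (l 16704144))) (a (b (l 16700480) (l 16685832)) (b (l 16690264) (l 16676136)))) (b (a (c (l 16701456) (l 16698192)) (l 16730616)) (a (l 16694120) (l 16704760))))), by decide +kernel⟩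

def k2_B00pm_112_s1 : ∃ t, chk3 f_B00pm_112_s1 t 4 5 1 = true :=
  ⟨(a (b (a (b (b (a (b (a (a (l 16717504) (l 16714712)) (l 16710648)) (a (a (l 16708944) (l 16706208)) (l 16702264))) (a (c (l 16701632) (l 16701144)) (l 16696536))) (a (b (a (a (l 16700336) (l 16697680)) (l 16693872)) (a (a (l 16691696) (l 16689120)) (l 16685448))) (a (a (l 16686056) (l 16683752)) (l 16680360)))) (a (a (b (a (b (l 16683144) (l 16674744)) (b (l 16680664) (l 16672360))) (b (l 16670576) (l 16657272))) (b (a (l 16674152) (l 16671904)) (a (l 16658032) (l 16655976)))) (b (a (l 16668648) (l 16664424)) (a (l 16652976) (l 16649088))))) (b (a (b (a (l 16691808) (l 16687168)) (l 16694736)) (b (l 16680320) (l 16665208))) (a (b (l 16658312) (a (l 16645296) (b (l 16645248) (l 16638024)))) (b (l 16650352) (a (l 16658952) (l 16634480)))))) (a (b (b (a (a (b (l 16649328) (l 16641520)) (b (l 16645360) (l 16637744))) (b (a (l 16641592) (l 16637928)) (a (l 16634160) (l 16630744))))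 (a (a (b (b (l 16635488) (l 16631160)) (l 16624184)) (b (l 16650776) (l 16620864))) (l 16620568))) (a (b (a (l 16608544) (l 16605624)) (l 16582864)) (b (l 16601520) (l 6)))) (b (b (a (a (b (l 16634472) (l 16627368)) (l 16627624)) (l 16622640)) (a (l 16614432) (l 6))) (l 6)))) (b (a (b (a (b (l 16671256) (l 16656728)) (b (l 16662104) (l 16668872))) (b (a (a (l 16644328) (l 16640528)) (l 16634752)) (a (l 16628896) (l 16621456)))) (b (b (a (l 16652688) (l 16643032)) (a (l 16681456) (l 16630216))) (a (l 16619912) (l 6)))) (b (l 6) (l 6)))), by decide +kernel⟩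

def k3_B00pm_112_s1 : ∃ t, chk3 f_B00pm_112_s1 t 5 2 1 = true :=
  ⟨(a (b (b (a (a (b (b (a (a (l 16754744) (l 16730936)) (l 16747560)) (l 16717896)) (l 16742728)) (b (l 16711200) (l 16688672))) (l 1)) (b (a (a (l 16677264) (l 16665640)) (l 1)) (a (b (a (l 16658488) (l 16647168)) (a (l 16645416) (l 16635328))) (l 1)))) (b (a (b (b (a (l 16633480) (l 6)) (l 6)) (l 6)) (l 1)) (l 6))) (l 1)), by decide +kernel⟩

def k4_B00pm_112_s1 : ∃ t, chk3 f_B00pm_112_s1 t 2 3 1 = true :=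
  ⟨(a (b (l 6) (l 6)) (l 6)), by decide +kernel⟩

def k5_B00pm_112_s1 : ∃ t, chk3 f_B00pm_112_s1 t 3 1 1 = true :=
  ⟨(l 1), by decide +kernel⟩

theorem t6_B00pm_112_s1 : ∃ t, chk3 f_B00pm_112_s1 t 4 4 1 = true := ex3_a k0_B00pm_112_s1 k1_B00pm_112_s1

theorem t7_B00pm_112_s1 : ∃ t, chk3 f_B00pm_112_s1 t 4 2 1 = true := ex3_b t6_B00pm_112_s1 k2_B00pm_112_s1

theorem t8_B00pm_112_s1 : ∃ t, chk3 f_B00pm_112_s1 t 2 2 1 = true := ex3_a t7_B00pm_112_s1 k3_B00pm_112_s1

theorem t9_B00pm_112_s1 : ∃ t, chk3 f_B00pm_112_s1 t 2 1 1 = true := ex3_b t8_B00pm_112_s1 k4_B00pm_112_s1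

theorem t10_B00pm_112_s1 : ∃ t, chk3 f_B00pm_112_s1 t 1 1 1 = true := ex3_a t9_B00pm_112_s1 k5_B00pm_112_s1

theorem c_B00pm_112_s1 : CertF 536870912 536870912 0 536870912 697932185 42949674 false true false .dn 1 1 2
    ndB0q1 ndB0q2 pcB1 cut_B00pm_112_s1 xt_B00pm_112_s1 :=
  certF2 (fam := false) (s1 := true) (s2 := false) (a := 1) (b := 1) (c := 2) (cn := .dn) (n1 := ndB0q1) (n2 := ndB0q2) (pc := pcB1) (cut := cut_B00pm_112_s1) (xt := xt_B00pm_112_s1) (P1 := 536870912) (W1 := 536870912) (P2 := 0) (W2 := 536870912) (P3 := 697932185) (W3 := 42949674)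
    rfl (fun _ => rfl) t10_B00pm_112_s1

theorem s_B00pm_112_s1 {κ x : ℝ} (hκ : κ * h0 = ken x) (hx : ((697932185 : ℕ) : ℝ) / S ≤ x)
    (hx' : x ≤ (((697932185 : ℕ) : ℝ) + (42949674 : ℕ)) / S) :
    AltB (VFD κ) PP tK tL pcB [⟨3, 0, 0, 1449551462⟩] 1 1 2 0 0 (sgb true) (sgb false) x :=
  strip_altBD (m := 1449551462) true rfl hκ (SH.κ0 hκ (SH.hx1 hx).le (SH.hx2 hx').le) (SH.hx1 hx).le (SH.hx2 hx') (covB01).cov (covB02).cov hx hx' c_B00pm_112_s1 cutB_nil ((okx6 hx hx').extB (T := tt) (okx hx hx') (sideB hx hx') hκ rfl rfl (.O 1 true) (.O 2 false) (Or.inr rfl))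

noncomputable def cut_B00pm_112_s3 : Cut := Cut.of [[⟨3, 0, 0, 2845415833⟩]]

noncomputable def f_B00pm_112_s3 : ℕ → ℕ → ℕ → ℕ → Bool := onCell 536870912 536870912 0 536870912 697932185 42949674
    (rowF 0 false true false .dn 1 1 2 (qsf 536870912 536870912 0 536870912 1) ndB0q1 ndB0q2 pcB1 cut_B00pm_112_s3 Ext.none)

def k0_B00pm_112_s3 : ∃ t, chk3 f_B00pm_112_s3 t 1 1 1 = true :=
  ⟨(l 6), by decide +kernel⟩

theorem c_B00pm_112_s3 : CertF 536870912 536870912 0 536870912 697932185 42949674 false true false .dn 1 1 2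
    ndB0q1 ndB0q2 pcB1 cut_B00pm_112_s3 Ext.none :=
  certF0 (fam := false) (s1 := true) (s2 := false) (a := 1) (b := 1) (c := 2) (cn := .dn) (n1 := ndB0q1) (n2 := ndB0q2) (pc := pcB1) (cut := cut_B00pm_112_s3) (xt := Ext.none) (P1 := 536870912) (W1 := 536870912) (P2 := 0) (W2 := 536870912) (P3 := 697932185) (W3 := 42949674)
    rfl k0_B00pm_112_s3

theorem s_B00pm_112_s3 {κ x : ℝ} (hκ : κ * h0 = ken x) (hx : ((697932185 : ℕ) : ℝ) / S ≤ x)
    (hx' : x ≤ (((697932185 : ℕ) : ℝ) + (42949674 : ℕ)) / S) :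
    AltB (VFD κ) PP tK tL pcB [⟨4, 0, 0, 2845415833⟩] 1 1 2 0 0 (sgb true) (sgb false) x :=
  strip_altBD (m := 2845415833) false rfl hκ (SH.κ0 hκ (SH.hx1 hx).le (SH.hx2 hx').le) (SH.hx1 hx).le (SH.hx2 hx') (covB01).cov (covB02).cov hx hx' c_B00pm_112_s3 cutB_nil (noExt_B)

noncomputable def cut_B00pm_202_s1 : Cut := Cut.of [[⟨4, 0, 0, 1449551462⟩], [⟨0, 1, 0, 67108864⟩, ⟨1, 0, 0, 67108864⟩, ⟨2, 1, 0, 67108864⟩]]

noncomputable def f_B00pm_202_s1 : ℕ → ℕ → ℕ → ℕ → Bool := onCell 0 536870912 0 536870912 697932185 42949674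
    (rowF 0 false true false .pp 2 0 2 (qsf 0 536870912 0 536870912 0) ndB0q2 ndB0q2 pcB0 cut_B00pm_202_s1 Ext.none)

def k0_B00pm_202_s1 : ∃ t, chk3 f_B00pm_202_s1 t 1 1 1 = true :=
  ⟨(a (l 3) (b (l 3) (b (l 3) (a (l 3) (b (l 3) (a (l 3) (l 14))))))), by decide +kernel⟩

theorem c_B00pm_202_s1 : CertF 0 536870912 0 536870912 697932185 42949674 false true false .pp 2 0 2
    ndB0q2 ndB0q2 pcB0 cut_B00pm_202_s1 Ext.none :=
  certF0 (fam := false) (s1 := true) (s2 := false) (a := 2) (b := 0) (c := 2) (cn := .pp) (n1 := ndB0q2) (n2 := ndB0q2) (pc := pcB0) (cut := cut_B00pm_202_s1) (xt := Ext.none) (P1 := 0) (W1 := 536870912) (P2 := 0) (W2 := 536870912) (P3 := 697932185) (W3 := 42949674)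
    rfl k0_B00pm_202_s1

theorem s_B00pm_202_s1 {κ x : ℝ} (hκ : κ * h0 = ken x) (hx : ((697932185 : ℕ) : ℝ) / S ≤ x)
    (hx' : x ≤ (((697932185 : ℕ) : ℝ) + (42949674 : ℕ)) / S)
    (H : CutB (VFD κ) PP tK tL pcB (Cut.of [[⟨0, 1, 0, 67108864⟩, ⟨1, 0, 0, 67108864⟩, ⟨2, 1, 0, 67108864⟩]]) 2 0 2 0 0 (sgb true) (sgb false) x) :
    AltB (VFD κ) PP tK tL pcB [⟨3, 0, 0, 1449551462⟩] 2 0 2 0 0 (sgb true) (sgb false) x :=
  strip_altBD (m := 1449551462) true rfl hκ (SH.κ0 hκ (SH.hx1 hx).le (SH.hx2 hx').le) (SH.hx1 hx).le (SH.hx2 hx') (covB02).cov (covB02).cov hx hx' c_B00pm_202_s1 H (noExt_B)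

noncomputable def cut_B00pm_202_s3 : Cut := Cut.of [[⟨3, 0, 0, 2845415833⟩], [⟨0, 1, 0, 67108864⟩, ⟨1, 0, 0, 67108864⟩, ⟨2, 1, 0, 67108864⟩]]

noncomputable def f_B00pm_202_s3 : ℕ → ℕ → ℕ → ℕ → Bool := onCell 0 536870912 0 536870912 697932185 42949674
    (rowF 0 false true false .pp 2 0 2 (qsf 0 536870912 0 536870912 0) ndB0q2 ndB0q2 pcB0 cut_B00pm_202_s3 Ext.none)

def k0_B00pm_202_s3 : ∃ t, chk3 f_B00pm_202_s3 t 1 1 1 = true :=
  ⟨(l 6), by decide +kernel⟩

theorem c_B00pm_202_s3 : CertF 0 536870912 0 536870912 697932185 42949674 false true false .pp 2 0 2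
    ndB0q2 ndB0q2 pcB0 cut_B00pm_202_s3 Ext.none :=
  certF0 (fam := false) (s1 := true) (s2 := false) (a := 2) (b := 0) (c := 2) (cn := .pp) (n1 := ndB0q2) (n2 := ndB0q2) (pc := pcB0) (cut := cut_B00pm_202_s3) (xt := Ext.none) (P1 := 0) (W1 := 536870912) (P2 := 0) (W2 := 536870912) (P3 := 697932185) (W3 := 42949674)
    rfl k0_B00pm_202_s3

theorem s_B00pm_202_s3 {κ x : ℝ} (hκ : κ * h0 = ken x) (hx : ((697932185 : ℕ) : ℝ) / S ≤ x)
    (hx' : x ≤ (((697932185 : ℕ) : ℝ) + (42949674 : ℕ)) / S)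
    (H : CutB (VFD κ) PP tK tL pcB (Cut.of [[⟨0, 1, 0, 67108864⟩, ⟨1, 0, 0, 67108864⟩, ⟨2, 1, 0, 67108864⟩]]) 2 0 2 0 0 (sgb true) (sgb false) x) :
    AltB (VFD κ) PP tK tL pcB [⟨4, 0, 0, 2845415833⟩] 2 0 2 0 0 (sgb true) (sgb false) x :=
  strip_altBD (m := 2845415833) false rfl hκ (SH.κ0 hκ (SH.hx1 hx).le (SH.hx2 hx').le) (SH.hx1 hx).le (SH.hx2 hx') (covB02).cov (covB02).cov hx hx' c_B00pm_202_s3 H (noExt_B)

noncomputable def cut_B00mm_001_s1 : Cut := Cut.of [[⟨4, 0, 0, 1449551462⟩]]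

noncomputable def f_B00mm_001_s1 : ℕ → ℕ → ℕ → ℕ → Bool := onCell 0 536870912 0 536870912 697932185 42949674
    (rowF 1 false false false .up 0 0 1 (qsf 0 536870912 536870912 536870912 0) ndB0q0 ndB0q1 pcB0 cut_B00mm_001_s1 Ext.none)

def k0_B00mm_001_s1 : ∃ t, chk3 f_B00mm_001_s1 t 1 1 1 = true :=
  ⟨(l 3), by decide +kernel⟩

theorem c_B00mm_001_s1 : CertF 0 536870912 536870912 536870912 697932185 42949674 false false false .up 0 0 1
    ndB0q0 ndB0q1 pcB0 cut_B00mm_001_s1 Ext.none :=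
  certF1 (fam := false) (s1 := false) (s2 := false) (a := 0) (b := 0) (c := 1) (cn := .up) (n1 := ndB0q0) (n2 := ndB0q1) (pc := pcB0) (cut := cut_B00mm_001_s1) (xt := Ext.none) (P1 := 0) (W1 := 536870912) (P2 := 536870912) (W2 := 536870912) (P3 := 697932185) (W3 := 42949674)
    rfl (fun _ => rfl) k0_B00mm_001_s1

theorem s_B00mm_001_s1 {κ x : ℝ} (hκ : κ * h0 = ken x) (hx : ((697932185 : ℕ) : ℝ) / S ≤ x)
    (hx' : x ≤ (((697932185 : ℕ) : ℝ) + (42949674 : ℕ)) / S) :
    AltB (VFD κ) PP tK tL pcB [⟨3, 0, 0, 1449551462⟩] 0 0 1 0 0 (sgb false) (sgb false) x :=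
  strip_altBD (m := 1449551462) true rfl hκ (SH.κ0 hκ (SH.hx1 hx).le (SH.hx2 hx').le) (SH.hx1 hx).le (SH.hx2 hx') (covB00).cov (covB01).cov hx hx' c_B00mm_001_s1 cutB_nil (noExt_B)

noncomputable def cut_B00mm_001_s3 : Cut := Cut.of [[⟨3, 0, 0, 2845415833⟩]]

noncomputable def f_B00mm_001_s3 : ℕ → ℕ → ℕ → ℕ → Bool := onCell 0 536870912 536870912 536870912 697932185 42949674
    (rowF 0 false false false .up 0 0 1 (qsf 0 536870912 536870912 536870912 0) ndB0q0 ndB0q1 pcB0 cut_B00mm_001_s3 Ext.none)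

def k0_B00mm_001_s3 : ∃ t, chk3 f_B00mm_001_s3 t 1 1 1 = true :=
  ⟨(l 6), by decide +kernel⟩

theorem c_B00mm_001_s3 : CertF 0 536870912 536870912 536870912 697932185 42949674 false false false .up 0 0 1
    ndB0q0 ndB0q1 pcB0 cut_B00mm_001_s3 Ext.none :=
  certF0 (fam := false) (s1 := false) (s2 := false) (a := 0) (b := 0) (c := 1) (cn := .up) (n1 := ndB0q0) (n2 := ndB0q1) (pc := pcB0) (cut := cut_B00mm_001_s3) (xt := Ext.none) (P1 := 0) (W1 := 536870912) (P2 := 536870912) (W2 := 536870912) (P3 := 697932185) (W3 := 42949674)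
    rfl k0_B00mm_001_s3

theorem s_B00mm_001_s3 {κ x : ℝ} (hκ : κ * h0 = ken x) (hx : ((697932185 : ℕ) : ℝ) / S ≤ x)
    (hx' : x ≤ (((697932185 : ℕ) : ℝ) + (42949674 : ℕ)) / S) :
    AltB (VFD κ) PP tK tL pcB [⟨4, 0, 0, 2845415833⟩] 0 0 1 0 0 (sgb false) (sgb false) x :=
  strip_altBD (m := 2845415833) false rfl hκ (SH.κ0 hκ (SH.hx1 hx).le (SH.hx2 hx').le) (SH.hx1 hx).le (SH.hx2 hx') (covB00).cov (covB01).cov hx hx' c_B00mm_001_s3 cutB_nil (noExt_B)

noncomputable def cut_B00mm_011_s1 : Cut := Cut.of [[⟨4, 0, 0, 1449551462⟩]]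

noncomputable def f_B00mm_011_s1 : ℕ → ℕ → ℕ → ℕ → Bool := onCell 0 536870912 536870912 536870912 697932185 42949674
    (rowF 1 false false false .pnn 0 1 1 (qsf 0 536870912 536870912 536870912 1) ndB0q0 ndB0q1 pcB1 cut_B00mm_011_s1 Ext.none)

def k0_B00mm_011_s1 : ∃ t, chk3 f_B00mm_011_s1 t 1 1 1 = true :=
  ⟨(l 5), by decide +kernel⟩

theorem c_B00mm_011_s1 : CertF 0 536870912 536870912 536870912 697932185 42949674 false false false .pnn 0 1 1
    ndB0q0 ndB0q1 pcB1 cut_B00mm_011_s1 Ext.none :=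
  certF1 (fam := false) (s1 := false) (s2 := false) (a := 0) (b := 1) (c := 1) (cn := .pnn) (n1 := ndB0q0) (n2 := ndB0q1) (pc := pcB1) (cut := cut_B00mm_011_s1) (xt := Ext.none) (P1 := 0) (W1 := 536870912) (P2 := 536870912) (W2 := 536870912) (P3 := 697932185) (W3 := 42949674)
    rfl (fun _ => rfl) k0_B00mm_011_s1

theorem s_B00mm_011_s1 {κ x : ℝ} (hκ : κ * h0 = ken x) (hx : ((697932185 : ℕ) : ℝ) / S ≤ x)
    (hx' : x ≤ (((697932185 : ℕ) : ℝ) + (42949674 : ℕ)) / S) :
    AltB (VFD κ) PP tK tL pcB [⟨3, 0, 0, 1449551462⟩] 0 1 1 0 0 (sgb false) (sgb false) x :=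
  strip_altBD (m := 1449551462) true rfl hκ (SH.κ0 hκ (SH.hx1 hx).le (SH.hx2 hx').le) (SH.hx1 hx).le (SH.hx2 hx') (covB00).cov (covB01).cov hx hx' c_B00mm_011_s1 cutB_nil (noExt_B)

noncomputable def cut_B00mm_011_s3 : Cut := Cut.of [[⟨3, 0, 0, 2845415833⟩]]

noncomputable def f_B00mm_011_s3 : ℕ → ℕ → ℕ → ℕ → Bool := onCell 0 536870912 536870912 536870912 697932185 42949674
    (rowF 0 false false false .pnn 0 1 1 (qsf 0 536870912 536870912 536870912 1) ndB0q0 ndB0q1 pcB1 cut_B00mm_011_s3 Ext.none)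

def k0_B00mm_011_s3 : ∃ t, chk3 f_B00mm_011_s3 t 1 1 1 = true :=
  ⟨(l 6), by decide +kernel⟩

theorem c_B00mm_011_s3 : CertF 0 536870912 536870912 536870912 697932185 42949674 false false false .pnn 0 1 1
    ndB0q0 ndB0q1 pcB1 cut_B00mm_011_s3 Ext.none :=
  certF0 (fam := false) (s1 := false) (s2 := false) (a := 0) (b := 1) (c := 1) (cn := .pnn) (n1 := ndB0q0) (n2 := ndB0q1) (pc := pcB1) (cut := cut_B00mm_011_s3) (xt := Ext.none) (P1 := 0) (W1 := 536870912) (P2 := 536870912) (W2 := 536870912) (P3 := 697932185) (W3 := 42949674)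
    rfl k0_B00mm_011_s3

theorem s_B00mm_011_s3 {κ x : ℝ} (hκ : κ * h0 = ken x) (hx : ((697932185 : ℕ) : ℝ) / S ≤ x)
    (hx' : x ≤ (((697932185 : ℕ) : ℝ) + (42949674 : ℕ)) / S) :
    AltB (VFD κ) PP tK tL pcB [⟨4, 0, 0, 2845415833⟩] 0 1 1 0 0 (sgb false) (sgb false) x :=
  strip_altBD (m := 2845415833) false rfl hκ (SH.κ0 hκ (SH.hx1 hx).le (SH.hx2 hx').le) (SH.hx1 hx).le (SH.hx2 hx') (covB00).cov (covB01).cov hx hx' c_B00mm_011_s3 cutB_nil (noExt_B)

noncomputable def cut_B00mm_012_s1 : Cut := Cut.of [[⟨4, 0, 0, 1449551462⟩]]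

noncomputable def f_B00mm_012_s1 : ℕ → ℕ → ℕ → ℕ → Bool := onCell 0 536870912 0 536870912 697932185 42949674
    (rowF 0 false false false .pnp 0 1 2 (qsf 0 536870912 0 536870912 1) ndB0q0 ndB0q2 pcB1 cut_B00mm_012_s1 Ext.none)

def k0_B00mm_012_s1 : ∃ t, chk3 f_B00mm_012_s1 t 1 1 1 = true :=
  ⟨(l 5), by decide +kernel⟩

theorem c_B00mm_012_s1 : CertF 0 536870912 0 536870912 697932185 42949674 false false false .pnp 0 1 2
    ndB0q0 ndB0q2 pcB1 cut_B00mm_012_s1 Ext.none :=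
  certF0 (fam := false) (s1 := false) (s2 := false) (a := 0) (b := 1) (c := 2) (cn := .pnp) (n1 := ndB0q0) (n2 := ndB0q2) (pc := pcB1) (cut := cut_B00mm_012_s1) (xt := Ext.none) (P1 := 0) (W1 := 536870912) (P2 := 0) (W2 := 536870912) (P3 := 697932185) (W3 := 42949674)
    rfl k0_B00mm_012_s1

theorem s_B00mm_012_s1 {κ x : ℝ} (hκ : κ * h0 = ken x) (hx : ((697932185 : ℕ) : ℝ) / S ≤ x)
    (hx' : x ≤ (((697932185 : ℕ) : ℝ) + (42949674 : ℕ)) / S) :
    AltB (VFD κ) PP tK tL pcB [⟨3, 0, 0, 1449551462⟩] 0 1 2 0 0 (sgb false) (sgb false) x :=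
  strip_altBD (m := 1449551462) true rfl hκ (SH.κ0 hκ (SH.hx1 hx).le (SH.hx2 hx').le) (SH.hx1 hx).le (SH.hx2 hx') (covB00).cov (covB02).cov hx hx' c_B00mm_012_s1 cutB_nil (noExt_B)

noncomputable def cut_B00mm_012_s3 : Cut := Cut.of [[⟨3, 0, 0, 2845415833⟩]]

noncomputable def f_B00mm_012_s3 : ℕ → ℕ → ℕ → ℕ → Bool := onCell 0 536870912 0 536870912 697932185 42949674
    (rowF 0 false false false .pnp 0 1 2 (qsf 0 536870912 0 536870912 1) ndB0q0 ndB0q2 pcB1 cut_B00mm_012_s3 Ext.none)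

def k0_B00mm_012_s3 : ∃ t, chk3 f_B00mm_012_s3 t 1 1 1 = true :=
  ⟨(l 5), by decide +kernel⟩

theorem c_B00mm_012_s3 : CertF 0 536870912 0 536870912 697932185 42949674 false false false .pnp 0 1 2
    ndB0q0 ndB0q2 pcB1 cut_B00mm_012_s3 Ext.none :=
  certF0 (fam := false) (s1 := false) (s2 := false) (a := 0) (b := 1) (c := 2) (cn := .pnp) (n1 := ndB0q0) (n2 := ndB0q2) (pc := pcB1) (cut := cut_B00mm_012_s3) (xt := Ext.none) (P1 := 0) (W1 := 536870912) (P2 := 0) (W2 := 536870912) (P3 := 697932185) (W3 := 42949674)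
    rfl k0_B00mm_012_s3

theorem s_B00mm_012_s3 {κ x : ℝ} (hκ : κ * h0 = ken x) (hx : ((697932185 : ℕ) : ℝ) / S ≤ x)
    (hx' : x ≤ (((697932185 : ℕ) : ℝ) + (42949674 : ℕ)) / S) :
    AltB (VFD κ) PP tK tL pcB [⟨4, 0, 0, 2845415833⟩] 0 1 2 0 0 (sgb false) (sgb false) x :=
  strip_altBD (m := 2845415833) false rfl hκ (SH.κ0 hκ (SH.hx1 hx).le (SH.hx2 hx').le) (SH.hx1 hx).le (SH.hx2 hx') (covB00).cov (covB02).cov hx hx' c_B00mm_012_s3 cutB_nil (noExt_B)

noncomputable def cut_B00mm_022_s1 : Cut := Cut.of [[⟨4, 0, 0, 1449551462⟩]]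

noncomputable def f_B00mm_022_s1 : ℕ → ℕ → ℕ → ℕ → Bool := onCell 0 536870912 0 536870912 697932185 42949674
    (rowF 0 false false false .pp 0 2 2 (qsf 0 536870912 0 536870912 2) ndB0q0 ndB0q2 pcB2 cut_B00mm_022_s1 Ext.none)

def k0_B00mm_022_s1 : ∃ t, chk3 f_B00mm_022_s1 t 1 1 1 = true :=
  ⟨(l 5), by decide +kernel⟩

theorem c_B00mm_022_s1 : CertF 0 536870912 0 536870912 697932185 42949674 false false false .pp 0 2 2
    ndB0q0 ndB0q2 pcB2 cut_B00mm_022_s1 Ext.none :=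
  certF0 (fam := false) (s1 := false) (s2 := false) (a := 0) (b := 2) (c := 2) (cn := .pp) (n1 := ndB0q0) (n2 := ndB0q2) (pc := pcB2) (cut := cut_B00mm_022_s1) (xt := Ext.none) (P1 := 0) (W1 := 536870912) (P2 := 0) (W2 := 536870912) (P3 := 697932185) (W3 := 42949674)
    rfl k0_B00mm_022_s1

theorem s_B00mm_022_s1 {κ x : ℝ} (hκ : κ * h0 = ken x) (hx : ((697932185 : ℕ) : ℝ) / S ≤ x)
    (hx' : x ≤ (((697932185 : ℕ) : ℝ) + (42949674 : ℕ)) / S) :
    AltB (VFD κ) PP tK tL pcB [⟨3, 0, 0, 1449551462⟩] 0 2 2 0 0 (sgb false) (sgb false) x :=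
  strip_altBD (m := 1449551462) true rfl hκ (SH.κ0 hκ (SH.hx1 hx).le (SH.hx2 hx').le) (SH.hx1 hx).le (SH.hx2 hx') (covB00).cov (covB02).cov hx hx' c_B00mm_022_s1 cutB_nil (noExt_B)

noncomputable def cut_B00mm_022_s3 : Cut := Cut.of [[⟨3, 0, 0, 2845415833⟩]]

noncomputable def f_B00mm_022_s3 : ℕ → ℕ → ℕ → ℕ → Bool := onCell 0 536870912 0 536870912 697932185 42949674
    (rowF 0 false false false .pp 0 2 2 (qsf 0 536870912 0 536870912 2) ndB0q0 ndB0q2 pcB2 cut_B00mm_022_s3 Ext.none)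

def k0_B00mm_022_s3 : ∃ t, chk3 f_B00mm_022_s3 t 1 1 1 = true :=
  ⟨(l 5), by decide +kernel⟩

theorem c_B00mm_022_s3 : CertF 0 536870912 0 536870912 697932185 42949674 false false false .pp 0 2 2
    ndB0q0 ndB0q2 pcB2 cut_B00mm_022_s3 Ext.none :=
  certF0 (fam := false) (s1 := false) (s2 := false) (a := 0) (b := 2) (c := 2) (cn := .pp) (n1 := ndB0q0) (n2 := ndB0q2) (pc := pcB2) (cut := cut_B00mm_022_s3) (xt := Ext.none) (P1 := 0) (W1 := 536870912) (P2 := 0) (W2 := 536870912) (P3 := 697932185) (W3 := 42949674)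
    rfl k0_B00mm_022_s3

theorem s_B00mm_022_s3 {κ x : ℝ} (hκ : κ * h0 = ken x) (hx : ((697932185 : ℕ) : ℝ) / S ≤ x)
    (hx' : x ≤ (((697932185 : ℕ) : ℝ) + (42949674 : ℕ)) / S) :
    AltB (VFD κ) PP tK tL pcB [⟨4, 0, 0, 2845415833⟩] 0 2 2 0 0 (sgb false) (sgb false) x :=
  strip_altBD (m := 2845415833) false rfl hκ (SH.κ0 hκ (SH.hx1 hx).le (SH.hx2 hx').le) (SH.hx1 hx).le (SH.hx2 hx') (covB00).cov (covB02).cov hx hx' c_B00mm_022_s3 cutB_nil (noExt_B)

noncomputable def cut_B00mm_101_s1 : Cut := Cut.of [[⟨4, 0, 0, 1449551462⟩]]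

noncomputable def f_B00mm_101_s1 : ℕ → ℕ → ℕ → ℕ → Bool := onCell 536870912 536870912 536870912 536870912 697932185 42949674
    (rowF 0 false false false .npn 1 0 1 (qsf 536870912 536870912 536870912 536870912 0) ndB0q1 ndB0q1 pcB0 cut_B00mm_101_s1 Ext.none)

def k0_B00mm_101_s1 : ∃ t, chk3 f_B00mm_101_s1 t 1 1 1 = true :=
  ⟨(l 3), by decide +kernel⟩

theorem c_B00mm_101_s1 : CertF 536870912 536870912 536870912 536870912 697932185 42949674 false false false .npn 1 0 1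
    ndB0q1 ndB0q1 pcB0 cut_B00mm_101_s1 Ext.none :=
  certF0 (fam := false) (s1 := false) (s2 := false) (a := 1) (b := 0) (c := 1) (cn := .npn) (n1 := ndB0q1) (n2 := ndB0q1) (pc := pcB0) (cut := cut_B00mm_101_s1) (xt := Ext.none) (P1 := 536870912) (W1 := 536870912) (P2 := 536870912) (W2 := 536870912) (P3 := 697932185) (W3 := 42949674)
    rfl k0_B00mm_101_s1

theorem s_B00mm_101_s1 {κ x : ℝ} (hκ : κ * h0 = ken x) (hx : ((697932185 : ℕ) : ℝ) / S ≤ x)
    (hx' : x ≤ (((697932185 : ℕ) : ℝ) + (42949674 : ℕ)) / S) :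
    AltB (VFD κ) PP tK tL pcB [⟨3, 0, 0, 1449551462⟩] 1 0 1 0 0 (sgb false) (sgb false) x :=
  strip_altBD (m := 1449551462) true rfl hκ (SH.κ0 hκ (SH.hx1 hx).le (SH.hx2 hx').le) (SH.hx1 hx).le (SH.hx2 hx') (covB01).cov (covB01).cov hx hx' c_B00mm_101_s1 cutB_nil (noExt_B)

noncomputable def cut_B00mm_101_s3 : Cut := Cut.of [[⟨3, 0, 0, 2845415833⟩]]

noncomputable def f_B00mm_101_s3 : ℕ → ℕ → ℕ → ℕ → Bool := onCell 536870912 536870912 536870912 536870912 697932185 42949674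
    (rowF 0 false false false .npn 1 0 1 (qsf 536870912 536870912 536870912 536870912 0) ndB0q1 ndB0q1 pcB0 cut_B00mm_101_s3 Ext.none)

def k0_B00mm_101_s3 : ∃ t, chk3 f_B00mm_101_s3 t 1 1 1 = true :=
  ⟨(l 3), by decide +kernel⟩

theorem c_B00mm_101_s3 : CertF 536870912 536870912 536870912 536870912 697932185 42949674 false false false .npn 1 0 1
    ndB0q1 ndB0q1 pcB0 cut_B00mm_101_s3 Ext.none :=
  certF0 (fam := false) (s1 := false) (s2 := false) (a := 1) (b := 0) (c := 1) (cn := .npn) (n1 := ndB0q1) (n2 := ndB0q1) (pc := pcB0) (cut := cut_B00mm_101_s3) (xt := Ext.none) (P1 := 536870912) (W1 := 536870912) (P2 := 536870912) (W2 := 536870912) (P3 := 697932185) (W3 := 42949674)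
    rfl k0_B00mm_101_s3

theorem s_B00mm_101_s3 {κ x : ℝ} (hκ : κ * h0 = ken x) (hx : ((697932185 : ℕ) : ℝ) / S ≤ x)
    (hx' : x ≤ (((697932185 : ℕ) : ℝ) + (42949674 : ℕ)) / S) :
    AltB (VFD κ) PP tK tL pcB [⟨4, 0, 0, 2845415833⟩] 1 0 1 0 0 (sgb false) (sgb false) x :=
  strip_altBD (m := 2845415833) false rfl hκ (SH.κ0 hκ (SH.hx1 hx).le (SH.hx2 hx').le) (SH.hx1 hx).le (SH.hx2 hx') (covB01).cov (covB01).cov hx hx' c_B00mm_101_s3 cutB_nil (noExt_B)

noncomputable def cut_B00mm_102_s1 : Cut := Cut.of [[⟨4, 0, 0, 1449551462⟩]]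

noncomputable def f_B00mm_102_s1 : ℕ → ℕ → ℕ → ℕ → Bool := onCell 536870912 536870912 0 536870912 697932185 42949674
    (rowF 0 false false false .npp 1 0 2 (qsf 536870912 536870912 0 536870912 0) ndB0q1 ndB0q2 pcB0 cut_B00mm_102_s1 Ext.none)

def k0_B00mm_102_s1 : ∃ t, chk3 f_B00mm_102_s1 t 1 1 1 = true :=
  ⟨(a (l 5) (l 3)), by decide +kernel⟩

theorem c_B00mm_102_s1 : CertF 536870912 536870912 0 536870912 697932185 42949674 false false false .npp 1 0 2
    ndB0q1 ndB0q2 pcB0 cut_B00mm_102_s1 Ext.none :=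
  certF0 (fam := false) (s1 := false) (s2 := false) (a := 1) (b := 0) (c := 2) (cn := .npp) (n1 := ndB0q1) (n2 := ndB0q2) (pc := pcB0) (cut := cut_B00mm_102_s1) (xt := Ext.none) (P1 := 536870912) (W1 := 536870912) (P2 := 0) (W2 := 536870912) (P3 := 697932185) (W3 := 42949674)
    rfl k0_B00mm_102_s1

theorem s_B00mm_102_s1 {κ x : ℝ} (hκ : κ * h0 = ken x) (hx : ((697932185 : ℕ) : ℝ) / S ≤ x)
    (hx' : x ≤ (((697932185 : ℕ) : ℝ) + (42949674 : ℕ)) / S) :
    AltB (VFD κ) PP tK tL pcB [⟨3, 0, 0, 1449551462⟩] 1 0 2 0 0 (sgb false) (sgb false) x :=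
  strip_altBD (m := 1449551462) true rfl hκ (SH.κ0 hκ (SH.hx1 hx).le (SH.hx2 hx').le) (SH.hx1 hx).le (SH.hx2 hx') (covB01).cov (covB02).cov hx hx' c_B00mm_102_s1 cutB_nil (noExt_B)

noncomputable def cut_B00mm_102_s3 : Cut := Cut.of [[⟨3, 0, 0, 2845415833⟩]]

noncomputable def f_B00mm_102_s3 : ℕ → ℕ → ℕ → ℕ → Bool := onCell 536870912 536870912 0 536870912 697932185 42949674
    (rowF 0 false false false .npp 1 0 2 (qsf 536870912 536870912 0 536870912 0) ndB0q1 ndB0q2 pcB0 cut_B00mm_102_s3 Ext.none)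

def k0_B00mm_102_s3 : ∃ t, chk3 f_B00mm_102_s3 t 1 1 1 = true :=
  ⟨(l 6), by decide +kernel⟩

theorem c_B00mm_102_s3 : CertF 536870912 536870912 0 536870912 697932185 42949674 false false false .npp 1 0 2
    ndB0q1 ndB0q2 pcB0 cut_B00mm_102_s3 Ext.none :=
  certF0 (fam := false) (s1 := false) (s2 := false) (a := 1) (b := 0) (c := 2) (cn := .npp) (n1 := ndB0q1) (n2 := ndB0q2) (pc := pcB0) (cut := cut_B00mm_102_s3) (xt := Ext.none) (P1 := 536870912) (W1 := 536870912) (P2 := 0) (W2 := 536870912) (P3 := 697932185) (W3 := 42949674)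
    rfl k0_B00mm_102_s3

theorem s_B00mm_102_s3 {κ x : ℝ} (hκ : κ * h0 = ken x) (hx : ((697932185 : ℕ) : ℝ) / S ≤ x)
    (hx' : x ≤ (((697932185 : ℕ) : ℝ) + (42949674 : ℕ)) / S) :
    AltB (VFD κ) PP tK tL pcB [⟨4, 0, 0, 2845415833⟩] 1 0 2 0 0 (sgb false) (sgb false) x :=
  strip_altBD (m := 2845415833) false rfl hκ (SH.κ0 hκ (SH.hx1 hx).le (SH.hx2 hx').le) (SH.hx1 hx).le (SH.hx2 hx') (covB01).cov (covB02).cov hx hx' c_B00mm_102_s3 cutB_nil (noExt_B)

noncomputable def cut_B00mm_112_s1 : Cut := Cut.of [[⟨4, 0, 0, 1449551462⟩]]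

noncomputable def f_B00mm_112_s1 : ℕ → ℕ → ℕ → ℕ → Bool := onCell 536870912 536870912 0 536870912 697932185 42949674
    (rowF 2 false false false .dn 1 1 2 (qsf 536870912 536870912 0 536870912 1) ndB0q1 ndB0q2 pcB1 cut_B00mm_112_s1 Ext.none)

def k0_B00mm_112_s1 : ∃ t, chk3 f_B00mm_112_s1 t 1 1 1 = true :=
  ⟨(l 5), by decide +kernel⟩

theorem c_B00mm_112_s1 : CertF 536870912 536870912 0 536870912 697932185 42949674 false false false .dn 1 1 2
    ndB0q1 ndB0q2 pcB1 cut_B00mm_112_s1 Ext.none :=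
  certF2 (fam := false) (s1 := false) (s2 := false) (a := 1) (b := 1) (c := 2) (cn := .dn) (n1 := ndB0q1) (n2 := ndB0q2) (pc := pcB1) (cut := cut_B00mm_112_s1) (xt := Ext.none) (P1 := 536870912) (W1 := 536870912) (P2 := 0) (W2 := 536870912) (P3 := 697932185) (W3 := 42949674)
    rfl (fun _ => rfl) k0_B00mm_112_s1

theorem s_B00mm_112_s1 {κ x : ℝ} (hκ : κ * h0 = ken x) (hx : ((697932185 : ℕ) : ℝ) / S ≤ x)
    (hx' : x ≤ (((697932185 : ℕ) : ℝ) + (42949674 : ℕ)) / S) :
    AltB (VFD κ) PP tK tL pcB [⟨3, 0, 0, 1449551462⟩] 1 1 2 0 0 (sgb false) (sgb false) x :=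
  strip_altBD (m := 1449551462) true rfl hκ (SH.κ0 hκ (SH.hx1 hx).le (SH.hx2 hx').le) (SH.hx1 hx).le (SH.hx2 hx') (covB01).cov (covB02).cov hx hx' c_B00mm_112_s1 cutB_nil (noExt_B)

noncomputable def cut_B00mm_112_s3 : Cut := Cut.of [[⟨3, 0, 0, 2845415833⟩]]

noncomputable def f_B00mm_112_s3 : ℕ → ℕ → ℕ → ℕ → Bool := onCell 536870912 536870912 0 536870912 697932185 42949674
    (rowF 0 false false false .dn 1 1 2 (qsf 536870912 536870912 0 536870912 1) ndB0q1 ndB0q2 pcB1 cut_B00mm_112_s3 Ext.none)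

def k0_B00mm_112_s3 : ∃ t, chk3 f_B00mm_112_s3 t 1 1 1 = true :=
  ⟨(l 6), by decide +kernel⟩

theorem c_B00mm_112_s3 : CertF 536870912 536870912 0 536870912 697932185 42949674 false false false .dn 1 1 2
    ndB0q1 ndB0q2 pcB1 cut_B00mm_112_s3 Ext.none :=
  certF0 (fam := false) (s1 := false) (s2 := false) (a := 1) (b := 1) (c := 2) (cn := .dn) (n1 := ndB0q1) (n2 := ndB0q2) (pc := pcB1) (cut := cut_B00mm_112_s3) (xt := Ext.none) (P1 := 536870912) (W1 := 536870912) (P2 := 0) (W2 := 536870912) (P3 := 697932185) (W3 := 42949674)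
    rfl k0_B00mm_112_s3

theorem s_B00mm_112_s3 {κ x : ℝ} (hκ : κ * h0 = ken x) (hx : ((697932185 : ℕ) : ℝ) / S ≤ x)
    (hx' : x ≤ (((697932185 : ℕ) : ℝ) + (42949674 : ℕ)) / S) :
    AltB (VFD κ) PP tK tL pcB [⟨4, 0, 0, 2845415833⟩] 1 1 2 0 0 (sgb false) (sgb false) x :=
  strip_altBD (m := 2845415833) false rfl hκ (SH.κ0 hκ (SH.hx1 hx).le (SH.hx2 hx').le) (SH.hx1 hx).le (SH.hx2 hx') (covB01).cov (covB02).cov hx hx' c_B00mm_112_s3 cutB_nil (noExt_B)

noncomputable def cut_B00mm_202_s1 : Cut := Cut.of [[⟨4, 0, 0, 1449551462⟩]]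

noncomputable def f_B00mm_202_s1 : ℕ → ℕ → ℕ → ℕ → Bool := onCell 0 536870912 0 536870912 697932185 42949674
    (rowF 0 false false false .pp 2 0 2 (qsf 0 536870912 0 536870912 0) ndB0q2 ndB0q2 pcB0 cut_B00mm_202_s1 Ext.none)

def k0_B00mm_202_s1 : ∃ t, chk3 f_B00mm_202_s1 t 1 1 1 = true :=
  ⟨(l 3), by decide +kernel⟩

theorem c_B00mm_202_s1 : CertF 0 536870912 0 536870912 697932185 42949674 false false false .pp 2 0 2
    ndB0q2 ndB0q2 pcB0 cut_B00mm_202_s1 Ext.none :=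
  certF0 (fam := false) (s1 := false) (s2 := false) (a := 2) (b := 0) (c := 2) (cn := .pp) (n1 := ndB0q2) (n2 := ndB0q2) (pc := pcB0) (cut := cut_B00mm_202_s1) (xt := Ext.none) (P1 := 0) (W1 := 536870912) (P2 := 0) (W2 := 536870912) (P3 := 697932185) (W3 := 42949674)
    rfl k0_B00mm_202_s1

theorem s_B00mm_202_s1 {κ x : ℝ} (hκ : κ * h0 = ken x) (hx : ((697932185 : ℕ) : ℝ) / S ≤ x)
    (hx' : x ≤ (((697932185 : ℕ) : ℝ) + (42949674 : ℕ)) / S) :
    AltB (VFD κ) PP tK tL pcB [⟨3, 0, 0, 1449551462⟩] 2 0 2 0 0 (sgb false) (sgb false) x :=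
  strip_altBD (m := 1449551462) true rfl hκ (SH.κ0 hκ (SH.hx1 hx).le (SH.hx2 hx').le) (SH.hx1 hx).le (SH.hx2 hx') (covB02).cov (covB02).cov hx hx' c_B00mm_202_s1 cutB_nil (noExt_B)

noncomputable def cut_B00mm_202_s3 : Cut := Cut.of [[⟨3, 0, 0, 2845415833⟩]]

noncomputable def f_B00mm_202_s3 : ℕ → ℕ → ℕ → ℕ → Bool := onCell 0 536870912 0 536870912 697932185 42949674
    (rowF 0 false false false .pp 2 0 2 (qsf 0 536870912 0 536870912 0) ndB0q2 ndB0q2 pcB0 cut_B00mm_202_s3 Ext.none)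

def k0_B00mm_202_s3 : ∃ t, chk3 f_B00mm_202_s3 t 1 1 1 = true :=
  ⟨(l 3), by decide +kernel⟩

theorem c_B00mm_202_s3 : CertF 0 536870912 0 536870912 697932185 42949674 false false false .pp 2 0 2
    ndB0q2 ndB0q2 pcB0 cut_B00mm_202_s3 Ext.none :=
  certF0 (fam := false) (s1 := false) (s2 := false) (a := 2) (b := 0) (c := 2) (cn := .pp) (n1 := ndB0q2) (n2 := ndB0q2) (pc := pcB0) (cut := cut_B00mm_202_s3) (xt := Ext.none) (P1 := 0) (W1 := 536870912) (P2 := 0) (W2 := 536870912) (P3 := 697932185) (W3 := 42949674)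
    rfl k0_B00mm_202_s3

theorem s_B00mm_202_s3 {κ x : ℝ} (hκ : κ * h0 = ken x) (hx : ((697932185 : ℕ) : ℝ) / S ≤ x)
    (hx' : x ≤ (((697932185 : ℕ) : ℝ) + (42949674 : ℕ)) / S) :
    AltB (VFD κ) PP tK tL pcB [⟨4, 0, 0, 2845415833⟩] 2 0 2 0 0 (sgb false) (sgb false) x :=
  strip_altBD (m := 2845415833) false rfl hκ (SH.κ0 hκ (SH.hx1 hx).le (SH.hx2 hx').le) (SH.hx1 hx).le (SH.hx2 hx') (covB02).cov (covB02).cov hx hx' c_B00mm_202_s3 cutB_nil (noExt_B)

noncomputable def cut_B07pp_001_s1 : Cut := Cut.of [[⟨4, 0, 0, 1449551462⟩]]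

noncomputable def f_B07pp_001_s1 : ℕ → ℕ → ℕ → ℕ → Bool := onCell 0 536870912 0 536870912 697932185 42949674
    (rowF 1 false true true .up 0 0 1 (qsf 0 536870912 536870912 536870912 0) ndB0q0 ndB7q1 pcB0 cut_B07pp_001_s1 Ext.none)

def k0_B07pp_001_s1 : ∃ t, chk3 f_B07pp_001_s1 t 1 1 1 = true :=
  ⟨(l 3), by decide +kernel⟩

theorem c_B07pp_001_s1 : CertF 0 536870912 536870912 536870912 697932185 42949674 false true true .up 0 0 1
    ndB0q0 ndB7q1 pcB0 cut_B07pp_001_s1 Ext.none :=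
  certF1 (fam := false) (s1 := true) (s2 := true) (a := 0) (b := 0) (c := 1) (cn := .up) (n1 := ndB0q0) (n2 := ndB7q1) (pc := pcB0) (cut := cut_B07pp_001_s1) (xt := Ext.none) (P1 := 0) (W1 := 536870912) (P2 := 536870912) (W2 := 536870912) (P3 := 697932185) (W3 := 42949674)
    rfl (fun _ => rfl) k0_B07pp_001_s1

theorem s_B07pp_001_s1 {κ x : ℝ} (hκ : κ * h0 = ken x) (hx : ((697932185 : ℕ) : ℝ) / S ≤ x)
    (hx' : x ≤ (((697932185 : ℕ) : ℝ) + (42949674 : ℕ)) / S) :
    AltB (VFD κ) PP tK tL pcB [⟨3, 0, 0, 1449551462⟩] 0 0 1 0 7 (sgb true) (sgb true) x :=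
  strip_altBD (m := 1449551462) true rfl hκ (SH.κ0 hκ (SH.hx1 hx).le (SH.hx2 hx').le) (SH.hx1 hx).le (SH.hx2 hx') (covB00).cov (covB71).cov hx hx' c_B07pp_001_s1 cutB_nil (noExt_B)

noncomputable def cut_B07pp_011_s1 : Cut := Cut.of [[⟨4, 0, 0, 1449551462⟩], [⟨0, 0, 0, 67108864⟩, ⟨1, 1, 0, 67108864⟩, ⟨2, 1, 0, 67108864⟩]]

noncomputable def f_B07pp_011_s1 : ℕ → ℕ → ℕ → ℕ → Bool := onCell 0 536870912 536870912 536870912 697932185 42949674
    (rowF 1 false true true .pnn 0 1 1 (qsf 0 536870912 536870912 536870912 1) ndB0q0 ndB7q1 pcB1 cut_B07pp_011_s1 Ext.none)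

def k0_B07pp_011_s1 : ∃ t, chk3 f_B07pp_011_s1 t 1 1 1 = true :=
  ⟨(b (l 3) (a (b (l 3) (a (b (l 3) (a (b (l 3) (a (l 14) (l 3))) (l 3))) (l 3))) (l 3))), by decide +kernel⟩

theorem c_B07pp_011_s1 : CertF 0 536870912 536870912 536870912 697932185 42949674 false true true .pnn 0 1 1
    ndB0q0 ndB7q1 pcB1 cut_B07pp_011_s1 Ext.none :=
  certF1 (fam := false) (s1 := true) (s2 := true) (a := 0) (b := 1) (c := 1) (cn := .pnn) (n1 := ndB0q0) (n2 := ndB7q1) (pc := pcB1) (cut := cut_B07pp_011_s1) (xt := Ext.none) (P1 := 0) (W1 := 536870912) (P2 := 536870912) (W2 := 536870912) (P3 := 697932185) (W3 := 42949674)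
    rfl (fun _ => rfl) k0_B07pp_011_s1

theorem s_B07pp_011_s1 {κ x : ℝ} (hκ : κ * h0 = ken x) (hx : ((697932185 : ℕ) : ℝ) / S ≤ x)
    (hx' : x ≤ (((697932185 : ℕ) : ℝ) + (42949674 : ℕ)) / S)
    (H : CutB (VFD κ) PP tK tL pcB (Cut.of [[⟨0, 0, 0, 67108864⟩, ⟨1, 1, 0, 67108864⟩, ⟨2, 1, 0, 67108864⟩]]) 0 1 1 0 7 (sgb true) (sgb true) x) :
    AltB (VFD κ) PP tK tL pcB [⟨3, 0, 0, 1449551462⟩] 0 1 1 0 7 (sgb true) (sgb true) x :=
  strip_altBD (m := 1449551462) true rfl hκ (SH.κ0 hκ (SH.hx1 hx).le (SH.hx2 hx').le) (SH.hx1 hx).le (SH.hx2 hx') (covB00).cov (covB71).cov hx hx' c_B07pp_011_s1 H (noExt_B)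

noncomputable def cut_B07pp_012_s1 : Cut := Cut.of [[⟨4, 0, 0, 1449551462⟩], [⟨0, 0, 0, 67108864⟩, ⟨1, 1, 0, 67108864⟩, ⟨2, 1, 0, 67108864⟩]]

noncomputable def f_B07pp_012_s1 : ℕ → ℕ → ℕ → ℕ → Bool := onCell 0 536870912 536870912 536870912 697932185 42949674
    (rowF 1 false true true .pnp 0 1 2 (qsf 0 536870912 1073741824 536870912 1) ndB0q0 ndB7q2 pcB1 cut_B07pp_012_s1 Ext.none)

def k0_B07pp_012_s1 : ∃ t, chk3 f_B07pp_012_s1 t 1 1 1 = true :=
  ⟨(b (l 3) (a (a (a (a (b (l 1) (b (l 1) (b (l 3) (l 14)))) (l 3)) (l 3)) (l 3)) (l 3))), by decide +kernel⟩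

theorem c_B07pp_012_s1 : CertF 0 536870912 1073741824 536870912 697932185 42949674 false true true .pnp 0 1 2
    ndB0q0 ndB7q2 pcB1 cut_B07pp_012_s1 Ext.none :=
  certF1 (fam := false) (s1 := true) (s2 := true) (a := 0) (b := 1) (c := 2) (cn := .pnp) (n1 := ndB0q0) (n2 := ndB7q2) (pc := pcB1) (cut := cut_B07pp_012_s1) (xt := Ext.none) (P1 := 0) (W1 := 536870912) (P2 := 1073741824) (W2 := 536870912) (P3 := 697932185) (W3 := 42949674)
    rfl (fun _ => rfl) k0_B07pp_012_s1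

theorem s_B07pp_012_s1 {κ x : ℝ} (hκ : κ * h0 = ken x) (hx : ((697932185 : ℕ) : ℝ) / S ≤ x)
    (hx' : x ≤ (((697932185 : ℕ) : ℝ) + (42949674 : ℕ)) / S)
    (H : CutB (VFD κ) PP tK tL pcB (Cut.of [[⟨0, 0, 0, 67108864⟩, ⟨1, 1, 0, 67108864⟩, ⟨2, 1, 0, 67108864⟩]]) 0 1 2 0 7 (sgb true) (sgb true) x) :
    AltB (VFD κ) PP tK tL pcB [⟨3, 0, 0, 1449551462⟩] 0 1 2 0 7 (sgb true) (sgb true) x :=
  strip_altBD (m := 1449551462) true rfl hκ (SH.κ0 hκ (SH.hx1 hx).le (SH.hx2 hx').le) (SH.hx1 hx).le (SH.hx2 hx') (covB00).cov (covB72).cov hx hx' c_B07pp_012_s1 H (noExt_B)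

noncomputable def cut_B07pp_022_s1 : Cut := Cut.of [[⟨4, 0, 0, 1449551462⟩], [⟨0, 0, 0, 53687091⟩, ⟨1, 1, 0, 53687091⟩, ⟨2, 1, 0, 53687091⟩]]

noncomputable def xt_B07pp_022_s1 : Ext := strExt6 dd false true true .u0 .s2 .u2 .pp 0 2 2 rfl rfl gf2 vv ww ndB0q0 ndB7q2

noncomputable def f_B07pp_022_s1 : ℕ → ℕ → ℕ → ℕ → Bool := onCell 0 536870912 1073741824 536870912 697932185 42949674
    (rowF 1 false true true .pp 0 2 2 (qsf 0 536870912 1073741824 536870912 2) ndB0q0 ndB7q2 pcB2 cut_B07pp_022_s1 xt_B07pp_022_s1)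

def k0_B07pp_022_s1 : ∃ t, chk3 f_B07pp_022_s1 t 16 16 1 = true :=
  ⟨(b (l 14) (a (l 14) (b (a (l 14) (b (a (l 14) (b (l 14) (a (l 14) (b (l 14) (l 16768080))))) (a (b (l 14) (l 16755712)) (b (l 16766496) (l 16759608))))) (a (b (l 16748704) (l 16734856)) (b (a (l 16749776) (b (l 16755360) (l 16751336))) (l 16743576)))))), by decide +kernel⟩

def k1_B07pp_022_s1 : ∃ t, chk3 f_B07pp_022_s1 t 17 16 1 = true :=
  ⟨(b (a (a (a (a (l 14) (l 3)) (l 3)) (l 3)) (l 3)) (a (b (a (b (a (b (l 1048313471) (b (a (b (a (l 16772200) (l 16773216)) (a (l 16771192) (l 16772160))) (l 1048502911)) (a (b (l 16770656) (l 16769576)) (b (a (l 16772120) (l 16773120)) (a (l 16771104) (l 16772080)))))) (b (l 1048333439) (l 1048534143))) (b (a (a (l 16766936) (b (b (l 16770576) (l 16769496)) (l 16767912))) (b (a (a (b (l 16772040) (l 16771016)) (l 1048751231)) (l 1048748671)) (a (b (l 16770488) (l 16769424)) (b (l 16772440) (l 16771392))))) (a (l 16766328) (a (l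 16766776) (b (b (l 16770352) (l 16769320)) (l 16767752)))))) (b (a (b (l 3) (l 1048555647)) (l 3)) (a (b (l 1048800895) (b (a (a (l 16771304) (l 16772256)) (l 1048709247)) (a (b (l 16770200) (l 16769152)) (a (l 16771144) (l 16772104))))) (l 1048710271)))) (a (b (a (b (l 16759432) (l 16755096)) (b (l 16766160) (l 16759264))) (a (l 16754240) (b (l 16754952) (l 16750632)))) (b (b (b (a (a (l 16767640) (a (l 16769024) (l 16769992))) (a (a (l 16770968) (l 16771936)) (l 1048491135))) (a (l 16766536) (a (l 16771952) (a (l 16770792) (l 16771760))))) (a (l 16763384) (a (l 16766248) (b (l 16771760) (l 16767072))))) (a (b (l 16759104) (l 16754792)) (b (l 16763088) (l 16758960)))))) (b (a (b (l 3) (a (l 1048665215) (l 3))) (l 3)) (a (b (a (b (l 1048401535) (a (b (l 16773712) (l 16771568)) (l 1048192127))) (l 1048261759)) (b (a (a (l 16765832) (b (l 16771352) (l 16766624))) (b (l 1047981183) (a (l 16771136) (l 16770464)))) (a (l 16762648) (a (l 16765352)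 (b (l 16770904) (l 16766136)))))) (b (l 1048156287) (a (a (b (l 1047905919) (b (l 16770240) (l 16770664))) (l 1047754367)) (l 1047721087))))))), by decide +kernel⟩

def k2_B07pp_022_s1 : ∃ t, chk3 f_B07pp_022_s1 t 8 17 1 = true :=
  ⟨(a (b (a (a (b (l 14) (l 16666016)) (b (l 16713264) (l 16696520))) (b (a (l 16722240) (b (l 16735088) (l 16726712))) (a (l 16705488) (l 16714096)))) (a (a (l 16661976) (l 16692392)) (b (l 16703456) (l 16676120)))) (b (a (b (a (b (l 16747960) (l 16734496)) (b (b (l 16757608) (l 16753104)) (a (l 16739696) (l 16743296)))) (a (l 16722408) (l 16739784))) (b (a (a (b (l 16756320) (l 16747208)) (b (a (l 16759408) (l 16763896)) (l 16751312))) (b (b (a (a (l 16764992) (b (l 16770496) (l 16765840))) (b (l 1047636095) (a (l 16770368) (l 16769688)))) (a (l 16762024) (b (a (l 16765704) (l 16767608)) (l 16764632)))) (b (a (l 16757648) (l 16761680)) (l 16760400)))) (a (b (c (l 16745752) (l 16745768)) (l 16732296)) (b (c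 (l 16753664) (l 16753704)) (l 16744824))))) (a (b (a (l 16705416) (l 16713400)) (l 16713312)) (b (a (l 16720312) (b (l 16731280) (l 16723216))) (b (l 16711928) (l 16703544)))))), by decide +kernel⟩

def k3_B07pp_022_s1 : ∃ t, chk3 f_B07pp_022_s1 t 9 16 1 = true :=
  ⟨(a (b (l 3) (b (l 3) (a (b (l 3) (a (b (l 3) (l 1047539327)) (l 3))) (l 3)))) (l 3)), by decide +kernel⟩

def k4_B07pp_022_s1 : ∃ t, chk3 f_B07pp_022_s1 t 9 34 1 = true :=
  ⟨(a (b (a (b (a (b (l 1047681663) (a (b (l 1048031871) (a (l 16767448) (l 16769352))) (l 1048105087))) (l 1047880831)) (a (b (a (b (l 16768952) (l 16764288)) (b (l 16772760) (a (l 16767104) (l 16768984)))) (a (l 16761184) (b (l 16768592) (l 16763904)))) (b (l 1048354431) (a (b (l 1048569471) (a (l 16766704) (l 16768568))) (l 1048584319))))) (b (l 3) (a (l 1048414335) (l 3)))) (a (b (a (a (l 16759696) (a (l 16757424) (l 16762016))) (a (b (b (a (l 16764608) (l 16766488)) (l 16763472)) (l 16760112)) (a (b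 (a (l 16766848) (l 16767760)) (l 16763088)) (b (l 1048744063) (a (l 16764496) (l 16765416)))))) (a (c (l 16752776) (l 16752824)) (a (l 16758688) (c (l 16762568) (l 16762632))))) (b (a (a (a (a (b (l 1048728703) (l 16766336)) (l 1048779903)) (l 1048761471)) (l 1048723071)) (l 1048641151)) (a (b (a (b (a (l 16763624) (l 16765456)) (l 16762392)) (a (a (l 16765768) (l 16766728)) (l 1048837247))) (a (l 16759032) (a (l 16761976) (b (l 16764896) (l 16762784))))) (a (b (l 1048796287) (b (l 1048829567) (l 16768144))) (l 1048769663)))))) (b (l 3) (a (b (l 3) (l 1048590975)) (l 3)))), by decide +kernel⟩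

def k5_B07pp_022_s1 : ∃ t, chk3 f_B07pp_022_s1 t 9 35 1 = true :=
  ⟨(a (b (b (a (a (l 16743936) (l 16751832)) (a (a (l 16757680) (l 16761544)) (a (b (a (l 16761432) (l 16763256)) (l 16757968)) (b (a (l 16767712) (l 16766904)) (a (l 16760792) (l 16762608)))))) (a (a (l 16730200) (l 16737808)) (a (l 16750848) (c (l 16758528) (l 16758624))))) (a (b (a (l 16722104) (l 16729112)) (a (l 16713840) (l 16720536))) (b (a (l 16736856) (l 16744600)) (a (l 16727592) (l 16735264))))) (b (a (b (a (b (l 1048718463) (a (a (l 16764440) (l 16766240)) (l 1048706175))) (l 1048627327)) (a (a (b (a (l 16760112) (l 16761920)) (l 16756736)) (b (a (l 16763744) (l 16765544)) (l 16760288))) (a (b (l 1048649343) (l 16769168)) (l 1048599167)))) (b (l 1048458367) (l 1048462463))) (a (b (a (l 16757328) (a (b (l 16759536) (l 16755224)) (b (l 16768400) (l 16764000)))) (a (l 16742856) (l 16755624))) (b (a (a (b (l 16772008) (a (l 16766696) (l 16763256))) (l 1048494719))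 (l 1048447615)) (a (b (a (l 16758064) (b (l 16762704) (l 16760568))) (l 16760616)) (b (l 1048553599) (a (l 16765976) (l 16764360)))))))), by decide +kernel⟩

def k6_B07pp_022_s1 : ∃ t, chk3 f_B07pp_022_s1 t 5 8 1 = true :=
  ⟨(a (b (l 3) (b (l 3) (b (l 3) (a (a (a (b (l 1048395391) (l 1048533119)) (b (l 3) (l 1048353919))) (l 3)) (l 3))))) (l 3)), by decide +kernel⟩

def k7_B07pp_022_s1 : ∃ t, chk3 f_B07pp_022_s1 t 4 9 1 = true :=
  ⟨(a (b (a (b (a (l 16654872) (b (l 16659584) (l 16642984))) (a (l 16601176) (l 16639088))) (b (b (a (l 16675608) (l 16690896)) (a (l 16658768) (l 16673880))) (a (b (l 16641864) (l 16625152)) (l 16669328)))) (a (b (a (l 16568704) (l 16584896)) (a (l 16536472) (l 16552024))) (b (a (l 16600088) (l 16614296)) (a (l 16566496) (l 16580432))))) (b (a (b (b (a (a (l 16701240) (l 16707784)) (a (b (l 16718632) (l 16710096)) (b (l 16725712) (l 16716704)))) (a (l 16687928) (a (l 16697648) (l 16704072)))) (a (b (l 16671456)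 (l 16654200)) (a (l 16693792) (l 16700160)))) (b (a (b (b (b (l 16749768) (l 16744984)) (l 16737920)) (a (l 16721048) (b (l 16711336) (l 16712808)))) (a (b (b (l 16747880) (l 16738272)) (l 16734816)) (b (b (b (a (l 16755864) (l 16764640)) (l 16752712)) (l 16755904)) (l 16741872)))) (a (b (a (l 16693848) (l 16700152)) (l 16680496)) (b (b (l 16724816) (l 16705600)) (l 16714000))))) (a (a (b (l 16628384) (l 16593832)) (b (l 16663040) (l 16606912))) (b (a (l 16697232) (l 16699552)) (b (l 16634768) (l 16616696)))))), by decide +kernel⟩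

def k8_B07pp_022_s1 : ∃ t, chk3 f_B07pp_022_s1 t 5 18 1 = true :=
  ⟨(a (b (a (b (a (b (a (b (l 1047799423) (a (l 16763320) (l 16761784))) (l 1047423615)) (a (b (a (l 16753200) (l 16759416)) (l 16750152)) (b (b (l 16768864) (l 16766328)) (a (l 16755536) (b (l 16760472) (l 16763152)))))) (l 1046746751)) (a (a (b (l 16743080) (l 16733880)) (b (b (c (l 16755264) (l 16755160)) (l 16747800)) (l 16740888))) (b (a (b (b (l 16766344) (a (l 16761896) (l 16760472))) (b (a (l 16754280) (l 16757952)) (l 16756352))) (l 1045859967)) (a (b (l 16752864) (l 16745592)) (b (b (l 16763816) (a (l 16754296) (l 16758008))) (a (l 16761344) (l 16754360))))))) (a (b (l 1046541951) (l 1045593215)) (b (l 3) (b (l 3) (l 1045296255))))) (a (b (b (a (l 16738824) (a (l 16738816) (l 16756296))) (a (l 16740168) (a (l 16729536) (l 16736384)))) (a (a (l 16702664) (l 16709328)) (a (l 16736864) (l 16743536)))) (b (a (b (b (a (a (l 16753280) (l 16756872)) (l 1045880959)) (a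 (a (l 16748720) (l 16752240)) (a (l 16760976) (l 16759368)))) (a (l 16753712) (b (a (l 16750880) (l 16759560)) (l 16747672)))) (b (l 1045743743) (a (b (l 1046002815) (a (l 16752808) (l 16756392))) (l 1045773439)))) (b (a (a (l 16733800) (l 16750992)) (a (b (a (l 16747944) (l 16751368)) (l 16744888)) (b (a (l 16754880) (l 16758536)) (a (l 16749984) (l 16753440))))) (a (c (l 16738312) (l 16749328)) (a (l 16748496) (c (l 16749760) (l 16755208)))))))) (b (l 3) (a (b (a (b (b (l 3) (l 1045525631)) (l 1045735039)) (b (l 3) (l 1045806207))) (a (b (l 1045877887) (a (b (a (l 16752032) (l 16755592)) (a (l 16747248) (l 16750640))) (a (a (l 16760968) (l 16762760)) (l 1046116479)))) (b (l 1045979263) (l 1046203007)))) (b (l 3) (b (l 3) (l 1046549119)))))), by decide +kernel⟩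

def k9_B07pp_022_s1 : ∃ t, chk3 f_B07pp_022_s1 t 5 19 1 = true :=
  ⟨(a (b (a (b (a (l 16710288) (c (l 16712160) (l 16722776))) (a (l 16671232) (l 16683328))) (b (a (c (l 16735080) (l 16735128)) (b (c (l 16742176) (l 16742264)) (l 16743328))) (a (b (l 16700248) (l 16691000)) (a (l 16705112) (l 16711704))))) (a (a (l 16685704) (b (l 16664880) (l 16730400))) (b (a (l 16677216) (b (a (l 16691408) (l 16698064)) (l 16727616))) (a (l 16658952) (l 16714208))))) (b (a (b (a (b (a (l 16752256) (a (l 16752104) (b (l 16752592) (l 16747792)))) (c (l 16746152) (l 16746224))) (b (a (b (l 16763088) (a (l 16751112) (l 16754528))) (l 1046487167)) (a (b (l 16753256) (l 16743336)) (b (a (l 16752928) (l 16756360)) (a (l 16748136) (l 16751352)))))) (a (a (l 16718496) (l 16746248)) (b (a (l 16736416) (l 16753288)) (l 16746288)))) (b (b (l 1046829183) (l 1047025791)) (a (b (a (b (a (l 16749728) (l 16752936)) (l 16757072)) (b (l 16763200) (a (l 16751136) (l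 16754416)))) (a (l 16739808) (b (a (l 16746424) (l 16749360)) (l 16743400)))) (a (b (l 1047245951) (b (b (l 16755408) (l 16763264)) (a (l 16747608) (l 16750544)))) (b (l 1047303807) (l 1046963327)))))) (a (b (a (b (l 16708360) (a (l 16696064) (l 16702984))) (b (l 16742672) (l 16712992))) (a (b (l 16732688) (l 16681984)) (b (a (l 16701096) (l 16707680)) (l 16737936)))) (b (a (b (a (l 16731032) (l 16736880)) (l 16746408)) (b (a (l 16752904) (b (b (l 16756592) (l 16759408)) (l 16745544))) (a (l 16733936) (l 16739128)))) (a (b (l 16717048) (l 16708784)) (b (l 16749328) (l 16720296))))))), by decide +kernel⟩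

def k10_B07pp_022_s1 : ∃ t, chk3 f_B07pp_022_s1 t 4 5 1 = true :=
  ⟨(b (b (b (a (a (l 16554472) (a (l 16533328) (l 16546400))) (a (a (l 16601184) (l 16613632)) (b (l 16598584) (l 16580392)))) (a (b (a (l 16487720) (l 16514920)) (a (b (l 16473488) (b (l 16465264) (l 16458456))) (b (l 16501392) (b (l 16493520) (l 16487112))))) (a (b (l 16539056) (b (l 16525872) (b (l 16519376) (l 16514496)))) (b (a (l 16556440) (l 16567592)) (b (l 16548208) (b (l 16541264) (l 16620344))))))) (a (a (l 16464688) (l 16493496)) (a (l 16560544) (b (l 16515920) (l 16479832))))) (a (b (a (l 16358576) (l 16385848)) (a (l 16296136) (l 16315400))) (a (b (l 16488936) (l 16335640)) (b (b (l 16444296) (l 16325864)) (a (b (l 16370008) (l 16337344)) (l 16450960)))))), by decide +kernel⟩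

def k11_B07pp_022_s1 : ∃ t, chk3 f_B07pp_022_s1 t 5 5 1 = true :=
  ⟨(b (b (b (b (a (a (l 16622128) (a (l 16640784) (l 16654432))) (a (a (l 16710880) (b (l 16729384) (l 16678984))) (a (b (l 16742584) (a (l 16689080) (l 16695488))) (a (l 16710760) (l 16711056))))) (a (a (l 16603656) (a (l 16622608) (l 16636592))) (a (a (l 16651488) (l 16666200)) (b (a (l 16684064) (l 16738320)) (l 16682080))))) (a (a (a (b (l 16537016) (b (l 16564768) (b (l 16557736) (l 16552720)))) (b (l 16591000) (b (l 16576736) (b (l 16569424) (l 16564408))))) (b (b (l 16699744) (l 16690480)) (b (a (l 16589904) (l 16604352)) (b (a (l 16582304) (l 16596536)) (b (b (b (l 16586136) (b (l 16585480) (l 72941970621093513023))) (l 16584392)) (l 16582728)))))) (a (b (a (l 16675632) (l 16690696)) (b (a (l 16619816) (l 16635088)) (b (a (l 16611984) (l 16627344)) (b (b (b (l 16699872) (b (l 16698872) (l 16614120))) (b (l 16561240) (l 16697032))) (a (l 16604344) (l 16619592))))))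 (b (a (l 16704704) (b (l 16679888) (l 16671440))) (b (b (l 16700360) (l 16695872)) (b (a (l 16641784) (l 16697208)) (b (b (b (l 16645200) (b (l 16644176) (l 16727064))) (l 16642480)) (l 16641024)))))))) (a (a (b (l 16538312) (a (l 16496816) (l 16509120))) (b (b (l 16656672) (l 16639400)) (a (l 16522792) (l 16538160)))) (a (b (a (l 16586832) (l 16602520)) (l 16646928)) (b (l 16708640) (a (l 16587784) (l 16603176)))))) (a (b (a (a (b (l 16462024) (l 16428584)) (l 16543024)) (a (l 16558576) (l 16491680))) (a (b (l 16404784) (l 16375656)) (a (l 16416456) (l 16436160)))) (b (a (b (l 16617216) (l 16589448)) (b (l 16652240) (l 16627088))) (a (a (l 16457344) (l 16478760)) (b (l 16520256) (l 16499184)))))), by decide +kernel⟩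

def k12_B07pp_022_s1 : ∃ t, chk3 f_B07pp_022_s1 t 2 3 1 = true :=
  ⟨(b (a (b (a (b (a (l 16228528) (l 16247408)) (a (l 16161216) (l 16185656))) (a (b (a (l 16264352) (l 16277512)) (l 16383752)) (b (b (l 16314232) (l 16286904)) (b (l 16263792) (l 16242928))))) (a (l 6) (b (a (l 16254952) (l 16299128)) (l 6)))) (b (a (b (a (b (l 16348416) (l 16324288)) (b (l 16388920) (l 16367768))) (a (a (l 16284384) (l 16306728)) (b (l 16350856) (l 16334880)))) (b (a (b (l 16435064) (l 16416328)) (b (l 16480336) (l 16464064))) (a (l 16477648) (l 16443048)))) (b (a (a (b (l 16270624) (l 6)) (l 16313016)) (a (l 16366824) (l 2))) (l 6)))) (l 6)), by decide +kernel⟩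

def k13_B07pp_022_s1 : ∃ t, chk3 f_B07pp_022_s1 t 3 4 1 = true :=
  ⟨(b (l 3) (a (a (b (l 3) (a (b (b (b (l 3) (a (l 1050797183) (l 3))) (b (a (a (l 1047287423) (l 1047139455)) (l 3)) (a (l 1046786175) (l 1046448767)))) (b (a (b (a (b (l 16766688) (a (l 16749560) (l 16752488))) (l 1046590591)) (a (b (l 16756840) (l 16742040)) (b (b (l 16753104) (l 16761048)) (l 16757576)))) (b (l 1046316159) (a (b (l 1046516351) (a (l 16751152) (l 16754072))) (l 1046404223)))) (a (b (a (l 16735952) (l 16740760)) (l 16730552)) (b (a (b (a (l 16746464) (l 16749096)) (l 16743528)) (b (a (l 16751888) (l 16754760)) (a (l 16747152) (l 16749792)))) (b (l 16752560) (l 16738312)))))) (b (l 3) (b (a (l 1048632335) (a (l 1046719103) (a (l 1045999743) (l 3)))) (b (a (b (l 1046423679) (a (l 16764464) (l 1046709887))) (a (b (l 1046109311) (l 1046570623)) (b (c (l 1045602943) (l 1046254207)) (l 1046880895)))) (a (a (b (a (l 16747952) (l 16750552)) (l 16745376)) (b (l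 16765216) (a (l 16748952) (l 16751584)))) (a (l 1047915135) (l 1048465535)))))))) (b (l 3) (b (l 3) (b (l 3) (a (b (b (a (l 1046860927) (l 3)) (l 1048509055)) (l 1050365567)) (l 3)))))) (l 3))), by decide +kernel⟩

def k14_B07pp_022_s1 : ∃ t, chk3 f_B07pp_022_s1 t 3 40 1 = true :=
  ⟨(b (b (a (a (a (a (l 16722784) (l 16732696)) (a (a (l 16739960) (l 16744696)) (a (b (a (l 16750072) (l 16752728)) (l 16747640)) (b (l 16767424) (b (l 16753600) (l 16751536)))))) (a (l 1051948159) (a (b (l 1054660735) (a (l 1054743679) (l 1055892607))) (l 3)))) (l 3)) (a (a (a (a (l 16715096) (l 16725304)) (a (a (l 16753800) (l 16737752)) (a (l 16742608) (b (l 16748864) (l 16745808))))) (b (a (a (a (b (l 16754584) (l 16752528)) (l 16758664)) (l 1053280383)) (a (l 1055544959) (a (l 1057287807) (l 3)))) (a (a (a (l 16750256) (b (l 16755288) (l 16753896))) (a (a (l 16758096) (l 16760600)) (l 1053983871))) (a (a (l 1055125631) (b (l 1056098431) (l 1056426111)))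 (a (b (l 1057556607) (l 1057158783)) (l 1056429695)))))) (l 2))) (a (a (a (b (a (l 16749616) (l 16718392)) (a (l 16741576) (l 16710776))) (a (b (l 16749944) (l 16763968)) (b (b (l 16740808) (l 16758896)) (a (l 16730320) (l 16735856))))) (a (b (a (b (l 16755512) (l 16747856)) (b (a (l 16756328) (l 16760536)) (a (l 16754048) (l 16757600)))) (a (l 16743664) (a (l 16771344) (l 16754136)))) (b (a (b (a (l 1055645823) (l 1056543359)) (a (l 16761200) (l 16775336))) (a (b (l 1056700031) (l 1056466559)) (l 1056578175))) (a (b (a (l 16758360) (l 16761176)) (a (l 16756056) (l 16758448))) (a (b (l 16764096) (l 16760552)) (l 2)))))) (l 2))), by decide +kernel⟩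

def k15_B07pp_022_s1 : ∃ t, chk3 f_B07pp_022_s1 t 3 41 1 = true :=
  ⟨(a (b (a (a (a (b (l 16691528) (l 16683368)) (b (l 16702768) (l 16694848))) (b (a (l 16745696) (l 16767872)) (a (l 16748200) (b (l 16720072) (l 16715952))))) (a (b (a (b (l 16738848) (l 16735368)) (l 16767440)) (a (b (l 16731608) (l 16727480)) (l 16739320))) (a (b (b (l 16754800) (l 16751832)) (l 16746544)) (a (b (l 16761952) (l 2)) (l 2))))) (a (a (b (a (l 16716832) (l 16728696)) (b (a (l 16709808) (b (l 16681424) (l 16678976))) (b (b (b (l 16713096) (b (l 16712160) (l 73496265351453869887))) (l 16710544)) (l 16709184)))) (a (b (b (l 16700448) (l 16696720)) (b (b (l 16693560) (l 16691304)) (b (b (b (l 16689640) (b (l 16688816) (l 16687952))) (l 16687312)) (l 16686016)))) (b (b (l 16712128) (l 16708680)) (b (b (l 16705720) (l 16703672)) (b (b (b (l 16702152) (b (l 16701392) (l 16700560))) (l 16699936)) (l 16698696)))))) (a (a (b (b (l 16723360) (l 16719832)) (b (b (l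 16717144) (l 16715296)) (b (b (b (l 16713928) (b (l 16713216) (l 16712400))) (l 16711776)) (l 16710584)))) (b (b (l 16732984) (l 16729072)) (b (b (l 16726176) (l 16724544)) (b (b (b (l 16723344) (l 16722072)) (l 16721224)) (l 16720064))))) (a (b (b (l 16740176) (l 16735776)) (b (b (l 16732376) (l 16730896)) (b (b (b (l 16729784) (l 16728560)) (l 16727704)) (l 16726576)))) (l 2))))) (l 2)), by decide +kernel⟩

def k16_B07pp_022_s1 : ∃ t, chk3 f_B07pp_022_s1 t 3 21 1 = true :=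
  ⟨(a (a (a (b (a (l 16729144) (l 16742328)) (b (l 16715560) (l 16618720))) (b (a (l 16713648) (l 16726912)) (a (l 16646416) (l 16660680)))) (b (a (a (l 16739192) (l 16707080)) (b (l 16754040) (l 2))) (a (b (l 16685032) (l 16674168)) (l 2)))) (l 2)), by decide +kernel⟩

def k17_B07pp_022_s1 : ∃ t, chk3 f_B07pp_022_s1 t 3 11 1 = true :=
  ⟨(a (a (a (b (b (l 16684144) (l 16661280)) (b (l 16556696) (l 16538016))) (b (a (l 16696144) (l 16628032)) (l 16583064))) (b (a (b (l 16658624) (l 2)) (l 2)) (l 2))) (l 2)), by decide +kernel⟩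

def k18_B07pp_022_s1 : ∃ t, chk3 f_B07pp_022_s1 t 3 3 1 = true :=
  ⟨(a (b (b (a (b (a (l 16597176) (l 2)) (l 2)) (l 2)) (l 2)) (l 2)) (l 2)), by decide +kernel⟩

theorem t19_B07pp_022_s1 : ∃ t, chk3 f_B07pp_022_s1 t 3 20 1 = true := ex3_b k14_B07pp_022_s1 k15_B07pp_022_s1

theorem t20_B07pp_022_s1 : ∃ t, chk3 f_B07pp_022_s1 t 3 10 1 = true := ex3_b t19_B07pp_022_s1 k16_B07pp_022_s1

theorem t21_B07pp_022_s1 : ∃ t, chk3 f_B07pp_022_s1 t 3 5 1 = true := ex3_b t20_B07pp_022_s1 k17_B07pp_022_s1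

theorem t22_B07pp_022_s1 : ∃ t, chk3 f_B07pp_022_s1 t 3 2 1 = true := ex3_b k13_B07pp_022_s1 t21_B07pp_022_s1

theorem t23_B07pp_022_s1 : ∃ t, chk3 f_B07pp_022_s1 t 3 1 1 = true := ex3_b t22_B07pp_022_s1 k18_B07pp_022_s1

theorem t24_B07pp_022_s1 : ∃ t, chk3 f_B07pp_022_s1 t 2 5 1 = true := ex3_a k10_B07pp_022_s1 k11_B07pp_022_s1

theorem t25_B07pp_022_s1 : ∃ t, chk3 f_B07pp_022_s1 t 5 9 1 = true := ex3_b k8_B07pp_022_s1 k9_B07pp_022_s1

theorem t26_B07pp_022_s1 : ∃ t, chk3 f_B07pp_022_s1 t 2 9 1 = true := ex3_a k7_B07pp_022_s1 t25_B07pp_022_s1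

theorem t27_B07pp_022_s1 : ∃ t, chk3 f_B07pp_022_s1 t 9 17 1 = true := ex3_b k4_B07pp_022_s1 k5_B07pp_022_s1

theorem t28_B07pp_022_s1 : ∃ t, chk3 f_B07pp_022_s1 t 9 8 1 = true := ex3_b k3_B07pp_022_s1 t27_B07pp_022_s1

theorem t29_B07pp_022_s1 : ∃ t, chk3 f_B07pp_022_s1 t 8 16 1 = true := ex3_a k0_B07pp_022_s1 k1_B07pp_022_s1

theorem t30_B07pp_022_s1 : ∃ t, chk3 f_B07pp_022_s1 t 8 8 1 = true := ex3_b t29_B07pp_022_s1 k2_B07pp_022_s1

theorem t31_B07pp_022_s1 : ∃ t, chk3 f_B07pp_022_s1 t 4 8 1 = true := ex3_a t30_B07pp_022_s1 t28_B07pp_022_s1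

theorem t32_B07pp_022_s1 : ∃ t, chk3 f_B07pp_022_s1 t 2 8 1 = true := ex3_a t31_B07pp_022_s1 k6_B07pp_022_s1

theorem t33_B07pp_022_s1 : ∃ t, chk3 f_B07pp_022_s1 t 2 4 1 = true := ex3_b t32_B07pp_022_s1 t26_B07pp_022_s1

theorem t34_B07pp_022_s1 : ∃ t, chk3 f_B07pp_022_s1 t 2 2 1 = true := ex3_b t33_B07pp_022_s1 t24_B07pp_022_s1

theorem t35_B07pp_022_s1 : ∃ t, chk3 f_B07pp_022_s1 t 2 1 1 = true := ex3_b t34_B07pp_022_s1 k12_B07pp_022_s1

theorem t36_B07pp_022_s1 : ∃ t, chk3 f_B07pp_022_s1 t 1 1 1 = true := ex3_a t35_B07pp_022_s1 t23_B07pp_022_s1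

theorem c_B07pp_022_s1 : CertF 0 536870912 1073741824 536870912 697932185 42949674 false true true .pp 0 2 2
    ndB0q0 ndB7q2 pcB2 cut_B07pp_022_s1 xt_B07pp_022_s1 :=
  certF1 (fam := false) (s1 := true) (s2 := true) (a := 0) (b := 2) (c := 2) (cn := .pp) (n1 := ndB0q0) (n2 := ndB7q2) (pc := pcB2) (cut := cut_B07pp_022_s1) (xt := xt_B07pp_022_s1) (P1 := 0) (W1 := 536870912) (P2 := 1073741824) (W2 := 536870912) (P3 := 697932185) (W3 := 42949674)
    rfl (fun _ => rfl) t36_B07pp_022_s1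

theorem s_B07pp_022_s1 {κ x : ℝ} (hκ : κ * h0 = ken x) (hx : ((697932185 : ℕ) : ℝ) / S ≤ x)
    (hx' : x ≤ (((697932185 : ℕ) : ℝ) + (42949674 : ℕ)) / S)
    (H : CutB (VFD κ) PP tK tL pcB (Cut.of [[⟨0, 0, 0, 53687091⟩, ⟨1, 1, 0, 53687091⟩, ⟨2, 1, 0, 53687091⟩]]) 0 2 2 0 7 (sgb true) (sgb true) x) :
    AltB (VFD κ) PP tK tL pcB [⟨3, 0, 0, 1449551462⟩] 0 2 2 0 7 (sgb true) (sgb true) x :=
  strip_altBD (m := 1449551462) true rfl hκ (SH.κ0 hκ (SH.hx1 hx).le (SH.hx2 hx').le) (SH.hx1 hx).le (SH.hx2 hx') (covB00).cov (covB72).cov hx hx' c_B07pp_022_s1 H ((okx6 hx hx').extB (T := tt) (okx hx hx') (sideB hx hx') hκ rfl rfl (.O 0 true) (.N 2 true) rfl)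

noncomputable def cut_B07pp_023_s1 : Cut := Cut.of [[⟨4, 0, 0, 1449551462⟩]]

noncomputable def xt_B07pp_023_s1 : Ext := strExt6 dd false true true .u0 .s2 .u2 .up 0 2 3 rfl rfl gf2 vv ww ndB0q0 ndB7q3

noncomputable def f_B07pp_023_s1 : ℕ → ℕ → ℕ → ℕ → Bool := onCell 1073741824 536870912 0 1230186008 697932185 42949674
    (rowF 2 false true true .up 0 2 3 (qsf 0 536870912 0 1230186008 2) ndB0q0 ndB7q3 pcB2 cut_B07pp_023_s1 xt_B07pp_023_s1)

def k0_B07pp_023_s1 : ∃ t, chk3 f_B07pp_023_s1 t 1 2 1 = true :=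
  ⟨(a (l 2) (a (l 2) (l 6))), by decide +kernel⟩

def k1_B07pp_023_s1 : ∃ t, chk3 f_B07pp_023_s1 t 4 3 1 = true :=
  ⟨(b (l 2) (b (l 2) (l 3))), by decide +kernel⟩

def k2_B07pp_023_s1 : ∃ t, chk3 f_B07pp_023_s1 t 5 6 1 = true :=
  ⟨(a (l 2) (b (l 2) (a (l 2) (b (l 2) (l 346382130999))))), by decide +kernel⟩

def k3_B07pp_023_s1 : ∃ t, chk3 f_B07pp_023_s1 t 40 7 1 = true :=
  ⟨(b (l 3) (b (l 3) (a (b (l 3) (b (l 3) (a (l 3) (a (l 3) (l 1057378319))))) (a (b (l 3) (a (b (l 3) (l 1056700031)) (a (b (l 1055744127) (l 1056295551)) (b (l 1055498879) (l 1057682959))))) (b (b (a (l 3) (b (l 3) (a (l 3) (l 1053542015)))) (a (b (l 3) (a (l 1054744079) (l 1054595199))) (b (c (l 1054095999) (l 1054052479)) (c (l 1054554751) (l 1054516351))))) (b (a (b (l 1055076991) (l 1055435903)) (b (l 1054919695) (l 1055352447))) (a (b (l 1055765119) (l 16770624)) (b (l 16774544) (l 16766304))))))))), by decide +kernel⟩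

def k4_B07pp_023_s1 : ∃ t, chk3 f_B07pp_023_s1 t 41 14 1 = true :=
  ⟨(a (l 3) (a (b (l 2) (b (l 2) (a (b (l 3) (a (l 3) (b (l 1060124687) (l 1059266063)))) (b (b (l 2) (a (c (l 1067292287) (l 1062442623)) (a (l 1064266879) (l 1064151055)))) (a (b (a (l 1061645951) (l 1062228095)) (a (l 1060747391) (l 1061304447))) (a (b (l 1062755967) (l 1061807743)) (b (l 1066443391) (l 1064396927)))))))) (a (b (l 2) (b (l 2) (a (b (a (b (c (l 1066487311) (l 1065680911)) (c (l 1068181631) (l 1063645711))) (b (a (l 1065811983) (b (l 2) (l 16778056))) (a (l 1065870463) (l 1065941007)))) (a (b (b (l 1063862399) (l 16776752)) (l 1064131087)) (b (c (l 16776688) (l 1065703439)) (c (l 16778032) (l 16777472))))) (a (b (b (a (l 1065988847) (l 16206791687)) (a (l 16777088) (l 1064873199))) (a (b (l 1063834863) (l 16777192)) (b (l 16778224) (l 16781952)))) (b (b (a (l 16777424) (l 22649241303)) (a (b (l 16774080) (l 16773528)) (l 16778616))) (b (b (l 16777864)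 (l 16782368)) (l 16775832))))))) (a (a (b (l 2) (b (l 2) (b (b (a (c (l 16774192) (l 16768560)) (a (l 15669922887) (l 73768768383629377343))) (a (l 16772816) (a (l 16772336) (l 73763279625811385151)))) (b (a (l 16771384) (a (l 16770888) (l 73756770504459156287))) (a (l 16769696) (a (l 16769200) (l 73749205862681680703))))))) (b (l 2) (b (l 2) (b (b (l 16772728) (l 16771472)) (b (l 16769984) (l 16768256)))))) (b (l 2) (b (l 2) (b (b (l 16771920) (l 16770632)) (b (l 16769120) (l 16767368))))))))), by decide +kernel⟩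

def k5_B07pp_023_s1 : ∃ t, chk3 f_B07pp_023_s1 t 82 15 1 = true :=
  ⟨(b (a (b (l 3) (b (l 3) (a (a (l 3) (b (l 3) (b (l 3) (l 1053317247)))) (b (a (l 3) (l 1054118015)) (a (b (l 1053713535) (l 1053806719)) (b (l 1054258815) (l 1054345343))))))) (b (b (a (l 3) (a (l 3) (b (l 3) (c (l 1057100927) (l 1055554175))))) (a (l 3) (a (b (l 1055479423) (l 1055708799)) (b (l 1056490623) (l 1056689791))))) (a (b (a (l 1054947855) (l 1055134735)) (b (l 1055054351) (a (l 1054908031) (l 1055587455)))) (a (b (l 1055952911) (b (l 1056227967) (l 16770664))) (b (l 1057417743) (b (l 1057119871) (l 16766400))))))) (b (a (b (a (b (l 1053920895) (l 1053543551)) (b (a (c (l 1054401151) (l 1053533311)) (b (l 1054426239) (l 1054507135))) (a (l 1054173823) (l 1054657663)))) (a (b (a (l 1054142591) (l 1054300799)) (l 1054738559)) (b (a (l 1054591103) (l 16766048)) (a (l 16765352) (l 16763160))))) (b (b (a (a (l 1055056511) (l 16770048)) (a (l 16765536) (l 16763880)))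 (a (a (l 16766736) (l 16764736)) (a (l 16762984) (l 16761264)))) (a (b (a (l 16763952) (l 16762128)) (l 16763184)) (b (l 16759520) (l 16757056))))) (a (b (a (b (l 1055182463) (l 16768008)) (b (a (l 16762384) (l 16760584)) (l 16759144))) (a (b (l 16765376) (l 16757816)) (b (l 16756968) (l 16754688)))) (a (b (b (l 16758184) (l 16755848)) (l 16752184)) (b (l 16753176) (l 16747872)))))), by decide +kernel⟩

def k6_B07pp_023_s1 : ∃ t, chk3 f_B07pp_023_s1 t 166 30 1 = true :=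
  ⟨(b (a (b (a (b (a (l 3) (b (l 1058219135) (l 1057839743))) (a (b (l 1057864831) (l 1057149567)) (c (l 1058399871) (l 1056643711)))) (b (b (l 1059283071) (a (l 1058494079) (l 1059100799))) (a (b (l 1058150527) (l 1058014847)) (l 1058619007)))) (a (b (a (l 1057300095) (l 1057662079)) (l 1057618959)) (b (a (l 1057983615) (l 1058390655)) (l 1058160655)))) (a (b (b (a (l 1059883135) (l 1059876991)) (a (l 1058614399) (l 1059649663))) (c (b (l 16771256) (l 16769568)) (b (l 16770648) (l 16768808)))) (b (b (a (l 1064112767) (l 1064460815)) (a (l 1061173887) (l 16775992))) (b (a (l 16769768) (l 16768952)) (l 16767336))))) (a (a (b (b (l 1057817727) (l 1057926783)) (b (a (l 16767376) (l 16766504)) (a (l 16765144) (l 16764192)))) (b (b (l 1058833023) (l 16767128)) (b (l 16764904) (l 16762368)))) (b (a (b (l 16767248) (l 16765032)) (b (l 16765064) (l 16762576))) (b (l 16761232) (l 16758592))))), by decide +kernel⟩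

def k7_B07pp_023_s1 : ∃ t, chk3 f_B07pp_023_s1 t 167 30 1 = true :=
  ⟨(a (b (a (b (b (c (a (l 16771976) (l 16776432)) (a (l 16771400) (l 16781104))) (a (l 16775200) (b (l 16769472) (l 16768384)))) (b (a (l 16767920) (l 16756184)) (l 16775424))) (a (b (b (l 16775112) (l 16762464)) (l 16764240)) (b (b (l 16768656) (l 16766512)) (a (l 16763376) (l 16762800))))) (b (a (b (l 16762496) (l 16759968)) (a (l 16759336) (l 16758216))) (a (b (l 16757360) (l 16754656)) (a (l 16754104) (l 16753040))))) (a (a (a (b (b (b (l 16767760) (l 16786600)) (l 16762200)) (b (l 16757384) (l 16752248))) (a (b (b (b (l 16767264) (l 16765128)) (l 16761720)) (b (l 16756920) (l 16751800))) (a (a (b (b (c (l 16766664) (l 16765248)) (l 16761464)) (b (l 16756672) (l 16751568))) (b (b (c (l 16766528) (l 16764920)) (l 16761208)) (b (l 16756392) (l 16751264)))) (b (b (c (l 16766360) (l 16764744)) (l 16761008)) (b (l 16756160) (l 16751016)))))) (a (a (b (b (b (l 16766512)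 (l 16764344)) (l 16760888)) (b (l 16756040) (l 16750880))) (a (b (b (b (l 16766400) (l 16764232)) (l 16760776)) (b (l 16755920) (l 16750752))) (a (b (b (b (l 16766336) (l 16764176)) (l 16760712)) (b (l 16755856) (l 16750688))) (b (b (b (l 16766304) (l 16764136)) (l 16760672)) (b (l 16755816) (l 16750648)))))) (b (b (b (l 16766136) (l 16763968)) (l 16760504)) (b (l 16755632) (l 16750456))))) (b (b (b (l 16765376) (l 16763200)) (l 16759720)) (b (l 16754816) (l 16749584))))), by decide +kernel⟩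

def k8_B07pp_023_s1 : ∃ t, chk3 f_B07pp_023_s1 t 83 31 1 = true :=
  ⟨(a (b (a (b (a (b (l 16762056) (l 16759344)) (l 16758280)) (l 16759216)) (b (b (l 16755848) (l 16753056)) (l 16748856))) (b (a (l 16748496) (l 16743304)) (a (l 16742872) (l 16737752)))) (b (b (a (a (l 16750432) (l 16747976)) (a (a (a (l 16746768) (a (l 16746344) (b (l 16747216) (l 16754904)))) (l 16745120)) (l 16744024))) (a (a (l 16744752) (l 16742528)) (a (a (a (l 16741232) (a (l 16740848) (l 16740248))) (l 16739544)) (l 16738368)))) (b (a (a (l 16739120) (l 16742216)) (a (a (a (l 16735984) (a (l 16735520) (l 16734776))) (l 16734048)) (l 16732792))) (a (a (l 16733704) (l 16731696)) (a (a (a (l 16730744) (l 16739952)) (l 16728496)) (l 16727128)))))), by decide +kernel⟩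

def k9_B07pp_023_s1 : ∃ t, chk3 f_B07pp_023_s1 t 21 7 1 = true :=
  ⟨(b (a (b (l 2) (a (a (b (b (l 2) (l 327591917367)) (b (b (l 16769176) (l 16767792)) (b (l 16766184) (l 16764328)))) (b (b (l 2) (l 16766688)) (b (l 16763968) (l 16760376)))) (b (b (l 2) (l 16760384)) (b (l 16757000) (l 16752968))))) (a (b (l 2) (b (l 16753472) (l 16745424))) (b (l 319001978487) (b (l 16744888) (l 16735816))))) (b (a (a (b (b (b (l 16759776) (l 16757488)) (l 16753872)) (b (l 16748712) (l 16743176))) (b (b (l 16748272) (l 16743096)) (b (l 16737440) (l 16731472)))) (b (a (l 16735040) (l 16724264)) (l 16759008))) (b (a (b (a (l 16737320) (l 16725144)) (l 16751240)) (b (l 16707136) (l 16699360))) (a (b (l 16718472) (l 16711416)) (l 16727632))))), by decide +kernel⟩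

def k10_B07pp_023_s1 : ∃ t, chk3 f_B07pp_023_s1 t 11 7 1 = true :=
  ⟨(b (b (a (b (l 16739360) (l 16774504)) (b (l 16713272) (l 16701928))) (a (b (l 16786392) (l 16711240)) (b (l 16687960) (l 16673144)))) (b (a (b (l 16697704) (a (l 16693840) (l 16671328))) (b (l 16657048) (l 16635000))) (a (b (a (l 16677544) (l 16649808)) (b (l 16645104) (l 16629192))) (b (l 16605872) (l 16611608))))), by decide +kernel⟩

def k11_B07pp_023_s1 : ∃ t, chk3 f_B07pp_023_s1 t 3 3 1 = true :=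
  ⟨(a (b (b (a (l 2) (a (l 131633943591) (l 6))) (a (a (b (l 16805320) (l 16788648)) (b (l 16706352) (l 16683224))) (b (l 16766696) (a (l 16659528) (l 6))))) (b (a (a (b (l 16761744) (b (l 16653464) (l 16636848))) (b (l 16648120) (l 16692936))) (a (b (l 16623304) (l 16646928)) (l 6))) (b (a (b (a (l 16613072) (l 16562552)) (a (l 16580616) (l 16520072))) (a (l 16651488) (l 6))) (a (b (a (l 16541168) (l 16473336)) (a (l 16496024) (l 16419992))) (b (l 16446000) (b (l 16319576) (l 16290520))))))) (l 6)), by decide +kernel⟩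

theorem t12_B07pp_023_s1 : ∃ t, chk3 f_B07pp_023_s1 t 83 30 1 = true := ex3_a k6_B07pp_023_s1 k7_B07pp_023_s1

theorem t13_B07pp_023_s1 : ∃ t, chk3 f_B07pp_023_s1 t 83 15 1 = true := ex3_b t12_B07pp_023_s1 k8_B07pp_023_s1

theorem t14_B07pp_023_s1 : ∃ t, chk3 f_B07pp_023_s1 t 41 15 1 = true := ex3_a k5_B07pp_023_s1 t13_B07pp_023_s1

theorem t15_B07pp_023_s1 : ∃ t, chk3 f_B07pp_023_s1 t 41 7 1 = true := ex3_b k4_B07pp_023_s1 t14_B07pp_023_s1

theorem t16_B07pp_023_s1 : ∃ t, chk3 f_B07pp_023_s1 t 20 7 1 = true := ex3_a k3_B07pp_023_s1 t15_B07pp_023_s1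

theorem t17_B07pp_023_s1 : ∃ t, chk3 f_B07pp_023_s1 t 10 7 1 = true := ex3_a t16_B07pp_023_s1 k9_B07pp_023_s1

theorem t18_B07pp_023_s1 : ∃ t, chk3 f_B07pp_023_s1 t 5 7 1 = true := ex3_a t17_B07pp_023_s1 k10_B07pp_023_s1

theorem t19_B07pp_023_s1 : ∃ t, chk3 f_B07pp_023_s1 t 5 3 1 = true := ex3_b k2_B07pp_023_s1 t18_B07pp_023_s1

theorem t20_B07pp_023_s1 : ∃ t, chk3 f_B07pp_023_s1 t 2 3 1 = true := ex3_a k1_B07pp_023_s1 t19_B07pp_023_s1

theorem t21_B07pp_023_s1 : ∃ t, chk3 f_B07pp_023_s1 t 1 3 1 = true := ex3_a t20_B07pp_023_s1 k11_B07pp_023_s1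

theorem t22_B07pp_023_s1 : ∃ t, chk3 f_B07pp_023_s1 t 1 1 1 = true := ex3_b k0_B07pp_023_s1 t21_B07pp_023_s1

theorem c_B07pp_023_s1 : CertF 0 536870912 0 1230186008 697932185 42949674 false true true .up 0 2 3
    ndB0q0 ndB7q3 pcB2 cut_B07pp_023_s1 xt_B07pp_023_s1 :=
  certF2 (fam := false) (s1 := true) (s2 := true) (a := 0) (b := 2) (c := 3) (cn := .up) (n1 := ndB0q0) (n2 := ndB7q3) (pc := pcB2) (cut := cut_B07pp_023_s1) (xt := xt_B07pp_023_s1) (P1 := 0) (W1 := 536870912) (P2 := 0) (W2 := 1230186008) (P3 := 697932185) (W3 := 42949674)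
    rfl (fun _ => rfl) t22_B07pp_023_s1

theorem s_B07pp_023_s1 {κ x : ℝ} (hκ : κ * h0 = ken x) (hx : ((697932185 : ℕ) : ℝ) / S ≤ x)
    (hx' : x ≤ (((697932185 : ℕ) : ℝ) + (42949674 : ℕ)) / S) :
    AltB (VFD κ) PP tK tL pcB [⟨3, 0, 0, 1449551462⟩] 0 2 3 0 7 (sgb true) (sgb true) x :=
  strip_altBD (m := 1449551462) true rfl hκ (SH.κ0 hκ (SH.hx1 hx).le (SH.hx2 hx').le) (SH.hx1 hx).le (SH.hx2 hx') (covB00).cov (covB73).cov hx hx' c_B07pp_023_s1 cutB_nil ((okx6 hx hx').extB (T := tt) (okx hx hx') (sideB hx hx') hκ rfl rfl (.O 0 true) (.N 3 true) rfl)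

noncomputable def cut_B07pp_033_s1 : Cut := Cut.of [[⟨4, 0, 0, 1449551462⟩]]

noncomputable def f_B07pp_033_s1 : ℕ → ℕ → ℕ → ℕ → Bool := onCell 1610612736 536870912 0 1230186008 697932185 42949674
    (rowF 2 false true true .pnn 0 3 3 (qsf 0 536870912 0 1230186008 3) ndB0q0 ndB7q3 pcB3 cut_B07pp_033_s1 Ext.none)

def k0_B07pp_033_s1 : ∃ t, chk3 f_B07pp_033_s1 t 1 1 1 = true :=
  ⟨(b (l 6) (l 6)), by decide +kernel⟩

theorem c_B07pp_033_s1 : CertF 0 536870912 0 1230186008 697932185 42949674 false true true .pnn 0 3 3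
    ndB0q0 ndB7q3 pcB3 cut_B07pp_033_s1 Ext.none :=
  certF2 (fam := false) (s1 := true) (s2 := true) (a := 0) (b := 3) (c := 3) (cn := .pnn) (n1 := ndB0q0) (n2 := ndB7q3) (pc := pcB3) (cut := cut_B07pp_033_s1) (xt := Ext.none) (P1 := 0) (W1 := 536870912) (P2 := 0) (W2 := 1230186008) (P3 := 697932185) (W3 := 42949674)
    rfl (fun _ => rfl) k0_B07pp_033_s1

theorem s_B07pp_033_s1 {κ x : ℝ} (hκ : κ * h0 = ken x) (hx : ((697932185 : ℕ) : ℝ) / S ≤ x)
    (hx' : x ≤ (((697932185 : ℕ) : ℝ) + (42949674 : ℕ)) / S) :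
    AltB (VFD κ) PP tK tL pcB [⟨3, 0, 0, 1449551462⟩] 0 3 3 0 7 (sgb true) (sgb true) x :=
  strip_altBD (m := 1449551462) true rfl hκ (SH.κ0 hκ (SH.hx1 hx).le (SH.hx2 hx').le) (SH.hx1 hx).le (SH.hx2 hx') (covB00).cov (covB73).cov hx hx' c_B07pp_033_s1 cutB_nil (noExt_B)

noncomputable def cut_B07pp_101_s1 : Cut := Cut.of [[⟨4, 0, 0, 1449551462⟩]]

noncomputable def f_B07pp_101_s1 : ℕ → ℕ → ℕ → ℕ → Bool := onCell 536870912 536870912 536870912 536870912 697932185 42949674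
    (rowF 0 false true true .npn 1 0 1 (qsf 536870912 536870912 536870912 536870912 0) ndB0q1 ndB7q1 pcB0 cut_B07pp_101_s1 Ext.none)

def k0_B07pp_101_s1 : ∃ t, chk3 f_B07pp_101_s1 t 1 1 1 = true :=
  ⟨(a (l 3) (l 5)), by decide +kernel⟩

theorem c_B07pp_101_s1 : CertF 536870912 536870912 536870912 536870912 697932185 42949674 false true true .npn 1 0 1
    ndB0q1 ndB7q1 pcB0 cut_B07pp_101_s1 Ext.none :=
  certF0 (fam := false) (s1 := true) (s2 := true) (a := 1) (b := 0) (c := 1) (cn := .npn) (n1 := ndB0q1) (n2 := ndB7q1) (pc := pcB0) (cut := cut_B07pp_101_s1) (xt := Ext.none) (P1 := 536870912) (W1 := 536870912) (P2 := 536870912) (W2 := 536870912) (P3 := 697932185) (W3 := 42949674)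
    rfl k0_B07pp_101_s1

theorem s_B07pp_101_s1 {κ x : ℝ} (hκ : κ * h0 = ken x) (hx : ((697932185 : ℕ) : ℝ) / S ≤ x)
    (hx' : x ≤ (((697932185 : ℕ) : ℝ) + (42949674 : ℕ)) / S) :
    AltB (VFD κ) PP tK tL pcB [⟨3, 0, 0, 1449551462⟩] 1 0 1 0 7 (sgb true) (sgb true) x :=
  strip_altBD (m := 1449551462) true rfl hκ (SH.κ0 hκ (SH.hx1 hx).le (SH.hx2 hx').le) (SH.hx1 hx).le (SH.hx2 hx') (covB01).cov (covB71).cov hx hx' c_B07pp_101_s1 cutB_nil (noExt_B)

noncomputable def cut_B07pp_102_s1 : Cut := Cut.of [[⟨4, 0, 0, 1449551462⟩]]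

noncomputable def f_B07pp_102_s1 : ℕ → ℕ → ℕ → ℕ → Bool := onCell 536870912 536870912 1073741824 536870912 697932185 42949674
    (rowF 0 false true true .npp 1 0 2 (qsf 536870912 536870912 1073741824 536870912 0) ndB0q1 ndB7q2 pcB0 cut_B07pp_102_s1 Ext.none)

def k0_B07pp_102_s1 : ∃ t, chk3 f_B07pp_102_s1 t 1 1 1 = true :=
  ⟨(a (l 3) (b (l 5) (l 3))), by decide +kernel⟩

theorem c_B07pp_102_s1 : CertF 536870912 536870912 1073741824 536870912 697932185 42949674 false true true .npp 1 0 2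
    ndB0q1 ndB7q2 pcB0 cut_B07pp_102_s1 Ext.none :=
  certF0 (fam := false) (s1 := true) (s2 := true) (a := 1) (b := 0) (c := 2) (cn := .npp) (n1 := ndB0q1) (n2 := ndB7q2) (pc := pcB0) (cut := cut_B07pp_102_s1) (xt := Ext.none) (P1 := 536870912) (W1 := 536870912) (P2 := 1073741824) (W2 := 536870912) (P3 := 697932185) (W3 := 42949674)
    rfl k0_B07pp_102_s1

theorem s_B07pp_102_s1 {κ x : ℝ} (hκ : κ * h0 = ken x) (hx : ((697932185 : ℕ) : ℝ) / S ≤ x)
    (hx' : x ≤ (((697932185 : ℕ) : ℝ) + (42949674 : ℕ)) / S) :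
    AltB (VFD κ) PP tK tL pcB [⟨3, 0, 0, 1449551462⟩] 1 0 2 0 7 (sgb true) (sgb true) x :=
  strip_altBD (m := 1449551462) true rfl hκ (SH.κ0 hκ (SH.hx1 hx).le (SH.hx2 hx').le) (SH.hx1 hx).le (SH.hx2 hx') (covB01).cov (covB72).cov hx hx' c_B07pp_102_s1 cutB_nil (noExt_B)

noncomputable def cut_B07pp_112_s1 : Cut := Cut.of [[⟨4, 0, 0, 1449551462⟩]]

noncomputable def f_B07pp_112_s1 : ℕ → ℕ → ℕ → ℕ → Bool := onCell 536870912 536870912 1073741824 536870912 697932185 42949674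
    (rowF 0 false true true .dn 1 1 2 (qsf 536870912 536870912 1073741824 536870912 1) ndB0q1 ndB7q2 pcB1 cut_B07pp_112_s1 Ext.none)

def k0_B07pp_112_s1 : ∃ t, chk3 f_B07pp_112_s1 t 1 1 1 = true :=
  ⟨(a (l 3) (b (l 5) (l 3))), by decide +kernel⟩

theorem c_B07pp_112_s1 : CertF 536870912 536870912 1073741824 536870912 697932185 42949674 false true true .dn 1 1 2
    ndB0q1 ndB7q2 pcB1 cut_B07pp_112_s1 Ext.none :=
  certF0 (fam := false) (s1 := true) (s2 := true) (a := 1) (b := 1) (c := 2) (cn := .dn) (n1 := ndB0q1) (n2 := ndB7q2) (pc := pcB1) (cut := cut_B07pp_112_s1) (xt := Ext.none) (P1 := 536870912) (W1 := 536870912) (P2 := 1073741824) (W2 := 536870912) (P3 := 697932185) (W3 := 42949674)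
    rfl k0_B07pp_112_s1

theorem s_B07pp_112_s1 {κ x : ℝ} (hκ : κ * h0 = ken x) (hx : ((697932185 : ℕ) : ℝ) / S ≤ x)
    (hx' : x ≤ (((697932185 : ℕ) : ℝ) + (42949674 : ℕ)) / S) :
    AltB (VFD κ) PP tK tL pcB [⟨3, 0, 0, 1449551462⟩] 1 1 2 0 7 (sgb true) (sgb true) x :=
  strip_altBD (m := 1449551462) true rfl hκ (SH.κ0 hκ (SH.hx1 hx).le (SH.hx2 hx').le) (SH.hx1 hx).le (SH.hx2 hx') (covB01).cov (covB72).cov hx hx' c_B07pp_112_s1 cutB_nil (noExt_B)

noncomputable def cut_B07pp_113_s1 : Cut := Cut.of [[⟨4, 0, 0, 1449551462⟩], [⟨0, 1, 0, 67108864⟩, ⟨1, 1, 0, 67108864⟩, ⟨2, 2, 0, 16777216⟩]]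

noncomputable def f_B07pp_113_s1 : ℕ → ℕ → ℕ → ℕ → Bool := onCell 536870912 536870912 0 1230186008 697932185 42949674
    (rowF 2 false true true .nn 1 1 3 (qsf 536870912 536870912 0 1230186008 1) ndB0q1 ndB7q3 pcB1 cut_B07pp_113_s1 Ext.none)

def k0_B07pp_113_s1 : ∃ t, chk3 f_B07pp_113_s1 t 1 1 1 = true :=
  ⟨(b (a (l 2) (a (l 2) (b (a (l 2) (b (a (l 2) (l 14)) (l 3))) (l 3)))) (a (a (b (l 2) (b (l 2) (l 3))) (b (b (l 2) (a (l 2) (l 3))) (l 3))) (b (a (l 3) (l 3)) (l 3)))), by decide +kernel⟩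

theorem c_B07pp_113_s1 : CertF 536870912 536870912 0 1230186008 697932185 42949674 false true true .nn 1 1 3
    ndB0q1 ndB7q3 pcB1 cut_B07pp_113_s1 Ext.none :=
  certF2 (fam := false) (s1 := true) (s2 := true) (a := 1) (b := 1) (c := 3) (cn := .nn) (n1 := ndB0q1) (n2 := ndB7q3) (pc := pcB1) (cut := cut_B07pp_113_s1) (xt := Ext.none) (P1 := 536870912) (W1 := 536870912) (P2 := 0) (W2 := 1230186008) (P3 := 697932185) (W3 := 42949674)
    rfl (fun _ => rfl) k0_B07pp_113_s1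

theorem s_B07pp_113_s1 {κ x : ℝ} (hκ : κ * h0 = ken x) (hx : ((697932185 : ℕ) : ℝ) / S ≤ x)
    (hx' : x ≤ (((697932185 : ℕ) : ℝ) + (42949674 : ℕ)) / S)
    (H : CutB (VFD κ) PP tK tL pcB (Cut.of [[⟨0, 1, 0, 67108864⟩, ⟨1, 1, 0, 67108864⟩, ⟨2, 2, 0, 16777216⟩]]) 1 1 3 0 7 (sgb true) (sgb true) x) :
    AltB (VFD κ) PP tK tL pcB [⟨3, 0, 0, 1449551462⟩] 1 1 3 0 7 (sgb true) (sgb true) x :=
  strip_altBD (m := 1449551462) true rfl hκ (SH.κ0 hκ (SH.hx1 hx).le (SH.hx2 hx').le) (SH.hx1 hx).le (SH.hx2 hx') (covB01).cov (covB73).cov hx hx' c_B07pp_113_s1 H (noExt_B)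

noncomputable def cut_B07pp_123_s1 : Cut := Cut.of [[⟨4, 0, 0, 1449551462⟩], [⟨0, 1, 0, 67108864⟩, ⟨1, 1, 0, 67108864⟩, ⟨2, 2, 0, 16777216⟩]]

noncomputable def xt_B07pp_123_s1 : Ext := strExt6 dd false true true .u0 .s2 .u2 .npn 1 2 3 rfl rfl gf2 vv ww ndB0q1 ndB7q3

noncomputable def f_B07pp_123_s1 : ℕ → ℕ → ℕ → ℕ → Bool := onCell 1073741824 536870912 0 1230186008 697932185 42949674
    (rowF 2 false true true .npn 1 2 3 (qsf 536870912 536870912 0 1230186008 2) ndB0q1 ndB7q3 pcB2 cut_B07pp_123_s1 xt_B07pp_123_s1)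

def k0_B07pp_123_s1 : ∃ t, chk3 f_B07pp_123_s1 t 8 2 1 = true :=
  ⟨(b (b (a (l 14) (a (l 14) (a (l 14) (b (l 16738552) (b (l 16757152) (b (l 16765224) (l 16779912))))))) (a (l 3) (b (a (l 14) (b (a (a (l 14) (b (b (l 14) (a (l 14) (l 16776304))) (b (a (l 14) (b (a (l 16776296) (l 16776256)) (a (l 16776656) (l 16776296)))) (l 1072275599)))) (b (a (b (l 16774424) (l 16775856)) (l 16792408)) (a (b (a (b (l 16776152) (a (l 16776104) (l 16776056))) (l 16775976)) (a (b (a (l 16776312) (l 16775952)) (a (l 16776656) (l 16776320))) (b (l 16775880) (a (l 16775872) (l 16775792))))) (b (l 16775424) (l 16775680))))) (a (a (l 3) (l 1072149647)) (b (a (b (a (l 1071853711) (b (a (l 16776304) (l 16775856)) (l 1071565967))) (l 1071670415)) (b (a (b (l 16775952) (a (l 16776112) (l 16776080))) (l 16775880)) (a (b (a (l 16776496) (l 16776424)) (l 1071965839)) (b (l 16776328) (a (l 16776656) (l 16776488)))))) (l 1071996959))))) (l 3)))) (l 3)), by decide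 +kernel⟩

def k1_B07pp_123_s1 : ∃ t, chk3 f_B07pp_123_s1 t 9 8 1 = true :=
  ⟨(a (b (l 16716232) (a (b (l 16747448) (a (l 16761464) (l 16753800))) (l 16738200))) (b (l 16670136) (l 16709720))), by decide +kernel⟩

def k2_B07pp_123_s1 : ∃ t, chk3 f_B07pp_123_s1 t 18 18 1 = true :=
  ⟨(a (b (a (b (a (l 16769936) (l 16766808)) (a (b (l 16773240) (l 16775040)) (l 16771280))) (b (l 16761680) (l 16766168))) (a (b (a (b (l 16774816) (a (b (l 16775464) (l 16775808)) (l 16774888))) (b (l 16774320) (l 16774472))) (a (b (a (b (l 16776128) (a (l 16776624) (l 16776088))) (b (l 16775240) (l 16775632))) (a (l 1072169615) (b (a (l 16775976) (l 16775624)) (a (l 16776536) (l 16775960))))) (b (l 16774496) (a (b (l 16775032) (l 16775392)) (l 16774624))))) (b (a (b (l 16771248) (l 16773280)) (l 16768864)) (a (b (l 16774536) (l 16774192)) (l 16772776))))) (b (a (l 16757960) (l 16748584)) (a (b (l 16763296) (l 16767480)) (b (l 16755840) (l 16759664))))), by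 decide +kernel⟩

def k3_B07pp_123_s1 : ∃ t, chk3 f_B07pp_123_s1 t 18 19 1 = true :=
  ⟨(a (b (a (b (a (l 1071800975) (b (a (b (a (l 16775984) (l 16775368)) (l 1071170703)) (b (l 16775008) (a (l 16770072) (l 16775040)))) (a (l 1071124623) (b (a (l 16776024) (l 16775328)) (l 1070852239))))) (l 1071206031)) (b (a (b (l 16774400) (a (b (l 16774944) (a (l 16775424) (l 16774952))) (b (l 16774480) (l 16774680)))) (l 16774304)) (a (b (a (l 1070683279) (b (l 16774920) (a (l 16775624) (l 16764512)))) (l 1070605455)) (b (a (b (l 16774560) (l 16774832)) (l 16774552)) (a (b (a (l 16775104) (l 16774896)) (l 16775528)) (l 16774984)))))) (a (l 3) (b (a (l 1070500495) (b (a (l 1070702223) (b (a (l 16775456) (l 16775088)) (l 16775832))) (l 1070751887))) (l 1070437007)))) (b (a (b (a (l 16772840) (l 16769408)) (a (l 16774712) (l 16772536))) (b (l 16763528) (a (l 16769080) (l 16765016)))) (a (b (a (b (a (b (l 16775064) (l 16775264)) (l 16775136)) (a (b (a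 (l 16775776) (l 16775400)) (l 16776112)) (a (l 16775512) (l 16775552)))) (l 16774456)) (a (b (a (l 1071215759) (b (l 16775968) (l 1071685263))) (l 1071401615)) (b (a (b (l 16775560) (l 16775688)) (l 16775240)) (a (l 1071762063) (b (l 16775552) (l 16775712)))))) (b (a (l 16771912) (l 16768448)) (a (b (l 16773536) (a (l 16775136) (l 16774000))) (l 16771296)))))), by decide +kernel⟩

def k4_B07pp_123_s1 : ∃ t, chk3 f_B07pp_123_s1 t 19 9 1 = true :=
  ⟨(b (a (b (l 16737504) (a (l 16749704) (l 16741304))) (b (l 16720496) (l 16729992))) (a (b (a (l 16757112) (l 16749584)) (a (b (l 16762480) (a (l 16767920) (l 16764088))) (l 16756744))) (b (a (l 16742112) (l 16735192)) (a (l 16749752) (l 16743872))))), by decide +kernel⟩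

def k5_B07pp_123_s1 : ∃ t, chk3 f_B07pp_123_s1 t 18 5 1 = true :=
  ⟨(b (a (l 3) (b (b (a (a (l 1071207967) (l 1071634575)) (b (a (b (a (b (l 16775536) (l 16775752)) (l 16775096)) (a (l 1071691407) (b (l 16775528) (l 16775800)))) (a (b (l 16773912) (l 16775080)) (l 16773184))) (a (l 1071615631) (b (a (b (l 16775520) (l 16775856)) (l 16775080)) (a (l 1071633039) (b (l 16775512) (l 16775880))))))) (a (l 3) (l 1071455263))) (l 3))) (l 3)), by decide +kernel⟩

def k6_B07pp_123_s1 : ∃ t, chk3 f_B07pp_123_s1 t 19 10 1 = true :=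
  ⟨(a (b (b (a (b (a (l 16770952) (l 16767592)) (a (a (b (l 16773816) (l 16775072)) (l 16773072)) (l 16770776))) (b (l 16762200) (a (l 16767440) (l 16764080)))) (a (b (a (b (a (b (l 16775496) (l 16775880)) (l 16775072)) (a (l 1071569551) (b (l 16775464) (l 16775864)))) (b (l 16773040) (a (l 16775080) (l 16773784)))) (a (l 1071495823) (a (b (b (l 16775416) (l 16775824)) (l 1071452303)) (b (b (l 16774832) (l 16775144)) (a (l 16775776) (l 16775320)))))) (b (a (l 16770768) (l 16767472)) (a (b (l 16773128) (a (b (l 16774888) (l 16774952)) (l 16773936))) (l 16770928))))) (a (b (b (l 1071280271) (l 1071161375)) (l 3)) (b (a (b (a (b (a (l 16775664) (l 16775104)) (l 1071151247)) (b (a (l 16774736) (l 16774632)) (a (l 16775416) (l 16774800)))) (l 1070996623)) (b (a (b (l 16774024) (a (l 16774432) (l 16774344))) (l 16773304)) (a (b (a (l 16775168) (l 16774552)) (l 1070514319)) (b (l 16774256) (a (l 16774960) (l 16774344)))))) (a (l 1070651023) (l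 1070224015))))) (b (b (a (l 16757200) (l 16751040)) (a (b (l 16762712) (a (l 16767640) (l 16764480))) (l 16757992))) (a (b (a (b (l 16770968) (a (b (l 16773904) (l 16774120)) (l 16773048))) (b (l 16767568) (l 16770584))) (a (b (a (b (a (l 16774768) (l 16774192)) (l 1070211215)) (b (l 16774048) (a (l 16774624) (l 16774104)))) (l 1070093455)) (b (a (b (l 16773432) (l 16774064)) (l 16772456)) (a (b (a (l 16774512) (l 16774088)) (l 1070234255)) (b (l 16774144) (a (l 16774456) (l 16774152))))))) (b (a (b (l 16764272) (l 16767040)) (l 16762360)) (a (b (l 16769856) (a (l 16773320) (l 16771608))) (l 16767472)))))), by decide +kernel⟩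

def k7_B07pp_123_s1 : ∃ t, chk3 f_B07pp_123_s1 t 19 11 1 = true :=
  ⟨(a (l 3) (b (a (b (a (l 1069781135) (l 1070087311)) (l 3)) (b (a (b (a (b (a (l 16774480) (l 16774304)) (l 16775112)) (b (l 16773456) (l 16774432))) (l 1070637087)) (b (a (l 16772320) (l 16770456)) (a (b (l 16773960) (l 16774824)) (b (l 16772344) (l 16773528))))) (a (b (l 1070488095) (l 3)) (b (a (l 1070698639) (b (l 16774520) (l 16778008))) (l 1070672527))))) (a (l 3) (b (a (l 3) (b (l 1070742671) (l 3))) (l 3))))), by decide +kernel⟩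

def k8_B07pp_123_s1 : ∃ t, chk3 f_B07pp_123_s1 t 5 4 1 = true :=
  ⟨(a (b (a (a (l 16650816) (l 16717656)) (l 16767392)) (a (a (b (a (l 16715008) (l 16708472)) (b (l 16726704) (l 16735024))) (b (l 16705896) (a (l 16723792) (a (l 16721928) (a (l 16722248) (l 16555944)))))) (a (l 16788272) (l 16694368)))) (b (l 6) (a (l 16687256) (l 16686320)))), by decide +kernel⟩

def k9_B07pp_123_s1 : ∃ t, chk3 f_B07pp_123_s1 t 20 5 1 = true :=
  ⟨(a (b (b (a (b (l 16745896) (l 16752312)) (b (l 16740520) (l 16747072))) (a (b (l 16757464) (a (b (l 16762664) (l 16764992)) (l 16760424))) (b (l 16751688) (l 16755640)))) (b (a (b (a (b (l 16767600) (l 16770272)) (b (l 16763800) (l 16766632))) (a (b (a (b (l 16773200) (l 16779504)) (l 16772248)) (a (l 1070624911) (b (l 16774048) (l 16774928)))) (b (l 16769680) (a (b (l 16772720) (l 16773896)) (l 16771784))))) (b (a (b (l 16760488) (l 16763104)) (l 16759048)) (a (l 16767584) (b (l 16763344) (l 16766264)))))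 (a (b (a (b (l 1070705295) (l 1070828063)) (b (a (b (l 16774800) (l 1070890639)) (b (l 16773712) (l 16785128))) (a (l 1070980239) (l 1071099935)))) (a (l 3) (b (a (l 1071134863) (l 1071256607)) (a (l 3) (l 1071142943))))) (b (a (b (a (l 16772744) (l 16771144)) (a (b (l 16774408) (l 16775176)) (b (l 16773144) (l 16774264)))) (b (l 16769112) (l 16771856))) (a (b (a (l 1071341199) (b (l 16775040) (l 16775584))) (l 1071239823)) (b (a (l 16779696) (l 16773408)) (a (b (l 16775240) (l 16775696)) (b (l 16774384) (l 16774864))))))))) (b (b (a (b (l 16735336) (l 16742304)) (a (l 16735152) (a (l 16734632) (l 16651552)))) (a (b (l 16747032) (l 16750856)) (b (a (l 16744312) (a (l 16742904) (l 16742952))) (a (l 16748592) (a (l 16748272) (l 16748280)))))) (a (b (b (l 16755696) (a (b (l 16761288) (l 16764408)) (l 16761096))) (b (a (a (l 16769096) (l 16768328)) (l 16767328)) (a (a (l 16783600) (l 16772144)) (b (l 16770368) (l 16771376))))) (b (a (l 16777864)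 (a (b (l 16753416) (l 16759576)) (a (b (l 16764672) (l 16760056)) (l 16756840)))) (a (b (l 16765984) (a (l 16769848) (l 16769016))) (a (b (l 16765216) (l 16768200)) (b (l 16764952) (b (l 16767064) (b (l 16767608) (l 16778432)))))))))), by decide +kernel⟩

def k10_B07pp_123_s1 : ∃ t, chk3 f_B07pp_123_s1 t 21 5 1 = true :=
  ⟨(b (b (l 16727032) (l 16738560)) (b (a (l 16753712) (l 16747728)) (b (l 16758360) (l 16760088)))), by decide +kernel⟩

def k11_B07pp_123_s1 : ∃ t, chk3 f_B07pp_123_s1 t 11 5 1 = true :=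
  ⟨(b (b (a (l 16548992) (l 16711568)) (a (l 16728608) (l 16721472))) (b (a (l 16740440) (l 16729168)) (a (l 16830192) (l 16734144)))), by decide +kernel⟩

def k12_B07pp_123_s1 : ∃ t, chk3 f_B07pp_123_s1 t 3 2 1 = true :=
  ⟨(a (a (b (l 6) (b (b (l 6) (l 16710488)) (b (l 16716296) (a (l 16723888) (l 16716536))))) (b (l 6) (l 6))) (l 6)), by decide +kernel⟩

def k13_B07pp_123_s1 : ∃ t, chk3 f_B07pp_123_s1 t 4 6 1 = true :=
  ⟨(l 3), by decide +kernel⟩

def k14_B07pp_123_s1 : ∃ t, chk3 f_B07pp_123_s1 t 40 6 1 = true :=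
  ⟨(b (a (l 3) (b (a (b (b (l 1071083039) (l 3)) (l 3)) (a (b (l 1070963231) (l 3)) (b (a (l 1070957087) (b (l 16775320) (l 1070852751))) (b (l 1070601247) (l 3))))) (l 3))) (l 3)), by decide +kernel⟩

def k15_B07pp_123_s1 : ∃ t, chk3 f_B07pp_123_s1 t 82 6 1 = true :=
  ⟨(b (b (a (b (b (a (b (l 16774456) (l 16774896)) (l 16773752)) (a (l 1070865951) (b (l 16774448) (l 16774872)))) (a (b (l 1070631055) (l 1070352927)) (b (l 1070665759) (b (l 1070505503) (l 1070426143))))) (b (b (l 16772328) (a (l 16773728) (l 16772752))) (a (a (b (l 16774816) (l 1070513295)) (b (l 16774344) (b (l 16775000) (l 16775456)))) (b (l 16773600) (a (b (l 16774504) (l 16774960)) (l 16774216)))))) (a (b (a (l 3) (b (a (l 1070259743) (l 1070326927)) (l 3))) (l 3)) (b (a (b (l 1070416015) (l 1070260879)) (b (a (l 1070459023) (b (l 16774896) (l 16775328))) (l 1070350879))) (a (b (l 1070078095) (l 3)) (b (l 1070218271) (b (l 1070115983) (l 3))))))) (l 3)), by decide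 +kernel⟩

def k16_B07pp_123_s1 : ∃ t, chk3 f_B07pp_123_s1 t 83 12 1 = true :=
  ⟨(a (b (b (a (l 16771456) (l 16770560)) (a (b (l 16772624) (l 16773464)) (b (l 16771680) (l 16772496)))) (b (a (a (b (b (l 16774360) (l 16774792)) (l 1070336031)) (b (l 16774080) (a (l 16775032) (l 16774768)))) (b (l 16773344) (a (l 16774384) (l 16773888)))) (b (a (a (a (l 1070247055) (l 1070240399)) (b (l 16775512) (l 1070198415))) (a (b (l 16774960) (l 16775344)) (b (l 16774440) (l 16769552)))) (a (a (b (l 1070164511) (a (l 1070105231) (l 1070113423))) (b (l 1070157343) (l 1070092831))) (a (b (l 1070079631) (l 1070002319)) (b (a (l 16775272) (l 16774976)) (c (l 16770264) (l 16775464)))))))) (b (b (a (a (l 16769904) (l 16769432)) (a (a (a (l 16769136) (a (l 16769064) (l 16769032))) (l 16768888)) (l 16768536))) (a (a (l 16771360) (b (l 16770480) (l 16771264))) (a (a (a (l 16770560) (a (l 16770472) (b (l 16770024) (l 16770800)))) (l 16770256)) (l 16769888))))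 (b (a (a (b (l 16772584) (l 16762888)) (b (l 16772080) (l 16772864))) (a (a (a (l 16772152) (a (l 16772056) (b (l 16771608) (l 16772376)))) (l 16771832)) (l 16771448))) (b (a (a (l 16774112) (a (l 16773728) (l 16773464))) (a (a (a (l 16773264) (a (l 16773168) (l 16773104))) (l 16772944)) (l 16772512))) (a (a (b (a (l 16774720) (l 16774480)) (a (l 16775024) (l 16774784))) (c (l 16774384) (l 16774200))) (a (a (a (l 16784448) (a (l 16773872) (l 16773816))) (l 16773648)) (l 16773216))))))), by decide +kernel⟩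

def k17_B07pp_123_s1 : ∃ t, chk3 f_B07pp_123_s1 t 166 13 1 = true :=
  ⟨(b (b (a (b (a (a (l 3) (l 1070694431)) (c (l 1070167695) (l 1070050447))) (l 3)) (b (a (a (l 1070039183) (l 1069968527)) (a (b (l 1069913231) (l 1069862543)) (b (l 16770448) (l 1069769871)))) (b (a (l 1069964319) (a (l 1069785231) (l 1069662351))) (a (a (l 3) (l 1069823631)) (a (l 1069669519) (l 1069508239)))))) (a (l 3) (a (l 3) (b (a (b (l 1069503119) (l 3)) (b (l 1070900879) (l 1069028383))) (l 3))))) (l 3)), by decide +kernel⟩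

def k18_B07pp_123_s1 : ∃ t, chk3 f_B07pp_123_s1 t 334 13 1 = true :=
  ⟨(b (a (a (b (b (c (l 16775552) (l 16775536)) (b (l 1069582879) (l 1069395487))) (a (b (b (l 1069167247) (l 1068818063)) (b (b (l 1068475535) (l 3)) (l 3))) (b (b (l 1069076111) (l 1070320671)) (b (c (l 1067577999) (l 1068631183)) (c (l 1066571407) (l 1068134543)))))) (b (b (b (l 16780336) (b (l 16775312) (l 16775464))) (b (c (l 16775680) (l 16775696)) (a (l 1069299343) (l 16775888)))) (b (b (a (l 1068995727) (l 1068960799)) (a (l 1069136927) (b (l 1068625039) (l 1068360847)))) (b (a (b (l 1068162703) (l 1067824783)) (b (l 1068049551) (l 1068221583))) (a (l 1068312607) (b (l 1067285535) (a (l 1066818191) (l 1066735247)))))))) (a (b (b (b (l 16774872) (l 16775136)) (b (a (l 16775456) (l 16775320)) (l 1069299455))) (b (b (a (l 1068947199) (l 16775816)) (a (l 1068484863) (l 1068557567))) (b (a (l 1067855615) (l 1067982591)) (a (b (l 1067250431) (l 1066774783)) (b (l 1067470079)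 (l 1067132159)))))) (b (b (l 16774808) (b (l 16769944) (a (l 16775440) (l 16775360)))) (b (b (a (l 16775672) (l 16775560)) (a (l 1068705023) (l 16775768))) (b (a (l 1068206335) (l 1068499711)) (a (l 1067655423) (l 1068065023))))))) (a (b (b (a (l 3) (b (a (l 3) (b (a (l 1066263695) (l 1066162831)) (l 3))) (l 3))) (l 3)) (l 3)) (b (a (b (b (a (l 1065959679) (l 1066795263)) (l 1066143487)) (l 1065377023)) (b (b (l 1067541247) (l 1067192575)) (a (l 1066213631) (l 1066870527)))) (a (l 3) (b (b (l 1065732351) (l 3)) (l 3)))))), by decide +kernel⟩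

def k19_B07pp_123_s1 : ∃ t, chk3 f_B07pp_123_s1 t 2680 13 1 = true :=
  ⟨(b (b (b (c (l 16774712) (l 16774584)) (c (l 16785720) (l 16785640))) (b (b (l 16770264) (b (l 16775648) (l 16775744))) (b (a (l 16775904) (b (l 16775824) (l 16775928))) (l 1068562175)))) (b (b (b (l 1068338431) (l 1068075775)) (b (l 1067776255) (l 1067418879))) (b (a (b (l 1066659583) (l 1066053887)) (b (l 1067177215) (a (l 1066456831) (l 1066779391)))) (l 3)))), by decide +kernel⟩

def k20_B07pp_123_s1 : ∃ t, chk3 f_B07pp_123_s1 t 2681 13 1 = true :=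
  ⟨(a (b (b (b (l 16774568) (l 16775144)) (b (b (l 16775496) (b (l 16775648) (l 16775736))) (b (b (l 16770584) (a (l 16775912) (l 16775920))) (b (a (l 16776016) (l 16776024)) (l 16776128))))) (b (b (b (l 1068900607) (l 1068710143)) (a (b (l 1068269311) (l 1067979519)) (b (l 1068595967) (a (l 1068216575) (l 1068432639))))) (b (b (a (l 1067623167) (b (l 1068104959) (l 1067938047))) (b (a (l 1067263231) (l 1067747583)) (l 1067354879))) (b (a (l 1066534143) (b (l 1067259647) (l 1066932479))) (b (a (l 3) (c (l 1065947391) (l 1066984703))) (l 3)))))) (a (a (b (b (b (l 16774536) (c (l 16775128) (l 16775128))) (b (b (l 16775504) (l 16775712)) (b (c (l 16775912) (l 16775896)) (b (l 16776048) (l 16776152))))) (b (b (b (b (l 16776256) (l 16776352)) (l 16776496)) (b (l 18346533277961009375) (l 18344281340699981535))) (b (b (l 18342029403438953695) (b (l 1068322047) (l 1069782783))) (b (b (l 18335273729103212767) (l 18335273591664259295)) (b (a (l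 1067067135) (l 18333021791842184927)) (l 1067135567)))))) (b (b (b (l 16774536) (l 16775144)) (b (b (l 16770280) (l 73780555145357789503)) (b (l 73781434754869732159) (b (l 68455218975) (l 68446830367))))) (b (b (b (b (l 68446830367) (l 68438441247)) (l 16776512)) (b (l 18348785215213648095) (l 18344281478138935007))) (b (b (l 18342029403438953695) (l 18339777466177925855)) (b (b (l 18337525528916898015) (l 18335273729103212767)) (b (l 18335273591655870175) (l 18333021654403231423))))))) (b (b (b (l 16774520) (l 16775128)) (b (b (l 16775512) (l 16775728)) (b (l 16775928) (l 16776128)))) (b (b (b (l 16776312) (l 16776488)) (l 18346533277961008863)) (b (b (l 18344281340699981023) (l 18342029403430564575)) (b (l 18337525528916898015) (l 18335273591655870175))))))), by decide +kernel⟩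

def k21_B07pp_123_s1 : ∃ t, chk3 f_B07pp_123_s1 t 1341 13 1 = true :=
  ⟨(a (a (b (b (b (l 16774464) (l 16775072)) (b (b (l 16775448) (l 16775672)) (b (l 16775872) (l 16776064)))) (b (b (l 68446830367) (l 18348785077774694623)) (b (b (l 18344281340699981023) (l 18342029403430564575)) (b (l 18337525528916898015) (l 18335273591655870175))))) (a (b (b (b (l 16774416) (l 16769776)) (b (l 16775504) (b (l 16775808) (l 16776008)))) (b (b (b (l 16776192) (l 16776368)) (b (l 16776536) (l 16776672))) (b (b (l 18344281340699981023) (l 18342029403430564575)) (b (l 18337525528916898015) (l 18335273591655870175))))) (a (b (b (b (l 16774384) (l 16774992)) (b (l 16775472) (b (l 16775784) (l 16775976)))) (b (b (b (l 16776168) (l 16776344)) (b (l 16776504) (l 16776640))) (b (b (l 16776760) (b (l 16776840) (l 16776880))) (b (b (l 16776920) (l 16776944)) (b (l 16776968) (l 16776984)))))) (b (b (b (l 16774368) (l 16774968)) (b (l 16775448) (b (l 16775760)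 (l 16775960)))) (b (b (b (l 16776144) (l 16776320)) (b (l 16776480) (l 16776624))) (b (b (l 16776744) (b (l 16776816) (l 16776856))) (b (b (l 16776896) (l 16776928)) (b (l 16776952) (l 16776968))))))))) (b (b (b (l 16774280) (l 16774888)) (b (l 16775360) (b (l 16775672) (l 16775872)))) (b (b (b (l 16776056) (l 16776232)) (b (l 16776392) (l 16776528))) (b (b (l 16776648) (b (l 16776720) (l 16776760))) (b (b (l 16776792) (l 16776824)) (b (l 16776848) (l 16776864))))))), by decide +kernel⟩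

def k22_B07pp_123_s1 : ∃ t, chk3 f_B07pp_123_s1 t 671 13 1 = true :=
  ⟨(b (b (b (l 16773912) (l 16774504)) (b (l 16774968) (b (l 16775280) (l 16775480)))) (b (b (b (l 16775664) (l 16775824)) (b (l 16775976) (l 16776104))) (b (b (l 16776216) (l 16776304)) (b (a (l 16776544) (l 16776184)) (b (l 16776392) (l 16776400)))))), by decide +kernel⟩

def k23_B07pp_123_s1 : ∃ t, chk3 f_B07pp_123_s1 t 21 6 1 = true :=
  ⟨(b (a (b (b (l 16764456) (l 16765528)) (b (a (l 16769016) (l 16764384)) (b (l 16767504) (l 16768048)))) (b (l 16756768) (b (l 16757720) (l 16758568)))) (b (a (a (b (b (l 16771144) (l 16771712)) (a (b (l 16773408) (l 16776456)) (b (l 16770960) (l 16771384)))) (b (a (l 16767784) (l 16765448)) (a (l 73842268515359261503) (l 16766480)))) (b (l 16760072) (a (l 16763032) (l 16758736)))) (b (a (a (b (b (l 16778080) (l 16772936)) (b (l 16773032) (l 16773104))) (l 16788896)) (l 16760504)) (a (a (b (b (l 16773152) (l 16773168)) (b (l 16773160)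 (l 16773120))) (l 16767576)) (l 16759360))))), by decide +kernel⟩

def k24_B07pp_123_s1 : ∃ t, chk3 f_B07pp_123_s1 t 11 6 1 = true :=
  ⟨(b (a (b (l 16746000) (a (l 16750496) (l 16659760))) (b (l 16734056) (l 16735120))) (a (b (a (l 16752072) (l 16744752)) (b (l 16746376) (l 16785608))) (b (l 16734152) (a (l 16730656) (l 16720864))))), by decide +kernel⟩

def k25_B07pp_123_s1 : ∃ t, chk3 f_B07pp_123_s1 t 3 6 1 = true :=
  ⟨(a (b (a (a (b (l 16724384) (l 16725912)) (b (l 16716624) (l 16716760))) (b (l 16708080) (l 16701688))) (a (b (a (l 16637544) (l 16706288)) (a (l 16788528) (l 16682944))) (b (l 16682272) (l 1)))) (l 6)), by decide +kernel⟩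

def k26_B07pp_123_s1 : ∃ t, chk3 f_B07pp_123_s1 t 4 7 1 = true :=
  ⟨(b (l 3) (l 3)), by decide +kernel⟩

def k27_B07pp_123_s1 : ∃ t, chk3 f_B07pp_123_s1 t 40 7 1 = true :=
  ⟨(b (l 3) (b (l 3) (l 1))), by decide +kernel⟩

def k28_B07pp_123_s1 : ∃ t, chk3 f_B07pp_123_s1 t 82 14 1 = true :=
  ⟨(l 3), by decide +kernel⟩

def k29_B07pp_123_s1 : ∃ t, chk3 f_B07pp_123_s1 t 166 14 1 = true :=
  ⟨(b (l 3) (b (a (l 3) (b (l 3) (a (l 3) (b (l 3) (a (l 3) (c (l 1067236991) (l 1065147519))))))) (b (a (l 3) (a (b (l 3) (c (l 1067292287) (l 1062442623))) (a (b (l 1066870399) (l 1064266879)) (b (l 1068383247) (l 1064151055))))) (l 1)))), by decide +kernel⟩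

def k30_B07pp_123_s1 : ∃ t, chk3 f_B07pp_123_s1 t 334 14 1 = true :=
  ⟨(b (b (l 3) (a (l 3) (a (b (l 3) (l 1069541103)) (b (b (l 3) (l 1069550831)) (c (l 1069749487) (l 1068408559)))))) (b (c (a (a (b (l 3) (b (c (l 1068898831) (l 1068055055)) (a (l 1067463295) (l 1067616895)))) (b (b (a (l 3) (b (l 3) (l 1071516287))) (b (a (l 3) (l 1069774863)) (l 1072023055))) (b (b (l 1068939279) (a (l 1068469887) (l 1068558975))) (b (l 1068017679) (l 1067510287))))) (b (a (b (l 1069812463) (b (l 1069592303) (l 1069300463))) (b (a (l 1069561071) (l 1069274863)) (a (l 1069175535) (l 1068864751)))) (a (b (a (l 1068782319) (l 1068667119)) (l 1067781359)) (b (a (l 1068455663) (l 1068136687)) (a (l 1067526383) (l 16775448)))))) (a (b (a (l 3) (b (a (l 3) (b (l 3) (l 1068520463))) (a (b (l 3) (l 1067606655)) (b (l 1068855823) (l 1067774591))))) (a (b (b (l 1066788879) (a (l 1066204287) (l 1066441343))) (a (l 1065481855) (b (l 1065955455) (l 1065467519))))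 (b (b (l 1068272143) (a (l 1066655871) (l 1066827903))) (a (b (l 1066167423) (l 1065674879)) (l 1066067471))))) (b (a (b (l 1068408047) (b (l 1068112623) (a (l 1067877615) (l 1067738863)))) (b (l 1070159087) (a (l 1067734767) (l 1067506927)))) (a (b (a (l 1067153135) (l 1067117807)) (l 1066187503)) (b (a (l 1066996975) (l 1066804975)) (a (l 16778024) (l 16775104))))))) (b (a (a (b (c (l 1066487311) (l 1065680911)) (c (l 1068181631) (l 1063645711))) (b (a (l 1065811983) (b (l 1066214015) (l 1065685119))) (l 1))) (a (b (a (l 1065988847) (l 1065946351)) (l 1)) (b (a (l 16777424) (b (l 16774680) (l 16774208))) (l 1)))) (l 1)))), by decide +kernel⟩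

def k31_B07pp_123_s1 : ∃ t, chk3 f_B07pp_123_s1 t 2680 14 1 = true :=
  ⟨(b (b (a (l 3) (b (l 3) (b (l 3) (c (l 1070113519) (l 1068934895))))) (b (b (c (l 1069929711) (c (l 1069050095) (l 1068343535))) (c (l 1069658351) (l 1068418799))) (b (a (l 1068936431) (l 1068679407)) (l 1068491503)))) (b (b (b (l 1068198127) (c (l 1068358383) (l 1067173103))) (a (b (l 1067221743) (l 1066334959)) (b (l 1066968303) (b (l 16775008) (l 16774608))))) (b (b (b (l 16774256) (l 16773736)) (l 1)) (l 1)))), by decide +kernel⟩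

def k32_B07pp_123_s1 : ∃ t, chk3 f_B07pp_123_s1 t 2681 14 1 = true :=
  ⟨(a (b (b (b (l 3) (b (b (a (l 3) (a (l 3) (l 1069511407))) (a (l 1069633775) (l 1069365999))) (a (l 1069355759) (b (l 1069175535) (l 1068997871))))) (b (b (a (l 1069028079) (b (l 1068830447) (l 1068670703))) (a (l 1068717807) (b (l 1068516591) (l 1068367087)))) (b (a (l 1068418287) (l 1068110575)) (a (l 1068125423) (l 1067830511))))) (b (b (b (b (l 1067750639) (l 1067607279)) (b (l 1067411183) (l 16775720))) (b (b (a (l 16775512) (l 16775384)) (a (l 16775200) (l 16775056))) (b (a (l 16774832) (l 16774672)) (l 16769072)))) (b (b (c (l 16773808) (l 16773280)) (l 1)) (l 1)))) (a (a (b (b (b (b (l 1323954227594451242234420151147534127) (l 18371303900553653935)) (b (b (l 1069063407) (l 18369051963284237519)) (b (l 18369051825845283535) (l 1068528879)))) (b (b (a (l 1068421359) (l 18364548088762181327)) (l 18362296014062200015)) (b (l 18360044076792783055) (l 18355540339718069967))))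 (b (b (b (c (l 16776152) (l 16778640)) (b (l 16773168) (l 16775552))) (b (b (l 16775256) (l 16774912)) (a (l 68153220879) (l 16779512)))) (b (b (l 16773304) (l 1)) (l 1)))) (b (b (b (l 1323954227593846779322361036738106671) (b (b (l 18369051963292626127) (l 18369051963284237519)) (l 18366800026023209679))) (b (b (l 18364547951323227855) (l 18362296014062200015)) (b (l 18357792276979097807) (l 18355540202279116495)))) (b (b (b (l 68279048463) (b (l 68262270223) (l 68245491983))) (b (b (l 68220324623) (l 68195157263)) (c (l 68195158287) (l 16773848)))) (b (b (l 73768838752346491199) (l 1)) (l 1))))) (b (b (b (l 1323954227593846779322361036746495791) (b (l 18369051963284237519) (l 18366799888584255695))) (b (b (l 18362296151509542607) (l 18360044214240126159)) (b (l 18357792139540144335) (l 18353288402457042127)))) (b (b (b (l 68279047951) (l 68253880591)) (b (l 16777496) (l 16774064))) (b (b (l 16773032) (l 1)) (l 1)))))), by decide +kernel⟩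

def k33_B07pp_123_s1 : ∃ t, chk3 f_B07pp_123_s1 t 1341 14 1 = true :=
  ⟨(a (a (b (b (b (l 1068351023) (b (l 18369051963284237519) (l 18366799888584255695))) (b (b (l 18362296151509542607) (l 18360044214240126159)) (b (l 18357792139540144335) (l 18353288402457042127)))) (b (b (b (l 68279047951) (l 68253880591)) (b (l 16777400) (l 16773960))) (b (b (l 16772936) (l 1)) (l 1)))) (a (b (b (b (b (l 1068432431) (l 1068269615)) (b (l 18369051963284237519) (l 18366799888584255695))) (b (b (l 18362296151509542607) (l 18360044214240126159)) (b (l 18357792139540144335) (l 16776096)))) (b (b (b (l 68279047951) (l 68253880591)) (b (l 16774688) (l 16773864))) (b (b (l 16772832) (l 1)) (l 1)))) (a (b (b (b (b (b (l 16776992) (l 16777000)) (b (l 16776992) (l 16776976))) (b (b (l 16776952) (l 16776920)) (b (l 16776872) (l 16776824)))) (b (b (b (l 16776760) (l 16776680)) (b (l 16776600) (l 16776496))) (b (b (l 16776392) (l 16776264)) (l 16776048)))) (b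 (b (b (b (l 16775808) (l 16775624)) (l 16777896)) (b (b (l 16774816) (l 16774448)) (l 16773808))) (b (b (l 16772776) (l 1)) (l 1)))) (b (b (b (b (b (l 16776976) (l 16776976)) (b (l 16776968) (l 16776952))) (b (b (l 16776928) (l 16776896)) (b (l 16776848) (l 16776800)))) (b (b (b (l 16776736) (l 16776656)) (b (l 16776568) (l 16776472))) (b (b (l 16776360) (l 16776240)) (l 16776024)))) (b (b (b (b (l 16775776) (l 16775592)) (l 16777864)) (b (l 16779848) (l 16773776))) (b (b (l 16772744) (l 1)) (l 1))))))) (b (b (b (b (l 1068431455) (l 1068277343)) (b (b (l 16776816) (l 16776784)) (b (l 16776736) (l 16776680)))) (b (b (b (l 16776616) (l 16776544)) (b (l 16776456) (l 16776352))) (b (b (l 16776240) (l 16776112)) (l 16775896)))) (b (b (b (b (l 16775648) (l 16775464)) (b (l 16775240) (l 16774968))) (b (l 73774890460173566783) (l 16773632))) (b (b (l 16772592) (l 1)) (l 1))))), by decide +kernel⟩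

def k34_B07pp_123_s1 : ∃ t, chk3 f_B07pp_123_s1 t 671 14 1 = true :=
  ⟨(b (b (b (l 1068359775) (b (b (l 16776328) (l 16776288)) (b (l 16776240) (l 16776176)))) (b (b (b (l 16776104) (l 16776024)) (a (l 16776088) (l 16775656))) (b (l 16775632) (l 16775336)))) (b (b (b (l 16774984) (l 16777128)) (b (l 16773840) (l 16772976))) (b (b (l 16771920) (l 1)) (l 1)))), by decide +kernel⟩

def k35_B07pp_123_s1 : ∃ t, chk3 f_B07pp_123_s1 t 41 15 1 = true :=
  ⟨(l 1), by decide +kernel⟩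

def k36_B07pp_123_s1 : ∃ t, chk3 f_B07pp_123_s1 t 21 7 1 = true :=
  ⟨(b (b (b (b (a (a (l 1068392031) (l 16766992)) (l 16758104)) (a (a (a (b (l 16774344) (l 16774192)) (l 16771104)) (l 16766376)) (l 16757088))) (b (a (a (a (b (l 16779240) (l 16773752)) (l 16770536)) (l 16765544)) (l 16755592)) (a (a (b (l 16776960) (l 16776568)) (l 16764456)) (l 16753568)))) (a (a (a (b (b (b (l 16777920) (l 16772104)) (b (l 16771320) (l 16770344))) (b (b (l 16769176) (l 1)) (l 1))) (b (b (l 16768608) (l 16787656)) (l 1))) (b (b (l 16762832) (l 16760384)) (l 1))) (b (a (l 16753456) (l 16744872)) (l 1)))) (l 1)), by decide +kernel⟩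

def k37_B07pp_123_s1 : ∃ t, chk3 f_B07pp_123_s1 t 11 7 1 = true :=
  ⟨(b (b (a (b (l 16739344) (a (l 16740424) (l 16725208))) (l 71974180071)) (l 1)) (l 1)), by decide +kernel⟩

def k38_B07pp_123_s1 : ∃ t, chk3 f_B07pp_123_s1 t 3 7 1 = true :=
  ⟨(l 1), by decide +kernel⟩

theorem t39_B07pp_123_s1 : ∃ t, chk3 f_B07pp_123_s1 t 1340 14 1 = true := ex3_a k31_B07pp_123_s1 k32_B07pp_123_s1

theorem t40_B07pp_123_s1 : ∃ t, chk3 f_B07pp_123_s1 t 670 14 1 = true := ex3_a t39_B07pp_123_s1 k33_B07pp_123_s1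

theorem t41_B07pp_123_s1 : ∃ t, chk3 f_B07pp_123_s1 t 335 14 1 = true := ex3_a t40_B07pp_123_s1 k34_B07pp_123_s1

theorem t42_B07pp_123_s1 : ∃ t, chk3 f_B07pp_123_s1 t 167 14 1 = true := ex3_a k30_B07pp_123_s1 t41_B07pp_123_s1

theorem t43_B07pp_123_s1 : ∃ t, chk3 f_B07pp_123_s1 t 83 14 1 = true := ex3_a k29_B07pp_123_s1 t42_B07pp_123_s1

theorem t44_B07pp_123_s1 : ∃ t, chk3 f_B07pp_123_s1 t 41 14 1 = true := ex3_a k28_B07pp_123_s1 t43_B07pp_123_s1

theorem t45_B07pp_123_s1 : ∃ t, chk3 f_B07pp_123_s1 t 41 7 1 = true := ex3_b t44_B07pp_123_s1 k35_B07pp_123_s1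

theorem t46_B07pp_123_s1 : ∃ t, chk3 f_B07pp_123_s1 t 20 7 1 = true := ex3_a k27_B07pp_123_s1 t45_B07pp_123_s1

theorem t47_B07pp_123_s1 : ∃ t, chk3 f_B07pp_123_s1 t 10 7 1 = true := ex3_a t46_B07pp_123_s1 k36_B07pp_123_s1

theorem t48_B07pp_123_s1 : ∃ t, chk3 f_B07pp_123_s1 t 5 7 1 = true := ex3_a t47_B07pp_123_s1 k37_B07pp_123_s1

theorem t49_B07pp_123_s1 : ∃ t, chk3 f_B07pp_123_s1 t 2 7 1 = true := ex3_a k26_B07pp_123_s1 t48_B07pp_123_s1

theorem t50_B07pp_123_s1 : ∃ t, chk3 f_B07pp_123_s1 t 1 7 1 = true := ex3_a t49_B07pp_123_s1 k38_B07pp_123_s1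

theorem t51_B07pp_123_s1 : ∃ t, chk3 f_B07pp_123_s1 t 1340 13 1 = true := ex3_a k19_B07pp_123_s1 k20_B07pp_123_s1

theorem t52_B07pp_123_s1 : ∃ t, chk3 f_B07pp_123_s1 t 670 13 1 = true := ex3_a t51_B07pp_123_s1 k21_B07pp_123_s1

theorem t53_B07pp_123_s1 : ∃ t, chk3 f_B07pp_123_s1 t 335 13 1 = true := ex3_a t52_B07pp_123_s1 k22_B07pp_123_s1

theorem t54_B07pp_123_s1 : ∃ t, chk3 f_B07pp_123_s1 t 167 13 1 = true := ex3_a k18_B07pp_123_s1 t53_B07pp_123_s1

theorem t55_B07pp_123_s1 : ∃ t, chk3 f_B07pp_123_s1 t 83 13 1 = true := ex3_a k17_B07pp_123_s1 t54_B07pp_123_s1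

theorem t56_B07pp_123_s1 : ∃ t, chk3 f_B07pp_123_s1 t 83 6 1 = true := ex3_b k16_B07pp_123_s1 t55_B07pp_123_s1

theorem t57_B07pp_123_s1 : ∃ t, chk3 f_B07pp_123_s1 t 41 6 1 = true := ex3_a k15_B07pp_123_s1 t56_B07pp_123_s1

theorem t58_B07pp_123_s1 : ∃ t, chk3 f_B07pp_123_s1 t 20 6 1 = true := ex3_a k14_B07pp_123_s1 t57_B07pp_123_s1

theorem t59_B07pp_123_s1 : ∃ t, chk3 f_B07pp_123_s1 t 10 6 1 = true := ex3_a t58_B07pp_123_s1 k23_B07pp_123_s1

theorem t60_B07pp_123_s1 : ∃ t, chk3 f_B07pp_123_s1 t 5 6 1 = true := ex3_a t59_B07pp_123_s1 k24_B07pp_123_s1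

theorem t61_B07pp_123_s1 : ∃ t, chk3 f_B07pp_123_s1 t 2 6 1 = true := ex3_a k13_B07pp_123_s1 t60_B07pp_123_s1

theorem t62_B07pp_123_s1 : ∃ t, chk3 f_B07pp_123_s1 t 1 6 1 = true := ex3_a t61_B07pp_123_s1 k25_B07pp_123_s1

theorem t63_B07pp_123_s1 : ∃ t, chk3 f_B07pp_123_s1 t 1 3 1 = true := ex3_b t62_B07pp_123_s1 t50_B07pp_123_s1

theorem t64_B07pp_123_s1 : ∃ t, chk3 f_B07pp_123_s1 t 10 5 1 = true := ex3_a k9_B07pp_123_s1 k10_B07pp_123_s1

theorem t65_B07pp_123_s1 : ∃ t, chk3 f_B07pp_123_s1 t 5 5 1 = true := ex3_a t64_B07pp_123_s1 k11_B07pp_123_s1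

theorem t66_B07pp_123_s1 : ∃ t, chk3 f_B07pp_123_s1 t 5 2 1 = true := ex3_b k8_B07pp_123_s1 t65_B07pp_123_s1

theorem t67_B07pp_123_s1 : ∃ t, chk3 f_B07pp_123_s1 t 19 5 1 = true := ex3_b k6_B07pp_123_s1 k7_B07pp_123_s1

theorem t68_B07pp_123_s1 : ∃ t, chk3 f_B07pp_123_s1 t 9 5 1 = true := ex3_a k5_B07pp_123_s1 t67_B07pp_123_s1

theorem t69_B07pp_123_s1 : ∃ t, chk3 f_B07pp_123_s1 t 18 9 1 = true := ex3_b k2_B07pp_123_s1 k3_B07pp_123_s1

theorem t70_B07pp_123_s1 : ∃ t, chk3 f_B07pp_123_s1 t 9 9 1 = true := ex3_a t69_B07pp_123_s1 k4_B07pp_123_s1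

theorem t71_B07pp_123_s1 : ∃ t, chk3 f_B07pp_123_s1 t 9 4 1 = true := ex3_b k1_B07pp_123_s1 t70_B07pp_123_s1

theorem t72_B07pp_123_s1 : ∃ t, chk3 f_B07pp_123_s1 t 9 2 1 = true := ex3_b t71_B07pp_123_s1 t68_B07pp_123_s1

theorem t73_B07pp_123_s1 : ∃ t, chk3 f_B07pp_123_s1 t 4 2 1 = true := ex3_a k0_B07pp_123_s1 t72_B07pp_123_s1

theorem t74_B07pp_123_s1 : ∃ t, chk3 f_B07pp_123_s1 t 2 2 1 = true := ex3_a t73_B07pp_123_s1 t66_B07pp_123_s1

theorem t75_B07pp_123_s1 : ∃ t, chk3 f_B07pp_123_s1 t 1 2 1 = true := ex3_a t74_B07pp_123_s1 k12_B07pp_123_s1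

theorem t76_B07pp_123_s1 : ∃ t, chk3 f_B07pp_123_s1 t 1 1 1 = true := ex3_b t75_B07pp_123_s1 t63_B07pp_123_s1

theorem c_B07pp_123_s1 : CertF 536870912 536870912 0 1230186008 697932185 42949674 false true true .npn 1 2 3
    ndB0q1 ndB7q3 pcB2 cut_B07pp_123_s1 xt_B07pp_123_s1 :=
  certF2 (fam := false) (s1 := true) (s2 := true) (a := 1) (b := 2) (c := 3) (cn := .npn) (n1 := ndB0q1) (n2 := ndB7q3) (pc := pcB2) (cut := cut_B07pp_123_s1) (xt := xt_B07pp_123_s1) (P1 := 536870912) (W1 := 536870912) (P2 := 0) (W2 := 1230186008) (P3 := 697932185) (W3 := 42949674)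
    rfl (fun _ => rfl) t76_B07pp_123_s1

theorem s_B07pp_123_s1 {κ x : ℝ} (hκ : κ * h0 = ken x) (hx : ((697932185 : ℕ) : ℝ) / S ≤ x)
    (hx' : x ≤ (((697932185 : ℕ) : ℝ) + (42949674 : ℕ)) / S)
    (H : CutB (VFD κ) PP tK tL pcB (Cut.of [[⟨0, 1, 0, 67108864⟩, ⟨1, 1, 0, 67108864⟩, ⟨2, 2, 0, 16777216⟩]]) 1 2 3 0 7 (sgb true) (sgb true) x) :
    AltB (VFD κ) PP tK tL pcB [⟨3, 0, 0, 1449551462⟩] 1 2 3 0 7 (sgb true) (sgb true) x :=
  strip_altBD (m := 1449551462) true rfl hκ (SH.κ0 hκ (SH.hx1 hx).le (SH.hx2 hx').le) (SH.hx1 hx).le (SH.hx2 hx') (covB01).cov (covB73).cov hx hx' c_B07pp_123_s1 H ((okx6 hx hx').extB (T := tt) (okx hx hx') (sideB hx hx') hκ rfl rfl (.O 1 true) (.N 3 true) rfl)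

noncomputable def cut_B07pp_133_s1 : Cut := Cut.of [[⟨4, 0, 0, 1449551462⟩]]

noncomputable def f_B07pp_133_s1 : ℕ → ℕ → ℕ → ℕ → Bool := onCell 1610612736 536870912 0 1230186008 697932185 42949674
    (rowF 2 false true true .dn 1 3 3 (qsf 536870912 536870912 0 1230186008 3) ndB0q1 ndB7q3 pcB3 cut_B07pp_133_s1 Ext.none)

def k0_B07pp_133_s1 : ∃ t, chk3 f_B07pp_133_s1 t 1 1 1 = true :=
  ⟨(b (l 6) (l 1)), by decide +kernel⟩

theorem c_B07pp_133_s1 : CertF 536870912 536870912 0 1230186008 697932185 42949674 false true true .dn 1 3 3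
    ndB0q1 ndB7q3 pcB3 cut_B07pp_133_s1 Ext.none :=
  certF2 (fam := false) (s1 := true) (s2 := true) (a := 1) (b := 3) (c := 3) (cn := .dn) (n1 := ndB0q1) (n2 := ndB7q3) (pc := pcB3) (cut := cut_B07pp_133_s1) (xt := Ext.none) (P1 := 536870912) (W1 := 536870912) (P2 := 0) (W2 := 1230186008) (P3 := 697932185) (W3 := 42949674)
    rfl (fun _ => rfl) k0_B07pp_133_s1

theorem s_B07pp_133_s1 {κ x : ℝ} (hκ : κ * h0 = ken x) (hx : ((697932185 : ℕ) : ℝ) / S ≤ x)
    (hx' : x ≤ (((697932185 : ℕ) : ℝ) + (42949674 : ℕ)) / S) :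
    AltB (VFD κ) PP tK tL pcB [⟨3, 0, 0, 1449551462⟩] 1 3 3 0 7 (sgb true) (sgb true) x :=
  strip_altBD (m := 1449551462) true rfl hκ (SH.κ0 hκ (SH.hx1 hx).le (SH.hx2 hx').le) (SH.hx1 hx).le (SH.hx2 hx') (covB01).cov (covB73).cov hx hx' c_B07pp_133_s1 cutB_nil (noExt_B)

noncomputable def cut_B07pp_202_s1 : Cut := Cut.of [[⟨4, 0, 0, 1449551462⟩]]

noncomputable def f_B07pp_202_s1 : ℕ → ℕ → ℕ → ℕ → Bool := onCell 0 536870912 1073741824 536870912 697932185 42949674
    (rowF 0 false true true .pp 2 0 2 (qsf 0 536870912 1073741824 536870912 0) ndB0q2 ndB7q2 pcB0 cut_B07pp_202_s1 Ext.none)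

def k0_B07pp_202_s1 : ∃ t, chk3 f_B07pp_202_s1 t 1 1 1 = true :=
  ⟨(l 5), by decide +kernel⟩

theorem c_B07pp_202_s1 : CertF 0 536870912 1073741824 536870912 697932185 42949674 false true true .pp 2 0 2
    ndB0q2 ndB7q2 pcB0 cut_B07pp_202_s1 Ext.none :=
  certF0 (fam := false) (s1 := true) (s2 := true) (a := 2) (b := 0) (c := 2) (cn := .pp) (n1 := ndB0q2) (n2 := ndB7q2) (pc := pcB0) (cut := cut_B07pp_202_s1) (xt := Ext.none) (P1 := 0) (W1 := 536870912) (P2 := 1073741824) (W2 := 536870912) (P3 := 697932185) (W3 := 42949674)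
    rfl k0_B07pp_202_s1

theorem s_B07pp_202_s1 {κ x : ℝ} (hκ : κ * h0 = ken x) (hx : ((697932185 : ℕ) : ℝ) / S ≤ x)
    (hx' : x ≤ (((697932185 : ℕ) : ℝ) + (42949674 : ℕ)) / S) :
    AltB (VFD κ) PP tK tL pcB [⟨3, 0, 0, 1449551462⟩] 2 0 2 0 7 (sgb true) (sgb true) x :=
  strip_altBD (m := 1449551462) true rfl hκ (SH.κ0 hκ (SH.hx1 hx).le (SH.hx2 hx').le) (SH.hx1 hx).le (SH.hx2 hx') (covB02).cov (covB72).cov hx hx' c_B07pp_202_s1 cutB_nil (noExt_B)

noncomputable def cut_B07pp_203_s1 : Cut := Cut.of [[⟨4, 0, 0, 1449551462⟩]]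

noncomputable def f_B07pp_203_s1 : ℕ → ℕ → ℕ → ℕ → Bool := onCell 0 536870912 0 1230186008 697932185 42949674
    (rowF 0 false true true .up 2 0 3 (qsf 0 536870912 0 1230186008 0) ndB0q2 ndB7q3 pcB0 cut_B07pp_203_s1 Ext.none)

def k0_B07pp_203_s1 : ∃ t, chk3 f_B07pp_203_s1 t 1 1 1 = true :=
  ⟨(b (l 2) (b (l 2) (a (l 5) (l 3)))), by decide +kernel⟩

theorem c_B07pp_203_s1 : CertF 0 536870912 0 1230186008 697932185 42949674 false true true .up 2 0 3
    ndB0q2 ndB7q3 pcB0 cut_B07pp_203_s1 Ext.none :=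
  certF0 (fam := false) (s1 := true) (s2 := true) (a := 2) (b := 0) (c := 3) (cn := .up) (n1 := ndB0q2) (n2 := ndB7q3) (pc := pcB0) (cut := cut_B07pp_203_s1) (xt := Ext.none) (P1 := 0) (W1 := 536870912) (P2 := 0) (W2 := 1230186008) (P3 := 697932185) (W3 := 42949674)
    rfl k0_B07pp_203_s1

theorem s_B07pp_203_s1 {κ x : ℝ} (hκ : κ * h0 = ken x) (hx : ((697932185 : ℕ) : ℝ) / S ≤ x)
    (hx' : x ≤ (((697932185 : ℕ) : ℝ) + (42949674 : ℕ)) / S) :
    AltB (VFD κ) PP tK tL pcB [⟨3, 0, 0, 1449551462⟩] 2 0 3 0 7 (sgb true) (sgb true) x :=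
  strip_altBD (m := 1449551462) true rfl hκ (SH.κ0 hκ (SH.hx1 hx).le (SH.hx2 hx').le) (SH.hx1 hx).le (SH.hx2 hx') (covB02).cov (covB73).cov hx hx' c_B07pp_203_s1 cutB_nil (noExt_B)

noncomputable def cut_B07pp_213_s1 : Cut := Cut.of [[⟨4, 0, 0, 1449551462⟩], [⟨0, 1, 0, 67108864⟩, ⟨1, 1, 0, 67108864⟩, ⟨2, 2, 0, 16777216⟩]]

noncomputable def f_B07pp_213_s1 : ℕ → ℕ → ℕ → ℕ → Bool := onCell 0 536870912 0 1230186008 697932185 42949674
    (rowF 0 false true true .pnn 2 1 3 (qsf 0 536870912 0 1230186008 1) ndB0q2 ndB7q3 pcB1 cut_B07pp_213_s1 Ext.none)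

def k0_B07pp_213_s1 : ∃ t, chk3 f_B07pp_213_s1 t 1 1 1 = true :=
  ⟨(a (b (l 3) (l 5)) (b (b (a (l 3) (b (a (l 3) (l 14)) (l 3))) (l 3)) (b (l 3) (l 3)))), by decide +kernel⟩

theorem c_B07pp_213_s1 : CertF 0 536870912 0 1230186008 697932185 42949674 false true true .pnn 2 1 3
    ndB0q2 ndB7q3 pcB1 cut_B07pp_213_s1 Ext.none :=
  certF0 (fam := false) (s1 := true) (s2 := true) (a := 2) (b := 1) (c := 3) (cn := .pnn) (n1 := ndB0q2) (n2 := ndB7q3) (pc := pcB1) (cut := cut_B07pp_213_s1) (xt := Ext.none) (P1 := 0) (W1 := 536870912) (P2 := 0) (W2 := 1230186008) (P3 := 697932185) (W3 := 42949674)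
    rfl k0_B07pp_213_s1

theorem s_B07pp_213_s1 {κ x : ℝ} (hκ : κ * h0 = ken x) (hx : ((697932185 : ℕ) : ℝ) / S ≤ x)
    (hx' : x ≤ (((697932185 : ℕ) : ℝ) + (42949674 : ℕ)) / S)
    (H : CutB (VFD κ) PP tK tL pcB (Cut.of [[⟨0, 1, 0, 67108864⟩, ⟨1, 1, 0, 67108864⟩, ⟨2, 2, 0, 16777216⟩]]) 2 1 3 0 7 (sgb true) (sgb true) x) :
    AltB (VFD κ) PP tK tL pcB [⟨3, 0, 0, 1449551462⟩] 2 1 3 0 7 (sgb true) (sgb true) x :=
  strip_altBD (m := 1449551462) true rfl hκ (SH.κ0 hκ (SH.hx1 hx).le (SH.hx2 hx').le) (SH.hx1 hx).le (SH.hx2 hx') (covB02).cov (covB73).cov hx hx' c_B07pp_213_s1 H (noExt_B)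

noncomputable def cut_B07pm_001_s1 : Cut := Cut.of [[⟨4, 0, 0, 1449551462⟩]]

noncomputable def f_B07pm_001_s1 : ℕ → ℕ → ℕ → ℕ → Bool := onCell 0 536870912 536870912 536870912 697932185 42949674
    (rowF 0 false true false .up 0 0 1 (qsf 0 536870912 536870912 536870912 0) ndB0q0 ndB7q1 pcB0 cut_B07pm_001_s1 Ext.none)

def k0_B07pm_001_s1 : ∃ t, chk3 f_B07pm_001_s1 t 1 1 1 = true :=
  ⟨(l 4), by decide +kernel⟩

theorem c_B07pm_001_s1 : CertF 0 536870912 536870912 536870912 697932185 42949674 false true false .up 0 0 1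
    ndB0q0 ndB7q1 pcB0 cut_B07pm_001_s1 Ext.none :=
  certF0 (fam := false) (s1 := true) (s2 := false) (a := 0) (b := 0) (c := 1) (cn := .up) (n1 := ndB0q0) (n2 := ndB7q1) (pc := pcB0) (cut := cut_B07pm_001_s1) (xt := Ext.none) (P1 := 0) (W1 := 536870912) (P2 := 536870912) (W2 := 536870912) (P3 := 697932185) (W3 := 42949674)
    rfl k0_B07pm_001_s1

theorem s_B07pm_001_s1 {κ x : ℝ} (hκ : κ * h0 = ken x) (hx : ((697932185 : ℕ) : ℝ) / S ≤ x)
    (hx' : x ≤ (((697932185 : ℕ) : ℝ) + (42949674 : ℕ)) / S) :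
    AltB (VFD κ) PP tK tL pcB [⟨3, 0, 0, 1449551462⟩] 0 0 1 0 7 (sgb true) (sgb false) x :=
  strip_altBD (m := 1449551462) true rfl hκ (SH.κ0 hκ (SH.hx1 hx).le (SH.hx2 hx').le) (SH.hx1 hx).le (SH.hx2 hx') (covB00).cov (covB71).cov hx hx' c_B07pm_001_s1 cutB_nil (noExt_B)

noncomputable def cut_B07pm_011_s1 : Cut := Cut.of [[⟨4, 0, 0, 1449551462⟩]]

noncomputable def f_B07pm_011_s1 : ℕ → ℕ → ℕ → ℕ → Bool := onCell 0 536870912 536870912 536870912 697932185 42949674
    (rowF 0 false true false .pnn 0 1 1 (qsf 0 536870912 536870912 536870912 1) ndB0q0 ndB7q1 pcB1 cut_B07pm_011_s1 Ext.none)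

def k0_B07pm_011_s1 : ∃ t, chk3 f_B07pm_011_s1 t 1 1 1 = true :=
  ⟨(l 4), by decide +kernel⟩

theorem c_B07pm_011_s1 : CertF 0 536870912 536870912 536870912 697932185 42949674 false true false .pnn 0 1 1
    ndB0q0 ndB7q1 pcB1 cut_B07pm_011_s1 Ext.none :=
  certF0 (fam := false) (s1 := true) (s2 := false) (a := 0) (b := 1) (c := 1) (cn := .pnn) (n1 := ndB0q0) (n2 := ndB7q1) (pc := pcB1) (cut := cut_B07pm_011_s1) (xt := Ext.none) (P1 := 0) (W1 := 536870912) (P2 := 536870912) (W2 := 536870912) (P3 := 697932185) (W3 := 42949674)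
    rfl k0_B07pm_011_s1

theorem s_B07pm_011_s1 {κ x : ℝ} (hκ : κ * h0 = ken x) (hx : ((697932185 : ℕ) : ℝ) / S ≤ x)
    (hx' : x ≤ (((697932185 : ℕ) : ℝ) + (42949674 : ℕ)) / S) :
    AltB (VFD κ) PP tK tL pcB [⟨3, 0, 0, 1449551462⟩] 0 1 1 0 7 (sgb true) (sgb false) x :=
  strip_altBD (m := 1449551462) true rfl hκ (SH.κ0 hκ (SH.hx1 hx).le (SH.hx2 hx').le) (SH.hx1 hx).le (SH.hx2 hx') (covB00).cov (covB71).cov hx hx' c_B07pm_011_s1 cutB_nil (noExt_B)

noncomputable def cut_B07pm_012_s1 : Cut := Cut.of [[⟨4, 0, 0, 1449551462⟩]]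

noncomputable def f_B07pm_012_s1 : ℕ → ℕ → ℕ → ℕ → Bool := onCell 0 536870912 1073741824 536870912 697932185 42949674
    (rowF 0 false true false .pnp 0 1 2 (qsf 0 536870912 1073741824 536870912 1) ndB0q0 ndB7q2 pcB1 cut_B07pm_012_s1 Ext.none)

def k0_B07pm_012_s1 : ∃ t, chk3 f_B07pm_012_s1 t 1 1 1 = true :=
  ⟨(l 4), by decide +kernel⟩

theorem c_B07pm_012_s1 : CertF 0 536870912 1073741824 536870912 697932185 42949674 false true false .pnp 0 1 2
    ndB0q0 ndB7q2 pcB1 cut_B07pm_012_s1 Ext.none :=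
  certF0 (fam := false) (s1 := true) (s2 := false) (a := 0) (b := 1) (c := 2) (cn := .pnp) (n1 := ndB0q0) (n2 := ndB7q2) (pc := pcB1) (cut := cut_B07pm_012_s1) (xt := Ext.none) (P1 := 0) (W1 := 536870912) (P2 := 1073741824) (W2 := 536870912) (P3 := 697932185) (W3 := 42949674)
    rfl k0_B07pm_012_s1

theorem s_B07pm_012_s1 {κ x : ℝ} (hκ : κ * h0 = ken x) (hx : ((697932185 : ℕ) : ℝ) / S ≤ x)
    (hx' : x ≤ (((697932185 : ℕ) : ℝ) + (42949674 : ℕ)) / S) :
    AltB (VFD κ) PP tK tL pcB [⟨3, 0, 0, 1449551462⟩] 0 1 2 0 7 (sgb true) (sgb false) x :=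
  strip_altBD (m := 1449551462) true rfl hκ (SH.κ0 hκ (SH.hx1 hx).le (SH.hx2 hx').le) (SH.hx1 hx).le (SH.hx2 hx') (covB00).cov (covB72).cov hx hx' c_B07pm_012_s1 cutB_nil (noExt_B)

noncomputable def cut_B07pm_022_s1 : Cut := Cut.of [[⟨4, 0, 0, 1449551462⟩]]

noncomputable def f_B07pm_022_s1 : ℕ → ℕ → ℕ → ℕ → Bool := onCell 0 536870912 1073741824 536870912 697932185 42949674
    (rowF 0 false true false .pp 0 2 2 (qsf 0 536870912 1073741824 536870912 2) ndB0q0 ndB7q2 pcB2 cut_B07pm_022_s1 Ext.none)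

def k0_B07pm_022_s1 : ∃ t, chk3 f_B07pm_022_s1 t 1 1 1 = true :=
  ⟨(l 4), by decide +kernel⟩

theorem c_B07pm_022_s1 : CertF 0 536870912 1073741824 536870912 697932185 42949674 false true false .pp 0 2 2
    ndB0q0 ndB7q2 pcB2 cut_B07pm_022_s1 Ext.none :=
  certF0 (fam := false) (s1 := true) (s2 := false) (a := 0) (b := 2) (c := 2) (cn := .pp) (n1 := ndB0q0) (n2 := ndB7q2) (pc := pcB2) (cut := cut_B07pm_022_s1) (xt := Ext.none) (P1 := 0) (W1 := 536870912) (P2 := 1073741824) (W2 := 536870912) (P3 := 697932185) (W3 := 42949674)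
    rfl k0_B07pm_022_s1

theorem s_B07pm_022_s1 {κ x : ℝ} (hκ : κ * h0 = ken x) (hx : ((697932185 : ℕ) : ℝ) / S ≤ x)
    (hx' : x ≤ (((697932185 : ℕ) : ℝ) + (42949674 : ℕ)) / S) :
    AltB (VFD κ) PP tK tL pcB [⟨3, 0, 0, 1449551462⟩] 0 2 2 0 7 (sgb true) (sgb false) x :=
  strip_altBD (m := 1449551462) true rfl hκ (SH.κ0 hκ (SH.hx1 hx).le (SH.hx2 hx').le) (SH.hx1 hx).le (SH.hx2 hx') (covB00).cov (covB72).cov hx hx' c_B07pm_022_s1 cutB_nil (noExt_B)

noncomputable def cut_B07pm_023_s1 : Cut := Cut.of [[⟨4, 0, 0, 1449551462⟩]]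

noncomputable def f_B07pm_023_s1 : ℕ → ℕ → ℕ → ℕ → Bool := onCell 0 536870912 0 1230186008 697932185 42949674
    (rowF 0 false true false .up 0 2 3 (qsf 0 536870912 0 1230186008 2) ndB0q0 ndB7q3 pcB2 cut_B07pm_023_s1 Ext.none)

def k0_B07pm_023_s1 : ∃ t, chk3 f_B07pm_023_s1 t 1 1 1 = true :=
  ⟨(l 6), by decide +kernel⟩

theorem c_B07pm_023_s1 : CertF 0 536870912 0 1230186008 697932185 42949674 false true false .up 0 2 3
    ndB0q0 ndB7q3 pcB2 cut_B07pm_023_s1 Ext.none :=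
  certF0 (fam := false) (s1 := true) (s2 := false) (a := 0) (b := 2) (c := 3) (cn := .up) (n1 := ndB0q0) (n2 := ndB7q3) (pc := pcB2) (cut := cut_B07pm_023_s1) (xt := Ext.none) (P1 := 0) (W1 := 536870912) (P2 := 0) (W2 := 1230186008) (P3 := 697932185) (W3 := 42949674)
    rfl k0_B07pm_023_s1

theorem s_B07pm_023_s1 {κ x : ℝ} (hκ : κ * h0 = ken x) (hx : ((697932185 : ℕ) : ℝ) / S ≤ x)
    (hx' : x ≤ (((697932185 : ℕ) : ℝ) + (42949674 : ℕ)) / S) :
    AltB (VFD κ) PP tK tL pcB [⟨3, 0, 0, 1449551462⟩] 0 2 3 0 7 (sgb true) (sgb false) x :=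
  strip_altBD (m := 1449551462) true rfl hκ (SH.κ0 hκ (SH.hx1 hx).le (SH.hx2 hx').le) (SH.hx1 hx).le (SH.hx2 hx') (covB00).cov (covB73).cov hx hx' c_B07pm_023_s1 cutB_nil (noExt_B)

noncomputable def cut_B07pm_033_s1 : Cut := Cut.of [[⟨4, 0, 0, 1449551462⟩]]

noncomputable def f_B07pm_033_s1 : ℕ → ℕ → ℕ → ℕ → Bool := onCell 0 536870912 0 1230186008 697932185 42949674
    (rowF 0 false true false .pnn 0 3 3 (qsf 0 536870912 0 1230186008 3) ndB0q0 ndB7q3 pcB3 cut_B07pm_033_s1 Ext.none)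

def k0_B07pm_033_s1 : ∃ t, chk3 f_B07pm_033_s1 t 1 1 1 = true :=
  ⟨(l 6), by decide +kernel⟩

theorem c_B07pm_033_s1 : CertF 0 536870912 0 1230186008 697932185 42949674 false true false .pnn 0 3 3
    ndB0q0 ndB7q3 pcB3 cut_B07pm_033_s1 Ext.none :=
  certF0 (fam := false) (s1 := true) (s2 := false) (a := 0) (b := 3) (c := 3) (cn := .pnn) (n1 := ndB0q0) (n2 := ndB7q3) (pc := pcB3) (cut := cut_B07pm_033_s1) (xt := Ext.none) (P1 := 0) (W1 := 536870912) (P2 := 0) (W2 := 1230186008) (P3 := 697932185) (W3 := 42949674)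
    rfl k0_B07pm_033_s1

theorem s_B07pm_033_s1 {κ x : ℝ} (hκ : κ * h0 = ken x) (hx : ((697932185 : ℕ) : ℝ) / S ≤ x)
    (hx' : x ≤ (((697932185 : ℕ) : ℝ) + (42949674 : ℕ)) / S) :
    AltB (VFD κ) PP tK tL pcB [⟨3, 0, 0, 1449551462⟩] 0 3 3 0 7 (sgb true) (sgb false) x :=
  strip_altBD (m := 1449551462) true rfl hκ (SH.κ0 hκ (SH.hx1 hx).le (SH.hx2 hx').le) (SH.hx1 hx).le (SH.hx2 hx') (covB00).cov (covB73).cov hx hx' c_B07pm_033_s1 cutB_nil (noExt_B)

noncomputable def cut_B07pm_101_s1 : Cut := Cut.of [[⟨4, 0, 0, 1449551462⟩]]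

noncomputable def f_B07pm_101_s1 : ℕ → ℕ → ℕ → ℕ → Bool := onCell 536870912 536870912 536870912 536870912 697932185 42949674
    (rowF 0 false true false .npn 1 0 1 (qsf 536870912 536870912 536870912 536870912 0) ndB0q1 ndB7q1 pcB0 cut_B07pm_101_s1 Ext.none)

def k0_B07pm_101_s1 : ∃ t, chk3 f_B07pm_101_s1 t 1 1 1 = true :=
  ⟨(l 4), by decide +kernel⟩

theorem c_B07pm_101_s1 : CertF 536870912 536870912 536870912 536870912 697932185 42949674 false true false .npn 1 0 1
    ndB0q1 ndB7q1 pcB0 cut_B07pm_101_s1 Ext.none :=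
  certF0 (fam := false) (s1 := true) (s2 := false) (a := 1) (b := 0) (c := 1) (cn := .npn) (n1 := ndB0q1) (n2 := ndB7q1) (pc := pcB0) (cut := cut_B07pm_101_s1) (xt := Ext.none) (P1 := 536870912) (W1 := 536870912) (P2 := 536870912) (W2 := 536870912) (P3 := 697932185) (W3 := 42949674)
    rfl k0_B07pm_101_s1

theorem s_B07pm_101_s1 {κ x : ℝ} (hκ : κ * h0 = ken x) (hx : ((697932185 : ℕ) : ℝ) / S ≤ x)
    (hx' : x ≤ (((697932185 : ℕ) : ℝ) + (42949674 : ℕ)) / S) :
    AltB (VFD κ) PP tK tL pcB [⟨3, 0, 0, 1449551462⟩] 1 0 1 0 7 (sgb true) (sgb false) x :=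
  strip_altBD (m := 1449551462) true rfl hκ (SH.κ0 hκ (SH.hx1 hx).le (SH.hx2 hx').le) (SH.hx1 hx).le (SH.hx2 hx') (covB01).cov (covB71).cov hx hx' c_B07pm_101_s1 cutB_nil (noExt_B)

noncomputable def cut_B07pm_102_s1 : Cut := Cut.of [[⟨4, 0, 0, 1449551462⟩]]

noncomputable def f_B07pm_102_s1 : ℕ → ℕ → ℕ → ℕ → Bool := onCell 536870912 536870912 1073741824 536870912 697932185 42949674
    (rowF 0 false true false .npp 1 0 2 (qsf 536870912 536870912 1073741824 536870912 0) ndB0q1 ndB7q2 pcB0 cut_B07pm_102_s1 Ext.none)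

def k0_B07pm_102_s1 : ∃ t, chk3 f_B07pm_102_s1 t 1 1 1 = true :=
  ⟨(l 6), by decide +kernel⟩

theorem c_B07pm_102_s1 : CertF 536870912 536870912 1073741824 536870912 697932185 42949674 false true false .npp 1 0 2
    ndB0q1 ndB7q2 pcB0 cut_B07pm_102_s1 Ext.none :=
  certF0 (fam := false) (s1 := true) (s2 := false) (a := 1) (b := 0) (c := 2) (cn := .npp) (n1 := ndB0q1) (n2 := ndB7q2) (pc := pcB0) (cut := cut_B07pm_102_s1) (xt := Ext.none) (P1 := 536870912) (W1 := 536870912) (P2 := 1073741824) (W2 := 536870912) (P3 := 697932185) (W3 := 42949674)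
    rfl k0_B07pm_102_s1

theorem s_B07pm_102_s1 {κ x : ℝ} (hκ : κ * h0 = ken x) (hx : ((697932185 : ℕ) : ℝ) / S ≤ x)
    (hx' : x ≤ (((697932185 : ℕ) : ℝ) + (42949674 : ℕ)) / S) :
    AltB (VFD κ) PP tK tL pcB [⟨3, 0, 0, 1449551462⟩] 1 0 2 0 7 (sgb true) (sgb false) x :=
  strip_altBD (m := 1449551462) true rfl hκ (SH.κ0 hκ (SH.hx1 hx).le (SH.hx2 hx').le) (SH.hx1 hx).le (SH.hx2 hx') (covB01).cov (covB72).cov hx hx' c_B07pm_102_s1 cutB_nil (noExt_B)

noncomputable def cut_B07pm_112_s1 : Cut := Cut.of [[⟨4, 0, 0, 1449551462⟩]]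

noncomputable def f_B07pm_112_s1 : ℕ → ℕ → ℕ → ℕ → Bool := onCell 536870912 536870912 1073741824 536870912 697932185 42949674
    (rowF 0 false true false .dn 1 1 2 (qsf 536870912 536870912 1073741824 536870912 1) ndB0q1 ndB7q2 pcB1 cut_B07pm_112_s1 Ext.none)

def k0_B07pm_112_s1 : ∃ t, chk3 f_B07pm_112_s1 t 1 1 1 = true :=
  ⟨(l 6), by decide +kernel⟩

theorem c_B07pm_112_s1 : CertF 536870912 536870912 1073741824 536870912 697932185 42949674 false true false .dn 1 1 2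
    ndB0q1 ndB7q2 pcB1 cut_B07pm_112_s1 Ext.none :=
  certF0 (fam := false) (s1 := true) (s2 := false) (a := 1) (b := 1) (c := 2) (cn := .dn) (n1 := ndB0q1) (n2 := ndB7q2) (pc := pcB1) (cut := cut_B07pm_112_s1) (xt := Ext.none) (P1 := 536870912) (W1 := 536870912) (P2 := 1073741824) (W2 := 536870912) (P3 := 697932185) (W3 := 42949674)
    rfl k0_B07pm_112_s1

theorem s_B07pm_112_s1 {κ x : ℝ} (hκ : κ * h0 = ken x) (hx : ((697932185 : ℕ) : ℝ) / S ≤ x)
    (hx' : x ≤ (((697932185 : ℕ) : ℝ) + (42949674 : ℕ)) / S) :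
    AltB (VFD κ) PP tK tL pcB [⟨3, 0, 0, 1449551462⟩] 1 1 2 0 7 (sgb true) (sgb false) x :=
  strip_altBD (m := 1449551462) true rfl hκ (SH.κ0 hκ (SH.hx1 hx).le (SH.hx2 hx').le) (SH.hx1 hx).le (SH.hx2 hx') (covB01).cov (covB72).cov hx hx' c_B07pm_112_s1 cutB_nil (noExt_B)

noncomputable def cut_B07pm_113_s1 : Cut := Cut.of [[⟨4, 0, 0, 1449551462⟩], [⟨0, 1, 0, 67108864⟩, ⟨1, 1, 0, 67108864⟩, ⟨2, 2, 0, 16777216⟩]]

noncomputable def f_B07pm_113_s1 : ℕ → ℕ → ℕ → ℕ → Bool := onCell 536870912 536870912 0 1230186008 697932185 42949674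
    (rowF 0 false true false .nn 1 1 3 (qsf 536870912 536870912 0 1230186008 1) ndB0q1 ndB7q3 pcB1 cut_B07pm_113_s1 Ext.none)

def k0_B07pm_113_s1 : ∃ t, chk3 f_B07pm_113_s1 t 1 1 1 = true :=
  ⟨(b (a (l 2) (a (l 2) (b (a (l 2) (a (l 2) (b (l 14) (b (l 14) (l 16740808))))) (b (a (l 6) (b (a (l 6) (l 16735712)) (l 6))) (l 6))))) (a (l 6) (l 6))), by decide +kernel⟩

theorem c_B07pm_113_s1 : CertF 536870912 536870912 0 1230186008 697932185 42949674 false true false .nn 1 1 3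
    ndB0q1 ndB7q3 pcB1 cut_B07pm_113_s1 Ext.none :=
  certF0 (fam := false) (s1 := true) (s2 := false) (a := 1) (b := 1) (c := 3) (cn := .nn) (n1 := ndB0q1) (n2 := ndB7q3) (pc := pcB1) (cut := cut_B07pm_113_s1) (xt := Ext.none) (P1 := 536870912) (W1 := 536870912) (P2 := 0) (W2 := 1230186008) (P3 := 697932185) (W3 := 42949674)
    rfl k0_B07pm_113_s1

theorem s_B07pm_113_s1 {κ x : ℝ} (hκ : κ * h0 = ken x) (hx : ((697932185 : ℕ) : ℝ) / S ≤ x)
    (hx' : x ≤ (((697932185 : ℕ) : ℝ) + (42949674 : ℕ)) / S)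
    (H : CutB (VFD κ) PP tK tL pcB (Cut.of [[⟨0, 1, 0, 67108864⟩, ⟨1, 1, 0, 67108864⟩, ⟨2, 2, 0, 16777216⟩]]) 1 1 3 0 7 (sgb true) (sgb false) x) :
    AltB (VFD κ) PP tK tL pcB [⟨3, 0, 0, 1449551462⟩] 1 1 3 0 7 (sgb true) (sgb false) x :=
  strip_altBD (m := 1449551462) true rfl hκ (SH.κ0 hκ (SH.hx1 hx).le (SH.hx2 hx').le) (SH.hx1 hx).le (SH.hx2 hx') (covB01).cov (covB73).cov hx hx' c_B07pm_113_s1 H (noExt_B)

noncomputable def cut_B07pm_123_s1 : Cut := Cut.of [[⟨4, 0, 0, 1449551462⟩], [⟨0, 1, 0, 67108864⟩, ⟨1, 1, 0, 67108864⟩, ⟨2, 2, 0, 16777216⟩]]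

noncomputable def f_B07pm_123_s1 : ℕ → ℕ → ℕ → ℕ → Bool := onCell 1073741824 536870912 0 1230186008 697932185 42949674
    (rowF 2 false true false .npn 1 2 3 (qsf 536870912 536870912 0 1230186008 2) ndB0q1 ndB7q3 pcB2 cut_B07pm_123_s1 Ext.none)

def k0_B07pm_123_s1 : ∃ t, chk3 f_B07pm_123_s1 t 1 1 1 = true :=
  ⟨(b (a (a (b (a (b (a (l 14) (b (l 16724672) (l 16695952))) (b (a (l 14) (l 16664040)) (l 16748904))) (b (a (l 16663640) (l 16606320)) (l 6))) (a (l 6) (l 6))) (b (b (l 6) (l 6)) (l 6))) (l 6)) (l 6)), by decide +kernel⟩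

theorem c_B07pm_123_s1 : CertF 536870912 536870912 0 1230186008 697932185 42949674 false true false .npn 1 2 3
    ndB0q1 ndB7q3 pcB2 cut_B07pm_123_s1 Ext.none :=
  certF2 (fam := false) (s1 := true) (s2 := false) (a := 1) (b := 2) (c := 3) (cn := .npn) (n1 := ndB0q1) (n2 := ndB7q3) (pc := pcB2) (cut := cut_B07pm_123_s1) (xt := Ext.none) (P1 := 536870912) (W1 := 536870912) (P2 := 0) (W2 := 1230186008) (P3 := 697932185) (W3 := 42949674)
    rfl (fun _ => rfl) k0_B07pm_123_s1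

theorem s_B07pm_123_s1 {κ x : ℝ} (hκ : κ * h0 = ken x) (hx : ((697932185 : ℕ) : ℝ) / S ≤ x)
    (hx' : x ≤ (((697932185 : ℕ) : ℝ) + (42949674 : ℕ)) / S)
    (H : CutB (VFD κ) PP tK tL pcB (Cut.of [[⟨0, 1, 0, 67108864⟩, ⟨1, 1, 0, 67108864⟩, ⟨2, 2, 0, 16777216⟩]]) 1 2 3 0 7 (sgb true) (sgb false) x) :
    AltB (VFD κ) PP tK tL pcB [⟨3, 0, 0, 1449551462⟩] 1 2 3 0 7 (sgb true) (sgb false) x :=
  strip_altBD (m := 1449551462) true rfl hκ (SH.κ0 hκ (SH.hx1 hx).le (SH.hx2 hx').le) (SH.hx1 hx).le (SH.hx2 hx') (covB01).cov (covB73).cov hx hx' c_B07pm_123_s1 H (noExt_B)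

noncomputable def cut_B07pm_133_s1 : Cut := Cut.of [[⟨4, 0, 0, 1449551462⟩]]

noncomputable def f_B07pm_133_s1 : ℕ → ℕ → ℕ → ℕ → Bool := onCell 1610612736 536870912 0 1230186008 697932185 42949674
    (rowF 2 false true false .dn 1 3 3 (qsf 536870912 536870912 0 1230186008 3) ndB0q1 ndB7q3 pcB3 cut_B07pm_133_s1 Ext.none)

def k0_B07pm_133_s1 : ∃ t, chk3 f_B07pm_133_s1 t 1 1 1 = true :=
  ⟨(l 6), by decide +kernel⟩

theorem c_B07pm_133_s1 : CertF 536870912 536870912 0 1230186008 697932185 42949674 false true false .dn 1 3 3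
    ndB0q1 ndB7q3 pcB3 cut_B07pm_133_s1 Ext.none :=
  certF2 (fam := false) (s1 := true) (s2 := false) (a := 1) (b := 3) (c := 3) (cn := .dn) (n1 := ndB0q1) (n2 := ndB7q3) (pc := pcB3) (cut := cut_B07pm_133_s1) (xt := Ext.none) (P1 := 536870912) (W1 := 536870912) (P2 := 0) (W2 := 1230186008) (P3 := 697932185) (W3 := 42949674)
    rfl (fun _ => rfl) k0_B07pm_133_s1

theorem s_B07pm_133_s1 {κ x : ℝ} (hκ : κ * h0 = ken x) (hx : ((697932185 : ℕ) : ℝ) / S ≤ x)
    (hx' : x ≤ (((697932185 : ℕ) : ℝ) + (42949674 : ℕ)) / S) :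
    AltB (VFD κ) PP tK tL pcB [⟨3, 0, 0, 1449551462⟩] 1 3 3 0 7 (sgb true) (sgb false) x :=
  strip_altBD (m := 1449551462) true rfl hκ (SH.κ0 hκ (SH.hx1 hx).le (SH.hx2 hx').le) (SH.hx1 hx).le (SH.hx2 hx') (covB01).cov (covB73).cov hx hx' c_B07pm_133_s1 cutB_nil (noExt_B)

noncomputable def cut_B07pm_202_s1 : Cut := Cut.of [[⟨4, 0, 0, 1449551462⟩]]

noncomputable def f_B07pm_202_s1 : ℕ → ℕ → ℕ → ℕ → Bool := onCell 0 536870912 1073741824 536870912 697932185 42949674
    (rowF 0 false true false .pp 2 0 2 (qsf 0 536870912 1073741824 536870912 0) ndB0q2 ndB7q2 pcB0 cut_B07pm_202_s1 Ext.none)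

def k0_B07pm_202_s1 : ∃ t, chk3 f_B07pm_202_s1 t 1 1 1 = true :=
  ⟨(a (b (l 6) (a (l 6) (l 6))) (l 6)), by decide +kernel⟩

theorem c_B07pm_202_s1 : CertF 0 536870912 1073741824 536870912 697932185 42949674 false true false .pp 2 0 2
    ndB0q2 ndB7q2 pcB0 cut_B07pm_202_s1 Ext.none :=
  certF0 (fam := false) (s1 := true) (s2 := false) (a := 2) (b := 0) (c := 2) (cn := .pp) (n1 := ndB0q2) (n2 := ndB7q2) (pc := pcB0) (cut := cut_B07pm_202_s1) (xt := Ext.none) (P1 := 0) (W1 := 536870912) (P2 := 1073741824) (W2 := 536870912) (P3 := 697932185) (W3 := 42949674)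
    rfl k0_B07pm_202_s1

theorem s_B07pm_202_s1 {κ x : ℝ} (hκ : κ * h0 = ken x) (hx : ((697932185 : ℕ) : ℝ) / S ≤ x)
    (hx' : x ≤ (((697932185 : ℕ) : ℝ) + (42949674 : ℕ)) / S) :
    AltB (VFD κ) PP tK tL pcB [⟨3, 0, 0, 1449551462⟩] 2 0 2 0 7 (sgb true) (sgb false) x :=
  strip_altBD (m := 1449551462) true rfl hκ (SH.κ0 hκ (SH.hx1 hx).le (SH.hx2 hx').le) (SH.hx1 hx).le (SH.hx2 hx') (covB02).cov (covB72).cov hx hx' c_B07pm_202_s1 cutB_nil (noExt_B)

noncomputable def cut_B07pm_203_s1 : Cut := Cut.of [[⟨4, 0, 0, 1449551462⟩]]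

noncomputable def f_B07pm_203_s1 : ℕ → ℕ → ℕ → ℕ → Bool := onCell 0 536870912 0 1230186008 697932185 42949674
    (rowF 0 false true false .up 2 0 3 (qsf 0 536870912 0 1230186008 0) ndB0q2 ndB7q3 pcB0 cut_B07pm_203_s1 Ext.none)

def k0_B07pm_203_s1 : ∃ t, chk3 f_B07pm_203_s1 t 1 1 1 = true :=
  ⟨(b (l 2) (b (l 2) (a (b (b (l 2) (a (a (b (l 2) (l 16758560)) (l 240619291751)) (a (l 16745664) (l 6)))) (a (a (b (b (l 16916232) (l 16733632)) (b (l 16716072) (l 16693256))) (a (b (l 16730704) (l 6)) (l 6))) (l 6))) (l 6)))), by decide +kernel⟩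

theorem c_B07pm_203_s1 : CertF 0 536870912 0 1230186008 697932185 42949674 false true false .up 2 0 3
    ndB0q2 ndB7q3 pcB0 cut_B07pm_203_s1 Ext.none :=
  certF0 (fam := false) (s1 := true) (s2 := false) (a := 2) (b := 0) (c := 3) (cn := .up) (n1 := ndB0q2) (n2 := ndB7q3) (pc := pcB0) (cut := cut_B07pm_203_s1) (xt := Ext.none) (P1 := 0) (W1 := 536870912) (P2 := 0) (W2 := 1230186008) (P3 := 697932185) (W3 := 42949674)
    rfl k0_B07pm_203_s1

theorem s_B07pm_203_s1 {κ x : ℝ} (hκ : κ * h0 = ken x) (hx : ((697932185 : ℕ) : ℝ) / S ≤ x)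
    (hx' : x ≤ (((697932185 : ℕ) : ℝ) + (42949674 : ℕ)) / S) :
    AltB (VFD κ) PP tK tL pcB [⟨3, 0, 0, 1449551462⟩] 2 0 3 0 7 (sgb true) (sgb false) x :=
  strip_altBD (m := 1449551462) true rfl hκ (SH.κ0 hκ (SH.hx1 hx).le (SH.hx2 hx').le) (SH.hx1 hx).le (SH.hx2 hx') (covB02).cov (covB73).cov hx hx' c_B07pm_203_s1 cutB_nil (noExt_B)

end Pool.Agent.Strip051.G.I6500_6900.Tab.St.C
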