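import Pool.Agent.Strip051.G.I6500_6900.Tab
import Pool.Agent.Strip051.PB.StripB

/-! # Strips, near vertex: certificates 3 (generated) -/

set_option linter.all false
set_option maxRecDepth 100000

namespace Pool.Agent.Strip051.G.I6500_6900.Tab.CS.BA00

open Pool.Agent.Strip051.PB Pool.Agent.Strip051.PB.T
open Pool.Agent.Strip051.G.I6500_6900.Tab

noncomputable def cut_pm_123_t : Cut := Cut.of [[⟨3, 0, 0, 2845415833⟩], [⟨0, 1, 0, 67108864⟩, ⟨1, 1, 0, 67108864⟩, ⟨2, 2, 0, 16777216⟩], [⟨0, 0, 1, 20971520⟩, ⟨1, 1, 0, 33554432⟩, ⟨2, 1, 1, 20971520⟩]]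

noncomputable def f_pm_123_t : ℕ → ℕ → ℕ → ℕ → Bool := onCell 1610612736 536870912 0 536870912 697932185 42949674
    (rowNE 3 eng mog cd0q1 cd0q2 pd3 2 true true false .npn 1 2 3 (qsf 536870912 536870912 0 536870912 3) ndB0q1 ndB0q2 pcB3 cut_pm_123_t Ext.none)

def k0_pm_123_t : ∃ t, chk3 f_pm_123_t t 2 1 1 = true :=
  ⟨(a (b (b (l 1) (l 6)) (l 6)) (b (a (b (b (a (a (l 1) (l 16723968)) (b (l 16788384) (l 16736064))) (a (l 16698416) (a (l 16715000) (l 16726832)))) (b (a (a (l 6) (l 16679296)) (a (l 16694224) (l 16707928))) (l 6))) (b (b (a (b (a (l 16759624) (l 16766800)) (l 16755096)) (b (a (b (l 16774120) (l 16770744)) (b (a (l 87207953847) (l 119420219255)) (l 16775096))) (a (l 16766312) (l 16771872)))) (a (l 16785056) (a (l 16757648) (l 16765800)))) (a (b (l 16727960) (b (a (l 6) (l 16728520)) (l 6))) (b (l 16753888) (b (l 16753288) (l 16747792)))))) (a (l 6) (b (l 6) (l 6))))), by decide +kernel⟩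

def k1_pm_123_t : ∃ t, chk3 f_pm_123_t t 6 2 1 = true :=
  ⟨(a (b (a (b (b (a (b (l 4) (a (l 88281694199) (l 123178315255))) (l 4)) (a (b (l 16776160) (l 16775024)) (b (a (l 93650405943) (l 126936410935)) (a (l 16776816) (l 16777344))))) (a (l 16782968) (b (l 16776696) (l 16775768)))) (b (b (l 4) (a (b (l 4) (a (l 107072208871) (l 140895053255))) (l 4))) (b (a (a (l 16777552) (b (l 16783008) (l 16777856))) (b (a (b (l 114588357319) (l 16782552)) (l 159685532935)) (a (l 16777880) (l 61975050455)))) (a (l 16778080) (a (l 16779136) (l 16779384)))))) (b (a (a (l 16771096) (l 16756296)) (a (b (l 16779704) (l 16783896)) (b (l 16782600) (l 16788816)))) (a (b (l 16780256) (l 16780640)) (b (a (l 16791280) (l 16798080)) (l 16799576))))) (b (b (l 4) (b (a (a (b (l 4) (a (b (l 4) (l 115125271703)) (l 4))) (l 4)) (l 4)) (a (a (b (a (l 16778264) (c (l 105461598631) (l 105998468759))) (a (l 16780064) (l 16779520))) (b (a (b (l 4) (l 133378879399)) (l 4)) (a (l 60364436183) (b (l 157538052503)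 (l 104387851943))))) (l 4)))) (a (b (b (a (a (l 16783888) (l 16783960)) (a (l 16783216) (b (l 16779936) (l 16783760)))) (a (l 16791520) (l 16770472))) (b (a (l 16802496) (l 16803360)) (a (l 16808496) (l 16810264)))) (b (a (b (b (a (b (c (l 114588402855) (l 115125273607)) (l 16784152)) (a (l 129620784263) (l 168275468183))) (a (l 16781896) (a (l 16780008) (l 60901305831)))) (a (l 16768480) (c (l 16787120) (l 16786520)))) (b (a (b (l 4) (c (b (l 143042538615) (l 68417500663)) (l 118346504487))) (l 4)) (b (a (l 16780976) (c (b (l 118346497415) (l 16779240)) (l 68954376135))) (a (l 16786288) (l 16782752))))) (b (a (a (l 16802168) (l 16799280)) (a (l 16774456) (b (l 16788456) (l 16793680)))) (a (l 16786600) (b (l 16798776) (l 16799168)))))))), by decide +kernel⟩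

def k2_pm_123_t : ∃ t, chk3 f_pm_123_t t 7 2 1 = true :=
  ⟨(a (b (l 4) (a (b (a (b (l 4) (b (a (b (l 4) (a (l 122641457975) (l 4))) (l 4)) (a (a (l 16780144) (b (l 79691785607) (l 16779576))) (c (a (l 93113547063) (l 136600087335)) (l 121030856167))))) (l 4)) (a (b (b (a (l 16784504) (c (l 37815835751) (l 16780712))) (a (l 16789280) (l 16784976))) (a (l 16770296) (b (l 16786680) (l 16786360)))) (b (a (b (b (a (l 112977782039) (l 4)) (a (l 16779048) (l 96334784967))) (c (l 16781104) (l 16780856))) (c (b (b (l 4) (l 146800633591)) (b (a (l 16777600) (l 93650397799)) (a (l 16779360) (l 16778256)))) (b (l 147337500711) (b (l 100092890663) (l 16778728))))) (a (b (l 16782904) (l 16782760)) (b (c (l 16780464) (l 16780032)) (l 16783552)))))) (b (l 4) (a (b (a (a (b (l 4) (c (a (l 125862670167) (l 162906760519)) (l 138747570135))) (l 4)) (l 4)) (a (a (b (c (l 16778872) (l 16778664)) (l 16779896)) (b (b (c (b (l 100092851511) (l 95261041735)) (l 93650397575)) (l 16778208)) (l 16779232)))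 (b (b (l 4) (a (c (c (l 67880596551) (l 67343725575)) (l 73249305351)) (a (l 202098338551) (l 4)))) (a (c (l 16778696) (l 16778360)) (b (c (c (l 62511888679) (l 60901275751)) (l 16768032)) (l 16778240)))))) (b (l 4) (a (b (l 4) (a (c (b (l 199413983159) (c (a (l 16777840) (l 71101825527)) (l 57143180359))) (b (l 202098337063) (l 55532567319))) (a (b (l 4) (c (l 182770987399) (l 124252037271))) (l 4)))) (l 4))))))) (l 4)), by decide +kernel⟩

def k3_pm_123_t : ∃ t, chk3 f_pm_123_t t 6 3 1 = true :=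
  ⟨(b (a (b (a (b (l 16768968) (l 16755480)) (b (a (l 16791560) (l 16803032)) (a (l 16783704) (l 16798280)))) (a (l 6) (b (a (l 16775736) (l 16792808)) (a (l 6) (l 16785048))))) (a (b (b (a (l 16810288) (l 16811808)) (a (l 16807664) (b (l 16811008) (l 16812016)))) (b (a (l 16804744) (l 16790296)) (a (l 16799184) (a (l 16805976) (l 16787624))))) (b (b (a (l 16808720) (b (l 16798368) (l 16796552))) (a (b (l 16788256) (a (l 16811168) (l 16806400))) (b (l 16796624) (a (l 16800536) (l 16795000))))) (a (b (a (l 16790416) (l 16788120)) (a (b (l 16810640) (l 16811128)) (b (l 16810592) (l 16814016)))) (b (a (b (l 16802320) (l 16804824)) (b (l 16774432) (l 16799720))) (a (b (l 16808248) (l 16813792)) (b (l 16804096) (l 16810552)))))))) (a (l 6) (b (a (b (a (b (l 16796312) (l 6)) (b (l 16786000) (a (l 16805856) (l 16771352)))) (a (l 6) (b (c (l 16782152) (l 16820856)) (l 6)))) (b (a (a (b (l 16814752) (b (l 16819376) (l 16823360))) (b (l 16820456) (c (l 16819888) (l 16841320)))) (a (b (l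 16801304) (l 16791792)) (c (l 16817984) (l 16792672)))) (b (a (c (a (l 16816112) (l 16825512)) (a (l 16838240) (l 16850168))) (c (a (l 16831032) (l 16831320)) (a (l 16835216) (l 16854384)))) (a (c (l 16804136) (a (l 16845576) (l 16857208))) (c (l 16835720) (l 16862328)))))) (a (l 6) (a (a (l 6) (b (b (c (l 16834656) (l 16864648)) (b (l 16769648) (l 6))) (l 6))) (b (c (b (l 16797608) (a (l 16843448) (l 16843584))) (b (l 16805208) (a (l 16854024) (l 16872896)))) (a (b (c (l 16826832) (l 16870584)) (l 6)) (c (b (l 16848480) (l 16833064)) (b (l 16879544) (l 16865752)))))))))), by decide +kernel⟩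

def k4_pm_123_t : ∃ t, chk3 f_pm_123_t t 28 3 1 = true :=
  ⟨(b (b (a (b (a (l 16768856) (b (l 16785400) (l 16784528))) (b (l 16765736) (a (l 16789784) (l 16787344)))) (b (a (b (l 16782312) (l 16782384)) (b (a (l 16781320) (l 16780896)) (l 16771272))) (a (b (l 16783856) (l 16786512)) (b (l 16783800) (l 16787296))))) (b (a (b (a (b (l 16791392) (l 16792440)) (b (l 16789080) (l 16790608))) (a (l 16796240) (l 16794216))) (b (a (l 16789704) (l 16790552)) (a (b (l 16792088) (l 16794936)) (b (l 16793176) (l 16794528))))) (a (b (c (l 16778848) (l 16781416)) (a (l 16808776) (l 16807536))) (a (b (l 16799384) (l 16806408)) (b (l 16798664) (l 16804664)))))) (a (c (b (b (b (l 16791096) (l 16821056)) (b (l 16808888) (l 16834136))) (b (b (l 16838432) (a (l 16843384) (l 16842936))) (b (a (l 16848904) (l 16849528)) (c (l 16828752) (l 16821208))))) (b (b (b (l 16802112) (l 16836560)) (b (b (l 16826128) (l 16851784)) (l 16856352))) (b (b (l 16862608) (c (l 16841528) (l 16876760))) (b (c (l 16869672)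 (l 16884928)) (c (l 16877976) (l 16894184)))))) (b (b (b (a (l 16814656) (l 16812040)) (c (l 16795440) (l 16785520))) (b (a (c (l 16826360) (l 16821880)) (l 16787688)) (c (a (l 16831800) (l 16829224)) (a (l 16829816) (l 16845872))))) (b (c (b (l 16794056) (a (l 16842696) (l 16842432))) (b (l 16855984) (a (l 16865688) (l 16863480)))) (b (c (a (l 16850072) (l 16850496)) (a (l 16875000) (l 16873560))) (c (b (l 16814296) (l 16796824)) (b (l 16860640) (l 16838368)))))))), by decide +kernel⟩

def k5_pm_123_t : ∃ t, chk3 f_pm_123_t t 29 6 1 = true :=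
  ⟨(b (a (b (a (b (c (l 16773128) (l 16779800)) (c (l 16782592) (l 16780864))) (b (c (l 16780120) (l 16779400)) (c (l 16772016) (l 16781328)))) (a (b (l 16763608) (l 16788232)) (b (a (l 16785048) (l 16785184)) (l 16778416)))) (b (a (b (a (c (l 16779304) (l 16778928)) (b (c (a (l 16777960) (b (l 110293404199) (l 16777696))) (l 51774471991)) (c (l 16778928) (l 16778648)))) (c (c (l 16781552) (l 16781216)) (l 16780696))) (b (a (b (a (b (l 4) (c (l 122641439735) (l 16776632))) (l 4)) (c (a (l 16778096) (c (l 60901281719) (l 16771200))) (l 46942636615))) (b (l 4) (a (b (l 4) (c (c (l 16776848) (l 16776824)) (l 16776800))) (l 4)))) (a (c (l 16780016) (l 16779648)) (c (b (a (l 16778256) (c (l 58216928103) (l 57143186199))) (l 16779464)) (b (a (l 16778128) (l 54458831415)) (l 16779208)))))) (a (b (c (l 16774520) (l 16783984)) (c (l 16788736) (l 16787408))) (b (c (c (l 16782872) (l 16782576)) (l 16782128)) (c (l 16778552) (l 16764552)))))) (b (a (a (b (l 16791736) (l 16773896)) (b (l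 16791968) (l 16794064))) (a (b (l 16780496) (l 16792880)) (b (c (l 16768472) (l 16788184)) (c (l 16791376) (l 16789656))))) (a (b (a (b (l 16774896) (l 16798400)) (c (l 16776272) (b (l 16794160) (l 16794800)))) (a (l 16781504) (c (l 16799840) (l 16799592)))) (a (b (b (l 16793800) (a (l 16795208) (l 16794040))) (c (l 16776216) (b (l 16773376) (l 16797792)))) (b (c (l 16793008) (l 16790792)) (c (b (l 16795096) (l 16796080)) (b (l 16771808) (a (l 16795328) (l 16793728))))))))), by decide +kernel⟩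

def k6_pm_123_t : ∃ t, chk3 f_pm_123_t t 29 7 1 = true :=
  ⟨(b (b (b (a (a (l 16787792) (c (l 16804288) (l 16807216))) (a (c (l 16801856) (l 16782336)) (c (l 16799952) (l 16779176)))) (a (a (l 16774728) (c (l 16810096) (l 16816320))) (a (c (l 16807880) (l 16791488)) (c (l 16806064) (l 16788216))))) (a (b (c (l 16776688) (a (l 16831632) (l 16806120))) (c (c (l 16781400) (l 16829552)) (a (l 16841968) (l 16838584)))) (b (a (c (l 16815320) (l 16823136)) (c (l 16813448) (l 16819608))) (a (b (l 16826344) (l 16810520)) (c (l 16821976) (l 16810456)))))) (b (a (b (a (c (l 16834384) (l 16851488)) (c (l 16833440) (l 16848744))) (c (a (l 16842168) (l 16841096)) (c (l 16855152) (l 16836936)))) (a (b (c (l 16831696) (l 16845200)) (l 16799336)) (b (c (l 16828928) (l 16836800)) (c (l 16835616) (l 16834104))))) (a (b (a (c (l 16850000) (l 16864784)) (c (l 16848464) (l 16852320))) (a (c (l 16856776) (l 16819128)) (a (l 16800336) (l 16794416)))) (b (c (l 16811912) (a (l 16820496) (l 16789960)))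 (a (b (l 16786248) (l 16786200)) (b (l 16786560) (b (l 16776088) (l 16786656)))))))), by decide +kernel⟩

def k7_pm_123_t : ∃ t, chk3 f_pm_123_t t 60 12 1 = true :=
  ⟨(b (a (b (l 4) (a (b (b (l 4) (a (c (c (l 78618023367) (l 16776864)) (l 16771592)) (c (l 243974270871) (l 248269237719)))) (c (a (l 16778400) (c (l 57680057447) (l 57143186391))) (a (l 16778272) (b (l 74323055943) (l 16777944))))) (b (l 4) (c (a (b (l 246121754535) (c (l 92576667111) (l 78618023351))) (l 250416724871)) (a (b (l 249879850471) (l 75396797671)) (l 254711686231)))))) (l 4)) (a (b (a (c (c (l 16780664) (l 16780504)) (l 16780264)) (c (b (a (l 16778488) (b (c (l 94187279607) (l 95797892295)) (l 16778064))) (l 16779816)) (b (a (l 16778368) (b (a (l 16777600) (l 100629730727)) (l 16777992))) (l 16779592)))) (c (a (l 16773736) (c (l 16782656) (l 16782440))) (a (l 16762640) (l 16782112)))) (b (a (b (a (b (l 4) (c (c (l 96871633703) (l 97945375479)) (a (l 16777504) (l 104924697703)))) (l 4)) (c (a (l 16775888)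 (a (c (l 16778024) (l 16778000)) (b (c (l 114588373783) (l 113514631879)) (l 16777808)))) (a (l 16778408) (b (a (l 63585642071) (l 168812345671)) (l 16777976))))) (b (l 4) (a (b (l 4) (c (c (a (l 16777208) (l 121030824135)) (a (l 16777200) (l 120493953111))) (a (b (l 121030829095) (l 16777552)) (l 206393308551)))) (l 4)))) (a (c (c (l 16775504) (b (l 16779816) (l 16770960))) (b (l 16779664) (l 16770696))) (b (c (c (a (l 16778472) (b (a (l 82376122455) (l 220888823719)) (l 16777976))) (a (l 16778432) (b (a (l 81839251511) (l 139284434167)) (l 16777952)))) (a (b (l 16777960) (l 16778760)) (b (a (b (l 130694504695) (l 16777536)) (b (l 4) (l 200487729927))) (a (l 16778080) (l 40500195991))))) (c (c (l 16779704) (l 16779616)) (a (l 16769400) (l 16779016)))))))), by decide +kernel⟩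

def k8_pm_123_t : ∃ t, chk3 f_pm_123_t t 61 12 1 = true :=
  ⟨(b (l 4) (a (b (l 4) (a (b (a (b (l 4) (a (c (c (l 93650410519) (l 93650410471)) (b (l 219815082519) (c (l 16777456) (l 59290677575)))) (b (l 4) (c (c (l 145190018167) (l 144653147159)) (l 239142435079))))) (l 4)) (a (c (c (b (l 16777920) (l 16778672)) (b (l 16774624) (l 16778616))) (b (a (l 16777984) (a (l 16777664) (b (a (l 16775584) (l 107609058855)) (l 16777616)))) (l 16778536))) (a (c (c (b (b (l 151095597511) (l 16777152)) (l 16777944)) (b (b (l 150558726503) (l 16777144)) (l 16777920))) (b (b (l 259006658519) (a (l 16777456) (a (l 89892319751) (l 188139699479)))) (l 16777872))) (b (c (c (l 279407752071) (l 278870880983)) (l 282092108807)) (c (c (l 71101835063) (l 72175576887)) (b (a (b (l 86134224071) (l 16777432)) (a (b (l 4) (l 16777248)) (l 227331275719))) (l 16777616))))))) (b (l 4) (a (a (b (l 4) (b (l 4) (c (c (l 105461572839) (l 105998443719)) (a (b (a (l 87744837591) (l 228941888887)) (l 16777384))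 (a (b (l 4) (l 102777222695)) (l 285313333847)))))) (l 4)) (l 4))))) (l 4))), by decide +kernel⟩

def k9_pm_123_t : ∃ t, chk3 f_pm_123_t t 60 13 1 = true :=
  ⟨(b (a (b (c (a (l 16787176) (l 16780176)) (l 16785352)) (c (c (l 16767736) (l 16767104)) (a (l 16787768) (l 16786464)))) (b (c (a (c (l 16783816) (l 16783520)) (c (l 16782016) (l 16781800))) (a (l 16783056) (b (l 16780808) (l 16782040)))) (c (a (l 16775544) (c (l 16774280) (l 16773896))) (a (l 16785032) (l 16777896))))) (a (b (c (l 16782440) (l 16778064)) (c (a (l 16794592) (l 16793096)) (a (l 16771616) (l 16791176)))) (b (c (a (l 16788416) (l 16776696)) (a (l 16787032) (l 16786032))) (c (a (l 16792048) (l 16790976)) (c (l 16769408) (l 16768640)))))), by decide +kernel⟩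

def k10_pm_123_t : ∃ t, chk3 f_pm_123_t t 244 52 1 = true :=
  ⟨(c (c (b (l 16779440) (l 16781016)) (b (l 16774112) (l 16780848))) (b (a (l 16779640) (c (l 16778840) (l 16777464))) (l 16780600))), by decide +kernel⟩

def k11_pm_123_t : ∃ t, chk3 f_pm_123_t t 245 104 1 = true :=
  ⟨(a (c (b (b (c (a (l 16777608) (l 151095602215)) (a (l 16777592) (l 152169343991))) (c (l 16777808) (l 16777784))) (c (l 16778416) (l 16778368))) (b (a (a (l 16777872) (a (l 16777696) (b (l 47479519879) (l 16777776)))) (a (b (c (l 97945382343) (a (b (a (l 110293415639) (l 134989477111)) (l 16777360)) (b (l 4) (l 80228645111)))) (l 16777608)) (a (b (b (l 4) (l 216056987095)) (l 16777440)) (b (l 4) (b (b (l 132841994039) (l 16777296)) (l 16777408)))))) (c (l 16778328) (l 16776968)))) (a (b (b (l 4) (a (c (c (l 16774320) (l 16774296)) (c (l 118883346791) (b (l 280481495927) (a (l 59827551031) (a (b (l 162906765495) (l 16777272)) (l 218204470823)))))) (l 4))) (c (c (l 16777736) (l 16777720)) (a (l 16777080)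 (c (l 59290677559) (b (b (a (a (l 56069454919) (b (l 132841994631) (l 16777280))) (a (b (l 4) (l 95797902295)) (l 263838498135))) (l 16776912)) (l 16777688)))))) (b (l 4) (c (c (b (l 233773726199) (l 80228642119)) (b (l 144116275607) (l 81839254839))) (b (c (l 234310596935) (a (b (l 4) (b (b (l 296587623607) (a (a (l 16776880) (l 168275475079)) (l 4))) (a (a (l 16777296) (l 77007420599)) (a (b (l 4) (l 143042542951)) (l 4))))) (l 4))) (c (a (l 16777480) (b (l 133915733703) (l 16777384))) (a (c (l 16777472) (b (a (l 16777416) (a (l 16777328) (b (b (l 128547027863) (l 16777256)) (l 16777320)))) (l 16777552))) (b (c (l 203708956007) (a (b (l 281018367431) (a (l 57680068071) (a (b (l 142505671799) (l 16777248)) (b (l 4) (l 130694512087))))) (l 308398783495))) (a (l 16777376) (b (a (a (l 16777016) (b (l 131768253655) (l 16777248))) (a (b (l 4) (a (l 16777232) (l 109756546615))) (l 264375369399))) (l 16777064))))))))))), by decide +kernel⟩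

def k12_pm_123_t : ∃ t, chk3 f_pm_123_t t 245 105 1 = true :=
  ⟨(c (c (a (l 16779664) (l 16778696)) (a (l 16779568) (l 16778640))) (a (c (l 16779472) (l 16779368)) (b (a (l 16777080) (a (l 16778048) (b (l 16777288) (l 16778008)))) (l 16778920)))), by decide +kernel⟩

def k13_pm_123_t : ∃ t, chk3 f_pm_123_t t 122 53 1 = true :=
  ⟨(c (a (c (l 16783256) (l 16782976)) (c (b (l 16780776) (l 16782320)) (b (l 16780632) (l 16771616)))) (a (b (l 16776640) (l 16783112)) (b (a (l 16780808) (l 16777392)) (l 16776520)))), by decide +kernel⟩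

def k14_pm_123_t : ∃ t, chk3 f_pm_123_t t 246 104 1 = true :=
  ⟨(a (a (b (l 4) (b (l 4) (c (c (l 279407753287) (l 269207205847)) (c (l 269744076647) (a (b (l 4) (c (l 245048016007) (a (b (l 4) (c (l 157538057527) (a (b (a (a (l 100092870215) (l 138747575655)) (l 158611798999)) (l 68954357351)) (a (a (b (l 4) (l 131231382983)) (l 287997689527)) (l 4))))) (l 4)))) (l 4)))))) (l 4)) (l 4)), by decide +kernel⟩

def k15_pm_123_t : ∃ t, chk3 f_pm_123_t t 246 210 1 = true :=
  ⟨(a (b (b (a (c (c (l 116735863527) (l 119420218055)) (b (a (a (a (l 16777320) (a (l 16777272) (b (b (l 137136963031) (l 16777240)) (l 16777272)))) (a (b (l 270280949495) (a (l 16777080) (b (l 156464315799) (l 96334773943)))) (l 300882591255))) (l 4)) (c (l 111367156647) (b (a (a (l 16777360) (a (l 16777272) (a (l 86134226487) (a (l 134989479287) (l 158074928407))))) (l 4)) (a (l 16777352) (c (l 261691014487) (a (a (a (l 104924708343) (l 152706219031)) (l 4)) (l 4)))))))) (l 4)) (a (c (c (l 16777456) (l 16777456))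 (a (l 16777480) (c (l 16777144) (a (b (a (l 16777280) (b (a (a (l 112440901095) (l 147337510231)) (l 165591120855)) (l 79154904679))) (l 16777344)) (a (c (l 114051512391) (b (l 267596594807) (a (l 16777272) (b (l 109219675543) (l 16777264))))) (b (l 4) (b (l 281018367703) (a (l 16777248) (l 132305124631))))))))) (l 4))) (c (c (a (l 16777696) (c (l 114588378039) (l 16773664))) (a (l 16777680) (c (l 116198990743) (l 118346474359)))) (a (a (l 16776464) (l 16777048)) (c (a (l 92576674215) (l 233236855735)) (a (a (b (b (a (a (l 70028099111) (b (l 149484993671) (l 16777248))) (a (b (l 4) (l 114588384663)) (l 296587624071))) (l 16777304)) (l 16777448)) (a (b (b (l 4) (b (a (l 137136962823) (l 4)) (l 81302388231))) (l 16777360)) (b (l 296050752791) (a (l 16777320) (b (b (l 139821317591) (l 16777256)) (l 16777336)))))) (b (l 4) (c (a (l 113514641015) (l 281555238071)) (a (b (a (a (b (l 166127991783) (l 16777232)) (l 254711693031)) (l 4)) (a (l 16777288) (a (l 78081162711) (b (l 155390573591)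 (l 16777248))))) (a (b (l 4) (l 251490467511)) (l 4)))))))))) (l 4)), by decide +kernel⟩

def k16_pm_123_t : ∃ t, chk3 f_pm_123_t t 246 211 1 = true :=
  ⟨(a (c (c (l 16778096) (l 16778064)) (a (l 16778240) (b (a (l 16777696) (b (a (l 16777408) (a (l 50700746231) (c (l 16777256) (b (b (l 155927444279) (l 92039806343)) (l 16777304))))) (l 16777544))) (l 16777968)))) (a (c (c (b (b (l 155390566359) (l 117272734087)) (l 16777576)) (b (l 173107311927) (l 16777568))) (b (c (a (b (l 152169344279) (l 16777344)) (l 286387075479)) (a (b (c (l 234310597879) (a (b (l 305714429271) (a (a (l 16777264) (l 97408515271)) (b (l 4) (l 123715189959)))) (l 4))) (a (l 16777360) (b (a (b (l 141968800663) (l 16777256)) (l 270817820295)) (l 45332036983)))) (b (l 4) (b (l 4) (b (l 302493203575) (a (a (l 105998449911) (l 4)) (l 4))))))) (a (l 16777600) (b (c (l 16777192) (a (a (l 16777344) (a (l 16777304) (b (l 110293417095) (l 16777320)))) (c (l 124788930055) (b (l 265449111047) (a (l 16777280) (a (l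 102777224375) (l 140895058647))))))) (l 16777456))))) (a (b (l 4) (c (c (l 139284440935) (l 142505666375)) (a (c (l 148948119751) (b (l 310546267175) (a (l 44795165943) (b (a (l 135526349575) (l 161833023991)) (l 16777288))))) (b (l 4) (a (b (l 4) (a (l 16777240) (l 147337509991))) (l 291218914647)))))) (l 4)))), by decide +kernel⟩

def k17_pm_123_t : ∃ t, chk3 f_pm_123_t t 247 52 1 = true :=
  ⟨(l 4), by decide +kernel⟩

def k18_pm_123_t : ∃ t, chk3 f_pm_123_t t 246 53 1 = true :=
  ⟨(c (b (c (a (l 16779360) (b (a (l 16778160) (b (l 84523609591) (l 16777832))) (l 16778744))) (a (l 16779280) (a (l 16778544) (c (l 40500194023) (l 39963323079))))) (c (l 16780488) (l 16780368))) (b (b (a (l 16778776) (a (l 16776760) (b (c (a (l 16777512) (l 107609061607)) (a (l 39426456951) (b (b (b (l 307325041767) (a (a (l 16777192) (l 4)) (l 4))) (a (a (l 16777296) (l 99019127863)) (l 271354691063))) (a (l 16777416) (a (l 16777328) (b (l 124252060999) (l 16777304))))))) (l 16777776)))) (a (l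 16779520) (l 16777296))) (a (l 16775368) (l 16779752)))), by decide +kernel⟩

def k19_pm_123_t : ∃ t, chk3 f_pm_123_t t 247 106 1 = true :=
  ⟨(a (a (b (c (b (c (l 279407753303) (l 282092107751)) (c (a (l 16777480) (l 133915732007)) (a (l 16777472) (l 137136957431)))) (b (c (l 285313333111) (a (b (l 4) (a (a (b (l 312156880423) (l 16777248)) (l 268133465543)) (l 4))) (l 4))) (b (a (a (l 16777368) (b (a (l 116198996775) (l 287460818535)) (l 16777304))) (a (a (b (l 4) (l 144116283847)) (l 4)) (l 4))) (c (l 16776168) (a (l 16777496) (a (a (l 16777336) (l 44795165623)) (b (l 286387076551) (a (l 16777280) (l 136600091127))))))))) (c (c (l 16777936) (l 16777912)) (l 16776896))) (a (b (b (l 4) (b (l 4) (l 4))) (c (c (l 16775016) (l 16775008)) (b (b (a (a (l 42647682055) (b (l 160759281927) (l 16777280))) (a (b (l 4) (l 127473285815)) (l 323431169239))) (l 38889585767)) (l 16777696)))) (b (l 4) (c (c (b (l 159148663655) (l 16777488)) (b (l 161833018151) (l 16777488))) (a (b (b (l 4)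 (b (l 268670336551) (l 99019128791))) (l 16777504)) (b (l 324504910247) (a (l 16777416) (b (b (l 151632476503) (l 16777288)) (l 16777440))))))))) (a (b (l 4) (b (l 4) (c (c (a (l 126399539735) (l 327726135591)) (a (l 129620765175) (l 174181047783))) (c (a (b (l 166127987623) (l 16777240)) (l 322894297191)) (a (b (a (a (b (l 4) (l 16777168)) (l 308398783767)) (l 4)) (a (l 16777352) (b (l 159685539335) (l 16777264)))) (l 326115522567)))))) (l 4))), by decide +kernel⟩

def k20_pm_123_t : ∃ t, chk3 f_pm_123_t t 247 107 1 = true :=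
  ⟨(a (c (c (l 16778968) (l 16778904)) (b (c (l 16778440) (l 16777080)) (l 16773952))) (c (b (a (c (l 39426453543) (l 37278969879)) (c (b (l 270817818903) (a (l 16777504) (l 125862668839))) (b (l 274575915191) (a (l 16777496) (l 128547023367))))) (c (l 16778272) (l 16778240))) (b (a (a (l 16777784) (b (b (a (a (l 16777320) (l 104387837623)) (a (b (l 4) (l 16777192)) (l 301419461959))) (l 16777416)) (l 16777720))) (a (a (b (b (l 4) (b (l 157538055735) (l 16777280))) (l 16777520)) (b (l 319136201207) (a (l 16777424) (b (l 102777223607) (l 16777456))))) (b (l 4) (a (b (b (l 4) (l 133378865207)) (l 16777360)) (b (l 4) (b (l 157001184823) (l 16777288))))))) (c (l 16778208) (l 16776864))))), by decide +kernel⟩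

def k21_pm_123_t : ∃ t, chk3 f_pm_123_t t 61 27 1 = true :=
  ⟨(a (b (c (c (l 16785376) (a (l 16764712) (l 16773840))) (a (l 16774528) (b (l 16783072) (l 16784544)))) (c (a (l 16789848) (l 16778096)) (a (l 16788752) (l 16777256)))) (b (a (c (c (l 16782968) (a (l 16772688) (l 16782328))) (b (l 16781600) (l 16772696))) (c (c (b (a (l 16770152) (l 16779576)) (l 16781976)) (b (a (l 16770032) (l 16779496)) (l 16781832))) (b (a (l 16775096) (l 16778072)) (a (l 16782000) (l 16775888))))) (a (c (c (l 16776808) (l 16776520)) (l 16778696)) (c (b (c (l 16784152) (l 16783976)) (l 16786512)) (b (l 16783704) (l 16786128)))))), by decide +kernel⟩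

def k22_pm_123_t : ∃ t, chk3 f_pm_123_t t 30 14 1 = true :=
  ⟨(a (b (a (b (b (c (l 16775736) (a (l 16796128) (l 16794920))) (c (l 16799760) (l 16799552))) (c (l 16804504) (l 16806368))) (b (c (b (l 16774968) (l 16798080)) (b (a (l 16794664) (l 16793600)) (a (l 16797624) (l 16775920)))) (b (l 16801536) (l 16805304)))) (a (b (c (l 16811728) (l 16816408)) (c (l 16818640) (l 16826072))) (b (c (l 16809224) (l 16812528)) (c (l 16815192) (l 16818848))))) (b (b (a (a (b (l 16793400) (l 16786536)) (c (l 16794360) (l 16772568))) (a (c (l 16792640) (l 16792056)) (c (b (l 16789240) (l 16792008)) (b (l 16788856) (l 16791648))))) (b (a (a (l 16799696) (l 16798952)) (a (l 16797112) (l 16794688))) (a (l 16802632) (a (c (l 16799816) (l 16799616)) (a (l 16797312) (l 16795264)))))) (a (b (c (l 16806176) (l 16787256)) (c (l 16810544) (l 16789032))) (b (a (l 16792368) (b (a (l 16798744) (l 16796608)) (l 16798928))) (a (l 16784160) (c (l 16801856) (l 16799952))))))), by decide +kernel⟩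

def k23_pm_123_t : ∃ t, chk3 f_pm_123_t t 30 15 1 = true :=
  ⟨(b (b (a (a (b (l 16807168) (l 16831024)) (b (c (l 16819184) (l 16818064)) (l 16788008))) (a (b (l 16791992) (a (l 16815696) (l 16785328))) (b (c (l 16806408) (l 16803128)) (a (l 16785344) (l 16804008))))) (c (a (a (l 16830880) (l 16825000)) (a (l 16817088) (b (l 16808976) (l 16809144)))) (a (a (l 16804128) (l 16785776)) (a (b (l 16810464) (l 16809960)) (b (a (l 16805744) (c (l 16803744) (l 16780392))) (l 16782600)))))) (b (c (a (a (l 16835560) (l 16826328)) (a (l 16796584) (b (l 16809296) (l 16809368)))) (a (a (b (l 16823936) (l 16802184)) (b (l 16816288) (l 16794648))) (a (b (l 16788392) (l 16787680)) (b (l 16781960) (b (l 16781440) (l 16781072)))))) (c (a (a (l 16836440) (l 16805936)) (a (b (l 16817840) (l 16818104)) (b (l 16809448) (c (l 16811520) (l 16786576))))) (b (a (a (l 16801520) (l 16793976)) (a (l 16780424) (c (l 16782648) (l 16778288)))) (a (a (l 16780072) (l 16782936)) (a (a (l 16809056) (l 16784696))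 (a (l 16781440) (b (l 16799440) (l 16799160))))))))), by decide +kernel⟩

def k24_pm_123_t : ∃ t, chk3 f_pm_123_t t 62 12 1 = true :=
  ⟨(l 4), by decide +kernel⟩

def k25_pm_123_t : ∃ t, chk3 f_pm_123_t t 124 26 1 = true :=
  ⟨(a (b (l 4) (b (l 4) (a (a (a (b (b (l 4) (c (c (l 330947361079) (l 175791660199)) (l 325578651719))) (c (c (l 16777648) (l 16777640)) (b (b (a (l 40500197815) (a (l 145726895591) (l 304103816535))) (l 16777424)) (l 16777728)))) (b (l 4) (c (c (b (l 160222405527) (l 16777504)) (b (l 162369889127) (l 16777496))) (b (a (b (l 4) (a (l 16776560) (l 147337508311))) (l 326652393943)) (c (l 16777488) (b (l 39426455671) (l 16777552))))))) (b (l 4) (b (l 4) (a (c (c (l 129620765031) (l 132305119559)) (c (l 133378864023) (b (c (l 276723399719) (l 276186528791)) (c (l 16777232) (a (l 16777352) (l 126936414855)))))) (c (c (l 343295391959) (l 179549756487)) (l 336852940759)))))) (l 4)))) (l 4)), by decide +kernel⟩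

def k26_pm_123_t : ∃ t, chk3 f_pm_123_t t 248 27 1 = true :=
  ⟨(b (b (a (c (c (b (a (l 16778288) (b (l 37815840663) (l 16777912))) (l 16778872)) (b (c (l 34057743415) (l 16778032)) (l 16778824))) (a (l 16777296) (a (l 16776896) (b (b (b (a (l 16776280) (a (l 155390571767) (l 330947362039))) (l 16777424)) (l 16777720)) (l 16778344))))) (a (b (a (c (c (b (l 264912239495) (l 16777496)) (b (l 168275468711) (l 16777496))) (a (b (a (b (l 4) (l 16776504)) (l 293366397927)) (l 16777512)) (b (l 348127230279) (c (l 16777432) (l 37815842759))))) (b (l 4) (c (c (l 138210705175) (l 140358183543)) (b (l 300882590615) (a (l 16777352) (l 146263767111)))))) (c (c (l 16777976) (l 16777952)) (l 16777920))) (b (l 4) (c (c (b (a (l 110293413463) (l 294440139431)) (l 16777632)) (b (a (l 16777152) (l 175254789687)) (l 16777624))) (a (b (b (a (l 115662124727) (l 302493203687)) (l 16777408)) (l 16777696)) (a (b (b (l 4) (l 156464312839)) (l 16777480)) (b (l 4) (b (l 127473284487) (l 16777432)))))))))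 (c (c (a (l 16780320) (l 16779096)) (a (l 16780240) (l 16776432))) (a (l 16780112) (b (l 16775888) (l 16779480))))) (c (a (c (l 16783744) (l 16778384)) (c (l 16777168) (b (l 16781168) (l 16783464)))) (b (a (l 16771760) (l 16781056)) (l 16778704)))), by decide +kernel⟩

def k27_pm_123_t : ∃ t, chk3 f_pm_123_t t 249 27 1 = true :=
  ⟨(b (b (a (a (a (b (l 4) (b (l 4) (c (c (l 196729630439) (l 154853696631)) (a (b (l 330410490951) (l 16777272)) (l 303566945047))))) (l 4)) (l 4)) (l 4)) (a (b (a (a (c (c (l 16777800) (l 16777784)) (l 16777768)) (c (c (b (l 123178319719) (l 16777688)) (b (l 125325798167) (l 16777680))) (b (b (a (l 140358185959) (l 4)) (l 35668358855)) (l 16777664)))) (a (b (c (c (l 329336748391) (l 183307853015)) (l 332021102711)) (c (c (l 16777312) (l 16777304)) (a (l 16777456) (b (l 157538054647) (l 16777376))))) (b (l 4) (c (c (l 263301626791) (l 167201726759)) (a (b (l 4) (l 130157638919)) (l 355643423079)))))) (c (c (a (l 16778608) (l 16777928)) (a (l 16778576)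 (l 16777912))) (a (l 16778536) (a (l 16778040) (l 32984004503))))) (b (l 4) (a (a (c (b (c (a (l 122641444775) (l 167201728503)) (l 141431924951)) (c (l 16777616) (l 16777608))) (b (c (l 167201729047) (b (l 308398783303) (l 117809609895))) (l 16777600))) (b (l 4) (c (c (b (l 147874377047) (l 16777392)) (l 116735863879)) (a (l 36742100295) (b (l 182770986535) (l 16777240)))))) (a (a (c (c (l 331484231431) (l 332557973127)) (l 334705456567)) (l 4)) (l 4)))))) (a (c (b (c (l 16779816) (l 16779776)) (c (l 16782056) (l 16782000))) (b (l 16777088) (l 16781904))) (b (c (b (a (c (l 16778184) (l 16778168)) (c (b (a (l 16778648) (l 258469788631)) (l 16777720)) (b (a (l 16777328) (l 163443630423)) (l 16777712)))) (c (l 16778840) (l 16778816))) (b (a (l 16778144) (b (a (a (l 16777480) (l 107609062519)) (a (a (l 144653154183) (l 167738600055)) (l 355643423127))) (l 16776064))) (l 16776160))) (c (c (l 16780488) (l 16775208)) (l 16775152))))), by decide +kernel⟩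

def k28_pm_123_t : ∃ t, chk3 f_pm_123_t t 125 13 1 = true :=
  ⟨(b (l 4) (b (l 4) (b (a (a (a (a (b (b (l 4) (c (c (a (l 122641444679) (l 168812341127)) (l 140895059207)) (b (l 308935654231) (l 116198994327)))) (c (c (l 16777880) (l 16777872)) (l 16777856))) (b (l 4) (c (b (c (a (l 16777272) (l 144653150919)) (l 119957089079)) (c (l 16777744) (l 16777736))) (b (b (l 152706214759) (l 16777328)) (l 16777728))))) (b (l 4) (c (b (c (l 351348454855) (l 353495938359)) (c (a (l 82376134231) (l 285850204935)) (a (l 16777240) (l 172033564647)))) (b (l 345979745367) (a (b (l 124252057735) (l 16777480)) (l 289608301143)))))) (l 4)) (l 4)) (a (b (a (c (c (a (l 16778728) (b (l 16777688) (l 16778176))) (a (l 16778712) (l 45868907735))) (a (l 16778688) (b (l 31910261863) (l 16778152)))) (a (a (c (c (b (a (l 139284442183) (l 326115523399)) (l 16777584)) (b (c (l 154853696215) (l 157001179991)) (l 16777584))) (b (a (l 140895054839) (l 327189265031)) (l 16777576))) (a (b (l 4) (c (c (l 172033575751)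 (l 16777096)) (l 16777080))) (c (c (l 314304362615) (l 314304362487)) (l 317525587799)))) (l 4))) (a (c (c (l 16779400) (l 16779376)) (l 16779344)) (c (a (c (l 16778144) (l 16778136)) (b (c (a (b (l 151632472983) (l 16777328)) (l 346516617511)) (a (l 119420223431) (l 345979746503))) (c (a (l 16777768) (l 156464320327)) (a (l 16777760) (l 155927449399))))) (a (l 16778120) (a (b (l 123715188071) (l 16777752)) (b (l 348127230007) (l 30299647783))))))) (a (a (a (b (l 4) (c (c (l 334168587079) (l 333631714711)) (l 335779198151))) (l 4)) (l 4)) (l 4)))))), by decide +kernel⟩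

def k29_pm_123_t : ∃ t, chk3 f_pm_123_t t 63 6 1 = true :=
  ⟨(l 4), by decide +kernel⟩

def k30_pm_123_t : ∃ t, chk3 f_pm_123_t t 124 7 1 = true :=
  ⟨(b (b (a (b (c (c (l 16777568) (b (l 16786608) (l 16789224))) (b (l 16786440) (l 16789064))) (c (l 16786264) (b (l 16791088) (l 16792176)))) (a (b (c (c (l 16785720) (l 16780416)) (l 16780312)) (c (l 16788600) (l 16788640))) (b (c (c (l 16778608) (b (l 16782752) (l 16784728))) (b (l 16782680) (l 16784784))) (c (l 16784152) (l 16786792))))) (b (b (a (c (l 16798312) (a (l 16794152) (l 16791928))) (c (l 16778928) (l 16778896))) (b (a (l 16794376) (a (l 16791048) (l 16789288))) (a (l 16774000) (a (l 16791896) (l 16792536))))) (a (c (l 16797504) (l 16796136)) (b (l 16781608) (c (l 16794232) (l 16793096)))))) (b (b (a (c (l 16800848) (l 16798224)) (b (c (l 16795944) (l 16773280)) (l 16783336))) (b (a (b (l 16779960) (c (l 16803168) (l 16799432))) (c (l 16798736) (c (l 16796600) (l 16784512)))) (a (l 16780296) (b (c (l 16799624) (l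 16796360)) (l 16776920))))) (c (b (b (l 16801560) (a (l 16803464) (l 16799648))) (b (b (l 16780592) (l 16780616)) (b (l 16780672) (l 16780760)))) (b (b (a (l 16777416) (l 16795496)) (a (l 16776704) (l 16779048))) (b (a (b (l 16797144) (l 16796784)) (b (l 16794264) (l 16793936))) (a (b (l 16796464) (l 16796184)) (b (l 16772664) (c (l 16795120) (l 16791576))))))))), by decide +kernel⟩

def k31_pm_123_t : ∃ t, chk3 f_pm_123_t t 250 28 1 = true :=
  ⟨(b (a (c (c (b (l 16781096) (l 16782888)) (b (l 16775824) (l 16782904))) (b (l 16775776) (l 16782936))) (c (b (c (l 16776032) (c (l 16776696) (l 16779320))) (c (l 16781128) (l 16775896))) (b (a (l 16779744) (l 16778872)) (l 16775912)))) (c (a (c (l 16785032) (l 16785024)) (b (c (l 16782688) (l 16782688)) (l 16784016))) (a (b (l 16784416) (l 16785664)) (b (l 16782696) (l 16783992))))), by decide +kernel⟩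

def k32_pm_123_t : ∃ t, chk3 f_pm_123_t t 251 28 1 = true :=
  ⟨(b (b (b (a (a (b (a (c (c (l 16777344) (l 16777344)) (l 16777336)) (b (l 4) (c (c (l 152706214727) (l 151095601959)) (l 154853698279)))) (c (c (l 16777696) (l 16777696)) (l 16777704))) (a (b (l 4) (c (c (b (l 345442876215) (l 198877121175)) (b (l 184918467879) (l 131231379111))) (b (l 187065951415) (l 16775024)))) (l 4))) (l 4)) (a (c (a (c (l 16778472) (l 16778480)) (c (a (l 16777808) (b (a (l 179549768487) (l 172033566567)) (l 16777632))) (a (l 16777808) (a (l 79691779959) (b (l 170422953767) (l 16777520)))))) (a (l 16778488) (a (l 16777816) (b (a (l 16777064) (l 173644179159)) (l 16777632))))) (a (b (l 4) (a (c (c (b (l 163980503383) (l 16777232)) (c (l 128547033495) (l 16776920))) (b (l 165591116023) (l 16777224))) (c (c (l 392687515639) (l 395908740999)) (l 391076902615)))) (l 4)))) (a (c (c (l 16776144) (c (l 16776800) (l 16779424))) (c (l 16774184) (l 16776816))) (c (a (a (c (l 16778360) (l 16778360)) (b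 (a (c (l 16777552) (l 16777552)) (b (c (l 145726893095) (l 143042538503)) (l 16776960))) (l 16777408))) (b (b (c (l 372286420183) (l 380339483703)) (c (a (a (l 16777368) (l 202635217687)) (l 347590359447)) (a (c (l 166664867655) (l 16777120)) (l 345442875703)))) (a (c (l 16777976) (l 16777976)) (b (c (l 81302392487) (l 83986747111)) (l 16777128))))) (b (a (a (l 16777920) (b (l 123715190551) (l 16777728))) (a (b (l 367991453655) (l 115662127463)) (l 365307098023))) (a (l 16778600) (a (l 16777976) (a (l 16777656) (l 79154909271)))))))) (a (c (b (c (l 16781032) (l 16781032)) (l 16781344)) (b (l 16778408) (l 16782384))) (c (b (c (l 16776296) (a (l 16779808) (l 16779000))) (c (l 16780864) (l 16778232))) (b (a (l 16779808) (l 16779000)) (a (l 16781208) (l 16780440)))))), by decide +kernel⟩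

def k33_pm_123_t : ∃ t, chk3 f_pm_123_t t 125 29 1 = true :=
  ⟨(b (a (a (b (c (l 16786840) (l 16786784)) (b (l 16787624) (l 16777552))) (c (l 16785768) (b (l 16785176) (l 16786248)))) (a (c (b (l 16778424) (l 16784800)) (b (l 16773120) (l 16784720))) (c (b (c (l 16782160) (l 16782128)) (l 16778056)) (b (l 16782096) (l 16777984))))) (b (a (c (a (l 16789528) (b (l 16786976) (l 16787880))) (a (b (l 16788760) (l 16789352)) (b (l 16786824) (l 16787680)))) (a (a (c (l 16775520) (l 16780600)) (l 16785336)) (c (l 16784288) (l 16784176)))) (b (a (l 16784176) (a (c (l 16786816) (l 16786592)) (c (l 16778248) (l 16779376)))) (a (l 16782352) (a (l 16787328) (c (l 16788352) (l 16788128))))))), by decide +kernel⟩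

def k34_pm_123_t : ∃ t, chk3 f_pm_123_t t 125 15 1 = true :=
  ⟨(c (b (b (a (l 16792680) (b (l 16777360) (l 16789464))) (b (a (l 16794880) (l 16790888)) (a (l 16795888) (b (l 16791816) (l 16792248))))) (b (a (b (l 16796016) (l 16795992)) (b (l 16792488) (l 16781976))) (b (a (l 16796000) (c (l 16793296) (l 16781136))) (b (a (l 16796088) (l 16792560)) (a (l 16796184) (l 16782144)))))) (b (b (a (b (l 16780248) (l 16781352)) (b (l 16776720) (l 16777920))) (b (a (l 16792736) (l 16789392)) (a (b (a (l 16793968) (l 16771352)) (l 16793248)) (b (l 16779504) (a (l 16791016) (l 16789368)))))) (b (a (b (l 16776960) (b (l 16771224) (l 16781368))) (b (a (l 16790608) (c (l 16779440) (l 16778184))) (b (l 16779032) (l 16778728)))) (a (b (b (l 16781040) (l 16780744)) (c (l 16781768) (b (l 16789528) (l 16789208)))) (a (b (a (l 16789736) (l 16789096)) (b (l 16789048) (l 16788816))) (b (b (l 16788296) (l 16788040)) (b (l 16787800) (l 16782328)))))))), by decide +kernel⟩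

def k35_pm_123_t : ∃ t, chk3 f_pm_123_t t 252 28 1 = true :=
  ⟨(b (b (l 4) (b (l 4) (a (a (a (c (b (c (l 328263006775) (b (l 4) (l 175791662679))) (c (l 80228650615) (l 82376134247))) (b (l 332021102935) (l 16777248))) (a (b (l 4) (c (c (l 173107308423) (l 169886082903)) (l 173644179207))) (l 4))) (l 4)) (l 4)))) (b (b (a (a (a (c (a (l 16778104) (l 16776592)) (l 16778008)) (c (c (l 77007425127) (b (l 16778608) (l 16777808))) (l 77544296023))) (b (a (a (c (c (l 167738599479) (l 165054244871)) (l 168275470279)) (l 4)) (l 4)) (a (c (c (l 16777328) (l 16777328)) (l 16777320)) (a (c (c (l 163980503239) (l 161833024791)) (l 164517374039)) (l 4))))) (l 4)) (a (c (a (c (l 16778600) (l 16778600)) (a (l 16777192) (c (l 16777568) (l 79691779479)))) (a (l 16778600) (b (l 78618037895) (l 16778008)))) (a (b (a (c (c (l 290145172311) (a (l 160222412087) (l 207467045095))) (a (l 161833019511) (l 425973512359))) (l 4)) (c (c (a (l 16777352) (l 291218914135)) (a (l 16777344) (a (l 160759280375)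 (l 209077657815)))) (a (l 16777336) (a (l 160222406743) (l 432415963287))))) (l 4)))) (a (c (c (a (l 16779696) (l 16778928)) (a (l 16779688) (l 16778920))) (a (l 16779672) (l 16778912))) (a (a (c (c (l 16778352) (l 16778344)) (l 16778336)) (b (c (c (l 16777552) (l 79691779543)) (l 79691779527)) (c (l 16778328) (l 16778320)))) (b (a (b (a (c (c (l 163980503159) (b (l 209614531271) (l 16777072))) (l 160759277591)) (l 4)) (c (c (l 16777320) (l 16778632)) (l 16777312))) (a (b (l 4) (c (c (l 167738599415) (b (l 4) (l 16777048))) (l 160222406519))) (l 4))) (a (c (l 16776632) (l 16777936)) (c (c (l 16777496) (b (l 81302392327) (l 16777736))) (c (l 16777488) (l 16777480))))))))), by decide +kernel⟩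

def k36_pm_123_t : ∃ t, chk3 f_pm_123_t t 253 28 1 = true :=
  ⟨(b (l 4) (b (l 4) (b (l 4) (a (a (a (a (b (c (c (l 173644179015) (b (l 4) (l 16777024))) (l 163443631559)) (c (l 16777448) (l 16777448))) (b (l 4) (c (c (l 16777112) (l 176865413959)) (l 106535317575)))) (b (l 4) (c (c (l 348127230423) (c (l 345979746695) (l 344369133911))) (c (l 342221650199) (l 339000424631))))) (l 4)) (l 4))))), by decide +kernel⟩

def k37_pm_123_t : ∃ t, chk3 f_pm_123_t t 126 29 1 = true :=
  ⟨(a (b (a (c (b (c (l 16780656) (l 16778672)) (c (l 16781840) (l 16781808))) (b (a (l 16780976) (l 16780240)) (l 16781768))) (c (b (c (a (l 16779528) (l 16778776)) (a (l 16779512) (l 16776144))) (a (l 16778096) (c (l 16779992) (l 16779976)))) (b (a (l 16779496) (c (l 16778760) (l 16778752))) (a (l 16780672) (l 16779944))))) (a (a (a (b (l 16783320) (c (l 16778832) (l 16778656))) (l 14)) (l 14)) (l 14))) (b (b (a (a (a (c (c (l 16778208) (l 16778200)) (l 16775568)) (b (b (a (c (l 16777080) (l 16777408))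 (c (c (l 16777040) (l 192434670503)) (b (l 157001182935) (l 16777280)))) (c (l 16777664) (l 16777664))) (c (l 16778160) (l 16778144)))) (b (c (c (a (b (l 379802614023) (l 175254802359)) (l 424362898327)) (a (b (l 376581388439) (c (c (l 172033576871) (l 170959835047)) (l 169349222295))) (b (l 4) (l 410404255607)))) (a (b (c (l 371749550119) (l 367454582711)) (a (l 16777344) (b (l 173107309735) (l 16777200)))) (c (l 439395286103) (l 442079640471)))) (a (c (l 16777128) (l 16777776)) (b (c (a (c (l 16777280) (l 16777272)) (c (l 156464310199) (b (l 202098338279) (l 16777104)))) (a (l 16777264) (b (l 203708950999) (l 16777088)))) (l 14))))) (b (l 4) (b (b (l 4) (l 14)) (l 14)))) (a (a (c (c (l 16779256) (l 16779240)) (l 16776600)) (l 14)) (l 14))) (l 14))), by decide +kernel⟩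

def k38_pm_123_t : ∃ t, chk3 f_pm_123_t t 127 14 1 = true :=
  ⟨(b (l 4) (b (b (l 4) (l 14)) (l 14))), by decide +kernel⟩

def k39_pm_123_t : ∃ t, chk3 f_pm_123_t t 63 15 1 = true :=
  ⟨(a (a (a (a (a (c (b (b (l 16775936) (l 16789240)) (b (l 16795784) (b (l 16790552) (l 16790640)))) (b (b (l 16775344) (l 16777384)) (b (b (l 16788504) (l 16787888)) (b (l 16787376) (b (l 16787024) (l 16786800)))))) (b (l 14) (l 14))) (l 14)) (l 14)) (l 14)) (l 14)), by decide +kernel⟩

theorem s40_pm_123_t : ∃ t, chk3 f_pm_123_t t 126 28 1 = true := ex3_a k35_pm_123_t k36_pm_123_t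

theorem s41_pm_123_t : ∃ t, chk3 f_pm_123_t t 126 14 1 = true := ex3_b s40_pm_123_t k37_pm_123_t

theorem s42_pm_123_t : ∃ t, chk3 f_pm_123_t t 63 14 1 = true := ex3_a s41_pm_123_t k38_pm_123_t

theorem s43_pm_123_t : ∃ t, chk3 f_pm_123_t t 63 7 1 = true := ex3_b s42_pm_123_t k39_pm_123_t

theorem s44_pm_123_t : ∃ t, chk3 f_pm_123_t t 125 28 1 = true := ex3_a k31_pm_123_t k32_pm_123_t

theorem s45_pm_123_t : ∃ t, chk3 f_pm_123_t t 125 14 1 = true := ex3_b s44_pm_123_t k33_pm_123_t

theorem s46_pm_123_t : ∃ t, chk3 f_pm_123_t t 125 7 1 = true := ex3_b s45_pm_123_t k34_pm_123_t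

theorem s47_pm_123_t : ∃ t, chk3 f_pm_123_t t 62 7 1 = true := ex3_a k30_pm_123_t s46_pm_123_t

theorem s48_pm_123_t : ∃ t, chk3 f_pm_123_t t 31 7 1 = true := ex3_a s47_pm_123_t s43_pm_123_t

theorem s49_pm_123_t : ∃ t, chk3 f_pm_123_t t 124 27 1 = true := ex3_a k26_pm_123_t k27_pm_123_t

theorem s50_pm_123_t : ∃ t, chk3 f_pm_123_t t 124 13 1 = true := ex3_b k25_pm_123_t s49_pm_123_t

theorem s51_pm_123_t : ∃ t, chk3 f_pm_123_t t 62 13 1 = true := ex3_a s50_pm_123_t k28_pm_123_t

theorem s52_pm_123_t : ∃ t, chk3 f_pm_123_t t 62 6 1 = true := ex3_b k24_pm_123_t s51_pm_123_t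

theorem s53_pm_123_t : ∃ t, chk3 f_pm_123_t t 31 6 1 = true := ex3_a s52_pm_123_t k29_pm_123_t

theorem s54_pm_123_t : ∃ t, chk3 f_pm_123_t t 31 3 1 = true := ex3_b s53_pm_123_t s48_pm_123_t

theorem s55_pm_123_t : ∃ t, chk3 f_pm_123_t t 30 7 1 = true := ex3_b k22_pm_123_t k23_pm_123_t

theorem s56_pm_123_t : ∃ t, chk3 f_pm_123_t t 247 53 1 = true := ex3_b k19_pm_123_t k20_pm_123_t

theorem s57_pm_123_t : ∃ t, chk3 f_pm_123_t t 123 53 1 = true := ex3_a k18_pm_123_t s56_pm_123_t

theorem s58_pm_123_t : ∃ t, chk3 f_pm_123_t t 246 105 1 = true := ex3_b k15_pm_123_t k16_pm_123_t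

theorem s59_pm_123_t : ∃ t, chk3 f_pm_123_t t 246 52 1 = true := ex3_b k14_pm_123_t s58_pm_123_t

theorem s60_pm_123_t : ∃ t, chk3 f_pm_123_t t 123 52 1 = true := ex3_a s59_pm_123_t k17_pm_123_t

theorem s61_pm_123_t : ∃ t, chk3 f_pm_123_t t 123 26 1 = true := ex3_b s60_pm_123_t s57_pm_123_t

theorem s62_pm_123_t : ∃ t, chk3 f_pm_123_t t 245 52 1 = true := ex3_b k11_pm_123_t k12_pm_123_t

theorem s63_pm_123_t : ∃ t, chk3 f_pm_123_t t 122 52 1 = true := ex3_a k10_pm_123_t s62_pm_123_t

theorem s64_pm_123_t : ∃ t, chk3 f_pm_123_t t 122 26 1 = true := ex3_b s63_pm_123_t k13_pm_123_t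

theorem s65_pm_123_t : ∃ t, chk3 f_pm_123_t t 61 26 1 = true := ex3_a s64_pm_123_t s61_pm_123_t

theorem s66_pm_123_t : ∃ t, chk3 f_pm_123_t t 61 13 1 = true := ex3_b s65_pm_123_t k21_pm_123_t

theorem s67_pm_123_t : ∃ t, chk3 f_pm_123_t t 30 13 1 = true := ex3_a k9_pm_123_t s66_pm_123_t

theorem s68_pm_123_t : ∃ t, chk3 f_pm_123_t t 30 12 1 = true := ex3_a k7_pm_123_t k8_pm_123_t

theorem s69_pm_123_t : ∃ t, chk3 f_pm_123_t t 30 6 1 = true := ex3_b s68_pm_123_t s67_pm_123_t

theorem s70_pm_123_t : ∃ t, chk3 f_pm_123_t t 30 3 1 = true := ex3_b s69_pm_123_t s55_pm_123_t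

theorem s71_pm_123_t : ∃ t, chk3 f_pm_123_t t 15 3 1 = true := ex3_a s70_pm_123_t s54_pm_123_t

theorem s72_pm_123_t : ∃ t, chk3 f_pm_123_t t 29 3 1 = true := ex3_b k5_pm_123_t k6_pm_123_t

theorem s73_pm_123_t : ∃ t, chk3 f_pm_123_t t 14 3 1 = true := ex3_a k4_pm_123_t s72_pm_123_t

theorem s74_pm_123_t : ∃ t, chk3 f_pm_123_t t 7 3 1 = true := ex3_a s73_pm_123_t s71_pm_123_t

theorem s75_pm_123_t : ∃ t, chk3 f_pm_123_t t 3 3 1 = true := ex3_a k3_pm_123_t s74_pm_123_t

theorem s76_pm_123_t : ∃ t, chk3 f_pm_123_t t 3 2 1 = true := ex3_a k1_pm_123_t k2_pm_123_t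

theorem s77_pm_123_t : ∃ t, chk3 f_pm_123_t t 3 1 1 = true := ex3_b s76_pm_123_t s75_pm_123_t

theorem s78_pm_123_t : ∃ t, chk3 f_pm_123_t t 1 1 1 = true := ex3_a k0_pm_123_t s77_pm_123_t

theorem c_pm_123_t : CertNE 536870912 536870912 0 536870912 697932185 42949674 3 eng mog cd0q1 cd0q2 pd3 true true false .npn 1 2 3
    ndB0q1 ndB0q2 pcB3 cut_pm_123_t Ext.none :=
  certNE2 (fam := true) (s1 := true) (s2 := false) (a := 1) (b := 2) (c := 3) (cn := .npn) (n1 := ndB0q1) (n2 := ndB0q2) (pc := pcB3) (cut := cut_pm_123_t) (xt := Ext.none) (P1 := 536870912) (W1 := 536870912) (P2 := 0) (W2 := 536870912) (P3 := 697932185) (W3 := 42949674) (N0 := 3) (En := eng) (mo := mog) (C1 := cd0q1) (C2 := cd0q2) (C3 := pd3)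
    rfl (fun _ => rfl) s78_pm_123_t

noncomputable def cut_pm_202_s : Cut := Cut.of [[⟨4, 0, 0, 1449551462⟩], [⟨0, 1, 0, 67108864⟩, ⟨1, 0, 0, 67108864⟩, ⟨2, 1, 0, 67108864⟩]]

noncomputable def f_pm_202_s : ℕ → ℕ → ℕ → ℕ → Bool := onCell 0 536870912 1073741824 536870912 697932185 42949674
    (rowNE 3 eng mog cd0q2 cd0q0 pd2 1 true true false .pp 2 0 2 (qsf 0 536870912 0 536870912 2) ndB0q2 ndB0q0 pcB2 cut_pm_202_s Ext.none)

def k0_pm_202_s : ∃ t, chk3 f_pm_202_s t 1 8 1 = true :=
  ⟨(a (l 1) (a (l 1) (a (b (l 1) (a (b (l 1) (a (l 1) (b (l 1) (l 16640632)))) (b (l 14) (b (l 14) (a (l 16668200) (a (l 16659632) (l 16667744))))))) (b (l 14) (b (l 14) (b (l 14) (b (l 14) (a (a (l 16678848) (l 16691928)) (a (a (l 16694376) (l 16695720)) (a (l 16696720) (a (l 16697176) (l 16702560)))))))))))), by decide +kernel⟩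

def k1_pm_202_s : ∃ t, chk3 f_pm_202_s t 2 9 1 = true :=
  ⟨(l 6), by decide +kernel⟩

def k2_pm_202_s : ∃ t, chk3 f_pm_202_s t 6 9 1 = true :=
  ⟨(a (b (l 1) (l 6)) (b (a (b (l 1) (b (a (l 1) (l 16563648)) (a (l 16550800) (l 16566480)))) (b (b (l 1) (a (l 16578712) (l 16596544))) (a (b (l 16580872) (l 16582552)) (b (l 16597528) (l 16556160))))) (a (b (a (b (l 16554240) (l 6)) (b (l 16568848) (l 16507864))) (l 6)) (b (a (b (l 16520920) (l 16584744)) (b (l 16598344) (l 16598272))) (b (l 16549808) (l 16591528)))))), by decide +kernel⟩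

def k3_pm_202_s : ∃ t, chk3 f_pm_202_s t 7 9 1 = true :=
  ⟨(a (b (a (b (a (b (l 16612944) (l 16613216)) (b (l 16629704) (l 16628904))) (a (b (l 16571176) (l 16612664)) (b (l 16627784) (l 16626392)))) (a (b (b (l 16645704) (l 16643880)) (l 16640672)) (b (b (l 16661176) (l 16658408)) (l 16653008)))) (a (b (a (l 16611448) (l 16623872)) (a (l 16602808) (l 16607920))) (b (a (l 16630168) (l 16634744)) (a (l 16612824) (b (l 16621408) (l 16612784)))))) (a (b (b (a (c (l 16674832) (l 16672888)) (b (l 16684656) (l 16675016))) (a (b (l 16661824) (l 16652480)) (b (a (l 16664576) (l 16666216)) (a (l 16655112) (l 16656680))))) (b (a (b (l 16643192) (l 16634064)) (b (l 16646520) (l 16637240))) (a (b (l 16625104) (l 16616376)) (b (l 16628176) (l 16619328))))) (b (a (b (b (a (l 16687080) (l 16688392)) (a (l 16677368) (l 16678584))) (b (a (l 16667664) (l 16668808)) (a (l 16658032) (l 16659112)))) (b (a (b (c (l 16689800) (l 16688936)) (l 16689928)) (b (a (c (l 16690472) (l 16689040)) (c (l 16693392)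 (l 16694192))) (a (l 16687648) (c (l 16680904) (l 16678824))))) (a (b (l 16669576) (l 16659832)) (a (b (l 16669864) (l 16660080)) (b (c (l 16671112) (l 16668760)) (c (l 16661456) (l 16658800))))))) (b (a (b (a (l 16648512) (l 16649536)) (l 16660672)) (a (b (l 16650192) (l 16640712)) (a (b (l 16650392) (l 16640856)) (b (c (l 16651880) (l 16648928)) (c (l 16642472) (l 16639200)))))) (a (b (l 16630504) (l 16642488)) (b (a (l 16631416) (c (l 16633216) (a (l 16629944) (l 16629648)))) (a (l 16622312) (a (l 16627576) (b (l 16624440) (l 16619904)))))))))), by decide +kernel⟩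

def k4_pm_202_s : ∃ t, chk3 f_pm_202_s t 2 5 1 = true :=
  ⟨(l 6), by decide +kernel⟩

def k5_pm_202_s : ∃ t, chk3 f_pm_202_s t 6 5 1 = true :=
  ⟨(b (b (a (l 6) (b (a (l 6) (b (l 16583712) (l 6))) (l 6))) (l 6)) (l 6)), by decide +kernel⟩

def k6_pm_202_s : ∃ t, chk3 f_pm_202_s t 14 10 1 = true :=
  ⟨(b (b (a (b (l 16603728) (a (l 16583000) (l 16587824))) (a (b (l 16600304) (l 16592424)) (l 16621536))) (b (a (a (l 16575792) (l 16580552)) (a (l 16585080) (l 16589040))) (b (a (l 16594288) (l 16582168)) (a (b (l 16571392) (c (l 16590288) (l 16520360))) (b (l 16580312) (a (l 16577656) (l 16602648))))))) (b (a (l 6) (b (l 16596072) (a (l 16565664) (l 16569392)))) (a (l 6) (a (l 6) (l 16562328))))), by decide +kernel⟩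

def k7_pm_202_s : ∃ t, chk3 f_pm_202_s t 15 10 1 = true :=
  ⟨(b (b (a (a (b (l 16607936) (l 16599840)) (b (l 16610752) (l 16602528))) (a (b (l 16612800) (l 16614944)) (b (a (l 16613480) (c (l 16615424) (a (l 16611600) (l 16611216)))) (a (l 16604992) (c (l 16606936) (a (l 16602920) (l 16602472))))))) (a (b (a (l 16592304) (l 16594880)) (b (a (l 16587216) (l 16589736)) (b (a (l 16585392) (l 16587920)) (a (c (l 16585016) (l 16585400)) (a (l 16607952) (c (l 16609680) (l 16608824))))))) (b (a (a (l 16596312) (l 16596888)) (a (b (l 16598872) (l 16595056)) (b (c (l 16600776) (l 16596432)) (c (l 16596888) (l 16592552))))) (b (a (l 16612360) (a (l 16591656) (c (b (l 16594128) (l 16592456)) (b (l 16589864) (l 16588328))))) (b (a (l 16610536) (a (c (l 16591464) (l 16588344)) (b (l 16589304) (b (l 16588960) (l 16588872))))) (b (b (b (a (l 16589280) (a (l 16589504) (l 16588976))) (b (a (l 16589520) (a (l 16589752) (l 16589240))) (a (l 16589928) (a (l 16590184) (b (b (l 16589504) (a (l 16589912)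 (l 16589504))) (l 16589648)))))) (a (l 16589600) (a (l 16589848) (l 16589336)))) (a (l 16588808) (a (l 16589024) (l 16588496))))))))) (a (b (a (b (l 16580128) (l 16593312)) (b (l 16582560) (b (l 16576440) (l 16572504)))) (a (l 16564264) (l 16586248))) (b (a (b (l 16605016) (b (l 16577640) (a (l 16573368) (l 16573488)))) (a (b (l 16584096) (b (l 16577472) (b (l 16574136) (l 16572120)))) (b (c (l 16585296) (l 16581848)) (b (c (l 16578744) (l 16574800)) (b (l 16573232) (l 16592096)))))) (a (a (l 16565328) (l 16585864)) (a (b (l 16567616) (l 16560240)) (b (c (l 16568776) (l 16564080)) (c (l 16561184) (l 16555912)))))))), by decide +kernel⟩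

def k8_pm_202_s : ∃ t, chk3 f_pm_202_s t 7 11 1 = true :=
  ⟨(a (l 6) (a (b (b (a (l 16553944) (l 16553288)) (l 6)) (l 6)) (b (a (b (a (l 16552040) (l 16571584)) (b (l 16540696) (l 6))) (b (a (b (l 16552664) (l 16544936)) (b (c (l 16553424) (l 16547512)) (c (l 16545664) (l 16539088)))) (c (a (l 16536880) (b (l 16537968) (l 16530480))) (b (l 16553440) (l 16545440))))) (a (l 6) (b (b (a (l 6) (c (l 16523168) (l 16514696))) (l 6)) (l 6)))))), by decide +kernel⟩

def k9_pm_202_s : ∃ t, chk3 f_pm_202_s t 1 3 1 = true :=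
  ⟨(a (l 6) (l 6)), by decide +kernel⟩

theorem s10_pm_202_s : ∃ t, chk3 f_pm_202_s t 7 10 1 = true := ex3_a k6_pm_202_s k7_pm_202_s

theorem s11_pm_202_s : ∃ t, chk3 f_pm_202_s t 7 5 1 = true := ex3_b s10_pm_202_s k8_pm_202_s

theorem s12_pm_202_s : ∃ t, chk3 f_pm_202_s t 3 5 1 = true := ex3_a k5_pm_202_s s11_pm_202_s

theorem s13_pm_202_s : ∃ t, chk3 f_pm_202_s t 1 5 1 = true := ex3_a k4_pm_202_s s12_pm_202_s

theorem s14_pm_202_s : ∃ t, chk3 f_pm_202_s t 3 9 1 = true := ex3_a k2_pm_202_s k3_pm_202_s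

theorem s15_pm_202_s : ∃ t, chk3 f_pm_202_s t 1 9 1 = true := ex3_a k1_pm_202_s s14_pm_202_s

theorem s16_pm_202_s : ∃ t, chk3 f_pm_202_s t 1 4 1 = true := ex3_b k0_pm_202_s s15_pm_202_s

theorem s17_pm_202_s : ∃ t, chk3 f_pm_202_s t 1 2 1 = true := ex3_b s16_pm_202_s s13_pm_202_s

theorem s18_pm_202_s : ∃ t, chk3 f_pm_202_s t 1 1 1 = true := ex3_b s17_pm_202_s k9_pm_202_s

theorem c_pm_202_s : CertNE 0 536870912 0 536870912 697932185 42949674 3 eng mog cd0q2 cd0q0 pd2 true true false .pp 2 0 2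
    ndB0q2 ndB0q0 pcB2 cut_pm_202_s Ext.none :=
  certNE1 (fam := true) (s1 := true) (s2 := false) (a := 2) (b := 0) (c := 2) (cn := .pp) (n1 := ndB0q2) (n2 := ndB0q0) (pc := pcB2) (cut := cut_pm_202_s) (xt := Ext.none) (P1 := 0) (W1 := 536870912) (P2 := 0) (W2 := 536870912) (P3 := 697932185) (W3 := 42949674) (N0 := 3) (En := eng) (mo := mog) (C1 := cd0q2) (C2 := cd0q0) (C3 := pd2)
    rfl (fun _ => rfl) s18_pm_202_s

noncomputable def cut_pm_202_t : Cut := Cut.of [[⟨3, 0, 0, 2845415833⟩], [⟨0, 1, 0, 67108864⟩, ⟨1, 0, 0, 67108864⟩, ⟨2, 1, 0, 67108864⟩]]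

noncomputable def f_pm_202_t : ℕ → ℕ → ℕ → ℕ → Bool := onCell 0 536870912 1073741824 536870912 697932185 42949674
    (rowNE 3 eng mog cd0q2 cd0q0 pd2 1 true true false .pp 2 0 2 (qsf 0 536870912 0 536870912 2) ndB0q2 ndB0q0 pcB2 cut_pm_202_t Ext.none)

def k0_pm_202_t : ∃ t, chk3 f_pm_202_t t 1 1 1 = true :=
  ⟨(b (l 6) (a (l 6) (l 6))), by decide +kernel⟩

theorem c_pm_202_t : CertNE 0 536870912 0 536870912 697932185 42949674 3 eng mog cd0q2 cd0q0 pd2 true true false .pp 2 0 2
    ndB0q2 ndB0q0 pcB2 cut_pm_202_t Ext.none :=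
  certNE1 (fam := true) (s1 := true) (s2 := false) (a := 2) (b := 0) (c := 2) (cn := .pp) (n1 := ndB0q2) (n2 := ndB0q0) (pc := pcB2) (cut := cut_pm_202_t) (xt := Ext.none) (P1 := 0) (W1 := 536870912) (P2 := 0) (W2 := 536870912) (P3 := 697932185) (W3 := 42949674) (N0 := 3) (En := eng) (mo := mog) (C1 := cd0q2) (C2 := cd0q0) (C3 := pd2)
    rfl (fun _ => rfl) k0_pm_202_t

noncomputable def cut_pm_203_s : Cut := Cut.of [[⟨4, 0, 0, 1449551462⟩]]

noncomputable def f_pm_203_s : ℕ → ℕ → ℕ → ℕ → Bool := onCell 0 536870912 1610612736 536870912 697932185 42949674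
    (rowNE 3 eng mog cd0q2 cd0q0 pd3 1 true true false .up 2 0 3 (qsf 0 536870912 0 536870912 3) ndB0q2 ndB0q0 pcB3 cut_pm_203_s Ext.none)

def k0_pm_203_s : ∃ t, chk3 f_pm_203_s t 1 1 1 = true :=
  ⟨(l 6), by decide +kernel⟩

theorem c_pm_203_s : CertNE 0 536870912 0 536870912 697932185 42949674 3 eng mog cd0q2 cd0q0 pd3 true true false .up 2 0 3
    ndB0q2 ndB0q0 pcB3 cut_pm_203_s Ext.none :=
  certNE1 (fam := true) (s1 := true) (s2 := false) (a := 2) (b := 0) (c := 3) (cn := .up) (n1 := ndB0q2) (n2 := ndB0q0) (pc := pcB3) (cut := cut_pm_203_s) (xt := Ext.none) (P1 := 0) (W1 := 536870912) (P2 := 0) (W2 := 536870912) (P3 := 697932185) (W3 := 42949674) (N0 := 3) (En := eng) (mo := mog) (C1 := cd0q2) (C2 := cd0q0) (C3 := pd3)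
    rfl (fun _ => rfl) k0_pm_203_s

noncomputable def cut_pm_203_t : Cut := Cut.of [[⟨3, 0, 0, 2845415833⟩]]

noncomputable def f_pm_203_t : ℕ → ℕ → ℕ → ℕ → Bool := onCell 0 536870912 0 536870912 697932185 42949674
    (rowNE 3 eng mog cd0q2 cd0q0 pd3 0 true true false .up 2 0 3 (qsf 0 536870912 0 536870912 3) ndB0q2 ndB0q0 pcB3 cut_pm_203_t Ext.none)

def k0_pm_203_t : ∃ t, chk3 f_pm_203_t t 1 1 1 = true :=
  ⟨(a (b (l 1) (b (a (b (l 1) (b (l 6) (a (b (l 6) (l 16656792)) (l 6)))) (l 6)) (b (a (a (b (l 16668184) (l 16680864)) (l 6)) (l 6)) (a (b (a (l 16743720) (l 16651064)) (a (a (l 16721208) (l 16707832)) (l 16686584))) (l 6))))) (l 6)), by decide +kernel⟩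

theorem c_pm_203_t : CertNE 0 536870912 0 536870912 697932185 42949674 3 eng mog cd0q2 cd0q0 pd3 true true false .up 2 0 3
    ndB0q2 ndB0q0 pcB3 cut_pm_203_t Ext.none :=
  certNE0 (fam := true) (s1 := true) (s2 := false) (a := 2) (b := 0) (c := 3) (cn := .up) (n1 := ndB0q2) (n2 := ndB0q0) (pc := pcB3) (cut := cut_pm_203_t) (xt := Ext.none) (P1 := 0) (W1 := 536870912) (P2 := 0) (W2 := 536870912) (P3 := 697932185) (W3 := 42949674) (N0 := 3) (En := eng) (mo := mog) (C1 := cd0q2) (C2 := cd0q0) (C3 := pd3)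
    rfl k0_pm_203_t

noncomputable def cut_pm_213_s : Cut := Cut.of [[⟨4, 0, 0, 1449551462⟩], [⟨0, 1, 0, 67108864⟩, ⟨1, 1, 0, 67108864⟩, ⟨2, 2, 0, 16777216⟩], [⟨0, 1, 0, 33554432⟩, ⟨1, 0, 1, 20971520⟩, ⟨2, 1, 1, 20971520⟩]]

noncomputable def f_pm_213_s : ℕ → ℕ → ℕ → ℕ → Bool := onCell 0 536870912 536870912 536870912 697932185 42949674
    (rowNE 3 eng mog cd0q2 cd0q1 pd3 0 true true false .pnn 2 1 3 (qsf 0 536870912 536870912 536870912 3) ndB0q2 ndB0q1 pcB3 cut_pm_213_s Ext.none)

def k0_pm_213_s : ∃ t, chk3 f_pm_213_s t 1 1 1 = true :=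
  ⟨(l 6), by decide +kernel⟩

theorem c_pm_213_s : CertNE 0 536870912 536870912 536870912 697932185 42949674 3 eng mog cd0q2 cd0q1 pd3 true true false .pnn 2 1 3
    ndB0q2 ndB0q1 pcB3 cut_pm_213_s Ext.none :=
  certNE0 (fam := true) (s1 := true) (s2 := false) (a := 2) (b := 1) (c := 3) (cn := .pnn) (n1 := ndB0q2) (n2 := ndB0q1) (pc := pcB3) (cut := cut_pm_213_s) (xt := Ext.none) (P1 := 0) (W1 := 536870912) (P2 := 536870912) (W2 := 536870912) (P3 := 697932185) (W3 := 42949674) (N0 := 3) (En := eng) (mo := mog) (C1 := cd0q2) (C2 := cd0q1) (C3 := pd3)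
    rfl k0_pm_213_s

noncomputable def cut_pm_213_t : Cut := Cut.of [[⟨3, 0, 0, 2845415833⟩], [⟨0, 1, 0, 67108864⟩, ⟨1, 1, 0, 67108864⟩, ⟨2, 2, 0, 16777216⟩], [⟨0, 1, 0, 33554432⟩, ⟨1, 0, 1, 20971520⟩, ⟨2, 1, 1, 20971520⟩]]

noncomputable def f_pm_213_t : ℕ → ℕ → ℕ → ℕ → Bool := onCell 0 536870912 1610612736 536870912 697932185 42949674
    (rowNE 3 eng mog cd0q2 cd0q1 pd3 1 true true false .pnn 2 1 3 (qsf 0 536870912 536870912 536870912 3) ndB0q2 ndB0q1 pcB3 cut_pm_213_t Ext.none)

def k0_pm_213_t : ∃ t, chk3 f_pm_213_t t 2 2 1 = true :=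
  ⟨(b (a (l 1) (l 6)) (b (a (a (b (b (l 1) (l 16723968)) (b (l 16736320) (l 16772840))) (b (l 16693176) (b (l 16715000) (l 16726832)))) (a (a (b (l 16676616) (l 16705416)) (b (l 6) (l 16696920))) (l 6))) (a (a (b (a (b (l 16759624) (l 16766800)) (l 16755096)) (a (b (l 16772456) (b (l 54995692055) (l 89892309367))) (l 16774504))) (b (l 16785056) (l 16782848))) (b (a (l 16727960) (a (b (l 6) (l 16728520)) (l 6))) (a (l 16753888) (a (l 16753288) (l 16747792))))))), by decide +kernel⟩

def k1_pm_213_t : ∃ t, chk3 f_pm_213_t t 2 6 1 = true :=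
  ⟨(b (a (b (b (a (a (a (l 4) (l 100092894247)) (l 16775640)) (l 16772480)) (a (a (l 4) (a (b (l 16776960) (l 127473281847)) (l 16777136))) (a (l 16776696) (l 16775768)))) (a (a (l 4) (b (a (l 4) (b (l 107072208871) (l 140895053255))) (l 4))) (a (b (a (l 16786864) (l 16777688)) (a (b (l 114588404743) (l 159685532935)) (b (l 16777880) (l 16778264)))) (b (l 16778080) (l 16779296))))) (a (b (b (l 16771096) (l 16777264)) (b (l 16781864) (a (l 16782600) (l 16788816)))) (b (a (l 16780256) (l 16780640)) (a (l 16795128) (l 16799576))))) (a (a (l 4) (a (b (b (a (l 4) (b (l 125862693367) (l 4))) (l 4)) (l 4)) (b (b (a (b (l 16778264) (l 105461600359)) (l 16779808)) (a (b (l 143579407143) (l 4)) (b (l 16778800) (l 118346504983)))) (l 4)))) (b (a (a (b (l 16783936) (a (l 16780736) (l 16784432))) (b (l 16791520) (l 16791440))) (a (b (l 16802496) (l 16803360)) (b (l 16808496) (l 16810264)))) (a (a (b (a (b (l 74859958327) (l 135526344551)) (b (l 16781896) (l 16779672))) (a (l 4) (b (a (l 140358199511)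 (l 67343760279)) (l 4)))) (b (b (l 16789448) (l 16786824)) (a (b (l 16780976) (a (l 118883368871) (l 16779192))) (l 16774032)))) (a (b (b (l 16802168) (l 16799280)) (a (l 16790424) (l 16795864))) (b (l 16807576) (l 16777800))))))), by decide +kernel⟩

def k2_pm_213_t : ∃ t, chk3 f_pm_213_t t 2 7 1 = true :=
  ⟨(b (a (l 4) (b (a (b (a (l 4) (a (b (l 137136956743) (l 4)) (b (l 68417505511) (a (l 148411246359) (l 111904047831))))) (l 4)) (b (a (a (b (l 16784504) (l 16780776)) (l 16771328)) (b (l 16791264) (l 16775784))) (a (b (a (a (l 116199014087) (l 86134243319)) (l 16780984)) (a (a (l 4) (l 146263762343)) (a (b (l 16777600) (l 92576655623)) (l 56606339447)))) (b (a (l 16782904) (l 16782760)) (a (l 16780256) (l 16780928)))))) (a (l 4) (b (a (b (a (l 4) (b (a (l 4) (l 93650397719)) (l 4))) (l 4)) (b (a (b (a (l 16778200) (l 16779152)) (a (c (l 97408499735) (l 94187268647)) (l 16778208))) (b (l 16779896) (l 16779232))) (a (a (l 4) (b (c (b (l 16777752) (l 82912983127)) (l 64659370759))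 (l 203708949511))) (b (c (l 16778696) (l 16778360)) (a (c (c (l 62511888679) (l 16768048)) (l 59827533735)) (l 16778240)))))) (a (l 4) (b (a (l 4) (b (a (b (l 195119017447) (l 4)) (c (b (l 16777816) (l 70028083527)) (l 55532567479))) (a (l 4) (b (a (l 4) (l 115662112583)) (l 4))))) (l 4))))))) (l 4)), by decide +kernel⟩

def k3_pm_213_t : ∃ t, chk3 f_pm_213_t t 3 2 1 = true :=
  ⟨(a (a (b (l 6) (l 6)) (l 6)) (l 6)), by decide +kernel⟩

def k4_pm_213_t : ∃ t, chk3 f_pm_213_t t 6 6 1 = true :=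
  ⟨(b (a (b (a (l 16768968) (l 16755480)) (a (b (l 16791560) (l 16803032)) (b (l 16783704) (l 16798280)))) (b (l 6) (a (b (l 16775736) (l 16792808)) (b (l 6) (l 16785048))))) (b (a (a (b (l 16810288) (l 16811808)) (b (l 16807664) (a (l 16811008) (l 16812016)))) (a (b (l 16804744) (l 16790296)) (b (l 16799184) (a (l 16807136) (l 16785432))))) (a (a (b (l 16808720) (l 16797080)) (b (a (l 16809224) (b (l 16811168) (l 16806400))) (a (l 16796624) (b (l 16800536) (l 16795000))))) (b (a (b (l 16790416) (l 16788120)) (b (a (l 16810640) (l 16811128)) (a (l 16810592) (l 16814016)))) (a (a (b (l 16802320) (l 16774432)) (b (l 16804824) (l 16799720))) (b (a (l 16808248) (c (l 16808224) (l 16819984))) (a (l 16783128) (l 16789576)))))))), by decide +kernel⟩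

def k5_pm_213_t : ∃ t, chk3 f_pm_213_t t 6 28 1 = true :=
  ⟨(a (b (a (b (l 16789832) (l 16764816)) (a (l 16786704) (b (l 16789784) (l 16787344)))) (a (b (a (l 16782312) (l 16782384)) (a (b (l 16781320) (l 16780896)) (l 16771272))) (b (a (l 16783856) (l 16786512)) (a (l 16783800) (l 16787296))))) (a (b (a (b (a (l 16791392) (l 16792440)) (a (l 16789080) (l 16769632))) (b (l 16775272) (l 16794216))) (a (b (l 16789704) (l 16790552)) (b (a (l 16771120) (l 16794936)) (a (l 16793176) (l 16773560))))) (b (a (b (l 16780456) (l 16800176)) (b (l 16808776) (l 16807536))) (a (b (l 16778416) (l 16798664)) (b (l 16785440) (l 16783688)))))), by decide +kernel⟩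

def k6_pm_213_t : ∃ t, chk3 f_pm_213_t t 6 29 1 = true :=
  ⟨(a (b (a (b (a (c (l 16770504) (l 16779800)) (l 16771248)) (a (c (l 16780120) (l 16779400)) (c (l 16772016) (l 16781328)))) (b (a (l 16763608) (l 16788232)) (a (b (l 16785048) (l 16785184)) (l 16778416)))) (a (b (a (b (c (l 16779304) (l 16778928)) (a (a (b (l 16777616) (l 112440887767)) (l 16777856)) (l 16778792))) (c (c (l 16781552) (l 16781216)) (l 16780696))) (a (b (a (b (a (l 4) (l 124788933799)) (l 4)) (c (b (l 16778096) (a (l 99555989079) (l 16777824))) (l 47479507527))) (a (l 4) (b (a (l 4) (c (l 96334762871) (l 16776800))) (l 4)))) (b (c (l 16780016) (l 16779648)) (b (c (l 16779056) (l 16778832)) (a (c (a (c (l 93650408727) (l 16776824)) (l 16777944)) (l 16771432)) (l 16779016)))))) (b (a (c (l 16774520) (l 16783984)) (c (l 16767768) (l 16787408))) (a (c (c (l 16782872) (l 16782576)) (l 16782128)) (c (c (l 16776152) (l 16765224)) (l 16764552)))))) (a (b (b (a (l 16791736) (l 16773896)) (a (l 16791968) (l 16794064)))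 (b (a (l 16780496) (l 16782392)) (a (c (l 16778952) (l 16788184)) (c (l 16780888) (l 16789656))))) (b (a (b (a (l 16774896) (l 16798400)) (c (l 16776272) (a (l 16794160) (l 16794800)))) (b (c (l 16801976) (l 16803120)) (c (l 16799840) (l 16799592)))) (b (a (c (l 16774944) (l 16772480)) (a (b (l 16796568) (l 16784472)) (l 16777184))) (a (c (l 16793008) (l 16790792)) (c (a (l 16795096) (l 16775112)) (a (l 16792776) (l 16773232)))))))), by decide +kernel⟩

def k7_pm_213_t : ∃ t, chk3 f_pm_213_t t 12 60 1 = true :=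
  ⟨(a (b (a (l 4) (a (a (l 4) (b (b (c (c (l 78618023367) (l 16776864)) (l 16771592)) (l 244511141559)) (l 4))) (b (b (l 16778336) (a (c (c (l 78618023415) (l 16776888)) (l 74323055943)) (l 16777984))) (c (b (a (l 246121754535) (c (c (l 92576667111) (l 16771656)) (l 16776880))) (l 250416724871)) (b (a (l 249879850471) (l 83449861351)) (l 254711686231)))))) (l 4)) (b (a (a (b (c (l 16779672) (l 16779424)) (a (b (l 16778016) (c (c (c (l 94724150519) (l 93650408679)) (l 95797892295)) (b (l 16777600) (l 123715179943)))) (c (l 16775856) (l 16778360)))) (c (b (l 16781448) (l 16777192)) (l 16775064))) (c (b (l 16778976) (c (l 16782656) (l 16782440))) (b (l 16762640) (l 16782112)))) (a (b (a (b (a (l 4) (c (c (c (l 97408504711) (l 96334762855)) (l 98482246391)) (b (l 16777504) (l 104924697703)))) (l 4)) (b (c (l 16775888) (l 16778408)) (a (c (c (b (l 16774104) (l 114588373783)) (l 101703471335)) (b (l 63585642071) (l 168812345671))) (c (l 16776728) (l 16777976))))) (a (l 4) (b (a (l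 4) (c (c (b (l 74323059991) (a (l 4) (l 120493957991))) (l 107072179591)) (b (a (l 121030829095) (l 16777552)) (l 206393309207)))) (l 4)))) (b (c (c (a (l 16779920) (l 16771128)) (l 16780616)) (a (l 16779664) (l 16770696))) (a (b (c (c (l 16778472) (l 16778432)) (l 16775736)) (c (c (a (b (a (l 125862666615) (l 16777552)) (l 220888823719)) (l 16777976)) (a (b (l 16777000) (l 139284434167)) (l 16777952))) (a (a (b (l 130694504695) (l 4)) (b (l 16777536) (l 201024600839))) (b (l 16778080) (l 39963325079))))) (c (c (l 16779704) (l 16779616)) (b (l 16769400) (l 16779016)))))))), by decide +kernel⟩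

def k8_pm_213_t : ∃ t, chk3 f_pm_213_t t 12 61 1 = true :=
  ⟨(a (l 4) (b (a (l 4) (b (a (b (a (l 4) (b (c (c (c (l 92576668695) (l 94187281415)) (l 93650410471)) (a (l 219815082519) (c (l 16777456) (l 59290677575)))) (a (l 4) (c (c (l 144653147255) (l 144653147159)) (l 239142435079))))) (l 4)) (c (b (c (c (l 16778336) (l 16775696)) (l 16778296)) (c (a (a (l 263838495783) (b (l 82912996199) (l 277260269479))) (c (l 56606319943) (l 59290674487))) (a (b (l 110830277847) (l 278870880983)) (l 58753803559)))) (b (a (b (l 16777984) (a (c (l 16777304) (b (l 16777464) (l 87744835191))) (l 16777728))) (l 16778536)) (b (a (a (l 259006658519) (a (b (l 16777304) (l 252027337783)) (l 56069453255))) (l 16777872)) (a (l 282092106183) (a (a (b (l 86134224071) (l 4)) (a (b (l 16777384) (l 139821314919)) (l 71101839383))) (l 16777616))))))) (a (l 4) (b (b (a (l 4) (a (l 4) (c (c (l 105461572839) (l 16774296)) (a (a (l 259006659287) (b (l 91502933767) (l 4))) (b (l 16777384) (b (l 102777222695)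 (l 278870883511))))))) (l 4)) (l 4))))) (l 4))), by decide +kernel⟩

def k9_pm_213_t : ∃ t, chk3 f_pm_213_t t 13 60 1 = true :=
  ⟨(a (b (a (c (c (l 16786440) (l 16786016)) (l 16785352)) (c (c (l 16778224) (l 16767104)) (l 16776608))) (a (c (b (c (l 16783816) (l 16783520)) (c (l 16782016) (l 16781800))) (b (l 16783056) (a (l 16780808) (l 16782040)))) (c (c (b (l 16786272) (l 16774280)) (b (l 16785784) (l 16773896))) (b (l 16785032) (l 16778544))))) (b (a (c (b (l 16790968) (l 16789680)) (l 16767584)) (c (b (l 16784104) (l 16793096)) (b (l 16771616) (l 16791176)))) (a (c (b (l 16777936) (a (l 16786440) (l 16787880))) (b (l 16787032) (l 16786032))) (c (c (l 16791872) (l 16770160)) (l 16769024))))), by decide +kernel⟩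

def k10_pm_213_t : ∃ t, chk3 f_pm_213_t t 26 122 2 = true :=
  ⟨(a (b (c (a (b (l 16779912) (l 16778976)) (l 16781016)) (a (l 16779352) (l 16780848))) (a (b (a (b (c (l 16777824) (l 16777800)) (c (a (l 151632473127) (l 16777568)) (l 90429185943))) (c (l 16778416) (l 16778368))) (a (a (l 4) (c (c (l 246121756311) (l 243437401687)) (l 243974272503))) (c (b (l 52311355703) (a (l 233773726199) (b (l 16777504) (l 100629736999)))) (b (l 16777720) (a (l 144653146519) (l 16777352)))))) (c (b (l 16779664) (l 16776072)) (l 16776480)))) (b (c (l 16783256) (l 16782976)) (c (a (l 16780776) (l 16771832)) (a (l 16780632) (l 16782096))))), by decide +kernel⟩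

def k11_pm_213_t : ∃ t, chk3 f_pm_213_t t 26 122 3 = true :=
  ⟨(a (b (a (b (l 16779640) (l 16777168)) (l 16780600)) (a (b (a (b (a (b (l 16777672) (l 42110810695)) (l 16777952)) (b (c (l 69491223687) (a (a (c (l 130694508311) (b (l 118883349639) (l 4))) (b (l 16777360) (l 80228645111))) (l 16777600))) (b (a (a (l 4) (l 216056987095)) (l 16777440)) (a (l 4) (a (a (l 132841994039) (l 16777296)) (l 16777408)))))) (l 16777320)) (a (b (a (l 4) (c (l 201024600807) (b (a (l 280481495927) (b (l 59827551031) (c (l 117809607895) (a (l 283165851063) (l 89355450951))))) (l 4)))) (l 4)) (a (b (b (l 16777536) (a (b (b (l 57143196743) (a (l 133915736471) (l 16777280))) (b (a (l 4) (l 96871644039)) (l 264912239975))) (l 35131489703))) (c (l 234310596935) (b (a (l 4) (a (a (l 296587623607) (b (b (l 16777208) (l 168275475079)) (l 4))) (a (b (l 73786195143) (l 4)) (b (l 16777296) (b (l 143042542951) (l 4)))))) (l 4)))) (b (l 16777816) (c (b (l 16777480) (l 100629736967)) (b (c (l 16777472) (a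 (b (l 16777416) (a (a (b (l 16777256) (l 128547027863)) (l 16777280)) (l 16777344))) (l 16777552))) (a (c (l 203708956007) (b (a (l 281018367431) (b (l 57680068071) (a (l 167201733399) (a (l 105998450055) (l 16777248))))) (l 308398783495))) (a (b (l 16777328) (b (b (l 16777016) (a (l 131768253655) (l 16777248))) (b (a (l 4) (l 94187290103)) (l 264375369399)))) (l 30836522743))))))))) (b (c (l 16779472) (l 16779368)) (a (a (b (l 16778200) (a (l 16777312) (l 16776520))) (l 16777208)) (l 16778920))))) (a (b (l 16776640) (a (l 16780048) (l 16775496))) (b (l 16783112) (l 16776520)))), by decide +kernel⟩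

def k12_pm_213_t : ∃ t, chk3 f_pm_213_t t 104 246 1 = true :=
  ⟨(b (b (a (l 4) (a (l 4) (c (c (l 279407753287) (l 269207205847)) (c (l 269744076647) (b (a (l 4) (c (l 245048016007) (b (a (l 4) (c (l 157538057527) (b (a (b (a (l 166127992215) (l 16777216)) (l 158611798999)) (l 68954357351)) (a (l 4) (a (l 4) (b (l 140895059591) (l 4))))))) (l 4)))) (l 4)))))) (l 4)) (l 4)), by decide +kernel⟩

def k13_pm_213_t : ∃ t, chk3 f_pm_213_t t 105 492 1 = true :=
  ⟨(a (b (c (c (a (c (l 97945381063) (l 16777096)) (l 16777696)) (l 79691769559)) (c (a (a (b (l 16777280) (l 276723399591)) (l 16775488)) (l 16777664)) (a (a (a (b (b (a (a (b (l 16777280) (b (l 16777240) (l 136063221207))) (l 16777280)) (l 16777312)) (b (a (l 269207207655) (a (b (l 16777232) (l 155390573975)) (l 16777088))) (l 301956333063))) (l 4)) (b (b (l 16777384) (b (l 16777296) (b (l 64122519159) (a (a (l 4) (l 127473286631)) (l 16777248))))) (c (l 268133465287) (b (a (l 4) (b (b (l 104924708343) (l 152706219031)) (l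 4))) (l 4))))) (b (l 16777472) (a (b (b (l 16777280) (a (a (l 159685540839) (a (l 145726897399) (l 119957093847))) (l 79154904679))) (a (l 4) (a (l 4) (l 263838498471)))) (b (l 16777344) (a (b (a (l 104924708263) (l 16777248)) (l 281018367703)) (b (l 16777280) (b (l 16777248) (l 132841995543)))))))) (l 16777072)))) (a (l 4) (c (c (c (l 114588378039) (l 114051507111)) (l 117272732551)) (c (b (l 92576674215) (l 233773726647)) (b (b (a (a (a (a (l 258469789367) (b (l 99555999159) (l 4))) (b (l 16777264) (a (l 155390573575) (l 118883351863)))) (l 16777304)) (l 16777448)) (b (a (a (l 4) (a (a (l 167738604487) (l 140358188199)) (l 81302388231))) (l 16777360)) (a (l 296050752791) (a (a (a (l 114588384647) (l 16777248)) (l 16777272)) (l 16777352))))) (a (l 4) (b (c (l 113514641015) (a (a (l 306251300327) (a (l 249879854807) (b (l 16777224) (l 4)))) (a (b (l 16777264) (l 159148670295)) (l 16777288)))) (a (l 4) (b (l 251490467511) (l 4)))))))))) (c (c (l 16778096) (l 16778064)) (b (l 16778240)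 (b (l 16777240) (b (l 16777056) (a (a (b (l 50700746231) (c (l 16777256) (a (a (l 155927444279) (l 92039806343)) (l 16777304)))) (l 16777488)) (l 16777784))))))), by decide +kernel⟩

def k14_pm_213_t : ∃ t, chk3 f_pm_213_t t 105 493 1 = true :=
  ⟨(a (l 4) (b (a (c (c (a (l 155390566359) (l 117272734087)) (l 173107309303)) (a (c (l 264912239127) (b (c (l 234310597879) (b (a (l 305714429271) (a (b (l 107609062631) (l 4)) (b (l 16777264) (l 123715189959)))) (l 4))) (l 4))) (b (b (l 16777368) (a (c (l 16777104) (a (l 252027338407) (b (l 16777256) (l 155390573383)))) (l 44258295175))) (a (l 4) (a (l 303566945431) (b (b (l 106535320823) (l 4)) (l 4))))))) (c (c (l 16777576) (l 16777568)) (a (b (l 16777504) (a (b (a (b (l 16777272) (l 123178318967)) (l 16777296)) (b (l 243974274775) (l 4))) (a (b (l 16777344) (b (l 16777256) (l 155927444231))) (l 42110811591)))) (l 16776920)))) (b (a (l 4) (c (c (l 139284440935) (l 16774208)) (a (c (l 310009395927) (l 312693750423)) (b (a (b (l 91502935351)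 (a (l 4) (l 123715189879))) (l 16777320)) (b (a (l 4) (a (l 143042542487) (l 16777256))) (l 291218914647)))))) (l 4)))), by decide +kernel⟩

def k15_pm_213_t : ∃ t, chk3 f_pm_213_t t 52 247 1 = true :=
  ⟨(l 4), by decide +kernel⟩

def k16_pm_213_t : ∃ t, chk3 f_pm_213_t t 53 246 1 = true :=
  ⟨(a (a (c (c (b (l 16778928) (b (l 16778160) (a (l 84523614839) (l 16777832)))) (b (l 16778872) (b (l 16778120) (l 16777728)))) (b (l 16778776) (b (l 16776760) (a (c (b (l 16777512) (l 107609064231)) (b (l 16776888) (b (c (l 85597354855) (a (a (a (l 299808849415) (a (l 153779960199) (l 148411251623))) (l 46942649399)) (l 16777408))) (a (l 286923947191) (a (b (l 16777280) (l 124252060343)) (l 16777336)))))) (l 16777776))))) (c (c (l 16776624) (l 16779168)) (b (l 16779520) (l 16777296)))) (c (c (l 16780488) (l 16780368)) (b (l 16780608) (l 16779752)))), by decide +kernel⟩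

def k17_pm_213_t : ∃ t, chk3 f_pm_213_t t 106 247 1 = true :=
  ⟨(b (b (a (b (c (c (a (l 160222405335) (l 16777480)) (l 119420220519)) (b (a (a (l 4) (a (l 310546267495) (b (l 16776920) (l 151095605575)))) (l 16777464)) (a (l 4) (a (a (b (l 116198996775) (l 287460818535)) (l 16777304)) (l 16777440))))) (a (l 4) (c (c (l 133915732007) (l 16776928)) (b (c (l 119957090279) (a (a (l 4) (l 243437403751)) (a (l 45868907447) (l 16777360)))) (a (l 4) (a (l 286923947479) (a (l 126936414727) (l 16777280)))))))) (c (c (l 16777936) (l 16777912)) (l 16777224))) (b (a (a (l 4) (a (l 4) (l 4))) (c (c (l 42110808007) (l 16777632)) (a (a (a (b (a (l 152706218119) (l 108145933143)) (l 4)) (b (l 16777312) (a (l 169349216231) (l 155927444199)))) (l 16776752)) (l 16777696)))) (a (l 4) (c (c (a (l 159148663655) (l 16777488)) (l 116198992567)) (b (a (a (l 4) (a (l 268670336551) (l 99019127479))) (l 16777504)) (a (l 324504910247) (a (a (a (l 143579412855) (l 16777232)) (l 16777320)) (l 16777472))))))))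 (b (a (l 4) (a (l 4) (c (c (b (l 126399539735) (l 327726135591)) (l 150021855927)) (b (a (a (l 4) (a (l 294977010919) (b (l 123715189351) (l 4)))) (a (b (l 16777304) (l 160222410263)) (l 40500198231))) (l 321820555319))))) (l 4))), by decide +kernel⟩

def k18_pm_213_t : ∃ t, chk3 f_pm_213_t t 107 247 1 = true :=
  ⟨(b (c (c (l 16778968) (l 16778904)) (a (l 16777104) (l 16773952))) (a (c (b (c (a (l 16775288) (l 16777904)) (l 16777760)) (c (a (l 270817818903) (b (l 16777504) (l 125862668839))) (a (l 274575915191) (l 103850961175)))) (b (a (a (b (l 16777472) (a (b (l 114051512807) (l 4)) (b (l 16777328) (l 138210704551)))) (l 16777552)) (l 16777848)) (b (a (b (a (l 4) (a (l 157538055735) (l 16777280))) (l 319136201207)) (a (b (l 16777416) (l 41573939639)) (l 16777552))) (a (l 4) (a (a (l 4) (b (l 133378865207) (l 4))) (a (b (l 16777312) (l 157001184823)) (l 16777360))))))) (c (c (l 16778272) (l 16778240)) (c (l 16778208) (l 16776864))))), by decide +kernel⟩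

def k19_pm_213_t : ∃ t, chk3 f_pm_213_t t 27 61 1 = true :=
  ⟨(b (a (c (b (c (l 16786128) (l 16785688)) (c (l 16774168) (l 16773840))) (b (l 16774528) (l 16778584))) (c (b (l 16779360) (c (l 16788784) (l 16767400))) (a (l 16776536) (l 16768488)))) (a (b (c (c (l 16782968) (l 16781440)) (a (l 16781600) (l 16772696))) (c (c (a (b (l 16770152) (l 16779576)) (l 16781976)) (a (b (l 16780520) (l 16779496)) (l 16781832))) (a (b (l 16775096) (l 16776760)) (a (l 16781064) (l 16776816))))) (b (c (c (l 16776808) (l 16776520)) (l 16776072)) (c (c (l 16780152) (a (l 16783976) (l 16786424))) (a (l 16783704) (l 16786128)))))), by decide +kernel⟩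

def k20_pm_213_t : ∃ t, chk3 f_pm_213_t t 12 62 1 = true :=
  ⟨(l 4), by decide +kernel⟩

def k21_pm_213_t : ∃ t, chk3 f_pm_213_t t 26 62 1 = true :=
  ⟨(b (b (b (a (l 4) (a (l 4) (a (b (a (l 4) (b (c (c (l 331484231991) (l 175791660199)) (l 325578651719)) (l 4))) (l 4)) (b (c (a (c (b (l 16777304) (l 160222405527)) (l 127473281943)) (c (l 16777648) (l 16777632))) (a (a (b (b (l 40500197815) (a (l 4) (l 134989477927))) (l 4)) (b (l 16777424) (a (l 285313334487) (b (l 16777280) (l 174181053543))))) (c (l 16777624) (b (l 16777720) (l 37278972199))))) (a (l 4) (b (c (c (l 129620765031) (l 16774344)) (a (a (l 4) (l 253637950839)) (a (b (l 16777312) (l 164517377383)) (l 16777360)))) (c (c (l 343295391959) (l 179549756487)) (l 336852940759)))))))) (l 4)) (l 4)) (l 4)), by decide +kernel⟩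

def k22_pm_213_t : ∃ t, chk3 f_pm_213_t t 54 248 1 = true :=
  ⟨(a (b (b (c (c (l 16778728) (l 16778680)) (l 16777296)) (c (c (a (a (l 37815840663) (l 16777912)) (l 16778584)) (a (l 16777768) (l 16778544))) (b (l 16776896) (a (a (a (a (b (l 16777144) (l 4)) (l 109219674983)) (l 16777424)) (l 16777720)) (l 16778344))))) (b (a (c (c (a (l 290145171559) (b (l 16777496) (l 138210705175))) (a (l 293366396919) (l 111904034631))) (b (b (a (a (l 4) (l 134452607367)) (l 16777512)) (a (l 348127230279) (c (l 16777432) (l 37815842759)))) (a (l 4) (a (l 300882590615) (b (l 16777352) (l 146263768423)))))) (c (c (l 16777976) (l 16777952)) (l 16777920))) (a (l 4) (c (c (a (b (l 110293413463) (l 294440139431)) (l 16777632)) (a (b (l 16777152) (l 175254789687)) (l 16777624))) (a (b (a (b (l 115662124727) (l 303030074599)) (l 16777408)) (a (l 4) (l 270280948855))) (a (a (b (l 16777536) (l 118883355063)) (l 16777512)) (l 16777656))))))) (c (c (b (l 16780320) (l 16779096)) (b (l 16780240) (l 16779048)))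 (b (l 16780112) (a (l 16775888) (l 16779480))))), by decide +kernel⟩

def k23_pm_213_t : ∃ t, chk3 f_pm_213_t t 54 249 1 = true :=
  ⟨(a (b (b (b (a (l 4) (a (l 4) (c (c (l 197266501351) (l 154853696631)) (a (l 338463554151) (b (l 16777272) (l 167738601687)))))) (l 4)) (l 4)) (l 4)) (b (c (c (a (b (a (b (l 16777560) (l 123178319719)) (l 16777856)) (a (l 344906003991) (b (l 16777312) (l 263301626791)))) (b (l 16778608) (l 16777928))) (a (b (c (l 32447129911) (l 16774456)) (a (l 337926681991) (b (l 16777304) (l 167738597671)))) (l 28152165351))) (b (b (l 16776272) (a (a (a (a (l 320209943575) (l 180086633655)) (l 16776032)) (l 16777664)) (l 16778368))) (b (a (a (l 332021102711) (a (a (l 143042540279) (l 16777256)) (l 16777456))) (l 16778040)) (a (a (l 4) (a (l 4) (a (l 176328535351) (l 139284443767)))) (l 16776096))))) (a (l 4) (b (b (c (a (c (a (l 175254792231) (l 16777128)) (l 141431924951)) (c (l 16777616) (l 16777608))) (a (a (l 308935654247) (l 118346480727)) (l 16777600)))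 (a (l 4) (c (c (l 115125256407) (l 116735863879)) (a (a (l 173644180839) (l 134989476503)) (l 16777392))))) (a (l 4) (c (c (l 330410489463) (l 331484231143)) (c (l 333094843735) (l 329873618119)))))))), by decide +kernel⟩

def k24_pm_213_t : ∃ t, chk3 f_pm_213_t t 54 125 1 = true :=
  ⟨(l 4), by decide +kernel⟩

def k25_pm_213_t : ∃ t, chk3 f_pm_213_t t 110 62 1 = true :=
  ⟨(b (b (c (c (l 16776624) (b (l 16782416) (l 16781168))) (b (l 16771760) (l 16781056))) (b (c (c (l 16779816) (l 16779776)) (l 16777088)) (c (c (a (b (l 16778184) (a (b (l 16777336) (l 258469788631)) (l 16777720))) (l 16778840)) (a (b (l 16778168) (a (b (l 16777328) (l 163443630423)) (l 16777712))) (l 16778816))) (a (b (l 16778144) (a (a (b (l 115662128807) (l 4)) (b (l 16777488) (a (l 169886084439) (l 131768251015)))) (l 16777704))) (l 16776160))))) (b (b (b (b (a (a (l 4) (c (c (a (l 175254792135) (l 16777112)) (l 140895059207)) (a (l 308935654231) (l 116198994327)))) (c (c (l 16777880) (l 16777872)) (l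 16777856))) (a (l 4) (c (c (a (a (l 152706214855) (l 16777336)) (l 16777744)) (a (l 119957099559) (l 16777736))) (a (a (l 152706214759) (l 16777328)) (l 16777728))))) (a (l 4) (c (c (a (l 351348454855) (b (l 82376134231) (l 285850204935))) (b (a (l 181697239927) (l 83449876039)) (l 318599330615))) (a (l 345979745367) (b (a (l 124252057735) (l 16777480)) (l 289608301143)))))) (l 4)) (l 4))), by decide +kernel⟩

def k26_pm_213_t : ∃ t, chk3 f_pm_213_t t 111 62 1 = true :=
  ⟨(b (b (c (c (l 16784224) (l 16784112)) (l 16778704)) (c (c (b (l 16782056) (l 16780488)) (b (l 16782000) (l 16775208))) (b (l 16781904) (l 16775152)))) (a (b (b (c (c (b (l 16778728) (l 44795165927)) (b (l 16778712) (c (l 16777960) (l 16777952)))) (b (l 16778688) (a (l 31910261863) (l 16778152)))) (b (b (c (c (a (a (l 351885327063) (l 134452604551)) (l 16777584)) (a (c (l 154853696215) (l 157001179991)) (l 16777584))) (a (a (l 352959068695) (l 136063217223)) (l 16777576))) (b (a (l 4) (c (c (l 172033575751)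 (l 16777096)) (l 16775768))) (c (c (l 314304362615) (l 314304362487)) (l 317525587799)))) (l 4))) (l 4)) (b (b (c (c (l 16779400) (l 16779376)) (l 16779344)) (c (b (c (l 16778144) (l 16778136)) (a (c (b (a (l 151632472983) (l 16777328)) (l 346516617511)) (b (c (l 118346476375) (l 16777016)) (l 345979746503))) (c (b (l 16777768) (l 156464320327)) (c (l 16779432) (l 16777464))))) (b (l 16778120) (b (a (a (l 154316827447) (l 16777328)) (l 16777752)) (a (l 348127230007) (a (l 16775032) (l 16777464))))))) (b (b (b (b (c (c (l 327726135303) (l 326652393351)) (l 329336747735)) (l 4)) (l 4)) (l 4)) (l 4))))), by decide +kernel⟩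

def k27_pm_213_t : ∃ t, chk3 f_pm_213_t t 6 63 1 = true :=
  ⟨(l 4), by decide +kernel⟩

def k28_pm_213_t : ∃ t, chk3 f_pm_213_t t 7 6 1 = true :=
  ⟨(b (l 6) (a (b (a (b (a (l 16796312) (l 6)) (a (b (l 16804304) (l 16809640)) (b (a (l 16805496) (l 6)) (a (l 16811864) (l 16813960))))) (b (l 6) (a (b (l 6) (c (l 16807192) (l 16826384))) (l 6)))) (a (b (b (a (l 16814752) (c (l 16812728) (l 16831784))) (a (c (l 16812560) (l 16829200)) (c (l 16819888) (l 16841320)))) (b (a (l 16780328) (l 16770824)) (a (l 16820056) (l 16810656)))) (c (b (a (b (l 16816112) (l 16825512)) (b (l 16820296) (l 16829736))) (a (b (l 16831032) (l 16831320)) (l 16835720))) (b (a (b (l 16838240) (l 16850168)) (b (l 16845576) (l 16857208))) (a (b (l 16835216) (l 16854384)) (l 16862328)))))) (b (l 6) (a (b (b (l 6) (a (c (l 16834656) (l 16864648)) (a (l 16769648) (l 6)))) (c (a (b (l 16839280) (l 16839584)) (b (l 16843448) (l 16843584))) (a (l 16810448) (b (l 16854024) (l 16872896))))) (b (l 6) (a (c (b (l 16826832)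 (l 16848480)) (c (l 16850784) (l 16889328))) (b (l 6) (c (l 16833064) (a (l 16863792) (l 16867616)))))))))), by decide +kernel⟩

def k29_pm_213_t : ∃ t, chk3 f_pm_213_t t 14 14 1 = true :=
  ⟨(b (a (b (a (c (l 16791096) (l 16781144)) (c (l 16821056) (l 16815592))) (a (b (l 16814656) (l 16780584)) (b (l 16782072) (c (l 16815488) (l 16825544))))) (b (c (a (l 16808888) (l 16834136)) (a (b (l 16830672) (l 16826984)) (l 16845864))) (a (b (c (l 16826360) (l 16800912)) (c (l 16823032) (l 16836912))) (c (b (l 16831800) (l 16808256)) (b (l 16829816) (l 16845872)))))) (c (a (b (a (b (l 16806640) (l 16804288)) (b (l 16812848) (l 16810096))) (a (b (l 16801856) (l 16799952)) (b (l 16807880) (l 16785096)))) (b (a (b (l 16819968) (l 16817448)) (b (l 16806312) (l 16783696))) (a (b (l 16815320) (l 16813448)) (b (l 16824296) (l 16821976))))) (a (b (a (b (l 16811176) (l 16807216)) (b (l 16820928) (l 16816320))) (a (b (l 16803304) (l 16779176)) (b (l 16812456) (l 16788216)))) (b (a (b (l 16810656)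 (l 16806120)) (b (l 16841968) (l 16838584))) (a (b (l 16823136) (l 16819608)) (b (a (l 16831712) (l 16837664)) (l 16810456))))))), by decide +kernel⟩

def k30_pm_213_t : ∃ t, chk3 f_pm_213_t t 15 14 1 = true :=
  ⟨(b (c (b (a (a (l 16817456) (b (l 16843384) (l 16842936))) (a (b (l 16848904) (l 16849528)) (c (l 16828752) (l 16821208)))) (a (a (l 16794056) (b (l 16842696) (l 16842432))) (a (a (l 16806832) (l 16810480)) (a (l 16793328) (l 16796824))))) (a (b (a (b (l 16843184) (l 16860976)) (b (l 16870504) (l 16846968))) (a (b (l 16857560) (l 16854472)) (b (l 16865688) (l 16863480)))) (b (b (a (l 16846360) (c (l 16877968) (l 16894720))) (a (l 16855448) (l 16885528))) (a (c (l 16868272) (l 16829040)) (a (l 16839664) (l 16817392)))))) (a (b (a (c (b (l 16834384) (l 16833440)) (b (l 16851488) (l 16848744))) (c (b (l 16842168) (l 16841096)) (c (l 16855152) (l 16810720)))) (c (a (b (l 16831696) (l 16828928)) (l 16816552)) (b (a (l 16845200) (l 16844384)) (a (l 16815832) (l 16834104)))))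 (a (b (b (c (l 16850000) (l 16843808)) (c (l 16848464) (l 16831352))) (c (l 16811912) (b (l 16820496) (l 16789960)))) (b (b (c (l 16856776) (l 16819128)) (b (l 16800336) (l 16794088))) (b (a (l 16786248) (l 16786200)) (a (l 16786560) (a (l 16776088) (l 16786656)))))))), by decide +kernel⟩

def k31_pm_213_t : ∃ t, chk3 f_pm_213_t t 14 30 1 = true :=
  ⟨(b (a (b (a (a (c (l 16786224) (l 16774248)) (c (l 16799760) (l 16799552))) (c (l 16783536) (l 16806368))) (a (c (a (b (l 16796232) (l 16795008)) (l 16798080)) (a (l 16773584) (l 16797072))) (c (l 16803112) (l 16803896)))) (b (a (c (l 16811728) (l 16816408)) (c (l 16818640) (l 16826072))) (a (c (l 16809224) (l 16791560)) (c (l 16815192) (l 16818848))))) (a (b (a (b (c (a (l 16793952) (l 16797504)) (l 16774088)) (c (l 16794360) (l 16772568))) (b (a (l 16799696) (l 16803432)) (a (c (l 16799224) (l 16798664)) (l 16801824)))) (a (b (c (l 16792640) (l 16792056)) (c (c (l 16790744) (l 16790568)) (l 16779800))) (a (b (l 16797112) (l 16789448))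 (b (c (l 16799816) (l 16799616)) (b (l 16797312) (l 16795264)))))) (b (a (c (l 16806176) (l 16792504)) (c (l 16810544) (l 16794272))) (a (b (c (l 16803112) (l 16802368)) (a (b (l 16798744) (l 16796608)) (l 16798928))) (b (c (l 16806312) (l 16803832)) (l 16790464)))))), by decide +kernel⟩

def k32_pm_213_t : ∃ t, chk3 f_pm_213_t t 15 30 1 = true :=
  ⟨(a (a (b (b (a (c (l 16823680) (l 16827208)) (l 16831024)) (a (c (l 16819184) (l 16818064)) (l 16790624))) (b (a (l 16791992) (b (l 16815696) (l 16790576))) (a (c (l 16806408) (l 16803128)) (b (l 16786656) (l 16804008))))) (a (b (b (l 16830744) (l 16800848)) (b (l 16783056) (b (l 16787480) (b (l 16784808) (l 16782960))))) (b (b (l 16809440) (l 16779768)) (b (c (l 16817272) (l 16809960)) (b (l 16787288) (l 16783736)))))) (a (c (b (b (l 16835560) (l 16826328)) (b (l 16796584) (a (l 16809296) (l 16809368)))) (b (b (a (l 16823936) (l 16802184)) (a (l 16816288) (l 16794648))) (b (a (l 16788392) (l 16787680)) (a (l 16781960) (a (l 16781440)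 (l 16781072)))))) (c (b (b (l 16836440) (l 16805936)) (b (a (l 16817840) (l 16818104)) (a (l 16809448) (l 16784680)))) (a (b (b (l 16801520) (l 16793976)) (b (l 16781736) (c (l 16782648) (l 16778288)))) (b (b (l 16801048) (l 16782936)) (b (a (l 16786528) (l 16786256)) (b (l 16781440) (a (l 16799440) (l 16799160))))))))), by decide +kernel⟩

def k33_pm_213_t : ∃ t, chk3 f_pm_213_t t 28 124 1 = true :=
  ⟨(b (a (c (c (l 16777568) (a (l 16786608) (l 16789224))) (a (l 16786440) (l 16789064))) (c (a (l 16790960) (l 16792088)) (a (l 16791088) (l 16792176)))) (a (c (c (b (l 16785720) (l 16778608)) (b (l 16780416) (a (l 16782752) (l 16784728)))) (a (b (l 16784272) (l 16782680)) (b (l 16786704) (l 16784784)))) (c (c (l 16787680) (a (l 16787104) (l 16788304))) (a (b (l 16788080) (l 16786208)) (l 16783080))))), by decide +kernel⟩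

def k34_pm_213_t : ∃ t, chk3 f_pm_213_t t 28 250 1 = true :=
  ⟨(a (b (c (c (a (l 16781096) (l 16782888)) (a (l 16775824) (l 16782904))) (a (l 16775776) (l 16782936))) (c (c (a (l 16776688) (l 16781128)) (a (c (l 16776696) (l 16774080)) (l 16778520))) (a (a (l 16776128) (l 16779824)) (c (l 16781152) (l 16781168))))) (c (b (c (l 16785032) (l 16779784)) (a (c (l 16782688) (l 16782688)) (l 16784016))) (b (a (l 16784416) (l 16785664)) (a (c (l 16782696) (l 16782704)) (l 16783992))))), by decide +kernel⟩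

def k35_pm_213_t : ∃ t, chk3 f_pm_213_t t 56 251 1 = true :=
  ⟨(a (a (b (a (b (b (c (c (l 16777344) (l 16778736)) (l 16777336)) (a (l 4) (c (c (l 152706214727) (l 151095601959)) (l 154853698279)))) (l 4)) (b (c (c (l 16777696) (l 46405778791)) (l 16777704)) (b (c (c (a (l 345442876215) (l 198877121175)) (c (l 191360920247) (l 154853696247))) (a (l 187065951415) (l 135526346295))) (l 4)))) (l 4)) (b (c (b (c (l 16778472) (l 16778480)) (c (a (a (b (l 16777424) (l 177402275703)) (l 78081167063)) (l 16777848)) (a (b (l 16777560) (c (l 139284440535) (l 140895053415))) (l 16777848)))) (b (l 16778488) (a (b (l 16777560) (a (l 179012888311) (l 16777104))) (l 16777848)))) (b (a (l 4) (b (c (c (a (l 163980503383) (l 16777232)) (c (l 128547023015) (l 129620764823))) (a (l 165591116023) (l 16777224))) (c (c (l 392687515639) (l 395908740999)) (l 391076902615)))) (l 4)))) (b (c (c (l 16776800) (b (l 16779840) (l 16776376))) (a (l 16776704) (l 16777248))) (b (b (c (c (l 16778360) (l 16778360))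 (l 16775744)) (a (a (c (c (a (l 149484989767) (l 16777320)) (c (l 16777032) (l 119957089031))) (a (l 153243085415) (l 16777312))) (c (l 16777720) (l 16777728))) (c (l 16778384) (l 16778392)))) (b (a (a (c (c (l 366380841175) (l 364770228343)) (l 366917711831)) (c (c (c (l 168812351255) (l 16777128)) (a (l 134989475239) (l 16777384))) (a (l 139821313415) (l 16777384)))) (c (l 16776664) (l 16777976))) (a (a (l 4) (c (c (l 347590359447) (l 345442875703)) (l 347590359207))) (a (c (c (l 81302392487) (l 83986747111)) (a (l 129083895591) (l 16777440))) (c (l 16777784) (l 16777784)))))))), by decide +kernel⟩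

def k36_pm_213_t : ∃ t, chk3 f_pm_213_t t 57 251 1 = true :=
  ⟨(b (c (a (c (l 16781032) (l 16775784)) (l 16782408)) (a (c (l 16778408) (l 16781032)) (c (l 16782392) (l 16782384)))) (c (a (c (l 16776792) (b (l 16779808) (l 16779000))) (b (l 16781232) (l 16780464))) (a (c (b (l 16779808) (l 16776376)) (b (l 16779808) (l 16779000))) (c (a (l 16780496) (l 16781168)) (b (l 16781200) (l 16780440)))))), by decide +kernel⟩

def k37_pm_213_t : ∃ t, chk3 f_pm_213_t t 29 62 1 = true :=
  ⟨(a (b (a (b (c (l 16793072) (a (l 16792720) (l 16793456))) (c (l 16768440) (l 16784136))) (a (b (l 16794376) (b (l 16791048) (l 16789288))) (b (l 16794976) (b (l 16791896) (l 16789912))))) (b (a (c (l 16786056) (b (l 16786784) (l 16779928))) (b (l 16782512) (l 16786288))) (c (b (l 16784224) (a (l 16782144) (l 16772816))) (a (b (l 16780992) (c (l 16782104) (l 16782088))) (b (l 16784720) (l 16777984)))))) (a (b (b (l 16796136) (l 16781608)) (b (b (a (l 16788848) (l 16789560)) (a (l 16776408) (c (l 16787880)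 (l 16787680)))) (b (a (l 16785496) (c (l 16775400) (l 16775232))) (c (l 16784288) (l 16784176))))) (b (b (l 16797608) (l 16793688)) (b (c (l 16769160) (l 16789472)) (b (a (l 16789320) (l 16787328)) (a (c (l 16774320) (l 16774136)) (c (l 16785736) (l 16785504)))))))), by decide +kernel⟩

def k38_pm_213_t : ∃ t, chk3 f_pm_213_t t 15 62 1 = true :=
  ⟨(a (b (a (c (b (l 16800848) (l 16796736)) (b (l 16798224) (l 16794760))) (a (b (b (l 16781056) (l 16781784)) (c (l 16798736) (l 16795816))) (b (l 16780296) (c (l 16799696) (l 16796280))))) (b (a (a (l 16791320) (l 16782208)) (a (l 16780752) (c (l 16795888) (a (l 16793112) (l 16793248))))) (a (a (c (l 16777360) (l 16776720)) (c (l 16789464) (l 16777920))) (a (c (l 16790888) (l 16789392)) (a (l 16780464) (b (l 16781712) (l 16779880))))))) (c (a (a (b (l 16801560) (b (l 16796016) (l 16792488))) (b (b (l 16803464) (l 16799648)) (b (l 16795992) (l 16792456)))) (a (b (a (l 16780592) (l 16780616)) (b (l 16796000) (c (l 16793296) (l 16781136))))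 (b (a (l 16780672) (l 16780760)) (a (b (l 16796088) (l 16792560)) (b (l 16796184) (l 16782144)))))) (a (b (a (b (l 16777416) (l 16795496)) (b (l 16797680) (l 16773800))) (b (a (l 16792688) (a (l 16771224) (l 16770880))) (a (a (l 16790160) (l 16789808)) (a (l 16779032) (l 16778728))))) (b (a (b (a (l 16797144) (l 16796784)) (a (l 16794264) (l 16793936))) (b (a (l 16796464) (l 16796184)) (a (l 16772664) (c (l 16795120) (l 16791576))))) (b (a (a (l 16781040) (l 16780744)) (c (l 16781768) (a (l 16789528) (l 16789208)))) (a (a (l 16778448) (b (l 16789296) (l 16788040))) (a (b (l 16789048) (l 16787800)) (b (l 16788816) (l 16787568))))))))), by decide +kernel⟩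

def k39_pm_213_t : ∃ t, chk3 f_pm_213_t t 56 126 1 = true :=
  ⟨(a (l 4) (a (l 4) (b (b (b (b (a (b (c (c (l 179549759079) (l 176865404471)) (l 179012888023)) (l 4)) (c (c (l 16778568) (l 16779056)) (c (l 16777248) (l 16777240)))) (b (a (l 4) (a (l 4) (c (l 147874383607) (l 16777016)))) (l 4))) (l 4)) (l 4)) (l 4)))), by decide +kernel⟩

def k40_pm_213_t : ∃ t, chk3 f_pm_213_t t 114 126 1 = true :=
  ⟨(b (a (b (b (a (c (c (l 77544296359) (l 16779168)) (a (c (l 79154908919) (l 16778712)) (l 16777704))) (c (l 16778008) (l 16778008))) (b (a (a (l 4) (b (c (l 139284443991) (l 16775736)) (l 4))) (c (c (l 16777328) (l 16777328)) (c (l 16777320) (l 16777320)))) (a (l 4) (b (a (l 4) (c (l 133915735047) (l 133378864103))) (l 4))))) (l 4)) (b (c (b (l 16778600) (a (c (l 16777568) (l 16777568)) (l 16778008))) (b (l 16777288) (a (b (l 16777808) (c (l 16777336) (l 16777336))) (l 16776696)))) (b (a (b (b (a (c (l 204782693111) (l 205856434983)) (c (l 16777088) (l 130157638743))) (c (l 425973512551)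 (l 426510383271))) (l 4)) (b (c (c (l 16777352) (l 16777344)) (c (l 16777344) (l 16777336))) (b (c (c (l 162369890503) (l 160759277751)) (c (l 159685535895) (l 161833022119))) (c (l 430805350743) (l 431879092375))))) (l 4)))) (l 4)), by decide +kernel⟩

def k41_pm_213_t : ∃ t, chk3 f_pm_213_t t 115 126 1 = true :=
  ⟨(b (b (b (c (l 16779688) (c (l 16779680) (l 16777048))) (c (l 16777616) (c (l 16778912) (a (l 16778560) (l 16779256))))) (b (c (a (a (c (l 16777560) (l 16777560)) (l 16777976)) (l 16778520)) (a (a (b (l 16777800) (c (l 16777336) (l 78618037351))) (l 16776664)) (l 16777200))) (a (b (b (a (a (c (l 207467047655) (l 209077660263)) (c (l 16777072) (l 131768251367))) (c (l 16777496) (l 16777496))) (a (l 4) (c (l 16778512) (a (l 16775568) (l 16777392))))) (b (a (l 4) (a (l 4) (c (l 16777048) (l 16777032)))) (l 4))) (b (c (l 16777944) (l 16777936)) (c (a (l 80765521575) (l 16777736)) (a (l 83449876119) (l 16777736))))))) (a (l 4) (b (b (b (b (a (a (l 4) (c (l 16777032) (l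 16777008))) (c (l 16777448) (l 16777448))) (a (l 4) (c (l 16778744) (l 106535322823)))) (a (l 4) (c (c (l 348127230423) (l 344906004855)) (c (l 342221650199) (l 339000424631))))) (l 4)) (l 4)))), by decide +kernel⟩

def k42_pm_213_t : ∃ t, chk3 f_pm_213_t t 29 126 1 = true :=
  ⟨(b (a (b (a (c (c (l 16780656) (l 16780640)) (b (l 16780976) (l 16780240))) (c (l 16781824) (b (l 16782120) (l 16776152)))) (c (a (b (l 16779520) (l 16776800)) (b (l 16775472) (l 16779984))) (a (b (l 16779496) (c (l 16778760) (l 16778752))) (b (l 16780672) (l 16779944))))) (b (b (a (l 16783136) (a (l 16783776) (l 16778832))) (l 14)) (l 14))) (a (a (b (a (b (b (c (l 16777872) (l 16777872)) (b (c (l 16777584) (l 16777576)) (a (c (l 194045283335) (a (l 157001182935) (l 16777280))) (l 16777568)))) (a (b (c (l 377655130311) (c (l 371749550119) (l 367454582711))) (l 4)) (b (b (c (l 16777352) (l 16777344)) (c (l 136600095303) (a (l 173107309735) (l 16777200)))) (c (l 412014868407) (c (l 424899770103) (l 427584124551))))))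 (b (c (l 16778344) (l 16777024)) (b (c (l 16777784) (l 16777776)) (a (b (c (l 16777272) (l 78618036743)) (a (c (l 201024596487) (l 203708950999)) (c (l 16777104) (l 125862671399)))) (l 14))))) (a (l 4) (a (a (l 4) (l 14)) (l 14)))) (b (b (c (l 16779248) (l 16777912)) (l 14)) (l 14))) (l 14))), by decide +kernel⟩

def k43_pm_213_t : ∃ t, chk3 f_pm_213_t t 14 127 1 = true :=
  ⟨(a (l 4) (a (a (l 4) (l 14)) (l 14))), by decide +kernel⟩

def k44_pm_213_t : ∃ t, chk3 f_pm_213_t t 15 63 1 = true :=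
  ⟨(b (b (b (b (a (a (a (l 16774768) (l 16786608)) (c (l 16788992) (l 16777176))) (b (b (a (a (l 16779160) (l 16778864)) (a (a (l 16778704) (l 16778608)) (c (l 16790744) (l 16786984)))) (l 14)) (l 14))) (l 14)) (l 14)) (l 14)) (l 14)), by decide +kernel⟩

theorem s45_pm_213_t : ∃ t, chk3 f_pm_213_t t 57 126 1 = true := ex3_a k40_pm_213_t k41_pm_213_t

theorem s46_pm_213_t : ∃ t, chk3 f_pm_213_t t 28 126 1 = true := ex3_a k39_pm_213_t s45_pm_213_t

theorem s47_pm_213_t : ∃ t, chk3 f_pm_213_t t 14 126 1 = true := ex3_a s46_pm_213_t k42_pm_213_t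

theorem s48_pm_213_t : ∃ t, chk3 f_pm_213_t t 14 63 1 = true := ex3_b s47_pm_213_t k43_pm_213_t

theorem s49_pm_213_t : ∃ t, chk3 f_pm_213_t t 7 63 1 = true := ex3_a s48_pm_213_t k44_pm_213_t

theorem s50_pm_213_t : ∃ t, chk3 f_pm_213_t t 28 251 1 = true := ex3_a k35_pm_213_t k36_pm_213_t

theorem s51_pm_213_t : ∃ t, chk3 f_pm_213_t t 28 125 1 = true := ex3_b k34_pm_213_t s50_pm_213_t

theorem s52_pm_213_t : ∃ t, chk3 f_pm_213_t t 28 62 1 = true := ex3_b k33_pm_213_t s51_pm_213_t

theorem s53_pm_213_t : ∃ t, chk3 f_pm_213_t t 14 62 1 = true := ex3_a s52_pm_213_t k37_pm_213_t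

theorem s54_pm_213_t : ∃ t, chk3 f_pm_213_t t 7 62 1 = true := ex3_a s53_pm_213_t k38_pm_213_t

theorem s55_pm_213_t : ∃ t, chk3 f_pm_213_t t 7 31 1 = true := ex3_b s54_pm_213_t s49_pm_213_t

theorem s56_pm_213_t : ∃ t, chk3 f_pm_213_t t 7 30 1 = true := ex3_a k31_pm_213_t k32_pm_213_t

theorem s57_pm_213_t : ∃ t, chk3 f_pm_213_t t 7 15 1 = true := ex3_b s56_pm_213_t s55_pm_213_t

theorem s58_pm_213_t : ∃ t, chk3 f_pm_213_t t 7 14 1 = true := ex3_a k29_pm_213_t k30_pm_213_t

theorem s59_pm_213_t : ∃ t, chk3 f_pm_213_t t 7 7 1 = true := ex3_b s58_pm_213_t s57_pm_213_t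

theorem s60_pm_213_t : ∃ t, chk3 f_pm_213_t t 7 3 1 = true := ex3_b k28_pm_213_t s59_pm_213_t

theorem s61_pm_213_t : ∃ t, chk3 f_pm_213_t t 55 62 1 = true := ex3_a k25_pm_213_t k26_pm_213_t

theorem s62_pm_213_t : ∃ t, chk3 f_pm_213_t t 54 124 1 = true := ex3_b k22_pm_213_t k23_pm_213_t

theorem s63_pm_213_t : ∃ t, chk3 f_pm_213_t t 54 62 1 = true := ex3_b s62_pm_213_t k24_pm_213_t

theorem s64_pm_213_t : ∃ t, chk3 f_pm_213_t t 27 62 1 = true := ex3_a s63_pm_213_t s61_pm_213_t

theorem s65_pm_213_t : ∃ t, chk3 f_pm_213_t t 13 62 1 = true := ex3_a k21_pm_213_t s64_pm_213_t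

theorem s66_pm_213_t : ∃ t, chk3 f_pm_213_t t 6 62 1 = true := ex3_a k20_pm_213_t s65_pm_213_t

theorem s67_pm_213_t : ∃ t, chk3 f_pm_213_t t 6 31 1 = true := ex3_b s66_pm_213_t k27_pm_213_t

theorem s68_pm_213_t : ∃ t, chk3 f_pm_213_t t 53 247 1 = true := ex3_a k17_pm_213_t k18_pm_213_t

theorem s69_pm_213_t : ∃ t, chk3 f_pm_213_t t 53 123 1 = true := ex3_b k16_pm_213_t s68_pm_213_t

theorem s70_pm_213_t : ∃ t, chk3 f_pm_213_t t 105 246 1 = true := ex3_b k13_pm_213_t k14_pm_213_t

theorem s71_pm_213_t : ∃ t, chk3 f_pm_213_t t 52 246 1 = true := ex3_a k12_pm_213_t s70_pm_213_t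

theorem s72_pm_213_t : ∃ t, chk3 f_pm_213_t t 52 123 1 = true := ex3_b s71_pm_213_t k15_pm_213_t

theorem s73_pm_213_t : ∃ t, chk3 f_pm_213_t t 26 123 1 = true := ex3_a s72_pm_213_t s69_pm_213_t

theorem s74_pm_213_t : ∃ t, chk3 f_pm_213_t t 26 122 1 = true := ex3_c k10_pm_213_t k11_pm_213_t

theorem s75_pm_213_t : ∃ t, chk3 f_pm_213_t t 26 61 1 = true := ex3_b s74_pm_213_t s73_pm_213_t

theorem s76_pm_213_t : ∃ t, chk3 f_pm_213_t t 13 61 1 = true := ex3_a s75_pm_213_t k19_pm_213_t

theorem s77_pm_213_t : ∃ t, chk3 f_pm_213_t t 13 30 1 = true := ex3_b k9_pm_213_t s76_pm_213_t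

theorem s78_pm_213_t : ∃ t, chk3 f_pm_213_t t 12 30 1 = true := ex3_b k7_pm_213_t k8_pm_213_t

theorem s79_pm_213_t : ∃ t, chk3 f_pm_213_t t 6 30 1 = true := ex3_a s78_pm_213_t s77_pm_213_t

theorem s80_pm_213_t : ∃ t, chk3 f_pm_213_t t 6 15 1 = true := ex3_b s79_pm_213_t s67_pm_213_t

theorem s81_pm_213_t : ∃ t, chk3 f_pm_213_t t 6 14 1 = true := ex3_b k5_pm_213_t k6_pm_213_t

theorem s82_pm_213_t : ∃ t, chk3 f_pm_213_t t 6 7 1 = true := ex3_b s81_pm_213_t s80_pm_213_t

theorem s83_pm_213_t : ∃ t, chk3 f_pm_213_t t 6 3 1 = true := ex3_b k4_pm_213_t s82_pm_213_t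

theorem s84_pm_213_t : ∃ t, chk3 f_pm_213_t t 3 3 1 = true := ex3_a s83_pm_213_t s60_pm_213_t

theorem s85_pm_213_t : ∃ t, chk3 f_pm_213_t t 3 1 1 = true := ex3_b k3_pm_213_t s84_pm_213_t

theorem s86_pm_213_t : ∃ t, chk3 f_pm_213_t t 2 3 1 = true := ex3_b k1_pm_213_t k2_pm_213_t

theorem s87_pm_213_t : ∃ t, chk3 f_pm_213_t t 2 1 1 = true := ex3_b k0_pm_213_t s86_pm_213_t

theorem s88_pm_213_t : ∃ t, chk3 f_pm_213_t t 1 1 1 = true := ex3_a s87_pm_213_t s85_pm_213_t

theorem c_pm_213_t : CertNE 0 536870912 536870912 536870912 697932185 42949674 3 eng mog cd0q2 cd0q1 pd3 true true false .pnn 2 1 3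
    ndB0q2 ndB0q1 pcB3 cut_pm_213_t Ext.none :=
  certNE1 (fam := true) (s1 := true) (s2 := false) (a := 2) (b := 1) (c := 3) (cn := .pnn) (n1 := ndB0q2) (n2 := ndB0q1) (pc := pcB3) (cut := cut_pm_213_t) (xt := Ext.none) (P1 := 0) (W1 := 536870912) (P2 := 536870912) (W2 := 536870912) (P3 := 697932185) (W3 := 42949674) (N0 := 3) (En := eng) (mo := mog) (C1 := cd0q2) (C2 := cd0q1) (C3 := pd3)
    rfl (fun _ => rfl) s88_pm_213_t

noncomputable def cut_mm_001_s : Cut := Cut.of [[⟨4, 0, 0, 1449551462⟩]]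

noncomputable def f_mm_001_s : ℕ → ℕ → ℕ → ℕ → Bool := onCell 0 536870912 0 536870912 697932185 42949674
    (rowNE 3 eng mog cd0q0 cd0q0 pd1 0 true false false .up 0 0 1 (qsf 0 536870912 0 536870912 1) ndB0q0 ndB0q0 pcB1 cut_mm_001_s Ext.none)

def k0_mm_001_s : ∃ t, chk3 f_mm_001_s t 1 1 1 = true :=
  ⟨(l 4), by decide +kernel⟩

theorem c_mm_001_s : CertNE 0 536870912 0 536870912 697932185 42949674 3 eng mog cd0q0 cd0q0 pd1 true false false .up 0 0 1
    ndB0q0 ndB0q0 pcB1 cut_mm_001_s Ext.none :=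
  certNE0 (fam := true) (s1 := false) (s2 := false) (a := 0) (b := 0) (c := 1) (cn := .up) (n1 := ndB0q0) (n2 := ndB0q0) (pc := pcB1) (cut := cut_mm_001_s) (xt := Ext.none) (P1 := 0) (W1 := 536870912) (P2 := 0) (W2 := 536870912) (P3 := 697932185) (W3 := 42949674) (N0 := 3) (En := eng) (mo := mog) (C1 := cd0q0) (C2 := cd0q0) (C3 := pd1)
    rfl k0_mm_001_s

noncomputable def cut_mm_001_t : Cut := Cut.of [[⟨3, 0, 0, 2845415833⟩]]

noncomputable def f_mm_001_t : ℕ → ℕ → ℕ → ℕ → Bool := onCell 0 536870912 0 536870912 697932185 42949674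
    (rowNE 3 eng mog cd0q0 cd0q0 pd1 0 true false false .up 0 0 1 (qsf 0 536870912 0 536870912 1) ndB0q0 ndB0q0 pcB1 cut_mm_001_t Ext.none)

def k0_mm_001_t : ∃ t, chk3 f_mm_001_t t 1 1 1 = true :=
  ⟨(l 4), by decide +kernel⟩

theorem c_mm_001_t : CertNE 0 536870912 0 536870912 697932185 42949674 3 eng mog cd0q0 cd0q0 pd1 true false false .up 0 0 1
    ndB0q0 ndB0q0 pcB1 cut_mm_001_t Ext.none :=
  certNE0 (fam := true) (s1 := false) (s2 := false) (a := 0) (b := 0) (c := 1) (cn := .up) (n1 := ndB0q0) (n2 := ndB0q0) (pc := pcB1) (cut := cut_mm_001_t) (xt := Ext.none) (P1 := 0) (W1 := 536870912) (P2 := 0) (W2 := 536870912) (P3 := 697932185) (W3 := 42949674) (N0 := 3) (En := eng) (mo := mog) (C1 := cd0q0) (C2 := cd0q0) (C3 := pd1)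
    rfl k0_mm_001_t

noncomputable def cut_mm_011_s : Cut := Cut.of [[⟨4, 0, 0, 1449551462⟩]]

noncomputable def f_mm_011_s : ℕ → ℕ → ℕ → ℕ → Bool := onCell 0 536870912 536870912 536870912 697932185 42949674
    (rowNE 3 eng mog cd0q0 cd0q1 pd1 0 true false false .pnn 0 1 1 (qsf 0 536870912 536870912 536870912 1) ndB0q0 ndB0q1 pcB1 cut_mm_011_s Ext.none)

def k0_mm_011_s : ∃ t, chk3 f_mm_011_s t 1 1 1 = true :=
  ⟨(l 6), by decide +kernel⟩

theorem c_mm_011_s : CertNE 0 536870912 536870912 536870912 697932185 42949674 3 eng mog cd0q0 cd0q1 pd1 true false false .pnn 0 1 1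
    ndB0q0 ndB0q1 pcB1 cut_mm_011_s Ext.none :=
  certNE0 (fam := true) (s1 := false) (s2 := false) (a := 0) (b := 1) (c := 1) (cn := .pnn) (n1 := ndB0q0) (n2 := ndB0q1) (pc := pcB1) (cut := cut_mm_011_s) (xt := Ext.none) (P1 := 0) (W1 := 536870912) (P2 := 536870912) (W2 := 536870912) (P3 := 697932185) (W3 := 42949674) (N0 := 3) (En := eng) (mo := mog) (C1 := cd0q0) (C2 := cd0q1) (C3 := pd1)
    rfl k0_mm_011_s

noncomputable def cut_mm_011_t : Cut := Cut.of [[⟨3, 0, 0, 2845415833⟩]]

noncomputable def f_mm_011_t : ℕ → ℕ → ℕ → ℕ → Bool := onCell 0 536870912 536870912 536870912 697932185 42949674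
    (rowNE 3 eng mog cd0q0 cd0q1 pd1 0 true false false .pnn 0 1 1 (qsf 0 536870912 536870912 536870912 1) ndB0q0 ndB0q1 pcB1 cut_mm_011_t Ext.none)

def k0_mm_011_t : ∃ t, chk3 f_mm_011_t t 1 1 1 = true :=
  ⟨(b (l 4) (l 5)), by decide +kernel⟩

theorem c_mm_011_t : CertNE 0 536870912 536870912 536870912 697932185 42949674 3 eng mog cd0q0 cd0q1 pd1 true false false .pnn 0 1 1
    ndB0q0 ndB0q1 pcB1 cut_mm_011_t Ext.none :=
  certNE0 (fam := true) (s1 := false) (s2 := false) (a := 0) (b := 1) (c := 1) (cn := .pnn) (n1 := ndB0q0) (n2 := ndB0q1) (pc := pcB1) (cut := cut_mm_011_t) (xt := Ext.none) (P1 := 0) (W1 := 536870912) (P2 := 536870912) (W2 := 536870912) (P3 := 697932185) (W3 := 42949674) (N0 := 3) (En := eng) (mo := mog) (C1 := cd0q0) (C2 := cd0q1) (C3 := pd1)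
    rfl k0_mm_011_t

noncomputable def cut_mm_012_s : Cut := Cut.of [[⟨4, 0, 0, 1449551462⟩]]

noncomputable def f_mm_012_s : ℕ → ℕ → ℕ → ℕ → Bool := onCell 0 536870912 536870912 536870912 697932185 42949674
    (rowNE 3 eng mog cd0q0 cd0q1 pd2 0 true false false .pnp 0 1 2 (qsf 0 536870912 536870912 536870912 2) ndB0q0 ndB0q1 pcB2 cut_mm_012_s Ext.none)

def k0_mm_012_s : ∃ t, chk3 f_mm_012_s t 1 1 1 = true :=
  ⟨(l 6), by decide +kernel⟩

theorem c_mm_012_s : CertNE 0 536870912 536870912 536870912 697932185 42949674 3 eng mog cd0q0 cd0q1 pd2 true false false .pnp 0 1 2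
    ndB0q0 ndB0q1 pcB2 cut_mm_012_s Ext.none :=
  certNE0 (fam := true) (s1 := false) (s2 := false) (a := 0) (b := 1) (c := 2) (cn := .pnp) (n1 := ndB0q0) (n2 := ndB0q1) (pc := pcB2) (cut := cut_mm_012_s) (xt := Ext.none) (P1 := 0) (W1 := 536870912) (P2 := 536870912) (W2 := 536870912) (P3 := 697932185) (W3 := 42949674) (N0 := 3) (En := eng) (mo := mog) (C1 := cd0q0) (C2 := cd0q1) (C3 := pd2)
    rfl k0_mm_012_s

noncomputable def cut_mm_012_t : Cut := Cut.of [[⟨3, 0, 0, 2845415833⟩]]

noncomputable def f_mm_012_t : ℕ → ℕ → ℕ → ℕ → Bool := onCell 0 536870912 536870912 536870912 697932185 42949674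
    (rowNE 3 eng mog cd0q0 cd0q1 pd2 0 true false false .pnp 0 1 2 (qsf 0 536870912 536870912 536870912 2) ndB0q0 ndB0q1 pcB2 cut_mm_012_t Ext.none)

def k0_mm_012_t : ∃ t, chk3 f_mm_012_t t 1 1 1 = true :=
  ⟨(b (l 4) (l 5)), by decide +kernel⟩

theorem c_mm_012_t : CertNE 0 536870912 536870912 536870912 697932185 42949674 3 eng mog cd0q0 cd0q1 pd2 true false false .pnp 0 1 2
    ndB0q0 ndB0q1 pcB2 cut_mm_012_t Ext.none :=
  certNE0 (fam := true) (s1 := false) (s2 := false) (a := 0) (b := 1) (c := 2) (cn := .pnp) (n1 := ndB0q0) (n2 := ndB0q1) (pc := pcB2) (cut := cut_mm_012_t) (xt := Ext.none) (P1 := 0) (W1 := 536870912) (P2 := 536870912) (W2 := 536870912) (P3 := 697932185) (W3 := 42949674) (N0 := 3) (En := eng) (mo := mog) (C1 := cd0q0) (C2 := cd0q1) (C3 := pd2)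
    rfl k0_mm_012_t

noncomputable def cut_mm_022_s : Cut := Cut.of [[⟨4, 0, 0, 1449551462⟩]]

noncomputable def f_mm_022_s : ℕ → ℕ → ℕ → ℕ → Bool := onCell 0 536870912 0 536870912 697932185 42949674
    (rowNE 3 eng mog cd0q0 cd0q2 pd2 0 true false false .pp 0 2 2 (qsf 0 536870912 0 536870912 2) ndB0q0 ndB0q2 pcB2 cut_mm_022_s Ext.none)

def k0_mm_022_s : ∃ t, chk3 f_mm_022_s t 1 1 1 = true :=
  ⟨(l 5), by decide +kernel⟩

theorem c_mm_022_s : CertNE 0 536870912 0 536870912 697932185 42949674 3 eng mog cd0q0 cd0q2 pd2 true false false .pp 0 2 2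
    ndB0q0 ndB0q2 pcB2 cut_mm_022_s Ext.none :=
  certNE0 (fam := true) (s1 := false) (s2 := false) (a := 0) (b := 2) (c := 2) (cn := .pp) (n1 := ndB0q0) (n2 := ndB0q2) (pc := pcB2) (cut := cut_mm_022_s) (xt := Ext.none) (P1 := 0) (W1 := 536870912) (P2 := 0) (W2 := 536870912) (P3 := 697932185) (W3 := 42949674) (N0 := 3) (En := eng) (mo := mog) (C1 := cd0q0) (C2 := cd0q2) (C3 := pd2)
    rfl k0_mm_022_s

noncomputable def cut_mm_022_t : Cut := Cut.of [[⟨3, 0, 0, 2845415833⟩]]

noncomputable def f_mm_022_t : ℕ → ℕ → ℕ → ℕ → Bool := onCell 0 536870912 0 536870912 697932185 42949674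
    (rowNE 3 eng mog cd0q0 cd0q2 pd2 0 true false false .pp 0 2 2 (qsf 0 536870912 0 536870912 2) ndB0q0 ndB0q2 pcB2 cut_mm_022_t Ext.none)

def k0_mm_022_t : ∃ t, chk3 f_mm_022_t t 1 1 1 = true :=
  ⟨(l 5), by decide +kernel⟩

theorem c_mm_022_t : CertNE 0 536870912 0 536870912 697932185 42949674 3 eng mog cd0q0 cd0q2 pd2 true false false .pp 0 2 2
    ndB0q0 ndB0q2 pcB2 cut_mm_022_t Ext.none :=
  certNE0 (fam := true) (s1 := false) (s2 := false) (a := 0) (b := 2) (c := 2) (cn := .pp) (n1 := ndB0q0) (n2 := ndB0q2) (pc := pcB2) (cut := cut_mm_022_t) (xt := Ext.none) (P1 := 0) (W1 := 536870912) (P2 := 0) (W2 := 536870912) (P3 := 697932185) (W3 := 42949674) (N0 := 3) (En := eng) (mo := mog) (C1 := cd0q0) (C2 := cd0q2) (C3 := pd2)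
    rfl k0_mm_022_t

noncomputable def cut_mm_023_s : Cut := Cut.of [[⟨4, 0, 0, 1449551462⟩]]

noncomputable def f_mm_023_s : ℕ → ℕ → ℕ → ℕ → Bool := onCell 0 536870912 0 536870912 697932185 42949674
    (rowNE 3 eng mog cd0q0 cd0q2 pd3 0 true false false .up 0 2 3 (qsf 0 536870912 0 536870912 3) ndB0q0 ndB0q2 pcB3 cut_mm_023_s Ext.none)

def k0_mm_023_s : ∃ t, chk3 f_mm_023_s t 1 1 1 = true :=
  ⟨(l 5), by decide +kernel⟩

theorem c_mm_023_s : CertNE 0 536870912 0 536870912 697932185 42949674 3 eng mog cd0q0 cd0q2 pd3 true false false .up 0 2 3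
    ndB0q0 ndB0q2 pcB3 cut_mm_023_s Ext.none :=
  certNE0 (fam := true) (s1 := false) (s2 := false) (a := 0) (b := 2) (c := 3) (cn := .up) (n1 := ndB0q0) (n2 := ndB0q2) (pc := pcB3) (cut := cut_mm_023_s) (xt := Ext.none) (P1 := 0) (W1 := 536870912) (P2 := 0) (W2 := 536870912) (P3 := 697932185) (W3 := 42949674) (N0 := 3) (En := eng) (mo := mog) (C1 := cd0q0) (C2 := cd0q2) (C3 := pd3)
    rfl k0_mm_023_s

noncomputable def cut_mm_023_t : Cut := Cut.of [[⟨3, 0, 0, 2845415833⟩]]

noncomputable def f_mm_023_t : ℕ → ℕ → ℕ → ℕ → Bool := onCell 0 536870912 0 536870912 697932185 42949674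
    (rowNE 3 eng mog cd0q0 cd0q2 pd3 0 true false false .up 0 2 3 (qsf 0 536870912 0 536870912 3) ndB0q0 ndB0q2 pcB3 cut_mm_023_t Ext.none)

def k0_mm_023_t : ∃ t, chk3 f_mm_023_t t 1 1 1 = true :=
  ⟨(l 5), by decide +kernel⟩

theorem c_mm_023_t : CertNE 0 536870912 0 536870912 697932185 42949674 3 eng mog cd0q0 cd0q2 pd3 true false false .up 0 2 3
    ndB0q0 ndB0q2 pcB3 cut_mm_023_t Ext.none :=
  certNE0 (fam := true) (s1 := false) (s2 := false) (a := 0) (b := 2) (c := 3) (cn := .up) (n1 := ndB0q0) (n2 := ndB0q2) (pc := pcB3) (cut := cut_mm_023_t) (xt := Ext.none) (P1 := 0) (W1 := 536870912) (P2 := 0) (W2 := 536870912) (P3 := 697932185) (W3 := 42949674) (N0 := 3) (En := eng) (mo := mog) (C1 := cd0q0) (C2 := cd0q2) (C3 := pd3)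
    rfl k0_mm_023_t

noncomputable def cut_mm_101_s : Cut := Cut.of [[⟨4, 0, 0, 1449551462⟩], [⟨0, 1, 0, 67108864⟩, ⟨1, 0, 0, 67108864⟩, ⟨2, 1, 0, 67108864⟩]]

noncomputable def f_mm_101_s : ℕ → ℕ → ℕ → ℕ → Bool := onCell 536870912 536870912 0 536870912 697932185 42949674
    (rowNE 3 eng mog cd0q1 cd0q0 pd1 0 true false false .npn 1 0 1 (qsf 536870912 536870912 0 536870912 1) ndB0q1 ndB0q0 pcB1 cut_mm_101_s Ext.none)

def k0_mm_101_s : ∃ t, chk3 f_mm_101_s t 1 1 1 = true :=
  ⟨(l 6), by decide +kernel⟩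

theorem c_mm_101_s : CertNE 536870912 536870912 0 536870912 697932185 42949674 3 eng mog cd0q1 cd0q0 pd1 true false false .npn 1 0 1
    ndB0q1 ndB0q0 pcB1 cut_mm_101_s Ext.none :=
  certNE0 (fam := true) (s1 := false) (s2 := false) (a := 1) (b := 0) (c := 1) (cn := .npn) (n1 := ndB0q1) (n2 := ndB0q0) (pc := pcB1) (cut := cut_mm_101_s) (xt := Ext.none) (P1 := 536870912) (W1 := 536870912) (P2 := 0) (W2 := 536870912) (P3 := 697932185) (W3 := 42949674) (N0 := 3) (En := eng) (mo := mog) (C1 := cd0q1) (C2 := cd0q0) (C3 := pd1)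
    rfl k0_mm_101_s

noncomputable def cut_mm_101_t : Cut := Cut.of [[⟨3, 0, 0, 2845415833⟩], [⟨0, 1, 0, 67108864⟩, ⟨1, 0, 0, 67108864⟩, ⟨2, 1, 0, 67108864⟩]]

noncomputable def f_mm_101_t : ℕ → ℕ → ℕ → ℕ → Bool := onCell 536870912 536870912 0 536870912 697932185 42949674
    (rowNE 3 eng mog cd0q1 cd0q0 pd1 0 true false false .npn 1 0 1 (qsf 536870912 536870912 0 536870912 1) ndB0q1 ndB0q0 pcB1 cut_mm_101_t Ext.none)

def k0_mm_101_t : ∃ t, chk3 f_mm_101_t t 1 1 1 = true :=
  ⟨(a (l 4) (b (a (l 4) (b (a (l 4) (b (a (l 4) (b (l 14) (l 4))) (l 4))) (l 4))) (l 4))), by decide +kernel⟩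

theorem c_mm_101_t : CertNE 536870912 536870912 0 536870912 697932185 42949674 3 eng mog cd0q1 cd0q0 pd1 true false false .npn 1 0 1
    ndB0q1 ndB0q0 pcB1 cut_mm_101_t Ext.none :=
  certNE0 (fam := true) (s1 := false) (s2 := false) (a := 1) (b := 0) (c := 1) (cn := .npn) (n1 := ndB0q1) (n2 := ndB0q0) (pc := pcB1) (cut := cut_mm_101_t) (xt := Ext.none) (P1 := 536870912) (W1 := 536870912) (P2 := 0) (W2 := 536870912) (P3 := 697932185) (W3 := 42949674) (N0 := 3) (En := eng) (mo := mog) (C1 := cd0q1) (C2 := cd0q0) (C3 := pd1)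
    rfl k0_mm_101_t

noncomputable def cut_mm_102_s : Cut := Cut.of [[⟨4, 0, 0, 1449551462⟩], [⟨0, 1, 0, 67108864⟩, ⟨1, 0, 0, 67108864⟩, ⟨2, 1, 0, 67108864⟩]]

noncomputable def f_mm_102_s : ℕ → ℕ → ℕ → ℕ → Bool := onCell 536870912 536870912 0 536870912 697932185 42949674
    (rowNE 3 eng mog cd0q1 cd0q0 pd2 0 true false false .npp 1 0 2 (qsf 536870912 536870912 0 536870912 2) ndB0q1 ndB0q0 pcB2 cut_mm_102_s Ext.none)

def k0_mm_102_s : ∃ t, chk3 f_mm_102_s t 1 1 1 = true :=
  ⟨(l 6), by decide +kernel⟩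

theorem c_mm_102_s : CertNE 536870912 536870912 0 536870912 697932185 42949674 3 eng mog cd0q1 cd0q0 pd2 true false false .npp 1 0 2
    ndB0q1 ndB0q0 pcB2 cut_mm_102_s Ext.none :=
  certNE0 (fam := true) (s1 := false) (s2 := false) (a := 1) (b := 0) (c := 2) (cn := .npp) (n1 := ndB0q1) (n2 := ndB0q0) (pc := pcB2) (cut := cut_mm_102_s) (xt := Ext.none) (P1 := 536870912) (W1 := 536870912) (P2 := 0) (W2 := 536870912) (P3 := 697932185) (W3 := 42949674) (N0 := 3) (En := eng) (mo := mog) (C1 := cd0q1) (C2 := cd0q0) (C3 := pd2)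
    rfl k0_mm_102_s

noncomputable def cut_mm_102_t : Cut := Cut.of [[⟨3, 0, 0, 2845415833⟩], [⟨0, 1, 0, 67108864⟩, ⟨1, 0, 0, 67108864⟩, ⟨2, 1, 0, 67108864⟩]]

noncomputable def f_mm_102_t : ℕ → ℕ → ℕ → ℕ → Bool := onCell 536870912 536870912 0 536870912 697932185 42949674
    (rowNE 3 eng mog cd0q1 cd0q0 pd2 0 true false false .npp 1 0 2 (qsf 536870912 536870912 0 536870912 2) ndB0q1 ndB0q0 pcB2 cut_mm_102_t Ext.none)

def k0_mm_102_t : ∃ t, chk3 f_mm_102_t t 1 1 1 = true :=
  ⟨(a (l 4) (b (a (l 4) (b (a (l 4) (b (a (l 4) (b (l 14) (l 4))) (l 4))) (l 4))) (l 4))), by decide +kernel⟩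

theorem c_mm_102_t : CertNE 536870912 536870912 0 536870912 697932185 42949674 3 eng mog cd0q1 cd0q0 pd2 true false false .npp 1 0 2
    ndB0q1 ndB0q0 pcB2 cut_mm_102_t Ext.none :=
  certNE0 (fam := true) (s1 := false) (s2 := false) (a := 1) (b := 0) (c := 2) (cn := .npp) (n1 := ndB0q1) (n2 := ndB0q0) (pc := pcB2) (cut := cut_mm_102_t) (xt := Ext.none) (P1 := 536870912) (W1 := 536870912) (P2 := 0) (W2 := 536870912) (P3 := 697932185) (W3 := 42949674) (N0 := 3) (En := eng) (mo := mog) (C1 := cd0q1) (C2 := cd0q0) (C3 := pd2)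
    rfl k0_mm_102_t

noncomputable def cut_mm_112_s : Cut := Cut.of [[⟨4, 0, 0, 1449551462⟩]]

noncomputable def f_mm_112_s : ℕ → ℕ → ℕ → ℕ → Bool := onCell 536870912 536870912 536870912 536870912 697932185 42949674
    (rowNE 3 eng mog cd0q1 cd0q1 pd2 0 true false false .dn 1 1 2 (qsf 536870912 536870912 536870912 536870912 2) ndB0q1 ndB0q1 pcB2 cut_mm_112_s Ext.none)

def k0_mm_112_s : ∃ t, chk3 f_mm_112_s t 1 1 1 = true :=
  ⟨(l 4), by decide +kernel⟩

theorem c_mm_112_s : CertNE 536870912 536870912 536870912 536870912 697932185 42949674 3 eng mog cd0q1 cd0q1 pd2 true false false .dn 1 1 2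
    ndB0q1 ndB0q1 pcB2 cut_mm_112_s Ext.none :=
  certNE0 (fam := true) (s1 := false) (s2 := false) (a := 1) (b := 1) (c := 2) (cn := .dn) (n1 := ndB0q1) (n2 := ndB0q1) (pc := pcB2) (cut := cut_mm_112_s) (xt := Ext.none) (P1 := 536870912) (W1 := 536870912) (P2 := 536870912) (W2 := 536870912) (P3 := 697932185) (W3 := 42949674) (N0 := 3) (En := eng) (mo := mog) (C1 := cd0q1) (C2 := cd0q1) (C3 := pd2)
    rfl k0_mm_112_s

noncomputable def cut_mm_112_t : Cut := Cut.of [[⟨3, 0, 0, 2845415833⟩]]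

noncomputable def f_mm_112_t : ℕ → ℕ → ℕ → ℕ → Bool := onCell 536870912 536870912 536870912 536870912 697932185 42949674
    (rowNE 3 eng mog cd0q1 cd0q1 pd2 0 true false false .dn 1 1 2 (qsf 536870912 536870912 536870912 536870912 2) ndB0q1 ndB0q1 pcB2 cut_mm_112_t Ext.none)

def k0_mm_112_t : ∃ t, chk3 f_mm_112_t t 1 1 1 = true :=
  ⟨(l 4), by decide +kernel⟩

theorem c_mm_112_t : CertNE 536870912 536870912 536870912 536870912 697932185 42949674 3 eng mog cd0q1 cd0q1 pd2 true false false .dn 1 1 2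
    ndB0q1 ndB0q1 pcB2 cut_mm_112_t Ext.none :=
  certNE0 (fam := true) (s1 := false) (s2 := false) (a := 1) (b := 1) (c := 2) (cn := .dn) (n1 := ndB0q1) (n2 := ndB0q1) (pc := pcB2) (cut := cut_mm_112_t) (xt := Ext.none) (P1 := 536870912) (W1 := 536870912) (P2 := 536870912) (W2 := 536870912) (P3 := 697932185) (W3 := 42949674) (N0 := 3) (En := eng) (mo := mog) (C1 := cd0q1) (C2 := cd0q1) (C3 := pd2)
    rfl k0_mm_112_t

noncomputable def cut_mm_113_s : Cut := Cut.of [[⟨4, 0, 0, 1449551462⟩]]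

noncomputable def f_mm_113_s : ℕ → ℕ → ℕ → ℕ → Bool := onCell 536870912 536870912 536870912 536870912 697932185 42949674
    (rowNE 3 eng mog cd0q1 cd0q1 pd3 0 true false false .nn 1 1 3 (qsf 536870912 536870912 536870912 536870912 3) ndB0q1 ndB0q1 pcB3 cut_mm_113_s Ext.none)

def k0_mm_113_s : ∃ t, chk3 f_mm_113_s t 1 1 1 = true :=
  ⟨(l 4), by decide +kernel⟩

theorem c_mm_113_s : CertNE 536870912 536870912 536870912 536870912 697932185 42949674 3 eng mog cd0q1 cd0q1 pd3 true false false .nn 1 1 3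
    ndB0q1 ndB0q1 pcB3 cut_mm_113_s Ext.none :=
  certNE0 (fam := true) (s1 := false) (s2 := false) (a := 1) (b := 1) (c := 3) (cn := .nn) (n1 := ndB0q1) (n2 := ndB0q1) (pc := pcB3) (cut := cut_mm_113_s) (xt := Ext.none) (P1 := 536870912) (W1 := 536870912) (P2 := 536870912) (W2 := 536870912) (P3 := 697932185) (W3 := 42949674) (N0 := 3) (En := eng) (mo := mog) (C1 := cd0q1) (C2 := cd0q1) (C3 := pd3)
    rfl k0_mm_113_s

noncomputable def cut_mm_113_t : Cut := Cut.of [[⟨3, 0, 0, 2845415833⟩]]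

noncomputable def f_mm_113_t : ℕ → ℕ → ℕ → ℕ → Bool := onCell 536870912 536870912 536870912 536870912 697932185 42949674
    (rowNE 3 eng mog cd0q1 cd0q1 pd3 0 true false false .nn 1 1 3 (qsf 536870912 536870912 536870912 536870912 3) ndB0q1 ndB0q1 pcB3 cut_mm_113_t Ext.none)

def k0_mm_113_t : ∃ t, chk3 f_mm_113_t t 1 1 1 = true :=
  ⟨(l 4), by decide +kernel⟩

theorem c_mm_113_t : CertNE 536870912 536870912 536870912 536870912 697932185 42949674 3 eng mog cd0q1 cd0q1 pd3 true false false .nn 1 1 3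
    ndB0q1 ndB0q1 pcB3 cut_mm_113_t Ext.none :=
  certNE0 (fam := true) (s1 := false) (s2 := false) (a := 1) (b := 1) (c := 3) (cn := .nn) (n1 := ndB0q1) (n2 := ndB0q1) (pc := pcB3) (cut := cut_mm_113_t) (xt := Ext.none) (P1 := 536870912) (W1 := 536870912) (P2 := 536870912) (W2 := 536870912) (P3 := 697932185) (W3 := 42949674) (N0 := 3) (En := eng) (mo := mog) (C1 := cd0q1) (C2 := cd0q1) (C3 := pd3)
    rfl k0_mm_113_t

noncomputable def cut_mm_123_s : Cut := Cut.of [[⟨4, 0, 0, 1449551462⟩]]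

noncomputable def f_mm_123_s : ℕ → ℕ → ℕ → ℕ → Bool := onCell 536870912 536870912 0 536870912 697932185 42949674
    (rowNE 3 eng mog cd0q1 cd0q2 pd3 0 true false false .npn 1 2 3 (qsf 536870912 536870912 0 536870912 3) ndB0q1 ndB0q2 pcB3 cut_mm_123_s Ext.none)

def k0_mm_123_s : ∃ t, chk3 f_mm_123_s t 1 1 1 = true :=
  ⟨(l 6), by decide +kernel⟩

theorem c_mm_123_s : CertNE 536870912 536870912 0 536870912 697932185 42949674 3 eng mog cd0q1 cd0q2 pd3 true false false .npn 1 2 3
    ndB0q1 ndB0q2 pcB3 cut_mm_123_s Ext.none :=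
  certNE0 (fam := true) (s1 := false) (s2 := false) (a := 1) (b := 2) (c := 3) (cn := .npn) (n1 := ndB0q1) (n2 := ndB0q2) (pc := pcB3) (cut := cut_mm_123_s) (xt := Ext.none) (P1 := 536870912) (W1 := 536870912) (P2 := 0) (W2 := 536870912) (P3 := 697932185) (W3 := 42949674) (N0 := 3) (En := eng) (mo := mog) (C1 := cd0q1) (C2 := cd0q2) (C3 := pd3)
    rfl k0_mm_123_s

noncomputable def cut_mm_123_t : Cut := Cut.of [[⟨3, 0, 0, 2845415833⟩]]

noncomputable def f_mm_123_t : ℕ → ℕ → ℕ → ℕ → Bool := onCell 536870912 536870912 0 536870912 697932185 42949674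
    (rowNE 3 eng mog cd0q1 cd0q2 pd3 0 true false false .npn 1 2 3 (qsf 536870912 536870912 0 536870912 3) ndB0q1 ndB0q2 pcB3 cut_mm_123_t Ext.none)

def k0_mm_123_t : ∃ t, chk3 f_mm_123_t t 1 1 1 = true :=
  ⟨(a (l 5) (l 4)), by decide +kernel⟩

theorem c_mm_123_t : CertNE 536870912 536870912 0 536870912 697932185 42949674 3 eng mog cd0q1 cd0q2 pd3 true false false .npn 1 2 3
    ndB0q1 ndB0q2 pcB3 cut_mm_123_t Ext.none :=
  certNE0 (fam := true) (s1 := false) (s2 := false) (a := 1) (b := 2) (c := 3) (cn := .npn) (n1 := ndB0q1) (n2 := ndB0q2) (pc := pcB3) (cut := cut_mm_123_t) (xt := Ext.none) (P1 := 536870912) (W1 := 536870912) (P2 := 0) (W2 := 536870912) (P3 := 697932185) (W3 := 42949674) (N0 := 3) (En := eng) (mo := mog) (C1 := cd0q1) (C2 := cd0q2) (C3 := pd3)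
    rfl k0_mm_123_t

noncomputable def cut_mm_202_s : Cut := Cut.of [[⟨4, 0, 0, 1449551462⟩], [⟨0, 1, 0, 53687091⟩, ⟨1, 0, 0, 53687091⟩, ⟨2, 1, 0, 53687091⟩]]

noncomputable def f_mm_202_s : ℕ → ℕ → ℕ → ℕ → Bool := onCell 0 536870912 0 536870912 697932185 42949674
    (rowNE 3 eng mog cd0q2 cd0q0 pd2 0 true false false .pp 2 0 2 (qsf 0 536870912 0 536870912 2) ndB0q2 ndB0q0 pcB2 cut_mm_202_s Ext.none)

def k0_mm_202_s : ∃ t, chk3 f_mm_202_s t 1 1 1 = true :=
  ⟨(l 6), by decide +kernel⟩

theorem c_mm_202_s : CertNE 0 536870912 0 536870912 697932185 42949674 3 eng mog cd0q2 cd0q0 pd2 true false false .pp 2 0 2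
    ndB0q2 ndB0q0 pcB2 cut_mm_202_s Ext.none :=
  certNE0 (fam := true) (s1 := false) (s2 := false) (a := 2) (b := 0) (c := 2) (cn := .pp) (n1 := ndB0q2) (n2 := ndB0q0) (pc := pcB2) (cut := cut_mm_202_s) (xt := Ext.none) (P1 := 0) (W1 := 536870912) (P2 := 0) (W2 := 536870912) (P3 := 697932185) (W3 := 42949674) (N0 := 3) (En := eng) (mo := mog) (C1 := cd0q2) (C2 := cd0q0) (C3 := pd2)
    rfl k0_mm_202_s

noncomputable def cut_mm_202_t : Cut := Cut.of [[⟨3, 0, 0, 2845415833⟩], [⟨0, 1, 0, 53687091⟩, ⟨1, 0, 0, 53687091⟩, ⟨2, 1, 0, 53687091⟩]]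

noncomputable def f_mm_202_t : ℕ → ℕ → ℕ → ℕ → Bool := onCell 0 536870912 0 536870912 697932185 42949674
    (rowNE 3 eng mog cd0q2 cd0q0 pd2 0 true false false .pp 2 0 2 (qsf 0 536870912 0 536870912 2) ndB0q2 ndB0q0 pcB2 cut_mm_202_t Ext.none)

def k0_mm_202_t : ∃ t, chk3 f_mm_202_t t 2 2 1 = true :=
  ⟨(b (a (l 6) (b (l 6) (a (l 6) (a (l 6) (b (b (l 6) (a (l 6) (l 16570712))) (b (c (a (l 16572688) (l 16584352)) (l 16578320)) (l 16612376))))))) (a (b (l 6) (b (l 6) (a (l 6) (a (l 6) (l 16675864))))) (b (a (a (l 6) (b (l 6) (l 16591928))) (b (b (a (l 16583152) (l 16625320)) (a (l 16593680) (l 16638304))) (a (b (l 16605352) (l 16618456)) (b (l 16660928) (b (l 16639296) (l 16646272)))))) (a (b (b (a (l 16594848) (l 16613048)) (a (l 16609128) (l 16627512))) (a (b (l 16623288) (l 16637072)) (b (l 16641832) (l 16655808)))) (b (a (b (a (l 16627512) (l 16638072)) (l 16689176)) (a (b (l 16650208) (l 16685728)) (b (l 16664008) (a (l 16696040) (l 16713952))))) (a (b (l 16692944) (a (l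 16670248) (l 16680704))) (a (b (l 16700024) (l 16714040)) (b (l 16719544) (c (l 16728544) (l 16728392)))))))))), by decide +kernel⟩

def k1_mm_202_t : ∃ t, chk3 f_mm_202_t t 6 8 1 = true :=
  ⟨(a (b (a (l 6) (a (l 6) (b (b (l 6) (l 16572880)) (b (l 16581336) (l 16586576))))) (b (a (l 6) (a (b (l 16575256) (l 16579080)) (b (l 16590312) (l 16594368)))) (a (a (l 6) (b (l 16568104) (a (l 16600560) (l 16607720)))) (a (b (l 16583216) (l 16608616)) (b (a (l 16594744) (l 16602696)) (l 16624344)))))) (b (a (b (a (b (l 16594928) (l 16583168)) (b (b (l 16581696) (l 16586592)) (a (l 16590992) (l 16596336)))) (a (b (l 16591888) (l 16600176)) (b (l 16602696) (l 16611288)))) (b (a (b (c (l 16617264) (l 16614152)) (a (l 16601784) (l 16607464))) (b (b (a (l 16600824) (l 16607208)) (l 16630208)) (b (l 16635304) (l 16619288)))) (a (b (a (l 16611040) (l 16616888)) (a (l 16619872) (l 16625880))) (b (c (l 16648736) (l 16646144)) (c (l 16647304) (l 16655520)))))) (b (a (a (b (l 16606368) (l 16610664))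 (b (l 16619544) (l 16627520))) (a (b (l 16631456) (l 16639768)) (a (b (l 16641096) (l 16649632)) (b (l 16648072) (l 16656744))))) (b (a (a (l 16615256) (l 16633000)) (a (l 16647880) (l 16664200))) (a (a (l 16620112) (l 16638072)) (a (l 16655840) (l 16675088))))))), by decide +kernel⟩

def k2_mm_202_t : ∃ t, chk3 f_mm_202_t t 6 9 1 = true :=
  ⟨(a (b (a (a (b (b (l 6) (l 16573064)) (l 16604376)) (b (b (l 16579288) (l 16586432)) (l 16623208))) (b (a (b (a (l 16610480) (b (l 16595104) (l 16598232))) (l 16600192)) (b (a (b (l 16602936) (l 16605616)) (l 16612336)) (a (l 16610824) (b (l 16637512) (l 16620080))))) (a (b (l 16607376) (l 16614488)) (c (l 16646848) (l 16646136))))) (a (b (c (a (l 16597336) (l 16611160)) (l 16603552)) (a (l 16610544) (l 16624688))) (b (a (a (l 16642440) (l 16649664)) (b (l 16636264) (l 16664408))) (a (l 16660144) (a (l 16650304) (b (l 16654440) (l 16661640))))))) (b (a (b (a (b (a (l 16620824) (l 16629624)) (b (a (l 16624800) (l 16633656)) (a (l 16627952)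 (l 16657464)))) (b (l 16643384) (l 16656800))) (a (b (a (l 16633432) (l 16660016)) (l 16655360)) (a (b (b (c (l 16669896) (l 16627448)) (l 16652096)) (l 16657664)) (b (c (l 16665064) (l 16659520)) (l 16666624))))) (b (a (b (l 16662544) (l 16668296)) (b (l 16688512) (l 16691336))) (a (a (b (l 16669320) (b (l 16674136) (l 16677776))) (b (l 16679224) (b (l 16683920) (l 16687320)))) (b (l 16697840) (a (b (l 16693784) (l 16697040)) (l 16705160)))))) (a (a (a (b (b (l 16648024) (l 16655264)) (b (l 16662512) (l 16669760))) (b (b (l 16656352) (l 16663640)) (l 16685064))) (b (a (b (l 16665032) (l 16672368)) (b (l 16674040) (l 16660448))) (b (l 16684224) (l 16702080)))) (b (a (b (l 16688136) (l 16700816)) (b (b (a (l 16700528) (l 16710160)) (a (l 16704256) (l 16724216))) (a (l 16709880) (l 16719360)))) (a (b (a (l 16698200) (l 16707792)) (a (l 16705616) (l 16715240))) (b (c (l 16732544) (l 16722256)) (a (l 16724824) (l 16744848)))))))), by decide +kernel⟩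

def k3_mm_202_t : ∃ t, chk3 f_mm_202_t t 14 16 1 = true :=
  ⟨(a (a (b (b (b (a (l 16614064) (l 16621400)) (a (l 16619400) (l 16626792))) (b (a (l 16624592) (l 16632040)) (a (l 16629656) (l 16637160)))) (b (b (l 16652776) (l 16653688)) (b (l 16658424) (l 16663064)))) (b (b (b (a (l 16629208) (l 16637496)) (a (l 16634648) (l 16642976))) (a (b (l 16639952) (l 16645120)) (b (l 16648312) (l 16653528)))) (b (a (b (l 16650168) (l 16655096)) (b (l 16658616) (l 16663600))) (a (b (l 16659920) (l 16664648)) (b (l 16668472) (l 16673248)))))) (a (b (b (b (a (l 16656688) (c (l 16656808) (l 16653800))) (a (l 16651712) (c (l 16662256) (l 16659424)))) (a (b (l 16657088) (l 16662336)) (b (l 16676736) (l 16671528)))) (b (a (b (l 16667464) (l 16672488)) (b (l 16676696) (l 16681752))) (a (b (l 16677408) (l 16682224)) (b (l 16686712) (l 16691568))))) (b (b (b (a (c (l 16666248) (l 16663416)) (l 14)) (a (c (l 16671712) (l 16669056)) (a (l 16677816) (l 14)))) (a (b (c (l 16677056) (l 16674568)) (c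 (l 16682280) (l 16679960))) (b (c (l 16697432) (l 16684664)) (c (l 16692192) (l 16690072))))) (b (a (b (c (l 16687392) (l 16685232)) (l 16701896)) (b (c (l 16697336) (l 16695360)) (c (l 16702368) (l 16700552)))) (a (b (l 16706880) (l 16711784)) (b (c (l 16707312) (l 16705640)) (c (l 16712176) (l 16710640)))))))), by decide +kernel⟩

def k4_mm_202_t : ∃ t, chk3 f_mm_202_t t 14 17 1 = true :=
  ⟨(a (a (b (b (a (l 16655472) (l 16673792)) (b (l 16676504) (l 16680864))) (b (a (l 16672840) (l 16691352)) (a (l 16691768) (l 16699896)))) (a (b (b (l 16682048) (l 16691016)) (b (l 16699784) (b (l 16695776) (l 16700064)))) (b (b (b (l 16677928) (l 16682528)) (b (l 16687056) (l 16691520))) (b (b (l 16695936) (l 16700320)) (b (l 16704664) (l 16708992)))))) (a (b (b (a (b (l 16686960) (l 16691608)) (c (l 16710024) (l 16708344))) (a (b (l 16696176) (l 16700680)) (c (l 16716504) (l 16717696)))) (b (a (b (l 16705128) (l 16709544)) (b (l 16714688) (l 16719136))) (a (a (l 16724232) (l 16728960))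 (b (l 16734032) (l 16733176))))) (b (b (a (b (l 16716592) (l 16721328)) (b (c (l 16716952) (l 16715552)) (b (l 16730328) (l 16732688)))) (a (b (l 16725984) (l 16727960)) (b (b (l 16735040) (l 16737368)) (c (l 16741352) (l 16729840))))) (a (b (b (c (l 16725160) (l 16724064)) (c (l 16729584) (l 16728600))) (a (b (l 16730992) (l 16735392)) (c (l 16743928) (l 16743136)))) (b (a (b (l 16732304) (l 16736808)) (b (l 16748040) (l 16747320))) (a (b (l 16751752) (l 16750944)) (b (c (l 16746872) (l 16746224)) (c (l 16751264) (l 16750720))))))))), by decide +kernel⟩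

def k5_mm_202_t : ∃ t, chk3 f_mm_202_t t 15 16 1 = true :=
  ⟨(a (b (b (l 14) (a (a (a (b (c (l 16694632) (l 16692512)) (c (l 16699896) (l 16697928))) (b (l 14) (c (l 16705168) (l 16703320)))) (l 14)) (l 14))) (b (a (a (a (b (l 16709384) (l 16719760)) (b (c (l 16710328) (l 16708632)) (c (l 16715392) (l 16713840)))) (b (a (c (l 16715720) (l 16714144)) (c (l 16726464) (l 16719776))) (a (c (l 16720792) (l 16719360)) (c (l 16726296) (l 16724992))))) (a (b (l 14) (b (a (c (l 16730672) (l 16729464)) (l 14)) (a (c (l 16733192) (l 16732048)) (c (l 16738960) (l 16737960))))) (l 14))) (a (a (a (b (l 16714304) (l 16719256)) (b (c (l 16720360) (l 16718960)) (c (l 16725256) (l 16723984)))) (b (a (c (l 16725768) (l 16724480)) (c (l 16731288) (l 16730120))) (a (c (l 16730672) (l 16729520)) (c (l 16741440) (l 16735168))))) (a (b (a (c (b (l 16735688) (l 16738160)) (b (l 16734616) (l 16737160))) (c (b (l 16741456) (l 16743928)) (b (l 16740528) (l 16743072)))) (a (c (b (l 16740616) (l 16743056))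 (b (l 16739688) (l 16742192))) (c (b (l 16746392) (l 16748832)) (b (l 16745600) (l 16748104))))) (b (a (c (b (l 16749968) (c (l 16750008) (l 16749648))) (b (l 16746568) (l 16751736))) (l 14)) (a (c (b (c (l 16752448) (l 16752128)) (c (l 16754872) (l 16754584))) (b (l 16754264) (l 16756768))) (c (b (a (l 16756784) (l 16762448)) (a (l 16759224) (l 16763576))) (b (a (l 16756256) (l 16759368)) (a (l 16758760) (l 16761880)))))))))) (b (l 14) (a (b (l 14) (a (a (b (l 14) (b (l 14) (b (a (c (l 16764728) (l 16764400)) (l 14)) (a (c (l 16765944) (l 16765648)) (c (c (l 16769096) (l 16768984)) (l 16770136)))))) (l 14)) (l 14))) (l 14)))), by decide +kernel⟩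

def k6_mm_202_t : ∃ t, chk3 f_mm_202_t t 60 34 1 = true :=
  ⟨(a (a (b (b (l 16724120) (l 16734160)) (b (l 16738880) (l 16743536))) (b (b (c (l 16730064) (l 16728928)) (c (l 16734808) (l 16733800))) (b (c (l 16739480) (l 16738600)) (c (l 16744096) (l 16743336))))) (b (a (b (c (l 16735496) (l 16734472)) (c (l 16740248) (l 16739352))) (b (c (l 16743648) (l 16740128)) (c (b (l 16744608) (l 16746968)) (l 16750264)))) (a (b (c (l 16750176) (l 16744168)) (c (l 16754808) (l 16748912))) (b (c (b (l 16749320) (l 16751656)) (l 16753776)) (c (c (l 16757888) (l 16760248)) (b (l 16753424) (l 16755784))))))), by decide +kernel⟩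

def k7_mm_202_t : ∃ t, chk3 f_mm_202_t t 61 68 1 = true :=
  ⟨(b (c (a (a (b (l 16745472) (l 16747880)) (b (l 16753872) (l 16756280))) (a (b (c (l 16759904) (l 16757024)) (c (l 16762296) (l 16762072))) (a (b (l 16764272) (l 16765368)) (b (c (l 16764776) (l 16764608)) (c (l 16768472) (l 16767032)))))) (a (a (b (l 16744680) (l 16747144)) (b (l 16750592) (l 16753064))) (a (b (a (l 16755112) (l 16758168)) (c (l 16761840) (l 16761616))) (a (b (l 16761248) (l 16763720)) (b (l 16765680) (c (l 16766904) (l 16766776))))))) (b (c (a (a (l 16750264) (l 16758672)) (a (a (l 16760464) (l 16766064)) (a (c (l 16766520) (l 16766384)) (a (l 16770040) (a (l 16769872) (l 16771952)))))) (a (a (l 16749592) (l 16758136)) (a (c (l 16762968) (l 16764088)) (a (l 16767488) (a (l 16768512) (l 16771392)))))) (a (a (c (l 16752632) (l 16752024)) (c (c (l 16758536) (l 16758304)) (l 16760576))) (a (a (c (l 16762840) (l 16762472)) (c (l 16767128) (l 16765528))) (a (c (c (l 16769864) (l 16770088)) (c (l 16769984)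 (l 16771184))) (a (c (c (l 16772456) (l 16772384)) (l 16771936)) (c (b (l 16772040) (l 16774536)) (b (l 16771912) (l 16774440))))))))), by decide +kernel⟩

def k8_mm_202_t : ∃ t, chk3 f_mm_202_t t 61 138 1 = true :=
  ⟨(a (a (c (b (l 16760232) (l 16759952)) (b (l 16754440) (l 16756848))) (c (b (c (l 16763504) (l 16760680)) (c (l 16765176) (l 16765664))) (b (a (l 16758872) (l 16761872)) (c (l 16765488) (l 16765312))))) (a (c (a (b (l 16767824) (c (l 16767608) (l 16767488))) (b (c (l 16769552) (l 16770744)) (b (l 16771256) (l 16771936)))) (a (b (l 16764896) (l 16769928)) (b (l 16769104) (a (l 16769592) (l 16772440))))) (b (a (a (b (l 16771064) (l 16772256)) (c (c (l 16773296) (l 16773232)) (c (l 16773160) (l 16773096)))) (c (a (b (l 16774192) (c (l 16775392) (l 16775352))) (b (a (l 16774024) (l 16776104)) (l 16775920))) (a (b (l 16772776) (l 16775296)) (c (l 16774960) (l 16774928))))) (a (b (c (a (l 16772200) (l 16775024)) (a (l 16772072) (l 16774936))) (b (a (l 16774344) (a (l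 16774176) (l 16774944))) (a (l 16774936) (a (l 16774768) (a (l 16775344) (l 16775728)))))) (a (a (c (c (l 16775456) (l 16775432)) (l 16775400)) (a (c (c (l 16776512) (l 16776008)) (l 16776472)) (b (l 16775792) (b (l 16776680) (a (l 16777808) (l 63585650135)))))) (b (b (c (c (l 16777128) (l 16777112)) (l 16777104)) (a (l 16777320) (a (a (l 16777792) (l 74323067927)) (l 141431932103)))) (a (b (a (l 16777704) (a (l 77007422503) (l 96871646903))) (l 182234121047)) (l 4)))))))), by decide +kernel⟩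

def k9_mm_202_t : ∃ t, chk3 f_mm_202_t t 61 139 1 = true :=
  ⟨(a (c (a (b (l 16762280) (c (l 16764680) (l 16761880))) (a (b (l 16763992) (l 16768928)) (b (l 16768232) (c (l 16771912) (l 16771816))))) (a (b (l 16761848) (l 16764224)) (a (b (l 16763664) (l 16766040)) (b (l 16766664) (l 16770360))))) (a (a (a (b (b (l 16768448) (l 16769624)) (b (l 16770800) (l 16773280))) (b (c (l 16771936) (l 16773080)) (a (c (l 16773880) (l 16775080)) (b (l 16772680) (l 16775168))))) (b (a (b (l 16772776) (a (l 16772264) (l 16773024))) (a (b (l 16772600) (l 16775096)) (b (l 16774672) (b (l 16774248) (l 16774840))))) (b (a (c (l 16775168) (l 16776400)) (a (b (l 16774664) (l 16773944)) (l 16775720))) (b (c (l 16776056) (l 16775440)) (a (a (l 16774904) (l 16774352)) (a (l 16776424) (a (l 16776984) (l 74323068199)))))))) (a (b (a (c (c (l 16775792) (l 16775112)) (l 16775568)) (b (c (c (l 16776720) (l 16776048)) (l 16776024)) (a (b (l 16776544) (a (l 16776936) (l 64659391703))) (b (a (l 16777752)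 (l 103314097399)) (l 4))))) (b (b (c (a (c (l 16777232) (l 16777872)) (c (l 172570444983) (l 174181057703))) (a (l 16777864) (l 175791670407))) (a (a (l 16777424) (a (l 68954359047) (l 4))) (l 4))) (b (a (a (a (l 16777800) (l 116198999287)) (l 4)) (l 4)) (l 4)))) (a (b (b (b (a (c (l 16777544) (l 16776880)) (c (l 154853704279) (l 115662128679))) (a (a (a (l 16777832) (l 67880617431)) (l 158611801175)) (l 4))) (l 4)) (l 4)) (l 4))))), by decide +kernel⟩

def k10_mm_202_t : ∃ t, chk3 f_mm_202_t t 60 35 1 = true :=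
  ⟨(b (a (a (b (c (l 16743272) (l 16742512)) (c (l 16747760) (l 16747112))) (b (c (l 16748656) (l 16748008)) (c (l 16758408) (l 16757872)))) (a (b (c (b (l 16753000) (l 16755272)) (l 16758848)) (a (c (l 16757280) (l 16756824)) (c (l 16762672) (l 16759656)))) (b (a (c (l 16760936) (l 16757872)) (b (l 16762408) (l 16764720))) (b (c (a (l 16761720) (l 16764544)) (l 16765424)) (a (l 16766448) (c (l 16766808) (l 16766560))))))) (b (b (a (a (l 16750816) (l 16758912)) (a (c (l 16764648) (l 16766928)) (c (a (l 16766224) (l 16771680)) (a (l 16765976) (l 16771488))))) (a (a (l 16758296) (c (l 16758736) (l 16758328))) (a (a (l 16762712) (l 16767488)) (b (a (l 16770416) (c (l 16770736) (l 16770592))) (a (l 16771552) (a (l 16771072) (l 16775136))))))) (b (a (a (l 16760528) (c (l 16766192) (l 16760592))) (a (a (l 16767576) (c (l 16770496) (l 16767664))) (b (a (l 16771368) (a (l 16774824) (a (l 16773280) (l 16774008)))) (a (c (l 16773864) (l 16771112)) (l 16774872))))) (a (a (l 16762744) (c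 (l 16765776) (l 16768088))) (a (c (a (l 16767296) (l 16772056)) (a (l 16767080) (l 16772552))) (a (a (c (b (l 16771648) (l 16772752)) (l 16769464)) (l 16774232)) (b (c (l 16775200) (l 16775152)) (a (l 16775576) (a (l 16776648) (c (l 66270005271) (l 16778240))))))))))), by decide +kernel⟩

def k11_mm_202_t : ∃ t, chk3 f_mm_202_t t 122 70 1 = true :=
  ⟨(b (b (a (c (a (l 16762832) (l 16765712)) (a (l 16762488) (l 16765432))) (a (c (c (l 16771288) (l 16768560)) (l 16771024)) (a (c (l 16772120) (l 16770656)) (b (l 16772952) (a (l 16772432) (l 16773184)))))) (c (a (a (l 16765120) (l 16770624)) (a (a (l 16770176) (l 16772952)) (a (b (l 16772536) (l 16774992)) (l 16775240)))) (a (a (l 16764832) (l 16770400)) (a (a (l 16770008) (l 16774128)) (a (b (l 16772424) (l 16773592)) (l 16774520)))))) (b (a (a (c (l 16770016) (l 16767168)) (c (c (l 16772944) (l 16772864)) (c (l 16772776) (l 16772696)))) (a (a (b (l 16774448) (a (l 16772608) (l 16773344))) (b (c (l 16773352) (l 16773256)) (c (c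 (l 16775816) (l 16774472)) (l 16771800)))) (a (c (a (l 16775024) (l 16775760)) (l 16775344)) (a (b (l 16775912) (a (l 16777848) (b (l 16776960) (l 115125257447)))) (c (b (l 16777968) (l 151632478999)) (b (l 16776640) (l 153243091703))))))) (a (a (c (c (l 16772328) (l 16772240)) (l 16772104)) (b (a (l 16771184) (l 16773960)) (a (l 16774952) (a (l 16773432) (l 16775480))))) (a (a (c (l 16774728) (l 16774672)) (b (l 16775936) (a (l 16776384) (b (l 16776832) (l 74323068551))))) (a (a (c (b (l 16778024) (l 156464317287)) (b (l 16776704) (l 158611800919))) (b (b (l 41573942743) (a (l 121567708423) (l 4))) (l 4))) (l 4)))))), by decide +kernel⟩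

def k12_mm_202_t : ∃ t, chk3 f_mm_202_t t 122 71 1 = true :=
  ⟨(a (b (b (a (a (c (l 16773824) (l 16771056)) (b (l 16774632) (a (l 16772784) (l 16773512)))) (b (a (c (l 16773520) (l 16773432)) (l 16774944)) (c (l 16776024) (l 16775328)))) (a (c (a (b (l 16772880) (l 16774000)) (l 16774880)) (l 16774088)) (a (b (l 16775752) (a (l 16776512) (b (l 16776952) (l 95261034151)))) (a (b (a (l 16776664) (l 16777992)) (l 167738606599)) (b (b (l 58216941175) (l 4)) (l 4)))))) (b (b (a (a (l 16775096) (c (l 16777856) (l 16777832))) (a (a (b (l 66806875879) (l 4)) (l 4)) (l 4))) (a (a (c (l 16776232) (l 16776208)) (a (c (l 57143199831) (l 16778184)) (l 179549766759))) (l 4))) (a (a (b (a (a (l 16776792) (l 16778104)) (c (l 101703485671) (l 101703485655))) (l 187065960103)) (l 4)) (l 4)))) (b (b (a (a (b (c (l 16777400) (l 16777704)) (a (b (l 16776888) (l 82913003239)) (c (l 161833026503) (l 163980510119)))) (a (b (b (l 50163877399) (l 108682808183)) (l 4)) (l 4))) (l 4)) (l 4)) (l 4))),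 by decide +kernel⟩

def k13_mm_202_t : ∃ t, chk3 f_mm_202_t t 123 35 1 = true :=
  ⟨(b (a (b (a (b (c (c (c (l 16775192) (l 16775176)) (l 16775152)) (c (l 16775120) (l 16774432))) (b (a (c (l 16775488) (l 16775448)) (b (c (l 16777664) (l 16777976)) (a (l 16777536) (c (l 112977774103) (l 114051515895))))) (b (a (l 16776992) (a (a (l 16777880) (l 151632479383)) (l 4))) (a (a (l 16776544) (a (l 16777088) (l 102240355543))) (l 4))))) (a (a (b (b (l 16775784) (b (l 16776656) (a (l 16777040) (l 86671099175)))) (c (b (l 182234121399) (l 4)) (l 187065960343))) (b (b (b (l 16776248) (l 16777480)) (b (a (l 16777832) (l 129620772071)) (l 4))) (l 4))) (b (b (b (a (c (l 16777648) (l 16776984)) (l 172570444519)) (c (c (l 158611801079) (l 159685542887)) (l 160759284695))) (l 4)) (l 4)))) (b (b (a (a (a (b (l 15267267959) (l 123178321495)) (l 187065959671)) (l 4)) (l 4)) (l 4)) (l 4))) (l 4)) (l 4)), by decide +kernel⟩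

def k14_mm_202_t : ∃ t, chk3 f_mm_202_t t 248 136 1 = true :=
  ⟨(b (b (a (c (l 16768464) (l 16766896)) (c (c (l 16771608) (l 16771520)) (a (l 16769272) (l 16770872)))) (a (c (l 16769672) (l 16768136)) (a (a (l 16770208) (l 16772304)) (c (l 16773552) (l 16772112))))) (b (a (c (c (l 16769616) (l 16769520)) (l 16770680)) (c (a (l 16771888) (c (l 16774776) (l 16774728))) (a (l 16771752) (l 16774656)))) (a (c (c (l 16772120) (l 16772040)) (c (l 16771952) (l 16771872))) (a (c (l 16773576) (l 16774288)) (a (c (l 16774912) (l 16774176)) (b (l 16775360) (a (l 16775112) (l 16776160)))))))), by decide +kernel⟩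

def k15_mm_202_t : ∃ t, chk3 f_mm_202_t t 248 137 1 = true :=
  ⟨(b (c (a (a (b (l 16771192) (l 16773696)) (b (l 16774048) (c (l 16775264) (l 16775216)))) (a (a (b (l 16773896) (c (l 16776416) (l 16776384))) (b (l 16775328) (l 16775864))) (b (c (l 16776176) (l 16775832)) (a (a (l 16776448) (c (b (l 16775232) (l 16777768)) (l 16777640))) (b (a (l 16776920) (a (l 42110813079) (l 96334775191))) (c (l 159148671655) (l 160222413479))))))) (a (a (c (l 16773000) (l 16772928)) (b (l 16772624) (l 16775152))) (a (b (c (l 16775536) (l 16775504)) (l 16775432)) (b (l 16776136) (a (b (l 16776320) (l 16777568)) (b (a (l 16776912) (l 59827553479)) (l 161296155287))))))) (b (b (a (a (l 16773888) (a (l 16774400) (l 16775840))) (a (c (c (l 16776944) (l 16777016)) (l 16777000)) (a (a (b (l 16777496) (l 91502937575)) (l 4)) (l 4)))) (a (a (c (l 16773872) (l 16773784)) (a (l 16775656) (c (a (l 16775608) (l 16775992)) (l 16775768)))) (a (a (l 16776728) (a (b (l 16777000) (l 65733133191)) (c (l 113514644631)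 (l 114588386439)))) (l 4)))) (a (a (a (c (l 16775688) (l 16774304)) (b (l 16776128) (a (l 16775224) (l 16775616)))) (a (c (l 16775920) (l 16775888)) (b (l 16776384) (a (l 16776784) (b (l 16777024) (l 71101842359)))))) (a (a (b (a (c (l 16776968) (l 16776960)) (b (l 16777512) (l 101166614023))) (c (l 164517380839) (l 172033573575))) (l 4)) (l 4))))), by decide +kernel⟩

def k16_mm_202_t : ∃ t, chk3 f_mm_202_t t 249 68 1 = true :=
  ⟨(b (a (a (b (b (l 14) (c (a (l 16773408) (l 16774848)) (c (l 16775048) (l 16775000)))) (b (b (c (c (l 16776032) (l 16776000)) (l 16775952)) (a (l 16775544) (c (l 16776352) (l 16775656)))) (b (c (a (l 16776168) (a (l 16776104) (l 16775840))) (l 16775872)) (c (b (l 16776680) (a (l 16775608) (a (l 16776848) (l 16777536)))) (a (l 16774776) (l 16777528)))))) (a (b (b (l 14) (b (l 14) (a (l 16775056) (l 16776112)))) (b (c (c (l 16776192) (l 16776176)) (l 16776152)) (a (b (c (l 16776880) (l 16776872)) (a (b (l 16777536) (l 4)) (l 176865411559))) (b (b (l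 16777608) (l 107072193367)) (l 4))))) (b (l 14) (b (b (c (l 16776992) (l 16776648)) (a (a (l 16777296) (b (l 16777016) (l 80765518519))) (b (a (l 16777520) (l 130157642327)) (l 4)))) (b (c (l 181160379255) (l 184918475607)) (l 4)))))) (b (l 14) (b (b (b (l 14) (b (l 14) (b (l 14) (l 4)))) (l 4)) (l 4)))) (a (a (b (b (b (a (c (l 16777040) (l 16776696)) (a (b (l 16777624) (l 111904031607)) (l 184381604471))) (a (a (b (l 16776960) (l 54995714887)) (c (c (l 104387839079) (l 104924709975)) (l 103314097319))) (l 4))) (l 4)) (l 4)) (l 4)) (l 4))), by decide +kernel⟩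

def k17_mm_202_t : ∃ t, chk3 f_mm_202_t t 124 69 1 = true :=
  ⟨(a (b (a (a (b (b (c (c (l 16776608) (l 16775936)) (l 16775912)) (a (b (l 16776432) (c (c (l 16777832) (l 16777664)) (l 16777656))) (b (a (l 16777664) (c (l 83449873511) (l 83449873511))) (c (l 175791670039) (l 177939153671))))) (a (a (b (b (a (l 71638713351) (l 129083900887)) (l 4)) (l 4)) (l 4)) (l 4))) (b (b (b (a (c (l 16777456) (l 16776784)) (a (b (l 16777528) (l 106535323095)) (l 4))) (a (a (c (l 39426458663) (l 16777168)) (a (l 116198999047) (l 4))) (l 4))) (l 4)) (l 4))) (l 4)) (l 4)) (l 4)), by decide +kernel⟩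

def k18_mm_202_t : ∃ t, chk3 f_mm_202_t t 125 34 1 = true :=
  ⟨(l 4), by decide +kernel⟩

def k19_mm_202_t : ∃ t, chk3 f_mm_202_t t 62 35 1 = true :=
  ⟨(l 4), by decide +kernel⟩

def k20_mm_202_t : ∃ t, chk3 f_mm_202_t t 63 17 1 = true :=
  ⟨(l 4), by decide +kernel⟩

def k21_mm_202_t : ∃ t, chk3 f_mm_202_t t 28 18 1 = true :=
  ⟨(b (a (b (b (a (l 16687552) (l 16695760)) (l 16695832)) (b (l 16699984) (l 16704088))) (a (a (b (l 16704272) (l 16723168)) (b (l 16708672) (l 16722360))) (b (c (l 16726424) (l 16725424)) (b (l 16732328) (l 16731296))))) (a (b (a (l 16705976) (l 16714400)) (b (l 16726688) (l 16725416))) (b (a (l 16723176) (c (l 16732600) (a (l 16729648) (l 16734312)))) (a (l 16736552) (c (l 16740728) (l 16740272)))))), by decide +kernel⟩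

def k22_mm_202_t : ∃ t, chk3 f_mm_202_t t 29 36 1 = true :=
  ⟨(b (b (a (a (l 16722624) (c (l 16732712) (l 16731880))) (a (a (l 16739784) (l 16750144)) (a (l 16754040) (c (l 16760880) (l 16760432))))) (a (a (l 16737432) (a (l 16734176) (l 16739120))) (a (a (l 16744152) (l 16754520)) (a (c (l 16759968) (l 16754272)) (b (l 16763968) (l 16763536)))))) (b (a (a (l 16736472) (c (l 16746512) (l 16751120))) (a (a (l 16753728) (c (l 16753840) (l 16753392))) (b (a (l 16763008) (c (l 16768472) (l 16762952))) (a (l 16762552) (a (l 16763920) (l 16771848)))))) (a (a (a (l 16733072) (l 16737864)) (a (l 16742744) (l 16752960))) (a (a (c (l 16752984) (l 16752552)) (c (l 16760720) (l 16762984))) (a (a (b (l 16760768) (l 16762912)) (b (l 16763408) (l 16765560))) (c (l 16770552) (l 16768416))))))), by decide +kernel⟩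

def k23_mm_202_t : ∃ t, chk3 f_mm_202_t t 29 37 1 = true :=
  ⟨(a (b (c (a (l 16742024) (c (l 16757112) (l 16756912))) (b (b (l 16748480) (l 16750608)) (a (a (l 16741168) (l 16746016)) (a (l 16750952) (l 16755976))))) (b (a (l 16747976) (c (l 16763208) (l 16757664))) (a (l 16757320) (c (l 16764672) (l 16761832))))) (a (b (b (a (c (l 16762440) (l 16767328)) (b (l 16763744) (a (l 16761936) (l 16764544)))) (b (c (l 16768136) (l 16762640)) (c (l 16767592) (l 16764760)))) (b (a (c (l 16765504) (l 16765312)) (c (l 16773272) (l 16770536))) (b (a (l 16768528) (c (l 16773744) (l 16773688))) (a (l 16770584) (a (l 16774472) (a (l 16779032) (a (l 67880619639) (l 116735872711)))))))) (b (a (b (c (l 16770144) (l 16767344)) (c (b (l 16770672) (l 16772760)) (l 16772928))) (b (c (b (l 16771768) (a (l 16772544) (l 16775208))) (b (l 16771664) (l 16775120))) (b (a (l 16774616) (c (a (l 16779232) (l 136600093671)) (a (l 16779216) (l 95261036679)))) (b (a (l 16778808) (l 179549767959)) (a (a (l 16776568)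 (l 109756550311)) (l 4)))))) (a (b (a (c (c (l 16777184) (l 16777168)) (l 16776472)) (b (c (c (l 16778760) (l 16778744)) (l 16778728)) (a (a (l 54995716807) (l 101166616327)) (l 186529089831)))) (a (b (c (a (l 16778912) (l 154316834295)) (a (l 16779552) (l 156464317879))) (l 4)) (l 4))) (b (a (b (c (a (l 145190028519) (l 4)) (l 157538060391)) (l 4)) (l 4)) (l 4)))))), by decide +kernel⟩

def k24_mm_202_t : ∃ t, chk3 f_mm_202_t t 28 19 1 = true :=
  ⟨(b (a (b (a (b (l 16719808) (c (l 16723184) (l 16723456))) (l 16730376)) (a (b (c (l 16726832) (l 16727072)) (l 16730696)) (a (b (l 16744488) (l 16737712)) (b (l 16738456) (l 16752752))))) (a (b (c (l 16739488) (l 16739128)) (b (l 16745248) (a (a (l 16756184) (l 16758488)) (l 16751464)))) (b (c (l 16753976) (l 16748416)) (c (b (l 16754672) (l 16758600)) (l 16761688))))) (a (b (a (l 16741584) (c (l 16745624) (l 16745408))) (a (c (l 16743768) (l 16743608)) (c (l 16758328) (l 16752904)))) (b (b (b (a (a (l 16749688) (l 16764856)) (c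 (l 16766776) (l 16766640))) (a (l 16753920) (a (c (l 16766328) (l 16766192)) (l 16771056)))) (a (l 16760688) (a (l 16763896) (b (a (l 16766552) (c (l 16774240) (l 16774168))) (l 16769696))))) (a (c (b (l 16760616) (l 16769680)) (a (l 16760000) (l 16770040))) (a (b (l 16770368) (c (l 16771640) (l 16771584))) (b (c (l 16775240) (l 16772584)) (a (c (b (l 16774312) (l 16778856)) (l 16777872)) (b (b (l 16776248) (l 69491231095)) (c (l 165054253063) (l 166127994807)))))))))), by decide +kernel⟩

def k25_mm_202_t : ∃ t, chk3 f_mm_202_t t 29 38 1 = true :=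
  ⟨(a (a (b (c (a (l 16755856) (l 16765952)) (b (l 16756008) (l 16760072))) (b (c (l 16766888) (l 16764112)) (a (l 16770960) (c (l 16770664) (l 16770584))))) (b (b (c (c (l 16768776) (l 16771320)) (l 16768576)) (a (l 16770240) (c (l 16773960) (l 16772592)))) (b (a (c (l 16771640) (l 16771576)) (a (b (l 16774384) (c (l 16778992) (l 16778968))) (a (b (l 16776272) (l 158611801543)) (b (a (l 60901297527) (l 107609067079)) (l 4))))) (a (a (c (l 16774368) (l 16774336)) (b (l 16778472) (a (l 63048780327) (l 169886090983)))) (a (b (c (l 147874383415) (l 149484996087)) (l 4)) (l 4)))))) (a (b (a (b (b (l 16773952) (a (l 16773400) (a (l 16775336) (l 16779224)))) (a (b (l 16778056) (a (l 16341011799) (a (l 99019132503) (l 179012896407)))) (b (c (a (l 67880619527) (l 174717929463)) (l 133915737719)) (l 4)))) (b (a (b (c (c (l 16779040) (l 16779112)) (l 9361690535)) (c (a (l 100629745431) (l 4)) (l 152706221815))) (b (c (l 174181059223) (l 172570446407)) (l 4))) (l 4))) (a (b (a (b (l 187602832487)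 (l 4)) (l 4)) (l 4)) (l 4))) (l 4))), by decide +kernel⟩

def k26_mm_202_t : ∃ t, chk3 f_mm_202_t t 29 39 1 = true :=
  ⟨(a (b (a (a (b (c (l 16769704) (l 16769632)) (b (a (l 16776640) (l 16773840)) (b (a (l 16778104) (l 16775312)) (a (l 16773832) (a (l 16775672) (l 19025368679)))))) (a (b (l 16774664) (a (b (l 16775688) (b (l 16777128) (l 134989485319))) (b (l 16778856) (l 4)))) (b (b (l 16774840) (a (l 16776184) (l 76470553255))) (b (c (l 165054253207) (l 167201736775)) (l 4))))) (a (a (b (b (a (l 16779304) (l 105461584343)) (l 185455348599)) (l 4)) (l 4)) (l 4))) (a (a (b (b (a (l 16775296) (a (l 62511910343) (l 167201736247))) (a (a (l 16779240) (l 105461583207)) (l 4))) (a (b (l 182770993863) (l 4)) (l 4))) (l 4)) (l 4))) (l 4)), by decide +kernel⟩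

def k27_mm_202_t : ∃ t, chk3 f_mm_202_t t 120 36 1 = true :=
  ⟨(b (a (b (b (l 16762336) (c (l 16767328) (l 16761768))) (a (c (l 16766624) (l 16768976)) (b (l 16770744) (c (l 16767792) (l 16767600))))) (b (b (a (l 16763832) (l 16769232)) (a (l 16768672) (a (l 16768128) (l 16772144)))) (b (a (c (l 16768352) (l 16768160)) (a (l 16772960) (b (l 16771184) (l 16772288)))) (c (l 16773872) (l 16771792))))) (a (b (c (c (l 16772344) (l 16769648)) (l 16772152)) (b (c (l 16774208) (l 16772816)) (a (l 16773640) (a (l 16777000) (b (l 16776520) (a (l 16778480) (l 141968804103))))))) (b (a (b (l 16773952) (c (l 16774848) (l 16774800))) (b (c (c (l 16776760) (l 16776736)) (l 16776712)) (a (b (l 16776360) (c (l 68954360471) (l 67343747799))) (c (b (l 95261035271) (l 4)) (l 151632479623))))) (a (a (b (c (l 16777600) (l 16776264)) (c (l 155927447191) (l 158074930791))) (b (b (a (l 16776784) (l 78081165607)) (l 173107316055)) (l 4))) (l 4))))), by decide +kernel⟩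

def k28_mm_202_t : ∃ t, chk3 f_mm_202_t t 121 36 1 = true :=
  ⟨(b (a (a (b (b (c (l 16772120) (l 16771952)) (b (l 16772392) (a (l 16771480) (l 16772896)))) (b (c (l 16773880) (l 16773808)) (a (l 16776000) (b (l 16776200) (c (l 56069457927) (l 55532587639)))))) (b (c (c (c (l 16774736) (l 16773408)) (l 16774032)) (a (l 16772592) (l 16774688))) (a (b (c (l 16777280) (l 16775944)) (b (a (l 53921974439) (l 143042545959)) (l 4))) (b (c (b (l 16778120) (l 147337511879)) (b (l 16778104) (l 108145937319))) (l 4))))) (b (a (b (b (l 16775192) (a (l 16774936) (l 16777344))) (b (a (l 16776048) (a (a (l 16776928) (l 58216941495)) (l 117272742311))) (a (a (l 16776784) (a (l 63585650599) (l 112440903751))) (l 4)))) (b (a (c (b (l 16777984) (c (l 138747577079) (l 96334777143))) (b (l 16777968) (l 95261035463))) (b (b (l 153243091783) (l 4)) (l 4))) (l 4))) (a (a (b (b (l 175254799751) (l 4)) (l 4)) (l 4)) (l 4)))) (a (b (a (b (a (b (a (l 16776632) (l 61975038151)) (l 156464317575)) (b (l 184918476359)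 (l 4))) (l 4)) (l 4)) (l 4)) (l 4))), by decide +kernel⟩

def k29_mm_202_t : ∃ t, chk3 f_mm_202_t t 60 37 1 = true :=
  ⟨(a (b (a (b (a (b (c (c (l 16778408) (l 16778392)) (l 16778368)) (a (b (l 16776680) (l 94187293767)) (a (l 159685543303) (l 4)))) (a (b (b (l 56606329655) (l 183844734519)) (l 4)) (l 4))) (l 4)) (l 4)) (l 4)) (l 4)), by decide +kernel⟩

def k30_mm_202_t : ∃ t, chk3 f_mm_202_t t 61 18 1 = true :=
  ⟨(l 4), by decide +kernel⟩

def k31_mm_202_t : ∃ t, chk3 f_mm_202_t t 30 19 1 = true :=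
  ⟨(l 4), by decide +kernel⟩

def k32_mm_202_t : ∃ t, chk3 f_mm_202_t t 31 9 1 = true :=
  ⟨(l 4), by decide +kernel⟩

def k33_mm_202_t : ∃ t, chk3 f_mm_202_t t 12 10 1 = true :=
  ⟨(b (a (b (c (l 16651984) (l 16652152)) (a (l 16637576) (l 16652368))) (a (b (l 16674248) (l 16688432)) (b (b (l 16664952) (l 16672152)) (c (l 16693456) (l 16704136))))) (a (a (b (l 16650456) (l 16664072)) (b (l 16686584) (l 16700480))) (b (a (c (l 16702536) (l 16680976)) (b (l 16714992) (l 16711688))) (a (c (l 16706256) (l 16716016)) (b (a (l 16704120) (l 16712616)) (a (l 16711576) (l 16720112))))))), by decide +kernel⟩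

def k34_mm_202_t : ∃ t, chk3 f_mm_202_t t 13 20 1 = true :=
  ⟨(a (a (b (b (l 16681280) (l 16699088)) (b (l 16706440) (c (l 16703336) (l 16703464)))) (b (c (b (l 16699040) (l 16706424)) (b (l 16699008) (l 16706456))) (b (a (l 16709248) (l 16718504)) (c (l 16726584) (l 16721448))))) (b (b (a (a (l 16713064) (l 16722720)) (a (l 16742816) (c (l 16741800) (l 16741752)))) (a (c (l 16735832) (l 16735968)) (a (c (l 16739784) (l 16739832)) (c (l 16749312) (l 16749120))))) (a (b (a (l 16728056) (c (l 16737704) (l 16737880))) (a (l 16740864) (c (l 16745296) (l 16745272)))) (b (a (c (l 16747360) (l 16747200)) (c (c (l 16762088) (l 16756784)) (l 16761904))) (a (c (l 16759496) (l 16759992)) (c (b (l 16767784) (l 16770344)) (b (l 16762416) (l 16771560)))))))), by decide +kernel⟩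

def k35_mm_202_t : ∃ t, chk3 f_mm_202_t t 26 21 1 = true :=
  ⟨(b (a (b (c (l 16721272) (l 16710960)) (a (l 16714016) (l 16733304))) (b (a (l 16734768) (l 16738872)) (a (c (l 16731872) (l 16732016)) (c (l 16741264) (l 16741368))))) (a (a (b (l 16721376) (l 16739416)) (b (l 16735624) (c (l 16738120) (l 16737864)))) (b (a (c (l 16739608) (l 16739520)) (c (l 16754296) (l 16749000))) (a (c (l 16752656) (l 16747240)) (c (c (l 16762208) (l 16762176)) (l 16760768)))))), by decide +kernel⟩

def k36_mm_202_t : ∃ t, chk3 f_mm_202_t t 27 42 1 = true :=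
  ⟨(a (b (a (c (l 16743200) (l 16743312)) (c (l 16756904) (l 16752832))) (b (a (l 16754280) (c (l 16758744) (l 16758624))) (a (l 16755840) (c (l 16767880) (l 16762544))))) (a (b (a (c (l 16765408) (l 16760040)) (b (l 16763000) (l 16769528))) (b (a (l 16768592) (c (l 16770880) (l 16770824))) (b (a (l 16768928) (l 16775152)) (a (l 16770920) (a (l 16774608) (a (l 16779072) (a (l 87207972071) (l 129083903655)))))))) (b (a (b (l 16770464) (c (l 16771808) (l 16771752))) (b (c (l 16774048) (l 16772696)) (a (c (c (l 16779392) (l 16778072)) (l 16778056)) (b (c (c (l 26541559335) (l 16779504)) (l 16779488)) (c (l 176328542375) (l 177939155031)))))) (a (b (a (c (l 16774544) (l 16774512)) (b (l 16778936) (c (l 143579414055) (l 108145939367)))) (a (b (c (b (l 16779632) (l 120493969239)) (l 88281715399)) (l 4)) (l 4))) (b (a (b (c (l 159685543431) (l 160759285175)) (l 4)) (l 4)) (l 4)))))), by decide +kernel⟩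

def k37_mm_202_t : ∃ t, chk3 f_mm_202_t t 27 43 1 = true :=
  ⟨(a (a (b (c (b (l 16756792) (l 16765984)) (c (l 16763952) (l 16763888))) (b (c (l 16767336) (l 16764640)) (c (a (l 16766248) (l 16771192)) (l 16769984)))) (b (b (a (l 16769328) (c (l 16769024) (l 16768960))) (c (a (l 16768096) (l 16774336)) (a (l 16768032) (l 16772992)))) (a (c (b (l 16772104) (a (l 16777536) (b (l 16779000) (l 160222414247)))) (b (l 16772072) (a (l 16774896) (b (l 16776360) (l 161833026903))))) (b (a (c (c (b (l 16774808) (l 16779112)) (l 16779736)) (l 16779720)) (b (a (l 16779272) (l 114051517415)) (l 191897799239))) (b (c (l 184381607527) (l 185992220119)) (l 4)))))) (a (b (a (b (b (l 16772920) (c (l 16778048) (l 16774912))) (a (b (l 16778328) (c (a (l 16779704) (l 172033574295)) (l 97408521031))) (b (c (l 150558737495) (l 115662132407)) (l 4)))) (b (a (b (c (c (l 16779232) (l 16776600)) (l 16776592)) (c (l 166664865527) (l 168275478183))) (b (l 182234122567) (l 4))) (l 4))) (l 4)) (l 4))), by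 decide +kernel⟩

def k38_mm_202_t : ∃ t, chk3 f_mm_202_t t 12 11 1 = true :=
  ⟨(b (a (b (a (l 16699944) (b (l 16690832) (l 16698592))) (a (b (l 16690376) (l 16718832)) (b (l 16706312) (b (l 16712072) (l 16736856))))) (b (a (b (l 16706936) (l 16735776)) (b (b (l 16732168) (l 16736136)) (c (l 16742232) (l 16741896)))) (b (a (l 16733128) (c (l 16751408) (l 16749856))) (a (l 16746152) (a (l 16753520) (a (l 16749512) (l 16759184))))))) (a (b (a (c (l 16729944) (l 16729776)) (b (c (l 16742592) (l 16742352)) (l 16744768))) (a (b (l 16740824) (l 16742736)) (b (c (l 16757472) (l 16736336)) (c (l 16754280) (l 16754144))))) (b (a (b (a (c (l 16754968) (l 16733776)) (b (l 16740384) (l 16754720))) (a (l 16751992) (c (l 16760488) (l 16760360)))) (b (c (a (l 16750856) (l 16770056)) (b (l 16763656) (l 16767560))) (a (b (c (l 16767112) (l 16767032)) (l 16765672)) (b (c (l 16770624) (l 16765352)) (a (b (l 16771280) (l 16767960)) (c (b (l 16770520) (l 16772448)) (l 16774088))))))) (a (b (c (b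 (l 16761944) (l 16765680)) (c (l 16763736) (l 16763640))) (a (c (l 16766944) (l 16756360)) (c (c (l 16775512) (l 16775496)) (l 16772824)))) (b (a (b (l 16770792) (c (l 16778528) (l 16768000))) (b (a (l 16776072) (c (c (l 10435434087) (l 16780568)) (a (l 16774184) (l 16780376)))) (a (c (l 16779880) (l 16779872)) (a (b (l 38889591895) (l 169349220151)) (l 4))))) (a (b (a (l 16774848) (b (l 16773032) (l 16780152))) (a (c (l 16773344) (l 16773328)) (a (b (l 16775680) (l 93650425271)) (b (l 105461585655) (l 4))))) (a (b (a (b (l 16778976) (l 117809616871)) (b (l 131231389879) (l 4))) (l 4)) (l 4)))))))), by decide +kernel⟩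

def k39_mm_202_t : ∃ t, chk3 f_mm_202_t t 26 22 1 = true :=
  ⟨(b (a (b (c (a (l 16736920) (l 16756504)) (b (l 16739208) (l 16753728))) (c (a (l 16744888) (l 16759288)) (a (l 16744688) (l 16753912)))) (b (a (c (b (l 16753368) (l 16757408)) (l 16760480)) (b (c (l 16768208) (l 16762880)) (c (l 16770312) (l 16766968)))) (a (c (b (l 16761448) (l 16770728)) (b (l 16761352) (l 16765424))) (a (b (l 16771264) (c (l 16772720) (l 16772696))) (b (c (b (l 16772528) (l 16774568)) (l 16773528)) (a (b (l 16775368) (a (l 16779400) (l 123715195271))) (b (c (l 107072197303) (l 104924713927)) (l 4)))))))) (b (a (a (c (l 16763320) (l 16752704)) (c (c (l 16767296) (l 16767280)) (l 16766560))) (b (a (a (l 16772344) (c (l 16771920) (l 16771888))) (a (a (c (b (l 16774544) (l 16779184)) (l 16775536)) (b (c (l 27615301623) (l 16776944)) (l 181160380471))) (c (l 197803382055) (l 200487736391)))) (a (a (c (l 16771136) (l 16771112)) (a (c (l 16774736) (l 16774728)) (b (l 16778768) (c (l 120493970407) (l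 119957099591))))) (a (a (c (l 175791672055) (l 177402284663)) (l 4)) (l 4))))) (a (a (c (c (l 16771232) (l 16771224)) (l 16765920)) (a (c (l 16771600) (l 16767632)) (b (l 16772992) (c (a (l 16773176) (l 16779480)) (l 16779592))))) (a (a (a (b (l 16775256) (b (c (l 16778896) (l 16776912)) (l 177939154839))) (b (b (l 16775344) (a (l 16776736) (l 121030840583))) (b (l 194582153623) (l 4)))) (b (a (b (c (l 104924713527) (l 104387842711)) (l 4)) (l 4)) (l 4))) (l 4))))), by decide +kernel⟩

def k40_mm_202_t : ∃ t, chk3 f_mm_202_t t 27 22 1 = true :=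
  ⟨(b (a (a (b (a (a (b (l 16769048) (l 16773800)) (b (l 16771520) (c (b (l 16774608) (l 16779272)) (l 16780856)))) (a (b (c (l 16774024) (l 16774000)) (b (a (l 16776464) (l 107072195431)) (l 187065960743))) (b (b (l 16775480) (a (l 18488495495) (l 130157646439))) (l 4)))) (a (b (a (b (c (l 16776224) (l 16776208)) (c (l 155927446679) (l 122641454311))) (b (c (l 171496703751) (l 173107316391)) (l 4))) (l 4)) (l 4))) (b (a (b (a (b (c (l 145190028039) (l 109756552199)) (l 4)) (l 4)) (l 4)) (l 4)) (l 4))) (l 4)) (l 4)), by decide +kernel⟩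

def k41_mm_202_t : ∃ t, chk3 f_mm_202_t t 13 23 1 = true :=
  ⟨(a (a (b (b (a (b (c (l 16771888) (l 16766616)) (c (l 16773184) (l 16770552))) (a (b (c (l 16773608) (l 16773592)) (a (c (b (l 16775384) (l 87744843927)) (l 16779952)) (b (c (l 102777229847) (l 103314100679)) (l 4)))) (b (b (a (l 16778768) (l 162369897879)) (c (l 164517382455) (l 166127995063))) (l 4)))) (a (a (b (c (l 16772160) (l 16772152)) (a (c (a (l 16779568) (l 16780712)) (l 16780128)) (b (l 16778840) (c (l 110830296215) (l 114588392359))))) (b (a (c (l 16778240) (l 16775608)) (b (c (l 16779576) (l 16776944)) (l 170959832903))) (a (b (l 129620776471) (l 4)) (l 4)))) (a (b (b (l 191897800247) (l 4)) (l 4)) (l 4)))) (b (a (b (a (a (b (c (l 98482262919) (l 16780008)) (l 4)) (l 4)) (l 4)) (l 4)) (l 4)) (l 4))) (l 4)) (l 4)), by decide +kernel⟩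

def k42_mm_202_t : ∃ t, chk3 f_mm_202_t t 28 40 1 = true :=
  ⟨(a (b (a (c (l 16756464) (l 16751032)) (c (b (l 16758736) (l 16767768)) (c (l 16765776) (l 16765696)))) (a (c (c (l 16763992) (l 16763936)) (c (l 16763856) (l 16763768))) (c (b (l 16768968) (a (l 16767784) (l 16772608))) (b (l 16771488) (a (l 16767688) (l 16772560)))))) (a (b (b (a (l 16768440) (c (l 16770672) (l 16770608))) (b (a (l 16768704) (l 16774864)) (a (l 16770640) (a (l 16774280) (c (l 20099108487) (l 16779296)))))) (a (b (c (b (l 16772600) (l 16777160)) (l 16776152)) (b (a (l 16775264) (c (a (l 16779680) (l 168812348887)) (l 92576680087))) (a (c (c (l 74323068327) (l 73786200023)) (l 72712455959)) (l 4)))) (b (a (b (c (l 16778848) (l 16776208)) (c (l 148411253975) (l 149484995735))) (b (c (l 166127994823) (l 167738607479)) (l 4))) (l 4)))) (b (a (a (b (c (l 16774296) (l 16774272)) (b (c (c (l 73249328967) (l 72175587303)) (l 71101843143)) (c (l 184381606551) (l 186529090103)))) (b (b (l 16778368) (c (a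 (l 16779680) (l 167738607079)) (l 92039811655))) (l 4))) (b (a (b (c (l 147337512183) (l 148411253959)) (l 4)) (l 4)) (l 4))) (l 4)))), by decide +kernel⟩

def k43_mm_202_t : ∃ t, chk3 f_mm_202_t t 28 41 1 = true :=
  ⟨(a (a (a (b (c (l 16769200) (l 16769080)) (b (l 16772264) (c (b (l 16772688) (l 16777272)) (l 16776256)))) (b (b (l 16769408) (c (l 16770704) (l 16770640))) (b (b (l 16774928) (a (l 16774360) (a (l 16776192) (a (l 16778392) (l 108682808775))))) (a (b (c (l 16778944) (l 16776312)) (c (l 154316834135) (l 155390575895))) (b (c (l 170959833111) (l 173107316679)) (l 4)))))) (b (a (b (c (l 16771656) (l 16771600)) (a (c (l 16774336) (l 16774304)) (b (l 16778400) (b (l 75933682119) (l 161833026855))))) (b (a (c (b (l 16774312) (l 16778872)) (l 16777880)) (b (b (l 16776240) (l 74323069303)) (c (l 167738607559) (l 169886091127)))) (a (b (c (l 150558737655) (l 152169350327)) (l 4)) (l 4)))) (a (a (b (b (a (l 16779272) (l 110830291991)) (l 188139702919)) (l 4)) (l 4)) (l 4))))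 (a (b (a (b (a (b (l 185455348311) (l 4)) (l 4)) (l 4)) (l 4)) (l 4)) (l 4))), by decide +kernel⟩

def k44_mm_202_t : ∃ t, chk3 f_mm_202_t t 28 21 1 = true :=
  ⟨(a (b (a (b (a (b (b (a (l 16775392) (c (a (l 78618037271) (l 176865412711)) (l 101703488231))) (a (a (l 16778720) (l 119420226391)) (l 4))) (a (b (l 192434670327) (l 4)) (l 4))) (l 4)) (l 4)) (l 4)) (l 4)) (l 4)), by decide +kernel⟩

def k45_mm_202_t : ∃ t, chk3 f_mm_202_t t 29 10 1 = true :=
  ⟨(l 4), by decide +kernel⟩

def k46_mm_202_t : ∃ t, chk3 f_mm_202_t t 15 10 1 = true :=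
  ⟨(l 4), by decide +kernel⟩

def k47_mm_202_t : ∃ t, chk3 f_mm_202_t t 7 11 1 = true :=
  ⟨(l 4), by decide +kernel⟩

def k48_mm_202_t : ∃ t, chk3 f_mm_202_t t 4 6 1 = true :=
  ⟨(b (b (a (l 6) (b (l 16645720) (l 16658560))) (a (b (l 6) (l 16636336)) (b (l 16671920) (l 16706824)))) (b (a (b (l 16649680) (l 16661648)) (b (l 16720808) (l 16754408))) (b (a (l 16671776) (a (l 16693632) (l 16711256))) (l 2)))), by decide +kernel⟩

def k49_mm_202_t : ∃ t, chk3 f_mm_202_t t 5 12 1 = true :=
  ⟨(a (b (b (a (l 16650376) (l 16711304)) (a (l 16663736) (l 16703944))) (b (a (l 16677480) (l 16717904)) (a (l 16691744) (l 16753248)))) (b (a (a (b (l 16683904) (l 16718632)) (b (l 16715360) (l 16708216))) (b (a (b (l 16703368) (l 16710256)) (b (l 16738960) (l 16745944))) (a (b (l 16717248) (l 16724320)) (b (l 16753024) (l 16749696))))) (a (b (a (l 16732752) (b (l 16718848) (l 16746992))) (a (b (l 16722552) (l 16729856)) (c (l 16758496) (l 16746872)))) (b (a (c (l 16756376) (l 16755712)) (b (l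 16760200) (c (l 16774864) (l 16764080)))) (b (a (l 16766992) (a (l 16757040) (l 16772328))) (a (l 16763872) (a (l 16774944) (a (l 16773096) (b (l 16772792) (a (l 16775472) (l 85597364327))))))))))), by decide +kernel⟩

def k50_mm_202_t : ∃ t, chk3 f_mm_202_t t 5 13 1 = true :=
  ⟨(a (b (a (b (l 16706048) (l 16740008)) (b (a (l 16720640) (l 16751552)) (b (l 16756576) (l 16762728)))) (a (b (a (l 16725472) (l 16735264)) (l 16760848)) (b (b (l 16768480) (l 16773824)) (b (l 16778656) (l 2))))) (b (a (b (a (l 16761552) (b (l 16747808) (l 16754712))) (a (c (l 16775160) (l 16774104)) (b (l 16771752) (c (l 16767632) (l 16777760))))) (b (a (a (b (l 16757200) (l 16764128)) (b (l 16774680) (a (l 16769344) (l 16780872)))) (b (b (a (l 16769976) (a (a (l 16774992) (l 48553270823)) (l 158611798535))) (a (a (l 16771600) (l 16780792)) (a (l 145190025879) (l 4)))) (a (a (b (l 16775112) (l 93650430631)) (b (l 103850978279) (l 4))) (l 4)))) (a (a (b (l 16781208) (a (c (l 16780536) (l 36205243527))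 (b (l 58753820055) (l 158074926823)))) (b (a (b (l 16774344) (l 65733142391)) (b (l 85060495543) (l 4))) (l 4))) (l 4)))) (a (a (b (b (l 16762448) (l 16778280)) (b (a (l 16770200) (c (l 49627020039) (l 49627020439))) (a (l 88684378471) (a (l 89355468471) (l 4))))) (b (b (a (l 16770344) (a (l 16782896) (b (l 16776376) (l 103314106343)))) (a (b (l 16774392) (l 64122532967)) (a (l 124252059047) (l 4)))) (b (a (a (l 96871662167) (l 4)) (l 4)) (l 4)))) (b (a (b (a (a (l 146263765815) (l 4)) (l 4)) (l 4)) (l 4)) (l 4))))), by decide +kernel⟩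

def k51_mm_202_t : ∃ t, chk3 f_mm_202_t t 2 7 1 = true :=
  ⟨(a (l 2) (a (l 2) (a (l 2) (l 4)))), by decide +kernel⟩

def k52_mm_202_t : ∃ t, chk3 f_mm_202_t t 12 24 1 = true :=
  ⟨(a (b (a (b (l 16749808) (c (l 16762240) (l 16762048))) (b (c (l 16761496) (l 16761368)) (a (l 16764408) (a (l 16770792) (l 16771144))))) (a (a (b (l 16744224) (l 16761944)) (b (l 16763184) (l 16767856))) (b (a (c (l 16761272) (l 16761144)) (b (l 16773200) (c (l 16771672) (l 16771624)))) (a (b (l 16777208) (l 16773040)) (a (b (l 16773184) (a (l 16780400) (a (l 88281712167) (l 118883360183)))) (b (a (c (l 16776432) (l 16780344)) (b (l 96871650663) (l 4))) (l 188139700695))))))) (b (b (a (a (c (l 16774248) (l 16774176)) (a (c (l 16775456) (l 16770176)) (b (l 16772688) (a (l 16779216) (b (l 16776536) (l 123715196823)))))) (a (a (b (a (b (l 16775024) (l 16779480)) (b (l 46942655591) (l 139821324391))) (b (l 170422962103) (l 4))) (l 4)) (l 4))) (a (a (a (b (l 16767064) (l 16770744)) (b (l 16771384) (c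 (l 16780328) (l 16780304)))) (a (b (a (l 16774632) (c (l 36742109415) (l 35668367543))) (c (l 150021867047) (l 155390572343))) (b (c (l 161296157127) (l 168275477383)) (l 4)))) (l 4))) (a (b (a (a (b (c (l 16774448) (l 16774424)) (b (a (l 16776128) (l 119420229415)) (l 154316833191))) (b (a (c (l 93650426823) (l 93650421719)) (l 174717928455)) (l 4))) (l 4)) (l 4)) (l 4)))), by decide +kernel⟩

def k53_mm_202_t : ∃ t, chk3 f_mm_202_t t 12 25 1 = true :=
  ⟨(a (b (a (b (a (l 16769256) (b (l 16765512) (l 16769216))) (a (b (l 16764304) (l 16768008)) (b (c (l 16778200) (l 16780112)) (a (l 16774496) (a (l 92039809815) (l 175791668727)))))) (b (a (a (b (l 16771960) (c (l 16780944) (l 18488499095))) (b (c (l 31373401575) (b (l 16775344) (l 48016398711))) (a (l 150021865303) (l 4)))) (a (b (l 172033572951) (l 4)) (l 4))) (a (a (b (a (l 104924717735) (l 4)) (l 4)) (l 4)) (l 4)))) (a (b (a (a (l 16774080) (b (l 16773912) (a (l 16780504) (l 112977781463)))) (a (b (a (l 48553270935) (l 159148670391))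 (l 4)) (l 4))) (a (a (b (a (l 16776016) (l 99019137447)) (l 180086634967)) (l 4)) (l 4))) (l 4))) (l 4)), by decide +kernel⟩

def k54_mm_202_t : ∃ t, chk3 f_mm_202_t t 12 13 1 = true :=
  ⟨(l 4), by decide +kernel⟩

def k55_mm_202_t : ∃ t, chk3 f_mm_202_t t 13 6 1 = true :=
  ⟨(l 4), by decide +kernel⟩

def k56_mm_202_t : ∃ t, chk3 f_mm_202_t t 7 6 1 = true :=
  ⟨(l 4), by decide +kernel⟩

def k57_mm_202_t : ∃ t, chk3 f_mm_202_t t 3 7 1 = true :=
  ⟨(l 4), by decide +kernel⟩

theorem s58_mm_202_t : ∃ t, chk3 f_mm_202_t t 12 12 1 = true := ex3_b k52_mm_202_t k53_mm_202_t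

theorem s59_mm_202_t : ∃ t, chk3 f_mm_202_t t 12 6 1 = true := ex3_b s58_mm_202_t k54_mm_202_t

theorem s60_mm_202_t : ∃ t, chk3 f_mm_202_t t 6 6 1 = true := ex3_a s59_mm_202_t k55_mm_202_t

theorem s61_mm_202_t : ∃ t, chk3 f_mm_202_t t 3 6 1 = true := ex3_a s60_mm_202_t k56_mm_202_t

theorem s62_mm_202_t : ∃ t, chk3 f_mm_202_t t 3 3 1 = true := ex3_b s61_mm_202_t k57_mm_202_t

theorem s63_mm_202_t : ∃ t, chk3 f_mm_202_t t 5 6 1 = true := ex3_b k49_mm_202_t k50_mm_202_t

theorem s64_mm_202_t : ∃ t, chk3 f_mm_202_t t 2 6 1 = true := ex3_a k48_mm_202_t s63_mm_202_t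

theorem s65_mm_202_t : ∃ t, chk3 f_mm_202_t t 2 3 1 = true := ex3_b s64_mm_202_t k51_mm_202_t

theorem s66_mm_202_t : ∃ t, chk3 f_mm_202_t t 1 3 1 = true := ex3_a s65_mm_202_t s62_mm_202_t

theorem s67_mm_202_t : ∃ t, chk3 f_mm_202_t t 28 20 1 = true := ex3_b k42_mm_202_t k43_mm_202_t

theorem s68_mm_202_t : ∃ t, chk3 f_mm_202_t t 28 10 1 = true := ex3_b s67_mm_202_t k44_mm_202_t

theorem s69_mm_202_t : ∃ t, chk3 f_mm_202_t t 14 10 1 = true := ex3_a s68_mm_202_t k45_mm_202_t

theorem s70_mm_202_t : ∃ t, chk3 f_mm_202_t t 7 10 1 = true := ex3_a s69_mm_202_t k46_mm_202_t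

theorem s71_mm_202_t : ∃ t, chk3 f_mm_202_t t 7 5 1 = true := ex3_b s70_mm_202_t k47_mm_202_t

theorem s72_mm_202_t : ∃ t, chk3 f_mm_202_t t 13 22 1 = true := ex3_a k39_mm_202_t k40_mm_202_t

theorem s73_mm_202_t : ∃ t, chk3 f_mm_202_t t 13 11 1 = true := ex3_b s72_mm_202_t k41_mm_202_t

theorem s74_mm_202_t : ∃ t, chk3 f_mm_202_t t 6 11 1 = true := ex3_a k38_mm_202_t s73_mm_202_t

theorem s75_mm_202_t : ∃ t, chk3 f_mm_202_t t 27 21 1 = true := ex3_b k36_mm_202_t k37_mm_202_t

theorem s76_mm_202_t : ∃ t, chk3 f_mm_202_t t 13 21 1 = true := ex3_a k35_mm_202_t s75_mm_202_t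

theorem s77_mm_202_t : ∃ t, chk3 f_mm_202_t t 13 10 1 = true := ex3_b k34_mm_202_t s76_mm_202_t

theorem s78_mm_202_t : ∃ t, chk3 f_mm_202_t t 6 10 1 = true := ex3_a k33_mm_202_t s77_mm_202_t

theorem s79_mm_202_t : ∃ t, chk3 f_mm_202_t t 6 5 1 = true := ex3_b s78_mm_202_t s74_mm_202_t

theorem s80_mm_202_t : ∃ t, chk3 f_mm_202_t t 3 5 1 = true := ex3_a s79_mm_202_t s71_mm_202_t

theorem s81_mm_202_t : ∃ t, chk3 f_mm_202_t t 60 36 1 = true := ex3_a k27_mm_202_t k28_mm_202_t

theorem s82_mm_202_t : ∃ t, chk3 f_mm_202_t t 60 18 1 = true := ex3_b s81_mm_202_t k29_mm_202_t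

theorem s83_mm_202_t : ∃ t, chk3 f_mm_202_t t 30 18 1 = true := ex3_a s82_mm_202_t k30_mm_202_t

theorem s84_mm_202_t : ∃ t, chk3 f_mm_202_t t 30 9 1 = true := ex3_b s83_mm_202_t k31_mm_202_t

theorem s85_mm_202_t : ∃ t, chk3 f_mm_202_t t 15 9 1 = true := ex3_a s84_mm_202_t k32_mm_202_t

theorem s86_mm_202_t : ∃ t, chk3 f_mm_202_t t 29 19 1 = true := ex3_b k25_mm_202_t k26_mm_202_t

theorem s87_mm_202_t : ∃ t, chk3 f_mm_202_t t 14 19 1 = true := ex3_a k24_mm_202_t s86_mm_202_t

theorem s88_mm_202_t : ∃ t, chk3 f_mm_202_t t 29 18 1 = true := ex3_b k22_mm_202_t k23_mm_202_t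

theorem s89_mm_202_t : ∃ t, chk3 f_mm_202_t t 14 18 1 = true := ex3_a k21_mm_202_t s88_mm_202_t

theorem s90_mm_202_t : ∃ t, chk3 f_mm_202_t t 14 9 1 = true := ex3_b s89_mm_202_t s87_mm_202_t

theorem s91_mm_202_t : ∃ t, chk3 f_mm_202_t t 7 9 1 = true := ex3_a s90_mm_202_t s85_mm_202_t

theorem s92_mm_202_t : ∃ t, chk3 f_mm_202_t t 248 68 1 = true := ex3_b k14_mm_202_t k15_mm_202_t

theorem s93_mm_202_t : ∃ t, chk3 f_mm_202_t t 124 68 1 = true := ex3_a s92_mm_202_t k16_mm_202_t

theorem s94_mm_202_t : ∃ t, chk3 f_mm_202_t t 124 34 1 = true := ex3_b s93_mm_202_t k17_mm_202_t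

theorem s95_mm_202_t : ∃ t, chk3 f_mm_202_t t 62 34 1 = true := ex3_a s94_mm_202_t k18_mm_202_t

theorem s96_mm_202_t : ∃ t, chk3 f_mm_202_t t 62 17 1 = true := ex3_b s95_mm_202_t k19_mm_202_t

theorem s97_mm_202_t : ∃ t, chk3 f_mm_202_t t 31 17 1 = true := ex3_a s96_mm_202_t k20_mm_202_t

theorem s98_mm_202_t : ∃ t, chk3 f_mm_202_t t 122 35 1 = true := ex3_b k11_mm_202_t k12_mm_202_t

theorem s99_mm_202_t : ∃ t, chk3 f_mm_202_t t 61 35 1 = true := ex3_a s98_mm_202_t k13_mm_202_t

theorem s100_mm_202_t : ∃ t, chk3 f_mm_202_t t 30 35 1 = true := ex3_a k10_mm_202_t s99_mm_202_t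

theorem s101_mm_202_t : ∃ t, chk3 f_mm_202_t t 61 69 1 = true := ex3_b k8_mm_202_t k9_mm_202_t

theorem s102_mm_202_t : ∃ t, chk3 f_mm_202_t t 61 34 1 = true := ex3_b k7_mm_202_t s101_mm_202_t

theorem s103_mm_202_t : ∃ t, chk3 f_mm_202_t t 30 34 1 = true := ex3_a k6_mm_202_t s102_mm_202_t

theorem s104_mm_202_t : ∃ t, chk3 f_mm_202_t t 30 17 1 = true := ex3_b s103_mm_202_t s100_mm_202_t

theorem s105_mm_202_t : ∃ t, chk3 f_mm_202_t t 15 17 1 = true := ex3_a s104_mm_202_t s97_mm_202_t

theorem s106_mm_202_t : ∃ t, chk3 f_mm_202_t t 15 8 1 = true := ex3_b k5_mm_202_t s105_mm_202_t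

theorem s107_mm_202_t : ∃ t, chk3 f_mm_202_t t 14 8 1 = true := ex3_b k3_mm_202_t k4_mm_202_t

theorem s108_mm_202_t : ∃ t, chk3 f_mm_202_t t 7 8 1 = true := ex3_a s107_mm_202_t s106_mm_202_t

theorem s109_mm_202_t : ∃ t, chk3 f_mm_202_t t 7 4 1 = true := ex3_b s108_mm_202_t s91_mm_202_t

theorem s110_mm_202_t : ∃ t, chk3 f_mm_202_t t 6 4 1 = true := ex3_b k1_mm_202_t k2_mm_202_t

theorem s111_mm_202_t : ∃ t, chk3 f_mm_202_t t 3 4 1 = true := ex3_a s110_mm_202_t s109_mm_202_t

theorem s112_mm_202_t : ∃ t, chk3 f_mm_202_t t 3 2 1 = true := ex3_b s111_mm_202_t s80_mm_202_t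

theorem s113_mm_202_t : ∃ t, chk3 f_mm_202_t t 1 2 1 = true := ex3_a k0_mm_202_t s112_mm_202_t

theorem s114_mm_202_t : ∃ t, chk3 f_mm_202_t t 1 1 1 = true := ex3_b s113_mm_202_t s66_mm_202_t

theorem c_mm_202_t : CertNE 0 536870912 0 536870912 697932185 42949674 3 eng mog cd0q2 cd0q0 pd2 true false false .pp 2 0 2
    ndB0q2 ndB0q0 pcB2 cut_mm_202_t Ext.none :=
  certNE0 (fam := true) (s1 := false) (s2 := false) (a := 2) (b := 0) (c := 2) (cn := .pp) (n1 := ndB0q2) (n2 := ndB0q0) (pc := pcB2) (cut := cut_mm_202_t) (xt := Ext.none) (P1 := 0) (W1 := 536870912) (P2 := 0) (W2 := 536870912) (P3 := 697932185) (W3 := 42949674) (N0 := 3) (En := eng) (mo := mog) (C1 := cd0q2) (C2 := cd0q0) (C3 := pd2)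
    rfl s114_mm_202_t

noncomputable def cut_mm_203_s : Cut := Cut.of [[⟨4, 0, 0, 1449551462⟩]]

noncomputable def f_mm_203_s : ℕ → ℕ → ℕ → ℕ → Bool := onCell 0 536870912 0 536870912 697932185 42949674
    (rowNE 3 eng mog cd0q2 cd0q0 pd3 0 true false false .up 2 0 3 (qsf 0 536870912 0 536870912 3) ndB0q2 ndB0q0 pcB3 cut_mm_203_s Ext.none)

def k0_mm_203_s : ∃ t, chk3 f_mm_203_s t 1 1 1 = true :=
  ⟨(l 6), by decide +kernel⟩

theorem c_mm_203_s : CertNE 0 536870912 0 536870912 697932185 42949674 3 eng mog cd0q2 cd0q0 pd3 true false false .up 2 0 3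
    ndB0q2 ndB0q0 pcB3 cut_mm_203_s Ext.none :=
  certNE0 (fam := true) (s1 := false) (s2 := false) (a := 2) (b := 0) (c := 3) (cn := .up) (n1 := ndB0q2) (n2 := ndB0q0) (pc := pcB3) (cut := cut_mm_203_s) (xt := Ext.none) (P1 := 0) (W1 := 536870912) (P2 := 0) (W2 := 536870912) (P3 := 697932185) (W3 := 42949674) (N0 := 3) (En := eng) (mo := mog) (C1 := cd0q2) (C2 := cd0q0) (C3 := pd3)
    rfl k0_mm_203_s

noncomputable def cut_mm_203_t : Cut := Cut.of [[⟨3, 0, 0, 2845415833⟩]]

noncomputable def f_mm_203_t : ℕ → ℕ → ℕ → ℕ → Bool := onCell 0 536870912 1610612736 536870912 697932185 42949674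
    (rowNE 3 eng mog cd0q2 cd0q0 pd3 1 true false false .up 2 0 3 (qsf 0 536870912 0 536870912 3) ndB0q2 ndB0q0 pcB3 cut_mm_203_t Ext.none)

def k0_mm_203_t : ∃ t, chk3 f_mm_203_t t 2 4 1 = true :=
  ⟨(b (a (a (b (a (l 16671576) (l 16706336)) (a (l 16687360) (l 16701168))) (a (b (l 16701512) (l 16738496)) (b (b (l 16716560) (l 16725320)) (b (l 16733696) (l 16742160))))) (a (b (a (b (l 16738560) (l 16768392)) (b (a (l 16755888) (b (l 16765440) (l 16769968))) (a (l 16785832) (a (b (l 16771504) (l 61438180151)) (b (a (l 16775952) (l 96871659447)) (l 144116280055)))))) (a (b (l 16777232) (a (l 16780272) (a (l 16768192) (b (l 16771904) (b (l 16775480) (l 89892335847)))))) (b (a (b (l 37815858711) (a (l 16773288) (l 115125253495))) (b (l 138747568935) (l 4))) (a (b (a (l 87744857031) (l 4)) (l 4)) (l 4))))) (b (a (b (a (a (b (l 44795178823) (l 104924706519)) (b (l 118346478183) (l 4))) (l 4)) (l 4)) (l 4)) (l 4)))) (a (a (b (a (l 16701264) (l 16736904)) (b (l 16739024) (a (l 16715992)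 (l 16734192)))) (b (a (b (l 16729432) (l 16737464)) (b (l 16771904) (a (l 16754064) (b (l 16763792) (l 16768624))))) (a (b (l 16766664) (a (l 16749728) (l 16782488))) (b (a (l 16784400) (a (b (l 16770472) (l 49627017639)) (b (l 75933694151) (l 147874376039)))) (a (b (l 34057760999) (a (l 16773608) (l 121567703687))) (b (l 146263760743) (l 4))))))) (a (a (b (b (a (b (l 16766296) (l 35131502711)) (b (a (l 51774502679) (l 142505667463)) (a (l 130157637895) (l 4)))) (a (a (b (l 16772944) (a (l 16781696) (l 108145948231))) (b (l 117809608263) (l 4))) (l 4))) (l 4)) (l 4)) (l 4)))), by decide +kernel⟩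

def k1_mm_203_t : ∃ t, chk3 f_mm_203_t t 2 5 1 = true :=
  ⟨(a (b (a (b (b (a (l 16730232) (l 16747112)) (a (l 16743000) (l 16779576))) (l 2)) (b (a (b (a (l 16761632) (a (l 16780224) (b (l 16772976) (l 95797918119)))) (a (b (l 16769696) (l 49090147143)) (b (a (l 90429207175) (l 4)) (l 153779952263)))) (b (a (b (a (l 102240370647) (l 4)) (l 4)) (l 4)) (l 4))) (l 2))) (l 2)) (l 4)), by decide +kernel⟩

def k2_mm_203_t : ∃ t, chk3 f_mm_203_t t 3 2 1 = true :=
  ⟨(l 4), by decide +kernel⟩

def k3_mm_203_t : ∃ t, chk3 f_mm_203_t t 1 3 1 = true :=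
  ⟨(l 2), by decide +kernel⟩

theorem s4_mm_203_t : ∃ t, chk3 f_mm_203_t t 2 2 1 = true := ex3_b k0_mm_203_t k1_mm_203_t

theorem s5_mm_203_t : ∃ t, chk3 f_mm_203_t t 1 2 1 = true := ex3_a s4_mm_203_t k2_mm_203_t

theorem s6_mm_203_t : ∃ t, chk3 f_mm_203_t t 1 1 1 = true := ex3_b s5_mm_203_t k3_mm_203_t

theorem c_mm_203_t : CertNE 0 536870912 0 536870912 697932185 42949674 3 eng mog cd0q2 cd0q0 pd3 true false false .up 2 0 3
    ndB0q2 ndB0q0 pcB3 cut_mm_203_t Ext.none :=
  certNE1 (fam := true) (s1 := false) (s2 := false) (a := 2) (b := 0) (c := 3) (cn := .up) (n1 := ndB0q2) (n2 := ndB0q0) (pc := pcB3) (cut := cut_mm_203_t) (xt := Ext.none) (P1 := 0) (W1 := 536870912) (P2 := 0) (W2 := 536870912) (P3 := 697932185) (W3 := 42949674) (N0 := 3) (En := eng) (mo := mog) (C1 := cd0q2) (C2 := cd0q0) (C3 := pd3)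
    rfl (fun _ => rfl) s6_mm_203_t

noncomputable def cut_mm_213_s : Cut := Cut.of [[⟨4, 0, 0, 1449551462⟩]]

noncomputable def f_mm_213_s : ℕ → ℕ → ℕ → ℕ → Bool := onCell 0 536870912 536870912 536870912 697932185 42949674
    (rowNE 3 eng mog cd0q2 cd0q1 pd3 0 true false false .pnn 2 1 3 (qsf 0 536870912 536870912 536870912 3) ndB0q2 ndB0q1 pcB3 cut_mm_213_s Ext.none)

def k0_mm_213_s : ∃ t, chk3 f_mm_213_s t 1 1 1 = true :=
  ⟨(l 6), by decide +kernel⟩

theorem c_mm_213_s : CertNE 0 536870912 536870912 536870912 697932185 42949674 3 eng mog cd0q2 cd0q1 pd3 true false false .pnn 2 1 3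
    ndB0q2 ndB0q1 pcB3 cut_mm_213_s Ext.none :=
  certNE0 (fam := true) (s1 := false) (s2 := false) (a := 2) (b := 1) (c := 3) (cn := .pnn) (n1 := ndB0q2) (n2 := ndB0q1) (pc := pcB3) (cut := cut_mm_213_s) (xt := Ext.none) (P1 := 0) (W1 := 536870912) (P2 := 536870912) (W2 := 536870912) (P3 := 697932185) (W3 := 42949674) (N0 := 3) (En := eng) (mo := mog) (C1 := cd0q2) (C2 := cd0q1) (C3 := pd3)
    rfl k0_mm_213_s

noncomputable def cut_mm_213_t : Cut := Cut.of [[⟨3, 0, 0, 2845415833⟩]]

noncomputable def f_mm_213_t : ℕ → ℕ → ℕ → ℕ → Bool := onCell 0 536870912 536870912 536870912 697932185 42949674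
    (rowNE 3 eng mog cd0q2 cd0q1 pd3 0 true false false .pnn 2 1 3 (qsf 0 536870912 536870912 536870912 3) ndB0q2 ndB0q1 pcB3 cut_mm_213_t Ext.none)

def k0_mm_213_t : ∃ t, chk3 f_mm_213_t t 1 1 1 = true :=
  ⟨(a (b (b (a (b (a (b (a (b (l 16752712) (l 16761776)) (b (b (l 16764248) (l 16779200)) (a (l 16781608) (b (a (l 16774392) (l 103314108167)) (l 123178316151))))) (a (b (a (l 16766384) (l 16771856)) (a (l 16772704) (b (l 81839245063) (l 110293414807)))) (b (a (b (l 65733114791) (l 110830285543)) (l 4)) (l 4)))) (b (a (b (a (b (l 83449866263) (l 124788928215)) (l 4)) (l 4)) (l 4)) (l 4))) (a (b (a (b (a (a (l 59827566023) (l 107609060311)) (l 4)) (l 4)) (l 4)) (l 4)) (l 4))) (l 4)) (l 4)) (l 4)) (l 4)), by decide +kernel⟩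

theorem c_mm_213_t : CertNE 0 536870912 536870912 536870912 697932185 42949674 3 eng mog cd0q2 cd0q1 pd3 true false false .pnn 2 1 3
    ndB0q2 ndB0q1 pcB3 cut_mm_213_t Ext.none :=
  certNE0 (fam := true) (s1 := false) (s2 := false) (a := 2) (b := 1) (c := 3) (cn := .pnn) (n1 := ndB0q2) (n2 := ndB0q1) (pc := pcB3) (cut := cut_mm_213_t) (xt := Ext.none) (P1 := 0) (W1 := 536870912) (P2 := 536870912) (W2 := 536870912) (P3 := 697932185) (W3 := 42949674) (N0 := 3) (En := eng) (mo := mog) (C1 := cd0q2) (C2 := cd0q1) (C3 := pd3)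
    rfl k0_mm_213_t

end Pool.Agent.Strip051.G.I6500_6900.Tab.CS.BA00

namespace Pool.Agent.Strip051.G.I6500_6900.Tab.CS.BA07

open Pool.Agent.Strip051.PB Pool.Agent.Strip051.PB.T
open Pool.Agent.Strip051.G.I6500_6900.Tab

noncomputable def cut_pp_001_s : Cut := Cut.of [[⟨4, 0, 0, 1449551462⟩]]

noncomputable def f_pp_001_s : ℕ → ℕ → ℕ → ℕ → Bool := onCell 0 536870912 0 536870912 697932185 42949674
    (rowNE 3 eng mog cd0q0 cd7q0 pd1 0 true true true .up 0 0 1 (qsf 0 536870912 0 536870912 1) ndB0q0 ndB7q0 pcB1 cut_pp_001_s Ext.none)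

def k0_pp_001_s : ∃ t, chk3 f_pp_001_s t 1 1 1 = true :=
  ⟨(l 4), by decide +kernel⟩

theorem c_pp_001_s : CertNE 0 536870912 0 536870912 697932185 42949674 3 eng mog cd0q0 cd7q0 pd1 true true true .up 0 0 1
    ndB0q0 ndB7q0 pcB1 cut_pp_001_s Ext.none :=
  certNE0 (fam := true) (s1 := true) (s2 := true) (a := 0) (b := 0) (c := 1) (cn := .up) (n1 := ndB0q0) (n2 := ndB7q0) (pc := pcB1) (cut := cut_pp_001_s) (xt := Ext.none) (P1 := 0) (W1 := 536870912) (P2 := 0) (W2 := 536870912) (P3 := 697932185) (W3 := 42949674) (N0 := 3) (En := eng) (mo := mog) (C1 := cd0q0) (C2 := cd7q0) (C3 := pd1)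
    rfl k0_pp_001_s

noncomputable def cut_pp_011_s : Cut := Cut.of [[⟨4, 0, 0, 1449551462⟩]]

noncomputable def f_pp_011_s : ℕ → ℕ → ℕ → ℕ → Bool := onCell 0 536870912 536870912 536870912 697932185 42949674
    (rowNE 3 eng mog cd0q0 cd7q1 pd1 0 true true true .pnn 0 1 1 (qsf 0 536870912 536870912 536870912 1) ndB0q0 ndB7q1 pcB1 cut_pp_011_s Ext.none)

def k0_pp_011_s : ∃ t, chk3 f_pp_011_s t 1 1 1 = true :=
  ⟨(l 4), by decide +kernel⟩

theorem c_pp_011_s : CertNE 0 536870912 536870912 536870912 697932185 42949674 3 eng mog cd0q0 cd7q1 pd1 true true true .pnn 0 1 1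
    ndB0q0 ndB7q1 pcB1 cut_pp_011_s Ext.none :=
  certNE0 (fam := true) (s1 := true) (s2 := true) (a := 0) (b := 1) (c := 1) (cn := .pnn) (n1 := ndB0q0) (n2 := ndB7q1) (pc := pcB1) (cut := cut_pp_011_s) (xt := Ext.none) (P1 := 0) (W1 := 536870912) (P2 := 536870912) (W2 := 536870912) (P3 := 697932185) (W3 := 42949674) (N0 := 3) (En := eng) (mo := mog) (C1 := cd0q0) (C2 := cd7q1) (C3 := pd1)
    rfl k0_pp_011_s

noncomputable def cut_pp_012_s : Cut := Cut.of [[⟨4, 0, 0, 1449551462⟩]]

noncomputable def f_pp_012_s : ℕ → ℕ → ℕ → ℕ → Bool := onCell 0 536870912 536870912 536870912 697932185 42949674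
    (rowNE 3 eng mog cd0q0 cd7q1 pd2 0 true true true .pnp 0 1 2 (qsf 0 536870912 536870912 536870912 2) ndB0q0 ndB7q1 pcB2 cut_pp_012_s Ext.none)

def k0_pp_012_s : ∃ t, chk3 f_pp_012_s t 1 1 1 = true :=
  ⟨(l 4), by decide +kernel⟩

theorem c_pp_012_s : CertNE 0 536870912 536870912 536870912 697932185 42949674 3 eng mog cd0q0 cd7q1 pd2 true true true .pnp 0 1 2
    ndB0q0 ndB7q1 pcB2 cut_pp_012_s Ext.none :=
  certNE0 (fam := true) (s1 := true) (s2 := true) (a := 0) (b := 1) (c := 2) (cn := .pnp) (n1 := ndB0q0) (n2 := ndB7q1) (pc := pcB2) (cut := cut_pp_012_s) (xt := Ext.none) (P1 := 0) (W1 := 536870912) (P2 := 536870912) (W2 := 536870912) (P3 := 697932185) (W3 := 42949674) (N0 := 3) (En := eng) (mo := mog) (C1 := cd0q0) (C2 := cd7q1) (C3 := pd2)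
    rfl k0_pp_012_s

noncomputable def cut_pp_022_s : Cut := Cut.of [[⟨4, 0, 0, 1449551462⟩]]

noncomputable def f_pp_022_s : ℕ → ℕ → ℕ → ℕ → Bool := onCell 0 536870912 1073741824 536870912 697932185 42949674
    (rowNE 3 eng mog cd0q0 cd7q2 pd2 0 true true true .pp 0 2 2 (qsf 0 536870912 1073741824 536870912 2) ndB0q0 ndB7q2 pcB2 cut_pp_022_s Ext.none)

def k0_pp_022_s : ∃ t, chk3 f_pp_022_s t 1 1 1 = true :=
  ⟨(l 4), by decide +kernel⟩

theorem c_pp_022_s : CertNE 0 536870912 1073741824 536870912 697932185 42949674 3 eng mog cd0q0 cd7q2 pd2 true true true .pp 0 2 2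
    ndB0q0 ndB7q2 pcB2 cut_pp_022_s Ext.none :=
  certNE0 (fam := true) (s1 := true) (s2 := true) (a := 0) (b := 2) (c := 2) (cn := .pp) (n1 := ndB0q0) (n2 := ndB7q2) (pc := pcB2) (cut := cut_pp_022_s) (xt := Ext.none) (P1 := 0) (W1 := 536870912) (P2 := 1073741824) (W2 := 536870912) (P3 := 697932185) (W3 := 42949674) (N0 := 3) (En := eng) (mo := mog) (C1 := cd0q0) (C2 := cd7q2) (C3 := pd2)
    rfl k0_pp_022_s

noncomputable def cut_pp_023_s : Cut := Cut.of [[⟨4, 0, 0, 1449551462⟩]]

noncomputable def f_pp_023_s : ℕ → ℕ → ℕ → ℕ → Bool := onCell 0 536870912 1073741824 536870912 697932185 42949674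
    (rowNE 3 eng mog cd0q0 cd7q2 pd3 0 true true true .up 0 2 3 (qsf 0 536870912 1073741824 536870912 3) ndB0q0 ndB7q2 pcB3 cut_pp_023_s Ext.none)

def k0_pp_023_s : ∃ t, chk3 f_pp_023_s t 1 1 1 = true :=
  ⟨(l 4), by decide +kernel⟩

theorem c_pp_023_s : CertNE 0 536870912 1073741824 536870912 697932185 42949674 3 eng mog cd0q0 cd7q2 pd3 true true true .up 0 2 3
    ndB0q0 ndB7q2 pcB3 cut_pp_023_s Ext.none :=
  certNE0 (fam := true) (s1 := true) (s2 := true) (a := 0) (b := 2) (c := 3) (cn := .up) (n1 := ndB0q0) (n2 := ndB7q2) (pc := pcB3) (cut := cut_pp_023_s) (xt := Ext.none) (P1 := 0) (W1 := 536870912) (P2 := 1073741824) (W2 := 536870912) (P3 := 697932185) (W3 := 42949674) (N0 := 3) (En := eng) (mo := mog) (C1 := cd0q0) (C2 := cd7q2) (C3 := pd3)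
    rfl k0_pp_023_s

noncomputable def cut_pp_033_s : Cut := Cut.of [[⟨4, 0, 0, 1449551462⟩]]

noncomputable def f_pp_033_s : ℕ → ℕ → ℕ → ℕ → Bool := onCell 0 536870912 0 1230186008 697932185 42949674
    (rowNE 3 eng mog cd0q0 cd7q3 pd3 0 true true true .pnn 0 3 3 (qsf 0 536870912 0 1230186008 3) ndB0q0 ndB7q3 pcB3 cut_pp_033_s Ext.none)

def k0_pp_033_s : ∃ t, chk3 f_pp_033_s t 1 1 1 = true :=
  ⟨(l 4), by decide +kernel⟩

theorem c_pp_033_s : CertNE 0 536870912 0 1230186008 697932185 42949674 3 eng mog cd0q0 cd7q3 pd3 true true true .pnn 0 3 3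
    ndB0q0 ndB7q3 pcB3 cut_pp_033_s Ext.none :=
  certNE0 (fam := true) (s1 := true) (s2 := true) (a := 0) (b := 3) (c := 3) (cn := .pnn) (n1 := ndB0q0) (n2 := ndB7q3) (pc := pcB3) (cut := cut_pp_033_s) (xt := Ext.none) (P1 := 0) (W1 := 536870912) (P2 := 0) (W2 := 1230186008) (P3 := 697932185) (W3 := 42949674) (N0 := 3) (En := eng) (mo := mog) (C1 := cd0q0) (C2 := cd7q3) (C3 := pd3)
    rfl k0_pp_033_s

noncomputable def cut_pp_101_s : Cut := Cut.of [[⟨4, 0, 0, 1449551462⟩]]

noncomputable def f_pp_101_s : ℕ → ℕ → ℕ → ℕ → Bool := onCell 536870912 536870912 0 536870912 697932185 42949674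
    (rowNE 3 eng mog cd0q1 cd7q0 pd1 0 true true true .npn 1 0 1 (qsf 536870912 536870912 0 536870912 1) ndB0q1 ndB7q0 pcB1 cut_pp_101_s Ext.none)

def k0_pp_101_s : ∃ t, chk3 f_pp_101_s t 1 1 1 = true :=
  ⟨(l 4), by decide +kernel⟩

theorem c_pp_101_s : CertNE 536870912 536870912 0 536870912 697932185 42949674 3 eng mog cd0q1 cd7q0 pd1 true true true .npn 1 0 1
    ndB0q1 ndB7q0 pcB1 cut_pp_101_s Ext.none :=
  certNE0 (fam := true) (s1 := true) (s2 := true) (a := 1) (b := 0) (c := 1) (cn := .npn) (n1 := ndB0q1) (n2 := ndB7q0) (pc := pcB1) (cut := cut_pp_101_s) (xt := Ext.none) (P1 := 536870912) (W1 := 536870912) (P2 := 0) (W2 := 536870912) (P3 := 697932185) (W3 := 42949674) (N0 := 3) (En := eng) (mo := mog) (C1 := cd0q1) (C2 := cd7q0) (C3 := pd1)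
    rfl k0_pp_101_s

noncomputable def cut_pp_102_s : Cut := Cut.of [[⟨4, 0, 0, 1449551462⟩]]

noncomputable def f_pp_102_s : ℕ → ℕ → ℕ → ℕ → Bool := onCell 536870912 536870912 0 536870912 697932185 42949674
    (rowNE 3 eng mog cd0q1 cd7q0 pd2 0 true true true .npp 1 0 2 (qsf 536870912 536870912 0 536870912 2) ndB0q1 ndB7q0 pcB2 cut_pp_102_s Ext.none)

def k0_pp_102_s : ∃ t, chk3 f_pp_102_s t 1 1 1 = true :=
  ⟨(l 4), by decide +kernel⟩

theorem c_pp_102_s : CertNE 536870912 536870912 0 536870912 697932185 42949674 3 eng mog cd0q1 cd7q0 pd2 true true true .npp 1 0 2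
    ndB0q1 ndB7q0 pcB2 cut_pp_102_s Ext.none :=
  certNE0 (fam := true) (s1 := true) (s2 := true) (a := 1) (b := 0) (c := 2) (cn := .npp) (n1 := ndB0q1) (n2 := ndB7q0) (pc := pcB2) (cut := cut_pp_102_s) (xt := Ext.none) (P1 := 536870912) (W1 := 536870912) (P2 := 0) (W2 := 536870912) (P3 := 697932185) (W3 := 42949674) (N0 := 3) (En := eng) (mo := mog) (C1 := cd0q1) (C2 := cd7q0) (C3 := pd2)
    rfl k0_pp_102_s

noncomputable def cut_pp_112_s : Cut := Cut.of [[⟨4, 0, 0, 1449551462⟩]]

noncomputable def f_pp_112_s : ℕ → ℕ → ℕ → ℕ → Bool := onCell 536870912 536870912 536870912 536870912 697932185 42949674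
    (rowNE 3 eng mog cd0q1 cd7q1 pd2 0 true true true .dn 1 1 2 (qsf 536870912 536870912 536870912 536870912 2) ndB0q1 ndB7q1 pcB2 cut_pp_112_s Ext.none)

def k0_pp_112_s : ∃ t, chk3 f_pp_112_s t 1 1 1 = true :=
  ⟨(l 4), by decide +kernel⟩

theorem c_pp_112_s : CertNE 536870912 536870912 536870912 536870912 697932185 42949674 3 eng mog cd0q1 cd7q1 pd2 true true true .dn 1 1 2
    ndB0q1 ndB7q1 pcB2 cut_pp_112_s Ext.none :=
  certNE0 (fam := true) (s1 := true) (s2 := true) (a := 1) (b := 1) (c := 2) (cn := .dn) (n1 := ndB0q1) (n2 := ndB7q1) (pc := pcB2) (cut := cut_pp_112_s) (xt := Ext.none) (P1 := 536870912) (W1 := 536870912) (P2 := 536870912) (W2 := 536870912) (P3 := 697932185) (W3 := 42949674) (N0 := 3) (En := eng) (mo := mog) (C1 := cd0q1) (C2 := cd7q1) (C3 := pd2)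
    rfl k0_pp_112_s

noncomputable def cut_pp_113_s : Cut := Cut.of [[⟨4, 0, 0, 1449551462⟩]]

noncomputable def f_pp_113_s : ℕ → ℕ → ℕ → ℕ → Bool := onCell 536870912 536870912 536870912 536870912 697932185 42949674
    (rowNE 3 eng mog cd0q1 cd7q1 pd3 0 true true true .nn 1 1 3 (qsf 536870912 536870912 536870912 536870912 3) ndB0q1 ndB7q1 pcB3 cut_pp_113_s Ext.none)

def k0_pp_113_s : ∃ t, chk3 f_pp_113_s t 1 1 1 = true :=
  ⟨(l 4), by decide +kernel⟩

theorem c_pp_113_s : CertNE 536870912 536870912 536870912 536870912 697932185 42949674 3 eng mog cd0q1 cd7q1 pd3 true true true .nn 1 1 3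
    ndB0q1 ndB7q1 pcB3 cut_pp_113_s Ext.none :=
  certNE0 (fam := true) (s1 := true) (s2 := true) (a := 1) (b := 1) (c := 3) (cn := .nn) (n1 := ndB0q1) (n2 := ndB7q1) (pc := pcB3) (cut := cut_pp_113_s) (xt := Ext.none) (P1 := 536870912) (W1 := 536870912) (P2 := 536870912) (W2 := 536870912) (P3 := 697932185) (W3 := 42949674) (N0 := 3) (En := eng) (mo := mog) (C1 := cd0q1) (C2 := cd7q1) (C3 := pd3)
    rfl k0_pp_113_s

noncomputable def cut_pp_123_s : Cut := Cut.of [[⟨4, 0, 0, 1449551462⟩]]

noncomputable def f_pp_123_s : ℕ → ℕ → ℕ → ℕ → Bool := onCell 536870912 536870912 1073741824 536870912 697932185 42949674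
    (rowNE 3 eng mog cd0q1 cd7q2 pd3 0 true true true .npn 1 2 3 (qsf 536870912 536870912 1073741824 536870912 3) ndB0q1 ndB7q2 pcB3 cut_pp_123_s Ext.none)

def k0_pp_123_s : ∃ t, chk3 f_pp_123_s t 1 1 1 = true :=
  ⟨(l 4), by decide +kernel⟩

theorem c_pp_123_s : CertNE 536870912 536870912 1073741824 536870912 697932185 42949674 3 eng mog cd0q1 cd7q2 pd3 true true true .npn 1 2 3
    ndB0q1 ndB7q2 pcB3 cut_pp_123_s Ext.none :=
  certNE0 (fam := true) (s1 := true) (s2 := true) (a := 1) (b := 2) (c := 3) (cn := .npn) (n1 := ndB0q1) (n2 := ndB7q2) (pc := pcB3) (cut := cut_pp_123_s) (xt := Ext.none) (P1 := 536870912) (W1 := 536870912) (P2 := 1073741824) (W2 := 536870912) (P3 := 697932185) (W3 := 42949674) (N0 := 3) (En := eng) (mo := mog) (C1 := cd0q1) (C2 := cd7q2) (C3 := pd3)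
    rfl k0_pp_123_s

noncomputable def cut_pp_133_s : Cut := Cut.of [[⟨4, 0, 0, 1449551462⟩]]

noncomputable def f_pp_133_s : ℕ → ℕ → ℕ → ℕ → Bool := onCell 536870912 536870912 0 1230186008 697932185 42949674
    (rowNE 3 eng mog cd0q1 cd7q3 pd3 0 true true true .dn 1 3 3 (qsf 536870912 536870912 0 1230186008 3) ndB0q1 ndB7q3 pcB3 cut_pp_133_s Ext.none)

def k0_pp_133_s : ∃ t, chk3 f_pp_133_s t 1 1 1 = true :=
  ⟨(l 4), by decide +kernel⟩

theorem c_pp_133_s : CertNE 536870912 536870912 0 1230186008 697932185 42949674 3 eng mog cd0q1 cd7q3 pd3 true true true .dn 1 3 3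
    ndB0q1 ndB7q3 pcB3 cut_pp_133_s Ext.none :=
  certNE0 (fam := true) (s1 := true) (s2 := true) (a := 1) (b := 3) (c := 3) (cn := .dn) (n1 := ndB0q1) (n2 := ndB7q3) (pc := pcB3) (cut := cut_pp_133_s) (xt := Ext.none) (P1 := 536870912) (W1 := 536870912) (P2 := 0) (W2 := 1230186008) (P3 := 697932185) (W3 := 42949674) (N0 := 3) (En := eng) (mo := mog) (C1 := cd0q1) (C2 := cd7q3) (C3 := pd3)
    rfl k0_pp_133_s

noncomputable def cut_pp_202_s : Cut := Cut.of [[⟨4, 0, 0, 1449551462⟩]]

noncomputable def f_pp_202_s : ℕ → ℕ → ℕ → ℕ → Bool := onCell 0 536870912 0 536870912 697932185 42949674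
    (rowNE 3 eng mog cd0q2 cd7q0 pd2 0 true true true .pp 2 0 2 (qsf 0 536870912 0 536870912 2) ndB0q2 ndB7q0 pcB2 cut_pp_202_s Ext.none)

def k0_pp_202_s : ∃ t, chk3 f_pp_202_s t 1 1 1 = true :=
  ⟨(l 4), by decide +kernel⟩

theorem c_pp_202_s : CertNE 0 536870912 0 536870912 697932185 42949674 3 eng mog cd0q2 cd7q0 pd2 true true true .pp 2 0 2
    ndB0q2 ndB7q0 pcB2 cut_pp_202_s Ext.none :=
  certNE0 (fam := true) (s1 := true) (s2 := true) (a := 2) (b := 0) (c := 2) (cn := .pp) (n1 := ndB0q2) (n2 := ndB7q0) (pc := pcB2) (cut := cut_pp_202_s) (xt := Ext.none) (P1 := 0) (W1 := 536870912) (P2 := 0) (W2 := 536870912) (P3 := 697932185) (W3 := 42949674) (N0 := 3) (En := eng) (mo := mog) (C1 := cd0q2) (C2 := cd7q0) (C3 := pd2)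
    rfl k0_pp_202_s

noncomputable def cut_pp_203_s : Cut := Cut.of [[⟨4, 0, 0, 1449551462⟩]]

noncomputable def f_pp_203_s : ℕ → ℕ → ℕ → ℕ → Bool := onCell 0 536870912 0 536870912 697932185 42949674
    (rowNE 3 eng mog cd0q2 cd7q0 pd3 0 true true true .up 2 0 3 (qsf 0 536870912 0 536870912 3) ndB0q2 ndB7q0 pcB3 cut_pp_203_s Ext.none)

def k0_pp_203_s : ∃ t, chk3 f_pp_203_s t 1 1 1 = true :=
  ⟨(l 4), by decide +kernel⟩

theorem c_pp_203_s : CertNE 0 536870912 0 536870912 697932185 42949674 3 eng mog cd0q2 cd7q0 pd3 true true true .up 2 0 3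
    ndB0q2 ndB7q0 pcB3 cut_pp_203_s Ext.none :=
  certNE0 (fam := true) (s1 := true) (s2 := true) (a := 2) (b := 0) (c := 3) (cn := .up) (n1 := ndB0q2) (n2 := ndB7q0) (pc := pcB3) (cut := cut_pp_203_s) (xt := Ext.none) (P1 := 0) (W1 := 536870912) (P2 := 0) (W2 := 536870912) (P3 := 697932185) (W3 := 42949674) (N0 := 3) (En := eng) (mo := mog) (C1 := cd0q2) (C2 := cd7q0) (C3 := pd3)
    rfl k0_pp_203_s

noncomputable def cut_pp_213_s : Cut := Cut.of [[⟨4, 0, 0, 1449551462⟩]]

noncomputable def f_pp_213_s : ℕ → ℕ → ℕ → ℕ → Bool := onCell 0 536870912 536870912 536870912 697932185 42949674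
    (rowNE 3 eng mog cd0q2 cd7q1 pd3 0 true true true .pnn 2 1 3 (qsf 0 536870912 536870912 536870912 3) ndB0q2 ndB7q1 pcB3 cut_pp_213_s Ext.none)

def k0_pp_213_s : ∃ t, chk3 f_pp_213_s t 1 1 1 = true :=
  ⟨(l 4), by decide +kernel⟩

theorem c_pp_213_s : CertNE 0 536870912 536870912 536870912 697932185 42949674 3 eng mog cd0q2 cd7q1 pd3 true true true .pnn 2 1 3
    ndB0q2 ndB7q1 pcB3 cut_pp_213_s Ext.none :=
  certNE0 (fam := true) (s1 := true) (s2 := true) (a := 2) (b := 1) (c := 3) (cn := .pnn) (n1 := ndB0q2) (n2 := ndB7q1) (pc := pcB3) (cut := cut_pp_213_s) (xt := Ext.none) (P1 := 0) (W1 := 536870912) (P2 := 536870912) (W2 := 536870912) (P3 := 697932185) (W3 := 42949674) (N0 := 3) (En := eng) (mo := mog) (C1 := cd0q2) (C2 := cd7q1) (C3 := pd3)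
    rfl k0_pp_213_s

noncomputable def cut_pm_001_s : Cut := Cut.of [[⟨4, 0, 0, 1449551462⟩]]

noncomputable def f_pm_001_s : ℕ → ℕ → ℕ → ℕ → Bool := onCell 0 536870912 536870912 536870912 697932185 42949674
    (rowNE 3 eng mog cd0q0 cd7q0 pd1 1 true true false .up 0 0 1 (qsf 0 536870912 0 536870912 1) ndB0q0 ndB7q0 pcB1 cut_pm_001_s Ext.none)

def k0_pm_001_s : ∃ t, chk3 f_pm_001_s t 2 1 1 = true :=
  ⟨(b (l 3) (b (b (l 3) (l 2)) (l 2))), by decide +kernel⟩

def k1_pm_001_s : ∃ t, chk3 f_pm_001_s t 3 4 1 = true :=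
  ⟨(l 3), by decide +kernel⟩

def k2_pm_001_s : ∃ t, chk3 f_pm_001_s t 6 5 1 = true :=
  ⟨(l 3), by decide +kernel⟩

def k3_pm_001_s : ∃ t, chk3 f_pm_001_s t 14 10 1 = true :=
  ⟨(l 3), by decide +kernel⟩

def k4_pm_001_s : ∃ t, chk3 f_pm_001_s t 15 20 1 = true :=
  ⟨(a (l 3) (b (l 3) (a (l 3) (b (l 3) (a (l 3) (b (a (l 3) (b (l 3) (a (l 3) (l 437180690487)))) (a (b (l 3) (a (l 3) (c (l 388862306407) (l 388325435415)))) (b (a (c (l 415168980807) (l 414632109783)) (l 122037463543)) (a (l 16775080) (l 16773608)))))))))), by decide +kernel⟩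

def k5_pm_001_s : ∃ t, chk3 f_pm_001_s t 30 21 1 = true :=
  ⟨(b (l 3) (a (l 3) (b (a (l 3) (b (l 3) (a (l 3) (b (l 3) (a (l 3) (l 563345355799)))))) (a (b (l 3) (a (l 3) (b (l 3) (a (l 3) (a (l 541333649335) (b (l 559050390103) (a (l 312626638023) (l 16776608)))))))) (b (a (a (l 3) (a (l 3) (b (l 3) (b (l 3) (l 395304760279))))) (b (a (c (l 542944261703) (l 538112423223)) (a (b (l 511268879223) (l 200420618023)) (b (l 239612193943) (l 16775456)))) (a (b (a (l 434496339255) (l 158007816807)) (l 72645342199)) (l 16773928)))) (a (b (b (a (l 3) (a (a (l 468856077639) (l 308868541943)) (l 16776192))) (a (a (l 572472162679) (a (l 317995346519) (l 253570838663))) (l 16775376))) (b (a (a (a (l 313700379623) (l 111836923863)) (l 16775832)) (l 16773912)) (l 16775680))) (a (b (l 16773560) (l 16770632)) (l 16780048)))))))), by decide +kernel⟩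

def k6_pm_001_s : ∃ t, chk3 f_pm_001_s t 31 21 1 = true :=
  ⟨(b (a (b (l 3) (a (l 3) (b (a (l 3) (b (a (l 3) (l 524153779815)) (a (l 493552136855) (a (l 311016022759) (l 16775904))))) (a (b (a (l 3) (c (l 467245461303) (l 467245461127))) (b (a (l 563882227431) (c (l 199346874183) (l 201494357879))) (a (c (l 370608695735) (l 370608695687)) (l 16775248)))) (a (b (b (l 295983637015) (l 16775552)) (l 16773536)) (l 16772520)))))) (b (a (b (a (l 3) (a (l 3) (b (l 3) (a (l 434496338903) (l 297594249847))))) (a (a (l 542407388823) (b (l 555829162999) (a (l 358260664823) (l 169282103751)))) (a (b (a (l 397452241063) (l 208473679319)) (l 16774744)) (l 16776384)))) (b (a (b (a (a (l 469929818791) (l 313700376311)) (l 16775512)) (l 16776792)) (l 16771064)) (a (l 16773064) (l 16766128)))) (a (b (a (a (b (a (l 316921602311) (l 16774856)) (l 16774168)) (l 16773168)) (l 16780256)) (c (l 16777688) (l 16776824))) (l 16771056)))) (a (b (a (b (a (l 3) (b (b (l 560124129831) (a (l 3) (a (l 478519753783)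 (l 16775424)))) (a (a (l 475298525191) (b (l 443623144711) (l 16776432))) (c (l 16775360) (l 16775208))))) (a (b (a (l 3) (c (b (l 450065595319) (l 278266896711)) (b (l 450602466119) (l 280414380439)))) (a (a (b (l 566029711831) (l 308868540871)) (b (l 312626636775) (l 16775800))) (l 16774632))) (b (a (l 16777584) (l 16772488)) (l 16776144)))) (b (a (b (a (c (l 102173240039) (l 102710111191)) (l 16773200)) (l 16773600)) (l 16778744)) (l 16775528))) (a (b (a (b (c (l 16773200) (l 16775488)) (l 16780640)) (l 16777112)) (l 16773784)) (l 16777472))) (b (a (l 16779560) (l 16749840)) (l 16774360)))), by decide +kernel⟩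

def k7_pm_001_s : ∃ t, chk3 f_pm_001_s t 28 22 1 = true :=
  ⟨(l 3), by decide +kernel⟩

def k8_pm_001_s : ∃ t, chk3 f_pm_001_s t 29 44 1 = true :=
  ⟨(l 3), by decide +kernel⟩

def k9_pm_001_s : ∃ t, chk3 f_pm_001_s t 58 45 1 = true :=
  ⟨(l 3), by decide +kernel⟩

def k10_pm_001_s : ∃ t, chk3 f_pm_001_s t 59 90 1 = true :=
  ⟨(a (l 3) (b (a (l 3) (b (l 3) (b (l 3) (b (l 3) (a (l 3) (a (l 3) (a (l 3) (a (l 480130367095) (b (l 306721060871) (l 16777024)))))))))) (a (b (l 3) (b (l 3) (a (l 3) (a (l 546702359079) (b (a (l 554218552535) (a (l 301352350903) (l 284709353431))) (a (l 292762416215) (l 16776416))))))) (a (a (b (l 3) (b (b (c (l 464024239495) (l 471003561255)) (a (a (l 306721059847) (l 222969201991)) (l 16776664))) (l 16777064))) (b (b (l 3) (b (l 524690652231) (a (l 452213079623) (c (l 231559133095) (l 206863071175))))) (b (c (l 16777376) (l 16777264)) (l 16774320)))) (a (b (a (b (l 546702359415) (b (c (l 285246223943) (l 286856836647)) (l 16776208))) (b (b (l 3) (c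 (l 294373029015) (l 297057383575))) (l 16775912))) (l 16776360)) (b (b (a (b (a (a (l 308868543831) (l 300815480423)) (l 294909900807)) (l 16776456)) (l 16777472)) (l 16777464)) (l 16777560))))))), by decide +kernel⟩

def k11_pm_001_s : ∃ t, chk3 f_pm_001_s t 59 91 1 = true :=
  ⟨(a (b (a (l 3) (b (l 3) (a (l 3) (a (b (l 3) (b (l 507510783143) (a (l 414095244951) (l 16776808)))) (b (a (l 539186166743) (b (l 547776101655) (l 296520512823))) (c (l 111836919399) (l 110763177575))))))) (a (b (a (l 3) (l 573009033559)) (a (c (l 548312971063) (l 558513518007)) (b (a (l 522543168471) (b (l 236927846615) (l 16776344))) (c (l 124184949959) (l 139217334135))))) (b (b (a (a (l 582135839127) (b (l 434496339399) (l 280951255367))) (l 16776432)) (a (a (a (a (l 336248958087) (l 287393711703)) (l 127943050871)) (l 16775584)) (l 16773360))) (a (l 16776280) (l 16770696))))) (b (a (b (b (a (c (l 528985618631) (l 531669974215)) (a (a (b (l 487646559719) (l 215453005831)) (c (l 172503332295) (l 153175979575)))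 (l 16776800))) (a (b (a (l 3) (a (l 363629379991) (l 16776744))) (a (a (l 3) (l 324437803159)) (l 16776248))) (l 16775808))) (a (a (a (b (b (l 280951259127) (l 16776344)) (l 16775040)) (l 16776816)) (l 16775392)) (l 16777144))) (b (a (l 16777720) (l 16769616)) (l 16778072))) (a (c (l 16779000) (l 16778120)) (l 16772816)))), by decide +kernel⟩

def k12_pm_001_s : ∃ t, chk3 f_pm_001_s t 14 23 1 = true :=
  ⟨(a (b (a (l 3) (b (l 3) (a (l 3) (b (l 3) (a (l 3) (b (l 3) (a (l 3) (l 340543929863)))))))) (a (b (l 3) (a (l 3) (b (l 554218545303) (a (l 508047650887) (b (a (l 480130365783) (l 16776192)) (l 16774136)))))) (b (a (b (l 3) (a (l 3) (b (l 510195135655) (a (l 304036716679) (l 16775288))))) (b (a (b (l 562808483719) (a (l 528985618311) (l 168208372967))) (b (c (a (l 213305530759) (l 16774256)) (l 271287568471)) (l 16772104))) (a (b (l 73182220647) (l 16770888)) (l 16766688)))) (a (b (a (b (l 395304761815) (l 123648087815)) (l 16771416)) (l 16777736)) (l 16769376))))) (b (a (b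 (a (b (l 3) (a (l 3) (l 577303996279))) (b (a (l 3) (b (a (l 3) (a (l 3) (c (l 451676205527) (l 462413623607)))) (b (a (l 573009033079) (a (l 211158044151) (l 16775624))) (a (c (l 332490866407) (l 336785825783)) (l 16774552))))) (a (b (a (l 3) (a (l 498383977079) (b (l 481740979399) (l 16776240)))) (a (b (l 417316469831) (l 266455737559)) (l 16774216))) (b (a (c (l 16774960) (l 16774768)) (l 16771776)) (l 16780064))))) (a (b (a (b (l 3) (l 534354326359)) (b (a (l 549923583623) (a (l 293836150871) (l 16775928))) (a (c (l 133848633847) (l 265918864231)) (l 16773000)))) (a (b (a (l 402820954999) (l 16778728)) (l 16773312)) (l 16774232))) (b (a (l 16775376) (l 16774392)) (l 16780416)))) (b (a (b (a (b (b (a (a (l 379735506471) (l 16776208)) (l 16773952)) (l 16776264)) (l 16776144)) (l 16777232)) (l 16772824)) (c (l 16776408) (l 16774200))) (a (l 16771944) (l 16760304)))) (a (b (a (a (l 16774656) (l 16778928)) (l 16769272)) (a (l 16767544) (l 16733672))) (b (l 16750320) (l 16734264))))),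 by decide +kernel⟩

def k13_pm_001_s : ∃ t, chk3 f_pm_001_s t 60 88 1 = true :=
  ⟨(a (l 3) (b (l 3) (a (l 3) (b (a (l 3) (c (l 569787806887) (l 566029712743))) (b (a (l 3) (b (a (l 3) (a (l 472077303351) (l 16776288))) (a (l 484962204967) (l 16776512)))) (b (a (l 3) (a (a (l 313700381287) (l 16776744)) (l 16775752))) (a (a (l 3) (a (l 3) (l 310479156023))) (l 16776952)))))))), by decide +kernel⟩

def k14_pm_001_s : ∃ t, chk3 f_pm_001_s t 60 89 1 = true :=
  ⟨(a (b (l 3) (a (l 3) (b (a (l 3) (a (a (l 3) (b (l 3) (b (l 3) (a (l 489794043511) (c (l 311016027895) (l 312089769719)))))) (c (b (l 552071068503) (a (b (l 418927081927) (l 16776728)) (l 96267663735))) (b (c (l 535964941015) (l 535428070023)) (b (a (l 422685178263) (l 156397205991)) (l 16777640)))))) (b (a (a (l 3) (b (l 3) (a (l 556366036279) (a (b (l 562271616663) (l 304036707063)) (c (l 218137360871) (l 219211102647)))))) (a (b (a (a (c (l 428590759703) (l 432348856055)) (c (l 304036706343) (l 304036706311))) (l 16777256))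 (l 16776792)) (l 16776472))) (a (a (b (c (l 527911877751) (l 527911877607)) (a (c (l 461876756055) (l 468319206935)) (a (c (l 295446771751) (l 296520513559)) (l 16776776)))) (a (a (b (b (a (l 3) (l 315847866967)) (l 87140860439)) (l 16776424)) (c (l 62981667639) (l 59223571287))) (l 16776624))) (c (l 16775688) (l 16775416))))))) (b (a (a (b (l 3) (b (l 3) (a (l 565492842279) (a (b (l 571935292615) (c (l 304573576311) (l 306721060023))) (b (c (l 312089768903) (l 308868543415)) (l 16776472)))))) (b (a (l 3) (b (l 3) (b (l 546165488743) (a (l 450602466935) (l 193441298535))))) (a (b (b (c (l 471540432279) (l 475298528583)) (a (c (l 310479155975) (l 312089768775)) (l 16776688))) (l 16777160)) (c (l 13589543223) (b (l 16777320) (l 16774368)))))) (b (b (a (b (a (l 568177195895) (a (l 308868543399) (l 16776544))) (a (a (l 535964941687) (l 309942285687)) (l 16776104))) (l 16775792)) (a (a (a (b (l 244980905623) (l 16776224)) (l 16775944)) (l 16774936)) (l 16772928))) (a (c (l 16776056)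 (l 16775704)) (l 16770584)))) (a (b (a (a (b (a (b (l 512342621639) (c (l 212231780375) (l 210621167671))) (b (c (l 292225545799) (l 292762416679)) (l 16776248))) (l 16776704)) (c (l 16776248) (l 16776032))) (l 16778032)) (l 16776184)) (l 16777648)))), by decide +kernel⟩

def k15_pm_001_s : ∃ t, chk3 f_pm_001_s t 61 44 1 = true :=
  ⟨(b (a (b (a (b (l 3) (a (l 3) (b (a (l 3) (a (l 525764394071) (b (l 525227523495) (l 16776968)))) (a (b (l 493015268615) (l 308331672695)) (l 16776176))))) (b (b (a (c (l 527375006071) (l 530059360423)) (a (a (l 307257929479) (l 16776432)) (l 16775456))) (a (c (a (l 444160015671) (l 170892718615)) (a (l 446307499239) (l 170355847751))) (l 16774616))) (a (a (c (l 71571600487) (l 69424116967)) (l 16776936)) (l 16772368)))) (a (a (b (b (a (l 572472162695) (b (l 435033210359) (a (l 313700381639) (l 16776592)))) (b (a (a (l 556902907207) (l 307257930871)) (l 16776160)) (c (l 97341404439) (l 95193920839)))) (c (l 16776896) (l 16776632))) (b (c (l 16777304)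 (l 16777072)) (l 16771504))) (c (l 16779952) (l 16779256)))) (b (a (b (c (l 16776984) (l 16776496)) (l 16768504)) (l 16764912)) (l 16771896))) (a (b (a (l 16773416) (l 16762952)) (l 16769728)) (l 16773104))), by decide +kernel⟩

def k16_pm_001_s : ∃ t, chk3 f_pm_001_s t 30 45 1 = true :=
  ⟨(a (b (a (b (a (a (a (b (l 3) (b (c (l 535964941127) (l 525764393623)) (a (b (c (l 411410890455) (l 416779599527)) (l 40433091255)) (c (l 91972696327) (l 87677729047))))) (a (b (l 3) (b (b (l 509121396151) (b (l 294909901383) (l 16776736))) (l 16777016))) (b (b (l 3) (l 548849843047)) (b (b (c (l 287393707463) (l 289004320167)) (l 16776240)) (l 16775000))))) (b (a (b (l 3) (b (a (l 3) (b (l 444160016087) (c (l 283635611815) (l 287393708327)))) (a (c (c (l 293836159367) (l 296520514007)) (c (l 297057383591) (l 298131125415))) (l 16776480)))) (b (b (a (l 3) (a (l 540259909095) (b (l 546702360199) (l 295983643383)))) (a (a (l 483888463479) (c (l 293836158567) (l 296520513127))) (c (l 16776736)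 (l 16776688)))) (c (l 16777216) (l 16777088)))) (a (c (l 16776200) (l 16775968)) (l 16775992)))) (b (a (b (a (a (b (c (l 153712851351) (c (l 150491625911) (l 150491625879))) (l 16776016)) (l 16776384)) (l 16777312)) (l 16776376)) (l 16777048)) (l 16775144))) (a (b (a (c (l 16775040) (b (l 16775576) (l 16772512))) (l 16775992)) (l 16774032)) (l 16775392))) (b (c (l 16774480) (l 16773224)) (l 16777720))) (a (b (c (l 16772120) (l 16770584)) (l 16774872)) (l 16767488))) (b (a (l 16770480) (l 16739304)) (l 16751848))), by decide +kernel⟩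

def k17_pm_001_s : ∃ t, chk3 f_pm_001_s t 31 22 1 = true :=
  ⟨(b (a (b (a (l 16775376) (l 16744768)) (a (l 16742168) (l 16732600))) (b (l 16731304) (l 16719248))) (a (b (l 16724568) (l 16711272)) (b (l 16706672) (l 16693552)))), by decide +kernel⟩

def k18_pm_001_s : ∃ t, chk3 f_pm_001_s t 15 23 1 = true :=
  ⟨(a (b (a (b (a (l 16764080) (l 16732312)) (l 16743696)) (b (l 16716784) (l 16702072))) (a (c (l 16723648) (l 16726744)) (l 16700232))) (b (a (b (l 16697344) (l 16682808)) (l 16672672)) (a (l 16659632) (l 16642656)))), by decide +kernel⟩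

def k19_pm_001_s : ∃ t, chk3 f_pm_001_s t 12 12 1 = true :=
  ⟨(b (l 3) (a (l 3) (b (l 3) (a (l 3) (b (l 3) (a (b (l 3) (l 2)) (b (a (l 3) (b (l 659445248311) (a (l 522543167879) (l 16776048)))) (a (b (l 502142072951) (l 2)) (b (l 16773024) (l 16768184)))))))))), by decide +kernel⟩

def k20_pm_001_s : ∃ t, chk3 f_pm_001_s t 13 12 1 = true :=
  ⟨(b (a (l 3) (b (a (l 3) (b (l 3) (a (b (l 3) (l 505363294151)) (b (a (l 534891195415) (b (l 414632114583) (l 16780856))) (a (b (l 220284855655) (l 16774264)) (l 16770560)))))) (a (b (a (l 3) (b (l 3) (a (l 3) (b (l 494625879351) (l 163913408887))))) (a (b (l 557439771143) (a (l 482814718567) (b (l 173040215879) (l 16773136)))) (b (a (b (l 278803787959) (l 16774944)) (l 16771088)) (l 16776736)))) (b (a (b (a (l 413558372039) (b (l 148881021863) (l 16772808))) (a (l 16772856) (l 16767512))) (l 16773432)) (a (l 16769584) (l 16748560)))))) (a (b (a (b (l 3) (a (l 3) (b (l 3) (a (l 3) (b (l 615958704135) (l 188609475287)))))) (b (a (l 610053121415)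 (b (a (l 3) (b (l 572472160647) (l 190220086279))) (a (a (l 269140114519) (l 128479929607)) (l 16771160)))) (a (b (a (l 526301261895) (b (l 191830700231) (l 16773336))) (a (b (l 16780784) (l 16771120)) (l 16766720))) (b (l 16771024) (l 16757080))))) (a (b (a (b (l 648170954583) (a (l 563882220599) (b (a (l 278266917831) (l 16776160)) (l 16773232)))) (b (a (b (l 483888461591) (l 79087805399)) (l 16771048)) (a (l 16768640) (l 16761832)))) (a (b (a (b (a (l 16781096) (l 16773768)) (l 16770744)) (l 16766112)) (l 16770440)) (b (l 16776776) (l 16746280)))) (b (a (b (l 16771512) (l 16751880)) (l 16764672)) (a (l 16758792) (l 16725256))))) (b (a (b (a (b (a (l 16778416) (l 16767112)) (l 16761880)) (l 16775264)) (b (c (l 16768816) (l 16768216)) (l 16760008))) (b (b (l 16763264) (l 16755344)) (b (l 16747240) (l 16718000)))) (a (b (l 16747536) (l 16728680)) (b (l 16705200) (l 16687296)))))), by decide +kernel⟩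

def k21_pm_001_s : ∃ t, chk3 f_pm_001_s t 6 13 1 = true :=
  ⟨(a (b (a (l 2) (b (a (l 2) (a (l 2) (a (l 2) (b (l 15133027015) (l 2))))) (l 2))) (l 2)) (b (a (b (a (b (a (a (l 16759520) (l 16763064)) (l 16752856)) (a (l 16747488) (l 16712920))) (b (l 16733528) (l 16714592))) (a (b (l 25333495207) (l 2)) (a (l 16692768) (l 16680560)))) (b (a (a (l 16706368) (l 16674544)) (l 16680712)) (a (b (l 16652056) (l 16633384)) (l 16664928)))) (a (b (a (l 2) (b (l 16637976) (l 2))) (l 2)) (b (a (l 16626608) (l 16627824)) (a (l 16590080) (l 16549024)))))), by decide +kernel⟩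

def k22_pm_001_s : ∃ t, chk3 f_pm_001_s t 7 6 1 = true :=
  ⟨(b (a (b (a (b (a (b (a (b (a (l 3) (b (l 3) (l 373293055015))) (a (b (l 514490102839) (l 194515050887)) (l 16779776))) (b (a (b (l 162839666039) (l 16772848)) (l 16768920)) (l 16775288))) (a (a (l 16778952) (l 16783896)) (l 16775376))) (b (a (l 16777664) (l 16744720)) (l 16757600))) (a (b (l 16767128) (l 16752904)) (b (l 16743512) (l 16708080)))) (b (a (b (l 16746552) (l 16732248)) (b (l 16719544) (l 16683968))) (a (c (l 16711144) (l 16709560)) (l 16693160)))) (a (a (b (b (l 16737880) (l 16722136)) (l 16697064)) (b (b (l 16693136) (l 16677936)) (l 16657096))) (b (a (l 16701512) (l 16652712)) (a (l 16628328) (l 16579528))))) (b (a (b (a (l 16698576) (l 16644464)) (a (l 16653616) (l 16606016))) (b (a (l 16625944) (l 16609472)) (a (l 16588096) (l 16572056)))) (a (b (a (l 16602456) (l 16571752)) (a (l 16571336) (l 16540528))) (b (a (l 16545432) (l 16531496)) (l 16533840))))) (a (b (a (b (a (l 16661304) (l 16618880)) (a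 (l 16604024) (l 16583328))) (b (a (l 16594560) (l 16567608)) (a (l 16560280) (l 16534176)))) (a (b (a (l 16567392) (l 16547248)) (a (l 16551208) (l 16510744))) (b (a (l 16525016) (l 16500544)) (a (l 16489072) (l 16465432))))) (a (b (a (b (l 16538304) (l 16506120)) (l 16512328)) (a (l 16476624) (l 16426704))) (b (l 16525232) (a (l 16395456) (l 16362176)))))), by decide +kernel⟩

def k23_pm_001_s : ∃ t, chk3 f_pm_001_s t 3 7 1 = true :=
  ⟨(a (b (a (l 2) (b (a (l 2) (b (a (l 2) (l 16512896)) (l 2))) (l 2))) (l 2)) (b (a (b (a (a (b (l 16493824) (l 16457928)) (b (l 16473784) (l 16437616))) (b (l 16504360) (l 16467920))) (a (b (l 16433632) (l 2)) (b (l 16411568) (l 16376696)))) (a (b (a (l 16387840) (l 16361632)) (a (l 16317608) (l 16294064))) (b (l 16421496) (l 16316936)))) (a (b (a (l 2) (a (l 2) (l 16252904))) (l 2)) (b (a (b (l 16255176) (l 16222536)) (a (l 16202040) (l 16177432))) (a (l 16198096) (l 16127464)))))), by decide +kernel⟩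

theorem s24_pm_001_s : ∃ t, chk3 f_pm_001_s t 6 12 1 = true := ex3_a k19_pm_001_s k20_pm_001_s

theorem s25_pm_001_s : ∃ t, chk3 f_pm_001_s t 6 6 1 = true := ex3_b s24_pm_001_s k21_pm_001_s

theorem s26_pm_001_s : ∃ t, chk3 f_pm_001_s t 3 6 1 = true := ex3_a s25_pm_001_s k22_pm_001_s

theorem s27_pm_001_s : ∃ t, chk3 f_pm_001_s t 3 3 1 = true := ex3_b s26_pm_001_s k23_pm_001_s

theorem s28_pm_001_s : ∃ t, chk3 f_pm_001_s t 60 44 1 = true := ex3_b k13_pm_001_s k14_pm_001_s

theorem s29_pm_001_s : ∃ t, chk3 f_pm_001_s t 30 44 1 = true := ex3_a s28_pm_001_s k15_pm_001_s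

theorem s30_pm_001_s : ∃ t, chk3 f_pm_001_s t 30 22 1 = true := ex3_b s29_pm_001_s k16_pm_001_s

theorem s31_pm_001_s : ∃ t, chk3 f_pm_001_s t 15 22 1 = true := ex3_a s30_pm_001_s k17_pm_001_s

theorem s32_pm_001_s : ∃ t, chk3 f_pm_001_s t 15 11 1 = true := ex3_b s31_pm_001_s k18_pm_001_s

theorem s33_pm_001_s : ∃ t, chk3 f_pm_001_s t 59 45 1 = true := ex3_b k10_pm_001_s k11_pm_001_s

theorem s34_pm_001_s : ∃ t, chk3 f_pm_001_s t 29 45 1 = true := ex3_a k9_pm_001_s s33_pm_001_s

theorem s35_pm_001_s : ∃ t, chk3 f_pm_001_s t 29 22 1 = true := ex3_b k8_pm_001_s s34_pm_001_s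

theorem s36_pm_001_s : ∃ t, chk3 f_pm_001_s t 14 22 1 = true := ex3_a k7_pm_001_s s35_pm_001_s

theorem s37_pm_001_s : ∃ t, chk3 f_pm_001_s t 14 11 1 = true := ex3_b s36_pm_001_s k12_pm_001_s

theorem s38_pm_001_s : ∃ t, chk3 f_pm_001_s t 7 11 1 = true := ex3_a s37_pm_001_s s32_pm_001_s

theorem s39_pm_001_s : ∃ t, chk3 f_pm_001_s t 15 21 1 = true := ex3_a k5_pm_001_s k6_pm_001_s

theorem s40_pm_001_s : ∃ t, chk3 f_pm_001_s t 15 10 1 = true := ex3_b k4_pm_001_s s39_pm_001_s

theorem s41_pm_001_s : ∃ t, chk3 f_pm_001_s t 7 10 1 = true := ex3_a k3_pm_001_s s40_pm_001_s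

theorem s42_pm_001_s : ∃ t, chk3 f_pm_001_s t 7 5 1 = true := ex3_b s41_pm_001_s s38_pm_001_s

theorem s43_pm_001_s : ∃ t, chk3 f_pm_001_s t 3 5 1 = true := ex3_a k2_pm_001_s s42_pm_001_s

theorem s44_pm_001_s : ∃ t, chk3 f_pm_001_s t 3 2 1 = true := ex3_b k1_pm_001_s s43_pm_001_s

theorem s45_pm_001_s : ∃ t, chk3 f_pm_001_s t 3 1 1 = true := ex3_b s44_pm_001_s s27_pm_001_s

theorem s46_pm_001_s : ∃ t, chk3 f_pm_001_s t 1 1 1 = true := ex3_a k0_pm_001_s s45_pm_001_s

theorem c_pm_001_s : CertNE 0 536870912 0 536870912 697932185 42949674 3 eng mog cd0q0 cd7q0 pd1 true true false .up 0 0 1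
    ndB0q0 ndB7q0 pcB1 cut_pm_001_s Ext.none :=
  certNE1 (fam := true) (s1 := true) (s2 := false) (a := 0) (b := 0) (c := 1) (cn := .up) (n1 := ndB0q0) (n2 := ndB7q0) (pc := pcB1) (cut := cut_pm_001_s) (xt := Ext.none) (P1 := 0) (W1 := 536870912) (P2 := 0) (W2 := 536870912) (P3 := 697932185) (W3 := 42949674) (N0 := 3) (En := eng) (mo := mog) (C1 := cd0q0) (C2 := cd7q0) (C3 := pd1)
    rfl (fun _ => rfl) s46_pm_001_s

end Pool.Agent.Strip051.G.I6500_6900.Tab.CS.BA07

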