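import Pool.Agent.Strip051.G.I6500_6900.Tab
import Pool.Agent.Strip051.PB.StripB

/-! # Strips, near vertex: certificates 4 (generated) -/

set_option linter.all false
set_option maxRecDepth 100000

namespace Pool.Agent.Strip051.G.I6500_6900.Tab.CS.BA07

open Pool.Agent.Strip051.PB Pool.Agent.Strip051.PB.T
open Pool.Agent.Strip051.G.I6500_6900.Tab

noncomputable def cut_pm_011_s : Cut := Cut.of [[⟨4, 0, 0, 1449551462⟩], [⟨0, 0, 0, 53687091⟩, ⟨1, 1, 0, 53687091⟩, ⟨2, 1, 0, 53687091⟩]]

noncomputable def f_pm_011_s : ℕ → ℕ → ℕ → ℕ → Bool := onCell 0 536870912 536870912 536870912 697932185 42949674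
    (rowNE 3 eng mog cd0q0 cd7q1 pd1 1 true true false .pnn 0 1 1 (qsf 0 536870912 536870912 536870912 1) ndB0q0 ndB7q1 pcB1 cut_pm_011_s Ext.none)

def k0_pm_011_s : ∃ t, chk3 f_pm_011_s t 1 2 1 = true :=
  ⟨(a (l 3) (b (l 1) (a (l 3) (l 1)))), by decide +kernel⟩

def k1_pm_011_s : ∃ t, chk3 f_pm_011_s t 4 6 1 = true :=
  ⟨(l 3), by decide +kernel⟩

def k2_pm_011_s : ∃ t, chk3 f_pm_011_s t 5 12 1 = true :=
  ⟨(l 3), by decide +kernel⟩

def k3_pm_011_s : ∃ t, chk3 f_pm_011_s t 10 13 1 = true :=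
  ⟨(l 3), by decide +kernel⟩

def k4_pm_011_s : ∃ t, chk3 f_pm_011_s t 11 26 1 = true :=
  ⟨(l 3), by decide +kernel⟩

def k5_pm_011_s : ∃ t, chk3 f_pm_011_s t 22 27 1 = true :=
  ⟨(b (l 3) (a (l 3) (b (l 3) (a (l 3) (b (l 3) (a (l 3) (b (b (l 3) (a (l 3) (b (c (l 552607944215) (l 637433546983)) (a (l 3) (a (c (l 279340649223) (l 479056626215)) (c (l 16776920) (l 16777568))))))) (a (c (c (b (l 527375012023) (c (a (l 235317236695) (l 16776336)) (l 129553667127))) (b (l 547239235287) (a (l 236927849463) (l 16776328)))) (b (a (l 3) (a (l 3) (l 541333652727))) (a (a (l 536501814583) (b (l 622401160247) (l 16776904))) (a (b (l 167671498791) (l 16776128)) (l 16775928))))) (b (a (c (c (l 130090535111) (l 16777104)) (b (a (l 628843611127) (a (l 248202135559) (l 16777112))) (l 16777832))) (c (l 16775560) (l 16775544))) (c (l 16774000) (l 16773968))))))))))), by decide +kernel⟩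

def k6_pm_011_s : ∃ t, chk3 f_pm_011_s t 23 54 1 = true :=
  ⟨(a (l 3) (b (a (l 3) (a (l 3) (b (l 3) (c (l 630454226375) (l 666961442391))))) (a (b (l 3) (a (a (l 3) (c (l 634212321831) (l 690583764343))) (b (b (l 3) (a (l 3) (b (l 564955972343) (a (l 618643063383) (l 16776784))))) (a (a (b (l 3) (b (l 519321944567) (c (l 16776904) (l 46875543591)))) (c (b (l 280951264871) (l 16775920)) (b (l 487646560551) (l 16775904)))) (b (a (a (b (l 248202136183) (l 16776464)) (l 16776248)) (l 16775072)) (l 16774872)))))) (b (a (b (l 3) (a (l 644949738967) (a (b (l 3) (b (l 253033975559) (l 16776656))) (b (l 428053889303) (l 16775664))))) (b (a (c (l 457044919303) (b (l 3) (a (l 601463193735) (l 97878281607)))) (a (b (a (l 300815487767) (l 173040209159)) (l 16775512)) (l 16775080))) (c (l 16772912) (a (b (l 16775576) (l 16773288)) (l 16771288))))) (a (a (b (b (c (l 156397213031) (a (l 461876756663) (l 16778472))) (l 16775008)) (l 16774192)) (c (l 16770768) (b (l 16772992) (l 16768384))))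 (b (l 16770944) (l 16763744))))))), by decide +kernel⟩

def k7_pm_011_s : ∃ t, chk3 f_pm_011_s t 46 110 1 = true :=
  ⟨(a (l 3) (b (a (l 3) (b (l 3) (a (l 3) (a (b (l 3) (c (c (l 209010561607) (l 205789336167)) (b (l 600926323223) (b (a (l 627769868599) (l 16777000)) (l 16777464))))) (b (b (l 3) (c (l 273435070151) (l 466171724087))) (c (l 16776112) (a (b (l 67276637767) (l 16775920)) (l 16775712)))))))) (b (a (b (l 3) (a (l 3) (a (l 3) (c (c (l 219211109079) (l 216526754535)) (b (l 618106192567) (a (c (l 16778336) (l 430201372855)) (l 16777440))))))) (a (b (b (a (l 3) (c (l 203104980183) (a (l 562808488327) (a (l 170892723879) (l 16776928))))) (a (a (l 3) (c (l 16777400) (l 414095245511))) (c (l 16776360) (l 16777008)))) (a (c (l 16776192) (a (b (b (l 226190427895) (l 16776872)) (l 16775992)) (l 16775784))) (c (l 16774632) (l 16774600)))) (c (l 16774752) (c (l 16773408) (b (l 16775216) (l 16772216)))))) (b (a (a (b (l 3) (a (l 3) (a (l 3) (c (l 250886490695) (a (l 571398422935)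 (b (l 668035187015) (l 16777112))))))) (a (c (c (l 84456508679) (l 16776992)) (b (b (l 521469428151) (a (l 550460457287) (l 16776904))) (a (b (l 52244251751) (l 16776520)) (l 16776024)))) (c (l 16775440) (l 16775752)))) (c (l 16772848) (a (l 16774360) (l 16769896)))) (a (a (c (c (c (a (l 228874785543) (l 16776256)) (l 124721828759)) (a (l 225653560167) (l 16776248))) (a (b (l 629917352791) (a (b (l 3) (a (l 322827191831) (l 16777136))) (a (b (l 212231783479) (l 16776744)) (l 16776640)))) (a (b (b (a (l 3) (l 203641848871)) (l 16776928)) (l 16776048)) (l 16776176)))) (c (l 16773904) (a (l 16775320) (l 16773080)))) (c (l 16771840) (l 16771752))))))), by decide +kernel⟩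

def k8_pm_011_s : ∃ t, chk3 f_pm_011_s t 47 110 1 = true :=
  ⟨(c (a (b (b (a (b (a (l 3) (a (l 295983650615) (l 16776752))) (a (a (l 3) (l 196125659671)) (l 16775248))) (l 16773016)) (a (a (c (l 16777544) (l 16777536)) (l 16771800)) (l 16767112))) (a (c (l 16771712) (l 16771656)) (l 16765448))) (b (b (l 16767608) (l 16768272)) (l 16758760))) (a (b (a (b (b (a (l 3) (a (c (l 506437042759) (l 515563847959)) (a (b (l 273435069223) (l 16776568)) (l 16776360)))) (b (a (l 619179934439) (l 16777112)) (a (a (l 3) (a (l 190220077223) (l 16776616))) (l 16774640)))) (a (a (b (b (a (l 531669975319) (l 16777688)) (l 16776272)) (l 16774528)) (l 16774600)) (l 16774360))) (b (a (b (l 16774384) (l 16772064)) (l 16770064)) (l 16769624))) (a (a (b (l 16772856) (l 16765568)) (l 16767688)) (l 16763944))) (b (a (l 16766944) (l 16756728)) (l 16757128)))), by decide +kernel⟩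

def k9_pm_011_s : ∃ t, chk3 f_pm_011_s t 92 111 1 = true :=
  ⟨(b (b (a (l 3) (b (a (l 3) (c (c (a (l 516637591703) (l 124184954951)) (l 378661764583)) (a (a (l 3) (a (l 645486609351) (b (l 3) (b (l 3) (l 16777160))))) (a (b (l 627232998007) (a (b (l 220284847351) (l 16776768)) (l 16776664))) (b (b (l 481740980471) (l 16777608)) (l 16776072)))))) (a (a (l 3) (c (c (c (l 232096011175) (l 235854107447)) (l 233706623991)) (b (l 646023480327) (a (c (l 271287585479) (l 483351593287)) (b (l 128479920743) (l 16776592)))))) (c (c (l 16775520) (l 16775504)) (a (a (b (b (l 489794044199) (l 16776976)) (l 16776096)) (l 16775888)) (l 16774704)))))) (a (a (l 3) (b (a (l 3) (a (l 3) (b (l 3) (c (l 271287585575) (l 478519755191))))) (c (c (c (a (l 239075332999) (l 16776320)) (l 130627408935)) (a (l 239075333063) (l 16776320))) (a (c (l 423758922487) (b (l 664813962231) (a (l 488720302487) (l 16777888)))) (a (b (b (l 292762421271) (l 16777000)) (l 16776120)) (l 16775920)))))) (a (b (a (c (c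 (l 128479922327) (l 16778392)) (b (b (l 559587263143) (a (l 604684419575) (l 16776992))) (a (a (l 65666024647) (l 16776704)) (l 16776112)))) (c (l 16775528) (l 16775840))) (c (l 16773984) (l 16774440))) (c (l 16773496) (c (l 16771984) (l 16773840)))))) (a (a (b (c (b (c (a (l 509658270359) (l 131164276919)) (l 381346120711)) (c (l 16775560) (l 16775552))) (b (b (a (l 3) (a (l 634749191047) (b (l 302426097639) (l 16777008)))) (a (c (l 522543170599) (l 541870523159)) (c (l 16776520) (l 16777504)))) (b (a (a (a (l 244444039239) (l 16777768)) (l 16776520)) (l 16775344)) (l 16774952)))) (c (l 16773368) (l 16773480))) (c (c (b (l 16773616) (l 16768960)) (l 16772568)) (b (a (b (l 16775536) (l 16773176)) (l 16774096)) (l 16768856)))) (c (c (b (l 16774192) (l 16764296)) (l 16769192)) (a (b (l 16773040) (l 16765712)) (l 16768192))))), by decide +kernel⟩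

def k10_pm_011_s : ∃ t, chk3 f_pm_011_s t 93 111 1 = true :=
  ⟨(b (b (c (a (c (a (l 16773560) (l 16770440)) (l 16771976)) (l 16768368)) (a (a (b (c (l 16774696) (a (l 16775800) (l 16773888))) (l 16774960)) (l 16772320)) (l 16768240))) (c (c (c (l 16769512) (l 16769480)) (l 16769432)) (a (c (l 16767264) (l 16769832)) (l 16760936)))) (c (c (a (l 16765648) (l 16754200)) (l 16762448)) (a (l 16764128) (l 16759136)))), by decide +kernel⟩

def k11_pm_011_s : ∃ t, chk3 f_pm_011_s t 47 111 1 = true :=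
  ⟨(b (a (c (c (l 16759384) (l 16764504)) (a (l 16762216) (l 16750672))) (c (l 16741688) (l 16751744))) (a (c (l 16755312) (l 16754952)) (l 16742688))), by decide +kernel⟩

def k12_pm_011_s : ∃ t, chk3 f_pm_011_s t 4 14 1 = true :=
  ⟨(a (l 3) (b (l 3) (a (l 3) (b (l 3) (a (l 3) (b (l 3) (a (b (l 3) (a (l 3) (b (l 3) (a (c (l 545628624295) (l 554755429751)) (b (l 497310239671) (a (l 170355854711) (l 16776176))))))) (b (a (l 3) (b (a (l 3) (l 548849850183)) (b (a (l 3) (l 149954761127)) (a (a (l 324437807975) (l 16777144)) (l 16775256))))) (a (a (b (c (l 480130371735) (l 472614178919)) (c (l 16777992) (l 16777976))) (b (b (l 397989119623) (l 16776040)) (l 16772864))) (b (c (l 16773352) (l 16773320)) (l 16769104))))))))))), by decide +kernel⟩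

def k13_pm_011_s : ∃ t, chk3 f_pm_011_s t 8 30 1 = true :=
  ⟨(a (l 3) (b (l 3) (a (l 3) (b (l 3) (a (l 3) (b (l 3) (a (l 3) (b (l 3) (b (a (l 3) (b (l 571398425367) (a (l 3) (l 148881016807)))) (b (a (l 3) (a (a (l 296520517543) (l 16777080)) (l 16776200))) (a (a (l 3) (a (l 250349620183) (l 16777168))) (l 16775720)))))))))))), by decide +kernel⟩

def k14_pm_011_s : ∃ t, chk3 f_pm_011_s t 16 31 1 = true :=
  ⟨(b (b (l 3) (b (l 3) (b (l 3) (l 14)))) (l 14)), by decide +kernel⟩

def k15_pm_011_s : ∃ t, chk3 f_pm_011_s t 34 124 1 = true :=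
  ⟨(a (l 3) (b (l 3) (a (l 3) (a (l 3) (b (l 3) (b (l 3) (a (b (l 3) (b (l 530059363479) (a (l 526301266695) (l 16777112)))) (b (a (l 517174461511) (a (l 235854103959) (l 64592283047))) (l 16777344))))))))), by decide +kernel⟩

def k16_pm_011_s : ∃ t, chk3 f_pm_011_s t 68 125 1 = true :=
  ⟨(b (a (l 3) (a (l 3) (b (l 3) (b (l 3) (b (b (l 3) (a (l 3) (a (l 3) (l 476909142631)))) (b (a (l 3) (a (l 493015270039) (l 16777704))) (c (a (l 520932557991) (l 16777456)) (a (l 533817459847) (l 16777448))))))))) (b (b (a (l 3) (a (b (b (l 3) (a (l 3) (a (l 3) (l 538112426791)))) (b (a (l 3) (a (l 552607941463) (c (l 107541955367) (l 120963728087)))) (a (l 564955972951) (a (b (l 228874781511) (l 16777064)) (l 16776632))))) (a (b (b (a (l 523080041207) (l 73182216983)) (a (a (l 181093270263) (l 16777000)) (l 16776576))) (l 16776056)) (c (l 16776128) (l 16775448))))) (a (a (l 3) (a (l 3) (b (l 3) (a (a (c (l 482814722887) (l 494089012023)) (b (l 3) (l 52781122439))) (b (a (a (l 394767893351)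 (l 277730034311)) (l 16777472)) (l 16776752)))))) (b (a (a (b (a (l 3) (b (l 260550165287) (l 16777096))) (a (a (a (l 370071831351) (l 235854103207)) (l 16777448)) (l 16776696))) (l 16776440)) (l 16775080)) (a (a (a (l 16776456) (l 16775888)) (l 16775048)) (l 16773352))))) (a (b (a (b (l 3) (a (l 3) (a (l 14) (b (a (l 505363300887) (c (l 158007820999) (l 174113948279))) (l 16777184))))) (a (b (b (b (c (l 497847108487) (l 509121397623)) (a (l 3) (l 142438564471))) (a (a (l 488720302567) (l 142975435415)) (l 16776808))) (c (c (l 16776616) (l 16776944)) (l 16776600))) (b (c (l 16776560) (l 16776224)) (l 16775160)))) (a (l 14) (a (a (l 16775608) (l 16774392)) (l 16773552)))) (a (b (a (l 16775136) (l 16773440)) (l 16773176)) (c (l 16771864) (l 16771944)))))), by decide +kernel⟩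

def k17_pm_011_s : ∃ t, chk3 f_pm_011_s t 69 125 1 = true :=
  ⟨(a (a (b (b (l 3) (b (b (b (l 3) (a (l 3) (b (l 552071070775) (l 447918113415)))) (b (a (l 3) (a (c (l 310479160407) (l 305647322183)) (l 16776920))) (a (a (l 3) (l 331953996935)) (l 16777328)))) (a (b (a (b (l 464024240679) (l 16777672)) (l 16777376)) (l 16775936)) (c (l 16775344) (l 16775320))))) (b (b (a (l 16774328) (l 16773200)) (l 16771632)) (l 16769736))) (b (b (b (l 3) (b (b (l 3) (a (l 3) (a (l 3) (l 129016792551)))) (b (a (l 3) (a (c (l 155323467271) (l 214379267095)) (l 16776784))) (a (b (l 524690654167) (l 423222051351)) (l 16776536))))) (b (b (a (b (a (c (l 183777625095) (l 257328940087)) (l 16776856)) (l 16776608)) (l 16775736)) (l 16775888)) (c (l 16773656) (l 16773616)))) (b (c (l 16771784) (l 16770392)) (l 16766168)))) (b (b (b (a (a (a (l 3) (b (l 3) (c (l 384567345655) (l 393694151143)))) (b (b (l 552071070999) (a (l 562808488823) (l 16777832))) (c (c (l 16777656) (l 16777656)) (l 16777648))))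 (a (b (c (l 16777256) (l 16777248)) (l 16775528)) (l 16774920))) (a (b (b (a (a (l 113984406967) (l 16776720)) (l 16775864)) (l 16776552)) (l 16775752)) (l 16774672))) (a (b (l 16774160) (l 16771368)) (l 16771480))) (b (c (l 16768416) (l 16769600)) (l 16765400)))), by decide +kernel⟩

def k18_pm_011_s : ∃ t, chk3 f_pm_011_s t 35 62 1 = true :=
  ⟨(b (a (b (a (l 3) (b (l 3) (b (b (l 3) (a (l 3) (a (l 3) (l 496773367079)))) (a (a (l 3) (b (l 3) (l 537575556679))) (b (a (l 517174461879) (a (l 141901694327) (l 16776656))) (a (a (l 170892723719) (l 16776744)) (l 16775880))))))) (a (a (b (l 3) (b (a (b (l 3) (a (l 480130368455) (c (l 139754210583) (l 141901694231)))) (b (a (l 455434306375) (c (l 109152568551) (l 116131890327))) (l 16776368))) (a (c (l 16776576) (l 16776560)) (l 16774776)))) (b (b (l 3) (b (a (l 3) (b (a (l 3) (l 16777240)) (l 16777672))) (a (a (l 430201373383) (l 44191188631)) (l 16776216)))) (b (c (l 16776184) (l 16775832)) (l 16773064)))) (a (a (b (b (b (l 556902909655)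 (a (c (l 232632878727) (l 237464716919)) (l 16776912))) (l 16775600)) (l 16773720)) (b (b (a (b (l 203641849415) (l 16776336)) (l 16777280)) (l 16774456)) (l 16771272))) (b (b (l 16775512) (l 16772736)) (l 16769552))))) (a (b (a (b (b (l 3) (b (l 3) (a (l 3) (l 440401921031)))) (b (b (a (l 475835401367) (l 16778080)) (a (l 39359350167) (l 16775704))) (l 16775344))) (b (b (b (l 3) (a (l 3) (l 397989118663))) (a (b (l 419463955303) (l 16777992)) (l 16777368))) (c (l 16774776) (l 16774736)))) (b (a (l 16772816) (l 16769208)) (l 16768744))) (a (b (b (b (b (a (a (l 511805752359) (l 16777904)) (l 16776400)) (l 16777224)) (l 16774320)) (l 16772456)) (l 16767096)) (b (b (c (l 16773096) (l 16773048)) (l 16768840)) (l 16765136))))) (a (b (a (a (b (b (l 16773216) (l 16771088)) (l 16767896)) (b (l 16771184) (l 16765624))) (b (l 16768424) (l 16762216))) (a (b (l 16762512) (l 16758264)) (l 16758480))) (b (a (b (l 16761896) (l 16757672)) (l 16755240)) (a (l 16751336) (l 16746816))))), by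 decide +kernel⟩

def k19_pm_011_s : ∃ t, chk3 f_pm_011_s t 17 63 1 = true :=
  ⟨(b (a (a (b (a (a (l 14) (a (l 14) (b (l 16771320) (l 14)))) (b (a (a (l 16769208) (l 16768088)) (l 16766400)) (l 16765208))) (a (l 14) (b (l 16758952) (l 14)))) (b (a (b (l 16765640) (l 16758744)) (b (l 16758512) (l 16754248))) (a (l 16754936) (l 16747832)))) (b (a (b (l 16757000) (l 16747496)) (l 16740632)) (a (l 16746352) (l 16732168)))) (a (a (l 14) (b (c (l 16746936) (l 16741248)) (l 16738080))) (b (a (l 16732552) (l 16723672)) (b (l 16721680) (l 16717384))))), by decide +kernel⟩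

def k20_pm_011_s : ∃ t, chk3 f_pm_011_s t 18 60 1 = true :=
  ⟨(a (l 3) (b (l 3) (a (l 3) (b (l 3) (a (b (l 3) (a (l 3) (b (l 545628622279) (a (l 224579817047) (l 16776544))))) (a (b (b (l 3) (l 511268883415)) (a (b (l 176798305463) (l 16775336)) (l 16775192))) (b (b (l 466171726295) (l 56539220887)) (l 16773384)))))))), by decide +kernel⟩

def k21_pm_011_s : ∃ t, chk3 f_pm_011_s t 36 61 1 = true :=
  ⟨(b (a (l 3) (b (l 3) (a (a (l 3) (b (l 3) (b (l 3) (l 545628622135)))) (b (a (l 3) (a (l 3) (b (l 3) (l 440401921559)))) (a (a (b (l 3) (a (l 248739007415) (l 119353116855))) (b (l 496773367735) (l 16776264))) (a (b (a (l 192904432311) (l 16776912)) (l 16775080)) (l 16776264))))))) (a (b (a (l 3) (b (l 3) (a (b (l 3) (b (c (l 474224789287) (l 481740982023)) (a (l 297594260055) (l 16776648)))) (b (a (a (l 548849846263) (l 416779600903)) (b (l 208473688263) (l 16776424))) (l 16776728))))) (a (a (b (b (l 3) (b (l 542944266711) (a (l 552607942311) (l 96804538071)))) (b (a (b (l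 123648083783) (l 16776104)) (l 16775472)) (l 16773936))) (b (b (a (l 527375010007) (b (l 477982885031) (l 16776864))) (c (l 16777664) (c (l 16777160) (l 16777480)))) (l 16773984))) (b (a (b (l 16777272) (l 16773512)) (l 16772240)) (l 16771800)))) (b (a (b (b (a (l 569787813559) (b (a (l 545091749527) (l 16777032)) (l 16777872))) (a (c (a (l 402284086407) (l 16778048)) (a (l 410337150071) (l 16778048))) (l 16774968))) (b (l 16775328) (l 16771904))) (b (c (l 16773832) (l 16773776)) (l 16768264))) (a (c (l 16769296) (l 16769184)) (l 16764560))))), by decide +kernel⟩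

def k22_pm_011_s : ∃ t, chk3 f_pm_011_s t 37 61 1 = true :=
  ⟨(b (a (b (a (b (l 3) (a (l 3) (a (l 564419105223) (b (l 3) (a (l 285783100679) (l 156934081015)))))) (a (b (l 3) (b (a (l 523616913655) (l 160155307031)) (l 16775848))) (b (b (l 3) (a (l 465634854711) (l 113984408215))) (l 16775824)))) (a (b (a (a (b (l 3) (l 89288345991)) (b (l 400136602727) (l 16775768))) (b (l 16778072) (l 16773984))) (l 16773640)) (b (l 16774104) (l 16767256)))) (b (a (b (a (b (a (l 422685181271) (l 16778136)) (l 16775304)) (l 16773960)) (l 16770936)) (b (l 16770368) (l 16766152))) (b (l 16769576) (l 16760128)))) (a (b (b (c (l 16768096) (l 16770592)) (l 16766440)) (l 16760144)) (b (l 16759072) (l 16745472)))), by decide +kernel⟩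

def k23_pm_011_s : ∃ t, chk3 f_pm_011_s t 19 30 1 = true :=
  ⟨(b (a (b (a (l 3) (b (a (l 3) (a (l 3) (b (l 3) (b (l 3) (l 416779601639))))) (a (b (a (l 3) (c (l 511268885223) (l 522006303415))) (b (a (l 539723042247) (c (l 16779424) (l 88751475911))) (a (a (l 225653558951) (l 16776512)) (l 16774672)))) (b (a (b (l 455434307911) (l 16779080)) (l 16777680)) (l 16772056))))) (a (b (a (b (l 3) (b (a (l 3) (l 396915377607)) (a (l 431811987415) (l 16775960)))) (b (b (a (l 3) (a (l 278266908823) (l 16776840))) (a (a (l 480667240407) (l 16778464)) (l 16775328))) (c (l 16773392) (l 16775976)))) (a (a (a (b (l 16778432) (l 16771584)) (l 16774288)) (l 16772640)) (l 16769664))) (b (a (b (l 16772728) (l 16768504)) (l 16770968)) (l 16764352)))) (b (a (b (a (a (b (l 3) (b (a (l 502678948055) (l 16778552)) (l 16775768))) (b (a (l 493015272871) (b (l 3) (l 16776912))) (l 16774352))) (a (b (a (b (l 234243493735) (l 16775664)) (l 16775488)) (l 16771872)) (l 16773464))) (b (a (l 16771360) (l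 16766416)) (l 16769920))) (b (a (l 16771048) (l 16762776)) (l 16762112))) (a (b (l 16763616) (l 16750000)) (b (l 16748504) (l 16740176))))) (a (a (b (b (c (l 16766368) (l 16766208)) (l 16752664)) (l 16746704)) (b (b (l 16751384) (l 16743048)) (l 16730600))) (b (a (l 16742760) (l 16727760)) (a (l 16721000) (l 16711336))))), by decide +kernel⟩

def k24_pm_011_s : ∃ t, chk3 f_pm_011_s t 9 31 1 = true :=
  ⟨(a (b (a (b (a (b (a (b (c (l 16772264) (l 16769560)) (l 16765392)) (b (l 16764968) (l 16760776))) (a (l 16761704) (l 16754496))) (b (c (l 16761256) (l 16761024)) (l 16752816))) (a (b (l 16753664) (l 16740056)) (b (l 16739272) (l 16730992)))) (b (a (b (l 16746560) (l 16738280)) (l 16743536)) (a (l 16736416) (l 16716664)))) (a (b (b (a (l 16731672) (l 16722688)) (l 16726680)) (a (l 16721096) (l 16701816))) (b (a (l 16709480) (l 16700360)) (l 16698952)))) (b (a (b (a (l 16723648) (l 16714200)) (l 16702696)) (b (l 16699928) (l 16683888))) (a (b (l 16686544) (l 16670432)) (b (l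 16667968) (l 16652104))))), by decide +kernel⟩

def k25_pm_011_s : ∃ t, chk3 f_pm_011_s t 20 28 1 = true :=
  ⟨(l 3), by decide +kernel⟩

def k26_pm_011_s : ∃ t, chk3 f_pm_011_s t 21 56 1 = true :=
  ⟨(l 3), by decide +kernel⟩

def k27_pm_011_s : ∃ t, chk3 f_pm_011_s t 42 57 1 = true :=
  ⟨(b (l 3) (a (l 3) (b (l 3) (b (a (l 3) (a (c (b (l 3) (l 540259913735)) (l 568714074119)) (c (b (b (l 3) (l 448991856583)) (c (c (l 16779056) (l 16776600)) (l 16776600))) (b (l 482814725079) (l 16776592))))) (b (a (l 3) (a (c (a (a (l 322827194951) (l 189683207463)) (l 16777784)) (l 16779792)) (l 16775016))) (a (a (l 3) (c (a (l 486035949799) (a (l 164987145255) (l 16776696))) (l 190756951639))) (c (l 16774864) (l 16773528)))))))), by decide +kernel⟩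

def k28_pm_011_s : ∃ t, chk3 f_pm_011_s t 43 57 1 = true :=
  ⟨(b (a (b (l 3) (a (l 3) (b (l 3) (b (l 3) (a (l 3) (c (c (l 462950501159) (l 465634855719)) (l 469929822999))))))) (b (a (l 3) (b (l 3) (b (a (l 3) (c (c (l 438791309703) (l 442549406087)) (l 445233760647))) (a (c (a (l 3) (l 480667240663)) (l 516100722231)) (c (c (l 16778800) (l 16776176)) (l 16776168)))))) (b (a (a (l 3) (c (b (l 552071074535) (c (b (l 244444042647) (l 16779520)) (l 158007825879))) (a (l 521469431751) (b (l 571935296887) (l 16776736))))) (a (a (b (b (l 335712096471) (l 84456507559)) (l 16775264)) (c (l 16776256) (l 16774928))) (c (l 16772728) (l 16772696)))) (a (b (a (c (a (l 544554879991) (c (l 153712856903) (l 16777368))) (l 401747216023)) (c (l 16775184) (l 16775168))) (c (c (l 16776336) (l 16774360)) (l 16774344))) (c (l 16772256) (l 16769584)))))) (a (b (a (b (l 3) (b (a (l 3) (c (c (a (l 475298531463) (l 16778264)) (l 177872049799)) (l 180019533447))) (a (c (a (l 547776105687) (c (l 177872048263)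 (l 16777528))) (l 244980914903)) (c (l 16776720) (l 16775400))))) (b (a (c (a (b (l 3) (c (l 213842399815) (l 16779056))) (b (l 511805753927) (l 16777656))) (b (l 551534202743) (l 111300055719))) (c (c (b (a (l 16779136) (l 16775728)) (l 16774184)) (l 16777928)) (l 16777920))) (c (c (l 16773560) (l 16772240)) (l 16772208)))) (c (a (b (c (a (b (l 16778632) (l 16773784)) (l 16772064)) (l 16773472)) (l 16771648)) (c (l 16770808) (l 16765536))) (a (b (l 16773448) (l 16768976)) (l 16765480)))) (b (c (b (a (c (l 16770976) (l 16770960)) (l 16765112)) (c (l 16768824) (l 16763544))) (a (l 16770624) (l 16762784))) (c (c (l 16762168) (l 16762128)) (l 16767288))))), by decide +kernel⟩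

def k29_pm_011_s : ∃ t, chk3 f_pm_011_s t 20 58 1 = true :=
  ⟨(a (l 3) (b (a (l 3) (b (l 3) (a (l 3) (b (l 3) (a (c (b (l 3) (l 524690656935)) (l 556366042695)) (c (b (l 468319210247) (c (l 16779192) (l 16776568))) (b (l 473687919351) (l 16776560)))))))) (a (b (a (l 3) (b (l 3) (a (l 3) (c (b (l 3) (l 445233760647)) (l 490867790119))))) (a (b (a (l 3) (l 548849850311)) (a (c (b (l 3) (l 199346885975)) (l 416779602855)) (c (b (l 145659794007) (l 16775192)) (l 16780192)))) (b (a (b (l 498383981783) (l 84456509415)) (c (l 16777936) (l 16775304))) (l 16772328)))) (b (a (a (b (l 3) (b (c (l 392083539463) (l 234780366663)) (l 16778520))) (b (b (l 3) (c (c (l 173040211047) (l 169282114663)) (l 174113952871))) (c (l 16774328) (l 16774304)))) (b (b (a (a (b (l 356650061911) (l 16778512)) (l 16777712)) (l 16774384)) (c (l 16773568) (l 16773536))) (l 16772936))) (b (a (l 16772648) (l 16766016)) (l 16769640)))))), by decide +kernel⟩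

def k30_pm_011_s : ∃ t, chk3 f_pm_011_s t 20 59 1 = true :=
  ⟨(a (b (a (b (l 3) (a (b (l 3) (a (l 3) (c (l 493015273943) (l 487646564775)))) (a (b (l 3) (b (l 413558376295) (l 16776160))) (b (c (b (l 3) (l 209010562343)) (l 421611441127)) (l 16774672))))) (b (a (b (l 3) (a (l 3) (b (l 510195142023) (l 103246991367)))) (b (a (c (l 494625886743) (l 488183435751)) (b (l 408189667159) (l 16776112))) (c (a (l 16778120) (l 16772920)) (l 16776808)))) (a (b (a (b (l 154786599607) (l 16775304)) (l 16773808)) (l 16770840)) (c (l 16773104) (l 16767784))))) (b (a (a (b (a (b (l 515026980135) (l 100025765751)) (c (l 16778144) (l 16775504))) (l 16772528)) (b (l 16771704) (l 16767472))) (c (l 16767248) (l 16767128))) (a (b (l 16769056) (l 16766800)) (c (l 16753632) (l 16753448))))) (b (a (b (b (a (l 16775408) (l 16768048)) (l 16770344)) (c (l 16765376) (l 16760008))) (b (c (l 16763336) (l 16757968)) (l 16754880))) (b (a (l 16756936) (l 16741320)) (c (l 16746184) (l 16748576))))), by decide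 +kernel⟩

def k31_pm_011_s : ∃ t, chk3 f_pm_011_s t 21 29 1 = true :=
  ⟨(b (a (b (a (b (a (l 3) (b (a (l 3) (b (l 3) (b (l 3) (c (l 451676211143) (l 288467457495))))) (a (c (b (l 538649300903) (c (c (l 127406182983) (l 124721828423)) (l 16779472))) (l 382956734375)) (c (c (c (l 16778816) (l 16778160)) (l 16778152)) (l 16775520))))) (a (b (b (a (l 3) (c (a (l 479056627831) (l 98415152295)) (l 185388242455))) (a (a (l 549923589175) (b (l 334101483351) (l 16778320))) (c (l 16775520) (l 16775504)))) (c (c (a (l 16774960) (l 16772256)) (l 16776224)) (l 16773576))) (c (b (c (l 16772528) (l 16772512)) (l 16768176)) (l 16771608)))) (b (c (a (b (a (b (a (l 547776105703) (c (l 189683208263) (l 16777576))) (c (l 16778704) (l 16776080))) (c (l 16774424) (l 16774408))) (c (l 16771408) (l 16771392))) (b (l 16772856) (l 16765848))) (a (b (a (b (l 251960236647) (l 16776072)) (l 16774392)) (l 16771360)) (l 16767976))) (c (a (l 16768792) (l 16759336)) (l 16767256)))) (a (a (b (c (l 16770400)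 (l 16769672)) (l 16758528)) (b (c (l 16761712) (l 16761616)) (l 16753136))) (b (c (l 16758768) (l 16753392)) (l 16755472)))) (b (b (a (c (a (l 16766360) (l 16756768)) (l 16764752)) (c (l 16753400) (l 16748048))) (a (c (l 16756192) (l 16750824)) (l 16744656))) (a (b (l 16747560) (l 16733752)) (c (l 16737072) (l 16726392))))) (a (b (a (b (l 16747408) (l 16739080)) (c (l 16742832) (l 16732256))) (b (l 16735704) (l 16727344))) (b (b (l 16729992) (l 16721536)) (c (l 16719624) (l 16698224))))), by decide +kernel⟩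

def k32_pm_011_s : ∃ t, chk3 f_pm_011_s t 44 56 1 = true :=
  ⟨(b (l 3) (a (b (l 3) (a (b (l 3) (a (l 3) (a (l 3) (b (l 3) (c (l 532206848887) (l 551534201719)))))) (b (b (l 3) (a (l 3) (c (a (l 548849847447) (c (l 158007824359) (l 16777360))) (a (l 569250942087) (c (l 158544695271) (l 158544695255)))))) (a (b (c (c (l 473687919639) (l 476909145111)) (l 480667241479)) (a (b (a (l 3) (l 201494366583)) (l 16777960)) (l 16776376))) (c (c (l 16776592) (l 16774616)) (l 16776568)))))) (b (a (b (l 3) (b (a (l 3) (a (l 3) (b (l 3) (c (l 243907169831) (l 244980911655))))) (a (c (a (l 3) (l 548849847687)) (l 569250943783)) (a (b (c (l 316921614535) (l 318532227271)) (c (l 16776912) (l 16776904))) (c (l 16775976) (l 16775960)))))) (b (b (a (l 3) (a (c (c (l 477446015239) (l 311016036279)) (l 484425337095)) (b (c (l 189146336375) (l 189683207255)) (a (l 16777336) (l 16775912))))) (a (c (a (l 549923589719) (c (l 191830692279) (l 16779560))) (a (l 567640329815) (a (l 449528726999) (l 136532986919))))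 (c (l 16776616) (l 16775288)))) (b (a (a (b (c (l 168745241527) (l 16778672)) (l 16776200)) (l 16775576)) (l 16774256)) (c (l 16772888) (l 16772112))))) (b (a (a (b (c (c (a (l 283635619207) (l 16776680)) (l 158544695623)) (a (l 454360565607) (l 16777984))) (c (l 16775096) (l 16775080))) (c (l 16773872) (l 16773184))) (c (l 16771264) (l 16768568))) (a (c (c (l 16770080) (l 16770048)) (l 16770008)) (c (l 16763968) (l 16763864))))))), by decide +kernel⟩

def k33_pm_011_s : ∃ t, chk3 f_pm_011_s t 90 112 1 = true :=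
  ⟨(b (a (l 3) (b (l 3) (a (l 3) (c (c (b (l 525227528263) (c (a (l 225116689239) (l 16776280)) (l 120963732423))) (b (l 529522495559) (a (l 227264172887) (l 16776272)))) (b (a (l 3) (l 537575557175)) (a (a (l 507510785559) (b (l 583746454743) (l 16776848))) (c (l 16776264) (l 16777576)))))))) (a (b (b (l 3) (a (l 3) (b (c (l 542944267847) (l 567640329447)) (a (l 3) (c (l 131164277319) (l 130627406391)))))) (a (a (b (l 3) (b (c (l 329806516839) (l 532743718887)) (c (l 114521278903) (l 16778408)))) (c (b (c (l 488720304551) (l 492478400935)) (l 16777464)) (b (l 501068335415) (l 16776144)))) (c (c (c (l 16777648) (l 16777640)) (l 16777632)) (a (b (b (l 207399947495) (l 16776368)) (l 16774592)) (l 16774224))))) (b (c (b (a (a (c (l 497310239271) (l 501068335655)) (c (l 113984408887) (l 16777016))) (l 16774704)) (c (l 16775224) (l 16773904))) (a (b (a (l 520395688135) (a (b (l 569787811063) (l 16776816)) (l 16777944))) (a (l 16777520) (l 16774656))) (l 16774160))) (c (c (l 16771720)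 (l 16770376)) (a (l 16771888) (l 16768776)))))), by decide +kernel⟩

def k34_pm_011_s : ∃ t, chk3 f_pm_011_s t 91 112 1 = true :=
  ⟨(b (a (a (a (b (l 3) (c (c (b (l 122037472647) (l 16774736)) (l 16778512)) (b (b (l 411947762311) (l 16776480)) (l 16774704)))) (b (b (l 3) (c (c (c (l 231022269351) (l 231022269351)) (l 234243494807)) (a (l 523616912823) (b (l 605758162071) (l 16776888))))) (c (l 16775008) (l 16774320)))) (c (b (b (a (c (l 506973915847) (l 515563850343)) (c (l 127406180519) (l 16777088))) (c (l 16775536) (l 16775528))) (l 16773336)) (b (b (b (a (l 3) (l 422685179863)) (a (l 515026977911) (l 16776504))) (a (c (l 16776304) (b (l 30769416199) (l 16775712))) (l 16774736))) (l 16773288)))) (c (b (c (a (l 16773608) (l 16770504)) (l 16772032)) (l 16769992)) (b (a (b (l 16774744) (l 16772384)) (l 16770424)) (l 16769896)))) (a (c (c (c (l 16769208) (l 16771808)) (l 16771776)) (b (l 16771440) (l 16764104))) (c (c (l 16765640) (l 16760328)) (l 16765448)))), by decide +kernel⟩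

def k35_pm_011_s : ∃ t, chk3 f_pm_011_s t 45 113 1 = true :=
  ⟨(b (a (a (c (b (c (l 16772536) (l 16771856)) (l 16769808)) (b (a (l 16773376) (l 16770272)) (l 16767104))) (c (c (l 16766024) (l 16763352)) (l 16767192))) (c (a (l 16761152) (l 16756288)) (a (l 16757040) (l 16750816)))) (a (c (a (c (l 16765464) (l 16760152)) (l 16759304)) (a (l 16760048) (l 16753872))) (c (l 16750088) (l 16744576)))), by decide +kernel⟩

def k36_pm_011_s : ∃ t, chk3 f_pm_011_s t 22 57 1 = true :=
  ⟨(a (b (a (b (a (b (b (a (l 3) (a (c (c (l 240685945703) (l 236390978567)) (l 237464720391)) (c (l 16777720) (l 16776400)))) (a (c (c (a (l 505900173879) (l 16778400)) (l 199883757783)) (a (l 513953237543) (l 16778392))) (c (l 16774832) (l 16774816)))) (c (c (a (l 16774360) (l 16771360)) (l 16772848)) (l 16774136))) (c (b (c (l 16771472) (l 16771456)) (l 16769448)) (b (l 16771424) (l 16766760)))) (c (a (c (l 16768608) (l 16765960)) (l 16762592)) (a (l 16771144) (l 16759872)))) (c (b (a (c (l 16768352)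 (l 16763064)) (l 16762256)) (c (l 16756192) (l 16750880))) (b (a (l 16768232) (l 16756864)) (l 16750760)))) (a (c (b (c (l 16759248) (l 16759200)) (l 16755608)) (a (l 16758952) (l 16756920))) (b (c (l 16752456) (l 16741816)) (l 16743560)))) (b (c (a (b (c (l 16753160) (l 16747816)) (l 16749256)) (a (l 16744648) (l 16738536))) (a (a (l 16751392) (l 16750496)) (l 16741256))) (a (c (l 16735968) (l 16735744)) (c (l 16723832) (l 16713016))))), by decide +kernel⟩

def k37_pm_011_s : ∃ t, chk3 f_pm_011_s t 23 28 1 = true :=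
  ⟨(b (a (b (a (b (a (b (c (l 16768448) (l 16768336)) (a (l 16765272) (l 16759528))) (c (l 16761216) (l 16762328))) (c (c (l 16756376) (l 16761496)) (l 16757376))) (c (b (b (l 16755528) (l 16756128)) (l 16749176)) (a (l 16753640) (l 16750320)))) (b (a (c (l 16747032) (l 16741464)) (l 16737080)) (a (l 16738904) (l 16730472)))) (b (a (b (l 16743216) (l 16736552)) (c (l 16739608) (l 16717960))) (a (c (l 16733504) (l 16711880)) (l 16720864)))) (a (b (a (b (l 16733648) (l 16714144)) (l 16716824)) (b (l 16712296) (l 16711520))) (b (c (l 16709288) (l 16708448)) (l 16691360)))), by decide +kernel⟩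

def k38_pm_011_s : ∃ t, chk3 f_pm_011_s t 11 29 1 = true :=
  ⟨(a (b (a (b (a (b (l 16741520) (l 16727568)) (b (l 16724288) (l 16715600))) (a (l 16725136) (l 16702704))) (b (a (l 16718448) (l 16695968)) (c (l 16706168) (l 16684576)))) (a (b (c (l 16713008) (l 16691392)) (l 16685360)) (b (l 16678448) (l 16651216)))) (b (a (b (l 16693624) (l 16682056)) (b (l 16653512) (l 16637160))) (a (b (l 16644464) (l 16627928)) (b (l 16620928) (l 16604736))))), by decide +kernel⟩

def k39_pm_011_s : ∃ t, chk3 f_pm_011_s t 5 15 1 = true :=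
  ⟨(a (b (a (b (a (b (a (b (l 16760496) (l 16746888)) (b (l 16745184) (l 16736856))) (a (l 16744904) (l 16724448))) (b (a (l 16741392) (l 16720704)) (l 16719928))) (a (b (a (l 16717936) (l 16708064)) (l 16696744)) (b (l 16693176) (l 16676864)))) (b (a (b (l 16714848) (l 16687800)) (a (l 16700112) (l 16667560))) (a (b (l 16671360) (l 16654992)) (l 16661328)))) (a (b (a (b (l 16680696) (l 16664872)) (l 16662936)) (a (l 16661832) (l 16620000))) (b (a (l 16651528) (l 16607744)) (b (l 16594944) (l 16578824))))) (b (b (a (a (c (l 16671424) (l 16649240)) (l 16636744)) (a (b (l 16632376) (l 16594952)) (l 16580448))) (a (b (b (l 16638480) (l 16630248)) (a (l 16608576) (l 16585096))) (a (l 16591360) (l 16569048)))) (a (b (a (b (l 16592248) (l 16576016)) (l 16581640)) (a (b (l 16559872) (l 16543808)) (l 16525784))) (b (a (l 16558936) (l 16515752)) (a (l 16505736) (l 16483816)))))), by decide +kernel⟩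

def k40_pm_011_s : ∃ t, chk3 f_pm_011_s t 6 12 1 = true :=
  ⟨(a (b (l 3) (a (l 3) (b (l 3) (a (l 3) (b (l 3) (a (b (l 3) (l 669645792423)) (b (a (l 3) (a (l 612737479431) (l 1))) (a (b (l 504826427511) (a (l 127406186551) (l 16773568))) (l 16772248))))))))) (b (l 1) (a (b (l 1) (a (b (l 1) (a (b (l 1) (l 16770472)) (l 1))) (l 1))) (l 1)))), by decide +kernel⟩

def k41_pm_011_s : ∃ t, chk3 f_pm_011_s t 12 26 1 = true :=
  ⟨(a (b (l 3) (a (b (l 3) (a (l 3) (b (l 3) (a (b (l 3) (l 586967676359)) (b (a (l 690046893847) (b (l 529522491255) (l 16779224))) (a (b (l 175187694887) (l 16775272)) (l 16773200))))))) (b (a (b (l 3) (a (l 3) (b (l 3) (a (l 3) (l 418927083239))))) (a (b (l 3) (b (a (l 560124132663) (c (l 16779200) (l 78014061127))) (a (l 16775272) (l 16771984)))) (b (b (l 568177195767) (a (a (l 267529495687) (l 116668766151)) (l 16774600))) (l 16770952)))) (a (b (a (b (l 656760896759) (a (l 477446012695) (c (l 16775872) (l 30232548455)))) (a (b (b (l 248739012231) (l 16776064))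 (l 16772632)) (l 16771656))) (a (b (l 16775544) (l 16768352)) (l 16769368))) (b (a (l 16769336) (l 16760080)) (l 16764728)))))) (b (a (b (a (l 3) (b (l 3) (a (l 3) (b (l 649244702103) (a (l 254644596295) (l 16775552)))))) (a (b (l 663203343927) (a (b (l 3) (a (l 650318445287) (c (l 130090540935) (l 118816251767)))) (b (a (c (l 232632887719) (l 217063631143)) (l 16775128)) (l 16772152)))) (b (a (b (a (l 680383215719) (l 172503344199)) (c (l 16779960) (l 16779928))) (l 16770184)) (a (l 16767664) (l 16760760))))) (b (a (b (a (b (l 3) (l 467245464071)) (b (a (l 501068331735) (l 16775856)) (l 16772840))) (a (b (a (l 16781064) (l 16773344)) (l 16770336)) (l 16765672))) (b (a (l 16768128) (l 16760960)) (l 16765432))) (a (b (l 16770184) (l 16750264)) (l 16751184)))) (a (b (a (b (a (b (c (l 16774240) (l 16779440)) (l 16769576)) (l 16765136)) (l 16767104)) (b (l 16765344) (l 16745560))) (a (b (l 16760488) (l 16740832)) (l 16742216))) (b (a (l 16746720) (l 16742920)) (c (l 16731800) (l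 16731272)))))), by decide +kernel⟩

def k42_pm_011_s : ∃ t, chk3 f_pm_011_s t 12 27 1 = true :=
  ⟨(a (b (a (b (a (b (a (l 3) (b (l 3) (a (l 567640326487) (b (l 395841634391) (l 16775728))))) (a (a (b (l 3) (a (b (l 3) (l 83919637575)) (b (l 201494368519) (l 16775352)))) (b (a (l 563345359255) (b (l 659982123287) (l 16776720))) (l 16774128))) (b (a (a (b (l 171966468135) (l 16775160)) (l 16774712)) (l 16772344)) (l 16774648)))) (b (b (a (a (c (l 388862312727) (b (l 633138576999) (l 122574345223))) (l 16778328)) (l 16770256)) (a (l 16773416) (l 16765712))) (b (l 16770288) (l 16765112)))) (b (a (a (b (c (l 16771208) (l 16772448)) (l 16766632)) (l 16767864)) (c (l 16753216) (l 16763432))) (a (a (l 16765040) (l 16758760)) (l 16749240)))) (b (a (b (c (l 16768856) (l 16768656)) (l 16759704)) (c (l 16751264) (l 16750904))) (a (c (l 16746336) (l 16745904)) (l 16743472)))) (a (a (b (b (c (l 16747672) (l 16757784)) (c (l 16738520) (l 16738032))) (c (l 16735240) (l 16734568))) (b (c (l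 16741040) (l 16740472)) (l 16722384))) (b (b (l 16731184) (l 16719456)) (c (l 16714072) (l 16713120))))) (b (a (b (c (l 16741608) (l 16738480)) (l 16723272)) (b (l 16713328) (l 16695280))) (a (b (l 16705144) (l 16666048)) (a (l 16675336) (l 16640168))))), by decide +kernel⟩

def k43_pm_011_s : ∃ t, chk3 f_pm_011_s t 13 13 1 = true :=
  ⟨(b (a (b (a (b (a (b (l 16771344) (l 16740792)) (l 16752904)) (a (l 16747536) (l 16712968))) (b (l 1) (l 16714704))) (a (b (l 16721928) (l 16703288)) (b (l 16696032) (l 16656440)))) (b (l 1) (a (l 16663624) (l 1)))) (a (b (a (l 16686448) (l 16649992)) (a (l 16639992) (l 16592632))) (b (a (l 16605832) (l 16607048)) (a (l 16569296) (l 16549216))))), by decide +kernel⟩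

def k44_pm_011_s : ∃ t, chk3 f_pm_011_s t 7 6 1 = true :=
  ⟨(b (l 1) (a (b (l 1) (a (b (l 1) (a (l 16530440) (l 1))) (l 1))) (l 1))), by decide +kernel⟩

def k45_pm_011_s : ∃ t, chk3 f_pm_011_s t 3 7 1 = true :=
  ⟨(a (b (a (b (a (b (a (b (c (l 16721144) (l 16720192)) (l 16698440)) (b (l 16695376) (l 16656320))) (a (b (l 16684384) (l 16645992)) (l 16654784))) (b (a (l 16660064) (l 16632608)) (a (l 16625152) (l 16577352)))) (a (b (a (l 16641928) (l 16596344)) (b (l 16626672) (l 16600640))) (b (a (l 16571056) (l 16544752)) (a (l 16539616) (l 16513800))))) (b (a (b (a (l 16583728) (l 16557320)) (a (l 16549888) (l 16523816))) (b (a (l 16533448) (l 16513080)) (a (l 16499448) (l 16478088)))) (a (b (l 16562120) (l 16494960)) (c (l 16514216) (l 16511768))))) (a (b (a (b (a (l 16557616) (l 16534168)) (b (l 16522336) (l 16506496))) (b (l 16538616) (l 16487952))) (a (b (l 16498672) (a (l 16462424) (l 16440944))) (b (l 16437288) (l 16491664)))) (a (b (l 16503760) (l 16419120)) (b (l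 16420312) (l 16348096))))) (b (a (b (a (b (a (l 16494024) (l 16473992)) (l 16489952)) (b (l 1) (l 16426488))) (a (b (l 16413080) (l 16378984)) (b (l 16370112) (l 16335216)))) (a (b (l 1) (l 16368672)) (l 1))) (a (b (a (l 16331672) (b (l 16301992) (l 16269896))) (a (l 16275128) (l 16226128))) (b (a (l 16281128) (l 16231592)) (a (l 16177920) (l 16128408)))))), by decide +kernel⟩

theorem s46_pm_011_s : ∃ t, chk3 f_pm_011_s t 12 13 1 = true := ex3_b k41_pm_011_s k42_pm_011_s

theorem s47_pm_011_s : ∃ t, chk3 f_pm_011_s t 6 13 1 = true := ex3_a s46_pm_011_s k43_pm_011_s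

theorem s48_pm_011_s : ∃ t, chk3 f_pm_011_s t 6 6 1 = true := ex3_b k40_pm_011_s s47_pm_011_s

theorem s49_pm_011_s : ∃ t, chk3 f_pm_011_s t 3 6 1 = true := ex3_a s48_pm_011_s k44_pm_011_s

theorem s50_pm_011_s : ∃ t, chk3 f_pm_011_s t 3 3 1 = true := ex3_b s49_pm_011_s k45_pm_011_s

theorem s51_pm_011_s : ∃ t, chk3 f_pm_011_s t 45 112 1 = true := ex3_a k33_pm_011_s k34_pm_011_s

theorem s52_pm_011_s : ∃ t, chk3 f_pm_011_s t 45 56 1 = true := ex3_b s51_pm_011_s k35_pm_011_s

theorem s53_pm_011_s : ∃ t, chk3 f_pm_011_s t 22 56 1 = true := ex3_a k32_pm_011_s s52_pm_011_s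

theorem s54_pm_011_s : ∃ t, chk3 f_pm_011_s t 22 28 1 = true := ex3_b s53_pm_011_s k36_pm_011_s

theorem s55_pm_011_s : ∃ t, chk3 f_pm_011_s t 11 28 1 = true := ex3_a s54_pm_011_s k37_pm_011_s

theorem s56_pm_011_s : ∃ t, chk3 f_pm_011_s t 11 14 1 = true := ex3_b s55_pm_011_s k38_pm_011_s

theorem s57_pm_011_s : ∃ t, chk3 f_pm_011_s t 20 29 1 = true := ex3_b k29_pm_011_s k30_pm_011_s

theorem s58_pm_011_s : ∃ t, chk3 f_pm_011_s t 10 29 1 = true := ex3_a s57_pm_011_s k31_pm_011_s

theorem s59_pm_011_s : ∃ t, chk3 f_pm_011_s t 21 57 1 = true := ex3_a k27_pm_011_s k28_pm_011_s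

theorem s60_pm_011_s : ∃ t, chk3 f_pm_011_s t 21 28 1 = true := ex3_b k26_pm_011_s s59_pm_011_s

theorem s61_pm_011_s : ∃ t, chk3 f_pm_011_s t 10 28 1 = true := ex3_a k25_pm_011_s s60_pm_011_s

theorem s62_pm_011_s : ∃ t, chk3 f_pm_011_s t 10 14 1 = true := ex3_b s61_pm_011_s s58_pm_011_s

theorem s63_pm_011_s : ∃ t, chk3 f_pm_011_s t 5 14 1 = true := ex3_a s62_pm_011_s s56_pm_011_s

theorem s64_pm_011_s : ∃ t, chk3 f_pm_011_s t 5 7 1 = true := ex3_b s63_pm_011_s k39_pm_011_s

theorem s65_pm_011_s : ∃ t, chk3 f_pm_011_s t 18 61 1 = true := ex3_a k21_pm_011_s k22_pm_011_s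

theorem s66_pm_011_s : ∃ t, chk3 f_pm_011_s t 18 30 1 = true := ex3_b k20_pm_011_s s65_pm_011_s

theorem s67_pm_011_s : ∃ t, chk3 f_pm_011_s t 9 30 1 = true := ex3_a s66_pm_011_s k23_pm_011_s

theorem s68_pm_011_s : ∃ t, chk3 f_pm_011_s t 9 15 1 = true := ex3_b s67_pm_011_s k24_pm_011_s

theorem s69_pm_011_s : ∃ t, chk3 f_pm_011_s t 34 125 1 = true := ex3_a k16_pm_011_s k17_pm_011_s

theorem s70_pm_011_s : ∃ t, chk3 f_pm_011_s t 34 62 1 = true := ex3_b k15_pm_011_s s69_pm_011_s

theorem s71_pm_011_s : ∃ t, chk3 f_pm_011_s t 17 62 1 = true := ex3_a s70_pm_011_s k18_pm_011_s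

theorem s72_pm_011_s : ∃ t, chk3 f_pm_011_s t 17 31 1 = true := ex3_b s71_pm_011_s k19_pm_011_s

theorem s73_pm_011_s : ∃ t, chk3 f_pm_011_s t 8 31 1 = true := ex3_a k14_pm_011_s s72_pm_011_s

theorem s74_pm_011_s : ∃ t, chk3 f_pm_011_s t 8 15 1 = true := ex3_b k13_pm_011_s s73_pm_011_s

theorem s75_pm_011_s : ∃ t, chk3 f_pm_011_s t 4 15 1 = true := ex3_a s74_pm_011_s s68_pm_011_s

theorem s76_pm_011_s : ∃ t, chk3 f_pm_011_s t 4 7 1 = true := ex3_b k12_pm_011_s s75_pm_011_s

theorem s77_pm_011_s : ∃ t, chk3 f_pm_011_s t 2 7 1 = true := ex3_a s76_pm_011_s s64_pm_011_s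

theorem s78_pm_011_s : ∃ t, chk3 f_pm_011_s t 46 111 1 = true := ex3_a k9_pm_011_s k10_pm_011_s

theorem s79_pm_011_s : ∃ t, chk3 f_pm_011_s t 23 111 1 = true := ex3_a s78_pm_011_s k11_pm_011_s

theorem s80_pm_011_s : ∃ t, chk3 f_pm_011_s t 23 110 1 = true := ex3_a k7_pm_011_s k8_pm_011_s

theorem s81_pm_011_s : ∃ t, chk3 f_pm_011_s t 23 55 1 = true := ex3_b s80_pm_011_s s79_pm_011_s

theorem s82_pm_011_s : ∃ t, chk3 f_pm_011_s t 23 27 1 = true := ex3_b k6_pm_011_s s81_pm_011_s

theorem s83_pm_011_s : ∃ t, chk3 f_pm_011_s t 11 27 1 = true := ex3_a k5_pm_011_s s82_pm_011_s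

theorem s84_pm_011_s : ∃ t, chk3 f_pm_011_s t 11 13 1 = true := ex3_b k4_pm_011_s s83_pm_011_s

theorem s85_pm_011_s : ∃ t, chk3 f_pm_011_s t 5 13 1 = true := ex3_a k3_pm_011_s s84_pm_011_s

theorem s86_pm_011_s : ∃ t, chk3 f_pm_011_s t 5 6 1 = true := ex3_b k2_pm_011_s s85_pm_011_s

theorem s87_pm_011_s : ∃ t, chk3 f_pm_011_s t 2 6 1 = true := ex3_a k1_pm_011_s s86_pm_011_s

theorem s88_pm_011_s : ∃ t, chk3 f_pm_011_s t 2 3 1 = true := ex3_b s87_pm_011_s s77_pm_011_s

theorem s89_pm_011_s : ∃ t, chk3 f_pm_011_s t 1 3 1 = true := ex3_a s88_pm_011_s s50_pm_011_s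

theorem s90_pm_011_s : ∃ t, chk3 f_pm_011_s t 1 1 1 = true := ex3_b k0_pm_011_s s89_pm_011_s

theorem c_pm_011_s : CertNE 0 536870912 536870912 536870912 697932185 42949674 3 eng mog cd0q0 cd7q1 pd1 true true false .pnn 0 1 1
    ndB0q0 ndB7q1 pcB1 cut_pm_011_s Ext.none :=
  certNE1 (fam := true) (s1 := true) (s2 := false) (a := 0) (b := 1) (c := 1) (cn := .pnn) (n1 := ndB0q0) (n2 := ndB7q1) (pc := pcB1) (cut := cut_pm_011_s) (xt := Ext.none) (P1 := 0) (W1 := 536870912) (P2 := 536870912) (W2 := 536870912) (P3 := 697932185) (W3 := 42949674) (N0 := 3) (En := eng) (mo := mog) (C1 := cd0q0) (C2 := cd7q1) (C3 := pd1)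
    rfl (fun _ => rfl) s90_pm_011_s

noncomputable def cut_pm_012_s : Cut := Cut.of [[⟨4, 0, 0, 1449551462⟩], [⟨0, 0, 0, 67108864⟩, ⟨1, 1, 0, 67108864⟩, ⟨2, 1, 0, 67108864⟩]]

noncomputable def f_pm_012_s : ℕ → ℕ → ℕ → ℕ → Bool := onCell 1073741824 536870912 536870912 536870912 697932185 42949674
    (rowNE 3 eng mog cd0q0 cd7q1 pd2 2 true true false .pnp 0 1 2 (qsf 0 536870912 536870912 536870912 2) ndB0q0 ndB7q1 pcB2 cut_pm_012_s Ext.none)

def k0_pm_012_s : ∃ t, chk3 f_pm_012_s t 4 2 1 = true :=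
  ⟨(b (a (b (a (b (l 16056184) (l 16085960)) (l 6)) (a (b (l 16138744) (l 16190824)) (b (l 16046112) (l 16107624)))) (l 6)) (a (b (a (b (l 16308824) (a (l 16315976) (l 16274832))) (b (l 16164488) (l 16213768))) (a (b (b (l 16350224) (l 16372184)) (a (a (l 16460600) (l 16395624)) (b (l 16350256) (l 16371512)))) (b (a (l 16275624) (l 16234424)) (a (l 16357400) (l 16271408))))) (b (a (b (l 16082368) (l 16132360)) (l 6)) (a (b (a (l 16193768) (l 16153416)) (a (l 16228624) (l 16187792))) (b (l 16124432) (a (l 16147648) (l 6))))))), by decide +kernel⟩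

def k1_pm_012_s : ∃ t, chk3 f_pm_012_s t 8 3 1 = true :=
  ⟨(a (b (a (b (b (b (l 16439992) (l 16482880)) (b (l 16526440) (l 16507976))) (b (b (l 16531424) (l 16554648)) (b (l 16576800) (l 16597840)))) (b (b (b (l 16392112) (l 16412840)) (b (l 16433592) (l 16455048))) (b (b (l 16498256) (l 16541344)) (c (l 16533312) (l 16530080))))) (b (b (a (b (l 16638944) (a (l 16649392) (l 16622848))) (b (a (l 16575568) (l 16547512)) (a (l 16594280) (l 16565880)))) (a (b (a (l 16667984) (l 16641328)) (a (a (l 16690440) (l 16681568)) (l 16659288))) (b (a (l 16612272) (l 16583440)) (a (l 16650736) (l 16600480))))) (b (b (a (a (a (b (l 16704056) (l 14)) (l 16699184)) (b (l 16672344) (l 16680768))) (a (a (l 16654096) (l 16639128)) (l 16637800))) (b (a (a (l 14) (l 16688912)) (a (l 16679608) (l 16628544))) (a (l 14) (a (l 16676768) (l 16635992))))) (a (l 14) (b (a (l 14) (b (l 16664072) (l 14))) (l 14)))))) (b (b (b (a (b (l 16345544) (l 16364984)) (l 16371632)) (a (b (l 16384576) (l 16404184))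 (l 16409040))) (a (b (b (l 16424360) (l 16445248)) (b (l 16465968) (l 16486376))) (b (l 16466888) (b (l 16411936) (l 16431192))))) (b (b (a (b (l 16505576) (l 16523544)) (b (l 16450088) (l 16467712))) (a (b (l 16561592) (a (l 16571392) (l 16542520))) (b (l 16484152) (l 16520704)))) (b (a (b (a (l 16587256) (l 16557896)) (a (b (l 16598584) (l 16605832)) (l 16572376))) (b (l 16545816) (a (l 16542776) (l 16513448)))) (a (b (a (b (l 16612736) (l 16619264)) (b (l 16582512) (l 16588824))) (b (a (l 14) (l 16615688)) (l 14))) (b (a (b (l 16552504) (l 16558600)) (l 16546704)) (b (a (l 16564272) (l 16534040)) (a (b (l 16568232) (l 14)) (l 16560000))))))))), by decide +kernel⟩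

def k2_pm_012_s : ∃ t, chk3 f_pm_012_s t 9 3 1 = true :=
  ⟨(b (b (b (a (a (l 16263832) (l 16220184)) (a (l 16177976) (l 16137960))) (a (b (l 16351320) (l 16368320)) (a (l 16209072) (l 16166320)))) (a (a (b (l 16375576) (b (l 16359384) (l 16377376))) (b (l 16285888) (l 16338120))) (b (a (l 16239448) (l 16194704)) (a (l 16268504) (l 16221664))))) (b (b (a (a (b (l 16395104) (l 16412400)) (l 16433520)) (a (b (l 16289704) (l 16304480)) (l 16288584))) (a (a (b (l 16428472) (l 16443392)) (b (l 16373392) (l 16387912))) (a (b (l 16318960) (l 16333072)) (b (l 16266112) (l 16278920))))) (a (b (b (a (l 16478224) (l 16401072)) (a (a (l 16484360) (l 16455568)) (l 16433896))) (b (a (b (l 16478664) (l 16505032)) (b (l 16420840) (l 16425688))) (a (b (a (l 16503992) (l 16474248)) (a (l 16508744) (l 16478696))) (b (l 16451104) (a (l 16448952) (l 16419464)))))) (b (a (b (l 16345776) (l 16356864)) (b (l 16291120) (l 16301664))) (b (a (b (l 16364152) (l 16368464)) (a (l 16324304) (l 16296520)))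 (a (b (l 16372304) (a (l 16390272) (l 16361336))) (a (l 16352232) (l 16323928)))))))), by decide +kernel⟩

def k3_pm_012_s : ∃ t, chk3 f_pm_012_s t 5 1 1 = true :=
  ⟨(b (b (l 6) (l 6)) (b (a (b (a (a (b (l 6) (l 16125288)) (l 6)) (l 6)) (b (a (a (l 16151704) (a (l 16120536) (l 6))) (l 6)) (a (a (l 16176312) (a (l 16144080) (a (l 16128152) (l 16117832)))) (a (l 16091968) (l 6))))) (l 6)) (b (a (b (a (a (l 16219896) (a (l 16164424) (a (l 16147600) (l 16220352)))) (a (l 16109192) (l 6))) (a (a (b (l 16215000) (l 16226328)) (a (l 16183128) (a (l 16164816) (a (l 16155624) (l 16149336))))) (a (b (l 16120352) (l 16126824)) (l 16078880)))) (l 6)) (a (b (a (a (b (l 16237104) (l 16247008)) (a (b (l 16197464) (l 16206288)) (a (l 16181976) (a (l 16171696) (b (l 16160632) (l 16167776)))))) (a (b (l 16133160) (l 16139312)) (b (l 16085088) (l 16088648)))) (a (a (b (l 16296880) (a (l 16274824) (l 16246816))) (a (b (l 16213624) (l 16218640)) (a (b (l 16192704) (l 16197216)) (a (b (l 16181728)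 (l 16185856)) (b (l 16173768) (c (l 16212064) (l 16163440))))))) (a (b (a (l 16157216) (l 16131360)) (a (l 16160744) (l 16134384))) (b (l 16091768) (b (l 16093096) (l 16093512)))))) (a (a (b (b (l 6) (l 16040512)) (b (l 16040912) (b (l 16040632) (l 16040200)))) (l 6)) (l 6)))))), by decide +kernel⟩

def k4_pm_012_s : ∃ t, chk3 f_pm_012_s t 3 1 1 = true :=
  ⟨(b (l 6) (l 6)), by decide +kernel⟩

theorem s5_pm_012_s : ∃ t, chk3 f_pm_012_s t 4 3 1 = true := ex3_a k1_pm_012_s k2_pm_012_s

theorem s6_pm_012_s : ∃ t, chk3 f_pm_012_s t 4 1 1 = true := ex3_b k0_pm_012_s s5_pm_012_s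

theorem s7_pm_012_s : ∃ t, chk3 f_pm_012_s t 2 1 1 = true := ex3_a s6_pm_012_s k3_pm_012_s

theorem s8_pm_012_s : ∃ t, chk3 f_pm_012_s t 1 1 1 = true := ex3_a s7_pm_012_s k4_pm_012_s

theorem c_pm_012_s : CertNE 0 536870912 536870912 536870912 697932185 42949674 3 eng mog cd0q0 cd7q1 pd2 true true false .pnp 0 1 2
    ndB0q0 ndB7q1 pcB2 cut_pm_012_s Ext.none :=
  certNE2 (fam := true) (s1 := true) (s2 := false) (a := 0) (b := 1) (c := 2) (cn := .pnp) (n1 := ndB0q0) (n2 := ndB7q1) (pc := pcB2) (cut := cut_pm_012_s) (xt := Ext.none) (P1 := 0) (W1 := 536870912) (P2 := 536870912) (W2 := 536870912) (P3 := 697932185) (W3 := 42949674) (N0 := 3) (En := eng) (mo := mog) (C1 := cd0q0) (C2 := cd7q1) (C3 := pd2)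
    rfl (fun _ => rfl) s8_pm_012_s

noncomputable def cut_pm_022_s : Cut := Cut.of [[⟨4, 0, 0, 1449551462⟩], [⟨0, 0, 0, 67108864⟩, ⟨1, 1, 0, 67108864⟩, ⟨2, 1, 0, 67108864⟩]]

noncomputable def f_pm_022_s : ℕ → ℕ → ℕ → ℕ → Bool := onCell 1073741824 536870912 1073741824 536870912 697932185 42949674
    (rowNE 3 eng mog cd0q0 cd7q2 pd2 2 true true false .pp 0 2 2 (qsf 0 536870912 1073741824 536870912 2) ndB0q0 ndB7q2 pcB2 cut_pm_022_s Ext.none)

def k0_pm_022_s : ∃ t, chk3 f_pm_022_s t 4 2 1 = true :=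
  ⟨(a (b (b (a (b (l 14) (b (l 14) (l 1))) (b (a (l 14) (a (l 14) (b (b (l 16550464) (l 16568064)) (b (l 16584864) (l 16601032))))) (a (b (l 14) (a (l 1) (l 648036548151))) (a (b (l 14) (b (l 14) (l 542809818615))) (b (b (l 16616520) (l 16631480)) (b (l 16645936) (l 477311482839))))))) (a (l 1) (b (b (a (l 1) (a (l 1) (l 654478932071))) (l 1)) (l 1)))) (l 1)) (b (b (a (b (a (b (b (a (l 16520136) (l 16490032)) (a (l 16537888) (l 16507928))) (b (l 16560832) (a (l 16570992) (l 16541240)))) (b (b (a (l 16460176) (l 16430584)) (a (l 16478208) (l 16448688))) (b (l 16480656) (l 16497112)))) (a (b (a (l 16615072) (l 16564520)) (a (l 16622984) (l 16593424))) (b (a (l 16535176) (l 16505984)) (a (l 16564224) (l 16535248))))) (b (a (a (b (l 16436696) (l 16445336)) (b (l 16381488) (l 16416464))) (b (a (l 16352736) (l 16324232)) (a (l 16387888) (l 16359544)))) (a (b (a (l 16477048) (l 16448496)) (l 16513272)) (b (l 16426912) (a (l 16449600) (l 16421424)))))) (a (b (a (b (a (l 505228718055)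 (l 149820157095)) (l 650183911879)) (b (l 16576720) (a (l 497712435495) (l 16584976)))) (a (l 1) (b (l 641057040087) (l 1)))) (a (b (b (l 16561536) (l 16544992)) (b (l 292627789015) (l 644278200039))) (b (b (l 16484288) (l 16530992)) (b (l 16512968) (l 263099811799)))))) (a (l 1) (b (b (a (l 1) (l 628171997047)) (l 1)) (l 1))))), by decide +kernel⟩

def k1_pm_022_s : ∃ t, chk3 f_pm_022_s t 5 4 1 = true :=
  ⟨(a (a (b (b (a (b (a (l 16295960) (l 16267768)) (a (l 16331400) (l 16303384))) (a (b (l 16239448) (l 16275272)) (b (a (l 16217904) (a (l 16206376) (b (l 16209176) (l 16207128)))) (a (l 16253840) (a (l 16242352) (l 16233736)))))) (a (b (l 16349736) (l 16379600)) (a (b (l 16307944) (l 16337904)) (a (l 16301848) (a (l 16290336) (b (l 16266400) (l 16296304))))))) (a (b (a (l 16497624) (b (l 16393216) (l 16419544))) (b (l 16499704) (l 16480160))) (a (b (b (l 16365432) (l 16391080)) (b (l 16415840) (l 16438808))) (a (b (l 16356856) (l 16405760)) (a (b (l 16345456) (l 16414432))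 (b (l 16357600) (b (c (l 16461312) (l 16429256)) (l 16457864)))))))) (b (b (a (b (a (l 16181024) (l 16154672)) (a (l 16217184) (l 16191232))) (b (b (l 16103848) (l 16123576)) (l 16151280))) (a (b (l 16237072) (l 16267088)) (b (l 16185024) (l 16215744)))) (a (b (b (l 16294648) (l 16320024)) (b (l 16343256) (l 16365664))) (b (l 16257024) (l 16367752))))) (b (b (a (b (a (b (l 16050256) (l 16070536)) (b (l 15999664) (l 16020224))) (a (l 16099208) (l 16049368))) (l 6)) (a (b (a (l 16134096) (l 16085320)) (l 16141520)) (b (l 6) (l 16050360)))) (b (a (b (l 16170896) (l 16197872)) (b (l 16081344) (l 16109640))) (a (b (l 16222736) (l 16245616)) (l 16168968))))), by decide +kernel⟩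

def k2_pm_022_s : ∃ t, chk3 f_pm_022_s t 5 5 1 = true :=
  ⟨(b (a (a (a (b (b (l 243235616183) (l 573948014359)) (l 1)) (a (b (l 107407121335) (l 1)) (a (b (l 16447792) (l 1)) (a (b (l 16435912) (l 1)) (b (a (b (l 16418208) (l 16437616)) (l 16424568)) (l 289943354583)))))) (a (b (l 16397672) (l 198675114471)) (b (l 16348552) (l 16384408)))) (b (a (l 16383656) (b (l 16182040) (l 16203416))) (a (l 16316168) (l 16231992)))) (a (a (l 1) (b (l 534756225735) (l 1))) (a (b (l 104722803927) (l 472479238551)) (b (l 16262192) (l 16281760))))), by decide +kernel⟩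

def k3_pm_022_s : ∃ t, chk3 f_pm_022_s t 3 2 1 = true :=
  ⟨(a (a (b (l 6) (a (b (b (l 16116544) (l 16156176)) (b (l 16188168) (l 16210680))) (l 6))) (l 6)) (l 6)), by decide +kernel⟩

def k4_pm_022_s : ∃ t, chk3 f_pm_022_s t 1 3 1 = true :=
  ⟨(a (a (l 1) (b (a (l 1) (b (b (a (l 1) (l 498248885911)) (l 1)) (l 1))) (l 1))) (a (a (b (b (a (b (l 16282360) (l 544956446663)) (b (l 16162040) (l 16149840))) (b (a (l 1) (l 434897806087)) (l 1))) (l 1)) (a (b (l 6) (l 1)) (l 6))) (l 6))), by decide +kernel⟩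

theorem s5_pm_022_s : ∃ t, chk3 f_pm_022_s t 5 2 1 = true := ex3_b k1_pm_022_s k2_pm_022_s

theorem s6_pm_022_s : ∃ t, chk3 f_pm_022_s t 2 2 1 = true := ex3_a k0_pm_022_s s5_pm_022_s

theorem s7_pm_022_s : ∃ t, chk3 f_pm_022_s t 1 2 1 = true := ex3_a s6_pm_022_s k3_pm_022_s

theorem s8_pm_022_s : ∃ t, chk3 f_pm_022_s t 1 1 1 = true := ex3_b s7_pm_022_s k4_pm_022_s

theorem c_pm_022_s : CertNE 0 536870912 1073741824 536870912 697932185 42949674 3 eng mog cd0q0 cd7q2 pd2 true true false .pp 0 2 2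
    ndB0q0 ndB7q2 pcB2 cut_pm_022_s Ext.none :=
  certNE2 (fam := true) (s1 := true) (s2 := false) (a := 0) (b := 2) (c := 2) (cn := .pp) (n1 := ndB0q0) (n2 := ndB7q2) (pc := pcB2) (cut := cut_pm_022_s) (xt := Ext.none) (P1 := 0) (W1 := 536870912) (P2 := 1073741824) (W2 := 536870912) (P3 := 697932185) (W3 := 42949674) (N0 := 3) (En := eng) (mo := mog) (C1 := cd0q0) (C2 := cd7q2) (C3 := pd2)
    rfl (fun _ => rfl) s8_pm_022_s

noncomputable def cut_pm_023_s : Cut := Cut.of [[⟨4, 0, 0, 1449551462⟩]]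

noncomputable def f_pm_023_s : ℕ → ℕ → ℕ → ℕ → Bool := onCell 1610612736 536870912 1073741824 536870912 697932185 42949674
    (rowNE 3 eng mog cd0q0 cd7q2 pd3 2 true true false .up 0 2 3 (qsf 0 536870912 1073741824 536870912 3) ndB0q0 ndB7q2 pcB3 cut_pm_023_s Ext.none)

def k0_pm_023_s : ∃ t, chk3 f_pm_023_s t 1 1 1 = true :=
  ⟨(a (l 6) (l 6)), by decide +kernel⟩

theorem c_pm_023_s : CertNE 0 536870912 1073741824 536870912 697932185 42949674 3 eng mog cd0q0 cd7q2 pd3 true true false .up 0 2 3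
    ndB0q0 ndB7q2 pcB3 cut_pm_023_s Ext.none :=
  certNE2 (fam := true) (s1 := true) (s2 := false) (a := 0) (b := 2) (c := 3) (cn := .up) (n1 := ndB0q0) (n2 := ndB7q2) (pc := pcB3) (cut := cut_pm_023_s) (xt := Ext.none) (P1 := 0) (W1 := 536870912) (P2 := 1073741824) (W2 := 536870912) (P3 := 697932185) (W3 := 42949674) (N0 := 3) (En := eng) (mo := mog) (C1 := cd0q0) (C2 := cd7q2) (C3 := pd3)
    rfl (fun _ => rfl) k0_pm_023_s

noncomputable def cut_pm_033_s : Cut := Cut.of [[⟨4, 0, 0, 1449551462⟩]]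

noncomputable def f_pm_033_s : ℕ → ℕ → ℕ → ℕ → Bool := onCell 1610612736 536870912 0 1230186008 697932185 42949674
    (rowNE 3 eng mog cd0q0 cd7q3 pd3 2 true true false .pnn 0 3 3 (qsf 0 536870912 0 1230186008 3) ndB0q0 ndB7q3 pcB3 cut_pm_033_s Ext.none)

def k0_pm_033_s : ∃ t, chk3 f_pm_033_s t 1 1 1 = true :=
  ⟨(b (l 6) (l 6)), by decide +kernel⟩

theorem c_pm_033_s : CertNE 0 536870912 0 1230186008 697932185 42949674 3 eng mog cd0q0 cd7q3 pd3 true true false .pnn 0 3 3
    ndB0q0 ndB7q3 pcB3 cut_pm_033_s Ext.none :=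
  certNE2 (fam := true) (s1 := true) (s2 := false) (a := 0) (b := 3) (c := 3) (cn := .pnn) (n1 := ndB0q0) (n2 := ndB7q3) (pc := pcB3) (cut := cut_pm_033_s) (xt := Ext.none) (P1 := 0) (W1 := 536870912) (P2 := 0) (W2 := 1230186008) (P3 := 697932185) (W3 := 42949674) (N0 := 3) (En := eng) (mo := mog) (C1 := cd0q0) (C2 := cd7q3) (C3 := pd3)
    rfl (fun _ => rfl) k0_pm_033_s

noncomputable def cut_pm_101_s : Cut := Cut.of [[⟨4, 0, 0, 1449551462⟩]]

noncomputable def f_pm_101_s : ℕ → ℕ → ℕ → ℕ → Bool := onCell 536870912 536870912 536870912 536870912 697932185 42949674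
    (rowNE 3 eng mog cd0q1 cd7q0 pd1 1 true true false .npn 1 0 1 (qsf 536870912 536870912 0 536870912 1) ndB0q1 ndB7q0 pcB1 cut_pm_101_s Ext.none)

def k0_pm_101_s : ∃ t, chk3 f_pm_101_s t 4 8 1 = true :=
  ⟨(a (l 3) (a (a (l 3) (l 1)) (l 1))), by decide +kernel⟩

def k1_pm_101_s : ∃ t, chk3 f_pm_101_s t 8 18 1 = true :=
  ⟨(a (l 3) (b (l 3) (a (l 3) (b (l 3) (a (l 3) (b (l 3) (a (l 3) (b (l 3) (a (l 3) (a (a (l 523080039191) (b (l 3) (a (l 377588020551) (l 219747972807)))) (b (a (l 497310236023) (a (l 384567342375) (l 224042940135))) (l 16776592)))))))))))), by decide +kernel⟩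

def k2_pm_101_s : ∃ t, chk3 f_pm_101_s t 16 19 1 = true :=
  ⟨(b (l 3) (a (l 3) (b (l 3) (a (l 3) (b (l 3) (a (l 3) (b (a (l 3) (c (l 448454982295) (b (l 3) (l 410874016375)))) (b (a (l 3) (a (l 319605959831) (l 16776432))) (a (c (l 393694150055) (l 392620405527)) (l 16775936)))))))))), by decide +kernel⟩

def k3_pm_101_s : ∃ t, chk3 f_pm_101_s t 34 38 1 = true :=
  ⟨(b (l 3) (a (l 3) (b (l 3) (a (l 3) (b (a (l 3) (c (l 532743714631) (l 534354327079))) (a (c (l 530059360151) (l 531669972615)) (a (b (l 525227523031) (a (a (l 396378503703) (l 313163510583)) (l 126869305815))) (b (a (a (l 410874018279) (l 328732767543)) (l 139217336695)) (l 16776200))))))))), by decide +kernel⟩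

def k4_pm_101_s : ∃ t, chk3 f_pm_101_s t 35 38 1 = true :=
  ⟨(b (a (b (l 3) (a (l 3) (b (l 3) (a (l 3) (a (b (l 3) (b (l 432885725543) (a (l 342154540615) (l 16776848)))) (b (b (l 441475660087) (a (l 343765153303) (l 16776872))) (l 16776432))))))) (b (a (b (l 3) (a (l 3) (a (b (l 3) (a (l 463487368711) (a (l 342154540151) (l 188072589367)))) (b (a (l 471003561447) (a (l 344302023767) (l 196125653079))) (l 16776520))))) (b (a (a (b (l 3) (a (l 478519754183) (a (l 343228281831) (l 204178716631)))) (b (a (l 484962205095) (a (l 343228281719) (l 211158038359))) (l 16776560))) (c (l 16775808) (l 16776952))) (a (c (l 16775776) (l 16776912)) (l 16774000)))) (a (b (b (a (a (l 3) (a (l 455971174663) (a (l 343765153031) (l 179482654903)))) (l 16776736)) (a (a (a (l 447381240103) (a (l 335712089399) (l 170892720343))) (l 16776480)) (l 16775208))) (c (l 16774888) (l 16776896))) (l 16777480)))) (a (b (a (b (l 3) (b (a (l 3) (a (l 535964941111) (c (l 330880249575) (a (l 402820953271) (l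 183777621751))))) (a (l 534891198695) (a (c (l 322827186007) (a (l 392083535079) (l 174113945447))) (l 16776320))))) (b (a (a (b (l 3) (c (l 337859571479) (a (l 413021500551) (l 193441298055)))) (b (c (l 339470183927) (a (l 422685179543) (l 202568103447))) (l 16776376))) (l 16776856)) (a (l 16776792) (l 16773784)))) (a (b (a (a (b (l 531133102983) (b (a (l 519321943575) (l 219747973319)) (l 146196658423))) (b (c (l 314237251543) (a (l 380809245975) (l 162302785575))) (l 16776264))) (l 16776736)) (a (l 16776664) (l 16773648))) (l 16777216))) (b (a (l 16777360) (l 16768728)) (l 16766872)))), by decide +kernel⟩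

def k5_pm_101_s : ∃ t, chk3 f_pm_101_s t 17 39 1 = true :=
  ⟨(a (b (a (b (l 3) (a (l 3) (b (a (l 3) (c (l 516637587639) (b (l 3) (a (l 3) (l 465634850823))))) (a (a (l 3) (a (l 536501811687) (b (l 3) (b (l 535964941735) (l 311552899047))))) (c (b (a (l 449528724919) (l 16776808)) (l 16776360)) (b (a (c (l 453286821239) (l 455971174455)) (b (l 204178716311) (l 16776536))) (a (a (l 188072589015) (l 16776504)) (l 16775808)))))))) (b (a (b (a (l 3) (c (l 526838134775) (b (l 3) (l 525227522471)))) (a (c (l 523616909399) (b (l 3) (a (l 3) (l 487646559399)))) (c (b (a (l 492478397655) (l 197199393543)) (l 130627400567)) (b (a (l 498383977591) (b (l 325511541655) (l 16776696))) (a (a (l 307257930151) (l 16776672)) (l 16775984)))))) (b (a (a (b (l 515026975799) (a (b (l 444696887015) (l 16776976)) (l 16776768))) (b (a (b (l 464024239783) (l 16777008)) (l 113984404103)) (l 16776128))) (l 16777904)) (l 16776640))) (a (b (a (a (b (b (l 3) (l 439328176455)) (a (b (l 343765153335) (l 16776832))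 (l 16776624))) (a (b (b (l 343228282279) (l 16776872)) (l 16776192)) (l 16777520))) (l 16775128)) (l 16776136)) (l 16771616)))) (a (b (a (b (a (l 3) (c (l 473687914903) (b (l 3) (a (l 3) (l 393157276663))))) (b (a (l 3) (a (a (l 512879492407) (l 321753444823)) (l 16776288))) (a (a (l 3) (l 367924343975)) (l 16776792)))) (b (a (a (b (b (l 532206845095) (l 354502571303)) (a (l 151028496503) (l 16776456))) (c (l 16776304) (b (c (l 16776688) (l 129553659863)) (l 16775720)))) (l 16774944)) (l 16775280))) (a (b (a (a (b (l 355039442151) (l 16776480)) (l 16776064)) (l 16774744)) (l 16773744)) (l 16771160))) (b (l 16774904) (l 16765920)))) (b (a (b (a (l 16777048) (l 16768384)) (l 16766456)) (l 16761448)) (a (l 16760888) (l 16754048)))), by decide +kernel⟩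

def k6_pm_101_s : ∃ t, chk3 f_pm_101_s t 18 36 1 = true :=
  ⟨(a (b (l 3) (a (l 3) (b (l 3) (a (l 3) (b (l 3) (a (l 3) (a (c (l 472077302775) (b (l 3) (c (l 427517017623) (l 429127627719)))) (a (b (l 530596232407) (l 145659787383)) (a (l 237867363111) (l 186327757799)))))))))) (b (l 1) (a (a (b (l 1) (b (l 1) (b (l 1) (l 16774648)))) (l 1)) (l 1)))), by decide +kernel⟩

def k7_pm_101_s : ∃ t, chk3 f_pm_101_s t 36 74 1 = true :=
  ⟨(a (b (l 3) (a (l 3) (b (l 3) (a (l 3) (c (b (l 466708593687) (a (l 414095244919) (l 16776712))) (b (a (l 3) (c (l 419463953991) (l 421074564071))) (a (c (l 416779599447) (l 418927080439)) (l 103783856359)))))))) (b (a (b (l 3) (a (l 3) (c (b (l 471003560951) (a (l 421611437655) (l 16776736))) (b (a (l 3) (c (l 425369533991) (l 427517014983))) (a (c (l 424295792167) (l 425906402263)) (l 109152565415)))))) (b (a (c (b (l 472077302775) (a (l 423758921287) (l 16776744))) (b (a (l 3) (c (l 426980146711) (l 428590756807))) (a (c (l 426443275815) (l 428053885895))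 (l 110226307255)))) (c (l 16775960) (b (a (l 110226307255) (l 16775816)) (l 16775368)))) (a (c (l 16775952) (b (a (l 109689436327) (l 16775808)) (l 16775360))) (l 16774208)))) (a (b (a (c (b (l 469392948231) (a (l 418390212199) (l 16776728))) (b (a (l 3) (c (l 423222050359) (l 424832660439))) (a (c (l 421074566711) (l 423222047719)) (l 107005081831)))) (c (l 16775944) (b (a (l 108078823575) (l 16775800)) (l 16775352)))) (a (c (l 16775936) (b (a (l 105394469079) (l 16775784)) (l 16775336))) (l 16774184))) (l 16777760)))), by decide +kernel⟩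

def k8_pm_101_s : ∃ t, chk3 f_pm_101_s t 36 75 1 = true :=
  ⟨(a (b (a (b (l 3) (a (l 3) (a (a (l 526838135495) (b (l 3) (a (l 403357826855) (l 310479156711)))) (b (a (l 518248201511) (a (l 408189665047) (l 314237253111))) (l 92509567399))))) (b (a (c (b (l 463487368231) (a (l 409263406743) (l 16776696))) (b (a (l 3) (c (l 414632115815) (l 416242725895))) (a (a (l 523616910583) (l 358797538679)) (l 16776312)))) (c (l 16775920) (b (l 67276634311) (l 16775320)))) (a (c (l 16775896) (b (l 63518538055) (l 16775288))) (l 16774144)))) (a (b (b (a (a (l 3) (a (l 508584525143) (a (l 397452244215) (l 303499834999)))) (c (l 16776272) (l 16776488))) (a (a (a (l 503215816039) (a (l 391009793303) (l 231022261847))) (l 84993374791)) (l 16775368))) (a (c (l 16775840) (l 38822476391)) (l 16774080))) (l 16777664))) (b (a (l 16777720) (l 16769128)) (l 16767384))), by decide +kernel⟩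

def k9_pm_101_s : ∃ t, chk3 f_pm_101_s t 37 37 1 = true :=
  ⟨(b (a (b (a (l 16777792) (l 16769256)) (l 16767496)) (l 16762696)) (l 16780000)), by decide +kernel⟩

def k10_pm_101_s : ∃ t, chk3 f_pm_101_s t 19 18 1 = true :=
  ⟨(b (l 1) (a (l 16749808) (l 1))), by decide +kernel⟩

def k11_pm_101_s : ∃ t, chk3 f_pm_101_s t 9 19 1 = true :=
  ⟨(a (b (a (b (a (b (a (l 16777584) (l 16768976)) (l 16767168)) (l 16762184)) (l 16779456)) (b (l 16752064) (l 16745000))) (a (b (l 16751272) (l 16743848)) (l 16734048))) (b (a (l 16735192) (l 16722688)) (l 16734672))), by decide +kernel⟩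

def k12_pm_101_s : ∃ t, chk3 f_pm_101_s t 5 4 1 = true :=
  ⟨(b (l 1) (a (b (l 1) (a (b (l 1) (l 121366322935)) (l 1))) (l 1))), by decide +kernel⟩

def k13_pm_101_s : ∃ t, chk3 f_pm_101_s t 8 20 1 = true :=
  ⟨(a (b (a (b (l 3) (a (l 3) (b (l 3) (a (b (l 3) (l 530059358167)) (b (a (l 3) (a (l 412484631719) (l 217600485063))) (a (a (l 388325440903) (l 193441294567)) (l 16775296))))))) (b (a (b (l 3) (a (l 3) (b (a (l 3) (a (l 497310235095) (l 335712086743))) (a (a (l 477446011511) (l 316384734007)) (l 89825210503))))) (b (a (b (a (l 3) (c (l 418390206263) (b (l 539186165799) (l 371145566599)))) (a (b (l 509658265879) (l 351818213959)) (c (l 126869302615) (b (l 178408910439) (l 16775616))))) (b (a (c (l 147270396903) (b (l 196125650263) (l 16775744))) (l 16774512)) (l 16773496))) (a (b (a (c (l 16776104) (l 103246982983)) (l 16774248)) (l 16778424)) (l 16770576)))) (a (b (a (b (a (l 3) (a (l 456508046119) (l 315310990071))) (a (a (l 434496338919) (l 297594250391)) (l 16775624)))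 (b (a (l 16775768) (l 16773928)) (l 16772816))) (a (b (l 16777136) (l 16772424)) (l 16769720))) (a (l 16778608) (l 16764520))))) (a (b (a (b (a (l 3) (b (l 3) (l 524153778487))) (a (c (l 526301261287) (l 522006294791)) (b (a (l 503752685463) (a (l 317458472887) (l 16776240))) (a (c (l 193441292519) (l 194515034631)) (l 16774536))))) (b (a (b (a (l 524153779687) (a (l 363092503015) (l 167134620567))) (a (c (l 295983634135) (l 291688667095)) (l 16774936))) (l 16775696)) (a (l 16775256) (l 16768704)))) (a (b (a (b (a (l 460266142071) (c (l 169818973287) (l 170892715143))) (a (c (l 145122912119) (l 145659783159)) (l 16774096))) (l 16772152)) (a (l 16771632) (l 16767512))) (l 16774320))) (b (a (c (l 16776256) (l 16775040)) (l 16757824)) (a (l 16756168) (l 16748872))))) (b (a (b (a (b (l 16776984) (l 16765240)) (b (l 16762120) (l 16758224))) (a (l 16759184) (l 16752160))) (b (a (l 16753248) (l 16746392)) (l 16741752))) (a (b (l 16768128) (l 16738240)) (l 16728872)))), by decide +kernel⟩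

def k14_pm_101_s : ∃ t, chk3 f_pm_101_s t 8 21 1 = true :=
  ⟨(a (b (a (b (a (l 16772800) (l 16754304)) (l 16769112)) (b (l 16743000) (l 16733048))) (a (b (l 16737536) (l 16726520)) (l 16738192))) (b (a (l 16723976) (l 16710336)) (a (l 16703528) (l 16690256)))), by decide +kernel⟩

def k15_pm_101_s : ∃ t, chk3 f_pm_101_s t 9 10 1 = true :=
  ⟨(b (a (b (a (l 16753104) (l 16718608)) (l 16750360)) (b (l 16698048) (l 16680880))) (a (b (l 16690160) (l 16691096)) (b (l 16663648) (l 16645224)))), by decide +kernel⟩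

def k16_pm_101_s : ∃ t, chk3 f_pm_101_s t 4 11 1 = true :=
  ⟨(a (b (a (b (a (l 16730144) (l 16694824)) (a (l 16684464) (l 16670616))) (b (l 16716920) (a (l 16657960) (l 16645368)))) (a (b (a (l 16657488) (l 16644232)) (a (l 16627984) (l 16615000))) (a (b (l 16631896) (l 16604088)) (l 16649192)))) (a (b (b (l 16691488) (l 16627712)) (l 16589520)) (a (l 16596704) (l 16584656)))), by decide +kernel⟩

def k17_pm_101_s : ∃ t, chk3 f_pm_101_s t 5 5 1 = true :=
  ⟨(b (a (a (b (a (l 16669496) (l 16656104)) (l 16626688)) (l 102575793367)) (a (l 16612912) (l 1))) (a (a (l 16607120) (l 16535992)) (a (l 16504872) (l 16477352)))), by decide +kernel⟩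

def k18_pm_101_s : ∃ t, chk3 f_pm_101_s t 3 2 1 = true :=
  ⟨(a (b (l 1) (a (b (l 1) (a (l 16456008) (l 1))) (l 1))) (l 1)), by decide +kernel⟩

def k19_pm_101_s : ∃ t, chk3 f_pm_101_s t 1 3 1 = true :=
  ⟨(a (b (a (b (a (b (a (b (a (l 16595040) (l 16583592)) (l 16553920)) (l 16550704)) (a (l 16533688) (l 16476208))) (a (b (l 16531568) (l 16461952)) (l 16626464))) (b (a (a (l 16410296) (l 16381448)) (a (l 16374512) (l 16366472))) (a (a (l 16313568) (l 16269400)) (l 16290976)))) (a (b (a (l 16460224) (l 16436176)) (a (l 16312424) (b (l 16338616) (l 16258808)))) (b (a (l 16408472) (l 16379672)) (a (b (l 6) (l 6)) (l 6))))) (a (a (b (a (b (l 16254936) (l 16237840)) (b (l 16189680) (l 16134640))) (a (b (l 16158808) (l 16077456)) (b (l 16079968) (l 16027024)))) (b (a (l 16131472) (l 16098352)) (a (b (l 16014448) (l 6)) (l 6)))) (a (a (b (l 16193360) (l 6)) (l 6)) (l 6)))) (a (b (a (l 6) (l 6)) (l 6)) (l 6))), by decide +kernel⟩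

theorem s20_pm_101_s : ∃ t, chk3 f_pm_101_s t 8 10 1 = true := ex3_b k13_pm_101_s k14_pm_101_s

theorem s21_pm_101_s : ∃ t, chk3 f_pm_101_s t 4 10 1 = true := ex3_a s20_pm_101_s k15_pm_101_s

theorem s22_pm_101_s : ∃ t, chk3 f_pm_101_s t 4 5 1 = true := ex3_b s21_pm_101_s k16_pm_101_s

theorem s23_pm_101_s : ∃ t, chk3 f_pm_101_s t 2 5 1 = true := ex3_a s22_pm_101_s k17_pm_101_s

theorem s24_pm_101_s : ∃ t, chk3 f_pm_101_s t 36 37 1 = true := ex3_b k7_pm_101_s k8_pm_101_s

theorem s25_pm_101_s : ∃ t, chk3 f_pm_101_s t 18 37 1 = true := ex3_a s24_pm_101_s k9_pm_101_s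

theorem s26_pm_101_s : ∃ t, chk3 f_pm_101_s t 18 18 1 = true := ex3_b k6_pm_101_s s25_pm_101_s

theorem s27_pm_101_s : ∃ t, chk3 f_pm_101_s t 9 18 1 = true := ex3_a s26_pm_101_s k10_pm_101_s

theorem s28_pm_101_s : ∃ t, chk3 f_pm_101_s t 9 9 1 = true := ex3_b s27_pm_101_s k11_pm_101_s

theorem s29_pm_101_s : ∃ t, chk3 f_pm_101_s t 17 38 1 = true := ex3_a k3_pm_101_s k4_pm_101_s

theorem s30_pm_101_s : ∃ t, chk3 f_pm_101_s t 17 19 1 = true := ex3_b s29_pm_101_s k5_pm_101_s

theorem s31_pm_101_s : ∃ t, chk3 f_pm_101_s t 8 19 1 = true := ex3_a k2_pm_101_s s30_pm_101_s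

theorem s32_pm_101_s : ∃ t, chk3 f_pm_101_s t 8 9 1 = true := ex3_b k1_pm_101_s s31_pm_101_s

theorem s33_pm_101_s : ∃ t, chk3 f_pm_101_s t 4 9 1 = true := ex3_a s32_pm_101_s s28_pm_101_s

theorem s34_pm_101_s : ∃ t, chk3 f_pm_101_s t 4 4 1 = true := ex3_b k0_pm_101_s s33_pm_101_s

theorem s35_pm_101_s : ∃ t, chk3 f_pm_101_s t 2 4 1 = true := ex3_a s34_pm_101_s k12_pm_101_s

theorem s36_pm_101_s : ∃ t, chk3 f_pm_101_s t 2 2 1 = true := ex3_b s35_pm_101_s s23_pm_101_s

theorem s37_pm_101_s : ∃ t, chk3 f_pm_101_s t 1 2 1 = true := ex3_a s36_pm_101_s k18_pm_101_s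

theorem s38_pm_101_s : ∃ t, chk3 f_pm_101_s t 1 1 1 = true := ex3_b s37_pm_101_s k19_pm_101_s

theorem c_pm_101_s : CertNE 536870912 536870912 0 536870912 697932185 42949674 3 eng mog cd0q1 cd7q0 pd1 true true false .npn 1 0 1
    ndB0q1 ndB7q0 pcB1 cut_pm_101_s Ext.none :=
  certNE1 (fam := true) (s1 := true) (s2 := false) (a := 1) (b := 0) (c := 1) (cn := .npn) (n1 := ndB0q1) (n2 := ndB7q0) (pc := pcB1) (cut := cut_pm_101_s) (xt := Ext.none) (P1 := 536870912) (W1 := 536870912) (P2 := 0) (W2 := 536870912) (P3 := 697932185) (W3 := 42949674) (N0 := 3) (En := eng) (mo := mog) (C1 := cd0q1) (C2 := cd7q0) (C3 := pd1)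
    rfl (fun _ => rfl) s38_pm_101_s

noncomputable def cut_pm_102_s : Cut := Cut.of [[⟨4, 0, 0, 1449551462⟩]]

noncomputable def f_pm_102_s : ℕ → ℕ → ℕ → ℕ → Bool := onCell 536870912 536870912 1073741824 536870912 697932185 42949674
    (rowNE 3 eng mog cd0q1 cd7q0 pd2 1 true true false .npp 1 0 2 (qsf 536870912 536870912 0 536870912 2) ndB0q1 ndB7q0 pcB2 cut_pm_102_s Ext.none)

def k0_pm_102_s : ∃ t, chk3 f_pm_102_s t 1 1 1 = true :=
  ⟨(a (b (b (a (a (b (a (b (l 6) (l 6)) (l 6)) (l 6)) (l 6)) (l 6)) (l 6)) (l 6)) (l 6)), by decide +kernel⟩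

theorem c_pm_102_s : CertNE 536870912 536870912 0 536870912 697932185 42949674 3 eng mog cd0q1 cd7q0 pd2 true true false .npp 1 0 2
    ndB0q1 ndB7q0 pcB2 cut_pm_102_s Ext.none :=
  certNE1 (fam := true) (s1 := true) (s2 := false) (a := 1) (b := 0) (c := 2) (cn := .npp) (n1 := ndB0q1) (n2 := ndB7q0) (pc := pcB2) (cut := cut_pm_102_s) (xt := Ext.none) (P1 := 536870912) (W1 := 536870912) (P2 := 0) (W2 := 536870912) (P3 := 697932185) (W3 := 42949674) (N0 := 3) (En := eng) (mo := mog) (C1 := cd0q1) (C2 := cd7q0) (C3 := pd2)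
    rfl (fun _ => rfl) k0_pm_102_s

noncomputable def cut_pm_112_s : Cut := Cut.of [[⟨4, 0, 0, 1449551462⟩]]

noncomputable def f_pm_112_s : ℕ → ℕ → ℕ → ℕ → Bool := onCell 536870912 536870912 536870912 536870912 697932185 42949674
    (rowNE 3 eng mog cd0q1 cd7q1 pd2 0 true true false .dn 1 1 2 (qsf 536870912 536870912 536870912 536870912 2) ndB0q1 ndB7q1 pcB2 cut_pm_112_s Ext.none)

def k0_pm_112_s : ∃ t, chk3 f_pm_112_s t 1 1 1 = true :=
  ⟨(a (b (b (a (a (b (a (b (l 6) (l 6)) (l 6)) (l 6)) (l 6)) (l 6)) (l 6)) (l 6)) (l 6)), by decide +kernel⟩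

theorem c_pm_112_s : CertNE 536870912 536870912 536870912 536870912 697932185 42949674 3 eng mog cd0q1 cd7q1 pd2 true true false .dn 1 1 2
    ndB0q1 ndB7q1 pcB2 cut_pm_112_s Ext.none :=
  certNE0 (fam := true) (s1 := true) (s2 := false) (a := 1) (b := 1) (c := 2) (cn := .dn) (n1 := ndB0q1) (n2 := ndB7q1) (pc := pcB2) (cut := cut_pm_112_s) (xt := Ext.none) (P1 := 536870912) (W1 := 536870912) (P2 := 536870912) (W2 := 536870912) (P3 := 697932185) (W3 := 42949674) (N0 := 3) (En := eng) (mo := mog) (C1 := cd0q1) (C2 := cd7q1) (C3 := pd2)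
    rfl k0_pm_112_s

noncomputable def cut_pm_113_s : Cut := Cut.of [[⟨4, 0, 0, 1449551462⟩]]

noncomputable def f_pm_113_s : ℕ → ℕ → ℕ → ℕ → Bool := onCell 536870912 536870912 1610612736 536870912 697932185 42949674
    (rowNE 3 eng mog cd0q1 cd7q1 pd3 1 true true false .nn 1 1 3 (qsf 536870912 536870912 536870912 536870912 3) ndB0q1 ndB7q1 pcB3 cut_pm_113_s Ext.none)

def k0_pm_113_s : ∃ t, chk3 f_pm_113_s t 1 1 1 = true :=
  ⟨(l 6), by decide +kernel⟩

theorem c_pm_113_s : CertNE 536870912 536870912 536870912 536870912 697932185 42949674 3 eng mog cd0q1 cd7q1 pd3 true true false .nn 1 1 3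
    ndB0q1 ndB7q1 pcB3 cut_pm_113_s Ext.none :=
  certNE1 (fam := true) (s1 := true) (s2 := false) (a := 1) (b := 1) (c := 3) (cn := .nn) (n1 := ndB0q1) (n2 := ndB7q1) (pc := pcB3) (cut := cut_pm_113_s) (xt := Ext.none) (P1 := 536870912) (W1 := 536870912) (P2 := 536870912) (W2 := 536870912) (P3 := 697932185) (W3 := 42949674) (N0 := 3) (En := eng) (mo := mog) (C1 := cd0q1) (C2 := cd7q1) (C3 := pd3)
    rfl (fun _ => rfl) k0_pm_113_s

noncomputable def cut_pm_123_s : Cut := Cut.of [[⟨4, 0, 0, 1449551462⟩]]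

noncomputable def f_pm_123_s : ℕ → ℕ → ℕ → ℕ → Bool := onCell 536870912 536870912 1073741824 536870912 697932185 42949674
    (rowNE 3 eng mog cd0q1 cd7q2 pd3 0 true true false .npn 1 2 3 (qsf 536870912 536870912 1073741824 536870912 3) ndB0q1 ndB7q2 pcB3 cut_pm_123_s Ext.none)

def k0_pm_123_s : ∃ t, chk3 f_pm_123_s t 1 1 1 = true :=
  ⟨(l 6), by decide +kernel⟩

theorem c_pm_123_s : CertNE 536870912 536870912 1073741824 536870912 697932185 42949674 3 eng mog cd0q1 cd7q2 pd3 true true false .npn 1 2 3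
    ndB0q1 ndB7q2 pcB3 cut_pm_123_s Ext.none :=
  certNE0 (fam := true) (s1 := true) (s2 := false) (a := 1) (b := 2) (c := 3) (cn := .npn) (n1 := ndB0q1) (n2 := ndB7q2) (pc := pcB3) (cut := cut_pm_123_s) (xt := Ext.none) (P1 := 536870912) (W1 := 536870912) (P2 := 1073741824) (W2 := 536870912) (P3 := 697932185) (W3 := 42949674) (N0 := 3) (En := eng) (mo := mog) (C1 := cd0q1) (C2 := cd7q2) (C3 := pd3)
    rfl k0_pm_123_s

noncomputable def cut_pm_133_s : Cut := Cut.of [[⟨4, 0, 0, 1449551462⟩]]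

noncomputable def f_pm_133_s : ℕ → ℕ → ℕ → ℕ → Bool := onCell 536870912 536870912 0 1230186008 697932185 42949674
    (rowNE 3 eng mog cd0q1 cd7q3 pd3 0 true true false .dn 1 3 3 (qsf 536870912 536870912 0 1230186008 3) ndB0q1 ndB7q3 pcB3 cut_pm_133_s Ext.none)

def k0_pm_133_s : ∃ t, chk3 f_pm_133_s t 1 1 1 = true :=
  ⟨(l 6), by decide +kernel⟩

theorem c_pm_133_s : CertNE 536870912 536870912 0 1230186008 697932185 42949674 3 eng mog cd0q1 cd7q3 pd3 true true false .dn 1 3 3
    ndB0q1 ndB7q3 pcB3 cut_pm_133_s Ext.none :=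
  certNE0 (fam := true) (s1 := true) (s2 := false) (a := 1) (b := 3) (c := 3) (cn := .dn) (n1 := ndB0q1) (n2 := ndB7q3) (pc := pcB3) (cut := cut_pm_133_s) (xt := Ext.none) (P1 := 536870912) (W1 := 536870912) (P2 := 0) (W2 := 1230186008) (P3 := 697932185) (W3 := 42949674) (N0 := 3) (En := eng) (mo := mog) (C1 := cd0q1) (C2 := cd7q3) (C3 := pd3)
    rfl k0_pm_133_s

noncomputable def cut_pm_202_s : Cut := Cut.of [[⟨4, 0, 0, 1449551462⟩]]

noncomputable def f_pm_202_s : ℕ → ℕ → ℕ → ℕ → Bool := onCell 0 536870912 0 536870912 697932185 42949674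
    (rowNE 3 eng mog cd0q2 cd7q0 pd2 0 true true false .pp 2 0 2 (qsf 0 536870912 0 536870912 2) ndB0q2 ndB7q0 pcB2 cut_pm_202_s Ext.none)

def k0_pm_202_s : ∃ t, chk3 f_pm_202_s t 1 1 1 = true :=
  ⟨(l 6), by decide +kernel⟩

theorem c_pm_202_s : CertNE 0 536870912 0 536870912 697932185 42949674 3 eng mog cd0q2 cd7q0 pd2 true true false .pp 2 0 2
    ndB0q2 ndB7q0 pcB2 cut_pm_202_s Ext.none :=
  certNE0 (fam := true) (s1 := true) (s2 := false) (a := 2) (b := 0) (c := 2) (cn := .pp) (n1 := ndB0q2) (n2 := ndB7q0) (pc := pcB2) (cut := cut_pm_202_s) (xt := Ext.none) (P1 := 0) (W1 := 536870912) (P2 := 0) (W2 := 536870912) (P3 := 697932185) (W3 := 42949674) (N0 := 3) (En := eng) (mo := mog) (C1 := cd0q2) (C2 := cd7q0) (C3 := pd2)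
    rfl k0_pm_202_s

noncomputable def cut_pm_203_s : Cut := Cut.of [[⟨4, 0, 0, 1449551462⟩]]

noncomputable def f_pm_203_s : ℕ → ℕ → ℕ → ℕ → Bool := onCell 0 536870912 0 536870912 697932185 42949674
    (rowNE 3 eng mog cd0q2 cd7q0 pd3 0 true true false .up 2 0 3 (qsf 0 536870912 0 536870912 3) ndB0q2 ndB7q0 pcB3 cut_pm_203_s Ext.none)

def k0_pm_203_s : ∃ t, chk3 f_pm_203_s t 1 1 1 = true :=
  ⟨(l 6), by decide +kernel⟩

theorem c_pm_203_s : CertNE 0 536870912 0 536870912 697932185 42949674 3 eng mog cd0q2 cd7q0 pd3 true true false .up 2 0 3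
    ndB0q2 ndB7q0 pcB3 cut_pm_203_s Ext.none :=
  certNE0 (fam := true) (s1 := true) (s2 := false) (a := 2) (b := 0) (c := 3) (cn := .up) (n1 := ndB0q2) (n2 := ndB7q0) (pc := pcB3) (cut := cut_pm_203_s) (xt := Ext.none) (P1 := 0) (W1 := 536870912) (P2 := 0) (W2 := 536870912) (P3 := 697932185) (W3 := 42949674) (N0 := 3) (En := eng) (mo := mog) (C1 := cd0q2) (C2 := cd7q0) (C3 := pd3)
    rfl k0_pm_203_s

noncomputable def cut_pm_213_s : Cut := Cut.of [[⟨4, 0, 0, 1449551462⟩]]

noncomputable def f_pm_213_s : ℕ → ℕ → ℕ → ℕ → Bool := onCell 0 536870912 536870912 536870912 697932185 42949674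
    (rowNE 3 eng mog cd0q2 cd7q1 pd3 0 true true false .pnn 2 1 3 (qsf 0 536870912 536870912 536870912 3) ndB0q2 ndB7q1 pcB3 cut_pm_213_s Ext.none)

def k0_pm_213_s : ∃ t, chk3 f_pm_213_s t 1 1 1 = true :=
  ⟨(l 6), by decide +kernel⟩

theorem c_pm_213_s : CertNE 0 536870912 536870912 536870912 697932185 42949674 3 eng mog cd0q2 cd7q1 pd3 true true false .pnn 2 1 3
    ndB0q2 ndB7q1 pcB3 cut_pm_213_s Ext.none :=
  certNE0 (fam := true) (s1 := true) (s2 := false) (a := 2) (b := 1) (c := 3) (cn := .pnn) (n1 := ndB0q2) (n2 := ndB7q1) (pc := pcB3) (cut := cut_pm_213_s) (xt := Ext.none) (P1 := 0) (W1 := 536870912) (P2 := 536870912) (W2 := 536870912) (P3 := 697932185) (W3 := 42949674) (N0 := 3) (En := eng) (mo := mog) (C1 := cd0q2) (C2 := cd7q1) (C3 := pd3)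
    rfl k0_pm_213_s

noncomputable def cut_mm_001_s : Cut := Cut.of [[⟨4, 0, 0, 1449551462⟩]]

noncomputable def f_mm_001_s : ℕ → ℕ → ℕ → ℕ → Bool := onCell 0 536870912 0 536870912 697932185 42949674
    (rowNE 3 eng mog cd0q0 cd7q0 pd1 0 true false false .up 0 0 1 (qsf 0 536870912 0 536870912 1) ndB0q0 ndB7q0 pcB1 cut_mm_001_s Ext.none)

def k0_mm_001_s : ∃ t, chk3 f_mm_001_s t 1 1 1 = true :=
  ⟨(l 4), by decide +kernel⟩

theorem c_mm_001_s : CertNE 0 536870912 0 536870912 697932185 42949674 3 eng mog cd0q0 cd7q0 pd1 true false false .up 0 0 1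
    ndB0q0 ndB7q0 pcB1 cut_mm_001_s Ext.none :=
  certNE0 (fam := true) (s1 := false) (s2 := false) (a := 0) (b := 0) (c := 1) (cn := .up) (n1 := ndB0q0) (n2 := ndB7q0) (pc := pcB1) (cut := cut_mm_001_s) (xt := Ext.none) (P1 := 0) (W1 := 536870912) (P2 := 0) (W2 := 536870912) (P3 := 697932185) (W3 := 42949674) (N0 := 3) (En := eng) (mo := mog) (C1 := cd0q0) (C2 := cd7q0) (C3 := pd1)
    rfl k0_mm_001_s

noncomputable def cut_mm_011_s : Cut := Cut.of [[⟨4, 0, 0, 1449551462⟩]]

noncomputable def f_mm_011_s : ℕ → ℕ → ℕ → ℕ → Bool := onCell 0 536870912 536870912 536870912 697932185 42949674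
    (rowNE 3 eng mog cd0q0 cd7q1 pd1 0 true false false .pnn 0 1 1 (qsf 0 536870912 536870912 536870912 1) ndB0q0 ndB7q1 pcB1 cut_mm_011_s Ext.none)

def k0_mm_011_s : ∃ t, chk3 f_mm_011_s t 1 1 1 = true :=
  ⟨(l 4), by decide +kernel⟩

theorem c_mm_011_s : CertNE 0 536870912 536870912 536870912 697932185 42949674 3 eng mog cd0q0 cd7q1 pd1 true false false .pnn 0 1 1
    ndB0q0 ndB7q1 pcB1 cut_mm_011_s Ext.none :=
  certNE0 (fam := true) (s1 := false) (s2 := false) (a := 0) (b := 1) (c := 1) (cn := .pnn) (n1 := ndB0q0) (n2 := ndB7q1) (pc := pcB1) (cut := cut_mm_011_s) (xt := Ext.none) (P1 := 0) (W1 := 536870912) (P2 := 536870912) (W2 := 536870912) (P3 := 697932185) (W3 := 42949674) (N0 := 3) (En := eng) (mo := mog) (C1 := cd0q0) (C2 := cd7q1) (C3 := pd1)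
    rfl k0_mm_011_s

noncomputable def cut_mm_012_s : Cut := Cut.of [[⟨4, 0, 0, 1449551462⟩]]

noncomputable def f_mm_012_s : ℕ → ℕ → ℕ → ℕ → Bool := onCell 0 536870912 536870912 536870912 697932185 42949674
    (rowNE 3 eng mog cd0q0 cd7q1 pd2 0 true false false .pnp 0 1 2 (qsf 0 536870912 536870912 536870912 2) ndB0q0 ndB7q1 pcB2 cut_mm_012_s Ext.none)

def k0_mm_012_s : ∃ t, chk3 f_mm_012_s t 1 1 1 = true :=
  ⟨(l 4), by decide +kernel⟩

theorem c_mm_012_s : CertNE 0 536870912 536870912 536870912 697932185 42949674 3 eng mog cd0q0 cd7q1 pd2 true false false .pnp 0 1 2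
    ndB0q0 ndB7q1 pcB2 cut_mm_012_s Ext.none :=
  certNE0 (fam := true) (s1 := false) (s2 := false) (a := 0) (b := 1) (c := 2) (cn := .pnp) (n1 := ndB0q0) (n2 := ndB7q1) (pc := pcB2) (cut := cut_mm_012_s) (xt := Ext.none) (P1 := 0) (W1 := 536870912) (P2 := 536870912) (W2 := 536870912) (P3 := 697932185) (W3 := 42949674) (N0 := 3) (En := eng) (mo := mog) (C1 := cd0q0) (C2 := cd7q1) (C3 := pd2)
    rfl k0_mm_012_s

noncomputable def cut_mm_022_s : Cut := Cut.of [[⟨4, 0, 0, 1449551462⟩]]

noncomputable def f_mm_022_s : ℕ → ℕ → ℕ → ℕ → Bool := onCell 0 536870912 1073741824 536870912 697932185 42949674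
    (rowNE 3 eng mog cd0q0 cd7q2 pd2 0 true false false .pp 0 2 2 (qsf 0 536870912 1073741824 536870912 2) ndB0q0 ndB7q2 pcB2 cut_mm_022_s Ext.none)

def k0_mm_022_s : ∃ t, chk3 f_mm_022_s t 1 1 1 = true :=
  ⟨(l 4), by decide +kernel⟩

theorem c_mm_022_s : CertNE 0 536870912 1073741824 536870912 697932185 42949674 3 eng mog cd0q0 cd7q2 pd2 true false false .pp 0 2 2
    ndB0q0 ndB7q2 pcB2 cut_mm_022_s Ext.none :=
  certNE0 (fam := true) (s1 := false) (s2 := false) (a := 0) (b := 2) (c := 2) (cn := .pp) (n1 := ndB0q0) (n2 := ndB7q2) (pc := pcB2) (cut := cut_mm_022_s) (xt := Ext.none) (P1 := 0) (W1 := 536870912) (P2 := 1073741824) (W2 := 536870912) (P3 := 697932185) (W3 := 42949674) (N0 := 3) (En := eng) (mo := mog) (C1 := cd0q0) (C2 := cd7q2) (C3 := pd2)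
    rfl k0_mm_022_s

noncomputable def cut_mm_023_s : Cut := Cut.of [[⟨4, 0, 0, 1449551462⟩]]

noncomputable def f_mm_023_s : ℕ → ℕ → ℕ → ℕ → Bool := onCell 0 536870912 1073741824 536870912 697932185 42949674
    (rowNE 3 eng mog cd0q0 cd7q2 pd3 0 true false false .up 0 2 3 (qsf 0 536870912 1073741824 536870912 3) ndB0q0 ndB7q2 pcB3 cut_mm_023_s Ext.none)

def k0_mm_023_s : ∃ t, chk3 f_mm_023_s t 1 1 1 = true :=
  ⟨(l 4), by decide +kernel⟩

theorem c_mm_023_s : CertNE 0 536870912 1073741824 536870912 697932185 42949674 3 eng mog cd0q0 cd7q2 pd3 true false false .up 0 2 3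
    ndB0q0 ndB7q2 pcB3 cut_mm_023_s Ext.none :=
  certNE0 (fam := true) (s1 := false) (s2 := false) (a := 0) (b := 2) (c := 3) (cn := .up) (n1 := ndB0q0) (n2 := ndB7q2) (pc := pcB3) (cut := cut_mm_023_s) (xt := Ext.none) (P1 := 0) (W1 := 536870912) (P2 := 1073741824) (W2 := 536870912) (P3 := 697932185) (W3 := 42949674) (N0 := 3) (En := eng) (mo := mog) (C1 := cd0q0) (C2 := cd7q2) (C3 := pd3)
    rfl k0_mm_023_s

noncomputable def cut_mm_033_s : Cut := Cut.of [[⟨4, 0, 0, 1449551462⟩]]

noncomputable def f_mm_033_s : ℕ → ℕ → ℕ → ℕ → Bool := onCell 0 536870912 0 1230186008 697932185 42949674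
    (rowNE 3 eng mog cd0q0 cd7q3 pd3 0 true false false .pnn 0 3 3 (qsf 0 536870912 0 1230186008 3) ndB0q0 ndB7q3 pcB3 cut_mm_033_s Ext.none)

def k0_mm_033_s : ∃ t, chk3 f_mm_033_s t 1 1 1 = true :=
  ⟨(l 4), by decide +kernel⟩

theorem c_mm_033_s : CertNE 0 536870912 0 1230186008 697932185 42949674 3 eng mog cd0q0 cd7q3 pd3 true false false .pnn 0 3 3
    ndB0q0 ndB7q3 pcB3 cut_mm_033_s Ext.none :=
  certNE0 (fam := true) (s1 := false) (s2 := false) (a := 0) (b := 3) (c := 3) (cn := .pnn) (n1 := ndB0q0) (n2 := ndB7q3) (pc := pcB3) (cut := cut_mm_033_s) (xt := Ext.none) (P1 := 0) (W1 := 536870912) (P2 := 0) (W2 := 1230186008) (P3 := 697932185) (W3 := 42949674) (N0 := 3) (En := eng) (mo := mog) (C1 := cd0q0) (C2 := cd7q3) (C3 := pd3)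
    rfl k0_mm_033_s

noncomputable def cut_mm_101_s : Cut := Cut.of [[⟨4, 0, 0, 1449551462⟩]]

noncomputable def f_mm_101_s : ℕ → ℕ → ℕ → ℕ → Bool := onCell 536870912 536870912 0 536870912 697932185 42949674
    (rowNE 3 eng mog cd0q1 cd7q0 pd1 0 true false false .npn 1 0 1 (qsf 536870912 536870912 0 536870912 1) ndB0q1 ndB7q0 pcB1 cut_mm_101_s Ext.none)

def k0_mm_101_s : ∃ t, chk3 f_mm_101_s t 1 1 1 = true :=
  ⟨(l 4), by decide +kernel⟩

theorem c_mm_101_s : CertNE 536870912 536870912 0 536870912 697932185 42949674 3 eng mog cd0q1 cd7q0 pd1 true false false .npn 1 0 1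
    ndB0q1 ndB7q0 pcB1 cut_mm_101_s Ext.none :=
  certNE0 (fam := true) (s1 := false) (s2 := false) (a := 1) (b := 0) (c := 1) (cn := .npn) (n1 := ndB0q1) (n2 := ndB7q0) (pc := pcB1) (cut := cut_mm_101_s) (xt := Ext.none) (P1 := 536870912) (W1 := 536870912) (P2 := 0) (W2 := 536870912) (P3 := 697932185) (W3 := 42949674) (N0 := 3) (En := eng) (mo := mog) (C1 := cd0q1) (C2 := cd7q0) (C3 := pd1)
    rfl k0_mm_101_s

noncomputable def cut_mm_102_s : Cut := Cut.of [[⟨4, 0, 0, 1449551462⟩]]

noncomputable def f_mm_102_s : ℕ → ℕ → ℕ → ℕ → Bool := onCell 536870912 536870912 0 536870912 697932185 42949674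
    (rowNE 3 eng mog cd0q1 cd7q0 pd2 0 true false false .npp 1 0 2 (qsf 536870912 536870912 0 536870912 2) ndB0q1 ndB7q0 pcB2 cut_mm_102_s Ext.none)

def k0_mm_102_s : ∃ t, chk3 f_mm_102_s t 1 1 1 = true :=
  ⟨(l 4), by decide +kernel⟩

theorem c_mm_102_s : CertNE 536870912 536870912 0 536870912 697932185 42949674 3 eng mog cd0q1 cd7q0 pd2 true false false .npp 1 0 2
    ndB0q1 ndB7q0 pcB2 cut_mm_102_s Ext.none :=
  certNE0 (fam := true) (s1 := false) (s2 := false) (a := 1) (b := 0) (c := 2) (cn := .npp) (n1 := ndB0q1) (n2 := ndB7q0) (pc := pcB2) (cut := cut_mm_102_s) (xt := Ext.none) (P1 := 536870912) (W1 := 536870912) (P2 := 0) (W2 := 536870912) (P3 := 697932185) (W3 := 42949674) (N0 := 3) (En := eng) (mo := mog) (C1 := cd0q1) (C2 := cd7q0) (C3 := pd2)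
    rfl k0_mm_102_s

noncomputable def cut_mm_112_s : Cut := Cut.of [[⟨4, 0, 0, 1449551462⟩]]

noncomputable def f_mm_112_s : ℕ → ℕ → ℕ → ℕ → Bool := onCell 536870912 536870912 536870912 536870912 697932185 42949674
    (rowNE 3 eng mog cd0q1 cd7q1 pd2 0 true false false .dn 1 1 2 (qsf 536870912 536870912 536870912 536870912 2) ndB0q1 ndB7q1 pcB2 cut_mm_112_s Ext.none)

def k0_mm_112_s : ∃ t, chk3 f_mm_112_s t 1 1 1 = true :=
  ⟨(l 4), by decide +kernel⟩

theorem c_mm_112_s : CertNE 536870912 536870912 536870912 536870912 697932185 42949674 3 eng mog cd0q1 cd7q1 pd2 true false false .dn 1 1 2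
    ndB0q1 ndB7q1 pcB2 cut_mm_112_s Ext.none :=
  certNE0 (fam := true) (s1 := false) (s2 := false) (a := 1) (b := 1) (c := 2) (cn := .dn) (n1 := ndB0q1) (n2 := ndB7q1) (pc := pcB2) (cut := cut_mm_112_s) (xt := Ext.none) (P1 := 536870912) (W1 := 536870912) (P2 := 536870912) (W2 := 536870912) (P3 := 697932185) (W3 := 42949674) (N0 := 3) (En := eng) (mo := mog) (C1 := cd0q1) (C2 := cd7q1) (C3 := pd2)
    rfl k0_mm_112_s

noncomputable def cut_mm_113_s : Cut := Cut.of [[⟨4, 0, 0, 1449551462⟩]]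

noncomputable def f_mm_113_s : ℕ → ℕ → ℕ → ℕ → Bool := onCell 536870912 536870912 536870912 536870912 697932185 42949674
    (rowNE 3 eng mog cd0q1 cd7q1 pd3 0 true false false .nn 1 1 3 (qsf 536870912 536870912 536870912 536870912 3) ndB0q1 ndB7q1 pcB3 cut_mm_113_s Ext.none)

def k0_mm_113_s : ∃ t, chk3 f_mm_113_s t 1 1 1 = true :=
  ⟨(l 4), by decide +kernel⟩

theorem c_mm_113_s : CertNE 536870912 536870912 536870912 536870912 697932185 42949674 3 eng mog cd0q1 cd7q1 pd3 true false false .nn 1 1 3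
    ndB0q1 ndB7q1 pcB3 cut_mm_113_s Ext.none :=
  certNE0 (fam := true) (s1 := false) (s2 := false) (a := 1) (b := 1) (c := 3) (cn := .nn) (n1 := ndB0q1) (n2 := ndB7q1) (pc := pcB3) (cut := cut_mm_113_s) (xt := Ext.none) (P1 := 536870912) (W1 := 536870912) (P2 := 536870912) (W2 := 536870912) (P3 := 697932185) (W3 := 42949674) (N0 := 3) (En := eng) (mo := mog) (C1 := cd0q1) (C2 := cd7q1) (C3 := pd3)
    rfl k0_mm_113_s

noncomputable def cut_mm_123_s : Cut := Cut.of [[⟨4, 0, 0, 1449551462⟩]]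

noncomputable def f_mm_123_s : ℕ → ℕ → ℕ → ℕ → Bool := onCell 536870912 536870912 1073741824 536870912 697932185 42949674
    (rowNE 3 eng mog cd0q1 cd7q2 pd3 0 true false false .npn 1 2 3 (qsf 536870912 536870912 1073741824 536870912 3) ndB0q1 ndB7q2 pcB3 cut_mm_123_s Ext.none)

def k0_mm_123_s : ∃ t, chk3 f_mm_123_s t 1 1 1 = true :=
  ⟨(l 4), by decide +kernel⟩

theorem c_mm_123_s : CertNE 536870912 536870912 1073741824 536870912 697932185 42949674 3 eng mog cd0q1 cd7q2 pd3 true false false .npn 1 2 3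
    ndB0q1 ndB7q2 pcB3 cut_mm_123_s Ext.none :=
  certNE0 (fam := true) (s1 := false) (s2 := false) (a := 1) (b := 2) (c := 3) (cn := .npn) (n1 := ndB0q1) (n2 := ndB7q2) (pc := pcB3) (cut := cut_mm_123_s) (xt := Ext.none) (P1 := 536870912) (W1 := 536870912) (P2 := 1073741824) (W2 := 536870912) (P3 := 697932185) (W3 := 42949674) (N0 := 3) (En := eng) (mo := mog) (C1 := cd0q1) (C2 := cd7q2) (C3 := pd3)
    rfl k0_mm_123_s

noncomputable def cut_mm_133_s : Cut := Cut.of [[⟨4, 0, 0, 1449551462⟩]]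

noncomputable def f_mm_133_s : ℕ → ℕ → ℕ → ℕ → Bool := onCell 536870912 536870912 0 1230186008 697932185 42949674
    (rowNE 3 eng mog cd0q1 cd7q3 pd3 0 true false false .dn 1 3 3 (qsf 536870912 536870912 0 1230186008 3) ndB0q1 ndB7q3 pcB3 cut_mm_133_s Ext.none)

def k0_mm_133_s : ∃ t, chk3 f_mm_133_s t 1 1 1 = true :=
  ⟨(l 4), by decide +kernel⟩

theorem c_mm_133_s : CertNE 536870912 536870912 0 1230186008 697932185 42949674 3 eng mog cd0q1 cd7q3 pd3 true false false .dn 1 3 3
    ndB0q1 ndB7q3 pcB3 cut_mm_133_s Ext.none :=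
  certNE0 (fam := true) (s1 := false) (s2 := false) (a := 1) (b := 3) (c := 3) (cn := .dn) (n1 := ndB0q1) (n2 := ndB7q3) (pc := pcB3) (cut := cut_mm_133_s) (xt := Ext.none) (P1 := 536870912) (W1 := 536870912) (P2 := 0) (W2 := 1230186008) (P3 := 697932185) (W3 := 42949674) (N0 := 3) (En := eng) (mo := mog) (C1 := cd0q1) (C2 := cd7q3) (C3 := pd3)
    rfl k0_mm_133_s

noncomputable def cut_mm_202_s : Cut := Cut.of [[⟨4, 0, 0, 1449551462⟩]]

noncomputable def f_mm_202_s : ℕ → ℕ → ℕ → ℕ → Bool := onCell 0 536870912 0 536870912 697932185 42949674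
    (rowNE 3 eng mog cd0q2 cd7q0 pd2 0 true false false .pp 2 0 2 (qsf 0 536870912 0 536870912 2) ndB0q2 ndB7q0 pcB2 cut_mm_202_s Ext.none)

def k0_mm_202_s : ∃ t, chk3 f_mm_202_s t 1 1 1 = true :=
  ⟨(l 4), by decide +kernel⟩

theorem c_mm_202_s : CertNE 0 536870912 0 536870912 697932185 42949674 3 eng mog cd0q2 cd7q0 pd2 true false false .pp 2 0 2
    ndB0q2 ndB7q0 pcB2 cut_mm_202_s Ext.none :=
  certNE0 (fam := true) (s1 := false) (s2 := false) (a := 2) (b := 0) (c := 2) (cn := .pp) (n1 := ndB0q2) (n2 := ndB7q0) (pc := pcB2) (cut := cut_mm_202_s) (xt := Ext.none) (P1 := 0) (W1 := 536870912) (P2 := 0) (W2 := 536870912) (P3 := 697932185) (W3 := 42949674) (N0 := 3) (En := eng) (mo := mog) (C1 := cd0q2) (C2 := cd7q0) (C3 := pd2)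
    rfl k0_mm_202_s

noncomputable def cut_mm_203_s : Cut := Cut.of [[⟨4, 0, 0, 1449551462⟩]]

noncomputable def f_mm_203_s : ℕ → ℕ → ℕ → ℕ → Bool := onCell 0 536870912 0 536870912 697932185 42949674
    (rowNE 3 eng mog cd0q2 cd7q0 pd3 0 true false false .up 2 0 3 (qsf 0 536870912 0 536870912 3) ndB0q2 ndB7q0 pcB3 cut_mm_203_s Ext.none)

def k0_mm_203_s : ∃ t, chk3 f_mm_203_s t 1 1 1 = true :=
  ⟨(l 4), by decide +kernel⟩

theorem c_mm_203_s : CertNE 0 536870912 0 536870912 697932185 42949674 3 eng mog cd0q2 cd7q0 pd3 true false false .up 2 0 3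
    ndB0q2 ndB7q0 pcB3 cut_mm_203_s Ext.none :=
  certNE0 (fam := true) (s1 := false) (s2 := false) (a := 2) (b := 0) (c := 3) (cn := .up) (n1 := ndB0q2) (n2 := ndB7q0) (pc := pcB3) (cut := cut_mm_203_s) (xt := Ext.none) (P1 := 0) (W1 := 536870912) (P2 := 0) (W2 := 536870912) (P3 := 697932185) (W3 := 42949674) (N0 := 3) (En := eng) (mo := mog) (C1 := cd0q2) (C2 := cd7q0) (C3 := pd3)
    rfl k0_mm_203_s

noncomputable def cut_mm_213_s : Cut := Cut.of [[⟨4, 0, 0, 1449551462⟩]]

noncomputable def f_mm_213_s : ℕ → ℕ → ℕ → ℕ → Bool := onCell 0 536870912 536870912 536870912 697932185 42949674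
    (rowNE 3 eng mog cd0q2 cd7q1 pd3 0 true false false .pnn 2 1 3 (qsf 0 536870912 536870912 536870912 3) ndB0q2 ndB7q1 pcB3 cut_mm_213_s Ext.none)

def k0_mm_213_s : ∃ t, chk3 f_mm_213_s t 1 1 1 = true :=
  ⟨(l 4), by decide +kernel⟩

theorem c_mm_213_s : CertNE 0 536870912 536870912 536870912 697932185 42949674 3 eng mog cd0q2 cd7q1 pd3 true false false .pnn 2 1 3
    ndB0q2 ndB7q1 pcB3 cut_mm_213_s Ext.none :=
  certNE0 (fam := true) (s1 := false) (s2 := false) (a := 2) (b := 1) (c := 3) (cn := .pnn) (n1 := ndB0q2) (n2 := ndB7q1) (pc := pcB3) (cut := cut_mm_213_s) (xt := Ext.none) (P1 := 0) (W1 := 536870912) (P2 := 536870912) (W2 := 536870912) (P3 := 697932185) (W3 := 42949674) (N0 := 3) (En := eng) (mo := mog) (C1 := cd0q2) (C2 := cd7q1) (C3 := pd3)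
    rfl k0_mm_213_s

end Pool.Agent.Strip051.G.I6500_6900.Tab.CS.BA07

namespace Pool.Agent.Strip051.G.I6500_6900.Tab.CS.BB00

open Pool.Agent.Strip051.PB Pool.Agent.Strip051.PB.T
open Pool.Agent.Strip051.G.I6500_6900.Tab

noncomputable def cut_pp_001_s : Cut := Cut.of [[⟨4, 0, 0, 1449551462⟩]]

noncomputable def f_pp_001_s : ℕ → ℕ → ℕ → ℕ → Bool := onCell 0 536870912 0 536870912 697932185 42949674
    (rowNE 3 eng mog cd0q0 cd0q1 pd0 1 false true true .up 0 0 1 (qsf 0 536870912 536870912 536870912 0) ndB0q0 ndB0q1 pcB0 cut_pp_001_s Ext.none)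

def k0_pp_001_s : ∃ t, chk3 f_pp_001_s t 1 1 1 = true :=
  ⟨(l 3), by decide +kernel⟩

theorem c_pp_001_s : CertNE 0 536870912 536870912 536870912 697932185 42949674 3 eng mog cd0q0 cd0q1 pd0 false true true .up 0 0 1
    ndB0q0 ndB0q1 pcB0 cut_pp_001_s Ext.none :=
  certNE1 (fam := false) (s1 := true) (s2 := true) (a := 0) (b := 0) (c := 1) (cn := .up) (n1 := ndB0q0) (n2 := ndB0q1) (pc := pcB0) (cut := cut_pp_001_s) (xt := Ext.none) (P1 := 0) (W1 := 536870912) (P2 := 536870912) (W2 := 536870912) (P3 := 697932185) (W3 := 42949674) (N0 := 3) (En := eng) (mo := mog) (C1 := cd0q0) (C2 := cd0q1) (C3 := pd0)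
    rfl (fun _ => rfl) k0_pp_001_s

noncomputable def cut_pp_001_t : Cut := Cut.of [[⟨3, 0, 0, 2845415833⟩]]

noncomputable def f_pp_001_t : ℕ → ℕ → ℕ → ℕ → Bool := onCell 0 536870912 536870912 536870912 697932185 42949674
    (rowNE 3 eng mog cd0q0 cd0q1 pd0 0 false true true .up 0 0 1 (qsf 0 536870912 536870912 536870912 0) ndB0q0 ndB0q1 pcB0 cut_pp_001_t Ext.none)

def k0_pp_001_t : ∃ t, chk3 f_pp_001_t t 1 1 1 = true :=
  ⟨(l 6), by decide +kernel⟩

theorem c_pp_001_t : CertNE 0 536870912 536870912 536870912 697932185 42949674 3 eng mog cd0q0 cd0q1 pd0 false true true .up 0 0 1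
    ndB0q0 ndB0q1 pcB0 cut_pp_001_t Ext.none :=
  certNE0 (fam := false) (s1 := true) (s2 := true) (a := 0) (b := 0) (c := 1) (cn := .up) (n1 := ndB0q0) (n2 := ndB0q1) (pc := pcB0) (cut := cut_pp_001_t) (xt := Ext.none) (P1 := 0) (W1 := 536870912) (P2 := 536870912) (W2 := 536870912) (P3 := 697932185) (W3 := 42949674) (N0 := 3) (En := eng) (mo := mog) (C1 := cd0q0) (C2 := cd0q1) (C3 := pd0)
    rfl k0_pp_001_t

noncomputable def cut_pp_011_s : Cut := Cut.of [[⟨4, 0, 0, 1449551462⟩], [⟨0, 0, 0, 67108864⟩, ⟨1, 1, 0, 67108864⟩, ⟨2, 1, 0, 67108864⟩]]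

noncomputable def f_pp_011_s : ℕ → ℕ → ℕ → ℕ → Bool := onCell 536870912 536870912 536870912 536870912 697932185 42949674
    (rowNE 3 eng mog cd0q0 cd0q1 pd1 2 false true true .pnn 0 1 1 (qsf 0 536870912 536870912 536870912 1) ndB0q0 ndB0q1 pcB1 cut_pp_011_s Ext.none)

def k0_pp_011_s : ∃ t, chk3 f_pp_011_s t 1 1 1 = true :=
  ⟨(a (l 3) (b (l 3) (a (l 3) (b (l 3) (a (l 3) (b (l 3) (b (l 3) (a (l 3) (l 14))))))))), by decide +kernel⟩

theorem c_pp_011_s : CertNE 0 536870912 536870912 536870912 697932185 42949674 3 eng mog cd0q0 cd0q1 pd1 false true true .pnn 0 1 1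
    ndB0q0 ndB0q1 pcB1 cut_pp_011_s Ext.none :=
  certNE2 (fam := false) (s1 := true) (s2 := true) (a := 0) (b := 1) (c := 1) (cn := .pnn) (n1 := ndB0q0) (n2 := ndB0q1) (pc := pcB1) (cut := cut_pp_011_s) (xt := Ext.none) (P1 := 0) (W1 := 536870912) (P2 := 536870912) (W2 := 536870912) (P3 := 697932185) (W3 := 42949674) (N0 := 3) (En := eng) (mo := mog) (C1 := cd0q0) (C2 := cd0q1) (C3 := pd1)
    rfl (fun _ => rfl) k0_pp_011_s

noncomputable def cut_pp_011_t : Cut := Cut.of [[⟨3, 0, 0, 2845415833⟩], [⟨0, 0, 0, 67108864⟩, ⟨1, 1, 0, 67108864⟩, ⟨2, 1, 0, 67108864⟩]]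

noncomputable def f_pp_011_t : ℕ → ℕ → ℕ → ℕ → Bool := onCell 0 536870912 536870912 536870912 697932185 42949674
    (rowNE 3 eng mog cd0q0 cd0q1 pd1 0 false true true .pnn 0 1 1 (qsf 0 536870912 536870912 536870912 1) ndB0q0 ndB0q1 pcB1 cut_pp_011_t Ext.none)

def k0_pp_011_t : ∃ t, chk3 f_pp_011_t t 1 1 1 = true :=
  ⟨(l 6), by decide +kernel⟩

theorem c_pp_011_t : CertNE 0 536870912 536870912 536870912 697932185 42949674 3 eng mog cd0q0 cd0q1 pd1 false true true .pnn 0 1 1
    ndB0q0 ndB0q1 pcB1 cut_pp_011_t Ext.none :=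
  certNE0 (fam := false) (s1 := true) (s2 := true) (a := 0) (b := 1) (c := 1) (cn := .pnn) (n1 := ndB0q0) (n2 := ndB0q1) (pc := pcB1) (cut := cut_pp_011_t) (xt := Ext.none) (P1 := 0) (W1 := 536870912) (P2 := 536870912) (W2 := 536870912) (P3 := 697932185) (W3 := 42949674) (N0 := 3) (En := eng) (mo := mog) (C1 := cd0q0) (C2 := cd0q1) (C3 := pd1)
    rfl k0_pp_011_t

noncomputable def cut_pp_012_s : Cut := Cut.of [[⟨4, 0, 0, 1449551462⟩], [⟨0, 0, 0, 33554432⟩, ⟨1, 1, 0, 33554432⟩, ⟨2, 1, 0, 33554432⟩]]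

noncomputable def f_pp_012_s : ℕ → ℕ → ℕ → ℕ → Bool := onCell 536870912 536870912 0 536870912 697932185 42949674
    (rowNE 3 eng mog cd0q0 cd0q2 pd1 2 false true true .pnp 0 1 2 (qsf 0 536870912 0 536870912 1) ndB0q0 ndB0q2 pcB1 cut_pp_012_s Ext.none)

def k0_pp_012_s : ∃ t, chk3 f_pp_012_s t 4 2 1 = true :=
  ⟨(b (l 2) (l 3)), by decide +kernel⟩

def k1_pp_012_s : ∃ t, chk3 f_pp_012_s t 20 4 1 = true :=
  ⟨(a (l 2) (b (a (l 2) (b (b (l 16746376) (l 16736496)) (b (l 16748240) (l 17817397815)))) (b (a (l 2) (b (b (a (l 16775920) (l 16777888)) (a (a (l 2) (b (l 16774496) (b (c (l 124654717783) (l 123580975815)) (l 165524012263)))) (a (a (b (l 16773264) (b (l 16775600) (l 87140862647))) (l 16776616)) (l 16772760)))) (b (a (l 3) (b (a (l 170892720919) (b (c (l 26474449431) (l 27548191191)) (l 158544690503))) (l 3))) (l 3)))) (l 3)))), by decide +kernel⟩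

def k2_pp_012_s : ∃ t, chk3 f_pp_012_s t 21 8 1 = true :=
  ⟨(b (a (b (l 16715552) (a (b (l 16727288) (l 16733024)) (l 16744960))) (l 16729544)) (b (a (l 16759432) (a (b (l 16725792) (l 16731568)) (l 16743408))) (a (a (l 16774408) (l 16746832)) (a (l 16740232) (l 16733672))))), by decide +kernel⟩

def k3_pp_012_s : ∃ t, chk3 f_pp_012_s t 21 18 1 = true :=
  ⟨(b (a (a (b (l 16772928) (a (l 16775512) (l 16777416))) (c (l 16769680) (l 16768936))) (a (l 16773088) (l 16745448))) (a (a (b (a (b (a (b (l 16775016) (c (l 24863836551) (l 25937578311))) (l 16774144)) (a (l 165524011895) (b (c (l 16778448) (l 16778408)) (l 151028497815)))) (a (a (b (l 16772888) (b (l 16775264) (l 16778096))) (l 16773632)) (l 16772368))) (a (l 3) (b (a (b (l 147270398855) (l 3)) (b (c (l 16776328) (l 16776288)) (c (l 144049176103) (l 144049175991)))) (l 3)))) (b (a (l 16775080) (l 16776928)) (a (b (a (b (l 16774656) (l 16273901639)) (l 16773752)) (a (b (c (l 139754208823) (l 140291079639)) (l 3)) (b (l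 16777448) (a (l 172503334311) (l 94657053095))))) (b (l 16776440) (c (l 16778208) (l 16778280)))))) (b (a (l 16771832) (l 16754592)) (a (a (l 16774616) (l 16776432)) (l 16771336))))), by decide +kernel⟩

def k4_pp_012_s : ∃ t, chk3 f_pp_012_s t 21 19 1 = true :=
  ⟨(a (b (a (l 3) (b (a (l 3) (b (a (a (l 176261430263) (b (l 88214602199) (l 3))) (b (l 16775960) (a (l 160155303447) (a (l 97878280615) (l 16776888))))) (l 3))) (l 3))) (l 3)) (b (a (b (a (b (a (l 16777672) (l 16773328)) (a (a (l 168208366711) (b (a (l 89825216967) (l 16776808)) (l 3))) (b (l 16775760) (a (l 147270401655) (a (l 82309024103) (l 16776720)))))) (b (l 16775992) (c (l 16776656) (l 16776552)))) (a (l 3) (b (a (b (a (l 140827950743) (a (l 74792831191) (l 16776624))) (l 3)) (b (l 16775568) (c (a (l 134385499863) (l 23790094263)) (a (l 134922370711) (l 23790094199))))) (l 192367556855)))) (b (c (l 16777888) (l 16777528)) (a (b (c (l 16776472) (l 16776344)) (b (a (a (c (l 127406176663) (l 127943047543)) (c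 (l 16778104) (l 16778080))) (l 16775360)) (a (l 185388236007) (a (b (l 16777944) (l 163913400007)) (a (l 16778040) (l 16776328)))))) (b (l 16775600) (c (l 16776272) (l 16776128)))))) (a (l 3) (b (a (b (a (l 3) (l 185925105927)) (l 3)) (b (a (a (b (b (l 16778176) (l 153175981815)) (l 3)) (b (l 16777896) (l 160692174423))) (b (l 16775144) (a (b (l 16776768) (l 116131891383)) (l 16777624)))) (a (l 3) (a (l 3) (a (l 192367557815) (b (l 146196659287) (l 3))))))) (l 3))))), by decide +kernel⟩

def k5_pp_012_s : ∃ t, chk3 f_pp_012_s t 11 8 1 = true :=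
  ⟨(a (b (a (l 16695584) (l 16682408)) (a (b (l 16712624) (a (b (l 16724160) (l 16730000)) (b (l 16717840) (l 16723296)))) (b (l 16699120) (l 16731688)))) (b (l 16683088) (a (l 16691160) (l 16677208)))), by decide +kernel⟩

def k6_pp_012_s : ∃ t, chk3 f_pp_012_s t 22 9 1 = true :=
  ⟨(b (b (a (l 16756472) (a (b (l 16722440) (l 16728480)) (l 16745096))) (a (a (l 16771960) (l 16744280)) (a (l 16737560) (l 16730792)))) (a (b (b (a (l 16770912) (l 16753656)) (a (c (l 16777536) (l 16777104)) (l 16770512))) (a (b (a (b (a (l 16776848) (l 16777752)) (a (a (b (b (l 16776664) (a (l 140827952519) (l 87677732343))) (l 3)) (b (l 16776208) (a (l 179482656391) (b (l 80698410439) (l 3))))) (a (b (l 16775352) (b (l 16776552) (a (l 126869308855) (l 74255959335)))) (l 16777912)))) (b (l 16775184) (a (l 16776624) (l 16777528)))) (a (b (a (l 3) (a (l 3) (b (a (l 162302787255) (b (l 68350379127) (l 3))) (l 3)))) (l 3)) (b (b (a (a (b (l 16776440) (a (l 109689439863) (l 60834186263))) (l 16775976))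 (l 16774688)) (a (a (l 194515041767) (b (a (l 102173247111) (l 16777680)) (l 189146332855))) (a (b (l 16776320) (a (a (l 114521277687) (l 82845893815)) (l 16777552))) (l 16775864)))) (b (a (l 3) (a (l 188072590887) (b (a (a (l 104857601287) (l 75329700887)) (l 16776840)) (l 168208367351)))) (l 3))))) (b (a (l 16773360) (l 16775184)) (a (b (a (l 16776392) (l 16777296)) (b (a (a (a (b (l 16776416) (a (l 94657054007) (l 66739766199))) (l 16777696)) (l 16775736)) (l 16777072)) (b (a (a (c (l 161765916503) (l 164450270919)) (a (b (l 16776952) (l 103783859319)) (l 16776720))) (l 16776960)) (a (a (l 3) (c (l 155323465575) (l 157470949095))) (b (l 16777552) (a (a (l 92509570135) (l 16776864)) (l 16776216))))))) (b (l 16774720) (a (l 16776152) (l 16777048))))))) (a (b (c (l 16771640) (l 16770352)) (b (l 16769720) (a (c (l 16773120) (l 16772624)) (l 16774688)))) (b (l 16764200) (c (l 16766920) (l 16765760)))))), by decide +kernel⟩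

def k7_pp_012_s : ∃ t, chk3 f_pp_012_s t 23 9 1 = true :=
  ⟨(b (a (b (l 16708736) (a (l 16744616) (l 16738104))) (b (l 16694392) (l 16706696))) (b (a (a (l 16736360) (l 16729440)) (a (l 16743040) (l 16715264))) (a (a (l 16769936) (l 16742016)) (l 16752376)))), by decide +kernel⟩

def k8_pp_012_s : ∃ t, chk3 f_pp_012_s t 10 5 1 = true :=
  ⟨(l 3), by decide +kernel⟩

def k9_pp_012_s : ∃ t, chk3 f_pp_012_s t 44 20 1 = true :=
  ⟨(b (a (l 3) (b (a (b (a (l 3) (b (a (a (l 3) (b (c (l 136532983703) (l 137606724823)) (l 3))) (b (a (a (b (l 16776936) (l 109689438967)) (l 16777568)) (l 16776600)) (a (l 194515042071) (b (c (l 77477184359) (l 78014055255)) (l 188609462135))))) (l 3))) (l 3)) (b (a (a (b (a (a (b (l 16776272) (b (l 16776872) (l 94120182503))) (l 5536481895)) (l 16776136)) (a (l 191830687399) (b (b (c (l 66739766023) (l 66739766007)) (l 166060883847)) (l 3)))) (b (l 16776800) (a (b (a (b (l 16776808) (l 78550926055)) (l 16776792)) (l 168745238359)) (b (l 16776472) (b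 (c (l 31306285655) (l 29158802055)) (c (l 152639111111) (l 154786594695))))))) (b (l 16776816) (a (a (a (b (l 16776144) (c (l 22716351079) (l 21105738311))) (l 16777640)) (l 16777320)) (l 16776672)))) (b (a (l 3) (a (b (a (c (l 159081562023) (l 161765916471)) (b (c (l 16777328) (l 16777320)) (a (l 193441300375) (a (l 117205631671) (l 86603989607))))) (l 3)) (a (b (c (l 16777432) (l 10905190887)) (a (l 188609462119) (b (b (l 71034732919) (l 139217338887)) (l 3)))) (b (l 16776344) (b (c (l 16776944) (l 16776928)) (a (l 141364822759) (c (l 88751473335) (l 89825215143)))))))) (l 3)))) (l 3))) (l 3)), by decide +kernel⟩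

def k10_pp_012_s : ∃ t, chk3 f_pp_012_s t 45 40 1 = true :=
  ⟨(a (b (a (b (c (l 16776464) (l 16777520)) (a (b (c (a (l 16777432) (l 16777904)) (a (l 16777376) (l 16777800))) (b (a (a (a (l 174650818423) (b (c (l 81235280519) (l 81772151431)) (l 3))) (b (l 16776872) (a (l 125795566327) (a (l 86067118679) (l 16777104))))) (l 16777080)) (a (l 3) (a (b (a (l 117742502647) (l 38285607463)) (l 3)) (b (l 16776808) (a (l 109689438967) (l 16777416))))))) (c (l 16777424) (l 16777288)))) (a (a (b (l 16770256) (l 16776056)) (l 16776232)) (l 16774936))) (a (b (a (c (l 199346880071) (l 199346879383)) (b (a (b (a (b (c (l 78550925495) (l 79087796391)) (l 178945785751)) (b (l 16776744) (c (l 72645346071) (l 73182216967)))) (l 182167011095)) (b (l 16776288) (a (b (c (l 68350378631) (l 67276636871)) (l 164987142055)) (c (l 28085060247) (l 25400705687))))) (a (l 3) (c (l 180556398423) (l 185388236327))))) (l 3)) (b (a (b (l 16777360) (b (a (a (b (l 33990640231) (l 122037470343)) (l 22716351111))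 (l 16776152)) (a (c (l 166597754791) (l 170892721911)) (a (b (l 16776960) (l 109689439367)) (l 16776736))))) (c (l 16777160) (l 16777000))) (b (b (a (a (l 3) (a (l 3) (b (l 103783859335) (l 3)))) (a (a (b (l 16776896) (l 97878279271)) (l 16776664)) (l 16776016))) (a (l 3) (b (a (a (l 3) (l 92509570103)) (l 16776616)) (a (l 3) (a (l 87140860967) (l 16776792)))))) (b (a (l 3) (a (l 3) (a (l 197736267623) (b (l 83382764391) (l 182703882151))))) (l 3)))))) (b (a (c (l 16777864) (l 16777296)) (l 16763640)) (a (b (a (l 16777976) (l 16771000)) (b (a (l 16777736) (l 16776000)) (a (a (a (b (a (l 38822478711) (l 16776848)) (l 181093269367)) (b (l 16776528) (a (l 112910665079) (l 84993376711)))) (c (l 16777608) (l 16777632))) (l 16776280)))) (c (l 16775440) (l 16775008))))), by decide +kernel⟩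

def k11_pp_012_s : ∃ t, chk3 f_pp_012_s t 45 41 1 = true :=
  ⟨(a (l 3) (b (a (b (b (a (a (l 3) (a (l 179482656567) (b (a (l 102710117735) (l 75329700855)) (l 3)))) (a (b (l 16777248) (a (l 160692174743) (a (l 94120183031) (l 38822478727)))) (l 6610223879))) (b (a (l 3) (a (l 3) (a (c (l 149954756567) (l 153712852855)) (a (l 85530248279) (l 16776984))))) (l 3))) (l 3)) (b (a (b (l 16777448) (b (l 16777328) (a (a (l 111836923575) (l 64592282663)) (l 16776384)))) (l 16776504)) (a (a (l 211694911079) (b (a (l 153175981943) (b (l 16776944) (l 198273138583))) (l 3))) (a (b (a (b (l 16776528) (l 94657054311)) (l 16776480)) (l 197736267575)) (b (l 16775832) (b (l 68887250567) (l 183240753047))))))) (l 3))), by decide +kernel⟩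

def k12_pp_012_s : ∃ t, chk3 f_pp_012_s t 22 21 1 = true :=
  ⟨(l 3), by decide +kernel⟩

def k13_pp_012_s : ∃ t, chk3 f_pp_012_s t 23 10 1 = true :=
  ⟨(b (a (b (a (a (a (l 16774704) (l 16772960)) (l 16770352)) (l 16775624)) (a (b (b (c (l 16775008) (l 16774528)) (a (a (a (b (l 16774968) (l 44191188535)) (l 16774888)) (l 16773584)) (l 16776208))) (a (b (a (a (l 176798301943) (b (a (l 99488893671) (l 72108476375)) (l 3))) (b (l 16778088) (a (l 156934078343) (l 76940314967)))) (l 3)) (b (a (l 16777640) (l 16778520)) (a (a (l 163376529239) (b (l 67813509127) (l 3))) (b (l 16775664) (c (l 82845895895) (l 83382766743))))))) (b (l 16774640) (a (l 16777496) (l 16779256))))) (a (b (l 16747624) (a (l 16772584) (l 16779544))) (b (l 16740464) (l 16774184)))) (a (b (a (b (a (l 3) (l 206863072935)) (l 3)) (b (a (b (a (b (c (l 75329702919) (l 75329702855)) (l 193441300423)) (b (l 16775344) (l 68887251703))) (l 192904429495)) (b (l 16773520) (a (b (l 60834187751) (l 172503334903)) (l 16778392))))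 (a (l 3) (l 188072588903)))) (l 3)) (b (a (b (a (l 16776856) (l 16778584)) (a (b (a (b (l 16776384) (l 107541959127)) (l 16775456)) (l 168745233447)) (b (l 16772840) (a (l 68350382087) (l 16775120))))) (b (l 16773264) (c (l 16779888) (l 16779328)))) (a (b (a (l 3) (b (a (l 3) (l 131164274711)) (l 3))) (l 3)) (b (a (b (a (l 56539221351) (l 16774760)) (a (l 3) (l 93583316439))) (b (l 16772104) (l 31843159175))) (a (l 3) (b (a (l 174650819127) (l 82845897431)) (l 3)))))))), by decide +kernel⟩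

def k14_pp_012_s : ∃ t, chk3 f_pp_012_s t 11 11 1 = true :=
  ⟨(l 3), by decide +kernel⟩

def k15_pp_012_s : ∃ t, chk3 f_pp_012_s t 2 3 1 = true :=
  ⟨(l 3), by decide +kernel⟩

def k16_pp_012_s : ∃ t, chk3 f_pp_012_s t 12 4 1 = true :=
  ⟨(a (b (b (l 16633600) (a (l 16662784) (l 16647816))) (b (a (l 16685776) (l 16670632)) (a (b (l 16704392) (a (l 16720016) (l 16712832))) (a (l 16720032) (l 16690848))))) (b (a (b (l 16610744) (l 16632304)) (b (b (l 6) (l 16600648)) (l 16616704))) (b (a (l 16655000) (l 16639152)) (a (b (l 16672920) (l 16685240)) (b (l 16656904) (l 16669128)))))), by decide +kernel⟩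

def k17_pp_012_s : ∃ t, chk3 f_pp_012_s t 24 5 1 = true :=
  ⟨(b (b (a (b (l 16750296) (a (l 16745928) (l 16738408))) (b (a (l 16738200) (b (l 16706528) (l 16712464))) (a (l 16730560) (l 16722328)))) (a (b (a (l 16769240) (l 16772312)) (a (b (a (l 16770120) (l 16766504)) (a (b (l 16774848) (a (l 157470949927) (l 71034736647))) (l 16772880))) (a (b (l 16762848) (l 16779744)) (l 16783328)))) (a (b (l 16743552) (l 16772288)) (b (l 16735384) (l 16769424))))) (b (a (b (a (b (a (l 3) (b (a (l 113984411527) (l 16776584)) (l 3))) (l 3)) (b (a (b (l 16774056) (a (l 102173250839) (l 16776240))) (l 16772016)) (a (l 169282111943) (b (l 63518544983) (l 152639112791))))) (l 3)) (b (a (b (a (l 16778760) (l 16764376)) (a (b (l 16773136) (l 50096772103)) (l 16770936))) (a (b (l 16760360) (l 16766968)) (l 16780552))) (a (b (a (l 148881017447) (b (l 38822482455) (l 134922372471))) (l 3)) (b (a (b (l 16771984) (l 16780544)) (l 16769656)) (a (b (l 98415158679) (l 3)) (b (l 16774800) (a (l 113447542647)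 (l 16779600)))))))) (l 3))), by decide +kernel⟩

def k18_pp_012_s : ∃ t, chk3 f_pp_012_s t 25 10 1 = true :=
  ⟨(b (a (b (a (l 16701688) (l 16693752)) (a (b (l 16710776) (l 16717344)) (b (l 16703400) (l 16709480)))) (a (b (l 16685992) (l 16698856)) (l 16683576))) (a (b (a (l 16727112) (l 16719192)) (a (l 16740192) (l 16732120))) (b (a (b (l 16708216) (l 16714616)) (b (l 16699600) (l 16705800))) (a (l 16724168) (l 16715392))))), by decide +kernel⟩

def k19_pp_012_s : ∃ t, chk3 f_pp_012_s t 25 11 1 = true :=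
  ⟨(b (a (b (a (c (l 16775216) (l 16773504)) (c (l 16767248) (l 16765056))) (a (b (a (l 16765552) (l 16761408)) (a (b (l 16781232) (l 16778192)) (c (l 16779104) (l 16778560)))) (c (a (l 16782168) (l 16778120)) (a (c (l 16781408) (l 16770392)) (l 16766392))))) (b (a (l 16758008) (l 16728232)) (a (a (a (l 16774408) (l 16751384)) (l 16769064)) (c (l 16763384) (l 16761400))))) (a (b (b (a (a (b (c (l 72108483079) (c (l 73182224743) (l 67276644807))) (l 3)) (c (b (l 16773792) (l 56539226135)) (b (l 16773584) (c (l 55465484231) (l 50633645975))))) (a (c (l 16771440) (b (l 16779736) (l 16772968))) (c (l 16777792) (c (l 16777384) (l 16777096))))) (c (a (l 151028507543) (a (b (l 42580581671) (l 140827955015)) (b (l 16772592) (l 16781280)))) (a (a (l 3) (l 157470954903)) (b (a (a (l 65129159191) (l 16775584)) (l 16772344)) (a (l 144586051047) (c (l 16810776791) (l 16775928))))))) (a (l 3) (a (l 3) (a (l 3) (b (c (l 141901697079) (l 142438567895)) (l 3)))))) (b (a (a (b (c (l 16763184)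 (l 16772912)) (c (l 16770184) (b (l 16778440) (l 16771704)))) (b (l 16758464) (c (l 16776400) (l 16775840)))) (a (b (l 16754024) (l 16771680)) (l 16763640))) (a (b (a (b (c (l 16780736) (a (l 16779088) (l 16774384))) (c (l 78550938231) (a (l 3) (l 63518548583)))) (c (l 16773080) (a (a (l 16779808) (l 16773480)) (l 16771792)))) (a (l 3) (b (c (l 70497873287) (a (l 114521284519) (l 52781128615))) (l 3)))) (c (b (a (l 16768752) (l 16774856)) (a (b (l 16774256) (l 61907936919)) (l 16771736))) (a (b (l 16768368) (b (l 16776088) (a (l 102710124871) (l 28621936743)))) (b (l 16774288) (a (l 16772648) (l 16770360))))))))), by decide +kernel⟩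

def k20_pp_012_s : ∃ t, chk3 f_pp_012_s t 13 2 1 = true :=
  ⟨(b (b (a (b (a (b (l 6) (l 16586112)) (l 6)) (a (l 16601824) (b (l 16583288) (l 16593736)))) (b (l 6) (a (b (l 6) (l 16581448)) (l 6)))) (a (b (a (l 16623488) (l 16609584)) (a (b (l 16640688) (l 16652600)) (b (l 16626216) (l 16637800)))) (b (a (l 16597008) (l 16584848)) (a (l 16618608) (l 16605720))))) (a (b (a (b (b (l 16664760) (l 16677200)) (b (a (l 16694088) (l 16685840)) (a (b (l 16703648) (l 16710088)) (b (l 16695472) (l 16701952))))) (b (a (l 16659464) (l 16652144)) (a (l 16705440) (l 16676824)))) (b (a (b (a (l 16719664) (l 16711464)) (a (l 16753808) (l 16724584))) (b (a (b (l 16700496) (l 16706768)) (l 16716920)) (a (l 16716560) (l 16708496)))) (b (a (a (a (l 16769776) (l 16765520)) (l 16748768)) (a (l 16751032) (l 16721976))) (a (a (a (a (a (l 16770344) (l 16769240)) (l 16767600)) (b (l 16755352) (l 16773256))) (b (l 16759432) (c (l 16767152) (l 16766352)))) (a (b (l 16740560) (l 16758256)) (c (l 16757616)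 (l 16756104))))))) (b (b (a (l 16641528) (l 16627760)) (a (l 16686528) (l 16651024))) (b (a (b (l 16684128) (a (l 16721704) (l 16693184))) (b (l 16669128) (l 16681616))) (a (b (a (l 16714016) (l 16726944)) (a (l 16748728) (l 16740640))) (b (a (l 16719320) (l 16690776)) (a (l 16711624) (b (l 16700408) (l 16707000))))))))), by decide +kernel⟩

def k21_pp_012_s : ∃ t, chk3 f_pp_012_s t 12 6 1 = true :=
  ⟨(b (a (l 3) (b (a (l 3) (b (a (l 3) (b (a (l 3) (b (c (a (l 79087804775) (l 16776184)) (a (l 74792837415) (l 16778744))) (a (l 3) (l 164450275111)))) (l 3))) (l 3))) (l 3))) (l 3)), by decide +kernel⟩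

def k22_pp_012_s : ∃ t, chk3 f_pp_012_s t 26 12 1 = true :=
  ⟨(b (a (b (a (b (a (b (l 16772864) (a (a (l 80161545015) (l 16779672)) (l 16775528))) (l 16770304)) (a (a (l 3) (l 159618436055)) (a (b (l 31843162295) (l 3)) (b (l 16774864) (l 81772159447))))) (b (a (b (l 16764024) (l 16767776)) (l 16772024)) (a (b (l 16771536) (c (l 16775280) (l 16780432))) (l 16768992)))) (a (l 3) (b (a (b (a (l 165524017399) (l 68887256279)) (l 3)) (b (l 16777848) (a (l 147270405351) (l 54928608647)))) (l 3)))) (b (a (a (b (l 16757224) (a (l 16765712) (l 16763536))) (b (l 16752952) (l 16770768))) (b (l 16757104) (c (l 16764776) (l 16763888)))) (a (b (a (a (l 16773128) (l 16770928)) (b (l 16765792) (c (l 16780112) (l 16774560)))) (b (a (a (l 132774889495) (a (l 16779552) (l 16775912))) (l 16773168)) (a (l 3) (a (a (l 90362092375) (l 62981673895)) (l 16778336))))) (a (c (b (l 16774032) (l 16770736)) (b (l 16773496) (l 16770472))) (b (l 16764216) (b (l 16764408) (l 16773296))))))) (a (l 3) (b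 (a (b (a (l 3) (b (a (l 3) (l 151028501943)) (l 3))) (l 3)) (b (b (a (a (a (l 74255963591) (l 16779216)) (l 16774992)) (l 16773008)) (b (a (a (l 3) (l 78014059239)) (l 16774432)) (a (l 3) (a (l 67276640263) (l 16775160))))) (a (l 3) (b (a (l 167134630631) (c (l 81772157223) (b (l 16779520) (l 153175984743)))) (l 3))))) (l 3)))), by decide +kernel⟩

def k23_pp_012_s : ∃ t, chk3 f_pp_012_s t 27 24 1 = true :=
  ⟨(b (a (a (b (l 16738296) (l 16755904)) (c (l 16755280) (l 16753688))) (a (c (l 16747064) (l 16745152)) (l 16737960))) (b (a (a (c (l 16763512) (l 16762576)) (a (l 16746192) (l 16741904))) (a (a (l 16737600) (l 16733320)) (l 16727032))) (a (a (a (l 16767136) (l 16762832)) (c (l 16762088) (l 16761064))) (a (c (l 16753560) (l 16752192)) (l 16744344))))), by decide +kernel⟩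

def k24_pp_012_s : ∃ t, chk3 f_pp_012_s t 27 50 1 = true :=
  ⟨(a (a (b (a (b (l 16772560) (a (a (l 16772592) (l 16771496)) (l 16769848))) (a (l 16771104) (l 16768936))) (c (a (b (l 16779856) (a (l 155323469271) (l 64055415831))) (c (l 16772152) (l 16772048))) (a (b (a (l 16778248) (l 16769472)) (a (l 149417889239) (b (l 16776160) (l 89288348343)))) (c (l 16771944) (c (l 16774480) (l 16774424)))))) (c (b (a (l 16771224) (l 16756424)) (c (a (l 16778352) (l 16774040)) (l 16770728))) (a (b (l 16770560) (b (l 16765552) (c (l 16774544) (l 16774376)))) (b (l 16755576) (l 16768088))))) (a (a (b (l 16756832) (c (l 16769544) (l 16758304))) (c (c (l 16762000) (l 16761496)) (l 16760696))) (a (c (l 16757480) (l 16756264)) (b (l 16738640) (l 16756064))))), by decide +kernel⟩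

def k25_pp_012_s : ∃ t, chk3 f_pp_012_s t 27 51 1 = true :=
  ⟨(a (a (b (a (l 3) (b (b (c (a (l 81772154967) (l 16775448)) (a (l 75329702839) (l 16775376))) (a (l 3) (c (l 67276639751) (l 63518542023)))) (a (l 3) (c (l 174113952135) (l 173040210295))))) (l 3)) (b (a (b (c (l 16773080) (l 16774216)) (a (b (c (l 16779400) (l 20568869831)) (c (l 113447540567) (l 153712855351))) (c (l 16778464) (l 16778064)))) (c (c (l 16773160) (l 16770408)) (b (l 16773584) (l 16772040)))) (a (b (a (l 3) (b (c (l 101636379815) (l 140827952775)) (l 3))) (l 3)) (a (b (b (c (l 16776008) (l 16775960)) (a (c (l 120426860919) (l 163913402247)) (c (l 16778456) (l 16778448)))) (l 3)) (b (c (l 16774712) (l 16774608)) (b (a (c (l 102710120151) (l 102710120151)) (c (l 16776816) (l 16776792))) (c (l 182703885559) (l 180556401895)))))))) (a (c (a (a (b (l 16771112) (c (a (b (l 16773096) (l 15200160903)) (l 16776392)) (l 16779488))) (b (l 16770232) (c (l 16772128) (l 16772032)))) (c (a (c (c (l 16771768) (l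 16771712)) (l 16769016)) (c (l 16770888) (l 16769456))) (a (l 16768864) (l 16769272)))) (b (a (a (l 16772016) (l 16769736)) (l 16766328)) (a (a (a (b (l 16767648) (b (l 16775680) (l 83919637527))) (b (l 16771744) (l 16775456))) (l 16773192)) (b (l 16771832) (a (a (l 16772008) (l 16770864)) (l 16769144)))))) (a (c (b (l 16762592) (b (l 16767848) (c (l 16771472) (l 16766032)))) (b (l 16767064) (b (l 16762048) (l 16770960)))) (b (c (l 16753056) (l 16752128)) (c (c (l 16765400) (l 16759864)) (l 16769864)))))), by decide +kernel⟩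

def k26_pp_012_s : ∃ t, chk3 f_pp_012_s t 13 13 1 = true :=
  ⟨(a (l 3) (b (a (l 3) (b (b (a (a (b (a (b (c (c (l 131701151847) (l 125258700903)) (l 167671499335)) (l 3)) (c (c (c (l 65666029031) (l 70497867223)) (l 75866576487)) (b (a (l 16778368) (l 16775952)) (l 153175982743)))) (l 3)) (c (b (c (c (l 16776776) (l 16774128)) (l 16774088)) (a (c (c (l 143512308455) (l 147270404839)) (l 154249726695)) (c (b (l 16775704) (c (l 72645349335) (l 16779240))) (l 10905194615)))) (b (b (l 16773072) (a (l 16777384) (l 16771160))) (b (a (a (l 179482658903) (l 78550928167)) (l 16775640)) (a (l 3) (a (l 157470950823) (l 16778288))))))) (a (c (c (c (c (l 16774176) (l 16771528)) (l 16771496)) (l 16771424)) (c (l 16773936) (b (a (l 16775736) (l 16768176)) (l 16774384)))) (b (c (c (l 16770624) (l 16765176)) (l 16770096)) (a (c (c (l 16775232) (l 16769864)) (l 16769664)) (c (l 16770344) (l 16767384)))))) (a (l 3) (b (c (c (a (a (b (c (l 16778328) (l 16777016)) (l 178408917719)) (c (l 16778344)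 (l 16775712))) (c (l 16772440) (l 16772400))) (a (a (l 91972702023) (l 16775688)) (l 16772336))) (a (a (b (a (l 98415152295) (l 16776464)) (l 185925110471)) (a (b (l 16770072) (l 75329702375)) (l 16775088))) (l 16773520))) (a (a (l 3) (b (c (c (a (l 3) (l 107541958151)) (l 119353120295)) (l 169282110183)) (l 3))) (a (c (c (b (l 16778144) (c (l 103783863127) (l 102173250375))) (l 69960990455)) (b (l 16778744) (a (l 196662528167) (l 89288346455)))) (c (c (l 16776168) (l 16774816)) (l 16774752))))))) (a (l 3) (b (a (l 3) (b (a (l 3) (b (c (c (c (l 88751476663) (l 86603992999)) (l 16780032)) (a (l 171966465479) (l 16776920))) (l 3))) (l 3))) (l 3))))) (l 3))), by decide +kernel⟩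

def k27_pp_012_s : ∃ t, chk3 f_pp_012_s t 6 7 1 = true :=
  ⟨(l 3), by decide +kernel⟩

def k28_pp_012_s : ∃ t, chk3 f_pp_012_s t 7 2 1 = true :=
  ⟨(a (b (b (l 6) (a (b (a (l 16573304) (l 6)) (a (l 16593376) (l 16581592))) (b (l 6) (a (l 16570840) (l 6))))) (b (a (b (a (l 16614472) (l 16602088)) (a (l 16658032) (l 16624056))) (a (b (l 16590864) (l 16612472)) (b (l 16581288) (l 16602520)))) (a (b (a (b (l 16654776) (l 16667056)) (b (l 16641568) (l 16653768))) (a (b (l 16679704) (a (l 16717192) (l 16689000))) (b (l 16666208) (l 16689328)))) (a (b (a (l 16659720) (l 16654240)) (b (l 16664704) (l 16666536))) (b (l 16636464) (b (l 16643896) (l 16655824))))))) (b (l 6) (b (a (b (a (l 16573336) (l 6)) (a (l 16594232) (l 16587064))) (a (b (l 6) (l 16580128)) (l 6))) (a (a (b (l 16638232) (b (l 16634832) (l 16645696))) (b (l 16609456) (b (l 16622312) (l 16631688)))) (a (b (l 16598056) (a (l 16617096) (l 16610552))) (b (l 16595992) (b (l 16596240) (l 16621128)))))))), by decide +kernel⟩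

def k29_pp_012_s : ∃ t, chk3 f_pp_012_s t 28 12 1 = true :=
  ⟨(b (a (b (a (l 16730152) (b (l 16698712) (l 16705176))) (a (a (l 16724344) (l 16720408)) (l 16735736))) (b (a (l 16716056) (l 16688424)) (a (l 16718232) (l 16722216)))) (a (a (a (c (b (l 16738640) (b (l 16748816) (l 16760960))) (b (l 16737168) (b (l 16747768) (l 16754952)))) (b (l 16749560) (b (l 16754592) (c (l 16751488) (l 16750608))))) (a (b (l 16750832) (b (l 16740008) (l 16752128))) (b (l 16726024) (c (l 16760984) (l 16759792))))) (a (b (c (l 16742376) (l 16740640)) (b (l 16751344) (a (l 16738896) (l 16735168)))) (a (c (l 16738440) (l 16734360)) (a (l 16735264) (l 16733712)))))), by decide +kernel⟩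

def k30_pp_012_s : ∃ t, chk3 f_pp_012_s t 56 26 1 = true :=
  ⟨(a (a (b (c (b (b (l 16766176) (c (l 16769784) (l 16764328))) (c (b (l 16770656) (l 16774168)) (l 16769672))) (b (b (l 16760368) (l 16769240)) (c (l 16769552) (l 16771544)))) (b (c (c (a (b (c (b (l 16775304) (l 71034735799)) (l 16778776)) (l 190756950215)) (b (l 16773968) (b (c (l 16776600) (l 16776600)) (l 167671498727)))) (b (c (l 16780272) (l 16777632)) (a (l 192904433847) (l 82845895703)))) (b (a (a (b (l 16775792) (l 102173248679)) (l 16775560)) (l 16773840)) (a (l 197199401127) (b (c (l 16776576) (l 16778528)) (l 173040207831))))) (l 3))) (b (c (a (b (l 16764696) (a (l 16769608) (l 16768192))) (b (l 16757328) (l 16766896))) (b (l 16768248) (a (b (l 16764272) (l 16767904)) (l 16769104)))) (b (c (a (c (c (l 16776160) (l 16776136)) (l 16773472)) (c (l 16772640) (l 16771248))) (a (b (l 16766304) (l 16777824)) (l 16771104))) (b (a (b (c (c (c (l 107541959111) (l 105394475463)) (l 104320733975)) (l 153712854279))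 (l 3)) (c (c (a (b (l 16776264) (l 121500602119)) (l 16778648)) (l 16779168)) (b (l 16775648) (c (l 88751476599) (l 89288344871))))) (l 3))))) (b (a (b (c (l 16759416) (l 16753440)) (c (b (l 16759320) (l 16765400)) (a (l 16772136) (l 16759472)))) (a (b (l 16750688) (c (l 16763136) (l 16757320))) (b (l 16748640) (l 16758136)))) (b (c (c (a (b (l 16771576) (l 16769800)) (l 16769032)) (b (l 16769248) (l 16770776))) (a (l 16772968) (b (l 16761536) (l 16759840)))) (a (b (c (c (c (l 16773288) (l 16773264)) (l 16773224)) (l 16773136)) (a (b (c (c (c (l 16778952) (l 16779600)) (l 16776976)) (l 68350378631)) (c (c (l 186998852167) (l 188072593991)) (l 192904432183))) (c (c (b (l 16774792) (l 16778496)) (l 16775640)) (l 16778224)))) (c (c (b (l 16768928) (l 16773688)) (l 16770576)) (l 16772232)))))), by decide +kernel⟩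

def k31_pp_012_s : ∃ t, chk3 f_pp_012_s t 57 26 1 = true :=
  ⟨(a (b (a (b (l 16750880) (c (l 16763248) (l 16752088))) (b (l 16752304) (a (l 16749480) (l 16747584)))) (c (b (a (l 16762136) (l 16755536)) (a (c (l 16769024) (l 16766272)) (l 16764856))) (b (b (l 16757928) (l 16763832)) (a (l 16766056) (l 16761880))))) (b (c (l 16750640) (l 16748520)) (a (b (l 16756712) (c (l 16758304) (l 16757912))) (c (l 16756528) (l 16756040))))), by decide +kernel⟩

def k32_pp_012_s : ∃ t, chk3 f_pp_012_s t 56 27 1 = true :=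
  ⟨(b (a (l 3) (b (a (b (a (l 3) (b (c (c (l 166597756727) (l 123111216135)) (l 171966465831)) (l 3))) (l 3)) (b (c (c (a (b (l 16776072) (a (l 191293818807) (l 16778544))) (l 16774744)) (a (l 64055412791) (l 16774712))) (a (b (l 16776032) (l 103783862855)) (l 16774664))) (a (l 3) (c (c (b (c (l 79087800023) (l 76940316375)) (l 207399947351)) (l 151028497527)) (b (l 82845896375) (l 210084301863)))))) (l 3))) (l 3)), by decide +kernel⟩

def k33_pp_012_s : ∃ t, chk3 f_pp_012_s t 57 27 1 = true :=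
  ⟨(b (a (b (a (c (b (c (l 16771504) (l 16771440)) (a (c (c (l 16778792) (l 16778624)) (l 16778608)) (l 16774480))) (b (l 16771320) (a (l 16778584) (l 16773736)))) (c (c (l 16771624) (l 16768912)) (l 16771384))) (a (b (a (c (c (l 191830691479) (l 192904433271)) (l 197199400535)) (c (c (b (l 16776392) (l 160155305431)) (b (l 16776384) (l 116131893751))) (b (l 16776368) (l 121500602871)))) (l 3)) (b (c (c (l 16776640) (l 16773984)) (l 16776544)) (a (b (c (c (l 92509572823) (l 91435830999)) (l 97341411047)) (l 3)) (a (c (c (l 54928605591) (l 16779456)) (l 16779448)) (c (l 16777728) (l 16775728))))))) (a (b (c (c (l 16764936) (l 16764816)) (l 16764608)) (c (c (a (l 16772536) (l 16770464)) (l 16773400)) (a (l 16772392) (l 16770264)))) (c (b (l 16760912) (l 16769976)) (b (l 16760584) (l 16772376))))) (a (b (a (l 3) (b (a (l 3) (b (c (l 192904432183) (l 200420624903)) (l 3))) (l 3))) (l 3)) (a (b (b (a (c (b (c (l 16779288) (l 16776664)) (a (l 3) (l 111836924263))) (a (l 113984410103)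 (l 16779576))) (c (c (l 16775376) (l 16775352)) (l 16775320))) (a (l 3) (b (c (c (l 146196661239) (l 104320732887)) (l 110763183815)) (l 3)))) (l 3)) (b (a (b (c (l 16773256) (l 16773160)) (a (c (b (l 16776248) (l 124184955719)) (l 67813510391)) (c (l 16778632) (l 16775984)))) (c (l 16775432) (l 16772704))) (b (c (a (l 209547431927) (b (l 52781122839) (l 180019529703))) (a (l 212768657319) (a (l 126332440983) (l 74792832119)))) (l 3)))))), by decide +kernel⟩

def k34_pp_012_s : ∃ t, chk3 f_pp_012_s t 29 6 1 = true :=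
  ⟨(b (a (b (b (l 16679016) (l 16691992)) (a (b (l 16707680) (l 16720272)) (b (l 16701624) (l 16714176)))) (b (b (l 16667784) (l 16679856)) (a (b (l 16695520) (l 16706712)) (b (l 16688496) (l 16699120))))) (b (a (a (a (b (l 16734640) (a (l 16753544) (l 16746488))) (b (l 16731312) (l 16749048))) (b (l 16736456) (c (l 16748640) (l 16738248)))) (a (b (l 16718128) (l 16736976)) (b (l 16710440) (l 16728032)))) (a (b (a (c (a (b (l 16757056) (l 16763360)) (l 16761640)) (a (l 16765136) (l 16756008))) (c (a (l 16752640) (l 16748944)) (l 16755560))) (a (b (a (c (l 16772352) (l 16769552)) (c (l 16765704) (l 16765440))) (a (b (a (c (l 16778208) (l 16775544)) (l 16773456)) (a (b (c (l 154786596055) (l 96804542279)) (l 3)) (b (l 16777536) (a (l 139217341447) (l 41506833943))))) (c (a (l 16775664) (l 16770992)) (l 16774504)))) (a (b (l 16764224) (a (l 16768872) (l 16766840))) (c (l 16766192) (l 16765824))))) (a (b (c (l 16748528) (l 16742920)) (c (a (l 16762320) (l 16753248)) (b (l 16751664)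 (l 16757672)))) (b (a (l 16737696) (l 16733952)) (c (a (l 16749440) (l 16745624)) (b (l 16743984) (l 16749776)))))))), by decide +kernel⟩

def k35_pp_012_s : ∃ t, chk3 f_pp_012_s t 15 6 1 = true :=
  ⟨(b (a (b (a (b (l 16656096) (l 16666856)) (b (l 16642008) (l 16652736))) (a (b (a (l 16681112) (l 16673896)) (a (l 16691728) (l 16684544))) (b (a (l 16666840) (l 16659944)) (a (l 16677520) (l 16670664))))) (b (a (b (l 16628568) (l 16639240)) (b (a (l 16618768) (l 16612352)) (a (l 16629400) (l 16622880)))) (a (b (a (l 16632224) (l 16625568)) (a (l 16663904) (l 16636248))) (b (a (l 16639936) (l 16633336)) (a (l 16629576) (l 16622896)))))) (a (b (a (b (a (l 16703016) (l 16695856)) (a (l 16715344) (l 16708072))) (b (a (l 16688864) (l 16682032)) (a (l 16701144) (l 16694272)))) (a (b (a (l 16728432) (l 16721224)) (a (b (l 16736704) (l 16742264)) (l 16736992))) (b (a (l 16714024) (l 16706560)) (a (l 16724008) (l 16716328))))) (b (a (b (a (l 16675288) (l 16668552)) (a (l 16687512) (l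 16680744))) (b (a (l 16661816) (l 16655080)) (a (l 16673976) (l 16667200)))) (a (b (a (l 16698976) (l 16691736)) (a (b (l 16706296) (l 16690176)) (l 16695664))) (b (a (l 16684568) (l 16677608)) (a (l 16693432) (l 16686024))))))), by decide +kernel⟩

def k36_pp_012_s : ∃ t, chk3 f_pp_012_s t 28 14 1 = true :=
  ⟨(l 3), by decide +kernel⟩

def k37_pp_012_s : ∃ t, chk3 f_pp_012_s t 29 28 1 = true :=
  ⟨(a (b (a (b (a (l 3) (b (a (b (c (l 64055411991) (l 16777040)) (c (l 188609464423) (l 190756948023))) (c (l 16778376) (l 16775712))) (a (l 3) (b (c (l 162839659879) (l 129553665591)) (l 3))))) (l 3)) (a (a (b (b (l 16773632) (b (l 16778664) (a (l 153712855863) (l 16778440)))) (l 3)) (b (c (l 16775824) (l 16773104)) (b (b (c (l 72108477015) (l 16777144)) (l 193441302663)) (l 3)))) (b (c (l 16772768) (l 16769960)) (b (c (a (l 16778488) (l 16773792)) (l 16777384)) (b (a (l 165524014487) (l 16776136)) (a (l 3) (c (l 107541957703) (l 101636377479)))))))) (l 3)) (b (b (a (a (c (l 16766120)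 (l 16765840)) (l 16767208)) (a (l 16757968) (l 16753968))) (a (a (c (b (l 16770720) (l 16773824)) (l 16774768)) (c (l 16768208) (l 16767968))) (a (c (l 16764176) (l 16763824)) (a (l 16760936) (l 16758896))))) (a (b (a (b (a (b (c (l 78014056967) (l 16778496)) (l 197199399031)) (c (l 16778544) (l 16778512))) (a (l 3) (b (l 168745239943) (l 3)))) (a (b (l 16773800) (a (a (l 109152570263) (l 76403444215)) (l 16778408))) (c (l 16773344) (l 16773232)))) (a (l 3) (b (a (l 3) (b (c (l 81772153159) (l 47949285303)) (l 198810011703))) (l 3)))) (a (a (a (b (l 16771720) (b (c (l 16779072) (l 16779048)) (l 3))) (b (l 16770680) (b (l 16775368) (l 173040207527)))) (b (l 16771736) (b (l 16773784) (a (b (l 16776688) (l 190220076359)) (b (l 16775616) (l 74255959751)))))) (b (c (l 16768768) (l 16765832)) (c (a (l 16775272) (l 16771224)) (b (l 16770528) (a (l 16774776) (l 16772632))))))))), by decide +kernel⟩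

def k38_pp_012_s : ∃ t, chk3 f_pp_012_s t 29 29 1 = true :=
  ⟨(a (l 3) (b (a (l 3) (b (a (l 3) (b (a (a (b (l 121500600199) (l 3)) (b (l 16777968) (l 186998850839))) (a (a (b (l 16775848) (l 100562634087)) (l 16777920)) (l 16776624))) (a (l 3) (b (c (l 166597756151) (a (l 3) (l 152639111703))) (l 3))))) (l 3))) (l 3))), by decide +kernel⟩

def k39_pp_012_s : ∃ t, chk3 f_pp_012_s t 14 15 1 = true :=
  ⟨(l 3), by decide +kernel⟩

def k40_pp_012_s : ∃ t, chk3 f_pp_012_s t 30 28 1 = true :=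
  ⟨(b (a (a (a (b (l 16749960) (l 16755832)) (l 16754096)) (b (l 16739952) (l 16745648))) (a (a (l 16736784) (l 16732784)) (l 16732040))) (a (a (c (b (l 16765240) (a (l 16768112) (l 16763976))) (b (l 16763432) (a (l 16770464) (b (l 16762016) (l 16759888))))) (b (l 16755432) (a (b (l 16758072) (l 16755872)) (c (l 16745240) (l 16748528))))) (a (a (l 16752240) (b (l 16741232) (l 16747088))) (b (a (l 16737136) (l 16733056)) (a (l 16742928) (l 16738784)))))), by decide +kernel⟩

def k41_pp_012_s : ∃ t, chk3 f_pp_012_s t 60 29 1 = true :=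
  ⟨(b (a (b (b (a (c (l 16772720) (l 16772584)) (l 16771032)) (a (a (a (b (l 16777928) (l 190756947143)) (a (b (l 16775808) (l 103246988583)) (l 16777376))) (l 16776040)) (c (l 16771608) (l 16771432)))) (a (b (a (l 3) (a (b (c (l 120426858087) (l 124721825351)) (l 3)) (b (l 16776560) (l 184851367031)))) (l 3)) (a (a (b (a (b (l 16775752) (l 96267666647)) (l 16777320)) (l 3)) (b (l 16775200) (b (c (l 114521277959) (l 118279374327)) (l 3)))) (b (l 16773592) (b (l 16777592) (a (l 178945786887) (l 60297315047))))))) (b (a (a (l 16766792) (b (l 16763128) (l 16766208))) (a (b (l 16761016) (l 16764080)) (l 16753880))) (b (a (l 16772672) (a (l 16767168) (l 16765032))) (a (c (l 16773560) (l 16774752)) (l 16771824))))) (a (l 3) (b (a (b (a (a (a (l 186461980231) (b (l 82845893703) (l 3))) (b (l 16776408) (l 170892723095))) (a (b (l 16775320) (l 51707380359)) (l 16775032))) (a (l 3) (b (c (l 147807273799) (a (l 219747976647) (l 102173246727))) (l 3)))) (b (c (l 16772400) (l 16772240))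 (a (b (l 16777080) (a (l 161765917463) (l 40433091831))) (l 16775696)))) (a (l 3) (b (a (b (l 213305526247) (l 3)) (a (b (c (l 86067119399) (l 90362086615)) (l 3)) (b (l 16776200) (c (l 134922372471) (l 154786595431))))) (l 3)))))), by decide +kernel⟩

def k42_pp_012_s : ∃ t, chk3 f_pp_012_s t 61 29 1 = true :=
  ⟨(b (a (b (a (b (l 16755744) (l 16758776)) (b (l 16751536) (l 16754544))) (b (a (l 16756584) (l 16757568)) (a (c (l 16759848) (l 16759464)) (l 16755368)))) (a (b (l 16748832) (b (l 16753312) (l 16756328))) (b (l 16744632) (l 16755808)))) (a (b (a (c (l 16772304) (c (l 16772120) (l 16771992))) (a (b (l 16764760) (l 16762616)) (b (l 16762600) (l 16765688)))) (a (b (a (c (l 16777680) (b (l 16774520) (l 16778096))) (l 16773168)) (b (a (a (l 199883752647) (a (l 109152568343) (l 16778232))) (l 16776840)) (a (l 3) (a (a (l 187535721271) (l 98952021095)) (l 16777720))))) (a (a (b (l 16768904) (l 16774672)) (l 16774464)) (a (l 16773536) (b (l 16768248) (l 16768752)))))) (a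 (b (b (l 16759368) (a (l 16763520) (l 16761344))) (c (l 16769856) (b (a (l 16766432) (l 16764216)) (a (l 16766320) (l 16767368))))) (a (b (l 16757664) (b (l 16762248) (l 16765336))) (b (l 16755512) (l 16764888)))))), by decide +kernel⟩

def k43_pp_012_s : ∃ t, chk3 f_pp_012_s t 31 14 1 = true :=
  ⟨(b (a (b (a (l 16718880) (l 16711112)) (b (a (a (l 16729000) (l 16724960)) (l 16718928)) (a (a (l 16734672) (l 16730576)) (l 16724448)))) (b (a (b (l 16679608) (l 16684864)) (b (l 16692952) (l 16676816))) (a (b (l 16710912) (l 16716312)) (b (a (l 16705056) (l 16700960)) (l 16708280))))) (a (b (a (a (b (l 16740456) (l 16746328)) (l 16744472)) (b (l 16735336) (a (l 16737928) (l 16733736)))) (b (a (a (l 16757544) (l 16753280)) (a (l 16743792) (l 16739520))) (a (a (b (l 16756832) (l 16762504)) (c (l 16759656) (l 16758904))) (a (l 16754968) (l 16750632))))) (a (a (b (l 16731968) (b (l 16735232) (l 16746248))) (b (l 16733008) (b (l 16730896) (l 16736584)))) (b (b (l 16713520) (l 16724144))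 (b (a (l 16726544) (l 16722184)) (a (l 16732144) (l 16727688))))))), by decide +kernel⟩

def k44_pp_012_s : ∃ t, chk3 f_pp_012_s t 30 15 1 = true :=
  ⟨(b (a (l 3) (b (a (b (a (b (a (l 3) (b (c (l 198273140439) (l 201494365799)) (l 3))) (l 3)) (b (a (a (b (a (l 90898957319) (l 16776776)) (l 3)) (b (l 16775936) (b (l 63518540743) (l 197199397655)))) (a (b (l 16772216) (l 16777736)) (l 16774520))) (a (l 3) (b (c (a (l 177335174023) (l 46338671655)) (a (l 171966464839) (b (l 16776488) (l 92509569863)))) (l 228874781399))))) (l 3)) (a (b (b (c (l 16773152) (l 16773632)) (a (b (l 16775880) (a (b (l 46338671383) (l 170355851863)) (l 16777576))) (c (l 16773856) (l 16773744)))) (b (a (a (l 3) (b (a (l 215989879799) (b (l 16777488) (l 3))) (l 3))) (a (b (c (l 33990640503) (b (l 16776320) (l 70497862439))) (c (l 212231783655) (l 215453009047))) (b (l 16775616) (b (l 25937576615) (a (l 238001586903) (l 105394471479)))))) (l 3))) (b (a (c (l 16772752) (b (l 16768296) (b (l 16770680) (l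 16769656)))) (b (l 16771488) (a (l 16766800) (l 16766192)))) (b (b (c (l 16774208) (l 16774144)) (a (c (l 16776864) (l 16776480)) (a (l 16771224) (l 16770112)))) (a (a (b (b (a (l 158544691719) (l 16777008)) (l 225116685223)) (l 3)) (b (a (b (l 16776432) (l 86067118695)) (l 16776272)) (c (l 185388237831) (b (l 173577077271) (l 3))))) (a (b (l 16775432) (b (l 16777608) (a (l 190756946439) (l 66202894919)))) (c (l 16775136) (l 16775720)))))))) (a (l 3) (b (a (l 3) (b (a (l 3) (a (l 3) (b (a (b (l 115058147943) (l 3)) (b (l 16776808) (l 171966464407))) (l 3)))) (l 3))) (l 3))))) (l 3)), by decide +kernel⟩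

def k45_pp_012_s : ∃ t, chk3 f_pp_012_s t 62 60 1 = true :=
  ⟨(a (b (a (a (b (l 16764056) (c (l 16767320) (l 16766984))) (b (l 16761872) (l 16767584))) (b (l 16761216) (c (l 16764528) (l 16766640)))) (a (b (a (b (l 16766880) (c (l 16771160) (l 16770960))) (c (l 16770832) (l 16770528))) (b (a (a (l 16770568) (l 16772072)) (c (l 16770512) (l 16770280))) (a (l 16774864) (a (l 16769904) (l 16771400))))) (a (b (l 16768464) (a (l 16771472) (l 16771000))) (b (l 16763624) (l 16768664))))) (a (b (b (l 16754224) (l 16762488)) (b (c (l 16763176) (l 16765224)) (a (l 16767080) (l 16762208)))) (b (c (l 16756968) (l 16756112)) (b (l 16761040) (c (l 16761744) (l 16763736)))))), by decide +kernel⟩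

def k46_pp_012_s : ∃ t, chk3 f_pp_012_s t 248 61 1 = true :=
  ⟨(b (b (a (a (a (b (b (l 16776240) (l 45264929335)) (l 233706619959)) (b (l 16776072) (b (a (l 135996113335) (l 16777464)) (l 3)))) (b (l 16775224) (b (l 16776416) (a (a (l 211158041031) (l 120963727815)) (l 16777592))))) (c (a (l 16775584) (b (l 16773040) (l 16773288))) (b (a (l 16772080) (l 16772896)) (l 16775736)))) (b (b (a (c (l 225653555383) (l 229948522583)) (a (a (a (l 109152567687) (l 16777024)) (l 16776592)) (l 16775744))) (a (l 3) (a (a (l 3) (a (l 184314495287) (l 90898956775))) (c (l 16776552) (l 16777184))))) (a (l 3) (a (l 3) (b (a (l 176261431719) (a (l 77477183911) (l 16776912))) (l 236927845319)))))) (l 3)), by decide +kernel⟩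

def k47_pp_012_s : ∃ t, chk3 f_pp_012_s t 249 61 1 = true :=
  ⟨(b (a (b (a (b (l 16771848) (a (l 16772392) (l 16773136))) (b (l 16770720) (a (l 16772576) (l 16772008)))) (b (b (a (l 16773296) (l 16773472)) (l 16775488)) (b (c (l 16775656) (l 16776256)) (a (a (a (l 142975435111) (l 65129152871)) (l 16776712)) (l 16775856))))) (b (b (l 16771648) (c (l 16773328) (l 16773096))) (a (b (c (l 16772808) (l 16772656)) (b (l 16772608) (c (l 16774760) (l 16774672)))) (b (l 16771600) (a (l 16772152) (l 16772896)))))) (b (b (a (a (a (l 3) (a (l 227801039719) (b (l 126332436855) (l 3)))) (a (b (a (l 46338671015) (l 16776800)) (l 209547428375)) (b (l 16776368) (b (l 16776968) (l 132774887719))))) (c (c (l 16775872) (l 16775928)) (a (l 16776544) (b (l 16774320) (c (l 16773832) (l 16773800)))))) (a (l 3) (a (a (b (a (l 184851366215) (a (l 118279373127) (l 69424120215))) (l 3)) (c (b (l 16776832) (l 183240753575)) (b (l 16777472) (l 180556398983)))) (a (b (l 16776248) (a (a (l 97878278487)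 (l 60834185543)) (l 16777232))) (l 16776400))))) (b (b (a (l 3) (a (l 3) (a (l 233706619527) (b (c (l 16777088) (l 16777408)) (l 169282109671))))) (l 3)) (l 3)))), by decide +kernel⟩

def k48_pp_012_s : ∃ t, chk3 f_pp_012_s t 125 61 1 = true :=
  ⟨(b (a (a (a (b (l 16770736) (b (l 16770464) (l 16773352))) (b (l 16769608) (b (l 16769328) (l 16770896)))) (b (l 16767904) (b (l 16770240) (l 16770496)))) (b (a (l 16765632) (l 16760728)) (a (c (l 16768920) (l 16768536)) (l 16765784)))) (a (a (b (a (b (b (l 16773224) (c (l 16774072) (l 16773960))) (b (a (l 16775104) (l 16774528)) (a (l 16774912) (l 16774016)))) (a (b (l 16772760) (b (l 16773952) (l 16774752))) (b (l 16772192) (c (l 16773840) (l 16773720))))) (a (b (b (c (l 16776424) (l 16776888)) (a (a (l 213305524663) (b (l 16777160) (l 244444037479))) (a (b (l 16776864) (l 108615696583)) (l 16776776)))) (a (l 3) (a (l 3) (b (l 196662526327) (l 3))))) (b (c (l 16775688) (l 16775960)) (b (a (b (l 16777280) (c (l 125258694935) (l 131164274919)))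 (l 16776568)) (a (l 3) (b (a (l 132238016679) (l 16777032)) (l 205789331815))))))) (a (b (b (l 16772640) (a (l 16774512) (l 16772632))) (b (a (b (l 16774400) (l 16773880)) (b (l 16773824) (l 16774616))) (a (a (b (l 16775480) (b (l 16776736) (l 47949283607))) (l 16776576)) (a (l 16776288) (b (l 16775272) (l 16775416)))))) (b (b (l 16770184) (l 16773080)) (b (c (c (l 16774760) (l 16774696)) (l 16774592)) (a (b (l 16774840) (a (l 16774472) (l 16775496))) (b (l 16774264) (c (l 16775096) (l 16775024)))))))) (a (b (b (l 16769776) (c (l 16771472) (l 16771216))) (a (b (l 16773184) (b (l 16774704) (a (l 16774480) (l 16773904)))) (b (l 16772360) (c (l 16774024) (l 16773864))))) (a (b (l 16768832) (b (l 16769888) (l 16772784))) (b (l 16767680) (c (l 16770640) (l 16770696))))))), by decide +kernel⟩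

def k49_pp_012_s : ∃ t, chk3 f_pp_012_s t 63 30 1 = true :=
  ⟨(a (a (b (b (c (l 16752584) (l 16746328)) (a (b (l 16752416) (l 16755408)) (l 16756880))) (b (b (a (l 16758440) (l 16756144)) (a (l 16764144) (l 16761832))) (b (a (c (l 16766160) (l 16767024)) (c (l 16762568) (l 16762040))) (b (a (l 16768296) (l 16767280)) (a (c (l 16770024) (l 16769720)) (c (l 16766424) (l 16766032))))))) (b (b (l 16747600) (a (l 16754600) (l 16752312))) (b (b (a (l 16753840) (l 16751528)) (a (l 16756888) (l 16754560))) (b (a (c (l 16760272) (l 16759664)) (l 16760264)) (a (a (l 16765000) (l 16765144)) (c (l 16763008) (l 16763080))))))) (a (b (b (l 16743072) (a (l 16750008) (l 16747704))) (b (a (a (l 16755232) (l 16754072)) (c (l 16752808) (l 16753112))) (b (a (l 16757920) (l 14)) (l 14)))) (b (b (l 16738536) (a (l 16745400) (l 16743088))) (b (b (a (l 16744544) (l 16742208)) (l 14)) (l 14))))), by decide +kernel⟩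

def k50_pp_012_s : ∃ t, chk3 f_pp_012_s t 124 62 1 = true :=
  ⟨(l 3), by decide +kernel⟩

def k51_pp_012_s : ∃ t, chk3 f_pp_012_s t 250 124 1 = true :=
  ⟨(b (a (l 3) (b (a (b (a (a (l 241759683095) (b (l 97341407495) (l 3))) (b (l 16776816) (a (l 159618433207) (l 16777080)))) (c (l 232096005783) (l 238001585735))) (b (c (l 16776168) (l 16776128)) (a (b (a (l 75329700103) (l 16776896)) (a (l 3) (l 122037469367))) (c (l 16776672) (l 16776976))))) (b (a (l 3) (a (l 3) (b (a (l 185388236903) (l 40433090791)) (l 235317232071)))) (l 3)))) (l 3)), by decide +kernel⟩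

def k52_pp_012_s : ∃ t, chk3 f_pp_012_s t 502 124 1 = true :=
  ⟨(a (b (a (b (b (c (l 16775312) (l 16775248)) (b (l 16775224) (l 16775624))) (a (b (b (l 16776824) (a (l 143512305783) (l 16777488))) (l 3)) (b (l 16777064) (a (l 223506071959) (b (l 120426856615) (l 3)))))) (b (b (l 16774704) (a (l 16774992) (l 16775352))) (b (l 16776304) (b (c (l 16776912) (l 16777232)) (a (l 199883751655) (c (l 16777328) (l 70497861783))))))) (a (l 3) (b (b (l 249812745623) (l 3)) (l 3)))) (b (b (a (b (l 16774120) (a (l 16775064) (l 16774776))) (b (l 16773544) (l 16774336))) (b (a (b (l 16775520) (l 16775264)) (c (l 16775176) (l 16775104))) (c (l 16776416) (c (l 16776224) (l 16776528))))) (b (b (a (a (b (c (l 115058147527) (l 116668760183)) (l 3)) (b (l 16776984) (c (l 172503334999) (l 171429593159)))) (a (a (b (l 16776104) (l 61907927207)) (l 16777144)) (l 16776600))) (b (a (l 3) (a (l 218137362711) (a (l 126332436615) (l 16777296)))) (l 3))) (l 3)))), by decide +kernel⟩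

def k53_pp_012_s : ∃ t, chk3 f_pp_012_s t 503 124 1 = true :=
  ⟨(b (a (a (b (l 16774016) (b (l 16775216) (b (l 16775160) (l 16775560)))) (b (l 16773432) (b (l 16773976) (l 16775432)))) (a (b (l 16773504) (c (l 16774504) (l 16774384))) (b (l 16771616) (l 16773824)))) (b (a (b (a (b (c (l 16775984) (l 16775936)) (c (l 16775720) (l 16775688))) (b (l 16775376) (a (l 16775920) (l 16775632)))) (a (b (l 16776928) (a (b (l 82845892743) (l 226727297095)) (l 16777264))) (a (l 16776528) (b (l 16776032) (l 16775776))))) (a (a (b (l 16775136) (b (l 16775744) (l 16776144))) (b (l 16774848) (a (l 16775064) (l 16775576)))) (b (l 16775064) (a (l 16776016) (l 16775064))))) (b (a (a (a (l 3) (a (l 3) (b (l 173577076823) (l 3)))) (a (b (b (l 16777032) (l 92509569191)) (l 236390973751)) (b (l 16776840) (b (l 16777304) (l 169818980439))))) (a (c (l 16776936) (c (l 16776592) (l 16776912))) (b (c (l 16775840) (l 16775784)) (a (l 16775704) (l 16776072))))) (a (l 3) (b (a (a (c (l 156397207655) (c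 (l 154249723991) (l 157470949447))) (c (l 16777224) (l 15737028791))) (l 16776616)) (a (c (l 214916137367) (l 220821716711)) (a (a (c (l 104857600135) (l 111300051031)) (l 21105737911)) (l 16776872)))))))), by decide +kernel⟩

def k54_pp_012_s : ∃ t, chk3 f_pp_012_s t 125 125 1 = true :=
  ⟨(a (l 3) (a (l 3) (a (l 3) (a (l 3) (a (l 3) (l 14)))))), by decide +kernel⟩

def k55_pp_012_s : ∃ t, chk3 f_pp_012_s t 62 63 1 = true :=
  ⟨(l 3), by decide +kernel⟩

def k56_pp_012_s : ∃ t, chk3 f_pp_012_s t 63 31 1 = true :=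
  ⟨(b (a (b (a (a (b (a (b (l 16772048) (c (l 16773072) (l 16772896))) (b (l 16769576) (c (l 16771272) (l 16771056)))) (a (a (b (b (l 16773824) (l 16775280)) (b (a (c (l 16775600) (l 16775544)) (l 16775936)) (b (a (l 16776176) (l 14)) (l 14)))) (b (a (l 16774360) (l 16774152)) (b (l 16775336) (l 14)))) (b (b (l 16773016) (l 16773656)) (l 14)))) (b (a (b (l 16768400) (l 16771304)) (b (l 16767232) (l 16768824))) (b (l 14) (l 14)))) (a (a (b (b (l 16766056) (l 14)) (l 14)) (l 14)) (l 14))) (l 14)) (l 14)) (l 14)), by decide +kernel⟩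

theorem s57_pp_012_s : ∃ t, chk3 f_pp_012_s t 251 124 1 = true := ex3_a k52_pp_012_s k53_pp_012_s

theorem s58_pp_012_s : ∃ t, chk3 f_pp_012_s t 125 124 1 = true := ex3_a k51_pp_012_s s57_pp_012_s

theorem s59_pp_012_s : ∃ t, chk3 f_pp_012_s t 125 62 1 = true := ex3_b s58_pp_012_s k54_pp_012_s

theorem s60_pp_012_s : ∃ t, chk3 f_pp_012_s t 62 62 1 = true := ex3_a k50_pp_012_s s59_pp_012_s

theorem s61_pp_012_s : ∃ t, chk3 f_pp_012_s t 62 31 1 = true := ex3_b s60_pp_012_s k55_pp_012_s

theorem s62_pp_012_s : ∃ t, chk3 f_pp_012_s t 31 31 1 = true := ex3_a s61_pp_012_s k56_pp_012_s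

theorem s63_pp_012_s : ∃ t, chk3 f_pp_012_s t 124 61 1 = true := ex3_a k46_pp_012_s k47_pp_012_s

theorem s64_pp_012_s : ∃ t, chk3 f_pp_012_s t 62 61 1 = true := ex3_a s63_pp_012_s k48_pp_012_s

theorem s65_pp_012_s : ∃ t, chk3 f_pp_012_s t 62 30 1 = true := ex3_b k45_pp_012_s s64_pp_012_s

theorem s66_pp_012_s : ∃ t, chk3 f_pp_012_s t 31 30 1 = true := ex3_a s65_pp_012_s k49_pp_012_s

theorem s67_pp_012_s : ∃ t, chk3 f_pp_012_s t 31 15 1 = true := ex3_b s66_pp_012_s s62_pp_012_s

theorem s68_pp_012_s : ∃ t, chk3 f_pp_012_s t 15 15 1 = true := ex3_a k44_pp_012_s s67_pp_012_s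

theorem s69_pp_012_s : ∃ t, chk3 f_pp_012_s t 30 29 1 = true := ex3_a k41_pp_012_s k42_pp_012_s

theorem s70_pp_012_s : ∃ t, chk3 f_pp_012_s t 30 14 1 = true := ex3_b k40_pp_012_s s69_pp_012_s

theorem s71_pp_012_s : ∃ t, chk3 f_pp_012_s t 15 14 1 = true := ex3_a s70_pp_012_s k43_pp_012_s

theorem s72_pp_012_s : ∃ t, chk3 f_pp_012_s t 15 7 1 = true := ex3_b s71_pp_012_s s68_pp_012_s

theorem s73_pp_012_s : ∃ t, chk3 f_pp_012_s t 29 14 1 = true := ex3_b k37_pp_012_s k38_pp_012_s

theorem s74_pp_012_s : ∃ t, chk3 f_pp_012_s t 14 14 1 = true := ex3_a k36_pp_012_s s73_pp_012_s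

theorem s75_pp_012_s : ∃ t, chk3 f_pp_012_s t 14 7 1 = true := ex3_b s74_pp_012_s k39_pp_012_s

theorem s76_pp_012_s : ∃ t, chk3 f_pp_012_s t 7 7 1 = true := ex3_a s75_pp_012_s s72_pp_012_s

theorem s77_pp_012_s : ∃ t, chk3 f_pp_012_s t 28 27 1 = true := ex3_a k32_pp_012_s k33_pp_012_s

theorem s78_pp_012_s : ∃ t, chk3 f_pp_012_s t 28 26 1 = true := ex3_a k30_pp_012_s k31_pp_012_s

theorem s79_pp_012_s : ∃ t, chk3 f_pp_012_s t 28 13 1 = true := ex3_b s78_pp_012_s s77_pp_012_s

theorem s80_pp_012_s : ∃ t, chk3 f_pp_012_s t 28 6 1 = true := ex3_b k29_pp_012_s s79_pp_012_s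

theorem s81_pp_012_s : ∃ t, chk3 f_pp_012_s t 14 6 1 = true := ex3_a s80_pp_012_s k34_pp_012_s

theorem s82_pp_012_s : ∃ t, chk3 f_pp_012_s t 7 6 1 = true := ex3_a s81_pp_012_s k35_pp_012_s

theorem s83_pp_012_s : ∃ t, chk3 f_pp_012_s t 7 3 1 = true := ex3_b s82_pp_012_s s76_pp_012_s

theorem s84_pp_012_s : ∃ t, chk3 f_pp_012_s t 7 1 1 = true := ex3_b k28_pp_012_s s83_pp_012_s

theorem s85_pp_012_s : ∃ t, chk3 f_pp_012_s t 27 25 1 = true := ex3_b k24_pp_012_s k25_pp_012_s

theorem s86_pp_012_s : ∃ t, chk3 f_pp_012_s t 27 12 1 = true := ex3_b k23_pp_012_s s85_pp_012_s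

theorem s87_pp_012_s : ∃ t, chk3 f_pp_012_s t 13 12 1 = true := ex3_a k22_pp_012_s s86_pp_012_s

theorem s88_pp_012_s : ∃ t, chk3 f_pp_012_s t 13 6 1 = true := ex3_b s87_pp_012_s k26_pp_012_s

theorem s89_pp_012_s : ∃ t, chk3 f_pp_012_s t 6 6 1 = true := ex3_a k21_pp_012_s s88_pp_012_s

theorem s90_pp_012_s : ∃ t, chk3 f_pp_012_s t 6 3 1 = true := ex3_b s89_pp_012_s k27_pp_012_s

theorem s91_pp_012_s : ∃ t, chk3 f_pp_012_s t 25 5 1 = true := ex3_b k18_pp_012_s k19_pp_012_s

theorem s92_pp_012_s : ∃ t, chk3 f_pp_012_s t 12 5 1 = true := ex3_a k17_pp_012_s s91_pp_012_s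

theorem s93_pp_012_s : ∃ t, chk3 f_pp_012_s t 12 2 1 = true := ex3_b k16_pp_012_s s92_pp_012_s

theorem s94_pp_012_s : ∃ t, chk3 f_pp_012_s t 6 2 1 = true := ex3_a s93_pp_012_s k20_pp_012_s

theorem s95_pp_012_s : ∃ t, chk3 f_pp_012_s t 6 1 1 = true := ex3_b s94_pp_012_s s90_pp_012_s

theorem s96_pp_012_s : ∃ t, chk3 f_pp_012_s t 3 1 1 = true := ex3_a s95_pp_012_s s84_pp_012_s

theorem s97_pp_012_s : ∃ t, chk3 f_pp_012_s t 45 20 1 = true := ex3_b k10_pp_012_s k11_pp_012_s

theorem s98_pp_012_s : ∃ t, chk3 f_pp_012_s t 22 20 1 = true := ex3_a k9_pp_012_s s97_pp_012_s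

theorem s99_pp_012_s : ∃ t, chk3 f_pp_012_s t 22 10 1 = true := ex3_b s98_pp_012_s k12_pp_012_s

theorem s100_pp_012_s : ∃ t, chk3 f_pp_012_s t 11 10 1 = true := ex3_a s99_pp_012_s k13_pp_012_s

theorem s101_pp_012_s : ∃ t, chk3 f_pp_012_s t 11 5 1 = true := ex3_b s100_pp_012_s k14_pp_012_s

theorem s102_pp_012_s : ∃ t, chk3 f_pp_012_s t 5 5 1 = true := ex3_a k8_pp_012_s s101_pp_012_s

theorem s103_pp_012_s : ∃ t, chk3 f_pp_012_s t 11 9 1 = true := ex3_a k6_pp_012_s k7_pp_012_s

theorem s104_pp_012_s : ∃ t, chk3 f_pp_012_s t 11 4 1 = true := ex3_b k5_pp_012_s s103_pp_012_s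

theorem s105_pp_012_s : ∃ t, chk3 f_pp_012_s t 21 9 1 = true := ex3_b k3_pp_012_s k4_pp_012_s

theorem s106_pp_012_s : ∃ t, chk3 f_pp_012_s t 21 4 1 = true := ex3_b k2_pp_012_s s105_pp_012_s

theorem s107_pp_012_s : ∃ t, chk3 f_pp_012_s t 10 4 1 = true := ex3_a k1_pp_012_s s106_pp_012_s

theorem s108_pp_012_s : ∃ t, chk3 f_pp_012_s t 5 4 1 = true := ex3_a s107_pp_012_s s104_pp_012_s

theorem s109_pp_012_s : ∃ t, chk3 f_pp_012_s t 5 2 1 = true := ex3_b s108_pp_012_s s102_pp_012_s

theorem s110_pp_012_s : ∃ t, chk3 f_pp_012_s t 2 2 1 = true := ex3_a k0_pp_012_s s109_pp_012_s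

theorem s111_pp_012_s : ∃ t, chk3 f_pp_012_s t 2 1 1 = true := ex3_b s110_pp_012_s k15_pp_012_s

theorem s112_pp_012_s : ∃ t, chk3 f_pp_012_s t 1 1 1 = true := ex3_a s111_pp_012_s s96_pp_012_s

theorem c_pp_012_s : CertNE 0 536870912 0 536870912 697932185 42949674 3 eng mog cd0q0 cd0q2 pd1 false true true .pnp 0 1 2
    ndB0q0 ndB0q2 pcB1 cut_pp_012_s Ext.none :=
  certNE2 (fam := false) (s1 := true) (s2 := true) (a := 0) (b := 1) (c := 2) (cn := .pnp) (n1 := ndB0q0) (n2 := ndB0q2) (pc := pcB1) (cut := cut_pp_012_s) (xt := Ext.none) (P1 := 0) (W1 := 536870912) (P2 := 0) (W2 := 536870912) (P3 := 697932185) (W3 := 42949674) (N0 := 3) (En := eng) (mo := mog) (C1 := cd0q0) (C2 := cd0q2) (C3 := pd1)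
    rfl (fun _ => rfl) s112_pp_012_s

noncomputable def cut_pp_012_t : Cut := Cut.of [[⟨3, 0, 0, 2845415833⟩], [⟨0, 0, 0, 33554432⟩, ⟨1, 1, 0, 33554432⟩, ⟨2, 1, 0, 33554432⟩]]

noncomputable def f_pp_012_t : ℕ → ℕ → ℕ → ℕ → Bool := onCell 0 536870912 0 536870912 697932185 42949674
    (rowNE 3 eng mog cd0q0 cd0q2 pd1 0 false true true .pnp 0 1 2 (qsf 0 536870912 0 536870912 1) ndB0q0 ndB0q2 pcB1 cut_pp_012_t Ext.none)

def k0_pp_012_t : ∃ t, chk3 f_pp_012_t t 1 1 1 = true :=
  ⟨(l 6), by decide +kernel⟩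

theorem c_pp_012_t : CertNE 0 536870912 0 536870912 697932185 42949674 3 eng mog cd0q0 cd0q2 pd1 false true true .pnp 0 1 2
    ndB0q0 ndB0q2 pcB1 cut_pp_012_t Ext.none :=
  certNE0 (fam := false) (s1 := true) (s2 := true) (a := 0) (b := 1) (c := 2) (cn := .pnp) (n1 := ndB0q0) (n2 := ndB0q2) (pc := pcB1) (cut := cut_pp_012_t) (xt := Ext.none) (P1 := 0) (W1 := 536870912) (P2 := 0) (W2 := 536870912) (P3 := 697932185) (W3 := 42949674) (N0 := 3) (En := eng) (mo := mog) (C1 := cd0q0) (C2 := cd0q2) (C3 := pd1)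
    rfl k0_pp_012_t

noncomputable def cut_pp_022_s : Cut := Cut.of [[⟨4, 0, 0, 1449551462⟩], [⟨0, 0, 0, 67108864⟩, ⟨1, 1, 0, 67108864⟩, ⟨2, 1, 0, 67108864⟩]]

noncomputable def f_pp_022_s : ℕ → ℕ → ℕ → ℕ → Bool := onCell 1073741824 536870912 0 536870912 697932185 42949674
    (rowNE 3 eng mog cd0q0 cd0q2 pd2 2 false true true .pp 0 2 2 (qsf 0 536870912 0 536870912 2) ndB0q0 ndB0q2 pcB2 cut_pp_022_s Ext.none)

def k0_pp_022_s : ∃ t, chk3 f_pp_022_s t 4 2 1 = true :=
  ⟨(b (l 6) (a (b (l 6) (a (b (l 6) (c (l 16627224) (l 16628568))) (l 6))) (l 6))), by decide +kernel⟩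

def k1_pp_022_s : ∃ t, chk3 f_pp_022_s t 8 3 1 = true :=
  ⟨(a (b (a (b (b (c (l 16628592) (l 16630912)) (a (b (l 16623736) (l 16633904)) (l 16648384))) (b (a (b (l 16643736) (a (l 16653256) (l 16652664))) (b (l 16642288) (l 16651592))) (a (b (b (l 16659576) (l 16663984)) (a (l 16671328) (l 16670800))) (b (l 16660488) (l 16669800))))) (b (b (l 16619584) (a (l 16621592) (l 16613576))) (b (b (l 16632120) (l 16642824)) (b (l 16643664) (a (l 16668056) (l 16660104)))))) (b (b (b (a (a (a (l 16681600) (l 16681064)) (l 16680056)) (a (l 16678304) (l 16669944))) (b (a (a (l 16689584) (l 16688272)) (l 16682272)) (l 14))) (l 14)) (l 14))) (a (b (b (b (b (l 16580136) (l 16588792)) (a (l 16616016) (b (l 16593416) (l 16601640)))) (b (a (b (l 16598144) (l 16629120)) (b (l 16610432) (l 16619976))) (a (b (l 16639712) (l 16649936)) (b (l 16630024) (l 16639624))))) (b (b (a (b (l 16659144) (l 16667336)) (b (l 16648128) (l 16655520))) (l 14)) (l 14))) (b (b (b (b (l 6) (l 16574256)) (c (b (l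 16584768) (l 16592432)) (b (l 16578504) (l 16585992)))) (b (b (a (l 16601800) (l 16593160)) (a (l 16610808) (l 16601560))) (b (a (l 16620240) (l 16610328)) (a (l 16629160) (l 16618488))))) (b (a (b (b (l 16636888) (l 16643400)) (l 14)) (b (b (l 16625352) (l 16630896)) (b (l 16635200) (l 1)))) (l 1))))), by decide +kernel⟩

def k2_pp_022_s : ∃ t, chk3 f_pp_022_s t 9 3 1 = true :=
  ⟨(b (b (a (b (l 6) (a (b (l 16587688) (l 16594168)) (b (l 6) (c (l 16561728) (l 16551024))))) (l 6)) (b (a (a (b (l 16601016) (a (l 16592184) (l 16582640))) (b (a (l 16566664) (l 16557448)) (a (l 16572848) (l 16562736)))) (a (b (a (l 16547928) (l 1)) (l 1)) (l 1))) (a (a (b (a (l 16600208) (l 16589824)) (a (l 16607520) (l 16596224))) (b (a (l 16579128) (l 1)) (l 1))) (l 1)))) (b (a (b (a (b (a (l 16613448) (l 16601112)) (a (l 16617928) (l 1))) (l 1)) (l 1)) (l 1)) (l 1))), by decide +kernel⟩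

def k3_pp_022_s : ∃ t, chk3 f_pp_022_s t 5 1 1 = true :=
  ⟨(b (l 6) (b (l 1) (l 1))), by decide +kernel⟩

def k4_pp_022_s : ∃ t, chk3 f_pp_022_s t 3 1 1 = true :=
  ⟨(l 1), by decide +kernel⟩

theorem s5_pp_022_s : ∃ t, chk3 f_pp_022_s t 4 3 1 = true := ex3_a k1_pp_022_s k2_pp_022_s

theorem s6_pp_022_s : ∃ t, chk3 f_pp_022_s t 4 1 1 = true := ex3_b k0_pp_022_s s5_pp_022_s

theorem s7_pp_022_s : ∃ t, chk3 f_pp_022_s t 2 1 1 = true := ex3_a s6_pp_022_s k3_pp_022_s

theorem s8_pp_022_s : ∃ t, chk3 f_pp_022_s t 1 1 1 = true := ex3_a s7_pp_022_s k4_pp_022_s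

theorem c_pp_022_s : CertNE 0 536870912 0 536870912 697932185 42949674 3 eng mog cd0q0 cd0q2 pd2 false true true .pp 0 2 2
    ndB0q0 ndB0q2 pcB2 cut_pp_022_s Ext.none :=
  certNE2 (fam := false) (s1 := true) (s2 := true) (a := 0) (b := 2) (c := 2) (cn := .pp) (n1 := ndB0q0) (n2 := ndB0q2) (pc := pcB2) (cut := cut_pp_022_s) (xt := Ext.none) (P1 := 0) (W1 := 536870912) (P2 := 0) (W2 := 536870912) (P3 := 697932185) (W3 := 42949674) (N0 := 3) (En := eng) (mo := mog) (C1 := cd0q0) (C2 := cd0q2) (C3 := pd2)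
    rfl (fun _ => rfl) s8_pp_022_s

noncomputable def cut_pp_022_t : Cut := Cut.of [[⟨3, 0, 0, 2845415833⟩], [⟨0, 0, 0, 67108864⟩, ⟨1, 1, 0, 67108864⟩, ⟨2, 1, 0, 67108864⟩]]

noncomputable def f_pp_022_t : ℕ → ℕ → ℕ → ℕ → Bool := onCell 0 536870912 0 536870912 697932185 42949674
    (rowNE 3 eng mog cd0q0 cd0q2 pd2 0 false true true .pp 0 2 2 (qsf 0 536870912 0 536870912 2) ndB0q0 ndB0q2 pcB2 cut_pp_022_t Ext.none)

def k0_pp_022_t : ∃ t, chk3 f_pp_022_t t 1 1 1 = true :=
  ⟨(l 6), by decide +kernel⟩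

theorem c_pp_022_t : CertNE 0 536870912 0 536870912 697932185 42949674 3 eng mog cd0q0 cd0q2 pd2 false true true .pp 0 2 2
    ndB0q0 ndB0q2 pcB2 cut_pp_022_t Ext.none :=
  certNE0 (fam := false) (s1 := true) (s2 := true) (a := 0) (b := 2) (c := 2) (cn := .pp) (n1 := ndB0q0) (n2 := ndB0q2) (pc := pcB2) (cut := cut_pp_022_t) (xt := Ext.none) (P1 := 0) (W1 := 536870912) (P2 := 0) (W2 := 536870912) (P3 := 697932185) (W3 := 42949674) (N0 := 3) (En := eng) (mo := mog) (C1 := cd0q0) (C2 := cd0q2) (C3 := pd2)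
    rfl k0_pp_022_t

noncomputable def cut_pp_101_s : Cut := Cut.of [[⟨4, 0, 0, 1449551462⟩]]

noncomputable def f_pp_101_s : ℕ → ℕ → ℕ → ℕ → Bool := onCell 536870912 536870912 536870912 536870912 697932185 42949674
    (rowNE 3 eng mog cd0q1 cd0q1 pd0 0 false true true .npn 1 0 1 (qsf 536870912 536870912 536870912 536870912 0) ndB0q1 ndB0q1 pcB0 cut_pp_101_s Ext.none)

def k0_pp_101_s : ∃ t, chk3 f_pp_101_s t 1 1 1 = true :=
  ⟨(l 3), by decide +kernel⟩

theorem c_pp_101_s : CertNE 536870912 536870912 536870912 536870912 697932185 42949674 3 eng mog cd0q1 cd0q1 pd0 false true true .npn 1 0 1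
    ndB0q1 ndB0q1 pcB0 cut_pp_101_s Ext.none :=
  certNE0 (fam := false) (s1 := true) (s2 := true) (a := 1) (b := 0) (c := 1) (cn := .npn) (n1 := ndB0q1) (n2 := ndB0q1) (pc := pcB0) (cut := cut_pp_101_s) (xt := Ext.none) (P1 := 536870912) (W1 := 536870912) (P2 := 536870912) (W2 := 536870912) (P3 := 697932185) (W3 := 42949674) (N0 := 3) (En := eng) (mo := mog) (C1 := cd0q1) (C2 := cd0q1) (C3 := pd0)
    rfl k0_pp_101_s

noncomputable def cut_pp_101_t : Cut := Cut.of [[⟨3, 0, 0, 2845415833⟩]]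

noncomputable def f_pp_101_t : ℕ → ℕ → ℕ → ℕ → Bool := onCell 536870912 536870912 536870912 536870912 697932185 42949674
    (rowNE 3 eng mog cd0q1 cd0q1 pd0 0 false true true .npn 1 0 1 (qsf 536870912 536870912 536870912 536870912 0) ndB0q1 ndB0q1 pcB0 cut_pp_101_t Ext.none)

def k0_pp_101_t : ∃ t, chk3 f_pp_101_t t 1 1 1 = true :=
  ⟨(l 3), by decide +kernel⟩

theorem c_pp_101_t : CertNE 536870912 536870912 536870912 536870912 697932185 42949674 3 eng mog cd0q1 cd0q1 pd0 false true true .npn 1 0 1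
    ndB0q1 ndB0q1 pcB0 cut_pp_101_t Ext.none :=
  certNE0 (fam := false) (s1 := true) (s2 := true) (a := 1) (b := 0) (c := 1) (cn := .npn) (n1 := ndB0q1) (n2 := ndB0q1) (pc := pcB0) (cut := cut_pp_101_t) (xt := Ext.none) (P1 := 536870912) (W1 := 536870912) (P2 := 536870912) (W2 := 536870912) (P3 := 697932185) (W3 := 42949674) (N0 := 3) (En := eng) (mo := mog) (C1 := cd0q1) (C2 := cd0q1) (C3 := pd0)
    rfl k0_pp_101_t

noncomputable def cut_pp_102_s : Cut := Cut.of [[⟨4, 0, 0, 1449551462⟩]]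

noncomputable def f_pp_102_s : ℕ → ℕ → ℕ → ℕ → Bool := onCell 0 536870912 0 536870912 697932185 42949674
    (rowNE 3 eng mog cd0q1 cd0q2 pd0 2 false true true .npp 1 0 2 (qsf 536870912 536870912 0 536870912 0) ndB0q1 ndB0q2 pcB0 cut_pp_102_s Ext.none)

def k0_pp_102_s : ∃ t, chk3 f_pp_102_s t 1 1 1 = true :=
  ⟨(a (b (l 3) (l 3)) (l 3)), by decide +kernel⟩

theorem c_pp_102_s : CertNE 536870912 536870912 0 536870912 697932185 42949674 3 eng mog cd0q1 cd0q2 pd0 false true true .npp 1 0 2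
    ndB0q1 ndB0q2 pcB0 cut_pp_102_s Ext.none :=
  certNE2 (fam := false) (s1 := true) (s2 := true) (a := 1) (b := 0) (c := 2) (cn := .npp) (n1 := ndB0q1) (n2 := ndB0q2) (pc := pcB0) (cut := cut_pp_102_s) (xt := Ext.none) (P1 := 536870912) (W1 := 536870912) (P2 := 0) (W2 := 536870912) (P3 := 697932185) (W3 := 42949674) (N0 := 3) (En := eng) (mo := mog) (C1 := cd0q1) (C2 := cd0q2) (C3 := pd0)
    rfl (fun _ => rfl) k0_pp_102_s

noncomputable def cut_pp_102_t : Cut := Cut.of [[⟨3, 0, 0, 2845415833⟩]]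

noncomputable def f_pp_102_t : ℕ → ℕ → ℕ → ℕ → Bool := onCell 536870912 536870912 0 536870912 697932185 42949674
    (rowNE 3 eng mog cd0q1 cd0q2 pd0 0 false true true .npp 1 0 2 (qsf 536870912 536870912 0 536870912 0) ndB0q1 ndB0q2 pcB0 cut_pp_102_t Ext.none)

def k0_pp_102_t : ∃ t, chk3 f_pp_102_t t 1 1 1 = true :=
  ⟨(l 6), by decide +kernel⟩

theorem c_pp_102_t : CertNE 536870912 536870912 0 536870912 697932185 42949674 3 eng mog cd0q1 cd0q2 pd0 false true true .npp 1 0 2
    ndB0q1 ndB0q2 pcB0 cut_pp_102_t Ext.none :=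
  certNE0 (fam := false) (s1 := true) (s2 := true) (a := 1) (b := 0) (c := 2) (cn := .npp) (n1 := ndB0q1) (n2 := ndB0q2) (pc := pcB0) (cut := cut_pp_102_t) (xt := Ext.none) (P1 := 536870912) (W1 := 536870912) (P2 := 0) (W2 := 536870912) (P3 := 697932185) (W3 := 42949674) (N0 := 3) (En := eng) (mo := mog) (C1 := cd0q1) (C2 := cd0q2) (C3 := pd0)
    rfl k0_pp_102_t

noncomputable def cut_pp_112_s : Cut := Cut.of [[⟨4, 0, 0, 1449551462⟩]]

noncomputable def f_pp_112_s : ℕ → ℕ → ℕ → ℕ → Bool := onCell 536870912 536870912 0 536870912 697932185 42949674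
    (rowNE 3 eng mog cd0q1 cd0q2 pd1 0 false true true .dn 1 1 2 (qsf 536870912 536870912 0 536870912 1) ndB0q1 ndB0q2 pcB1 cut_pp_112_s Ext.none)

def k0_pp_112_s : ∃ t, chk3 f_pp_112_s t 16 8 1 = true :=
  ⟨(b (b (a (a (l 16747600) (b (l 16729792) (l 16735640))) (a (l 16738992) (l 16745280))) (a (l 16762328) (a (l 16750896) (c (l 16778592) (l 16767064))))) (a (b (a (l 16750272) (l 16767184)) (a (c (l 16773576) (l 16776824)) (b (a (l 16764400) (l 16778072)) (a (l 16776000) (a (l 16775768) (b (l 16778360) (b (l 16775528) (a (l 16778016) (l 110763183079))))))))) (b (a (a (l 16771936) (l 16775056)) (b (c (l 16776896) (l 16776312)) (a (c (l 16776120) (l 16775776)) (b (l 16777440) (a (l 16774512) (b (l 16775240) (a (l 16776392) (b (l 16776752) (l 124184954535))))))))) (a (b (a (l 16773352) (b (l 16772272) (a (l 16774624) (b (l 16775376) (a (l 16776536) (a (l 90362087543) (l 115058149719))))))) (a (b (a (l 16774688) (b (l 16775448) (a (l 16776616) (l 105394468679)))) (a (b (a (l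 16776656) (l 107541957639)) (l 175724559335)) (l 175187687895))) (b (a (b (a (l 16776576) (l 103246985063)) (l 170892721207)) (l 173040204327)) (l 3)))) (b (a (b (a (l 16774568) (b (l 16775312) (a (l 16776464) (a (l 44191188903) (l 110226311415))))) (a (b (a (l 16776496) (a (l 88214603831) (l 112910666055))) (l 166597753991)) (l 170892720759))) (b (a (b (a (l 16776432) (b (l 16776792) (l 127943050903))) (l 164987141303)) (b (l 163376528599) (l 3))) (l 3))) (l 3)))))), by decide +kernel⟩

def k1_pp_112_s : ∃ t, chk3 f_pp_112_s t 34 16 1 = true :=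
  ⟨(a (b (l 16751376) (b (l 16760176) (c (l 16776896) (l 16773704)))) (b (l 16767840) (a (b (l 16764656) (b (l 16769104) (l 16774712))) (b (l 16772864) (b (l 16777304) (a (l 16775616) (a (l 16776720) (b (l 16775400) (b (l 16776520) (a (a (l 16776976) (l 92509567367)) (l 140291079991))))))))))), by decide +kernel⟩

def k2_pp_112_s : ∃ t, chk3 f_pp_112_s t 35 32 1 = true :=
  ⟨(a (a (l 16772264) (l 16772576)) (b (c (l 16776936) (l 16776400)) (a (l 16775784) (b (l 16777240) (b (l 16775504) (a (l 16777552) (a (l 16776024) (b (l 16776384) (a (l 16776920) (a (l 98415149975) (l 123648082743))))))))))), by decide +kernel⟩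

def k3_pp_112_s : ∃ t, chk3 f_pp_112_s t 35 33 1 = true :=
  ⟨(b (a (a (b (l 16769088) (l 16777280)) (b (l 16777264) (a (l 16775552) (a (l 16776648) (b (l 16775328) (b (l 16776440) (c (l 96267666967) (a (l 16777624) (l 114521274999))))))))) (a (b (b (l 16775680) (a (l 16777568) (a (l 16776048) (b (l 16776408) (a (l 24863834807) (a (l 101099502023) (l 127406179111))))))) (a (a (b (l 16776064) (b (c (l 95193925127) (a (l 16776960) (l 113984406647))) (l 167671496151))) (b (b (l 16776424) (c (l 94120183303) (a (l 16776952) (l 112910664839)))) (l 167671495847))) (a (b (b (c (l 93583312375) (a (l 16776944) (l 111836923031))) (l 166597754327)) (l 3)) (l 167671495255)))) (b (a (a (b (l 16776032) (b (a (l 24326963879) (a (l 102173246311) (l 126332437287))) (l 165524012519))) (b (b (l 16776392) (a (l 16777584) (a (l 99488889271) (l 125795566375)))) (l 166060883127))) (a (b (b (a (l 16777584) (a (l 98415150071) (l 124721824551))) (l 164987141623)) (l 3)) (l 166597753447))) (l 3)))) (a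 (a (b (a (l 16775584) (a (l 16776680) (b (l 16775360) (b (l 16776480) (a (b (l 16776848) (l 100562633431)) (l 118816243607)))))) (a (a (b (l 16776136) (c (l 137606723943) (b (c (l 100562629079) (b (l 30769415127) (l 139217338151))) (l 3)))) (b (b (l 16776496) (a (b (l 16776872) (l 104320729831)) (a (l 113984406503) (l 154786594583)))) (l 3))) (a (b (b (c (l 99488892503) (a (l 29695673223) (l 119889986679))) (l 3)) (l 3)) (l 3)))) (b (a (a (b (l 16776096) (b (c (l 97878279735) (a (l 28085060455) (l 117742503047))) (l 169282108855))) (b (b (l 16776456) (c (l 96804537911) (a (l 27548189527) (l 116668761223)))) (l 169282108567))) (a (b (b (c (l 96267666983) (a (l 26474447687) (l 115595019399))) (l 168208367047)) (l 3)) (l 168745237063))) (l 3))) (l 3))), by decide +kernel⟩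

def k4_pp_112_s : ∃ t, chk3 f_pp_112_s t 17 17 1 = true :=
  ⟨(a (b (a (a (b (b (l 16769128) (l 16777400)) (b (a (l 16774448) (b (l 16775184) (a (l 18421383847) (b (l 16776688) (a (l 103246987303) (l 164987141831)))))) (a (a (b (l 16776360) (l 154249723383)) (b (b (l 16776720) (l 138680467207)) (l 3))) (b (c (l 159618432327) (a (l 151565367495) (l 3))) (l 3))))) (b (b (l 16776048) (a (l 16776032) (a (c (l 16775552) (l 16776776)) (b (l 16778120) (b (l 16776624) (a (b (l 16777008) (l 128479920807)) (l 154249723623))))))) (b (b (b (a (c (l 16776312) (l 15200158263)) (a (a (b (l 16777016) (l 131164275351)) (l 156397207271)) (l 3))) (a (a (l 16777328) (a (b (l 16777032) (l 135996113559)) (l 160692174551))) (l 3))) (a (c (l 158007818295) (a (b (c (l 116668761687) (l 133311756759)) (l 3)) (l 3))) (l 3))) (l 3)))) (b (b (a (a (l 16775656) (b (l 16777696) (a (l 16777520) (b (l 16776568) (a (a (l 28621931111) (l 98952018375)) (l 146733530903)))))) (a (a (b (l 16777496) (b (a (a (l 27548189255)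 (l 97341405623)) (l 145122918167)) (l 3))) (b (b (l 16776544) (a (a (l 16777496) (l 95730792871)) (l 143512305447))) (l 3))) (a (b (b (a (a (l 16776992) (l 94120180119)) (l 141901692711)) (l 3)) (l 3)) (l 3)))) (a (a (a (a (b (l 16776056) (b (b (l 16776992) (l 125795566247)) (l 3))) (b (l 16776424) (l 162839657943))) (b (b (l 16776600) (a (b (l 16776976) (l 121500599047)) (l 150491627271))) (l 3))) (a (b (b (a (b (l 16776960) (l 119353115399)) (l 148344143623)) (l 3)) (l 3)) (l 3))) (l 3))) (l 3))) (l 3)) (l 3)), by decide +kernel⟩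

def k5_pp_112_s : ∃ t, chk3 f_pp_112_s t 8 9 1 = true :=
  ⟨(a (b (a (b (a (b (a (l 16776088) (a (l 16775904) (b (l 16778480) (b (l 16775720) (a (l 80161540519) (l 124721826663)))))) (a (b (a (l 16775040) (b (l 16775832) (a (l 86603991639) (l 153175981575)))) (a (b (c (l 107005082567) (l 105931343207)) (l 3)) (l 3))) (a (b (a (b (l 83382766071) (l 3)) (l 163913399303)) (l 3)) (l 3)))) (b (a (b (a (l 16774848) (b (l 16775616) (a (l 30769416343) (l 117205634023)))) (a (a (b (l 31843158247) (l 3)) (l 159081561175)) (l 3))) (a (b (b (a (l 16778224) (l 113984408567)) (l 3)) (l 3)) (l 179482653959))) (l 3))) (l 3)) (l 3)) (l 3)) (l 3)), by decide +kernel⟩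

def k6_pp_112_s : ∃ t, chk3 f_pp_112_s t 9 4 1 = true :=
  ⟨(b (a (b (a (b (a (b (a (l 16775792) (a (l 16775344) (b (l 16772720) (b (l 16777520) (a (l 16775992) (a (l 16777184) (b (l 16776528) (a (l 94120182647) (l 119353115447))))))))) (a (b (b (l 16775488) (a (l 16777536) (a (l 16776000) (a (l 12515803751) (b (l 16776544) (a (l 95193924567) (l 120963728183))))))) (a (a (b (l 16776008) (b (a (l 16776912) (a (l 97341408231) (l 123111211831))) (l 163913399799))) (b (b (l 16776368) (a (l 16776912) (a (l 96267666407) (l 122037470007)))) (l 164987141319))) (a (b (b (a (l 16776904) (a (l 95730795479) (l 121500599095))) (l 163376528903)) (l 3)) (l 165524011623)))) (b (a (a (b (l 16775992) (b (a (l 16776896) (a (l 95193924487) (l 120426857271))) (l 162839657991))) (b (a (l 16777512) (b (l 16776536) (a (l 94120182727) (l 119889986359)))) (l 163913399511))) (a (b (b (a (l 16776888) (a (l 94120182727) (l 119889986359))) (l 162302787079)) (l 3)) (l 164987140711))) (l 3)))) (b (a (b (b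 (l 16775480) (a (l 16777520) (a (l 16775984) (a (l 16776520) (b (l 16776528) (a (l 38285607783) (l 117205631895))))))) (a (a (b (l 16775984) (b (a (l 16776888) (a (l 94120182631) (l 118816244535))) (l 161765916167))) (b (a (l 16776520) (b (l 16776528) (a (l 37748736951) (l 118816244535)))) (l 163376528599))) (a (b (b (a (l 16776880) (a (l 38285607783) (l 117742502791))) (l 161229045271)) (l 3)) (l 164450269799)))) (b (a (a (b (l 16775976) (b (a (l 16776880) (a (l 37748736871) (l 118279373639))) (l 160692174359))) (b (a (l 16776520) (b (l 16776520) (a (l 37748736871) (l 118279373639)))) (l 162839657687))) (a (b (b (a (l 16776880) (a (l 37748736871) (l 118279373639))) (l 160692174359)) (l 3)) (l 163913398871))) (l 3))) (l 3))) (l 3)) (l 3)) (l 3)) (l 3)) (l 3)), by decide +kernel⟩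

def k7_pp_112_s : ∃ t, chk3 f_pp_112_s t 4 5 1 = true :=
  ⟨(l 3), by decide +kernel⟩

def k8_pp_112_s : ∃ t, chk3 f_pp_112_s t 5 2 1 = true :=
  ⟨(l 3), by decide +kernel⟩

def k9_pp_112_s : ∃ t, chk3 f_pp_112_s t 2 3 1 = true :=
  ⟨(l 3), by decide +kernel⟩

def k10_pp_112_s : ∃ t, chk3 f_pp_112_s t 3 1 1 = true :=
  ⟨(l 1), by decide +kernel⟩

theorem s11_pp_112_s : ∃ t, chk3 f_pp_112_s t 35 16 1 = true := ex3_b k2_pp_112_s k3_pp_112_s

theorem s12_pp_112_s : ∃ t, chk3 f_pp_112_s t 17 16 1 = true := ex3_a k1_pp_112_s s11_pp_112_s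

theorem s13_pp_112_s : ∃ t, chk3 f_pp_112_s t 17 8 1 = true := ex3_b s12_pp_112_s k4_pp_112_s

theorem s14_pp_112_s : ∃ t, chk3 f_pp_112_s t 8 8 1 = true := ex3_a k0_pp_112_s s13_pp_112_s

theorem s15_pp_112_s : ∃ t, chk3 f_pp_112_s t 8 4 1 = true := ex3_b s14_pp_112_s k5_pp_112_s

theorem s16_pp_112_s : ∃ t, chk3 f_pp_112_s t 4 4 1 = true := ex3_a s15_pp_112_s k6_pp_112_s

theorem s17_pp_112_s : ∃ t, chk3 f_pp_112_s t 4 2 1 = true := ex3_b s16_pp_112_s k7_pp_112_s

theorem s18_pp_112_s : ∃ t, chk3 f_pp_112_s t 2 2 1 = true := ex3_a s17_pp_112_s k8_pp_112_s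

theorem s19_pp_112_s : ∃ t, chk3 f_pp_112_s t 2 1 1 = true := ex3_b s18_pp_112_s k9_pp_112_s

theorem s20_pp_112_s : ∃ t, chk3 f_pp_112_s t 1 1 1 = true := ex3_a s19_pp_112_s k10_pp_112_s

theorem c_pp_112_s : CertNE 536870912 536870912 0 536870912 697932185 42949674 3 eng mog cd0q1 cd0q2 pd1 false true true .dn 1 1 2
    ndB0q1 ndB0q2 pcB1 cut_pp_112_s Ext.none :=
  certNE0 (fam := false) (s1 := true) (s2 := true) (a := 1) (b := 1) (c := 2) (cn := .dn) (n1 := ndB0q1) (n2 := ndB0q2) (pc := pcB1) (cut := cut_pp_112_s) (xt := Ext.none) (P1 := 536870912) (W1 := 536870912) (P2 := 0) (W2 := 536870912) (P3 := 697932185) (W3 := 42949674) (N0 := 3) (En := eng) (mo := mog) (C1 := cd0q1) (C2 := cd0q2) (C3 := pd1)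
    rfl s20_pp_112_s

noncomputable def cut_pp_112_t : Cut := Cut.of [[⟨3, 0, 0, 2845415833⟩]]

noncomputable def f_pp_112_t : ℕ → ℕ → ℕ → ℕ → Bool := onCell 536870912 536870912 0 536870912 697932185 42949674
    (rowNE 3 eng mog cd0q1 cd0q2 pd1 0 false true true .dn 1 1 2 (qsf 536870912 536870912 0 536870912 1) ndB0q1 ndB0q2 pcB1 cut_pp_112_t Ext.none)

def k0_pp_112_t : ∃ t, chk3 f_pp_112_t t 1 1 1 = true :=
  ⟨(l 6), by decide +kernel⟩

theorem c_pp_112_t : CertNE 536870912 536870912 0 536870912 697932185 42949674 3 eng mog cd0q1 cd0q2 pd1 false true true .dn 1 1 2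
    ndB0q1 ndB0q2 pcB1 cut_pp_112_t Ext.none :=
  certNE0 (fam := false) (s1 := true) (s2 := true) (a := 1) (b := 1) (c := 2) (cn := .dn) (n1 := ndB0q1) (n2 := ndB0q2) (pc := pcB1) (cut := cut_pp_112_t) (xt := Ext.none) (P1 := 536870912) (W1 := 536870912) (P2 := 0) (W2 := 536870912) (P3 := 697932185) (W3 := 42949674) (N0 := 3) (En := eng) (mo := mog) (C1 := cd0q1) (C2 := cd0q2) (C3 := pd1)
    rfl k0_pp_112_t

noncomputable def cut_pp_202_s : Cut := Cut.of [[⟨4, 0, 0, 1449551462⟩]]

noncomputable def f_pp_202_s : ℕ → ℕ → ℕ → ℕ → Bool := onCell 0 536870912 0 536870912 697932185 42949674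
    (rowNE 3 eng mog cd0q2 cd0q2 pd0 0 false true true .pp 2 0 2 (qsf 0 536870912 0 536870912 0) ndB0q2 ndB0q2 pcB0 cut_pp_202_s Ext.none)

def k0_pp_202_s : ∃ t, chk3 f_pp_202_s t 1 1 1 = true :=
  ⟨(l 3), by decide +kernel⟩

theorem c_pp_202_s : CertNE 0 536870912 0 536870912 697932185 42949674 3 eng mog cd0q2 cd0q2 pd0 false true true .pp 2 0 2
    ndB0q2 ndB0q2 pcB0 cut_pp_202_s Ext.none :=
  certNE0 (fam := false) (s1 := true) (s2 := true) (a := 2) (b := 0) (c := 2) (cn := .pp) (n1 := ndB0q2) (n2 := ndB0q2) (pc := pcB0) (cut := cut_pp_202_s) (xt := Ext.none) (P1 := 0) (W1 := 536870912) (P2 := 0) (W2 := 536870912) (P3 := 697932185) (W3 := 42949674) (N0 := 3) (En := eng) (mo := mog) (C1 := cd0q2) (C2 := cd0q2) (C3 := pd0)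
    rfl k0_pp_202_s

noncomputable def cut_pp_202_t : Cut := Cut.of [[⟨3, 0, 0, 2845415833⟩]]

noncomputable def f_pp_202_t : ℕ → ℕ → ℕ → ℕ → Bool := onCell 0 536870912 0 536870912 697932185 42949674
    (rowNE 3 eng mog cd0q2 cd0q2 pd0 0 false true true .pp 2 0 2 (qsf 0 536870912 0 536870912 0) ndB0q2 ndB0q2 pcB0 cut_pp_202_t Ext.none)

def k0_pp_202_t : ∃ t, chk3 f_pp_202_t t 1 1 1 = true :=
  ⟨(l 3), by decide +kernel⟩

theorem c_pp_202_t : CertNE 0 536870912 0 536870912 697932185 42949674 3 eng mog cd0q2 cd0q2 pd0 false true true .pp 2 0 2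
    ndB0q2 ndB0q2 pcB0 cut_pp_202_t Ext.none :=
  certNE0 (fam := false) (s1 := true) (s2 := true) (a := 2) (b := 0) (c := 2) (cn := .pp) (n1 := ndB0q2) (n2 := ndB0q2) (pc := pcB0) (cut := cut_pp_202_t) (xt := Ext.none) (P1 := 0) (W1 := 536870912) (P2 := 0) (W2 := 536870912) (P3 := 697932185) (W3 := 42949674) (N0 := 3) (En := eng) (mo := mog) (C1 := cd0q2) (C2 := cd0q2) (C3 := pd0)
    rfl k0_pp_202_t

noncomputable def cut_pm_001_s : Cut := Cut.of [[⟨4, 0, 0, 1449551462⟩]]

noncomputable def f_pm_001_s : ℕ → ℕ → ℕ → ℕ → Bool := onCell 0 536870912 536870912 536870912 697932185 42949674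
    (rowNE 3 eng mog cd0q0 cd0q1 pd0 0 false true false .up 0 0 1 (qsf 0 536870912 536870912 536870912 0) ndB0q0 ndB0q1 pcB0 cut_pm_001_s Ext.none)

def k0_pm_001_s : ∃ t, chk3 f_pm_001_s t 1 1 1 = true :=
  ⟨(l 6), by decide +kernel⟩

theorem c_pm_001_s : CertNE 0 536870912 536870912 536870912 697932185 42949674 3 eng mog cd0q0 cd0q1 pd0 false true false .up 0 0 1
    ndB0q0 ndB0q1 pcB0 cut_pm_001_s Ext.none :=
  certNE0 (fam := false) (s1 := true) (s2 := false) (a := 0) (b := 0) (c := 1) (cn := .up) (n1 := ndB0q0) (n2 := ndB0q1) (pc := pcB0) (cut := cut_pm_001_s) (xt := Ext.none) (P1 := 0) (W1 := 536870912) (P2 := 536870912) (W2 := 536870912) (P3 := 697932185) (W3 := 42949674) (N0 := 3) (En := eng) (mo := mog) (C1 := cd0q0) (C2 := cd0q1) (C3 := pd0)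
    rfl k0_pm_001_s

noncomputable def cut_pm_001_t : Cut := Cut.of [[⟨3, 0, 0, 2845415833⟩]]

noncomputable def f_pm_001_t : ℕ → ℕ → ℕ → ℕ → Bool := onCell 0 536870912 536870912 536870912 697932185 42949674
    (rowNE 3 eng mog cd0q0 cd0q1 pd0 0 false true false .up 0 0 1 (qsf 0 536870912 536870912 536870912 0) ndB0q0 ndB0q1 pcB0 cut_pm_001_t Ext.none)

def k0_pm_001_t : ∃ t, chk3 f_pm_001_t t 2 1 1 = true :=
  ⟨(b (l 4) (b (b (l 4) (l 2)) (l 2))), by decide +kernel⟩

def k1_pm_001_t : ∃ t, chk3 f_pm_001_t t 6 2 1 = true :=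
  ⟨(b (l 4) (l 4)), by decide +kernel⟩

def k2_pm_001_t : ∃ t, chk3 f_pm_001_t t 7 4 1 = true :=
  ⟨(l 4), by decide +kernel⟩

def k3_pm_001_t : ∃ t, chk3 f_pm_001_t t 14 10 1 = true :=
  ⟨(l 4), by decide +kernel⟩

def k4_pm_001_t : ∃ t, chk3 f_pm_001_t t 15 20 1 = true :=
  ⟨(a (l 4) (b (l 4) (a (l 4) (b (l 4) (a (l 4) (b (a (l 4) (a (l 4) (b (l 4) (a (l 201561470951) (b (l 4) (l 95797898983)))))) (a (b (l 4) (a (l 4) (a (b (l 4) (l 114588378631)) (a (b (l 4) (l 48553259815)) (b (l 118883347703) (l 16776968)))))) (b (a (a (l 189213440215) (b (l 115662119671) (l 16777096))) (c (l 25467809495) (l 23857196823))) (a (a (b (l 16777080) (l 16776696)) (l 16776544)) (l 16776024)))))))))), by decide +kernel⟩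

def k5_pm_001_t : ∃ t, chk3 f_pm_001_t t 30 21 1 = true :=
  ⟨(b (l 4) (a (l 4) (b (a (l 4) (b (l 4) (a (l 4) (b (l 4) (a (l 4) (c (l 217667597671) (l 214446371911))))))) (a (b (l 4) (a (l 4) (b (l 4) (a (l 4) (a (c (l 204245825719) (l 203172083671)) (b (l 210151406263) (a (a (l 113514639575) (l 67343747351)) (l 16776936)))))))) (a (b (b (l 4) (b (l 4) (a (l 4) (a (l 4) (a (l 187602828439) (l 110830284695)))))) (b (b (a (l 4) (a (a (a (l 112977767431) (l 111367155223)) (l 75933676519)) (l 16776736))) (a (a (l 217667598823) (a (a (l 111904025975) (l 114588381367)) (l 60364425335))) (l 16776344))) (b (a (a (a (a (l 110830284343) (l 113514645671)) (l 45332039799)) (l 16776560)) (l 16775648)) (c (l 16775688) (l 16775408))))) (a (a (b (b (l 4) (b (a (l 206393310167) (l 115125251575)) (l 16776832))) (b (l 16775800) (l 16774416))) (b (b (c (l 191897794967) (l 191897794791)) (c (l 16776640) (l 16776512))) (l 16774528))) (b (b (b (a (l 183844731831) (a (l 107072189303) (l 16776928)))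 (c (l 32447132135) (l 30836519591))) (c (l 16775840) (l 16775552))) (l 16776288)))))))), by decide +kernel⟩

def k6_pm_001_t : ∃ t, chk3 f_pm_001_t t 31 42 1 = true :=
  ⟨(a (b (l 4) (a (l 4) (b (a (l 4) (b (a (l 4) (c (l 194582148951) (l 194045277815))) (b (a (l 4) (a (l 117272733447) (l 16776960))) (a (c (l 168812346231) (l 168275475191)) (l 16776672))))) (a (b (b (l 4) (a (l 4) (a (l 4) (l 108682799767)))) (b (a (l 216056985463) (a (l 106535317735) (l 16776712))) (a (a (l 197803375367) (l 66269999543)) (l 16776392)))) (b (a (a (b (l 113514637719) (l 16776776)) (l 16776568)) (l 16775872)) (c (l 16775520) (l 16774976))))))) (a (b (b (a (l 4) (b (l 4) (a (l 4) (c (b (l 164517379015) (l 51774483223)) (b (l 163980507991) (l 50700741575)))))) (a (b (a (l 4) (l 212835759271)) (a (c (l 206393308743) (l 204245824839)) (a (b (l 114588377639) (l 16777088)) (a (l 45332032983) (l 16776816))))) (b (a (c (b (l 117809603367) (l 43184549031)) (b (l 117809603607) (l 41573936759))) (l 16776416))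 (c (l 16776128) (l 16775648))))) (b (a (b (a (a (b (l 114051507175) (l 16777016)) (l 28152164551)) (l 16776168)) (c (l 16775848) (l 16775328))) (c (l 16774944) (l 16773968))) (a (l 16777968) (l 16772464)))) (b (b (a (b (a (a (l 168812344743) (a (l 108682801143) (l 49090129111))) (l 16775640)) (a (l 16776528) (l 16775776))) (a (b (a (l 16780016) (l 16775728)) (l 16775072)) (b (l 16775224) (c (l 16775064) (l 16773752))))) (a (b (l 16775272) (l 16774376)) (l 16773472))) (c (a (l 16773024) (l 16772128)) (c (l 16776072) (l 16774920)))))), by decide +kernel⟩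

def k7_pm_001_t : ∃ t, chk3 f_pm_001_t t 31 43 1 = true :=
  ⟨(a (b (a (b (a (l 4) (b (a (l 4) (b (l 195119020231) (a (a (l 4) (l 112440896151)) (l 16775712)))) (a (a (c (l 175791666599) (l 175254795543)) (b (a (l 119420217207) (l 116735864263)) (l 16776880))) (c (l 16776480) (l 16776288))))) (a (b (a (l 4) (a (b (l 4) (a (l 112440896151) (l 16777128))) (b (a (l 112977766871) (l 108145931095)) (l 16776728)))) (a (a (b (l 216056986167) (a (l 112440897271) (l 16777008))) (b (a (l 116198993367) (l 16777080)) (l 16776576))) (l 16776056))) (b (a (c (l 16776328) (l 16776112)) (l 16775152)) (l 16777056)))) (a (b (a (b (a (b (l 54458839095) (l 16776496)) (l 16776280)) (l 16775344)) (b (l 16775536) (l 16774368))) (c (l 16773528) (l 16772560))) (b (c (l 16774048) (l 16773072)) (l 16771232)))) (a (b (b (a (a (l 16775880) (l 16774768)) (l 16773176)) (a (l 16776632) (l 16771896))) (a (c (l 16772504) (l 16771520)) (l 16772568))) (c (a (l 16770184) (l 16768752)) (a (l 16773704) (l 16766472)))))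 (b (a (c (a (l 16771672) (l 16770536)) (a (l 16775072) (l 16768056))) (c (a (l 16769600) (l 16768880)) (a (l 16766448) (l 16765000)))) (a (c (a (l 16767552) (l 16766576)) (a (l 16764664) (l 16763024))) (c (l 16765504) (l 16760896))))), by decide +kernel⟩

def k8_pm_001_t : ∃ t, chk3 f_pm_001_t t 28 22 1 = true :=
  ⟨(l 4), by decide +kernel⟩

def k9_pm_001_t : ∃ t, chk3 f_pm_001_t t 29 44 1 = true :=
  ⟨(l 4), by decide +kernel⟩

def k10_pm_001_t : ∃ t, chk3 f_pm_001_t t 58 45 1 = true :=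
  ⟨(l 4), by decide +kernel⟩

def k11_pm_001_t : ∃ t, chk3 f_pm_001_t t 59 90 1 = true :=
  ⟨(a (l 4) (b (a (l 4) (b (l 4) (a (l 4) (a (l 4) (b (l 4) (a (l 4) (a (c (l 196192763175) (l 192971537591)) (b (l 4) (b (l 103850965175) (l 16777120)))))))))) (b (a (l 4) (b (a (l 4) (b (a (l 4) (a (c (c (l 104924706279) (l 105461577191)) (c (l 105998448087) (l 107072189911))) (l 16776880))) (a (a (l 200487730551) (c (l 103850965335) (c (l 106535320055) (l 81302387175)))) (l 16776624)))) (a (a (l 4) (a (c (l 181160377607) (l 184381602951)) (b (l 177939152359) (c (l 16777080) (l 16776728))))) (a (a (b (c (l 68417485239) (l 67343743463)) (l 16776680)) (l 16776520)) (l 16777264))))) (b (a (l 4) (b (a (a (b (l 204245826743) (a (l 4) (l 105461581223))) (c (l 16776832) (l 16776784))) (l 16776968)) (a (a (a (c (l 105998447815) (l 103314092983)) (l 16776928)) (l 16776344)) (l 16777832)))) (a (a (l 4) (b (a (l 4) (a (l 206393310487) (b (l 103314093591) (l 16777136)))) (a (l 196729633847) (a (a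 (l 109756548183) (l 16777080)) (l 16776784))))) (a (c (l 16776440) (a (l 16776392) (l 16775584))) (l 16777152))))))), by decide +kernel⟩

def k12_pm_001_t : ∃ t, chk3 f_pm_001_t t 59 91 1 = true :=
  ⟨(a (b (a (l 4) (b (l 4) (a (l 4) (b (a (l 4) (b (l 204245826535) (a (l 183844732279) (l 64659390503)))) (a (b (b (l 4) (l 174181055351)) (a (l 145726897895) (l 16777008))) (c (l 32984004679) (l 31910262887))))))) (b (a (a (l 4) (c (l 214446372343) (l 217130729095))) (b (a (a (l 218204469783) (b (a (l 4) (l 123715191239)) (a (l 105461577031) (l 16776848)))) (c (l 16776144) (l 16776024))) (a (a (b (a (l 184918475767) (l 16777832)) (l 16776912)) (l 16776328)) (l 16775128)))) (b (a (a (l 4) (a (l 187065956087) (c (l 78081159543) (l 79154901383)))) (a (l 16775768) (l 16774168))) (a (a (c (l 173107313367) (l 176865409527)) (a (a (l 68417489239) (l 16776624)) (l 16776008))) (l 16776616))))) (b (a (b (b (a (a (l 4) (c (l 185992215527) (l 189213440823))) (a (a (b (l 162369897095) (l 34594620455))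 (c (l 42647680983) (l 41037068247))) (l 16776288))) (a (b (a (l 4) (a (l 131768253559) (l 16776968))) (a (c (l 148411250983) (l 151095605479)) (l 16776696))) (c (l 16775832) (l 16775672)))) (b (a (a (a (b (l 103314094823) (l 16776744)) (l 16776584)) (l 16775992)) (l 16774824)) (a (a (l 16775840) (l 16775056)) (l 16773888)))) (b (a (c (l 16777432) (l 16777160)) (l 16775784)) (c (l 16777592) (l 16777032)))) (a (b (a (l 16776648) (l 16772480)) (l 16775272)) (c (l 16774928) (l 16774080))))), by decide +kernel⟩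

def k13_pm_001_t : ∃ t, chk3 f_pm_001_t t 28 23 1 = true :=
  ⟨(b (a (l 4) (b (l 4) (a (l 4) (b (l 4) (a (l 4) (b (l 4) (a (l 4) (c (l 101703471175) (l 103314083815))))))))) (a (b (l 4) (a (l 4) (b (a (l 4) (l 200487726343)) (a (b (l 4) (l 154316830583)) (b (a (l 103314106023) (l 16776688)) (l 16775472)))))) (b (a (b (l 4) (a (l 4) (b (l 169349215639) (a (l 105461588391) (l 16776168))))) (b (a (b (l 207467049223) (a (l 188139698231) (l 60901300007))) (b (a (l 86671105063) (l 16775576)) (l 16774408))) (a (b (l 32984011879) (l 16773728)) (l 16771448)))) (a (a (b (a (b (l 4) (l 68954364423)) (b (b (l 105998459975) (l 81302397511)) (l 16775432))) (l 16773248)) (b (b (l 16774992) (l 16778272)) (b (l 16781560) (l 16769112)))) (b (l 16779656) (a (l 16777416) (l 16763728))))))), by decide +kernel⟩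

def k14_pm_001_t : ∃ t, chk3 f_pm_001_t t 29 23 1 = true :=
  ⟨(b (a (b (a (b (l 4) (a (l 4) (b (l 4) (l 213909499879)))) (b (a (l 4) (b (b (l 4) (a (l 4) (a (l 4) (a (l 117809605111) (l 79154907895))))) (b (a (l 213372631079) (a (l 85060489095) (l 16776344))) (a (a (l 193508408295) (l 61438168103)) (l 16775760))))) (a (b (a (l 4) (a (l 177939148951) (b (l 103850972327) (l 16776704)))) (a (a (b (l 4) (l 16777152)) (b (a (l 119957099719) (l 16777160)) (l 16776352))) (b (l 16776096) (l 16777696)))) (a (a (b (l 30299654983) (l 16774320)) (l 16777112)) (l 16775856))))) (a (b (a (b (l 4) (a (l 4) (l 163443636599))) (b (a (l 199413987143) (a (l 94187296647) (l 16776544))) (a (c (l 49090138855) (l 76470544007)) (l 16774920)))) (a (b (a (l 142505671575) (l 16776288)) (l 16775088)) (l 16777984))) (b (a (b (a (l 16775248) (l 16778792)) (l 16772376)) (a (b (l 16771864) (l 16769832)) (l 16774416))) (a (l 16769376) (b (l 16777472) (l 16765008)))))) (b (a (b (a (b (a (b (a (a (l 118883356951)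 (l 97408519511)) (l 16776680)) (l 16776096)) (l 16777568)) (c (l 16773936) (l 16773600))) (c (l 16777064) (l 16776496))) (a (l 16777312) (l 16778056))) (a (b (a (l 16769200) (l 16767680)) (l 16764512)) (b (l 16770688) (l 16761568)))) (a (a (b (l 16766720) (b (l 16763680) (l 16772144))) (l 16772016)) (c (l 16758032) (l 16777032))))) (a (a (b (a (l 16775360) (l 16777296)) (l 16781720)) (b (l 16772256) (l 16754168))) (b (a (b (a (l 16779664) (l 16776432)) (l 16774144)) (b (l 16751016) (l 16767920))) (a (l 16747536) (b (l 16763968) (l 16739208)))))), by decide +kernel⟩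

def k15_pm_001_t : ∃ t, chk3 f_pm_001_t t 60 88 1 = true :=
  ⟨(a (l 4) (b (l 4) (a (l 4) (a (a (l 4) (a (l 4) (b (l 4) (b (l 4) (a (l 184381603143) (b (l 4) (l 75933678151))))))) (a (b (l 4) (b (c (l 189750311927) (l 191360924519)) (b (a (a (l 110830286039) (l 109756545047)) (l 16776984)) (l 16776760)))) (b (c (l 214983243799) (l 213372630807)) (b (b (a (a (l 4) (l 110293415271)) (l 53921970423)) (c (l 16776896) (l 16776848))) (l 16776288)))))))), by decide +kernel⟩

def k16_pm_001_t : ∃ t, chk3 f_pm_001_t t 120 89 1 = true :=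
  ⟨(b (l 4) (a (l 4) (a (b (l 4) (a (b (l 4) (a (a (l 4) (b (l 4) (b (l 4) (a (l 103850965671) (l 71101840647))))) (b (c (l 184381603335) (l 187065957815)) (b (a (a (l 104387836535) (l 104924707831)) (l 16777096)) (l 16776968))))) (b (b (l 4) (b (a (l 4) (c (a (l 117809608791) (l 16776544)) (c (l 108682802935) (l 109219673847)))) (a (l 203708956215) (c (l 16777104) (l 16776760))))) (a (b (a (b (a (l 4) (l 109219674791)) (l 32984007223)) (c (l 16777064) (l 16777040))) (l 16776712)) (c (l 16776600) (l 16776520)))))) (a (b (b (l 4) (a (l 4) (b (l 4) (b (l 184381603447) (c (l 111904029527) (l 112440900423)))))) (b (a (b (a (b (l 4) (a (l 109219674807) (l 16777192))) (c (l 77544291207) (l 77007420359))) (l 16776832)) (c (l 16776720) (l 16776656))) (l 16777336))) (b (b (a (l 4) (b (l 4) (c (l 168812346999) (l 170422959687)))) (b (a (a (l 198340247079) (c (l 111367157543) (l 113514641335))) (c (l 16777032) (l 16776680))) (c (l 16776808) (l 16776752)))) (a (c (l 16775992) (l 16775824))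 (l 16776864))))))), by decide +kernel⟩

def k17_pm_001_t : ∃ t, chk3 f_pm_001_t t 121 89 1 = true :=
  ⟨(b (a (a (b (l 4) (b (l 4) (a (c (l 214446373591) (l 213372631575)) (a (b (l 216056986887) (a (b (l 117809608807) (l 16777176)) (l 53385100023))) (b (c (l 109756545767) (l 110830287655)) (l 16776832)))))) (b (a (l 4) (b (l 4) (a (c (l 184918474007) (l 186529086647)) (b (l 177402281495) (c (l 16777080) (l 16777048)))))) (b (a (b (b (l 212298890423) (a (l 4) (l 111904028807))) (a (c (l 111904029191) (l 113514641991)) (l 16776944))) (c (l 16776672) (l 16776592))) (c (l 16776888) (l 16776424))))) (a (a (a (b (b (l 202635213831) (c (l 42647681063) (l 41037068359))) (l 16777024)) (b (b (b (l 213372632375) (c (l 78081161783) (l 77544290919))) (l 16776568)) (l 16775368))) (b (b (a (b (a (l 114051512055) (l 16777136)) (l 16776824)) (l 16776680)) (l 16776056)) (l 16774864))) (b (c (l 16775568) (l 16775320)) (l 16773864)))) (a (a (b (b (b (a (a (c (l 187065957911) (l 188676570567))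 (c (l 71638710871) (a (l 115125254967) (l 16777032)))) (l 16776600)) (a (a (c (l 57143196103) (l 55532583367)) (l 16776712)) (l 16776192))) (c (l 16776168) (c (l 16775880) (l 16775800)))) (c (l 16774840) (l 16777136))) (b (c (l 16775088) (l 16777416)) (l 16775920))) (c (c (l 16777856) (l 16777520)) (c (l 16777176) (l 16776840))))), by decide +kernel⟩

def k18_pm_001_t : ∃ t, chk3 f_pm_001_t t 61 44 1 = true :=
  ⟨(b (a (b (a (a (l 4) (b (l 4) (b (a (l 4) (a (l 189213441159) (b (l 111367155959) (l 16777112)))) (b (a (l 176865410343) (l 16776896)) (a (a (l 115125253143) (l 16777008)) (l 16776520)))))) (b (b (b (a (l 4) (a (a (l 115662124039) (l 16777016)) (l 16776544))) (a (c (l 184918473575) (l 185455344343)) (l 16776496))) (a (c (a (l 161296152615) (l 45332034791)) (a (c (l 163980508423) (l 163980508375)) (l 43184551031))) (l 16775952))) (a (a (a (b (l 44795164439) (l 16776224)) (l 16776272)) (l 16775800)) (l 16774864)))) (a (a (b (a (b (l 216593857015) (a (b (l 208003923319)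 (l 67343743319)) (c (l 51237615159) (l 49627002519)))) (b (a (b (l 4) (l 108682802615)) (c (l 68954355527) (l 67880613719))) (l 16776496))) (c (l 16775792) (l 16775568))) (b (c (l 16776000) (l 16776456)) (l 16774384))) (b (c (l 16774248) (l 16773760)) (l 16775128)))) (b (b (a (a (l 16775088) (l 16773888)) (l 16772160)) (a (l 16775672) (l 16770760))) (a (c (l 16771368) (l 16770352)) (l 16773856)))) (a (b (a (c (l 16776952) (l 16776968)) (c (l 16770744) (l 16769704))) (a (c (l 16770072) (l 16769008)) (l 16772360))) (c (a (l 16772432) (l 16765240)) (a (l 16776008) (l 16763136))))), by decide +kernel⟩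

def k19_pm_001_t : ∃ t, chk3 f_pm_001_t t 30 90 1 = true :=
  ⟨(a (a (b (a (a (a (b (l 4) (b (c (c (l 192434666439) (l 193508408183)) (c (l 194045279015) (l 195119020759))) (b (a (a (l 198340247063) (c (l 105998448423) (l 103850964583))) (c (l 16777032) (l 16777000))) (c (l 16776784) (l 16776728))))) (b (b (l 4) (c (l 206930180807) (l 206393310999))) (a (b (b (c (l 184381603335) (l 187065957815)) (c (l 55532583415) (l 54995712615))) (l 16776416)) (b (b (b (a (l 103850965175) (l 16777160)) (l 16777032)) (l 16776696)) (l 16776040))))) (b (b (a (l 4) (a (b (l 4) (b (c (l 184918474375) (l 187602828887)) (c (l 108682804039) (l 110293416775)))) (b (a (l 199950859799) (a (b (l 4) (l 105461578743)) (b (l 110293416423) (l 16777136)))) (c (l 16776976) (l 16776944))))) (a (a (b (l 4) (b (c (l 102240351847) (l 103850964727)) (c (l 16777104) (l 16777088)))) (b (a (b (l 4) (l 105998449303)) (c (l 72175582007) (l 71638711159))) (l 16776824))) (c (l 16776536) (l 16776616)))) (a (b (c (l 16776408)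 (l 16776312)) (l 16775488)) (a (l 16776688) (l 16776320))))) (b (a (a (b (b (a (a (c (l 53921971063) (l 52311358295)) (l 16776920)) (l 16776648)) (c (l 16776456) (l 16776360))) (l 16777072)) (c (l 16776888) (l 16776672))) (c (l 16777192) (l 16776848))) (c (c (l 16776360) (l 16776128)) (c (l 16775896) (l 16775672))))) (a (a (a (b (c (l 16775904) (b (l 16776032) (l 16775088))) (l 16773864)) (c (l 16776816) (l 16776456))) (c (l 16776440) (l 16776600))) (c (c (l 16776592) (l 16776208)) (c (l 16775832) (l 16775448))))) (b (c (a (c (l 16777248) (l 16776888)) (l 16769360)) (a (c (l 16776528) (l 16776168)) (l 16768272))) (c (a (l 16768608) (l 16766192)) (a (l 16767480) (l 16764696))))) (a (c (a (l 16770720) (l 16763328)) (a (l 16769040) (l 16761248))) (c (b (l 16761872) (l 16758880)) (l 16765528)))), by decide +kernel⟩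

def k20_pm_001_t : ∃ t, chk3 f_pm_001_t t 30 91 1 = true :=
  ⟨(b (a (a (c (a (c (l 16770648) (l 16770248)) (l 16773048)) (a (c (l 16775088) (l 16774688)) (l 16771888))) (a (a (l 16765200) (l 16763888)) (l 16761984))) (a (c (l 16759640) (l 16757168)) (l 16754144))) (a (a (c (a (l 16766960) (l 16764360)) (a (l 16765760) (l 16762816))) (c (l 16760704) (l 16758616))) (a (l 16760168) (l 16750776)))), by decide +kernel⟩

def k21_pm_001_t : ∃ t, chk3 f_pm_001_t t 31 22 1 = true :=
  ⟨(a (b (b (a (c (a (l 16768736) (l 16766992)) (a (l 16772304) (l 16764840))) (c (a (l 16765456) (l 16764160)) (a (l 16762792) (l 16760928)))) (a (c (a (l 16763448) (l 16761816)) (a (l 16760888) (l 16758784))) (c (l 16759776) (l 16755960)))) (b (a (c (l 16757000) (l 16753392)) (c (l 16754424) (l 16749784))) (a (c (l 16751032) (l 16746656)) (c (l 16748688) (l 16743288))))) (b (a (b (c (l 16762656) (l 16768968)) (c (l 16757944) (l 16752888))) (b (c (l 16761464) (l 16755872)) (c (l 16757072) (l 16750576))))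 (b (a (c (l 16752856) (l 16746984)) (l 16748648)) (a (l 16744088) (l 16743104))))), by decide +kernel⟩

def k22_pm_001_t : ∃ t, chk3 f_pm_001_t t 15 23 1 = true :=
  ⟨(a (b (a (b (a (b (a (l 16762584) (l 16759856)) (l 16767856)) (c (l 16755448) (l 16763280))) (a (l 16762016) (l 16746544))) (b (a (c (l 16751232) (l 16747816)) (l 16745520)) (a (l 16742128) (l 16738312)))) (a (b (a (l 16743576) (l 16738752)) (a (l 16756416) (l 16730720))) (b (l 16732552) (l 16724752)))) (b (a (b (a (l 16742128) (l 16739504)) (a (l 16735120) (l 16732704))) (b (a (l 16737848) (l 16737160)) (l 16730936))) (a (b (l 16726600) (l 16719144)) (b (l 16724232) (l 16717208))))), by decide +kernel⟩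

def k23_pm_001_t : ∃ t, chk3 f_pm_001_t t 12 12 1 = true :=
  ⟨(b (l 4) (a (l 4) (b (l 4) (a (l 4) (b (l 4) (a (b (l 4) (l 2)) (b (a (l 4) (b (l 247732368023) (a (l 108682817511) (l 16776352)))) (a (b (a (l 2) (l 83986754375)) (l 2)) (b (l 16773920) (l 16770088)))))))))), by decide +kernel⟩

def k24_pm_001_t : ∃ t, chk3 f_pm_001_t t 13 24 1 = true :=
  ⟨(a (l 4) (b (a (l 4) (b (l 4) (a (b (l 4) (a (l 4) (l 165591118599))) (b (a (l 191897792055) (b (l 100092883527) (l 16776312))) (a (b (l 84523625111) (l 16775384)) (l 16773096)))))) (a (b (a (l 4) (b (l 4) (a (l 4) (b (l 168275473991) (l 16782136))))) (a (b (a (l 4) (l 194582146663)) (a (l 168812344215) (b (l 64659401479) (l 16774296)))) (a (b (b (l 100092883479) (l 16775696)) (l 16771536)) (l 16780832)))) (b (a (b (a (b (l 192971534823) (l 89892335239)) (l 48553272503)) (a (l 16774352) (l 16770880))) (l 16778664)) (a (l 16775504) (l 16758552)))))), by decide +kernel⟩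

def k25_pm_001_t : ∃ t, chk3 f_pm_001_t t 13 25 1 = true :=
  ⟨(a (b (a (b (l 4) (a (l 4) (b (l 4) (a (l 4) (b (l 233236853111) (l 69491241879)))))) (b (a (b (l 4) (l 228405010919)) (b (a (l 4) (b (l 207467049703) (l 73786207607))) (a (b (l 111904045207) (l 16775952)) (l 16772720)))) (a (b (a (b (l 4) (l 112977788183)) (b (l 77007434055) (l 16774280))) (a (c (l 16774328) (l 16774248)) (l 16769192))) (b (l 16773864) (l 16761976))))) (a (b (a (b (a (l 4) (l 243974269815)) (a (b (l 4) (l 181160376359)) (a (b (l 117272751623) (l 16775488)) (l 16774608)))) (b (a (b (l 177939150807) (l 16781272)) (l 16772440)) (a (l 16770512) (l 16765232)))) (a (b (a (b (a (l 16782256) (l 16774504)) (l 16772112)) (l 16768496)) (b (l 16776040) (l 16772232))) (b (l 16770960) (l 16763488)))) (a (b (b (l 16769976) (l 16757616)) (b (l 16750344) (l 16763920))) (b (l 16772592) (l 16737248))))) (b (a (b (a (a (b (l 16774328) (l 16768168)) (l 16777400)) (l 16781864)) (b (a (l 16759664) (l 16751712)) (l 16770016)))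 (b (a (l 16753904) (l 16747720)) (b (a (l 16744880) (l 16738832)) (l 16756400)))) (a (b (b (l 16763320) (l 16756416)) (b (l 16749336) (l 16742104))) (b (l 16746472) (l 16732496))))), by decide +kernel⟩

def k26_pm_001_t : ∃ t, chk3 f_pm_001_t t 6 13 1 = true :=
  ⟨(a (b (a (l 2) (b (a (l 2) (b (a (l 2) (b (a (l 2) (l 16764400)) (l 2))) (l 2))) (l 2))) (l 2)) (b (a (b (a (b (a (b (a (l 16758832) (l 16763888)) (l 16743610775)) (b (l 16745528) (l 16759072))) (a (b (l 67209486183) (l 2)) (a (l 16734936) (l 16724624)))) (b (a (c (l 16753464) (l 16752168)) (l 16743576)) (a (b (l 16720944) (l 16713720)) (l 16708168)))) (a (b (a (l 2) (c (l 16724288) (l 16722304))) (l 2)) (b (a (l 30165310967) (l 16693976)) (a (l 39292093991) (l 16680152))))) (a (b (b (a (l 16714160) (l 16706624)) (a (l 16699800) (l 16692320))) (b (a (l 16685696) (l 16678240)) (a (l 16671864) (l 16664448)))) (b (b (l 16697160) (l 16682904)) (b (l 16668824) (l 16675968))))) (a (a (l 2) (b (a (l 2) (b (l 16666728) (l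 2))) (l 2))) (a (b (b (a (l 16658448) (l 16650984)) (a (l 16645272) (l 16637784))) (b (a (l 2) (l 59693034071)) (l 2))) (b (b (a (l 16644496) (l 16638688)) (a (l 16631208) (l 16625336))) (b (a (l 16617840) (l 16611856)) (a (l 59156118263) (l 16598304)))))))), by decide +kernel⟩

def k27_pm_001_t : ∃ t, chk3 f_pm_001_t t 6 7 1 = true :=
  ⟨(b (a (l 2) (b (a (l 2) (b (a (l 2) (b (a (l 2) (l 61303556071)) (l 2))) (l 2))) (l 2))) (l 2)), by decide +kernel⟩

def k28_pm_001_t : ∃ t, chk3 f_pm_001_t t 7 12 1 = true :=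
  ⟨(a (b (b (a (a (b (a (b (a (l 4) (b (l 4) (l 100629754263))) (a (b (l 177402279271) (l 75396818743)) (l 33520884679))) (a (b (b (l 63585657511) (l 16774656)) (l 16771600)) (l 16780896))) (a (a (l 16779760) (l 16779128)) (l 16774320))) (b (a (l 16776160) (b (a (l 16784032) (l 16759944)) (l 16768088))) (c (l 16776480) (l 16774600)))) (a (b (a (l 16769000) (l 16746800)) (a (b (l 16768696) (l 16743896)) (l 16739656))) (b (l 16736976) (l 16730008)))) (a (a (b (l 16779424) (l 16770048)) (b (l 16767200) (l 16757928))) (a (b (a (l 16737704) (l 16753104)) (l 16725792)) (b (a (l 16726224) (l 16719992)) (a (l 16739040) (l 16712496)))))) (a (b (a (b (l 16759424) (c (l 16728152) (l 16746176))) (b (l 16726488) (c (l 16717088) (l 16712928)))) (a (b (l 16713960) (l 16700192)) (b (l 16702440) (l 16688864)))) (b (a (b (l 16715432) (l 16724928)) (b (a (l 16708048) (l 16703408)) (l 16694384))) (a (b (l 16691456) (l 16678032)) (b (l 16681888) (l 16668392)))))) (b (a (b (a (b (a (l 16748616)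 (l 16722480)) (a (l 16720640) (l 16714736))) (b (l 16716656) (l 16708312))) (a (b (l 16710760) (l 16703448)) (b (a (l 16702152) (l 16698024)) (l 16712936)))) (b (a (b (l 16711376) (l 16703264)) (c (l 16710944) (l 16700912))) (a (b (l 16694576) (l 16684768)) (l 16688840)))) (a (b (a (b (l 16695240) (a (l 16709264) (l 16683456))) (c (l 16683992) (l 16674848))) (a (b (a (l 16676232) (l 16672792)) (l 16661128)) (b (l 16665584) (l 16654648)))) (b (a (b (l 16695440) (c (l 16669536) (l 16659328))) (b (l 16673008) (l 16660520))) (a (l 16649880) (b (l 16648016) (l 16636320))))))), by decide +kernel⟩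

def k29_pm_001_t : ∃ t, chk3 f_pm_001_t t 7 13 1 = true :=
  ⟨(a (b (a (b (a (b (l 16685952) (l 16671752)) (b (l 16674856) (l 16660760))) (a (b (l 16657680) (l 16643784)) (b (l 16646712) (l 16632784)))) (b (a (b (l 16664080) (l 16650064)) (l 16647400)) (a (b (l 16636128) (l 16622176)) (l 16619376)))) (a (b (a (b (l 16630168) (l 16616712)) (b (l 16619072) (l 16605456))) (b (a (c (l 16607032) (l 16599088)) (c (l 16596104) (l 16587120))) (a (a (l 16592360) (l 16586480)) (c (l 16582504) (l 16572864))))) (b (a (b (l 16608368) (l 16594584)) (b (l 16598560) (l 16584592))) (a (b (l 16580568) (l 16566376)) (b (l 16570304) (l 16555776)))))) (b (a (b (a (l 16639920) (b (l 16642144) (l 16628344))) (a (l 16611704) (l 16606808))) (b (a (b (l 16635128) (l 16624384)) (l 16621368)) (a (b (l 16612160) (l 16598184)) (b (l 16607920) (l 6))))) (a (b (a (b (l 16590592) (l 16576400)) (l 16578096)) (a (b (l 16561832) (l 16546904)) (l 6))) (b (a (l 16576128) (l 6)) (l 6))))), by decide +kernel⟩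

def k30_pm_001_t : ∃ t, chk3 f_pm_001_t t 7 7 1 = true :=
  ⟨(b (a (b (a (b (a (b (a (l 50566123175) (l 16572728)) (a (l 88683928663) (c (l 16564544) (l 16553472)))) (b (a (l 16566792) (l 16560896)) (a (c (l 16558632) (l 16547320)) (l 16547056)))) (a (b (a (l 2) (l 93515724087)) (l 2)) (b (a (b (l 16542952) (l 68819643175)) (b (l 16536872) (c (l 16536736) (l 16523760)))) (a (a (l 2) (l 6)) (l 6))))) (b (a (b (a (l 16555080) (l 16549352)) (a (l 16541088) (l 16535184))) (b (l 16541184) (l 6))) (l 6))) (a (a (l 2) (l 6)) (l 6))) (l 6)) (l 6)), by decide +kernel⟩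

theorem s31_pm_001_t : ∃ t, chk3 f_pm_001_t t 7 6 1 = true := ex3_b k28_pm_001_t k29_pm_001_t

theorem s32_pm_001_t : ∃ t, chk3 f_pm_001_t t 7 3 1 = true := ex3_b s31_pm_001_t k30_pm_001_t

theorem s33_pm_001_t : ∃ t, chk3 f_pm_001_t t 13 12 1 = true := ex3_b k24_pm_001_t k25_pm_001_t

theorem s34_pm_001_t : ∃ t, chk3 f_pm_001_t t 6 12 1 = true := ex3_a k23_pm_001_t s33_pm_001_t

theorem s35_pm_001_t : ∃ t, chk3 f_pm_001_t t 6 6 1 = true := ex3_b s34_pm_001_t k26_pm_001_t

theorem s36_pm_001_t : ∃ t, chk3 f_pm_001_t t 6 3 1 = true := ex3_b s35_pm_001_t k27_pm_001_t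

theorem s37_pm_001_t : ∃ t, chk3 f_pm_001_t t 3 3 1 = true := ex3_a s36_pm_001_t s32_pm_001_t

theorem s38_pm_001_t : ∃ t, chk3 f_pm_001_t t 30 45 1 = true := ex3_b k19_pm_001_t k20_pm_001_t

theorem s39_pm_001_t : ∃ t, chk3 f_pm_001_t t 60 89 1 = true := ex3_a k16_pm_001_t k17_pm_001_t

theorem s40_pm_001_t : ∃ t, chk3 f_pm_001_t t 60 44 1 = true := ex3_b k15_pm_001_t s39_pm_001_t

theorem s41_pm_001_t : ∃ t, chk3 f_pm_001_t t 30 44 1 = true := ex3_a s40_pm_001_t k18_pm_001_t

theorem s42_pm_001_t : ∃ t, chk3 f_pm_001_t t 30 22 1 = true := ex3_b s41_pm_001_t s38_pm_001_t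

theorem s43_pm_001_t : ∃ t, chk3 f_pm_001_t t 15 22 1 = true := ex3_a s42_pm_001_t k21_pm_001_t

theorem s44_pm_001_t : ∃ t, chk3 f_pm_001_t t 15 11 1 = true := ex3_b s43_pm_001_t k22_pm_001_t

theorem s45_pm_001_t : ∃ t, chk3 f_pm_001_t t 14 23 1 = true := ex3_a k13_pm_001_t k14_pm_001_t

theorem s46_pm_001_t : ∃ t, chk3 f_pm_001_t t 59 45 1 = true := ex3_b k11_pm_001_t k12_pm_001_t

theorem s47_pm_001_t : ∃ t, chk3 f_pm_001_t t 29 45 1 = true := ex3_a k10_pm_001_t s46_pm_001_t

theorem s48_pm_001_t : ∃ t, chk3 f_pm_001_t t 29 22 1 = true := ex3_b k9_pm_001_t s47_pm_001_t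

theorem s49_pm_001_t : ∃ t, chk3 f_pm_001_t t 14 22 1 = true := ex3_a k8_pm_001_t s48_pm_001_t

theorem s50_pm_001_t : ∃ t, chk3 f_pm_001_t t 14 11 1 = true := ex3_b s49_pm_001_t s45_pm_001_t

theorem s51_pm_001_t : ∃ t, chk3 f_pm_001_t t 7 11 1 = true := ex3_a s50_pm_001_t s44_pm_001_t

theorem s52_pm_001_t : ∃ t, chk3 f_pm_001_t t 31 21 1 = true := ex3_b k6_pm_001_t k7_pm_001_t

theorem s53_pm_001_t : ∃ t, chk3 f_pm_001_t t 15 21 1 = true := ex3_a k5_pm_001_t s52_pm_001_t

theorem s54_pm_001_t : ∃ t, chk3 f_pm_001_t t 15 10 1 = true := ex3_b k4_pm_001_t s53_pm_001_t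

theorem s55_pm_001_t : ∃ t, chk3 f_pm_001_t t 7 10 1 = true := ex3_a k3_pm_001_t s54_pm_001_t

theorem s56_pm_001_t : ∃ t, chk3 f_pm_001_t t 7 5 1 = true := ex3_b s55_pm_001_t s51_pm_001_t

theorem s57_pm_001_t : ∃ t, chk3 f_pm_001_t t 7 2 1 = true := ex3_b k2_pm_001_t s56_pm_001_t

theorem s58_pm_001_t : ∃ t, chk3 f_pm_001_t t 3 2 1 = true := ex3_a k1_pm_001_t s57_pm_001_t

theorem s59_pm_001_t : ∃ t, chk3 f_pm_001_t t 3 1 1 = true := ex3_b s58_pm_001_t s37_pm_001_t

theorem s60_pm_001_t : ∃ t, chk3 f_pm_001_t t 1 1 1 = true := ex3_a k0_pm_001_t s59_pm_001_t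

theorem c_pm_001_t : CertNE 0 536870912 536870912 536870912 697932185 42949674 3 eng mog cd0q0 cd0q1 pd0 false true false .up 0 0 1
    ndB0q0 ndB0q1 pcB0 cut_pm_001_t Ext.none :=
  certNE0 (fam := false) (s1 := true) (s2 := false) (a := 0) (b := 0) (c := 1) (cn := .up) (n1 := ndB0q0) (n2 := ndB0q1) (pc := pcB0) (cut := cut_pm_001_t) (xt := Ext.none) (P1 := 0) (W1 := 536870912) (P2 := 536870912) (W2 := 536870912) (P3 := 697932185) (W3 := 42949674) (N0 := 3) (En := eng) (mo := mog) (C1 := cd0q0) (C2 := cd0q1) (C3 := pd0)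
    rfl s60_pm_001_t

noncomputable def cut_pm_011_s : Cut := Cut.of [[⟨4, 0, 0, 1449551462⟩], [⟨0, 0, 0, 53687091⟩, ⟨1, 1, 0, 53687091⟩, ⟨2, 1, 0, 53687091⟩]]

noncomputable def f_pm_011_s : ℕ → ℕ → ℕ → ℕ → Bool := onCell 0 536870912 536870912 536870912 697932185 42949674
    (rowNE 3 eng mog cd0q0 cd0q1 pd1 0 false true false .pnn 0 1 1 (qsf 0 536870912 536870912 536870912 1) ndB0q0 ndB0q1 pcB1 cut_pm_011_s Ext.none)

def k0_pm_011_s : ∃ t, chk3 f_pm_011_s t 1 1 1 = true :=
  ⟨(l 6), by decide +kernel⟩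

theorem c_pm_011_s : CertNE 0 536870912 536870912 536870912 697932185 42949674 3 eng mog cd0q0 cd0q1 pd1 false true false .pnn 0 1 1
    ndB0q0 ndB0q1 pcB1 cut_pm_011_s Ext.none :=
  certNE0 (fam := false) (s1 := true) (s2 := false) (a := 0) (b := 1) (c := 1) (cn := .pnn) (n1 := ndB0q0) (n2 := ndB0q1) (pc := pcB1) (cut := cut_pm_011_s) (xt := Ext.none) (P1 := 0) (W1 := 536870912) (P2 := 536870912) (W2 := 536870912) (P3 := 697932185) (W3 := 42949674) (N0 := 3) (En := eng) (mo := mog) (C1 := cd0q0) (C2 := cd0q1) (C3 := pd1)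
    rfl k0_pm_011_s

end Pool.Agent.Strip051.G.I6500_6900.Tab.CS.BB00

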