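import Pool.Agent.Strip051.G.I6500_6900.Tab
import Pool.Agent.Strip051.PB.StripB

/-! # Strips, near vertex: certificates 5 (generated) -/

set_option linter.all false
set_option maxRecDepth 100000

namespace Pool.Agent.Strip051.G.I6500_6900.Tab.CS.BB00

open Pool.Agent.Strip051.PB Pool.Agent.Strip051.PB.T
open Pool.Agent.Strip051.G.I6500_6900.Tab

noncomputable def cut_pm_011_t : Cut := Cut.of [[⟨3, 0, 0, 2845415833⟩], [⟨0, 0, 0, 53687091⟩, ⟨1, 1, 0, 53687091⟩, ⟨2, 1, 0, 53687091⟩]]

noncomputable def f_pm_011_t : ℕ → ℕ → ℕ → ℕ → Bool := onCell 0 536870912 536870912 536870912 697932185 42949674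
    (rowNE 3 eng mog cd0q0 cd0q1 pd1 0 false true false .pnn 0 1 1 (qsf 0 536870912 536870912 536870912 1) ndB0q0 ndB0q1 pcB1 cut_pm_011_t Ext.none)

def k0_pm_011_t : ∃ t, chk3 f_pm_011_t t 1 2 1 = true :=
  ⟨(a (l 4) (a (b (l 1) (l 4)) (l 1))), by decide +kernel⟩

def k1_pm_011_t : ∃ t, chk3 f_pm_011_t t 4 6 1 = true :=
  ⟨(l 4), by decide +kernel⟩

def k2_pm_011_t : ∃ t, chk3 f_pm_011_t t 5 12 1 = true :=
  ⟨(l 4), by decide +kernel⟩

def k3_pm_011_t : ∃ t, chk3 f_pm_011_t t 10 13 1 = true :=
  ⟨(l 4), by decide +kernel⟩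

def k4_pm_011_t : ∃ t, chk3 f_pm_011_t t 11 26 1 = true :=
  ⟨(l 4), by decide +kernel⟩

def k5_pm_011_t : ∃ t, chk3 f_pm_011_t t 22 27 1 = true :=
  ⟨(b (l 4) (a (l 4) (b (l 4) (a (l 4) (b (l 4) (a (l 4) (a (b (l 4) (b (a (l 4) (b (l 4) (c (l 133378870631) (l 188676572183)))) (c (b (a (l 153243094599) (l 16778256)) (c (l 16779224) (l 16776600))) (a (a (l 192971539767) (b (l 224646923303) (l 16776936))) (a (b (l 67880617879) (l 16776240)) (l 16776064)))))) (b (a (l 4) (b (l 4) (b (c (l 152706223687) (l 229478761831)) (a (c (l 118346483911) (l 172033573415)) (c (l 16776952) (l 16776944)))))) (c (b (c (c (l 16779064) (l 16776440)) (l 16779048)) (l 16774360)) (b (a (b (a (l 226257535991) (a (l 100629743367) (l 16777120))) (l 16777248)) (l 16775720)) (l 16774312))))))))))), by decide +kernel⟩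

def k6_pm_011_t : ∃ t, chk3 f_pm_011_t t 23 54 1 = true :=
  ⟨(a (l 4) (b (a (l 4) (b (l 4) (a (l 4) (b (l 4) (a (l 4) (l 223036310439)))))) (a (b (l 4) (a (b (l 4) (a (l 4) (c (l 229478763751) (l 249879856519)))) (b (b (l 4) (a (l 4) (b (l 197803377431) (a (l 224110051959) (l 16776856))))) (a (a (c (l 163980510407) (b (l 4) (b (l 190824055095) (l 16778264)))) (c (b (l 116735873527) (l 16776104)) (b (l 175254798023) (l 16776080)))) (c (l 16775072) (a (b (b (l 53921974663) (l 16776216)) (l 16774712)) (l 16774352))))))) (b (a (b (l 4) (a (l 234310598919) (b (c (l 176865412055) (a (l 4) (l 155390574727))) (a (b (l 103850970247) (l 16776736)) (l 16775880))))) (b (a (c (l 165054250759) (b (l 4) (a (l 209614536903) (l 26541559063)))) (a (c (l 16779360) (b (l 85060489287) (l 16775744))) (l 16775392))) (a (b (l 16777456) (l 16773864)) (l 16772160)))) (a (a (b (b (c (l 61438170103) (a (l 166127993063) (l 16777920))) (l 16775312)) (c (l 16772376) (l 16772304))) (b (l 16773600) (l 16769648))) (c (l 16772928)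 (b (l 16772144) (l 16765544)))))))), by decide +kernel⟩

def k7_pm_011_t : ∃ t, chk3 f_pm_011_t t 46 110 1 = true :=
  ⟨(a (l 4) (b (a (l 4) (b (l 4) (a (l 4) (c (b (l 195655895063) (a (c (l 85060489143) (l 85060489127)) (l 16776264))) (a (b (l 4) (b (l 210151408183) (a (a (l 125325805431) (l 66806875591)) (l 16776776)))) (b (c (l 188676571911) (b (l 4) (l 168812347639))) (a (b (l 14193526311) (l 16776080)) (l 16775904)))))))) (a (b (b (l 4) (a (l 4) (a (l 4) (b (c (l 147874385447) (l 223573181127)) (c (l 54995716487) (a (b (l 240216179111) (l 63585649975)) (l 16777488))))))) (b (a (a (l 4) (a (l 4) (b (l 4) (c (l 106535323687) (a (l 205319569831) (b (l 240753049943) (l 16777128))))))) (a (b (c (l 87744842647) (a (l 211225149959) (b (l 97945388599) (l 16776936)))) (c (l 16776528) (a (b (l 16777776) (l 16776608)) (l 16776168)))) (c (l 16775664) (l 16775640)))) (c (a (b (a (l 145190030935) (l 16778192)) (c (l 16777864) (l 16776544))) (l 16774320)) (a (a (b (l 227331277687) (a (a (l 213372633559)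 (b (l 4) (l 16777144))) (a (b (l 78618035255) (l 16776800)) (l 16776712)))) (a (b (b (a (l 4) (l 75933680679)) (l 16776968)) (l 16776192)) (l 16776016))) (a (l 16775136) (l 16773584)))))) (a (b (a (b (a (l 4) (b (l 4) (c (l 16777384) (a (l 195119022407) (l 72712455671))))) (c (l 16776328) (a (b (b (l 92039808535) (l 16776912)) (l 16776144)) (l 16775960)))) (c (c (l 16778432) (l 16775968)) (b (b (a (l 202635215255) (a (l 69491230183) (l 16776960))) (l 16776464)) (l 16774928)))) (c (l 16773920) (b (l 16774224) (l 16772168)))) (b (c (l 16773928) (c (l 16773888) (b (l 16774888) (l 16772840)))) (c (l 16769888) (a (l 16771120) (l 16769088)))))))), by decide +kernel⟩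

def k8_pm_011_t : ∃ t, chk3 f_pm_011_t t 92 222 1 = true :=
  ⟨(a (b (l 4) (a (l 4) (b (a (l 4) (a (l 4) (b (l 4) (b (l 4) (c (l 16777296) (l 88281712055)))))) (b (a (c (l 151632481847) (l 232699987143)) (c (l 16778256) (b (a (l 122641450631) (l 16776848)) (l 16776680)))) (c (c (l 16777920) (l 16776600)) (a (a (l 172570444263) (c (l 16776944) (l 16777592))) (l 16775896))))))) (b (b (a (l 4) (b (a (l 4) (a (c (l 146263771639) (l 223036310151)) (c (l 16777832) (b (a (l 4) (l 87207969863)) (l 16776984))))) (a (a (l 4) (c (l 111904032887) (a (l 218741342727) (b (l 4) (l 16777168))))) (c (l 16776568) (a (a (b (l 89892324439) (l 16776824)) (l 16776728)) (l 16776208)))))) (c (a (c (c (l 168812349175) (l 169349220071)) (l 171496703703)) (c (l 16775728) (l 16775720))) (a (a (l 4) (b (l 233773728791) (c (l 63048780327) (b (a (l 4) (l 24930944119)) (a (l 85060486567) (l 16776664)))))) (a (a (b (b (a (l 4) (l 92576678999)) (l 16777000)) (l 16776224)) (l 16776048)) (l 16775000))))) (b (a (a (c (c (l 50700748807)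 (l 16777088)) (b (b (l 201561473703) (a (l 217667600903) (l 16777016))) (a (a (l 12046042343) (l 16776760)) (l 16776240)))) (c (l 16775736) (l 16775712))) (c (l 16773680) (l 16774280))) (c (c (l 16773016) (l 16772984)) (a (c (l 16774336) (l 16774392)) (l 16771536)))))), by decide +kernel⟩

def k9_pm_011_t : ∃ t, chk3 f_pm_011_t t 92 223 1 = true :=
  ⟨(a (b (b (a (a (a (l 4) (b (l 4) (c (l 118346483895) (l 172570444295)))) (c (c (l 51774490663) (l 16777104)) (b (a (l 229478761351) (a (l 100092872439) (l 16777768))) (c (l 16776600) (l 16777416))))) (c (l 16775056) (a (l 16775720) (l 16774328)))) (c (c (a (l 16775752) (l 16773016)) (l 16774360)) (a (b (b (a (a (l 126399546999) (l 16776864)) (l 16775816)) (l 16776312)) (l 16775200)) (l 16772928)))) (c (c (l 16771624) (l 16771248)) (a (a (l 16773272) (l 16771872)) (l 16771088)))) (c (c (c (l 16769880) (l 16767872)) (l 16769128)) (b (c (l 16771136) (a (l 16772152) (l 16768376))) (a (a (l 16768352) (l 16767616)) (l 16765536))))), by decide +kernel⟩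

def k10_pm_011_t : ∃ t, chk3 f_pm_011_t t 93 111 1 = true :=
  ⟨(b (c (a (c (b (a (l 16774016) (l 16771296)) (l 16768592)) (b (l 16772616) (l 16768520))) (c (c (l 16767856) (l 16765184)) (l 16767736))) (a (b (a (b (a (a (l 16776032) (l 16775336)) (l 16774296)) (l 16773576)) (a (l 16772856) (l 16771800))) (c (l 16771072) (a (l 16771088) (l 16767000)))) (b (a (l 16769728) (c (l 16770952) (l 16766928))) (a (l 16765592) (l 16762840))))) (c (a (c (a (l 16763824) (l 16761120)) (l 16762352)) (c (l 16759704) (l 16756920))) (a (c (l 16764200) (b (l 16765520) (l 16761328))) (b (l 16760064) (l 16755904))))), by decide +kernel⟩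

def k11_pm_011_t : ∃ t, chk3 f_pm_011_t t 47 55 1 = true :=
  ⟨(b (a (b (a (b (b (a (l 4) (c (c (l 71101846807) (l 70028103655)) (a (a (l 249342984823) (l 168275476791)) (a (b (l 112977774887) (l 16776656)) (l 16776472))))) (a (a (l 4) (c (l 81302392599) (b (l 201561473447) (a (l 78081165175) (l 16776696))))) (a (c (l 16776192) (l 16776824)) (l 16774816)))) (c (a (c (l 16777856) (l 16775216)) (l 16772520)) (a (a (b (b (a (l 190824055095) (l 16777056)) (l 16776392)) (l 16774864)) (l 16774424)) (l 16773264)))) (c (b (l 16772456) (l 16768480)) (a (b (c (l 16773760) (l 16773736)) (l 16769704)) (b (l 16771016) (l 16766976))))) (a (b (c (l 16771168) (c (l 16769776) (a (l 16771752) (l 16768344)))) (c (l 16767144) (a (l 16768344) (l 16765600)))) (c (a (l 16765456) (l 16763760)) (b (l 16765920) (a (l 16762872) (l 16758848)))))) (a (c (b (l 16767736) (l 16759776)) (b (b (l 16769560) (l 16762912)) (b (l 16760176) (l 16756112)))) (b (b (l 16762984) (l 16759000)) (c (l 16753200) (l 16752784))))) (a (a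 (b (c (c (l 16762464) (l 16759704)) (b (a (l 16764232) (l 16760184)) (l 16758744))) (c (l 16752944) (l 16753840))) (b (b (c (l 16759064) (l 16757424)) (c (l 16752408) (l 16752000))) (c (l 16748936) (l 16747112)))) (c (a (b (l 16750768) (l 16741048)) (b (l 16743888) (l 16735832))) (a (b (a (l 16752632) (l 16747328)) (l 16740432)) (b (l 16745944) (l 16735112)))))), by decide +kernel⟩

def k12_pm_011_t : ∃ t, chk3 f_pm_011_t t 4 14 1 = true :=
  ⟨(a (l 4) (b (l 4) (a (l 4) (b (l 4) (a (l 4) (b (l 4) (a (b (l 4) (a (l 4) (b (l 4) (b (a (l 4) (l 179012897127)) (a (l 195655895959) (b (l 52848234471) (l 16776224))))))) (a (b (l 4) (b (b (a (l 4) (a (l 200487733447) (l 61438169175))) (a (c (l 159148672791) (l 157001189095)) (l 16778600))) (b (a (c (l 16778984) (l 16778960)) (l 16771200)) (l 16772936)))) (b (b (a (l 4) (l 202098348743)) (b (a (l 4) (c (l 50700752263) (l 46942655831))) (a (a (l 123178324487) (l 16779680)) (l 16775192)))) (b (c (l 16775888) (l 16774472)) (a (c (l 16775488) (l 16766144))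 (l 16767584)))))))))))), by decide +kernel⟩

def k13_pm_011_t : ∃ t, chk3 f_pm_011_t t 8 30 1 = true :=
  ⟨(a (l 4) (b (l 4) (a (l 4) (b (l 4) (a (l 4) (b (l 4) (b (l 4) (a (l 4) (a (a (l 4) (b (l 4) (b (l 4) (a (l 114051516615) (l 16778240))))) (a (b (l 4) (b (a (l 99556001991) (l 16778312)) (l 16776152))) (b (b (l 202098345591) (a (l 81839262039) (l 16776904))) (l 16775424)))))))))))), by decide +kernel⟩

def k14_pm_011_t : ∃ t, chk3 f_pm_011_t t 16 31 1 = true :=
  ⟨(b (b (l 4) (b (l 4) (b (l 4) (l 14)))) (l 14)), by decide +kernel⟩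

def k15_pm_011_t : ∃ t, chk3 f_pm_011_t t 34 124 1 = true :=
  ⟨(a (l 4) (b (l 4) (a (l 4) (a (l 4) (b (l 4) (b (l 4) (a (b (l 4) (a (l 189213443143) (b (l 134989481399) (l 16777704)))) (b (b (a (l 4) (l 109219677735)) (a (l 123178321431) (l 16777632))) (c (c (l 16777536) (l 16777688)) (l 16777496)))))))))), by decide +kernel⟩

def k16_pm_011_t : ∃ t, chk3 f_pm_011_t t 68 250 1 = true :=
  ⟨(a (l 4) (a (l 4) (b (l 4) (b (l 4) (a (a (l 4) (b (l 4) (b (l 4) (l 176865411719)))) (a (b (l 4) (b (c (l 166127993431) (l 169886089799)) (a (l 36742104103) (l 16776872)))) (a (b (l 4) (b (l 16777720) (l 16775880))) (b (c (l 166664864487) (l 170422960855)) (l 16776512))))))))), by decide +kernel⟩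

def k17_pm_011_t : ∃ t, chk3 f_pm_011_t t 68 502 1 = true :=
  ⟨(b (a (l 4) (b (b (a (l 4) (a (a (l 181697249975) (a (a (l 69491229607) (l 16777800)) (l 16776912))) (c (l 16776080) (l 16776040)))) (a (a (l 4) (a (l 4) (l 187065959143))) (a (a (a (c (l 49627006103) (l 50700747911)) (l 16776944)) (l 16776440)) (c (l 16776752) (l 16776696))))) (a (a (a (l 4) (c (l 194582152423) (l 199413990599))) (a (b (l 191897797399) (a (c (l 67343746151) (l 68954358871)) (l 16777664))) (b (a (c (l 58753811575) (l 59290682487)) (l 16777632)) (l 16776512)))) (a (c (a (l 16776168) (l 16776800)) (l 16775784)) (a (l 16776088) (l 16774096)))))) (b (a (l 4) (a (a (a (b (l 4) (a (c (l 83449873527) (l 89355453479)) (l 16777640))) (b (a (c (l 74323068055) (l 78618035271)) (l 16777696)) (l 16776576))) (c (a (l 16776232) (l 16776872)) (l 16775856))) (a (a (l 16775504) (l 16774160)) (l 16773792)))) (a (a (l 4) (a (l 4) (a (b (l 4) (a (a (l 104924710327) (l 86671098903)) (c (l 25467814871) (l 16777776)))) (b (a (a (l 97945388423)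 (l 78618035175)) (c (l 16777592) (l 16777752))) (l 16776648))))) (a (a (a (b (l 16776616) (l 16776616)) (a (l 16776432) (l 16776088))) (a (l 16775576) (l 16774232))) (a (l 16773864) (l 16771840)))))), by decide +kernel⟩

def k18_pm_011_t : ∃ t, chk3 f_pm_011_t t 68 503 1 = true :=
  ⟨(a (b (a (b (l 4) (a (l 4) (a (l 14) (b (a (l 172033573351) (b (l 109219676903) (l 16777088))) (c (l 16777432) (l 16777416)))))) (b (a (a (b (l 4) (a (l 166664864183) (b (l 73249326087) (l 16777056)))) (b (a (c (l 109219677303) (l 111904031847)) (b (l 82376131335) (l 16777024))) (l 16777200))) (b (a (l 16777336) (l 16776648)) (a (l 16776680) (l 16775344)))) (b (a (a (b (l 16777560) (l 16776584)) (l 16776720)) (a (l 16775376) (l 16774688))) (a (a (l 16776752) (l 16775408)) (l 16775032))))) (a (l 14) (a (b (a (a (l 16775936) (l 16774944)) (l 16775080)) (c (l 16774176) (l 16773400))) (a (b (l 16773744) (l 16772432)) (b (l 16773056) (l 16771752)))))) (a (b (b (a (a (l 16775640) (l 16774296)) (a (l 16773616) (l 16772928)))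 (a (c (l 16773400) (l 16773280)) (l 16772624))) (a (b (l 16772688) (l 16772040)) (b (l 16770664) (l 16769360)))) (b (a (b (l 16773216) (l 16770600)) (a (l 16770888) (l 16770856))) (c (a (l 16770096) (l 16767440)) (l 16770448))))), by decide +kernel⟩

def k19_pm_011_t : ∃ t, chk3 f_pm_011_t t 138 125 1 = true :=
  ⟨(a (b (b (l 4) (b (a (a (l 4) (a (l 4) (b (l 4) (b (l 4) (l 77544293543))))) (a (b (l 4) (b (a (l 4) (l 70564971623)) (l 16777536))) (a (b (l 195119023063) (l 16777352)) (b (b (l 4) (l 58216940743)) (l 16776368))))) (b (b (a (a (c (l 155927445991) (l 108682806711)) (l 16777736)) (l 16775912)) (a (b (a (l 16777760) (l 16776448)) (l 16776472)) (l 16776576))) (a (a (l 16775944) (l 16776632)) (a (l 16774632) (l 16773952)))))) (b (b (b (a (a (l 16776016) (l 16774024)) (l 16773000)) (a (l 16774376) (l 16771704))) (a (b (l 16771768) (l 16770472)) (a (l 16771408) (l 16769416)))) (c (a (b (l 16768664) (l 16766104)) (b (l 16767320) (l 16764760))) (b (l 16770320) (l 16765056))))) (b (b (b (l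 4) (b (b (l 4) (a (l 4) (a (l 4) (c (l 53921973767) (l 55532586487))))) (b (a (l 4) (a (a (l 115662128263) (l 16777824)) (l 16776696))) (a (a (l 4) (a (l 94187292327) (l 16777848))) (l 16777048))))) (b (a (a (b (b (a (l 105461581527) (l 50700747911)) (l 16777464)) (b (c (l 16776192) (l 16776160)) (l 16775528))) (b (l 16777104) (l 16776480))) (b (b (a (l 16776096) (l 16775408)) (l 16776416)) (l 16775456))) (a (b (l 16774872) (l 16772928)) (c (l 16772944) (l 16774752))))) (b (c (a (b (l 16772392) (l 16768536)) (b (l 16769744) (l 16767200))) (b (l 16771512) (l 16767568))) (c (b (l 16766624) (l 16765384)) (b (l 16764936) (l 16762304)))))), by decide +kernel⟩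

def k20_pm_011_t : ∃ t, chk3 f_pm_011_t t 139 125 1 = true :=
  ⟨(b (b (b (a (a (a (l 4) (b (l 4) (b (l 4) (c (l 43721426295) (l 44258297207))))) (a (b (l 197803377847) (b (c (l 37278975319) (l 16777968)) (l 16776576))) (b (b (l 189750313719) (l 28689040823)) (l 16776208)))) (a (a (b (c (l 16777936) (l 16777760)) (c (l 16776864) (l 16775504))) (b (l 16776128) (l 16774848))) (b (a (l 16776752) (l 16774760)) (l 16775136)))) (a (a (b (b (a (c (l 48553264583) (l 49627006391)) (l 16776616)) (l 16776312)) (a (b (l 16776016) (l 16775368)) (l 16775008))) (b (b (l 16776904) (l 16776264)) (l 16775296))) (a (b (l 16775216) (l 16772624)) (a (l 16772248) (l 16771568))))) (a (a (b (b (l 16775376) (l 16772776)) (a (l 16771184) (l 16770504))) (b (a (l 16773712) (l 16771720)) (l 16770800))) (a (b (l 16772008) (l 16768128)) (b (l 16770656) (l 16766776))))) (a (b (c (b (l 16769128) (l 16767816)) (b (l 16767440) (l 16764816))) (c (b (l 16762648) (l 16760104)) (l 16763496))) (b (c (b (l 16765072) (l 16762536))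 (l 16766000)) (b (l 16762344) (l 16759760))))), by decide +kernel⟩

def k21_pm_011_t : ∃ t, chk3 f_pm_011_t t 70 124 1 = true :=
  ⟨(b (a (l 4) (b (l 4) (b (b (l 4) (a (l 4) (a (l 4) (a (l 4) (l 159148671703))))) (a (b (l 4) (a (l 4) (a (l 4) (l 183844733943)))) (b (b (a (l 4) (a (l 92576679495) (l 16776856))) (a (l 174181057415) (l 16776568))) (a (a (a (l 74859939719) (l 16778088)) (l 16777952)) (l 16775640))))))) (b (b (a (l 4) (a (a (b (l 195119023655) (a (b (l 165054252391) (l 16777808)) (l 16777968))) (b (a (a (l 90429196151) (l 41037072199)) (l 16778040)) (l 16775832))) (a (b (l 16775736) (l 16775784)) (a (l 16775400) (l 16774728))))) (a (a (l 4) (a (b (l 4) (a (c (l 148948124247) (l 152706220615)) (b (l 58753811991) (l 16776720)))) (b (b (a (l 4) (l 16777832)) (a (l 52848231879) (l 16776632))) (l 16776024)))) (a (a (b (l 16775928) (l 16775976)) (a (l 16775592) (l 16774912))) (a (l 16773896) (l 16771240))))) (b (a (a (a (b (l 4) (a (c (l 165591122791) (l 169886090055)) (b (l 90966066759)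 (l 16776896)))) (b (a (c (l 157001188071) (l 161296155335)) (b (l 74859939383) (l 16776808))) (c (l 16777528) (l 16776184)))) (b (a (l 16776768) (l 16776064)) (a (l 16776152) (l 16773488)))) (a (a (a (l 16774416) (l 16772424)) (l 16772720)) (c (l 16772136) (l 16769272)))) (b (a (a (c (a (l 16777280) (l 16776280)) (a (l 16777576) (l 16776208))) (c (l 16774272) (l 16775448))) (a (l 16772808) (l 16767496))) (a (a (a (a (l 16776672) (l 16774680)) (l 16773656)) (l 16772608)) (a (l 16768920) (l 16766232))))))), by decide +kernel⟩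

def k22_pm_011_t : ∃ t, chk3 f_pm_011_t t 71 124 1 = true :=
  ⟨(a (a (b (b (a (l 4) (b (l 4) (b (l 4) (a (l 4) (a (l 119957096231) (l 67343746839)))))) (b (a (a (b (l 4) (a (l 48553264871) (l 16776928))) (b (a (l 140895061703) (l 79691777975)) (l 16776448))) (a (b (l 16778128) (l 16774464)) (l 16775728))) (c (a (l 16774944) (l 16776240)) (l 16774192)))) (b (a (b (l 16773720) (l 16769896)) (b (l 16771064) (l 16768552))) (b (l 16768024) (l 16766816)))) (b (b (b (a (l 4) (a (l 195119023959) (b (l 4) (l 56606328967)))) (b (a (a (l 200487732423) (a (l 102777227063) (l 16778192))) (l 16777768)) (b (a (l 16778168) (l 16775544)) (l 16775600)))) (c (b (c (c (l 16774128) (l 16774104)) (l 16774064)) (l 16772944)) (b (l 16773992) (l 16774088)))) (b (b (c (l 16769176) (l 16768928)) (l 16769168)) (b (l 16764048) (l 16761536))))) (b (b (b (a (a (b (a (l 179549766551) (l 43184556151)) (l 16777672)) (a (l 16777288) (l 16775304))) (b (a (l 16777544) (l 16773576)) (l 16775640))) (b (a (a (a (l 16775464) (l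 16774792)) (l 16773784)) (l 16774400)) (a (l 16774528) (l 16770544)))) (b (a (c (l 16774064) (l 16773896)) (l 16771312)) (a (l 16770184) (l 16766216)))) (b (a (b (l 16769008) (l 16763896)) (c (l 16765336) (l 16762280))) (c (a (l 16763024) (l 16757816)) (l 16761184))))), by decide +kernel⟩

def k23_pm_011_t : ∃ t, chk3 f_pm_011_t t 35 125 1 = true :=
  ⟨(b (a (a (b (a (a (b (a (l 16774752) (l 16774072)) (l 16771856)) (b (l 16772400) (l 16769192))) (c (b (l 16771144) (l 16767320)) (a (l 16771616) (l 16770240)))) (b (c (a (l 16768776) (l 16764808)) (a (l 16767160) (l 16764424))) (a (a (l 16765424) (l 16764080)) (l 16764680)))) (b (b (c (a (l 16767176) (l 16764536)) (l 16767464)) (a (l 16765792) (l 16764424))) (a (b (l 16764560) (l 16759384)) (b (l 16759272) (l 16756728))))) (a (b (a (b (l 16761672) (l 16759152)) (a (l 16761048) (l 16759728))) (c (a (l 16758304) (l 16753096)) (l 16758928))) (b (c (a (l 16755472) (l 16752904)) (l 16753480)) (c (c (l 16752080) (l 16749024)) (l 16748384))))) (a (a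 (b (a (b (l 16764152) (l 16762232)) (b (l 16762120) (l 16756936))) (a (b (l 16757040) (l 16754456)) (b (l 16754368) (l 16751792)))) (b (c (a (l 16758512) (l 16753280)) (l 16759120)) (c (a (l 16750840) (l 16748248)) (l 16748680)))) (a (b (c (c (l 16752232) (l 16749176)) (l 16748536)) (c (c (l 16744640) (l 16744120)) (l 16743360))) (b (c (c (l 16744536) (l 16744024)) (l 16743264)) (c (c (l 16744792) (l 16738960)) (l 16738080)))))), by decide +kernel⟩

def k24_pm_011_t : ∃ t, chk3 f_pm_011_t t 34 126 1 = true :=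
  ⟨(a (a (a (l 14) (a (l 14) (b (b (b (b (l 16771440) (l 16770792)) (l 14)) (l 14)) (l 14)))) (a (b (b (c (a (b (c (l 16768960) (l 16768832)) (l 16767632)) (b (l 16768864) (l 16764984))) (b (l 16769256) (l 16765288))) (a (l 14) (b (a (l 16762512) (l 16761832)) (l 14)))) (l 14)) (b (b (c (b (c (l 16766944) (l 16765448)) (c (l 16763088) (l 16762856))) (b (l 16765176) (l 16762520))) (a (b (l 16762120) (l 16760808)) (b (l 16762072) (l 16756832)))) (a (l 14) (b (b (l 16754208) (l 14)) (l 14)))))) (b (a (a (b (c (b (l 16764176) (l 16762920)) (b (l 16762416) (l 16759768))) (c (b (l 16757728) (l 16755152)) (l 16761024))) (b (c (b (l 16760200) (l 16757640)) (l 16760960)) (c (c (l 16756592) (l 16753600)) (l 16753048)))) (b (a (b (l 16759856) (l 16757256)) (b (l 16754544) (l 16751952))) (a (b (l 16752032) (l 16749424)) (b (l 16749352) (l 16746728))))) (b (b (a (c (a (l 16752576) (l 16749904)) (l 16754312)) (b (c (a (l 16747912) (l 16750560)) (l 16753472)) (a (c (l 16751896) (l 16745688)) (l 16743536))))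 (a (b (a (l 16750200) (a (l 16753424) (l 16752136))) (a (c (c (l 16754824) (l 16754376)) (l 16748472)) (l 16746256))) (l 16748184))) (a (c (c (l 16750384) (l 16749880)) (l 16749128)) (c (l 16739712) (l 16738560)))))), by decide +kernel⟩

def k25_pm_011_t : ∃ t, chk3 f_pm_011_t t 35 126 1 = true :=
  ⟨(a (a (b (b (c (a (l 16753616) (l 16748376)) (l 16754056)) (a (b (l 16746688) (b (l 16744720) (a (l 16744088) (l 16742816)))) (b (l 16744024) (a (b (l 16742744) (l 16741496)) (l 16746112))))) (c (b (l 16739584) (l 16734600)) (b (l 16738416) (l 16733296)))) (b (b (c (a (l 16745776) (l 16748408)) (l 16748656)) (b (a (c (c (l 16747464) (l 16741656)) (l 16740832)) (c (c (l 16745000) (l 16739168)) (l 16738288))) (l 16737608))) (c (b (l 16734512) (l 16729552)) (b (l 16733200) (l 16728112))))) (b (b (b (a (c (l 16745816) (l 16739432)) (c (a (c (l 16737088) (l 16736456)) (l 16739600)) (l 16744768))) (a (c (a (c (l 16739632) (l 16739040)) (c (l 16737200) (l 16736568))) (c (l 16747680) (l 16747080))) (l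 16732432))) (c (a (l 16734416) (l 16729464)) (l 16741040))) (a (c (b (l 16729512) (l 16724568)) (l 16730776)) (b (l 16729032) (l 16722744))))), by decide +kernel⟩

def k26_pm_011_t : ∃ t, chk3 f_pm_011_t t 17 127 1 = true :=
  ⟨(a (a (l 14) (b (b (c (a (l 16742440) (l 16734664)) (a (l 16738680) (l 16733376))) (a (l 14) (c (b (l 16730824) (l 16728344)) (l 16736040)))) (a (l 14) (b (l 16723736) (l 14))))) (b (a (b (c (a (l 16729576) (l 16724520)) (a (l 16728144) (l 16722944))) (b (a (a (l 16731528) (l 16723752)) (l 16725224)) (l 16727800))) (b (a (c (b (l 16720848) (l 16718344)) (l 16717848)) (b (l 16715048) (l 16723064))) (c (l 16712200) (l 16710304)))) (b (a (c (l 16716992) (l 16715248)) (l 16716696)) (a (c (l 16711912) (l 16710048)) (l 16711608))))), by decide +kernel⟩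

def k27_pm_011_t : ∃ t, chk3 f_pm_011_t t 18 60 1 = true :=
  ⟨(a (l 4) (b (l 4) (a (l 4) (b (l 4) (a (b (l 4) (a (l 4) (b (l 194582154151) (a (a (l 110293421591) (l 56069459239)) (l 16779072))))) (a (a (b (l 4) (b (a (l 85597359479) (l 16778376)) (l 16775200))) (b (c (l 184381607079) (l 184918477927)) (l 16777000))) (b (b (c (l 167201736743) (l 167738607591)) (a (l 35668364999) (l 16775864))) (l 16773128)))))))), by decide +kernel⟩

def k28_pm_011_t : ∃ t, chk3 f_pm_011_t t 36 122 1 = true :=
  ⟨(a (l 4) (a (b (l 4) (a (l 4) (a (l 4) (b (l 4) (b (l 4) (l 189213444119)))))) (b (l 4) (b (b (l 4) (a (l 4) (a (l 4) (b (l 4) (l 81302391719))))) (b (a (a (l 4) (a (l 4) (l 162906768599))) (b (a (l 94724164583) (l 16776456)) (l 16777248))) (a (b (a (l 122641452007) (l 16776704)) (l 16778152)) (l 16774184))))))), by decide +kernel⟩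

def k29_pm_011_t : ∃ t, chk3 f_pm_011_t t 36 123 1 = true :=
  ⟨(b (b (a (l 4) (a (a (a (b (l 4) (b (l 4) (l 52848233271))) (b (l 202635217271) (b (l 41573944007) (l 16776064)))) (b (b (a (l 192971539895) (l 16778256)) (a (l 30836525639) (l 16775816))) (l 16774688))) (b (a (l 16774432) (l 16774440)) (a (l 16774680) (l 16769448))))) (a (a (l 4) (a (b (l 4) (b (a (l 4) (a (l 117272743303) (l 16778272))) (a (a (l 4) (l 80765519991)) (l 16776544)))) (b (b (a (l 4) (a (l 117809613031) (l 16777120))) (a (a (l 109219679527) (l 16778496)) (l 16776312))) (c (l 16776504) (l 16776448))))) (a (b (a (l 16776240) (l 16774920)) (a (l 16775152) (l 16769904))) (a (c (l 16771232) (l 16773608)) (l 16768512))))) (b (a (a (b (a (l 4) (b (a (l 4) (l 162369897447)) (a (l 176328541335) (l 16778072)))) (b (a (c (l 189213444295) (l 192971540615)) (a (a (l 16778456) (l 16776576)) (l 16775584))) (a (a (l 194045281767) (a (l 56069458055) (l 16776688))) (l 16775032)))) (b (b (a (c (l 16777328) (l 16777288)) (l 16775984))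 (a (l 16774808) (l 16772152))) (a (a (l 16776272) (l 16772320)) (l 16772960)))) (b (a (a (l 16772744) (l 16767504)) (l 16766232)) (a (c (l 16769184) (l 16766256)) (l 16763840)))) (a (a (a (b (b (a (a (l 68417489143) (l 16776800)) (l 16775816)) (l 16775264)) (a (b (l 16774704) (l 16773472)) (l 16775376))) (b (b (l 16776440) (l 16775216)) (l 16772072))) (a (b (l 16773176) (l 16768120)) (c (l 16769480) (l 16766560)))) (a (a (c (l 16764280) (l 16763912)) (l 16764120)) (c (l 16760528) (l 16757360)))))), by decide +kernel⟩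

def k30_pm_011_t : ∃ t, chk3 f_pm_011_t t 37 61 1 = true :=
  ⟨(b (a (b (a (a (l 4) (b (l 4) (b (l 4) (b (l 193508411591) (a (l 200487732775) (l 16777024)))))) (b (b (l 4) (a (l 4) (a (l 168812348919) (a (l 53385104583) (l 16776720))))) (b (a (a (l 185455347623) (a (l 73786199575) (l 16778288))) (l 16778040)) (b (a (l 16778880) (l 16773696)) (l 16773832))))) (a (b (a (a (b (l 4) (b (l 68417489767) (l 16776328))) (b (b (l 4) (l 57143200455)) (l 16775608))) (a (b (l 8287947719) (l 16771688)) (l 16774176))) (b (c (l 16772680) (l 16772560)) (a (l 16774192) (l 16768984)))) (a (b (a (b (l 16774040) (l 16771712)) (l 16774200)) (l 16770192)) (b (c (l 16772368) (l 16774792)) (l 16765008))))) (b (b (a (a (b (a (a (l 181160379975) (l 79691779543)) (l 16779016)) (l 16775136)) (l 16775016)) (b (a (l 16774904) (l 16769728)) (l 16771352))) (a (a (a (b (l 16773488) (l 16771184)) (l 16773672)) (l 16771752)) (c (l 16768080) (l 16770408)))) (b (a (a (l 16769704) (l 16764536)) (l 16763360)) (a (c (l 16761400)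 (l 16760984)) (l 16761400))))) (b (b (a (a (c (a (l 16770784) (l 16765616)) (l 16769560)) (c (l 16764448) (l 16761416))) (a (l 16759176) (l 16751552))) (a (a (c (l 16764856) (l 16761824)) (c (l 16757208) (l 16756664))) (a (l 16757144) (l 16746928)))) (a (b (a (c (l 16760184) (l 16757024)) (l 16756160)) (c (a (l 16752880) (l 16747912)) (l 16754896))) (a (b (l 16752472) (l 16742552)) (b (l 16742296) (l 16737648)))))), by decide +kernel⟩

def k31_pm_011_t : ∃ t, chk3 f_pm_011_t t 38 60 1 = true :=
  ⟨(b (a (l 4) (b (a (l 4) (a (l 4) (b (l 4) (a (l 202635218743) (b (l 4) (l 71101845367)))))) (b (b (a (l 4) (a (c (l 160759285607) (l 165054252855)) (l 16778672))) (a (a (l 4) (l 176865413479)) (a (c (l 16779016) (l 16778992)) (l 16771280)))) (a (a (b (l 194045283191) (a (l 76470554679) (l 16776456))) (a (b (l 54458847031) (l 16769968)) (l 16775040))) (l 16773528))))) (b (b (a (a (l 4) (a (b (l 4) (a (l 170959832679) (l 37815848487))) (b (a (l 99019133223) (l 16779384)) (l 16775232)))) (a (c (l 16772592)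 (l 16772488)) (l 16770792))) (a (b (a (a (l 4) (a (l 193508411479) (l 57143201703))) (c (l 16776936) (l 16776872))) (a (a (c (l 154316834343) (a (l 4) (l 78618038391))) (l 16778480)) (a (l 16770712) (l 16770800)))) (a (a (l 16774632) (l 16766880)) (l 16768376)))) (a (a (b (b (a (c (l 16778792) (l 16778760)) (l 16771024)) (l 16772680)) (a (a (l 16773832) (l 16769936)) (l 16773280))) (b (a (c (l 16775320) (l 16775152)) (l 16772712)) (l 16766880))) (a (b (l 16766328) (l 16759272)) (c (l 16762008) (l 16766800)))))), by decide +kernel⟩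

def k32_pm_011_t : ∃ t, chk3 f_pm_011_t t 39 60 1 = true :=
  ⟨(a (b (b (a (a (b (l 4) (b (a (l 178476025639) (l 48553266967)) (l 16778336))) (b (b (l 4) (a (l 108682809623) (l 16779464))) (l 16775592))) (a (a (b (b (l 82913005719) (l 16775624)) (l 16768448)) (b (l 16778040) (l 16776352))) (b (l 16773520) (l 16774440)))) (a (b (c (c (l 16772624) (l 16773872)) (l 16773128)) (a (l 16773376) (l 16765648))) (b (a (l 16772688) (l 16764904)) (a (l 16768400) (l 16760632))))) (a (a (b (l 16764224) (l 16752864)) (b (l 16764376) (l 16750424))) (b (b (c (l 16763048) (l 16767896)) (l 16753296)) (l 16752040)))) (b (b (a (b (a (a (l 16768984) (l 16770320)) (l 16773640)) (l 16767992)) (b (l 16769792) (l 16760240))) (a (a (l 16765464) (l 16762912)) (l 16757768))) (b (a (b (l 16752592) (l 16758856)) (l 16755872)) (a (c (l 16752816) (l 16741624)) (l 16744912))))), by decide +kernel⟩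

def k33_pm_011_t : ∃ t, chk3 f_pm_011_t t 19 61 1 = true :=
  ⟨(b (b (b (a (a (a (a (l 16766056) (l 16763536)) (l 16765024)) (a (l 16754824) (l 16749920))) (a (l 16747904) (l 16741008))) (a (a (a (l 16762896) (l 16755288)) (c (l 16753496) (l 16747592))) (a (l 16748768) (l 16728848)))) (a (a (a (b (l 16755736) (l 16751176)) (c (l 16754112) (l 16748184))) (c (a (l 16744040) (l 16739264)) (l 16751304))) (a (c (l 16742672) (l 16731200)) (l 16732840)))) (a (a (b (c (a (l 16749968) (l 16739912)) (l 16751928)) (c (a (l 16735648) (l 16730904)) (l 16732160))) (a (b (l 16739880) (l 16736064)) (b (l 16729888) (l 16720896)))) (a (c (b (l 16723464) (l 16714688)) (l 16728248)) (b (l 16724152) (c (l 16705632) (l 16704096)))))), by decide +kernel⟩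

def k34_pm_011_t : ∃ t, chk3 f_pm_011_t t 36 62 1 = true :=
  ⟨(a (b (b (a (a (b (b (a (l 16771632) (l 16770304)) (l 16771128)) (c (l 16766304) (l 16764632))) (b (b (l 16768320) (l 16765872)) (c (l 16762408) (l 16761968)))) (b (c (a (l 16764656) (l 16762080)) (l 16765584)) (c (c (l 16761320) (l 16758424)) (l 16758016)))) (a (c (a (b (l 16760128) (l 16755248)) (b (l 16757568) (l 16752696))) (b (l 16763536) (l 16753272))) (a (b (l 16757304) (l 16755008)) (b (l 16752112) (l 16747208))))) (b (a (a (b (l 16751904) (l 16747568)) (b (l 16749992) (l 16742392))) (c (b (l 16744048) (l 16739168)) (l 16745792))) (b (a (c (l 16744480) (l 16738080)) (a (l 16734872) (l 16736272))) (b (a (c (l 16735488) (l 16734216)) (c (a (l 16731784) (l 16729424)) (l 16729208))) (a (c (a (l 16739504) (l 16731872)) (l 16742208)) (l 16727456)))))) (b (b (a (a (b (l 16761880) (l 16754416)) (b (l 16756680) (l 16751856))) (c (b (l 16753184) (l 16748456)) (l 16755312))) (a (c (b (l 16748696) (l 16743896)) (l 16750640)) (c (b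 (l 16743704) (l 16738944)) (l 16740296)))) (b (a (c (b (l 16739072) (l 16734232)) (l 16735456)) (c (b (l 16734160) (l 16729312)) (l 16740864))) (b (b (a (l 16735096) (c (c (l 16736624) (l 16725384)) (l 16724264))) (a (c (a (l 16729344) (l 16726992)) (l 16726720)) (l 16722592))) (c (l 16732688) (l 16720608)))))), by decide +kernel⟩

def k35_pm_011_t : ∃ t, chk3 f_pm_011_t t 37 62 1 = true :=
  ⟨(b (a (b (a (c (b (l 16748192) (l 16743488)) (l 16744960)) (b (l 16748032) (l 16738056))) (a (b (l 16743480) (l 16738680)) (b (l 16733312) (l 16728552)))) (b (c (a (l 16738696) (l 16731280)) (l 16742992)) (a (c (l 16726784) (l 16725408)) (b (l 16723664) (l 16729424))))) (b (a (a (b (l 16733864) (b (l 16724960) (a (l 16734240) (l 16721424)))) (b (c (l 16724472) (l 16722992)) (c (b (l 16731480) (l 16718648)) (l 16718296)))) (b (c (a (b (l 16720928) (l 16729120)) (b (l 16716304) (l 16713992))) (b (l 16737936) (l 16735704))) (l 16722448))) (a (c (a (l 16717488) (l 16712824)) (l 16713400)) (c (l 16716408)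 (l 16703992))))), by decide +kernel⟩

def k36_pm_011_t : ∃ t, chk3 f_pm_011_t t 18 63 1 = true :=
  ⟨(a (b (b (a (a (b (l 16733944) (l 16729048)) (b (l 16723816) (l 16718944))) (c (c (l 16720768) (l 16725112)) (l 16723768))) (a (c (b (l 16722584) (l 16722944)) (a (l 16715528) (l 16710648))) (c (b (l 16707896) (b (l 16704288) (l 16701856))) (b (l 16705920) (l 16700920))))) (b (a (b (c (b (l 16719272) (l 16706352)) (l 16716096)) (l 16712104)) (c (b (l 16698296) (l 16693440)) (l 16693632))) (a (c (l 16705768) (l 16692984)) (c (l 16686120) (l 16683608))))) (a (b (b (c (a (l 16708072) (l 16703464)) (l 16703768)) (c (b (l 16698664) (l 16704416)) (b (l 16696480) (l 16691632)))) (b (c (l 16686792) (l 16684312)) (l 16696784))) (b (b (c (l 16696640) (l 16694464)) (c (b (l 16689592) (l 16685008)) (l 16705856))) (b (l 16676600) (l 16666992))))), by decide +kernel⟩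

def k37_pm_011_t : ∃ t, chk3 f_pm_011_t t 19 31 1 = true :=
  ⟨(b (b (a (b (a (c (a (l 16726544) (l 16721864)) (l 16722832)) (a (l 16716488) (l 16719696))) (a (c (b (l 16727808) (a (b (l 16716224) (l 16713984)) (l 16721080))) (b (l 16715768) (l 16726888))) (b (a (a (l 16710744) (l 16708504)) (l 16726144)) (l 16702824)))) (b (a (b (l 16717736) (a (l 16726024) (l 16700664))) (c (b (l 16720192) (l 16694832)) (l 16716368))) (a (l 16696104) (l 16687272)))) (a (b (a (c (l 16705992) (l 16704136)) (l 16706488)) (a (c (l 16696880) (l 16694784)) (l 16697368))) (b (c (l 16704816) (l 16681664)) (c (l 16696000) (l 16672608))))) (b (a (b (a (c (l 16687712) (l 16685368)) (c (l 16678936) (l 16676448))) (c (a (l 16699544) (l 16669976)) (a (l 16676000) (l 16667272)))) (b (c (a (l 16670328) (l 16661960)) (l 16684424)) (l 16676848))) (a (a (a (l 16686248) (l 16660992)) (l 16675624)) (c (l 16664880) (l 16640696))))), by decide +kernel⟩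

def k38_pm_011_t : ∃ t, chk3 f_pm_011_t t 20 28 1 = true :=
  ⟨(l 4), by decide +kernel⟩

def k39_pm_011_t : ∃ t, chk3 f_pm_011_t t 21 56 1 = true :=
  ⟨(l 4), by decide +kernel⟩

def k40_pm_011_t : ∃ t, chk3 f_pm_011_t t 42 57 1 = true :=
  ⟨(b (l 4) (a (l 4) (b (l 4) (a (b (l 4) (b (l 4) (a (l 4) (c (c (a (l 180623509127) (l 16778976)) (l 73249331079)) (l 74323072951))))) (b (a (c (b (l 4) (a (l 4) (l 198340249639))) (l 217130734055)) (c (c (b (l 177939154439) (a (l 54995718087) (l 16775952))) (b (l 179549767799) (l 16776576))) (b (l 181697251415) (l 16776552)))) (c (a (b (a (b (l 158611803415) (l 16778472)) (l 16777792)) (l 16775024)) (l 16773408)) (a (b (l 16779656) (l 16774968)) (l 16768056)))))))), by decide +kernel⟩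

def k41_pm_011_t : ∃ t, chk3 f_pm_011_t t 43 114 1 = true :=
  ⟨(a (b (l 4) (a (l 4) (b (l 4) (b (l 4) (a (l 4) (c (a (l 4) (c (l 99556004455) (l 100629746263))) (l 177939154839))))))) (b (a (l 4) (b (l 4) (b (a (l 4) (c (a (l 4) (c (l 85060489559) (l 16780080))) (l 169349219863))) (a (b (l 4) (c (l 184918476567) (l 187602831079))) (c (c (l 16778864) (l 16776232)) (l 16778824)))))) (a (b (a (l 4) (c (b (l 214446378503) (c (b (l 99019133911) (l 16779520)) (l 63585654407))) (a (l 192971541287) (b (l 223036312007) (l 16776736))))) (b (a (b (c (l 190287185879) (l 193508411303)) (a (l 148411256295) (l 16778120))) (c (l 16775304) (l 16775256))) (c (b (a (l 16778392) (l 16773696)) (l 16773992)) (l 16774456)))) (b (b (a (b (a (l 139284450791) (l 16776696)) (c (l 16777624) (l 16776288))) (l 16774056)) (c (l 16773328) (l 16773240))) (b (a (c (l 16775184) (l 16772448)) (l 16771032)) (a (l 16771648) (l 16767568))))))), by decide +kernel⟩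

def k42_pm_011_t : ∃ t, chk3 f_pm_011_t t 43 115 1 = true :=
  ⟨(b (a (a (b (l 4) (b (a (l 4) (c (c (a (l 125325808375) (l 16778248)) (l 71638718215)) (l 71101846135))) (a (c (a (l 210151410071) (c (l 71101845655) (l 16777280))) (l 97945393575)) (c (l 16776800) (l 16775440))))) (b (a (c (b (a (l 4) (l 193508411271)) (a (c (l 85597360519) (l 16780104)) (l 16777688))) (b (l 203708959559) (l 45332040279))) (c (c (b (c (l 16779096) (l 16779088)) (l 16771736)) (l 16778008)) (l 16778296))) (c (c (l 16773176) (l 16772464)) (l 16772368)))) (a (c (c (b (l 16771352) (l 16769744)) (l 16769136)) (l 16769640)) (c (b (l 16768144) (l 16762928)) (b (l 16768208) (l 16761248))))) (a (a (b (c (c (a (b (l 16778680) (l 16771320)) (b (l 16770760) (l 16771256))) (l 16775568)) (l 16774840)) (c (a (c (l 16773376) (l 16770664)) (l 16770640)) (a (l 16770536) (l 16767776)))) (b (a (b (l 16771872) (l 16768400)) (c (l 16766872) (l 16766608))) (c (c (l 16766688) (l 16763896)) (l 16763640)))) (a (b (c (c (l 16762904) (l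 16762728)) (l 16762464)) (a (l 16760384) (l 16757016))) (c (c (l 16758064) (l 16760424)) (l 16760040))))), by decide +kernel⟩

def k43_pm_011_t : ∃ t, chk3 f_pm_011_t t 20 58 1 = true :=
  ⟨(a (l 4) (b (a (l 4) (b (l 4) (a (l 4) (b (l 4) (a (c (b (l 4) (l 194582154055)) (l 207467057415)) (c (b (c (l 172570445863) (l 173644187655)) (c (l 16779160) (l 16779144))) (b (l 121030842999) (l 16776496)))))))) (a (b (a (l 4) (a (l 4) (b (l 4) (b (l 4) (c (l 163443640039) (l 109756553703)))))) (a (b (b (l 4) (l 204245832679)) (b (a (l 4) (a (l 93650424423) (l 16776640))) (a (a (l 129083904567) (l 16779680)) (l 16775144)))) (b (b (a (l 183307864535) (c (l 16778976) (l 16776312))) (a (c (l 31373397671) (l 16776768)) (l 16771568))) (l 16773560)))) (b (b (b (a (l 4) (a (c (a (l 80228651415) (l 16776392)) (l 16779576)) (l 16774376))) (a (a (l 4) (c (a (l 115662131751) (l 16779488)) (l 65733138167))) (c (l 16773600) (l 16773488)))) (b (a (a (c (a (l 196729636967) (l 16779128)) (l 87744846023)) (l 16776696))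 (a (l 16775328) (l 16770032))) (a (c (l 16777192) (l 16774488)) (c (l 16774560) (l 16769080))))) (a (c (b (l 16771368) (l 16772328)) (c (l 16769040) (l 16768928))) (b (c (l 16771360) (l 16771032)) (l 16761640))))))), by decide +kernel⟩

def k44_pm_011_t : ∃ t, chk3 f_pm_011_t t 20 59 1 = true :=
  ⟨(a (b (a (b (l 4) (a (a (l 4) (b (l 4) (b (l 4) (l 166664865767)))) (a (b (l 4) (b (l 150021866135) (l 16778712))) (b (a (l 190287187207) (b (l 4) (l 16779696))) (l 16776552))))) (b (a (b (l 4) (a (l 4) (b (l 187065961111) (a (l 70564974919) (l 16776320))))) (b (b (a (l 4) (c (l 150558737655) (l 90429200615))) (a (l 167738607575) (l 16778680))) (b (a (l 16779440) (l 16768656)) (l 16773032)))) (a (b (b (a (a (l 99556004455) (l 16776736)) (l 16774808)) (l 16773936)) (a (b (l 16767824) (l 16770888)) (l 16774600))) (a (b (a (l 16776984) (l 16770424)) (l 16766736)) (b (l 16768456) (l 16764120)))))) (b (b (a (a (a (b (l 183844735607) (a (l 66270007591) (l 16776304))) (c (l 16779048) (l 16778008))) (l 16772856))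 (a (c (l 16771720) (l 16771416)) (l 16761112))) (a (a (l 16773864) (a (l 16773736) (l 16765888))) (a (l 16767240) (l 16756800)))) (b (a (a (a (l 16774576) (l 16766744)) (l 16768096)) (a (l 16757680) (l 16752504))) (a (a (l 16766328) (l 16758536)) (c (l 16753768) (l 16755688)))))) (b (b (a (b (c (a (l 16775216) (l 16773280)) (a (l 16773136) (l 16773008))) (a (a (l 16775408) (l 16767528)) (l 16766192))) (a (b (l 16767856) (l 16758312)) (c (l 16758144) (l 16754896)))) (a (a (b (l 16767136) (l 16760200)) (c (l 16760024) (l 16762080))) (c (a (l 16752256) (l 16747128)) (a (l 16751544) (l 16746272))))) (a (b (c (a (l 16759328) (l 16748968)) (a (l 16753440) (l 16748184))) (c (a (l 16745640) (l 16740576)) (a (l 16744776) (l 16739568)))) (b (c (a (l 16743872) (l 16738792)) (l 16745576)) (c (a (l 16735528) (l 16730496)) (l 16731800)))))), by decide +kernel⟩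

def k45_pm_011_t : ∃ t, chk3 f_pm_011_t t 42 58 1 = true :=
  ⟨(b (b (a (a (l 4) (b (a (l 4) (b (l 4) (c (c (l 177402284215) (l 178476026007)) (l 180623509623)))) (a (c (b (l 201024605175) (a (c (l 89892327799) (l 16779520)) (l 16777800))) (b (l 210688281527) (l 16779648))) (c (c (b (c (l 16779240) (l 16779232)) (l 16771896)) (l 16778808)) (l 16778112))))) (a (a (c (b (c (b (a (l 208540797399) (l 73249329399)) (l 16778728)) (b (l 98482264407) (l 16776088))) (a (b (l 16772016) (l 16772496)) (l 16774848))) (b (b (l 99556006311) (l 16776056)) (l 16767536))) (c (b (c (l 16775824) (l 16774480)) (l 16772192)) (l 16772216))) (b (b (c (a (l 16775512) (l 16770200)) (l 16766144)) (a (l 16771968) (l 16767944))) (c (c (l 16768920) (l 16771392)) (l 16771160))))) (a (a (b (b (a (l 4) (c (c (a (l 126399550071) (l 16779608)) (l 70564976471)) (l 71101847511))) (a (a (l 208003926343) (b (l 134989483287) (l 16778448))) (c (l 16775544) (l 16775488)))) (c (a (c (l 16777616) (l 16777576)) (a (c (l 16769096) (l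 16767720)) (l 16774288))) (l 16776160))) (c (b (c (l 16773968) (l 16772592)) (a (l 16772296) (l 16767024))) (b (l 16772488) (l 16773336)))) (a (b (c (a (l 16771248) (l 16765968)) (l 16772264)) (a (l 16764856) (l 16761520))) (c (b (l 16761992) (l 16757776)) (l 16762680))))) (b (b (a (a (a (c (l 16773320) (l 16770512)) (a (l 16768592) (l 16767256))) (a (l 16766560) (l 16762576))) (a (a (l 16759904) (l 16757240)) (a (l 16754584) (l 16751928)))) (a (a (c (l 16767744) (l 16770008)) (c (l 16759864) (l 16759376))) (a (l 16756936) (l 16749024)))) (b (a (a (l 16763264) (l 16755344)) (a (l 16750072) (l 16744808))) (a (a (l 16756360) (l 16751096)) (c (l 16748936) (l 16742776)))))), by decide +kernel⟩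

def k46_pm_011_t : ∃ t, chk3 f_pm_011_t t 43 58 1 = true :=
  ⟨(a (a (b (b (c (b (c (l 16767824) (l 16765040)) (l 16760888)) (b (l 16764792) (l 16760456))) (c (b (l 16756688) (l 16752496)) (l 16753984))) (b (c (l 16746256) (l 16745440)) (c (l 16738000) (l 16736968)))) (b (b (c (b (l 16759760) (l 16755568)) (l 16762400)) (c (c (l 16749488) (l 16749128)) (l 16748592))) (b (c (l 16741032) (l 16740112)) (c (l 16732840) (l 16731712))))) (b (b (c (a (c (l 16752480) (l 16752168)) (l 16746984)) (a (l 16751712) (l 16746272))) (c (a (l 16744024) (l 16738744)) (a (l 16743208) (l 16737840)))) (b (c (a (l 16735816) (l 16730592)) (l 16737392)) (c (l 16725104) (l 16723856))))), by decide +kernel⟩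

def k47_pm_011_t : ∃ t, chk3 f_pm_011_t t 21 59 1 = true :=
  ⟨(b (a (a (b (c (a (l 16750352) (l 16745192)) (a (l 16749584) (l 16744304))) (c (a (l 16742008) (l 16736912)) (l 16743656))) (a (b (c (l 16740056) (l 16739040)) (l 16733832)) (b (c (l 16734928) (l 16733800)) (l 16731336)))) (a (b (c (a (l 16729816) (l 16724720)) (l 16725984)) (c (l 16724432) (l 16717712))) (b (c (l 16722320) (l 16715640)) (c (l 16709128) (l 16707504))))) (a (b (a (a (l 16738368) (l 16733264)) (c (l 16726392) (l 16719664))) (a (b (l 16729568) (l 16725408)) (c (l 16718280) (l 16711352)))) (a (b (c (l 16711168) (l 16709496)) (c (l 16703168) (l 16701304))) (c (b (l 16701232) (l 16693368)) (b (l 16699432) (l 16691376)))))), by decide +kernel⟩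

def k48_pm_011_t : ∃ t, chk3 f_pm_011_t t 44 56 1 = true :=
  ⟨(b (a (l 4) (l 4)) (a (b (l 4) (a (a (l 4) (b (l 4) (c (c (l 213372637911) (l 216056992407)) (l 223573185111)))) (b (b (l 4) (a (l 4) (c (a (l 212298893575) (c (l 63048781735) (l 16777160))) (a (l 220888828119) (l 63585651463))))) (b (a (a (l 4) (b (l 4) (a (l 138210707911) (l 16778408)))) (c (c (l 16775912) (l 16775896)) (l 16777184))) (a (a (b (a (l 4) (l 82913003703)) (l 16778000)) (l 16775824)) (l 16773712)))))) (b (a (b (l 4) (b (a (l 4) (a (l 4) (b (l 4) (c (l 99556002967) (l 101166615671))))) (a (c (l 216056991175) (l 224646925703)) (a (b (c (l 133378870647) (l 134989483367)) (c (l 16776936) (l 16776920))) (c (l 16776080) (l 16776056)))))) (a (b (b (l 4) (b (c (l 205856442695) (l 209614539015)) (a (l 219278214935) (c (l 16778336) (l 16777016))))) (a (b (b (c (l 69491231463) (l 16778520)) (l 16776288)) (l 16774664)) (c (l 16774368) (l 16774312)))) (b (b (c (c (a (l 129620775687) (l 16778224)) (a (l 131231388407) (l 16776904)))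 (a (l 185992218119) (a (l 59827555287) (l 16776552)))) (c (c (l 16775488) (l 16775472)) (l 16775448))) (c (l 16772288) (l 16772192))))) (a (b (c (a (b (c (a (l 114588390135) (l 16776720)) (l 64659394743)) (l 16775272)) (l 16773648)) (a (b (a (l 173644186807) (l 16778008)) (l 16775232)) (l 16773488))) (c (c (l 16770688) (l 16770624)) (l 16770528))) (c (c (b (l 16769440) (l 16767800)) (l 16767208)) (b (l 16769248) (a (l 16766288) (l 16763472)))))))), by decide +kernel⟩

def k49_pm_011_t : ∃ t, chk3 f_pm_011_t t 90 112 1 = true :=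
  ⟨(b (a (l 4) (b (l 4) (a (l 4) (a (b (l 4) (b (c (l 153779965431) (l 216056989223)) (c (l 57680069959) (a (l 111904032839) (l 16776880))))) (c (b (l 194045282119) (c (l 16776376) (l 16776368))) (b (c (l 196729636647) (l 198340249367)) (c (l 16776360) (l 16777664)))))))) (a (b (b (l 4) (a (l 4) (a (l 4) (b (c (l 150021869063) (l 211225150951)) (c (l 52848232951) (l 53385103847)))))) (a (a (b (l 4) (b (c (l 147337514487) (l 205319570823)) (c (l 45868911031) (l 16778408)))) (c (b (l 187602830359) (l 16777568)) (b (l 190824056455) (l 16776240)))) (c (c (c (l 16777216) (l 16777856)) (l 16777848)) (a (b (b (l 85060488103) (l 16776440)) (l 16774832)) (l 16774496))))) (b (b (a (a (c (l 191360927495) (l 194582152919)) (c (c (l 10972302679) (l 16777024)) (a (b (l 151632480711) (l 16776856)) (l 16777992)))) (c (l 16774968) (l 16774928))) (c (c (a (l 16775640) (l 16772880)) (l 16774232)) (a (a (l 16777616) (l 16774896)) (l 16772784)))) (c (c (l 16771112) (l 16771056)) (a (l 16772384) (l 16769568)))))),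 by decide +kernel⟩

def k50_pm_011_t : ∃ t, chk3 f_pm_011_t t 91 112 1 = true :=
  ⟨(b (a (a (a (b (l 4) (c (c (b (l 49090137351) (l 16775000)) (l 16778648)) (b (b (a (l 218204472391) (l 16777832)) (l 16776552)) (l 16774952)))) (b (b (l 4) (b (c (l 153779965479) (l 221962569303)) (a (c (l 115125258391) (l 116199000199)) (c (l 16776928) (l 16776920))))) (c (l 16774656) (l 16774616)))) (c (b (b (a (l 195655894903) (c (l 50700747511) (l 16777096))) (c (l 16775728) (l 16775712))) (l 16773240)) (b (b (b (a (l 4) (a (l 221962568791) (l 66806876039))) (a (l 185992217655) (l 16776584))) (a (a (b (l 65733134199) (l 16776216)) (l 16776048)) (l 16774992))) (l 16773160)))) (c (c (b (a (l 16774016) (l 16771272)) (l 16768488)) (b (l 16772600) (l 16768416))) (b (a (a (l 16774808) (l 16773248)) (l 16772456)) (b (l 16770680) (l 16767240))))) (a (c (c (b (l 16769800) (l 16765616)) (b (l 16769736) (l 16765520))) (b (a (l 16771048) (l 16768240)) (l 16766680))) (c (c (b (l 16764328) (l 16761464)) (l 16762112))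 (b (l 16765360) (l 16761752))))), by decide +kernel⟩

def k51_pm_011_t : ∃ t, chk3 f_pm_011_t t 45 113 1 = true :=
  ⟨(c (b (c (a (a (b (l 16772488) (l 16768176)) (a (l 16766168) (l 16766048))) (a (a (l 16763312) (l 16759928)) (b (l 16755976) (l 16751792)))) (a (a (b (l 16772360) (l 16768088)) (l 16764680)) (a (l 16759160) (b (l 16755792) (l 16751560))))) (a (a (a (c (l 16765808) (l 16765672)) (c (l 16762408) (l 16762904))) (b (c (l 16758464) (l 16758288)) (l 16754120))) (a (b (l 16752904) (l 16748664)) (b (l 16747952) (l 16743240))))) (a (b (a (b (a (l 16773704) (l 16770888)) (l 16767968)) (b (l 16766672) (l 16763664))) (a (b (a (l 16765024) (l 16762216)) (l 16761888)) (b (l 16760648) (l 16753688)))) (a (a (b (l 16762944) (l 16751688)) (b (l 16760160) (l 16748920))) (b (b (l 16758136) (l 16751224)) (b (l 16746928) (l 16742624)))))), by decide +kernel⟩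

def k52_pm_011_t : ∃ t, chk3 f_pm_011_t t 44 57 1 = true :=
  ⟨(b (a (b (a (b (b (a (l 4) (a (c (c (l 96871649751) (l 97945391559)) (l 96871649879)) (c (l 16777776) (l 16776440)))) (a (c (c (a (l 191897798487) (l 16779032)) (l 81302392167)) (a (l 196192765735) (l 16778360))) (c (l 16775008) (l 16774960)))) (b (c (c (l 16774912) (l 16774224)) (l 16774176)) (c (l 16772088) (l 16771976)))) (c (b (c (l 16771936) (l 16771880)) (a (c (l 16772976) (l 16768952)) (l 16767536))) (a (l 16771352) (l 16768192)))) (c (a (c (c (l 16768136) (l 16768080)) (l 16766680)) (b (c (l 16765384) (l 16768512)) (l 16760424))) (a (l 16767824) (b (l 16765672) (l 16758728))))) (a (b (b (a (c (l 16769048) (l 16772784)) (c (l 16766280) (l 16764720))) (c (c (l 16764120) (l 16762000)) (l 16764384))) (a (b (l 16759672) (l 16754760)) (b (l 16756240) (l 16751992)))) (b (c (b (c (l 16763536) (l 16760752)) (l 16756568)) (b (l 16763120) (l 16756152))) (c (a (l 16752256) (l 16748872)) (l 16752312))))) (c (b (b (a (a (l 16761688)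 (l 16754904)) (a (l 16749432) (l 16743984))) (a (a (l 16756168) (l 16750720)) (a (l 16745272) (l 16739848)))) (a (a (c (l 16750056) (l 16749752)) (l 16745808)) (a (l 16739088) (l 16733696)))) (b (a (a (b (l 16760008) (l 16755704)) (l 16757536)) (a (l 16746744) (l 16741208))) (a (a (l 16749296) (l 16743808)) (a (l 16738320) (l 16732840)))))), by decide +kernel⟩

def k53_pm_011_t : ∃ t, chk3 f_pm_011_t t 45 57 1 = true :=
  ⟨(c (b (b (a (a (b (l 16755336) (l 16751088)) (b (l 16749872) (l 16745640))) (a (c (l 16742488) (l 16742160)) (c (l 16737112) (l 16736736)))) (a (a (c (l 16744944) (l 16744624)) (c (l 16739544) (l 16739176))) (a (c (l 16734168) (l 16733752)) (c (l 16728816) (l 16728360))))) (a (b (a (c (l 16736696) (l 16736288)) (l 16731104)) (a (l 16728328) (l 16722976))) (a (b (l 16725736) (l 16717648)) (b (l 16720400) (l 16712352))))) (a (b (b (a (b (l 16754904) (l 16750576)) (l 16749808)) (a (l 16744144) (l 16738624))) (b (a (l 16735696) (l 16730208)) (l 16729904))) (b (b (a (l 16741664)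 (l 16736176)) (a (l 16733136) (l 16727672))) (b (l 16727288) (l 16713840))))), by decide +kernel⟩

def k54_pm_011_t : ∃ t, chk3 f_pm_011_t t 23 56 1 = true :=
  ⟨(a (b (a (c (b (c (a (a (l 16767768) (l 16763736)) (l 16760976)) (a (l 16767616) (l 16759520))) (a (b (l 16760112) (l 16755120)) (c (l 16753200) (l 16753792)))) (b (a (b (a (l 16768352) (l 16766880)) (a (l 16765432) (l 16761344))) (a (b (l 16764104) (l 16758576)) (l 16759232))) (a (b (l 16760128) (l 16754240)) (l 16753464)))) (c (b (a (b (c (l 16756320) (l 16756152)) (l 16752104)) (c (l 16750216) (l 16751296))) (a (c (l 16748648) (l 16745760)) (c (l 16740696) (l 16740376)))) (b (a (b (l 16757200) (l 16751688)) (b (l 16750408) (l 16746216))) (a (l 16746672) (l 16739904))))) (c (b (a (a (b (l 16750440) (l 16746248)) (c (l 16743096) (l 16742792))) (a (a (l 16738912) (l 16736240)) (l 16733560))) (a (a (b (l 16742048) (l 16737840)) (c (l 16734760) (l 16734376))) (c (a (l 16729448) (l 16724168)) (l 16728968)))) (b (a (a (b (l 16749976) (l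 16745704)) (l 16744968)) (a (l 16736880) (l 16731456))) (a (a (l 16739280) (l 16733808)) (a (l 16728376) (l 16722976)))))) (c (a (a (b (b (l 16745168) (l 16735224)) (b (l 16726960) (l 16718664))) (b (b (l 16738160) (l 16729952)) (b (l 16721712) (l 16713448)))) (b (b (a (l 16732912) (l 16727720)) (a (l 16724736) (l 16719568))) (b (l 16717216) (l 16708328)))) (a (b (b (a (l 16745504) (l 16737488)) (a (l 16734496) (l 16729128))) (b (a (l 16726072) (l 16720720)) (l 16714944))) (b (b (a (l 16732136) (l 16726840)) (l 16723776)) (b (l 16712784) (l 16704376)))))), by decide +kernel⟩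

def k55_pm_011_t : ∃ t, chk3 f_pm_011_t t 23 57 1 = true :=
  ⟨(a (b (c (a (b (a (c (l 16731760) (l 16731336)) (c (l 16726432) (l 16725968))) (a (l 16723248) (c (l 16718208) (l 16717664)))) (b (c (a (l 16721144) (l 16715896)) (l 16717976)) (c (a (l 16712952) (l 16707728)) (l 16709720)))) (a (b (a (l 16730712) (l 16725272)) (a (l 16722248) (l 16716848))) (b (l 16719800) (l 16708800)))) (a (a (c (b (l 16715096) (l 16707080)) (l 16715088)) (c (b (l 16709816) (l 16701840)) (l 16704504))) (a (c (b (l 16704568) (l 16696632)) (l 16704432)) (c (b (l 16699352) (l 16691448)) (l 16699144))))) (b (a (c (b (c (l 16710720) (l 16707456)) (c (l 16699968) (l 16699248))) (b (l 16706496) (l 16698176))) (c (b (l 16700104) (l 16689368)) (b (l 16695976) (l 16687704)))) (a (a (c (b (l 16694176) (l 16686296)) (l 16688640)) (b (l 16690840) (l 16680312))) (c (b (l 16681408) (l 16673600)) (l 16680872))))), by decide +kernel⟩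

def k56_pm_011_t : ∃ t, chk3 f_pm_011_t t 11 29 1 = true :=
  ⟨(b (b (a (a (a (b (c (a (l 16741632) (l 16736280)) (l 16740752)) (c (a (l 16733456) (l 16728168)) (l 16729808))) (c (b (a (l 16730936) (l 16725600)) (l 16723360)) (b (l 16727296) (l 16719120)))) (a (b (c (a (l 16720280) (l 16714976)) (l 16716496)) (c (l 16712328) (l 16708440))) (c (b (a (l 16709688) (l 16704432)) (l 16699240)) (b (l 16705760) (l 16697824))))) (a (a (c (b (a (l 16699200) (l 16693992)) (l 16688856)) (b (l 16695144) (l 16687288))) (c (b (l 16691488) (l 16678584)) (b (l 16684632) (l 16676864)))) (a (c (b (l 16681264) (l 16668432)) (b (l 16674232) (l 16666552))) (c (b (l 16665936) (l 16658416)) (l 16670592))))) (b (a (a (a (c (l 16728000) (l 16721576)) (c (l 16712312) (l 16711032))) (a (c (l 16701896) (l 16700496)) (c (l 16691536) (l 16689992)))) (a (a (c (l 16681248) (l 16679560)) (c (l 16671056) (l 16669232))) (a (l 16670472) (l 16655192)))) (a (a (a (c (l 16714792) (l 16713432)) (l 16708992)) (a (l 16693408) (l 16683096)))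 (a (a (l 16672848) (l 16673168)) (a (l 16652616) (l 16642664)))))) (a (a (b (a (b (c (l 16706904) (l 16705368)) (c (l 16699088) (l 16697384))) (c (b (l 16696720) (l 16689048)) (b (l 16695120) (l 16687288)))) (a (c (b (l 16691336) (l 16683608)) (l 16690744)) (b (l 16685720) (l 16678376)))) (b (b (a (c (l 16686560) (l 16684872)) (c (l 16676432) (l 16674648))) (a (c (l 16679024) (l 16677192)) (l 16673296))) (a (b (l 16670552) (l 16668280)) (b (l 16660648) (l 16663760))))) (a (b (a (c (l 16673184) (l 16668608)) (c (l 16663240) (l 16661160))) (a (b (l 16650776) (l 16643528)) (c (l 16649016) (l 16636240)))) (b (c (a (l 16642896) (l 16633152)) (a (l 16640688) (l 16630792))) (a (c (l 16628880) (l 16626480)) (b (l 16621504) (l 16625080))))))), by decide +kernel⟩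

def k57_pm_011_t : ∃ t, chk3 f_pm_011_t t 10 30 1 = true :=
  ⟨(a (b (a (a (b (b (a (c (l 16762736) (l 16762248)) (l 16757336)) (a (l 16753952) (l 16743584))) (b (c (l 16743416) (l 16737272)) (c (l 16740424) (l 16728904)))) (b (b (a (l 16752192) (l 16741824)) (a (l 16738464) (l 16733360))) (b (a (l 16730064) (l 16724984)) (l 16729720)))) (b (a (a (b (l 16736712) (l 16728280)) (b (l 16731616) (l 16723216))) (b (c (l 16724720) (l 16723304)) (c (l 16716472) (l 16714872)))) (a (b (l 16722648) (l 16709144)) (b (l 16717872) (l 16699184))))) (b (a (a (b (c (l 16732280) (l 16720656)) (c (l 16724112) (l 16712376))) (b (l 16711064) (l 16703032))) (a (b (l 16701000) (l 16692960)) (b (l 16691072) (l 16683000)))) (b (a (a (l 16715120) (l 16705552)) (a (c (l 16706968) (l 16684032)) (b (l 16677160) (l 16673232)))) (a (a (a (l 16719136) (l 16714816)) (b (l 16710136) (l 16685024))) (l 16672280))))) (b (a (b (a (b (c (l 16714784) (l 16713128)) (l 16710944)) (b (l 16709248) (l 16706336))) (a (b (l 16697504)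 (l 16689368)) (a (l 16696608) (l 16691784)))) (b (a (b (l 16704648) (l 16686128)) (c (l 16689472) (l 16679344))) (a (c (l 16685888) (l 16672896)) (b (l 16668648) (l 16671232))))) (b (a (b (a (l 16681296) (l 16682128)) (a (b (l 16675240) (l 16671400)) (b (l 16665824) (l 16661944)))) (b (a (c (l 16674136) (l 16660896)) (b (l 16655040) (l 16651248))) (l 16660608))) (a (a (l 16661704) (l 16652408)) (a (l 16643352) (l 16634528)))))), by decide +kernel⟩

def k58_pm_011_t : ∃ t, chk3 f_pm_011_t t 10 31 1 = true :=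
  ⟨(a (b (b (a (b (a (l 16687336) (l 16678664)) (l 16695288)) (a (b (l 16669440) (l 16661480)) (l 16655904))) (a (a (l 16686448) (l 16657168)) (a (b (l 16653288) (l 16644800)) (b (l 16644528) (l 16636680))))) (b (a (b (a (l 16652368) (l 16644328)) (l 16639624)) (b (l 16653584) (l 16624216))) (a (l 16647424) (l 16611504)))) (b (b (a (a (l 16646504) (l 16637392)) (a (l 16628552) (l 16619960))) (a (b (l 16630768) (l 16623416)) (b (l 16613360) (l 16606368)))) (a (b (l 16633336) (l 16618048)) (b (l 16595752) (l 16581624))))), by decide +kernel⟩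

def k59_pm_011_t : ∃ t, chk3 f_pm_011_t t 11 15 1 = true :=
  ⟨(b (b (b (a (a (a (c (l 16682544) (l 16669744)) (c (l 16662528) (l 16660184))) (a (c (l 16652992) (l 16650616)) (c (l 16653904) (l 16640976)))) (a (a (b (l 16636320) (c (l 16630424) (l 16627888))) (b (l 16637200) (l 16630288))) (b (a (l 16630344) (l 16607824)) (l 16616192)))) (a (a (a (b (l 16659280) (c (l 16673936) (l 16650216))) (b (l 16649904) (b (l 16644368) (l 16640672)))) (b (a (c (l 16641952) (l 16639336)) (l 16641928)) (l 16639352))) (a (a (l 16618640) (l 16609432)) (a (l 16600232) (l 16591048))))) (a (a (b (a (l 16640464) (l 16631616)) (a (l 16625880) (l 16617296))) (b (a (l 16622728) (l 16613816)) (a (l 16608680) (l 16600024)))) (a (b (a (l 16604872) (l 16595904)) (a (l 16591336) (l 16582616))) (b (a (l 16586928) (l 16577952)) (c (l 16571024) (l 16568000)))))) (a (b (a (b (a (l 16611576) (l 16603272)) (b (l 16596976) (l 16590192))) (b (l 16611712) (b (l 16580832) (l 16574272)))) (a (b (l 16580048) (l 16566456)) (b (l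 16564544) (l 16551536)))) (b (b (a (a (l 16578088) (l 16569608)) (b (l 16560016) (l 16553840))) (a (l 16561272) (l 16544744))) (a (b (l 16548792) (l 16536336)) (b (l 16532800) (l 16520848)))))), by decide +kernel⟩

def k60_pm_011_t : ∃ t, chk3 f_pm_011_t t 6 12 1 = true :=
  ⟨(a (b (l 4) (a (l 4) (b (l 4) (a (l 4) (b (l 4) (a (b (l 4) (l 254174816103)) (b (a (l 4) (a (l 228941886519) (l 1))) (a (b (l 177939151127) (l 11509178311)) (l 16771720))))))))) (b (l 1) (a (b (l 1) (a (b (l 1) (a (b (l 1) (l 16773384)) (l 1))) (l 1))) (l 1)))), by decide +kernel⟩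

def k61_pm_011_t : ∃ t, chk3 f_pm_011_t t 12 26 1 = true :=
  ⟨(a (b (l 4) (a (b (l 4) (a (l 4) (b (l 4) (a (b (l 4) (a (l 4) (l 190824054871))) (b (a (l 253101080519) (b (l 191897796551) (l 16776728))) (a (b (l 68954363319) (l 16775568)) (l 16773816))))))) (b (a (b (l 4) (a (l 4) (a (l 4) (a (l 226794405063) (b (l 4) (l 72712460679)))))) (a (b (l 4) (b (a (l 204245827015) (c (l 16776736) (l 21709723703))) (l 16776824))) (b (b (l 200487730119) (a (a (l 108145942135) (l 16779728)) (l 16775024))) (l 16770568)))) (a (b (a (b (l 240216178151) (a (l 173107314551) (c (l 16776120) (l 16778712)))) (a (b (a (l 83986750087) (l 16776552)) (l 16773344)) (l 16772528))) (a (b (l 16773592) (l 16769720)) (l 16771408))) (b (a (l 16771000) (l 16762816)) (c (l 16758016) (l 16763008))))))) (b (a (b (a (l 4) (b (l 4) (a (l 4) (b (l 241289918151) (a (l 102777235015) (l 16775856)))))) (a (b (a (l 4) (l 238068692327)) (b (a (l 4) (a (l 90966074167) (l 16775488))) (a (a (l 239679306663) (l 53921979687)) (l 16772968))))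 (b (a (b (a (l 256322304343) (l 66806882391)) (l 16780400)) (l 16771344)) (a (l 16769216) (l 16763464))))) (a (b (b (a (b (l 4) (l 170422958743)) (b (a (l 112440912071) (l 16776128)) (l 16773568))) (a (b (l 16781056) (l 16771464)) (l 16767576))) (a (l 16766824) (l 16766208))) (b (b (a (l 16769624) (l 16763664)) (l 16769136)) (c (l 16757432) (l 16757176))))) (a (b (a (b (a (b (a (l 16776144) (l 16773304)) (l 16770800)) (l 16767096)) (c (l 16762232) (l 16767296))) (b (l 16763776) (l 16750784))) (a (b (l 16759664) (l 16752000)) (c (l 16749960) (l 16744304)))) (b (a (c (l 16753736) (l 16753408)) (l 16741800)) (a (l 16733032) (l 16716096)))))), by decide +kernel⟩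

def k62_pm_011_t : ∃ t, chk3 f_pm_011_t t 24 27 1 = true :=
  ⟨(a (b (b (a (b (a (l 4) (b (l 4) (a (l 205856440759) (a (b (l 219815084247) (l 16776632)) (l 16778880))))) (a (a (b (l 4) (a (b (l 4) (l 16778928)) (b (l 78081167303) (l 16775624)))) (b (a (l 204245828071) (b (l 240753049959) (l 16776808))) (l 16774584))) (b (a (c (l 16775776) (b (l 15267270647) (l 16774768))) (l 16773064)) (l 16770560)))) (b (b (a (a (b (l 223036309671) (l 51774492199)) (l 16778008)) (l 16771312)) (a (l 16772880) (l 16767464))) (c (l 16769744) (a (l 16769656) (l 16761600))))) (b (a (a (b (c (l 16772088) (l 16772016)) (l 16770784)) (c (l 16764872) (l 16767304))) (a (l 16762040) (l 16756664))) (a (c (a (l 16762416) (l 16757152)) (a (l 16764800) (l 16756832))) (a (l 16754280) (l 16747616))))) (a (a (b (b (a (l 16757024) (l 16754392)) (c (l 16749304) (l 16748776))) (c (l 16736984) (b (l 16738032) (l 16729840)))) (b (b (l 16750432) (c (l 16741472) (l 16740856))) (b (a (l 16734448) (l 16731832)) (l 16725056)))) (b (c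 (b (l 16741440) (l 16736232)) (b (l 16743488) (a (l 16735544) (l 16730216)))) (b (c (l 16725720) (l 16730064)) (c (l 16717752) (l 16716688)))))) (b (b (a (a (b (l 16769192) (l 16756296)) (b (l 16758488) (l 16750856))) (b (l 16755480) (l 16745264))) (b (a (c (l 16746160) (l 16745728)) (l 16735056)) (a (c (l 16738520) (l 16737968)) (l 16727408)))) (b (c (a (b (l 16730816) (l 16723048)) (l 16718848)) (a (b (l 16732744) (l 16722192)) (b (l 16719288) (l 16711424)))) (b (a (c (l 16715216) (l 16714192)) (l 16704040)) (a (c (l 16707320) (l 16706120)) (l 16696128)))))), by decide +kernel⟩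

def k63_pm_011_t : ∃ t, chk3 f_pm_011_t t 25 27 1 = true :=
  ⟨(b (a (b (a (c (l 16746104) (l 16740368)) (l 16729400)) (a (b (l 16724056) (l 16716464)) (l 16711776))) (b (a (l 16718016) (l 16701184)) (a (l 16697872) (l 16686400)))) (a (b (c (a (l 16705408) (l 16694440)) (a (l 16707080) (l 16694752))) (a (c (l 16689984) (l 16688712)) (l 16678496))) (b (a (l 16682792) (l 16671456)) (a (l 16667480) (l 16656296))))), by decide +kernel⟩

def k64_pm_011_t : ∃ t, chk3 f_pm_011_t t 13 13 1 = true :=
  ⟨(b (a (b (a (a (b (b (l 16765400) (l 16746968)) (l 16745688)) (b (l 16750328) (l 16724208))) (b (l 1) (l 16721512))) (a (b (b (l 16728528) (l 16731312)) (b (l 16723752) (l 16716264))) (b (l 16704328) (l 16699744)))) (b (l 1) (a (a (l 16673144) (l 1)) (l 1)))) (a (b (a (b (l 16696016) (l 16680064)) (b (l 16664048) (l 16649392))) (a (b (a (l 16660216) (l 16649512)) (l 16639824)) (a (l 16632024) (l 16648904)))) (b (a (b (l 16647128) (l 16632496)) (b (l 1) (l 16619320))) (a (a (l 16614168) (l 16606592))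 (b (l 16604472) (l 16589368)))))), by decide +kernel⟩

def k65_pm_011_t : ∃ t, chk3 f_pm_011_t t 7 6 1 = true :=
  ⟨(b (l 1) (a (b (l 1) (a (b (l 1) (a (l 35466676567) (l 1))) (l 1))) (l 1))), by decide +kernel⟩

def k66_pm_011_t : ∃ t, chk3 f_pm_011_t t 12 28 1 = true :=
  ⟨(a (b (a (b (a (b (c (l 16720008) (l 16724208)) (c (l 16711888) (l 16710672))) (c (b (l 16709736) (l 16701672)) (b (l 16708496) (l 16700256)))) (a (c (b (l 16703736) (l 16695552)) (b (l 16702344) (l 16693976))) (c (b (l 16693568) (l 16685432)) (b (l 16691968) (l 16683648))))) (b (a (b (l 16698680) (l 16690584)) (c (l 16684928) (l 16683352))) (a (c (l 16684536) (l 16677440)) (c (l 16669000) (l 16667032))))) (b (a (a (c (b (l 16687368) (l 16679296)) (b (l 16685624) (l 16677392))) (c (b (l 16677304) (l 16669280)) (l 16676504))) (a (b (l 16666120) (l 16658072)) (b (l 16655872) (l 16647896)))) (a (a (c (b (l 16671392) (l 16663632)) (l 16675872)) (c (b (l 16661424) (l 16653720)) (l 16655224))) (a (c (l 16647584) (l 16645072))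 (c (l 16637560) (l 16634920)))))) (b (a (b (a (b (l 16677520) (l 16669576)) (l 16662832)) (a (b (l 16661584) (l 16653560)) (l 16647016))) (b (a (l 16651976) (l 16640952)) (a (l 16636320) (l 16625472)))) (a (b (a (b (l 16645544) (l 16637640)) (l 16631208)) (a (l 16636592) (l 16615880))) (b (a (l 16620696) (l 16610024)) (a (l 16605536) (l 16595064)))))), by decide +kernel⟩

def k67_pm_011_t : ∃ t, chk3 f_pm_011_t t 12 29 1 = true :=
  ⟨(a (b (a (b (a (c (b (l 16656024) (l 16648552)) (l 16649968)) (c (l 16652920) (l 16639912))) (a (c (l 16637616) (l 16635184)) (c (l 16627904) (l 16625248)))) (b (a (c (l 16632592) (l 16629880)) (l 16629152)) (c (a (l 16618184) (l 16608448)) (l 16620896)))) (a (b (a (c (l 16623520) (l 16620984)) (c (l 16613944) (l 16611208))) (b (a (l 16611920) (l 16612856)) (a (c (l 16606496) (l 16603776)) (l 16606192)))) (a (b (c (l 16604360) (l 16601448)) (b (c (l 16594312) (l 16591376)) (l 16586240))) (b (b (l 16596608) (l 16589888)) (b (l 16583296) (l 16576784)))))) (b (a (b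 (a (l 16611296) (l 16601232)) (a (l 16597120) (l 16587224))) (b (a (l 16591072) (l 16580792)) (a (l 16577240) (l 16567184)))) (a (b (b (a (l 16586888) (l 16577128)) (c (l 16597976) (l 16594800))) (c (l 16567384) (l 16564136))) (b (b (a (l 16567280) (l 16557328)) (l 16566392)) (c (l 16558672) (l 16565880)))))), by decide +kernel⟩

def k68_pm_011_t : ∃ t, chk3 f_pm_011_t t 13 14 1 = true :=
  ⟨(b (a (b (a (b (a (l 16630008) (l 16619504)) (a (l 16614688) (l 16604312))) (b (l 16604832) (l 16589744))) (a (b (a (l 16599408) (l 16589176)) (a (l 16584624) (l 16574536))) (b (l 16574736) (l 16560256)))) (b (a (b (l 16587752) (l 16572664)) (l 16587512)) (a (b (l 16557680) (l 16543248)) (b (l 16543752) (l 16529320))))) (a (a (b (b (a (l 16570544) (l 16560608)) (a (l 16578104) (l 16568296))) (b (c (l 16541096) (l 16537864)) (c (l 16528992) (l 16525688)))) (b (b (a (l 16551080) (l 16542096)) (a (l 16537880) (l 16528944))) (b (l 16541952) (c (l 16510920) (l 16507304))))) (a (b (b (l 16550560) (l 16516592))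 (b (l 16504288) (c (l 16494720) (l 16490376)))) (b (b (l 16515352) (l 16502432)) (l 6))))), by decide +kernel⟩

def k69_pm_011_t : ∃ t, chk3 f_pm_011_t t 6 15 1 = true :=
  ⟨(a (b (a (b (a (b (a (l 16595064) (l 16585768)) (a (l 16581896) (l 16572792))) (b (c (l 16573384) (l 16570272)) (c (l 16560776) (l 16557576)))) (a (b (c (l 16566128) (l 16562992)) (c (l 16553664) (l 16550424))) (b (l 16546800) (l 16534720)))) (b (b (a (c (l 16554840) (l 16551536)) (c (l 16536064) (l 16532728))) (a (l 16551432) (l 16543576))) (a (b (l 16550024) (l 16517472)) (b (l 16511168) (l 6))))) (b (a (a (b (a (l 16544112) (l 16535664)) (l 16528176)) (b (b (l 16525912) (l 16520200)) (l 6))) (l 6)) (a (a (b (l 16516696) (l 6)) (l 6)) (l 6)))) (b (a (b (a (c (l 16532528) (l 16529160)) (c (l 16493944) (l 16490256))) (l 6)) (l 6)) (l 6))), by decide +kernel⟩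

def k70_pm_011_t : ∃ t, chk3 f_pm_011_t t 7 7 1 = true :=
  ⟨(b (a (b (a (b (a (l 16554568) (l 16563504)) (a (b (l 16531544) (l 16516856)) (b (l 16519520) (l 16504504)))) (b (l 1) (l 6))) (a (b (a (l 16496336) (l 6)) (l 6)) (l 6))) (l 6)) (l 6)), by decide +kernel⟩

theorem s71_pm_011_t : ∃ t, chk3 f_pm_011_t t 12 14 1 = true := ex3_b k66_pm_011_t k67_pm_011_t

theorem s72_pm_011_t : ∃ t, chk3 f_pm_011_t t 6 14 1 = true := ex3_a s71_pm_011_t k68_pm_011_t

theorem s73_pm_011_t : ∃ t, chk3 f_pm_011_t t 6 7 1 = true := ex3_b s72_pm_011_t k69_pm_011_t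

theorem s74_pm_011_t : ∃ t, chk3 f_pm_011_t t 3 7 1 = true := ex3_a s73_pm_011_t k70_pm_011_t

theorem s75_pm_011_t : ∃ t, chk3 f_pm_011_t t 12 27 1 = true := ex3_a k62_pm_011_t k63_pm_011_t

theorem s76_pm_011_t : ∃ t, chk3 f_pm_011_t t 12 13 1 = true := ex3_b k61_pm_011_t s75_pm_011_t

theorem s77_pm_011_t : ∃ t, chk3 f_pm_011_t t 6 13 1 = true := ex3_a s76_pm_011_t k64_pm_011_t

theorem s78_pm_011_t : ∃ t, chk3 f_pm_011_t t 6 6 1 = true := ex3_b k60_pm_011_t s77_pm_011_t

theorem s79_pm_011_t : ∃ t, chk3 f_pm_011_t t 3 6 1 = true := ex3_a s78_pm_011_t k65_pm_011_t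

theorem s80_pm_011_t : ∃ t, chk3 f_pm_011_t t 3 3 1 = true := ex3_b s79_pm_011_t s74_pm_011_t

theorem s81_pm_011_t : ∃ t, chk3 f_pm_011_t t 10 15 1 = true := ex3_b k57_pm_011_t k58_pm_011_t

theorem s82_pm_011_t : ∃ t, chk3 f_pm_011_t t 5 15 1 = true := ex3_a s81_pm_011_t k59_pm_011_t

theorem s83_pm_011_t : ∃ t, chk3 f_pm_011_t t 23 28 1 = true := ex3_b k54_pm_011_t k55_pm_011_t

theorem s84_pm_011_t : ∃ t, chk3 f_pm_011_t t 22 57 1 = true := ex3_a k52_pm_011_t k53_pm_011_t

theorem s85_pm_011_t : ∃ t, chk3 f_pm_011_t t 45 112 1 = true := ex3_a k49_pm_011_t k50_pm_011_t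

theorem s86_pm_011_t : ∃ t, chk3 f_pm_011_t t 45 56 1 = true := ex3_b s85_pm_011_t k51_pm_011_t

theorem s87_pm_011_t : ∃ t, chk3 f_pm_011_t t 22 56 1 = true := ex3_a k48_pm_011_t s86_pm_011_t

theorem s88_pm_011_t : ∃ t, chk3 f_pm_011_t t 22 28 1 = true := ex3_b s87_pm_011_t s84_pm_011_t

theorem s89_pm_011_t : ∃ t, chk3 f_pm_011_t t 11 28 1 = true := ex3_a s88_pm_011_t s83_pm_011_t

theorem s90_pm_011_t : ∃ t, chk3 f_pm_011_t t 11 14 1 = true := ex3_b s89_pm_011_t k56_pm_011_t

theorem s91_pm_011_t : ∃ t, chk3 f_pm_011_t t 21 58 1 = true := ex3_a k45_pm_011_t k46_pm_011_t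

theorem s92_pm_011_t : ∃ t, chk3 f_pm_011_t t 21 29 1 = true := ex3_b s91_pm_011_t k47_pm_011_t

theorem s93_pm_011_t : ∃ t, chk3 f_pm_011_t t 20 29 1 = true := ex3_b k43_pm_011_t k44_pm_011_t

theorem s94_pm_011_t : ∃ t, chk3 f_pm_011_t t 10 29 1 = true := ex3_a s93_pm_011_t s92_pm_011_t

theorem s95_pm_011_t : ∃ t, chk3 f_pm_011_t t 43 57 1 = true := ex3_b k41_pm_011_t k42_pm_011_t

theorem s96_pm_011_t : ∃ t, chk3 f_pm_011_t t 21 57 1 = true := ex3_a k40_pm_011_t s95_pm_011_t

theorem s97_pm_011_t : ∃ t, chk3 f_pm_011_t t 21 28 1 = true := ex3_b k39_pm_011_t s96_pm_011_t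

theorem s98_pm_011_t : ∃ t, chk3 f_pm_011_t t 10 28 1 = true := ex3_a k38_pm_011_t s97_pm_011_t

theorem s99_pm_011_t : ∃ t, chk3 f_pm_011_t t 10 14 1 = true := ex3_b s98_pm_011_t s94_pm_011_t

theorem s100_pm_011_t : ∃ t, chk3 f_pm_011_t t 5 14 1 = true := ex3_a s99_pm_011_t s90_pm_011_t

theorem s101_pm_011_t : ∃ t, chk3 f_pm_011_t t 5 7 1 = true := ex3_b s100_pm_011_t s82_pm_011_t

theorem s102_pm_011_t : ∃ t, chk3 f_pm_011_t t 18 62 1 = true := ex3_a k34_pm_011_t k35_pm_011_t

theorem s103_pm_011_t : ∃ t, chk3 f_pm_011_t t 18 31 1 = true := ex3_b s102_pm_011_t k36_pm_011_t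

theorem s104_pm_011_t : ∃ t, chk3 f_pm_011_t t 9 31 1 = true := ex3_a s103_pm_011_t k37_pm_011_t

theorem s105_pm_011_t : ∃ t, chk3 f_pm_011_t t 19 60 1 = true := ex3_a k31_pm_011_t k32_pm_011_t

theorem s106_pm_011_t : ∃ t, chk3 f_pm_011_t t 19 30 1 = true := ex3_b s105_pm_011_t k33_pm_011_t

theorem s107_pm_011_t : ∃ t, chk3 f_pm_011_t t 36 61 1 = true := ex3_b k28_pm_011_t k29_pm_011_t

theorem s108_pm_011_t : ∃ t, chk3 f_pm_011_t t 18 61 1 = true := ex3_a s107_pm_011_t k30_pm_011_t

theorem s109_pm_011_t : ∃ t, chk3 f_pm_011_t t 18 30 1 = true := ex3_b k27_pm_011_t s108_pm_011_t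

theorem s110_pm_011_t : ∃ t, chk3 f_pm_011_t t 9 30 1 = true := ex3_a s109_pm_011_t s106_pm_011_t

theorem s111_pm_011_t : ∃ t, chk3 f_pm_011_t t 9 15 1 = true := ex3_b s110_pm_011_t s104_pm_011_t

theorem s112_pm_011_t : ∃ t, chk3 f_pm_011_t t 17 126 1 = true := ex3_a k24_pm_011_t k25_pm_011_t

theorem s113_pm_011_t : ∃ t, chk3 f_pm_011_t t 17 63 1 = true := ex3_b s112_pm_011_t k26_pm_011_t

theorem s114_pm_011_t : ∃ t, chk3 f_pm_011_t t 35 124 1 = true := ex3_a k21_pm_011_t k22_pm_011_t

theorem s115_pm_011_t : ∃ t, chk3 f_pm_011_t t 35 62 1 = true := ex3_b s114_pm_011_t k23_pm_011_t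

theorem s116_pm_011_t : ∃ t, chk3 f_pm_011_t t 69 125 1 = true := ex3_a k19_pm_011_t k20_pm_011_t

theorem s117_pm_011_t : ∃ t, chk3 f_pm_011_t t 68 251 1 = true := ex3_b k17_pm_011_t k18_pm_011_t

theorem s118_pm_011_t : ∃ t, chk3 f_pm_011_t t 68 125 1 = true := ex3_b k16_pm_011_t s117_pm_011_t

theorem s119_pm_011_t : ∃ t, chk3 f_pm_011_t t 34 125 1 = true := ex3_a s118_pm_011_t s116_pm_011_t

theorem s120_pm_011_t : ∃ t, chk3 f_pm_011_t t 34 62 1 = true := ex3_b k15_pm_011_t s119_pm_011_t

theorem s121_pm_011_t : ∃ t, chk3 f_pm_011_t t 17 62 1 = true := ex3_a s120_pm_011_t s115_pm_011_t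

theorem s122_pm_011_t : ∃ t, chk3 f_pm_011_t t 17 31 1 = true := ex3_b s121_pm_011_t s113_pm_011_t

theorem s123_pm_011_t : ∃ t, chk3 f_pm_011_t t 8 31 1 = true := ex3_a k14_pm_011_t s122_pm_011_t

theorem s124_pm_011_t : ∃ t, chk3 f_pm_011_t t 8 15 1 = true := ex3_b k13_pm_011_t s123_pm_011_t

theorem s125_pm_011_t : ∃ t, chk3 f_pm_011_t t 4 15 1 = true := ex3_a s124_pm_011_t s111_pm_011_t

theorem s126_pm_011_t : ∃ t, chk3 f_pm_011_t t 4 7 1 = true := ex3_b k12_pm_011_t s125_pm_011_t

theorem s127_pm_011_t : ∃ t, chk3 f_pm_011_t t 2 7 1 = true := ex3_a s126_pm_011_t s101_pm_011_t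

theorem s128_pm_011_t : ∃ t, chk3 f_pm_011_t t 92 111 1 = true := ex3_b k8_pm_011_t k9_pm_011_t

theorem s129_pm_011_t : ∃ t, chk3 f_pm_011_t t 46 111 1 = true := ex3_a s128_pm_011_t k10_pm_011_t

theorem s130_pm_011_t : ∃ t, chk3 f_pm_011_t t 46 55 1 = true := ex3_b k7_pm_011_t s129_pm_011_t

theorem s131_pm_011_t : ∃ t, chk3 f_pm_011_t t 23 55 1 = true := ex3_a s130_pm_011_t k11_pm_011_t

theorem s132_pm_011_t : ∃ t, chk3 f_pm_011_t t 23 27 1 = true := ex3_b k6_pm_011_t s131_pm_011_t

theorem s133_pm_011_t : ∃ t, chk3 f_pm_011_t t 11 27 1 = true := ex3_a k5_pm_011_t s132_pm_011_t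

theorem s134_pm_011_t : ∃ t, chk3 f_pm_011_t t 11 13 1 = true := ex3_b k4_pm_011_t s133_pm_011_t

theorem s135_pm_011_t : ∃ t, chk3 f_pm_011_t t 5 13 1 = true := ex3_a k3_pm_011_t s134_pm_011_t

theorem s136_pm_011_t : ∃ t, chk3 f_pm_011_t t 5 6 1 = true := ex3_b k2_pm_011_t s135_pm_011_t

theorem s137_pm_011_t : ∃ t, chk3 f_pm_011_t t 2 6 1 = true := ex3_a k1_pm_011_t s136_pm_011_t

theorem s138_pm_011_t : ∃ t, chk3 f_pm_011_t t 2 3 1 = true := ex3_b s137_pm_011_t s127_pm_011_t

theorem s139_pm_011_t : ∃ t, chk3 f_pm_011_t t 1 3 1 = true := ex3_a s138_pm_011_t s80_pm_011_t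

theorem s140_pm_011_t : ∃ t, chk3 f_pm_011_t t 1 1 1 = true := ex3_b k0_pm_011_t s139_pm_011_t

theorem c_pm_011_t : CertNE 0 536870912 536870912 536870912 697932185 42949674 3 eng mog cd0q0 cd0q1 pd1 false true false .pnn 0 1 1
    ndB0q0 ndB0q1 pcB1 cut_pm_011_t Ext.none :=
  certNE0 (fam := false) (s1 := true) (s2 := false) (a := 0) (b := 1) (c := 1) (cn := .pnn) (n1 := ndB0q0) (n2 := ndB0q1) (pc := pcB1) (cut := cut_pm_011_t) (xt := Ext.none) (P1 := 0) (W1 := 536870912) (P2 := 536870912) (W2 := 536870912) (P3 := 697932185) (W3 := 42949674) (N0 := 3) (En := eng) (mo := mog) (C1 := cd0q0) (C2 := cd0q1) (C3 := pd1)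
    rfl s140_pm_011_t

noncomputable def cut_pm_012_s : Cut := Cut.of [[⟨4, 0, 0, 1449551462⟩], [⟨0, 0, 0, 53687091⟩, ⟨1, 1, 0, 53687091⟩, ⟨2, 1, 0, 53687091⟩]]

noncomputable def f_pm_012_s : ℕ → ℕ → ℕ → ℕ → Bool := onCell 0 536870912 0 536870912 697932185 42949674
    (rowNE 3 eng mog cd0q0 cd0q2 pd1 0 false true false .pnp 0 1 2 (qsf 0 536870912 0 536870912 1) ndB0q0 ndB0q2 pcB1 cut_pm_012_s Ext.none)

def k0_pm_012_s : ∃ t, chk3 f_pm_012_s t 1 1 1 = true :=
  ⟨(a (l 6) (b (a (b (a (l 6) (b (a (l 6) (b (a (l 6) (l 6)) (l 6))) (l 6))) (l 6)) (b (a (b (a (b (a (l 16606560) (l 16621032)) (l 6)) (b (l 16642200) (a (l 16615768) (l 16628328)))) (l 6)) (b (a (b (l 16689512) (l 16668992)) (b (a (l 16687568) (l 16700096)) (a (l 16666520) (l 16678728)))) (a (b (a (l 16643600) (l 16654896)) (l 6)) (b (a (l 16645576) (l 16657776)) (a (l 16646696) (b (l 16641272) (l 16631160))))))) (l 6))) (l 6))), by decide +kernel⟩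

theorem c_pm_012_s : CertNE 0 536870912 0 536870912 697932185 42949674 3 eng mog cd0q0 cd0q2 pd1 false true false .pnp 0 1 2
    ndB0q0 ndB0q2 pcB1 cut_pm_012_s Ext.none :=
  certNE0 (fam := false) (s1 := true) (s2 := false) (a := 0) (b := 1) (c := 2) (cn := .pnp) (n1 := ndB0q0) (n2 := ndB0q2) (pc := pcB1) (cut := cut_pm_012_s) (xt := Ext.none) (P1 := 0) (W1 := 536870912) (P2 := 0) (W2 := 536870912) (P3 := 697932185) (W3 := 42949674) (N0 := 3) (En := eng) (mo := mog) (C1 := cd0q0) (C2 := cd0q2) (C3 := pd1)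
    rfl k0_pm_012_s

noncomputable def cut_pm_012_t : Cut := Cut.of [[⟨3, 0, 0, 2845415833⟩], [⟨0, 0, 0, 53687091⟩, ⟨1, 1, 0, 53687091⟩, ⟨2, 1, 0, 53687091⟩]]

noncomputable def f_pm_012_t : ℕ → ℕ → ℕ → ℕ → Bool := onCell 0 536870912 0 536870912 697932185 42949674
    (rowNE 3 eng mog cd0q0 cd0q2 pd1 0 false true false .pnp 0 1 2 (qsf 0 536870912 0 536870912 1) ndB0q0 ndB0q2 pcB1 cut_pm_012_t Ext.none)

def k0_pm_012_t : ∃ t, chk3 f_pm_012_t t 1 1 1 = true :=
  ⟨(b (l 6) (a (a (b (a (l 2) (a (a (a (l 2) (l 6)) (l 6)) (l 6))) (b (a (a (l 2) (b (a (l 2) (a (l 2) (b (l 2) (l 16617608)))) (b (a (l 2) (a (l 16619016) (l 16615744))) (a (l 14) (l 16626712))))) (a (a (b (b (l 16553080) (b (l 16587560) (l 16596552))) (b (l 16610264) (l 16628896))) (b (b (l 16568136) (l 16584872)) (l 16611248))) (b (b (l 6) (l 16572952)) (b (l 16588584) (l 16600976))))) (a (a (l 14) (a (l 14) (b (b (l 16657800) (b (l 16670176) (l 16676248))) (b (b (a (l 16686968) (l 16677904)) (a (l 16693224) (l 16683944))) (b (a (l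 16699416) (l 16689920)) (b (a (l 16703960) (l 16694296)) (a (l 16714792) (l 16697160)))))))) (b (a (a (b (l 16645344) (l 16656376)) (b (l 16630392) (l 16640568))) (b (l 16609472) (a (l 16625584) (l 16611384)))) (a (b (a (b (l 16664896) (l 16670608)) (l 16672080)) (b (a (l 16686744) (l 16658944)) (a (b (l 16701368) (a (l 16687720) (l 16678568))) (b (l 16662768) (l 16686224))))) (b (a (l 16635280) (l 16620240)) (a (b (l 16642480) (l 16668104)) (b (l 16626808) (l 16631040))))))))) (b (l 6) (b (a (a (b (l 6) (b (l 6) (l 16577464))) (l 6)) (l 6)) (a (b (a (a (l 16594128) (l 16581960)) (b (l 16562608) (l 16568232))) (a (b (a (l 16605936) (l 16592536)) (a (l 16613832) (l 16599608))) (a (b (l 16580112) (l 16586360)) (b (l 16568344) (b (l 16571928) (l 16573752)))))) (b (l 6) (a (b (a (l 16555784) (l 6)) (a (l 16558560) (l 16544288))) (b (l 6) (a (l 16529744) (l 6))))))))) (a (l 6) (l 6)))), by decide +kernel⟩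

theorem c_pm_012_t : CertNE 0 536870912 0 536870912 697932185 42949674 3 eng mog cd0q0 cd0q2 pd1 false true false .pnp 0 1 2
    ndB0q0 ndB0q2 pcB1 cut_pm_012_t Ext.none :=
  certNE0 (fam := false) (s1 := true) (s2 := false) (a := 0) (b := 1) (c := 2) (cn := .pnp) (n1 := ndB0q0) (n2 := ndB0q2) (pc := pcB1) (cut := cut_pm_012_t) (xt := Ext.none) (P1 := 0) (W1 := 536870912) (P2 := 0) (W2 := 536870912) (P3 := 697932185) (W3 := 42949674) (N0 := 3) (En := eng) (mo := mog) (C1 := cd0q0) (C2 := cd0q2) (C3 := pd1)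
    rfl k0_pm_012_t

noncomputable def cut_pm_022_s : Cut := Cut.of [[⟨4, 0, 0, 1449551462⟩], [⟨0, 0, 0, 67108864⟩, ⟨1, 1, 0, 67108864⟩, ⟨2, 1, 0, 67108864⟩]]

noncomputable def f_pm_022_s : ℕ → ℕ → ℕ → ℕ → Bool := onCell 1073741824 536870912 0 536870912 697932185 42949674
    (rowNE 3 eng mog cd0q0 cd0q2 pd2 2 false true false .pp 0 2 2 (qsf 0 536870912 0 536870912 2) ndB0q0 ndB0q2 pcB2 cut_pm_022_s Ext.none)

def k0_pm_022_s : ∃ t, chk3 f_pm_022_s t 1 1 1 = true :=
  ⟨(l 6), by decide +kernel⟩

theorem c_pm_022_s : CertNE 0 536870912 0 536870912 697932185 42949674 3 eng mog cd0q0 cd0q2 pd2 false true false .pp 0 2 2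
    ndB0q0 ndB0q2 pcB2 cut_pm_022_s Ext.none :=
  certNE2 (fam := false) (s1 := true) (s2 := false) (a := 0) (b := 2) (c := 2) (cn := .pp) (n1 := ndB0q0) (n2 := ndB0q2) (pc := pcB2) (cut := cut_pm_022_s) (xt := Ext.none) (P1 := 0) (W1 := 536870912) (P2 := 0) (W2 := 536870912) (P3 := 697932185) (W3 := 42949674) (N0 := 3) (En := eng) (mo := mog) (C1 := cd0q0) (C2 := cd0q2) (C3 := pd2)
    rfl (fun _ => rfl) k0_pm_022_s

noncomputable def cut_pm_022_t : Cut := Cut.of [[⟨3, 0, 0, 2845415833⟩], [⟨0, 0, 0, 67108864⟩, ⟨1, 1, 0, 67108864⟩, ⟨2, 1, 0, 67108864⟩]]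

noncomputable def f_pm_022_t : ℕ → ℕ → ℕ → ℕ → Bool := onCell 0 536870912 0 536870912 697932185 42949674
    (rowNE 3 eng mog cd0q0 cd0q2 pd2 0 false true false .pp 0 2 2 (qsf 0 536870912 0 536870912 2) ndB0q0 ndB0q2 pcB2 cut_pm_022_t Ext.none)

def k0_pm_022_t : ∃ t, chk3 f_pm_022_t t 1 1 1 = true :=
  ⟨(a (b (l 6) (a (b (b (l 6) (a (a (b (a (a (b (l 16570104) (l 16601056)) (b (l 6) (l 16581384))) (b (l 6) (l 16582272))) (a (b (a (b (l 16587728) (l 16593096)) (l 16591552)) (a (a (l 16601704) (l 16602344)) (l 16603008))) (b (l 16594808) (a (l 16603376) (l 16603264))))) (b (l 6) (b (a (l 16582912) (l 6)) (a (l 16596832) (a (l 16582672) (l 16572952)))))) (b (l 6) (a (l 6) (l 1))))) (a (b (b (b (a (a (a (b (l 16612000) (l 16629752)) (l 16626880)) (a (l 16616592) (l 16616296))) (a (l 16610096) (a (l 16594712) (l 16584128)))) (b (a (b (a (a (l 16625016) (l 16625688)) (l 16625640)) (l 14)) (a (l 16619608) (l 16618608))) (a (l 14) (a (l 14) (l 16623856))))) (a (l 14) (a (l 14) (a (l 14) (a (l 14)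 (l 1)))))) (a (l 14) (a (l 14) (l 1)))) (b (a (b (a (b (a (l 16573208) (l 16561960)) (a (l 16582632) (l 1))) (l 1)) (l 1)) (l 1)) (l 1)))) (b (l 1) (l 1)))) (l 1)), by decide +kernel⟩

theorem c_pm_022_t : CertNE 0 536870912 0 536870912 697932185 42949674 3 eng mog cd0q0 cd0q2 pd2 false true false .pp 0 2 2
    ndB0q0 ndB0q2 pcB2 cut_pm_022_t Ext.none :=
  certNE0 (fam := false) (s1 := true) (s2 := false) (a := 0) (b := 2) (c := 2) (cn := .pp) (n1 := ndB0q0) (n2 := ndB0q2) (pc := pcB2) (cut := cut_pm_022_t) (xt := Ext.none) (P1 := 0) (W1 := 536870912) (P2 := 0) (W2 := 536870912) (P3 := 697932185) (W3 := 42949674) (N0 := 3) (En := eng) (mo := mog) (C1 := cd0q0) (C2 := cd0q2) (C3 := pd2)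
    rfl k0_pm_022_t

noncomputable def cut_pm_101_s : Cut := Cut.of [[⟨4, 0, 0, 1449551462⟩], [⟨0, 1, 0, 67108864⟩, ⟨1, 0, 0, 67108864⟩, ⟨2, 1, 0, 67108864⟩], [⟨0, 0, 1, 20971520⟩, ⟨1, 1, 2, 20971520⟩, ⟨2, 1, 0, 33554432⟩]]

noncomputable def f_pm_101_s : ℕ → ℕ → ℕ → ℕ → Bool := onCell 536870912 536870912 536870912 536870912 697932185 42949674
    (rowNE 3 eng mog cd0q1 cd0q1 pd0 0 false true false .npn 1 0 1 (qsf 536870912 536870912 536870912 536870912 0) ndB0q1 ndB0q1 pcB0 cut_pm_101_s Ext.none)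

def k0_pm_101_s : ∃ t, chk3 f_pm_101_s t 1 1 1 = true :=
  ⟨(a (l 6) (b (l 6) (a (b (l 6) (b (l 6) (a (l 6) (b (l 6) (a (l 6) (b (l 6) (a (l 6) (c (l 16846840) (b (l 6) (l 16895184)))))))))) (b (a (l 6) (l 1)) (b (a (l 6) (b (l 1) (a (b (l 1) (a (b (l 1) (l 39762064023)) (l 1))) (l 1)))) (a (b (a (l 6) (b (a (l 6) (c (l 16841208) (l 16812616))) (a (b (l 16860336) (c (l 16856288) (l 16853752))) (b (c (l 16851512) (l 16846112)) (c (l 16845376) (l 16841408)))))) (a (a (b (a (l 6) (l 6)) (b (l 16834320) (a (l 16878600) (l 16869600)))) (c (b (l 16841760) (b (l 16857608) (l 16854720))) (b (b (l 16865448) (l 16862608)) (a (l 16842712) (l 16834000))))) (a (b (c (b (l 16851224) (l 16847040)) (b (l 16849984) (l 16847056))) (b (a (l 16847448) (l 16840920)) (c (l 16840392) (l 16821768)))) (b (c (b (l 16840160) (l 16835816)) (b (l 16837584) (a (l 16837624) (l 16831832)))) (b (c (l 16832096) (a (l 16835232) (l 16829408))) (c (l 16807800) (a (l 16833176) (l 16827312)))))))) (b (a (b (a (b (l 40298930343)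 (a (l 16847344) (l 14))) (b (l 1) (l 14))) (a (a (b (l 16841008) (l 16835504)) (l 14)) (l 14))) (b (l 1) (l 14))) (a (a (a (a (b (b (l 16832256) (l 16828496)) (b (l 16825336) (l 16822536))) (l 14)) (l 14)) (l 14)) (l 14))))))))), by decide +kernel⟩

theorem c_pm_101_s : CertNE 536870912 536870912 536870912 536870912 697932185 42949674 3 eng mog cd0q1 cd0q1 pd0 false true false .npn 1 0 1
    ndB0q1 ndB0q1 pcB0 cut_pm_101_s Ext.none :=
  certNE0 (fam := false) (s1 := true) (s2 := false) (a := 1) (b := 0) (c := 1) (cn := .npn) (n1 := ndB0q1) (n2 := ndB0q1) (pc := pcB0) (cut := cut_pm_101_s) (xt := Ext.none) (P1 := 536870912) (W1 := 536870912) (P2 := 536870912) (W2 := 536870912) (P3 := 697932185) (W3 := 42949674) (N0 := 3) (En := eng) (mo := mog) (C1 := cd0q1) (C2 := cd0q1) (C3 := pd0)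
    rfl k0_pm_101_s

noncomputable def cut_pm_101_t : Cut := Cut.of [[⟨3, 0, 0, 2845415833⟩], [⟨0, 1, 0, 67108864⟩, ⟨1, 0, 0, 67108864⟩, ⟨2, 1, 0, 67108864⟩], [⟨0, 0, 1, 20971520⟩, ⟨1, 1, 2, 20971520⟩, ⟨2, 1, 0, 33554432⟩]]

noncomputable def f_pm_101_t : ℕ → ℕ → ℕ → ℕ → Bool := onCell 536870912 536870912 536870912 536870912 697932185 42949674
    (rowNE 3 eng mog cd0q1 cd0q1 pd0 0 false true false .npn 1 0 1 (qsf 536870912 536870912 536870912 536870912 0) ndB0q1 ndB0q1 pcB0 cut_pm_101_t Ext.none)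

def k0_pm_101_t : ∃ t, chk3 f_pm_101_t t 8 8 1 = true :=
  ⟨(l 4), by decide +kernel⟩

def k1_pm_101_t : ∃ t, chk3 f_pm_101_t t 16 9 1 = true :=
  ⟨(b (l 4) (b (l 4) (a (l 4) (b (l 4) (a (l 4) (b (l 4) (a (l 4) (b (b (l 4) (a (l 4) (a (l 4) (a (l 117272735719) (l 87207966135))))) (b (a (l 4) (a (a (l 116198993959) (l 57143195255)) (l 16777096))) (a (a (l 4) (a (l 115662123431) (l 16775832))) (l 16777008))))))))))), by decide +kernel⟩

def k2_pm_101_t : ∃ t, chk3 f_pm_101_t t 17 18 1 = true :=
  ⟨(a (l 4) (b (l 4) (b (l 4) (a (l 4) (b (l 4) (a (l 4) (b (l 4) (a (l 4) (a (b (l 4) (a (b (l 4) (l 128010155479)) (b (l 128547026375) (l 16777224)))) (c (b (l 119420219175) (l 16777384)) (b (a (l 186529086807) (a (l 117809608039) (l 62511905047))) (l 16777224)))))))))))), by decide +kernel⟩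

def k3_pm_101_t : ∃ t, chk3 f_pm_101_t t 34 38 1 = true :=
  ⟨(b (l 4) (a (l 4) (b (l 4) (a (l 4) (b (a (l 4) (c (l 208540792727) (b (l 4) (a (l 4) (l 204245826455))))) (b (a (l 4) (c (a (l 198877117511) (l 58216936503)) (a (l 200487730119) (a (b (l 126399542599) (l 16777168)) (l 37278972599))))) (a (c (l 201024600631) (a (l 4) (l 196729633783))) (a (c (l 56069452967) (a (b (l 126399542471) (l 16777168)) (l 16776656))) (l 16777192))))))))), by decide +kernel⟩

def k4_pm_101_t : ∃ t, chk3 f_pm_101_t t 35 76 1 = true :=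
  ⟨(a (b (l 4) (a (l 4) (b (l 4) (a (l 4) (a (b (l 4) (c (l 114051511143) (c (b (l 128547025447) (l 16775848)) (b (l 163980508727) (l 55532582999))))) (c (b (l 116735865799) (l 16777360)) (b (a (a (l 191897796007) (l 124788929719)) (a (l 101166611639) (l 16776520))) (l 16777168)))))))) (b (a (b (l 4) (a (l 4) (a (b (l 4) (c (l 114051510247) (a (l 173107314135) (a (l 116735868327) (l 51237616103))))) (c (b (l 115125251911) (l 16777376)) (b (a (l 176328539575) (a (l 111367158567) (l 52311357751))) (l 16777192)))))) (b (a (a (b (l 4) (a (b (l 4) (l 125325801687)) (b (l 126399542855) (l 16777232)))) (c (b (l 117272735543) (l 16777376)) (b (c (l 118883349735) (b (l 185992215927) (l 105998449623))) (l 16777208)))) (c (l 16777616) (c (l 16777328) (l 16776488)))) (a (c (l 16777592) (b (l 16776712) (l 16777200))) (l 16775032)))) (a (b (b (a (a (l 4) (c (l 112977768407) (a (a (l 200487730535) (l 128010155015)) (a (l 111367159063) (l 48016390631))))) (c (l 16777472) (l 16776856))) (a (c (a (l 111367158263)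 (l 16777368)) (a (a (a (l 196192763271) (l 126936413287)) (a (l 103850966167) (l 16776520))) (l 16777184))) (l 16777408))) (c (l 16776416) (a (b (l 16777152) (l 16777104)) (l 16777096)))) (c (l 16778448) (c (l 16777496) (l 16776864)))))), by decide +kernel⟩

def k5_pm_101_t : ∃ t, chk3 f_pm_101_t t 35 77 1 = true :=
  ⟨(a (b (a (b (a (l 4) (l 4)) (a (c (l 211225147223) (c (l 211762017911) (l 211762017767))) (a (c (b (l 211225148327) (c (l 16775784) (l 64659387255))) (b (l 211225148183) (a (a (l 168812346967) (l 112440900311)) (a (l 53385099559) (l 16777168))))) (b (c (l 102777224439) (a (a (l 173107314231) (l 115125254807)) (a (l 56069454023) (l 16777168)))) (l 16777232))))) (b (a (a (b (l 4) (c (l 107072194311) (c (b (l 126399542023) (l 16777168)) (b (l 157001186279) (l 50700744967))))) (b (c (l 110293414647) (c (b (l 128010154567) (l 16777160)) (b (l 160759283287) (l 54995712247)))) (l 16777248))) (c (l 16777512) (l 16776936))) (c (l 16777632) (a (l 16777056) (l 16776952))))) (a (b (a (a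 (c (b (l 206393310199) (l 59827549127)) (b (l 207467051895) (a (b (l 194582150663) (l 16776504)) (l 40500197911)))) (b (b (a (l 194582150663) (a (l 110830287271) (l 16777208))) (c (l 16777224) (l 42110810567))) (l 16777216))) (c (l 16777448) (l 16777016))) (c (l 16777536) (a (l 16776976) (l 16776800)))) (c (l 16778016) (l 16776744)))) (a (b (c (l 16779536) (c (l 16777272) (l 16776648))) (c (l 16778816) (l 16776688))) (c (l 16774304) (l 16776320)))), by decide +kernel⟩

def k6_pm_101_t : ∃ t, chk3 f_pm_101_t t 34 78 1 = true :=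
  ⟨(a (b (l 4) (a (l 4) (b (b (l 4) (b (l 4) (a (l 4) (a (l 4) (a (l 4) (a (l 129083898039) (l 58216938311))))))) (b (a (l 4) (c (a (l 166664863143) (l 16777200)) (a (a (l 211762019367) (b (l 4) (l 109756545415))) (a (b (l 116198996503) (l 16777128)) (l 16777088))))) (a (a (l 4) (a (l 204245826711) (b (l 205856439735) (a (l 106535319815) (l 16777192))))) (c (l 24930941191) (a (c (l 16776464) (b (l 49090132343) (l 16777032))) (l 16776936)))))))) (b (a (b (b (l 4) (a (l 4) (c (l 195655891591) (a (l 4) (c (l 191360924791) (l 192434666551)))))) (b (a (l 4) (c (a (l 182770990311) (l 49627002327)) (a (c (l 187065957543) (l 188139699319)) (a (b (l 128010155671) (l 16777160)) (l 16777128))))) (a (c (l 189750311655) (a (l 4) (c (l 182770990295) (b (l 4) (l 171496701431))))) (a (a (b (a (l 125862672119) (l 109219674599)) (l 16777192)) (l 20635974871)) (l 16777144))))) (b (a (a (c (b (l 190824053911) (l 51774485911)) (a (b (l 4) (b (l 129620768375) (l 16777168))) (b (l 184918474087) (l 16777136)))) (b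 (c (l 53921969415) (a (b (l 128547026327) (l 16777168)) (l 16777144))) (l 16777168))) (c (l 16777392) (l 16776928))) (c (l 16777440) (a (l 16776888) (l 16776648))))) (a (b (a (a (c (b (l 174717926727) (l 16776216)) (b (c (l 178476023047) (b (l 4) (l 166127992359))) (a (b (l 115662124951) (l 16777136)) (l 16777096)))) (b (a (b (a (l 125862672167) (l 103314094695)) (l 16777184)) (l 16777176)) (l 16777120))) (c (l 16777320) (l 16776840))) (c (l 16777336) (a (l 16776784) (l 16776496)))) (c (l 16777608) (l 16776304))))), by decide +kernel⟩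

def k7_pm_101_t : ∃ t, chk3 f_pm_101_t t 34 79 1 = true :=
  ⟨(a (b (a (b (b (l 4) (a (l 4) (a (l 4) (a (l 191360924951) (b (l 115125253271) (l 16776520)))))) (b (a (l 4) (a (a (l 184918474055) (b (l 114588382327) (l 16777176))) (a (l 34594617959) (l 16777112)))) (a (a (l 4) (a (l 167738604935) (a (l 107609060471) (l 84523612119)))) (c (l 16777192) (l 16776952))))) (b (a (a (b (a (l 197266504919) (b (l 195655892471) (l 58216937943))) (c (l 16777200) (l 30299650599))) (c (l 16776552) (b (c (l 16777112) (l 33520876023)) (l 16776896)))) (c (l 16777248) (l 16776736))) (c (l 16777224) (a (l 16776680) (l 16776328))))) (a (a (b (a (b (a (l 114588380775) (a (l 104924706327) (l 53921970311))) (l 16777104)) (c (l 16777176) (l 16776928))) (l 16778144)) (c (l 16777136) (b (l 16776616) (l 16776152)))) (c (l 16777192) (l 16775856)))) (b (a (c (l 16777400) (l 16776088)) (c (l 16777776) (l 16775640))) (c (l 16777640) (l 16776408)))), by decide +kernel⟩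

def k8_pm_101_t : ∃ t, chk3 f_pm_101_t t 35 39 1 = true :=
  ⟨(b (a (a (b (c (l 16777808) (l 16776528)) (c (l 16778112) (l 16775984))) (c (l 16778664) (l 16776120))) (c (l 16774896) (a (l 16776168) (l 16776432)))) (a (c (l 16778864) (a (l 16775072) (l 16775048))) (c (l 16780976) (l 16775424)))), by decide +kernel⟩

def k9_pm_101_t : ∃ t, chk3 f_pm_101_t t 9 8 1 = true :=
  ⟨(a (a (l 4) (l 1)) (l 1)), by decide +kernel⟩

def k10_pm_101_t : ∃ t, chk3 f_pm_101_t t 18 36 1 = true :=
  ⟨(a (b (l 4) (a (l 4) (b (l 4) (a (l 4) (b (l 4) (a (l 4) (a (b (l 4) (a (l 199950859495) (b (l 194045279767) (l 56069454343)))) (a (b (l 199950859495) (b (l 56069454343) (l 16777360))) (b (l 1) (l 16777424)))))))))) (b (l 1) (a (b (l 1) (a (a (b (l 1) (b (l 1) (l 16777728))) (l 1)) (l 1))) (l 1)))), by decide +kernel⟩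

def k11_pm_101_t : ∃ t, chk3 f_pm_101_t t 36 74 1 = true :=
  ⟨(a (b (l 4) (a (l 4) (a (l 4) (b (l 4) (b (a (l 4) (b (l 195119020663) (a (l 126399542343) (l 52848228967)))) (c (a (l 123715186231) (l 16777400)) (a (c (l 158074928647) (b (l 204782697671) (l 112977770871))) (c (l 16777296) (l 16776568))))))))) (b (a (b (l 4) (a (l 4) (a (b (l 4) (a (l 197803375847) (b (l 191897796119) (l 54458841607)))) (a (b (l 198340246759) (b (l 54995712519) (l 16777368))) (b (b (l 192971537943) (l 54995712519)) (l 16777432)))))) (b (b (a (a (l 4) (a (l 199413988583) (b (l 194045279767) (l 54995712439)))) (c (l 16777568) (a (c (l 16777328) (l 16776608)) (l 16777528)))) (a (a (a (l 198877117671) (b (l 193508408855) (l 55532583431))) (c (l 16777432) (c (l 16777328) (l 16776600)))) (l 16777736))) (a (c (l 16776392) (c (l 16776248) (b (a (l 16776592) (l 16777400)) (l 16777440)))) (l 16778120)))) (a (b (b (a (a (l 4) (a (l 196729634039) (b (l 126399542407) (l 53921970711)))) (c (l 16777576) (a (c (l 16777312) (l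 16776584)) (l 16777456)))) (a (a (b (l 196192763127) (a (l 126399542343) (l 52848228887))) (c (l 16777408) (c (l 16777304) (l 16776576)))) (l 16777752))) (a (c (l 16776408) (c (l 16776176) (b (l 19562232343) (l 16777344)))) (l 16778120))) (c (l 16778840) (b (l 16778000) (l 16778288)))))), by decide +kernel⟩

def k12_pm_101_t : ∃ t, chk3 f_pm_101_t t 36 75 1 = true :=
  ⟨(a (b (a (b (l 4) (a (l 4) (a (b (l 4) (a (a (l 4) (l 182234119655)) (b (l 128547026135) (l 47479520055)))) (c (b (l 122104573351) (l 16777392)) (b (c (l 154853703207) (b (l 200487730423) (l 110830287319))) (l 26004683463)))))) (b (b (a (a (l 4) (a (a (l 4) (l 188139699639)) (b (l 125862671447) (l 50163874423)))) (c (l 16777568) (a (l 28689037975) (l 16777384)))) (a (c (a (l 122641444423) (l 16777400)) (a (c (l 155927445031) (b (l 202098343143) (l 111367158199))) (l 27615296135))) (l 16777656))) (a (c (l 16777704) (c (l 16777424) (b (l 16776576) (l 16777256)))) (l 16777952)))) (a (b (b (a (a (l 4) (a (b (l 4) (l 128010155255))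 (b (l 128010155239) (l 44795165495)))) (c (l 16777536) (a (l 16776584) (l 16777312)))) (a (c (a (l 119957089911) (l 16777384)) (a (a (l 189213441351) (a (l 118883349783) (l 62511904871))) (l 16776576))) (l 16777568))) (a (c (l 16777648) (c (l 16777360) (l 10972298039))) (l 16777800))) (c (l 16778904) (b (l 16777576) (l 16777688))))) (b (a (c (l 16778872) (b (l 16777776) (l 16777976))) (c (l 16780112) (l 16778672))) (c (l 16780752) (a (l 16778232) (l 16779096))))), by decide +kernel⟩

def k13_pm_101_t : ∃ t, chk3 f_pm_101_t t 37 37 1 = true :=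
  ⟨(b (a (b (a (c (l 16778816) (b (l 16778176) (l 16778616))) (l 88617251783)) (c (l 16780640) (a (l 16779144) (l 16780304)))) (c (l 16775896) (l 87006637479))) (a (c (l 16777376) (b (l 16780408) (l 16780936))) (c (l 16785328) (l 16783424)))), by decide +kernel⟩

def k14_pm_101_t : ∃ t, chk3 f_pm_101_t t 19 18 1 = true :=
  ⟨(b (l 1) (a (b (l 1) (a (l 16776384) (l 1))) (l 1))), by decide +kernel⟩

def k15_pm_101_t : ∃ t, chk3 f_pm_101_t t 9 19 1 = true :=
  ⟨(a (b (a (b (a (b (a (c (l 16778672) (c (l 16777720) (l 16777096))) (c (l 16779984) (l 16777824))) (c (l 16775008) (l 16776344))) (c (l 16777512) (a (l 16778600) (l 16779568)))) (a (c (l 16776288) (a (l 16777328) (l 16777920))) (c (l 16785088) (l 16779304)))) (b (a (c (l 16785560) (l 16781576)) (l 16776808)) (a (l 16775440) (l 16790464)))) (b (a (a (c (l 16782936) (l 16777272)) (l 16777752)) (a (l 16787000) (l 16792232))) (a (c (l 16775544) (a (l 16776680) (l 16778896))) (c (l 16796608) (a (l 16782168) (l 16786608)))))) (b (a (b (c (l 16771840)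 (l 16768464)) (a (l 16793360) (l 16796304))) (b (l 1) (l 76269235895))) (a (c (b (l 16800456) (l 16804592)) (b (l 16795352) (l 16774840))) (c (l 16788520) (c (l 16805192) (l 16781296)))))), by decide +kernel⟩

def k16_pm_101_t : ∃ t, chk3 f_pm_101_t t 16 40 1 = true :=
  ⟨(a (b (l 4) (a (l 4) (b (l 4) (a (b (l 4) (a (l 4) (l 199413986759))) (b (a (l 4) (a (b (l 4) (l 105461575287)) (b (l 108145929191) (l 16777008)))) (a (c (a (l 117809603159) (l 41573936759)) (b (l 116198990311) (l 41037066119))) (l 16776736))))))) (b (a (b (l 4) (a (l 4) (b (a (l 4) (b (l 179012893175) (a (l 115125249927) (l 16775800)))) (a (a (a (l 4) (l 163980508135)) (b (l 114588378919) (l 16777104))) (c (l 16777072) (l 16776144)))))) (b (a (b (a (l 4) (a (l 201024600343) (b (l 206393310039) (a (l 109219672423) (l 16777144))))) (b (a (l 186529085815) (c (l 16775824) (l 44795163191))) (a (a (l 115662120855) (l 51237614183)) (l 16776936)))) (b (a (a (b (a (l 112440898023) (l 16777144)) (l 16777048)) (l 16776984)) (l 16778088))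 (c (l 16776984) (l 16776192)))) (b (a (a (c (l 16775776) (b (l 16775664) (l 16776720))) (l 16776664)) (l 16776248)) (a (c (l 16776856) (l 16776024)) (l 16775896))))) (a (b (a (b (a (l 4) (a (b (l 4) (l 116735863447)) (b (l 117809605207) (l 16777080)))) (a (a (b (l 4) (l 111367154631)) (b (l 114051509127) (l 16777048))) (c (l 16777008) (l 16776688)))) (c (b (l 16775632) (l 16776712)) (b (a (l 16776752) (l 16776200)) (l 16775832)))) (a (b (a (l 16776792) (l 16776376)) (l 16776080)) (c (l 16776328) (l 16774856)))) (a (c (l 16776360) (b (l 16775128) (l 16773888))) (c (l 16776296) (l 16773680)))))), by decide +kernel⟩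

def k17_pm_101_t : ∃ t, chk3 f_pm_101_t t 17 40 1 = true :=
  ⟨(a (b (a (b (a (c (l 16776984) (l 16775624)) (c (l 16777104) (l 16774952))) (c (l 16776856) (l 16774296))) (c (b (l 16777656) (l 16777632)) (b (l 16774288) (l 16773440)))) (a (c (c (l 16777496) (l 16775592)) (c (l 16773696) (l 16771800))) (c (l 16777544) (l 16772096)))) (a (b (c (l 16779184) (l 16773712)) (c (l 16779360) (l 16772200))) (b (c (l 16781584) (b (l 16774608) (l 16774024))) (l 16777576)))), by decide +kernel⟩

def k18_pm_101_t : ∃ t, chk3 f_pm_101_t t 8 41 1 = true :=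
  ⟨(b (a (a (a (b (a (l 4) (b (l 4) (a (l 4) (c (l 192434665383) (l 191897794231))))) (a (b (l 4) (a (l 4) (c (l 175791667495) (l 175254796391)))) (b (a (c (l 184381601895) (l 183307859847)) (a (b (l 119420217287) (l 16777056)) (l 16775616))) (a (a (b (l 117809604999) (l 16777000)) (l 16776872)) (l 16776432))))) (b (a (b (a (c (l 201024599799) (l 198877115895)) (c (b (l 114588377783) (l 16777080)) (b (l 112440896871) (l 16776944)))) (a (c (b (l 117809605447) (l 16777048)) (b (l 107609061527) (l 16776888))) (l 16776600))) (c (l 16776536) (a (l 16776096) (l 16775448)))) (a (c (l 16778976) (a (l 16775888) (l 16775192))) (l 16775000)))) (a (a (c (l 16775736) (l 16776448)) (c (l 16775480) (l 16772808))) (c (l 16775424) (c (l 16772536) (l 16770624))))) (a (a (c (l 16775960) (l 16770512)) (c (l 16777272) (l 16770144))) (a (c (l 16779408) (l 16770536)) (l 16777072)))) (a (a (a (b (a (b (b (a (l 4) (c (l 51237612327) (l 50700741591))) (a (c (l 118883344167) (l 118346473479)) (l 16776784))) (a (a (b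 (l 99555995047) (l 16776864)) (l 16776720)) (l 16776248))) (c (l 16778760) (a (l 16775656) (l 16774912)))) (a (c (l 16779832) (b (l 16775464) (l 16774520))) (l 16774296))) (c (a (l 16774992) (l 16774528)) (a (l 16773016) (l 16771808)))) (a (c (l 16774176) (a (l 16770760) (l 16769872))) (c (l 16774320) (l 16768856)))) (a (a (c (l 16775192) (l 16768080)) (c (l 16776832) (l 16768008))) (a (l 16773992) (l 16776416))))), by decide +kernel⟩

def k19_pm_101_t : ∃ t, chk3 f_pm_101_t t 8 21 1 = true :=
  ⟨(a (a (b (a (b (b (a (c (l 16774720) (l 16773072)) (l 16772816)) (b (a (a (l 16772976) (l 16772416)) (l 16771664)) (a (a (l 16772144) (l 16771600)) (l 16770872)))) (a (c (l 16771424) (l 16768024)) (b (c (a (l 16771696) (l 16771464)) (a (l 16768048) (l 16767424))) (l 16767976)))) (b (c (l 16775376) (c (l 16769856) (l 16767920))) (b (c (l 16771072) (l 16766080)) (a (c (a (l 16770000) (l 16769896)) (a (l 16764872) (l 16764368))) (l 16766768))))) (b (a (c (l 16768160) (l 16763128)) (a (l 16764744) (b (c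 (l 16768584) (a (l 16761936) (l 16761552))) (l 16763512)))) (a (c (l 16764824) (l 16758648)) (c (l 16764936) (l 16757040))))) (b (a (b (c (l 16772504) (l 16767072)) (c (l 16770560) (l 16763592))) (b (c (l 16772984) (l 16765920)) (c (l 16771384) (l 16762744)))) (a (b (a (b (l 16764920) (c (l 16767528) (l 16759136))) (c (l 16768552) (l 16759656))) (a (l 16760880) (b (c (l 16766776) (l 16756816)) (l 16760216)))) (b (c (l 16769512) (l 16759328)) (a (b (l 16762072) (c (l 16766352) (l 16754784))) (c (l 16767896) (l 16755760))))))) (b (b (a (a (c (l 16774192) (l 16765440)) (c (l 16776184) (l 16765672))) (a (l 16772824) (l 16775600))) (a (a (c (l 16772960) (l 16762576)) (l 16769208)) (a (l 16771464) (l 16774584)))) (b (a (a (c (l 16771456) (l 16759480)) (l 16767264)) (a (l 16769872) (l 16773360))) (a (a (l 16762944) (l 16765088)) (a (l 16768056) (l 16771904)))))), by decide +kernel⟩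

def k20_pm_101_t : ∃ t, chk3 f_pm_101_t t 9 10 1 = true :=
  ⟨(c (a (b (b (a (b (l 16787048) (l 16787968)) (b (l 16798160) (l 16799664))) (a (a (l 16786752) (l 16791944)) (l 16801952))) (b (a (l 16790464) (l 16804656)) (a (l 16790920) (l 16806736)))) (b (b (a (l 16789608) (l 16797832)) (a (l 16818176) (l 16827304))) (a (b (l 16824008) (l 16827760)) (b (l 16834456) (l 16840752))))) (a (b (b (a (b (c (l 16779512) (a (l 16773600) (l 16775592))) (a (l 16774896) (l 16777632))) (c (l 16787784) (b (l 16780608) (l 16779856)))) (a (b (l 16775248) (l 16774168)) (c (l 16787920) (l 16778640)))) (b (a (b (l 16772944) (l 16771552)) (b (l 16782376) (l 16781672))) (a (l 16769136) (l 16780320)))) (b (b (a (c (l 16801096) (b (l 16791464) (l 16791176))) (c (l 16814168) (l 16787400))) (a (c (l 16802320) (l 16790768)) (c (l 16822624) (l 16808568)))) (b (a (l 16796632) (l 16816872)) (a (l 16796264) (l 16817880)))))), by decide +kernel⟩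

def k21_pm_101_t : ∃ t, chk3 f_pm_101_t t 4 11 1 = true :=
  ⟨(a (b (a (a (b (a (b (c (l 16761152) (l 16753952)) (c (l 16757112) (l 16748992))) (b (c (l 16761664) (l 16752696)) (l 16753080))) (b (a (l 16748232) (l 16748624)) (a (l 16743016) (l 16743800)))) (b (a (b (l 16757536) (l 16753840)) (b (a (l 16758240) (b (l 16759648) (l 16758152))) (l 16755304))) (b (a (l 16749808) (l 16751720)) (a (l 16745400) (l 16747776))))) (a (b (a (b (a (b (l 16760448) (l 16759032)) (l 16760784)) (b (a (l 16757568) (l 16758720)) (l 16756656))) (b (l 16762720) (a (b (l 16760072) (l 16758736)) (l 16761008)))) (b (a (l 16754296) (b (a (l 16757360) (l 16759080)) (l 16756808))) (a (l 16750832) (l 16754552)))) (a (b (b (l 16766024) (l 16763816)) (b (a (l 16760392) (l 16762584)) (b (l 16759608) (l 16758288)))) (b (l 16769312) (b (l 16766312) (b (l 16764688) (l 16763576))))))) (a (b (a (b (a (l 16737408) (l 16738560)) (l 16732072)) (b (a (l 16740584) (l 16743416)) (l 16736928))) (a (b (l 16725984) (l 16719544)) (b (l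 16731616) (l 16725928)))) (b (a (b (l 16748984) (l 16744984)) (b (a (l 16756136) (l 16761808)) (l 16755936))) (a (b (l 16740616) (l 16735840)) (c (l 16764088) (l 16737328)))))) (b (a (b (a (c (l 16790288) (l 16765136)) (c (l 16807664) (l 16777688))) (a (b (l 16775424) (l 16773728)) (b (l 16791376) (l 16790344)))) (b (a (l 16812560) (l 16838416)) (a (l 16791224) (l 16839392)))) (a (b (a (b (a (l 16768304) (l 16775800)) (a (l 16766176) (l 16774048))) (c (l 16806608) (l 16770464))) (a (b (a (l 16763696) (l 16772136)) (l 16765176)) (c (l 16805032) (b (l 16767384) (l 16765360))))) (b (c (l 16825960) (a (l 16790344) (l 16815824))) (c (l 16847264) (a (l 16787352) (l 6))))))), by decide +kernel⟩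

def k22_pm_101_t : ∃ t, chk3 f_pm_101_t t 5 2 1 = true :=
  ⟨(b (a (b (l 1) (a (a (b (l 1) (b (l 1) (c (l 16795536) (c (l 16811120) (l 16786480))))) (l 1)) (l 1))) (l 1)) (b (b (a (a (c (b (a (l 16805784) (l 16833040)) (a (l 16836200) (l 16843392))) (b (a (c (l 16821024) (l 16796144)) (c (l 16826304) (l 16821720))) (a (c (l 16830504) (l 16826624)) (c (l 16836680) (l 16832112))))) (b (l 1) (a (c (l 16848296) (l 34930232503)) (l 1)))) (l 1)) (a (a (b (a (c (l 16844216) (l 16816256)) (c (l 16852288) (l 16822968))) (a (c (l 16851288) (l 16845400)) (c (l 16860176) (l 16852944)))) (b (a (c (l 16858056) (l 16827552)) (c (l 16861960) (l 16830360))) (a (c (l 16866760) (l 16858344)) (l 6)))) (b (l 1) (l 6)))) (a (b (a (a (b (c (l 16859144) (l 16847832)) (l 16845768)) (b (c (l 16868792) (l 16862768)) (l 6))) (l 6)) (l 6)) (l 6)))), by decide +kernel⟩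

def k23_pm_101_t : ∃ t, chk3 f_pm_101_t t 2 3 1 = true :=
  ⟨(b (a (a (b (b (a (b (a (c (l 16715656) (l 16702488)) (c (l 16725136) (l 16707920))) (a (l 16692976) (l 16701808))) (b (c (l 16746816) (a (l 16716760) (l 16728608))) (a (l 16714792) (l 16731400)))) (a (b (a (c (l 16678776) (l 16664656)) (l 16681840)) (a (b (l 16651736) (l 16636752)) (l 16655200))) (b (a (l 16696632) (l 16715520)) (a (l 16671576) (l 6))))) (b (a (b (a (b (l 16622616) (l 16610768)) (l 6)) (l 6)) (l 6)) (l 6))) (b (b (a (b (a (c (l 16776968) (l 16743616)) (c (l 16802008) (l 16762040))) (a (l 16751768) (l 6))) (l 6)) (l 6)) (l 6))) (l 6)) (l 6)), by decide +kernel⟩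

def k24_pm_101_t : ∃ t, chk3 f_pm_101_t t 3 1 1 = true :=
  ⟨(b (a (b (l 1) (l 6)) (l 1)) (l 6)), by decide +kernel⟩

theorem s25_pm_101_t : ∃ t, chk3 f_pm_101_t t 8 40 1 = true := ex3_a k16_pm_101_t k17_pm_101_t

theorem s26_pm_101_t : ∃ t, chk3 f_pm_101_t t 8 20 1 = true := ex3_b s25_pm_101_t k18_pm_101_t

theorem s27_pm_101_t : ∃ t, chk3 f_pm_101_t t 8 10 1 = true := ex3_b s26_pm_101_t k19_pm_101_t

theorem s28_pm_101_t : ∃ t, chk3 f_pm_101_t t 4 10 1 = true := ex3_a s27_pm_101_t k20_pm_101_t

theorem s29_pm_101_t : ∃ t, chk3 f_pm_101_t t 4 5 1 = true := ex3_b s28_pm_101_t k21_pm_101_t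

theorem s30_pm_101_t : ∃ t, chk3 f_pm_101_t t 36 37 1 = true := ex3_b k11_pm_101_t k12_pm_101_t

theorem s31_pm_101_t : ∃ t, chk3 f_pm_101_t t 18 37 1 = true := ex3_a s30_pm_101_t k13_pm_101_t

theorem s32_pm_101_t : ∃ t, chk3 f_pm_101_t t 18 18 1 = true := ex3_b k10_pm_101_t s31_pm_101_t

theorem s33_pm_101_t : ∃ t, chk3 f_pm_101_t t 9 18 1 = true := ex3_a s32_pm_101_t k14_pm_101_t

theorem s34_pm_101_t : ∃ t, chk3 f_pm_101_t t 9 9 1 = true := ex3_b s33_pm_101_t k15_pm_101_t

theorem s35_pm_101_t : ∃ t, chk3 f_pm_101_t t 9 4 1 = true := ex3_b k9_pm_101_t s34_pm_101_t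

theorem s36_pm_101_t : ∃ t, chk3 f_pm_101_t t 34 39 1 = true := ex3_b k6_pm_101_t k7_pm_101_t

theorem s37_pm_101_t : ∃ t, chk3 f_pm_101_t t 17 39 1 = true := ex3_a s36_pm_101_t k8_pm_101_t

theorem s38_pm_101_t : ∃ t, chk3 f_pm_101_t t 35 38 1 = true := ex3_b k4_pm_101_t k5_pm_101_t

theorem s39_pm_101_t : ∃ t, chk3 f_pm_101_t t 17 38 1 = true := ex3_a k3_pm_101_t s38_pm_101_t

theorem s40_pm_101_t : ∃ t, chk3 f_pm_101_t t 17 19 1 = true := ex3_b s39_pm_101_t s37_pm_101_t

theorem s41_pm_101_t : ∃ t, chk3 f_pm_101_t t 17 9 1 = true := ex3_b k2_pm_101_t s40_pm_101_t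

theorem s42_pm_101_t : ∃ t, chk3 f_pm_101_t t 8 9 1 = true := ex3_a k1_pm_101_t s41_pm_101_t

theorem s43_pm_101_t : ∃ t, chk3 f_pm_101_t t 8 4 1 = true := ex3_b k0_pm_101_t s42_pm_101_t

theorem s44_pm_101_t : ∃ t, chk3 f_pm_101_t t 4 4 1 = true := ex3_a s43_pm_101_t s35_pm_101_t

theorem s45_pm_101_t : ∃ t, chk3 f_pm_101_t t 4 2 1 = true := ex3_b s44_pm_101_t s29_pm_101_t

theorem s46_pm_101_t : ∃ t, chk3 f_pm_101_t t 2 2 1 = true := ex3_a s45_pm_101_t k22_pm_101_t

theorem s47_pm_101_t : ∃ t, chk3 f_pm_101_t t 2 1 1 = true := ex3_b s46_pm_101_t k23_pm_101_t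

theorem s48_pm_101_t : ∃ t, chk3 f_pm_101_t t 1 1 1 = true := ex3_a s47_pm_101_t k24_pm_101_t

theorem c_pm_101_t : CertNE 536870912 536870912 536870912 536870912 697932185 42949674 3 eng mog cd0q1 cd0q1 pd0 false true false .npn 1 0 1
    ndB0q1 ndB0q1 pcB0 cut_pm_101_t Ext.none :=
  certNE0 (fam := false) (s1 := true) (s2 := false) (a := 1) (b := 0) (c := 1) (cn := .npn) (n1 := ndB0q1) (n2 := ndB0q1) (pc := pcB0) (cut := cut_pm_101_t) (xt := Ext.none) (P1 := 536870912) (W1 := 536870912) (P2 := 536870912) (W2 := 536870912) (P3 := 697932185) (W3 := 42949674) (N0 := 3) (En := eng) (mo := mog) (C1 := cd0q1) (C2 := cd0q1) (C3 := pd0)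
    rfl s48_pm_101_t

noncomputable def cut_pm_102_s : Cut := Cut.of [[⟨4, 0, 0, 1449551462⟩], [⟨0, 1, 0, 33554432⟩, ⟨1, 0, 0, 33554432⟩, ⟨2, 1, 0, 33554432⟩], [⟨0, 0, 1, 20971520⟩, ⟨1, 1, 2, 20971520⟩, ⟨2, 1, 0, 33554432⟩]]

noncomputable def f_pm_102_s : ℕ → ℕ → ℕ → ℕ → Bool := onCell 536870912 536870912 0 536870912 697932185 42949674
    (rowNE 3 eng mog cd0q1 cd0q2 pd0 0 false true false .npp 1 0 2 (qsf 536870912 536870912 0 536870912 0) ndB0q1 ndB0q2 pcB0 cut_pm_102_s Ext.none)

def k0_pm_102_s : ∃ t, chk3 f_pm_102_s t 4 2 1 = true :=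
  ⟨(b (l 2) (a (l 2) (b (l 2) (a (l 2) (b (l 2) (l 16604032)))))), by decide +kernel⟩

def k1_pm_102_s : ∃ t, chk3 f_pm_102_s t 20 4 1 = true :=
  ⟨(a (l 2) (b (l 3) (a (b (l 2) (b (l 16749360) (b (l 16739552) (l 16732776)))) (b (b (b (l 3) (a (a (l 2) (b (l 3) (b (c (l 145122917959) (l 144586047047)) (l 16775904)))) (b (l 3) (a (b (l 3) (c (l 146733530583) (l 145659788775))) (l 3))))) (b (a (l 16776072) (b (a (l 42043705079) (b (c (l 147807272327) (l 147270401415)) (l 16776016))) (l 16772592))) (l 16776232))) (b (c (l 16776984) (l 16776120)) (l 16741960)))))), by decide +kernel⟩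

def k2_pm_102_s : ∃ t, chk3 f_pm_102_s t 21 8 1 = true :=
  ⟨(l 3), by decide +kernel⟩

def k3_pm_102_s : ∃ t, chk3 f_pm_102_s t 21 18 1 = true :=
  ⟨(a (b (l 3) (a (b (a (b (a (b (l 3) (c (l 149417884999) (l 148881014087))) (l 3)) (a (b (l 49559897879) (l 16774408)) (b (c (l 151028497655) (l 150491626727)) (c (l 16776152) (l 16777464))))) (b (l 3) (a (b (l 3) (l 151565368471)) (l 3)))) (a (l 16776192) (b (a (b (c (l 53317994039) (l 50633639559)) (l 16774536)) (b (l 153175981111) (c (l 54391736055) (l 52781123223)))) (l 16772792)))) (b (l 3) (a (b (c (l 160155303735) (l 159618432743)) (a (a (l 16775112) (a (l 44728059223) (b (l 130090534039) (l 16775392)))) (b (l 155860335463) (a (l 16776088) (a (l 16776792) (l 133311759543)))))) (b (l 3) (a (l 159081559943) (l 3))))))) (l 3)), by decide +kernel⟩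

def k4_pm_102_s : ∃ t, chk3 f_pm_102_s t 21 19 1 = true :=
  ⟨(a (b (a (b (c (l 16776368) (l 16775984)) (l 16758648)) (b (a (l 16777640) (b (a (a (l 16775264) (b (a (l 60834186391) (l 137069855863)) (l 16775320))) (b (l 158007818887) (a (l 16776248) (a (l 63518540983) (l 140827952135))))) (l 16778272))) (l 16776136))) (a (l 16748288) (b (l 16779408) (l 16751336)))) (b (a (b (a (b (a (l 159618430599) (l 3)) (a (b (a (l 16777632) (a (l 66739766519) (l 144586048439))) (l 16775008)) (b (l 159618431383) (a (l 51707381143) (a (l 131701141543) (l 148881015591)))))) (b (l 3) (a (l 159081559415) (l 3)))) (a (b (l 16777104) (l 16769424)) (b (a (b (c (a (l 54928606535) (l 146196659783)) (a (l 53317993799) (l 146196659799))) (l 16775208)) (b (l 162302785703) (a (b (l 130090533991) (l 16776248)) (a (l 139217339431) (l 156397206775))))) (a (l 16772344) (l 16776976))))) (b (l 3) (a (b (l 3) (a (b (a (b (l 134922372135) (l 16776368)) (a (l 147270401607) (l 157470948487))) (l 16778056)) (b (l 3) (a (b (l 139754210263)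 (l 16776488)) (l 152639111703))))) (l 3)))) (a (b (a (l 16763856) (l 16778120)) (l 16768744)) (b (a (a (l 16775888) (b (c (l 16777328) (l 16777176)) (l 16770776))) (b (a (b (a (b (l 144586048327) (l 16776600)) (l 154249722999)) (c (l 39896220807) (l 38285608007))) (a (b (l 3) (b (l 151028497927) (l 54928606231))) (l 156934079127))) (a (l 16772832) (a (l 16774376) (a (l 16777768) (b (b (l 65129153367) (l 16776136)) (l 16774696))))))) (a (l 16764032) (l 16778624)))))), by decide +kernel⟩

def k5_pm_102_s : ∃ t, chk3 f_pm_102_s t 11 4 1 = true :=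
  ⟨(b (l 3) (a (b (l 3) (a (b (l 3) (a (b (a (b (l 3) (a (b (a (b (l 153712852359) (a (l 16776640) (l 68887249687))) (l 155860335479)) (a (l 16775472) (a (l 16776232) (b (l 129553662711) (l 16776272))))) (b (l 3) (a (b (l 155323464967) (a (l 16776760) (l 133311759031))) (l 154249722615))))) (l 3)) (a (b (b (a (l 16774072) (a (l 16775616) (b (a (l 16777472) (l 136532984471)) (l 16776160)))) (l 16778440)) (l 16775592)) (b (b (a (a (b (l 159618432135) (a (l 57612960487) (l 140291080791))) (l 3)) (l 3)) (a (a (l 16775760) (b (a (c (l 61907927703) (l 60834185879)) (l 143512306183)) (l 16776304))) (a (a (b (l 3) (b (l 135459242455) (l 16776832))) (l 153175982567)) (l 3)))) (a (l 16778672) (b (b (a (l 16776376) (a (b (l 140827951511) (l 16776896)) (l 151028498007))) (c (l 16777296) (l 16777200))) (l 16777152)))))) (b (l 3) (a (b (l 3) (a (a (a (b (b (l 3) (b (l 146196660487) (l 16776952))) (l 16775800)) (b (l 153712852023) (c (l 39896220183) (l 38822478375)))) (b (l 3) (a (b (b (l 151565369527) (l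 61907927495)) (l 16776344)) (b (l 153175981511) (c (l 53317993079) (l 52244251271)))))) (b (l 3) (b (l 3) (b (l 159081562295) (a (a (c (l 66739765783) (l 65666023943)) (l 152639110759)) (l 3))))))) (l 3))))) (l 3))) (l 3))), by decide +kernel⟩

def k6_pm_102_s : ∃ t, chk3 f_pm_102_s t 10 5 1 = true :=
  ⟨(b (a (b (a (l 16724664) (b (a (l 16721568) (l 16739496)) (l 16710000))) (a (l 16675304) (l 16689048))) (a (b (b (a (b (l 16737824) (l 16731216)) (l 16740376)) (a (l 16720136) (b (l 16730408) (l 16723032)))) (l 16723624)) (b (b (a (l 16768288) (b (l 16769008) (l 16751032))) (a (b (l 16736016) (l 16729576)) (l 16760464))) (b (a (l 16718976) (b (l 16729408) (l 16722392))) (l 16709448))))) (a (b (a (l 16679640) (l 16663976)) (a (l 16624208) (l 16639008))) (b (a (l 16678176) (l 16713264)) (b (l 16697160) (a (l 16646728) (l 16660728)))))), by decide +kernel⟩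

def k7_pm_102_s : ∃ t, chk3 f_pm_102_s t 44 20 1 = true :=
  ⟨(b (a (b (a (l 16764696) (l 16775368)) (l 16768472)) (b (a (b (a (l 16776368) (b (a (b (a (l 16776424) (b (c (l 69960991223) (l 68887249399)) (l 16776696))) (l 16775736)) (a (b (b (l 158007819847) (c (l 125258695127) (l 126869306535))) (l 16776496)) (b (l 3) (b (c (l 129016791447) (l 130090531943)) (l 16776768))))) (l 16777464))) (l 16776280)) (b (a (b (a (a (a (b (l 3) (b (l 3) (l 68350378311))) (l 152639110951)) (l 3)) (l 3)) (a (b (a (l 16777232) (b (c (l 134385500551) (l 135996111975)) (l 16776840))) (l 16777208)) (a (b (b (l 3) (c (l 137606725991) (l 138680467815))) (b (l 45801800071) (l 16776416))) (b (l 3) (b (c (l 140291080503) (l 141364822327)) (c (l 16776920) (l 16776896))))))) (a (b (l 3) (a (a (b (l 3) (c (l 147807272647) (l 148881014471))) (l 149417884663)) (l 3))) (l 3))) (b (a (l 16777304) (a (b (a (b (c (l 52244251079) (l 52244251031)) (l 16776496)) (b (c (l 146733530887) (l 147807272711)) (a (l 16776872) (b (l 131164274935)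 (l 16777008))))) (l 16777368)) (a (b (c (l 151565368839) (l 152639110647)) (a (l 16777336) (b (b (l 135996113127) (l 16777040)) (l 16776696)))) (b (l 3) (a (b (l 144049176743) (l 16776944)) (b (l 3) (b (l 139217338519) (l 16777072)))))))) (a (l 16773152) (c (l 16777216) (l 16777064)))))) (a (l 16775976) (c (l 16775104) (l 16775848))))) (a (l 16769264) (b (a (l 16758176) (l 16772792)) (l 16753064)))), by decide +kernel⟩

def k8_pm_102_s : ∃ t, chk3 f_pm_102_s t 90 40 1 = true :=
  ⟨(b (a (b (l 3) (a (b (a (c (l 151565368711) (l 152102239575)) (l 3)) (b (a (b (a (a (l 42043703639) (c (l 124721824087) (l 126332436823))) (l 147807272567)) (b (a (l 16776768) (c (l 127943049559) (l 129553662295))) (c (l 38822478327) (l 37748736487)))) (l 151028497511)) (a (l 16777520) (a (a (c (l 40969961863) (l 40433090887)) (b (c (l 132774887703) (l 134385500439)) (l 16776856))) (b (l 150491627047) (a (a (l 16777032) (l 63518540055)) (l 137606725895))))))) (l 3))) (l 3)) (a (b (b (a (c (l 16776720) (l 16777232))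 (a (a (b (b (a (a (l 16777064) (l 120963727703)) (l 141364822247)) (l 16776808)) (l 16776120)) (b (b (l 3) (c (l 129553661031) (l 131164273767))) (l 16777432))) (b (l 3) (a (b (c (l 132238016871) (l 134385500519)) (l 16777208)) (c (l 142975434359) (l 145122917991)))))) (a (l 16773512) (a (l 16777632) (a (l 16775752) (c (l 16776928) (l 29695672599)))))) (a (l 16770784) (l 16778032))) (b (a (b (l 3) (a (a (b (b (l 138680467815) (c (l 16776952) (l 16776936))) (l 16776288)) (b (l 145122917927) (c (l 42580574727) (l 40969962007)))) (a (b (l 3) (b (l 144586047687) (c (l 54928605687) (l 54391734743)))) (l 146196659191)))) (l 3)) (a (a (l 16776896) (a (l 16776984) (b (a (l 16776936) (b (b (l 121500598679) (l 16776752)) (l 16776080))) (l 16774616)))) (a (b (a (b (b (l 144049176039) (c (l 62444798455) (l 61371056631))) (l 16776448)) (b (l 145659788679) (b (c (l 65129153047) (l 64055411223)) (l 16776712)))) (l 16777976)) (b (a (a (b (l 3) (b (l 121500597207) (l 16777048))) (l 146196659415)) (l 3)) (b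 (a (l 16776528) (b (c (l 123648082327) (l 125795565959)) (l 16776792))) (l 16775880)))))))), by decide +kernel⟩

def k9_pm_102_s : ∃ t, chk3 f_pm_102_s t 91 40 1 = true :=
  ⟨(b (l 3) (a (b (l 3) (a (a (b (l 3) (b (c (l 141901693031) (c (l 144049176007) (l 145122917831))) (a (l 16776608) (b (l 131164275143) (l 16776864))))) (b (l 3) (c (l 145122917303) (l 147270400919)))) (l 3))) (l 3))), by decide +kernel⟩

def k10_pm_102_s : ∃ t, chk3 f_pm_102_s t 45 41 1 = true :=
  ⟨(a (a (b (l 16776880) (l 16759304)) (b (c (l 16775912) (l 16776712)) (l 16773880))) (b (a (b (a (b (a (l 16775528) (b (a (l 16776688) (b (l 137069855015) (l 16776936))) (l 16776056))) (l 16776864)) (b (a (b (l 145122917671) (a (l 41506833031) (b (l 143512305879) (l 16777000)))) (l 149954755335)) (b (a (l 16776136) (a (c (l 16776840) (l 16776808)) (a (l 110763180647) (l 126869307703)))) (l 16777048)))) (c (l 16778008) (l 16777656))) (b (b (l 3) (a (a (b (l 149417884807) (a (l 52781122359) (l 121500598871))) (l 3)) (l 3))) (a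 (a (l 16777624) (b (b (a (l 58149831527) (l 125795566071)) (l 16776384)) (l 16775096))) (a (b (a (b (l 3) (l 63518540599)) (l 148344143015)) (l 16776040)) (b (l 3) (b (l 118816244711) (l 16776544))))))) (a (c (l 16778264) (l 16777512)) (b (l 16776920) (l 16769600))))), by decide +kernel⟩

def k11_pm_102_s : ∃ t, chk3 f_pm_102_s t 22 21 1 = true :=
  ⟨(a (b (a (b (l 16737112) (l 16731032)) (b (l 16746056) (l 16738816))) (a (l 16721424) (b (l 16733176) (l 16727032)))) (b (a (b (l 16754496) (l 16747848)) (b (a (l 16760640) (l 16775104)) (l 16756152))) (a (b (l 16740952) (l 16735768)) (b (l 16749880) (l 16743376))))), by decide +kernel⟩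

def k12_pm_102_s : ∃ t, chk3 f_pm_102_s t 23 10 1 = true :=
  ⟨(b (a (b (l 3) (a (b (a (b (l 3) (a (b (l 3) (c (l 131701144327) (l 131701144279))) (l 3))) (l 3)) (a (b (a (b (a (l 16776200) (b (l 124721824487) (l 16776680))) (l 16774992)) (b (l 131701144135) (a (l 16777656) (a (l 65129153719) (l 120963728135))))) (l 16776032)) (b (l 146733532775) (a (b (a (l 16777800) (l 117205632119)) (l 16775368)) (a (b (l 145122917095) (l 54928606615)) (l 129016789623)))))) (l 3))) (l 3)) (a (b (a (b (a (l 16777008) (b (l 16776464) (l 16770640))) (c (l 16775064) (l 16774048))) (b (a (b (a (b (c (l 111836918295) (l 111836923495)) (l 16775744)) (b (l 3) (l 115595019863))) (l 16778360)) (b (l 3) (a (b (l 118816244967) (l 16776080)) (l 126869305751)))) (a (l 16780160) (b (a (l 16773848) (l 16775504)) (l 16771752))))) (a (b (l 16757992) (l 16752192)) (b (a (l 16763784) (l 16767472)) (l 16760112)))) (b (a (b (l 3) (a (b (a (b (l 125258695207) (l 16776368)) (l 127406176295)) (a (l 16774312) (l 48486156695))) (b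 (l 3) (a (b (l 108615691319) (l 16776624)) (l 138680465079))))) (l 3)) (a (b (a (l 16776208) (b (a (l 16774776) (l 57612962167)) (l 16772912))) (a (l 16765680) (l 16769120))) (b (a (b (l 121500599095) (a (l 16775224) (l 65666025879))) (b (l 3) (l 122037466983))) (a (l 16772304) (b (a (l 16775632) (l 73719089191)) (l 16774072)))))))), by decide +kernel⟩

def k13_pm_102_s : ∃ t, chk3 f_pm_102_s t 11 11 1 = true :=
  ⟨(a (b (a (b (l 16714496) (l 16703688)) (b (a (l 16727616) (b (l 16738672) (l 16733480))) (l 16721960))) (a (l 16685400) (l 16726368))) (b (a (b (a (b (l 16746192) (l 16742048)) (b (l 16754904) (l 16749592))) (a (l 16734888) (b (l 16745848) (l 16741048)))) (b (a (b (l 16762584) (l 16758144)) (b (l 16777232) (l 16765392))) (a (b (l 16753240) (l 16749864)) (b (l 16761640) (l 16757200))))) (a (b (l 16729656) (l 16719464)) (b (a (l 16743104) (b (l 16754232) (l 16749904))) (l 16738576))))), by decide +kernel⟩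

def k14_pm_102_s : ∃ t, chk3 f_pm_102_s t 2 3 1 = true :=
  ⟨(a (b (l 6) (l 6)) (b (a (b (b (a (l 16601216) (a (l 16625752) (l 16644760))) (a (l 6) (l 16609824))) (l 6)) (b (a (b (a (l 16683440) (b (l 16688704) (l 16678208))) (l 16653744)) (b (a (b (l 16709496) (l 16700384)) (b (l 16729856) (l 16722296))) (a (l 16692472) (b (l 16715736) (l 16713680))))) (a (b (l 16640728) (l 6)) (b (a (l 16681568) (l 16708168)) (a (l 16678144) (l 16706344)))))) (l 6))), by decide +kernel⟩

def k15_pm_102_s : ∃ t, chk3 f_pm_102_s t 3 2 1 = true :=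
  ⟨(a (b (l 3) (a (a (b (b (l 3) (a (b (l 3) (a (b (l 3) (a (b (l 120963724775) (a (l 16776000) (l 82309023335))) (l 131701140855))) (l 3))) (l 3))) (b (a (b (a (b (a (l 16773656) (b (a (l 16776304) (l 111836922743)) (l 16775168))) (l 16776688)) (b (a (b (l 126332433063) (l 86067120215)) (l 3)) (a (l 16774976) (b (l 93046441623) (l 16776080))))) (a (b (l 16768264) (l 16765104)) (b (a (l 16772256) (l 16774344)) (l 16770864)))) (b (a (b (l 3) (a (b (l 3) (l 88751466391)) (l 3))) (l 3)) (a (b (a (b (l 16776416) (l 16775536)) (b (l 101636368087) (l 16776704))) (a (l 16774208) (l 16775816))) (b (a (l 115595014263) (l 3)) (a (b (l 16776856) (l 16776560)) (b (l 101636366359) (l 79624670007))))))) (a (b (a (b (l 16761328) (l 16758920)) (b (l 16768544) (l 16765752))) (a (l 16752792) (b (l 16763960) (l 16760272)))) (b (a (b (l 16773496) (l 16772136)) (b (a (l 16775936) (l 16776832)) (l 16775888))) (a (b (l 16770360) (l 16769112)) (b (l 16775432) (l 16774576))))))) (b (l 3) (b (a (a (a (b (l 3) (l 125258687655))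 (l 3)) (l 3)) (l 3)) (a (b (a (b (a (b (l 72108469559) (l 16777200)) (b (l 122574335735) (l 74255949527))) (a (l 16777184) (l 16777424))) (b (l 3) (a (b (l 87140853687) (l 16777408)) (l 122037465367)))) (a (b (l 16777432) (l 16777416)) (b (a (l 16777712) (l 42580568343)) (c (l 16778056) (l 16777760))))) (b (l 3) (a (b (a (b (l 105394463239) (l 16777264)) (l 133848623479)) (a (l 16777624) (b (l 60297306727) (l 16777424)))) (b (l 3) (a (b (l 135996108679) (a (l 16777216) (l 80698400919))) (l 144586039575))))))))) (l 3))) (l 3)), by decide +kernel⟩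

def k16_pm_102_s : ∃ t, chk3 f_pm_102_s t 12 6 1 = true :=
  ⟨(b (a (b (a (b (l 16749928) (l 16743704)) (b (a (l 16764696) (b (l 16773984) (l 16771616))) (l 16774248))) (a (b (l 16739600) (l 16736496)) (b (l 16760888) (l 16759872)))) (b (a (b (a (b (l 16777184) (l 16776936)) (b (l 16778096) (l 16778256))) (a (l 16774392) (b (a (l 16778184) (l 16778312)) (l 16777128)))) (b (a (b (l 16777704) (l 16777944)) (b (a (l 16777384) (b (a (l 16777104) (l 103246980951)) (l 16777272))) (a (l 16777568) (l 16777424)))) (a (b (l 16778304) (a (l 16778520) (l 16778384))) (b (l 16777888) (l 16778440))))) (a (a (b (l 16772080) (l 16771696)) (b (l 16776000) (l 16776320))) (b (a (l 16778360) (b (a (l 16779448) (l 16778792)) (l 16779504))) (a (l 16779248) (l 16780360)))))) (a (b (a (l 16736320) (b (a (l 16755072) (l 16764480)) (l 16759544))) (a (l 16734456) (l 16760464))) (b (a (b (l 16775384) (a (l 16774200) (l 16757992))) (b (l 16781304) (a (l 16781816) (l 16783904)))) (a (l 16778664) (b (a (l 16785024) (l 16765640))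 (l 16788416)))))), by decide +kernel⟩

def k17_pm_102_s : ∃ t, chk3 f_pm_102_s t 26 12 1 = true :=
  ⟨(b (a (b (a (b (a (b (l 3) (a (l 16774352) (l 105931332583))) (l 3)) (a (l 16775288) (b (a (l 77477175895) (l 140291076839)) (l 46875535975)))) (b (l 3) (a (b (l 3) (l 125795562839)) (l 3)))) (a (b (l 16777432) (l 16777896)) (b (a (b (a (l 16777264) (l 64055404679)) (l 16777352)) (b (l 134385496423) (a (l 16777256) (l 75329692727)))) (a (l 16777680) (l 16777544))))) (b (l 3) (a (b (a (l 145659781879) (l 3)) (a (b (a (l 16777184) (l 90898948311)) (l 16777480)) (b (l 147270396247) (a (l 62981662967) (l 126869305287))))) (l 3)))) (a (b (a (b (l 16778616) (a (l 16779856) (l 16779296))) (b (l 16778320) (l 16779440))) (a (l 16759928) (b (a (l 16780992) (l 16780592)) (l 16782112)))) (b (a (b (a (l 16778056) (b (l 16777520) (l 16778000))) (l 16779080)) (b (a (b (a (b (l 100025755879) (l 16777240)) (l 139754206119)) (a (l 16777688) (l 50096762439))) (b (l 3) (a (b (l 144049174183) (l 73719082503)) (l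 3)))) (a (l 16778528) (b (a (l 16777720) (c (l 16774512) (l 62444792535))) (l 16778312))))) (a (b (l 16780760) (a (l 16782688) (l 16782360))) (b (c (l 16780104) (l 16780032)) (l 16782320)))))), by decide +kernel⟩

def k18_pm_102_s : ∃ t, chk3 f_pm_102_s t 27 12 1 = true :=
  ⟨(b (l 3) (a (b (a (b (l 3) (a (b (a (l 127943046983) (l 3)) (a (l 16775048) (b (l 126869305911) (l 54928601815)))) (a (c (l 145659783367) (l 148881008823)) (l 3)))) (l 3)) (a (b (a (c (l 16778976) (l 16778976)) (b (a (c (l 16774880) (l 50633633559)) (b (l 147807270343) (c (l 77477179671) (l 76940308423)))) (c (l 16778448) (l 16778464)))) (a (l 16770896) (c (l 16780408) (l 16780472)))) (b (a (b (l 3) (a (c (c (l 67813502295) (l 65666018007)) (b (l 86603984423) (l 16777720))) (b (l 3) (c (l 97878273015) (l 124721822535))))) (l 3)) (c (a (a (l 16779480) (c (l 36138119367) (l 16778720))) (b (a (c (b (l 112373787031) (l 16777376)) (l 80698402839)) (l 152102236471)) (c (a (l 16778648) (l 58149826375)) (l 47949278279)))) (a (b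 (a (l 16778792) (l 39896216567)) (l 16779944)) (b (a (b (l 136532981991) (l 59223569223)) (l 152102236455)) (a (l 16778712) (b (l 72108470679) (l 16778168))))))))) (b (l 3) (a (b (l 3) (a (b (l 3) (a (b (l 3) (c (c (l 91435823015) (l 83919630247)) (a (l 16775992) (l 135459240759)))) (l 3))) (l 3))) (l 3))))), by decide +kernel⟩

def k19_pm_102_s : ∃ t, chk3 f_pm_102_s t 26 13 1 = true :=
  ⟨(b (a (b (c (l 16762288) (l 16782152)) (l 16763728)) (b (a (b (l 16784136) (l 16784736)) (b (a (l 16784728) (l 16784392)) (a (l 16785824) (l 16786920)))) (a (l 16786352) (l 16766840)))) (b (a (b (l 16786624) (l 16766736)) (a (l 16789128) (l 16790552))) (a (l 16771632) (a (l 16793744) (b (l 16793816) (l 16796480)))))), by decide +kernel⟩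

def k20_pm_102_s : ∃ t, chk3 f_pm_102_s t 54 26 1 = true :=
  ⟨(b (a (b (a (l 16784232) (l 16772976)) (a (l 16776600) (b (l 16786072) (l 16787648)))) (b (c (a (l 16782328) (c (l 16775528) (l 16780824))) (a (l 16782480) (l 16775688))) (c (a (l 16785992) (l 16784608)) (l 16775152)))) (a (b (a (l 16788544) (l 16779272)) (l 16790184)) (c (b (a (l 16768544) (l 16788592)) (l 16792024)) (b (a (l 16779440) (l 16768088)) (l 16792472))))), by decide +kernel⟩

def k21_pm_102_s : ∃ t, chk3 f_pm_102_s t 55 26 1 = true :=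
  ⟨(b (a (b (a (c (a (c (l 16775416) (l 16774144)) (b (c (l 74255952583) (l 72645339943)) (l 16776624))) (b (a (l 16775864) (b (l 123648080871) (l 16776496))) (l 16774648))) (b (a (a (c (c (l 136532981607) (l 137606723431)) (l 138143594327)) (l 3)) (l 3)) (a (c (c (l 16775752) (l 47949280119)) (b (l 57076085927) (l 16778656))) (b (c (a (l 112910659239) (l 3)) (l 147270399671)) (c (c (l 73719083607) (l 73719083623)) (a (l 16777696) (l 87677727399))))))) (c (a (l 16777560) (c (b (l 16776896) (l 16781632)) (b (l 16774320) (l 16781728)))) (a (l 16772560) (a (l 16770888) (b (l 16776392) (l 16781272)))))) (b (a (b (l 3) (a (b (l 3) (c (l 160155300887) (l 154786591735))) (l 3))) (l 3)) (a (b (a (c (c (l 71034728007) (b (l 82845888215) (l 16778200))) (b (a (l 60297312087) (l 131164273543)) (l 16778240))) (b (l 3) (c (c (l 127406177351) (l 95193918359)) (a (l 76403438599) (l 148881012951))))) (c (c (l 43654312695) (l 36674990935)) (a (l 16779968) (b (l 16776008) (l 16779176))))) (b (l 3) (a (b (c (c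 (l 139217336711) (l 108078819543)) (l 133848627575)) (c (c (l 16775016) (l 16775032)) (l 54928602343))) (c (c (l 154249720119) (l 153175978263)) (l 151565365495))))))) (a (b (c (a (l 16787152) (l 16779824)) (a (l 16787600) (l 16785448))) (a (b (l 16769760) (l 16792824)) (c (l 16789744) (l 16790376)))) (a (b (c (c (l 16772104) (l 16772224)) (l 16772440)) (c (l 16787560) (l 16788104))) (b (b (a (c (l 16776824) (l 16779560)) (c (c (l 65666019463) (l 59760439479)) (b (a (l 16777800) (l 86603985447)) (l 16778680)))) (c (l 16777528) (l 16770864))) (c (l 16779656) (l 16774840)))))), by decide +kernel⟩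

def k22_pm_102_s : ∃ t, chk3 f_pm_102_s t 27 27 1 = true :=
  ⟨(a (b (a (l 16771336) (c (l 16793848) (l 16794168))) (a (l 16797016) (l 16777600))) (b (a (a (l 16794696) (b (c (l 16793768) (l 16794536)) (l 16795656))) (b (a (b (l 16791712) (l 16786144)) (a (l 16780504) (l 16778696))) (a (l 16795184) (b (l 16782224) (l 16793280))))) (a (c (l 16777512) (l 16778176)) (c (l 16795872) (l 16796592))))), by decide +kernel⟩

def k23_pm_102_s : ∃ t, chk3 f_pm_102_s t 6 7 1 = true :=
  ⟨(b (a (b (a (a (b (l 16740616) (l 6)) (l 16771648)) (a (l 16790544) (l 16799312))) (a (l 6) (a (b (b (l 16804056) (l 16788504)) (l 6)) (b (l 16816512) (b (l 16826296) (l 16830536)))))) (b (a (a (l 16802800) (b (l 16802168) (l 16811360))) (b (a (a (b (l 16802200) (l 16806560)) (b (l 16803584) (l 16808384))) (a (a (l 16784592) (l 16805376)) (b (l 16800952) (l 16805920)))) (a (l 16815136) (b (a (l 16793072) (l 16790872)) (a (l 16819360) (l 16798224)))))) (b (a (a (l 16820296) (l 16823992)) (a (l 16827792) (l 16828904)))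 (a (a (b (l 16830672) (l 16838568)) (l 16795848)) (a (l 16842880) (l 16843880)))))) (a (l 6) (b (b (a (a (l 16846304) (b (l 16830312) (l 16857368))) (a (b (l 16855000) (l 16864424)) (b (l 16856552) (a (l 16866136) (b (l 16862352) (l 16865912)))))) (a (a (l 6) (b (l 16865336) (l 16874624))) (a (l 16856408) (a (b (l 16874928) (l 16883168)) (b (l 16870096) (l 16875208)))))) (a (b (a (l 6) (a (l 6) (l 16893552))) (l 6)) (a (b (a (l 16882344) (b (l 16894648) (l 16903632))) (b (a (l 6) (b (l 16908800) (l 6))) (l 6))) (b (a (l 16892872) (l 16883568)) (b (b (l 16895880) (l 16897568)) (l 16872256)))))))), by decide +kernel⟩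

def k24_pm_102_s : ∃ t, chk3 f_pm_102_s t 14 12 1 = true :=
  ⟨(l 3), by decide +kernel⟩

def k25_pm_102_s : ∃ t, chk3 f_pm_102_s t 28 26 1 = true :=
  ⟨(a (b (l 3) (a (b (a (b (a (b (c (l 163376526295) (l 159618429879)) (c (c (l 90898951751) (l 86603984439)) (l 81235276471))) (l 3)) (a (c (c (l 16778928) (l 16778968)) (l 16773800)) (b (c (c (l 131164273687) (l 99488884631)) (a (l 79087792999) (l 152102238343))) (c (c (l 16775376) (l 16775400)) (l 46875538119))))) (b (l 3) (a (a (c (c (l 146196657943) (l 144049174295)) (l 140827948791)) (l 3)) (l 3)))) (a (c (b (c (a (l 16781384) (l 16779792)) (l 16775408)) (l 16777656)) (a (l 16772448) (l 16775928))) (b (a (c (c (l 59760439783) (l 53317988903)) (b (l 57612956375) (l 16778880))) (b (c (l 153175979559) (l 149954754055)) (c (c (l 82845888903) (l 76940308551)) (l 71571599287)))) (c (c (l 16774336) (l 16774392)) (l 16774480))))) (b (l 3) (a (b (a (c (l 165524008295) (l 161765911847)) (l 3)) (a (c (c (b (l 95730790119) (l 16778016)) (b (l 89825209431)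 (l 16778032))) (b (l 84993371047) (l 16778056))) (b (l 3) (c (c (l 134385498967) (l 102173239319)) (l 127943047991))))) (l 3))))) (l 3)), by decide +kernel⟩

def k26_pm_102_s : ∃ t, chk3 f_pm_102_s t 56 27 1 = true :=
  ⟨(b (a (b (a (c (l 16785864) (l 16786304)) (c (c (l 16777040) (l 16782376)) (l 16772072))) (a (b (l 16788624) (l 16779408)) (b (l 16774256) (l 16786112)))) (b (a (c (b (a (l 16779336) (c (l 16775464) (l 16775472))) (l 16774960)) (b (a (l 16779416) (l 16775504)) (l 16780296))) (b (b (c (c (l 153712849143) (l 152102236375)) (l 149417881767)) (a (c (c (l 74255954327) (l 68887245223)) (l 62981665031)) (c (l 157470946599) (l 154786591991)))) (c (a (l 16775856) (b (c (l 86067116087) (l 81772146167)) (l 16777856))) (a (l 16778512) (b (l 76940307943) (l 16777864)))))) (a (c (l 16782152) (l 16782272)) (c (b (c (l 16779160) (l 16779160)) (l 16769696)) (l 16774480))))) (b (a (a (l 16780984) (b (l 16776736) (l 16788528))) (a (b (l 16783848) (a (l 16785656) (l 16783792))) (c (l 16770976)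 (l 16781432)))) (a (c (l 16791928) (l 16792440)) (a (b (l 16786224) (l 16787800)) (b (a (l 16783176) (l 16781584)) (l 16783992)))))), by decide +kernel⟩

def k27_pm_102_s : ∃ t, chk3 f_pm_102_s t 57 27 1 = true :=
  ⟨(b (a (b (a (b (l 3) (a (b (l 3) (c (c (l 126869309271) (l 95730790535)) (l 90898950919))) (l 3))) (l 3)) (a (b (a (c (c (l 16775216) (l 16777832)) (l 16777832)) (b (c (c (l 138680465959) (l 110226303671)) (l 132238014967)) (c (c (l 49023021767) (l 16776000)) (l 16777304)))) (c (c (l 16778344) (l 16778328)) (l 16778304))) (b (a (c (c (l 155323461959) (l 154249720103)) (l 150491623671)) (l 3)) (a (c (b (c (a (l 16777376) (l 93046436087)) (l 75866569127)) (l 16777576)) (b (l 69424115207) (l 16777552))) (b (c (l 163376526279) (l 157470946199)) (c (c (a (l 16777160) (l 112373788679)) (a (l 16777152) (l 110226305015))) (l 81772145335))))))) (l 3)) (a (b (a (c (c (l 16774112) (l 16768808)) (l 16779224)) (c (b (a (l 16777968) (c (l 16777528) (l 16777496))) (l 16772856)) (b (l 16777648)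 (l 16777968)))) (a (b (l 16779936) (a (l 16780872) (l 16779728))) (c (l 16773296) (l 16778280)))) (b (a (b (a (b (c (c (l 129553662135) (l 100562628343)) (l 96804530615)) (c (c (l 46338667287) (l 16777224)) (l 16777200))) (a (c (c (l 145122915975) (l 143512303207)) (l 140291077687)) (l 3))) (c (a (l 16777488) (b (c (a (l 16777280) (l 87140856487)) (l 47412407975)) (l 16777312))) (a (l 16777400) (l 35601246775)))) (b (l 3) (a (b (c (l 153175979335) (l 151028495623)) (c (a (c (l 16777152) (l 16777136)) (c (l 102710112247) (l 100025757671))) (l 78550919975))) (l 3)))) (a (c (b (l 16776200) (l 16777608)) (l 16777360)) (b (a (c (l 16777232) (l 16777152)) (b (c (a (c (l 84456502103) (l 16775664)) (l 145122916775)) (l 92509563143)) (c (c (l 16777152) (l 16777128)) (l 16777088)))) (c (l 16777168) (l 16777000))))))), by decide +kernel⟩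

def k28_pm_102_s : ∃ t, chk3 f_pm_102_s t 29 13 1 = true :=
  ⟨(b (l 3) (a (b (l 3) (a (b (l 3) (a (b (a (b (l 3) (c (c (l 135996112583) (l 134385498503)) (l 109152561655))) (l 3)) (a (c (b (a (l 16777168) (c (l 82309018679) (l 16776976))) (l 16777112)) (l 32380021783)) (b (c (a (l 141901691431) (l 3)) (l 146196657687)) (c (a (l 16776464) (c (l 95730790279) (l 93583306599))) (l 75866565383))))) (b (l 3) (a (b (l 3) (l 160692171463)) (l 3))))) (l 3))) (l 3))), by decide +kernel⟩

def k29_pm_102_s : ∃ t, chk3 f_pm_102_s t 15 6 1 = true :=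
  ⟨(l 3), by decide +kernel⟩

def k30_pm_102_s : ∃ t, chk3 f_pm_102_s t 28 14 1 = true :=
  ⟨(b (a (b (a (c (l 16777272) (l 16778208)) (b (c (l 16789064) (l 16789400)) (l 16774040))) (a (b (l 16808400) (l 16816200)) (b (l 16781376) (l 16811264)))) (b (a (b (a (b (l 16771416) (l 16784200)) (b (a (l 16778984) (l 16778264)) (a (l 16781000) (l 16768592)))) (c (l 16765736) (l 16765944))) (b (a (b (l 16777472) (a (l 16777632) (l 16777256))) (c (l 16774480) (l 16776744))) (a (b (a (l 16779688) (l 16767368)) (l 16781848)) (b (a (l 16776776) (l 16776664)) (a (l 16768240) (l 16766536)))))) (a (b (l 16773536) (c (l 16781776) (l 16804488))) (b (a (c (l 16766656) (l 16767016)) (c (l 16761968) (l 16782856))) (c (l 16771752) (l 16772600)))))) (a (a (b (l 16827336) (l 16841288)) (b (b (l 16820656) (l 16827736)) (l 16813720))) (b (a (b (a (l 16815736) (l 16810032)) (l 16788096)) (b (l 16779672) (l 16786264))) (a (l 16824424) (b (l 16813032) (l 16816264)))))), by decide +kernel⟩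

def k31_pm_102_s : ∃ t, chk3 f_pm_102_s t 58 28 1 = true :=
  ⟨(b (a (b (a (c (b (a (l 16777008) (l 16777048)) (l 16776872)) (l 16776728)) (b (a (b (c (a (c (l 63518540087) (l 16776984)) (l 139217336983)) (l 88751466743)) (c (a (l 16777072) (l 16777104)) (l 16777016))) (b (l 3) (c (a (c (l 93046438407) (l 91435823015)) (l 156397205287)) (l 104857594215)))) (a (l 16776864) (c (b (a (l 16777096) (c (l 58686701991) (l 16776992))) (l 16777016)) (l 28621925767))))) (a (b (l 16776544) (l 16776352)) (b (c (l 16776816) (l 16776552)) (l 16776496)))) (b (a (b (l 3) (a (b (c (a (l 136532982503) (l 3)) (l 142438561495)) (c (a (l 16777104) (c (l 91435825719) (l 89825210327))) (a (l 16777056) (l 16774960)))) (b (l 3) (l 159618429799)))) (l 3)) (a (b (a (c (l 16777000) (l 16776872)) (b (c (c (a (l 54928605703) (l 114521272647)) (l 88751469479)) (l 87140856679)) (c (l 16777080) (l 16777008)))) (a (l 16776704) (l 16776880))) (b (a (a (b (l 3) (b (l 117205628391) (l 55465476647))) (l 155860332951)) (l 3)) (a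 (a (l 16777016) (b (b (l 83919634343) (l 16777136)) (l 16777048))) (a (b (b (l 3) (l 96267663767)) (l 16777120)) (b (l 3) (b (l 114521273719) (l 40969959111))))))))) (a (b (a (b (a (l 16767464) (b (l 16776336) (l 16776840))) (l 16780240)) (b (l 16776416) (a (b (l 16776728) (l 16778064)) (b (l 16776472) (l 16776712))))) (a (l 16785600) (b (l 16769400) (l 16783144)))) (b (a (b (l 16776656) (l 16776672)) (b (a (l 16776896) (l 16777048)) (l 16775976))) (a (b (a (b (l 16776800) (l 16778040)) (l 16770272)) (a (l 16780376) (l 16778992))) (b (l 16777136) (a (b (l 16777256) (l 16778328)) (l 16777472))))))), by decide +kernel⟩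

def k32_pm_102_s : ∃ t, chk3 f_pm_102_s t 59 28 1 = true :=
  ⟨(b (a (b (l 3) (a (b (l 3) (a (b (l 3) (l 153712849847)) (l 3))) (l 3))) (l 3)) (a (b (a (b (a (b (a (b (l 82845892551) (l 16777168)) (a (l 102710114503) (l 121500593319))) (c (l 16777176) (l 16777104))) (a (b (l 3) (b (l 115058144823) (l 16777120))) (l 155323462071))) (a (l 16777144) (b (c (a (l 16777224) (l 37211861895)) (l 16777080)) (l 16777224)))) (b (l 3) (a (a (b (c (l 112910660071) (l 112910660183)) (l 16777216)) (b (l 3) (c (l 89825213335) (l 88751469015)))) (b (l 3) (l 154249720743))))) (a (b (c (l 16777472) (l 16777224)) (l 16777736)) (b (a (l 16777368) (b (c (a (l 49023025559) (l 115595014951)) (a (l 16777104) (l 104857594519))) (l 16777336))) (a (l 16777752) (l 16777672))))) (b (l 3) (a (b (a (a (b (l 3) (a (l 39359346023) (l 105394468087))) (l 157470945639)) (l 3)) (a (a (l 16777544) (a (l 16777440) (b (l 39359346055) (l 16777520)))) (a (b (c (l 105394465463) (l 132238015271)) (l 16777384)) (b (l 3) (c (l 91972699991)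 (l 91435826583)))))) (b (l 3) (a (b (l 3) (l 156397204247)) (l 3))))))), by decide +kernel⟩

def k33_pm_102_s : ∃ t, chk3 f_pm_102_s t 29 29 1 = true :=
  ⟨(b (a (a (b (a (l 16792760) (l 16788304)) (l 16776160)) (b (a (l 16774016) (b (a (l 16780472) (b (l 16778576) (l 16779864))) (l 16782880))) (a (l 16790816) (l 16776912)))) (a (a (b (b (a (b (l 16778040) (l 16768416)) (l 16778384)) (a (l 16780880) (b (l 16774040) (l 16780568)))) (b (l 16783200) (l 16785992))) (b (b (a (l 16778408) (l 16778336)) (a (b (l 16779088) (c (l 16779920) (l 16769072))) (l 16779312))) (b (a (l 16771232) (b (c (l 16780400) (l 16769608)) (l 16781560))) (l 16783808)))) (b (a (b (a (l 16778168) (l 16777864)) (c (l 16773888) (l 16773712))) (b (a (b (c (a (l 16775912) (l 104857594503)) (a (l 36138120535) (l 132774886135))) (c (l 16777648) (l 16777608))) (b (l 3) (a (b (l 106468208647) (l 34527508615)) (l 155323463415)))) (a (l 16778448) (a (l 16778016) (b (a (l 16777448) (b (l 98952017191) (l 16777432))) (l 16777992))))))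 (a (b (a (b (l 16780128) (c (l 16780928) (l 16770192))) (l 16780248)) (a (b (l 16776880) (l 16783208)) (b (l 16776136) (c (l 16782784) (l 16772176))))) (a (b (l 16779840) (c (l 16776328) (l 16776208))) (b (l 16779272) (l 16775856))))))) (a (a (b (a (l 16784488) (l 16800600)) (l 16786968)) (b (l 16773752) (a (l 16780744) (l 16776552)))) (a (b (a (l 16789928) (c (l 16787416) (l 16787704))) (a (l 16794312) (l 16791880))) (b (b (a (l 16782032) (a (b (c (l 16772872) (l 16778056)) (l 16784352)) (b (l 16777376) (c (l 16778712) (l 16778712))))) (a (l 16786872) (c (l 16785632) (l 16785768)))) (a (c (l 16789624) (l 16790104)) (c (l 16777776) (l 16778144))))))), by decide +kernel⟩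

def k34_pm_102_s : ∃ t, chk3 f_pm_102_s t 30 28 1 = true :=
  ⟨(l 3), by decide +kernel⟩

def k35_pm_102_s : ∃ t, chk3 f_pm_102_s t 60 58 1 = true :=
  ⟨(a (b (a (b (l 3) (a (a (b (c (l 133848627927) (l 132774886055)) (l 16777592)) (b (l 3) (b (l 107541950375) (l 32380025095)))) (b (l 3) (l 159618429479)))) (l 3)) (a (b (a (l 16775896) (a (b (b (l 93046440663) (l 16777608)) (l 16778240)) (b (l 134922370935) (l 16776384)))) (a (l 16775128) (l 16776824))) (b (a (a (b (l 3) (b (l 139217337191) (l 37211863399))) (l 162302783351)) (l 3)) (a (a (l 16775976) (b (b (l 86603988423) (l 16777688)) (l 16778512))) (a (b (l 137069853143) (l 16776480)) (b (l 3) (a (l 81772150135) (l 133311757239)))))))) (b (l 3) (a (b (l 3) (a (b (l 3) (l 164450267319)) (l 3))) (l 3)))), by decide +kernel⟩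

def k36_pm_102_s : ∃ t, chk3 f_pm_102_s t 60 59 1 = true :=
  ⟨(a (b (a (b (a (l 16777456) (l 16781792)) (a (b (l 16785896) (l 16775312)) (b (l 16783888) (l 16785240)))) (b (a (l 16775432) (b (l 16776024) (l 16774736))) (a (l 16778320) (l 16778064)))) (a (b (a (l 16787000) (b (l 16786576) (l 16787176))) (l 16788080)) (b (a (b (c (l 16785536) (l 16785744)) (l 16781392)) (c (l 16778912) (l 16779072))) (a (l 16786880) (c (l 16783984) (l 16783528)))))) (b (a (b (a (a (b (b (l 88214598423) (l 16777752)) (l 16778736)) (b (c (l 140827949383) (l 140827951943)) (l 22179477143))) (a (b (l 3) (a (l 83919633559) (l 137606724359))) (l 3))) (a (l 16777536) (a (l 16776192) (b (b (l 91435823719) (l 16777640)) (l 16778544))))) (b (l 3) (a (b (c (l 149954753543) (l 150491624343)) (c (a (l 16777672) (l 124721822775)) (a (l 16776368) (l 124184953143)))) (l 3)))) (a (b (c (l 16776320) (l 16776400)) (a (b (l 16784056) (c (l 16784952) (l 16785096))) (b (l 16782352) (l 16778056)))) (b (a (c (l 16776368) (l 16776392))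 (a (b (b (l 94657051431) (l 16776200)) (l 16778352)) (b (l 148344141671) (c (l 16776384) (b (l 33990637095) (l 16777864)))))) (c (l 16775064) (l 16777712)))))), by decide +kernel⟩

def k37_pm_102_s : ∃ t, chk3 f_pm_102_s t 61 29 1 = true :=
  ⟨(b (l 3) (a (b (l 3) (a (b (a (a (b (l 3) (a (a (l 85530246471) (l 96804532311)) (l 147807271207))) (l 3)) (l 3)) (a (b (a (l 16776576) (b (l 129553660951) (l 29158799159))) (l 16775912)) (a (b (l 153712850503) (a (l 16776328) (b (l 92509566183) (l 16777552)))) (b (l 3) (c (l 130090531383) (b (l 3) (l 89288342375))))))) (l 3))) (l 3))), by decide +kernel⟩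

def k38_pm_102_s : ∃ t, chk3 f_pm_102_s t 31 14 1 = true :=
  ⟨(l 3), by decide +kernel⟩

def k39_pm_102_s : ∃ t, chk3 f_pm_102_s t 14 15 1 = true :=
  ⟨(b (a (b (a (b (l 16824776) (l 16849800)) (a (l 16832072) (l 16822280))) (a (b (a (l 16860688) (l 16849680)) (l 16859968)) (b (a (l 16838648) (l 16829368)) (a (l 16844632) (l 16835088))))) (a (b (a (l 16792680) (b (l 16803808) (l 16808168))) (b (l 16795784) (a (l 16805000) (l 16797064)))) (b (a (b (a (l 16777976) (b (l 16794304) (l 16796568))) (l 16801232)) (b (a (b (l 16792272) (l 16782856)) (c (l 16790824) (l 16780904))) (a (a (l 16797192) (l 16775056)) (b (c (l 16771176) (l 16771848)) (l 16794608))))) (a (c (l 16786856) (l 16788824)) (b (c (l 16799056) (l 16800264)) (l 16783960)))))) (a (a (b (l 16847528) (b (a (l 16881984) (l 16871992)) (b (l 16877320) (l 16832536)))) (b (a (l 16853064) (l 16822560)) (b (a (l 16862032) (l 16831928)) (a (l 16862232) (l 16812176))))) (b (a (b (a (l 16831968) (l 16803752)) (l 16792240)) (b (a (b (l 16794624)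 (l 16819024)) (b (l 16809232) (a (l 16813960) (l 16810480)))) (a (l 16823480) (l 16795920)))) (a (b (l 16798848) (b (a (l 16827000) (l 16819944)) (l 16799664))) (b (c (l 16804288) (l 16807232)) (b (a (l 16792296) (b (l 16827632) (l 16807624))) (c (l 16828336) (l 16809752)))))))), by decide +kernel⟩

def k40_pm_102_s : ∃ t, chk3 f_pm_102_s t 60 30 1 = true :=
  ⟨(b (a (b (a (c (l 16778576) (l 16779008)) (c (l 16787136) (l 16787416))) (b (a (l 16790416) (l 16788400)) (a (c (l 16780856) (l 16781424)) (a (l 16789728) (l 16788808))))) (b (a (b (a (l 16785448) (a (l 16784856) (b (l 16778600) (l 16784376)))) (c (l 16785552) (l 16785712))) (b (a (b (l 16782624) (a (a (l 16778840) (l 16778504)) (l 16777832))) (l 16781496)) (a (c (l 16778960) (l 16779024)) (a (b (a (l 16778160) (l 16777760)) (l 16783592)) (b (l 16777120) (l 16779264)))))) (b (a (c (l 16786312) (l 16786520)) (c (l 16779152) (l 16784472))) (a (l 16787304) (c (l 16785264) (l 16785392)))))) (a (b (a (l 16794904) (b (a (l 16791608) (a (l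 16790400) (l 16779136))) (l 16793064))) (c (l 16798128) (l 16799200))) (b (a (b (a (l 16783432) (l 16787848)) (b (a (l 16790272) (l 16788744)) (l 16790696))) (b (c (l 16786280) (l 16786456)) (b (l 16787208) (a (l 16788496) (l 16787248))))) (a (l 16783472) (b (a (l 16790304) (b (l 16788280) (l 16789432))) (l 16792240)))))), by decide +kernel⟩

def k41_pm_102_s : ∃ t, chk3 f_pm_102_s t 122 60 1 = true :=
  ⟨(b (a (b (a (l 16777344) (b (c (l 16776768) (l 16776432)) (l 16779000))) (a (a (b (l 16781712) (b (l 16782280) (l 16777496))) (l 16777336)) (l 16777696))) (a (a (b (b (b (l 136532982519) (a (l 16777496) (l 81235277335))) (l 16778008)) (l 16779296)) (b (b (l 165524010247) (b (a (l 16776600) (l 98952016839)) (l 16777592))) (l 16776032))) (a (b (a (b (l 3) (b (l 3) (l 84993373591))) (l 3)) (b (c (l 27548186967) (b (l 32916896439) (l 16777832))) (l 16778448))) (b (l 3) (b (b (l 146196658615) (a (l 16777368) (l 89825211639))) (l 16777856)))))) (b (a (a (a (l 16783192) (b (b (l 16779784) (l 16782600))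 (l 16782912))) (a (b (c (l 16776592) (l 16779160)) (l 16782432)) (b (l 16781208) (b (l 16779120) (l 16782088))))) (a (a (b (l 16780520) (c (l 16775984) (l 16778512))) (l 16780256)) (l 16778008))) (a (c (a (l 16783824) (l 16782864)) (l 16778104)) (a (b (b (a (l 16779208) (l 16778496)) (c (l 16776648) (a (l 16781952) (l 16781512)))) (l 16782088)) (a (a (b (l 16778176) (l 16781520)) (b (l 16780576) (b (l 16781104) (l 16781352)))) (b (l 16780120) (b (l 16780576) (a (l 16781152) (l 16780808))))))))), by decide +kernel⟩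

def k42_pm_102_s : ∃ t, chk3 f_pm_102_s t 123 60 1 = true :=
  ⟨(b (a (b (l 3) (a (b (l 3) (b (a (a (a (l 16777256) (l 98952018679)) (l 147807271799)) (l 3)) (c (a (l 16777456) (l 135459240711)) (a (l 16776136) (l 135459240663))))) (l 3))) (l 3)) (a (b (b (a (a (l 16778064) (a (l 16777640) (b (a (l 16776536) (l 91972695831)) (l 16777568)))) (a (b (l 164987140167) (a (a (l 16777352) (l 39896217895)) (l 132774886567))) (l 3))) (a (l 16778520) (b (a (l 16776536) (a (a (l 77477181671) (l 98415146535)) (l 3))) (a (l 16777888) (a (l 16777512) (a (l 16777288) (l 80698408263))))))) (a (a (a (l 16777336) (l 16779728)) (l 16776680)) (c (l 16777216) (l 16777160)))) (b (b (l 3) (a (a (a (a (l 148344142263) (l 3)) (l 3)) (l 3)) (l 3))) (a (b (b (a (a (l 29158800231) (a (l 84456504567) (l 141901692103))) (l 3)) (a (l 16777568) (a (a (l 38285605783) (l 105931340839)) (l 151565368103)))) (a (l 16778064) (a (l 16777704) (b (b (l 47949282311) (l 16777392)) (l 16777632))))) (b (l 3) (a (a (b (b (l 3) (l 104857599079))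 (l 16777392)) (b (l 3) (b (l 101099501319) (l 41506831383)))) (c (l 169282106503) (l 168208364567)))))))), by decide +kernel⟩

def k43_pm_102_s : ∃ t, chk3 f_pm_102_s t 122 61 1 = true :=
  ⟨(b (a (b (c (l 16784336) (l 16784392)) (c (l 16785472) (l 16785584))) (a (b (c (l 16782888) (l 16782856)) (l 16784000)) (b (c (l 16781920) (l 16781832)) (c (l 16783032) (l 16783000))))) (a (b (b (a (l 16786856) (l 16785952)) (a (l 16788072) (l 16797048))) (a (l 16789936) (l 16778112))) (b (c (l 16784760) (l 16784824)) (b (a (c (l 16786304) (l 16786448)) (l 16785304)) (a (l 16787632) (c (l 16786144) (l 16786280))))))), by decide +kernel⟩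

def k44_pm_102_s : ∃ t, chk3 f_pm_102_s t 123 61 1 = true :=
  ⟨(b (a (a (b (a (b (b (a (l 16778280) (l 16780536)) (l 16781016)) (l 16781392)) (b (b (l 16780152) (a (l 16778008) (l 16780280))) (c (l 16781048) (l 16780912)))) (c (l 16782056) (l 16781968))) (a (b (b (l 16779760) (a (b (l 16777744) (l 16780656)) (b (l 16780064) (l 16777920)))) (c (l 16781320) (l 16781200))) (b (a (b (l 16779352) (b (l 16779832) (l 16777728))) (l 16779416)) (b (a (l 16780600) (b (a (l 16780296) (l 16780128)) (l 16780480))) (l 16781048))))) (a (b (c (l 16778824) (l 16778728)) (a (b (a (b (l 16779872) (l 16780280)) (b (l 16779672) (a (l 16780064) (l 16779888)))) (l 16780544)) (b (c (l 16779456) (l 16776672)) (b (a (a (l 16780120) (l 16780000)) (a (l 16779824) (l 16779664))) (l 16780200))))) (a (b (c (l 16776784) (l 16776728)) (b (l 16778968) (b (l 16779400) (a (a (l 16779936) (l 16782400)) (a (l 16779608) (l 16779488)))))) (b (b (a (b (a (l 16776648) (a (l 45264927799) (l 95730793511))) (l 16777576)) (c (b (l 136532982855)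 (l 16777336)) (b (l 136532982823) (l 16776672)))) (l 16777912)) (c (l 16778864) (l 16776120)))))) (a (b (c (a (l 16783288) (l 16782296)) (a (l 16783272) (l 16782232))) (a (b (l 16784288) (l 16784928)) (c (l 16783640) (l 16783640)))) (b (a (c (b (l 16780992) (l 16781632)) (l 16776600)) (a (b (c (l 16780320) (l 16780160)) (l 16780816)) (b (a (b (a (l 16781048) (l 16780872)) (l 16779952)) (b (l 16779352) (a (l 16779792) (l 16782312)))) (l 16780320)))) (c (a (l 16782640) (l 16781656)) (a (l 16782592) (l 16776392)))))), by decide +kernel⟩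

def k45_pm_102_s : ∃ t, chk3 f_pm_102_s t 30 31 1 = true :=
  ⟨(b (a (b (a (c (l 16782424) (l 16783888)) (c (l 16797616) (l 16777624))) (a (b (c (l 16808216) (l 16789008)) (l 16812040)) (b (a (l 16803944) (l 16800992)) (a (l 16807392) (l 16783264))))) (a (b (a (b (l 16791968) (l 16794864)) (b (l 16788888) (l 16791760))) (b (l 16785792) (a (b (l 16800072) (l 16801768)) (l 16776624)))) (b (b (a (b (a (l 16791296) (c (l 16784616) (l 16784672))) (a (l 16787296) (l 16780680))) (a (b (l 16783704) (c (l 16784400) (l 16779200))) (c (l 16783088) (l 16783064)))) (a (l 16788664) (a (b (l 16785776) (l 16787072)) (b (a (l 16784600) (l 16783904)) (l 16785616))))) (a (c (l 16792840) (l 16772488)) (b (l 16783256) (l 16791488)))))) (a (b (a (l 16795944) (c (l 16809696) (l 16811424))) (b (a (b (l 16821104) (l 16801408)) (l 16794200)) (a (l 16821120) (l 16784288)))) (b (a (b (a (l 16804088) (l 16780128)) (l 16784752)) (b (a (c (l 16776408) (l 16787816)) (b (l 16793784) (l 16782208))) (c (l 16777880) (l 16778880))))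 (a (b (l 16788056) (b (c (l 16810024) (l 16790584)) (l 16809432))) (b (c (l 16802016) (l 16782224)) (b (a (l 16785256) (l 16782128)) (l 16782928))))))), by decide +kernel⟩

def k46_pm_102_s : ∃ t, chk3 f_pm_102_s t 62 60 1 = true :=
  ⟨(l 3), by decide +kernel⟩

def k47_pm_102_s : ∃ t, chk3 f_pm_102_s t 124 122 1 = true :=
  ⟨(a (b (a (a (b (b (l 3) (a (a (b (l 105394469047) (l 16777256)) (l 135459241223)) (l 3))) (a (l 16776936) (b (b (l 109152567047) (l 16776624)) (l 16777520)))) (b (l 3) (a (b (l 146733529943) (a (l 16777360) (b (l 82845891175) (l 16777336)))) (b (l 3) (a (b (l 3) (l 16776856)) (l 149417884711)))))) (l 3)) (a (a (c (l 16778400) (l 16778304)) (b (c (l 15200156615) (b (l 16777480) (l 16777760))) (l 16776896))) (a (b (a (b (b (c (l 97341404823) (l 130090532231)) (c (l 16777216) (l 39359347831))) (l 16777480)) (b (l 163376527975) (b (c (l 88214600711) (l 87677730439)) (l 16777336)))) (l 16777464)) (a (a (b (b (l 3) (b (l 3) (l 95193922887))) (l 16777544)) (b (l 169282107303)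 (b (b (l 46875540791) (l 16777376)) (l 16777584)))) (b (l 3) (b (b (l 146196659383) (a (l 16777256) (l 87140858375))) (l 16777432))))))) (b (l 3) (a (a (b (l 3) (b (l 3) (a (b (a (l 81772150007) (l 107541952535)) (c (l 16777288) (l 16777280))) (c (l 144586046327) (l 145122917191))))) (l 3)) (l 3)))), by decide +kernel⟩

def k48_pm_102_s : ∃ t, chk3 f_pm_102_s t 248 123 1 = true :=
  ⟨(b (a (a (a (b (b (l 16779176) (a (l 16780840) (l 16779368))) (l 16779944)) (b (l 16779072) (b (b (l 16779464) (l 16779640)) (l 16779864)))) (b (l 16778776) (a (b (b (l 16779232) (l 16779360)) (l 16779664)) (b (l 16779088) (b (l 16779272) (l 16779496)))))) (b (c (l 16778192) (l 16778104)) (a (b (l 16778768) (c (l 16779072) (l 16776272))) (l 16778496)))) (a (c (b (l 16780336) (l 16781016)) (b (l 16780176) (l 16780896))) (a (b (b (a (b (l 16779416) (l 16779552)) (b (l 16779120) (l 16779328))) (l 16779680)) (l 16780208)) (b (b (l 16778880) (a (b (l 16779240) (l 16779408)) (b (l 16779016) (l 16779152)))) (c (l 16779864)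 (l 16779688)))))), by decide +kernel⟩

def k49_pm_102_s : ∃ t, chk3 f_pm_102_s t 249 123 1 = true :=
  ⟨(b (b (b (a (b (a (a (l 16777440) (a (l 16777288) (l 94657051991))) (l 168745236775)) (a (l 16777480) (a (a (l 47949282615) (l 100562630871)) (l 3)))) (l 3)) (a (a (l 16777680) (a (c (l 16777392) (l 16777368)) (b (a (l 86603988119) (l 3)) (a (l 16777312) (a (l 16777208) (l 101099503095)))))) (a (a (l 162302786151) (l 3)) (l 3)))) (a (c (a (l 16778136) (l 16777728)) (c (l 16776568) (l 16776528))) (a (a (b (b (a (l 40969960759) (c (l 93046438311) (l 93046438279))) (l 16777336)) (l 16777544)) (a (b (a (b (l 3) (l 78014053815)) (l 140827950343)) (l 16777400)) (b (l 169282108199) (a (l 16776992) (b (l 84993375655) (l 16777344)))))) (b (l 3) (a (b (l 145659788439) (a (l 16776928) (a (l 79087795079) (l 101099502119)))) (l 3)))))) (b (a (c (l 16776872) (l 16777064)) (b (a (l 16777712) (a (l 16777096) (b (a (c (l 82309020999) (l 82309020983)) (l 152102239591)) (c (l 38285606071) (c (l 16776944) (l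 32380026167)))))) (c (l 16777168) (l 16777104)))) (a (a (a (b (b (l 16779072) (l 16779304)) (l 16779520)) (c (b (l 16779000) (l 16779440)) (b (l 16778808) (l 16779248)))) (b (l 16778656) (a (b (l 16778928) (l 16780464)) (l 16778808)))) (c (l 16777608) (l 16777496))))), by decide +kernel⟩

def k50_pm_102_s : ∃ t, chk3 f_pm_102_s t 125 61 1 = true :=
  ⟨(b (l 3) (a (a (b (l 3) (a (b (a (b (b (l 3) (c (l 137606724887) (l 137606724855))) (b (a (l 16777280) (a (l 79087795639) (l 92509567703))) (l 16777376))) (b (l 3) (b (l 3) (a (a (l 16777240) (l 86603988375)) (l 140291079623))))) (a (l 16777384) (a (l 16777240) (b (c (l 16777000) (l 30232542615)) (l 16777608))))) (b (l 3) (b (a (a (b (a (l 79624666631) (l 101636372919)) (l 16777304)) (b (l 3) (b (l 113447533975) (l 16776896)))) (c (l 164450269751) (l 163913398775))) (a (l 16777464) (a (b (b (l 71571602551) (l 16777280)) (l 16777384)) (b (c (l 94120180071) (l 129553661479)) (l 35064380903)))))))) (a (a (a (b (l 3) (b (l 3) (b (l 3) (b (l 3) (b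 (l 101636373127) (l 73719086535)))))) (l 3)) (l 3)) (l 3))) (l 3))), by decide +kernel⟩

def k51_pm_102_s : ∃ t, chk3 f_pm_102_s t 63 30 1 = true :=
  ⟨(l 3), by decide +kernel⟩

def k52_pm_102_s : ∃ t, chk3 f_pm_102_s t 124 62 1 = true :=
  ⟨(b (a (b (c (a (l 16782104) (b (l 16780752) (l 16781488))) (a (l 16782032) (b (l 16780624) (l 16781392)))) (a (b (l 16783216) (a (l 16784520) (a (l 16783928) (l 16783584)))) (b (l 16782208) (c (l 16782960) (l 16782936))))) (a (b (b (a (l 16779944) (a (l 16779568) (b (b (l 16780376) (l 16779240)) (l 16779504)))) (c (l 16780512) (l 16780376))) (c (l 16781648) (b (l 16781168) (l 16781984)))) (b (a (a (b (b (a (b (l 16778904) (l 16779072)) (l 16778824)) (l 16779296)) (l 16779816)) (b (b (l 16778720) (b (a (l 16778992) (l 16778864)) (l 16779144))) (l 16779568))) (b (a (b (l 16778520) (b (l 16778736) (l 16778840))) (l 16778464)) (b (a (c (l 16779288) (l 16776488)) (b (l 16778784) (a (l 16779064) (l 16778928)))) (l 16779384)))) (c (b (l 16780280) (l 16781048))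 (b (l 16780144) (l 16780952)))))) (a (b (a (l 16786200) (b (a (l 16784448) (a (l 16783864) (l 16783480))) (l 16785408))) (c (l 16788256) (l 16788592))) (b (b (a (a (a (l 16783144) (l 16782896)) (l 16782568)) (l 16781808)) (b (a (c (l 16783640) (l 16783664)) (l 16782432)) (a (l 16784280) (a (l 16783200) (l 16782552))))) (a (l 16786112) (a (l 16784976) (b (l 16778352) (l 16784952))))))), by decide +kernel⟩

def k53_pm_102_s : ∃ t, chk3 f_pm_102_s t 250 124 1 = true :=
  ⟨(b (a (b (c (a (l 16778224) (l 16777152)) (a (l 16778120) (l 16777088))) (b (a (c (l 16778632) (l 16778472)) (l 16778200)) (a (a (a (l 16779120) (b (l 16778848) (l 16779048))) (a (b (l 16778760) (l 16778944)) (l 16778696))) (l 16778488)))) (b (b (a (b (a (a (l 16777328) (b (l 102173244999) (l 16777248))) (c (l 154249722983) (l 150491626567))) (a (l 16777416) (a (c (l 16776912) (l 38822477207)) (b (l 168745237959) (l 93583310359))))) (l 3)) (b (a (c (l 16777136) (l 16273898983)) (a (a (b (l 93046438711) (l 48486153751)) (l 163913399575))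 (l 3))) (a (l 16777592) (a (a (l 16777344) (b (c (l 85530246647) (l 87677730359)) (l 16777272))) (a (b (l 3) (l 112373792167)) (l 3)))))) (a (c (l 16777984) (l 16777248)) (b (a (l 16777176) (b (a (b (l 45264928295) (l 16777320)) (b (l 153175981607) (c (l 78014053815) (l 78550924727)))) (l 16777040))) (a (l 16777784) (l 16777584)))))) (a (b (a (a (l 16779584) (b (l 16779176) (l 16779528))) (a (b (b (a (l 16778864) (l 16778728)) (l 16779024)) (l 16779272)) (b (a (b (l 16778656) (l 16778792)) (l 16778632)) (c (l 16779168) (l 16776704))))) (c (l 16780056) (l 16779928))) (b (a (b (l 16778376) (a (b (l 16778664) (c (l 16778984) (l 16778808))) (l 16778536))) (c (l 16776864) (l 16777088))) (a (a (l 16779352) (b (b (a (l 16778896) (l 16778736)) (l 16779000)) (l 16779296))) (a (b (b (l 16778600) (c (l 16778832) (l 16778664))) (l 16779080)) (b (l 16778472) (b (c (l 16778760) (l 16775976)) (l 16778920)))))))), by decide +kernel⟩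

def k54_pm_102_s : ∃ t, chk3 f_pm_102_s t 251 248 1 = true :=
  ⟨(a (b (l 3) (a (a (b (b (l 3) (a (b (a (l 87677730487) (l 112910662567)) (l 42580573767)) (l 153175981431))) (a (l 16777432) (b (b (c (l 72645344727) (l 74255957527)) (l 16777296)) (l 16777400)))) (b (l 3) (a (b (b (l 3) (c (l 101636374087) (l 102173244983))) (c (l 16777296) (l 16777288))) (b (l 3) (b (c (l 96804535047) (l 96804535031)) (c (l 67276635639) (l 67276635623))))))) (l 3))) (l 3)), by decide +kernel⟩

def k55_pm_102_s : ∃ t, chk3 f_pm_102_s t 251 249 1 = true :=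
  ⟨(a (a (a (b (c (l 16777848) (l 16777784)) (a (b (l 16778312) (b (l 16778544) (l 16778688))) (l 16778360))) (b (b (a (l 16777512) (l 16777080)) (l 16777752)) (c (l 16778264) (l 16778152)))) (b (a (b (b (a (b (a (l 69424119447) (l 98415148071)) (l 16777264)) (c (l 139217337815) (l 139217337783))) (a (l 16777376) (a (l 16777304) (b (l 82309021303) (l 16777288))))) (l 16777216)) (b (b (l 3) (b (l 164987141271) (a (a (l 51170508471) (l 93583309959)) (l 3)))) (b (a (l 29695672023) (b (a (l 79624666391) (l 3)) (c (l 16776976) (l 44728057383)))) (l 16777408)))) (c (c (l 16777952) (l 16777912)) (c (l 16777872) (l 16777176))))) (a (a (b (b (l 3) (b (c (l 162302786535) (l 161765915575)) (a (b (a (l 16777064) (l 88214600871)) (l 16777288)) (a (b (l 3) (c (l 89825214119) (l 74792828247))) (l 168745237895))))) (b (a (l 16777472) (b (a (l 16777320) (b (l 67276635815) (l 16777304))) (l 16777440))) (l 16777064))) (b (l 3) (b (b (a (b (l 149417885255) (a (l 16777240) (c (l 82845891831) (l 83382762743))))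 (l 3)) (a (l 16777008) (b (a (l 80161537655) (l 109152566199)) (c (l 16777248) (l 39359348311))))) (c (l 16777520) (l 16777488))))) (b (l 3) (a (a (b (b (l 3) (c (l 150491626887) (l 147270401399))) (b (a (l 16777128) (b (c (l 78014053655) (l 78550924599)) (l 16777280))) (l 16777416))) (b (l 3) (b (a (b (l 3) (c (l 72645344903) (l 73182215815))) (l 156397206999)) (c (l 16776976) (l 33990639207))))) (b (l 3) (b (l 3) (a (b (c (c (l 97878276887) (l 94120180487)) (l 133848628871)) (a (l 16777256) (a (l 72108474087) (l 14)))) (l 168745237719)))))))), by decide +kernel⟩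

def k56_pm_102_s : ∃ t, chk3 f_pm_102_s t 125 125 1 = true :=
  ⟨(a (b (a (c (b (l 16780848) (l 16781656)) (b (l 16780752) (l 16781600))) (c (b (a (l 16780088) (l 16779584)) (l 16780640)) (b (a (l 16779968) (l 16779448)) (l 16780552)))) (b (a (a (b (l 16782464) (l 16783160)) (b (l 16781992) (l 16782400))) (c (l 16781464) (l 16781416))) (b (a (l 16783504) (a (l 16778432) (l 16781816))) (a (l 16784176) (a (l 16783048) (a (l 16782512) (l 14))))))) (a (a (b (b (b (a (c (l 16776440) (c (l 16778952) (l 16776256))) (b (l 16779208) (c (l 16778872) (l 16778720)))) (l 16779200)) (c (l 16779872) (l 16779760))) (b (l 16780648) (l 14))) (b (b (a (b (c (l 16778504) (l 16778360)) (b (c (l 16778800) (l 16776024)) (l 16778912))) (b (l 16778248) (b (l 16778488) (c (l 16781344) (l 16776608))))) (b (c (l 16779192) (l 16779056)) (l 16779496))) (l 14))) (b (a (a (b (c (l 16778248) (l 16778144)) (b (b (a (l 16778656) (l 16778520)) (l 14)) (l 14))) (b (c (l 16776704) (l 16777112)) (l 14))) (b (a (c (l 16777456) (l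 16777360)) (a (a (b (l 16777456) (l 14)) (l 14)) (l 14))) (l 14))) (l 14)))), by decide +kernel⟩

def k57_pm_102_s : ∃ t, chk3 f_pm_102_s t 63 62 1 = true :=
  ⟨(b (l 3) (l 14)), by decide +kernel⟩

def k58_pm_102_s : ∃ t, chk3 f_pm_102_s t 31 63 1 = true :=
  ⟨(a (b (a (b (a (a (l 16792144) (l 16790664)) (c (l 16788200) (l 16788560))) (a (b (c (l 16793504) (l 16783712)) (l 16795344)) (b (a (l 16791336) (l 16789872)) (c (l 16781560) (l 16782168))))) (a (b (a (l 16780808) (a (l 16784896) (l 14))) (l 14)) (l 14))) (a (a (b (l 16797760) (b (l 16789488) (l 16799784))) (b (l 16782800) (l 14))) (l 14))) (l 14)), by decide +kernel⟩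

theorem s59_pm_102_s : ∃ t, chk3 f_pm_102_s t 251 124 1 = true := ex3_b k54_pm_102_s k55_pm_102_s

theorem s60_pm_102_s : ∃ t, chk3 f_pm_102_s t 125 124 1 = true := ex3_a k53_pm_102_s s59_pm_102_s

theorem s61_pm_102_s : ∃ t, chk3 f_pm_102_s t 125 62 1 = true := ex3_b s60_pm_102_s k56_pm_102_s

theorem s62_pm_102_s : ∃ t, chk3 f_pm_102_s t 62 62 1 = true := ex3_a k52_pm_102_s s61_pm_102_s

theorem s63_pm_102_s : ∃ t, chk3 f_pm_102_s t 31 62 1 = true := ex3_a s62_pm_102_s k57_pm_102_s

theorem s64_pm_102_s : ∃ t, chk3 f_pm_102_s t 31 31 1 = true := ex3_b s63_pm_102_s k58_pm_102_s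

theorem s65_pm_102_s : ∃ t, chk3 f_pm_102_s t 124 123 1 = true := ex3_a k48_pm_102_s k49_pm_102_s

theorem s66_pm_102_s : ∃ t, chk3 f_pm_102_s t 124 61 1 = true := ex3_b k47_pm_102_s s65_pm_102_s

theorem s67_pm_102_s : ∃ t, chk3 f_pm_102_s t 62 61 1 = true := ex3_a s66_pm_102_s k50_pm_102_s

theorem s68_pm_102_s : ∃ t, chk3 f_pm_102_s t 62 30 1 = true := ex3_b k46_pm_102_s s67_pm_102_s

theorem s69_pm_102_s : ∃ t, chk3 f_pm_102_s t 31 30 1 = true := ex3_a s68_pm_102_s k51_pm_102_s

theorem s70_pm_102_s : ∃ t, chk3 f_pm_102_s t 31 15 1 = true := ex3_b s69_pm_102_s s64_pm_102_s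

theorem s71_pm_102_s : ∃ t, chk3 f_pm_102_s t 61 61 1 = true := ex3_a k43_pm_102_s k44_pm_102_s

theorem s72_pm_102_s : ∃ t, chk3 f_pm_102_s t 61 60 1 = true := ex3_a k41_pm_102_s k42_pm_102_s

theorem s73_pm_102_s : ∃ t, chk3 f_pm_102_s t 61 30 1 = true := ex3_b s72_pm_102_s s71_pm_102_s

theorem s74_pm_102_s : ∃ t, chk3 f_pm_102_s t 30 30 1 = true := ex3_a k40_pm_102_s s73_pm_102_s

theorem s75_pm_102_s : ∃ t, chk3 f_pm_102_s t 30 15 1 = true := ex3_b s74_pm_102_s k45_pm_102_s

theorem s76_pm_102_s : ∃ t, chk3 f_pm_102_s t 15 15 1 = true := ex3_a s75_pm_102_s s70_pm_102_s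

theorem s77_pm_102_s : ∃ t, chk3 f_pm_102_s t 7 15 1 = true := ex3_a k39_pm_102_s s76_pm_102_s

theorem s78_pm_102_s : ∃ t, chk3 f_pm_102_s t 60 29 1 = true := ex3_b k35_pm_102_s k36_pm_102_s

theorem s79_pm_102_s : ∃ t, chk3 f_pm_102_s t 30 29 1 = true := ex3_a s78_pm_102_s k37_pm_102_s

theorem s80_pm_102_s : ∃ t, chk3 f_pm_102_s t 30 14 1 = true := ex3_b k34_pm_102_s s79_pm_102_s

theorem s81_pm_102_s : ∃ t, chk3 f_pm_102_s t 15 14 1 = true := ex3_a s80_pm_102_s k38_pm_102_s

theorem s82_pm_102_s : ∃ t, chk3 f_pm_102_s t 29 28 1 = true := ex3_a k31_pm_102_s k32_pm_102_s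

theorem s83_pm_102_s : ∃ t, chk3 f_pm_102_s t 29 14 1 = true := ex3_b s82_pm_102_s k33_pm_102_s

theorem s84_pm_102_s : ∃ t, chk3 f_pm_102_s t 14 14 1 = true := ex3_a k30_pm_102_s s83_pm_102_s

theorem s85_pm_102_s : ∃ t, chk3 f_pm_102_s t 7 14 1 = true := ex3_a s84_pm_102_s s81_pm_102_s

theorem s86_pm_102_s : ∃ t, chk3 f_pm_102_s t 7 7 1 = true := ex3_b s85_pm_102_s s77_pm_102_s

theorem s87_pm_102_s : ∃ t, chk3 f_pm_102_s t 28 27 1 = true := ex3_a k26_pm_102_s k27_pm_102_s

theorem s88_pm_102_s : ∃ t, chk3 f_pm_102_s t 28 13 1 = true := ex3_b k25_pm_102_s s87_pm_102_s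

theorem s89_pm_102_s : ∃ t, chk3 f_pm_102_s t 14 13 1 = true := ex3_a s88_pm_102_s k28_pm_102_s

theorem s90_pm_102_s : ∃ t, chk3 f_pm_102_s t 14 6 1 = true := ex3_b k24_pm_102_s s89_pm_102_s

theorem s91_pm_102_s : ∃ t, chk3 f_pm_102_s t 7 6 1 = true := ex3_a s90_pm_102_s k29_pm_102_s

theorem s92_pm_102_s : ∃ t, chk3 f_pm_102_s t 7 3 1 = true := ex3_b s91_pm_102_s s86_pm_102_s

theorem s93_pm_102_s : ∃ t, chk3 f_pm_102_s t 27 26 1 = true := ex3_a k20_pm_102_s k21_pm_102_s

theorem s94_pm_102_s : ∃ t, chk3 f_pm_102_s t 27 13 1 = true := ex3_b s93_pm_102_s k22_pm_102_s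

theorem s95_pm_102_s : ∃ t, chk3 f_pm_102_s t 13 13 1 = true := ex3_a k19_pm_102_s s94_pm_102_s

theorem s96_pm_102_s : ∃ t, chk3 f_pm_102_s t 13 12 1 = true := ex3_a k17_pm_102_s k18_pm_102_s

theorem s97_pm_102_s : ∃ t, chk3 f_pm_102_s t 13 6 1 = true := ex3_b s96_pm_102_s s95_pm_102_s

theorem s98_pm_102_s : ∃ t, chk3 f_pm_102_s t 6 6 1 = true := ex3_a k16_pm_102_s s97_pm_102_s

theorem s99_pm_102_s : ∃ t, chk3 f_pm_102_s t 6 3 1 = true := ex3_b s98_pm_102_s k23_pm_102_s

theorem s100_pm_102_s : ∃ t, chk3 f_pm_102_s t 3 3 1 = true := ex3_a s99_pm_102_s s92_pm_102_s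

theorem s101_pm_102_s : ∃ t, chk3 f_pm_102_s t 3 1 1 = true := ex3_b k15_pm_102_s s100_pm_102_s

theorem s102_pm_102_s : ∃ t, chk3 f_pm_102_s t 45 40 1 = true := ex3_a k8_pm_102_s k9_pm_102_s

theorem s103_pm_102_s : ∃ t, chk3 f_pm_102_s t 45 20 1 = true := ex3_b s102_pm_102_s k10_pm_102_s

theorem s104_pm_102_s : ∃ t, chk3 f_pm_102_s t 22 20 1 = true := ex3_a k7_pm_102_s s103_pm_102_s

theorem s105_pm_102_s : ∃ t, chk3 f_pm_102_s t 22 10 1 = true := ex3_b s104_pm_102_s k11_pm_102_s

theorem s106_pm_102_s : ∃ t, chk3 f_pm_102_s t 11 10 1 = true := ex3_a s105_pm_102_s k12_pm_102_s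

theorem s107_pm_102_s : ∃ t, chk3 f_pm_102_s t 11 5 1 = true := ex3_b s106_pm_102_s k13_pm_102_s

theorem s108_pm_102_s : ∃ t, chk3 f_pm_102_s t 5 5 1 = true := ex3_a k6_pm_102_s s107_pm_102_s

theorem s109_pm_102_s : ∃ t, chk3 f_pm_102_s t 21 9 1 = true := ex3_b k3_pm_102_s k4_pm_102_s

theorem s110_pm_102_s : ∃ t, chk3 f_pm_102_s t 21 4 1 = true := ex3_b k2_pm_102_s s109_pm_102_s

theorem s111_pm_102_s : ∃ t, chk3 f_pm_102_s t 10 4 1 = true := ex3_a k1_pm_102_s s110_pm_102_s

theorem s112_pm_102_s : ∃ t, chk3 f_pm_102_s t 5 4 1 = true := ex3_a s111_pm_102_s k5_pm_102_s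

theorem s113_pm_102_s : ∃ t, chk3 f_pm_102_s t 5 2 1 = true := ex3_b s112_pm_102_s s108_pm_102_s

theorem s114_pm_102_s : ∃ t, chk3 f_pm_102_s t 2 2 1 = true := ex3_a k0_pm_102_s s113_pm_102_s

theorem s115_pm_102_s : ∃ t, chk3 f_pm_102_s t 2 1 1 = true := ex3_b s114_pm_102_s k14_pm_102_s

theorem s116_pm_102_s : ∃ t, chk3 f_pm_102_s t 1 1 1 = true := ex3_a s115_pm_102_s s101_pm_102_s

theorem c_pm_102_s : CertNE 536870912 536870912 0 536870912 697932185 42949674 3 eng mog cd0q1 cd0q2 pd0 false true false .npp 1 0 2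
    ndB0q1 ndB0q2 pcB0 cut_pm_102_s Ext.none :=
  certNE0 (fam := false) (s1 := true) (s2 := false) (a := 1) (b := 0) (c := 2) (cn := .npp) (n1 := ndB0q1) (n2 := ndB0q2) (pc := pcB0) (cut := cut_pm_102_s) (xt := Ext.none) (P1 := 536870912) (W1 := 536870912) (P2 := 0) (W2 := 536870912) (P3 := 697932185) (W3 := 42949674) (N0 := 3) (En := eng) (mo := mog) (C1 := cd0q1) (C2 := cd0q2) (C3 := pd0)
    rfl s116_pm_102_s

noncomputable def cut_pm_102_t : Cut := Cut.of [[⟨3, 0, 0, 2845415833⟩], [⟨0, 1, 0, 33554432⟩, ⟨1, 0, 0, 33554432⟩, ⟨2, 1, 0, 33554432⟩], [⟨0, 0, 1, 20971520⟩, ⟨1, 1, 2, 20971520⟩, ⟨2, 1, 0, 33554432⟩]]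

noncomputable def f_pm_102_t : ℕ → ℕ → ℕ → ℕ → Bool := onCell 536870912 536870912 0 536870912 697932185 42949674
    (rowNE 3 eng mog cd0q1 cd0q2 pd0 0 false true false .npp 1 0 2 (qsf 536870912 536870912 0 536870912 0) ndB0q1 ndB0q2 pcB0 cut_pm_102_t Ext.none)

def k0_pm_102_t : ∃ t, chk3 f_pm_102_t t 1 1 1 = true :=
  ⟨(l 6), by decide +kernel⟩

theorem c_pm_102_t : CertNE 536870912 536870912 0 536870912 697932185 42949674 3 eng mog cd0q1 cd0q2 pd0 false true false .npp 1 0 2
    ndB0q1 ndB0q2 pcB0 cut_pm_102_t Ext.none :=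
  certNE0 (fam := false) (s1 := true) (s2 := false) (a := 1) (b := 0) (c := 2) (cn := .npp) (n1 := ndB0q1) (n2 := ndB0q2) (pc := pcB0) (cut := cut_pm_102_t) (xt := Ext.none) (P1 := 536870912) (W1 := 536870912) (P2 := 0) (W2 := 536870912) (P3 := 697932185) (W3 := 42949674) (N0 := 3) (En := eng) (mo := mog) (C1 := cd0q1) (C2 := cd0q2) (C3 := pd0)
    rfl k0_pm_102_t

end Pool.Agent.Strip051.G.I6500_6900.Tab.CS.BB00

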