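import Pool.Agent.Strip051.G.I6500_6900.Tab
import Pool.Agent.Strip051.PB.StripB

/-! # Strips, near vertex: certificates 6 (generated) -/

set_option linter.all false
set_option maxRecDepth 100000

namespace Pool.Agent.Strip051.G.I6500_6900.Tab.CS.BB00

open Pool.Agent.Strip051.PB Pool.Agent.Strip051.PB.T
open Pool.Agent.Strip051.G.I6500_6900.Tab

noncomputable def cut_pm_112_s : Cut := Cut.of [[⟨4, 0, 0, 1449551462⟩]]

noncomputable def f_pm_112_s : ℕ → ℕ → ℕ → ℕ → Bool := onCell 536870912 536870912 0 536870912 697932185 42949674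
    (rowNE 3 eng mog cd0q1 cd0q2 pd1 0 false true false .dn 1 1 2 (qsf 536870912 536870912 0 536870912 1) ndB0q1 ndB0q2 pcB1 cut_pm_112_s Ext.none)

def k0_pm_112_s : ∃ t, chk3 f_pm_112_s t 8 4 1 = true :=
  ⟨(b (a (b (a (l 16712600) (b (a (l 16748792) (b (l 16736448) (l 16730944))) (l 16719368))) (a (l 16690920) (l 16703000))) (a (b (b (a (l 16739632) (l 16745816)) (a (l 16749808) (b (l 16737096) (l 16731824)))) (l 16735840)) (b (a (b (l 16751704) (l 16761056)) (b (l 16768032) (l 16746184))) (b (a (l 16729448) (b (l 16737552) (l 16732336))) (l 16720824))))) (a (b (a (l 16669480) (l 16681048)) (a (b (l 16652776) (l 16641448)) (l 16658032))) (b (a (l 16692368) (l 16703448)) (a (l 16668496) (l 16678696))))), by decide +kernel⟩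

def k1_pm_112_s : ∃ t, chk3 f_pm_112_s t 36 16 1 = true :=
  ⟨(a (b (b (l 16774088) (l 16760488)) (l 16751968)) (b (b (a (l 16775800) (a (l 16775680) (b (b (a (l 16775976) (a (l 16777176) (b (l 105931340215) (l 16776520)))) (l 16777512)) (l 16772728)))) (c (l 16776992) (l 16776496))) (l 16768184))), by decide +kernel⟩

def k2_pm_112_s : ∃ t, chk3 f_pm_112_s t 37 16 1 = true :=
  ⟨(b (a (b (a (b (a (a (b (b (l 160692174343) (a (l 16776880) (l 105931340215))) (l 16775984)) (b (l 162302786775) (a (l 16776520) (b (l 105931340215) (l 16776528))))) (a (b (l 3) (b (l 160155303431) (a (l 16776880) (l 106468211127)))) (l 163376527959))) (b (a (l 16777520) (a (l 16775984) (a (l 16776520) (b (l 106468211143) (l 16776528))))) (l 16776144))) (b (l 3) (a (a (b (b (l 160155303431) (a (l 16776880) (l 106468211143))) (l 16775984)) (b (l 161765915847) (a (l 16776528) (b (l 107005082055) (l 16776536))))) (a (b (l 3) (b (l 160155303415) (a (l 16776888) (l 107005082055)))) (l 162839657015)))))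 (a (b (l 16777256) (l 16769136)) (a (l 16775360) (b (b (a (l 16775992) (a (l 16776528) (b (l 107541952967) (l 16776536)))) (l 16777528)) (l 16772744))))) (b (l 3) (a (b (a (a (b (b (l 160692174327) (a (l 16776896) (l 108078823879))) (l 16776000)) (b (l 161765915831) (a (l 16777192) (b (l 108615694791) (l 16776544))))) (a (b (l 3) (b (l 160155303399) (a (l 16776904) (l 109152565703)))) (l 162839656999))) (b (b (a (l 16775280) (a (l 16776368) (a (l 16776904) (l 109689436615)))) (l 16777248)) (l 16776816))) (b (l 3) (a (a (b (b (l 160155303399) (a (l 16776912) (l 110226307527))) (l 16776016)) (b (l 161229044887) (b (a (l 16776912) (l 110763178439)) (l 16776384)))) (a (b (l 3) (b (l 160155303383) (a (l 16776920) (l 111836920263)))) (l 162302786055))))))) (b (a (c (l 16777000) (l 16776520)) (a (b (l 16777272) (l 16769152)) (b (b (b (a (l 16775296) (a (l 16776392) (a (l 16776928) (l 112373791175)))) (l 16777264)) (l 16776832)) (l 16777288)))) (a (l 16760552) (l 16774136)))),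 by decide +kernel⟩

def k3_pm_112_s : ∃ t, chk3 f_pm_112_s t 18 17 1 = true :=
  ⟨(a (b (a (l 16761400) (l 16746392)) (a (l 16729712) (b (l 16737776) (l 16732400)))) (a (b (l 16752024) (b (l 16743528) (l 16737632))) (b (l 16768160) (l 16746200)))), by decide +kernel⟩

def k4_pm_112_s : ∃ t, chk3 f_pm_112_s t 19 16 1 = true :=
  ⟨(a (b (l 3) (a (b (a (b (a (a (b (b (l 160692174279) (a (l 16777584) (l 112910662087))) (l 16776040)) (b (l 161229044855) (b (a (l 26474447607) (l 113984403911)) (l 16776408)))) (a (b (l 3) (b (l 160692174263) (a (l 26474447655) (l 115058145735)))) (l 162302786007))) (b (a (c (l 16775000) (l 16777528)) (a (l 16776056) (b (a (l 27548189495) (l 116131887543)) (l 16776424)))) (l 16776200))) (b (l 3) (a (a (b (b (l 160692174247) (a (a (l 16776880) (l 32380027687)) (l 116668758455))) (l 16776064)) (b (l 161229044823) (b (a (a (l 16776888) (l 33990640359)) (l 117742500263)) (l 16776440)))) (a (b (l 3) (b (l 161229045143) (a (a (l 16776896) (l 35064382199))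 (l 119353112983)))) (l 161765915047))))) (b (a (l 16777304) (a (l 16776872) (a (l 16776664) (b (b (a (a (l 16776904) (l 35601253127)) (l 120426854791)) (l 16776456)) (l 16775360))))) (c (l 16776000) (l 16775720)))) (b (l 3) (a (b (a (a (b (b (l 161229045127) (a (a (l 16776912) (l 36674994967)) (l 121500596599))) (l 16776104)) (b (l 161765915687) (b (a (b (l 102173246151) (l 16776840)) (l 122574338407)) (l 16776480)))) (a (b (l 3) (b (l 161229045095) (a (b (l 103783858887) (l 16776848)) (l 123648080231)))) (l 3))) (a (l 16776904) (a (l 16776704) (b (b (a (b (l 106468213383) (l 16776864)) (l 125258692967)) (l 16776496)) (l 16778016))))) (b (l 3) (a (a (b (b (l 3) (a (b (l 108615697031) (l 16776872)) (l 137069854503))) (l 16776144)) (b (l 3) (b (a (b (l 110226309783) (l 16776888)) (l 138680467223)) (l 16776520)))) (a (b (l 3) (b (l 3) (a (a (l 16776976) (l 99488889063)) (l 139754209047)))) (l 3)))))))) (l 3)), by decide +kernel⟩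

def k5_pm_112_s : ∃ t, chk3 f_pm_112_s t 38 17 1 = true :=
  ⟨(b (a (c (l 16774152) (l 16773576)) (b (a (l 16775872) (b (a (l 16776936) (a (l 16776736) (b (b (a (a (l 16776992) (l 101099501815)) (l 140827950855)) (l 16776544)) (l 16778064)))) (l 16777360))) (c (l 16776960) (l 16776504)))) (a (l 16751760) (c (l 16778776) (l 16777992)))), by decide +kernel⟩

def k6_pm_112_s : ∃ t, chk3 f_pm_112_s t 39 17 1 = true :=
  ⟨(b (a (b (a (b (a (a (b (b (l 3) (a (a (l 16777328) (l 102710114567)) (l 142438563575))) (l 16777504)) (b (l 3) (b (a (a (l 29695673063) (l 104857598231)) (l 143512305399)) (l 16776568)))) (a (b (l 3) (a (b (l 3) (a (l 31306285831) (l 106468210983))) (l 154786594199))) (l 3))) (a (l 16775656) (b (a (l 16777528) (b (a (a (l 33453769415) (l 108078823719)) (l 146733530839)) (l 16776600))) (l 16777728)))) (b (l 3) (a (a (a (b (c (l 135459241623) (b (l 3) (l 100025760103))) (l 16776056)) (b (l 155860336007) (l 16777088))) (b (l 3) (b (a (b (l 128479920711) (l 16776992))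 (l 149417885383)) (l 16776632)))) (a (b (l 3) (a (b (l 3) (b (l 131701146135) (l 16777008))) (l 157470948711))) (l 3))))) (a (c (l 16776040) (l 16775768)) (b (a (l 16775704) (b (c (a (l 16776288) (b (l 118816244983) (l 16776672))) (a (l 16776248) (b (a (l 105394469271) (l 145659788951)) (l 16776648)))) (l 16776472))) (l 16774784)))) (b (l 3) (a (b (a (b (a (a (b (l 3) (a (l 84456503559) (l 109689438903))) (l 158544690487)) (l 3)) (a (c (l 16776320) (l 16776280)) (b (a (l 98415147447) (l 144586047111)) (l 16776688)))) (b (l 3) (c (l 142438562951) (b (l 3) (a (l 122037468887) (l 3)))))) (b (a (l 16775192) (a (l 16777648) (b (l 114521275047) (l 16776728)))) (l 16775760))) (b (l 3) (a (a (b (l 136532982535) (l 16776368)) (b (l 3) (b (l 117742503047) (l 16776760)))) (b (l 3) (l 142975433751))))))) (b (a (c (l 16776920) (l 16776464)) (a (c (l 16776064) (l 16775800)) (b (a (l 16774496) (b (a (l 16776400) (b (l 120963728487) (l 16776800))) (l 16775280))) (l 16772216)))) (a (l 16760152)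 (l 16773920)))), by decide +kernel⟩

def k7_pm_112_s : ∃ t, chk3 f_pm_112_s t 9 9 1 = true :=
  ⟨(a (b (a (l 16714408) (b (a (l 16729000) (b (l 16737192) (l 16731280))) (l 16718792))) (a (l 16688720) (l 16698624))) (b (a (b (a (b (l 16742784) (l 16736448)) (l 16745160)) (a (l 16726912) (b (l 16735376) (l 16728792)))) (a (b (l 16771712) (b (l 16740872) (l 16733960))) (b (l 16769576) (l 16742976)))) (a (l 16729520) (b (a (l 16723384) (b (l 16753176) (l 16724920))) (l 16711248))))), by decide +kernel⟩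

def k8_pm_112_s : ∃ t, chk3 f_pm_112_s t 4 5 1 = true :=
  ⟨(a (b (a (b (a (l 16625376) (b (l 16640776) (l 16629456))) (l 6)) (b (a (b (l 16650216) (l 16638824)) (l 16674176)) (a (l 16621552) (l 16629776)))) (l 6)) (b (a (b (a (l 16662472) (l 16671240)) (a (b (l 16643176) (l 16631216)) (b (l 16651176) (l 16638352)))) (b (a (l 16680056) (l 16710120)) (a (l 16673224) (l 16660296)))) (a (b (l 16637520) (l 6)) (b (a (b (l 16632904) (l 16619080)) (b (l 16639920) (l 16625536))) (b (l 16604368) (l 16581984)))))), by decide +kernel⟩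

def k9_pm_112_s : ∃ t, chk3 f_pm_112_s t 40 2 1 = true :=
  ⟨(b (b (b (l 3) (b (l 3) (a (b (a (b (a (b (l 141901691879) (a (l 16776440) (b (l 123648083175) (l 16776832)))) (l 149954754823)) (a (l 16774536) (b (a (l 16776472) (a (l 38285608775) (l 117742503575))) (l 16775336)))) (b (l 3) (a (b (l 152639110007) (a (l 16776512) (l 107541951655))) (l 154786592887)))) (a (b (l 16777448) (l 16769040)) (b (a (l 16774568) (b (a (l 16776552) (l 109689435271)) (l 16775392))) (l 16777424)))) (b (l 3) (a (b (a (b (l 154249722631) (a (l 16776592) (l 111836918871))) (l 155323463655)) (a (l 16774608) (b (a (l 16776632) (l 114521278663)) (l 16775456)))) (b (l 3) (a (b (l 155323464311) (a (l 16777984) (l 117742504071))) (l 156397205319)))))))) (b (b (a (a (l 16771400) (c (l 16774656) (l 16774264))) (b (a (b (l 16777400) (l 16768824)) (b (a (l 16774656) (b (a (l 27548190807) (l 120963729463)) (l 16775528))) (l 16777384))) (c (l 16775984) (l 16775680)))) (a (l 16769640) (c (l 16770672) (l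 16765000)))) (b (a (b (l 16737736) (a (l 16728904) (l 16731512))) (l 16760712)) (a (l 16718984) (b (a (l 16726840) (l 16750528)) (l 16720592)))))) (b (b (a (l 16717272) (l 16722368)) (l 16689912)) (b (b (l 16647792) (l 57478520583)) (b (l 16613608) (l 1))))), by decide +kernel⟩

def k10_pm_112_s : ∃ t, chk3 f_pm_112_s t 41 2 1 = true :=
  ⟨(b (b (l 3) (b (b (a (b (a (b (a (a (b (l 3) (l 29158803639)) (l 146196658999)) (l 3)) (a (l 16774712) (b (a (l 31306287367) (l 127943051111)) (l 16775616)))) (b (l 3) (a (b (l 3) (c (l 108078820823) (a (l 33453771015) (l 130627405447)))) (l 3)))) (a (b (l 16774752) (l 16768616)) (b (a (l 16774784) (b (c (l 110226307095) (a (l 35601254759) (l 134385501767))) (l 16775712))) (l 16772128)))) (b (l 3) (a (b (a (b (l 3) (c (l 112910661639) (l 111836917159))) (l 3)) (a (l 16777488) (b (c (l 115595016151) (l 114521274311)) (l 16775824)))) (l 1)))) (a (a (l 16772680) (b (l 16777168) (l 16759208))) (a (b (b (l 16772136) (l 16768416)) (l 16762712))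 (l 1)))) (b (a (c (l 16761840) (l 16766736)) (a (l 59089329031) (l 1))) (a (b (l 16734120) (a (l 16745848) (b (l 16729720) (l 16725784)))) (l 1))))) (a (b (b (l 57478651735) (l 16697240)) (l 1)) (l 1))), by decide +kernel⟩

def k11_pm_112_s : ∃ t, chk3 f_pm_112_s t 21 2 1 = true :=
  ⟨(b (b (l 1) (l 1)) (l 1)), by decide +kernel⟩

def k12_pm_112_s : ∃ t, chk3 f_pm_112_s t 11 2 1 = true :=
  ⟨(l 1), by decide +kernel⟩

def k13_pm_112_s : ∃ t, chk3 f_pm_112_s t 2 3 1 = true :=
  ⟨(a (b (l 6) (l 6)) (b (l 1) (l 1))), by decide +kernel⟩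

def k14_pm_112_s : ∃ t, chk3 f_pm_112_s t 3 1 1 = true :=
  ⟨(l 1), by decide +kernel⟩

theorem s15_pm_112_s : ∃ t, chk3 f_pm_112_s t 20 2 1 = true := ex3_a k9_pm_112_s k10_pm_112_s

theorem s16_pm_112_s : ∃ t, chk3 f_pm_112_s t 10 2 1 = true := ex3_a s15_pm_112_s k11_pm_112_s

theorem s17_pm_112_s : ∃ t, chk3 f_pm_112_s t 5 2 1 = true := ex3_a s16_pm_112_s k12_pm_112_s

theorem s18_pm_112_s : ∃ t, chk3 f_pm_112_s t 19 17 1 = true := ex3_a k5_pm_112_s k6_pm_112_s

theorem s19_pm_112_s : ∃ t, chk3 f_pm_112_s t 19 8 1 = true := ex3_b k4_pm_112_s s18_pm_112_s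

theorem s20_pm_112_s : ∃ t, chk3 f_pm_112_s t 18 16 1 = true := ex3_a k1_pm_112_s k2_pm_112_s

theorem s21_pm_112_s : ∃ t, chk3 f_pm_112_s t 18 8 1 = true := ex3_b s20_pm_112_s k3_pm_112_s

theorem s22_pm_112_s : ∃ t, chk3 f_pm_112_s t 9 8 1 = true := ex3_a s21_pm_112_s s19_pm_112_s

theorem s23_pm_112_s : ∃ t, chk3 f_pm_112_s t 9 4 1 = true := ex3_b s22_pm_112_s k7_pm_112_s

theorem s24_pm_112_s : ∃ t, chk3 f_pm_112_s t 4 4 1 = true := ex3_a k0_pm_112_s s23_pm_112_s

theorem s25_pm_112_s : ∃ t, chk3 f_pm_112_s t 4 2 1 = true := ex3_b s24_pm_112_s k8_pm_112_s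

theorem s26_pm_112_s : ∃ t, chk3 f_pm_112_s t 2 2 1 = true := ex3_a s25_pm_112_s s17_pm_112_s

theorem s27_pm_112_s : ∃ t, chk3 f_pm_112_s t 2 1 1 = true := ex3_b s26_pm_112_s k13_pm_112_s

theorem s28_pm_112_s : ∃ t, chk3 f_pm_112_s t 1 1 1 = true := ex3_a s27_pm_112_s k14_pm_112_s

theorem c_pm_112_s : CertNE 536870912 536870912 0 536870912 697932185 42949674 3 eng mog cd0q1 cd0q2 pd1 false true false .dn 1 1 2
    ndB0q1 ndB0q2 pcB1 cut_pm_112_s Ext.none :=
  certNE0 (fam := false) (s1 := true) (s2 := false) (a := 1) (b := 1) (c := 2) (cn := .dn) (n1 := ndB0q1) (n2 := ndB0q2) (pc := pcB1) (cut := cut_pm_112_s) (xt := Ext.none) (P1 := 536870912) (W1 := 536870912) (P2 := 0) (W2 := 536870912) (P3 := 697932185) (W3 := 42949674) (N0 := 3) (En := eng) (mo := mog) (C1 := cd0q1) (C2 := cd0q2) (C3 := pd1)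
    rfl s28_pm_112_s

noncomputable def cut_pm_112_t : Cut := Cut.of [[⟨3, 0, 0, 2845415833⟩]]

noncomputable def f_pm_112_t : ℕ → ℕ → ℕ → ℕ → Bool := onCell 536870912 536870912 0 536870912 697932185 42949674
    (rowNE 3 eng mog cd0q1 cd0q2 pd1 0 false true false .dn 1 1 2 (qsf 536870912 536870912 0 536870912 1) ndB0q1 ndB0q2 pcB1 cut_pm_112_t Ext.none)

def k0_pm_112_t : ∃ t, chk3 f_pm_112_t t 1 1 1 = true :=
  ⟨(l 6), by decide +kernel⟩

theorem c_pm_112_t : CertNE 536870912 536870912 0 536870912 697932185 42949674 3 eng mog cd0q1 cd0q2 pd1 false true false .dn 1 1 2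
    ndB0q1 ndB0q2 pcB1 cut_pm_112_t Ext.none :=
  certNE0 (fam := false) (s1 := true) (s2 := false) (a := 1) (b := 1) (c := 2) (cn := .dn) (n1 := ndB0q1) (n2 := ndB0q2) (pc := pcB1) (cut := cut_pm_112_t) (xt := Ext.none) (P1 := 536870912) (W1 := 536870912) (P2 := 0) (W2 := 536870912) (P3 := 697932185) (W3 := 42949674) (N0 := 3) (En := eng) (mo := mog) (C1 := cd0q1) (C2 := cd0q2) (C3 := pd1)
    rfl k0_pm_112_t

noncomputable def cut_pm_202_s : Cut := Cut.of [[⟨4, 0, 0, 1449551462⟩], [⟨0, 1, 0, 67108864⟩, ⟨1, 0, 0, 67108864⟩, ⟨2, 1, 0, 67108864⟩]]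

noncomputable def f_pm_202_s : ℕ → ℕ → ℕ → ℕ → Bool := onCell 0 536870912 0 536870912 697932185 42949674
    (rowNE 3 eng mog cd0q2 cd0q2 pd0 0 false true false .pp 2 0 2 (qsf 0 536870912 0 536870912 0) ndB0q2 ndB0q2 pcB0 cut_pm_202_s Ext.none)

def k0_pm_202_s : ∃ t, chk3 f_pm_202_s t 1 1 1 = true :=
  ⟨(a (l 3) (b (l 3) (a (l 3) (b (l 3) (b (l 3) (a (l 3) (l 14))))))), by decide +kernel⟩

theorem c_pm_202_s : CertNE 0 536870912 0 536870912 697932185 42949674 3 eng mog cd0q2 cd0q2 pd0 false true false .pp 2 0 2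
    ndB0q2 ndB0q2 pcB0 cut_pm_202_s Ext.none :=
  certNE0 (fam := false) (s1 := true) (s2 := false) (a := 2) (b := 0) (c := 2) (cn := .pp) (n1 := ndB0q2) (n2 := ndB0q2) (pc := pcB0) (cut := cut_pm_202_s) (xt := Ext.none) (P1 := 0) (W1 := 536870912) (P2 := 0) (W2 := 536870912) (P3 := 697932185) (W3 := 42949674) (N0 := 3) (En := eng) (mo := mog) (C1 := cd0q2) (C2 := cd0q2) (C3 := pd0)
    rfl k0_pm_202_s

noncomputable def cut_pm_202_t : Cut := Cut.of [[⟨3, 0, 0, 2845415833⟩], [⟨0, 1, 0, 67108864⟩, ⟨1, 0, 0, 67108864⟩, ⟨2, 1, 0, 67108864⟩]]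

noncomputable def f_pm_202_t : ℕ → ℕ → ℕ → ℕ → Bool := onCell 0 536870912 0 536870912 697932185 42949674
    (rowNE 3 eng mog cd0q2 cd0q2 pd0 0 false true false .pp 2 0 2 (qsf 0 536870912 0 536870912 0) ndB0q2 ndB0q2 pcB0 cut_pm_202_t Ext.none)

def k0_pm_202_t : ∃ t, chk3 f_pm_202_t t 1 1 1 = true :=
  ⟨(l 6), by decide +kernel⟩

theorem c_pm_202_t : CertNE 0 536870912 0 536870912 697932185 42949674 3 eng mog cd0q2 cd0q2 pd0 false true false .pp 2 0 2
    ndB0q2 ndB0q2 pcB0 cut_pm_202_t Ext.none :=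
  certNE0 (fam := false) (s1 := true) (s2 := false) (a := 2) (b := 0) (c := 2) (cn := .pp) (n1 := ndB0q2) (n2 := ndB0q2) (pc := pcB0) (cut := cut_pm_202_t) (xt := Ext.none) (P1 := 0) (W1 := 536870912) (P2 := 0) (W2 := 536870912) (P3 := 697932185) (W3 := 42949674) (N0 := 3) (En := eng) (mo := mog) (C1 := cd0q2) (C2 := cd0q2) (C3 := pd0)
    rfl k0_pm_202_t

noncomputable def cut_mm_001_s : Cut := Cut.of [[⟨4, 0, 0, 1449551462⟩]]

noncomputable def f_mm_001_s : ℕ → ℕ → ℕ → ℕ → Bool := onCell 0 536870912 0 536870912 697932185 42949674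
    (rowNE 3 eng mog cd0q0 cd0q1 pd0 1 false false false .up 0 0 1 (qsf 0 536870912 536870912 536870912 0) ndB0q0 ndB0q1 pcB0 cut_mm_001_s Ext.none)

def k0_mm_001_s : ∃ t, chk3 f_mm_001_s t 1 1 1 = true :=
  ⟨(l 3), by decide +kernel⟩

theorem c_mm_001_s : CertNE 0 536870912 536870912 536870912 697932185 42949674 3 eng mog cd0q0 cd0q1 pd0 false false false .up 0 0 1
    ndB0q0 ndB0q1 pcB0 cut_mm_001_s Ext.none :=
  certNE1 (fam := false) (s1 := false) (s2 := false) (a := 0) (b := 0) (c := 1) (cn := .up) (n1 := ndB0q0) (n2 := ndB0q1) (pc := pcB0) (cut := cut_mm_001_s) (xt := Ext.none) (P1 := 0) (W1 := 536870912) (P2 := 536870912) (W2 := 536870912) (P3 := 697932185) (W3 := 42949674) (N0 := 3) (En := eng) (mo := mog) (C1 := cd0q0) (C2 := cd0q1) (C3 := pd0)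
    rfl (fun _ => rfl) k0_mm_001_s

noncomputable def cut_mm_001_t : Cut := Cut.of [[⟨3, 0, 0, 2845415833⟩]]

noncomputable def f_mm_001_t : ℕ → ℕ → ℕ → ℕ → Bool := onCell 0 536870912 536870912 536870912 697932185 42949674
    (rowNE 3 eng mog cd0q0 cd0q1 pd0 0 false false false .up 0 0 1 (qsf 0 536870912 536870912 536870912 0) ndB0q0 ndB0q1 pcB0 cut_mm_001_t Ext.none)

def k0_mm_001_t : ∃ t, chk3 f_mm_001_t t 1 1 1 = true :=
  ⟨(l 6), by decide +kernel⟩

theorem c_mm_001_t : CertNE 0 536870912 536870912 536870912 697932185 42949674 3 eng mog cd0q0 cd0q1 pd0 false false false .up 0 0 1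
    ndB0q0 ndB0q1 pcB0 cut_mm_001_t Ext.none :=
  certNE0 (fam := false) (s1 := false) (s2 := false) (a := 0) (b := 0) (c := 1) (cn := .up) (n1 := ndB0q0) (n2 := ndB0q1) (pc := pcB0) (cut := cut_mm_001_t) (xt := Ext.none) (P1 := 0) (W1 := 536870912) (P2 := 536870912) (W2 := 536870912) (P3 := 697932185) (W3 := 42949674) (N0 := 3) (En := eng) (mo := mog) (C1 := cd0q0) (C2 := cd0q1) (C3 := pd0)
    rfl k0_mm_001_t

noncomputable def cut_mm_011_s : Cut := Cut.of [[⟨4, 0, 0, 1449551462⟩]]

noncomputable def f_mm_011_s : ℕ → ℕ → ℕ → ℕ → Bool := onCell 0 536870912 536870912 536870912 697932185 42949674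
    (rowNE 3 eng mog cd0q0 cd0q1 pd1 1 false false false .pnn 0 1 1 (qsf 0 536870912 536870912 536870912 1) ndB0q0 ndB0q1 pcB1 cut_mm_011_s Ext.none)

def k0_mm_011_s : ∃ t, chk3 f_mm_011_s t 1 1 1 = true :=
  ⟨(l 5), by decide +kernel⟩

theorem c_mm_011_s : CertNE 0 536870912 536870912 536870912 697932185 42949674 3 eng mog cd0q0 cd0q1 pd1 false false false .pnn 0 1 1
    ndB0q0 ndB0q1 pcB1 cut_mm_011_s Ext.none :=
  certNE1 (fam := false) (s1 := false) (s2 := false) (a := 0) (b := 1) (c := 1) (cn := .pnn) (n1 := ndB0q0) (n2 := ndB0q1) (pc := pcB1) (cut := cut_mm_011_s) (xt := Ext.none) (P1 := 0) (W1 := 536870912) (P2 := 536870912) (W2 := 536870912) (P3 := 697932185) (W3 := 42949674) (N0 := 3) (En := eng) (mo := mog) (C1 := cd0q0) (C2 := cd0q1) (C3 := pd1)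
    rfl (fun _ => rfl) k0_mm_011_s

noncomputable def cut_mm_011_t : Cut := Cut.of [[⟨3, 0, 0, 2845415833⟩]]

noncomputable def f_mm_011_t : ℕ → ℕ → ℕ → ℕ → Bool := onCell 0 536870912 536870912 536870912 697932185 42949674
    (rowNE 3 eng mog cd0q0 cd0q1 pd1 0 false false false .pnn 0 1 1 (qsf 0 536870912 536870912 536870912 1) ndB0q0 ndB0q1 pcB1 cut_mm_011_t Ext.none)

def k0_mm_011_t : ∃ t, chk3 f_mm_011_t t 1 1 1 = true :=
  ⟨(l 6), by decide +kernel⟩

theorem c_mm_011_t : CertNE 0 536870912 536870912 536870912 697932185 42949674 3 eng mog cd0q0 cd0q1 pd1 false false false .pnn 0 1 1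
    ndB0q0 ndB0q1 pcB1 cut_mm_011_t Ext.none :=
  certNE0 (fam := false) (s1 := false) (s2 := false) (a := 0) (b := 1) (c := 1) (cn := .pnn) (n1 := ndB0q0) (n2 := ndB0q1) (pc := pcB1) (cut := cut_mm_011_t) (xt := Ext.none) (P1 := 0) (W1 := 536870912) (P2 := 536870912) (W2 := 536870912) (P3 := 697932185) (W3 := 42949674) (N0 := 3) (En := eng) (mo := mog) (C1 := cd0q0) (C2 := cd0q1) (C3 := pd1)
    rfl k0_mm_011_t

noncomputable def cut_mm_012_s : Cut := Cut.of [[⟨4, 0, 0, 1449551462⟩]]

noncomputable def f_mm_012_s : ℕ → ℕ → ℕ → ℕ → Bool := onCell 0 536870912 0 536870912 697932185 42949674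
    (rowNE 3 eng mog cd0q0 cd0q2 pd1 0 false false false .pnp 0 1 2 (qsf 0 536870912 0 536870912 1) ndB0q0 ndB0q2 pcB1 cut_mm_012_s Ext.none)

def k0_mm_012_s : ∃ t, chk3 f_mm_012_s t 1 1 1 = true :=
  ⟨(l 5), by decide +kernel⟩

theorem c_mm_012_s : CertNE 0 536870912 0 536870912 697932185 42949674 3 eng mog cd0q0 cd0q2 pd1 false false false .pnp 0 1 2
    ndB0q0 ndB0q2 pcB1 cut_mm_012_s Ext.none :=
  certNE0 (fam := false) (s1 := false) (s2 := false) (a := 0) (b := 1) (c := 2) (cn := .pnp) (n1 := ndB0q0) (n2 := ndB0q2) (pc := pcB1) (cut := cut_mm_012_s) (xt := Ext.none) (P1 := 0) (W1 := 536870912) (P2 := 0) (W2 := 536870912) (P3 := 697932185) (W3 := 42949674) (N0 := 3) (En := eng) (mo := mog) (C1 := cd0q0) (C2 := cd0q2) (C3 := pd1)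
    rfl k0_mm_012_s

noncomputable def cut_mm_012_t : Cut := Cut.of [[⟨3, 0, 0, 2845415833⟩]]

noncomputable def f_mm_012_t : ℕ → ℕ → ℕ → ℕ → Bool := onCell 0 536870912 0 536870912 697932185 42949674
    (rowNE 3 eng mog cd0q0 cd0q2 pd1 0 false false false .pnp 0 1 2 (qsf 0 536870912 0 536870912 1) ndB0q0 ndB0q2 pcB1 cut_mm_012_t Ext.none)

def k0_mm_012_t : ∃ t, chk3 f_mm_012_t t 1 1 1 = true :=
  ⟨(l 5), by decide +kernel⟩

theorem c_mm_012_t : CertNE 0 536870912 0 536870912 697932185 42949674 3 eng mog cd0q0 cd0q2 pd1 false false false .pnp 0 1 2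
    ndB0q0 ndB0q2 pcB1 cut_mm_012_t Ext.none :=
  certNE0 (fam := false) (s1 := false) (s2 := false) (a := 0) (b := 1) (c := 2) (cn := .pnp) (n1 := ndB0q0) (n2 := ndB0q2) (pc := pcB1) (cut := cut_mm_012_t) (xt := Ext.none) (P1 := 0) (W1 := 536870912) (P2 := 0) (W2 := 536870912) (P3 := 697932185) (W3 := 42949674) (N0 := 3) (En := eng) (mo := mog) (C1 := cd0q0) (C2 := cd0q2) (C3 := pd1)
    rfl k0_mm_012_t

noncomputable def cut_mm_022_s : Cut := Cut.of [[⟨4, 0, 0, 1449551462⟩]]

noncomputable def f_mm_022_s : ℕ → ℕ → ℕ → ℕ → Bool := onCell 0 536870912 0 536870912 697932185 42949674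
    (rowNE 3 eng mog cd0q0 cd0q2 pd2 0 false false false .pp 0 2 2 (qsf 0 536870912 0 536870912 2) ndB0q0 ndB0q2 pcB2 cut_mm_022_s Ext.none)

def k0_mm_022_s : ∃ t, chk3 f_mm_022_s t 1 1 1 = true :=
  ⟨(l 5), by decide +kernel⟩

theorem c_mm_022_s : CertNE 0 536870912 0 536870912 697932185 42949674 3 eng mog cd0q0 cd0q2 pd2 false false false .pp 0 2 2
    ndB0q0 ndB0q2 pcB2 cut_mm_022_s Ext.none :=
  certNE0 (fam := false) (s1 := false) (s2 := false) (a := 0) (b := 2) (c := 2) (cn := .pp) (n1 := ndB0q0) (n2 := ndB0q2) (pc := pcB2) (cut := cut_mm_022_s) (xt := Ext.none) (P1 := 0) (W1 := 536870912) (P2 := 0) (W2 := 536870912) (P3 := 697932185) (W3 := 42949674) (N0 := 3) (En := eng) (mo := mog) (C1 := cd0q0) (C2 := cd0q2) (C3 := pd2)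
    rfl k0_mm_022_s

noncomputable def cut_mm_022_t : Cut := Cut.of [[⟨3, 0, 0, 2845415833⟩]]

noncomputable def f_mm_022_t : ℕ → ℕ → ℕ → ℕ → Bool := onCell 0 536870912 0 536870912 697932185 42949674
    (rowNE 3 eng mog cd0q0 cd0q2 pd2 0 false false false .pp 0 2 2 (qsf 0 536870912 0 536870912 2) ndB0q0 ndB0q2 pcB2 cut_mm_022_t Ext.none)

def k0_mm_022_t : ∃ t, chk3 f_mm_022_t t 1 1 1 = true :=
  ⟨(l 5), by decide +kernel⟩

theorem c_mm_022_t : CertNE 0 536870912 0 536870912 697932185 42949674 3 eng mog cd0q0 cd0q2 pd2 false false false .pp 0 2 2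
    ndB0q0 ndB0q2 pcB2 cut_mm_022_t Ext.none :=
  certNE0 (fam := false) (s1 := false) (s2 := false) (a := 0) (b := 2) (c := 2) (cn := .pp) (n1 := ndB0q0) (n2 := ndB0q2) (pc := pcB2) (cut := cut_mm_022_t) (xt := Ext.none) (P1 := 0) (W1 := 536870912) (P2 := 0) (W2 := 536870912) (P3 := 697932185) (W3 := 42949674) (N0 := 3) (En := eng) (mo := mog) (C1 := cd0q0) (C2 := cd0q2) (C3 := pd2)
    rfl k0_mm_022_t

noncomputable def cut_mm_101_s : Cut := Cut.of [[⟨4, 0, 0, 1449551462⟩]]

noncomputable def f_mm_101_s : ℕ → ℕ → ℕ → ℕ → Bool := onCell 536870912 536870912 536870912 536870912 697932185 42949674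
    (rowNE 3 eng mog cd0q1 cd0q1 pd0 0 false false false .npn 1 0 1 (qsf 536870912 536870912 536870912 536870912 0) ndB0q1 ndB0q1 pcB0 cut_mm_101_s Ext.none)

def k0_mm_101_s : ∃ t, chk3 f_mm_101_s t 1 1 1 = true :=
  ⟨(l 3), by decide +kernel⟩

theorem c_mm_101_s : CertNE 536870912 536870912 536870912 536870912 697932185 42949674 3 eng mog cd0q1 cd0q1 pd0 false false false .npn 1 0 1
    ndB0q1 ndB0q1 pcB0 cut_mm_101_s Ext.none :=
  certNE0 (fam := false) (s1 := false) (s2 := false) (a := 1) (b := 0) (c := 1) (cn := .npn) (n1 := ndB0q1) (n2 := ndB0q1) (pc := pcB0) (cut := cut_mm_101_s) (xt := Ext.none) (P1 := 536870912) (W1 := 536870912) (P2 := 536870912) (W2 := 536870912) (P3 := 697932185) (W3 := 42949674) (N0 := 3) (En := eng) (mo := mog) (C1 := cd0q1) (C2 := cd0q1) (C3 := pd0)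
    rfl k0_mm_101_s

noncomputable def cut_mm_101_t : Cut := Cut.of [[⟨3, 0, 0, 2845415833⟩]]

noncomputable def f_mm_101_t : ℕ → ℕ → ℕ → ℕ → Bool := onCell 536870912 536870912 536870912 536870912 697932185 42949674
    (rowNE 3 eng mog cd0q1 cd0q1 pd0 0 false false false .npn 1 0 1 (qsf 536870912 536870912 536870912 536870912 0) ndB0q1 ndB0q1 pcB0 cut_mm_101_t Ext.none)

def k0_mm_101_t : ∃ t, chk3 f_mm_101_t t 1 1 1 = true :=
  ⟨(l 3), by decide +kernel⟩

theorem c_mm_101_t : CertNE 536870912 536870912 536870912 536870912 697932185 42949674 3 eng mog cd0q1 cd0q1 pd0 false false false .npn 1 0 1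
    ndB0q1 ndB0q1 pcB0 cut_mm_101_t Ext.none :=
  certNE0 (fam := false) (s1 := false) (s2 := false) (a := 1) (b := 0) (c := 1) (cn := .npn) (n1 := ndB0q1) (n2 := ndB0q1) (pc := pcB0) (cut := cut_mm_101_t) (xt := Ext.none) (P1 := 536870912) (W1 := 536870912) (P2 := 536870912) (W2 := 536870912) (P3 := 697932185) (W3 := 42949674) (N0 := 3) (En := eng) (mo := mog) (C1 := cd0q1) (C2 := cd0q1) (C3 := pd0)
    rfl k0_mm_101_t

noncomputable def cut_mm_102_s : Cut := Cut.of [[⟨4, 0, 0, 1449551462⟩]]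

noncomputable def f_mm_102_s : ℕ → ℕ → ℕ → ℕ → Bool := onCell 536870912 536870912 0 536870912 697932185 42949674
    (rowNE 3 eng mog cd0q1 cd0q2 pd0 0 false false false .npp 1 0 2 (qsf 536870912 536870912 0 536870912 0) ndB0q1 ndB0q2 pcB0 cut_mm_102_s Ext.none)

def k0_mm_102_s : ∃ t, chk3 f_mm_102_s t 1 1 1 = true :=
  ⟨(a (l 5) (l 3)), by decide +kernel⟩

theorem c_mm_102_s : CertNE 536870912 536870912 0 536870912 697932185 42949674 3 eng mog cd0q1 cd0q2 pd0 false false false .npp 1 0 2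
    ndB0q1 ndB0q2 pcB0 cut_mm_102_s Ext.none :=
  certNE0 (fam := false) (s1 := false) (s2 := false) (a := 1) (b := 0) (c := 2) (cn := .npp) (n1 := ndB0q1) (n2 := ndB0q2) (pc := pcB0) (cut := cut_mm_102_s) (xt := Ext.none) (P1 := 536870912) (W1 := 536870912) (P2 := 0) (W2 := 536870912) (P3 := 697932185) (W3 := 42949674) (N0 := 3) (En := eng) (mo := mog) (C1 := cd0q1) (C2 := cd0q2) (C3 := pd0)
    rfl k0_mm_102_s

noncomputable def cut_mm_102_t : Cut := Cut.of [[⟨3, 0, 0, 2845415833⟩]]

noncomputable def f_mm_102_t : ℕ → ℕ → ℕ → ℕ → Bool := onCell 536870912 536870912 0 536870912 697932185 42949674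
    (rowNE 3 eng mog cd0q1 cd0q2 pd0 0 false false false .npp 1 0 2 (qsf 536870912 536870912 0 536870912 0) ndB0q1 ndB0q2 pcB0 cut_mm_102_t Ext.none)

def k0_mm_102_t : ∃ t, chk3 f_mm_102_t t 1 1 1 = true :=
  ⟨(l 6), by decide +kernel⟩

theorem c_mm_102_t : CertNE 536870912 536870912 0 536870912 697932185 42949674 3 eng mog cd0q1 cd0q2 pd0 false false false .npp 1 0 2
    ndB0q1 ndB0q2 pcB0 cut_mm_102_t Ext.none :=
  certNE0 (fam := false) (s1 := false) (s2 := false) (a := 1) (b := 0) (c := 2) (cn := .npp) (n1 := ndB0q1) (n2 := ndB0q2) (pc := pcB0) (cut := cut_mm_102_t) (xt := Ext.none) (P1 := 536870912) (W1 := 536870912) (P2 := 0) (W2 := 536870912) (P3 := 697932185) (W3 := 42949674) (N0 := 3) (En := eng) (mo := mog) (C1 := cd0q1) (C2 := cd0q2) (C3 := pd0)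
    rfl k0_mm_102_t

noncomputable def cut_mm_112_s : Cut := Cut.of [[⟨4, 0, 0, 1449551462⟩]]

noncomputable def f_mm_112_s : ℕ → ℕ → ℕ → ℕ → Bool := onCell 536870912 536870912 0 536870912 697932185 42949674
    (rowNE 3 eng mog cd0q1 cd0q2 pd1 2 false false false .dn 1 1 2 (qsf 536870912 536870912 0 536870912 1) ndB0q1 ndB0q2 pcB1 cut_mm_112_s Ext.none)

def k0_mm_112_s : ∃ t, chk3 f_mm_112_s t 1 1 1 = true :=
  ⟨(l 5), by decide +kernel⟩

theorem c_mm_112_s : CertNE 536870912 536870912 0 536870912 697932185 42949674 3 eng mog cd0q1 cd0q2 pd1 false false false .dn 1 1 2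
    ndB0q1 ndB0q2 pcB1 cut_mm_112_s Ext.none :=
  certNE2 (fam := false) (s1 := false) (s2 := false) (a := 1) (b := 1) (c := 2) (cn := .dn) (n1 := ndB0q1) (n2 := ndB0q2) (pc := pcB1) (cut := cut_mm_112_s) (xt := Ext.none) (P1 := 536870912) (W1 := 536870912) (P2 := 0) (W2 := 536870912) (P3 := 697932185) (W3 := 42949674) (N0 := 3) (En := eng) (mo := mog) (C1 := cd0q1) (C2 := cd0q2) (C3 := pd1)
    rfl (fun _ => rfl) k0_mm_112_s

noncomputable def cut_mm_112_t : Cut := Cut.of [[⟨3, 0, 0, 2845415833⟩]]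

noncomputable def f_mm_112_t : ℕ → ℕ → ℕ → ℕ → Bool := onCell 536870912 536870912 0 536870912 697932185 42949674
    (rowNE 3 eng mog cd0q1 cd0q2 pd1 0 false false false .dn 1 1 2 (qsf 536870912 536870912 0 536870912 1) ndB0q1 ndB0q2 pcB1 cut_mm_112_t Ext.none)

def k0_mm_112_t : ∃ t, chk3 f_mm_112_t t 1 1 1 = true :=
  ⟨(l 6), by decide +kernel⟩

theorem c_mm_112_t : CertNE 536870912 536870912 0 536870912 697932185 42949674 3 eng mog cd0q1 cd0q2 pd1 false false false .dn 1 1 2
    ndB0q1 ndB0q2 pcB1 cut_mm_112_t Ext.none :=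
  certNE0 (fam := false) (s1 := false) (s2 := false) (a := 1) (b := 1) (c := 2) (cn := .dn) (n1 := ndB0q1) (n2 := ndB0q2) (pc := pcB1) (cut := cut_mm_112_t) (xt := Ext.none) (P1 := 536870912) (W1 := 536870912) (P2 := 0) (W2 := 536870912) (P3 := 697932185) (W3 := 42949674) (N0 := 3) (En := eng) (mo := mog) (C1 := cd0q1) (C2 := cd0q2) (C3 := pd1)
    rfl k0_mm_112_t

noncomputable def cut_mm_202_s : Cut := Cut.of [[⟨4, 0, 0, 1449551462⟩]]

noncomputable def f_mm_202_s : ℕ → ℕ → ℕ → ℕ → Bool := onCell 0 536870912 0 536870912 697932185 42949674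
    (rowNE 3 eng mog cd0q2 cd0q2 pd0 0 false false false .pp 2 0 2 (qsf 0 536870912 0 536870912 0) ndB0q2 ndB0q2 pcB0 cut_mm_202_s Ext.none)

def k0_mm_202_s : ∃ t, chk3 f_mm_202_s t 1 1 1 = true :=
  ⟨(l 3), by decide +kernel⟩

theorem c_mm_202_s : CertNE 0 536870912 0 536870912 697932185 42949674 3 eng mog cd0q2 cd0q2 pd0 false false false .pp 2 0 2
    ndB0q2 ndB0q2 pcB0 cut_mm_202_s Ext.none :=
  certNE0 (fam := false) (s1 := false) (s2 := false) (a := 2) (b := 0) (c := 2) (cn := .pp) (n1 := ndB0q2) (n2 := ndB0q2) (pc := pcB0) (cut := cut_mm_202_s) (xt := Ext.none) (P1 := 0) (W1 := 536870912) (P2 := 0) (W2 := 536870912) (P3 := 697932185) (W3 := 42949674) (N0 := 3) (En := eng) (mo := mog) (C1 := cd0q2) (C2 := cd0q2) (C3 := pd0)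
    rfl k0_mm_202_s

noncomputable def cut_mm_202_t : Cut := Cut.of [[⟨3, 0, 0, 2845415833⟩]]

noncomputable def f_mm_202_t : ℕ → ℕ → ℕ → ℕ → Bool := onCell 0 536870912 0 536870912 697932185 42949674
    (rowNE 3 eng mog cd0q2 cd0q2 pd0 0 false false false .pp 2 0 2 (qsf 0 536870912 0 536870912 0) ndB0q2 ndB0q2 pcB0 cut_mm_202_t Ext.none)

def k0_mm_202_t : ∃ t, chk3 f_mm_202_t t 1 1 1 = true :=
  ⟨(l 3), by decide +kernel⟩

theorem c_mm_202_t : CertNE 0 536870912 0 536870912 697932185 42949674 3 eng mog cd0q2 cd0q2 pd0 false false false .pp 2 0 2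
    ndB0q2 ndB0q2 pcB0 cut_mm_202_t Ext.none :=
  certNE0 (fam := false) (s1 := false) (s2 := false) (a := 2) (b := 0) (c := 2) (cn := .pp) (n1 := ndB0q2) (n2 := ndB0q2) (pc := pcB0) (cut := cut_mm_202_t) (xt := Ext.none) (P1 := 0) (W1 := 536870912) (P2 := 0) (W2 := 536870912) (P3 := 697932185) (W3 := 42949674) (N0 := 3) (En := eng) (mo := mog) (C1 := cd0q2) (C2 := cd0q2) (C3 := pd0)
    rfl k0_mm_202_t

end Pool.Agent.Strip051.G.I6500_6900.Tab.CS.BB00

namespace Pool.Agent.Strip051.G.I6500_6900.Tab.CS.BB07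

open Pool.Agent.Strip051.PB Pool.Agent.Strip051.PB.T
open Pool.Agent.Strip051.G.I6500_6900.Tab

noncomputable def cut_pp_001_s : Cut := Cut.of [[⟨4, 0, 0, 1449551462⟩]]

noncomputable def f_pp_001_s : ℕ → ℕ → ℕ → ℕ → Bool := onCell 0 536870912 0 536870912 697932185 42949674
    (rowNE 3 eng mog cd0q0 cd7q1 pd0 1 false true true .up 0 0 1 (qsf 0 536870912 536870912 536870912 0) ndB0q0 ndB7q1 pcB0 cut_pp_001_s Ext.none)

def k0_pp_001_s : ∃ t, chk3 f_pp_001_s t 1 1 1 = true :=
  ⟨(l 3), by decide +kernel⟩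

theorem c_pp_001_s : CertNE 0 536870912 536870912 536870912 697932185 42949674 3 eng mog cd0q0 cd7q1 pd0 false true true .up 0 0 1
    ndB0q0 ndB7q1 pcB0 cut_pp_001_s Ext.none :=
  certNE1 (fam := false) (s1 := true) (s2 := true) (a := 0) (b := 0) (c := 1) (cn := .up) (n1 := ndB0q0) (n2 := ndB7q1) (pc := pcB0) (cut := cut_pp_001_s) (xt := Ext.none) (P1 := 0) (W1 := 536870912) (P2 := 536870912) (W2 := 536870912) (P3 := 697932185) (W3 := 42949674) (N0 := 3) (En := eng) (mo := mog) (C1 := cd0q0) (C2 := cd7q1) (C3 := pd0)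
    rfl (fun _ => rfl) k0_pp_001_s

noncomputable def cut_pp_011_s : Cut := Cut.of [[⟨4, 0, 0, 1449551462⟩], [⟨0, 0, 0, 67108864⟩, ⟨1, 1, 0, 67108864⟩, ⟨2, 1, 0, 67108864⟩]]

noncomputable def f_pp_011_s : ℕ → ℕ → ℕ → ℕ → Bool := onCell 0 536870912 536870912 536870912 697932185 42949674
    (rowNE 3 eng mog cd0q0 cd7q1 pd1 1 false true true .pnn 0 1 1 (qsf 0 536870912 536870912 536870912 1) ndB0q0 ndB7q1 pcB1 cut_pp_011_s Ext.none)

def k0_pp_011_s : ∃ t, chk3 f_pp_011_s t 1 1 1 = true :=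
  ⟨(b (l 3) (a (b (l 3) (a (b (l 3) (a (b (l 3) (a (l 14) (l 3))) (l 3))) (l 3))) (l 3))), by decide +kernel⟩

theorem c_pp_011_s : CertNE 0 536870912 536870912 536870912 697932185 42949674 3 eng mog cd0q0 cd7q1 pd1 false true true .pnn 0 1 1
    ndB0q0 ndB7q1 pcB1 cut_pp_011_s Ext.none :=
  certNE1 (fam := false) (s1 := true) (s2 := true) (a := 0) (b := 1) (c := 1) (cn := .pnn) (n1 := ndB0q0) (n2 := ndB7q1) (pc := pcB1) (cut := cut_pp_011_s) (xt := Ext.none) (P1 := 0) (W1 := 536870912) (P2 := 536870912) (W2 := 536870912) (P3 := 697932185) (W3 := 42949674) (N0 := 3) (En := eng) (mo := mog) (C1 := cd0q0) (C2 := cd7q1) (C3 := pd1)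
    rfl (fun _ => rfl) k0_pp_011_s

noncomputable def cut_pp_012_s : Cut := Cut.of [[⟨4, 0, 0, 1449551462⟩], [⟨0, 0, 0, 67108864⟩, ⟨1, 1, 0, 67108864⟩, ⟨2, 1, 0, 67108864⟩]]

noncomputable def f_pp_012_s : ℕ → ℕ → ℕ → ℕ → Bool := onCell 0 536870912 536870912 536870912 697932185 42949674
    (rowNE 3 eng mog cd0q0 cd7q2 pd1 1 false true true .pnp 0 1 2 (qsf 0 536870912 1073741824 536870912 1) ndB0q0 ndB7q2 pcB1 cut_pp_012_s Ext.none)

def k0_pp_012_s : ∃ t, chk3 f_pp_012_s t 1 1 1 = true :=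
  ⟨(b (l 3) (a (b (l 3) (a (a (a (b (l 1) (b (l 3) (l 14))) (l 3)) (l 3)) (l 3))) (l 3))), by decide +kernel⟩

theorem c_pp_012_s : CertNE 0 536870912 1073741824 536870912 697932185 42949674 3 eng mog cd0q0 cd7q2 pd1 false true true .pnp 0 1 2
    ndB0q0 ndB7q2 pcB1 cut_pp_012_s Ext.none :=
  certNE1 (fam := false) (s1 := true) (s2 := true) (a := 0) (b := 1) (c := 2) (cn := .pnp) (n1 := ndB0q0) (n2 := ndB7q2) (pc := pcB1) (cut := cut_pp_012_s) (xt := Ext.none) (P1 := 0) (W1 := 536870912) (P2 := 1073741824) (W2 := 536870912) (P3 := 697932185) (W3 := 42949674) (N0 := 3) (En := eng) (mo := mog) (C1 := cd0q0) (C2 := cd7q2) (C3 := pd1)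
    rfl (fun _ => rfl) k0_pp_012_s

noncomputable def cut_pp_022_s : Cut := Cut.of [[⟨4, 0, 0, 1449551462⟩], [⟨0, 0, 0, 53687091⟩, ⟨1, 1, 0, 53687091⟩, ⟨2, 1, 0, 53687091⟩]]

noncomputable def f_pp_022_s : ℕ → ℕ → ℕ → ℕ → Bool := onCell 0 536870912 1073741824 536870912 697932185 42949674
    (rowNE 3 eng mog cd0q0 cd7q2 pd2 1 false true true .pp 0 2 2 (qsf 0 536870912 1073741824 536870912 2) ndB0q0 ndB7q2 pcB2 cut_pp_022_s Ext.none)

def k0_pp_022_s : ∃ t, chk3 f_pp_022_s t 16 16 1 = true :=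
  ⟨(b (l 14) (a (l 14) (b (a (l 14) (b (a (l 14) (b (l 14) (b (l 14) (l 16767712)))) (a (b (l 14) (l 16755712)) (b (c (l 16765176) (l 16763896)) (l 16759608))))) (a (b (a (l 14) (l 16745664)) (l 16734856)) (b (a (l 16749776) (b (l 16755360) (l 16751336))) (a (l 16741408) (l 16745416))))))), by decide +kernel⟩

def k1_pp_022_s : ∃ t, chk3 f_pp_022_s t 17 32 1 = true :=
  ⟨(b (l 3) (a (a (a (a (l 14) (l 3)) (l 3)) (l 3)) (l 3))), by decide +kernel⟩

def k2_pp_022_s : ∃ t, chk3 f_pp_022_s t 68 66 1 = true :=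
  ⟨(b (b (a (a (a (l 14) (b (l 14) (a (l 16774528) (l 16775360)))) (a (b (b (l 3) (a (b (b (l 14) (c (l 163913400967) (l 16777864))) (l 16776840)) (b (l 3) (b (a (l 316384739847) (l 3)) (l 133848629943))))) (b (c (l 16776704) (l 16776304)) (l 16775256))) (b (l 3) (b (a (b (b (a (l 16777448) (l 3)) (l 105394471639)) (l 16776784)) (b (l 3) (a (l 16777472) (a (l 291688677975) (l 433959469735))))) (a (l 16776000) (l 16776496)))))) (a (b (l 3) (b (l 3) (a (a (b (a (l 16777448) (c (l 187535721191) (l 184851367271))) (l 16776728)) (b (l 3) (a (l 16777096) (c (l 170892723527) (l 167671498039))))) (c (l 564955973159) (l 574082778631))))) (l 3))) (b (a (b (a (l 16773184) (c (l 16774696) (l 16774720))) (a (l 16771672) (l 16773664))) (a (a (b (l 16776520) (l 16775152)) (b (b (a (a (l 16777064) (l 244980908743)) (l 554755424999)) (a (l 16776672) (c (l 125795566343) (l 16777808)))) (l 16776136))) (b (a (a (l 549923587143) (l 3)) (l 3)) (b (a (a (c (l 101636375335) (l 16777776)) (l 524690653831))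 (l 3)) (c (a (c (l 16777592) (l 16777512)) (l 526301266903)) (a (l 16777512) (l 518785074119))))))) (a (a (l 16770792) (a (l 16771600) (l 16772592))) (a (a (l 16773592) (l 16775232)) (a (c (l 16775880) (l 16775568)) (b (b (a (l 16777560) (l 477982884391)) (c (l 16777456) (l 16776800))) (l 16776024))))))) (a (a (b (l 16766936) (l 16762680)) (b (b (l 16770712) (l 16767912)) (l 16764728))) (b (b (a (c (l 16772616) (l 16772008)) (c (l 16774624) (l 16773992))) (a (l 16769976) (c (l 16773176) (l 16771920)))) (a (l 16766776) (b (l 16769832) (l 16767752)))))), by decide +kernel⟩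

def k3_pp_022_s : ∃ t, chk3 f_pp_022_s t 69 66 1 = true :=
  ⟨(a (a (b (b (l 3) (b (l 3) (b (b (l 3) (a (a (l 461876756983) (l 3)) (l 3))) (b (a (a (l 16777672) (l 350744478711)) (l 3)) (a (l 16777312) (a (l 323364062231) (l 3))))))) (b (a (b (a (l 16775208) (l 16776024)) (l 16773376)) (b (b (b (a (l 16776952) (l 305647322087)) (l 16777336)) (l 16775904)) (l 16774352))) (b (l 16772456) (l 16769672)))) (b (l 3) (b (a (b (a (b (c (l 447918113479) (l 454897435303)) (l 16776632)) (b (l 3) (b (l 261623907271) (l 16776864)))) (l 16775648)) (a (b (b (l 3) (c (l 426980147799) (l 431275115079))) (l 16776544)) (b (l 3) (b (b (l 214916137911) (l 16776800)) (l 16776016))))) (b (l 16774376) (l 16771640))))) (b (l 3) (b (b (l 3) (a (a (b (b (l 3) (a (l 198273139575) (l 3))) (a (l 16776504) (a (l 16776864) (l 100025762775)))) (b (l 3) (b (l 3) (a (l 16777848) (l 567103455975))))) (l 3))) (a (b (b (a (l 16775704) (a (l 16776432) (l 16777728))) (l 16775144)) (l 16774224)) (a (b (b (b (l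 556366038055) (a (l 16777128) (l 305110452279))) (c (l 16777264) (l 16776608))) (l 16775032)) (b (b (l 3) (a (a (l 149954757703) (l 276656293079)) (l 518248203159))) (b (l 16777192) (l 16775480)))))))), by decide +kernel⟩

def k4_pp_022_s : ∃ t, chk3 f_pp_022_s t 34 67 1 = true :=
  ⟨(a (b (a (b (l 16759432) (l 16755096)) (b (l 16764856) (l 16759264))) (a (b (l 16750952) (l 16746960)) (b (l 16754952) (l 16750632)))) (b (a (b (a (l 16766616) (c (l 16769816) (l 16769736))) (l 16763384)) (b (a (b (l 16771464) (l 16769328)) (b (l 16773408) (l 16771280))) (a (l 16766248) (c (l 16769448) (l 16768040))))) (a (b (l 16759104) (l 16754792)) (b (l 16763088) (l 16758960))))), by decide +kernel⟩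

def k5_pp_022_s : ∃ t, chk3 f_pp_022_s t 35 66 1 = true :=
  ⟨(b (l 3) (a (a (a (b (l 3) (b (l 3) (a (b (a (c (l 176798303447) (l 174650819783)) (l 491941528359)) (l 16776456)) (b (l 3) (a (c (l 142975435959) (l 16777816)) (l 450602468007)))))) (l 3)) (l 3)) (l 3))), by decide +kernel⟩

def k6_pp_022_s : ∃ t, chk3 f_pp_022_s t 35 67 1 = true :=
  ⟨(b (a (b (b (a (a (a (l 16774872) (l 16776632)) (a (b (a (c (l 117205632039) (l 16777752)) (l 423758922279)) (l 16776296)) (b (l 3) (b (a (l 16777912) (l 3)) (l 16777664))))) (l 3)) (a (a (l 16773232) (a (l 16774704) (l 16775688))) (a (b (a (b (a (l 16777200) (l 335712094359)) (l 16776936)) (l 562271618439)) (b (a (l 16776400) (l 225653556551)) (l 16777344))) (a (a (l 546165491383) (l 3)) (l 3))))) (a (a (a (l 16770856) (l 16771840)) (c (l 16773320) (l 16771936))) (a (b (l 16775672) (l 16772864)) (b (b (a (a (l 16776784) (l 182167012583)) (l 516637590663)) (a (l 16775960) (a (l 16776696) (l 143512306887)))) (l 16775488))))) (b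 (l 3) (a (b (b (l 3) (a (c (l 517711333095) (l 525227525815)) (l 3))) (b (a (a (l 16777840) (l 452213080951)) (l 3)) (a (c (l 16777592) (l 16776264)) (a (l 428590760679) (l 3))))) (l 3)))) (a (b (a (a (l 16765832) (c (l 16770352) (l 16767608))) (a (c (l 16772304) (l 16772192)) (l 16772880))) (a (l 16762648) (a (l 16765352) (l 16769832)))) (a (a (b (b (l 16774640) (l 16772456)) (a (l 16771288) (l 16769648))) (b (b (b (a (l 16776672) (a (l 152102242631) (l 546165490647))) (l 16777392)) (l 16774440)) (l 16772440))) (b (b (b (l 3) (a (c (a (l 271287584503) (l 3)) (l 440401921159)) (l 3))) (b (a (a (l 16776472) (l 237464717047)) (l 3)) (a (l 16775880) (c (a (l 208473687655) (l 3)) (l 403894698855))))) (a (c (l 16774472) (l 16773088)) (b (b (a (l 16776272) (a (l 16777024) (l 185388239335))) (l 16775672)) (l 16774008))))))), by decide +kernel⟩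

def k7_pp_022_s : ∃ t, chk3 f_pp_022_s t 8 17 1 = true :=
  ⟨(a (b (a (a (b (l 14) (a (l 16684520) (l 16689408))) (b (c (l 16718696) (l 16713072)) (l 16696520))) (b (a (b (l 16726400) (l 16718040)) (b (l 16735088) (l 16726712))) (a (l 16705488) (l 16714096)))) (a (a (l 16677704) (b (l 16658760) (l 16642000))) (b (a (l 16688672) (l 16697184)) (a (l 16671888) (l 16680296))))) (b (a (b (a (b (a (l 16740888) (l 16744432)) (l 16734496)) (b (a (l 16750720) (l 16752184)) (a (l 16739696) (l 16743296)))) (a (l 16722408) (b (l 16733312) (l 16725320)))) (b (a (b (a (l 16756320) (b (l 16762304) (l 16758136))) (a (l 16747208) (l 16751312))) (b (a (b (a (l 16764992) (l 16769480)) (l 16762024)) (a (b (l 16771440) (l 16764712)) (b (l 16773368) (l 16766584)))) (a (l 16755384) (l 16762048)))) (a (b (a (l 16738600) (l 16742344)) (l 16732296)) (b (a (l 16746424) (l 16750456)) (a (l 16737624) (l 16741592)))))) (a (b (a (l 16705416) (l 16713400)) (a (l 16688368) (l 16696240))) (b (a (l 16720312)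 (b (l 16731280) (l 16723216))) (a (l 16703968) (l 16711224)))))), by decide +kernel⟩

def k8_pp_022_s : ∃ t, chk3 f_pp_022_s t 9 16 1 = true :=
  ⟨(a (b (l 3) (b (l 3) (a (b (l 3) (a (b (l 3) (a (a (a (b (b (l 578914616775) (l 80698411447)) (l 16775504)) (b (l 564955973671) (a (l 16776256) (l 68887250567)))) (b (l 3) (b (l 545628620615) (a (l 16778264) (l 497310237687))))) (l 3))) (l 3))) (l 3)))) (l 3)), by decide +kernel⟩

def k9_pp_022_s : ∃ t, chk3 f_pp_022_s t 36 34 1 = true :=
  ⟨(b (b (b (a (a (a (l 16774368) (a (l 16775520) (b (l 16777608) (l 16774112)))) (a (b (b (l 506437043719) (a (l 16776736) (l 326585288487))) (l 16776896)) (b (l 3) (b (l 444696888519) (a (l 16776512) (l 250349618887)))))) (l 3)) (a (b (a (l 16770504) (c (l 16775728) (l 16774384))) (a (l 16768424) (l 16772256))) (a (b (a (b (l 403894698855) (l 67813508999)) (l 580525230887)) (a (l 16775152) (b (a (l 16777120) (l 548849845479)) (l 16777856)))) (a (a (l 555829169431) (l 3)) (l 3))))) (a (a (b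 (c (l 16767968) (l 16765256)) (l 16761184)) (b (c (l 16771776) (l 16771704)) (l 16766240))) (a (b (c (l 16774240) (l 16774200)) (c (l 16768736) (l 16768688))) (b (b (a (a (l 16776368) (a (l 16778368) (l 244444039495))) (l 515563849831)) (a (l 16774696) (a (l 16776128) (l 130090535303)))) (c (l 16772472) (l 16772440)))))) (a (b (a (l 16754448) (l 16758408)) (l 16752792)) (b (a (b (l 16764512) (l 16760112)) (b (l 16769568) (l 16764032))) (c (l 16757992) (l 16760680))))), by decide +kernel⟩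

def k10_pp_022_s : ∃ t, chk3 f_pp_022_s t 37 34 1 = true :=
  ⟨(b (b (l 3) (a (b (b (l 3) (a (a (l 460266145511) (l 3)) (l 3))) (b (a (a (c (l 16778976) (l 16778976)) (c (l 426980148599) (l 432348857671))) (l 3)) (a (a (l 16774216) (l 16778720)) (a (c (l 396378506183) (l 400673473447)) (l 3))))) (l 3))) (b (a (a (b (l 16773272) (l 16767712)) (b (b (a (l 16775832) (a (l 168745241207) (l 464024241431))) (l 16774632)) (l 16771440))) (b (b (l 3) (a (a (a (l 16778232) (l 221358593031)) (l 3)) (l 3))) (b (a (a (l 16775280) (a (l 16776656) (l 253570845495))) (l 567640329879)) (a (l 16774080) (a (c (l 16778768) (l 16779416)) (l 504826431479)))))) (a (a (b (l 16763464) (l 16759032)) (b (l 16767144) (l 16762912))) (b (a (l 16770880) (a (l 16773640) (a (l 16775024) (l 16778544)))) (a (l 16766576) (l 16770280)))))), by decide +kernel⟩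

def k11_pp_022_s : ∃ t, chk3 f_pp_022_s t 19 34 1 = true :=
  ⟨(b (l 3) (a (b (l 3) (a (a (b (a (b (l 467245467175) (l 16776232)) (b (l 3) (l 428053890135))) (c (l 16776576) (l 16773944))) (b (l 3) (b (a (c (l 276656295415) (l 277193166295)) (l 3)) (a (l 16775616) (l 219211107959))))) (l 3))) (l 3))), by decide +kernel⟩

def k12_pp_022_s : ∃ t, chk3 f_pp_022_s t 9 35 1 = true :=
  ⟨(a (b (a (a (b (l 16738688) (l 16730200)) (b (l 16746592) (l 16737808))) (a (b (a (l 16752432) (l 16756304)) (l 16745608)) (b (a (b (l 16762344) (l 16757968)) (b (l 16766000) (l 16761696))) (l 16758568)))) (a (a (l 16723256) (b (l 16729112) (l 16720536))) (b (a (l 16736856) (l 16744600)) (a (l 16727592) (l 16735264))))) (b (a (b (a (a (b (l 16769648) (l 16765352)) (b (l 16773304) (l 16768976))) (b (b (a (a (l 125795567783) (l 551534201127)) (l 3)) (a (a (l 16774960) (l 16779360)) (l 532206849031))) (a (l 16772624) (a (l 16777976) (b (l 460266145079) (l 16776088)))))) (b (a (a (l 16761008) (l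 16764656)) (a (l 16768272) (l 16771912))) (a (l 16758496) (l 16769680)))) (b (a (a (a (b (l 3) (a (l 455434307207) (l 555829169047))) (l 3)) (l 3)) (l 3)) (a (b (b (a (a (l 16775720) (l 183777627079)) (l 3)) (a (l 16774448) (a (l 139217343207) (l 565492844823)))) (a (l 16771160) (c (c (l 16778720) (l 16778720)) (l 16778712)))) (a (b (l 3) (b (l 538649299863) (a (l 16776392) (l 456508048583)))) (l 3))))) (a (b (a (l 16752080) (b (l 16766600) (l 16762224))) (a (l 16742856) (l 16750376))) (b (a (b (l 16773824) (c (l 16769464) (l 16769384))) (a (b (l 16776616) (l 16769576)) (b (a (b (l 293299293703) (l 16775592)) (b (l 3) (l 169818985543))) (l 16775792)))) (a (b (l 16765096) (l 16755376)) (b (l 16772232) (l 16767728))))))), by decide +kernel⟩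

def k13_pp_022_s : ∃ t, chk3 f_pp_022_s t 5 8 1 = true :=
  ⟨(a (b (l 3) (b (l 3) (a (b (l 3) (a (b (a (b (a (l 599315715079) (l 3)) (b (a (a (l 161229048503) (l 544018008007)) (l 3)) (a (c (l 16778280) (l 16778264)) (a (l 476909143415) (l 3))))) (l 3)) (b (a (a (l 16772336) (a (l 16777624) (b (l 317458484711) (l 16775672)))) (a (a (b (l 3) (l 232096009847)) (l 3)) (l 3))) (b (a (l 16773432) (a (a (l 16775224) (l 159081565335)) (l 571398425655))) (a (l 16768512) (a (l 16773864) (a (l 16779120) (l 482814723383))))))) (l 3))) (l 3)))) (l 3)), by decide +kernel⟩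

def k14_pp_022_s : ∃ t, chk3 f_pp_022_s t 4 9 1 = true :=
  ⟨(b (a (a (b (a (a (l 16629224) (l 16638408)) (b (l 16659584) (l 16642984))) (a (l 16622152) (b (l 16626280) (l 16609656)))) (b (a (b (l 16675608) (l 16658768)) (b (l 16690896) (l 16673880))) (a (b (l 16641864) (l 16625152)) (b (l 16656800) (l 16639800))))) (b (a (b (a (a (l 16701240) (l 16707784)) (a (l 16724912) (b (l 16725712) (l 16716704)))) (a (l 16687928) (a (l 16697648) (l 16704072)))) (b (a (a (l 16738928) (l 16742320)) (b (a (l 16747880) (b (l 16762904) (l 16752712))) (a (l 16738272) (l 16745424)))) (a (a (l 16710560) (l 16727784)) (a (l 16724336) (l 16741872))))) (a (a (b (l 16671456) (l 16654200)) (a (l 16693792) (l 16700160))) (a (b (a (l 16693848) (l 16700152)) (l 16680496)) (b (a (l 16706600) (l 16723856)) (l 16703520)))))) (a (a (b (a (l 16568704) (l 16584896)) (a (l 16536472) (l 16552024))) (b (a (l 16621056) (l 16635272)) (a (l 16566496) (b (l 16588848) (l 16571800))))) (b (a (a (l 16649352) (l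 16663040)) (a (l 16686752) (b (l 16676712) (l 16659024)))) (a (a (b (l 16602416) (l 16585200)) (l 16606912)) (b (l 16655736) (l 16616696)))))), by decide +kernel⟩

def k15_pp_022_s : ∃ t, chk3 f_pp_022_s t 20 36 1 = true :=
  ⟨(b (a (b (a (b (l 16770136) (l 16766424)) (b (a (l 16770352) (c (l 16776592) (l 16773968))) (l 16772584))) (a (b (l 16760296) (l 16750152)) (b (l 16767576) (l 16762576)))) (b (a (a (b (a (b (l 293836165239) (l 16775528)) (a (b (l 3) (l 16776848)) (l 510195140679))) (l 16772880)) (b (l 610053133191) (b (a (l 133848632631) (l 531133105911)) (l 16778632)))) (b (l 3) (a (a (b (l 3) (l 458655532023)) (l 3)) (l 3)))) (a (b (a (l 16767992) (l 16771736)) (l 16770120)) (b (b (a (a (l 16775744) (a (l 16778384) (l 365239995927))) (l 3)) (a (l 16774248) (a (c (l 166597758647) (l 16779576)) (l 564955973655)))) (a (l 16770536) (c (b (l 16778792) (l 16773072)) (l 16776896))))))) (a (a (l 16748920) (b (l 16756832) (l 16740888))) (b (a (b (l 16765008) (l 16760160))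 (b (l 16771344) (l 16767616))) (a (l 16753224) (b (l 16762560) (l 16757888)))))), by decide +kernel⟩

def k16_pp_022_s : ∃ t, chk3 f_pp_022_s t 21 36 1 = true :=
  ⟨(b (a (b (l 3) (a (b (l 3) (a (a (b (l 486035948807) (l 16775872)) (c (b (l 3) (l 273971941799)) (l 489794045863))) (l 3))) (l 3))) (l 3)) (a (b (a (b (a (l 16775704) (a (a (l 16778040) (b (l 269140102647) (l 16775136))) (b (l 582672713927) (l 16779120)))) (a (l 16768040) (l 16771824))) (a (a (b (c (l 544554879271) (l 549386718055)) (l 16777264)) (b (l 3) (b (a (l 207936818567) (l 401210347303)) (l 16775272)))) (b (l 3) (a (b (l 3) (c (l 184851369847) (l 16779680))) (l 607905648343))))) (a (a (l 16765752) (l 16769496)) (b (a (l 16770528) (c (b (l 16778816) (l 16773032)) (l 16776888))) (c (l 16772608) (l 16767352))))) (b (l 3) (a (b (a (a (b (l 493552141655) (l 16775832)) (c (b (l 3) (l 265918878215)) (l 490867787719))) (l 3)) (a (l 16774264) (a (a (l 16777896) (b (l 240149073559) (l 16774952))) (b (l 567103457367)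 (l 16778936))))) (b (l 3) (a (a (b (l 3) (l 472077304951)) (l 3)) (l 3))))))), by decide +kernel⟩

def k17_pp_022_s : ∃ t, chk3 f_pp_022_s t 10 37 1 = true :=
  ⟨(a (b (a (a (l 16730728) (l 16737680)) (b (a (l 16738816) (l 16745808)) (l 16743440))) (a (a (l 16702664) (l 16709328)) (a (l 16715888) (l 16733048)))) (b (a (b (a (b (l 16760288) (l 16750520)) (b (l 16767632) (l 16762752))) (a (l 16743224) (b (l 16757848) (l 16747672)))) (b (a (b (a (l 16767912) (l 16771600)) (l 16769376)) (b (b (a (a (l 16775640) (a (l 16778296) (l 337322708871))) (l 636359806855)) (a (l 16774024) (a (l 126332438967) (l 535964944151)))) (a (l 16775480) (b (l 16777760) (l 16772616))))) (a (b (l 16759736) (l 16759816)) (b (l 16770888) (l 16767080))))) (a (a (l 16739712) (c (l 16746192) (l 16746576))) (b (a (b (l 16749680) (l 16744888)) (b (l 16761936) (l 16756968))) (a (l 16738008) (l 16755136)))))), by decide +kernel⟩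

def k18_pp_022_s : ∃ t, chk3 f_pp_022_s t 11 18 1 = true :=
  ⟨(b (l 3) (a (b (a (b (a (b (l 3) (a (c (a (b (l 301352358631) (l 16775336)) (b (l 3) (l 184314498343))) (b (l 501068335015) (l 16780144))) (c (b (l 3) (l 604684422695)) (l 629380486247)))) (l 3)) (a (a (b (l 16775024) (l 16767280)) (b (b (a (l 16779008) (a (l 304573583175) (l 615421839303))) (l 16774752)) (l 16770904))) (b (a (a (b (l 3) (a (l 16778280) (l 331953999895))) (l 642265387431)) (l 3)) (a (a (l 16773608) (b (l 117205633303) (l 16774120))) (a (b (l 520932558455) (l 16775904)) (a (b (l 3) (l 201494367687)) (l 567640329095))))))) (a (l 3) (l 3))) (a (b (a (a (l 16764848) (l 16768464)) (b (a (l 16769376) (l 16774256)) (l 16771288))) (a (a (l 16760184) (l 16758336)) (a (l 16761856) (l 16765416)))) (b (a (b (b (a (a (c (l 16779472) (l 16776856)) (l 548849846151)) (l 3)) (a (l 16777824) (a (c (l 303499842231) (l 16779520)) (l 3)))) (a (l 16771360) (a (l 16774000) (a (l 16777920) (b (l 248739008167) (l 16774904))))))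 (b (l 3) (a (b (l 589115165895) (a (l 16776192) (a (l 256792071911) (l 432348860807)))) (l 3)))) (b (a (c (l 16773200) (l 16768064)) (a (l 16775192) (c (b (a (l 189146337111) (l 573009037415)) (l 16775376)) (b (l 286319975031) (l 16775392))))) (a (l 16768160) (c (l 16772424) (l 16769896))))))) (b (l 3) (a (b (l 3) (a (b (a (c (b (l 3) (l 501068333783)) (l 545628622487)) (l 3)) (b (a (c (a (l 16775384) (l 184314498887)) (l 16776216)) (l 581598973063)) (a (l 16773696) (a (l 16776208) (a (l 245517782711) (l 415168991527)))))) (l 3))) (l 3))))), by decide +kernel⟩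

def k19_pp_022_s : ∃ t, chk3 f_pp_022_s t 10 19 1 = true :=
  ⟨(b (a (b (a (l 16710288) (c (l 16722648) (l 16722776))) (a (l 16671232) (l 16683328))) (b (a (c (l 16735080) (l 16735128)) (a (l 16744744) (l 16746040))) (a (b (l 16700248) (l 16691000)) (l 16724120)))) (a (a (l 16664728) (b (l 16664880) (l 16609816))) (b (a (l 16677216) (b (a (l 16691408) (l 16698064)) (l 16706648))) (a (l 16679928) (l 16693232))))), by decide +kernel⟩

def k20_pp_022_s : ∃ t, chk3 f_pp_022_s t 11 19 1 = true :=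
  ⟨(b (a (b (a (b (a (l 16741768) (a (l 16746864) (l 16760720))) (c (l 16746152) (l 16735736))) (b (a (a (l 16758832) (l 16757056)) (c (l 16769992) (l 16772824))) (a (l 16756192) (c (l 16763192) (l 16762872))))) (a (c (l 16743536) (l 16742736)) (b (c (l 16749960) (l 16750208)) (l 16741048)))) (b (a (b (a (b (a (l 16769880) (l 16775864)) (l 16771736)) (b (b (a (c (a (l 16779592) (l 557976651655)) (l 265382009127)) (l 3)) (a (l 16777912) (a (l 273971942087) (l 3)))) (a (l 16774120) (a (l 16773968) (a (l 16775184) (l 55465480519)))))) (a (c (l 16769264) (l 16759064)) (b (c (l 16773272) (l 16768168)) (l 16768296)))) (b (a (b (l 3) (a (b (l 535964945047) (a (l 16775952) (l 243370299959))) (l 624548648087))) (l 3)) (b (a (a (l 16772984) (a (l 16777992) (b (l 354502579255) (l 16775720)))) (a (c (b (l 3) (l 289541200503)) (l 488720304631)) (l 3))) (a (a (l 16767952) (l 16771168)) (a (l 16779568) (b (l 367387483319) (l 16778792))))))) (a (a (b (c (l 16759288) (l 16759712)) (l 16739808))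 (b (c (l 16766312) (l 16766040)) (l 16756200))) (b (a (c (l 16772288) (l 16762056)) (b (a (l 16769288) (l 16772432)) (l 16770968))) (a (c (l 16764560) (l 16762368)) (l 16768360)))))) (b (a (a (c (l 16725200) (l 16714136)) (c (l 16738296) (l 16738200))) (b (a (l 16744480) (a (l 16742416) (a (l 16746472) (l 16759736)))) (a (l 16725440) (l 16747056)))) (a (a (b (l 16711712) (l 16681984)) (c (l 16710936) (l 16707808))) (a (a (l 16709816) (l 16715880)) (c (l 16744936) (l 16745504)))))), by decide +kernel⟩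

def k21_pp_022_s : ∃ t, chk3 f_pp_022_s t 4 10 1 = true :=
  ⟨(b (b (b (a (a (l 16520240) (l 16548192)) (a (a (l 16567872) (l 16580488)) (l 16598584))) (a (a (l 16504448) (l 16531448)) (a (l 16556656) (l 16590880)))) (b (a (a (l 16487720) (l 16514920)) (a (l 16539056) (a (l 16556440) (l 16567592)))) (a (b (a (l 16473488) (l 16501392)) (a (b (l 16465264) (l 16479432)) (b (l 16493520) (l 16508080)))) (b (a (l 16525872) (l 16548208)) (a (b (l 16519376) (l 16535472)) (b (l 16541264) (c (l 16558064) (l 16556856)))))))) (a (a (a (l 16415464) (l 16430136)) (a (l 16444520) (l 16458368))) (a (b (l 16494968) (l 16458704)) (b (l 16515920) (l 16479832))))), by decide +kernel⟩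

def k22_pp_022_s : ∃ t, chk3 f_pp_022_s t 5 10 1 = true :=
  ⟨(a (b (b (a (b (a (l 16595152) (l 16628112)) (l 16603656)) (b (a (l 16640784) (l 16654432)) (a (l 16622608) (l 16636592)))) (b (a (b (l 16589712) (l 16564632)) (a (l 16604176) (l 16618448))) (b (a (a (l 16543792) (l 16597704)) (a (l 16589904) (l 16604352))) (b (a (a (l 16557736) (l 16569424)) (a (l 16603272) (l 16596536))) (b (b (b (a (l 16560808) (l 16586136)) (a (l 16551736) (a (l 16599416) (a (l 16588496) (l 16637456))))) (a (l 16559136) (l 16584392))) (a (l 16557440) (l 16582728))))))) (b (a (l 16538312) (a (l 16557240) (l 16592256))) (a (l 16586824) (a (l 16522792) (l 16538160))))) (b (b (a (b (a (l 16689912) (b (l 16687440) (l 16678984))) (a (l 16651488) (l 16666200))) (b (a (b (a (l 16697480) (l 16703648)) (l 16713272)) (a (l 16705520) (l 16711056))) (a (l 16721776) (b (l 16717344) (l 16688192))))) (b (a (a (l 16654656) (l 16690696)) (a (l 16704704) (b (l 16679888) (l 16671440)))) (b (a (b (l 16692640)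 (l 16666936)) (b (l 16705600) (l 16695872))) (b (a (a (l 16611984) (l 16627344)) (a (l 16641784) (l 16655264))) (b (b (b (a (l 16636960) (l 16645200)) (b (a (l 16635960) (l 16644176)) (a (l 16616744) (l 16685120)))) (a (a (l 16605920) (l 16621120)) (l 16642480))) (a (a (l 16604344) (l 16619592)) (l 16641024))))))) (a (b (a (l 16586832) (l 16602520)) (l 16646928)) (a (l 16623392) (a (l 16697512) (l 16704680)))))), by decide +kernel⟩

def k23_pp_022_s : ∃ t, chk3 f_pp_022_s t 2 11 1 = true :=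
  ⟨(b (a (a (a (l 16379544) (l 16427792)) (a (b (l 16422792) (l 16387400)) (b (l 16444296) (l 16472664)))) (a (a (b (a (l 16462024) (l 16475224)) (l 16519744)) (a (l 16558576) (l 16512656))) (a (a (l 16552032) (l 16633592)) (b (a (l 16559960) (l 16576568)) (l 16627088))))) (a (a (a (l 16317112) (l 16357344)) (a (l 16377584) (b (l 16460208) (l 16365368)))) (b (a (a (l 16404784) (l 16439568)) (a (l 16500832) (l 16520256))) (a (a (l 16375656) (l 16413160)) (a (l 16456320) (l 16499184)))))), by decide +kernel⟩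

def k24_pp_022_s : ∃ t, chk3 f_pp_022_s t 2 3 1 = true :=
  ⟨(b (a (b (b (a (a (l 16249496) (l 16268376)) (a (b (l 16286184) (l 16318448)) (b (l 16314232) (l 16286904)))) (a (a (l 16161216) (a (l 16179160) (l 16192472))) (a (a (l 16207616) (l 16224736)) (a (l 16243280) (l 16263272))))) (a (l 6) (b (a (l 16213008) (l 16215240)) (l 6)))) (b (a (a (b (b (l 16348416) (l 16324288)) (a (l 16284384) (l 16306728))) (b (b (l 16388920) (l 16367768)) (a (l 16330576) (l 16355224)))) (b (a (b (l 16435064) (l 16416328)) (b (l 16480336) (l 16464064))) (a (l 16477648) (l 16443048)))) (b (a (a (l 16367176) (l 16313016)) (a (l 16366824) (l 2))) (l 6)))) (l 6)), by decide +kernel⟩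

def k25_pp_022_s : ∃ t, chk3 f_pp_022_s t 3 8 1 = true :=
  ⟨(l 3), by decide +kernel⟩

def k26_pp_022_s : ∃ t, chk3 f_pp_022_s t 6 18 1 = true :=
  ⟨(l 3), by decide +kernel⟩

def k27_pp_022_s : ∃ t, chk3 f_pp_022_s t 12 38 1 = true :=
  ⟨(a (b (a (b (l 3) (a (b (l 3) (a (l 562808492103) (l 3))) (l 3))) (l 3)) (a (b (a (a (b (c (l 72108480871) (l 16780736)) (l 16770400)) (b (c (b (l 600926326007) (l 215989884679)) (l 433959470263)) (l 16773488))) (b (l 3) (a (b (a (l 16777032) (l 422685185399)) (l 16775272)) (c (l 503215819591) (l 526838138423))))) (a (c (l 16774512) (l 16764208)) (b (c (a (l 16771336) (l 16774424)) (l 16778184)) (l 16772880)))) (b (l 3) (a (b (b (c (l 548312976535) (l 573009036855)) (a (a (l 16775464) (l 16779568)) (l 566029714871))) (a (l 16772256) (c (l 65666029399) (l 16779904)))) (a (b (l 3) (b (l 624548644327) (a (l 16776296) (l 287393715367)))) (l 3)))))) (l 3)), by decide +kernel⟩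

def k28_pp_022_s : ∃ t, chk3 f_pp_022_s t 12 39 1 = true :=
  ⟨(a (b (a (b (a (c (l 16763960) (l 16764336)) (l 16770160)) (a (l 16744224) (c (l 16759784) (l 16749824)))) (a (b (b (l 16773704) (l 16763112)) (c (l 16765544) (l 16765968))) (a (b (c (l 16775544) (l 16770416)) (l 16759648)) (b (b (b (a (l 16776664) (l 344838903319)) (l 16774760)) (l 16770704)) (l 16773112))))) (a (c (l 16752952) (l 16755824)) (b (a (l 16756136) (c (l 16761176) (l 16761792))) (l 16750672)))) (b (a (a (a (b (b (c (l 473151045623) (l 488183431559)) (l 16776360)) (l 16773464)) (b (b (l 3) (b (a (l 212768658327) (l 422148315255)) (l 16775400))) (b (l 16771304) (l 16765880)))) (a (b (b (l 3) (c (l 528985621767) (l 547776102519))) (b (c (l 16774272) (l 16774328)) (l 16768840))) (b (l 3) (b (b (a (l 291688683111) (l 3)) (l 16778536)) (l 16771792))))) (b (l 3) (a (b (c (l 596631356839) (l 618106191351)) (b (a (l 16779400) (l 386714837751)) (c (l 16780048) (l 16774856)))) (b (l 3) (a (l 645486608375)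 (l 3)))))) (a (b (a (c (l 16766880) (l 16756896)) (c (l 16772584) (l 16772936))) (a (l 16757864) (c (l 16762544) (l 16753056)))) (b (a (b (c (l 16770640) (l 16770784)) (l 16765360)) (b (a (c (l 16780264) (l 16775080)) (b (a (l 381882997383) (l 3)) (l 122037475079))) (c (l 16771008) (l 16771240)))) (a (l 16765960) (c (l 16773936) (l 16774512))))))), by decide +kernel⟩

def k29_pp_022_s : ∃ t, chk3 f_pp_022_s t 13 19 1 = true :=
  ⟨(b (l 3) (a (b (l 3) (a (b (a (a (b (l 666424573495) (c (l 16775288) (l 16775360))) (b (l 3) (b (l 423222059927) (l 16779976)))) (b (l 3) (a (l 658371509511) (l 3)))) (a (c (b (l 16771472) (l 16766664)) (l 16774632)) (b (a (a (l 16774856) (l 88214607175)) (b (l 424295800951) (l 16776696))) (l 16777216)))) (b (l 3) (a (b (l 628843603479) (a (l 58149836407) (a (l 175724567319) (l 330880262103)))) (b (l 3) (l 589652026823)))))) (l 3))), by decide +kernel⟩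

def k30_pp_022_s : ∃ t, chk3 f_pp_022_s t 7 9 1 = true :=
  ⟨(l 3), by decide +kernel⟩

def k31_pp_022_s : ∃ t, chk3 f_pp_022_s t 3 40 1 = true :=
  ⟨(a (a (a (b (a (b (l 16722784) (l 16715096)) (b (l 16732696) (l 16725304))) (a (b (l 16728648) (l 16699632)) (b (l 16718392) (l 16710776)))) (b (b (a (l 16752816) (a (l 16756152) (b (l 16756936) (l 16752616)))) (a (l 16740536) (a (l 16742608) (l 16747304)))) (a (b (l 16749944) (l 16722024)) (b (l 16739400) (l 16754096))))) (b (a (b (a (a (l 16768040) (c (l 16775496) (l 16765592))) (b (a (l 16772200) (c (c (l 16781592) (l 16781616)) (l 147270411639))) (a (l 16767944) (l 16772296)))) (a (b (a (l 16753616) (l 16758664)) (a (l 16750256) (l 16754672))) (b (a (l 16763640) (l 16768184)) (a (l 16759328) (l 16764104))))) (b (a (b (a (l 539723037335) (l 3)) (a (c (l 165524022551) (l 16781424)) (l 482814715639))) (l 3)) (a (a (b (l 16772264) (l 16768384)) (b (a (l 16775000) (l 16780536)) (l 16772176))) (b (a (l 336785845127) (l 3))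 (a (c (l 16775280) (l 16775480)) (l 290078076903)))))) (a (b (a (a (l 16746856) (l 16751256)) (a (l 16755264) (l 16764440))) (a (l 16743664) (l 16757560))) (b (a (a (l 16768272) (l 16777216)) (b (c (l 21038642615) (l 16783968)) (l 16780048))) (a (a (l 16757224) (l 16759976)) (c (l 26407339543) (l 16779728))))))) (b (b (l 3) (l 2)) (l 2))), by decide +kernel⟩

def k32_pp_022_s : ∃ t, chk3 f_pp_022_s t 3 41 1 = true :=
  ⟨(a (b (a (a (a (b (l 16691528) (l 16683368)) (b (l 16702768) (l 16694848))) (b (a (l 16735208) (l 16746904)) (a (l 16706256) (l 16739008)))) (a (a (b (a (l 16734480) (l 16739664)) (a (l 16726784) (l 16732200))) (b (l 16746464) (l 16739320))) (b (a (l 16753352) (l 34997256327)) (a (l 16746544) (l 2))))) (a (b (a (a (l 16695864) (l 16707728)) (a (l 16740512) (b (l 16712128) (l 16708680)))) (b (a (a (l 16688840) (l 16701096)) (a (l 16734320) (c (l 16726904) (l 16703384)))) (b (b (b (a (a (l 16664680) (l 16677152)) (a (l 16689640) (l 16702152))) (a (a (l 16683984)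 (l 16696560)) (a (l 16709160) (c (l 16702712) (l 16677952))))) (a (l 16710544) (a (l 16687312) (l 16699936)))) (a (l 16709184) (a (l 16686016) (l 16698696)))))) (a (b (a (b (l 16723360) (l 16719832)) (b (l 16732984) (l 16729072))) (b (a (a (l 16734472) (l 16697808)) (l 16725384)) (b (b (b (a (l 16713928) (l 16723344)) (a (l 16754560) (l 16722072))) (l 16737672)) (l 16736504)))) (a (b (l 16749736) (b (l 16742104) (c (l 16729040) (l 16726544)))) (l 2))))) (l 2)), by decide +kernel⟩

def k33_pp_022_s : ∃ t, chk3 f_pp_022_s t 3 21 1 = true :=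
  ⟨(a (a (a (a (b (l 16666224) (l 16617728)) (b (l 16679416) (l 16632024))) (a (b (l 16692672) (l 16646416)) (b (l 16726912) (l 16660680)))) (b (a (a (l 16739192) (l 16707080)) (a (l 16714136) (l 2))) (a (a (l 16673832) (l 16684376)) (l 2)))) (l 2)), by decide +kernel⟩

def k34_pp_022_s : ∃ t, chk3 f_pp_022_s t 3 11 1 = true :=
  ⟨(a (a (a (a (b (b (l 16592288) (l 16568960)) (l 16537704)) (b (b (l 16607720) (l 16585440)) (l 16555872))) (b (b (a (l 16623160) (l 16638400)) (l 16673288)) (b (l 16591744) (l 2)))) (a (b (b (l 16658624) (l 2)) (l 2)) (l 2))) (l 2)), by decide +kernel⟩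

def k35_pp_022_s : ∃ t, chk3 f_pp_022_s t 3 3 1 = true :=
  ⟨(a (b (a (b (b (a (l 16597176) (l 2)) (l 2)) (l 2)) (l 2)) (l 2)) (l 2)), by decide +kernel⟩

theorem s36_pp_022_s : ∃ t, chk3 f_pp_022_s t 3 20 1 = true := ex3_b k31_pp_022_s k32_pp_022_s

theorem s37_pp_022_s : ∃ t, chk3 f_pp_022_s t 3 10 1 = true := ex3_b s36_pp_022_s k33_pp_022_s

theorem s38_pp_022_s : ∃ t, chk3 f_pp_022_s t 3 5 1 = true := ex3_b s37_pp_022_s k34_pp_022_s

theorem s39_pp_022_s : ∃ t, chk3 f_pp_022_s t 12 19 1 = true := ex3_b k27_pp_022_s k28_pp_022_s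

theorem s40_pp_022_s : ∃ t, chk3 f_pp_022_s t 6 19 1 = true := ex3_a s39_pp_022_s k29_pp_022_s

theorem s41_pp_022_s : ∃ t, chk3 f_pp_022_s t 6 9 1 = true := ex3_b k26_pp_022_s s40_pp_022_s

theorem s42_pp_022_s : ∃ t, chk3 f_pp_022_s t 3 9 1 = true := ex3_a s41_pp_022_s k30_pp_022_s

theorem s43_pp_022_s : ∃ t, chk3 f_pp_022_s t 3 4 1 = true := ex3_b k25_pp_022_s s42_pp_022_s

theorem s44_pp_022_s : ∃ t, chk3 f_pp_022_s t 3 2 1 = true := ex3_b s43_pp_022_s s38_pp_022_s

theorem s45_pp_022_s : ∃ t, chk3 f_pp_022_s t 3 1 1 = true := ex3_b s44_pp_022_s k35_pp_022_s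

theorem s46_pp_022_s : ∃ t, chk3 f_pp_022_s t 2 10 1 = true := ex3_a k21_pp_022_s k22_pp_022_s

theorem s47_pp_022_s : ∃ t, chk3 f_pp_022_s t 2 5 1 = true := ex3_b s46_pp_022_s k23_pp_022_s

theorem s48_pp_022_s : ∃ t, chk3 f_pp_022_s t 5 19 1 = true := ex3_a k19_pp_022_s k20_pp_022_s

theorem s49_pp_022_s : ∃ t, chk3 f_pp_022_s t 10 36 1 = true := ex3_a k15_pp_022_s k16_pp_022_s

theorem s50_pp_022_s : ∃ t, chk3 f_pp_022_s t 10 18 1 = true := ex3_b s49_pp_022_s k17_pp_022_s

theorem s51_pp_022_s : ∃ t, chk3 f_pp_022_s t 5 18 1 = true := ex3_a s50_pp_022_s k18_pp_022_s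

theorem s52_pp_022_s : ∃ t, chk3 f_pp_022_s t 5 9 1 = true := ex3_b s51_pp_022_s s48_pp_022_s

theorem s53_pp_022_s : ∃ t, chk3 f_pp_022_s t 2 9 1 = true := ex3_a k14_pp_022_s s52_pp_022_s

theorem s54_pp_022_s : ∃ t, chk3 f_pp_022_s t 18 34 1 = true := ex3_a k9_pp_022_s k10_pp_022_s

theorem s55_pp_022_s : ∃ t, chk3 f_pp_022_s t 9 34 1 = true := ex3_a s54_pp_022_s k11_pp_022_s

theorem s56_pp_022_s : ∃ t, chk3 f_pp_022_s t 9 17 1 = true := ex3_b s55_pp_022_s k12_pp_022_s

theorem s57_pp_022_s : ∃ t, chk3 f_pp_022_s t 9 8 1 = true := ex3_b k8_pp_022_s s56_pp_022_s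

theorem s58_pp_022_s : ∃ t, chk3 f_pp_022_s t 35 33 1 = true := ex3_b k5_pp_022_s k6_pp_022_s

theorem s59_pp_022_s : ∃ t, chk3 f_pp_022_s t 34 66 1 = true := ex3_a k2_pp_022_s k3_pp_022_s

theorem s60_pp_022_s : ∃ t, chk3 f_pp_022_s t 34 33 1 = true := ex3_b s59_pp_022_s k4_pp_022_s

theorem s61_pp_022_s : ∃ t, chk3 f_pp_022_s t 17 33 1 = true := ex3_a s60_pp_022_s s58_pp_022_s

theorem s62_pp_022_s : ∃ t, chk3 f_pp_022_s t 17 16 1 = true := ex3_b k1_pp_022_s s61_pp_022_s

theorem s63_pp_022_s : ∃ t, chk3 f_pp_022_s t 8 16 1 = true := ex3_a k0_pp_022_s s62_pp_022_s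

theorem s64_pp_022_s : ∃ t, chk3 f_pp_022_s t 8 8 1 = true := ex3_b s63_pp_022_s k7_pp_022_s

theorem s65_pp_022_s : ∃ t, chk3 f_pp_022_s t 4 8 1 = true := ex3_a s64_pp_022_s s57_pp_022_s

theorem s66_pp_022_s : ∃ t, chk3 f_pp_022_s t 2 8 1 = true := ex3_a s65_pp_022_s k13_pp_022_s

theorem s67_pp_022_s : ∃ t, chk3 f_pp_022_s t 2 4 1 = true := ex3_b s66_pp_022_s s53_pp_022_s

theorem s68_pp_022_s : ∃ t, chk3 f_pp_022_s t 2 2 1 = true := ex3_b s67_pp_022_s s47_pp_022_s

theorem s69_pp_022_s : ∃ t, chk3 f_pp_022_s t 2 1 1 = true := ex3_b s68_pp_022_s k24_pp_022_s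

theorem s70_pp_022_s : ∃ t, chk3 f_pp_022_s t 1 1 1 = true := ex3_a s69_pp_022_s s45_pp_022_s

theorem c_pp_022_s : CertNE 0 536870912 1073741824 536870912 697932185 42949674 3 eng mog cd0q0 cd7q2 pd2 false true true .pp 0 2 2
    ndB0q0 ndB7q2 pcB2 cut_pp_022_s Ext.none :=
  certNE1 (fam := false) (s1 := true) (s2 := true) (a := 0) (b := 2) (c := 2) (cn := .pp) (n1 := ndB0q0) (n2 := ndB7q2) (pc := pcB2) (cut := cut_pp_022_s) (xt := Ext.none) (P1 := 0) (W1 := 536870912) (P2 := 1073741824) (W2 := 536870912) (P3 := 697932185) (W3 := 42949674) (N0 := 3) (En := eng) (mo := mog) (C1 := cd0q0) (C2 := cd7q2) (C3 := pd2)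
    rfl (fun _ => rfl) s70_pp_022_s

noncomputable def cut_pp_023_s : Cut := Cut.of [[⟨4, 0, 0, 1449551462⟩]]

noncomputable def f_pp_023_s : ℕ → ℕ → ℕ → ℕ → Bool := onCell 1073741824 536870912 0 1230186008 697932185 42949674
    (rowNE 3 eng mog cd0q0 cd7q3 pd2 2 false true true .up 0 2 3 (qsf 0 536870912 0 1230186008 2) ndB0q0 ndB7q3 pcB2 cut_pp_023_s Ext.none)

def k0_pp_023_s : ∃ t, chk3 f_pp_023_s t 2 2 1 = true :=
  ⟨(l 2), by decide +kernel⟩

def k1_pp_023_s : ∃ t, chk3 f_pp_023_s t 4 3 1 = true :=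
  ⟨(b (l 2) (b (l 2) (l 3))), by decide +kernel⟩

def k2_pp_023_s : ∃ t, chk3 f_pp_023_s t 5 6 1 = true :=
  ⟨(a (l 2) (b (l 2) (b (l 2) (b (l 2) (l 265314901383))))), by decide +kernel⟩

def k3_pp_023_s : ∃ t, chk3 f_pp_023_s t 40 7 1 = true :=
  ⟨(b (l 3) (b (l 3) (a (b (l 3) (a (l 3) (b (l 3) (a (l 3) (b (l 3) (c (l 316921622439) (l 313163525271))))))) (b (a (l 3) (b (b (l 3) (l 427517014407)) (a (b (l 3) (l 291688689271)) (b (l 16782152) (l 16773816))))) (a (b (a (l 3) (b (l 372756195799) (l 194515053303))) (a (b (l 260013304983) (l 16781240)) (b (l 16773496) (l 16770072)))) (b (a (b (l 16775416) (l 16772128)) (l 16779424)) (b (l 16776872) (a (l 16765376) (l 16761064))))))))), by decide +kernel⟩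

def k4_pp_023_s : ∃ t, chk3 f_pp_023_s t 41 14 1 = true :=
  ⟨(a (l 3) (b (l 2) (b (l 2) (b (a (a (l 3) (c (l 230485411271) (l 228874798103))) (a (a (l 16775616) (a (l 16774800) (l 16774112))) (a (a (a (l 16773424) (l 16772688)) (l 16772120)) (l 16771296)))) (a (a (c (l 264308284119) (l 269676992279)) (a (l 16776240) (l 16774784))) (a (a (l 16773512) (a (l 16772432) (l 16771432))) (c (l 16769552) (l 16768664)))))))), by decide +kernel⟩

def k5_pp_023_s : ∃ t, chk3 f_pp_023_s t 41 15 1 = true :=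
  ⟨(a (b (b (a (l 3) (a (b (l 3) (l 3)) (b (c (l 289541216007) (l 286319989575)) (c (l 207399962199) (l 200957510855))))) (a (b (l 3) (a (b (l 3) (l 338933332423)) (b (l 269140113399) (l 16781072)))) (a (b (b (l 248739019015) (l 16781312)) (b (l 16773696) (l 16771120))) (b (b (l 16773864) (l 16771704)) (l 16779168))))) (b (a (b (a (b (l 248739019239) (l 16775048)) (b (l 16773032) (l 16770088))) (a (l 16780880) (l 16765648))) (b (a (l 16767064) (l 16763432)) (a (l 16761816) (l 16758144)))) (a (b (a (l 16774672) (l 16760416)) (a (l 16769608) (l 16755832))) (b (a (l 16757000) (l 16753176)) (l 16750080))))) (b (a (b (a (a (b (l 162302804951) (l 16773744)) (b (l 16775184) (l 16771792))) (b (c (l 16772920) (l 16772416)) (l 16776992))) (a (b (b (l 16769984) (l 16768088)) (b (l 16765872) (l 16763488))) (b (b (l 16766088) (l 16763776)) (l 16759904)))) (b (a (a (b (l 16770320) (l 16766120)) (b (c (l 16768528) (l 16767968)) (l 16763592))) (b (a (a (a (l 16766704) (l 16765864)) (l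 16765216)) (l 16764312)) (c (l 16761336) (l 16762600)))) (a (a (b (l 16761232) (l 16756008)) (b (l 16758720) (l 16753520))) (b (c (l 16756632) (l 16759552)) (c (l 16751632) (l 16754208)))))) (a (b (a (b (l 16759480) (l 16753976)) (b (l 16754440) (l 16748856))) (b (a (l 16748496) (l 16743304)) (a (l 16742872) (l 16737752)))) (b (a (b (l 16754296) (l 16748952)) (a (a (a (b (l 16746768) (l 16741232)) (b (l 16745928) (l 16740400))) (b (l 16745120) (l 16739544))) (l 16759840))) (a (b (c (l 16738272) (l 16737952)) (c (l 16733040) (l 16732600))) (b (b (c (l 16736680) (l 16739632)) (l 16737936)) (c (l 16740240) (l 16743000)))))))), by decide +kernel⟩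

def k6_pp_023_s : ∃ t, chk3 f_pp_023_s t 21 7 1 = true :=
  ⟨(b (b (b (l 2) (l 320612633495)) (b (b (l 274441724871) (a (l 16764608) (l 16747360))) (a (b (l 16761544) (l 16757920)) (b (l 16743048) (l 16738032))))) (b (a (b (b (l 16774576) (l 16769488)) (b (l 16743104) (l 16737360))) (b (l 16734816) (l 16717072))) (b (a (b (l 16731256) (l 16746000)) (b (l 16707136) (l 16699360))) (b (a (l 16718472) (l 16690760)) (a (l 16711416) (l 16680192)))))), by decide +kernel⟩

def k7_pp_023_s : ∃ t, chk3 f_pp_023_s t 11 7 1 = true :=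
  ⟨(b (b (a (b (l 16739360) (l 16732560)) (b (l 16713272) (l 16701928))) (b (a (a (l 16732136) (l 16714752)) (l 16687960)) (a (l 16711240) (l 16673144)))) (b (a (b (l 16697704) (b (l 16686352) (l 16678776))) (b (l 16657048) (l 16635000))) (b (a (b (l 16669616) (l 16659176)) (l 16647816)) (a (b (l 16645104) (l 16629192)) (b (l 16578520) (l 16558032)))))), by decide +kernel⟩

def k8_pp_023_s : ∃ t, chk3 f_pp_023_s t 3 1 1 = true :=
  ⟨(a (b (l 2) (b (b (a (l 2) (b (l 16708088) (l 16701824))) (a (b (a (l 402216890391) (l 16706352)) (a (l 16746704) (l 16683224))) (b (l 16766696) (a (l 16659528) (l 6))))) (b (a (b (a (l 16740768) (l 16648120)) (a (b (l 16653464) (l 16636848)) (b (l 16620816) (l 16596392)))) (b (a (l 16623304) (l 6)) (b (l 16621128) (l 16521336)))) (b (a (b (a (l 16613072) (l 16562552)) (a (l 16580616) (l 16520072))) (b (l 16561496) (l 16421416))) (a (b (a (l 16583112) (l 16473336)) (a (l 16600888) (l 16440968))) (a (b (l 16401784) (l 16343816)) (l 6))))))) (b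 (l 6) (l 6))), by decide +kernel⟩

theorem s9_pp_023_s : ∃ t, chk3 f_pp_023_s t 41 7 1 = true := ex3_b k4_pp_023_s k5_pp_023_s

theorem s10_pp_023_s : ∃ t, chk3 f_pp_023_s t 20 7 1 = true := ex3_a k3_pp_023_s s9_pp_023_s

theorem s11_pp_023_s : ∃ t, chk3 f_pp_023_s t 10 7 1 = true := ex3_a s10_pp_023_s k6_pp_023_s

theorem s12_pp_023_s : ∃ t, chk3 f_pp_023_s t 5 7 1 = true := ex3_a s11_pp_023_s k7_pp_023_s

theorem s13_pp_023_s : ∃ t, chk3 f_pp_023_s t 5 3 1 = true := ex3_b k2_pp_023_s s12_pp_023_s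

theorem s14_pp_023_s : ∃ t, chk3 f_pp_023_s t 2 3 1 = true := ex3_a k1_pp_023_s s13_pp_023_s

theorem s15_pp_023_s : ∃ t, chk3 f_pp_023_s t 2 1 1 = true := ex3_b k0_pp_023_s s14_pp_023_s

theorem s16_pp_023_s : ∃ t, chk3 f_pp_023_s t 1 1 1 = true := ex3_a s15_pp_023_s k8_pp_023_s

theorem c_pp_023_s : CertNE 0 536870912 0 1230186008 697932185 42949674 3 eng mog cd0q0 cd7q3 pd2 false true true .up 0 2 3
    ndB0q0 ndB7q3 pcB2 cut_pp_023_s Ext.none :=
  certNE2 (fam := false) (s1 := true) (s2 := true) (a := 0) (b := 2) (c := 3) (cn := .up) (n1 := ndB0q0) (n2 := ndB7q3) (pc := pcB2) (cut := cut_pp_023_s) (xt := Ext.none) (P1 := 0) (W1 := 536870912) (P2 := 0) (W2 := 1230186008) (P3 := 697932185) (W3 := 42949674) (N0 := 3) (En := eng) (mo := mog) (C1 := cd0q0) (C2 := cd7q3) (C3 := pd2)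
    rfl (fun _ => rfl) s16_pp_023_s

noncomputable def cut_pp_033_s : Cut := Cut.of [[⟨4, 0, 0, 1449551462⟩]]

noncomputable def f_pp_033_s : ℕ → ℕ → ℕ → ℕ → Bool := onCell 1610612736 536870912 0 1230186008 697932185 42949674
    (rowNE 3 eng mog cd0q0 cd7q3 pd3 2 false true true .pnn 0 3 3 (qsf 0 536870912 0 1230186008 3) ndB0q0 ndB7q3 pcB3 cut_pp_033_s Ext.none)

def k0_pp_033_s : ∃ t, chk3 f_pp_033_s t 1 1 1 = true :=
  ⟨(b (l 6) (l 6)), by decide +kernel⟩

theorem c_pp_033_s : CertNE 0 536870912 0 1230186008 697932185 42949674 3 eng mog cd0q0 cd7q3 pd3 false true true .pnn 0 3 3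
    ndB0q0 ndB7q3 pcB3 cut_pp_033_s Ext.none :=
  certNE2 (fam := false) (s1 := true) (s2 := true) (a := 0) (b := 3) (c := 3) (cn := .pnn) (n1 := ndB0q0) (n2 := ndB7q3) (pc := pcB3) (cut := cut_pp_033_s) (xt := Ext.none) (P1 := 0) (W1 := 536870912) (P2 := 0) (W2 := 1230186008) (P3 := 697932185) (W3 := 42949674) (N0 := 3) (En := eng) (mo := mog) (C1 := cd0q0) (C2 := cd7q3) (C3 := pd3)
    rfl (fun _ => rfl) k0_pp_033_s

noncomputable def cut_pp_101_s : Cut := Cut.of [[⟨4, 0, 0, 1449551462⟩]]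

noncomputable def f_pp_101_s : ℕ → ℕ → ℕ → ℕ → Bool := onCell 536870912 536870912 536870912 536870912 697932185 42949674
    (rowNE 3 eng mog cd0q1 cd7q1 pd0 0 false true true .npn 1 0 1 (qsf 536870912 536870912 536870912 536870912 0) ndB0q1 ndB7q1 pcB0 cut_pp_101_s Ext.none)

def k0_pp_101_s : ∃ t, chk3 f_pp_101_s t 1 1 1 = true :=
  ⟨(a (l 3) (l 5)), by decide +kernel⟩

theorem c_pp_101_s : CertNE 536870912 536870912 536870912 536870912 697932185 42949674 3 eng mog cd0q1 cd7q1 pd0 false true true .npn 1 0 1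
    ndB0q1 ndB7q1 pcB0 cut_pp_101_s Ext.none :=
  certNE0 (fam := false) (s1 := true) (s2 := true) (a := 1) (b := 0) (c := 1) (cn := .npn) (n1 := ndB0q1) (n2 := ndB7q1) (pc := pcB0) (cut := cut_pp_101_s) (xt := Ext.none) (P1 := 536870912) (W1 := 536870912) (P2 := 536870912) (W2 := 536870912) (P3 := 697932185) (W3 := 42949674) (N0 := 3) (En := eng) (mo := mog) (C1 := cd0q1) (C2 := cd7q1) (C3 := pd0)
    rfl k0_pp_101_s

noncomputable def cut_pp_102_s : Cut := Cut.of [[⟨4, 0, 0, 1449551462⟩]]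

noncomputable def f_pp_102_s : ℕ → ℕ → ℕ → ℕ → Bool := onCell 536870912 536870912 1073741824 536870912 697932185 42949674
    (rowNE 3 eng mog cd0q1 cd7q2 pd0 0 false true true .npp 1 0 2 (qsf 536870912 536870912 1073741824 536870912 0) ndB0q1 ndB7q2 pcB0 cut_pp_102_s Ext.none)

def k0_pp_102_s : ∃ t, chk3 f_pp_102_s t 1 1 1 = true :=
  ⟨(a (l 3) (b (l 5) (l 3))), by decide +kernel⟩

theorem c_pp_102_s : CertNE 536870912 536870912 1073741824 536870912 697932185 42949674 3 eng mog cd0q1 cd7q2 pd0 false true true .npp 1 0 2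
    ndB0q1 ndB7q2 pcB0 cut_pp_102_s Ext.none :=
  certNE0 (fam := false) (s1 := true) (s2 := true) (a := 1) (b := 0) (c := 2) (cn := .npp) (n1 := ndB0q1) (n2 := ndB7q2) (pc := pcB0) (cut := cut_pp_102_s) (xt := Ext.none) (P1 := 536870912) (W1 := 536870912) (P2 := 1073741824) (W2 := 536870912) (P3 := 697932185) (W3 := 42949674) (N0 := 3) (En := eng) (mo := mog) (C1 := cd0q1) (C2 := cd7q2) (C3 := pd0)
    rfl k0_pp_102_s

noncomputable def cut_pp_112_s : Cut := Cut.of [[⟨4, 0, 0, 1449551462⟩]]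

noncomputable def f_pp_112_s : ℕ → ℕ → ℕ → ℕ → Bool := onCell 536870912 536870912 1073741824 536870912 697932185 42949674
    (rowNE 3 eng mog cd0q1 cd7q2 pd1 0 false true true .dn 1 1 2 (qsf 536870912 536870912 1073741824 536870912 1) ndB0q1 ndB7q2 pcB1 cut_pp_112_s Ext.none)

def k0_pp_112_s : ∃ t, chk3 f_pp_112_s t 1 1 1 = true :=
  ⟨(a (l 3) (b (l 5) (l 3))), by decide +kernel⟩

theorem c_pp_112_s : CertNE 536870912 536870912 1073741824 536870912 697932185 42949674 3 eng mog cd0q1 cd7q2 pd1 false true true .dn 1 1 2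
    ndB0q1 ndB7q2 pcB1 cut_pp_112_s Ext.none :=
  certNE0 (fam := false) (s1 := true) (s2 := true) (a := 1) (b := 1) (c := 2) (cn := .dn) (n1 := ndB0q1) (n2 := ndB7q2) (pc := pcB1) (cut := cut_pp_112_s) (xt := Ext.none) (P1 := 536870912) (W1 := 536870912) (P2 := 1073741824) (W2 := 536870912) (P3 := 697932185) (W3 := 42949674) (N0 := 3) (En := eng) (mo := mog) (C1 := cd0q1) (C2 := cd7q2) (C3 := pd1)
    rfl k0_pp_112_s

noncomputable def cut_pp_113_s : Cut := Cut.of [[⟨4, 0, 0, 1449551462⟩], [⟨0, 1, 0, 67108864⟩, ⟨1, 1, 0, 67108864⟩, ⟨2, 2, 0, 16777216⟩]]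

noncomputable def f_pp_113_s : ℕ → ℕ → ℕ → ℕ → Bool := onCell 536870912 536870912 0 1230186008 697932185 42949674
    (rowNE 3 eng mog cd0q1 cd7q3 pd1 2 false true true .nn 1 1 3 (qsf 536870912 536870912 0 1230186008 1) ndB0q1 ndB7q3 pcB1 cut_pp_113_s Ext.none)

def k0_pp_113_s : ∃ t, chk3 f_pp_113_s t 1 1 1 = true :=
  ⟨(b (a (l 2) (a (l 2) (b (a (l 2) (a (l 2) (b (l 14) (l 3)))) (l 3)))) (b (a (a (l 2) (b (l 2) (a (l 2) (l 3)))) (b (l 3) (l 3))) (a (a (b (l 2) (l 3)) (l 3)) (l 3)))), by decide +kernel⟩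

theorem c_pp_113_s : CertNE 536870912 536870912 0 1230186008 697932185 42949674 3 eng mog cd0q1 cd7q3 pd1 false true true .nn 1 1 3
    ndB0q1 ndB7q3 pcB1 cut_pp_113_s Ext.none :=
  certNE2 (fam := false) (s1 := true) (s2 := true) (a := 1) (b := 1) (c := 3) (cn := .nn) (n1 := ndB0q1) (n2 := ndB7q3) (pc := pcB1) (cut := cut_pp_113_s) (xt := Ext.none) (P1 := 536870912) (W1 := 536870912) (P2 := 0) (W2 := 1230186008) (P3 := 697932185) (W3 := 42949674) (N0 := 3) (En := eng) (mo := mog) (C1 := cd0q1) (C2 := cd7q3) (C3 := pd1)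
    rfl (fun _ => rfl) k0_pp_113_s

noncomputable def cut_pp_123_s : Cut := Cut.of [[⟨4, 0, 0, 1449551462⟩], [⟨0, 1, 0, 67108864⟩, ⟨1, 1, 0, 67108864⟩, ⟨2, 2, 0, 16777216⟩]]

noncomputable def f_pp_123_s : ℕ → ℕ → ℕ → ℕ → Bool := onCell 1073741824 536870912 0 1230186008 697932185 42949674
    (rowNE 3 eng mog cd0q1 cd7q3 pd2 2 false true true .npn 1 2 3 (qsf 536870912 536870912 0 1230186008 2) ndB0q1 ndB7q3 pcB2 cut_pp_123_s Ext.none)

def k0_pp_123_s : ∃ t, chk3 f_pp_123_s t 8 8 1 = true :=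
  ⟨(a (l 14) (a (l 14) (a (l 14) (b (l 16738552) (b (l 16757152) (l 16767296)))))), by decide +kernel⟩

def k1_pp_123_s : ∃ t, chk3 f_pp_123_s t 16 9 1 = true :=
  ⟨(l 3), by decide +kernel⟩

def k2_pp_123_s : ∃ t, chk3 f_pp_123_s t 34 18 1 = true :=
  ⟨(l 14), by decide +kernel⟩

def k3_pp_123_s : ∃ t, chk3 f_pp_123_s t 35 36 1 = true :=
  ⟨(a (a (l 14) (b (b (l 14) (a (l 14) (l 16776304))) (b (a (l 14) (a (b (l 16776296) (l 16776656)) (b (l 16776256) (l 16776296)))) (b (a (a (l 3) (a (l 14) (b (c (l 266455746007) (l 16777128)) (c (l 363092508087) (l 364166249831))))) (a (c (c (l 16777016) (l 269140096919)) (l 269140096807)) (l 16776616))) (a (l 3) (c (a (c (l 355039443975) (l 353965702087)) (c (l 270750715351) (l 270750708455))) (a (b (c (l 336248962519) (l 336248962503)) (l 411410889111)) (b (l 16776920) (l 304036708215))))))))) (b (a (b (l 16774424) (l 16775856)) (l 16771440)) (a (a (a (b (l 16780960) (b (l 16776312) (l 16776656))) (b (l 16776080) (b (l 16775952) (l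 16776320)))) (a (c (l 16780848) (l 16785856)) (l 16775872))) (b (l 16775424) (l 16775680))))), by decide +kernel⟩

def k4_pp_123_s : ∃ t, chk3 f_pp_123_s t 35 37 1 = true :=
  ⟨(a (b (a (l 3) (b (a (l 3) (a (l 3) (b (c (c (l 378661763767) (l 377588021863)) (l 376514279911)) (l 3)))) (l 3))) (l 3)) (b (a (b (a (b (c (a (c (l 307257933639) (l 305647320903)) (l 16776736)) (a (b (l 16777000) (l 323364060839)) (l 16776680))) (c (a (l 399062857991) (c (l 319605964487) (l 318532220023))) (a (l 406042179623) (b (l 291151803735) (l 347523251495))))) (a (b (l 16776304) (c (l 262160776151) (l 16776752))) (b (l 16775856) (l 16776288)))) (a (l 3) (b (c (a (c (l 335175220631) (l 334638349687)) (c (l 276656294823) (l 275582552951))) (a (l 333027736903) (l 272361321767))) (a (l 3) (a (c (l 397452246423) (l 396378503783)) (c (c (l 335175220727) (l 335712091623)) (l 335712091575))))))) (b (a (b (l 16775952) (l 16776104)) (l 16775880)) (a (b (a (l 16775192) (l 16776424)) (c (c (l 287393714359)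 (l 284709359767)) (l 284709359863))) (b (l 16776328) (c (l 16776560) (l 16776616)))))) (a (l 3) (b (a (b (c (a (c (l 373293054759) (l 373829925591)) (c (l 305110449975) (l 305110453575))) (a (l 374903667303) (l 305110449975))) (a (l 3) (c (c (l 395304761831) (l 394767890823)) (l 396378503415)))) (b (c (l 16776840) (l 16776800)) (c (a (c (l 317458483415) (l 316921612487)) (l 16776976)) (a (l 319069093495) (l 16776992))))) (a (l 3) (a (l 3) (b (b (c (c (l 311552902823) (l 311016031911)) (l 313163515703)) (c (c (l 362555636967) (l 362018766007)) (l 364703120503))) (l 3)))))))), by decide +kernel⟩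

def k5_pp_123_s : ∃ t, chk3 f_pp_123_s t 17 19 1 = true :=
  ⟨(l 3), by decide +kernel⟩

def k6_pp_123_s : ∃ t, chk3 f_pp_123_s t 8 5 1 = true :=
  ⟨(l 3), by decide +kernel⟩

def k7_pp_123_s : ∃ t, chk3 f_pp_123_s t 18 8 1 = true :=
  ⟨(b (l 16716232) (a (b (l 16747448) (b (l 16754720) (l 16760688))) (l 16738200))), by decide +kernel⟩

def k8_pp_123_s : ∃ t, chk3 f_pp_123_s t 36 18 1 = true :=
  ⟨(b (a (b (l 16767488) (a (l 16796680) (l 16771280))) (l 16763816)) (a (b (a (a (c (l 16786384) (l 16786168)) (l 16774696)) (b (l 16774320) (l 16774472))) (a (b (a (b (l 16776128) (c (l 16778864) (l 16776248))) (b (l 16775240) (l 16775632))) (a (b (c (c (l 16778080) (l 16776768)) (l 16776776)) (c (a (c (a (l 378661764135) (l 329806511703)) (l 342154542231)) (c (l 271824454567) (l 270213841751))) (a (l 344838896727) (l 272361325479)))) (b (c (l 16775784) (l 16775776)) (c (l 16777496) (l 16776168))))) (b (l 16774496) (a (b (l 16775032) (l 16775392)) (l 16774624))))) (b (l 16790400)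 (a (b (l 16774536) (l 16774192)) (l 16772776))))), by decide +kernel⟩

def k9_pp_123_s : ∃ t, chk3 f_pp_123_s t 72 38 1 = true :=
  ⟨(b (a (b (a (a (l 3) (b (c (c (l 357723798535) (l 356650056647)) (l 359871282023)) (l 3))) (b (c (c (l 265382004695) (l 263771391943)) (l 266455746647)) (c (c (a (l 374903667511) (l 312089771495)) (a (l 373829925607) (l 309405418391))) (a (l 377051150967) (l 313700384183))))) (a (l 3) (a (l 3) (c (c (l 400136599239) (l 398525986359)) (l 401210340695))))) (b (a (b (c (l 16776584) (l 16775560)) (c (c (l 16776304) (l 16776296)) (l 16776280))) (b (l 16775008) (c (l 16775216) (l 16775184)))) (a (b (c (a (c (a (l 335712091655) (l 258402681319)) (l 319605964215)) (c (l 16776632) (l 16776624))) (a (l 321753449143) (l 16776616))) (c (c (a (l 409800276343) (b (l 306721063447) (l 355576315191))) (a (l 410874018055) (l 328195898759))) (a (l 410337146999) (b (l 258402681335) (l 358260669639))))) (a (c (c (l 16776376) (l 16776360)) (l 16776344)) (b (l 16770088)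 (l 16776080)))))) (a (l 3) (b (a (l 3) (a (b (c (c (a (l 367924346039) (l 324974673463)) (l 337322704135)) (b (l 324437802535) (l 378661764119))) (l 3)) (c (b (c (l 248202134551) (l 16776744)) (c (a (l 389399182359) (l 336248962551)) (l 348060122183))) (b (l 16776728) (l 351281350215))))) (l 3)))), by decide +kernel⟩

def k10_pp_123_s : ∃ t, chk3 f_pp_123_s t 73 38 1 = true :=
  ⟨(b (a (b (l 16774400) (a (b (l 16774944) (c (l 16775160) (l 16775112))) (b (l 16774480) (l 16774680)))) (l 16774304)) (a (b (a (a (c (c (l 247128393335) (l 247665264215)) (l 248739006263)) (c (l 16775904) (l 16775872))) (b (l 16774920) (a (l 16775624) (l 16769760)))) (a (b (c (c (a (l 360408153111) (l 253570841895)) (a (l 359871282135) (l 249812747127))) (a (l 363629378439) (l 249275876199))) (a (l 3) (c (c (l 374366796711) (l 373829925735)) (l 377051151095)))) (b (c (l 16776032) (l 16776008)) (c (a (c (l 254107714199) (l 249812746967)) (l 16776424)) (a (l 253570841927) (l 16776416)))))) (b (a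 (b (l 16774560) (l 16774832)) (l 16774552)) (a (b (c (l 16775008) (l 16775000)) (c (l 16775544) (l 16775520))) (l 16774984))))), by decide +kernel⟩

def k11_pp_123_s : ∃ t, chk3 f_pp_123_s t 36 39 1 = true :=
  ⟨(a (l 3) (b (a (b (a (l 3) (b (c (c (a (l 389399182119) (b (l 16777560) (l 335175220791))) (a (l 388325440215) (l 313700385143))) (a (l 390472923751) (b (l 16776896) (l 336248962551)))) (c (c (l 407115921351) (l 407115921223)) (l 407115921015)))) (l 3)) (b (a (b (c (c (l 16776240) (l 16776232)) (l 16776224)) (c (a (c (a (l 342691413431) (l 249275875975)) (l 323900931511)) (c (l 16776616) (l 16776616))) (a (b (l 249812746855) (l 346449509735)) (l 16776608)))) (c (b (l 16775208) (l 16775832)) (b (l 16775224) (l 16775840)))) (a (a (l 3) (b (c (c (a (l 354502573431) (l 315310997079)) (l 331417124279)) (b (l 313700384311) (l 358260669719))) (l 3))) (b (c (c (l 16776440) (l 16776440)) (l 254644585847)) (c (a (c (a (l 367387475255) (l 324437802615)) (l 338396446055)) (c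 (l 16776776) (l 16776776))) (a (b (l 322290320247) (l 372756184247)) (l 255181456295))))))) (a (l 3) (b (a (l 3) (a (l 3) (b (c (c (b (l 329806511751) (l 388325440727)) (l 346449509623)) (a (l 382419860583) (a (l 345912638967) (l 324437802679)))) (l 3)))) (l 3))))), by decide +kernel⟩

def k12_pp_123_s : ∃ t, chk3 f_pp_123_s t 37 9 1 = true :=
  ⟨(b (b (a (l 16757960) (l 16748584)) (a (b (l 16763296) (l 16767480)) (l 16757552))) (b (a (a (b (l 16772840) (l 16774712)) (b (l 16769408) (l 16772536))) (a (l 16766920) (l 16763248))) (a (a (b (b (a (c (l 16775184) (l 16775312)) (l 16775136)) (a (c (b (l 16775528) (l 16776104)) (b (l 16775576) (l 16776136))) (c (l 16775488) (l 16775656)))) (b (a (b (c (c (l 262697649719) (l 16777936)) (a (l 253033972631) (l 16776456))) (c (a (c (l 353428831495) (l 355039444183)) (c (l 257865810775) (l 16777560))) (a (a (l 395841633287) (a (l 358797540807) (l 333564608167))) (b (l 16776832) (l 254644584055))))) (c (b (l 16775920) (l 16777840))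 (a (l 16776360) (l 16776072)))) (a (a (l 3) (b (b (c (c (l 348060122631) (l 349670735335)) (a (l 410874019111) (l 330343382807))) (l 3)) (l 3))) (b (c (a (c (l 258939552375) (l 257328939639)) (l 16776640)) (a (a (b (l 16777008) (l 335712091911)) (l 16776928)) (l 16776688))) (a (a (l 3) (b (c (c (l 340007060167) (l 341617672887)) (l 341080800967)) (l 3))) (c (c (l 255181456727) (l 252497102343)) (a (b (l 16777064) (l 347523251895)) (l 16777640)))))))) (b (l 16774456) (b (a (c (l 16775560) (l 16775752)) (l 16775240)) (a (c (c (l 16776248) (l 16776288)) (l 16776352)) (c (l 16775552) (l 16775752)))))) (b (a (l 16771912) (l 16768448)) (a (a (b (l 16774152) (l 16775136)) (l 16773440)) (l 16771296)))))), by decide +kernel⟩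

def k13_pp_123_s : ∃ t, chk3 f_pp_123_s t 19 4 1 = true :=
  ⟨(b (b (l 16670136) (l 16709720)) (b (a (b (l 16737504) (a (l 16749704) (l 16741304))) (b (l 16720496) (l 16729992))) (a (b (a (l 16757112) (l 16749584)) (a (b (l 16762480) (a (l 16767920) (l 16764088))) (l 16756744))) (b (a (l 16742112) (l 16735192)) (a (l 16749752) (l 16743872)))))), by decide +kernel⟩

def k14_pp_123_s : ∃ t, chk3 f_pp_123_s t 36 10 1 = true :=
  ⟨(l 3), by decide +kernel⟩

def k15_pp_123_s : ∃ t, chk3 f_pp_123_s t 74 20 1 = true :=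
  ⟨(b (a (b (a (l 3) (a (l 3) (a (l 3) (b (b (b (c (c (l 349670735559) (l 351818220423)) (l 350744477335)) (l 3)) (l 3)) (l 3))))) (l 3)) (b (c (c (b (a (b (l 261623908183) (a (l 386714827879) (l 317995351687))) (l 16776288)) (a (l 407652792231) (b (a (l 321216577175) (l 16776736)) (a (l 398525987847) (l 323900931735))))) (b (a (b (l 254107714615) (a (l 388862311463) (l 317458482247))) (l 16776328)) (a (l 402284082967) (b (l 251423359943) (a (l 400673471431) (l 324437804215)))))) (b (a (b (a (a (b (l 16777088) (l 359334411911)) (l 257865810503)) (l 16776752)) (a (b (l 379198635303) (l 3)) (a (b (l 253033972071) (l 371682442823)) (l 256255197639)))) (l 16776408)) (a (b (a (l 3) (l 394767891351)) (l 3)) (b (a (c (l 322827189911) (b (l 255718326663) (a (l 384567344647) (l 315847868231)))) (l 16776800)) (a (l 399062858583) (a (b (a (l 333564608359) (l 16777448)) (l 395304762839)) (a (b (l 16777040) (l 337859575623)) (l 257328939479)))))))) (a (l 3) (a (l 3) (a (l 3) (b (c (c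 (l 411410889415) (l 406042180199)) (l 409263405527)) (l 3))))))) (l 3)), by decide +kernel⟩

def k16_pp_123_s : ∃ t, chk3 f_pp_123_s t 75 40 1 = true :=
  ⟨(a (b (b (a (c (l 16778168) (l 16775768)) (l 16775096)) (a (c (c (l 16776328) (l 16776368)) (b (l 16776256) (l 16777944))) (c (l 16778168) (l 16775784)))) (b (a (b (c (c (a (l 326585286311) (l 16776776)) (l 247665263927)) (a (b (a (a (l 342154542887) (l 250886488407)) (l 16777016)) (a (l 408189664663) (a (l 346986381079) (l 249275875671)))) (l 16776840))) (c (c (a (l 413558373303) (l 328732769959)) (a (l 411410889591) (l 331417124503))) (a (l 411947760375) (b (a (a (l 351281348375) (l 309942288823)) (l 16777032)) (c (l 353965702679) (a (l 3) (b (l 312089772391) (l 357186928375)))))))) (c (c (l 16776360) (l 16776400)) (b (l 16776304) (a (l 16777512) (l 16776496))))) (a (l 3) (a (b (c (c (l 330880253591) (l 333564608151)) (b (a (a (l 359871282935) (a (l 326585286551) (l 250886488343))) (l 16777048)) (a (l 3) (a (a (l 392620408519)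 (l 356113186615)) (b (l 16777144) (l 347523252087)))))) (l 3)) (b (c (c (l 16776808) (l 16776832)) (c (l 16776856) (l 264845132359))) (c (c (l 332490866311) (l 335175220871)) (b (a (a (a (l 396915375799) (l 360408153895)) (b (l 16777152) (l 351818219367))) (l 261087035783)) (a (l 3) (a (a (l 405505310375) (l 364703121175)) (b (l 256792068231) (l 356650057559))))))))))) (b (a (b (l 16773912) (l 16775080)) (l 16773184)) (b (a (c (l 16778168) (l 16775800)) (l 16775080)) (a (c (c (l 16776376) (l 16776432)) (b (l 16776336) (a (c (l 16776864) (b (l 16776808) (l 264845132151))) (l 16776528)))) (c (c (l 16775496) (l 16775608)) (l 16775816)))))), by decide +kernel⟩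

def k17_pp_123_s : ∃ t, chk3 f_pp_123_s t 150 41 1 = true :=
  ⟨(l 3), by decide +kernel⟩

def k18_pp_123_s : ∃ t, chk3 f_pp_123_s t 302 82 1 = true :=
  ⟨(b (a (b (c (c (l 333564608119) (l 336248962679)) (b (a (a (b (l 358260670295) (l 3)) (b (l 255718326407) (l 360408153943))) (l 261087035767)) (c (l 363629379063) (a (l 3) (a (l 378124893879) (b (l 256255197335) (l 364166250311))))))) (l 3)) (b (c (c (l 16776824) (l 16776848)) (c (l 16776880) (b (l 16776824) (a (l 263234519271) (l 16776912))))) (c (c (l 333027737191) (l 336248962647)) (b (c (l 319605964551) (c (a (l 344838897383) (l 16777080)) (a (b (a (l 365776863047) (l 256792068247)) (l 381346119335)) (l 264308261031)))) (c (l 364703120871) (a (l 3) (a (b (l 368461217607) (l 3)) (b (l 255718326423) (l 369534959415))))))))) (l 3)), by decide +kernel⟩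

def k19_pp_123_s : ∃ t, chk3 f_pp_123_s t 303 82 1 = true :=
  ⟨(b (c (c (l 16776392) (l 16776440)) (b (l 16776352) (a (c (l 16776880) (a (a (b (l 16776960) (c (l 16777128) (l 263234519127))) (l 16776960)) (l 16776832))) (l 16776544)))) (a (b (c (c (l 332490866263) (l 335712091735)) (b (c (l 319605964551) (c (a (l 346449510119) (l 16777088)) (a (b (a (l 370608701239) (b (l 16777160) (l 312089772231))) (a (l 3) (l 371682443063))) (a (a (b (l 16777112) (l 312626643143)) (l 16777112)) (l 16777048))))) (c (l 365239991783) (a (l 3) (c (l 346449510119) (b (a (b (l 360408153991) (l 3)) (a (a (l 324437802967) (l 299741741175)) (l 16777160))) (a (l 3) (b (l 361481895799) (l 3))))))))) (l 3)) (c (c (b (l 16776832) (l 331417124439)) (l 313163514631)) (b (a (a (b (l 16776952) (a (b (l 16777112) (b (l 16777184) (l 341617672135))) (l 271287582935))) (l 16776952)) (l 16776816)) (b (c (l 319069093655) (b (a (a (a (l 3) (a (l 389936054119) (l 353428832167))) (a (b (l 16777184) (l 342154543047))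 (l 16777160))) (l 16777056)) (a (a (l 3) (a (l 3) (b (l 342154543047) (l 3)))) (a (a (b (l 16777184) (l 342691413959)) (l 16777160)) (l 16777096))))) (c (l 364703120871) (a (l 3) (c (l 346449510119) (b (a (a (l 3) (b (l 342691413959) (l 3))) (a (b (l 16777184) (l 342691413959)) (l 16777160))) (a (l 3) (b (c (l 362555637623) (a (l 3) (l 342154543047))) (l 3)))))))))))), by decide +kernel⟩

def k20_pp_123_s : ∃ t, chk3 f_pp_123_s t 151 83 1 = true :=
  ⟨(l 3), by decide +kernel⟩

def k21_pp_123_s : ∃ t, chk3 f_pp_123_s t 37 21 1 = true :=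
  ⟨(l 3), by decide +kernel⟩

def k22_pp_123_s : ∃ t, chk3 f_pp_123_s t 18 11 1 = true :=
  ⟨(l 3), by decide +kernel⟩

def k23_pp_123_s : ∃ t, chk3 f_pp_123_s t 76 40 1 = true :=
  ⟨(b (a (l 16770952) (l 16767592)) (a (a (b (l 16773816) (c (l 16775224) (l 16774888))) (l 16773072)) (l 16770776))), by decide +kernel⟩

def k24_pp_123_s : ∃ t, chk3 f_pp_123_s t 152 41 1 = true :=
  ⟨(a (b (b (c (l 16775536) (l 16775816)) (c (c (l 16776384) (l 16776440)) (a (b (l 16776544) (c (l 16776888) (b (l 16776832) (b (l 16776960) (a (a (a (b (l 16777184) (a (l 379198635959) (l 325511544887))) (l 272898195559)) (l 16777096)) (l 16776960)))))) (l 16776368)))) (b (a (b (c (c (l 329269640807) (l 330343382615)) (c (a (l 358260669943) (l 310479159063)) (a (b (c (l 341080800999) (a (a (l 3) (a (l 391546666711) (b (b (l 324437802743) (l 3)) (l 3)))) (a (b (b (l 16777184) (l 333027737543)) (l 3)) (b (l 16777160) (b (l 332490866631) (l 3)))))) (l 3)) (b (a (a (b (l 16777120) (b (l 16777184) (l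 331953995719))) (l 16777120)) (l 16777048)) (c (l 336248962791) (a (b (l 362555637559) (l 3)) (b (l 290078064807) (l 361481895735)))))))) (l 3)) (c (c (l 306184192759) (l 307257933287)) (b (c (l 16776888) (a (b (l 16776912) (c (l 16777088) (l 271824453799))) (l 16776824))) (c (l 324974673495) (a (b (a (l 372756184759) (b (l 289004322983) (l 358797541191))) (l 3)) (b (l 270213841143) (a (l 370071830199) (a (l 329806511975) (l 304036708263))))))))) (l 3))) (b (b (c (l 16775184) (l 16774888)) (c (l 16775512) (l 16775808))) (c (c (b (l 16776368) (a (l 342691413191) (l 298131129383))) (b (l 16776424) (a (l 343765154983) (l 299204871399)))) (b (a (b (l 16776536) (c (l 16776880) (l 260013294183))) (l 16776352)) (a (b (c (l 322290318967) (a (a (l 377588022695) (b (l 313163513751) (l 3))) (b (l 16777408) (c (l 328732770055) (l 327122157319))))) (l 3)) (b (l 258402681815) (c (l 319069093527) (a (b (l 324974673671) (l 3)) (b (l 16777072) (l 321753448215)))))))))), by decide +kernel⟩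

def k25_pp_123_s : ∃ t, chk3 f_pp_123_s t 153 41 1 = true :=
  ⟨(b (a (b (l 16773776) (c (l 16775104) (l 16774888))) (l 16773032)) (a (b (c (l 16775464) (l 16775776)) (c (c (l 16776328) (l 16776392)) (a (l 254644586087) (l 16776320)))) (b (c (l 16774992) (l 16774904)) (c (l 16775392) (l 16775712))))), by decide +kernel⟩

def k26_pp_123_s : ∃ t, chk3 f_pp_123_s t 77 20 1 = true :=
  ⟨(b (b (l 16762200) (l 16776216)) (a (b (l 16770768) (a (b (l 16773840) (l 16775032)) (l 16773168))) (b (l 16767472) (l 16770928)))), by decide +kernel⟩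

def k27_pp_123_s : ∃ t, chk3 f_pp_123_s t 38 21 1 = true :=
  ⟨(a (b (a (l 3) (b (a (b (c (a (c (l 337859575015) (l 337859574983)) (c (l 292225549479) (l 293836162071))) (a (b (c (l 315310997175) (a (l 338396446247) (l 293299289879))) (l 3)) (b (l 16776864) (a (l 333564608071) (l 287393710967))))) (l 3)) (b (c (c (l 16776272) (l 16776336)) (l 16778424)) (c (a (c (l 330880253191) (l 330880253175)) (c (l 284172486215) (l 285783098663))) (a (b (c (l 307257933511) (l 302962966231)) (l 406042180567)) (b (l 16776816) (l 299741740759)))))) (a (l 3) (b (c (a (l 3) (l 398525987511)) (l 402820954039)) (l 3))))) (l 3)) (b (a (b (a (b (c (l 16775224) (l 16775552)) (c (c (l 16776144) (l 16776216)) (l 16776344))) (b (l 16774744) (c (l 16774936) (l 16775272)))) (a (b (c (c (l 304036707655) (l 302962965847)) (a (b (l 294909902535) (l 396378504295)) (l 270213842647))) (c (a (l 3) (l 389936053127)) (l 399599728791))) (b (c (l 16775984) (l 16776160)) (c (c (l 298131127495) (l 290614937543))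 (a (l 307794804167) (l 259476424631)))))) (b (a (b (l 16774024) (l 16774464)) (l 16773304)) (a (b (l 16774848) (c (l 16775792) (l 16775984))) (b (l 16774256) (l 16774648))))) (a (b (a (l 3) (b (c (a (l 3) (l 357186927719)) (l 388325439959)) (l 3))) (l 3)) (b (a (b (c (c (l 280414391079) (l 279877519975)) (l 283635612839)) (c (a (l 3) (l 341617671447)) (l 377051151079))) (c (c (l 242296558407) (l 260013298295)) (a (l 260013297511) (l 16776040)))) (a (l 3) (c (c (l 349133863559) (l 346986379799)) (l 376514279799))))))), by decide +kernel⟩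

def k28_pp_123_s : ∃ t, chk3 f_pp_123_s t 39 10 1 = true :=
  ⟨(b (b (a (l 16757200) (l 16751040)) (a (a (l 16765952) (l 16762784)) (l 16757992))) (a (b (a (b (l 16770968) (a (l 16774360) (l 16773048))) (l 16769040)) (a (b (a (b (l 16774488) (l 16778152)) (b (l 16774048) (l 16774384))) (a (b (c (l 261623910295) (l 254644587879)) (c (a (l 397452246263) (l 305647322471)) (l 316384738455))) (c (b (l 16775240) (l 251960233911)) (l 16778624)))) (b (a (l 16774008) (l 16772456)) (a (c (l 16779832) (l 16775024)) (b (l 16774144) (l 16774360)))))) (b (a (l 16765616) (l 16762360)) (a (b (l 16769856) (a (l 16773320) (l 16771608))) (l 16767472))))), by decide +kernel⟩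

def k29_pp_123_s : ∃ t, chk3 f_pp_123_s t 19 11 1 = true :=
  ⟨(a (l 3) (b (a (b (a (b (a (l 3) (b (c (l 312626644807) (l 303499836695)) (l 3))) (l 3)) (c (b (a (b (l 16776192) (l 290078068023)) (l 16775504)) (a (l 393694149831) (b (l 275582554151) (l 373829926615)))) (b (a (l 263234524487) (l 16775792)) (a (l 398525987767) (l 298131127591))))) (l 3)) (b (a (a (b (b (l 16774456) (l 16775112)) (c (b (l 16775864) (l 262697653143)) (l 16780432))) (b (l 16773928) (l 16780824))) (b (a (l 16772320) (l 16770456)) (b (l 16773152) (l 16784632)))) (a (b (a (b (l 356113189159) (l 3)) (b (l 247665267991) (l 291151810391))) (l 3)) (b (a (b (l 16775656) (l 16776464)) (l 16774944)) (a (b (l 272361329543) (l 381346119047)) (c (l 254644590503) (l 16776544))))))) (a (l 3) (b (a (l 3) (b (a (l 3) (b (l 352891964967) (l 3))) (l 3))) (l 3))))), by decide +kernel⟩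

def k30_pp_123_s : ∃ t, chk3 f_pp_123_s t 5 4 1 = true :=
  ⟨(a (b (a (a (l 16650816) (c (l 16638200) (l 16650824))) (a (l 16607872) (l 16592640))) (b (a (a (b (l 16705712) (l 16718072)) (l 16768808)) (l 16683120)) (a (a (a (l 16733528) (l 16727824)) (a (l 16723792) (a (l 16721928) (a (l 16722248) (l 16618864))))) (l 16711976)))) (b (l 6) (a (l 16687256) (l 16686320)))), by decide +kernel⟩

def k31_pp_123_s : ∃ t, chk3 f_pp_123_s t 5 5 1 = true :=
  ⟨(a (a (a (b (b (a (b (l 16745896) (l 16752312)) (b (l 16740520) (l 16747072))) (a (b (l 16757464) (a (l 16763680) (l 16760424))) (b (l 16751688) (l 16755640)))) (b (a (b (a (l 16769032) (l 16765168)) (a (a (b (l 16773704) (l 16775544)) (b (l 16772248) (l 16774472))) (b (l 16769680) (a (l 16773296) (l 16771784))))) (b (a (l 16730304) (l 16759048)) (a (l 16767584) (l 16764720)))) (a (b (a (b (a (c (l 284709363335) (l 16782320)) (l 240685949607)) (a (l 3) (b (l 280414395703) (l 358260674295)))) (b (a (l 16775152) (l 16774152))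 (a (l 244980919959) (l 16775688)))) (a (l 3) (a (b (l 322290329047) (l 3)) (b (b (l 16776616) (l 284709367879)) (l 362018764231))))) (b (a (b (a (l 16772744) (l 16771144)) (a (l 16774784) (l 16773736))) (l 16770584)) (a (b (a (l 16776088) (l 16775296)) (a (l 277730044503) (l 16776280))) (a (b (l 16774448) (l 16775472)) (b (l 16773408) (l 16774624)))))))) (b (a (b (b (l 16735336) (l 16742304)) (b (l 16747032) (l 16750856))) (b (a (l 16735152) (a (l 16734632) (l 16693496))) (a (b (l 16744312) (l 16748592)) (b (a (l 16742904) (l 16742952)) (a (l 16748272) (l 16748280)))))) (a (b (b (l 16755696) (a (l 16762808) (l 16761096))) (b (a (l 16768672) (l 16767328)) (a (b (l 16771888) (l 16773168)) (l 16770928)))) (b (a (l 16756888) (a (l 16756440) (b (l 16753960) (l 16759872)))) (a (b (l 16765984) (l 16769424)) (a (l 16798344) (b (l 16764952) (l 16767496)))))))) (b (b (l 16727032) (l 16759536)) (b (a (l 16753712) (l 16747728)) (a (l 16762616) (l 16756040))))) (b (b (a (l 16590936)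 (l 16711568)) (a (l 16728608) (l 16721472))) (a (b (l 16740440) (l 16746304)) (b (l 16729168) (l 16734144))))), by decide +kernel⟩

def k32_pp_123_s : ∃ t, chk3 f_pp_123_s t 3 2 1 = true :=
  ⟨(a (b (l 6) (a (b (b (l 6) (l 16710488)) (b (l 16716296) (l 16803840))) (l 6))) (l 6)), by decide +kernel⟩

def k33_pp_123_s : ∃ t, chk3 f_pp_123_s t 4 6 1 = true :=
  ⟨(l 3), by decide +kernel⟩

def k34_pp_123_s : ∃ t, chk3 f_pp_123_s t 40 6 1 = true :=
  ⟨(b (a (l 3) (b (b (a (b (a (l 372756182007) (l 275045688727)) (l 3)) (b (a (l 16776400) (l 16775536)) (a (l 298668008119) (l 16776464)))) (a (l 3) (a (l 3) (b (l 293299298615) (l 3))))) (l 3))) (l 3)), by decide +kernel⟩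

def k35_pp_123_s : ∃ t, chk3 f_pp_123_s t 41 6 1 = true :=
  ⟨(b (a (b (a (b (a (b (l 16774680) (l 16775552)) (b (l 16773752) (l 16774664))) (a (b (l 16776480) (l 284709366167)) (a (l 249812760007) (l 16775752)))) (b (a (l 16794168) (l 16772320)) (a (b (l 16774584) (l 16775472)) (b (l 16773600) (l 16774472))))) (a (b (a (l 3) (b (l 288467462119) (l 3))) (l 3)) (b (a (a (l 219747990391) (l 16787048)) (b (l 16775368) (l 16776232))) (a (b (l 313163521703) (l 3)) (b (l 16777040) (l 16787312)))))) (b (a (b (l 16789336) (a (l 16773056) (l 16772112))) (b (a (l 16769672) (l 16789720)) (a (l 16792088) (c (b (l 16770008) (l 16770760)) (l 16790896))))) (a (b (a (b (l 16774336) (l 16775176)) (b (l 16773344) (l 16774136))) (a (a (l 16789752) (l 16786592)) (a (l 16775552) (l 16775000)))) (b (a (l 16793704) (c (b (l 16771528) (l 16772248)) (l 16792528))) (a (a (l 16774480) (l 16773968)) (c (l 16773280) (l 16773072))))))) (a (l 3) (b (a (b (a (b (l 16787600) (l 3)) (a (l 16787416) (l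 16776336))) (a (l 3) (a (l 3) (l 267529509143)))) (b (a (a (l 16796672) (a (l 16775280) (l 16775072))) (c (l 16795488) (l 16795400))) (a (a (c (l 16787208) (l 16776832)) (a (l 16786712) (l 16786400))) (a (a (a (l 16775784) (a (l 16775856) (l 16775880))) (l 16775712)) (l 16775232))))) (a (l 3) (a (a (b (c (l 422685202231) (l 16787032)) (l 3)) (a (b (l 417853366023) (l 3)) (b (b (l 16776656) (l 16777160)) (l 726554130743)))) (a (a (a (b (l 16787048) (l 16777144)) (a (b (l 16786976) (l 16777128)) (b (l 16786984) (l 16777056)))) (b (l 16776416) (l 16776840))) (b (l 16775928) (l 16776312)))))))), by decide +kernel⟩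

def k36_pp_123_s : ∃ t, chk3 f_pp_123_s t 21 6 1 = true :=
  ⟨(b (b (a (b (l 16764456) (l 16765528)) (l 16756768)) (a (b (l 16766664) (l 16767888)) (l 16780800))) (b (a (b (l 16769024) (b (l 16769840) (l 16770192))) (b (l 16760072) (l 16760760))) (b (a (b (l 16770408) (l 16770464)) (l 16760504)) (a (a (l 16773160) (l 16767576)) (l 16759360))))), by decide +kernel⟩

def k37_pp_123_s : ∃ t, chk3 f_pp_123_s t 11 6 1 = true :=
  ⟨(b (a (b (l 16746000) (a (l 16750496) (l 16764616))) (b (l 16734056) (l 16735120))) (a (b (b (l 16748224) (l 16748320)) (b (l 16746376) (a (l 16748592) (l 16738192)))) (b (l 16734152) (b (l 16728824) (l 16722240))))), by decide +kernel⟩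

def k38_pp_123_s : ∃ t, chk3 f_pp_123_s t 3 6 1 = true :=
  ⟨(a (b (a (b (a (l 16724384) (l 16716624)) (a (l 16725912) (l 16716760))) (b (l 16708080) (l 16701688))) (a (b (a (l 16805312) (l 16706288)) (a (b (l 16710752) (l 16699536)) (l 16682944))) (b (l 16682272) (l 1)))) (l 6)), by decide +kernel⟩

def k39_pp_123_s : ∃ t, chk3 f_pp_123_s t 1 7 1 = true :=
  ⟨(a (a (b (l 3) (l 3)) (a (b (a (a (l 3) (a (l 3) (b (a (l 3) (b (a (l 3) (a (a (a (l 16777048) (a (l 16777184) (l 16777144))) (l 16776896)) (l 16776312))) (a (a (l 3) (a (a (l 3) (l 16782216)) (a (l 16782368) (l 16782400)))) (a (a (a (l 16782224) (a (l 16787304) (l 16776656))) (l 16776368)) (l 16775720))))) (b (b (a (l 3) (a (a (l 16784776) (a (l 16777008) (l 16776632))) (a (a (a (l 16776280) (a (l 16776032) (l 16775784))) (l 16775456)) (l 16774752)))) (a (a (l 3) (c (l 271824473463) (l 286319988023))) (a (a (l 16782144) (a (l 16776248) (l 16775744))) (a (a (a (l 16775264) (a (l 16774920) (l 16774584))) (l 16774192))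 (l 16773424))))) (b (a (a (l 3) (a (l 16781824) (l 16776736))) (a (a (l 16775616) (a (l 16774792) (l 16774112))) (a (a (a (l 16773424) (l 16772680)) (l 16772120)) (l 16771296)))) (l 1)))))) (b (a (b (a (l 16783328) (l 16766688)) (b (l 16768880) (l 16778504))) (b (b (l 16758104) (l 16757088)) (l 16754624))) (b (a (b (l 16777096) (l 16764600)) (b (l 16751008) (l 16747344))) (a (b (l 16782496) (l 1)) (l 1))))) (a (a (b (l 3) (l 1)) (l 1)) (l 1))) (b (b (a (b (l 16739344) (a (l 16740424) (l 16725208))) (l 93449020471)) (l 1)) (l 1)))) (l 1)), by decide +kernel⟩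

theorem s40_pp_123_s : ∃ t, chk3 f_pp_123_s t 20 6 1 = true := ex3_a k34_pp_123_s k35_pp_123_s

theorem s41_pp_123_s : ∃ t, chk3 f_pp_123_s t 10 6 1 = true := ex3_a s40_pp_123_s k36_pp_123_s

theorem s42_pp_123_s : ∃ t, chk3 f_pp_123_s t 5 6 1 = true := ex3_a s41_pp_123_s k37_pp_123_s

theorem s43_pp_123_s : ∃ t, chk3 f_pp_123_s t 2 6 1 = true := ex3_a k33_pp_123_s s42_pp_123_s

theorem s44_pp_123_s : ∃ t, chk3 f_pp_123_s t 1 6 1 = true := ex3_a s43_pp_123_s k38_pp_123_s

theorem s45_pp_123_s : ∃ t, chk3 f_pp_123_s t 1 3 1 = true := ex3_b s44_pp_123_s k39_pp_123_s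

theorem s46_pp_123_s : ∃ t, chk3 f_pp_123_s t 5 2 1 = true := ex3_b k30_pp_123_s k31_pp_123_s

theorem s47_pp_123_s : ∃ t, chk3 f_pp_123_s t 76 41 1 = true := ex3_a k24_pp_123_s k25_pp_123_s

theorem s48_pp_123_s : ∃ t, chk3 f_pp_123_s t 76 20 1 = true := ex3_b k23_pp_123_s s47_pp_123_s

theorem s49_pp_123_s : ∃ t, chk3 f_pp_123_s t 38 20 1 = true := ex3_a s48_pp_123_s k26_pp_123_s

theorem s50_pp_123_s : ∃ t, chk3 f_pp_123_s t 38 10 1 = true := ex3_b s49_pp_123_s k27_pp_123_s

theorem s51_pp_123_s : ∃ t, chk3 f_pp_123_s t 19 10 1 = true := ex3_a s50_pp_123_s k28_pp_123_s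

theorem s52_pp_123_s : ∃ t, chk3 f_pp_123_s t 19 5 1 = true := ex3_b s51_pp_123_s k29_pp_123_s

theorem s53_pp_123_s : ∃ t, chk3 f_pp_123_s t 151 82 1 = true := ex3_a k18_pp_123_s k19_pp_123_s

theorem s54_pp_123_s : ∃ t, chk3 f_pp_123_s t 151 41 1 = true := ex3_b s53_pp_123_s k20_pp_123_s

theorem s55_pp_123_s : ∃ t, chk3 f_pp_123_s t 75 41 1 = true := ex3_a k17_pp_123_s s54_pp_123_s

theorem s56_pp_123_s : ∃ t, chk3 f_pp_123_s t 75 20 1 = true := ex3_b k16_pp_123_s s55_pp_123_s

theorem s57_pp_123_s : ∃ t, chk3 f_pp_123_s t 37 20 1 = true := ex3_a k15_pp_123_s s56_pp_123_s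

theorem s58_pp_123_s : ∃ t, chk3 f_pp_123_s t 37 10 1 = true := ex3_b s57_pp_123_s k21_pp_123_s

theorem s59_pp_123_s : ∃ t, chk3 f_pp_123_s t 18 10 1 = true := ex3_a k14_pp_123_s s58_pp_123_s

theorem s60_pp_123_s : ∃ t, chk3 f_pp_123_s t 18 5 1 = true := ex3_b s59_pp_123_s k22_pp_123_s

theorem s61_pp_123_s : ∃ t, chk3 f_pp_123_s t 9 5 1 = true := ex3_a s60_pp_123_s s52_pp_123_s

theorem s62_pp_123_s : ∃ t, chk3 f_pp_123_s t 36 38 1 = true := ex3_a k9_pp_123_s k10_pp_123_s

theorem s63_pp_123_s : ∃ t, chk3 f_pp_123_s t 36 19 1 = true := ex3_b s62_pp_123_s k11_pp_123_s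

theorem s64_pp_123_s : ∃ t, chk3 f_pp_123_s t 36 9 1 = true := ex3_b k8_pp_123_s s63_pp_123_s

theorem s65_pp_123_s : ∃ t, chk3 f_pp_123_s t 18 9 1 = true := ex3_a s64_pp_123_s k12_pp_123_s

theorem s66_pp_123_s : ∃ t, chk3 f_pp_123_s t 18 4 1 = true := ex3_b k7_pp_123_s s65_pp_123_s

theorem s67_pp_123_s : ∃ t, chk3 f_pp_123_s t 9 4 1 = true := ex3_a s66_pp_123_s k13_pp_123_s

theorem s68_pp_123_s : ∃ t, chk3 f_pp_123_s t 9 2 1 = true := ex3_b s67_pp_123_s s61_pp_123_s

theorem s69_pp_123_s : ∃ t, chk3 f_pp_123_s t 35 18 1 = true := ex3_b k3_pp_123_s k4_pp_123_s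

theorem s70_pp_123_s : ∃ t, chk3 f_pp_123_s t 17 18 1 = true := ex3_a k2_pp_123_s s69_pp_123_s

theorem s71_pp_123_s : ∃ t, chk3 f_pp_123_s t 17 9 1 = true := ex3_b s70_pp_123_s k5_pp_123_s

theorem s72_pp_123_s : ∃ t, chk3 f_pp_123_s t 8 9 1 = true := ex3_a k1_pp_123_s s71_pp_123_s

theorem s73_pp_123_s : ∃ t, chk3 f_pp_123_s t 8 4 1 = true := ex3_b k0_pp_123_s s72_pp_123_s

theorem s74_pp_123_s : ∃ t, chk3 f_pp_123_s t 8 2 1 = true := ex3_b s73_pp_123_s k6_pp_123_s

theorem s75_pp_123_s : ∃ t, chk3 f_pp_123_s t 4 2 1 = true := ex3_a s74_pp_123_s s68_pp_123_s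

theorem s76_pp_123_s : ∃ t, chk3 f_pp_123_s t 2 2 1 = true := ex3_a s75_pp_123_s s46_pp_123_s

theorem s77_pp_123_s : ∃ t, chk3 f_pp_123_s t 1 2 1 = true := ex3_a s76_pp_123_s k32_pp_123_s

theorem s78_pp_123_s : ∃ t, chk3 f_pp_123_s t 1 1 1 = true := ex3_b s77_pp_123_s s45_pp_123_s

theorem c_pp_123_s : CertNE 536870912 536870912 0 1230186008 697932185 42949674 3 eng mog cd0q1 cd7q3 pd2 false true true .npn 1 2 3
    ndB0q1 ndB7q3 pcB2 cut_pp_123_s Ext.none :=
  certNE2 (fam := false) (s1 := true) (s2 := true) (a := 1) (b := 2) (c := 3) (cn := .npn) (n1 := ndB0q1) (n2 := ndB7q3) (pc := pcB2) (cut := cut_pp_123_s) (xt := Ext.none) (P1 := 536870912) (W1 := 536870912) (P2 := 0) (W2 := 1230186008) (P3 := 697932185) (W3 := 42949674) (N0 := 3) (En := eng) (mo := mog) (C1 := cd0q1) (C2 := cd7q3) (C3 := pd2)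
    rfl (fun _ => rfl) s78_pp_123_s

noncomputable def cut_pp_133_s : Cut := Cut.of [[⟨4, 0, 0, 1449551462⟩]]

noncomputable def f_pp_133_s : ℕ → ℕ → ℕ → ℕ → Bool := onCell 1610612736 536870912 0 1230186008 697932185 42949674
    (rowNE 3 eng mog cd0q1 cd7q3 pd3 2 false true true .dn 1 3 3 (qsf 536870912 536870912 0 1230186008 3) ndB0q1 ndB7q3 pcB3 cut_pp_133_s Ext.none)

def k0_pp_133_s : ∃ t, chk3 f_pp_133_s t 1 1 1 = true :=
  ⟨(b (l 6) (l 1)), by decide +kernel⟩

theorem c_pp_133_s : CertNE 536870912 536870912 0 1230186008 697932185 42949674 3 eng mog cd0q1 cd7q3 pd3 false true true .dn 1 3 3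
    ndB0q1 ndB7q3 pcB3 cut_pp_133_s Ext.none :=
  certNE2 (fam := false) (s1 := true) (s2 := true) (a := 1) (b := 3) (c := 3) (cn := .dn) (n1 := ndB0q1) (n2 := ndB7q3) (pc := pcB3) (cut := cut_pp_133_s) (xt := Ext.none) (P1 := 536870912) (W1 := 536870912) (P2 := 0) (W2 := 1230186008) (P3 := 697932185) (W3 := 42949674) (N0 := 3) (En := eng) (mo := mog) (C1 := cd0q1) (C2 := cd7q3) (C3 := pd3)
    rfl (fun _ => rfl) k0_pp_133_s

noncomputable def cut_pp_202_s : Cut := Cut.of [[⟨4, 0, 0, 1449551462⟩]]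

noncomputable def f_pp_202_s : ℕ → ℕ → ℕ → ℕ → Bool := onCell 0 536870912 1073741824 536870912 697932185 42949674
    (rowNE 3 eng mog cd0q2 cd7q2 pd0 0 false true true .pp 2 0 2 (qsf 0 536870912 1073741824 536870912 0) ndB0q2 ndB7q2 pcB0 cut_pp_202_s Ext.none)

def k0_pp_202_s : ∃ t, chk3 f_pp_202_s t 1 1 1 = true :=
  ⟨(l 5), by decide +kernel⟩

theorem c_pp_202_s : CertNE 0 536870912 1073741824 536870912 697932185 42949674 3 eng mog cd0q2 cd7q2 pd0 false true true .pp 2 0 2
    ndB0q2 ndB7q2 pcB0 cut_pp_202_s Ext.none :=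
  certNE0 (fam := false) (s1 := true) (s2 := true) (a := 2) (b := 0) (c := 2) (cn := .pp) (n1 := ndB0q2) (n2 := ndB7q2) (pc := pcB0) (cut := cut_pp_202_s) (xt := Ext.none) (P1 := 0) (W1 := 536870912) (P2 := 1073741824) (W2 := 536870912) (P3 := 697932185) (W3 := 42949674) (N0 := 3) (En := eng) (mo := mog) (C1 := cd0q2) (C2 := cd7q2) (C3 := pd0)
    rfl k0_pp_202_s

noncomputable def cut_pp_203_s : Cut := Cut.of [[⟨4, 0, 0, 1449551462⟩]]

noncomputable def f_pp_203_s : ℕ → ℕ → ℕ → ℕ → Bool := onCell 0 536870912 0 1230186008 697932185 42949674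
    (rowNE 3 eng mog cd0q2 cd7q3 pd0 0 false true true .up 2 0 3 (qsf 0 536870912 0 1230186008 0) ndB0q2 ndB7q3 pcB0 cut_pp_203_s Ext.none)

def k0_pp_203_s : ∃ t, chk3 f_pp_203_s t 1 1 1 = true :=
  ⟨(b (l 2) (b (l 2) (a (l 5) (l 3)))), by decide +kernel⟩

theorem c_pp_203_s : CertNE 0 536870912 0 1230186008 697932185 42949674 3 eng mog cd0q2 cd7q3 pd0 false true true .up 2 0 3
    ndB0q2 ndB7q3 pcB0 cut_pp_203_s Ext.none :=
  certNE0 (fam := false) (s1 := true) (s2 := true) (a := 2) (b := 0) (c := 3) (cn := .up) (n1 := ndB0q2) (n2 := ndB7q3) (pc := pcB0) (cut := cut_pp_203_s) (xt := Ext.none) (P1 := 0) (W1 := 536870912) (P2 := 0) (W2 := 1230186008) (P3 := 697932185) (W3 := 42949674) (N0 := 3) (En := eng) (mo := mog) (C1 := cd0q2) (C2 := cd7q3) (C3 := pd0)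
    rfl k0_pp_203_s

noncomputable def cut_pp_213_s : Cut := Cut.of [[⟨4, 0, 0, 1449551462⟩], [⟨0, 1, 0, 67108864⟩, ⟨1, 1, 0, 67108864⟩, ⟨2, 2, 0, 16777216⟩]]

noncomputable def f_pp_213_s : ℕ → ℕ → ℕ → ℕ → Bool := onCell 0 536870912 0 1230186008 697932185 42949674
    (rowNE 3 eng mog cd0q2 cd7q3 pd1 0 false true true .pnn 2 1 3 (qsf 0 536870912 0 1230186008 1) ndB0q2 ndB7q3 pcB1 cut_pp_213_s Ext.none)

def k0_pp_213_s : ∃ t, chk3 f_pp_213_s t 1 1 1 = true :=
  ⟨(a (b (l 3) (l 5)) (b (b (a (l 3) (b (a (l 3) (l 14)) (l 3))) (l 3)) (b (l 3) (l 3)))), by decide +kernel⟩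

theorem c_pp_213_s : CertNE 0 536870912 0 1230186008 697932185 42949674 3 eng mog cd0q2 cd7q3 pd1 false true true .pnn 2 1 3
    ndB0q2 ndB7q3 pcB1 cut_pp_213_s Ext.none :=
  certNE0 (fam := false) (s1 := true) (s2 := true) (a := 2) (b := 1) (c := 3) (cn := .pnn) (n1 := ndB0q2) (n2 := ndB7q3) (pc := pcB1) (cut := cut_pp_213_s) (xt := Ext.none) (P1 := 0) (W1 := 536870912) (P2 := 0) (W2 := 1230186008) (P3 := 697932185) (W3 := 42949674) (N0 := 3) (En := eng) (mo := mog) (C1 := cd0q2) (C2 := cd7q3) (C3 := pd1)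
    rfl k0_pp_213_s

noncomputable def cut_pm_001_s : Cut := Cut.of [[⟨4, 0, 0, 1449551462⟩]]

noncomputable def f_pm_001_s : ℕ → ℕ → ℕ → ℕ → Bool := onCell 0 536870912 536870912 536870912 697932185 42949674
    (rowNE 3 eng mog cd0q0 cd7q1 pd0 0 false true false .up 0 0 1 (qsf 0 536870912 536870912 536870912 0) ndB0q0 ndB7q1 pcB0 cut_pm_001_s Ext.none)

def k0_pm_001_s : ∃ t, chk3 f_pm_001_s t 1 1 1 = true :=
  ⟨(l 4), by decide +kernel⟩

theorem c_pm_001_s : CertNE 0 536870912 536870912 536870912 697932185 42949674 3 eng mog cd0q0 cd7q1 pd0 false true false .up 0 0 1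
    ndB0q0 ndB7q1 pcB0 cut_pm_001_s Ext.none :=
  certNE0 (fam := false) (s1 := true) (s2 := false) (a := 0) (b := 0) (c := 1) (cn := .up) (n1 := ndB0q0) (n2 := ndB7q1) (pc := pcB0) (cut := cut_pm_001_s) (xt := Ext.none) (P1 := 0) (W1 := 536870912) (P2 := 536870912) (W2 := 536870912) (P3 := 697932185) (W3 := 42949674) (N0 := 3) (En := eng) (mo := mog) (C1 := cd0q0) (C2 := cd7q1) (C3 := pd0)
    rfl k0_pm_001_s

noncomputable def cut_pm_011_s : Cut := Cut.of [[⟨4, 0, 0, 1449551462⟩]]

noncomputable def f_pm_011_s : ℕ → ℕ → ℕ → ℕ → Bool := onCell 0 536870912 536870912 536870912 697932185 42949674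
    (rowNE 3 eng mog cd0q0 cd7q1 pd1 0 false true false .pnn 0 1 1 (qsf 0 536870912 536870912 536870912 1) ndB0q0 ndB7q1 pcB1 cut_pm_011_s Ext.none)

def k0_pm_011_s : ∃ t, chk3 f_pm_011_s t 1 1 1 = true :=
  ⟨(l 4), by decide +kernel⟩

theorem c_pm_011_s : CertNE 0 536870912 536870912 536870912 697932185 42949674 3 eng mog cd0q0 cd7q1 pd1 false true false .pnn 0 1 1
    ndB0q0 ndB7q1 pcB1 cut_pm_011_s Ext.none :=
  certNE0 (fam := false) (s1 := true) (s2 := false) (a := 0) (b := 1) (c := 1) (cn := .pnn) (n1 := ndB0q0) (n2 := ndB7q1) (pc := pcB1) (cut := cut_pm_011_s) (xt := Ext.none) (P1 := 0) (W1 := 536870912) (P2 := 536870912) (W2 := 536870912) (P3 := 697932185) (W3 := 42949674) (N0 := 3) (En := eng) (mo := mog) (C1 := cd0q0) (C2 := cd7q1) (C3 := pd1)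
    rfl k0_pm_011_s

noncomputable def cut_pm_012_s : Cut := Cut.of [[⟨4, 0, 0, 1449551462⟩]]

noncomputable def f_pm_012_s : ℕ → ℕ → ℕ → ℕ → Bool := onCell 0 536870912 1073741824 536870912 697932185 42949674
    (rowNE 3 eng mog cd0q0 cd7q2 pd1 0 false true false .pnp 0 1 2 (qsf 0 536870912 1073741824 536870912 1) ndB0q0 ndB7q2 pcB1 cut_pm_012_s Ext.none)

def k0_pm_012_s : ∃ t, chk3 f_pm_012_s t 1 1 1 = true :=
  ⟨(l 4), by decide +kernel⟩

theorem c_pm_012_s : CertNE 0 536870912 1073741824 536870912 697932185 42949674 3 eng mog cd0q0 cd7q2 pd1 false true false .pnp 0 1 2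
    ndB0q0 ndB7q2 pcB1 cut_pm_012_s Ext.none :=
  certNE0 (fam := false) (s1 := true) (s2 := false) (a := 0) (b := 1) (c := 2) (cn := .pnp) (n1 := ndB0q0) (n2 := ndB7q2) (pc := pcB1) (cut := cut_pm_012_s) (xt := Ext.none) (P1 := 0) (W1 := 536870912) (P2 := 1073741824) (W2 := 536870912) (P3 := 697932185) (W3 := 42949674) (N0 := 3) (En := eng) (mo := mog) (C1 := cd0q0) (C2 := cd7q2) (C3 := pd1)
    rfl k0_pm_012_s

noncomputable def cut_pm_022_s : Cut := Cut.of [[⟨4, 0, 0, 1449551462⟩]]

noncomputable def f_pm_022_s : ℕ → ℕ → ℕ → ℕ → Bool := onCell 0 536870912 1073741824 536870912 697932185 42949674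
    (rowNE 3 eng mog cd0q0 cd7q2 pd2 0 false true false .pp 0 2 2 (qsf 0 536870912 1073741824 536870912 2) ndB0q0 ndB7q2 pcB2 cut_pm_022_s Ext.none)

def k0_pm_022_s : ∃ t, chk3 f_pm_022_s t 1 1 1 = true :=
  ⟨(l 4), by decide +kernel⟩

theorem c_pm_022_s : CertNE 0 536870912 1073741824 536870912 697932185 42949674 3 eng mog cd0q0 cd7q2 pd2 false true false .pp 0 2 2
    ndB0q0 ndB7q2 pcB2 cut_pm_022_s Ext.none :=
  certNE0 (fam := false) (s1 := true) (s2 := false) (a := 0) (b := 2) (c := 2) (cn := .pp) (n1 := ndB0q0) (n2 := ndB7q2) (pc := pcB2) (cut := cut_pm_022_s) (xt := Ext.none) (P1 := 0) (W1 := 536870912) (P2 := 1073741824) (W2 := 536870912) (P3 := 697932185) (W3 := 42949674) (N0 := 3) (En := eng) (mo := mog) (C1 := cd0q0) (C2 := cd7q2) (C3 := pd2)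
    rfl k0_pm_022_s

noncomputable def cut_pm_023_s : Cut := Cut.of [[⟨4, 0, 0, 1449551462⟩]]

noncomputable def f_pm_023_s : ℕ → ℕ → ℕ → ℕ → Bool := onCell 0 536870912 0 1230186008 697932185 42949674
    (rowNE 3 eng mog cd0q0 cd7q3 pd2 0 false true false .up 0 2 3 (qsf 0 536870912 0 1230186008 2) ndB0q0 ndB7q3 pcB2 cut_pm_023_s Ext.none)

def k0_pm_023_s : ∃ t, chk3 f_pm_023_s t 1 1 1 = true :=
  ⟨(l 6), by decide +kernel⟩

theorem c_pm_023_s : CertNE 0 536870912 0 1230186008 697932185 42949674 3 eng mog cd0q0 cd7q3 pd2 false true false .up 0 2 3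
    ndB0q0 ndB7q3 pcB2 cut_pm_023_s Ext.none :=
  certNE0 (fam := false) (s1 := true) (s2 := false) (a := 0) (b := 2) (c := 3) (cn := .up) (n1 := ndB0q0) (n2 := ndB7q3) (pc := pcB2) (cut := cut_pm_023_s) (xt := Ext.none) (P1 := 0) (W1 := 536870912) (P2 := 0) (W2 := 1230186008) (P3 := 697932185) (W3 := 42949674) (N0 := 3) (En := eng) (mo := mog) (C1 := cd0q0) (C2 := cd7q3) (C3 := pd2)
    rfl k0_pm_023_s

noncomputable def cut_pm_033_s : Cut := Cut.of [[⟨4, 0, 0, 1449551462⟩]]

noncomputable def f_pm_033_s : ℕ → ℕ → ℕ → ℕ → Bool := onCell 0 536870912 0 1230186008 697932185 42949674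
    (rowNE 3 eng mog cd0q0 cd7q3 pd3 0 false true false .pnn 0 3 3 (qsf 0 536870912 0 1230186008 3) ndB0q0 ndB7q3 pcB3 cut_pm_033_s Ext.none)

def k0_pm_033_s : ∃ t, chk3 f_pm_033_s t 1 1 1 = true :=
  ⟨(l 6), by decide +kernel⟩

theorem c_pm_033_s : CertNE 0 536870912 0 1230186008 697932185 42949674 3 eng mog cd0q0 cd7q3 pd3 false true false .pnn 0 3 3
    ndB0q0 ndB7q3 pcB3 cut_pm_033_s Ext.none :=
  certNE0 (fam := false) (s1 := true) (s2 := false) (a := 0) (b := 3) (c := 3) (cn := .pnn) (n1 := ndB0q0) (n2 := ndB7q3) (pc := pcB3) (cut := cut_pm_033_s) (xt := Ext.none) (P1 := 0) (W1 := 536870912) (P2 := 0) (W2 := 1230186008) (P3 := 697932185) (W3 := 42949674) (N0 := 3) (En := eng) (mo := mog) (C1 := cd0q0) (C2 := cd7q3) (C3 := pd3)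
    rfl k0_pm_033_s

noncomputable def cut_pm_101_s : Cut := Cut.of [[⟨4, 0, 0, 1449551462⟩]]

noncomputable def f_pm_101_s : ℕ → ℕ → ℕ → ℕ → Bool := onCell 536870912 536870912 536870912 536870912 697932185 42949674
    (rowNE 3 eng mog cd0q1 cd7q1 pd0 0 false true false .npn 1 0 1 (qsf 536870912 536870912 536870912 536870912 0) ndB0q1 ndB7q1 pcB0 cut_pm_101_s Ext.none)

def k0_pm_101_s : ∃ t, chk3 f_pm_101_s t 1 1 1 = true :=
  ⟨(l 4), by decide +kernel⟩

theorem c_pm_101_s : CertNE 536870912 536870912 536870912 536870912 697932185 42949674 3 eng mog cd0q1 cd7q1 pd0 false true false .npn 1 0 1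
    ndB0q1 ndB7q1 pcB0 cut_pm_101_s Ext.none :=
  certNE0 (fam := false) (s1 := true) (s2 := false) (a := 1) (b := 0) (c := 1) (cn := .npn) (n1 := ndB0q1) (n2 := ndB7q1) (pc := pcB0) (cut := cut_pm_101_s) (xt := Ext.none) (P1 := 536870912) (W1 := 536870912) (P2 := 536870912) (W2 := 536870912) (P3 := 697932185) (W3 := 42949674) (N0 := 3) (En := eng) (mo := mog) (C1 := cd0q1) (C2 := cd7q1) (C3 := pd0)
    rfl k0_pm_101_s

noncomputable def cut_pm_102_s : Cut := Cut.of [[⟨4, 0, 0, 1449551462⟩]]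

noncomputable def f_pm_102_s : ℕ → ℕ → ℕ → ℕ → Bool := onCell 536870912 536870912 1073741824 536870912 697932185 42949674
    (rowNE 3 eng mog cd0q1 cd7q2 pd0 0 false true false .npp 1 0 2 (qsf 536870912 536870912 1073741824 536870912 0) ndB0q1 ndB7q2 pcB0 cut_pm_102_s Ext.none)

def k0_pm_102_s : ∃ t, chk3 f_pm_102_s t 1 1 1 = true :=
  ⟨(l 6), by decide +kernel⟩

theorem c_pm_102_s : CertNE 536870912 536870912 1073741824 536870912 697932185 42949674 3 eng mog cd0q1 cd7q2 pd0 false true false .npp 1 0 2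
    ndB0q1 ndB7q2 pcB0 cut_pm_102_s Ext.none :=
  certNE0 (fam := false) (s1 := true) (s2 := false) (a := 1) (b := 0) (c := 2) (cn := .npp) (n1 := ndB0q1) (n2 := ndB7q2) (pc := pcB0) (cut := cut_pm_102_s) (xt := Ext.none) (P1 := 536870912) (W1 := 536870912) (P2 := 1073741824) (W2 := 536870912) (P3 := 697932185) (W3 := 42949674) (N0 := 3) (En := eng) (mo := mog) (C1 := cd0q1) (C2 := cd7q2) (C3 := pd0)
    rfl k0_pm_102_s

noncomputable def cut_pm_112_s : Cut := Cut.of [[⟨4, 0, 0, 1449551462⟩]]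

noncomputable def f_pm_112_s : ℕ → ℕ → ℕ → ℕ → Bool := onCell 536870912 536870912 1073741824 536870912 697932185 42949674
    (rowNE 3 eng mog cd0q1 cd7q2 pd1 0 false true false .dn 1 1 2 (qsf 536870912 536870912 1073741824 536870912 1) ndB0q1 ndB7q2 pcB1 cut_pm_112_s Ext.none)

def k0_pm_112_s : ∃ t, chk3 f_pm_112_s t 1 1 1 = true :=
  ⟨(l 6), by decide +kernel⟩

theorem c_pm_112_s : CertNE 536870912 536870912 1073741824 536870912 697932185 42949674 3 eng mog cd0q1 cd7q2 pd1 false true false .dn 1 1 2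
    ndB0q1 ndB7q2 pcB1 cut_pm_112_s Ext.none :=
  certNE0 (fam := false) (s1 := true) (s2 := false) (a := 1) (b := 1) (c := 2) (cn := .dn) (n1 := ndB0q1) (n2 := ndB7q2) (pc := pcB1) (cut := cut_pm_112_s) (xt := Ext.none) (P1 := 536870912) (W1 := 536870912) (P2 := 1073741824) (W2 := 536870912) (P3 := 697932185) (W3 := 42949674) (N0 := 3) (En := eng) (mo := mog) (C1 := cd0q1) (C2 := cd7q2) (C3 := pd1)
    rfl k0_pm_112_s

noncomputable def cut_pm_113_s : Cut := Cut.of [[⟨4, 0, 0, 1449551462⟩], [⟨0, 1, 0, 67108864⟩, ⟨1, 1, 0, 67108864⟩, ⟨2, 2, 0, 16777216⟩]]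

noncomputable def f_pm_113_s : ℕ → ℕ → ℕ → ℕ → Bool := onCell 536870912 536870912 0 1230186008 697932185 42949674
    (rowNE 3 eng mog cd0q1 cd7q3 pd1 0 false true false .nn 1 1 3 (qsf 536870912 536870912 0 1230186008 1) ndB0q1 ndB7q3 pcB1 cut_pm_113_s Ext.none)

def k0_pm_113_s : ∃ t, chk3 f_pm_113_s t 1 1 1 = true :=
  ⟨(b (a (l 2) (a (l 2) (b (a (l 2) (a (l 2) (b (l 14) (b (l 14) (l 16740808))))) (a (l 6) (a (l 6) (b (l 16853680) (l 6))))))) (a (l 6) (l 6))), by decide +kernel⟩

theorem c_pm_113_s : CertNE 536870912 536870912 0 1230186008 697932185 42949674 3 eng mog cd0q1 cd7q3 pd1 false true false .nn 1 1 3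
    ndB0q1 ndB7q3 pcB1 cut_pm_113_s Ext.none :=
  certNE0 (fam := false) (s1 := true) (s2 := false) (a := 1) (b := 1) (c := 3) (cn := .nn) (n1 := ndB0q1) (n2 := ndB7q3) (pc := pcB1) (cut := cut_pm_113_s) (xt := Ext.none) (P1 := 536870912) (W1 := 536870912) (P2 := 0) (W2 := 1230186008) (P3 := 697932185) (W3 := 42949674) (N0 := 3) (En := eng) (mo := mog) (C1 := cd0q1) (C2 := cd7q3) (C3 := pd1)
    rfl k0_pm_113_s

noncomputable def cut_pm_123_s : Cut := Cut.of [[⟨4, 0, 0, 1449551462⟩], [⟨0, 1, 0, 67108864⟩, ⟨1, 1, 0, 67108864⟩, ⟨2, 2, 0, 16777216⟩]]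

noncomputable def f_pm_123_s : ℕ → ℕ → ℕ → ℕ → Bool := onCell 1073741824 536870912 0 1230186008 697932185 42949674
    (rowNE 3 eng mog cd0q1 cd7q3 pd2 2 false true false .npn 1 2 3 (qsf 536870912 536870912 0 1230186008 2) ndB0q1 ndB7q3 pcB2 cut_pm_123_s Ext.none)

def k0_pm_123_s : ∃ t, chk3 f_pm_123_s t 1 1 1 = true :=
  ⟨(b (a (b (b (a (a (a (l 14) (b (l 16724672) (l 16716920))) (a (l 16663640) (l 16606320))) (l 6)) (a (a (a (b (l 14) (l 16688616)) (l 16652160)) (l 6)) (l 6))) (b (l 6) (l 6))) (l 6)) (l 6)), by decide +kernel⟩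

theorem c_pm_123_s : CertNE 536870912 536870912 0 1230186008 697932185 42949674 3 eng mog cd0q1 cd7q3 pd2 false true false .npn 1 2 3
    ndB0q1 ndB7q3 pcB2 cut_pm_123_s Ext.none :=
  certNE2 (fam := false) (s1 := true) (s2 := false) (a := 1) (b := 2) (c := 3) (cn := .npn) (n1 := ndB0q1) (n2 := ndB7q3) (pc := pcB2) (cut := cut_pm_123_s) (xt := Ext.none) (P1 := 536870912) (W1 := 536870912) (P2 := 0) (W2 := 1230186008) (P3 := 697932185) (W3 := 42949674) (N0 := 3) (En := eng) (mo := mog) (C1 := cd0q1) (C2 := cd7q3) (C3 := pd2)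
    rfl (fun _ => rfl) k0_pm_123_s

noncomputable def cut_pm_133_s : Cut := Cut.of [[⟨4, 0, 0, 1449551462⟩]]

noncomputable def f_pm_133_s : ℕ → ℕ → ℕ → ℕ → Bool := onCell 1610612736 536870912 0 1230186008 697932185 42949674
    (rowNE 3 eng mog cd0q1 cd7q3 pd3 2 false true false .dn 1 3 3 (qsf 536870912 536870912 0 1230186008 3) ndB0q1 ndB7q3 pcB3 cut_pm_133_s Ext.none)

def k0_pm_133_s : ∃ t, chk3 f_pm_133_s t 1 1 1 = true :=
  ⟨(l 6), by decide +kernel⟩

theorem c_pm_133_s : CertNE 536870912 536870912 0 1230186008 697932185 42949674 3 eng mog cd0q1 cd7q3 pd3 false true false .dn 1 3 3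
    ndB0q1 ndB7q3 pcB3 cut_pm_133_s Ext.none :=
  certNE2 (fam := false) (s1 := true) (s2 := false) (a := 1) (b := 3) (c := 3) (cn := .dn) (n1 := ndB0q1) (n2 := ndB7q3) (pc := pcB3) (cut := cut_pm_133_s) (xt := Ext.none) (P1 := 536870912) (W1 := 536870912) (P2 := 0) (W2 := 1230186008) (P3 := 697932185) (W3 := 42949674) (N0 := 3) (En := eng) (mo := mog) (C1 := cd0q1) (C2 := cd7q3) (C3 := pd3)
    rfl (fun _ => rfl) k0_pm_133_s

noncomputable def cut_pm_202_s : Cut := Cut.of [[⟨4, 0, 0, 1449551462⟩]]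

noncomputable def f_pm_202_s : ℕ → ℕ → ℕ → ℕ → Bool := onCell 0 536870912 1073741824 536870912 697932185 42949674
    (rowNE 3 eng mog cd0q2 cd7q2 pd0 0 false true false .pp 2 0 2 (qsf 0 536870912 1073741824 536870912 0) ndB0q2 ndB7q2 pcB0 cut_pm_202_s Ext.none)

def k0_pm_202_s : ∃ t, chk3 f_pm_202_s t 1 1 1 = true :=
  ⟨(a (b (l 6) (a (l 6) (l 6))) (l 6)), by decide +kernel⟩

theorem c_pm_202_s : CertNE 0 536870912 1073741824 536870912 697932185 42949674 3 eng mog cd0q2 cd7q2 pd0 false true false .pp 2 0 2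
    ndB0q2 ndB7q2 pcB0 cut_pm_202_s Ext.none :=
  certNE0 (fam := false) (s1 := true) (s2 := false) (a := 2) (b := 0) (c := 2) (cn := .pp) (n1 := ndB0q2) (n2 := ndB7q2) (pc := pcB0) (cut := cut_pm_202_s) (xt := Ext.none) (P1 := 0) (W1 := 536870912) (P2 := 1073741824) (W2 := 536870912) (P3 := 697932185) (W3 := 42949674) (N0 := 3) (En := eng) (mo := mog) (C1 := cd0q2) (C2 := cd7q2) (C3 := pd0)
    rfl k0_pm_202_s

noncomputable def cut_pm_203_s : Cut := Cut.of [[⟨4, 0, 0, 1449551462⟩]]

noncomputable def f_pm_203_s : ℕ → ℕ → ℕ → ℕ → Bool := onCell 0 536870912 0 1230186008 697932185 42949674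
    (rowNE 3 eng mog cd0q2 cd7q3 pd0 0 false true false .up 2 0 3 (qsf 0 536870912 0 1230186008 0) ndB0q2 ndB7q3 pcB0 cut_pm_203_s Ext.none)

def k0_pm_203_s : ∃ t, chk3 f_pm_203_s t 1 1 1 = true :=
  ⟨(b (l 2) (b (l 2) (a (b (b (l 2) (b (a (l 2) (l 2)) (a (a (l 16758560) (l 225049504423)) (l 6)))) (a (a (b (a (b (l 16750880) (l 16737192)) (b (l 16744928) (l 16730320))) (b (l 16716072) (l 16693256))) (b (b (l 16734184) (l 6)) (l 6))) (l 6))) (l 6)))), by decide +kernel⟩

theorem c_pm_203_s : CertNE 0 536870912 0 1230186008 697932185 42949674 3 eng mog cd0q2 cd7q3 pd0 false true false .up 2 0 3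
    ndB0q2 ndB7q3 pcB0 cut_pm_203_s Ext.none :=
  certNE0 (fam := false) (s1 := true) (s2 := false) (a := 2) (b := 0) (c := 3) (cn := .up) (n1 := ndB0q2) (n2 := ndB7q3) (pc := pcB0) (cut := cut_pm_203_s) (xt := Ext.none) (P1 := 0) (W1 := 536870912) (P2 := 0) (W2 := 1230186008) (P3 := 697932185) (W3 := 42949674) (N0 := 3) (En := eng) (mo := mog) (C1 := cd0q2) (C2 := cd7q3) (C3 := pd0)
    rfl k0_pm_203_s

noncomputable def cut_pm_213_s : Cut := Cut.of [[⟨4, 0, 0, 1449551462⟩], [⟨0, 1, 0, 67108864⟩, ⟨1, 1, 0, 67108864⟩, ⟨2, 2, 0, 16777216⟩]]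

noncomputable def f_pm_213_s : ℕ → ℕ → ℕ → ℕ → Bool := onCell 0 536870912 0 1230186008 697932185 42949674
    (rowNE 3 eng mog cd0q2 cd7q3 pd1 0 false true false .pnn 2 1 3 (qsf 0 536870912 0 1230186008 1) ndB0q2 ndB7q3 pcB1 cut_pm_213_s Ext.none)

def k0_pm_213_s : ∃ t, chk3 f_pm_213_s t 2 2 1 = true :=
  ⟨(b (l 3) (a (l 3) (b (l 3) (a (b (l 3) (a (l 3) (b (l 3) (a (l 3) (b (l 3) (l 304036703559)))))) (b (a (l 3) (b (a (l 3) (b (l 3) (a (l 3) (b (l 3) (l 312089768663))))) (a (a (l 3) (b (l 3) (b (l 306184188871) (c (l 266992614023) (l 260013291943))))) (b (a (b (l 3) (a (l 3) (l 282024999943))) (b (a (l 290078063111) (l 257865813815)) (a (l 226727300695) (l 16775176)))) (a (b (a (l 269676968567) (l 16775696)) (l 16774264)) (l 16773088)))))) (a (b (a (l 3) (b (l 307794809607) (a (l 291688674855) (b (l 258402679111) (l 16774184))))) (a (b (a (l 3) (b (l 297594255383) (l 253033969783))) (a (b (l 279877515991) (l 221895466695)) (l 16772288))) (b (a (b (l 226727305719) (l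 16772408)) (l 16769800)) (l 16765864)))) (b (a (b (a (b (l 287393708279) (a (l 259476428135) (l 16774968))) (c (l 208473694183) (l 203641856103))) (l 16780456)) (b (l 16769752) (l 16764664))) (a (l 16761632) (l 16755832))))))))), by decide +kernel⟩

def k1_pm_213_s : ∃ t, chk3 f_pm_213_s t 3 8 1 = true :=
  ⟨(a (l 3) (a (a (l 3) (l 14)) (l 14))), by decide +kernel⟩

def k2_pm_213_s : ∃ t, chk3 f_pm_213_s t 6 9 1 = true :=
  ⟨(a (l 3) (a (l 3) (b (l 3) (a (b (l 3) (b (l 3) (a (b (l 3) (a (l 3) (c (c (l 323900930807) (l 324437801687)) (b (l 3) (a (l 3) (b (l 326585286071) (l 308331675559))))))) (c (c (b (a (l 328732768503) (b (l 316384738823) (l 274508808215))) (a (b (l 308868546519) (l 268066355527)) (l 16777240))) (b (a (l 328732768455) (b (l 316384738807) (l 271824453575))) (a (b (l 308868546503) (l 264845130023)) (l 16777120)))) (b (a (l 329806512823) (b (a (l 330880252887) (l 308868546535)) (a (b (l 311552901047) (l 270213839879)) (l 16777096)))) (a (b (a (l 320679706103)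 (l 271824453511)) (a (l 268066357063) (l 16777016))) (l 16776928))))))) (a (b (l 3) (b (b (a (l 3) (c (c (b (l 335712090631) (l 312089771735)) (b (l 336248961479) (l 311552900823))) (b (l 335175219575) (a (l 327122156711) (l 300278611943))))) (c (c (a (b (l 324437801991) (a (l 314237255399) (l 275582548679))) (l 275582550119)) (a (b (l 324974672871) (l 302962966519)) (l 272898192551))) (a (b (l 324437801911) (a (l 313163513559) (l 273971937159))) (b (l 272898195287) (l 16777016))))) (b (a (b (c (c (l 16777248) (l 16777184)) (l 266455743095)) (l 16777080)) (l 16777032)) (l 16776896)))) (a (b (b (l 3) (b (l 3) (b (l 3) (c (c (l 321753447639) (l 321216576711)) (l 321753447575))))) (b (b (c (c (b (l 277730033735) (l 16777264)) (b (l 276656291863) (l 16777184))) (b (a (l 307257933799) (l 16777136)) (l 16777064))) (l 16777072)) (l 16776880))) (b (b (l 3) (c (c (b (l 333027735639) (b (a (l 321753447911) (l 277193162807)) (l 275045677383))) (b (l 333027735543) (b (a (l 321216576967)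 (l 275582548055)) (l 273435064615)))) (b (l 333564606327) (b (a (l 321753447847) (l 272361324487)) (l 269140097063))))) (b (c (l 16777264) (l 16776856)) (l 16776776))))))))), by decide +kernel⟩

def k3_pm_213_s : ∃ t, chk3 f_pm_213_s t 14 18 1 = true :=
  ⟨(b (a (l 3) (a (a (b (l 3) (b (a (l 3) (a (l 3) (l 14))) (b (a (l 3) (a (c (l 309942288119) (b (l 329806511463) (l 276119420935))) (l 14))) (c (a (a (l 340007058247) (l 302426095559)) (l 16777032)) (a (a (l 344838896311) (b (l 313163513495) (l 275045677175))) (l 16776880)))))) (l 14)) (l 14))) (b (a (a (l 3) (a (b (l 3) (a (l 3) (a (l 3) (c (l 345912637415) (l 346449508103))))) (a (b (l 3) (a (b (l 3) (c (l 309405417319) (b (l 323364060679) (l 273971937255)))) (b (c (l 316384738935) (b (l 335175220439) (l 303499837399))) (c (l 16777144) (l 267529485271))))) (b (c (b (l 338396445143) (a (l 323900931431) (l 275582549975))) (b (l 335712090407) (a (l 321216576807) (l 273971937143)))) (b (a (c (l 273435064551) (l 270750709927))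 (l 16776984)) (l 16776904)))))) (a (a (b (a (b (a (c (l 277193162807) (l 276656291815)) (l 16777016)) (l 16776920)) (l 16776704)) (l 16776544)) (l 16776064)) (l 14))) (a (a (a (l 3) (b (l 3) (a (l 3) (a (l 3) (b (l 3) (c (b (l 328195898839) (l 301889224759)) (l 311552900871))))))) (a (a (c (b (c (l 337859573767) (l 336785831847)) (b (a (b (l 338396445895) (l 310479159159)) (l 275045677031)) (l 273435064551))) (b (c (l 336785831735) (l 338396444359)) (b (a (l 319069093351) (l 271287580615)) (l 268066355415)))) (c (b (b (a (l 336785832967) (l 302962963991)) (a (l 276656291863) (l 16777136))) (l 16777080)) (b (b (a (l 336248961943) (b (l 312089771815) (l 270750710359))) (c (l 271824453447) (l 268066356967))) (l 16776816)))) (b (a (b (c (l 16777096) (l 16776936)) (l 16776888)) (l 16776704)) (l 16776592)))) (a (l 16775872) (l 14))))), by decide +kernel⟩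

def k4_pm_213_s : ∃ t, chk3 f_pm_213_s t 14 19 1 = true :=
  ⟨(b (b (a (a (b (a (l 3) (a (a (c (c (l 334101477943) (l 333564606967)) (l 334638348679)) (c (b (l 336248962007) (c (l 277193162823) (l 277193162791))) (b (l 336785832807) (l 273435066359)))) (c (b (c (l 276656291927) (l 276119420951)) (l 16777168)) (b (a (l 305110450199) (l 16777080)) (l 16776992))))) (a (a (l 3) (c (c (b (l 327659027415) (a (l 314237255399) (l 275045677751))) (b (l 327659027367) (a (l 313700384471) (l 273971935943)))) (b (l 328195898199) (a (l 314237255383) (l 269676968439))))) (a (c (c (l 275045679159) (l 272898192487)) (b (l 269676969767) (l 16776968))) (l 16776968)))) (a (c (l 16777040) (l 16776520)) (l 16776344))) (a (l 16775528) (l 16774376))) (a (a (a (c (c (b (a (b (l 316921609687) (l 276656291911)) (l 16777256)) (l 16777288)) (b (a (b (a (l 337859574711) (l 306721062855)) (l 275582550023)) (l 16777160)) (l 16777128))) (b (a (b (l 316921609639) (l 271824453527)) (l 16777008)) (l 16776872)))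 (b (l 16776904) (l 16776784))) (l 16776264)) (l 16774744))) (a (a (b (a (l 16776896) (l 16776640)) (l 16776456)) (l 16775976)) (l 16773344))), by decide +kernel⟩

def k5_pm_213_s : ∃ t, chk3 f_pm_213_s t 15 9 1 = true :=
  ⟨(b (b (l 14) (a (l 16771744) (l 16765976))) (a (b (l 16770128) (l 16767872)) (l 16764280))), by decide +kernel⟩

def k6_pm_213_s : ∃ t, chk3 f_pm_213_s t 12 20 1 = true :=
  ⟨(a (l 3) (b (l 3) (a (l 3) (b (l 3) (a (l 3) (b (l 3) (c (c (c (l 309942286631) (l 309942291863)) (l 308868544791)) (a (l 3) (b (l 3) (a (l 319605963943) (b (a (l 319605964327) (l 293836160887)) (a (l 268603227911) (l 16776904))))))))))))), by decide +kernel⟩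

def k7_pm_213_s : ∃ t, chk3 f_pm_213_s t 12 21 1 = true :=
  ⟨(a (b (l 3) (a (l 3) (b (a (l 3) (b (l 3) (c (l 311552903879) (l 313700382231)))) (a (b (l 3) (a (l 3) (b (l 294909901767) (l 266992617687)))) (b (a (b (l 313163512263) (l 286319967671)) (b (a (l 284709355159) (l 16776752)) (l 16776352))) (a (b (l 238538459383) (l 16776032)) (l 16775360))))))) (a (b (a (l 3) (b (l 3) (b (a (l 3) (c (c (l 302962965367) (l 301352352631)) (l 311016029031))) (c (c (a (l 295983643847) (b (l 260013292823) (l 16776432))) (a (l 294373031095) (l 253033966903))) (a (l 292225547399) (b (l 263771388983) (l 16776136))))))) (a (c (b (b (c (c (l 295983643383) (l 295446772455)) (l 293836159687)) (a (b (l 287930580519) (l 246591517927)) (l 16776136))) (l 16774856)) (b (b (a (l 316384737335) (l 284172483895)) (a (l 268603226951) (l 16775824))) (l 16774168))) (b (b (a (b (c (l 244980905463) (l 235854099975)) (l 16775952)) (l 16775272)) (l 16774456)) (l 16772488)))) (a (b (b (b (l 3) (c (c (a (l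 315847866743) (b (l 300278611415) (l 258939553863))) (a (l 315310995815) (l 288467451271))) (a (l 316921608535) (b (a (l 317458480183) (l 290078064327)) (a (l 270213840359) (l 16776544)))))) (b (a (c (c (b (l 289004322423) (l 242833422375)) (l 263234517975)) (b (a (l 296520515111) (l 261623905575)) (l 234780358359))) (c (l 16776056) (l 16775712))) (a (l 16775560) (l 16774568)))) (l 16777120)) (b (b (b (c (c (a (c (l 299204869543) (l 298667998615)) (b (l 257865806583) (l 16776448))) (a (l 297594256775) (l 250886483863))) (a (b (a (l 3) (l 304036707799)) (a (l 298131127927) (b (l 264308260423) (l 16776712)))) (b (a (b (a (l 301352353575) (l 261623905975)) (l 238001585159)) (l 16776544)) (l 16776120)))) (a (b (c (c (l 16776672) (l 16776584)) (l 234243487927)) (l 16775920)) (l 16775376))) (l 16773920)) (l 16770224))))), by decide +kernel⟩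

def k8_pm_213_s : ∃ t, chk3 f_pm_213_s t 26 40 1 = true :=
  ⟨(b (a (l 3) (a (l 3) (b (l 3) (a (l 3) (b (a (l 3) (b (l 3) (c (c (l 313163513719) (l 313163513719)) (a (l 324974673511) (l 305110450087))))) (c (c (a (l 312626642759) (l 263234517767)) (l 267529486087)) (a (b (l 323364060663) (a (l 315310997367) (l 262697647239))) (b (l 264308260647) (l 16776984))))))))) (a (l 3) (c (c (a (b (a (l 3) (l 323900930439)) (a (b (l 3) (l 315310999591)) (b (a (l 315310997143) (l 262697646183)) (l 254107711943)))) (b (a (b (a (l 324437802135) (l 306184191863)) (a (l 267529486167) (l 16777064))) (l 255718324471)) (l 16776752))) (a (b (l 326585284087) (a (l 319605963655) (b (l 305110449863) (l 16776912)))) (b (a (b (l 314237255319) (l 260550164119)) (l 16776896)) (l 16776560)))) (a (b (a (l 3) (b (l 3) (a (l 3) (b (l 3) (a (l 3) (b (l 322827189991) (l 305647321015))))))) (a (b (l 3) (a (l 3) (c (l 309942288167) (b (a (l 3) (b (l 326585286279) (l 311016030119))) (a (b (l 320142835479)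 (a (l 312089771975) (l 256792067719))) (l 255181454663)))))) (b (a (b (l 324974673207) (a (l 320679706279) (b (l 308331675591) (l 256255196647)))) (b (a (b (l 316384739191) (l 264308260743)) (l 16777072)) (l 16776960))) (a (b (a (b (c (l 16777160) (l 265918873479)) (l 16777080)) (l 16776984)) (l 16776856)) (l 16776672))))) (b (a (b (a (l 325511543911) (b (a (l 328195898871) (l 309405417399)) (a (b (l 311552901063) (l 261087034775)) (l 16777072)))) (a (b (a (l 318532222743) (l 264845131623)) (l 256792067111)) (l 16776888))) (b (a (l 251960228919) (l 16776776)) (l 16776560))) (l 16776248)))))), by decide +kernel⟩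

def k9_pm_213_s : ∃ t, chk3 f_pm_213_s t 52 164 1 = true :=
  ⟨(a (l 3) (a (l 3) (c (c (b (l 320679705383) (a (l 315847867879) (l 264308260583))) (l 312626644951)) (b (a (l 3) (a (l 3) (a (l 3) (b (l 3) (b (l 3) (l 309405417415)))))) (c (a (l 317458480615) (l 262160776823)) (a (b (l 3) (a (l 322827189751) (b (a (l 3) (l 312089771959)) (a (b (l 315310997415) (l 264845131703)) (l 249812745975))))) (b (a (b (l 320679706295) (a (l 316921610103) (l 263771389847))) (b (a (b (l 312089771975) (l 260013293239)) (l 16777112)) (l 16777032))) (a (b (l 253570842151) (l 16776976)) (l 16776840))))))))), by decide +kernel⟩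

def k10_pm_213_s : ∃ t, chk3 f_pm_213_s t 52 165 1 = true :=
  ⟨(a (a (l 3) (b (l 3) (a (l 3) (a (l 3) (b (l 3) (c (c (l 321216577095) (l 316921609783)) (c (l 317458480695) (b (l 3) (a (l 3) (l 316384739127)))))))))) (b (c (c (a (l 313700384055) (l 254644582151)) (a (l 314237254967) (l 250349614807))) (c (a (l 315847867703) (l 251423358135)) (a (a (l 3) (b (a (l 3) (b (l 3) (a (l 3) (l 314237255575)))) (a (a (l 319069093511) (b (l 3) (b (l 312089771975) (l 261623906215)))) (b (a (a (l 315847868295) (a (l 307794804695) (l 267529486279))) (l 255181454951)) (l 242833424151))))) (a (b (a (b (a (l 318532222791) (b (l 307794804695) (l 256255196871))) (a (b (l 266992615351) (l 16777136)) (l 16777064))) (l 16776976)) (l 16776808)) (l 16776544))))) (a (c (c (a (l 302426095415) (l 16776968)) (l 262160776679)) (a (c (l 304036709431) (c (b (l 313700384439) (a (l 301889224583) (l 16777000))) (b (a (l 3) (b (l 316921609959) (a (b (l 320679706455) (a (l 315847868327) (l 266455744455)))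 (b (a (l 302962966503) (l 16777160)) (l 16777120))))) (a (b (a (l 3) (b (l 314774126487) (a (l 306184191975) (l 251960229719)))) (a (b (a (l 316384739223) (c (l 299204869783) (l 299741741015))) (a (l 263771389895) (l 16777136))) (l 16777088))) (b (a (l 250349616871) (l 16777008)) (l 16776912)))))) (b (b (a (a (b (a (l 314237255623) (l 262160776919)) (l 251423358727)) (l 16777088)) (l 16776936)) (l 16776904)) (l 16776704)))) (c (l 16776560) (l 16776272))))), by decide +kernel⟩

def k11_pm_213_s : ∃ t, chk3 f_pm_213_s t 52 83 1 = true :=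
  ⟨(a (a (b (b (l 3) (a (l 3) (b (l 3) (c (c (l 303499837239) (l 302426095399)) (a (l 320142835319) (b (c (l 302426095511) (l 301889224583)) (l 260013293335))))))) (c (c (b (a (l 301889224423) (l 253570840951)) (l 16776704)) (l 259476421687)) (b (a (b (l 308868546071) (a (l 300815482711) (l 257328938647))) (a (b (b (l 271824453495) (l 16777048)) (l 16776816)) (l 16776736))) (a (l 233706617895) (l 16776232))))) (a (c (b (c (b (l 313163513159) (l 261623903943)) (l 299741740695)) (l 16776400)) (b (b (b (l 3) (a (l 3) (a (l 321216577223) (b (l 322290319127) (a (l 297594257367) (l 260550164071)))))) (c (l 261623905767) (b (a (b (l 308868546343) (a (l 300278611895) (l 255181454967))) (b (l 257328938743) (l 16776936))) (l 16776824)))) (l 16776104))) (b (b (c (c (l 267529486023) (l 265382002327)) (a (b (b (l 3) (a (l 3) (a (l 311552900999) (b (l 312089771943) (l 264845131463))))) (b (a (b (l 307794804663) (l 266455744423)) (l 249275875047)) (l 16777024))) (b (c (l 265918873399)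 (a (c (l 297057386391) (c (l 296520515479) (b (b (l 3) (l 305647321031)) (b (l 264845131671) (l 16777096))))) (b (b (a (l 308868546519) (l 256792067863)) (l 239612198759)) (l 16777024)))) (l 16776880)))) (c (l 16776736) (l 16776560))) (l 16775896)))) (b (a (c (c (l 16776576) (l 16776440)) (b (a (b (l 16776840) (l 16776560)) (l 16776304)) (l 16775944))) (l 16776416)) (l 16775088))), by decide +kernel⟩

def k12_pm_213_s : ∃ t, chk3 f_pm_213_s t 53 41 1 = true :=
  ⟨(b (a (c (b (a (c (b (a (l 302426095383) (l 16777008)) (l 16776832)) (l 256255196439)) (l 16776560)) (l 16776112)) (b (a (b (c (a (l 266992615127) (l 16776880)) (a (b (a (l 321753448007) (b (l 313163513751) (l 260550164311))) (a (b (a (l 314774126503) (l 260550164359)) (l 250349616823)) (l 16776968))) (l 240685940103))) (l 16776560)) (l 16776192)) (l 16775560))) (l 16775536)) (a (l 16774616) (l 16774056))), by decide +kernel⟩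

def k13_pm_213_s : ∃ t, chk3 f_pm_213_s t 27 20 1 = true :=
  ⟨(b (c (a (c (b (a (b (a (b (l 333027736199) (l 312626642743)) (b (l 271824453559) (l 16777184))) (a (b (l 265918873463) (l 16777080)) (l 16777112))) (l 16777200)) (l 16776760)) (b (a (b (a (l 317995353895) (b (l 269140098935) (l 16777096))) (a (l 260550161335) (l 16776936))) (l 16776952)) (l 16776344))) (l 16776992)) (a (b (a (b (a (b (l 330343381559) (a (l 324437802279) (b (a (l 322827189959) (l 269140098983)) (l 263771388935)))) (b (a (b (l 319605964487) (l 269140098951)) (l 263234517975)) (l 16776968))) (a (b (a (b (a (l 311552901047) (l 16777136)) (l 16777064)) (l 16776960)) (l 16776784)) (l 16776656))) (l 16776544)) (a (l 16776000) (l 16775616))) (l 16775600))) (a (l 16774704) (l 16773992))), by decide +kernel⟩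

def k14_pm_213_s : ∃ t, chk3 f_pm_213_s t 13 21 1 = true :=
  ⟨(a (b (a (a (b (a (c (l 16775480) (l 16774888)) (l 16774488)) (l 16772488)) (l 16772664)) (l 16771656)) (a (l 16768352) (l 16766736))) (b (l 16792448) (l 16768352))), by decide +kernel⟩

def k15_pm_213_s : ∃ t, chk3 f_pm_213_s t 6 11 1 = true :=
  ⟨(a (b (a (b (a (b (a (l 3) (b (l 311552898087) (a (l 290078063255) (b (l 267529488423) (l 16776392))))) (a (b (a (l 3) (l 282561870919)) (a (l 269676968743) (l 16776032))) (b (a (l 230485396711) (l 16775360)) (l 16774448)))) (b (a (b (a (b (l 285783096695) (l 238001588487)) (l 16776048)) (l 16775192)) (l 16773848)) (l 16772008))) (a (b (a (b (l 16775088) (l 16773640)) (l 16772344)) (l 16770184)) (l 16767848))) (b (a (l 16769344) (l 16764608)) (l 16761000))) (a (b (a (l 16763864) (l 16760184)) (l 16701544)) (b (l 16757184) (l 16748576)))) (b (a (b (l 16762888) (l 16755368)) (l 16758840)) (l 16747736))), by decide +kernel⟩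

def k16_pm_213_s : ∃ t, chk3 f_pm_213_s t 7 5 1 = true :=
  ⟨(b (a (b (a (b (l 16775232) (l 16772952)) (b (l 16771200) (l 16767024))) (l 16764496)) (a (l 16805008) (l 16761192))) (a (b (l 16754368) (l 16745528)) (b (l 6) (l 6)))), by decide +kernel⟩

def k17_pm_213_s : ∃ t, chk3 f_pm_213_s t 2 6 1 = true :=
  ⟨(b (a (b (l 3) (a (l 3) (a (l 3) (b (a (l 3) (b (l 3) (l 308331670359))) (a (b (l 337859567655) (a (l 305647317367) (l 262697657847))) (b (a (l 281488127991) (l 16774504)) (l 16771984))))))) (b (a (a (b (l 3) (a (l 3) (b (l 308868541047) (a (l 289541191431) (l 227801050071))))) (b (a (b (l 3) (l 288467459127)) (b (a (l 286856836855) (l 235317244423)) (l 203641860823))) (a (b (a (l 258402677399) (l 16772808)) (l 16769992)) (l 16764824)))) (a (b (a (b (l 16768744) (l 16763528)) (l 16757768)) (l 16772040)) (b (a (l 16750344) (l 16748608)) (l 16742904)))) (a (a (b (a (b (a (l 322290314855) (l 271824451271)) (l 228874794775)) (b (l 16772344) (l 16768144))) (a (l 16768072)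 (l 16761904))) (b (a (l 16763632) (l 16754952)) (l 16752168))) (a (b (l 16745576) (l 16735608)) (l 16729256))))) (a (b (a (a (l 3) (b (l 3) (a (l 3) (b (l 3) (l 289004330311))))) (a (b (a (l 328732791911) (b (l 299741736743) (l 226727309511))) (a (b (a (l 290614933239) (l 220284855079)) (l 16772136)) (l 16768520))) (b (a (b (l 213842407975) (l 16769312)) (l 16765680)) (l 16779408)))) (a (b (b (a (l 3) (a (l 298667994951) (l 212231796647))) (a (l 336248951927) (a (l 225653549783) (l 16769744)))) (a (a (b (l 3) (a (l 308331671431) (l 236927841511))) (b (a (l 289004320487) (l 222432336119)) (l 16773320))) (a (l 16769984) (l 16763840)))) (a (b (b (l 16765136) (l 16760064)) (b (l 16758048) (l 16756704))) (b (a (l 16756520) (l 16750904)) (l 16746976))))) (b (a (a (b (l 16776824) (l 16750968)) (b (l 16743904) (l 16735984))) (a (l 16724240) (l 16712272))) (a (b (l 16736400) (l 16727952)) (b (l 16714560) (l 16711520)))))), by decide +kernel⟩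

def k18_pm_213_s : ∃ t, chk3 f_pm_213_s t 3 6 1 = true :=
  ⟨(a (b (a (b (l 16736192) (b (l 16722936) (l 16717192))) (b (l 16633024) (l 16730208))) (b (a (l 16791208) (l 6)) (l 6))) (b (l 6) (l 6))), by decide +kernel⟩

def k19_pm_213_s : ∃ t, chk3 f_pm_213_s t 1 7 1 = true :=
  ⟨(a (b (a (b (a (a (b (a (b (l 218674239927) (l 16771832)) (l 16768888)) (a (l 16765360) (l 16762568))) (b (b (l 16761592) (l 16760560)) (b (l 16757200) (l 16751680)))) (b (l 16745280) (l 16734856))) (a (a (b (b (l 16760080) (l 16752600)) (l 16741848)) (l 16712496)) (b (l 16727392) (l 16839064)))) (a (b (b (l 16724896) (l 16721232)) (l 16703064)) (l 6))) (a (l 1) (l 6))) (l 6)), by decide +kernel⟩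

theorem s20_pm_213_s : ∃ t, chk3 f_pm_213_s t 1 6 1 = true := ex3_a k17_pm_213_s k18_pm_213_s

theorem s21_pm_213_s : ∃ t, chk3 f_pm_213_s t 1 3 1 = true := ex3_b s20_pm_213_s k19_pm_213_s

theorem s22_pm_213_s : ∃ t, chk3 f_pm_213_s t 52 82 1 = true := ex3_b k9_pm_213_s k10_pm_213_s

theorem s23_pm_213_s : ∃ t, chk3 f_pm_213_s t 52 41 1 = true := ex3_b s22_pm_213_s k11_pm_213_s

theorem s24_pm_213_s : ∃ t, chk3 f_pm_213_s t 26 41 1 = true := ex3_a s23_pm_213_s k12_pm_213_s

theorem s25_pm_213_s : ∃ t, chk3 f_pm_213_s t 26 20 1 = true := ex3_b k8_pm_213_s s24_pm_213_s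

theorem s26_pm_213_s : ∃ t, chk3 f_pm_213_s t 13 20 1 = true := ex3_a s25_pm_213_s k13_pm_213_s

theorem s27_pm_213_s : ∃ t, chk3 f_pm_213_s t 13 10 1 = true := ex3_b s26_pm_213_s k14_pm_213_s

theorem s28_pm_213_s : ∃ t, chk3 f_pm_213_s t 12 10 1 = true := ex3_b k6_pm_213_s k7_pm_213_s

theorem s29_pm_213_s : ∃ t, chk3 f_pm_213_s t 6 10 1 = true := ex3_a s28_pm_213_s s27_pm_213_s

theorem s30_pm_213_s : ∃ t, chk3 f_pm_213_s t 6 5 1 = true := ex3_b s29_pm_213_s k15_pm_213_s

theorem s31_pm_213_s : ∃ t, chk3 f_pm_213_s t 3 5 1 = true := ex3_a s30_pm_213_s k16_pm_213_s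

theorem s32_pm_213_s : ∃ t, chk3 f_pm_213_s t 14 9 1 = true := ex3_b k3_pm_213_s k4_pm_213_s

theorem s33_pm_213_s : ∃ t, chk3 f_pm_213_s t 7 9 1 = true := ex3_a s32_pm_213_s k5_pm_213_s

theorem s34_pm_213_s : ∃ t, chk3 f_pm_213_s t 3 9 1 = true := ex3_a k2_pm_213_s s33_pm_213_s

theorem s35_pm_213_s : ∃ t, chk3 f_pm_213_s t 3 4 1 = true := ex3_b k1_pm_213_s s34_pm_213_s

theorem s36_pm_213_s : ∃ t, chk3 f_pm_213_s t 3 2 1 = true := ex3_b s35_pm_213_s s31_pm_213_s

theorem s37_pm_213_s : ∃ t, chk3 f_pm_213_s t 1 2 1 = true := ex3_a k0_pm_213_s s36_pm_213_s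

theorem s38_pm_213_s : ∃ t, chk3 f_pm_213_s t 1 1 1 = true := ex3_b s37_pm_213_s s21_pm_213_s

theorem c_pm_213_s : CertNE 0 536870912 0 1230186008 697932185 42949674 3 eng mog cd0q2 cd7q3 pd1 false true false .pnn 2 1 3
    ndB0q2 ndB7q3 pcB1 cut_pm_213_s Ext.none :=
  certNE0 (fam := false) (s1 := true) (s2 := false) (a := 2) (b := 1) (c := 3) (cn := .pnn) (n1 := ndB0q2) (n2 := ndB7q3) (pc := pcB1) (cut := cut_pm_213_s) (xt := Ext.none) (P1 := 0) (W1 := 536870912) (P2 := 0) (W2 := 1230186008) (P3 := 697932185) (W3 := 42949674) (N0 := 3) (En := eng) (mo := mog) (C1 := cd0q2) (C2 := cd7q3) (C3 := pd1)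
    rfl s38_pm_213_s

noncomputable def cut_mm_001_s : Cut := Cut.of [[⟨4, 0, 0, 1449551462⟩]]

noncomputable def f_mm_001_s : ℕ → ℕ → ℕ → ℕ → Bool := onCell 0 536870912 0 536870912 697932185 42949674
    (rowNE 3 eng mog cd0q0 cd7q1 pd0 1 false false false .up 0 0 1 (qsf 0 536870912 536870912 536870912 0) ndB0q0 ndB7q1 pcB0 cut_mm_001_s Ext.none)

def k0_mm_001_s : ∃ t, chk3 f_mm_001_s t 1 1 1 = true :=
  ⟨(l 3), by decide +kernel⟩

theorem c_mm_001_s : CertNE 0 536870912 536870912 536870912 697932185 42949674 3 eng mog cd0q0 cd7q1 pd0 false false false .up 0 0 1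
    ndB0q0 ndB7q1 pcB0 cut_mm_001_s Ext.none :=
  certNE1 (fam := false) (s1 := false) (s2 := false) (a := 0) (b := 0) (c := 1) (cn := .up) (n1 := ndB0q0) (n2 := ndB7q1) (pc := pcB0) (cut := cut_mm_001_s) (xt := Ext.none) (P1 := 0) (W1 := 536870912) (P2 := 536870912) (W2 := 536870912) (P3 := 697932185) (W3 := 42949674) (N0 := 3) (En := eng) (mo := mog) (C1 := cd0q0) (C2 := cd7q1) (C3 := pd0)
    rfl (fun _ => rfl) k0_mm_001_s

noncomputable def cut_mm_011_s : Cut := Cut.of [[⟨4, 0, 0, 1449551462⟩]]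

noncomputable def f_mm_011_s : ℕ → ℕ → ℕ → ℕ → Bool := onCell 0 536870912 536870912 536870912 697932185 42949674
    (rowNE 3 eng mog cd0q0 cd7q1 pd1 1 false false false .pnn 0 1 1 (qsf 0 536870912 536870912 536870912 1) ndB0q0 ndB7q1 pcB1 cut_mm_011_s Ext.none)

def k0_mm_011_s : ∃ t, chk3 f_mm_011_s t 1 1 1 = true :=
  ⟨(l 5), by decide +kernel⟩

theorem c_mm_011_s : CertNE 0 536870912 536870912 536870912 697932185 42949674 3 eng mog cd0q0 cd7q1 pd1 false false false .pnn 0 1 1
    ndB0q0 ndB7q1 pcB1 cut_mm_011_s Ext.none :=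
  certNE1 (fam := false) (s1 := false) (s2 := false) (a := 0) (b := 1) (c := 1) (cn := .pnn) (n1 := ndB0q0) (n2 := ndB7q1) (pc := pcB1) (cut := cut_mm_011_s) (xt := Ext.none) (P1 := 0) (W1 := 536870912) (P2 := 536870912) (W2 := 536870912) (P3 := 697932185) (W3 := 42949674) (N0 := 3) (En := eng) (mo := mog) (C1 := cd0q0) (C2 := cd7q1) (C3 := pd1)
    rfl (fun _ => rfl) k0_mm_011_s

noncomputable def cut_mm_012_s : Cut := Cut.of [[⟨4, 0, 0, 1449551462⟩]]

noncomputable def f_mm_012_s : ℕ → ℕ → ℕ → ℕ → Bool := onCell 0 536870912 1073741824 536870912 697932185 42949674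
    (rowNE 3 eng mog cd0q0 cd7q2 pd1 0 false false false .pnp 0 1 2 (qsf 0 536870912 1073741824 536870912 1) ndB0q0 ndB7q2 pcB1 cut_mm_012_s Ext.none)

def k0_mm_012_s : ∃ t, chk3 f_mm_012_s t 1 1 1 = true :=
  ⟨(l 5), by decide +kernel⟩

theorem c_mm_012_s : CertNE 0 536870912 1073741824 536870912 697932185 42949674 3 eng mog cd0q0 cd7q2 pd1 false false false .pnp 0 1 2
    ndB0q0 ndB7q2 pcB1 cut_mm_012_s Ext.none :=
  certNE0 (fam := false) (s1 := false) (s2 := false) (a := 0) (b := 1) (c := 2) (cn := .pnp) (n1 := ndB0q0) (n2 := ndB7q2) (pc := pcB1) (cut := cut_mm_012_s) (xt := Ext.none) (P1 := 0) (W1 := 536870912) (P2 := 1073741824) (W2 := 536870912) (P3 := 697932185) (W3 := 42949674) (N0 := 3) (En := eng) (mo := mog) (C1 := cd0q0) (C2 := cd7q2) (C3 := pd1)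
    rfl k0_mm_012_s

noncomputable def cut_mm_022_s : Cut := Cut.of [[⟨4, 0, 0, 1449551462⟩]]

noncomputable def f_mm_022_s : ℕ → ℕ → ℕ → ℕ → Bool := onCell 0 536870912 1073741824 536870912 697932185 42949674
    (rowNE 3 eng mog cd0q0 cd7q2 pd2 0 false false false .pp 0 2 2 (qsf 0 536870912 1073741824 536870912 2) ndB0q0 ndB7q2 pcB2 cut_mm_022_s Ext.none)

def k0_mm_022_s : ∃ t, chk3 f_mm_022_s t 1 1 1 = true :=
  ⟨(l 5), by decide +kernel⟩

theorem c_mm_022_s : CertNE 0 536870912 1073741824 536870912 697932185 42949674 3 eng mog cd0q0 cd7q2 pd2 false false false .pp 0 2 2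
    ndB0q0 ndB7q2 pcB2 cut_mm_022_s Ext.none :=
  certNE0 (fam := false) (s1 := false) (s2 := false) (a := 0) (b := 2) (c := 2) (cn := .pp) (n1 := ndB0q0) (n2 := ndB7q2) (pc := pcB2) (cut := cut_mm_022_s) (xt := Ext.none) (P1 := 0) (W1 := 536870912) (P2 := 1073741824) (W2 := 536870912) (P3 := 697932185) (W3 := 42949674) (N0 := 3) (En := eng) (mo := mog) (C1 := cd0q0) (C2 := cd7q2) (C3 := pd2)
    rfl k0_mm_022_s

noncomputable def cut_mm_023_s : Cut := Cut.of [[⟨4, 0, 0, 1449551462⟩]]

noncomputable def f_mm_023_s : ℕ → ℕ → ℕ → ℕ → Bool := onCell 0 536870912 0 1230186008 697932185 42949674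
    (rowNE 3 eng mog cd0q0 cd7q3 pd2 0 false false false .up 0 2 3 (qsf 0 536870912 0 1230186008 2) ndB0q0 ndB7q3 pcB2 cut_mm_023_s Ext.none)

def k0_mm_023_s : ∃ t, chk3 f_mm_023_s t 1 1 1 = true :=
  ⟨(l 5), by decide +kernel⟩

theorem c_mm_023_s : CertNE 0 536870912 0 1230186008 697932185 42949674 3 eng mog cd0q0 cd7q3 pd2 false false false .up 0 2 3
    ndB0q0 ndB7q3 pcB2 cut_mm_023_s Ext.none :=
  certNE0 (fam := false) (s1 := false) (s2 := false) (a := 0) (b := 2) (c := 3) (cn := .up) (n1 := ndB0q0) (n2 := ndB7q3) (pc := pcB2) (cut := cut_mm_023_s) (xt := Ext.none) (P1 := 0) (W1 := 536870912) (P2 := 0) (W2 := 1230186008) (P3 := 697932185) (W3 := 42949674) (N0 := 3) (En := eng) (mo := mog) (C1 := cd0q0) (C2 := cd7q3) (C3 := pd2)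
    rfl k0_mm_023_s

noncomputable def cut_mm_033_s : Cut := Cut.of [[⟨4, 0, 0, 1449551462⟩]]

noncomputable def f_mm_033_s : ℕ → ℕ → ℕ → ℕ → Bool := onCell 0 536870912 0 1230186008 697932185 42949674
    (rowNE 3 eng mog cd0q0 cd7q3 pd3 0 false false false .pnn 0 3 3 (qsf 0 536870912 0 1230186008 3) ndB0q0 ndB7q3 pcB3 cut_mm_033_s Ext.none)

def k0_mm_033_s : ∃ t, chk3 f_mm_033_s t 1 1 1 = true :=
  ⟨(l 5), by decide +kernel⟩

theorem c_mm_033_s : CertNE 0 536870912 0 1230186008 697932185 42949674 3 eng mog cd0q0 cd7q3 pd3 false false false .pnn 0 3 3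
    ndB0q0 ndB7q3 pcB3 cut_mm_033_s Ext.none :=
  certNE0 (fam := false) (s1 := false) (s2 := false) (a := 0) (b := 3) (c := 3) (cn := .pnn) (n1 := ndB0q0) (n2 := ndB7q3) (pc := pcB3) (cut := cut_mm_033_s) (xt := Ext.none) (P1 := 0) (W1 := 536870912) (P2 := 0) (W2 := 1230186008) (P3 := 697932185) (W3 := 42949674) (N0 := 3) (En := eng) (mo := mog) (C1 := cd0q0) (C2 := cd7q3) (C3 := pd3)
    rfl k0_mm_033_s

noncomputable def cut_mm_101_s : Cut := Cut.of [[⟨4, 0, 0, 1449551462⟩], [⟨0, 1, 0, 67108864⟩, ⟨1, 0, 0, 67108864⟩, ⟨2, 1, 0, 67108864⟩]]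

noncomputable def f_mm_101_s : ℕ → ℕ → ℕ → ℕ → Bool := onCell 536870912 536870912 0 536870912 697932185 42949674
    (rowNE 3 eng mog cd0q1 cd7q1 pd0 1 false false false .npn 1 0 1 (qsf 536870912 536870912 536870912 536870912 0) ndB0q1 ndB7q1 pcB0 cut_mm_101_s Ext.none)

def k0_mm_101_s : ∃ t, chk3 f_mm_101_s t 1 1 1 = true :=
  ⟨(a (l 3) (b (a (l 3) (b (a (l 3) (b (a (l 3) (b (l 14) (l 3))) (l 3))) (l 3))) (l 3))), by decide +kernel⟩

theorem c_mm_101_s : CertNE 536870912 536870912 536870912 536870912 697932185 42949674 3 eng mog cd0q1 cd7q1 pd0 false false false .npn 1 0 1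
    ndB0q1 ndB7q1 pcB0 cut_mm_101_s Ext.none :=
  certNE1 (fam := false) (s1 := false) (s2 := false) (a := 1) (b := 0) (c := 1) (cn := .npn) (n1 := ndB0q1) (n2 := ndB7q1) (pc := pcB0) (cut := cut_mm_101_s) (xt := Ext.none) (P1 := 536870912) (W1 := 536870912) (P2 := 536870912) (W2 := 536870912) (P3 := 697932185) (W3 := 42949674) (N0 := 3) (En := eng) (mo := mog) (C1 := cd0q1) (C2 := cd7q1) (C3 := pd0)
    rfl (fun _ => rfl) k0_mm_101_s

noncomputable def cut_mm_102_s : Cut := Cut.of [[⟨4, 0, 0, 1449551462⟩], [⟨0, 1, 0, 67108864⟩, ⟨1, 0, 0, 67108864⟩, ⟨2, 1, 0, 67108864⟩]]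

noncomputable def f_mm_102_s : ℕ → ℕ → ℕ → ℕ → Bool := onCell 536870912 536870912 0 536870912 697932185 42949674
    (rowNE 3 eng mog cd0q1 cd7q2 pd0 1 false false false .npp 1 0 2 (qsf 536870912 536870912 1073741824 536870912 0) ndB0q1 ndB7q2 pcB0 cut_mm_102_s Ext.none)

def k0_mm_102_s : ∃ t, chk3 f_mm_102_s t 1 1 1 = true :=
  ⟨(a (l 3) (b (a (l 3) (b (a (l 3) (b (a (l 3) (b (l 14) (l 3))) (l 3))) (l 3))) (l 3))), by decide +kernel⟩

theorem c_mm_102_s : CertNE 536870912 536870912 1073741824 536870912 697932185 42949674 3 eng mog cd0q1 cd7q2 pd0 false false false .npp 1 0 2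
    ndB0q1 ndB7q2 pcB0 cut_mm_102_s Ext.none :=
  certNE1 (fam := false) (s1 := false) (s2 := false) (a := 1) (b := 0) (c := 2) (cn := .npp) (n1 := ndB0q1) (n2 := ndB7q2) (pc := pcB0) (cut := cut_mm_102_s) (xt := Ext.none) (P1 := 536870912) (W1 := 536870912) (P2 := 1073741824) (W2 := 536870912) (P3 := 697932185) (W3 := 42949674) (N0 := 3) (En := eng) (mo := mog) (C1 := cd0q1) (C2 := cd7q2) (C3 := pd0)
    rfl (fun _ => rfl) k0_mm_102_s

noncomputable def cut_mm_112_s : Cut := Cut.of [[⟨4, 0, 0, 1449551462⟩]]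

noncomputable def f_mm_112_s : ℕ → ℕ → ℕ → ℕ → Bool := onCell 536870912 536870912 1073741824 536870912 697932185 42949674
    (rowNE 3 eng mog cd0q1 cd7q2 pd1 2 false false false .dn 1 1 2 (qsf 536870912 536870912 1073741824 536870912 1) ndB0q1 ndB7q2 pcB1 cut_mm_112_s Ext.none)

def k0_mm_112_s : ∃ t, chk3 f_mm_112_s t 1 1 1 = true :=
  ⟨(a (l 3) (l 5)), by decide +kernel⟩

theorem c_mm_112_s : CertNE 536870912 536870912 1073741824 536870912 697932185 42949674 3 eng mog cd0q1 cd7q2 pd1 false false false .dn 1 1 2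
    ndB0q1 ndB7q2 pcB1 cut_mm_112_s Ext.none :=
  certNE2 (fam := false) (s1 := false) (s2 := false) (a := 1) (b := 1) (c := 2) (cn := .dn) (n1 := ndB0q1) (n2 := ndB7q2) (pc := pcB1) (cut := cut_mm_112_s) (xt := Ext.none) (P1 := 536870912) (W1 := 536870912) (P2 := 1073741824) (W2 := 536870912) (P3 := 697932185) (W3 := 42949674) (N0 := 3) (En := eng) (mo := mog) (C1 := cd0q1) (C2 := cd7q2) (C3 := pd1)
    rfl (fun _ => rfl) k0_mm_112_s

noncomputable def cut_mm_113_s : Cut := Cut.of [[⟨4, 0, 0, 1449551462⟩]]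

noncomputable def f_mm_113_s : ℕ → ℕ → ℕ → ℕ → Bool := onCell 536870912 536870912 0 1230186008 697932185 42949674
    (rowNE 3 eng mog cd0q1 cd7q3 pd1 0 false false false .nn 1 1 3 (qsf 536870912 536870912 0 1230186008 1) ndB0q1 ndB7q3 pcB1 cut_mm_113_s Ext.none)

def k0_mm_113_s : ∃ t, chk3 f_mm_113_s t 1 1 1 = true :=
  ⟨(a (l 5) (b (l 5) (a (b (l 5) (l 3)) (l 3)))), by decide +kernel⟩

theorem c_mm_113_s : CertNE 536870912 536870912 0 1230186008 697932185 42949674 3 eng mog cd0q1 cd7q3 pd1 false false false .nn 1 1 3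
    ndB0q1 ndB7q3 pcB1 cut_mm_113_s Ext.none :=
  certNE0 (fam := false) (s1 := false) (s2 := false) (a := 1) (b := 1) (c := 3) (cn := .nn) (n1 := ndB0q1) (n2 := ndB7q3) (pc := pcB1) (cut := cut_mm_113_s) (xt := Ext.none) (P1 := 536870912) (W1 := 536870912) (P2 := 0) (W2 := 1230186008) (P3 := 697932185) (W3 := 42949674) (N0 := 3) (En := eng) (mo := mog) (C1 := cd0q1) (C2 := cd7q3) (C3 := pd1)
    rfl k0_mm_113_s

noncomputable def cut_mm_123_s : Cut := Cut.of [[⟨4, 0, 0, 1449551462⟩]]

noncomputable def f_mm_123_s : ℕ → ℕ → ℕ → ℕ → Bool := onCell 1073741824 536870912 0 1230186008 697932185 42949674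
    (rowNE 3 eng mog cd0q1 cd7q3 pd2 2 false false false .npn 1 2 3 (qsf 536870912 536870912 0 1230186008 2) ndB0q1 ndB7q3 pcB2 cut_mm_123_s Ext.none)

def k0_mm_123_s : ∃ t, chk3 f_mm_123_s t 1 1 1 = true :=
  ⟨(b (l 5) (l 5)), by decide +kernel⟩

theorem c_mm_123_s : CertNE 536870912 536870912 0 1230186008 697932185 42949674 3 eng mog cd0q1 cd7q3 pd2 false false false .npn 1 2 3
    ndB0q1 ndB7q3 pcB2 cut_mm_123_s Ext.none :=
  certNE2 (fam := false) (s1 := false) (s2 := false) (a := 1) (b := 2) (c := 3) (cn := .npn) (n1 := ndB0q1) (n2 := ndB7q3) (pc := pcB2) (cut := cut_mm_123_s) (xt := Ext.none) (P1 := 536870912) (W1 := 536870912) (P2 := 0) (W2 := 1230186008) (P3 := 697932185) (W3 := 42949674) (N0 := 3) (En := eng) (mo := mog) (C1 := cd0q1) (C2 := cd7q3) (C3 := pd2)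
    rfl (fun _ => rfl) k0_mm_123_s

noncomputable def cut_mm_133_s : Cut := Cut.of [[⟨4, 0, 0, 1449551462⟩]]

noncomputable def f_mm_133_s : ℕ → ℕ → ℕ → ℕ → Bool := onCell 1610612736 536870912 0 1230186008 697932185 42949674
    (rowNE 3 eng mog cd0q1 cd7q3 pd3 2 false false false .dn 1 3 3 (qsf 536870912 536870912 0 1230186008 3) ndB0q1 ndB7q3 pcB3 cut_mm_133_s Ext.none)

def k0_mm_133_s : ∃ t, chk3 f_mm_133_s t 1 1 1 = true :=
  ⟨(l 5), by decide +kernel⟩

theorem c_mm_133_s : CertNE 536870912 536870912 0 1230186008 697932185 42949674 3 eng mog cd0q1 cd7q3 pd3 false false false .dn 1 3 3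
    ndB0q1 ndB7q3 pcB3 cut_mm_133_s Ext.none :=
  certNE2 (fam := false) (s1 := false) (s2 := false) (a := 1) (b := 3) (c := 3) (cn := .dn) (n1 := ndB0q1) (n2 := ndB7q3) (pc := pcB3) (cut := cut_mm_133_s) (xt := Ext.none) (P1 := 536870912) (W1 := 536870912) (P2 := 0) (W2 := 1230186008) (P3 := 697932185) (W3 := 42949674) (N0 := 3) (En := eng) (mo := mog) (C1 := cd0q1) (C2 := cd7q3) (C3 := pd3)
    rfl (fun _ => rfl) k0_mm_133_s

noncomputable def cut_mm_202_s : Cut := Cut.of [[⟨4, 0, 0, 1449551462⟩], [⟨0, 1, 0, 53687091⟩, ⟨1, 0, 0, 53687091⟩, ⟨2, 1, 0, 53687091⟩]]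

noncomputable def f_mm_202_s : ℕ → ℕ → ℕ → ℕ → Bool := onCell 0 536870912 0 536870912 697932185 42949674
    (rowNE 3 eng mog cd0q2 cd7q2 pd0 1 false false false .pp 2 0 2 (qsf 0 536870912 1073741824 536870912 0) ndB0q2 ndB7q2 pcB0 cut_mm_202_s Ext.none)

def k0_mm_202_s : ∃ t, chk3 f_mm_202_s t 2 2 1 = true :=
  ⟨(b (a (l 6) (b (a (l 6) (b (l 6) (l 16467584))) (a (l 16491432) (b (l 16511664) (a (l 16537552) (l 16561272)))))) (a (b (l 6) (a (l 6) (b (l 16580144) (a (l 6) (l 16615152))))) (b (a (b (l 16544816) (b (l 16567496) (l 16664640))) (b (a (l 16571216) (b (l 16586488) (l 16602864))) (a (b (l 16594096) (l 16611008)) (b (l 16619000) (l 16635440))))) (a (b (a (l 16617440) (l 16616648)) (a (l 16631320) (l 16648048))) (b (a (l 16635056) (b (l 16651576) (l 16667760))) (a (a (l 16661296) (l 16671864)) (l 16712528))))))), by decide +kernel⟩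

def k1_mm_202_s : ∃ t, chk3 f_mm_202_s t 2 3 1 = true :=
  ⟨(b (b (a (b (a (l 6) (a (l 16633952) (l 16646224))) (a (b (l 16643464) (l 16658248)) (l 16716304))) (a (b (a (l 16658264) (l 16678816)) (a (l 16690976) (l 16707760))) (b (a (l 16697608) (b (a (l 16706864) (l 16720992)) (a (l 16721656) (l 16736272)))) (a (b (a (l 16714200) (l 16724016)) (a (l 16727800) (l 16738088))) (b (a (l 16736400) (l 16750872)) (a (l 16771464) (a (l 16782256) (b (l 16765528) (a (l 16770688) (b (l 16772944) (a (l 16775536) (l 295446773767)))))))))))) (b (a (a (a (l 16674976) (l 16682024)) (a (l 16690504) (l 16703832))) (a (a (l 16718096) (a (l 16729736) (b (l 16731656) (l 16744168)))) (a (b (a (l 16740736) (l 16751336)) (a (l 16753648) (b (l 16761272) (l 16778104)))) (b (a (b (l 16760888) (a (l 16764200) (a (l 16769416) (l 178945791975)))) (a (b (b (l 16770136) (l 198810016231)) (b (a (l 16779088) (l 343765155159)) (l 354502572679))) (b (a (b (l 216526756647) (l 364166249719)) (l 393157278295))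 (l 3)))) (a (a (b (l 16770776) (b (l 226190434855) (l 304573578567))) (b (b (a (l 16774376) (l 307794804407)) (l 327659027367)) (l 3))) (l 3)))))) (b (a (a (l 16698016) (l 16718088)) (a (a (l 16737320) (a (l 16748408) (l 16757008))) (a (a (b (l 16763184) (l 16768728)) (b (a (l 16770680) (b (l 220821724151) (l 285783097079))) (a (b (l 16779896) (l 275045678743)) (l 352891957991)))) (a (a (b (l 368998084871) (l 3)) (l 3)) (l 3))))) (a (l 2) (a (b (a (l 16745456) (l 16761216)) (l 2)) (a (a (a (b (l 16771360) (l 353361733895)) (b (a (l 16774520) (l 271824452743)) (l 321753446151))) (a (b (l 337322702135) (l 3)) (l 3))) (l 3))))))) (a (l 2) (a (l 2) (a (l 2) (l 3))))), by decide +kernel⟩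

def k2_mm_202_s : ∃ t, chk3 f_mm_202_s t 6 4 1 = true :=
  ⟨(b (a (b (a (l 16460904) (l 16495080)) (a (l 16509864) (l 16545288))) (a (b (l 16617496) (l 16586224)) (b (b (l 16564344) (l 16591952)) (b (l 16618424) (l 16662880))))) (a (b (a (l 16555040) (l 16610600)) (b (a (l 16498880) (l 16616800)) (a (l 16600080) (l 16648072)))) (b (b (a (l 16618336) (b (l 16657232) (l 16663880))) (a (l 16636464) (a (l 16665056) (b (l 16682648) (l 16691088))))) (a (b (a (l 16642504) (l 16662064)) (a (l 16659400) (l 16679032))) (b (a (b (l 16678544) (l 16687080)) (a (l 16677624) (l 16708912))) (b (a (l 16695408) (l 16716536)) (l 16735144))))))), by decide +kernel⟩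

def k3_mm_202_s : ∃ t, chk3 f_mm_202_s t 14 8 1 = true :=
  ⟨(b (a (b (l 16589616) (l 16639160)) (b (b (l 16651216) (l 16687408)) (b (l 16702784) (a (l 16683920) (a (l 16701696) (l 16735152)))))) (a (b (a (l 16655224) (l 16697624)) (a (b (l 16669568) (l 16678528)) (b (l 16690720) (l 16698312)))) (b (a (b (l 16693792) (l 16702760)) (b (b (l 16714152) (l 16727136)) (a (l 16716992) (b (l 16726264) (l 16730328))))) (a (b (a (l 16705360) (l 16715592)) (a (l 16713544) (l 16723952))) (b (a (b (l 16723808) (l 16727992)) (b (l 16734264) (l 16738608))) (a (l 16713312) (b (l 16743232) (l 16747808)))))))), by decide +kernel⟩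

def k4_mm_202_s : ∃ t, chk3 f_mm_202_s t 15 16 1 = true :=
  ⟨(a (b (a (b (l 14) (l 16705200)) (l 14)) (a (b (b (l 16717296) (a (l 16717416) (l 16729336))) (b (b (l 16747608) (l 16749080)) (a (l 16725312) (l 16735824)))) (b (a (b (l 14) (l 16759840)) (l 14)) (a (b (l 16742656) (a (l 16743848) (l 16728176))) (b (a (l 16750736) (l 14)) (a (l 16744120) (l 16749976))))))) (b (l 14) (a (b (l 14) (a (a (b (l 14) (b (l 14) (c (l 16776632) (l 16777800)))) (l 14)) (l 14))) (l 14)))), by decide +kernel⟩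

def k5_mm_202_s : ∃ t, chk3 f_mm_202_s t 30 34 1 = true :=
  ⟨(a (b (a (l 16730744) (b (l 16756360) (l 16722560))) (a (b (l 16736872) (l 16740792)) (b (l 16726760) (l 16741784)))) (b (a (b (l 16771328) (a (l 16751992) (l 16757728))) (a (b (l 16759080) (b (l 16752000) (c (l 16775224) (l 16775040)))) (b (b (l 16774352) (l 16776488)) (b (a (l 16766704) (l 16769728)) (a (l 16769040) (a (l 16771272) (l 16778008))))))) (a (b (a (l 16756408) (l 16767520)) (a (a (l 16759504) (l 16772848)) (b (l 16775944) (l 16778320)))) (a (b (b (a (l 16765352) (l 16768360)) (a (l 16767688) (l 16770648))) (b (a (l 16769976) (a (l 16772192) (c (l 16778952) (l 16771024)))) (b (l 16777104) (a (l 16772832) (a (l 16772432) (a (l 16776160) (a (l 16777368) (b (l 16776800) (l 225653556663))))))))) (a (b (c (l 16777752) (l 16777680)) (a (b (l 16777784) (a (b (l 16777480) (a (b (l 186998850567) (l 3)) (l 387251700599))) (b (b (l 141901693879) (l 345912639927)) (l 3)))) (b (b (l 16777552) (a (a (l 16777312)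 (b (l 16776752) (l 212768654727))) (b (a (l 173040206759) (l 359871283591)) (l 3)))) (a (a (b (l 382419862359) (l 3)) (l 3)) (l 3))))) (a (b (a (c (l 16777472) (l 16776936)) (b (l 16776560) (b (l 16774344) (a (l 16777264) (b (l 16776704) (l 219211105271)))))) (b (b (a (b (l 134922371927) (c (l 336248963431) (l 338933317975))) (b (l 368998089335) (l 3))) (l 3)) (l 3))) (b (b (l 16777024) (a (b (l 16777712) (b (a (l 147270402887) (l 347523252535)) (l 411410891639))) (b (b (l 124184953671) (c (l 327659028759) (l 330343383303))) (l 3)))) (l 3)))))))), by decide +kernel⟩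

def k6_mm_202_s : ∃ t, chk3 f_mm_202_s t 60 35 1 = true :=
  ⟨(a (b (a (l 16744800) (l 16729472)) (a (b (l 16751616) (l 16745824)) (a (l 16758224) (l 16766152)))) (b (b (a (l 16753880) (a (l 16758232) (l 16750616))) (b (l 16765448) (a (l 16759592) (l 16765296)))) (b (b (l 16771112) (l 16772200)) (a (a (l 16766088) (l 16763688)) (b (l 16777336) (b (l 16776392) (a (l 16768216) (a (l 16775592) (a (l 16776656) (l 235854104551)))))))))), by decide +kernel⟩

def k7_mm_202_s : ∃ t, chk3 f_mm_202_s t 61 35 1 = true :=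
  ⟨(a (b (b (a (a (l 16753376) (l 16766864)) (c (l 16777208) (l 16776456))) (a (l 16775208) (a (a (l 16777544) (b (l 16771320) (a (l 16777144) (b (l 16774688) (b (l 16776840) (l 249812747703)))))) (a (b (l 16777368) (a (b (l 123111212311) (l 372756186007)) (b (b (l 199883752695) (l 396378505991)) (l 3)))) (b (b (l 105931343111) (a (b (l 16776784) (l 235317233063)) (a (l 353428832823) (l 3)))) (l 3)))))) (a (a (b (l 16777632) (a (b (l 16777808) (b (a (l 152102241895) (l 354502574775)) (l 417853343527))) (b (b (l 123111212791) (b (l 314237255847) (l 387251700791))) (l 3)))) (a (b (b (l 16771464) (a (l 16777280) (b (l 16776136) (a (l 162302788887) (l 249275877063))))) (a (b (b (l 346449510983) (l 3)) (l 3)) (l 3))) (b (b (l 16777504) (b (a (l 139217339751) (a (l 243370296983) (l 378661765911))) (l 404431570535))) (l 3)))) (b (b (a (a (b (l 113984407031) (a (a (l 148344145223) (l 234243491575)) (l 380809249783))) (a (b (a (l 228874782407) (l 368461218487)) (l 3)) (l 3))) (l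 3)) (l 3)) (l 3)))) (b (a (b (a (b (l 16777488) (a (a (l 16777016) (b (l 16774568) (b (l 16776728) (l 221358589335)))) (a (b (l 16777752) (b (l 335175221575) (l 3))) (b (b (l 156934079607) (l 366313734743)) (l 3))))) (a (b (b (l 98415150119) (a (b (l 16776672) (l 210084300087)) (b (l 325511545063) (l 3)))) (b (l 413558376199) (l 3))) (b (b (a (b (l 148881015831) (l 356113187335)) (l 403357828263)) (l 3)) (l 3)))) (a (b (a (b (a (b (l 186461979863) (l 377588023975)) (l 417316472135)) (l 3)) (l 3)) (l 3)) (l 3))) (l 3)) (l 3))), by decide +kernel⟩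

def k8_mm_202_s : ∃ t, chk3 f_mm_202_s t 124 68 1 = true :=
  ⟨(a (b (a (b (l 16778568) (l 16770424)) (c (c (l 16777576) (l 16777536)) (l 16777480))) (a (a (c (l 16775768) (l 16775704)) (b (c (l 16778736) (l 16778680)) (b (l 16777808) (b (l 16776048) (a (l 16777552) (b (l 16776848) (l 179482657719))))))) (a (b (l 16776928) (a (b (l 16777616) (b (a (l 16777464) (a (l 216526750551) (l 361481896279))) (l 392620409591))) (b (b (l 118279373383) (a (a (l 16777384) (l 213842395959)) (l 369534960071))) (l 3)))) (b (b (l 16777200) (a (c (c (b (l 16775080) (l 147270402983)) (l 125795566583)) (l 119889986535)) (b (a (l 16777592) (a (l 202568106759) (l 349670736135))) (c (l 381882991303) (l 385641087671))))) (a (a (b (b (a (l 210084299559) (l 354502574391)) (l 3)) (l 3)) (l 3)) (l 3)))))) (a (a (a (b (b (l 16773000) (l 16776608)) (b (b (b (l 16777464) (a (c (l 170892723015) (l 169818981191)) (l 358260670855))) (l 3)) (l 3))) (b (b (l 16776376) (b (l 16774160) (c (c (b (l 16775032)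 (l 139217339223)) (l 117205632071)) (l 115595019159)))) (b (b (b (a (a (l 194515043063) (l 343228285159)) (l 413558375063)) (l 3)) (l 3)) (l 3)))) (b (b (c (l 16777520) (l 16777480)) (b (a (l 16777536) (b (l 16777344) (a (c (l 159618433799) (l 155323466567)) (c (l 346449510743) (l 349670736199))))) (a (b (a (l 16777552) (b (l 164987142695) (l 361481896231))) (a (a (l 340007059671) (l 408189665799)) (l 3))) (b (l 411410891655) (l 3))))) (l 3))) (b (b (l 14) (b (b (b (l 14) (a (a (l 381882991127) (l 3)) (l 3))) (l 3)) (l 3))) (l 3)))), by decide +kernel⟩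

def k9_mm_202_s : ∃ t, chk3 f_mm_202_s t 124 69 1 = true :=
  ⟨(a (b (a (b (a (b (l 16777288) (a (a (l 16777216) (b (l 16775344) (l 206863074215))) (b (a (l 16777512) (l 334638350583)) (l 401210344247)))) (b (a (b (l 126332437159) (a (l 195051914215) (l 381346120199))) (a (b (l 328732770519) (l 3)) (l 3))) (l 3))) (a (a (a (b (b (l 341080801559) (l 3)) (l 3)) (l 3)) (l 3)) (l 3))) (l 3)) (l 3)) (l 3)), by decide +kernel⟩

def k10_mm_202_s : ∃ t, chk3 f_mm_202_s t 125 34 1 = true :=
  ⟨(l 3), by decide +kernel⟩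

def k11_mm_202_s : ∃ t, chk3 f_mm_202_s t 62 35 1 = true :=
  ⟨(l 3), by decide +kernel⟩

def k12_mm_202_s : ∃ t, chk3 f_mm_202_s t 63 17 1 = true :=
  ⟨(l 3), by decide +kernel⟩

def k13_mm_202_s : ∃ t, chk3 f_mm_202_s t 14 18 1 = true :=
  ⟨(a (a (b (b (l 16686344) (l 16694760)) (b (l 16703344) (l 16690736))) (b (b (a (l 16701616) (l 16711848)) (l 16673248)) (b (l 16723768) (l 16733088)))) (b (a (b (b (l 16704032) (l 16708352)) (l 16736352)) (a (b (l 16722624) (b (l 16729632) (l 16755104))) (a (b (l 16752064) (l 16771312)) (b (l 16767992) (l 16776880))))) (a (a (b (l 16719104) (l 16749320)) (b (b (l 16748768) (l 16753288)) (l 16770136))) (a (b (b (l 16759408) (l 16763848)) (a (l 16778040) (b (l 16770664) (a (l 16773496) (b (l 16775056) (a (l 16778408) (l 331953996535))))))) (b (a (b (l 16767504) (l 16776976)) (b (c (l 16778096) (l 16778064)) (a (a (l 88751474839) (b (l 16775320) (a (l 173040208423) (l 336248963815)))) (b (a (l 147270404647) (a (l 328732770903) (l 385104217783)))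 (l 408726539607))))) (a (b (a (b (l 16773544) (l 16778224)) (b (c (l 134922374039) (l 132774890375)) (b (l 326048416423) (l 399062862183)))) (a (b (a (l 171429596215) (l 370071832247)) (l 3)) (l 3))) (b (a (b (c (l 370608703943) (l 373293058455)) (l 3)) (l 3)) (l 3)))))))), by decide +kernel⟩

def k14_mm_202_s : ∃ t, chk3 f_mm_202_s t 14 19 1 = true :=
  ⟨(a (b (a (l 16725064) (b (a (l 16736808) (l 16747608)) (a (l 16745248) (l 16755448)))) (a (b (a (l 16732184) (l 16742672)) (a (l 16740208) (l 16750448))) (b (a (l 16752896) (l 16773880)) (a (a (l 16758400) (b (l 16761632) (l 16765784))) (a (l 16776856) (b (l 16777448) (a (b (l 16768792) (c (l 149417889319) (l 16778744))) (b (a (l 16776032) (l 241759686807)) (l 380809251239))))))))) (b (a (b (a (l 16768328) (b (l 16766080) (b (l 16769144) (l 16779008)))) (a (b (l 16763872) (l 16778264)) (a (b (l 16771528) (a (l 16776872) (b (l 16778440) (c (l 334101480327) (l 335175222119))))) (b (a (b (l 16774368) (c (l 150491630743) (l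 148344147079))) (b (a (l 16776280) (l 323364061639)) (l 386177960679))) (a (b (l 359334413495) (l 3)) (l 3)))))) (a (b (a (b (c (a (l 16772440) (l 111836924935)) (l 100025765191)) (a (b (l 16775464) (a (l 164450274535) (l 357723800967))) (b (c (l 336785833895) (l 338396447911)) (l 3)))) (b (a (a (b (l 16775904) (l 345912640567)) (b (l 187535723591) (l 3))) (b (l 392083540983) (l 3))) (l 3))) (a (b (a (l 415705863351) (l 3)) (l 3)) (l 3))) (l 3))) (a (a (b (a (b (l 16769200) (b (l 16772280) (l 112910666823))) (b (a (l 16773128) (a (l 16777712) (b (l 16775368) (l 247128395623)))) (a (b (l 146196663815) (c (l 356113188487) (l 358260672087))) (b (l 382956734999) (l 3))))) (a (b (a (b (l 16775136) (a (l 152639114135) (l 350207607767))) (b (c (l 331953995143) (l 332490867335)) (l 3))) (b (l 413021508935) (l 3))) (l 3))) (b (a (b (a (b (c (l 310479157895) (l 311016030103)) (l 413021506967)) (l 3)) (l 3)) (l 3)) (l 3))) (l 3)))), by decide +kernel⟩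

def k15_mm_202_s : ∃ t, chk3 f_mm_202_s t 15 9 1 = true :=
  ⟨(b (a (a (b (a (b (b (c (l 16777936) (l 16773800)) (l 16777216)) (a (b (l 16769672) (b (l 16778152) (a (l 16773688) (a (l 16775720) (b (l 16776536) (l 328195899911)))))) (b (a (l 16777712) (b (c (l 106468214711) (l 16778064)) (a (b (l 16776376) (l 314774126839)) (b (l 343228285703) (l 3))))) (a (a (b (l 125258696919) (l 372219316023)) (b (b (l 207399946519) (l 396378506743)) (l 3))) (l 3))))) (b (a (b (c (l 16777264) (l 16777192)) (a (a (l 16776904) (b (l 16774584) (a (l 118816245527) (b (l 16776568) (l 348596994679))))) (a (b (l 105931343623) (b (l 330343383559) (l 3))) (b (b (l 147807274951) (l 359334413335)) (l 3))))) (b (a (a (b (l 16771792) (a (l 108615698071) (b (l 16776416) (l 330880254343)))) (b (l 101099505095) (b (a (l 169282111239) (l 372756185991)) (l 3)))) (b (a (b (l 135459243863) (a (l 246591522839) (l 3))) (b (l 377051153719) (l 3))) (l 3))) (a (b (b (l 407652796983) (l 3)) (l 3)) (l 3)))) (a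 (b (a (b (a (b (l 161765918871) (l 372756186375)) (l 416242731543)) (l 3)) (l 3)) (l 3)) (l 3)))) (a (b (a (b (a (a (b (l 16775136) (a (l 157470951815) (l 321753448903))) (b (l 135996115319) (l 384030476343))) (a (b (a (l 314237255335) (l 370071831975)) (l 3)) (l 3))) (l 3)) (l 3)) (l 3)) (l 3))) (l 3)) (l 3)) (l 3)), by decide +kernel⟩

def k16_mm_202_s : ∃ t, chk3 f_mm_202_s t 12 10 1 = true :=
  ⟨(b (a (b (l 16616408) (l 16633064)) (b (l 16649680) (l 16687464))) (a (b (l 16649200) (l 16666072)) (b (l 16683208) (l 16700160)))), by decide +kernel⟩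

def k17_mm_202_s : ∃ t, chk3 f_mm_202_s t 13 10 1 = true :=
  ⟨(b (a (b (b (l 16639880) (l 16648232)) (b (l 16656616) (l 16665008))) (b (a (l 16695208) (b (a (l 16727592) (l 16737880)) (a (l 16735704) (b (l 16743864) (l 16748008))))) (a (b (l 16728528) (a (l 16731640) (l 16741944))) (a (b (l 16743896) (l 16752544)) (b (l 16775488) (l 16773688)))))) (a (a (b (l 16709952) (b (l 16722776) (l 16710368))) (a (b (l 16682344) (l 16762440)) (b (b (l 16729912) (l 16738416)) (l 16772464)))) (b (a (b (a (l 16740064) (l 16750624)) (l 16775016)) (a (b (l 16761256) (a (l 16777752) (b (l 16770392) (a (l 16773376) (a (l 161229048903) (b (l 16775584) (l 337859576487))))))) (b (a (c (l 16779832) (l 16779560)) (b (l 16777592) (a (b (l 16774256) (c (l 182167015447) (l 178408918983))) (b (a (l 16778856) (l 329269641511)) (l 390472928199))))) (a (b (a (l 147270404823) (b (l 167671499815) (a (l 242833429127) (l 401747216855)))) (a (b (a (l 216526753463) (l 368461219415)) (l 3)) (l 3))) (b (a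 (b (c (l 366850607175) (l 367924348967)) (l 3)) (l 3)) (l 3)))))) (a (a (b (l 16757464) (b (l 16763952) (l 16778744))) (b (b (l 16765840) (a (l 16788488) (l 16778008))) (a (b (l 16771816) (b (c (l 166060888199) (l 160692178951)) (a (l 164450274279) (c (l 364703123623) (l 365239994519))))) (b (a (b (l 16774672) (c (l 219747980119) (l 214916141943))) (b (a (l 181630143511) (l 350744478871)) (l 410337152871))) (a (b (l 386177960983) (l 3)) (l 3)))))) (a (b (a (b (c (a (l 16772488) (l 166060887863)) (l 152639115543)) (a (b (l 16778248) (c (l 331953995799) (l 331417125527))) (b (c (l 352891962983) (l 353428833863)) (l 3)))) (b (a (b (c (l 211694915975) (l 208473690439)) (l 374366800375)) (b (l 398525992279) (l 3))) (l 3))) (l 3)) (l 3)))))), by decide +kernel⟩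

def k18_mm_202_s : ∃ t, chk3 f_mm_202_s t 12 11 1 = true :=
  ⟨(b (a (b (l 16682768) (l 16698448)) (b (a (l 16708168) (a (l 16721080) (l 16729920))) (a (l 16723776) (b (l 16737440) (l 16745592))))) (a (b (a (l 16706088) (l 16722584)) (a (l 16721488) (l 16759592))) (b (a (b (l 16735832) (l 16744032)) (b (l 16753904) (a (l 16757512) (a (l 16764432) (l 16779632))))) (a (b (l 16752128) (l 16775832)) (a (b (l 16776112) (b (b (l 16770600) (l 155860340279)) (a (l 16773208) (b (a (l 16775632) (l 326585287799)) (l 341617674439))))) (b (a (b (l 16770528) (c (l 169818985191) (l 169282114199))) (b (c (a (l 16774072) (l 204715595799)) (l 183777630503)) (a (b (l 228337914663) (l 385104219319)) (l 3)))) (a (b (b (a (l 190220078407) (l 365776865703)) (l 367924350519)) (l 3)) (l 3)))))))), by decide +kernel⟩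

def k19_mm_202_s : ∃ t, chk3 f_mm_202_s t 13 22 1 = true :=
  ⟨(a (b (a (b (l 16739808) (l 16748080)) (a (b (l 16754344) (l 16773272)) (b (l 16774880) (a (b (l 16768248) (l 16777744)) (b (a (l 16772080) (l 153712856407)) (a (b (l 16775288) (c (l 315310997703) (l 243370300903))) (b (c (l 335712093239) (l 334101480503)) (l 3)))))))) (a (b (l 16777264) (a (l 16759752) (b (l 16767488) (a (l 16769208) (c (a (l 16772960) (l 184314499191)) (l 162839662983)))))) (b (a (a (l 16779168) (b (l 16771640) (b (l 163376533143) (a (l 16778288) (c (l 348060124967) (l 346986383143)))))) (a (b (a (c (l 183777628791) (l 177335177815)) (b (c (l 226190430967) (l 221895463575)) (l 392083541431))) (a (b (l 370071833207) (l 3)) (l 3))) (b (a (l 408189671623) (l 3)) (l 3)))) (a (a (b (a (l 16773760) (b (l 16775232) (c (l 309942288535) (l 240685945975)))) (a (b (c (l 225116688807) (l 219747979687)) (l 389936057687)) (l 403357833287))) (b (a (b (c (l 329806513127) (l 327659029479)) (l 3)) (l 3)) (l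 3))) (l 3))))) (b (a (a (b (a (b (l 16769960) (c (a (l 16773000) (b (l 16774512) (l 210621174263))) (l 158007825959))) (b (a (l 16773864) (b (l 16775400) (c (l 324437803367) (l 322290319719)))) (a (b (c (l 300278611719) (l 226190431575)) (l 404968443543)) (l 3)))) (a (b (a (b (l 173040209495) (c (l 356650059703) (l 356113188775))) (b (l 377588026151) (l 3))) (l 3)) (l 3))) (b (a (b (a (b (c (l 344302028055) (l 343765157127)) (l 3)) (l 3)) (l 3)) (l 3)) (l 3))) (l 3)) (l 3))), by decide +kernel⟩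

def k20_mm_202_s : ∃ t, chk3 f_mm_202_s t 13 23 1 = true :=
  ⟨(a (a (b (b (a (b (l 16766040) (l 16778056)) (a (b (l 147807276151) (a (b (l 16775288) (l 307257933975)) (b (l 322290320327) (l 3)))) (b (a (b (l 183777627111) (l 342691415799)) (b (l 363629382183) (l 3))) (l 3)))) (a (a (b (l 16771896) (a (l 16778712) (b (l 182167014455) (l 343765157687)))) (b (a (b (l 16774504) (l 199346884471)) (b (l 225653559911) (l 384567348599))) (a (b (l 363629382231) (l 3)) (l 3)))) (a (b (b (l 396915382727) (l 3)) (l 3)) (l 3)))) (a (b (a (b (a (b (l 324974674967) (l 3)) (l 3)) (l 3)) (l 3)) (l 3)) (l 3))) (l 3)) (l 3)), by decide +kernel⟩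

def k21_mm_202_s : ∃ t, chk3 f_mm_202_s t 28 20 1 = true :=
  ⟨(b (a (b (b (a (l 16746080) (l 16756664)) (l 16776480)) (b (l 16775544) (a (l 16758736) (a (l 16766768) (l 16777368))))) (a (b (b (l 16777816) (a (l 16779384) (a (l 16772920) (b (l 16774536) (c (a (l 16776016) (l 243907170375)) (l 169282114311)))))) (a (b (b (l 16772112) (a (l 16772920) (l 141364824679))) (a (b (l 16775072) (a (l 165524016135) (l 350207607687))) (b (c (a (l 227801042775) (l 383493605207)) (l 334101479895)) (l 3)))) (b (a (b (c (l 157470953127) (l 153175985831)) (c (l 356113188327) (l 357186930119))) (b (c (l 380272380327) (l 382419863927)) (l 3))) (l 3)))) (b (a (b (a (l 16776624) (b (l 16778232) (a (l 225116688199) (l 384030476087)))) (a (b (a (l 159618435911) (l 349670736759)) (l 408189668615)) (l 3))) (b (a (b (c (l 355576317447) (l 357186930135)) (l 3)) (l 3)) (l 3))) (l 3)))) (a (a (b (c (l 16775904) (l 16775496)) (b (b (l 16775864) (a (l 16770112) (a (l 16774104) (a (l 16776104) (l 322827190311)))))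 (a (c (l 147807276503) (l 16779016)) (a (b (c (l 175724564215) (l 170892726007)) (c (l 360945026839) (l 362555639527))) (b (l 384567347863) (l 3)))))) (b (a (b (l 16771080) (a (l 16777984) (b (l 151028501111) (a (l 228337914071) (l 386177959863))))) (b (a (b (l 16774016) (c (l 167134629527) (l 162302791319))) (b (c (a (l 16776040) (l 243370299815)) (l 176261436215)) (c (l 381346122231) (l 383493605831)))) (a (b (c (l 357723801159) (l 359334413847)) (l 3)) (l 3)))) (a (a (b (b (a (l 174650821767) (l 353428833287)) (l 410337152519)) (l 3)) (l 3)) (l 3)))) (a (b (a (b (a (b (l 408189668695) (l 3)) (l 3)) (l 3)) (l 3)) (l 3)) (l 3)))), by decide +kernel⟩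

def k22_mm_202_s : ∃ t, chk3 f_mm_202_s t 28 21 1 = true :=
  ⟨(a (b (a (b (a (b (a (b (l 16775248) (a (l 184851369159) (l 359334413559))) (a (b (l 234243494279) (l 3)) (l 402284089207))) (b (l 414095251351) (l 3))) (l 3)) (l 3)) (l 3)) (l 3)) (l 3)), by decide +kernel⟩

def k23_mm_202_s : ∃ t, chk3 f_mm_202_s t 29 10 1 = true :=
  ⟨(l 3), by decide +kernel⟩

def k24_mm_202_s : ∃ t, chk3 f_mm_202_s t 15 10 1 = true :=
  ⟨(l 3), by decide +kernel⟩

def k25_mm_202_s : ∃ t, chk3 f_mm_202_s t 7 11 1 = true :=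
  ⟨(l 3), by decide +kernel⟩

def k26_mm_202_s : ∃ t, chk3 f_mm_202_s t 3 3 1 = true :=
  ⟨(b (a (b (a (b (a (b (a (l 16737192) (b (l 16750336) (l 16758024))) (a (l 16773248) (a (b (l 16740288) (l 16779168)) (b (b (l 16767952) (l 156397211063)) (a (b (l 16773224) (a (l 199346884999) (l 316384739815))) (b (a (l 217063626327) (l 345912640375)) (l 419463956407))))))) (b (a (a (b (l 16763416) (b (l 16769120) (a (l 16770696) (c (l 191293822119) (l 190220080167))))) (b (a (l 16780520) (b (l 16772568) (b (l 182703886199) (l 294909902695)))) (a (b (c (l 204178725463) (l 204178725527)) (a (l 333564609671) (l 3))) (b (a (l 360408156087) (l 3)) (l 3))))) (a (a (b (b (b (l 204178724199) (l 315847869575)) (l 393694155111)) (l 3)) (l 3)) (l 3))) (a (a (b (a (b (l 176261435575) (b (l 291688677111) (l 364166251783))) (b (b (l 313163514551) (l 391009798103)) (l 3))) (l 3)) (l 3)) (l 3)))) (a (b (b (a (l 16779064) (a (a (b (l 16772064) (a (l 16774656) (l 229948528583))) (b (a (l 16775248)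 (l 292762419111)) (l 378661765943))) (a (l 404968439015) (l 3)))) (a (a (l 16766488) (a (b (l 16770944) (l 16777208)) (b (l 197199402103) (l 338933317879)))) (a (a (b (l 358260670935) (l 3)) (l 3)) (l 3)))) (a (b (a (a (l 16771656) (b (l 16774024) (l 301889223495))) (a (b (l 320142835847) (l 3)) (l 3))) (a (a (b (l 286319968007) (l 403894697239)) (l 3)) (l 3))) (l 3))) (l 3))) (l 3)) (l 3)) (l 3)) (l 3)), by decide +kernel⟩

theorem s27_mm_202_s : ∃ t, chk3 f_mm_202_s t 28 10 1 = true := ex3_b k21_mm_202_s k22_mm_202_s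

theorem s28_mm_202_s : ∃ t, chk3 f_mm_202_s t 14 10 1 = true := ex3_a s27_mm_202_s k23_mm_202_s

theorem s29_mm_202_s : ∃ t, chk3 f_mm_202_s t 7 10 1 = true := ex3_a s28_mm_202_s k24_mm_202_s

theorem s30_mm_202_s : ∃ t, chk3 f_mm_202_s t 7 5 1 = true := ex3_b s29_mm_202_s k25_mm_202_s

theorem s31_mm_202_s : ∃ t, chk3 f_mm_202_s t 13 11 1 = true := ex3_b k19_mm_202_s k20_mm_202_s

theorem s32_mm_202_s : ∃ t, chk3 f_mm_202_s t 6 11 1 = true := ex3_a k18_mm_202_s s31_mm_202_s

theorem s33_mm_202_s : ∃ t, chk3 f_mm_202_s t 6 10 1 = true := ex3_a k16_mm_202_s k17_mm_202_s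

theorem s34_mm_202_s : ∃ t, chk3 f_mm_202_s t 6 5 1 = true := ex3_b s33_mm_202_s s32_mm_202_s

theorem s35_mm_202_s : ∃ t, chk3 f_mm_202_s t 3 5 1 = true := ex3_a s34_mm_202_s s30_mm_202_s

theorem s36_mm_202_s : ∃ t, chk3 f_mm_202_s t 14 9 1 = true := ex3_b k13_mm_202_s k14_mm_202_s

theorem s37_mm_202_s : ∃ t, chk3 f_mm_202_s t 7 9 1 = true := ex3_a s36_mm_202_s k15_mm_202_s

theorem s38_mm_202_s : ∃ t, chk3 f_mm_202_s t 124 34 1 = true := ex3_b k8_mm_202_s k9_mm_202_s

theorem s39_mm_202_s : ∃ t, chk3 f_mm_202_s t 62 34 1 = true := ex3_a s38_mm_202_s k10_mm_202_s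

theorem s40_mm_202_s : ∃ t, chk3 f_mm_202_s t 62 17 1 = true := ex3_b s39_mm_202_s k11_mm_202_s

theorem s41_mm_202_s : ∃ t, chk3 f_mm_202_s t 31 17 1 = true := ex3_a s40_mm_202_s k12_mm_202_s

theorem s42_mm_202_s : ∃ t, chk3 f_mm_202_s t 30 35 1 = true := ex3_a k6_mm_202_s k7_mm_202_s

theorem s43_mm_202_s : ∃ t, chk3 f_mm_202_s t 30 17 1 = true := ex3_b k5_mm_202_s s42_mm_202_s

theorem s44_mm_202_s : ∃ t, chk3 f_mm_202_s t 15 17 1 = true := ex3_a s43_mm_202_s s41_mm_202_s

theorem s45_mm_202_s : ∃ t, chk3 f_mm_202_s t 15 8 1 = true := ex3_b k4_mm_202_s s44_mm_202_s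

theorem s46_mm_202_s : ∃ t, chk3 f_mm_202_s t 7 8 1 = true := ex3_a k3_mm_202_s s45_mm_202_s

theorem s47_mm_202_s : ∃ t, chk3 f_mm_202_s t 7 4 1 = true := ex3_b s46_mm_202_s s37_mm_202_s

theorem s48_mm_202_s : ∃ t, chk3 f_mm_202_s t 3 4 1 = true := ex3_a k2_mm_202_s s47_mm_202_s

theorem s49_mm_202_s : ∃ t, chk3 f_mm_202_s t 3 2 1 = true := ex3_b s48_mm_202_s s35_mm_202_s

theorem s50_mm_202_s : ∃ t, chk3 f_mm_202_s t 3 1 1 = true := ex3_b s49_mm_202_s k26_mm_202_s

theorem s51_mm_202_s : ∃ t, chk3 f_mm_202_s t 2 1 1 = true := ex3_b k0_mm_202_s k1_mm_202_s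

theorem s52_mm_202_s : ∃ t, chk3 f_mm_202_s t 1 1 1 = true := ex3_a s51_mm_202_s s50_mm_202_s

theorem c_mm_202_s : CertNE 0 536870912 1073741824 536870912 697932185 42949674 3 eng mog cd0q2 cd7q2 pd0 false false false .pp 2 0 2
    ndB0q2 ndB7q2 pcB0 cut_mm_202_s Ext.none :=
  certNE1 (fam := false) (s1 := false) (s2 := false) (a := 2) (b := 0) (c := 2) (cn := .pp) (n1 := ndB0q2) (n2 := ndB7q2) (pc := pcB0) (cut := cut_mm_202_s) (xt := Ext.none) (P1 := 0) (W1 := 536870912) (P2 := 1073741824) (W2 := 536870912) (P3 := 697932185) (W3 := 42949674) (N0 := 3) (En := eng) (mo := mog) (C1 := cd0q2) (C2 := cd7q2) (C3 := pd0)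
    rfl (fun _ => rfl) s52_mm_202_s

noncomputable def cut_mm_203_s : Cut := Cut.of [[⟨4, 0, 0, 1449551462⟩]]

noncomputable def f_mm_203_s : ℕ → ℕ → ℕ → ℕ → Bool := onCell 0 536870912 0 1230186008 697932185 42949674
    (rowNE 3 eng mog cd0q2 cd7q3 pd0 0 false false false .up 2 0 3 (qsf 0 536870912 0 1230186008 0) ndB0q2 ndB7q3 pcB0 cut_mm_203_s Ext.none)

def k0_mm_203_s : ∃ t, chk3 f_mm_203_s t 1 2 1 = true :=
  ⟨(l 2), by decide +kernel⟩

def k1_mm_203_s : ∃ t, chk3 f_mm_203_s t 1 6 1 = true :=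
  ⟨(l 2), by decide +kernel⟩

def k2_mm_203_s : ∃ t, chk3 f_mm_203_s t 2 14 1 = true :=
  ⟨(a (b (l 2) (b (l 2) (a (a (b (l 16768496) (l 16764656)) (a (b (l 16771680) (l 16768368)) (l 365709765735))) (a (b (b (l 6258941749287) (a (l 244444028839) (l 344302019495))) (a (l 16773640) (a (b (l 255718325495) (l 16775280)) (b (l 346449505111) (l 259476431799))))) (l 3))))) (l 3)), by decide +kernel⟩

def k3_mm_203_s : ∃ t, chk3 f_mm_203_s t 2 30 1 = true :=
  ⟨(a (a (a (b (l 16757152) (l 16744168)) (b (b (a (l 16764040) (l 16767016)) (l 16760392)) (l 16751176))) (b (a (b (a (l 16770032) (b (l 16774512) (l 16772648))) (a (l 16765736) (l 16769504))) (a (b (a (b (a (l 257865819751) (l 331953992903)) (l 238538450535)) (b (l 3) (a (l 312089771111) (l 348060118823)))) (a (l 16772752) (b (l 243907160103) (l 16774048)))) (b (l 3) (a (b (l 332490862807) (a (l 16775848) (l 260013292487))) (b (l 3) (l 344302021527)))))) (a (a (b (l 16760072) (l 16753752)) (b (l 16764744) (l 16758392)))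 (a (b (l 16769376) (l 16764088)) (b (a (l 16773184) (b (a (l 244444032119) (l 313163512727)) (l 16774640))) (l 16769456)))))) (a (b (l 3) (a (a (b (a (b (l 363092502119) (a (l 259476434071) (l 327659026247))) (l 3)) (a (b (l 16774992) (l 16772392)) (b (a (l 268603237447) (l 347523248743)) (l 243370288391)))) (b (l 3) (a (b (l 3) (a (l 321753447271) (l 366850600343))) (l 3)))) (l 3))) (l 3))), by decide +kernel⟩

def k4_mm_203_s : ∃ t, chk3 f_mm_203_s t 2 31 1 = true :=
  ⟨(a (a (b (a (l 16726304) (l 16734928)) (a (l 16703448) (l 16711224))) (b (a (l 16744272) (b (a (l 16757024) (l 16784544)) (a (l 16748968) (l 16755664)))) (a (l 16723264) (l 16736976)))) (a (b (a (a (b (l 16769592) (l 16783960)) (b (a (b (a (l 16774984) (l 258939564007)) (l 16772912)) (b (l 341080797239) (a (l 16775424) (l 266455743319)))) (b (l 16771544) (l 16768144)))) (a (b (b (l 3) (l 362555629095)) (a (b (a (l 250886497959) (l 316921609239)) (l 16773656)) (b (l 364703115399) (a (l 254644594599) (l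 324974672087))))) (l 3))) (a (b (a (l 16753992) (l 16762312)) (a (l 16743080) (b (l 16754816) (l 16748536)))) (b (a (b (a (l 16770168) (l 16774048)) (l 16768272)) (a (b (a (l 266992614631) (l 334638347623)) (l 239612208519)) (b (l 3) (a (l 305647309959) (l 346986377815))))) (a (b (l 16763776) (l 16758472)) (b (a (l 16770464) (a (l 16773776) (l 248202144311))) (l 16768232)))))) (b (l 3) (a (b (l 3) (a (a (b (a (l 311552899879) (l 3)) (a (l 16774160) (l 268066361383))) (b (l 3) (l 328195896103))) (l 3))) (l 3))))), by decide +kernel⟩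

def k5_mm_203_s : ∃ t, chk3 f_mm_203_s t 3 7 1 = true :=
  ⟨(l 3), by decide +kernel⟩

theorem s6_mm_203_s : ∃ t, chk3 f_mm_203_s t 2 15 1 = true := ex3_b k3_mm_203_s k4_mm_203_s

theorem s7_mm_203_s : ∃ t, chk3 f_mm_203_s t 2 7 1 = true := ex3_b k2_mm_203_s s6_mm_203_s

theorem s8_mm_203_s : ∃ t, chk3 f_mm_203_s t 1 7 1 = true := ex3_a s7_mm_203_s k5_mm_203_s

theorem s9_mm_203_s : ∃ t, chk3 f_mm_203_s t 1 3 1 = true := ex3_b k1_mm_203_s s8_mm_203_s

theorem s10_mm_203_s : ∃ t, chk3 f_mm_203_s t 1 1 1 = true := ex3_b k0_mm_203_s s9_mm_203_s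

theorem c_mm_203_s : CertNE 0 536870912 0 1230186008 697932185 42949674 3 eng mog cd0q2 cd7q3 pd0 false false false .up 2 0 3
    ndB0q2 ndB7q3 pcB0 cut_mm_203_s Ext.none :=
  certNE0 (fam := false) (s1 := false) (s2 := false) (a := 2) (b := 0) (c := 3) (cn := .up) (n1 := ndB0q2) (n2 := ndB7q3) (pc := pcB0) (cut := cut_mm_203_s) (xt := Ext.none) (P1 := 0) (W1 := 536870912) (P2 := 0) (W2 := 1230186008) (P3 := 697932185) (W3 := 42949674) (N0 := 3) (En := eng) (mo := mog) (C1 := cd0q2) (C2 := cd7q3) (C3 := pd0)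
    rfl s10_mm_203_s

noncomputable def cut_mm_213_s : Cut := Cut.of [[⟨4, 0, 0, 1449551462⟩]]

noncomputable def f_mm_213_s : ℕ → ℕ → ℕ → ℕ → Bool := onCell 0 536870912 0 1230186008 697932185 42949674
    (rowNE 3 eng mog cd0q2 cd7q3 pd1 0 false false false .pnn 2 1 3 (qsf 0 536870912 0 1230186008 1) ndB0q2 ndB7q3 pcB1 cut_mm_213_s Ext.none)

def k0_mm_213_s : ∃ t, chk3 f_mm_213_s t 1 1 1 = true :=
  ⟨(a (b (l 3) (b (b (l 3) (a (l 3) (l 3))) (b (a (b (a (a (b (a (b (l 298667994711) (a (l 16774904) (l 238001583287))) (b (l 3) (l 314774119831))) (a (b (l 16773056) (l 16769968)) (b (b (l 281488148855) (l 230485397975)) (l 16774008)))) (b (l 3) (a (b (l 344838888359) (b (l 296520512119) (a (l 16775960) (l 299204868231)))) (l 3)))) (l 3)) (b (b (a (a (l 16767040) (a (b (l 219747980135) (l 16773944)) (a (b (l 316921607303) (l 238001594839)) (l 333564602103)))) (l 3)) (a (a (l 16762216) (a (l 16771120) (a (l 16774568) (b (l 284172482535) (l 16775736))))) (a (a (a (b (l 3) (l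 293836159399)) (l 3)) (l 3)) (l 3)))) (b (a (a (l 16757984) (l 16768376)) (a (b (a (a (l 16775928) (l 304573576791)) (l 3)) (a (a (l 16774160) (l 226190434455)) (l 331953988551))) (l 3))) (l 1)))) (l 3)) (b (a (l 1) (a (l 1) (l 3))) (l 1))))) (b (b (l 5) (l 3)) (b (l 3) (l 3)))), by decide +kernel⟩

theorem c_mm_213_s : CertNE 0 536870912 0 1230186008 697932185 42949674 3 eng mog cd0q2 cd7q3 pd1 false false false .pnn 2 1 3
    ndB0q2 ndB7q3 pcB1 cut_mm_213_s Ext.none :=
  certNE0 (fam := false) (s1 := false) (s2 := false) (a := 2) (b := 1) (c := 3) (cn := .pnn) (n1 := ndB0q2) (n2 := ndB7q3) (pc := pcB1) (cut := cut_mm_213_s) (xt := Ext.none) (P1 := 0) (W1 := 536870912) (P2 := 0) (W2 := 1230186008) (P3 := 697932185) (W3 := 42949674) (N0 := 3) (En := eng) (mo := mog) (C1 := cd0q2) (C2 := cd7q3) (C3 := pd1)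
    rfl k0_mm_213_s

end Pool.Agent.Strip051.G.I6500_6900.Tab.CS.BB07

namespace Pool.Agent.Strip051.G.I6500_6900.Tab.CS.BB70

open Pool.Agent.Strip051.PB Pool.Agent.Strip051.PB.T
open Pool.Agent.Strip051.G.I6500_6900.Tab

noncomputable def cut_pp_001_s : Cut := Cut.of [[⟨4, 0, 0, 1449551462⟩]]

noncomputable def f_pp_001_s : ℕ → ℕ → ℕ → ℕ → Bool := onCell 0 536870912 536870912 536870912 697932185 42949674
    (rowNE 3 eng mog cd7q0 cd0q1 pd0 2 false true true .up 0 0 1 (qsf 0 536870912 536870912 536870912 0) ndB7q0 ndB0q1 pcB0 cut_pp_001_s Ext.none)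

def k0_pp_001_s : ∃ t, chk3 f_pp_001_s t 2 1 1 = true :=
  ⟨(b (l 3) (b (b (l 3) (l 2)) (l 2))), by decide +kernel⟩

def k1_pp_001_s : ∃ t, chk3 f_pp_001_s t 6 2 1 = true :=
  ⟨(l 3), by decide +kernel⟩

def k2_pp_001_s : ∃ t, chk3 f_pp_001_s t 7 4 1 = true :=
  ⟨(l 3), by decide +kernel⟩

def k3_pp_001_s : ∃ t, chk3 f_pp_001_s t 14 10 1 = true :=
  ⟨(l 3), by decide +kernel⟩

def k4_pp_001_s : ∃ t, chk3 f_pp_001_s t 28 11 1 = true :=
  ⟨(b (l 3) (b (a (l 3) (b (l 3) (a (l 3) (b (l 3) (a (l 3) (b (l 3) (a (l 3) (l 342154542679)))))))) (a (b (l 3) (a (l 3) (b (l 472077297063) (a (l 423222047447) (b (l 290614935287) (l 16774824)))))) (b (a (b (l 3) (a (l 3) (b (l 427517015655) (a (l 360945024295) (l 16775704))))) (b (a (b (l 482277847559) (a (l 439328176343) (l 203641852135))) (b (a (l 263771395303) (l 16774864)) (l 16773208))) (a (b (l 148344147479) (l 16772256)) (l 16768992)))) (a (b (a (b (l 372756183767) (l 181630145319)) (l 16772696)) (l 16779992)) (l 16784064)))))),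 by decide +kernel⟩

def k5_pp_001_s : ∃ t, chk3 f_pp_001_s t 29 44 1 = true :=
  ⟨(l 3), by decide +kernel⟩

def k6_pp_001_s : ∃ t, chk3 f_pp_001_s t 29 45 1 = true :=
  ⟨(a (l 3) (b (a (l 3) (b (a (l 3) (b (l 3) (b (l 3) (b (l 3) (a (l 3) (a (l 3) (a (l 3) (c (l 359334412151) (l 363629379415))))))))) (a (a (l 3) (b (l 3) (b (l 3) (a (l 481740978919) (b (c (l 379735505319) (l 385104214391)) (c (l 225653552359) (l 224042939687))))))) (b (b (a (l 3) (b (a (l 3) (a (c (l 324974671095) (l 319605964439)) (l 16776632))) (a (a (l 472077303191) (c (l 266455741943) (l 266992612919))) (l 16776192)))) (a (a (l 3) (a (l 452749950199) (b (l 452749950471) (l 226727295015)))) (b (a (a (a (l 271824452135) (l 16776896)) (l 16776408)) (l 16775432)) (l 16777944)))) (a (a (b (a (c (l 409263406615) (l 415705857479)) (b (l 385641086727) (l 16776720))) (l 16777216)) (a (c (l 92509567335) (l 87677729383)) (l 16777664))) (l 16776048)))))) (a (b (a (l 3) (b (l 3) (a (l 3) (a (b (l 3) (a (l 434496339287)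 (b (l 426980146791) (l 16776864)))) (b (a (l 469392948327) (b (l 473151044983) (l 216526749687))) (c (l 154786592567) (l 155323463463))))))) (a (b (a (l 3) (l 501605201335)) (a (c (l 483351591015) (l 492478396183)) (a (b (l 440401919063) (l 163376531239)) (a (b (l 262160779367) (l 16775664)) (l 16777096))))) (b (b (a (b (l 445770627303) (a (l 504826428391) (a (l 296520516535) (l 16776632)))) (l 54391734935)) (a (a (a (l 315847869895) (l 166597756279)) (l 16775816)) (l 16773896))) (l 16778168)))) (b (a (a (a (b (b (l 3) (c (l 426443275527) (l 433422597255))) (a (b (b (l 324974671159) (l 16776456)) (l 16775320)) (l 16776744))) (b (b (l 458655529943) (a (b (l 358797541735) (l 16776688)) (l 16776416))) (l 16777088))) (b (a (b (a (b (l 441475661367) (l 213842393303)) (c (l 183240750887) (l 183240750855))) (l 16775456)) (l 16777544)) (l 16777784))) (a (l 16776720) (l 16779376))) (a (l 16774560) (l 16764184)))))), by decide +kernel⟩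

def k7_pp_001_s : ∃ t, chk3 f_pp_001_s t 29 23 1 = true :=
  ⟨(b (a (b (a (b (l 3) (a (l 3) (l 498383973095))) (b (a (l 3) (b (a (l 3) (a (l 3) (b (l 3) (l 287393713383)))) (b (a (l 498383976599) (a (l 260550167415) (l 16775904))) (a (c (l 338396446471) (l 342691413735)) (l 16775032))))) (a (b (a (l 3) (a (l 424295791415) (a (l 337322704679) (l 235854105383)))) (a (b (l 392083537111) (l 180019530455)) (l 16774840))) (b (a (l 116131891079) (l 16772800)) (l 16771104))))) (a (b (a (l 482277846855) (b (a (l 480667236311) (a (l 325511544695) (l 16777504))) (a (c (l 177872047735) (l 262697639879)) (l 16773896)))) (a (b (a (l 380809247783) (l 151028501239)) (l 16774160)) (l 16770784))) (a (l 16776664) (l 16774352)))) (b (a (b (a (b (b (a (a (l 369534959207) (l 16776376)) (l 16774480)) (l 56002348279)) (l 16777240)) (l 16778912)) (l 16775544)) (l 16778864)) (a (l 16777400) (l 16746416)))) (a (a (b (l 16775216) (l 16753728)) (l 16770616)) (l 16777072))), by decide +kernel⟩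

def k8_pp_001_s : ∃ t, chk3 f_pp_001_s t 30 10 1 = true :=
  ⟨(b (l 3) (b (l 3) (a (l 3) (b (a (l 3) (b (l 3) (a (l 3) (b (l 3) (a (l 3) (l 510732006711)))))) (a (b (l 3) (a (l 3) (b (l 3) (a (l 3) (a (l 491941525655) (b (l 494089009895) (a (l 337859571527) (l 16776656)))))))) (b (a (a (l 3) (a (l 3) (a (l 499457717079) (b (l 3) (l 425369530951))))) (b (a (l 490330912455) (a (b (l 473687915511) (l 222432325751)) (a (l 207936810359) (l 16775968)))) (a (b (a (l 418927082887) (l 189146329895)) (l 122037466295)) (l 16774200)))) (a (b (b (a (l 3) (a (l 363092505831) (l 16776272))) (a (a (l 512342620711) (l 338396443735)) (l 16775520))) (b (a (a (a (l 330343378247) (l 218674230423)) (l 16775944)) (l 16774168)) (l 16776616))) (l 16776584)))))))), by decide +kernel⟩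

def k9_pp_001_s : ∃ t, chk3 f_pp_001_s t 31 10 1 = true :=
  ⟨(b (b (l 3) (a (l 3) (b (l 3) (a (l 3) (b (a (l 3) (b (l 3) (a (l 3) (l 429664500455)))) (a (b (l 3) (a (l 3) (c (l 393157273751) (l 393694144583)))) (b (a (l 411410884455) (l 161765911671)) (a (l 16775256) (l 16774032))))))))) (b (a (b (l 3) (a (l 3) (b (a (l 3) (b (l 497847103943) (a (l 466171721847) (a (l 266455736615) (l 16776032))))) (a (b (a (l 3) (c (l 447381240327) (l 447381240183))) (b (a (l 514490103751) (l 223506065783)) (a (l 375440533959) (l 16775432)))) (a (a (b (l 250886481175) (l 16774424)) (l 16774568)) (l 16772984)))))) (b (a (b (a (l 3) (b (l 3) (a (l 3) (c (l 351281343159) (l 351818214055))))) (a (a (l 501605199895) (b (l 510732006663) (a (l 369534953991) (l 198273133671)))) (b (a (c (l 329269633255) (l 330343375063)) (l 16775256)) (l 16774008)))) (b (a (b (a (c (l 372756179367) (l 373293050231)) (l 16775704)) (l 16777136)) (l 16771776)) (l 16774520))) (a (b (a (a (b (a (l 339470183239) (l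 16776280)) (l 16774480)) (l 16773592)) (l 16770568)) (l 16778336)) (l 16783392)))) (a (b (a (b (a (l 3) (b (a (l 3) (a (l 483351591271) (a (l 394231020999) (l 267529479367)))) (b (a (l 463487367799) (l 146196656503)) (a (a (l 402820955655) (l 16776504)) (l 16774824))))) (a (b (a (l 3) (b (l 429127627175) (a (l 340007053607) (l 16776216)))) (a (c (b (l 394767889239) (l 208473680647)) (b (l 395841630999) (l 207936809943))) (l 16774848))) (a (b (l 16777776) (l 16772584)) (l 16776872)))) (b (a (b (a (c (l 145122913527) (l 145122913639)) (l 16773576)) (l 16777392)) (l 16769128)) (l 16776672))) (a (a (b (l 16777312) (l 16766760)) (l 16775408)) (l 16779392))) (b (a (l 16781448) (l 16752784)) (l 16746424))))), by decide +kernel⟩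

def k10_pp_001_s : ∃ t, chk3 f_pp_001_s t 60 88 1 = true :=
  ⟨(a (l 3) (b (l 3) (a (l 3) (b (a (l 3) (c (l 508584523239) (l 506437039255))) (b (a (l 3) (a (l 471540431847) (a (c (l 336248960247) (l 337859573047)) (l 170892720071)))) (a (a (l 3) (c (l 443086273783) (l 446307499159))) (b (a (a (l 327659025351) (l 16776784)) (l 16775856)) (l 16777072)))))))), by decide +kernel⟩

def k11_pp_001_s : ∃ t, chk3 f_pp_001_s t 60 89 1 = true :=
  ⟨(a (b (l 3) (a (l 3) (b (a (l 3) (b (a (l 3) (c (l 481204108263) (l 482814720839))) (a (a (l 3) (b (l 3) (c (l 370071829079) (l 372756183623)))) (a (b (c (l 402284084999) (l 406042181351)) (c (l 16776760) (l 16776728))) (c (l 140291078615) (l 139217336839)))))) (b (a (a (l 3) (b (l 3) (b (c (l 438254435255) (l 443086273383)) (a (l 482277850695) (c (l 216526748439) (l 214916135751)))))) (a (b (a (b (l 423222050567) (a (l 328195897815) (l 16776936))) (l 16777296)) (l 16777528)) (l 16777928))) (a (b (a (c (l 472614173911) (l 473151044711))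 (b (a (c (l 335175219175) (l 338933316951)) (l 16776616)) (c (l 16776592) (l 16777200)))) (a (a (c (l 428590759559) (l 433422597719)) (a (c (l 259476420999) (l 260013291735)) (l 16777456))) (l 16777312))) (l 16777072)))))) (b (a (a (b (l 3) (b (l 3) (a (l 502678944439) (a (b (l 505900170535) (c (l 276656289239) (l 278803773047))) (b (a (l 325511542263) (l 261087033575)) (l 16776520)))))) (a (b (l 3) (b (a (c (l 422685178103) (l 426443274423)) (b (l 393694149111) (l 16776720))) (l 16777256))) (b (b (l 3) (a (l 462413626647) (b (l 455971175991) (l 149954757559)))) (c (l 72108472887) (l 73182214583))))) (a (b (a (a (b (l 488183430199) (b (l 250886485847) (l 16776296))) (b (c (l 373829924055) (l 376514279895)) (l 16776032))) (a (b (c (l 236390970423) (l 235317228695)) (l 16775408)) (l 16776824))) (l 16776160)) (l 16777760))) (a (b (a (a (b (a (b (l 465634852359) (c (l 232096004231) (l 231022262455))) (b (c (l 260013291271) (l 260013291415)) (l 16776320))) (l 16776832)) (l 16777616))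 (l 16778344)) (l 16776632)) (l 16778368)))), by decide +kernel⟩

def k12_pp_001_s : ∃ t, chk3 f_pp_001_s t 61 44 1 = true :=
  ⟨(b (a (b (a (b (l 3) (a (l 3) (a (a (l 479593495143) (b (l 3) (a (l 330343379031) (l 256792065127)))) (b (a (l 479593495735) (l 330343380983)) (l 16776256))))) (b (b (a (c (l 481204107815) (l 481740978551)) (a (a (l 270750707895) (l 16776488)) (l 16775592))) (a (a (l 421611436103) (a (l 245517775639) (l 16776312))) (l 16774816))) (a (a (b (l 165524010343) (l 16775048)) (l 16774536)) (l 16772736)))) (a (b (b (a (a (l 509121395255) (b (l 415705857591) (l 249275872087))) (l 16776776)) (a (a (a (c (l 362555634967) (l 364703118599)) (l 221358584999)) (l 16775888)) (l 16774056))) (l 16777080)) (l 16774976))) (c (l 16776408) (l 16776792))) (a (c (l 16774552) (l 16773448)) (l 16754112))), by decide +kernel⟩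

def k13_pp_001_s : ∃ t, chk3 f_pp_001_s t 30 45 1 = true :=
  ⟨(a (b (a (b (a (b (b (a (l 3) (a (l 3) (a (b (l 3) (a (l 442549403303) (b (l 311552899271) (l 16777048)))) (b (c (l 395304761815) (c (l 400136601303) (l 402820955847))) (c (l 16776768) (l 16776736)))))) (a (c (l 489794042007) (l 489257173431)) (a (a (b (l 3) (b (a (l 484962205367) (l 326048414407)) (l 210621168311))) (b (a (l 400673471623) (b (l 315847866855) (l 16776936))) (l 16776528))) (c (l 16777296) (l 16777224))))) (a (a (b (c (l 468319206375) (l 471540431687)) (a (b (c (l 393157279479) (l 397989117655)) (l 98952020503)) (c (l 134385498519) (l 133311756711)))) (b (a (b (l 458118659575) (c (l 229411649607) (l 229411649591))) (b (c (l 254107711271) (a (l 326048413607) (l 16776904))) (l 16776312))) (l 16776800))) (c (l 16777032) (l 16776888)))) (a (b (a (a (b (b (c (l 183777622551) (l 184314493431)) (l 16776104)) (l 16774960)) (l 16777696)) (l 16776728)) (l 16776944)) (l 16775904))) (a (c (l 16776448) (l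 16777544)) (l 16776328))) (b (l 16774848) (l 16758216))) (a (b (l 16772952) (l 16756504)) (l 16749176))) (b (l 16767848) (l 16734456))), by decide +kernel⟩

def k14_pp_001_s : ∃ t, chk3 f_pp_001_s t 30 23 1 = true :=
  ⟨(b (a (b (l 16763696) (l 16731432)) (l 16716984)) (a (l 16715544) (l 16695984))), by decide +kernel⟩

def k15_pp_001_s : ∃ t, chk3 f_pp_001_s t 31 11 1 = true :=
  ⟨(b (a (b (a (b (l 16777328) (l 16745144)) (l 16742240)) (l 16723208)) (b (l 16730536) (l 16707928))) (b (l 16732320) (l 16656952))), by decide +kernel⟩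

def k16_pp_001_s : ∃ t, chk3 f_pp_001_s t 12 6 1 = true :=
  ⟨(b (b (l 3) (a (l 3) (b (l 3) (a (l 3) (b (l 3) (a (b (l 3) (l 2)) (b (a (l 3) (b (l 530059359015) (a (l 450065594967) (l 16776272)))) (a (b (l 423222049127) (l 2)) (l 16779656))))))))) (b (a (l 2) (a (l 2) (a (l 2) (a (l 2) (b (l 46808425655) (l 2)))))) (l 2))), by decide +kernel⟩

def k17_pp_001_s : ∃ t, chk3 f_pp_001_s t 13 6 1 = true :=
  ⟨(b (a (b (l 3) (b (a (b (l 3) (a (l 3) (b (l 3) (a (l 3) (l 378124892247))))) (b (a (l 503752677351) (b (a (l 3) (l 355576314279)) (a (l 297594257143) (l 16772456)))) (a (b (a (l 446844367479) (b (l 238538467239) (l 16774152))) (a (l 109689446151) (l 16768816))) (l 16775120)))) (a (b (a (b (l 528448742359) (a (l 467245462215) (b (l 232096017495) (l 16773984)))) (b (a (b (l 421611436103) (l 145122925975)) (l 16772264)) (l 16777976))) (a (b (a (b (l 139217346263) (l 16771912)) (l 16768144)) (l 16784072)) (l 16776704))) (a (b (l 16781368) (l 16744704)) (l 16772664))))) (b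 (b (a (l 3) (b (l 3) (a (b (l 3) (l 416779594775)) (b (a (l 449528721303) (b (l 368461216423) (l 196125659831))) (a (l 215453016295) (l 16772144)))))) (a (b (a (l 3) (b (l 3) (a (l 3) (l 319605963895)))) (a (b (l 459192395463) (a (l 408189662311) (l 185388245991))) (b (a (b (l 346449509271) (l 16775488)) (l 16772472)) (l 16768656)))) (b (a (b (a (l 369534957623) (l 183240760119)) (l 133848635767)) (l 16776672)) (a (l 16783872) (l 16754408))))) (b (a (b (a (b (a (l 16779328) (l 16769272)) (l 16765056)) (l 16758920)) (a (l 16754536) (l 16744784))) (b (l 16766384) (l 16730848))) (a (a (l 16752424) (l 16721320)) (l 16727752))))) (a (b (a (b (a (b (l 16772264) (l 16735896)) (l 16753296)) (l 16749880)) (b (b (l 16723432) (l 16708256)) (l 16707168))) (b (a (l 2) (l 16657776)) (l 2))) (b (a (b (l 16715232) (l 16664664)) (b (l 16673592) (l 16643280))) (b (l 16626008) (l 16597000))))), by decide +kernel⟩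

def k18_pp_001_s : ∃ t, chk3 f_pp_001_s t 6 7 1 = true :=
  ⟨(b (a (l 2) (b (a (l 2) (l 123580618071)) (l 2))) (l 2)), by decide +kernel⟩

def k19_pp_001_s : ∃ t, chk3 f_pp_001_s t 7 3 1 = true :=
  ⟨(b (b (a (b (a (b (a (b (a (b (a (l 3) (l 381882988375)) (a (b (l 424295790135) (l 232632884135)) (l 152102244775))) (b (a (b (l 209010562967) (l 16773824)) (l 16770784)) (l 16767664))) (a (b (l 16776280) (l 16765840)) (l 16759816))) (b (l 16777968) (l 16746528))) (a (b (l 16774560) (l 16741672)) (l 16729904))) (b (a (l 16754296) (l 16714480)) (l 16755184))) (a (b (a (l 16741816) (l 16703280)) (a (l 16688112) (l 16670368))) (b (a (l 16685392) (l 16667760)) (l 16644392)))) (b (a (b (l 16728032) (l 16645216)) (b (l 16649504) (l 16630384))) (a (b (l 16641216) (l 16609760)) (l 16611656)))) (a (a (b (b (a (l 16653968) (l 16635320)) (l 16613296)) (b (l 16584736) (l 16556464))) (b (l 16613880) (l 16553104))) (b (a (l 16558464) (l 16525800)) (a (l 16497624) (l 16465112))))) (b (a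 (b (a (l 16510928) (l 16472792)) (a (l 16436432) (l 16421808))) (b (a (l 16478664) (l 16404616)) (l 16350736))) (a (b (l 126801480823) (l 2)) (b (l 16481128) (l 6))))), by decide +kernel⟩

theorem s20_pp_001_s : ∃ t, chk3 f_pp_001_s t 6 6 1 = true := ex3_a k16_pp_001_s k17_pp_001_s

theorem s21_pp_001_s : ∃ t, chk3 f_pp_001_s t 6 3 1 = true := ex3_b s20_pp_001_s k18_pp_001_s

theorem s22_pp_001_s : ∃ t, chk3 f_pp_001_s t 3 3 1 = true := ex3_a s21_pp_001_s k19_pp_001_s

theorem s23_pp_001_s : ∃ t, chk3 f_pp_001_s t 60 44 1 = true := ex3_b k10_pp_001_s k11_pp_001_s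

theorem s24_pp_001_s : ∃ t, chk3 f_pp_001_s t 30 44 1 = true := ex3_a s23_pp_001_s k12_pp_001_s

theorem s25_pp_001_s : ∃ t, chk3 f_pp_001_s t 30 22 1 = true := ex3_b s24_pp_001_s k13_pp_001_s

theorem s26_pp_001_s : ∃ t, chk3 f_pp_001_s t 30 11 1 = true := ex3_b s25_pp_001_s k14_pp_001_s

theorem s27_pp_001_s : ∃ t, chk3 f_pp_001_s t 15 11 1 = true := ex3_a s26_pp_001_s k15_pp_001_s

theorem s28_pp_001_s : ∃ t, chk3 f_pp_001_s t 15 10 1 = true := ex3_a k8_pp_001_s k9_pp_001_s

theorem s29_pp_001_s : ∃ t, chk3 f_pp_001_s t 15 5 1 = true := ex3_b s28_pp_001_s s27_pp_001_s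

theorem s30_pp_001_s : ∃ t, chk3 f_pp_001_s t 29 22 1 = true := ex3_b k5_pp_001_s k6_pp_001_s

theorem s31_pp_001_s : ∃ t, chk3 f_pp_001_s t 29 11 1 = true := ex3_b s30_pp_001_s k7_pp_001_s

theorem s32_pp_001_s : ∃ t, chk3 f_pp_001_s t 14 11 1 = true := ex3_a k4_pp_001_s s31_pp_001_s

theorem s33_pp_001_s : ∃ t, chk3 f_pp_001_s t 14 5 1 = true := ex3_b k3_pp_001_s s32_pp_001_s

theorem s34_pp_001_s : ∃ t, chk3 f_pp_001_s t 7 5 1 = true := ex3_a s33_pp_001_s s29_pp_001_s

theorem s35_pp_001_s : ∃ t, chk3 f_pp_001_s t 7 2 1 = true := ex3_b k2_pp_001_s s34_pp_001_s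

theorem s36_pp_001_s : ∃ t, chk3 f_pp_001_s t 3 2 1 = true := ex3_a k1_pp_001_s s35_pp_001_s

theorem s37_pp_001_s : ∃ t, chk3 f_pp_001_s t 3 1 1 = true := ex3_b s36_pp_001_s s22_pp_001_s

theorem s38_pp_001_s : ∃ t, chk3 f_pp_001_s t 1 1 1 = true := ex3_a k0_pp_001_s s37_pp_001_s

theorem c_pp_001_s : CertNE 0 536870912 536870912 536870912 697932185 42949674 3 eng mog cd7q0 cd0q1 pd0 false true true .up 0 0 1
    ndB7q0 ndB0q1 pcB0 cut_pp_001_s Ext.none :=
  certNE2 (fam := false) (s1 := true) (s2 := true) (a := 0) (b := 0) (c := 1) (cn := .up) (n1 := ndB7q0) (n2 := ndB0q1) (pc := pcB0) (cut := cut_pp_001_s) (xt := Ext.none) (P1 := 0) (W1 := 536870912) (P2 := 536870912) (W2 := 536870912) (P3 := 697932185) (W3 := 42949674) (N0 := 3) (En := eng) (mo := mog) (C1 := cd7q0) (C2 := cd0q1) (C3 := pd0)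
    rfl (fun _ => rfl) s38_pp_001_s

noncomputable def cut_pp_011_s : Cut := Cut.of [[⟨4, 0, 0, 1449551462⟩]]

noncomputable def f_pp_011_s : ℕ → ℕ → ℕ → ℕ → Bool := onCell 536870912 536870912 536870912 536870912 697932185 42949674
    (rowNE 3 eng mog cd7q0 cd0q1 pd1 2 false true true .pnn 0 1 1 (qsf 0 536870912 536870912 536870912 1) ndB7q0 ndB0q1 pcB1 cut_pp_011_s Ext.none)

def k0_pp_011_s : ∃ t, chk3 f_pp_011_s t 8 8 1 = true :=
  ⟨(l 3), by decide +kernel⟩

def k1_pp_011_s : ∃ t, chk3 f_pp_011_s t 16 9 1 = true :=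
  ⟨(b (l 3) (a (l 3) (b (l 3) (b (l 3) (a (l 3) (b (l 3) (a (l 3) (b (a (l 3) (c (l 433422596839) (b (l 3) (l 401210340007)))) (b (a (l 3) (a (l 321216572743) (l 16776448))) (a (c (l 385104215511) (l 384567341895)) (l 16775968))))))))))), by decide +kernel⟩

def k2_pp_011_s : ∃ t, chk3 f_pp_011_s t 17 18 1 = true :=
  ⟨(b (l 3) (a (l 3) (a (l 3) (b (l 3) (a (l 3) (b (l 3) (b (l 3) (a (l 3) (a (a (l 515026975527) (b (l 3) (a (l 375977410439) (l 220821714807)))) (b (a (l 490867785095) (a (l 382419861367) (l 226727294695))) (l 16776600))))))))))), by decide +kernel⟩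

def k3_pp_011_s : ∃ t, chk3 f_pp_011_s t 34 38 1 = true :=
  ⟨(b (l 3) (a (l 3) (b (l 3) (a (l 3) (b (a (l 3) (c (l 517174458263) (l 518785070727))) (b (a (l 3) (a (l 510732008455) (a (a (l 405505310487) (l 329806509495)) (l 148344142199)))) (a (l 511805750375) (a (a (a (l 392620406023) (l 248202131063)) (l 137069853159)) (l 16776224))))))))), by decide +kernel⟩

def k4_pp_011_s : ∃ t, chk3 f_pp_011_s t 34 39 1 = true :=
  ⟨(b (a (b (l 3) (a (l 3) (b (a (l 3) (c (l 498920847623) (b (l 3) (a (l 3) (l 453823690791))))) (a (c (l 471003560311) (b (l 3) (a (l 3) (c (l 414632115671) (l 414632114327))))) (c (b (a (l 438254435799) (l 16776816)) (l 16776384)) (b (a (c (l 442549403031) (l 445233756247)) (a (l 207936812695) (l 16776560))) (a (a (l 194515040055) (l 16776520)) (l 16775848)))))))) (b (a (b (a (l 3) (c (l 510195136583) (l 512342620631))) (b (a (l 3) (a (l 481204107831) (a (a (l 343765152871) (l 209010554871)) (l 16776744)))) (a (c (l 495162751735) (l 501068331607)) (a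 (a (a (l 343765153031) (l 194515040439)) (l 16776712)) (l 16776080))))) (a (b (a (b (l 499994590311) (a (a (l 364703118711) (l 222969198407)) (l 16776776))) (b (a (a (l 378661762359) (l 235854100183)) (l 16776480)) (l 16776152))) (l 16775256)) (l 16777072))) (a (a (b (c (b (a (l 458655530343) (l 186461975671)) (l 127943046391)) (b (a (l 464024239367) (a (l 234243487031) (l 16776640))) (a (a (l 224042939799) (l 16776608)) (l 16775936)))) (l 16775096)) (l 16776912)) (l 16771768)))) (a (b (a (b (a (l 3) (c (l 457044916711) (b (l 3) (a (l 3) (l 386714825751))))) (b (a (l 3) (a (l 375440536695) (l 16776632))) (a (a (l 3) (l 364166247607)) (l 16776160)))) (a (b (a (b (a (l 509121395927) (l 355039442215)) (l 127943047319)) (c (l 16776328) (b (l 140827949079) (l 16775752)))) (l 16774904)) (l 16776728))) (a (b (a (a (b (l 352355087607) (l 16776496)) (l 16776088)) (l 16774808)) (l 16773840)) (l 16771344))) (a (l 16775008) (l 16766416)))), by decide +kernel⟩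

def k5_pp_011_s : ∃ t, chk3 f_pp_011_s t 35 19 1 = true :=
  ⟨(b (a (b (b (l 3) (a (l 3) (b (l 3) (a (l 3) (a (b (l 3) (a (l 424295790967) (a (l 318532220391) (l 156934076967)))) (b (a (l 432885725527) (a (l 326048413111) (l 166597753271))) (l 16776448))))))) (a (b (b (l 3) (b (a (l 3) (a (l 521469426519) (c (l 330880249735) (a (l 399062856903) (l 189683201879))))) (a (l 520395684135) (a (c (l 323900928007) (a (l 388862309623) (l 180019525655))) (l 16776344))))) (a (b (a (b (l 516100717479) (a (a (l 418927083239) (l 339470185799)) (l 159081560263))) (b (a (a (l 431275114167) (l 345912636695)) (l 169282107479)) (l 16776280))) (l 16778024)) (l 16777216))) (b (a (b (a (b (l 3) (c (l 336248958743) (a (l 408189664983) (l 200420619927)))) (b (a (l 415168985495) (a (l 240685938263) (l 16776608))) (l 16776400))) (l 16776832)) (b (l 16776888) (l 16773856))) (l 16777336)))) (b (a (b (b (l 3) (a (l 3) (a (b (l 3) (a (l 457044917767) (a (l 346449507607) (l 194515040311)))) (b (a (l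 464024239591) (a (l 342154540119) (l 200957491207))) (l 16776528))))) (a (b (a (b (l 3) (a (l 440938790471) (a (l 335712089447) (l 176798300423)))) (b (a (l 448991854119) (a (l 341617669383) (l 184851364023))) (l 16776488))) (l 16776936)) (c (l 16774952) (l 16777304)))) (b (a (a (b (a (l 507510782807) (b (l 3) (a (l 343765152823) (l 207399942263)))) (l 16776784)) (b (b (a (l 477982883255) (a (l 343228281799) (l 214916134743))) (l 16776568)) (l 16775296))) (b (c (l 16775832) (l 16776976)) (l 16774056))) (l 16777576))) (a (l 16773776) (l 16767184)))) (a (b (a (l 16772808) (l 16766864)) (l 16761432)) (l 16779336))), by decide +kernel⟩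

def k6_pp_011_s : ∃ t, chk3 f_pp_011_s t 9 8 1 = true :=
  ⟨(a (a (l 3) (l 1)) (l 1)), by decide +kernel⟩

def k7_pp_011_s : ∃ t, chk3 f_pp_011_s t 36 36 1 = true :=
  ⟨(a (l 3) (b (l 3) (a (l 3) (b (l 3) (a (l 3) (b (l 3) (a (a (l 533817457255) (b (l 3) (l 378124891431))) (a (b (l 530596232407) (l 145122916503)) (a (l 237330493511) (l 185790886887)))))))))), by decide +kernel⟩

def k8_pp_011_s : ∃ t, chk3 f_pp_011_s t 36 37 1 = true :=
  ⟨(a (b (b (l 3) (a (l 3) (a (l 3) (b (l 3) (a (c (l 462950497319) (b (l 3) (c (l 415168986711) (l 417316467703)))) (b (a (l 522006297847) (l 366850602327)) (l 107005081863))))))) (a (b (b (l 3) (a (l 3) (a (a (l 520932555479) (b (l 3) (a (l 401210343207) (l 309942285879)))) (b (a (l 512879492407) (a (l 406579052311) (l 314774124023))) (l 97878276535))))) (a (a (b (a (l 518248200951) (b (l 3) (a (l 389399183191) (l 234780358231)))) (l 61371054663)) (b (b (a (l 502678945111) (a (l 395304763207) (l 236927841911))) (l 16776464)) (l 16775368)))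 (b (c (l 16775888) (l 50633636231)) (l 16774120)))) (b (a (a (b (c (l 458655530055) (b (l 3) (c (l 409800277623) (l 411410887719)))) (c (l 16776296) (l 16776352))) (b (b (a (l 519321943319) (a (l 415705857783) (l 323364058567))) (l 102710114663)) (l 16775416))) (b (c (l 16775928) (a (l 71571601703) (l 16775336))) (l 16774176))) (l 16777720)))) (b (a (b (a (l 3) (b (l 3) (a (a (l 530596231799) (b (l 3) (l 373829924151))) (a (b (l 527375006935) (l 145122916583)) (b (l 375440536887) (l 16776512)))))) (a (a (b (a (l 528448748167) (b (l 3) (l 369534956871))) (c (l 16776336) (l 73182214295))) (b (a (b (l 525227523303) (l 143512303815)) (b (l 371682440519) (l 16776504))) (l 16775456))) (b (c (l 16775952) (a (l 74255956071) (l 16775360))) (l 16774208)))) (b (a (a (b (a (l 532206844519) (b (l 3) (l 376514278711))) (c (l 16776352) (l 74255956039))) (b (a (b (l 529522490583) (l 146196658327)) (b (l 377588020519) (l 16776512))) (l 16775472))) (b (c (l 16775960) (a (b (l 110763178167)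 (l 16775816)) (l 16775376))) (l 16774216))) (l 16777784))) (a (b (l 16777760) (l 16769152)) (l 16767496)))), by decide +kernel⟩

def k9_pp_011_s : ∃ t, chk3 f_pp_011_s t 37 18 1 = true :=
  ⟨(b (a (b (l 1) (a (b (l 1) (a (b (l 1) (l 87543510951)) (l 1))) (l 1))) (l 1)) (b (a (a (b (l 16777792) (l 16769192)) (l 16767560)) (l 16762752)) (l 16780072))), by decide +kernel⟩

def k10_pp_011_s : ∃ t, chk3 f_pp_011_s t 18 19 1 = true :=
  ⟨(a (b (b (a (a (l 16773336) (l 16767392)) (l 16762400)) (l 16779856)) (l 16748440)) (b (l 16748848) (l 16735024))), by decide +kernel⟩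

def k11_pp_011_s : ∃ t, chk3 f_pp_011_s t 19 9 1 = true :=
  ⟨(b (b (l 1) (l 148209922839)) (a (l 16749272) (l 16715336))), by decide +kernel⟩

def k12_pp_011_s : ∃ t, chk3 f_pp_011_s t 8 10 1 = true :=
  ⟨(a (b (a (b (b (l 3) (a (l 3) (b (l 3) (a (l 498383973255) (b (a (l 3) (a (l 397989117159) (l 217063614391))) (a (a (l 377588022711) (l 193978165799)) (l 16775328))))))) (b (a (b (a (l 3) (b (l 3) (l 492478394951))) (a (a (l 3) (l 480130363623)) (b (a (l 472614172711) (a (l 320679698727) (l 16776240))) (a (a (l 307794797271) (l 16776056)) (l 16774552))))) (b (a (b (a (l 493015266967) (a (l 355576310295) (l 169818975287))) (a (a (l 323900923943) (l 16775096)) (l 16774960))) (l 16778384)) (a (l 16777928) (l 16768848)))) (a (a (b (b (a (l 435033209335) (c (l 170892715079) (l 172503327975))) (a (c (l 146733524823) (l 148881008599)) (l 16774088))) (l 16771616)) (a (l 16776128) (l 16779368))) (l 16774528)))) (b (b (a (b (l 3) (a (l 3) (b (a (l 3) (a (l 473687915063) (l 334638344951)))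 (a (a (l 455971175127) (l 315847863127)) (l 101636370743))))) (b (a (b (a (l 3) (c (l 406042180599) (b (l 513416362135) (l 366313728439)))) (a (a (l 496236493223) (l 352355084871)) (c (l 137069850071) (l 140291075559)))) (b (a (c (l 156397202535) (b (l 201494359559) (l 16775784))) (l 16774584)) (l 16773600))) (a (b (a (c (l 16776128) (l 115058143271)) (l 16774320)) (l 16778528)) (l 16770768)))) (a (b (a (b (a (l 3) (a (l 437180693367) (l 314774119463))) (a (a (l 417853340711) (l 236927837655)) (l 16775656))) (a (b (l 16775800) (l 16773832)) (l 16773024))) (a (a (l 16777096) (l 16772632)) (l 16769912))) (a (l 16778872) (l 16764936)))) (a (b (l 16775960) (l 16756736)) (l 16775176)))) (a (a (b (b (l 16772816) (l 16752184)) (l 16735896)) (b (l 16770696) (l 16728728))) (b (l 16770712) (l 16718768)))) (b (b (a (b (a (b (l 16774624) (l 16765648)) (l 16760800)) (l 16777472)) (l 16768088)) (a (l 16765200) (l 16731264))) (b (a (l 16726264) (l 16713624)) (l 16700136)))), by decide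 +kernel⟩

def k13_pp_011_s : ∃ t, chk3 f_pp_011_s t 8 11 1 = true :=
  ⟨(b (a (a (b (l 16709296) (l 16684680)) (b (l 16696672) (l 16672720))) (b (l 16699448) (l 16656688))) (a (b (a (l 16657632) (l 16647872)) (l 16625896)) (l 16618864))), by decide +kernel⟩

def k14_pp_011_s : ∃ t, chk3 f_pp_011_s t 9 5 1 = true :=
  ⟨(b (a (b (b (l 16769272) (l 16711704)) (b (l 16694056) (l 16675176))) (b (b (l 16699616) (l 16683760)) (l 16679432))) (b (a (l 16644376) (l 16618056)) (l 16648376))), by decide +kernel⟩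

def k15_pp_011_s : ∃ t, chk3 f_pp_011_s t 5 2 1 = true :=
  ⟨(b (a (b (l 1) (b (l 1) (a (l 160557942055) (l 1)))) (l 1)) (a (b (b (a (l 16727216) (l 16640544)) (l 16656040)) (b (l 16574408) (l 16533688))) (b (b (l 1) (l 16570064)) (b (l 16520216) (l 16472584))))), by decide +kernel⟩

def k16_pp_011_s : ∃ t, chk3 f_pp_011_s t 2 3 1 = true :=
  ⟨(b (a (b (a (b (a (l 16596896) (l 16563032)) (a (l 16547880) (l 16515224))) (b (l 16534424) (l 16484856))) (a (b (l 16490840) (l 16579432)) (b (l 16445440) (l 16371016)))) (b (a (b (l 16488832) (l 16447296)) (b (l 16429072) (l 16377920))) (a (b (l 16341592) (l 6)) (l 6)))) (a (b (a (b (l 16478752) (l 16304728)) (b (l 6) (l 6))) (l 6)) (l 6))), by decide +kernel⟩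

def k17_pp_011_s : ∃ t, chk3 f_pp_011_s t 3 1 1 = true :=
  ⟨(b (a (b (l 1) (a (b (l 1) (b (l 1) (l 212097342135))) (l 1))) (l 1)) (b (a (b (l 6) (l 6)) (l 6)) (l 6))), by decide +kernel⟩

theorem s18_pp_011_s : ∃ t, chk3 f_pp_011_s t 8 5 1 = true := ex3_b k12_pp_011_s k13_pp_011_s

theorem s19_pp_011_s : ∃ t, chk3 f_pp_011_s t 4 5 1 = true := ex3_a s18_pp_011_s k14_pp_011_s

theorem s20_pp_011_s : ∃ t, chk3 f_pp_011_s t 36 18 1 = true := ex3_b k7_pp_011_s k8_pp_011_s

theorem s21_pp_011_s : ∃ t, chk3 f_pp_011_s t 18 18 1 = true := ex3_a s20_pp_011_s k9_pp_011_s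

theorem s22_pp_011_s : ∃ t, chk3 f_pp_011_s t 18 9 1 = true := ex3_b s21_pp_011_s k10_pp_011_s

theorem s23_pp_011_s : ∃ t, chk3 f_pp_011_s t 9 9 1 = true := ex3_a s22_pp_011_s k11_pp_011_s

theorem s24_pp_011_s : ∃ t, chk3 f_pp_011_s t 9 4 1 = true := ex3_b k6_pp_011_s s23_pp_011_s

theorem s25_pp_011_s : ∃ t, chk3 f_pp_011_s t 34 19 1 = true := ex3_b k3_pp_011_s k4_pp_011_s

theorem s26_pp_011_s : ∃ t, chk3 f_pp_011_s t 17 19 1 = true := ex3_a s25_pp_011_s k5_pp_011_s

theorem s27_pp_011_s : ∃ t, chk3 f_pp_011_s t 17 9 1 = true := ex3_b k2_pp_011_s s26_pp_011_s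

theorem s28_pp_011_s : ∃ t, chk3 f_pp_011_s t 8 9 1 = true := ex3_a k1_pp_011_s s27_pp_011_s

theorem s29_pp_011_s : ∃ t, chk3 f_pp_011_s t 8 4 1 = true := ex3_b k0_pp_011_s s28_pp_011_s

theorem s30_pp_011_s : ∃ t, chk3 f_pp_011_s t 4 4 1 = true := ex3_a s29_pp_011_s s24_pp_011_s

theorem s31_pp_011_s : ∃ t, chk3 f_pp_011_s t 4 2 1 = true := ex3_b s30_pp_011_s s19_pp_011_s

theorem s32_pp_011_s : ∃ t, chk3 f_pp_011_s t 2 2 1 = true := ex3_a s31_pp_011_s k15_pp_011_s

theorem s33_pp_011_s : ∃ t, chk3 f_pp_011_s t 2 1 1 = true := ex3_b s32_pp_011_s k16_pp_011_s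

theorem s34_pp_011_s : ∃ t, chk3 f_pp_011_s t 1 1 1 = true := ex3_a s33_pp_011_s k17_pp_011_s

theorem c_pp_011_s : CertNE 0 536870912 536870912 536870912 697932185 42949674 3 eng mog cd7q0 cd0q1 pd1 false true true .pnn 0 1 1
    ndB7q0 ndB0q1 pcB1 cut_pp_011_s Ext.none :=
  certNE2 (fam := false) (s1 := true) (s2 := true) (a := 0) (b := 1) (c := 1) (cn := .pnn) (n1 := ndB7q0) (n2 := ndB0q1) (pc := pcB1) (cut := cut_pp_011_s) (xt := Ext.none) (P1 := 0) (W1 := 536870912) (P2 := 536870912) (W2 := 536870912) (P3 := 697932185) (W3 := 42949674) (N0 := 3) (En := eng) (mo := mog) (C1 := cd7q0) (C2 := cd0q1) (C3 := pd1)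
    rfl (fun _ => rfl) s34_pp_011_s

noncomputable def cut_pp_012_s : Cut := Cut.of [[⟨4, 0, 0, 1449551462⟩]]

noncomputable def f_pp_012_s : ℕ → ℕ → ℕ → ℕ → Bool := onCell 0 536870912 0 536870912 697932185 42949674
    (rowNE 3 eng mog cd7q0 cd0q2 pd1 0 false true true .pnp 0 1 2 (qsf 0 536870912 0 536870912 1) ndB7q0 ndB0q2 pcB1 cut_pp_012_s Ext.none)

def k0_pp_012_s : ∃ t, chk3 f_pp_012_s t 1 1 1 = true :=
  ⟨(a (l 6) (l 6)), by decide +kernel⟩

theorem c_pp_012_s : CertNE 0 536870912 0 536870912 697932185 42949674 3 eng mog cd7q0 cd0q2 pd1 false true true .pnp 0 1 2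
    ndB7q0 ndB0q2 pcB1 cut_pp_012_s Ext.none :=
  certNE0 (fam := false) (s1 := true) (s2 := true) (a := 0) (b := 1) (c := 2) (cn := .pnp) (n1 := ndB7q0) (n2 := ndB0q2) (pc := pcB1) (cut := cut_pp_012_s) (xt := Ext.none) (P1 := 0) (W1 := 536870912) (P2 := 0) (W2 := 536870912) (P3 := 697932185) (W3 := 42949674) (N0 := 3) (En := eng) (mo := mog) (C1 := cd7q0) (C2 := cd0q2) (C3 := pd1)
    rfl k0_pp_012_s

noncomputable def cut_pp_022_s : Cut := Cut.of [[⟨4, 0, 0, 1449551462⟩]]

noncomputable def f_pp_022_s : ℕ → ℕ → ℕ → ℕ → Bool := onCell 1073741824 536870912 0 536870912 697932185 42949674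
    (rowNE 3 eng mog cd7q0 cd0q2 pd2 2 false true true .pp 0 2 2 (qsf 0 536870912 0 536870912 2) ndB7q0 ndB0q2 pcB2 cut_pp_022_s Ext.none)

def k0_pp_022_s : ∃ t, chk3 f_pp_022_s t 1 1 1 = true :=
  ⟨(l 6), by decide +kernel⟩

theorem c_pp_022_s : CertNE 0 536870912 0 536870912 697932185 42949674 3 eng mog cd7q0 cd0q2 pd2 false true true .pp 0 2 2
    ndB7q0 ndB0q2 pcB2 cut_pp_022_s Ext.none :=
  certNE2 (fam := false) (s1 := true) (s2 := true) (a := 0) (b := 2) (c := 2) (cn := .pp) (n1 := ndB7q0) (n2 := ndB0q2) (pc := pcB2) (cut := cut_pp_022_s) (xt := Ext.none) (P1 := 0) (W1 := 536870912) (P2 := 0) (W2 := 536870912) (P3 := 697932185) (W3 := 42949674) (N0 := 3) (En := eng) (mo := mog) (C1 := cd7q0) (C2 := cd0q2) (C3 := pd2)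
    rfl (fun _ => rfl) k0_pp_022_s

end Pool.Agent.Strip051.G.I6500_6900.Tab.CS.BB70

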