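import Pool.Agent.Strip051.G.I6500_6900.Tab
import Pool.Agent.Strip051.PB.ExtD2

/-! # Certificates B0 (generated) -/

set_option linter.all false
set_option maxRecDepth 100000

namespace Pool.Agent.Strip051.G.I6500_6900.Tab.C.BA00

open Pool.Agent.Strip051.PB Pool.Agent.Strip051.PB.T
open Pool.Agent.Strip051.G.I6500_6900.Tab

noncomputable def cut_pp_001 : Cut := Cut.of [[⟨3, 0, 0, 1449551462⟩], [⟨4, 0, 0, 2845415833⟩]]

noncomputable def f_pp_001 : ℕ → ℕ → ℕ → ℕ → Bool := onCell 0 536870912 0 536870912 697932185 42949674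
    (rowB 3 eng mog cd0q0 cd0q0 pd1 0 true true true .up 0 0 1 (qsf 0 536870912 0 536870912 1) ndB0q0 ndB0q0 pcB1 cut_pp_001 Ext.none)

def k0_pp_001 : ∃ t, chk3 f_pp_001 t 1 1 1 = true :=
  ⟨(l 4), by decide +kernel⟩

theorem c_pp_001 : CertB 0 536870912 0 536870912 697932185 42949674 3 eng mog cd0q0 cd0q0 pd1 true true true .up 0 0 1
    ndB0q0 ndB0q0 pcB1 cut_pp_001 Ext.none :=
  certB0 (fam := true) (s1 := true) (s2 := true) (a := 0) (b := 0) (c := 1) (cn := .up) (n1 := ndB0q0) (n2 := ndB0q0) (pc := pcB1) (cut := cut_pp_001) (xt := Ext.none) (P1 := 0) (W1 := 536870912) (P2 := 0) (W2 := 536870912) (P3 := 697932185) (W3 := 42949674) (N0 := 3) (En := eng) (mo := mog) (C1 := cd0q0) (C2 := cd0q0) (C3 := pd1)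
    rfl k0_pp_001

noncomputable def cut_pp_011 : Cut := Cut.of [[⟨3, 0, 0, 1449551462⟩], [⟨4, 0, 0, 2845415833⟩], [⟨0, 0, 0, 67108864⟩, ⟨1, 1, 0, 67108864⟩, ⟨2, 1, 0, 67108864⟩]]

noncomputable def f_pp_011 : ℕ → ℕ → ℕ → ℕ → Bool := onCell 0 536870912 536870912 536870912 697932185 42949674
    (rowB 3 eng mog cd0q0 cd0q1 pd1 0 true true true .pnn 0 1 1 (qsf 0 536870912 536870912 536870912 1) ndB0q0 ndB0q1 pcB1 cut_pp_011 Ext.none)

def k0_pp_011 : ∃ t, chk3 f_pp_011 t 1 1 1 = true :=
  ⟨(l 14), by decide +kernel⟩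

theorem c_pp_011 : CertB 0 536870912 536870912 536870912 697932185 42949674 3 eng mog cd0q0 cd0q1 pd1 true true true .pnn 0 1 1
    ndB0q0 ndB0q1 pcB1 cut_pp_011 Ext.none :=
  certB0 (fam := true) (s1 := true) (s2 := true) (a := 0) (b := 1) (c := 1) (cn := .pnn) (n1 := ndB0q0) (n2 := ndB0q1) (pc := pcB1) (cut := cut_pp_011) (xt := Ext.none) (P1 := 0) (W1 := 536870912) (P2 := 536870912) (W2 := 536870912) (P3 := 697932185) (W3 := 42949674) (N0 := 3) (En := eng) (mo := mog) (C1 := cd0q0) (C2 := cd0q1) (C3 := pd1)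
    rfl k0_pp_011

noncomputable def cut_pp_012 : Cut := Cut.of [[⟨3, 0, 0, 1449551462⟩], [⟨4, 0, 0, 2845415833⟩], [⟨0, 0, 0, 67108864⟩, ⟨1, 1, 0, 67108864⟩, ⟨2, 1, 0, 67108864⟩]]

noncomputable def f_pp_012 : ℕ → ℕ → ℕ → ℕ → Bool := onCell 0 536870912 536870912 536870912 697932185 42949674
    (rowB 3 eng mog cd0q0 cd0q1 pd2 0 true true true .pnp 0 1 2 (qsf 0 536870912 536870912 536870912 2) ndB0q0 ndB0q1 pcB2 cut_pp_012 Ext.none)

def k0_pp_012 : ∃ t, chk3 f_pp_012 t 1 1 1 = true :=
  ⟨(l 14), by decide +kernel⟩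

theorem c_pp_012 : CertB 0 536870912 536870912 536870912 697932185 42949674 3 eng mog cd0q0 cd0q1 pd2 true true true .pnp 0 1 2
    ndB0q0 ndB0q1 pcB2 cut_pp_012 Ext.none :=
  certB0 (fam := true) (s1 := true) (s2 := true) (a := 0) (b := 1) (c := 2) (cn := .pnp) (n1 := ndB0q0) (n2 := ndB0q1) (pc := pcB2) (cut := cut_pp_012) (xt := Ext.none) (P1 := 0) (W1 := 536870912) (P2 := 536870912) (W2 := 536870912) (P3 := 697932185) (W3 := 42949674) (N0 := 3) (En := eng) (mo := mog) (C1 := cd0q0) (C2 := cd0q1) (C3 := pd2)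
    rfl k0_pp_012

noncomputable def cut_pp_022 : Cut := Cut.of [[⟨3, 0, 0, 1449551462⟩], [⟨4, 0, 0, 2845415833⟩], [⟨0, 0, 0, 53687091⟩, ⟨1, 1, 0, 53687091⟩, ⟨2, 1, 0, 53687091⟩]]

noncomputable def f_pp_022 : ℕ → ℕ → ℕ → ℕ → Bool := onCell 0 536870912 0 536870912 697932185 42949674
    (rowB 3 eng mog cd0q0 cd0q2 pd2 0 true true true .pp 0 2 2 (qsf 0 536870912 0 536870912 2) ndB0q0 ndB0q2 pcB2 cut_pp_022 Ext.none)

def k0_pp_022 : ∃ t, chk3 f_pp_022 t 4 2 1 = true :=
  ⟨(b (a (b (a (b (a (b (l 16384056) (l 16383816)) (c (l 16449416) (l 16451824))) (a (b (a (l 16448472) (l 16446016)) (l 16448800)) (b (a (l 16447520) (l 16453456)) (l 16451856)))) (b (a (c (l 16459680) (l 16462848)) (b (l 16470552) (l 16470904))) (a (b (l 16461888) (l 16463456)) (l 16473160)))) (a (a (b (l 16453096) (l 16461768)) (b (l 16413664) (l 16421536))) (b (l 16472872) (l 16480568)))) (b (a (b (a (c (l 16514264) (l 16473632)) (b (l 16479248) (l 16481984))) (b (l 16482528) (l 16486288))) (b (a (l 16486248)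 (l 16493160)) (l 16496528))) (a (b (l 16493208) (l 16502672)) (b (l 16505928) (l 16517968))))) (a (b (a (b (a (l 16472992) (a (l 16473080) (l 16475152))) (a (l 16485912) (b (l 16483712) (l 16490944)))) (b (l 16490328) (a (a (l 16512800) (l 16498120)) (l 16507904)))) (a (b (a (b (l 16496168) (l 16503912)) (b (l 16498440) (l 16506696))) (a (b (a (l 16512856) (l 16514064)) (a (l 16524112) (l 16530832))) (b (c (l 16538120) (l 16516480)) (a (l 16548488) (l 16550840))))) (b (b (a (a (l 16501560) (l 16506784)) (l 16516944)) (a (a (l 16509888) (a (l 16512280) (l 16515184))) (l 16523824))) (a (b (a (l 16520288) (b (l 16541584) (l 16547080))) (a (l 16553568) (c (l 16536576) (l 16534976)))) (b (a (l 16549992) (l 16535992)) (a (a (b (l 16535208) (l 16541616)) (b (l 16538496) (l 16544312))) (l 16567720))))))) (b (a (b (l 16513888) (l 16547400)) (b (l 16532672) (l 16549776))) (b (a (a (b (l 16529952) (l 16537168)) (b (l 16542520) (l 16550088))) (b (l 16560816) (l 16598456))) (b (a (a (a (l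 16542816) (l 16549520)) (l 16559424)) (a (l 16593392) (l 16585256))) (a (a (a (l 16553728) (l 16560584)) (a (l 16567352) (l 16574064))) (a (a (l 16580728) (l 16587344)) (l 14)))))))), by decide +kernel⟩

def k1_pp_022 : ∃ t, chk3 f_pp_022 t 5 2 1 = true :=
  ⟨(b (a (b (a (b (a (l 16500944) (l 16509944)) (l 16512832)) (b (a (l 16520320) (l 16531608)) (a (l 16528360) (l 16540120)))) (a (b (l 16522816) (l 16535592)) (a (l 16545536) (l 16557976)))) (a (b (b (a (l 16543608) (l 16556328)) (a (l 16552648) (l 16565840))) (b (l 16570576) (l 16585064))) (b (b (l 16575136) (l 16585344)) (b (l 16597712) (l 16675864))))) (a (b (a (b (l 16550832) (l 16568424)) (b (l 16595080) (l 16612904))) (a (a (b (l 16604128) (b (l 16598008) (l 14))) (b (l 16614656) (l 14))) (b (a (l 16626320) (l 14)) (l 14)))) (b (a (b (a (l 16594848) (l 16609128)) (a (l 16613048) (l 14))) (b (l 16632856) (l 14))) (l 14)))), by decide +kernel⟩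

def k2_pp_022 : ∃ t, chk3 f_pp_022 t 8 6 1 = true :=
  ⟨(b (a (b (a (b (a (l 16557656) (c (l 16538088) (l 16538920))) (a (a (l 16543248) (l 16547648)) (c (l 16551512) (l 16552712)))) (b (a (c (l 16561528) (l 16540856)) (c (l 16564384) (l 16543216))) (a (c (l 16552912) (l 16554928)) (a (a (l 16577232) (l 16577968)) (l 16568640))))) (a (b (a (a (b (l 16549656) (l 16554256)) (l 16559088)) (c (l 16571536) (l 16562168))) (a (b (a (l 16559104) (l 16563696)) (a (l 16564056) (l 16568704))) (a (b (l 16573392) (l 16573216)) (b (l 16572464) (l 16577592))))) (a (b (b (l 16565056) (l 16572216)) (c (b (l 16578912) (l 16584568)) (b (l 16578056) (l 16583208)))) (b (c (a (l 16570672) (l 16582920)) (l 16572120)) (c (b (l 16582424) (l 16589952)) (l 16587064)))))) (a (b (b (a (c (l 16567608) (l 16545976)) (c (l 16571176) (l 16549096))) (a (c (l 16576520) (l 16560584)) (b (l 16560504) (l 16577040)))) (b (c (b (a (l 16571560) (l 16575528)) (a (l 16578880) (l 16582952))) (a (b (l 16571640) (l 16579128))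 (l 16589528))) (a (a (b (a (l 16585016) (l 16585960)) (l 14)) (l 14)) (l 14)))) (b (a (b (a (l 16573256) (b (a (l 16550120) (l 16551424)) (l 16557936))) (c (b (l 16564992) (l 16572344)) (l 16567672))) (b (a (a (b (l 16553104) (l 16580656)) (l 16579008)) (l 16581712)) (b (a (c (a (l 16567672) (l 16568904)) (l 16566904)) (c (l 16571328) (l 16569920))) (a (l 16574984) (c (a (l 16598392) (l 16599864)) (l 16597864)))))) (a (b (c (a (l 16592960) (l 16595192)) (l 16582992)) (l 14)) (l 14))))) (a (b (a (b (a (a (b (l 16579520) (l 16579280)) (b (l 16573744) (l 16578824))) (b (a (l 16578312) (l 16582752)) (l 14))) (l 14)) (l 14)) (l 14)) (l 14))), by decide +kernel⟩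

def k3_pp_022 : ∃ t, chk3 f_pp_022 t 9 6 1 = true :=
  ⟨(b (a (b (b (a (c (a (l 16566808) (l 16573704)) (l 16590040)) (a (l 16600952) (l 16586832))) (a (b (a (l 16575944) (l 16583048)) (l 14)) (l 14))) (l 14)) (l 14)) (l 14)), by decide +kernel⟩

def k4_pp_022 : ∃ t, chk3 f_pp_022 t 4 7 1 = true :=
  ⟨(l 14), by decide +kernel⟩

def k5_pp_022 : ∃ t, chk3 f_pp_022 t 5 3 1 = true :=
  ⟨(l 14), by decide +kernel⟩

def k6_pp_022 : ∃ t, chk3 f_pp_022 t 3 1 1 = true :=
  ⟨(b (b (a (a (a (a (b (l 16598328) (l 16645720)) (b (l 16610384) (l 16658560))) (b (a (l 16623024) (l 16636336)) (b (l 16670768) (l 14)))) (b (a (a (l 16649680) (l 16661648)) (b (l 16669128) (l 14))) (l 14))) (l 2)) (l 14)) (l 14)), by decide +kernel⟩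

theorem s7_pp_022 : ∃ t, chk3 f_pp_022 t 4 6 1 = true := ex3_a k2_pp_022 k3_pp_022

theorem s8_pp_022 : ∃ t, chk3 f_pp_022 t 4 3 1 = true := ex3_b s7_pp_022 k4_pp_022

theorem s9_pp_022 : ∃ t, chk3 f_pp_022 t 2 3 1 = true := ex3_a s8_pp_022 k5_pp_022

theorem s10_pp_022 : ∃ t, chk3 f_pp_022 t 2 2 1 = true := ex3_a k0_pp_022 k1_pp_022

theorem s11_pp_022 : ∃ t, chk3 f_pp_022 t 2 1 1 = true := ex3_b s10_pp_022 s9_pp_022

theorem s12_pp_022 : ∃ t, chk3 f_pp_022 t 1 1 1 = true := ex3_a s11_pp_022 k6_pp_022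

theorem c_pp_022 : CertB 0 536870912 0 536870912 697932185 42949674 3 eng mog cd0q0 cd0q2 pd2 true true true .pp 0 2 2
    ndB0q0 ndB0q2 pcB2 cut_pp_022 Ext.none :=
  certB0 (fam := true) (s1 := true) (s2 := true) (a := 0) (b := 2) (c := 2) (cn := .pp) (n1 := ndB0q0) (n2 := ndB0q2) (pc := pcB2) (cut := cut_pp_022) (xt := Ext.none) (P1 := 0) (W1 := 536870912) (P2 := 0) (W2 := 536870912) (P3 := 697932185) (W3 := 42949674) (N0 := 3) (En := eng) (mo := mog) (C1 := cd0q0) (C2 := cd0q2) (C3 := pd2)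
    rfl s12_pp_022

noncomputable def cut_pp_023 : Cut := Cut.of [[⟨3, 0, 0, 1449551462⟩], [⟨4, 0, 0, 2845415833⟩]]

noncomputable def f_pp_023 : ℕ → ℕ → ℕ → ℕ → Bool := onCell 1610612736 536870912 0 536870912 697932185 42949674
    (rowB 3 eng mog cd0q0 cd0q2 pd3 2 true true true .up 0 2 3 (qsf 0 536870912 0 536870912 3) ndB0q0 ndB0q2 pcB3 cut_pp_023 Ext.none)

def k0_pp_023 : ∃ t, chk3 f_pp_023 t 1 1 1 = true :=
  ⟨(a (a (b (a (b (b (a (b (l 16671576) (l 14)) (l 14)) (l 14)) (l 14)) (l 14)) (l 4)) (l 14)) (l 2)), by decide +kernel⟩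

theorem c_pp_023 : CertB 0 536870912 0 536870912 697932185 42949674 3 eng mog cd0q0 cd0q2 pd3 true true true .up 0 2 3
    ndB0q0 ndB0q2 pcB3 cut_pp_023 Ext.none :=
  certB2 (fam := true) (s1 := true) (s2 := true) (a := 0) (b := 2) (c := 3) (cn := .up) (n1 := ndB0q0) (n2 := ndB0q2) (pc := pcB3) (cut := cut_pp_023) (xt := Ext.none) (P1 := 0) (W1 := 536870912) (P2 := 0) (W2 := 536870912) (P3 := 697932185) (W3 := 42949674) (N0 := 3) (En := eng) (mo := mog) (C1 := cd0q0) (C2 := cd0q2) (C3 := pd3)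
    rfl (fun _ => rfl) k0_pp_023

noncomputable def cut_pp_101 : Cut := Cut.of [[⟨3, 0, 0, 1449551462⟩], [⟨4, 0, 0, 2845415833⟩]]

noncomputable def f_pp_101 : ℕ → ℕ → ℕ → ℕ → Bool := onCell 536870912 536870912 0 536870912 697932185 42949674
    (rowB 3 eng mog cd0q1 cd0q0 pd1 0 true true true .npn 1 0 1 (qsf 536870912 536870912 0 536870912 1) ndB0q1 ndB0q0 pcB1 cut_pp_101 Ext.none)

def k0_pp_101 : ∃ t, chk3 f_pp_101 t 1 1 1 = true :=
  ⟨(l 14), by decide +kernel⟩

theorem c_pp_101 : CertB 536870912 536870912 0 536870912 697932185 42949674 3 eng mog cd0q1 cd0q0 pd1 true true true .npn 1 0 1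
    ndB0q1 ndB0q0 pcB1 cut_pp_101 Ext.none :=
  certB0 (fam := true) (s1 := true) (s2 := true) (a := 1) (b := 0) (c := 1) (cn := .npn) (n1 := ndB0q1) (n2 := ndB0q0) (pc := pcB1) (cut := cut_pp_101) (xt := Ext.none) (P1 := 536870912) (W1 := 536870912) (P2 := 0) (W2 := 536870912) (P3 := 697932185) (W3 := 42949674) (N0 := 3) (En := eng) (mo := mog) (C1 := cd0q1) (C2 := cd0q0) (C3 := pd1)
    rfl k0_pp_101

noncomputable def cut_pp_102 : Cut := Cut.of [[⟨3, 0, 0, 1449551462⟩], [⟨4, 0, 0, 2845415833⟩]]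

noncomputable def f_pp_102 : ℕ → ℕ → ℕ → ℕ → Bool := onCell 536870912 536870912 0 536870912 697932185 42949674
    (rowB 3 eng mog cd0q1 cd0q0 pd2 0 true true true .npp 1 0 2 (qsf 536870912 536870912 0 536870912 2) ndB0q1 ndB0q0 pcB2 cut_pp_102 Ext.none)

def k0_pp_102 : ∃ t, chk3 f_pp_102 t 1 1 1 = true :=
  ⟨(l 14), by decide +kernel⟩

theorem c_pp_102 : CertB 536870912 536870912 0 536870912 697932185 42949674 3 eng mog cd0q1 cd0q0 pd2 true true true .npp 1 0 2
    ndB0q1 ndB0q0 pcB2 cut_pp_102 Ext.none :=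
  certB0 (fam := true) (s1 := true) (s2 := true) (a := 1) (b := 0) (c := 2) (cn := .npp) (n1 := ndB0q1) (n2 := ndB0q0) (pc := pcB2) (cut := cut_pp_102) (xt := Ext.none) (P1 := 536870912) (W1 := 536870912) (P2 := 0) (W2 := 536870912) (P3 := 697932185) (W3 := 42949674) (N0 := 3) (En := eng) (mo := mog) (C1 := cd0q1) (C2 := cd0q0) (C3 := pd2)
    rfl k0_pp_102

noncomputable def cut_pp_112 : Cut := Cut.of [[⟨3, 0, 0, 1449551462⟩], [⟨4, 0, 0, 2845415833⟩]]

noncomputable def f_pp_112 : ℕ → ℕ → ℕ → ℕ → Bool := onCell 536870912 536870912 536870912 536870912 697932185 42949674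
    (rowB 3 eng mog cd0q1 cd0q1 pd2 0 true true true .dn 1 1 2 (qsf 536870912 536870912 536870912 536870912 2) ndB0q1 ndB0q1 pcB2 cut_pp_112 Ext.none)

def k0_pp_112 : ∃ t, chk3 f_pp_112 t 1 1 1 = true :=
  ⟨(l 4), by decide +kernel⟩

theorem c_pp_112 : CertB 536870912 536870912 536870912 536870912 697932185 42949674 3 eng mog cd0q1 cd0q1 pd2 true true true .dn 1 1 2
    ndB0q1 ndB0q1 pcB2 cut_pp_112 Ext.none :=
  certB0 (fam := true) (s1 := true) (s2 := true) (a := 1) (b := 1) (c := 2) (cn := .dn) (n1 := ndB0q1) (n2 := ndB0q1) (pc := pcB2) (cut := cut_pp_112) (xt := Ext.none) (P1 := 536870912) (W1 := 536870912) (P2 := 536870912) (W2 := 536870912) (P3 := 697932185) (W3 := 42949674) (N0 := 3) (En := eng) (mo := mog) (C1 := cd0q1) (C2 := cd0q1) (C3 := pd2)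
    rfl k0_pp_112

noncomputable def cut_pp_113 : Cut := Cut.of [[⟨3, 0, 0, 1449551462⟩], [⟨4, 0, 0, 2845415833⟩]]

noncomputable def f_pp_113 : ℕ → ℕ → ℕ → ℕ → Bool := onCell 536870912 536870912 536870912 536870912 697932185 42949674
    (rowB 3 eng mog cd0q1 cd0q1 pd3 0 true true true .nn 1 1 3 (qsf 536870912 536870912 536870912 536870912 3) ndB0q1 ndB0q1 pcB3 cut_pp_113 Ext.none)

def k0_pp_113 : ∃ t, chk3 f_pp_113 t 1 1 1 = true :=
  ⟨(l 4), by decide +kernel⟩

theorem c_pp_113 : CertB 536870912 536870912 536870912 536870912 697932185 42949674 3 eng mog cd0q1 cd0q1 pd3 true true true .nn 1 1 3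
    ndB0q1 ndB0q1 pcB3 cut_pp_113 Ext.none :=
  certB0 (fam := true) (s1 := true) (s2 := true) (a := 1) (b := 1) (c := 3) (cn := .nn) (n1 := ndB0q1) (n2 := ndB0q1) (pc := pcB3) (cut := cut_pp_113) (xt := Ext.none) (P1 := 536870912) (W1 := 536870912) (P2 := 536870912) (W2 := 536870912) (P3 := 697932185) (W3 := 42949674) (N0 := 3) (En := eng) (mo := mog) (C1 := cd0q1) (C2 := cd0q1) (C3 := pd3)
    rfl k0_pp_113

noncomputable def cut_pp_123 : Cut := Cut.of [[⟨3, 0, 0, 1449551462⟩], [⟨4, 0, 0, 2845415833⟩]]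

noncomputable def f_pp_123 : ℕ → ℕ → ℕ → ℕ → Bool := onCell 536870912 536870912 0 536870912 697932185 42949674
    (rowB 3 eng mog cd0q1 cd0q2 pd3 0 true true true .npn 1 2 3 (qsf 536870912 536870912 0 536870912 3) ndB0q1 ndB0q2 pcB3 cut_pp_123 Ext.none)

def k0_pp_123 : ∃ t, chk3 f_pp_123 t 1 1 1 = true :=
  ⟨(a (l 14) (l 4)), by decide +kernel⟩

theorem c_pp_123 : CertB 536870912 536870912 0 536870912 697932185 42949674 3 eng mog cd0q1 cd0q2 pd3 true true true .npn 1 2 3
    ndB0q1 ndB0q2 pcB3 cut_pp_123 Ext.none :=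
  certB0 (fam := true) (s1 := true) (s2 := true) (a := 1) (b := 2) (c := 3) (cn := .npn) (n1 := ndB0q1) (n2 := ndB0q2) (pc := pcB3) (cut := cut_pp_123) (xt := Ext.none) (P1 := 536870912) (W1 := 536870912) (P2 := 0) (W2 := 536870912) (P3 := 697932185) (W3 := 42949674) (N0 := 3) (En := eng) (mo := mog) (C1 := cd0q1) (C2 := cd0q2) (C3 := pd3)
    rfl k0_pp_123

noncomputable def cut_pp_202 : Cut := Cut.of [[⟨3, 0, 0, 1449551462⟩], [⟨4, 0, 0, 2845415833⟩]]

noncomputable def f_pp_202 : ℕ → ℕ → ℕ → ℕ → Bool := onCell 0 536870912 0 536870912 697932185 42949674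
    (rowB 3 eng mog cd0q2 cd0q0 pd2 0 true true true .pp 2 0 2 (qsf 0 536870912 0 536870912 2) ndB0q2 ndB0q0 pcB2 cut_pp_202 Ext.none)

def k0_pp_202 : ∃ t, chk3 f_pp_202 t 1 1 1 = true :=
  ⟨(l 5), by decide +kernel⟩

theorem c_pp_202 : CertB 0 536870912 0 536870912 697932185 42949674 3 eng mog cd0q2 cd0q0 pd2 true true true .pp 2 0 2
    ndB0q2 ndB0q0 pcB2 cut_pp_202 Ext.none :=
  certB0 (fam := true) (s1 := true) (s2 := true) (a := 2) (b := 0) (c := 2) (cn := .pp) (n1 := ndB0q2) (n2 := ndB0q0) (pc := pcB2) (cut := cut_pp_202) (xt := Ext.none) (P1 := 0) (W1 := 536870912) (P2 := 0) (W2 := 536870912) (P3 := 697932185) (W3 := 42949674) (N0 := 3) (En := eng) (mo := mog) (C1 := cd0q2) (C2 := cd0q0) (C3 := pd2)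
    rfl k0_pp_202

noncomputable def cut_pp_203 : Cut := Cut.of [[⟨3, 0, 0, 1449551462⟩], [⟨4, 0, 0, 2845415833⟩]]

noncomputable def f_pp_203 : ℕ → ℕ → ℕ → ℕ → Bool := onCell 0 536870912 0 536870912 697932185 42949674
    (rowB 3 eng mog cd0q2 cd0q0 pd3 0 true true true .up 2 0 3 (qsf 0 536870912 0 536870912 3) ndB0q2 ndB0q0 pcB3 cut_pp_203 Ext.none)

def k0_pp_203 : ∃ t, chk3 f_pp_203 t 1 1 1 = true :=
  ⟨(l 5), by decide +kernel⟩

theorem c_pp_203 : CertB 0 536870912 0 536870912 697932185 42949674 3 eng mog cd0q2 cd0q0 pd3 true true true .up 2 0 3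
    ndB0q2 ndB0q0 pcB3 cut_pp_203 Ext.none :=
  certB0 (fam := true) (s1 := true) (s2 := true) (a := 2) (b := 0) (c := 3) (cn := .up) (n1 := ndB0q2) (n2 := ndB0q0) (pc := pcB3) (cut := cut_pp_203) (xt := Ext.none) (P1 := 0) (W1 := 536870912) (P2 := 0) (W2 := 536870912) (P3 := 697932185) (W3 := 42949674) (N0 := 3) (En := eng) (mo := mog) (C1 := cd0q2) (C2 := cd0q0) (C3 := pd3)
    rfl k0_pp_203

noncomputable def cut_pp_213 : Cut := Cut.of [[⟨3, 0, 0, 1449551462⟩], [⟨4, 0, 0, 2845415833⟩]]

noncomputable def f_pp_213 : ℕ → ℕ → ℕ → ℕ → Bool := onCell 0 536870912 536870912 536870912 697932185 42949674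
    (rowB 3 eng mog cd0q2 cd0q1 pd3 0 true true true .pnn 2 1 3 (qsf 0 536870912 536870912 536870912 3) ndB0q2 ndB0q1 pcB3 cut_pp_213 Ext.none)

def k0_pp_213 : ∃ t, chk3 f_pp_213 t 1 1 1 = true :=
  ⟨(a (l 5) (l 4)), by decide +kernel⟩

theorem c_pp_213 : CertB 0 536870912 536870912 536870912 697932185 42949674 3 eng mog cd0q2 cd0q1 pd3 true true true .pnn 2 1 3
    ndB0q2 ndB0q1 pcB3 cut_pp_213 Ext.none :=
  certB0 (fam := true) (s1 := true) (s2 := true) (a := 2) (b := 1) (c := 3) (cn := .pnn) (n1 := ndB0q2) (n2 := ndB0q1) (pc := pcB3) (cut := cut_pp_213) (xt := Ext.none) (P1 := 0) (W1 := 536870912) (P2 := 536870912) (W2 := 536870912) (P3 := 697932185) (W3 := 42949674) (N0 := 3) (En := eng) (mo := mog) (C1 := cd0q2) (C2 := cd0q1) (C3 := pd3)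
    rfl k0_pp_213

noncomputable def cut_pm_001 : Cut := Cut.of [[⟨3, 0, 0, 1449551462⟩], [⟨4, 0, 0, 2845415833⟩]]

noncomputable def f_pm_001 : ℕ → ℕ → ℕ → ℕ → Bool := onCell 0 536870912 0 536870912 697932185 42949674
    (rowB 3 eng mog cd0q0 cd0q0 pd1 0 true true false .up 0 0 1 (qsf 0 536870912 0 536870912 1) ndB0q0 ndB0q0 pcB1 cut_pm_001 Ext.none)

def k0_pm_001 : ∃ t, chk3 f_pm_001 t 1 1 1 = true :=
  ⟨(l 3), by decide +kernel⟩

theorem c_pm_001 : CertB 0 536870912 0 536870912 697932185 42949674 3 eng mog cd0q0 cd0q0 pd1 true true false .up 0 0 1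
    ndB0q0 ndB0q0 pcB1 cut_pm_001 Ext.none :=
  certB0 (fam := true) (s1 := true) (s2 := false) (a := 0) (b := 0) (c := 1) (cn := .up) (n1 := ndB0q0) (n2 := ndB0q0) (pc := pcB1) (cut := cut_pm_001) (xt := Ext.none) (P1 := 0) (W1 := 536870912) (P2 := 0) (W2 := 536870912) (P3 := 697932185) (W3 := 42949674) (N0 := 3) (En := eng) (mo := mog) (C1 := cd0q0) (C2 := cd0q0) (C3 := pd1)
    rfl k0_pm_001

noncomputable def cut_pm_011 : Cut := Cut.of [[⟨3, 0, 0, 1449551462⟩], [⟨4, 0, 0, 2845415833⟩], [⟨0, 0, 0, 67108864⟩, ⟨1, 1, 0, 67108864⟩, ⟨2, 1, 0, 67108864⟩]]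

noncomputable def f_pm_011 : ℕ → ℕ → ℕ → ℕ → Bool := onCell 0 536870912 536870912 536870912 697932185 42949674
    (rowB 3 eng mog cd0q0 cd0q1 pd1 1 true true false .pnn 0 1 1 (qsf 0 536870912 536870912 536870912 1) ndB0q0 ndB0q1 pcB1 cut_pm_011 Ext.none)

def k0_pm_011 : ∃ t, chk3 f_pm_011 t 1 1 1 = true :=
  ⟨(l 6), by decide +kernel⟩

theorem c_pm_011 : CertB 0 536870912 536870912 536870912 697932185 42949674 3 eng mog cd0q0 cd0q1 pd1 true true false .pnn 0 1 1
    ndB0q0 ndB0q1 pcB1 cut_pm_011 Ext.none :=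
  certB1 (fam := true) (s1 := true) (s2 := false) (a := 0) (b := 1) (c := 1) (cn := .pnn) (n1 := ndB0q0) (n2 := ndB0q1) (pc := pcB1) (cut := cut_pm_011) (xt := Ext.none) (P1 := 0) (W1 := 536870912) (P2 := 536870912) (W2 := 536870912) (P3 := 697932185) (W3 := 42949674) (N0 := 3) (En := eng) (mo := mog) (C1 := cd0q0) (C2 := cd0q1) (C3 := pd1)
    rfl (fun _ => rfl) k0_pm_011

noncomputable def cut_pm_012 : Cut := Cut.of [[⟨3, 0, 0, 1449551462⟩], [⟨4, 0, 0, 2845415833⟩], [⟨0, 0, 0, 33554432⟩, ⟨1, 1, 0, 33554432⟩, ⟨2, 1, 0, 33554432⟩]]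

noncomputable def xt_pm_012 : Ext := extD2 3 ⟨7, 3, 3, 10, 49, 25, 3, 4, 67, 200, 3, 16⟩ eng cd0q0 cd0q1 pd2 true true false .pnp 0 1 2 rfl ndB0q0 ndB0q1 pcB2

noncomputable def f_pm_012 : ℕ → ℕ → ℕ → ℕ → Bool := onCell 0 536870912 536870912 536870912 697932185 42949674
    (rowB 3 eng mog cd0q0 cd0q1 pd2 0 true true false .pnp 0 1 2 (qsf 0 536870912 536870912 536870912 2) ndB0q0 ndB0q1 pcB2 cut_pm_012 xt_pm_012)

def k0_pm_012 : ∃ t, chk3 f_pm_012 t 1 2 1 = true :=
  ⟨(l 6), by decide +kernel⟩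

def k1_pm_012 : ∃ t, chk3 f_pm_012 t 2 3 1 = true :=
  ⟨(b (l 6) (a (l 6) (b (l 6) (a (l 6) (b (l 6) (b (l 6) (a (l 6) (a (b (l 6) (c (a (l 16529144) (l 16521704)) (a (l 16520624) (l 16512632)))) (b (c (a (l 16528824) (l 16521400)) (a (l 16520000) (l 16512112))) (c (a (c (l 16516856) (l 16512080)) (c (l 16509912) (l 16504944))) (a (l 16504896) (l 16497400)))))))))))), by decide +kernel⟩

def k2_pm_012 : ∃ t, chk3 f_pm_012 t 3 6 1 = true :=
  ⟨(a (l 6) (b (l 6) (a (b (l 6) (b (l 6) (a (l 6) (a (l 6) (b (l 6) (l 16550704)))))) (b (a (l 6) (b (l 16628496) (a (l 16586296) (l 16581408)))) (a (b (a (l 16574952) (l 16568264)) (a (c (l 16553432) (l 16545624)) (l 16543496))) (b (a (l 16562768) (l 16558440)) (a (l 16538496) (l 16534752)))))))), by decide +kernel⟩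

def k3_pm_012 : ∃ t, chk3 f_pm_012 t 6 14 1 = true :=
  ⟨(a (l 6) (b (l 6) (a (b (l 6) (a (l 6) (b (l 6) (b (a (l 6) (c (l 16533352) (c (l 16514544) (l 16508536)))) (c (a (c (l 16526304) (l 16521040)) (l 16516976)) (a (l 16512504) (l 16505360))))))) (b (a (a (l 6) (a (l 6) (b (l 6) (b (l 6) (l 16520952))))) (b (a (l 6) (c (l 16530456) (l 16520568))) (c (a (l 16524544) (l 16518568)) (a (l 16513792) (l 16507688))))) (a (b (a (b (l 6) (c (l 16522232) (l 16510944))) (c (l 16518928) (l 16507512))) (c (a (l 16534504) (l 16507392)) (c (a (l 16504784) (l 16498432)) (a (l 16498472) (l 16491960))))) (b (c (a (l 16512872) (l 16506960)) (a (l 16501272) (l 16495264))) (c (a (l 16501424) (l 16495560)) (c (l 16489384) (a (l 16485776) (l 16479832)))))))))), by decide +kernel⟩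

def k4_pm_012 : ∃ t, chk3 f_pm_012 t 12 15 1 = true :=
  ⟨(b (a (b (l 6) (a (l 6) (b (l 6) (c (l 16534144) (l 16525392))))) (b (b (l 6) (a (l 6) (a (l 6) (c (l 16524168) (l 16513624))))) (a (b (c (a (l 6) (l 16527088)) (l 16521496)) (c (a (l 16522432) (l 16514816)) (l 16508856))) (b (a (c (l 16519456) (l 16509168)) (c (b (l 16515024) (l 16509024)) (l 16501152))) (a (c (l 16507376) (l 16496816)) (c (l 16500152) (l 16488952))))))) (a (b (a (b (b (l 6) (a (l 6) (l 16525664))) (c (a (l 16527608) (l 16520104)) (a (l 16518696) (l 16510776)))) (b (b (c (l 16524776) (l 16515808)) (c (l 16518456) (l 16509088))) (c (a (l 16512680) (l 16505360)) (a (l 16502920) (l 16495152))))) (a (b (c (a (l 16514160) (l 16507016)) (a (l 16504464) (l 16496912))) (c (a (b (l 16504000) (l 16497136)) (b (l 16497128) (l 16490456))) (a (l 16490128) (l 16482952)))) (b (c (a (l 16499952) (b (l 16496080) (l 16489872))) (a (l 16489424) (l 16482000))) (c (a (b (l 16490336) (l 16483840)) (b (l 16483608) (l 16477264)))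 (a (l 16475824) (l 16468680)))))) (b (a (b (b (c (a (l 16513304) (l 16505840)) (a (l 16503608) (l 16495632))) (c (a (l 16507224) (l 16499920)) (l 16493240))) (c (a (l 16498160) (l 16491096)) (a (l 16487480) (l 16479864)))) (b (b (a (c (l 16498552) (l 16487768)) (c (l 16491488) (l 16480032))) (c (a (l 16492784) (l 16485872)) (l 16477784))) (c (a (l 16484208) (l 16477544)) (a (l 16472360) (l 16465048))))) (a (b (c (a (b (l 16489128) (l 16483072)) (l 16479360)) (a (l 16474608) (l 16467280))) (c (a (l 16473888) (l 16467504)) (a (l 16461576) (l 16454616)))) (c (b (a (l 16472816) (l 16466496)) (a (l 16461320) (l 16455352))) (b (a (l 16460120) (l 16453168)) (a (l 16447824) (l 16441232)))))))), by decide +kernel⟩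

def k5_pm_012 : ∃ t, chk3 f_pm_012 t 13 30 1 = true :=
  ⟨(a (b (a (b (c (a (c (l 16531504) (l 16526432)) (b (l 16524744) (l 16518672))) (a (l 16518280) (b (l 16513680) (l 16507400)))) (c (a (b (l 16519808) (l 16513768)) (b (l 16512696) (l 16506808))) (a (b (l 16508816) (l 16502592)) (b (l 16501192) (l 16495048))))) (b (c (a (b (l 16528208) (l 16511832)) (l 16508256)) (a (c (l 16506176) (l 16500024)) (l 16496144))) (c (a (l 16503096) (l 16496744)) (a (l 16490904) (l 16484080))))) (a (b (c (a (b (l 16507816) (l 16501936)) (l 16498080)) (a (b (l 16496440) (l 16490344)) (l 16485968))) (c (a (l 16493224) (l 16486624)) (a (l 16481344) (l 16474136)))) (b (c (a (l 16491600) (l 16485384)) (a (l 16478952) (l 16472304))) (c (a (l 16480296) (l 16474200)) (a (l 16467312) (l 16460832)))))) (b (a (c (b (a (l 16502016) (l 16495976)) (a (l 16490616) (l 16484664))) (b (a (l 16489520) (l 16483224)) (a (l 16477608) (l 16471432)))) (b (c (a (l 16490072) (l 16484256)) (a (l 16477200) (l 16471360)))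 (a (a (l 16473832) (l 16470928)) (l 16487584)))) (a (b (c (a (l 16479368) (l 16473496)) (a (l 16465976) (l 16459920))) (c (a (l 16468288) (l 16462488)) (a (l 16454640) (l 16448704)))) (b (c (a (l 16467704) (l 16461952)) (l 16451224)) (c (a (l 16456736) (l 16451000)) (l 16440120)))))), by decide +kernel⟩

def k6_pm_012 : ∃ t, chk3 f_pm_012 t 13 31 1 = true :=
  ⟨(a (b (a (b (c (b (a (l 16484720) (l 16478240)) (a (l 16479232) (l 16472880))) (b (a (l 16472600) (l 16465552)) (l 16463280))) (c (a (l 16471152) (l 16465040)) (a (l 16458032) (l 16451392)))) (b (b (c (a (l 16472024) (l 16466016)) (a (l 16458872) (l 16452512))) (c (a (l 16466776) (l 16460856)) (l 16450184))) (c (a (l 16459160) (l 16453456)) (a (l 16445080) (l 16439072))))) (a (c (b (a (l 16460448) (l 16454656)) (a (l 16449640) (l 16444168))) (b (a (l 16446496) (l 16440192)) (a (l 16434920) (c (l 16432872) (l 16424960))))) (c (b (a (l 16449072) (b (l 16446112) (l 16441208))) (a (b (l 16441464) (l 16436320)) (b (l 16436264)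 (l 16431272)))) (b (a (l 16434208) (c (l 16432424) (l 16424488))) (a (c (l 16427320) (l 16419184)) (c (l 16421992) (l 16413696))))))) (b (a (a (b (b (c (l 16460168) (l 16446424)) (c (l 16455072) (l 16441120))) (c (c (l 16451288) (l 16444376)) (l 16433304))) (b (b (l 16447688) (c (l 16449360) (l 16435336))) (c (c (l 16445760) (l 16438848)) (l 16427720)))) (b (c (b (l 16445816) (a (l 16443656) (l 16437920))) (b (l 16432056) (l 16437392))) (c (c (a (l 16440184) (l 16434544)) (l 16451544)) (a (l 16422264) (l 16416864))))) (a (c (b (a (c (l 16441944) (l 16434656)) (l 16433072)) (a (l 16428736) (l 16423704))) (b (a (l 16423016) (l 16417696)) (a (l 16412696) (l 16407648)))) (c (b (a (c (l 16431312) (l 16424096)) (l 16422376)) (a (l 16418616) (l 16413440))) (b (a (l 16412488) (l 16407304)) (a (l 16402680) (l 16397720))))))), by decide +kernel⟩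

def k7_pm_012 : ∃ t, chk3 f_pm_012 t 14 14 1 = true :=
  ⟨(b (a (b (a (l 6) (b (l 6) (l 16565240))) (a (b (l 6) (c (l 16533800) (l 16524768))) (b (c (l 16535144) (l 16526800)) (c (l 16522856) (l 16513248))))) (b (b (a (c (l 16549392) (l 16543072)) (c (l 16541048) (l 16533488))) (a (c (l 16537576) (l 16529768)) (c (l 16529024) (l 16520120)))) (a (b (c (l 16525272) (l 16516096)) (c (l 16513008) (l 16502640))) (b (c (l 16516704) (l 16506512)) (c (l 16504456) (l 16493144)))))) (a (b (a (b (c (a (l 16524592) (l 16518928)) (l 16511568)) (c (a (l 16512760) (l 16507136)) (l 16498816))) (b (c (l 16510856) (l 16500184)) (c (l 16499112) (l 16487568)))) (a (b (c (a (l 16501200) (l 16495616)) (l 16486504)) (c (a (l 16489840) (l 16484288)) (c (l 16477848) (l 16471136)))) (b (c (l 16487624) (l 16475384)) (c (l 16476320) (l 16463544))))) (b (a (b (c (l 16501040) (l 16489688)) (c (l 16489328) (l 16477176))) (b (c (l 16492504) (l 16480288)) (c (l 16480800) (l 16467856)))) (a (b (c (l 16477872)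 (l 16465088)) (c (a (l 16468896) (l 16464312)) (l 16453328))) (c (b (l 16469336) (c (l 16461136) (l 16454760))) (b (l 16455840) (l 16444136))))))), by decide +kernel⟩

def k8_pm_012 : ∃ t, chk3 f_pm_012 t 15 14 1 = true :=
  ⟨(b (a (b (a (b (c (l 16534240) (l 16525248)) (c (l 16521912) (l 16511752))) (b (l 16523952) (c (l 16516376) (l 16504792)))) (a (b (c (l 16509576) (l 16498216)) (c (l 16497328) (l 16484920))) (b (c (l 16504040) (l 16491312)) (c (l 16491784) (l 16478088))))) (b (a (b (l 16519320) (c (l 16512672) (l 16499392))) (b (l 16516040) (c (l 16510680) (l 16495584)))) (c (a (b (l 16500272) (c (l 16491584) (l 16484496))) (b (l 16498520) (l 16486528))) (a (b (a (l 16487144) (l 16484864)) (c (l 16476880) (l 16468736))) (b (c (l 16486656) (l 16478136)) (c (l 16474040) (l 16465088))))))) (a (b (a (b (c (l 16485376) (l 16472128)) (c (l 16473664) (l 16459768))) (c (b (a (l 16481056) (l 16478720)) (c (l 16471544) (l 16464600))) (b (a (l 16466912) (l 16463904)) (a (l 16454592)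 (l 16451688))))) (c (a (b (a (l 16463832) (l 16460624)) (a (b (l 16455312) (l 16449640)) (c (l 16452576) (l 16445744)))) (a (b (l 16457848) (l 16446400)) (b (l 16455552) (l 16444016)))) (a (b (a (l 16449688) (l 16446000)) (a (l 16438008) (l 16434376))) (b (a (l 16442720) (l 16439912)) (c (l 16433808) (l 16425464)))))) (b (a (c (b (c (l 16479920) (l 16472504)) (c (l 16468368) (l 16460752))) (b (a (l 16461392) (l 16459416)) (a (l 16449304) (l 16447352)))) (c (b (c (l 16478736) (l 16470528)) (c (l 16466992) (l 16458672))) (b (c (l 16461792) (l 16452536)) (c (l 16449792) (l 16440360))))) (c (a (b (a (l 16453752) (l 16452408)) (c (a (l 16445744) (l 16444408)) (l 16437448))) (b (c (a (l 16455424) (l 16454960)) (l 16446864)) (c (a (l 16443432) (l 16442800)) (l 16434984)))) (a (b (a (l 16437536) (l 16435568)) (a (l 16425952) (l 16423944))) (b (a (l 16433976) (l 16432760)) (a (l 16422304) (l 16421024)))))))), by decide +kernel⟩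

def k9_pm_012 : ∃ t, chk3 f_pm_012 t 14 30 1 = true :=
  ⟨(a (b (a (c (b (l 16475784) (l 16464592)) (b (l 16462808) (l 16451280))) (c (b (l 16465080) (l 16453888)) (b (l 16451896) (l 16440448)))) (a (c (b (l 16453512) (c (l 16445648) (l 16439328))) (b (l 16439992) (l 16428968))) (c (b (a (l 16445392) (l 16440208)) (c (l 16434816) (l 16428560))) (b (l 16429208) (l 16418208))))) (b (a (c (b (a (l 16457648) (l 16453040)) (a (l 16446424) (l 16441784))) (b (l 16441752) (l 16430336))) (c (b (a (l 16448744) (c (l 16447960) (l 16441400))) (a (c (l 16440608) (l 16434136)) (c (l 16436552) (l 16430016)))) (b (a (l 16434776) (l 16430472)) (c (l 16424960) (l 16417296))))) (c (a (b (a (l 16435256) (c (l 16433680) (l 16427312))) (c (a (l 16427216) (l 16422344)) (l 16418512))) (b (a (c (l 16429208) (l 16422832)) (c (l 16424920) (l 16418584))) (c (a (l 16417608) (l 16413112)) (l 16409272)))) (a (b (a (l 16421552) (l 16416720)) (l 16429072)) (b (a (l 16412152) (l 16407872)) (c (l 16402536) (l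 16395128))))))), by decide +kernel⟩

def k10_pm_012 : ∃ t, chk3 f_pm_012 t 14 31 1 = true :=
  ⟨(a (b (c (a (b (b (l 16434480) (a (l 16432232) (l 16426640))) (c (a (l 16428936) (l 16423408)) (l 16419584))) (b (b (l 16423624) (c (a (l 16424208) (l 16418848)) (l 16415344))) (c (a (l 16417992) (l 16412600)) (l 16408896)))) (b (a (b (l 16420944) (l 16415856)) (b (l 16410192) (l 16405112))) (a (l 16408824) (l 16398336)))) (a (c (b (c (a (l 16420448) (l 16415104)) (a (l 16413480) (l 16408248))) (c (a (l 16411856) (l 16406608)) (a (l 16404584) (l 16399504)))) (b (a (l 16402152) (l 16397040)) (c (l 16394352) (l 16386176)))) (c (b (c (a (l 16409760) (l 16404408)) (l 16400472)) (c (a (l 16401328) (l 16396128)) (l 16391952))) (b (c (l 16393312) (l 16385584)) (c (l 16384584) (l 16376600)))))) (b (c (b (b (a (a (l 16415896) (l 16410864)) (c (l 16406512) (l 16400768))) (a (c (a (l 16413520) (l 16408256)) (l 16404968)) (c (a (l 16403224) (l 16398424)) (l 16395288)))) (a (c (a (l 16407216) (l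 16401984)) (l 16398600)) (c (a (l 16396968) (l 16392160)) (l 16388984)))) (b (a (c (l 16401032) (l 16393824)) (c (l 16391656) (l 16384520))) (a (c (l 16391944) (l 16384632)) (c (l 16382624) (l 16375472))))) (c (a (b (c (a (l 16399168) (l 16394112)) (l 16390480)) (c (a (l 16391056) (l 16386176)) (l 16382312))) (b (c (a (l 16389264) (l 16384624)) (a (l 16383456) (l 16379032))) (a (c (l 16381488) (l 16375544)) (c (l 16377008) (l 16371272))))) (a (b (c (l 16383632) (l 16376080)) (a (l 16373712) (l 16369280))) (b (c (l 16374672) (l 16367296)) (a (l 16365032) (l 16360984))))))), by decide +kernel⟩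

def k11_pm_012 : ∃ t, chk3 f_pm_012 t 15 30 1 = true :=
  ⟨(a (b (a (c (b (a (c (l 16444344) (l 16437656)) (l 16437736)) (a (c (l 16432736) (l 16426184)) (l 16426064))) (b (a (l 16426504) (l 16422920)) (a (l 16415144) (l 16411520)))) (a (c (b (l 16434784) (l 16422968)) (b (l 16419688) (l 16408232))) (c (b (l 16432272) (l 16420288)) (b (l 16416832) (l 16405312))))) (a (c (b (a (c (l 16420920) (l 16414624)) (c (l 16417264) (l 16410984))) (a (c (l 16408904) (l 16403000)) (c (l 16405032) (l 16399200)))) (b (a (l 16403880) (l 16400184)) (a (l 16392712) (l 16388928)))) (c (b (c (a (l 16413992) (l 16411136)) (l 16406200)) (c (a (l 16401520) (l 16398408)) (l 16394136))) (b (c (l 16399112) (l 16391224)) (c (l 16387496) (l 16379984)))))) (b (a (a (c (b (l 16430216) (l 16418072)) (b (l 16414376) (l 16402776))) (c (b (l 16428608) (l 16416272)) (b (l 16412312) (l 16400624)))) (c (b (c (a (l 16431072) (l 16430224)) (l 16422848)) (c (a (l 16418304) (l 16417200)) (l 16410432))) (b (a (l 16410592)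 (l 16409224)) (a (l 16398808) (l 16397320))))) (a (c (b (a (c (l 16408752) (l 16402344)) (c (l 16406792) (l 16400272))) (a (c (l 16395752) (l 16389960)) (b (l 16393968) (l 16387432)))) (b (a (l 16391168) (l 16388904)) (a (l 16379552) (l 16377144)))) (c (b (a (c (l 16405112) (l 16398504)) (c (l 16403720) (l 16397024))) (b (a (l 16392040) (l 16390376)) (c (a (l 16388056) (l 16386224)) (l 16381448)))) (b (a (l 16386952) (l 16385312)) (c (l 16377872) (l 16370032))))))), by decide +kernel⟩

def k12_pm_012 : ∃ t, chk3 f_pm_012 t 30 31 1 = true :=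
  ⟨(b (c (b (b (a (a (l 16397184) (l 16393184)) (a (l 16389520) (l 16386232))) (a (c (a (b (l 16395312) (l 16392432)) (l 16389664)) (l 16397056)) (c (a (l 16385768) (l 16382264)) (l 16379056)))) (a (c (a (l 16387584) (l 16383272)) (a (l 16382336) (l 16378208))) (c (a (l 16379264) (c (l 16376608) (l 16374496))) (a (l 16374368) (l 16370832))))) (b (a (c (l 16404216) (l 16376184)) (c (l 16375984) (l 16368960))) (a (c (l 16374160) (l 16367160)) (c (l 16366712) (l 16359840))))) (c (a (b (c (a (l 16380208) (l 16376048)) (a (l 16374816) (l 16370848))) (a (c (l 16372752) (l 16367224)) (c (l 16368744) (l 16363408)))) (b (c (a (l 16372192) (c (l 16369728) (l 16367552))) (a (l 16367160) (l 16363776))) (c (a (l 16365040) (b (l 16363432) (l 16359872))) (a (l 16359864) (l 16356632))))) (a (b (c (l 16366544) (l 16359336)) (a (c (l 16360736) (l 16353288)) (c (l 16357056) (l 16349696)))) (b (c (l 16359408) (l 16352344)) (c (a (l 16353640) (l 16350504)) (l 16350024)))))), by decide +kernel⟩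

def k13_pm_012 : ∃ t, chk3 f_pm_012 t 62 31 1 = true :=
  ⟨(b (b (b (c (a (l 16393840) (c (l 16383352) (l 16378120))) (l 16369600)) (c (c (a (l 16379200) (l 16376520)) (l 16373016)) (l 16363848))) (c (c (a (c (b (l 16374984) (l 16371600)) (l 16371240)) (b (c (l 16371984) (l 16370008)) (c (l 16368656) (l 16366640)))) (a (l 16367656) (b (l 16366520) (l 16363096)))) (c (a (l 16361928) (l 16359136)) (l 16353704)))) (c (a (b (c (b (l 16367224) (l 16363832)) (l 16360744)) (b (c (l 16360408) (l 16355512)) (c (l 16356912) (l 16351952)))) (b (c (c (b (l 16365368) (l 16362064)) (l 16361656)) (l 16358024)) (c (a (b (l 16358360) (l 16354920)) (c (b (l 16358064) (l 16354680)) (l 16354264))) (b (l 16352896) (l 16349400))))) (b (c (a (l 16354848) (l 16352192)) (l 16346488)) (a (c (l 16347688) (l 16340504)) (c (l 16345160) (l 16338008)))))), by decide +kernel⟩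

def k14_pm_012 : ∃ t, chk3 f_pm_012 t 63 31 1 = true :=
  ⟨(b (c (b (c (a (c (b (l 16382232) (l 16375080)) (l 16376440)) (c (b (l 16380184) (l 16372816)) (l 16374328))) (a (l 16372616) (l 16370544))) (c (a (b (c (b (l 16370080) (l 16368288)) (l 16367280)) (c (l 16365872) (l 16363928))) (b (b (b (l 16367280) (l 16365928)) (a (l 16365368) (l 16364088))) (c (l 16363240) (l 16361376)))) (b (a (l 16363864) (l 16361424)) (a (l 16360472) (l 16358024))))) (b (c (l 16365512) (l 16358384)) (c (b (l 16357136) (l 16353648)) (a (l 16349840) (l 16347568))))) (b (c (c (c (a (b (b (l 16363456) (l 16361848)) (c (l 16359880) (l 16358944))) (b (l 140979345699422223) (l 140933784679858191))) (a (b (l 16360672) (l 16357408)) (b (l 16358192) (l 141104140258721807)))) (a (b (l 16357160) (l 16353832)) (b (l 16354776) (l 16351512)))) (c (a (l 16349744) (l 16347496)) (a (l 16342808) (l 16340640)))) (c (c (a (c (b (a (l 16356776) (l 140938457601425423)) (a (l 140928012236652559) (l 140897981822812175)))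 (b (l 16354096) (a (l 16351320) (l 16350136)))) (a (c (l 140887330304884751) (b (l 16352312) (l 16348984))) (b (l 140917017117818895) (l 140877640850931727)))) (a (b (l 16350464) (c (l 16348336) (l 16345656))) (b (c (l 16349456) (l 16346872)) (c (b (l 16346944) (l 16345248)) (l 16343480))))) (c (a (b (l 16344584) (l 16341072)) (b (l 16342432) (l 16338968))) (a (l 16335736) (l 16333672)))))), by decide +kernel⟩

theorem s15_pm_012 : ∃ t, chk3 f_pm_012 t 31 31 1 = true := ex3_a k13_pm_012 k14_pm_012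

theorem s16_pm_012 : ∃ t, chk3 f_pm_012 t 15 31 1 = true := ex3_a k12_pm_012 s15_pm_012

theorem s17_pm_012 : ∃ t, chk3 f_pm_012 t 15 15 1 = true := ex3_b k11_pm_012 s16_pm_012

theorem s18_pm_012 : ∃ t, chk3 f_pm_012 t 14 15 1 = true := ex3_b k9_pm_012 k10_pm_012

theorem s19_pm_012 : ∃ t, chk3 f_pm_012 t 7 15 1 = true := ex3_a s18_pm_012 s17_pm_012

theorem s20_pm_012 : ∃ t, chk3 f_pm_012 t 7 14 1 = true := ex3_a k7_pm_012 k8_pm_012

theorem s21_pm_012 : ∃ t, chk3 f_pm_012 t 7 7 1 = true := ex3_b s20_pm_012 s19_pm_012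

theorem s22_pm_012 : ∃ t, chk3 f_pm_012 t 13 15 1 = true := ex3_b k5_pm_012 k6_pm_012

theorem s23_pm_012 : ∃ t, chk3 f_pm_012 t 6 15 1 = true := ex3_a k4_pm_012 s22_pm_012

theorem s24_pm_012 : ∃ t, chk3 f_pm_012 t 6 7 1 = true := ex3_b k3_pm_012 s23_pm_012

theorem s25_pm_012 : ∃ t, chk3 f_pm_012 t 3 7 1 = true := ex3_a s24_pm_012 s21_pm_012

theorem s26_pm_012 : ∃ t, chk3 f_pm_012 t 3 3 1 = true := ex3_b k2_pm_012 s25_pm_012

theorem s27_pm_012 : ∃ t, chk3 f_pm_012 t 1 3 1 = true := ex3_a k1_pm_012 s26_pm_012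

theorem s28_pm_012 : ∃ t, chk3 f_pm_012 t 1 1 1 = true := ex3_b k0_pm_012 s27_pm_012

theorem c_pm_012 : CertB 0 536870912 536870912 536870912 697932185 42949674 3 eng mog cd0q0 cd0q1 pd2 true true false .pnp 0 1 2
    ndB0q0 ndB0q1 pcB2 cut_pm_012 xt_pm_012 :=
  certB0 (fam := true) (s1 := true) (s2 := false) (a := 0) (b := 1) (c := 2) (cn := .pnp) (n1 := ndB0q0) (n2 := ndB0q1) (pc := pcB2) (cut := cut_pm_012) (xt := xt_pm_012) (P1 := 0) (W1 := 536870912) (P2 := 536870912) (W2 := 536870912) (P3 := 697932185) (W3 := 42949674) (N0 := 3) (En := eng) (mo := mog) (C1 := cd0q0) (C2 := cd0q1) (C3 := pd2)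
    rfl s28_pm_012

noncomputable def cut_pm_022 : Cut := Cut.of [[⟨3, 0, 0, 1449551462⟩], [⟨4, 0, 0, 2845415833⟩], [⟨0, 0, 0, 67108864⟩, ⟨1, 1, 0, 67108864⟩, ⟨2, 1, 0, 67108864⟩]]

noncomputable def xt_pm_022 : Ext := extD2 3 ⟨7, 3, 3, 10, 49, 25, 3, 4, 67, 200, 3, 16⟩ eng cd0q0 cd0q2 pd2 true true false .pp 0 2 2 rfl ndB0q0 ndB0q2 pcB2

noncomputable def f_pm_022 : ℕ → ℕ → ℕ → ℕ → Bool := onCell 1073741824 536870912 0 536870912 697932185 42949674
    (rowB 3 eng mog cd0q0 cd0q2 pd2 2 true true false .pp 0 2 2 (qsf 0 536870912 0 536870912 2) ndB0q0 ndB0q2 pcB2 cut_pm_022 xt_pm_022)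

def k0_pm_022 : ∃ t, chk3 f_pm_022 t 4 1 1 = true :=
  ⟨(b (b (l 1) (a (l 1) (b (l 1) (a (l 1) (a (l 1) (a (l 1) (b (l 1) (b (l 16500224) (l 16456928))))))))) (b (a (l 1) (b (a (l 1) (a (b (b (l 1) (l 16516824)) (a (b (l 1) (l 16540336)) (b (l 16531952) (l 16544272)))) (c (b (b (l 16522936) (l 16533416)) (a (l 16547680) (l 16550712))) (b (a (l 16532808) (l 16538440)) (a (l 16535696) (l 16560488)))))) (a (b (a (l 1) (b (a (l 1) (l 16550800)) (l 6))) (l 6)) (b (a (b (a (l 16554240) (l 16557192)) (a (l 16568848) (l 16507864))) (a (b (l 16518424) (l 16572344)) (a (l 16525464) (l 16568168)))) (a (a (l 6) (a (l 6) (l 16549760))) (a (l 16549808) (l 16591528))))))) (l 6))), by decide +kernel⟩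

def k1_pm_022 : ∃ t, chk3 f_pm_022 t 5 4 1 = true :=
  ⟨(a (a (a (l 1) (b (b (l 16448000) (l 16449376)) (b (l 16454432) (a (l 16459856) (l 16467144))))) (c (b (a (b (a (l 16447464) (l 16445392)) (a (l 16450968) (l 16448624))) (b (l 16451432) (l 16454440))) (a (b (a (l 16455968) (a (l 16453776) (l 16452904))) (a (l 16461688) (a (l 16459264) (l 16458240)))) (b (l 16469408) (c (l 16483960) (l 16465472))))) (b (a (b (l 16450576) (l 16455128)) (b (l 16455168) (l 16459296))) (a (b (l 16461056) (l 16514768)) (c (l 16497616) (l 16469544)))))) (b (a (a (b (l 16463192) (l 16508264)) (b (l 16468696) (l 16498496))) (b (a (l 16471544) (l 16475968)) (a (b (l 16469368) (l 16468880)) (b (l 16473328) (l 16472504))))) (a (a (b (l 16521360) (c (l 16473024) (l 16470568))) (b (c (l 16471240) (l 16464616)) (c (l 16475824) (b (l 16467264) (l 16470024))))) (b (a (a (l 16469192) (l 16470304)) (b (l 16472352) (l 16472880))) (a (c (a (l 16476088) (l 16476784)) (l 16468824)) (b (l 16495016) (l 16496792))))))),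 by decide +kernel⟩

def k2_pm_022 : ∃ t, chk3 f_pm_022 t 10 5 1 = true :=
  ⟨(b (a (b (a (l 16461272) (a (l 16472360) (l 16477056))) (a (c (l 16483024) (l 16470072)) (c (l 16484256) (l 16484136)))) (c (a (b (a (l 16447824) (a (l 16466112) (l 16464944))) (a (l 16435792) (a (l 16474808) (l 16473480)))) (b (c (l 16490432) (l 16472176)) (a (l 16476712) (l 16439440)))) (a (b (a (l 16477416) (l 16473112)) (a (l 16486840) (l 16482232))) (b (l 16478104) (l 16486944))))) (a (b (a (c (l 16500560) (l 16466384)) (c (l 16411608) (l 16499896))) (b (a (b (l 16507352) (l 16512088)) (a (l 16511152) (a (l 16506664) (a (l 16504528) (l 16419336))))) (a (l 16476112) (a (l 16518648) (a (l 16513816) (a (l 16511496) (l 16510008))))))) (a (a (b (b (l 16426928) (l 16474368)) (b (l 16415904) (l 16422304))) (b (c (b (l 16502800) (l 16487080)) (b (l 16490320) (l 16495752))) (c (b (l 16491296) (l 16497016)) (b (l 16499920) (l 16505384))))) (c (b (b (a (l 16484288) (l 16488888)) (l 16470840)) (b (l 16495912)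 (l 16500456))) (b (l 16455624) (b (l 16504104) (l 16508328))))))), by decide +kernel⟩

def k3_pm_022 : ∃ t, chk3 f_pm_022 t 11 5 1 = true :=
  ⟨(b (a (b (a (c (l 16479336) (l 16478472)) (c (l 16482880) (a (l 16476040) (l 16475072)))) (a (a (a (l 16467032) (l 16490008)) (l 16449664)) (a (a (l 16490072) (l 16468256)) (b (l 16443696) (l 16448616))))) (b (a (c (a (l 16482264) (l 16482384)) (b (l 16472728) (l 16476152))) (b (l 16488648) (a (l 16480784) (l 16481440)))) (a (c (a (l 16490552) (l 16490088)) (b (l 16480120) (l 16484568))) (b (a (l 16484344) (l 16484720)) (a (l 16488400) (l 16488504)))))) (b (b (a (c (a (l 16494848) (l 16500088)) (a (l 16497384) (l 16450544))) (a (c (l 16444992) (l 16489496)) (a (l 16492944) (l 16503256)))) (a (a (l 16440536) (b (l 16422672) (l 16441648))) (a (c (l 16502864) (l 16495008)) (c (l 16501312) (l 16493128))))) (a (a (b (l 16465416) (c (l 16507400) (l 16515024))) (b (a (l 16511176) (l 16508552)) (l 16453184))) (c (a (b (l 16508704) (l 16514704))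 (b (l 16464424) (l 16511480))) (a (b (l 16501240) (l 16445040)) (b (l 16498584) (l 16504448))))))), by decide +kernel⟩

def k4_pm_022 : ∃ t, chk3 f_pm_022 t 5 6 1 = true :=
  ⟨(a (a (b (a (b (b (l 16463840) (l 16514960)) (b (l 16524160) (l 16554472))) (b (a (l 16572800) (a (l 16547024) (a (l 16565760) (c (l 16539312) (l 16527704))))) (a (l 16546072) (a (l 16541272) (c (a (l 16535416) (l 16555248)) (l 16564504)))))) (a (b (a (l 16569136) (l 16566440)) (b (l 16577576) (l 16582104))) (b (a (l 16559536) (a (l 16554704) (a (l 16552640) (b (l 16548576) (l 16554304))))) (a (c (l 16524832) (l 16572168)) (a (b (l 16561888) (l 16566224)) (a (c (l 16560048) (l 16565152)) (c (l 16580112) (l 16564400)))))))) (b (b (a (c (a (l 16514744) (l 16530432)) (a (l 16523544) (l 16517328))) (c (b (l 16507648) (l 16514664)) (l 16546736))) (a (c (a (l 16530528) (l 16545912)) (a (l 16538384) (l 16531912))) (c (b (l 16521752) (l 16528664)) (l 16552848)))) (b (a (c (b (l 16559440) (l 16565376)) (a (l 16551232)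 (l 16544440))) (c (l 16537480) (l 16542784))) (b (a (c (l 16549328) (l 16554232)) (l 16482512)) (a (a (l 16559072) (l 16552280)) (l 16548800)))))) (b (a (a (b (c (l 16516280) (l 16523360)) (c (l 16527744) (l 16533936))) (b (c (l 16519720) (l 16521400)) (l 16531496))) (a (b (c (l 16521864) (l 16515976)) (l 16549088)) (b (b (c (l 16516056) (l 16509840)) (l 16517120)) (l 16544080)))) (a (a (b (c (l 16537456) (l 16542432)) (b (l 16543440) (l 16545568))) (b (l 16538384) (l 16541184))) (a (b (l 16536336) (l 16536920)) (b (l 16530784) (l 16532040)))))), by decide +kernel⟩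

def k5_pm_022 : ∃ t, chk3 f_pm_022 t 5 7 1 = true :=
  ⟨(a (b (a (a (b (b (l 16544968) (l 6)) (l 6)) (a (b (b (l 16575792) (l 16580552)) (l 6)) (a (b (l 16594288) (l 6)) (b (a (l 16592368) (c (l 16590288) (l 16520360))) (a (l 6) (b (l 16577656) (l 6))))))) (a (a (b (l 16587184) (l 16596072)) (b (b (l 16556760) (l 16561344)) (b (l 16565664) (l 16569392)))) (b (b (l 16552424) (l 16556152)) (b (l 16559568) (l 16562328))))) (a (l 6) (b (a (l 6) (b (l 16564264) (l 6))) (l 6)))) (b (a (b (a (b (l 16547912) (l 16550288)) (l 16532736)) (a (b (l 16552328) (l 16553608)) (l 16565304))) (a (b (l 16536512) (a (l 16537336) (l 16532512))) (b (l 16529304) (l 16546288)))) (b (a (b (a (l 16553944) (l 16542896)) (a (l 16553288) (l 16540584))) (b (a (l 16531368) (l 16519984)) (a (l 16527832) (l 16515360)))) (a (b (a (b (l 16552040) (l 6)) (a (l 16540696) (l 16533536))) (a (l 6) (b (a (l 16537224) (l 16529680)) (a (l 6) (c (l 16530480) (l 16522600)))))) (c (b (a (l 16526592) (l 16513832)) (a (b (l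 16522736) (a (l 16523168) (l 16516048))) (b (l 16509304) (a (l 16509120) (l 16502376))))) (b (a (l 16519768) (l 16505896)) (a (b (l 16514768) (a (l 16514696) (l 16507008))) (b (l 16500264) (a (l 16499560) (l 16492352)))))))))), by decide +kernel⟩

def k6_pm_022 : ∃ t, chk3 f_pm_022 t 6 4 1 = true :=
  ⟨(a (b (a (b (a (b (l 16482888) (l 16480384)) (b (l 16480608) (l 16487120))) (a (b (l 16478592) (l 16477456)) (b (l 16485064) (l 16483632)))) (b (a (b (c (l 16499880) (l 16494256)) (l 16494936)) (b (l 16506416) (c (l 16506400) (l 16500720)))) (a (b (l 16492656) (l 16490968)) (b (l 16501520) (l 16499632))))) (a (b (a (b (l 16476944) (l 16498000)) (c (b (l 16486280) (l 16486120)) (l 16478280))) (a (b (c (l 16481376) (l 16473240)) (a (l 16478048) (l 16479952))) (b (c (l 16486424) (l 16478104)) (c (l 16487224) (l 16478792))))) (b (a (c (b (l 16493336) (l 16492800)) (l 16485168)) (c (b (l 16501600) (l 16500800)) (l 16493544))) (a (b (c (l 16492688) (l 16484352)) (c (l 16493056) (l 16484608)))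 (a (b (l 16494584) (l 16494600)) (b (l 16498848) (l 16498688))))))) (b (a (b (a (b (l 16516624) (c (l 16516184) (l 16511120))) (a (l 16523592) (l 16528992))) (a (b (l 16511736) (l 16509704)) (c (a (l 16521264) (l 16526712)) (l 16518496)))) (b (a (l 16537720) (l 16549872)) (a (b (l 16533704) (l 16531424)) (b (l 16545376) (l 16543008))))) (a (a (b (c (b (l 16511144) (l 16510096)) (l 16503568)) (a (b (l 16503488) (l 16503152)) (b (l 16508496) (l 16507984)))) (b (c (a (l 16528880) (l 16523616)) (l 16514304)) (c (a (b (l 16516728) (l 16516152)) (l 16521448)) (a (l 16509448) (l 16514344))))) (b (a (l 16528752) (l 16539712)) (a (c (l 16529128) (l 16521968)) (l 16535960)))))), by decide +kernel⟩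

def k7_pm_022 : ∃ t, chk3 f_pm_022 t 12 5 1 = true :=
  ⟨(b (a (b (a (b (a (l 16479984) (l 16481632)) (a (l 16482464) (l 16483840))) (b (c (l 16488568) (l 16480040)) (a (l 16485536) (l 16487592)))) (a (b (a (l 16485464) (l 16486560)) (a (l 16488968) (c (l 16493672) (l 16485112)))) (b (a (l 16488000) (l 16489824)) (a (c (l 16494936) (l 16486280)) (l 16492592))))) (b (a (b (c (l 16493968) (l 16485424)) (a (l 16490064) (l 16492944))) (b (c (a (l 16498992) (l 16502792)) (l 16492544)) (c (a (l 16500112) (l 16503728)) (l 16493504)))) (a (b (a (l 16492080) (l 16494752)) (a (l 16494640) (l 16497120))) (b (a (l 16497856) (l 16501368)) (a (l 16500032) (l 16503368)))))) (b (a (a (b (c (l 16497056) (a (l 16488312) (l 16488832))) (a (l 16497384) (l 16497680))) (b (c (l 16504376) (a (l 16489760) (l 16491160))) (c (l 16502880) (a (l 16493704) (l 16494888))))) (b (a (c (a (l 16501776) (l 16504048)) (a (l 16493032) (l 16495376))) (c (b (l 16507448) (l 16508896)) (a (l 16498192) (l 16501472))))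 (a (c (l 16506160) (a (l 16496544) (l 16498688))) (a (l 16505808) (l 16508776))))) (a (c (a (b (l 16505624) (l 16509888)) (b (l 16506560) (l 16510016))) (a (b (l 16497552) (l 16502584)) (b (l 16498336) (l 16502576)))) (b (a (c (l 16509248) (l 16501088)) (c (l 16513608) (l 16505784))) (a (c (l 16511944) (l 16504592)) (c (l 16515624) (l 16508664))))))), by decide +kernel⟩

def k8_pm_022 : ∃ t, chk3 f_pm_022 t 13 5 1 = true :=
  ⟨(b (a (a (b (b (c (a (l 16506936) (l 16511424)) (l 16501408)) (c (a (l 16507696) (l 16512016)) (l 16502016))) (b (a (l 16505296) (l 16509624)) (a (l 16507120) (l 16511296)))) (b (a (c (b (l 16516120) (l 16516536)) (b (l 16508920) (l 16509280))) (b (l 16517480) (l 16517696))) (a (b (a (l 16513080) (l 16515208)) (a (l 16514568) (l 16516584))) (b (l 16518360) (l 16519544))))) (b (a (c (l 16527824) (l 16520704)) (l 16533632)) (a (a (l 16523064) (l 16527104)) (l 16533040)))) (a (b (a (b (a (l 16509520) (l 16513512)) (c (l 16517600) (l 16509912))) (b (a (a (l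 16516600) (l 16518472)) (l 16521224)) (a (a (l 16518720) (l 16520432)) (l 16522952)))) (a (b (c (l 16519440) (l 16512240)) (c (l 16520384) (l 16514008))) (b (a (l 16520984) (l 16523960)) (a (l 16521528) (l 16523992))))) (b (a (b (l 16526680) (l 16527920)) (l 16534112)) (a (b (l 16528296) (l 16527544)) (l 16532760))))), by decide +kernel⟩

def k9_pm_022 : ∃ t, chk3 f_pm_022 t 7 2 1 = true :=
  ⟨(b (a (b (a (b (l 16567464) (a (l 16555584) (l 16566416))) (b (l 16590240) (l 16582344))) (a (b (l 16555440) (a (l 16545808) (l 16555120))) (b (l 16575760) (l 16569144)))) (b (a (l 16631320) (l 16676064)) (a (b (l 16597488) (l 16589888)) (b (l 16618728) (l 16609336))))) (a (b (a (b (a (l 16542400) (l 16550704)) (l 16565184)) (b (l 16563640) (l 16559672))) (a (b (a (l 16540352) (l 16546672)) (a (l 16537576) (l 16542576))) (b (l 16557824) (l 16551480)))) (b (a (b (l 16582960) (l 16577152)) (b (l 16600104) (l 16590768))) (a (b (l 16572320) (l 16562944)) (b (l 16583376) (l 16569944)))))), by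 decide +kernel⟩

def k10_pm_022 : ∃ t, chk3 f_pm_022 t 6 6 1 = true :=
  ⟨(a (b (b (a (b (a (c (l 16513800) (l 16507408)) (l 16520808)) (a (l 16514376) (l 16513352))) (b (a (l 16532416) (l 16514432)) (a (l 16514008) (l 16516248)))) (a (a (l 16519632) (l 16517856)) (a (l 16496768) (l 16497400)))) (b (a (a (l 16526192) (l 16523208)) (a (l 16521088) (l 16519248))) (a (l 16545184) (l 16514120)))) (b (a (b (a (b (l 16518440) (l 16518968)) (b (a (l 16521424) (l 16523288)) (a (l 16520880) (l 16522064)))) (a (l 16519344) (l 16519848))) (b (b (l 16548424) (l 16587536)) (l 16520040))) (a (b (l 16536400) (l 16504680)) (b (l 16509960) (l 16495936))))), by decide +kernel⟩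

def k11_pm_022 : ∃ t, chk3 f_pm_022 t 6 7 1 = true :=
  ⟨(a (b (a (b (b (l 16519800) (l 16579768)) (a (l 16515880) (l 16506872))) (b (a (l 16507968) (l 16501376)) (a (l 16498192) (l 16489888)))) (b (a (a (b (l 16509160) (l 16503640)) (b (l 16498856) (l 16492480))) (b (a (l 16488840) (l 16479288)) (a (l 16481624) (l 16471184)))) (a (b (a (b (l 16498960) (l 16495504)) (a (l 16488264) (l 16482280))) (a (b (c (l 16496568) (l 16486664)) (a (c (l 16495816) (l 16485376)) (c (l 16489360) (l 16478536)))) (b (c (l 16484240) (l 16473512)) (c (a (l 16482960) (l 16476576)) (a (l 16471712) (l 16464824)))))) (b (a (l 16494432) (l 16462160)) (a (b (l 16487352) (c (a (l 16470312) (l 16464216)) (l 16475648))) (a (c (l 16460984) (l 16448000)) (b (l 16451560) (c (l 16452600) (l 16438560))))))))) (b (a (b (a (l 16495040) (l 16488960)) (a (l 16481968) (l 16474560))) (b (a (l 16483416) (l 16478616)) (a (l 16467872) (l 16461720)))) (b (a (a (b (l 16470208) (l 16461336)) (b (l 16461800) (l 16452248)))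 (b (a (l 16454120) (l 16446976)) (a (l 16443928) (l 16435992)))) (a (b (a (b (l 16454104) (l 16448896)) (a (l 16444160) (l 16439512))) (a (b (a (l 16445976) (l 16440640)) (a (c (l 16447136) (l 16432520)) (c (l 16441904) (l 16426760)))) (b (c (l 16440400) (l 16425488)) (c (a (l 16436872) (l 16431976)) (a (l 16421320) (l 16416128)))))) (c (b (a (l 16439808) (l 16431160)) (a (b (l 16431128) (a (l 16427168) (l 16422360))) (b (l 16421784) (a (l 16417480) (l 16412520))))) (b (a (l 16425504) (l 16416712)) (a (b (l 16415744) (a (l 16411136) (l 16406288))) (b (l 16406480) (a (l 16401512) (l 16396752)))))))))), by decide +kernel⟩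

def k12_pm_022 : ∃ t, chk3 f_pm_022 t 7 6 1 = true :=
  ⟨(a (b (a (b (l 16532080) (l 16521184)) (b (l 16539400) (l 16522104))) (a (b (l 16504944) (l 16489520)) (b (l 16501416) (l 16481648)))) (b (a (b (l 16545496) (l 16521784)) (b (l 16548264) (l 16520728))) (a (b (l 16491576) (l 16469832)) (b (l 16484808) (l 16454336))))), by decide +kernel⟩

def k13_pm_022 : ∃ t, chk3 f_pm_022 t 14 7 1 = true :=
  ⟨(b (a (b (a (l 16474184) (l 16469816)) (a (l 16455896) (l 16449200))) (b (a (l 16464016) (l 16457512)) (a (l 16442032) (l 16433872)))) (a (b (a (b (l 16439760) (l 16427848)) (b (l 16431880) (l 16419288))) (b (a (a (l 16417464) (l 16412912)) (l 16405960)) (b (a (a (l 16407280) (l 16402488)) (l 16395384)) (a (c (a (l 16407488) (l 16402416)) (l 16410584)) (c (a (l 16397368) (l 16392400)) (l 16380248)))))) (b (b (l 16419168) (a (l 16410416) (l 16401968))) (b (a (l 16396944) (l 16388440)) (a (b (l 16386224) (c (a (l 16387560) (l 16382888)) (a (l 16373480) (l 16369160)))) (b (c (l 16383496)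 (l 16371008)) (c (a (l 16378400) (l 16374112)) (a (l 16365016) (l 16361064))))))))), by decide +kernel⟩

def k14_pm_022 : ∃ t, chk3 f_pm_022 t 15 7 1 = true :=
  ⟨(b (a (b (l 16445736) (a (l 16425976) (l 16418664))) (b (l 16431752) (b (l 16414816) (l 16403160)))) (b (a (b (l 16403512) (a (l 16394152) (l 16387120))) (b (l 16390872) (a (l 16380920) (l 16375864)))) (a (b (a (l 16380624) (b (l 16377112) (l 16370192))) (a (b (c (l 16375320) (l 16363520)) (c (b (l 16369928) (a (l 16368152) (l 16364320))) (a (l 16357296) (l 16353744)))) (b (c (l 16368064) (l 16356864)) (c (b (l 16362752) (a (l 16360752) (l 16357504))) (a (l 16350432) (l 16347384)))))) (a (b (b (l 16371064) (l 16364256)) (b (c (l 16362072) (l 16351256)) (b (c (a (l 16358200) (l 16355608)) (l 16345376)) (c (a (c (l 16356920) (l 16352032)) (b (l 16352936) (a (l 16351760) (l 16350528)))) (a (l 16342584) (l 16340120)))))) (a (b (l 16364000) (b (l 16353632) (c (b (l 16353248) (b (l 16355816) (c (c (l 141095962634846223) (l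 16349904)) (l 16346232)))) (a (l 16340472) (l 16339400))))) (b (l 16361848) (b (c (l 16356192) (l 16345720)) (b (c (l 16351024) (l 16339888)) (c (a (c (c (l 140895782797295631) (l 16349096)) (l 16345528)) (c (l 140905197361348623) (l 16344480))) (c (l 16339208) (l 16332208))))))))))), by decide +kernel⟩

theorem s15_pm_022 : ∃ t, chk3 f_pm_022 t 7 7 1 = true := ex3_a k13_pm_022 k14_pm_022

theorem s16_pm_022 : ∃ t, chk3 f_pm_022 t 7 3 1 = true := ex3_b k12_pm_022 s15_pm_022

theorem s17_pm_022 : ∃ t, chk3 f_pm_022 t 6 3 1 = true := ex3_b k10_pm_022 k11_pm_022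

theorem s18_pm_022 : ∃ t, chk3 f_pm_022 t 3 3 1 = true := ex3_a s17_pm_022 s16_pm_022

theorem s19_pm_022 : ∃ t, chk3 f_pm_022 t 6 5 1 = true := ex3_a k7_pm_022 k8_pm_022

theorem s20_pm_022 : ∃ t, chk3 f_pm_022 t 6 2 1 = true := ex3_b k6_pm_022 s19_pm_022

theorem s21_pm_022 : ∃ t, chk3 f_pm_022 t 3 2 1 = true := ex3_a s20_pm_022 k9_pm_022

theorem s22_pm_022 : ∃ t, chk3 f_pm_022 t 3 1 1 = true := ex3_b s21_pm_022 s18_pm_022

theorem s23_pm_022 : ∃ t, chk3 f_pm_022 t 5 3 1 = true := ex3_b k4_pm_022 k5_pm_022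

theorem s24_pm_022 : ∃ t, chk3 f_pm_022 t 5 5 1 = true := ex3_a k2_pm_022 k3_pm_022

theorem s25_pm_022 : ∃ t, chk3 f_pm_022 t 5 2 1 = true := ex3_b k1_pm_022 s24_pm_022

theorem s26_pm_022 : ∃ t, chk3 f_pm_022 t 5 1 1 = true := ex3_b s25_pm_022 s23_pm_022

theorem s27_pm_022 : ∃ t, chk3 f_pm_022 t 2 1 1 = true := ex3_a k0_pm_022 s26_pm_022

theorem s28_pm_022 : ∃ t, chk3 f_pm_022 t 1 1 1 = true := ex3_a s27_pm_022 s22_pm_022

theorem c_pm_022 : CertB 0 536870912 0 536870912 697932185 42949674 3 eng mog cd0q0 cd0q2 pd2 true true false .pp 0 2 2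
    ndB0q0 ndB0q2 pcB2 cut_pm_022 xt_pm_022 :=
  certB2 (fam := true) (s1 := true) (s2 := false) (a := 0) (b := 2) (c := 2) (cn := .pp) (n1 := ndB0q0) (n2 := ndB0q2) (pc := pcB2) (cut := cut_pm_022) (xt := xt_pm_022) (P1 := 0) (W1 := 536870912) (P2 := 0) (W2 := 536870912) (P3 := 697932185) (W3 := 42949674) (N0 := 3) (En := eng) (mo := mog) (C1 := cd0q0) (C2 := cd0q2) (C3 := pd2)
    rfl (fun _ => rfl) s28_pm_022

noncomputable def cut_pm_023 : Cut := Cut.of [[⟨3, 0, 0, 1449551462⟩], [⟨4, 0, 0, 2845415833⟩]]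

noncomputable def xt_pm_023 : Ext := extD2 3 ⟨7, 3, 3, 10, 49, 25, 3, 4, 67, 200, 3, 16⟩ eng cd0q0 cd0q2 pd3 true true false .up 0 2 3 rfl ndB0q0 ndB0q2 pcB3

noncomputable def f_pm_023 : ℕ → ℕ → ℕ → ℕ → Bool := onCell 0 536870912 0 536870912 697932185 42949674
    (rowB 3 eng mog cd0q0 cd0q2 pd3 0 true true false .up 0 2 3 (qsf 0 536870912 0 536870912 3) ndB0q0 ndB0q2 pcB3 cut_pm_023 xt_pm_023)

def k0_pm_023 : ∃ t, chk3 f_pm_023 t 1 1 1 = true :=
  ⟨(a (l 1) (b (a (a (l 1) (a (b (b (l 1) (l 1)) (l 1)) (b (b (b (l 16657976) (l 16645776)) (b (l 16633048) (a (l 16613872) (l 16623496)))) (b (b (l 16604240) (l 66068342823)) (a (l 1) (b (l 16580528) (l 16562112))))))) (a (b (a (b (b (l 16673960) (l 16661824)) (b (l 16648960) (b (l 16638000) (l 16630408)))) (b (b (l 16687040) (l 16673960)) (l 16651696))) (b (a (b (l 16619240) (l 16604872)) (b (l 16626288) (l 16610896))) (a (b (l 16591376) (a (l 16569512) (l 16575096))) (b (l 16597552) (l 16556664))))) (b (b (a (b (l 14) (l 16679920))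 (l 14)) (a (l 16672032) (b (l 16694080) (l 16678696)))) (a (b (b (l 16623360) (l 16607128)) (b (l 16590104) (l 16566704))) (b (b (l 16662328) (a (l 16638120) (l 16656112))) (b (a (l 16623688) (l 16644024)) (l 16613304))))))) (a (b (l 1) (l 1)) (b (a (b (a (b (a (l 16545600) (l 16550200)) (a (l 1) (l 16523224))) (b (l 16540304) (l 16501256))) (a (b (l 16495848) (l 1)) (b (a (l 16493656) (l 16486840)) (l 16452512)))) (b (a (b (l 16536456) (l 16501992)) (b (l 16584040) (l 16570088))) (a (b (l 16467536) (l 16438576)) (b (l 16593368) (l 16470520))))) (a (b (a (l 1) (b (l 16415576) (l 1))) (l 1)) (b (a (b (l 16413344) (l 16475000)) (b (l 16436200) (a (l 16401168) (l 16411680)))) (b (a (b (l 16375280) (l 1)) (a (b (l 16381376) (l 16368776)) (b (l 16389104) (l 16374776)))) (a (l 1) (b (a (l 196527539143) (c (b (l 16376088) (l 16369600)) (l 16349704))) (a (l 1) (a (c (l 206191147063) (l 205654253783)) (b (c (l 140569296591175695) (l 16339664)) (c (l 140636641664466959) (c (l 16338376)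 (l 16326072))))))))))))))), by decide +kernel⟩

theorem c_pm_023 : CertB 0 536870912 0 536870912 697932185 42949674 3 eng mog cd0q0 cd0q2 pd3 true true false .up 0 2 3
    ndB0q0 ndB0q2 pcB3 cut_pm_023 xt_pm_023 :=
  certB0 (fam := true) (s1 := true) (s2 := false) (a := 0) (b := 2) (c := 3) (cn := .up) (n1 := ndB0q0) (n2 := ndB0q2) (pc := pcB3) (cut := cut_pm_023) (xt := xt_pm_023) (P1 := 0) (W1 := 536870912) (P2 := 0) (W2 := 536870912) (P3 := 697932185) (W3 := 42949674) (N0 := 3) (En := eng) (mo := mog) (C1 := cd0q0) (C2 := cd0q2) (C3 := pd3)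
    rfl k0_pm_023

noncomputable def cut_pm_101 : Cut := Cut.of [[⟨3, 0, 0, 1449551462⟩], [⟨4, 0, 0, 2845415833⟩], [⟨0, 1, 0, 67108864⟩, ⟨1, 0, 0, 67108864⟩, ⟨2, 1, 0, 67108864⟩]]

noncomputable def f_pm_101 : ℕ → ℕ → ℕ → ℕ → Bool := onCell 536870912 536870912 536870912 536870912 697932185 42949674
    (rowB 3 eng mog cd0q1 cd0q0 pd1 1 true true false .npn 1 0 1 (qsf 536870912 536870912 0 536870912 1) ndB0q1 ndB0q0 pcB1 cut_pm_101 Ext.none)

def k0_pm_101 : ∃ t, chk3 f_pm_101 t 1 1 1 = true :=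
  ⟨(l 6), by decide +kernel⟩

theorem c_pm_101 : CertB 536870912 536870912 0 536870912 697932185 42949674 3 eng mog cd0q1 cd0q0 pd1 true true false .npn 1 0 1
    ndB0q1 ndB0q0 pcB1 cut_pm_101 Ext.none :=
  certB1 (fam := true) (s1 := true) (s2 := false) (a := 1) (b := 0) (c := 1) (cn := .npn) (n1 := ndB0q1) (n2 := ndB0q0) (pc := pcB1) (cut := cut_pm_101) (xt := Ext.none) (P1 := 536870912) (W1 := 536870912) (P2 := 0) (W2 := 536870912) (P3 := 697932185) (W3 := 42949674) (N0 := 3) (En := eng) (mo := mog) (C1 := cd0q1) (C2 := cd0q0) (C3 := pd1)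
    rfl (fun _ => rfl) k0_pm_101

noncomputable def cut_pm_102 : Cut := Cut.of [[⟨3, 0, 0, 1449551462⟩], [⟨4, 0, 0, 2845415833⟩], [⟨0, 1, 0, 33554432⟩, ⟨1, 0, 0, 33554432⟩, ⟨2, 1, 0, 33554432⟩]]

noncomputable def xt_pm_102 : Ext := extD2 3 ⟨7, 3, 3, 10, 49, 25, 3, 4, 67, 200, 3, 16⟩ eng cd0q1 cd0q0 pd2 true true false .npp 1 0 2 rfl ndB0q1 ndB0q0 pcB2

noncomputable def f_pm_102 : ℕ → ℕ → ℕ → ℕ → Bool := onCell 536870912 536870912 0 536870912 697932185 42949674
    (rowB 3 eng mog cd0q1 cd0q0 pd2 0 true true false .npp 1 0 2 (qsf 536870912 536870912 0 536870912 2) ndB0q1 ndB0q0 pcB2 cut_pm_102 xt_pm_102)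

def k0_pm_102 : ∃ t, chk3 f_pm_102 t 2 1 1 = true :=
  ⟨(l 6), by decide +kernel⟩

def k1_pm_102 : ∃ t, chk3 f_pm_102 t 3 2 1 = true :=
  ⟨(a (l 6) (b (l 6) (a (l 6) (b (l 6) (a (l 6) (a (l 6) (b (l 6) (b (a (l 6) (c (b (l 16529144) (l 16521704)) (b (l 16520624) (l 16512632)))) (a (c (b (l 16528824) (l 16521400)) (b (l 16520000) (l 16512112))) (c (b (l 16514472) (l 16507432)) (b (l 16504896) (l 16497400)))))))))))), by decide +kernel⟩

def k2_pm_102 : ∃ t, chk3 f_pm_102 t 6 3 1 = true :=
  ⟨(b (l 6) (a (l 6) (b (a (l 6) (a (l 6) (b (l 6) (b (l 6) (l 16557312))))) (a (b (l 6) (a (l 16607528) (l 16583704))) (b (a (b (l 16574952) (l 16568264)) (b (l 16549792) (l 16543496))) (a (b (l 16562768) (l 16558440)) (b (l 16538496) (l 16534752)))))))), by decide +kernel⟩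

def k3_pm_102 : ∃ t, chk3 f_pm_102 t 14 6 1 = true :=
  ⟨(b (l 6) (a (l 6) (b (a (l 6) (b (l 6) (a (l 6) (c (b (a (l 6) (l 16523712)) (a (l 16522872) (l 16516976))) (b (l 16515664) (l 16529440)))))) (a (b (a (l 6) (a (l 6) (a (l 6) (b (l 6) (l 16520992))))) (a (b (l 6) (c (l 16530456) (l 16520568))) (c (b (l 16524544) (l 16518568)) (b (l 16513792) (l 16507688))))) (b (a (a (b (l 6) (l 16516424)) (b (a (l 16518288) (l 16515272)) (l 16510416))) (c (b (l 16513536) (l 16507392)) (b (l 16501672) (l 16495248)))) (c (a (b (l 16512872) (l 16506960)) (b (l 16501424) (l 16495560))) (a (b (l 16501272) (l 16495264)) (l 16507104)))))))), by decide +kernel⟩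

def k4_pm_102 : ∃ t, chk3 f_pm_102 t 15 12 1 = true :=
  ⟨(a (b (a (l 6) (b (l 6) (a (l 6) (l 16529856)))) (a (b (l 6) (a (l 6) (b (l 6) (l 16529512)))) (b (a (c (l 16530976) (l 16521496)) (c (l 16518600) (l 16508856))) (a (b (l 16514432) (c (l 16512016) (l 16501152))) (b (c (l 16507376) (l 16496816)) (c (l 16500152) (l 16488952))))))) (b (a (b (a (a (l 6) (b (l 6) (l 16525664))) (b (l 16544176) (l 16515504))) (a (a (b (l 16524384) (l 16516408)) (c (l 16518456) (l 16509088))) (c (b (l 16512680) (l 16505360)) (l 16499024)))) (b (a (c (b (l 16514160) (l 16507016)) (b (l 16504464) (l 16496912))) (c (b (c (l 16503136) (l 16497984)) (a (l 16497128) (l 16490456))) (b (l 16490128) (l 16482952)))) (a (c (b (l 16499952) (l 16492976)) (b (l 16489424) (l 16482000))) (c (b (a (l 16490336) (l 16483840)) (a (l 16483608) (l 16477264))) (b (l 16475824) (l 16468680)))))) (a (b (a (a (b (l 16508560) (c (l 16505840) (l 16495632))) (c (l 16503552) (l 16493240))) (c (b (l 16498160) (l 16491096))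 (b (l 16487480) (l 16479864)))) (b (a (a (c (l 16498552) (l 16487768)) (l 16487320)) (c (l 16484208) (l 16472360))) (a (a (c (l 16491488) (l 16480032)) (l 16480088)) (c (l 16477544) (l 16465048))))) (b (a (c (b (l 16491344) (l 16479360)) (b (l 16474608) (l 16467280))) (c (c (b (l 16476864) (l 16470608)) (l 16467592)) (b (l 16461576) (l 16454616)))) (c (a (b (l 16472816) (l 16466496)) (b (c (l 16464552) (l 16458024)) (c (l 16458720) (l 16451912)))) (a (b (l 16460120) (l 16453168)) (b (l 16447824) (l 16441232)))))))), by decide +kernel⟩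

def k5_pm_102 : ∃ t, chk3 f_pm_102 t 30 13 1 = true :=
  ⟨(b (a (b (a (b (c (l 16529000) (l 16518280)) (c (a (l 16524744) (l 16518672)) (l 16510528))) (b (c (l 16516776) (l 16505688)) (c (a (l 16512696) (l 16506808)) (l 16498112)))) (a (b (c (a (l 16517728) (l 16511832)) (l 16503144)) (c (l 16508256) (l 16496144))) (c (b (l 16503096) (l 16496744)) (b (l 16490904) (l 16484080))))) (b (a (b (c (l 16515352) (l 16493376)) (c (l 16498080) (l 16485968))) (c (b (l 16493224) (l 16486624)) (l 16498664))) (a (c (b (l 16491600) (l 16485384)) (b (l 16478952) (l 16472304))) (c (b (l 16480296) (l 16474200)) (b (l 16467312) (l 16460832)))))) (a (b (c (a (b (l 16502016) (l 16495976)) (b (l 16490616) (l 16484664))) (a (b (l 16489520) (l 16483224)) (b (l 16477608) (l 16471432)))) (a (c (b (l 16490072) (l 16484256)) (l 16474256)) (c (b (l 16478824) (l 16473048)) (l 16462616)))) (b (c (a (b (l 16479368) (l 16473496)) (b (l 16468288) (l 16462488))) (a (b (l 16465976) (l 16459920)) (l 16472616)))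 (a (c (b (l 16467704) (l 16461952)) (l 16451224)) (c (b (l 16456736) (l 16451000)) (l 16440120)))))), by decide +kernel⟩

def k6_pm_102 : ∃ t, chk3 f_pm_102 t 31 13 1 = true :=
  ⟨(b (a (b (a (c (a (b (l 16484720) (l 16478240)) (b (l 16479232) (l 16472880))) (a (b (l 16472600) (l 16465552)) (l 16463280))) (c (b (l 16471152) (l 16465040)) (b (l 16458032) (l 16451392)))) (a (a (c (b (l 16472024) (l 16466016)) (b (l 16458872) (l 16452512))) (c (b (l 16466776) (l 16460856)) (l 16450184))) (c (b (l 16459160) (l 16453456)) (b (l 16445080) (l 16439072))))) (b (c (a (b (l 16460448) (l 16454656)) (b (c (l 16453144) (l 16446064)) (c (l 16447784) (l 16440480)))) (a (b (l 16446496) (l 16440192)) (b (l 16434920) (l 16428952)))) (c (a (b (l 16449072) (c (l 16447232) (l 16440000))) (b (c (l 16442600) (l 16435120)) (c (l 16437528) (l 16429936)))) (a (b (l 16434208) (l 16428496)) (b (c (l 16427320) (l 16419184)) (c (l 16421992) (l 16413696))))))) (a (b (a (c (a (b (l 16460168) (l 16454408)) (b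 (l 16455072) (l 16449360))) (a (l 16443472) (b (l 16441120) (l 16435336)))) (c (b (c (l 16451288) (l 16444376)) (c (l 16445760) (l 16438848))) (b (l 16433304) (l 16427720)))) (a (c (a (l 16445816) (b (l 16443656) (l 16437920))) (a (l 16432056) (l 16426912))) (c (b (c (l 16440184) (l 16433336)) (l 16431232)) (l 16430048)))) (b (c (a (b (c (l 16441944) (l 16434656)) (c (l 16436664) (l 16429384))) (b (l 16428736) (l 16423704))) (a (b (l 16423016) (l 16417696)) (b (l 16412696) (l 16407648)))) (c (a (b (c (l 16431312) (l 16424096)) (l 16422376)) (b (c (l 16422336) (l 16414792)) (l 16413440))) (a (b (l 16412488) (l 16407304)) (b (l 16402680) (l 16397720))))))), by decide +kernel⟩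

def k7_pm_102 : ∃ t, chk3 f_pm_102 t 14 14 1 = true :=
  ⟨(a (b (a (b (l 6) (a (l 6) (l 16544272))) (b (a (l 6) (c (l 16533800) (l 16524768))) (a (c (l 16535144) (l 16526800)) (c (l 16522856) (l 16513248))))) (a (b (a (l 16546512) (l 16533944)) (a (c (l 16541048) (l 16533488)) (l 16524856))) (b (a (c (l 16525272) (l 16516096)) (c (l 16513008) (l 16502640))) (a (c (l 16516704) (l 16506512)) (c (l 16504456) (l 16493144)))))) (b (a (b (a (c (l 16521736) (l 16511568)) (c (l 16509920) (l 16498816))) (a (c (l 16510856) (l 16500184)) (c (l 16499112) (l 16487568)))) (b (a (c (l 16498384) (l 16486504)) (c (l 16487040) (l 16474544))) (a (c (l 16487624) (l 16475384)) (c (l 16476320) (l 16463544))))) (a (b (a (c (l 16501040) (l 16489688)) (c (l 16489328) (l 16477176))) (a (c (l 16492504) (l 16480288)) (c (l 16480800) (l 16467856)))) (b (c (a (l 16477872) (l 16466568)) (a (l 16465088) (l 16453328))) (c (a (l 16469336) (l 16458016)) (a (l 16455840) (l 16444136))))))), by decide +kernel⟩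

def k8_pm_102 : ∃ t, chk3 f_pm_102 t 14 15 1 = true :=
  ⟨(a (b (a (b (a (l 16530032) (c (l 16521912) (l 16511752))) (a (l 16523952) (c (l 16516376) (l 16504792)))) (b (a (c (l 16509576) (l 16498216)) (c (l 16497328) (l 16484920))) (a (c (l 16504040) (l 16491312)) (c (l 16491784) (l 16478088))))) (a (b (a (l 16519320) (c (l 16512672) (l 16499392))) (a (l 16516040) (c (l 16510680) (l 16495584)))) (c (b (a (l 16500272) (c (l 16491584) (l 16484496))) (a (l 16498520) (l 16486528))) (b (a (b (l 16487144) (l 16484864)) (c (l 16476880) (l 16468736))) (a (c (l 16486656) (l 16478136)) (c (l 16474040) (l 16465088))))))) (b (a (b (a (c (l 16485376) (l 16472128)) (c (l 16473664) (l 16459768))) (b (a (l 16474264) (c (l 16469336) (l 16454592))) (c (a (l 16478720) (l 16467048)) (a (l 16463904) (l 16451688))))) (b (b (a (l 16457048) (c (l 16452472) (l 16438008))) (c (a (l 16460624) (l 16449232)) (a (l 16446000) (l 16434376)))) (c (a (b (l 16457848) (l 16455552)) (c (l 16448624) (l 16441528)))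 (a (b (l 16442720) (l 16439912)) (l 16429712))))) (a (b (c (a (b (l 16476936) (l 16475736)) (c (l 16468368) (l 16460752))) (a (b (l 16461392) (l 16459416)) (b (l 16449304) (l 16447352)))) (c (a (c (l 16478736) (l 16470528)) (c (l 16466992) (l 16458672))) (a (c (l 16461792) (l 16452536)) (c (l 16449792) (l 16440360))))) (b (b (c (a (l 16453752) (l 16442104)) (a (l 16437536) (l 16425952))) (c (a (l 16452408) (l 16440640)) (a (l 16435568) (l 16423944)))) (b (c (a (l 16451432) (l 16439536)) (a (l 16433976) (l 16422304))) (c (a (l 16450824) (c (l 16442800) (l 16434584))) (a (l 16432760) (l 16421024)))))))), by decide +kernel⟩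

def k9_pm_102 : ∃ t, chk3 f_pm_102 t 30 14 1 = true :=
  ⟨(b (a (b (c (a (l 16475784) (l 16464592)) (a (l 16462808) (l 16451280))) (c (a (l 16465080) (l 16453888)) (a (l 16451896) (l 16440448)))) (b (c (a (l 16453512) (c (l 16445648) (l 16439328))) (a (l 16439992) (l 16428968))) (c (a (l 16442776) (c (l 16434816) (l 16428560))) (a (l 16429208) (l 16418208))))) (a (b (c (a (l 16455312) (b (l 16446424) (l 16441784))) (a (l 16441752) (l 16430336))) (c (c (a (b (l 16451880) (l 16447960)) (b (l 16440608) (l 16436552))) (a (l 16443392) (l 16432032))) (a (b (l 16434776) (l 16430472)) (b (l 16423368) (l 16419096))))) (c (c (b (a (b (l 16438344) (l 16433680)) (b (l 16427216) (l 16422344))) (a (b (l 16429208) (l 16424920)) (b (l 16417608) (l 16413112)))) (b (a (l 16429648) (l 16418512)) (a (b (l 16422832) (l 16418584)) (l 16409272)))) (b (a (b (l 16421552) (l 16416720)) (l 16408104)) (a (b (l 16412152) (l 16407872)) (l 16398912)))))), by decide +kernel⟩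

def k10_pm_102 : ∃ t, chk3 f_pm_102 t 31 14 1 = true :=
  ⟨(b (a (c (b (a (a (l 16434480) (b (l 16432232) (l 16426640))) (c (b (l 16428936) (l 16423408)) (l 16419584))) (a (a (l 16423624) (c (b (l 16424208) (l 16418848)) (l 16415344))) (c (b (l 16417992) (l 16412600)) (l 16408896)))) (b (a (a (l 16420944) (l 16415856)) (l 16408824)) (a (a (l 16410192) (l 16405112)) (l 16398336)))) (b (b (c (a (l 16422272) (c (l 16411856) (l 16404584))) (a (l 16402152) (l 16392784))) (c (a (c (l 16415104) (l 16408248)) (c (l 16406608) (l 16399504))) (a (l 16397040) (l 16387880)))) (c (a (c (b (l 16409760) (l 16404408)) (l 16400472)) (b (l 16408448) (l 16392888))) (a (c (l 16393312) (l 16385584)) (b (l 16383048) (l 16378312)))))) (a (c (b (a (a (b (l 16415896) (l 16410864)) (c (a (l 16412096) (l 16409600)) (l 16404968))) (c (b (l 16407216) (l 16401984)) (l 16398600))) (a (a (b (l 16406048) (l 16401480)) (c (b (l 16403224) (l 16398424)) (l 16395288))) (c (b (l 16396968) (l 16392160)) (l 16388984))))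 (a (b (c (l 16401032) (l 16393824)) (c (l 16391656) (l 16384520))) (b (l 16388376) (c (l 16382624) (l 16375472))))) (c (b (a (c (b (l 16399168) (l 16394112)) (l 16390480)) (b (l 16387944) (l 16383184))) (a (c (b (l 16389264) (l 16384624)) (l 16381216)) (b (l 16378624) (c (l 16377008) (l 16371272))))) (b (a (c (l 16383632) (l 16376080)) (b (l 16373712) (l 16369280))) (a (c (l 16374672) (l 16367296)) (b (l 16365032) (l 16360984))))))), by decide +kernel⟩

def k11_pm_102 : ∃ t, chk3 f_pm_102 t 30 15 1 = true :=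
  ⟨(b (a (b (c (a (b (c (l 16444344) (l 16437656)) (l 16437736)) (b (c (l 16432736) (l 16426184)) (l 16426064))) (a (b (l 16426504) (l 16422920)) (b (l 16415144) (l 16411520)))) (c (a (b (l 16434784) (l 16432272)) (b (l 16422968) (l 16420288))) (a (l 16418208) (l 16406728)))) (b (c (c (a (b (l 16420920) (l 16417264)) (b (l 16408904) (l 16405032))) (a (l 16412760) (b (l 16403000) (l 16399200)))) (a (b (l 16403880) (l 16400184)) (b (l 16392712) (l 16388928)))) (c (a (b (l 16410944) (l 16408072)) (c (b (l 16401520) (l 16398408)) (l 16394136))) (a (l 16416240) (c (l 16387496) (l 16379984)))))) (a (b (b (c (a (l 16430216) (l 16418072)) (a (l 16414376) (l 16402776))) (c (a (l 16428608) (l 16416272)) (a (l 16412312) (l 16400624)))) (b (c (a (l 16427336) (l 16414800)) (a (l 16410592) (l 16398808))) (c (a (c (l 16430224) (l 16422368)) (l 16413624)) (a (l 16409224) (l 16397320))))) (b (c (a (b (c (l 16408752) (l 16402344)) (c (l 16406792) (l 16400272))) (b (c (l 16395752) (l 16389960))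 (c (l 16393496) (l 16387656)))) (a (b (l 16391168) (l 16388904)) (b (l 16379552) (l 16377144)))) (c (a (b (c (l 16405112) (l 16398504)) (c (l 16403720) (l 16397024))) (a (b (l 16392040) (l 16390376)) (c (b (l 16388056) (l 16386224)) (l 16381448)))) (a (b (l 16386952) (l 16385312)) (b (l 16375024) (l 16373200))))))), by decide +kernel⟩

def k12_pm_102 : ∃ t, chk3 f_pm_102 t 31 30 1 = true :=
  ⟨(a (c (a (a (b (b (l 16397184) (l 16393184)) (c (l 16390352) (l 16385064))) (c (b (b (l 16393896) (l 16389664)) (b (l 16385768) (l 16382264))) (b (l 16386576) (l 16379056)))) (b (c (b (l 16387584) (l 16383272)) (b (l 16382336) (l 16378208))) (c (b (l 16379264) (c (l 16376608) (l 16374496))) (b (l 16374368) (l 16370832))))) (a (b (c (l 16383248) (l 16376184)) (c (l 16375984) (l 16368960))) (b (c (l 16374160) (l 16367160)) (c (l 16366712) (l 16359840))))) (c (b (a (b (c (l 16380208) (l 16374816)) (c (l 16376048) (l 16370848))) (b (c (l 16372752) (l 16367224)) (c (l 16368744) (l 16363408))))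 (a (c (b (l 16372192) (l 16368672)) (b (l 16367160) (l 16363776))) (b (c (l 16365040) (l 16359864)) (c (c (l 16362752) (l 16360512)) (l 16356632))))) (b (a (b (l 16364984) (l 16361200)) (b (l 16357128) (l 16353504))) (a (c (l 16359408) (l 16352344)) (c (b (l 16353640) (l 16350504)) (l 16344784)))))), by decide +kernel⟩

def k13_pm_102 : ∃ t, chk3 f_pm_102 t 31 62 1 = true :=
  ⟨(b (a (a (c (c (c (l 16383624) (l 16381360)) (l 16377496)) (l 16368056)) (c (c (c (a (l 16374984) (l 16371600)) (l 16371240)) (l 16367656)) (l 16358656))) (c (a (c (a (l 16367224) (l 16363832)) (l 16360744)) (c (a (l 16360408) (l 16356912)) (l 16353744))) (a (l 16351488) (c (l 16347688) (l 16340504))))) (a (a (c (c (a (l 16383352) (l 16376520)) (l 16374928)) (l 16365464)) (c (c (c (a (a (l 16372848) (l 16371120)) (l 16368656)) (l 16368320)) (l 16364808)) (l 16355880))) (c (a (c (c (a (l 16365368) (l 16362064)) (l 16361656)) (l 16358024)) (b (c (c (l 16357688) (l 16355544)) (l 16351784)) (c (a (l 16357048)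 (l 16353648)) (l 16350544)))) (a (c (l 16352192) (l 16345208)) (c (l 16345160) (l 16338008)))))), by decide +kernel⟩

def k14_pm_102 : ∃ t, chk3 f_pm_102 t 31 63 1 = true :=
  ⟨(a (c (a (c (b (c (a (l 16382232) (l 16375080)) (l 16376440)) (c (a (l 16380184) (l 16372816)) (l 16374328))) (b (l 16372616) (l 16370544))) (c (b (a (c (a (l 16370080) (l 16368288)) (l 16367280)) (c (l 16365872) (l 16363928))) (a (a (c (c (l 16367928) (l 16367088)) (l 16365680)) (c (l 16365600) (l 16363768))) (c (l 141028480131743775) (l 16361376)))) (b (a (l 16363864) (l 16360472)) (a (l 16361424) (l 16358024))))) (a (c (l 16365512) (l 16358384)) (c (b (l 16356576) (l 16354248)) (b (l 16349840) (l 16347568))))) (a (c (c (c (a (b (a (l 16363456) (l 16361848)) (l 140979345699422239)) (b (c (l 16359880) (l 16358944)) (l 140933784679858207))) (b (a (l 16360672) (l 16357408)) (a (l 16358192) (l 141104140258721823)))) (b (a (l 16357160) (l 16353832)) (a (l 16354776) (l 16351512)))) (c (b (l 16349744) (l 16347496))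 (b (l 16342808) (l 16340640)))) (c (c (b (c (a (b (l 16356776) (l 140938457601425439)) (b (l 16353424) (l 140897981822812191))) (a (l 16354096) (b (l 16351320) (l 16350136)))) (b (c (l 140887330304884767) (a (l 16352312) (l 16348984))) (a (l 140917017117818911) (l 140877640850931743)))) (b (a (l 16350464) (c (l 16348336) (l 16345656))) (a (c (l 16349456) (l 16346872)) (c (c (l 16346712) (l 16345472)) (l 16343480))))) (b (c (a (l 16344584) (l 16341072)) (l 16335736)) (c (a (l 16342432) (l 16338968)) (l 16333672)))))), by decide +kernel⟩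

theorem s15_pm_102 : ∃ t, chk3 f_pm_102 t 31 31 1 = true := ex3_b k13_pm_102 k14_pm_102

theorem s16_pm_102 : ∃ t, chk3 f_pm_102 t 31 15 1 = true := ex3_b k12_pm_102 s15_pm_102

theorem s17_pm_102 : ∃ t, chk3 f_pm_102 t 15 15 1 = true := ex3_a k11_pm_102 s16_pm_102

theorem s18_pm_102 : ∃ t, chk3 f_pm_102 t 15 14 1 = true := ex3_a k9_pm_102 k10_pm_102

theorem s19_pm_102 : ∃ t, chk3 f_pm_102 t 15 7 1 = true := ex3_b s18_pm_102 s17_pm_102

theorem s20_pm_102 : ∃ t, chk3 f_pm_102 t 14 7 1 = true := ex3_b k7_pm_102 k8_pm_102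

theorem s21_pm_102 : ∃ t, chk3 f_pm_102 t 7 7 1 = true := ex3_a s20_pm_102 s19_pm_102

theorem s22_pm_102 : ∃ t, chk3 f_pm_102 t 15 13 1 = true := ex3_a k5_pm_102 k6_pm_102

theorem s23_pm_102 : ∃ t, chk3 f_pm_102 t 15 6 1 = true := ex3_b k4_pm_102 s22_pm_102

theorem s24_pm_102 : ∃ t, chk3 f_pm_102 t 7 6 1 = true := ex3_a k3_pm_102 s23_pm_102

theorem s25_pm_102 : ∃ t, chk3 f_pm_102 t 7 3 1 = true := ex3_b s24_pm_102 s21_pm_102

theorem s26_pm_102 : ∃ t, chk3 f_pm_102 t 3 3 1 = true := ex3_a k2_pm_102 s25_pm_102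

theorem s27_pm_102 : ∃ t, chk3 f_pm_102 t 3 1 1 = true := ex3_b k1_pm_102 s26_pm_102

theorem s28_pm_102 : ∃ t, chk3 f_pm_102 t 1 1 1 = true := ex3_a k0_pm_102 s27_pm_102

theorem c_pm_102 : CertB 536870912 536870912 0 536870912 697932185 42949674 3 eng mog cd0q1 cd0q0 pd2 true true false .npp 1 0 2
    ndB0q1 ndB0q0 pcB2 cut_pm_102 xt_pm_102 :=
  certB0 (fam := true) (s1 := true) (s2 := false) (a := 1) (b := 0) (c := 2) (cn := .npp) (n1 := ndB0q1) (n2 := ndB0q0) (pc := pcB2) (cut := cut_pm_102) (xt := xt_pm_102) (P1 := 536870912) (W1 := 536870912) (P2 := 0) (W2 := 536870912) (P3 := 697932185) (W3 := 42949674) (N0 := 3) (En := eng) (mo := mog) (C1 := cd0q1) (C2 := cd0q0) (C3 := pd2)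
    rfl s28_pm_102

noncomputable def cut_pm_112 : Cut := Cut.of [[⟨3, 0, 0, 1449551462⟩], [⟨4, 0, 0, 2845415833⟩]]

noncomputable def xt_pm_112 : Ext := extD2 3 ⟨7, 3, 3, 10, 49, 25, 3, 4, 67, 200, 3, 16⟩ eng cd0q1 cd0q1 pd2 true true false .dn 1 1 2 rfl ndB0q1 ndB0q1 pcB2

noncomputable def f_pm_112 : ℕ → ℕ → ℕ → ℕ → Bool := onCell 536870912 536870912 536870912 536870912 697932185 42949674
    (rowB 3 eng mog cd0q1 cd0q1 pd2 0 true true false .dn 1 1 2 (qsf 536870912 536870912 536870912 536870912 2) ndB0q1 ndB0q1 pcB2 cut_pm_112 xt_pm_112)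

def k0_pm_112 : ∃ t, chk3 f_pm_112 t 2 2 1 = true :=
  ⟨(a (b (l 6) (b (l 6) (a (l 6) (b (a (l 6) (l 16686968)) (a (l 16673160) (l 16667688)))))) (b (a (l 6) (b (l 6) (a (b (l 6) (l 16686968)) (b (l 16673160) (l 16667688))))) (b (a (b (a (l 6) (l 16696440)) (a (l 16696440) (l 16685880))) (b (a (l 16680520) (l 16665720)) (a (l 16675376) (l 16666624)))) (a (a (b (l 16680520) (l 16665720)) (b (l 16675376) (l 16666624))) (b (l 16670632) (l 16674168)))))), by decide +kernel⟩

def k1_pm_112 : ∃ t, chk3 f_pm_112 t 2 6 1 = true :=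
  ⟨(a (b (a (b (a (l 6) (b (l 6) (l 16651544))) (a (b (l 16643000) (l 16621840)) (b (l 16635736) (l 16615856)))) (b (a (l 16652024) (l 16650208)) (a (b (l 16632312) (l 16614232)) (l 16625360)))) (a (b (a (b (l 16598720) (l 16576032)) (b (l 16594056) (l 16572904))) (a (b (a (l 16555216) (l 16553144)) (a (l 16532256) (l 16531200))) (b (l 16552744) (c (l 16541512) (l 16522728))))) (b (a (l 16584624) (l 16591576)) (a (b (l 16557232) (l 16538896)) (b (l 16567936) (l 16552264)))))) (b (a (b (a (l 16652936) (l 16660456)) (a (l 16633376) (l 16648808))) (b (l 16681624) (a (l 16672128) (l 16703672)))) (a (b (a (l 16605352) (l 16629024)) (a (c (l 16594888) (l 16565208)) (c (l 16630584) (l 105326998455)))) (b (a (l 16664512) (l 2)) (l 2))))), by decide +kernel⟩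

def k2_pm_112 : ∃ t, chk3 f_pm_112 t 8 28 1 = true :=
  ⟨(a (b (a (b (l 16514312) (c (l 16510528) (l 16493592))) (c (l 16517200) (l 16499016))) (c (a (b (l 16498712) (c (l 16491000) (l 16482208))) (b (c (l 16504944) (l 16495616)) (c (l 16493112) (l 16483504)))) (a (b (c (l 16485512) (l 16476112)) (c (l 16472928) (l 16463152))) (b (c (l 16485832) (l 16475576)) (c (l 16473408) (l 16462832)))))) (a (b (c (l 16519288) (l 16499480)) (c (b (l 16503280) (c (l 16496968) (l 16486544))) (b (c (l 16487520) (l 16476440)) (c (l 16475624) (l 16464208))))) (b (l 16512352) (b (l 16496512) (a (c (l 16495856) (l 16472632)) (b (l 16490160) (l 16484424))))))), by decide +kernel⟩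

def k3_pm_112 : ∃ t, chk3 f_pm_112 t 8 29 1 = true :=
  ⟨(a (b (a (c (b (c (l 16479096) (l 16470120)) (c (a (l 16466928) (l 16467352)) (l 16458096))) (b (c (l 16460632) (l 16450616)) (c (l 16448536) (l 16438416)))) (c (b (c (l 16480960) (l 16471256)) (c (a (l 16468136) (l 16469280)) (l 16459016))) (b (c (l 16461032) (l 16450280)) (c (l 16448808) (l 16438032))))) (c (a (b (c (a (l 16454856) (l 16455104)) (l 16446072)) (c (a (l 16442496) (c (l 16444600) (l 16440424))) (l 16433904))) (b (c (a (l 16455696) (l 16456632)) (l 16446712)) (c (a (c (l 16445008) (l 16440736)) (c (l 16445744) (l 16441384))) (a (l 16434000) (l 16434496))))) (a (b (c (l 16436592) (l 16426504)) (a (l 16420104) (l 16419544))) (b (c (l 16436680) (l 16426016)) (a (l 16419344) (l 16419512)))))) (c (b (a (b (a (l 16478416) (l 16480592)) (c (a (l 16470896) (l 16473096)) (l 16461656))) (b (c (l 16490560) (l 16479272)) (c (c (l 16480224) (l 16474856)) (l 16466536)))) (a (b (c (c (a (l 16460376) (l 16462432)) (l 16456536))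 (l 16449024)) (c (a (b (l 16448112) (l 16441312)) (a (l 142069992690565135) (l 141955231166464015))) (a (l 16435432) (l 16436912)))) (b (c (c (l 141919222201057295) (l 16461568)) (l 16453576)) (c (l 141814081367818255) (l 16440240))))) (b (a (a (b (l 16456856) (l 16444544)) (b (l 16458232) (l 16445864))) (b (c (l 16467432) (l 16455064)) (c (l 16454904) (l 16442672)))) (a (b (c (l 16438440) (l 16427192)) (a (l 16420112) (l 16421216))) (b (c (l 16442328) (l 16430392)) (c (l 16429536) (l 16418064))))))), by decide +kernel⟩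

def k4_pm_112 : ∃ t, chk3 f_pm_112 t 9 14 1 = true :=
  ⟨(b (b (a (c (l 16531456) (l 16507312)) (c (l 16549624) (l 16521536))) (a (a (b (l 16501768) (a (b (l 16493128) (l 16508928)) (c (l 16506864) (l 16480744)))) (b (l 16508896) (c (c (l 16520432) (l 16507096)) (l 16486216)))) (a (a (b (l 16515560) (l 16507552)) (l 81167705511)) (l 112306230455)))) (b (a (c (a (c (b (l 16499192) (l 16485864)) (l 16480408)) (c (b (a (l 16507536) (b (l 16517144) (l 16510784))) (l 22111815463)) (l 142046215843053583))) (a (b (l 16467456) (l 16454912)) (b (c (l 16483232) (c (l 16472432) (l 16465064))) (l 16463568)))) (b (b (a (a (b (l 16503040) (l 2)) (l 2)) (l 2)) (l 2)) (l 2))) (a (a (c (b (l 320365342339614946433187855) (l 141547587241410575)) (c (l 141637059979182095) (l 141992064770457615))) (a (a (b (l 1364877250486652766673780751) (l 2)) (l 2)) (l 2))) (l 2)))), by decide +kernel⟩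

def k5_pm_112 : ∃ t, chk3 f_pm_112 t 32 15 1 = true :=
  ⟨(b (b (c (b (c (a (l 16429696) (l 16429480)) (l 16421416)) (c (a (l 16416392) (l 16415880)) (a (l 16408920) (l 16408296)))) (b (a (l 16408200) (l 16407520)) (a (l 16396160) (l 16395328)))) (c (b (a (c (l 16402592) (l 16395832)) (c (l 16401720) (l 16394928))) (c (a (b (l 16391904) (b (l 16386456) (l 16382792))) (c (l 141365205619064847) (l 16385640))) (a (l 16382392) (l 16381160)))) (b (a (l 16383984) (l 16382960)) (c (l 16382704) (l 16366904))))) (a (b (c (b (c (b (c (l 16378360) (l 16376080)) (c (l 16370752) (l 16368776))) (l 16368704)) (b (b (c (c (l 141034527449612303) (l 16363400)) (l 16360200)) (c (l 141043117378207759) (l 16358152))) (c (a (l 141021195861590031) (l 140988141790838799)) (l 16355752)))) (b (l 16359320) (b (c (l 16353864) (l 16347312)) (l 16347216)))) (c (c (b (c (l 140890560127320079) (b (l 140998243546841103) (l 140953369722093583))) (c (l 140810570643472399) (b (l 140911519554224143) (l 140872624323706895))))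 (c (b (b (l 16353736) (l 16350552)) (b (l 140985186828795919) (l 140944092574941199))) (b (l 16349704) (b (l 16344808) (l 37143885543))))) (b (c (l 16345448) (l 16338688)) (c (b (l 16340464) (l 46807557735)) (l 29090792279))))) (b (c (b (c (c (l 141122900712390671) (l 141205432799723535)) (l 16367104)) (b (b (c (l 141194987421745167) (l 16358264)) (c (l 140975841005666319) (l 16356008))) (c (l 140938251447205903) (l 16353656)))) (b (c (l 16361200) (l 16354120)) (b (b (l 16349976) (l 16347816)) (c (l 16348440) (l 16341952))))) (b (c (c (c (l 140824383266537487) (l 140913374985420815)) (c (l 140993089574273039) (l 43049476631))) (c (l 52713149863) (l 31775157751))) (b (c (c (l 140810433201537039) (l 745907230843317490488098831)) (l 54860621335)) (l 2)))))), by decide +kernel⟩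

def k6_pm_112 : ∃ t, chk3 f_pm_112 t 33 15 1 = true :=
  ⟨(b (b (c (b (c (a (c (l 16431536) (l 16427544)) (a (l 16429832) (l 16430112))) (a (l 16421200) (l 16421456))) (c (a (c (l 16417424) (l 16413808)) (c (l 16417488) (l 16413840))) (a (l 16407968) (l 16407952)))) (b (a (l 16407192) (l 16407208)) (c (l 16399320) (l 16389848)))) (c (b (a (c (l 16401120) (l 16394304)) (c (b (l 16404568) (l 16396936)) (l 16393960))) (a (c (a (l 141364655858974735) (l 141339916846415887)) (l 16380192)) (c (l 141314078321967119) (l 16379472)))) (b (a (l 16382256) (c (l 16386152) (l 16377328))) (a (c (l 16373312) (l 16365352)) (b (l 16372104) (l 16365520)))))) (b (a (c (b (b (c (l 141169904837459983) (l 16369376)) (c (l 141045522568298511) (l 16362080))) (b (b (c (l 140951514311786511) (l 16356560)) (c (l 140907533841219599) (l 16354032))) (c (l 140871181233405967) (l 141041261930823695)))) (b (c (l 16359928) (l 16352904)) (b (b (c (l 16351512) (l 16345152)) (c (l 16349096) (l 16342840))) (c (l 16346712)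 (l 32312037127))))) (b (c (b (c (l 141114516936802319) (l 16368344)) (c (l 140986217656909839) (l 16360824))) (c (l 16348424) (b (l 16355160) (l 16348800)))) (b (b (c (c (l 140888429828718607) (l 16355120)) (l 38217625287)) (l 2)) (l 2)))) (b (a (c (a (c (l 140821703201996815) (l 42512607367)) (l 2)) (c (l 54323747639) (l 66134893431))) (l 2)) (l 2)))), by decide +kernel⟩

def k7_pm_112 : ∃ t, chk3 f_pm_112 t 17 15 1 = true :=
  ⟨(a (a (b (b (c (b (c (a (l 141972548440948751) (a (l 141962515398164495) (l 141927468465668111))) (l 16422152)) (c (c (c (l 141868919446093839) (l 16417064)) (l 16414296)) (l 16408352))) (b (l 16407648) (l 16394904))) (b (c (c (b (l 16404728) (l 16396872)) (l 16394016)) (c (l 16386176) (l 16377296))) (a (c (c (l 141265424931684367) (l 16379168)) (l 26943399111)) (c (c (l 141627782732333071) (l 16379128)) (l 47881364647))))) (a (b (b (b (c (l 141158222518222863) (l 16358480)) (l 2)) (l 2)) (l 2)) (l 2))) (b (b (c (b (c (c (l 141932828591013903) (l 16430064))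 (l 16423384)) (c (c (l 141680009604874255) (l 16415296)) (l 16409280))) (b (l 16408592) (l 16395648))) (c (b (c (c (l 141235738154876943) (l 16399800)) (l 16394592)) (c (l 140828437779185679) (l 28554022039))) (b (c (l 16386704) (l 16377744)) (l 52713204871)))) (l 2))) (b (a (b (c (b (l 141458458033979407) (l 141292912784031759)) (b (l 16410072) (l 16396912))) (b (c (l 141027105816018959) (l 63450654359)) (l 2))) (b (c (l 745907230843915350100770831) (l 359050968567206320206118927)) (l 2))) (l 2))), by decide +kernel⟩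

def k8_pm_112 : ∃ t, chk3 f_pm_112 t 9 15 1 = true :=
  ⟨(b (b (b (a (a (a (l 141561468521005071) (l 2)) (l 2)) (l 2)) (l 2)) (l 2)) (l 2)), by decide +kernel⟩

def k9_pm_112 : ∃ t, chk3 f_pm_112 t 5 7 1 = true :=
  ⟨(b (a (a (a (a (b (l 124117379623) (l 2)) (l 2)) (l 2)) (l 2)) (l 2)) (l 2)), by decide +kernel⟩

def k10_pm_112 : ∃ t, chk3 f_pm_112 t 6 2 1 = true :=
  ⟨(b (a (b (a (b (l 6) (a (l 6) (l 16651544))) (b (a (l 16643000) (l 16621840)) (l 16646568))) (a (b (l 16652024) (l 16650208)) (b (l 16623136) (l 16625360)))) (b (a (b (b (l 16588920) (l 16585816)) (a (l 16594056) (l 16572904))) (b (a (b (l 16555216) (l 16553144)) (b (l 16532256) (l 16531200))) (a (l 16552744) (b (l 16531592) (l 16533376))))) (a (b (l 16584624) (l 16591576)) (b (a (l 16557232) (l 16538896)) (a (l 16567936) (l 16552264)))))) (a (b (a (b (l 16652936) (l 16660456)) (b (l 16633376) (l 16648808))) (a (l 16681624) (b (l 16672128) (l 16703672)))) (b (a (b (l 16605352) (l 16629024)) (b (c (l 16594888) (l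 16565208)) (c (l 16630584) (l 93515838391)))) (a (b (l 16664512) (l 2)) (l 2))))), by decide +kernel⟩

def k11_pm_112 : ∃ t, chk3 f_pm_112 t 14 32 1 = true :=
  ⟨(a (a (a (l 16514312) (c (l 16510528) (l 16493592))) (c (a (l 16498712) (l 16486672)) (a (c (l 16485512) (l 16476112)) (c (l 16472928) (l 16463152))))) (c (a (a (c (l 16479096) (l 16470120)) (b (l 16462584) (l 16462840))) (a (c (b (l 16454856) (l 16455104)) (l 16446072)) (c (b (l 16442496) (l 16442536)) (l 16433904)))) (a (a (c (l 16460632) (l 16450616)) (c (l 16448536) (l 16438416))) (a (b (l 16431912) (l 16431440)) (b (l 16420104) (l 16419544)))))), by decide +kernel⟩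

def k12_pm_112 : ∃ t, chk3 f_pm_112 t 15 32 1 = true :=
  ⟨(a (a (c (a (c (b (l 16429696) (l 16429480)) (l 16421416)) (c (b (l 16416392) (l 16415880)) (l 16408568))) (a (b (l 16408200) (l 16407520)) (b (l 16396160) (l 16395328)))) (c (a (b (c (l 16402592) (l 16395832)) (c (l 16401720) (l 16394928))) (c (b (a (l 16391904) (a (l 16386456) (l 16382792))) (c (l 141365205619064863) (l 16385640))) (b (l 16382392) (l 16381160)))) (a (b (l 16383984) (l 16382960)) (b (l 16371664) (l 16370424))))) (b (a (c (a (c (a (c (l 16378360) (l 16376080)) (c (l 16370752) (l 16368776))) (l 16368704)) (c (a (a (c (l 141034527449612319) (l 16363400)) (l 141043117378207775)) (c (l 140960585283600415) (l 16358976))) (a (l 16359192) (l 16355752)))) (a (l 16359320) (a (l 16350744) (l 16347216)))) (c (c (a (c (l 140890560127320095) (a (l 140998243546841119) (l 140953369722093599))) (c (l 140810570643472415) (a (l 140911519554224159) (l 140872624323706911)))) (c (a (a (l 16353736) (l 16350552)) (a (l 12984705639)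 (l 140944092574941215))) (a (l 16349704) (a (l 16344808) (l 23722112743))))) (a (c (l 16345448) (l 16338688)) (c (a (l 16340464) (l 39291364967)) (l 29627663191))))) (a (c (a (c (c (l 141122900712390687) (l 141205432799723551)) (l 16367104)) (a (a (c (l 141194987421745183) (l 16358264)) (c (l 140975841005666335) (l 16356008))) (c (l 140938251447205919) (l 16353656)))) (a (l 16357808) (a (c (l 16351984) (l 16345536)) (l 16345360)))) (a (c (c (c (l 140824383266537503) (l 140913374985420831)) (c (l 140993089574273055) (l 16347728))) (c (l 16343600) (l 31775157751))) (a (c (c (l 140810433201537055) (l 745907230843317490488098847)) (l 54860600359)) (l 2)))))), by decide +kernel⟩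

def k13_pm_112 : ∃ t, chk3 f_pm_112 t 7 33 1 = true :=
  ⟨(a (a (a (c (l 16517200) (l 16499016)) (c (a (l 16500344) (c (l 16493112) (l 16483504))) (a (c (l 16485832) (l 16475576)) (c (l 16473408) (l 16462832))))) (c (a (a (c (l 16480960) (l 16471256)) (c (b (l 16468136) (l 16469280)) (l 16459016))) (a (c (b (l 16455696) (l 16456632)) (l 16446712)) (c (b (c (l 16445008) (l 16440736)) (c (l 16445744) (l 16441384))) (l 16434192)))) (a (a (c (l 16461032) (l 16450280)) (c (l 16448808) (l 16438032))) (a (b (l 16431344) (l 16431624)) (b (l 16419344) (l 16419512)))))) (b (a (a (c (a (c (c (l 16431536) (l 16427544)) (l 16421200)) (c (l 16415640) (l 16407968))) (a (l 16407192) (l 16394832))) (c (a (c (l 16401120) (l 16394304)) (c (a (l 16389824) (l 141292156802629663)) (l 16380192))) (a (l 16382256) (l 16369464)))) (a (c (a (a (c (l 141169904837459999) (l 16369376)) (c (l 141045522568298527) (l 16362080))) (a (a (c (l 140951514311786527) (l 16356560)) (c (l 140907533841219615) (l 16354032)))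 (c (l 140871181233405983) (l 28553974247)))) (a (c (l 16359928) (l 16352904)) (a (c (l 27480224103) (a (l 16345152) (l 16342840))) (c (l 16346712) (l 32312037127))))) (a (a (c (c (l 140826307408953375) (l 44660095751)) (l 61303062647)) (l 2)) (l 2)))) (a (a (c (a (c (b (l 16429832) (l 16430112)) (l 16421456)) (c (c (l 16417488) (l 16413840)) (l 16407952))) (a (l 16407208) (l 16394664))) (a (c (c (a (l 16404568) (l 16396936)) (l 16393960)) (l 16381864)) (c (c (l 141314078321967135) (l 16379472)) (a (l 16372104) (l 16365520))))) (a (a (c (a (c (l 141114516936802335) (l 16368344)) (c (l 140986217656909855) (l 16360824))) (c (l 16358912) (l 51102535031))) (a (a (c (c (l 140888429828718623) (l 16355120)) (l 59155591015)) (l 2)) (l 2))) (l 2))))), by decide +kernel⟩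

def k14_pm_112 : ∃ t, chk3 f_pm_112 t 7 34 1 = true :=
  ⟨(a (a (a (l 16509592) (c (a (l 16503280) (c (l 16496968) (l 16486544))) (a (l 16482032) (c (l 16475624) (l 16464208))))) (c (a (a (c (l 16484584) (l 16474144)) (c (b (l 16470896) (l 16473096)) (l 16461656))) (a (c (b (c (l 16460376) (l 16455648)) (l 16460016)) (l 16449024)) (c (a (b (l 16448112) (l 16449904)) (b (l 16441312) (l 16442952))) (b (l 16435432) (l 16436912))))) (a (a (c (l 16463168) (l 16451656)) (c (l 16450792) (l 16439336))) (a (b (l 16432344) (l 16433576)) (b (l 16420112) (l 16421216)))))) (a (c (b (a (a (c (a (l 16434344) (l 16427208)) (l 16422152)) (c (a (l 16419888) (l 16412400)) (l 16408352))) (a (c (a (l 16404728) (l 16396872)) (l 16394016)) (c (b (l 141265424931684383) (l 141627782732333087)) (l 16379136)))) (a (a (c (c (l 141932828591013919) (l 16430064)) (l 16423384)) (c (c (l 141680009604874271) (l 16415296)) (l 16409280))) (a (c (c (l 141235738154876959) (l 16399800)) (l 16394592)) (c (l 140828437779185695)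 (l 28554022199))))) (a (a (b (l 16407648) (l 16408592)) (c (l 16399960) (l 16390232))) (a (c (a (l 16389824) (l 16382928)) (l 16377464)) (b (a (l 16371904) (l 16365168)) (l 52713205031))))) (b (b (a (a (a (c (l 141158222518222879) (l 16358480)) (l 2)) (l 2)) (l 2)) (l 2)) (l 2)))), by decide +kernel⟩

def k15_pm_112 : ∃ t, chk3 f_pm_112 t 7 35 1 = true :=
  ⟨(a (a (a (l 16512352) (a (l 16496512) (c (c (l 16502952) (l 16491608)) (c (l 16479768) (l 16467440))))) (c (a (a (c (l 16490560) (l 16479272)) (c (c (l 16480224) (l 16474856)) (l 16466536))) (a (c (c (l 141919222201057311) (l 16461568)) (l 16453576)) (c (l 141814081367818271) (l 16440240)))) (a (a (c (l 16467432) (l 16455064)) (c (l 16454904) (l 16442672))) (a (c (l 16442328) (l 16430392)) (l 16423896))))) (a (b (a (c (a (l 141458458033979423) (l 141292912784031775)) (a (l 16410072) (l 16396912))) (a (c (l 141027105816018975) (l 63450654359)) (l 2))) (a (c (l 745907230843915350100770847) (l 359050968567206320206118943)) (l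 2))) (l 2))), by decide +kernel⟩

def k16_pm_112 : ∃ t, chk3 f_pm_112 t 7 9 1 = true :=
  ⟨(a (a (a (b (c (l 16531456) (l 16507312)) (c (l 16549624) (l 16521536))) (b (b (a (l 16501768) (c (b (l 16502760) (l 16506864)) (l 16479048))) (a (l 16508896) (c (c (l 16520432) (l 16507096)) (l 16486216)))) (b (a (l 16518064) (b (l 16507552) (l 16513096))) (l 111232488631)))) (a (b (c (b (c (a (l 16499192) (l 16485864)) (l 16480408)) (c (a (a (a (l 16515400) (l 16512536)) (l 16507416)) (l 22111836439)) (l 142046215843053599))) (b (a (l 16467456) (l 16454912)) (a (c (l 16483232) (c (l 16472432) (l 16465064))) (l 16463568)))) (a (a (a (b (b (l 16503040) (l 2)) (l 2)) (l 2)) (l 2)) (l 2))) (b (b (c (a (l 320365342339614946433187871) (l 141547587241410591)) (c (l 16442080) (l 141992064770457631))) (a (c (c (l 79556968263) (l 16470600)) (l 16450848)) (l 2))) (l 2)))) (a (b (b (a (c (b (l 141430489202835487) (l 2)) (l 1432577096384930232022122527)) (l 2)) (l 2)) (l 2)) (l 2))), by decide +kernel⟩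

def k17_pm_112 : ∃ t, chk3 f_pm_112 t 7 5 1 = true :=
  ⟨(a (b (a (a (a (b (l 16564736) (l 2)) (l 2)) (l 2)) (l 2)) (l 2)) (l 2)), by decide +kernel⟩

def k18_pm_112 : ∃ t, chk3 f_pm_112 t 3 3 1 = true :=
  ⟨(a (b (b (a (b (a (l 16716184) (l 2)) (l 2)) (l 2)) (l 2)) (l 2)) (l 2)), by decide +kernel⟩

theorem s19_pm_112 : ∃ t, chk3 f_pm_112 t 7 17 1 = true := ex3_b k14_pm_112 k15_pm_112

theorem s20_pm_112 : ∃ t, chk3 f_pm_112 t 7 32 1 = true := ex3_a k11_pm_112 k12_pm_112

theorem s21_pm_112 : ∃ t, chk3 f_pm_112 t 7 16 1 = true := ex3_b s20_pm_112 k13_pm_112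

theorem s22_pm_112 : ∃ t, chk3 f_pm_112 t 7 8 1 = true := ex3_b s21_pm_112 s19_pm_112

theorem s23_pm_112 : ∃ t, chk3 f_pm_112 t 7 4 1 = true := ex3_b s22_pm_112 k16_pm_112

theorem s24_pm_112 : ∃ t, chk3 f_pm_112 t 7 2 1 = true := ex3_b s23_pm_112 k17_pm_112

theorem s25_pm_112 : ∃ t, chk3 f_pm_112 t 3 2 1 = true := ex3_a k10_pm_112 s24_pm_112

theorem s26_pm_112 : ∃ t, chk3 f_pm_112 t 3 1 1 = true := ex3_b s25_pm_112 k18_pm_112

theorem s27_pm_112 : ∃ t, chk3 f_pm_112 t 16 15 1 = true := ex3_a k5_pm_112 k6_pm_112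

theorem s28_pm_112 : ∃ t, chk3 f_pm_112 t 8 15 1 = true := ex3_a s27_pm_112 k7_pm_112

theorem s29_pm_112 : ∃ t, chk3 f_pm_112 t 4 15 1 = true := ex3_a s28_pm_112 k8_pm_112

theorem s30_pm_112 : ∃ t, chk3 f_pm_112 t 8 14 1 = true := ex3_b k2_pm_112 k3_pm_112

theorem s31_pm_112 : ∃ t, chk3 f_pm_112 t 4 14 1 = true := ex3_a s30_pm_112 k4_pm_112

theorem s32_pm_112 : ∃ t, chk3 f_pm_112 t 4 7 1 = true := ex3_b s31_pm_112 s29_pm_112

theorem s33_pm_112 : ∃ t, chk3 f_pm_112 t 2 7 1 = true := ex3_a s32_pm_112 k9_pm_112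

theorem s34_pm_112 : ∃ t, chk3 f_pm_112 t 2 3 1 = true := ex3_b k1_pm_112 s33_pm_112

theorem s35_pm_112 : ∃ t, chk3 f_pm_112 t 2 1 1 = true := ex3_b k0_pm_112 s34_pm_112

theorem s36_pm_112 : ∃ t, chk3 f_pm_112 t 1 1 1 = true := ex3_a s35_pm_112 s26_pm_112

theorem c_pm_112 : CertB 536870912 536870912 536870912 536870912 697932185 42949674 3 eng mog cd0q1 cd0q1 pd2 true true false .dn 1 1 2
    ndB0q1 ndB0q1 pcB2 cut_pm_112 xt_pm_112 :=
  certB0 (fam := true) (s1 := true) (s2 := false) (a := 1) (b := 1) (c := 2) (cn := .dn) (n1 := ndB0q1) (n2 := ndB0q1) (pc := pcB2) (cut := cut_pm_112) (xt := xt_pm_112) (P1 := 536870912) (W1 := 536870912) (P2 := 536870912) (W2 := 536870912) (P3 := 697932185) (W3 := 42949674) (N0 := 3) (En := eng) (mo := mog) (C1 := cd0q1) (C2 := cd0q1) (C3 := pd2)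
    rfl s36_pm_112

end Pool.Agent.Strip051.G.I6500_6900.Tab.C.BA00

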