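import Pool.Agent.Strip051.G.I6500_6900.Tab
import Pool.Agent.Strip051.PB.ExtD2

/-! # Certificates B4 (generated) -/

set_option linter.all false
set_option maxRecDepth 100000

namespace Pool.Agent.Strip051.G.I6500_6900.Tab.C.BA01

open Pool.Agent.Strip051.PB Pool.Agent.Strip051.PB.T
open Pool.Agent.Strip051.G.I6500_6900.Tab

noncomputable def f_pp_023_a : ℕ → ℕ → ℕ → ℕ → Bool := onCell 1610612736 536870912 0 536870912 697932185 42949674
    (rowB 3 eng mog cd0q0 cd1q2a pd3 2 true true true .up 0 2 3 (qsf 0 536870912 0 536870912 3) ndB0q0 ndB1q2a pcB3 Cut.none Ext.none)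

def k0_pp_023_a : ∃ t, chk3 f_pp_023_a t 8 2 1 = true :=
  ⟨(b (a (b (a (l 16692656) (l 16701656)) (b (a (l 16714712) (l 16723800)) (a (l 16763840) (b (l 16736736) (l 16745488))))) (b (a (l 16709552) (l 16717480)) (b (a (l 16732024) (l 16761552)) (b (a (l 16745296) (a (l 16751920) (l 16777488))) (a (a (l 16751912) (l 16766768)) (a (b (l 16758528) (l 68954352135)) (b (b (l 16770040) (l 75933673239)) (l 4)))))))) (b (a (b (a (b (l 16756560) (a (l 16774448) (b (l 16755256) (l 48016373127)))) (b (a (l 16752440) (l 46405763287)) (a (b (l 53921951799) (l 68417482711)) (b (l 87207943223) (l 4))))) (a (b (a (b (l 45868891831) (l 4)) (l 77544275735)) (l 4)) (l 4))) (b (a (b (a (b (l 16769088) (l 68417481319)) (b (l 68417481127) (l 4))) (l 4)) (l 4)) (l 4))) (l 4))), by decide +kernel⟩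

def k1_pp_023_a : ∃ t, chk3 f_pp_023_a t 9 2 1 = true :=
  ⟨(b (b (a (a (b (l 16718408) (l 16732808)) (b (l 16726304) (l 16762544))) (b (a (l 16734376) (l 16764088)) (a (a (l 16748472) (l 16774320)) (b (a (l 16753864) (l 16759184)) (a (b (l 16760768) (l 46942645335)) (a (b (l 16764872) (l 94187270263)) (b (l 16767656) (l 116198977463)))))))) (a (b (a (b (l 16745104) (a (l 16751816) (l 16756584))) (b (a (l 16752112) (l 16756976)) (a (b (l 16759080) (a (l 16762712) (l 75396801063))) (b (a (l 16762848) (l 52311351655)) (b (l 104924690695) (l 4)))))) (a (b (a (b (l 16759000) (a (l 16762440) (l 72175576087))) (b (c (l 66806869207) (l 70028091911)) (l 107072176471))) (a (b (l 107609046855) (l 4)) (l 4))) (b (a (b (b (l 105461561527) (l 4)) (l 4)) (l 4)) (l 4)))) (b (a (b (a (b (l 16759664) (l 46942644743)) (b (l 46942644807) (a (l 97408488343) (l 115662094039)))) (a (a (a (l 104387821239) (l 109219659175)) (l 111367151047)) (l 4))) (a (b (b (a (l 95797881767) (l 115662105431)) (l 4))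 (l 4)) (l 4))) (l 4)))) (l 4)), by decide +kernel⟩

def k2_pp_023_a : ∃ t, chk3 f_pp_023_a t 5 2 1 = true :=
  ⟨(a (b (b (a (b (a (a (l 16750344) (l 16776440)) (a (c (l 16776216) (l 16776736)) (b (l 16762528) (b (l 16777160) (a (b (l 16771560) (l 79154895479)) (b (l 59290682039) (l 4))))))) (a (b (a (a (l 16763360) (l 16776656)) (b (l 36742100407) (b (a (l 16770072) (l 95797902679)) (a (l 104387822775) (l 4))))) (a (b (b (a (l 16779720) (l 104387837767)) (a (l 108145933383) (l 4))) (l 4)) (l 4))) (b (a (b (b (a (l 16770848) (l 58216940071)) (a (l 95261032151) (l 4))) (l 4)) (l 4)) (l 4)))) (l 2)) (l 4)) (l 4)) (l 2)), by decide +kernel⟩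

def k3_pp_023_a : ∃ t, chk3 f_pp_023_a t 2 3 1 = true :=
  ⟨(l 4), by decide +kernel⟩

def k4_pp_023_a : ∃ t, chk3 f_pp_023_a t 3 1 1 = true :=
  ⟨(l 2), by decide +kernel⟩

theorem s5_pp_023_a : ∃ t, chk3 f_pp_023_a t 4 2 1 = true := ex3_a k0_pp_023_a k1_pp_023_a

theorem s6_pp_023_a : ∃ t, chk3 f_pp_023_a t 2 2 1 = true := ex3_a s5_pp_023_a k2_pp_023_a

theorem s7_pp_023_a : ∃ t, chk3 f_pp_023_a t 2 1 1 = true := ex3_b s6_pp_023_a k3_pp_023_a

theorem s8_pp_023_a : ∃ t, chk3 f_pp_023_a t 1 1 1 = true := ex3_a s7_pp_023_a k4_pp_023_a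

theorem c_pp_023_a : CertB 0 536870912 0 536870912 697932185 42949674 3 eng mog cd0q0 cd1q2a pd3 true true true .up 0 2 3
    ndB0q0 ndB1q2a pcB3 Cut.none Ext.none :=
  certB2 (fam := true) (s1 := true) (s2 := true) (a := 0) (b := 2) (c := 3) (cn := .up) (n1 := ndB0q0) (n2 := ndB1q2a) (pc := pcB3) (cut := Cut.none) (xt := Ext.none) (P1 := 0) (W1 := 536870912) (P2 := 0) (W2 := 536870912) (P3 := 697932185) (W3 := 42949674) (N0 := 3) (En := eng) (mo := mog) (C1 := cd0q0) (C2 := cd1q2a) (C3 := pd3)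
    rfl (fun _ => rfl) s8_pp_023_a

noncomputable def f_pp_023_b : ℕ → ℕ → ℕ → ℕ → Bool := onCell 0 536870912 1610612736 536870912 697932185 42949674
    (rowB 3 eng mog cd0q0 cd1q2b pd3 1 true true true .up 0 2 3 (qsf 0 536870912 1239849684 370763052 3) ndB0q0 ndB1q2b pcB3 Cut.none Ext.none)

def k0_pp_023_b : ∃ t, chk3 f_pp_023_b t 1 1 1 = true :=
  ⟨(b (a (b (a (b (a (l 15980768) (l 16118368)) (b (l 16024000) (l 16022880))) (b (a (l 16344632) (b (l 16418616) (l 16395880))) (a (l 16309648) (b (l 16376312) (l 16363568))))) (l 4)) (b (a (b (a (a (l 16550632) (l 16737920)) (a (b (l 16637664) (l 16616344)) (b (l 280816936375) (l 16682744)))) (a (b (l 16511024) (l 16495920)) (a (l 16629952) (b (l 16642288) (l 16626488))))) (b (a (b (a (l 367790013895) (l 1)) (a (l 313566010503) (a (l 373158734055) (l 1)))) (l 1)) (a (b (a (l 16679624) (a (l 270616426311) (l 306049863415))) (a (l 16663760) (b (l 16702832) (l 16696136)))) (a (b (a (l 402149794279) (l 1)) (b (l 347388944151) (a (l 16721032)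 (l 277595793303)))) (b (l 1) (a (b (l 1) (l 378527511911)) (l 1))))))) (b (b (a (a (l 16488360) (l 16634912)) (a (a (l 16651360) (l 16686920)) (a (b (l 16744824) (l 16718480)) (a (b (a (l 16762064) (l 317324209799)) (l 16742304)) (b (l 402149809607) (b (l 349536481607) (l 249678529927))))))) (a (l 4) (a (l 4) (a (l 16709896) (b (b (l 16770008) (l 16764752)) (l 16760248)))))) (l 4)))) (l 4)), by decide +kernel⟩

theorem c_pp_023_b : CertB 0 536870912 1239849684 370763052 697932185 42949674 3 eng mog cd0q0 cd1q2b pd3 true true true .up 0 2 3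
    ndB0q0 ndB1q2b pcB3 Cut.none Ext.none :=
  certB1 (fam := true) (s1 := true) (s2 := true) (a := 0) (b := 2) (c := 3) (cn := .up) (n1 := ndB0q0) (n2 := ndB1q2b) (pc := pcB3) (cut := Cut.none) (xt := Ext.none) (P1 := 0) (W1 := 536870912) (P2 := 1239849684) (W2 := 370763052) (P3 := 697932185) (W3 := 42949674) (N0 := 3) (En := eng) (mo := mog) (C1 := cd0q0) (C2 := cd1q2b) (C3 := pd3)
    rfl (fun _ => rfl) k0_pp_023_b

noncomputable def f_pp_033 : ℕ → ℕ → ℕ → ℕ → Bool := onCell 0 536870912 1610612736 536870912 697932185 42949674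
    (rowB 3 eng mog cd0q0 cd1q3 pd3 1 true true true .pnn 0 3 3 (qsf 0 536870912 1610612736 536870912 3) ndB0q0 ndB1q3 pcB3 Cut.none Ext.none)

def k0_pp_033 : ∃ t, chk3 f_pp_033 t 1 1 1 = true :=
  ⟨(b (a (b (a (b (a (l 15979992) (l 16114472)) (b (l 16023984) (l 16025040))) (b (l 1) (a (l 16304552) (l 1)))) (l 4)) (b (l 1) (b (l 1) (l 4)))) (l 4)), by decide +kernel⟩

theorem c_pp_033 : CertB 0 536870912 1610612736 536870912 697932185 42949674 3 eng mog cd0q0 cd1q3 pd3 true true true .pnn 0 3 3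
    ndB0q0 ndB1q3 pcB3 Cut.none Ext.none :=
  certB1 (fam := true) (s1 := true) (s2 := true) (a := 0) (b := 3) (c := 3) (cn := .pnn) (n1 := ndB0q0) (n2 := ndB1q3) (pc := pcB3) (cut := Cut.none) (xt := Ext.none) (P1 := 0) (W1 := 536870912) (P2 := 1610612736) (W2 := 536870912) (P3 := 697932185) (W3 := 42949674) (N0 := 3) (En := eng) (mo := mog) (C1 := cd0q0) (C2 := cd1q3) (C3 := pd3)
    rfl (fun _ => rfl) k0_pp_033

noncomputable def f_pp_101 : ℕ → ℕ → ℕ → ℕ → Bool := onCell 536870912 536870912 0 536870912 697932185 42949674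
    (rowB 3 eng mog cd0q1 cd1q0 pd1 0 true true true .npn 1 0 1 (qsf 536870912 536870912 0 536870912 1) ndB0q1 ndB1q0 pcB1 Cut.none Ext.none)

def k0_pp_101 : ∃ t, chk3 f_pp_101 t 1 1 1 = true :=
  ⟨(a (l 4) (l 5)), by decide +kernel⟩

theorem c_pp_101 : CertB 536870912 536870912 0 536870912 697932185 42949674 3 eng mog cd0q1 cd1q0 pd1 true true true .npn 1 0 1
    ndB0q1 ndB1q0 pcB1 Cut.none Ext.none :=
  certB0 (fam := true) (s1 := true) (s2 := true) (a := 1) (b := 0) (c := 1) (cn := .npn) (n1 := ndB0q1) (n2 := ndB1q0) (pc := pcB1) (cut := Cut.none) (xt := Ext.none) (P1 := 536870912) (W1 := 536870912) (P2 := 0) (W2 := 536870912) (P3 := 697932185) (W3 := 42949674) (N0 := 3) (En := eng) (mo := mog) (C1 := cd0q1) (C2 := cd1q0) (C3 := pd1)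
    rfl k0_pp_101

noncomputable def f_pp_102 : ℕ → ℕ → ℕ → ℕ → Bool := onCell 536870912 536870912 0 536870912 697932185 42949674
    (rowB 3 eng mog cd0q1 cd1q0 pd2 0 true true true .npp 1 0 2 (qsf 536870912 536870912 0 536870912 2) ndB0q1 ndB1q0 pcB2 Cut.none Ext.none)

def k0_pp_102 : ∃ t, chk3 f_pp_102 t 1 1 1 = true :=
  ⟨(a (l 4) (l 5)), by decide +kernel⟩

theorem c_pp_102 : CertB 536870912 536870912 0 536870912 697932185 42949674 3 eng mog cd0q1 cd1q0 pd2 true true true .npp 1 0 2
    ndB0q1 ndB1q0 pcB2 Cut.none Ext.none :=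
  certB0 (fam := true) (s1 := true) (s2 := true) (a := 1) (b := 0) (c := 2) (cn := .npp) (n1 := ndB0q1) (n2 := ndB1q0) (pc := pcB2) (cut := Cut.none) (xt := Ext.none) (P1 := 536870912) (W1 := 536870912) (P2 := 0) (W2 := 536870912) (P3 := 697932185) (W3 := 42949674) (N0 := 3) (En := eng) (mo := mog) (C1 := cd0q1) (C2 := cd1q0) (C3 := pd2)
    rfl k0_pp_102

noncomputable def f_pp_112 : ℕ → ℕ → ℕ → ℕ → Bool := onCell 536870912 536870912 536870912 536870912 697932185 42949674
    (rowB 3 eng mog cd0q1 cd1q1 pd2 0 true true true .dn 1 1 2 (qsf 536870912 536870912 536870912 536870912 2) ndB0q1 ndB1q1 pcB2 Cut.none Ext.none)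

def k0_pp_112 : ∃ t, chk3 f_pp_112 t 1 1 1 = true :=
  ⟨(l 4), by decide +kernel⟩

theorem c_pp_112 : CertB 536870912 536870912 536870912 536870912 697932185 42949674 3 eng mog cd0q1 cd1q1 pd2 true true true .dn 1 1 2
    ndB0q1 ndB1q1 pcB2 Cut.none Ext.none :=
  certB0 (fam := true) (s1 := true) (s2 := true) (a := 1) (b := 1) (c := 2) (cn := .dn) (n1 := ndB0q1) (n2 := ndB1q1) (pc := pcB2) (cut := Cut.none) (xt := Ext.none) (P1 := 536870912) (W1 := 536870912) (P2 := 536870912) (W2 := 536870912) (P3 := 697932185) (W3 := 42949674) (N0 := 3) (En := eng) (mo := mog) (C1 := cd0q1) (C2 := cd1q1) (C3 := pd2)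
    rfl k0_pp_112

noncomputable def f_pp_113 : ℕ → ℕ → ℕ → ℕ → Bool := onCell 536870912 536870912 536870912 536870912 697932185 42949674
    (rowB 3 eng mog cd0q1 cd1q1 pd3 0 true true true .nn 1 1 3 (qsf 536870912 536870912 536870912 536870912 3) ndB0q1 ndB1q1 pcB3 Cut.none Ext.none)

def k0_pp_113 : ∃ t, chk3 f_pp_113 t 1 1 1 = true :=
  ⟨(l 4), by decide +kernel⟩

theorem c_pp_113 : CertB 536870912 536870912 536870912 536870912 697932185 42949674 3 eng mog cd0q1 cd1q1 pd3 true true true .nn 1 1 3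
    ndB0q1 ndB1q1 pcB3 Cut.none Ext.none :=
  certB0 (fam := true) (s1 := true) (s2 := true) (a := 1) (b := 1) (c := 3) (cn := .nn) (n1 := ndB0q1) (n2 := ndB1q1) (pc := pcB3) (cut := Cut.none) (xt := Ext.none) (P1 := 536870912) (W1 := 536870912) (P2 := 536870912) (W2 := 536870912) (P3 := 697932185) (W3 := 42949674) (N0 := 3) (En := eng) (mo := mog) (C1 := cd0q1) (C2 := cd1q1) (C3 := pd3)
    rfl k0_pp_113

noncomputable def f_pp_123_a : ℕ → ℕ → ℕ → ℕ → Bool := onCell 536870912 536870912 0 536870912 697932185 42949674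
    (rowB 3 eng mog cd0q1 cd1q2a pd3 0 true true true .npn 1 2 3 (qsf 536870912 536870912 0 536870912 3) ndB0q1 ndB1q2a pcB3 Cut.none Ext.none)

def k0_pp_123_a : ∃ t, chk3 f_pp_123_a t 1 1 1 = true :=
  ⟨(a (b (a (a (b (b (a (b (a (b (a (c (l 16776752) (l 16776728)) (b (a (l 16768104) (l 16770176)) (a (l 34594619367) (b (l 36205232263) (a (l 76470546855) (l 129620768295)))))) (a (b (a (l 16777400) (b (l 16772912) (l 112977758007))) (a (b (l 113514628327) (l 4)) (l 4))) (b (a (b (a (l 68954358455) (l 128547026039)) (l 4)) (l 4)) (l 4)))) (b (a (b (a (b (l 16771752) (l 34057749095)) (b (a (l 16773952) (l 16777152)) (a (l 74323061559) (l 125862672599)))) (a (b (a (l 76470544743) (l 123715188631)) (l 4)) (l 4))) (b (a (b (a (b (l 36742103015) (l 128547027143)) (l 129620769271)) (l 4)) (l 4)) (l 4))) (l 4))) (l 4)) (l 4)) (l 4)) (l 4)) (l 4)) (l 4)) (l 4)) (l 4)), by decide +kernel⟩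

theorem c_pp_123_a : CertB 536870912 536870912 0 536870912 697932185 42949674 3 eng mog cd0q1 cd1q2a pd3 true true true .npn 1 2 3
    ndB0q1 ndB1q2a pcB3 Cut.none Ext.none :=
  certB0 (fam := true) (s1 := true) (s2 := true) (a := 1) (b := 2) (c := 3) (cn := .npn) (n1 := ndB0q1) (n2 := ndB1q2a) (pc := pcB3) (cut := Cut.none) (xt := Ext.none) (P1 := 536870912) (W1 := 536870912) (P2 := 0) (W2 := 536870912) (P3 := 697932185) (W3 := 42949674) (N0 := 3) (En := eng) (mo := mog) (C1 := cd0q1) (C2 := cd1q2a) (C3 := pd3)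
    rfl k0_pp_123_a

noncomputable def f_pp_123_b : ℕ → ℕ → ℕ → ℕ → Bool := onCell 536870912 536870912 1239849684 370763052 697932185 42949674
    (rowB 3 eng mog cd0q1 cd1q2b pd3 0 true true true .npn 1 2 3 (qsf 536870912 536870912 1239849684 370763052 3) ndB0q1 ndB1q2b pcB3 Cut.none Ext.none)

def k0_pp_123_b : ∃ t, chk3 f_pp_123_b t 1 1 1 = true :=
  ⟨(a (b (a (b (a (b (a (b (b (a (a (b (l 16761552) (l 16762008)) (b (b (l 16766608) (l 16767304)) (l 16766560))) (a (b (b (a (l 16770944) (b (l 16773464) (l 16773304))) (a (l 16770768) (l 16772600))) (l 92576665719)) (a (b (b (a (l 16775520) (l 100629740071)) (l 4)) (l 4)) (l 4)))) (a (a (l 16759720) (l 16784360)) (l 4))) (l 4)) (l 4)) (l 4)) (l 4)) (l 4)) (l 4)) (l 4)) (l 4)), by decide +kernel⟩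

theorem c_pp_123_b : CertB 536870912 536870912 1239849684 370763052 697932185 42949674 3 eng mog cd0q1 cd1q2b pd3 true true true .npn 1 2 3
    ndB0q1 ndB1q2b pcB3 Cut.none Ext.none :=
  certB0 (fam := true) (s1 := true) (s2 := true) (a := 1) (b := 2) (c := 3) (cn := .npn) (n1 := ndB0q1) (n2 := ndB1q2b) (pc := pcB3) (cut := Cut.none) (xt := Ext.none) (P1 := 536870912) (W1 := 536870912) (P2 := 1239849684) (W2 := 370763052) (P3 := 697932185) (W3 := 42949674) (N0 := 3) (En := eng) (mo := mog) (C1 := cd0q1) (C2 := cd1q2b) (C3 := pd3)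
    rfl k0_pp_123_b

noncomputable def f_pp_133 : ℕ → ℕ → ℕ → ℕ → Bool := onCell 536870912 536870912 1610612736 536870912 697932185 42949674
    (rowB 3 eng mog cd0q1 cd1q3 pd3 0 true true true .dn 1 3 3 (qsf 536870912 536870912 1610612736 536870912 3) ndB0q1 ndB1q3 pcB3 Cut.none Ext.none)

def k0_pp_133 : ∃ t, chk3 f_pp_133 t 1 1 1 = true :=
  ⟨(l 4), by decide +kernel⟩

theorem c_pp_133 : CertB 536870912 536870912 1610612736 536870912 697932185 42949674 3 eng mog cd0q1 cd1q3 pd3 true true true .dn 1 3 3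
    ndB0q1 ndB1q3 pcB3 Cut.none Ext.none :=
  certB0 (fam := true) (s1 := true) (s2 := true) (a := 1) (b := 3) (c := 3) (cn := .dn) (n1 := ndB0q1) (n2 := ndB1q3) (pc := pcB3) (cut := Cut.none) (xt := Ext.none) (P1 := 536870912) (W1 := 536870912) (P2 := 1610612736) (W2 := 536870912) (P3 := 697932185) (W3 := 42949674) (N0 := 3) (En := eng) (mo := mog) (C1 := cd0q1) (C2 := cd1q3) (C3 := pd3)
    rfl k0_pp_133

noncomputable def f_pp_202 : ℕ → ℕ → ℕ → ℕ → Bool := onCell 0 536870912 0 536870912 697932185 42949674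
    (rowB 3 eng mog cd0q2 cd1q0 pd2 0 true true true .pp 2 0 2 (qsf 0 536870912 0 536870912 2) ndB0q2 ndB1q0 pcB2 Cut.none Ext.none)

def k0_pp_202 : ∃ t, chk3 f_pp_202 t 1 1 1 = true :=
  ⟨(l 5), by decide +kernel⟩

theorem c_pp_202 : CertB 0 536870912 0 536870912 697932185 42949674 3 eng mog cd0q2 cd1q0 pd2 true true true .pp 2 0 2
    ndB0q2 ndB1q0 pcB2 Cut.none Ext.none :=
  certB0 (fam := true) (s1 := true) (s2 := true) (a := 2) (b := 0) (c := 2) (cn := .pp) (n1 := ndB0q2) (n2 := ndB1q0) (pc := pcB2) (cut := Cut.none) (xt := Ext.none) (P1 := 0) (W1 := 536870912) (P2 := 0) (W2 := 536870912) (P3 := 697932185) (W3 := 42949674) (N0 := 3) (En := eng) (mo := mog) (C1 := cd0q2) (C2 := cd1q0) (C3 := pd2)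
    rfl k0_pp_202

noncomputable def f_pp_203 : ℕ → ℕ → ℕ → ℕ → Bool := onCell 0 536870912 0 536870912 697932185 42949674
    (rowB 3 eng mog cd0q2 cd1q0 pd3 0 true true true .up 2 0 3 (qsf 0 536870912 0 536870912 3) ndB0q2 ndB1q0 pcB3 Cut.none Ext.none)

def k0_pp_203 : ∃ t, chk3 f_pp_203 t 1 1 1 = true :=
  ⟨(l 5), by decide +kernel⟩

theorem c_pp_203 : CertB 0 536870912 0 536870912 697932185 42949674 3 eng mog cd0q2 cd1q0 pd3 true true true .up 2 0 3
    ndB0q2 ndB1q0 pcB3 Cut.none Ext.none :=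
  certB0 (fam := true) (s1 := true) (s2 := true) (a := 2) (b := 0) (c := 3) (cn := .up) (n1 := ndB0q2) (n2 := ndB1q0) (pc := pcB3) (cut := Cut.none) (xt := Ext.none) (P1 := 0) (W1 := 536870912) (P2 := 0) (W2 := 536870912) (P3 := 697932185) (W3 := 42949674) (N0 := 3) (En := eng) (mo := mog) (C1 := cd0q2) (C2 := cd1q0) (C3 := pd3)
    rfl k0_pp_203

noncomputable def f_pp_213 : ℕ → ℕ → ℕ → ℕ → Bool := onCell 0 536870912 536870912 536870912 697932185 42949674
    (rowB 3 eng mog cd0q2 cd1q1 pd3 0 true true true .pnn 2 1 3 (qsf 0 536870912 536870912 536870912 3) ndB0q2 ndB1q1 pcB3 Cut.none Ext.none)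

def k0_pp_213 : ∃ t, chk3 f_pp_213 t 1 1 1 = true :=
  ⟨(l 5), by decide +kernel⟩

theorem c_pp_213 : CertB 0 536870912 536870912 536870912 697932185 42949674 3 eng mog cd0q2 cd1q1 pd3 true true true .pnn 2 1 3
    ndB0q2 ndB1q1 pcB3 Cut.none Ext.none :=
  certB0 (fam := true) (s1 := true) (s2 := true) (a := 2) (b := 1) (c := 3) (cn := .pnn) (n1 := ndB0q2) (n2 := ndB1q1) (pc := pcB3) (cut := Cut.none) (xt := Ext.none) (P1 := 0) (W1 := 536870912) (P2 := 536870912) (W2 := 536870912) (P3 := 697932185) (W3 := 42949674) (N0 := 3) (En := eng) (mo := mog) (C1 := cd0q2) (C2 := cd1q1) (C3 := pd3)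
    rfl k0_pp_213

noncomputable def f_pm_001 : ℕ → ℕ → ℕ → ℕ → Bool := onCell 0 536870912 0 536870912 697932185 42949674
    (rowB 3 eng mog cd0q0 cd1q0 pd1 0 true true false .up 0 0 1 (qsf 0 536870912 0 536870912 1) ndB0q0 ndB1q0 pcB1 Cut.none Ext.none)

def k0_pm_001 : ∃ t, chk3 f_pm_001 t 1 1 1 = true :=
  ⟨(l 3), by decide +kernel⟩

theorem c_pm_001 : CertB 0 536870912 0 536870912 697932185 42949674 3 eng mog cd0q0 cd1q0 pd1 true true false .up 0 0 1
    ndB0q0 ndB1q0 pcB1 Cut.none Ext.none :=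
  certB0 (fam := true) (s1 := true) (s2 := false) (a := 0) (b := 0) (c := 1) (cn := .up) (n1 := ndB0q0) (n2 := ndB1q0) (pc := pcB1) (cut := Cut.none) (xt := Ext.none) (P1 := 0) (W1 := 536870912) (P2 := 0) (W2 := 536870912) (P3 := 697932185) (W3 := 42949674) (N0 := 3) (En := eng) (mo := mog) (C1 := cd0q0) (C2 := cd1q0) (C3 := pd1)
    rfl k0_pm_001

noncomputable def f_pm_011 : ℕ → ℕ → ℕ → ℕ → Bool := onCell 536870912 536870912 536870912 536870912 697932185 42949674
    (rowB 3 eng mog cd0q0 cd1q1 pd1 2 true true false .pnn 0 1 1 (qsf 0 536870912 536870912 536870912 1) ndB0q0 ndB1q1 pcB1 Cut.none Ext.none)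

def k0_pm_011 : ∃ t, chk3 f_pm_011 t 1 1 1 = true :=
  ⟨(l 3), by decide +kernel⟩

theorem c_pm_011 : CertB 0 536870912 536870912 536870912 697932185 42949674 3 eng mog cd0q0 cd1q1 pd1 true true false .pnn 0 1 1
    ndB0q0 ndB1q1 pcB1 Cut.none Ext.none :=
  certB2 (fam := true) (s1 := true) (s2 := false) (a := 0) (b := 1) (c := 1) (cn := .pnn) (n1 := ndB0q0) (n2 := ndB1q1) (pc := pcB1) (cut := Cut.none) (xt := Ext.none) (P1 := 0) (W1 := 536870912) (P2 := 536870912) (W2 := 536870912) (P3 := 697932185) (W3 := 42949674) (N0 := 3) (En := eng) (mo := mog) (C1 := cd0q0) (C2 := cd1q1) (C3 := pd1)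
    rfl (fun _ => rfl) k0_pm_011

noncomputable def f_pm_012 : ℕ → ℕ → ℕ → ℕ → Bool := onCell 1073741824 536870912 536870912 536870912 697932185 42949674
    (rowB 3 eng mog cd0q0 cd1q1 pd2 2 true true false .pnp 0 1 2 (qsf 0 536870912 536870912 536870912 2) ndB0q0 ndB1q1 pcB2 Cut.none Ext.none)

def k0_pm_012 : ∃ t, chk3 f_pm_012 t 4 2 1 = true :=
  ⟨(l 3), by decide +kernel⟩

def k1_pm_012 : ∃ t, chk3 f_pm_012 t 8 3 1 = true :=
  ⟨(b (l 3) (b (l 3) (a (l 3) (b (l 3) (a (l 3) (b (l 3) (a (l 3) (a (l 3) (b (l 3) (c (l 16716320) (l 16714280))))))))))), by decide +kernel⟩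

def k2_pm_012 : ∃ t, chk3 f_pm_012 t 9 6 1 = true :=
  ⟨(a (l 3) (b (l 3) (a (l 3) (b (l 3) (a (l 3) (b (l 3) (a (b (l 3) (l 202567977879)) (b (l 16700928) (l 16697112))))))))), by decide +kernel⟩

def k3_pm_012 : ∃ t, chk3 f_pm_012 t 18 7 1 = true :=
  ⟨(b (l 3) (b (a (l 3) (a (b (l 3) (a (b (l 3) (a (l 16707680) (l 16706520))) (b (a (l 16708288) (l 16705528)) (a (l 16703440) (l 16700104))))) (b (a (b (l 3) (a (l 3) (l 16704656))) (b (a (l 3) (l 16704144)) (b (l 16701656) (l 16698832)))) (b (a (a (l 16702528) (l 16699312)) (a (l 16695976) (l 16671968))) (a (a (l 16696672) (l 16693624)) (a (l 16690760) (l 16688064))))))) (a (b (a (b (l 3) (a (l 3) (l 16726088))) (b (a (l 3) (a (l 16708120) (a (l 16705368) (l 16704376)))) (a (a (l 16706464) (b (l 16704344) (l 16701712))) (b (a (l 16702560) (l 16701008)) (l 16699472))))) (a (a (b (l 16723584) (a (l 16701048) (b (l 16700304) (l 16697856)))) (b (a (l 16703992) (b (l 16702344) (l 16699928))) (a (b (l 16699032) (l 16696248)) (b (l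 16697456) (l 16694760))))) (a (b (a (b (l 16700840) (l 16698568)) (b (l 16699520) (l 16696784))) (b (a (l 16695840) (l 16694048)) (l 16692136))) (b (b (l 16696688) (l 16694024)) (l 16689392))))) (b (a (b (a (b (l 16703416) (l 16700768)) (a (l 16697464) (l 16694368))) (a (b (l 16697680) (l 16694728)) (l 16690296))) (a (b (a (l 16691328) (l 16688536)) (l 16684776)) (b (l 16684640) (l 16679816)))) (a (b (l 16687336) (a (l 16684104) (l 16679328))) (b (a (l 16679624) (l 16675184)) (l 16673048))))))), by decide +kernel⟩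

def k4_pm_012 : ∃ t, chk3 f_pm_012 t 19 7 1 = true :=
  ⟨(b (a (b (l 3) (a (b (l 3) (b (a (l 3) (a (l 16706728) (l 16704456))) (a (a (l 3) (l 16704064)) (a (l 16701464) (l 16698648))))) (b (b (a (l 3) (l 16702728)) (a (a (l 16706896) (l 16703864)) (l 16699576))) (a (b (l 16700464) (l 16694176)) (b (l 16694568) (l 16689192)))))) (b (a (b (b (l 3) (a (l 3) (l 16722176))) (b (a (l 16714064) (l 16697728)) (a (l 159081376423) (l 16694400)))) (b (a (b (l 105394344743) (l 16695416)) (b (l 16693296) (l 16710600))) (a (b (a (l 16693392) (l 16690488)) (l 16687880)) (b (l 16686072) (l 16682488))))) (a (b (a (b (l 16696920) (l 16693880)) (b (l 16691112) (l 16687784))) (a (b (l 16689840) (l 16685200)) (l 16682480))) (b (a (b (l 16685024) (l 16681456)) (l 16656008)) (a (l 16676104) (l 16669664)))))) (b (a (a (b (a (b (a (l 16680448) (l 16698488)) (a (l 16695536) (l 16671592))) (b (a (l 16695448) (l 16671576)) (a (l 16689944) (l 16687544)))) (b (a (b (l 16690128) (l 16687744)) (l 16684232))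 (l 16687296))) (b (a (b (l 16688864) (l 16684280)) (l 16682392)) (b (l 16677832) (a (l 16675616) (l 16671584))))) (a (b (a (l 16678600) (l 16674416)) (b (l 16657048) (l 16665472))) (b (a (l 16668288) (l 16662112)) (l 16656280)))) (a (b (a (a (b (l 16679856) (l 16675352)) (b (l 16675488) (l 16671232))) (b (l 16669344) (l 16665232))) (a (l 16666264) (l 16655584))) (a (b (l 16657184) (l 16645184)) (b (l 16646208) (b (l 16637896) (l 16631872))))))), by decide +kernel⟩

def k5_pm_012 : ∃ t, chk3 f_pm_012 t 5 2 1 = true :=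
  ⟨(a (a (a (l 3) (b (l 2) (a (b (l 3) (a (l 3) (b (l 3) (a (l 3) (b (l 3) (l 16718512)))))) (a (b (l 3) (b (a (l 3) (b (l 3) (a (l 3) (l 16720736)))) (a (b (l 16720040) (l 16737240)) (a (l 61907862295) (b (l 16717496) (l 16713776)))))) (b (a (b (l 3) (a (l 3) (a (b (l 3) (l 16724976)) (b (l 16727040) (l 16724752))))) (a (a (a (b (l 3) (b (l 16726888) (l 16724536))) (a (b (l 15132998151) (l 16746624)) (b (l 16750992) (l 16746504)))) (b (l 16750832) (l 16725336))) (b (l 16750472) (l 16724872)))) (a (a (a (b (l 16742632) (l 16715080)) (b (l 16742312) (l 16714608))) (a (b (l 16742008) (l 16714096)) (b (b (l 16722152) (l 16719088)) (l 16713528)))) (a (a (a (b (l 16741328) (l 16713064)) (a (b (l 16741104) (l 16712808)) (b (l 16740904) (l 16733560)))) (b (l 16719680) (l 16712296))) (b (l 16719152) (l 16711696))))))))) (b (l 2) (b (b (a (b (l 2) (l 16723984)) (l 2)) (a (b (l 16721096) (l 16718144)) (b (l 16712224) (l 16708288)))) (b (a (b (l 16735872) (l 16711256)) (b (l 16704336) (l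 16700008))) (a (b (l 16707144) (l 16702640)) (l 16734744)))))) (b (l 2) (b (a (b (l 2) (a (l 16701760) (l 2))) (l 2)) (b (a (a (l 16713120) (l 16683000)) (a (l 16674904) (l 2))) (a (a (l 16723248) (l 16670792)) (a (l 16661352) (l 16652992))))))), by decide +kernel⟩

def k6_pm_012 : ∃ t, chk3 f_pm_012 t 40 3 1 = true :=
  ⟨(b (b (a (l 3) (b (l 3) (a (l 3) (b (l 3) (a (b (l 3) (l 16706112)) (b (l 16707720) (l 16703672))))))) (a (b (a (l 3) (b (l 3) (a (l 178945660279) (b (l 16702952) (l 16699416))))) (a (b (b (l 164987015847) (l 16719944)) (b (l 16695240) (l 16691408))) (b (a (l 16696640) (l 16693840)) (a (b (l 16690976) (l 16687192)) (b (l 16688160) (l 16684440)))))) (b (a (b (a (l 156397091655) (b (l 16704752) (l 16701184))) (a (l 16698536) (l 16695792))) (b (a (b (l 16702224) (l 16698488)) (l 16697672)) (a (b (l 16694840) (l 16691200)) (b (l 16692128) (l 16688600))))) (a (b (a (b (l 16692952) (l 16689192)) (b (l 16690208) (l 16686552))) (b (l 16684184) (l 16680432))) (b (a (l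 16685816) (l 16683240)) (a (l 16678352) (l 16675664))))))) (b (b (a (b (a (b (a (l 16689032) (l 16686192)) (l 16683856)) (a (l 16681512) (l 16678704))) (a (l 16678304) (b (l 16674304) (l 16670456)))) (b (a (b (l 16676512) (l 16672512)) (b (l 16671056) (l 16666968))) (a (b (l 16668512) (l 16664560)) (b (a (l 16664256) (l 16661472)) (a (l 16660232) (l 16657392)))))) (a (b (a (l 16670768) (b (l 16666552) (l 16662696))) (a (l 16663400) (l 16657128))) (b (a (b (l 16660568) (l 16656672)) (l 16652744)) (l 16668976)))) (b (b (a (l 16652768) (l 16640752)) (a (l 16644664) (l 16633344))) (a (b (l 16635480) (b (l 16627720) (l 16621888))) (b (a (l 16627488) (l 16622336)) (l 16622520)))))), by decide +kernel⟩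

def k7_pm_012 : ∃ t, chk3 f_pm_012 t 82 6 1 = true :=
  ⟨(b (b (a (a (l 3) (b (l 3) (l 16712816))) (a (b (l 16716136) (l 16710704)) (b (l 16713976) (l 16708568)))) (a (a (b (b (l 16710640) (l 16708096)) (b (l 16705344) (l 16701152))) (b (b (l 16708504) (l 16705800)) (b (l 16702936) (l 16698712)))) (a (b (l 16704912) (b (l 16700656) (l 16696400))) (b (b (l 16704312) (l 16701472)) (b (l 16698512) (l 16694160)))))) (b (a (b (a (b (l 16697024) (l 16693152)) (b (l 16694552) (l 16690672))) (a (b (l 16689560) (l 16686072)) (b (l 16687040) (l 16683480)))) (b (a (b (l 16692208) (l 16688240)) (b (l 16689848) (l 16685744))) (a (b (l 16684488) (l 16680824)) (b (l 16681848) (l 16678128))))) (a (b (a (l 16680616) (l 16677960)) (a (l 16672960) (l 16670240))) (b (a (l 16675264) (l 16672512)) (a (b (l 16669456) (l 16665496)) (b (l 16666688) (l 16662760))))))), by decide +kernel⟩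

def k8_pm_012 : ∃ t, chk3 f_pm_012 t 166 6 1 = true :=
  ⟨(b (b (a (b (l 16711840) (l 16727648)) (b (l 16730768) (l 16704544))) (a (b (b (l 16702304) (l 16699376)) (b (l 16696296) (l 16691816))) (b (l 16698608) (b (l 16693944) (l 16689392))))) (b (a (b (b (l 16687384) (l 16683176)) (b (l 16679176) (l 16675368))) (b (c (l 16685592) (l 16679760)) (b (l 16676504) (c (l 16675464) (l 16669744))))) (a (b (b (l 16671624) (l 16667816)) (c (l 16664488) (l 16659424))) (a (b (l 16667728) (l 16660040)) (b (l 16666408) (l 16658688)))))), by decide +kernel⟩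

def k9_pm_012 : ∃ t, chk3 f_pm_012 t 167 12 1 = true :=
  ⟨(a (a (b (b (l 16708160) (l 16702800)) (b (l 16696872) (l 16689824))) (b (b (l 16706952) (l 16701640)) (b (l 16695752) (c (l 16691472) (l 16685824))))) (a (a (a (b (l 16703712) (b (l 16695120) (l 16688016))) (a (b (l 16703496) (b (l 16694912) (l 16687808))) (b (l 16703288) (b (l 16694728) (b (l 16689960) (l 16695792)))))) (b (l 16702968) (b (l 16694400) (l 16687264)))) (b (l 16702320) (b (l 16693720) (l 16686512))))), by decide +kernel⟩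

def k10_pm_012 : ∃ t, chk3 f_pm_012 t 167 13 1 = true :=
  ⟨(a (a (b (b (l 16701752) (b (l 16674512) (l 16670656))) (b (b (l 16666920) (l 16663152)) (c (l 16659992) (l 16654552)))) (a (b (b (l 16679864) (l 16671632)) (b (l 16664008) (l 16656296))) (b (b (b (l 16681512) (l 16677144)) (b (l 16673024) (l 16669072))) (b (b (l 16665280) (l 16661472)) (b (l 16657568) (l 16653600)))))) (a (b (b (a (a (l 16678904) (a (b (l 16680888) (l 16676488)) (a (a (l 16678544) (b (l 16680680) (c (l 16679528) (l 16673024)))) (l 16678384)))) (l 16678072)) (a (a (b (l 16672560) (l 16668576)) (a (b (l 16672288) (l 16668288)) (a (a (b (l 16672144) (l 16668136)) (b (b (l 16694056) (b (l 16671544) (l 16681016))) (c (b (l 16677488) (b (l 16670744) (l 16669752))) (l 16664872)))) (b (l 16671984) (l 16667976))))) (b (l 16671648) (l 16667624)))) (a (a (b (b (l 16664760) (l 16660936)) (b (l 16657024) (l 16653056))) (a (b (b (l 16664456) (l 16660632)) (b (l 16656720) (l 16652752))) (a (a (b (b (l 16664304) (l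 16660472)) (b (l 16656560) (l 16652600))) (b (b (c (b (b (l 16668768) (l 16667792)) (l 16676808)) (l 16661144)) (c (b (l 16664344) (l 16662344)) (l 16657432))) (b (c (l 16669808) (l 16653648)) (l 16668256)))) (b (b (l 16664144) (l 16660320)) (l 16654456))))) (b (b (l 16663784) (l 16659952)) (l 16654080)))) (b (b (l 16677232) (b (l 16670752) (l 16666688))) (b (b (l 16662816) (l 16658976)) (l 16653088))))), by decide +kernel⟩

def k11_pm_012 : ∃ t, chk3 f_pm_012 t 41 14 1 = true :=
  ⟨(b (a (a (b (a (b (l 16666952) (l 16662840)) (b (l 16664216) (l 16660128))) (b (l 16657336) (l 16653168))) (b (a (l 16659472) (l 16656752)) (b (l 16651864) (l 16647632)))) (a (b (a (c (l 16656456) (l 16651440)) (c (l 16653840) (l 16648672))) (a (b (l 16647792) (l 16643568)) (b (l 16645112) (l 16640872)))) (a (a (b (l 16670256) (b (l 16643096) (l 16638880))) (a (b (l 16648256) (b (l 16642088) (l 16637896))) (b (l 16668536) (b (l 16641416) (l 16637248))))) (a (a (a (b (l 16668000) (b (l 16640912) (l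 16636776))) (a (b (l 16667712) (b (l 16640664) (l 16636552))) (b (a (a (l 16646608) (b (l 16648536) (l 16644528))) (l 16646480)) (b (c (l 16642880) (l 16638096)) (l 16657392))))) (b (l 16646104) (l 16638016))) (b (l 16645096) (l 16636992)))))) (a (b (a (l 16647000) (l 16641376)) (a (l 16639208) (l 16633560))) (a (b (a (l 16637264) (l 16634560)) (a (l 16629472) (l 16626808))) (a (a (b (l 16632600) (l 16624936)) (b (l 16652320) (l 16623784))) (a (a (a (b (l 16630616) (l 16623160)) (a (b (l 16630448) (l 16623056)) (b (l 16630376) (b (l 16624832) (l 16621264))))) (b (l 16629952) (l 16622592))) (b (l 16628912) (l 16621520))))))), by decide +kernel⟩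

def k12_pm_012 : ∃ t, chk3 f_pm_012 t 41 15 1 = true :=
  ⟨(a (b (b (a (l 16632040) (l 16626424)) (a (l 16625000) (l 16619696))) (b (a (l 16617192) (l 16611760)) (l 16625416))) (a (b (b (a (l 16622456) (l 16619824)) (a (l 16615832) (l 16613040))) (b (l 16606496) (l 16597352))) (a (a (b (b (l 16618016) (l 16610960)) (l 16599304)) (b (b (b (l 16618608) (l 16615024)) (l 16609728)) (l 16598504))) (a (a (a (b (b (l 16616064) (l 16609064)) (l 16598216)) (a (b (b (l 16615904) (l 16608992)) (l 16598360)) (b (b (l 16615872) (l 16588104)) (l 16609176)))) (b (b (l 16615368) (l 16608568)) (l 16598240))) (b (b (l 16614272) (l 16607464)) (l 16597208)))))), by decide +kernel⟩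

def k13_pm_012 : ∃ t, chk3 f_pm_012 t 42 3 1 = true :=
  ⟨(b (b (b (b (l 16697656) (l 16692216)) (b (l 16727992) (b (l 16680968) (a (l 16679640) (l 16672016))))) (b (b (b (a (l 16674696) (l 16666560)) (a (l 16669968) (l 16661392))) (b (a (c (l 16668968) (l 16661960)) (l 16677416)) (a (c (l 16664640) (l 16657696)) (c (l 16676544) (l 16647864))))) (b (a (a (b (l 16659616) (l 16655728)) (b (l 16654600) (l 16671528))) (b (a (l 16649648) (l 16655336)) (c (a (l 16649056) (l 16644288)) (l 16649752)))) (a (b (c (l 16652288) (l 16646040)) (c (l 16648144) (l 16642144))) (b (a (l 16641408) (c (l 16639928) (l 16632600))) (c (l 16638112) (l 16631304))))))) (b (a (b (b (b (l 16641104) (l 16637048)) (b (l 16632992) (l 16628864))) (b (l 16622752) (l 16615144))) (b (b (b (c (l 16633816) (l 16627312)) (l 16626448)) (b (l 16622328) (l 16618192))) (b (l 16611920) (l 16604032)))) (b (b (l 16623040) (a (l 16600928) (l 16589272))) (b (l 16588488) (l 16581832))))), by decide +kernel⟩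

def k14_pm_012 : ∃ t, chk3 f_pm_012 t 43 3 1 = true :=
  ⟨(b (b (b (l 16702744) (b (l 16672400) (b (l 16666896) (l 16661176)))) (b (b (b (l 16655312) (a (l 16653312) (l 16645768))) (b (a (l 16647928) (l 16639912)) (a (c (l 16646952) (l 16638576)) (l 16634344)))) (b (b (a (a (l 16650656) (l 16635624)) (c (l 16643976) (l 16624472))) (a (c (b (l 16638456) (l 16636128)) (l 16650040)) (c (b (l 16629640) (l 16627136)) (l 16640392)))) (a (b (c (a (l 16635104) (l 16630384)) (a (l 16627344) (l 16622208))) (a (l 16648016) (c (l 16625864) (l 16618000)))) (b (a (c (l 16625736) (l 16617136)) (b (l 16617984) (l 16615576))) (a (b (l 16618096) (l 16615896)) (b (l 16623720) (a (l 16612184) (l 16609736))))))))) (b (b (b (a (b (c (l 16623872) (l 16616568)) (c (l 16619472) (l 16612504))) (a (b (c (l 16616560) (l 16608640)) (l 16608344)) (b (b (l 16619224) (l 16606544)) (l 16624248)))) (b (a (l 16611832) (c (l 16605128) (l 16597760))) (a (l 16607632) (l 16607720)))) (b (b (l 16598144) (l 16593880))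 (b (l 16589912) (l 16585936)))) (b (b (l 16579912) (l 16572424)) (b (l 16586840) (l 16559664))))), by decide +kernel⟩

def k15_pm_012 : ∃ t, chk3 f_pm_012 t 11 6 1 = true :=
  ⟨(b (b (a (a (l 16669240) (l 16657472)) (a (l 16646584) (l 16636816))) (a (b (l 16652776) (a (l 16650504) (l 16637480))) (b (l 16629376) (l 16640392)))) (b (a (b (a (b (l 16641360) (l 16635024)) (l 16624776)) (a (b (l 16649744) (a (l 16626376) (l 16618912))) (b (l 16614912) (l 16608248)))) (b (a (l 16611960) (l 16600016)) (a (l 16598224) (l 16585488)))) (a (b (a (b (a (c (l 16625384) (l 16615800)) (l 16612736)) (a (c (b (l 16621264) (l 16618576)) (l 16610304)) (c (l 16611864) (l 16601712)))) (b (a (l 16605304) (l 16598160)) (a (l 16599000) (l 16591600)))) (a (b (a (a (b (l 16613448) (l 16610944)) (b (l 16609032) (l 16606432))) (c (b (l 16607624) (l 16604856)) (l 16617072))) (a (c (b (a (l 16613032) (l 16608600)) (a (l 16610584) (l 16606064))) (b (l 16601448) (l 16599088))) (b (a (l 16609896) (l 16595032))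 (c (a (l 16601656) (l 16597344)) (l 16589544))))) (b (a (a (l 16595024) (l 16591008)) (l 16606168)) (a (a (b (l 16590768) (l 16608992)) (a (l 16596720) (l 16584160))) (c (b (l 16586032) (l 16583048)) (l 16573440)))))) (b (a (b (l 16587896) (l 16580992)) (l 16571120)) (a (b (a (l 16577824) (l 16570712)) (a (c (l 16576944) (l 16565480)) (l 16563984))) (b (l 16560448) (l 16553400))))))), by decide +kernel⟩

def k16_pm_012 : ∃ t, chk3 f_pm_012 t 22 28 1 = true :=
  ⟨(a (b (a (b (c (a (b (l 16608200) (l 16605840)) (b (l 16603584) (l 16601168))) (a (l 16598264) (l 16593232))) (a (c (l 16602368) (l 16594024)) (c (b (l 16598784) (l 16596440)) (l 16588848)))) (b (c (b (a (l 16599088) (l 16594696)) (a (l 16596576) (l 16592104))) (b (l 16587064) (l 16584672))) (c (a (b (l 16594128) (l 16591720)) (b (l 16589560) (l 16587096))) (a (l 16583760) (l 16578784))))) (b (a (a (l 16593896) (l 16599368)) (a (c (l 16588184) (l 16579480)) (c (b (l 16584664) (l 16582280)) (l 16574352)))) (a (b (l 16588112)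 (l 16585896)) (b (c (l 16582288) (l 16573728)) (l 16575840))))) (b (b (a (c (b (a (l 16590408) (l 16586216)) (a (l 16587728) (l 16583456))) (b (l 16577824) (l 16575224))) (c (b (l 16601080) (a (l 16579280) (l 16575208))) (b (l 16569080) (l 16566280)))) (a (c (a (b (l 16585112) (l 16582552)) (b (l 16580760) (l 16578120))) (a (l 16573880) (l 16579624))) (c (b (a (l 16576504) (l 16572344)) (a (l 16573784) (l 16569544))) (b (l 16563568) (a (l 16563240) (l 16558688)))))) (b (a (c (a (b (l 16580056) (l 16577616)) (b (l 16575536) (l 16573032))) (a (l 16579808) (b (l 16565528) (l 16563256)))) (c (a (b (l 16571120) (l 16568528)) (b (l 16566808) (l 16564136))) (b (a (l 16560760) (l 16556112)) (a (l 16558376) (l 16553632))))) (a (b (a (c (l 16575208) (l 16566064)) (c (l 16575800) (l 16561024))) (l 16565992)) (b (b (c (a (l 16566624) (l 16562176)) (l 16554224)) (a (l 16560560) (l 16555888))) (c (l 16561168) (l 16551312))))))), by decide +kernel⟩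

def k17_pm_012 : ∃ t, chk3 f_pm_012 t 23 28 1 = true :=
  ⟨(b (a (b (a (c (b (l 16572288) (l 16569256)) (l 16559304)) (c (l 16563208) (l 16551392))) (a (b (a (l 16583760) (l 16558696)) (c (a (l 16565400) (l 16561352)) (l 16552088))) (c (b (l 16558496) (l 16555432)) (b (l 16546704) (l 16543696))))) (b (a (l 16550112) (l 16543016)) (a (b (l 16545144) (l 16541952)) (l 16536224)))) (a (b (a (c (b (a (l 16562592) (l 16558464)) (a (l 16559840) (l 16555632))) (b (a (l 16551584) (l 16547176)) (a (l 16549008) (l 16544504)))) (c (b (a (l 16554424) (l 16550464)) (a (l 16551520) (l 16547496))) (b (l 16540784) (a (l 16540120) (l 16535848))))) (a (b (c (b (a (l 16557816) (l 16553560)) (l 16554304)) (a (l 16546512) (l 16541912))) (c (l 16552264) (l 16541688))) (b (c (a (l 16559160) (l 16544568)) (a (l 16537432) (l 16533064))) (c (l 16543728) (l 16532536))))) (b (a (c (b (l 16544680) (l 16541600)) (b (l 16532640) (l 16529640))) (b (l 16531264) (l 16528072))) (a (b (c (l 16559544) (l 16526728))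 (l 16529888)) (a (l 16525344) (l 16521448)))))), by decide +kernel⟩

def k18_pm_012 : ∃ t, chk3 f_pm_012 t 11 29 1 = true :=
  ⟨(a (b (a (a (l 16580496) (l 16591296)) (b (a (l 16562560) (l 16563304)) (l 16553176))) (b (a (l 16569128) (l 16548896)) (a (l 16565024) (l 16544824)))) (b (a (b (a (b (l 16544616) (l 16542160)) (l 16534288)) (a (l 16538632) (l 16529280))) (b (a (l 16525624) (l 16517344)) (a (l 16520272) (l 16511672)))) (a (b (l 16539824) (l 16525144)) (b (l 16510880) (c (l 16511064) (l 16500920)))))), by decide +kernel⟩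

def k19_pm_012 : ∃ t, chk3 f_pm_012 t 11 15 1 = true :=
  ⟨(b (b (a (a (l 16558912) (a (l 16543640) (l 16533752))) (a (l 16519056) (b (l 16501992) (l 16497968)))) (a (a (l 16550920) (l 16530576)) (a (l 16531848) (l 16492016)))) (a (b (a (l 16543744) (l 16522920)) (a (l 16558720) (l 16516336))) (b (a (l 16503248) (l 16484224)) (a (l 16496216) (l 16477240))))), by decide +kernel⟩

def k20_pm_012 : ∃ t, chk3 f_pm_012 t 3 2 1 = true :=
  ⟨(a (b (l 2) (a (b (l 2) (b (l 2) (a (a (l 16645792) (l 2)) (l 2)))) (l 2))) (l 2)), by decide +kernel⟩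

def k21_pm_012 : ∃ t, chk3 f_pm_012 t 3 6 1 = true :=
  ⟨(a (b (a (b (a (a (l 16628208) (l 16620856)) (l 16633280)) (a (b (l 16610016) (l 16598688)) (b (l 16596000) (l 16583312)))) (a (b (l 2) (l 16600992)) (l 2))) (a (a (b (a (b (l 16588968) (l 16573672)) (b (l 16579144) (l 16563152))) (a (b (l 16558440) (l 16543592)) (b (l 16547040) (l 16531344)))) (b (b (l 16567152) (l 16550520)) (b (l 16533384) (l 16516592)))) (b (a (b (l 16555488) (l 16537680)) (l 16560312)) (a (b (l 16519456) (l 16543144)) (b (l 16510512) (l 16491016)))))) (b (l 2) (a (b (l 2) (a (b (l 2) (l 16486136)) (l 2))) (l 2)))), by decide +kernel⟩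

def k22_pm_012 : ∃ t, chk3 f_pm_012 t 6 7 1 = true :=
  ⟨(b (a (b (a (a (b (b (l 16532720) (l 16546600)) (b (a (l 16522344) (l 16515232)) (a (l 16515752) (l 16508432)))) (b (l 16537200) (a (b (l 16508376) (l 16501384)) (l 16498736)))) (b (a (l 16505344) (l 16495624)) (a (l 16490176) (l 16479672)))) (a (a (b (b (a (l 16509408) (l 16501800)) (l 16499456)) (b (l 16493744) (l 16488512))) (b (a (b (l 16494544) (l 16488008)) (l 16484696)) (a (l 16478992) (l 16471832)))) (b (a (l 16517512) (l 16464312)) (a (l 16482968) (l 16449936))))) (b (a (b (l 16504328) (a (l 16470336) (l 16462296))) (b (a (l 16474128) (l 16469736)) (a (l 16455640) (l 16450472)))) (a (b (a (l 16454144) (l 16445216)) (a (l 16438952) (l 16429136))) (b (a (l 16437664) (l 16431568)) (a (l 16420624) (l 16413592)))))) (a (b (a (b (a (b (l 16483936) (l 16479680)) (a (b (l 16471176) (l 16466696)) (b (l 16463464) (l 16458680)))) (a (b (l 16475576) (l 16471672)) (a (l 16460408) (l 16451984)))) (b (a (b (l 16452840) (l 16447592))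 (b (l 16440024) (l 16434256))) (a (b (l 16442584) (l 16437816)) (b (l 16428736) (l 16423456))))) (a (b (a (l 16466040) (a (l 16452688) (l 16443816))) (a (l 16458912) (l 16441176))) (b (a (b (l 16433368) (l 16429208)) (b (l 16418440) (l 16413768))) (a (b (l 16425384) (l 16421952)) (b (l 16409512) (l 16405672)))))) (b (a (b (a (b (l 16428392) (l 16422160)) (l 16414496)) (a (b (l 16416304) (l 16410632)) (b (l 16404888) (l 16398912)))) (b (a (l 16404976) (l 16396856)) (a (l 16391304) (l 16381952)))) (a (b (a (a (l 16426824) (l 16420456)) (b (l 16393192) (l 16387744))) (a (b (l 16395328) (l 16391032)) (b (l 16382656) (l 16377976)))) (b (a (b (l 16382032) (l 16376344)) (l 16368752)) (a (b (l 16371008) (l 16366072)) (b (l 16360040) (l 16354912)))))))), by decide +kernel⟩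

def k23_pm_012 : ∃ t, chk3 f_pm_012 t 7 7 1 = true :=
  ⟨(a (b (b (a (b (l 16465784) (a (l 16446864) (l 16444976))) (b (l 2) (a (l 16444272) (l 2)))) (a (a (b (l 16427176) (l 16408216)) (b (l 16424656) (l 16404920))) (a (b (l 16423664) (l 16403288)) (b (l 16423848) (l 16403232))))) (b (a (b (a (c (l 16400360) (l 16379800)) (c (l 16396904) (l 16374616))) (a (c (l 16383768) (l 16363672)) (c (l 16378632) (l 16357160)))) (b (c (a (l 16395488) (l 16395816)) (l 16391112)) (a (c (l 16375544) (l 16352464)) (c (c (l 16401464) (l 16368752)) (l 16349720))))) (a (a (b (c (l 16369056) (l 16349320)) (l 16347128)) (b (l 16351920) (l 16337984))) (b (a (c (l 16356416) (l 16334752)) (c (l 16352936) (l 16330000))) (a (l 16330152) (l 16323920)))))) (b (a (a (a (b (l 2) (l 16414424)) (l 2)) (l 2)) (l 2)) (b (a (a (b (l 16383928) (b (a (l 16368344) (l 16369056)) (l 16356984))) (b (l 16386088) (b (a (l 16370136) (l 16371560)) (l 16379776)))) (a (a (b (l 2) (b (l 2) (l 16361360))) (l 2)) (l 2))) (a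 (b (a (c (l 16351696) (l 16327176)) (c (l 16352536) (l 16326256))) (a (l 16319368) (c (l 16327792) (l 16304808)))) (a (b (c (l 16355440) (l 16327272)) (c (l 16327728) (l 16303424))) (b (c (l 16359792) (l 16329896)) (l 16338192))))))), by decide +kernel⟩

theorem s24_pm_012 : ∃ t, chk3 f_pm_012 t 3 7 1 = true := ex3_a k22_pm_012 k23_pm_012

theorem s25_pm_012 : ∃ t, chk3 f_pm_012 t 3 3 1 = true := ex3_b k21_pm_012 s24_pm_012

theorem s26_pm_012 : ∃ t, chk3 f_pm_012 t 3 1 1 = true := ex3_b k20_pm_012 s25_pm_012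

theorem s27_pm_012 : ∃ t, chk3 f_pm_012 t 11 28 1 = true := ex3_a k16_pm_012 k17_pm_012

theorem s28_pm_012 : ∃ t, chk3 f_pm_012 t 11 14 1 = true := ex3_b s27_pm_012 k18_pm_012

theorem s29_pm_012 : ∃ t, chk3 f_pm_012 t 11 7 1 = true := ex3_b s28_pm_012 k19_pm_012

theorem s30_pm_012 : ∃ t, chk3 f_pm_012 t 11 3 1 = true := ex3_b k15_pm_012 s29_pm_012

theorem s31_pm_012 : ∃ t, chk3 f_pm_012 t 21 3 1 = true := ex3_a k13_pm_012 k14_pm_012

theorem s32_pm_012 : ∃ t, chk3 f_pm_012 t 41 7 1 = true := ex3_b k11_pm_012 k12_pm_012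

theorem s33_pm_012 : ∃ t, chk3 f_pm_012 t 167 6 1 = true := ex3_b k9_pm_012 k10_pm_012

theorem s34_pm_012 : ∃ t, chk3 f_pm_012 t 83 6 1 = true := ex3_a k8_pm_012 s33_pm_012

theorem s35_pm_012 : ∃ t, chk3 f_pm_012 t 41 6 1 = true := ex3_a k7_pm_012 s34_pm_012

theorem s36_pm_012 : ∃ t, chk3 f_pm_012 t 41 3 1 = true := ex3_b s35_pm_012 s32_pm_012

theorem s37_pm_012 : ∃ t, chk3 f_pm_012 t 20 3 1 = true := ex3_a k6_pm_012 s36_pm_012

theorem s38_pm_012 : ∃ t, chk3 f_pm_012 t 10 3 1 = true := ex3_a s37_pm_012 s31_pm_012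

theorem s39_pm_012 : ∃ t, chk3 f_pm_012 t 5 3 1 = true := ex3_a s38_pm_012 s30_pm_012

theorem s40_pm_012 : ∃ t, chk3 f_pm_012 t 5 1 1 = true := ex3_b k5_pm_012 s39_pm_012

theorem s41_pm_012 : ∃ t, chk3 f_pm_012 t 9 7 1 = true := ex3_a k3_pm_012 k4_pm_012

theorem s42_pm_012 : ∃ t, chk3 f_pm_012 t 9 3 1 = true := ex3_b k2_pm_012 s41_pm_012

theorem s43_pm_012 : ∃ t, chk3 f_pm_012 t 4 3 1 = true := ex3_a k1_pm_012 s42_pm_012

theorem s44_pm_012 : ∃ t, chk3 f_pm_012 t 4 1 1 = true := ex3_b k0_pm_012 s43_pm_012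

theorem s45_pm_012 : ∃ t, chk3 f_pm_012 t 2 1 1 = true := ex3_a s44_pm_012 s40_pm_012

theorem s46_pm_012 : ∃ t, chk3 f_pm_012 t 1 1 1 = true := ex3_a s45_pm_012 s26_pm_012

theorem c_pm_012 : CertB 0 536870912 536870912 536870912 697932185 42949674 3 eng mog cd0q0 cd1q1 pd2 true true false .pnp 0 1 2
    ndB0q0 ndB1q1 pcB2 Cut.none Ext.none :=
  certB2 (fam := true) (s1 := true) (s2 := false) (a := 0) (b := 1) (c := 2) (cn := .pnp) (n1 := ndB0q0) (n2 := ndB1q1) (pc := pcB2) (cut := Cut.none) (xt := Ext.none) (P1 := 0) (W1 := 536870912) (P2 := 536870912) (W2 := 536870912) (P3 := 697932185) (W3 := 42949674) (N0 := 3) (En := eng) (mo := mog) (C1 := cd0q0) (C2 := cd1q1) (C3 := pd2)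
    rfl (fun _ => rfl) s46_pm_012

noncomputable def cut_pm_022_a : Cut := Cut.of [[⟨0, 0, 0, 67108864⟩, ⟨1, 1, 0, 67108864⟩, ⟨2, 1, 0, 67108864⟩]]

noncomputable def xt_pm_022_a : Ext := extD2 3 ⟨7, 3, 3, 10, 49, 25, 3, 4, 67, 200, 3, 16⟩ eng cd0q0 cd1q2a pd2 true true false .pp 0 2 2 rfl ndB0q0 ndB1q2a pcB2

noncomputable def f_pm_022_a : ℕ → ℕ → ℕ → ℕ → Bool := onCell 1073741824 536870912 0 536870912 697932185 42949674
    (rowB 3 eng mog cd0q0 cd1q2a pd2 2 true true false .pp 0 2 2 (qsf 0 536870912 0 536870912 2) ndB0q0 ndB1q2a pcB2 cut_pm_022_a xt_pm_022_a)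

def k0_pm_022_a : ∃ t, chk3 f_pm_022_a t 8 1 1 = true :=
  ⟨(b (l 1) (b (l 1) (b (a (l 1) (b (a (l 1) (b (l 1) (a (l 1) (b (l 16622624) (l 16632112))))) (a (l 6) (a (l 6) (b (l 16655144) (l 16677120)))))) (a (l 6) (a (l 6) (a (l 6) (a (l 6) (a (l 6) (b (b (l 16676848) (l 16691640)) (b (l 16694640) (b (l 16695872) (l 16696136)))))))))))), by decide +kernel⟩

def k1_pm_022_a : ∃ t, chk3 f_pm_022_a t 9 2 1 = true :=
  ⟨(b (l 1) (a (l 1) (b (l 1) (a (l 1) (b (l 1) (a (l 1) (l 16495440))))))), by decide +kernel⟩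

def k2_pm_022_a : ∃ t, chk3 f_pm_022_a t 9 6 1 = true :=
  ⟨(b (a (l 1) (b (a (b (l 1) (l 16507936)) (a (b (l 16504352) (l 16515568)) (l 16535840))) (a (a (b (l 1) (l 16533072)) (b (l 16523400) (l 16536664))) (b (a (l 16527432) (l 16531000)) (a (l 16539784) (l 16542496)))))) (a (b (a (l 1) (a (b (l 1) (l 16558136)) (b (l 16544536) (l 16560640)))) (a (a (l 1) (b (l 16573584) (l 16590856))) (b (a (l 16575448) (l 16576848)) (a (l 16591640) (l 16592024))))) (b (a (b (a (l 16547632) (l 16550256)) (a (l 16562688) (l 16564328))) (b (a (l 16552464) (l 16533336)) (a (l 16544632) (l 16566568)))) (a (b (a (l 16577864) (l 16578528)) (a (l 16592088) (l 16591856))) (b (a (l 16578880) (l 16578968)) (l 16590984)))))), by decide +kernel⟩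

def k3_pm_022_a : ∃ t, chk3 f_pm_022_a t 9 7 1 = true :=
  ⟨(b (a (b (a (b (a (l 16608184) (l 16608264)) (a (l 16647680) (l 16625664))) (b (a (l 16607976) (l 16607352)) (a (l 16624328) (l 16622712)))) (b (a (a (l 16642928) (l 16640920)) (l 16637440)) (a (a (l 16658680) (l 16655760)) (l 16651040)))) (a (b (b (l 16584920) (l 16619880)) (a (l 16639432) (l 16630496))) (b (b (l 16603248) (l 16610832)) (a (l 16621760) (b (l 16611088) (l 16614992)))))) (b (a (a (b (b (l 16668728) (l 16676400)) (a (l 16685600) (l 16675976))) (b (l 16679360) (a (l 16666392) (l 16656920)))) (a (b (a (l 16644416) (l 16635288)) (a (l 16647512) (l 16638232))) (b (a (l 16626328) (l 16617600)) (a (l 16629168) (l 16620320))))) (a (b (a (a (b (l 16687960) (l 16689056)) (b (l 16678256) (l 16679264))) (a (b (l 16668560) (l 16669488)) (l 16680392))) (a (b (a (l 16700208) (l 16690320)) (a (a (a (l 16693648) (l 16691152)) (a (l 16688656) (l 16686160))) (c (b (l 16680840) (l 16680960)) (b (l 16679160) (l 16678880)))))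 (b (a (l 16669976) (l 16660240)) (b (a (l 16670056) (l 16660272)) (a (a (l 16672424) (l 16667488)) (c (l 16661504) (c (l 16659496) (l 16658240)))))))) (a (a (b (l 16649872) (b (l 16650600) (a (c (l 16654304) (l 16651624)) (a (l 16649288) (l 16646880))))) (b (l 16640496) (b (l 16641120) (b (l 16641048) (a (l 16643208) (l 16638472)))))) (b (a (l 16631304) (l 16643288)) (a (b (l 16631816) (c (l 16633328) (b (l 16630144) (l 16640192)))) (a (b (l 16624944) (a (l 16625776) (l 16623504))) (b (l 16620456) (l 16620120))))))))), by decide +kernel⟩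

def k4_pm_022_a : ∃ t, chk3 f_pm_022_a t 10 2 1 = true :=
  ⟨(a (a (b (l 1) (c (b (l 16473000) (b (b (l 16492304) (l 16499104)) (l 16510048))) (b (l 78416111543) (b (b (l 16478336) (l 16485432)) (l 16517912))))) (b (b (a (l 1) (l 16450520)) (b (l 16452904) (a (l 16457960) (l 16464864)))) (b (b (l 16430520) (l 16465112)) (a (b (b (l 16495040) (l 16501736)) (l 16511448)) (a (b (l 16502480) (l 16514752)) (b (a (l 16500456) (l 16541056)) (l 16537304))))))) (b (c (a (a (b (l 16450784) (l 16459440)) (b (b (l 16446768) (l 16449216)) (b (l 16432264) (a (l 16459536) (l 16458352))))) (b (b (l 16452448) (l 16454688)) (b (l 16458512) (l 16406352)))) (a (b (l 16477200) (b (l 16461752) (l 16468808))) (b (l 16459960) (l 16487856)))) (a (c (b (b (a (l 16470352) (a (l 16467456) (l 16466144))) (a (l 16479928) (l 16465592))) (b (a (l 16491152) (b (l 16483632) (l 16489400))) (l 16504800))) (b (b (l 16478464) (l 16487920)) (b (l 16540600) (l 16514192)))) (b (b (c (l 16471688) (l 16478296)) (c (l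 16480792) (l 16489552))) (b (b (l 16492056) (l 16433992)) (l 16508248)))))), by decide +kernel⟩

def k5_pm_022_a : ∃ t, chk3 f_pm_022_a t 10 6 1 = true :=
  ⟨(b (a (a (c (b (l 16526712) (l 16545584)) (b (l 16535648) (b (l 16529600) (l 16540320)))) (a (b (l 16526520) (l 16543872)) (a (b (l 16528776) (l 16545024)) (b (a (l 16529680) (l 16530056)) (c (l 16542824) (l 16540008)))))) (b (a (c (l 16521048) (l 16528424)) (l 16522728)) (a (c (l 16535400) (l 16542768)) (l 16535112)))) (a (a (b (a (l 16540640) (l 16562400)) (b (l 16578536) (l 16587848))) (b (a (l 16562824) (a (l 16560752) (c (l 16555304) (l 16557616)))) (a (l 16574720) (a (l 16569864) (a (l 16567912) (l 16567144)))))) (b (a (c (l 16547472) (l 16554264)) (l 16544960)) (a (a (l 16562792) (l 16573064)) (l 16568000))))), by decide +kernel⟩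

def k6_pm_022_a : ∃ t, chk3 f_pm_022_a t 20 7 1 = true :=
  ⟨(b (a (b (b (l 16591792) (l 16594728)) (b (l 16599008) (a (l 16606664) (l 16598680)))) (a (b (l 16582264) (b (l 16587632) (l 16591240))) (a (b (l 16577336) (l 16584600)) (b (a (l 16575456) (b (l 16573232) (l 16576072))) (a (l 16582760) (b (l 16601264) (l 16604920))))))) (a (b (b (a (l 16609160) (l 16601056)) (a (l 16611744) (l 16603512))) (b (a (l 16613600) (l 16605248)) (a (b (l 16613880) (a (l 16615648) (l 16616504))) (b (l 16605392) (c (l 16607040) (b (l 16603120) (l 16602536))))))) (a (b (b (l 16593520) (l 16595864)) (b (b (l 16597216) (l 16597568)) (b (a (l 16599272) (l 16595456)) (a (c (l 16600880) (l 16596560)) (c (l 16596992) (l 16592680)))))) (b (a (b (l 16588440) (l 16590728)) (a (b (l 16586632) (l 16588920)) (b (c (l 16586192) (l 16586736)) (c (l 16609984) (l 16609512))))) (b (a (l 16592176) (a (l 16590360) (a (a (a (l 16590080) (c (l 16612640) (l 16611176))) (l 16590416)) (l 16589616)))) (b (a (l 16592056)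 (a (l 16590184) (a (a (a (l 16589904) (a (l 16590160) (l 16590592))) (l 16590256)) (l 16589432)))) (a (a (c (l 16594232) (l 16589984)) (c (l 16592560) (l 16588448))) (a (a (l 16589424) (a (l 16589072) (l 16588992))) (a (a (a (l 16589096) (a (l 16589352) (a (a (l 16589624) (l 16589848)) (l 16589768)))) (l 16589456)) (l 16588616)))))))))), by decide +kernel⟩

def k7_pm_022_a : ∃ t, chk3 f_pm_022_a t 21 7 1 = true :=
  ⟨(b (b (a (c (a (l 16568776) (l 16562016)) (b (l 16567496) (l 16569616))) (b (l 16556808) (l 16558600))) (a (a (l 16598544) (b (l 16568232) (l 16571600))) (b (l 16561720) (l 16564192)))) (b (a (b (a (l 16581384) (l 16573552)) (a (l 16583568) (l 16596424))) (b (l 16565208) (l 16566064))) (a (b (a (l 16584848) (a (l 16578432) (l 16574264))) (b (a (l 16584496) (a (l 16577864) (l 16594488))) (a (c (l 16585400) (l 16581976)) (a (l 16587256) (a (l 16573352) (l 16571240)))))) (b (a (l 16569192) (l 16562424)) (b (a (l 16567976) (l 16560552)) (a (c (l 16568864) (l 16564192))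 (c (l 16561256) (l 16556008)))))))), by decide +kernel⟩

def k8_pm_022_a : ∃ t, chk3 f_pm_022_a t 22 1 1 = true :=
  ⟨(a (b (b (b (a (l 16504240) (l 16503512)) (b (l 16506112) (c (l 16472472) (l 16464792)))) (b (b (c (l 16479880) (l 16472376)) (b (l 16484640) (l 16490328))) (b (a (l 16500376) (l 16498536)) (l 16511336)))) (b (b (b (l 16521760) (l 16533520)) (b (l 16543464) (l 16548592))) (b (b (l 16551888) (a (l 16556784) (l 16552296))) (b (b (l 16554488) (l 16553792)) (b (b (l 16552600) (l 16551056)) (b (a (l 16552936) (l 16545168)) (a (c (l 16553480) (l 16547592)) (c (l 16545704) (l 16539160))))))))) (b (b (b (c (l 16490696) (b (l 16458096) (l 16456520))) (c (b (l 16466064) (l 16470744)) (b (l 16457864) (l 16462016)))) (b (c (b (l 16477704) (l 16486928)) (b (l 16468704) (l 16498880))) (b (b (l 16407416) (l 16455816)) (c (l 16509264) (l 16501120))))) (b (b (b (l 16515400) (l 16526192)) (b (l 16537328) (l 16544072))) (b (b (l 16545120) (l 16566224)) (b (b (l 16543064) (l 16540816))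 (b (a (l 16541072) (l 16533832)) (b (a (l 16537416) (l 16529832)) (a (l 16555304) (c (l 16530496) (l 16522648)))))))))), by decide +kernel⟩

def k9_pm_022_a : ∃ t, chk3 f_pm_022_a t 23 1 1 = true :=
  ⟨(b (b (b (a (b (c (l 16466704) (l 16459680)) (c (l 16486256) (l 16457384))) (b (l 16488048) (c (l 16468312) (l 16460032)))) (a (c (b (l 16466592) (l 16470352)) (b (l 16458016) (l 16461312))) (b (a (l 16464112) (l 16465488)) (b (l 16476896) (a (l 16467976) (l 16468800)))))) (b (a (c (b (l 16476408) (l 16484656)) (b (l 16488056) (l 16485760))) (b (c (a (l 16476552) (l 16477136)) (a (l 16466984) (l 16467416))) (c (l 16484072) (b (l 16472192) (l 16476328))))) (b (a (b (c (l 16492072) (l 16482800)) (l 16409856)) (b (l 16507248) (l 16491376))) (a (c (l 16505280) (l 16496936)) (b (l 16496528) (l 16500608)))))) (b (b (b (a (l 16510472) (l 16506872)) (a (l 16520176) (l 16515592))) (b (a (l 16530096) (l 16524272)) (l 16535744))) (b (b (a (l 16537688) (l 16529800)) (b (l 16531136) (a (l 16534376)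 (l 16523752)))) (b (b (a (l 16531184) (l 16519456)) (a (l 16527808) (l 16515096))) (b (a (a (l 16526760) (l 16519864)) (a (l 16513144) (l 16506616))) (a (a (b (l 16522432) (c (l 16523176) (l 16514720))) (b (l 16515224) (c (l 16516040) (l 16507032)))) (b (a (l 16508216) (l 16501408)) (c (a (l 16509096) (l 16502344)) (a (l 16499568) (l 16492352)))))))))), by decide +kernel⟩

def k10_pm_022_a : ∃ t, chk3 f_pm_022_a t 6 4 1 = true :=
  ⟨(a (b (a (b (a (l 16492904) (c (l 16481584) (l 16473696))) (a (c (l 16493656) (l 16464112)) (c (b (l 16478768) (l 16477696)) (l 16469536)))) (b (a (c (l 16488832) (l 16480944)) (c (l 16497280) (l 16489648))) (a (c (b (l 16485648) (l 16484288)) (l 16476240)) (c (b (l 16493784) (l 16492176)) (l 16484472))))) (a (b (a (b (l 16488968) (a (l 16467376) (l 16469344))) (c (b (l 16477168) (l 16477200)) (b (l 16467928) (l 16467744)))) (a (b (a (l 16468400) (l 16470152)) (a (l 16470000) (l 16471552))) (b (a (l 16472240) (l 16474632)) (a (l 16473432) (l 16475632)))))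 (b (a (c (b (l 16483464) (l 16483112)) (b (l 16474208) (l 16473632))) (c (b (l 16491072) (l 16490440)) (l 16481656))) (a (b (c (l 16483320) (l 16473672)) (a (l 16478208) (l 16481200))) (b (c (l 16490328) (l 16480912)) (c (l 16490936) (l 16481256))))))) (a (b (a (b (c (l 16506968) (l 16499944)) (c (b (l 16503240) (l 16501432)) (l 16494360))) (b (c (l 16517448) (l 16510792)) (c (a (l 16510072) (l 16515256)) (l 16505072)))) (a (b (c (b (l 16500088) (l 16499192)) (l 16491064)) (c (b (l 16498800) (l 16499152)) (b (l 16489912) (l 16489984)))) (a (b (c (b (l 16507560) (l 16506496)) (l 16498912)) (c (b (l 16505912) (l 16506112)) (l 16497536))) (b (l 16508320) (c (l 16510824) (l 16502376)))))) (b (a (b (l 16525600) (l 16519880)) (b (l 16537216) (l 16531096))) (a (b (l 16537160) (c (l 16518216) (l 16509896))) (b (l 16526728) (l 16524144)))))), by decide +kernel⟩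

def k11_pm_022_a : ∃ t, chk3 f_pm_022_a t 6 5 1 = true :=
  ⟨(a (b (a (b (a (c (b (l 16477296) (l 16479968)) (b (l 16467432) (l 16469976))) (b (a (l 16475168) (l 16477184)) (c (l 16483000) (l 16472792)))) (a (b (c (l 16483144) (l 16473072)) (c (l 16486776) (l 16476656))) (b (c (l 16485744) (l 16475432)) (c (l 16488968) (l 16478592))))) (b (a (b (a (l 16479584) (l 16482408)) (c (l 16487504) (l 16477248))) (b (a (l 16485664) (l 16489336)) (a (l 16487200) (l 16490720)))) (a (b (c (l 16489888) (l 16479504)) (c (l 16492728) (l 16482264))) (b (c (l 16495680) (l 16485464)) (c (l 16498176) (l 16487880)))))) (b (a (a (b (c (l 16490872) (l 16480784)) (l 16490608)) (b (c (l 16492568) (l 16482192)) (l 16491512))) (a (b (c (l 16495968) (l 16485496)) (l 16494280)) (b (c (l 16501056) (l 16490744)) (l 16498888)))) (a (a (b (l 16495136) (l 16499128)) (b (l 16495448) (l 16499256))) (b (a (l 16497632) (l 16501632)) (a (l 16501024) (l 16504512)))))) (a (b (a (b (b (a (l 16493424) (l 16497928)) (a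 (l 16494664) (l 16499032))) (b (a (l 16496408) (l 16500624)) (a (l 16498592) (l 16502680)))) (b (a (b (l 16523640) (l 16503648)) (l 16507696)) (a (b (l 16505096) (l 16506888)) (l 16510216)))) (b (a (b (c (l 16507824) (l 16497976)) (l 16505312)) (a (b (l 16509056) (l 16510704)) (l 16513520))) (a (b (l 16507328) (l 16509160)) (b (l 16513480) (l 16514360))))) (b (a (b (l 16514584) (l 16516344)) (b (l 16523544) (l 16524272))) (b (a (l 16518736) (l 16525376)) (a (l 16519272) (l 16523984)))))), by decide +kernel⟩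

def k12_pm_022_a : ∃ t, chk3 f_pm_022_a t 7 2 1 = true :=
  ⟨(b (a (b (a (b (a (l 16548664) (l 16559440)) (l 16547000)) (b (l 16574952) (l 16567376))) (a (a (l 16535528) (l 16544824)) (l 16558680))) (a (b (b (l 16597792) (l 16589432)) (l 16579288)) (b (l 16678520) (l 16598768)))) (a (b (a (a (l 16532040) (l 16539776)) (l 16551768)) (a (b (l 16534664) (l 16531272)) (b (l 16548592) (l 16541976)))) (a (b (l 16569776) (b (l 16562680) (l 16552856))) (b (l 16625920) (b (l 16573240) (l 16559144)))))), by decide +kernel⟩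

def k13_pm_022_a : ∃ t, chk3 f_pm_022_a t 6 6 1 = true :=
  ⟨(a (b (a (b (a (l 16504744) (l 16504288)) (a (l 16512480) (l 16511040))) (b (a (l 16505520) (l 16508360)) (a (l 16511272) (l 16512208)))) (a (b (a (l 16519992) (l 16517328)) (l 16524032)) (b (l 16514456) (l 16512536)))) (b (a (b (a (l 16511904) (l 16515304)) (a (l 16513440) (l 16514104))) (b (a (l 16518104) (l 16520776)) (l 16514360))) (a (b (l 16510376) (l 16501888)) (b (l 16505000) (l 16492160))))), by decide +kernel⟩

def k14_pm_022_a : ∃ t, chk3 f_pm_022_a t 6 7 1 = true :=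
  ⟨(a (b (a (a (b (l 16521896) (l 16515368)) (b (l 16514160) (l 16505928))) (b (a (l 16506696) (l 16499584)) (a (l 16496840) (l 16488168)))) (b (a (a (b (l 16508312) (l 16503152)) (b (l 16497712) (l 16491768))) (a (a (l 16486832) (l 16481584)) (l 16494968))) (a (b (a (b (l 16498824) (l 16495440)) (a (l 16488064) (l 16482016))) (a (b (c (l 16496480) (l 16486648)) (a (c (l 16495768) (l 16485360)) (c (l 16489304) (l 16478504)))) (c (b (l 16484088) (a (l 16482896) (l 16476496))) (a (l 16474264) (l 16467488))))) (b (a (l 16473104) (l 16461688)) (a (b (l 16466200) (c (a (l 16470224) (l 16464120)) (l 16454608))) (b (l 16475168) (a (c (l 16458192) (l 16444792)) (c (l 16452480) (l 16438472))))))))) (b (a (b (a (l 16492776) (l 16486264)) (l 16517912)) (b (l 16603632) (a (l 16465224) (l 16458824)))) (b (a (a (l 16506264) (b (l 16459640) (l 16450816))) (b (a (l 16451760) (l 16444440)) (a (l 16442360) (l 16434288)))) (a (b (a (b (l 16453424) (l 16448440)) (a (l 16443520) (l 16438816))) (a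 (b (a (l 16445704) (l 16440344)) (a (c (l 16447016) (l 16432416)) (c (l 16441776) (l 16426656)))) (b (a (l 16435232) (l 16430328)) (c (a (l 16436736) (l 16431832)) (a (l 16421200) (l 16416000)))))) (b (a (c (l 16439016) (l 16424792)) (a (l 16425488) (l 16421096))) (a (b (c (l 16430728) (l 16415392)) (c (a (l 16427016) (l 16422208)) (a (l 16411008) (l 16406152)))) (b (a (l 16416280) (l 16411584)) (c (a (l 16417320) (l 16412352)) (a (l 16401368) (l 16396600)))))))))), by decide +kernel⟩

def k15_pm_022_a : ∃ t, chk3 f_pm_022_a t 7 6 1 = true :=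
  ⟨(a (b (a (b (l 16524880) (l 16515488)) (b (l 16531952) (l 16516128))) (a (b (l 16499112) (l 16485008)) (b (l 16494296) (l 16476560)))) (b (a (b (l 16537608) (l 16515008)) (b (l 16539616) (l 16513136))) (a (b (l 16484032) (l 16464360)) (l 16522032)))), by decide +kernel⟩

def k16_pm_022_a : ∃ t, chk3 f_pm_022_a t 7 7 1 = true :=
  ⟨(a (b (a (b (a (l 16470472) (l 16465840)) (a (l 16452776) (l 16445888))) (b (a (l 16459800) (l 16453096)) (a (l 16438544) (l 16430240)))) (a (b (a (b (l 16437072) (l 16426032)) (b (l 16429056) (l 16417376))) (b (a (a (l 16416584) (l 16412000)) (l 16405008)) (b (a (a (l 16406840) (l 16402032)) (l 16394912)) (a (c (a (l 16407312) (l 16402240)) (l 16389448)) (c (a (l 16397184) (l 16392216)) (l 16380080)))))) (b (b (l 16416168) (l 16425056)) (b (a (l 16395944) (l 16387400)) (a (b (l 16385720) (c (a (l 16387368) (l 16382696)) (l 16381616))) (b (l 16398128) (c (a (l 16378200) (l 16373912)) (a (l 16364832) (l 16360872))))))))) (b (a (b (l 16441104) (a (l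 16422232) (l 16414848))) (b (l 16426992) (a (l 16408184) (l 16402488)))) (b (a (b (l 16400368) (a (l 16392040) (l 16384968))) (b (l 16387672) (a (l 16378760) (l 16373696)))) (a (b (a (l 16379552) (l 16372592)) (a (b (c (l 16374768) (l 16363000)) (c (b (l 16369640) (a (l 16368056) (l 16364216))) (a (l 16357104) (l 16353552)))) (b (c (l 16367512) (l 16356336)) (c (a (l 16367648) (b (l 16360856) (l 16357400))) (a (l 16350240) (l 16347184)))))) (b (a (l 16366584) (b (l 16364904) (l 16358632))) (b (a (c (l 16361512) (l 16350720)) (a (l 16353088) (l 16351008))) (b (a (c (a (l 16357904) (l 16355312)) (l 16345096)) (c (a (l 16352952) (l 16350736)) (l 16340608))) (a (c (a (c (l 16356816) (l 16351928)) (a (l 16352560) (a (l 16351640) (l 16351040)))) (a (l 16342488) (l 16340024))) (a (c (b (l 16350424) (c (c (l 140914611935641615) (l 16349856)) (l 16346176))) (l 16337800)) (c (a (b (l 16348736) (c (l 140909045652406287) (l 16344536))) (c (l 140902792179433487) (l 16344376))) (c (l 16339112)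 (l 16332104)))))))))))), by decide +kernel⟩

theorem s17_pm_022_a : ∃ t, chk3 f_pm_022_a t 7 3 1 = true := ex3_b k15_pm_022_a k16_pm_022_a

theorem s18_pm_022_a : ∃ t, chk3 f_pm_022_a t 6 3 1 = true := ex3_b k13_pm_022_a k14_pm_022_a

theorem s19_pm_022_a : ∃ t, chk3 f_pm_022_a t 3 3 1 = true := ex3_a s18_pm_022_a s17_pm_022_a

theorem s20_pm_022_a : ∃ t, chk3 f_pm_022_a t 6 2 1 = true := ex3_b k10_pm_022_a k11_pm_022_a

theorem s21_pm_022_a : ∃ t, chk3 f_pm_022_a t 3 2 1 = true := ex3_a s20_pm_022_a k12_pm_022_a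

theorem s22_pm_022_a : ∃ t, chk3 f_pm_022_a t 3 1 1 = true := ex3_b s21_pm_022_a s19_pm_022_a

theorem s23_pm_022_a : ∃ t, chk3 f_pm_022_a t 11 1 1 = true := ex3_a k8_pm_022_a k9_pm_022_a

theorem s24_pm_022_a : ∃ t, chk3 f_pm_022_a t 10 7 1 = true := ex3_a k6_pm_022_a k7_pm_022_a

theorem s25_pm_022_a : ∃ t, chk3 f_pm_022_a t 10 3 1 = true := ex3_b k5_pm_022_a s24_pm_022_a

theorem s26_pm_022_a : ∃ t, chk3 f_pm_022_a t 10 1 1 = true := ex3_b k4_pm_022_a s25_pm_022_a

theorem s27_pm_022_a : ∃ t, chk3 f_pm_022_a t 5 1 1 = true := ex3_a s26_pm_022_a s23_pm_022_a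

theorem s28_pm_022_a : ∃ t, chk3 f_pm_022_a t 9 3 1 = true := ex3_b k2_pm_022_a k3_pm_022_a

theorem s29_pm_022_a : ∃ t, chk3 f_pm_022_a t 9 1 1 = true := ex3_b k1_pm_022_a s28_pm_022_a

theorem s30_pm_022_a : ∃ t, chk3 f_pm_022_a t 4 1 1 = true := ex3_a k0_pm_022_a s29_pm_022_a

theorem s31_pm_022_a : ∃ t, chk3 f_pm_022_a t 2 1 1 = true := ex3_a s30_pm_022_a s27_pm_022_a

theorem s32_pm_022_a : ∃ t, chk3 f_pm_022_a t 1 1 1 = true := ex3_a s31_pm_022_a s22_pm_022_a

theorem c_pm_022_a : CertB 0 536870912 0 536870912 697932185 42949674 3 eng mog cd0q0 cd1q2a pd2 true true false .pp 0 2 2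
    ndB0q0 ndB1q2a pcB2 cut_pm_022_a xt_pm_022_a :=
  certB2 (fam := true) (s1 := true) (s2 := false) (a := 0) (b := 2) (c := 2) (cn := .pp) (n1 := ndB0q0) (n2 := ndB1q2a) (pc := pcB2) (cut := cut_pm_022_a) (xt := xt_pm_022_a) (P1 := 0) (W1 := 536870912) (P2 := 0) (W2 := 536870912) (P3 := 697932185) (W3 := 42949674) (N0 := 3) (En := eng) (mo := mog) (C1 := cd0q0) (C2 := cd1q2a) (C3 := pd2)
    rfl (fun _ => rfl) s32_pm_022_a

noncomputable def cut_pm_022_b : Cut := Cut.of [[⟨0, 0, 0, 67108864⟩, ⟨1, 1, 0, 67108864⟩, ⟨2, 1, 0, 67108864⟩]]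

noncomputable def f_pm_022_b : ℕ → ℕ → ℕ → ℕ → Bool := onCell 1073741824 536870912 1239849684 370763052 697932185 42949674
    (rowB 3 eng mog cd0q0 cd1q2b pd2 2 true true false .pp 0 2 2 (qsf 0 536870912 1239849684 370763052 2) ndB0q0 ndB1q2b pcB2 cut_pm_022_b Ext.none)

def k0_pm_022_b : ∃ t, chk3 f_pm_022_b t 2 1 1 = true :=
  ⟨(b (a (l 1) (b (b (a (a (a (l 1) (b (l 16414088) (l 1))) (a (b (a (l 16427080) (b (l 16437760) (l 16416400))) (l 1)) (b (b (l 16443536) (l 16420896)) (l 16375584)))) (a (a (b (l 16476648) (l 16376752)) (b (l 16456304) (l 16378744))) (b (a (b (l 16451584) (l 16423888)) (b (l 16455584) (l 16428128))) (a (l 16381912) (l 16386632))))) (a (l 1) (a (a (l 16325816) (b (l 16320184) (l 1))) (b (l 16348600) (l 16311456))))) (a (l 1) (a (l 1) (b (b (l 16208416) (l 1)) (l 1)))))) (l 1)), by decide +kernel⟩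

def k1_pm_022_b : ∃ t, chk3 f_pm_022_b t 3 1 1 = true :=
  ⟨(a (b (b (a (a (b (b (a (b (l 16460944) (l 16433968)) (b (l 16467544) (l 16441032))) (a (l 16392856) (l 16400624))) (b (a (l 16337600) (l 16345808)) (l 16285784))) (b (b (a (b (l 16475240) (l 16449168)) (b (l 16484144) (l 16458448))) (a (l 16409496) (l 16419328))) (b (a (l 16355368) (l 16366296)) (l 16306208)))) (b (a (a (b (c (l 16506288) (l 16477176)) (l 16430256)) (b (a (l 16511008) (l 16495328)) (l 16441416))) (a (b (l 16525160) (l 16452952)) (b (l 16537648) (l 16466432)))) (a (a (b (l 16377880) (l 16324720)) (b (l 16389752) (l 16337384))) (a (l 16438688) (l 16389304))))) (a (b (a (b (l 16229008) (l 16169936)) (b (l 16251392) (l 16195608))) (a (l 1) (l 16171536))) (a (b (a (l 16243280) (l 16256992)) (a (l 16132760) (l 16148456))) (b (b (l 16304648) (l 16252176)) (l 16173160))))) (b (a (l 1) (b (a (l 16087288) (l 16065704)) (a (l 1) (l 15949656)))) (l 1))) (b (b (a (b (b (a (a (l 16529752) (l 16541776)) (l 16559952))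 (a (l 16488176) (l 16517952))) (a (b (l 16438128) (l 16386752)) (b (l 16471696) (l 16423552)))) (b (a (b (l 16584912) (l 16546328)) (b (l 16609720) (l 16575336))) (a (l 16526088) (l 16519136)))) (a (b (a (l 16311296) (l 16350208)) (a (l 16210072) (l 16251192))) (b (a (l 16391456) (l 16433240)) (a (l 16295208) (l 16343696))))) (a (b (a (b (l 16108696) (l 16004056)) (b (l 16153952) (l 16056880))) (a (l 1) (l 15983816))) (b (b (a (l 16201792) (l 16251176)) (a (l 16109120) (l 16161048))) (a (l 15967928) (l 16029552)))))), by decide +kernel⟩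

theorem s2_pm_022_b : ∃ t, chk3 f_pm_022_b t 1 1 1 = true := ex3_a k0_pm_022_b k1_pm_022_b

theorem c_pm_022_b : CertB 0 536870912 1239849684 370763052 697932185 42949674 3 eng mog cd0q0 cd1q2b pd2 true true false .pp 0 2 2
    ndB0q0 ndB1q2b pcB2 cut_pm_022_b Ext.none :=
  certB2 (fam := true) (s1 := true) (s2 := false) (a := 0) (b := 2) (c := 2) (cn := .pp) (n1 := ndB0q0) (n2 := ndB1q2b) (pc := pcB2) (cut := cut_pm_022_b) (xt := Ext.none) (P1 := 0) (W1 := 536870912) (P2 := 1239849684) (W2 := 370763052) (P3 := 697932185) (W3 := 42949674) (N0 := 3) (En := eng) (mo := mog) (C1 := cd0q0) (C2 := cd1q2b) (C3 := pd2)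
    rfl (fun _ => rfl) s2_pm_022_b

noncomputable def xt_pm_023_a : Ext := extD2 3 ⟨7, 3, 3, 10, 49, 25, 3, 4, 67, 200, 3, 16⟩ eng cd0q0 cd1q2a pd3 true true false .up 0 2 3 rfl ndB0q0 ndB1q2a pcB3

noncomputable def f_pm_023_a : ℕ → ℕ → ℕ → ℕ → Bool := onCell 0 536870912 0 536870912 697932185 42949674
    (rowB 3 eng mog cd0q0 cd1q2a pd3 0 true true false .up 0 2 3 (qsf 0 536870912 0 536870912 3) ndB0q0 ndB1q2a pcB3 Cut.none xt_pm_023_a)

def k0_pm_023_a : ∃ t, chk3 f_pm_023_a t 1 1 1 = true :=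
  ⟨(a (l 1) (b (a (a (l 1) (b (b (a (l 1) (a (l 16627568) (l 16637544))) (a (l 1) (b (l 16635976) (l 16602520)))) (a (l 1) (b (a (l 16578880) (l 16589128)) (b (l 16563752) (l 16545432)))))) (a (b (a (b (l 16648656) (b (l 16630248) (l 16617816))) (b (l 16659736) (b (l 16639584) (l 16625456)))) (b (a (l 16704888) (l 16606760)) (a (b (l 16580064) (l 16560800)) (b (l 16586616) (l 16565808))))) (b (a (b (l 16662896) (l 16629000)) (b (l 16735048) (a (l 16657528) (l 16675640)))) (a (b (l 16599472) (l 16584448)) (b (b (a (l 16638592) (l 16656536)) (a (l 16627056) (l 16646384))) (b (a (l 16611864) (l 16634288)) (l 16601248))))))) (a (b (l 1) (l 1)) (b (a (b (a (b (l 16538560) (l 111702228103)) (b (l 16541768) (l 16493568))) (a (b (l 16489328) (l 1)) (l 16443768))) (b (a (b (l 16522824) (l 16489392)) (a (l 16542512) (l 16569640))) (a (l 16447808) (b (l 16501752) (l 16465816))))) (a (b (a (l 1) (l 202970163319)) (l 1)) (b (a (b (l 16410176) (l 16451408)) (b (l 16432448) (a (l 16398328) (l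 16408656)))) (a (b (l 218539406295) (l 1)) (b (a (l 16394064) (b (l 16386616) (l 16373184))) (b (a (l 204043730519) (c (l 16372184) (l 16348912))) (a (l 1) (a (c (l 225518499431) (l 222834122743)) (a (c (l 1054183314844616577915764751) (l 221760377671)) (c (l 280470790291287303772749839) (c (l 16342272) (l 16329912))))))))))))))), by decide +kernel⟩

theorem c_pm_023_a : CertB 0 536870912 0 536870912 697932185 42949674 3 eng mog cd0q0 cd1q2a pd3 true true false .up 0 2 3
    ndB0q0 ndB1q2a pcB3 Cut.none xt_pm_023_a :=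
  certB0 (fam := true) (s1 := true) (s2 := false) (a := 0) (b := 2) (c := 3) (cn := .up) (n1 := ndB0q0) (n2 := ndB1q2a) (pc := pcB3) (cut := Cut.none) (xt := xt_pm_023_a) (P1 := 0) (W1 := 536870912) (P2 := 0) (W2 := 536870912) (P3 := 697932185) (W3 := 42949674) (N0 := 3) (En := eng) (mo := mog) (C1 := cd0q0) (C2 := cd1q2a) (C3 := pd3)
    rfl k0_pm_023_a

noncomputable def f_pm_023_b : ℕ → ℕ → ℕ → ℕ → Bool := onCell 0 536870912 1610612736 536870912 697932185 42949674
    (rowB 3 eng mog cd0q0 cd1q2b pd3 1 true true false .up 0 2 3 (qsf 0 536870912 1239849684 370763052 3) ndB0q0 ndB1q2b pcB3 Cut.none Ext.none)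

def k0_pm_023_b : ∃ t, chk3 f_pm_023_b t 1 1 1 = true :=
  ⟨(a (b (b (a (b (a (l 16016080) (l 16141680)) (a (l 15992536) (l 16115656))) (b (a (l 16270912) (l 16487712)) (a (l 16243264) (l 16375680)))) (b (a (b (l 16062384) (l 2)) (a (l 16244784) (l 16368792))) (l 4))) (l 4)) (b (b (a (b (a (a (l 16495392) (l 16550088)) (a (b (l 16606544) (l 16593344)) (b (l 361884391239) (l 16631280)))) (a (l 16623744) (a (l 16573784) (l 16612360)))) (b (a (b (a (l 403223398487) (l 1)) (a (l 364031904023) (l 386043554215))) (l 1)) (a (b (a (l 16647160) (l 349536331911)) (l 16687712)) (a (b (l 419866434295) (l 354905095319)) (b (l 1) (l 441878205191)))))) (a (b (a (l 16527496) (l 16683480)) (a (l 16499728) (l 16687848))) (b (a (b (l 16643672) (l 16639832)) (b (a (l 16679280) (l 362958145431)) (a (l 16679568) (l 16696432)))) (a (b (l 16638848) (l 16640880)) (b (l 16692168) (l 16692040)))))) (l 4))), by decide +kernel⟩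

theorem c_pm_023_b : CertB 0 536870912 1239849684 370763052 697932185 42949674 3 eng mog cd0q0 cd1q2b pd3 true true false .up 0 2 3
    ndB0q0 ndB1q2b pcB3 Cut.none Ext.none :=
  certB1 (fam := true) (s1 := true) (s2 := false) (a := 0) (b := 2) (c := 3) (cn := .up) (n1 := ndB0q0) (n2 := ndB1q2b) (pc := pcB3) (cut := Cut.none) (xt := Ext.none) (P1 := 0) (W1 := 536870912) (P2 := 1239849684) (W2 := 370763052) (P3 := 697932185) (W3 := 42949674) (N0 := 3) (En := eng) (mo := mog) (C1 := cd0q0) (C2 := cd1q2b) (C3 := pd3)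
    rfl (fun _ => rfl) k0_pm_023_b

noncomputable def f_pm_033 : ℕ → ℕ → ℕ → ℕ → Bool := onCell 1610612736 536870912 1610612736 536870912 697932185 42949674
    (rowB 3 eng mog cd0q0 cd1q3 pd3 2 true true false .pnn 0 3 3 (qsf 0 536870912 1610612736 536870912 3) ndB0q0 ndB1q3 pcB3 Cut.none Ext.none)

def k0_pm_033 : ∃ t, chk3 f_pm_033 t 1 1 1 = true :=
  ⟨(a (b (a (b (a (b (l 15951480) (l 345239816887)) (b (l 16053000) (l 15924784))) (a (l 1) (b (l 337723712535) (l 1)))) (a (b (b (a (l 16147720) (l 16221304)) (l 16065824)) (b (l 15948888) (l 343629193911))) (l 4))) (a (l 1) (a (l 1) (l 4)))) (l 4)), by decide +kernel⟩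

theorem c_pm_033 : CertB 0 536870912 1610612736 536870912 697932185 42949674 3 eng mog cd0q0 cd1q3 pd3 true true false .pnn 0 3 3
    ndB0q0 ndB1q3 pcB3 Cut.none Ext.none :=
  certB2 (fam := true) (s1 := true) (s2 := false) (a := 0) (b := 3) (c := 3) (cn := .pnn) (n1 := ndB0q0) (n2 := ndB1q3) (pc := pcB3) (cut := Cut.none) (xt := Ext.none) (P1 := 0) (W1 := 536870912) (P2 := 1610612736) (W2 := 536870912) (P3 := 697932185) (W3 := 42949674) (N0 := 3) (En := eng) (mo := mog) (C1 := cd0q0) (C2 := cd1q3) (C3 := pd3)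
    rfl (fun _ => rfl) k0_pm_033

noncomputable def cut_pm_101 : Cut := Cut.of [[⟨0, 1, 0, 67108864⟩, ⟨1, 0, 0, 67108864⟩, ⟨2, 1, 0, 67108864⟩]]

noncomputable def f_pm_101 : ℕ → ℕ → ℕ → ℕ → Bool := onCell 536870912 536870912 0 536870912 697932185 42949674
    (rowB 3 eng mog cd0q1 cd1q0 pd1 2 true true false .npn 1 0 1 (qsf 536870912 536870912 0 536870912 1) ndB0q1 ndB1q0 pcB1 cut_pm_101 Ext.none)

def k0_pm_101 : ∃ t, chk3 f_pm_101 t 1 1 1 = true :=
  ⟨(a (l 3) (b (a (l 3) (b (a (l 3) (b (a (l 3) (a (l 3) (b (l 6) (l 3)))) (l 3))) (l 3))) (l 3))), by decide +kernel⟩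

theorem c_pm_101 : CertB 536870912 536870912 0 536870912 697932185 42949674 3 eng mog cd0q1 cd1q0 pd1 true true false .npn 1 0 1
    ndB0q1 ndB1q0 pcB1 cut_pm_101 Ext.none :=
  certB2 (fam := true) (s1 := true) (s2 := false) (a := 1) (b := 0) (c := 1) (cn := .npn) (n1 := ndB0q1) (n2 := ndB1q0) (pc := pcB1) (cut := cut_pm_101) (xt := Ext.none) (P1 := 536870912) (W1 := 536870912) (P2 := 0) (W2 := 536870912) (P3 := 697932185) (W3 := 42949674) (N0 := 3) (En := eng) (mo := mog) (C1 := cd0q1) (C2 := cd1q0) (C3 := pd1)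
    rfl (fun _ => rfl) k0_pm_101

noncomputable def cut_pm_102 : Cut := Cut.of [[⟨0, 1, 0, 67108864⟩, ⟨1, 0, 0, 67108864⟩, ⟨2, 1, 0, 67108864⟩]]

noncomputable def f_pm_102 : ℕ → ℕ → ℕ → ℕ → Bool := onCell 536870912 536870912 1073741824 536870912 697932185 42949674
    (rowB 3 eng mog cd0q1 cd1q0 pd2 1 true true false .npp 1 0 2 (qsf 536870912 536870912 0 536870912 2) ndB0q1 ndB1q0 pcB2 cut_pm_102 Ext.none)

def k0_pm_102 : ∃ t, chk3 f_pm_102 t 2 4 1 = true :=
  ⟨(b (l 3) (a (l 3) (a (l 3) (a (l 3) (a (l 3) (b (l 3) (l 3))))))), by decide +kernel⟩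

def k1_pm_102 : ∃ t, chk3 f_pm_102 t 6 8 1 = true :=
  ⟨(l 3), by decide +kernel⟩

def k2_pm_102 : ∃ t, chk3 f_pm_102 t 14 16 1 = true :=
  ⟨(l 3), by decide +kernel⟩

def k3_pm_102 : ∃ t, chk3 f_pm_102 t 28 17 1 = true :=
  ⟨(l 3), by decide +kernel⟩

def k4_pm_102 : ∃ t, chk3 f_pm_102 t 29 34 1 = true :=
  ⟨(a (l 3) (b (l 3) (a (l 3) (b (l 3) (a (l 3) (b (a (l 3) (b (l 3) (l 280414406087))) (b (a (l 3) (a (a (l 271287597543) (l 203641866887)) (l 189146351927))) (a (a (l 268603241783) (b (l 247128408551) (l 204715604327))) (l 184851381735))))))))), by decide +kernel⟩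

def k5_pm_102 : ∃ t, chk3 f_pm_102 t 58 35 1 = true :=
  ⟨(b (a (l 3) (b (l 3) (a (l 3) (b (l 3) (a (l 3) (a (l 3) (a (l 284709361431) (b (l 3) (l 259476425527))))))))) (b (a (l 3) (b (b (a (l 3) (a (l 285246230439) (a (a (l 249275876967) (l 215989882375)) (l 16777064)))) (a (l 300815488775) (a (a (l 248202134439) (l 174113949863)) (l 16775768)))) (a (b (a (l 3) (a (l 262160777975) (l 178408917191))) (a (b (l 272361325255) (l 185925110951)) (l 16775392))) (b (l 16774816) (l 16773152))))) (a (a (b (l 3) (a (l 307257936663) (a (l 275582549655) (l 237464720887)))) (a (b (c (l 286856841831) (l 289541195191)) (l 163376532583)) (b (b (l 262697647975) (l 16775432)) (l 16773432)))) (b (a (a (l 136532985879) (l 16773192)) (a (l 16771824) (l 16770680))) (a (a (l 16772104) (l 16770992)) (l 16769232)))))), by decide +kernel⟩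

def k6_pm_102 : ∃ t, chk3 f_pm_102 t 59 35 1 = true :=
  ⟨(b (a (b (a (l 3) (a (l 3) (b (l 3) (b (c (l 263234529847) (l 269676980311)) (b (a (l 268066365463) (l 224042951639)) (a (l 231559143399) (l 16779688))))))) (a (b (a (l 3) (b (l 3) (a (l 273435072407) (b (l 261623911543) (l 210084304247))))) (b (b (a (l 282561877559) (c (l 198810015767) (l 203104982119))) (a (a (l 289541198263) (l 219747980247)) (l 16777584))) (a (a (b (l 239612203575) (l 16777592)) (l 16777336)) (l 16776376)))) (b (b (a (b (a (l 3) (l 245517784823)) (a (l 253033977255) (l 16779264))) (l 16778784)) (a (c (l 189683210807) (l 191830693719)) (l 16777192))) (a (l 16775952) (l 16774848))))) (b (a (b (b (a (l 3) (b (l 270750724855) (a (l 273435078135) (l 236390987687)))) (b (a (l 3) (a (l 239612212727) (l 16781440))) (a (c (l 257328949431) (l 263234529047)) (l 16783544)))) (a (b (a (b (l 257328947943) (l 214379276711)) (l 199346892135)) (l 16779256)) (l 16778952))) (a (b (a (a (b (l 205252475367) (l 16780648))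 (l 185925121863)) (l 16780776)) (l 16777968)) (b (l 16780000) (l 16776920)))) (a (a (b (l 16776872) (l 16773776)) (b (l 16775888) (l 16772880))) (b (l 16784872) (l 16772152))))) (a (b (a (b (l 16774568) (a (l 16772008) (l 16781296))) (b (a (l 16772824) (l 16771744)) (l 16769656))) (b (a (l 16769152) (l 16768744)) (l 16769344))) (b (b (l 16770856) (l 16770352)) (b (l 16768328) (l 16766144))))), by decide +kernel⟩

def k7_pm_102 : ∃ t, chk3 f_pm_102 t 15 16 1 = true :=
  ⟨(a (b (l 3) (a (l 3) (b (l 3) (a (b (l 3) (a (l 3) (b (l 3) (a (a (l 3) (b (l 3) (b (l 240685951047) (a (l 222432339047) (a (l 177335183479) (l 152639120647)))))) (b (b (a (l 3) (a (l 234243498663) (a (l 199883760903) (l 177335181959)))) (a (l 224042951719) (a (l 161765926071) (l 16780248)))) (b (a (a (l 186461989031) (l 16782024)) (l 16779832)) (l 16782320))))))) (b (a (a (l 3) (a (l 3) (b (l 3) (b (l 3) (b (l 228874788119) (a (a (l 213305532455) (l 190220082759)) (l 166597762087))))))) (b (l 6) (b (l 6) (b (l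 6) (a (l 16778496) (l 6)))))) (a (b (b (b (a (l 3) (a (a (l 227264175367) (a (l 192367566743) (l 174113954967))) (l 16779440))) (a (a (l 3) (a (l 3) (l 212768660439))) (c (l 142975443223) (a (l 156934086311) (l 16778656))))) (a (b (a (l 231559144055) (a (a (l 196125663815) (l 175187697623)) (l 16780032))) (a (a (l 213842402967) (l 166060892663)) (l 16779632))) (l 16780920))) (b (b (a (c (l 16779616) (l 129553670263)) (l 16782568)) (a (l 16778800) (l 16781880))) (a (a (l 16778296) (l 16777200)) (l 16781000)))) (a (a (b (b (l 16778032) (l 16776736)) (l 16775168)) (b (b (l 16777032) (l 16775808)) (l 16774512))) (a (b (l 16780784) (l 16774440)) (l 16774536))))))))) (b (l 6) (a (b (l 6) (a (b (l 6) (a (b (l 6) (l 16761192)) (l 6))) (l 6))) (l 6)))), by decide +kernel⟩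

def k8_pm_102 : ∃ t, chk3 f_pm_102 t 60 34 1 = true :=
  ⟨(b (a (l 3) (b (a (l 3) (b (l 3) (b (l 3) (b (l 3) (a (l 3) (a (l 3) (l 189146348727))))))) (a (b (l 3) (b (a (l 3) (a (l 216526766503) (b (l 191293835255) (l 16785224)))) (b (a (l 3) (l 134385519415)) (a (c (l 219747991991) (l 226190443255)) (l 16783304))))) (a (b (a (b (l 3) (a (l 246591535943) (l 229948538951))) (c (b (l 244980922967) (l 152639127751)) (b (l 251423374055) (l 150491643815)))) (b (l 134385516775) (l 16781488))) (b (b (b (a (l 198273154999) (l 16782480)) (l 145659804359)) (l 16781560)) (b (l 16780464) (l 16779504))))))) (a (b (a (a (l 3) (b (l 3) (b (l 3) (l 247128411239)))) (a (b (l 3) (b (a (l 280414407207) (l 191830708647)) (l 16788064))) (b (b (l 256792087815) (a (l 204178740199) (l 135459261143))) (l 16784080)))) (a (b (b (a (c (l 275582563319) (l 280414396599)) (c (l 269140109287) (l 145122937079))) (a (b (l 222969221223) (l 181630158935)) (l 16783456))) (a (l 16787352) (l 16775968))) (b (a (l 16783240)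 (l 16781992)) (a (l 16780176) (l 16779320))))) (b (a (b (b (a (a (l 183240772823) (l 245517788743)) (l 16782504)) (l 16787784)) (a (l 16782136) (l 16780008))) (b (a (l 16780040) (l 16778056)) (l 16777360))) (a (b (l 16789048) (l 16777392)) (l 16774912))))), by decide +kernel⟩

def k9_pm_102 : ∃ t, chk3 f_pm_102 t 61 34 1 = true :=
  ⟨(b (a (a (b (b (a (l 3) (b (a (l 3) (a (l 3) (l 232096017095))) (b (a (l 3) (a (l 194515054439) (l 16781496))) (a (l 185388249367) (l 16781120))))) (b (b (a (a (l 3) (l 222969211975)) (l 130627416135)) (a (a (l 235317244055) (l 155323478839)) (l 16780432))) (a (a (b (l 162839672983) (l 16781976)) (l 16781184)) (l 16779544)))) (b (b (a (l 16780560) (l 16778520)) (a (l 16779536) (l 16777504))) (a (c (l 16788560) (l 16788416)) (l 16776400)))) (a (b (b (b (b (a (a (l 3) (l 189683215431)) (l 129016801159)) (c (l 130090544439) (a (l 145659800343) (l 16780032)))) (l 16782344)) (b (l 16783840) (l 16782752))) (b (l 16776288) (l 16775368))) (b (b (b (l 16778688)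 (a (l 16778080) (l 16777008))) (a (l 16776576) (l 16775856))) (l 16774608)))) (b (a (b (a (a (b (l 16777048) (l 16776136)) (l 16775704)) (l 16774712)) (l 16774680)) (b (l 16773232) (l 16760808))) (a (l 16771984) (l 16767728)))) (a (b (a (l 16775224) (l 16771640)) (a (l 16771240) (l 16766960))) (a (b (l 16767368) (l 16762416)) (l 16760280)))), by decide +kernel⟩

def k10_pm_102 : ∃ t, chk3 f_pm_102 t 30 35 1 = true :=
  ⟨(a (b (a (b (a (b (a (l 16789576) (l 16778024)) (l 16775632)) (l 16775760)) (l 16772400)) (b (l 16782736) (l 16766872))) (a (b (l 16767048) (l 16761504)) (b (l 16760952) (l 16754984)))) (b (a (b (l 16764224) (l 16759192)) (b (l 16755024) (l 16749952))) (a (l 16750912) (b (l 16744904) (l 16739960))))), by decide +kernel⟩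

def k11_pm_102 : ∃ t, chk3 f_pm_102 t 31 17 1 = true :=
  ⟨(a (b (a (b (a (b (l 16757592) (l 16763192)) (l 16761064)) (b (l 16755752) (l 16750624))) (b (a (b (l 6) (l 16753720)) (l 6)) (a (l 16745808) (l 16740632)))) (b (a (a (l 16745360) (l 16740392)) (l 16732728)) (a (l 16732592) (l 16722464)))) (a (b (b (l 6) (a (l 16735328) (l 6))) (b (a (l 16724856) (l 16719512)) (a (l 16714624) (l 16709232)))) (b (l 6) (a (b (l 16714000) (l 16703656)) (b (l 6) (l 16697872)))))), by decide +kernel⟩

def k12_pm_102 : ∃ t, chk3 f_pm_102 t 6 18 1 = true :=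
  ⟨(a (l 3) (b (l 3) (a (b (l 3) (a (l 3) (b (l 3) (a (l 3) (b (l 3) (c (l 16789808) (l 16779464))))))) (b (a (l 3) (b (a (l 3) (b (l 226727333927) (a (l 242296589271) (l 16792464)))) (a (b (l 158007858775) (l 82845936983)) (b (l 16791616) (l 16788984))))) (a (b (a (l 3) (b (l 76940331079) (l 162302798871))) (a (b (a (l 16790856) (l 94120195255)) (a (l 96267687431) (l 16785896))) (b (l 16787208) (l 16784248)))) (a (b (a (l 16778968) (l 16787696)) (b (l 16784128) (l 16780584))) (b (b (l 16786152) (l 16782712)) (b (l 16779120) (l 16775440))))))))), by decide +kernel⟩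

def k13_pm_102 : ∃ t, chk3 f_pm_102 t 12 19 1 = true :=
  ⟨(b (a (l 3) (b (l 3) (a (l 3) (b (a (l 3) (b (l 3) (l 16784208))) (a (b (l 3) (l 16781072)) (b (a (l 16781480) (l 80161542663)) (l 131701149095))))))) (a (b (a (l 3) (b (l 3) (a (l 3) (l 17347631527)))) (b (a (b (l 3) (l 16765760)) (a (b (l 16771880) (l 16769536)) (b (l 16773896) (l 16771576)))) (a (b (l 16763400) (l 77477149047)) (a (l 16766136) (l 16767664))))) (b (a (b (a (l 3) (b (l 16781904) (l 121500589831))) (a (b (l 16778632) (l 16776200)) (b (l 16776616) (l 16774488)))) (b (a (b (l 126332425143) (l 16775496)) (l 16773304)) (a (l 16772088) (l 16767632)))) (b (a (a (l 16772856) (l 16770712)) (a (l 16766616) (l 16761672))) (a (a (l 16767240) (l 16764616)) (l 16759104)))))), by decide +kernel⟩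

def k14_pm_102 : ∃ t, chk3 f_pm_102 t 13 19 1 = true :=
  ⟨(b (a (b (a (b (l 3) (a (l 3) (b (c (l 16786568) (l 16775816)) (a (c (l 16783584) (l 16783168)) (c (l 109689443479) (l 111300059031)))))) (b (a (b (l 3) (a (l 3) (c (l 40969988791) (l 62981685623)))) (c (b (l 97341426983) (l 178945795495)) (b (a (l 41506853719) (l 134385516679)) (a (l 170355862407) (l 16781864))))) (b (a (c (l 125795576359) (a (l 86067130391) (l 204715596295))) (l 16779512)) (a (b (l 16778392) (l 16778184)) (l 16776576))))) (a (b (a (b (c (l 16783224) (l 37211871463)) (a (l 86067125127) (l 168745238519))) (b (a (c (l 16777288) (l 139217341863)) (l 16778016)) (l 16775896))) (a (b (l 16765736) (l 16773648)) (l 16771896))) (b (a (b (l 16776032) (l 16773344)) (l 16771632)) (a (l 16768528) (l 16765776))))) (b (a (b (a (b (l 16783424) (l 16780456)) (l 16768736)) (a (l 16775344) (l 16772136))) (a (b (l 16774896) (l 16771416)) (l 16770984))) (a (b (l 16767912) (l 16767344)) (a (l 16764800) (l 16738920))))) (a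 (b (a (b (a (l 16769552) (l 16765816)) (a (l 16763432) (l 16761072))) (l 16785824)) (a (l 16761768) (b (l 16759392) (l 16754840)))) (b (a (b (l 16762792) (l 16757736)) (a (l 16753984) (l 16748664))) (a (b (l 16752608) (l 16747424)) (l 16740512))))), by decide +kernel⟩

def k15_pm_102 : ∃ t, chk3 f_pm_102 t 14 18 1 = true :=
  ⟨(a (b (a (b (l 3) (b (a (l 3) (b (a (l 3) (l 344838912711)) (a (l 313700420983) (l 16792504)))) (a (b (l 252497131543) (a (l 299741755431) (l 16787048))) (b (l 220821707239) (l 16780576))))) (b (b (a (l 3) (a (b (l 3) (l 309405411159)) (b (a (l 323364065463) (l 281488129959)) (l 185925116407)))) (a (b (a (l 3) (l 321216584471)) (a (l 332490877287) (l 199346896183))) (b (a (l 194515054119) (l 16773320)) (a (l 16774464) (l 16771688))))) (b (a (b (a (l 16784976) (l 16775952)) (l 16786720)) (a (l 16792760) (l 16768736))) (a (b (l 16795224) (l 16771984)) (l 16768816))))) (a (b (b (a (b (l 16776976) (l 16764520)) (b (l 16757576) (l 16776000))) (a (b (l 16783744)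 (l 16781616)) (b (l 16774056) (l 16772408)))) (a (b (b (l 16779208) (l 16776336)) (l 16774000)) (l 16769920))) (b (b (a (l 16769512) (l 16766720)) (a (l 16769128) (l 16762232))) (a (l 16735960) (l 16754552))))) (b (b (a (b (a (a (b (l 172503341319) (l 16772480)) (b (l 16771952) (l 16770040))) (b (a (l 16769536) (l 16768000)) (l 16767648))) (a (b (a (l 16770752) (l 16768352)) (a (l 16768872) (l 16767488))) (l 16768040))) (a (b (l 16767584) (l 16763032)) (b (l 16762272) (l 16756824)))) (a (a (l 16767176) (b (l 16763912) (l 16758904))) (a (l 16754960) (l 16748336)))) (a (b (a (b (l 16760344) (l 16755176)) (l 16750776)) (l 16743488)) (b (l 16761424) (l 16729528))))), by decide +kernel⟩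

def k16_pm_102 : ∃ t, chk3 f_pm_102 t 15 18 1 = true :=
  ⟨(a (b (a (b (l 16770592) (l 16748480)) (a (b (l 16739352) (l 16727536)) (b (l 16752744) (l 16719992)))) (a (b (a (l 16730160) (l 16723160)) (a (l 16719160) (l 16711856))) (a (l 16731000) (l 16723352)))) (a (b (a (b (l 16722648) (l 16712016)) (a (l 16710192) (l 16725976))) (a (l 16694640) (b (l 16692208) (l 16680912)))) (b (a (a (l 16723352) (l 16715168)) (a (l 16709464) (l 16703552))) (a (b (l 16682240) (l 16671840)) (b (l 16670616) (l 16660904)))))), by decide +kernel⟩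

def k17_pm_102 : ∃ t, chk3 f_pm_102 t 7 19 1 = true :=
  ⟨(a (a (b (a (b (a (l 16765728) (l 16759400)) (b (l 16754000) (l 16748168))) (b (a (l 16751896) (l 16744024)) (l 16758344))) (a (b (l 16739616) (l 16728536)) (b (l 16726488) (l 16715424)))) (b (a (b (l 16732856) (l 16722504)) (b (a (l 16722336) (l 16715392)) (a (l 16711912) (l 16704864)))) (a (b (a (l 16716112) (l 16708848)) (a (l 16705808) (l 16698896))) (b (l 16698088) (l 16687976))))) (a (b (a (b (l 16704512) (l 16693784)) (a (l 16687840) (l 16680072))) (a (b (l 16683408) (l 16673368)) (b (l 16668136) (l 16658160)))) (b (a (a (l 16693080) (b (l 16669504) (l 16658344))) (a (l 16654840) (b (l 16650544) (l 16639328)))) (a (a (b (l 16656288) (l 16646264)) (l 16642416)) (a (l 16632952) (b (l 16628136) (l 16617360))))))), by decide +kernel⟩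

def k18_pm_102 : ∃ t, chk3 f_pm_102 t 4 5 1 = true :=
  ⟨(b (b (b (l 3) (l 2)) (l 2)) (l 2)), by decide +kernel⟩

def k19_pm_102 : ∃ t, chk3 f_pm_102 t 20 20 1 = true :=
  ⟨(b (l 3) (a (b (b (l 3) (l 2)) (l 2)) (b (b (a (l 3) (b (l 3) (c (l 127406102359) (b (l 3) (l 146196571079))))) (b (b (a (l 3) (c (l 16733616) (c (l 148880930919) (l 171966378615)))) (c (a (l 16734400) (l 16732480)) (a (c (l 152102157783) (l 179482572647)) (l 166597669671)))) (c (b (l 27481003351) (l 16731024)) (b (a (l 38755285415) (l 16729840)) (l 29628481063))))) (b (b (c (b (l 16729648) (l 16732320)) (b (l 21575414231) (l 28017884711))) (a (l 2) (b (l 16736648) (l 16738896)))) (a (l 2) (b (b (l 16740992) (l 16742696)) (b (b (b (l 16743424) (c (l 16743528) (l 16744248))) (l 16744320)) (l 16744568)))))))), by decide +kernel⟩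

def k20_pm_102 : ∃ t, chk3 f_pm_102 t 21 20 1 = true :=
  ⟨(b (b (l 3) (b (l 3) (a (l 3) (a (l 3) (b (l 3) (b (l 97878192343) (a (l 125258604583) (l 16730272)))))))) (b (b (b (b (a (l 3) (a (c (l 114521190887) (l 140290992583)) (l 16731648))) (a (a (l 3) (c (l 104857517431) (l 128479834599))) (a (c (l 16730888) (l 173576986951)) (l 16729192)))) (a (a (c (b (l 16733856) (l 16732600)) (b (l 125258610423) (l 159618347767))) (c (b (l 16731288) (l 16729976)) (b (l 163913312983) (l 16728984)))) (a (c (l 16730168) (l 16731088)) (c (l 16731240) (l 16732032))))) (b (a (a (b (c (l 16731336) (l 16729992)) (l 16729352)) (c (l 16729192) (l 16729960))) (a (l 16727864) (l 16747192))) (a (a (c (l 16729712) (l 16732496)) (c (l 16732904) (l 16734984))) (a (l 16725872) (l 16739600))))) (b (b (b (a (a (l 16734232) (l 16747112)) (l 16761304)) (a (a (l 16736408) (l 16738728)) (l 16741920))) (a (c (l 16740784) (l 16740456)) (l 16744024))) (b (b (a (l 16743224) (l 16745776)) (a (l 16744520) (l 16746544)))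 (b (b (b (a (l 16745008) (l 16746736)) (b (a (l 16745200) (l 16746824)) (a (l 16745496) (b (b (l 16746888) (l 16747064)) (l 16747184))))) (a (l 16745720) (l 16747176))) (a (l 16745848) (l 16747144))))))), by decide +kernel⟩

def k21_pm_102 : ∃ t, chk3 f_pm_102 t 11 20 1 = true :=
  ⟨(b (b (a (a (l 3) (l 3)) (b (a (l 3) (b (l 16754264) (l 112910616967))) (b (a (l 98951964983) (l 16749768)) (a (a (l 140291013575) (l 16765496)) (l 16748192))))) (a (b (a (b (l 3) (a (l 3) (c (l 84456426263) (l 113447455831)))) (b (a (l 16738744) (l 78013979927)) (a (c (l 116668671639) (l 123111130183)) (l 16732360)))) (a (b (a (c (l 103246904983) (l 132237933831)) (c (l 142438476247) (l 146733445287))) (a (b (l 160692085607) (l 16730888)) (l 16727088))) (b (a (l 16729592) (l 16736464)) (a (l 16733888) (l 16739248))))) (b (a (b (a (l 16740760) (l 16742800)) (l 16761392)) (b (l 16746464) (l 16744936))) (a (b (l 16762208) (l 16744424)) (b (l 16747584) (l 16748912)))))) (b (b (a (b (a (b (l 16731008)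 (l 16734088)) (a (l 16739456) (l 16742712))) (a (a (l 16725400) (l 16739592)) (a (l 16742288) (l 16744384)))) (a (b (l 16746040) (l 16747184)) (l 16750344))) (a (a (b (a (l 16739568) (l 16741888)) (l 16742728)) (b (l 16744824) (l 16746216))) (a (l 16748680) (l 16751512)))) (b (a (b (a (l 16744752) (l 16747568)) (a (l 16746536) (l 16748520))) (b (a (l 16749832) (l 16751688)) (a (l 16749952) (l 16751008)))) (b (b (a (a (l 16747616) (l 16749000)) (a (l 16749800) (l 16750432))) (a (a (l 16768848) (c (l 16750000) (l 16747680))) (a (l 16749384) (l 16750016)))) (b (b (b (a (a (l 16747848) (l 16748608)) (l 16749536)) (b (a (a (l 16747864) (l 16748664)) (l 16749608)) (a (a (l 16748080) (l 16748880)) (l 16770760)))) (a (l 16748472) (l 16749672))) (a (l 16748264) (l 16749256))))))), by decide +kernel⟩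

def k22_pm_102 : ∃ t, chk3 f_pm_102 t 5 21 1 = true :=
  ⟨(a (a (b (a (l 2) (l 12448621319)) (l 2)) (b (a (l 16745456) (b (l 16746480) (l 16744024))) (a (l 16740512) (l 16738976)))) (a (a (b (l 16745104) (l 16737304)) (l 16740296)) (a (l 16739072) (l 16737992)))), by decide +kernel⟩

def k23_pm_102 : ∃ t, chk3 f_pm_102 t 5 11 1 = true :=
  ⟨(a (b (a (l 2) (b (l 16732792) (l 2))) (l 2)) (a (b (a (l 16724712) (l 16721576)) (l 16707432)) (b (l 16716784) (l 16697760)))), by decide +kernel⟩

def k24_pm_102 : ∃ t, chk3 f_pm_102 t 6 10 1 = true :=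
  ⟨(b (b (a (b (a (b (a (b (l 16758800) (l 16756800)) (a (l 16761504) (l 16762128))) (a (b (l 16755024) (l 16753120)) (l 16756584))) (a (b (l 16760160) (l 16758448)) (b (l 16761112) (l 16759608)))) (a (b (a (b (l 16750504) (l 16750160)) (l 16754800)) (a (l 16752648) (l 16757040))) (a (b (l 16759488) (l 16758200)) (b (l 16756728) (l 16753496))))) (a (b (a (b (l 16756792) (l 16752960)) (l 16768792)) (a (l 16746888) (l 16738376))) (b (a (l 16739832) (l 16730000)) (a (l 16729928) (l 16719824))))) (a (b (a (b (a (l 16754104) (l 16757072)) (a (l 16754152) (l 16755608))) (a (b (l 16756064) (l 16753200)) (l 16769080))) (b (a (b (a (l 16753240) (l 16753848)) (l 16752688)) (a (l 16750120) (l 16742448))) (b (a (a (l 16751176) (l 16751256)) (a (l 16747680) (l 16739504))) (b (b (b (a (l 16751000) (l 16742384)) (b (a (l 16750976) (l 16742176)) (a (l 16751016) (a (l 16746400) (l 16737840))))) (a (l 16750784) (l 16741680))) (a (l 16750184) (l 16740936)))))) (b (a (b (l 16736104) (l 16731784))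 (a (l 16720256) (b (l 16712360) (l 16707448)))) (b (a (b (l 16728536) (l 16726352)) (a (b (l 16714248) (l 16711824)) (a (l 16726376) (l 16699584)))) (b (a (a (l 16729288) (b (l 16719632) (l 16718440))) (a (b (l 16709992) (l 16708776)) (l 16719848))) (b (b (b (a (l 16743688) (a (l 16708000) (l 16697504))) (b (a (a (l 16727632) (l 16717384)) (a (l 16707760) (l 16697272))) (a (a (l 16727392) (l 16738168)) (a (l 16707576) (l 16697104))))) (a (l 16721864) (l 16701944))) (a (l 16721024) (l 16701040)))))))) (a (a (a (l 16737064) (l 16735160)) (a (l 16729816) (l 16741208))) (a (a (b (l 16717016) (l 16700440)) (l 16739744)) (a (l 16708544) (b (l 16685576) (l 16667240)))))), by decide +kernel⟩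

def k25_pm_102 : ∃ t, chk3 f_pm_102 t 6 11 1 = true :=
  ⟨(b (a (a (l 16710784) (a (l 16701464) (l 16690320))) (a (a (l 16677160) (l 16664936)) (a (l 16653960) (l 16641832)))) (a (a (l 16688248) (l 16690784)) (a (a (l 16648816) (l 16635080)) (a (l 16623544) (l 16610968))))), by decide +kernel⟩

def k26_pm_102 : ∃ t, chk3 f_pm_102 t 7 20 1 = true :=
  ⟨(b (a (a (a (b (l 16717840) (b (l 16710032) (l 16704936))) (b (a (l 16707776) (l 16701232)) (a (l 16697272) (l 16690480)))) (a (b (l 16691688) (l 16681024)) (b (l 16678232) (l 16668560)))) (a (a (b (l 16663728) (l 16654544)) (b (l 16648544) (a (l 16643536) (l 16635824)))) (a (b (a (l 16636536) (l 16627264)) (l 16622488)) (a (l 16612840) (b (l 16607064) (l 16597304)))))) (a (b (a (a (b (l 16699896) (l 16694840)) (b (l 16686136) (l 16681072))) (a (l 16691648) (b (l 16661368) (l 16656576)))) (b (a (a (l 16689880) (l 16676144)) (a (l 16663304) (l 16651944))) (b (a (a (l 16686248) (l 16672616)) (a (l 16659952) (l 16648864))) (b (b (b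 (a (a (l 16684920) (l 16671376)) (l 16653248)) (b (a (a (l 16684720) (l 16671232)) (l 16653216)) (a (a (l 16684600) (l 16671176)) (a (l 16658808) (l 16648120))))) (a (l 16677280) (l 16652912))) (a (l 16676344) (l 16651960)))))) (b (a (a (l 16646016) (a (l 16635248) (l 16627520))) (a (l 16613784) (a (l 16599104) (l 16588320)))) (a (b (a (l 16640136) (a (l 16629792) (l 16621568))) (b (a (l 16637856) (a (l 16627808) (l 16619296))) (b (b (a (b (l 16637344) (b (l 16637480) (l 16637736))) (b (l 16623048) (l 16623472))) (a (l 16637416) (l 16623080))) (a (l 16636496) (l 16622240))))) (b (a (l 16607888) (a (l 16593160) (l 16582304))) (b (a (l 16605696) (a (l 16591000) (l 16580144))) (a (a (l 16609664) (c (l 16603232) (l 16597744))) (b (b (b (l 16585248) (a (l 16591216) (l 16580400))) (l 16585496)) (l 16584640))))))))), by decide +kernel⟩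

def k27_pm_102 : ∃ t, chk3 f_pm_102 t 7 21 1 = true :=
  ⟨(a (a (a (b (l 16672880) (l 16654008)) (b (l 16659288) (l 16640144))) (a (l 16657960) (l 16647096))) (a (b (a (a (l 16628528) (l 16623368)) (b (l 16617208) (l 16608088))) (a (l 16606224) (l 16594104))) (b (a (b (l 16599528) (l 16590704)) (b (l 16600488) (a (l 16575976) (l 16565000)))) (a (l 16599368) (a (l 16564440) (l 16553872)))))), by decide +kernel⟩

def k28_pm_102 : ∃ t, chk3 f_pm_102 t 7 11 1 = true :=
  ⟨(a (a (b (a (l 16627880) (l 16634248)) (a (l 16596440) (l 16581144))) (b (a (l 16600064) (l 16588808)) (a (l 16567208) (l 16555288)))) (a (a (b (l 16620280) (l 16565376)) (b (l 16587600) (l 16533072))) (b (a (b (l 16561632) (l 16544624)) (b (a (l 16549568) (l 16539944)) (l 16529616))) (a (l 16541568) (b (l 16514200) (l 16499504)))))), by decide +kernel⟩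

def k29_pm_102 : ∃ t, chk3 f_pm_102 t 1 3 1 = true :=
  ⟨(a (a (l 2) (b (a (l 2) (b (b (a (l 2) (l 16682760)) (l 2)) (l 2))) (l 2))) (a (b (a (b (a (b (l 16669936) (l 16658600)) (b (l 16668984) (l 16634920))) (a (l 2) (l 16624864))) (b (a (b (b (l 16622080) (l 16611000)) (l 16600752)) (b (a (l 16596176) (l 16583272)) (l 16590992))) (a (l 16588144) (b (l 16556544) (l 16548368))))) (a (l 2) (a (l 2) (b (b (l 16546032) (l 2)) (l 2))))) (b (a (b (a (b (a (l 16568392) (l 16552688)) (a (l 16546440) (l 16529464))) (b (a (l 16538288) (l 16525856)) (a (l 16513992) (l 16500664)))) (a (b (l 16520256) (l 16507632)) (a (l 16548640) (b (l 16479456) (l 16462032))))) (b (a (a (b (b (l 16521552) (l 16507640)) (l 16509624)) (b (b (l 16510352) (l 16496464)) (l 16477568))) (b (a (b (l 16498568) (l 16484960)) (b (l 16485656) (l 16472576))) (a (l 16508352) (b (l 16460264) (l 16448984))))) (a (a (b (l 16466472) (l 16447616)) (b (l 16455512) (l 16436600))) (b (a (l 16444944) (l 16433816)) (a (l 16426520)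 (l 16416152)))))) (a (b (a (b (l 16500304) (l 16498848)) (b (l 16457672) (l 16449800))) (a (l 2) (b (l 16446656) (l 2)))) (b (a (b (a (l 16432072) (l 16420640)) (l 16476216)) (b (a (l 16410776) (l 16400912)) (l 16392864))) (a (a (l 16408424) (l 16394128)) (b (l 16382576) (l 16375200)))))))), by decide +kernel⟩

theorem s30_pm_102 : ∃ t, chk3 f_pm_102 t 7 10 1 = true := ex3_b k26_pm_102 k27_pm_102

theorem s31_pm_102 : ∃ t, chk3 f_pm_102 t 7 5 1 = true := ex3_b s30_pm_102 k28_pm_102

theorem s32_pm_102 : ∃ t, chk3 f_pm_102 t 6 5 1 = true := ex3_b k24_pm_102 k25_pm_102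

theorem s33_pm_102 : ∃ t, chk3 f_pm_102 t 3 5 1 = true := ex3_a s32_pm_102 s31_pm_102

theorem s34_pm_102 : ∃ t, chk3 f_pm_102 t 10 20 1 = true := ex3_a k19_pm_102 k20_pm_102

theorem s35_pm_102 : ∃ t, chk3 f_pm_102 t 5 20 1 = true := ex3_a s34_pm_102 k21_pm_102

theorem s36_pm_102 : ∃ t, chk3 f_pm_102 t 5 10 1 = true := ex3_b s35_pm_102 k22_pm_102

theorem s37_pm_102 : ∃ t, chk3 f_pm_102 t 5 5 1 = true := ex3_b s36_pm_102 k23_pm_102

theorem s38_pm_102 : ∃ t, chk3 f_pm_102 t 2 5 1 = true := ex3_a k18_pm_102 s37_pm_102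

theorem s39_pm_102 : ∃ t, chk3 f_pm_102 t 1 5 1 = true := ex3_a s38_pm_102 s33_pm_102

theorem s40_pm_102 : ∃ t, chk3 f_pm_102 t 7 18 1 = true := ex3_a k15_pm_102 k16_pm_102

theorem s41_pm_102 : ∃ t, chk3 f_pm_102 t 7 9 1 = true := ex3_b s40_pm_102 k17_pm_102

theorem s42_pm_102 : ∃ t, chk3 f_pm_102 t 6 19 1 = true := ex3_a k13_pm_102 k14_pm_102

theorem s43_pm_102 : ∃ t, chk3 f_pm_102 t 6 9 1 = true := ex3_b k12_pm_102 s42_pm_102

theorem s44_pm_102 : ∃ t, chk3 f_pm_102 t 3 9 1 = true := ex3_a s43_pm_102 s41_pm_102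

theorem s45_pm_102 : ∃ t, chk3 f_pm_102 t 30 34 1 = true := ex3_a k8_pm_102 k9_pm_102

theorem s46_pm_102 : ∃ t, chk3 f_pm_102 t 30 17 1 = true := ex3_b s45_pm_102 k10_pm_102

theorem s47_pm_102 : ∃ t, chk3 f_pm_102 t 15 17 1 = true := ex3_a s46_pm_102 k11_pm_102

theorem s48_pm_102 : ∃ t, chk3 f_pm_102 t 15 8 1 = true := ex3_b k7_pm_102 s47_pm_102

theorem s49_pm_102 : ∃ t, chk3 f_pm_102 t 29 35 1 = true := ex3_a k5_pm_102 k6_pm_102

theorem s50_pm_102 : ∃ t, chk3 f_pm_102 t 29 17 1 = true := ex3_b k4_pm_102 s49_pm_102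

theorem s51_pm_102 : ∃ t, chk3 f_pm_102 t 14 17 1 = true := ex3_a k3_pm_102 s50_pm_102

theorem s52_pm_102 : ∃ t, chk3 f_pm_102 t 14 8 1 = true := ex3_b k2_pm_102 s51_pm_102

theorem s53_pm_102 : ∃ t, chk3 f_pm_102 t 7 8 1 = true := ex3_a s52_pm_102 s48_pm_102

theorem s54_pm_102 : ∃ t, chk3 f_pm_102 t 3 8 1 = true := ex3_a k1_pm_102 s53_pm_102

theorem s55_pm_102 : ∃ t, chk3 f_pm_102 t 3 4 1 = true := ex3_b s54_pm_102 s44_pm_102

theorem s56_pm_102 : ∃ t, chk3 f_pm_102 t 1 4 1 = true := ex3_a k0_pm_102 s55_pm_102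

theorem s57_pm_102 : ∃ t, chk3 f_pm_102 t 1 2 1 = true := ex3_b s56_pm_102 s39_pm_102

theorem s58_pm_102 : ∃ t, chk3 f_pm_102 t 1 1 1 = true := ex3_b s57_pm_102 k29_pm_102

theorem c_pm_102 : CertB 536870912 536870912 0 536870912 697932185 42949674 3 eng mog cd0q1 cd1q0 pd2 true true false .npp 1 0 2
    ndB0q1 ndB1q0 pcB2 cut_pm_102 Ext.none :=
  certB1 (fam := true) (s1 := true) (s2 := false) (a := 1) (b := 0) (c := 2) (cn := .npp) (n1 := ndB0q1) (n2 := ndB1q0) (pc := pcB2) (cut := cut_pm_102) (xt := Ext.none) (P1 := 536870912) (W1 := 536870912) (P2 := 0) (W2 := 536870912) (P3 := 697932185) (W3 := 42949674) (N0 := 3) (En := eng) (mo := mog) (C1 := cd0q1) (C2 := cd1q0) (C3 := pd2)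
    rfl (fun _ => rfl) s58_pm_102

noncomputable def f_pm_112 : ℕ → ℕ → ℕ → ℕ → Bool := onCell 536870912 536870912 1073741824 536870912 697932185 42949674
    (rowB 3 eng mog cd0q1 cd1q1 pd2 1 true true false .dn 1 1 2 (qsf 536870912 536870912 536870912 536870912 2) ndB0q1 ndB1q1 pcB2 Cut.none Ext.none)

def k0_pm_112 : ∃ t, chk3 f_pm_112 t 1 4 1 = true :=
  ⟨(a (a (l 3) (a (l 3) (l 1))) (l 1)), by decide +kernel⟩

def k1_pm_112 : ∃ t, chk3 f_pm_112 t 2 40 1 = true :=
  ⟨(a (l 3) (a (a (l 3) (l 1)) (l 1))), by decide +kernel⟩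

def k2_pm_112 : ∃ t, chk3 f_pm_112 t 4 41 1 = true :=
  ⟨(b (a (l 3) (l 3)) (b (a (l 3) (a (a (l 3) (b (l 3) (b (l 3) (l 16735320)))) (a (b (c (l 147270335703) (l 154786524631)) (b (l 16734288) (l 16734752))) (b (b (l 155860261335) (l 16732544)) (b (l 16733352) (l 16733840)))))) (a (a (b (l 3) (b (b (b (l 3) (b (a (l 16729216) (l 16731192)) (a (l 16729152) (l 16731144)))) (l 16750992)) (l 16750536))) (b (b (l 3) (b (a (l 3) (l 16734464)) (a (l 16733168) (l 16734160)))) (b (b (b (a (l 16732912) (l 16733984)) (b (a (l 16732800) (l 16733944)) (l 16754408))) (l 16733320)) (l 16733016)))) (b (b (a (c (a (l 16736240) (l 16736064)) (a (l 16734456) (l 16734600))) (a (l 16745352) (c (l 16734688) (l 16733744)))) (b (a (a (l 16735048) (l 16735160)) (a (l 16734936) (l 16734704))) (a (a (l 16734840) (l 16735136)) (a (l 16735200) (l 16735208))))) (b (b (b (a (a (l 16734792) (l 16735256)) (l 16756568)) (b (a (a (l 16734840) (l 16735416)) (l 16735824)) (a (a (l 16734952) (l 16735616)) (l 16757032))))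 (a (l 16735320) (l 16736152))) (a (l 16735168) (l 16736144))))))), by decide +kernel⟩

def k3_pm_112 : ∃ t, chk3 f_pm_112 t 5 41 1 = true :=
  ⟨(a (b (a (a (b (l 3) (b (l 3) (a (c (l 121500502871) (l 16730440)) (b (l 16727576) (l 16728984))))) (a (b (l 3) (b (b (l 3) (c (l 16726232) (l 16725832))) (b (c (l 16727704) (l 16727216)) (l 16728728)))) (b (l 1) (b (l 1) (c (l 198138829863) (l 202433795159)))))) (l 1)) (b (a (b (a (c (b (l 16735880) (l 16731696)) (b (l 16730192) (l 16731208))) (c (b (l 25803273527) (l 25266404551)) (b (l 25803271815) (l 16729960)))) (b (a (l 16742688) (a (l 16731288) (l 16730712))) (a (a (l 16733024) (l 16732568)) (l 16732016)))) (l 1)) (b (a (b (a (c (l 16734288) (l 16733160)) (l 16733104)) (a (c (l 16735496) (l 16734112)) (l 16734048))) (l 1)) (a (b (b (b (a (l 16735328) (l 16734448)) (a (c (l 16736072) (l 16735352)) (b (l 16734608) (l 16734832)))) (a (l 16735904) (l 16734976))) (a (l 16735944) (l 16735024))) (a (b (l 1) (l 16732872)) (l 1)))))) (l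 1)), by decide +kernel⟩

def k4_pm_112 : ∃ t, chk3 f_pm_112 t 2 21 1 = true :=
  ⟨(a (a (a (a (l 16716608) (l 16719952)) (a (l 16723064) (l 16746744))) (a (b (a (l 16731760) (l 16733344)) (l 16725192)) (a (l 16731992) (l 16733232)))) (a (a (b (a (l 16735464) (l 16734688)) (l 16731232)) (b (a (l 109018281799) (l 173979668983)) (l 34393265655))) (a (b (l 1) (l 156799813879)) (l 1)))), by decide +kernel⟩

def k5_pm_112 : ∃ t, chk3 f_pm_112 t 2 11 1 = true :=
  ⟨(a (a (a (b (l 16713728) (l 16664312)) (b (l 16702792) (l 16678000))) (b (a (l 16711168) (l 16717744)) (a (l 16689776) (l 16699232)))) (a (a (b (l 16721504) (l 16705536)) (b (l 16740384) (l 16705680))) (b (a (b (l 16714080) (l 16708608)) (l 149820509623)) (a (l 16699328) (l 16689096))))), by decide +kernel⟩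

def k6_pm_112 : ∃ t, chk3 f_pm_112 t 3 5 1 = true :=
  ⟨(a (b (l 1) (a (a (b (l 1) (l 16677184)) (l 1)) (l 1))) (l 1)), by decide +kernel⟩

def k7_pm_112 : ∃ t, chk3 f_pm_112 t 2 3 1 = true :=
  ⟨(a (b (a (b (a (b (l 16633728) (l 16601192)) (b (l 16651232) (l 16622840))) (a (b (l 16563520) (l 16520256)) (b (l 16592744) (l 16557504)))) (b (a (l 16654528) (l 16669080)) (a (l 16602832) (l 16625648)))) (a (b (a (b (a (l 16466016) (l 16486432)) (a (c (l 16436912) (l 16410216)) (l 16465464))) (b (l 16516968) (a (l 16465744) (l 16486712)))) (b (a (a (c (b (l 16408272) (a (c (l 16391696) (l 16377568)) (l 16396000))) (l 16369960)) (c (l 16420328) (l 16390600))) (a (l 16426800) (l 16448432))) (a (b (a (c (a (l 16362688) (b (l 16382440) (l 16371336))) (l 16339896)) (a (a (b (l 16375896) (l 16366736)) (l 16397728)) (l 16384568))) (a (c (l 16344496) (l 16316664)) (c (a (c (l 16374800) (l 16360152)) (b (l 16387904) (l 16377488))) (l 16343296)))) (a (a (b (l 16394936) (a (b (l 16380288) (l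 16372096)) (l 16381744))) (l 16397520)) (l 16413864))))) (b (a (b (l 16556920) (l 16519704)) (l 16576464)) (a (b (l 16482280) (a (l 16436264) (l 16459600))) (b (l 16529552) (l 16496440)))))) (b (a (b (a (l 16679808) (l 16683912)) (a (l 16644520) (l 16656560))) (b (b (a (l 16686528) (l 16676976)) (a (l 16674608) (l 16666808))) (a (l 16659776) (l 16655576)))) (a (b (a (l 16608336) (l 16632032)) (a (l 16562576) (l 16606912))) (b (a (l 16646200) (l 16650232)) (a (l 16639736) (l 16657768)))))), by decide +kernel⟩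

def k8_pm_112 : ∃ t, chk3 f_pm_112 t 3 3 1 = true :=
  ⟨(a (b (a (b (a (b (l 16664608) (l 16654992)) (b (l 148746692183) (l 16632192))) (a (l 16645944) (l 16623552))) (b (a (b (l 1) (l 16598208)) (l 1)) (a (l 16609112) (b (l 113312961543) (l 16549952))))) (a (b (a (l 16645776) (l 16626472)) (a (l 16663072) (l 16651232))) (b (a (l 16590800) (b (l 16548448) (l 16554232))) (a (l 16619760) (a (l 16590216) (b (l 16556248) (l 16579088))))))) (b (a (b (l 1) (a (b (l 1) (l 169147416455)) (l 1))) (l 1)) (a (b (a (b (l 47814658599) (l 16503512)) (b (l 98817319559) (l 16456456))) (a (b (l 16510680) (l 16528264)) (b (l 16453848) (l 16459576)))) (b (a (b (l 1) (a (l 16429240) (l 1))) (l 1)) (a (a (b (l 16419760) (l 16416128)) (b (l 16407936) (l 16401064))) (b (l 105796494471) (l 16386712))))))), by decide +kernel⟩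

theorem s9_pm_112 : ∃ t, chk3 f_pm_112 t 1 3 1 = true := ex3_a k7_pm_112 k8_pm_112

theorem s10_pm_112 : ∃ t, chk3 f_pm_112 t 2 41 1 = true := ex3_a k2_pm_112 k3_pm_112

theorem s11_pm_112 : ∃ t, chk3 f_pm_112 t 2 20 1 = true := ex3_b k1_pm_112 s10_pm_112

theorem s12_pm_112 : ∃ t, chk3 f_pm_112 t 2 10 1 = true := ex3_b s11_pm_112 k4_pm_112

theorem s13_pm_112 : ∃ t, chk3 f_pm_112 t 2 5 1 = true := ex3_b s12_pm_112 k5_pm_112

theorem s14_pm_112 : ∃ t, chk3 f_pm_112 t 1 5 1 = true := ex3_a s13_pm_112 k6_pm_112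

theorem s15_pm_112 : ∃ t, chk3 f_pm_112 t 1 2 1 = true := ex3_b k0_pm_112 s14_pm_112

theorem s16_pm_112 : ∃ t, chk3 f_pm_112 t 1 1 1 = true := ex3_b s15_pm_112 s9_pm_112

theorem c_pm_112 : CertB 536870912 536870912 536870912 536870912 697932185 42949674 3 eng mog cd0q1 cd1q1 pd2 true true false .dn 1 1 2
    ndB0q1 ndB1q1 pcB2 Cut.none Ext.none :=
  certB1 (fam := true) (s1 := true) (s2 := false) (a := 1) (b := 1) (c := 2) (cn := .dn) (n1 := ndB0q1) (n2 := ndB1q1) (pc := pcB2) (cut := Cut.none) (xt := Ext.none) (P1 := 536870912) (W1 := 536870912) (P2 := 536870912) (W2 := 536870912) (P3 := 697932185) (W3 := 42949674) (N0 := 3) (En := eng) (mo := mog) (C1 := cd0q1) (C2 := cd1q1) (C3 := pd2)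
    rfl (fun _ => rfl) s16_pm_112

noncomputable def f_pm_113 : ℕ → ℕ → ℕ → ℕ → Bool := onCell 536870912 536870912 536870912 536870912 697932185 42949674
    (rowB 3 eng mog cd0q1 cd1q1 pd3 0 true true false .nn 1 1 3 (qsf 536870912 536870912 536870912 536870912 3) ndB0q1 ndB1q1 pcB3 Cut.none Ext.none)

def k0_pm_113 : ∃ t, chk3 f_pm_113 t 2 1 1 = true :=
  ⟨(b (a (l 1) (b (l 1) (a (l 1) (b (l 1) (a (l 1) (l 16655312)))))) (a (b (a (l 1) (b (l 1) (a (l 1) (l 16521880)))) (a (b (a (l 1) (b (l 1) (l 16419088))) (c (a (b (l 63920523495) (a (l 16333512) (l 16339856))) (b (l 16382432) (l 16353472))) (a (b (l 39761211335) (a (l 16296760) (l 16300376))) (b (l 16340824) (l 16310304))))) (b (b (a (l 16450120) (l 16471280)) (a (l 16414024) (l 16440904))) (b (a (l 16382120) (l 16415592)) (a (b (l 16362800) (l 16353824)) (b (l 16401960) (l 16397528))))))) (b (a (b (l 107944538903) (a (l 16544680) (l 16579840))) (b (a (l 16639544) (l 16672312)) (l 16659184))) (a (b (a (b (l 16504368) (l 16481848))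 (l 16548672)) (b (a (l 16465712) (l 16541216)) (a (a (l 16442576) (l 16479640)) (a (l 16525056) (l 16576664))))) (b (b (l 16668648) (l 16580232)) (b (a (l 16630120) (l 16673672)) (b (c (l 16637944) (l 16636016)) (a (a (l 16605064) (l 16632600)) (b (l 16665776) (l 16644824)))))))))), by decide +kernel⟩

def k1_pm_113 : ∃ t, chk3 f_pm_113 t 3 2 1 = true :=
  ⟨(a (a (b (l 1) (a (b (l 1) (l 16670216)) (b (l 16633536) (l 16686352)))) (b (a (l 1) (b (l 1) (b (l 1) (l 16551680)))) (b (a (l 16617728) (b (l 16583672) (l 16628568))) (a (l 16702152) (l 16723928))))) (b (a (a (b (l 1) (b (l 16494592) (l 16522752))) (b (b (l 1) (l 16442608)) (b (l 16464496) (l 16501256)))) (a (a (b (l 16435624) (l 16469616)) (b (l 16403264) (l 16467680))) (b (b (l 16382584) (l 16404864)) (b (l 16445912) (l 16510728))))) (a (b (a (b (l 16565024) (l 16624304)) (b (l 16555608) (l 16631800))) (a (b (l 16703744) (l 16806832)) (b (l 16734256) (l 16777392)))) (b (a (b (l 16605600) (a (l 16650512) (c (l 16708624)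 (l 16636640)))) (b (a (b (l 16566312) (l 16617392)) (b (a (l 16584904) (l 16596864)) (b (l 16625248) (l 16648504)))) (a (b (a (l 16663904) (l 16673704)) (l 16726208)) (b (b (l 16674544) (l 16706536)) (c (l 16757096) (l 16724584)))))) (a (b (b (a (l 16738768) (l 16762480)) (a (l 16790424) (l 16778936))) (a (a (l 16815656) (b (l 16796560) (l 16811824))) (a (b (l 16792504) (l 16812208)) (b (l 16794136) (l 16812272))))) (b (a (b (l 16762984) (a (b (l 16776424) (l 16785040)) (b (l 16780832) (l 16784480)))) (b (a (b (l 16766232) (c (l 16782504) (l 16772032))) (a (b (l 16773632) (l 16776592)) (b (l 16775888) (l 16767984)))) (a (b (a (l 16781176) (l 16775192)) (l 16748504)) (b (a (l 16765704) (l 16753512)) (c (l 16748904) (l 16742888)))))) (a (b (a (b (l 16790992) (l 16792592)) (c (l 16773872) (l 16776864))) (a (l 16766832) (l 16806784))) (b (a (b (l 16750808) (l 16783288)) (l 16775176)) (l 16805440))))))))), by decide +kernel⟩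

def k2_pm_113 : ∃ t, chk3 f_pm_113 t 6 3 1 = true :=
  ⟨(b (a (a (b (l 16713944) (l 16770792)) (b (l 16767256) (l 16852488))) (b (a (l 16833600) (l 16914792)) (a (l 16906968) (l 16948696)))) (a (b (a (l 16735312) (l 16769776)) (a (b (l 16679336) (a (l 16665840) (l 16698096))) (b (l 16710840) (a (l 16712000) (l 16730608))))) (a (b (l 16813632) (b (l 16770408) (b (l 16758656) (l 16756048)))) (b (b (l 16865560) (l 16824680)) (b (l 16794768) (a (l 16773264) (l 16780736))))))), by decide +kernel⟩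

def k3_pm_113 : ∃ t, chk3 f_pm_113 t 7 6 1 = true :=
  ⟨(a (b (a (a (l 16957896) (b (l 16912480) (l 16955208))) (a (b (l 16827432) (l 16870544)) (b (l 16828000) (l 16917056)))) (a (b (l 17018920) (l 16950176)) (a (b (l 16984272) (l 16961552)) (b (l 16969032) (l 16956160))))) (b (a (a (b (a (l 16859024) (l 16771800)) (l 16909976)) (b (a (b (l 16840120) (l 16868560)) (l 16852488)) (b (l 16891368) (l 16915144)))) (b (a (l 16744152) (b (l 16831760) (l 16854280))) (c (l 16743000) (c (l 16830008) (l 16871776))))) (b (a (a (l 16962944) (b (l 16942424) (l 16965320))) (a (l 16937832) (l 16921528))) (a (a (l 16939928) (a (l 16926000) (l 16924656))) (a (c (l 16942864) (l 16900968)) (b (l 16937176) (l 16901792))))))), by decide +kernel⟩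

def k4_pm_113 : ∃ t, chk3 f_pm_113 t 7 7 1 = true :=
  ⟨(a (b (a (b (l 16892056) (l 16846144)) (b (a (l 16899240) (l 16891664)) (a (l 16850448) (c (l 16834680) (l 16744752))))) (a (b (l 16812264) (b (l 16794368) (l 16786680))) (b (a (l 16813816) (b (l 16814032) (l 16798768))) (l 16869384)))) (b (a (b (c (a (l 16892584) (l 16880616)) (a (l 16851080) (b (l 16803792) (l 16735448)))) (a (b (l 16835208) (l 16816648)) (c (l 16832720) (a (l 16790008) (l 16792464))))) (b (c (b (l 16892344) (l 16867792)) (a (l 16839896) (l 16850536))) (a (l 16818936) (l 16828480)))) (b (b (a (a (l 16716272) (l 16681704)) (a (l 16793528) (l 16805344))) (a (a (l 16763648) (l 16687560)) (a (l 16716360) (a (l 16787928) (l 16794440))))) (b (a (a (l 16771792) (l 16632872)) (a (l 16766992) (a (l 16776832) (b (l 16784048) (l 16777448))))) (a (a (l 16762000) (a (l 16749536) (l 16746408))) (a (a (l 16752984) (l 16717784)) (a (b (l 16767912) (l 16759464)) (b (a (l 16771080) (b (l 16774184) (l 16771592))) (a (b (l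 16767320) (b (l 16764384) (l 16826704))) (b (b (l 16768304) (a (l 16766504) (l 16768992))) (a (b (l 16765920) (l 16760360)) (b (l 16760792) (a (l 16753320) (l 4)))))))))))))), by decide +kernel⟩

theorem s5_pm_113 : ∃ t, chk3 f_pm_113 t 7 3 1 = true := ex3_b k3_pm_113 k4_pm_113

theorem s6_pm_113 : ∃ t, chk3 f_pm_113 t 3 3 1 = true := ex3_a k2_pm_113 s5_pm_113

theorem s7_pm_113 : ∃ t, chk3 f_pm_113 t 3 1 1 = true := ex3_b k1_pm_113 s6_pm_113

theorem s8_pm_113 : ∃ t, chk3 f_pm_113 t 1 1 1 = true := ex3_a k0_pm_113 s7_pm_113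

theorem c_pm_113 : CertB 536870912 536870912 536870912 536870912 697932185 42949674 3 eng mog cd0q1 cd1q1 pd3 true true false .nn 1 1 3
    ndB0q1 ndB1q1 pcB3 Cut.none Ext.none :=
  certB0 (fam := true) (s1 := true) (s2 := false) (a := 1) (b := 1) (c := 3) (cn := .nn) (n1 := ndB0q1) (n2 := ndB1q1) (pc := pcB3) (cut := Cut.none) (xt := Ext.none) (P1 := 536870912) (W1 := 536870912) (P2 := 536870912) (W2 := 536870912) (P3 := 697932185) (W3 := 42949674) (N0 := 3) (En := eng) (mo := mog) (C1 := cd0q1) (C2 := cd1q1) (C3 := pd3)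
    rfl s8_pm_113

end Pool.Agent.Strip051.G.I6500_6900.Tab.C.BA01

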