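import Pool.Agent.Strip051.G.I6500_6900.Tab
import Pool.Agent.Strip051.PB.ExtD2

/-! # Certificates B5 (generated) -/

set_option linter.all false
set_option maxRecDepth 100000

namespace Pool.Agent.Strip051.G.I6500_6900.Tab.C.BA01

open Pool.Agent.Strip051.PB Pool.Agent.Strip051.PB.T
open Pool.Agent.Strip051.G.I6500_6900.Tab

noncomputable def cut_pm_123_a : Cut := Cut.of [[⟨0, 1, 0, 67108864⟩, ⟨1, 1, 0, 67108864⟩, ⟨2, 2, 0, 16777216⟩], [⟨0, 0, 1, 20971520⟩, ⟨1, 1, 0, 33554432⟩, ⟨2, 1, 1, 20971520⟩]]

noncomputable def xt_pm_123_a : Ext := extD2 3 ⟨7, 3, 3, 10, 49, 25, 3, 4, 67, 200, 3, 16⟩ eng cd0q1 cd1q2a pd3 true true false .npn 1 2 3 rfl ndB0q1 ndB1q2a pcB3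

noncomputable def f_pm_123_a : ℕ → ℕ → ℕ → ℕ → Bool := onCell 1610612736 536870912 0 536870912 697932185 42949674
    (rowB 3 eng mog cd0q1 cd1q2a pd3 2 true true false .npn 1 2 3 (qsf 536870912 536870912 0 536870912 3) ndB0q1 ndB1q2a pcB3 cut_pm_123_a xt_pm_123_a)

def k0_pm_123_a : ∃ t, chk3 f_pm_123_a t 4 2 1 = true :=
  ⟨(a (l 1) (b (l 1) (a (l 1) (b (l 1) (l 23118680871))))), by decide +kernel⟩

def k1_pm_123_a : ∃ t, chk3 f_pm_123_a t 4 6 1 = true :=
  ⟨(a (l 1) (b (a (l 1) (l 16688896)) (a (b (l 16505848) (l 16486528)) (b (l 16556984) (l 16534536))))), by decide +kernel⟩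

def k2_pm_123_a : ∃ t, chk3 f_pm_123_a t 8 7 1 = true :=
  ⟨(b (a (l 1) (b (l 16515776) (a (l 16408624) (l 16421536)))) (b (a (a (l 1) (b (l 16385136) (l 16418320))) (b (a (l 16394848) (l 16407080)) (a (c (l 16399328) (l 16372496)) (a (l 16394584) (b (l 16403560) (l 16399152)))))) (a (b (a (c (b (l 16374344) (l 16370408)) (l 16349016)) (c (a (c (l 16385392) (l 16371896)) (l 140850015691997199)) (b (l 16356960) (l 16372288)))) (c (c (a (l 140857299931070479) (l 140938251493310479)) (a (a (l 140573007424012303) (l 140574519259119631)) (a (l 140756694599745551) (l 140759580826681359)))) (a (b (a (l 16339312) (l 16341264)) (a (c (l 140797720080252943) (l 16326616)) (a (l 140657120020430863) (l 140661174471901199)))) (c (a (b (l 16350752) (l 140807478257008655)) (a (l 140870012992225295) (l 140874411042783247))) (b (b (l 16340008) (l 140959691881283599)) (a (l 140877159776649231) (l 140888154898694159))))))) (b (c (b (a (l 140982369425358863) (a (l 16403600) (l 16411232))) (a (l 140989516242567183) (a (a (l 140886162166185999)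 (l 140861629320445967)) (l 140883138528755727)))) (a (b (l 16364640) (c (l 141428221334585359) (l 16372600))) (a (b (l 16372256) (b (l 16368128) (c (l 16373464) (l 16357256)))) (b (l 16378416) (l 140843006284021775))))) (a (a (a (c (l 140701512893186063) (c (l 140878877813145615) (l 140952407621533711))) (b (c (l 140758275191439375) (l 140986080191512591)) (c (l 140883825666162703) (c (l 140629082514030607) (b (l 140930898425937935) (l 141219382782427151)))))) (a (b (c (l 140763704036294671) (c (l 140770850811428879) (l 141023807172853775))) (c (l 141077133560578063) (c (l 140747280019259407) (b (l 140547375030697999) (l 140780883805880335))))) (b (c (l 140782052143251471) (c (l 140734635652726799) (b (l 16350312) (l 140588194411347983)))) (c (l 140903273291268111) (l 140675605593161743))))) (b (c (b (l 141365480521580559) (l 141379568010084367)) (a (c (l 140738964988968975) (l 140797239070834703)) (l 140704124210085903))) (a (c (l 141274289757274127) (l 140799987854884879)) (c (l 140758756259332111) (l 141151075674996751))))))))),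 by decide +kernel⟩

def k3_pm_123_a : ∃ t, chk3 f_pm_123_a t 9 14 1 = true :=
  ⟨(b (a (a (l 16456368) (l 16475872)) (a (l 16499008) (l 16526192))) (a (a (l 16437088) (l 16498104)) (a (l 16479096) (l 16507080)))), by decide +kernel⟩

def k4_pm_123_a : ∃ t, chk3 f_pm_123_a t 9 30 1 = true :=
  ⟨(b (a (a (b (l 16424944) (l 16419744)) (l 16441472)) (a (l 16465136) (l 16493856))) (b (a (a (l 16415408) (l 16434848)) (a (l 16458888) (l 16488080))) (a (a (c (l 16428120) (l 16394552)) (c (l 16449264) (l 16412704))) (a (a (l 16448632) (l 16462056)) (a (l 16476816) (l 16493000)))))), by decide +kernel⟩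

def k5_pm_123_a : ∃ t, chk3 f_pm_123_a t 9 31 1 = true :=
  ⟨(a (b (c (a (b (l 141360257890910223) (l 141485464770002959)) (a (l 141063252340981775) (l 141139943301464079))) (b (a (l 141380255186894863) (l 141492680288567311)) (a (l 141344727206739983) (l 141229072365748239)))) (b (a (c (a (l 140861285745197071) (l 140911588422533135)) (a (l 140889048337137679) (l 140726732950355983))) (c (a (l 140975360119570447) (l 141053562909130767)) (a (l 140758412648644623) (l 140804729597853711)))) (a (c (a (l 140796345831686159) (c (l 140905678561148943) (l 140790848273235983))) (a (l 140614445296648207) (l 140632037500338191))) (c (a (c (l 140978246352355343) (l 140848297778085903)) (c (b (l 141079195291369487) (l 141052051095142415)) (l 140920728131289103))) (a (l 140664129515880463) (c (l 140780334195539983) (l 140643925989949455))))))) (c (a (a (b (l 141230927915614223) (b (l 141146952705605647) (b (l 141373520815702031) (c (l 141336068721442831) (l 140992333851557903))))) (b (b (l 141363144221392911) (l 141310573815824399))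 (b (c (l 141335725161775119) (l 141177739038261263)) (c (b (l 141300265908142095) (a (l 141244671840894991) (l 141309336885067791))) (a (l 141086479558737935) (l 141143516740157455)))))) (b (b (l 141731343227191311) (a (l 141433994028695567) (l 141574868991688719))) (b (a (c (l 141468972261097487) (l 141297173521219599)) (c (l 141620223866388495) (l 141434887388037135))) (a (c (b (l 141436467945390095) (a (b (l 141384034974138383) (l 141373039856795663)) (a (l 141433444290871311) (l 141471514890223631)))) (b (l 141252574576246799) (a (l 141189833682403343) (l 141256629031108623)))) (c (b (a (l 141550611024019471) (l 141632730818265103)) (a (b (l 141535767615668239) (c (l 141576999313784847) (l 141474950864912399))) (b (l 141618918202179599) (c (b (l 141664410508296207) (l 141750447292841999)) (l 141557208098127887))))) (b (l 141393518258929679) (a (b (l 141335312850763791) (l 141321294076133391)) (a (l 141385271923769359) (l 141604968100560911))))))))) (a (b (a (l 140996388257300495) (l 141072460744474639)) (b (a (l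 140866577151311887) (l 140944917381873679)) (a (c (l 140852627110772751) (l 140698695436910607)) (c (b (l 140962234706690063) (l 140921758930665487)) (l 140770782194712591))))) (b (b (l 141437498654048271) (a (l 141124137815834639) (l 141235257242124303))) (b (a (l 141401008578871311) (c (l 141248657556602895) (l 141061328213622799))) (a (c (b (l 141068818646269967) (a (l 141001267388547087) (l 141060228716068879))) (b (l 140884925277552655) (l 140837233955848207))) (c (b (l 141194369164492815) (a (l 141124137846702095) (l 141193132219416591))) (b (l 140993639522205711) (a (l 140918391682138127) (l 140978864838836239)))))))))), by decide +kernel⟩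

def k6_pm_123_a : ∃ t, chk3 f_pm_123_a t 10 2 1 = true :=
  ⟨(b (a (b (l 16737208) (l 16673992)) (b (a (l 16717232) (l 16729056)) (l 16683568))) (a (a (b (l 16652232) (l 16640296)) (b (l 16666584) (b (l 16654032) (l 16641256)))) (a (b (l 16682992) (l 16669512)) (b (l 16698424) (l 16691728))))), by decide +kernel⟩

def k7_pm_123_a : ∃ t, chk3 f_pm_123_a t 10 6 1 = true :=
  ⟨(a (a (b (a (l 16615656) (l 16617952)) (b (l 16592888) (l 16572056))) (a (b (l 16615984) (l 16579632)) (b (l 16619768) (a (l 16577408) (l 16588976))))) (b (a (l 16647672) (b (l 16684048) (l 16678760))) (a (b (l 16628536) (a (l 16599200) (l 16624968))) (b (a (l 16663104) (l 16686200)) (a (l 16650552) (c (l 16686056) (l 16666968))))))), by decide +kernel⟩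

def k8_pm_123_a : ∃ t, chk3 f_pm_123_a t 20 14 1 = true :=
  ⟨(a (b (a (l 16549016) (l 16553504)) (a (l 16530752) (l 16537664))) (b (a (l 16552792) (l 16558672)) (a (l 16540464) (b (l 16550392) (l 16546960))))), by decide +kernel⟩

def k9_pm_123_a : ∃ t, chk3 f_pm_123_a t 20 30 1 = true :=
  ⟨(a (a (b (l 16518360) (b (l 16513088) (b (l 141856000372932623) (l 142007526816137231)))) (b (l 16527544) (c (l 141921490105532431) (l 141955506152128527)))) (a (b (l 16533608) (b (l 16531560) (a (l 16528656) (l 16533184)))) (b (a (l 16538912) (l 16549056)) (a (b (l 16538232) (l 16517712)) (c (l 16572712) (l 16524144)))))), by decide +kernel⟩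

def k10_pm_123_a : ∃ t, chk3 f_pm_123_a t 80 31 1 = true :=
  ⟨(b (a (c (l 141714713157926927) (l 141368847935143951)) (b (l 141636510365319183) (c (l 141767627171168271) (l 141390563302588431)))) (b (c (a (l 141648605014769679) (b (l 141737459318063119) (l 141717599387484175))) (a (l 141253674080469007) (b (l 141335518996316175) (l 141298685353181199)))) (b (a (c (c (l 141719867135148047) (l 141512128104824847)) (l 141195331238920207)) (c (a (c (l 141787280957407247) (l 141574456685215759)) (b (l 141720416888930319) (l 141711895673094159))) (a (l 141429114912784399) (b (l 141284391703068687) (l 141268173904904207))))) (a (c (c (b (l 141707016591851535) (a (c (l 141729694026530831) (l 141622079299387407)) (b (l 141903966616944655) (a (l 141708184824725519) (a (c (l 141780546451161103) (l 141670663980990479)) (b (l 141738490120732687) (l 141736634694713359))))))) (b (l 141492955368980495) (a (l 141459282819137551) (a (l 141491031224975375) (b (l 141515632803053583) (c (l 141565591875518479) (l 141453785259982863)))))))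 (a (c (l 141248176534372367) (l 141027586961244175)) (b (l 141184336124477455) (c (a (l 141268380066938895) (l 141288446159061007)) (l 141051432627847183))))) (a (c (b (c (a (l 141764878404550671) (l 141786525044686863)) (a (l 141546694012567567) (l 141566897543462927))) (c (a (b (l 141759243406983183) (l 141755669993914383)) (b (l 141781302364045327) (l 141868026343424015))) (b (l 141728731907981327) (l 141543395478700047)))) (b (c (l 141334350778351631) (l 141108126207459343)) (c (a (l 141309749201813519) (l 141329815293607951)) (l 141089778105122831)))) (c (b (l 141703992932597775) (c (b (l 141809820953477135) (c (l 141862803683508239) (l 141750859628625935))) (l 141583527662059535))) (c (l 141361151381585935) (l 141130460043984911)))))))), by decide +kernel⟩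

def k11_pm_123_a : ∃ t, chk3 f_pm_123_a t 81 31 1 = true :=
  ⟨(b (c (b (l 141875379333103631) (a (l 141820060145664015) (l 141872424400404495))) (b (l 141504500218101775) (a (l 141425953845051407) (l 141462306460008463)))) (b (b (a (c (l 141795939607543823) (l 141377300451131407)) (c (l 141856618920312847) (l 141424579464167439))) (a (c (a (l 141765084557606927) (l 141797313999945743)) (a (l 141333938455085071) (l 141359914424123407))) (l 141987392030605327))) (c (b (a (b (l 141771131874787343) (l 141765015841030159)) (l 141840401123999759)) (a (b (c (l 141871324898574351) (l 141646062399176719)) (c (b (l 142048483709632527) (c (a (b (l 141903279464480783) (l 141902454830776335)) (a (l 141933516041256975) (l 141954269327949839))) (a (l 141789686141911055) (l 141829474728067087)))) (a (l 141620155151663119) (l 141837858462629903)))) (b (c (l 141950352314974223) (l 141720210731745295)) (c (c (b (l 142007183336685583) (l 14)) (b (l 141891734587752463) (a (l 141870156667584527) (b (l 141911938118860815) (l 141911800680071183)))))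 (b (l 141716912196911119) (c (a (l 141753608407023631) (l 141794084188061711)) (l 141655614409654287))))))) (b (a (b (l 141326379314003983) (l 141313734928973839)) (l 141382729299197967)) (a (c (b (l 141417157767512079) (l 141406574967111695)) (l 141177464177246223)) (c (a (l 141464436779286543) (l 141680765700440079)) (l 141243091292995599))))))), by decide +kernel⟩

def k12_pm_123_a : ∃ t, chk3 f_pm_123_a t 41 31 1 = true :=
  ⟨(a (a (b (b (c (l 141941143890133007) (l 141546212955897871)) (b (l 141723371816747023) (l 141711483346894863))) (b (c (l 141918741342961679) (l 141470827684970511)) (b (c (l 141915992565874703) (l 141448562573443087)) (b (c (c (l 142033021864345615) (l 141797932477792271)) (l 141618368400130063)) (c (c (a (b (l 142012955773141007) (a (c (l 14) (l 141943755243929615)) (l 14))) (l 14)) (b (l 141796901686149135) (c (a (l 141835453322493967) (l 141877853249273871)) (a (l 141715469087571983) (l 141756563344031759))))) (c (a (l 141535011698868239) (l 141573838212120591)) (l 141308168653406223)))))))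 (b (b (c (l 16558384) (l 16508144)) (l 141769894915342351)) (b (c (l 141988148030685199) (l 141530819802578959)) (b (c (l 141994951262748687) (l 141517556944224271)) (c (c (l 14) (b (l 141879296356827151) (b (l 142060921934839823) (c (a (b (l 141921009090314255) (l 142011650080473103)) (l 14)) (a (l 141798688392839183) (l 141841844234010639)))))) (b (l 141692104415707151) (c (b (l 141634173926211599) (c (l 141808583973175311) (l 141570883273949199))) (l 141382523144372239)))))))) (b (b (a (l 141834697393799183) (l 141923964014493711)) (a (l 142011031573856271) (l 141920734201888783))) (b (a (b (l 142011512613027855) (c (l 142068481118208015) (l 141595209968631823))) (c (l 142158503652311055) (l 141683858112708623))) (b (a (c (a (l 142056386488975375) (l 142102084951310351)) (a (l 141571570465488911) (l 141612527282962447))) (c (l 142175133771448335) (l 141678566715064335))) (c (c (l 14) (c (l 14) (a (a (b (l 141881220501979151) (b (l 141884038001803279) (a (l 141874898309775375) (a (l 141891665865867279) (l 141902935862591503)))))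 (b (l 141926025610919951) (c (l 14) (l 141898743973036047)))) (b (l 141996531809894415) (l 14))))) (a (a (b (l 141749897508913167) (c (a (l 141685576106770447) (a (l 141701381590007823) (l 141892215579328527))) (l 141620979741999119))) (b (l 141611359053266959) (c (a (l 141908639537971215) (l 141930767214477327)) (l 141481616652451855)))) (b (c (l 141805629058727951) (l 141547656083341327)) (c (b (l 141986911039340559) (c (a (l 141849609535438863) (b (l 141895789034045455) (l 141896476229206031))) (a (l 141719798413754383) (l 141765015839604751)))) (a (l 141523810420719631) (l 141566966261858319)))))))))), by decide +kernel⟩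

def k13_pm_123_a : ∃ t, chk3 f_pm_123_a t 21 14 1 = true :=
  ⟨(b (b (a (l 16599424) (a (l 16637304) (l 16664488))) (a (a (l 16578720) (l 16603432)) (a (l 16628448) (b (l 16657456) (l 16642840))))) (a (a (l 16571552) (b (l 16597752) (l 16593000))) (a (c (l 16637200) (b (l 16605056) (l 16598168))) (c (l 16662624) (b (l 16633176) (l 16625920)))))), by decide +kernel⟩

def k14_pm_123_a : ∃ t, chk3 f_pm_123_a t 21 30 1 = true :=
  ⟨(a (b (a (b (l 16566608) (l 16565032)) (c (l 16610784) (l 16566832))) (a (b (l 16564648) (l 142079407502508047)) (b (l 16561400) (l 142289001953476623)))) (b (a (b (l 16614064) (c (l 16633856) (l 16590216))) (c (l 16651072) (a (l 16612000) (c (l 16637112) (l 16615872))))) (a (c (b (l 16631816) (l 16630152)) (b (l 16588504) (l 142309549076070415))) (b (c (l 16646432) (l 16615760)) (c (l 16623168) (l 142562230647422991)))))), by decide +kernel⟩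

def k15_pm_123_a : ∃ t, chk3 f_pm_123_a t 42 31 1 = true :=
  ⟨(a (c (b (b (l 142282542330183695) (l 142293193854156815)) (b (a (l 142258765391298575) (l 142363287738679311)) (l 14))) (b (b (l 141854900920418319) (l 141837308734636047)) (a (b (l 141776354549284879) (b (l 141950489705185295) (c (b (l 141899706043465743) (b (a (l 141876822453305359) (l 141924857378275343)) (c (l 14) (a (l 141811264057819151) (l 141858680507351055))))) (b (l 141636579106258959) (a (l 141791404082839567) (a (l 141645169043947535) (l 141668121354321935))))))) (b (l 141873180313763855) (b (c (l 141997012842807311) (l 141735122856263695)) (b (c (l 141998181075582991) (l 141729831457079311)) (c (a (c (l 14) (c (l 14) (l 141873180319678479))) (l 14)) (b (l 141907608743723023) (c (a (l 141770925715095567) (l 141819166798512143)) (l 141747011311124495)))))))))) (b (b (c (l 142494473243557903) (l 142060853238464527)) (a (l 142223031247814671) (l 142152112729079823))) (c (a (l 14) (c (b (l 142412697087295503) (b (l 142413178124075151) (b (l 142414002758156431)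 (c (c (a (a (l 14) (l 142645793563934863)) (b (l 142668883312148623) (l 142669639226638479))) (l 14)) (l 14))))) (l 14))) (a (b (l 141974472845082639) (c (b (l 142100160800309263) (l 14)) (b (l 141833391729917967) (b (l 141827619294248975) (c (b (l 141894758239174671) (c (l 14) (a (l 141833666611118095) (l 141883900559753231)))) (a (l 141729487860449295) (l 141868782250704911))))))) (c (b (l 142208531436388367) (l 14)) (b (l 141951039496929295) (b (l 141936333528907791) (b (l 142110262524772367) (c (l 14) (a (a (l 141816418017787919) (l 141841844229816335)) (c (l 14) (l 141844524289818639)))))))))))), by decide +kernel⟩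

def k16_pm_123_a : ∃ t, chk3 f_pm_123_a t 43 31 1 = true :=
  ⟨(b (a (a (b (l 142448156300148751) (c (l 142418744400510991) (l 142206469845991439))) (b (l 142566834819579919) (c (l 142490212669046799) (l 142323430421151759)))) (b (c (l 142620161222950927) (c (l 142649504408207375) (l 142420256178913295))) (a (c (l 142562711730028559) (l 142448225018183695)) (c (l 142636516461412367) (l 142581334673522703))))) (c (a (a (c (b (l 142479286272049295) (b (b (l 142657956911579279) (l 142657682033754255)) (b (a (l 142641807831974031) (l 142673281357889679)) (a (c (b (l 142680565624782991) (c (l 142700425557672079) (l 142661599045451919))) (l 14)) (c (b (l 142711351955816591) (c (l 142730937010733199) (l 142692385376485519))) (c (a (l 142623459732127887) (l 142661461605499023)) (l 14))))))) (l 14)) (a (c (b (l 142708534455156879) (b (l 142705579517477007) (b (l 142704411286372495) (b (l 142703998969544847) (c (l 142742000847945871) (a (l 142657407155224719) (l 142672800320733327))))))) (l 14)) (b (l 142494748112568335) (b (l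 142485264780361871) (c (b (l 142735609934348431) (b (l 142734579142131855) (c (l 142771962545111183) (c (l 142714787928916111) (l 142676511172690063))))) (a (l 14) (b (l 142593910344827023) (c (c (l 142646618194116751) (l 14)) (l 14))))))))) (b (b (l 142585251679633423) (c (a (l 142789486013317263) (l 142854975686393999)) (l 142509041764991119))) (b (a (a (l 142337861508595855) (l 142370228387922063)) (b (l 142420943456698511) (l 142415239653245071))) (b (a (b (l 142439016580432015) (a (l 142331333178769551) (l 142362256927309967))) (b (l 142455990302212239) (a (l 142392837142839439) (l 142423073717977231)))) (a (c (c (a (l 142801855522750607) (l 142831267464003727)) (b (l 142697470625185935) (a (l 142680840508915855) (l 142755676024357007)))) (c (a (b (l 142651840874840207) (c (l 142668608430588047) (l 14))) (b (l 142682695925366927) (c (l 142698913725186191) (l 142660843127488655)))) (l 14))) (a (c (c (l 142860335807791247) (l 142786324905640079)) (c (b (l 142713207378444431) (c (l 142728806702858383) (l 142691079702610063)))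 (c (a (l 142647442820972687) (l 142662698552885391)) (l 14)))) (c (c (l 142889060554162319) (l 142815599418654863)) (b (l 142616175475245199) (c (l 142739664381673615) (a (l 142656788665696399) (l 142671838244503695))))))))))) (c (l 14) (a (a (b (l 142059685013684239) (b (l 142044154411696143) (b (a (l 142010206984290319) (l 14)) (l 14)))) (b (l 142174584004050959) (l 14))) (b (b (l 142366173946003471) (l 14)) (l 14)))))), by decide +kernel⟩

def k17_pm_123_a : ∃ t, chk3 f_pm_123_a t 11 2 1 = true :=
  ⟨(a (b (b (a (l 16739584) (l 16749448)) (l 16729768)) (a (b (b (l 16714040) (l 16709704)) (a (l 16704808) (l 16704360))) (b (l 16726456) (a (l 16704472) (l 16712024))))) (b (b (a (l 16758080) (b (l 16767488) (l 16762888))) (b (l 16754336) (l 16750696))) (b (l 16748672) (b (l 16745880) (l 16734672))))), by decide +kernel⟩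

def k18_pm_123_a : ∃ t, chk3 f_pm_123_a t 22 6 1 = true :=
  ⟨(a (a (b (b (l 16700968) (l 16699072)) (b (a (c (l 16709496) (l 16693856)) (l 16695656)) (a (c (l 16705320) (b (l 16692392) (l 16683480))) (b (l 16693576) (l 16686488))))) (b (l 16687576) (b (c (l 16687832) (l 16661072)) (c (l 16660088) (b (l 16653336) (l 16646840)))))) (b (a (b (l 16679944) (l 16661456)) (l 16673624)) (a (c (b (l 16660392) (a (l 16653176) (l 16636416))) (b (l 16621008) (a (l 16615232) (a (l 16595096) (l 16582520))))) (b (l 16636224) (b (l 16617488) (l 16614792)))))), by decide +kernel⟩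

def k19_pm_123_a : ∃ t, chk3 f_pm_123_a t 22 14 1 = true :=
  ⟨(c (a (b (a (a (c (l 16695384) (l 16686320)) (l 16687848)) (b (l 16669720) (l 16662144))) (a (a (a (l 16675088) (l 16677344)) (l 16649416)) (a (l 16660984) (l 16652008)))) (a (b (a (l 16644808) (a (l 16634760) (l 16629456))) (a (c (l 16630120) (l 16635768)) (a (l 16616312) (l 16613272)))) (b (l 16637848) (b (l 16641152) (l 16646080))))) (a (b (a (a (a (c (l 16672624) (l 16659024)) (b (l 16675488) (a (l 16665960) (l 16664016)))) (b (l 16665256) (a (l 16659304) (l 16652704)))) (b (c (l 16649384) (l 16631208)) (a (c (l 16651208) (l 16632800)) (l 16626592)))) (a (a (a (c (l 16657208) (l 16639976)) (b (l 16657120) (c (l 16659216) (l 16640688)))) (b (l 16649952) (a (l 16647016) (l 16643256)))) (b (a (l 16638752) (l 16626408)) (c (l 16641368) (a (l 16626008) (l 16616056)))))) (a (b (a (b (l 16610528) (l 16588416)) (b (l 16587640) (a (l 16593288) (l 16583480)))) (a (b (l 16611576) (a (l 16617160) (l 16609424))) (b (b (l 16591392) (l 16594168)) (a (l 16601760) (l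 16595696))))) (b (b (l 16591920) (l 16594160)) (b (l 16600144) (l 16607736)))))), by decide +kernel⟩

def k20_pm_123_a : ∃ t, chk3 f_pm_123_a t 88 15 2 = true :=
  ⟨(b (b (a (c (l 16664376) (l 16660888)) (l 16660120)) (a (b (l 16657296) (l 142760417657602063)) (c (l 16639032) (l 16630888)))) (b (b (a (c (l 142958810834059407) (l 142687987314999311)) (l 142756844242911375)) (a (c (a (l 142925688040456335) (l 142955443579158671)) (l 142653352692269199)) (a (l 142915036517859471) (l 142926306513551503)))) (a (b (a (b (l 142852639222317199) (l 142839238921961615)) (a (b (l 142877584396877967) (l 142863153304158351)) (b (l 142887273844670607) (l 142874148422271119)))) (b (a (l 142465267441221775) (c (a (l 142915929873285263) (l 142928230661750927)) (a (a (l 142776910343979151) (l 142783988451328143)) (l 142792578387378319)))) (a (b (c (l 142886105615138959) (l 142743306513809551)) (b (c (l 142882326043279503) (l 142736365845397647)) (c (l 142879783422214287) (c (l 142769007603433615) (c (l 142713001218752655) (l 142675480377032847))))))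 (c (b (a (l 142907820973637775) (l 142920877676511375)) (a (a (l 142898818720628879) (c (l 142941837121634447) (l 142869475497951375))) (c (l 142951870167007375) (l 142879714701787279)))) (a (b (a (l 142762341812256911) (l 142769488639099023)) (b (a (l 142754988826902671) (l 142762204373221519)) (a (l 142750041002197135) (c (l 142794296375345295) (c (l 142738702307590287) (b (l 142702830733623439) (l 142699944515076239))))))) (b (l 142779178086989967) (c (l 142806872041816207) (b (l 142735816088682639) (c (l 142749353828368527) (l 142712176584097935)))))))))) (c (b (b (l 142969324915589263) (l 142963552478691471)) (b (a (l 142945822850793615) (l 142968912598941839)) (b (a (l 142939981694369935) (l 142965133027229839)) (a (c (l 142971867538243727) (b (l 142901223901773967) (l 142898750000201871))) (c (l 142998187102470287) (l 142926718832148623)))))) (b (b (l 142845629832495247) (l 142833397763506319)) (b (a (l 142809552101015695) (l 142831885934739599)) (c (b (a (l 142834016239878287) (l 142859373731184783)) (a (a (l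 142820615939571855) (l 142834222398357647)) (b (l 142855731598344335) (l 142853395135758479)))) (b (a (l 142762616689328271) (l 142787974180634767)) (b (a (l 142756294496338063) (l 142783301255430287)) (a (a (l 142745024500154511) (l 142759111995375759)) (a (l 142773130771103887) (l 142787080827338895)))))))))))), by decide +kernel⟩

def k21_pm_123_a : ∃ t, chk3 f_pm_123_a t 89 15 2 = true :=
  ⟨(b (b (a (l 16634168) (l 16629496)) (a (a (l 16633352) (l 142768526553415695)) (c (l 16658312) (l 16624768)))) (c (b (a (b (l 16659584) (l 143004784170795151)) (b (l 16660464) (l 143031035014824079))) (b (a (b (l 143004303134883983) (l 143003822098776207)) (b (l 143038319281356943) (l 143042992207085711))) (a (b (a (l 142991727469133967) (l 143014267461369999)) (c (a (l 143024575386091663) (l 143049657999491215)) (b (l 142967263330386063) (a (l 142953107115851919) (l 142979151802122383))))) (b (a (l 143036463856173199) (l 143058385373020303)) (a (a (l 143033234040668303) (l 143045603548643471)) (c (l 143098792433975503) (l 143028973431373967)))))))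 (b (b (l 142709015475093647) (a (l 142880608051183759) (l 142896688410525839))) (b (a (b (l 142874148419616911) (l 142869612933611663)) (b (l 142901636214440079) (l 142904797311402127))) (a (b (a (l 142853944890507407) (l 142875660248842383)) (b (a (l 142848722209521807) (l 142873392505946255)) (a (a (c (l 142874698177265807) (l 142802130395381903)) (c (l 142887961038618767) (l 142815668134658191))) (c (l 142907820970885263) (a (l 142829068434981007) (l 142842400015810703)))))) (a (b (l 142897100729204879) (b (l 142897787924414607) (c (l 142933865657155727) (b (l 142862191228551311) (l 142862259948142735))))) (b (l 142918197612150927) (b (l 142921771025973391) (c (l 142959635465470095) (b (l 142887823597863055) (l 142888923109818511))))))))))), by decide +kernel⟩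

def k22_pm_123_a : ∃ t, chk3 f_pm_123_a t 44 30 3 = true :=
  ⟨(a (b (a (a (l 16638168) (c (l 16654120) (a (l 16632960) (l 16632680)))) (b (l 16642096) (a (l 16641192) (l 16639840)))) (c (a (a (l 16645216) (l 16626840)) (l 16623040)) (a (a (l 16621488) (a (l 16626960) (l 16627576))) (a (l 16627544) (l 16627520))))) (b (b (a (l 16637096) (l 16627176)) (a (c (l 16640800) (l 16624792)) (c (l 16632304) (l 16620296)))) (a (c (l 16638520) (a (l 16627368) (l 16626544))) (c (l 16612232) (a (l 16622640) (l 16618744)))))), by decide +kernel⟩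

def k23_pm_123_a : ∃ t, chk3 f_pm_123_a t 44 31 6 = true :=
  ⟨(a (a (c (b (b (l 142800274969608207) (l 142572676010672143)) (c (a (l 14) (b (l 142555977174614159) (b (l 142520517918015631) (a (c (b (l 142685032385544335) (a (l 142669089464008847) (b (l 142679466106863759) (b (l 142674861901070479) (l 142671769524060303))))) (l 14)) (b (l 142689361713135759) (b (l 142680634337984655) (l 142674793181380751))))))) (l 14))) (l 14)) (b (b (l 142784881802166287) (l 142568346681327631)) (c (b (l 142563124000571535) (b (b (l 142721247555518607) (l 142712314021953679)) (b (a (l 142690598663504015) (l 142716024874287247)) (b (a (a (l 142675961412354191) (l 142689705310093455)) (l 142710183717748879)) (a (a (c (l 142689224274034831) (b (l 142653215261147279) (l 142650329042600079))) (c (l 142703517927719055) (l 142666203244527759))) (c (a (l 142717674142417039) (l 142731830357115023)) (a (l 142680496898211983) (l 142694790551879823)))))))) (a (l 14) (a (l 14) (b (l 142687987321421967) (b (l 142662629830017167) (b (l 142649710566113423)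 (b (l 142643182214693007) (c (l 142657544588198031) (l 14))))))))))) (b (a (b (l 142770794261970959) (l 142574462714396815)) (b (l 142755882130898959) (l 142579616674676879))) (b (b (a (l 142741863400685711) (l 142762273087930511)) (a (a (l 142725233284759695) (l 142740901327863951)) (a (l 142756225773551759) (l 142771275341283471)))) (c (b (a (a (l 142749010228723855) (l 142770107111620751)) (b (l 142800687283765391) (l 142801580637372559))) (a (b (a (l 142741107487637647) (l 142765846503538831)) (a (a (a (l 142725439433539727) (l 142732311393157263)) (b (l 142743787547754639) (l 142741382365692047))) (b (l 142763716199497871) (a (l 142755332421927055) (l 142769145039192207))))) (b (a (l 142790241922007183) (l 142814362462503055)) (a (a (l 142783163814871183) (l 142796495395700879)) (a (l 142809758257037455) (l 142822952398897295)))))) (a (a (b (l 142678297873318031) (b (l 142668539705999503) (c (b (l 142682008726208655) (a (l 142671769522405519) (l 142685994456580239))) (a (l 14) (a (l 14) (l 142653833735094415))))))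 (b (l 142698913719763087) (b (l 142693347441377423) (a (b (l 142683795432538255) (c (l 142700081951801487) (l 142662973427138703))) (b (l 142697127013367951) (c (l 142714032008052879) (l 142677129641836687))))))) (a (b (l 142719185968775311) (b (l 142717742859829391) (a (b (l 142710458594164879) (c (l 142727982064287887) (l 142691148417564815))) (a (l 142720148042154127) (l 142726882552053903))))) (b (l 142739114620354703) (b (l 142741863400325263) (b (l 142743237790318735) (a (l 142737259194925199) (l 142751003092697231))))))))))), by decide +kernel⟩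

def k24_pm_123_a : ∃ t, chk3 f_pm_123_a t 44 31 7 = true :=
  ⟨(a (b (b (a (a (l 142592742102958095) (l 142650191598108687)) (l 14)) (l 14)) (l 14)) (c (a (l 14) (b (b (l 142653971169902607) (l 142655345517625359)) (a (c (b (l 142668814581874831) (b (l 142664966291095695) (b (l 142662973426221199) (b (l 142661942634037391) (a (l 142654177331904655) (l 142668196107632783)))))) (l 14)) (b (l 142661324113838223) (b (l 142666271960842383) (b (b (l 142668333545848975) (l 142669158179864719)) (b (a (l 142663317023473807) (l 142676511165300879)) (a (a (l 142660224639893647) (l 142667234034466959)) (c (l 142696096220102799) (l 142659262573461647)))))))))) (l 14))), by decide +kernel⟩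

def k25_pm_123_a : ∃ t, chk3 f_pm_123_a t 45 30 1 = true :=
  ⟨(c (a (b (a (c (l 16653656) (l 16617624)) (b (l 142674312125612047) (a (l 16644104) (l 16643104)))) (a (c (l 16657608) (a (l 16643552) (l 16642208))) (a (c (l 16657280) (l 16640784)) (c (l 16657472) (l 16640056))))) (b (b (l 16650016) (l 16642400)) (c (l 16666504) (b (l 16648320) (l 16652600))))) (a (b (a (c (l 16602424) (a (l 16611240) (l 16604864))) (a (b (l 16585016) (l 16588152)) (b (l 16580424) (a (l 16584528) (l 16584528))))) (a (c (l 16606936) (a (l 16593872) (l 16590056))) (a (b (l 16592392) (l 16596904)) (c (l 16601408) (b (l 16580480) (l 16586368)))))) (b (b (l 16592760) (a (l 16591520) (l 16602448))) (c (l 16613320) (b (l 16593848) (l 16599880)))))), by decide +kernel⟩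

def k26_pm_123_a : ∃ t, chk3 f_pm_123_a t 90 62 1 = true :=
  ⟨(c (a (a (b (l 142961490888392847) (l 142979564115181711)) (b (l 142965407898665103) (a (l 142987054539161743) (l 142992002342158479)))) (b (a (l 142969118750490767) (c (l 16662760) (l 142895245297336463))) (a (c (l 143075084205998223) (l 142922733095075983)) (c (l 143090614810263695) (l 142934552846811279))))) (b (a (c (l 142740145366040719) (l 142586626024882191)) (a (l 142645037590331407) (a (l 142635485580607503) (l 142645930942840847)))) (a (c (b (l 142757875038240911) (l 142769763510550671)) (b (l 142606004921942031) (l 142618924186648719))) (c (a (l 142766396254257295) (a (l 142767427046129807) (l 142780689907482767))) (a (l 142606142360092815) (a (l 142602706428002447) (l 142616175404875919))))))), by decide +kernel⟩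

def k27_pm_123_a : ∃ t, chk3 f_pm_123_a t 90 126 1 = true :=
  ⟨(a (c (a (b (l 142992689538465935) (l 143001348194680975)) (b (l 143007326789320847) (l 143019146542088335))) (b (c (a (l 142776841618882703) (l 142786256188391567)) (l 142631912170848399)) (c (a (l 142786050031075471) (l 142800549842911375)) (b (l 142641601619394703) (l 142648061251764367))))) (c (a (b (l 143021757881696399) (c (l 143108962915827791) (l 142963483754070159))) (b (c (l 143114116876632143) (l 142963827350454415)) (c (l 143129784920866895) (l 142983343686221967)))) (a (b (c (l 142795327160500367) (l 142639883673665679)) (c (l 142814706057314447) (c (l 142700906581524623) (l 142624009472147599)))) (a (b (c (l 142801992950595727) (l 142643594525671567)) (c (l 142825151419383951) (l 142671082322395279))) (b (l 142738908372369551) (c (l 142841712816291983) (l 142688949389590671))))))), by decide +kernel⟩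

def k28_pm_123_a : ∃ t, chk3 f_pm_123_a t 90 127 2 = true :=
  ⟨(c (a (b (a (l 143080032011911311) (l 143101335053369423)) (a (c (l 143122912974536911) (l 143053300130414735)) (b (l 143109375234064463) (l 143114666635051215)))) (b (a (l 143122363216887887) (l 143145384245625039)) (a (b (l 143132258823831759) (l 143138924614598863)) (a (l 143153080829116623) (l 143168473994707151))))) (a (a (b (l 142939019617140879) (b (l 142945479249559695) (a (l 142943348945731727) (l 142956062051172495)))) (b (l 142959566744158351) (b (l 142968843875713167) (c (l 143010144289751183) (l 142939638092497039))))) (b (a (l 142979770273759375) (a (l 142994682402750607) (l 143011037641195663))) (a (b (l 142991864904433807) (c (l 143034952025227407) (l 142964720705945743))) (a (b (l 143008907337629839) (l 143018390627549327)) (b (l 143025949770973327) (l 143035914097328271))))))), by decide +kernel⟩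

def k29_pm_123_a : ∃ t, chk3 f_pm_123_a t 180 127 3 = true :=
  ⟨(b (a (c (b (l 142792921980469391) (l 142797457467080847)) (c (l 142685444698013839) (l 142611365044846735))) (b (a (l 142733067218190479) (l 142741794593144975)) (c (l 142818279472070799) (c (l 142708122129334415) (l 142633767641153679))))) (c (c (b (a (l 142838139405566095) (l 142861504031719567)) (a (a (l 142836009101770895) (l 142848997085167759)) (b (l 142866657993687183) (l 142870093968326799)))) (a (b (l 142765640343388303) (b (l 142769076318093455) (a (l 142764609551499407) (l 142778147290792079)))) (b (l 142789142408478863) (b (l 142794639967912079) (a (l 142791547591131279) (l 142804947891454095)))))) (c (c (b (a (l 142710870909763727) (l 142734372974837903)) (a (a (l 142708878042267791) (l 142722209625784463)) (a (l 142735472487121039) (l 142748597909487759)))) (b (a (l 142674105982582927) (l 142697608047673487)) (a (b (l 142677679396290703) (a (l 142673143910203535) (l 142686956527468687))) (b (l 142703586643542159) (a (l 142700700425240719)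 (l 142714375603519631)))))) (b (a (l 142618718031544463) (a (l 142636310262726799) (l 142647992575770767))) (a (a (l 14) (b (l 142628888558289039) (c (b (l 142649504405389455) (l 142650947514761359)) (l 14)))) (a (b (l 142641945261146255) (c (l 142664072937078927) (l 14))) (b (l 142654864525033615) (c (l 142677816834850959) (b (l 142639952395862159) (l 142642288858611855)))))))))), by decide +kernel⟩

def k30_pm_123_a : ∃ t, chk3 f_pm_123_a t 181 127 3 = true :=
  ⟨(b (a (b (c (l 142829205870166159) (l 142679534820622479)) (c (l 142838826599104655) (c (l 142728188219916431) (l 142653421414776975)))) (a (c (l 142848309888188559) (b (l 142691766889431183) (l 142705579507302543))) (c (l 142866176944668815) (b (l 142710870907469967) (c (l 142762479244886159) (l 142688399634612367)))))) (b (a (c (c (l 142884593779900559) (l 142812232156659855)) (c (l 142739114619158671) (b (l 142662286229258383) (l 142668264825045135)))) (a (c (l 142865627200176271) (c (l 142756225771831439) (l 142682421039546511))) (c (l 142884525059752079)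 (c (l 142776566740697231) (l 142703724081266831))))) (a (a (c (c (l 142887548718383247) (l 142815874290073743)) (c (a (l 142740282851000463) (l 142746811202437263)) (b (l 142667715069444239) (c (l 142691492013129871) (b (l 142653490135171215) (l 142656307634339983)))))) (c (c (l 142900193104330895) (l 142828724834484367)) (c (b (l 142753614431699087) (l 142759455588532367)) (b (l 142680496894345359) (c (l 142705098471932047) (l 142668608422772879)))))) (c (a (c (l 142912768770785423) (l 142841506659401871)) (b (l 142893733471649935) (c (l 142934690288025743) (l 142864802566422671)))) (a (c (b (l 142766190098137231) (l 142772787169362063)) (b (l 142693209999753359) (c (l 142718567491747983) (l 142682214881575055)))) (a (a (b (l 142739320777408655) (c (l 142782682775797903) (l 142710596030791823))) (c (l 142786805945073807) (l 142714925358547087))) (b (l 142759249429446799) (c (l 142801855513444495) (l 142731143158251663))))))))), by decide +kernel⟩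

def k31_pm_123_a : ∃ t, chk3 f_pm_123_a t 91 31 2 = true :=
  ⟨(a (b (b (l 143039281348788367) (l 143074946743730255)) (b (c (l 143179331672424527) (l 143040587020664975)) (b (c (l 143202490141327567) (l 143070067682771023)) (a (c (l 143198229533622479) (c (l 143099548344975567) (l 143032959158665359))) (b (c (l 143233413912051919) (l 143107932122071119)) (a (c (l 143231283608207567) (l 143106145415692495)) (b (l 143187921609130191) (c (l 143252243052609743) (a (l 143125799189807311) (l 143136931747184847)))))))))) (b (b (l 143126761259024463) (l 143161395883065423)) (a (b (l 143174590026383439) (b (l 143200222396989519) (a (b (c (l 143262276097622223) (l 143142291866861775)) (b (a (l 143113429699281103) (l 143213279100911823)) (c (l 143269972681130191) (l 143152531071598799)))) (b (c (l 143280624201416911) (b (l 143162426677248207) (l 143166274969026767))) (c (l 143285572005429455) (l 143171016614527183)))))) (b (l 143216577634467919) (b (b (a (l 143227229156180175) (l 143247707564081359)) (c (l 143301102609039567)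 (a (l 143177613684228303) (l 143198435689857231)))) (b (c (l 143306050413019343) (l 143194724838162639)) (c (l 143310173583278287) (a (l 143190807828021455) (l 143210324163576015))))))))), by decide +kernel⟩

def k32_pm_123_a : ∃ t, chk3 f_pm_123_a t 91 62 3 = true :=
  ⟨(c (b (a (l 142801924228284559) (l 16646960)) (a (l 142850234031095951) (l 142958879544328335))) (b (l 142700906534174863) (a (l 142695683854581903) (l 142820134893518991)))), by decide +kernel⟩

def k33_pm_123_a : ∃ t, chk3 f_pm_123_a t 182 63 3 = true :=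
  ⟨(a (b (b (l 142783644760195215) (l 142810307933765775)) (c (b (l 142907614807703695) (b (l 142925894192545935) (c (l 142971592653881487) (a (l 142890160058040463) (l 142918609926783119))))) (a (b (l 142750041016860815) (b (l 142772031254233231) (b (l 142783095092396175) (c (l 142824876542509199) (c (l 142773130766549135) (l 142738427424129167)))))) (b (l 142781651982172303) (b (l 142803642219528335) (b (l 142814637338198159) (c (l 142855387995963535) (b (l 142786531066953871) (c (l 142807146914037903) (l 142773611802951823)))))))))) (b (c (l 142925962910302351) (l 142785087955386511)) (b (c (l 142962178082537615) (l 142828724832665743)) (b (c (l 142980320028393615) (l 142850646350528655)) (b (c (l 142989391001321615) (l 142861641469198479)) (a (c (c (l 143013786420625551) (l 142949946014204047)) (b (l 142851539704365199) (c (l 142887411278250127) (c (l 142839032757289103) (a (l 142798350819278991) (l 142814774777348239)))))) (c (a (l 143002172826599567) (b (l 143013992578793615) (c (l 143047115373265039) (l 142985955026960527))))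 (a (b (l 142874904330879119) (c (l 142910019990356111) (c (l 142862809700745359) (l 142831130015907983)))) (b (c (l 142921427425575055) (a (l 142855181837254799) (l 142863084578586767))) (b (a (l 142799106750840975) (l 142896413531373711)) (c (l 142925138278269071) (c (l 142878752622542991) (l 142847691413127311))))))))))))), by decide +kernel⟩

def k34_pm_123_a : ∃ t, chk3 f_pm_123_a t 183 63 3 = true :=
  ⟨(b (c (l 143006777030181007) (b (l 142863359453823119) (l 142892359079329935))) (b (b (a (l 142946922355130511) (a (l 142989803316707471) (c (l 143075908837785743) (l 142959498021486735)))) (a (l 142599888914628751) (a (a (b (l 142992620816089231) (l 142908920494882959)) (b (l 143006708311490703) (l 143012274590564495))) (c (l 143085735725596815) (l 142971730091507855))))) (a (b (a (c (l 143020589649346703) (c (l 142928161935097999) (l 142865970796658831))) (c (b (l 143043954275795087) (l 143048970798923919)) (b (a (l 142916548341088399) (l 142931460470440079)) (a (l 142923145412460687) (l 142937095469138063)))))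 (b (a (c (a (l 143022788673339535) (l 143035295620628623)) (a (b (l 142898543835152527) (c (l 142932628702347407) (l 142871056039329935))) (b (l 142913387245043855) (l 142916136024916111)))) (c (l 143053162688331919) (l 142935446201843855))) (c (c (l 143074878047584399) (a (l 143003615936053391) (l 143028148794458255))) (c (c (l 142971523934404751) (a (l 142928230655475855) (l 142955237415534735))) (c (b (l 142910707185647759) (a (l 142899299750346895) (l 142927268583293071))) (b (l 142880745488056463) (b (l 142882807072997519) (a (a (l 142862397384229007) (l 142876965916377231)) (a (l 142891465729032335) (l 142905896822194319)))))))))) (c (b (l 143082231032447119) (c (l 143117827729457295) (a (l 143050345189900431) (l 143074259572932751)))) (b (c (l 142997087584223375) (l 142939981688094863)) (a (b (l 142962659120398479) (b (l 142966507412291727) (c (l 142997225024585871) (c (l 142954893818822799) (a (l 142919503281422479) (l 142933728216137871)))))) (b (l 142989597161013391) (b (l 142993308013936783) (c (l 143022994833883279)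 (c (l 142982175456919695) (a (l 142947815711883407) (l 142961903207612559)))))))))))), by decide +kernel⟩

def k35_pm_123_a : ∃ t, chk3 f_pm_123_a t 23 6 1 = true :=
  ⟨(b (b (l 16716784) (l 16696792)) (b (a (l 16660496) (l 16691080)) (a (b (l 16643448) (l 16640176)) (c (l 16692192) (l 16659616))))), by decide +kernel⟩

def k36_pm_123_a : ∃ t, chk3 f_pm_123_a t 23 14 1 = true :=
  ⟨(b (a (b (l 16641320) (c (l 16640560) (l 16624784))) (c (l 16669992) (c (l 16648048) (l 16654032)))) (a (a (b (l 16618504) (b (l 16623256) (l 16626584))) (b (l 16636416) (l 16642816))) (b (b (l 16660248) (l 16663208)) (c (l 16699392) (l 16656888))))), by decide +kernel⟩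

def k37_pm_123_a : ∃ t, chk3 f_pm_123_a t 23 30 1 = true :=
  ⟨(a (a (b (c (c (l 16675160) (l 16660136)) (a (l 16611024) (l 16621376))) (c (b (l 16672384) (l 16676048)) (c (a (l 16649184) (l 16658768)) (l 16619472)))) (b (c (l 16682752) (l 16636400)) (c (c (l 16694384) (l 16683480)) (c (l 16672616) (l 142910982045925519))))) (b (c (c (l 16708088) (l 16699000)) (b (l 16662552) (l 16666456))) (c (a (l 16702664) (l 16715240)) (b (l 16671480) (a (l 16688624) (l 16706096)))))), by decide +kernel⟩

def k38_pm_123_a : ∃ t, chk3 f_pm_123_a t 23 62 1 = true :=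
  ⟨(b (a (c (a (l 143253067680759887) (c (l 16698840) (l 16689304))) (c (a (l 143069517921173647) (l 16679904)) (a (l 142943967412387983) (a (l 16665440) (l 16675744))))) (a (c (l 16707392) (a (l 16689320) (l 16698280))) (c (l 16719576) (l 16711064)))) (a (a (a (c (l 143245096221278287) (c (l 143064570119438479) (l 142941424792912015))) (b (c (l 16686048) (l 143100510411571343)) (a (c (l 16686024) (l 143099067303084175)) (c (l 16689608) (c (l 16674768) (l 143100991448727695)))))) (c (a (c (l 16698664) (l 16689416)) (l 143464654992900303)) (a (a (b (l 16672056) (l 143200703429443727)) (b (l 16676904) (l 143246470610845775))) (c (l 16689176) (l 143265437190668431))))) (a (a (c (l 16707352) (b (l 16693272) (l 16695888))) (c (l 16713568) (l 16703384))) (c (l 16722272) (a (l 16711760) (l 16719736)))))), by decide +kernel⟩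

def k39_pm_123_a : ∃ t, chk3 f_pm_123_a t 23 126 1 = true :=
  ⟨(a (a (b (a (c (c (l 143325772904087759) (l 143213622695067727)) (a (l 143014336173113487) (c (l 143125524307935375) (l 143013923855843471)))) (a (c (a (l 143319450710048975) (l 143337730094530767)) (c (l 143174383865479311) (b (l 143064844997656719) (l 143076458592354447)))) (c (l 143363568623239375) (l 143171222769516687)))) (a (a (c (b (l 143262001217175631) (c (l 143324673393131727) (l 143214378610442447))) (b (l 143033989947768975) (a (l 143033027875340431) (c (l 143115353824608399) (l 143004234409050255))))) (c (b (l 143301102606958799) (l 143306600166949071)) (b (a (l 143075152922214543) (l 143100647853277327)) (c (l 143150057167618191) (l 143044572750315663))))) (c (c (l 143403288490508495) (l 143308180715454671)) (c (l 143212729343393871) (l 143117003093835919))))) (c (a (c (l 143459294875369679) (l 143374563743547599)) (c (l 143514339188506831) (l 143441152931446991))) (c (a (l 143290176209616975) (l 143369272345067727)) (a (b (l 143197130019029135)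 (l 143214928369631375)) (b (l 143290932125565071) (l 143306806330671183)))))) (c (c (a (l 143588899838099727) (l 16726256)) (a (a (l 143503069194272975) (l 16714208)) (l 143634873183174927))) (c (a (a (l 143443077080105167) (l 16710136)) (b (l 16720264) (l 16722224))) (a (a (l 143385490148425807) (l 143465342199316559)) (a (l 16715336) (l 16723736)))))), by decide +kernel⟩

def k40_pm_123_a : ∃ t, chk3 f_pm_123_a t 23 127 2 = true :=
  ⟨(a (c (a (a (b (a (l 143332232538046671) (l 143364118381985999)) (c (l 143381092097736911) (b (l 143328796564897999) (l 143332782296269007)))) (b (l 143409885563388111) (a (l 143401295628648655) (l 143430157815251151)))) (a (b (l 143467060180664527) (a (l 143457714331615503) (l 143484171336204559))) (b (l 143519493153390863) (l 143521692179251471)))) (a (b (a (a (b (l 143221731596566735) (l 143227778912633039)) (l 143263100730785999)) (l 143318282482598095)) (b (a (l 143252586649944271) (l 143325429311193295)) (a (c (l 143282891946213583) (a (l 143213210382680271) (l 143252174334460111)))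 (a (l 143312372608729295) (l 143347075952214223))))) (a (b (l 143387483011055823) (a (l 143378549479162063) (l 143410778921124047))) (b (l 143451323419574479) (c (l 143472695183311119) (l 143440740620861647)))))) (a (a (b (c (l 143567321920520463) (l 143509941147123919)) (c (l 143567596800803087) (l 143513170965872847))) (c (l 143700156680847631) (a (l 143551516442099983) (l 143576461618512143)))) (a (c (l 143648136046952719) (l 143611645999841551)) (c (l 143681877319418127) (l 602046529987910723233039))))), by decide +kernel⟩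

def k41_pm_123_a : ∃ t, chk3 f_pm_123_a t 23 127 3 = true :=
  ⟨(c (a (a (a (a (b (b (l 143112261448335503) (l 143120301629735055)) (b (l 143127998213734543) (c (l 143161464606556367) (a (l 143097899078008975) (l 143121263705145487))))) (b (l 143161533324132431) (b (l 143172597163786319) (b (l 143177957284905039) (a (l 143170604299813071) (l 143192319659213007)))))) (a (b (l 143205376359809103) (b (l 143215821724106959) (a (l 143211973433622735) (l 143232932878680271)))) (b (l 143247913725231183) (c (l 143281723716780239) (l 143239804828090575))))) (a (b (l 143309005353697487) (a (b (l 143297872797647055) (l 143303439077687503)) (l 143339173213192399))) (b (l 143385146551353551) (a (l 143376144300261583) (l 143411603558645967))))) (a (a (c (l 143471870551949519) (l 143446306902393039)) (b (l 143519836758163663) (l 143524372247773391))) (a (a (l 143566084979359951) (l 601792310735465603671247)) (l 602354648237957949760783)))) (a (a (b (a (a (b (a (l 142988154048987279) (l 143015160808997007)) (l 143011999713411215))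 (l 143059416162009231)) (c (l 143158440948826255) (l 143112879927181455))) (a (b (c (l 143073847256170639) (l 143022582516793487)) (b (a (l 143029248307593359) (l 143080925365305487)) (c (a (a (l 143047321533743247) (l 143072472867668111)) (a (l 143097280604160143) (l 143121676023742607))) (b (a (l 143006914473951375) (l 143060446957928591)) (a (a (c (l 143009044778107023) (l 142982793933045903)) (a (l 143016260325064847) (l 143029660625944719))) (a (l 143049657998016655) (l 143075977563357327))))))) (a (b (l 143124356083269775) (a (c (l 143143666260852879) (l 143098311397769359)) (a (l 143139405653131407) (l 143151569003217039)))) (b (l 143173284361519247) (a (l 143169642229629071) (l 143193350454411407)))))) (a (a (b (l 143208331300700303) (c (l 143243309523812431) (l 143205582524268687))) (b (l 143254716957933711) (c (l 143286740243022031) (l 143252517937561743)))) (b (l 143321168707141711) (c (l 143348931383935183) (l 143319794320883791))))) (a (a (b (l 143404044415549647) (c (l 143426240813777103) (l 143403563382997199)))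 (b (l 143480391772782799) (l 601577579000435355279567))) (a (b (l 601614472550224157467855) (l 602093223211128189117647)) (a (l 602511445531591992894671) (l 602941773513010759607503)))))), by decide +kernel⟩

def k42_pm_123_a : ∃ t, chk3 f_pm_123_a t 12 4 1 = true :=
  ⟨(a (b (b (a (a (l 16771040) (l 16772488)) (a (l 16776776) (b (b (a (l 16774944) (b (a (l 16775544) (l 126399543175)) (l 16775032))) (l 16774320)) (l 16773488)))) (a (l 16768872) (a (l 16771336) (l 16772384)))) (a (l 16766728) (b (l 16770904) (l 16771200)))) (b (b (a (b (a (b (a (b (l 183844731015) (a (l 97945383223) (l 146263766759))) (l 4)) (a (l 57680064199) (b (a (l 126936413623) (l 159685538519)) (l 76470549031)))) (b (l 4) (a (b (l 4) (l 139284446071)) (l 4)))) (a (l 16779104) (b (a (b (l 83986738663) (l 16774256)) (b (l 166664861383) (l 83986739031))) (l 16773880)))) (b (l 4) (a (b (l 4) (a (b (l 95261028583) (l 16774360)) (l 150558733495))) (l 4)))) (a (a (l 16773056) (b (l 16773456) (l 16773344))) (b (a (a (l 16773544) (l 44258290119)) (b (a (l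 101166605927) (l 187065954391)) (a (l 16773696) (l 51237612775)))) (a (l 16773544) (l 16773504))))) (a (b (l 16773344) (l 16774872)) (b (a (l 16774440) (l 16774728)) (l 16777552))))), by decide +kernel⟩

def k43_pm_123_a : ∃ t, chk3 f_pm_123_a t 13 4 1 = true :=
  ⟨(a (b (b (l 4) (a (b (a (b (l 4) (a (l 153779958119) (l 4))) (l 4)) (a (b (a (l 16774360) (l 98482249607)) (l 16773536)) (b (l 4) (a (l 53921967319) (l 155390559383))))) (l 4))) (b (a (a (l 16774656) (a (l 16774392) (a (l 16774192) (l 38352709143)))) (b (a (b (a (l 104924696983) (l 4)) (a (l 16774248) (l 59827543303))) (b (l 4) (l 176865404327))) (a (l 16774376) (b (a (l 16775296) (l 110830272375)) (l 16774352))))) (a (a (l 16778752) (l 16778848)) (b (a (l 16776632) (l 16775544)) (l 16779704))))) (b (l 4) (a (b (b (l 4) (a (b (l 4) (a (l 105998436791) (l 4))) (l 4))) (a (b (a (l 16774656) (b (l 61975023431) (l 16774728))) (l 16777600)) (b (b (a (l 117809591111) (l 4)) (a (l 16775400) (l 111367141943))) (l 16775592)))) (b (l 4) (b (l 4) (a (a (l 60901275943)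 (l 100629713383)) (l 171496690935))))))), by decide +kernel⟩

def k44_pm_123_a : ∃ t, chk3 f_pm_123_a t 7 4 1 = true :=
  ⟨(l 4), by decide +kernel⟩

def k45_pm_123_a : ∃ t, chk3 f_pm_123_a t 3 5 1 = true :=
  ⟨(a (a (b (a (a (l 16768848) (l 16775848)) (a (l 16781720) (l 16797720))) (a (b (l 16777552) (l 16771192)) (b (l 16794776) (l 16796944)))) (a (b (a (b (l 16785960) (l 16794784)) (b (l 16786224) (l 16796248))) (b (l 16805464) (l 16810144))) (b (a (b (a (l 16784560) (l 16782128)) (a (l 16795272) (l 16792784))) (b (b (a (l 16777016) (b (l 71101815431) (l 16776416))) (a (l 16781560) (l 16778576))) (a (l 16789400) (l 16785872)))) (a (b (l 16804448) (l 16808856)) (b (l 16775864) (l 16799920)))))) (a (a (b (a (a (b (b (b (l 4) (l 101166600135)) (l 53385112279)) (l 16782240)) (b (b (l 4) (b (l 97408476279) (l 85060498887))) (b (l 16776944) (l 16780680)))) (b (l 4) (a (b (a (l 86671108967) (l 89355417111)) (l 16777320)) (b (l 4) (b (l 111904044071) (l 71101853255)))))) (b (a (a (l 16790160) (l 16785728)) (b (a (l 16780632)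 (l 16766632)) (a (l 16782120) (l 16778656)))) (a (a (l 16792104) (l 16786824)) (a (l 16783032) (l 16780176))))) (b (l 4) (a (b (a (b (a (l 73786192599) (l 110293436103)) (l 16775920)) (b (l 4) (a (l 16775456) (l 104924667303)))) (a (l 16778360) (b (l 16775480) (l 16777872)))) (b (a (b (l 4) (a (l 131768201111) (l 4))) (l 4)) (a (b (a (l 16775408) (l 111367115783)) (l 16776480)) (b (a (l 211762005639) (l 4)) (a (l 77007389207) (b (l 157001140903) (l 16760848))))))))) (a (a (b (l 4) (b (l 4) (l 4))) (l 4)) (l 4)))), by decide +kernel⟩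

def k46_pm_123_a : ∃ t, chk3 f_pm_123_a t 6 6 1 = true :=
  ⟨(a (b (a (b (l 16759152) (l 16747224)) (a (l 16782928) (l 16798056))) (a (b (l 16734616) (a (l 16687248) (l 16737752))) (b (l 16760392) (a (l 16763056) (l 16783576))))) (a (b (b (a (l 16808216) (b (l 16813368) (l 16791800))) (a (l 16807088) (l 16813224))) (b (a (l 16803424) (l 16811768)) (a (l 16799192) (a (l 16807080) (l 16810424))))) (b (a (b (a (l 16793160) (l 16809376)) (a (l 16814112) (b (l 16808960) (l 16810880)))) (b (l 16799288) (b (a (l 16803368) (l 16797120)) (a (l 16804224) (l 16796584))))) (a (b (a (l 16813248) (l 16812128)) (a (l 16771744) (l 16773832))) (b (a (l 16786720) (l 16801304)) (a (b (l 16811760) (l 16818240)) (l 16769168))))))), by decide +kernel⟩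

def k47_pm_123_a : ∃ t, chk3 f_pm_123_a t 12 14 1 = true :=
  ⟨(a (b (a (c (l 16697232) (l 16676040)) (b (l 16734576) (l 16714728))) (a (b (l 16691984) (c (l 16724592) (l 16691216))) (b (l 16718496) (l 16722560)))) (b (a (b (l 16759096) (l 16738144)) (b (l 16780248) (l 16778512))) (a (b (l 16740736) (l 16743360)) (b (l 16758448) (a (l 16755296) (l 16762984)))))), by decide +kernel⟩

def k48_pm_123_a : ∃ t, chk3 f_pm_123_a t 12 30 1 = true :=
  ⟨(a (a (b (c (a (l 16722056) (l 16733072)) (a (l 16711136) (l 16726632))) (a (c (l 16726672) (l 16719760)) (c (l 16737080) (l 16734656)))) (b (c (l 16747648) (a (l 16740880) (l 16753632))) (c (a (l 16746224) (l 16754288)) (a (l 16747952) (l 16759888))))) (a (b (b (l 16744880) (a (l 16762488) (l 16791496))) (a (b (l 16764432) (c (l 16761736) (l 16771848))) (c (b (l 16767016) (l 16768512)) (b (l 16778584) (l 16781952))))) (b (a (c (l 16772312) (l 16805376)) (b (l 16784976) (l 16765544))) (a (c (l 16795600) (b (l 16788280) (l 16792408))) (c (b (l 16781312) (l 16784400)) (b (l 16799096)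 (l 16804072))))))), by decide +kernel⟩

def k49_pm_123_a : ∃ t, chk3 f_pm_123_a t 24 31 2 = true :=
  ⟨(a (b (a (a (l 16729096) (l 16734144)) (a (l 16738904) (l 16743376))) (a (a (b (l 16732472) (c (l 602319772441814601049359) (l 602667090025561081881871))) (b (l 16737224) (c (l 16738768) (l 603269491544909677143311)))) (b (b (l 16743416) (l 16744248)) (c (a (l 16742560) (l 16746112)) (b (l 16746216) (l 604294871498052437677071)))))) (b (a (l 16770568) (b (l 16755976) (l 16757472))) (a (a (b (l 16749840) (b (l 16750800) (b (l 16751328) (l 604795527661427970167823)))) (b (l 16753464) (b (l 16754528) (a (l 16754360) (l 16756376))))) (b (a (l 16757104) (l 16760832)) (a (b (l 16758384) (c (l 16756816) (l 16762552))) (b (l 16762592) (c (b (l 16760552) (l 16761216)) (b (l 16767040) (l 16767928))))))))), by decide +kernel⟩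

def k50_pm_123_a : ∃ t, chk3 f_pm_123_a t 25 31 2 = true :=
  ⟨(b (a (a (b (l 16763048) (b (l 16764136) (l 16765176))) (b (l 16770264) (b (l 16772208) (l 16773736)))) (a (b (l 16778712) (c (l 16777976) (l 16786936))) (b (l 16788120) (c (l 16787424) (l 16797824))))) (a (b (a (a (l 16785904) (b (l 16768560) (l 16770112))) (a (b (l 16773088) (l 16774872)) (a (l 16777600) (l 16780096)))) (a (a (b (b (l 16766696) (l 16767496)) (c (b (l 16764832) (l 16765624)) (b (l 16772160) (l 16783664)))) (b (b (l 16771400) (l 16772320)) (a (c (l 16768648) (l 16776704)) (c (l 16771000) (l 16779464))))) (c (a (b (l 16772704) (a (l 16773416) (l 16775880))) (b (l 16777520) (a (l 16778384) (l 16780944)))) (a (b (l 16781312) (a (l 16782272) (l 16785136))) (b (l 16786912) (a (l 16788032) (l 16790976))))))) (a (b (c (a (l 16779360) (l 16784272)) (a (l 16788840) (l 16794488))) (b (a (a (l 16786064) (l 16788800)) (a (l 16791568) (l 16794368))) (a (a (c (l 16783544) (l 16793952)) (c (l 16786176) (l 16796960))) (a (c (l 16788848) (l 16800000)) (c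 (l 16791552) (l 16803064)))))) (b (c (b (l 16790744) (l 16793160)) (b (l 16801808) (l 16804672))) (a (b (a (l 16797208) (l 16800064)) (c (a (l 16794288) (l 16797048)) (l 16807704))) (c (b (l 16798488) (l 16801232)) (b (l 16810784) (l 16813952)))))))), by decide +kernel⟩

def k51_pm_123_a : ∃ t, chk3 f_pm_123_a t 24 31 3 = true :=
  ⟨(b (a (a (a (l 16746144) (l 16732488)) (b (l 16740784) (l 16744672))) (a (b (l 16753472) (l 16756952)) (b (l 16764432) (b (l 16767032) (l 16789608))))) (a (c (a (b (l 16734800) (a (l 603085888749052819547407) (l 603796232947309964170255))) (b (l 16746944) (a (l 604486832928569477534735) (l 605157833244250673828879)))) (b (a (b (l 16734424) (l 16736712)) (l 16750016)) (a (b (l 603004896033007966872783) (b (l 603351781707284023268367) (l 603582942468957698298895))) (a (l 604451092361926672569359) (a (l 605794822375545962959887) (l 16758904)))))) (b (a (a (l 16757392) (b (l 16762096) (l 16763744))) (a (b (l 16767560) (l 16769216)) (a (l 16772520) (l 16775384)))) (a (a (b (c (l 16757168) (l 16762600))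 (c (l 16758560) (a (l 16762936) (l 16766048)))) (b (c (l 16762304) (l 16768752)) (c (l 16774304) (a (l 16769168) (l 16772376))))) (a (b (c (l 16767528) (l 16774952)) (c (b (l 16768904) (l 16769888)) (b (l 16776712) (a (l 16776272) (l 16779648))))) (c (b (l 16773088) (a (l 16773744) (l 16776728))) (b (l 16781472) (c (b (l 16781144) (l 16782464)) (a (l 16795240) (b (l 16787600) (l 16789080))))))))))), by decide +kernel⟩

def k52_pm_123_a : ∃ t, chk3 f_pm_123_a t 25 31 3 = true :=
  ⟨(a (b (a (b (l 16796000) (a (l 16775720) (l 16781304))) (b (l 16806536) (c (l 16785432) (l 16816176)))) (c (a (b (a (l 16775680) (l 16781344)) (b (a (l 16778896) (l 16784944)) (a (a (l 16790248) (b (l 16782216) (l 16783504))) (c (l 16795584) (b (l 16789456) (l 16790888)))))) (b (a (l 16787240) (l 16793344)) (a (b (l 16791192) (c (l 16791352) (b (l 16796088) (l 16797632)))) (b (l 16797608) (a (l 16809504) (l 16802360)))))) (a (b (a (l 16784232) (l 16811784)) (b (a (b (l 16787528) (l 16788936)) (a (l 16793432) (l 16796960))) (c (a (a (l 16786864)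 (l 16790304)) (a (l 16793792) (l 16797320))) (a (b (l 16793016) (a (l 16792752) (l 16796456))) (b (l 16800400) (a (l 16800208) (l 16804000))))))) (b (a (l 16818576) (l 16825552)) (a (b (c (l 16799424) (l 16805312)) (c (a (l 16800888) (l 16804496)) (b (l 16807944) (a (l 16807832) (l 16811688))))) (b (c (l 16806496) (l 16812832)) (c (b (l 16809072) (l 16810856)) (b (l 16815616) (a (l 16815568) (l 16819480)))))))))) (c (b (a (b (l 16792152) (l 16797152)) (a (l 16803568) (l 16809752))) (a (b (a (l 16799624) (l 16806048)) (a (b (l 16804176) (a (l 16805736) (l 16809144))) (b (l 16810872) (b (l 16813416) (l 16815168))))) (b (b (l 16814272) (l 16817600)) (a (a (l 16828192) (l 16821152)) (b (l 16824552) (l 16828192)))))) (b (b (a (l 16802584) (l 16815880)) (a (l 16829592) (l 16843624))) (b (a (a (l 16832680) (l 16818960)) (a (l 16826320) (l 16833752))) (a (a (b (l 16827528) (a (b (l 16817952) (l 16819864)) (b (l 16821752) (l 16823704)))) (b (l 16824552) (a (l 16837048) (l 16830416)))) (a (b (l 16832136) (a (l 16834272) (l 16838144)))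 (b (l 16839808) (l 16843944)))))))), by decide +kernel⟩

def k53_pm_123_a : ∃ t, chk3 f_pm_123_a t 13 14 1 = true :=
  ⟨(a (b (a (b (l 16797024) (l 16805176)) (b (l 16766904) (a (l 16803880) (l 16811256)))) (a (b (b (l 16793312) (l 16794112)) (a (l 16770928) (l 16778888))) (c (b (l 16800968) (l 16783224)) (b (l 16819856) (a (l 16820288) (l 16832128)))))) (b (b (a (a (l 16817208) (l 16823688)) (a (l 16825928) (l 16823520))) (a (a (b (l 16820304) (l 16821312)) (b (l 16828736) (l 16831176))) (a (b (l 16832272) (l 16816024)) (l 16791376)))) (b (a (a (l 16803848) (l 16772696)) (a (l 16757824) (l 16820200))) (a (a (c (l 16818648) (l 16844744)) (c (l 16827928) (l 16856032))) (a (c (l 16833616) (l 16861800)) (l 16804616)))))), by decide +kernel⟩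

def k54_pm_123_a : ∃ t, chk3 f_pm_123_a t 26 15 1 = true :=
  ⟨(a (b (c (b (a (l 16786248) (l 16794832)) (a (b (l 16790064) (l 16793880)) (b (l 16799632) (l 16804040)))) (b (a (l 16783360) (l 16794832)) (a (b (l 16810808) (l 16816496)) (b (l 16823216) (l 16829480))))) (b (b (a (c (l 16798272) (l 16801800)) (c (l 16809056) (l 16825856))) (a (a (c (l 16800472) (l 16826144)) (c (l 16806064) (l 16833152))) (c (a (l 16811560) (l 16816984)) (a (l 16840000) (l 16846720))))) (b (a (c (c (b (l 16801312) (l 16803912)) (b (l 16813736) (l 16816768))) (a (b (l 16831536) (l 16835328)) (b (l 16838600) (l 16842296)))) (c (a (l 16817016) (l 16822112)) (a (l 16847248) (l 16853560)))) (a (c (a (c (b (l 16803912) (l 16806648)) (b (l 16816872) (l 16820024))) (c (l 16810472) (l 16824256))) (a (c (b (l 16831344) (l 16834952)) (b (l 16847336) (l 16851432))) (c (l 16839616) (l 16856544)))) (c (c (b (l 16816432) (l 16818760)) (b (l 16830880) (l 16833592))) (c (a (l 16845648) (l 16851272)) (a (l 16863216) (l 16869448)))))))) (a (b (b (c (l 16804224)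 (l 16807016)) (c (b (l 16809952) (l 16814672)) (c (l 16832232) (l 16826272)))) (b (c (b (l 16819464) (l 16824488)) (b (l 16849304) (l 16856016))) (c (c (b (l 16821872) (l 16826016)) (b (l 16836824) (l 16841664))) (c (b (l 16853384) (l 16858976)) (b (l 16871568) (l 16898944)))))) (b (b (c (l 16848456) (l 16840840)) (c (l 16802648) (b (l 16849032) (l 16855312)))) (b (c (b (l 16829128) (l 16833336)) (c (l 16855376) (l 16873416))) (c (c (b (l 16829648) (l 16833208)) (b (l 16845512) (l 16849688))) (c (l 16852440) (a (l 16882696) (l 16887408)))))))), by decide +kernel⟩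

def k55_pm_123_a : ∃ t, chk3 f_pm_123_a t 27 15 1 = true :=
  ⟨(a (c (b (b (a (l 16803232) (l 16832792)) (a (l 16810688) (l 16838616))) (b (a (b (l 16837296) (l 16840888)) (l 16823696)) (a (b (l 16823328) (a (l 16846096) (l 16848808))) (b (l 16848680) (l 16830376))))) (b (a (b (b (l 16851016) (l 16855512)) (a (l 16860936) (l 16866096))) (b (l 16863152) (l 16818832))) (c (a (b (l 16864592) (c (l 16847120) (l 16856856))) (b (l 16870168) (l 16855936))) (a (b (l 16883600) (a (l 16891704) (l 16895168))) (b (l 16889192) (b (l 16895008) (l 16898792))))))) (a (c (b (b (l 16837400) (l 16842296)) (b (a (l 16847096) (l 16847544)) (b (l 16830144) (l 16843200)))) (b (b (l 16846368) (l 16832096)) (b (a (l 16839144) (l 16859440)) (c (l 16878176) (l 16886776))))) (c (b (b (l 16837872) (l 16842552)) (b (l 16827112) (b (l 16852288) (l 16855440)))) (b (b (l 16865608) (l 16851080)) (b (l 16858328) (c (l 16877872) (l 16895776))))))), by decide +kernel⟩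

def k56_pm_123_a : ∃ t, chk3 f_pm_123_a t 14 6 1 = true :=
  ⟨(a (b (a (b (l 16768360) (b (l 16788928) (b (l 16769208) (l 16758840)))) (b (a (l 16784000) (l 16782776)) (a (l 16786568) (l 16787112)))) (a (b (b (l 16771776) (l 16776856)) (b (l 16782928) (l 16791056))) (b (b (a (l 16769264) (l 16770448)) (l 16774312)) (a (l 16763928) (l 16783824))))) (b (a (b (a (l 16782328) (l 16782384)) (l 16787784)) (b (a (l 16781664) (c (l 16770480) (l 16779408))) (a (l 16787816) (l 16786088)))) (a (b (b (l 16792008) (a (l 16773584) (l 16794792))) (a (l 16781848) (c (l 16778704) (l 16778720)))) (b (a (l 16792456) (l 16790232)) (b (a (b (l 16794336) (l 16795784)) (l 16772480)) (a (l 16799896) (c (l 16797192) (l 16796032)))))))), by decide +kernel⟩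

def k57_pm_123_a : ∃ t, chk3 f_pm_123_a t 14 7 1 = true :=
  ⟨(b (a (b (a (b (l 16778544) (l 16787488)) (b (l 16795248) (b (l 16821024) (l 16782400)))) (a (c (b (l 16828384) (l 16811872)) (b (l 16848816) (l 16855544))) (c (b (l 16782568) (l 16830056)) (b (l 16840808) (l 16848520))))) (a (b (c (a (l 16789744) (l 16787168)) (a (l 16797648) (l 16793208))) (b (c (l 16777104) (a (l 16833312) (l 16828056))) (c (l 16825736) (a (l 16842120) (l 16838288))))) (b (c (l 16815048) (b (l 16773024) (c (l 16789056) (l 16812728)))) (b (a (l 16803608) (l 16816568)) (c (l 16822872) (a (l 16835416) (l 16831880))))))) (b (a (a (b (c (l 16795016) (l 16861376)) (c (a (l 16842456) (l 16842128)) (a (l 16869768) (l 16867304)))) (c (b (l 16792888) (a (l 16841992) (l 16841824))) (b (l 16855048) (l 16864112)))) (a (c (b (l 16833544) (l 16830800)) (b (l 16849984) (l 16817784))) (a (b (l 16837512) (l 16825280)) (b (l 16834288) (l 16820488))))) (a (a (b (c (a (l 16848576) (l 16849272)) (a (l 16877648) (l 16876304))) (c (a (b (l 16853608) (l 16857120))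 (b (l 16854824) (l 16858592))) (b (l 16862576) (l 16846048)))) (a (b (c (l 16849872) (l 16874944)) (b (l 16800320) (b (l 16808688) (l 16810696)))) (b (c (l 16850360) (l 16873552)) (b (l 16825880) (l 16808752))))) (a (c (b (a (l 16849920) (l 16848432)) (a (l 16856728) (l 16854016))) (b (b (l 16839088) (l 16815736)) (a (l 16808792) (b (l 16850352) (l 16828360))))) (b (c (l 16822440) (b (l 16795560) (l 16794256))) (b (a (l 16786376) (l 16786648)) (c (l 16848368) (a (l 16797384) (l 16809304))))))))), by decide +kernel⟩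

def k58_pm_123_a : ∃ t, chk3 f_pm_123_a t 30 6 1 = true :=
  ⟨(b (b (a (a (b (a (b (l 117809573831) (l 16776464)) (b (l 4) (l 117272699415))) (a (l 16780040) (l 16777072))) (b (l 4) (a (a (l 87207933655) (a (l 100092831575) (l 105461536023))) (c (l 254711677879) (l 235384325287))))) (l 4)) (b (a (a (l 16782160) (a (l 16779936) (a (l 16777456) (l 72175553143)))) (a (c (a (b (l 179012845031) (l 156464329079)) (l 315914959447)) (a (b (l 243437392039) (l 16775144)) (l 303566928231))) (l 4))) (a (a (l 16784584) (l 16770848)) (a (a (l 16778760) (b (c (l 172570458487) (l 105998416503)) (l 16777448))) (a (b (l 4) (c (a (l 16774584) (l 227331239223)) (a (l 16774944) (l 314304354775)))) (l 4)))))) (a (a (b (l 16787776) (b (l 16790528) (c (l 16774728) (l 16794000)))) (b (c (l 16785784) (l 16784376)) (b (l 16767432) (l 16793928)))) (b (a (c (b (l 16780928) (l 16783664)) (b (l 16779960) (l 16782584))) (b (a (c (l 98482275687) (l 16777648)) (b (c (l 310009407799) (l 294977001399)) (a (l 16776920) (a (l 162369885751) (l 136063193751)))))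 (a (l 16780824) (a (l 16779456) (l 16778440))))) (a (b (l 16786176) (l 16791352)) (b (c (l 16783920) (l 16783224)) (c (l 16789136) (l 16788520))))))), by decide +kernel⟩

def k59_pm_123_a : ∃ t, chk3 f_pm_123_a t 30 7 1 = true :=
  ⟨(b (a (b (a (b (l 16779008) (l 16805280)) (b (c (l 16797848) (l 16797128)) (l 16803256))) (a (b (l 16814032) (c (l 16819008) (l 16827224))) (b (l 16810776) (l 16818112)))) (b (a (b (c (l 16797224) (l 16796480)) (a (l 16801384) (l 16799800))) (b (a (l 16794504) (l 16792736)) (a (b (l 16797248) (l 16799096)) (b (l 16795480) (l 16796640))))) (a (b (l 16807040) (l 16812624)) (b (l 16802176) (l 16783192))))) (b (b (a (a (l 16792536) (b (l 16822304) (l 16823528))) (b (a (l 16814048) (l 16806128)) (a (c (l 16814240) (l 16812528)) (a (l 16809328) (l 16805408))))) (a (a (l 16789464) (c (l 16824872) (l 16817952))) (a (c (l 16817736) (l 16779328)) (c (l 16809664) (a (l 16805856) (l 16802880)))))) (b (a (a (a (l 16790448) (l 16780680)) (b (l 16779736) (c (l 16826600) (l 16794648)))) (c (a (l 16817640)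 (l 16809320)) (a (a (l 16789696) (l 16786328)) (a (l 16783080) (l 16779960))))) (c (a (a (l 16836528) (l 16806008)) (a (b (l 16817856) (l 16818128)) (a (l 16790600) (b (l 16807416) (l 16807568))))) (b (a (a (l 16801552) (l 16793976)) (a (l 16786952) (c (l 16782600) (l 16778224)))) (a (a (l 16801072) (l 16782952)) (a (a (l 16809064) (l 16805672)) (a (l 16781440) (b (l 16799424) (l 16799152)))))))))), by decide +kernel⟩

def k60_pm_123_a : ∃ t, chk3 f_pm_123_a t 31 6 1 = true :=
  ⟨(b (l 4) (a (a (b (a (c (b (b (l 4) (l 434563434855)) (b (a (l 16775464) (l 256859138647)) (l 16782368))) (b (l 429731602167) (b (a (l 16775704) (l 383023832471)) (l 16777584)))) (b (l 4) (a (b (l 4) (c (l 248269228151) (l 241289886679))) (l 4)))) (b (b (a (l 16779224) (a (l 16777008) (c (l 233773715607) (b (l 275112758519) (l 16775608))))) (a (l 16781768) (a (l 16778952) (l 16776768)))) (a (l 16784720) (c (l 16780248) (l 16780416))))) (b (l 4) (a (b (b (l 4) (a (c (l 239142443959) (a (l 16775520) (l 220888800167))) (c (l 414162342727) (l 467849433223))))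 (a (c (l 16756248) (l 16777312)) (b (c (l 191897802583) (l 224110058295)) (l 16776368)))) (b (l 4) (a (b (c (l 423289148375) (l 467312562359)) (c (l 195655899655) (l 200487738647))) (b (l 4) (c (l 447985210727) (l 462480724519)))))))) (l 4))), by decide +kernel⟩

def k61_pm_123_a : ∃ t, chk3 f_pm_123_a t 62 7 1 = true :=
  ⟨(a (b (b (a (b (l 16788736) (a (l 16794144) (l 16792288))) (b (l 16779312) (l 16789392))) (b (a (l 16795872) (a (l 16792520) (l 16800752))) (a (l 16797872) (l 16793856)))) (b (b (a (l 16800968) (a (l 16798080) (l 16796160))) (b (c (l 16801728) (a (l 16800248) (l 16796808))) (c (l 16801696) (l 16797768)))) (c (a (b (l 16803408) (b (l 16803448) (l 16782632))) (b (l 16799552) (b (l 16799632) (b (l 16799736) (l 16778880))))) (b (b (l 16775928) (a (l 16797568) (l 16773680))) (a (b (l 16775896) (b (l 16796432) (l 16796184))) (b (l 16778280) (b (l 16793600) (a (l 16794064) (l 16792704))))))))) (b (b (a (a (b (l 16781648) (l 16786616)) (b (l 16779808) (l 16784872))) (b (a (c (l 16778008) (l 16778048)) (b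 (a (l 16775768) (b (l 148948099527) (l 16775696))) (l 16777632))) (a (l 16783184) (c (l 16781496) (l 16781344))))) (a (a (b (l 16798608) (l 16790896)) (b (l 16786400) (l 16789256))) (b (c (l 16784328) (l 16784384)) (b (a (l 16786352) (l 16784440)) (a (l 16787832) (l 16786168)))))) (b (b (a (l 16793296) (c (l 16789872) (l 16789080))) (b (a (l 16784152) (l 16791072)) (a (c (l 16796216) (l 16793568)) (a (l 16801488) (c (l 16791320) (l 16789512)))))) (b (a (b (l 16776024) (b (l 16773104) (l 16772944))) (b (c (l 16792384) (l 16789840)) (c (l 16792360) (b (l 16768392) (l 16768096))))) (c (a (b (l 16795952) (a (l 16786544) (l 16784744))) (b (c (l 16793240) (l 16781072)) (b (l 16782056) (a (l 16783024) (l 16781272))))) (b (a (a (l 16791936) (l 16790616)) (a (l 16778840) (l 16777576))) (a (b (l 16780448) (a (l 16791376) (l 16790080))) (c (b (l 16789496) (l 16784136)) (b (l 16787216) (a (l 16787496) (l 16786384))))))))))), by decide +kernel⟩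

def k62_pm_123_a : ∃ t, chk3 f_pm_123_a t 63 7 1 = true :=
  ⟨(b (b (a (a (b (a (a (b (b (l 4) (l 151632454583)) (l 16776328)) (b (l 4) (b (l 154853680279) (l 16776392)))) (a (b (l 4) (c (l 314841210151) (l 468923179559))) (l 4))) (a (c (l 16779440) (l 16779296)) (b (a (l 16777368) (b (a (l 16775744) (l 4)) (l 16776752))) (l 16777792)))) (b (l 4) (a (a (b (b (l 4) (l 175254781079)) (l 16781872)) (b (l 4) (a (l 116199009703) (a (l 117272721031) (l 199413968423))))) (b (l 4) (l 4))))) (l 4)) (a (a (a (b (l 16782072) (b (l 16783184) (b (l 16783656) (l 16784608)))) (b (c (l 16780536) (l 16780624)) (l 6))) (b (a (c (l 16779040) (l 16779136)) (b (a (a (l 16776992) (l 123715202535)) (b (l 4) (l 6))) (l 6))) (l 6))) (b (b (l 4) (l 6)) (l 6)))) (a (a (a (a (b (a (b (l 16787344) (l 16794288)) (l 6)) (b (b (l 16789208) (l 16778456)) (a (a (b (l 16775952) (c (l 16780256) (l 16792208))) (l 6)) (l 6)))) (l 6)) (l 6)) (l 6)) (l 6))), by decide +kernel⟩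

theorem s63_pm_123_a : ∃ t, chk3 f_pm_123_a t 31 7 1 = true := ex3_a k61_pm_123_a k62_pm_123_a

theorem s64_pm_123_a : ∃ t, chk3 f_pm_123_a t 31 3 1 = true := ex3_b k60_pm_123_a s63_pm_123_a

theorem s65_pm_123_a : ∃ t, chk3 f_pm_123_a t 30 3 1 = true := ex3_b k58_pm_123_a k59_pm_123_a

theorem s66_pm_123_a : ∃ t, chk3 f_pm_123_a t 15 3 1 = true := ex3_a s65_pm_123_a s64_pm_123_a

theorem s67_pm_123_a : ∃ t, chk3 f_pm_123_a t 14 3 1 = true := ex3_b k56_pm_123_a k57_pm_123_a

theorem s68_pm_123_a : ∃ t, chk3 f_pm_123_a t 7 3 1 = true := ex3_a s67_pm_123_a s66_pm_123_a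

theorem s69_pm_123_a : ∃ t, chk3 f_pm_123_a t 13 15 1 = true := ex3_a k54_pm_123_a k55_pm_123_a

theorem s70_pm_123_a : ∃ t, chk3 f_pm_123_a t 13 7 1 = true := ex3_b k53_pm_123_a s69_pm_123_a

theorem s71_pm_123_a : ∃ t, chk3 f_pm_123_a t 12 31 3 = true := ex3_a k51_pm_123_a k52_pm_123_a

theorem s72_pm_123_a : ∃ t, chk3 f_pm_123_a t 12 31 2 = true := ex3_a k49_pm_123_a k50_pm_123_a

theorem s73_pm_123_a : ∃ t, chk3 f_pm_123_a t 12 31 1 = true := ex3_c s72_pm_123_a s71_pm_123_a

theorem s74_pm_123_a : ∃ t, chk3 f_pm_123_a t 12 15 1 = true := ex3_b k48_pm_123_a s73_pm_123_a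

theorem s75_pm_123_a : ∃ t, chk3 f_pm_123_a t 12 7 1 = true := ex3_b k47_pm_123_a s74_pm_123_a

theorem s76_pm_123_a : ∃ t, chk3 f_pm_123_a t 6 7 1 = true := ex3_a s75_pm_123_a s70_pm_123_a

theorem s77_pm_123_a : ∃ t, chk3 f_pm_123_a t 6 3 1 = true := ex3_b k46_pm_123_a s76_pm_123_a

theorem s78_pm_123_a : ∃ t, chk3 f_pm_123_a t 3 3 1 = true := ex3_a s77_pm_123_a s68_pm_123_a

theorem s79_pm_123_a : ∃ t, chk3 f_pm_123_a t 6 4 1 = true := ex3_a k42_pm_123_a k43_pm_123_a

theorem s80_pm_123_a : ∃ t, chk3 f_pm_123_a t 3 4 1 = true := ex3_a s79_pm_123_a k44_pm_123_a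

theorem s81_pm_123_a : ∃ t, chk3 f_pm_123_a t 3 2 1 = true := ex3_b s80_pm_123_a k45_pm_123_a

theorem s82_pm_123_a : ∃ t, chk3 f_pm_123_a t 3 1 1 = true := ex3_b s81_pm_123_a s78_pm_123_a

theorem s83_pm_123_a : ∃ t, chk3 f_pm_123_a t 23 127 1 = true := ex3_c k40_pm_123_a k41_pm_123_a

theorem s84_pm_123_a : ∃ t, chk3 f_pm_123_a t 23 63 1 = true := ex3_b k39_pm_123_a s83_pm_123_a

theorem s85_pm_123_a : ∃ t, chk3 f_pm_123_a t 23 31 1 = true := ex3_b k38_pm_123_a s84_pm_123_a

theorem s86_pm_123_a : ∃ t, chk3 f_pm_123_a t 23 15 1 = true := ex3_b k37_pm_123_a s85_pm_123_a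

theorem s87_pm_123_a : ∃ t, chk3 f_pm_123_a t 23 7 1 = true := ex3_b k36_pm_123_a s86_pm_123_a

theorem s88_pm_123_a : ∃ t, chk3 f_pm_123_a t 23 3 1 = true := ex3_b k35_pm_123_a s87_pm_123_a

theorem s89_pm_123_a : ∃ t, chk3 f_pm_123_a t 91 63 3 = true := ex3_a k33_pm_123_a k34_pm_123_a

theorem s90_pm_123_a : ∃ t, chk3 f_pm_123_a t 91 31 3 = true := ex3_b k32_pm_123_a s89_pm_123_a

theorem s91_pm_123_a : ∃ t, chk3 f_pm_123_a t 91 31 1 = true := ex3_c k31_pm_123_a s90_pm_123_a

theorem s92_pm_123_a : ∃ t, chk3 f_pm_123_a t 90 127 3 = true := ex3_a k29_pm_123_a k30_pm_123_a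

theorem s93_pm_123_a : ∃ t, chk3 f_pm_123_a t 90 127 1 = true := ex3_c k28_pm_123_a s92_pm_123_a

theorem s94_pm_123_a : ∃ t, chk3 f_pm_123_a t 90 63 1 = true := ex3_b k27_pm_123_a s93_pm_123_a

theorem s95_pm_123_a : ∃ t, chk3 f_pm_123_a t 90 31 1 = true := ex3_b k26_pm_123_a s94_pm_123_a

theorem s96_pm_123_a : ∃ t, chk3 f_pm_123_a t 45 31 1 = true := ex3_a s95_pm_123_a s91_pm_123_a

theorem s97_pm_123_a : ∃ t, chk3 f_pm_123_a t 45 15 1 = true := ex3_b k25_pm_123_a s96_pm_123_a

theorem s98_pm_123_a : ∃ t, chk3 f_pm_123_a t 44 31 3 = true := ex3_c k23_pm_123_a k24_pm_123_a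

theorem s99_pm_123_a : ∃ t, chk3 f_pm_123_a t 44 15 3 = true := ex3_b k22_pm_123_a s98_pm_123_a

theorem s100_pm_123_a : ∃ t, chk3 f_pm_123_a t 44 15 2 = true := ex3_a k20_pm_123_a k21_pm_123_a

theorem s101_pm_123_a : ∃ t, chk3 f_pm_123_a t 44 15 1 = true := ex3_c s100_pm_123_a s99_pm_123_a

theorem s102_pm_123_a : ∃ t, chk3 f_pm_123_a t 22 15 1 = true := ex3_a s101_pm_123_a s97_pm_123_a

theorem s103_pm_123_a : ∃ t, chk3 f_pm_123_a t 22 7 1 = true := ex3_b k19_pm_123_a s102_pm_123_a

theorem s104_pm_123_a : ∃ t, chk3 f_pm_123_a t 22 3 1 = true := ex3_b k18_pm_123_a s103_pm_123_a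

theorem s105_pm_123_a : ∃ t, chk3 f_pm_123_a t 11 3 1 = true := ex3_a s104_pm_123_a s88_pm_123_a

theorem s106_pm_123_a : ∃ t, chk3 f_pm_123_a t 11 1 1 = true := ex3_b k17_pm_123_a s105_pm_123_a

theorem s107_pm_123_a : ∃ t, chk3 f_pm_123_a t 21 31 1 = true := ex3_a k15_pm_123_a k16_pm_123_a

theorem s108_pm_123_a : ∃ t, chk3 f_pm_123_a t 21 15 1 = true := ex3_b k14_pm_123_a s107_pm_123_a

theorem s109_pm_123_a : ∃ t, chk3 f_pm_123_a t 21 7 1 = true := ex3_b k13_pm_123_a s108_pm_123_a

theorem s110_pm_123_a : ∃ t, chk3 f_pm_123_a t 40 31 1 = true := ex3_a k10_pm_123_a k11_pm_123_a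

theorem s111_pm_123_a : ∃ t, chk3 f_pm_123_a t 20 31 1 = true := ex3_a s110_pm_123_a k12_pm_123_a

theorem s112_pm_123_a : ∃ t, chk3 f_pm_123_a t 20 15 1 = true := ex3_b k9_pm_123_a s111_pm_123_a

theorem s113_pm_123_a : ∃ t, chk3 f_pm_123_a t 20 7 1 = true := ex3_b k8_pm_123_a s112_pm_123_a

theorem s114_pm_123_a : ∃ t, chk3 f_pm_123_a t 10 7 1 = true := ex3_a s113_pm_123_a s109_pm_123_a

theorem s115_pm_123_a : ∃ t, chk3 f_pm_123_a t 10 3 1 = true := ex3_b k7_pm_123_a s114_pm_123_a

theorem s116_pm_123_a : ∃ t, chk3 f_pm_123_a t 10 1 1 = true := ex3_b k6_pm_123_a s115_pm_123_a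

theorem s117_pm_123_a : ∃ t, chk3 f_pm_123_a t 5 1 1 = true := ex3_a s116_pm_123_a s106_pm_123_a

theorem s118_pm_123_a : ∃ t, chk3 f_pm_123_a t 9 15 1 = true := ex3_b k4_pm_123_a k5_pm_123_a

theorem s119_pm_123_a : ∃ t, chk3 f_pm_123_a t 9 7 1 = true := ex3_b k3_pm_123_a s118_pm_123_a

theorem s120_pm_123_a : ∃ t, chk3 f_pm_123_a t 4 7 1 = true := ex3_a k2_pm_123_a s119_pm_123_a

theorem s121_pm_123_a : ∃ t, chk3 f_pm_123_a t 4 3 1 = true := ex3_b k1_pm_123_a s120_pm_123_a

theorem s122_pm_123_a : ∃ t, chk3 f_pm_123_a t 4 1 1 = true := ex3_b k0_pm_123_a s121_pm_123_a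

theorem s123_pm_123_a : ∃ t, chk3 f_pm_123_a t 2 1 1 = true := ex3_a s122_pm_123_a s117_pm_123_a

theorem s124_pm_123_a : ∃ t, chk3 f_pm_123_a t 1 1 1 = true := ex3_a s123_pm_123_a s82_pm_123_a

theorem c_pm_123_a : CertB 536870912 536870912 0 536870912 697932185 42949674 3 eng mog cd0q1 cd1q2a pd3 true true false .npn 1 2 3
    ndB0q1 ndB1q2a pcB3 cut_pm_123_a xt_pm_123_a :=
  certB2 (fam := true) (s1 := true) (s2 := false) (a := 1) (b := 2) (c := 3) (cn := .npn) (n1 := ndB0q1) (n2 := ndB1q2a) (pc := pcB3) (cut := cut_pm_123_a) (xt := xt_pm_123_a) (P1 := 536870912) (W1 := 536870912) (P2 := 0) (W2 := 536870912) (P3 := 697932185) (W3 := 42949674) (N0 := 3) (En := eng) (mo := mog) (C1 := cd0q1) (C2 := cd1q2a) (C3 := pd3)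
    rfl (fun _ => rfl) s124_pm_123_a

noncomputable def cut_pm_123_b : Cut := Cut.of [[⟨0, 1, 0, 67108864⟩, ⟨1, 1, 0, 67108864⟩, ⟨2, 2, 0, 16777216⟩], [⟨0, 0, 1, 20971520⟩, ⟨1, 1, 0, 33554432⟩, ⟨2, 1, 1, 20971520⟩]]

noncomputable def f_pm_123_b : ℕ → ℕ → ℕ → ℕ → Bool := onCell 1610612736 536870912 1239849684 370763052 697932185 42949674
    (rowB 3 eng mog cd0q1 cd1q2b pd3 2 true true false .npn 1 2 3 (qsf 536870912 536870912 1239849684 370763052 3) ndB0q1 ndB1q2b pcB3 cut_pm_123_b Ext.none)

def k0_pm_123_b : ∃ t, chk3 f_pm_123_b t 1 1 1 = true :=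
  ⟨(a (b (a (l 1) (b (a (b (b (a (a (l 1) (l 16694712)) (a (l 16710120) (l 16722592))) (a (l 1) (l 16696504))) (l 1)) (b (b (a (a (l 16733432) (l 16742704)) (a (l 16771544) (b (l 16762936) (l 16751160)))) (a (l 16715896) (a (l 16734032) (l 16745424)))) (a (b (l 16709256) (l 1)) (l 16724816)))) (a (l 1) (b (a (l 1) (l 16715128)) (l 1))))) (l 1)) (a (b (a (b (a (b (b (a (b (b (l 16780448) (l 16764024)) (l 16760136)) (b (a (b (l 16782336) (l 16769440)) (b (a (l 16779392) (b (l 137673832631) (l 4))) (l 136063221607))) (l 128010162599))) (a (l 16753680) (l 16779520))) (b (l 108682868919) (l 4))) (l 4)) (l 4)) (l 4)) (l 4)) (l 4))), by decide +kernel⟩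

theorem c_pm_123_b : CertB 536870912 536870912 1239849684 370763052 697932185 42949674 3 eng mog cd0q1 cd1q2b pd3 true true false .npn 1 2 3
    ndB0q1 ndB1q2b pcB3 cut_pm_123_b Ext.none :=
  certB2 (fam := true) (s1 := true) (s2 := false) (a := 1) (b := 2) (c := 3) (cn := .npn) (n1 := ndB0q1) (n2 := ndB1q2b) (pc := pcB3) (cut := cut_pm_123_b) (xt := Ext.none) (P1 := 536870912) (W1 := 536870912) (P2 := 1239849684) (W2 := 370763052) (P3 := 697932185) (W3 := 42949674) (N0 := 3) (En := eng) (mo := mog) (C1 := cd0q1) (C2 := cd1q2b) (C3 := pd3)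
    rfl (fun _ => rfl) k0_pm_123_b

noncomputable def f_pm_133 : ℕ → ℕ → ℕ → ℕ → Bool := onCell 536870912 536870912 1610612736 536870912 697932185 42949674
    (rowB 3 eng mog cd0q1 cd1q3 pd3 0 true true false .dn 1 3 3 (qsf 536870912 536870912 1610612736 536870912 3) ndB0q1 ndB1q3 pcB3 Cut.none Ext.none)

def k0_pm_133 : ∃ t, chk3 f_pm_133 t 1 1 1 = true :=
  ⟨(l 4), by decide +kernel⟩

theorem c_pm_133 : CertB 536870912 536870912 1610612736 536870912 697932185 42949674 3 eng mog cd0q1 cd1q3 pd3 true true false .dn 1 3 3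
    ndB0q1 ndB1q3 pcB3 Cut.none Ext.none :=
  certB0 (fam := true) (s1 := true) (s2 := false) (a := 1) (b := 3) (c := 3) (cn := .dn) (n1 := ndB0q1) (n2 := ndB1q3) (pc := pcB3) (cut := Cut.none) (xt := Ext.none) (P1 := 536870912) (W1 := 536870912) (P2 := 1610612736) (W2 := 536870912) (P3 := 697932185) (W3 := 42949674) (N0 := 3) (En := eng) (mo := mog) (C1 := cd0q1) (C2 := cd1q3) (C3 := pd3)
    rfl k0_pm_133

noncomputable def cut_pm_202 : Cut := Cut.of [[⟨0, 1, 0, 67108864⟩, ⟨1, 0, 0, 67108864⟩, ⟨2, 1, 0, 67108864⟩]]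

noncomputable def f_pm_202 : ℕ → ℕ → ℕ → ℕ → Bool := onCell 0 536870912 1073741824 536870912 697932185 42949674
    (rowB 3 eng mog cd0q2 cd1q0 pd2 1 true true false .pp 2 0 2 (qsf 0 536870912 0 536870912 2) ndB0q2 ndB1q0 pcB2 cut_pm_202 Ext.none)

def k0_pm_202 : ∃ t, chk3 f_pm_202 t 4 1 1 = true :=
  ⟨(b (b (l 1) (b (b (b (l 1) (a (a (l 16448080) (l 16449432)) (a (l 16454464) (c (l 16467208) (l 16458312))))) (c (a (b (a (b (l 16447264) (l 16444936)) (b (l 16450736) (l 16448128))) (a (l 16450608) (l 16453584))) (b (a (b (l 16455656) (l 16473736)) (b (l 16461264) (b (l 16458648) (l 16457496)))) (a (l 16458000) (b (l 16460704) (l 16465376))))) (a (b (a (l 16450152) (l 16454656)) (a (l 16454064) (l 16458152))) (a (b (l 16460488) (l 16463552)) (b (l 16487832) (l 16469504)))))) (b (b (a (a (l 16461768) (l 16464872)) (a (l 16469384) (c (l 16471648) (l 16472568)))) (a (a (l 16470344) (l 16468760)) (a (l 16470064) (l 16474408)))) (b (a (a (l 16472824) (l 16470424)) (a (l 16470840) (l 16474024))) (a (a (l 16476304) (l 16473144))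 (a (l 16472720) (a (l 16473976) (l 16475728)))))))) (b (b (a (b (a (b (a (l 16482448) (l 16480440)) (l 16490496)) (b (l 16478344) (l 16487208))) (a (b (l 16499760) (l 16509160)) (a (a (l 16502176) (l 16501368)) (l 16500168)))) (b (a (b (l 16477728) (l 16485944)) (b (l 16479760) (l 16486952))) (a (b (l 16494456) (l 16503120)) (b (l 16494464) (l 16502200))))) (a (b (a (l 16522952) (c (b (l 16516040) (l 16524592)) (l 16506000))) (a (l 16541320) (b (l 16531336) (l 16540928)))) (b (a (b (l 16511824) (l 16519976)) (b (l 16510056) (c (l 16519576) (l 16514472)))) (a (b (l 16527696) (l 16537024)) (b (l 16524416) (l 16533528)))))) (b (a (b (l 16604472) (l 16587736)) (b (a (b (l 16548312) (l 16559752)) (l 16549464)) (a (l 16577064) (l 16570880)))) (b (a (l 16612728) (l 16637912)) (a (l 16636016) (l 16616232)))))), by decide +kernel⟩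

def k1_pm_202 : ∃ t, chk3 f_pm_202 t 10 1 1 = true :=
  ⟨(b (b (l 1) (b (b (b (b (l 1) (a (l 16465208) (l 16480544))) (a (c (l 16411728) (l 16470224)) (c (l 16483872) (l 16484472)))) (c (b (a (b (l 16447240) (b (l 16465344) (l 16464040))) (b (l 16476952) (b (l 16473832) (l 16472384)))) (a (b (l 16467176) (l 16471752)) (a (l 16475424) (l 16480024)))) (b (a (b (l 16476656) (l 16472008)) (b (l 16485808) (l 16480856))) (a (l 16476520) (l 16485120))))) (b (b (a (c (l 16477824) (l 16480576)) (c (l 16485816) (l 16490800))) (a (l 16481264) (l 16437776))) (a (b (c (l 16482720) (l 16475536)) (b (l 16479168) (l 16480280))) (b (c (l 16490376) (l 16483072)) (c (l 16490552) (l 16483064))))))) (b (b (b (a (b (l 16484264) (l 16490192)) (b (l 16491008) (l 16495600))) (a (b (l 16496512) (l 16503128)) (b (l 16500640) (l 16506032)))) (b (b (a (l 16509936) (l 16511696)) (a (c (l 16518720) (l 16513288)) (b (l 16515904) (l 16518360)))) (a (b (l 16522784) (l 16531568)) (b (l 16523256) (l 16531472))))) (b (b (a (l 16546000) (l 16544248)) (l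 16563512)) (b (l 16581192) (l 16618248))))), by decide +kernel⟩

def k2_pm_202 : ∃ t, chk3 f_pm_202 t 11 1 1 = true :=
  ⟨(a (b (b (l 1) (b (b (b (c (l 16500608) (l 78952984839)) (c (l 16431952) (l 16500576))) (c (b (b (l 16487464) (b (l 16484096) (l 16503464))) (a (l 16485128) (l 16490168))) (b (b (l 16496704) (b (l 16492512) (l 16490416))) (l 16495464)))) (b (b (a (l 16496288) (l 16501232)) (a (l 16497968) (l 16503880))) (b (a (c (l 16497320) (l 16489920)) (l 16436760)) (c (l 16500416) (l 16493120)))))) (b (b (b (b (a (l 16497312) (l 16502128)) (l 16513480)) (a (l 16507136) (l 16510104))) (b (b (l 16515256) (b (l 16518624) (l 16520936))) (b (l 16525896) (l 16533184)))) (b (b (l 16544176) (l 16558816)) (l 16578736)))) (b (b (b (l 1) (b (l 1) (b (l 1) (b (l 1) (c (l 16511640) (l 16518296)))))) (b (b (a (b (b (l 16506864) (l 16513048)) (b (l 16510104) (b (l 16505392) (l 16502440)))) (b (l 16498048) (b (l 16516424) (b (l 16510992) (b (l 16508384) (l 16506704)))))) (b (b (a (l 16498232) (l 16397808)) (c (a (l 16489792)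 (l 16493552)) (a (l 16497928) (l 16501360)))) (c (a (l 16494136) (l 16497264)) (l 16503232)))) (b (b (c (l 16503168) (l 16510360)) (a (l 16510488) (l 16513096))) (b (a (l 16506008) (l 16513024)) (a (l 16505920) (l 16512088)))))) (b (b (a (b (b (l 16507104) (l 16508952)) (l 16512760)) (b (c (l 16514648) (l 16509248)) (l 16514912))) (b (b (l 16517768) (a (l 16521392) (l 16521536))) (b (l 16526824) (l 16532416)))) (b (b (l 16540800) (l 16551792)) (l 16566304))))), by decide +kernel⟩

def k3_pm_202 : ∃ t, chk3 f_pm_202 t 3 4 1 = true :=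
  ⟨(b (a (l 1) (a (b (l 1) (a (b (l 1) (b (l 1) (a (l 1) (l 78953296791)))) (b (l 6) (b (l 6) (a (l 16647752) (a (l 16660688) (l 16669208))))))) (b (l 6) (b (l 6) (b (l 6) (a (a (l 16681832) (l 16691328)) (b (l 6) (a (l 16690992) (l 16692264))))))))) (a (a (b (l 1) (b (a (a (l 1) (l 16537480)) (b (a (l 1) (l 16540232)) (a (l 16531968) (l 16544664)))) (c (a (a (l 16470616) (l 16533848)) (b (l 16548432) (l 16552152))) (a (b (l 16532840) (l 16539048)) (a (l 16532816) (l 16502872)))))) (b (a (b (l 1) (b (a (l 1) (l 16563408)) (a (l 16550608) (l 16587600)))) (b (b (l 1) (a (l 16578440) (l 16596568))) (a (b (l 16601920) (l 16583200)) (b (l 16598104) (l 16557440))))) (a (b (a (b (l 16554488) (l 16495160)) (c (l 16512760) (l 16565608))) (b (c (l 16572528) (l 16499992)) (l 16570560))) (b (a (b (l 16543256) (l 16586904)) (l 16600792)) (a (l 16588832) (l 16593832)))))) (a (b (a (a (b (b (l 16612936) (l 16613744)) (a (l 16547704) (l 16618296))) (b (b (l 16630216) (l 16588160)) (l 16629496))) (b (a (b (l 16636432) (l 16645888)) (l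 16662256)) (a (l 16643904) (l 16649024)))) (a (b (a (l 16614680) (l 16621128)) (a (l 16598232) (l 16602808))) (b (a (l 16625584) (l 16629608)) (a (l 16607264) (l 16611296))))) (a (b (b (a (l 16672784) (b (l 16680848) (l 16670544))) (a (l 16652488) (l 16676464))) (b (a (l 16633112) (l 16636176)) (a (l 16614824) (l 16617784)))) (b (a (b (b (l 16683208) (l 16672960)) (l 16678960)) (b (a (l 16679232) (l 16700520)) (a (l 16659208) (l 16659576)))) (a (b (l 16638736) (l 16640320)) (b (b (l 16644912) (l 16634848)) (b (l 16624120) (l 16613208))))))))), by decide +kernel⟩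

def k4_pm_202 : ∃ t, chk3 f_pm_202 t 6 5 1 = true :=
  ⟨(b (b (a (a (b (a (l 16528160) (l 16537840)) (b (l 16527976) (b (l 16522600) (c (b (l 16516104) (l 16514640)) (l 16524440))))) (b (a (l 16547592) (l 16557168)) (b (l 16542232) (b (l 16536904) (b (l 16534488) (l 16533112)))))) (a (b (c (l 16562720) (l 16569312)) (b (l 16554704) (b (l 16549416) (b (l 16547112) (l 16545928))))) (b (c (l 16572616) (l 16578200)) (b (l 16563408) (b (l 16558152) (b (l 16555968) (a (l 16552728) (l 16556904)))))))) (a (a (b (c (l 16539112) (b (l 16518856) (l 16511936))) (c (l 16506392) (l 16513040))) (b (c (l 16543520) (l 16529256)) (c (l 16519712) (l 16525424)))) (a (b (c (l 16535776) (l 16541200)) (c (l 16531336) (l 16535840))) (b (a (l 16565632) (l 16548736)) (l 16560816))))) (a (b (a (b (a (l 16510672) (l 16516048)) (l 16538224)) (b (l 16524328) (l 16525344))) (a (a (l 16519120) (l 16521328)) (l 16525536))) (b (a (b (l 16532760) (l 16531312)) (b (l 16536592) (l 16532896))) (a (l 16528520) (l 16527096))))), by decide +kernel⟩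

def k5_pm_202 : ∃ t, chk3 f_pm_202 t 7 5 1 = true :=
  ⟨(b (a (b (b (a (c (l 16582288) (l 16585592)) (a (l 16590304) (l 16594320))) (b (a (l 16571968) (l 16580328)) (b (a (l 16566768) (l 16574712)) (a (b (l 16564704) (l 16563888)) (b (l 16572400) (l 16571472)))))) (b (a (b (l 16558960) (l 16551088)) (b (l 16565920) (l 16557280))) (a (l 16545312) (l 16549920)))) (b (b (a (a (l 16597288) (l 16598944)) (a (l 16599152) (b (l 16602784) (l 16592912)))) (b (a (l 16584504) (a (l 16585000) (l 16583832))) (b (a (l 16578304) (a (l 16578872) (l 16577752))) (a (b (l 16575952) (a (l 16574488) (l 16575624))) (b (a (l 16576608) (l 16575544)) (b (b (a (l 16576880) (b (l 16575128) (l 16596744))) (l 16576072)) (l 16575200))))))) (b (a (a (l 16564472) (l 16586512)) (a (b (l 16570320) (l 16561400)) (b (l 16569320) (l 16602272)))) (a (l 16551960) (a (l 16551544) (l 16549768)))))) (a (a (b (l 16557592) (l 16524840)) (b (l 16558896) (l 16522024))) (a (b (a (l 16537200) (l 16535872)) (a (l 16518096) (l 16514328))) (b (a (l 16533768) (b (l 16536752)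 (l 16523760))) (a (l 16509488) (l 16523896)))))), by decide +kernel⟩

def k6_pm_202 : ∃ t, chk3 f_pm_202 t 3 3 1 = true :=
  ⟨(a (b (b (b (a (a (a (l 16516608) (l 16520528)) (l 16524432)) (a (l 16523848) (l 16518760))) (a (a (a (l 16516672) (l 16518168)) (l 16520200)) (a (l 16518184) (l 16509936)))) (a (b (a (b (l 16518512) (l 16510576)) (b (l 16518280) (l 16518632))) (a (l 16525904) (l 16519096))) (a (l 16553624) (l 16499248)))) (a (b (a (l 16534992) (l 16518632)) (l 16575728)) (b (a (l 16506360) (l 16488800)) (a (l 16498352) (l 16477896))))) (b (a (b (a (b (l 16512688) (l 16500400)) (b (l 16505672) (l 16489744))) (a (l 16548128) (b (l 16476096) (l 16464712)))) (b (a (b (l 16495368) (l 16475984)) (b (a (l 16485208) (l 16497728)) (a (l 16463456) (l 16453496)))) (a (b (l 16459464) (l 16445560)) (b (a (l 16444960) (l 16433800)) (l 16423408))))) (a (b (b (l 16464376) (l 16456184)) (a (l 16455664) (l 16433376))) (b (a (b (l 16433464) (l 16422592)) (b (l 16409384) (l 16397168))) (a (l 16409136) (l 16466736)))))), by decide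 +kernel⟩

theorem s7_pm_202 : ∃ t, chk3 f_pm_202 t 3 5 1 = true := ex3_a k4_pm_202 k5_pm_202

theorem s8_pm_202 : ∃ t, chk3 f_pm_202 t 3 2 1 = true := ex3_b k3_pm_202 s7_pm_202

theorem s9_pm_202 : ∃ t, chk3 f_pm_202 t 3 1 1 = true := ex3_b s8_pm_202 k6_pm_202

theorem s10_pm_202 : ∃ t, chk3 f_pm_202 t 5 1 1 = true := ex3_a k1_pm_202 k2_pm_202

theorem s11_pm_202 : ∃ t, chk3 f_pm_202 t 2 1 1 = true := ex3_a k0_pm_202 s10_pm_202

theorem s12_pm_202 : ∃ t, chk3 f_pm_202 t 1 1 1 = true := ex3_a s11_pm_202 s9_pm_202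

theorem c_pm_202 : CertB 0 536870912 0 536870912 697932185 42949674 3 eng mog cd0q2 cd1q0 pd2 true true false .pp 2 0 2
    ndB0q2 ndB1q0 pcB2 cut_pm_202 Ext.none :=
  certB1 (fam := true) (s1 := true) (s2 := false) (a := 2) (b := 0) (c := 2) (cn := .pp) (n1 := ndB0q2) (n2 := ndB1q0) (pc := pcB2) (cut := cut_pm_202) (xt := Ext.none) (P1 := 0) (W1 := 536870912) (P2 := 0) (W2 := 536870912) (P3 := 697932185) (W3 := 42949674) (N0 := 3) (En := eng) (mo := mog) (C1 := cd0q2) (C2 := cd1q0) (C3 := pd2)
    rfl (fun _ => rfl) s12_pm_202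

noncomputable def f_pm_203 : ℕ → ℕ → ℕ → ℕ → Bool := onCell 0 536870912 1610612736 536870912 697932185 42949674
    (rowB 3 eng mog cd0q2 cd1q0 pd3 1 true true false .up 2 0 3 (qsf 0 536870912 0 536870912 3) ndB0q2 ndB1q0 pcB3 Cut.none Ext.none)

def k0_pm_203 : ∃ t, chk3 f_pm_203 t 1 1 1 = true :=
  ⟨(b (a (b (a (b (b (a (l 16657376) (l 16635464)) (a (l 16667808) (l 16644264))) (b (a (l 16697360) (l 16667848)) (a (l 16725832) (l 16699496)))) (b (a (b (a (l 16617464) (l 16606384)) (l 16614576)) (b (l 16565208) (l 16576720))) (a (b (l 16639664) (l 16673760)) (a (l 16641016) (l 16628864))))) (b (a (a (b (l 16747624) (l 2)) (l 16735776)) (a (l 16693264) (b (a (l 16687440) (l 16675736)) (l 2)))) (l 2))) (a (b (b (a (b (l 16541696) (l 16544856)) (b (l 16463016) (l 16494328))) (a (l 16645136) (b (l 16533936) (l 16580912)))) (l 2)) (b (b (a (l 16623992) (a (l 16406000) (l 16385624))) (a (b (l 16486776) (l 2)) (l 2))) (l 2)))) (l 2)), by decide +kernel⟩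

theorem c_pm_203 : CertB 0 536870912 0 536870912 697932185 42949674 3 eng mog cd0q2 cd1q0 pd3 true true false .up 2 0 3
    ndB0q2 ndB1q0 pcB3 Cut.none Ext.none :=
  certB1 (fam := true) (s1 := true) (s2 := false) (a := 2) (b := 0) (c := 3) (cn := .up) (n1 := ndB0q2) (n2 := ndB1q0) (pc := pcB3) (cut := Cut.none) (xt := Ext.none) (P1 := 0) (W1 := 536870912) (P2 := 0) (W2 := 536870912) (P3 := 697932185) (W3 := 42949674) (N0 := 3) (En := eng) (mo := mog) (C1 := cd0q2) (C2 := cd1q0) (C3 := pd3)
    rfl (fun _ => rfl) k0_pm_203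

noncomputable def f_pm_213 : ℕ → ℕ → ℕ → ℕ → Bool := onCell 0 536870912 1610612736 536870912 697932185 42949674
    (rowB 3 eng mog cd0q2 cd1q1 pd3 1 true true false .pnn 2 1 3 (qsf 0 536870912 536870912 536870912 3) ndB0q2 ndB1q1 pcB3 Cut.none Ext.none)

def k0_pm_213 : ∃ t, chk3 f_pm_213 t 2 1 1 = true :=
  ⟨(b (b (a (l 1) (b (l 1) (a (l 1) (a (l 1) (l 16656648))))) (b (a (a (b (l 16759024) (l 16768000)) (l 16748456)) (a (l 16728040) (b (a (l 16703184) (l 16690728)) (l 16722272)))) (a (a (b (l 31373232775) (l 96334686247)) (b (l 16769976) (l 16778632))) (a (l 16771264) (b (l 16753088) (l 16786272)))))) (b (a (b (a (l 4) (b (l 50700786039) (b (l 93113372519) (l 4)))) (l 4)) (b (a (b (l 16796480) (l 16767408)) (b (l 16817200) (l 16805480))) (b (a (b (l 16751800) (l 124251873399)) (l 16776056)) (a (b (l 147874168615) (l 4)) (b (l 16738104) (l 16790528)))))) (b (a (l 4) (b (a (l 4) (b (l 124788948343) (l 4))) (l 4))) (l 4)))), by decide +kernel⟩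

def k1_pm_213 : ∃ t, chk3 f_pm_213 t 6 1 1 = true :=
  ⟨(b (b (b (l 1) (a (l 16625256) (a (l 16587160) (l 16559896)))) (b (b (a (b (l 16663344) (l 16673408)) (b (l 16630296) (l 16637736))) (a (l 16707040) (b (l 16673336) (l 16715248)))) (b (a (b (l 16758656) (l 16753840)) (b (b (a (l 16737632) (l 16746192)) (l 16734840)) (b (l 16726824) (l 16736880)))) (a (l 16794232) (l 16781760))))) (b (b (a (b (l 16851360) (l 16865608)) (b (l 16827432) (b (l 16851048) (l 16860792)))) (a (b (l 16825144) (l 16795344)) (a (b (l 16872544) (l 16845784)) (b (l 16867816) (b (l 16866872) (l 16857576)))))) (b (b (a (b (l 16777224) (l 16763368)) (a (l 16814704) (l 16841776))) (a (b (l 90429282663) (l 145190061031)) (b (l 16798424) (l 16780552)))) (b (a (l 4) (b (a (l 16749208) (l 16775696)) (a (l 4) (b (l 16760720) (l 4))))) (l 4))))), by decide +kernel⟩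

def k2_pm_213 : ∃ t, chk3 f_pm_213 t 14 1 1 = true :=
  ⟨(b (b (b (l 16625080) (a (l 16536752) (l 16517496))) (b (b (b (a (l 16611720) (l 16602336)) (a (l 16617664) (l 16613384))) (b (a (l 16667648) (l 16668920)) (a (a (l 16725072) (l 16734288)) (b (l 16722056) (l 16760544))))) (b (b (b (a (b (l 16768792) (l 16763584)) (b (c (l 16807432) (l 16770288)) (l 16784976))) (a (l 16745768) (c (l 16772296) (l 16736480)))) (b (a (b (l 16726400) (l 16708672)) (b (l 16727448) (l 16681384))) (a (l 16713128) (l 16705568)))) (a (l 16755064) (b (l 16731544) (l 16763600)))))) (b (b (a (b (l 16810032) (l 16849256)) (b (l 16806808) (l 16851264))) (b (a (l 16871200) (l 16878424)) (a (a (l 16867528) (l 16875120)) (a (l 16884552) (l 16895432))))) (b (a (b (l 16928344) (l 16817456)) (b (l 16866568) (l 16850816))) (b (b (a (l 16792984) (l 16801176)) (a (l 16776064) (l 16787104))) (b (a (b (l 16759496) (l 4)) (b (l 16776384) (b (l 16768744) (l 16760392)))) (l 4)))))), by decide +kernel⟩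

def k3_pm_213 : ∃ t, chk3 f_pm_213 t 15 1 1 = true :=
  ⟨(b (b (b (a (l 16421016) (b (l 16388104) (l 16412896))) (a (l 16501840) (b (l 16458288) (l 16530296)))) (b (b (b (a (l 16597128) (l 16599064)) (a (l 16616432) (l 16629984))) (a (b (l 16675592) (b (l 16731456) (l 16772312))) (b (l 16693904) (l 16743992)))) (b (b (b (a (b (l 16804192) (l 16793776)) (b (l 16788136) (l 16780320))) (a (c (l 16768872) (l 16757536)) (l 16761928))) (b (a (b (l 16733312) (l 16714664)) (b (l 16743912) (l 16732680))) (a (l 16719672) (l 16739784)))) (a (b (l 16744624) (l 16775128)) (b (l 16764352) (l 16793912)))))) (b (b (b (a (l 16815000) (l 16789520)) (a (l 16793600) (a (l 16866000) (l 16852480)))) (b (a (a (l 16887080) (l 16892224)) (l 16904808)) (a (a (l 16907440) (l 16910096)) (l 17060904)))) (a (b (b (l 16866056) (l 16832720)) (b (b (l 16809040) (l 16790608)) (b (b (l 16779184) (b (l 16777544) (l 16774360))) (b (b (l 290145238983) (l 463017622615)) (l 4))))) (b (b (l 16868952) (b (l 16840904) (l 16824072))) (b (b (l 16808640) (l 16792704))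 (b (b (l 16786440) (b (l 16779752) (l 16775760))) (b (a (b (l 16773320) (l 16764440)) (b (l 16773920) (l 16770328))) (b (l 492545582599) (b (l 808225578599) (l 4)))))))))), by decide +kernel⟩

theorem s4_pm_213 : ∃ t, chk3 f_pm_213 t 7 1 1 = true := ex3_a k2_pm_213 k3_pm_213

theorem s5_pm_213 : ∃ t, chk3 f_pm_213 t 3 1 1 = true := ex3_a k1_pm_213 s4_pm_213

theorem s6_pm_213 : ∃ t, chk3 f_pm_213 t 1 1 1 = true := ex3_a k0_pm_213 s5_pm_213

theorem c_pm_213 : CertB 0 536870912 536870912 536870912 697932185 42949674 3 eng mog cd0q2 cd1q1 pd3 true true false .pnn 2 1 3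
    ndB0q2 ndB1q1 pcB3 Cut.none Ext.none :=
  certB1 (fam := true) (s1 := true) (s2 := false) (a := 2) (b := 1) (c := 3) (cn := .pnn) (n1 := ndB0q2) (n2 := ndB1q1) (pc := pcB3) (cut := Cut.none) (xt := Ext.none) (P1 := 0) (W1 := 536870912) (P2 := 536870912) (W2 := 536870912) (P3 := 697932185) (W3 := 42949674) (N0 := 3) (En := eng) (mo := mog) (C1 := cd0q2) (C2 := cd1q1) (C3 := pd3)
    rfl (fun _ => rfl) s6_pm_213

noncomputable def f_mm_001 : ℕ → ℕ → ℕ → ℕ → Bool := onCell 0 536870912 0 536870912 697932185 42949674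
    (rowB 3 eng mog cd0q0 cd1q0 pd1 0 true false false .up 0 0 1 (qsf 0 536870912 0 536870912 1) ndB0q0 ndB1q0 pcB1 Cut.none Ext.none)

def k0_mm_001 : ∃ t, chk3 f_mm_001 t 1 1 1 = true :=
  ⟨(l 4), by decide +kernel⟩

theorem c_mm_001 : CertB 0 536870912 0 536870912 697932185 42949674 3 eng mog cd0q0 cd1q0 pd1 true false false .up 0 0 1
    ndB0q0 ndB1q0 pcB1 Cut.none Ext.none :=
  certB0 (fam := true) (s1 := false) (s2 := false) (a := 0) (b := 0) (c := 1) (cn := .up) (n1 := ndB0q0) (n2 := ndB1q0) (pc := pcB1) (cut := Cut.none) (xt := Ext.none) (P1 := 0) (W1 := 536870912) (P2 := 0) (W2 := 536870912) (P3 := 697932185) (W3 := 42949674) (N0 := 3) (En := eng) (mo := mog) (C1 := cd0q0) (C2 := cd1q0) (C3 := pd1)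
    rfl k0_mm_001

noncomputable def f_mm_011 : ℕ → ℕ → ℕ → ℕ → Bool := onCell 0 536870912 536870912 536870912 697932185 42949674
    (rowB 3 eng mog cd0q0 cd1q1 pd1 0 true false false .pnn 0 1 1 (qsf 0 536870912 536870912 536870912 1) ndB0q0 ndB1q1 pcB1 Cut.none Ext.none)

def k0_mm_011 : ∃ t, chk3 f_mm_011 t 1 1 1 = true :=
  ⟨(l 4), by decide +kernel⟩

theorem c_mm_011 : CertB 0 536870912 536870912 536870912 697932185 42949674 3 eng mog cd0q0 cd1q1 pd1 true false false .pnn 0 1 1
    ndB0q0 ndB1q1 pcB1 Cut.none Ext.none :=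
  certB0 (fam := true) (s1 := false) (s2 := false) (a := 0) (b := 1) (c := 1) (cn := .pnn) (n1 := ndB0q0) (n2 := ndB1q1) (pc := pcB1) (cut := Cut.none) (xt := Ext.none) (P1 := 0) (W1 := 536870912) (P2 := 536870912) (W2 := 536870912) (P3 := 697932185) (W3 := 42949674) (N0 := 3) (En := eng) (mo := mog) (C1 := cd0q0) (C2 := cd1q1) (C3 := pd1)
    rfl k0_mm_011

noncomputable def f_mm_012 : ℕ → ℕ → ℕ → ℕ → Bool := onCell 0 536870912 536870912 536870912 697932185 42949674
    (rowB 3 eng mog cd0q0 cd1q1 pd2 0 true false false .pnp 0 1 2 (qsf 0 536870912 536870912 536870912 2) ndB0q0 ndB1q1 pcB2 Cut.none Ext.none)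

def k0_mm_012 : ∃ t, chk3 f_mm_012 t 1 1 1 = true :=
  ⟨(l 4), by decide +kernel⟩

theorem c_mm_012 : CertB 0 536870912 536870912 536870912 697932185 42949674 3 eng mog cd0q0 cd1q1 pd2 true false false .pnp 0 1 2
    ndB0q0 ndB1q1 pcB2 Cut.none Ext.none :=
  certB0 (fam := true) (s1 := false) (s2 := false) (a := 0) (b := 1) (c := 2) (cn := .pnp) (n1 := ndB0q0) (n2 := ndB1q1) (pc := pcB2) (cut := Cut.none) (xt := Ext.none) (P1 := 0) (W1 := 536870912) (P2 := 536870912) (W2 := 536870912) (P3 := 697932185) (W3 := 42949674) (N0 := 3) (En := eng) (mo := mog) (C1 := cd0q0) (C2 := cd1q1) (C3 := pd2)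
    rfl k0_mm_012

noncomputable def f_mm_022_a : ℕ → ℕ → ℕ → ℕ → Bool := onCell 0 536870912 0 536870912 697932185 42949674
    (rowB 3 eng mog cd0q0 cd1q2a pd2 0 true false false .pp 0 2 2 (qsf 0 536870912 0 536870912 2) ndB0q0 ndB1q2a pcB2 Cut.none Ext.none)

def k0_mm_022_a : ∃ t, chk3 f_mm_022_a t 1 1 1 = true :=
  ⟨(l 5), by decide +kernel⟩

theorem c_mm_022_a : CertB 0 536870912 0 536870912 697932185 42949674 3 eng mog cd0q0 cd1q2a pd2 true false false .pp 0 2 2
    ndB0q0 ndB1q2a pcB2 Cut.none Ext.none :=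
  certB0 (fam := true) (s1 := false) (s2 := false) (a := 0) (b := 2) (c := 2) (cn := .pp) (n1 := ndB0q0) (n2 := ndB1q2a) (pc := pcB2) (cut := Cut.none) (xt := Ext.none) (P1 := 0) (W1 := 536870912) (P2 := 0) (W2 := 536870912) (P3 := 697932185) (W3 := 42949674) (N0 := 3) (En := eng) (mo := mog) (C1 := cd0q0) (C2 := cd1q2a) (C3 := pd2)
    rfl k0_mm_022_a

noncomputable def f_mm_022_b : ℕ → ℕ → ℕ → ℕ → Bool := onCell 0 536870912 1239849684 370763052 697932185 42949674
    (rowB 3 eng mog cd0q0 cd1q2b pd2 0 true false false .pp 0 2 2 (qsf 0 536870912 1239849684 370763052 2) ndB0q0 ndB1q2b pcB2 Cut.none Ext.none)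

def k0_mm_022_b : ∃ t, chk3 f_mm_022_b t 1 1 1 = true :=
  ⟨(l 5), by decide +kernel⟩

theorem c_mm_022_b : CertB 0 536870912 1239849684 370763052 697932185 42949674 3 eng mog cd0q0 cd1q2b pd2 true false false .pp 0 2 2
    ndB0q0 ndB1q2b pcB2 Cut.none Ext.none :=
  certB0 (fam := true) (s1 := false) (s2 := false) (a := 0) (b := 2) (c := 2) (cn := .pp) (n1 := ndB0q0) (n2 := ndB1q2b) (pc := pcB2) (cut := Cut.none) (xt := Ext.none) (P1 := 0) (W1 := 536870912) (P2 := 1239849684) (W2 := 370763052) (P3 := 697932185) (W3 := 42949674) (N0 := 3) (En := eng) (mo := mog) (C1 := cd0q0) (C2 := cd1q2b) (C3 := pd2)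
    rfl k0_mm_022_b

noncomputable def f_mm_023_a : ℕ → ℕ → ℕ → ℕ → Bool := onCell 0 536870912 0 536870912 697932185 42949674
    (rowB 3 eng mog cd0q0 cd1q2a pd3 0 true false false .up 0 2 3 (qsf 0 536870912 0 536870912 3) ndB0q0 ndB1q2a pcB3 Cut.none Ext.none)

def k0_mm_023_a : ∃ t, chk3 f_mm_023_a t 1 1 1 = true :=
  ⟨(l 5), by decide +kernel⟩

theorem c_mm_023_a : CertB 0 536870912 0 536870912 697932185 42949674 3 eng mog cd0q0 cd1q2a pd3 true false false .up 0 2 3
    ndB0q0 ndB1q2a pcB3 Cut.none Ext.none :=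
  certB0 (fam := true) (s1 := false) (s2 := false) (a := 0) (b := 2) (c := 3) (cn := .up) (n1 := ndB0q0) (n2 := ndB1q2a) (pc := pcB3) (cut := Cut.none) (xt := Ext.none) (P1 := 0) (W1 := 536870912) (P2 := 0) (W2 := 536870912) (P3 := 697932185) (W3 := 42949674) (N0 := 3) (En := eng) (mo := mog) (C1 := cd0q0) (C2 := cd1q2a) (C3 := pd3)
    rfl k0_mm_023_a

noncomputable def f_mm_023_b : ℕ → ℕ → ℕ → ℕ → Bool := onCell 0 536870912 1239849684 370763052 697932185 42949674
    (rowB 3 eng mog cd0q0 cd1q2b pd3 0 true false false .up 0 2 3 (qsf 0 536870912 1239849684 370763052 3) ndB0q0 ndB1q2b pcB3 Cut.none Ext.none)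

def k0_mm_023_b : ∃ t, chk3 f_mm_023_b t 1 1 1 = true :=
  ⟨(l 5), by decide +kernel⟩

theorem c_mm_023_b : CertB 0 536870912 1239849684 370763052 697932185 42949674 3 eng mog cd0q0 cd1q2b pd3 true false false .up 0 2 3
    ndB0q0 ndB1q2b pcB3 Cut.none Ext.none :=
  certB0 (fam := true) (s1 := false) (s2 := false) (a := 0) (b := 2) (c := 3) (cn := .up) (n1 := ndB0q0) (n2 := ndB1q2b) (pc := pcB3) (cut := Cut.none) (xt := Ext.none) (P1 := 0) (W1 := 536870912) (P2 := 1239849684) (W2 := 370763052) (P3 := 697932185) (W3 := 42949674) (N0 := 3) (En := eng) (mo := mog) (C1 := cd0q0) (C2 := cd1q2b) (C3 := pd3)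
    rfl k0_mm_023_b

noncomputable def f_mm_033 : ℕ → ℕ → ℕ → ℕ → Bool := onCell 0 536870912 1610612736 536870912 697932185 42949674
    (rowB 3 eng mog cd0q0 cd1q3 pd3 0 true false false .pnn 0 3 3 (qsf 0 536870912 1610612736 536870912 3) ndB0q0 ndB1q3 pcB3 Cut.none Ext.none)

def k0_mm_033 : ∃ t, chk3 f_mm_033 t 1 1 1 = true :=
  ⟨(l 5), by decide +kernel⟩

theorem c_mm_033 : CertB 0 536870912 1610612736 536870912 697932185 42949674 3 eng mog cd0q0 cd1q3 pd3 true false false .pnn 0 3 3
    ndB0q0 ndB1q3 pcB3 Cut.none Ext.none :=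
  certB0 (fam := true) (s1 := false) (s2 := false) (a := 0) (b := 3) (c := 3) (cn := .pnn) (n1 := ndB0q0) (n2 := ndB1q3) (pc := pcB3) (cut := Cut.none) (xt := Ext.none) (P1 := 0) (W1 := 536870912) (P2 := 1610612736) (W2 := 536870912) (P3 := 697932185) (W3 := 42949674) (N0 := 3) (En := eng) (mo := mog) (C1 := cd0q0) (C2 := cd1q3) (C3 := pd3)
    rfl k0_mm_033

noncomputable def cut_mm_101 : Cut := Cut.of [[⟨0, 1, 0, 67108864⟩, ⟨1, 0, 0, 67108864⟩, ⟨2, 1, 0, 67108864⟩]]

noncomputable def f_mm_101 : ℕ → ℕ → ℕ → ℕ → Bool := onCell 536870912 536870912 0 536870912 697932185 42949674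
    (rowB 3 eng mog cd0q1 cd1q0 pd1 0 true false false .npn 1 0 1 (qsf 536870912 536870912 0 536870912 1) ndB0q1 ndB1q0 pcB1 cut_mm_101 Ext.none)

def k0_mm_101 : ∃ t, chk3 f_mm_101 t 1 1 1 = true :=
  ⟨(a (l 4) (b (a (l 4) (b (a (l 4) (b (a (l 4) (b (l 6) (l 4))) (l 4))) (l 4))) (l 4))), by decide +kernel⟩

theorem c_mm_101 : CertB 536870912 536870912 0 536870912 697932185 42949674 3 eng mog cd0q1 cd1q0 pd1 true false false .npn 1 0 1
    ndB0q1 ndB1q0 pcB1 cut_mm_101 Ext.none :=
  certB0 (fam := true) (s1 := false) (s2 := false) (a := 1) (b := 0) (c := 1) (cn := .npn) (n1 := ndB0q1) (n2 := ndB1q0) (pc := pcB1) (cut := cut_mm_101) (xt := Ext.none) (P1 := 536870912) (W1 := 536870912) (P2 := 0) (W2 := 536870912) (P3 := 697932185) (W3 := 42949674) (N0 := 3) (En := eng) (mo := mog) (C1 := cd0q1) (C2 := cd1q0) (C3 := pd1)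
    rfl k0_mm_101

noncomputable def cut_mm_102 : Cut := Cut.of [[⟨0, 1, 0, 67108864⟩, ⟨1, 0, 0, 67108864⟩, ⟨2, 1, 0, 67108864⟩]]

noncomputable def f_mm_102 : ℕ → ℕ → ℕ → ℕ → Bool := onCell 536870912 536870912 0 536870912 697932185 42949674
    (rowB 3 eng mog cd0q1 cd1q0 pd2 0 true false false .npp 1 0 2 (qsf 536870912 536870912 0 536870912 2) ndB0q1 ndB1q0 pcB2 cut_mm_102 Ext.none)

def k0_mm_102 : ∃ t, chk3 f_mm_102 t 1 1 1 = true :=
  ⟨(a (l 4) (b (a (l 4) (b (a (l 4) (b (a (l 4) (b (l 6) (l 4))) (l 4))) (l 4))) (l 4))), by decide +kernel⟩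

theorem c_mm_102 : CertB 536870912 536870912 0 536870912 697932185 42949674 3 eng mog cd0q1 cd1q0 pd2 true false false .npp 1 0 2
    ndB0q1 ndB1q0 pcB2 cut_mm_102 Ext.none :=
  certB0 (fam := true) (s1 := false) (s2 := false) (a := 1) (b := 0) (c := 2) (cn := .npp) (n1 := ndB0q1) (n2 := ndB1q0) (pc := pcB2) (cut := cut_mm_102) (xt := Ext.none) (P1 := 536870912) (W1 := 536870912) (P2 := 0) (W2 := 536870912) (P3 := 697932185) (W3 := 42949674) (N0 := 3) (En := eng) (mo := mog) (C1 := cd0q1) (C2 := cd1q0) (C3 := pd2)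
    rfl k0_mm_102

noncomputable def f_mm_112 : ℕ → ℕ → ℕ → ℕ → Bool := onCell 536870912 536870912 536870912 536870912 697932185 42949674
    (rowB 3 eng mog cd0q1 cd1q1 pd2 0 true false false .dn 1 1 2 (qsf 536870912 536870912 536870912 536870912 2) ndB0q1 ndB1q1 pcB2 Cut.none Ext.none)

def k0_mm_112 : ∃ t, chk3 f_mm_112 t 1 1 1 = true :=
  ⟨(l 4), by decide +kernel⟩

theorem c_mm_112 : CertB 536870912 536870912 536870912 536870912 697932185 42949674 3 eng mog cd0q1 cd1q1 pd2 true false false .dn 1 1 2
    ndB0q1 ndB1q1 pcB2 Cut.none Ext.none :=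
  certB0 (fam := true) (s1 := false) (s2 := false) (a := 1) (b := 1) (c := 2) (cn := .dn) (n1 := ndB0q1) (n2 := ndB1q1) (pc := pcB2) (cut := Cut.none) (xt := Ext.none) (P1 := 536870912) (W1 := 536870912) (P2 := 536870912) (W2 := 536870912) (P3 := 697932185) (W3 := 42949674) (N0 := 3) (En := eng) (mo := mog) (C1 := cd0q1) (C2 := cd1q1) (C3 := pd2)
    rfl k0_mm_112

noncomputable def f_mm_113 : ℕ → ℕ → ℕ → ℕ → Bool := onCell 536870912 536870912 536870912 536870912 697932185 42949674
    (rowB 3 eng mog cd0q1 cd1q1 pd3 0 true false false .nn 1 1 3 (qsf 536870912 536870912 536870912 536870912 3) ndB0q1 ndB1q1 pcB3 Cut.none Ext.none)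

def k0_mm_113 : ∃ t, chk3 f_mm_113 t 1 1 1 = true :=
  ⟨(l 4), by decide +kernel⟩

theorem c_mm_113 : CertB 536870912 536870912 536870912 536870912 697932185 42949674 3 eng mog cd0q1 cd1q1 pd3 true false false .nn 1 1 3
    ndB0q1 ndB1q1 pcB3 Cut.none Ext.none :=
  certB0 (fam := true) (s1 := false) (s2 := false) (a := 1) (b := 1) (c := 3) (cn := .nn) (n1 := ndB0q1) (n2 := ndB1q1) (pc := pcB3) (cut := Cut.none) (xt := Ext.none) (P1 := 536870912) (W1 := 536870912) (P2 := 536870912) (W2 := 536870912) (P3 := 697932185) (W3 := 42949674) (N0 := 3) (En := eng) (mo := mog) (C1 := cd0q1) (C2 := cd1q1) (C3 := pd3)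
    rfl k0_mm_113

noncomputable def f_mm_123_a : ℕ → ℕ → ℕ → ℕ → Bool := onCell 536870912 536870912 0 536870912 697932185 42949674
    (rowB 3 eng mog cd0q1 cd1q2a pd3 0 true false false .npn 1 2 3 (qsf 536870912 536870912 0 536870912 3) ndB0q1 ndB1q2a pcB3 Cut.none Ext.none)

def k0_mm_123_a : ∃ t, chk3 f_mm_123_a t 1 1 1 = true :=
  ⟨(a (l 5) (l 4)), by decide +kernel⟩

theorem c_mm_123_a : CertB 536870912 536870912 0 536870912 697932185 42949674 3 eng mog cd0q1 cd1q2a pd3 true false false .npn 1 2 3
    ndB0q1 ndB1q2a pcB3 Cut.none Ext.none :=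
  certB0 (fam := true) (s1 := false) (s2 := false) (a := 1) (b := 2) (c := 3) (cn := .npn) (n1 := ndB0q1) (n2 := ndB1q2a) (pc := pcB3) (cut := Cut.none) (xt := Ext.none) (P1 := 536870912) (W1 := 536870912) (P2 := 0) (W2 := 536870912) (P3 := 697932185) (W3 := 42949674) (N0 := 3) (En := eng) (mo := mog) (C1 := cd0q1) (C2 := cd1q2a) (C3 := pd3)
    rfl k0_mm_123_a

noncomputable def f_mm_123_b : ℕ → ℕ → ℕ → ℕ → Bool := onCell 536870912 536870912 1239849684 370763052 697932185 42949674
    (rowB 3 eng mog cd0q1 cd1q2b pd3 0 true false false .npn 1 2 3 (qsf 536870912 536870912 1239849684 370763052 3) ndB0q1 ndB1q2b pcB3 Cut.none Ext.none)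

def k0_mm_123_b : ∃ t, chk3 f_mm_123_b t 1 1 1 = true :=
  ⟨(l 5), by decide +kernel⟩

theorem c_mm_123_b : CertB 536870912 536870912 1239849684 370763052 697932185 42949674 3 eng mog cd0q1 cd1q2b pd3 true false false .npn 1 2 3
    ndB0q1 ndB1q2b pcB3 Cut.none Ext.none :=
  certB0 (fam := true) (s1 := false) (s2 := false) (a := 1) (b := 2) (c := 3) (cn := .npn) (n1 := ndB0q1) (n2 := ndB1q2b) (pc := pcB3) (cut := Cut.none) (xt := Ext.none) (P1 := 536870912) (W1 := 536870912) (P2 := 1239849684) (W2 := 370763052) (P3 := 697932185) (W3 := 42949674) (N0 := 3) (En := eng) (mo := mog) (C1 := cd0q1) (C2 := cd1q2b) (C3 := pd3)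
    rfl k0_mm_123_b

noncomputable def f_mm_133 : ℕ → ℕ → ℕ → ℕ → Bool := onCell 536870912 536870912 1610612736 536870912 697932185 42949674
    (rowB 3 eng mog cd0q1 cd1q3 pd3 0 true false false .dn 1 3 3 (qsf 536870912 536870912 1610612736 536870912 3) ndB0q1 ndB1q3 pcB3 Cut.none Ext.none)

def k0_mm_133 : ∃ t, chk3 f_mm_133 t 1 1 1 = true :=
  ⟨(l 4), by decide +kernel⟩

theorem c_mm_133 : CertB 536870912 536870912 1610612736 536870912 697932185 42949674 3 eng mog cd0q1 cd1q3 pd3 true false false .dn 1 3 3
    ndB0q1 ndB1q3 pcB3 Cut.none Ext.none :=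
  certB0 (fam := true) (s1 := false) (s2 := false) (a := 1) (b := 3) (c := 3) (cn := .dn) (n1 := ndB0q1) (n2 := ndB1q3) (pc := pcB3) (cut := Cut.none) (xt := Ext.none) (P1 := 536870912) (W1 := 536870912) (P2 := 1610612736) (W2 := 536870912) (P3 := 697932185) (W3 := 42949674) (N0 := 3) (En := eng) (mo := mog) (C1 := cd0q1) (C2 := cd1q3) (C3 := pd3)
    rfl k0_mm_133

noncomputable def cut_mm_202 : Cut := Cut.of [[⟨0, 1, 0, 67108864⟩, ⟨1, 0, 0, 67108864⟩, ⟨2, 1, 0, 67108864⟩]]

noncomputable def f_mm_202 : ℕ → ℕ → ℕ → ℕ → Bool := onCell 0 536870912 1073741824 536870912 697932185 42949674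
    (rowB 3 eng mog cd0q2 cd1q0 pd2 1 true false false .pp 2 0 2 (qsf 0 536870912 0 536870912 2) ndB0q2 ndB1q0 pcB2 cut_mm_202 Ext.none)

def k0_mm_202 : ∃ t, chk3 f_mm_202 t 2 2 1 = true :=
  ⟨(a (b (l 1) (b (b (b (l 1) (a (a (l 16449920) (b (l 1) (l 16472016))) (a (l 16455840) (l 16462800)))) (a (a (b (b (l 16447424) (b (l 16445184) (l 16444304))) (c (l 16470712) (l 16451912))) (b (a (b (l 16447424) (l 16445120)) (l 16447688)) (a (l 16451576) (l 16453496)))) (b (a (l 16451832) (l 16460600)) (l 16379312)))) (a (a (b (b (a (l 16460704) (c (l 16459952) (l 16462584))) (a (l 16469608) (l 16470592))) (b (l 16477208) (l 16480792))) (b (b (l 16463504) (l 16473584)) (l 16485576))) (b (b (l 16474840) (l 16485688)) (l 16500672))))) (b (b (l 1) (a (l 1) (b (l 1) (a (l 1) (b (l 1) (b (l 1) (a (l 16512336) (l 16539352)))))))) (b (a (b (b (a (l 16468664) (l 16486328)) (a (l 16472920) (l 16485632))) (b (a (l 16472544) (l 16487080)) (a (l 16480784) (l 16496216)))) (b (a (b (a (l 16495736) (b (l 16503216) (l 16503584))) (a (l 16496496)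 (l 16505072))) (b (a (b (l 16512704) (l 16513592)) (a (l 16521840) (l 16528432))) (a (l 16515824) (b (l 16527832) (l 16530176))))) (a (b (a (l 16499296) (l 16529760)) (l 16535016)) (b (a (b (l 16519104) (l 16521952)) (b (l 16532960) (l 16536256))) (a (l 16531176) (l 16545712)))))) (a (b (b (l 16501152) (l 16513040)) (l 16582440)) (b (a (b (l 16527160) (l 16539848)) (b (a (l 16544608) (l 16559352)) (a (l 16557680) (l 16572680)))) (a (l 16579288) (b (a (l 16570456) (l 16585720)) (l 16549344)))))))), by decide +kernel⟩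

def k1_mm_202 : ∃ t, chk3 f_mm_202 t 2 3 1 = true :=
  ⟨(b (a (b (a (b (a (l 16490896) (l 16498504)) (a (l 16509920) (l 16518184))) (b (l 16516808) (l 16537480))) (a (b (a (l 16529320) (l 16538360)) (l 16554040)) (b (l 16558816) (l 16581448)))) (b (b (a (l 16552760) (a (l 16583552) (l 16642928))) (a (l 16574728) (a (l 16609064) (l 16638504)))) (a (b (l 16597560) (l 16623016)) (b (b (l 16706960) (a (l 16639568) (l 16671352))) (a (l 16660528) (l 16714376)))))) (a (b (a (b (l 16600672) (l 16606872)) (b (l 16609048) (l 16637472))) (a (b (l 16633672) (l 16658552)) (b (l 16665248) (l 16690368)))) (b (a (b (l 16652096) (l 16681128)) (b (a (l 16689368) (b (l 16716120) (l 16731248))) (a (l 16760936) (a (l 16785600) (l 4))))) (a (b (l 16750968) (b (l 16727448) (l 16762128))) (a (b (b (l 16740480) (l 16753784)) (l 4)) (l 4)))))), by decide +kernel⟩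

def k2_mm_202 : ∃ t, chk3 f_mm_202 t 6 8 1 = true :=
  ⟨(l 1), by decide +kernel⟩

def k3_mm_202 : ∃ t, chk3 f_mm_202 t 12 9 1 = true :=
  ⟨(b (l 1) (a (b (a (l 1) (b (l 1) (b (l 1) (l 16558040)))) (a (b (l 16548968) (l 16536728)) (b (b (l 16541768) (l 16546344)) (l 16551152)))) (b (b (a (l 1) (b (a (l 1) (l 16558320)) (a (l 16554728) (l 16563280)))) (a (b (a (l 16543384) (l 16551296)) (a (l 16548176) (l 16556064))) (a (b (l 16559592) (l 16564336)) (c (l 16581928) (l 16569464))))) (a (b (a (l 16555136) (l 16563000)) (l 16566440)) (b (b (l 16573208) (l 16577712)) (c (l 16582368) (l 16583312))))))), by decide +kernel⟩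

def k4_mm_202 : ∃ t, chk3 f_mm_202 t 13 9 1 = true :=
  ⟨(b (a (b (l 1) (b (a (l 1) (b (l 1) (a (l 1) (b (l 1) (l 16580336))))) (a (b (l 1) (a (l 1) (b (l 16569624) (l 16572176)))) (b (a (b (l 16573568) (l 16576184)) (b (l 16582976) (l 16585584))) (a (b (l 16578768) (l 16581320)) (l 16589440)))))) (b (b (l 1) (a (b (l 1) (a (l 1) (b (l 1) (l 16589296)))) (b (a (b (l 1) (l 16594488)) (b (a (l 16600184) (l 16606080)) (l 16605944))) (a (b (a (l 16594520) (l 16600080)) (l 16600064)) (l 16610120))))) (a (b (b (a (b (l 1) (l 16584656)) (b (a (l 16589448) (l 16594664)) (l 16594768))) (a (b (l 16587352) (l 16590024)) (l 16598800))) (a (b (l 16593960) (l 16599104)) (b (l 16604056) (l 16609192)))) (b (b (a (l 16604168) (l 16615576)) (a (l 16609536) (l 16620904))) (b (l 16620424) (l 16625528)))))) (a (b (b (a (b (a (b (l 16565792) (l 16568288)) (l 16575952)) (a (l 16571984) (l 16580880))) (a (b (l 16585080) (l 16589992)) (b (l 16594464) (l 16599368)))) (b (a (a (l 16576800) (l 16585680)) (l 16599488)) (a (a (l 16581512) (l 16590376))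 (l 16583200)))) (a (b (b (l 16590552) (l 16595032)) (l 16579864)) (b (l 16600520) (l 16619736)))) (b (a (b (b (l 16609160) (l 16614056)) (a (l 16616168) (l 16626232))) (b (a (l 16627336) (l 16638616)) (a (l 16636872) (l 16648112)))) (a (b (l 16630352) (l 16639096)) (a (l 16650440) (l 16661624)))))), by decide +kernel⟩

def k5_mm_202 : ∃ t, chk3 f_mm_202 t 6 5 1 = true :=
  ⟨(b (a (b (a (b (a (b (l 16538184) (l 16540128)) (b (l 16553160) (l 16555640))) (a (b (l 16542536) (l 16545384)) (b (l 16558568) (l 16561920)))) (b (a (b (l 16569000) (l 16572016)) (b (l 16585896) (a (l 16584896) (l 16593976)))) (a (b (l 16575456) (l 16579304)) (b (l 16603880) (l 16597736))))) (a (b (a (b (l 16548656) (l 16573384)) (b (l 16565672) (l 16590864))) (a (l 16583072) (l 16600784))) (b (a (b (l 16583536) (b (l 16586952) (l 16589488))) (b (l 16602448) (b (l 16606216) (l 16608952)))) (a (b (l 16594776) (l 16601968)) (b (l 16614320) (l 16621608)))))) (a (b (b (a (b (l 16604496) (c (l 16608592) (l 16587664))) (b (l 16625048) (l 16629656))) (a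 (b (a (l 16607888) (l 16618216)) (l 16617872)) (b (l 16613664) (l 16619000)))) (b (b (a (l 16623064) (l 16645640)) (a (b (l 16627176) (l 16630112)) (b (l 16650096) (b (l 16652392) (l 16654096))))) (a (b (l 16635576) (l 16642952)) (a (l 16635512) (l 16647568))))) (b (b (a (b (l 16647400) (l 16652536)) (b (l 16668688) (l 16676344))) (a (l 16650408) (l 16685456))) (b (b (a (l 16649024) (l 16695272)) (a (l 16676464) (l 16702168))) (a (l 16687304) (l 16712744)))))) (a (b (a (b (a (l 16575944) (l 16593856)) (a (l 16589496) (l 16586616))) (b (a (l 16633592) (b (l 16628824) (l 16635920))) (a (l 16605464) (l 16646208)))) (a (a (a (l 16563096) (l 16572104)) (l 16627960)) (b (l 16650160) (l 16664512)))) (b (a (a (b (b (l 16650216) (l 16657192)) (l 16667544)) (b (l 16676720) (l 16690720))) (b (a (l 16701336) (l 16726680)) (a (l 16694576) (l 16741600)))) (a (b (l 16693496) (l 16708480)) (a (b (b (l 16726616) (l 16734336)) (l 16767624)) (b (l 24394085607) (l 4))))))), by decide +kernel⟩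

def k6_mm_202 : ∃ t, chk3 f_mm_202 t 6 3 1 = true :=
  ⟨(b (b (a (b (a (b (l 16639480) (l 16653864)) (b (l 16679320) (l 16694472))) (a (l 16696176) (b (l 16709552) (l 16745344)))) (a (b (b (a (l 16711976) (l 16736448)) (a (l 16727816) (l 16774280))) (a (b (l 16743888) (l 4)) (l 4))) (l 4))) (a (b (a (b (l 16695936) (l 16731536)) (b (l 31373404375) (a (l 16785448) (l 4)))) (a (b (l 16767840) (l 27078448263)) (l 4))) (l 4))) (b (a (a (b (b (l 47479570695) (l 4)) (l 4)) (l 4)) (l 4)) (l 4))), by decide +kernel⟩

def k7_mm_202 : ∃ t, chk3 f_mm_202 t 14 4 1 = true :=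
  ⟨(b (b (l 1) (a (b (l 1) (b (l 1) (a (l 1) (b (a (l 1) (l 6)) (a (b (l 16624248) (l 16627168)) (l 16639832)))))) (b (l 6) (b (l 6) (b (l 6) (b (l 6) (a (l 16663456) (l 16694704)))))))) (b (a (a (b (b (b (a (l 1) (b (l 16616592) (l 16619488))) (a (b (a (l 1) (l 16612680)) (l 16612416)) (l 16613288))) (a (b (l 16606160) (l 16622184)) (b (l 16629384) (l 16634872)))) (b (a (l 16629616) (l 16642880)) (b (l 16644328) (l 16649368)))) (b (b (b (a (l 16621016) (l 16645552)) (a (l 16637168) (l 16651152))) (a (b (l 16642720) (l 16648152)) (l 16659344))) (b (a (l 16656088) (l 16669856)) (a (l 16666248) (l 16679904))))) (b (a (b (b (a (l 16660120) (l 16675184)) (l 16668560)) (a (l 16673744) (l 16688632))) (b (a (b (l 16690752) (l 16696136)) (b (l 16706816) (l 16712112))) (a (l 16714488) (a (l 16715840) (l 16723896))))) (a (b (a (l 16684128) (l 16698880)) (a (l 16694048) (l 16687696))) (b (c (l 16722360) (l 16721560)) (l 16734168))))) (a (b (a (b (a (l 16650488) (l 16662936)) (a (l 16659920) (l 16672296))) (b (a (l 16675944) (l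 16689488)) (c (l 16671496) (l 16670400)))) (a (a (l 16673368) (l 16685640)) (b (l 16700792) (l 16709288)))) (b (a (b (l 16710768) (l 16719776)) (b (l 16740688) (a (l 16741792) (l 16754496)))) (a (b (l 16728424) (l 16736576)) (b (a (l 16748496) (l 16762520)) (a (l 16756040) (l 4)))))))), by decide +kernel⟩

def k8_mm_202 : ∃ t, chk3 f_mm_202 t 14 5 1 = true :=
  ⟨(b (b (a (b (a (b (l 16692056) (l 16700024)) (b (l 16717456) (l 16725240))) (a (l 16710400) (b (l 16732240) (l 16739552)))) (a (b (b (l 16743568) (l 16751224)) (a (a (l 16752392) (l 16759152)) (l 4))) (b (a (b (l 16764512) (l 4)) (l 4)) (l 4)))) (a (b (a (b (l 16720912) (l 16727896)) (b (l 16746976) (b (l 16752416) (l 16756112)))) (a (l 16738360) (a (l 16758560) (l 4)))) (l 4))) (a (b (a (b (b (l 16749320) (l 16757144)) (l 4)) (l 4)) (l 4)) (l 4))), by decide +kernel⟩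

def k9_mm_202 : ∃ t, chk3 f_mm_202 t 15 2 1 = true :=
  ⟨(b (b (b (l 6) (b (l 6) (b (l 6) (b (l 6) (a (a (a (l 16718048) (a (l 16730848) (l 16739552))) (a (l 16752880) (a (l 16764248) (l 16777248)))) (l 4)))))) (a (b (a (a (b (b (b (l 16723376) (l 16728592)) (l 16736224)) (b (l 16746008) (l 16753528))) (b (b (a (l 16738696) (l 16747328)) (l 16753056)) (b (b (l 16758032) (l 16761640)) (b (l 16765648) (l 16780504))))) (b (a (b (b (l 16757992) (l 16761216)) (a (l 16762912) (a (l 16768528) (l 4)))) (b (a (b (l 16768024) (l 4)) (l 4)) (l 4))) (l 4))) (a (b (a (b (l 16763544) (l 13656650487)) (l 4)) (l 4)) (l 4))) (l 4))) (l 4)), by decide +kernel⟩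

def k10_mm_202 : ∃ t, chk3 f_mm_202 t 7 3 1 = true :=
  ⟨(l 4), by decide +kernel⟩

theorem s11_mm_202 : ∃ t, chk3 f_mm_202 t 14 2 1 = true := ex3_b k7_mm_202 k8_mm_202

theorem s12_mm_202 : ∃ t, chk3 f_mm_202 t 7 2 1 = true := ex3_a s11_mm_202 k9_mm_202

theorem s13_mm_202 : ∃ t, chk3 f_mm_202 t 7 1 1 = true := ex3_b s12_mm_202 k10_mm_202

theorem s14_mm_202 : ∃ t, chk3 f_mm_202 t 6 9 1 = true := ex3_a k3_mm_202 k4_mm_202

theorem s15_mm_202 : ∃ t, chk3 f_mm_202 t 6 4 1 = true := ex3_b k2_mm_202 s14_mm_202

theorem s16_mm_202 : ∃ t, chk3 f_mm_202 t 6 2 1 = true := ex3_b s15_mm_202 k5_mm_202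

theorem s17_mm_202 : ∃ t, chk3 f_mm_202 t 6 1 1 = true := ex3_b s16_mm_202 k6_mm_202

theorem s18_mm_202 : ∃ t, chk3 f_mm_202 t 3 1 1 = true := ex3_a s17_mm_202 s13_mm_202

theorem s19_mm_202 : ∃ t, chk3 f_mm_202 t 2 1 1 = true := ex3_b k0_mm_202 k1_mm_202

theorem s20_mm_202 : ∃ t, chk3 f_mm_202 t 1 1 1 = true := ex3_a s19_mm_202 s18_mm_202

theorem c_mm_202 : CertB 0 536870912 0 536870912 697932185 42949674 3 eng mog cd0q2 cd1q0 pd2 true false false .pp 2 0 2
    ndB0q2 ndB1q0 pcB2 cut_mm_202 Ext.none :=
  certB1 (fam := true) (s1 := false) (s2 := false) (a := 2) (b := 0) (c := 2) (cn := .pp) (n1 := ndB0q2) (n2 := ndB1q0) (pc := pcB2) (cut := cut_mm_202) (xt := Ext.none) (P1 := 0) (W1 := 536870912) (P2 := 0) (W2 := 536870912) (P3 := 697932185) (W3 := 42949674) (N0 := 3) (En := eng) (mo := mog) (C1 := cd0q2) (C2 := cd1q0) (C3 := pd2)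
    rfl (fun _ => rfl) s20_mm_202

noncomputable def f_mm_203 : ℕ → ℕ → ℕ → ℕ → Bool := onCell 0 536870912 1610612736 536870912 697932185 42949674
    (rowB 3 eng mog cd0q2 cd1q0 pd3 1 true false false .up 2 0 3 (qsf 0 536870912 0 536870912 3) ndB0q2 ndB1q0 pcB3 Cut.none Ext.none)

def k0_mm_203 : ∃ t, chk3 f_mm_203 t 1 1 1 = true :=
  ⟨(b (a (b (a (b (b (a (l 16679384) (l 16710240)) (a (l 16698640) (l 16741888))) (a (b (l 16729600) (l 16731432)) (a (b (l 16754672) (l 16768160)) (b (l 16767240) (l 4))))) (b (a (b (a (l 16750344) (l 51774537079)) (a (l 16768112) (l 4))) (l 4)) (l 4))) (a (a (b (b (l 16788504) (l 2)) (l 2)) (l 4)) (l 4))) (l 4)) (l 2)), by decide +kernel⟩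

theorem c_mm_203 : CertB 0 536870912 0 536870912 697932185 42949674 3 eng mog cd0q2 cd1q0 pd3 true false false .up 2 0 3
    ndB0q2 ndB1q0 pcB3 Cut.none Ext.none :=
  certB1 (fam := true) (s1 := false) (s2 := false) (a := 2) (b := 0) (c := 3) (cn := .up) (n1 := ndB0q2) (n2 := ndB1q0) (pc := pcB3) (cut := Cut.none) (xt := Ext.none) (P1 := 0) (W1 := 536870912) (P2 := 0) (W2 := 536870912) (P3 := 697932185) (W3 := 42949674) (N0 := 3) (En := eng) (mo := mog) (C1 := cd0q2) (C2 := cd1q0) (C3 := pd3)
    rfl (fun _ => rfl) k0_mm_203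

noncomputable def f_mm_213 : ℕ → ℕ → ℕ → ℕ → Bool := onCell 0 536870912 536870912 536870912 697932185 42949674
    (rowB 3 eng mog cd0q2 cd1q1 pd3 0 true false false .pnn 2 1 3 (qsf 0 536870912 536870912 536870912 3) ndB0q2 ndB1q1 pcB3 Cut.none Ext.none)

def k0_mm_213 : ∃ t, chk3 f_mm_213 t 1 1 1 = true :=
  ⟨(a (b (b (a (b (a (b (a (l 16757648) (l 4)) (l 4)) (l 4)) (l 4)) (l 4)) (l 4)) (l 4)) (l 4)), by decide +kernel⟩

theorem c_mm_213 : CertB 0 536870912 536870912 536870912 697932185 42949674 3 eng mog cd0q2 cd1q1 pd3 true false false .pnn 2 1 3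
    ndB0q2 ndB1q1 pcB3 Cut.none Ext.none :=
  certB0 (fam := true) (s1 := false) (s2 := false) (a := 2) (b := 1) (c := 3) (cn := .pnn) (n1 := ndB0q2) (n2 := ndB1q1) (pc := pcB3) (cut := Cut.none) (xt := Ext.none) (P1 := 0) (W1 := 536870912) (P2 := 536870912) (W2 := 536870912) (P3 := 697932185) (W3 := 42949674) (N0 := 3) (En := eng) (mo := mog) (C1 := cd0q2) (C2 := cd1q1) (C3 := pd3)
    rfl k0_mm_213

end Pool.Agent.Strip051.G.I6500_6900.Tab.C.BA01

namespace Pool.Agent.Strip051.G.I6500_6900.Tab.C.BA02

open Pool.Agent.Strip051.PB Pool.Agent.Strip051.PB.T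
open Pool.Agent.Strip051.G.I6500_6900.Tab

noncomputable def f_pp_001 : ℕ → ℕ → ℕ → ℕ → Bool := onCell 0 536870912 0 536870912 697932185 42949674
    (rowB 3 eng mog cd0q0 cd2q0 pd1 0 true true true .up 0 0 1 (qsf 0 536870912 0 536870912 1) ndB0q0 ndB2q0 pcB1 Cut.none Ext.none)

def k0_pp_001 : ∃ t, chk3 f_pp_001 t 1 1 1 = true :=
  ⟨(l 4), by decide +kernel⟩

theorem c_pp_001 : CertB 0 536870912 0 536870912 697932185 42949674 3 eng mog cd0q0 cd2q0 pd1 true true true .up 0 0 1
    ndB0q0 ndB2q0 pcB1 Cut.none Ext.none :=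
  certB0 (fam := true) (s1 := true) (s2 := true) (a := 0) (b := 0) (c := 1) (cn := .up) (n1 := ndB0q0) (n2 := ndB2q0) (pc := pcB1) (cut := Cut.none) (xt := Ext.none) (P1 := 0) (W1 := 536870912) (P2 := 0) (W2 := 536870912) (P3 := 697932185) (W3 := 42949674) (N0 := 3) (En := eng) (mo := mog) (C1 := cd0q0) (C2 := cd2q0) (C3 := pd1)
    rfl k0_pp_001

noncomputable def f_pp_011 : ℕ → ℕ → ℕ → ℕ → Bool := onCell 0 536870912 536870912 536870912 697932185 42949674
    (rowB 3 eng mog cd0q0 cd2q1 pd1 0 true true true .pnn 0 1 1 (qsf 0 536870912 536870912 536870912 1) ndB0q0 ndB2q1 pcB1 Cut.none Ext.none)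

def k0_pp_011 : ∃ t, chk3 f_pp_011 t 1 1 1 = true :=
  ⟨(l 4), by decide +kernel⟩

theorem c_pp_011 : CertB 0 536870912 536870912 536870912 697932185 42949674 3 eng mog cd0q0 cd2q1 pd1 true true true .pnn 0 1 1
    ndB0q0 ndB2q1 pcB1 Cut.none Ext.none :=
  certB0 (fam := true) (s1 := true) (s2 := true) (a := 0) (b := 1) (c := 1) (cn := .pnn) (n1 := ndB0q0) (n2 := ndB2q1) (pc := pcB1) (cut := Cut.none) (xt := Ext.none) (P1 := 0) (W1 := 536870912) (P2 := 536870912) (W2 := 536870912) (P3 := 697932185) (W3 := 42949674) (N0 := 3) (En := eng) (mo := mog) (C1 := cd0q0) (C2 := cd2q1) (C3 := pd1)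
    rfl k0_pp_011

noncomputable def f_pp_012 : ℕ → ℕ → ℕ → ℕ → Bool := onCell 0 536870912 536870912 536870912 697932185 42949674
    (rowB 3 eng mog cd0q0 cd2q1 pd2 0 true true true .pnp 0 1 2 (qsf 0 536870912 536870912 536870912 2) ndB0q0 ndB2q1 pcB2 Cut.none Ext.none)

def k0_pp_012 : ∃ t, chk3 f_pp_012 t 1 1 1 = true :=
  ⟨(l 4), by decide +kernel⟩

theorem c_pp_012 : CertB 0 536870912 536870912 536870912 697932185 42949674 3 eng mog cd0q0 cd2q1 pd2 true true true .pnp 0 1 2
    ndB0q0 ndB2q1 pcB2 Cut.none Ext.none :=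
  certB0 (fam := true) (s1 := true) (s2 := true) (a := 0) (b := 1) (c := 2) (cn := .pnp) (n1 := ndB0q0) (n2 := ndB2q1) (pc := pcB2) (cut := Cut.none) (xt := Ext.none) (P1 := 0) (W1 := 536870912) (P2 := 536870912) (W2 := 536870912) (P3 := 697932185) (W3 := 42949674) (N0 := 3) (En := eng) (mo := mog) (C1 := cd0q0) (C2 := cd2q1) (C3 := pd2)
    rfl k0_pp_012

noncomputable def cut_pp_022_a : Cut := Cut.of [[⟨0, 0, 0, 67108864⟩, ⟨1, 1, 0, 67108864⟩, ⟨2, 1, 0, 67108864⟩]]

noncomputable def f_pp_022_a : ℕ → ℕ → ℕ → ℕ → Bool := onCell 0 536870912 0 536870912 697932185 42949674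
    (rowB 3 eng mog cd0q0 cd2q2a pd2 0 true true true .pp 0 2 2 (qsf 0 536870912 0 536870912 2) ndB0q0 ndB2q2a pcB2 cut_pp_022_a Ext.none)

def k0_pp_022_a : ∃ t, chk3 f_pp_022_a t 4 2 1 = true :=
  ⟨(a (b (a (b (a (l 16422880) (b (l 16450544) (l 16452656))) (a (b (l 16449960) (l 16458088)) (b (a (l 16454272) (l 16460632)) (a (l 16462328) (l 16467792))))) (b (a (l 16464720) (l 16477104)) (a (b (l 16470760) (l 16478208)) (l 16487736)))) (a (b (a (b (l 16448424) (l 16483568)) (b (a (l 16474032) (b (l 16475256) (l 16481392))) (a (l 16488792) (l 16534720)))) (a (b (l 16511000) (a (l 16518376) (l 16522256))) (b (b (l 16503592) (l 16513120)) (c (b (l 16523176) (l 16533944)) (l 16529192))))) (b (a (b (l 16488552) (a (b (l 16494424) (l 16522904)) (l 16505264))) (b (l 16481456) (a (l 16512408) (l 16519448)))) (a (b (a (b (l 16531408) (l 16520048)) (b (l 16516864) (a (l 16524032) (l 16527424)))) (a (l 16557032) (b (a (l 16534336) (l 16537208)) (l 16546888)))) (b (b (l 16527776) (l 16536632)) (a (b (l 16542504) (a (l 16572176)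 (l 16554624))) (l 16576024))))))) (b (b (a (l 16494728) (l 16513112)) (a (a (l 16500528) (l 16513032)) (l 16571440))) (a (b (b (l 16564464) (a (l 16529856) (l 16543592))) (a (b (l 16546536) (b (l 16518912) (l 16529376))) (b (l 16560704) (l 16580624)))) (b (c (l 16619744) (l 16598056)) (b (a (l 16574808) (l 16588856)) (a (l 16595144) (l 16609696))))))), by decide +kernel⟩

def k1_pp_022_a : ∃ t, chk3 f_pp_022_a t 5 2 1 = true :=
  ⟨(a (b (a (b (l 16532856) (a (l 16544568) (l 16556096))) (b (a (l 16551152) (l 16565040)) (a (l 16569176) (l 16604648)))) (a (b (a (l 16593488) (l 16605488)) (a (b (l 16600264) (l 16622624)) (b (l 16612728) (l 16635400)))) (b (a (l 16613776) (b (l 16604304) (l 16621720))) (a (b (l 16626528) (l 16649392)) (b (b (l 16636456) (l 16647232)) (l 16675336)))))) (b (a (b (a (l 16601032) (l 16616592)) (a (l 16599360) (l 16615456))) (b (a (l 16631896) (l 16646744)) (a (l 16631272) (l 16651856)))) (b (a (a (b (l 16620480) (l 16653944)) (a (l 16662888) (l 16671152))) (c (a (l 16688896) (b (l 16669256) (l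 16687576))) (a (l 16682904) (b (l 16668464) (l 16687256))))) (a (b (a (a (l 16654344) (l 16662904)) (c (l 16686472) (l 28151987383))) (a (b (l 16696528) (a (l 16683480) (l 16712952))) (a (b (b (l 16685504) (l 16712368)) (b (l 48016305159) (l 4))) (b (l 16738776) (l 4))))) (b (b (a (l 16686856) (l 67880462375)) (a (l 66806720247) (l 4))) (l 4)))))), by decide +kernel⟩

def k2_pp_022_a : ∃ t, chk3 f_pp_022_a t 8 6 1 = true :=
  ⟨(b (a (b (a (b (l 16536720) (l 16548648)) (b (l 16545712) (l 16557936))) (a (b (l 16561240) (l 16574336)) (b (l 16570808) (l 16584352)))) (a (a (b (l 16559584) (l 16585768)) (b (b (l 16558792) (l 16571376)) (l 16602040))) (a (b (b (c (l 16585568) (l 16522784)) (l 16577216)) (l 16608080)) (b (b (a (l 16590440) (l 16573200)) (a (b (l 16578520) (l 16585040)) (b (l 16582016) (l 16588280)))) (b (b (l 16593328) (l 16600232)) (l 16610920)))))) (a (b (a (a (l 16587248) (l 16595952)) (b (l 16598568) (l 16613456))) (a (b (a (l 16605648) (l 16614728)) (a (l 16598016) (l 16628360))) (b (l 16632744) (a (l 16637224)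 (l 16645688))))) (b (a (b (l 16609992) (a (l 16622120) (l 16628240))) (b (l 16627688) (a (l 16634592) (l 16641152)))) (a (b (a (l 16637848) (l 16644080)) (a (l 16653824) (l 16660496))) (b (a (l 16650552) (l 16657224)) (a (l 16667072) (l 16673856))))))), by decide +kernel⟩

def k3_pp_022_a : ∃ t, chk3 f_pp_022_a t 9 6 1 = true :=
  ⟨(b (a (b (b (a (a (l 16578816) (l 16586248)) (l 16597336)) (a (a (l 16590760) (l 16598280)) (l 16609496))) (a (a (a (b (b (l 16598336) (l 16605080)) (l 16615792)) (b (l 16605376) (l 16619160))) (b (l 16611064) (b (l 16621136) (l 16628160)))) (a (l 16646384) (l 16632976)))) (a (b (l 16639232) (b (l 16637440) (l 16651216))) (b (l 16633200) (c (l 16680160) (l 16660008))))) (a (b (a (b (a (l 16611368) (b (l 16645944) (l 16643024))) (b (l 16647352) (l 16655312))) (a (b (l 16646688) (a (l 16675920) (b (l 16659960) (l 16667856)))) (b (l 16633368) (l 16644752)))) (a (b (a (l 16664072) (l 16671104)) (a (l 16680800) (l 16687928))) (a (b (l 16688824) (l 16695248)) (b (a (b (l 16679760) (l 16667088))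 (b (l 16683600) (l 16691864))) (b (l 16708920) (l 16707080)))))) (b (a (b (l 16665792) (a (l 16677336) (l 16685016))) (b (l 16702112) (c (l 16717496) (l 16696936)))) (a (b (a (l 16693512) (l 16701272)) (a (b (b (l 16683000) (l 16721392)) (a (l 16723448) (l 16738104))) (b (l 16714272) (l 4)))) (b (a (l 16730312) (l 16734112)) (l 4)))))), by decide +kernel⟩

def k4_pp_022_a : ∃ t, chk3 f_pp_022_a t 8 7 1 = true :=
  ⟨(b (a (b (a (b (b (l 16644784) (a (l 16636648) (l 16646376))) (a (b (l 16644064) (l 16651896)) (a (l 16655488) (l 16660336)))) (b (a (l 16651888) (l 16660616)) (a (l 16667392) (l 16676424)))) (a (a (b (a (l 6) (l 16667416)) (l 6)) (b (a (l 16693448) (l 16687912)) (b (l 16699008) (l 6)))) (b (a (b (l 16659168) (a (l 16686720) (l 16691480))) (b (l 16673632) (l 16698448))) (a (a (b (l 16695920) (l 6)) (b (l 16700736) (l 16720720))) (b (l 16707776) (l 16717352)))))) (b (a (b (a (l 16669016) (l 16677160)) (a (l 16685096) (l 16703984))) (b (a (l 16684248) (l 16691120)) (a (l 16706944) (b (l 16704488) (l 16713392)))))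 (a (b (a (b (l 16698224) (l 16707432)) (b (l 16706792) (l 16716104))) (a (b (l 16716872) (a (l 16724280) (l 16728808))) (b (l 16730680) (a (l 16732672) (l 16736056))))) (b (a (b (l 16714920) (l 16723544)) (b (l 16721952) (a (l 16728856) (l 16732688)))) (a (b (a (l 16730576) (l 16734176)) (a (l 16743728) (l 16747296))) (b (a (l 16738208) (l 4)) (l 4))))))) (a (b (a (l 6) (b (a (l 6) (b (b (l 16724688) (l 16729672)) (a (l 6) (l 16742312)))) (l 6))) (l 6)) (b (a (b (a (b (a (l 16734192) (l 16738424)) (a (b (l 16741776) (l 16746616)) (b (l 16745368) (l 16750360)))) (b (a (b (l 16739448) (l 16744176)) (b (l 16743112) (l 16748344))) (a (b (l 16749336) (l 4)) (l 4)))) (a (b (a (b (c (l 16751320) (l 16751376)) (l 6)) (l 4)) (l 4)) (l 4))) (l 4)) (l 4)))), by decide +kernel⟩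

def k5_pp_022_a : ∃ t, chk3 f_pp_022_a t 9 7 1 = true :=
  ⟨(b (a (b (b (a (a (l 16698160) (l 16710624)) (a (b (l 16708328) (l 16717376)) (c (l 16726080) (l 16721056)))) (b (a (a (l 16711600) (l 16718920)) (a (l 16727016) (l 4))) (a (a (l 16720544) (l 16738848)) (l 4)))) (a (b (a (b (a (l 16727416) (l 16731432)) (a (l 16736888) (l 4))) (l 4)) (l 4)) (l 4))) (b (l 4) (l 4))) (l 4)), by decide +kernel⟩

def k6_pp_022_a : ∃ t, chk3 f_pp_022_a t 5 3 1 = true :=
  ⟨(b (a (b (a (a (b (l 16668696) (c (l 16695424) (l 16696488))) (b (b (l 16654160) (l 16667712)) (b (l 16681912) (a (l 16693168) (l 16700064))))) (b (a (b (l 16668376) (l 16702968)) (b (a (l 16679840) (l 16687856)) (l 82375959127))) (a (b (a (l 16692576) (l 110293211511)) (l 4)) (l 4)))) (a (b (a (b (c (l 16717544) (l 16697360)) (b (l 16724624) (l 4))) (b (a (l 16718544) (l 4)) (l 4))) (l 4)) (l 4))) (b (a (b (a (b (a (l 46405681431) (l 4)) (l 4)) (l 4)) (l 4)) (l 4)) (l 4))) (l 4)), by decide +kernel⟩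

def k7_pp_022_a : ∃ t, chk3 f_pp_022_a t 3 1 1 = true :=
  ⟨(b (a (a (b (a (b (a (l 16661096) (l 16675496)) (a (a (l 16699688) (l 16707080)) (b (l 16669696) (l 16704072)))) (b (a (l 16711320) (l 16747704)) (a (b (l 16684928) (l 16740480)) (b (l 16721608) (b (l 16731472) (l 16760120)))))) (b (a (b (a (a (l 16680328) (l 16687904)) (c (l 16741712) (l 16740864))) (a (a (b (l 16694040) (l 16704000)) (l 91502715879)) (b (l 33520834295) (l 4)))) (a (b (b (l 16752488) (l 4)) (l 4)) (l 4))) (l 4))) (b (a (b (a (b (l 16695408) (l 16725512)) (a (l 16713016) (l 16758544))) (a (b (l 16737040) (a (l 16768072) (l 100092720919))) (b (c (l 21172823767) (l 20635955767)) (l 4)))) (a (b (b (l 16720256) (a (l 16726376) (l 2))) (b (b (l 49626948679) (l 4)) (l 4))) (l 2))) (l 4))) (b (l 2) (l 4))) (l 4)), by decide +kernel⟩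

theorem s8_pp_022_a : ∃ t, chk3 f_pp_022_a t 4 7 1 = true := ex3_a k4_pp_022_a k5_pp_022_a

theorem s9_pp_022_a : ∃ t, chk3 f_pp_022_a t 4 6 1 = true := ex3_a k2_pp_022_a k3_pp_022_a

theorem s10_pp_022_a : ∃ t, chk3 f_pp_022_a t 4 3 1 = true := ex3_b s9_pp_022_a s8_pp_022_a

theorem s11_pp_022_a : ∃ t, chk3 f_pp_022_a t 2 3 1 = true := ex3_a s10_pp_022_a k6_pp_022_a

theorem s12_pp_022_a : ∃ t, chk3 f_pp_022_a t 2 2 1 = true := ex3_a k0_pp_022_a k1_pp_022_a

theorem s13_pp_022_a : ∃ t, chk3 f_pp_022_a t 2 1 1 = true := ex3_b s12_pp_022_a s11_pp_022_a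

theorem s14_pp_022_a : ∃ t, chk3 f_pp_022_a t 1 1 1 = true := ex3_a s13_pp_022_a k7_pp_022_a

theorem c_pp_022_a : CertB 0 536870912 0 536870912 697932185 42949674 3 eng mog cd0q0 cd2q2a pd2 true true true .pp 0 2 2
    ndB0q0 ndB2q2a pcB2 cut_pp_022_a Ext.none :=
  certB0 (fam := true) (s1 := true) (s2 := true) (a := 0) (b := 2) (c := 2) (cn := .pp) (n1 := ndB0q0) (n2 := ndB2q2a) (pc := pcB2) (cut := cut_pp_022_a) (xt := Ext.none) (P1 := 0) (W1 := 536870912) (P2 := 0) (W2 := 536870912) (P3 := 697932185) (W3 := 42949674) (N0 := 3) (En := eng) (mo := mog) (C1 := cd0q0) (C2 := cd2q2a) (C3 := pd2)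
    rfl s14_pp_022_a

noncomputable def cut_pp_022_b : Cut := Cut.of [[⟨0, 0, 0, 67108864⟩, ⟨1, 1, 0, 67108864⟩, ⟨2, 1, 0, 67108864⟩]]

noncomputable def f_pp_022_b : ℕ → ℕ → ℕ → ℕ → Bool := onCell 1073741824 536870912 1239849684 370763052 697932185 42949674
    (rowB 3 eng mog cd0q0 cd2q2b pd2 2 true true true .pp 0 2 2 (qsf 0 536870912 1239849684 370763052 2) ndB0q0 ndB2q2b pcB2 cut_pp_022_b Ext.none)

def k0_pp_022_b : ∃ t, chk3 f_pp_022_b t 2 1 1 = true :=
  ⟨(b (a (l 1) (b (a (b (a (b (l 16458544) (l 1)) (a (b (l 16416920) (l 1)) (b (l 16428320) (l 16373800)))) (l 1)) (b (a (b (l 16444352) (l 16392296)) (b (l 16464104) (l 16405392))) (a (l 16428280) (b (l 16346408) (l 16286664))))) (a (l 1) (a (l 1) (b (l 16192368) (l 1)))))) (l 1)), by decide +kernel⟩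

def k1_pp_022_b : ∃ t, chk3 f_pp_022_b t 3 1 1 = true :=
  ⟨(a (b (b (a (b (a (b (l 16479680) (l 16420664)) (b (l 16499320) (l 16461840))) (a (l 16374504) (b (l 16381984) (l 16323448)))) (a (b (b (l 16544856) (a (l 16459112) (l 16472376))) (a (l 16371328) (l 16385064))) (b (a (l 16537744) (b (l 16561584) (l 16503408))) (a (l 16399568) (l 16415584))))) (a (a (b (b (l 16244040) (l 16183352)) (l 1)) (b (b (l 16265040) (l 16206368)) (l 16241832))) (a (b (a (l 16254592) (l 16268552)) (a (l 16137960) (l 16152920))) (b (a (l 16283504) (l 16300184)) (l 16177384))))) (a (l 1) (b (b (a (a (l 16014880) (l 16034168)) (l 16062744)) (a (l 1) (l 15941080))) (l 1)))) (b (b (a (b (a (b (a (l 16577976) (l 16593304)) (l 16571584)) (b (a (l 16608752) (l 16623752)) (l 16627896))) (a (b (l 16471752) (l 16412968)) (b (l 16531072) (l 16453680)))) (b (a (b (a (l 16638536) (l 16675552)) (l 16682672)) (a (b (l 16691240) (l 16623736)) (b (l 16695408) (l 16641320)))) (a (b (l 16548832) (l 16496720)) (b (l 16627976) (l 16536560))))) (a (b (a (l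 16369008) (a (l 16356648) (l 16378664))) (a (l 16214152) (l 16255664))) (b (a (a (l 16400736) (l 16424040)) (a (l 16446808) (l 16469824))) (a (l 16300592) (l 16391112))))) (a (b (a (b (l 16102656) (l 15989456)) (b (l 16145816) (l 16037360))) (a (l 1) (b (l 15925656) (l 1)))) (a (b (b (l 16192424) (l 16085864)) (b (l 15980336) (l 15870312))) (b (b (l 16239856) (l 16133336)) (b (l 16030504) (l 15927264))))))), by decide +kernel⟩

theorem s2_pp_022_b : ∃ t, chk3 f_pp_022_b t 1 1 1 = true := ex3_a k0_pp_022_b k1_pp_022_b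

theorem c_pp_022_b : CertB 0 536870912 1239849684 370763052 697932185 42949674 3 eng mog cd0q0 cd2q2b pd2 true true true .pp 0 2 2
    ndB0q0 ndB2q2b pcB2 cut_pp_022_b Ext.none :=
  certB2 (fam := true) (s1 := true) (s2 := true) (a := 0) (b := 2) (c := 2) (cn := .pp) (n1 := ndB0q0) (n2 := ndB2q2b) (pc := pcB2) (cut := cut_pp_022_b) (xt := Ext.none) (P1 := 0) (W1 := 536870912) (P2 := 1239849684) (W2 := 370763052) (P3 := 697932185) (W3 := 42949674) (N0 := 3) (En := eng) (mo := mog) (C1 := cd0q0) (C2 := cd2q2b) (C3 := pd2)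
    rfl (fun _ => rfl) s2_pp_022_b

noncomputable def f_pp_023_a : ℕ → ℕ → ℕ → ℕ → Bool := onCell 1610612736 536870912 0 536870912 697932185 42949674
    (rowB 3 eng mog cd0q0 cd2q2a pd3 2 true true true .up 0 2 3 (qsf 0 536870912 0 536870912 3) ndB0q0 ndB2q2a pcB3 Cut.none Ext.none)

def k0_pp_023_a : ∃ t, chk3 f_pp_023_a t 1 1 1 = true :=
  ⟨(a (a (b (b (a (a (b (a (b (l 16721280) (l 30836474103)) (b (l 16729736) (b (l 55532546391) (l 72175563687)))) (a (b (l 67343691255) (l 4)) (l 4))) (b (b (a (b (l 16735824) (l 57143169079)) (a (l 51237598791) (l 95260981143))) (l 4)) (l 4))) (l 4)) (l 4)) (l 4)) (l 4)) (l 2)), by decide +kernel⟩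

theorem c_pp_023_a : CertB 0 536870912 0 536870912 697932185 42949674 3 eng mog cd0q0 cd2q2a pd3 true true true .up 0 2 3
    ndB0q0 ndB2q2a pcB3 Cut.none Ext.none :=
  certB2 (fam := true) (s1 := true) (s2 := true) (a := 0) (b := 2) (c := 3) (cn := .up) (n1 := ndB0q0) (n2 := ndB2q2a) (pc := pcB3) (cut := Cut.none) (xt := Ext.none) (P1 := 0) (W1 := 536870912) (P2 := 0) (W2 := 536870912) (P3 := 697932185) (W3 := 42949674) (N0 := 3) (En := eng) (mo := mog) (C1 := cd0q0) (C2 := cd2q2a) (C3 := pd3)
    rfl (fun _ => rfl) k0_pp_023_a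

noncomputable def f_pp_023_b : ℕ → ℕ → ℕ → ℕ → Bool := onCell 1610612736 536870912 1239849684 370763052 697932185 42949674
    (rowB 3 eng mog cd0q0 cd2q2b pd3 2 true true true .up 0 2 3 (qsf 0 536870912 1239849684 370763052 3) ndB0q0 ndB2q2b pcB3 Cut.none Ext.none)

def k0_pp_023_b : ∃ t, chk3 f_pp_023_b t 1 1 1 = true :=
  ⟨(a (a (b (b (a (b (a (b (a (l 16698424) (l 16729312)) (a (l 16678496) (l 16671672))) (b (a (b (l 16725368) (l 16708952)) (b (l 16762056) (l 16718648))) (a (l 16682864) (l 16694432)))) (a (b (l 16621168) (l 16596048)) (b (l 17951450167) (l 16610992)))) (a (l 4) (l 4))) (a (a (b (l 16585280) (l 16439440)) (b (b (l 16565824) (l 4)) (l 4))) (l 4))) (a (a (b (b (l 16288936) (l 16181040)) (l 16130880)) (l 4)) (l 4))) (l 4)) (l 4)), by decide +kernel⟩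

theorem c_pp_023_b : CertB 0 536870912 1239849684 370763052 697932185 42949674 3 eng mog cd0q0 cd2q2b pd3 true true true .up 0 2 3
    ndB0q0 ndB2q2b pcB3 Cut.none Ext.none :=
  certB2 (fam := true) (s1 := true) (s2 := true) (a := 0) (b := 2) (c := 3) (cn := .up) (n1 := ndB0q0) (n2 := ndB2q2b) (pc := pcB3) (cut := Cut.none) (xt := Ext.none) (P1 := 0) (W1 := 536870912) (P2 := 1239849684) (W2 := 370763052) (P3 := 697932185) (W3 := 42949674) (N0 := 3) (En := eng) (mo := mog) (C1 := cd0q0) (C2 := cd2q2b) (C3 := pd3)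
    rfl (fun _ => rfl) k0_pp_023_b

noncomputable def f_pp_033 : ℕ → ℕ → ℕ → ℕ → Bool := onCell 0 536870912 1610612736 536870912 697932185 42949674
    (rowB 3 eng mog cd0q0 cd2q3 pd3 1 true true true .pnn 0 3 3 (qsf 0 536870912 1610612736 536870912 3) ndB0q0 ndB2q3 pcB3 Cut.none Ext.none)

def k0_pp_033 : ∃ t, chk3 f_pp_033 t 1 1 1 = true :=
  ⟨(b (b (a (b (a (b (a (l 15953688) (l 1)) (l 4)) (l 1)) (l 4)) (l 1)) (l 4)) (l 4)), by decide +kernel⟩

theorem c_pp_033 : CertB 0 536870912 1610612736 536870912 697932185 42949674 3 eng mog cd0q0 cd2q3 pd3 true true true .pnn 0 3 3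
    ndB0q0 ndB2q3 pcB3 Cut.none Ext.none :=
  certB1 (fam := true) (s1 := true) (s2 := true) (a := 0) (b := 3) (c := 3) (cn := .pnn) (n1 := ndB0q0) (n2 := ndB2q3) (pc := pcB3) (cut := Cut.none) (xt := Ext.none) (P1 := 0) (W1 := 536870912) (P2 := 1610612736) (W2 := 536870912) (P3 := 697932185) (W3 := 42949674) (N0 := 3) (En := eng) (mo := mog) (C1 := cd0q0) (C2 := cd2q3) (C3 := pd3)
    rfl (fun _ => rfl) k0_pp_033

noncomputable def f_pp_101 : ℕ → ℕ → ℕ → ℕ → Bool := onCell 536870912 536870912 0 536870912 697932185 42949674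
    (rowB 3 eng mog cd0q1 cd2q0 pd1 0 true true true .npn 1 0 1 (qsf 536870912 536870912 0 536870912 1) ndB0q1 ndB2q0 pcB1 Cut.none Ext.none)

def k0_pp_101 : ∃ t, chk3 f_pp_101 t 1 1 1 = true :=
  ⟨(l 5), by decide +kernel⟩

theorem c_pp_101 : CertB 536870912 536870912 0 536870912 697932185 42949674 3 eng mog cd0q1 cd2q0 pd1 true true true .npn 1 0 1
    ndB0q1 ndB2q0 pcB1 Cut.none Ext.none :=
  certB0 (fam := true) (s1 := true) (s2 := true) (a := 1) (b := 0) (c := 1) (cn := .npn) (n1 := ndB0q1) (n2 := ndB2q0) (pc := pcB1) (cut := Cut.none) (xt := Ext.none) (P1 := 536870912) (W1 := 536870912) (P2 := 0) (W2 := 536870912) (P3 := 697932185) (W3 := 42949674) (N0 := 3) (En := eng) (mo := mog) (C1 := cd0q1) (C2 := cd2q0) (C3 := pd1)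
    rfl k0_pp_101

noncomputable def f_pp_102 : ℕ → ℕ → ℕ → ℕ → Bool := onCell 536870912 536870912 0 536870912 697932185 42949674
    (rowB 3 eng mog cd0q1 cd2q0 pd2 0 true true true .npp 1 0 2 (qsf 536870912 536870912 0 536870912 2) ndB0q1 ndB2q0 pcB2 Cut.none Ext.none)

def k0_pp_102 : ∃ t, chk3 f_pp_102 t 1 1 1 = true :=
  ⟨(l 5), by decide +kernel⟩

theorem c_pp_102 : CertB 536870912 536870912 0 536870912 697932185 42949674 3 eng mog cd0q1 cd2q0 pd2 true true true .npp 1 0 2
    ndB0q1 ndB2q0 pcB2 Cut.none Ext.none :=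
  certB0 (fam := true) (s1 := true) (s2 := true) (a := 1) (b := 0) (c := 2) (cn := .npp) (n1 := ndB0q1) (n2 := ndB2q0) (pc := pcB2) (cut := Cut.none) (xt := Ext.none) (P1 := 536870912) (W1 := 536870912) (P2 := 0) (W2 := 536870912) (P3 := 697932185) (W3 := 42949674) (N0 := 3) (En := eng) (mo := mog) (C1 := cd0q1) (C2 := cd2q0) (C3 := pd2)
    rfl k0_pp_102

noncomputable def f_pp_112 : ℕ → ℕ → ℕ → ℕ → Bool := onCell 536870912 536870912 536870912 536870912 697932185 42949674
    (rowB 3 eng mog cd0q1 cd2q1 pd2 0 true true true .dn 1 1 2 (qsf 536870912 536870912 536870912 536870912 2) ndB0q1 ndB2q1 pcB2 Cut.none Ext.none)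

def k0_pp_112 : ∃ t, chk3 f_pp_112 t 1 1 1 = true :=
  ⟨(l 4), by decide +kernel⟩

theorem c_pp_112 : CertB 536870912 536870912 536870912 536870912 697932185 42949674 3 eng mog cd0q1 cd2q1 pd2 true true true .dn 1 1 2
    ndB0q1 ndB2q1 pcB2 Cut.none Ext.none :=
  certB0 (fam := true) (s1 := true) (s2 := true) (a := 1) (b := 1) (c := 2) (cn := .dn) (n1 := ndB0q1) (n2 := ndB2q1) (pc := pcB2) (cut := Cut.none) (xt := Ext.none) (P1 := 536870912) (W1 := 536870912) (P2 := 536870912) (W2 := 536870912) (P3 := 697932185) (W3 := 42949674) (N0 := 3) (En := eng) (mo := mog) (C1 := cd0q1) (C2 := cd2q1) (C3 := pd2)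
    rfl k0_pp_112

noncomputable def f_pp_113 : ℕ → ℕ → ℕ → ℕ → Bool := onCell 536870912 536870912 536870912 536870912 697932185 42949674
    (rowB 3 eng mog cd0q1 cd2q1 pd3 0 true true true .nn 1 1 3 (qsf 536870912 536870912 536870912 536870912 3) ndB0q1 ndB2q1 pcB3 Cut.none Ext.none)

def k0_pp_113 : ∃ t, chk3 f_pp_113 t 1 1 1 = true :=
  ⟨(l 4), by decide +kernel⟩

theorem c_pp_113 : CertB 536870912 536870912 536870912 536870912 697932185 42949674 3 eng mog cd0q1 cd2q1 pd3 true true true .nn 1 1 3
    ndB0q1 ndB2q1 pcB3 Cut.none Ext.none :=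
  certB0 (fam := true) (s1 := true) (s2 := true) (a := 1) (b := 1) (c := 3) (cn := .nn) (n1 := ndB0q1) (n2 := ndB2q1) (pc := pcB3) (cut := Cut.none) (xt := Ext.none) (P1 := 536870912) (W1 := 536870912) (P2 := 536870912) (W2 := 536870912) (P3 := 697932185) (W3 := 42949674) (N0 := 3) (En := eng) (mo := mog) (C1 := cd0q1) (C2 := cd2q1) (C3 := pd3)
    rfl k0_pp_113

noncomputable def f_pp_123_a : ℕ → ℕ → ℕ → ℕ → Bool := onCell 536870912 536870912 0 536870912 697932185 42949674
    (rowB 3 eng mog cd0q1 cd2q2a pd3 0 true true true .npn 1 2 3 (qsf 536870912 536870912 0 536870912 3) ndB0q1 ndB2q2a pcB3 Cut.none Ext.none)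

def k0_pp_123_a : ∃ t, chk3 f_pp_123_a t 1 1 1 = true :=
  ⟨(a (l 4) (l 4)), by decide +kernel⟩

theorem c_pp_123_a : CertB 536870912 536870912 0 536870912 697932185 42949674 3 eng mog cd0q1 cd2q2a pd3 true true true .npn 1 2 3
    ndB0q1 ndB2q2a pcB3 Cut.none Ext.none :=
  certB0 (fam := true) (s1 := true) (s2 := true) (a := 1) (b := 2) (c := 3) (cn := .npn) (n1 := ndB0q1) (n2 := ndB2q2a) (pc := pcB3) (cut := Cut.none) (xt := Ext.none) (P1 := 536870912) (W1 := 536870912) (P2 := 0) (W2 := 536870912) (P3 := 697932185) (W3 := 42949674) (N0 := 3) (En := eng) (mo := mog) (C1 := cd0q1) (C2 := cd2q2a) (C3 := pd3)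
    rfl k0_pp_123_a

noncomputable def f_pp_123_b : ℕ → ℕ → ℕ → ℕ → Bool := onCell 536870912 536870912 1239849684 370763052 697932185 42949674
    (rowB 3 eng mog cd0q1 cd2q2b pd3 0 true true true .npn 1 2 3 (qsf 536870912 536870912 1239849684 370763052 3) ndB0q1 ndB2q2b pcB3 Cut.none Ext.none)

def k0_pp_123_b : ∃ t, chk3 f_pp_123_b t 1 1 1 = true :=
  ⟨(a (l 4) (l 4)), by decide +kernel⟩

theorem c_pp_123_b : CertB 536870912 536870912 1239849684 370763052 697932185 42949674 3 eng mog cd0q1 cd2q2b pd3 true true true .npn 1 2 3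
    ndB0q1 ndB2q2b pcB3 Cut.none Ext.none :=
  certB0 (fam := true) (s1 := true) (s2 := true) (a := 1) (b := 2) (c := 3) (cn := .npn) (n1 := ndB0q1) (n2 := ndB2q2b) (pc := pcB3) (cut := Cut.none) (xt := Ext.none) (P1 := 536870912) (W1 := 536870912) (P2 := 1239849684) (W2 := 370763052) (P3 := 697932185) (W3 := 42949674) (N0 := 3) (En := eng) (mo := mog) (C1 := cd0q1) (C2 := cd2q2b) (C3 := pd3)
    rfl k0_pp_123_b

noncomputable def f_pp_133 : ℕ → ℕ → ℕ → ℕ → Bool := onCell 536870912 536870912 1610612736 536870912 697932185 42949674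
    (rowB 3 eng mog cd0q1 cd2q3 pd3 0 true true true .dn 1 3 3 (qsf 536870912 536870912 1610612736 536870912 3) ndB0q1 ndB2q3 pcB3 Cut.none Ext.none)

def k0_pp_133 : ∃ t, chk3 f_pp_133 t 1 1 1 = true :=
  ⟨(l 4), by decide +kernel⟩

theorem c_pp_133 : CertB 536870912 536870912 1610612736 536870912 697932185 42949674 3 eng mog cd0q1 cd2q3 pd3 true true true .dn 1 3 3
    ndB0q1 ndB2q3 pcB3 Cut.none Ext.none :=
  certB0 (fam := true) (s1 := true) (s2 := true) (a := 1) (b := 3) (c := 3) (cn := .dn) (n1 := ndB0q1) (n2 := ndB2q3) (pc := pcB3) (cut := Cut.none) (xt := Ext.none) (P1 := 536870912) (W1 := 536870912) (P2 := 1610612736) (W2 := 536870912) (P3 := 697932185) (W3 := 42949674) (N0 := 3) (En := eng) (mo := mog) (C1 := cd0q1) (C2 := cd2q3) (C3 := pd3)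
    rfl k0_pp_133

noncomputable def f_pp_202 : ℕ → ℕ → ℕ → ℕ → Bool := onCell 0 536870912 0 536870912 697932185 42949674
    (rowB 3 eng mog cd0q2 cd2q0 pd2 0 true true true .pp 2 0 2 (qsf 0 536870912 0 536870912 2) ndB0q2 ndB2q0 pcB2 Cut.none Ext.none)

def k0_pp_202 : ∃ t, chk3 f_pp_202 t 1 1 1 = true :=
  ⟨(l 5), by decide +kernel⟩

theorem c_pp_202 : CertB 0 536870912 0 536870912 697932185 42949674 3 eng mog cd0q2 cd2q0 pd2 true true true .pp 2 0 2
    ndB0q2 ndB2q0 pcB2 Cut.none Ext.none :=
  certB0 (fam := true) (s1 := true) (s2 := true) (a := 2) (b := 0) (c := 2) (cn := .pp) (n1 := ndB0q2) (n2 := ndB2q0) (pc := pcB2) (cut := Cut.none) (xt := Ext.none) (P1 := 0) (W1 := 536870912) (P2 := 0) (W2 := 536870912) (P3 := 697932185) (W3 := 42949674) (N0 := 3) (En := eng) (mo := mog) (C1 := cd0q2) (C2 := cd2q0) (C3 := pd2)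
    rfl k0_pp_202

noncomputable def f_pp_203 : ℕ → ℕ → ℕ → ℕ → Bool := onCell 0 536870912 0 536870912 697932185 42949674
    (rowB 3 eng mog cd0q2 cd2q0 pd3 0 true true true .up 2 0 3 (qsf 0 536870912 0 536870912 3) ndB0q2 ndB2q0 pcB3 Cut.none Ext.none)

def k0_pp_203 : ∃ t, chk3 f_pp_203 t 1 1 1 = true :=
  ⟨(l 5), by decide +kernel⟩

theorem c_pp_203 : CertB 0 536870912 0 536870912 697932185 42949674 3 eng mog cd0q2 cd2q0 pd3 true true true .up 2 0 3
    ndB0q2 ndB2q0 pcB3 Cut.none Ext.none :=
  certB0 (fam := true) (s1 := true) (s2 := true) (a := 2) (b := 0) (c := 3) (cn := .up) (n1 := ndB0q2) (n2 := ndB2q0) (pc := pcB3) (cut := Cut.none) (xt := Ext.none) (P1 := 0) (W1 := 536870912) (P2 := 0) (W2 := 536870912) (P3 := 697932185) (W3 := 42949674) (N0 := 3) (En := eng) (mo := mog) (C1 := cd0q2) (C2 := cd2q0) (C3 := pd3)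
    rfl k0_pp_203

noncomputable def f_pp_213 : ℕ → ℕ → ℕ → ℕ → Bool := onCell 0 536870912 536870912 536870912 697932185 42949674
    (rowB 3 eng mog cd0q2 cd2q1 pd3 0 true true true .pnn 2 1 3 (qsf 0 536870912 536870912 536870912 3) ndB0q2 ndB2q1 pcB3 Cut.none Ext.none)

def k0_pp_213 : ∃ t, chk3 f_pp_213 t 1 1 1 = true :=
  ⟨(l 5), by decide +kernel⟩

theorem c_pp_213 : CertB 0 536870912 536870912 536870912 697932185 42949674 3 eng mog cd0q2 cd2q1 pd3 true true true .pnn 2 1 3
    ndB0q2 ndB2q1 pcB3 Cut.none Ext.none :=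
  certB0 (fam := true) (s1 := true) (s2 := true) (a := 2) (b := 1) (c := 3) (cn := .pnn) (n1 := ndB0q2) (n2 := ndB2q1) (pc := pcB3) (cut := Cut.none) (xt := Ext.none) (P1 := 0) (W1 := 536870912) (P2 := 536870912) (W2 := 536870912) (P3 := 697932185) (W3 := 42949674) (N0 := 3) (En := eng) (mo := mog) (C1 := cd0q2) (C2 := cd2q1) (C3 := pd3)
    rfl k0_pp_213

noncomputable def f_pm_001 : ℕ → ℕ → ℕ → ℕ → Bool := onCell 0 536870912 0 536870912 697932185 42949674
    (rowB 3 eng mog cd0q0 cd2q0 pd1 0 true true false .up 0 0 1 (qsf 0 536870912 0 536870912 1) ndB0q0 ndB2q0 pcB1 Cut.none Ext.none)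

def k0_pm_001 : ∃ t, chk3 f_pm_001 t 1 1 1 = true :=
  ⟨(l 3), by decide +kernel⟩

theorem c_pm_001 : CertB 0 536870912 0 536870912 697932185 42949674 3 eng mog cd0q0 cd2q0 pd1 true true false .up 0 0 1
    ndB0q0 ndB2q0 pcB1 Cut.none Ext.none :=
  certB0 (fam := true) (s1 := true) (s2 := false) (a := 0) (b := 0) (c := 1) (cn := .up) (n1 := ndB0q0) (n2 := ndB2q0) (pc := pcB1) (cut := Cut.none) (xt := Ext.none) (P1 := 0) (W1 := 536870912) (P2 := 0) (W2 := 536870912) (P3 := 697932185) (W3 := 42949674) (N0 := 3) (En := eng) (mo := mog) (C1 := cd0q0) (C2 := cd2q0) (C3 := pd1)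
    rfl k0_pm_001

noncomputable def f_pm_011 : ℕ → ℕ → ℕ → ℕ → Bool := onCell 0 536870912 536870912 536870912 697932185 42949674
    (rowB 3 eng mog cd0q0 cd2q1 pd1 1 true true false .pnn 0 1 1 (qsf 0 536870912 536870912 536870912 1) ndB0q0 ndB2q1 pcB1 Cut.none Ext.none)

def k0_pm_011 : ∃ t, chk3 f_pm_011 t 1 1 1 = true :=
  ⟨(l 3), by decide +kernel⟩

theorem c_pm_011 : CertB 0 536870912 536870912 536870912 697932185 42949674 3 eng mog cd0q0 cd2q1 pd1 true true false .pnn 0 1 1
    ndB0q0 ndB2q1 pcB1 Cut.none Ext.none :=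
  certB1 (fam := true) (s1 := true) (s2 := false) (a := 0) (b := 1) (c := 1) (cn := .pnn) (n1 := ndB0q0) (n2 := ndB2q1) (pc := pcB1) (cut := Cut.none) (xt := Ext.none) (P1 := 0) (W1 := 536870912) (P2 := 536870912) (W2 := 536870912) (P3 := 697932185) (W3 := 42949674) (N0 := 3) (En := eng) (mo := mog) (C1 := cd0q0) (C2 := cd2q1) (C3 := pd1)
    rfl (fun _ => rfl) k0_pm_011

end Pool.Agent.Strip051.G.I6500_6900.Tab.C.BA02

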