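import Pool.Agent.Strip051.G.I6500_6900.Tab
import Pool.Agent.Strip051.PB.ExtD2

/-! # Certificates B6 (generated) -/

set_option linter.all false
set_option maxRecDepth 100000

namespace Pool.Agent.Strip051.G.I6500_6900.Tab.C.BA02

open Pool.Agent.Strip051.PB Pool.Agent.Strip051.PB.T
open Pool.Agent.Strip051.G.I6500_6900.Tab

noncomputable def f_pm_012 : ℕ → ℕ → ℕ → ℕ → Bool := onCell 0 536870912 1073741824 536870912 697932185 42949674
    (rowB 3 eng mog cd0q0 cd2q1 pd2 1 true true false .pnp 0 1 2 (qsf 0 536870912 536870912 536870912 2) ndB0q0 ndB2q1 pcB2 Cut.none Ext.none)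

def k0_pm_012 : ∃ t, chk3 f_pm_012 t 1 4 1 = true :=
  ⟨(a (b (l 3) (a (b (a (b (l 3) (l 2)) (l 3)) (a (l 2) (b (l 3) (a (l 2) (b (l 3) (a (l 2) (l 3))))))) (l 3))) (l 3)), by decide +kernel⟩

def k1_pm_012 : ∃ t, chk3 f_pm_012 t 2 5 1 = true :=
  ⟨(b (b (b (a (a (l 2) (a (l 2) (b (a (l 2) (b (l 16575568) (l 2))) (l 2)))) (a (b (a (b (l 3) (a (l 16577632) (l 3))) (l 3)) (b (a (a (l 16571616) (l 16580552)) (l 3)) (a (a (l 16565192) (l 16574136)) (l 16578464)))) (l 3))) (a (l 2) (b (a (a (b (a (l 16558608) (l 16567648)) (l 16577328)) (b (a (l 16569608) (l 16571024)) (l 16583616))) (a (b (a (l 16572360) (l 3)) (a (l 16564464) (l 16566344))) (b (l 3) (a (l 16569120) (l 3))))) (a (a (a (l 2) (b (l 16553376) (b (l 16547680) (l 16543976)))) (b (a (l 16554848) (l 16555936)) (b (l 16571280) (a (l 16546088) (l 16546984))))) (b (a (b (a (l 16558728) (l 16560544)) (a (l 16555136) (l 16556848))) (b (a (l 16563392) (l 16567056)) (a (l 16559600) (l 16563304)))) (b (b (a (l 16553432) (l 16579568)) (a (l 16551640) (a (l 16554976)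 (l 16558624)))) (a (a (c (l 16550608) (l 16503104)) (l 16549488)) (a (l 16552168) (l 16555824))))))))) (a (l 2) (a (a (a (l 2) (l 16514576)) (a (l 16556656) (b (l 16529680) (l 16499680)))) (a (a (b (l 16530344) (l 16499664)) (l 16537488)) (a (l 16540352) (l 16523520)))))) (a (l 2) (a (a (l 2) (b (a (l 2) (l 16458712)) (l 2))) (a (b (a (b (l 16470336) (l 16442928)) (b (l 16470872) (l 16442184))) (a (l 2) (l 16424256))) (b (a (l 16479688) (l 16483784)) (a (b (l 16415792) (l 16389600)) (b (l 16418768) (l 16391200)))))))), by decide +kernel⟩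

def k2_pm_012 : ∃ t, chk3 f_pm_012 t 3 20 1 = true :=
  ⟨(b (l 3) (a (b (l 3) (b (a (a (b (a (l 16571368) (l 3)) (a (l 16567664) (l 16572104))) (l 3)) (l 3)) (a (b (b (a (a (l 16564872) (l 16569376)) (a (l 16573616) (l 16577552))) (a (a (l 16604968) (l 16567568)) (a (l 16571880) (a (l 16574936) (l 16576872))))) (b (b (b (a (l 16564032) (l 16572728)) (b (a (l 16563688) (l 16572392)) (a (l 16563456) (a (l 16570216) (l 16574296))))) (a (l 16562880) (l 16571624))) (a (l 16561504) (l 16570336)))) (b (b (l 3) (a (b (l 3) (l 313700043575)) (l 3))) (b (b (b (a (l 16581296) (l 3)) (b (a (l 16581008) (l 16592800)) (a (l 16580800) (l 16592616)))) (a (l 16580304) (l 16592160))) (a (l 16579112) (l 16591072))))))) (b (a (l 3) (b (l 3) (a (l 3) (b (l 3) (a (l 3) (l 16637368)))))) (b (a (b (l 3) (a (l 3) (c (l 16624920) (l 16615888)))) (b (a (a (l 3) (l 16631424)) (a (l 16634240) (l 16636848))) (a (c (l 16632296) (l 16624368)) (a (l 16633184) (l 16635936))))) (a (b (b (a (l 3) (l 16619088)) (a (a (l 16604096) (l 16610104))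 (a (l 16615424) (l 16620120)))) (b (b (b (a (l 16606328) (l 16617152)) (b (a (l 16606080) (l 16616984)) (a (l 16605936) (l 16616912)))) (a (l 16605536) (l 16616576))) (a (l 16604544) (l 16615704)))) (b (b (a (l 16627224) (l 16633792)) (a (a (l 16624384) (l 16628184)) (a (l 16631664) (l 16635120)))) (a (b (b (b (l 16625912) (b (l 16625848) (l 16625856))) (l 16625592)) (l 16624856)) (c (l 16657416) (l 16629064))))))))), by decide +kernel⟩

def k3_pm_012 : ∃ t, chk3 f_pm_012 t 3 21 1 = true :=
  ⟨(a (a (a (a (l 16549528) (l 16533912)) (a (l 16560192) (b (l 16558064) (l 16530424)))) (a (a (l 16570608) (l 16555696)) (a (l 16562680) (l 16570592)))) (a (a (l 16603384) (l 16617016)) (a (l 16607872) (l 16618328)))), by decide +kernel⟩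

def k4_pm_012 : ∃ t, chk3 f_pm_012 t 3 11 1 = true :=
  ⟨(a (a (a (b (a (l 16489392) (l 16474824)) (a (l 16451704) (l 16437096))) (b (a (l 16481488) (l 16488312)) (a (l 16423472) (l 16431448)))) (a (b (a (l 16495472) (l 16503488)) (a (l 16440080) (l 16449712))) (b (a (l 16512392) (l 16522128)) (a (l 16460256) (l 16471616))))) (a (a (b (l 16536856) (l 16488856)) (b (l 16554768) (l 16510600))) (a (b (l 16571208) (l 16531208)) (l 16684512)))), by decide +kernel⟩

def k5_pm_012 : ∃ t, chk3 f_pm_012 t 1 3 1 = true :=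
  ⟨(a (b (a (l 2) (b (a (l 2) (a (l 2) (b (b (l 16407592) (l 2)) (l 2)))) (l 2))) (l 2)) (a (b (a (b (a (b (a (b (l 16368336) (l 16342760)) (b (l 16373496) (l 16346664))) (a (l 2) (l 16308600))) (b (a (b (l 16380536) (l 16352864)) (b (l 16388880) (l 16361016))) (a (l 16334328) (b (l 16333736) (l 16307352))))) (a (l 2) (b (a (l 2) (l 16270328)) (l 2)))) (b (a (b (a (l 16384536) (l 16395272)) (a (l 16330120) (l 16341344))) (b (a (l 16407040) (l 16419664)) (a (l 16353800) (l 16367152)))) (a (b (a (l 16299488) (l 16289208)) (a (l 2) (l 16240856))) (b (a (l 16301648) (l 16315176)) (a (l 16252072) (l 16264896)))))) (b (a (l 2) (b (a (l 2) (a (l 2) (l 16218248))) (l 2))) (l 2))) (b (a (b (a (b (l 16439072) (l 16388144)) (b (l 16464264) (l 16416336))) (a (b (l 16336928) (l 16286496)) (b (l 16367400) (l 16318192)))) (b (a (l 16514272) (l 16555936)) (a (l 16397008) (l 16409648)))) (a (b (a (b (l 16238216) (l 114989957863)) (b (l 16269752) (l 16223568))) (b (a (l 2) (l 120895534375)) (l 2))) (b (a (b (l 16305672) (l 16259744))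 (l 16322800)) (a (b (l 16216096) (l 16198440)) (b (l 16257400) (l 16216792)))))))), by decide +kernel⟩

theorem s6_pm_012 : ∃ t, chk3 f_pm_012 t 3 10 1 = true := ex3_b k2_pm_012 k3_pm_012

theorem s7_pm_012 : ∃ t, chk3 f_pm_012 t 3 5 1 = true := ex3_b s6_pm_012 k4_pm_012

theorem s8_pm_012 : ∃ t, chk3 f_pm_012 t 1 5 1 = true := ex3_a k1_pm_012 s7_pm_012

theorem s9_pm_012 : ∃ t, chk3 f_pm_012 t 1 2 1 = true := ex3_b k0_pm_012 s8_pm_012

theorem s10_pm_012 : ∃ t, chk3 f_pm_012 t 1 1 1 = true := ex3_b s9_pm_012 k5_pm_012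

theorem c_pm_012 : CertB 0 536870912 536870912 536870912 697932185 42949674 3 eng mog cd0q0 cd2q1 pd2 true true false .pnp 0 1 2
    ndB0q0 ndB2q1 pcB2 Cut.none Ext.none :=
  certB1 (fam := true) (s1 := true) (s2 := false) (a := 0) (b := 1) (c := 2) (cn := .pnp) (n1 := ndB0q0) (n2 := ndB2q1) (pc := pcB2) (cut := Cut.none) (xt := Ext.none) (P1 := 0) (W1 := 536870912) (P2 := 536870912) (W2 := 536870912) (P3 := 697932185) (W3 := 42949674) (N0 := 3) (En := eng) (mo := mog) (C1 := cd0q0) (C2 := cd2q1) (C3 := pd2)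
    rfl (fun _ => rfl) s10_pm_012

noncomputable def cut_pm_022_a : Cut := Cut.of [[⟨0, 0, 0, 67108864⟩, ⟨1, 1, 0, 67108864⟩, ⟨2, 1, 0, 67108864⟩]]

noncomputable def xt_pm_022_a : Ext := extD2 3 ⟨7, 3, 3, 10, 49, 25, 3, 4, 67, 200, 3, 16⟩ eng cd0q0 cd2q2a pd2 true true false .pp 0 2 2 rfl ndB0q0 ndB2q2a pcB2

noncomputable def f_pm_022_a : ℕ → ℕ → ℕ → ℕ → Bool := onCell 1073741824 536870912 0 536870912 697932185 42949674
    (rowB 3 eng mog cd0q0 cd2q2a pd2 2 true true false .pp 0 2 2 (qsf 0 536870912 0 536870912 2) ndB0q0 ndB2q2a pcB2 cut_pm_022_a xt_pm_022_a)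

def k0_pm_022_a : ∃ t, chk3 f_pm_022_a t 8 1 1 = true :=
  ⟨(b (l 1) (b (l 1) (b (a (l 1) (b (a (l 1) (a (l 1) (b (l 1) (b (l 16615120) (l 75732051943))))) (a (l 6) (a (l 6) (a (l 6) (b (l 16637472) (l 16654984))))))) (a (l 6) (a (l 6) (a (l 6) (a (l 6) (b (b (l 16672392) (l 16689168)) (b (l 16686944) (b (l 16697760) (b (l 16697648) (l 16702704)))))))))))), by decide +kernel⟩

def k1_pm_022_a : ∃ t, chk3 f_pm_022_a t 9 2 1 = true :=
  ⟨(b (l 1) (a (l 1) (b (l 1) (a (l 1) (b (l 1) (a (l 1) (l 16484384))))))), by decide +kernel⟩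

def k2_pm_022_a : ∃ t, chk3 f_pm_022_a t 9 6 1 = true :=
  ⟨(a (b (l 1) (a (b (l 1) (a (l 1) (b (l 16565808) (l 16582960)))) (b (a (l 16563888) (b (l 16537384) (l 16552416))) (b (a (l 16566944) (l 16567640)) (a (l 16583136) (l 16582928)))))) (b (a (b (b (l 1) (l 16500864)) (a (l 16518856) (l 16521728))) (b (a (l 16500920) (l 16504360)) (a (l 16524128) (l 16526120)))) (b (a (a (b (l 16539464) (l 16553624)) (l 16547856)) (a (l 16548712) (l 16549264))) (a (b (l 16567984) (l 16582024)) (b (l 16567440) (l 16538080)))))), by decide +kernel⟩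

def k3_pm_022_a : ∃ t, chk3 f_pm_022_a t 9 7 1 = true :=
  ⟨(b (a (b (a (b (a (l 16621592) (l 16600192)) (a (b (l 16614296) (l 16623200)) (l 16617360))) (b (a (l 16599416) (l 16598328)) (a (l 16615672) (l 16613728)))) (a (b (a (l 16635896) (l 16633584)) (a (l 16652728) (l 16649568))) (b (a (l 16631064) (l 16628360)) (l 16644520)))) (b (a (b (l 16596216) (l 16610448)) (a (l 16600440) (l 16598288))) (a (b (l 16624024) (l 16637552)) (c (l 16622176) (l 16622424))))) (b (a (b (a (a (l 16669480) (l 16665520)) (l 16659368)) (a (a (l 16685672) (l 16679128)) (a (l 16669560) (l 16660112)))) (a (b (l 16644544) (a (l 16650720) (l 16641440))) (b (a (l 16630984) (l 16622256)) (a (l 16632384) (l 16623528))))) (a (b (a (a (a (l 16671592) (l 16666728)) (a (l 16661864) (l 16656992))) (a (a (l 16673104) (l 16668256)) (l 16661048))) (a (b (a (l 16700872) (l 16680504)) (b (a (l 16700696) (l 16680272)) (a (a (l 16692472) (l 16687472)) (c (l 16681048) (l 16678976))))) (b (a (l 16670648) (l 16660920)) (b (a (l 16670360) (l 16660576))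 (a (a (l 16672512) (l 16667584)) (a (l 16662672) (l 16657792))))))) (b (a (a (l 16651504) (l 16642128)) (a (l 16632936) (l 16623944))) (a (a (b (l 16651280) (b (l 16650888) (a (l 16652928) (l 16648088)))) (b (l 16641800) (b (l 16641352) (a (l 16643296) (l 16638568))))) (a (b (l 16632504) (c (l 16633512) (b (l 16630472) (l 16629808)))) (b (l 16623392) (a (a (l 16625984) (l 16623704)) (l 16620320))))))))), by decide +kernel⟩

def k4_pm_022_a : ∃ t, chk3 f_pm_022_a t 5 2 1 = true :=
  ⟨(a (b (a (a (l 1) (b (c (l 16447064) (l 16433168)) (b (l 16447344) (a (l 16453184) (a (l 16458024) (c (l 16466520) (l 16453848))))))) (b (a (a (l 16450944) (a (l 16455560) (l 16528472))) (b (l 16454152) (l 16454960))) (a (b (l 16480448) (b (l 16465200) (l 16469304))) (b (l 16459104) (l 16466368))))) (a (a (b (b (l 16429976) (l 16461408)) (b (l 16495712) (a (l 16488712) (l 16492520)))) (a (b (b (l 16461160) (l 16470064)) (b (l 16481720) (l 16495808))) (b (a (l 16449032) (a (l 16471920) (l 16452104))) (a (b (l 16484688) (l 16497896))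 (a (l 16492528) (b (l 16486504) (l 16498816))))))) (b (a (a (l 16476280) (l 16554280)) (c (l 16479920) (l 16471712))) (a (b (l 16490624) (l 16501920)) (b (l 16488360) (l 16498864)))))) (b (a (b (c (a (l 16454784) (b (l 16452312) (l 16452104))) (a (b (l 16444080) (l 16444104)) (b (l 16441640) (l 16441072)))) (a (b (l 16453296) (l 16459544)) (b (l 16449648) (l 16371120)))) (b (a (b (l 16463032) (a (l 16446336) (l 16446432))) (b (a (l 16448360) (l 16449520)) (c (l 16452800) (l 16440976)))) (a (b (l 16448152) (l 16452640)) (b (l 16448440) (l 16452048))))) (b (a (b (a (l 16467360) (l 16462448)) (a (l 16473576) (l 16468864))) (b (a (l 16459352) (l 16457864)) (l 16464816))) (a (a (b (l 16481648) (l 16491776)) (b (l 16476688) (l 16486312))) (a (l 16498896) (l 16496264)))))), by decide +kernel⟩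

def k5_pm_022_a : ∃ t, chk3 f_pm_022_a t 5 6 1 = true :=
  ⟨(a (a (a (b (b (a (l 16507336) (l 16509872)) (a (l 16527728) (l 16528984))) (b (a (l 16549528) (l 16549504)) (a (l 16572376) (l 16571136)))) (b (a (b (l 16511936) (l 16529808)) (a (b (l 16513120) (l 16530080)) (b (a (l 16513352) (l 16513128)) (a (l 16529792) (l 16529152))))) (a (b (l 16549104) (l 16569504)) (a (b (l 16548480) (l 16567872)) (b (a (l 16547680) (l 16546608)) (c (l 16568256) (l 16561384))))))) (b (a (b (l 16515168) (l 16530144)) (b (l 16511200) (l 16525032))) (a (b (l 16546384) (l 16563448)) (b (l 16540040) (l 16555448))))) (b (a (b (a (l 16503648) (l 16497440)) (a (l 16516768) (l 16509688))) (b (l 16511360) (l 16522240))) (a (b (l 16526376) (l 16540120)) (b (l 16512736) (l 16524080))))), by decide +kernel⟩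

def k6_pm_022_a : ∃ t, chk3 f_pm_022_a t 10 7 1 = true :=
  ⟨(a (b (a (b (l 16594528) (l 16643904)) (a (b (l 16590008) (l 16595736)) (a (b (l 16585112) (l 16590752)) (b (c (l 16602488) (l 16602192)) (a (l 16588968) (l 16609536)))))) (a (b (b (a (l 16613808) (l 16605696)) (a (l 16614952) (l 16606712))) (b (a (l 16615224) (l 16606864)) (a (b (l 16614560) (a (l 16615848) (l 16611456))) (b (l 16606064) (a (l 16607144) (l 16608176)))))) (a (b (b (l 16598160) (l 16599064)) (b (l 16599064) (c (a (l 16601472) (l 16597616)) (b (l 16596488) (a (l 16596776) (l 16592888)))))) (b (a (b (l 16593088) (l 16593928)) (a (b (l 16591320) (l 16592152)) (b (c (l 16590520) (l 16549904)) (c (l 16591976) (l 16613056))))) (a (b (l 16593800) (b (l 16592728) (a (l 16592224) (c (l 16592728) (l 16588672))))) (a (b (l 16592000) (b (l 16590864) (a (l 16589616) (a (l 16589272) (l 16589192))))) (a (a (a (b (l 16591728) (b (l 16590592) (l 16589296))) (a (b (l 16591976) (b (l 16590848) (l 16589560))) (b (l 16592408) (a (b (l 16591328) (a (l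 16589824) (l 16590048))) (l 16601160))))) (b (l 16592080) (b (l 16590952) (l 16589656)))) (b (l 16591280) (b (l 16590128) (l 16588816)))))))))) (a (b (b (l 16574592) (a (l 16583808) (l 16576224))) (b (b (a (l 16586088) (l 16578176)) (a (l 16586808) (l 16578632))) (b (a (l 16586488) (a (l 16580048) (l 16575848))) (b (a (l 16585184) (a (l 16578536) (l 16574176))) (a (c (l 16585576) (l 16582200)) (a (l 16576960) (a (l 16573544) (l 16571424)))))))) (b (b (l 16564608) (l 16568504)) (b (b (l 16569304) (l 16568864)) (b (a (l 16570656) (l 16563720)) (b (a (l 16568568) (l 16561056)) (a (c (l 16569008) (l 16564392)) (c (l 16561368) (l 16556176))))))))), by decide +kernel⟩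

def k7_pm_022_a : ∃ t, chk3 f_pm_022_a t 11 7 1 = true :=
  ⟨(b (a (b (l 16573840) (a (l 16558800) (l 16548384))) (b (l 16556040) (a (l 16537408) (l 16526416)))) (b (a (b (a (l 16557784) (l 16545608)) (a (l 16556024) (l 16542512))) (b (a (l 16533016) (l 16520624)) (a (l 16528992) (l 16515808)))) (a (b (a (b (l 16553880) (l 16551832)) (l 16559168)) (b (a (l 16570392) (l 16554792)) (a (a (c (l 16553560) (l 16547736)) (c (l 16545760) (l 16539272))) (a (l 16555360) (l 16547528))))) (b (a (l 16544672) (b (l 16511552) (l 16508296))) (a (b (a (l 16522528) (l 16515248)) (a (l 16539896) (c (l 16515992) (l 16507032)))) (b (a (l 16508168) (l 16501288)) (c (a (l 16509024) (l 16502248)) (a (l 16499552) (l 16492304))))))))), by decide +kernel⟩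

def k8_pm_022_a : ∃ t, chk3 f_pm_022_a t 3 2 1 = true :=
  ⟨(a (a (b (b (a (b (a (c (l 16457256) (l 16445744)) (c (l 16461800) (l 16450120))) (a (c (l 16455552) (l 16443376)) (b (l 16454104) (l 16453408)))) (a (a (b (l 16481512) (l 16457592)) (b (l 16484712) (l 16460576))) (b (c (l 16495696) (l 16463128)) (b (l 16466384) (l 16465200))))) (a (b (a (c (l 16456152) (l 16443640)) (c (l 16459600) (l 16446736))) (a (l 16453048) (l 16455464))) (b (a (b (l 16458080) (l 16458152)) (l 16464416)) (a (l 16459360) (l 16464984))))) (b (a (b (a (l 16457960) (l 16459416)) (a (l 16463872) (l 16464784))) (b (a (l 16462448) (l 16467304)) (a (l 16467112) (l 16471152)))) (a (b (l 16470000) (l 16477352)) (b (l 16474032) (l 16480696))))) (b (a (b (a (b (c (l 16483400) (l 16472224)) (c (l 16480184) (l 16467888))) (b (a (c (l 16490720) (l 16479944)) (l 16490616)) (a (c (l 16487320) (l 16475368)) (l 16486536)))) (a (b (l 16472416) (l 16472392)) (b (a (l 16479408) (l 16484216)) (a (l 16479016) (l 16483664))))) (b (a (b (l 16498616)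 (l 16494336)) (l 16528456)) (a (b (l 16491864) (l 16490872)) (l 16501360)))) (a (b (a (b (l 16473984) (l 16477128)) (b (l 16482280) (l 16484368))) (a (l 16484328) (l 16510880))) (b (a (l 16491856) (l 16499664)) (b (l 16496736) (l 16497128)))))) (b (a (a (b (a (l 16517904) (l 16527680)) (l 16535936)) (b (l 16541832) (l 16532368))) (a (b (l 16562776) (l 16551848)) (b (l 16583344) (l 16570240)))) (a (b (a (l 16510328) (l 16524632)) (a (l 16632176) (b (l 16518504) (l 16512664)))) (a (b (l 16540936) (l 16588280)) (b (l 16553488) (l 16531464)))))), by decide +kernel⟩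

def k9_pm_022_a : ∃ t, chk3 f_pm_022_a t 6 3 1 = true :=
  ⟨(b (a (b (a (b (l 16485696) (l 16494920)) (b (l 16487520) (l 16494640))) (a (b (l 16504816) (l 16513456)) (b (l 16500640) (l 16504720)))) (a (b (b (l 16493000) (l 16495912)) (l 16537560)) (b (l 16475632) (l 16528192)))) (a (b (a (b (l 16516888) (b (l 16512216) (l 16529272))) (b (l 16499776) (l 16595576))) (b (a (a (b (l 16508848) (l 16503400)) (b (l 16497648) (l 16491592))) (a (l 16525560) (l 16472960))) (a (b (a (b (l 16498712) (l 16495216)) (a (l 16487704) (l 16481528))) (a (b (c (l 16496176) (l 16486496)) (a (c (l 16495648) (l 16485296)) (c (l 16489160) (l 16478416)))) (a (b (l 16481688) (a (l 16478856) (l 16475536))) (c (l 16478480) (l 16467264))))) (b (a (l 16472432) (l 16460792)) (a (b (l 16465720) (c (l 16477424) (l 16454440))) (b (l 16453608) (a (c (l 16457952) (l 16444600)) (c (l 16452224) (l 16438256))))))))) (b (a (b (l 16484344) (l 16493848)) (b (l 16471096) (a (l 16461288) (l 16454408)))) (b (a (a (l 16462880) (b (l 16457592) (l 16449208)))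 (a (b (l 16449328) (l 16440464)) (b (l 16441656) (l 16432144)))) (a (b (a (b (l 16452216) (l 16447432)) (a (l 16442272) (l 16437488))) (a (b (a (l 16445032) (l 16439624)) (a (c (l 16446736) (l 16432184)) (c (l 16441488) (l 16426400)))) (b (a (l 16434464) (l 16429512)) (c (a (l 16436432) (l 16431512)) (a (l 16420936) (l 16415720)))))) (b (a (b (l 16433192) (l 16427936)) (b (l 16424416) (l 16418864))) (a (b (c (l 16429784) (l 16414568)) (c (a (l 16426680) (l 16421864)) (a (l 16410704) (l 16405840)))) (b (a (l 16415344) (l 16410616)) (c (a (l 16416960) (l 16411984)) (a (l 16401048) (l 16396264))))))))))), by decide +kernel⟩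

def k10_pm_022_a : ∃ t, chk3 f_pm_022_a t 7 3 1 = true :=
  ⟨(b (a (b (a (l 16498416) (l 16499056)) (a (l 16582632) (b (l 16475672) (l 16463280)))) (b (a (l 16497840) (l 16495280)) (a (b (l 16464616) (l 16450336)) (l 16442032)))) (a (b (a (b (l 16564792) (a (l 16447928) (l 16440640))) (b (a (l 16451192) (l 16444096)) (a (l 16432960) (l 16424368)))) (a (b (a (b (l 16433984) (l 16423664)) (b (l 16425680) (l 16414816))) (b (a (l 16412552) (l 16403144)) (b (a (a (l 16405840) (l 16401000)) (l 16393832)) (a (c (a (l 16406936) (l 16401848)) (l 16389096)) (c (b (l 16395856) (l 16403184)) (l 16379704)))))) (b (b (l 16412456) (l 16401280)) (b (a (l 16393984) (l 16385368)) (a (b (l 16384600) (c (a (l 16386960) (l 16382272)) (l 16370744))) (b (l 16375992) (c (a (l 16377776) (l 16373488)) (a (l 16364424) (l 16360464))))))))) (b (a (b (l 16431664) (l 16433320)) (b (l 16417320) (l 16419680))) (b (a (b (l 16396360) (l 16406312)) (a (l 16381168) (l 16376032))) (a (b (a (l 16377456) (l 16370456)) (a (b (l 16389152) (c (a (l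 16369400) (l 16365544)) (a (l 16356696) (l 16353136)))) (b (l 16361240) (a (c (l 16361968) (l 16349816)) (b (l 16354896) (c (l 16357176) (l 16345008))))))) (b (a (l 16364424) (l 16359632)) (b (a (c (l 16360256) (l 16349528)) (c (l 16355344) (l 16344928))) (b (a (a (l 16352048) (l 16349528)) (c (a (l 16352296) (l 16350072)) (l 16339968))) (a (c (a (c (l 16356584) (l 16351704)) (c (b (l 16354664) (l 16353256)) (l 16349160))) (a (l 16342272) (l 16339800))) (a (c (b (l 16350088) (c (c (l 140912069314756623) (l 16349736)) (l 16346064))) (l 16337576)) (c (c (c (l 140874067440779279) (l 140946635204165647)) (a (l 16345200) (l 16344152))) (c (l 16338888) (l 16331888))))))))))))), by decide +kernel⟩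

theorem s11_pm_022_a : ∃ t, chk3 f_pm_022_a t 3 3 1 = true := ex3_a k9_pm_022_a k10_pm_022_a

theorem s12_pm_022_a : ∃ t, chk3 f_pm_022_a t 3 1 1 = true := ex3_b k8_pm_022_a s11_pm_022_a

theorem s13_pm_022_a : ∃ t, chk3 f_pm_022_a t 5 7 1 = true := ex3_a k6_pm_022_a k7_pm_022_a

theorem s14_pm_022_a : ∃ t, chk3 f_pm_022_a t 5 3 1 = true := ex3_b k5_pm_022_a s13_pm_022_a

theorem s15_pm_022_a : ∃ t, chk3 f_pm_022_a t 5 1 1 = true := ex3_b k4_pm_022_a s14_pm_022_a

theorem s16_pm_022_a : ∃ t, chk3 f_pm_022_a t 9 3 1 = true := ex3_b k2_pm_022_a k3_pm_022_a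

theorem s17_pm_022_a : ∃ t, chk3 f_pm_022_a t 9 1 1 = true := ex3_b k1_pm_022_a s16_pm_022_a

theorem s18_pm_022_a : ∃ t, chk3 f_pm_022_a t 4 1 1 = true := ex3_a k0_pm_022_a s17_pm_022_a

theorem s19_pm_022_a : ∃ t, chk3 f_pm_022_a t 2 1 1 = true := ex3_a s18_pm_022_a s15_pm_022_a

theorem s20_pm_022_a : ∃ t, chk3 f_pm_022_a t 1 1 1 = true := ex3_a s19_pm_022_a s12_pm_022_a

theorem c_pm_022_a : CertB 0 536870912 0 536870912 697932185 42949674 3 eng mog cd0q0 cd2q2a pd2 true true false .pp 0 2 2
    ndB0q0 ndB2q2a pcB2 cut_pm_022_a xt_pm_022_a :=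
  certB2 (fam := true) (s1 := true) (s2 := false) (a := 0) (b := 2) (c := 2) (cn := .pp) (n1 := ndB0q0) (n2 := ndB2q2a) (pc := pcB2) (cut := cut_pm_022_a) (xt := xt_pm_022_a) (P1 := 0) (W1 := 536870912) (P2 := 0) (W2 := 536870912) (P3 := 697932185) (W3 := 42949674) (N0 := 3) (En := eng) (mo := mog) (C1 := cd0q0) (C2 := cd2q2a) (C3 := pd2)
    rfl (fun _ => rfl) s20_pm_022_a

noncomputable def cut_pm_022_b : Cut := Cut.of [[⟨0, 0, 0, 67108864⟩, ⟨1, 1, 0, 67108864⟩, ⟨2, 1, 0, 67108864⟩]]

noncomputable def f_pm_022_b : ℕ → ℕ → ℕ → ℕ → Bool := onCell 1073741824 536870912 1239849684 370763052 697932185 42949674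
    (rowB 3 eng mog cd0q0 cd2q2b pd2 2 true true false .pp 0 2 2 (qsf 0 536870912 1239849684 370763052 2) ndB0q0 ndB2q2b pcB2 cut_pm_022_b Ext.none)

def k0_pm_022_b : ∃ t, chk3 f_pm_022_b t 2 1 1 = true :=
  ⟨(b (a (l 1) (b (b (b (a (a (a (l 1) (l 16428864)) (a (b (a (l 16435008) (l 16441416)) (l 16428864)) (b (l 16440304) (l 16411256)))) (a (a (c (l 16427864) (l 16427000)) (c (b (l 16439976) (l 16413232)) (l 16414936))) (a (b (l 16435256) (l 16408352)) (b (l 16437392) (l 16410920))))) (a (a (l 1) (a (l 1) (c (l 16372072) (l 16358792)))) (a (a (b (l 16379992) (l 16350552)) (l 16365712)) (a (l 16367392) (l 16370736))))) (a (l 1) (b (a (a (l 16304608) (l 16307712)) (l 16355576)) (a (l 1) (a (l 16252920) (l 16259984)))))) (a (l 1) (b (a (l 1) (b (l 16195776) (l 1))) (l 1))))) (l 1)), by decide +kernel⟩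

def k1_pm_022_b : ∃ t, chk3 f_pm_022_b t 3 1 1 = true :=
  ⟨(b (a (b (a (b (a (b (a (b (a (l 16440000) (l 16442168)) (l 16415216)) (b (a (l 16444664) (l 16447480)) (l 16420840))) (a (l 16375696) (l 16382296))) (b (a (b (a (l 16450584) (l 16454016)) (l 16427640)) (b (a (l 16457800) (l 16461984)) (l 16435728))) (a (l 16390088) (l 16419904)))) (a (b (a (l 16322296) (l 16329720)) (l 16271816)) (b (a (l 16338568) (l 16348856)) (l 16291632)))) (b (a (b (a (b (c (l 16474480) (l 16462784)) (l 16445128)) (a (b (l 16497688) (l 16452976)) (l 16490872))) (a (l 16429968) (a (l 16417056) (l 16422240)))) (a (b (b (l 16490016) (l 16466632)) (l 16430752)) (b (l 16490256) (l 16443896)))) (a (a (b (l 16359880) (l 16309824)) (b (l 16371432) (l 16322488))) (b (l 16410584) (l 16341784))))) (a (b (a (b (l 16216464) (l 16158616)) (b (l 16239144) (l 16185432))) (a (l 1) (b (l 16130168) (l 16071944)))) (b (a (a (l 16232664) (l 16246880)) (b (l 16293560) (l 16244480))) (a (a (l 16127184) (l 16144000)) (l 16169968))))) (b (a (b (a (b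 (a (l 16502776) (l 16514072)) (l 16465056)) (b (l 16531032) (l 16493624))) (a (b (l 16419064) (l 16371616)) (l 16534648))) (b (a (b (l 16554216) (l 16520384)) (b (l 16576752) (l 16547160))) (a (l 16464712) (l 16497568)))) (a (b (a (l 16301880) (l 16340064)) (a (l 16207224) (l 16247832))) (b (a (l 16380128) (l 16420112)) (a (l 16290928) (l 16338280)))))) (a (b (a (l 1) (a (b (l 16066168) (l 1)) (b (l 16068072) (l 15957104)))) (l 1)) (b (a (b (a (l 16111888) (l 16157096)) (a (l 16012800) (l 16066248))) (b (l 16354544) (a (l 16118992) (l 16172056)))) (a (b (a (l 1) (l 15970184)) (l 1)) (a (l 16029656) (l 16052768)))))), by decide +kernel⟩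

theorem s2_pm_022_b : ∃ t, chk3 f_pm_022_b t 1 1 1 = true := ex3_a k0_pm_022_b k1_pm_022_b

theorem c_pm_022_b : CertB 0 536870912 1239849684 370763052 697932185 42949674 3 eng mog cd0q0 cd2q2b pd2 true true false .pp 0 2 2
    ndB0q0 ndB2q2b pcB2 cut_pm_022_b Ext.none :=
  certB2 (fam := true) (s1 := true) (s2 := false) (a := 0) (b := 2) (c := 2) (cn := .pp) (n1 := ndB0q0) (n2 := ndB2q2b) (pc := pcB2) (cut := cut_pm_022_b) (xt := Ext.none) (P1 := 0) (W1 := 536870912) (P2 := 1239849684) (W2 := 370763052) (P3 := 697932185) (W3 := 42949674) (N0 := 3) (En := eng) (mo := mog) (C1 := cd0q0) (C2 := cd2q2b) (C3 := pd2)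
    rfl (fun _ => rfl) s2_pm_022_b

noncomputable def xt_pm_023_a : Ext := extD2 3 ⟨7, 3, 3, 10, 49, 25, 3, 4, 67, 200, 3, 16⟩ eng cd0q0 cd2q2a pd3 true true false .up 0 2 3 rfl ndB0q0 ndB2q2a pcB3

noncomputable def f_pm_023_a : ℕ → ℕ → ℕ → ℕ → Bool := onCell 0 536870912 0 536870912 697932185 42949674
    (rowB 3 eng mog cd0q0 cd2q2a pd3 0 true true false .up 0 2 3 (qsf 0 536870912 0 536870912 3) ndB0q0 ndB2q2a pcB3 Cut.none xt_pm_023_a)

def k0_pm_023_a : ∃ t, chk3 f_pm_023_a t 1 1 1 = true :=
  ⟨(a (l 1) (b (a (a (l 1) (b (a (b (l 1) (l 1)) (b (l 16596088) (l 16576136))) (a (l 1) (b (l 16551272) (l 147672729447))))) (a (b (a (b (l 16612016) (l 16591688)) (b (l 16620248) (l 16597552))) (a (b (l 16565640) (l 16575776)) (b (l 16568200) (l 16533856)))) (b (a (b (l 16614272) (l 16591104)) (b (b (l 16656392) (l 16647176)) (a (l 16626008) (l 16641736)))) (a (b (l 16563328) (l 16523848)) (b (a (l 16623512) (l 16621264)) (b (a (l 16575440) (l 16601160)) (l 16566312))))))) (a (b (l 1) (l 1)) (b (a (b (a (l 16498528)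 (l 16492560)) (a (l 16458776) (l 16441144))) (b (a (l 16476720) (l 16525544)) (a (l 16434440) (l 16467376)))) (a (b (a (l 1) (l 16473088)) (l 1)) (b (a (b (l 16403664) (l 16405600)) (b (l 16424792) (l 16398624))) (b (a (l 238403616951) (a (l 16370984) (l 16377600))) (a (l 1) (a (l 237329726407) (a (b (l 16357584) (l 231424075111)) (b (l 16360320) (a (c (l 1721510367271891538755141647) (l 247530180935)) (c (l 140683096037834767) (c (l 16341704) (l 16329312))))))))))))))), by decide +kernel⟩

theorem c_pm_023_a : CertB 0 536870912 0 536870912 697932185 42949674 3 eng mog cd0q0 cd2q2a pd3 true true false .up 0 2 3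
    ndB0q0 ndB2q2a pcB3 Cut.none xt_pm_023_a :=
  certB0 (fam := true) (s1 := true) (s2 := false) (a := 0) (b := 2) (c := 3) (cn := .up) (n1 := ndB0q0) (n2 := ndB2q2a) (pc := pcB3) (cut := Cut.none) (xt := xt_pm_023_a) (P1 := 0) (W1 := 536870912) (P2 := 0) (W2 := 536870912) (P3 := 697932185) (W3 := 42949674) (N0 := 3) (En := eng) (mo := mog) (C1 := cd0q0) (C2 := cd2q2a) (C3 := pd3)
    rfl k0_pm_023_a

noncomputable def f_pm_023_b : ℕ → ℕ → ℕ → ℕ → Bool := onCell 0 536870912 1610612736 536870912 697932185 42949674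
    (rowB 3 eng mog cd0q0 cd2q2b pd3 1 true true false .up 0 2 3 (qsf 0 536870912 1239849684 370763052 3) ndB0q0 ndB2q2b pcB3 Cut.none Ext.none)

def k0_pm_023_b : ∃ t, chk3 f_pm_023_b t 1 1 1 = true :=
  ⟨(b (b (a (a (b (a (l 16047184) (l 16161416)) (a (l 16023448) (l 16138816))) (b (a (l 16279432) (l 16630816)) (a (l 16257944) (l 16381672)))) (a (b (a (b (l 16617224) (l 16506624)) (a (b (l 16575792) (l 16571928)) (b (l 403223365399) (l 16601960)))) (a (l 16516088) (a (l 16563424) (l 16595088)))) (a (b (a (b (l 470869037159) (l 419329488503)) (l 473016545655)) (b (a (l 16617096) (l 394096489655)) (l 16622232))) (b (l 1) (a (b (l 476237755479) (l 423624504343)) (l 511671306967)))))) (a (a (b (a (l 2) (l 16145160)) (l 2)) (b (a (l 16257064) (l 16375608)) (a (l 16297472) (l 16401144)))) (a (b (a (l 16486336) (l 16572160)) (a (l 16500536) (l 16579464))) (b (a (l 16643608) (b (a (l 16635912) (l 434361904695)) (l 16667192))) (a (l 16630488) (b (l 16663344) (l 16676408))))))) (b (b (a (l 4) (b (a (a (l 16535264)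 (l 16601056)) (a (l 16643048) (l 16684632))) (a (l 4) (a (l 4) (l 16688728))))) (l 4)) (l 4))), by decide +kernel⟩

theorem c_pm_023_b : CertB 0 536870912 1239849684 370763052 697932185 42949674 3 eng mog cd0q0 cd2q2b pd3 true true false .up 0 2 3
    ndB0q0 ndB2q2b pcB3 Cut.none Ext.none :=
  certB1 (fam := true) (s1 := true) (s2 := false) (a := 0) (b := 2) (c := 3) (cn := .up) (n1 := ndB0q0) (n2 := ndB2q2b) (pc := pcB3) (cut := Cut.none) (xt := Ext.none) (P1 := 0) (W1 := 536870912) (P2 := 1239849684) (W2 := 370763052) (P3 := 697932185) (W3 := 42949674) (N0 := 3) (En := eng) (mo := mog) (C1 := cd0q0) (C2 := cd2q2b) (C3 := pd3)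
    rfl (fun _ => rfl) k0_pm_023_b

noncomputable def f_pm_033 : ℕ → ℕ → ℕ → ℕ → Bool := onCell 1610612736 536870912 1610612736 536870912 697932185 42949674
    (rowB 3 eng mog cd0q0 cd2q3 pd3 2 true true false .pnn 0 3 3 (qsf 0 536870912 1610612736 536870912 3) ndB0q0 ndB2q3 pcB3 Cut.none Ext.none)

def k0_pm_033 : ∃ t, chk3 f_pm_033 t 1 1 1 = true :=
  ⟨(a (a (b (b (a (b (l 15991224) (l 377452117975)) (b (l 16083960) (l 15956208))) (a (l 1) (b (l 355440435735) (l 1)))) (l 1)) (b (b (a (b (a (l 16170288) (l 16237904)) (l 16081624)) (b (a (l 16314664) (l 16394592)) (a (l 16194624) (l 16280472)))) (a (b (l 15957728) (l 335576093463)) (b (l 16134776) (l 16035128)))) (a (l 1) (a (l 1) (l 4))))) (a (b (b (l 4) (l 4)) (l 4)) (l 4))), by decide +kernel⟩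

theorem c_pm_033 : CertB 0 536870912 1610612736 536870912 697932185 42949674 3 eng mog cd0q0 cd2q3 pd3 true true false .pnn 0 3 3
    ndB0q0 ndB2q3 pcB3 Cut.none Ext.none :=
  certB2 (fam := true) (s1 := true) (s2 := false) (a := 0) (b := 3) (c := 3) (cn := .pnn) (n1 := ndB0q0) (n2 := ndB2q3) (pc := pcB3) (cut := Cut.none) (xt := Ext.none) (P1 := 0) (W1 := 536870912) (P2 := 1610612736) (W2 := 536870912) (P3 := 697932185) (W3 := 42949674) (N0 := 3) (En := eng) (mo := mog) (C1 := cd0q0) (C2 := cd2q3) (C3 := pd3)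
    rfl (fun _ => rfl) k0_pm_033

noncomputable def cut_pm_101 : Cut := Cut.of [[⟨0, 1, 0, 67108864⟩, ⟨1, 0, 0, 67108864⟩, ⟨2, 1, 0, 67108864⟩]]

noncomputable def f_pm_101 : ℕ → ℕ → ℕ → ℕ → Bool := onCell 536870912 536870912 0 536870912 697932185 42949674
    (rowB 3 eng mog cd0q1 cd2q0 pd1 2 true true false .npn 1 0 1 (qsf 536870912 536870912 0 536870912 1) ndB0q1 ndB2q0 pcB1 cut_pm_101 Ext.none)

def k0_pm_101 : ∃ t, chk3 f_pm_101 t 1 1 1 = true :=
  ⟨(a (l 3) (b (a (l 3) (b (a (l 3) (b (a (l 3) (a (l 3) (b (l 6) (l 3)))) (l 3))) (l 3))) (l 3))), by decide +kernel⟩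

theorem c_pm_101 : CertB 536870912 536870912 0 536870912 697932185 42949674 3 eng mog cd0q1 cd2q0 pd1 true true false .npn 1 0 1
    ndB0q1 ndB2q0 pcB1 cut_pm_101 Ext.none :=
  certB2 (fam := true) (s1 := true) (s2 := false) (a := 1) (b := 0) (c := 1) (cn := .npn) (n1 := ndB0q1) (n2 := ndB2q0) (pc := pcB1) (cut := cut_pm_101) (xt := Ext.none) (P1 := 536870912) (W1 := 536870912) (P2 := 0) (W2 := 536870912) (P3 := 697932185) (W3 := 42949674) (N0 := 3) (En := eng) (mo := mog) (C1 := cd0q1) (C2 := cd2q0) (C3 := pd1)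
    rfl (fun _ => rfl) k0_pm_101

noncomputable def cut_pm_102 : Cut := Cut.of [[⟨0, 1, 0, 67108864⟩, ⟨1, 0, 0, 67108864⟩, ⟨2, 1, 0, 67108864⟩]]

noncomputable def f_pm_102 : ℕ → ℕ → ℕ → ℕ → Bool := onCell 536870912 536870912 1073741824 536870912 697932185 42949674
    (rowB 3 eng mog cd0q1 cd2q0 pd2 1 true true false .npp 1 0 2 (qsf 536870912 536870912 0 536870912 2) ndB0q1 ndB2q0 pcB2 cut_pm_102 Ext.none)

def k0_pm_102 : ∃ t, chk3 f_pm_102 t 2 4 1 = true :=
  ⟨(b (l 3) (a (l 3) (b (l 3) (b (a (l 3) (b (a (l 3) (b (l 3) (l 186461841399))) (a (b (l 3) (l 16679176)) (b (l 16707272) (l 16701088))))) (a (b (a (l 3) (a (l 3) (c (l 16664232) (l 16657712)))) (a (b (l 3) (a (l 3) (l 16645880))) (b (a (l 16651504) (l 16653344)) (a (l 16646624) (l 16647640))))) (b (a (a (l 16665936) (a (l 16672552) (l 16678136))) (a (c (l 16690104) (l 16681000)) (b (l 16700032) (l 16693672)))) (a (b (a (l 16658144) (l 16667928)) (a (l 16653720) (l 16661856))) (l 16678352)))))))), by decide +kernel⟩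

def k1_pm_102 : ∃ t, chk3 f_pm_102 t 6 8 1 = true :=
  ⟨(a (l 3) (b (l 3) (b (l 3) (a (l 3) (b (l 3) (a (l 3) (b (a (l 3) (l 294910005303)) (a (l 384030513063) (l 289004349223))))))))), by decide +kernel⟩

def k2_pm_102 : ∃ t, chk3 f_pm_102 t 14 8 1 = true :=
  ⟨(b (a (l 3) (a (l 3) (b (l 3) (l 3)))) (b (b (a (l 3) (a (b (l 3) (a (l 3) (l 207936896855))) (a (b (b (l 3) (l 278803804183)) (b (l 263771394007) (c (l 258402678967) (l 261087035559)))) (a (b (l 231022329255) (b (l 16791272) (l 16788320))) (b (b (l 16803600) (c (l 16789696) (l 16779768))) (l 16765048)))))) (a (a (l 3) (b (l 3) (l 279877560839))) (a (a (b (l 242833498471) (b (l 16805528) (l 16802616))) (b (a (l 301889236071) (l 269140096359)) (b (l 16774192) (l 16792520)))) (b (a (b (l 16770928) (l 16789232)) (l 16784288)) (l 16803224))))) (a (b (a (b (l 3) (l 288467508583)) (b (a (l 286856892679) (l 16809792)) (a (l 119353165287) (l 16803336)))) (b (a (a (l 205252552183) (l 16813248)) (a (l 16807200) (l 16799512))) (a (a (l 16809096) (l 16803984))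 (a (l 16800728) (l 16794728))))) (b (a (a (b (l 16798064) (l 16794160)) (l 16808424)) (a (l 16777096) (l 16769336))) (a (c (l 16812752) (l 16811352)) (l 16762328)))))), by decide +kernel⟩

def k3_pm_102 : ∃ t, chk3 f_pm_102 t 15 8 1 = true :=
  ⟨(b (a (b (l 3) (a (b (l 3) (b (a (l 3) (b (a (l 3) (l 173577120759)) (a (l 203641894759) (c (l 16796544) (l 156397250839))))) (a (b (a (l 3) (l 205252510455)) (a (l 209010609223) (c (l 16808496) (l 16798328)))) (b (a (a (l 16798352) (l 16806656)) (l 16782992)) (a (l 16783704) (l 16781072)))))) (b (b (a (l 3) (l 6)) (a (b (a (l 3) (l 170355890135)) (a (l 172503376023) (a (l 171429629879) (l 16793968)))) (a (a (b (l 6) (l 16781688)) (l 6)) (l 6)))) (b (b (a (a (a (l 169282148391) (l 16794696)) (l 16781600)) (a (l 16778936) (l 6))) (a (a (l 16782288) (l 16779744)) (a (l 16775968) (l 16771840)))) (a (b (a (l 16780464) (l 16776920)) (a (l 16777856) (l 16773848))) (l 16769160)))))) (b (l 6) (a (b (l 6) (a (l 16781832) (l 6))) (l 6)))) (a (b (a (b (b (a (b (a (l 16799160)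 (l 16784648)) (a (l 16785816) (l 16783088))) (b (a (l 16781968) (l 16778904)) (l 16777944))) (a (l 16781528) (b (l 16775080) (l 16772120)))) (a (b (b (l 16777568) (l 16774608)) (l 16769896)) (l 16764736))) (a (b (b (a (l 16773360) (l 16769208)) (l 16765544)) (l 16760888)) (b (l 16784080) (l 16752240)))) (a (b (a (l 16761992) (l 16758568)) (l 16752328)) (b (l 16745424) (l 16734288)))) (a (a (b (b (l 16754640) (l 16742944)) (l 16725896)) (b (b (l 16745360) (l 16733696)) (l 16716456))) (b (a (b (l 6) (l 16724232)) (l 6)) (a (l 16727688) (b (l 16702360) (l 16690512))))))), by decide +kernel⟩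

def k4_pm_102 : ∃ t, chk3 f_pm_102 t 6 9 1 = true :=
  ⟨(b (a (b (l 3) (a (b (l 3) (a (l 3) (b (l 3) (l 104857533271)))) (b (a (b (l 3) (l 359334400503)) (b (l 269676956391) (l 111836897991))) (a (b (l 107541925751) (l 16771544)) (b (l 16777208) (l 16768632)))))) (b (a (b (a (l 3) (l 356113221623)) (a (b (l 3) (l 264308279671)) (b (a (l 249275926935) (l 16797784)) (a (l 16790880) (l 16789104))))) (b (a (b (l 319069118519) (a (l 261623927527) (b (l 16803840) (l 16800536)))) (b (a (b (l 16810888) (l 16805920)) (l 16783792)) (a (l 16778696) (l 16797392)))) (a (b (a (l 16775328) (l 16793672)) (l 16754576)) (a (l 16788360) (l 16784960))))) (a (b (b (a (b (l 16788800) (l 16784952)) (b (l 16762448) (l 16758008))) (a (l 16778488) (l 16774144))) (a (b (l 16770272) (l 16762896)) (l 16761480))) (b (a (b (l 16778896) (l 16770576)) (l 16768480)) (a (l 16757088) (l 16750672)))))) (a (b (a (b (a (b (l 16742976) (l 16734448)) (b (l 16755856) (l 16748152))) (a (b (l 16727312) (l 16719568)) (b (l 16739672) (l 16732128)))) (b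 (a (b (l 16762832) (l 16733072)) (l 16756544)) (a (l 16741840) (l 16738904)))) (a (b (b (l 16718824) (l 16710736)) (l 16700040)) (b (a (l 16724912) (l 16723016)) (l 16709656)))) (b (a (b (b (l 16750976) (l 16742448)) (b (l 16734312) (l 16726696))) (a (l 16733144) (l 16732192))) (a (l 16691944) (a (l 16726304) (l 16728360)))))), by decide +kernel⟩

def k5_pm_102 : ∃ t, chk3 f_pm_102 t 7 9 1 = true :=
  ⟨(a (b (a (b (a (b (b (l 16798152) (l 16791392)) (b (l 16782288) (l 16772704))) (b (l 16804864) (l 16766176))) (a (l 16708680) (l 16750856))) (b (a (b (l 16768920) (l 16761560)) (b (l 16758624) (l 16749312))) (a (b (l 16752352) (l 16739760)) (l 16691408)))) (a (b (a (l 16739080) (l 16731760)) (a (l 16720872) (l 16709224))) (b (a (l 16720816) (l 16709760)) (a (l 16697024) (l 16685304))))) (b (a (a (b (l 16736768) (l 16716296)) (b (a (l 16722968) (l 16713560)) (l 16697432))) (a (b (l 16740848) (l 16677272)) (a (b (l 16683816) (l 16661576)) (b (l 16673080) (l 16650376))))) (a (a (b (l 16695760) (l 16673160)) (b (l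 16677152) (l 16656896))) (a (b (l 16656432) (l 16636600)) (b (l 16634400) (l 16613832)))))), by decide +kernel⟩

def k6_pm_102 : ∃ t, chk3 f_pm_102 t 2 5 1 = true :=
  ⟨(b (b (b (a (b (b (b (l 3) (l 2)) (l 2)) (l 2)) (a (b (a (b (a (l 195588529015) (l 16641072)) (a (b (l 16637016) (l 16634776)) (l 16636032))) (b (a (l 16641424) (l 16640832)) (a (l 16634536) (l 16635480)))) (a (b (a (l 16634256) (l 16632584)) (l 16638712)) (l 16635064))) (b (a (l 16649088) (l 16666560)) (a (l 16620448) (l 16658744))))) (a (l 2) (b (a (b (a (l 16644872) (l 16648800)) (a (l 16631264) (l 16657064))) (b (a (l 16657368) (l 16668384)) (l 16733632))) (b (a (a (b (l 16657824) (l 16660080)) (l 16663368)) (a (l 16672224) (l 16684632))) (a (b (a (l 16683720) (l 16668424)) (a (l 89757987703) (l 16715288))) (b (a (l 16678080) (l 16690848)) (a (l 16683568) (a (l 16692968) (l 16720648))))))))) (a (l 2) (a (a (l 16674184) (l 16680536)) (a (l 16688296) (l 16697304))))) (a (l 2) (a (b (l 75262635911) (l 2)) (a (l 16676656) (l 16677848))))), by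 decide +kernel⟩

def k7_pm_102 : ∃ t, chk3 f_pm_102 t 3 5 1 = true :=
  ⟨(a (b (b (b (a (a (b (l 16688392) (l 16680528)) (b (l 16699928) (l 16699288))) (a (b (l 16716592) (l 16717320)) (a (l 16718136) (l 16711776)))) (a (b (a (l 16689624) (l 16710456)) (b (a (l 16700400) (l 16713744)) (b (a (l 16705360) (l 16714016)) (a (a (l 16768848) (l 16711240)) (l 16778104))))) (b (a (l 16713960) (l 16703168)) (b (a (l 16710152) (l 16697600)) (b (a (l 16708736) (l 16695296)) (a (l 16708464) (l 16736184))))))) (a (a (l 16705288) (l 16705800)) (a (l 16693520) (l 16676360)))) (a (a (l 16678936) (l 16671640)) (a (l 16652568) (l 16714512)))) (b (b (b (a (a (a (l 16701216) (l 16688216)) (a (l 16675304) (l 16662992))) (a (a (l 16649568) (l 16634856)) (a (l 16617080) (l 16594632)))) (a (b (a (l 16680472) (a (l 16660472) (l 16647576))) (b (a (l 16674144) (l 16647168)) (a (b (l 16671544) (a (l 16677344) (l 16663576))) (b (l 16644320) (a (c (l 16654560) (l 16708320)) (l 16635808)))))) (a (b (l 16625448) (b (l 16617984) (a (l 16622760)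 (l 16649224)))) (b (a (l 16601800) (l 16581160)) (b (a (l 16594000) (l 16574776)) (a (b (l 16590752) (l 16589320)) (b (l 16572080) (l 16570888)))))))) (a (a (a (l 16658272) (l 16706800)) (b (l 16631696) (l 16613072))) (a (b (a (l 16609872) (l 16593952)) (l 16582968)) (b (a (l 16576896) (l 16558112)) (l 16569768))))) (a (a (a (l 16610024) (l 16678240)) (b (l 16587640) (l 16557808))) (a (b (l 16621048) (l 16528992)) (b (a (l 16534056) (l 16516120)) (l 16497720)))))), by decide +kernel⟩

def k8_pm_102 : ∃ t, chk3 f_pm_102 t 1 3 1 = true :=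
  ⟨(a (a (l 2) (b (a (l 2) (b (b (l 16658608) (l 2)) (l 2))) (l 2))) (a (b (a (b (a (l 16646088) (l 16633736)) (a (l 2) (l 16616824))) (b (a (l 16610064) (l 16584056)) (a (l 16588664) (l 16557568)))) (a (l 2) (b (a (l 2) (l 16550664)) (l 2)))) (b (a (b (a (b (l 16562920) (l 16542920)) (b (l 16532592) (l 16512208))) (a (l 16522200) (l 16490664))) (b (a (b (l 16504312) (l 16484104)) (b (l 16474440) (l 16455248))) (a (l 16462496) (l 16434608)))) (a (b (a (l 16511240) (l 16478016)) (a (l 2) (l 16483024))) (b (a (l 16448920) (l 16421248)) (l 16437168)))))), by decide +kernel⟩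

theorem s9_pm_102 : ∃ t, chk3 f_pm_102 t 1 5 1 = true := ex3_a k6_pm_102 k7_pm_102

theorem s10_pm_102 : ∃ t, chk3 f_pm_102 t 3 9 1 = true := ex3_a k4_pm_102 k5_pm_102

theorem s11_pm_102 : ∃ t, chk3 f_pm_102 t 7 8 1 = true := ex3_a k2_pm_102 k3_pm_102

theorem s12_pm_102 : ∃ t, chk3 f_pm_102 t 3 8 1 = true := ex3_a k1_pm_102 s11_pm_102

theorem s13_pm_102 : ∃ t, chk3 f_pm_102 t 3 4 1 = true := ex3_b s12_pm_102 s10_pm_102

theorem s14_pm_102 : ∃ t, chk3 f_pm_102 t 1 4 1 = true := ex3_a k0_pm_102 s13_pm_102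

theorem s15_pm_102 : ∃ t, chk3 f_pm_102 t 1 2 1 = true := ex3_b s14_pm_102 s9_pm_102

theorem s16_pm_102 : ∃ t, chk3 f_pm_102 t 1 1 1 = true := ex3_b s15_pm_102 k8_pm_102

theorem c_pm_102 : CertB 536870912 536870912 0 536870912 697932185 42949674 3 eng mog cd0q1 cd2q0 pd2 true true false .npp 1 0 2
    ndB0q1 ndB2q0 pcB2 cut_pm_102 Ext.none :=
  certB1 (fam := true) (s1 := true) (s2 := false) (a := 1) (b := 0) (c := 2) (cn := .npp) (n1 := ndB0q1) (n2 := ndB2q0) (pc := pcB2) (cut := cut_pm_102) (xt := Ext.none) (P1 := 536870912) (W1 := 536870912) (P2 := 0) (W2 := 536870912) (P3 := 697932185) (W3 := 42949674) (N0 := 3) (En := eng) (mo := mog) (C1 := cd0q1) (C2 := cd2q0) (C3 := pd2)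
    rfl (fun _ => rfl) s16_pm_102

noncomputable def f_pm_112 : ℕ → ℕ → ℕ → ℕ → Bool := onCell 536870912 536870912 1073741824 536870912 697932185 42949674
    (rowB 3 eng mog cd0q1 cd2q1 pd2 1 true true false .dn 1 1 2 (qsf 536870912 536870912 536870912 536870912 2) ndB0q1 ndB2q1 pcB2 Cut.none Ext.none)

def k0_pm_112 : ∃ t, chk3 f_pm_112 t 1 4 1 = true :=
  ⟨(a (b (l 3) (a (l 3) (a (a (a (l 3) (l 1)) (l 1)) (l 1)))) (l 1)), by decide +kernel⟩

def k1_pm_112 : ∃ t, chk3 f_pm_112 t 4 5 1 = true :=
  ⟨(b (b (b (a (b (l 3) (a (l 3) (b (l 3) (b (l 3) (a (l 3) (l 16641408)))))) (a (b (l 3) (b (a (l 3) (l 93046177287)) (a (l 16641016) (l 16641240)))) (b (b (l 3) (a (b (l 3) (l 16635216)) (b (l 16632264) (l 16634344)))) (b (a (b (l 16636448) (l 16638528)) (b (l 16636776) (l 16639336))) (a (l 16641696) (l 16641136)))))) (b (a (a (b (b (l 3) (a (l 3) (l 16641360))) (b (a (l 16639800) (l 16641552)) (a (l 16639632) (l 16641640)))) (b (b (a (l 16641856) (l 16642360)) (l 16664576)) (b (l 16643808) (a (l 16643152) (l 16644360)))))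 (b (a (b (l 16643568) (l 16644456)) (b (l 16642624) (l 16643368))) (a (b (l 16644864) (l 16645432)) (l 16645208)))) (b (a (b (a (a (l 16639208) (l 16641256)) (a (l 16643096) (l 16644712))) (a (a (l 16638672) (l 16641256)) (l 16644680))) (a (l 16668280) (b (l 16648016) (l 16649616)))) (a (a (a (b (l 16638576) (l 16637960)) (b (l 16641616) (l 16662160))) (b (l 16645488) (b (b (b (l 16645448) (c (l 16668728) (l 16643456))) (l 16645632)) (l 16645344)))) (b (a (c (l 16651392) (l 16646624)) (c (l 16674360) (l 16648672))) (b (b (b (a (l 16649168) (l 16651232)) (a (c (l 16651216) (l 16647800)) (l 16652080))) (l 16651176)) (l 16651184))))))) (a (a (l 16628208) (l 16637456)) (a (l 16645552) (l 16652352)))) (a (a (l 16607504) (l 16666232)) (a (l 16661264) (l 16634616)))), by decide +kernel⟩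

def k2_pm_112 : ∃ t, chk3 f_pm_112 t 5 5 1 = true :=
  ⟨(a (a (b (b (b (b (a (b (b (l 95059410023) (a (l 16628488) (l 1))) (b (l 16631648) (l 16635056))) (l 1)) (b (a (b (l 16637552) (l 16638816)) (l 1)) (l 16659320))) (b (b (l 16640816) (l 16644792)) (b (b (l 16648176) (l 16649416)) (b (l 16651064) (a (l 16653344) (l 16653896)))))) (l 16657480)) (l 16647352)) (b (b (b (l 1) (b (l 1) (b (l 1) (b (l 1) (c (l 16656512) (l 16692944)))))) (l 16659632)) (l 16655072))) (b (b (l 1) (l 313029299351)) (b (l 106333980855) (l 16651976)))), by decide +kernel⟩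

def k3_pm_112 : ∃ t, chk3 f_pm_112 t 3 5 1 = true :=
  ⟨(a (b (l 1) (a (a (l 16709296) (l 1)) (l 1))) (l 1)), by decide +kernel⟩

def k4_pm_112 : ∃ t, chk3 f_pm_112 t 1 3 1 = true :=
  ⟨(a (a (b (a (b (a (l 16518752) (l 16543968)) (a (l 16443048) (l 16476144))) (b (b (l 16593264) (l 16566352)) (a (l 16508088) (l 16538752)))) (a (b (a (l 16363344) (l 16403952)) (a (l 16282672) (l 16329736))) (b (a (l 16444680) (l 16484072)) (a (l 16378768) (l 16428752))))) (b (a (b (a (l 16612376) (l 16627424)) (a (l 16567232) (l 16590936))) (b (a (l 16634808) (l 16635912)) (a (l 16607248) (l 16616104)))) (a (b (a (l 16521768) (l 16555736)) (a (b (l 16488272) (l 16466576)) (b (l 16531600) (l 16517440)))) (b (a (l 16583272) (l 16602872)) (a (b (l 16568984) (l 16562200)) (l 16661632)))))) (a (b (a (b (a (l 16632880) (l 16618944)) (a (l 16618608) (l 16608280))) (b (a (l 16591896) (l 1)) (l 64994848295))) (a (b (a (b (l 16614416) (l 16615432)) (l 16610760)) (a (b (l 16619920) (l 16628232)) (l 16634336))) (b (a (l 16586504) (l 16552792))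 (a (l 16616432) (l 16577528))))) (b (a (b (l 1) (a (l 16581520) (l 1))) (l 1)) (a (b (a (l 16515480) (l 16484672)) (a (l 16533256) (l 16495904))) (b (l 191696128199) (l 16557840)))))), by decide +kernel⟩

theorem s5_pm_112 : ∃ t, chk3 f_pm_112 t 2 5 1 = true := ex3_a k1_pm_112 k2_pm_112

theorem s6_pm_112 : ∃ t, chk3 f_pm_112 t 1 5 1 = true := ex3_a s5_pm_112 k3_pm_112

theorem s7_pm_112 : ∃ t, chk3 f_pm_112 t 1 2 1 = true := ex3_b k0_pm_112 s6_pm_112

theorem s8_pm_112 : ∃ t, chk3 f_pm_112 t 1 1 1 = true := ex3_b s7_pm_112 k4_pm_112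

theorem c_pm_112 : CertB 536870912 536870912 536870912 536870912 697932185 42949674 3 eng mog cd0q1 cd2q1 pd2 true true false .dn 1 1 2
    ndB0q1 ndB2q1 pcB2 Cut.none Ext.none :=
  certB1 (fam := true) (s1 := true) (s2 := false) (a := 1) (b := 1) (c := 2) (cn := .dn) (n1 := ndB0q1) (n2 := ndB2q1) (pc := pcB2) (cut := Cut.none) (xt := Ext.none) (P1 := 536870912) (W1 := 536870912) (P2 := 536870912) (W2 := 536870912) (P3 := 697932185) (W3 := 42949674) (N0 := 3) (En := eng) (mo := mog) (C1 := cd0q1) (C2 := cd2q1) (C3 := pd2)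
    rfl (fun _ => rfl) s8_pm_112

noncomputable def f_pm_113 : ℕ → ℕ → ℕ → ℕ → Bool := onCell 536870912 536870912 1610612736 536870912 697932185 42949674
    (rowB 3 eng mog cd0q1 cd2q1 pd3 1 true true false .nn 1 1 3 (qsf 536870912 536870912 536870912 536870912 3) ndB0q1 ndB2q1 pcB3 Cut.none Ext.none)

def k0_pm_113 : ∃ t, chk3 f_pm_113 t 2 1 1 = true :=
  ⟨(b (b (a (a (b (a (l 63450498375) (l 16256128)) (a (l 2) (b (l 16210680) (l 2)))) (b (a (l 16312280) (l 16372296)) (a (l 16257136) (l 16320576)))) (a (b (a (l 16435256) (l 16521992)) (a (l 16391408) (l 16471448))) (b (a (l 16564536) (l 16619016)) (a (l 16555408) (l 16634512))))) (b (a (a (l 2) (b (a (l 2) (l 16296440)) (l 2))) (a (b (l 16414776) (l 16414080)) (a (l 16537112) (l 16599280)))) (a (l 2) (a (a (l 2) (l 16445744)) (a (l 16495912) (l 16542600)))))) (a (l 2) (b (b (a (l 2) (b (a (l 2) (l 16521608)) (l 2))) (l 2)) (l 2)))), by decide +kernel⟩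

def k1_pm_113 : ∃ t, chk3 f_pm_113 t 3 2 1 = true :=
  ⟨(b (a (a (a (b (l 16660600) (l 16703016)) (b (l 16686608) (l 16764616))) (b (l 16741040) (a (l 16805448) (l 16812104)))) (a (b (l 16655552) (b (l 16715384) (l 16828936))) (b (l 16492024) (l 16667080)))) (b (a (a (a (l 16651864) (b (l 16741504) (l 16696000))) (a (l 16745600) (b (l 16925656) (l 16878448)))) (b (a (a (l 16976336) (l 16950136)) (b (l 16846880) (l 16903432))) (a (a (l 16968704) (l 17055416)) (a (l 17076464) (l 16990272))))) (a (a (a (l 16582048) (b (l 16653992) (l 16616800))) (b (a (l 16737688) (a (l 16804152) (l 16849288))) (a (l 16686312) (l 16759808)))) (b (b (a (a (l 16906000) (l 17002896)) (b (a (l 17058656) (l 17081200)) (l 17011976))) (a (a (l 16883936) (l 17002720)) (b (a (l 17045928) (l 16977616)) (l 17002472)))) (a (a (l 16827584) (l 16939776)) (b (l 16959880) (l 17039712))))))), by decide +kernel⟩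

def k2_pm_113 : ∃ t, chk3 f_pm_113 t 3 3 1 = true :=
  ⟨(a (b (b (a (a (b (l 16546528) (l 16536336)) (b (l 16587200) (l 16565360))) (b (a (l 16644136) (l 16701536)) (a (a (l 16599512) (l 16621472)) (b (l 16663544) (l 16641392))))) (a (b (a (l 2) (l 16554688)) (l 2)) (a (a (l 16680760) (b (l 16595456) (a (l 2) (l 16583312)))) (b (a (l 16605656) (l 16619888)) (a (a (l 16586088) (l 16586400)) (b (l 16594824) (l 16587224))))))) (b (b (a (l 2) (a (l 2) (a (l 2) (l 16582008)))) (l 2)) (l 2))) (a (b (b (a (b (l 16780496) (l 16722200)) (b (l 16861768) (l 16795608))) (b (a (l 16588752) (l 16738928)) (a (b (l 16641888) (l 16630480)) (l 16590048)))) (b (a (b (l 16621088) (l 266925683911)) (b (l 16679368) (l 16755672))) (b (a (l 2) (b (l 16666928) (l 2))) (l 2)))) (b (b (a (b (l 16934992) (l 16859952)) (c (l 16958464) (l 16949792))) (a (b (l 16690704) (b (l 16753672) (l 16737216))) (b (l 16849720) (l 16698608)))) (b (b (a (l 16727888) (l 16699952)) (a (l 16594400) (l 16757752))) (b (b (a (l 16712688) (l 16721944)) (b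 (l 269609882711) (l 16711880))) (b (c (l 16768456) (l 224512672983)) (a (l 2) (l 4)))))))), by decide +kernel⟩

theorem s3_pm_113 : ∃ t, chk3 f_pm_113 t 3 1 1 = true := ex3_b k1_pm_113 k2_pm_113

theorem s4_pm_113 : ∃ t, chk3 f_pm_113 t 1 1 1 = true := ex3_a k0_pm_113 s3_pm_113

theorem c_pm_113 : CertB 536870912 536870912 536870912 536870912 697932185 42949674 3 eng mog cd0q1 cd2q1 pd3 true true false .nn 1 1 3
    ndB0q1 ndB2q1 pcB3 Cut.none Ext.none :=
  certB1 (fam := true) (s1 := true) (s2 := false) (a := 1) (b := 1) (c := 3) (cn := .nn) (n1 := ndB0q1) (n2 := ndB2q1) (pc := pcB3) (cut := Cut.none) (xt := Ext.none) (P1 := 536870912) (W1 := 536870912) (P2 := 536870912) (W2 := 536870912) (P3 := 697932185) (W3 := 42949674) (N0 := 3) (En := eng) (mo := mog) (C1 := cd0q1) (C2 := cd2q1) (C3 := pd3)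
    rfl (fun _ => rfl) s4_pm_113

noncomputable def cut_pm_123_a : Cut := Cut.of [[⟨0, 1, 0, 67108864⟩, ⟨1, 1, 0, 67108864⟩, ⟨2, 2, 0, 16777216⟩], [⟨0, 0, 1, 20971520⟩, ⟨1, 1, 0, 33554432⟩, ⟨2, 1, 1, 20971520⟩]]

noncomputable def xt_pm_123_a : Ext := extD2 3 ⟨7, 3, 3, 10, 49, 25, 3, 4, 67, 200, 3, 16⟩ eng cd0q1 cd2q2a pd3 true true false .npn 1 2 3 rfl ndB0q1 ndB2q2a pcB3

noncomputable def f_pm_123_a : ℕ → ℕ → ℕ → ℕ → Bool := onCell 1610612736 536870912 0 536870912 697932185 42949674
    (rowB 3 eng mog cd0q1 cd2q2a pd3 2 true true false .npn 1 2 3 (qsf 536870912 536870912 0 536870912 3) ndB0q1 ndB2q2a pcB3 cut_pm_123_a xt_pm_123_a)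

def k0_pm_123_a : ∃ t, chk3 f_pm_123_a t 4 2 1 = true :=
  ⟨(a (l 1) (b (l 1) (a (l 1) (b (l 1) (l 16575056))))), by decide +kernel⟩

def k1_pm_123_a : ∃ t, chk3 f_pm_123_a t 4 6 1 = true :=
  ⟨(a (l 1) (b (a (l 1) (l 16554440)) (a (l 16583960) (b (l 16534224) (l 16518224))))), by decide +kernel⟩

def k2_pm_123_a : ∃ t, chk3 f_pm_123_a t 8 7 1 = true :=
  ⟨(b (a (l 1) (b (l 16424248) (a (l 16404008) (l 16416488)))) (b (a (a (l 1) (b (l 16382512) (l 16374392))) (b (a (l 16391992) (l 16403928)) (a (c (l 16397272) (l 16370256)) (b (l 16397576) (l 16414400))))) (a (b (a (c (b (l 16372880) (l 16369240)) (l 16347528)) (b (l 16409968) (c (l 140857162505764879) (l 16349928)))) (c (a (c (l 140872555653873679) (a (l 140566891389485071) (l 140747692339363855))) (b (l 140918872587960335) (l 140977765171134479))) (b (a (a (l 16338440) (l 16340376)) (a (l 16363904) (c (l 140918116632068111) (l 16338912)))) (c (a (a (l 140794558983684111) (l 140799025754570767)) (l 140626058841227279)) (a (a (l 16326296) (l 140862797400850447))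 (a (l 140873517643694095) (l 140884031729385487))))))) (b (a (c (a (l 140932547791503375) (l 140946360418598927)) (a (l 16358024) (a (l 16361328) (l 16363752)))) (a (b (l 16385832) (c (l 141107782479413263) (a (l 16363768) (l 16366640)))) (b (l 16413624) (a (l 141171829008039951) (l 140999755445927951))))) (a (a (a (c (l 140696152772821007) (c (l 140870219157798927) (l 140944436160905231))) (b (c (l 140742882026864655) (l 140973229647413263)) (c (l 140880802008547343) (c (l 140623997272064015) (b (l 140924026477182991) (l 140496385167310863)))))) (a (b (c (l 140755182819360783) (c (l 140936877065273359) (l 141010819189719055))) (c (l 141074041183485967) (c (l 140741851179892751) (b (l 140540022045605903) (l 140778203745910799))))) (b (c (l 140773256048377871) (c (l 140719654804832271) (a (l 141000717430145039) (l 140521192923955215)))) (c (l 140900043475189775) (l 140669970595332111))))) (c (b (b (l 141354485403058191) (l 141326310413959183)) (a (l 141270922502225935) (l 140755182845820943))) (a (a (b (l 140849672043626511)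 (l 140620492577849359)) (l 141016591653355535)) (a (l 141012124893986831) (l 141190932979580943))))))))), by decide +kernel⟩

def k3_pm_123_a : ∃ t, chk3 f_pm_123_a t 9 14 1 = true :=
  ⟨(a (b (l 16456448) (a (l 16431528) (l 16449968))) (b (l 16501432) (l 16534952))), by decide +kernel⟩

def k4_pm_123_a : ∃ t, chk3 f_pm_123_a t 9 15 1 = true :=
  ⟨(b (a (b (a (l 16418904) (l 16437480)) (a (b (l 16412608) (l 16408664)) (b (l 16431680) (l 16428040)))) (b (a (l 16460576) (l 16488608)) (a (b (l 16455256) (l 16451984)) (b (l 16483872) (l 16481056))))) (a (b (b (a (c (l 141158634941923343) (l 16387288)) (a (l 141342184657371151) (l 141042430322311183))) (a (c (l 141468765933846543) (l 141326585261375503)) (c (l 141052806985334799) (l 140848160302333967)))) (b (a (c (a (l 140850771663175695) (l 140900387145629711)) (a (l 140877640901754895) (l 140714569600647183))) (c (a (l 140963471647768591) (l 141040918522953743)) (a (l 140745493384577039) (l 140790985699934223)))) (a (c (a (l 140792566259712015) (c (l 140901830269681679)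 (l 140786793823322127))) (a (l 140610390846717967) (l 140627708172468239))) (c (a (c (l 140974123182948367) (l 140843968450215951)) (c (l 141241441973633039) (l 140916192644939791))) (a (l 140659525310070799) (c (l 140775523831267343) (l 140638978186706959))))))) (a (a (b (c (l 141206876094103567) (l 140970412290310159)) (c (b (l 141133483685560335) (b (l 141096237725696015) (c (l 141333663539281935) (l 140989859949920271)))) (b (l 140852008619540495) (c (l 140847541868544015) (l 140693472755712015))))) (b (c (l 141311329728036879) (l 141044698070777871)) (c (b (l 141242197927870479) (c (b (l 141292912922689551) (a (l 141242197939240975) (l 141306794263937039))) (a (l 141081394316476431) (l 141138294058926095)))) (b (l 140929455496740879) (c (b (l 140954263245881359) (l 140919010151088143)) (l 140765215916064783)))))) (a (b (c (l 141431795002818575) (l 141135270370000911)) (c (b (l 141728113380868111) (c (b (l 141428633923485711) (a (l 141556039823360015) (a (l 141430764230754319) (l 141468766110613519))))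 (b (l 141244465676419087) (a (l 141187084902809615) (l 141253811532021775))))) (b (l 141024357123850255) (a (b (l 140942031177728015) (l 141084143052193807)) (c (l 141073560295407631) (l 140880664674320399)))))) (c (b (l 141569233991335951) (b (c (l 141604487103070223) (l 141418463429918735)) (b (c (l 141582840466636815) (l 141384928322666511)) (b (c (a (l 141531644446228495) (l 141614657593769999)) (l 141548618115039247)) (c (a (c (l 141575556204478479) (l 141473576475099151)) (c (b (l 141662211484614671) (l 141749760097927183)) (l 141555696269344783))) (a (l 141319782247366671) (c (l 141449868248907791) (l 141343421753196559)))))))) (b (l 141243091260801039) (b (l 141317858041741327) (c (b (l 141185435630829583) (a (l 141121114189152271) (l 141190039842373647))) (b (l 140984362391142415) (a (l 140915230585618447) (l 140975635022839823))))))))))), by decide +kernel⟩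

def k5_pm_123_a : ∃ t, chk3 f_pm_123_a t 10 2 1 = true :=
  ⟨(a (b (b (l 16654432) (a (l 1) (l 16647832))) (a (b (l 16623040) (l 16608640)) (b (l 16630736) (l 16610800)))) (b (b (l 16688664) (a (l 16667440) (l 16684296))) (a (b (l 16653904) (l 16638656)) (b (l 16677016) (l 16668896))))), by decide +kernel⟩

def k6_pm_123_a : ∃ t, chk3 f_pm_123_a t 10 6 1 = true :=
  ⟨(a (a (b (l 16590040) (b (l 16570080) (l 16554712))) (b (a (l 16586336) (l 16588960)) (a (l 16561480) (l 16565664)))) (b (a (l 16643504) (a (l 16653320) (l 16673592))) (a (b (l 16607032) (l 16594584)) (a (l 16636592) (b (l 16667696) (l 16655040)))))), by decide +kernel⟩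

def k7_pm_123_a : ∃ t, chk3 f_pm_123_a t 40 14 1 = true :=
  ⟨(b (l 16539248) (a (l 16522240) (l 16529872))), by decide +kernel⟩

def k8_pm_123_a : ∃ t, chk3 f_pm_123_a t 80 15 1 = true :=
  ⟨(b (b (l 16512584) (b (l 16508448) (l 16506072))) (b (b (c (l 141737253150507023) (l 141397022925586447)) (c (l 141703099567996943) (l 141331670697312271))) (b (c (a (l 141631768739627023) (l 142070611336953871)) (a (l 141235532135235599) (l 141298685351542799))) (b (a (c (l 141787624511373327) (l 141185847949344783)) (c (b (l 141873111560011791) (a (l 141668739831709711) (l 141704473968132111))) (a (l 141239311716220943) (l 141447256860327951)))) (a (c (b (c (l 141702618544455695) (l 141488351163138063)) (c (a (c (l 141728250917224463) (l 141620636190064655)) (b (l 141721585125228559) (a (l 141707428910333967) (a (c (l 141779790536769551) (l 141669908066598927)) (a (l 141846379698307087) (l 141739795791233039)))))) (a (l 141457770990354447) (b (l 141502507379965967) (a (l 141487114214359055) (c (l 141564835961110543)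 (l 141453029345591311))))))) (b (l 141341291403689999) (c (a (l 141237937331191823) (a (l 141266730799185935) (l 141286796891308047))) (a (l 141014942576148495) (l 141049783360094223))))) (a (c (b (c (a (l 141760411637661711) (l 141782058277781519)) (l 141552191572148239)) (c (a (b (l 141756975663792143) (l 141754845360029711)) (b (l 141779034620854287) (l 141957361663033359))) (b (l 141546212977311759) (l 141542570844831759)))) (b (c (l 141329471694569487) (l 141103109684723727)) (c (b (l 141320744320303119) (l 141315452920135695)) (l 141088060117876751)))) (c (b (l 141699457446248463) (c (b (l 141807621929762831) (c (l 141862047769116687) (l 141750103714234383))) (l 141581947113799695))) (b (l 141248588851478543) (l 141237525014741007))))))))), by decide +kernel⟩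

def k9_pm_123_a : ∃ t, chk3 f_pm_123_a t 81 15 1 = true :=
  ⟨(b (b (l 16522320) (l 16518688)) (b (b (l 141838202040352783) (b (l 141810027053187087) (a (l 141588338013716495) (l 141637266294505487)))) (b (b (a (c (l 141777522784092175) (l 141357440518651919)) (c (l 141839576486658063) (l 141406231360454671))) (a (c (l 141767764618362895) (l 141332632785698831)) (l 141614107830435855))) (b (a (c (b (l 141761442426634255) (l 141757937733500943)) (b (l 141315933951574031) (l 141306107065614351))) (c (l 141832635821572111) (l 141374345521463311))) (c (a (b (l 142115141573853199) (a (c (c (a (l 141892284345597967) (l 141912419156885519)) (l 141789548702711823)) (l 141618643322880015)) (c (c (c (l 14) (l 142004640694730767)) (l 141919084925419535)) (l 141836415353339919)))) (b (c (l 141946435303997455) (l 141716156281815055)) (c (b (l 141947603535937551) (c (l 14) (a (l 141869469472686095) (b (l 141910976045989903) (l 141911457082621967))))) (b (l 141714850612199439) (c (a (l 141752921212108815) (l 141793396993163279))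 (l 141654927214739471)))))) (a (c (b (l 141412622281179151) (l 141404994418851855)) (l 141174303080726543)) (c (a (l 141461550560706575) (l 141497903172321295)) (l 141240205074432015)))))))), by decide +kernel⟩

def k10_pm_123_a : ∃ t, chk3 f_pm_123_a t 41 7 1 = true :=
  ⟨(b (b (a (l 16542920) (l 16549504)) (a (l 16534008) (l 16542776))) (b (b (a (l 16529392) (l 16540096)) (a (b (l 16528200) (l 16527928)) (a (l 16535792) (l 16545376)))) (b (b (a (b (l 16527968) (l 16528120)) (l 141855107083845647)) (a (a (a (l 141682346281385999) (l 141708940725551119)) (l 141750722177597455)) (a (l 141813463074848783) (l 141901217866629135)))) (b (a (c (b (l 141938601276014607) (l 141942587008139279)) (l 141847135544164367)) (a (c (l 142053087951486991) (l 141585520519544847)) (c (l 142146477741408271) (l 141670595251159055)))) (c (c (a (b (l 142064357951946767) (a (b (l 142029448450818063) (a (b (l 142011100346892303) (a (c (l 14) (l 141943136768507919)) (l 14))) (l 14))) (l 14))) (l 14)) (a (b (l 141831605027897359) (a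 (b (l 141794221625311247) (b (l 141795046259900431) (c (a (l 141834834847072271) (l 141877303493328911)) (a (l 141714781892673551) (l 141755944868626447))))) (b (l 141875929101795343) (b (l 141879090199052303) (c (a (b (l 141920115736952847) (l 142011375202517007)) (l 14)) (a (l 141798138636910607) (l 141841294478082063))))))) (b (a (l 141952894932074511) (l 142046009843974159)) (c (l 14) (a (a (b (l 141878196844412943) (b (l 141882526173020175) (a (l 141874348553846799) (a (l 141891116109955087) (l 141902386106679311))))) (b (l 141922933233860623) (c (l 14) (l 141897713180688399)))) (b (l 141993164554846223) (l 14))))))) (a (b (a (l 141440865990606863) (l 141510684995256335)) (a (b (l 141434268921200655) (c (a (l 141533637309071375) (l 141572532541816847)) (l 141306794263609359))) (b (l 141508417253720079) (c (a (l 141612389847433231) (l 141833391693922319)) (l 141381286193561615))))) (a (b (a (l 141565385711403023) (l 141606136370413583)) (a (b (l 141566485224882191) (c (a (l 141684476594929679) (a (l 141700350797643791)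 (l 141711071038439439))) (l 141619880230158351))) (b (l 141608060517761039) (c (a (l 141727426277605391) (l 141929667702636559)) (l 141480517140611087))))) (b (l 141671557327093775) (b (l 141853663942410255) (c (b (l 141804941864583183) (c (a (l 141848991060049935) (b (l 141894826961190927) (l 141896132631756815))) (a (l 141719179938349071) (l 141764328644706319)))) (a (l 141522573469909007) (l 141565660591554575)))))))))))), by decide +kernel⟩

def k11_pm_123_a : ∃ t, chk3 f_pm_123_a t 21 14 1 = true :=
  ⟨(a (b (l 16583040) (b (l 16576456) (l 16573472))) (b (a (l 16617704) (l 16642656)) (a (l 16608952) (c (l 16650944) (l 16616168))))), by decide +kernel⟩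

def k12_pm_123_a : ∃ t, chk3 f_pm_123_a t 21 30 1 = true :=
  ⟨(a (b (a (l 16560752) (l 16582632)) (a (l 16560936) (b (l 16582472) (l 16583336)))) (b (c (l 16635568) (l 16596392)) (a (b (l 16605728) (l 16606792)) (b (l 16631472) (l 16629392))))), by decide +kernel⟩

def k13_pm_123_a : ∃ t, chk3 f_pm_123_a t 21 62 1 = true :=
  ⟨(a (a (b (l 142040237396181007) (c (l 142271066178076687) (l 141812638437670927))) (b (l 142242753739440143) (c (l 142462037645754383) (l 142011100331016207)))) (a (b (l 142462037638234127) (c (l 142424585556230159) (l 142227910328188943))) (b (l 142647923861061647) (c (l 142566628740120591) (l 142471108609572879))))), by decide +kernel⟩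

def k14_pm_123_a : ∃ t, chk3 f_pm_123_a t 42 63 1 = true :=
  ⟨(a (b (b (l 142231208830091279) (c (l 142303982817918991) (l 141808377834078223))) (c (l 14) (b (a (l 141762473215295503) (l 141857787150860303)) (a (b (c (l 141895720313028623) (l 141632387217375247)) (c (b (l 142078857719857167) (c (l 14) (a (l 141810576862920719) (l 141857924592959503)))) (a (l 141790029693042703) (a (l 141643725934657551) (l 141666678245031951))))) (b (c (l 141993783028187151) (l 141725227251236879)) (c (a (c (l 14) (c (l 14) (l 141871737210372111))) (l 14)) (b (l 141725158532530191) (c (a (l 141770169800704015) (l 141818342164643855)) (l 141836277911257103))))))))) (c (c (c (c (b (l 142418194647302287) (b (l 142429602083078287) (a (l 14) (b (l 142647855148302479) (a (a (l 14) (l 142644419174121615)) (b (l 142666753007943823) (l 142668952031723663))))))) (l 14)) (l 14)) (l 14)) (b (b (l 142007664359227407) (l 142007595641602063)) (b (a (l 141957567853314063) (l 142062090200563727)) (c (l 14) (a (b (l 141822534051971087) (b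 (l 142002579081773071) (c (a (l 141957842713378831) (b (l 141918122866868239) (l 14))) (a (l 141727563714985999) (l 141776698151747599))))) (b (l 141924513778040847) (c (l 14) (a (a (l 141814562591539215) (l 141839988803567631)) (c (l 14) (l 141842600144076815))))))))))), by decide +kernel⟩

def k15_pm_123_a : ∃ t, chk3 f_pm_123_a t 43 63 1 = true :=
  ⟨(c (a (b (b (l 142424104520171535) (l 142425891184263183)) (a (c (b (l 142648817219371151) (c (b (l 142691285864808591) (a (b (l 142678366601085071) (c (l 142699738362757263) (l 142660843131060367))) (a (l 142657338445512847) (l 142717605429313679)))) (a (l 14) (b (l 142630606554251407) (c (a (l 142644419172204687) (l 142659881057206415)) (l 14)))))) (l 14)) (b (l 142458876539273359) (a (b (l 142263850704896143) (c (b (l 142701593787383951) (c (l 142741176214077583) (a (l 142656582521340047) (l 142671975686848655)))) (l 14))) (b (l 142295599108784271) (c (c (l 142725508178509967) (b (l 142694240801161359) (c (l 142713963295031439) (l 142675617819312271)))) (a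 (l 14) (c (c (l 142644831487361167) (l 14)) (l 14))))))))) (a (b (l 142525809364058127) (b (l 142343565225934991) (b (c (l 142686681674088591) (l 142448156340633743)) (c (c (a (l 142800274974457999) (l 142829686915694735)) (b (l 142739939261284495) (a (l 142725027132276879) (l 142754782670979215)))) (c (a (b (l 142649092095213711) (a (l 142595834488635535) (l 142656170202644623))) (b (l 142679878426247311) (c (l 142698020371808399) (l 142659881054617743)))) (l 14)))))) (b (b (l 142775535954903183) (l 142771618944254095)) (b (l 142407130753237135) (b (a (l 142388645296816271) (l 142418950591447183)) (c (a (c (l 142858686540021903) (l 142784538209616015)) (c (l 142887342566899855) (l 142813812711882895))) (b (a (l 142672869037555855) (l 142703243051647119)) (a (c (c (l 142727913349480591) (l 142690048910246031)) (c (l 142607035774812303) (l 14))) (c (l 142738702308802703) (a (l 142655757884080271) (l 142670807452139663))))))))))) (a (a (b (l 142168880288251919) (b (l 142171354192674831) (b (c (l 14) (l 142031510026895375))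 (l 14)))) (b (l 142283916717588495) (l 14))) (b (b (l 142468634710491151) (l 14)) (l 14)))), by decide +kernel⟩

def k16_pm_123_a : ∃ t, chk3 f_pm_123_a t 11 2 1 = true :=
  ⟨(a (b (b (l 16716896) (a (l 16698080) (l 16711936))) (a (a (b (l 16689688) (l 16685224)) (l 16681904)) (a (b (l 16686608) (l 16660936)) (l 16679440)))) (b (b (l 16743040) (l 16735736)) (b (l 16721928) (l 16696168)))), by decide +kernel⟩

def k17_pm_123_a : ∃ t, chk3 f_pm_123_a t 22 6 1 = true :=
  ⟨(a (b (a (a (l 16687992) (l 16681832)) (l 16663608)) (a (a (b (l 16686320) (l 16674160)) (b (l 16678840) (l 16668064))) (b (l 16655872) (c (l 16663176) (l 16631832))))) (b (a (b (l 16640880) (l 16627672)) (l 16631224)) (a (b (a (l 16627984) (l 16606008)) (a (l 16624424) (l 16604512))) (b (l 16609168) (l 16609192))))), by decide +kernel⟩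

def k18_pm_123_a : ∃ t, chk3 f_pm_123_a t 22 14 1 = true :=
  ⟨(a (c (b (a (l 16673056) (l 16653632)) (a (a (l 16662824) (l 16658720)) (l 16648200))) (a (b (a (l 16648264) (l 16642816)) (a (l 16636240) (l 16634368))) (b (l 16624576) (a (l 16627520) (l 16619968))))) (a (b (a (l 16621336) (c (l 16626904) (l 16585536))) (a (c (l 16638432) (l 16608168)) (c (l 16611792) (l 16594920)))) (b (l 16613088) (l 16623096)))), by decide +kernel⟩

def k19_pm_123_a : ∃ t, chk3 f_pm_123_a t 88 15 2 = true :=
  ⟨(b (b (l 16652920) (a (l 16628432) (l 16650224))) (b (a (b (l 16626320) (l 142671425918107791)) (c (b (l 16654744) (l 142948571628863631)) (l 142655276836028559))) (a (b (a (l 142823914475339919) (b (l 142856831110463631) (c (l 142915036519350415) (l 142784675645751439)))) (a (b (l 142814156308185231) (b (l 142448912288612495) (b (c (l 142879645983146127) (l 142733204748828815)) (c (l 142878890068836495) (c (l 142767976811085967) (c (l 142711970426388623) (l 142674380865175695))))))) (a (a (b (l 142833397765111951)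 (b (l 142827762767167631) (c (l 142896963294380175) (b (l 142751759010840719) (l 142749010231296143))))) (b (l 142840407152984207) (b (l 142834840874516623) (b (c (l 142904453718622351) (l 142758974557175951)) (c (l 142903422926373007) (c (l 142793265582997647) (b (l 142719804447719567) (c (l 142736846881374351) (l 142699394759147663))))))))) (b (l 142849478125469839) (b (l 142484371501924495) (c (b (l 142914486764011663) (l 142913730849702031)) (c (l 142804879176581263) (a (l 142727638464086159) (l 142734716576792719))))))))) (b (b (l 142885074819973263) (c (l 142948228032233615) (l 142815736854380687))) (b (c (l 142948021874131087) (a (l 142798213385044111) (l 142821578011132047))) (c (a (b (l 142935033891029135) (c (l 142970286989951119) (l 142898268963717263))) (b (l 142960528821354639) (c (l 142996743993147535) (l 142925138283856015)))) (a (b (l 142792647106592911) (c (a (l 142818691793830031) (l 142832435691602063)) (b (l 142753339558232207) (a (l 142743993707806863) (l 142758149922504847))))) (b (l 142818485634351247)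 (b (l 142816973805715599) (c (l 142852501782380687) (a (l 142772237417726095) (l 142786187473961103)))))))))))), by decide +kernel⟩

def k20_pm_123_a : ∃ t, chk3 f_pm_123_a t 88 15 3 = true :=
  ⟨(b (a (b (l 16630032) (b (l 16628520) (l 16628344))) (b (l 16631888) (l 16632752))) (c (a (c (c (b (l 142739045903548431) (a (l 14) (b (l 142709908840120463) (b (l 142687231408799887) (b (a (l 142669089463763087) (l 142682695922532495)) (a (a (l 142657407150669967) (b (l 142666753001144463) (b (l 142663798063120527) (a (l 142659949771751567) (l 142663660624150671))))) (b (l 142677267082936463) (l 142673693669523599)))))))) (l 14)) (l 14)) (b (l 142721453712572431) (b (l 142506911457411215) (b (l 142489456707420303) (b (c (a (l 142684207750873231) (l 142710252437078159)) (l 142444170563682447)) (a (c (b (l 142679672264654991) (a (c (l 142688124762177679) (l 142650672640016527)) (a (l 142680222020583567) (l 142687437566918799)))) (l 14)) (b (c (l 142707297499136143) (l 142633286608224399)) (c (a (a (l 142694584393760911)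 (l 142701731220603023)) (b (l 142712795058290831) (l 142711901704978575))) (a (l 14) (c (l 142656513795850383) (l 14))))))))))) (b (b (a (l 142555496139571215) (l 14)) (l 14)) (l 14)))), by decide +kernel⟩

def k21_pm_123_a : ∃ t, chk3 f_pm_123_a t 89 15 1 = true :=
  ⟨(b (c (b (l 16626384) (l 16627992)) (b (l 16626032) (b (l 16625504) (l 16625656)))) (a (c (b (b (l 16650392) (l 142917304259068047)) (b (b (l 142920877673136271) (c (l 142990902834512015) (l 142855319279534223))) (b (c (l 142995163443298447) (a (l 142844667759247503) (l 142867413909930127))) (c (c (a (l 143021826606465167) (l 143047115378344079)) (b (l 142963140160929935) (a (l 142951664006545551) (l 142977846131785871)))) (c (b (l 142892290366144655) (a (b (l 142879783419347087) (l 142879852138938511)) (l 142906377861578895))) (b (l 142820890815545487) (a (a (l 142800481127596175) (l 142814018866905231)) (a (l 142827556606197903) (l 142840956906520719))))))))) (c (b (l 142548074429562895) (b (l 142538728580055183) (b (a (l 142703380487143567)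 (l 142725508162388111)) (a (b (l 142699600915513487) (c (a (a (l 142723652737515663) (l 142730593405878415)) (b (l 142741244926607503) (l 142740557731807375))) (b (l 142660911842705551) (a (c (l 142670876169011343) (l 14)) (a (l 142662973416718479) (l 142670051534815375)))))) (b (l 142725027126313103) (c (b (l 142761448456290447) (c (l 142779796560314511) (l 142743100347154575))) (b (l 142688124760260751) (a (a (l 142677198361641103) (l 142684276469006479)) (a (l 142691285856878735) (l 142698363964211343)))))))))) (l 14))) (b (b (l 142615213369688079) (c (l 142944173578469519) (l 142488219752546319))) (b (a (c (l 142950358333751439) (l 142490968533434383)) (c (l 142968775156547727) (l 142504781150306447))) (c (c (b (l 143040999342194831) (a (a (l 143030828858491023) (l 143043335805452431)) (a (l 143055705313427599) (l 143022994844663887)))) (b (a (l 142889816463179919) (l 142911875418980495)) (a (b (l 142894008352440463) (c (l 142932628706328719) (b (l 142860267082809487) (l 142861572753244303)))) (b (l 142918541209895055)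 (a (l 142916479625576591) (l 142929467608973455)))))) (c (b (a (l 142747292240199823) (l 142768801440055439)) (b (a (l 142750109739663503) (l 142774848755581071)) (a (a (c (l 142781789425057935) (a (l 142705167188181135) (l 142712039142424719))) (c (l 142795258444857487) (a (l 142718842371817615) (l 142725645601210511)))) (c (a (l 142808590025703567) (l 142821852887040143)) (b (l 142741519803056271) (a (l 142736640719519887) (l 142750453336768655))))))) (c (b (l 142649229527515279) (b (a (l 142640433433444495) (l 142665309888331919)) (a (b (l 142641326787018895) (c (a (l 142653421417513103) (l 142667577632211087)) (l 14))) (b (l 142668196107124879) (a (a (l 142659606171189391) (l 142666615559061647)) (a (l 142673624946917519) (l 142680634334773391))))))) (l 14)))))))), by decide +kernel⟩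

def k22_pm_123_a : ∃ t, chk3 f_pm_123_a t 90 30 1 = true :=
  ⟨(b (a (l 16607200) (a (l 16624056) (l 16601280))) (a (b (l 16610864) (l 16613792)) (a (l 16610424) (l 16609840)))), by decide +kernel⟩

def k23_pm_123_a : ∃ t, chk3 f_pm_123_a t 90 62 1 = true :=
  ⟨(b (a (a (l 16595896) (l 16595656)) (a (l 16595400) (l 142626071003070479))) (a (c (l 142970080825065615) (l 142495916334022671)) (c (a (l 142988841245016207) (l 143004852885700751)) (l 142505880658772111)))), by decide +kernel⟩

def k24_pm_123_a : ∃ t, chk3 f_pm_123_a t 90 126 1 = true :=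
  ⟨(b (a (a (l 142477705662775439) (l 142491449560219791)) (a (l 142504918579724431) (a (l 142875110488309903) (l 142890641006952527)))) (a (a (a (l 142485264807362703) (l 142494060901810319)) (a (l 142502788276781199) (l 142511378212782223))) (c (a (l 143030622696341583) (l 143052131896279119)) (a (l 142735266326560911) (a (l 142746536322498703) (l 142764334670233743)))))), by decide +kernel⟩

def k25_pm_123_a : ∃ t, chk3 f_pm_123_a t 90 127 2 = true :=
  ⟨(c (a (b (l 143085598290313295) (a (a (l 143080238170931279) (l 143092332800966735)) (b (l 143106901332394063) (l 143113842001150159)))) (c (b (l 143165106739822799) (a (l 143168611434545359) (l 143193694047994063))) (b (l 143095012859199567) (a (l 143099617065795791) (l 143125318154666191))))) (a (b (a (l 142933659496841359) (l 142955099977253007)) (b (a (l 142942661750440079) (l 142966507413029007)) (a (c (l 142984168322941071) (l 142913249808760975)) (c (l 143009388375343247) (l 142938882178105487))))) (b (a (l 142976265579724943) (l 143000248681300111))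 (b (a (l 142990009478185103) (l 143016054164471951)) (a (c (l 143034264830312591) (l 142964170950000783)) (a (l 143017909591113871) (l 143035433060892815))))))), by decide +kernel⟩

def k26_pm_123_a : ∃ t, chk3 f_pm_123_a t 90 127 3 = true :=
  ⟨(c (a (b (a (l 142789898322985103) (l 142810720327958671)) (a (b (l 142799244174065807) (c (a (l 142835047028899983) (l 142848172451266703)) (b (l 142767701928280207) (a (l 142764128515047567) (l 142777666254373007))))) (b (l 142823295995101327) (a (c (l 142861160434647183) (l 142789142408904847)) (c (l 142874079698550927) (l 142802267831271567)))))) (b (a (l 142831267454976143) (a (l 142846385742430351) (l 142864596407107727))) (a (b (l 142847004218704015) (a (c (l 142886930242977935) (l 142815324534145167)) (a (l 142860885545222287) (l 142867276468420751)))) (a (b (l 142864596407795855) (c (l 142912356453843087) (l 142841163061952655))) (b (l 142883631706357903) (b (l 142893252435214479) (c (l 142934552849023119) (l 142864665127452815)))))))) (b (a (a (l 142643319650566287)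 (l 142663454460608655)) (a (l 142683176953725071) (a (l 142697745485234319) (l 142717742856634511)))) (a (a (b (c (l 142689842745770127) (l 142616038013534351)) (c (b (l 142694721829781647) (a (a (l 142687575003152527) (l 142694515671531663)) (a (l 142701387620434063) (l 142708328288796815)))) (a (l 14) (c (a (l 142644556602114191) (l 142651359831507087)) (l 14))))) (b (c (l 142714032005775503) (l 142640295993016463)) (c (b (l 142720903955005583) (b (l 142724271210152079) (a (l 142719667004522639) (l 142733479621787791)))) (b (l 142647511539712143) (a (c (l 142663729339629711) (l 14)) (c (l 142677541956878479) (b (l 142639540078919823) (l 142642151419625615)))))))) (a (b (c (l 142737877668331663) (l 142664279094526095)) (c (b (l 142746673763319951) (a (l 142745849129713807) (l 142759318149529743))) (b (l 142673624945442959) (a (c (l 142691285854666895) (b (l 142653215257198735) (l 142656238914846863))) (c (l 142704961032945807) (l 142668470983803023)))))) (a (b (l 142718842369228943) (b (l 142729493890449551)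 (c (l 142772718449868943) (c (l 142718498772254863) (l 142682146162081935))))) (b (l 142739870532993167) (c (a (l 142782820214669455) (l 142798213380374671)) (b (l 142715131516895375) (a (a (l 142710527311298703) (l 142718773650063503)) (l 142731143158235279)))))))))), by decide +kernel⟩

def k27_pm_123_a : ∃ t, chk3 f_pm_123_a t 91 30 1 = true :=
  ⟨(b (l 16612488) (b (l 16618840) (l 16602400))), by decide +kernel⟩

def k28_pm_123_a : ∃ t, chk3 f_pm_123_a t 182 31 1 = true :=
  ⟨(b (b (l 16602280) (l 142561337279152207)) (b (c (c (l 143173078198714447) (l 143036188973219983)) (c (l 142896344810160271) (l 142753614429028495))) (c (b (c (l 143199054166769871) (l 143067593781067855)) (a (c (l 143196992582795471) (c (l 143098586272104655) (l 143032134524780687))) (b (l 143169367346659407) (a (c (l 143230665132802255) (l 143105664379257039)) (b (l 143187165694722255) (c (l 143251968174637263) (a (l 143125593031327951) (l 143136725588705487)))))))) (b (c (l 142933522055282831) (c (l 142831404892864655) (l 142762479244394639)))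 (a (b (c (l 142925069558644879) (l 142787561858891919)) (c (b (l 142934552848531599) (c (l 142974272714080399) (l 142907477369553039))) (a (b (l 142782888933916815) (c (l 142824807823016079) (a (l 142747567116304527) (l 142763922354880655)))) (b (l 142814431179735183) (b (l 142820066178039951) (c (l 142857105983258767) (c (l 142807078194544783) (l 142773611802951823)))))))) (b (l 142554877654614159) (b (c (l 142988978684362895) (l 142861435310735503)) (a (c (c (l 143013580262162575) (l 142949877294694543)) (b (l 142851402265378959) (c (l 142887411278233743) (c (l 142838964037795983) (a (l 142798350819278991) (l 142814774777331855)))))) (c (a (l 143002035387613327) (b (l 143013786420314255) (c (l 143046977934295183) (l 142985886307467407)))) (a (b (l 142874766891909263) (c (l 142909951270879375) (c (l 142862740981268623) (l 142831130015907983)))) (b (c (l 142921289986588815) (l 142859030128689295)) (b (a (l 142889129265365135) (l 142896344811880591)) (c (l 142925138278269071) (c (l 142878752622542991) (l 142847691413110927))))))))))))))),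 by decide +kernel⟩

def k29_pm_123_a : ∃ t, chk3 f_pm_123_a t 183 31 1 = true :=
  ⟨(b (b (l 16611680) (a (l 142997774776139855) (l 143047733845098575))) (a (b (c (l 143169367345037391) (l 142912700048195727)) (b (c (l 143197336178344015) (c (l 143014542333624463) (l 142890366214930575))) (b (c (a (c (l 143260489390850255) (l 143140986196525263)) (c (l 143278837494661327) (l 143162976433324239))) (a (c (l 143019765015462031) (b (l 142893183714558095) (l 142900467980697743))) (c (b (l 143043060922384527) (l 143048283604009103)) (b (l 142923626448568463) (a (l 142922870534488207) (l 142936889310642319)))))) (b (c (a (a (l 143202765018857679) (l 143212523186503887)) (l 143226404523688143)) (a (c (a (l 143022376356397199) (l 143034883303669903)) (a (b (l 142898337676673167) (l 142856762394067087)) (b (l 142913181086564495) (l 142915998585929871)))) (c (l 143052750371373199) (l 142935308762841231)))) (c (c (l 143278012861595855) (c (l 143191426303328463) (l 143133220894884047))) (c (c (l 143074671889121423) (a (l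 143003478497083535) (l 143028080074948751))) (c (c (l 142971455214911631) (a (l 142928161935982735) (l 142955168696041615))) (c (b (l 142910638466138255) (a (l 142899299750346895) (l 142927268583293071))) (b (l 142880676768579727) (b (l 142882807072997519) (a (a (l 142862397384229007) (l 142876965916360847)) (a (l 142891465729015951) (l 142905828102717583))))))))))))) (b (c (l 143211423672614991) (l 142970012102606991)) (b (c (b (l 143234169824542927) (a (l 143232795435172047) (l 143251899453538511))) (c (b (l 143061271586422927) (a (l 143060034636071055) (l 143084498774737039))) (b (l 142944036136255631) (a (b (l 142939844247666831) (l 142946372599562383)) (l 142971386494042255))))) (c (b (c (l 143304263706263759) (l 143193419167826127)) (c (l 143309623827349711) (a (l 143190395511079119) (l 143209911846617295)))) (c (b (l 143081406398546063) (c (l 143117484131991695) (a (l 143050070311944335) (l 143074053414453391)))) (b (c (l 142996675267264655) (l 142939844249108623)) (c (a (c (l 143007670386589839) (l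 142979357956735119)) (a (l 143012961787723919) (l 143025812332626063))) (b (l 142947953149853839) (b (l 142952007600242831) (a (c (l 142954893818822799) (a (l 142919503281406095) (l 142933728216121487))) (c (l 142982106737426575) (a (l 142947815711883407) (l 142961903207612559)))))))))))))), by decide +kernel⟩

def k30_pm_123_a : ∃ t, chk3 f_pm_123_a t 23 6 1 = true :=
  ⟨(b (b (l 16675840) (l 16662272)) (b (a (l 16634272) (l 16666600)) (c (l 16669272) (l 16634544)))), by decide +kernel⟩

def k31_pm_123_a : ∃ t, chk3 f_pm_123_a t 23 14 1 = true :=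
  ⟨(b (a (l 16619408) (l 16674432)) (a (c (l 16644768) (l 16636024)) (c (l 16695472) (l 16654104)))), by decide +kernel⟩

def k32_pm_123_a : ∃ t, chk3 f_pm_123_a t 23 30 1 = true :=
  ⟨(a (b (c (l 16674264) (l 16627480)) (c (c (l 16686608) (l 16675160)) (b (l 16655432) (l 16639544)))) (b (l 16673560) (c (a (l 16701840) (l 16714464)) (l 16674848)))), by decide +kernel⟩

def k33_pm_123_a : ∃ t, chk3 f_pm_123_a t 23 62 1 = true :=
  ⟨(a (a (a (c (l 143220769521123407) (b (l 16650416) (l 143002928736551055))) (b (l 143175277216350287) (c (l 16686200) (c (l 16671000) (l 16661032))))) (c (b (l 16693192) (c (l 16700920) (l 16692664))) (b (l 16675432) (c (l 16684632) (b (l 16675392) (l 16678256)))))) (c (a (a (l 16705032) (l 16711328)) (l 16730736)) (a (b (l 16694072) (b (l 16697784) (l 16700296))) (b (l 16711312) (l 16715856))))), by decide +kernel⟩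

def k34_pm_123_a : ∃ t, chk3 f_pm_123_a t 46 126 1 = true :=
  ⟨(a (a (a (b (l 143129303880400975) (b (l 143145727838978127) (c (l 143265574630965455) (a (l 143031997082927247) (l 143058935123083407))))) (c (b (l 16683584) (b (l 143296292242571471) (l 143302545716953295))) (b (b (l 143062645974089871) (l 143075359080136847)) (b (a (l 143074053410324623) (l 143099617060880527)) (l 143096455965229199))))) (a (c (b (l 16687216) (l 143334362841055439)) (b (c (l 16672424) (l 143070823593754767)) (l 143140161561313423))) (c (l 143363225026642127) (c (l 143225167570387023) (l 143133014734291087))))) (c (b (c (l 16703280) (l 16695624)) (c (l 143484721088348367) (l 143409129649078479))) (c (a (l 143288320783335503) (l 143367554357756111)) (a (l 143206682029424783) (l 143299315904757839))))), by decide +kernel⟩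

def k35_pm_123_a : ∃ t, chk3 f_pm_123_a t 46 127 1 = true :=
  ⟨(b (a (c (a (a (c (l 143328934002458831) (l 143222418791891151)) (l 143310860776669391)) (c (l 143406655747277007) (l 143316014739374287))) (a (b (a (c (l 143110680900026511) (l 143001348191273103)) (l 143105252061151375)) (c (l 143141742111064143) (l 143038044400648335))) (c (l 143225511170883663) (c (l 143157891192881295) (l 143112948646658191))))) (a (c (c (l 143463899084046543) (l 143385215267832015)) (c (l 143307768402837711) (l 143231627208523919))) (a (c (l 143468434571788495) (l 143332095104712783)) (c (l 143496197246861519) (l 143371883690983503))))) (c (c (a (a (a (l 143339104488734927) (l 143370165698904271)) (a (l 143400127397298383) (l 143428989583900879))) (a (b (l 143468503291445519) (l 143471389511106831)) (l 143520592667377935))) (a (b (a (l 143251349699084495) (l 143324192360349903)) (a (b (l 143255953905713359) (a (l 143240217131876559) (l 143277394387615951))) (a (l 143311960291786959) (l 143346594915795151)))) (a (a (l 143377724845261007)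 (l 143409954287239375)) (b (l 143454209640022223) (l 143457370737869007))))) (c (a (a (a (b (l 143127242299326607) (b (l 143133289615327311) (c (l 143163045155111119) (l 143111505529536655)))) (b (l 143171841249361999) (c (l 143203589654954191) (l 143155417287147663)))) (b (l 143236162693710031) (a (a (l 143211698555650255) (l 143232658000724175)) (b (l 143261863784562895) (l 143265093601263823))))) (a (a (b (l 143297116883239119) (l 143303164199715023)) (l 143338692176740559)) (c (l 143408923497480399) (l 143378480763977935)))) (c (a (a (b (l 143073434939211919) (a (b (l 143055155555254415) (a (l 143047252814250127) (l 143072404148174991))) (a (l 143094944141164687) (l 143119408280240271)))) (b (l 143170535581073551) (a (l 143155417293963407) (l 143201871670591631)))) (a (a (l 143243103365333071) (l 143286534084542671)) (l 143348793944932559))) (a (a (b (l 143022445077807247) (b (l 143030072942198927) (a (a (b (l 142993308014608527) (c (l 143009044778107023) (l 142982793933029519))) (a (l 143014954654597263)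 (l 143028423674953871))) (a (a (l 143041755256340623) (l 143055018118234255)) (l 143074740612366479))))) (b (l 143127104863699087) (a (a (l 143098242678276239) (l 143123737609781391)) (l 143161189732941967)))) (a (a (l 143205513804775567) (l 143252517937561743)) (l 143319794320883791))))))), by decide +kernel⟩

def k36_pm_123_a : ∃ t, chk3 f_pm_123_a t 47 63 1 = true :=
  ⟨(b (a (c (c (l 143583333559271695) (l 143528357967773903)) (a (b (l 16698376) (l 143418681663029327)) (b (l 16707000) (l 16709376)))) (a (b (l 16717784) (a (l 16717920) (l 16721248))) (c (l 16726944) (l 16724128)))) (a (c (a (b (c (l 143564229543395599) (l 143507742123393231)) (c (l 143566566008422671) (l 143512415051448527))) (b (l 143583952039969039) (c (l 143608072582840591) (l 143563885952483599)))) (a (b (c (l 143454209641808079) (l 143403975696040143)) (c (l 143461700069310671) (c (l 143426034655297743) (l 143403563382997199)))) (b (c (l 143518737246290127) (l 143480391772750031)) (c (l 143523959930814671) (l 601198267825350983131343)))))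 (a (c (c (l 143646074462208271) (l 143610271609995535)) (b (c (l 16720472) (l 16719096)) (c (l 601800669403454739915983) (l 602092070289554862777551)))) (c (c (l 143679884454166799) (l 602037883075251782034703)) (c (l 602349460090500024034575) (a (l 602509716149335082624207) (l 602940044130753849320655))))))), by decide +kernel⟩

def k37_pm_123_a : ∃ t, chk3 f_pm_123_a t 3 2 1 = true :=
  ⟨(a (a (b (b (a (l 16740848) (a (l 16769152) (l 16771976))) (a (l 16759880) (l 16772152))) (a (b (l 16754248) (l 16739344)) (b (l 16775992) (l 16751048)))) (b (a (b (a (l 16773768) (l 16773744)) (l 16779712)) (b (a (b (a (l 16771952) (l 16773440)) (l 16773368)) (b (a (l 126399556471) (l 158611731895)) (l 16773592))) (a (l 16779208) (l 16774448)))) (a (b (l 16786128) (a (l 16788760) (l 16795680))) (b (a (l 16787432) (l 16780984)) (a (b (l 16792896) (l 16776072)) (l 16788544)))))) (a (a (b (b (a (b (l 4) (l 131231430455)) (l 4)) (a (b (l 16772912) (l 16771120)) (b (l 126936475591) (l 79154931063)))) (b (a (l 16773792) (a (l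 16768792) (l 16765696))) (a (l 16775560) (l 16767696)))) (b (a (b (l 4) (b (l 4) (l 133378914583))) (l 4)) (b (a (b (l 72712471127) (l 16741208)) (a (b (l 16764016) (l 16763840)) (b (l 4) (l 16762800)))) (a (l 16762328) (a (l 16740128) (l 16761616)))))) (a (b (l 4) (b (l 4) (a (a (b (l 16763936) (l 16763936)) (b (l 4) (l 16766296))) (a (b (l 4) (l 124788975207)) (l 4))))) (l 4)))), by decide +kernel⟩

def k38_pm_123_a : ∃ t, chk3 f_pm_123_a t 6 6 1 = true :=
  ⟨(a (b (a (l 16724280) (l 16726920)) (a (b (l 16714488) (b (l 16712552) (l 16714960))) (b (l 16767384) (a (l 16754336) (l 16777016))))) (b (a (l 16819872) (a (l 16763544) (b (l 16768208) (l 16797208)))) (a (b (l 16759040) (a (l 16795616) (l 16786976))) (a (b (l 16811184) (l 16775360)) (b (l 16784592) (l 16753536)))))), by decide +kernel⟩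

def k39_pm_123_a : ∃ t, chk3 f_pm_123_a t 12 14 1 = true :=
  ⟨(a (b (a (l 16684952) (l 16712856)) (a (l 16673592) (l 16720368))) (b (a (l 16757712) (l 16777688)) (a (l 16762856) (b (l 16778840) (l 16779824))))), by decide +kernel⟩

def k40_pm_123_a : ∃ t, chk3 f_pm_123_a t 24 15 1 = true :=
  ⟨(b (a (b (l 16702464) (a (c (l 16725936) (l 16720568)) (l 16735632))) (b (l 16726528) (b (l 16729776) (l 16732128)))) (b (a (a (c (l 16730968) (a (l 16725344) (l 16732672))) (c (l 16740504) (l 16763960))) (a (c (l 16748920) (l 16755472)) (b (l 16780504) (a (l 16759680) (l 16764056))))) (a (b (a (c (b (l 16733840) (l 16734976)) (a (l 16731504) (l 16738504))) (c (l 16743384) (a (l 16745144) (l 16751424)))) (a (c (c (a (l 602308531455151819023631) (l 16738560)) (a (l 602658443112902140699919) (l 16739472))) (a (c (l 603080700601594893804815) (l 602819852105817478210767)) (b (l 16741360) (l 603731092882299681412111)))) (c (a (b (l 16742704) (l 603705007847990243108175)) (a (l 16756736) (l 16758680))) (a (c (l 604482221242551049999375)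 (l 604450227670798217434127)) (b (l 16753976) (a (l 605584414200955210322959) (l 605940378715502580323343))))))) (b (a (a (a (l 16751712) (l 16754096)) (a (l 16777288) (l 16779584))) (c (a (l 16756656) (l 16760376)) (a (l 16768400) (l 16773912)))) (a (a (c (b (l 16750544) (b (l 16751184) (l 604793221818418756375567))) (b (l 16759712) (b (l 16760952) (a (l 16760360) (l 16763208))))) (c (b (l 16754272) (a (l 16754264) (l 16756280))) (b (l 16786320) (c (l 16763776) (a (l 16769160) (l 16772376)))))) (c (a (b (l 16758128) (a (l 16758376) (l 16781520))) (b (l 16762336) (c (l 16760776) (b (l 16766928) (l 16767888))))) (a (b (b (l 16770552) (l 16771560)) (c (b (l 16768840) (l 16769864)) (b (l 16776704) (a (l 16776264) (l 16779648))))) (b (b (l 16776512) (l 16798640)) (c (a (l 16773704) (l 16776688)) (b (l 16783440) (c (l 16782456) (a (l 16785464) (l 16789080))))))))))))), by decide +kernel⟩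

def k41_pm_123_a : ∃ t, chk3 f_pm_123_a t 25 30 1 = true :=
  ⟨(a (b (a (l 16762184) (l 16770136)) (a (b (l 16764600) (l 16766264)) (l 16753888))) (a (b (l 16778056) (c (l 16773944) (l 16791064))) (b (l 16785808) (c (l 16782112) (l 16802256))))), by decide +kernel⟩

def k42_pm_123_a : ∃ t, chk3 f_pm_123_a t 25 62 1 = true :=
  ⟨(a (a (b (c (l 16762328) (l 16775320)) (a (l 16768416) (l 16794088))) (c (a (l 16768800) (l 16773000)) (b (l 16785840) (l 16811200)))) (a (b (l 16770080) (c (l 16781664) (l 16823736))) (c (b (l 16787376) (l 16791808)) (b (l 16809896) (l 16836920))))), by decide +kernel⟩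

def k43_pm_123_a : ∃ t, chk3 f_pm_123_a t 50 63 1 = true :=
  ⟨(a (b (c (b (l 16765896) (l 16788408)) (a (l 16800752) (l 16806864))) (c (a (b (l 16766840) (b (l 16778696) (c (l 16765568) (l 16783624)))) (b (l 16771600) (a (c (l 16768544) (l 16776632)) (c (l 16770896) (l 16779392))))) (a (b (a (l 16781768) (l 16784968)) (c (a (l 16779720) (l 16793304)) (b (l 16790392) (a (a (l 16789232) (l 16791016)) (a (l 16792808) (l 16794616)))))) (b (a (l 16788216) (l 16791512)) (c (a (l 16796448) (b (l 16788432) (l 16789872))) (b (l 16808024) (a (a (l 16806920) (l 16808744)) (a (l 16810584) (l 16801944))))))))) (b (c (a (l 16773520) (l 16778400)) (b (l 16815040) (a (l 16793600) (l 16800232)))) (c (c (b (l 16785280) (a (a (l 16773312) (l 16775768)) (a (l 16778280) (l 16780840)))) (b (l 16794376) (a (a (l 16782200) (l 16785056)) (a (l 16787960) (l 16790896))))) (b (a (c (l 16791080) (l 16802328)) (c (l 16797496) (l 16809616))) (a (c (a (b (l 16791640) (l 16793136)) (l 16806144)) (b (l 16815336) (c (b (l 16803088) (l 16803952))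 (a (l 16807824) (l 16811688))))) (c (a (l 16798976) (l 16802320)) (b (l 16812288) (c (l 16810840) (a (l 16815568) (l 16819480)))))))))), by decide +kernel⟩

def k44_pm_123_a : ∃ t, chk3 f_pm_123_a t 51 63 1 = true :=
  ⟨(a (b (c (a (l 16783488) (l 16788752)) (a (b (l 16803872) (l 16807024)) (l 16833240))) (b (c (a (l 16787176) (l 16792712)) (a (c (l 16804064) (l 16817032)) (a (l 16815680) (l 16819248)))) (c (a (a (c (l 16783440) (l 16793872)) (c (l 16786072) (l 16796880))) (a (c (l 16788744) (l 16799920)) (c (l 16791448) (l 16802984)))) (c (a (a (l 16805696) (l 16809096)) (b (l 16813352) (l 16815144))) (a (b (l 16819840) (a (l 16819856) (l 16823696))) (a (l 16826552) (l 16830400))))))) (a (b (c (l 16794184) (l 16840184)) (c (b (l 16798376) (c (a (l 16794184) (l 16796944)) (l 16807632))) (b (a (l 16822840) (l 16826440)) (c (l 16821176) (a (l 16834264) (l 16838128)))))) (b (c (l 16799736) (l 16826240)) (c (b (l 16804192) (c (l 16801120) (l 16813872))) (b (l 16842400) (c (l 16828144) (l 16843928))))))), by decide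 +kernel⟩

def k45_pm_123_a : ∃ t, chk3 f_pm_123_a t 13 14 1 = true :=
  ⟨(a (a (b (b (l 16793832) (l 16792176)) (b (l 16792928) (a (l 16791376) (l 16799224)))) (b (b (l 16806832) (l 16807248)) (c (l 16779456) (b (l 16819992) (l 16826408))))) (b (a (b (l 16758616) (l 16781856)) (c (l 16757032) (l 16864160))) (a (a (b (l 16823312) (l 16829912)) (c (l 16823088) (l 16851680))) (c (b (l 16826624) (l 16831864)) (b (l 16832208) (l 16839208)))))), by decide +kernel⟩

def k46_pm_123_a : ∃ t, chk3 f_pm_123_a t 26 15 1 = true :=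
  ⟨(a (b (c (b (l 16789568) (a (l 16791208) (l 16801048))) (b (l 16811000) (c (l 16792984) (l 16806560)))) (b (c (a (b (l 16797504) (l 16802768)) (b (l 16808272) (l 16813576))) (a (b (l 16822920) (l 16808832)) (b (l 16836432) (l 16822304)))) (a (a (c (b (l 16805456) (b (l 16809944) (a (l 16811648) (l 16814424)))) (b (l 16833376) (b (l 16839064) (a (l 16841224) (l 16844672))))) (b (c (l 16811072) (l 16840360)) (c (c (l 16810264) (l 16824112)) (c (l 16839528) (l 16856520))))) (c (b (a (l 16816536) (l 16821632)) (c (b (l 16816120) (l 16818648)) (b (l 16830656) (l 16833504)))) (b (a (l 16847128) (l 16853424)) (c (b (l 16846792) (l 16850000)) (a (l 16863184) (l 16869408)))))))) (a (b (b (l 16815312) (c (l 16811520) (l 16840000))) (b (c (b (l 16818648) (l 16823784)) (b (l 16849320) (l 16855888))) (c (b (l 16828656) (c (l 16825808) (l 16841504))) (b (l 16862112) (c (l 16858872) (l 16877928)))))) (b (c (b (l 16813296) (l 16821440)) (b (l 16841432) (l 16852336))) (b (c (l 16830512) (l 16877184)) (c (b (l 16836864) (a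 (l 16839248) (l 16842728))) (c (l 16849632) (b (l 16882144) (l 16887760)))))))), by decide +kernel⟩

def k47_pm_123_a : ∃ t, chk3 f_pm_123_a t 27 15 1 = true :=
  ⟨(a (b (a (b (c (l 16823032) (l 16853544)) (c (l 16830728) (l 16863760))) (b (l 16762576) (b (l 16893576) (l 16918176)))) (c (b (a (l 16817360) (l 16843760)) (a (b (l 16843776) (a (l 16845904) (l 16848616))) (b (l 16848112) (l 16830168)))) (b (a (c (l 16864216) (l 16883560)) (l 16837120)) (c (a (c (l 16846888) (l 16856672)) (l 16876640)) (a (b (l 16891008) (l 16895640)) (l 16865304)))))) (b (a (c (l 16828328) (a (l 16828880) (l 16849336))) (b (l 16808568) (c (l 16841688) (l 16871936)))) (c (b (a (l 16825448) (l 16847304)) (a (b (l 16850544) (l 16832504)) (b (l 16851784) (l 16855248)))) (c (b (l 16828944) (a (l 16877880) (l 16877616))) (b (l 16888776) (a (l 16886552) (l 16895592))))))), by decide +kernel⟩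

def k48_pm_123_a : ∃ t, chk3 f_pm_123_a t 14 3 1 = true :=
  ⟨(b (a (b (a (b (l 16757688) (l 16784080)) (b (l 16771360) (l 16736072))) (a (b (l 16794976) (l 16789832)) (b (l 16791320) (l 16764520)))) (b (a (b (l 16769416) (l 16778264)) (b (l 16768496) (l 16777104))) (a (b (l 16767576) (l 16759664)) (b (l 16806256) (a (l 16797928) (l 16795024)))))) (a (c (b (b (a (l 16777248) (l 16774264)) (a (l 16787064) (l 16785088))) (b (a (b (l 16836376) (l 16842024)) (b (l 16834864) (l 16841856))) (a (b (a (l 16847928) (l 16848752)) (a (l 16857728) (b (l 16854448) (l 16858448)))) (b (a (l 16849472) (l 16850080)) (b (l 16792960) (b (l 16816744) (l 16797504))))))) (b (a (b (l 16838208) (l 16852048)) (b (l 16830816) (l 16845656))) (a (b (b (l 16861824) (l 16869008)) (b (l 16855832) (b (l 16883320) (l 16845944)))) (b (b (l 16856080) (l 16864728)) (b (l 16832760) (a (l 16863600) (l 16832840))))))) (b (a (b (l 16815608) (b (l 16832752) (l 16834016))) (b (c (l 16805840) (l 16811592)) (a (b (l 16822424) (l 16830928)) (b (l 16819520)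 (l 16827648))))) (b (a (b (c (l 16834136) (l 16851536)) (c (l 16841584) (l 16860712))) (b (l 16784960) (c (l 16837872) (l 16840008)))) (a (b (a (l 16818152) (l 16836840)) (a (c (l 16856584) (l 16819624)) (b (l 16819256) (l 16797536)))) (b (a (l 16808800) (l 16777064)) (b (a (l 16807784) (l 16797488)) (c (l 16848320) (a (l 16797528) (l 16809424)))))))))), by decide +kernel⟩

def k49_pm_123_a : ∃ t, chk3 f_pm_123_a t 15 6 1 = true :=
  ⟨(a (a (a (b (l 16771208) (b (l 16783528) (l 16770464))) (b (l 16768640) (b (l 16780248) (l 16789736)))) (b (a (b (l 16768240) (l 16769176)) (b (b (l 4) (l 92039829863)) (c (l 16770968) (l 16768824)))) (b (a (l 16777448) (l 16774528)) (a (l 16789168) (l 16787064))))) (a (b (a (b (l 4) (a (b (l 16768464) (l 16768880)) (b (l 4) (l 159685485111)))) (l 4)) (a (b (a (l 16772248) (c (l 16773584) (l 16772336))) (a (l 16783776) (l 16781408))) (b (a (c (l 228941948103) (l 178476074919)) (c (l 441005897351) (l 323431208119))) (a (l 16778976) (a (l 16776408) (a (l 16774592) (l 16794096)))))))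 (a (b (l 4) (a (b (l 4) (b (l 4) (a (l 16773496) (l 183307791447)))) (l 4))) (l 4)))), by decide +kernel⟩

def k50_pm_123_a : ∃ t, chk3 f_pm_123_a t 30 7 1 = true :=
  ⟨(b (b (a (a (l 16804720) (l 16802776)) (a (l 16800328) (b (l 16794408) (l 16799336)))) (a (b (l 16814688) (a (l 16824120) (l 16820248))) (a (a (l 16813760) (l 16810504)) (l 16803736)))) (b (b (a (a (l 16831432) (l 16822760)) (a (l 16814488) (a (l 16808320) (l 16804248)))) (a (c (l 16828728) (l 16774264)) (a (l 16792984) (c (l 16809112) (l 16803408))))) (b (a (a (c (l 16835872) (l 16823720)) (a (l 16781792) (l 16777616))) (a (a (l 16773568) (l 16769656)) (a (l 16776368) (l 16772720)))) (c (a (b (l 16810808) (l 16792744)) (a (b (l 16818072) (l 16818224)) (b (l 16809584) (b (l 16809648) (l 16788744))))) (a (a (c (l 16805208) (l 16789488)) (b (l 16794120) (l 16793512))) (a (b (l 16787040) (a (l 16809120) (l 16805720))) (b (l 16780496) (a (l 16802456) (b (l 16799464) (l 16799176)))))))))), by decide +kernel⟩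

def k51_pm_123_a : ∃ t, chk3 f_pm_123_a t 31 7 1 = true :=
  ⟨(a (b (b (a (a (l 16792760) (l 16787688)) (a (l 16783664) (l 16780664))) (a (a (l 16797056) (l 16792840)) (b (a (l 16788096) (l 16783704)) (l 16804528)))) (b (b (a (a (l 16800280) (l 16796456)) (a (l 16792872) (l 16789040))) (b (a (l 16799616) (a (l 16794232) (l 16790456))) (a (l 16799272) (a (l 16794200) (l 16791072))))) (b (b (a (l 16778120) (a (l 16794056) (l 16790824))) (a (c (l 16801496) (l 16795928)) (a (l 16772912) (l 16775008)))) (c (a (b (l 16780648) (a (l 16782688) (l 16784104))) (b (a (l 16796008) (l 16792456)) (b (a (l 16796136) (l 16792592)) (a (l 16785720) (b (l 16792640) (l 16782184)))))) (a (b (a (l 16796872) (l 16773016)) (a (b (l 16796472) (l 16796200)) (b (l 16793624) (c (l 16795136) (l 16791584))))) (b (a (l 16770264) (l 16778152)) (a (b (l 16790944) (a (l 16791392) (l 16790088))) (b (l 16777904) (a (l 16788816) (b (l 16787624) (l 16787520))))))))))) (b (a (b (b (a (l 16796744) (a (c (l 376581409735) (l 301956355015)) (l 4)))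 (a (l 16778880) (a (l 16776424) (c (l 16792248) (l 16794936))))) (a (b (l 16780376) (l 16803784)) (b (a (l 16778384) (l 16776896)) (l 6)))) (b (a (a (a (b (l 4) (l 201561408935)) (l 4)) (l 4)) (l 4)) (a (a (a (l 16786832) (l 6)) (l 6)) (l 6)))) (a (a (a (a (b (b (l 16786632) (l 16788416)) (a (b (l 16788992) (b (l 16767976) (b (l 16778416) (c (l 16790688) (l 16786800))))) (l 6))) (l 6)) (l 6)) (l 6)) (l 6)))), by decide +kernel⟩

theorem s52_pm_123_a : ∃ t, chk3 f_pm_123_a t 15 7 1 = true := ex3_a k50_pm_123_a k51_pm_123_a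

theorem s53_pm_123_a : ∃ t, chk3 f_pm_123_a t 15 3 1 = true := ex3_b k49_pm_123_a s52_pm_123_a

theorem s54_pm_123_a : ∃ t, chk3 f_pm_123_a t 7 3 1 = true := ex3_a k48_pm_123_a s53_pm_123_a

theorem s55_pm_123_a : ∃ t, chk3 f_pm_123_a t 13 15 1 = true := ex3_a k46_pm_123_a k47_pm_123_a

theorem s56_pm_123_a : ∃ t, chk3 f_pm_123_a t 13 7 1 = true := ex3_b k45_pm_123_a s55_pm_123_a

theorem s57_pm_123_a : ∃ t, chk3 f_pm_123_a t 25 63 1 = true := ex3_a k43_pm_123_a k44_pm_123_a

theorem s58_pm_123_a : ∃ t, chk3 f_pm_123_a t 25 31 1 = true := ex3_b k42_pm_123_a s57_pm_123_a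

theorem s59_pm_123_a : ∃ t, chk3 f_pm_123_a t 25 15 1 = true := ex3_b k41_pm_123_a s58_pm_123_a

theorem s60_pm_123_a : ∃ t, chk3 f_pm_123_a t 12 15 1 = true := ex3_a k40_pm_123_a s59_pm_123_a

theorem s61_pm_123_a : ∃ t, chk3 f_pm_123_a t 12 7 1 = true := ex3_b k39_pm_123_a s60_pm_123_a

theorem s62_pm_123_a : ∃ t, chk3 f_pm_123_a t 6 7 1 = true := ex3_a s61_pm_123_a s56_pm_123_a

theorem s63_pm_123_a : ∃ t, chk3 f_pm_123_a t 6 3 1 = true := ex3_b k38_pm_123_a s62_pm_123_a

theorem s64_pm_123_a : ∃ t, chk3 f_pm_123_a t 3 3 1 = true := ex3_a s63_pm_123_a s54_pm_123_a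

theorem s65_pm_123_a : ∃ t, chk3 f_pm_123_a t 3 1 1 = true := ex3_b k37_pm_123_a s64_pm_123_a

theorem s66_pm_123_a : ∃ t, chk3 f_pm_123_a t 46 63 1 = true := ex3_b k34_pm_123_a k35_pm_123_a

theorem s67_pm_123_a : ∃ t, chk3 f_pm_123_a t 23 63 1 = true := ex3_a s66_pm_123_a k36_pm_123_a

theorem s68_pm_123_a : ∃ t, chk3 f_pm_123_a t 23 31 1 = true := ex3_b k33_pm_123_a s67_pm_123_a

theorem s69_pm_123_a : ∃ t, chk3 f_pm_123_a t 23 15 1 = true := ex3_b k32_pm_123_a s68_pm_123_a

theorem s70_pm_123_a : ∃ t, chk3 f_pm_123_a t 23 7 1 = true := ex3_b k31_pm_123_a s69_pm_123_a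

theorem s71_pm_123_a : ∃ t, chk3 f_pm_123_a t 23 3 1 = true := ex3_b k30_pm_123_a s70_pm_123_a

theorem s72_pm_123_a : ∃ t, chk3 f_pm_123_a t 91 31 1 = true := ex3_a k28_pm_123_a k29_pm_123_a

theorem s73_pm_123_a : ∃ t, chk3 f_pm_123_a t 91 15 1 = true := ex3_b k27_pm_123_a s72_pm_123_a

theorem s74_pm_123_a : ∃ t, chk3 f_pm_123_a t 90 127 1 = true := ex3_c k25_pm_123_a k26_pm_123_a

theorem s75_pm_123_a : ∃ t, chk3 f_pm_123_a t 90 63 1 = true := ex3_b k24_pm_123_a s74_pm_123_a

theorem s76_pm_123_a : ∃ t, chk3 f_pm_123_a t 90 31 1 = true := ex3_b k23_pm_123_a s75_pm_123_a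

theorem s77_pm_123_a : ∃ t, chk3 f_pm_123_a t 90 15 1 = true := ex3_b k22_pm_123_a s76_pm_123_a

theorem s78_pm_123_a : ∃ t, chk3 f_pm_123_a t 45 15 1 = true := ex3_a s77_pm_123_a s73_pm_123_a

theorem s79_pm_123_a : ∃ t, chk3 f_pm_123_a t 88 15 1 = true := ex3_c k19_pm_123_a k20_pm_123_a

theorem s80_pm_123_a : ∃ t, chk3 f_pm_123_a t 44 15 1 = true := ex3_a s79_pm_123_a k21_pm_123_a

theorem s81_pm_123_a : ∃ t, chk3 f_pm_123_a t 22 15 1 = true := ex3_a s80_pm_123_a s78_pm_123_a

theorem s82_pm_123_a : ∃ t, chk3 f_pm_123_a t 22 7 1 = true := ex3_b k18_pm_123_a s81_pm_123_a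

theorem s83_pm_123_a : ∃ t, chk3 f_pm_123_a t 22 3 1 = true := ex3_b k17_pm_123_a s82_pm_123_a

theorem s84_pm_123_a : ∃ t, chk3 f_pm_123_a t 11 3 1 = true := ex3_a s83_pm_123_a s71_pm_123_a

theorem s85_pm_123_a : ∃ t, chk3 f_pm_123_a t 11 1 1 = true := ex3_b k16_pm_123_a s84_pm_123_a

theorem s86_pm_123_a : ∃ t, chk3 f_pm_123_a t 21 63 1 = true := ex3_a k14_pm_123_a k15_pm_123_a

theorem s87_pm_123_a : ∃ t, chk3 f_pm_123_a t 21 31 1 = true := ex3_b k13_pm_123_a s86_pm_123_a

theorem s88_pm_123_a : ∃ t, chk3 f_pm_123_a t 21 15 1 = true := ex3_b k12_pm_123_a s87_pm_123_a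

theorem s89_pm_123_a : ∃ t, chk3 f_pm_123_a t 21 7 1 = true := ex3_b k11_pm_123_a s88_pm_123_a

theorem s90_pm_123_a : ∃ t, chk3 f_pm_123_a t 40 15 1 = true := ex3_a k8_pm_123_a k9_pm_123_a

theorem s91_pm_123_a : ∃ t, chk3 f_pm_123_a t 40 7 1 = true := ex3_b k7_pm_123_a s90_pm_123_a

theorem s92_pm_123_a : ∃ t, chk3 f_pm_123_a t 20 7 1 = true := ex3_a s91_pm_123_a k10_pm_123_a

theorem s93_pm_123_a : ∃ t, chk3 f_pm_123_a t 10 7 1 = true := ex3_a s92_pm_123_a s89_pm_123_a

theorem s94_pm_123_a : ∃ t, chk3 f_pm_123_a t 10 3 1 = true := ex3_b k6_pm_123_a s93_pm_123_a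

theorem s95_pm_123_a : ∃ t, chk3 f_pm_123_a t 10 1 1 = true := ex3_b k5_pm_123_a s94_pm_123_a

theorem s96_pm_123_a : ∃ t, chk3 f_pm_123_a t 5 1 1 = true := ex3_a s95_pm_123_a s85_pm_123_a

theorem s97_pm_123_a : ∃ t, chk3 f_pm_123_a t 9 7 1 = true := ex3_b k3_pm_123_a k4_pm_123_a

theorem s98_pm_123_a : ∃ t, chk3 f_pm_123_a t 4 7 1 = true := ex3_a k2_pm_123_a s97_pm_123_a

theorem s99_pm_123_a : ∃ t, chk3 f_pm_123_a t 4 3 1 = true := ex3_b k1_pm_123_a s98_pm_123_a

theorem s100_pm_123_a : ∃ t, chk3 f_pm_123_a t 4 1 1 = true := ex3_b k0_pm_123_a s99_pm_123_a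

theorem s101_pm_123_a : ∃ t, chk3 f_pm_123_a t 2 1 1 = true := ex3_a s100_pm_123_a s96_pm_123_a

theorem s102_pm_123_a : ∃ t, chk3 f_pm_123_a t 1 1 1 = true := ex3_a s101_pm_123_a s65_pm_123_a

theorem c_pm_123_a : CertB 536870912 536870912 0 536870912 697932185 42949674 3 eng mog cd0q1 cd2q2a pd3 true true false .npn 1 2 3
    ndB0q1 ndB2q2a pcB3 cut_pm_123_a xt_pm_123_a :=
  certB2 (fam := true) (s1 := true) (s2 := false) (a := 1) (b := 2) (c := 3) (cn := .npn) (n1 := ndB0q1) (n2 := ndB2q2a) (pc := pcB3) (cut := cut_pm_123_a) (xt := xt_pm_123_a) (P1 := 536870912) (W1 := 536870912) (P2 := 0) (W2 := 536870912) (P3 := 697932185) (W3 := 42949674) (N0 := 3) (En := eng) (mo := mog) (C1 := cd0q1) (C2 := cd2q2a) (C3 := pd3)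
    rfl (fun _ => rfl) s102_pm_123_a

noncomputable def cut_pm_123_b : Cut := Cut.of [[⟨0, 1, 0, 67108864⟩, ⟨1, 1, 0, 67108864⟩, ⟨2, 2, 0, 16777216⟩], [⟨0, 0, 1, 20971520⟩, ⟨1, 1, 0, 33554432⟩, ⟨2, 1, 1, 20971520⟩]]

noncomputable def f_pm_123_b : ℕ → ℕ → ℕ → ℕ → Bool := onCell 1610612736 536870912 1239849684 370763052 697932185 42949674
    (rowB 3 eng mog cd0q1 cd2q2b pd3 2 true true false .npn 1 2 3 (qsf 536870912 536870912 1239849684 370763052 3) ndB0q1 ndB2q2b pcB3 cut_pm_123_b Ext.none)

def k0_pm_123_b : ∃ t, chk3 f_pm_123_b t 1 1 1 = true :=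
  ⟨(a (b (a (l 1) (b (b (a (a (b (l 16646280) (l 1)) (b (l 16682608) (l 16646928))) (a (b (l 16712152) (l 16685528)) (b (l 16735768) (l 16713352)))) (a (l 1) (a (l 16663744) (l 16686816)))) (a (l 1) (b (l 16747880) (l 1))))) (l 1)) (a (a (b (b (b (a (b (l 16751400) (l 16730424)) (b (a (l 16757240) (l 16738320)) (l 16720256))) (a (l 16671096) (l 16736368))) (a (b (l 16703360) (l 1)) (b (l 16700496) (l 16699920)))) (l 1)) (b (b (a (b (b (a (l 16760320) (l 16766048)) (l 16776440)) (a (l 16720488) (l 16762176))) (b (a (b (a (l 16766768) (l 16765904)) (l 16754768)) (l 4)) (l 4))) (a (b (l 16768216) (l 4)) (l 4))) (l 4))) (b (l 4) (l 4)))), by decide +kernel⟩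

theorem c_pm_123_b : CertB 536870912 536870912 1239849684 370763052 697932185 42949674 3 eng mog cd0q1 cd2q2b pd3 true true false .npn 1 2 3
    ndB0q1 ndB2q2b pcB3 cut_pm_123_b Ext.none :=
  certB2 (fam := true) (s1 := true) (s2 := false) (a := 1) (b := 2) (c := 3) (cn := .npn) (n1 := ndB0q1) (n2 := ndB2q2b) (pc := pcB3) (cut := cut_pm_123_b) (xt := Ext.none) (P1 := 536870912) (W1 := 536870912) (P2 := 1239849684) (W2 := 370763052) (P3 := 697932185) (W3 := 42949674) (N0 := 3) (En := eng) (mo := mog) (C1 := cd0q1) (C2 := cd2q2b) (C3 := pd3)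
    rfl (fun _ => rfl) k0_pm_123_b

noncomputable def f_pm_133 : ℕ → ℕ → ℕ → ℕ → Bool := onCell 536870912 536870912 1610612736 536870912 697932185 42949674
    (rowB 3 eng mog cd0q1 cd2q3 pd3 0 true true false .dn 1 3 3 (qsf 536870912 536870912 1610612736 536870912 3) ndB0q1 ndB2q3 pcB3 Cut.none Ext.none)

def k0_pm_133 : ∃ t, chk3 f_pm_133 t 1 1 1 = true :=
  ⟨(l 4), by decide +kernel⟩

theorem c_pm_133 : CertB 536870912 536870912 1610612736 536870912 697932185 42949674 3 eng mog cd0q1 cd2q3 pd3 true true false .dn 1 3 3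
    ndB0q1 ndB2q3 pcB3 Cut.none Ext.none :=
  certB0 (fam := true) (s1 := true) (s2 := false) (a := 1) (b := 3) (c := 3) (cn := .dn) (n1 := ndB0q1) (n2 := ndB2q3) (pc := pcB3) (cut := Cut.none) (xt := Ext.none) (P1 := 536870912) (W1 := 536870912) (P2 := 1610612736) (W2 := 536870912) (P3 := 697932185) (W3 := 42949674) (N0 := 3) (En := eng) (mo := mog) (C1 := cd0q1) (C2 := cd2q3) (C3 := pd3)
    rfl k0_pm_133

noncomputable def cut_pm_202 : Cut := Cut.of [[⟨0, 1, 0, 67108864⟩, ⟨1, 0, 0, 67108864⟩, ⟨2, 1, 0, 67108864⟩]]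

noncomputable def f_pm_202 : ℕ → ℕ → ℕ → ℕ → Bool := onCell 0 536870912 1073741824 536870912 697932185 42949674
    (rowB 3 eng mog cd0q2 cd2q0 pd2 1 true true false .pp 2 0 2 (qsf 0 536870912 0 536870912 2) ndB0q2 ndB2q0 pcB2 cut_pm_202 Ext.none)

def k0_pm_202 : ∃ t, chk3 f_pm_202 t 4 2 1 = true :=
  ⟨(b (l 1) (b (b (b (l 1) (a (a (l 16447840) (l 16449232)) (a (l 16454360) (a (l 16460848) (l 16466376))))) (a (b (a (b (l 16448856) (c (l 16444016) (l 16447232))) (b (l 16452776) (c (l 16447136) (l 16451520)))) (a (c (l 16448952) (l 16451896)) (c (l 16451872) (l 16455904)))) (b (a (c (b (l 16455032) (l 16451632)) (l 16459352)) (b (l 16385104) (c (b (l 16457400) (l 16456008)) (l 16462960)))) (c (a (l 16456152) (l 16482000)) (a (l 16461136) (l 16466816)))))) (a (b (a (b (l 16458864) (l 16466560)) (a (l 16506704) (l 16519056))) (a (b (l 16494968) (l 16480432)) (c (l 16477080) (l 16473784)))) (a (b (b (l 16466312) (l 16473248)) (l 16476728)) (b (b (a (l 16469816) (l 16472504)) (l 16477776)) (l 16500640)))))), by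 decide +kernel⟩

def k1_pm_202 : ∃ t, chk3 f_pm_202 t 5 2 1 = true :=
  ⟨(b (b (l 1) (a (l 1) (b (l 1) (b (l 1) (a (l 1) (b (l 1) (a (l 84321599399) (l 16425640)))))))) (a (a (b (b (b (l 16440072) (c (l 16411360) (l 16470512))) (b (b (l 16386720) (c (b (l 16463792) (l 16462256)) (l 16469856))) (c (l 16488136) (l 16473464)))) (b (b (a (l 16475584) (l 16479008)) (l 16483488)) (l 16505984))) (b (b (b (c (l 16482904) (l 16469872)) (c (l 16483096) (l 16485112))) (b (b (l 16395192) (c (b (l 16471904) (l 16470216)) (l 16478224))) (c (l 16475032) (l 16481592)))) (b (b (c (l 16482392) (l 16488632)) (l 16490848)) (l 16534432)))) (b (b (b (a (a (l 24192001543) (l 16415656)) (a (b (l 16507248) (l 16514008)) (l 16437112))) (a (c (l 16430696) (l 16501680)) (a (l 16504976) (b (l 16512464) (b (l 16506528) (b (l 16503768) (l 16502112))))))) (c (b (a (b (l 16485440) (a (l 16478232) (l 16483104))) (b (l 16493128) (l 16488024))) (a (l 16505560) (l 16491688))) (a (b (b (l 16494136) (l 16488240)) (l 16491368)) (b (b (l 16501448)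 (l 16495120)) (l 16498032))))) (a (b (b (c (l 16470784) (l 16498112)) (l 16499912)) (a (l 16499248) (l 16504416))) (b (b (c (l 16498720) (l 16504536)) (l 16506320)) (l 16599360)))))), by decide +kernel⟩

def k2_pm_202 : ∃ t, chk3 f_pm_202 t 2 3 1 = true :=
  ⟨(b (a (b (a (b (a (l 16487376) (c (l 16529072) (l 16482208))) (a (l 16498296) (l 16495312))) (b (a (l 16484184) (l 16485104)) (a (b (l 16491576) (l 16496864)) (l 16493648)))) (a (b (b (l 16508960) (l 16521040)) (l 16539120)) (b (a (b (l 16505840) (l 16516776)) (b (l 16505696) (l 16515800))) (a (l 16532992) (l 16530416))))) (b (a (b (a (l 16488144) (l 16493224)) (a (l 16495184) (l 16499136))) (b (a (l 16500208) (l 16549832)) (a (b (l 16502208) (l 16508552)) (l 16512200)))) (a (b (b (l 16529984) (l 16538472)) (a (l 16529152) (l 16529728))) (b (a (b (l 16516064) (l 16522712)) (l 16564480)) (a (l 16532064) (l 16531296)))))) (a (b (b (a (l 16564152) (l 16553704)) (l 16622992)) (b (l 16605256) (l 16624336))) (b (a (b (l 16567248) (l 16563848)) (a (l 16551032)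 (l 16545720))) (a (b (l 16581456) (l 16596264)) (a (l 16575568) (l 16567304)))))), by decide +kernel⟩

def k3_pm_202 : ∃ t, chk3 f_pm_202 t 3 4 1 = true :=
  ⟨(b (a (l 1) (a (b (l 1) (a (b (l 1) (b (l 1) (a (l 1) (b (l 16629728) (l 16630400))))) (b (l 6) (b (l 6) (a (a (l 16644176) (l 16653528)) (l 16667472)))))) (b (l 6) (b (l 6) (b (l 6) (a (a (l 16684464) (l 16685752)) (a (l 16686408) (l 16685928)))))))) (a (a (b (l 1) (b (a (a (l 1) (l 126734616039)) (b (a (l 1) (l 16555640)) (a (l 16531976) (c (l 16551256) (l 16539104))))) (b (c (a (a (l 16519856) (l 16531768)) (l 16550072)) (a (l 16532856) (l 16559256))) (a (a (l 16457600) (l 16532160)) (l 16529080))))) (b (a (b (l 1) (b (a (l 1) (l 134787748343)) (a (l 149820112007) (l 251288747655)))) (b (b (l 1) (a (l 138545874135) (l 209949737159))) (b (a (l 227129582903) (c (l 16603408) (l 16594840))) (a (b (l 16583736) (l 16564456)) (l 16601904))))) (b (a (a (b (l 254509955879) (l 16497000)) (b (b (l 16570152) (l 16530256)) (l 16575136))) (a (l 16505504) (l 16605304)))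 (a (c (l 16574336) (l 16484888)) (l 16553536))))) (a (a (b (b (a (b (l 198675478295) (l 16635872)) (b (l 16652312) (l 16632496))) (a (b (l 16616768) (l 16618424)) (l 16633872))) (b (l 16612192) (l 16591024))) (b (b (a (b (l 16649320) (l 16649608)) (l 16664776)) (l 16661400)) (b (l 16618120) (l 16596904)))) (b (a (b (a (l 16666656) (l 16667976)) (a (l 16643488) (l 16644848))) (a (b (l 16668688) (l 16645608)) (b (l 16668264) (l 16645272)))) (a (b (l 16642960) (l 16600808)) (b (l 16665400) (l 16623344))))))), by decide +kernel⟩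

def k4_pm_202 : ∃ t, chk3 f_pm_202 t 3 5 1 = true :=
  ⟨(a (b (b (a (b (a (b (l 16532872) (l 16531296)) (c (l 16544216) (l 16552456))) (a (b (l 16522320) (b (l 16515824) (c (l 16529272) (l 16516472)))) (b (l 16534720) (b (l 16528256) (c (l 16521624) (l 16528432)))))) (b (a (l 16558856) (c (l 16563272) (l 16567976))) (b (a (l 16545080) (l 16551392)) (a (b (l 16538656) (b (l 16535728) (l 16534064))) (b (l 16544992) (l 16583768)))))) (a (b (a (c (a (l 16516440) (l 16501704)) (a (l 16502400) (l 16508056))) (c (l 16511872) (l 16517296))) (a (a (l 16496888) (l 16500192)) (l 16508896))) (b (a (l 16545512) (l 16530992)) (a (l 16518072) (l 16523160))))) (a (b (a (b (a (l 16503224) (l 16504552)) (l 16509008)) (b (l 16510720) (l 16512216))) (a (l 16513712) (l 16514704))) (b (a (l 16517760) (l 16519904)) (a (l 16516112) (l 16514200))))) (b (b (a (b (a (l 16571184) (l 16577064)) (b (a (l 16557304) (l 16563216)) (b (l 16575184) (a (l 16569096) (l 16575416))))) (b (a (l 16581016) (l 16582704)) (b (a (l 16567256) (l 16569064))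 (a (b (l 16561112) (l 16642792)) (b (l 16563032) (b (l 16560712) (l 16559920))))))) (a (a (b (l 16537160) (l 16528000)) (b (l 16543400) (l 16532944))) (a (b (l 16547800) (l 16535816)) (b (a (l 16549704) (l 16548800)) (l 16533400))))) (a (a (b (l 16521768) (l 16511104)) (b (l 16522808) (l 16506584))) (a (b (l 16520056) (l 16498792)) (b (l 16512384) (l 16487528)))))), by decide +kernel⟩

def k5_pm_202 : ∃ t, chk3 f_pm_202 t 3 3 1 = true :=
  ⟨(a (b (b (a (b (a (l 16515744) (l 16515336)) (a (l 16517232) (l 16515528))) (a (b (l 16512816) (l 16510920)) (l 16545888))) (a (b (a (l 16521232) (l 16517192)) (l 16526224)) (b (a (l 16510192) (l 16497920)) (l 16504312)))) (a (b (l 16535992) (l 16552552)) (b (l 16507144) (l 16516480)))) (b (b (a (b (l 16496128) (l 16485696)) (a (l 16472976) (b (l 16466624) (l 16449384)))) (a (b (l 16478064) (l 16473064)) (a (l 16450360) (l 16430880)))) (a (b (l 16512056) (l 16473240)) (b (l 16430152) (l 16431128))))), by decide +kernel⟩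

theorem s6_pm_202 : ∃ t, chk3 f_pm_202 t 3 2 1 = true := ex3_b k3_pm_202 k4_pm_202

theorem s7_pm_202 : ∃ t, chk3 f_pm_202 t 3 1 1 = true := ex3_b s6_pm_202 k5_pm_202

theorem s8_pm_202 : ∃ t, chk3 f_pm_202 t 2 2 1 = true := ex3_a k0_pm_202 k1_pm_202

theorem s9_pm_202 : ∃ t, chk3 f_pm_202 t 2 1 1 = true := ex3_b s8_pm_202 k2_pm_202

theorem s10_pm_202 : ∃ t, chk3 f_pm_202 t 1 1 1 = true := ex3_a s9_pm_202 s7_pm_202

theorem c_pm_202 : CertB 0 536870912 0 536870912 697932185 42949674 3 eng mog cd0q2 cd2q0 pd2 true true false .pp 2 0 2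
    ndB0q2 ndB2q0 pcB2 cut_pm_202 Ext.none :=
  certB1 (fam := true) (s1 := true) (s2 := false) (a := 2) (b := 0) (c := 2) (cn := .pp) (n1 := ndB0q2) (n2 := ndB2q0) (pc := pcB2) (cut := cut_pm_202) (xt := Ext.none) (P1 := 0) (W1 := 536870912) (P2 := 0) (W2 := 536870912) (P3 := 697932185) (W3 := 42949674) (N0 := 3) (En := eng) (mo := mog) (C1 := cd0q2) (C2 := cd2q0) (C3 := pd2)
    rfl (fun _ => rfl) s10_pm_202

noncomputable def f_pm_203 : ℕ → ℕ → ℕ → ℕ → Bool := onCell 0 536870912 1610612736 536870912 697932185 42949674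
    (rowB 3 eng mog cd0q2 cd2q0 pd3 1 true true false .up 2 0 3 (qsf 0 536870912 0 536870912 3) ndB0q2 ndB2q0 pcB3 Cut.none Ext.none)

def k0_pm_203 : ∃ t, chk3 f_pm_203 t 1 1 1 = true :=
  ⟨(b (a (b (a (b (b (l 16657648) (l 16694472)) (b (l 16721584) (l 16740704))) (b (a (l 16640544) (b (l 16597944) (l 16635880))) (a (l 16704904) (l 16684992)))) (b (b (a (l 16752144) (l 16731848)) (a (l 16745568) (l 2))) (l 2))) (a (b (b (a (l 16588608) (l 16540096)) (a (l 16657672) (l 16619648))) (l 2)) (b (b (a (l 16487560) (l 16444848)) (a (l 16586568) (l 2))) (l 2)))) (l 2)), by decide +kernel⟩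

theorem c_pm_203 : CertB 0 536870912 0 536870912 697932185 42949674 3 eng mog cd0q2 cd2q0 pd3 true true false .up 2 0 3
    ndB0q2 ndB2q0 pcB3 Cut.none Ext.none :=
  certB1 (fam := true) (s1 := true) (s2 := false) (a := 2) (b := 0) (c := 3) (cn := .up) (n1 := ndB0q2) (n2 := ndB2q0) (pc := pcB3) (cut := Cut.none) (xt := Ext.none) (P1 := 0) (W1 := 536870912) (P2 := 0) (W2 := 536870912) (P3 := 697932185) (W3 := 42949674) (N0 := 3) (En := eng) (mo := mog) (C1 := cd0q2) (C2 := cd2q0) (C3 := pd3)
    rfl (fun _ => rfl) k0_pm_203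

noncomputable def f_pm_213 : ℕ → ℕ → ℕ → ℕ → Bool := onCell 0 536870912 1610612736 536870912 697932185 42949674
    (rowB 3 eng mog cd0q2 cd2q1 pd3 1 true true false .pnn 2 1 3 (qsf 0 536870912 536870912 536870912 3) ndB0q2 ndB2q1 pcB3 Cut.none Ext.none)

def k0_pm_213 : ∃ t, chk3 f_pm_213 t 1 1 1 = true :=
  ⟨(b (b (a (a (l 1) (b (l 1) (a (l 1) (l 16705400)))) (a (b (l 1) (a (l 16679584) (l 16641872))) (b (a (l 16516744) (l 16468240)) (a (l 16612080) (l 16605888))))) (a (a (b (a (l 16791768) (l 16858920)) (b (l 16681312) (l 4))) (b (a (l 16749528) (l 16749056)) (a (l 16728208) (l 16766424)))) (a (a (b (l 16911784) (l 16825024)) (b (b (l 16710448) (l 16768192)) (b (l 16835568) (l 16907168)))) (a (b (b (l 16715496) (l 16807552)) (b (b (l 16884576) (l 16922904)) (l 16985448))) (b (b (b (l 16748112) (l 16781296)) (b (l 16869816) (l 16976144))) (b (b (b (l 17032968) (l 16989008)) (b (l 16948144) (l 16942856))) (l 16975584))))))) (a (b (a (l 4) (b (a (l 80228811687) (l 16750568)) (l 4))) (l 4)) (a (b (b (a (l 16753192)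 (l 16830040)) (b (a (l 16710568) (l 16773672)) (a (l 16578960) (l 16722552)))) (b (b (a (l 4) (b (l 16719216) (l 16699776))) (l 4)) (l 4))) (b (b (a (l 17050152) (a (l 16954008) (l 16971152))) (b (a (l 16830416) (l 16866296)) (a (l 16795880) (b (l 16768744) (l 16794424))))) (b (b (a (b (l 16773792) (l 16757456)) (b (l 16801280) (l 16788544))) (a (b (l 16740320) (l 16723800)) (l 16850592))) (a (l 4) (b (a (l 16711920) (l 16737416)) (l 4)))))))), by decide +kernel⟩

theorem c_pm_213 : CertB 0 536870912 536870912 536870912 697932185 42949674 3 eng mog cd0q2 cd2q1 pd3 true true false .pnn 2 1 3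
    ndB0q2 ndB2q1 pcB3 Cut.none Ext.none :=
  certB1 (fam := true) (s1 := true) (s2 := false) (a := 2) (b := 1) (c := 3) (cn := .pnn) (n1 := ndB0q2) (n2 := ndB2q1) (pc := pcB3) (cut := Cut.none) (xt := Ext.none) (P1 := 0) (W1 := 536870912) (P2 := 536870912) (W2 := 536870912) (P3 := 697932185) (W3 := 42949674) (N0 := 3) (En := eng) (mo := mog) (C1 := cd0q2) (C2 := cd2q1) (C3 := pd3)
    rfl (fun _ => rfl) k0_pm_213

noncomputable def f_mm_001 : ℕ → ℕ → ℕ → ℕ → Bool := onCell 0 536870912 0 536870912 697932185 42949674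
    (rowB 3 eng mog cd0q0 cd2q0 pd1 0 true false false .up 0 0 1 (qsf 0 536870912 0 536870912 1) ndB0q0 ndB2q0 pcB1 Cut.none Ext.none)

def k0_mm_001 : ∃ t, chk3 f_mm_001 t 1 1 1 = true :=
  ⟨(l 4), by decide +kernel⟩

theorem c_mm_001 : CertB 0 536870912 0 536870912 697932185 42949674 3 eng mog cd0q0 cd2q0 pd1 true false false .up 0 0 1
    ndB0q0 ndB2q0 pcB1 Cut.none Ext.none :=
  certB0 (fam := true) (s1 := false) (s2 := false) (a := 0) (b := 0) (c := 1) (cn := .up) (n1 := ndB0q0) (n2 := ndB2q0) (pc := pcB1) (cut := Cut.none) (xt := Ext.none) (P1 := 0) (W1 := 536870912) (P2 := 0) (W2 := 536870912) (P3 := 697932185) (W3 := 42949674) (N0 := 3) (En := eng) (mo := mog) (C1 := cd0q0) (C2 := cd2q0) (C3 := pd1)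
    rfl k0_mm_001

noncomputable def f_mm_011 : ℕ → ℕ → ℕ → ℕ → Bool := onCell 0 536870912 536870912 536870912 697932185 42949674
    (rowB 3 eng mog cd0q0 cd2q1 pd1 0 true false false .pnn 0 1 1 (qsf 0 536870912 536870912 536870912 1) ndB0q0 ndB2q1 pcB1 Cut.none Ext.none)

def k0_mm_011 : ∃ t, chk3 f_mm_011 t 1 1 1 = true :=
  ⟨(l 4), by decide +kernel⟩

theorem c_mm_011 : CertB 0 536870912 536870912 536870912 697932185 42949674 3 eng mog cd0q0 cd2q1 pd1 true false false .pnn 0 1 1
    ndB0q0 ndB2q1 pcB1 Cut.none Ext.none :=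
  certB0 (fam := true) (s1 := false) (s2 := false) (a := 0) (b := 1) (c := 1) (cn := .pnn) (n1 := ndB0q0) (n2 := ndB2q1) (pc := pcB1) (cut := Cut.none) (xt := Ext.none) (P1 := 0) (W1 := 536870912) (P2 := 536870912) (W2 := 536870912) (P3 := 697932185) (W3 := 42949674) (N0 := 3) (En := eng) (mo := mog) (C1 := cd0q0) (C2 := cd2q1) (C3 := pd1)
    rfl k0_mm_011

noncomputable def f_mm_012 : ℕ → ℕ → ℕ → ℕ → Bool := onCell 0 536870912 536870912 536870912 697932185 42949674
    (rowB 3 eng mog cd0q0 cd2q1 pd2 0 true false false .pnp 0 1 2 (qsf 0 536870912 536870912 536870912 2) ndB0q0 ndB2q1 pcB2 Cut.none Ext.none)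

def k0_mm_012 : ∃ t, chk3 f_mm_012 t 1 1 1 = true :=
  ⟨(l 4), by decide +kernel⟩

theorem c_mm_012 : CertB 0 536870912 536870912 536870912 697932185 42949674 3 eng mog cd0q0 cd2q1 pd2 true false false .pnp 0 1 2
    ndB0q0 ndB2q1 pcB2 Cut.none Ext.none :=
  certB0 (fam := true) (s1 := false) (s2 := false) (a := 0) (b := 1) (c := 2) (cn := .pnp) (n1 := ndB0q0) (n2 := ndB2q1) (pc := pcB2) (cut := Cut.none) (xt := Ext.none) (P1 := 0) (W1 := 536870912) (P2 := 536870912) (W2 := 536870912) (P3 := 697932185) (W3 := 42949674) (N0 := 3) (En := eng) (mo := mog) (C1 := cd0q0) (C2 := cd2q1) (C3 := pd2)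
    rfl k0_mm_012

noncomputable def f_mm_022_a : ℕ → ℕ → ℕ → ℕ → Bool := onCell 0 536870912 0 536870912 697932185 42949674
    (rowB 3 eng mog cd0q0 cd2q2a pd2 0 true false false .pp 0 2 2 (qsf 0 536870912 0 536870912 2) ndB0q0 ndB2q2a pcB2 Cut.none Ext.none)

def k0_mm_022_a : ∃ t, chk3 f_mm_022_a t 1 1 1 = true :=
  ⟨(l 5), by decide +kernel⟩

theorem c_mm_022_a : CertB 0 536870912 0 536870912 697932185 42949674 3 eng mog cd0q0 cd2q2a pd2 true false false .pp 0 2 2
    ndB0q0 ndB2q2a pcB2 Cut.none Ext.none :=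
  certB0 (fam := true) (s1 := false) (s2 := false) (a := 0) (b := 2) (c := 2) (cn := .pp) (n1 := ndB0q0) (n2 := ndB2q2a) (pc := pcB2) (cut := Cut.none) (xt := Ext.none) (P1 := 0) (W1 := 536870912) (P2 := 0) (W2 := 536870912) (P3 := 697932185) (W3 := 42949674) (N0 := 3) (En := eng) (mo := mog) (C1 := cd0q0) (C2 := cd2q2a) (C3 := pd2)
    rfl k0_mm_022_a

noncomputable def f_mm_022_b : ℕ → ℕ → ℕ → ℕ → Bool := onCell 0 536870912 1239849684 370763052 697932185 42949674
    (rowB 3 eng mog cd0q0 cd2q2b pd2 0 true false false .pp 0 2 2 (qsf 0 536870912 1239849684 370763052 2) ndB0q0 ndB2q2b pcB2 Cut.none Ext.none)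

def k0_mm_022_b : ∃ t, chk3 f_mm_022_b t 1 1 1 = true :=
  ⟨(l 5), by decide +kernel⟩

theorem c_mm_022_b : CertB 0 536870912 1239849684 370763052 697932185 42949674 3 eng mog cd0q0 cd2q2b pd2 true false false .pp 0 2 2
    ndB0q0 ndB2q2b pcB2 Cut.none Ext.none :=
  certB0 (fam := true) (s1 := false) (s2 := false) (a := 0) (b := 2) (c := 2) (cn := .pp) (n1 := ndB0q0) (n2 := ndB2q2b) (pc := pcB2) (cut := Cut.none) (xt := Ext.none) (P1 := 0) (W1 := 536870912) (P2 := 1239849684) (W2 := 370763052) (P3 := 697932185) (W3 := 42949674) (N0 := 3) (En := eng) (mo := mog) (C1 := cd0q0) (C2 := cd2q2b) (C3 := pd2)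
    rfl k0_mm_022_b

noncomputable def f_mm_023_a : ℕ → ℕ → ℕ → ℕ → Bool := onCell 0 536870912 0 536870912 697932185 42949674
    (rowB 3 eng mog cd0q0 cd2q2a pd3 0 true false false .up 0 2 3 (qsf 0 536870912 0 536870912 3) ndB0q0 ndB2q2a pcB3 Cut.none Ext.none)

def k0_mm_023_a : ∃ t, chk3 f_mm_023_a t 1 1 1 = true :=
  ⟨(l 5), by decide +kernel⟩

theorem c_mm_023_a : CertB 0 536870912 0 536870912 697932185 42949674 3 eng mog cd0q0 cd2q2a pd3 true false false .up 0 2 3
    ndB0q0 ndB2q2a pcB3 Cut.none Ext.none :=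
  certB0 (fam := true) (s1 := false) (s2 := false) (a := 0) (b := 2) (c := 3) (cn := .up) (n1 := ndB0q0) (n2 := ndB2q2a) (pc := pcB3) (cut := Cut.none) (xt := Ext.none) (P1 := 0) (W1 := 536870912) (P2 := 0) (W2 := 536870912) (P3 := 697932185) (W3 := 42949674) (N0 := 3) (En := eng) (mo := mog) (C1 := cd0q0) (C2 := cd2q2a) (C3 := pd3)
    rfl k0_mm_023_a

noncomputable def f_mm_023_b : ℕ → ℕ → ℕ → ℕ → Bool := onCell 0 536870912 1239849684 370763052 697932185 42949674
    (rowB 3 eng mog cd0q0 cd2q2b pd3 0 true false false .up 0 2 3 (qsf 0 536870912 1239849684 370763052 3) ndB0q0 ndB2q2b pcB3 Cut.none Ext.none)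

def k0_mm_023_b : ∃ t, chk3 f_mm_023_b t 1 1 1 = true :=
  ⟨(l 5), by decide +kernel⟩

theorem c_mm_023_b : CertB 0 536870912 1239849684 370763052 697932185 42949674 3 eng mog cd0q0 cd2q2b pd3 true false false .up 0 2 3
    ndB0q0 ndB2q2b pcB3 Cut.none Ext.none :=
  certB0 (fam := true) (s1 := false) (s2 := false) (a := 0) (b := 2) (c := 3) (cn := .up) (n1 := ndB0q0) (n2 := ndB2q2b) (pc := pcB3) (cut := Cut.none) (xt := Ext.none) (P1 := 0) (W1 := 536870912) (P2 := 1239849684) (W2 := 370763052) (P3 := 697932185) (W3 := 42949674) (N0 := 3) (En := eng) (mo := mog) (C1 := cd0q0) (C2 := cd2q2b) (C3 := pd3)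
    rfl k0_mm_023_b

noncomputable def f_mm_033 : ℕ → ℕ → ℕ → ℕ → Bool := onCell 0 536870912 1610612736 536870912 697932185 42949674
    (rowB 3 eng mog cd0q0 cd2q3 pd3 0 true false false .pnn 0 3 3 (qsf 0 536870912 1610612736 536870912 3) ndB0q0 ndB2q3 pcB3 Cut.none Ext.none)

def k0_mm_033 : ∃ t, chk3 f_mm_033 t 1 1 1 = true :=
  ⟨(l 5), by decide +kernel⟩

theorem c_mm_033 : CertB 0 536870912 1610612736 536870912 697932185 42949674 3 eng mog cd0q0 cd2q3 pd3 true false false .pnn 0 3 3
    ndB0q0 ndB2q3 pcB3 Cut.none Ext.none :=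
  certB0 (fam := true) (s1 := false) (s2 := false) (a := 0) (b := 3) (c := 3) (cn := .pnn) (n1 := ndB0q0) (n2 := ndB2q3) (pc := pcB3) (cut := Cut.none) (xt := Ext.none) (P1 := 0) (W1 := 536870912) (P2 := 1610612736) (W2 := 536870912) (P3 := 697932185) (W3 := 42949674) (N0 := 3) (En := eng) (mo := mog) (C1 := cd0q0) (C2 := cd2q3) (C3 := pd3)
    rfl k0_mm_033

noncomputable def cut_mm_101 : Cut := Cut.of [[⟨0, 1, 0, 67108864⟩, ⟨1, 0, 0, 67108864⟩, ⟨2, 1, 0, 67108864⟩]]

noncomputable def f_mm_101 : ℕ → ℕ → ℕ → ℕ → Bool := onCell 536870912 536870912 0 536870912 697932185 42949674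
    (rowB 3 eng mog cd0q1 cd2q0 pd1 0 true false false .npn 1 0 1 (qsf 536870912 536870912 0 536870912 1) ndB0q1 ndB2q0 pcB1 cut_mm_101 Ext.none)

def k0_mm_101 : ∃ t, chk3 f_mm_101 t 1 1 1 = true :=
  ⟨(a (l 4) (b (a (l 4) (b (a (l 4) (b (a (l 4) (b (l 6) (l 4))) (l 4))) (l 4))) (l 4))), by decide +kernel⟩

theorem c_mm_101 : CertB 536870912 536870912 0 536870912 697932185 42949674 3 eng mog cd0q1 cd2q0 pd1 true false false .npn 1 0 1
    ndB0q1 ndB2q0 pcB1 cut_mm_101 Ext.none :=
  certB0 (fam := true) (s1 := false) (s2 := false) (a := 1) (b := 0) (c := 1) (cn := .npn) (n1 := ndB0q1) (n2 := ndB2q0) (pc := pcB1) (cut := cut_mm_101) (xt := Ext.none) (P1 := 536870912) (W1 := 536870912) (P2 := 0) (W2 := 536870912) (P3 := 697932185) (W3 := 42949674) (N0 := 3) (En := eng) (mo := mog) (C1 := cd0q1) (C2 := cd2q0) (C3 := pd1)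
    rfl k0_mm_101

noncomputable def cut_mm_102 : Cut := Cut.of [[⟨0, 1, 0, 67108864⟩, ⟨1, 0, 0, 67108864⟩, ⟨2, 1, 0, 67108864⟩]]

noncomputable def f_mm_102 : ℕ → ℕ → ℕ → ℕ → Bool := onCell 536870912 536870912 0 536870912 697932185 42949674
    (rowB 3 eng mog cd0q1 cd2q0 pd2 0 true false false .npp 1 0 2 (qsf 536870912 536870912 0 536870912 2) ndB0q1 ndB2q0 pcB2 cut_mm_102 Ext.none)

def k0_mm_102 : ∃ t, chk3 f_mm_102 t 1 1 1 = true :=
  ⟨(a (l 4) (b (a (l 4) (b (a (l 4) (a (l 4) (b (b (l 6) (l 4)) (l 4)))) (l 4))) (l 4))), by decide +kernel⟩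

theorem c_mm_102 : CertB 536870912 536870912 0 536870912 697932185 42949674 3 eng mog cd0q1 cd2q0 pd2 true false false .npp 1 0 2
    ndB0q1 ndB2q0 pcB2 cut_mm_102 Ext.none :=
  certB0 (fam := true) (s1 := false) (s2 := false) (a := 1) (b := 0) (c := 2) (cn := .npp) (n1 := ndB0q1) (n2 := ndB2q0) (pc := pcB2) (cut := cut_mm_102) (xt := Ext.none) (P1 := 536870912) (W1 := 536870912) (P2 := 0) (W2 := 536870912) (P3 := 697932185) (W3 := 42949674) (N0 := 3) (En := eng) (mo := mog) (C1 := cd0q1) (C2 := cd2q0) (C3 := pd2)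
    rfl k0_mm_102

noncomputable def f_mm_112 : ℕ → ℕ → ℕ → ℕ → Bool := onCell 536870912 536870912 536870912 536870912 697932185 42949674
    (rowB 3 eng mog cd0q1 cd2q1 pd2 0 true false false .dn 1 1 2 (qsf 536870912 536870912 536870912 536870912 2) ndB0q1 ndB2q1 pcB2 Cut.none Ext.none)

def k0_mm_112 : ∃ t, chk3 f_mm_112 t 1 1 1 = true :=
  ⟨(l 4), by decide +kernel⟩

theorem c_mm_112 : CertB 536870912 536870912 536870912 536870912 697932185 42949674 3 eng mog cd0q1 cd2q1 pd2 true false false .dn 1 1 2
    ndB0q1 ndB2q1 pcB2 Cut.none Ext.none :=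
  certB0 (fam := true) (s1 := false) (s2 := false) (a := 1) (b := 1) (c := 2) (cn := .dn) (n1 := ndB0q1) (n2 := ndB2q1) (pc := pcB2) (cut := Cut.none) (xt := Ext.none) (P1 := 536870912) (W1 := 536870912) (P2 := 536870912) (W2 := 536870912) (P3 := 697932185) (W3 := 42949674) (N0 := 3) (En := eng) (mo := mog) (C1 := cd0q1) (C2 := cd2q1) (C3 := pd2)
    rfl k0_mm_112

noncomputable def f_mm_113 : ℕ → ℕ → ℕ → ℕ → Bool := onCell 536870912 536870912 536870912 536870912 697932185 42949674
    (rowB 3 eng mog cd0q1 cd2q1 pd3 0 true false false .nn 1 1 3 (qsf 536870912 536870912 536870912 536870912 3) ndB0q1 ndB2q1 pcB3 Cut.none Ext.none)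

def k0_mm_113 : ∃ t, chk3 f_mm_113 t 1 1 1 = true :=
  ⟨(l 4), by decide +kernel⟩

theorem c_mm_113 : CertB 536870912 536870912 536870912 536870912 697932185 42949674 3 eng mog cd0q1 cd2q1 pd3 true false false .nn 1 1 3
    ndB0q1 ndB2q1 pcB3 Cut.none Ext.none :=
  certB0 (fam := true) (s1 := false) (s2 := false) (a := 1) (b := 1) (c := 3) (cn := .nn) (n1 := ndB0q1) (n2 := ndB2q1) (pc := pcB3) (cut := Cut.none) (xt := Ext.none) (P1 := 536870912) (W1 := 536870912) (P2 := 536870912) (W2 := 536870912) (P3 := 697932185) (W3 := 42949674) (N0 := 3) (En := eng) (mo := mog) (C1 := cd0q1) (C2 := cd2q1) (C3 := pd3)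
    rfl k0_mm_113

noncomputable def f_mm_123_a : ℕ → ℕ → ℕ → ℕ → Bool := onCell 536870912 536870912 0 536870912 697932185 42949674
    (rowB 3 eng mog cd0q1 cd2q2a pd3 0 true false false .npn 1 2 3 (qsf 536870912 536870912 0 536870912 3) ndB0q1 ndB2q2a pcB3 Cut.none Ext.none)

def k0_mm_123_a : ∃ t, chk3 f_mm_123_a t 1 1 1 = true :=
  ⟨(a (l 4) (l 4)), by decide +kernel⟩

theorem c_mm_123_a : CertB 536870912 536870912 0 536870912 697932185 42949674 3 eng mog cd0q1 cd2q2a pd3 true false false .npn 1 2 3
    ndB0q1 ndB2q2a pcB3 Cut.none Ext.none :=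
  certB0 (fam := true) (s1 := false) (s2 := false) (a := 1) (b := 2) (c := 3) (cn := .npn) (n1 := ndB0q1) (n2 := ndB2q2a) (pc := pcB3) (cut := Cut.none) (xt := Ext.none) (P1 := 536870912) (W1 := 536870912) (P2 := 0) (W2 := 536870912) (P3 := 697932185) (W3 := 42949674) (N0 := 3) (En := eng) (mo := mog) (C1 := cd0q1) (C2 := cd2q2a) (C3 := pd3)
    rfl k0_mm_123_a

noncomputable def f_mm_123_b : ℕ → ℕ → ℕ → ℕ → Bool := onCell 536870912 536870912 1239849684 370763052 697932185 42949674
    (rowB 3 eng mog cd0q1 cd2q2b pd3 0 true false false .npn 1 2 3 (qsf 536870912 536870912 1239849684 370763052 3) ndB0q1 ndB2q2b pcB3 Cut.none Ext.none)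

def k0_mm_123_b : ∃ t, chk3 f_mm_123_b t 1 1 1 = true :=
  ⟨(l 5), by decide +kernel⟩

theorem c_mm_123_b : CertB 536870912 536870912 1239849684 370763052 697932185 42949674 3 eng mog cd0q1 cd2q2b pd3 true false false .npn 1 2 3
    ndB0q1 ndB2q2b pcB3 Cut.none Ext.none :=
  certB0 (fam := true) (s1 := false) (s2 := false) (a := 1) (b := 2) (c := 3) (cn := .npn) (n1 := ndB0q1) (n2 := ndB2q2b) (pc := pcB3) (cut := Cut.none) (xt := Ext.none) (P1 := 536870912) (W1 := 536870912) (P2 := 1239849684) (W2 := 370763052) (P3 := 697932185) (W3 := 42949674) (N0 := 3) (En := eng) (mo := mog) (C1 := cd0q1) (C2 := cd2q2b) (C3 := pd3)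
    rfl k0_mm_123_b

noncomputable def f_mm_133 : ℕ → ℕ → ℕ → ℕ → Bool := onCell 536870912 536870912 1610612736 536870912 697932185 42949674
    (rowB 3 eng mog cd0q1 cd2q3 pd3 0 true false false .dn 1 3 3 (qsf 536870912 536870912 1610612736 536870912 3) ndB0q1 ndB2q3 pcB3 Cut.none Ext.none)

def k0_mm_133 : ∃ t, chk3 f_mm_133 t 1 1 1 = true :=
  ⟨(l 4), by decide +kernel⟩

theorem c_mm_133 : CertB 536870912 536870912 1610612736 536870912 697932185 42949674 3 eng mog cd0q1 cd2q3 pd3 true false false .dn 1 3 3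
    ndB0q1 ndB2q3 pcB3 Cut.none Ext.none :=
  certB0 (fam := true) (s1 := false) (s2 := false) (a := 1) (b := 3) (c := 3) (cn := .dn) (n1 := ndB0q1) (n2 := ndB2q3) (pc := pcB3) (cut := Cut.none) (xt := Ext.none) (P1 := 536870912) (W1 := 536870912) (P2 := 1610612736) (W2 := 536870912) (P3 := 697932185) (W3 := 42949674) (N0 := 3) (En := eng) (mo := mog) (C1 := cd0q1) (C2 := cd2q3) (C3 := pd3)
    rfl k0_mm_133

noncomputable def cut_mm_202 : Cut := Cut.of [[⟨0, 1, 0, 67108864⟩, ⟨1, 0, 0, 67108864⟩, ⟨2, 1, 0, 67108864⟩]]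

noncomputable def f_mm_202 : ℕ → ℕ → ℕ → ℕ → Bool := onCell 0 536870912 0 536870912 697932185 42949674
    (rowB 3 eng mog cd0q2 cd2q0 pd2 0 true false false .pp 2 0 2 (qsf 0 536870912 0 536870912 2) ndB0q2 ndB2q0 pcB2 cut_mm_202 Ext.none)

def k0_mm_202 : ∃ t, chk3 f_mm_202 t 2 2 1 = true :=
  ⟨(b (a (b (b (a (a (b (a (l 16362160) (l 16382896)) (a (l 16447784) (b (l 16444944) (l 16450072)))) (b (a (b (l 16448048) (l 16444840)) (l 16447976)) (a (l 16448304) (l 16449696)))) (b (a (l 16452264) (l 16460896)) (a (l 16453424) (l 16440280)))) (a (a (b (a (l 16468552) (l 16457472)) (l 16466312)) (l 16474728)) (a (l 16469008) (l 16476632)))) (a (b (a (l 16478616) (l 16482416)) (l 16494888)) (b (l 16493048) (l 16511960)))) (b (a (b (b (a (l 16472080) (l 16484944)) (a (l 16409040) (l 16422080))) (b (a (l 16480504) (l 16512440)) (l 16497776))) (b (a (b (a (l 16495144) (l 16502840)) (a (l 16495832) (l 16503960))) (a (b (l 16512288) (l 16513848)) (b (b (l 16523512) (l 16523904)) (b (l 16524912) (l 16526504))))) (a (b (b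 (l 16523304) (l 16527392)) (l 16515560)) (b (a (b (l 16516536) (l 16519264)) (l 16529920)) (a (l 16527616) (l 16580456)))))) (a (b (l 16514784) (l 16536816)) (b (a (l 16471048) (b (l 16545984) (l 16558736))) (a (l 16558208) (l 16577872)))))) (a (b (a (b (l 16506808) (l 16567568)) (b (l 16527248) (l 16547512))) (a (b (l 16551808) (l 16578408)) (b (l 16575160) (l 16602424)))) (b (a (b (l 16558080) (l 16579664)) (b (l 16678296) (l 16620208))) (a (b (l 16608352) (l 16637992)) (b (a (l 16636208) (l 16660256)) (a (l 16666696) (l 16691408))))))), by decide +kernel⟩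

def k1_mm_202 : ∃ t, chk3 f_mm_202 t 6 8 1 = true :=
  ⟨(a (b (b (a (b (a (b (l 16535784) (l 16536160)) (b (l 16543480) (l 16548352))) (a (l 16536672) (l 16550208))) (b (a (b (a (l 16549912) (l 16554520)) (l 16557240)) (b (a (l 16559376) (l 16564344)) (a (l 16564512) (l 16569560)))) (a (l 16564008) (b (l 16572080) (l 16576976))))) (a (a (l 16538720) (l 16552568)) (a (l 16566656) (b (l 16580024) (l 16582408))))) (a (b (a (l 16543432) (l 16557688)) (b (a (l 16548456) (l 16562904)) (a (l 16553752) (l 16567376)))) (b (a (l 16561680) (l 16587008)) (a (l 16579728) (l 16594944))))) (b (b (a (b (a (a (b (l 16579816) (l 16574632)) (b (b (l 16572976) (l 16575712)) (l 16579752))) (b (a (b (l 16578024) (l 16580816)) (b (l 16583144) (l 16585992))) (a (l 16584928) (l 16590192)))) (a (b (l 16582424) (l 16587496)) (b (l 16592992) (l 16577288)))) (a (b (b (a (b (l 16588352) (l 16591264)) (b (l 16593792) (l 16596760))) (a (l 16595552) (l 16601136))) (a (l 16603872) (l 16609632))) (b (b (a (b (l 16599688) (l 16602704)) (b (l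 16606056) (l 16609128))) (a (l 16607168) (l 16613664))) (b (l 16616256) (l 16621960))))) (a (a (b (l 16594848) (l 16597976)) (b (l 16605904) (l 16614736))) (a (b (l 16617440) (l 16627560)) (b (l 16609272) (l 16640776))))) (b (a (a (l 16602840) (l 16619856)) (a (l 16637832) (l 16655600))) (a (a (l 16611128) (l 16607520)) (a (l 16646808) (l 16665152)))))), by decide +kernel⟩

def k2_mm_202 : ∃ t, chk3 f_mm_202 t 6 9 1 = true :=
  ⟨(a (b (b (a (l 16569984) (b (a (l 16587320) (l 16602192)) (a (l 16593952) (l 16608280)))) (a (l 16583288) (l 16611320))) (a (b (l 16596576) (l 16610016)) (b (l 16625096) (l 16639040)))) (b (b (a (b (l 16585416) (l 16654008)) (l 16667000)) (a (b (l 16660408) (l 16646328)) (a (l 16670224) (l 16647192)))) (a (b (l 16635976) (l 16629424)) (b (a (l 16684392) (l 16704272)) (l 16710712))))), by decide +kernel⟩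

def k3_mm_202 : ∃ t, chk3 f_mm_202 t 7 4 1 = true :=
  ⟨(b (a (b (a (b (b (a (b (a (b (l 16612904) (l 16616024)) (b (l 16620240) (l 16623400))) (a (l 16620632) (l 16628064))) (b (a (b (l 16628048) (l 16631248)) (b (l 6) (l 16639568))) (a (l 16635976) (l 16644352)))) (a (b (l 16630376) (l 16636280)) (b (l 16646368) (l 16652432)))) (a (b (l 16623880) (l 16655752)) (b (a (l 16656936) (l 16665584)) (l 16651528)))) (b (a (b (b (l 6) (a (l 16653144) (l 6))) (b (l 16685056) (l 16670288))) (b (l 6) (b (l 6) (l 16710720)))) (a (b (a (l 16674624) (l 16684048)) (l 16690864)) (b (a (l 16693872) (l 16683136)) (l 16710784))))) (a (b (a (l 16671104) (l 16688288)) (a (l 16682928) (l 16700176))) (b (a (l 16707032) (b (l 16721488) (l 16726048))) (a (l 16717304) (b (l 16732208) (l 16740136)))))) (b (a (b (l 6) (a (b (l 6) (l 16732336)) (l 6))) (l 6)) (a (b (a (b (l 16738448) (l 16745064)) (b (b (l 16772352) (l 4)) (l 4))) (l 4)) (l 4)))) (a (b (a (b (a (l 16694400) (l 16712440)) (a (l 16708272) (l 16728448))) (b (a (l 16732056)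 (l 4)) (l 4))) (a (a (l 4) (l 4)) (l 4))) (l 4))), by decide +kernel⟩

def k4_mm_202 : ∃ t, chk3 f_mm_202 t 3 5 1 = true :=
  ⟨(a (b (a (b (a (l 16630592) (l 16660552)) (b (l 16707856) (l 16786472))) (a (b (l 16695216) (l 4)) (l 4))) (a (b (a (l 16784832) (l 4)) (l 4)) (l 4))) (l 4)), by decide +kernel⟩

def k5_mm_202 : ∃ t, chk3 f_mm_202 t 1 3 1 = true :=
  ⟨(a (b (a (b (a (b (l 16604728) (l 16629424)) (b (l 16630640) (l 16661736))) (b (a (l 16661104) (l 16694592)) (a (l 16697064) (l 16725784)))) (b (a (b (l 16668792) (l 16699888)) (b (l 18488576567) (l 4))) (l 4))) (a (l 2) (l 4))) (l 4)), by decide +kernel⟩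

theorem s6_mm_202 : ∃ t, chk3 f_mm_202 t 6 4 1 = true := ex3_b k1_mm_202 k2_mm_202

theorem s7_mm_202 : ∃ t, chk3 f_mm_202 t 3 4 1 = true := ex3_a s6_mm_202 k3_mm_202

theorem s8_mm_202 : ∃ t, chk3 f_mm_202 t 3 2 1 = true := ex3_b s7_mm_202 k4_mm_202

theorem s9_mm_202 : ∃ t, chk3 f_mm_202 t 1 2 1 = true := ex3_a k0_mm_202 s8_mm_202

theorem s10_mm_202 : ∃ t, chk3 f_mm_202 t 1 1 1 = true := ex3_b s9_mm_202 k5_mm_202

theorem c_mm_202 : CertB 0 536870912 0 536870912 697932185 42949674 3 eng mog cd0q2 cd2q0 pd2 true false false .pp 2 0 2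
    ndB0q2 ndB2q0 pcB2 cut_mm_202 Ext.none :=
  certB0 (fam := true) (s1 := false) (s2 := false) (a := 2) (b := 0) (c := 2) (cn := .pp) (n1 := ndB0q2) (n2 := ndB2q0) (pc := pcB2) (cut := cut_mm_202) (xt := Ext.none) (P1 := 0) (W1 := 536870912) (P2 := 0) (W2 := 536870912) (P3 := 697932185) (W3 := 42949674) (N0 := 3) (En := eng) (mo := mog) (C1 := cd0q2) (C2 := cd2q0) (C3 := pd2)
    rfl s10_mm_202

noncomputable def f_mm_203 : ℕ → ℕ → ℕ → ℕ → Bool := onCell 0 536870912 1610612736 536870912 697932185 42949674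
    (rowB 3 eng mog cd0q2 cd2q0 pd3 1 true false false .up 2 0 3 (qsf 0 536870912 0 536870912 3) ndB0q2 ndB2q0 pcB3 Cut.none Ext.none)

def k0_mm_203 : ∃ t, chk3 f_mm_203 t 1 1 1 = true :=
  ⟨(b (a (b (a (b (b (a (l 16700144) (l 16731504)) (l 16777800)) (b (l 16749616) (l 4))) (l 4)) (l 4)) (l 4)) (l 2)), by decide +kernel⟩

theorem c_mm_203 : CertB 0 536870912 0 536870912 697932185 42949674 3 eng mog cd0q2 cd2q0 pd3 true false false .up 2 0 3
    ndB0q2 ndB2q0 pcB3 Cut.none Ext.none :=
  certB1 (fam := true) (s1 := false) (s2 := false) (a := 2) (b := 0) (c := 3) (cn := .up) (n1 := ndB0q2) (n2 := ndB2q0) (pc := pcB3) (cut := Cut.none) (xt := Ext.none) (P1 := 0) (W1 := 536870912) (P2 := 0) (W2 := 536870912) (P3 := 697932185) (W3 := 42949674) (N0 := 3) (En := eng) (mo := mog) (C1 := cd0q2) (C2 := cd2q0) (C3 := pd3)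
    rfl (fun _ => rfl) k0_mm_203

noncomputable def f_mm_213 : ℕ → ℕ → ℕ → ℕ → Bool := onCell 0 536870912 536870912 536870912 697932185 42949674
    (rowB 3 eng mog cd0q2 cd2q1 pd3 0 true false false .pnn 2 1 3 (qsf 0 536870912 536870912 536870912 3) ndB0q2 ndB2q1 pcB3 Cut.none Ext.none)

def k0_mm_213 : ∃ t, chk3 f_mm_213 t 1 1 1 = true :=
  ⟨(a (l 4) (l 4)), by decide +kernel⟩

theorem c_mm_213 : CertB 0 536870912 536870912 536870912 697932185 42949674 3 eng mog cd0q2 cd2q1 pd3 true false false .pnn 2 1 3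
    ndB0q2 ndB2q1 pcB3 Cut.none Ext.none :=
  certB0 (fam := true) (s1 := false) (s2 := false) (a := 2) (b := 1) (c := 3) (cn := .pnn) (n1 := ndB0q2) (n2 := ndB2q1) (pc := pcB3) (cut := Cut.none) (xt := Ext.none) (P1 := 0) (W1 := 536870912) (P2 := 536870912) (W2 := 536870912) (P3 := 697932185) (W3 := 42949674) (N0 := 3) (En := eng) (mo := mog) (C1 := cd0q2) (C2 := cd2q1) (C3 := pd3)
    rfl k0_mm_213

end Pool.Agent.Strip051.G.I6500_6900.Tab.C.BA02

namespace Pool.Agent.Strip051.G.I6500_6900.Tab.C.BA03

open Pool.Agent.Strip051.PB Pool.Agent.Strip051.PB.T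
open Pool.Agent.Strip051.G.I6500_6900.Tab

noncomputable def f_pp_001 : ℕ → ℕ → ℕ → ℕ → Bool := onCell 0 536870912 0 536870912 697932185 42949674
    (rowB 3 eng mog cd0q0 cd3q0 pd1 0 true true true .up 0 0 1 (qsf 0 536870912 0 536870912 1) ndB0q0 ndB3q0 pcB1 Cut.none Ext.none)

def k0_pp_001 : ∃ t, chk3 f_pp_001 t 1 1 1 = true :=
  ⟨(l 4), by decide +kernel⟩

theorem c_pp_001 : CertB 0 536870912 0 536870912 697932185 42949674 3 eng mog cd0q0 cd3q0 pd1 true true true .up 0 0 1
    ndB0q0 ndB3q0 pcB1 Cut.none Ext.none :=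
  certB0 (fam := true) (s1 := true) (s2 := true) (a := 0) (b := 0) (c := 1) (cn := .up) (n1 := ndB0q0) (n2 := ndB3q0) (pc := pcB1) (cut := Cut.none) (xt := Ext.none) (P1 := 0) (W1 := 536870912) (P2 := 0) (W2 := 536870912) (P3 := 697932185) (W3 := 42949674) (N0 := 3) (En := eng) (mo := mog) (C1 := cd0q0) (C2 := cd3q0) (C3 := pd1)
    rfl k0_pp_001

noncomputable def f_pp_011 : ℕ → ℕ → ℕ → ℕ → Bool := onCell 0 536870912 536870912 536870912 697932185 42949674
    (rowB 3 eng mog cd0q0 cd3q1 pd1 0 true true true .pnn 0 1 1 (qsf 0 536870912 536870912 536870912 1) ndB0q0 ndB3q1 pcB1 Cut.none Ext.none)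

def k0_pp_011 : ∃ t, chk3 f_pp_011 t 1 1 1 = true :=
  ⟨(l 4), by decide +kernel⟩

theorem c_pp_011 : CertB 0 536870912 536870912 536870912 697932185 42949674 3 eng mog cd0q0 cd3q1 pd1 true true true .pnn 0 1 1
    ndB0q0 ndB3q1 pcB1 Cut.none Ext.none :=
  certB0 (fam := true) (s1 := true) (s2 := true) (a := 0) (b := 1) (c := 1) (cn := .pnn) (n1 := ndB0q0) (n2 := ndB3q1) (pc := pcB1) (cut := Cut.none) (xt := Ext.none) (P1 := 0) (W1 := 536870912) (P2 := 536870912) (W2 := 536870912) (P3 := 697932185) (W3 := 42949674) (N0 := 3) (En := eng) (mo := mog) (C1 := cd0q0) (C2 := cd3q1) (C3 := pd1)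
    rfl k0_pp_011

noncomputable def f_pp_012 : ℕ → ℕ → ℕ → ℕ → Bool := onCell 0 536870912 536870912 536870912 697932185 42949674
    (rowB 3 eng mog cd0q0 cd3q1 pd2 0 true true true .pnp 0 1 2 (qsf 0 536870912 536870912 536870912 2) ndB0q0 ndB3q1 pcB2 Cut.none Ext.none)

def k0_pp_012 : ∃ t, chk3 f_pp_012 t 1 1 1 = true :=
  ⟨(l 4), by decide +kernel⟩

theorem c_pp_012 : CertB 0 536870912 536870912 536870912 697932185 42949674 3 eng mog cd0q0 cd3q1 pd2 true true true .pnp 0 1 2
    ndB0q0 ndB3q1 pcB2 Cut.none Ext.none :=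
  certB0 (fam := true) (s1 := true) (s2 := true) (a := 0) (b := 1) (c := 2) (cn := .pnp) (n1 := ndB0q0) (n2 := ndB3q1) (pc := pcB2) (cut := Cut.none) (xt := Ext.none) (P1 := 0) (W1 := 536870912) (P2 := 536870912) (W2 := 536870912) (P3 := 697932185) (W3 := 42949674) (N0 := 3) (En := eng) (mo := mog) (C1 := cd0q0) (C2 := cd3q1) (C3 := pd2)
    rfl k0_pp_012

end Pool.Agent.Strip051.G.I6500_6900.Tab.C.BA03

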