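import Pool.Agent.Strip051.G.I6500_6900.Tab
import Pool.Agent.Strip051.PB.ExtD2

/-! # Certificates B7 (generated) -/

set_option linter.all false
set_option maxRecDepth 100000

namespace Pool.Agent.Strip051.G.I6500_6900.Tab.C.BA03

open Pool.Agent.Strip051.PB Pool.Agent.Strip051.PB.T
open Pool.Agent.Strip051.G.I6500_6900.Tab

noncomputable def cut_pp_022_a : Cut := Cut.of [[⟨0, 0, 0, 67108864⟩, ⟨1, 1, 0, 67108864⟩, ⟨2, 1, 0, 67108864⟩]]

noncomputable def f_pp_022_a : ℕ → ℕ → ℕ → ℕ → Bool := onCell 0 536870912 0 536870912 697932185 42949674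
    (rowB 3 eng mog cd0q0 cd3q2a pd2 0 true true true .pp 0 2 2 (qsf 0 536870912 0 536870912 2) ndB0q0 ndB3q2a pcB2 cut_pp_022_a Ext.none)

def k0_pp_022_a : ∃ t, chk3 f_pp_022_a t 4 1 1 = true :=
  ⟨(b (a (b (a (b (a (b (l 16440056) (l 16444680)) (b (l 16452608) (l 16457352))) (a (b (l 16451760) (l 16461280)) (b (a (l 16460704) (l 16468072)) (l 16484376)))) (b (a (l 16427848) (l 16484288)) (a (l 16484096) (l 16498992)))) (a (b (a (l 16480840) (b (l 16486128) (l 16500944))) (a (b (l 16505072) (l 16524472)) (b (l 16518264) (l 16537928)))) (b (a (b (l 16500864) (l 16515432)) (l 16523504)) (b (a (l 16589656) (l 16548056)) (a (l 16573368) (l 16609712)))))) (b (b (a (l 16526768) (l 16533224)) (a (l 16584112) (a (l 16541888) (l 16553760)))) (a (a (b (l 16538728) (b (l 16563552) (l 16581936))) (b (l 16553592) (b (l 16576432) (l 16594360)))) (b (a (l 16565664) (l 53384732279)) (l 4))))) (b (a (b (a (a (b (l 16546256) (l 16568464)) (b (l 16559904) (l 16583872))) (a (b (l 16574592) (l 16598208))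 (a (b (l 16586056) (l 16608232)) (b (l 16613480) (l 16614416))))) (a (a (b (l 16613136) (a (l 16614376) (l 16623376))) (b (l 16629328) (b (l 16628608) (l 16664152)))) (a (b (a (l 16619600) (l 16626296)) (a (l 16667736) (l 4))) (l 4)))) (b (a (a (b (l 16601808) (l 4)) (l 4)) (l 4)) (l 4))) (a (a (a (b (b (a (a (l 16641808) (l 16646696)) (b (l 16645720) (l 16661720))) (a (b (a (l 6) (l 16650640)) (l 6)) (b (l 16678936) (a (l 6) (l 16699040))))) (l 6)) (b (b (b (a (l 16654616) (l 16662112)) (a (l 16670480) (l 4))) (b (a (l 16697616) (l 4)) (l 4))) (l 4))) (l 4)) (l 4)))), by decide +kernel⟩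

def k1_pp_022_a : ∃ t, chk3 f_pp_022_a t 5 1 1 = true :=
  ⟨(b (a (b (a (b (l 16560920) (a (l 16566312) (l 68417050359))) (b (a (b (l 16575824) (l 16581888)) (a (l 59290273959) (l 16662488))) (l 4))) (l 4)) (b (a (b (b (a (l 16609560) (l 4)) (l 4)) (l 4)) (l 4)) (l 4))) (l 4)), by decide +kernel⟩

def k2_pp_022_a : ∃ t, chk3 f_pp_022_a t 3 1 1 = true :=
  ⟨(l 4), by decide +kernel⟩

theorem s3_pp_022_a : ∃ t, chk3 f_pp_022_a t 2 1 1 = true := ex3_a k0_pp_022_a k1_pp_022_a

theorem s4_pp_022_a : ∃ t, chk3 f_pp_022_a t 1 1 1 = true := ex3_a s3_pp_022_a k2_pp_022_a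

theorem c_pp_022_a : CertB 0 536870912 0 536870912 697932185 42949674 3 eng mog cd0q0 cd3q2a pd2 true true true .pp 0 2 2
    ndB0q0 ndB3q2a pcB2 cut_pp_022_a Ext.none :=
  certB0 (fam := true) (s1 := true) (s2 := true) (a := 0) (b := 2) (c := 2) (cn := .pp) (n1 := ndB0q0) (n2 := ndB3q2a) (pc := pcB2) (cut := cut_pp_022_a) (xt := Ext.none) (P1 := 0) (W1 := 536870912) (P2 := 0) (W2 := 536870912) (P3 := 697932185) (W3 := 42949674) (N0 := 3) (En := eng) (mo := mog) (C1 := cd0q0) (C2 := cd3q2a) (C3 := pd2)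
    rfl s4_pp_022_a

noncomputable def cut_pp_022_b : Cut := Cut.of [[⟨0, 0, 0, 67108864⟩, ⟨1, 1, 0, 67108864⟩, ⟨2, 1, 0, 67108864⟩]]

noncomputable def f_pp_022_b : ℕ → ℕ → ℕ → ℕ → Bool := onCell 1073741824 536870912 1239849684 370763052 697932185 42949674
    (rowB 3 eng mog cd0q0 cd3q2b pd2 2 true true true .pp 0 2 2 (qsf 0 536870912 1239849684 370763052 2) ndB0q0 ndB3q2b pcB2 cut_pp_022_b Ext.none)

def k0_pp_022_b : ∃ t, chk3 f_pp_022_b t 1 1 1 = true :=
  ⟨(a (b (a (l 1) (b (b (a (a (b (a (l 1) (b (l 16415552) (l 1))) (l 1)) (b (a (b (a (l 16422000) (l 16426808)) (a (l 1) (l 16396344))) (b (l 16437224) (l 16406728))) (a (l 1) (b (l 16376384) (l 16346152))))) (a (a (b (l 16457464) (l 16375760)) (b (l 16492672) (l 16389920))) (b (a (l 16464784) (l 16478728)) (l 16431632)))) (a (l 1) (a (b (a (l 16315520) (l 16329736)) (l 1)) (b (l 16350304) (l 16290632))))) (a (l 1) (b (a (l 1) (l 16306456)) (l 1))))) (l 1)) (a (b (a (b (b (a (b (l 16540632) (l 16436312)) (b (a (l 16515240) (l 16527936))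 (l 16457664))) (a (b (l 16375568) (l 16316216)) (b (l 16394848) (l 16333688)))) (b (a (a (l 16221872) (l 16232168)) (b (l 16273944) (l 16215088))) (a (l 1) (l 16166072)))) (a (b (b (a (b (l 16563000) (l 16477224)) (b (b (l 16574464) (l 16541144)) (l 16512840))) (a (l 16381976) (b (l 16427576) (l 16364496)))) (b (a (l 16259720) (l 16271888)) (a (l 16162864) (l 16154552)))) (a (b (a (b (b (l 16591648) (l 16503848)) (l 16511696)) (l 4)) (b (a (l 16365840) (l 4)) (l 16168520))) (l 4)))) (a (l 1) (b (a (b (a (l 16017392) (l 16034400)) (l 1)) (b (a (l 16051120) (l 16068144)) (l 16019392))) (l 1)))) (b (l 4) (a (b (l 4) (a (l 1) (l 4))) (l 4))))), by decide +kernel⟩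

theorem c_pp_022_b : CertB 0 536870912 1239849684 370763052 697932185 42949674 3 eng mog cd0q0 cd3q2b pd2 true true true .pp 0 2 2
    ndB0q0 ndB3q2b pcB2 cut_pp_022_b Ext.none :=
  certB2 (fam := true) (s1 := true) (s2 := true) (a := 0) (b := 2) (c := 2) (cn := .pp) (n1 := ndB0q0) (n2 := ndB3q2b) (pc := pcB2) (cut := cut_pp_022_b) (xt := Ext.none) (P1 := 0) (W1 := 536870912) (P2 := 1239849684) (W2 := 370763052) (P3 := 697932185) (W3 := 42949674) (N0 := 3) (En := eng) (mo := mog) (C1 := cd0q0) (C2 := cd3q2b) (C3 := pd2)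
    rfl (fun _ => rfl) k0_pp_022_b

noncomputable def f_pp_023_a : ℕ → ℕ → ℕ → ℕ → Bool := onCell 0 536870912 0 536870912 697932185 42949674
    (rowB 3 eng mog cd0q0 cd3q2a pd3 0 true true true .up 0 2 3 (qsf 0 536870912 0 536870912 3) ndB0q0 ndB3q2a pcB3 Cut.none Ext.none)

def k0_pp_023_a : ∃ t, chk3 f_pp_023_a t 1 1 1 = true :=
  ⟨(a (l 1) (l 4)), by decide +kernel⟩

theorem c_pp_023_a : CertB 0 536870912 0 536870912 697932185 42949674 3 eng mog cd0q0 cd3q2a pd3 true true true .up 0 2 3
    ndB0q0 ndB3q2a pcB3 Cut.none Ext.none :=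
  certB0 (fam := true) (s1 := true) (s2 := true) (a := 0) (b := 2) (c := 3) (cn := .up) (n1 := ndB0q0) (n2 := ndB3q2a) (pc := pcB3) (cut := Cut.none) (xt := Ext.none) (P1 := 0) (W1 := 536870912) (P2 := 0) (W2 := 536870912) (P3 := 697932185) (W3 := 42949674) (N0 := 3) (En := eng) (mo := mog) (C1 := cd0q0) (C2 := cd3q2a) (C3 := pd3)
    rfl k0_pp_023_a

noncomputable def f_pp_023_b : ℕ → ℕ → ℕ → ℕ → Bool := onCell 0 536870912 1610612736 536870912 697932185 42949674
    (rowB 3 eng mog cd0q0 cd3q2b pd3 1 true true true .up 0 2 3 (qsf 0 536870912 1239849684 370763052 3) ndB0q0 ndB3q2b pcB3 Cut.none Ext.none)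

def k0_pp_023_b : ∃ t, chk3 f_pp_023_b t 1 1 1 = true :=
  ⟨(b (l 4) (l 4)), by decide +kernel⟩

theorem c_pp_023_b : CertB 0 536870912 1239849684 370763052 697932185 42949674 3 eng mog cd0q0 cd3q2b pd3 true true true .up 0 2 3
    ndB0q0 ndB3q2b pcB3 Cut.none Ext.none :=
  certB1 (fam := true) (s1 := true) (s2 := true) (a := 0) (b := 2) (c := 3) (cn := .up) (n1 := ndB0q0) (n2 := ndB3q2b) (pc := pcB3) (cut := Cut.none) (xt := Ext.none) (P1 := 0) (W1 := 536870912) (P2 := 1239849684) (W2 := 370763052) (P3 := 697932185) (W3 := 42949674) (N0 := 3) (En := eng) (mo := mog) (C1 := cd0q0) (C2 := cd3q2b) (C3 := pd3)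
    rfl (fun _ => rfl) k0_pp_023_b

noncomputable def f_pp_033 : ℕ → ℕ → ℕ → ℕ → Bool := onCell 0 536870912 1610612736 536870912 697932185 42949674
    (rowB 3 eng mog cd0q0 cd3q3 pd3 0 true true true .pnn 0 3 3 (qsf 0 536870912 1610612736 536870912 3) ndB0q0 ndB3q3 pcB3 Cut.none Ext.none)

def k0_pp_033 : ∃ t, chk3 f_pp_033 t 1 1 1 = true :=
  ⟨(a (l 4) (l 4)), by decide +kernel⟩

theorem c_pp_033 : CertB 0 536870912 1610612736 536870912 697932185 42949674 3 eng mog cd0q0 cd3q3 pd3 true true true .pnn 0 3 3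
    ndB0q0 ndB3q3 pcB3 Cut.none Ext.none :=
  certB0 (fam := true) (s1 := true) (s2 := true) (a := 0) (b := 3) (c := 3) (cn := .pnn) (n1 := ndB0q0) (n2 := ndB3q3) (pc := pcB3) (cut := Cut.none) (xt := Ext.none) (P1 := 0) (W1 := 536870912) (P2 := 1610612736) (W2 := 536870912) (P3 := 697932185) (W3 := 42949674) (N0 := 3) (En := eng) (mo := mog) (C1 := cd0q0) (C2 := cd3q3) (C3 := pd3)
    rfl k0_pp_033

noncomputable def f_pp_101 : ℕ → ℕ → ℕ → ℕ → Bool := onCell 536870912 536870912 0 536870912 697932185 42949674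
    (rowB 3 eng mog cd0q1 cd3q0 pd1 0 true true true .npn 1 0 1 (qsf 536870912 536870912 0 536870912 1) ndB0q1 ndB3q0 pcB1 Cut.none Ext.none)

def k0_pp_101 : ∃ t, chk3 f_pp_101 t 1 1 1 = true :=
  ⟨(l 5), by decide +kernel⟩

theorem c_pp_101 : CertB 536870912 536870912 0 536870912 697932185 42949674 3 eng mog cd0q1 cd3q0 pd1 true true true .npn 1 0 1
    ndB0q1 ndB3q0 pcB1 Cut.none Ext.none :=
  certB0 (fam := true) (s1 := true) (s2 := true) (a := 1) (b := 0) (c := 1) (cn := .npn) (n1 := ndB0q1) (n2 := ndB3q0) (pc := pcB1) (cut := Cut.none) (xt := Ext.none) (P1 := 536870912) (W1 := 536870912) (P2 := 0) (W2 := 536870912) (P3 := 697932185) (W3 := 42949674) (N0 := 3) (En := eng) (mo := mog) (C1 := cd0q1) (C2 := cd3q0) (C3 := pd1)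
    rfl k0_pp_101

noncomputable def f_pp_102 : ℕ → ℕ → ℕ → ℕ → Bool := onCell 536870912 536870912 0 536870912 697932185 42949674
    (rowB 3 eng mog cd0q1 cd3q0 pd2 0 true true true .npp 1 0 2 (qsf 536870912 536870912 0 536870912 2) ndB0q1 ndB3q0 pcB2 Cut.none Ext.none)

def k0_pp_102 : ∃ t, chk3 f_pp_102 t 1 1 1 = true :=
  ⟨(l 5), by decide +kernel⟩

theorem c_pp_102 : CertB 536870912 536870912 0 536870912 697932185 42949674 3 eng mog cd0q1 cd3q0 pd2 true true true .npp 1 0 2
    ndB0q1 ndB3q0 pcB2 Cut.none Ext.none :=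
  certB0 (fam := true) (s1 := true) (s2 := true) (a := 1) (b := 0) (c := 2) (cn := .npp) (n1 := ndB0q1) (n2 := ndB3q0) (pc := pcB2) (cut := Cut.none) (xt := Ext.none) (P1 := 536870912) (W1 := 536870912) (P2 := 0) (W2 := 536870912) (P3 := 697932185) (W3 := 42949674) (N0 := 3) (En := eng) (mo := mog) (C1 := cd0q1) (C2 := cd3q0) (C3 := pd2)
    rfl k0_pp_102

noncomputable def f_pp_112 : ℕ → ℕ → ℕ → ℕ → Bool := onCell 536870912 536870912 536870912 536870912 697932185 42949674
    (rowB 3 eng mog cd0q1 cd3q1 pd2 0 true true true .dn 1 1 2 (qsf 536870912 536870912 536870912 536870912 2) ndB0q1 ndB3q1 pcB2 Cut.none Ext.none)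

def k0_pp_112 : ∃ t, chk3 f_pp_112 t 1 1 1 = true :=
  ⟨(l 4), by decide +kernel⟩

theorem c_pp_112 : CertB 536870912 536870912 536870912 536870912 697932185 42949674 3 eng mog cd0q1 cd3q1 pd2 true true true .dn 1 1 2
    ndB0q1 ndB3q1 pcB2 Cut.none Ext.none :=
  certB0 (fam := true) (s1 := true) (s2 := true) (a := 1) (b := 1) (c := 2) (cn := .dn) (n1 := ndB0q1) (n2 := ndB3q1) (pc := pcB2) (cut := Cut.none) (xt := Ext.none) (P1 := 536870912) (W1 := 536870912) (P2 := 536870912) (W2 := 536870912) (P3 := 697932185) (W3 := 42949674) (N0 := 3) (En := eng) (mo := mog) (C1 := cd0q1) (C2 := cd3q1) (C3 := pd2)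
    rfl k0_pp_112

noncomputable def f_pp_113 : ℕ → ℕ → ℕ → ℕ → Bool := onCell 536870912 536870912 536870912 536870912 697932185 42949674
    (rowB 3 eng mog cd0q1 cd3q1 pd3 0 true true true .nn 1 1 3 (qsf 536870912 536870912 536870912 536870912 3) ndB0q1 ndB3q1 pcB3 Cut.none Ext.none)

def k0_pp_113 : ∃ t, chk3 f_pp_113 t 1 1 1 = true :=
  ⟨(l 4), by decide +kernel⟩

theorem c_pp_113 : CertB 536870912 536870912 536870912 536870912 697932185 42949674 3 eng mog cd0q1 cd3q1 pd3 true true true .nn 1 1 3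
    ndB0q1 ndB3q1 pcB3 Cut.none Ext.none :=
  certB0 (fam := true) (s1 := true) (s2 := true) (a := 1) (b := 1) (c := 3) (cn := .nn) (n1 := ndB0q1) (n2 := ndB3q1) (pc := pcB3) (cut := Cut.none) (xt := Ext.none) (P1 := 536870912) (W1 := 536870912) (P2 := 536870912) (W2 := 536870912) (P3 := 697932185) (W3 := 42949674) (N0 := 3) (En := eng) (mo := mog) (C1 := cd0q1) (C2 := cd3q1) (C3 := pd3)
    rfl k0_pp_113

noncomputable def f_pp_123_a : ℕ → ℕ → ℕ → ℕ → Bool := onCell 536870912 536870912 0 536870912 697932185 42949674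
    (rowB 3 eng mog cd0q1 cd3q2a pd3 0 true true true .npn 1 2 3 (qsf 536870912 536870912 0 536870912 3) ndB0q1 ndB3q2a pcB3 Cut.none Ext.none)

def k0_pp_123_a : ∃ t, chk3 f_pp_123_a t 1 1 1 = true :=
  ⟨(l 4), by decide +kernel⟩

theorem c_pp_123_a : CertB 536870912 536870912 0 536870912 697932185 42949674 3 eng mog cd0q1 cd3q2a pd3 true true true .npn 1 2 3
    ndB0q1 ndB3q2a pcB3 Cut.none Ext.none :=
  certB0 (fam := true) (s1 := true) (s2 := true) (a := 1) (b := 2) (c := 3) (cn := .npn) (n1 := ndB0q1) (n2 := ndB3q2a) (pc := pcB3) (cut := Cut.none) (xt := Ext.none) (P1 := 536870912) (W1 := 536870912) (P2 := 0) (W2 := 536870912) (P3 := 697932185) (W3 := 42949674) (N0 := 3) (En := eng) (mo := mog) (C1 := cd0q1) (C2 := cd3q2a) (C3 := pd3)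
    rfl k0_pp_123_a

noncomputable def f_pp_123_b : ℕ → ℕ → ℕ → ℕ → Bool := onCell 536870912 536870912 1239849684 370763052 697932185 42949674
    (rowB 3 eng mog cd0q1 cd3q2b pd3 0 true true true .npn 1 2 3 (qsf 536870912 536870912 1239849684 370763052 3) ndB0q1 ndB3q2b pcB3 Cut.none Ext.none)

def k0_pp_123_b : ∃ t, chk3 f_pp_123_b t 1 1 1 = true :=
  ⟨(l 4), by decide +kernel⟩

theorem c_pp_123_b : CertB 536870912 536870912 1239849684 370763052 697932185 42949674 3 eng mog cd0q1 cd3q2b pd3 true true true .npn 1 2 3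
    ndB0q1 ndB3q2b pcB3 Cut.none Ext.none :=
  certB0 (fam := true) (s1 := true) (s2 := true) (a := 1) (b := 2) (c := 3) (cn := .npn) (n1 := ndB0q1) (n2 := ndB3q2b) (pc := pcB3) (cut := Cut.none) (xt := Ext.none) (P1 := 536870912) (W1 := 536870912) (P2 := 1239849684) (W2 := 370763052) (P3 := 697932185) (W3 := 42949674) (N0 := 3) (En := eng) (mo := mog) (C1 := cd0q1) (C2 := cd3q2b) (C3 := pd3)
    rfl k0_pp_123_b

noncomputable def f_pp_133 : ℕ → ℕ → ℕ → ℕ → Bool := onCell 536870912 536870912 1610612736 536870912 697932185 42949674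
    (rowB 3 eng mog cd0q1 cd3q3 pd3 0 true true true .dn 1 3 3 (qsf 536870912 536870912 1610612736 536870912 3) ndB0q1 ndB3q3 pcB3 Cut.none Ext.none)

def k0_pp_133 : ∃ t, chk3 f_pp_133 t 1 1 1 = true :=
  ⟨(l 4), by decide +kernel⟩

theorem c_pp_133 : CertB 536870912 536870912 1610612736 536870912 697932185 42949674 3 eng mog cd0q1 cd3q3 pd3 true true true .dn 1 3 3
    ndB0q1 ndB3q3 pcB3 Cut.none Ext.none :=
  certB0 (fam := true) (s1 := true) (s2 := true) (a := 1) (b := 3) (c := 3) (cn := .dn) (n1 := ndB0q1) (n2 := ndB3q3) (pc := pcB3) (cut := Cut.none) (xt := Ext.none) (P1 := 536870912) (W1 := 536870912) (P2 := 1610612736) (W2 := 536870912) (P3 := 697932185) (W3 := 42949674) (N0 := 3) (En := eng) (mo := mog) (C1 := cd0q1) (C2 := cd3q3) (C3 := pd3)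
    rfl k0_pp_133

noncomputable def f_pp_202 : ℕ → ℕ → ℕ → ℕ → Bool := onCell 0 536870912 0 536870912 697932185 42949674
    (rowB 3 eng mog cd0q2 cd3q0 pd2 0 true true true .pp 2 0 2 (qsf 0 536870912 0 536870912 2) ndB0q2 ndB3q0 pcB2 Cut.none Ext.none)

def k0_pp_202 : ∃ t, chk3 f_pp_202 t 1 1 1 = true :=
  ⟨(l 5), by decide +kernel⟩

theorem c_pp_202 : CertB 0 536870912 0 536870912 697932185 42949674 3 eng mog cd0q2 cd3q0 pd2 true true true .pp 2 0 2
    ndB0q2 ndB3q0 pcB2 Cut.none Ext.none :=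
  certB0 (fam := true) (s1 := true) (s2 := true) (a := 2) (b := 0) (c := 2) (cn := .pp) (n1 := ndB0q2) (n2 := ndB3q0) (pc := pcB2) (cut := Cut.none) (xt := Ext.none) (P1 := 0) (W1 := 536870912) (P2 := 0) (W2 := 536870912) (P3 := 697932185) (W3 := 42949674) (N0 := 3) (En := eng) (mo := mog) (C1 := cd0q2) (C2 := cd3q0) (C3 := pd2)
    rfl k0_pp_202

noncomputable def f_pp_203 : ℕ → ℕ → ℕ → ℕ → Bool := onCell 0 536870912 0 536870912 697932185 42949674
    (rowB 3 eng mog cd0q2 cd3q0 pd3 0 true true true .up 2 0 3 (qsf 0 536870912 0 536870912 3) ndB0q2 ndB3q0 pcB3 Cut.none Ext.none)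

def k0_pp_203 : ∃ t, chk3 f_pp_203 t 1 1 1 = true :=
  ⟨(l 5), by decide +kernel⟩

theorem c_pp_203 : CertB 0 536870912 0 536870912 697932185 42949674 3 eng mog cd0q2 cd3q0 pd3 true true true .up 2 0 3
    ndB0q2 ndB3q0 pcB3 Cut.none Ext.none :=
  certB0 (fam := true) (s1 := true) (s2 := true) (a := 2) (b := 0) (c := 3) (cn := .up) (n1 := ndB0q2) (n2 := ndB3q0) (pc := pcB3) (cut := Cut.none) (xt := Ext.none) (P1 := 0) (W1 := 536870912) (P2 := 0) (W2 := 536870912) (P3 := 697932185) (W3 := 42949674) (N0 := 3) (En := eng) (mo := mog) (C1 := cd0q2) (C2 := cd3q0) (C3 := pd3)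
    rfl k0_pp_203

noncomputable def f_pp_213 : ℕ → ℕ → ℕ → ℕ → Bool := onCell 0 536870912 536870912 536870912 697932185 42949674
    (rowB 3 eng mog cd0q2 cd3q1 pd3 0 true true true .pnn 2 1 3 (qsf 0 536870912 536870912 536870912 3) ndB0q2 ndB3q1 pcB3 Cut.none Ext.none)

def k0_pp_213 : ∃ t, chk3 f_pp_213 t 1 1 1 = true :=
  ⟨(l 4), by decide +kernel⟩

theorem c_pp_213 : CertB 0 536870912 536870912 536870912 697932185 42949674 3 eng mog cd0q2 cd3q1 pd3 true true true .pnn 2 1 3
    ndB0q2 ndB3q1 pcB3 Cut.none Ext.none :=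
  certB0 (fam := true) (s1 := true) (s2 := true) (a := 2) (b := 1) (c := 3) (cn := .pnn) (n1 := ndB0q2) (n2 := ndB3q1) (pc := pcB3) (cut := Cut.none) (xt := Ext.none) (P1 := 0) (W1 := 536870912) (P2 := 536870912) (W2 := 536870912) (P3 := 697932185) (W3 := 42949674) (N0 := 3) (En := eng) (mo := mog) (C1 := cd0q2) (C2 := cd3q1) (C3 := pd3)
    rfl k0_pp_213

noncomputable def f_pm_001 : ℕ → ℕ → ℕ → ℕ → Bool := onCell 0 536870912 0 536870912 697932185 42949674
    (rowB 3 eng mog cd0q0 cd3q0 pd1 0 true true false .up 0 0 1 (qsf 0 536870912 0 536870912 1) ndB0q0 ndB3q0 pcB1 Cut.none Ext.none)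

def k0_pm_001 : ∃ t, chk3 f_pm_001 t 1 1 1 = true :=
  ⟨(l 3), by decide +kernel⟩

theorem c_pm_001 : CertB 0 536870912 0 536870912 697932185 42949674 3 eng mog cd0q0 cd3q0 pd1 true true false .up 0 0 1
    ndB0q0 ndB3q0 pcB1 Cut.none Ext.none :=
  certB0 (fam := true) (s1 := true) (s2 := false) (a := 0) (b := 0) (c := 1) (cn := .up) (n1 := ndB0q0) (n2 := ndB3q0) (pc := pcB1) (cut := Cut.none) (xt := Ext.none) (P1 := 0) (W1 := 536870912) (P2 := 0) (W2 := 536870912) (P3 := 697932185) (W3 := 42949674) (N0 := 3) (En := eng) (mo := mog) (C1 := cd0q0) (C2 := cd3q0) (C3 := pd1)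
    rfl k0_pm_001

noncomputable def f_pm_011 : ℕ → ℕ → ℕ → ℕ → Bool := onCell 0 536870912 536870912 536870912 697932185 42949674
    (rowB 3 eng mog cd0q0 cd3q1 pd1 1 true true false .pnn 0 1 1 (qsf 0 536870912 536870912 536870912 1) ndB0q0 ndB3q1 pcB1 Cut.none Ext.none)

def k0_pm_011 : ∃ t, chk3 f_pm_011 t 1 1 1 = true :=
  ⟨(l 3), by decide +kernel⟩

theorem c_pm_011 : CertB 0 536870912 536870912 536870912 697932185 42949674 3 eng mog cd0q0 cd3q1 pd1 true true false .pnn 0 1 1
    ndB0q0 ndB3q1 pcB1 Cut.none Ext.none :=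
  certB1 (fam := true) (s1 := true) (s2 := false) (a := 0) (b := 1) (c := 1) (cn := .pnn) (n1 := ndB0q0) (n2 := ndB3q1) (pc := pcB1) (cut := Cut.none) (xt := Ext.none) (P1 := 0) (W1 := 536870912) (P2 := 536870912) (W2 := 536870912) (P3 := 697932185) (W3 := 42949674) (N0 := 3) (En := eng) (mo := mog) (C1 := cd0q0) (C2 := cd3q1) (C3 := pd1)
    rfl (fun _ => rfl) k0_pm_011

noncomputable def f_pm_012 : ℕ → ℕ → ℕ → ℕ → Bool := onCell 0 536870912 1073741824 536870912 697932185 42949674
    (rowB 3 eng mog cd0q0 cd3q1 pd2 1 true true false .pnp 0 1 2 (qsf 0 536870912 536870912 536870912 2) ndB0q0 ndB3q1 pcB2 Cut.none Ext.none)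

def k0_pm_012 : ∃ t, chk3 f_pm_012 t 1 4 1 = true :=
  ⟨(b (l 3) (b (a (l 3) (l 3)) (a (l 3) (a (a (l 3) (b (l 3) (b (l 3) (a (b (l 3) (a (l 3) (l 16485016))) (b (a (l 3) (l 16496592)) (a (l 16488344) (l 16492504))))))) (a (b (l 3) (b (a (l 16548032) (l 16506736)) (a (b (l 16501512) (l 16519144)) (b (l 16504688) (l 16501920))))) (b (a (b (l 3) (l 16504904)) (b (l 16493688) (l 16499848))) (b (a (l 16505664) (l 16501880)) (a (b (l 16504384) (l 16502208)) (l 16501400))))))))), by decide +kernel⟩

def k1_pm_012 : ∃ t, chk3 f_pm_012 t 2 5 1 = true :=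
  ⟨(b (b (b (a (l 3) (a (l 3) (b (l 3) (a (b (l 3) (a (l 3) (l 16473496))) (b (a (l 3) (l 16471928)) (a (l 16468512) (l 16464512))))))) (a (l 2) (b (a (a (b (l 3) (a (l 2) (l 16479144))) (b (a (l 3) (l 16477336)) (b (l 16473520) (l 16468800)))) (a (b (a (l 16470992) (l 16465232)) (b (l 16461736) (l 16457480))) (b (a (l 16460544) (l 16456936)) (b (l 16452824) (l 16448960))))) (b (a (a (b (l 16474528) (l 16469608)) (b (l 16464152) (l 16459360))) (a (b (l 16453224) (l 16448752)) (a (l 16444480) (l 16441640)))) (a (b (a (b (l 16465912) (l 16463232)) (l 16454448)) (a (l 16459472) (l 16491648))) (b (a (l 16465160) (a (l 16438208) (l 16435720))) (a (a (l 16441952) (c (l 16444768) (l 16471736))) (b (b (b (l 16434648) (a (l 16435376) (l 16433016))) (l 16433360)) (l 16431896))))))))) (a (l 2) (a (a (a (l 2) (l 16419088)) (a (l 16414656) (l 16410256))) (a (a (l 16405928) (l 16402408)) (a (l 16400128) (l 16398928)))))) (a (l 2) (a (a (l 2) (a (l 2) (l 16390808))) (a (b (a (l 16337312) (l 16335224))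 (l 16268744)) (b (a (l 16334600) (l 16335352)) (a (l 16268272) (l 16270472))))))), by decide +kernel⟩

def k2_pm_012 : ∃ t, chk3 f_pm_012 t 3 20 1 = true :=
  ⟨(b (a (a (b (a (b (l 3) (a (l 3) (l 16472096))) (b (a (l 3) (l 16473880)) (a (l 16468544) (b (l 16468440) (l 16464944))))) (a (b (a (l 16468512) (l 16465360)) (a (l 16461408) (l 16458640))) (b (a (l 16462192) (l 16459920)) (a (l 16455808) (l 16453128))))) (b (a (b (a (l 16476000) (l 16479032)) (a (b (l 16470888) (l 16467488)) (b (l 16474440) (l 16471336)))) (b (a (l 16483048) (l 16487872)) (a (l 16477384) (l 16482448)))) (a (b (a (l 16462104) (l 16466016)) (l 16477552)) (a (l 16467136) (l 16472672))))) (a (b (a (b (a (l 16492296) (l 16495472)) (l 16488864)) (l 16496152)) (a (l 16480352) (l 16487520))) (b (a (l 16497744) (l 16498072)) (a (l 16491976) (l 16494616))))) (a (b (a (a (b (a (l 16454232) (l 16451800)) (l 16466784)) (b (a (l 16449240) (l 16446520)) (l 16441392))) (a (b (l 16491312) (a (l 16440152) (l 16445016))) (b (l 16460592)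 (l 16454616)))) (a (b (a (a (l 16439672) (l 16437976)) (b (l 16436688) (l 16433512))) (b (b (a (l 16434152) (l 16431112)) (a (a (l 16433160) (l 16431840)) (l 16429480))) (a (b (b (b (l 16431224) (a (l 16431528) (l 16430296))) (l 16430080)) (l 16428720)) (a (c (l 16437960) (l 16438472)) (c (l 16437128) (l 16457440)))))) (b (a (a (b (l 16435104) (l 16431768)) (l 16438176)) (l 16511352)) (b (a (a (l 16428512) (l 16432896)) (l 16464816)) (a (a (c (l 16457624) (a (l 16414064) (l 16413792))) (c (l 16440840) (l 16417968))) (a (l 16457880) (l 16445176))))))) (b (a (a (b (l 16472760) (l 16467752)) (l 16479848)) (a (l 16486440) (l 16491736))) (b (a (a (l 16462624) (l 16473952)) (l 16486784)) (a (b (a (l 16459104) (l 16471688)) (a (l 16457304) (l 16470976))) (b (l 16486576) (a (l 16482456) (l 16492328)))))))), by decide +kernel⟩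

def k3_pm_012 : ∃ t, chk3 f_pm_012 t 3 21 1 = true :=
  ⟨(a (a (a (a (l 16398680) (l 16398792)) (a (l 16398904) (l 16398944))) (a (a (l 16399256) (l 16401968)) (a (l 16408048) (l 16417344)))) (a (a (l 16432464) (l 16450296)) (a (l 16466096) (l 16480240)))), by decide +kernel⟩

def k4_pm_012 : ∃ t, chk3 f_pm_012 t 3 11 1 = true :=
  ⟨(a (a (a (b (a (l 16337152) (l 16339440)) (l 16276056)) (b (l 16364208) (l 16285392))) (a (b (l 16349616) (l 16296856)) (b (l 16361040) (l 16312160)))) (a (a (b (l 16381096) (l 16330992)) (b (l 16405272) (l 16355496))) (a (l 16407232) (l 16432088)))), by decide +kernel⟩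

def k5_pm_012 : ∃ t, chk3 f_pm_012 t 1 3 1 = true :=
  ⟨(a (a (l 2) (b (a (l 2) (b (a (l 2) (b (l 16204232) (l 2))) (l 2))) (l 2))) (a (b (a (b (a (b (a (l 16210232) (l 16216048)) (l 16151072)) (b (l 16226136) (l 16166504))) (a (l 2) (b (l 16107592) (l 2)))) (b (a (b (l 16242144) (l 16186208)) (b (l 16262072) (l 16209688))) (a (b (l 16129952) (l 16074496)) (b (l 16156424) (l 16103048))))) (a (l 2) (b (a (l 2) (l 16131568)) (l 2)))) (b (a (b (b (a (l 16284288) (l 16307528)) (a (l 16235208) (l 16261048))) (a (l 16159728) (l 16190400))) (b (b (a (l 16336736) (l 16370872)) (a (l 16287968) (l 16321040))) (a (l 16221720) (b (l 16274032) (l 16232760))))) (a (b (a (b (l 16082848) (l 16032944)) (b (l 16117856) (l 16069688))) (a (l 2) (b (l 16022952) (l 2)))) (b (a (b (l 16154496) (l 16109232)) (b (l 16191768) (l 16170912))) (a (b (l 16064608) (l 16021664)) (b (l 16213328) (c (l 16103512) (l 16032584))))))))), by decide +kernel⟩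

theorem s6_pm_012 : ∃ t, chk3 f_pm_012 t 3 10 1 = true := ex3_b k2_pm_012 k3_pm_012

theorem s7_pm_012 : ∃ t, chk3 f_pm_012 t 3 5 1 = true := ex3_b s6_pm_012 k4_pm_012

theorem s8_pm_012 : ∃ t, chk3 f_pm_012 t 1 5 1 = true := ex3_a k1_pm_012 s7_pm_012

theorem s9_pm_012 : ∃ t, chk3 f_pm_012 t 1 2 1 = true := ex3_b k0_pm_012 s8_pm_012

theorem s10_pm_012 : ∃ t, chk3 f_pm_012 t 1 1 1 = true := ex3_b s9_pm_012 k5_pm_012

theorem c_pm_012 : CertB 0 536870912 536870912 536870912 697932185 42949674 3 eng mog cd0q0 cd3q1 pd2 true true false .pnp 0 1 2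
    ndB0q0 ndB3q1 pcB2 Cut.none Ext.none :=
  certB1 (fam := true) (s1 := true) (s2 := false) (a := 0) (b := 1) (c := 2) (cn := .pnp) (n1 := ndB0q0) (n2 := ndB3q1) (pc := pcB2) (cut := Cut.none) (xt := Ext.none) (P1 := 0) (W1 := 536870912) (P2 := 536870912) (W2 := 536870912) (P3 := 697932185) (W3 := 42949674) (N0 := 3) (En := eng) (mo := mog) (C1 := cd0q0) (C2 := cd3q1) (C3 := pd2)
    rfl (fun _ => rfl) s10_pm_012

noncomputable def cut_pm_022_a : Cut := Cut.of [[⟨0, 0, 0, 67108864⟩, ⟨1, 1, 0, 67108864⟩, ⟨2, 1, 0, 67108864⟩]]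

noncomputable def xt_pm_022_a : Ext := extD2 3 ⟨7, 3, 3, 10, 49, 25, 3, 4, 67, 200, 3, 16⟩ eng cd0q0 cd3q2a pd2 true true false .pp 0 2 2 rfl ndB0q0 ndB3q2a pcB2

noncomputable def f_pm_022_a : ℕ → ℕ → ℕ → ℕ → Bool := onCell 1073741824 536870912 0 536870912 697932185 42949674
    (rowB 3 eng mog cd0q0 cd3q2a pd2 2 true true false .pp 0 2 2 (qsf 0 536870912 0 536870912 2) ndB0q0 ndB3q2a pcB2 cut_pm_022_a xt_pm_022_a)

def k0_pm_022_a : ∃ t, chk3 f_pm_022_a t 8 1 1 = true :=
  ⟨(b (l 1) (b (l 1) (b (a (l 1) (b (a (l 1) (a (l 1) (b (l 1) (a (l 16618152) (l 16617168))))) (a (l 6) (a (l 6) (b (a (l 6) (l 16634824)) (l 16668968)))))) (a (l 6) (a (l 6) (a (l 6) (a (l 6) (b (b (l 16669864) (l 16687120)) (b (l 16697552) (b (l 16697752) (b (l 16697632) (l 16697456)))))))))))), by decide +kernel⟩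

def k1_pm_022_a : ∃ t, chk3 f_pm_022_a t 9 2 1 = true :=
  ⟨(b (l 1) (a (l 1) (b (l 1) (a (l 1) (b (l 1) (a (l 1) (l 16466880))))))), by decide +kernel⟩

def k2_pm_022_a : ∃ t, chk3 f_pm_022_a t 9 6 1 = true :=
  ⟨(b (a (l 1) (a (b (l 16484592) (a (l 16510752) (l 16511648))) (b (a (l 16487520) (l 16488848)) (a (l 16512112) (l 16512208))))) (a (a (b (l 1) (a (l 1) (b (l 16562984) (l 16579624)))) (b (a (l 16538784) (l 16560056)) (a (b (l 16562552) (l 16578400)) (b (l 16561704) (l 16576824))))) (b (a (a (l 16538984) (l 16538504)) (a (l 16537696) (l 16536608))) (a (a (l 16567848) (l 16566080)) (a (l 16564072) (l 16561888)))))), by decide +kernel⟩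

def k3_pm_022_a : ∃ t, chk3 f_pm_022_a t 9 7 1 = true :=
  ⟨(b (a (b (a (b (a (l 45667249399) (l 16596320)) (a (a (l 16616088) (l 16614920)) (l 16613040))) (a (b (l 16594336) (l 16610320)) (l 16620784))) (a (a (b (l 16632568) (l 16649544)) (b (l 16629376) (l 16645672))) (b (l 16645168) (l 16629104)))) (b (a (b (l 16588216) (l 16602648)) (b (l 16582568) (l 16596008))) (a (b (l 16616912) (l 16631312)) (b (l 16609320) (l 16622680))))) (b (a (b (a (a (l 16687512) (l 16662032)) (l 16655096)) (a (a (l 16683320) (l 16678240)) (l 16686464))) (a (b (l 16645640) (a (l 16651360) (l 16642088))) (b (l 16627768) (a (l 16633024) (l 16624160))))) (a (a (b (b (l 16685312) (a (l 16690384) (l 16680624))) (b (a (l 16690392) (l 16680528)) (b (a (l 16690192) (l 16680264)) (a (c (l 16690904) (l 16691712)) (c (l 16681040) (l 16678968)))))) (a (b (b (l 16670792) (l 16670880)) (b (l 16670680) (b (l 16670360) (a (l 16672512) (l 16667576))))) (b (l 16661256) (b (l 16660960) (b (l 16660576) (a (l 16662672) (l 16657784)))))))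 (b (a (a (l 16651728) (l 16642352)) (a (l 16633160) (l 16624160))) (a (a (b (l 16651328) (b (l 16650888) (a (l 16652920) (l 16648088)))) (b (l 16641848) (b (l 16641360) (a (l 16643296) (l 16638560))))) (a (b (l 16632544) (c (l 16633504) (b (l 16630480) (l 16629808)))) (b (l 16623432) (a (a (l 16625976) (l 16623696)) (l 16620312))))))))), by decide +kernel⟩

def k4_pm_022_a : ∃ t, chk3 f_pm_022_a t 5 2 1 = true :=
  ⟨(a (a (b (a (l 1) (a (b (l 1) (l 16412952)) (a (b (l 1) (l 16416336)) (b (a (l 16410960) (l 16411896)) (a (l 16417632) (l 16439072)))))) (a (b (b (l 16420304) (l 16434536)) (b (l 16451088) (l 16490624))) (a (b (l 45666943783) (b (l 16454464) (l 16471456))) (b (a (l 16435320) (a (l 16435904) (l 16456792))) (a (l 16463824) (a (l 16463616) (b (l 16454920) (l 16470432)))))))) (b (b (a (a (l 16415408) (l 16420536)) (l 16419368)) (a (a (l 16420920) (l 16425048)) (l 16423296))) (a (b (a (l 16437728) (l 16440536)) (b (l 16456912) (l 16471496))) (b (l 16437768) (l 16461184))))) (b (a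 (b (a (l 16415856) (l 16413704)) (a (l 16419304) (l 16416704))) (b (a (l 16413032) (l 16413728)) (a (l 16415552) (l 16415576)))) (a (b (a (l 16432920) (l 16429408)) (a (l 16455072) (l 16450376))) (b (a (l 16427280) (l 16426208)) (b (l 16439600) (l 16450424)))))), by decide +kernel⟩

def k5_pm_022_a : ∃ t, chk3 f_pm_022_a t 5 6 1 = true :=
  ⟨(a (a (a (b (b (l 16489880) (l 16511544)) (b (l 16534328) (l 16579128))) (b (a (b (l 16490128) (l 16510256)) (a (l 16499552) (a (l 16498536) (b (l 16487616) (l 16506296))))) (a (b (l 16531592) (l 16554016)) (a (b (l 16529664) (l 16551336)) (b (a (l 16528056) (l 16526264)) (a (l 16549352) (l 16568200))))))) (b (a (b (l 16487768) (l 16505584)) (b (l 16483008) (l 16499680))) (a (b (a (l 16525328) (l 16523936)) (l 16544480)) (b (l 16517520) (l 16535936))))) (b (a (b (l 16472736) (l 16488040)) (b (l 16462752) (l 16476088))) (a (b (l 16525072) (l 16520848)) (b (l 16490256) (l 16525696))))), by decide +kernel⟩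

def k6_pm_022_a : ∃ t, chk3 f_pm_022_a t 10 7 1 = true :=
  ⟨(a (b (b (a (l 16582640) (a (l 16577064) (a (l 16573560) (a (l 16571088) (l 16568608))))) (a (l 16607336) (a (l 16597328) (a (l 16592352) (a (l 16590640) (l 16589832)))))) (a (b (b (l 16610936) (a (l 16615568) (l 16607312))) (b (a (l 16615424) (l 16607056)) (a (b (l 16614592) (a (l 16615848) (l 16611456))) (b (l 16606088) (a (l 16607136) (l 16602928)))))) (a (b (b (l 16599192) (l 16599656)) (b (l 16599248) (b (l 16598144) (a (c (l 16601032) (l 16596776)) (c (l 16597144) (l 16592896)))))) (b (a (b (l 16594136) (l 16594528)) (a (b (l 16592408) (l 16592784)) (b (l 16592168) (b (l 16550560) (l 16613480))))) (a (b (l 16593992) (b (l 16592760) (a (l 16592216) (l 16590600)))) (b (a (l 16592208) (a (a (a (l 16591960) (l 16613664)) (l 16592328)) (l 16591528))) (a (b (l 16590904) (a (l 16589616) (a (l 16589272) (l 16589184)))) (a (a (a (b (l 16590640) (l 16589296)) (a (b (l 16590896) (l 16589560)) (a (a (l 16590552) (b (l 16591392) (l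 16590056))) (l 16590696)))) (l 16590392)) (l 16589560))))))))) (b (b (a (l 16564664) (l 16554480)) (a (l 16602640) (l 16568888))) (b (a (b (l 16583192) (a (l 16587456) (l 16579184))) (b (l 16569496) (l 16568848))) (a (b (a (l 16586712) (l 16599088)) (b (a (l 16585224) (a (l 16578560) (l 16574176))) (a (c (l 16585544) (l 16582224)) (a (l 16576952) (a (l 16573528) (l 16571408)))))) (b (l 16588008) (b (l 16585656) (a (b (l 16567064) (l 16586960)) (c (l 16561248) (l 16556104))))))))), by decide +kernel⟩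

def k7_pm_022_a : ∃ t, chk3 f_pm_022_a t 11 7 1 = true :=
  ⟨(b (b (a (l 16537704) (l 16519792)) (a (l 16572504) (l 16568648))) (b (a (b (l 16550200) (a (l 16555152) (l 16540832))) (b (a (l 16529800) (l 16516400)) (a (l 16526544) (l 16512632)))) (a (b (a (l 16573112) (l 16537008)) (b (a (l 16569976) (l 16533152)) (a (a (l 16571408) (l 16563240)) (a (l 16534176) (l 16526304))))) (b (a (l 16522056) (l 16528864)) (b (a (a (l 16521688) (l 16514288)) (a (l 16507104) (l 16500120))) (a (a (l 16518624) (c (l 16515632) (l 16506720))) (c (a (l 16508632) (l 16501816)) (a (l 16499200) (l 16491920))))))))), by decide +kernel⟩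

def k8_pm_022_a : ∃ t, chk3 f_pm_022_a t 3 2 1 = true :=
  ⟨(a (a (b (a (b (l 16448264) (a (l 16416680) (l 16418824))) (b (l 16424912) (l 16424544))) (b (a (l 16426504) (l 16431440)) (a (l 16484296) (l 16445656)))) (b (a (b (l 16439136) (l 16437416)) (b (l 16457928) (l 16454256))) (a (b (l 16442632) (l 16452856)) (b (l 16456824) (l 16460744))))) (a (b (a (b (l 16477488) (l 16471440)) (l 16575856)) (b (a (l 16468728) (l 16479768)) (a (l 16466800) (l 16472440)))) (a (b (l 16550984) (b (l 16492080) (l 16476608))) (b (l 16546680) (l 16482456))))), by decide +kernel⟩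

def k9_pm_022_a : ∃ t, chk3 f_pm_022_a t 6 3 1 = true :=
  ⟨(b (a (b (a (b (l 16457360) (l 16469000)) (b (l 16458136) (l 16467632))) (a (b (l 16481696) (l 16493680)) (b (l 16476496) (l 16484176)))) (a (b (l 16444024) (l 16471512)) (b (l 16463872) (l 16459600)))) (a (b (a (b (l 16504368) (l 16536600)) (b (l 16485616) (l 16480368))) (b (a (a (l 16522736) (l 16510448)) (a (l 16477544) (l 16466216))) (a (b (a (l 16494544) (l 16481688)) (b (a (l 16511000) (l 16476920)) (a (a (c (l 16495184) (l 16484872)) (c (l 16488664) (l 16477960))) (c (a (l 16482200) (l 16475752)) (a (l 16471072) (l 16464112)))))) (b (a (l 16469168) (l 16457184)) (a (b (l 16464016) (c (l 16466328) (l 16453872))) (b (l 16451728) (a (c (l 16457304) (l 16443984)) (c (l 16451544) (l 16437616))))))))) (b (a (b (l 16467328) (l 16460448)) (b (l 16451720) (a (l 16447568) (l 16439920)))) (b (a (a (l 16455512) (l 16477096)) (a (b (l 16439600) (l 16433344)) (l 16449136))) (a (b (a (l 16466920) (a (l 16438136) (l 16433216))) (a (b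 (a (l 16443032) (l 16437544)) (a (c (l 16446032) (l 16431512)) (c (l 16440760) (l 16425704)))) (b (a (l 16432320) (l 16427304)) (c (a (l 16435680) (l 16430744)) (a (l 16420216) (l 16414976)))))) (b (a (b (l 16428040) (l 16424176)) (b (l 16419008) (l 16414920))) (a (b (c (l 16427440) (l 16412296)) (c (a (l 16425888) (l 16421048)) (a (l 16409944) (l 16405048)))) (b (a (l 16412944) (l 16408168)) (c (a (l 16416136) (l 16411136)) (a (l 16400240) (l 16395440))))))))))), by decide +kernel⟩

def k10_pm_022_a : ∃ t, chk3 f_pm_022_a t 7 3 1 = true :=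
  ⟨(b (a (b (a (l 16461944) (l 16457704)) (a (l 16511272) (b (l 16442072) (l 16434488)))) (b (a (l 16450648) (l 16441960)) (a (l 16467528) (l 16409160)))) (a (b (a (b (l 16438696) (a (l 16432776) (l 16424896))) (b (l 16488032) (a (l 16416704) (l 16407696)))) (a (b (a (b (l 16423256) (l 16415824)) (l 16410720)) (b (a (l 16407656) (l 16398080)) (b (a (a (l 16403344) (l 16398456)) (l 16391224)) (a (c (a (l 16406080) (l 16400976)) (l 16388240)) (c (b (l 16394528) (l 16392248)) (l 16378824)))))) (b (a (l 16401400) (l 16392520)) (b (a (l 16388776) (l 16380040)) (a (b (l 16381920) (c (a (l 16386048) (l 16381360)) (l 16369832))) (b (l 16373264) (c (a (l 16376848) (l 16372552)) (a (l 16363504) (l 16359536))))))))) (b (a (b (l 16408136) (l 16395232)) (b (l 16393424) (l 16381328))) (b (a (b (l 16384280) (l 16376552)) (a (l 16370576) (l 16365416))) (a (b (a (l 16372048) (l 16364984)) (a (b (l 16365400) (c (a (l 16368456) (l 16364600)) (a (l 16355760) (l 16352192)))) (b (l 16358440) (a (c (l 16361016)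 (l 16348872)) (b (l 16353480) (c (l 16356696) (l 16344528))))))) (b (a (l 16358920) (l 16354128)) (b (a (a (l 16353952) (l 16351368)) (c (l 16352528) (l 16342096))) (b (a (c (l 16354488) (l 16343024)) (c (a (l 16350864) (l 16348648)) (l 16338536))) (a (c (a (c (l 16356104) (l 16351224)) (c (b (l 16353944) (l 16353016)) (l 16348680))) (a (l 16341792) (l 16339320))) (a (c (b (l 16349368) (c (c (l 140907052792463375) (l 16349496)) (l 16345824))) (l 16337096)) (a (c (c (l 140915092966621199) (l 16344720)) (l 16335552)) (c (c (l 140887399015202831) (l 16343672)) (l 16334584))))))))))))), by decide +kernel⟩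

theorem s11_pm_022_a : ∃ t, chk3 f_pm_022_a t 3 3 1 = true := ex3_a k9_pm_022_a k10_pm_022_a

theorem s12_pm_022_a : ∃ t, chk3 f_pm_022_a t 3 1 1 = true := ex3_b k8_pm_022_a s11_pm_022_a

theorem s13_pm_022_a : ∃ t, chk3 f_pm_022_a t 5 7 1 = true := ex3_a k6_pm_022_a k7_pm_022_a

theorem s14_pm_022_a : ∃ t, chk3 f_pm_022_a t 5 3 1 = true := ex3_b k5_pm_022_a s13_pm_022_a

theorem s15_pm_022_a : ∃ t, chk3 f_pm_022_a t 5 1 1 = true := ex3_b k4_pm_022_a s14_pm_022_a

theorem s16_pm_022_a : ∃ t, chk3 f_pm_022_a t 9 3 1 = true := ex3_b k2_pm_022_a k3_pm_022_a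

theorem s17_pm_022_a : ∃ t, chk3 f_pm_022_a t 9 1 1 = true := ex3_b k1_pm_022_a s16_pm_022_a

theorem s18_pm_022_a : ∃ t, chk3 f_pm_022_a t 4 1 1 = true := ex3_a k0_pm_022_a s17_pm_022_a

theorem s19_pm_022_a : ∃ t, chk3 f_pm_022_a t 2 1 1 = true := ex3_a s18_pm_022_a s15_pm_022_a

theorem s20_pm_022_a : ∃ t, chk3 f_pm_022_a t 1 1 1 = true := ex3_a s19_pm_022_a s12_pm_022_a

theorem c_pm_022_a : CertB 0 536870912 0 536870912 697932185 42949674 3 eng mog cd0q0 cd3q2a pd2 true true false .pp 0 2 2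
    ndB0q0 ndB3q2a pcB2 cut_pm_022_a xt_pm_022_a :=
  certB2 (fam := true) (s1 := true) (s2 := false) (a := 0) (b := 2) (c := 2) (cn := .pp) (n1 := ndB0q0) (n2 := ndB3q2a) (pc := pcB2) (cut := cut_pm_022_a) (xt := xt_pm_022_a) (P1 := 0) (W1 := 536870912) (P2 := 0) (W2 := 536870912) (P3 := 697932185) (W3 := 42949674) (N0 := 3) (En := eng) (mo := mog) (C1 := cd0q0) (C2 := cd3q2a) (C3 := pd2)
    rfl (fun _ => rfl) s20_pm_022_a

noncomputable def cut_pm_022_b : Cut := Cut.of [[⟨0, 0, 0, 67108864⟩, ⟨1, 1, 0, 67108864⟩, ⟨2, 1, 0, 67108864⟩]]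

noncomputable def f_pm_022_b : ℕ → ℕ → ℕ → ℕ → Bool := onCell 0 536870912 1239849684 370763052 697932185 42949674
    (rowB 3 eng mog cd0q0 cd3q2b pd2 0 true true false .pp 0 2 2 (qsf 0 536870912 1239849684 370763052 2) ndB0q0 ndB3q2b pcB2 cut_pm_022_b Ext.none)

def k0_pm_022_b : ∃ t, chk3 f_pm_022_b t 2 1 1 = true :=
  ⟨(b (a (b (a (b (a (b (a (b (a (l 16403968) (l 16406976)) (l 16397912)) (l 16390752)) (a (l 16332176) (l 16333872))) (b (a (l 16389232) (l 16388952)) (l 16358832))) (a (b (a (l 16277504) (l 16283064)) (l 16233616)) (b (l 16292520) (l 16252832)))) (b (a (b (a (l 16390184) (l 16392728)) (l 16347376)) (b (l 16440496) (l 16361336))) (a (b (l 16308752) (a (l 16269416) (l 16281624))) (b (a (l 16323552) (l 16334328)) (a (l 16294368) (l 16307760)))))) (a (b (a (b (l 16193072) (a (l 16151128) (l 16166728))) (b (l 16218760) (a (l 16182256) (l 16198256)))) (a (b (a (l 16122120) (l 16181792)) (a (b (l 16103216) (l 16091944)) (l 16117288))) (a (b (l 16157592) (l 16136952)) (l 16165768))))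 (b (a (b (a (l 16239672) (l 16254576)) (l 16328448)) (b (l 16278008) (l 16259264))) (a (l 16195232) (l 16236064))))) (b (a (b (a (b (a (l 16406664) (l 16413584)) (a (l 16374032) (l 16383912))) (b (l 16426888) (l 16401472))) (a (b (a (l 16345760) (l 16358248)) (l 16329384)) (l 16370632))) (b (a (b (l 16449712) (l 16429920)) (l 16465584)) (a (l 16406624) (l 16442480)))) (a (b (a (l 16303424) (l 16342696)) (a (l 16278208) (l 16323752))) (b (a (l 16386848) (l 16430088)) (l 16396592))))) (a (b (a (b (a (a (b (l 16076952) (l 16060528)) (l 16090928)) (l 16166464)) (a (b (l 16060848) (l 16052824)) (l 16107736))) (a (b (l 16170256) (l 16159320)) (b (l 16217216) (l 16211576)))) (a (b (a (l 16047584) (l 16104488)) (a (l 16053488) (l 16115280))) (b (a (l 16161032) (l 2)) (l 2)))) (b (a (b (l 16290184) (l 16291600)) (l 2)) (l 2)))), by decide +kernel⟩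

def k1_pm_022_b : ∃ t, chk3 f_pm_022_b t 3 1 1 = true :=
  ⟨(b (a (b (a (b (a (l 16489200) (l 16513568)) (a (l 16474640) (l 16507144))) (b (a (l 16538008) (l 16554784)) (l 2))) (a (b (l 16532312) (l 2)) (l 2))) (l 2)) (l 2)), by decide +kernel⟩

theorem s2_pm_022_b : ∃ t, chk3 f_pm_022_b t 1 1 1 = true := ex3_a k0_pm_022_b k1_pm_022_b

theorem c_pm_022_b : CertB 0 536870912 1239849684 370763052 697932185 42949674 3 eng mog cd0q0 cd3q2b pd2 true true false .pp 0 2 2
    ndB0q0 ndB3q2b pcB2 cut_pm_022_b Ext.none :=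
  certB0 (fam := true) (s1 := true) (s2 := false) (a := 0) (b := 2) (c := 2) (cn := .pp) (n1 := ndB0q0) (n2 := ndB3q2b) (pc := pcB2) (cut := cut_pm_022_b) (xt := Ext.none) (P1 := 0) (W1 := 536870912) (P2 := 1239849684) (W2 := 370763052) (P3 := 697932185) (W3 := 42949674) (N0 := 3) (En := eng) (mo := mog) (C1 := cd0q0) (C2 := cd3q2b) (C3 := pd2)
    rfl s2_pm_022_b

noncomputable def xt_pm_023_a : Ext := extD2 3 ⟨7, 3, 3, 10, 49, 25, 3, 4, 67, 200, 3, 16⟩ eng cd0q0 cd3q2a pd3 true true false .up 0 2 3 rfl ndB0q0 ndB3q2a pcB3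

noncomputable def f_pm_023_a : ℕ → ℕ → ℕ → ℕ → Bool := onCell 0 536870912 0 536870912 697932185 42949674
    (rowB 3 eng mog cd0q0 cd3q2a pd3 0 true true false .up 0 2 3 (qsf 0 536870912 0 536870912 3) ndB0q0 ndB3q2a pcB3 Cut.none xt_pm_023_a)

def k0_pm_023_a : ∃ t, chk3 f_pm_023_a t 1 1 1 = true :=
  ⟨(a (l 1) (b (a (a (l 1) (b (a (l 251288845271) (l 16591656)) (a (l 1) (l 16489944)))) (a (b (a (l 16584208) (l 16541272)) (a (l 16492808) (l 16480152))) (b (a (l 16542872) (b (a (l 16594488) (l 16600000)) (a (l 16576592) (l 16585608)))) (a (l 16487496) (b (a (b (l 16558432) (l 16540792)) (l 16569984)) (a (l 16510104) (b (l 16550072) (l 16527368)))))))) (b (a (l 1) (a (a (l 150893582423) (l 48888223959)) (a (b (l 16437744) (l 16406400)) (b (l 16479416) (l 16435040))))) (a (l 1) (a (b (b (l 220150055703) (l 1)) (l 1)) (b (a (l 16461616) (b (l 16403456) (l 16383928))) (b (a (l 16379208) (a (l 16362552) (l 16368912))) (a (l 1) (a (l 249140880855) (a (b (l 16353232) (l 245919565799)) (b (l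 16355920) (a (c (l 140573282307915791) (l 250751405799)) (c (l 140660624766058511) (c (l 16340168) (l 16327688))))))))))))))), by decide +kernel⟩

theorem c_pm_023_a : CertB 0 536870912 0 536870912 697932185 42949674 3 eng mog cd0q0 cd3q2a pd3 true true false .up 0 2 3
    ndB0q0 ndB3q2a pcB3 Cut.none xt_pm_023_a :=
  certB0 (fam := true) (s1 := true) (s2 := false) (a := 0) (b := 2) (c := 3) (cn := .up) (n1 := ndB0q0) (n2 := ndB3q2a) (pc := pcB3) (cut := Cut.none) (xt := xt_pm_023_a) (P1 := 0) (W1 := 536870912) (P2 := 0) (W2 := 536870912) (P3 := 697932185) (W3 := 42949674) (N0 := 3) (En := eng) (mo := mog) (C1 := cd0q0) (C2 := cd3q2a) (C3 := pd3)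
    rfl k0_pm_023_a

noncomputable def f_pm_023_b : ℕ → ℕ → ℕ → ℕ → Bool := onCell 0 536870912 1610612736 536870912 697932185 42949674
    (rowB 3 eng mog cd0q0 cd3q2b pd3 1 true true false .up 0 2 3 (qsf 0 536870912 1239849684 370763052 3) ndB0q0 ndB3q2b pcB3 Cut.none Ext.none)

def k0_pm_023_b : ∃ t, chk3 f_pm_023_b t 1 1 1 = true :=
  ⟨(a (b (b (a (b (a (l 16119864) (l 16181624)) (a (l 39291039175) (l 16153072))) (b (a (l 16287664) (b (l 16395616) (l 16397448))) (a (l 16269712) (l 16389288)))) (b (a (a (l 2) (l 16137968)) (b (a (l 16256168) (l 16378568)) (a (l 16252976) (l 16374104)))) (a (l 2) (a (l 16267888) (l 16380016))))) (b (a (l 2) (b (a (l 2) (b (l 16414640) (l 2))) (l 2))) (l 2))) (b (b (a (a (b (a (l 16469728) (l 16508944)) (l 16604096)) (b (a (l 16540360) (l 269005585447)) (a (l 16562016) (l 16583888)))) (b (a (b (l 425771734359) (l 264710431911)) (l 1)) (a (b (l 16553792) (l 16589808)) (a (l 400538989431) (l 484827568343))))) (b (a (b (a (l 16492032) (l 16578440)) (a (l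 16488328) (l 16576424))) (b (a (b (l 16603480) (l 16615736)) (b (l 409128997639) (l 16581792))) (a (l 16622184) (a (l 16606728) (l 16625792))))) (a (a (l 16488680) (b (l 16575472) (l 16577992))) (b (a (b (l 16629848) (l 16631944)) (b (l 16620368) (l 16653272))) (a (l 16633552) (l 16668856)))))) (b (a (b (a (b (l 16511400) (l 16538160)) (l 16597520)) (b (a (l 16561056) (l 16639872)) (l 4))) (b (a (l 16644624) (l 16689408)) (b (a (l 16667768) (l 16697944)) (a (l 16688296) (l 16699040))))) (l 4)))), by decide +kernel⟩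

theorem c_pm_023_b : CertB 0 536870912 1239849684 370763052 697932185 42949674 3 eng mog cd0q0 cd3q2b pd3 true true false .up 0 2 3
    ndB0q0 ndB3q2b pcB3 Cut.none Ext.none :=
  certB1 (fam := true) (s1 := true) (s2 := false) (a := 0) (b := 2) (c := 3) (cn := .up) (n1 := ndB0q0) (n2 := ndB3q2b) (pc := pcB3) (cut := Cut.none) (xt := Ext.none) (P1 := 0) (W1 := 536870912) (P2 := 1239849684) (W2 := 370763052) (P3 := 697932185) (W3 := 42949674) (N0 := 3) (En := eng) (mo := mog) (C1 := cd0q0) (C2 := cd3q2b) (C3 := pd3)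
    rfl (fun _ => rfl) k0_pm_023_b

noncomputable def f_pm_033 : ℕ → ℕ → ℕ → ℕ → Bool := onCell 0 536870912 1610612736 536870912 697932185 42949674
    (rowB 3 eng mog cd0q0 cd3q3 pd3 1 true true false .pnn 0 3 3 (qsf 0 536870912 1610612736 536870912 3) ndB0q0 ndB3q3 pcB3 Cut.none Ext.none)

def k0_pm_033 : ∃ t, chk3 f_pm_033 t 1 1 1 = true :=
  ⟨(a (b (b (a (b (a (b (l 16113032) (l 16095912)) (l 379063435383)) (a (l 16067928) (l 16187600))) (b (l 1) (a (l 16327832) (l 1)))) (b (a (a (l 16041304) (l 16169272)) (b (a (l 16297488) (l 1)) (a (l 16294056) (l 16420600)))) (a (a (l 16072328) (l 16184016)) (a (l 16302880) (l 16426008))))) (b (b (a (b (l 16186000) (l 4)) (a (b (l 16329944) (l 16345976)) (b (l 16449840) (l 16465776)))) (l 4)) (l 4))) (b (b (l 1) (b (l 1) (a (a (l 16538416) (l 1)) (l 1)))) (b (a (b (a (b (l 16557080) (l 16580704)) (l 233572273895)) (b (a (l 16592672) (l 16672256)) (l 4))) (b (l 1) (b (l 1) (a (l 16701416) (l 1))))) (l 4)))), by decide +kernel⟩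

theorem c_pm_033 : CertB 0 536870912 1610612736 536870912 697932185 42949674 3 eng mog cd0q0 cd3q3 pd3 true true false .pnn 0 3 3
    ndB0q0 ndB3q3 pcB3 Cut.none Ext.none :=
  certB1 (fam := true) (s1 := true) (s2 := false) (a := 0) (b := 3) (c := 3) (cn := .pnn) (n1 := ndB0q0) (n2 := ndB3q3) (pc := pcB3) (cut := Cut.none) (xt := Ext.none) (P1 := 0) (W1 := 536870912) (P2 := 1610612736) (W2 := 536870912) (P3 := 697932185) (W3 := 42949674) (N0 := 3) (En := eng) (mo := mog) (C1 := cd0q0) (C2 := cd3q3) (C3 := pd3)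
    rfl (fun _ => rfl) k0_pm_033

noncomputable def cut_pm_101 : Cut := Cut.of [[⟨0, 1, 0, 67108864⟩, ⟨1, 0, 0, 67108864⟩, ⟨2, 1, 0, 67108864⟩]]

noncomputable def f_pm_101 : ℕ → ℕ → ℕ → ℕ → Bool := onCell 536870912 536870912 0 536870912 697932185 42949674
    (rowB 3 eng mog cd0q1 cd3q0 pd1 2 true true false .npn 1 0 1 (qsf 536870912 536870912 0 536870912 1) ndB0q1 ndB3q0 pcB1 cut_pm_101 Ext.none)

def k0_pm_101 : ∃ t, chk3 f_pm_101 t 1 1 1 = true :=
  ⟨(a (l 3) (b (a (l 3) (b (a (l 3) (b (a (l 3) (a (l 3) (b (l 6) (l 3)))) (l 3))) (l 3))) (l 3))), by decide +kernel⟩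

theorem c_pm_101 : CertB 536870912 536870912 0 536870912 697932185 42949674 3 eng mog cd0q1 cd3q0 pd1 true true false .npn 1 0 1
    ndB0q1 ndB3q0 pcB1 cut_pm_101 Ext.none :=
  certB2 (fam := true) (s1 := true) (s2 := false) (a := 1) (b := 0) (c := 1) (cn := .npn) (n1 := ndB0q1) (n2 := ndB3q0) (pc := pcB1) (cut := cut_pm_101) (xt := Ext.none) (P1 := 536870912) (W1 := 536870912) (P2 := 0) (W2 := 536870912) (P3 := 697932185) (W3 := 42949674) (N0 := 3) (En := eng) (mo := mog) (C1 := cd0q1) (C2 := cd3q0) (C3 := pd1)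
    rfl (fun _ => rfl) k0_pm_101

noncomputable def cut_pm_102 : Cut := Cut.of [[⟨0, 1, 0, 67108864⟩, ⟨1, 0, 0, 67108864⟩, ⟨2, 1, 0, 67108864⟩]]

noncomputable def f_pm_102 : ℕ → ℕ → ℕ → ℕ → Bool := onCell 536870912 536870912 1073741824 536870912 697932185 42949674
    (rowB 3 eng mog cd0q1 cd3q0 pd2 1 true true false .npp 1 0 2 (qsf 536870912 536870912 0 536870912 2) ndB0q1 ndB3q0 pcB2 cut_pm_102 Ext.none)

def k0_pm_102 : ∃ t, chk3 f_pm_102 t 2 4 1 = true :=
  ⟨(b (a (l 3) (b (l 3) (a (l 3) (b (l 3) (b (l 3) (a (b (l 3) (a (l 3) (l 348059839319))) (b (a (l 3) (l 302425929639)) (a (l 350744236599) (b (l 16694264) (l 16688096)))))))))) (a (b (b (l 3) (a (l 2) (b (a (l 16491816) (l 16498672)) (a (l 16489392) (l 16492200))))) (a (l 2) (b (b (a (l 16485880) (l 16486248)) (l 16499136)) (a (l 2) (l 16462856))))) (b (a (b (a (l 285782759991) (b (l 348059770023) (b (l 16567112) (l 16558376)))) (b (a (l 16517104) (l 16545760)) (a (l 16508104) (l 16532176)))) (b (b (a (b (a (l 16627248) (l 16653536))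 (a (l 16615624) (l 16641968))) (b (a (l 16677464) (l 16700752)) (l 16678160))) (a (b (l 16617408) (l 16607744)) (b (l 16668824) (l 16657504)))) (a (b (l 16590960) (l 16569504)) (b (l 16638392) (l 16616576))))) (a (b (a (l 16489928) (l 16505288)) (l 16504416)) (b (a (l 16538688) (l 16584512)) (a (l 16505256) (l 16549288))))))), by decide +kernel⟩

def k1_pm_102 : ∃ t, chk3 f_pm_102 t 6 8 1 = true :=
  ⟨(a (b (l 3) (a (b (l 3) (b (a (l 356650043367) (b (l 413558406375) (l 297057349783))) (a (b (b (l 16751512) (l 16724016)) (l 16715288)) (b (l 16749336) (l 16760104))))) (b (b (l 3) (a (l 410874131095) (b (l 3) (l 293836194663)))) (b (a (b (a (l 16808552) (l 16813016)) (l 16797680)) (b (l 16794968) (l 16804104))) (a (b (l 16786576) (l 16775768)) (l 16785248)))))) (b (b (l 3) (a (l 3) (b (l 3) (a (l 3) (a (l 3) (l 100562758823)))))) (b (a (b (a (l 3) (l 174650897639)) (a (b (l 16840528) (l 16828360)) (b (l 16840688) (l 16827672)))) (a (b (l 16859832) (b (l 16798208) (l 16829392))) (b (b (l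 16840808) (l 16849728)) (l 16832696)))) (a (b (a (l 16811296) (l 16810192)) (l 16762704)) (a (b (l 16809688) (l 16785176)) (l 16752856)))))), by decide +kernel⟩

def k2_pm_102 : ∃ t, chk3 f_pm_102 t 7 8 1 = true :=
  ⟨(a (b (b (a (l 3) (a (l 3) (a (l 3) (b (l 3) (l 174650896775))))) (b (a (a (l 3) (l 88214704199)) (a (b (l 16832256) (a (l 16829208) (l 16777408))) (a (b (l 16819288) (b (l 16812488) (l 16809936))) (c (b (b (l 16811800) (l 16807760)) (l 16802872)) (l 16828944))))) (a (a (b (l 16860752) (l 16852704)) (b (a (l 16842704) (l 16830744)) (a (l 16834072) (l 16824152)))) (a (a (b (b (l 16801280) (l 16820008)) (l 16792680)) (b (l 16791680) (l 16805272))) (b (a (l 16803848) (l 16796512)) (l 16792128)))))) (a (b (b (a (a (b (l 16850256) (l 16844792)) (l 16836128)) (l 16817520)) (a (l 16823504) (l 16802440))) (a (l 16788328) (l 16711784))) (b (a (b (l 16797352) (l 16780928)) (b (l 16779864) (l 16763496))) (a (l 16756144) (l 16741024))))) (b (a (a (b (b (l 3) (a (b (l 3) (l 16811064))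 (b (l 129553748759) (b (l 132774899111) (c (l 16779256) (l 16780616)))))) (b (b (a (b (a (l 16806584) (l 16803784)) (l 16801688)) (l 16774792)) (l 16792272)) (l 16780064))) (b (b (l 6) (a (b (l 6) (b (l 6) (l 16793696))) (l 6))) (b (b (l 16763216) (l 16776392)) (l 16764752)))) (b (l 6) (a (b (l 6) (l 16754880)) (l 6)))) (a (b (a (l 16777440) (l 16769752)) (a (l 16737960) (l 16726600))) (a (b (b (l 16741984) (l 16729008)) (l 16709592)) (b (a (l 16722888) (l 6)) (a (l 16696200) (l 16686720))))))), by decide +kernel⟩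

def k3_pm_102 : ∃ t, chk3 f_pm_102 t 3 9 1 = true :=
  ⟨(a (b (a (a (b (b (a (a (l 16715080) (l 16727544)) (l 16742448)) (l 16707912)) (l 16672504)) (b (b (l 16757504) (l 16733688)) (l 16697312))) (a (b (b (l 16759968) (l 16735216)) (l 16699616)) (b (a (l 16747608) (l 16745336)) (l 16700976)))) (a (a (b (l 16629752) (l 16592992)) (b (l 16654128) (l 16619040))) (a (b (l 16659408) (l 16628640)) (b (l 16665632) (l 16642592))))) (a (b (a (b (a (l 16739704) (l 16733552)) (l 16677040)) (b (a (l 16726376) (l 16728088)) (l 16712504))) (a (b (l 16679352) (l 16669000)) (b (l 16688296) (l 16661984)))) (a (b (a (l 16707720) (l 16732208)) (b (l 16726704) (l 16660072))) (b (a (b (l 16684008) (l 16658992)) (b (l 16664816) (l 16638680))) (a (l 16623360) (l 16643272)))))), by decide +kernel⟩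

def k4_pm_102 : ∃ t, chk3 f_pm_102 t 1 5 1 = true :=
  ⟨(a (a (b (b (b (a (l 2) (l 16486424)) (l 2)) (l 2)) (l 2)) (b (b (b (a (a (l 16471304) (l 16464768)) (l 16501088)) (b (a (l 16496488) (l 16503776)) (a (b (l 16508784) (b (l 16517016) (l 16504680))) (b (l 16522272) (b (l 16534000) (l 16545256)))))) (a (l 16542360) (l 16563912))) (a (l 16625080) (a (l 16571416) (l 16581056))))) (a (b (b (b (a (a (l 16565472) (l 16594120)) (a (l 16610000) (l 16641672))) (b (a (a (l 16552656) (l 16583736)) (l 16627888)) (a (b (a (l 16550816) (l 16584768)) (b (a (l 16562424) (l 16594680)) (a (l 16575440) (l 16602320)))) (a (l 16627344) (l 16639496))))) (a (a (l 16591960) (l 16608888)) (a (l 16620424) (l 16622568)))) (a (a (l 16592128) (l 16597992)) (a (l 16597032) (l 16590104)))) (b (a (b (b (a (l 16651024) (l 16637224)) (a (b (l 16637240) (l 16653272)) (b (l 16620048) (l 16675056)))) (a (l 16609536) (l 16586616))) (b (a (b (l 16613728) (b (l 16594952) (b (l 16586368) (l 16582312)))) (b (a (l 16589064)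 (l 16566352)) (b (l 16560688) (b (l 16552448) (a (l 16557816) (l 16538464)))))) (a (b (l 16567760) (l 16549344)) (b (l 16553520) (l 16513496))))) (a (a (l 16571056) (l 16545120)) (a (b (l 16528120) (l 16505200)) (b (l 16492744) (l 16470592))))))), by decide +kernel⟩

def k5_pm_102 : ∃ t, chk3 f_pm_102 t 1 3 1 = true :=
  ⟨(a (a (l 2) (b (a (l 2) (b (l 16573360) (l 2))) (l 2))) (a (b (a (b (l 16639824) (l 16575304)) (b (l 16566152) (l 16558136))) (a (l 2) (b (l 16573504) (l 2)))) (b (a (b (a (l 16537416) (l 16510488)) (l 16534608)) (b (a (l 16481752) (l 16448592)) (a (l 16470552) (l 16439008)))) (a (b (l 16526208) (l 16561664)) (b (l 16468032) (l 16502016)))))), by decide +kernel⟩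

theorem s6_pm_102 : ∃ t, chk3 f_pm_102 t 3 8 1 = true := ex3_a k1_pm_102 k2_pm_102

theorem s7_pm_102 : ∃ t, chk3 f_pm_102 t 3 4 1 = true := ex3_b s6_pm_102 k3_pm_102

theorem s8_pm_102 : ∃ t, chk3 f_pm_102 t 1 4 1 = true := ex3_a k0_pm_102 s7_pm_102

theorem s9_pm_102 : ∃ t, chk3 f_pm_102 t 1 2 1 = true := ex3_b s8_pm_102 k4_pm_102

theorem s10_pm_102 : ∃ t, chk3 f_pm_102 t 1 1 1 = true := ex3_b s9_pm_102 k5_pm_102

theorem c_pm_102 : CertB 536870912 536870912 0 536870912 697932185 42949674 3 eng mog cd0q1 cd3q0 pd2 true true false .npp 1 0 2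
    ndB0q1 ndB3q0 pcB2 cut_pm_102 Ext.none :=
  certB1 (fam := true) (s1 := true) (s2 := false) (a := 1) (b := 0) (c := 2) (cn := .npp) (n1 := ndB0q1) (n2 := ndB3q0) (pc := pcB2) (cut := cut_pm_102) (xt := Ext.none) (P1 := 536870912) (W1 := 536870912) (P2 := 0) (W2 := 536870912) (P3 := 697932185) (W3 := 42949674) (N0 := 3) (En := eng) (mo := mog) (C1 := cd0q1) (C2 := cd3q0) (C3 := pd2)
    rfl (fun _ => rfl) s10_pm_102

noncomputable def f_pm_112 : ℕ → ℕ → ℕ → ℕ → Bool := onCell 536870912 536870912 1073741824 536870912 697932185 42949674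
    (rowB 3 eng mog cd0q1 cd3q1 pd2 1 true true false .dn 1 1 2 (qsf 536870912 536870912 536870912 536870912 2) ndB0q1 ndB3q1 pcB2 Cut.none Ext.none)

def k0_pm_112 : ∃ t, chk3 f_pm_112 t 1 2 1 = true :=
  ⟨(b (a (b (a (l 3) (l 1)) (a (b (b (l 3) (a (a (l 3) (b (l 3) (l 16448248))) (a (b (l 16434816) (l 16431896)) (b (l 1) (l 16444200))))) (a (b (a (b (l 16480728) (l 16532472)) (b (l 16465648) (l 16476800))) (a (b (l 16496088) (l 16496456)) (b (l 16484728) (l 16489176)))) (a (b (b (l 16446784) (l 16461992)) (b (l 16471880) (l 16478696))) (b (l 72510451895) (l 16463016))))) (b (l 1) (a (b (l 1) (l 275447653111)) (l 1))))) (l 1)) (a (a (b (b (b (a (b (a (l 16496608) (l 16491920)) (l 16495816)) (a (l 16488840) (l 16482192))) (b (a (l 16497840) (l 16497088)) (b (a (l 16499736) (l 16502848)) (a (b (l 16543848) (a (l 16501072) (l 16506264))) (b (l 16505376) (l 16509344)))))) (a (l 16518272) (l 16512296))) (a (a (l 16453992) (l 16473664)) (l 16500152))) (a (b (b (b (a (l 16475936) (l 1)) (b (l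 16488816) (b (l 16496504) (b (l 16502368) (l 16509024))))) (l 16519968)) (l 16527104)) (b (b (l 1) (l 16523240)) (a (l 16539912) (l 16543536))))) (a (b (l 1) (a (a (l 16541872) (l 1)) (l 1))) (l 1)))), by decide +kernel⟩

def k1_pm_112 : ∃ t, chk3 f_pm_112 t 1 3 1 = true :=
  ⟨(a (a (b (a (b (a (b (l 16402520) (l 16357848)) (l 16411560)) (a (b (a (l 16299872) (l 16319392)) (a (l 16257440) (l 16274872))) (b (l 16349048) (b (l 16315880) (l 16294248))))) (b (b (l 16469040) (l 16438376)) (a (b (l 16386792) (l 16348840)) (l 16407048)))) (a (a (a (b (b (l 16240312) (l 16180112)) (b (l 16141096) (l 16102768))) (b (c (b (l 16268568) (l 16233256)) (l 16187344)) (c (b (l 16197704) (l 16162704)) (l 16108888)))) (b (b (b (c (l 16304920) (l 16244496)) (l 16256680)) (c (l 16307272) (l 16198488))) (c (a (b (c (l 16238728) (l 16202920)) (b (l 16194968) (l 16177992))) (b (l 16246248) (l 16215104))) (a (l 16131256) (l 16156480))))) (b (b (a (b (l 16319360) (a (l 16287304) (l 16311976))) (l 16358760)) (a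 (c (a (l 16297768) (l 16320832)) (l 16242128)) (b (l 16333816) (a (l 16303632) (l 16331696))))) (a (b (a (l 16318968) (l 16260328)) (c (a (l 16245208) (l 16275592)) (l 16180784))) (b (a (l 16285648) (b (l 16317376) (l 16306784))) (c (l 16321448) (l 16238568))))))) (b (a (b (l 16503336) (a (l 16443640) (l 16477400))) (b (l 16536840) (l 16516784))) (a (b (a (b (l 16406200) (l 16381368)) (l 16442296)) (a (b (a (l 16341584) (l 16372872)) (a (l 16324480) (l 16356056))) (b (l 16419520) (a (l 16389960) (l 16423272))))) (b (a (l 16482112) (l 16512840)) (a (l 16466936) (l 16511632)))))) (a (b (a (b (l 16566384) (l 16545040)) (b (l 218003029191) (l 16537592))) (a (b (l 16547960) (a (l 16550032) (l 16580584))) (b (l 16558416) (l 16598776)))) (b (a (b (l 1) (l 261489519959)) (l 1)) (a (b (l 16523720) (l 16570520)) (b (l 313029100791) (l 16521744)))))), by decide +kernel⟩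

theorem s2_pm_112 : ∃ t, chk3 f_pm_112 t 1 1 1 = true := ex3_b k0_pm_112 k1_pm_112

theorem c_pm_112 : CertB 536870912 536870912 536870912 536870912 697932185 42949674 3 eng mog cd0q1 cd3q1 pd2 true true false .dn 1 1 2
    ndB0q1 ndB3q1 pcB2 Cut.none Ext.none :=
  certB1 (fam := true) (s1 := true) (s2 := false) (a := 1) (b := 1) (c := 2) (cn := .dn) (n1 := ndB0q1) (n2 := ndB3q1) (pc := pcB2) (cut := Cut.none) (xt := Ext.none) (P1 := 536870912) (W1 := 536870912) (P2 := 536870912) (W2 := 536870912) (P3 := 697932185) (W3 := 42949674) (N0 := 3) (En := eng) (mo := mog) (C1 := cd0q1) (C2 := cd3q1) (C3 := pd2)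
    rfl (fun _ => rfl) s2_pm_112

noncomputable def f_pm_113 : ℕ → ℕ → ℕ → ℕ → Bool := onCell 536870912 536870912 1610612736 536870912 697932185 42949674
    (rowB 3 eng mog cd0q1 cd3q1 pd3 1 true true false .nn 1 1 3 (qsf 536870912 536870912 536870912 536870912 3) ndB0q1 ndB3q1 pcB3 Cut.none Ext.none)

def k0_pm_113 : ∃ t, chk3 f_pm_113 t 2 1 1 = true :=
  ⟨(a (b (b (a (b (a (b (l 16097272) (l 16058512)) (b (b (l 16161896) (l 16143384)) (l 16116096))) (a (l 2) (a (l 2) (l 16119960)))) (b (a (b (l 16208752) (l 16175384)) (b (l 16265216) (l 16236216))) (a (b (l 16141848) (l 16108280)) (b (l 16206072) (l 16175216))))) (a (l 2) (a (l 2) (b (b (l 16144240) (l 2)) (l 2))))) (l 2)) (a (b (b (b (a (b (l 16322624) (l 16299200)) (b (a (l 16366976) (l 16398288)) (l 16365888))) (a (c (l 16347080) (l 16217488)) (b (l 16347968) (l 16327664)))) (b (a (b (l 16219936) (l 16208768)) (b (a (l 16283888) (l 16328768)) (l 16306560))) (b (b (a (l 2) (c (l 16310496) (l 16255016))) (l 2)) (l 2)))) (l 2)) (a (b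 (b (b (b (l 16447888) (l 16432888)) (b (l 16421584) (l 16407768))) (b (b (b (l 16394088) (l 16381200)) (l 16362328)) (b (b (b (l 16473592) (l 16347216)) (l 16321896)) (l 16281968)))) (l 2)) (b (b (b (b (l 16512368) (l 16502640)) (b (l 16494864) (l 16479992))) (b (b (b (l 16443280) (l 16436416)) (a (l 16396976) (l 16396208))) (b (b (b (a (l 16376696) (l 16393592)) (l 16395520)) (b (l 16428368) (l 16404096))) (a (l 16355760) (l 16386440))))) (b (b (b (l 158476912759) (l 2)) (l 2)) (l 2)))))), by decide +kernel⟩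

def k1_pm_113 : ∃ t, chk3 f_pm_113 t 3 1 1 = true :=
  ⟨(b (b (a (a (b (a (l 16570280) (l 16626560)) (a (b (l 16570264) (l 16520360)) (l 16616808))) (b (l 16678064) (l 16721696))) (a (b (l 16661592) (l 16811216)) (b (l 16602560) (l 16850536)))) (b (a (b (a (a (b (l 16482056) (l 16480232)) (b (l 16532976) (l 16533896))) (b (l 16645944) (a (l 16607216) (l 16685392)))) (a (a (a (l 16413768) (l 16431064)) (b (l 16505832) (l 16472168))) (a (b (l 16570080) (l 16528888)) (b (l 16640264) (l 16591816))))) (b (a (b (l 16815024) (l 16810864)) (l 16964512)) (a (a (l 16703536) (l 16788168)) (l 16895616)))) (a (b (a (b (a (b (a (l 16408200) (l 16422856)) (l 16433712)) (c (c (l 16519680) (l 16486248)) (l 16413856))) (a (b (l 16497024) (l 16456144)) (b (l 16511720) (l 16516368)))) (b (b (a (l 16511168) (l 16530016)) (a (l 16543808) (l 16603656))) (b (a (l 16579800) (l 16636088)) (l 16593144)))) (a (a (l 16446888) (l 16487712)) (a (l 16557296) (l 16609976)))) (b (a (b (a (l 16650664) (l 16753168)) (a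 (l 16697456) (l 16759296))) (b (l 16854496) (l 16792024))) (a (l 16670248) (l 16792792)))))) (b (a (b (a (a (b (l 16379648) (l 16336472)) (b (l 16444072) (l 16402744))) (b (b (l 16550568) (l 16530512)) (l 16546808))) (a (a (l 2) (b (l 16427760) (l 2))) (b (l 16688760) (a (l 16432336) (l 16570288))))) (b (a (b (l 16627680) (l 16831456)) (b (l 16744408) (l 16710512))) (a (b (a (l 16577016) (l 16631464)) (a (l 16570256) (l 16625328))) (b (l 16689232) (l 16676648))))) (b (a (a (l 2) (b (a (l 2) (l 16516080)) (l 2))) (b (a (a (l 16576600) (l 16623416)) (b (l 16664968) (l 16652384))) (a (a (l 16582544) (l 16593624)) (l 4)))) (a (l 2) (a (a (l 2) (l 4)) (l 4)))))), by decide +kernel⟩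

theorem s2_pm_113 : ∃ t, chk3 f_pm_113 t 1 1 1 = true := ex3_a k0_pm_113 k1_pm_113

theorem c_pm_113 : CertB 536870912 536870912 536870912 536870912 697932185 42949674 3 eng mog cd0q1 cd3q1 pd3 true true false .nn 1 1 3
    ndB0q1 ndB3q1 pcB3 Cut.none Ext.none :=
  certB1 (fam := true) (s1 := true) (s2 := false) (a := 1) (b := 1) (c := 3) (cn := .nn) (n1 := ndB0q1) (n2 := ndB3q1) (pc := pcB3) (cut := Cut.none) (xt := Ext.none) (P1 := 536870912) (W1 := 536870912) (P2 := 536870912) (W2 := 536870912) (P3 := 697932185) (W3 := 42949674) (N0 := 3) (En := eng) (mo := mog) (C1 := cd0q1) (C2 := cd3q1) (C3 := pd3)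
    rfl (fun _ => rfl) s2_pm_113

noncomputable def cut_pm_123_a : Cut := Cut.of [[⟨0, 1, 0, 67108864⟩, ⟨1, 1, 0, 67108864⟩, ⟨2, 2, 0, 16777216⟩], [⟨0, 0, 1, 20971520⟩, ⟨1, 1, 0, 33554432⟩, ⟨2, 1, 1, 20971520⟩]]

noncomputable def xt_pm_123_a : Ext := extD2 3 ⟨7, 3, 3, 10, 49, 25, 3, 4, 67, 200, 3, 16⟩ eng cd0q1 cd3q2a pd3 true true false .npn 1 2 3 rfl ndB0q1 ndB3q2a pcB3

noncomputable def f_pm_123_a : ℕ → ℕ → ℕ → ℕ → Bool := onCell 1610612736 536870912 0 536870912 697932185 42949674
    (rowB 3 eng mog cd0q1 cd3q2a pd3 2 true true false .npn 1 2 3 (qsf 536870912 536870912 0 536870912 3) ndB0q1 ndB3q2a pcB3 cut_pm_123_a xt_pm_123_a)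

def k0_pm_123_a : ∃ t, chk3 f_pm_123_a t 4 2 1 = true :=
  ⟨(a (l 1) (b (l 1) (a (l 1) (l 16528952)))), by decide +kernel⟩

def k1_pm_123_a : ∃ t, chk3 f_pm_123_a t 4 6 1 = true :=
  ⟨(a (l 1) (b (a (l 1) (l 16505632)) (a (l 16445448) (l 16488448)))), by decide +kernel⟩

def k2_pm_123_a : ∃ t, chk3 f_pm_123_a t 8 7 1 = true :=
  ⟨(b (a (l 1) (b (l 16402952) (l 16415536))) (b (a (a (l 1) (b (l 16372416) (l 16367096))) (b (a (l 16381504) (l 16392960)) (a (l 16375968) (l 16429560)))) (a (b (a (c (l 16366952) (l 16342896)) (b (l 16362808) (c (l 140793047226662927) (l 16345952)))) (c (a (c (l 140757656685969423) (a (l 140545450909777935) (l 140724533872705551))) (b (l 140878740409090063) (l 140939900737945615))) (c (a (b (l 16343336) (a (l 140784663377461263) (l 140788305514610703))) (a (l 140518169261539343) (l 140479617642364943))) (a (b (l 16330728) (a (l 16325480) (l 140853039233466383))) (b (l 140942305849999375) (a (l 140863003562049551) (l 140872693014003727))))))) (c (a (a (b (l 140848916179337231)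 (b (l 140699932346384399) (b (l 140688318750982159) (l 140858468172759055)))) (b (l 140856818931236879) (b (l 141010681832456207) (b (l 140899356276572175) (l 141058922899177487))))) (a (b (a (l 141024494464401423) (l 141091083644551183)) (b (l 140946085538398223) (l 141263088480272399))) (b (l 141296005135859727) (b (l 140969931212783631) (l 140747005226434575))))) (b (a (a (l 16353176) (l 16357584)) (b (l 16367328) (a (l 16360960) (l 16367088)))) (a (a (a (c (l 140844449350729743) (l 140920865376927759)) (b (l 140935708808019983) (c (l 140610322094505999) (l 140515489183170575)))) (a (b (c (l 140896195130032143) (l 140973504508608527)) (c (l 140727351368613903) (b (l 140520574431035407) (l 140771469236305935)))) (b (b (l 16354200) (l 140683577055707151)) (l 140655058467143695)))) (a (b (l 140914130910527503) (l 140787687066025999)) (b (l 140666878246191119) (l 141138225130258447))))))))), by decide +kernel⟩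

def k3_pm_123_a : ∃ t, chk3 f_pm_123_a t 9 7 1 = true :=
  ⟨(b (a (b (l 16432672) (a (l 16414976) (l 16432440))) (b (l 16474552) (l 16465792))) (b (a (b (a (l 16407360) (l 16425224)) (a (l 16402312) (l 16421016))) (b (l 16460392) (a (l 16444128) (l 16472192)))) (a (b (b (a (c (l 16416728) (l 16381112)) (a (l 16412840) (l 16423600))) (a (c (l 141426709605629967) (l 141100429454278671)) (a (l 140871593663873039) (l 140930554997506063)))) (b (a (c (a (l 140825620329611279) (l 140874205019750415)) (l 141396816551264271)) (c (a (l 140936258729574415) (l 141012537373442063)) (a (l 140715600406380559) (l 140759924490453007)))) (a (c (a (l 140784045042892815) (c (l 140893171613876239) (l 140777722850590735))) (a (l 140600976276553743) (l 140617950004854799))) (c (a (c (l 140965120929693711) (l 140834485160558607)) (c (l 141051913654927375) (l 140906365757833231))) (a (l 140649423545024527) (c (l 140765215907758095) (l 140628189226795023))))))) (a (a (b (c (l 141149083002732559) (l 140907190359572495))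 (c (b (l 141103934304714767) (b (l 141081256876802063) (c (l 141148670706941967) (l 140984705988165647)))) (b (l 140819641739804687) (c (l 140836821628108815) (l 140682271478874127))))) (b (c (l 141251062735028239) (l 140978864799498255)) (c (b (l 141211342876721167) (a (c (l 141241923060072463) (l 141070811514994703)) (b (l 141222338001059855) (c (l 141301640302133263) (l 141119671078535183))))) (b (l 140895782946717711) (c (b (l 140937564409823247) (l 140913375152914447)) (l 140753533602824207)))))) (a (b (c (l 141368916669169679) (l 141066688319160335)) (c (b (l 141335656442855439) (b (c (l 141412759721181199) (l 141227835559788559)) (c (a (l 141550748422586383) (b (l 141445401482493967) (l 141623178769432591))) (a (l 141181587343589391) (l 141248176533815311))))) (b (l 140989310184030223) (a (b (l 140924507707817999) (l 141078233176064015)) (c (l 141061809262624783) (l 140868432605151247)))))) (b (b (l 16479064) (l 141861635304112143)) (b (c (l 141477974514892815) (l 141101185524613135))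 (c (a (b (l 141428496483581967) (b (l 141603112674689039) (c (c (l 141572876144345103) (l 141470758975995919)) (l 141316896028770319)))) (b (l 141506699267129359) (c (b (l 141606205096427535) (c (b (l 141658019595681807) (l 141838408222621711)) (l 141552878770225167))) (a (l 141376407109533711) (l 141415920818307087))))) (c (b (l 141167293685465103) (a (l 141115135593512975) (l 141183855088271375))) (a (l 140922858446946319) (l 140982300811329551))))))))))), by decide +kernel⟩

def k4_pm_123_a : ∃ t, chk3 f_pm_123_a t 10 2 1 = true :=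
  ⟨(a (b (a (l 1) (l 16593912)) (a (l 16566344) (l 16648424))) (b (a (l 16624984) (l 16656128)) (a (b (l 16604976) (l 16590992)) (b (l 16641728) (l 16632192))))), by decide +kernel⟩

def k5_pm_123_a : ∃ t, chk3 f_pm_123_a t 10 6 1 = true :=
  ⟨(a (a (b (l 16540688) (l 16522736)) (b (l 16542032) (l 16528616))) (b (a (l 16574472) (l 16616272)) (a (l 16560792) (l 16602040)))), by decide +kernel⟩

def k6_pm_123_a : ∃ t, chk3 f_pm_123_a t 20 14 1 = true :=
  ⟨(a (b (l 16510880) (l 16505464)) (b (l 16521800) (l 16520944))), by decide +kernel⟩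

def k7_pm_123_a : ∃ t, chk3 f_pm_123_a t 20 30 1 = true :=
  ⟨(a (a (a (l 16493232) (l 16500832)) (l 16508304)) (a (b (l 16516808) (l 16518880)) (a (l 16525552) (l 16534464)))), by decide +kernel⟩

def k8_pm_123_a : ∃ t, chk3 f_pm_123_a t 20 62 1 = true :=
  ⟨(a (a (b (l 16496016) (c (l 141645993671409679) (l 141269548278497295))) (b (l 16509312) (a (l 141541059003138063) (l 141950970695401487)))) (a (b (l 16521520) (b (l 16523216) (l 141856275278741519))) (b (l 16536000) (l 141811057893933071)))), by decide +kernel⟩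

def k9_pm_123_a : ∃ t, chk3 f_pm_123_a t 40 63 1 = true :=
  ⟨(a (b (c (a (l 141597065396944911) (l 141675405619249167)) (a (l 141197736415821839) (l 141260683473649679))) (b (a (c (l 141589918573297679) (l 141166743931158543)) (c (a (l 141654514896633871) (l 141689905435623439)) (a (l 141219932820078607) (l 141248039093616655)))) (a (c (b (c (l 141693959888633871) (l 141479348909883407)) (c (a (c (l 141725364698628111) (l 141617681251991567)) (b (l 141717255797309455) (a (l 141705985801027599) (b (l 141729212989358095) (a (l 141858749201956879) (l 141735535182856207)))))) (a (l 141454747332788239) (b (l 141497971893600271) (a (l 141485602385559567) (l 141597546418290703)))))) (b (l 141151556926586895) (a (l 141393793077280783) (a (l 141150869734096911) (b (l 141171897898778639) (l 141347957198176271)))))) (a (c (b (c (l 141762473222651919) (l 141542983160446991)) (c (a (b (l 141752577616396303) (l 141753402250723343)) (b (l 141774636573442063) (l 141955849834250255))) (b (l 141541608771452943)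 (l 141541059016032271)))) (b (c (l 141319919685451791) (l 141093145358712847)) (c (b (l 141315933955997711) (l 141313872371859471)) (l 141084761582370831)))) (c (b (l 141690661351440399) (c (b (l 141803292601843727) (c (l 141860673379287055) (l 141748660604928015))) (l 141578923456217103))) (b (l 141238968122900495) (l 141234363918188559))))))) (b (b (c (l 141770582116827151) (l 141340879123480591)) (a (c (l 141739795785711631) (l 141302258771148815)) (l 141586482595348495))) (b (a (c (b (l 141741719932829711) (l 141743781518442511)) (l 141292638045044751)) (c (l 141816624180248591) (l 141356890771013647))) (c (a (b (l 141746324140490767) (c (b (l 141862047767953423) (a (c (l 141990828077416463) (l 141787555837706255)) (c (a (l 141931454456528911) (l 141952207743238159)) (l 141827344423862287)))) (a (l 141615688384790543) (l 141833529134743567)))) (b (l 141823702289088527) (c (b (l 141943617805484047) (c (l 14) (a (l 141868163802349583) (b (l 141908983180754959) (l 141910769887723535)))))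 (b (l 141710727442776079) (a (l 141692860375154703) (l 141912900148789263)))))) (a (b (l 141287415365451791) (c (l 141401970761285647) (l 141165713145085967))) (c (a (l 141455778123530255) (l 141492268174131215)) (l 141234226478809103))))))), by decide +kernel⟩

def k10_pm_123_a : ∃ t, chk3 f_pm_123_a t 41 63 1 = true :=
  ⟨(b (a (c (l 141912006833946639) (l 141455709398663183)) (a (b (l 141787074793226255) (l 141801368449105935)) (l 141881495376412687))) (c (b (a (a (l 141893933609369615) (l 141974816451969039)) (a (l 142060440939413519) (l 142154930241126415))) (a (a (b (l 141904722570690575) (c (a (c (l 14) (c (l 14) (l 142011031605952527))) (l 14)) (b (l 141791197968433167) (c (a (l 141833529176752143) (l 141875997823025167)) (a (l 141713476222353423) (l 141754707917783055)))))) (b (l 141989591143743503) (c (l 14) (b (l 141875516785541135) (c (a (b (l 141918329030180879) (l 142010756727095311)) (l 14)) (a (l 141796901686083599) (l 141840126246731791))))))) (c (l 14) (c (l 14) (a (b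 (l 141893727449825295) (a (a (l 141870706420613135) (a (l 141887336537735183) (l 141988560329490447))) (c (l 14) (l 141895445437497359)))) (b (l 141985880288854031) (l 14))))))) (a (b (l 141639877600264207) (a (b (l 141426091301879823) (c (a (l 141530888529461263) (l 141569921201192975)) (l 141303976764522511))) (b (l 141500858109820943) (c (a (l 141609847226302479) (l 141830917792268303)) (l 141378743572430863))))) (b (a (l 141571364307746831) (l 141656164161290255)) (a (a (b (l 141559407117402127) (c (a (l 141682140132261903) (a (l 141698014334992399) (l 141708734575788047))) (l 141617475048013839))) (b (l 141600844971294735) (c (a (l 141725089814937615) (l 141927331239952399)) (l 141478043238973455)))) (b (l 141665784891506703) (c (b (l 141801162292625423) (c (a (l 141847754109222927) (l 141984299719901199)) (a (l 141717942987522063) (l 141763022974402575)))) (a (l 141519962129285135) (l 141562980531437583))))))))), by decide +kernel⟩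

def k11_pm_123_a : ∃ t, chk3 f_pm_123_a t 42 7 1 = true :=
  ⟨(b (b (l 16554304) (l 16553944)) (b (b (l 16556768) (c (l 16585736) (l 16536024))) (c (b (a (l 142202003088310287) (l 142392218642792463)) (a (b (l 142265774780219407) (l 14)) (a (l 14) (c (b (l 142542576887955471) (b (l 142567728221978767) (b (l 142401083493859471) (b (l 142408024162549903) (c (a (a (l 14) (l 142579479264608399)) (a (l 142640158565335183) (l 142655689169830031))) (l 14)))))) (l 14))))) (b (a (l 141750378577625103) (l 141938532547313679)) (b (a (l 141774224246407183) (l 141967944494661647)) (b (a (a (l 141745774379155471) (l 141839782644367375)) (a (l 141938188956991503) (l 142041268194934799))) (a (a (b (l 141756151023714319) (c (b (l 141894620801908751) (c (l 14) (a (l 141809202473107471) (l 141856550203146255)))) (a (l 141607029725937679) (a (l 141640839716077583) (l 141663654587465743))))) (b (l 142031097671319567) (c (a (c (l 14) (a (l 141890428912533519) (l 142004984285708303))) (l 14)) (b (l 141720485607194639)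 (c (a (l 141768657971920911) (l 141816830335844367)) (l 141654514894979087)))))) (c (l 14) (b (a (l 141812501006368783) (l 141913793537523727)) (a (b (l 141817448810446863) (c (a (l 142046284679610383) (b (l 141915580245721103) (l 14))) (a (l 141725914447200271) (l 141774980164485135)))) (b (l 141919084939034639) (c (l 14) (a (l 141825214113103887) (b (l 141875791659040783) (l 142057623395074063))))))))))))))), by decide +kernel⟩

def k12_pm_123_a : ∃ t, chk3 f_pm_123_a t 43 7 1 = true :=
  ⟨(b (b (l 16595072) (l 16595456)) (b (b (l 16599320) (c (l 16619672) (l 16579880))) (b (a (b (l 16599088) (l 142401839367520271)) (b (l 16616552) (l 142549998587281423))) (c (b (a (a (l 142533780791640079) (l 142419981349961743)) (l 142518937414123535)) (b (a (a (l 142375176244183055) (l 142439497685827727)) (a (l 142323499220500623) (l 142386240113950863))) (a (b (a (b (l 142384796973105167) (l 142411460131012623)) (b (l 142268180032340111) (l 142361844679950479))) (c (a (a (b (l 142635279480455311)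 (c (a (l 142671151054848143) (l 142686544220356751)) (l 14))) (c (a (l 142699463484162191) (l 142714719210684559)) (c (a (l 142641395514605711) (l 142656857399607439)) (l 14)))) (a (b (l 142697058300985487) (c (l 142739733104754831) (a (l 142655001973063823) (l 142670395138556047)))) (c (l 142767564497649807) (a (l 142683726719320207) (l 142698982445842575))))) (c (a (l 14) (a (l 14) (a (l 14) (c (l 142641532951789711) (l 14))))) (l 14)))) (b (a (l 142422523945648271) (l 142393455660761231)) (b (a (a (l 142411803705639055) (l 142442177719730319)) (a (l 142427196922069135) (l 142411803764539535))) (a (c (a (c (l 142799244182126735) (l 142723377864507535)) (c (l 142828449964916879) (l 142753202122670223))) (c (a (a (l 142639196488843407) (l 142654452215382159)) (a (l 142669639222427791) (l 142684757509980303))) (l 14))) (a (b (c (l 142819241552396431) (l 142578654634197135)) (c (l 142730730866720911) (c (l 142707778538799247) (c (l 142650672642277519) (l 14))))) (c (l 142848790932668559)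 (c (l 142736846882553999) (a (l 142653833738338447) (l 142668814586921103))))))))))) (c (l 14) (a (b (l 142046834470092815) (b (l 142064357942984719) (b (a (l 142020033871970319) (l 14)) (l 14)))) (b (l 142277938120982543) (l 14)))))))), by decide +kernel⟩

def k13_pm_123_a : ∃ t, chk3 f_pm_123_a t 11 2 1 = true :=
  ⟨(a (a (b (a (l 16671496) (l 16659352)) (a (b (l 16659680) (l 16654280)) (b (l 16640104) (l 16629880)))) (b (a (l 16642528) (l 16643840)) (a (b (l 16611896) (l 16593944)) (l 16599184)))) (b (l 16677544) (b (l 16647448) (l 16628464)))), by decide +kernel⟩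

def k14_pm_123_a : ∃ t, chk3 f_pm_123_a t 11 6 1 = true :=
  ⟨(a (a (a (b (l 16640504) (a (l 16629632) (l 16625848))) (b (l 16618600) (l 16611816))) (b (a (l 16586696) (l 16581808)) (a (b (l 16587088) (l 16589464)) (l 16587504)))) (b (l 16621568) (b (l 16626368) (l 16633824)))), by decide +kernel⟩

def k15_pm_123_a : ∃ t, chk3 f_pm_123_a t 22 14 1 = true :=
  ⟨(a (a (b (l 16622784) (a (l 16624440) (l 16626472))) (b (l 16614832) (l 16617032))) (a (b (l 16594944) (l 16605392)) (b (l 16598768) (l 16613136)))), by decide +kernel⟩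

def k16_pm_123_a : ∃ t, chk3 f_pm_123_a t 22 30 1 = true :=
  ⟨(a (a (b (l 16605160) (a (l 16625992) (l 16627152))) (c (l 16615216) (a (l 16613776) (l 16610400)))) (a (b (l 16616544) (a (l 16604696) (l 16604616))) (b (l 16626680) (l 142637753399164943)))), by decide +kernel⟩

def k17_pm_123_a : ∃ t, chk3 f_pm_123_a t 44 62 1 = true :=
  ⟨(a (a (b (l 142654039893049359) (b (l 142476262564757519) (l 142478461588815887))) (b (l 16607912) (l 142517769135702031))) (b (l 142536804431478799) (b (l 142556458206412815) (b (l 142566422532882447) (l 142573157043175439))))), by decide +kernel⟩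

def k18_pm_123_a : ∃ t, chk3 f_pm_123_a t 44 126 1 = true :=
  ⟨(a (a (a (l 142466435721854991) (b (l 142496053821358095) (l 142498046644027407))) (a (l 142439978689413135) (l 142539621891178511))) (a (a (l 142470077784113167) (l 142400121360138255)) (a (l 142419981292208143) (l 142439497626845327)))), by decide +kernel⟩

def k19_pm_123_a : ∃ t, chk3 f_pm_123_a t 44 127 2 = true :=
  ⟨(a (a (a (b (l 142792715827069071) (b (l 142798488264589455) (b (l 142441078266822799) (c (l 142877240801050767) (b (l 142728394384556175) (c (l 142766533701795983) (l 142646412030804111))))))) (a (b (l 142815255819452559) (b (l 142460182198599823) (b (a (l 142819516428419215) (l 142466298319241359)) (c (a (l 142894832990208143) (l 142901773658587279)) (a (l 142747017366077583) (a (c (l 142789623450026127) (l 142715200231178383)) (l 142756088338612367))))))) (b (l 142828381241786511) (b (l 142834084959813775) (c (b (l 142909538960670863) (l 142912081581916303)) (c (l 142801237043560591) (b (l 142726813835395215)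 (l 142727775908380815)))))))) (b (c (l 142929742489567375) (l 142789348570333327)) (c (b (l 142938676023656591) (a (a (l 142924451089825935) (l 142937920109641871)) (a (l 142951389129441423) (l 142964720710287503)))) (b (a (l 142781926866043023) (l 142808521308192911)) (b (a (l 142784538206847119) (l 142811957282881679)) (a (a (c (l 142816080453238927) (l 142742069562065039)) (c (l 142830099228967055) (l 142756363215732879))) (c (l 142850921234088079) (a (l 142770450710970511) (l 142784538206175375))))))))) (a (b (c (l 142979014362955919) (l 142838414285209743)) (b (c (l 142990215640236175) (a (l 142834772152893583) (l 142860679400161423))) (c (a (a (l 142977914852147343) (l 142991108994007183)) (b (l 143008701183049871) (l 143012686913601679))) (a (c (l 142876828481290383) (a (l 142797251311534223) (l 142810926489813135))) (c (l 142903629081952399) (b (l 142829686910173327) (l 142833054154588303))))))) (b (c (l 143026980566073487) (l 142886174329798799)) (b (a (l 142844805219795087) (l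 142982381616595087)) (a (c (l 143036532576141455) (c (l 142930086085165199) (b (l 142856350071816335) (l 142860267082907791)))) (a (c (l 143055636594032783) (l 142914074443399311)) (c (l 143068280979996751) (l 142927199865766031)))))))), by decide +kernel⟩

def k20_pm_123_a : ∃ t, chk3 f_pm_123_a t 44 127 3 = true :=
  ⟨(c (a (a (a (l 14) (b (l 142428502520348815) (b (l 142427952764764303) (c (c (c (a (a (l 142662561112408207) (b (l 142669776658677903) (b (l 142669982817239183) (l 142670188975751311)))) (l 142680771776938127)) (a (l 14) (l 142662011356119183))) (l 14)) (l 14))))) (b (l 142466298282000527) (b (a (l 142635691790696591) (l 142662767269249167)) (a (c (b (l 142673762388459663) (a (a (l 142663798062694543) (l 142671013609029775)) (a (l 142678297874841743) (l 142685513421176975)))) (l 14)) (c (a (b (l 142694859271520399) (a (l 142692728967512207) (l 142699875794354319))) (a (l 142706197987246223) (l 142713207375118479))) (a (l 14) (b (l 142634660997841039) (c (l 142654727089094799)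 (l 14))))))))) (a (b (l 142695271586857103) (b (a (l 142689499150368911) (l 142715887434039439)) (a (c (b (l 142729562613366927) (a (l 142724820968816783) (l 142738977183514767))) (b (l 142655689161408655) (a (c (l 142669089462272143) (l 14)) (a (l 142661255440187535) (l 142668402267029647))))) (c (a (b (l 142750109740515471) (l 142752995959242895)) (l 142765296747659407)) (b (l 142683451834892431) (a (a (l 142675549093871759) (l 142682695920713871)) (a (l 142689774028062863) (l 142696852135428239)))))))) (b (l 142742619314454671) (a (b (l 142741863400784015) (a (c (l 142778971925938319) (a (l 142702280974925967) (l 142709152923828367))) (c (l 142792578384724111) (b (l 142717605420826767) (l 142721453712441487))))) (b (l 142767564489572495) (b (l 142774298999832719) (a (c (l 142808246428303503) (l 142735403768676495)) (c (l 142821852887105679) (l 142749216385941647))))))))) (c (a (l 14) (a (l 14) (b (l 142633217886175375) (b (l 142644900199956623) (a (b (l 142637066178576527) (c (a (l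 142651978308206735) (l 142666134522921103)) (l 14))) (b (l 142664485254611087) (a (a (l 142658300500869263) (l 142665378608218255)) (a (l 142672387996090511) (l 142679466103439503))))))))) (l 14))), by decide +kernel⟩

def k21_pm_123_a : ∃ t, chk3 f_pm_123_a t 90 31 1 = true :=
  ⟨(b (b (a (l 142744268577996815) (l 142583602443943951)) (c (a (l 142930910715265167) (l 142965614056702095)) (l 142492411634647055))) (b (a (a (l 142458670364033167) (l 142477568223264911)) (a (l 142496122485063759) (c (l 143024850258182223) (b (l 142713825844232335) (l 142744406018064527))))) (a (c (b (c (l 143073709818380367) (l 142932628704100495)) (b (c (l 143089171704102991) (l 142948709065261199)) (c (a (c (l 143121813462778063) (l 143052269338132623)) (l 143111986574885071)) (a (a (l 142940187849162895) (l 142953107113066639)) (a (l 142965957657477263) (l 142978670762934415)))))) (b (c (l 142788661371781263) (a (l 142630606544781455) (l 142653077817491599))) (a (b (l 142359851759878287) (b (c (l 142800756003029135)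 (c (l 142691492013736079) (l 142617824720470159))) (c (c (l 142842125136314511) (a (l 142763029003206799) (l 142776704181485711))) (c (a (a (l 142686406771818639) (l 142693416159690895)) (a (l 142700356828070031) (l 142707297496432783))) (a (l 14) (c (l 142648817210507407) (l 14))))))) (b (l 142385003082006671) (b (c (l 142826938128269455) (c (l 142718223894872207) (l 142644900199071887))) (c (c (l 142868788298006671) (a (l 142790241920811151) (l 142803779660103823))) (c (a (b (l 142716162310422671) (l 142719185968087183)) (l 142731418026295439)) (a (c (l 142662835986235535) (l 14)) (a (a (l 142653146538033295) (l 142656651231969423)) (l 142661873902387343)))))))))) (a (c (b (l 143037563365261391) (c (l 143130746984349903) (b (l 142985130394321039) (a (l 142991383868358799) (l 143003959534829711))))) (b (c (l 142822265201672335) (l 142675136773292175)) (b (l 142409879536926863) (c (c (l 142891809326629007) (a (l 142813812705329295) (l 142826938127712399))) (c (b (l 142744612178575503)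 (a (l 142745093215322255) (l 142758630954631311))) (b (l 142671632080208015) (a (a (l 142668814581497999) (l 142675755249877135)) (a (l 142682695918239887) (l 142689567867142287))))))))) (b (c (c (l 143132327542309071) (l 142991727464415375)) (a (l 142765502902370447) (l 142785156676321423))) (b (c (c (l 143150332049178831) (l 143011793556029583)) (a (l 142788592651600015) (l 142448637318037647))) (c (c (l 143162426669023439) (a (l 143016466481791119) (l 143034058671063183))) (c (a (a (l 142872361710551183) (l 142878821342494863)) (c (l 142930223521054863) (l 142860198360481935))) (b (a (l 142727913342156943) (l 142749628700835983)) (a (c (l 142772099974463631) (a (l 142696439816028303) (l 142703243045421199))) (a (b (l 142747979433263247) (c (l 142787974176555151) (l 142716368467984527))) (c (l 142801305757499535) (l 142730662121799823))))))))))))), by decide +kernel⟩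

def k22_pm_123_a : ∃ t, chk3 f_pm_123_a t 91 31 2 = true :=
  ⟨(a (b (l 143014611051774031) (b (l 143087522432630863) (b (c (l 143189777035460815) (l 143059347442139215)) (a (c (l 143193900205686991) (a (l 143050894945812559) (l 143074328291754063))) (b (l 143164969299230799) (a (c (l 143229153303986383) (l 143104289989427407)) (b (l 143184966671007951) (c (l 143251212260229327) (a (l 143124905836429519) (l 143136038393790671)))))))))) (b (l 16665848) (b (l 143173215636062287) (a (b (l 143188608802963535) (b (a (l 143196580264411343) (c (l 143274233288736975) (l 143158853263868111))) (a (c (b (l 143264131524083919) (l 143268873169273039)) (b (l 143146277597561039) (l 143151637718204623))) (c (l 143283441701191887) (l 143169229907755215))))) (b (b (l 143224068059349199) (c (l 143290588526887119) (l 143179125512945871))) (c (b (l 143299659500339407) (l 143308043279057103)) (c (l 143221662878875855) (l 143166549847523535)))))))), by decide +kernel⟩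

def k23_pm_123_a : ∃ t, chk3 f_pm_123_a t 91 31 3 = true :=
  ⟨(b (l 142601950503895183) (b (a (l 142812781909868687) (l 142929261444956303)) (a (b (c (l 142926581386674319) (l 142791410149572751)) (b (a (l 142493098827907215) (l 142551716638556303)) (c (b (c (l 142992620817580175) (l 142927474740822159)) (a (c (l 142973654238658703) (l 142906927613624463)) (a (c (l 143012961786740879) (l 142949258819289231)) (a (l 143001416912208015) (b (l 143012893066936463) (c (l 143046703056322703) (l 142985611429494927))))))) (b (c (l 142861847627759759) (l 142795602039423119)) (a (a (c (l 142824326786580623) (a (l 142747086079869071) (l 142763510037921935))) (b (l 142819310263648399) (c (l 142856831105302671) (c (l 142806872036065423) (l 142773336924995727))))) (a (c (l 142885074815533199) (c (l 142836627575079055) (a (l 142795945637068943) (l 142812369595138191)))) (a (b (l 142874079696994447) (c (l 142909676392923279) (c (l 142862534822789263) (l 142830923857428623)))) (b (c (l 142920534072180879)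 (l 142858411653267599)) (b (a (l 142888785667899535) (l 142896001214431375)) (c (l 142925000839282831) (c (l 142878615183556751) (l 142847622693617807)))))))))))) (a (b (l 142946441318744207) (b (a (c (l 143016329040887951) (l 142894077067985039)) (c (b (l 143039006472421519) (l 143045397385379983)) (b (l 142920396632490127) (l 142927543459872911)))) (b (a (c (a (l 143020589649625231) (l 143033165316391055)) (a (b (l 142896757128364175) (l 142900605419978895)) (l 142913181086679183))) (c (l 143051032384094351) (l 142933934373011599))) (c (c (l 143074053413699727) (a (l 143002928741138575) (l 143027530319020175))) (c (c (l 142970905458983055) (a (l 142927680899547279) (l 142954687659606159))) (a (b (l 142880676768268431) (b (l 142883081950658703) (c (l 142899849506341007) (a (l 142862259945242767) (l 142876897196867727))))) (c (l 142925481876390031) (c (l 142903491639640207) (a (l 142881501402759311) (l 142896069934907535)))))))))) (b (b (a (l 142981556977762447) (l 143009731968581775))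 (a (c (l 143054262198829199) (l 142938401138491535)) (c (l 143078795056971919) (l 142966851007611023)))) (c (b (l 143077970423988367) (c (l 143116315900641423) (a (l 143048970800087183) (l 143072953902596239)))) (b (l 142965545338273935) (b (l 142974616311890063) (a (b (l 142965682778407055) (c (l 142996950146613391) (c (l 142954618940866703) (a (l 142919297122943119) (l 142933522057658511))))) (c (l 143021276846456975) (c (l 142980388750016655) (a (l 142946029004963983) (l 142960116500709519))))))))))))), by decide +kernel⟩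

def k24_pm_123_a : ∃ t, chk3 f_pm_123_a t 23 14 1 = true :=
  ⟨(b (l 16644280) (a (l 16641328) (l 16675920))), by decide +kernel⟩

def k25_pm_123_a : ∃ t, chk3 f_pm_123_a t 23 30 1 = true :=
  ⟨(a (b (l 16633864) (c (l 16675336) (l 16633296))) (b (l 16667216) (c (l 16702928) (l 16671272)))), by decide +kernel⟩

def k26_pm_123_a : ∃ t, chk3 f_pm_123_a t 23 62 1 = true :=
  ⟨(a (c (a (b (l 16674824) (l 16679704)) (b (l 16689272) (l 16693928))) (b (l 16642032) (a (c (l 16664104) (l 16653872)) (c (l 16682456) (l 16675144))))) (c (a (l 16704896) (l 16716952)) (a (a (l 16689848) (l 16698744)) (l 16711448)))), by decide +kernel⟩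

def k27_pm_123_a : ∃ t, chk3 f_pm_123_a t 23 126 1 = true :=
  ⟨(a (a (c (a (a (c (l 16684608) (l 143180499901022287)) (b (l 16681560) (l 143285090965881039))) (b (l 16686992) (l 143337249059782863))) (a (a (b (l 16655944) (a (l 143015298246525071) (l 143042648603558031))) (b (l 16661088) (b (l 143075633958600847) (l 143087384992399503)))) (a (b (l 16666160) (l 143130197235105935)) (l 143167305759555663)))) (c (c (l 143463830362079439) (l 143389200995582159)) (a (c (l 143275264080019535) (l 143196374105768079)) (b (l 16687952) (l 143330239676186703))))) (a (c (a (l 16708232) (l 16714232)) (a (b (l 16697024) (l 16699896)) (l 16707056))) (c (l 16743616) (a (l 16715224) (l 16722992))))), by decide +kernel⟩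

def k28_pm_123_a : ∃ t, chk3 f_pm_123_a t 46 127 1 = true :=
  ⟨(c (b (a (a (a (b (l 143262688412893391) (l 143271553228046543)) (l 143302270840275151)) (a (l 143336218269106383) (l 143368997466685647))) (c (l 143481834871685327) (a (l 143377381245829327) (l 143441290373841103)))) (c (a (a (a (l 143336012111642831) (l 143367142041288911)) (a (l 143397103739683023) (l 143425965926285519))) (a (b (l 143463967805030671) (l 143469877682290959)) (l 143517569009778959))) (a (b (a (l 143247295249121487) (l 143320206629863631)) (a (b (l 143253892321001679) (a (l 143239529947693263) (l 143276707192701135))) (c (l 143349824731283663) (l 143306531452567759)))) (a (a (l 143375113504587983) (l 143407342946566351)) (b (l 143450292629012687) (l 143456065067532495)))))) (a (b (a (b (a (a (l 143036463850340495) (l 143061615184101519)) (l 143098242673033359)) (c (l 143136107112775759) (l 143033508914249871))) (c (l 143218845380247631) (l 143130128518938767))) (b (c (a (c (l 143171635090358479) (l 143121126265159823))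 (l 143232795438645455)) (a (c (l 143070548720582799) (l 143019902456627343)) (c (l 143167718081921167) (l 143124630962012303)))) (c (a (a (b (l 143131571628048463) (c (l 143162426679689423) (l 143110955781669007))) (c (l 143202421423603919) (l 143154317780664463))) (a (a (l 143210530324316367) (l 143231558488850639)) (b (l 143260145797300431) (l 143264475125858511)))) (c (a (a (a (a (l 143037563365687439) (l 143050276471619727)) (l 143069105612308623)) (a (l 143093982068293775) (l 143118446207369359))) (a (l 143154455221092495) (l 143200909597720719))) (a (b (l 143028835991339151) (c (a (a (l 143007326790680719) (l 143033921233928335)) (l 143073160063664271)) (b (l 143020795811610767) (a (a (l 142982587774566543) (l 143010144290685071)) (l 143050757504909455))))) (a (a (l 143097418044375183) (l 143122912975880335)) (l 143160365099040911))))))) (a (a (b (l 143241866411393103) (a (c (l 143288114630361295) (l 143210942643814543)) (c (l 143307768405164239) (l 143233963673747535)))) (b (l 143284816094036047)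 (c (l 143336493153026255) (b (l 143263169457406031) (l 143272102992691279))))) (b (a (l 143326253947961423) (l 143366042534232143)) (c (c (l 143406655754256591) (l 143376419179233487)) (c (l 143346938518683855) (l 143318213772574799))))))), by decide +kernel⟩

def k29_pm_123_a : ∃ t, chk3 f_pm_123_a t 47 127 1 = true :=
  ⟨(c (a (a (b (l 143527327177457871) (c (l 143563542350823695) (l 143509803710791887))) (b (l 143575705701007631) (c (l 143605117644718351) (l 143561343331303695)))) (a (c (l 143640233305440527) (l 143605186367652111)) (c (l 143674043297415439) (l 602012230566689037346063)))) (c (a (a (b (l 143447750009651407) (l 143459501045596367)) (b (l 16712480) (l 143521829626577103))) (b (l 601739276351270210593999) (a (l 601789716647030670648527) (l 602539403906528577643791)))) (b (a (a (l 143398959173189839) (l 16709936)) (l 601272054891256039007439)) (a (a (c (l 143424247948525775) (l 143401982834688207)) (l 601189332682041012265167)) (a (l 602083423376621043639503) (l 602953302713350858007759)))))),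 by decide +kernel⟩

def k30_pm_123_a : ∃ t, chk3 f_pm_123_a t 3 2 1 = true :=
  ⟨(a (a (a (b (l 16721128) (l 16692888)) (b (l 16752992) (l 16738488))) (b (a (l 16773736) (b (l 16778672) (l 16777128))) (a (l 16772656) (b (l 16776008) (l 16783328))))) (a (a (b (a (l 16768040) (l 16761408)) (b (l 16757752) (l 16755872))) (b (a (l 16754800) (l 67880655063)) (b (l 16764336) (a (l 16744664) (l 16744384))))) (a (b (a (b (l 194582184135) (l 16750744)) (a (l 190287039863) (l 4))) (a (b (l 16747088) (l 16743592)) (b (a (l 16749336) (l 16750088)) (l 16751176)))) (a (b (l 4) (a (b (l 4) (c (l 16752968) (l 16748672))) (l 4))) (l 4))))), by decide +kernel⟩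

def k31_pm_123_a : ∃ t, chk3 f_pm_123_a t 6 6 1 = true :=
  ⟨(a (b (a (l 16681800) (l 16736264)) (a (a (l 16677400) (l 16706264)) (b (l 16741896) (l 16747736)))) (a (b (l 16736904) (b (l 16780608) (l 16675992))) (b (a (l 16794536) (l 16787344)) (a (b (l 16800152) (l 16801656)) (b (l 16798584) (l 16804152)))))), by decide +kernel⟩

def k32_pm_123_a : ∃ t, chk3 f_pm_123_a t 12 14 1 = true :=
  ⟨(a (b (l 16707816) (a (l 16685368) (l 16732168))) (b (l 16691576) (a (l 16753560) (l 16769224)))), by decide +kernel⟩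

def k33_pm_123_a : ∃ t, chk3 f_pm_123_a t 24 15 1 = true :=
  ⟨(b (a (b (l 16717208) (l 16703936)) (b (l 16741312) (l 16726608))) (b (a (a (c (l 16727704) (l 16726904)) (c (l 16737256) (l 16740832))) (a (c (l 16745688) (l 16753320)) (b (l 16756384) (l 16780576)))) (a (c (b (a (l 16732768) (l 16741736)) (b (a (a (l 16732912) (l 16737536)) (l 16743952)) (c (a (l 602681501569313842046287) (l 603649379214350186276175)) (a (l 603114135350104947827983) (l 604278442366611789419535))))) (b (a (b (l 16732752) (l 16735096)) (l 16747232)) (a (a (c (l 603059659779943929898255) (l 602803711201523166274767)) (b (l 16740800) (l 603721869510262826259471))) (a (a (l 604252213402381983519759) (l 604620571823103877534735)) (b (l 16753416) (a (l 16764480) (l 16756928))))))) (b (a (a (l 16751528) (l 16777056)) (c (l 16757008) (b (l 16769032) (l 16771080)))) (b (a (c (l 16772560) (a (l 16759152) (l 16764792))) (c (b (l 16758912) (l 16780832)) (a (l 16770496) (l 16776528)))) (a (c (a (b (l 16750776) (l 604786592519767266726927))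 (a (l 16753992) (l 16756008))) (a (a (l 16770248) (b (l 16762080) (l 16763120))) (c (l 16763568) (a (l 16769000) (l 16772208))))) (c (a (a (l 16758104) (l 16760272)) (a (l 16773008) (b (l 16764256) (l 16765424)))) (c (a (b (l 16768520) (l 16769760)) (a (l 16773488) (l 16776472))) (a (b (l 16776456) (a (l 16776184) (l 16779560))) (b (l 16783192) (b (l 16784352) (a (l 16783392) (l 16797384))))))))))))), by decide +kernel⟩

def k34_pm_123_a : ∃ t, chk3 f_pm_123_a t 25 30 1 = true :=
  ⟨(a (b (l 16738216) (a (l 16760776) (l 16769080))) (b (l 16754856) (c (l 16772616) (l 16771944)))), by decide +kernel⟩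

def k35_pm_123_a : ∃ t, chk3 f_pm_123_a t 25 31 2 = true :=
  ⟨(b (a (a (l 16760112) (l 16767656)) (a (l 16776544) (l 16786304))) (a (b (a (l 16765024) (l 16774312)) (c (a (b (l 16764720) (a (b (l 16764232) (l 16765424)) (a (l 16768248) (l 16770608)))) (b (l 16773920) (a (a (l 16773016) (l 16775480)) (a (l 16777992) (l 16780544))))) (b (a (l 16772336) (l 16783128)) (a (b (l 16790056) (a (l 16773008) (l 16788968))) (a (a (l 16781944) (l 16784800)) (a (l 16787704) (l 16790640))))))) (b (a (a (l 16781848) (l 16787112)) (a (l 16792536) (l 16798088))) (a (a (b (l 16786352) (a (c (l 16783144) (l 16793616)) (c (l 16785784) (l 16796624)))) (b (l 16791888) (a (c (l 16788456) (l 16799664)) (a (l 16796040) (l 16797488))))) (a (b (l 16797552) (b (l 16800216) (a (l 16800584) (l 16803528)))) (b (l 16803360) (c (l 16800832) (l 16813616)))))))), by decide +kernel⟩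

def k36_pm_123_a : ∃ t, chk3 f_pm_123_a t 25 31 3 = true :=
  ⟨(b (a (a (l 16795928) (l 16785784)) (a (l 16818800) (l 16789616))) (a (a (b (a (l 16778664) (l 16784776)) (b (a (l 16782800) (l 16789296)) (c (a (a (l 16779512) (l 16782600)) (a (l 16785744) (l 16788936))) (a (b (l 16790144) (a (a (l 16789144) (l 16790928)) (a (l 16792728) (l 16794528)))) (b (l 16797288) (a (a (l 16796344) (l 16798176)) (a (l 16800008) (l 16801856)))))))) (b (a (l 16791096) (l 16797616)) (b (a (l 16795976) (l 16802816)) (c (a (a (l 16792168) (l 16795448)) (a (l 16798760) (l 16802104))) (a (b (l 16804592) (c (b (l 16802952) (l 16803904)) (a (l 16807752) (l 16811608)))) (a (c (l 16807928) (l 16819712)) (a (l 16824472) (l 16815880)))))))) (b (a (a (l 16804296) (l 16811112)) (c (l 16814448) (l 16829016))) (a (a (b (l 16809800) (a (c (l 16805480) (b (l 16817688) (l 16819776))) (c (l 16808880) (l 16833032)))) (b (l 16816880) (a (c (l 16812304) (l 16826376)) (a (l 16832376) (l 16834208))))) (b (a (l 16824048) (l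 16831320)) (a (c (l 16820952) (b (l 16834888) (l 16837152))) (a (l 16844304) (l 16837448)))))))), by decide +kernel⟩

def k37_pm_123_a : ∃ t, chk3 f_pm_123_a t 13 7 1 = true :=
  ⟨(b (b (a (a (l 16777920) (l 16791784)) (a (l 16806176) (l 16773416))) (a (a (b (l 16781952) (l 16787336)) (b (l 16797104) (l 16804344))) (a (c (l 16806352) (l 16814992)) (a (l 16787856) (l 16830992))))) (a (b (b (a (l 16793000) (a (l 16808360) (l 16819472))) (a (a (l 16797400) (l 16808480)) (c (l 16790032) (l 16800096)))) (a (b (a (c (l 16797160) (l 16803352)) (c (l 16807624) (l 16837424))) (a (b (c (l 16827600) (l 16822584)) (c (a (b (l 16809112) (a (l 16811368) (l 16814144))) (a (l 16815096) (l 16817736))) (a (b (l 16838456) (a (l 16841024) (l 16844464))) (a (l 16856240) (l 16849032))))) (b (c (l 16817464) (l 16849080)) (c (c (b (l 16815240) (l 16818352)) (l 16831576)) (c (l 16853208) (a (l 16862808) (l 16869016))))))) (c (b (a (l 16817608) (l 16827080)) (c (b (l 16823592) (a (l 16825216) (l 16832392))) (a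 (b (l 16834792) (l 16840960)) (l 16867256)))) (a (b (l 16849776) (b (l 16860800) (a (l 16875632) (l 16870224)))) (b (l 16861376) (c (l 16848656) (l 16889448))))))) (b (a (a (b (l 16830096) (l 16904112)) (b (l 16838416) (l 16889800))) (c (a (l 16831456) (l 16832152)) (b (l 16858856) (l 16867304)))) (c (a (b (b (l 16835296) (l 16818896)) (a (b (l 16842024) (a (l 16845320) (l 16848032))) (a (l 16826680) (l 16828216)))) (b (a (l 16842768) (l 16843856)) (a (b (l 16848720) (l 16831896)) (l 16841912)))) (a (a (b (l 16870848) (b (l 16900240) (a (l 16883048) (l 16928208)))) (b (l 16875904) (c (l 16875536) (l 16853808)))) (b (a (l 16855992) (l 16875816)) (c (a (l 16876744) (l 16876552)) (a (l 16895968) (l 16894592))))))))), by decide +kernel⟩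

def k38_pm_123_a : ∃ t, chk3 f_pm_123_a t 7 6 1 = true :=
  ⟨(a (a (b (a (l 16772952) (l 16764360)) (b (l 16720376) (a (l 16800712) (l 16776400)))) (b (b (l 16750328) (l 16698144)) (a (l 16823952) (b (l 16771272) (l 16784400))))) (b (a (a (l 16753888) (a (l 16751880) (l 16750128))) (a (a (b (l 16751928) (l 16751960)) (a (l 16690840) (l 16755512))) (b (l 4) (l 4)))) (a (a (l 16772968) (b (l 16761864) (l 16772960))) (b (a (a (l 16759112) (l 16738104)) (a (a (l 16760992) (l 370675912215)) (l 4))) (a (a (l 16770864) (l 16769280)) (a (a (l 16765512) (a (l 16765440) (l 16766640))) (b (l 4) (l 4)))))))), by decide +kernel⟩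

def k39_pm_123_a : ∃ t, chk3 f_pm_123_a t 7 14 1 = true :=
  ⟨(b (a (a (a (l 16793616) (l 16790360)) (a (l 16805808) (l 16799960))) (a (a (a (l 16795872) (l 16792872)) (l 16788088)) (a (a (l 16782640) (l 16776600)) (a (a (l 16773152) (a (l 16769904) (l 16769232))) (a (a (a (l 16769032) (l 16769312)) (a (l 16770552) (l 505967336391))) (l 4)))))) (a (a (a (l 16829328) (l 16787512)) (a (l 16822336) (b (l 16812984) (l 16823072)))) (a (a (b (l 16807088) (l 16815976)) (b (l 16799664) (l 16804768))) (a (a (l 16793112) (l 16785704)) (a (a (l 16779672) (b (l 16775328) (l 6))) (a (a (l 16774592) (l 6)) (l 6))))))), by decide +kernel⟩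

def k40_pm_123_a : ∃ t, chk3 f_pm_123_a t 7 15 1 = true :=
  ⟨(a (b (a (a (c (l 16791088) (l 16859976)) (c (l 16832912) (l 16855648))) (a (b (l 16836976) (l 16825896)) (b (l 16832600) (l 16841840)))) (c (b (a (a (l 16845224) (l 16815920)) (a (l 16846504) (l 16841312))) (a (a (a (l 16854024) (l 16876448)) (b (l 16833504) (b (l 16816040) (l 16797272)))) (a (b (l 16852768) (l 16856216)) (b (l 16845472) (l 16847944))))) (a (a (b (l 16873976) (b (l 16881896) (l 16845472))) (b (l 16872216) (a (l 16862736) (l 16834536)))) (a (b (l 16843288) (a (l 16821200) (l 16809560))) (b (l 16820040) (b (l 16795656) (a (l 16798200) (l 16810048)))))))) (a (b (a (b (l 16824424) (l 16810248)) (b (l 16811048) (a (l 16819160) (l 16811168)))) (b (a (a (l 16813024) (l 16782984)) (a (l 16774648) (l 16766840))) (b (a (a (l 16789888) (l 16781072)) (a (l 16772832) (l 16770384))) (c (a (l 16790704) (a (l 16818728) (b (l 16810344) (l 16788976)))) (a (a (l 16801736) (l 16794032)) (a (a (l 16809608) (l 16806184)) (b (l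 16780688) (a (l 16802536) (l 16799392))))))))) (a (a (b (b (l 16798704) (l 16803688)) (c (b (l 16803952) (b (l 16802888) (a (l 16783112) (l 16784504)))) (b (l 16798560) (b (l 16775656) (b (l 16774672) (a (l 16796400) (b (l 16793752) (l 16793440)))))))) (b (b (l 16790968) (l 16794832)) (b (b (l 16795200) (l 16768040)) (b (a (l 16773928) (l 16770784)) (b (a (l 16773272) (a (l 16770936) (l 16769408))) (c (a (l 16785912) (b (l 16792920) (l 16782272))) (a (b (l 16791072) (l 16785536)) (a (l 16789000) (l 16783816))))))))) (a (a (a (b (l 16809000) (b (l 16790648) (b (l 16789472) (b (l 16778392) (b (l 16775464) (c (l 16779656) (l 16786376))))))) (l 6)) (l 6)) (l 6))))), by decide +kernel⟩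

theorem s41_pm_123_a : ∃ t, chk3 f_pm_123_a t 7 7 1 = true := ex3_b k39_pm_123_a k40_pm_123_a

theorem s42_pm_123_a : ∃ t, chk3 f_pm_123_a t 7 3 1 = true := ex3_b k38_pm_123_a s41_pm_123_a

theorem s43_pm_123_a : ∃ t, chk3 f_pm_123_a t 25 31 1 = true := ex3_c k35_pm_123_a k36_pm_123_a

theorem s44_pm_123_a : ∃ t, chk3 f_pm_123_a t 25 15 1 = true := ex3_b k34_pm_123_a s43_pm_123_a

theorem s45_pm_123_a : ∃ t, chk3 f_pm_123_a t 12 15 1 = true := ex3_a k33_pm_123_a s44_pm_123_a

theorem s46_pm_123_a : ∃ t, chk3 f_pm_123_a t 12 7 1 = true := ex3_b k32_pm_123_a s45_pm_123_a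

theorem s47_pm_123_a : ∃ t, chk3 f_pm_123_a t 6 7 1 = true := ex3_a s46_pm_123_a k37_pm_123_a

theorem s48_pm_123_a : ∃ t, chk3 f_pm_123_a t 6 3 1 = true := ex3_b k31_pm_123_a s47_pm_123_a

theorem s49_pm_123_a : ∃ t, chk3 f_pm_123_a t 3 3 1 = true := ex3_a s48_pm_123_a s42_pm_123_a

theorem s50_pm_123_a : ∃ t, chk3 f_pm_123_a t 3 1 1 = true := ex3_b k30_pm_123_a s49_pm_123_a

theorem s51_pm_123_a : ∃ t, chk3 f_pm_123_a t 23 127 1 = true := ex3_a k28_pm_123_a k29_pm_123_a

theorem s52_pm_123_a : ∃ t, chk3 f_pm_123_a t 23 63 1 = true := ex3_b k27_pm_123_a s51_pm_123_a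

theorem s53_pm_123_a : ∃ t, chk3 f_pm_123_a t 23 31 1 = true := ex3_b k26_pm_123_a s52_pm_123_a

theorem s54_pm_123_a : ∃ t, chk3 f_pm_123_a t 23 15 1 = true := ex3_b k25_pm_123_a s53_pm_123_a

theorem s55_pm_123_a : ∃ t, chk3 f_pm_123_a t 23 7 1 = true := ex3_b k24_pm_123_a s54_pm_123_a

theorem s56_pm_123_a : ∃ t, chk3 f_pm_123_a t 91 31 1 = true := ex3_c k22_pm_123_a k23_pm_123_a

theorem s57_pm_123_a : ∃ t, chk3 f_pm_123_a t 45 31 1 = true := ex3_a k21_pm_123_a s56_pm_123_a

theorem s58_pm_123_a : ∃ t, chk3 f_pm_123_a t 44 127 1 = true := ex3_c k19_pm_123_a k20_pm_123_a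

theorem s59_pm_123_a : ∃ t, chk3 f_pm_123_a t 44 63 1 = true := ex3_b k18_pm_123_a s58_pm_123_a

theorem s60_pm_123_a : ∃ t, chk3 f_pm_123_a t 44 31 1 = true := ex3_b k17_pm_123_a s59_pm_123_a

theorem s61_pm_123_a : ∃ t, chk3 f_pm_123_a t 22 31 1 = true := ex3_a s60_pm_123_a s57_pm_123_a

theorem s62_pm_123_a : ∃ t, chk3 f_pm_123_a t 22 15 1 = true := ex3_b k16_pm_123_a s61_pm_123_a

theorem s63_pm_123_a : ∃ t, chk3 f_pm_123_a t 22 7 1 = true := ex3_b k15_pm_123_a s62_pm_123_a

theorem s64_pm_123_a : ∃ t, chk3 f_pm_123_a t 11 7 1 = true := ex3_a s63_pm_123_a s55_pm_123_a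

theorem s65_pm_123_a : ∃ t, chk3 f_pm_123_a t 11 3 1 = true := ex3_b k14_pm_123_a s64_pm_123_a

theorem s66_pm_123_a : ∃ t, chk3 f_pm_123_a t 11 1 1 = true := ex3_b k13_pm_123_a s65_pm_123_a

theorem s67_pm_123_a : ∃ t, chk3 f_pm_123_a t 21 7 1 = true := ex3_a k11_pm_123_a k12_pm_123_a

theorem s68_pm_123_a : ∃ t, chk3 f_pm_123_a t 20 63 1 = true := ex3_a k9_pm_123_a k10_pm_123_a

theorem s69_pm_123_a : ∃ t, chk3 f_pm_123_a t 20 31 1 = true := ex3_b k8_pm_123_a s68_pm_123_a

theorem s70_pm_123_a : ∃ t, chk3 f_pm_123_a t 20 15 1 = true := ex3_b k7_pm_123_a s69_pm_123_a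

theorem s71_pm_123_a : ∃ t, chk3 f_pm_123_a t 20 7 1 = true := ex3_b k6_pm_123_a s70_pm_123_a

theorem s72_pm_123_a : ∃ t, chk3 f_pm_123_a t 10 7 1 = true := ex3_a s71_pm_123_a s67_pm_123_a

theorem s73_pm_123_a : ∃ t, chk3 f_pm_123_a t 10 3 1 = true := ex3_b k5_pm_123_a s72_pm_123_a

theorem s74_pm_123_a : ∃ t, chk3 f_pm_123_a t 10 1 1 = true := ex3_b k4_pm_123_a s73_pm_123_a

theorem s75_pm_123_a : ∃ t, chk3 f_pm_123_a t 5 1 1 = true := ex3_a s74_pm_123_a s66_pm_123_a

theorem s76_pm_123_a : ∃ t, chk3 f_pm_123_a t 4 7 1 = true := ex3_a k2_pm_123_a k3_pm_123_a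

theorem s77_pm_123_a : ∃ t, chk3 f_pm_123_a t 4 3 1 = true := ex3_b k1_pm_123_a s76_pm_123_a

theorem s78_pm_123_a : ∃ t, chk3 f_pm_123_a t 4 1 1 = true := ex3_b k0_pm_123_a s77_pm_123_a

theorem s79_pm_123_a : ∃ t, chk3 f_pm_123_a t 2 1 1 = true := ex3_a s78_pm_123_a s75_pm_123_a

theorem s80_pm_123_a : ∃ t, chk3 f_pm_123_a t 1 1 1 = true := ex3_a s79_pm_123_a s50_pm_123_a

theorem c_pm_123_a : CertB 536870912 536870912 0 536870912 697932185 42949674 3 eng mog cd0q1 cd3q2a pd3 true true false .npn 1 2 3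
    ndB0q1 ndB3q2a pcB3 cut_pm_123_a xt_pm_123_a :=
  certB2 (fam := true) (s1 := true) (s2 := false) (a := 1) (b := 2) (c := 3) (cn := .npn) (n1 := ndB0q1) (n2 := ndB3q2a) (pc := pcB3) (cut := cut_pm_123_a) (xt := xt_pm_123_a) (P1 := 536870912) (W1 := 536870912) (P2 := 0) (W2 := 536870912) (P3 := 697932185) (W3 := 42949674) (N0 := 3) (En := eng) (mo := mog) (C1 := cd0q1) (C2 := cd3q2a) (C3 := pd3)
    rfl (fun _ => rfl) s80_pm_123_a

noncomputable def cut_pm_123_b : Cut := Cut.of [[⟨0, 1, 0, 67108864⟩, ⟨1, 1, 0, 67108864⟩, ⟨2, 2, 0, 16777216⟩], [⟨0, 0, 1, 20971520⟩, ⟨1, 1, 0, 33554432⟩, ⟨2, 1, 1, 20971520⟩]]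

noncomputable def f_pm_123_b : ℕ → ℕ → ℕ → ℕ → Bool := onCell 1610612736 536870912 1239849684 370763052 697932185 42949674
    (rowB 3 eng mog cd0q1 cd3q2b pd3 2 true true false .npn 1 2 3 (qsf 536870912 536870912 1239849684 370763052 3) ndB0q1 ndB3q2b pcB3 cut_pm_123_b Ext.none)

def k0_pm_123_b : ∃ t, chk3 f_pm_123_b t 1 1 1 = true :=
  ⟨(a (b (a (l 1) (a (b (b (a (a (l 1) (l 16586080)) (a (l 16620296) (l 16650400))) (l 1)) (l 1)) (b (a (a (b (l 16643392) (l 16624056)) (b (l 16655376) (l 16638984))) (b (l 16689480) (l 16671360))) (a (l 1) (l 16851784))))) (l 1)) (a (b (a (b (b (a (l 16726776) (l 16750136)) (a (l 16706760) (l 16727416))) (b (l 16709240) (l 16693392))) (b (b (a (l 16763496) (l 16763240)) (a (l 16739128) (l 16754896))) (a (b (l 16743704) (l 16725616)) (b (l 16741408) (l 16723848))))) (b (a (l 1) (a (l 16690872) (b (l 16708528) (l 16698208)))) (l 1))) (b (b (a (a (b (a (l 16761328) (l 16765592)) (l 16749208)) (b (b (a (l 16763120) (l 16754128)) (a (l 16754672) (l 16746944)))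 (a (l 16740144) (l 4)))) (l 4)) (a (a (b (l 16729248) (l 16715976)) (l 4)) (l 4))) (a (b (a (b (l 4) (l 4)) (l 4)) (l 4)) (l 4))))), by decide +kernel⟩

theorem c_pm_123_b : CertB 536870912 536870912 1239849684 370763052 697932185 42949674 3 eng mog cd0q1 cd3q2b pd3 true true false .npn 1 2 3
    ndB0q1 ndB3q2b pcB3 cut_pm_123_b Ext.none :=
  certB2 (fam := true) (s1 := true) (s2 := false) (a := 1) (b := 2) (c := 3) (cn := .npn) (n1 := ndB0q1) (n2 := ndB3q2b) (pc := pcB3) (cut := cut_pm_123_b) (xt := Ext.none) (P1 := 536870912) (W1 := 536870912) (P2 := 1239849684) (W2 := 370763052) (P3 := 697932185) (W3 := 42949674) (N0 := 3) (En := eng) (mo := mog) (C1 := cd0q1) (C2 := cd3q2b) (C3 := pd3)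
    rfl (fun _ => rfl) k0_pm_123_b

noncomputable def f_pm_133 : ℕ → ℕ → ℕ → ℕ → Bool := onCell 536870912 536870912 1610612736 536870912 697932185 42949674
    (rowB 3 eng mog cd0q1 cd3q3 pd3 0 true true false .dn 1 3 3 (qsf 536870912 536870912 1610612736 536870912 3) ndB0q1 ndB3q3 pcB3 Cut.none Ext.none)

def k0_pm_133 : ∃ t, chk3 f_pm_133 t 1 1 1 = true :=
  ⟨(l 4), by decide +kernel⟩

theorem c_pm_133 : CertB 536870912 536870912 1610612736 536870912 697932185 42949674 3 eng mog cd0q1 cd3q3 pd3 true true false .dn 1 3 3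
    ndB0q1 ndB3q3 pcB3 Cut.none Ext.none :=
  certB0 (fam := true) (s1 := true) (s2 := false) (a := 1) (b := 3) (c := 3) (cn := .dn) (n1 := ndB0q1) (n2 := ndB3q3) (pc := pcB3) (cut := Cut.none) (xt := Ext.none) (P1 := 536870912) (W1 := 536870912) (P2 := 1610612736) (W2 := 536870912) (P3 := 697932185) (W3 := 42949674) (N0 := 3) (En := eng) (mo := mog) (C1 := cd0q1) (C2 := cd3q3) (C3 := pd3)
    rfl k0_pm_133

noncomputable def cut_pm_202 : Cut := Cut.of [[⟨0, 1, 0, 67108864⟩, ⟨1, 0, 0, 67108864⟩, ⟨2, 1, 0, 67108864⟩]]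

noncomputable def f_pm_202 : ℕ → ℕ → ℕ → ℕ → Bool := onCell 0 536870912 1073741824 536870912 697932185 42949674
    (rowB 3 eng mog cd0q2 cd3q0 pd2 1 true true false .pp 2 0 2 (qsf 0 536870912 0 536870912 2) ndB0q2 ndB3q0 pcB2 cut_pm_202 Ext.none)

def k0_pm_202 : ∃ t, chk3 f_pm_202 t 4 2 1 = true :=
  ⟨(b (l 1) (b (b (b (l 1) (a (a (l 16448096) (l 16449440)) (a (l 16454472) (b (l 16459848) (l 16467304))))) (c (a (b (a (b (l 16446296) (l 16442656)) (b (l 16449576) (l 16445680))) (a (l 16446424) (l 16449248))) (b (a (b (l 16454128) (l 16449960)) (b (l 16459184) (l 16475696))) (a (l 16453344) (l 16457928)))) (a (b (a (l 16448152) (l 16452440)) (a (l 16448864) (l 16452760))) (b (a (l 16457816) (l 16463528)) (l 16481608))))) (a (b (a (b (a (l 16454008) (l 16454768)) (l 16461592)) (b (l 16457408) (l 16463216))) (a (l 16471624) (b (l 16489848) (l 16474784)))) (b (a (b (l 16461608) (l 16467136)) (b (l 16466248) (l 16471416))) (b (l 16516072) (a (l 16476312) (l 16479744))))))), by decide +kernel⟩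

def k1_pm_202 : ∃ t, chk3 f_pm_202 t 5 2 1 = true :=
  ⟨(b (b (l 1) (b (l 1) (a (l 1) (b (l 1) (a (l 1) (b (l 1) (c (l 386043214279) (a (l 16491392) (l 16502096))))))))) (b (b (a (b (b (l 1) (a (l 16465160) (l 16480544))) (a (c (l 16452792) (l 16470408)) (c (l 16482056) (l 16484960)))) (b (b (a (c (l 16497656) (l 16483848)) (a (l 16486392) (l 16518432))) (a (l 16455992) (l 16413864))) (a (c (l 16470992) (l 16501576)) (b (l 16507600) (l 16499992))))) (a (b (a (b (l 16384928) (c (l 16481616) (l 16467008))) (b (l 16392848) (c (l 16468208) (l 16474792)))) (a (c (l 16463688) (l 16469280)) (c (l 16471096) (l 16476840)))) (b (a (b (c (l 16482728) (l 16490888)) (c (l 16498352) (l 16484128))) (b (c (l 16489688) (l 16497304)) (c (l 16483976) (l 16490216)))) (a (c (l 16480120) (l 16485968)) (c (l 16486576) (l 16491840)))))) (b (a (b (c (a (l 16469872) (l 16477096)) (l 16478728)) (a (l 16476776) (l 16483704))) (a (b (c (l 16485968) (l 16491080)) (l 16492264)) (b (l 16493976) (l 16498000)))) (a (a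 (l 16482576) (l 16488888)) (a (l 16517840) (l 16502088)))))), by decide +kernel⟩

def k2_pm_202 : ∃ t, chk3 f_pm_202 t 2 3 1 = true :=
  ⟨(b (a (b (a (b (l 16484464) (l 16497040)) (b (a (c (l 16483352) (l 16483120)) (b (l 16483384) (l 16486952))) (a (l 16494152) (b (l 16491312) (l 16496136))))) (b (a (l 16514456) (b (l 16504816) (l 16515504))) (a (l 16539648) (l 16532864)))) (b (a (b (a (l 16488720) (l 16493904)) (a (b (l 16493096) (l 16497216)) (l 16499304))) (b (a (l 16500800) (l 16505024)) (a (l 16505432) (l 16508944)))) (a (b (a (b (l 16504816) (l 16514368)) (b (l 16507624) (l 16516032))) (l 16531048)) (b (a (l 16516464) (l 16518072)) (a (l 16533464) (l 16532664)))))) (a (b (b (l 16562600) (l 16591424)) (b (l 16622792) (l 16655504))) (b (a (l 16564080) (b (l 16550136) (l 16569840))) (a (l 16616648) (l 16604280))))), by decide +kernel⟩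

def k3_pm_202 : ∃ t, chk3 f_pm_202 t 3 4 1 = true :=
  ⟨(b (a (l 1) (b (a (l 1) (l 6)) (b (a (a (l 1) (l 6)) (l 6)) (b (a (a (l 1) (l 6)) (l 6)) (a (a (a (l 1) (l 347388785975)) (b (l 6) (c (l 16599720) (l 16594760)))) (a (l 16680104) (l 16677928))))))) (a (a (b (l 1) (b (a (b (l 1) (a (l 1) (l 16539040))) (b (a (l 1) (l 348462339847)) (a (l 324303135143) (c (l 16510080) (l 16539864))))) (b (a (c (a (l 16498584) (l 16511144)) (l 221760766519)) (a (l 16455304) (l 16552856))) (a (a (l 16437360) (l 16533608)) (l 16552776))))) (b (b (a (l 1) (b (l 1) (a (l 310881442503) (l 368326667735)))) (a (b (a (l 1) (l 307660188535)) (a (l 315713232167) (l 411276293463))) (a (b (l 386043386903) (b (l 16584680) (l 16565976))) (b (b (l 16599496) (l 16580416)) (l 16604200))))) (a (a (b (b (l 427919274247) (l 16477672)) (l 16570168)) (b (c (l 16495960) (b (l 16567088) (l 16572632))) (l 16573672))) (b (b (l 16525816) (l 16594584)) (l 16576128))))) (a (b (a (a (b (b (l 355441794359) (b (l 16615144) (l 16595712)))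 (l 16557528)) (b (b (b (l 16631736) (l 16611928)) (l 16634648)) (l 16630640))) (b (b (b (l 16639928) (l 16661512)) (l 16652528)) (l 16632640))) (a (b (l 16604008) (l 16579016)) (b (l 16606632) (l 16581528)))) (b (a (b (a (l 16659896) (l 16659536)) (l 16612088)) (a (l 16729040) (l 16705832))) (a (b (l 16606968) (l 16581832)) (b (l 16604688) (l 16579680))))))), by decide +kernel⟩

def k4_pm_202 : ∃ t, chk3 f_pm_202 t 3 5 1 = true :=
  ⟨(a (b (b (a (b (a (b (l 16535136) (l 16525568)) (l 16478336)) (b (a (l 16514680) (l 16524472)) (a (b (l 16507072) (a (l 16500816) (l 16503384))) (b (l 16516360) (l 16511248))))) (b (a (l 16549000) (l 16552416)) (b (a (l 16532112) (l 16535400)) (a (b (l 16524008) (l 16519152)) (b (l 16527304) (l 16522696)))))) (a (b (a (b (a (l 16494960) (l 16496392)) (l 16530792)) (b (l 16503176) (l 16493056))) (a (l 16490720) (l 16492272))) (b (a (l 16505800) (l 16509184)) (a (l 16496688) (l 16498960))))) (a (b (a (c (l 16497280) (l 16499904)) (b (l 16495912) (l 16499360)))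 (a (l 16503368) (l 16502528))) (b (a (l 16517992) (l 16495272)) (a (l 16499280) (l 16492072))))) (b (b (a (b (a (l 16555152) (l 16557616)) (b (l 16539568) (a (l 16612592) (l 16594552)))) (b (a (l 16557992) (l 16556080)) (b (l 16582784) (b (l 16533128) (a (l 16529560) (l 16528432)))))) (a (b (a (l 16512112) (l 16515024)) (l 16502080)) (a (b (l 16516112) (l 16502848)) (b (l 16514456) (l 16497760))))) (b (a (a (l 16494600) (l 16493208)) (a (l 16488072) (l 16478488))) (a (l 16545320) (l 16464240))))), by decide +kernel⟩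

def k5_pm_202 : ∃ t, chk3 f_pm_202 t 3 3 1 = true :=
  ⟨(b (a (b (a (b (a (l 16505456) (l 16503680)) (a (l 16508360) (l 16505088))) (b (l 16473440) (l 16493176))) (a (b (a (l 16515112) (l 16509504)) (l 16525320)) (b (l 16515456) (l 16500504)))) (b (a (b (l 16473280) (l 16468656)) (a (l 16451944) (l 16437520))) (a (b (l 16466760) (l 16469352)) (b (l 16437472) (l 16438704))))) (b (a (a (b (l 16538976) (l 16554792)) (l 16515664)) (a (l 16480776) (l 16449440))) (a (a (l 16583200) (l 16546864)) (l 16683912)))), by decide +kernel⟩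

theorem s6_pm_202 : ∃ t, chk3 f_pm_202 t 3 2 1 = true := ex3_b k3_pm_202 k4_pm_202

theorem s7_pm_202 : ∃ t, chk3 f_pm_202 t 3 1 1 = true := ex3_b s6_pm_202 k5_pm_202

theorem s8_pm_202 : ∃ t, chk3 f_pm_202 t 2 2 1 = true := ex3_a k0_pm_202 k1_pm_202

theorem s9_pm_202 : ∃ t, chk3 f_pm_202 t 2 1 1 = true := ex3_b s8_pm_202 k2_pm_202

theorem s10_pm_202 : ∃ t, chk3 f_pm_202 t 1 1 1 = true := ex3_a s9_pm_202 s7_pm_202

theorem c_pm_202 : CertB 0 536870912 0 536870912 697932185 42949674 3 eng mog cd0q2 cd3q0 pd2 true true false .pp 2 0 2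
    ndB0q2 ndB3q0 pcB2 cut_pm_202 Ext.none :=
  certB1 (fam := true) (s1 := true) (s2 := false) (a := 2) (b := 0) (c := 2) (cn := .pp) (n1 := ndB0q2) (n2 := ndB3q0) (pc := pcB2) (cut := cut_pm_202) (xt := Ext.none) (P1 := 0) (W1 := 536870912) (P2 := 0) (W2 := 536870912) (P3 := 697932185) (W3 := 42949674) (N0 := 3) (En := eng) (mo := mog) (C1 := cd0q2) (C2 := cd3q0) (C3 := pd2)
    rfl (fun _ => rfl) s10_pm_202

noncomputable def f_pm_203 : ℕ → ℕ → ℕ → ℕ → Bool := onCell 0 536870912 1610612736 536870912 697932185 42949674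
    (rowB 3 eng mog cd0q2 cd3q0 pd3 1 true true false .up 2 0 3 (qsf 0 536870912 0 536870912 3) ndB0q2 ndB3q0 pcB3 Cut.none Ext.none)

def k0_pm_203 : ∃ t, chk3 f_pm_203 t 1 1 1 = true :=
  ⟨(b (b (a (a (b (b (l 16726792) (l 16705712)) (b (l 16715904) (l 4))) (b (a (l 16674568) (l 16659600)) (a (l 16731368) (l 16706016)))) (a (b (a (l 16636584) (l 16600520)) (a (l 16698928) (l 16686032))) (b (a (l 16570160) (l 16548600)) (l 16693160)))) (a (a (l 4) (b (b (l 16728888) (l 2)) (l 2))) (a (l 2) (l 2)))) (l 2)), by decide +kernel⟩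

theorem c_pm_203 : CertB 0 536870912 0 536870912 697932185 42949674 3 eng mog cd0q2 cd3q0 pd3 true true false .up 2 0 3
    ndB0q2 ndB3q0 pcB3 Cut.none Ext.none :=
  certB1 (fam := true) (s1 := true) (s2 := false) (a := 2) (b := 0) (c := 3) (cn := .up) (n1 := ndB0q2) (n2 := ndB3q0) (pc := pcB3) (cut := Cut.none) (xt := Ext.none) (P1 := 0) (W1 := 536870912) (P2 := 0) (W2 := 536870912) (P3 := 697932185) (W3 := 42949674) (N0 := 3) (En := eng) (mo := mog) (C1 := cd0q2) (C2 := cd3q0) (C3 := pd3)
    rfl (fun _ => rfl) k0_pm_203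

noncomputable def f_pm_213 : ℕ → ℕ → ℕ → ℕ → Bool := onCell 0 536870912 1610612736 536870912 697932185 42949674
    (rowB 3 eng mog cd0q2 cd3q1 pd3 1 true true false .pnn 2 1 3 (qsf 0 536870912 536870912 536870912 3) ndB0q2 ndB3q1 pcB3 Cut.none Ext.none)

def k0_pm_213 : ∃ t, chk3 f_pm_213 t 1 1 1 = true :=
  ⟨(a (b (b (a (l 1) (b (l 1) (a (l 1) (l 16693776)))) (a (l 4) (b (b (l 16670752) (l 16653192)) (l 4)))) (l 4)) (b (b (a (b (l 1) (l 286185840423)) (b (a (l 16599112) (l 16581504)) (l 16736608))) (b (a (l 16844848) (b (l 16895424) (l 16907224))) (a (l 16816256) (l 16825368)))) (b (a (b (a (l 4) (l 16548856)) (l 4)) (b (b (l 16756792) (l 16674080)) (a (l 4) (b (l 16698784) (l 16665992))))) (l 4)))), by decide +kernel⟩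

theorem c_pm_213 : CertB 0 536870912 536870912 536870912 697932185 42949674 3 eng mog cd0q2 cd3q1 pd3 true true false .pnn 2 1 3
    ndB0q2 ndB3q1 pcB3 Cut.none Ext.none :=
  certB1 (fam := true) (s1 := true) (s2 := false) (a := 2) (b := 1) (c := 3) (cn := .pnn) (n1 := ndB0q2) (n2 := ndB3q1) (pc := pcB3) (cut := Cut.none) (xt := Ext.none) (P1 := 0) (W1 := 536870912) (P2 := 536870912) (W2 := 536870912) (P3 := 697932185) (W3 := 42949674) (N0 := 3) (En := eng) (mo := mog) (C1 := cd0q2) (C2 := cd3q1) (C3 := pd3)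
    rfl (fun _ => rfl) k0_pm_213

noncomputable def f_mm_001 : ℕ → ℕ → ℕ → ℕ → Bool := onCell 0 536870912 0 536870912 697932185 42949674
    (rowB 3 eng mog cd0q0 cd3q0 pd1 0 true false false .up 0 0 1 (qsf 0 536870912 0 536870912 1) ndB0q0 ndB3q0 pcB1 Cut.none Ext.none)

def k0_mm_001 : ∃ t, chk3 f_mm_001 t 1 1 1 = true :=
  ⟨(l 4), by decide +kernel⟩

theorem c_mm_001 : CertB 0 536870912 0 536870912 697932185 42949674 3 eng mog cd0q0 cd3q0 pd1 true false false .up 0 0 1
    ndB0q0 ndB3q0 pcB1 Cut.none Ext.none :=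
  certB0 (fam := true) (s1 := false) (s2 := false) (a := 0) (b := 0) (c := 1) (cn := .up) (n1 := ndB0q0) (n2 := ndB3q0) (pc := pcB1) (cut := Cut.none) (xt := Ext.none) (P1 := 0) (W1 := 536870912) (P2 := 0) (W2 := 536870912) (P3 := 697932185) (W3 := 42949674) (N0 := 3) (En := eng) (mo := mog) (C1 := cd0q0) (C2 := cd3q0) (C3 := pd1)
    rfl k0_mm_001

noncomputable def f_mm_011 : ℕ → ℕ → ℕ → ℕ → Bool := onCell 0 536870912 536870912 536870912 697932185 42949674
    (rowB 3 eng mog cd0q0 cd3q1 pd1 0 true false false .pnn 0 1 1 (qsf 0 536870912 536870912 536870912 1) ndB0q0 ndB3q1 pcB1 Cut.none Ext.none)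

def k0_mm_011 : ∃ t, chk3 f_mm_011 t 1 1 1 = true :=
  ⟨(l 4), by decide +kernel⟩

theorem c_mm_011 : CertB 0 536870912 536870912 536870912 697932185 42949674 3 eng mog cd0q0 cd3q1 pd1 true false false .pnn 0 1 1
    ndB0q0 ndB3q1 pcB1 Cut.none Ext.none :=
  certB0 (fam := true) (s1 := false) (s2 := false) (a := 0) (b := 1) (c := 1) (cn := .pnn) (n1 := ndB0q0) (n2 := ndB3q1) (pc := pcB1) (cut := Cut.none) (xt := Ext.none) (P1 := 0) (W1 := 536870912) (P2 := 536870912) (W2 := 536870912) (P3 := 697932185) (W3 := 42949674) (N0 := 3) (En := eng) (mo := mog) (C1 := cd0q0) (C2 := cd3q1) (C3 := pd1)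
    rfl k0_mm_011

noncomputable def f_mm_012 : ℕ → ℕ → ℕ → ℕ → Bool := onCell 0 536870912 536870912 536870912 697932185 42949674
    (rowB 3 eng mog cd0q0 cd3q1 pd2 0 true false false .pnp 0 1 2 (qsf 0 536870912 536870912 536870912 2) ndB0q0 ndB3q1 pcB2 Cut.none Ext.none)

def k0_mm_012 : ∃ t, chk3 f_mm_012 t 1 1 1 = true :=
  ⟨(l 4), by decide +kernel⟩

theorem c_mm_012 : CertB 0 536870912 536870912 536870912 697932185 42949674 3 eng mog cd0q0 cd3q1 pd2 true false false .pnp 0 1 2
    ndB0q0 ndB3q1 pcB2 Cut.none Ext.none :=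
  certB0 (fam := true) (s1 := false) (s2 := false) (a := 0) (b := 1) (c := 2) (cn := .pnp) (n1 := ndB0q0) (n2 := ndB3q1) (pc := pcB2) (cut := Cut.none) (xt := Ext.none) (P1 := 0) (W1 := 536870912) (P2 := 536870912) (W2 := 536870912) (P3 := 697932185) (W3 := 42949674) (N0 := 3) (En := eng) (mo := mog) (C1 := cd0q0) (C2 := cd3q1) (C3 := pd2)
    rfl k0_mm_012

noncomputable def f_mm_022_a : ℕ → ℕ → ℕ → ℕ → Bool := onCell 0 536870912 0 536870912 697932185 42949674
    (rowB 3 eng mog cd0q0 cd3q2a pd2 0 true false false .pp 0 2 2 (qsf 0 536870912 0 536870912 2) ndB0q0 ndB3q2a pcB2 Cut.none Ext.none)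

def k0_mm_022_a : ∃ t, chk3 f_mm_022_a t 1 1 1 = true :=
  ⟨(l 5), by decide +kernel⟩

theorem c_mm_022_a : CertB 0 536870912 0 536870912 697932185 42949674 3 eng mog cd0q0 cd3q2a pd2 true false false .pp 0 2 2
    ndB0q0 ndB3q2a pcB2 Cut.none Ext.none :=
  certB0 (fam := true) (s1 := false) (s2 := false) (a := 0) (b := 2) (c := 2) (cn := .pp) (n1 := ndB0q0) (n2 := ndB3q2a) (pc := pcB2) (cut := Cut.none) (xt := Ext.none) (P1 := 0) (W1 := 536870912) (P2 := 0) (W2 := 536870912) (P3 := 697932185) (W3 := 42949674) (N0 := 3) (En := eng) (mo := mog) (C1 := cd0q0) (C2 := cd3q2a) (C3 := pd2)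
    rfl k0_mm_022_a

noncomputable def f_mm_022_b : ℕ → ℕ → ℕ → ℕ → Bool := onCell 0 536870912 1239849684 370763052 697932185 42949674
    (rowB 3 eng mog cd0q0 cd3q2b pd2 0 true false false .pp 0 2 2 (qsf 0 536870912 1239849684 370763052 2) ndB0q0 ndB3q2b pcB2 Cut.none Ext.none)

def k0_mm_022_b : ∃ t, chk3 f_mm_022_b t 1 1 1 = true :=
  ⟨(l 5), by decide +kernel⟩

theorem c_mm_022_b : CertB 0 536870912 1239849684 370763052 697932185 42949674 3 eng mog cd0q0 cd3q2b pd2 true false false .pp 0 2 2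
    ndB0q0 ndB3q2b pcB2 Cut.none Ext.none :=
  certB0 (fam := true) (s1 := false) (s2 := false) (a := 0) (b := 2) (c := 2) (cn := .pp) (n1 := ndB0q0) (n2 := ndB3q2b) (pc := pcB2) (cut := Cut.none) (xt := Ext.none) (P1 := 0) (W1 := 536870912) (P2 := 1239849684) (W2 := 370763052) (P3 := 697932185) (W3 := 42949674) (N0 := 3) (En := eng) (mo := mog) (C1 := cd0q0) (C2 := cd3q2b) (C3 := pd2)
    rfl k0_mm_022_b

noncomputable def f_mm_023_a : ℕ → ℕ → ℕ → ℕ → Bool := onCell 0 536870912 0 536870912 697932185 42949674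
    (rowB 3 eng mog cd0q0 cd3q2a pd3 0 true false false .up 0 2 3 (qsf 0 536870912 0 536870912 3) ndB0q0 ndB3q2a pcB3 Cut.none Ext.none)

def k0_mm_023_a : ∃ t, chk3 f_mm_023_a t 1 1 1 = true :=
  ⟨(l 5), by decide +kernel⟩

theorem c_mm_023_a : CertB 0 536870912 0 536870912 697932185 42949674 3 eng mog cd0q0 cd3q2a pd3 true false false .up 0 2 3
    ndB0q0 ndB3q2a pcB3 Cut.none Ext.none :=
  certB0 (fam := true) (s1 := false) (s2 := false) (a := 0) (b := 2) (c := 3) (cn := .up) (n1 := ndB0q0) (n2 := ndB3q2a) (pc := pcB3) (cut := Cut.none) (xt := Ext.none) (P1 := 0) (W1 := 536870912) (P2 := 0) (W2 := 536870912) (P3 := 697932185) (W3 := 42949674) (N0 := 3) (En := eng) (mo := mog) (C1 := cd0q0) (C2 := cd3q2a) (C3 := pd3)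
    rfl k0_mm_023_a

noncomputable def f_mm_023_b : ℕ → ℕ → ℕ → ℕ → Bool := onCell 0 536870912 1239849684 370763052 697932185 42949674
    (rowB 3 eng mog cd0q0 cd3q2b pd3 0 true false false .up 0 2 3 (qsf 0 536870912 1239849684 370763052 3) ndB0q0 ndB3q2b pcB3 Cut.none Ext.none)

def k0_mm_023_b : ∃ t, chk3 f_mm_023_b t 1 1 1 = true :=
  ⟨(l 5), by decide +kernel⟩

theorem c_mm_023_b : CertB 0 536870912 1239849684 370763052 697932185 42949674 3 eng mog cd0q0 cd3q2b pd3 true false false .up 0 2 3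
    ndB0q0 ndB3q2b pcB3 Cut.none Ext.none :=
  certB0 (fam := true) (s1 := false) (s2 := false) (a := 0) (b := 2) (c := 3) (cn := .up) (n1 := ndB0q0) (n2 := ndB3q2b) (pc := pcB3) (cut := Cut.none) (xt := Ext.none) (P1 := 0) (W1 := 536870912) (P2 := 1239849684) (W2 := 370763052) (P3 := 697932185) (W3 := 42949674) (N0 := 3) (En := eng) (mo := mog) (C1 := cd0q0) (C2 := cd3q2b) (C3 := pd3)
    rfl k0_mm_023_b

noncomputable def f_mm_033 : ℕ → ℕ → ℕ → ℕ → Bool := onCell 0 536870912 1610612736 536870912 697932185 42949674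
    (rowB 3 eng mog cd0q0 cd3q3 pd3 0 true false false .pnn 0 3 3 (qsf 0 536870912 1610612736 536870912 3) ndB0q0 ndB3q3 pcB3 Cut.none Ext.none)

def k0_mm_033 : ∃ t, chk3 f_mm_033 t 1 1 1 = true :=
  ⟨(l 5), by decide +kernel⟩

theorem c_mm_033 : CertB 0 536870912 1610612736 536870912 697932185 42949674 3 eng mog cd0q0 cd3q3 pd3 true false false .pnn 0 3 3
    ndB0q0 ndB3q3 pcB3 Cut.none Ext.none :=
  certB0 (fam := true) (s1 := false) (s2 := false) (a := 0) (b := 3) (c := 3) (cn := .pnn) (n1 := ndB0q0) (n2 := ndB3q3) (pc := pcB3) (cut := Cut.none) (xt := Ext.none) (P1 := 0) (W1 := 536870912) (P2 := 1610612736) (W2 := 536870912) (P3 := 697932185) (W3 := 42949674) (N0 := 3) (En := eng) (mo := mog) (C1 := cd0q0) (C2 := cd3q3) (C3 := pd3)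
    rfl k0_mm_033

noncomputable def cut_mm_101 : Cut := Cut.of [[⟨0, 1, 0, 67108864⟩, ⟨1, 0, 0, 67108864⟩, ⟨2, 1, 0, 67108864⟩]]

noncomputable def f_mm_101 : ℕ → ℕ → ℕ → ℕ → Bool := onCell 536870912 536870912 0 536870912 697932185 42949674
    (rowB 3 eng mog cd0q1 cd3q0 pd1 0 true false false .npn 1 0 1 (qsf 536870912 536870912 0 536870912 1) ndB0q1 ndB3q0 pcB1 cut_mm_101 Ext.none)

def k0_mm_101 : ∃ t, chk3 f_mm_101 t 1 1 1 = true :=
  ⟨(a (l 4) (b (a (l 4) (b (a (l 4) (b (a (l 4) (b (l 6) (l 4))) (l 4))) (l 4))) (l 4))), by decide +kernel⟩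

theorem c_mm_101 : CertB 536870912 536870912 0 536870912 697932185 42949674 3 eng mog cd0q1 cd3q0 pd1 true false false .npn 1 0 1
    ndB0q1 ndB3q0 pcB1 cut_mm_101 Ext.none :=
  certB0 (fam := true) (s1 := false) (s2 := false) (a := 1) (b := 0) (c := 1) (cn := .npn) (n1 := ndB0q1) (n2 := ndB3q0) (pc := pcB1) (cut := cut_mm_101) (xt := Ext.none) (P1 := 536870912) (W1 := 536870912) (P2 := 0) (W2 := 536870912) (P3 := 697932185) (W3 := 42949674) (N0 := 3) (En := eng) (mo := mog) (C1 := cd0q1) (C2 := cd3q0) (C3 := pd1)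
    rfl k0_mm_101

noncomputable def cut_mm_102 : Cut := Cut.of [[⟨0, 1, 0, 67108864⟩, ⟨1, 0, 0, 67108864⟩, ⟨2, 1, 0, 67108864⟩]]

noncomputable def f_mm_102 : ℕ → ℕ → ℕ → ℕ → Bool := onCell 536870912 536870912 0 536870912 697932185 42949674
    (rowB 3 eng mog cd0q1 cd3q0 pd2 0 true false false .npp 1 0 2 (qsf 536870912 536870912 0 536870912 2) ndB0q1 ndB3q0 pcB2 cut_mm_102 Ext.none)

def k0_mm_102 : ∃ t, chk3 f_mm_102 t 1 1 1 = true :=
  ⟨(a (l 4) (b (a (l 4) (b (a (l 4) (a (l 4) (b (b (l 6) (l 4)) (l 4)))) (l 4))) (l 4))), by decide +kernel⟩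

theorem c_mm_102 : CertB 536870912 536870912 0 536870912 697932185 42949674 3 eng mog cd0q1 cd3q0 pd2 true false false .npp 1 0 2
    ndB0q1 ndB3q0 pcB2 cut_mm_102 Ext.none :=
  certB0 (fam := true) (s1 := false) (s2 := false) (a := 1) (b := 0) (c := 2) (cn := .npp) (n1 := ndB0q1) (n2 := ndB3q0) (pc := pcB2) (cut := cut_mm_102) (xt := Ext.none) (P1 := 536870912) (W1 := 536870912) (P2 := 0) (W2 := 536870912) (P3 := 697932185) (W3 := 42949674) (N0 := 3) (En := eng) (mo := mog) (C1 := cd0q1) (C2 := cd3q0) (C3 := pd2)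
    rfl k0_mm_102

noncomputable def f_mm_112 : ℕ → ℕ → ℕ → ℕ → Bool := onCell 536870912 536870912 536870912 536870912 697932185 42949674
    (rowB 3 eng mog cd0q1 cd3q1 pd2 0 true false false .dn 1 1 2 (qsf 536870912 536870912 536870912 536870912 2) ndB0q1 ndB3q1 pcB2 Cut.none Ext.none)

def k0_mm_112 : ∃ t, chk3 f_mm_112 t 1 1 1 = true :=
  ⟨(l 4), by decide +kernel⟩

theorem c_mm_112 : CertB 536870912 536870912 536870912 536870912 697932185 42949674 3 eng mog cd0q1 cd3q1 pd2 true false false .dn 1 1 2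
    ndB0q1 ndB3q1 pcB2 Cut.none Ext.none :=
  certB0 (fam := true) (s1 := false) (s2 := false) (a := 1) (b := 1) (c := 2) (cn := .dn) (n1 := ndB0q1) (n2 := ndB3q1) (pc := pcB2) (cut := Cut.none) (xt := Ext.none) (P1 := 536870912) (W1 := 536870912) (P2 := 536870912) (W2 := 536870912) (P3 := 697932185) (W3 := 42949674) (N0 := 3) (En := eng) (mo := mog) (C1 := cd0q1) (C2 := cd3q1) (C3 := pd2)
    rfl k0_mm_112

noncomputable def f_mm_113 : ℕ → ℕ → ℕ → ℕ → Bool := onCell 536870912 536870912 536870912 536870912 697932185 42949674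
    (rowB 3 eng mog cd0q1 cd3q1 pd3 0 true false false .nn 1 1 3 (qsf 536870912 536870912 536870912 536870912 3) ndB0q1 ndB3q1 pcB3 Cut.none Ext.none)

def k0_mm_113 : ∃ t, chk3 f_mm_113 t 1 1 1 = true :=
  ⟨(l 4), by decide +kernel⟩

theorem c_mm_113 : CertB 536870912 536870912 536870912 536870912 697932185 42949674 3 eng mog cd0q1 cd3q1 pd3 true false false .nn 1 1 3
    ndB0q1 ndB3q1 pcB3 Cut.none Ext.none :=
  certB0 (fam := true) (s1 := false) (s2 := false) (a := 1) (b := 1) (c := 3) (cn := .nn) (n1 := ndB0q1) (n2 := ndB3q1) (pc := pcB3) (cut := Cut.none) (xt := Ext.none) (P1 := 536870912) (W1 := 536870912) (P2 := 536870912) (W2 := 536870912) (P3 := 697932185) (W3 := 42949674) (N0 := 3) (En := eng) (mo := mog) (C1 := cd0q1) (C2 := cd3q1) (C3 := pd3)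
    rfl k0_mm_113

noncomputable def f_mm_123_a : ℕ → ℕ → ℕ → ℕ → Bool := onCell 536870912 536870912 0 536870912 697932185 42949674
    (rowB 3 eng mog cd0q1 cd3q2a pd3 0 true false false .npn 1 2 3 (qsf 536870912 536870912 0 536870912 3) ndB0q1 ndB3q2a pcB3 Cut.none Ext.none)

def k0_mm_123_a : ∃ t, chk3 f_mm_123_a t 1 1 1 = true :=
  ⟨(l 4), by decide +kernel⟩

theorem c_mm_123_a : CertB 536870912 536870912 0 536870912 697932185 42949674 3 eng mog cd0q1 cd3q2a pd3 true false false .npn 1 2 3
    ndB0q1 ndB3q2a pcB3 Cut.none Ext.none :=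
  certB0 (fam := true) (s1 := false) (s2 := false) (a := 1) (b := 2) (c := 3) (cn := .npn) (n1 := ndB0q1) (n2 := ndB3q2a) (pc := pcB3) (cut := Cut.none) (xt := Ext.none) (P1 := 536870912) (W1 := 536870912) (P2 := 0) (W2 := 536870912) (P3 := 697932185) (W3 := 42949674) (N0 := 3) (En := eng) (mo := mog) (C1 := cd0q1) (C2 := cd3q2a) (C3 := pd3)
    rfl k0_mm_123_a

noncomputable def f_mm_123_b : ℕ → ℕ → ℕ → ℕ → Bool := onCell 536870912 536870912 1239849684 370763052 697932185 42949674
    (rowB 3 eng mog cd0q1 cd3q2b pd3 0 true false false .npn 1 2 3 (qsf 536870912 536870912 1239849684 370763052 3) ndB0q1 ndB3q2b pcB3 Cut.none Ext.none)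

def k0_mm_123_b : ∃ t, chk3 f_mm_123_b t 1 1 1 = true :=
  ⟨(l 4), by decide +kernel⟩

theorem c_mm_123_b : CertB 536870912 536870912 1239849684 370763052 697932185 42949674 3 eng mog cd0q1 cd3q2b pd3 true false false .npn 1 2 3
    ndB0q1 ndB3q2b pcB3 Cut.none Ext.none :=
  certB0 (fam := true) (s1 := false) (s2 := false) (a := 1) (b := 2) (c := 3) (cn := .npn) (n1 := ndB0q1) (n2 := ndB3q2b) (pc := pcB3) (cut := Cut.none) (xt := Ext.none) (P1 := 536870912) (W1 := 536870912) (P2 := 1239849684) (W2 := 370763052) (P3 := 697932185) (W3 := 42949674) (N0 := 3) (En := eng) (mo := mog) (C1 := cd0q1) (C2 := cd3q2b) (C3 := pd3)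
    rfl k0_mm_123_b

noncomputable def f_mm_133 : ℕ → ℕ → ℕ → ℕ → Bool := onCell 536870912 536870912 1610612736 536870912 697932185 42949674
    (rowB 3 eng mog cd0q1 cd3q3 pd3 0 true false false .dn 1 3 3 (qsf 536870912 536870912 1610612736 536870912 3) ndB0q1 ndB3q3 pcB3 Cut.none Ext.none)

def k0_mm_133 : ∃ t, chk3 f_mm_133 t 1 1 1 = true :=
  ⟨(l 4), by decide +kernel⟩

theorem c_mm_133 : CertB 536870912 536870912 1610612736 536870912 697932185 42949674 3 eng mog cd0q1 cd3q3 pd3 true false false .dn 1 3 3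
    ndB0q1 ndB3q3 pcB3 Cut.none Ext.none :=
  certB0 (fam := true) (s1 := false) (s2 := false) (a := 1) (b := 3) (c := 3) (cn := .dn) (n1 := ndB0q1) (n2 := ndB3q3) (pc := pcB3) (cut := Cut.none) (xt := Ext.none) (P1 := 536870912) (W1 := 536870912) (P2 := 1610612736) (W2 := 536870912) (P3 := 697932185) (W3 := 42949674) (N0 := 3) (En := eng) (mo := mog) (C1 := cd0q1) (C2 := cd3q3) (C3 := pd3)
    rfl k0_mm_133

noncomputable def cut_mm_202 : Cut := Cut.of [[⟨0, 1, 0, 67108864⟩, ⟨1, 0, 0, 67108864⟩, ⟨2, 1, 0, 67108864⟩]]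

noncomputable def f_mm_202 : ℕ → ℕ → ℕ → ℕ → Bool := onCell 0 536870912 0 536870912 697932185 42949674
    (rowB 3 eng mog cd0q2 cd3q0 pd2 0 true false false .pp 2 0 2 (qsf 0 536870912 0 536870912 2) ndB0q2 ndB3q0 pcB2 cut_mm_202 Ext.none)

def k0_mm_202 : ∃ t, chk3 f_mm_202 t 2 2 1 = true :=
  ⟨(b (a (b (b (a (b (a (b (l 16447392) (c (l 16442112) (l 16444024))) (b (l 16469504) (l 16444704))) (a (a (b (l 16443160) (l 16447200)) (b (l 16443136) (l 16447560))) (l 16446992))) (b (l 16455984) (a (l 16451408) (l 16438272)))) (a (a (b (l 16453856) (l 16461656)) (l 16460320)) (l 16468984))) (a (b (l 16474776) (l 16490176)) (b (l 16487264) (l 16505640)))) (b (a (b (b (a (l 16471272) (l 16484096)) (a (l 16427976) (l 16482896))) (a (l 16482480) (b (l 16488336) (l 16498928)))) (b (b (a (a (l 16494264) (l 16501936)) (b (a (l 16511800) (l 16523016)) (l 16517024))) (a (l 16481952) (l 16517560))) (a (b (b (l 16499448) (l 16503072)) (l 16511312)) (b (a (l 16514656) (l 16526584)) (l 16445272))))) (a (b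 (l 16508944) (l 16530104)) (b (a (l 16528104) (l 16546568)) (l 16562280))))) (a (a (b (b (l 16505720) (l 16524848)) (l 16566992)) (b (b (l 16524272) (l 16546080)) (b (l 16575232) (l 16607064)))) (b (a (b (l 16552192) (l 16576776)) (b (l 16587808) (l 16616512))) (a (b (l 16607496) (l 16640456)) (l 4))))), by decide +kernel⟩

def k1_mm_202 : ∃ t, chk3 f_mm_202 t 6 4 1 = true :=
  ⟨(b (a (b (b (b (a (a (b (l 16535744) (l 16535400)) (b (l 16543552) (l 16548552))) (a (b (b (l 16558848) (l 16553616)) (l 16557504)) (b (a (l 16559488) (l 16574952)) (l 16567368)))) (a (a (l 16535240) (l 16548720)) (a (l 16562464) (l 16575144)))) (a (a (l 16536208) (l 16549944)) (b (l 16570400) (l 16571992)))) (b (a (a (l 16539960) (l 16554048)) (l 16575656)) (a (l 16553912) (l 16519888)))) (b (b (a (b (a (b (a (l 16579952) (b (l 16573048) (l 16575928))) (a (l 16575016) (l 16580168))) (b (b (a (l 16578104) (l 16583232)) (l 16583672)) (l 16588056))) (a (l 16585720) (l 16596536))) (b (a (b (b (a (l 16588448) (l 16593896))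 (l 16594304)) (l 16598904)) (b (b (a (l 16599800) (l 16606176)) (l 16606224)) (l 16611040))) (a (l 16607800) (b (l 16617288) (l 16623352))))) (a (b (l 16601024) (l 16602880)) (b (l 16625624) (l 16636440)))) (b (a (l 16606960) (l 16641976)) (a (l 16614680) (l 16650200))))) (a (b (a (l 16528992) (b (l 16592984) (l 16605280))) (l 16696248)) (a (b (b (l 16624768) (l 16637544)) (l 16661472)) (b (b (l 16661904) (l 16677528)) (l 4))))), by decide +kernel⟩

def k2_mm_202 : ∃ t, chk3 f_mm_202 t 7 4 1 = true :=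
  ⟨(b (a (b (b (a (b (b (b (a (a (l 16613032) (l 16620368)) (a (l 16628192) (l 6))) (a (l 16620072) (l 16635832))) (a (l 16625072) (l 16641000))) (a (l 16655736) (b (l 16647728) (l 16654272)))) (b (a (b (l 6) (l 16669176)) (l 6)) (a (a (l 16664336) (l 16673736)) (a (l 16683544) (l 6))))) (a (a (l 16652896) (l 16669856)) (b (a (l 16682168) (l 16702184)) (l 16704464)))) (b (a (l 16676352) (b (l 16729408) (l 16714816))) (a (l 16686928) (l 16780208)))) (b (a (b (l 6) (a (b (l 6) (l 16730544)) (l 6))) (l 6)) (a (b (l 4) (l 4)) (l 4)))) (a (b (a (b (l 16702648) (l 4)) (l 4)) (l 4)) (l 4))), by decide +kernel⟩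

def k3_mm_202 : ∃ t, chk3 f_mm_202 t 3 5 1 = true :=
  ⟨(a (b (a (b (l 16724432) (l 4)) (l 4)) (l 4)) (l 4)), by decide +kernel⟩

def k4_mm_202 : ∃ t, chk3 f_mm_202 t 1 3 1 = true :=
  ⟨(a (b (a (b (a (b (l 16615032) (l 16648792)) (b (l 16640712) (l 4))) (b (a (l 16681912) (l 4)) (l 4))) (l 4)) (l 4)) (l 4)), by decide +kernel⟩

theorem s5_mm_202 : ∃ t, chk3 f_mm_202 t 3 4 1 = true := ex3_a k1_mm_202 k2_mm_202

theorem s6_mm_202 : ∃ t, chk3 f_mm_202 t 3 2 1 = true := ex3_b s5_mm_202 k3_mm_202

theorem s7_mm_202 : ∃ t, chk3 f_mm_202 t 1 2 1 = true := ex3_a k0_mm_202 s6_mm_202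

theorem s8_mm_202 : ∃ t, chk3 f_mm_202 t 1 1 1 = true := ex3_b s7_mm_202 k4_mm_202

theorem c_mm_202 : CertB 0 536870912 0 536870912 697932185 42949674 3 eng mog cd0q2 cd3q0 pd2 true false false .pp 2 0 2
    ndB0q2 ndB3q0 pcB2 cut_mm_202 Ext.none :=
  certB0 (fam := true) (s1 := false) (s2 := false) (a := 2) (b := 0) (c := 2) (cn := .pp) (n1 := ndB0q2) (n2 := ndB3q0) (pc := pcB2) (cut := cut_mm_202) (xt := Ext.none) (P1 := 0) (W1 := 536870912) (P2 := 0) (W2 := 536870912) (P3 := 697932185) (W3 := 42949674) (N0 := 3) (En := eng) (mo := mog) (C1 := cd0q2) (C2 := cd3q0) (C3 := pd2)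
    rfl s8_mm_202

noncomputable def f_mm_203 : ℕ → ℕ → ℕ → ℕ → Bool := onCell 0 536870912 1610612736 536870912 697932185 42949674
    (rowB 3 eng mog cd0q2 cd3q0 pd3 1 true false false .up 2 0 3 (qsf 0 536870912 0 536870912 3) ndB0q2 ndB3q0 pcB3 Cut.none Ext.none)

def k0_mm_203 : ∃ t, chk3 f_mm_203 t 1 1 1 = true :=
  ⟨(b (a (l 4) (l 4)) (l 2)), by decide +kernel⟩

theorem c_mm_203 : CertB 0 536870912 0 536870912 697932185 42949674 3 eng mog cd0q2 cd3q0 pd3 true false false .up 2 0 3
    ndB0q2 ndB3q0 pcB3 Cut.none Ext.none :=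
  certB1 (fam := true) (s1 := false) (s2 := false) (a := 2) (b := 0) (c := 3) (cn := .up) (n1 := ndB0q2) (n2 := ndB3q0) (pc := pcB3) (cut := Cut.none) (xt := Ext.none) (P1 := 0) (W1 := 536870912) (P2 := 0) (W2 := 536870912) (P3 := 697932185) (W3 := 42949674) (N0 := 3) (En := eng) (mo := mog) (C1 := cd0q2) (C2 := cd3q0) (C3 := pd3)
    rfl (fun _ => rfl) k0_mm_203

noncomputable def f_mm_213 : ℕ → ℕ → ℕ → ℕ → Bool := onCell 0 536870912 536870912 536870912 697932185 42949674
    (rowB 3 eng mog cd0q2 cd3q1 pd3 0 true false false .pnn 2 1 3 (qsf 0 536870912 536870912 536870912 3) ndB0q2 ndB3q1 pcB3 Cut.none Ext.none)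

def k0_mm_213 : ∃ t, chk3 f_mm_213 t 1 1 1 = true :=
  ⟨(l 4), by decide +kernel⟩

theorem c_mm_213 : CertB 0 536870912 536870912 536870912 697932185 42949674 3 eng mog cd0q2 cd3q1 pd3 true false false .pnn 2 1 3
    ndB0q2 ndB3q1 pcB3 Cut.none Ext.none :=
  certB0 (fam := true) (s1 := false) (s2 := false) (a := 2) (b := 1) (c := 3) (cn := .pnn) (n1 := ndB0q2) (n2 := ndB3q1) (pc := pcB3) (cut := Cut.none) (xt := Ext.none) (P1 := 0) (W1 := 536870912) (P2 := 536870912) (W2 := 536870912) (P3 := 697932185) (W3 := 42949674) (N0 := 3) (En := eng) (mo := mog) (C1 := cd0q2) (C2 := cd3q1) (C3 := pd3)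
    rfl k0_mm_213

end Pool.Agent.Strip051.G.I6500_6900.Tab.C.BA03

namespace Pool.Agent.Strip051.G.I6500_6900.Tab.C.BA04

open Pool.Agent.Strip051.PB Pool.Agent.Strip051.PB.T
open Pool.Agent.Strip051.G.I6500_6900.Tab

noncomputable def f_pp_001 : ℕ → ℕ → ℕ → ℕ → Bool := onCell 0 536870912 0 536870912 697932185 42949674
    (rowB 3 eng mog cd0q0 cd4q0 pd1 0 true true true .up 0 0 1 (qsf 0 536870912 0 536870912 1) ndB0q0 ndB4q0 pcB1 Cut.none Ext.none)

def k0_pp_001 : ∃ t, chk3 f_pp_001 t 1 1 1 = true :=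
  ⟨(l 4), by decide +kernel⟩

theorem c_pp_001 : CertB 0 536870912 0 536870912 697932185 42949674 3 eng mog cd0q0 cd4q0 pd1 true true true .up 0 0 1
    ndB0q0 ndB4q0 pcB1 Cut.none Ext.none :=
  certB0 (fam := true) (s1 := true) (s2 := true) (a := 0) (b := 0) (c := 1) (cn := .up) (n1 := ndB0q0) (n2 := ndB4q0) (pc := pcB1) (cut := Cut.none) (xt := Ext.none) (P1 := 0) (W1 := 536870912) (P2 := 0) (W2 := 536870912) (P3 := 697932185) (W3 := 42949674) (N0 := 3) (En := eng) (mo := mog) (C1 := cd0q0) (C2 := cd4q0) (C3 := pd1)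
    rfl k0_pp_001

noncomputable def f_pp_011 : ℕ → ℕ → ℕ → ℕ → Bool := onCell 0 536870912 536870912 536870912 697932185 42949674
    (rowB 3 eng mog cd0q0 cd4q1 pd1 0 true true true .pnn 0 1 1 (qsf 0 536870912 536870912 536870912 1) ndB0q0 ndB4q1 pcB1 Cut.none Ext.none)

def k0_pp_011 : ∃ t, chk3 f_pp_011 t 1 1 1 = true :=
  ⟨(l 4), by decide +kernel⟩

theorem c_pp_011 : CertB 0 536870912 536870912 536870912 697932185 42949674 3 eng mog cd0q0 cd4q1 pd1 true true true .pnn 0 1 1
    ndB0q0 ndB4q1 pcB1 Cut.none Ext.none :=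
  certB0 (fam := true) (s1 := true) (s2 := true) (a := 0) (b := 1) (c := 1) (cn := .pnn) (n1 := ndB0q0) (n2 := ndB4q1) (pc := pcB1) (cut := Cut.none) (xt := Ext.none) (P1 := 0) (W1 := 536870912) (P2 := 536870912) (W2 := 536870912) (P3 := 697932185) (W3 := 42949674) (N0 := 3) (En := eng) (mo := mog) (C1 := cd0q0) (C2 := cd4q1) (C3 := pd1)
    rfl k0_pp_011

noncomputable def f_pp_012 : ℕ → ℕ → ℕ → ℕ → Bool := onCell 0 536870912 536870912 536870912 697932185 42949674
    (rowB 3 eng mog cd0q0 cd4q1 pd2 0 true true true .pnp 0 1 2 (qsf 0 536870912 536870912 536870912 2) ndB0q0 ndB4q1 pcB2 Cut.none Ext.none)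

def k0_pp_012 : ∃ t, chk3 f_pp_012 t 1 1 1 = true :=
  ⟨(l 4), by decide +kernel⟩

theorem c_pp_012 : CertB 0 536870912 536870912 536870912 697932185 42949674 3 eng mog cd0q0 cd4q1 pd2 true true true .pnp 0 1 2
    ndB0q0 ndB4q1 pcB2 Cut.none Ext.none :=
  certB0 (fam := true) (s1 := true) (s2 := true) (a := 0) (b := 1) (c := 2) (cn := .pnp) (n1 := ndB0q0) (n2 := ndB4q1) (pc := pcB2) (cut := Cut.none) (xt := Ext.none) (P1 := 0) (W1 := 536870912) (P2 := 536870912) (W2 := 536870912) (P3 := 697932185) (W3 := 42949674) (N0 := 3) (En := eng) (mo := mog) (C1 := cd0q0) (C2 := cd4q1) (C3 := pd2)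
    rfl k0_pp_012

noncomputable def cut_pp_022_a : Cut := Cut.of [[⟨0, 0, 0, 67108864⟩, ⟨1, 1, 0, 67108864⟩, ⟨2, 1, 0, 67108864⟩]]

noncomputable def f_pp_022_a : ℕ → ℕ → ℕ → ℕ → Bool := onCell 0 536870912 0 536870912 697932185 42949674
    (rowB 3 eng mog cd0q0 cd4q2a pd2 0 true true true .pp 0 2 2 (qsf 0 536870912 0 536870912 2) ndB0q0 ndB4q2a pcB2 cut_pp_022_a Ext.none)

def k0_pp_022_a : ∃ t, chk3 f_pp_022_a t 1 1 1 = true :=
  ⟨(a (a (b (l 4) (b (l 4) (a (b (l 4) (a (b (l 4) (l 6)) (l 4))) (l 4)))) (l 4)) (l 4)), by decide +kernel⟩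

theorem c_pp_022_a : CertB 0 536870912 0 536870912 697932185 42949674 3 eng mog cd0q0 cd4q2a pd2 true true true .pp 0 2 2
    ndB0q0 ndB4q2a pcB2 cut_pp_022_a Ext.none :=
  certB0 (fam := true) (s1 := true) (s2 := true) (a := 0) (b := 2) (c := 2) (cn := .pp) (n1 := ndB0q0) (n2 := ndB4q2a) (pc := pcB2) (cut := cut_pp_022_a) (xt := Ext.none) (P1 := 0) (W1 := 536870912) (P2 := 0) (W2 := 536870912) (P3 := 697932185) (W3 := 42949674) (N0 := 3) (En := eng) (mo := mog) (C1 := cd0q0) (C2 := cd4q2a) (C3 := pd2)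
    rfl k0_pp_022_a

noncomputable def cut_pp_022_b : Cut := Cut.of [[⟨0, 0, 0, 67108864⟩, ⟨1, 1, 0, 67108864⟩, ⟨2, 1, 0, 67108864⟩]]

noncomputable def f_pp_022_b : ℕ → ℕ → ℕ → ℕ → Bool := onCell 0 536870912 1239849684 370763052 697932185 42949674
    (rowB 3 eng mog cd0q0 cd4q2b pd2 0 true true true .pp 0 2 2 (qsf 0 536870912 1239849684 370763052 2) ndB0q0 ndB4q2b pcB2 cut_pp_022_b Ext.none)

def k0_pp_022_b : ∃ t, chk3 f_pp_022_b t 1 1 1 = true :=
  ⟨(a (b (l 4) (l 4)) (l 4)), by decide +kernel⟩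

theorem c_pp_022_b : CertB 0 536870912 1239849684 370763052 697932185 42949674 3 eng mog cd0q0 cd4q2b pd2 true true true .pp 0 2 2
    ndB0q0 ndB4q2b pcB2 cut_pp_022_b Ext.none :=
  certB0 (fam := true) (s1 := true) (s2 := true) (a := 0) (b := 2) (c := 2) (cn := .pp) (n1 := ndB0q0) (n2 := ndB4q2b) (pc := pcB2) (cut := cut_pp_022_b) (xt := Ext.none) (P1 := 0) (W1 := 536870912) (P2 := 1239849684) (W2 := 370763052) (P3 := 697932185) (W3 := 42949674) (N0 := 3) (En := eng) (mo := mog) (C1 := cd0q0) (C2 := cd4q2b) (C3 := pd2)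
    rfl k0_pp_022_b

noncomputable def f_pp_023_a : ℕ → ℕ → ℕ → ℕ → Bool := onCell 1610612736 536870912 0 536870912 697932185 42949674
    (rowB 3 eng mog cd0q0 cd4q2a pd3 2 true true true .up 0 2 3 (qsf 0 536870912 0 536870912 3) ndB0q0 ndB4q2a pcB3 Cut.none Ext.none)

def k0_pp_023_a : ∃ t, chk3 f_pp_023_a t 1 1 1 = true :=
  ⟨(l 4), by decide +kernel⟩

theorem c_pp_023_a : CertB 0 536870912 0 536870912 697932185 42949674 3 eng mog cd0q0 cd4q2a pd3 true true true .up 0 2 3
    ndB0q0 ndB4q2a pcB3 Cut.none Ext.none :=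
  certB2 (fam := true) (s1 := true) (s2 := true) (a := 0) (b := 2) (c := 3) (cn := .up) (n1 := ndB0q0) (n2 := ndB4q2a) (pc := pcB3) (cut := Cut.none) (xt := Ext.none) (P1 := 0) (W1 := 536870912) (P2 := 0) (W2 := 536870912) (P3 := 697932185) (W3 := 42949674) (N0 := 3) (En := eng) (mo := mog) (C1 := cd0q0) (C2 := cd4q2a) (C3 := pd3)
    rfl (fun _ => rfl) k0_pp_023_a

noncomputable def f_pp_023_b : ℕ → ℕ → ℕ → ℕ → Bool := onCell 1610612736 536870912 1239849684 370763052 697932185 42949674
    (rowB 3 eng mog cd0q0 cd4q2b pd3 2 true true true .up 0 2 3 (qsf 0 536870912 1239849684 370763052 3) ndB0q0 ndB4q2b pcB3 Cut.none Ext.none)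

def k0_pp_023_b : ∃ t, chk3 f_pp_023_b t 1 1 1 = true :=
  ⟨(l 4), by decide +kernel⟩

theorem c_pp_023_b : CertB 0 536870912 1239849684 370763052 697932185 42949674 3 eng mog cd0q0 cd4q2b pd3 true true true .up 0 2 3
    ndB0q0 ndB4q2b pcB3 Cut.none Ext.none :=
  certB2 (fam := true) (s1 := true) (s2 := true) (a := 0) (b := 2) (c := 3) (cn := .up) (n1 := ndB0q0) (n2 := ndB4q2b) (pc := pcB3) (cut := Cut.none) (xt := Ext.none) (P1 := 0) (W1 := 536870912) (P2 := 1239849684) (W2 := 370763052) (P3 := 697932185) (W3 := 42949674) (N0 := 3) (En := eng) (mo := mog) (C1 := cd0q0) (C2 := cd4q2b) (C3 := pd3)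
    rfl (fun _ => rfl) k0_pp_023_b

noncomputable def f_pp_033 : ℕ → ℕ → ℕ → ℕ → Bool := onCell 0 536870912 1610612736 536870912 697932185 42949674
    (rowB 3 eng mog cd0q0 cd4q3 pd3 0 true true true .pnn 0 3 3 (qsf 0 536870912 1610612736 536870912 3) ndB0q0 ndB4q3 pcB3 Cut.none Ext.none)

def k0_pp_033 : ∃ t, chk3 f_pp_033 t 1 1 1 = true :=
  ⟨(l 4), by decide +kernel⟩

theorem c_pp_033 : CertB 0 536870912 1610612736 536870912 697932185 42949674 3 eng mog cd0q0 cd4q3 pd3 true true true .pnn 0 3 3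
    ndB0q0 ndB4q3 pcB3 Cut.none Ext.none :=
  certB0 (fam := true) (s1 := true) (s2 := true) (a := 0) (b := 3) (c := 3) (cn := .pnn) (n1 := ndB0q0) (n2 := ndB4q3) (pc := pcB3) (cut := Cut.none) (xt := Ext.none) (P1 := 0) (W1 := 536870912) (P2 := 1610612736) (W2 := 536870912) (P3 := 697932185) (W3 := 42949674) (N0 := 3) (En := eng) (mo := mog) (C1 := cd0q0) (C2 := cd4q3) (C3 := pd3)
    rfl k0_pp_033

noncomputable def f_pp_101 : ℕ → ℕ → ℕ → ℕ → Bool := onCell 536870912 536870912 0 536870912 697932185 42949674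
    (rowB 3 eng mog cd0q1 cd4q0 pd1 0 true true true .npn 1 0 1 (qsf 536870912 536870912 0 536870912 1) ndB0q1 ndB4q0 pcB1 Cut.none Ext.none)

def k0_pp_101 : ∃ t, chk3 f_pp_101 t 1 1 1 = true :=
  ⟨(l 5), by decide +kernel⟩

theorem c_pp_101 : CertB 536870912 536870912 0 536870912 697932185 42949674 3 eng mog cd0q1 cd4q0 pd1 true true true .npn 1 0 1
    ndB0q1 ndB4q0 pcB1 Cut.none Ext.none :=
  certB0 (fam := true) (s1 := true) (s2 := true) (a := 1) (b := 0) (c := 1) (cn := .npn) (n1 := ndB0q1) (n2 := ndB4q0) (pc := pcB1) (cut := Cut.none) (xt := Ext.none) (P1 := 536870912) (W1 := 536870912) (P2 := 0) (W2 := 536870912) (P3 := 697932185) (W3 := 42949674) (N0 := 3) (En := eng) (mo := mog) (C1 := cd0q1) (C2 := cd4q0) (C3 := pd1)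
    rfl k0_pp_101

noncomputable def f_pp_102 : ℕ → ℕ → ℕ → ℕ → Bool := onCell 536870912 536870912 0 536870912 697932185 42949674
    (rowB 3 eng mog cd0q1 cd4q0 pd2 0 true true true .npp 1 0 2 (qsf 536870912 536870912 0 536870912 2) ndB0q1 ndB4q0 pcB2 Cut.none Ext.none)

def k0_pp_102 : ∃ t, chk3 f_pp_102 t 1 1 1 = true :=
  ⟨(l 5), by decide +kernel⟩

theorem c_pp_102 : CertB 536870912 536870912 0 536870912 697932185 42949674 3 eng mog cd0q1 cd4q0 pd2 true true true .npp 1 0 2
    ndB0q1 ndB4q0 pcB2 Cut.none Ext.none :=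
  certB0 (fam := true) (s1 := true) (s2 := true) (a := 1) (b := 0) (c := 2) (cn := .npp) (n1 := ndB0q1) (n2 := ndB4q0) (pc := pcB2) (cut := Cut.none) (xt := Ext.none) (P1 := 536870912) (W1 := 536870912) (P2 := 0) (W2 := 536870912) (P3 := 697932185) (W3 := 42949674) (N0 := 3) (En := eng) (mo := mog) (C1 := cd0q1) (C2 := cd4q0) (C3 := pd2)
    rfl k0_pp_102

noncomputable def f_pp_112 : ℕ → ℕ → ℕ → ℕ → Bool := onCell 536870912 536870912 536870912 536870912 697932185 42949674
    (rowB 3 eng mog cd0q1 cd4q1 pd2 0 true true true .dn 1 1 2 (qsf 536870912 536870912 536870912 536870912 2) ndB0q1 ndB4q1 pcB2 Cut.none Ext.none)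

def k0_pp_112 : ∃ t, chk3 f_pp_112 t 1 1 1 = true :=
  ⟨(l 4), by decide +kernel⟩

theorem c_pp_112 : CertB 536870912 536870912 536870912 536870912 697932185 42949674 3 eng mog cd0q1 cd4q1 pd2 true true true .dn 1 1 2
    ndB0q1 ndB4q1 pcB2 Cut.none Ext.none :=
  certB0 (fam := true) (s1 := true) (s2 := true) (a := 1) (b := 1) (c := 2) (cn := .dn) (n1 := ndB0q1) (n2 := ndB4q1) (pc := pcB2) (cut := Cut.none) (xt := Ext.none) (P1 := 536870912) (W1 := 536870912) (P2 := 536870912) (W2 := 536870912) (P3 := 697932185) (W3 := 42949674) (N0 := 3) (En := eng) (mo := mog) (C1 := cd0q1) (C2 := cd4q1) (C3 := pd2)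
    rfl k0_pp_112

noncomputable def f_pp_113 : ℕ → ℕ → ℕ → ℕ → Bool := onCell 536870912 536870912 536870912 536870912 697932185 42949674
    (rowB 3 eng mog cd0q1 cd4q1 pd3 0 true true true .nn 1 1 3 (qsf 536870912 536870912 536870912 536870912 3) ndB0q1 ndB4q1 pcB3 Cut.none Ext.none)

def k0_pp_113 : ∃ t, chk3 f_pp_113 t 1 1 1 = true :=
  ⟨(l 4), by decide +kernel⟩

theorem c_pp_113 : CertB 536870912 536870912 536870912 536870912 697932185 42949674 3 eng mog cd0q1 cd4q1 pd3 true true true .nn 1 1 3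
    ndB0q1 ndB4q1 pcB3 Cut.none Ext.none :=
  certB0 (fam := true) (s1 := true) (s2 := true) (a := 1) (b := 1) (c := 3) (cn := .nn) (n1 := ndB0q1) (n2 := ndB4q1) (pc := pcB3) (cut := Cut.none) (xt := Ext.none) (P1 := 536870912) (W1 := 536870912) (P2 := 536870912) (W2 := 536870912) (P3 := 697932185) (W3 := 42949674) (N0 := 3) (En := eng) (mo := mog) (C1 := cd0q1) (C2 := cd4q1) (C3 := pd3)
    rfl k0_pp_113

noncomputable def f_pp_123_a : ℕ → ℕ → ℕ → ℕ → Bool := onCell 536870912 536870912 0 536870912 697932185 42949674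
    (rowB 3 eng mog cd0q1 cd4q2a pd3 0 true true true .npn 1 2 3 (qsf 536870912 536870912 0 536870912 3) ndB0q1 ndB4q2a pcB3 Cut.none Ext.none)

def k0_pp_123_a : ∃ t, chk3 f_pp_123_a t 1 1 1 = true :=
  ⟨(l 4), by decide +kernel⟩

theorem c_pp_123_a : CertB 536870912 536870912 0 536870912 697932185 42949674 3 eng mog cd0q1 cd4q2a pd3 true true true .npn 1 2 3
    ndB0q1 ndB4q2a pcB3 Cut.none Ext.none :=
  certB0 (fam := true) (s1 := true) (s2 := true) (a := 1) (b := 2) (c := 3) (cn := .npn) (n1 := ndB0q1) (n2 := ndB4q2a) (pc := pcB3) (cut := Cut.none) (xt := Ext.none) (P1 := 536870912) (W1 := 536870912) (P2 := 0) (W2 := 536870912) (P3 := 697932185) (W3 := 42949674) (N0 := 3) (En := eng) (mo := mog) (C1 := cd0q1) (C2 := cd4q2a) (C3 := pd3)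
    rfl k0_pp_123_a

noncomputable def f_pp_123_b : ℕ → ℕ → ℕ → ℕ → Bool := onCell 536870912 536870912 1239849684 370763052 697932185 42949674
    (rowB 3 eng mog cd0q1 cd4q2b pd3 0 true true true .npn 1 2 3 (qsf 536870912 536870912 1239849684 370763052 3) ndB0q1 ndB4q2b pcB3 Cut.none Ext.none)

def k0_pp_123_b : ∃ t, chk3 f_pp_123_b t 1 1 1 = true :=
  ⟨(l 4), by decide +kernel⟩

theorem c_pp_123_b : CertB 536870912 536870912 1239849684 370763052 697932185 42949674 3 eng mog cd0q1 cd4q2b pd3 true true true .npn 1 2 3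
    ndB0q1 ndB4q2b pcB3 Cut.none Ext.none :=
  certB0 (fam := true) (s1 := true) (s2 := true) (a := 1) (b := 2) (c := 3) (cn := .npn) (n1 := ndB0q1) (n2 := ndB4q2b) (pc := pcB3) (cut := Cut.none) (xt := Ext.none) (P1 := 536870912) (W1 := 536870912) (P2 := 1239849684) (W2 := 370763052) (P3 := 697932185) (W3 := 42949674) (N0 := 3) (En := eng) (mo := mog) (C1 := cd0q1) (C2 := cd4q2b) (C3 := pd3)
    rfl k0_pp_123_b

noncomputable def f_pp_133 : ℕ → ℕ → ℕ → ℕ → Bool := onCell 536870912 536870912 1610612736 536870912 697932185 42949674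
    (rowB 3 eng mog cd0q1 cd4q3 pd3 0 true true true .dn 1 3 3 (qsf 536870912 536870912 1610612736 536870912 3) ndB0q1 ndB4q3 pcB3 Cut.none Ext.none)

def k0_pp_133 : ∃ t, chk3 f_pp_133 t 1 1 1 = true :=
  ⟨(l 4), by decide +kernel⟩

theorem c_pp_133 : CertB 536870912 536870912 1610612736 536870912 697932185 42949674 3 eng mog cd0q1 cd4q3 pd3 true true true .dn 1 3 3
    ndB0q1 ndB4q3 pcB3 Cut.none Ext.none :=
  certB0 (fam := true) (s1 := true) (s2 := true) (a := 1) (b := 3) (c := 3) (cn := .dn) (n1 := ndB0q1) (n2 := ndB4q3) (pc := pcB3) (cut := Cut.none) (xt := Ext.none) (P1 := 536870912) (W1 := 536870912) (P2 := 1610612736) (W2 := 536870912) (P3 := 697932185) (W3 := 42949674) (N0 := 3) (En := eng) (mo := mog) (C1 := cd0q1) (C2 := cd4q3) (C3 := pd3)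
    rfl k0_pp_133

noncomputable def f_pp_202 : ℕ → ℕ → ℕ → ℕ → Bool := onCell 0 536870912 0 536870912 697932185 42949674
    (rowB 3 eng mog cd0q2 cd4q0 pd2 0 true true true .pp 2 0 2 (qsf 0 536870912 0 536870912 2) ndB0q2 ndB4q0 pcB2 Cut.none Ext.none)

def k0_pp_202 : ∃ t, chk3 f_pp_202 t 1 1 1 = true :=
  ⟨(l 5), by decide +kernel⟩

theorem c_pp_202 : CertB 0 536870912 0 536870912 697932185 42949674 3 eng mog cd0q2 cd4q0 pd2 true true true .pp 2 0 2
    ndB0q2 ndB4q0 pcB2 Cut.none Ext.none :=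
  certB0 (fam := true) (s1 := true) (s2 := true) (a := 2) (b := 0) (c := 2) (cn := .pp) (n1 := ndB0q2) (n2 := ndB4q0) (pc := pcB2) (cut := Cut.none) (xt := Ext.none) (P1 := 0) (W1 := 536870912) (P2 := 0) (W2 := 536870912) (P3 := 697932185) (W3 := 42949674) (N0 := 3) (En := eng) (mo := mog) (C1 := cd0q2) (C2 := cd4q0) (C3 := pd2)
    rfl k0_pp_202

noncomputable def f_pp_203 : ℕ → ℕ → ℕ → ℕ → Bool := onCell 0 536870912 0 536870912 697932185 42949674
    (rowB 3 eng mog cd0q2 cd4q0 pd3 0 true true true .up 2 0 3 (qsf 0 536870912 0 536870912 3) ndB0q2 ndB4q0 pcB3 Cut.none Ext.none)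

def k0_pp_203 : ∃ t, chk3 f_pp_203 t 1 1 1 = true :=
  ⟨(l 5), by decide +kernel⟩

theorem c_pp_203 : CertB 0 536870912 0 536870912 697932185 42949674 3 eng mog cd0q2 cd4q0 pd3 true true true .up 2 0 3
    ndB0q2 ndB4q0 pcB3 Cut.none Ext.none :=
  certB0 (fam := true) (s1 := true) (s2 := true) (a := 2) (b := 0) (c := 3) (cn := .up) (n1 := ndB0q2) (n2 := ndB4q0) (pc := pcB3) (cut := Cut.none) (xt := Ext.none) (P1 := 0) (W1 := 536870912) (P2 := 0) (W2 := 536870912) (P3 := 697932185) (W3 := 42949674) (N0 := 3) (En := eng) (mo := mog) (C1 := cd0q2) (C2 := cd4q0) (C3 := pd3)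
    rfl k0_pp_203

noncomputable def f_pp_213 : ℕ → ℕ → ℕ → ℕ → Bool := onCell 0 536870912 536870912 536870912 697932185 42949674
    (rowB 3 eng mog cd0q2 cd4q1 pd3 0 true true true .pnn 2 1 3 (qsf 0 536870912 536870912 536870912 3) ndB0q2 ndB4q1 pcB3 Cut.none Ext.none)

def k0_pp_213 : ∃ t, chk3 f_pp_213 t 1 1 1 = true :=
  ⟨(l 4), by decide +kernel⟩

theorem c_pp_213 : CertB 0 536870912 536870912 536870912 697932185 42949674 3 eng mog cd0q2 cd4q1 pd3 true true true .pnn 2 1 3
    ndB0q2 ndB4q1 pcB3 Cut.none Ext.none :=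
  certB0 (fam := true) (s1 := true) (s2 := true) (a := 2) (b := 1) (c := 3) (cn := .pnn) (n1 := ndB0q2) (n2 := ndB4q1) (pc := pcB3) (cut := Cut.none) (xt := Ext.none) (P1 := 0) (W1 := 536870912) (P2 := 536870912) (W2 := 536870912) (P3 := 697932185) (W3 := 42949674) (N0 := 3) (En := eng) (mo := mog) (C1 := cd0q2) (C2 := cd4q1) (C3 := pd3)
    rfl k0_pp_213

noncomputable def f_pm_001 : ℕ → ℕ → ℕ → ℕ → Bool := onCell 0 536870912 536870912 536870912 697932185 42949674
    (rowB 3 eng mog cd0q0 cd4q0 pd1 1 true true false .up 0 0 1 (qsf 0 536870912 0 536870912 1) ndB0q0 ndB4q0 pcB1 Cut.none Ext.none)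

def k0_pm_001 : ∃ t, chk3 f_pm_001 t 1 1 1 = true :=
  ⟨(b (l 3) (l 3)), by decide +kernel⟩

theorem c_pm_001 : CertB 0 536870912 0 536870912 697932185 42949674 3 eng mog cd0q0 cd4q0 pd1 true true false .up 0 0 1
    ndB0q0 ndB4q0 pcB1 Cut.none Ext.none :=
  certB1 (fam := true) (s1 := true) (s2 := false) (a := 0) (b := 0) (c := 1) (cn := .up) (n1 := ndB0q0) (n2 := ndB4q0) (pc := pcB1) (cut := Cut.none) (xt := Ext.none) (P1 := 0) (W1 := 536870912) (P2 := 0) (W2 := 536870912) (P3 := 697932185) (W3 := 42949674) (N0 := 3) (En := eng) (mo := mog) (C1 := cd0q0) (C2 := cd4q0) (C3 := pd1)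
    rfl (fun _ => rfl) k0_pm_001

noncomputable def f_pm_011 : ℕ → ℕ → ℕ → ℕ → Bool := onCell 0 536870912 536870912 536870912 697932185 42949674
    (rowB 3 eng mog cd0q0 cd4q1 pd1 1 true true false .pnn 0 1 1 (qsf 0 536870912 536870912 536870912 1) ndB0q0 ndB4q1 pcB1 Cut.none Ext.none)

def k0_pm_011 : ∃ t, chk3 f_pm_011 t 1 1 1 = true :=
  ⟨(b (l 3) (l 3)), by decide +kernel⟩

theorem c_pm_011 : CertB 0 536870912 536870912 536870912 697932185 42949674 3 eng mog cd0q0 cd4q1 pd1 true true false .pnn 0 1 1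
    ndB0q0 ndB4q1 pcB1 Cut.none Ext.none :=
  certB1 (fam := true) (s1 := true) (s2 := false) (a := 0) (b := 1) (c := 1) (cn := .pnn) (n1 := ndB0q0) (n2 := ndB4q1) (pc := pcB1) (cut := Cut.none) (xt := Ext.none) (P1 := 0) (W1 := 536870912) (P2 := 536870912) (W2 := 536870912) (P3 := 697932185) (W3 := 42949674) (N0 := 3) (En := eng) (mo := mog) (C1 := cd0q0) (C2 := cd4q1) (C3 := pd1)
    rfl (fun _ => rfl) k0_pm_011

noncomputable def f_pm_012 : ℕ → ℕ → ℕ → ℕ → Bool := onCell 0 536870912 1073741824 536870912 697932185 42949674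
    (rowB 3 eng mog cd0q0 cd4q1 pd2 1 true true false .pnp 0 1 2 (qsf 0 536870912 536870912 536870912 2) ndB0q0 ndB4q1 pcB2 Cut.none Ext.none)

def k0_pm_012 : ∃ t, chk3 f_pm_012 t 2 4 1 = true :=
  ⟨(b (b (l 3) (a (b (l 3) (b (a (l 3) (a (a (l 3) (l 16605472)) (l 16589984))) (a (a (l 2) (a (l 2) (a (b (l 16607144) (l 2)) (b (l 16603456) (l 16589544))))) (a (a (b (l 16596776) (l 16583344)) (b (l 16588048) (l 16574776))) (a (l 16571880) (l 16561832)))))) (a (b (a (l 3) (l 120963372439)) (a (b (l 16565992) (l 16566368)) (b (l 16539712) (l 16520584)))) (b (b (l 3) (a (l 16527224) (a (l 16486992) (l 16476608)))) (a (b (b (l 16514760) (l 16506456)) (a (l 16500200) (l 16486800))) (b (a (l 16491200) (l 16482168)) (l 16512480))))))) (a (b (a (b (a (l 2) (a (l 2) (b (a (l 2) (b (l 16573912) (l 2))) (l 2)))) (l 2)) (a (b (b (a (b (l 16568392) (l 16553040)) (l 16553008)) (a (a (l 16531872) (l 16529000)) (l 16524552))) (a (a (l 2) (l 16507672)) (b (l 16497424) (l 16470288)))) (b (b (a (l 16544808)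 (l 16536104)) (a (l 16518088) (l 16511032))) (a (b (l 16492376) (l 16466328)) (l 16474112))))) (a (l 2) (b (a (a (l 2) (b (l 16442592) (l 2))) (a (b (l 16439696) (l 16412344)) (l 16422944))) (a (l 2) (a (b (l 16384256) (l 2)) (b (l 16382872) (l 16355768))))))) (b (a (b (a (b (l 16511480) (l 16499216)) (b (l 16500400) (l 16480104))) (a (a (l 16468120) (l 16461192)) (l 16448848))) (b (a (a (l 16535784) (l 16460864)) (l 16487480)) (a (l 16450536) (l 16410992)))) (a (b (a (a (l 16419248) (l 16414456)) (b (l 16416400) (l 16394072))) (a (b (l 16400544) (a (l 16354928) (l 16353056))) (b (l 16371376) (l 16348096)))) (b (a (a (l 16393832) (l 16386040)) (l 16375512)) (a (a (l 16351528) (l 16345776)) (l 16338232))))))), by decide +kernel⟩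

def k1_pm_012 : ∃ t, chk3 f_pm_012 t 3 4 1 = true :=
  ⟨(b (b (b (l 3) (a (l 3) (a (a (l 3) (l 126331806055)) (b (l 3) (a (l 16363344) (l 16343384)))))) (a (a (b (a (b (l 3) (l 16482048)) (b (l 16470056) (l 16460296))) (a (b (a (l 16473608) (l 16464872)) (l 16455000)) (b (l 16492480) (l 16439000)))) (b (a (l 16463552) (b (l 16422080) (l 16419320))) (a (b (l 16452280) (l 16422368)) (b (l 16414040) (l 16406880))))) (a (a (b (l 16416200) (l 16391472)) (b (l 16395104) (l 16367704))) (b (a (b (l 16357128) (l 16352728)) (b (l 16339088) (l 16334032))) (a (l 16343312) (l 16323328)))))) (a (a (b (b (a (l 16431784) (l 16419328)) (a (a (l 16400504) (l 16396368)) (l 16390256))) (a (b (l 16364248) (l 16329760)) (b (l 16358304) (l 16324752)))) (b (a (b (l 16406256) (l 16381632)) (b (l 16394624) (l 16374656))) (a (b (l 16354208) (l 16324632)) (b (l 16351920) (l 16327048))))) (b (a (b (l 16372800) (a (l 16366256) (l 16353984))) (a (l 16342224) (l 16321512))) (a (b (l 16408368) (l 16390752)) (b (a (l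 16331152) (l 16318680)) (a (l 16320768) (l 16312416))))))), by decide +kernel⟩

def k2_pm_012 : ∃ t, chk3 f_pm_012 t 2 5 1 = true :=
  ⟨(a (b (b (b (a (l 2) (a (l 2) (a (l 2) (b (l 16327912) (l 2))))) (l 2)) (l 2)) (l 2)) (b (b (b (a (a (a (b (l 16328184) (l 16300528)) (b (l 16327432) (l 16300944))) (b (l 16324152) (l 16299416))) (a (b (l 16316480) (l 16294064)) (b (l 16309016) (l 16288856)))) (a (a (b (a (l 16271528) (l 16273184)) (a (l 2) (b (l 16251072) (a (l 2) (b (l 16239280) (b (b (b (l 16233960) (c (l 16244960) (l 16218184))) (l 16230232)) (l 16227592))))))) (b (a (l 16273688) (l 16273048)) (b (a (l 16252624) (l 16253040)) (b (a (l 16240840) (l 16241936)) (b (b (b (l 16236656) (a (c (l 16246936) (l 16220120)) (l 16235312))) (l 16233264)) (l 16230768)))))) (b (a (l 16270720) (l 16267984)) (b (a (l 16252304) (l 16251664)) (b (a (l 16242216) (l 16242936)) (a (b (b (b (l 16237984) (a (l 16235952) (l 16236488))) (l 16235160)) (l 16232888)) (a (c (l 16250120) (l 16221264)) (l 16279384))))))))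 (a (a (a (l 2) (b (l 16196288) (l 2))) (a (b (l 16263360) (l 16144064)) (b (l 16203568) (l 16191520)))) (a (a (b (l 16205696) (l 16154176)) (l 16183432)) (a (l 16187088) (l 16191216))))) (a (a (l 2) (b (a (l 2) (b (l 16093960) (l 2))) (l 2))) (a (b (a (b (l 16184840) (l 16046224)) (b (l 16107888) (c (l 16075896) (l 16035000)))) (a (l 2) (b (l 16001784) (l 2)))) (b (a (b (l 16115160) (l 16065256)) (b (l 16122816) (l 16075288))) (a (b (c (l 16036312) (l 15991240)) (l 15982128)) (b (l 16026304) (c (l 16000448) (l 15951248))))))))), by decide +kernel⟩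

def k3_pm_012 : ∃ t, chk3 f_pm_012 t 3 5 1 = true :=
  ⟨(a (b (b (b (a (a (l 16294648) (l 16291032)) (a (l 16293320) (l 16300600))) (b (a (a (l 16267104) (l 16265760)) (a (l 16269000) (l 16280008))) (a (b (a (l 16252840) (l 16253504)) (b (a (l 16245472) (l 16247456)) (b (a (a (l 16261720) (l 16242656)) (b (b (l 16245264) (l 16244920)) (l 16244120))) (a (l 16239096) (l 16242488))))) (b (a (l 16257088) (l 16269512)) (b (a (l 16251424) (l 16264656)) (a (l 16247920) (l 16262000))))))) (a (a (b (l 16218056) (l 16177128)) (b (l 16223760) (l 16187256))) (a (b (l 16229608) (l 16196136)) (b (l 16243952) (l 16211072))))) (a (a (b (a (l 16108400) (l 16117352)) (a (b (l 16038920) (c (l 16015648) (l 15966040))) (b (l 16051392) (l 16005776)))) (b (a (l 16125856) (l 16133688)) (a (l 16041976) (l 16054376)))) (a (b (l 16145136) (l 16072440)) (b (l 16162832) (l 16097232))))) (b (b (b (a (a (l 16307168) (l 16309296)) (l 16326808)) (a (b (l 16293048) (b (l 16285408) (a (l 16277792) (l 16286992)))) (b (l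 16296400) (a (l 16316320) (l 16297176))))) (a (a (l 16246272) (l 16260408)) (a (l 16270424) (l 16277064)))) (a (a (b (l 16185288) (l 16122256)) (l 16221792)) (a (l 16203496) (l 16224048))))), by decide +kernel⟩

def k4_pm_012 : ∃ t, chk3 f_pm_012 t 1 3 1 = true :=
  ⟨(a (a (l 2) (a (l 2) (b (b (a (l 2) (b (a (l 2) (b (l 15924328) (l 2))) (l 2))) (l 2)) (l 2)))) (a (a (b (b (a (b (a (b (l 28553239223) (l 15891328)) (b (l 15958904) (l 15910896))) (a (l 2) (b (l 15862136) (l 2)))) (b (a (b (l 15975632) (l 15929984)) (l 15970088)) (a (b (l 15883408) (l 15835944)) (b (l 15903992) (l 80092698407))))) (a (l 2) (b (a (l 2) (b (l 15812656) (l 2))) (l 2)))) (l 2)) (b (b (a (b (a (l 15986632) (l 16003088)) (a (b (l 15923968) (l 15881016)) (l 15923440))) (b (l 16027832) (a (l 15943872) (l 15963928)))) (a (b (a (b (l 80629531367) (l 15792520)) (b (l 15861200) (l 97272500567))) (a (l 2) (l 120894689591))) (b (a (b (l 15884664) (l 15844200)) (l 15888360)) (a (b (l 15802952) (l 15761104)) (l 104251805687)))))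 (b (a (l 2) (b (a (l 2) (l 197130349175)) (l 2))) (l 2)))) (b (a (b (a (b (l 16059328) (l 15992760)) (b (l 16088560) (l 16028264))) (a (b (l 15922576) (a (l 15836224) (l 15862016))) (b (l 15965360) (l 15899488)))) (b (a (l 16092520) (l 16126840)) (a (l 15976736) (l 16018640)))) (a (b (a (b (a (l 119284115799) (l 107473013687)) (a (l 2) (l 204646510263))) (b (a (l 15816848) (l 15845120)) (a (l 133242744087) (l 15776744)))) (a (l 2) (b (l 205720232471) (l 2)))) (b (a (b (l 15886384) (l 15824000)) (b (l 15939072) (l 15884656))) (a (b (l 101030541303) (l 158475612375)) (b (l 15828920) (l 123042298119)))))))), by decide +kernel⟩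

theorem s5_pm_012 : ∃ t, chk3 f_pm_012 t 1 5 1 = true := ex3_a k2_pm_012 k3_pm_012

theorem s6_pm_012 : ∃ t, chk3 f_pm_012 t 1 4 1 = true := ex3_a k0_pm_012 k1_pm_012

theorem s7_pm_012 : ∃ t, chk3 f_pm_012 t 1 2 1 = true := ex3_b s6_pm_012 s5_pm_012

theorem s8_pm_012 : ∃ t, chk3 f_pm_012 t 1 1 1 = true := ex3_b s7_pm_012 k4_pm_012

theorem c_pm_012 : CertB 0 536870912 536870912 536870912 697932185 42949674 3 eng mog cd0q0 cd4q1 pd2 true true false .pnp 0 1 2
    ndB0q0 ndB4q1 pcB2 Cut.none Ext.none :=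
  certB1 (fam := true) (s1 := true) (s2 := false) (a := 0) (b := 1) (c := 2) (cn := .pnp) (n1 := ndB0q0) (n2 := ndB4q1) (pc := pcB2) (cut := Cut.none) (xt := Ext.none) (P1 := 0) (W1 := 536870912) (P2 := 536870912) (W2 := 536870912) (P3 := 697932185) (W3 := 42949674) (N0 := 3) (En := eng) (mo := mog) (C1 := cd0q0) (C2 := cd4q1) (C3 := pd2)
    rfl (fun _ => rfl) s8_pm_012

end Pool.Agent.Strip051.G.I6500_6900.Tab.C.BA04

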