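import Pool.Agent.Strip051.G.I6500_6900.Tab
import Pool.Agent.Strip051.PB.ExtD2

/-! # Certificates B9 (generated) -/

set_option linter.all false
set_option maxRecDepth 100000

namespace Pool.Agent.Strip051.G.I6500_6900.Tab.C.BA05

open Pool.Agent.Strip051.PB Pool.Agent.Strip051.PB.T
open Pool.Agent.Strip051.G.I6500_6900.Tab

noncomputable def f_pm_022 : ℕ → ℕ → ℕ → ℕ → Bool := onCell 0 536870912 1073741824 536870912 697932185 42949674
    (rowB 3 eng mog cd0q0 cd5q2 pd2 1 true true false .pp 0 2 2 (qsf 0 536870912 1073741824 536870912 2) ndB0q0 ndB5q2 pcB2 Cut.none Ext.none)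

def k0_pm_022 : ∃ t, chk3 f_pm_022 t 1 4 1 = true :=
  ⟨(a (a (a (a (b (l 3) (l 3)) (l 3)) (l 3)) (l 3)) (l 1)), by decide +kernel⟩

def k1_pm_022 : ∃ t, chk3 f_pm_022 t 2 5 1 = true :=
  ⟨(a (a (a (b (b (b (b (b (c (l 16515832) (l 16503992)) (c (l 16506720) (l 16432048))) (b (l 16493776) (l 16487000))) (b (b (l 16479176) (l 16470496)) (b (l 16461976) (b (l 16455448) (c (l 16456496) (l 16442928)))))) (a (b (l 16425960) (a (l 16383072) (l 16394272))) (l 16484248))) (a (b (b (a (l 16336320) (l 16350912)) (l 16299624)) (l 16240096)) (b (b (l 16368400) (l 16326872)) (l 16267000)))) (b (b (b (b (b (l 16531624) (l 16523176)) (b (l 16514984) (l 16508072))) (b (a (l 16490952) (l 16501800)) (b (l 16483440) (b (l 16477176) (l 16514264))))) (l 16438128)) (b (a (l 16449608) (l 16379640)) (a (b (l 16310000) (l 16272600)) (b (l 16329336) (l 16293536)))))) (a (b (b (b (b (b (l 16553160) (l 16545240)) (b (l 16536936) (l 16529488))) (b (l 16539280) (b (l 16505408) (b (l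 16499232) (l 16494592))))) (l 16460944)) (b (l 16397480) (l 16459064))) (b (b (b (b (b (l 3) (l 16561448)) (b (l 16553704) (l 16546032))) (b (l 16554592) (b (l 16522944) (b (l 16517408) (l 16514008))))) (l 16480920)) (c (l 16384104) (l 16389840))))) (a (a (b (b (b (b (b (l 3) (l 1553334915783)) (b (l 151967595927) (l 16552280))) (b (b (l 16544448) (l 16536728)) (b (l 16530064) (b (l 16545904) (c (l 16520032) (l 16523136)))))) (l 16541688)) (b (l 16429496) (l 16371016))) (b (b (b (l 1) (b (l 1) (b (l 1) (b (l 1) (l 282427138807))))) (a (b (l 16506512) (l 16477248)) (l 112776008103))) (b (b (l 16469984) (l 16421016)) (a (l 16294096) (l 16381016))))) (b (b (l 1) (a (a (l 218002717111) (l 1)) (l 1))) (a (b (a (l 16497312) (l 143377541799)) (a (l 16382424) (l 16382400))) (b (a (l 230887349911) (l 1)) (b (l 186863964007) (a (l 16369712) (l 16368456)))))))), by decide +kernel⟩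

def k2_pm_022 : ∃ t, chk3 f_pm_022 t 3 5 1 = true :=
  ⟨(b (l 1) (a (a (a (b (l 1) (a (l 198138121239) (l 1))) (l 1)) (l 1)) (l 1))), by decide +kernel⟩

def k3_pm_022 : ∃ t, chk3 f_pm_022 t 2 3 1 = true :=
  ⟨(a (b (a (b (a (b (b (l 16202072) (l 16172512)) (a (l 16123944) (l 16148304))) (b (l 16275680) (l 16181216))) (a (b (a (l 16086952) (l 16109608)) (a (l 16060968) (l 16081832))) (b (l 16140728) (l 16110848)))) (b (b (a (a (l 16262384) (l 16277552)) (l 16359144)) (a (l 16218032) (l 16243288))) (a (b (l 16176816) (l 16145632)) (b (l 16203256) (l 16172928))))) (a (b (a (b (b (l 16058624) (l 16053632)) (a (c (l 16079800) (l 16009528)) (l 16059824))) (b (l 16091304) (l 16082544))) (a (b (a (b (l 16052016) (l 16062056)) (l 16068112)) (a (b (l 16076312) (l 16093248)) (l 16238464))) (b (l 16085904) (l 16102944)))) (b (a (b (l 16124096) (l 16112192)) (b (l 16151432) (l 16138576))) (a (b (l 16110880) (l 16121416)) (l 16136952))))) (b (a (b (a (b (l 16313128)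 (l 16299280)) (b (l 16325424) (l 16270344))) (a (b (l 16215224) (l 16187304)) (b (a (l 16215880) (l 16221400)) (l 16249568)))) (b (b (a (c (l 16375704) (l 16332736)) (a (l 16398216) (b (l 16346504) (l 16324680)))) (a (l 16283152) (l 16374608))) (a (b (l 16234584) (a (l 16187112) (l 16193112))) (b (l 16247352) (l 16205824))))) (a (a (b (b (l 16168472) (l 16157176)) (l 16155472)) (b (l 16229144) (b (l 16163832) (l 16171440)))) (b (a (b (a (l 16166296) (l 16165624)) (l 16149312)) (b (a (l 16165968) (l 16170672)) (a (l 16155384) (l 16151320)))) (a (l 16163344) (l 16330584)))))), by decide +kernel⟩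

def k4_pm_022 : ∃ t, chk3 f_pm_022 t 3 3 1 = true :=
  ⟨(a (b (a (b (a (b (a (b (l 147672283063) (l 16324712)) (b (l 183642631335) (l 161630893927))) (a (l 16293432) (c (l 16301216) (l 16287160)))) (b (a (b (l 1) (l 184716344887)) (l 1)) (a (b (l 124049873175) (l 16284952)) (b (l 199748582887) (l 131566004903))))) (a (b (a (l 16253336) (l 16256224)) (l 16217872)) (b (a (l 16279320) (c (b (l 16277632) (l 16260664)) (l 16250256))) (a (l 16224480) (l 16228184))))) (b (a (b (l 1) (a (b (l 1) (l 198137933815)) (l 1))) (l 1)) (a (c (b (a (b (l 120291706471) (l 16263872)) (b (l 178810576887) (l 105259295319))) (a (l 16240976) (b (l 16251904) (l 16237816)))) (b (a (l 145524605367) (l 162167600295)) (l 16242456))) (b (b (l 1) (a (l 191695529623) (l 1))) (a (c (l 79489479383) (l 16221248)) (l 139619044999)))))) (a (b (a (b (l 16182576) (a (l 16149448) (l 16153536))) (c (b (l 16201760) (l 16171960)) (l 16176048))) (a (b (a (l 16147896) (l 16141560)) (l 16151760))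 (b (a (l 16139760) (l 16144976)) (a (l 16146880) (l 16140600))))) (b (a (b (c (l 16215144) (l 16196568)) (l 16181240)) (b (c (l 16265552) (l 16198888)) (l 16189224))) (a (b (l 16158624) (c (l 16148536) (l 16136944))) (c (l 16168856) (l 16151320)))))) (b (a (b (l 1) (a (b (l 1) (l 181494907047)) (l 1))) (l 1)) (a (b (b (a (c (l 68752058439) (l 16199624)) (l 185789966359)) (a (l 16193960) (l 163778198919))) (a (l 16229328) (b (l 16182624) (l 16167168)))) (b (a (l 179884189751) (l 1)) (a (b (l 16192584) (l 16178696)) (l 181495012727)))))), by decide +kernel⟩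

theorem s5_pm_022 : ∃ t, chk3 f_pm_022 t 1 3 1 = true := ex3_a k3_pm_022 k4_pm_022

theorem s6_pm_022 : ∃ t, chk3 f_pm_022 t 1 5 1 = true := ex3_a k1_pm_022 k2_pm_022

theorem s7_pm_022 : ∃ t, chk3 f_pm_022 t 1 2 1 = true := ex3_b k0_pm_022 s6_pm_022

theorem s8_pm_022 : ∃ t, chk3 f_pm_022 t 1 1 1 = true := ex3_b s7_pm_022 s5_pm_022

theorem c_pm_022 : CertB 0 536870912 1073741824 536870912 697932185 42949674 3 eng mog cd0q0 cd5q2 pd2 true true false .pp 0 2 2
    ndB0q0 ndB5q2 pcB2 Cut.none Ext.none :=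
  certB1 (fam := true) (s1 := true) (s2 := false) (a := 0) (b := 2) (c := 2) (cn := .pp) (n1 := ndB0q0) (n2 := ndB5q2) (pc := pcB2) (cut := Cut.none) (xt := Ext.none) (P1 := 0) (W1 := 536870912) (P2 := 1073741824) (W2 := 536870912) (P3 := 697932185) (W3 := 42949674) (N0 := 3) (En := eng) (mo := mog) (C1 := cd0q0) (C2 := cd5q2) (C3 := pd2)
    rfl (fun _ => rfl) s8_pm_022

noncomputable def f_pm_023 : ℕ → ℕ → ℕ → ℕ → Bool := onCell 0 536870912 1610612736 536870912 697932185 42949674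
    (rowB 3 eng mog cd0q0 cd5q2 pd3 1 true true false .up 0 2 3 (qsf 0 536870912 1073741824 536870912 3) ndB0q0 ndB5q2 pcB3 Cut.none Ext.none)

def k0_pm_023 : ∃ t, chk3 f_pm_023 t 1 1 1 = true :=
  ⟨(a (a (b (b (b (b (a (a (a (l 16105584) (l 16112320)) (l 16122800)) (l 16147400)) (a (l 196057645239) (l 16166144))) (a (l 175656586311) (a (l 16188920) (l 16205056)))) (b (b (a (l 2) (l 179951735799)) (l 2)) (l 2))) (l 2)) (b (b (a (b (l 16190472) (l 16230504)) (b (a (l 16206552) (l 16196640)) (l 16254128))) (b (b (a (l 16263064) (l 16294280)) (a (l 16287936) (l 16327008))) (b (a (b (l 16308344) (l 2)) (b (l 16351408) (l 16386208))) (a (l 2) (l 16412488))))) (b (b (a (l 2) (b (l 16438336) (l 2))) (l 2)) (l 2)))) (a (b (b (a (b (a (l 16153872) (l 16151280)) (l 16210784)) (b (a (b (l 16143360) (l 16166424)) (b (l 16132864) (l 16146432))) (l 16339984))) (b (a (b (l 16274200) (l 16325264)) (b (l 16212328) (l 16203248))) (b (a (b (l 16361056) (l 16386864)) (l 16304944))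 (a (l 16413896) (l 16386464))))) (b (b (a (b (l 16457464) (l 16493808)) (l 16479872)) (a (b (l 16520632) (l 2)) (b (l 16545584) (l 16580712)))) (b (a (l 2) (b (l 16632744) (l 2))) (l 2)))) (b (b (a (b (a (l 16280544) (l 16142992)) (a (l 16168096) (l 16150248))) (b (a (l 16158552) (l 16176744)) (a (l 16149904) (l 16169368)))) (b (a (l 16233536) (a (l 16208584) (l 16197736))) (b (a (l 16278984) (l 16280888)) (a (l 16357072) (l 16339744))))) (b (b (a (l 16465448) (l 16456288)) (a (l 16754560) (b (l 16547128) (l 16591640)))) (b (b (l 16642712) (l 16869296)) (b (l 16715688) (b (l 16743880) (l 4)))))))), by decide +kernel⟩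

theorem c_pm_023 : CertB 0 536870912 1073741824 536870912 697932185 42949674 3 eng mog cd0q0 cd5q2 pd3 true true false .up 0 2 3
    ndB0q0 ndB5q2 pcB3 Cut.none Ext.none :=
  certB1 (fam := true) (s1 := true) (s2 := false) (a := 0) (b := 2) (c := 3) (cn := .up) (n1 := ndB0q0) (n2 := ndB5q2) (pc := pcB3) (cut := Cut.none) (xt := Ext.none) (P1 := 0) (W1 := 536870912) (P2 := 1073741824) (W2 := 536870912) (P3 := 697932185) (W3 := 42949674) (N0 := 3) (En := eng) (mo := mog) (C1 := cd0q0) (C2 := cd5q2) (C3 := pd3)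
    rfl (fun _ => rfl) k0_pm_023

noncomputable def f_pm_033 : ℕ → ℕ → ℕ → ℕ → Bool := onCell 1610612736 536870912 0 1230186008 697932185 42949674
    (rowB 3 eng mog cd0q0 cd5q3 pd3 2 true true false .pnn 0 3 3 (qsf 0 536870912 0 1230186008 3) ndB0q0 ndB5q3 pcB3 Cut.none Ext.none)

def k0_pm_033 : ∃ t, chk3 f_pm_033 t 2 2 1 = true :=
  ⟨(l 1), by decide +kernel⟩

def k1_pm_033 : ∃ t, chk3 f_pm_033 t 2 6 1 = true :=
  ⟨(a (l 1) (a (l 1) (a (l 1) (b (l 1) (b (l 1) (b (l 1) (l 16035664))))))), by decide +kernel⟩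

def k2_pm_033 : ∃ t, chk3 f_pm_033 t 2 14 1 = true :=
  ⟨(a (l 1) (a (b (b (l 1) (a (l 1) (b (l 1) (a (l 1) (b (l 1) (c (l 15882744) (l 169145831879))))))) (a (b (l 1) (b (a (l 1) (l 239476384455)) (a (l 15945664) (l 15986816)))) (b (a (b (l 1) (l 15910024)) (b (c (l 15911144) (l 15787504)) (l 15890016))) (b (a (l 15979816) (l 15958088)) (a (l 15980448) (l 15958544)))))) (b (b (a (a (l 1) (a (l 1) (l 16081024))) (l 16095056)) (a (a (a (b (l 1) (c (l 161092996919) (b (l 15783272) (l 15730360)))) (b (b (l 1) (c (l 16028424) (l 15936120))) (b (l 15934648) (l 15896896)))) (b (a (c (b (l 16106752) (l 16079080)) (l 16040672)) (l 16090360)) (a (b (c (l 16047600) (l 15956472)) (l 15946232)) (b (l 16029320) (l 15996248))))) (b (b (l 16120784) (l 16085816)) (b (l 16047088) (l 16017040))))) (a (b (a (a (b (a (l 15833056) (l 15868088)) (c (l 15975400) (l 15832656))) (b (l 15928976) (l 15983080))) (a (b (l 16000608) (l 16056344)) (l 16057496))) (a (b (a (l 15967920)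 (l 16041104)) (a (l 15969920) (l 16038472))) (b (a (l 16114896) (l 16143856)) (l 16125712)))) (b (b (l 16048096) (l 16099832)) (b (l 16154752) (l 16156768))))))), by decide +kernel⟩

def k3_pm_033 : ∃ t, chk3 f_pm_033 t 2 15 1 = true :=
  ⟨(a (a (b (l 1) (a (b (l 1) (b (l 302827409847) (l 166462343927))) (b (l 294237607335) (l 16158688)))) (b (b (b (l 255582664951) (l 259877702711)) (a (l 16053184) (l 16071744))) (b (a (l 16127976) (l 16154160)) (a (l 16194784) (l 16229816))))) (a (b (b (a (b (a (l 15963688) (l 16000432)) (a (l 16014352) (l 16048992))) (b (l 15988904) (l 16045056))) (a (a (l 16086248) (l 16118472)) (l 16125280))) (a (b (l 16188640) (l 16271416)) (l 16272720))) (b (a (b (a (b (l 16018824) (l 16070880)) (b (l 16133488) (l 16176344))) (a (l 16153360) (l 16241400))) (b (l 16187800) (l 16273352))) (a (a (b (l 16258936) (l 16357816)) (l 16411680)) (l 16405304))))), by decide +kernel⟩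

def k4_pm_033 : ∃ t, chk3 f_pm_033 t 3 1 1 = true :=
  ⟨(b (a (l 1) (l 4)) (b (a (a (b (l 1) (b (a (l 15963192) (l 16045232)) (a (l 16056496) (l 16118312)))) (b (a (b (l 1) (l 16065544)) (b (l 4) (l 16139608))) (a (b (l 16124184) (l 16189184)) (b (l 16199696) (l 16262744))))) (a (b (l 4) (a (a (l 16508256) (l 16303552)) (l 4))) (l 4))) (a (b (b (a (b (a (l 16129656) (l 16181184)) (b (a (l 16199840) (l 16188976)) (a (b (l 16089056) (l 16063680)) (l 16135384)))) (b (a (l 16245320) (l 16317632)) (b (a (l 16251368) (l 16325880)) (a (l 16206040) (l 16286616))))) (a (b (a (b (l 16091320) (l 16138032)) (l 16170296)) (b (l 16209456) (l 16212896))) (b (a (l 16240384) (l 16402672)) (a (l 16365256) (b (l 16376992) (l 16384784)))))) (b (a (b (a (l 16226504) (l 16275856)) (l 16334336)) (b (a (l 16339840) (l 16393320)) (a (l 16414632) (l 16477976)))) (a (b (l 16414992) (l 16507184)) (a (b (l 16489328) (l 16559568)) (l 16569208))))) (b (a (b (b (a (l 16391240) (l 16451240))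 (a (b (l 16403232) (l 16369360)) (b (l 16470832) (l 16461552)))) (a (b (l 16400632) (l 16457496)) (b (l 16472840) (l 16527800)))) (b (l 4) (a (b (l 4) (l 116198107111)) (l 4)))) (a (b (b (a (l 16485584) (l 16555656)) (a (l 16548128) (l 16608656))) (a (l 16624096) (l 16680800))) (b (a (b (a (l 16603240) (l 4)) (l 16648608)) (l 4)) (a (l 16731888) (a (l 16743256) (l 4))))))))), by decide +kernel⟩

theorem s5_pm_033 : ∃ t, chk3 f_pm_033 t 2 7 1 = true := ex3_b k2_pm_033 k3_pm_033

theorem s6_pm_033 : ∃ t, chk3 f_pm_033 t 2 3 1 = true := ex3_b k1_pm_033 s5_pm_033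

theorem s7_pm_033 : ∃ t, chk3 f_pm_033 t 2 1 1 = true := ex3_b k0_pm_033 s6_pm_033

theorem s8_pm_033 : ∃ t, chk3 f_pm_033 t 1 1 1 = true := ex3_a s7_pm_033 k4_pm_033

theorem c_pm_033 : CertB 0 536870912 0 1230186008 697932185 42949674 3 eng mog cd0q0 cd5q3 pd3 true true false .pnn 0 3 3
    ndB0q0 ndB5q3 pcB3 Cut.none Ext.none :=
  certB2 (fam := true) (s1 := true) (s2 := false) (a := 0) (b := 3) (c := 3) (cn := .pnn) (n1 := ndB0q0) (n2 := ndB5q3) (pc := pcB3) (cut := Cut.none) (xt := Ext.none) (P1 := 0) (W1 := 536870912) (P2 := 0) (W2 := 1230186008) (P3 := 697932185) (W3 := 42949674) (N0 := 3) (En := eng) (mo := mog) (C1 := cd0q0) (C2 := cd5q3) (C3 := pd3)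
    rfl (fun _ => rfl) s8_pm_033

noncomputable def xt_pm_101 : Ext := extD2 3 ⟨7, 3, 3, 10, 49, 25, 3, 4, 67, 200, 3, 16⟩ eng cd0q1 cd5q0 pd1 true true false .npn 1 0 1 rfl ndB0q1 ndB5q0 pcB1

noncomputable def f_pm_101 : ℕ → ℕ → ℕ → ℕ → Bool := onCell 536870912 536870912 0 536870912 697932185 42949674
    (rowB 3 eng mog cd0q1 cd5q0 pd1 2 true true false .npn 1 0 1 (qsf 536870912 536870912 0 536870912 1) ndB0q1 ndB5q0 pcB1 Cut.none xt_pm_101)

def k0_pm_101 : ∃ t, chk3 f_pm_101 t 2 1 1 = true :=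
  ⟨(l 3), by decide +kernel⟩

def k1_pm_101 : ∃ t, chk3 f_pm_101 t 6 1 1 = true :=
  ⟨(l 3), by decide +kernel⟩

def k2_pm_101 : ∃ t, chk3 f_pm_101 t 7 4 1 = true :=
  ⟨(a (a (l 3) (a (a (b (l 3) (l 3)) (b (b (b (a (l 16886432) (l 16888240)) (b (l 16867544) (l 16876136))) (b (l 16931928) (l 16949360))) (b (b (l 16964552) (l 16979248)) (b (a (l 3) (l 16985360)) (b (l 80698794727) (l 556366422295)))))) (b (b (b (l 16927368) (a (l 16875096) (l 16838448))) (b (a (l 16891392) (l 16853480)) (a (l 16909232) (l 16870848)))) (b (a (b (l 16924872) (l 16876664)) (b (l 16887312) (l 16901592))) (a (a (b (l 16943056) (l 16980752)) (b (l 16944144) (l 16918560))) (b (l 16915376) (l 16973104))))))) (b (a (b (a (b (l 16778264) (l 16788384)) (b (l 16717464) (l 16726440))) (a (b (l 16801216) (l 16815440)) (b (l 16736016) (l 16748328)))) (b (a (l 16664952) (l 16612320)) (a (l 16680968) (l 16666864)))) (a (b (a (b (l 16832352) (l 16847344)) (b (l 16762040) (l 16778432))) (a (b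 (l 16861368) (l 16874696)) (b (l 16792880) (l 16806312)))) (a (b (l 16703144) (l 16773784)) (b (l 16663808) (l 16666728)))))), by decide +kernel⟩

def k3_pm_101 : ∃ t, chk3 f_pm_101 t 7 5 1 = true :=
  ⟨(a (a (l 3) (a (b (b (l 3) (l 3)) (l 3)) (b (b (a (a (b (b (l 16992000) (b (l 16996232) (l 16988008))) (b (c (l 135459612279) (b (l 17009040) (a (l 17010304) (l 16985128)))) (b (c (l 17013040) (c (l 126869713559) (a (l 124185399943) (a (l 16992040) (l 17008376))))) (c (l 17005920) (a (l 3) (l 17018872)))))) (b (b (l 16972368) (l 16936552)) (b (c (l 16975416) (l 16959608)) (b (a (c (l 16979640) (l 16996728)) (l 16979208)) (l 16997632))))) (b (a (l 16914488) (l 16937024)) (b (l 16997848) (a (l 16984152) (l 16946120))))) (b (b (a (a (a (l 3) (l 17017896)) (l 16985072)) (l 16961016)) (a (c (l 16968928) (l 54929052727)) (l 16923784))) (a (a (l 16961080) (l 16918128)) (l 16896256)))) (b (a (b (l 74793108647) (l 98415263351)) (b (l 16859088) (l 16821808))) (a (b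 (l 16813256) (l 3)) (b (l 16784208) (l 16745760))))))) (b (a (b (a (b (a (l 16908776) (l 16872120)) (b (l 16964008) (l 16965840))) (b (l 16819000) (b (l 16830136) (l 16832816)))) (a (b (a (l 16900448) (l 16870136)) (l 16886216)) (b (l 16820152) (l 16775608)))) (b (a (b (l 16752800) (l 16762664)) (b (l 16688496) (l 16698672))) (a (b (l 16753984) (l 16736560)) (b (l 16688016) (l 16672976))))) (a (b (a (b (l 16818024) (l 16780912)) (b (l 16766920) (l 16729360))) (a (b (l 16742984) (l 16704768)) (l 16671488))) (b (a (b (l 16711864) (l 16680920)) (b (l 16653848) (l 16627152))) (a (l 16601304) (b (l 16593928) (l 16552112))))))), by decide +kernel⟩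

def k4_pm_101 : ∃ t, chk3 f_pm_101 t 14 3 1 = true :=
  ⟨(b (a (l 3) (a (l 3) (a (l 3) (b (b (b (l 95730667671) (a (l 295446580551) (l 16659360))) (a (l 3) (b (b (l 16627192) (b (l 143157616207773743) (l 16645520))) (a (l 3) (b (b (l 16658072) (l 143547530616717359)) (b (c (l 143909407464439855) (l 143309761179123759)) (b (c (l 143940537395986479) (c (l 1636885559901701076038484015) (b (l 143179331588358191) (l 1675571186129050282471653423)))) (l 1704585405800162434788835375)))))))) (b (b (b (a (l 3) (b (l 1414443209092200907955191855) (l 599315834778558354711087))) (l 3)) (l 3)) (l 3)))))) (l 3)), by decide +kernel⟩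

def k5_pm_101 : ∃ t, chk3 f_pm_101 t 60 3 1 = true :=
  ⟨(b (b (b (b (a (l 16679376) (l 16652216)) (a (l 16638976) (l 16612096))) (b (b (l 16615192) (b (a (l 16627896) (l 16575440)) (a (l 16625912) (l 16599656)))) (a (b (b (l 16648880) (l 143433181390667823)) (b (c (l 143805847198400559) (l 143209980483616815)) (c (b (l 143845223468335151) (l 143730049602158639)) (b (a (b (l 143285434485194799) (l 143283166743101487)) (l 143207850184638511)) (l 143138237340155951))))) (b (b (l 16623848) (l 16646264)) (b (l 143329071376400431) (b (l 143381023313182767) (l 143265712008511535))))))) (a (b (c (b (b (b (l 143486645166358575) (l 16641040)) (l 598478236986122017169967)) (b (l 597605620928323094565423) (l 596873515772897652511279))) (b (b (b (l 142908439365943343) (l 142608959829983279)) (l 596456876825594012557871)) (b (l 71034162807) (l 97340734215)))) (b (b (b (l 595775358039759532986927) (a (l 1453724937676300959681516079) (l 595198320826703764410927))) (c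 (l 597408183120659016585775) (l 596246902935143696388655))) (b (c (l 1444057425976456864491721263) (l 1424714030925493347309261359)) (a (l 3) (b (l 598881905033922744160815) (l 598888534332574226502191)))))) (b (b (b (b (l 143018528001540143) (l 16597536)) (b (l 16568112) (l 16540056))) (b (a (l 595444611298009961013807) (l 16496216)) (l 594347752986680117678639))) (b (b (b (l 16426848) (l 593808185722524022510127)) (c (l 16445232) (l 16408936))) (b (c (l 597393483371475285611055) (l 16430680)) (b (l 597712842628251370279471) (l 597719760157279004217903))))))) (b (a (a (l 3) (b (b (c (l 598869799358124368237103) (l 598089847960257760252463)) (a (l 3) (l 597838222841877304807983))) (b (b (l 597490905238614474773039) (l 3)) (l 3)))) (b (a (b (l 597684019590636166582831) (l 597214492307884983718447)) (b (l 596864292400860676756015) (l 596368824384255839015471))) (c (b (b (l 596482675382835780194863) (l 595854621393201185722927)) (l 594645494965244739719727))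 (b (b (l 16396232) (l 16412432)) (l 594987912652112927887919))))) (b (a (l 3) (c (b (l 593292829809964747641391) (a (l 1) (l 169684050167))) (b (b (l 16406600) (l 16407264)) (l 126197509895)))) (l 1)))), by decide +kernel⟩

def k6_pm_101 : ∃ t, chk3 f_pm_101 t 61 3 1 = true :=
  ⟨(b (b (b (b (l 16612464) (l 16572096)) (b (b (l 16540504) (a (l 16560880) (l 16533704))) (b (a (l 16609040) (l 16581984)) (b (l 142954756328013871) (a (l 143121057492303919) (l 16625968)))))) (b (b (b (a (l 16596704) (l 16578648)) (c (l 16550896) (l 16498912))) (b (c (l 16492168) (l 16446752)) (c (l 16462808) (l 16402088)))) (b (b (b (l 16391176) (a (l 16408816) (l 16363248))) (c (l 16410488) (l 16373808))) (b (b (l 16453872) (l 596005077649552393687599)) (b (a (l 16465280) (l 16423072)) (l 595210138272125985919535)))))) (b (b (a (b (l 595591755290150836539951) (l 596575197333580430594607)) (b (l 16400704) (l 16377408))) (a (b (c (b (l 16401432) (l 16394112)) (l 16370888)) (c (l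 593612765527493109174831) (l 16363704))) (b (l 592976641087326230975023) (c (l 16362960) (l 16340376))))) (b (b (c (l 591657122425303710454319) (a (l 16361856) (l 16338192))) (c (l 590514288983862174044719) (a (l 16364840) (l 16340696)))) (b (a (l 1) (l 176663322423)) (l 1))))), by decide +kernel⟩

def k7_pm_101 : ∃ t, chk3 f_pm_101 t 31 3 1 = true :=
  ⟨(b (b (b (a (l 16518416) (l 16529176)) (b (b (a (l 16486288) (l 16431824)) (a (l 16492712) (l 16437200))) (b (a (l 16540528) (l 16484536)) (a (b (l 16573880) (l 16584552)) (b (l 16517496) (l 16528304)))))) (b (b (b (a (l 16543968) (l 16487504)) (a (l 16481416) (l 16428240))) (b (a (l 16423000) (l 16369864)) (a (l 16373200) (l 16319536)))) (b (b (a (c (l 16350608) (l 16315552)) (c (l 16296216) (l 16262136))) (a (l 16343872) (l 16292416))) (a (b (l 16372488) (c (l 16410240) (l 16366648))) (b (l 16324688) (l 16342960)))))) (b (a (b (b (l 16367224) (l 16343224)) (b (c (l 16340320) (l 16313104)) (c (l 16328296)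 (l 16305408)))) (b (b (l 16321320) (l 16296840)) (b (l 16280136) (l 16270032)))) (b (b (a (a (l 16324480) (l 16301016)) (l 16265824)) (a (c (l 16342768) (l 16304976)) (l 16287328))) (a (b (c (l 16347192) (l 16311048)) (l 185790070471)) (b (l 16271304) (l 16279864)))))), by decide +kernel⟩

theorem s8_pm_101 : ∃ t, chk3 f_pm_101 t 30 3 1 = true := ex3_a k5_pm_101 k6_pm_101

theorem s9_pm_101 : ∃ t, chk3 f_pm_101 t 15 3 1 = true := ex3_a s8_pm_101 k7_pm_101

theorem s10_pm_101 : ∃ t, chk3 f_pm_101 t 7 3 1 = true := ex3_a k4_pm_101 s9_pm_101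

theorem s11_pm_101 : ∃ t, chk3 f_pm_101 t 7 2 1 = true := ex3_b k2_pm_101 k3_pm_101

theorem s12_pm_101 : ∃ t, chk3 f_pm_101 t 7 1 1 = true := ex3_b s11_pm_101 s10_pm_101

theorem s13_pm_101 : ∃ t, chk3 f_pm_101 t 3 1 1 = true := ex3_a k1_pm_101 s12_pm_101

theorem s14_pm_101 : ∃ t, chk3 f_pm_101 t 1 1 1 = true := ex3_a k0_pm_101 s13_pm_101

theorem c_pm_101 : CertB 536870912 536870912 0 536870912 697932185 42949674 3 eng mog cd0q1 cd5q0 pd1 true true false .npn 1 0 1
    ndB0q1 ndB5q0 pcB1 Cut.none xt_pm_101 :=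
  certB2 (fam := true) (s1 := true) (s2 := false) (a := 1) (b := 0) (c := 1) (cn := .npn) (n1 := ndB0q1) (n2 := ndB5q0) (pc := pcB1) (cut := Cut.none) (xt := xt_pm_101) (P1 := 536870912) (W1 := 536870912) (P2 := 0) (W2 := 536870912) (P3 := 697932185) (W3 := 42949674) (N0 := 3) (En := eng) (mo := mog) (C1 := cd0q1) (C2 := cd5q0) (C3 := pd1)
    rfl (fun _ => rfl) s14_pm_101

noncomputable def f_pm_102 : ℕ → ℕ → ℕ → ℕ → Bool := onCell 1073741824 536870912 0 536870912 697932185 42949674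
    (rowB 3 eng mog cd0q1 cd5q0 pd2 2 true true false .npp 1 0 2 (qsf 536870912 536870912 0 536870912 2) ndB0q1 ndB5q0 pcB2 Cut.none Ext.none)

def k0_pm_102 : ∃ t, chk3 f_pm_102 t 2 2 1 = true :=
  ⟨(a (b (a (b (a (b (a (b (l 16545952) (l 16553032)) (b (l 16502056) (l 16511480))) (a (l 16683200) (b (l 16529096) (l 16518592)))) (b (a (b (l 2) (l 16468888)) (l 2)) (a (b (l 16477928) (l 16504888)) (b (l 16437168) (l 16455144))))) (a (b (a (l 16570376) (l 16520840)) (a (l 16590472) (l 16535192))) (b (a (l 16491336) (l 16483440)) (a (l 16488976) (l 16462224))))) (b (a (b (l 2) (a (b (l 2) (l 16397800)) (l 2))) (l 2)) (a (b (a (l 16440152) (l 16536864)) (a (l 16462520) (l 16435384))) (b (b (l 2) (l 16327944)) (a (l 16395904) (l 16352128)))))) (a (b (a (b (b (l 16664088) (a (l 16623472) (l 16563680))) (a (l 16627840) (l 16548768))) (b (a (l 16501952) (l 16459984)) (a (l 16494016) (l 16445680)))) (a (b (a (l 16571768) (l 16516656)) (a (b (l 16533344) (l 16498768))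 (l 16469248))) (b (l 16503672) (l 16551784)))) (b (a (b (a (l 16434264) (l 16434896)) (l 16500632)) (b (a (l 16423232) (l 16397168)) (a (l 16383176) (l 16385872)))) (a (b (l 16401808) (l 16329096)) (b (l 16366816) (l 16279800)))))) (b (a (b (l 2) (a (b (l 2) (a (l 16388080) (l 2))) (l 2))) (l 2)) (a (b (a (b (b (l 179415011111) (a (l 16373784) (l 16338256))) (a (l 16374616) (l 16354560))) (b (a (b (l 2) (l 16299008)) (l 2)) (a (b (l 16321144) (l 16332888)) (l 141297150871)))) (a (a (b (l 16334688) (l 16269144)) (b (l 16336400) (a (l 16275144) (l 16284400)))) (b (a (l 16330528) (l 16329640)) (a (l 16293112) (l 16313392))))) (b (b (l 2) (a (b (l 2) (l 16288888)) (l 2))) (a (b (b (l 16312632) (l 16327896)) (l 16334368)) (b (a (l 16297392) (l 2)) (l 16331560))))))), by decide +kernel⟩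

def k1_pm_102 : ∃ t, chk3 f_pm_102 t 2 6 1 = true :=
  ⟨(a (b (b (a (a (a (l 16433888) (l 16403416)) (a (l 16371936) (l 16335800))) (a (l 16290608) (l 16242320))) (a (b (a (b (l 16361864) (l 16365848)) (b (l 16311576) (l 16314480))) (a (b (l 16409544) (b (l 16439992) (l 16449448))) (b (l 16348712) (l 16378424)))) (b (a (b (l 16262104) (l 16266496)) (l 16219888)) (a (l 16314592) (l 16263448))))) (a (b (a (b (b (l 16410792) (l 16355136)) (a (l 16287088) (l 16259280))) (b (l 16321392) (l 16223520))) (b (a (b (a (l 16223720) (l 16186200)) (l 16222680)) (b (l 16157944) (l 16165400))) (a (b (l 16262024) (l 16326424)) (l 16203712)))) (b (a (b (l 16278752) (l 16192104)) (b (l 16236448) (l 16172024))) (b (a (l 16135720) (l 16292840)) (a (l 16167848) (l 16147936)))))) (b (a (b (a (a (l 16222584) (l 16218112)) (a (l 16225560) (l 16265968))) (a (b (a (l 16197464) (l 16190216)) (a (l 16231280) (l 16218888))) (b (a (l 16186776) (l 16219496)) (a (l 16208936) (l 16231968)))))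 (b (a (l 16315464) (l 16344160)) (b (a (l 16292512) (l 16340280)) (a (l 16308840) (l 16364632))))) (a (b (a (a (l 16225856) (b (l 16197040) (l 16146296))) (b (l 16193784) (l 16143632))) (a (b (a (l 16117512) (l 16113608)) (a (l 16140408) (l 16136288))) (b (l 16112544) (l 16132912)))) (b (a (b (l 16276704) (l 16217584)) (l 16332232)) (b (a (l 16180008) (l 16281040)) (l 16235056)))))), by decide +kernel⟩

def k2_pm_102 : ∃ t, chk3 f_pm_102 t 2 7 1 = true :=
  ⟨(a (a (b (a (b (a (l 16285232) (l 16239592)) (b (l 16225016) (l 16215288))) (b (l 16191088) (l 16165216))) (a (b (a (l 16243840) (l 16198688)) (a (a (l 16280344) (l 16226624)) (l 16208032))) (b (l 16157360) (l 16188584)))) (b (a (b (l 16124232) (l 16089016)) (b (l 16105184) (l 16025400))) (a (b (l 16090456) (l 16103568)) (b (l 15999048) (l 16025152))))) (a (b (a (a (l 16062120) (b (l 16102784) (l 16030888))) (b (l 16102312) (l 16046400))) (a (a (l 15929240) (l 16016312)) (b (l 15975744) (l 15941544))))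 (b (a (b (l 16157840) (l 16102856)) (b (l 16248664) (l 16185592))) (a (b (l 16047800) (l 16022016)) (b (l 16135448) (l 16102528)))))), by decide +kernel⟩

def k3_pm_102 : ∃ t, chk3 f_pm_102 t 3 1 1 = true :=
  ⟨(b (a (b (l 2) (a (b (l 2) (a (b (l 2) (a (l 16314224) (l 2))) (l 2))) (l 2))) (l 2)) (b (a (b (a (b (a (l 16347896) (a (l 16339256) (l 2))) (b (a (l 16361104) (l 16366640)) (l 16638584))) (b (l 2) (a (b (l 2) (l 16379496)) (l 2)))) (a (b (a (l 16370784) (l 16392776)) (b (l 16361504) (l 16377888))) (b (a (b (l 16400488) (l 16410352)) (l 16408472)) (a (l 16417200) (l 16570216))))) (b (l 2) (a (b (l 2) (a (l 16455160) (l 2))) (l 2)))) (a (b (a (a (l 16314008) (l 16373904)) (a (l 16413976) (l 16451816))) (a (a (b (l 16238752) (l 16196880)) (l 16300032)) (a (l 16365960) (l 16426056)))) (a (b (a (l 16489264) (l 16518264)) (a (l 16478672) (l 16530392))) (b (a (l 16529712) (l 2)) (a (l 16587816) (l 16652184))))))), by decide +kernel⟩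

theorem s4_pm_102 : ∃ t, chk3 f_pm_102 t 2 3 1 = true := ex3_b k1_pm_102 k2_pm_102

theorem s5_pm_102 : ∃ t, chk3 f_pm_102 t 2 1 1 = true := ex3_b k0_pm_102 s4_pm_102

theorem s6_pm_102 : ∃ t, chk3 f_pm_102 t 1 1 1 = true := ex3_a s5_pm_102 k3_pm_102

theorem c_pm_102 : CertB 536870912 536870912 0 536870912 697932185 42949674 3 eng mog cd0q1 cd5q0 pd2 true true false .npp 1 0 2
    ndB0q1 ndB5q0 pcB2 Cut.none Ext.none :=
  certB2 (fam := true) (s1 := true) (s2 := false) (a := 1) (b := 0) (c := 2) (cn := .npp) (n1 := ndB0q1) (n2 := ndB5q0) (pc := pcB2) (cut := Cut.none) (xt := Ext.none) (P1 := 536870912) (W1 := 536870912) (P2 := 0) (W2 := 536870912) (P3 := 697932185) (W3 := 42949674) (N0 := 3) (En := eng) (mo := mog) (C1 := cd0q1) (C2 := cd5q0) (C3 := pd2)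
    rfl (fun _ => rfl) s6_pm_102

noncomputable def f_pm_112 : ℕ → ℕ → ℕ → ℕ → Bool := onCell 536870912 536870912 1073741824 536870912 697932185 42949674
    (rowB 3 eng mog cd0q1 cd5q1 pd2 1 true true false .dn 1 1 2 (qsf 536870912 536870912 536870912 536870912 2) ndB0q1 ndB5q1 pcB2 Cut.none Ext.none)

def k0_pm_112 : ∃ t, chk3 f_pm_112 t 1 1 1 = true :=
  ⟨(b (a (b (a (a (a (b (b (b (l 16206432) (l 16191216)) (l 16164872)) (l 16178704)) (b (l 197601080167) (l 16139472))) (b (b (l 1) (l 340945218807)) (b (l 16047496) (l 16032696)))) (a (b (l 1) (l 257193406951)) (l 1))) (a (b (a (b (b (l 16097712) (a (l 16255000) (l 16165384))) (a (l 16087960) (l 16066976))) (b (b (l 16028536) (b (l 16025104) (l 16007952))) (l 16026680))) (a (a (l 16077800) (l 16076944)) (l 16026992))) (b (a (b (b (l 15963088) (b (l 15961352) (l 15966152))) (l 16012568)) (b (l 1) (l 15944368))) (a (l 16136464) (l 16050936))))) (a (b (l 1) (b (l 1) (a (l 377452908631) (l 1)))) (l 1))) (a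 (a (b (a (b (l 16035368) (l 16105344)) (b (l 16073480) (l 16035000))) (a (b (a (l 15845792) (l 15895984)) (a (b (l 15773864) (l 15724400)) (l 15815736))) (b (l 15973960) (a (l 15880472) (l 15943296))))) (b (b (a (l 16104880) (l 16142000)) (a (l 16106136) (l 16183152))) (a (b (l 16082760) (l 16044480)) (l 16191472)))) (b (a (a (b (l 16196048) (l 16261160)) (b (l 16265360) (l 16342088))) (a (b (l 1) (l 16392456)) (l 1))) (a (a (l 16319648) (l 16445680)) (b (a (l 16479064) (l 16512904)) (a (l 16577168) (l 16624400))))))), by decide +kernel⟩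

theorem c_pm_112 : CertB 536870912 536870912 536870912 536870912 697932185 42949674 3 eng mog cd0q1 cd5q1 pd2 true true false .dn 1 1 2
    ndB0q1 ndB5q1 pcB2 Cut.none Ext.none :=
  certB1 (fam := true) (s1 := true) (s2 := false) (a := 1) (b := 1) (c := 2) (cn := .dn) (n1 := ndB0q1) (n2 := ndB5q1) (pc := pcB2) (cut := Cut.none) (xt := Ext.none) (P1 := 536870912) (W1 := 536870912) (P2 := 536870912) (W2 := 536870912) (P3 := 697932185) (W3 := 42949674) (N0 := 3) (En := eng) (mo := mog) (C1 := cd0q1) (C2 := cd5q1) (C3 := pd2)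
    rfl (fun _ => rfl) k0_pm_112

noncomputable def f_pm_113 : ℕ → ℕ → ℕ → ℕ → Bool := onCell 536870912 536870912 1610612736 536870912 697932185 42949674
    (rowB 3 eng mog cd0q1 cd5q1 pd3 1 true true false .nn 1 1 3 (qsf 536870912 536870912 536870912 536870912 3) ndB0q1 ndB5q1 pcB3 Cut.none Ext.none)

def k0_pm_113 : ∃ t, chk3 f_pm_113 t 1 1 1 = true :=
  ⟨(a (b (b (a (a (b (a (b (l 243838084631) (l 313631142983)) (b (l 15777232) (l 15690256))) (a (l 2) (l 330810824631))) (b (a (l 15811744) (l 15886952)) (a (l 270681471783) (l 15727240)))) (b (a (l 16001880) (l 16169656)) (a (l 15868928) (l 16087624)))) (b (a (b (a (l 2) (b (l 327589756855) (l 2))) (l 2)) (b (a (c (l 273903028455) (l 284103418071)) (l 16012048)) (a (l 277660968583) (l 15973096)))) (a (l 2) (b (a (b (l 328663593559) (l 2)) (l 15937960)) (a (l 2) (l 15907632)))))) (b (a (l 2) (b (a (l 2) (l 443017809687)) (l 2))) (l 2))) (b (b (a (a (b (l 16357056) (l 16242624)) (b (l 16507744) (l 16401520)))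 (b (a (l 16651256) (l 16761960)) (a (l 16557416) (l 16673936)))) (b (a (a (l 16157544) (l 16323784)) (a (l 16485664) (l 16607184))) (a (a (l 16097424) (l 16263632)) (a (l 16417896) (l 16532288))))) (b (a (b (a (b (l 16063576) (l 16046424)) (b (l 16227512) (l 4))) (a (b (l 509590167015) (l 2)) (l 4))) (l 4)) (l 4)))), by decide +kernel⟩

theorem c_pm_113 : CertB 536870912 536870912 536870912 536870912 697932185 42949674 3 eng mog cd0q1 cd5q1 pd3 true true false .nn 1 1 3
    ndB0q1 ndB5q1 pcB3 Cut.none Ext.none :=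
  certB1 (fam := true) (s1 := true) (s2 := false) (a := 1) (b := 1) (c := 3) (cn := .nn) (n1 := ndB0q1) (n2 := ndB5q1) (pc := pcB3) (cut := Cut.none) (xt := Ext.none) (P1 := 536870912) (W1 := 536870912) (P2 := 536870912) (W2 := 536870912) (P3 := 697932185) (W3 := 42949674) (N0 := 3) (En := eng) (mo := mog) (C1 := cd0q1) (C2 := cd5q1) (C3 := pd3)
    rfl (fun _ => rfl) k0_pm_113

noncomputable def f_pm_123 : ℕ → ℕ → ℕ → ℕ → Bool := onCell 536870912 536870912 1610612736 536870912 697932185 42949674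
    (rowB 3 eng mog cd0q1 cd5q2 pd3 1 true true false .npn 1 2 3 (qsf 536870912 536870912 1073741824 536870912 3) ndB0q1 ndB5q2 pcB3 Cut.none Ext.none)

def k0_pm_123 : ∃ t, chk3 f_pm_123 t 2 1 1 = true :=
  ⟨(b (a (b (a (b (a (l 16195224) (l 16215776)) (a (l 16192384) (l 16216344))) (b (l 219612731079) (l 154114727687))) (a (b (a (l 16202728) (l 16225568)) (b (l 16252664) (l 16308496))) (b (l 16276112) (l 16343576)))) (a (b (b (l 1) (l 237866577207)) (b (l 229813574359) (l 16382504))) (b (l 1) (b (l 235719451591) (l 211023380455))))) (a (b (b (a (b (l 16384472) (l 16457976)) (b (l 16339928) (l 16394352))) (a (b (l 16528160) (l 16580392)) (b (l 16461216) (l 16524512)))) (b (a (l 16617160) (l 16734840)) (b (a (l 16670728) (l 16631176)) (b (l 16693840) (b (l 16713504) (b (l 16713512) (l 4))))))) (b (a (b (a (l 16358656) (l 16386960)) (a (b (l 16398912) (l 16462520)) (l 16471032))) (a (b (l 16425728) (l 16407864)) (l 16423888))) (b (a (b (l 16502104) (l 16551896))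 (b (l 16600416) (l 16577344))) (b (a (a (l 16593016) (l 16575528)) (a (l 16544696) (l 16502936))) (b (a (l 16777928) (a (l 16571160) (l 16543520))) (b (a (l 16629296) (l 16575080)) (b (a (l 16639288) (l 16582048)) (a (l 16646536) (b (l 16587864) (a (l 16608000) (l 16618352)))))))))))), by decide +kernel⟩

def k1_pm_123 : ∃ t, chk3 f_pm_123 t 3 1 1 = true :=
  ⟨(b (a (a (a (b (l 1) (l 235182664711)) (l 1)) (l 1)) (l 1)) (a (b (a (a (b (l 16506000) (l 16449744)) (b (l 174516676567) (l 16486288))) (b (a (l 188475476103) (l 1)) (a (b (l 16564888) (a (l 16506880) (l 16531424))) (b (c (l 16656576) (l 182032926103)) (a (l 16552616) (l 197602153127)))))) (b (a (a (l 16422856) (l 16437016)) (a (b (l 16482184) (l 16461576)) (b (l 16526088) (l 16507808)))) (b (a (a (l 16452288) (l 16431576)) (a (l 16459248) (b (l 16506744) (l 16511208)))) (b (a (a (l 16495936) (l 16456152)) (l 16745928)) (b (a (a (l 16519424) (l 16481280)) (a (l 16480808) (l 16523680))) (a (b (a (l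 16531128) (l 16498112)) (b (a (l 16536912) (l 16505960)) (a (a (l 16549040) (l 16655736)) (l 16759000)))) (b (l 16688904) (b (l 16501488) (a (l 16569720) (l 4)))))))))) (b (a (a (b (l 1) (b (l 1) (b (l 1) (l 280817237415)))) (l 1)) (l 1)) (b (a (a (b (l 16598080) (l 16576864)) (b (l 16709968) (l 16753496))) (b (l 1) (a (l 260953172183) (l 1)))) (b (a (a (b (l 16570408) (l 16567336)) (b (l 16632616) (l 16629432))) (b (a (l 16691696) (l 1)) (a (l 16676672) (l 16808864)))) (b (a (a (l 16722424) (b (l 16620688) (l 16614816))) (a (l 16749032) (l 16838600))) (b (a (a (l 16562704) (l 16607192)) (l 16856616)) (a (b (l 16574712) (l 4)) (l 4))))))))), by decide +kernel⟩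

theorem s2_pm_123 : ∃ t, chk3 f_pm_123 t 1 1 1 = true := ex3_a k0_pm_123 k1_pm_123

theorem c_pm_123 : CertB 536870912 536870912 1073741824 536870912 697932185 42949674 3 eng mog cd0q1 cd5q2 pd3 true true false .npn 1 2 3
    ndB0q1 ndB5q2 pcB3 Cut.none Ext.none :=
  certB1 (fam := true) (s1 := true) (s2 := false) (a := 1) (b := 2) (c := 3) (cn := .npn) (n1 := ndB0q1) (n2 := ndB5q2) (pc := pcB3) (cut := Cut.none) (xt := Ext.none) (P1 := 536870912) (W1 := 536870912) (P2 := 1073741824) (W2 := 536870912) (P3 := 697932185) (W3 := 42949674) (N0 := 3) (En := eng) (mo := mog) (C1 := cd0q1) (C2 := cd5q2) (C3 := pd3)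
    rfl (fun _ => rfl) s2_pm_123

noncomputable def f_pm_133 : ℕ → ℕ → ℕ → ℕ → Bool := onCell 536870912 536870912 0 1230186008 697932185 42949674
    (rowB 3 eng mog cd0q1 cd5q3 pd3 0 true true false .dn 1 3 3 (qsf 536870912 536870912 0 1230186008 3) ndB0q1 ndB5q3 pcB3 Cut.none Ext.none)

def k0_pm_133 : ∃ t, chk3 f_pm_133 t 1 1 1 = true :=
  ⟨(b (l 2) (b (l 2) (a (b (l 2) (l 4)) (l 2)))), by decide +kernel⟩

theorem c_pm_133 : CertB 536870912 536870912 0 1230186008 697932185 42949674 3 eng mog cd0q1 cd5q3 pd3 true true false .dn 1 3 3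
    ndB0q1 ndB5q3 pcB3 Cut.none Ext.none :=
  certB0 (fam := true) (s1 := true) (s2 := false) (a := 1) (b := 3) (c := 3) (cn := .dn) (n1 := ndB0q1) (n2 := ndB5q3) (pc := pcB3) (cut := Cut.none) (xt := Ext.none) (P1 := 536870912) (W1 := 536870912) (P2 := 0) (W2 := 1230186008) (P3 := 697932185) (W3 := 42949674) (N0 := 3) (En := eng) (mo := mog) (C1 := cd0q1) (C2 := cd5q3) (C3 := pd3)
    rfl k0_pm_133

noncomputable def f_pm_202 : ℕ → ℕ → ℕ → ℕ → Bool := onCell 0 536870912 0 536870912 697932185 42949674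
    (rowB 3 eng mog cd0q2 cd5q0 pd2 0 true true false .pp 2 0 2 (qsf 0 536870912 0 536870912 2) ndB0q2 ndB5q0 pcB2 Cut.none Ext.none)

def k0_pm_202 : ∃ t, chk3 f_pm_202 t 2 1 1 = true :=
  ⟨(a (b (b (b (b (a (b (l 16371608) (l 16378064)) (b (l 16378168) (l 16379056))) (a (l 16396776) (l 16395544))) (b (a (l 16422288) (l 16419176)) (l 16572360))) (b (b (a (l 16481808) (l 16471272)) (a (l 16515824) (l 16499088))) (a (l 4) (b (l 16528024) (l 16556904))))) (l 4)) (b (b (b (a (b (b (a (l 16386304) (a (l 16393376) (l 16398544))) (a (l 16380344) (l 16385424))) (a (l 16392832) (b (l 16386216) (l 16396872)))) (b (a (b (l 16450160) (a (l 16392808) (l 16398152))) (b (l 16418992) (l 16404704))) (a (b (a (l 16387208) (b (l 16389720) (l 16388040))) (l 16395856)) (b (a (b (l 16393648) (l 16388560)) (l 16393376)) (a (l 16455648) (b (l 16387248) (l 16390736))))))) (a (b (l 16414032) (l 16436200)) (b (a (l 16411584) (b (l 16400664) (l 16410464))) (a (l 16431984) (l 16424984)))))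 (b (a (b (l 16459992) (l 16483536)) (b (l 16573144) (l 16466104))) (a (b (l 16507736) (l 16531288)) (b (l 16485848) (l 16508288))))) (b (b (b (a (l 16555488) (l 16528504)) (a (l 4) (b (l 16544928) (l 16567376)))) (b (a (l 4) (l 16581080)) (l 4))) (l 4)))), by decide +kernel⟩

def k1_pm_202 : ∃ t, chk3 f_pm_202 t 3 2 1 = true :=
  ⟨(b (a (b (a (b (a (b (l 16427184) (l 16411224)) (b (l 16435680) (l 16417920))) (a (b (l 16396768) (a (l 16428544) (l 16385176))) (b (l 16401688) (l 16387008)))) (b (a (b (l 16444816) (l 16425144)) (l 16546864)) (a (b (l 16407016) (l 16390488)) (l 16401784)))) (a (b (a (b (a (l 16392456) (l 16386808)) (a (l 16401944) (l 16395304))) (b (a (l 16381688) (l 16378240)) (l 16386560))) (a (l 16412472) (b (l 16394296) (l 16402792)))) (b (a (b (a (l 16376144) (l 16375592)) (a (l 16375944) (l 16368688))) (b (l 16375936) (a (l 16363104) (l 16360784)))) (a (l 16383832) (b (l 16361048) (l 16368496)))))) (b (a (b (b (a (l 16464904) (l 16481488))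 (l 16448232)) (a (l 16408560) (l 16419856))) (b (a (b (a (l 16498224) (l 16512192)) (l 16474728)) (a (b (b (l 16534680) (l 16518464)) (l 16494472)) (b (l 16540800) (l 16508856)))) (a (l 16434504) (a (l 16449624) (l 16462616))))) (a (b (a (l 16371248) (l 16378824)) (a (b (l 16518280) (l 16349808)) (b (l 16353224) (l 16404072)))) (b (a (l 16389760) (l 16405552)) (a (l 16353632) (l 16366512)))))) (a (b (a (b (a (l 16430904) (l 16415112)) (l 16438264)) (b (a (b (l 16394312) (l 16401720)) (l 16379264)) (a (l 16407272) (l 16384704)))) (a (b (l 16452368) (l 16471656)) (b (l 16404368) (l 16417920)))) (b (a (b (a (l 16361112) (b (l 16340552) (l 16347688))) (a (l 16366208) (l 16349608))) (b (a (b (a (l 16332752) (l 16334584)) (a (l 16334848) (l 16328888))) (b (l 16343728) (a (l 16328648) (l 16334400)))) (a (l 16333416) (b (a (l 16322360) (l 16320680)) (l 16321000))))) (a (b (a (l 16369136) (l 16352648)) (a (l 16379488) (l 16359576))) (a (l 16508648) (b (l 16325448)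 (l 16335128))))))), by decide +kernel⟩

def k2_pm_202 : ∃ t, chk3 f_pm_202 t 3 3 1 = true :=
  ⟨(b (b (a (b (a (l 16494000) (l 16439656)) (a (b (l 16511736) (l 16533248)) (b (l 16460752) (l 16483032)))) (b (a (l 16533400) (l 16416896)) (a (b (l 16406824) (l 16431464)) (b (a (l 16376824) (l 16368552)) (a (l 16400344) (l 16389336)))))) (a (b (a (l 16547216) (l 16500912)) (a (l 16569472) (l 16529768))) (b (a (l 16452008) (a (l 16422120) (l 16410064))) (a (l 16485704) (b (l 16442456) (l 16461536)))))) (a (b (a (b (l 16596304) (l 2)) (b (l 16562448) (l 16595560))) (l 2)) (a (b (l 16543280) (b (l 16616464) (l 2))) (b (l 16513416) (l 16626704))))), by decide +kernel⟩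

theorem s3_pm_202 : ∃ t, chk3 f_pm_202 t 3 1 1 = true := ex3_b k1_pm_202 k2_pm_202

theorem s4_pm_202 : ∃ t, chk3 f_pm_202 t 1 1 1 = true := ex3_a k0_pm_202 s3_pm_202

theorem c_pm_202 : CertB 0 536870912 0 536870912 697932185 42949674 3 eng mog cd0q2 cd5q0 pd2 true true false .pp 2 0 2
    ndB0q2 ndB5q0 pcB2 Cut.none Ext.none :=
  certB0 (fam := true) (s1 := true) (s2 := false) (a := 2) (b := 0) (c := 2) (cn := .pp) (n1 := ndB0q2) (n2 := ndB5q0) (pc := pcB2) (cut := Cut.none) (xt := Ext.none) (P1 := 0) (W1 := 536870912) (P2 := 0) (W2 := 536870912) (P3 := 697932185) (W3 := 42949674) (N0 := 3) (En := eng) (mo := mog) (C1 := cd0q2) (C2 := cd5q0) (C3 := pd2)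
    rfl s4_pm_202

noncomputable def f_pm_203 : ℕ → ℕ → ℕ → ℕ → Bool := onCell 0 536870912 1610612736 536870912 697932185 42949674
    (rowB 3 eng mog cd0q2 cd5q0 pd3 1 true true false .up 2 0 3 (qsf 0 536870912 0 536870912 3) ndB0q2 ndB5q0 pcB3 Cut.none Ext.none)

def k0_pm_203 : ∃ t, chk3 f_pm_203 t 1 1 1 = true :=
  ⟨(b (a (l 4) (b (a (b (l 49627238503) (l 4)) (b (l 16698008) (l 16763976))) (a (l 2) (l 2)))) (l 2)), by decide +kernel⟩

theorem c_pm_203 : CertB 0 536870912 0 536870912 697932185 42949674 3 eng mog cd0q2 cd5q0 pd3 true true false .up 2 0 3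
    ndB0q2 ndB5q0 pcB3 Cut.none Ext.none :=
  certB1 (fam := true) (s1 := true) (s2 := false) (a := 2) (b := 0) (c := 3) (cn := .up) (n1 := ndB0q2) (n2 := ndB5q0) (pc := pcB3) (cut := Cut.none) (xt := Ext.none) (P1 := 0) (W1 := 536870912) (P2 := 0) (W2 := 536870912) (P3 := 697932185) (W3 := 42949674) (N0 := 3) (En := eng) (mo := mog) (C1 := cd0q2) (C2 := cd5q0) (C3 := pd3)
    rfl (fun _ => rfl) k0_pm_203

noncomputable def f_pm_213 : ℕ → ℕ → ℕ → ℕ → Bool := onCell 0 536870912 1610612736 536870912 697932185 42949674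
    (rowB 3 eng mog cd0q2 cd5q1 pd3 1 true true false .pnn 2 1 3 (qsf 0 536870912 536870912 536870912 3) ndB0q2 ndB5q1 pcB3 Cut.none Ext.none)

def k0_pm_213 : ∃ t, chk3 f_pm_213 t 1 1 1 = true :=
  ⟨(b (a (l 4) (b (a (b (l 1) (l 4)) (b (l 16712776) (l 16615400))) (a (l 4) (b (l 16622456) (l 4))))) (l 4)), by decide +kernel⟩

theorem c_pm_213 : CertB 0 536870912 536870912 536870912 697932185 42949674 3 eng mog cd0q2 cd5q1 pd3 true true false .pnn 2 1 3
    ndB0q2 ndB5q1 pcB3 Cut.none Ext.none :=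
  certB1 (fam := true) (s1 := true) (s2 := false) (a := 2) (b := 1) (c := 3) (cn := .pnn) (n1 := ndB0q2) (n2 := ndB5q1) (pc := pcB3) (cut := Cut.none) (xt := Ext.none) (P1 := 0) (W1 := 536870912) (P2 := 536870912) (W2 := 536870912) (P3 := 697932185) (W3 := 42949674) (N0 := 3) (En := eng) (mo := mog) (C1 := cd0q2) (C2 := cd5q1) (C3 := pd3)
    rfl (fun _ => rfl) k0_pm_213

noncomputable def f_mm_001 : ℕ → ℕ → ℕ → ℕ → Bool := onCell 0 536870912 0 536870912 697932185 42949674
    (rowB 3 eng mog cd0q0 cd5q0 pd1 0 true false false .up 0 0 1 (qsf 0 536870912 0 536870912 1) ndB0q0 ndB5q0 pcB1 Cut.none Ext.none)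

def k0_mm_001 : ∃ t, chk3 f_mm_001 t 1 1 1 = true :=
  ⟨(l 4), by decide +kernel⟩

theorem c_mm_001 : CertB 0 536870912 0 536870912 697932185 42949674 3 eng mog cd0q0 cd5q0 pd1 true false false .up 0 0 1
    ndB0q0 ndB5q0 pcB1 Cut.none Ext.none :=
  certB0 (fam := true) (s1 := false) (s2 := false) (a := 0) (b := 0) (c := 1) (cn := .up) (n1 := ndB0q0) (n2 := ndB5q0) (pc := pcB1) (cut := Cut.none) (xt := Ext.none) (P1 := 0) (W1 := 536870912) (P2 := 0) (W2 := 536870912) (P3 := 697932185) (W3 := 42949674) (N0 := 3) (En := eng) (mo := mog) (C1 := cd0q0) (C2 := cd5q0) (C3 := pd1)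
    rfl k0_mm_001

noncomputable def f_mm_011 : ℕ → ℕ → ℕ → ℕ → Bool := onCell 0 536870912 536870912 536870912 697932185 42949674
    (rowB 3 eng mog cd0q0 cd5q1 pd1 0 true false false .pnn 0 1 1 (qsf 0 536870912 536870912 536870912 1) ndB0q0 ndB5q1 pcB1 Cut.none Ext.none)

def k0_mm_011 : ∃ t, chk3 f_mm_011 t 1 1 1 = true :=
  ⟨(l 4), by decide +kernel⟩

theorem c_mm_011 : CertB 0 536870912 536870912 536870912 697932185 42949674 3 eng mog cd0q0 cd5q1 pd1 true false false .pnn 0 1 1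
    ndB0q0 ndB5q1 pcB1 Cut.none Ext.none :=
  certB0 (fam := true) (s1 := false) (s2 := false) (a := 0) (b := 1) (c := 1) (cn := .pnn) (n1 := ndB0q0) (n2 := ndB5q1) (pc := pcB1) (cut := Cut.none) (xt := Ext.none) (P1 := 0) (W1 := 536870912) (P2 := 536870912) (W2 := 536870912) (P3 := 697932185) (W3 := 42949674) (N0 := 3) (En := eng) (mo := mog) (C1 := cd0q0) (C2 := cd5q1) (C3 := pd1)
    rfl k0_mm_011

noncomputable def f_mm_012 : ℕ → ℕ → ℕ → ℕ → Bool := onCell 0 536870912 536870912 536870912 697932185 42949674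
    (rowB 3 eng mog cd0q0 cd5q1 pd2 0 true false false .pnp 0 1 2 (qsf 0 536870912 536870912 536870912 2) ndB0q0 ndB5q1 pcB2 Cut.none Ext.none)

def k0_mm_012 : ∃ t, chk3 f_mm_012 t 1 1 1 = true :=
  ⟨(l 4), by decide +kernel⟩

theorem c_mm_012 : CertB 0 536870912 536870912 536870912 697932185 42949674 3 eng mog cd0q0 cd5q1 pd2 true false false .pnp 0 1 2
    ndB0q0 ndB5q1 pcB2 Cut.none Ext.none :=
  certB0 (fam := true) (s1 := false) (s2 := false) (a := 0) (b := 1) (c := 2) (cn := .pnp) (n1 := ndB0q0) (n2 := ndB5q1) (pc := pcB2) (cut := Cut.none) (xt := Ext.none) (P1 := 0) (W1 := 536870912) (P2 := 536870912) (W2 := 536870912) (P3 := 697932185) (W3 := 42949674) (N0 := 3) (En := eng) (mo := mog) (C1 := cd0q0) (C2 := cd5q1) (C3 := pd2)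
    rfl k0_mm_012

noncomputable def f_mm_022 : ℕ → ℕ → ℕ → ℕ → Bool := onCell 0 536870912 1073741824 536870912 697932185 42949674
    (rowB 3 eng mog cd0q0 cd5q2 pd2 0 true false false .pp 0 2 2 (qsf 0 536870912 1073741824 536870912 2) ndB0q0 ndB5q2 pcB2 Cut.none Ext.none)

def k0_mm_022 : ∃ t, chk3 f_mm_022 t 1 1 1 = true :=
  ⟨(l 4), by decide +kernel⟩

theorem c_mm_022 : CertB 0 536870912 1073741824 536870912 697932185 42949674 3 eng mog cd0q0 cd5q2 pd2 true false false .pp 0 2 2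
    ndB0q0 ndB5q2 pcB2 Cut.none Ext.none :=
  certB0 (fam := true) (s1 := false) (s2 := false) (a := 0) (b := 2) (c := 2) (cn := .pp) (n1 := ndB0q0) (n2 := ndB5q2) (pc := pcB2) (cut := Cut.none) (xt := Ext.none) (P1 := 0) (W1 := 536870912) (P2 := 1073741824) (W2 := 536870912) (P3 := 697932185) (W3 := 42949674) (N0 := 3) (En := eng) (mo := mog) (C1 := cd0q0) (C2 := cd5q2) (C3 := pd2)
    rfl k0_mm_022

noncomputable def f_mm_023 : ℕ → ℕ → ℕ → ℕ → Bool := onCell 0 536870912 1073741824 536870912 697932185 42949674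
    (rowB 3 eng mog cd0q0 cd5q2 pd3 0 true false false .up 0 2 3 (qsf 0 536870912 1073741824 536870912 3) ndB0q0 ndB5q2 pcB3 Cut.none Ext.none)

def k0_mm_023 : ∃ t, chk3 f_mm_023 t 1 1 1 = true :=
  ⟨(l 4), by decide +kernel⟩

theorem c_mm_023 : CertB 0 536870912 1073741824 536870912 697932185 42949674 3 eng mog cd0q0 cd5q2 pd3 true false false .up 0 2 3
    ndB0q0 ndB5q2 pcB3 Cut.none Ext.none :=
  certB0 (fam := true) (s1 := false) (s2 := false) (a := 0) (b := 2) (c := 3) (cn := .up) (n1 := ndB0q0) (n2 := ndB5q2) (pc := pcB3) (cut := Cut.none) (xt := Ext.none) (P1 := 0) (W1 := 536870912) (P2 := 1073741824) (W2 := 536870912) (P3 := 697932185) (W3 := 42949674) (N0 := 3) (En := eng) (mo := mog) (C1 := cd0q0) (C2 := cd5q2) (C3 := pd3)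
    rfl k0_mm_023

noncomputable def f_mm_033 : ℕ → ℕ → ℕ → ℕ → Bool := onCell 0 536870912 0 1230186008 697932185 42949674
    (rowB 3 eng mog cd0q0 cd5q3 pd3 0 true false false .pnn 0 3 3 (qsf 0 536870912 0 1230186008 3) ndB0q0 ndB5q3 pcB3 Cut.none Ext.none)

def k0_mm_033 : ∃ t, chk3 f_mm_033 t 1 1 1 = true :=
  ⟨(l 5), by decide +kernel⟩

theorem c_mm_033 : CertB 0 536870912 0 1230186008 697932185 42949674 3 eng mog cd0q0 cd5q3 pd3 true false false .pnn 0 3 3
    ndB0q0 ndB5q3 pcB3 Cut.none Ext.none :=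
  certB0 (fam := true) (s1 := false) (s2 := false) (a := 0) (b := 3) (c := 3) (cn := .pnn) (n1 := ndB0q0) (n2 := ndB5q3) (pc := pcB3) (cut := Cut.none) (xt := Ext.none) (P1 := 0) (W1 := 536870912) (P2 := 0) (W2 := 1230186008) (P3 := 697932185) (W3 := 42949674) (N0 := 3) (En := eng) (mo := mog) (C1 := cd0q0) (C2 := cd5q3) (C3 := pd3)
    rfl k0_mm_033

noncomputable def f_mm_101 : ℕ → ℕ → ℕ → ℕ → Bool := onCell 536870912 536870912 0 536870912 697932185 42949674
    (rowB 3 eng mog cd0q1 cd5q0 pd1 0 true false false .npn 1 0 1 (qsf 536870912 536870912 0 536870912 1) ndB0q1 ndB5q0 pcB1 Cut.none Ext.none)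

def k0_mm_101 : ∃ t, chk3 f_mm_101 t 1 1 1 = true :=
  ⟨(l 4), by decide +kernel⟩

theorem c_mm_101 : CertB 536870912 536870912 0 536870912 697932185 42949674 3 eng mog cd0q1 cd5q0 pd1 true false false .npn 1 0 1
    ndB0q1 ndB5q0 pcB1 Cut.none Ext.none :=
  certB0 (fam := true) (s1 := false) (s2 := false) (a := 1) (b := 0) (c := 1) (cn := .npn) (n1 := ndB0q1) (n2 := ndB5q0) (pc := pcB1) (cut := Cut.none) (xt := Ext.none) (P1 := 536870912) (W1 := 536870912) (P2 := 0) (W2 := 536870912) (P3 := 697932185) (W3 := 42949674) (N0 := 3) (En := eng) (mo := mog) (C1 := cd0q1) (C2 := cd5q0) (C3 := pd1)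
    rfl k0_mm_101

noncomputable def f_mm_102 : ℕ → ℕ → ℕ → ℕ → Bool := onCell 536870912 536870912 0 536870912 697932185 42949674
    (rowB 3 eng mog cd0q1 cd5q0 pd2 0 true false false .npp 1 0 2 (qsf 536870912 536870912 0 536870912 2) ndB0q1 ndB5q0 pcB2 Cut.none Ext.none)

def k0_mm_102 : ∃ t, chk3 f_mm_102 t 1 1 1 = true :=
  ⟨(l 4), by decide +kernel⟩

theorem c_mm_102 : CertB 536870912 536870912 0 536870912 697932185 42949674 3 eng mog cd0q1 cd5q0 pd2 true false false .npp 1 0 2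
    ndB0q1 ndB5q0 pcB2 Cut.none Ext.none :=
  certB0 (fam := true) (s1 := false) (s2 := false) (a := 1) (b := 0) (c := 2) (cn := .npp) (n1 := ndB0q1) (n2 := ndB5q0) (pc := pcB2) (cut := Cut.none) (xt := Ext.none) (P1 := 536870912) (W1 := 536870912) (P2 := 0) (W2 := 536870912) (P3 := 697932185) (W3 := 42949674) (N0 := 3) (En := eng) (mo := mog) (C1 := cd0q1) (C2 := cd5q0) (C3 := pd2)
    rfl k0_mm_102

noncomputable def f_mm_112 : ℕ → ℕ → ℕ → ℕ → Bool := onCell 536870912 536870912 536870912 536870912 697932185 42949674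
    (rowB 3 eng mog cd0q1 cd5q1 pd2 0 true false false .dn 1 1 2 (qsf 536870912 536870912 536870912 536870912 2) ndB0q1 ndB5q1 pcB2 Cut.none Ext.none)

def k0_mm_112 : ∃ t, chk3 f_mm_112 t 1 1 1 = true :=
  ⟨(l 4), by decide +kernel⟩

theorem c_mm_112 : CertB 536870912 536870912 536870912 536870912 697932185 42949674 3 eng mog cd0q1 cd5q1 pd2 true false false .dn 1 1 2
    ndB0q1 ndB5q1 pcB2 Cut.none Ext.none :=
  certB0 (fam := true) (s1 := false) (s2 := false) (a := 1) (b := 1) (c := 2) (cn := .dn) (n1 := ndB0q1) (n2 := ndB5q1) (pc := pcB2) (cut := Cut.none) (xt := Ext.none) (P1 := 536870912) (W1 := 536870912) (P2 := 536870912) (W2 := 536870912) (P3 := 697932185) (W3 := 42949674) (N0 := 3) (En := eng) (mo := mog) (C1 := cd0q1) (C2 := cd5q1) (C3 := pd2)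
    rfl k0_mm_112

noncomputable def f_mm_113 : ℕ → ℕ → ℕ → ℕ → Bool := onCell 536870912 536870912 536870912 536870912 697932185 42949674
    (rowB 3 eng mog cd0q1 cd5q1 pd3 0 true false false .nn 1 1 3 (qsf 536870912 536870912 536870912 536870912 3) ndB0q1 ndB5q1 pcB3 Cut.none Ext.none)

def k0_mm_113 : ∃ t, chk3 f_mm_113 t 1 1 1 = true :=
  ⟨(l 4), by decide +kernel⟩

theorem c_mm_113 : CertB 536870912 536870912 536870912 536870912 697932185 42949674 3 eng mog cd0q1 cd5q1 pd3 true false false .nn 1 1 3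
    ndB0q1 ndB5q1 pcB3 Cut.none Ext.none :=
  certB0 (fam := true) (s1 := false) (s2 := false) (a := 1) (b := 1) (c := 3) (cn := .nn) (n1 := ndB0q1) (n2 := ndB5q1) (pc := pcB3) (cut := Cut.none) (xt := Ext.none) (P1 := 536870912) (W1 := 536870912) (P2 := 536870912) (W2 := 536870912) (P3 := 697932185) (W3 := 42949674) (N0 := 3) (En := eng) (mo := mog) (C1 := cd0q1) (C2 := cd5q1) (C3 := pd3)
    rfl k0_mm_113

noncomputable def f_mm_123 : ℕ → ℕ → ℕ → ℕ → Bool := onCell 536870912 536870912 1073741824 536870912 697932185 42949674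
    (rowB 3 eng mog cd0q1 cd5q2 pd3 0 true false false .npn 1 2 3 (qsf 536870912 536870912 1073741824 536870912 3) ndB0q1 ndB5q2 pcB3 Cut.none Ext.none)

def k0_mm_123 : ∃ t, chk3 f_mm_123 t 1 1 1 = true :=
  ⟨(l 4), by decide +kernel⟩

theorem c_mm_123 : CertB 536870912 536870912 1073741824 536870912 697932185 42949674 3 eng mog cd0q1 cd5q2 pd3 true false false .npn 1 2 3
    ndB0q1 ndB5q2 pcB3 Cut.none Ext.none :=
  certB0 (fam := true) (s1 := false) (s2 := false) (a := 1) (b := 2) (c := 3) (cn := .npn) (n1 := ndB0q1) (n2 := ndB5q2) (pc := pcB3) (cut := Cut.none) (xt := Ext.none) (P1 := 536870912) (W1 := 536870912) (P2 := 1073741824) (W2 := 536870912) (P3 := 697932185) (W3 := 42949674) (N0 := 3) (En := eng) (mo := mog) (C1 := cd0q1) (C2 := cd5q2) (C3 := pd3)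
    rfl k0_mm_123

noncomputable def f_mm_133 : ℕ → ℕ → ℕ → ℕ → Bool := onCell 536870912 536870912 0 1230186008 697932185 42949674
    (rowB 3 eng mog cd0q1 cd5q3 pd3 0 true false false .dn 1 3 3 (qsf 536870912 536870912 0 1230186008 3) ndB0q1 ndB5q3 pcB3 Cut.none Ext.none)

def k0_mm_133 : ∃ t, chk3 f_mm_133 t 1 1 1 = true :=
  ⟨(l 4), by decide +kernel⟩

theorem c_mm_133 : CertB 536870912 536870912 0 1230186008 697932185 42949674 3 eng mog cd0q1 cd5q3 pd3 true false false .dn 1 3 3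
    ndB0q1 ndB5q3 pcB3 Cut.none Ext.none :=
  certB0 (fam := true) (s1 := false) (s2 := false) (a := 1) (b := 3) (c := 3) (cn := .dn) (n1 := ndB0q1) (n2 := ndB5q3) (pc := pcB3) (cut := Cut.none) (xt := Ext.none) (P1 := 536870912) (W1 := 536870912) (P2 := 0) (W2 := 1230186008) (P3 := 697932185) (W3 := 42949674) (N0 := 3) (En := eng) (mo := mog) (C1 := cd0q1) (C2 := cd5q3) (C3 := pd3)
    rfl k0_mm_133

noncomputable def f_mm_202 : ℕ → ℕ → ℕ → ℕ → Bool := onCell 0 536870912 0 536870912 697932185 42949674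
    (rowB 3 eng mog cd0q2 cd5q0 pd2 0 true false false .pp 2 0 2 (qsf 0 536870912 0 536870912 2) ndB0q2 ndB5q0 pcB2 Cut.none Ext.none)

def k0_mm_202 : ∃ t, chk3 f_mm_202 t 1 1 1 = true :=
  ⟨(b (a (b (b (a (b (a (l 16373640) (l 16378552)) (a (l 16397544) (l 16404136))) (b (a (l 16453768) (l 16541432)) (a (l 16424032) (l 4)))) (a (b (l 16642800) (l 16721216)) (l 4))) (a (b (b (a (l 16496816) (l 4)) (l 4)) (l 4)) (l 4))) (l 4)) (l 4)), by decide +kernel⟩

theorem c_mm_202 : CertB 0 536870912 0 536870912 697932185 42949674 3 eng mog cd0q2 cd5q0 pd2 true false false .pp 2 0 2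
    ndB0q2 ndB5q0 pcB2 Cut.none Ext.none :=
  certB0 (fam := true) (s1 := false) (s2 := false) (a := 2) (b := 0) (c := 2) (cn := .pp) (n1 := ndB0q2) (n2 := ndB5q0) (pc := pcB2) (cut := Cut.none) (xt := Ext.none) (P1 := 0) (W1 := 536870912) (P2 := 0) (W2 := 536870912) (P3 := 697932185) (W3 := 42949674) (N0 := 3) (En := eng) (mo := mog) (C1 := cd0q2) (C2 := cd5q0) (C3 := pd2)
    rfl k0_mm_202

noncomputable def f_mm_203 : ℕ → ℕ → ℕ → ℕ → Bool := onCell 0 536870912 1610612736 536870912 697932185 42949674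
    (rowB 3 eng mog cd0q2 cd5q0 pd3 1 true false false .up 2 0 3 (qsf 0 536870912 0 536870912 3) ndB0q2 ndB5q0 pcB3 Cut.none Ext.none)

def k0_mm_203 : ∃ t, chk3 f_mm_203 t 1 1 1 = true :=
  ⟨(l 4), by decide +kernel⟩

theorem c_mm_203 : CertB 0 536870912 0 536870912 697932185 42949674 3 eng mog cd0q2 cd5q0 pd3 true false false .up 2 0 3
    ndB0q2 ndB5q0 pcB3 Cut.none Ext.none :=
  certB1 (fam := true) (s1 := false) (s2 := false) (a := 2) (b := 0) (c := 3) (cn := .up) (n1 := ndB0q2) (n2 := ndB5q0) (pc := pcB3) (cut := Cut.none) (xt := Ext.none) (P1 := 0) (W1 := 536870912) (P2 := 0) (W2 := 536870912) (P3 := 697932185) (W3 := 42949674) (N0 := 3) (En := eng) (mo := mog) (C1 := cd0q2) (C2 := cd5q0) (C3 := pd3)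
    rfl (fun _ => rfl) k0_mm_203

noncomputable def f_mm_213 : ℕ → ℕ → ℕ → ℕ → Bool := onCell 0 536870912 536870912 536870912 697932185 42949674
    (rowB 3 eng mog cd0q2 cd5q1 pd3 0 true false false .pnn 2 1 3 (qsf 0 536870912 536870912 536870912 3) ndB0q2 ndB5q1 pcB3 Cut.none Ext.none)

def k0_mm_213 : ∃ t, chk3 f_mm_213 t 1 1 1 = true :=
  ⟨(l 4), by decide +kernel⟩

theorem c_mm_213 : CertB 0 536870912 536870912 536870912 697932185 42949674 3 eng mog cd0q2 cd5q1 pd3 true false false .pnn 2 1 3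
    ndB0q2 ndB5q1 pcB3 Cut.none Ext.none :=
  certB0 (fam := true) (s1 := false) (s2 := false) (a := 2) (b := 1) (c := 3) (cn := .pnn) (n1 := ndB0q2) (n2 := ndB5q1) (pc := pcB3) (cut := Cut.none) (xt := Ext.none) (P1 := 0) (W1 := 536870912) (P2 := 536870912) (W2 := 536870912) (P3 := 697932185) (W3 := 42949674) (N0 := 3) (En := eng) (mo := mog) (C1 := cd0q2) (C2 := cd5q1) (C3 := pd3)
    rfl k0_mm_213

end Pool.Agent.Strip051.G.I6500_6900.Tab.C.BA05

namespace Pool.Agent.Strip051.G.I6500_6900.Tab.C.BA06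

open Pool.Agent.Strip051.PB Pool.Agent.Strip051.PB.T
open Pool.Agent.Strip051.G.I6500_6900.Tab

noncomputable def f_pp_001 : ℕ → ℕ → ℕ → ℕ → Bool := onCell 0 536870912 0 536870912 697932185 42949674
    (rowB 3 eng mog cd0q0 cd6q0 pd1 0 true true true .up 0 0 1 (qsf 0 536870912 0 536870912 1) ndB0q0 ndB6q0 pcB1 Cut.none Ext.none)

def k0_pp_001 : ∃ t, chk3 f_pp_001 t 1 1 1 = true :=
  ⟨(l 4), by decide +kernel⟩

theorem c_pp_001 : CertB 0 536870912 0 536870912 697932185 42949674 3 eng mog cd0q0 cd6q0 pd1 true true true .up 0 0 1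
    ndB0q0 ndB6q0 pcB1 Cut.none Ext.none :=
  certB0 (fam := true) (s1 := true) (s2 := true) (a := 0) (b := 0) (c := 1) (cn := .up) (n1 := ndB0q0) (n2 := ndB6q0) (pc := pcB1) (cut := Cut.none) (xt := Ext.none) (P1 := 0) (W1 := 536870912) (P2 := 0) (W2 := 536870912) (P3 := 697932185) (W3 := 42949674) (N0 := 3) (En := eng) (mo := mog) (C1 := cd0q0) (C2 := cd6q0) (C3 := pd1)
    rfl k0_pp_001

noncomputable def f_pp_011 : ℕ → ℕ → ℕ → ℕ → Bool := onCell 0 536870912 536870912 536870912 697932185 42949674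
    (rowB 3 eng mog cd0q0 cd6q1 pd1 0 true true true .pnn 0 1 1 (qsf 0 536870912 536870912 536870912 1) ndB0q0 ndB6q1 pcB1 Cut.none Ext.none)

def k0_pp_011 : ∃ t, chk3 f_pp_011 t 1 1 1 = true :=
  ⟨(l 4), by decide +kernel⟩

theorem c_pp_011 : CertB 0 536870912 536870912 536870912 697932185 42949674 3 eng mog cd0q0 cd6q1 pd1 true true true .pnn 0 1 1
    ndB0q0 ndB6q1 pcB1 Cut.none Ext.none :=
  certB0 (fam := true) (s1 := true) (s2 := true) (a := 0) (b := 1) (c := 1) (cn := .pnn) (n1 := ndB0q0) (n2 := ndB6q1) (pc := pcB1) (cut := Cut.none) (xt := Ext.none) (P1 := 0) (W1 := 536870912) (P2 := 536870912) (W2 := 536870912) (P3 := 697932185) (W3 := 42949674) (N0 := 3) (En := eng) (mo := mog) (C1 := cd0q0) (C2 := cd6q1) (C3 := pd1)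
    rfl k0_pp_011

noncomputable def f_pp_012 : ℕ → ℕ → ℕ → ℕ → Bool := onCell 0 536870912 536870912 536870912 697932185 42949674
    (rowB 3 eng mog cd0q0 cd6q1 pd2 0 true true true .pnp 0 1 2 (qsf 0 536870912 536870912 536870912 2) ndB0q0 ndB6q1 pcB2 Cut.none Ext.none)

def k0_pp_012 : ∃ t, chk3 f_pp_012 t 1 1 1 = true :=
  ⟨(l 4), by decide +kernel⟩

theorem c_pp_012 : CertB 0 536870912 536870912 536870912 697932185 42949674 3 eng mog cd0q0 cd6q1 pd2 true true true .pnp 0 1 2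
    ndB0q0 ndB6q1 pcB2 Cut.none Ext.none :=
  certB0 (fam := true) (s1 := true) (s2 := true) (a := 0) (b := 1) (c := 2) (cn := .pnp) (n1 := ndB0q0) (n2 := ndB6q1) (pc := pcB2) (cut := Cut.none) (xt := Ext.none) (P1 := 0) (W1 := 536870912) (P2 := 536870912) (W2 := 536870912) (P3 := 697932185) (W3 := 42949674) (N0 := 3) (En := eng) (mo := mog) (C1 := cd0q0) (C2 := cd6q1) (C3 := pd2)
    rfl k0_pp_012

noncomputable def f_pp_022 : ℕ → ℕ → ℕ → ℕ → Bool := onCell 0 536870912 1073741824 536870912 697932185 42949674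
    (rowB 3 eng mog cd0q0 cd6q2 pd2 0 true true true .pp 0 2 2 (qsf 0 536870912 1073741824 536870912 2) ndB0q0 ndB6q2 pcB2 Cut.none Ext.none)

def k0_pp_022 : ∃ t, chk3 f_pp_022 t 1 1 1 = true :=
  ⟨(l 4), by decide +kernel⟩

theorem c_pp_022 : CertB 0 536870912 1073741824 536870912 697932185 42949674 3 eng mog cd0q0 cd6q2 pd2 true true true .pp 0 2 2
    ndB0q0 ndB6q2 pcB2 Cut.none Ext.none :=
  certB0 (fam := true) (s1 := true) (s2 := true) (a := 0) (b := 2) (c := 2) (cn := .pp) (n1 := ndB0q0) (n2 := ndB6q2) (pc := pcB2) (cut := Cut.none) (xt := Ext.none) (P1 := 0) (W1 := 536870912) (P2 := 1073741824) (W2 := 536870912) (P3 := 697932185) (W3 := 42949674) (N0 := 3) (En := eng) (mo := mog) (C1 := cd0q0) (C2 := cd6q2) (C3 := pd2)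
    rfl k0_pp_022

noncomputable def f_pp_023 : ℕ → ℕ → ℕ → ℕ → Bool := onCell 0 536870912 1073741824 536870912 697932185 42949674
    (rowB 3 eng mog cd0q0 cd6q2 pd3 0 true true true .up 0 2 3 (qsf 0 536870912 1073741824 536870912 3) ndB0q0 ndB6q2 pcB3 Cut.none Ext.none)

def k0_pp_023 : ∃ t, chk3 f_pp_023 t 1 1 1 = true :=
  ⟨(l 4), by decide +kernel⟩

theorem c_pp_023 : CertB 0 536870912 1073741824 536870912 697932185 42949674 3 eng mog cd0q0 cd6q2 pd3 true true true .up 0 2 3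
    ndB0q0 ndB6q2 pcB3 Cut.none Ext.none :=
  certB0 (fam := true) (s1 := true) (s2 := true) (a := 0) (b := 2) (c := 3) (cn := .up) (n1 := ndB0q0) (n2 := ndB6q2) (pc := pcB3) (cut := Cut.none) (xt := Ext.none) (P1 := 0) (W1 := 536870912) (P2 := 1073741824) (W2 := 536870912) (P3 := 697932185) (W3 := 42949674) (N0 := 3) (En := eng) (mo := mog) (C1 := cd0q0) (C2 := cd6q2) (C3 := pd3)
    rfl k0_pp_023

noncomputable def f_pp_033 : ℕ → ℕ → ℕ → ℕ → Bool := onCell 0 536870912 0 1230186008 697932185 42949674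
    (rowB 3 eng mog cd0q0 cd6q3 pd3 0 true true true .pnn 0 3 3 (qsf 0 536870912 0 1230186008 3) ndB0q0 ndB6q3 pcB3 Cut.none Ext.none)

def k0_pp_033 : ∃ t, chk3 f_pp_033 t 1 1 1 = true :=
  ⟨(b (l 4) (l 4)), by decide +kernel⟩

theorem c_pp_033 : CertB 0 536870912 0 1230186008 697932185 42949674 3 eng mog cd0q0 cd6q3 pd3 true true true .pnn 0 3 3
    ndB0q0 ndB6q3 pcB3 Cut.none Ext.none :=
  certB0 (fam := true) (s1 := true) (s2 := true) (a := 0) (b := 3) (c := 3) (cn := .pnn) (n1 := ndB0q0) (n2 := ndB6q3) (pc := pcB3) (cut := Cut.none) (xt := Ext.none) (P1 := 0) (W1 := 536870912) (P2 := 0) (W2 := 1230186008) (P3 := 697932185) (W3 := 42949674) (N0 := 3) (En := eng) (mo := mog) (C1 := cd0q0) (C2 := cd6q3) (C3 := pd3)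
    rfl k0_pp_033

noncomputable def f_pp_101 : ℕ → ℕ → ℕ → ℕ → Bool := onCell 536870912 536870912 0 536870912 697932185 42949674
    (rowB 3 eng mog cd0q1 cd6q0 pd1 0 true true true .npn 1 0 1 (qsf 536870912 536870912 0 536870912 1) ndB0q1 ndB6q0 pcB1 Cut.none Ext.none)

def k0_pp_101 : ∃ t, chk3 f_pp_101 t 1 1 1 = true :=
  ⟨(l 4), by decide +kernel⟩

theorem c_pp_101 : CertB 536870912 536870912 0 536870912 697932185 42949674 3 eng mog cd0q1 cd6q0 pd1 true true true .npn 1 0 1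
    ndB0q1 ndB6q0 pcB1 Cut.none Ext.none :=
  certB0 (fam := true) (s1 := true) (s2 := true) (a := 1) (b := 0) (c := 1) (cn := .npn) (n1 := ndB0q1) (n2 := ndB6q0) (pc := pcB1) (cut := Cut.none) (xt := Ext.none) (P1 := 536870912) (W1 := 536870912) (P2 := 0) (W2 := 536870912) (P3 := 697932185) (W3 := 42949674) (N0 := 3) (En := eng) (mo := mog) (C1 := cd0q1) (C2 := cd6q0) (C3 := pd1)
    rfl k0_pp_101

noncomputable def f_pp_102 : ℕ → ℕ → ℕ → ℕ → Bool := onCell 536870912 536870912 0 536870912 697932185 42949674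
    (rowB 3 eng mog cd0q1 cd6q0 pd2 0 true true true .npp 1 0 2 (qsf 536870912 536870912 0 536870912 2) ndB0q1 ndB6q0 pcB2 Cut.none Ext.none)

def k0_pp_102 : ∃ t, chk3 f_pp_102 t 1 1 1 = true :=
  ⟨(l 4), by decide +kernel⟩

theorem c_pp_102 : CertB 536870912 536870912 0 536870912 697932185 42949674 3 eng mog cd0q1 cd6q0 pd2 true true true .npp 1 0 2
    ndB0q1 ndB6q0 pcB2 Cut.none Ext.none :=
  certB0 (fam := true) (s1 := true) (s2 := true) (a := 1) (b := 0) (c := 2) (cn := .npp) (n1 := ndB0q1) (n2 := ndB6q0) (pc := pcB2) (cut := Cut.none) (xt := Ext.none) (P1 := 536870912) (W1 := 536870912) (P2 := 0) (W2 := 536870912) (P3 := 697932185) (W3 := 42949674) (N0 := 3) (En := eng) (mo := mog) (C1 := cd0q1) (C2 := cd6q0) (C3 := pd2)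
    rfl k0_pp_102

noncomputable def f_pp_112 : ℕ → ℕ → ℕ → ℕ → Bool := onCell 536870912 536870912 536870912 536870912 697932185 42949674
    (rowB 3 eng mog cd0q1 cd6q1 pd2 0 true true true .dn 1 1 2 (qsf 536870912 536870912 536870912 536870912 2) ndB0q1 ndB6q1 pcB2 Cut.none Ext.none)

def k0_pp_112 : ∃ t, chk3 f_pp_112 t 1 1 1 = true :=
  ⟨(l 4), by decide +kernel⟩

theorem c_pp_112 : CertB 536870912 536870912 536870912 536870912 697932185 42949674 3 eng mog cd0q1 cd6q1 pd2 true true true .dn 1 1 2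
    ndB0q1 ndB6q1 pcB2 Cut.none Ext.none :=
  certB0 (fam := true) (s1 := true) (s2 := true) (a := 1) (b := 1) (c := 2) (cn := .dn) (n1 := ndB0q1) (n2 := ndB6q1) (pc := pcB2) (cut := Cut.none) (xt := Ext.none) (P1 := 536870912) (W1 := 536870912) (P2 := 536870912) (W2 := 536870912) (P3 := 697932185) (W3 := 42949674) (N0 := 3) (En := eng) (mo := mog) (C1 := cd0q1) (C2 := cd6q1) (C3 := pd2)
    rfl k0_pp_112

noncomputable def f_pp_113 : ℕ → ℕ → ℕ → ℕ → Bool := onCell 536870912 536870912 536870912 536870912 697932185 42949674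
    (rowB 3 eng mog cd0q1 cd6q1 pd3 0 true true true .nn 1 1 3 (qsf 536870912 536870912 536870912 536870912 3) ndB0q1 ndB6q1 pcB3 Cut.none Ext.none)

def k0_pp_113 : ∃ t, chk3 f_pp_113 t 1 1 1 = true :=
  ⟨(l 4), by decide +kernel⟩

theorem c_pp_113 : CertB 536870912 536870912 536870912 536870912 697932185 42949674 3 eng mog cd0q1 cd6q1 pd3 true true true .nn 1 1 3
    ndB0q1 ndB6q1 pcB3 Cut.none Ext.none :=
  certB0 (fam := true) (s1 := true) (s2 := true) (a := 1) (b := 1) (c := 3) (cn := .nn) (n1 := ndB0q1) (n2 := ndB6q1) (pc := pcB3) (cut := Cut.none) (xt := Ext.none) (P1 := 536870912) (W1 := 536870912) (P2 := 536870912) (W2 := 536870912) (P3 := 697932185) (W3 := 42949674) (N0 := 3) (En := eng) (mo := mog) (C1 := cd0q1) (C2 := cd6q1) (C3 := pd3)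
    rfl k0_pp_113

noncomputable def f_pp_123 : ℕ → ℕ → ℕ → ℕ → Bool := onCell 536870912 536870912 1073741824 536870912 697932185 42949674
    (rowB 3 eng mog cd0q1 cd6q2 pd3 0 true true true .npn 1 2 3 (qsf 536870912 536870912 1073741824 536870912 3) ndB0q1 ndB6q2 pcB3 Cut.none Ext.none)

def k0_pp_123 : ∃ t, chk3 f_pp_123 t 1 1 1 = true :=
  ⟨(l 4), by decide +kernel⟩

theorem c_pp_123 : CertB 536870912 536870912 1073741824 536870912 697932185 42949674 3 eng mog cd0q1 cd6q2 pd3 true true true .npn 1 2 3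
    ndB0q1 ndB6q2 pcB3 Cut.none Ext.none :=
  certB0 (fam := true) (s1 := true) (s2 := true) (a := 1) (b := 2) (c := 3) (cn := .npn) (n1 := ndB0q1) (n2 := ndB6q2) (pc := pcB3) (cut := Cut.none) (xt := Ext.none) (P1 := 536870912) (W1 := 536870912) (P2 := 1073741824) (W2 := 536870912) (P3 := 697932185) (W3 := 42949674) (N0 := 3) (En := eng) (mo := mog) (C1 := cd0q1) (C2 := cd6q2) (C3 := pd3)
    rfl k0_pp_123

noncomputable def f_pp_133 : ℕ → ℕ → ℕ → ℕ → Bool := onCell 536870912 536870912 0 1230186008 697932185 42949674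
    (rowB 3 eng mog cd0q1 cd6q3 pd3 0 true true true .dn 1 3 3 (qsf 536870912 536870912 0 1230186008 3) ndB0q1 ndB6q3 pcB3 Cut.none Ext.none)

def k0_pp_133 : ∃ t, chk3 f_pp_133 t 1 1 1 = true :=
  ⟨(l 4), by decide +kernel⟩

theorem c_pp_133 : CertB 536870912 536870912 0 1230186008 697932185 42949674 3 eng mog cd0q1 cd6q3 pd3 true true true .dn 1 3 3
    ndB0q1 ndB6q3 pcB3 Cut.none Ext.none :=
  certB0 (fam := true) (s1 := true) (s2 := true) (a := 1) (b := 3) (c := 3) (cn := .dn) (n1 := ndB0q1) (n2 := ndB6q3) (pc := pcB3) (cut := Cut.none) (xt := Ext.none) (P1 := 536870912) (W1 := 536870912) (P2 := 0) (W2 := 1230186008) (P3 := 697932185) (W3 := 42949674) (N0 := 3) (En := eng) (mo := mog) (C1 := cd0q1) (C2 := cd6q3) (C3 := pd3)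
    rfl k0_pp_133

noncomputable def f_pp_202 : ℕ → ℕ → ℕ → ℕ → Bool := onCell 0 536870912 0 536870912 697932185 42949674
    (rowB 3 eng mog cd0q2 cd6q0 pd2 0 true true true .pp 2 0 2 (qsf 0 536870912 0 536870912 2) ndB0q2 ndB6q0 pcB2 Cut.none Ext.none)

def k0_pp_202 : ∃ t, chk3 f_pp_202 t 1 1 1 = true :=
  ⟨(l 5), by decide +kernel⟩

theorem c_pp_202 : CertB 0 536870912 0 536870912 697932185 42949674 3 eng mog cd0q2 cd6q0 pd2 true true true .pp 2 0 2
    ndB0q2 ndB6q0 pcB2 Cut.none Ext.none :=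
  certB0 (fam := true) (s1 := true) (s2 := true) (a := 2) (b := 0) (c := 2) (cn := .pp) (n1 := ndB0q2) (n2 := ndB6q0) (pc := pcB2) (cut := Cut.none) (xt := Ext.none) (P1 := 0) (W1 := 536870912) (P2 := 0) (W2 := 536870912) (P3 := 697932185) (W3 := 42949674) (N0 := 3) (En := eng) (mo := mog) (C1 := cd0q2) (C2 := cd6q0) (C3 := pd2)
    rfl k0_pp_202

noncomputable def f_pp_203 : ℕ → ℕ → ℕ → ℕ → Bool := onCell 0 536870912 0 536870912 697932185 42949674
    (rowB 3 eng mog cd0q2 cd6q0 pd3 0 true true true .up 2 0 3 (qsf 0 536870912 0 536870912 3) ndB0q2 ndB6q0 pcB3 Cut.none Ext.none)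

def k0_pp_203 : ∃ t, chk3 f_pp_203 t 1 1 1 = true :=
  ⟨(l 5), by decide +kernel⟩

theorem c_pp_203 : CertB 0 536870912 0 536870912 697932185 42949674 3 eng mog cd0q2 cd6q0 pd3 true true true .up 2 0 3
    ndB0q2 ndB6q0 pcB3 Cut.none Ext.none :=
  certB0 (fam := true) (s1 := true) (s2 := true) (a := 2) (b := 0) (c := 3) (cn := .up) (n1 := ndB0q2) (n2 := ndB6q0) (pc := pcB3) (cut := Cut.none) (xt := Ext.none) (P1 := 0) (W1 := 536870912) (P2 := 0) (W2 := 536870912) (P3 := 697932185) (W3 := 42949674) (N0 := 3) (En := eng) (mo := mog) (C1 := cd0q2) (C2 := cd6q0) (C3 := pd3)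
    rfl k0_pp_203

noncomputable def f_pp_213 : ℕ → ℕ → ℕ → ℕ → Bool := onCell 0 536870912 536870912 536870912 697932185 42949674
    (rowB 3 eng mog cd0q2 cd6q1 pd3 0 true true true .pnn 2 1 3 (qsf 0 536870912 536870912 536870912 3) ndB0q2 ndB6q1 pcB3 Cut.none Ext.none)

def k0_pp_213 : ∃ t, chk3 f_pp_213 t 1 1 1 = true :=
  ⟨(l 4), by decide +kernel⟩

theorem c_pp_213 : CertB 0 536870912 536870912 536870912 697932185 42949674 3 eng mog cd0q2 cd6q1 pd3 true true true .pnn 2 1 3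
    ndB0q2 ndB6q1 pcB3 Cut.none Ext.none :=
  certB0 (fam := true) (s1 := true) (s2 := true) (a := 2) (b := 1) (c := 3) (cn := .pnn) (n1 := ndB0q2) (n2 := ndB6q1) (pc := pcB3) (cut := Cut.none) (xt := Ext.none) (P1 := 0) (W1 := 536870912) (P2 := 536870912) (W2 := 536870912) (P3 := 697932185) (W3 := 42949674) (N0 := 3) (En := eng) (mo := mog) (C1 := cd0q2) (C2 := cd6q1) (C3 := pd3)
    rfl k0_pp_213

noncomputable def f_pm_001 : ℕ → ℕ → ℕ → ℕ → Bool := onCell 0 536870912 536870912 536870912 697932185 42949674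
    (rowB 3 eng mog cd0q0 cd6q0 pd1 1 true true false .up 0 0 1 (qsf 0 536870912 0 536870912 1) ndB0q0 ndB6q0 pcB1 Cut.none Ext.none)

def k0_pm_001 : ∃ t, chk3 f_pm_001 t 1 1 1 = true :=
  ⟨(b (l 3) (a (b (l 3) (l 2)) (b (a (l 3) (b (l 3) (b (l 3) (a (l 3) (a (l 3) (b (l 3) (a (l 3) (l 111299649751)))))))) (a (b (b (b (l 3) (l 2)) (l 2)) (l 2)) (b (a (b (a (b (l 3) (b (a (l 3) (b (l 3) (a (l 190756465575) (l 16531088)))) (a (l 2) (b (a (l 103716249879) (l 16521584)) (l 57008453943))))) (b (a (l 3) (b (l 3) (l 92509081959))) (a (b (c (l 16530640) (a (l 16521640) (l 16513792))) (a (l 16508904) (l 16500800))) (b (c (l 16515360) (l 16502064)) (l 16488704))))) (a (a (l 2) (b (b (a (l 2) (l 16519848)) (l 2)) (l 2))) (b (a (b (a (l 16490664) (l 16482320)) (l 39291703383)) (b (l 16469776) (l 16451768))) (a (c (l 80093859319) (l 81167577015)) (b (l 16434504) (l 16417800)))))) (b (a (b (a (b (l 3) (l 20031500871)) (b (l 16528120) (l 16504424))) (a (b (l 16494200)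 (l 16473264)) (b (l 16481128) (l 16459088)))) (b (a (b (l 16520192) (l 16494800)) (l 16502416)) (a (l 16479336) (l 16450088)))) (a (b (a (l 16485984) (l 16428328)) (a (l 16408168) (l 16390680))) (b (a (l 16414048) (l 16402616)) (a (l 16374096) (l 16359752)))))) (a (b (a (l 2) (b (a (l 2) (l 16393496)) (l 2))) (l 2)) (b (a (b (a (l 16374616) (l 16355736)) (a (l 16342840) (l 16322784))) (b (a (l 16337272) (l 16320512)) (l 16293112))) (a (l 61840029351) (l 16328752))))))))), by decide +kernel⟩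

theorem c_pm_001 : CertB 0 536870912 0 536870912 697932185 42949674 3 eng mog cd0q0 cd6q0 pd1 true true false .up 0 0 1
    ndB0q0 ndB6q0 pcB1 Cut.none Ext.none :=
  certB1 (fam := true) (s1 := true) (s2 := false) (a := 0) (b := 0) (c := 1) (cn := .up) (n1 := ndB0q0) (n2 := ndB6q0) (pc := pcB1) (cut := Cut.none) (xt := Ext.none) (P1 := 0) (W1 := 536870912) (P2 := 0) (W2 := 536870912) (P3 := 697932185) (W3 := 42949674) (N0 := 3) (En := eng) (mo := mog) (C1 := cd0q0) (C2 := cd6q0) (C3 := pd1)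
    rfl (fun _ => rfl) k0_pm_001

noncomputable def cut_pm_011 : Cut := Cut.of [[⟨0, 0, 0, 67108864⟩, ⟨1, 1, 0, 67108864⟩, ⟨2, 1, 0, 67108864⟩]]

noncomputable def f_pm_011 : ℕ → ℕ → ℕ → ℕ → Bool := onCell 0 536870912 536870912 536870912 697932185 42949674
    (rowB 3 eng mog cd0q0 cd6q1 pd1 1 true true false .pnn 0 1 1 (qsf 0 536870912 536870912 536870912 1) ndB0q0 ndB6q1 pcB1 cut_pm_011 Ext.none)

def k0_pm_011 : ∃ t, chk3 f_pm_011 t 1 2 1 = true :=
  ⟨(l 3), by decide +kernel⟩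

def k1_pm_011 : ∃ t, chk3 f_pm_011 t 2 6 1 = true :=
  ⟨(l 3), by decide +kernel⟩

def k2_pm_011 : ∃ t, chk3 f_pm_011 t 4 14 1 = true :=
  ⟨(l 3), by decide +kernel⟩

def k3_pm_011 : ∃ t, chk3 f_pm_011 t 4 30 1 = true :=
  ⟨(a (l 3) (a (l 3) (b (l 3) (b (l 3) (a (l 3) (a (l 3) (c (l 258939417959) (l 134922268855)))))))), by decide +kernel⟩

def k4_pm_011 : ∃ t, chk3 f_pm_011 t 8 31 1 = true :=
  ⟨(b (a (l 3) (a (l 3) (b (l 3) (b (l 3) (a (l 3) (b (l 3) (c (a (l 3) (l 83382698471)) (l 71034676199)))))))) (a (l 6) (a (b (b (b (l 3) (l 6)) (l 6)) (l 6)) (b (b (a (a (b (l 3) (b (l 86603935063) (l 67276575895))) (b (c (l 78013999463) (l 16753384)) (c (l 48486091655) (l 16738544)))) (b (c (a (l 71571539943) (l 16739800)) (l 54928540743)) (a (l 16744896) (l 16729784)))) (b (a (c (a (l 16740248) (l 16735576)) (l 16736768)) (l 16738464)) (a (c (l 16733808) (l 16732648)) (l 16723872)))) (b (a (c (l 16738136) (l 16726440)) (l 16728168)) (a (l 6) (l 16709416))))))),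 by decide +kernel⟩

def k5_pm_011 : ∃ t, chk3 f_pm_011 t 9 31 1 = true :=
  ⟨(b (a (a (b (l 3) (b (a (l 3) (a (l 3) (a (l 3) (l 177335077447)))) (a (c (b (l 159081480151) (a (l 82308948103) (l 16729600))) (b (l 94120115159) (l 16741016))) (c (b (c (l 67276553591) (l 16737152)) (l 16722864)) (l 49022941927))))) (b (b (l 3) (a (l 3) (c (l 190219968743) (l 164450184775)))) (b (a (c (b (l 118816159815) (l 68350286087)) (l 81772066391)) (c (c (l 75866470375) (l 16736024)) (l 16713832))) (a (c (l 16726512) (l 16714432)) (l 16727344))))) (b (a (b (a (l 3) (l 131701023863)) (a (b (l 137606623383) (l 67276526503)) (a (l 16718048) (l 16703168)))) (c (b (a (l 16716464) (l 16697200)) (l 16714184)) (b (l 16720888) (l 16691456)))) (a (b (a (l 16716296) (l 16697088)) (c (l 16715088) (l 16692328))) (c (l 16704504) (l 16679080))))) (a (b (a (b (a (c (b (l 16738216) (l 16723640)) (l 16734752)) (c (l 16727208) (l 16715184))) (a (c (l 16717488) (l 16716024)) (l 16707728)))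 (b (a (l 16707016) (l 16698160)) (l 16710088))) (a (b (a (l 16708520) (l 16699496)) (a (l 16700248) (l 16691240))) (b (l 16686136) (l 16677896)))) (a (b (a (l 16706256) (l 16676584)) (l 16688120)) (b (l 16684624) (l 16647336))))), by decide +kernel⟩

def k6_pm_011 : ∃ t, chk3 f_pm_011 t 5 7 1 = true :=
  ⟨(b (a (l 3) (b (l 3) (a (l 3) (b (l 3) (a (l 3) (a (l 3) (b (l 3) (b (l 3) (l 16636448))))))))) (a (b (a (b (l 3) (a (b (l 3) (a (b (l 3) (l 16696200)) (b (l 16716368) (l 16687184)))) (a (b (l 3) (l 35064220823)) (b (l 75866409143) (l 16692344))))) (b (a (l 3) (a (l 3) (a (l 3) (b (l 3) (l 36137927511))))) (b (a (b (a (l 3) (l 16671952)) (a (l 16673440) (l 16663840))) (b (c (l 16680088) (l 16656328)) (l 16670760))) (a (b (l 16660776) (l 16653096)) (l 16659152))))) (b (a (a (b (a (l 16704512) (l 16674968)) (l 16683840)) (b (a (l 16665912) (l 16656248)) (l 16666608))) (b (a (l 16641768) (l 16623056)) (a (l 16627016) (l 16608320)))) (a (b (a (l 16646608) (l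 16629920)) (a (l 16630400) (l 16613888))) (a (l 16615248) (l 16586752))))) (b (a (b (a (b (l 3) (a (c (l 16678264) (l 16654456)) (c (l 16647736) (l 16645024)))) (a (b (l 3) (l 53317737159)) (b (a (l 3) (l 46875293799)) (l 16648080)))) (a (b (a (l 16639824) (l 16630528)) (l 16640744)) (b (l 16626816) (l 16601048)))) (b (a (b (c (a (l 16655728) (l 16645680)) (a (l 16632152) (l 16622152))) (c (l 16634600) (l 16611240))) (b (a (l 46338372695) (l 16624216)) (l 16613472))) (a (b (l 16596928) (l 16581744)) (b (l 16577048) (l 16561928))))) (a (b (a (b (l 16604752) (l 16590144)) (l 16578872)) (a (l 16568776) (l 16550584))) (b (a (l 16559736) (l 16540016)) (l 16563936)))))), by decide +kernel⟩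

def k7_pm_011 : ∃ t, chk3 f_pm_011 t 3 6 1 = true :=
  ⟨(a (l 3) (a (l 3) (l 1))), by decide +kernel⟩

def k8_pm_011 : ∃ t, chk3 f_pm_011 t 6 7 1 = true :=
  ⟨(b (a (b (l 3) (a (b (l 3) (b (a (l 3) (c (l 60833858967) (l 65128821591))) (b (a (c (l 16630856) (l 16617544)) (c (l 16589224) (l 16586240))) (a (c (l 16622496) (l 16598784)) (l 16600536))))) (b (a (l 3) (b (l 3) (a (l 3) (l 16590152)))) (a (b (c (l 58149476567) (l 59223194311)) (c (l 16585120) (l 16582128))) (b (b (l 16582712) (l 16574368)) (c (l 16542592) (l 16539680))))))) (b (a (l 3) (b (l 3) (a (l 3) (b (l 3) (l 16531984))))) (a (a (b (b (l 3) (a (l 16558080) (l 16547184))) (b (c (l 16537128) (l 16534112)) (l 16540256))) (b (b (l 75329288071) (l 16552424)) (b (l 16514496) (l 16498088)))) (b (a (b (l 16550840) (l 16512016)) (l 40969495511)) (b (a (l 16494896) (l 16477528)) (l 16527000)))))) (a (b (a (b (b (a (c (l 16610336) (l 16586744)) (l 16588504)) (a (l 16572280) (l 16551792))) (a (b (l 16556840)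 (l 16541736)) (l 16570704))) (b (a (c (l 16581928) (l 16579296)) (b (l 16525128) (l 16509472))) (a (l 16507960) (l 16486656)))) (a (b (a (l 16519848) (l 16499448)) (l 16502640)) (b (l 16510248) (l 16440088)))) (b (a (b (a (l 16537400) (l 16495144)) (l 16475184)) (b (a (l 16454056) (l 16435784)) (l 16413392))) (b (a (l 16425352) (l 16383616)) (a (l 16398216) (l 16355240)))))), by decide +kernel⟩

def k9_pm_011 : ∃ t, chk3 f_pm_011 t 7 7 1 = true :=
  ⟨(b (b (a (a (b (l 3) (a (b (l 3) (l 16516936)) (b (l 16522080) (l 16501800)))) (b (l 1) (b (l 1) (a (l 16486296) (l 1))))) (l 1)) (a (a (b (a (l 16488408) (l 16472872)) (b (l 16453504) (l 16435968))) (b (a (l 16478008) (l 93985358007)) (b (l 16421016) (l 36003211623)))) (a (b (l 1) (b (l 1) (l 16368800))) (l 1)))) (b (a (a (b (l 16452224) (l 16377168)) (b (a (l 16384824) (l 16367608)) (l 16362976))) (a (b (l 81637117703) (l 16327064)) (b (l 1) (l 16269208)))) (a (a (b (l 16366592) (l 16315488)) (b (l 16308512)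 (l 16276992))) (a (l 16339008) (l 16301112))))), by decide +kernel⟩

theorem s10_pm_011 : ∃ t, chk3 f_pm_011 t 3 7 1 = true := ex3_a k8_pm_011 k9_pm_011

theorem s11_pm_011 : ∃ t, chk3 f_pm_011 t 3 3 1 = true := ex3_b k7_pm_011 s10_pm_011

theorem s12_pm_011 : ∃ t, chk3 f_pm_011 t 4 31 1 = true := ex3_a k4_pm_011 k5_pm_011

theorem s13_pm_011 : ∃ t, chk3 f_pm_011 t 4 15 1 = true := ex3_b k3_pm_011 s12_pm_011

theorem s14_pm_011 : ∃ t, chk3 f_pm_011 t 4 7 1 = true := ex3_b k2_pm_011 s13_pm_011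

theorem s15_pm_011 : ∃ t, chk3 f_pm_011 t 2 7 1 = true := ex3_a s14_pm_011 k6_pm_011

theorem s16_pm_011 : ∃ t, chk3 f_pm_011 t 2 3 1 = true := ex3_b k1_pm_011 s15_pm_011

theorem s17_pm_011 : ∃ t, chk3 f_pm_011 t 1 3 1 = true := ex3_a s16_pm_011 s11_pm_011

theorem s18_pm_011 : ∃ t, chk3 f_pm_011 t 1 1 1 = true := ex3_b k0_pm_011 s17_pm_011

theorem c_pm_011 : CertB 0 536870912 536870912 536870912 697932185 42949674 3 eng mog cd0q0 cd6q1 pd1 true true false .pnn 0 1 1
    ndB0q0 ndB6q1 pcB1 cut_pm_011 Ext.none :=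
  certB1 (fam := true) (s1 := true) (s2 := false) (a := 0) (b := 1) (c := 1) (cn := .pnn) (n1 := ndB0q0) (n2 := ndB6q1) (pc := pcB1) (cut := cut_pm_011) (xt := Ext.none) (P1 := 0) (W1 := 536870912) (P2 := 536870912) (W2 := 536870912) (P3 := 697932185) (W3 := 42949674) (N0 := 3) (En := eng) (mo := mog) (C1 := cd0q0) (C2 := cd6q1) (C3 := pd1)
    rfl (fun _ => rfl) s18_pm_011

noncomputable def cut_pm_012 : Cut := Cut.of [[⟨0, 0, 0, 67108864⟩, ⟨1, 1, 0, 67108864⟩, ⟨2, 1, 0, 67108864⟩]]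

noncomputable def f_pm_012 : ℕ → ℕ → ℕ → ℕ → Bool := onCell 1073741824 536870912 536870912 536870912 697932185 42949674
    (rowB 3 eng mog cd0q0 cd6q1 pd2 2 true true false .pnp 0 1 2 (qsf 0 536870912 536870912 536870912 2) ndB0q0 ndB6q1 pcB2 cut_pm_012 Ext.none)

def k0_pm_012 : ∃ t, chk3 f_pm_012 t 4 2 1 = true :=
  ⟨(b (a (b (a (a (b (l 16154544) (l 16193856)) (b (l 16118008) (l 16136472))) (a (l 13521381655) (l 16122032))) (b (a (a (l 16233600) (l 16197656)) (l 16139504)) (a (l 16297776) (l 16184640)))) (b (a (b (l 2) (l 16019040)) (l 2)) (a (b (l 16072904) (l 16121312)) (b (l 16008080) (l 16055728))))) (a (b (a (b (l 16391896) (a (l 16358208) (l 16322624))) (b (l 16230296) (l 16285848))) (a (a (b (l 16420976) (l 16482904)) (b (l 16361008) (l 16398712))) (b (a (l 16322904) (l 16286392)) (a (l 16378424) (l 16317280))))) (b (a (b (l 16163584) (l 16305904)) (b (l 16181264) (l 16195712))) (a (b (a (l 16250624) (l 16215432)) (a (l 16278416) (l 16241616)))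 (b (l 16163544) (a (l 16205776) (l 16170784))))))), by decide +kernel⟩

def k1_pm_012 : ∃ t, chk3 f_pm_012 t 8 3 1 = true :=
  ⟨(b (b (a (a (a (b (l 16492384) (l 16532720)) (b (l 16469360) (l 16507496))) (b (l 16435392) (b (l 16461632) (l 16500192)))) (a (b (l 16453728) (l 16506584)) (b (l 16368544) (l 16397440)))) (a (a (b (b (l 16549792) (l 16570064)) (a (b (l 16594320) (l 16590096)) (l 16587032))) (b (b (l 16539120) (l 16516000)) (l 16567456))) (b (a (b (l 16445744) (l 16463024)) (l 16466904)) (a (b (l 16482264) (l 16501240)) (b (l 16429232) (l 16446856)))))) (b (a (a (b (a (a (a (l 16663816) (l 16659904)) (l 16638192)) (l 16642016)) (a (a (b (l 16667552) (b (l 16681168) (l 16690360))) (c (l 16676744) (l 16668320))) (b (l 16647560) (l 16665568)))) (b (b (l 16574368) (l 16591672)) (b (l 16607968) (a (l 16638088) (l 16608840))))) (b (a (a (l 16562232) (l 16513632)) (b (l 16464128) (l 16480120))) (a (b (l 16571952) (a (l 16579808) (l 16551000))) (b (l 16494784)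 (l 16508328))))) (a (b (a (b (a (a (a (l 16716936) (l 16712896)) (l 16696272)) (l 16693408)) (a (l 6) (b (l 16693696) (l 6)))) (b (a (l 16652968) (l 16623160)) (a (a (b (l 16670952) (l 6)) (l 16680144)) (b (l 16633288) (l 16639704))))) (a (l 6) (b (a (l 6) (b (l 16645816) (l 6))) (l 6)))) (b (a (b (a (l 16593600) (l 16564256)) (a (b (l 16603320) (l 16609528)) (l 16576584))) (b (l 16541736) (a (l 16546984) (l 16517664)))) (b (a (a (b (l 16615432) (l 16621040)) (b (l 16585192) (l 16590584))) (a (b (l 16555176) (l 16560352)) (l 16548904))) (a (b (a (l 6) (l 16595672)) (l 6)) (b (a (l 16565216) (l 16534968)) (a (b (l 16568656) (l 6)) (l 16560264))))))))), by decide +kernel⟩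

def k2_pm_012 : ∃ t, chk3 f_pm_012 t 9 3 1 = true :=
  ⟨(b (b (b (a (a (l 16305720) (l 16265200)) (a (l 16226280) (l 16189816))) (a (a (l 16331456) (l 16288064)) (a (l 16246288) (l 16206120)))) (b (a (b (l 16389592) (l 16422608)) (a (l 16265064) (l 16222120))) (a (a (l 16449208) (l 16335648)) (a (l 16288136) (l 16242536))))) (b (b (a (a (b (l 16409808) (l 16425296)) (l 16406080)) (a (l 16375656) (l 16283616))) (a (a (b (l 16439432) (l 16452184)) (b (l 16384744) (l 16396952))) (a (b (l 16330760) (l 16342408)) (b (l 16278408) (l 16288600))))) (b (a (a (b (l 16463760) (l 16516112)) (b (l 16407704) (l 16438192))) (a (b (l 16352584) (l 16361248)) (b (l 16298152) (l 16306152)))) (a (b (a (b (l 16481328) (l 16506760)) (b (l 16423520) (l 16427416))) (a (b (a (l 16504920) (l 16475168)) (a (l 16509008) (l 16478960))) (b (l 16452024) (a (l 16449216) (l 16419720))))) (b (a (b (l 16366872) (l 16370216)) (a (l 16326560) (l 16298808))) (a (a (l 16410088) (l 16360336))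 (a (l 16331840) (l 16303544)))))))), by decide +kernel⟩

def k3_pm_012 : ∃ t, chk3 f_pm_012 t 5 2 1 = true :=
  ⟨(b (a (b (l 2) (a (a (l 15981640) (l 2)) (l 2))) (l 2)) (a (b (a (a (l 16212328) (b (l 16166168) (a (l 16057856) (l 16045224)))) (b (l 16058792) (l 16072728))) (a (a (l 16292976) (a (l 16100264) (b (l 16074656) (l 16098280)))) (b (l 16038472) (l 16060608)))) (a (b (l 16234384) (a (l 16027088) (l 16016344))) (b (l 2) (l 16066408))))), by decide +kernel⟩

def k4_pm_012 : ∃ t, chk3 f_pm_012 t 5 6 1 = true :=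
  ⟨(a (b (a (a (b (l 16154696) (l 16167912)) (b (a (l 16129336) (l 16115512)) (a (l 16141408) (a (l 16128568) (l 16121448))))) (b (l 16076600) (a (l 16100160) (l 16071648)))) (b (a (a (l 16181088) (a (l 16151544) (a (l 16137504) (l 16129240)))) (a (l 16106040) (l 16074392))) (a (a (l 16198544) (a (l 16167440) (a (l 16152112) (l 16142224)))) (a (l 16117424) (l 16080872))))) (b (a (b (l 16035264) (l 16037440)) (b (l 16004584) (l 15998760))) (b (a (l 16034176) (l 15988760)) (a (a (l 16048104) (l 16019160)) (l 15980576))))), by decide +kernel⟩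

def k5_pm_012 : ∃ t, chk3 f_pm_012 t 5 7 1 = true :=
  ⟨(a (b (b (a (a (l 16236768) (a (l 16182008) (a (l 16165560) (a (l 16157408) (l 16151984))))) (a (l 16128080) (l 16087744))) (a (a (b (l 16227856) (l 16236392)) (a (l 16195024) (a (l 16176904) (a (l 16167792) (l 16161552))))) (a (b (l 16134496) (l 16137768)) (l 16092280)))) (b (a (a (b (l 16244376) (l 16251632)) (a (l 16250056) (a (l 16188144) (a (l 16177888) (b (l 16168232) (l 16172560)))))) (a (b (l 16140968) (l 16144224)) (b (l 16093480) (l 16093976)))) (a (a (b (l 16278232) (a (l 16275416) (l 16247416))) (a (b (l 16216000) (l 16219240)) (a (b (l 16195088) (l 16197816)) (a (b (l 16184112) (l 16186456)) (b (l 16176144) (c (l 16212648) (l 16164040))))))) (a (b (a (l 16159624) (l 16133824)) (a (l 16161344) (l 16135000))) (b (l 16094448) (b (l 16094200) (l 16093816))))))) (b (b (a (a (l 16050368) (l 16015896)) (a (l 15984568) (l 15957080))) (a (b (l 16031304) (l 16050568)) (a (l 15975816) (l 15943184))))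 (b (a (b (a (l 16048576) (l 16006704)) (a (l 16046336) (l 16002368))) (b (a (l 15968048) (l 15932008)) (a (l 15961512) (l 15923936)))) (a (b (a (l 16043912) (l 15997272)) (a (b (l 16041904) (l 16040568)) (b (l 15993288) (l 15990552)))) (b (a (l 15954368) (l 15914640)) (a (a (l 15957448) (l 15935632)) (c (l 15928992) (l 15880056)))))))), by decide +kernel⟩

def k6_pm_012 : ∃ t, chk3 f_pm_012 t 3 1 1 = true :=
  ⟨(b (a (b (l 2) (a (b (l 2) (a (l 15994504) (l 2))) (l 2))) (l 2)) (b (a (a (b (b (l 16016376) (l 16187912)) (b (a (l 15951816) (l 15924128)) (a (l 15937648) (l 15903416)))) (b (a (l 15952792) (l 2)) (b (a (l 15906744) (l 15900392)) (a (l 15879520) (l 15866592))))) (a (b (l 2) (a (b (l 2) (l 15865472)) (l 2))) (l 2))) (a (b (a (b (a (l 15962784) (l 15880984)) (a (b (l 15905992) (l 15895152)) (b (l 15861640) (l 15847632)))) (b (a (l 15850728) (l 15831656)) (a (l 15818944) (l 15793504)))) (a (b (a (b (l 15884352) (l 15935896)) (b (l 15832768) (l 15817088)))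 (a (b (a (l 15878240) (l 15844736)) (a (b (l 15869392) (l 15863112)) (l 15831136))) (b (a (l 15814760) (l 15788192)) (a (b (l 15803128) (l 15795200)) (l 15770608))))) (b (a (b (l 15792848) (l 15774272)) (l 15773568)) (a (b (a (l 15765112) (l 15745064)) (a (l 15745544) (l 15723912))) (b (a (l 15727640) (l 15712672)) (a (l 15705232) (l 15689144))))))) (a (b (b (a (l 15824160) (l 15829224)) (a (l 15780152) (l 15778952))) (b (a (l 15732752) (l 15725952)) (a (b (l 15695552) (a (l 15675528) (l 15664920))) (b (l 15683752) (l 15696736))))) (b (a (b (l 2) (l 15790536)) (l 2)) (b (a (l 15731760) (l 15751160)) (a (b (l 15685688) (l 15653512)) (b (l 15701272) (l 15666304))))))))), by decide +kernel⟩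

theorem s7_pm_012 : ∃ t, chk3 f_pm_012 t 5 3 1 = true := ex3_b k4_pm_012 k5_pm_012

theorem s8_pm_012 : ∃ t, chk3 f_pm_012 t 5 1 1 = true := ex3_b k3_pm_012 s7_pm_012

theorem s9_pm_012 : ∃ t, chk3 f_pm_012 t 4 3 1 = true := ex3_a k1_pm_012 k2_pm_012

theorem s10_pm_012 : ∃ t, chk3 f_pm_012 t 4 1 1 = true := ex3_b k0_pm_012 s9_pm_012

theorem s11_pm_012 : ∃ t, chk3 f_pm_012 t 2 1 1 = true := ex3_a s10_pm_012 s8_pm_012

theorem s12_pm_012 : ∃ t, chk3 f_pm_012 t 1 1 1 = true := ex3_a s11_pm_012 k6_pm_012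

theorem c_pm_012 : CertB 0 536870912 536870912 536870912 697932185 42949674 3 eng mog cd0q0 cd6q1 pd2 true true false .pnp 0 1 2
    ndB0q0 ndB6q1 pcB2 cut_pm_012 Ext.none :=
  certB2 (fam := true) (s1 := true) (s2 := false) (a := 0) (b := 1) (c := 2) (cn := .pnp) (n1 := ndB0q0) (n2 := ndB6q1) (pc := pcB2) (cut := cut_pm_012) (xt := Ext.none) (P1 := 0) (W1 := 536870912) (P2 := 536870912) (W2 := 536870912) (P3 := 697932185) (W3 := 42949674) (N0 := 3) (En := eng) (mo := mog) (C1 := cd0q0) (C2 := cd6q1) (C3 := pd2)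
    rfl (fun _ => rfl) s12_pm_012

noncomputable def f_pm_022 : ℕ → ℕ → ℕ → ℕ → Bool := onCell 0 536870912 1073741824 536870912 697932185 42949674
    (rowB 3 eng mog cd0q0 cd6q2 pd2 1 true true false .pp 0 2 2 (qsf 0 536870912 1073741824 536870912 2) ndB0q0 ndB6q2 pcB2 Cut.none Ext.none)

def k0_pm_022 : ∃ t, chk3 f_pm_022 t 1 2 1 = true :=
  ⟨(b (a (l 3) (l 1)) (a (a (b (b (b (l 3) (b (l 3) (b (a (a (l 3) (l 2590032536055)) (a (l 16472360) (l 16474816))) (a (b (b (a (l 16455080) (l 16461056)) (a (l 16452760) (l 16458680))) (b (b (b (l 16454328) (b (l 16453800) (l 16474384))) (l 16452632)) (l 16450832))) (b (a (c (l 16464352) (l 16464792)) (l 16466904)) (a (l 16459360) (l 16461688))))))) (a (a (b (l 16427648) (a (l 16425424) (l 16391992))) (l 16414560)) (a (l 16419088) (l 16358768)))) (a (a (b (a (l 16351528) (b (l 16361072) (l 16337664))) (l 16409928)) (b (a (b (l 16358848) (l 16329152)) (l 16343960)) (a (l 16296904) (b (l 16298272) (l 16277640))))) (a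 (b (l 16347464) (a (b (l 16295680) (l 16268544)) (l 16281816))) (b (l 16350768) (l 16284896))))) (a (b (b (b (l 3) (b (a (b (l 3) (l 16484520)) (l 1)) (b (a (b (l 16476768) (l 16471600)) (l 1)) (b (b (l 152504317319) (l 157336146103)) (a (l 16461000) (l 178274126983)))))) (a (l 16442520) (l 16437408))) (a (a (l 16318864) (l 16319072)) (l 16401392))) (b (b (l 1) (a (l 211560088679) (l 1))) (a (b (l 16340224) (l 16282032)) (b (l 192232579847) (l 16273120)))))) (b (l 1) (a (a (a (b (l 1) (l 164852033671)) (l 1)) (l 1)) (l 1))))), by decide +kernel⟩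

def k1_pm_022 : ∃ t, chk3 f_pm_022 t 1 3 1 = true :=
  ⟨(a (a (b (a (b (a (b (l 16215168) (l 16153904)) (l 16401792)) (a (b (l 16100472) (l 16056552)) (b (l 16129992) (l 16084344)))) (a (b (b (a (l 16240696) (b (l 16240064) (l 16222448))) (l 16199032)) (l 16126856)) (b (b (a (l 16246968) (l 16224656)) (a (l 16189840) (l 16180688))) (l 16136400)))) (a (b (a (l 16015856) (l 16038672)) (l 16142288)) (b (a (l 16055128) (l 16064016)) (a (l 16035048) (l 16037480))))) (b (a (b (a (b (l 16227664) (l 16217112)) (l 16203128)) (a (b (a (l 16144952) (l 16135736)) (l 16117344)) (b (l 16131168) (l 16104632)))) (b (a (l 16203952) (l 16201216)) (a (b (l 16134752) (l 16096288)) (l 16119120)))) (a (b (a (l 16065600) (l 16078992)) (a (l 16030704) (l 16013192))) (b (a (b (l 16078032) (l 16072072)) (b (l 16069352) (l 16059152))) (a (l 16050528) (l 16062672)))))) (a (b (a (b (a (l 16675678663) (b (l 163778211591) (l 16170256))) (a (l 16121192) (l 16121432))) (b (a (b (l 1) (l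 16162976)) (l 1)) (a (l 16120248) (l 16118496)))) (a (b (a (b (l 16073272) (l 16048584)) (l 16066664)) (a (l 16052456) (b (l 16036216) (l 16040096)))) (b (a (l 16073096) (l 16075984)) (a (l 16038832) (l 16043456))))) (b (a (b (l 1) (a (l 16117728) (l 1))) (l 1)) (a (b (a (l 16077552) (l 16081336)) (a (l 16047256) (l 16053632))) (b (a (l 222833866055) (l 1)) (a (c (l 16093792) (l 16032768)) (c (c (l 60161957047) (l 16092904)) (l 16041552)))))))), by decide +kernel⟩

theorem s2_pm_022 : ∃ t, chk3 f_pm_022 t 1 1 1 = true := ex3_b k0_pm_022 k1_pm_022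

theorem c_pm_022 : CertB 0 536870912 1073741824 536870912 697932185 42949674 3 eng mog cd0q0 cd6q2 pd2 true true false .pp 0 2 2
    ndB0q0 ndB6q2 pcB2 Cut.none Ext.none :=
  certB1 (fam := true) (s1 := true) (s2 := false) (a := 0) (b := 2) (c := 2) (cn := .pp) (n1 := ndB0q0) (n2 := ndB6q2) (pc := pcB2) (cut := Cut.none) (xt := Ext.none) (P1 := 0) (W1 := 536870912) (P2 := 1073741824) (W2 := 536870912) (P3 := 697932185) (W3 := 42949674) (N0 := 3) (En := eng) (mo := mog) (C1 := cd0q0) (C2 := cd6q2) (C3 := pd2)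
    rfl (fun _ => rfl) s2_pm_022

noncomputable def f_pm_023 : ℕ → ℕ → ℕ → ℕ → Bool := onCell 0 536870912 1073741824 536870912 697932185 42949674
    (rowB 3 eng mog cd0q0 cd6q2 pd3 0 true true false .up 0 2 3 (qsf 0 536870912 1073741824 536870912 3) ndB0q0 ndB6q2 pcB3 Cut.none Ext.none)

def k0_pm_023 : ∃ t, chk3 f_pm_023 t 1 1 1 = true :=
  ⟨(a (b (a (l 1) (b (l 1) (a (l 1) (b (l 1) (l 491269138071))))) (a (b (b (l 1) (a (l 1) (l 16040840))) (a (b (l 16019352) (l 16033664)) (b (l 16046976) (l 16089976)))) (b (a (b (l 16036376) (l 16025792)) (b (l 16041312) (l 15996824))) (a (l 176663322247) (l 16161808))))) (b (a (b (a (l 1) (b (l 1) (a (l 1) (l 16052720)))) (a (b (l 234645177863) (l 16081120)) (b (a (l 16032968) (l 16029632)) (l 16070912)))) (b (a (b (a (l 1) (l 16087800)) (a (l 16044024) (l 16042560))) (b (a (l 16109864) (b (l 16081784) (l 16073160))) (a (l 16049232) (l 16063624)))) (a (b (b (l 16026992) (l 16026872)) (l 16081208)) (b (b (l 16048040)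 (l 16052920)) (l 16115984))))) (a (b (a (b (l 16076240) (l 16065120)) (b (l 16116800) (l 16147256))) (a (l 16232120) (b (l 16294104) (l 16195144)))) (b (a (l 16173728) (b (l 16210192) (l 16351984))) (b (l 16454896) (b (l 16544288) (a (l 16556008) (a (l 16606976) (b (l 16626400) (a (l 16638688) (b (l 16647000) (a (l 16653584) (b (l 16657928) (l 16662632)))))))))))))), by decide +kernel⟩

theorem c_pm_023 : CertB 0 536870912 1073741824 536870912 697932185 42949674 3 eng mog cd0q0 cd6q2 pd3 true true false .up 0 2 3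
    ndB0q0 ndB6q2 pcB3 Cut.none Ext.none :=
  certB0 (fam := true) (s1 := true) (s2 := false) (a := 0) (b := 2) (c := 3) (cn := .up) (n1 := ndB0q0) (n2 := ndB6q2) (pc := pcB3) (cut := Cut.none) (xt := Ext.none) (P1 := 0) (W1 := 536870912) (P2 := 1073741824) (W2 := 536870912) (P3 := 697932185) (W3 := 42949674) (N0 := 3) (En := eng) (mo := mog) (C1 := cd0q0) (C2 := cd6q2) (C3 := pd3)
    rfl k0_pm_023

noncomputable def f_pm_033 : ℕ → ℕ → ℕ → ℕ → Bool := onCell 1610612736 536870912 0 1230186008 697932185 42949674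
    (rowB 3 eng mog cd0q0 cd6q3 pd3 2 true true false .pnn 0 3 3 (qsf 0 536870912 0 1230186008 3) ndB0q0 ndB6q3 pcB3 Cut.none Ext.none)

def k0_pm_033 : ∃ t, chk3 f_pm_033 t 2 1 1 = true :=
  ⟨(b (l 1) (a (b (l 1) (b (l 1) (b (a (l 1) (l 367788873879)) (a (l 358661913191) (l 16143024))))) (b (a (l 1) (a (l 1) (b (l 1) (b (l 1) (l 356514812519))))) (a (b (a (b (l 1) (l 344703314087)) (b (l 306048404855) (l 311417286887))) (b (a (l 16039208) (l 16072288)) (b (l 16116648) (l 16170384)))) (b (a (b (a (l 306585245623) (l 305511527223)) (a (l 16045624) (l 16069632))) (b (l 314102084999) (l 16090384))) (b (a (b (l 16098608) (l 16123104)) (l 16149280)) (a (l 16196184) (l 16244240)))))))), by decide +kernel⟩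

def k1_pm_033 : ∃ t, chk3 f_pm_033 t 3 1 1 = true :=
  ⟨(b (a (l 1) (a (b (l 1) (a (b (l 1) (l 527776901559)) (l 4))) (l 4))) (a (b (a (b (l 1) (b (a (l 424697386935) (l 16038592)) (a (l 281352944919) (l 16074824)))) (b (a (b (l 1) (l 16218280)) (b (l 16143152) (l 16147144))) (a (b (l 16094952) (l 16122208)) (b (a (l 16143896) (l 16181360)) (l 16210032))))) (b (a (b (a (l 16080072) (l 16119784)) (a (l 16126544) (l 16174544))) (b (a (l 16166816) (l 16226768)) (a (l 16232840) (l 16297744)))) (a (b (a (l 16198472) (l 16253752)) (b (l 16300912) (l 16371360))) (b (a (l 16313240) (l 16382760)) (a (l 16428064) (l 16372928)))))) (b (a (b (a (a (l 16197744) (l 16224104)) (b (l 4) (l 16250136))) (a (b (l 16238656) (l 16410536)) (b (l 16293720) (l 16349608)))) (a (b (l 4) (b (l 16338560) (l 16398792))) (l 4))) (a (b (a (b (l 16316432) (l 16372216)) (b (l 16391288) (b (l 16439888) (l 16465888)))) (b (a (l 16454208) (b (l 16497512) (l 16526600))) (l 16731200))) (a (b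 (b (l 16467176) (a (l 16506088) (l 16533720))) (b (b (l 16561328) (l 16572184)) (l 16604528))) (b (a (l 16679960) (a (l 198876140407) (l 4))) (a (b (l 16600528) (l 16630456)) (a (l 16840048) (b (l 16605328) (l 16646344)))))))))), by decide +kernel⟩

theorem s2_pm_033 : ∃ t, chk3 f_pm_033 t 1 1 1 = true := ex3_a k0_pm_033 k1_pm_033

theorem c_pm_033 : CertB 0 536870912 0 1230186008 697932185 42949674 3 eng mog cd0q0 cd6q3 pd3 true true false .pnn 0 3 3
    ndB0q0 ndB6q3 pcB3 Cut.none Ext.none :=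
  certB2 (fam := true) (s1 := true) (s2 := false) (a := 0) (b := 3) (c := 3) (cn := .pnn) (n1 := ndB0q0) (n2 := ndB6q3) (pc := pcB3) (cut := Cut.none) (xt := Ext.none) (P1 := 0) (W1 := 536870912) (P2 := 0) (W2 := 1230186008) (P3 := 697932185) (W3 := 42949674) (N0 := 3) (En := eng) (mo := mog) (C1 := cd0q0) (C2 := cd6q3) (C3 := pd3)
    rfl (fun _ => rfl) s2_pm_033

noncomputable def f_pm_101 : ℕ → ℕ → ℕ → ℕ → Bool := onCell 536870912 536870912 536870912 536870912 697932185 42949674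
    (rowB 3 eng mog cd0q1 cd6q0 pd1 1 true true false .npn 1 0 1 (qsf 536870912 536870912 0 536870912 1) ndB0q1 ndB6q0 pcB1 Cut.none Ext.none)

def k0_pm_101 : ∃ t, chk3 f_pm_101 t 2 2 1 = true :=
  ⟨(a (l 3) (b (a (b (l 1) (l 3)) (l 1)) (l 3))), by decide +kernel⟩

def k1_pm_101 : ∃ t, chk3 f_pm_101 t 2 6 1 = true :=
  ⟨(a (b (l 3) (a (b (l 3) (a (b (l 3) (a (b (l 3) (l 16546080)) (b (l 16571080) (l 16549312)))) (b (b (l 3) (a (l 3) (b (l 3) (a (l 97877913927) (l 16588912))))) (a (b (l 16563456) (l 16542864)) (b (a (b (l 16586408) (l 16552960)) (l 16563824)) (l 16535640)))))) (b (b (l 3) (a (l 3) (b (l 3) (a (l 3) (l 130627316567))))) (b (a (b (a (l 3) (l 110226042551)) (a (l 93046089927) (l 16645208))) (b (a (l 115057940535) (l 16741768)) (a (l 16683168) (l 16718560)))) (a (a (b (l 16580256) (l 16544296)) (l 16590168)) (a (l 16625104) (l 16654672))))))) (b (b (l 3) (a (l 3) (b (l 3) (a (l 3) (b (l 3) (l 162840046615)))))) (a (b (a (b (l 3) (b (a (l 3)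 (b (l 3) (l 156397358279))) (a (a (l 133848619031) (l 16808648)) (l 16811680)))) (b (a (l 3) (a (a (l 329806864935) (l 130627773511)) (l 130090884375))) (b (a (b (a (l 173040430231) (a (l 174114234631) (c (l 16955264) (l 142438889079)))) (l 56002570871)) (a (b (l 110226635447) (l 16939864)) (l 16964640))) (a (l 16883912) (a (l 16925176) (l 16929112)))))) (a (b (a (b (l 16794592) (l 16749360)) (l 16780960)) (l 16677688)) (b (a (l 16830384) (b (l 16881040) (l 16833512))) (l 16752824)))) (b (a (b (b (l 280951631319) (a (a (l 16994248) (l 16967320)) (l 16958624))) (a (l 16853816) (l 16926336))) (b (a (l 16997984) (l 16979104)) (l 16849112))) (a (b (a (l 16848256) (l 16863976)) (a (l 16790328) (l 16802808))) (b (l 16850320) (l 16795096))))))), by decide +kernel⟩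

def k2_pm_101 : ∃ t, chk3 f_pm_101 t 2 7 1 = true :=
  ⟨(a (b (a (b (a (b (a (l 16502688) (l 16508200)) (a (l 16446736) (l 16449248))) (b (a (l 16509792) (l 16502440)) (a (l 16457040) (l 16459248)))) (a (b (a (l 16395528) (l 16393776)) (l 16366592)) (b (a (l 16397864) (l 16406720)) (l 16343800)))) (b (a (b (a (l 16498608) (l 16512728)) (l 16449216)) (b (l 16557464) (l 16476608))) (a (b (l 16403776) (l 16354056)) (l 16437736)))) (a (b (a (b (l 16301000) (l 16259840)) (l 16327240)) (a (l 16205688) (l 16175496))) (a (b (l 16265960) (l 16157520)) (b (l 16267040) (l 16156808))))) (b (a (b (a (b (l 16615920) (l 16536448)) (b (l 16669168) (l 16590160))) (a (l 16416200) (l 16472120))) (b (a (b (l 16718296) (l 16639536)) (b (l 16741376) (l 16680536))) (a (l 16523488) (l 16574440)))) (a (a (b (l 16264744) (l 16150960)) (b (l 16308032) (l 16148088))) (a (b (l 16366168) (l 16194216)) (a (l 16308264) (l 16360208)))))), by decide +kernel⟩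

def k3_pm_101 : ∃ t, chk3 f_pm_101 t 3 2 1 = true :=
  ⟨(a (b (l 1) (a (b (l 1) (l 3)) (l 1))) (l 1)), by decide +kernel⟩

def k4_pm_101 : ∃ t, chk3 f_pm_101 t 6 3 1 = true :=
  ⟨(b (b (b (l 3) (a (b (l 3) (b (a (l 3) (a (b (l 3) (a (l 185925486743) (a (l 183778008647) (l 181630526375)))) (a (b (l 3) (b (c (l 255718789495) (b (l 189146747111) (l 16982992))) (l 16985784))) (b (l 1) (l 575022684503))))) (a (a (l 16990136) (c (l 16968240) (l 16970056))) (b (a (l 16966768) (a (l 16967096) (b (l 16961128) (l 16950488)))) (a (l 16981248) (b (l 16945472) (l 16935144))))))) (b (l 1) (a (b (l 1) (a (b (l 1) (l 540125917863)) (l 1))) (l 1))))) (a (b (a (b (b (a (l 16991968) (l 16984432)) (l 16908504)) (l 16856640)) (b (b (a (l 16961128) (b (l 16920104) (l 16942752))) (a (l 16933912) (l 16915280))) (a (l 16882720) (l 16864824)))) (a (b (l 16837360) (l 16782392)) (b (l 16812744) (l 16759184)))) (b (b (a (a (b (c (l 16962968) (l 120829871783)) (l 16894632)) (c (l 155189644759)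 (l 164853265959))) (l 1)) (a (a (l 16844880) (l 16847896)) (a (l 191696646743) (l 1)))) (a (b (a (l 16785256) (l 16767896)) (l 16722848)) (b (a (l 16752384) (l 16736824)) (l 67142384039)))))) (b (a (b (a (l 16709600) (l 16685912)) (a (l 16796472) (l 16597984))) (a (b (l 16651192) (l 16564680)) (b (a (l 16627744) (l 16611808)) (l 16534816)))) (a (a (b (l 16480888) (l 16328408)) (b (l 16712792) (l 16375992))) (a (b (l 16481736) (l 16447832)) (b (l 16454152) (l 16368016)))))), by decide +kernel⟩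

def k5_pm_101 : ∃ t, chk3 f_pm_101 t 7 3 1 = true :=
  ⟨(b (a (a (b (l 1) (b (l 1) (b (l 1) (l 196528204199)))) (l 1)) (l 1)) (a (b (a (b (a (l 48888578871) (b (l 16601712) (l 16556080))) (a (l 16511024) (l 16536416))) (b (a (b (l 1) (l 16543488)) (l 1)) (a (b (l 16500480) (l 16460960)) (b (l 16491224) (l 16450504))))) (a (b (a (l 16431968) (l 16416792)) (l 16339296)) (b (b (a (l 16423320) (l 16412600)) (l 16379944)) (a (l 16322248) (l 16315144))))) (b (b (l 1) (a (b (l 1) (a (l 162167891623) (l 1))) (l 1))) (a (b (a (b (l 16403904) (l 16366624)) (b (l 169684058599) (l 85932102375))) (a (l 16309672) (b (l 16323112) (l 16284464)))) (a (b (b (l 1) (l 169683946167)) (b (l 85931991159) (l 16280352))) (b (l 1) (b (l 169146969975) (l 16278344)))))))), by decide +kernel⟩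

theorem s6_pm_101 : ∃ t, chk3 f_pm_101 t 3 3 1 = true := ex3_a k4_pm_101 k5_pm_101

theorem s7_pm_101 : ∃ t, chk3 f_pm_101 t 3 1 1 = true := ex3_b k3_pm_101 s6_pm_101

theorem s8_pm_101 : ∃ t, chk3 f_pm_101 t 2 3 1 = true := ex3_b k1_pm_101 k2_pm_101

theorem s9_pm_101 : ∃ t, chk3 f_pm_101 t 2 1 1 = true := ex3_b k0_pm_101 s8_pm_101

theorem s10_pm_101 : ∃ t, chk3 f_pm_101 t 1 1 1 = true := ex3_a s9_pm_101 s7_pm_101

theorem c_pm_101 : CertB 536870912 536870912 0 536870912 697932185 42949674 3 eng mog cd0q1 cd6q0 pd1 true true false .npn 1 0 1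
    ndB0q1 ndB6q0 pcB1 Cut.none Ext.none :=
  certB1 (fam := true) (s1 := true) (s2 := false) (a := 1) (b := 0) (c := 1) (cn := .npn) (n1 := ndB0q1) (n2 := ndB6q0) (pc := pcB1) (cut := Cut.none) (xt := Ext.none) (P1 := 536870912) (W1 := 536870912) (P2 := 0) (W2 := 536870912) (P3 := 697932185) (W3 := 42949674) (N0 := 3) (En := eng) (mo := mog) (C1 := cd0q1) (C2 := cd6q0) (C3 := pd1)
    rfl (fun _ => rfl) s10_pm_101

noncomputable def f_pm_102 : ℕ → ℕ → ℕ → ℕ → Bool := onCell 536870912 536870912 1073741824 536870912 697932185 42949674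
    (rowB 3 eng mog cd0q1 cd6q0 pd2 1 true true false .npp 1 0 2 (qsf 536870912 536870912 0 536870912 2) ndB0q1 ndB6q0 pcB2 Cut.none Ext.none)

def k0_pm_102 : ∃ t, chk3 f_pm_102 t 2 1 1 = true :=
  ⟨(b (b (a (a (b (a (b (l 16150640) (l 16134824)) (b (l 16109536) (l 16084928))) (a (l 2) (l 16103680))) (b (b (a (l 16075672) (l 16053272)) (l 16102016)) (b (l 15982672) (l 15956912)))) (a (b (a (l 16153376) (b (l 16022336) (l 15948648))) (a (l 15881624) (l 15822880))) (b (a (b (l 16045488) (l 15988728)) (b (l 16094080) (l 16014488))) (b (a (l 15922912) (l 15969656)) (l 15885296))))) (a (b (a (l 2) (b (l 16070136) (l 2))) (l 2)) (b (a (b (b (l 15785112) (l 15787576)) (l 15859544)) (b (a (l 15800904) (l 15866272)) (b (l 15804464) (l 15811728)))) (a (l 15924896) (l 15914432))))) (a (l 2) (b (a (l 2) (b (l 16095784) (l 2))) (l 2)))), by decide +kernel⟩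

def k1_pm_102 : ∃ t, chk3 f_pm_102 t 3 2 1 = true :=
  ⟨(a (b (a (b (a (b (l 16163784) (l 16062888)) (b (l 16214256) (l 16113296))) (a (b (l 16001304) (l 15970712)) (b (l 16037288) (l 15993824)))) (b (a (b (l 16245144) (l 16145496)) (b (b (l 16281800) (l 16240872)) (l 16176552))) (a (l 16043016) (l 16079544)))) (a (b (b (a (l 15934784) (l 15975152)) (a (l 15906392) (l 15961856))) (l 16114104)) (b (b (a (l 15991776) (l 16023256)) (a (l 15995024) (l 16019736))) (a (l 16062992) (l 16105976))))) (b (a (b (b (a (l 16242384) (b (l 16239608) (l 16213400))) (a (a (l 16190816) (l 16190968)) (l 16187952))) (a (b (l 16137536) (l 16094840)) (b (a (l 16160888) (l 16174704)) (l 16142120)))) (b (a (b (b (a (l 16234720) (l 16233304)) (l 16274576)) (a (l 16193152) (l 16202520))) (b (b (a (b (l 16239936) (l 16228544)) (b (a (l 16221720) (l 16221384)) (a (l 16233392) (a (l 16239128) (l 16237808))))) (a (l 16220232) (a (l 16231824) (l 16229816)))) (a (b (l 16219600) (l 16216784))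 (b (l 16242888) (l 16212712))))) (a (b (a (l 16187992) (l 16204592)) (a (l 16185520) (l 16202600))) (b (a (l 16210272) (b (l 16205168) (l 16199592))) (a (l 16204864) (c (l 16232648) (l 16158168))))))) (a (b (b (a (l 16066160) (l 16119248)) (a (l 16057368) (l 16281256))) (a (b (l 16111224) (l 16180184)) (b (l 16156320) (l 16207168)))) (b (a (b (a (l 16165448) (l 16188400)) (b (l 16164488) (l 16173232))) (b (a (b (l 16203096) (l 16197464)) (b (l 16195496) (a (l 16199368) (l 16194432)))) (b (a (l 16190440) (a (l 16195448) (l 16194800))) (a (l 16197800) (l 16203376))))) (a (b (l 16200024) (l 16235624)) (b (a (l 16221128) (l 16226256)) (l 16258784))))))), by decide +kernel⟩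

def k2_pm_102 : ∃ t, chk3 f_pm_102 t 3 3 1 = true :=
  ⟨(b (a (a (b (l 16117664) (l 16243384)) (b (l 16188728) (l 16292576))) (a (b (a (l 16252032) (l 16280648)) (l 16356592)) (b (a (b (l 16278480) (l 16329336)) (b (l 16297552) (l 16344128))) (b (l 16386376) (l 16437792))))) (a (a (l 2) (b (l 16416184) (l 2))) (b (a (l 16468592) (l 16516576)) (a (l 16584352) (l 16637752))))), by decide +kernel⟩

theorem s3_pm_102 : ∃ t, chk3 f_pm_102 t 3 1 1 = true := ex3_b k1_pm_102 k2_pm_102

theorem s4_pm_102 : ∃ t, chk3 f_pm_102 t 1 1 1 = true := ex3_a k0_pm_102 s3_pm_102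

theorem c_pm_102 : CertB 536870912 536870912 0 536870912 697932185 42949674 3 eng mog cd0q1 cd6q0 pd2 true true false .npp 1 0 2
    ndB0q1 ndB6q0 pcB2 Cut.none Ext.none :=
  certB1 (fam := true) (s1 := true) (s2 := false) (a := 1) (b := 0) (c := 2) (cn := .npp) (n1 := ndB0q1) (n2 := ndB6q0) (pc := pcB2) (cut := Cut.none) (xt := Ext.none) (P1 := 536870912) (W1 := 536870912) (P2 := 0) (W2 := 536870912) (P3 := 697932185) (W3 := 42949674) (N0 := 3) (En := eng) (mo := mog) (C1 := cd0q1) (C2 := cd6q0) (C3 := pd2)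
    rfl (fun _ => rfl) s4_pm_102

noncomputable def f_pm_112 : ℕ → ℕ → ℕ → ℕ → Bool := onCell 536870912 536870912 1073741824 536870912 697932185 42949674
    (rowB 3 eng mog cd0q1 cd6q1 pd2 1 true true false .dn 1 1 2 (qsf 536870912 536870912 536870912 536870912 2) ndB0q1 ndB6q1 pcB2 Cut.none Ext.none)

def k0_pm_112 : ∃ t, chk3 f_pm_112 t 1 1 1 = true :=
  ⟨(a (b (b (a (a (b (a (b (l 16117296) (l 16079512)) (l 201895751847)) (a (l 16043264) (l 15988192))) (b (l 275446798935) (l 16055608))) (a (b (l 1) (l 199211008263)) (l 1))) (a (b (a (b (b (l 15994000) (a (l 16093512) (l 15943184))) (a (l 15994080) (l 15954656))) (b (b (l 15885832) (l 15883024)) (l 15882160))) (a (a (l 16007400) (l 15992992)) (l 15961616))) (b (a (b (b (l 15774448) (l 15812584)) (l 15776832)) (b (l 1) (l 269004141943))) (a (b (l 15849448) (l 15947400)) (l 15927560))))) (a (b (a (b (l 15982704) (l 15985528)) (b (l 16000144) (l 15983952))) (a (b (a (l 15825680) (l 15870056)) (a (b (l 15762320)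 (l 15718576)) (l 15801528))) (b (l 15939880) (l 15888912)))) (b (b (a (l 16015528) (l 16042736)) (a (l 16040968) (l 16101640))) (a (b (l 16033040) (l 16009552)) (l 16140416))))) (b (a (b (l 1) (a (b (l 1) (l 16026424)) (l 1))) (l 1)) (b (a (a (b (l 16091184) (l 16173216)) (b (l 16168448) (l 16262936))) (a (b (l 1) (l 16341072)) (l 1))) (a (a (l 16268896) (b (l 16353912) (l 16440672))) (b (a (l 16451984) (l 16516088)) (a (l 16562584) (l 16647056))))))), by decide +kernel⟩

theorem c_pm_112 : CertB 536870912 536870912 536870912 536870912 697932185 42949674 3 eng mog cd0q1 cd6q1 pd2 true true false .dn 1 1 2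
    ndB0q1 ndB6q1 pcB2 Cut.none Ext.none :=
  certB1 (fam := true) (s1 := true) (s2 := false) (a := 1) (b := 1) (c := 2) (cn := .dn) (n1 := ndB0q1) (n2 := ndB6q1) (pc := pcB2) (cut := Cut.none) (xt := Ext.none) (P1 := 536870912) (W1 := 536870912) (P2 := 536870912) (W2 := 536870912) (P3 := 697932185) (W3 := 42949674) (N0 := 3) (En := eng) (mo := mog) (C1 := cd0q1) (C2 := cd6q1) (C3 := pd2)
    rfl (fun _ => rfl) k0_pm_112

noncomputable def f_pm_113 : ℕ → ℕ → ℕ → ℕ → Bool := onCell 536870912 536870912 1610612736 536870912 697932185 42949674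
    (rowB 3 eng mog cd0q1 cd6q1 pd3 1 true true false .nn 1 1 3 (qsf 536870912 536870912 536870912 536870912 3) ndB0q1 ndB6q1 pcB3 Cut.none Ext.none)

def k0_pm_113 : ∃ t, chk3 f_pm_113 t 1 1 1 = true :=
  ⟨(a (b (b (a (a (b (a (b (l 256186123463) (l 310946804167)) (b (l 15770640) (l 15690248))) (a (l 2) (l 336716433543))) (b (a (l 15801344) (l 15869744)) (a (l 291619453559) (l 15724112)))) (a (b (l 15974864) (l 15856904)) (b (l 16131216) (l 16055880)))) (b (a (b (a (l 2) (b (l 333495371799) (l 2))) (l 2)) (b (a (c (l 295377868231) (l 289472135959)) (l 15998976)) (a (l 296988334615) (l 15965512)))) (a (l 2) (b (a (a (l 2) (l 352822873815)) (l 15935536)) (a (l 2) (l 15909864)))))) (b (a (l 2) (b (a (l 2) (l 466103253927)) (l 2))) (l 2))) (b (b (a (a (b (l 16302848) (l 16207296)) (b (l 16439552) (l 16358752))) (b (a (l 16571488) (l 16665296)) (a (l 16504488) (l 16612024)))) (a (b (a (l 16138184) (l 16296672)) (a (l 16109752) (l 16247144))) (b (a (l 16450680)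 (l 16564656)) (a (l 16393024) (l 4))))) (b (a (b (a (b (l 16061496) (l 16111392)) (b (l 16216480) (l 4))) (a (b (l 533212502551) (l 2)) (l 4))) (l 4)) (l 4)))), by decide +kernel⟩

theorem c_pm_113 : CertB 536870912 536870912 536870912 536870912 697932185 42949674 3 eng mog cd0q1 cd6q1 pd3 true true false .nn 1 1 3
    ndB0q1 ndB6q1 pcB3 Cut.none Ext.none :=
  certB1 (fam := true) (s1 := true) (s2 := false) (a := 1) (b := 1) (c := 3) (cn := .nn) (n1 := ndB0q1) (n2 := ndB6q1) (pc := pcB3) (cut := Cut.none) (xt := Ext.none) (P1 := 536870912) (W1 := 536870912) (P2 := 536870912) (W2 := 536870912) (P3 := 697932185) (W3 := 42949674) (N0 := 3) (En := eng) (mo := mog) (C1 := cd0q1) (C2 := cd6q1) (C3 := pd3)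
    rfl (fun _ => rfl) k0_pm_113

noncomputable def f_pm_123 : ℕ → ℕ → ℕ → ℕ → Bool := onCell 536870912 536870912 1610612736 536870912 697932185 42949674
    (rowB 3 eng mog cd0q1 cd6q2 pd3 1 true true false .npn 1 2 3 (qsf 536870912 536870912 1073741824 536870912 3) ndB0q1 ndB6q2 pcB3 Cut.none Ext.none)

def k0_pm_123 : ∃ t, chk3 f_pm_123 t 2 2 1 = true :=
  ⟨(b (a (a (b (a (b (l 74657517287) (l 16092776)) (b (l 134787122887) (l 77341916583))) (a (l 16084608) (b (l 16112816) (l 16107696)))) (b (a (b (l 1) (l 139082169063)) (l 1)) (a (a (l 16196168) (l 78415751687)) (a (l 70899613815) (l 62846614871))))) (a (b (l 1) (a (b (l 1) (l 143914190167)) (l 1))) (l 1))) (a (a (b (a (b (l 16079536) (l 16081888)) (l 16102512)) (a (l 16130240) (b (l 16102960) (l 16132968)))) (b (b (b (l 16194856) (l 16192352)) (c (l 16193328) (l 16112576))) (b (a (l 16130504) (l 16176192)) (a (l 16132456) (l 16159328))))) (b (b (a (a (l 69289046055) (b (l 1) (l 156799144679))) (l 1))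 (a (a (l 16233304) (c (l 16345096) (l 16261952))) (a (c (l 163778460471) (l 16336448)) (l 1)))) (b (a (a (b (l 16238640) (l 16220432)) (b (c (l 16312048) (l 16263192)) (l 16279112))) (b (a (a (l 16318240) (l 169683914039)) (l 1)) (a (c (l 16486032) (l 16311072)) (b (l 1) (l 16413128))))) (a (a (l 16195920) (l 16246504)) (a (b (l 16321624) (l 16297504)) (b (l 16389960) (l 16361600)))))))), by decide +kernel⟩

def k1_pm_123 : ∃ t, chk3 f_pm_123 t 2 3 1 = true :=
  ⟨(a (b (b (a (a (l 16251584) (l 16223512)) (a (b (l 16163872) (l 16218360)) (b (b (l 16151848) (l 16154720)) (l 16284704)))) (a (a (l 16378280) (l 16342288)) (b (a (l 16275184) (l 16230880)) (l 16395976)))) (b (a (l 16491456) (b (l 16374432) (l 16439360))) (b (a (l 16580064) (l 16568504)) (b (a (l 16617760) (l 16554728)) (b (a (l 16634920) (l 16580504)) (b (l 16848976) (a (l 16648232) (b (l 16594528) (l 16595696))))))))) (a (b (b (a (b (l 16236480) (a (l 16162360) (l 16170208))) (b (l 16256960) (l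 16197088))) (b (a (b (l 16183352) (l 16208600)) (b (l 16191656) (l 16196832))) (a (l 16256296) (b (l 16213328) (l 16244248))))) (b (b (l 16313912) (l 16408664)) (b (a (l 16457272) (l 16431744)) (b (l 16639112) (b (l 16515752) (b (l 16521240) (b (l 16524192) (l 4)))))))) (b (b (a (b (l 16330776) (l 16239944)) (b (l 16450768) (l 16287176))) (b (a (l 16224280) (l 16261472)) (a (b (l 16220176) (l 16231984)) (l 16252384)))) (b (b (a (l 16278248) (l 16276912)) (a (l 16349560) (l 16331688))) (b (b (l 16397360) (l 16430792)) (b (l 16451456) (b (l 16466872) (l 4)))))))), by decide +kernel⟩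

def k2_pm_123 : ∃ t, chk3 f_pm_123 t 3 1 1 = true :=
  ⟨(b (b (l 1) (b (l 1) (a (b (l 1) (a (a (a (l 16424712) (l 1)) (l 1)) (l 1))) (l 1)))) (b (a (b (b (a (a (l 16509336) (l 16462360)) (l 1)) (a (a (l 16336584) (l 16427536)) (b (l 1) (l 16528744)))) (a (b (a (l 16302232) (l 16360288)) (a (l 16388976) (l 16341400))) (b (a (l 16448040) (l 16539176)) (a (l 16421944) (l 16742520))))) (b (l 1) (a (b (l 1) (a (l 16623016) (l 1))) (l 1)))) (b (a (a (b (a (l 16305776) (l 16354944)) (a (l 16333984) (l 16593400))) (b (a (l 16424328) (l 16494408)) (a (l 16498776) (l 16488032)))) (a (b (a (l 16580528) (l 16654648)) (a (l 16556984) (l 16597320))) (b (l 1) (l 296923434519)))) (a (b (a (b (a (l 16361096) (l 16378760)) (a (l 16393664) (l 16391024))) (b (l 16440688) (l 16426784))) (b (a (l 112440675351) (l 4)) (l 4))) (b (a (b (l 16533656) (l 4)) (l 4)) (l 4)))))), by decide +kernel⟩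

theorem s3_pm_123 : ∃ t, chk3 f_pm_123 t 2 1 1 = true := ex3_b k0_pm_123 k1_pm_123

theorem s4_pm_123 : ∃ t, chk3 f_pm_123 t 1 1 1 = true := ex3_a s3_pm_123 k2_pm_123

theorem c_pm_123 : CertB 536870912 536870912 1073741824 536870912 697932185 42949674 3 eng mog cd0q1 cd6q2 pd3 true true false .npn 1 2 3
    ndB0q1 ndB6q2 pcB3 Cut.none Ext.none :=
  certB1 (fam := true) (s1 := true) (s2 := false) (a := 1) (b := 2) (c := 3) (cn := .npn) (n1 := ndB0q1) (n2 := ndB6q2) (pc := pcB3) (cut := Cut.none) (xt := Ext.none) (P1 := 536870912) (W1 := 536870912) (P2 := 1073741824) (W2 := 536870912) (P3 := 697932185) (W3 := 42949674) (N0 := 3) (En := eng) (mo := mog) (C1 := cd0q1) (C2 := cd6q2) (C3 := pd3)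
    rfl (fun _ => rfl) s4_pm_123

noncomputable def f_pm_133 : ℕ → ℕ → ℕ → ℕ → Bool := onCell 536870912 536870912 0 1230186008 697932185 42949674
    (rowB 3 eng mog cd0q1 cd6q3 pd3 0 true true false .dn 1 3 3 (qsf 536870912 536870912 0 1230186008 3) ndB0q1 ndB6q3 pcB3 Cut.none Ext.none)

def k0_pm_133 : ∃ t, chk3 f_pm_133 t 1 1 1 = true :=
  ⟨(b (l 2) (b (l 2) (a (b (l 2) (a (b (l 2) (a (l 16697216) (l 2))) (l 2))) (l 2)))), by decide +kernel⟩

theorem c_pm_133 : CertB 536870912 536870912 0 1230186008 697932185 42949674 3 eng mog cd0q1 cd6q3 pd3 true true false .dn 1 3 3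
    ndB0q1 ndB6q3 pcB3 Cut.none Ext.none :=
  certB0 (fam := true) (s1 := true) (s2 := false) (a := 1) (b := 3) (c := 3) (cn := .dn) (n1 := ndB0q1) (n2 := ndB6q3) (pc := pcB3) (cut := Cut.none) (xt := Ext.none) (P1 := 536870912) (W1 := 536870912) (P2 := 0) (W2 := 1230186008) (P3 := 697932185) (W3 := 42949674) (N0 := 3) (En := eng) (mo := mog) (C1 := cd0q1) (C2 := cd6q3) (C3 := pd3)
    rfl k0_pm_133

noncomputable def f_pm_202 : ℕ → ℕ → ℕ → ℕ → Bool := onCell 0 536870912 0 536870912 697932185 42949674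
    (rowB 3 eng mog cd0q2 cd6q0 pd2 0 true true false .pp 2 0 2 (qsf 0 536870912 0 536870912 2) ndB0q2 ndB6q0 pcB2 Cut.none Ext.none)

def k0_pm_202 : ∃ t, chk3 f_pm_202 t 2 2 1 = true :=
  ⟨(b (a (b (b (a (l 16245952) (l 16383304)) (a (l 16292352) (l 16273288))) (b (l 16538264) (l 16378648))) (b (a (b (b (l 16225824) (l 16235368)) (l 16259024)) (b (a (l 16229648) (b (l 16226984) (l 16228200))) (a (l 16249208) (b (l 16232360) (l 16243952))))) (a (b (l 16295216) (l 16335552)) (b (l 16275440) (l 16311832))))) (a (l 4) (b (a (b (l 16381768) (l 16424648)) (b (l 16350864) (l 16387256))) (a (l 4) (b (l 16415480) (l 16443936)))))), by decide +kernel⟩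

def k1_pm_202 : ∃ t, chk3 f_pm_202 t 6 4 1 = true :=
  ⟨(b (a (b (a (b (l 16223688) (l 16221304)) (b (l 16242536) (l 16215360))) (a (b (l 16221792) (l 16226944)) (b (l 16212208) (l 16212000)))) (b (a (b (a (l 16221600) (l 16221648)) (l 16211376)) (b (a (l 16222048) (b (l 16227512) (l 16219872))) (a (l 16208600) (l 16208288)))) (a (b (l 16204384) (l 16200536)) (b (l 16260272) (l 16189736))))) (a (b (a (l 16250128) (b (l 16219232) (l 16235448))) (l 16276144)) (b (a (b (l 16200240) (l 16209520)) (b (l 16185384) (l 16269432))) (a (l 16236344) (b (l 16196440) (l 16215104)))))), by decide +kernel⟩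

def k2_pm_202 : ∃ t, chk3 f_pm_202 t 7 4 1 = true :=
  ⟨(a (b (b (a (b (a (b (l 16227504) (l 16219960)) (l 16223760)) (a (b (l 16212752) (l 16206112)) (l 16209432))) (b (b (l 16229136) (l 16221008)) (a (l 16209504) (l 16210080)))) (a (b (a (l 16196392) (b (l 16199592) (l 16193768))) (a (l 16185544) (l 16185792))) (b (l 16217672) (a (l 16185440) (l 16185736))))) (b (a (b (l 16177408) (l 16172872)) (a (b (a (l 16176912) (l 16176720)) (l 16169808)) (b (l 16176712) (a (l 16169912) (l 16169824))))) (a (b (a (l 16176888) (l 16169464)) (l 16185680)) (b (a (l 16166272) (l 16165472)) (a (l 16168848) (l 16163768)))))) (a (b (b (b (b (a (l 16231632) (l 16233968)) (a (l 16222976) (l 16225072))) (a (l 16211176) (l 16213040))) (b (a (l 16197592) (l 16199336)) (a (l 16186344) (l 16188104)))) (b (c (a (l 16209128) (l 16211360)) (l 16139192)) (a (b (l 16186656) (a (l 16163600) (l 16163928))) (c (l 16203864) (l 16129928))))) (b (b (a (b (b (b (l 16239368) (l 16234656)) (l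 16227928)) (l 16215944)) (b (a (b (b (l 16241800) (l 16237104)) (l 16230552)) (b (a (b (l 16242680) (l 16238488)) (l 16242152)) (l 16233112))) (a (l 16219056) (l 16222352)))) (a (b (l 16202496) (l 16191576)) (b (l 16208016) (l 16197800)))) (c (b (a (l 16215760) (l 16223448)) (a (l 16209232) (l 16218008))) (b (a (l 16143744) (l 16150312)) (l 16200880)))))), by decide +kernel⟩

def k3_pm_202 : ∃ t, chk3 f_pm_202 t 3 5 1 = true :=
  ⟨(a (b (a (b (l 16313696) (l 16346200)) (b (l 16258336) (l 16290320))) (a (b (l 16371488) (l 16397928)) (b (l 16314752) (l 16343512)))) (b (a (b (a (l 16215464) (b (a (l 16185264) (l 16173376)) (l 16200168))) (a (l 16248216) (l 16224232))) (b (a (b (a (b (l 16163888) (l 16167960)) (a (l 16165312) (l 16167040))) (a (l 16182808) (b (a (l 16170376) (l 16169352)) (l 16178896)))) (a (b (l 16171512) (b (l 16173344) (a (l 16175328) (l 16177352)))) (c (l 16222088) (l 16142240)))) (a (b (l 16197480) (l 16210608)) (b (a (b (a (l 16184568)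 (l 16182960)) (l 16190744)) (b (l 16208472) (l 16211240))) (a (l 16201344) (a (l 16199736) (l 16200744))))))) (a (b (l 16260848) (l 16290944)) (a (b (l 16231824) (l 16264520)) (b (a (l 16224176) (l 16223848)) (l 16258496)))))), by decide +kernel⟩

def k4_pm_202 : ∃ t, chk3 f_pm_202 t 1 3 1 = true :=
  ⟨(a (l 4) (b (a (b (a (b (l 16426440) (l 16457272)) (b (l 16375712) (l 16410624))) (a (l 4) (b (l 16454952) (l 16500880)))) (b (a (b (l 16326480) (l 16368248)) (b (l 16299200) (l 16344152))) (a (l 16443608) (b (l 16397168) (l 16449680))))) (a (b (a (l 4) (b (l 16539184) (l 4))) (l 2)) (b (a (b (l 16514384) (l 16565784)) (l 16531432)) (a (b (l 16622768) (l 2)) (l 16663488)))))), by decide +kernel⟩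

theorem s5_pm_202 : ∃ t, chk3 f_pm_202 t 3 4 1 = true := ex3_a k1_pm_202 k2_pm_202

theorem s6_pm_202 : ∃ t, chk3 f_pm_202 t 3 2 1 = true := ex3_b s5_pm_202 k3_pm_202

theorem s7_pm_202 : ∃ t, chk3 f_pm_202 t 1 2 1 = true := ex3_a k0_pm_202 s6_pm_202

theorem s8_pm_202 : ∃ t, chk3 f_pm_202 t 1 1 1 = true := ex3_b s7_pm_202 k4_pm_202

theorem c_pm_202 : CertB 0 536870912 0 536870912 697932185 42949674 3 eng mog cd0q2 cd6q0 pd2 true true false .pp 2 0 2
    ndB0q2 ndB6q0 pcB2 Cut.none Ext.none :=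
  certB0 (fam := true) (s1 := true) (s2 := false) (a := 2) (b := 0) (c := 2) (cn := .pp) (n1 := ndB0q2) (n2 := ndB6q0) (pc := pcB2) (cut := Cut.none) (xt := Ext.none) (P1 := 0) (W1 := 536870912) (P2 := 0) (W2 := 536870912) (P3 := 697932185) (W3 := 42949674) (N0 := 3) (En := eng) (mo := mog) (C1 := cd0q2) (C2 := cd6q0) (C3 := pd2)
    rfl s8_pm_202

noncomputable def f_pm_203 : ℕ → ℕ → ℕ → ℕ → Bool := onCell 0 536870912 1610612736 536870912 697932185 42949674
    (rowB 3 eng mog cd0q2 cd6q0 pd3 1 true true false .up 2 0 3 (qsf 0 536870912 0 536870912 3) ndB0q2 ndB6q0 pcB3 Cut.none Ext.none)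

def k0_pm_203 : ∃ t, chk3 f_pm_203 t 1 1 1 = true :=
  ⟨(b (a (l 4) (b (a (l 4) (b (l 16702000) (l 16735688))) (l 4))) (l 2)), by decide +kernel⟩

theorem c_pm_203 : CertB 0 536870912 0 536870912 697932185 42949674 3 eng mog cd0q2 cd6q0 pd3 true true false .up 2 0 3
    ndB0q2 ndB6q0 pcB3 Cut.none Ext.none :=
  certB1 (fam := true) (s1 := true) (s2 := false) (a := 2) (b := 0) (c := 3) (cn := .up) (n1 := ndB0q2) (n2 := ndB6q0) (pc := pcB3) (cut := Cut.none) (xt := Ext.none) (P1 := 0) (W1 := 536870912) (P2 := 0) (W2 := 536870912) (P3 := 697932185) (W3 := 42949674) (N0 := 3) (En := eng) (mo := mog) (C1 := cd0q2) (C2 := cd6q0) (C3 := pd3)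
    rfl (fun _ => rfl) k0_pm_203

noncomputable def f_pm_213 : ℕ → ℕ → ℕ → ℕ → Bool := onCell 0 536870912 1610612736 536870912 697932185 42949674
    (rowB 3 eng mog cd0q2 cd6q1 pd3 1 true true false .pnn 2 1 3 (qsf 0 536870912 536870912 536870912 3) ndB0q2 ndB6q1 pcB3 Cut.none Ext.none)

def k0_pm_213 : ∃ t, chk3 f_pm_213 t 1 1 1 = true :=
  ⟨(b (a (l 4) (b (a (l 4) (b (l 16650488) (l 16621192))) (l 4))) (l 4)), by decide +kernel⟩

theorem c_pm_213 : CertB 0 536870912 536870912 536870912 697932185 42949674 3 eng mog cd0q2 cd6q1 pd3 true true false .pnn 2 1 3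
    ndB0q2 ndB6q1 pcB3 Cut.none Ext.none :=
  certB1 (fam := true) (s1 := true) (s2 := false) (a := 2) (b := 1) (c := 3) (cn := .pnn) (n1 := ndB0q2) (n2 := ndB6q1) (pc := pcB3) (cut := Cut.none) (xt := Ext.none) (P1 := 0) (W1 := 536870912) (P2 := 536870912) (W2 := 536870912) (P3 := 697932185) (W3 := 42949674) (N0 := 3) (En := eng) (mo := mog) (C1 := cd0q2) (C2 := cd6q1) (C3 := pd3)
    rfl (fun _ => rfl) k0_pm_213

noncomputable def f_mm_001 : ℕ → ℕ → ℕ → ℕ → Bool := onCell 0 536870912 0 536870912 697932185 42949674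
    (rowB 3 eng mog cd0q0 cd6q0 pd1 0 true false false .up 0 0 1 (qsf 0 536870912 0 536870912 1) ndB0q0 ndB6q0 pcB1 Cut.none Ext.none)

def k0_mm_001 : ∃ t, chk3 f_mm_001 t 1 1 1 = true :=
  ⟨(l 4), by decide +kernel⟩

theorem c_mm_001 : CertB 0 536870912 0 536870912 697932185 42949674 3 eng mog cd0q0 cd6q0 pd1 true false false .up 0 0 1
    ndB0q0 ndB6q0 pcB1 Cut.none Ext.none :=
  certB0 (fam := true) (s1 := false) (s2 := false) (a := 0) (b := 0) (c := 1) (cn := .up) (n1 := ndB0q0) (n2 := ndB6q0) (pc := pcB1) (cut := Cut.none) (xt := Ext.none) (P1 := 0) (W1 := 536870912) (P2 := 0) (W2 := 536870912) (P3 := 697932185) (W3 := 42949674) (N0 := 3) (En := eng) (mo := mog) (C1 := cd0q0) (C2 := cd6q0) (C3 := pd1)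
    rfl k0_mm_001

noncomputable def f_mm_011 : ℕ → ℕ → ℕ → ℕ → Bool := onCell 0 536870912 536870912 536870912 697932185 42949674
    (rowB 3 eng mog cd0q0 cd6q1 pd1 0 true false false .pnn 0 1 1 (qsf 0 536870912 536870912 536870912 1) ndB0q0 ndB6q1 pcB1 Cut.none Ext.none)

def k0_mm_011 : ∃ t, chk3 f_mm_011 t 1 1 1 = true :=
  ⟨(l 4), by decide +kernel⟩

theorem c_mm_011 : CertB 0 536870912 536870912 536870912 697932185 42949674 3 eng mog cd0q0 cd6q1 pd1 true false false .pnn 0 1 1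
    ndB0q0 ndB6q1 pcB1 Cut.none Ext.none :=
  certB0 (fam := true) (s1 := false) (s2 := false) (a := 0) (b := 1) (c := 1) (cn := .pnn) (n1 := ndB0q0) (n2 := ndB6q1) (pc := pcB1) (cut := Cut.none) (xt := Ext.none) (P1 := 0) (W1 := 536870912) (P2 := 536870912) (W2 := 536870912) (P3 := 697932185) (W3 := 42949674) (N0 := 3) (En := eng) (mo := mog) (C1 := cd0q0) (C2 := cd6q1) (C3 := pd1)
    rfl k0_mm_011

noncomputable def f_mm_012 : ℕ → ℕ → ℕ → ℕ → Bool := onCell 0 536870912 536870912 536870912 697932185 42949674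
    (rowB 3 eng mog cd0q0 cd6q1 pd2 0 true false false .pnp 0 1 2 (qsf 0 536870912 536870912 536870912 2) ndB0q0 ndB6q1 pcB2 Cut.none Ext.none)

def k0_mm_012 : ∃ t, chk3 f_mm_012 t 1 1 1 = true :=
  ⟨(l 4), by decide +kernel⟩

theorem c_mm_012 : CertB 0 536870912 536870912 536870912 697932185 42949674 3 eng mog cd0q0 cd6q1 pd2 true false false .pnp 0 1 2
    ndB0q0 ndB6q1 pcB2 Cut.none Ext.none :=
  certB0 (fam := true) (s1 := false) (s2 := false) (a := 0) (b := 1) (c := 2) (cn := .pnp) (n1 := ndB0q0) (n2 := ndB6q1) (pc := pcB2) (cut := Cut.none) (xt := Ext.none) (P1 := 0) (W1 := 536870912) (P2 := 536870912) (W2 := 536870912) (P3 := 697932185) (W3 := 42949674) (N0 := 3) (En := eng) (mo := mog) (C1 := cd0q0) (C2 := cd6q1) (C3 := pd2)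
    rfl k0_mm_012

noncomputable def f_mm_022 : ℕ → ℕ → ℕ → ℕ → Bool := onCell 0 536870912 1073741824 536870912 697932185 42949674
    (rowB 3 eng mog cd0q0 cd6q2 pd2 0 true false false .pp 0 2 2 (qsf 0 536870912 1073741824 536870912 2) ndB0q0 ndB6q2 pcB2 Cut.none Ext.none)

def k0_mm_022 : ∃ t, chk3 f_mm_022 t 1 1 1 = true :=
  ⟨(l 4), by decide +kernel⟩

theorem c_mm_022 : CertB 0 536870912 1073741824 536870912 697932185 42949674 3 eng mog cd0q0 cd6q2 pd2 true false false .pp 0 2 2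
    ndB0q0 ndB6q2 pcB2 Cut.none Ext.none :=
  certB0 (fam := true) (s1 := false) (s2 := false) (a := 0) (b := 2) (c := 2) (cn := .pp) (n1 := ndB0q0) (n2 := ndB6q2) (pc := pcB2) (cut := Cut.none) (xt := Ext.none) (P1 := 0) (W1 := 536870912) (P2 := 1073741824) (W2 := 536870912) (P3 := 697932185) (W3 := 42949674) (N0 := 3) (En := eng) (mo := mog) (C1 := cd0q0) (C2 := cd6q2) (C3 := pd2)
    rfl k0_mm_022

noncomputable def f_mm_023 : ℕ → ℕ → ℕ → ℕ → Bool := onCell 0 536870912 1073741824 536870912 697932185 42949674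
    (rowB 3 eng mog cd0q0 cd6q2 pd3 0 true false false .up 0 2 3 (qsf 0 536870912 1073741824 536870912 3) ndB0q0 ndB6q2 pcB3 Cut.none Ext.none)

def k0_mm_023 : ∃ t, chk3 f_mm_023 t 1 1 1 = true :=
  ⟨(l 4), by decide +kernel⟩

theorem c_mm_023 : CertB 0 536870912 1073741824 536870912 697932185 42949674 3 eng mog cd0q0 cd6q2 pd3 true false false .up 0 2 3
    ndB0q0 ndB6q2 pcB3 Cut.none Ext.none :=
  certB0 (fam := true) (s1 := false) (s2 := false) (a := 0) (b := 2) (c := 3) (cn := .up) (n1 := ndB0q0) (n2 := ndB6q2) (pc := pcB3) (cut := Cut.none) (xt := Ext.none) (P1 := 0) (W1 := 536870912) (P2 := 1073741824) (W2 := 536870912) (P3 := 697932185) (W3 := 42949674) (N0 := 3) (En := eng) (mo := mog) (C1 := cd0q0) (C2 := cd6q2) (C3 := pd3)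
    rfl k0_mm_023

noncomputable def f_mm_033 : ℕ → ℕ → ℕ → ℕ → Bool := onCell 0 536870912 0 1230186008 697932185 42949674
    (rowB 3 eng mog cd0q0 cd6q3 pd3 0 true false false .pnn 0 3 3 (qsf 0 536870912 0 1230186008 3) ndB0q0 ndB6q3 pcB3 Cut.none Ext.none)

def k0_mm_033 : ∃ t, chk3 f_mm_033 t 1 1 1 = true :=
  ⟨(l 5), by decide +kernel⟩

theorem c_mm_033 : CertB 0 536870912 0 1230186008 697932185 42949674 3 eng mog cd0q0 cd6q3 pd3 true false false .pnn 0 3 3
    ndB0q0 ndB6q3 pcB3 Cut.none Ext.none :=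
  certB0 (fam := true) (s1 := false) (s2 := false) (a := 0) (b := 3) (c := 3) (cn := .pnn) (n1 := ndB0q0) (n2 := ndB6q3) (pc := pcB3) (cut := Cut.none) (xt := Ext.none) (P1 := 0) (W1 := 536870912) (P2 := 0) (W2 := 1230186008) (P3 := 697932185) (W3 := 42949674) (N0 := 3) (En := eng) (mo := mog) (C1 := cd0q0) (C2 := cd6q3) (C3 := pd3)
    rfl k0_mm_033

noncomputable def f_mm_101 : ℕ → ℕ → ℕ → ℕ → Bool := onCell 536870912 536870912 0 536870912 697932185 42949674
    (rowB 3 eng mog cd0q1 cd6q0 pd1 0 true false false .npn 1 0 1 (qsf 536870912 536870912 0 536870912 1) ndB0q1 ndB6q0 pcB1 Cut.none Ext.none)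

def k0_mm_101 : ∃ t, chk3 f_mm_101 t 1 1 1 = true :=
  ⟨(l 4), by decide +kernel⟩

theorem c_mm_101 : CertB 536870912 536870912 0 536870912 697932185 42949674 3 eng mog cd0q1 cd6q0 pd1 true false false .npn 1 0 1
    ndB0q1 ndB6q0 pcB1 Cut.none Ext.none :=
  certB0 (fam := true) (s1 := false) (s2 := false) (a := 1) (b := 0) (c := 1) (cn := .npn) (n1 := ndB0q1) (n2 := ndB6q0) (pc := pcB1) (cut := Cut.none) (xt := Ext.none) (P1 := 536870912) (W1 := 536870912) (P2 := 0) (W2 := 536870912) (P3 := 697932185) (W3 := 42949674) (N0 := 3) (En := eng) (mo := mog) (C1 := cd0q1) (C2 := cd6q0) (C3 := pd1)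
    rfl k0_mm_101

noncomputable def f_mm_102 : ℕ → ℕ → ℕ → ℕ → Bool := onCell 536870912 536870912 0 536870912 697932185 42949674
    (rowB 3 eng mog cd0q1 cd6q0 pd2 0 true false false .npp 1 0 2 (qsf 536870912 536870912 0 536870912 2) ndB0q1 ndB6q0 pcB2 Cut.none Ext.none)

def k0_mm_102 : ∃ t, chk3 f_mm_102 t 1 1 1 = true :=
  ⟨(l 4), by decide +kernel⟩

theorem c_mm_102 : CertB 536870912 536870912 0 536870912 697932185 42949674 3 eng mog cd0q1 cd6q0 pd2 true false false .npp 1 0 2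
    ndB0q1 ndB6q0 pcB2 Cut.none Ext.none :=
  certB0 (fam := true) (s1 := false) (s2 := false) (a := 1) (b := 0) (c := 2) (cn := .npp) (n1 := ndB0q1) (n2 := ndB6q0) (pc := pcB2) (cut := Cut.none) (xt := Ext.none) (P1 := 536870912) (W1 := 536870912) (P2 := 0) (W2 := 536870912) (P3 := 697932185) (W3 := 42949674) (N0 := 3) (En := eng) (mo := mog) (C1 := cd0q1) (C2 := cd6q0) (C3 := pd2)
    rfl k0_mm_102

noncomputable def f_mm_112 : ℕ → ℕ → ℕ → ℕ → Bool := onCell 536870912 536870912 536870912 536870912 697932185 42949674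
    (rowB 3 eng mog cd0q1 cd6q1 pd2 0 true false false .dn 1 1 2 (qsf 536870912 536870912 536870912 536870912 2) ndB0q1 ndB6q1 pcB2 Cut.none Ext.none)

def k0_mm_112 : ∃ t, chk3 f_mm_112 t 1 1 1 = true :=
  ⟨(l 4), by decide +kernel⟩

theorem c_mm_112 : CertB 536870912 536870912 536870912 536870912 697932185 42949674 3 eng mog cd0q1 cd6q1 pd2 true false false .dn 1 1 2
    ndB0q1 ndB6q1 pcB2 Cut.none Ext.none :=
  certB0 (fam := true) (s1 := false) (s2 := false) (a := 1) (b := 1) (c := 2) (cn := .dn) (n1 := ndB0q1) (n2 := ndB6q1) (pc := pcB2) (cut := Cut.none) (xt := Ext.none) (P1 := 536870912) (W1 := 536870912) (P2 := 536870912) (W2 := 536870912) (P3 := 697932185) (W3 := 42949674) (N0 := 3) (En := eng) (mo := mog) (C1 := cd0q1) (C2 := cd6q1) (C3 := pd2)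
    rfl k0_mm_112

noncomputable def f_mm_113 : ℕ → ℕ → ℕ → ℕ → Bool := onCell 536870912 536870912 536870912 536870912 697932185 42949674
    (rowB 3 eng mog cd0q1 cd6q1 pd3 0 true false false .nn 1 1 3 (qsf 536870912 536870912 536870912 536870912 3) ndB0q1 ndB6q1 pcB3 Cut.none Ext.none)

def k0_mm_113 : ∃ t, chk3 f_mm_113 t 1 1 1 = true :=
  ⟨(l 4), by decide +kernel⟩

theorem c_mm_113 : CertB 536870912 536870912 536870912 536870912 697932185 42949674 3 eng mog cd0q1 cd6q1 pd3 true false false .nn 1 1 3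
    ndB0q1 ndB6q1 pcB3 Cut.none Ext.none :=
  certB0 (fam := true) (s1 := false) (s2 := false) (a := 1) (b := 1) (c := 3) (cn := .nn) (n1 := ndB0q1) (n2 := ndB6q1) (pc := pcB3) (cut := Cut.none) (xt := Ext.none) (P1 := 536870912) (W1 := 536870912) (P2 := 536870912) (W2 := 536870912) (P3 := 697932185) (W3 := 42949674) (N0 := 3) (En := eng) (mo := mog) (C1 := cd0q1) (C2 := cd6q1) (C3 := pd3)
    rfl k0_mm_113

noncomputable def f_mm_123 : ℕ → ℕ → ℕ → ℕ → Bool := onCell 536870912 536870912 1073741824 536870912 697932185 42949674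
    (rowB 3 eng mog cd0q1 cd6q2 pd3 0 true false false .npn 1 2 3 (qsf 536870912 536870912 1073741824 536870912 3) ndB0q1 ndB6q2 pcB3 Cut.none Ext.none)

def k0_mm_123 : ∃ t, chk3 f_mm_123 t 1 1 1 = true :=
  ⟨(l 4), by decide +kernel⟩

theorem c_mm_123 : CertB 536870912 536870912 1073741824 536870912 697932185 42949674 3 eng mog cd0q1 cd6q2 pd3 true false false .npn 1 2 3
    ndB0q1 ndB6q2 pcB3 Cut.none Ext.none :=
  certB0 (fam := true) (s1 := false) (s2 := false) (a := 1) (b := 2) (c := 3) (cn := .npn) (n1 := ndB0q1) (n2 := ndB6q2) (pc := pcB3) (cut := Cut.none) (xt := Ext.none) (P1 := 536870912) (W1 := 536870912) (P2 := 1073741824) (W2 := 536870912) (P3 := 697932185) (W3 := 42949674) (N0 := 3) (En := eng) (mo := mog) (C1 := cd0q1) (C2 := cd6q2) (C3 := pd3)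
    rfl k0_mm_123

noncomputable def f_mm_133 : ℕ → ℕ → ℕ → ℕ → Bool := onCell 536870912 536870912 0 1230186008 697932185 42949674
    (rowB 3 eng mog cd0q1 cd6q3 pd3 0 true false false .dn 1 3 3 (qsf 536870912 536870912 0 1230186008 3) ndB0q1 ndB6q3 pcB3 Cut.none Ext.none)

def k0_mm_133 : ∃ t, chk3 f_mm_133 t 1 1 1 = true :=
  ⟨(l 4), by decide +kernel⟩

theorem c_mm_133 : CertB 536870912 536870912 0 1230186008 697932185 42949674 3 eng mog cd0q1 cd6q3 pd3 true false false .dn 1 3 3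
    ndB0q1 ndB6q3 pcB3 Cut.none Ext.none :=
  certB0 (fam := true) (s1 := false) (s2 := false) (a := 1) (b := 3) (c := 3) (cn := .dn) (n1 := ndB0q1) (n2 := ndB6q3) (pc := pcB3) (cut := Cut.none) (xt := Ext.none) (P1 := 536870912) (W1 := 536870912) (P2 := 0) (W2 := 1230186008) (P3 := 697932185) (W3 := 42949674) (N0 := 3) (En := eng) (mo := mog) (C1 := cd0q1) (C2 := cd6q3) (C3 := pd3)
    rfl k0_mm_133

noncomputable def f_mm_202 : ℕ → ℕ → ℕ → ℕ → Bool := onCell 0 536870912 0 536870912 697932185 42949674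
    (rowB 3 eng mog cd0q2 cd6q0 pd2 0 true false false .pp 2 0 2 (qsf 0 536870912 0 536870912 2) ndB0q2 ndB6q0 pcB2 Cut.none Ext.none)

def k0_mm_202 : ∃ t, chk3 f_mm_202 t 1 1 1 = true :=
  ⟨(b (a (l 4) (l 4)) (l 4)), by decide +kernel⟩

theorem c_mm_202 : CertB 0 536870912 0 536870912 697932185 42949674 3 eng mog cd0q2 cd6q0 pd2 true false false .pp 2 0 2
    ndB0q2 ndB6q0 pcB2 Cut.none Ext.none :=
  certB0 (fam := true) (s1 := false) (s2 := false) (a := 2) (b := 0) (c := 2) (cn := .pp) (n1 := ndB0q2) (n2 := ndB6q0) (pc := pcB2) (cut := Cut.none) (xt := Ext.none) (P1 := 0) (W1 := 536870912) (P2 := 0) (W2 := 536870912) (P3 := 697932185) (W3 := 42949674) (N0 := 3) (En := eng) (mo := mog) (C1 := cd0q2) (C2 := cd6q0) (C3 := pd2)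
    rfl k0_mm_202

noncomputable def f_mm_203 : ℕ → ℕ → ℕ → ℕ → Bool := onCell 0 536870912 1610612736 536870912 697932185 42949674
    (rowB 3 eng mog cd0q2 cd6q0 pd3 1 true false false .up 2 0 3 (qsf 0 536870912 0 536870912 3) ndB0q2 ndB6q0 pcB3 Cut.none Ext.none)

def k0_mm_203 : ∃ t, chk3 f_mm_203 t 1 1 1 = true :=
  ⟨(l 4), by decide +kernel⟩

theorem c_mm_203 : CertB 0 536870912 0 536870912 697932185 42949674 3 eng mog cd0q2 cd6q0 pd3 true false false .up 2 0 3
    ndB0q2 ndB6q0 pcB3 Cut.none Ext.none :=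
  certB1 (fam := true) (s1 := false) (s2 := false) (a := 2) (b := 0) (c := 3) (cn := .up) (n1 := ndB0q2) (n2 := ndB6q0) (pc := pcB3) (cut := Cut.none) (xt := Ext.none) (P1 := 0) (W1 := 536870912) (P2 := 0) (W2 := 536870912) (P3 := 697932185) (W3 := 42949674) (N0 := 3) (En := eng) (mo := mog) (C1 := cd0q2) (C2 := cd6q0) (C3 := pd3)
    rfl (fun _ => rfl) k0_mm_203

noncomputable def f_mm_213 : ℕ → ℕ → ℕ → ℕ → Bool := onCell 0 536870912 536870912 536870912 697932185 42949674
    (rowB 3 eng mog cd0q2 cd6q1 pd3 0 true false false .pnn 2 1 3 (qsf 0 536870912 536870912 536870912 3) ndB0q2 ndB6q1 pcB3 Cut.none Ext.none)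

def k0_mm_213 : ∃ t, chk3 f_mm_213 t 1 1 1 = true :=
  ⟨(l 4), by decide +kernel⟩

theorem c_mm_213 : CertB 0 536870912 536870912 536870912 697932185 42949674 3 eng mog cd0q2 cd6q1 pd3 true false false .pnn 2 1 3
    ndB0q2 ndB6q1 pcB3 Cut.none Ext.none :=
  certB0 (fam := true) (s1 := false) (s2 := false) (a := 2) (b := 1) (c := 3) (cn := .pnn) (n1 := ndB0q2) (n2 := ndB6q1) (pc := pcB3) (cut := Cut.none) (xt := Ext.none) (P1 := 0) (W1 := 536870912) (P2 := 536870912) (W2 := 536870912) (P3 := 697932185) (W3 := 42949674) (N0 := 3) (En := eng) (mo := mog) (C1 := cd0q2) (C2 := cd6q1) (C3 := pd3)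
    rfl k0_mm_213

end Pool.Agent.Strip051.G.I6500_6900.Tab.C.BA06

namespace Pool.Agent.Strip051.G.I6500_6900.Tab.C.BA07

open Pool.Agent.Strip051.PB Pool.Agent.Strip051.PB.T
open Pool.Agent.Strip051.G.I6500_6900.Tab

noncomputable def cut_pp_001 : Cut := Cut.of [[⟨3, 0, 0, 1449551462⟩]]

noncomputable def f_pp_001 : ℕ → ℕ → ℕ → ℕ → Bool := onCell 0 536870912 0 536870912 697932185 42949674
    (rowB 3 eng mog cd0q0 cd7q0 pd1 0 true true true .up 0 0 1 (qsf 0 536870912 0 536870912 1) ndB0q0 ndB7q0 pcB1 cut_pp_001 Ext.none)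

def k0_pp_001 : ∃ t, chk3 f_pp_001 t 1 1 1 = true :=
  ⟨(l 4), by decide +kernel⟩

theorem c_pp_001 : CertB 0 536870912 0 536870912 697932185 42949674 3 eng mog cd0q0 cd7q0 pd1 true true true .up 0 0 1
    ndB0q0 ndB7q0 pcB1 cut_pp_001 Ext.none :=
  certB0 (fam := true) (s1 := true) (s2 := true) (a := 0) (b := 0) (c := 1) (cn := .up) (n1 := ndB0q0) (n2 := ndB7q0) (pc := pcB1) (cut := cut_pp_001) (xt := Ext.none) (P1 := 0) (W1 := 536870912) (P2 := 0) (W2 := 536870912) (P3 := 697932185) (W3 := 42949674) (N0 := 3) (En := eng) (mo := mog) (C1 := cd0q0) (C2 := cd7q0) (C3 := pd1)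
    rfl k0_pp_001

noncomputable def cut_pp_011 : Cut := Cut.of [[⟨3, 0, 0, 1449551462⟩]]

noncomputable def f_pp_011 : ℕ → ℕ → ℕ → ℕ → Bool := onCell 0 536870912 536870912 536870912 697932185 42949674
    (rowB 3 eng mog cd0q0 cd7q1 pd1 0 true true true .pnn 0 1 1 (qsf 0 536870912 536870912 536870912 1) ndB0q0 ndB7q1 pcB1 cut_pp_011 Ext.none)

def k0_pp_011 : ∃ t, chk3 f_pp_011 t 1 1 1 = true :=
  ⟨(l 4), by decide +kernel⟩

theorem c_pp_011 : CertB 0 536870912 536870912 536870912 697932185 42949674 3 eng mog cd0q0 cd7q1 pd1 true true true .pnn 0 1 1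
    ndB0q0 ndB7q1 pcB1 cut_pp_011 Ext.none :=
  certB0 (fam := true) (s1 := true) (s2 := true) (a := 0) (b := 1) (c := 1) (cn := .pnn) (n1 := ndB0q0) (n2 := ndB7q1) (pc := pcB1) (cut := cut_pp_011) (xt := Ext.none) (P1 := 0) (W1 := 536870912) (P2 := 536870912) (W2 := 536870912) (P3 := 697932185) (W3 := 42949674) (N0 := 3) (En := eng) (mo := mog) (C1 := cd0q0) (C2 := cd7q1) (C3 := pd1)
    rfl k0_pp_011

noncomputable def cut_pp_012 : Cut := Cut.of [[⟨3, 0, 0, 1449551462⟩]]

noncomputable def f_pp_012 : ℕ → ℕ → ℕ → ℕ → Bool := onCell 0 536870912 536870912 536870912 697932185 42949674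
    (rowB 3 eng mog cd0q0 cd7q1 pd2 0 true true true .pnp 0 1 2 (qsf 0 536870912 536870912 536870912 2) ndB0q0 ndB7q1 pcB2 cut_pp_012 Ext.none)

def k0_pp_012 : ∃ t, chk3 f_pp_012 t 1 1 1 = true :=
  ⟨(l 4), by decide +kernel⟩

theorem c_pp_012 : CertB 0 536870912 536870912 536870912 697932185 42949674 3 eng mog cd0q0 cd7q1 pd2 true true true .pnp 0 1 2
    ndB0q0 ndB7q1 pcB2 cut_pp_012 Ext.none :=
  certB0 (fam := true) (s1 := true) (s2 := true) (a := 0) (b := 1) (c := 2) (cn := .pnp) (n1 := ndB0q0) (n2 := ndB7q1) (pc := pcB2) (cut := cut_pp_012) (xt := Ext.none) (P1 := 0) (W1 := 536870912) (P2 := 536870912) (W2 := 536870912) (P3 := 697932185) (W3 := 42949674) (N0 := 3) (En := eng) (mo := mog) (C1 := cd0q0) (C2 := cd7q1) (C3 := pd2)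
    rfl k0_pp_012

noncomputable def cut_pp_022 : Cut := Cut.of [[⟨3, 0, 0, 1449551462⟩]]

noncomputable def f_pp_022 : ℕ → ℕ → ℕ → ℕ → Bool := onCell 0 536870912 1073741824 536870912 697932185 42949674
    (rowB 3 eng mog cd0q0 cd7q2 pd2 0 true true true .pp 0 2 2 (qsf 0 536870912 1073741824 536870912 2) ndB0q0 ndB7q2 pcB2 cut_pp_022 Ext.none)

def k0_pp_022 : ∃ t, chk3 f_pp_022 t 1 1 1 = true :=
  ⟨(l 4), by decide +kernel⟩

theorem c_pp_022 : CertB 0 536870912 1073741824 536870912 697932185 42949674 3 eng mog cd0q0 cd7q2 pd2 true true true .pp 0 2 2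
    ndB0q0 ndB7q2 pcB2 cut_pp_022 Ext.none :=
  certB0 (fam := true) (s1 := true) (s2 := true) (a := 0) (b := 2) (c := 2) (cn := .pp) (n1 := ndB0q0) (n2 := ndB7q2) (pc := pcB2) (cut := cut_pp_022) (xt := Ext.none) (P1 := 0) (W1 := 536870912) (P2 := 1073741824) (W2 := 536870912) (P3 := 697932185) (W3 := 42949674) (N0 := 3) (En := eng) (mo := mog) (C1 := cd0q0) (C2 := cd7q2) (C3 := pd2)
    rfl k0_pp_022

noncomputable def cut_pp_023 : Cut := Cut.of [[⟨3, 0, 0, 1449551462⟩]]

noncomputable def f_pp_023 : ℕ → ℕ → ℕ → ℕ → Bool := onCell 0 536870912 1073741824 536870912 697932185 42949674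
    (rowB 3 eng mog cd0q0 cd7q2 pd3 0 true true true .up 0 2 3 (qsf 0 536870912 1073741824 536870912 3) ndB0q0 ndB7q2 pcB3 cut_pp_023 Ext.none)

def k0_pp_023 : ∃ t, chk3 f_pp_023 t 1 1 1 = true :=
  ⟨(l 4), by decide +kernel⟩

theorem c_pp_023 : CertB 0 536870912 1073741824 536870912 697932185 42949674 3 eng mog cd0q0 cd7q2 pd3 true true true .up 0 2 3
    ndB0q0 ndB7q2 pcB3 cut_pp_023 Ext.none :=
  certB0 (fam := true) (s1 := true) (s2 := true) (a := 0) (b := 2) (c := 3) (cn := .up) (n1 := ndB0q0) (n2 := ndB7q2) (pc := pcB3) (cut := cut_pp_023) (xt := Ext.none) (P1 := 0) (W1 := 536870912) (P2 := 1073741824) (W2 := 536870912) (P3 := 697932185) (W3 := 42949674) (N0 := 3) (En := eng) (mo := mog) (C1 := cd0q0) (C2 := cd7q2) (C3 := pd3)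
    rfl k0_pp_023

noncomputable def cut_pp_033 : Cut := Cut.of [[⟨3, 0, 0, 1449551462⟩]]

noncomputable def f_pp_033 : ℕ → ℕ → ℕ → ℕ → Bool := onCell 0 536870912 0 1230186008 697932185 42949674
    (rowB 3 eng mog cd0q0 cd7q3 pd3 0 true true true .pnn 0 3 3 (qsf 0 536870912 0 1230186008 3) ndB0q0 ndB7q3 pcB3 cut_pp_033 Ext.none)

def k0_pp_033 : ∃ t, chk3 f_pp_033 t 1 1 1 = true :=
  ⟨(l 4), by decide +kernel⟩

theorem c_pp_033 : CertB 0 536870912 0 1230186008 697932185 42949674 3 eng mog cd0q0 cd7q3 pd3 true true true .pnn 0 3 3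
    ndB0q0 ndB7q3 pcB3 cut_pp_033 Ext.none :=
  certB0 (fam := true) (s1 := true) (s2 := true) (a := 0) (b := 3) (c := 3) (cn := .pnn) (n1 := ndB0q0) (n2 := ndB7q3) (pc := pcB3) (cut := cut_pp_033) (xt := Ext.none) (P1 := 0) (W1 := 536870912) (P2 := 0) (W2 := 1230186008) (P3 := 697932185) (W3 := 42949674) (N0 := 3) (En := eng) (mo := mog) (C1 := cd0q0) (C2 := cd7q3) (C3 := pd3)
    rfl k0_pp_033

noncomputable def cut_pp_101 : Cut := Cut.of [[⟨3, 0, 0, 1449551462⟩]]

noncomputable def f_pp_101 : ℕ → ℕ → ℕ → ℕ → Bool := onCell 536870912 536870912 0 536870912 697932185 42949674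
    (rowB 3 eng mog cd0q1 cd7q0 pd1 0 true true true .npn 1 0 1 (qsf 536870912 536870912 0 536870912 1) ndB0q1 ndB7q0 pcB1 cut_pp_101 Ext.none)

def k0_pp_101 : ∃ t, chk3 f_pp_101 t 1 1 1 = true :=
  ⟨(l 4), by decide +kernel⟩

theorem c_pp_101 : CertB 536870912 536870912 0 536870912 697932185 42949674 3 eng mog cd0q1 cd7q0 pd1 true true true .npn 1 0 1
    ndB0q1 ndB7q0 pcB1 cut_pp_101 Ext.none :=
  certB0 (fam := true) (s1 := true) (s2 := true) (a := 1) (b := 0) (c := 1) (cn := .npn) (n1 := ndB0q1) (n2 := ndB7q0) (pc := pcB1) (cut := cut_pp_101) (xt := Ext.none) (P1 := 536870912) (W1 := 536870912) (P2 := 0) (W2 := 536870912) (P3 := 697932185) (W3 := 42949674) (N0 := 3) (En := eng) (mo := mog) (C1 := cd0q1) (C2 := cd7q0) (C3 := pd1)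
    rfl k0_pp_101

noncomputable def cut_pp_102 : Cut := Cut.of [[⟨3, 0, 0, 1449551462⟩]]

noncomputable def f_pp_102 : ℕ → ℕ → ℕ → ℕ → Bool := onCell 536870912 536870912 0 536870912 697932185 42949674
    (rowB 3 eng mog cd0q1 cd7q0 pd2 0 true true true .npp 1 0 2 (qsf 536870912 536870912 0 536870912 2) ndB0q1 ndB7q0 pcB2 cut_pp_102 Ext.none)

def k0_pp_102 : ∃ t, chk3 f_pp_102 t 1 1 1 = true :=
  ⟨(l 4), by decide +kernel⟩

theorem c_pp_102 : CertB 536870912 536870912 0 536870912 697932185 42949674 3 eng mog cd0q1 cd7q0 pd2 true true true .npp 1 0 2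
    ndB0q1 ndB7q0 pcB2 cut_pp_102 Ext.none :=
  certB0 (fam := true) (s1 := true) (s2 := true) (a := 1) (b := 0) (c := 2) (cn := .npp) (n1 := ndB0q1) (n2 := ndB7q0) (pc := pcB2) (cut := cut_pp_102) (xt := Ext.none) (P1 := 536870912) (W1 := 536870912) (P2 := 0) (W2 := 536870912) (P3 := 697932185) (W3 := 42949674) (N0 := 3) (En := eng) (mo := mog) (C1 := cd0q1) (C2 := cd7q0) (C3 := pd2)
    rfl k0_pp_102

noncomputable def cut_pp_112 : Cut := Cut.of [[⟨3, 0, 0, 1449551462⟩]]

noncomputable def f_pp_112 : ℕ → ℕ → ℕ → ℕ → Bool := onCell 536870912 536870912 536870912 536870912 697932185 42949674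
    (rowB 3 eng mog cd0q1 cd7q1 pd2 0 true true true .dn 1 1 2 (qsf 536870912 536870912 536870912 536870912 2) ndB0q1 ndB7q1 pcB2 cut_pp_112 Ext.none)

def k0_pp_112 : ∃ t, chk3 f_pp_112 t 1 1 1 = true :=
  ⟨(l 4), by decide +kernel⟩

theorem c_pp_112 : CertB 536870912 536870912 536870912 536870912 697932185 42949674 3 eng mog cd0q1 cd7q1 pd2 true true true .dn 1 1 2
    ndB0q1 ndB7q1 pcB2 cut_pp_112 Ext.none :=
  certB0 (fam := true) (s1 := true) (s2 := true) (a := 1) (b := 1) (c := 2) (cn := .dn) (n1 := ndB0q1) (n2 := ndB7q1) (pc := pcB2) (cut := cut_pp_112) (xt := Ext.none) (P1 := 536870912) (W1 := 536870912) (P2 := 536870912) (W2 := 536870912) (P3 := 697932185) (W3 := 42949674) (N0 := 3) (En := eng) (mo := mog) (C1 := cd0q1) (C2 := cd7q1) (C3 := pd2)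
    rfl k0_pp_112

noncomputable def cut_pp_113 : Cut := Cut.of [[⟨3, 0, 0, 1449551462⟩]]

noncomputable def f_pp_113 : ℕ → ℕ → ℕ → ℕ → Bool := onCell 536870912 536870912 536870912 536870912 697932185 42949674
    (rowB 3 eng mog cd0q1 cd7q1 pd3 0 true true true .nn 1 1 3 (qsf 536870912 536870912 536870912 536870912 3) ndB0q1 ndB7q1 pcB3 cut_pp_113 Ext.none)

def k0_pp_113 : ∃ t, chk3 f_pp_113 t 1 1 1 = true :=
  ⟨(l 4), by decide +kernel⟩

theorem c_pp_113 : CertB 536870912 536870912 536870912 536870912 697932185 42949674 3 eng mog cd0q1 cd7q1 pd3 true true true .nn 1 1 3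
    ndB0q1 ndB7q1 pcB3 cut_pp_113 Ext.none :=
  certB0 (fam := true) (s1 := true) (s2 := true) (a := 1) (b := 1) (c := 3) (cn := .nn) (n1 := ndB0q1) (n2 := ndB7q1) (pc := pcB3) (cut := cut_pp_113) (xt := Ext.none) (P1 := 536870912) (W1 := 536870912) (P2 := 536870912) (W2 := 536870912) (P3 := 697932185) (W3 := 42949674) (N0 := 3) (En := eng) (mo := mog) (C1 := cd0q1) (C2 := cd7q1) (C3 := pd3)
    rfl k0_pp_113

noncomputable def cut_pp_123 : Cut := Cut.of [[⟨3, 0, 0, 1449551462⟩]]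

noncomputable def f_pp_123 : ℕ → ℕ → ℕ → ℕ → Bool := onCell 536870912 536870912 1073741824 536870912 697932185 42949674
    (rowB 3 eng mog cd0q1 cd7q2 pd3 0 true true true .npn 1 2 3 (qsf 536870912 536870912 1073741824 536870912 3) ndB0q1 ndB7q2 pcB3 cut_pp_123 Ext.none)

def k0_pp_123 : ∃ t, chk3 f_pp_123 t 1 1 1 = true :=
  ⟨(l 4), by decide +kernel⟩

theorem c_pp_123 : CertB 536870912 536870912 1073741824 536870912 697932185 42949674 3 eng mog cd0q1 cd7q2 pd3 true true true .npn 1 2 3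
    ndB0q1 ndB7q2 pcB3 cut_pp_123 Ext.none :=
  certB0 (fam := true) (s1 := true) (s2 := true) (a := 1) (b := 2) (c := 3) (cn := .npn) (n1 := ndB0q1) (n2 := ndB7q2) (pc := pcB3) (cut := cut_pp_123) (xt := Ext.none) (P1 := 536870912) (W1 := 536870912) (P2 := 1073741824) (W2 := 536870912) (P3 := 697932185) (W3 := 42949674) (N0 := 3) (En := eng) (mo := mog) (C1 := cd0q1) (C2 := cd7q2) (C3 := pd3)
    rfl k0_pp_123

noncomputable def cut_pp_133 : Cut := Cut.of [[⟨3, 0, 0, 1449551462⟩]]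

noncomputable def f_pp_133 : ℕ → ℕ → ℕ → ℕ → Bool := onCell 536870912 536870912 0 1230186008 697932185 42949674
    (rowB 3 eng mog cd0q1 cd7q3 pd3 0 true true true .dn 1 3 3 (qsf 536870912 536870912 0 1230186008 3) ndB0q1 ndB7q3 pcB3 cut_pp_133 Ext.none)

def k0_pp_133 : ∃ t, chk3 f_pp_133 t 1 1 1 = true :=
  ⟨(l 4), by decide +kernel⟩

theorem c_pp_133 : CertB 536870912 536870912 0 1230186008 697932185 42949674 3 eng mog cd0q1 cd7q3 pd3 true true true .dn 1 3 3
    ndB0q1 ndB7q3 pcB3 cut_pp_133 Ext.none :=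
  certB0 (fam := true) (s1 := true) (s2 := true) (a := 1) (b := 3) (c := 3) (cn := .dn) (n1 := ndB0q1) (n2 := ndB7q3) (pc := pcB3) (cut := cut_pp_133) (xt := Ext.none) (P1 := 536870912) (W1 := 536870912) (P2 := 0) (W2 := 1230186008) (P3 := 697932185) (W3 := 42949674) (N0 := 3) (En := eng) (mo := mog) (C1 := cd0q1) (C2 := cd7q3) (C3 := pd3)
    rfl k0_pp_133

noncomputable def cut_pp_202 : Cut := Cut.of [[⟨3, 0, 0, 1449551462⟩]]

noncomputable def f_pp_202 : ℕ → ℕ → ℕ → ℕ → Bool := onCell 0 536870912 0 536870912 697932185 42949674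
    (rowB 3 eng mog cd0q2 cd7q0 pd2 0 true true true .pp 2 0 2 (qsf 0 536870912 0 536870912 2) ndB0q2 ndB7q0 pcB2 cut_pp_202 Ext.none)

def k0_pp_202 : ∃ t, chk3 f_pp_202 t 1 1 1 = true :=
  ⟨(l 4), by decide +kernel⟩

theorem c_pp_202 : CertB 0 536870912 0 536870912 697932185 42949674 3 eng mog cd0q2 cd7q0 pd2 true true true .pp 2 0 2
    ndB0q2 ndB7q0 pcB2 cut_pp_202 Ext.none :=
  certB0 (fam := true) (s1 := true) (s2 := true) (a := 2) (b := 0) (c := 2) (cn := .pp) (n1 := ndB0q2) (n2 := ndB7q0) (pc := pcB2) (cut := cut_pp_202) (xt := Ext.none) (P1 := 0) (W1 := 536870912) (P2 := 0) (W2 := 536870912) (P3 := 697932185) (W3 := 42949674) (N0 := 3) (En := eng) (mo := mog) (C1 := cd0q2) (C2 := cd7q0) (C3 := pd2)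
    rfl k0_pp_202

noncomputable def cut_pp_203 : Cut := Cut.of [[⟨3, 0, 0, 1449551462⟩]]

noncomputable def f_pp_203 : ℕ → ℕ → ℕ → ℕ → Bool := onCell 0 536870912 0 536870912 697932185 42949674
    (rowB 3 eng mog cd0q2 cd7q0 pd3 0 true true true .up 2 0 3 (qsf 0 536870912 0 536870912 3) ndB0q2 ndB7q0 pcB3 cut_pp_203 Ext.none)

def k0_pp_203 : ∃ t, chk3 f_pp_203 t 1 1 1 = true :=
  ⟨(l 4), by decide +kernel⟩

theorem c_pp_203 : CertB 0 536870912 0 536870912 697932185 42949674 3 eng mog cd0q2 cd7q0 pd3 true true true .up 2 0 3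
    ndB0q2 ndB7q0 pcB3 cut_pp_203 Ext.none :=
  certB0 (fam := true) (s1 := true) (s2 := true) (a := 2) (b := 0) (c := 3) (cn := .up) (n1 := ndB0q2) (n2 := ndB7q0) (pc := pcB3) (cut := cut_pp_203) (xt := Ext.none) (P1 := 0) (W1 := 536870912) (P2 := 0) (W2 := 536870912) (P3 := 697932185) (W3 := 42949674) (N0 := 3) (En := eng) (mo := mog) (C1 := cd0q2) (C2 := cd7q0) (C3 := pd3)
    rfl k0_pp_203

noncomputable def cut_pp_213 : Cut := Cut.of [[⟨3, 0, 0, 1449551462⟩]]

noncomputable def f_pp_213 : ℕ → ℕ → ℕ → ℕ → Bool := onCell 0 536870912 536870912 536870912 697932185 42949674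
    (rowB 3 eng mog cd0q2 cd7q1 pd3 0 true true true .pnn 2 1 3 (qsf 0 536870912 536870912 536870912 3) ndB0q2 ndB7q1 pcB3 cut_pp_213 Ext.none)

def k0_pp_213 : ∃ t, chk3 f_pp_213 t 1 1 1 = true :=
  ⟨(l 4), by decide +kernel⟩

theorem c_pp_213 : CertB 0 536870912 536870912 536870912 697932185 42949674 3 eng mog cd0q2 cd7q1 pd3 true true true .pnn 2 1 3
    ndB0q2 ndB7q1 pcB3 cut_pp_213 Ext.none :=
  certB0 (fam := true) (s1 := true) (s2 := true) (a := 2) (b := 1) (c := 3) (cn := .pnn) (n1 := ndB0q2) (n2 := ndB7q1) (pc := pcB3) (cut := cut_pp_213) (xt := Ext.none) (P1 := 0) (W1 := 536870912) (P2 := 536870912) (W2 := 536870912) (P3 := 697932185) (W3 := 42949674) (N0 := 3) (En := eng) (mo := mog) (C1 := cd0q2) (C2 := cd7q1) (C3 := pd3)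
    rfl k0_pp_213

noncomputable def cut_pm_001 : Cut := Cut.of [[⟨3, 0, 0, 1449551462⟩]]

noncomputable def f_pm_001 : ℕ → ℕ → ℕ → ℕ → Bool := onCell 0 536870912 0 536870912 697932185 42949674
    (rowB 3 eng mog cd0q0 cd7q0 pd1 0 true true false .up 0 0 1 (qsf 0 536870912 0 536870912 1) ndB0q0 ndB7q0 pcB1 cut_pm_001 Ext.none)

def k0_pm_001 : ∃ t, chk3 f_pm_001 t 1 1 1 = true :=
  ⟨(a (l 3) (b (l 6) (a (l 6) (b (l 6) (a (l 6) (b (l 6) (a (l 6) (b (l 6) (l 16148264))))))))), by decide +kernel⟩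

theorem c_pm_001 : CertB 0 536870912 0 536870912 697932185 42949674 3 eng mog cd0q0 cd7q0 pd1 true true false .up 0 0 1
    ndB0q0 ndB7q0 pcB1 cut_pm_001 Ext.none :=
  certB0 (fam := true) (s1 := true) (s2 := false) (a := 0) (b := 0) (c := 1) (cn := .up) (n1 := ndB0q0) (n2 := ndB7q0) (pc := pcB1) (cut := cut_pm_001) (xt := Ext.none) (P1 := 0) (W1 := 536870912) (P2 := 0) (W2 := 536870912) (P3 := 697932185) (W3 := 42949674) (N0 := 3) (En := eng) (mo := mog) (C1 := cd0q0) (C2 := cd7q0) (C3 := pd1)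
    rfl k0_pm_001

noncomputable def cut_pm_011 : Cut := Cut.of [[⟨3, 0, 0, 1449551462⟩], [⟨0, 0, 0, 53687091⟩, ⟨1, 1, 0, 53687091⟩, ⟨2, 1, 0, 53687091⟩]]

noncomputable def f_pm_011 : ℕ → ℕ → ℕ → ℕ → Bool := onCell 0 536870912 536870912 536870912 697932185 42949674
    (rowB 3 eng mog cd0q0 cd7q1 pd1 1 true true false .pnn 0 1 1 (qsf 0 536870912 536870912 536870912 1) ndB0q0 ndB7q1 pcB1 cut_pm_011 Ext.none)

def k0_pm_011 : ∃ t, chk3 f_pm_011 t 1 1 1 = true :=
  ⟨(b (l 6) (a (l 6) (b (l 6) (a (l 6) (b (l 6) (a (l 6) (b (l 6) (a (l 6) (l 16128408))))))))), by decide +kernel⟩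

theorem c_pm_011 : CertB 0 536870912 536870912 536870912 697932185 42949674 3 eng mog cd0q0 cd7q1 pd1 true true false .pnn 0 1 1
    ndB0q0 ndB7q1 pcB1 cut_pm_011 Ext.none :=
  certB1 (fam := true) (s1 := true) (s2 := false) (a := 0) (b := 1) (c := 1) (cn := .pnn) (n1 := ndB0q0) (n2 := ndB7q1) (pc := pcB1) (cut := cut_pm_011) (xt := Ext.none) (P1 := 0) (W1 := 536870912) (P2 := 536870912) (W2 := 536870912) (P3 := 697932185) (W3 := 42949674) (N0 := 3) (En := eng) (mo := mog) (C1 := cd0q0) (C2 := cd7q1) (C3 := pd1)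
    rfl (fun _ => rfl) k0_pm_011

noncomputable def cut_pm_012 : Cut := Cut.of [[⟨3, 0, 0, 1449551462⟩], [⟨0, 0, 0, 67108864⟩, ⟨1, 1, 0, 67108864⟩, ⟨2, 1, 0, 67108864⟩]]

noncomputable def f_pm_012 : ℕ → ℕ → ℕ → ℕ → Bool := onCell 0 536870912 1073741824 536870912 697932185 42949674
    (rowB 3 eng mog cd0q0 cd7q1 pd2 1 true true false .pnp 0 1 2 (qsf 0 536870912 536870912 536870912 2) ndB0q0 ndB7q1 pcB2 cut_pm_012 Ext.none)

def k0_pm_012 : ∃ t, chk3 f_pm_012 t 1 4 1 = true :=
  ⟨(a (l 6) (a (a (l 6) (b (l 6) (b (l 6) (a (l 16172504) (l 16143296))))) (a (b (a (l 6) (b (l 6) (l 16137176))) (a (b (l 16154200) (l 16111712)) (b (l 16108640) (l 16072808)))) (b (a (b (l 16112464) (l 16077520)) (b (l 16060832) (l 16018944))) (a (l 16062696) (l 15984016)))))), by decide +kernel⟩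

def k1_pm_012 : ∃ t, chk3 f_pm_012 t 1 5 1 = true :=
  ⟨(a (a (b (l 6) (l 2)) (b (a (l 6) (b (l 6) (a (l 6) (b (l 6) (a (l 16086888) (l 16083112)))))) (a (b (b (l 6) (l 2)) (l 2)) (a (b (a (b (b (l 6) (l 16026104)) (a (l 2) (l 15985696))) (b (b (l 16053320) (l 16028064)) (b (l 16002240) (l 15975864)))) (a (l 2) (b (a (l 2) (l 15937136)) (l 2)))) (b (a (b (l 16040760) (c (l 16012944) (l 15971824))) (b (l 16040032) (l 15995064))) (a (b (a (l 15940664) (l 88145900935)) (a (l 2) (l 15892376))) (b (c (l 15970512) (l 15925464)) (c (l 65597236903) (l 15874624))))))))) (a (b (a (a (b (l 6) (b (l 16113216) (l 16076456))) (b (b (l 16158144) (b (l 16135368) (b (l 16123912) (l 16116592)))) (b (l 16096656) (l 16064616)))) (b (a (b (l 16131840) (b (l 16111240) (l 16182544))) (b (l 16105728) (b (l 16086936) (l 16075928)))) (a (l 16105688) (l 16045408)))) (a (a (b (a (l 16017904) (l 16017080)) (a (b (l 15952960) (c (l 15931664) (l 15882776))) (b (l 15956472) (l 15913992))))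 (b (a (l 16015344) (l 16012664)) (a (l 15939112) (l 15941736)))) (a (b (l 16007688) (l 15944880)) (b (l 16001264) (l 15948792))))) (b (a (b (b (a (l 16076912) (l 16042152)) (b (l 16043496) (a (l 16049768) (l 16017400)))) (a (l 16023392) (l 15994968))) (b (b (a (l 15999888) (l 15949216)) (a (l 16109720) (l 16019336))) (a (l 15960744) (l 15918712)))) (a (a (l 15971968) (l 15962968)) (a (l 15949504) (l 15932464)))))), by decide +kernel⟩

def k2_pm_012 : ∃ t, chk3 f_pm_012 t 1 3 1 = true :=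
  ⟨(a (a (l 2) (b (a (l 2) (b (a (l 2) (b (a (l 2) (b (l 15911296) (l 2))) (l 2))) (l 2))) (l 2))) (a (b (a (b (a (b (a (b (l 76871490391) (l 15810632)) (b (l 15869808) (l 95661882519))) (a (l 2) (b (l 15776336) (l 2)))) (b (a (b (l 15878024) (l 15835344)) (l 15865200)) (a (b (l 105862369527) (l 15745176)) (b (l 15804152) (l 108546677415))))) (a (l 2) (b (a (l 2) (b (l 15717328) (l 2))) (l 2)))) (b (a (b (a (l 15872576) (l 15879584)) (a (b (l 15815880) (l 15776408)) (l 15808600))) (b (l 15889816) (l 15867616))) (a (b (a (b (l 119820919671) (l 95124778759)) (b (l 15752240) (l 143980074215))) (a (l 2) (l 151496154247))) (b (a (b (l 15767728) (l 15731328)) (l 15765232)) (a (l 137000771927) (l 161696789911)))))) (a (l 2) (b (a (l 2) (b (a (l 2) (l 230416147351)) (l 2))) (l 2)))) (b (a (b (a (b (l 15901216) (l 15845944)) (b (l 15909024) (l 15862760))) (a (b (l 15786392) (a (l 15714440) (l 15732384))) (b (l 15811864) (l 15757480)))) (b (a (l 15895416) (l 15901416))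 (a (l 15875072) (l 15836880)))) (a (b (a (b (a (l 169749776567) (l 160623012871)) (a (l 2) (l 241153527799))) (b (a (l 15689984) (l 15710808)) (a (l 186929624727) (l 15653064)))) (a (l 2) (b (l 250280329847) (l 2)))) (b (a (b (l 15740448) (l 15690120)) (b (l 15778336) (l 15736536))) (a (b (l 173507907543) (l 220752446951)) (b (l 15693584) (l 198204013639)))))))), by decide +kernel⟩

theorem s3_pm_012 : ∃ t, chk3 f_pm_012 t 1 2 1 = true := ex3_b k0_pm_012 k1_pm_012

theorem s4_pm_012 : ∃ t, chk3 f_pm_012 t 1 1 1 = true := ex3_b s3_pm_012 k2_pm_012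

theorem c_pm_012 : CertB 0 536870912 536870912 536870912 697932185 42949674 3 eng mog cd0q0 cd7q1 pd2 true true false .pnp 0 1 2
    ndB0q0 ndB7q1 pcB2 cut_pm_012 Ext.none :=
  certB1 (fam := true) (s1 := true) (s2 := false) (a := 0) (b := 1) (c := 2) (cn := .pnp) (n1 := ndB0q0) (n2 := ndB7q1) (pc := pcB2) (cut := cut_pm_012) (xt := Ext.none) (P1 := 0) (W1 := 536870912) (P2 := 536870912) (W2 := 536870912) (P3 := 697932185) (W3 := 42949674) (N0 := 3) (En := eng) (mo := mog) (C1 := cd0q0) (C2 := cd7q1) (C3 := pd2)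
    rfl (fun _ => rfl) s4_pm_012

noncomputable def cut_pm_022 : Cut := Cut.of [[⟨3, 0, 0, 1449551462⟩], [⟨0, 0, 0, 67108864⟩, ⟨1, 1, 0, 67108864⟩, ⟨2, 1, 0, 67108864⟩]]

noncomputable def f_pm_022 : ℕ → ℕ → ℕ → ℕ → Bool := onCell 0 536870912 1073741824 536870912 697932185 42949674
    (rowB 3 eng mog cd0q0 cd7q2 pd2 0 true true false .pp 0 2 2 (qsf 0 536870912 1073741824 536870912 2) ndB0q0 ndB7q2 pcB2 cut_pm_022 Ext.none)

def k0_pm_022 : ∃ t, chk3 f_pm_022 t 2 1 1 = true :=
  ⟨(b (a (b (b (l 6) (a (l 6) (a (l 6) (b (l 6) (l 16231976))))) (b (a (l 6) (b (a (l 6) (l 16153528)) (a (l 16193056) (l 16122336)))) (a (b (a (l 6) (l 16224184)) (a (l 16245464) (l 16199688))) (b (a (l 16155112) (l 16094928)) (l 16240280))))) (b (b (a (a (l 6) (b (b (l 6) (a (l 6) (l 16074000))) (b (l 16106320) (l 16072352)))) (b (a (b (a (c (l 16053240) (l 16016112)) (c (l 16006480) (l 15965264))) (a (l 16025472) (l 15980104))) (b (a (c (l 15963392) (l 15918152)) (c (l 15923976)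 (l 15874768))) (a (l 15938288) (l 15900048)))) (a (b (l 16058280) (l 15988936)) (b (l 15939144) (l 15918152))))) (a (b (a (b (l 16147640) (l 16130856)) (l 16159680)) (a (l 16108152) (l 16035960))) (b (a (l 16002136) (l 15919384)) (a (l 15974496) (l 15923880))))) (a (b (b (a (l 16082168) (l 16021352)) (a (l 16061000) (l 16009560))) (b (l 16167472) (l 16009280))) (b (a (b (l 15971120) (l 15969952)) (l 15934856)) (a (l 15972880) (l 15957712)))))) (b (a (b (a (b (l 16309008) (l 16108488)) (b (l 16063200) (l 16028016))) (a (a (b (l 16070400) (l 16018824)) (b (l 16034968) (l 15992360))) (c (l 16209200) (l 16107944)))) (b (a (b (l 16019472) (l 15983888)) (a (l 15982424) (l 15988344))) (a (b (l 15959304) (l 15920576)) (a (l 15971712) (l 2))))) (a (b (a (b (a (l 15976816) (l 15959496)) (l 15941832)) (b (l 15930104) (l 15924512))) (a (b (l 15924384) (l 15909056)) (l 16045936))) (b (a (b (l 15875256) (l 2)) (l 2)) (l 2))))), by decide +kernel⟩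

def k1_pm_022 : ∃ t, chk3 f_pm_022 t 3 1 1 = true :=
  ⟨(b (a (b (a (b (b (a (b (a (b (l 15860824) (l 15862592)) (l 15827208)) (a (l 15865328) (l 15833744))) (b (a (l 15795856) (l 15767720)) (l 15875968))) (a (b (l 15854352) (l 15859856)) (b (l 15802712) (l 15813416)))) (a (b (l 15868936) (l 15883368)) (b (l 15829992) (l 15853952)))) (b (b (a (b (a (l 15743032) (l 15721768)) (l 15748016)) (b (a (l 15703528) (l 15687808)) (l 15715656))) (a (l 15771488) (l 15745296))) (a (b (l 15803024) (l 15835992)) (b (l 15784568) (l 15824760))))) (a (b (a (l 15908432) (l 15892552)) (a (l 15949208) (l 15950368))) (b (a (l 15887256) (l 15886048)) (l 15964760)))) (b (a (b (b (a (b (a (l 15674528) (l 15664056)) (l 15692816)) (b (l 15654176) (l 15681640))) (a (l 15727560) (l 15721448))) (b (l 15771704) (l 15820736))) (b (a (b (l 15752312) (l 15728664)) (b (l 15683456) (l 15750112))) (b (l 15798712) (l 2)))) (a (b (l 15894120) (l 2)) (l 2)))) (a (b (a (b (a (l 15998264) (l 2))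 (l 2)) (l 2)) (l 2)) (l 2))), by decide +kernel⟩

theorem s2_pm_022 : ∃ t, chk3 f_pm_022 t 1 1 1 = true := ex3_a k0_pm_022 k1_pm_022

theorem c_pm_022 : CertB 0 536870912 1073741824 536870912 697932185 42949674 3 eng mog cd0q0 cd7q2 pd2 true true false .pp 0 2 2
    ndB0q0 ndB7q2 pcB2 cut_pm_022 Ext.none :=
  certB0 (fam := true) (s1 := true) (s2 := false) (a := 0) (b := 2) (c := 2) (cn := .pp) (n1 := ndB0q0) (n2 := ndB7q2) (pc := pcB2) (cut := cut_pm_022) (xt := Ext.none) (P1 := 0) (W1 := 536870912) (P2 := 1073741824) (W2 := 536870912) (P3 := 697932185) (W3 := 42949674) (N0 := 3) (En := eng) (mo := mog) (C1 := cd0q0) (C2 := cd7q2) (C3 := pd2)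
    rfl s2_pm_022

noncomputable def cut_pm_023 : Cut := Cut.of [[⟨3, 0, 0, 1449551462⟩]]

noncomputable def f_pm_023 : ℕ → ℕ → ℕ → ℕ → Bool := onCell 0 536870912 1610612736 536870912 697932185 42949674
    (rowB 3 eng mog cd0q0 cd7q2 pd3 1 true true false .up 0 2 3 (qsf 0 536870912 1073741824 536870912 3) ndB0q0 ndB7q2 pcB3 cut_pm_023 Ext.none)

def k0_pm_023 : ∃ t, chk3 f_pm_023 t 1 1 1 = true :=
  ⟨(a (b (b (a (a (b (b (l 16002264) (l 15936112)) (b (l 15890664) (l 2))) (b (a (l 16155328) (l 15901392)) (a (l 15915632) (l 15917568)))) (a (b (a (l 15883288) (l 15931056)) (b (l 15886488) (l 15905256))) (b (a (l 15973632) (l 15989184)) (b (l 15961264) (l 15927304))))) (a (a (l 2) (b (b (l 15929448) (l 2)) (l 2))) (b (a (b (l 15935912) (l 15963864)) (b (l 15870416) (l 15908744))) (a (l 16045344) (b (l 16011520) (l 16112976)))))) (a (l 2) (b (b (a (l 2) (b (l 16184112) (l 2))) (l 2)) (l 2)))) (b (b (a (a (b (a (l 15981824) (l 15964872)) (a (l 16005176) (l 16011064)))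 (b (a (l 15938600) (l 15903448)) (a (l 16002000) (l 15974096)))) (a (b (a (l 15860416) (l 15821144)) (l 15911592)) (b (a (b (l 15764728) (l 15803296)) (b (l 15729728) (l 15768304))) (a (l 15855000) (l 15819816))))) (b (a (a (b (l 16017248) (l 16017120)) (b (l 16030288) (l 16057648))) (b (a (l 15967176) (b (l 15880072) (l 15916672))) (a (l 16001984) (l 15931336)))) (a (a (b (l 16010760) (l 16118968)) (b (l 16084968) (l 16115472))) (b (a (b (l 16032752) (l 16079088)) (b (l 15966464) (l 16042704))) (a (l 16099264) (l 16078000)))))) (a (b (a (b (a (l 16248696) (l 16256784)) (b (l 16342784) (l 2))) (b (a (l 16253256) (l 16240768)) (a (l 16394472) (l 16385696)))) (b (a (l 2) (a (l 2) (l 16468904))) (l 2))) (a (b (b (a (l 16219568) (l 16196424)) (b (l 16319384) (l 16383064))) (b (a (l 16463992) (l 16454280)) (b (l 16506072) (l 2)))) (b (b (a (l 16180072) (l 16161552)) (b (l 16274624) (l 16345440))) (b (b (l 16409536) (l 16469288)) (b (l 16514344) (b (l 16537872)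 (b (l 16548392) (l 4)))))))))), by decide +kernel⟩

theorem c_pm_023 : CertB 0 536870912 1073741824 536870912 697932185 42949674 3 eng mog cd0q0 cd7q2 pd3 true true false .up 0 2 3
    ndB0q0 ndB7q2 pcB3 cut_pm_023 Ext.none :=
  certB1 (fam := true) (s1 := true) (s2 := false) (a := 0) (b := 2) (c := 3) (cn := .up) (n1 := ndB0q0) (n2 := ndB7q2) (pc := pcB3) (cut := cut_pm_023) (xt := Ext.none) (P1 := 0) (W1 := 536870912) (P2 := 1073741824) (W2 := 536870912) (P3 := 697932185) (W3 := 42949674) (N0 := 3) (En := eng) (mo := mog) (C1 := cd0q0) (C2 := cd7q2) (C3 := pd3)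
    rfl (fun _ => rfl) k0_pm_023

noncomputable def cut_pm_033 : Cut := Cut.of [[⟨3, 0, 0, 1449551462⟩]]

noncomputable def f_pm_033 : ℕ → ℕ → ℕ → ℕ → Bool := onCell 1610612736 536870912 0 1230186008 697932185 42949674
    (rowB 3 eng mog cd0q0 cd7q3 pd3 2 true true false .pnn 0 3 3 (qsf 0 536870912 0 1230186008 3) ndB0q0 ndB7q3 pcB3 cut_pm_033 Ext.none)

def k0_pm_033 : ∃ t, chk3 f_pm_033 t 2 1 1 = true :=
  ⟨(b (l 1) (a (b (l 1) (b (l 1) (b (a (l 1) (l 15883096)) (a (b (l 15845848) (l 15878424)) (l 15987880))))) (b (a (l 1) (b (l 1) (b (l 1) (a (l 1) (l 503080607831))))) (b (b (a (l 512206739383) (l 16033000)) (a (l 15946344) (l 16044768))) (b (a (l 15942632) (l 16042392)) (a (l 15920312) (b (l 16049424) (l 16056664)))))))), by decide +kernel⟩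

def k1_pm_033 : ∃ t, chk3 f_pm_033 t 3 1 1 = true :=
  ⟨(a (b (l 1) (b (b (a (l 1) (a (b (l 1) (l 16091400)) (b (l 16141096) (l 16129248)))) (a (b (a (l 451004135703) (l 16062496)) (a (l 16058432) (l 16088600))) (b (a (l 16093464) (l 16136912)) (a (l 16118560) (l 16165288))))) (b (a (b (b (l 16103848) (l 16126304)) (l 16155256)) (b (l 16312496) (l 16280800))) (b (a (l 16198160) (b (l 16319128) (l 16349416))) (a (b (l 16220592) (l 16250096)) (a (l 16351064) (l 16403248))))))) (b (b (l 4) (a (b (a (l 1) (l 4)) (a (b (l 1) (l 16211552)) (b (l 16229016) (l 16248784)))) (a (b (l 4) (l 16414008)) (l 4)))) (b (a (b (a (b (l 266320884919) (l 16194200)) (b (l 16255824) (l 16280560))) (b (a (l 16214792) (l 16272864)) (a (l 16231488) (l 16316272)))) (a (b (b (l 16307144) (l 16319960)) (b (l 16356104) (l 16379256))) (a (b (l 16342480) (b (l 16392224) (l 16429184))) (b (l 4) (a (l 16427520) (b (l 4) (a (l 16461576) (l 16455928)))))))) (a (b (b (a (l 16291448) (l 16353560))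 (l 16388608)) (b (l 16576448) (b (l 16313632) (l 16274288)))) (b (a (b (l 16418840) (l 16479936)) (a (b (l 16466968) (l 16513328)) (a (b (l 16493504) (l 16529104)) (b (a (l 16502304) (l 16503488)) (l 16724944))))) (a (b (b (l 16507296) (l 16509208)) (l 16506584)) (a (b (l 16529616) (l 16533984)) (a (b (l 16541840) (l 16543568)) (a (l 16640296) (a (l 16559176) (l 594014180791))))))))))), by decide +kernel⟩

theorem s2_pm_033 : ∃ t, chk3 f_pm_033 t 1 1 1 = true := ex3_a k0_pm_033 k1_pm_033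

theorem c_pm_033 : CertB 0 536870912 0 1230186008 697932185 42949674 3 eng mog cd0q0 cd7q3 pd3 true true false .pnn 0 3 3
    ndB0q0 ndB7q3 pcB3 cut_pm_033 Ext.none :=
  certB2 (fam := true) (s1 := true) (s2 := false) (a := 0) (b := 3) (c := 3) (cn := .pnn) (n1 := ndB0q0) (n2 := ndB7q3) (pc := pcB3) (cut := cut_pm_033) (xt := Ext.none) (P1 := 0) (W1 := 536870912) (P2 := 0) (W2 := 1230186008) (P3 := 697932185) (W3 := 42949674) (N0 := 3) (En := eng) (mo := mog) (C1 := cd0q0) (C2 := cd7q3) (C3 := pd3)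
    rfl (fun _ => rfl) s2_pm_033

noncomputable def cut_pm_101 : Cut := Cut.of [[⟨3, 0, 0, 1449551462⟩]]

noncomputable def f_pm_101 : ℕ → ℕ → ℕ → ℕ → Bool := onCell 536870912 536870912 536870912 536870912 697932185 42949674
    (rowB 3 eng mog cd0q1 cd7q0 pd1 1 true true false .npn 1 0 1 (qsf 536870912 536870912 0 536870912 1) ndB0q1 ndB7q0 pcB1 cut_pm_101 Ext.none)

def k0_pm_101 : ∃ t, chk3 f_pm_101 t 1 1 1 = true :=
  ⟨(b (a (b (l 6) (a (l 6) (b (l 6) (a (l 6) (a (l 6) (l 16477352)))))) (a (b (l 1) (a (b (l 1) (a (l 16456008) (l 1))) (l 1))) (l 1))) (a (b (a (l 6) (a (b (a (l 6) (l 16436176)) (a (l 16312424) (b (l 16338616) (l 16258808)))) (b (a (l 16408472) (l 16379672)) (a (b (l 16317200) (l 16243440)) (l 16259888))))) (a (a (b (l 6) (a (b (l 6) (l 16077456)) (b (l 16079968) (l 16027024)))) (b (a (l 16131472) (l 16098352)) (a (b (l 16014448) (l 15964832)) (l 15957264)))) (a (a (b (l 16193360) (l 15826088)) (b (l 16113200) (l 15850240))) (b (a (l 16106776)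 (l 16100504)) (a (l 15865032) (l 15878416)))))) (a (b (a (b (a (l 16352984) (l 16320240)) (a (l 16238992) (l 16206872))) (b (a (l 16286600) (l 1)) (a (l 16227520) (b (l 16156032) (l 16094440))))) (a (b (a (l 16093880) (l 16075200)) (a (l 15889896) (l 15885000))) (b (a (l 16043408) (l 16009056)) (a (l 15864120) (l 15865632))))) (b (a (b (l 1) (a (b (l 1) (l 16122696)) (l 1))) (l 1)) (a (b (a (b (l 15997528) (l 15939184)) (b (a (l 15972280) (l 1)) (a (l 15909648) (l 15895000)))) (a (b (l 15869064) (l 15767288)) (b (a (l 15847984) (l 15830416)) (l 15890624)))) (b (a (b (l 1) (b (l 1) (a (l 15861752) (l 1)))) (l 1)) (a (b (a (l 15810696) (b (a (l 15812424) (l 1)) (a (l 15775568) (l 15766696)))) (a (l 15725952) (l 15835752))) (b (b (l 1) (a (l 101500640407) (l 1))) (a (l 15847944) (l 81099396039)))))))))), by decide +kernel⟩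

theorem c_pm_101 : CertB 536870912 536870912 0 536870912 697932185 42949674 3 eng mog cd0q1 cd7q0 pd1 true true false .npn 1 0 1
    ndB0q1 ndB7q0 pcB1 cut_pm_101 Ext.none :=
  certB1 (fam := true) (s1 := true) (s2 := false) (a := 1) (b := 0) (c := 1) (cn := .npn) (n1 := ndB0q1) (n2 := ndB7q0) (pc := pcB1) (cut := cut_pm_101) (xt := Ext.none) (P1 := 536870912) (W1 := 536870912) (P2 := 0) (W2 := 536870912) (P3 := 697932185) (W3 := 42949674) (N0 := 3) (En := eng) (mo := mog) (C1 := cd0q1) (C2 := cd7q0) (C3 := pd1)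
    rfl (fun _ => rfl) k0_pm_101

noncomputable def cut_pm_102 : Cut := Cut.of [[⟨3, 0, 0, 1449551462⟩]]

noncomputable def f_pm_102 : ℕ → ℕ → ℕ → ℕ → Bool := onCell 536870912 536870912 1073741824 536870912 697932185 42949674
    (rowB 3 eng mog cd0q1 cd7q0 pd2 1 true true false .npp 1 0 2 (qsf 536870912 536870912 0 536870912 2) ndB0q1 ndB7q0 pcB2 cut_pm_102 Ext.none)

def k0_pm_102 : ∃ t, chk3 f_pm_102 t 2 1 1 = true :=
  ⟨(b (b (a (a (b (a (b (l 16029088) (l 15965712)) (b (l 15999256) (l 15915248))) (a (l 2) (b (l 15867328) (l 2)))) (b (a (b (l 15905168) (l 15864960)) (b (l 15838352) (l 15807680))) (a (b (l 15818848) (l 15774056)) (l 15863360)))) (a (b (a (l 15761240) (l 15645688)) (a (l 15709240) (l 15623200))) (b (b (l 15700696) (l 15685960)) (a (l 15646552) (l 15693248))))) (a (b (a (l 2) (b (l 15877176) (l 2))) (l 2)) (b (a (b (l 15631208) (l 185855938935)) (b (l 15650400) (a (l 15608608) (l 15682192)))) (a (a (l 2) (l 15783624)) (a (l 15771960) (l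 15767984)))))) (a (l 2) (b (a (l 2) (b (l 254039378423) (l 2))) (l 2)))), by decide +kernel⟩

def k1_pm_102 : ∃ t, chk3 f_pm_102 t 3 1 1 = true :=
  ⟨(b (a (b (a (b (a (l 15740152) (l 15752520)) (a (l 15730344) (l 15754096))) (b (a (l 15745312) (l 15739024)) (a (l 15762416) (l 15770320)))) (a (b (a (b (l 15729328) (l 15737168)) (b (l 15759472) (l 15774296))) (a (l 15811088) (l 15860208))) (b (b (l 15784456) (a (l 15796976) (l 15820256))) (a (l 15892672) (l 15925320))))) (b (a (b (a (b (l 15715816) (l 15739736)) (b (l 15693216) (l 15724416))) (a (b (l 15762272) (l 15784368)) (l 15771384))) (b (a (b (a (l 15680368) (l 15672384)) (l 15715248)) (b (a (l 15665064) (l 15657896)) (l 15708904))) (a (b (l 15755984) (l 15798048)) (b (l 15756840) (l 15806808))))) (a (b (b (a (l 15808240) (l 15823520)) (a (l 15842544) (l 15866736))) (a (l 15953104) (l 15983104))) (b (b (l 15848320) (l 15903096)) (b (l 15983968) (l 16065008)))))) (a (b (a (b (l 16087568) (a (l 2) (l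 16064992))) (b (a (l 16012856) (l 16060064)) (l 16156120))) (a (l 2) (b (l 16279248) (l 2)))) (b (a (b (l 16120144) (l 16261176)) (b (l 16183664) (l 16340744))) (b (a (l 16398784) (l 16470152)) (a (l 16479048) (l 16553152)))))), by decide +kernel⟩

theorem s2_pm_102 : ∃ t, chk3 f_pm_102 t 1 1 1 = true := ex3_a k0_pm_102 k1_pm_102

theorem c_pm_102 : CertB 536870912 536870912 0 536870912 697932185 42949674 3 eng mog cd0q1 cd7q0 pd2 true true false .npp 1 0 2
    ndB0q1 ndB7q0 pcB2 cut_pm_102 Ext.none :=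
  certB1 (fam := true) (s1 := true) (s2 := false) (a := 1) (b := 0) (c := 2) (cn := .npp) (n1 := ndB0q1) (n2 := ndB7q0) (pc := pcB2) (cut := cut_pm_102) (xt := Ext.none) (P1 := 536870912) (W1 := 536870912) (P2 := 0) (W2 := 536870912) (P3 := 697932185) (W3 := 42949674) (N0 := 3) (En := eng) (mo := mog) (C1 := cd0q1) (C2 := cd7q0) (C3 := pd2)
    rfl (fun _ => rfl) s2_pm_102

noncomputable def cut_pm_112 : Cut := Cut.of [[⟨3, 0, 0, 1449551462⟩]]

noncomputable def f_pm_112 : ℕ → ℕ → ℕ → ℕ → Bool := onCell 536870912 536870912 1073741824 536870912 697932185 42949674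
    (rowB 3 eng mog cd0q1 cd7q1 pd2 1 true true false .dn 1 1 2 (qsf 536870912 536870912 536870912 536870912 2) ndB0q1 ndB7q1 pcB2 cut_pm_112 Ext.none)

def k0_pm_112 : ∃ t, chk3 f_pm_112 t 1 1 1 = true :=
  ⟨(a (b (a (b (a (b (a (b (l 16009264) (l 15967080)) (b (l 15979600) (l 15916736))) (a (l 15917712) (l 15950304))) (b (a (l 215316992375) (l 1)) (a (l 15794920) (l 15742416)))) (b (a (b (b (l 15855312) (a (l 15876032) (l 15809544))) (a (l 15866472) (l 15805256))) (b (l 15729112) (l 15731632))) (a (a (l 15908992) (l 15880336)) (b (l 15831528) (l 15868824))))) (b (a (b (l 1) (a (l 15672616) (l 1))) (l 1)) (b (a (b (l 15629408) (l 15644024)) (b (l 1) (l 15645736))) (a (a (l 15804256) (l 15784304)) (l 15749064))))) (a (b (a (b (a (l 15904696) (l 15906784)) (a (l 15860296) (l 15880984))) (b (l 15908928) (l 15994768))) (a (b (a (l 15797184) (l 15834168)) (a (b (l 15745544) (l 15710304)) (a (l 15767880) (l 15792664)))) (b (l 15886680) (a (l 15829992) (l 15879416)))))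 (b (a (b (l 15907424) (l 15947456)) (b (l 15916384) (l 15991752))) (a (b (l 15961864) (l 15958696)) (b (l 16047600) (l 16080568)))))) (b (a (b (l 1) (a (b (l 1) (l 411275223319)) (l 1))) (l 1)) (a (b (a (b (l 15944208) (l 16052264)) (b (l 16035872) (l 16160368))) (a (b (l 16149720) (l 16218200)) (b (l 16284336) (l 16363736)))) (b (b (l 1) (a (l 16265128) (l 1))) (b (a (l 16403760) (l 16474960)) (a (l 16485800) (l 16559088))))))), by decide +kernel⟩

theorem c_pm_112 : CertB 536870912 536870912 536870912 536870912 697932185 42949674 3 eng mog cd0q1 cd7q1 pd2 true true false .dn 1 1 2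
    ndB0q1 ndB7q1 pcB2 cut_pm_112 Ext.none :=
  certB1 (fam := true) (s1 := true) (s2 := false) (a := 1) (b := 1) (c := 2) (cn := .dn) (n1 := ndB0q1) (n2 := ndB7q1) (pc := pcB2) (cut := cut_pm_112) (xt := Ext.none) (P1 := 536870912) (W1 := 536870912) (P2 := 536870912) (W2 := 536870912) (P3 := 697932185) (W3 := 42949674) (N0 := 3) (En := eng) (mo := mog) (C1 := cd0q1) (C2 := cd7q1) (C3 := pd2)
    rfl (fun _ => rfl) k0_pm_112

noncomputable def cut_pm_113 : Cut := Cut.of [[⟨3, 0, 0, 1449551462⟩]]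

noncomputable def f_pm_113 : ℕ → ℕ → ℕ → ℕ → Bool := onCell 536870912 536870912 1610612736 536870912 697932185 42949674
    (rowB 3 eng mog cd0q1 cd7q1 pd3 1 true true false .nn 1 1 3 (qsf 536870912 536870912 536870912 536870912 3) ndB0q1 ndB7q1 pcB3 cut_pm_113 Ext.none)

def k0_pm_113 : ∃ t, chk3 f_pm_113 t 1 1 1 = true :=
  ⟨(a (b (b (a (a (b (a (b (l 261554850535) (l 313631164327)) (a (l 156865033159) (l 15741528))) (a (l 2) (l 361412568279))) (b (a (l 15786408) (l 15845040)) (a (l 310946861399) (l 15719688)))) (a (b (l 15936632) (a (l 15796280) (l 15881352))) (b (l 16072712) (l 16023720)))) (b (b (a (a (l 2) (a (l 2) (l 361949773383))) (a (a (l 316315823079) (l 15837024)) (l 15979344))) (a (l 2) (a (b (l 318463191783) (l 310410063495)) (l 15954328)))) (a (l 2) (b (a (a (l 2) (l 365170910727)) (l 15932056)) (a (l 2) (l 485967568663)))))) (b (a (l 2) (b (a (l 2) (b (l 487041033911) (l 2))) (l 2))) (l 2))) (a (b (b (a (b (l 16227472) (l 16156216)) (b (l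 16350560) (l 16296936))) (b (a (a (l 16067832) (l 16139232)) (l 16256528)) (a (a (l 16030984) (l 16105376)) (l 16222840)))) (b (b (a (b (l 16058408) (l 582067780567)) (b (l 16199744) (l 4))) (a (b (l 562740410167) (l 2)) (l 4))) (l 4))) (b (a (b (b (l 16473832) (l 16433656)) (b (l 16400136) (l 16355320))) (b (b (l 16570376) (l 16545592)) (l 4))) (l 4)))), by decide +kernel⟩

theorem c_pm_113 : CertB 536870912 536870912 536870912 536870912 697932185 42949674 3 eng mog cd0q1 cd7q1 pd3 true true false .nn 1 1 3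
    ndB0q1 ndB7q1 pcB3 cut_pm_113 Ext.none :=
  certB1 (fam := true) (s1 := true) (s2 := false) (a := 1) (b := 1) (c := 3) (cn := .nn) (n1 := ndB0q1) (n2 := ndB7q1) (pc := pcB3) (cut := cut_pm_113) (xt := Ext.none) (P1 := 536870912) (W1 := 536870912) (P2 := 536870912) (W2 := 536870912) (P3 := 697932185) (W3 := 42949674) (N0 := 3) (En := eng) (mo := mog) (C1 := cd0q1) (C2 := cd7q1) (C3 := pd3)
    rfl (fun _ => rfl) k0_pm_113

noncomputable def cut_pm_123 : Cut := Cut.of [[⟨3, 0, 0, 1449551462⟩]]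

noncomputable def f_pm_123 : ℕ → ℕ → ℕ → ℕ → Bool := onCell 536870912 536870912 1610612736 536870912 697932185 42949674
    (rowB 3 eng mog cd0q1 cd7q2 pd3 1 true true false .npn 1 2 3 (qsf 536870912 536870912 1073741824 536870912 3) ndB0q1 ndB7q2 pcB3 cut_pm_123 Ext.none)

def k0_pm_123 : ∃ t, chk3 f_pm_123 t 1 1 1 = true :=
  ⟨(a (a (b (b (a (b (b (a (a (l 15703240) (l 294773765159)) (l 444560679735)) (a (l 15732848) (l 15689096))) (a (b (l 15767128) (l 15797024)) (l 15846464))) (b (b (l 1) (a (l 438655093639) (l 1))) (b (l 162703607831) (l 15703560)))) (b (b (a (b (l 15806232) (l 15851976)) (a (l 15776720) (l 15750352))) (a (a (l 15880344) (l 15850712)) (c (l 15870264) (l 15760872)))) (b (a (b (l 15906712) (l 15994024)) (b (l 15865040) (l 15937392))) (a (l 16033592) (l 15980096))))) (b (b (a (a (l 16138120) (l 16111528)) (l 16050328)) (a (b (l 16227800) (l 16302176)) (b (l 16176208) (l 16249784)))) (b (b (a (l 16375376) (l 16328120)) (a (l 16439976)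 (l 16391728))) (b (a (l 16497704) (l 16442520)) (b (l 273502135975) (l 4)))))) (b (b (a (b (l 1) (a (l 438118324775) (l 1))) (l 1)) (b (a (b (a (l 174514815463) (l 418254170663)) (b (l 15790352) (l 15824520))) (b (l 1) (l 458519511719))) (a (b (b (a (l 15856552) (l 15862720)) (l 15899040)) (a (l 15945520) (l 15939504))) (b (l 15996008) (l 15949936))))) (b (b (a (b (l 16005128) (l 16070552)) (b (l 16007448) (l 16066576))) (a (b (l 16140016) (l 16211208)) (b (l 16128984) (l 16187064)))) (b (a (b (l 16280992) (l 16321800)) (b (l 16235520) (l 4))) (l 4))))) (a (b (b (l 1) (a (b (l 1) (a (l 500395895047) (l 1))) (l 1))) (b (b (a (b (l 16279752) (l 16077504)) (b (l 1) (l 4))) (a (b (l 16122928) (l 4)) (l 4))) (l 4))) (b (l 1) (l 4)))), by decide +kernel⟩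

theorem c_pm_123 : CertB 536870912 536870912 1073741824 536870912 697932185 42949674 3 eng mog cd0q1 cd7q2 pd3 true true false .npn 1 2 3
    ndB0q1 ndB7q2 pcB3 cut_pm_123 Ext.none :=
  certB1 (fam := true) (s1 := true) (s2 := false) (a := 1) (b := 2) (c := 3) (cn := .npn) (n1 := ndB0q1) (n2 := ndB7q2) (pc := pcB3) (cut := cut_pm_123) (xt := Ext.none) (P1 := 536870912) (W1 := 536870912) (P2 := 1073741824) (W2 := 536870912) (P3 := 697932185) (W3 := 42949674) (N0 := 3) (En := eng) (mo := mog) (C1 := cd0q1) (C2 := cd7q2) (C3 := pd3)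
    rfl (fun _ => rfl) k0_pm_123

noncomputable def cut_pm_133 : Cut := Cut.of [[⟨3, 0, 0, 1449551462⟩]]

noncomputable def f_pm_133 : ℕ → ℕ → ℕ → ℕ → Bool := onCell 536870912 536870912 0 1230186008 697932185 42949674
    (rowB 3 eng mog cd0q1 cd7q3 pd3 0 true true false .dn 1 3 3 (qsf 536870912 536870912 0 1230186008 3) ndB0q1 ndB7q3 pcB3 cut_pm_133 Ext.none)

def k0_pm_133 : ∃ t, chk3 f_pm_133 t 1 1 1 = true :=
  ⟨(b (l 2) (b (l 2) (a (b (l 2) (l 4)) (l 2)))), by decide +kernel⟩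

theorem c_pm_133 : CertB 536870912 536870912 0 1230186008 697932185 42949674 3 eng mog cd0q1 cd7q3 pd3 true true false .dn 1 3 3
    ndB0q1 ndB7q3 pcB3 cut_pm_133 Ext.none :=
  certB0 (fam := true) (s1 := true) (s2 := false) (a := 1) (b := 3) (c := 3) (cn := .dn) (n1 := ndB0q1) (n2 := ndB7q3) (pc := pcB3) (cut := cut_pm_133) (xt := Ext.none) (P1 := 536870912) (W1 := 536870912) (P2 := 0) (W2 := 1230186008) (P3 := 697932185) (W3 := 42949674) (N0 := 3) (En := eng) (mo := mog) (C1 := cd0q1) (C2 := cd7q3) (C3 := pd3)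
    rfl k0_pm_133

noncomputable def cut_pm_202 : Cut := Cut.of [[⟨3, 0, 0, 1449551462⟩]]

noncomputable def f_pm_202 : ℕ → ℕ → ℕ → ℕ → Bool := onCell 0 536870912 0 536870912 697932185 42949674
    (rowB 3 eng mog cd0q2 cd7q0 pd2 0 true true false .pp 2 0 2 (qsf 0 536870912 0 536870912 2) ndB0q2 ndB7q0 pcB2 cut_pm_202 Ext.none)

def k0_pm_202 : ∃ t, chk3 f_pm_202 t 1 1 1 = true :=
  ⟨(a (l 4) (a (b (a (b (b (b (a (l 4) (l 15780168)) (l 16010192)) (l 4)) (l 4)) (b (b (b (a (l 15748088) (l 15717848)) (l 15780256)) (b (a (l 15857920) (l 15818768)) (l 15903624))) (b (a (l 4) (l 15989456)) (l 4)))) (l 4)) (b (b (a (b (b (a (l 15691400) (b (l 15663056) (l 15679632))) (a (l 15733896) (l 15710280))) (b (l 15772504) (a (l 15848832) (l 15822256)))) (b (a (b (b (a (l 15651152) (l 15644232)) (l 15663048)) (l 15694152)) (b (a (b (b (a (l 15637936) (l 15635536)) (l 15643296)) (l 15656704)) (b (a (b (b (l 15632216) (l 15635536)) (l 15641736)) (b (l 15822768) (l 15644592)))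 (l 15661096))) (a (l 15691808) (l 15702800)))) (a (b (l 15746928) (l 15808736)) (b (l 15755328) (l 15821120))))) (b (a (b (l 15906712) (l 15983056)) (b (a (l 15879832) (l 15891976)) (a (l 15961992) (l 15962448)))) (a (b (l 16061608) (l 16140232)) (a (l 16086128) (l 16081624))))) (b (a (b (b (l 16216608) (l 16289992)) (b (l 16360440) (l 4))) (b (b (l 16212400) (l 16290304)) (a (l 16393480) (l 16381208)))) (a (l 4) (b (b (l 16489288) (l 16543328)) (b (l 16577776) (l 4)))))))), by decide +kernel⟩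

theorem c_pm_202 : CertB 0 536870912 0 536870912 697932185 42949674 3 eng mog cd0q2 cd7q0 pd2 true true false .pp 2 0 2
    ndB0q2 ndB7q0 pcB2 cut_pm_202 Ext.none :=
  certB0 (fam := true) (s1 := true) (s2 := false) (a := 2) (b := 0) (c := 2) (cn := .pp) (n1 := ndB0q2) (n2 := ndB7q0) (pc := pcB2) (cut := cut_pm_202) (xt := Ext.none) (P1 := 0) (W1 := 536870912) (P2 := 0) (W2 := 536870912) (P3 := 697932185) (W3 := 42949674) (N0 := 3) (En := eng) (mo := mog) (C1 := cd0q2) (C2 := cd7q0) (C3 := pd2)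
    rfl k0_pm_202

noncomputable def cut_pm_203 : Cut := Cut.of [[⟨3, 0, 0, 1449551462⟩]]

noncomputable def f_pm_203 : ℕ → ℕ → ℕ → ℕ → Bool := onCell 0 536870912 1610612736 536870912 697932185 42949674
    (rowB 3 eng mog cd0q2 cd7q0 pd3 1 true true false .up 2 0 3 (qsf 0 536870912 0 536870912 3) ndB0q2 ndB7q0 pcB3 cut_pm_203 Ext.none)

def k0_pm_203 : ∃ t, chk3 f_pm_203 t 1 1 1 = true :=
  ⟨(a (l 4) (b (l 4) (l 2))), by decide +kernel⟩

theorem c_pm_203 : CertB 0 536870912 0 536870912 697932185 42949674 3 eng mog cd0q2 cd7q0 pd3 true true false .up 2 0 3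
    ndB0q2 ndB7q0 pcB3 cut_pm_203 Ext.none :=
  certB1 (fam := true) (s1 := true) (s2 := false) (a := 2) (b := 0) (c := 3) (cn := .up) (n1 := ndB0q2) (n2 := ndB7q0) (pc := pcB3) (cut := cut_pm_203) (xt := Ext.none) (P1 := 0) (W1 := 536870912) (P2 := 0) (W2 := 536870912) (P3 := 697932185) (W3 := 42949674) (N0 := 3) (En := eng) (mo := mog) (C1 := cd0q2) (C2 := cd7q0) (C3 := pd3)
    rfl (fun _ => rfl) k0_pm_203

noncomputable def cut_pm_213 : Cut := Cut.of [[⟨3, 0, 0, 1449551462⟩]]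

noncomputable def f_pm_213 : ℕ → ℕ → ℕ → ℕ → Bool := onCell 0 536870912 536870912 536870912 697932185 42949674
    (rowB 3 eng mog cd0q2 cd7q1 pd3 0 true true false .pnn 2 1 3 (qsf 0 536870912 536870912 536870912 3) ndB0q2 ndB7q1 pcB3 cut_pm_213 Ext.none)

def k0_pm_213 : ∃ t, chk3 f_pm_213 t 1 1 1 = true :=
  ⟨(a (l 4) (b (l 4) (l 4))), by decide +kernel⟩

theorem c_pm_213 : CertB 0 536870912 536870912 536870912 697932185 42949674 3 eng mog cd0q2 cd7q1 pd3 true true false .pnn 2 1 3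
    ndB0q2 ndB7q1 pcB3 cut_pm_213 Ext.none :=
  certB0 (fam := true) (s1 := true) (s2 := false) (a := 2) (b := 1) (c := 3) (cn := .pnn) (n1 := ndB0q2) (n2 := ndB7q1) (pc := pcB3) (cut := cut_pm_213) (xt := Ext.none) (P1 := 0) (W1 := 536870912) (P2 := 536870912) (W2 := 536870912) (P3 := 697932185) (W3 := 42949674) (N0 := 3) (En := eng) (mo := mog) (C1 := cd0q2) (C2 := cd7q1) (C3 := pd3)
    rfl k0_pm_213

noncomputable def cut_mm_001 : Cut := Cut.of [[⟨3, 0, 0, 1449551462⟩]]

noncomputable def f_mm_001 : ℕ → ℕ → ℕ → ℕ → Bool := onCell 0 536870912 0 536870912 697932185 42949674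
    (rowB 3 eng mog cd0q0 cd7q0 pd1 0 true false false .up 0 0 1 (qsf 0 536870912 0 536870912 1) ndB0q0 ndB7q0 pcB1 cut_mm_001 Ext.none)

def k0_mm_001 : ∃ t, chk3 f_mm_001 t 1 1 1 = true :=
  ⟨(l 4), by decide +kernel⟩

theorem c_mm_001 : CertB 0 536870912 0 536870912 697932185 42949674 3 eng mog cd0q0 cd7q0 pd1 true false false .up 0 0 1
    ndB0q0 ndB7q0 pcB1 cut_mm_001 Ext.none :=
  certB0 (fam := true) (s1 := false) (s2 := false) (a := 0) (b := 0) (c := 1) (cn := .up) (n1 := ndB0q0) (n2 := ndB7q0) (pc := pcB1) (cut := cut_mm_001) (xt := Ext.none) (P1 := 0) (W1 := 536870912) (P2 := 0) (W2 := 536870912) (P3 := 697932185) (W3 := 42949674) (N0 := 3) (En := eng) (mo := mog) (C1 := cd0q0) (C2 := cd7q0) (C3 := pd1)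
    rfl k0_mm_001

noncomputable def cut_mm_011 : Cut := Cut.of [[⟨3, 0, 0, 1449551462⟩]]

noncomputable def f_mm_011 : ℕ → ℕ → ℕ → ℕ → Bool := onCell 0 536870912 536870912 536870912 697932185 42949674
    (rowB 3 eng mog cd0q0 cd7q1 pd1 0 true false false .pnn 0 1 1 (qsf 0 536870912 536870912 536870912 1) ndB0q0 ndB7q1 pcB1 cut_mm_011 Ext.none)

def k0_mm_011 : ∃ t, chk3 f_mm_011 t 1 1 1 = true :=
  ⟨(l 4), by decide +kernel⟩

theorem c_mm_011 : CertB 0 536870912 536870912 536870912 697932185 42949674 3 eng mog cd0q0 cd7q1 pd1 true false false .pnn 0 1 1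
    ndB0q0 ndB7q1 pcB1 cut_mm_011 Ext.none :=
  certB0 (fam := true) (s1 := false) (s2 := false) (a := 0) (b := 1) (c := 1) (cn := .pnn) (n1 := ndB0q0) (n2 := ndB7q1) (pc := pcB1) (cut := cut_mm_011) (xt := Ext.none) (P1 := 0) (W1 := 536870912) (P2 := 536870912) (W2 := 536870912) (P3 := 697932185) (W3 := 42949674) (N0 := 3) (En := eng) (mo := mog) (C1 := cd0q0) (C2 := cd7q1) (C3 := pd1)
    rfl k0_mm_011

noncomputable def cut_mm_012 : Cut := Cut.of [[⟨3, 0, 0, 1449551462⟩]]

noncomputable def f_mm_012 : ℕ → ℕ → ℕ → ℕ → Bool := onCell 0 536870912 536870912 536870912 697932185 42949674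
    (rowB 3 eng mog cd0q0 cd7q1 pd2 0 true false false .pnp 0 1 2 (qsf 0 536870912 536870912 536870912 2) ndB0q0 ndB7q1 pcB2 cut_mm_012 Ext.none)

def k0_mm_012 : ∃ t, chk3 f_mm_012 t 1 1 1 = true :=
  ⟨(l 4), by decide +kernel⟩

theorem c_mm_012 : CertB 0 536870912 536870912 536870912 697932185 42949674 3 eng mog cd0q0 cd7q1 pd2 true false false .pnp 0 1 2
    ndB0q0 ndB7q1 pcB2 cut_mm_012 Ext.none :=
  certB0 (fam := true) (s1 := false) (s2 := false) (a := 0) (b := 1) (c := 2) (cn := .pnp) (n1 := ndB0q0) (n2 := ndB7q1) (pc := pcB2) (cut := cut_mm_012) (xt := Ext.none) (P1 := 0) (W1 := 536870912) (P2 := 536870912) (W2 := 536870912) (P3 := 697932185) (W3 := 42949674) (N0 := 3) (En := eng) (mo := mog) (C1 := cd0q0) (C2 := cd7q1) (C3 := pd2)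
    rfl k0_mm_012

noncomputable def cut_mm_022 : Cut := Cut.of [[⟨3, 0, 0, 1449551462⟩]]

noncomputable def f_mm_022 : ℕ → ℕ → ℕ → ℕ → Bool := onCell 0 536870912 1073741824 536870912 697932185 42949674
    (rowB 3 eng mog cd0q0 cd7q2 pd2 0 true false false .pp 0 2 2 (qsf 0 536870912 1073741824 536870912 2) ndB0q0 ndB7q2 pcB2 cut_mm_022 Ext.none)

def k0_mm_022 : ∃ t, chk3 f_mm_022 t 1 1 1 = true :=
  ⟨(l 4), by decide +kernel⟩

theorem c_mm_022 : CertB 0 536870912 1073741824 536870912 697932185 42949674 3 eng mog cd0q0 cd7q2 pd2 true false false .pp 0 2 2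
    ndB0q0 ndB7q2 pcB2 cut_mm_022 Ext.none :=
  certB0 (fam := true) (s1 := false) (s2 := false) (a := 0) (b := 2) (c := 2) (cn := .pp) (n1 := ndB0q0) (n2 := ndB7q2) (pc := pcB2) (cut := cut_mm_022) (xt := Ext.none) (P1 := 0) (W1 := 536870912) (P2 := 1073741824) (W2 := 536870912) (P3 := 697932185) (W3 := 42949674) (N0 := 3) (En := eng) (mo := mog) (C1 := cd0q0) (C2 := cd7q2) (C3 := pd2)
    rfl k0_mm_022

noncomputable def cut_mm_023 : Cut := Cut.of [[⟨3, 0, 0, 1449551462⟩]]

noncomputable def f_mm_023 : ℕ → ℕ → ℕ → ℕ → Bool := onCell 0 536870912 1073741824 536870912 697932185 42949674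
    (rowB 3 eng mog cd0q0 cd7q2 pd3 0 true false false .up 0 2 3 (qsf 0 536870912 1073741824 536870912 3) ndB0q0 ndB7q2 pcB3 cut_mm_023 Ext.none)

def k0_mm_023 : ∃ t, chk3 f_mm_023 t 1 1 1 = true :=
  ⟨(l 4), by decide +kernel⟩

theorem c_mm_023 : CertB 0 536870912 1073741824 536870912 697932185 42949674 3 eng mog cd0q0 cd7q2 pd3 true false false .up 0 2 3
    ndB0q0 ndB7q2 pcB3 cut_mm_023 Ext.none :=
  certB0 (fam := true) (s1 := false) (s2 := false) (a := 0) (b := 2) (c := 3) (cn := .up) (n1 := ndB0q0) (n2 := ndB7q2) (pc := pcB3) (cut := cut_mm_023) (xt := Ext.none) (P1 := 0) (W1 := 536870912) (P2 := 1073741824) (W2 := 536870912) (P3 := 697932185) (W3 := 42949674) (N0 := 3) (En := eng) (mo := mog) (C1 := cd0q0) (C2 := cd7q2) (C3 := pd3)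
    rfl k0_mm_023

noncomputable def cut_mm_033 : Cut := Cut.of [[⟨3, 0, 0, 1449551462⟩]]

noncomputable def f_mm_033 : ℕ → ℕ → ℕ → ℕ → Bool := onCell 0 536870912 0 1230186008 697932185 42949674
    (rowB 3 eng mog cd0q0 cd7q3 pd3 0 true false false .pnn 0 3 3 (qsf 0 536870912 0 1230186008 3) ndB0q0 ndB7q3 pcB3 cut_mm_033 Ext.none)

def k0_mm_033 : ∃ t, chk3 f_mm_033 t 1 1 1 = true :=
  ⟨(l 4), by decide +kernel⟩

theorem c_mm_033 : CertB 0 536870912 0 1230186008 697932185 42949674 3 eng mog cd0q0 cd7q3 pd3 true false false .pnn 0 3 3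
    ndB0q0 ndB7q3 pcB3 cut_mm_033 Ext.none :=
  certB0 (fam := true) (s1 := false) (s2 := false) (a := 0) (b := 3) (c := 3) (cn := .pnn) (n1 := ndB0q0) (n2 := ndB7q3) (pc := pcB3) (cut := cut_mm_033) (xt := Ext.none) (P1 := 0) (W1 := 536870912) (P2 := 0) (W2 := 1230186008) (P3 := 697932185) (W3 := 42949674) (N0 := 3) (En := eng) (mo := mog) (C1 := cd0q0) (C2 := cd7q3) (C3 := pd3)
    rfl k0_mm_033

noncomputable def cut_mm_101 : Cut := Cut.of [[⟨3, 0, 0, 1449551462⟩]]

noncomputable def f_mm_101 : ℕ → ℕ → ℕ → ℕ → Bool := onCell 536870912 536870912 0 536870912 697932185 42949674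
    (rowB 3 eng mog cd0q1 cd7q0 pd1 0 true false false .npn 1 0 1 (qsf 536870912 536870912 0 536870912 1) ndB0q1 ndB7q0 pcB1 cut_mm_101 Ext.none)

def k0_mm_101 : ∃ t, chk3 f_mm_101 t 1 1 1 = true :=
  ⟨(l 4), by decide +kernel⟩

theorem c_mm_101 : CertB 536870912 536870912 0 536870912 697932185 42949674 3 eng mog cd0q1 cd7q0 pd1 true false false .npn 1 0 1
    ndB0q1 ndB7q0 pcB1 cut_mm_101 Ext.none :=
  certB0 (fam := true) (s1 := false) (s2 := false) (a := 1) (b := 0) (c := 1) (cn := .npn) (n1 := ndB0q1) (n2 := ndB7q0) (pc := pcB1) (cut := cut_mm_101) (xt := Ext.none) (P1 := 536870912) (W1 := 536870912) (P2 := 0) (W2 := 536870912) (P3 := 697932185) (W3 := 42949674) (N0 := 3) (En := eng) (mo := mog) (C1 := cd0q1) (C2 := cd7q0) (C3 := pd1)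
    rfl k0_mm_101

noncomputable def cut_mm_102 : Cut := Cut.of [[⟨3, 0, 0, 1449551462⟩]]

noncomputable def f_mm_102 : ℕ → ℕ → ℕ → ℕ → Bool := onCell 536870912 536870912 0 536870912 697932185 42949674
    (rowB 3 eng mog cd0q1 cd7q0 pd2 0 true false false .npp 1 0 2 (qsf 536870912 536870912 0 536870912 2) ndB0q1 ndB7q0 pcB2 cut_mm_102 Ext.none)

def k0_mm_102 : ∃ t, chk3 f_mm_102 t 1 1 1 = true :=
  ⟨(l 4), by decide +kernel⟩

theorem c_mm_102 : CertB 536870912 536870912 0 536870912 697932185 42949674 3 eng mog cd0q1 cd7q0 pd2 true false false .npp 1 0 2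
    ndB0q1 ndB7q0 pcB2 cut_mm_102 Ext.none :=
  certB0 (fam := true) (s1 := false) (s2 := false) (a := 1) (b := 0) (c := 2) (cn := .npp) (n1 := ndB0q1) (n2 := ndB7q0) (pc := pcB2) (cut := cut_mm_102) (xt := Ext.none) (P1 := 536870912) (W1 := 536870912) (P2 := 0) (W2 := 536870912) (P3 := 697932185) (W3 := 42949674) (N0 := 3) (En := eng) (mo := mog) (C1 := cd0q1) (C2 := cd7q0) (C3 := pd2)
    rfl k0_mm_102

noncomputable def cut_mm_112 : Cut := Cut.of [[⟨3, 0, 0, 1449551462⟩]]

noncomputable def f_mm_112 : ℕ → ℕ → ℕ → ℕ → Bool := onCell 536870912 536870912 536870912 536870912 697932185 42949674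
    (rowB 3 eng mog cd0q1 cd7q1 pd2 0 true false false .dn 1 1 2 (qsf 536870912 536870912 536870912 536870912 2) ndB0q1 ndB7q1 pcB2 cut_mm_112 Ext.none)

def k0_mm_112 : ∃ t, chk3 f_mm_112 t 1 1 1 = true :=
  ⟨(l 4), by decide +kernel⟩

theorem c_mm_112 : CertB 536870912 536870912 536870912 536870912 697932185 42949674 3 eng mog cd0q1 cd7q1 pd2 true false false .dn 1 1 2
    ndB0q1 ndB7q1 pcB2 cut_mm_112 Ext.none :=
  certB0 (fam := true) (s1 := false) (s2 := false) (a := 1) (b := 1) (c := 2) (cn := .dn) (n1 := ndB0q1) (n2 := ndB7q1) (pc := pcB2) (cut := cut_mm_112) (xt := Ext.none) (P1 := 536870912) (W1 := 536870912) (P2 := 536870912) (W2 := 536870912) (P3 := 697932185) (W3 := 42949674) (N0 := 3) (En := eng) (mo := mog) (C1 := cd0q1) (C2 := cd7q1) (C3 := pd2)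
    rfl k0_mm_112

noncomputable def cut_mm_113 : Cut := Cut.of [[⟨3, 0, 0, 1449551462⟩]]

noncomputable def f_mm_113 : ℕ → ℕ → ℕ → ℕ → Bool := onCell 536870912 536870912 536870912 536870912 697932185 42949674
    (rowB 3 eng mog cd0q1 cd7q1 pd3 0 true false false .nn 1 1 3 (qsf 536870912 536870912 536870912 536870912 3) ndB0q1 ndB7q1 pcB3 cut_mm_113 Ext.none)

def k0_mm_113 : ∃ t, chk3 f_mm_113 t 1 1 1 = true :=
  ⟨(l 4), by decide +kernel⟩

theorem c_mm_113 : CertB 536870912 536870912 536870912 536870912 697932185 42949674 3 eng mog cd0q1 cd7q1 pd3 true false false .nn 1 1 3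
    ndB0q1 ndB7q1 pcB3 cut_mm_113 Ext.none :=
  certB0 (fam := true) (s1 := false) (s2 := false) (a := 1) (b := 1) (c := 3) (cn := .nn) (n1 := ndB0q1) (n2 := ndB7q1) (pc := pcB3) (cut := cut_mm_113) (xt := Ext.none) (P1 := 536870912) (W1 := 536870912) (P2 := 536870912) (W2 := 536870912) (P3 := 697932185) (W3 := 42949674) (N0 := 3) (En := eng) (mo := mog) (C1 := cd0q1) (C2 := cd7q1) (C3 := pd3)
    rfl k0_mm_113

noncomputable def cut_mm_123 : Cut := Cut.of [[⟨3, 0, 0, 1449551462⟩]]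

noncomputable def f_mm_123 : ℕ → ℕ → ℕ → ℕ → Bool := onCell 536870912 536870912 1073741824 536870912 697932185 42949674
    (rowB 3 eng mog cd0q1 cd7q2 pd3 0 true false false .npn 1 2 3 (qsf 536870912 536870912 1073741824 536870912 3) ndB0q1 ndB7q2 pcB3 cut_mm_123 Ext.none)

def k0_mm_123 : ∃ t, chk3 f_mm_123 t 1 1 1 = true :=
  ⟨(l 4), by decide +kernel⟩

theorem c_mm_123 : CertB 536870912 536870912 1073741824 536870912 697932185 42949674 3 eng mog cd0q1 cd7q2 pd3 true false false .npn 1 2 3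
    ndB0q1 ndB7q2 pcB3 cut_mm_123 Ext.none :=
  certB0 (fam := true) (s1 := false) (s2 := false) (a := 1) (b := 2) (c := 3) (cn := .npn) (n1 := ndB0q1) (n2 := ndB7q2) (pc := pcB3) (cut := cut_mm_123) (xt := Ext.none) (P1 := 536870912) (W1 := 536870912) (P2 := 1073741824) (W2 := 536870912) (P3 := 697932185) (W3 := 42949674) (N0 := 3) (En := eng) (mo := mog) (C1 := cd0q1) (C2 := cd7q2) (C3 := pd3)
    rfl k0_mm_123

noncomputable def cut_mm_133 : Cut := Cut.of [[⟨3, 0, 0, 1449551462⟩]]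

noncomputable def f_mm_133 : ℕ → ℕ → ℕ → ℕ → Bool := onCell 536870912 536870912 0 1230186008 697932185 42949674
    (rowB 3 eng mog cd0q1 cd7q3 pd3 0 true false false .dn 1 3 3 (qsf 536870912 536870912 0 1230186008 3) ndB0q1 ndB7q3 pcB3 cut_mm_133 Ext.none)

def k0_mm_133 : ∃ t, chk3 f_mm_133 t 1 1 1 = true :=
  ⟨(l 4), by decide +kernel⟩

theorem c_mm_133 : CertB 536870912 536870912 0 1230186008 697932185 42949674 3 eng mog cd0q1 cd7q3 pd3 true false false .dn 1 3 3
    ndB0q1 ndB7q3 pcB3 cut_mm_133 Ext.none :=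
  certB0 (fam := true) (s1 := false) (s2 := false) (a := 1) (b := 3) (c := 3) (cn := .dn) (n1 := ndB0q1) (n2 := ndB7q3) (pc := pcB3) (cut := cut_mm_133) (xt := Ext.none) (P1 := 536870912) (W1 := 536870912) (P2 := 0) (W2 := 1230186008) (P3 := 697932185) (W3 := 42949674) (N0 := 3) (En := eng) (mo := mog) (C1 := cd0q1) (C2 := cd7q3) (C3 := pd3)
    rfl k0_mm_133

noncomputable def cut_mm_202 : Cut := Cut.of [[⟨3, 0, 0, 1449551462⟩]]

noncomputable def f_mm_202 : ℕ → ℕ → ℕ → ℕ → Bool := onCell 0 536870912 0 536870912 697932185 42949674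
    (rowB 3 eng mog cd0q2 cd7q0 pd2 0 true false false .pp 2 0 2 (qsf 0 536870912 0 536870912 2) ndB0q2 ndB7q0 pcB2 cut_mm_202 Ext.none)

def k0_mm_202 : ∃ t, chk3 f_mm_202 t 1 1 1 = true :=
  ⟨(l 4), by decide +kernel⟩

theorem c_mm_202 : CertB 0 536870912 0 536870912 697932185 42949674 3 eng mog cd0q2 cd7q0 pd2 true false false .pp 2 0 2
    ndB0q2 ndB7q0 pcB2 cut_mm_202 Ext.none :=
  certB0 (fam := true) (s1 := false) (s2 := false) (a := 2) (b := 0) (c := 2) (cn := .pp) (n1 := ndB0q2) (n2 := ndB7q0) (pc := pcB2) (cut := cut_mm_202) (xt := Ext.none) (P1 := 0) (W1 := 536870912) (P2 := 0) (W2 := 536870912) (P3 := 697932185) (W3 := 42949674) (N0 := 3) (En := eng) (mo := mog) (C1 := cd0q2) (C2 := cd7q0) (C3 := pd2)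
    rfl k0_mm_202

noncomputable def cut_mm_203 : Cut := Cut.of [[⟨3, 0, 0, 1449551462⟩]]

noncomputable def f_mm_203 : ℕ → ℕ → ℕ → ℕ → Bool := onCell 0 536870912 0 536870912 697932185 42949674
    (rowB 3 eng mog cd0q2 cd7q0 pd3 0 true false false .up 2 0 3 (qsf 0 536870912 0 536870912 3) ndB0q2 ndB7q0 pcB3 cut_mm_203 Ext.none)

def k0_mm_203 : ∃ t, chk3 f_mm_203 t 1 1 1 = true :=
  ⟨(l 4), by decide +kernel⟩

theorem c_mm_203 : CertB 0 536870912 0 536870912 697932185 42949674 3 eng mog cd0q2 cd7q0 pd3 true false false .up 2 0 3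
    ndB0q2 ndB7q0 pcB3 cut_mm_203 Ext.none :=
  certB0 (fam := true) (s1 := false) (s2 := false) (a := 2) (b := 0) (c := 3) (cn := .up) (n1 := ndB0q2) (n2 := ndB7q0) (pc := pcB3) (cut := cut_mm_203) (xt := Ext.none) (P1 := 0) (W1 := 536870912) (P2 := 0) (W2 := 536870912) (P3 := 697932185) (W3 := 42949674) (N0 := 3) (En := eng) (mo := mog) (C1 := cd0q2) (C2 := cd7q0) (C3 := pd3)
    rfl k0_mm_203

noncomputable def cut_mm_213 : Cut := Cut.of [[⟨3, 0, 0, 1449551462⟩]]

noncomputable def f_mm_213 : ℕ → ℕ → ℕ → ℕ → Bool := onCell 0 536870912 536870912 536870912 697932185 42949674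
    (rowB 3 eng mog cd0q2 cd7q1 pd3 0 true false false .pnn 2 1 3 (qsf 0 536870912 536870912 536870912 3) ndB0q2 ndB7q1 pcB3 cut_mm_213 Ext.none)

def k0_mm_213 : ∃ t, chk3 f_mm_213 t 1 1 1 = true :=
  ⟨(l 4), by decide +kernel⟩

theorem c_mm_213 : CertB 0 536870912 536870912 536870912 697932185 42949674 3 eng mog cd0q2 cd7q1 pd3 true false false .pnn 2 1 3
    ndB0q2 ndB7q1 pcB3 cut_mm_213 Ext.none :=
  certB0 (fam := true) (s1 := false) (s2 := false) (a := 2) (b := 1) (c := 3) (cn := .pnn) (n1 := ndB0q2) (n2 := ndB7q1) (pc := pcB3) (cut := cut_mm_213) (xt := Ext.none) (P1 := 0) (W1 := 536870912) (P2 := 536870912) (W2 := 536870912) (P3 := 697932185) (W3 := 42949674) (N0 := 3) (En := eng) (mo := mog) (C1 := cd0q2) (C2 := cd7q1) (C3 := pd3)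
    rfl k0_mm_213

end Pool.Agent.Strip051.G.I6500_6900.Tab.C.BA07

namespace Pool.Agent.Strip051.G.I6500_6900.Tab.C.BA11

open Pool.Agent.Strip051.PB Pool.Agent.Strip051.PB.T
open Pool.Agent.Strip051.G.I6500_6900.Tab

noncomputable def f_pp_001 : ℕ → ℕ → ℕ → ℕ → Bool := onCell 0 536870912 0 536870912 697932185 42949674
    (rowB 3 eng mog cd1q0 cd1q0 pd1 0 true true true .up 0 0 1 (qsf 0 536870912 0 536870912 1) ndB1q0 ndB1q0 pcB1 Cut.none Ext.none)

def k0_pp_001 : ∃ t, chk3 f_pp_001 t 1 1 1 = true :=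
  ⟨(l 4), by decide +kernel⟩

theorem c_pp_001 : CertB 0 536870912 0 536870912 697932185 42949674 3 eng mog cd1q0 cd1q0 pd1 true true true .up 0 0 1
    ndB1q0 ndB1q0 pcB1 Cut.none Ext.none :=
  certB0 (fam := true) (s1 := true) (s2 := true) (a := 0) (b := 0) (c := 1) (cn := .up) (n1 := ndB1q0) (n2 := ndB1q0) (pc := pcB1) (cut := Cut.none) (xt := Ext.none) (P1 := 0) (W1 := 536870912) (P2 := 0) (W2 := 536870912) (P3 := 697932185) (W3 := 42949674) (N0 := 3) (En := eng) (mo := mog) (C1 := cd1q0) (C2 := cd1q0) (C3 := pd1)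
    rfl k0_pp_001

noncomputable def f_pp_011 : ℕ → ℕ → ℕ → ℕ → Bool := onCell 0 536870912 536870912 536870912 697932185 42949674
    (rowB 3 eng mog cd1q0 cd1q1 pd1 0 true true true .pnn 0 1 1 (qsf 0 536870912 536870912 536870912 1) ndB1q0 ndB1q1 pcB1 Cut.none Ext.none)

def k0_pp_011 : ∃ t, chk3 f_pp_011 t 1 1 1 = true :=
  ⟨(l 4), by decide +kernel⟩

theorem c_pp_011 : CertB 0 536870912 536870912 536870912 697932185 42949674 3 eng mog cd1q0 cd1q1 pd1 true true true .pnn 0 1 1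
    ndB1q0 ndB1q1 pcB1 Cut.none Ext.none :=
  certB0 (fam := true) (s1 := true) (s2 := true) (a := 0) (b := 1) (c := 1) (cn := .pnn) (n1 := ndB1q0) (n2 := ndB1q1) (pc := pcB1) (cut := Cut.none) (xt := Ext.none) (P1 := 0) (W1 := 536870912) (P2 := 536870912) (W2 := 536870912) (P3 := 697932185) (W3 := 42949674) (N0 := 3) (En := eng) (mo := mog) (C1 := cd1q0) (C2 := cd1q1) (C3 := pd1)
    rfl k0_pp_011

noncomputable def f_pp_012 : ℕ → ℕ → ℕ → ℕ → Bool := onCell 0 536870912 536870912 536870912 697932185 42949674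
    (rowB 3 eng mog cd1q0 cd1q1 pd2 0 true true true .pnp 0 1 2 (qsf 0 536870912 536870912 536870912 2) ndB1q0 ndB1q1 pcB2 Cut.none Ext.none)

def k0_pp_012 : ∃ t, chk3 f_pp_012 t 1 1 1 = true :=
  ⟨(l 4), by decide +kernel⟩

theorem c_pp_012 : CertB 0 536870912 536870912 536870912 697932185 42949674 3 eng mog cd1q0 cd1q1 pd2 true true true .pnp 0 1 2
    ndB1q0 ndB1q1 pcB2 Cut.none Ext.none :=
  certB0 (fam := true) (s1 := true) (s2 := true) (a := 0) (b := 1) (c := 2) (cn := .pnp) (n1 := ndB1q0) (n2 := ndB1q1) (pc := pcB2) (cut := Cut.none) (xt := Ext.none) (P1 := 0) (W1 := 536870912) (P2 := 536870912) (W2 := 536870912) (P3 := 697932185) (W3 := 42949674) (N0 := 3) (En := eng) (mo := mog) (C1 := cd1q0) (C2 := cd1q1) (C3 := pd2)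
    rfl k0_pp_012

end Pool.Agent.Strip051.G.I6500_6900.Tab.C.BA11

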