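import Pool.Agent.Strip051.G.I6500_6900.AsmD
import Pool.Agent.Strip051.G.I6500_6900.TrB0
import Pool.Agent.Strip051.G.I6500_6900.TrB1
import Pool.Agent.Strip051.G.I6500_6900.TrB2
import Pool.Agent.Strip051.G.I6500_6900.TrB3
import Pool.Agent.Strip051.G.I6500_6900.TrB4
import Pool.Agent.Strip051.G.I6500_6900.TrB5
import Pool.Agent.Strip051.G.I6500_6900.TrB6
import Pool.Agent.Strip051.G.I6500_6900.TrB7
import Pool.Agent.Strip051.G.I6500_6900.TrB8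
import Pool.Agent.Strip051.G.I6500_6900.TrB9
import Pool.Agent.Strip051.G.I6500_6900.Crn12B
import Pool.Agent.Strip051.G.I6500_6900.Crn12C
import Pool.Agent.Strip051.G.I6500_6900.CrnE_0
import Pool.Agent.Strip051.G.I6500_6900.CrnE_1
import Pool.Agent.Strip051.G.I6500_6900.DgY
import Pool.Agent.Strip051.G.I6500_6900.MolT
import Pool.Agent.Strip051.G.I6500_6900.StE0
import Pool.Agent.Strip051.G.I6500_6900.StE1

/-! # Rows from certificates (generated) -/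

set_option linter.all false
set_option maxRecDepth 100000

namespace Pool.Agent.Strip051.G.I6500_6900.Tab

open Pool.Agent.Strip051.PB Pool.Agent.StripNear Pool.Agent.Strip051.LC

theorem BA00_pp_001 {κ x : ℝ} (hκ : κ * h0 = ken x) (hx : ((697932185 : ℕ) : ℝ) / S ≤ x) (hx' : x ≤ (((697932185 : ℕ) : ℝ) + (42949674 : ℕ)) / S) :
    TriA PP.cur (VE (h0 * 0) 3 κ (h0 * x) (eng.v x) (h0 * (3 / 40)) (tnt (h0 * x) (3 / 10)) (tbl tK x) (tbl tL x) (tbl (smT h0⁻¹ tC) x)) 0 0 1 0 0 1 1 :=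
  (sideB hx hx').bothA (thrB hx hx') (en_pos (hx1 hx).le) (Or.inl rfl) (Or.inl rfl) fun y y' F =>
    bothA_cert (s1 := true) (s2 := true) rfl hκ (en_pos (hx1 hx).le) (esg_rng (hx1 hx).le (hx2 hx').le).1 (mo_v x) covB00 covB00 hx hx'
        Pool.Agent.Strip051.G.I6500_6900.Tab.C.BA00.c_pp_001 (cutEA_cons (Pool.Agent.Strip051.G.I6500_6900.Tab.SE.se_A00pp_001_s hκ hx hx' cutEA_nil) (cutEA_cons (Pool.Agent.Strip051.G.I6500_6900.Tab.SE.se_A00pp_001_t hκ hx hx' cutEA_nil) cutEA_nil)) noExt_EA F trivial trivial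

theorem BA00_pp_011 {κ x : ℝ} (hκ : κ * h0 = ken x) (hx : ((697932185 : ℕ) : ℝ) / S ≤ x) (hx' : x ≤ (((697932185 : ℕ) : ℝ) + (42949674 : ℕ)) / S) :
    TriA PP.cur (VE (h0 * 0) 3 κ (h0 * x) (eng.v x) (h0 * (3 / 40)) (tnt (h0 * x) (3 / 10)) (tbl tK x) (tbl tL x) (tbl (smT h0⁻¹ tC) x)) 0 1 1 0 0 1 1 :=
  (sideB hx hx').bothA (thrB hx hx') (en_pos (hx1 hx).le) (Or.inl rfl) (Or.inl rfl) fun y y' F =>
    bothA_cert (s1 := true) (s2 := true) rfl hκ (en_pos (hx1 hx).le) (esg_rng (hx1 hx).le (hx2 hx').le).1 (mo_v x) covB00 covB01 hx hx'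
        Pool.Agent.Strip051.G.I6500_6900.Tab.C.BA00.c_pp_011 (cutEA_cons (Pool.Agent.Strip051.G.I6500_6900.Tab.SE.se_A00pp_011_s hκ hx hx' (cutEA_cons (Pool.Agent.Strip051.G.I6500_6900.Tab.altB_A011L_00 hκ hx hx') cutEA_nil)) (cutEA_cons (Pool.Agent.Strip051.G.I6500_6900.Tab.SE.se_A00pp_011_t hκ hx hx' (cutEA_cons (Pool.Agent.Strip051.G.I6500_6900.Tab.altB_A011L_00 hκ hx hx') cutEA_nil)) (cutEA_cons (Pool.Agent.Strip051.G.I6500_6900.Tab.altB_A011L_00 hκ hx hx') cutEA_nil))) noExt_EA F trivial trivial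

theorem BA00_pp_012 {κ x : ℝ} (hκ : κ * h0 = ken x) (hx : ((697932185 : ℕ) : ℝ) / S ≤ x) (hx' : x ≤ (((697932185 : ℕ) : ℝ) + (42949674 : ℕ)) / S) :
    TriA PP.cur (VE (h0 * 0) 3 κ (h0 * x) (eng.v x) (h0 * (3 / 40)) (tnt (h0 * x) (3 / 10)) (tbl tK x) (tbl tL x) (tbl (smT h0⁻¹ tC) x)) 0 1 2 0 0 1 1 :=
  (sideB hx hx').bothA (thrB hx hx') (en_pos (hx1 hx).le) (Or.inl rfl) (Or.inl rfl) fun y y' F =>
    bothA_cert (s1 := true) (s2 := true) rfl hκ (en_pos (hx1 hx).le) (esg_rng (hx1 hx).le (hx2 hx').le).1 (mo_v x) covB00 covB01 hx hx'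
        Pool.Agent.Strip051.G.I6500_6900.Tab.C.BA00.c_pp_012 (cutEA_cons (Pool.Agent.Strip051.G.I6500_6900.Tab.SE.se_A00pp_012_s hκ hx hx' (cutEA_cons (Pool.Agent.Strip051.G.I6500_6900.Tab.altB_A012L_00 hκ hx hx') cutEA_nil)) (cutEA_cons (Pool.Agent.Strip051.G.I6500_6900.Tab.SE.se_A00pp_012_t hκ hx hx' (cutEA_cons (Pool.Agent.Strip051.G.I6500_6900.Tab.altB_A012L_00 hκ hx hx') cutEA_nil)) (cutEA_cons (Pool.Agent.Strip051.G.I6500_6900.Tab.altB_A012L_00 hκ hx hx') cutEA_nil))) noExt_EA F trivial trivial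

theorem BA00_pp_022 {κ x : ℝ} (hκ : κ * h0 = ken x) (hx : ((697932185 : ℕ) : ℝ) / S ≤ x) (hx' : x ≤ (((697932185 : ℕ) : ℝ) + (42949674 : ℕ)) / S) :
    TriA PP.cur (VE (h0 * 0) 3 κ (h0 * x) (eng.v x) (h0 * (3 / 40)) (tnt (h0 * x) (3 / 10)) (tbl tK x) (tbl tL x) (tbl (smT h0⁻¹ tC) x)) 0 2 2 0 0 1 1 :=
  (sideB hx hx').bothA (thrB hx hx') (en_pos (hx1 hx).le) (Or.inl rfl) (Or.inl rfl) fun y y' F =>
    bothA_cert (s1 := true) (s2 := true) rfl hκ (en_pos (hx1 hx).le) (esg_rng (hx1 hx).le (hx2 hx').le).1 (mo_v x) covB00 covB02 hx hx'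
        Pool.Agent.Strip051.G.I6500_6900.Tab.C.BA00.c_pp_022 (cutEA_cons (Pool.Agent.Strip051.G.I6500_6900.Tab.SE.se_A00pp_022_s hκ hx hx' (cutEA_cons (Pool.Agent.Strip051.G.I6500_6900.Tab.altB_A022L_00 hκ hx hx') cutEA_nil)) (cutEA_cons (Pool.Agent.Strip051.G.I6500_6900.Tab.SE.se_A00pp_022_t hκ hx hx' (cutEA_cons (Pool.Agent.Strip051.G.I6500_6900.Tab.altB_A022L_00 hκ hx hx') cutEA_nil)) (cutEA_cons (Pool.Agent.Strip051.G.I6500_6900.Tab.altB_A022L_00 hκ hx hx') cutEA_nil))) noExt_EA F trivial trivial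

theorem BA00_pp_023 {κ x : ℝ} (hκ : κ * h0 = ken x) (hx : ((697932185 : ℕ) : ℝ) / S ≤ x) (hx' : x ≤ (((697932185 : ℕ) : ℝ) + (42949674 : ℕ)) / S) :
    TriA PP.cur (VE (h0 * 0) 3 κ (h0 * x) (eng.v x) (h0 * (3 / 40)) (tnt (h0 * x) (3 / 10)) (tbl tK x) (tbl tL x) (tbl (smT h0⁻¹ tC) x)) 0 2 3 0 0 1 1 :=
  (sideB hx hx').bothA (thrB hx hx') (en_pos (hx1 hx).le) (Or.inl rfl) (Or.inl rfl) fun y y' F =>
    bothA_cert (s1 := true) (s2 := true) rfl hκ (en_pos (hx1 hx).le) (esg_rng (hx1 hx).le (hx2 hx').le).1 (mo_v x) covB00 covB02 hx hx'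
        Pool.Agent.Strip051.G.I6500_6900.Tab.C.BA00.c_pp_023 (cutEA_cons (Pool.Agent.Strip051.G.I6500_6900.Tab.SE.se_A00pp_023_s hκ hx hx' cutEA_nil) (cutEA_cons (Pool.Agent.Strip051.G.I6500_6900.Tab.SE.se_A00pp_023_t hκ hx hx' cutEA_nil) cutEA_nil)) noExt_EA F trivial trivial

theorem BA00_pp_033 {κ x : ℝ} (hκ : κ * h0 = ken x) (hx : ((697932185 : ℕ) : ℝ) / S ≤ x) (hx' : x ≤ (((697932185 : ℕ) : ℝ) + (42949674 : ℕ)) / S) :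
    TriA PP.cur (VE (h0 * 0) 3 κ (h0 * x) (eng.v x) (h0 * (3 / 40)) (tnt (h0 * x) (3 / 10)) (tbl tK x) (tbl tL x) (tbl (smT h0⁻¹ tC) x)) 0 3 3 0 0 1 1 :=
  triA_k0

theorem BA00_pp_101 {κ x : ℝ} (hκ : κ * h0 = ken x) (hx : ((697932185 : ℕ) : ℝ) / S ≤ x) (hx' : x ≤ (((697932185 : ℕ) : ℝ) + (42949674 : ℕ)) / S) :
    TriA PP.cur (VE (h0 * 0) 3 κ (h0 * x) (eng.v x) (h0 * (3 / 40)) (tnt (h0 * x) (3 / 10)) (tbl tK x) (tbl tL x) (tbl (smT h0⁻¹ tC) x)) 1 0 1 0 0 1 1 :=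
  (sideB hx hx').bothA (thrB hx hx') (en_pos (hx1 hx).le) (Or.inl rfl) (Or.inl rfl) fun y y' F =>
    bothA_cert (s1 := true) (s2 := true) rfl hκ (en_pos (hx1 hx).le) (esg_rng (hx1 hx).le (hx2 hx').le).1 (mo_v x) covB01 covB00 hx hx'
        Pool.Agent.Strip051.G.I6500_6900.Tab.C.BA00.c_pp_101 (cutEA_cons (Pool.Agent.Strip051.G.I6500_6900.Tab.SE.se_A00pp_101_s hκ hx hx' cutEA_nil) (cutEA_cons (Pool.Agent.Strip051.G.I6500_6900.Tab.SE.se_A00pp_101_t hκ hx hx' cutEA_nil) cutEA_nil)) noExt_EA F trivial trivial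

theorem BA00_pp_102 {κ x : ℝ} (hκ : κ * h0 = ken x) (hx : ((697932185 : ℕ) : ℝ) / S ≤ x) (hx' : x ≤ (((697932185 : ℕ) : ℝ) + (42949674 : ℕ)) / S) :
    TriA PP.cur (VE (h0 * 0) 3 κ (h0 * x) (eng.v x) (h0 * (3 / 40)) (tnt (h0 * x) (3 / 10)) (tbl tK x) (tbl tL x) (tbl (smT h0⁻¹ tC) x)) 1 0 2 0 0 1 1 :=
  (sideB hx hx').bothA (thrB hx hx') (en_pos (hx1 hx).le) (Or.inl rfl) (Or.inl rfl) fun y y' F =>
    bothA_cert (s1 := true) (s2 := true) rfl hκ (en_pos (hx1 hx).le) (esg_rng (hx1 hx).le (hx2 hx').le).1 (mo_v x) covB01 covB00 hx hx'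
        Pool.Agent.Strip051.G.I6500_6900.Tab.C.BA00.c_pp_102 (cutEA_cons (Pool.Agent.Strip051.G.I6500_6900.Tab.SE.se_A00pp_102_s hκ hx hx' cutEA_nil) (cutEA_cons (Pool.Agent.Strip051.G.I6500_6900.Tab.SE.se_A00pp_102_t hκ hx hx' cutEA_nil) cutEA_nil)) noExt_EA F trivial trivial

theorem BA00_pp_112 {κ x : ℝ} (hκ : κ * h0 = ken x) (hx : ((697932185 : ℕ) : ℝ) / S ≤ x) (hx' : x ≤ (((697932185 : ℕ) : ℝ) + (42949674 : ℕ)) / S) :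
    TriA PP.cur (VE (h0 * 0) 3 κ (h0 * x) (eng.v x) (h0 * (3 / 40)) (tnt (h0 * x) (3 / 10)) (tbl tK x) (tbl tL x) (tbl (smT h0⁻¹ tC) x)) 1 1 2 0 0 1 1 :=
  (sideB hx hx').bothA (thrB hx hx') (en_pos (hx1 hx).le) (Or.inl rfl) (Or.inl rfl) fun y y' F =>
    bothA_cert (s1 := true) (s2 := true) rfl hκ (en_pos (hx1 hx).le) (esg_rng (hx1 hx).le (hx2 hx').le).1 (mo_v x) covB01 covB01 hx hx'
        Pool.Agent.Strip051.G.I6500_6900.Tab.C.BA00.c_pp_112 (cutEA_cons (Pool.Agent.Strip051.G.I6500_6900.Tab.SE.se_A00pp_112_s hκ hx hx' cutEA_nil) (cutEA_cons (Pool.Agent.Strip051.G.I6500_6900.Tab.SE.se_A00pp_112_t hκ hx hx' cutEA_nil) cutEA_nil)) noExt_EA F trivial trivial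

theorem BA00_pp_113 {κ x : ℝ} (hκ : κ * h0 = ken x) (hx : ((697932185 : ℕ) : ℝ) / S ≤ x) (hx' : x ≤ (((697932185 : ℕ) : ℝ) + (42949674 : ℕ)) / S) :
    TriA PP.cur (VE (h0 * 0) 3 κ (h0 * x) (eng.v x) (h0 * (3 / 40)) (tnt (h0 * x) (3 / 10)) (tbl tK x) (tbl tL x) (tbl (smT h0⁻¹ tC) x)) 1 1 3 0 0 1 1 :=
  (sideB hx hx').bothA (thrB hx hx') (en_pos (hx1 hx).le) (Or.inl rfl) (Or.inl rfl) fun y y' F =>
    bothA_cert (s1 := true) (s2 := true) rfl hκ (en_pos (hx1 hx).le) (esg_rng (hx1 hx).le (hx2 hx').le).1 (mo_v x) covB01 covB01 hx hx'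
        Pool.Agent.Strip051.G.I6500_6900.Tab.C.BA00.c_pp_113 (cutEA_cons (Pool.Agent.Strip051.G.I6500_6900.Tab.SE.se_A00pp_113_s hκ hx hx' cutEA_nil) (cutEA_cons (Pool.Agent.Strip051.G.I6500_6900.Tab.SE.se_A00pp_113_t hκ hx hx' cutEA_nil) cutEA_nil)) noExt_EA F trivial trivial

theorem BA00_pp_123 {κ x : ℝ} (hκ : κ * h0 = ken x) (hx : ((697932185 : ℕ) : ℝ) / S ≤ x) (hx' : x ≤ (((697932185 : ℕ) : ℝ) + (42949674 : ℕ)) / S) :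
    TriA PP.cur (VE (h0 * 0) 3 κ (h0 * x) (eng.v x) (h0 * (3 / 40)) (tnt (h0 * x) (3 / 10)) (tbl tK x) (tbl tL x) (tbl (smT h0⁻¹ tC) x)) 1 2 3 0 0 1 1 :=
  (sideB hx hx').bothA (thrB hx hx') (en_pos (hx1 hx).le) (Or.inl rfl) (Or.inl rfl) fun y y' F =>
    bothA_cert (s1 := true) (s2 := true) rfl hκ (en_pos (hx1 hx).le) (esg_rng (hx1 hx).le (hx2 hx').le).1 (mo_v x) covB01 covB02 hx hx'
        Pool.Agent.Strip051.G.I6500_6900.Tab.C.BA00.c_pp_123 (cutEA_cons (Pool.Agent.Strip051.G.I6500_6900.Tab.SE.se_A00pp_123_s hκ hx hx' cutEA_nil) (cutEA_cons (Pool.Agent.Strip051.G.I6500_6900.Tab.SE.se_A00pp_123_t hκ hx hx' cutEA_nil) cutEA_nil)) noExt_EA F trivial trivial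

theorem BA00_pp_133 {κ x : ℝ} (hκ : κ * h0 = ken x) (hx : ((697932185 : ℕ) : ℝ) / S ≤ x) (hx' : x ≤ (((697932185 : ℕ) : ℝ) + (42949674 : ℕ)) / S) :
    TriA PP.cur (VE (h0 * 0) 3 κ (h0 * x) (eng.v x) (h0 * (3 / 40)) (tnt (h0 * x) (3 / 10)) (tbl tK x) (tbl tL x) (tbl (smT h0⁻¹ tC) x)) 1 3 3 0 0 1 1 :=
  triA_k0

theorem BA00_pp_202 {κ x : ℝ} (hκ : κ * h0 = ken x) (hx : ((697932185 : ℕ) : ℝ) / S ≤ x) (hx' : x ≤ (((697932185 : ℕ) : ℝ) + (42949674 : ℕ)) / S) :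
    TriA PP.cur (VE (h0 * 0) 3 κ (h0 * x) (eng.v x) (h0 * (3 / 40)) (tnt (h0 * x) (3 / 10)) (tbl tK x) (tbl tL x) (tbl (smT h0⁻¹ tC) x)) 2 0 2 0 0 1 1 :=
  (sideB hx hx').bothA (thrB hx hx') (en_pos (hx1 hx).le) (Or.inl rfl) (Or.inl rfl) fun y y' F =>
    bothA_cert (s1 := true) (s2 := true) rfl hκ (en_pos (hx1 hx).le) (esg_rng (hx1 hx).le (hx2 hx').le).1 (mo_v x) covB02 covB00 hx hx'
        Pool.Agent.Strip051.G.I6500_6900.Tab.C.BA00.c_pp_202 (cutEA_cons (Pool.Agent.Strip051.G.I6500_6900.Tab.SE.se_A00pp_202_s hκ hx hx' cutEA_nil) (cutEA_cons (Pool.Agent.Strip051.G.I6500_6900.Tab.SE.se_A00pp_202_t hκ hx hx' cutEA_nil) cutEA_nil)) noExt_EA F trivial trivial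

theorem BA00_pp_203 {κ x : ℝ} (hκ : κ * h0 = ken x) (hx : ((697932185 : ℕ) : ℝ) / S ≤ x) (hx' : x ≤ (((697932185 : ℕ) : ℝ) + (42949674 : ℕ)) / S) :
    TriA PP.cur (VE (h0 * 0) 3 κ (h0 * x) (eng.v x) (h0 * (3 / 40)) (tnt (h0 * x) (3 / 10)) (tbl tK x) (tbl tL x) (tbl (smT h0⁻¹ tC) x)) 2 0 3 0 0 1 1 :=
  (sideB hx hx').bothA (thrB hx hx') (en_pos (hx1 hx).le) (Or.inl rfl) (Or.inl rfl) fun y y' F =>
    bothA_cert (s1 := true) (s2 := true) rfl hκ (en_pos (hx1 hx).le) (esg_rng (hx1 hx).le (hx2 hx').le).1 (mo_v x) covB02 covB00 hx hx'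
        Pool.Agent.Strip051.G.I6500_6900.Tab.C.BA00.c_pp_203 (cutEA_cons (Pool.Agent.Strip051.G.I6500_6900.Tab.SE.se_A00pp_203_s hκ hx hx' cutEA_nil) (cutEA_cons (Pool.Agent.Strip051.G.I6500_6900.Tab.SE.se_A00pp_203_t hκ hx hx' cutEA_nil) cutEA_nil)) noExt_EA F trivial trivial

theorem BA00_pp_213 {κ x : ℝ} (hκ : κ * h0 = ken x) (hx : ((697932185 : ℕ) : ℝ) / S ≤ x) (hx' : x ≤ (((697932185 : ℕ) : ℝ) + (42949674 : ℕ)) / S) :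
    TriA PP.cur (VE (h0 * 0) 3 κ (h0 * x) (eng.v x) (h0 * (3 / 40)) (tnt (h0 * x) (3 / 10)) (tbl tK x) (tbl tL x) (tbl (smT h0⁻¹ tC) x)) 2 1 3 0 0 1 1 :=
  (sideB hx hx').bothA (thrB hx hx') (en_pos (hx1 hx).le) (Or.inl rfl) (Or.inl rfl) fun y y' F =>
    bothA_cert (s1 := true) (s2 := true) rfl hκ (en_pos (hx1 hx).le) (esg_rng (hx1 hx).le (hx2 hx').le).1 (mo_v x) covB02 covB01 hx hx'
        Pool.Agent.Strip051.G.I6500_6900.Tab.C.BA00.c_pp_213 (cutEA_cons (Pool.Agent.Strip051.G.I6500_6900.Tab.SE.se_A00pp_213_s hκ hx hx' cutEA_nil) (cutEA_cons (Pool.Agent.Strip051.G.I6500_6900.Tab.SE.se_A00pp_213_t hκ hx hx' cutEA_nil) cutEA_nil)) noExt_EA F trivial trivial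

theorem BA00_pp_303 {κ x : ℝ} (hκ : κ * h0 = ken x) (hx : ((697932185 : ℕ) : ℝ) / S ≤ x) (hx' : x ≤ (((697932185 : ℕ) : ℝ) + (42949674 : ℕ)) / S) :
    TriA PP.cur (VE (h0 * 0) 3 κ (h0 * x) (eng.v x) (h0 * (3 / 40)) (tnt (h0 * x) (3 / 10)) (tbl tK x) (tbl tL x) (tbl (smT h0⁻¹ tC) x)) 3 0 3 0 0 1 1 :=
  triA_j0

theorem BA00_pp_313 {κ x : ℝ} (hκ : κ * h0 = ken x) (hx : ((697932185 : ℕ) : ℝ) / S ≤ x) (hx' : x ≤ (((697932185 : ℕ) : ℝ) + (42949674 : ℕ)) / S) :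
    TriA PP.cur (VE (h0 * 0) 3 κ (h0 * x) (eng.v x) (h0 * (3 / 40)) (tnt (h0 * x) (3 / 10)) (tbl tK x) (tbl tL x) (tbl (smT h0⁻¹ tC) x)) 3 1 3 0 0 1 1 :=
  triA_j0

theorem BA00_pm_001 {κ x : ℝ} (hκ : κ * h0 = ken x) (hx : ((697932185 : ℕ) : ℝ) / S ≤ x) (hx' : x ≤ (((697932185 : ℕ) : ℝ) + (42949674 : ℕ)) / S) :
    TriA PP.cur (VE (h0 * 0) 3 κ (h0 * x) (eng.v x) (h0 * (3 / 40)) (tnt (h0 * x) (3 / 10)) (tbl tK x) (tbl tL x) (tbl (smT h0⁻¹ tC) x)) 0 0 1 0 0 1 (-1) :=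
  (sideB hx hx').bothA (thrB hx hx') (en_pos (hx1 hx).le) (Or.inl rfl) (Or.inr rfl) fun y y' F =>
    bothA_cert (s1 := true) (s2 := false) rfl hκ (en_pos (hx1 hx).le) (esg_rng (hx1 hx).le (hx2 hx').le).1 (mo_v x) covB00 covB00 hx hx'
        Pool.Agent.Strip051.G.I6500_6900.Tab.C.BA00.c_pm_001 (cutEA_cons (Pool.Agent.Strip051.G.I6500_6900.Tab.SE.se_A00pm_001_s hκ hx hx' cutEA_nil) (cutEA_cons (Pool.Agent.Strip051.G.I6500_6900.Tab.SE.se_A00pm_001_t hκ hx hx' cutEA_nil) cutEA_nil)) noExt_EA F trivial trivial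

theorem BA00_pm_011 {κ x : ℝ} (hκ : κ * h0 = ken x) (hx : ((697932185 : ℕ) : ℝ) / S ≤ x) (hx' : x ≤ (((697932185 : ℕ) : ℝ) + (42949674 : ℕ)) / S) :
    TriA PP.cur (VE (h0 * 0) 3 κ (h0 * x) (eng.v x) (h0 * (3 / 40)) (tnt (h0 * x) (3 / 10)) (tbl tK x) (tbl tL x) (tbl (smT h0⁻¹ tC) x)) 0 1 1 0 0 1 (-1) :=
  (sideB hx hx').bothA (thrB hx hx') (en_pos (hx1 hx).le) (Or.inl rfl) (Or.inr rfl) fun y y' F =>
    bothA_cert (s1 := true) (s2 := false) rfl hκ (en_pos (hx1 hx).le) (esg_rng (hx1 hx).le (hx2 hx').le).1 (mo_v x) covB00 covB01 hx hx'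
        Pool.Agent.Strip051.G.I6500_6900.Tab.C.BA00.c_pm_011 (cutEA_cons (Pool.Agent.Strip051.G.I6500_6900.Tab.SE.se_A00pm_011_s hκ hx hx' (cutEA_cons (Pool.Agent.Strip051.G.I6500_6900.Tab.altB_A011E_00 hκ hx hx') cutEA_nil)) (cutEA_cons (Pool.Agent.Strip051.G.I6500_6900.Tab.SE.se_A00pm_011_t hκ hx hx' (cutEA_cons (Pool.Agent.Strip051.G.I6500_6900.Tab.altB_A011E_00 hκ hx hx') cutEA_nil)) (cutEA_cons (Pool.Agent.Strip051.G.I6500_6900.Tab.altB_A011E_00 hκ hx hx') cutEA_nil))) noExt_EA F trivial trivial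

theorem BA00_pm_012 {κ x : ℝ} (hκ : κ * h0 = ken x) (hx : ((697932185 : ℕ) : ℝ) / S ≤ x) (hx' : x ≤ (((697932185 : ℕ) : ℝ) + (42949674 : ℕ)) / S) :
    TriA PP.cur (VE (h0 * 0) 3 κ (h0 * x) (eng.v x) (h0 * (3 / 40)) (tnt (h0 * x) (3 / 10)) (tbl tK x) (tbl tL x) (tbl (smT h0⁻¹ tC) x)) 0 1 2 0 0 1 (-1) :=
  (sideB hx hx').bothA (thrB hx hx') (en_pos (hx1 hx).le) (Or.inl rfl) (Or.inr rfl) fun y y' F =>
    bothA_cert (s1 := true) (s2 := false) rfl hκ (en_pos (hx1 hx).le) (esg_rng (hx1 hx).le (hx2 hx').le).1 (mo_v x) covB00 covB01 hx hx'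
        Pool.Agent.Strip051.G.I6500_6900.Tab.C.BA00.c_pm_012 (cutEA_cons (Pool.Agent.Strip051.G.I6500_6900.Tab.SE.se_A00pm_012_s hκ hx hx' (cutEA_cons (Pool.Agent.Strip051.G.I6500_6900.Tab.altB_A012E_00 hκ hx hx') cutEA_nil)) (cutEA_cons (Pool.Agent.Strip051.G.I6500_6900.Tab.SE.se_A00pm_012_t hκ hx hx' (cutEA_cons (Pool.Agent.Strip051.G.I6500_6900.Tab.altB_A012E_00 hκ hx hx') cutEA_nil)) (cutEA_cons (Pool.Agent.Strip051.G.I6500_6900.Tab.altB_A012E_00 hκ hx hx') cutEA_nil))) (xdA0 hκ hx hx' rfl) F trivial trivial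

theorem BA00_pm_022 {κ x : ℝ} (hκ : κ * h0 = ken x) (hx : ((697932185 : ℕ) : ℝ) / S ≤ x) (hx' : x ≤ (((697932185 : ℕ) : ℝ) + (42949674 : ℕ)) / S) :
    TriA PP.cur (VE (h0 * 0) 3 κ (h0 * x) (eng.v x) (h0 * (3 / 40)) (tnt (h0 * x) (3 / 10)) (tbl tK x) (tbl tL x) (tbl (smT h0⁻¹ tC) x)) 0 2 2 0 0 1 (-1) :=
  (sideB hx hx').bothA (thrB hx hx') (en_pos (hx1 hx).le) (Or.inl rfl) (Or.inr rfl) fun y y' F =>
    bothA_cert (s1 := true) (s2 := false) rfl hκ (en_pos (hx1 hx).le) (esg_rng (hx1 hx).le (hx2 hx').le).1 (mo_v x) covB00 covB02 hx hx'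
        Pool.Agent.Strip051.G.I6500_6900.Tab.C.BA00.c_pm_022 (cutEA_cons (Pool.Agent.Strip051.G.I6500_6900.Tab.SE.se_A00pm_022_s hκ hx hx' (cutEA_cons (Pool.Agent.Strip051.G.I6500_6900.Tab.altB_A022E_00 hκ hx hx') cutEA_nil)) (cutEA_cons (Pool.Agent.Strip051.G.I6500_6900.Tab.SE.se_A00pm_022_t hκ hx hx' (cutEA_cons (Pool.Agent.Strip051.G.I6500_6900.Tab.altB_A022E_00 hκ hx hx') cutEA_nil)) (cutEA_cons (Pool.Agent.Strip051.G.I6500_6900.Tab.altB_A022E_00 hκ hx hx') cutEA_nil))) (xdA0 hκ hx hx' rfl) F trivial trivial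

theorem BA00_pm_023 {κ x : ℝ} (hκ : κ * h0 = ken x) (hx : ((697932185 : ℕ) : ℝ) / S ≤ x) (hx' : x ≤ (((697932185 : ℕ) : ℝ) + (42949674 : ℕ)) / S) :
    TriA PP.cur (VE (h0 * 0) 3 κ (h0 * x) (eng.v x) (h0 * (3 / 40)) (tnt (h0 * x) (3 / 10)) (tbl tK x) (tbl tL x) (tbl (smT h0⁻¹ tC) x)) 0 2 3 0 0 1 (-1) :=
  (sideB hx hx').bothA (thrB hx hx') (en_pos (hx1 hx).le) (Or.inl rfl) (Or.inr rfl) fun y y' F =>
    bothA_cert (s1 := true) (s2 := false) rfl hκ (en_pos (hx1 hx).le) (esg_rng (hx1 hx).le (hx2 hx').le).1 (mo_v x) covB00 covB02 hx hx'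
        Pool.Agent.Strip051.G.I6500_6900.Tab.C.BA00.c_pm_023 (cutEA_cons (Pool.Agent.Strip051.G.I6500_6900.Tab.SE.se_A00pm_023_s hκ hx hx' cutEA_nil) (cutEA_cons (Pool.Agent.Strip051.G.I6500_6900.Tab.SE.se_A00pm_023_t hκ hx hx' cutEA_nil) cutEA_nil)) (xdA0 hκ hx hx' rfl) F trivial trivial

theorem BA00_pm_033 {κ x : ℝ} (hκ : κ * h0 = ken x) (hx : ((697932185 : ℕ) : ℝ) / S ≤ x) (hx' : x ≤ (((697932185 : ℕ) : ℝ) + (42949674 : ℕ)) / S) :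
    TriA PP.cur (VE (h0 * 0) 3 κ (h0 * x) (eng.v x) (h0 * (3 / 40)) (tnt (h0 * x) (3 / 10)) (tbl tK x) (tbl tL x) (tbl (smT h0⁻¹ tC) x)) 0 3 3 0 0 1 (-1) :=
  triA_k0

theorem BA00_pm_101 {κ x : ℝ} (hκ : κ * h0 = ken x) (hx : ((697932185 : ℕ) : ℝ) / S ≤ x) (hx' : x ≤ (((697932185 : ℕ) : ℝ) + (42949674 : ℕ)) / S) :
    TriA PP.cur (VE (h0 * 0) 3 κ (h0 * x) (eng.v x) (h0 * (3 / 40)) (tnt (h0 * x) (3 / 10)) (tbl tK x) (tbl tL x) (tbl (smT h0⁻¹ tC) x)) 1 0 1 0 0 1 (-1) :=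
  (sideB hx hx').bothA (thrB hx hx') (en_pos (hx1 hx).le) (Or.inl rfl) (Or.inr rfl) fun y y' F =>
    bothA_cert (s1 := true) (s2 := false) rfl hκ (en_pos (hx1 hx).le) (esg_rng (hx1 hx).le (hx2 hx').le).1 (mo_v x) covB01 covB00 hx hx'
        Pool.Agent.Strip051.G.I6500_6900.Tab.C.BA00.c_pm_101 (cutEA_cons (Pool.Agent.Strip051.G.I6500_6900.Tab.SE.se_A00pm_101_s hκ hx hx' (cutEA_cons (Pool.Agent.Strip051.G.I6500_6900.Tab.altB_A101E_00 hκ hx hx') cutEA_nil)) (cutEA_cons (Pool.Agent.Strip051.G.I6500_6900.Tab.SE.se_A00pm_101_t hκ hx hx' (cutEA_cons (Pool.Agent.Strip051.G.I6500_6900.Tab.altB_A101E_00 hκ hx hx') cutEA_nil)) (cutEA_cons (Pool.Agent.Strip051.G.I6500_6900.Tab.altB_A101E_00 hκ hx hx') cutEA_nil))) noExt_EA F trivial trivial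

theorem BA00_pm_102 {κ x : ℝ} (hκ : κ * h0 = ken x) (hx : ((697932185 : ℕ) : ℝ) / S ≤ x) (hx' : x ≤ (((697932185 : ℕ) : ℝ) + (42949674 : ℕ)) / S) :
    TriA PP.cur (VE (h0 * 0) 3 κ (h0 * x) (eng.v x) (h0 * (3 / 40)) (tnt (h0 * x) (3 / 10)) (tbl tK x) (tbl tL x) (tbl (smT h0⁻¹ tC) x)) 1 0 2 0 0 1 (-1) :=
  (sideB hx hx').bothA (thrB hx hx') (en_pos (hx1 hx).le) (Or.inl rfl) (Or.inr rfl) fun y y' F =>
    bothA_cert (s1 := true) (s2 := false) rfl hκ (en_pos (hx1 hx).le) (esg_rng (hx1 hx).le (hx2 hx').le).1 (mo_v x) covB01 covB00 hx hx'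
        Pool.Agent.Strip051.G.I6500_6900.Tab.C.BA00.c_pm_102 (cutEA_cons (Pool.Agent.Strip051.G.I6500_6900.Tab.SE.se_A00pm_102_s hκ hx hx' (cutEA_cons (Pool.Agent.Strip051.G.I6500_6900.Tab.altB_A102E_00 hκ hx hx') cutEA_nil)) (cutEA_cons (Pool.Agent.Strip051.G.I6500_6900.Tab.SE.se_A00pm_102_t hκ hx hx' (cutEA_cons (Pool.Agent.Strip051.G.I6500_6900.Tab.altB_A102E_00 hκ hx hx') cutEA_nil)) (cutEA_cons (Pool.Agent.Strip051.G.I6500_6900.Tab.altB_A102E_00 hκ hx hx') cutEA_nil))) (xdA0 hκ hx hx' rfl) F trivial trivial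

theorem BA00_pm_112 {κ x : ℝ} (hκ : κ * h0 = ken x) (hx : ((697932185 : ℕ) : ℝ) / S ≤ x) (hx' : x ≤ (((697932185 : ℕ) : ℝ) + (42949674 : ℕ)) / S) :
    TriA PP.cur (VE (h0 * 0) 3 κ (h0 * x) (eng.v x) (h0 * (3 / 40)) (tnt (h0 * x) (3 / 10)) (tbl tK x) (tbl tL x) (tbl (smT h0⁻¹ tC) x)) 1 1 2 0 0 1 (-1) :=
  (sideB hx hx').bothA (thrB hx hx') (en_pos (hx1 hx).le) (Or.inl rfl) (Or.inr rfl) fun y y' F =>
    bothA_cert (s1 := true) (s2 := false) rfl hκ (en_pos (hx1 hx).le) (esg_rng (hx1 hx).le (hx2 hx').le).1 (mo_v x) covB01 covB01 hx hx'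
        Pool.Agent.Strip051.G.I6500_6900.Tab.C.BA00.c_pm_112 (cutEA_cons (Pool.Agent.Strip051.G.I6500_6900.Tab.SE.se_A00pm_112_s hκ hx hx' cutEA_nil) (cutEA_cons (Pool.Agent.Strip051.G.I6500_6900.Tab.SE.se_A00pm_112_t hκ hx hx' cutEA_nil) cutEA_nil)) (xdA0 hκ hx hx' rfl) F trivial trivial

theorem BA00_pm_113 {κ x : ℝ} (hκ : κ * h0 = ken x) (hx : ((697932185 : ℕ) : ℝ) / S ≤ x) (hx' : x ≤ (((697932185 : ℕ) : ℝ) + (42949674 : ℕ)) / S) :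
    TriA PP.cur (VE (h0 * 0) 3 κ (h0 * x) (eng.v x) (h0 * (3 / 40)) (tnt (h0 * x) (3 / 10)) (tbl tK x) (tbl tL x) (tbl (smT h0⁻¹ tC) x)) 1 1 3 0 0 1 (-1) :=
  (sideB hx hx').bothA (thrB hx hx') (en_pos (hx1 hx).le) (Or.inl rfl) (Or.inr rfl) fun y y' F =>
    bothA_cert (s1 := true) (s2 := false) rfl hκ (en_pos (hx1 hx).le) (esg_rng (hx1 hx).le (hx2 hx').le).1 (mo_v x) covB01 covB01 hx hx'
        Pool.Agent.Strip051.G.I6500_6900.Tab.C.BA00.c_pm_113 (cutEA_cons (Pool.Agent.Strip051.G.I6500_6900.Tab.SE.se_A00pm_113_s hκ hx hx' (cutEA_cons (Pool.Agent.Strip051.G.I6500_6900.Tab.alt12B_A113_00 hκ hx hx') (cutEA_cons (Pool.Agent.Strip051.G.I6500_6900.Tab.Mo.molE_A_113_00_0 hκ hx hx') (cutEA_cons (Pool.Agent.Strip051.G.I6500_6900.Tab.Mo.molE_A_113_00_1 hκ hx hx') cutEA_nil)))) (cutEA_cons (Pool.Agent.Strip051.G.I6500_6900.Tab.SE.se_A00pm_113_t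 hκ hx hx' (cutEA_cons (Pool.Agent.Strip051.G.I6500_6900.Tab.alt12B_A113_00 hκ hx hx') (cutEA_cons (Pool.Agent.Strip051.G.I6500_6900.Tab.Mo.molE_A_113_00_0 hκ hx hx') (cutEA_cons (Pool.Agent.Strip051.G.I6500_6900.Tab.Mo.molE_A_113_00_1 hκ hx hx') cutEA_nil)))) (cutEA_cons (Pool.Agent.Strip051.G.I6500_6900.Tab.alt12B_A113_00 hκ hx hx') (cutEA_cons (Pool.Agent.Strip051.G.I6500_6900.Tab.Mo.molE_A_113_00_0 hκ hx hx') (cutEA_cons (Pool.Agent.Strip051.G.I6500_6900.Tab.Mo.molE_A_113_00_1 hκ hx hx') cutEA_nil))))) (xdA0 hκ hx hx' rfl) F trivial trivial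

theorem BA00_pm_123 {κ x : ℝ} (hκ : κ * h0 = ken x) (hx : ((697932185 : ℕ) : ℝ) / S ≤ x) (hx' : x ≤ (((697932185 : ℕ) : ℝ) + (42949674 : ℕ)) / S) :
    TriA PP.cur (VE (h0 * 0) 3 κ (h0 * x) (eng.v x) (h0 * (3 / 40)) (tnt (h0 * x) (3 / 10)) (tbl tK x) (tbl tL x) (tbl (smT h0⁻¹ tC) x)) 1 2 3 0 0 1 (-1) :=
  (sideB hx hx').bothA (thrB hx hx') (en_pos (hx1 hx).le) (Or.inl rfl) (Or.inr rfl) fun y y' F =>
    bothA_cert (s1 := true) (s2 := false) rfl hκ (en_pos (hx1 hx).le) (esg_rng (hx1 hx).le (hx2 hx').le).1 (mo_v x) covB01 covB02 hx hx'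
        Pool.Agent.Strip051.G.I6500_6900.Tab.C.BA00.c_pm_123 (cutEA_cons (Pool.Agent.Strip051.G.I6500_6900.Tab.SE.se_A00pm_123_s hκ hx hx' (cutEA_cons (Pool.Agent.Strip051.G.I6500_6900.Tab.DG.alt12B_A123_00 hκ hx hx') (cutEA_cons (Pool.Agent.Strip051.G.I6500_6900.Tab.Mo.molE_A_123_00_0 hκ hx hx') cutEA_nil))) (cutEA_cons (Pool.Agent.Strip051.G.I6500_6900.Tab.SE.se_A00pm_123_t hκ hx hx' (cutEA_cons (Pool.Agent.Strip051.G.I6500_6900.Tab.DG.alt12B_A123_00 hκ hx hx') (cutEA_cons (Pool.Agent.Strip051.G.I6500_6900.Tab.Mo.molE_A_123_00_0 hκ hx hx') cutEA_nil))) (cutEA_cons (Pool.Agent.Strip051.G.I6500_6900.Tab.DG.alt12B_A123_00 hκ hx hx') (cutEA_cons (Pool.Agent.Strip051.G.I6500_6900.Tab.Mo.molE_A_123_00_0 hκ hx hx') cutEA_nil)))) (xdA0 hκ hx hx' rfl) F trivial trivial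

theorem BA00_pm_133 {κ x : ℝ} (hκ : κ * h0 = ken x) (hx : ((697932185 : ℕ) : ℝ) / S ≤ x) (hx' : x ≤ (((697932185 : ℕ) : ℝ) + (42949674 : ℕ)) / S) :
    TriA PP.cur (VE (h0 * 0) 3 κ (h0 * x) (eng.v x) (h0 * (3 / 40)) (tnt (h0 * x) (3 / 10)) (tbl tK x) (tbl tL x) (tbl (smT h0⁻¹ tC) x)) 1 3 3 0 0 1 (-1) :=
  triA_k0

theorem BA00_pm_202 {κ x : ℝ} (hκ : κ * h0 = ken x) (hx : ((697932185 : ℕ) : ℝ) / S ≤ x) (hx' : x ≤ (((697932185 : ℕ) : ℝ) + (42949674 : ℕ)) / S) :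
    TriA PP.cur (VE (h0 * 0) 3 κ (h0 * x) (eng.v x) (h0 * (3 / 40)) (tnt (h0 * x) (3 / 10)) (tbl tK x) (tbl tL x) (tbl (smT h0⁻¹ tC) x)) 2 0 2 0 0 1 (-1) :=
  (sideB hx hx').bothA (thrB hx hx') (en_pos (hx1 hx).le) (Or.inl rfl) (Or.inr rfl) fun y y' F =>
    bothA_cert (s1 := true) (s2 := false) rfl hκ (en_pos (hx1 hx).le) (esg_rng (hx1 hx).le (hx2 hx').le).1 (mo_v x) covB02 covB00 hx hx'
        Pool.Agent.Strip051.G.I6500_6900.Tab.C.BA00.c_pm_202 (cutEA_cons (Pool.Agent.Strip051.G.I6500_6900.Tab.SE.se_A00pm_202_s hκ hx hx' (cutEA_cons (Pool.Agent.Strip051.G.I6500_6900.Tab.altB_A202E_00 hκ hx hx') cutEA_nil)) (cutEA_cons (Pool.Agent.Strip051.G.I6500_6900.Tab.SE.se_A00pm_202_t hκ hx hx' (cutEA_cons (Pool.Agent.Strip051.G.I6500_6900.Tab.altB_A202E_00 hκ hx hx') cutEA_nil)) (cutEA_cons (Pool.Agent.Strip051.G.I6500_6900.Tab.altB_A202E_00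 hκ hx hx') cutEA_nil))) (xdA0 hκ hx hx' rfl) F trivial trivial

theorem BA00_pm_203 {κ x : ℝ} (hκ : κ * h0 = ken x) (hx : ((697932185 : ℕ) : ℝ) / S ≤ x) (hx' : x ≤ (((697932185 : ℕ) : ℝ) + (42949674 : ℕ)) / S) :
    TriA PP.cur (VE (h0 * 0) 3 κ (h0 * x) (eng.v x) (h0 * (3 / 40)) (tnt (h0 * x) (3 / 10)) (tbl tK x) (tbl tL x) (tbl (smT h0⁻¹ tC) x)) 2 0 3 0 0 1 (-1) :=
  (sideB hx hx').bothA (thrB hx hx') (en_pos (hx1 hx).le) (Or.inl rfl) (Or.inr rfl) fun y y' F =>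
    bothA_cert (s1 := true) (s2 := false) rfl hκ (en_pos (hx1 hx).le) (esg_rng (hx1 hx).le (hx2 hx').le).1 (mo_v x) covB02 covB00 hx hx'
        Pool.Agent.Strip051.G.I6500_6900.Tab.C.BA00.c_pm_203 (cutEA_cons (Pool.Agent.Strip051.G.I6500_6900.Tab.SE.se_A00pm_203_s hκ hx hx' cutEA_nil) (cutEA_cons (Pool.Agent.Strip051.G.I6500_6900.Tab.SE.se_A00pm_203_t hκ hx hx' cutEA_nil) cutEA_nil)) (xdA0 hκ hx hx' rfl) F trivial trivial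

theorem BA00_pm_213 {κ x : ℝ} (hκ : κ * h0 = ken x) (hx : ((697932185 : ℕ) : ℝ) / S ≤ x) (hx' : x ≤ (((697932185 : ℕ) : ℝ) + (42949674 : ℕ)) / S) :
    TriA PP.cur (VE (h0 * 0) 3 κ (h0 * x) (eng.v x) (h0 * (3 / 40)) (tnt (h0 * x) (3 / 10)) (tbl tK x) (tbl tL x) (tbl (smT h0⁻¹ tC) x)) 2 1 3 0 0 1 (-1) :=
  (sideB hx hx').bothA (thrB hx hx') (en_pos (hx1 hx).le) (Or.inl rfl) (Or.inr rfl) fun y y' F =>
    bothA_cert (s1 := true) (s2 := false) rfl hκ (en_pos (hx1 hx).le) (esg_rng (hx1 hx).le (hx2 hx').le).1 (mo_v x) covB02 covB01 hx hx'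
        Pool.Agent.Strip051.G.I6500_6900.Tab.C.BA00.c_pm_213 (cutEA_cons (Pool.Agent.Strip051.G.I6500_6900.Tab.SE.se_A00pm_213_s hκ hx hx' (cutEA_cons (Pool.Agent.Strip051.G.I6500_6900.Tab.DG.alt12B_A213_00 hκ hx hx') (cutEA_cons (Pool.Agent.Strip051.G.I6500_6900.Tab.Mo.molE_A_213_00_1 hκ hx hx') cutEA_nil))) (cutEA_cons (Pool.Agent.Strip051.G.I6500_6900.Tab.SE.se_A00pm_213_t hκ hx hx' (cutEA_cons (Pool.Agent.Strip051.G.I6500_6900.Tab.DG.alt12B_A213_00 hκ hx hx') (cutEA_cons (Pool.Agent.Strip051.G.I6500_6900.Tab.Mo.molE_A_213_00_1 hκ hx hx') cutEA_nil))) (cutEA_cons (Pool.Agent.Strip051.G.I6500_6900.Tab.DG.alt12B_A213_00 hκ hx hx') (cutEA_cons (Pool.Agent.Strip051.G.I6500_6900.Tab.Mo.molE_A_213_00_1 hκ hx hx') cutEA_nil)))) (xdA0 hκ hx hx' rfl) F trivial trivial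

theorem BA00_pm_303 {κ x : ℝ} (hκ : κ * h0 = ken x) (hx : ((697932185 : ℕ) : ℝ) / S ≤ x) (hx' : x ≤ (((697932185 : ℕ) : ℝ) + (42949674 : ℕ)) / S) :
    TriA PP.cur (VE (h0 * 0) 3 κ (h0 * x) (eng.v x) (h0 * (3 / 40)) (tnt (h0 * x) (3 / 10)) (tbl tK x) (tbl tL x) (tbl (smT h0⁻¹ tC) x)) 3 0 3 0 0 1 (-1) :=
  triA_j0

theorem BA00_pm_313 {κ x : ℝ} (hκ : κ * h0 = ken x) (hx : ((697932185 : ℕ) : ℝ) / S ≤ x) (hx' : x ≤ (((697932185 : ℕ) : ℝ) + (42949674 : ℕ)) / S) :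
    TriA PP.cur (VE (h0 * 0) 3 κ (h0 * x) (eng.v x) (h0 * (3 / 40)) (tnt (h0 * x) (3 / 10)) (tbl tK x) (tbl tL x) (tbl (smT h0⁻¹ tC) x)) 3 1 3 0 0 1 (-1) :=
  triA_j0

theorem BA00_mm_001 {κ x : ℝ} (hκ : κ * h0 = ken x) (hx : ((697932185 : ℕ) : ℝ) / S ≤ x) (hx' : x ≤ (((697932185 : ℕ) : ℝ) + (42949674 : ℕ)) / S) :
    TriA PP.cur (VE (h0 * 0) 3 κ (h0 * x) (eng.v x) (h0 * (3 / 40)) (tnt (h0 * x) (3 / 10)) (tbl tK x) (tbl tL x) (tbl (smT h0⁻¹ tC) x)) 0 0 1 0 0 (-1) (-1) :=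
  (sideB hx hx').bothA (thrB hx hx') (en_pos (hx1 hx).le) (Or.inr rfl) (Or.inr rfl) fun y y' F =>
    bothA_cert (s1 := false) (s2 := false) rfl hκ (en_pos (hx1 hx).le) (esg_rng (hx1 hx).le (hx2 hx').le).1 (mo_v x) covB00 covB00 hx hx'
        Pool.Agent.Strip051.G.I6500_6900.Tab.C.BA00.c_mm_001 (cutEA_cons (Pool.Agent.Strip051.G.I6500_6900.Tab.SE.se_A00mm_001_s hκ hx hx' cutEA_nil) (cutEA_cons (Pool.Agent.Strip051.G.I6500_6900.Tab.SE.se_A00mm_001_t hκ hx hx' cutEA_nil) cutEA_nil)) noExt_EA F trivial trivial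

theorem BA00_mm_011 {κ x : ℝ} (hκ : κ * h0 = ken x) (hx : ((697932185 : ℕ) : ℝ) / S ≤ x) (hx' : x ≤ (((697932185 : ℕ) : ℝ) + (42949674 : ℕ)) / S) :
    TriA PP.cur (VE (h0 * 0) 3 κ (h0 * x) (eng.v x) (h0 * (3 / 40)) (tnt (h0 * x) (3 / 10)) (tbl tK x) (tbl tL x) (tbl (smT h0⁻¹ tC) x)) 0 1 1 0 0 (-1) (-1) :=
  (sideB hx hx').bothA (thrB hx hx') (en_pos (hx1 hx).le) (Or.inr rfl) (Or.inr rfl) fun y y' F =>
    bothA_cert (s1 := false) (s2 := false) rfl hκ (en_pos (hx1 hx).le) (esg_rng (hx1 hx).le (hx2 hx').le).1 (mo_v x) covB00 covB01 hx hx'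
        Pool.Agent.Strip051.G.I6500_6900.Tab.C.BA00.c_mm_011 (cutEA_cons (Pool.Agent.Strip051.G.I6500_6900.Tab.SE.se_A00mm_011_s hκ hx hx' cutEA_nil) (cutEA_cons (Pool.Agent.Strip051.G.I6500_6900.Tab.SE.se_A00mm_011_t hκ hx hx' cutEA_nil) cutEA_nil)) noExt_EA F trivial trivial

theorem BA00_mm_012 {κ x : ℝ} (hκ : κ * h0 = ken x) (hx : ((697932185 : ℕ) : ℝ) / S ≤ x) (hx' : x ≤ (((697932185 : ℕ) : ℝ) + (42949674 : ℕ)) / S) :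
    TriA PP.cur (VE (h0 * 0) 3 κ (h0 * x) (eng.v x) (h0 * (3 / 40)) (tnt (h0 * x) (3 / 10)) (tbl tK x) (tbl tL x) (tbl (smT h0⁻¹ tC) x)) 0 1 2 0 0 (-1) (-1) :=
  (sideB hx hx').bothA (thrB hx hx') (en_pos (hx1 hx).le) (Or.inr rfl) (Or.inr rfl) fun y y' F =>
    bothA_cert (s1 := false) (s2 := false) rfl hκ (en_pos (hx1 hx).le) (esg_rng (hx1 hx).le (hx2 hx').le).1 (mo_v x) covB00 covB01 hx hx'
        Pool.Agent.Strip051.G.I6500_6900.Tab.C.BA00.c_mm_012 (cutEA_cons (Pool.Agent.Strip051.G.I6500_6900.Tab.SE.se_A00mm_012_s hκ hx hx' cutEA_nil) (cutEA_cons (Pool.Agent.Strip051.G.I6500_6900.Tab.SE.se_A00mm_012_t hκ hx hx' cutEA_nil) cutEA_nil)) noExt_EA F trivial trivial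

theorem BA00_mm_022 {κ x : ℝ} (hκ : κ * h0 = ken x) (hx : ((697932185 : ℕ) : ℝ) / S ≤ x) (hx' : x ≤ (((697932185 : ℕ) : ℝ) + (42949674 : ℕ)) / S) :
    TriA PP.cur (VE (h0 * 0) 3 κ (h0 * x) (eng.v x) (h0 * (3 / 40)) (tnt (h0 * x) (3 / 10)) (tbl tK x) (tbl tL x) (tbl (smT h0⁻¹ tC) x)) 0 2 2 0 0 (-1) (-1) :=
  (sideB hx hx').bothA (thrB hx hx') (en_pos (hx1 hx).le) (Or.inr rfl) (Or.inr rfl) fun y y' F =>
    bothA_cert (s1 := false) (s2 := false) rfl hκ (en_pos (hx1 hx).le) (esg_rng (hx1 hx).le (hx2 hx').le).1 (mo_v x) covB00 covB02 hx hx'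
        Pool.Agent.Strip051.G.I6500_6900.Tab.C.BA00.c_mm_022 (cutEA_cons (Pool.Agent.Strip051.G.I6500_6900.Tab.SE.se_A00mm_022_s hκ hx hx' cutEA_nil) (cutEA_cons (Pool.Agent.Strip051.G.I6500_6900.Tab.SE.se_A00mm_022_t hκ hx hx' cutEA_nil) cutEA_nil)) noExt_EA F trivial trivial

theorem BA00_mm_023 {κ x : ℝ} (hκ : κ * h0 = ken x) (hx : ((697932185 : ℕ) : ℝ) / S ≤ x) (hx' : x ≤ (((697932185 : ℕ) : ℝ) + (42949674 : ℕ)) / S) :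
    TriA PP.cur (VE (h0 * 0) 3 κ (h0 * x) (eng.v x) (h0 * (3 / 40)) (tnt (h0 * x) (3 / 10)) (tbl tK x) (tbl tL x) (tbl (smT h0⁻¹ tC) x)) 0 2 3 0 0 (-1) (-1) :=
  (sideB hx hx').bothA (thrB hx hx') (en_pos (hx1 hx).le) (Or.inr rfl) (Or.inr rfl) fun y y' F =>
    bothA_cert (s1 := false) (s2 := false) rfl hκ (en_pos (hx1 hx).le) (esg_rng (hx1 hx).le (hx2 hx').le).1 (mo_v x) covB00 covB02 hx hx'
        Pool.Agent.Strip051.G.I6500_6900.Tab.C.BA00.c_mm_023 (cutEA_cons (Pool.Agent.Strip051.G.I6500_6900.Tab.SE.se_A00mm_023_s hκ hx hx' cutEA_nil) (cutEA_cons (Pool.Agent.Strip051.G.I6500_6900.Tab.SE.se_A00mm_023_t hκ hx hx' cutEA_nil) cutEA_nil)) noExt_EA F trivial trivial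

theorem BA00_mm_033 {κ x : ℝ} (hκ : κ * h0 = ken x) (hx : ((697932185 : ℕ) : ℝ) / S ≤ x) (hx' : x ≤ (((697932185 : ℕ) : ℝ) + (42949674 : ℕ)) / S) :
    TriA PP.cur (VE (h0 * 0) 3 κ (h0 * x) (eng.v x) (h0 * (3 / 40)) (tnt (h0 * x) (3 / 10)) (tbl tK x) (tbl tL x) (tbl (smT h0⁻¹ tC) x)) 0 3 3 0 0 (-1) (-1) :=
  triA_k0

theorem BA00_mm_101 {κ x : ℝ} (hκ : κ * h0 = ken x) (hx : ((697932185 : ℕ) : ℝ) / S ≤ x) (hx' : x ≤ (((697932185 : ℕ) : ℝ) + (42949674 : ℕ)) / S) :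
    TriA PP.cur (VE (h0 * 0) 3 κ (h0 * x) (eng.v x) (h0 * (3 / 40)) (tnt (h0 * x) (3 / 10)) (tbl tK x) (tbl tL x) (tbl (smT h0⁻¹ tC) x)) 1 0 1 0 0 (-1) (-1) :=
  (sideB hx hx').bothA (thrB hx hx') (en_pos (hx1 hx).le) (Or.inr rfl) (Or.inr rfl) fun y y' F =>
    bothA_cert (s1 := false) (s2 := false) rfl hκ (en_pos (hx1 hx).le) (esg_rng (hx1 hx).le (hx2 hx').le).1 (mo_v x) covB01 covB00 hx hx'
        Pool.Agent.Strip051.G.I6500_6900.Tab.C.BA00.c_mm_101 (cutEA_cons (Pool.Agent.Strip051.G.I6500_6900.Tab.SE.se_A00mm_101_s hκ hx hx' (cutEA_cons (Pool.Agent.Strip051.G.I6500_6900.Tab.altB_A101R_00 hκ hx hx') cutEA_nil)) (cutEA_cons (Pool.Agent.Strip051.G.I6500_6900.Tab.SE.se_A00mm_101_t hκ hx hx' (cutEA_cons (Pool.Agent.Strip051.G.I6500_6900.Tab.altB_A101R_00 hκ hx hx') cutEA_nil)) (cutEA_cons (Pool.Agent.Strip051.G.I6500_6900.Tab.altB_A101R_00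 hκ hx hx') cutEA_nil))) noExt_EA F trivial trivial

theorem BA00_mm_102 {κ x : ℝ} (hκ : κ * h0 = ken x) (hx : ((697932185 : ℕ) : ℝ) / S ≤ x) (hx' : x ≤ (((697932185 : ℕ) : ℝ) + (42949674 : ℕ)) / S) :
    TriA PP.cur (VE (h0 * 0) 3 κ (h0 * x) (eng.v x) (h0 * (3 / 40)) (tnt (h0 * x) (3 / 10)) (tbl tK x) (tbl tL x) (tbl (smT h0⁻¹ tC) x)) 1 0 2 0 0 (-1) (-1) :=
  (sideB hx hx').bothA (thrB hx hx') (en_pos (hx1 hx).le) (Or.inr rfl) (Or.inr rfl) fun y y' F =>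
    bothA_cert (s1 := false) (s2 := false) rfl hκ (en_pos (hx1 hx).le) (esg_rng (hx1 hx).le (hx2 hx').le).1 (mo_v x) covB01 covB00 hx hx'
        Pool.Agent.Strip051.G.I6500_6900.Tab.C.BA00.c_mm_102 (cutEA_cons (Pool.Agent.Strip051.G.I6500_6900.Tab.SE.se_A00mm_102_s hκ hx hx' (cutEA_cons (Pool.Agent.Strip051.G.I6500_6900.Tab.altB_A102R_00 hκ hx hx') cutEA_nil)) (cutEA_cons (Pool.Agent.Strip051.G.I6500_6900.Tab.SE.se_A00mm_102_t hκ hx hx' (cutEA_cons (Pool.Agent.Strip051.G.I6500_6900.Tab.altB_A102R_00 hκ hx hx') cutEA_nil)) (cutEA_cons (Pool.Agent.Strip051.G.I6500_6900.Tab.altB_A102R_00 hκ hx hx') cutEA_nil))) noExt_EA F trivial trivial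

theorem BA00_mm_112 {κ x : ℝ} (hκ : κ * h0 = ken x) (hx : ((697932185 : ℕ) : ℝ) / S ≤ x) (hx' : x ≤ (((697932185 : ℕ) : ℝ) + (42949674 : ℕ)) / S) :
    TriA PP.cur (VE (h0 * 0) 3 κ (h0 * x) (eng.v x) (h0 * (3 / 40)) (tnt (h0 * x) (3 / 10)) (tbl tK x) (tbl tL x) (tbl (smT h0⁻¹ tC) x)) 1 1 2 0 0 (-1) (-1) :=
  (sideB hx hx').bothA (thrB hx hx') (en_pos (hx1 hx).le) (Or.inr rfl) (Or.inr rfl) fun y y' F =>
    bothA_cert (s1 := false) (s2 := false) rfl hκ (en_pos (hx1 hx).le) (esg_rng (hx1 hx).le (hx2 hx').le).1 (mo_v x) covB01 covB01 hx hx'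
        Pool.Agent.Strip051.G.I6500_6900.Tab.C.BA00.c_mm_112 (cutEA_cons (Pool.Agent.Strip051.G.I6500_6900.Tab.SE.se_A00mm_112_s hκ hx hx' cutEA_nil) (cutEA_cons (Pool.Agent.Strip051.G.I6500_6900.Tab.SE.se_A00mm_112_t hκ hx hx' cutEA_nil) cutEA_nil)) noExt_EA F trivial trivial

theorem BA00_mm_113 {κ x : ℝ} (hκ : κ * h0 = ken x) (hx : ((697932185 : ℕ) : ℝ) / S ≤ x) (hx' : x ≤ (((697932185 : ℕ) : ℝ) + (42949674 : ℕ)) / S) :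
    TriA PP.cur (VE (h0 * 0) 3 κ (h0 * x) (eng.v x) (h0 * (3 / 40)) (tnt (h0 * x) (3 / 10)) (tbl tK x) (tbl tL x) (tbl (smT h0⁻¹ tC) x)) 1 1 3 0 0 (-1) (-1) :=
  (sideB hx hx').bothA (thrB hx hx') (en_pos (hx1 hx).le) (Or.inr rfl) (Or.inr rfl) fun y y' F =>
    bothA_cert (s1 := false) (s2 := false) rfl hκ (en_pos (hx1 hx).le) (esg_rng (hx1 hx).le (hx2 hx').le).1 (mo_v x) covB01 covB01 hx hx'
        Pool.Agent.Strip051.G.I6500_6900.Tab.C.BA00.c_mm_113 (cutEA_cons (Pool.Agent.Strip051.G.I6500_6900.Tab.SE.se_A00mm_113_s hκ hx hx' cutEA_nil) (cutEA_cons (Pool.Agent.Strip051.G.I6500_6900.Tab.SE.se_A00mm_113_t hκ hx hx' cutEA_nil) cutEA_nil)) noExt_EA F trivial trivial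

theorem BA00_mm_123 {κ x : ℝ} (hκ : κ * h0 = ken x) (hx : ((697932185 : ℕ) : ℝ) / S ≤ x) (hx' : x ≤ (((697932185 : ℕ) : ℝ) + (42949674 : ℕ)) / S) :
    TriA PP.cur (VE (h0 * 0) 3 κ (h0 * x) (eng.v x) (h0 * (3 / 40)) (tnt (h0 * x) (3 / 10)) (tbl tK x) (tbl tL x) (tbl (smT h0⁻¹ tC) x)) 1 2 3 0 0 (-1) (-1) :=
  (sideB hx hx').bothA (thrB hx hx') (en_pos (hx1 hx).le) (Or.inr rfl) (Or.inr rfl) fun y y' F =>
    bothA_cert (s1 := false) (s2 := false) rfl hκ (en_pos (hx1 hx).le) (esg_rng (hx1 hx).le (hx2 hx').le).1 (mo_v x) covB01 covB02 hx hx'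
        Pool.Agent.Strip051.G.I6500_6900.Tab.C.BA00.c_mm_123 (cutEA_cons (Pool.Agent.Strip051.G.I6500_6900.Tab.SE.se_A00mm_123_s hκ hx hx' cutEA_nil) (cutEA_cons (Pool.Agent.Strip051.G.I6500_6900.Tab.SE.se_A00mm_123_t hκ hx hx' cutEA_nil) cutEA_nil)) noExt_EA F trivial trivial

theorem BA00_mm_133 {κ x : ℝ} (hκ : κ * h0 = ken x) (hx : ((697932185 : ℕ) : ℝ) / S ≤ x) (hx' : x ≤ (((697932185 : ℕ) : ℝ) + (42949674 : ℕ)) / S) :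
    TriA PP.cur (VE (h0 * 0) 3 κ (h0 * x) (eng.v x) (h0 * (3 / 40)) (tnt (h0 * x) (3 / 10)) (tbl tK x) (tbl tL x) (tbl (smT h0⁻¹ tC) x)) 1 3 3 0 0 (-1) (-1) :=
  triA_k0

theorem BA00_mm_202 {κ x : ℝ} (hκ : κ * h0 = ken x) (hx : ((697932185 : ℕ) : ℝ) / S ≤ x) (hx' : x ≤ (((697932185 : ℕ) : ℝ) + (42949674 : ℕ)) / S) :
    TriA PP.cur (VE (h0 * 0) 3 κ (h0 * x) (eng.v x) (h0 * (3 / 40)) (tnt (h0 * x) (3 / 10)) (tbl tK x) (tbl tL x) (tbl (smT h0⁻¹ tC) x)) 2 0 2 0 0 (-1) (-1) :=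
  (sideB hx hx').bothA (thrB hx hx') (en_pos (hx1 hx).le) (Or.inr rfl) (Or.inr rfl) fun y y' F =>
    bothA_cert (s1 := false) (s2 := false) rfl hκ (en_pos (hx1 hx).le) (esg_rng (hx1 hx).le (hx2 hx').le).1 (mo_v x) covB02 covB00 hx hx'
        Pool.Agent.Strip051.G.I6500_6900.Tab.C.BA00.c_mm_202 (cutEA_cons (Pool.Agent.Strip051.G.I6500_6900.Tab.SE.se_A00mm_202_s hκ hx hx' (cutEA_cons (Pool.Agent.Strip051.G.I6500_6900.Tab.altB_A202R_00 hκ hx hx') cutEA_nil)) (cutEA_cons (Pool.Agent.Strip051.G.I6500_6900.Tab.SE.se_A00mm_202_t hκ hx hx' (cutEA_cons (Pool.Agent.Strip051.G.I6500_6900.Tab.altB_A202R_00 hκ hx hx') cutEA_nil)) (cutEA_cons (Pool.Agent.Strip051.G.I6500_6900.Tab.altB_A202R_00 hκ hx hx') cutEA_nil))) noExt_EA F trivial trivial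

theorem BA00_mm_203 {κ x : ℝ} (hκ : κ * h0 = ken x) (hx : ((697932185 : ℕ) : ℝ) / S ≤ x) (hx' : x ≤ (((697932185 : ℕ) : ℝ) + (42949674 : ℕ)) / S) :
    TriA PP.cur (VE (h0 * 0) 3 κ (h0 * x) (eng.v x) (h0 * (3 / 40)) (tnt (h0 * x) (3 / 10)) (tbl tK x) (tbl tL x) (tbl (smT h0⁻¹ tC) x)) 2 0 3 0 0 (-1) (-1) :=
  (sideB hx hx').bothA (thrB hx hx') (en_pos (hx1 hx).le) (Or.inr rfl) (Or.inr rfl) fun y y' F =>
    bothA_cert (s1 := false) (s2 := false) rfl hκ (en_pos (hx1 hx).le) (esg_rng (hx1 hx).le (hx2 hx').le).1 (mo_v x) covB02 covB00 hx hx'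
        Pool.Agent.Strip051.G.I6500_6900.Tab.C.BA00.c_mm_203 (cutEA_cons (Pool.Agent.Strip051.G.I6500_6900.Tab.SE.se_A00mm_203_s hκ hx hx' cutEA_nil) (cutEA_cons (Pool.Agent.Strip051.G.I6500_6900.Tab.SE.se_A00mm_203_t hκ hx hx' cutEA_nil) cutEA_nil)) noExt_EA F trivial trivial

theorem BA00_mm_213 {κ x : ℝ} (hκ : κ * h0 = ken x) (hx : ((697932185 : ℕ) : ℝ) / S ≤ x) (hx' : x ≤ (((697932185 : ℕ) : ℝ) + (42949674 : ℕ)) / S) :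
    TriA PP.cur (VE (h0 * 0) 3 κ (h0 * x) (eng.v x) (h0 * (3 / 40)) (tnt (h0 * x) (3 / 10)) (tbl tK x) (tbl tL x) (tbl (smT h0⁻¹ tC) x)) 2 1 3 0 0 (-1) (-1) :=
  (sideB hx hx').bothA (thrB hx hx') (en_pos (hx1 hx).le) (Or.inr rfl) (Or.inr rfl) fun y y' F =>
    bothA_cert (s1 := false) (s2 := false) rfl hκ (en_pos (hx1 hx).le) (esg_rng (hx1 hx).le (hx2 hx').le).1 (mo_v x) covB02 covB01 hx hx'
        Pool.Agent.Strip051.G.I6500_6900.Tab.C.BA00.c_mm_213 (cutEA_cons (Pool.Agent.Strip051.G.I6500_6900.Tab.SE.se_A00mm_213_s hκ hx hx' cutEA_nil) (cutEA_cons (Pool.Agent.Strip051.G.I6500_6900.Tab.SE.se_A00mm_213_t hκ hx hx' cutEA_nil) cutEA_nil)) noExt_EA F trivial trivial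

theorem BA00_mm_303 {κ x : ℝ} (hκ : κ * h0 = ken x) (hx : ((697932185 : ℕ) : ℝ) / S ≤ x) (hx' : x ≤ (((697932185 : ℕ) : ℝ) + (42949674 : ℕ)) / S) :
    TriA PP.cur (VE (h0 * 0) 3 κ (h0 * x) (eng.v x) (h0 * (3 / 40)) (tnt (h0 * x) (3 / 10)) (tbl tK x) (tbl tL x) (tbl (smT h0⁻¹ tC) x)) 3 0 3 0 0 (-1) (-1) :=
  triA_j0

theorem BA00_mm_313 {κ x : ℝ} (hκ : κ * h0 = ken x) (hx : ((697932185 : ℕ) : ℝ) / S ≤ x) (hx' : x ≤ (((697932185 : ℕ) : ℝ) + (42949674 : ℕ)) / S) :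
    TriA PP.cur (VE (h0 * 0) 3 κ (h0 * x) (eng.v x) (h0 * (3 / 40)) (tnt (h0 * x) (3 / 10)) (tbl tK x) (tbl tL x) (tbl (smT h0⁻¹ tC) x)) 3 1 3 0 0 (-1) (-1) :=
  triA_j0

theorem BA00 {κ x : ℝ} (hκ : κ * h0 = ken x) (hx : ((697932185 : ℕ) : ℝ) / S ≤ x) (hx' : x ≤ (((697932185 : ℕ) : ℝ) + (42949674 : ℕ)) / S) : AllTA PP.cur (VE (h0 * 0) 3 κ (h0 * x) (eng.v x) (h0 * (3 / 40)) (tnt (h0 * x) (3 / 10)) (tbl tK x) (tbl tL x) (tbl (smT h0⁻¹ tC) x)) 0 0 where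
  pp := all17 (Q := fun a b c => TriA PP.cur (VE (h0 * 0) 3 κ (h0 * x) (eng.v x) (h0 * (3 / 40)) (tnt (h0 * x) (3 / 10)) (tbl tK x) (tbl tL x) (tbl (smT h0⁻¹ tC) x)) a b c 0 0 1 1)
    (BA00_pp_001 hκ hx hx') (BA00_pp_011 hκ hx hx') (BA00_pp_012 hκ hx hx') (BA00_pp_022 hκ hx hx') (BA00_pp_023 hκ hx hx') (BA00_pp_033 hκ hx hx') (BA00_pp_101 hκ hx hx') (BA00_pp_102 hκ hx hx') (BA00_pp_112 hκ hx hx') (BA00_pp_113 hκ hx hx') (BA00_pp_123 hκ hx hx') (BA00_pp_133 hκ hx hx') (BA00_pp_202 hκ hx hx') (BA00_pp_203 hκ hx hx') (BA00_pp_213 hκ hx hx') (BA00_pp_303 hκ hx hx') (BA00_pp_313 hκ hx hx')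
  pm := all17 (Q := fun a b c => TriA PP.cur (VE (h0 * 0) 3 κ (h0 * x) (eng.v x) (h0 * (3 / 40)) (tnt (h0 * x) (3 / 10)) (tbl tK x) (tbl tL x) (tbl (smT h0⁻¹ tC) x)) a b c 0 0 1 (-1))
    (BA00_pm_001 hκ hx hx') (BA00_pm_011 hκ hx hx') (BA00_pm_012 hκ hx hx') (BA00_pm_022 hκ hx hx') (BA00_pm_023 hκ hx hx') (BA00_pm_033 hκ hx hx') (BA00_pm_101 hκ hx hx') (BA00_pm_102 hκ hx hx') (BA00_pm_112 hκ hx hx') (BA00_pm_113 hκ hx hx') (BA00_pm_123 hκ hx hx') (BA00_pm_133 hκ hx hx') (BA00_pm_202 hκ hx hx') (BA00_pm_203 hκ hx hx') (BA00_pm_213 hκ hx hx') (BA00_pm_303 hκ hx hx') (BA00_pm_313 hκ hx hx')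
  mm := all17 (Q := fun a b c => TriA PP.cur (VE (h0 * 0) 3 κ (h0 * x) (eng.v x) (h0 * (3 / 40)) (tnt (h0 * x) (3 / 10)) (tbl tK x) (tbl tL x) (tbl (smT h0⁻¹ tC) x)) a b c 0 0 (-1) (-1))
    (BA00_mm_001 hκ hx hx') (BA00_mm_011 hκ hx hx') (BA00_mm_012 hκ hx hx') (BA00_mm_022 hκ hx hx') (BA00_mm_023 hκ hx hx') (BA00_mm_033 hκ hx hx') (BA00_mm_101 hκ hx hx') (BA00_mm_102 hκ hx hx') (BA00_mm_112 hκ hx hx') (BA00_mm_113 hκ hx hx') (BA00_mm_123 hκ hx hx') (BA00_mm_133 hκ hx hx') (BA00_mm_202 hκ hx hx') (BA00_mm_203 hκ hx hx') (BA00_mm_213 hκ hx hx') (BA00_mm_303 hκ hx hx') (BA00_mm_313 hκ hx hx')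

theorem BA01_pp_001 {κ x : ℝ} (hκ : κ * h0 = ken x) (hx : ((697932185 : ℕ) : ℝ) / S ≤ x) (hx' : x ≤ (((697932185 : ℕ) : ℝ) + (42949674 : ℕ)) / S) :
    TriA PP.cur (VE (h0 * 0) 3 κ (h0 * x) (eng.v x) (h0 * (3 / 40)) (tnt (h0 * x) (3 / 10)) (tbl tK x) (tbl tL x) (tbl (smT h0⁻¹ tC) x)) 0 0 1 0 1 1 1 :=
  (sideB hx hx').bothA (thrB hx hx') (en_pos (hx1 hx).le) (Or.inl rfl) (Or.inl rfl) fun y y' F =>
    bothA_cert (s1 := true) (s2 := true) rfl hκ (en_pos (hx1 hx).le) (esg_rng (hx1 hx).le (hx2 hx').le).1 (mo_v x) covB00 covB10 hx hx'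
        Pool.Agent.Strip051.G.I6500_6900.Tab.C.BA01.c_pp_001 noCut_EA noExt_EA F trivial trivial

theorem BA01_pp_011 {κ x : ℝ} (hκ : κ * h0 = ken x) (hx : ((697932185 : ℕ) : ℝ) / S ≤ x) (hx' : x ≤ (((697932185 : ℕ) : ℝ) + (42949674 : ℕ)) / S) :
    TriA PP.cur (VE (h0 * 0) 3 κ (h0 * x) (eng.v x) (h0 * (3 / 40)) (tnt (h0 * x) (3 / 10)) (tbl tK x) (tbl tL x) (tbl (smT h0⁻¹ tC) x)) 0 1 1 0 1 1 1 :=
  (sideB hx hx').bothA (thrB hx hx') (en_pos (hx1 hx).le) (Or.inl rfl) (Or.inl rfl) fun y y' F =>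
    bothA_cert (s1 := true) (s2 := true) rfl hκ (en_pos (hx1 hx).le) (esg_rng (hx1 hx).le (hx2 hx').le).1 (mo_v x) covB00 covB11 hx hx'
        Pool.Agent.Strip051.G.I6500_6900.Tab.C.BA01.c_pp_011 noCut_EA noExt_EA F trivial trivial

theorem BA01_pp_012 {κ x : ℝ} (hκ : κ * h0 = ken x) (hx : ((697932185 : ℕ) : ℝ) / S ≤ x) (hx' : x ≤ (((697932185 : ℕ) : ℝ) + (42949674 : ℕ)) / S) :
    TriA PP.cur (VE (h0 * 0) 3 κ (h0 * x) (eng.v x) (h0 * (3 / 40)) (tnt (h0 * x) (3 / 10)) (tbl tK x) (tbl tL x) (tbl (smT h0⁻¹ tC) x)) 0 1 2 0 1 1 1 :=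
  (sideB hx hx').bothA (thrB hx hx') (en_pos (hx1 hx).le) (Or.inl rfl) (Or.inl rfl) fun y y' F =>
    bothA_cert (s1 := true) (s2 := true) rfl hκ (en_pos (hx1 hx).le) (esg_rng (hx1 hx).le (hx2 hx').le).1 (mo_v x) covB00 covB11 hx hx'
        Pool.Agent.Strip051.G.I6500_6900.Tab.C.BA01.c_pp_012 noCut_EA noExt_EA F trivial trivial

theorem BA01_pp_022 {κ x : ℝ} (hκ : κ * h0 = ken x) (hx : ((697932185 : ℕ) : ℝ) / S ≤ x) (hx' : x ≤ (((697932185 : ℕ) : ℝ) + (42949674 : ℕ)) / S) :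
    TriA PP.cur (VE (h0 * 0) 3 κ (h0 * x) (eng.v x) (h0 * (3 / 40)) (tnt (h0 * x) (3 / 10)) (tbl tK x) (tbl tL x) (tbl (smT h0⁻¹ tC) x)) 0 2 2 0 1 1 1 :=
  (sideB hx hx').bothA (thrB hx hx') (en_pos (hx1 hx).le) (Or.inl rfl) (Or.inl rfl) fun y y' F =>
    (lt_or_ge (h0 * y') 1).elim
      (fun g => bothA_cert (s1 := true) (s2 := true) rfl hκ (en_pos (hx1 hx).le) (esg_rng (hx1 hx).le (hx2 hx').le).1 (mo_v x) covB00 covB12a hx hx'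
        Pool.Agent.Strip051.G.I6500_6900.Tab.C.BA01.c_pp_022_a (cutEA_cons (Pool.Agent.Strip051.G.I6500_6900.Tab.altB_A022L_01 hκ hx hx') cutEA_nil) noExt_EA F trivial g)
      (fun g => bothA_cert (s1 := true) (s2 := true) rfl hκ (en_pos (hx1 hx).le) (esg_rng (hx1 hx).le (hx2 hx').le).1 (mo_v x) covB00 covB12b hx hx'
        Pool.Agent.Strip051.G.I6500_6900.Tab.C.BA01.c_pp_022_b (cutEA_cons (Pool.Agent.Strip051.G.I6500_6900.Tab.altB_A022L_01 hκ hx hx') cutEA_nil) noExt_EA F trivial g)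

theorem BA01_pp_023 {κ x : ℝ} (hκ : κ * h0 = ken x) (hx : ((697932185 : ℕ) : ℝ) / S ≤ x) (hx' : x ≤ (((697932185 : ℕ) : ℝ) + (42949674 : ℕ)) / S) :
    TriA PP.cur (VE (h0 * 0) 3 κ (h0 * x) (eng.v x) (h0 * (3 / 40)) (tnt (h0 * x) (3 / 10)) (tbl tK x) (tbl tL x) (tbl (smT h0⁻¹ tC) x)) 0 2 3 0 1 1 1 :=
  (sideB hx hx').bothA (thrB hx hx') (en_pos (hx1 hx).le) (Or.inl rfl) (Or.inl rfl) fun y y' F =>
    (lt_or_ge (h0 * y') 1).elim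
      (fun g => bothA_cert (s1 := true) (s2 := true) rfl hκ (en_pos (hx1 hx).le) (esg_rng (hx1 hx).le (hx2 hx').le).1 (mo_v x) covB00 covB12a hx hx'
        Pool.Agent.Strip051.G.I6500_6900.Tab.C.BA01.c_pp_023_a noCut_EA noExt_EA F trivial g)
      (fun g => bothA_cert (s1 := true) (s2 := true) rfl hκ (en_pos (hx1 hx).le) (esg_rng (hx1 hx).le (hx2 hx').le).1 (mo_v x) covB00 covB12b hx hx'
        Pool.Agent.Strip051.G.I6500_6900.Tab.C.BA01.c_pp_023_b noCut_EA noExt_EA F trivial g)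

theorem BA01_pp_033 {κ x : ℝ} (hκ : κ * h0 = ken x) (hx : ((697932185 : ℕ) : ℝ) / S ≤ x) (hx' : x ≤ (((697932185 : ℕ) : ℝ) + (42949674 : ℕ)) / S) :
    TriA PP.cur (VE (h0 * 0) 3 κ (h0 * x) (eng.v x) (h0 * (3 / 40)) (tnt (h0 * x) (3 / 10)) (tbl tK x) (tbl tL x) (tbl (smT h0⁻¹ tC) x)) 0 3 3 0 1 1 1 :=
  (sideB hx hx').bothA (thrB hx hx') (en_pos (hx1 hx).le) (Or.inl rfl) (Or.inl rfl) fun y y' F =>
    bothA_cert (s1 := true) (s2 := true) rfl hκ (en_pos (hx1 hx).le) (esg_rng (hx1 hx).le (hx2 hx').le).1 (mo_v x) covB00 covB13 hx hx'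
        Pool.Agent.Strip051.G.I6500_6900.Tab.C.BA01.c_pp_033 noCut_EA noExt_EA F trivial trivial

theorem BA01_pp_101 {κ x : ℝ} (hκ : κ * h0 = ken x) (hx : ((697932185 : ℕ) : ℝ) / S ≤ x) (hx' : x ≤ (((697932185 : ℕ) : ℝ) + (42949674 : ℕ)) / S) :
    TriA PP.cur (VE (h0 * 0) 3 κ (h0 * x) (eng.v x) (h0 * (3 / 40)) (tnt (h0 * x) (3 / 10)) (tbl tK x) (tbl tL x) (tbl (smT h0⁻¹ tC) x)) 1 0 1 0 1 1 1 :=
  (sideB hx hx').bothA (thrB hx hx') (en_pos (hx1 hx).le) (Or.inl rfl) (Or.inl rfl) fun y y' F =>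
    bothA_cert (s1 := true) (s2 := true) rfl hκ (en_pos (hx1 hx).le) (esg_rng (hx1 hx).le (hx2 hx').le).1 (mo_v x) covB01 covB10 hx hx'
        Pool.Agent.Strip051.G.I6500_6900.Tab.C.BA01.c_pp_101 noCut_EA noExt_EA F trivial trivial

theorem BA01_pp_102 {κ x : ℝ} (hκ : κ * h0 = ken x) (hx : ((697932185 : ℕ) : ℝ) / S ≤ x) (hx' : x ≤ (((697932185 : ℕ) : ℝ) + (42949674 : ℕ)) / S) :
    TriA PP.cur (VE (h0 * 0) 3 κ (h0 * x) (eng.v x) (h0 * (3 / 40)) (tnt (h0 * x) (3 / 10)) (tbl tK x) (tbl tL x) (tbl (smT h0⁻¹ tC) x)) 1 0 2 0 1 1 1 :=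
  (sideB hx hx').bothA (thrB hx hx') (en_pos (hx1 hx).le) (Or.inl rfl) (Or.inl rfl) fun y y' F =>
    bothA_cert (s1 := true) (s2 := true) rfl hκ (en_pos (hx1 hx).le) (esg_rng (hx1 hx).le (hx2 hx').le).1 (mo_v x) covB01 covB10 hx hx'
        Pool.Agent.Strip051.G.I6500_6900.Tab.C.BA01.c_pp_102 noCut_EA noExt_EA F trivial trivial

theorem BA01_pp_112 {κ x : ℝ} (hκ : κ * h0 = ken x) (hx : ((697932185 : ℕ) : ℝ) / S ≤ x) (hx' : x ≤ (((697932185 : ℕ) : ℝ) + (42949674 : ℕ)) / S) :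
    TriA PP.cur (VE (h0 * 0) 3 κ (h0 * x) (eng.v x) (h0 * (3 / 40)) (tnt (h0 * x) (3 / 10)) (tbl tK x) (tbl tL x) (tbl (smT h0⁻¹ tC) x)) 1 1 2 0 1 1 1 :=
  (sideB hx hx').bothA (thrB hx hx') (en_pos (hx1 hx).le) (Or.inl rfl) (Or.inl rfl) fun y y' F =>
    bothA_cert (s1 := true) (s2 := true) rfl hκ (en_pos (hx1 hx).le) (esg_rng (hx1 hx).le (hx2 hx').le).1 (mo_v x) covB01 covB11 hx hx'
        Pool.Agent.Strip051.G.I6500_6900.Tab.C.BA01.c_pp_112 noCut_EA noExt_EA F trivial trivial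

theorem BA01_pp_113 {κ x : ℝ} (hκ : κ * h0 = ken x) (hx : ((697932185 : ℕ) : ℝ) / S ≤ x) (hx' : x ≤ (((697932185 : ℕ) : ℝ) + (42949674 : ℕ)) / S) :
    TriA PP.cur (VE (h0 * 0) 3 κ (h0 * x) (eng.v x) (h0 * (3 / 40)) (tnt (h0 * x) (3 / 10)) (tbl tK x) (tbl tL x) (tbl (smT h0⁻¹ tC) x)) 1 1 3 0 1 1 1 :=
  (sideB hx hx').bothA (thrB hx hx') (en_pos (hx1 hx).le) (Or.inl rfl) (Or.inl rfl) fun y y' F =>
    bothA_cert (s1 := true) (s2 := true) rfl hκ (en_pos (hx1 hx).le) (esg_rng (hx1 hx).le (hx2 hx').le).1 (mo_v x) covB01 covB11 hx hx'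
        Pool.Agent.Strip051.G.I6500_6900.Tab.C.BA01.c_pp_113 noCut_EA noExt_EA F trivial trivial

theorem BA01_pp_123 {κ x : ℝ} (hκ : κ * h0 = ken x) (hx : ((697932185 : ℕ) : ℝ) / S ≤ x) (hx' : x ≤ (((697932185 : ℕ) : ℝ) + (42949674 : ℕ)) / S) :
    TriA PP.cur (VE (h0 * 0) 3 κ (h0 * x) (eng.v x) (h0 * (3 / 40)) (tnt (h0 * x) (3 / 10)) (tbl tK x) (tbl tL x) (tbl (smT h0⁻¹ tC) x)) 1 2 3 0 1 1 1 :=
  (sideB hx hx').bothA (thrB hx hx') (en_pos (hx1 hx).le) (Or.inl rfl) (Or.inl rfl) fun y y' F =>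
    (lt_or_ge (h0 * y') 1).elim
      (fun g => bothA_cert (s1 := true) (s2 := true) rfl hκ (en_pos (hx1 hx).le) (esg_rng (hx1 hx).le (hx2 hx').le).1 (mo_v x) covB01 covB12a hx hx'
        Pool.Agent.Strip051.G.I6500_6900.Tab.C.BA01.c_pp_123_a noCut_EA noExt_EA F trivial g)
      (fun g => bothA_cert (s1 := true) (s2 := true) rfl hκ (en_pos (hx1 hx).le) (esg_rng (hx1 hx).le (hx2 hx').le).1 (mo_v x) covB01 covB12b hx hx'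
        Pool.Agent.Strip051.G.I6500_6900.Tab.C.BA01.c_pp_123_b noCut_EA noExt_EA F trivial g)

theorem BA01_pp_133 {κ x : ℝ} (hκ : κ * h0 = ken x) (hx : ((697932185 : ℕ) : ℝ) / S ≤ x) (hx' : x ≤ (((697932185 : ℕ) : ℝ) + (42949674 : ℕ)) / S) :
    TriA PP.cur (VE (h0 * 0) 3 κ (h0 * x) (eng.v x) (h0 * (3 / 40)) (tnt (h0 * x) (3 / 10)) (tbl tK x) (tbl tL x) (tbl (smT h0⁻¹ tC) x)) 1 3 3 0 1 1 1 :=
  (sideB hx hx').bothA (thrB hx hx') (en_pos (hx1 hx).le) (Or.inl rfl) (Or.inl rfl) fun y y' F =>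
    bothA_cert (s1 := true) (s2 := true) rfl hκ (en_pos (hx1 hx).le) (esg_rng (hx1 hx).le (hx2 hx').le).1 (mo_v x) covB01 covB13 hx hx'
        Pool.Agent.Strip051.G.I6500_6900.Tab.C.BA01.c_pp_133 noCut_EA noExt_EA F trivial trivial

theorem BA01_pp_202 {κ x : ℝ} (hκ : κ * h0 = ken x) (hx : ((697932185 : ℕ) : ℝ) / S ≤ x) (hx' : x ≤ (((697932185 : ℕ) : ℝ) + (42949674 : ℕ)) / S) :
    TriA PP.cur (VE (h0 * 0) 3 κ (h0 * x) (eng.v x) (h0 * (3 / 40)) (tnt (h0 * x) (3 / 10)) (tbl tK x) (tbl tL x) (tbl (smT h0⁻¹ tC) x)) 2 0 2 0 1 1 1 :=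
  (sideB hx hx').bothA (thrB hx hx') (en_pos (hx1 hx).le) (Or.inl rfl) (Or.inl rfl) fun y y' F =>
    bothA_cert (s1 := true) (s2 := true) rfl hκ (en_pos (hx1 hx).le) (esg_rng (hx1 hx).le (hx2 hx').le).1 (mo_v x) covB02 covB10 hx hx'
        Pool.Agent.Strip051.G.I6500_6900.Tab.C.BA01.c_pp_202 noCut_EA noExt_EA F trivial trivial

theorem BA01_pp_203 {κ x : ℝ} (hκ : κ * h0 = ken x) (hx : ((697932185 : ℕ) : ℝ) / S ≤ x) (hx' : x ≤ (((697932185 : ℕ) : ℝ) + (42949674 : ℕ)) / S) :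
    TriA PP.cur (VE (h0 * 0) 3 κ (h0 * x) (eng.v x) (h0 * (3 / 40)) (tnt (h0 * x) (3 / 10)) (tbl tK x) (tbl tL x) (tbl (smT h0⁻¹ tC) x)) 2 0 3 0 1 1 1 :=
  (sideB hx hx').bothA (thrB hx hx') (en_pos (hx1 hx).le) (Or.inl rfl) (Or.inl rfl) fun y y' F =>
    bothA_cert (s1 := true) (s2 := true) rfl hκ (en_pos (hx1 hx).le) (esg_rng (hx1 hx).le (hx2 hx').le).1 (mo_v x) covB02 covB10 hx hx'
        Pool.Agent.Strip051.G.I6500_6900.Tab.C.BA01.c_pp_203 noCut_EA noExt_EA F trivial trivial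

theorem BA01_pp_213 {κ x : ℝ} (hκ : κ * h0 = ken x) (hx : ((697932185 : ℕ) : ℝ) / S ≤ x) (hx' : x ≤ (((697932185 : ℕ) : ℝ) + (42949674 : ℕ)) / S) :
    TriA PP.cur (VE (h0 * 0) 3 κ (h0 * x) (eng.v x) (h0 * (3 / 40)) (tnt (h0 * x) (3 / 10)) (tbl tK x) (tbl tL x) (tbl (smT h0⁻¹ tC) x)) 2 1 3 0 1 1 1 :=
  (sideB hx hx').bothA (thrB hx hx') (en_pos (hx1 hx).le) (Or.inl rfl) (Or.inl rfl) fun y y' F =>
    bothA_cert (s1 := true) (s2 := true) rfl hκ (en_pos (hx1 hx).le) (esg_rng (hx1 hx).le (hx2 hx').le).1 (mo_v x) covB02 covB11 hx hx'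
        Pool.Agent.Strip051.G.I6500_6900.Tab.C.BA01.c_pp_213 noCut_EA noExt_EA F trivial trivial

theorem BA01_pp_303 {κ x : ℝ} (hκ : κ * h0 = ken x) (hx : ((697932185 : ℕ) : ℝ) / S ≤ x) (hx' : x ≤ (((697932185 : ℕ) : ℝ) + (42949674 : ℕ)) / S) :
    TriA PP.cur (VE (h0 * 0) 3 κ (h0 * x) (eng.v x) (h0 * (3 / 40)) (tnt (h0 * x) (3 / 10)) (tbl tK x) (tbl tL x) (tbl (smT h0⁻¹ tC) x)) 3 0 3 0 1 1 1 :=
  triA_j0

theorem BA01_pp_313 {κ x : ℝ} (hκ : κ * h0 = ken x) (hx : ((697932185 : ℕ) : ℝ) / S ≤ x) (hx' : x ≤ (((697932185 : ℕ) : ℝ) + (42949674 : ℕ)) / S) :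
    TriA PP.cur (VE (h0 * 0) 3 κ (h0 * x) (eng.v x) (h0 * (3 / 40)) (tnt (h0 * x) (3 / 10)) (tbl tK x) (tbl tL x) (tbl (smT h0⁻¹ tC) x)) 3 1 3 0 1 1 1 :=
  triA_j0

theorem BA01_pm_001 {κ x : ℝ} (hκ : κ * h0 = ken x) (hx : ((697932185 : ℕ) : ℝ) / S ≤ x) (hx' : x ≤ (((697932185 : ℕ) : ℝ) + (42949674 : ℕ)) / S) :
    TriA PP.cur (VE (h0 * 0) 3 κ (h0 * x) (eng.v x) (h0 * (3 / 40)) (tnt (h0 * x) (3 / 10)) (tbl tK x) (tbl tL x) (tbl (smT h0⁻¹ tC) x)) 0 0 1 0 1 1 (-1) :=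
  (sideB hx hx').bothA (thrB hx hx') (en_pos (hx1 hx).le) (Or.inl rfl) (Or.inr rfl) fun y y' F =>
    bothA_cert (s1 := true) (s2 := false) rfl hκ (en_pos (hx1 hx).le) (esg_rng (hx1 hx).le (hx2 hx').le).1 (mo_v x) covB00 covB10 hx hx'
        Pool.Agent.Strip051.G.I6500_6900.Tab.C.BA01.c_pm_001 noCut_EA noExt_EA F trivial trivial

theorem BA01_pm_011 {κ x : ℝ} (hκ : κ * h0 = ken x) (hx : ((697932185 : ℕ) : ℝ) / S ≤ x) (hx' : x ≤ (((697932185 : ℕ) : ℝ) + (42949674 : ℕ)) / S) :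
    TriA PP.cur (VE (h0 * 0) 3 κ (h0 * x) (eng.v x) (h0 * (3 / 40)) (tnt (h0 * x) (3 / 10)) (tbl tK x) (tbl tL x) (tbl (smT h0⁻¹ tC) x)) 0 1 1 0 1 1 (-1) :=
  (sideB hx hx').bothA (thrB hx hx') (en_pos (hx1 hx).le) (Or.inl rfl) (Or.inr rfl) fun y y' F =>
    bothA_cert (s1 := true) (s2 := false) rfl hκ (en_pos (hx1 hx).le) (esg_rng (hx1 hx).le (hx2 hx').le).1 (mo_v x) covB00 covB11 hx hx'
        Pool.Agent.Strip051.G.I6500_6900.Tab.C.BA01.c_pm_011 noCut_EA noExt_EA F trivial trivial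

theorem BA01_pm_012 {κ x : ℝ} (hκ : κ * h0 = ken x) (hx : ((697932185 : ℕ) : ℝ) / S ≤ x) (hx' : x ≤ (((697932185 : ℕ) : ℝ) + (42949674 : ℕ)) / S) :
    TriA PP.cur (VE (h0 * 0) 3 κ (h0 * x) (eng.v x) (h0 * (3 / 40)) (tnt (h0 * x) (3 / 10)) (tbl tK x) (tbl tL x) (tbl (smT h0⁻¹ tC) x)) 0 1 2 0 1 1 (-1) :=
  (sideB hx hx').bothA (thrB hx hx') (en_pos (hx1 hx).le) (Or.inl rfl) (Or.inr rfl) fun y y' F =>
    bothA_cert (s1 := true) (s2 := false) rfl hκ (en_pos (hx1 hx).le) (esg_rng (hx1 hx).le (hx2 hx').le).1 (mo_v x) covB00 covB11 hx hx'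
        Pool.Agent.Strip051.G.I6500_6900.Tab.C.BA01.c_pm_012 noCut_EA noExt_EA F trivial trivial

theorem BA01_pm_022 {κ x : ℝ} (hκ : κ * h0 = ken x) (hx : ((697932185 : ℕ) : ℝ) / S ≤ x) (hx' : x ≤ (((697932185 : ℕ) : ℝ) + (42949674 : ℕ)) / S) :
    TriA PP.cur (VE (h0 * 0) 3 κ (h0 * x) (eng.v x) (h0 * (3 / 40)) (tnt (h0 * x) (3 / 10)) (tbl tK x) (tbl tL x) (tbl (smT h0⁻¹ tC) x)) 0 2 2 0 1 1 (-1) :=
  (sideB hx hx').bothA (thrB hx hx') (en_pos (hx1 hx).le) (Or.inl rfl) (Or.inr rfl) fun y y' F =>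
    (lt_or_ge (h0 * y') 1).elim
      (fun g => bothA_cert (s1 := true) (s2 := false) rfl hκ (en_pos (hx1 hx).le) (esg_rng (hx1 hx).le (hx2 hx').le).1 (mo_v x) covB00 covB12a hx hx'
        Pool.Agent.Strip051.G.I6500_6900.Tab.C.BA01.c_pm_022_a (cutEA_cons (Pool.Agent.Strip051.G.I6500_6900.Tab.altB_A022E_01 hκ hx hx') cutEA_nil) (xdA0 hκ hx hx' rfl) F trivial g)
      (fun g => bothA_cert (s1 := true) (s2 := false) rfl hκ (en_pos (hx1 hx).le) (esg_rng (hx1 hx).le (hx2 hx').le).1 (mo_v x) covB00 covB12b hx hx'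
        Pool.Agent.Strip051.G.I6500_6900.Tab.C.BA01.c_pm_022_b (cutEA_cons (Pool.Agent.Strip051.G.I6500_6900.Tab.altB_A022E_01 hκ hx hx') cutEA_nil) noExt_EA F trivial g)

theorem BA01_pm_023 {κ x : ℝ} (hκ : κ * h0 = ken x) (hx : ((697932185 : ℕ) : ℝ) / S ≤ x) (hx' : x ≤ (((697932185 : ℕ) : ℝ) + (42949674 : ℕ)) / S) :
    TriA PP.cur (VE (h0 * 0) 3 κ (h0 * x) (eng.v x) (h0 * (3 / 40)) (tnt (h0 * x) (3 / 10)) (tbl tK x) (tbl tL x) (tbl (smT h0⁻¹ tC) x)) 0 2 3 0 1 1 (-1) :=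
  (sideB hx hx').bothA (thrB hx hx') (en_pos (hx1 hx).le) (Or.inl rfl) (Or.inr rfl) fun y y' F =>
    (lt_or_ge (h0 * y') 1).elim
      (fun g => bothA_cert (s1 := true) (s2 := false) rfl hκ (en_pos (hx1 hx).le) (esg_rng (hx1 hx).le (hx2 hx').le).1 (mo_v x) covB00 covB12a hx hx'
        Pool.Agent.Strip051.G.I6500_6900.Tab.C.BA01.c_pm_023_a noCut_EA (xdA0 hκ hx hx' rfl) F trivial g)
      (fun g => bothA_cert (s1 := true) (s2 := false) rfl hκ (en_pos (hx1 hx).le) (esg_rng (hx1 hx).le (hx2 hx').le).1 (mo_v x) covB00 covB12b hx hx'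
        Pool.Agent.Strip051.G.I6500_6900.Tab.C.BA01.c_pm_023_b noCut_EA noExt_EA F trivial g)

theorem BA01_pm_033 {κ x : ℝ} (hκ : κ * h0 = ken x) (hx : ((697932185 : ℕ) : ℝ) / S ≤ x) (hx' : x ≤ (((697932185 : ℕ) : ℝ) + (42949674 : ℕ)) / S) :
    TriA PP.cur (VE (h0 * 0) 3 κ (h0 * x) (eng.v x) (h0 * (3 / 40)) (tnt (h0 * x) (3 / 10)) (tbl tK x) (tbl tL x) (tbl (smT h0⁻¹ tC) x)) 0 3 3 0 1 1 (-1) :=
  (sideB hx hx').bothA (thrB hx hx') (en_pos (hx1 hx).le) (Or.inl rfl) (Or.inr rfl) fun y y' F =>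
    bothA_cert (s1 := true) (s2 := false) rfl hκ (en_pos (hx1 hx).le) (esg_rng (hx1 hx).le (hx2 hx').le).1 (mo_v x) covB00 covB13 hx hx'
        Pool.Agent.Strip051.G.I6500_6900.Tab.C.BA01.c_pm_033 noCut_EA noExt_EA F trivial trivial

theorem BA01_pm_101 {κ x : ℝ} (hκ : κ * h0 = ken x) (hx : ((697932185 : ℕ) : ℝ) / S ≤ x) (hx' : x ≤ (((697932185 : ℕ) : ℝ) + (42949674 : ℕ)) / S) :
    TriA PP.cur (VE (h0 * 0) 3 κ (h0 * x) (eng.v x) (h0 * (3 / 40)) (tnt (h0 * x) (3 / 10)) (tbl tK x) (tbl tL x) (tbl (smT h0⁻¹ tC) x)) 1 0 1 0 1 1 (-1) :=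
  (sideB hx hx').bothA (thrB hx hx') (en_pos (hx1 hx).le) (Or.inl rfl) (Or.inr rfl) fun y y' F =>
    bothA_cert (s1 := true) (s2 := false) rfl hκ (en_pos (hx1 hx).le) (esg_rng (hx1 hx).le (hx2 hx').le).1 (mo_v x) covB01 covB10 hx hx'
        Pool.Agent.Strip051.G.I6500_6900.Tab.C.BA01.c_pm_101 (cutEA_cons (Pool.Agent.Strip051.G.I6500_6900.Tab.altB_A101E_01 hκ hx hx') cutEA_nil) noExt_EA F trivial trivial

theorem BA01_pm_102 {κ x : ℝ} (hκ : κ * h0 = ken x) (hx : ((697932185 : ℕ) : ℝ) / S ≤ x) (hx' : x ≤ (((697932185 : ℕ) : ℝ) + (42949674 : ℕ)) / S) :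
    TriA PP.cur (VE (h0 * 0) 3 κ (h0 * x) (eng.v x) (h0 * (3 / 40)) (tnt (h0 * x) (3 / 10)) (tbl tK x) (tbl tL x) (tbl (smT h0⁻¹ tC) x)) 1 0 2 0 1 1 (-1) :=
  (sideB hx hx').bothA (thrB hx hx') (en_pos (hx1 hx).le) (Or.inl rfl) (Or.inr rfl) fun y y' F =>
    bothA_cert (s1 := true) (s2 := false) rfl hκ (en_pos (hx1 hx).le) (esg_rng (hx1 hx).le (hx2 hx').le).1 (mo_v x) covB01 covB10 hx hx'
        Pool.Agent.Strip051.G.I6500_6900.Tab.C.BA01.c_pm_102 (cutEA_cons (Pool.Agent.Strip051.G.I6500_6900.Tab.altB_A102E_01 hκ hx hx') cutEA_nil) noExt_EA F trivial trivial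

theorem BA01_pm_112 {κ x : ℝ} (hκ : κ * h0 = ken x) (hx : ((697932185 : ℕ) : ℝ) / S ≤ x) (hx' : x ≤ (((697932185 : ℕ) : ℝ) + (42949674 : ℕ)) / S) :
    TriA PP.cur (VE (h0 * 0) 3 κ (h0 * x) (eng.v x) (h0 * (3 / 40)) (tnt (h0 * x) (3 / 10)) (tbl tK x) (tbl tL x) (tbl (smT h0⁻¹ tC) x)) 1 1 2 0 1 1 (-1) :=
  (sideB hx hx').bothA (thrB hx hx') (en_pos (hx1 hx).le) (Or.inl rfl) (Or.inr rfl) fun y y' F =>
    bothA_cert (s1 := true) (s2 := false) rfl hκ (en_pos (hx1 hx).le) (esg_rng (hx1 hx).le (hx2 hx').le).1 (mo_v x) covB01 covB11 hx hx'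
        Pool.Agent.Strip051.G.I6500_6900.Tab.C.BA01.c_pm_112 noCut_EA noExt_EA F trivial trivial

theorem BA01_pm_113 {κ x : ℝ} (hκ : κ * h0 = ken x) (hx : ((697932185 : ℕ) : ℝ) / S ≤ x) (hx' : x ≤ (((697932185 : ℕ) : ℝ) + (42949674 : ℕ)) / S) :
    TriA PP.cur (VE (h0 * 0) 3 κ (h0 * x) (eng.v x) (h0 * (3 / 40)) (tnt (h0 * x) (3 / 10)) (tbl tK x) (tbl tL x) (tbl (smT h0⁻¹ tC) x)) 1 1 3 0 1 1 (-1) :=
  (sideB hx hx').bothA (thrB hx hx') (en_pos (hx1 hx).le) (Or.inl rfl) (Or.inr rfl) fun y y' F =>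
    bothA_cert (s1 := true) (s2 := false) rfl hκ (en_pos (hx1 hx).le) (esg_rng (hx1 hx).le (hx2 hx').le).1 (mo_v x) covB01 covB11 hx hx'
        Pool.Agent.Strip051.G.I6500_6900.Tab.C.BA01.c_pm_113 noCut_EA noExt_EA F trivial trivial

theorem BA01_pm_123 {κ x : ℝ} (hκ : κ * h0 = ken x) (hx : ((697932185 : ℕ) : ℝ) / S ≤ x) (hx' : x ≤ (((697932185 : ℕ) : ℝ) + (42949674 : ℕ)) / S) :
    TriA PP.cur (VE (h0 * 0) 3 κ (h0 * x) (eng.v x) (h0 * (3 / 40)) (tnt (h0 * x) (3 / 10)) (tbl tK x) (tbl tL x) (tbl (smT h0⁻¹ tC) x)) 1 2 3 0 1 1 (-1) :=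
  (sideB hx hx').bothA (thrB hx hx') (en_pos (hx1 hx).le) (Or.inl rfl) (Or.inr rfl) fun y y' F =>
    (lt_or_ge (h0 * y') 1).elim
      (fun g => bothA_cert (s1 := true) (s2 := false) rfl hκ (en_pos (hx1 hx).le) (esg_rng (hx1 hx).le (hx2 hx').le).1 (mo_v x) covB01 covB12a hx hx'
        Pool.Agent.Strip051.G.I6500_6900.Tab.C.BA01.c_pm_123_a (cutEA_cons (Pool.Agent.Strip051.G.I6500_6900.Tab.alt12cB_A123_01 hκ hx hx') (cutEA_cons (Pool.Agent.Strip051.G.I6500_6900.Tab.Mo.molE_A_123_01_0 hκ hx hx') cutEA_nil)) (xdA0 hκ hx hx' rfl) F trivial g)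
      (fun g => bothA_cert (s1 := true) (s2 := false) rfl hκ (en_pos (hx1 hx).le) (esg_rng (hx1 hx).le (hx2 hx').le).1 (mo_v x) covB01 covB12b hx hx'
        Pool.Agent.Strip051.G.I6500_6900.Tab.C.BA01.c_pm_123_b (cutEA_cons (Pool.Agent.Strip051.G.I6500_6900.Tab.alt12cB_A123_01 hκ hx hx') (cutEA_cons (Pool.Agent.Strip051.G.I6500_6900.Tab.Mo.molE_A_123_01_0 hκ hx hx') cutEA_nil)) noExt_EA F trivial g)

theorem BA01_pm_133 {κ x : ℝ} (hκ : κ * h0 = ken x) (hx : ((697932185 : ℕ) : ℝ) / S ≤ x) (hx' : x ≤ (((697932185 : ℕ) : ℝ) + (42949674 : ℕ)) / S) :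
    TriA PP.cur (VE (h0 * 0) 3 κ (h0 * x) (eng.v x) (h0 * (3 / 40)) (tnt (h0 * x) (3 / 10)) (tbl tK x) (tbl tL x) (tbl (smT h0⁻¹ tC) x)) 1 3 3 0 1 1 (-1) :=
  (sideB hx hx').bothA (thrB hx hx') (en_pos (hx1 hx).le) (Or.inl rfl) (Or.inr rfl) fun y y' F =>
    bothA_cert (s1 := true) (s2 := false) rfl hκ (en_pos (hx1 hx).le) (esg_rng (hx1 hx).le (hx2 hx').le).1 (mo_v x) covB01 covB13 hx hx'
        Pool.Agent.Strip051.G.I6500_6900.Tab.C.BA01.c_pm_133 noCut_EA noExt_EA F trivial trivial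

theorem BA01_pm_202 {κ x : ℝ} (hκ : κ * h0 = ken x) (hx : ((697932185 : ℕ) : ℝ) / S ≤ x) (hx' : x ≤ (((697932185 : ℕ) : ℝ) + (42949674 : ℕ)) / S) :
    TriA PP.cur (VE (h0 * 0) 3 κ (h0 * x) (eng.v x) (h0 * (3 / 40)) (tnt (h0 * x) (3 / 10)) (tbl tK x) (tbl tL x) (tbl (smT h0⁻¹ tC) x)) 2 0 2 0 1 1 (-1) :=
  (sideB hx hx').bothA (thrB hx hx') (en_pos (hx1 hx).le) (Or.inl rfl) (Or.inr rfl) fun y y' F =>
    bothA_cert (s1 := true) (s2 := false) rfl hκ (en_pos (hx1 hx).le) (esg_rng (hx1 hx).le (hx2 hx').le).1 (mo_v x) covB02 covB10 hx hx'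
        Pool.Agent.Strip051.G.I6500_6900.Tab.C.BA01.c_pm_202 (cutEA_cons (Pool.Agent.Strip051.G.I6500_6900.Tab.altB_A202E_01 hκ hx hx') cutEA_nil) noExt_EA F trivial trivial

theorem BA01_pm_203 {κ x : ℝ} (hκ : κ * h0 = ken x) (hx : ((697932185 : ℕ) : ℝ) / S ≤ x) (hx' : x ≤ (((697932185 : ℕ) : ℝ) + (42949674 : ℕ)) / S) :
    TriA PP.cur (VE (h0 * 0) 3 κ (h0 * x) (eng.v x) (h0 * (3 / 40)) (tnt (h0 * x) (3 / 10)) (tbl tK x) (tbl tL x) (tbl (smT h0⁻¹ tC) x)) 2 0 3 0 1 1 (-1) :=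
  (sideB hx hx').bothA (thrB hx hx') (en_pos (hx1 hx).le) (Or.inl rfl) (Or.inr rfl) fun y y' F =>
    bothA_cert (s1 := true) (s2 := false) rfl hκ (en_pos (hx1 hx).le) (esg_rng (hx1 hx).le (hx2 hx').le).1 (mo_v x) covB02 covB10 hx hx'
        Pool.Agent.Strip051.G.I6500_6900.Tab.C.BA01.c_pm_203 noCut_EA noExt_EA F trivial trivial

theorem BA01_pm_213 {κ x : ℝ} (hκ : κ * h0 = ken x) (hx : ((697932185 : ℕ) : ℝ) / S ≤ x) (hx' : x ≤ (((697932185 : ℕ) : ℝ) + (42949674 : ℕ)) / S) :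
    TriA PP.cur (VE (h0 * 0) 3 κ (h0 * x) (eng.v x) (h0 * (3 / 40)) (tnt (h0 * x) (3 / 10)) (tbl tK x) (tbl tL x) (tbl (smT h0⁻¹ tC) x)) 2 1 3 0 1 1 (-1) :=
  (sideB hx hx').bothA (thrB hx hx') (en_pos (hx1 hx).le) (Or.inl rfl) (Or.inr rfl) fun y y' F =>
    bothA_cert (s1 := true) (s2 := false) rfl hκ (en_pos (hx1 hx).le) (esg_rng (hx1 hx).le (hx2 hx').le).1 (mo_v x) covB02 covB11 hx hx'
        Pool.Agent.Strip051.G.I6500_6900.Tab.C.BA01.c_pm_213 noCut_EA noExt_EA F trivial trivial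

theorem BA01_pm_303 {κ x : ℝ} (hκ : κ * h0 = ken x) (hx : ((697932185 : ℕ) : ℝ) / S ≤ x) (hx' : x ≤ (((697932185 : ℕ) : ℝ) + (42949674 : ℕ)) / S) :
    TriA PP.cur (VE (h0 * 0) 3 κ (h0 * x) (eng.v x) (h0 * (3 / 40)) (tnt (h0 * x) (3 / 10)) (tbl tK x) (tbl tL x) (tbl (smT h0⁻¹ tC) x)) 3 0 3 0 1 1 (-1) :=
  triA_j0

theorem BA01_pm_313 {κ x : ℝ} (hκ : κ * h0 = ken x) (hx : ((697932185 : ℕ) : ℝ) / S ≤ x) (hx' : x ≤ (((697932185 : ℕ) : ℝ) + (42949674 : ℕ)) / S) :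
    TriA PP.cur (VE (h0 * 0) 3 κ (h0 * x) (eng.v x) (h0 * (3 / 40)) (tnt (h0 * x) (3 / 10)) (tbl tK x) (tbl tL x) (tbl (smT h0⁻¹ tC) x)) 3 1 3 0 1 1 (-1) :=
  triA_j0

theorem BA01_mm_001 {κ x : ℝ} (hκ : κ * h0 = ken x) (hx : ((697932185 : ℕ) : ℝ) / S ≤ x) (hx' : x ≤ (((697932185 : ℕ) : ℝ) + (42949674 : ℕ)) / S) :
    TriA PP.cur (VE (h0 * 0) 3 κ (h0 * x) (eng.v x) (h0 * (3 / 40)) (tnt (h0 * x) (3 / 10)) (tbl tK x) (tbl tL x) (tbl (smT h0⁻¹ tC) x)) 0 0 1 0 1 (-1) (-1) :=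
  (sideB hx hx').bothA (thrB hx hx') (en_pos (hx1 hx).le) (Or.inr rfl) (Or.inr rfl) fun y y' F =>
    bothA_cert (s1 := false) (s2 := false) rfl hκ (en_pos (hx1 hx).le) (esg_rng (hx1 hx).le (hx2 hx').le).1 (mo_v x) covB00 covB10 hx hx'
        Pool.Agent.Strip051.G.I6500_6900.Tab.C.BA01.c_mm_001 noCut_EA noExt_EA F trivial trivial

theorem BA01_mm_011 {κ x : ℝ} (hκ : κ * h0 = ken x) (hx : ((697932185 : ℕ) : ℝ) / S ≤ x) (hx' : x ≤ (((697932185 : ℕ) : ℝ) + (42949674 : ℕ)) / S) :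
    TriA PP.cur (VE (h0 * 0) 3 κ (h0 * x) (eng.v x) (h0 * (3 / 40)) (tnt (h0 * x) (3 / 10)) (tbl tK x) (tbl tL x) (tbl (smT h0⁻¹ tC) x)) 0 1 1 0 1 (-1) (-1) :=
  (sideB hx hx').bothA (thrB hx hx') (en_pos (hx1 hx).le) (Or.inr rfl) (Or.inr rfl) fun y y' F =>
    bothA_cert (s1 := false) (s2 := false) rfl hκ (en_pos (hx1 hx).le) (esg_rng (hx1 hx).le (hx2 hx').le).1 (mo_v x) covB00 covB11 hx hx'
        Pool.Agent.Strip051.G.I6500_6900.Tab.C.BA01.c_mm_011 noCut_EA noExt_EA F trivial trivial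

theorem BA01_mm_012 {κ x : ℝ} (hκ : κ * h0 = ken x) (hx : ((697932185 : ℕ) : ℝ) / S ≤ x) (hx' : x ≤ (((697932185 : ℕ) : ℝ) + (42949674 : ℕ)) / S) :
    TriA PP.cur (VE (h0 * 0) 3 κ (h0 * x) (eng.v x) (h0 * (3 / 40)) (tnt (h0 * x) (3 / 10)) (tbl tK x) (tbl tL x) (tbl (smT h0⁻¹ tC) x)) 0 1 2 0 1 (-1) (-1) :=
  (sideB hx hx').bothA (thrB hx hx') (en_pos (hx1 hx).le) (Or.inr rfl) (Or.inr rfl) fun y y' F =>
    bothA_cert (s1 := false) (s2 := false) rfl hκ (en_pos (hx1 hx).le) (esg_rng (hx1 hx).le (hx2 hx').le).1 (mo_v x) covB00 covB11 hx hx'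
        Pool.Agent.Strip051.G.I6500_6900.Tab.C.BA01.c_mm_012 noCut_EA noExt_EA F trivial trivial

theorem BA01_mm_022 {κ x : ℝ} (hκ : κ * h0 = ken x) (hx : ((697932185 : ℕ) : ℝ) / S ≤ x) (hx' : x ≤ (((697932185 : ℕ) : ℝ) + (42949674 : ℕ)) / S) :
    TriA PP.cur (VE (h0 * 0) 3 κ (h0 * x) (eng.v x) (h0 * (3 / 40)) (tnt (h0 * x) (3 / 10)) (tbl tK x) (tbl tL x) (tbl (smT h0⁻¹ tC) x)) 0 2 2 0 1 (-1) (-1) :=
  (sideB hx hx').bothA (thrB hx hx') (en_pos (hx1 hx).le) (Or.inr rfl) (Or.inr rfl) fun y y' F =>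
    (lt_or_ge (h0 * y') 1).elim
      (fun g => bothA_cert (s1 := false) (s2 := false) rfl hκ (en_pos (hx1 hx).le) (esg_rng (hx1 hx).le (hx2 hx').le).1 (mo_v x) covB00 covB12a hx hx'
        Pool.Agent.Strip051.G.I6500_6900.Tab.C.BA01.c_mm_022_a noCut_EA noExt_EA F trivial g)
      (fun g => bothA_cert (s1 := false) (s2 := false) rfl hκ (en_pos (hx1 hx).le) (esg_rng (hx1 hx).le (hx2 hx').le).1 (mo_v x) covB00 covB12b hx hx'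
        Pool.Agent.Strip051.G.I6500_6900.Tab.C.BA01.c_mm_022_b noCut_EA noExt_EA F trivial g)

theorem BA01_mm_023 {κ x : ℝ} (hκ : κ * h0 = ken x) (hx : ((697932185 : ℕ) : ℝ) / S ≤ x) (hx' : x ≤ (((697932185 : ℕ) : ℝ) + (42949674 : ℕ)) / S) :
    TriA PP.cur (VE (h0 * 0) 3 κ (h0 * x) (eng.v x) (h0 * (3 / 40)) (tnt (h0 * x) (3 / 10)) (tbl tK x) (tbl tL x) (tbl (smT h0⁻¹ tC) x)) 0 2 3 0 1 (-1) (-1) :=
  (sideB hx hx').bothA (thrB hx hx') (en_pos (hx1 hx).le) (Or.inr rfl) (Or.inr rfl) fun y y' F =>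
    (lt_or_ge (h0 * y') 1).elim
      (fun g => bothA_cert (s1 := false) (s2 := false) rfl hκ (en_pos (hx1 hx).le) (esg_rng (hx1 hx).le (hx2 hx').le).1 (mo_v x) covB00 covB12a hx hx'
        Pool.Agent.Strip051.G.I6500_6900.Tab.C.BA01.c_mm_023_a noCut_EA noExt_EA F trivial g)
      (fun g => bothA_cert (s1 := false) (s2 := false) rfl hκ (en_pos (hx1 hx).le) (esg_rng (hx1 hx).le (hx2 hx').le).1 (mo_v x) covB00 covB12b hx hx'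
        Pool.Agent.Strip051.G.I6500_6900.Tab.C.BA01.c_mm_023_b noCut_EA noExt_EA F trivial g)

theorem BA01_mm_033 {κ x : ℝ} (hκ : κ * h0 = ken x) (hx : ((697932185 : ℕ) : ℝ) / S ≤ x) (hx' : x ≤ (((697932185 : ℕ) : ℝ) + (42949674 : ℕ)) / S) :
    TriA PP.cur (VE (h0 * 0) 3 κ (h0 * x) (eng.v x) (h0 * (3 / 40)) (tnt (h0 * x) (3 / 10)) (tbl tK x) (tbl tL x) (tbl (smT h0⁻¹ tC) x)) 0 3 3 0 1 (-1) (-1) :=
  (sideB hx hx').bothA (thrB hx hx') (en_pos (hx1 hx).le) (Or.inr rfl) (Or.inr rfl) fun y y' F =>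
    bothA_cert (s1 := false) (s2 := false) rfl hκ (en_pos (hx1 hx).le) (esg_rng (hx1 hx).le (hx2 hx').le).1 (mo_v x) covB00 covB13 hx hx'
        Pool.Agent.Strip051.G.I6500_6900.Tab.C.BA01.c_mm_033 noCut_EA noExt_EA F trivial trivial

theorem BA01_mm_101 {κ x : ℝ} (hκ : κ * h0 = ken x) (hx : ((697932185 : ℕ) : ℝ) / S ≤ x) (hx' : x ≤ (((697932185 : ℕ) : ℝ) + (42949674 : ℕ)) / S) :
    TriA PP.cur (VE (h0 * 0) 3 κ (h0 * x) (eng.v x) (h0 * (3 / 40)) (tnt (h0 * x) (3 / 10)) (tbl tK x) (tbl tL x) (tbl (smT h0⁻¹ tC) x)) 1 0 1 0 1 (-1) (-1) :=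
  (sideB hx hx').bothA (thrB hx hx') (en_pos (hx1 hx).le) (Or.inr rfl) (Or.inr rfl) fun y y' F =>
    bothA_cert (s1 := false) (s2 := false) rfl hκ (en_pos (hx1 hx).le) (esg_rng (hx1 hx).le (hx2 hx').le).1 (mo_v x) covB01 covB10 hx hx'
        Pool.Agent.Strip051.G.I6500_6900.Tab.C.BA01.c_mm_101 (cutEA_cons (Pool.Agent.Strip051.G.I6500_6900.Tab.altB_A101R_01 hκ hx hx') cutEA_nil) noExt_EA F trivial trivial

theorem BA01_mm_102 {κ x : ℝ} (hκ : κ * h0 = ken x) (hx : ((697932185 : ℕ) : ℝ) / S ≤ x) (hx' : x ≤ (((697932185 : ℕ) : ℝ) + (42949674 : ℕ)) / S) :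
    TriA PP.cur (VE (h0 * 0) 3 κ (h0 * x) (eng.v x) (h0 * (3 / 40)) (tnt (h0 * x) (3 / 10)) (tbl tK x) (tbl tL x) (tbl (smT h0⁻¹ tC) x)) 1 0 2 0 1 (-1) (-1) :=
  (sideB hx hx').bothA (thrB hx hx') (en_pos (hx1 hx).le) (Or.inr rfl) (Or.inr rfl) fun y y' F =>
    bothA_cert (s1 := false) (s2 := false) rfl hκ (en_pos (hx1 hx).le) (esg_rng (hx1 hx).le (hx2 hx').le).1 (mo_v x) covB01 covB10 hx hx'
        Pool.Agent.Strip051.G.I6500_6900.Tab.C.BA01.c_mm_102 (cutEA_cons (Pool.Agent.Strip051.G.I6500_6900.Tab.altB_A102R_01 hκ hx hx') cutEA_nil) noExt_EA F trivial trivial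

theorem BA01_mm_112 {κ x : ℝ} (hκ : κ * h0 = ken x) (hx : ((697932185 : ℕ) : ℝ) / S ≤ x) (hx' : x ≤ (((697932185 : ℕ) : ℝ) + (42949674 : ℕ)) / S) :
    TriA PP.cur (VE (h0 * 0) 3 κ (h0 * x) (eng.v x) (h0 * (3 / 40)) (tnt (h0 * x) (3 / 10)) (tbl tK x) (tbl tL x) (tbl (smT h0⁻¹ tC) x)) 1 1 2 0 1 (-1) (-1) :=
  (sideB hx hx').bothA (thrB hx hx') (en_pos (hx1 hx).le) (Or.inr rfl) (Or.inr rfl) fun y y' F =>
    bothA_cert (s1 := false) (s2 := false) rfl hκ (en_pos (hx1 hx).le) (esg_rng (hx1 hx).le (hx2 hx').le).1 (mo_v x) covB01 covB11 hx hx'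
        Pool.Agent.Strip051.G.I6500_6900.Tab.C.BA01.c_mm_112 noCut_EA noExt_EA F trivial trivial

theorem BA01_mm_113 {κ x : ℝ} (hκ : κ * h0 = ken x) (hx : ((697932185 : ℕ) : ℝ) / S ≤ x) (hx' : x ≤ (((697932185 : ℕ) : ℝ) + (42949674 : ℕ)) / S) :
    TriA PP.cur (VE (h0 * 0) 3 κ (h0 * x) (eng.v x) (h0 * (3 / 40)) (tnt (h0 * x) (3 / 10)) (tbl tK x) (tbl tL x) (tbl (smT h0⁻¹ tC) x)) 1 1 3 0 1 (-1) (-1) :=
  (sideB hx hx').bothA (thrB hx hx') (en_pos (hx1 hx).le) (Or.inr rfl) (Or.inr rfl) fun y y' F =>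
    bothA_cert (s1 := false) (s2 := false) rfl hκ (en_pos (hx1 hx).le) (esg_rng (hx1 hx).le (hx2 hx').le).1 (mo_v x) covB01 covB11 hx hx'
        Pool.Agent.Strip051.G.I6500_6900.Tab.C.BA01.c_mm_113 noCut_EA noExt_EA F trivial trivial

theorem BA01_mm_123 {κ x : ℝ} (hκ : κ * h0 = ken x) (hx : ((697932185 : ℕ) : ℝ) / S ≤ x) (hx' : x ≤ (((697932185 : ℕ) : ℝ) + (42949674 : ℕ)) / S) :
    TriA PP.cur (VE (h0 * 0) 3 κ (h0 * x) (eng.v x) (h0 * (3 / 40)) (tnt (h0 * x) (3 / 10)) (tbl tK x) (tbl tL x) (tbl (smT h0⁻¹ tC) x)) 1 2 3 0 1 (-1) (-1) :=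
  (sideB hx hx').bothA (thrB hx hx') (en_pos (hx1 hx).le) (Or.inr rfl) (Or.inr rfl) fun y y' F =>
    (lt_or_ge (h0 * y') 1).elim
      (fun g => bothA_cert (s1 := false) (s2 := false) rfl hκ (en_pos (hx1 hx).le) (esg_rng (hx1 hx).le (hx2 hx').le).1 (mo_v x) covB01 covB12a hx hx'
        Pool.Agent.Strip051.G.I6500_6900.Tab.C.BA01.c_mm_123_a noCut_EA noExt_EA F trivial g)
      (fun g => bothA_cert (s1 := false) (s2 := false) rfl hκ (en_pos (hx1 hx).le) (esg_rng (hx1 hx).le (hx2 hx').le).1 (mo_v x) covB01 covB12b hx hx'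
        Pool.Agent.Strip051.G.I6500_6900.Tab.C.BA01.c_mm_123_b noCut_EA noExt_EA F trivial g)

theorem BA01_mm_133 {κ x : ℝ} (hκ : κ * h0 = ken x) (hx : ((697932185 : ℕ) : ℝ) / S ≤ x) (hx' : x ≤ (((697932185 : ℕ) : ℝ) + (42949674 : ℕ)) / S) :
    TriA PP.cur (VE (h0 * 0) 3 κ (h0 * x) (eng.v x) (h0 * (3 / 40)) (tnt (h0 * x) (3 / 10)) (tbl tK x) (tbl tL x) (tbl (smT h0⁻¹ tC) x)) 1 3 3 0 1 (-1) (-1) :=
  (sideB hx hx').bothA (thrB hx hx') (en_pos (hx1 hx).le) (Or.inr rfl) (Or.inr rfl) fun y y' F =>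
    bothA_cert (s1 := false) (s2 := false) rfl hκ (en_pos (hx1 hx).le) (esg_rng (hx1 hx).le (hx2 hx').le).1 (mo_v x) covB01 covB13 hx hx'
        Pool.Agent.Strip051.G.I6500_6900.Tab.C.BA01.c_mm_133 noCut_EA noExt_EA F trivial trivial

theorem BA01_mm_202 {κ x : ℝ} (hκ : κ * h0 = ken x) (hx : ((697932185 : ℕ) : ℝ) / S ≤ x) (hx' : x ≤ (((697932185 : ℕ) : ℝ) + (42949674 : ℕ)) / S) :
    TriA PP.cur (VE (h0 * 0) 3 κ (h0 * x) (eng.v x) (h0 * (3 / 40)) (tnt (h0 * x) (3 / 10)) (tbl tK x) (tbl tL x) (tbl (smT h0⁻¹ tC) x)) 2 0 2 0 1 (-1) (-1) :=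
  (sideB hx hx').bothA (thrB hx hx') (en_pos (hx1 hx).le) (Or.inr rfl) (Or.inr rfl) fun y y' F =>
    bothA_cert (s1 := false) (s2 := false) rfl hκ (en_pos (hx1 hx).le) (esg_rng (hx1 hx).le (hx2 hx').le).1 (mo_v x) covB02 covB10 hx hx'
        Pool.Agent.Strip051.G.I6500_6900.Tab.C.BA01.c_mm_202 (cutEA_cons (Pool.Agent.Strip051.G.I6500_6900.Tab.altB_A202R_01 hκ hx hx') cutEA_nil) noExt_EA F trivial trivial

theorem BA01_mm_203 {κ x : ℝ} (hκ : κ * h0 = ken x) (hx : ((697932185 : ℕ) : ℝ) / S ≤ x) (hx' : x ≤ (((697932185 : ℕ) : ℝ) + (42949674 : ℕ)) / S) :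
    TriA PP.cur (VE (h0 * 0) 3 κ (h0 * x) (eng.v x) (h0 * (3 / 40)) (tnt (h0 * x) (3 / 10)) (tbl tK x) (tbl tL x) (tbl (smT h0⁻¹ tC) x)) 2 0 3 0 1 (-1) (-1) :=
  (sideB hx hx').bothA (thrB hx hx') (en_pos (hx1 hx).le) (Or.inr rfl) (Or.inr rfl) fun y y' F =>
    bothA_cert (s1 := false) (s2 := false) rfl hκ (en_pos (hx1 hx).le) (esg_rng (hx1 hx).le (hx2 hx').le).1 (mo_v x) covB02 covB10 hx hx'
        Pool.Agent.Strip051.G.I6500_6900.Tab.C.BA01.c_mm_203 noCut_EA noExt_EA F trivial trivial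

theorem BA01_mm_213 {κ x : ℝ} (hκ : κ * h0 = ken x) (hx : ((697932185 : ℕ) : ℝ) / S ≤ x) (hx' : x ≤ (((697932185 : ℕ) : ℝ) + (42949674 : ℕ)) / S) :
    TriA PP.cur (VE (h0 * 0) 3 κ (h0 * x) (eng.v x) (h0 * (3 / 40)) (tnt (h0 * x) (3 / 10)) (tbl tK x) (tbl tL x) (tbl (smT h0⁻¹ tC) x)) 2 1 3 0 1 (-1) (-1) :=
  (sideB hx hx').bothA (thrB hx hx') (en_pos (hx1 hx).le) (Or.inr rfl) (Or.inr rfl) fun y y' F =>
    bothA_cert (s1 := false) (s2 := false) rfl hκ (en_pos (hx1 hx).le) (esg_rng (hx1 hx).le (hx2 hx').le).1 (mo_v x) covB02 covB11 hx hx'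
        Pool.Agent.Strip051.G.I6500_6900.Tab.C.BA01.c_mm_213 noCut_EA noExt_EA F trivial trivial

theorem BA01_mm_303 {κ x : ℝ} (hκ : κ * h0 = ken x) (hx : ((697932185 : ℕ) : ℝ) / S ≤ x) (hx' : x ≤ (((697932185 : ℕ) : ℝ) + (42949674 : ℕ)) / S) :
    TriA PP.cur (VE (h0 * 0) 3 κ (h0 * x) (eng.v x) (h0 * (3 / 40)) (tnt (h0 * x) (3 / 10)) (tbl tK x) (tbl tL x) (tbl (smT h0⁻¹ tC) x)) 3 0 3 0 1 (-1) (-1) :=
  triA_j0

theorem BA01_mm_313 {κ x : ℝ} (hκ : κ * h0 = ken x) (hx : ((697932185 : ℕ) : ℝ) / S ≤ x) (hx' : x ≤ (((697932185 : ℕ) : ℝ) + (42949674 : ℕ)) / S) :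
    TriA PP.cur (VE (h0 * 0) 3 κ (h0 * x) (eng.v x) (h0 * (3 / 40)) (tnt (h0 * x) (3 / 10)) (tbl tK x) (tbl tL x) (tbl (smT h0⁻¹ tC) x)) 3 1 3 0 1 (-1) (-1) :=
  triA_j0

theorem BA01 {κ x : ℝ} (hκ : κ * h0 = ken x) (hx : ((697932185 : ℕ) : ℝ) / S ≤ x) (hx' : x ≤ (((697932185 : ℕ) : ℝ) + (42949674 : ℕ)) / S) : AllTA PP.cur (VE (h0 * 0) 3 κ (h0 * x) (eng.v x) (h0 * (3 / 40)) (tnt (h0 * x) (3 / 10)) (tbl tK x) (tbl tL x) (tbl (smT h0⁻¹ tC) x)) 0 1 where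
  pp := all17 (Q := fun a b c => TriA PP.cur (VE (h0 * 0) 3 κ (h0 * x) (eng.v x) (h0 * (3 / 40)) (tnt (h0 * x) (3 / 10)) (tbl tK x) (tbl tL x) (tbl (smT h0⁻¹ tC) x)) a b c 0 1 1 1)
    (BA01_pp_001 hκ hx hx') (BA01_pp_011 hκ hx hx') (BA01_pp_012 hκ hx hx') (BA01_pp_022 hκ hx hx') (BA01_pp_023 hκ hx hx') (BA01_pp_033 hκ hx hx') (BA01_pp_101 hκ hx hx') (BA01_pp_102 hκ hx hx') (BA01_pp_112 hκ hx hx') (BA01_pp_113 hκ hx hx') (BA01_pp_123 hκ hx hx') (BA01_pp_133 hκ hx hx') (BA01_pp_202 hκ hx hx') (BA01_pp_203 hκ hx hx') (BA01_pp_213 hκ hx hx') (BA01_pp_303 hκ hx hx') (BA01_pp_313 hκ hx hx')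
  pm := all17 (Q := fun a b c => TriA PP.cur (VE (h0 * 0) 3 κ (h0 * x) (eng.v x) (h0 * (3 / 40)) (tnt (h0 * x) (3 / 10)) (tbl tK x) (tbl tL x) (tbl (smT h0⁻¹ tC) x)) a b c 0 1 1 (-1))
    (BA01_pm_001 hκ hx hx') (BA01_pm_011 hκ hx hx') (BA01_pm_012 hκ hx hx') (BA01_pm_022 hκ hx hx') (BA01_pm_023 hκ hx hx') (BA01_pm_033 hκ hx hx') (BA01_pm_101 hκ hx hx') (BA01_pm_102 hκ hx hx') (BA01_pm_112 hκ hx hx') (BA01_pm_113 hκ hx hx') (BA01_pm_123 hκ hx hx') (BA01_pm_133 hκ hx hx') (BA01_pm_202 hκ hx hx') (BA01_pm_203 hκ hx hx') (BA01_pm_213 hκ hx hx') (BA01_pm_303 hκ hx hx') (BA01_pm_313 hκ hx hx')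
  mm := all17 (Q := fun a b c => TriA PP.cur (VE (h0 * 0) 3 κ (h0 * x) (eng.v x) (h0 * (3 / 40)) (tnt (h0 * x) (3 / 10)) (tbl tK x) (tbl tL x) (tbl (smT h0⁻¹ tC) x)) a b c 0 1 (-1) (-1))
    (BA01_mm_001 hκ hx hx') (BA01_mm_011 hκ hx hx') (BA01_mm_012 hκ hx hx') (BA01_mm_022 hκ hx hx') (BA01_mm_023 hκ hx hx') (BA01_mm_033 hκ hx hx') (BA01_mm_101 hκ hx hx') (BA01_mm_102 hκ hx hx') (BA01_mm_112 hκ hx hx') (BA01_mm_113 hκ hx hx') (BA01_mm_123 hκ hx hx') (BA01_mm_133 hκ hx hx') (BA01_mm_202 hκ hx hx') (BA01_mm_203 hκ hx hx') (BA01_mm_213 hκ hx hx') (BA01_mm_303 hκ hx hx') (BA01_mm_313 hκ hx hx')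

theorem BA02_pp_001 {κ x : ℝ} (hκ : κ * h0 = ken x) (hx : ((697932185 : ℕ) : ℝ) / S ≤ x) (hx' : x ≤ (((697932185 : ℕ) : ℝ) + (42949674 : ℕ)) / S) :
    TriA PP.cur (VE (h0 * 0) 3 κ (h0 * x) (eng.v x) (h0 * (3 / 40)) (tnt (h0 * x) (3 / 10)) (tbl tK x) (tbl tL x) (tbl (smT h0⁻¹ tC) x)) 0 0 1 0 2 1 1 :=
  (sideB hx hx').bothA (thrB hx hx') (en_pos (hx1 hx).le) (Or.inl rfl) (Or.inl rfl) fun y y' F =>
    bothA_cert (s1 := true) (s2 := true) rfl hκ (en_pos (hx1 hx).le) (esg_rng (hx1 hx).le (hx2 hx').le).1 (mo_v x) covB00 covB20 hx hx'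
        Pool.Agent.Strip051.G.I6500_6900.Tab.C.BA02.c_pp_001 noCut_EA noExt_EA F trivial trivial

theorem BA02_pp_011 {κ x : ℝ} (hκ : κ * h0 = ken x) (hx : ((697932185 : ℕ) : ℝ) / S ≤ x) (hx' : x ≤ (((697932185 : ℕ) : ℝ) + (42949674 : ℕ)) / S) :
    TriA PP.cur (VE (h0 * 0) 3 κ (h0 * x) (eng.v x) (h0 * (3 / 40)) (tnt (h0 * x) (3 / 10)) (tbl tK x) (tbl tL x) (tbl (smT h0⁻¹ tC) x)) 0 1 1 0 2 1 1 :=
  (sideB hx hx').bothA (thrB hx hx') (en_pos (hx1 hx).le) (Or.inl rfl) (Or.inl rfl) fun y y' F =>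
    bothA_cert (s1 := true) (s2 := true) rfl hκ (en_pos (hx1 hx).le) (esg_rng (hx1 hx).le (hx2 hx').le).1 (mo_v x) covB00 covB21 hx hx'
        Pool.Agent.Strip051.G.I6500_6900.Tab.C.BA02.c_pp_011 noCut_EA noExt_EA F trivial trivial

theorem BA02_pp_012 {κ x : ℝ} (hκ : κ * h0 = ken x) (hx : ((697932185 : ℕ) : ℝ) / S ≤ x) (hx' : x ≤ (((697932185 : ℕ) : ℝ) + (42949674 : ℕ)) / S) :
    TriA PP.cur (VE (h0 * 0) 3 κ (h0 * x) (eng.v x) (h0 * (3 / 40)) (tnt (h0 * x) (3 / 10)) (tbl tK x) (tbl tL x) (tbl (smT h0⁻¹ tC) x)) 0 1 2 0 2 1 1 :=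
  (sideB hx hx').bothA (thrB hx hx') (en_pos (hx1 hx).le) (Or.inl rfl) (Or.inl rfl) fun y y' F =>
    bothA_cert (s1 := true) (s2 := true) rfl hκ (en_pos (hx1 hx).le) (esg_rng (hx1 hx).le (hx2 hx').le).1 (mo_v x) covB00 covB21 hx hx'
        Pool.Agent.Strip051.G.I6500_6900.Tab.C.BA02.c_pp_012 noCut_EA noExt_EA F trivial trivial

theorem BA02_pp_022 {κ x : ℝ} (hκ : κ * h0 = ken x) (hx : ((697932185 : ℕ) : ℝ) / S ≤ x) (hx' : x ≤ (((697932185 : ℕ) : ℝ) + (42949674 : ℕ)) / S) :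
    TriA PP.cur (VE (h0 * 0) 3 κ (h0 * x) (eng.v x) (h0 * (3 / 40)) (tnt (h0 * x) (3 / 10)) (tbl tK x) (tbl tL x) (tbl (smT h0⁻¹ tC) x)) 0 2 2 0 2 1 1 :=
  (sideB hx hx').bothA (thrB hx hx') (en_pos (hx1 hx).le) (Or.inl rfl) (Or.inl rfl) fun y y' F =>
    (lt_or_ge (h0 * y') 1).elim
      (fun g => bothA_cert (s1 := true) (s2 := true) rfl hκ (en_pos (hx1 hx).le) (esg_rng (hx1 hx).le (hx2 hx').le).1 (mo_v x) covB00 covB22a hx hx'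
        Pool.Agent.Strip051.G.I6500_6900.Tab.C.BA02.c_pp_022_a (cutEA_cons (Pool.Agent.Strip051.G.I6500_6900.Tab.altB_A022L_02 hκ hx hx') cutEA_nil) noExt_EA F trivial g)
      (fun g => bothA_cert (s1 := true) (s2 := true) rfl hκ (en_pos (hx1 hx).le) (esg_rng (hx1 hx).le (hx2 hx').le).1 (mo_v x) covB00 covB22b hx hx'
        Pool.Agent.Strip051.G.I6500_6900.Tab.C.BA02.c_pp_022_b (cutEA_cons (Pool.Agent.Strip051.G.I6500_6900.Tab.altB_A022L_02 hκ hx hx') cutEA_nil) noExt_EA F trivial g)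

theorem BA02_pp_023 {κ x : ℝ} (hκ : κ * h0 = ken x) (hx : ((697932185 : ℕ) : ℝ) / S ≤ x) (hx' : x ≤ (((697932185 : ℕ) : ℝ) + (42949674 : ℕ)) / S) :
    TriA PP.cur (VE (h0 * 0) 3 κ (h0 * x) (eng.v x) (h0 * (3 / 40)) (tnt (h0 * x) (3 / 10)) (tbl tK x) (tbl tL x) (tbl (smT h0⁻¹ tC) x)) 0 2 3 0 2 1 1 :=
  (sideB hx hx').bothA (thrB hx hx') (en_pos (hx1 hx).le) (Or.inl rfl) (Or.inl rfl) fun y y' F =>
    (lt_or_ge (h0 * y') 1).elim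
      (fun g => bothA_cert (s1 := true) (s2 := true) rfl hκ (en_pos (hx1 hx).le) (esg_rng (hx1 hx).le (hx2 hx').le).1 (mo_v x) covB00 covB22a hx hx'
        Pool.Agent.Strip051.G.I6500_6900.Tab.C.BA02.c_pp_023_a noCut_EA noExt_EA F trivial g)
      (fun g => bothA_cert (s1 := true) (s2 := true) rfl hκ (en_pos (hx1 hx).le) (esg_rng (hx1 hx).le (hx2 hx').le).1 (mo_v x) covB00 covB22b hx hx'
        Pool.Agent.Strip051.G.I6500_6900.Tab.C.BA02.c_pp_023_b noCut_EA noExt_EA F trivial g)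

theorem BA02_pp_033 {κ x : ℝ} (hκ : κ * h0 = ken x) (hx : ((697932185 : ℕ) : ℝ) / S ≤ x) (hx' : x ≤ (((697932185 : ℕ) : ℝ) + (42949674 : ℕ)) / S) :
    TriA PP.cur (VE (h0 * 0) 3 κ (h0 * x) (eng.v x) (h0 * (3 / 40)) (tnt (h0 * x) (3 / 10)) (tbl tK x) (tbl tL x) (tbl (smT h0⁻¹ tC) x)) 0 3 3 0 2 1 1 :=
  (sideB hx hx').bothA (thrB hx hx') (en_pos (hx1 hx).le) (Or.inl rfl) (Or.inl rfl) fun y y' F =>
    bothA_cert (s1 := true) (s2 := true) rfl hκ (en_pos (hx1 hx).le) (esg_rng (hx1 hx).le (hx2 hx').le).1 (mo_v x) covB00 covB23 hx hx'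
        Pool.Agent.Strip051.G.I6500_6900.Tab.C.BA02.c_pp_033 noCut_EA noExt_EA F trivial trivial

theorem BA02_pp_101 {κ x : ℝ} (hκ : κ * h0 = ken x) (hx : ((697932185 : ℕ) : ℝ) / S ≤ x) (hx' : x ≤ (((697932185 : ℕ) : ℝ) + (42949674 : ℕ)) / S) :
    TriA PP.cur (VE (h0 * 0) 3 κ (h0 * x) (eng.v x) (h0 * (3 / 40)) (tnt (h0 * x) (3 / 10)) (tbl tK x) (tbl tL x) (tbl (smT h0⁻¹ tC) x)) 1 0 1 0 2 1 1 :=
  (sideB hx hx').bothA (thrB hx hx') (en_pos (hx1 hx).le) (Or.inl rfl) (Or.inl rfl) fun y y' F =>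
    bothA_cert (s1 := true) (s2 := true) rfl hκ (en_pos (hx1 hx).le) (esg_rng (hx1 hx).le (hx2 hx').le).1 (mo_v x) covB01 covB20 hx hx'
        Pool.Agent.Strip051.G.I6500_6900.Tab.C.BA02.c_pp_101 noCut_EA noExt_EA F trivial trivial

theorem BA02_pp_102 {κ x : ℝ} (hκ : κ * h0 = ken x) (hx : ((697932185 : ℕ) : ℝ) / S ≤ x) (hx' : x ≤ (((697932185 : ℕ) : ℝ) + (42949674 : ℕ)) / S) :
    TriA PP.cur (VE (h0 * 0) 3 κ (h0 * x) (eng.v x) (h0 * (3 / 40)) (tnt (h0 * x) (3 / 10)) (tbl tK x) (tbl tL x) (tbl (smT h0⁻¹ tC) x)) 1 0 2 0 2 1 1 :=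
  (sideB hx hx').bothA (thrB hx hx') (en_pos (hx1 hx).le) (Or.inl rfl) (Or.inl rfl) fun y y' F =>
    bothA_cert (s1 := true) (s2 := true) rfl hκ (en_pos (hx1 hx).le) (esg_rng (hx1 hx).le (hx2 hx').le).1 (mo_v x) covB01 covB20 hx hx'
        Pool.Agent.Strip051.G.I6500_6900.Tab.C.BA02.c_pp_102 noCut_EA noExt_EA F trivial trivial

theorem BA02_pp_112 {κ x : ℝ} (hκ : κ * h0 = ken x) (hx : ((697932185 : ℕ) : ℝ) / S ≤ x) (hx' : x ≤ (((697932185 : ℕ) : ℝ) + (42949674 : ℕ)) / S) :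
    TriA PP.cur (VE (h0 * 0) 3 κ (h0 * x) (eng.v x) (h0 * (3 / 40)) (tnt (h0 * x) (3 / 10)) (tbl tK x) (tbl tL x) (tbl (smT h0⁻¹ tC) x)) 1 1 2 0 2 1 1 :=
  (sideB hx hx').bothA (thrB hx hx') (en_pos (hx1 hx).le) (Or.inl rfl) (Or.inl rfl) fun y y' F =>
    bothA_cert (s1 := true) (s2 := true) rfl hκ (en_pos (hx1 hx).le) (esg_rng (hx1 hx).le (hx2 hx').le).1 (mo_v x) covB01 covB21 hx hx'
        Pool.Agent.Strip051.G.I6500_6900.Tab.C.BA02.c_pp_112 noCut_EA noExt_EA F trivial trivial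

theorem BA02_pp_113 {κ x : ℝ} (hκ : κ * h0 = ken x) (hx : ((697932185 : ℕ) : ℝ) / S ≤ x) (hx' : x ≤ (((697932185 : ℕ) : ℝ) + (42949674 : ℕ)) / S) :
    TriA PP.cur (VE (h0 * 0) 3 κ (h0 * x) (eng.v x) (h0 * (3 / 40)) (tnt (h0 * x) (3 / 10)) (tbl tK x) (tbl tL x) (tbl (smT h0⁻¹ tC) x)) 1 1 3 0 2 1 1 :=
  (sideB hx hx').bothA (thrB hx hx') (en_pos (hx1 hx).le) (Or.inl rfl) (Or.inl rfl) fun y y' F =>
    bothA_cert (s1 := true) (s2 := true) rfl hκ (en_pos (hx1 hx).le) (esg_rng (hx1 hx).le (hx2 hx').le).1 (mo_v x) covB01 covB21 hx hx'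
        Pool.Agent.Strip051.G.I6500_6900.Tab.C.BA02.c_pp_113 noCut_EA noExt_EA F trivial trivial

theorem BA02_pp_123 {κ x : ℝ} (hκ : κ * h0 = ken x) (hx : ((697932185 : ℕ) : ℝ) / S ≤ x) (hx' : x ≤ (((697932185 : ℕ) : ℝ) + (42949674 : ℕ)) / S) :
    TriA PP.cur (VE (h0 * 0) 3 κ (h0 * x) (eng.v x) (h0 * (3 / 40)) (tnt (h0 * x) (3 / 10)) (tbl tK x) (tbl tL x) (tbl (smT h0⁻¹ tC) x)) 1 2 3 0 2 1 1 :=
  (sideB hx hx').bothA (thrB hx hx') (en_pos (hx1 hx).le) (Or.inl rfl) (Or.inl rfl) fun y y' F =>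
    (lt_or_ge (h0 * y') 1).elim
      (fun g => bothA_cert (s1 := true) (s2 := true) rfl hκ (en_pos (hx1 hx).le) (esg_rng (hx1 hx).le (hx2 hx').le).1 (mo_v x) covB01 covB22a hx hx'
        Pool.Agent.Strip051.G.I6500_6900.Tab.C.BA02.c_pp_123_a noCut_EA noExt_EA F trivial g)
      (fun g => bothA_cert (s1 := true) (s2 := true) rfl hκ (en_pos (hx1 hx).le) (esg_rng (hx1 hx).le (hx2 hx').le).1 (mo_v x) covB01 covB22b hx hx'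
        Pool.Agent.Strip051.G.I6500_6900.Tab.C.BA02.c_pp_123_b noCut_EA noExt_EA F trivial g)

theorem BA02_pp_133 {κ x : ℝ} (hκ : κ * h0 = ken x) (hx : ((697932185 : ℕ) : ℝ) / S ≤ x) (hx' : x ≤ (((697932185 : ℕ) : ℝ) + (42949674 : ℕ)) / S) :
    TriA PP.cur (VE (h0 * 0) 3 κ (h0 * x) (eng.v x) (h0 * (3 / 40)) (tnt (h0 * x) (3 / 10)) (tbl tK x) (tbl tL x) (tbl (smT h0⁻¹ tC) x)) 1 3 3 0 2 1 1 :=
  (sideB hx hx').bothA (thrB hx hx') (en_pos (hx1 hx).le) (Or.inl rfl) (Or.inl rfl) fun y y' F =>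
    bothA_cert (s1 := true) (s2 := true) rfl hκ (en_pos (hx1 hx).le) (esg_rng (hx1 hx).le (hx2 hx').le).1 (mo_v x) covB01 covB23 hx hx'
        Pool.Agent.Strip051.G.I6500_6900.Tab.C.BA02.c_pp_133 noCut_EA noExt_EA F trivial trivial

theorem BA02_pp_202 {κ x : ℝ} (hκ : κ * h0 = ken x) (hx : ((697932185 : ℕ) : ℝ) / S ≤ x) (hx' : x ≤ (((697932185 : ℕ) : ℝ) + (42949674 : ℕ)) / S) :
    TriA PP.cur (VE (h0 * 0) 3 κ (h0 * x) (eng.v x) (h0 * (3 / 40)) (tnt (h0 * x) (3 / 10)) (tbl tK x) (tbl tL x) (tbl (smT h0⁻¹ tC) x)) 2 0 2 0 2 1 1 :=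
  (sideB hx hx').bothA (thrB hx hx') (en_pos (hx1 hx).le) (Or.inl rfl) (Or.inl rfl) fun y y' F =>
    bothA_cert (s1 := true) (s2 := true) rfl hκ (en_pos (hx1 hx).le) (esg_rng (hx1 hx).le (hx2 hx').le).1 (mo_v x) covB02 covB20 hx hx'
        Pool.Agent.Strip051.G.I6500_6900.Tab.C.BA02.c_pp_202 noCut_EA noExt_EA F trivial trivial

theorem BA02_pp_203 {κ x : ℝ} (hκ : κ * h0 = ken x) (hx : ((697932185 : ℕ) : ℝ) / S ≤ x) (hx' : x ≤ (((697932185 : ℕ) : ℝ) + (42949674 : ℕ)) / S) :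
    TriA PP.cur (VE (h0 * 0) 3 κ (h0 * x) (eng.v x) (h0 * (3 / 40)) (tnt (h0 * x) (3 / 10)) (tbl tK x) (tbl tL x) (tbl (smT h0⁻¹ tC) x)) 2 0 3 0 2 1 1 :=
  (sideB hx hx').bothA (thrB hx hx') (en_pos (hx1 hx).le) (Or.inl rfl) (Or.inl rfl) fun y y' F =>
    bothA_cert (s1 := true) (s2 := true) rfl hκ (en_pos (hx1 hx).le) (esg_rng (hx1 hx).le (hx2 hx').le).1 (mo_v x) covB02 covB20 hx hx'
        Pool.Agent.Strip051.G.I6500_6900.Tab.C.BA02.c_pp_203 noCut_EA noExt_EA F trivial trivial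

theorem BA02_pp_213 {κ x : ℝ} (hκ : κ * h0 = ken x) (hx : ((697932185 : ℕ) : ℝ) / S ≤ x) (hx' : x ≤ (((697932185 : ℕ) : ℝ) + (42949674 : ℕ)) / S) :
    TriA PP.cur (VE (h0 * 0) 3 κ (h0 * x) (eng.v x) (h0 * (3 / 40)) (tnt (h0 * x) (3 / 10)) (tbl tK x) (tbl tL x) (tbl (smT h0⁻¹ tC) x)) 2 1 3 0 2 1 1 :=
  (sideB hx hx').bothA (thrB hx hx') (en_pos (hx1 hx).le) (Or.inl rfl) (Or.inl rfl) fun y y' F =>
    bothA_cert (s1 := true) (s2 := true) rfl hκ (en_pos (hx1 hx).le) (esg_rng (hx1 hx).le (hx2 hx').le).1 (mo_v x) covB02 covB21 hx hx'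
        Pool.Agent.Strip051.G.I6500_6900.Tab.C.BA02.c_pp_213 noCut_EA noExt_EA F trivial trivial

theorem BA02_pp_303 {κ x : ℝ} (hκ : κ * h0 = ken x) (hx : ((697932185 : ℕ) : ℝ) / S ≤ x) (hx' : x ≤ (((697932185 : ℕ) : ℝ) + (42949674 : ℕ)) / S) :
    TriA PP.cur (VE (h0 * 0) 3 κ (h0 * x) (eng.v x) (h0 * (3 / 40)) (tnt (h0 * x) (3 / 10)) (tbl tK x) (tbl tL x) (tbl (smT h0⁻¹ tC) x)) 3 0 3 0 2 1 1 :=
  triA_j0

theorem BA02_pp_313 {κ x : ℝ} (hκ : κ * h0 = ken x) (hx : ((697932185 : ℕ) : ℝ) / S ≤ x) (hx' : x ≤ (((697932185 : ℕ) : ℝ) + (42949674 : ℕ)) / S) :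
    TriA PP.cur (VE (h0 * 0) 3 κ (h0 * x) (eng.v x) (h0 * (3 / 40)) (tnt (h0 * x) (3 / 10)) (tbl tK x) (tbl tL x) (tbl (smT h0⁻¹ tC) x)) 3 1 3 0 2 1 1 :=
  triA_j0

theorem BA02_pm_001 {κ x : ℝ} (hκ : κ * h0 = ken x) (hx : ((697932185 : ℕ) : ℝ) / S ≤ x) (hx' : x ≤ (((697932185 : ℕ) : ℝ) + (42949674 : ℕ)) / S) :
    TriA PP.cur (VE (h0 * 0) 3 κ (h0 * x) (eng.v x) (h0 * (3 / 40)) (tnt (h0 * x) (3 / 10)) (tbl tK x) (tbl tL x) (tbl (smT h0⁻¹ tC) x)) 0 0 1 0 2 1 (-1) :=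
  (sideB hx hx').bothA (thrB hx hx') (en_pos (hx1 hx).le) (Or.inl rfl) (Or.inr rfl) fun y y' F =>
    bothA_cert (s1 := true) (s2 := false) rfl hκ (en_pos (hx1 hx).le) (esg_rng (hx1 hx).le (hx2 hx').le).1 (mo_v x) covB00 covB20 hx hx'
        Pool.Agent.Strip051.G.I6500_6900.Tab.C.BA02.c_pm_001 noCut_EA noExt_EA F trivial trivial

theorem BA02_pm_011 {κ x : ℝ} (hκ : κ * h0 = ken x) (hx : ((697932185 : ℕ) : ℝ) / S ≤ x) (hx' : x ≤ (((697932185 : ℕ) : ℝ) + (42949674 : ℕ)) / S) :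
    TriA PP.cur (VE (h0 * 0) 3 κ (h0 * x) (eng.v x) (h0 * (3 / 40)) (tnt (h0 * x) (3 / 10)) (tbl tK x) (tbl tL x) (tbl (smT h0⁻¹ tC) x)) 0 1 1 0 2 1 (-1) :=
  (sideB hx hx').bothA (thrB hx hx') (en_pos (hx1 hx).le) (Or.inl rfl) (Or.inr rfl) fun y y' F =>
    bothA_cert (s1 := true) (s2 := false) rfl hκ (en_pos (hx1 hx).le) (esg_rng (hx1 hx).le (hx2 hx').le).1 (mo_v x) covB00 covB21 hx hx'
        Pool.Agent.Strip051.G.I6500_6900.Tab.C.BA02.c_pm_011 noCut_EA noExt_EA F trivial trivial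

theorem BA02_pm_012 {κ x : ℝ} (hκ : κ * h0 = ken x) (hx : ((697932185 : ℕ) : ℝ) / S ≤ x) (hx' : x ≤ (((697932185 : ℕ) : ℝ) + (42949674 : ℕ)) / S) :
    TriA PP.cur (VE (h0 * 0) 3 κ (h0 * x) (eng.v x) (h0 * (3 / 40)) (tnt (h0 * x) (3 / 10)) (tbl tK x) (tbl tL x) (tbl (smT h0⁻¹ tC) x)) 0 1 2 0 2 1 (-1) :=
  (sideB hx hx').bothA (thrB hx hx') (en_pos (hx1 hx).le) (Or.inl rfl) (Or.inr rfl) fun y y' F =>
    bothA_cert (s1 := true) (s2 := false) rfl hκ (en_pos (hx1 hx).le) (esg_rng (hx1 hx).le (hx2 hx').le).1 (mo_v x) covB00 covB21 hx hx'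
        Pool.Agent.Strip051.G.I6500_6900.Tab.C.BA02.c_pm_012 noCut_EA noExt_EA F trivial trivial

theorem BA02_pm_022 {κ x : ℝ} (hκ : κ * h0 = ken x) (hx : ((697932185 : ℕ) : ℝ) / S ≤ x) (hx' : x ≤ (((697932185 : ℕ) : ℝ) + (42949674 : ℕ)) / S) :
    TriA PP.cur (VE (h0 * 0) 3 κ (h0 * x) (eng.v x) (h0 * (3 / 40)) (tnt (h0 * x) (3 / 10)) (tbl tK x) (tbl tL x) (tbl (smT h0⁻¹ tC) x)) 0 2 2 0 2 1 (-1) :=
  (sideB hx hx').bothA (thrB hx hx') (en_pos (hx1 hx).le) (Or.inl rfl) (Or.inr rfl) fun y y' F =>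
    (lt_or_ge (h0 * y') 1).elim
      (fun g => bothA_cert (s1 := true) (s2 := false) rfl hκ (en_pos (hx1 hx).le) (esg_rng (hx1 hx).le (hx2 hx').le).1 (mo_v x) covB00 covB22a hx hx'
        Pool.Agent.Strip051.G.I6500_6900.Tab.C.BA02.c_pm_022_a (cutEA_cons (Pool.Agent.Strip051.G.I6500_6900.Tab.altB_A022E_02 hκ hx hx') cutEA_nil) (xdA0 hκ hx hx' rfl) F trivial g)
      (fun g => bothA_cert (s1 := true) (s2 := false) rfl hκ (en_pos (hx1 hx).le) (esg_rng (hx1 hx).le (hx2 hx').le).1 (mo_v x) covB00 covB22b hx hx'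
        Pool.Agent.Strip051.G.I6500_6900.Tab.C.BA02.c_pm_022_b (cutEA_cons (Pool.Agent.Strip051.G.I6500_6900.Tab.altB_A022E_02 hκ hx hx') cutEA_nil) noExt_EA F trivial g)

theorem BA02_pm_023 {κ x : ℝ} (hκ : κ * h0 = ken x) (hx : ((697932185 : ℕ) : ℝ) / S ≤ x) (hx' : x ≤ (((697932185 : ℕ) : ℝ) + (42949674 : ℕ)) / S) :
    TriA PP.cur (VE (h0 * 0) 3 κ (h0 * x) (eng.v x) (h0 * (3 / 40)) (tnt (h0 * x) (3 / 10)) (tbl tK x) (tbl tL x) (tbl (smT h0⁻¹ tC) x)) 0 2 3 0 2 1 (-1) :=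
  (sideB hx hx').bothA (thrB hx hx') (en_pos (hx1 hx).le) (Or.inl rfl) (Or.inr rfl) fun y y' F =>
    (lt_or_ge (h0 * y') 1).elim
      (fun g => bothA_cert (s1 := true) (s2 := false) rfl hκ (en_pos (hx1 hx).le) (esg_rng (hx1 hx).le (hx2 hx').le).1 (mo_v x) covB00 covB22a hx hx'
        Pool.Agent.Strip051.G.I6500_6900.Tab.C.BA02.c_pm_023_a noCut_EA (xdA0 hκ hx hx' rfl) F trivial g)
      (fun g => bothA_cert (s1 := true) (s2 := false) rfl hκ (en_pos (hx1 hx).le) (esg_rng (hx1 hx).le (hx2 hx').le).1 (mo_v x) covB00 covB22b hx hx'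
        Pool.Agent.Strip051.G.I6500_6900.Tab.C.BA02.c_pm_023_b noCut_EA noExt_EA F trivial g)

theorem BA02_pm_033 {κ x : ℝ} (hκ : κ * h0 = ken x) (hx : ((697932185 : ℕ) : ℝ) / S ≤ x) (hx' : x ≤ (((697932185 : ℕ) : ℝ) + (42949674 : ℕ)) / S) :
    TriA PP.cur (VE (h0 * 0) 3 κ (h0 * x) (eng.v x) (h0 * (3 / 40)) (tnt (h0 * x) (3 / 10)) (tbl tK x) (tbl tL x) (tbl (smT h0⁻¹ tC) x)) 0 3 3 0 2 1 (-1) :=
  (sideB hx hx').bothA (thrB hx hx') (en_pos (hx1 hx).le) (Or.inl rfl) (Or.inr rfl) fun y y' F =>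
    bothA_cert (s1 := true) (s2 := false) rfl hκ (en_pos (hx1 hx).le) (esg_rng (hx1 hx).le (hx2 hx').le).1 (mo_v x) covB00 covB23 hx hx'
        Pool.Agent.Strip051.G.I6500_6900.Tab.C.BA02.c_pm_033 noCut_EA noExt_EA F trivial trivial

theorem BA02_pm_101 {κ x : ℝ} (hκ : κ * h0 = ken x) (hx : ((697932185 : ℕ) : ℝ) / S ≤ x) (hx' : x ≤ (((697932185 : ℕ) : ℝ) + (42949674 : ℕ)) / S) :
    TriA PP.cur (VE (h0 * 0) 3 κ (h0 * x) (eng.v x) (h0 * (3 / 40)) (tnt (h0 * x) (3 / 10)) (tbl tK x) (tbl tL x) (tbl (smT h0⁻¹ tC) x)) 1 0 1 0 2 1 (-1) :=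
  (sideB hx hx').bothA (thrB hx hx') (en_pos (hx1 hx).le) (Or.inl rfl) (Or.inr rfl) fun y y' F =>
    bothA_cert (s1 := true) (s2 := false) rfl hκ (en_pos (hx1 hx).le) (esg_rng (hx1 hx).le (hx2 hx').le).1 (mo_v x) covB01 covB20 hx hx'
        Pool.Agent.Strip051.G.I6500_6900.Tab.C.BA02.c_pm_101 (cutEA_cons (Pool.Agent.Strip051.G.I6500_6900.Tab.altB_A101E_02 hκ hx hx') cutEA_nil) noExt_EA F trivial trivial

theorem BA02_pm_102 {κ x : ℝ} (hκ : κ * h0 = ken x) (hx : ((697932185 : ℕ) : ℝ) / S ≤ x) (hx' : x ≤ (((697932185 : ℕ) : ℝ) + (42949674 : ℕ)) / S) :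
    TriA PP.cur (VE (h0 * 0) 3 κ (h0 * x) (eng.v x) (h0 * (3 / 40)) (tnt (h0 * x) (3 / 10)) (tbl tK x) (tbl tL x) (tbl (smT h0⁻¹ tC) x)) 1 0 2 0 2 1 (-1) :=
  (sideB hx hx').bothA (thrB hx hx') (en_pos (hx1 hx).le) (Or.inl rfl) (Or.inr rfl) fun y y' F =>
    bothA_cert (s1 := true) (s2 := false) rfl hκ (en_pos (hx1 hx).le) (esg_rng (hx1 hx).le (hx2 hx').le).1 (mo_v x) covB01 covB20 hx hx'
        Pool.Agent.Strip051.G.I6500_6900.Tab.C.BA02.c_pm_102 (cutEA_cons (Pool.Agent.Strip051.G.I6500_6900.Tab.altB_A102E_02 hκ hx hx') cutEA_nil) noExt_EA F trivial trivial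

theorem BA02_pm_112 {κ x : ℝ} (hκ : κ * h0 = ken x) (hx : ((697932185 : ℕ) : ℝ) / S ≤ x) (hx' : x ≤ (((697932185 : ℕ) : ℝ) + (42949674 : ℕ)) / S) :
    TriA PP.cur (VE (h0 * 0) 3 κ (h0 * x) (eng.v x) (h0 * (3 / 40)) (tnt (h0 * x) (3 / 10)) (tbl tK x) (tbl tL x) (tbl (smT h0⁻¹ tC) x)) 1 1 2 0 2 1 (-1) :=
  (sideB hx hx').bothA (thrB hx hx') (en_pos (hx1 hx).le) (Or.inl rfl) (Or.inr rfl) fun y y' F =>
    bothA_cert (s1 := true) (s2 := false) rfl hκ (en_pos (hx1 hx).le) (esg_rng (hx1 hx).le (hx2 hx').le).1 (mo_v x) covB01 covB21 hx hx'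
        Pool.Agent.Strip051.G.I6500_6900.Tab.C.BA02.c_pm_112 noCut_EA noExt_EA F trivial trivial

theorem BA02_pm_113 {κ x : ℝ} (hκ : κ * h0 = ken x) (hx : ((697932185 : ℕ) : ℝ) / S ≤ x) (hx' : x ≤ (((697932185 : ℕ) : ℝ) + (42949674 : ℕ)) / S) :
    TriA PP.cur (VE (h0 * 0) 3 κ (h0 * x) (eng.v x) (h0 * (3 / 40)) (tnt (h0 * x) (3 / 10)) (tbl tK x) (tbl tL x) (tbl (smT h0⁻¹ tC) x)) 1 1 3 0 2 1 (-1) :=
  (sideB hx hx').bothA (thrB hx hx') (en_pos (hx1 hx).le) (Or.inl rfl) (Or.inr rfl) fun y y' F =>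
    bothA_cert (s1 := true) (s2 := false) rfl hκ (en_pos (hx1 hx).le) (esg_rng (hx1 hx).le (hx2 hx').le).1 (mo_v x) covB01 covB21 hx hx'
        Pool.Agent.Strip051.G.I6500_6900.Tab.C.BA02.c_pm_113 noCut_EA noExt_EA F trivial trivial

theorem BA02_pm_123 {κ x : ℝ} (hκ : κ * h0 = ken x) (hx : ((697932185 : ℕ) : ℝ) / S ≤ x) (hx' : x ≤ (((697932185 : ℕ) : ℝ) + (42949674 : ℕ)) / S) :
    TriA PP.cur (VE (h0 * 0) 3 κ (h0 * x) (eng.v x) (h0 * (3 / 40)) (tnt (h0 * x) (3 / 10)) (tbl tK x) (tbl tL x) (tbl (smT h0⁻¹ tC) x)) 1 2 3 0 2 1 (-1) :=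
  (sideB hx hx').bothA (thrB hx hx') (en_pos (hx1 hx).le) (Or.inl rfl) (Or.inr rfl) fun y y' F =>
    (lt_or_ge (h0 * y') 1).elim
      (fun g => bothA_cert (s1 := true) (s2 := false) rfl hκ (en_pos (hx1 hx).le) (esg_rng (hx1 hx).le (hx2 hx').le).1 (mo_v x) covB01 covB22a hx hx'
        Pool.Agent.Strip051.G.I6500_6900.Tab.C.BA02.c_pm_123_a (cutEA_cons (Pool.Agent.Strip051.G.I6500_6900.Tab.alt12cB_A123_02 hκ hx hx') (cutEA_cons (Pool.Agent.Strip051.G.I6500_6900.Tab.Mo.molE_A_123_02_0 hκ hx hx') cutEA_nil)) (xdA0 hκ hx hx' rfl) F trivial g)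
      (fun g => bothA_cert (s1 := true) (s2 := false) rfl hκ (en_pos (hx1 hx).le) (esg_rng (hx1 hx).le (hx2 hx').le).1 (mo_v x) covB01 covB22b hx hx'
        Pool.Agent.Strip051.G.I6500_6900.Tab.C.BA02.c_pm_123_b (cutEA_cons (Pool.Agent.Strip051.G.I6500_6900.Tab.alt12cB_A123_02 hκ hx hx') (cutEA_cons (Pool.Agent.Strip051.G.I6500_6900.Tab.Mo.molE_A_123_02_0 hκ hx hx') cutEA_nil)) noExt_EA F trivial g)

theorem BA02_pm_133 {κ x : ℝ} (hκ : κ * h0 = ken x) (hx : ((697932185 : ℕ) : ℝ) / S ≤ x) (hx' : x ≤ (((697932185 : ℕ) : ℝ) + (42949674 : ℕ)) / S) :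
    TriA PP.cur (VE (h0 * 0) 3 κ (h0 * x) (eng.v x) (h0 * (3 / 40)) (tnt (h0 * x) (3 / 10)) (tbl tK x) (tbl tL x) (tbl (smT h0⁻¹ tC) x)) 1 3 3 0 2 1 (-1) :=
  (sideB hx hx').bothA (thrB hx hx') (en_pos (hx1 hx).le) (Or.inl rfl) (Or.inr rfl) fun y y' F =>
    bothA_cert (s1 := true) (s2 := false) rfl hκ (en_pos (hx1 hx).le) (esg_rng (hx1 hx).le (hx2 hx').le).1 (mo_v x) covB01 covB23 hx hx'
        Pool.Agent.Strip051.G.I6500_6900.Tab.C.BA02.c_pm_133 noCut_EA noExt_EA F trivial trivial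

theorem BA02_pm_202 {κ x : ℝ} (hκ : κ * h0 = ken x) (hx : ((697932185 : ℕ) : ℝ) / S ≤ x) (hx' : x ≤ (((697932185 : ℕ) : ℝ) + (42949674 : ℕ)) / S) :
    TriA PP.cur (VE (h0 * 0) 3 κ (h0 * x) (eng.v x) (h0 * (3 / 40)) (tnt (h0 * x) (3 / 10)) (tbl tK x) (tbl tL x) (tbl (smT h0⁻¹ tC) x)) 2 0 2 0 2 1 (-1) :=
  (sideB hx hx').bothA (thrB hx hx') (en_pos (hx1 hx).le) (Or.inl rfl) (Or.inr rfl) fun y y' F =>
    bothA_cert (s1 := true) (s2 := false) rfl hκ (en_pos (hx1 hx).le) (esg_rng (hx1 hx).le (hx2 hx').le).1 (mo_v x) covB02 covB20 hx hx'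
        Pool.Agent.Strip051.G.I6500_6900.Tab.C.BA02.c_pm_202 (cutEA_cons (Pool.Agent.Strip051.G.I6500_6900.Tab.altB_A202E_02 hκ hx hx') cutEA_nil) noExt_EA F trivial trivial

theorem BA02_pm_203 {κ x : ℝ} (hκ : κ * h0 = ken x) (hx : ((697932185 : ℕ) : ℝ) / S ≤ x) (hx' : x ≤ (((697932185 : ℕ) : ℝ) + (42949674 : ℕ)) / S) :
    TriA PP.cur (VE (h0 * 0) 3 κ (h0 * x) (eng.v x) (h0 * (3 / 40)) (tnt (h0 * x) (3 / 10)) (tbl tK x) (tbl tL x) (tbl (smT h0⁻¹ tC) x)) 2 0 3 0 2 1 (-1) :=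
  (sideB hx hx').bothA (thrB hx hx') (en_pos (hx1 hx).le) (Or.inl rfl) (Or.inr rfl) fun y y' F =>
    bothA_cert (s1 := true) (s2 := false) rfl hκ (en_pos (hx1 hx).le) (esg_rng (hx1 hx).le (hx2 hx').le).1 (mo_v x) covB02 covB20 hx hx'
        Pool.Agent.Strip051.G.I6500_6900.Tab.C.BA02.c_pm_203 noCut_EA noExt_EA F trivial trivial

theorem BA02_pm_213 {κ x : ℝ} (hκ : κ * h0 = ken x) (hx : ((697932185 : ℕ) : ℝ) / S ≤ x) (hx' : x ≤ (((697932185 : ℕ) : ℝ) + (42949674 : ℕ)) / S) :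
    TriA PP.cur (VE (h0 * 0) 3 κ (h0 * x) (eng.v x) (h0 * (3 / 40)) (tnt (h0 * x) (3 / 10)) (tbl tK x) (tbl tL x) (tbl (smT h0⁻¹ tC) x)) 2 1 3 0 2 1 (-1) :=
  (sideB hx hx').bothA (thrB hx hx') (en_pos (hx1 hx).le) (Or.inl rfl) (Or.inr rfl) fun y y' F =>
    bothA_cert (s1 := true) (s2 := false) rfl hκ (en_pos (hx1 hx).le) (esg_rng (hx1 hx).le (hx2 hx').le).1 (mo_v x) covB02 covB21 hx hx'
        Pool.Agent.Strip051.G.I6500_6900.Tab.C.BA02.c_pm_213 noCut_EA noExt_EA F trivial trivial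

theorem BA02_pm_303 {κ x : ℝ} (hκ : κ * h0 = ken x) (hx : ((697932185 : ℕ) : ℝ) / S ≤ x) (hx' : x ≤ (((697932185 : ℕ) : ℝ) + (42949674 : ℕ)) / S) :
    TriA PP.cur (VE (h0 * 0) 3 κ (h0 * x) (eng.v x) (h0 * (3 / 40)) (tnt (h0 * x) (3 / 10)) (tbl tK x) (tbl tL x) (tbl (smT h0⁻¹ tC) x)) 3 0 3 0 2 1 (-1) :=
  triA_j0

theorem BA02_pm_313 {κ x : ℝ} (hκ : κ * h0 = ken x) (hx : ((697932185 : ℕ) : ℝ) / S ≤ x) (hx' : x ≤ (((697932185 : ℕ) : ℝ) + (42949674 : ℕ)) / S) :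
    TriA PP.cur (VE (h0 * 0) 3 κ (h0 * x) (eng.v x) (h0 * (3 / 40)) (tnt (h0 * x) (3 / 10)) (tbl tK x) (tbl tL x) (tbl (smT h0⁻¹ tC) x)) 3 1 3 0 2 1 (-1) :=
  triA_j0

theorem BA02_mm_001 {κ x : ℝ} (hκ : κ * h0 = ken x) (hx : ((697932185 : ℕ) : ℝ) / S ≤ x) (hx' : x ≤ (((697932185 : ℕ) : ℝ) + (42949674 : ℕ)) / S) :
    TriA PP.cur (VE (h0 * 0) 3 κ (h0 * x) (eng.v x) (h0 * (3 / 40)) (tnt (h0 * x) (3 / 10)) (tbl tK x) (tbl tL x) (tbl (smT h0⁻¹ tC) x)) 0 0 1 0 2 (-1) (-1) :=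
  (sideB hx hx').bothA (thrB hx hx') (en_pos (hx1 hx).le) (Or.inr rfl) (Or.inr rfl) fun y y' F =>
    bothA_cert (s1 := false) (s2 := false) rfl hκ (en_pos (hx1 hx).le) (esg_rng (hx1 hx).le (hx2 hx').le).1 (mo_v x) covB00 covB20 hx hx'
        Pool.Agent.Strip051.G.I6500_6900.Tab.C.BA02.c_mm_001 noCut_EA noExt_EA F trivial trivial

theorem BA02_mm_011 {κ x : ℝ} (hκ : κ * h0 = ken x) (hx : ((697932185 : ℕ) : ℝ) / S ≤ x) (hx' : x ≤ (((697932185 : ℕ) : ℝ) + (42949674 : ℕ)) / S) :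
    TriA PP.cur (VE (h0 * 0) 3 κ (h0 * x) (eng.v x) (h0 * (3 / 40)) (tnt (h0 * x) (3 / 10)) (tbl tK x) (tbl tL x) (tbl (smT h0⁻¹ tC) x)) 0 1 1 0 2 (-1) (-1) :=
  (sideB hx hx').bothA (thrB hx hx') (en_pos (hx1 hx).le) (Or.inr rfl) (Or.inr rfl) fun y y' F =>
    bothA_cert (s1 := false) (s2 := false) rfl hκ (en_pos (hx1 hx).le) (esg_rng (hx1 hx).le (hx2 hx').le).1 (mo_v x) covB00 covB21 hx hx'
        Pool.Agent.Strip051.G.I6500_6900.Tab.C.BA02.c_mm_011 noCut_EA noExt_EA F trivial trivial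

theorem BA02_mm_012 {κ x : ℝ} (hκ : κ * h0 = ken x) (hx : ((697932185 : ℕ) : ℝ) / S ≤ x) (hx' : x ≤ (((697932185 : ℕ) : ℝ) + (42949674 : ℕ)) / S) :
    TriA PP.cur (VE (h0 * 0) 3 κ (h0 * x) (eng.v x) (h0 * (3 / 40)) (tnt (h0 * x) (3 / 10)) (tbl tK x) (tbl tL x) (tbl (smT h0⁻¹ tC) x)) 0 1 2 0 2 (-1) (-1) :=
  (sideB hx hx').bothA (thrB hx hx') (en_pos (hx1 hx).le) (Or.inr rfl) (Or.inr rfl) fun y y' F =>
    bothA_cert (s1 := false) (s2 := false) rfl hκ (en_pos (hx1 hx).le) (esg_rng (hx1 hx).le (hx2 hx').le).1 (mo_v x) covB00 covB21 hx hx'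
        Pool.Agent.Strip051.G.I6500_6900.Tab.C.BA02.c_mm_012 noCut_EA noExt_EA F trivial trivial

theorem BA02_mm_022 {κ x : ℝ} (hκ : κ * h0 = ken x) (hx : ((697932185 : ℕ) : ℝ) / S ≤ x) (hx' : x ≤ (((697932185 : ℕ) : ℝ) + (42949674 : ℕ)) / S) :
    TriA PP.cur (VE (h0 * 0) 3 κ (h0 * x) (eng.v x) (h0 * (3 / 40)) (tnt (h0 * x) (3 / 10)) (tbl tK x) (tbl tL x) (tbl (smT h0⁻¹ tC) x)) 0 2 2 0 2 (-1) (-1) :=
  (sideB hx hx').bothA (thrB hx hx') (en_pos (hx1 hx).le) (Or.inr rfl) (Or.inr rfl) fun y y' F =>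
    (lt_or_ge (h0 * y') 1).elim
      (fun g => bothA_cert (s1 := false) (s2 := false) rfl hκ (en_pos (hx1 hx).le) (esg_rng (hx1 hx).le (hx2 hx').le).1 (mo_v x) covB00 covB22a hx hx'
        Pool.Agent.Strip051.G.I6500_6900.Tab.C.BA02.c_mm_022_a noCut_EA noExt_EA F trivial g)
      (fun g => bothA_cert (s1 := false) (s2 := false) rfl hκ (en_pos (hx1 hx).le) (esg_rng (hx1 hx).le (hx2 hx').le).1 (mo_v x) covB00 covB22b hx hx'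
        Pool.Agent.Strip051.G.I6500_6900.Tab.C.BA02.c_mm_022_b noCut_EA noExt_EA F trivial g)

theorem BA02_mm_023 {κ x : ℝ} (hκ : κ * h0 = ken x) (hx : ((697932185 : ℕ) : ℝ) / S ≤ x) (hx' : x ≤ (((697932185 : ℕ) : ℝ) + (42949674 : ℕ)) / S) :
    TriA PP.cur (VE (h0 * 0) 3 κ (h0 * x) (eng.v x) (h0 * (3 / 40)) (tnt (h0 * x) (3 / 10)) (tbl tK x) (tbl tL x) (tbl (smT h0⁻¹ tC) x)) 0 2 3 0 2 (-1) (-1) :=
  (sideB hx hx').bothA (thrB hx hx') (en_pos (hx1 hx).le) (Or.inr rfl) (Or.inr rfl) fun y y' F =>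
    (lt_or_ge (h0 * y') 1).elim
      (fun g => bothA_cert (s1 := false) (s2 := false) rfl hκ (en_pos (hx1 hx).le) (esg_rng (hx1 hx).le (hx2 hx').le).1 (mo_v x) covB00 covB22a hx hx'
        Pool.Agent.Strip051.G.I6500_6900.Tab.C.BA02.c_mm_023_a noCut_EA noExt_EA F trivial g)
      (fun g => bothA_cert (s1 := false) (s2 := false) rfl hκ (en_pos (hx1 hx).le) (esg_rng (hx1 hx).le (hx2 hx').le).1 (mo_v x) covB00 covB22b hx hx'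
        Pool.Agent.Strip051.G.I6500_6900.Tab.C.BA02.c_mm_023_b noCut_EA noExt_EA F trivial g)

theorem BA02_mm_033 {κ x : ℝ} (hκ : κ * h0 = ken x) (hx : ((697932185 : ℕ) : ℝ) / S ≤ x) (hx' : x ≤ (((697932185 : ℕ) : ℝ) + (42949674 : ℕ)) / S) :
    TriA PP.cur (VE (h0 * 0) 3 κ (h0 * x) (eng.v x) (h0 * (3 / 40)) (tnt (h0 * x) (3 / 10)) (tbl tK x) (tbl tL x) (tbl (smT h0⁻¹ tC) x)) 0 3 3 0 2 (-1) (-1) :=
  (sideB hx hx').bothA (thrB hx hx') (en_pos (hx1 hx).le) (Or.inr rfl) (Or.inr rfl) fun y y' F =>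
    bothA_cert (s1 := false) (s2 := false) rfl hκ (en_pos (hx1 hx).le) (esg_rng (hx1 hx).le (hx2 hx').le).1 (mo_v x) covB00 covB23 hx hx'
        Pool.Agent.Strip051.G.I6500_6900.Tab.C.BA02.c_mm_033 noCut_EA noExt_EA F trivial trivial

theorem BA02_mm_101 {κ x : ℝ} (hκ : κ * h0 = ken x) (hx : ((697932185 : ℕ) : ℝ) / S ≤ x) (hx' : x ≤ (((697932185 : ℕ) : ℝ) + (42949674 : ℕ)) / S) :
    TriA PP.cur (VE (h0 * 0) 3 κ (h0 * x) (eng.v x) (h0 * (3 / 40)) (tnt (h0 * x) (3 / 10)) (tbl tK x) (tbl tL x) (tbl (smT h0⁻¹ tC) x)) 1 0 1 0 2 (-1) (-1) :=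
  (sideB hx hx').bothA (thrB hx hx') (en_pos (hx1 hx).le) (Or.inr rfl) (Or.inr rfl) fun y y' F =>
    bothA_cert (s1 := false) (s2 := false) rfl hκ (en_pos (hx1 hx).le) (esg_rng (hx1 hx).le (hx2 hx').le).1 (mo_v x) covB01 covB20 hx hx'
        Pool.Agent.Strip051.G.I6500_6900.Tab.C.BA02.c_mm_101 (cutEA_cons (Pool.Agent.Strip051.G.I6500_6900.Tab.altB_A101R_02 hκ hx hx') cutEA_nil) noExt_EA F trivial trivial

theorem BA02_mm_102 {κ x : ℝ} (hκ : κ * h0 = ken x) (hx : ((697932185 : ℕ) : ℝ) / S ≤ x) (hx' : x ≤ (((697932185 : ℕ) : ℝ) + (42949674 : ℕ)) / S) :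
    TriA PP.cur (VE (h0 * 0) 3 κ (h0 * x) (eng.v x) (h0 * (3 / 40)) (tnt (h0 * x) (3 / 10)) (tbl tK x) (tbl tL x) (tbl (smT h0⁻¹ tC) x)) 1 0 2 0 2 (-1) (-1) :=
  (sideB hx hx').bothA (thrB hx hx') (en_pos (hx1 hx).le) (Or.inr rfl) (Or.inr rfl) fun y y' F =>
    bothA_cert (s1 := false) (s2 := false) rfl hκ (en_pos (hx1 hx).le) (esg_rng (hx1 hx).le (hx2 hx').le).1 (mo_v x) covB01 covB20 hx hx'
        Pool.Agent.Strip051.G.I6500_6900.Tab.C.BA02.c_mm_102 (cutEA_cons (Pool.Agent.Strip051.G.I6500_6900.Tab.altB_A102R_02 hκ hx hx') cutEA_nil) noExt_EA F trivial trivial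

theorem BA02_mm_112 {κ x : ℝ} (hκ : κ * h0 = ken x) (hx : ((697932185 : ℕ) : ℝ) / S ≤ x) (hx' : x ≤ (((697932185 : ℕ) : ℝ) + (42949674 : ℕ)) / S) :
    TriA PP.cur (VE (h0 * 0) 3 κ (h0 * x) (eng.v x) (h0 * (3 / 40)) (tnt (h0 * x) (3 / 10)) (tbl tK x) (tbl tL x) (tbl (smT h0⁻¹ tC) x)) 1 1 2 0 2 (-1) (-1) :=
  (sideB hx hx').bothA (thrB hx hx') (en_pos (hx1 hx).le) (Or.inr rfl) (Or.inr rfl) fun y y' F =>
    bothA_cert (s1 := false) (s2 := false) rfl hκ (en_pos (hx1 hx).le) (esg_rng (hx1 hx).le (hx2 hx').le).1 (mo_v x) covB01 covB21 hx hx'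
        Pool.Agent.Strip051.G.I6500_6900.Tab.C.BA02.c_mm_112 noCut_EA noExt_EA F trivial trivial

theorem BA02_mm_113 {κ x : ℝ} (hκ : κ * h0 = ken x) (hx : ((697932185 : ℕ) : ℝ) / S ≤ x) (hx' : x ≤ (((697932185 : ℕ) : ℝ) + (42949674 : ℕ)) / S) :
    TriA PP.cur (VE (h0 * 0) 3 κ (h0 * x) (eng.v x) (h0 * (3 / 40)) (tnt (h0 * x) (3 / 10)) (tbl tK x) (tbl tL x) (tbl (smT h0⁻¹ tC) x)) 1 1 3 0 2 (-1) (-1) :=
  (sideB hx hx').bothA (thrB hx hx') (en_pos (hx1 hx).le) (Or.inr rfl) (Or.inr rfl) fun y y' F =>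
    bothA_cert (s1 := false) (s2 := false) rfl hκ (en_pos (hx1 hx).le) (esg_rng (hx1 hx).le (hx2 hx').le).1 (mo_v x) covB01 covB21 hx hx'
        Pool.Agent.Strip051.G.I6500_6900.Tab.C.BA02.c_mm_113 noCut_EA noExt_EA F trivial trivial

theorem BA02_mm_123 {κ x : ℝ} (hκ : κ * h0 = ken x) (hx : ((697932185 : ℕ) : ℝ) / S ≤ x) (hx' : x ≤ (((697932185 : ℕ) : ℝ) + (42949674 : ℕ)) / S) :
    TriA PP.cur (VE (h0 * 0) 3 κ (h0 * x) (eng.v x) (h0 * (3 / 40)) (tnt (h0 * x) (3 / 10)) (tbl tK x) (tbl tL x) (tbl (smT h0⁻¹ tC) x)) 1 2 3 0 2 (-1) (-1) :=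
  (sideB hx hx').bothA (thrB hx hx') (en_pos (hx1 hx).le) (Or.inr rfl) (Or.inr rfl) fun y y' F =>
    (lt_or_ge (h0 * y') 1).elim
      (fun g => bothA_cert (s1 := false) (s2 := false) rfl hκ (en_pos (hx1 hx).le) (esg_rng (hx1 hx).le (hx2 hx').le).1 (mo_v x) covB01 covB22a hx hx'
        Pool.Agent.Strip051.G.I6500_6900.Tab.C.BA02.c_mm_123_a noCut_EA noExt_EA F trivial g)
      (fun g => bothA_cert (s1 := false) (s2 := false) rfl hκ (en_pos (hx1 hx).le) (esg_rng (hx1 hx).le (hx2 hx').le).1 (mo_v x) covB01 covB22b hx hx'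
        Pool.Agent.Strip051.G.I6500_6900.Tab.C.BA02.c_mm_123_b noCut_EA noExt_EA F trivial g)

theorem BA02_mm_133 {κ x : ℝ} (hκ : κ * h0 = ken x) (hx : ((697932185 : ℕ) : ℝ) / S ≤ x) (hx' : x ≤ (((697932185 : ℕ) : ℝ) + (42949674 : ℕ)) / S) :
    TriA PP.cur (VE (h0 * 0) 3 κ (h0 * x) (eng.v x) (h0 * (3 / 40)) (tnt (h0 * x) (3 / 10)) (tbl tK x) (tbl tL x) (tbl (smT h0⁻¹ tC) x)) 1 3 3 0 2 (-1) (-1) :=
  (sideB hx hx').bothA (thrB hx hx') (en_pos (hx1 hx).le) (Or.inr rfl) (Or.inr rfl) fun y y' F =>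
    bothA_cert (s1 := false) (s2 := false) rfl hκ (en_pos (hx1 hx).le) (esg_rng (hx1 hx).le (hx2 hx').le).1 (mo_v x) covB01 covB23 hx hx'
        Pool.Agent.Strip051.G.I6500_6900.Tab.C.BA02.c_mm_133 noCut_EA noExt_EA F trivial trivial

theorem BA02_mm_202 {κ x : ℝ} (hκ : κ * h0 = ken x) (hx : ((697932185 : ℕ) : ℝ) / S ≤ x) (hx' : x ≤ (((697932185 : ℕ) : ℝ) + (42949674 : ℕ)) / S) :
    TriA PP.cur (VE (h0 * 0) 3 κ (h0 * x) (eng.v x) (h0 * (3 / 40)) (tnt (h0 * x) (3 / 10)) (tbl tK x) (tbl tL x) (tbl (smT h0⁻¹ tC) x)) 2 0 2 0 2 (-1) (-1) :=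
  (sideB hx hx').bothA (thrB hx hx') (en_pos (hx1 hx).le) (Or.inr rfl) (Or.inr rfl) fun y y' F =>
    bothA_cert (s1 := false) (s2 := false) rfl hκ (en_pos (hx1 hx).le) (esg_rng (hx1 hx).le (hx2 hx').le).1 (mo_v x) covB02 covB20 hx hx'
        Pool.Agent.Strip051.G.I6500_6900.Tab.C.BA02.c_mm_202 (cutEA_cons (Pool.Agent.Strip051.G.I6500_6900.Tab.altB_A202R_02 hκ hx hx') cutEA_nil) noExt_EA F trivial trivial

theorem BA02_mm_203 {κ x : ℝ} (hκ : κ * h0 = ken x) (hx : ((697932185 : ℕ) : ℝ) / S ≤ x) (hx' : x ≤ (((697932185 : ℕ) : ℝ) + (42949674 : ℕ)) / S) :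
    TriA PP.cur (VE (h0 * 0) 3 κ (h0 * x) (eng.v x) (h0 * (3 / 40)) (tnt (h0 * x) (3 / 10)) (tbl tK x) (tbl tL x) (tbl (smT h0⁻¹ tC) x)) 2 0 3 0 2 (-1) (-1) :=
  (sideB hx hx').bothA (thrB hx hx') (en_pos (hx1 hx).le) (Or.inr rfl) (Or.inr rfl) fun y y' F =>
    bothA_cert (s1 := false) (s2 := false) rfl hκ (en_pos (hx1 hx).le) (esg_rng (hx1 hx).le (hx2 hx').le).1 (mo_v x) covB02 covB20 hx hx'
        Pool.Agent.Strip051.G.I6500_6900.Tab.C.BA02.c_mm_203 noCut_EA noExt_EA F trivial trivial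

theorem BA02_mm_213 {κ x : ℝ} (hκ : κ * h0 = ken x) (hx : ((697932185 : ℕ) : ℝ) / S ≤ x) (hx' : x ≤ (((697932185 : ℕ) : ℝ) + (42949674 : ℕ)) / S) :
    TriA PP.cur (VE (h0 * 0) 3 κ (h0 * x) (eng.v x) (h0 * (3 / 40)) (tnt (h0 * x) (3 / 10)) (tbl tK x) (tbl tL x) (tbl (smT h0⁻¹ tC) x)) 2 1 3 0 2 (-1) (-1) :=
  (sideB hx hx').bothA (thrB hx hx') (en_pos (hx1 hx).le) (Or.inr rfl) (Or.inr rfl) fun y y' F =>
    bothA_cert (s1 := false) (s2 := false) rfl hκ (en_pos (hx1 hx).le) (esg_rng (hx1 hx).le (hx2 hx').le).1 (mo_v x) covB02 covB21 hx hx'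
        Pool.Agent.Strip051.G.I6500_6900.Tab.C.BA02.c_mm_213 noCut_EA noExt_EA F trivial trivial

theorem BA02_mm_303 {κ x : ℝ} (hκ : κ * h0 = ken x) (hx : ((697932185 : ℕ) : ℝ) / S ≤ x) (hx' : x ≤ (((697932185 : ℕ) : ℝ) + (42949674 : ℕ)) / S) :
    TriA PP.cur (VE (h0 * 0) 3 κ (h0 * x) (eng.v x) (h0 * (3 / 40)) (tnt (h0 * x) (3 / 10)) (tbl tK x) (tbl tL x) (tbl (smT h0⁻¹ tC) x)) 3 0 3 0 2 (-1) (-1) :=
  triA_j0

theorem BA02_mm_313 {κ x : ℝ} (hκ : κ * h0 = ken x) (hx : ((697932185 : ℕ) : ℝ) / S ≤ x) (hx' : x ≤ (((697932185 : ℕ) : ℝ) + (42949674 : ℕ)) / S) :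
    TriA PP.cur (VE (h0 * 0) 3 κ (h0 * x) (eng.v x) (h0 * (3 / 40)) (tnt (h0 * x) (3 / 10)) (tbl tK x) (tbl tL x) (tbl (smT h0⁻¹ tC) x)) 3 1 3 0 2 (-1) (-1) :=
  triA_j0

theorem BA02 {κ x : ℝ} (hκ : κ * h0 = ken x) (hx : ((697932185 : ℕ) : ℝ) / S ≤ x) (hx' : x ≤ (((697932185 : ℕ) : ℝ) + (42949674 : ℕ)) / S) : AllTA PP.cur (VE (h0 * 0) 3 κ (h0 * x) (eng.v x) (h0 * (3 / 40)) (tnt (h0 * x) (3 / 10)) (tbl tK x) (tbl tL x) (tbl (smT h0⁻¹ tC) x)) 0 2 where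
  pp := all17 (Q := fun a b c => TriA PP.cur (VE (h0 * 0) 3 κ (h0 * x) (eng.v x) (h0 * (3 / 40)) (tnt (h0 * x) (3 / 10)) (tbl tK x) (tbl tL x) (tbl (smT h0⁻¹ tC) x)) a b c 0 2 1 1)
    (BA02_pp_001 hκ hx hx') (BA02_pp_011 hκ hx hx') (BA02_pp_012 hκ hx hx') (BA02_pp_022 hκ hx hx') (BA02_pp_023 hκ hx hx') (BA02_pp_033 hκ hx hx') (BA02_pp_101 hκ hx hx') (BA02_pp_102 hκ hx hx') (BA02_pp_112 hκ hx hx') (BA02_pp_113 hκ hx hx') (BA02_pp_123 hκ hx hx') (BA02_pp_133 hκ hx hx') (BA02_pp_202 hκ hx hx') (BA02_pp_203 hκ hx hx') (BA02_pp_213 hκ hx hx') (BA02_pp_303 hκ hx hx') (BA02_pp_313 hκ hx hx')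
  pm := all17 (Q := fun a b c => TriA PP.cur (VE (h0 * 0) 3 κ (h0 * x) (eng.v x) (h0 * (3 / 40)) (tnt (h0 * x) (3 / 10)) (tbl tK x) (tbl tL x) (tbl (smT h0⁻¹ tC) x)) a b c 0 2 1 (-1))
    (BA02_pm_001 hκ hx hx') (BA02_pm_011 hκ hx hx') (BA02_pm_012 hκ hx hx') (BA02_pm_022 hκ hx hx') (BA02_pm_023 hκ hx hx') (BA02_pm_033 hκ hx hx') (BA02_pm_101 hκ hx hx') (BA02_pm_102 hκ hx hx') (BA02_pm_112 hκ hx hx') (BA02_pm_113 hκ hx hx') (BA02_pm_123 hκ hx hx') (BA02_pm_133 hκ hx hx') (BA02_pm_202 hκ hx hx') (BA02_pm_203 hκ hx hx') (BA02_pm_213 hκ hx hx') (BA02_pm_303 hκ hx hx') (BA02_pm_313 hκ hx hx')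
  mm := all17 (Q := fun a b c => TriA PP.cur (VE (h0 * 0) 3 κ (h0 * x) (eng.v x) (h0 * (3 / 40)) (tnt (h0 * x) (3 / 10)) (tbl tK x) (tbl tL x) (tbl (smT h0⁻¹ tC) x)) a b c 0 2 (-1) (-1))
    (BA02_mm_001 hκ hx hx') (BA02_mm_011 hκ hx hx') (BA02_mm_012 hκ hx hx') (BA02_mm_022 hκ hx hx') (BA02_mm_023 hκ hx hx') (BA02_mm_033 hκ hx hx') (BA02_mm_101 hκ hx hx') (BA02_mm_102 hκ hx hx') (BA02_mm_112 hκ hx hx') (BA02_mm_113 hκ hx hx') (BA02_mm_123 hκ hx hx') (BA02_mm_133 hκ hx hx') (BA02_mm_202 hκ hx hx') (BA02_mm_203 hκ hx hx') (BA02_mm_213 hκ hx hx') (BA02_mm_303 hκ hx hx') (BA02_mm_313 hκ hx hx')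

theorem BA03_pp_001 {κ x : ℝ} (hκ : κ * h0 = ken x) (hx : ((697932185 : ℕ) : ℝ) / S ≤ x) (hx' : x ≤ (((697932185 : ℕ) : ℝ) + (42949674 : ℕ)) / S) :
    TriA PP.cur (VE (h0 * 0) 3 κ (h0 * x) (eng.v x) (h0 * (3 / 40)) (tnt (h0 * x) (3 / 10)) (tbl tK x) (tbl tL x) (tbl (smT h0⁻¹ tC) x)) 0 0 1 0 3 1 1 :=
  (sideB hx hx').bothA (thrB hx hx') (en_pos (hx1 hx).le) (Or.inl rfl) (Or.inl rfl) fun y y' F =>
    bothA_cert (s1 := true) (s2 := true) rfl hκ (en_pos (hx1 hx).le) (esg_rng (hx1 hx).le (hx2 hx').le).1 (mo_v x) covB00 covB30 hx hx'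
        Pool.Agent.Strip051.G.I6500_6900.Tab.C.BA03.c_pp_001 noCut_EA noExt_EA F trivial trivial

theorem BA03_pp_011 {κ x : ℝ} (hκ : κ * h0 = ken x) (hx : ((697932185 : ℕ) : ℝ) / S ≤ x) (hx' : x ≤ (((697932185 : ℕ) : ℝ) + (42949674 : ℕ)) / S) :
    TriA PP.cur (VE (h0 * 0) 3 κ (h0 * x) (eng.v x) (h0 * (3 / 40)) (tnt (h0 * x) (3 / 10)) (tbl tK x) (tbl tL x) (tbl (smT h0⁻¹ tC) x)) 0 1 1 0 3 1 1 :=
  (sideB hx hx').bothA (thrB hx hx') (en_pos (hx1 hx).le) (Or.inl rfl) (Or.inl rfl) fun y y' F =>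
    bothA_cert (s1 := true) (s2 := true) rfl hκ (en_pos (hx1 hx).le) (esg_rng (hx1 hx).le (hx2 hx').le).1 (mo_v x) covB00 covB31 hx hx'
        Pool.Agent.Strip051.G.I6500_6900.Tab.C.BA03.c_pp_011 noCut_EA noExt_EA F trivial trivial

theorem BA03_pp_012 {κ x : ℝ} (hκ : κ * h0 = ken x) (hx : ((697932185 : ℕ) : ℝ) / S ≤ x) (hx' : x ≤ (((697932185 : ℕ) : ℝ) + (42949674 : ℕ)) / S) :
    TriA PP.cur (VE (h0 * 0) 3 κ (h0 * x) (eng.v x) (h0 * (3 / 40)) (tnt (h0 * x) (3 / 10)) (tbl tK x) (tbl tL x) (tbl (smT h0⁻¹ tC) x)) 0 1 2 0 3 1 1 :=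
  (sideB hx hx').bothA (thrB hx hx') (en_pos (hx1 hx).le) (Or.inl rfl) (Or.inl rfl) fun y y' F =>
    bothA_cert (s1 := true) (s2 := true) rfl hκ (en_pos (hx1 hx).le) (esg_rng (hx1 hx).le (hx2 hx').le).1 (mo_v x) covB00 covB31 hx hx'
        Pool.Agent.Strip051.G.I6500_6900.Tab.C.BA03.c_pp_012 noCut_EA noExt_EA F trivial trivial

theorem BA03_pp_022 {κ x : ℝ} (hκ : κ * h0 = ken x) (hx : ((697932185 : ℕ) : ℝ) / S ≤ x) (hx' : x ≤ (((697932185 : ℕ) : ℝ) + (42949674 : ℕ)) / S) :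
    TriA PP.cur (VE (h0 * 0) 3 κ (h0 * x) (eng.v x) (h0 * (3 / 40)) (tnt (h0 * x) (3 / 10)) (tbl tK x) (tbl tL x) (tbl (smT h0⁻¹ tC) x)) 0 2 2 0 3 1 1 :=
  (sideB hx hx').bothA (thrB hx hx') (en_pos (hx1 hx).le) (Or.inl rfl) (Or.inl rfl) fun y y' F =>
    (lt_or_ge (h0 * y') 1).elim
      (fun g => bothA_cert (s1 := true) (s2 := true) rfl hκ (en_pos (hx1 hx).le) (esg_rng (hx1 hx).le (hx2 hx').le).1 (mo_v x) covB00 covB32a hx hx'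
        Pool.Agent.Strip051.G.I6500_6900.Tab.C.BA03.c_pp_022_a (cutEA_cons (Pool.Agent.Strip051.G.I6500_6900.Tab.altB_A022L_03 hκ hx hx') cutEA_nil) noExt_EA F trivial g)
      (fun g => bothA_cert (s1 := true) (s2 := true) rfl hκ (en_pos (hx1 hx).le) (esg_rng (hx1 hx).le (hx2 hx').le).1 (mo_v x) covB00 covB32b hx hx'
        Pool.Agent.Strip051.G.I6500_6900.Tab.C.BA03.c_pp_022_b (cutEA_cons (Pool.Agent.Strip051.G.I6500_6900.Tab.altB_A022L_03 hκ hx hx') cutEA_nil) noExt_EA F trivial g)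

theorem BA03_pp_023 {κ x : ℝ} (hκ : κ * h0 = ken x) (hx : ((697932185 : ℕ) : ℝ) / S ≤ x) (hx' : x ≤ (((697932185 : ℕ) : ℝ) + (42949674 : ℕ)) / S) :
    TriA PP.cur (VE (h0 * 0) 3 κ (h0 * x) (eng.v x) (h0 * (3 / 40)) (tnt (h0 * x) (3 / 10)) (tbl tK x) (tbl tL x) (tbl (smT h0⁻¹ tC) x)) 0 2 3 0 3 1 1 :=
  (sideB hx hx').bothA (thrB hx hx') (en_pos (hx1 hx).le) (Or.inl rfl) (Or.inl rfl) fun y y' F =>
    (lt_or_ge (h0 * y') 1).elim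
      (fun g => bothA_cert (s1 := true) (s2 := true) rfl hκ (en_pos (hx1 hx).le) (esg_rng (hx1 hx).le (hx2 hx').le).1 (mo_v x) covB00 covB32a hx hx'
        Pool.Agent.Strip051.G.I6500_6900.Tab.C.BA03.c_pp_023_a noCut_EA noExt_EA F trivial g)
      (fun g => bothA_cert (s1 := true) (s2 := true) rfl hκ (en_pos (hx1 hx).le) (esg_rng (hx1 hx).le (hx2 hx').le).1 (mo_v x) covB00 covB32b hx hx'
        Pool.Agent.Strip051.G.I6500_6900.Tab.C.BA03.c_pp_023_b noCut_EA noExt_EA F trivial g)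

theorem BA03_pp_033 {κ x : ℝ} (hκ : κ * h0 = ken x) (hx : ((697932185 : ℕ) : ℝ) / S ≤ x) (hx' : x ≤ (((697932185 : ℕ) : ℝ) + (42949674 : ℕ)) / S) :
    TriA PP.cur (VE (h0 * 0) 3 κ (h0 * x) (eng.v x) (h0 * (3 / 40)) (tnt (h0 * x) (3 / 10)) (tbl tK x) (tbl tL x) (tbl (smT h0⁻¹ tC) x)) 0 3 3 0 3 1 1 :=
  (sideB hx hx').bothA (thrB hx hx') (en_pos (hx1 hx).le) (Or.inl rfl) (Or.inl rfl) fun y y' F =>
    bothA_cert (s1 := true) (s2 := true) rfl hκ (en_pos (hx1 hx).le) (esg_rng (hx1 hx).le (hx2 hx').le).1 (mo_v x) covB00 covB33 hx hx'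
        Pool.Agent.Strip051.G.I6500_6900.Tab.C.BA03.c_pp_033 noCut_EA noExt_EA F trivial trivial

theorem BA03_pp_101 {κ x : ℝ} (hκ : κ * h0 = ken x) (hx : ((697932185 : ℕ) : ℝ) / S ≤ x) (hx' : x ≤ (((697932185 : ℕ) : ℝ) + (42949674 : ℕ)) / S) :
    TriA PP.cur (VE (h0 * 0) 3 κ (h0 * x) (eng.v x) (h0 * (3 / 40)) (tnt (h0 * x) (3 / 10)) (tbl tK x) (tbl tL x) (tbl (smT h0⁻¹ tC) x)) 1 0 1 0 3 1 1 :=
  (sideB hx hx').bothA (thrB hx hx') (en_pos (hx1 hx).le) (Or.inl rfl) (Or.inl rfl) fun y y' F =>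
    bothA_cert (s1 := true) (s2 := true) rfl hκ (en_pos (hx1 hx).le) (esg_rng (hx1 hx).le (hx2 hx').le).1 (mo_v x) covB01 covB30 hx hx'
        Pool.Agent.Strip051.G.I6500_6900.Tab.C.BA03.c_pp_101 noCut_EA noExt_EA F trivial trivial

theorem BA03_pp_102 {κ x : ℝ} (hκ : κ * h0 = ken x) (hx : ((697932185 : ℕ) : ℝ) / S ≤ x) (hx' : x ≤ (((697932185 : ℕ) : ℝ) + (42949674 : ℕ)) / S) :
    TriA PP.cur (VE (h0 * 0) 3 κ (h0 * x) (eng.v x) (h0 * (3 / 40)) (tnt (h0 * x) (3 / 10)) (tbl tK x) (tbl tL x) (tbl (smT h0⁻¹ tC) x)) 1 0 2 0 3 1 1 :=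
  (sideB hx hx').bothA (thrB hx hx') (en_pos (hx1 hx).le) (Or.inl rfl) (Or.inl rfl) fun y y' F =>
    bothA_cert (s1 := true) (s2 := true) rfl hκ (en_pos (hx1 hx).le) (esg_rng (hx1 hx).le (hx2 hx').le).1 (mo_v x) covB01 covB30 hx hx'
        Pool.Agent.Strip051.G.I6500_6900.Tab.C.BA03.c_pp_102 noCut_EA noExt_EA F trivial trivial

theorem BA03_pp_112 {κ x : ℝ} (hκ : κ * h0 = ken x) (hx : ((697932185 : ℕ) : ℝ) / S ≤ x) (hx' : x ≤ (((697932185 : ℕ) : ℝ) + (42949674 : ℕ)) / S) :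
    TriA PP.cur (VE (h0 * 0) 3 κ (h0 * x) (eng.v x) (h0 * (3 / 40)) (tnt (h0 * x) (3 / 10)) (tbl tK x) (tbl tL x) (tbl (smT h0⁻¹ tC) x)) 1 1 2 0 3 1 1 :=
  (sideB hx hx').bothA (thrB hx hx') (en_pos (hx1 hx).le) (Or.inl rfl) (Or.inl rfl) fun y y' F =>
    bothA_cert (s1 := true) (s2 := true) rfl hκ (en_pos (hx1 hx).le) (esg_rng (hx1 hx).le (hx2 hx').le).1 (mo_v x) covB01 covB31 hx hx'
        Pool.Agent.Strip051.G.I6500_6900.Tab.C.BA03.c_pp_112 noCut_EA noExt_EA F trivial trivial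

theorem BA03_pp_113 {κ x : ℝ} (hκ : κ * h0 = ken x) (hx : ((697932185 : ℕ) : ℝ) / S ≤ x) (hx' : x ≤ (((697932185 : ℕ) : ℝ) + (42949674 : ℕ)) / S) :
    TriA PP.cur (VE (h0 * 0) 3 κ (h0 * x) (eng.v x) (h0 * (3 / 40)) (tnt (h0 * x) (3 / 10)) (tbl tK x) (tbl tL x) (tbl (smT h0⁻¹ tC) x)) 1 1 3 0 3 1 1 :=
  (sideB hx hx').bothA (thrB hx hx') (en_pos (hx1 hx).le) (Or.inl rfl) (Or.inl rfl) fun y y' F =>
    bothA_cert (s1 := true) (s2 := true) rfl hκ (en_pos (hx1 hx).le) (esg_rng (hx1 hx).le (hx2 hx').le).1 (mo_v x) covB01 covB31 hx hx'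
        Pool.Agent.Strip051.G.I6500_6900.Tab.C.BA03.c_pp_113 noCut_EA noExt_EA F trivial trivial

theorem BA03_pp_123 {κ x : ℝ} (hκ : κ * h0 = ken x) (hx : ((697932185 : ℕ) : ℝ) / S ≤ x) (hx' : x ≤ (((697932185 : ℕ) : ℝ) + (42949674 : ℕ)) / S) :
    TriA PP.cur (VE (h0 * 0) 3 κ (h0 * x) (eng.v x) (h0 * (3 / 40)) (tnt (h0 * x) (3 / 10)) (tbl tK x) (tbl tL x) (tbl (smT h0⁻¹ tC) x)) 1 2 3 0 3 1 1 :=
  (sideB hx hx').bothA (thrB hx hx') (en_pos (hx1 hx).le) (Or.inl rfl) (Or.inl rfl) fun y y' F =>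
    (lt_or_ge (h0 * y') 1).elim
      (fun g => bothA_cert (s1 := true) (s2 := true) rfl hκ (en_pos (hx1 hx).le) (esg_rng (hx1 hx).le (hx2 hx').le).1 (mo_v x) covB01 covB32a hx hx'
        Pool.Agent.Strip051.G.I6500_6900.Tab.C.BA03.c_pp_123_a noCut_EA noExt_EA F trivial g)
      (fun g => bothA_cert (s1 := true) (s2 := true) rfl hκ (en_pos (hx1 hx).le) (esg_rng (hx1 hx).le (hx2 hx').le).1 (mo_v x) covB01 covB32b hx hx'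
        Pool.Agent.Strip051.G.I6500_6900.Tab.C.BA03.c_pp_123_b noCut_EA noExt_EA F trivial g)

theorem BA03_pp_133 {κ x : ℝ} (hκ : κ * h0 = ken x) (hx : ((697932185 : ℕ) : ℝ) / S ≤ x) (hx' : x ≤ (((697932185 : ℕ) : ℝ) + (42949674 : ℕ)) / S) :
    TriA PP.cur (VE (h0 * 0) 3 κ (h0 * x) (eng.v x) (h0 * (3 / 40)) (tnt (h0 * x) (3 / 10)) (tbl tK x) (tbl tL x) (tbl (smT h0⁻¹ tC) x)) 1 3 3 0 3 1 1 :=
  (sideB hx hx').bothA (thrB hx hx') (en_pos (hx1 hx).le) (Or.inl rfl) (Or.inl rfl) fun y y' F =>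
    bothA_cert (s1 := true) (s2 := true) rfl hκ (en_pos (hx1 hx).le) (esg_rng (hx1 hx).le (hx2 hx').le).1 (mo_v x) covB01 covB33 hx hx'
        Pool.Agent.Strip051.G.I6500_6900.Tab.C.BA03.c_pp_133 noCut_EA noExt_EA F trivial trivial

theorem BA03_pp_202 {κ x : ℝ} (hκ : κ * h0 = ken x) (hx : ((697932185 : ℕ) : ℝ) / S ≤ x) (hx' : x ≤ (((697932185 : ℕ) : ℝ) + (42949674 : ℕ)) / S) :
    TriA PP.cur (VE (h0 * 0) 3 κ (h0 * x) (eng.v x) (h0 * (3 / 40)) (tnt (h0 * x) (3 / 10)) (tbl tK x) (tbl tL x) (tbl (smT h0⁻¹ tC) x)) 2 0 2 0 3 1 1 :=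
  (sideB hx hx').bothA (thrB hx hx') (en_pos (hx1 hx).le) (Or.inl rfl) (Or.inl rfl) fun y y' F =>
    bothA_cert (s1 := true) (s2 := true) rfl hκ (en_pos (hx1 hx).le) (esg_rng (hx1 hx).le (hx2 hx').le).1 (mo_v x) covB02 covB30 hx hx'
        Pool.Agent.Strip051.G.I6500_6900.Tab.C.BA03.c_pp_202 noCut_EA noExt_EA F trivial trivial

theorem BA03_pp_203 {κ x : ℝ} (hκ : κ * h0 = ken x) (hx : ((697932185 : ℕ) : ℝ) / S ≤ x) (hx' : x ≤ (((697932185 : ℕ) : ℝ) + (42949674 : ℕ)) / S) :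
    TriA PP.cur (VE (h0 * 0) 3 κ (h0 * x) (eng.v x) (h0 * (3 / 40)) (tnt (h0 * x) (3 / 10)) (tbl tK x) (tbl tL x) (tbl (smT h0⁻¹ tC) x)) 2 0 3 0 3 1 1 :=
  (sideB hx hx').bothA (thrB hx hx') (en_pos (hx1 hx).le) (Or.inl rfl) (Or.inl rfl) fun y y' F =>
    bothA_cert (s1 := true) (s2 := true) rfl hκ (en_pos (hx1 hx).le) (esg_rng (hx1 hx).le (hx2 hx').le).1 (mo_v x) covB02 covB30 hx hx'
        Pool.Agent.Strip051.G.I6500_6900.Tab.C.BA03.c_pp_203 noCut_EA noExt_EA F trivial trivial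

theorem BA03_pp_213 {κ x : ℝ} (hκ : κ * h0 = ken x) (hx : ((697932185 : ℕ) : ℝ) / S ≤ x) (hx' : x ≤ (((697932185 : ℕ) : ℝ) + (42949674 : ℕ)) / S) :
    TriA PP.cur (VE (h0 * 0) 3 κ (h0 * x) (eng.v x) (h0 * (3 / 40)) (tnt (h0 * x) (3 / 10)) (tbl tK x) (tbl tL x) (tbl (smT h0⁻¹ tC) x)) 2 1 3 0 3 1 1 :=
  (sideB hx hx').bothA (thrB hx hx') (en_pos (hx1 hx).le) (Or.inl rfl) (Or.inl rfl) fun y y' F =>
    bothA_cert (s1 := true) (s2 := true) rfl hκ (en_pos (hx1 hx).le) (esg_rng (hx1 hx).le (hx2 hx').le).1 (mo_v x) covB02 covB31 hx hx'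
        Pool.Agent.Strip051.G.I6500_6900.Tab.C.BA03.c_pp_213 noCut_EA noExt_EA F trivial trivial

theorem BA03_pp_303 {κ x : ℝ} (hκ : κ * h0 = ken x) (hx : ((697932185 : ℕ) : ℝ) / S ≤ x) (hx' : x ≤ (((697932185 : ℕ) : ℝ) + (42949674 : ℕ)) / S) :
    TriA PP.cur (VE (h0 * 0) 3 κ (h0 * x) (eng.v x) (h0 * (3 / 40)) (tnt (h0 * x) (3 / 10)) (tbl tK x) (tbl tL x) (tbl (smT h0⁻¹ tC) x)) 3 0 3 0 3 1 1 :=
  triA_j0

theorem BA03_pp_313 {κ x : ℝ} (hκ : κ * h0 = ken x) (hx : ((697932185 : ℕ) : ℝ) / S ≤ x) (hx' : x ≤ (((697932185 : ℕ) : ℝ) + (42949674 : ℕ)) / S) :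
    TriA PP.cur (VE (h0 * 0) 3 κ (h0 * x) (eng.v x) (h0 * (3 / 40)) (tnt (h0 * x) (3 / 10)) (tbl tK x) (tbl tL x) (tbl (smT h0⁻¹ tC) x)) 3 1 3 0 3 1 1 :=
  triA_j0

theorem BA03_pm_001 {κ x : ℝ} (hκ : κ * h0 = ken x) (hx : ((697932185 : ℕ) : ℝ) / S ≤ x) (hx' : x ≤ (((697932185 : ℕ) : ℝ) + (42949674 : ℕ)) / S) :
    TriA PP.cur (VE (h0 * 0) 3 κ (h0 * x) (eng.v x) (h0 * (3 / 40)) (tnt (h0 * x) (3 / 10)) (tbl tK x) (tbl tL x) (tbl (smT h0⁻¹ tC) x)) 0 0 1 0 3 1 (-1) :=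
  (sideB hx hx').bothA (thrB hx hx') (en_pos (hx1 hx).le) (Or.inl rfl) (Or.inr rfl) fun y y' F =>
    bothA_cert (s1 := true) (s2 := false) rfl hκ (en_pos (hx1 hx).le) (esg_rng (hx1 hx).le (hx2 hx').le).1 (mo_v x) covB00 covB30 hx hx'
        Pool.Agent.Strip051.G.I6500_6900.Tab.C.BA03.c_pm_001 noCut_EA noExt_EA F trivial trivial

theorem BA03_pm_011 {κ x : ℝ} (hκ : κ * h0 = ken x) (hx : ((697932185 : ℕ) : ℝ) / S ≤ x) (hx' : x ≤ (((697932185 : ℕ) : ℝ) + (42949674 : ℕ)) / S) :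
    TriA PP.cur (VE (h0 * 0) 3 κ (h0 * x) (eng.v x) (h0 * (3 / 40)) (tnt (h0 * x) (3 / 10)) (tbl tK x) (tbl tL x) (tbl (smT h0⁻¹ tC) x)) 0 1 1 0 3 1 (-1) :=
  (sideB hx hx').bothA (thrB hx hx') (en_pos (hx1 hx).le) (Or.inl rfl) (Or.inr rfl) fun y y' F =>
    bothA_cert (s1 := true) (s2 := false) rfl hκ (en_pos (hx1 hx).le) (esg_rng (hx1 hx).le (hx2 hx').le).1 (mo_v x) covB00 covB31 hx hx'
        Pool.Agent.Strip051.G.I6500_6900.Tab.C.BA03.c_pm_011 noCut_EA noExt_EA F trivial trivial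

theorem BA03_pm_012 {κ x : ℝ} (hκ : κ * h0 = ken x) (hx : ((697932185 : ℕ) : ℝ) / S ≤ x) (hx' : x ≤ (((697932185 : ℕ) : ℝ) + (42949674 : ℕ)) / S) :
    TriA PP.cur (VE (h0 * 0) 3 κ (h0 * x) (eng.v x) (h0 * (3 / 40)) (tnt (h0 * x) (3 / 10)) (tbl tK x) (tbl tL x) (tbl (smT h0⁻¹ tC) x)) 0 1 2 0 3 1 (-1) :=
  (sideB hx hx').bothA (thrB hx hx') (en_pos (hx1 hx).le) (Or.inl rfl) (Or.inr rfl) fun y y' F =>
    bothA_cert (s1 := true) (s2 := false) rfl hκ (en_pos (hx1 hx).le) (esg_rng (hx1 hx).le (hx2 hx').le).1 (mo_v x) covB00 covB31 hx hx'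
        Pool.Agent.Strip051.G.I6500_6900.Tab.C.BA03.c_pm_012 noCut_EA noExt_EA F trivial trivial

theorem BA03_pm_022 {κ x : ℝ} (hκ : κ * h0 = ken x) (hx : ((697932185 : ℕ) : ℝ) / S ≤ x) (hx' : x ≤ (((697932185 : ℕ) : ℝ) + (42949674 : ℕ)) / S) :
    TriA PP.cur (VE (h0 * 0) 3 κ (h0 * x) (eng.v x) (h0 * (3 / 40)) (tnt (h0 * x) (3 / 10)) (tbl tK x) (tbl tL x) (tbl (smT h0⁻¹ tC) x)) 0 2 2 0 3 1 (-1) :=
  (sideB hx hx').bothA (thrB hx hx') (en_pos (hx1 hx).le) (Or.inl rfl) (Or.inr rfl) fun y y' F =>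
    (lt_or_ge (h0 * y') 1).elim
      (fun g => bothA_cert (s1 := true) (s2 := false) rfl hκ (en_pos (hx1 hx).le) (esg_rng (hx1 hx).le (hx2 hx').le).1 (mo_v x) covB00 covB32a hx hx'
        Pool.Agent.Strip051.G.I6500_6900.Tab.C.BA03.c_pm_022_a (cutEA_cons (Pool.Agent.Strip051.G.I6500_6900.Tab.altB_A022E_03 hκ hx hx') cutEA_nil) (xdA0 hκ hx hx' rfl) F trivial g)
      (fun g => bothA_cert (s1 := true) (s2 := false) rfl hκ (en_pos (hx1 hx).le) (esg_rng (hx1 hx).le (hx2 hx').le).1 (mo_v x) covB00 covB32b hx hx'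
        Pool.Agent.Strip051.G.I6500_6900.Tab.C.BA03.c_pm_022_b (cutEA_cons (Pool.Agent.Strip051.G.I6500_6900.Tab.altB_A022E_03 hκ hx hx') cutEA_nil) noExt_EA F trivial g)

theorem BA03_pm_023 {κ x : ℝ} (hκ : κ * h0 = ken x) (hx : ((697932185 : ℕ) : ℝ) / S ≤ x) (hx' : x ≤ (((697932185 : ℕ) : ℝ) + (42949674 : ℕ)) / S) :
    TriA PP.cur (VE (h0 * 0) 3 κ (h0 * x) (eng.v x) (h0 * (3 / 40)) (tnt (h0 * x) (3 / 10)) (tbl tK x) (tbl tL x) (tbl (smT h0⁻¹ tC) x)) 0 2 3 0 3 1 (-1) :=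
  (sideB hx hx').bothA (thrB hx hx') (en_pos (hx1 hx).le) (Or.inl rfl) (Or.inr rfl) fun y y' F =>
    (lt_or_ge (h0 * y') 1).elim
      (fun g => bothA_cert (s1 := true) (s2 := false) rfl hκ (en_pos (hx1 hx).le) (esg_rng (hx1 hx).le (hx2 hx').le).1 (mo_v x) covB00 covB32a hx hx'
        Pool.Agent.Strip051.G.I6500_6900.Tab.C.BA03.c_pm_023_a noCut_EA (xdA0 hκ hx hx' rfl) F trivial g)
      (fun g => bothA_cert (s1 := true) (s2 := false) rfl hκ (en_pos (hx1 hx).le) (esg_rng (hx1 hx).le (hx2 hx').le).1 (mo_v x) covB00 covB32b hx hx'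
        Pool.Agent.Strip051.G.I6500_6900.Tab.C.BA03.c_pm_023_b noCut_EA noExt_EA F trivial g)

theorem BA03_pm_033 {κ x : ℝ} (hκ : κ * h0 = ken x) (hx : ((697932185 : ℕ) : ℝ) / S ≤ x) (hx' : x ≤ (((697932185 : ℕ) : ℝ) + (42949674 : ℕ)) / S) :
    TriA PP.cur (VE (h0 * 0) 3 κ (h0 * x) (eng.v x) (h0 * (3 / 40)) (tnt (h0 * x) (3 / 10)) (tbl tK x) (tbl tL x) (tbl (smT h0⁻¹ tC) x)) 0 3 3 0 3 1 (-1) :=
  (sideB hx hx').bothA (thrB hx hx') (en_pos (hx1 hx).le) (Or.inl rfl) (Or.inr rfl) fun y y' F =>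
    bothA_cert (s1 := true) (s2 := false) rfl hκ (en_pos (hx1 hx).le) (esg_rng (hx1 hx).le (hx2 hx').le).1 (mo_v x) covB00 covB33 hx hx'
        Pool.Agent.Strip051.G.I6500_6900.Tab.C.BA03.c_pm_033 noCut_EA noExt_EA F trivial trivial

theorem BA03_pm_101 {κ x : ℝ} (hκ : κ * h0 = ken x) (hx : ((697932185 : ℕ) : ℝ) / S ≤ x) (hx' : x ≤ (((697932185 : ℕ) : ℝ) + (42949674 : ℕ)) / S) :
    TriA PP.cur (VE (h0 * 0) 3 κ (h0 * x) (eng.v x) (h0 * (3 / 40)) (tnt (h0 * x) (3 / 10)) (tbl tK x) (tbl tL x) (tbl (smT h0⁻¹ tC) x)) 1 0 1 0 3 1 (-1) :=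
  (sideB hx hx').bothA (thrB hx hx') (en_pos (hx1 hx).le) (Or.inl rfl) (Or.inr rfl) fun y y' F =>
    bothA_cert (s1 := true) (s2 := false) rfl hκ (en_pos (hx1 hx).le) (esg_rng (hx1 hx).le (hx2 hx').le).1 (mo_v x) covB01 covB30 hx hx'
        Pool.Agent.Strip051.G.I6500_6900.Tab.C.BA03.c_pm_101 (cutEA_cons (Pool.Agent.Strip051.G.I6500_6900.Tab.altB_A101E_03 hκ hx hx') cutEA_nil) noExt_EA F trivial trivial

theorem BA03_pm_102 {κ x : ℝ} (hκ : κ * h0 = ken x) (hx : ((697932185 : ℕ) : ℝ) / S ≤ x) (hx' : x ≤ (((697932185 : ℕ) : ℝ) + (42949674 : ℕ)) / S) :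
    TriA PP.cur (VE (h0 * 0) 3 κ (h0 * x) (eng.v x) (h0 * (3 / 40)) (tnt (h0 * x) (3 / 10)) (tbl tK x) (tbl tL x) (tbl (smT h0⁻¹ tC) x)) 1 0 2 0 3 1 (-1) :=
  (sideB hx hx').bothA (thrB hx hx') (en_pos (hx1 hx).le) (Or.inl rfl) (Or.inr rfl) fun y y' F =>
    bothA_cert (s1 := true) (s2 := false) rfl hκ (en_pos (hx1 hx).le) (esg_rng (hx1 hx).le (hx2 hx').le).1 (mo_v x) covB01 covB30 hx hx'
        Pool.Agent.Strip051.G.I6500_6900.Tab.C.BA03.c_pm_102 (cutEA_cons (Pool.Agent.Strip051.G.I6500_6900.Tab.altB_A102E_03 hκ hx hx') cutEA_nil) noExt_EA F trivial trivial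

theorem BA03_pm_112 {κ x : ℝ} (hκ : κ * h0 = ken x) (hx : ((697932185 : ℕ) : ℝ) / S ≤ x) (hx' : x ≤ (((697932185 : ℕ) : ℝ) + (42949674 : ℕ)) / S) :
    TriA PP.cur (VE (h0 * 0) 3 κ (h0 * x) (eng.v x) (h0 * (3 / 40)) (tnt (h0 * x) (3 / 10)) (tbl tK x) (tbl tL x) (tbl (smT h0⁻¹ tC) x)) 1 1 2 0 3 1 (-1) :=
  (sideB hx hx').bothA (thrB hx hx') (en_pos (hx1 hx).le) (Or.inl rfl) (Or.inr rfl) fun y y' F =>
    bothA_cert (s1 := true) (s2 := false) rfl hκ (en_pos (hx1 hx).le) (esg_rng (hx1 hx).le (hx2 hx').le).1 (mo_v x) covB01 covB31 hx hx'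
        Pool.Agent.Strip051.G.I6500_6900.Tab.C.BA03.c_pm_112 noCut_EA noExt_EA F trivial trivial

theorem BA03_pm_113 {κ x : ℝ} (hκ : κ * h0 = ken x) (hx : ((697932185 : ℕ) : ℝ) / S ≤ x) (hx' : x ≤ (((697932185 : ℕ) : ℝ) + (42949674 : ℕ)) / S) :
    TriA PP.cur (VE (h0 * 0) 3 κ (h0 * x) (eng.v x) (h0 * (3 / 40)) (tnt (h0 * x) (3 / 10)) (tbl tK x) (tbl tL x) (tbl (smT h0⁻¹ tC) x)) 1 1 3 0 3 1 (-1) :=
  (sideB hx hx').bothA (thrB hx hx') (en_pos (hx1 hx).le) (Or.inl rfl) (Or.inr rfl) fun y y' F =>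
    bothA_cert (s1 := true) (s2 := false) rfl hκ (en_pos (hx1 hx).le) (esg_rng (hx1 hx).le (hx2 hx').le).1 (mo_v x) covB01 covB31 hx hx'
        Pool.Agent.Strip051.G.I6500_6900.Tab.C.BA03.c_pm_113 noCut_EA noExt_EA F trivial trivial

theorem BA03_pm_123 {κ x : ℝ} (hκ : κ * h0 = ken x) (hx : ((697932185 : ℕ) : ℝ) / S ≤ x) (hx' : x ≤ (((697932185 : ℕ) : ℝ) + (42949674 : ℕ)) / S) :
    TriA PP.cur (VE (h0 * 0) 3 κ (h0 * x) (eng.v x) (h0 * (3 / 40)) (tnt (h0 * x) (3 / 10)) (tbl tK x) (tbl tL x) (tbl (smT h0⁻¹ tC) x)) 1 2 3 0 3 1 (-1) :=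
  (sideB hx hx').bothA (thrB hx hx') (en_pos (hx1 hx).le) (Or.inl rfl) (Or.inr rfl) fun y y' F =>
    (lt_or_ge (h0 * y') 1).elim
      (fun g => bothA_cert (s1 := true) (s2 := false) rfl hκ (en_pos (hx1 hx).le) (esg_rng (hx1 hx).le (hx2 hx').le).1 (mo_v x) covB01 covB32a hx hx'
        Pool.Agent.Strip051.G.I6500_6900.Tab.C.BA03.c_pm_123_a (cutEA_cons (Pool.Agent.Strip051.G.I6500_6900.Tab.alt12cB_A123_03 hκ hx hx') (cutEA_cons (Pool.Agent.Strip051.G.I6500_6900.Tab.Mo.molE_A_123_03_0 hκ hx hx') cutEA_nil)) (xdA0 hκ hx hx' rfl) F trivial g)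
      (fun g => bothA_cert (s1 := true) (s2 := false) rfl hκ (en_pos (hx1 hx).le) (esg_rng (hx1 hx).le (hx2 hx').le).1 (mo_v x) covB01 covB32b hx hx'
        Pool.Agent.Strip051.G.I6500_6900.Tab.C.BA03.c_pm_123_b (cutEA_cons (Pool.Agent.Strip051.G.I6500_6900.Tab.alt12cB_A123_03 hκ hx hx') (cutEA_cons (Pool.Agent.Strip051.G.I6500_6900.Tab.Mo.molE_A_123_03_0 hκ hx hx') cutEA_nil)) noExt_EA F trivial g)

theorem BA03_pm_133 {κ x : ℝ} (hκ : κ * h0 = ken x) (hx : ((697932185 : ℕ) : ℝ) / S ≤ x) (hx' : x ≤ (((697932185 : ℕ) : ℝ) + (42949674 : ℕ)) / S) :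
    TriA PP.cur (VE (h0 * 0) 3 κ (h0 * x) (eng.v x) (h0 * (3 / 40)) (tnt (h0 * x) (3 / 10)) (tbl tK x) (tbl tL x) (tbl (smT h0⁻¹ tC) x)) 1 3 3 0 3 1 (-1) :=
  (sideB hx hx').bothA (thrB hx hx') (en_pos (hx1 hx).le) (Or.inl rfl) (Or.inr rfl) fun y y' F =>
    bothA_cert (s1 := true) (s2 := false) rfl hκ (en_pos (hx1 hx).le) (esg_rng (hx1 hx).le (hx2 hx').le).1 (mo_v x) covB01 covB33 hx hx'
        Pool.Agent.Strip051.G.I6500_6900.Tab.C.BA03.c_pm_133 noCut_EA noExt_EA F trivial trivial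

theorem BA03_pm_202 {κ x : ℝ} (hκ : κ * h0 = ken x) (hx : ((697932185 : ℕ) : ℝ) / S ≤ x) (hx' : x ≤ (((697932185 : ℕ) : ℝ) + (42949674 : ℕ)) / S) :
    TriA PP.cur (VE (h0 * 0) 3 κ (h0 * x) (eng.v x) (h0 * (3 / 40)) (tnt (h0 * x) (3 / 10)) (tbl tK x) (tbl tL x) (tbl (smT h0⁻¹ tC) x)) 2 0 2 0 3 1 (-1) :=
  (sideB hx hx').bothA (thrB hx hx') (en_pos (hx1 hx).le) (Or.inl rfl) (Or.inr rfl) fun y y' F =>
    bothA_cert (s1 := true) (s2 := false) rfl hκ (en_pos (hx1 hx).le) (esg_rng (hx1 hx).le (hx2 hx').le).1 (mo_v x) covB02 covB30 hx hx'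
        Pool.Agent.Strip051.G.I6500_6900.Tab.C.BA03.c_pm_202 (cutEA_cons (Pool.Agent.Strip051.G.I6500_6900.Tab.altB_A202E_03 hκ hx hx') cutEA_nil) noExt_EA F trivial trivial

theorem BA03_pm_203 {κ x : ℝ} (hκ : κ * h0 = ken x) (hx : ((697932185 : ℕ) : ℝ) / S ≤ x) (hx' : x ≤ (((697932185 : ℕ) : ℝ) + (42949674 : ℕ)) / S) :
    TriA PP.cur (VE (h0 * 0) 3 κ (h0 * x) (eng.v x) (h0 * (3 / 40)) (tnt (h0 * x) (3 / 10)) (tbl tK x) (tbl tL x) (tbl (smT h0⁻¹ tC) x)) 2 0 3 0 3 1 (-1) :=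
  (sideB hx hx').bothA (thrB hx hx') (en_pos (hx1 hx).le) (Or.inl rfl) (Or.inr rfl) fun y y' F =>
    bothA_cert (s1 := true) (s2 := false) rfl hκ (en_pos (hx1 hx).le) (esg_rng (hx1 hx).le (hx2 hx').le).1 (mo_v x) covB02 covB30 hx hx'
        Pool.Agent.Strip051.G.I6500_6900.Tab.C.BA03.c_pm_203 noCut_EA noExt_EA F trivial trivial

theorem BA03_pm_213 {κ x : ℝ} (hκ : κ * h0 = ken x) (hx : ((697932185 : ℕ) : ℝ) / S ≤ x) (hx' : x ≤ (((697932185 : ℕ) : ℝ) + (42949674 : ℕ)) / S) :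
    TriA PP.cur (VE (h0 * 0) 3 κ (h0 * x) (eng.v x) (h0 * (3 / 40)) (tnt (h0 * x) (3 / 10)) (tbl tK x) (tbl tL x) (tbl (smT h0⁻¹ tC) x)) 2 1 3 0 3 1 (-1) :=
  (sideB hx hx').bothA (thrB hx hx') (en_pos (hx1 hx).le) (Or.inl rfl) (Or.inr rfl) fun y y' F =>
    bothA_cert (s1 := true) (s2 := false) rfl hκ (en_pos (hx1 hx).le) (esg_rng (hx1 hx).le (hx2 hx').le).1 (mo_v x) covB02 covB31 hx hx'
        Pool.Agent.Strip051.G.I6500_6900.Tab.C.BA03.c_pm_213 noCut_EA noExt_EA F trivial trivial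

theorem BA03_pm_303 {κ x : ℝ} (hκ : κ * h0 = ken x) (hx : ((697932185 : ℕ) : ℝ) / S ≤ x) (hx' : x ≤ (((697932185 : ℕ) : ℝ) + (42949674 : ℕ)) / S) :
    TriA PP.cur (VE (h0 * 0) 3 κ (h0 * x) (eng.v x) (h0 * (3 / 40)) (tnt (h0 * x) (3 / 10)) (tbl tK x) (tbl tL x) (tbl (smT h0⁻¹ tC) x)) 3 0 3 0 3 1 (-1) :=
  triA_j0

theorem BA03_pm_313 {κ x : ℝ} (hκ : κ * h0 = ken x) (hx : ((697932185 : ℕ) : ℝ) / S ≤ x) (hx' : x ≤ (((697932185 : ℕ) : ℝ) + (42949674 : ℕ)) / S) :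
    TriA PP.cur (VE (h0 * 0) 3 κ (h0 * x) (eng.v x) (h0 * (3 / 40)) (tnt (h0 * x) (3 / 10)) (tbl tK x) (tbl tL x) (tbl (smT h0⁻¹ tC) x)) 3 1 3 0 3 1 (-1) :=
  triA_j0

theorem BA03_mm_001 {κ x : ℝ} (hκ : κ * h0 = ken x) (hx : ((697932185 : ℕ) : ℝ) / S ≤ x) (hx' : x ≤ (((697932185 : ℕ) : ℝ) + (42949674 : ℕ)) / S) :
    TriA PP.cur (VE (h0 * 0) 3 κ (h0 * x) (eng.v x) (h0 * (3 / 40)) (tnt (h0 * x) (3 / 10)) (tbl tK x) (tbl tL x) (tbl (smT h0⁻¹ tC) x)) 0 0 1 0 3 (-1) (-1) :=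
  (sideB hx hx').bothA (thrB hx hx') (en_pos (hx1 hx).le) (Or.inr rfl) (Or.inr rfl) fun y y' F =>
    bothA_cert (s1 := false) (s2 := false) rfl hκ (en_pos (hx1 hx).le) (esg_rng (hx1 hx).le (hx2 hx').le).1 (mo_v x) covB00 covB30 hx hx'
        Pool.Agent.Strip051.G.I6500_6900.Tab.C.BA03.c_mm_001 noCut_EA noExt_EA F trivial trivial

theorem BA03_mm_011 {κ x : ℝ} (hκ : κ * h0 = ken x) (hx : ((697932185 : ℕ) : ℝ) / S ≤ x) (hx' : x ≤ (((697932185 : ℕ) : ℝ) + (42949674 : ℕ)) / S) :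
    TriA PP.cur (VE (h0 * 0) 3 κ (h0 * x) (eng.v x) (h0 * (3 / 40)) (tnt (h0 * x) (3 / 10)) (tbl tK x) (tbl tL x) (tbl (smT h0⁻¹ tC) x)) 0 1 1 0 3 (-1) (-1) :=
  (sideB hx hx').bothA (thrB hx hx') (en_pos (hx1 hx).le) (Or.inr rfl) (Or.inr rfl) fun y y' F =>
    bothA_cert (s1 := false) (s2 := false) rfl hκ (en_pos (hx1 hx).le) (esg_rng (hx1 hx).le (hx2 hx').le).1 (mo_v x) covB00 covB31 hx hx'
        Pool.Agent.Strip051.G.I6500_6900.Tab.C.BA03.c_mm_011 noCut_EA noExt_EA F trivial trivial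

theorem BA03_mm_012 {κ x : ℝ} (hκ : κ * h0 = ken x) (hx : ((697932185 : ℕ) : ℝ) / S ≤ x) (hx' : x ≤ (((697932185 : ℕ) : ℝ) + (42949674 : ℕ)) / S) :
    TriA PP.cur (VE (h0 * 0) 3 κ (h0 * x) (eng.v x) (h0 * (3 / 40)) (tnt (h0 * x) (3 / 10)) (tbl tK x) (tbl tL x) (tbl (smT h0⁻¹ tC) x)) 0 1 2 0 3 (-1) (-1) :=
  (sideB hx hx').bothA (thrB hx hx') (en_pos (hx1 hx).le) (Or.inr rfl) (Or.inr rfl) fun y y' F =>
    bothA_cert (s1 := false) (s2 := false) rfl hκ (en_pos (hx1 hx).le) (esg_rng (hx1 hx).le (hx2 hx').le).1 (mo_v x) covB00 covB31 hx hx'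
        Pool.Agent.Strip051.G.I6500_6900.Tab.C.BA03.c_mm_012 noCut_EA noExt_EA F trivial trivial

theorem BA03_mm_022 {κ x : ℝ} (hκ : κ * h0 = ken x) (hx : ((697932185 : ℕ) : ℝ) / S ≤ x) (hx' : x ≤ (((697932185 : ℕ) : ℝ) + (42949674 : ℕ)) / S) :
    TriA PP.cur (VE (h0 * 0) 3 κ (h0 * x) (eng.v x) (h0 * (3 / 40)) (tnt (h0 * x) (3 / 10)) (tbl tK x) (tbl tL x) (tbl (smT h0⁻¹ tC) x)) 0 2 2 0 3 (-1) (-1) :=
  (sideB hx hx').bothA (thrB hx hx') (en_pos (hx1 hx).le) (Or.inr rfl) (Or.inr rfl) fun y y' F =>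
    (lt_or_ge (h0 * y') 1).elim
      (fun g => bothA_cert (s1 := false) (s2 := false) rfl hκ (en_pos (hx1 hx).le) (esg_rng (hx1 hx).le (hx2 hx').le).1 (mo_v x) covB00 covB32a hx hx'
        Pool.Agent.Strip051.G.I6500_6900.Tab.C.BA03.c_mm_022_a noCut_EA noExt_EA F trivial g)
      (fun g => bothA_cert (s1 := false) (s2 := false) rfl hκ (en_pos (hx1 hx).le) (esg_rng (hx1 hx).le (hx2 hx').le).1 (mo_v x) covB00 covB32b hx hx'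
        Pool.Agent.Strip051.G.I6500_6900.Tab.C.BA03.c_mm_022_b noCut_EA noExt_EA F trivial g)

theorem BA03_mm_023 {κ x : ℝ} (hκ : κ * h0 = ken x) (hx : ((697932185 : ℕ) : ℝ) / S ≤ x) (hx' : x ≤ (((697932185 : ℕ) : ℝ) + (42949674 : ℕ)) / S) :
    TriA PP.cur (VE (h0 * 0) 3 κ (h0 * x) (eng.v x) (h0 * (3 / 40)) (tnt (h0 * x) (3 / 10)) (tbl tK x) (tbl tL x) (tbl (smT h0⁻¹ tC) x)) 0 2 3 0 3 (-1) (-1) :=
  (sideB hx hx').bothA (thrB hx hx') (en_pos (hx1 hx).le) (Or.inr rfl) (Or.inr rfl) fun y y' F =>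
    (lt_or_ge (h0 * y') 1).elim
      (fun g => bothA_cert (s1 := false) (s2 := false) rfl hκ (en_pos (hx1 hx).le) (esg_rng (hx1 hx).le (hx2 hx').le).1 (mo_v x) covB00 covB32a hx hx'
        Pool.Agent.Strip051.G.I6500_6900.Tab.C.BA03.c_mm_023_a noCut_EA noExt_EA F trivial g)
      (fun g => bothA_cert (s1 := false) (s2 := false) rfl hκ (en_pos (hx1 hx).le) (esg_rng (hx1 hx).le (hx2 hx').le).1 (mo_v x) covB00 covB32b hx hx'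
        Pool.Agent.Strip051.G.I6500_6900.Tab.C.BA03.c_mm_023_b noCut_EA noExt_EA F trivial g)

theorem BA03_mm_033 {κ x : ℝ} (hκ : κ * h0 = ken x) (hx : ((697932185 : ℕ) : ℝ) / S ≤ x) (hx' : x ≤ (((697932185 : ℕ) : ℝ) + (42949674 : ℕ)) / S) :
    TriA PP.cur (VE (h0 * 0) 3 κ (h0 * x) (eng.v x) (h0 * (3 / 40)) (tnt (h0 * x) (3 / 10)) (tbl tK x) (tbl tL x) (tbl (smT h0⁻¹ tC) x)) 0 3 3 0 3 (-1) (-1) :=
  (sideB hx hx').bothA (thrB hx hx') (en_pos (hx1 hx).le) (Or.inr rfl) (Or.inr rfl) fun y y' F =>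
    bothA_cert (s1 := false) (s2 := false) rfl hκ (en_pos (hx1 hx).le) (esg_rng (hx1 hx).le (hx2 hx').le).1 (mo_v x) covB00 covB33 hx hx'
        Pool.Agent.Strip051.G.I6500_6900.Tab.C.BA03.c_mm_033 noCut_EA noExt_EA F trivial trivial

theorem BA03_mm_101 {κ x : ℝ} (hκ : κ * h0 = ken x) (hx : ((697932185 : ℕ) : ℝ) / S ≤ x) (hx' : x ≤ (((697932185 : ℕ) : ℝ) + (42949674 : ℕ)) / S) :
    TriA PP.cur (VE (h0 * 0) 3 κ (h0 * x) (eng.v x) (h0 * (3 / 40)) (tnt (h0 * x) (3 / 10)) (tbl tK x) (tbl tL x) (tbl (smT h0⁻¹ tC) x)) 1 0 1 0 3 (-1) (-1) :=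
  (sideB hx hx').bothA (thrB hx hx') (en_pos (hx1 hx).le) (Or.inr rfl) (Or.inr rfl) fun y y' F =>
    bothA_cert (s1 := false) (s2 := false) rfl hκ (en_pos (hx1 hx).le) (esg_rng (hx1 hx).le (hx2 hx').le).1 (mo_v x) covB01 covB30 hx hx'
        Pool.Agent.Strip051.G.I6500_6900.Tab.C.BA03.c_mm_101 (cutEA_cons (Pool.Agent.Strip051.G.I6500_6900.Tab.altB_A101R_03 hκ hx hx') cutEA_nil) noExt_EA F trivial trivial

theorem BA03_mm_102 {κ x : ℝ} (hκ : κ * h0 = ken x) (hx : ((697932185 : ℕ) : ℝ) / S ≤ x) (hx' : x ≤ (((697932185 : ℕ) : ℝ) + (42949674 : ℕ)) / S) :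
    TriA PP.cur (VE (h0 * 0) 3 κ (h0 * x) (eng.v x) (h0 * (3 / 40)) (tnt (h0 * x) (3 / 10)) (tbl tK x) (tbl tL x) (tbl (smT h0⁻¹ tC) x)) 1 0 2 0 3 (-1) (-1) :=
  (sideB hx hx').bothA (thrB hx hx') (en_pos (hx1 hx).le) (Or.inr rfl) (Or.inr rfl) fun y y' F =>
    bothA_cert (s1 := false) (s2 := false) rfl hκ (en_pos (hx1 hx).le) (esg_rng (hx1 hx).le (hx2 hx').le).1 (mo_v x) covB01 covB30 hx hx'
        Pool.Agent.Strip051.G.I6500_6900.Tab.C.BA03.c_mm_102 (cutEA_cons (Pool.Agent.Strip051.G.I6500_6900.Tab.altB_A102R_03 hκ hx hx') cutEA_nil) noExt_EA F trivial trivial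

theorem BA03_mm_112 {κ x : ℝ} (hκ : κ * h0 = ken x) (hx : ((697932185 : ℕ) : ℝ) / S ≤ x) (hx' : x ≤ (((697932185 : ℕ) : ℝ) + (42949674 : ℕ)) / S) :
    TriA PP.cur (VE (h0 * 0) 3 κ (h0 * x) (eng.v x) (h0 * (3 / 40)) (tnt (h0 * x) (3 / 10)) (tbl tK x) (tbl tL x) (tbl (smT h0⁻¹ tC) x)) 1 1 2 0 3 (-1) (-1) :=
  (sideB hx hx').bothA (thrB hx hx') (en_pos (hx1 hx).le) (Or.inr rfl) (Or.inr rfl) fun y y' F =>
    bothA_cert (s1 := false) (s2 := false) rfl hκ (en_pos (hx1 hx).le) (esg_rng (hx1 hx).le (hx2 hx').le).1 (mo_v x) covB01 covB31 hx hx'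
        Pool.Agent.Strip051.G.I6500_6900.Tab.C.BA03.c_mm_112 noCut_EA noExt_EA F trivial trivial

theorem BA03_mm_113 {κ x : ℝ} (hκ : κ * h0 = ken x) (hx : ((697932185 : ℕ) : ℝ) / S ≤ x) (hx' : x ≤ (((697932185 : ℕ) : ℝ) + (42949674 : ℕ)) / S) :
    TriA PP.cur (VE (h0 * 0) 3 κ (h0 * x) (eng.v x) (h0 * (3 / 40)) (tnt (h0 * x) (3 / 10)) (tbl tK x) (tbl tL x) (tbl (smT h0⁻¹ tC) x)) 1 1 3 0 3 (-1) (-1) :=
  (sideB hx hx').bothA (thrB hx hx') (en_pos (hx1 hx).le) (Or.inr rfl) (Or.inr rfl) fun y y' F =>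
    bothA_cert (s1 := false) (s2 := false) rfl hκ (en_pos (hx1 hx).le) (esg_rng (hx1 hx).le (hx2 hx').le).1 (mo_v x) covB01 covB31 hx hx'
        Pool.Agent.Strip051.G.I6500_6900.Tab.C.BA03.c_mm_113 noCut_EA noExt_EA F trivial trivial

theorem BA03_mm_123 {κ x : ℝ} (hκ : κ * h0 = ken x) (hx : ((697932185 : ℕ) : ℝ) / S ≤ x) (hx' : x ≤ (((697932185 : ℕ) : ℝ) + (42949674 : ℕ)) / S) :
    TriA PP.cur (VE (h0 * 0) 3 κ (h0 * x) (eng.v x) (h0 * (3 / 40)) (tnt (h0 * x) (3 / 10)) (tbl tK x) (tbl tL x) (tbl (smT h0⁻¹ tC) x)) 1 2 3 0 3 (-1) (-1) :=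
  (sideB hx hx').bothA (thrB hx hx') (en_pos (hx1 hx).le) (Or.inr rfl) (Or.inr rfl) fun y y' F =>
    (lt_or_ge (h0 * y') 1).elim
      (fun g => bothA_cert (s1 := false) (s2 := false) rfl hκ (en_pos (hx1 hx).le) (esg_rng (hx1 hx).le (hx2 hx').le).1 (mo_v x) covB01 covB32a hx hx'
        Pool.Agent.Strip051.G.I6500_6900.Tab.C.BA03.c_mm_123_a noCut_EA noExt_EA F trivial g)
      (fun g => bothA_cert (s1 := false) (s2 := false) rfl hκ (en_pos (hx1 hx).le) (esg_rng (hx1 hx).le (hx2 hx').le).1 (mo_v x) covB01 covB32b hx hx'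
        Pool.Agent.Strip051.G.I6500_6900.Tab.C.BA03.c_mm_123_b noCut_EA noExt_EA F trivial g)

theorem BA03_mm_133 {κ x : ℝ} (hκ : κ * h0 = ken x) (hx : ((697932185 : ℕ) : ℝ) / S ≤ x) (hx' : x ≤ (((697932185 : ℕ) : ℝ) + (42949674 : ℕ)) / S) :
    TriA PP.cur (VE (h0 * 0) 3 κ (h0 * x) (eng.v x) (h0 * (3 / 40)) (tnt (h0 * x) (3 / 10)) (tbl tK x) (tbl tL x) (tbl (smT h0⁻¹ tC) x)) 1 3 3 0 3 (-1) (-1) :=
  (sideB hx hx').bothA (thrB hx hx') (en_pos (hx1 hx).le) (Or.inr rfl) (Or.inr rfl) fun y y' F =>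
    bothA_cert (s1 := false) (s2 := false) rfl hκ (en_pos (hx1 hx).le) (esg_rng (hx1 hx).le (hx2 hx').le).1 (mo_v x) covB01 covB33 hx hx'
        Pool.Agent.Strip051.G.I6500_6900.Tab.C.BA03.c_mm_133 noCut_EA noExt_EA F trivial trivial

theorem BA03_mm_202 {κ x : ℝ} (hκ : κ * h0 = ken x) (hx : ((697932185 : ℕ) : ℝ) / S ≤ x) (hx' : x ≤ (((697932185 : ℕ) : ℝ) + (42949674 : ℕ)) / S) :
    TriA PP.cur (VE (h0 * 0) 3 κ (h0 * x) (eng.v x) (h0 * (3 / 40)) (tnt (h0 * x) (3 / 10)) (tbl tK x) (tbl tL x) (tbl (smT h0⁻¹ tC) x)) 2 0 2 0 3 (-1) (-1) :=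
  (sideB hx hx').bothA (thrB hx hx') (en_pos (hx1 hx).le) (Or.inr rfl) (Or.inr rfl) fun y y' F =>
    bothA_cert (s1 := false) (s2 := false) rfl hκ (en_pos (hx1 hx).le) (esg_rng (hx1 hx).le (hx2 hx').le).1 (mo_v x) covB02 covB30 hx hx'
        Pool.Agent.Strip051.G.I6500_6900.Tab.C.BA03.c_mm_202 (cutEA_cons (Pool.Agent.Strip051.G.I6500_6900.Tab.altB_A202R_03 hκ hx hx') cutEA_nil) noExt_EA F trivial trivial

theorem BA03_mm_203 {κ x : ℝ} (hκ : κ * h0 = ken x) (hx : ((697932185 : ℕ) : ℝ) / S ≤ x) (hx' : x ≤ (((697932185 : ℕ) : ℝ) + (42949674 : ℕ)) / S) :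
    TriA PP.cur (VE (h0 * 0) 3 κ (h0 * x) (eng.v x) (h0 * (3 / 40)) (tnt (h0 * x) (3 / 10)) (tbl tK x) (tbl tL x) (tbl (smT h0⁻¹ tC) x)) 2 0 3 0 3 (-1) (-1) :=
  (sideB hx hx').bothA (thrB hx hx') (en_pos (hx1 hx).le) (Or.inr rfl) (Or.inr rfl) fun y y' F =>
    bothA_cert (s1 := false) (s2 := false) rfl hκ (en_pos (hx1 hx).le) (esg_rng (hx1 hx).le (hx2 hx').le).1 (mo_v x) covB02 covB30 hx hx'
        Pool.Agent.Strip051.G.I6500_6900.Tab.C.BA03.c_mm_203 noCut_EA noExt_EA F trivial trivial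

theorem BA03_mm_213 {κ x : ℝ} (hκ : κ * h0 = ken x) (hx : ((697932185 : ℕ) : ℝ) / S ≤ x) (hx' : x ≤ (((697932185 : ℕ) : ℝ) + (42949674 : ℕ)) / S) :
    TriA PP.cur (VE (h0 * 0) 3 κ (h0 * x) (eng.v x) (h0 * (3 / 40)) (tnt (h0 * x) (3 / 10)) (tbl tK x) (tbl tL x) (tbl (smT h0⁻¹ tC) x)) 2 1 3 0 3 (-1) (-1) :=
  (sideB hx hx').bothA (thrB hx hx') (en_pos (hx1 hx).le) (Or.inr rfl) (Or.inr rfl) fun y y' F =>
    bothA_cert (s1 := false) (s2 := false) rfl hκ (en_pos (hx1 hx).le) (esg_rng (hx1 hx).le (hx2 hx').le).1 (mo_v x) covB02 covB31 hx hx'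
        Pool.Agent.Strip051.G.I6500_6900.Tab.C.BA03.c_mm_213 noCut_EA noExt_EA F trivial trivial

theorem BA03_mm_303 {κ x : ℝ} (hκ : κ * h0 = ken x) (hx : ((697932185 : ℕ) : ℝ) / S ≤ x) (hx' : x ≤ (((697932185 : ℕ) : ℝ) + (42949674 : ℕ)) / S) :
    TriA PP.cur (VE (h0 * 0) 3 κ (h0 * x) (eng.v x) (h0 * (3 / 40)) (tnt (h0 * x) (3 / 10)) (tbl tK x) (tbl tL x) (tbl (smT h0⁻¹ tC) x)) 3 0 3 0 3 (-1) (-1) :=
  triA_j0

theorem BA03_mm_313 {κ x : ℝ} (hκ : κ * h0 = ken x) (hx : ((697932185 : ℕ) : ℝ) / S ≤ x) (hx' : x ≤ (((697932185 : ℕ) : ℝ) + (42949674 : ℕ)) / S) :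
    TriA PP.cur (VE (h0 * 0) 3 κ (h0 * x) (eng.v x) (h0 * (3 / 40)) (tnt (h0 * x) (3 / 10)) (tbl tK x) (tbl tL x) (tbl (smT h0⁻¹ tC) x)) 3 1 3 0 3 (-1) (-1) :=
  triA_j0

theorem BA03 {κ x : ℝ} (hκ : κ * h0 = ken x) (hx : ((697932185 : ℕ) : ℝ) / S ≤ x) (hx' : x ≤ (((697932185 : ℕ) : ℝ) + (42949674 : ℕ)) / S) : AllTA PP.cur (VE (h0 * 0) 3 κ (h0 * x) (eng.v x) (h0 * (3 / 40)) (tnt (h0 * x) (3 / 10)) (tbl tK x) (tbl tL x) (tbl (smT h0⁻¹ tC) x)) 0 3 where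
  pp := all17 (Q := fun a b c => TriA PP.cur (VE (h0 * 0) 3 κ (h0 * x) (eng.v x) (h0 * (3 / 40)) (tnt (h0 * x) (3 / 10)) (tbl tK x) (tbl tL x) (tbl (smT h0⁻¹ tC) x)) a b c 0 3 1 1)
    (BA03_pp_001 hκ hx hx') (BA03_pp_011 hκ hx hx') (BA03_pp_012 hκ hx hx') (BA03_pp_022 hκ hx hx') (BA03_pp_023 hκ hx hx') (BA03_pp_033 hκ hx hx') (BA03_pp_101 hκ hx hx') (BA03_pp_102 hκ hx hx') (BA03_pp_112 hκ hx hx') (BA03_pp_113 hκ hx hx') (BA03_pp_123 hκ hx hx') (BA03_pp_133 hκ hx hx') (BA03_pp_202 hκ hx hx') (BA03_pp_203 hκ hx hx') (BA03_pp_213 hκ hx hx') (BA03_pp_303 hκ hx hx') (BA03_pp_313 hκ hx hx')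
  pm := all17 (Q := fun a b c => TriA PP.cur (VE (h0 * 0) 3 κ (h0 * x) (eng.v x) (h0 * (3 / 40)) (tnt (h0 * x) (3 / 10)) (tbl tK x) (tbl tL x) (tbl (smT h0⁻¹ tC) x)) a b c 0 3 1 (-1))
    (BA03_pm_001 hκ hx hx') (BA03_pm_011 hκ hx hx') (BA03_pm_012 hκ hx hx') (BA03_pm_022 hκ hx hx') (BA03_pm_023 hκ hx hx') (BA03_pm_033 hκ hx hx') (BA03_pm_101 hκ hx hx') (BA03_pm_102 hκ hx hx') (BA03_pm_112 hκ hx hx') (BA03_pm_113 hκ hx hx') (BA03_pm_123 hκ hx hx') (BA03_pm_133 hκ hx hx') (BA03_pm_202 hκ hx hx') (BA03_pm_203 hκ hx hx') (BA03_pm_213 hκ hx hx') (BA03_pm_303 hκ hx hx') (BA03_pm_313 hκ hx hx')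
  mm := all17 (Q := fun a b c => TriA PP.cur (VE (h0 * 0) 3 κ (h0 * x) (eng.v x) (h0 * (3 / 40)) (tnt (h0 * x) (3 / 10)) (tbl tK x) (tbl tL x) (tbl (smT h0⁻¹ tC) x)) a b c 0 3 (-1) (-1))
    (BA03_mm_001 hκ hx hx') (BA03_mm_011 hκ hx hx') (BA03_mm_012 hκ hx hx') (BA03_mm_022 hκ hx hx') (BA03_mm_023 hκ hx hx') (BA03_mm_033 hκ hx hx') (BA03_mm_101 hκ hx hx') (BA03_mm_102 hκ hx hx') (BA03_mm_112 hκ hx hx') (BA03_mm_113 hκ hx hx') (BA03_mm_123 hκ hx hx') (BA03_mm_133 hκ hx hx') (BA03_mm_202 hκ hx hx') (BA03_mm_203 hκ hx hx') (BA03_mm_213 hκ hx hx') (BA03_mm_303 hκ hx hx') (BA03_mm_313 hκ hx hx')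

theorem BA04_pp_001 {κ x : ℝ} (hκ : κ * h0 = ken x) (hx : ((697932185 : ℕ) : ℝ) / S ≤ x) (hx' : x ≤ (((697932185 : ℕ) : ℝ) + (42949674 : ℕ)) / S) :
    TriA PP.cur (VE (h0 * 0) 3 κ (h0 * x) (eng.v x) (h0 * (3 / 40)) (tnt (h0 * x) (3 / 10)) (tbl tK x) (tbl tL x) (tbl (smT h0⁻¹ tC) x)) 0 0 1 0 4 1 1 :=
  (sideB hx hx').bothA (thrB hx hx') (en_pos (hx1 hx).le) (Or.inl rfl) (Or.inl rfl) fun y y' F =>
    bothA_cert (s1 := true) (s2 := true) rfl hκ (en_pos (hx1 hx).le) (esg_rng (hx1 hx).le (hx2 hx').le).1 (mo_v x) covB00 covB40 hx hx'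
        Pool.Agent.Strip051.G.I6500_6900.Tab.C.BA04.c_pp_001 noCut_EA noExt_EA F trivial trivial

theorem BA04_pp_011 {κ x : ℝ} (hκ : κ * h0 = ken x) (hx : ((697932185 : ℕ) : ℝ) / S ≤ x) (hx' : x ≤ (((697932185 : ℕ) : ℝ) + (42949674 : ℕ)) / S) :
    TriA PP.cur (VE (h0 * 0) 3 κ (h0 * x) (eng.v x) (h0 * (3 / 40)) (tnt (h0 * x) (3 / 10)) (tbl tK x) (tbl tL x) (tbl (smT h0⁻¹ tC) x)) 0 1 1 0 4 1 1 :=
  (sideB hx hx').bothA (thrB hx hx') (en_pos (hx1 hx).le) (Or.inl rfl) (Or.inl rfl) fun y y' F =>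
    bothA_cert (s1 := true) (s2 := true) rfl hκ (en_pos (hx1 hx).le) (esg_rng (hx1 hx).le (hx2 hx').le).1 (mo_v x) covB00 covB41 hx hx'
        Pool.Agent.Strip051.G.I6500_6900.Tab.C.BA04.c_pp_011 noCut_EA noExt_EA F trivial trivial

theorem BA04_pp_012 {κ x : ℝ} (hκ : κ * h0 = ken x) (hx : ((697932185 : ℕ) : ℝ) / S ≤ x) (hx' : x ≤ (((697932185 : ℕ) : ℝ) + (42949674 : ℕ)) / S) :
    TriA PP.cur (VE (h0 * 0) 3 κ (h0 * x) (eng.v x) (h0 * (3 / 40)) (tnt (h0 * x) (3 / 10)) (tbl tK x) (tbl tL x) (tbl (smT h0⁻¹ tC) x)) 0 1 2 0 4 1 1 :=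
  (sideB hx hx').bothA (thrB hx hx') (en_pos (hx1 hx).le) (Or.inl rfl) (Or.inl rfl) fun y y' F =>
    bothA_cert (s1 := true) (s2 := true) rfl hκ (en_pos (hx1 hx).le) (esg_rng (hx1 hx).le (hx2 hx').le).1 (mo_v x) covB00 covB41 hx hx'
        Pool.Agent.Strip051.G.I6500_6900.Tab.C.BA04.c_pp_012 noCut_EA noExt_EA F trivial trivial

theorem BA04_pp_022 {κ x : ℝ} (hκ : κ * h0 = ken x) (hx : ((697932185 : ℕ) : ℝ) / S ≤ x) (hx' : x ≤ (((697932185 : ℕ) : ℝ) + (42949674 : ℕ)) / S) :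
    TriA PP.cur (VE (h0 * 0) 3 κ (h0 * x) (eng.v x) (h0 * (3 / 40)) (tnt (h0 * x) (3 / 10)) (tbl tK x) (tbl tL x) (tbl (smT h0⁻¹ tC) x)) 0 2 2 0 4 1 1 :=
  (sideB hx hx').bothA (thrB hx hx') (en_pos (hx1 hx).le) (Or.inl rfl) (Or.inl rfl) fun y y' F =>
    (lt_or_ge (h0 * y') 1).elim
      (fun g => bothA_cert (s1 := true) (s2 := true) rfl hκ (en_pos (hx1 hx).le) (esg_rng (hx1 hx).le (hx2 hx').le).1 (mo_v x) covB00 covB42a hx hx'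
        Pool.Agent.Strip051.G.I6500_6900.Tab.C.BA04.c_pp_022_a (cutEA_cons (Pool.Agent.Strip051.G.I6500_6900.Tab.altB_A022L_04 hκ hx hx') cutEA_nil) noExt_EA F trivial g)
      (fun g => bothA_cert (s1 := true) (s2 := true) rfl hκ (en_pos (hx1 hx).le) (esg_rng (hx1 hx).le (hx2 hx').le).1 (mo_v x) covB00 covB42b hx hx'
        Pool.Agent.Strip051.G.I6500_6900.Tab.C.BA04.c_pp_022_b (cutEA_cons (Pool.Agent.Strip051.G.I6500_6900.Tab.altB_A022L_04 hκ hx hx') cutEA_nil) noExt_EA F trivial g)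

theorem BA04_pp_023 {κ x : ℝ} (hκ : κ * h0 = ken x) (hx : ((697932185 : ℕ) : ℝ) / S ≤ x) (hx' : x ≤ (((697932185 : ℕ) : ℝ) + (42949674 : ℕ)) / S) :
    TriA PP.cur (VE (h0 * 0) 3 κ (h0 * x) (eng.v x) (h0 * (3 / 40)) (tnt (h0 * x) (3 / 10)) (tbl tK x) (tbl tL x) (tbl (smT h0⁻¹ tC) x)) 0 2 3 0 4 1 1 :=
  (sideB hx hx').bothA (thrB hx hx') (en_pos (hx1 hx).le) (Or.inl rfl) (Or.inl rfl) fun y y' F =>
    (lt_or_ge (h0 * y') 1).elim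
      (fun g => bothA_cert (s1 := true) (s2 := true) rfl hκ (en_pos (hx1 hx).le) (esg_rng (hx1 hx).le (hx2 hx').le).1 (mo_v x) covB00 covB42a hx hx'
        Pool.Agent.Strip051.G.I6500_6900.Tab.C.BA04.c_pp_023_a noCut_EA noExt_EA F trivial g)
      (fun g => bothA_cert (s1 := true) (s2 := true) rfl hκ (en_pos (hx1 hx).le) (esg_rng (hx1 hx).le (hx2 hx').le).1 (mo_v x) covB00 covB42b hx hx'
        Pool.Agent.Strip051.G.I6500_6900.Tab.C.BA04.c_pp_023_b noCut_EA noExt_EA F trivial g)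

theorem BA04_pp_033 {κ x : ℝ} (hκ : κ * h0 = ken x) (hx : ((697932185 : ℕ) : ℝ) / S ≤ x) (hx' : x ≤ (((697932185 : ℕ) : ℝ) + (42949674 : ℕ)) / S) :
    TriA PP.cur (VE (h0 * 0) 3 κ (h0 * x) (eng.v x) (h0 * (3 / 40)) (tnt (h0 * x) (3 / 10)) (tbl tK x) (tbl tL x) (tbl (smT h0⁻¹ tC) x)) 0 3 3 0 4 1 1 :=
  (sideB hx hx').bothA (thrB hx hx') (en_pos (hx1 hx).le) (Or.inl rfl) (Or.inl rfl) fun y y' F =>
    bothA_cert (s1 := true) (s2 := true) rfl hκ (en_pos (hx1 hx).le) (esg_rng (hx1 hx).le (hx2 hx').le).1 (mo_v x) covB00 covB43 hx hx'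
        Pool.Agent.Strip051.G.I6500_6900.Tab.C.BA04.c_pp_033 noCut_EA noExt_EA F trivial trivial

theorem BA04_pp_101 {κ x : ℝ} (hκ : κ * h0 = ken x) (hx : ((697932185 : ℕ) : ℝ) / S ≤ x) (hx' : x ≤ (((697932185 : ℕ) : ℝ) + (42949674 : ℕ)) / S) :
    TriA PP.cur (VE (h0 * 0) 3 κ (h0 * x) (eng.v x) (h0 * (3 / 40)) (tnt (h0 * x) (3 / 10)) (tbl tK x) (tbl tL x) (tbl (smT h0⁻¹ tC) x)) 1 0 1 0 4 1 1 :=
  (sideB hx hx').bothA (thrB hx hx') (en_pos (hx1 hx).le) (Or.inl rfl) (Or.inl rfl) fun y y' F =>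
    bothA_cert (s1 := true) (s2 := true) rfl hκ (en_pos (hx1 hx).le) (esg_rng (hx1 hx).le (hx2 hx').le).1 (mo_v x) covB01 covB40 hx hx'
        Pool.Agent.Strip051.G.I6500_6900.Tab.C.BA04.c_pp_101 noCut_EA noExt_EA F trivial trivial

theorem BA04_pp_102 {κ x : ℝ} (hκ : κ * h0 = ken x) (hx : ((697932185 : ℕ) : ℝ) / S ≤ x) (hx' : x ≤ (((697932185 : ℕ) : ℝ) + (42949674 : ℕ)) / S) :
    TriA PP.cur (VE (h0 * 0) 3 κ (h0 * x) (eng.v x) (h0 * (3 / 40)) (tnt (h0 * x) (3 / 10)) (tbl tK x) (tbl tL x) (tbl (smT h0⁻¹ tC) x)) 1 0 2 0 4 1 1 :=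
  (sideB hx hx').bothA (thrB hx hx') (en_pos (hx1 hx).le) (Or.inl rfl) (Or.inl rfl) fun y y' F =>
    bothA_cert (s1 := true) (s2 := true) rfl hκ (en_pos (hx1 hx).le) (esg_rng (hx1 hx).le (hx2 hx').le).1 (mo_v x) covB01 covB40 hx hx'
        Pool.Agent.Strip051.G.I6500_6900.Tab.C.BA04.c_pp_102 noCut_EA noExt_EA F trivial trivial

theorem BA04_pp_112 {κ x : ℝ} (hκ : κ * h0 = ken x) (hx : ((697932185 : ℕ) : ℝ) / S ≤ x) (hx' : x ≤ (((697932185 : ℕ) : ℝ) + (42949674 : ℕ)) / S) :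
    TriA PP.cur (VE (h0 * 0) 3 κ (h0 * x) (eng.v x) (h0 * (3 / 40)) (tnt (h0 * x) (3 / 10)) (tbl tK x) (tbl tL x) (tbl (smT h0⁻¹ tC) x)) 1 1 2 0 4 1 1 :=
  (sideB hx hx').bothA (thrB hx hx') (en_pos (hx1 hx).le) (Or.inl rfl) (Or.inl rfl) fun y y' F =>
    bothA_cert (s1 := true) (s2 := true) rfl hκ (en_pos (hx1 hx).le) (esg_rng (hx1 hx).le (hx2 hx').le).1 (mo_v x) covB01 covB41 hx hx'
        Pool.Agent.Strip051.G.I6500_6900.Tab.C.BA04.c_pp_112 noCut_EA noExt_EA F trivial trivial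

theorem BA04_pp_113 {κ x : ℝ} (hκ : κ * h0 = ken x) (hx : ((697932185 : ℕ) : ℝ) / S ≤ x) (hx' : x ≤ (((697932185 : ℕ) : ℝ) + (42949674 : ℕ)) / S) :
    TriA PP.cur (VE (h0 * 0) 3 κ (h0 * x) (eng.v x) (h0 * (3 / 40)) (tnt (h0 * x) (3 / 10)) (tbl tK x) (tbl tL x) (tbl (smT h0⁻¹ tC) x)) 1 1 3 0 4 1 1 :=
  (sideB hx hx').bothA (thrB hx hx') (en_pos (hx1 hx).le) (Or.inl rfl) (Or.inl rfl) fun y y' F =>
    bothA_cert (s1 := true) (s2 := true) rfl hκ (en_pos (hx1 hx).le) (esg_rng (hx1 hx).le (hx2 hx').le).1 (mo_v x) covB01 covB41 hx hx'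
        Pool.Agent.Strip051.G.I6500_6900.Tab.C.BA04.c_pp_113 noCut_EA noExt_EA F trivial trivial

theorem BA04_pp_123 {κ x : ℝ} (hκ : κ * h0 = ken x) (hx : ((697932185 : ℕ) : ℝ) / S ≤ x) (hx' : x ≤ (((697932185 : ℕ) : ℝ) + (42949674 : ℕ)) / S) :
    TriA PP.cur (VE (h0 * 0) 3 κ (h0 * x) (eng.v x) (h0 * (3 / 40)) (tnt (h0 * x) (3 / 10)) (tbl tK x) (tbl tL x) (tbl (smT h0⁻¹ tC) x)) 1 2 3 0 4 1 1 :=
  (sideB hx hx').bothA (thrB hx hx') (en_pos (hx1 hx).le) (Or.inl rfl) (Or.inl rfl) fun y y' F =>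
    (lt_or_ge (h0 * y') 1).elim
      (fun g => bothA_cert (s1 := true) (s2 := true) rfl hκ (en_pos (hx1 hx).le) (esg_rng (hx1 hx).le (hx2 hx').le).1 (mo_v x) covB01 covB42a hx hx'
        Pool.Agent.Strip051.G.I6500_6900.Tab.C.BA04.c_pp_123_a noCut_EA noExt_EA F trivial g)
      (fun g => bothA_cert (s1 := true) (s2 := true) rfl hκ (en_pos (hx1 hx).le) (esg_rng (hx1 hx).le (hx2 hx').le).1 (mo_v x) covB01 covB42b hx hx'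
        Pool.Agent.Strip051.G.I6500_6900.Tab.C.BA04.c_pp_123_b noCut_EA noExt_EA F trivial g)

theorem BA04_pp_133 {κ x : ℝ} (hκ : κ * h0 = ken x) (hx : ((697932185 : ℕ) : ℝ) / S ≤ x) (hx' : x ≤ (((697932185 : ℕ) : ℝ) + (42949674 : ℕ)) / S) :
    TriA PP.cur (VE (h0 * 0) 3 κ (h0 * x) (eng.v x) (h0 * (3 / 40)) (tnt (h0 * x) (3 / 10)) (tbl tK x) (tbl tL x) (tbl (smT h0⁻¹ tC) x)) 1 3 3 0 4 1 1 :=
  (sideB hx hx').bothA (thrB hx hx') (en_pos (hx1 hx).le) (Or.inl rfl) (Or.inl rfl) fun y y' F =>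
    bothA_cert (s1 := true) (s2 := true) rfl hκ (en_pos (hx1 hx).le) (esg_rng (hx1 hx).le (hx2 hx').le).1 (mo_v x) covB01 covB43 hx hx'
        Pool.Agent.Strip051.G.I6500_6900.Tab.C.BA04.c_pp_133 noCut_EA noExt_EA F trivial trivial

theorem BA04_pp_202 {κ x : ℝ} (hκ : κ * h0 = ken x) (hx : ((697932185 : ℕ) : ℝ) / S ≤ x) (hx' : x ≤ (((697932185 : ℕ) : ℝ) + (42949674 : ℕ)) / S) :
    TriA PP.cur (VE (h0 * 0) 3 κ (h0 * x) (eng.v x) (h0 * (3 / 40)) (tnt (h0 * x) (3 / 10)) (tbl tK x) (tbl tL x) (tbl (smT h0⁻¹ tC) x)) 2 0 2 0 4 1 1 :=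
  (sideB hx hx').bothA (thrB hx hx') (en_pos (hx1 hx).le) (Or.inl rfl) (Or.inl rfl) fun y y' F =>
    bothA_cert (s1 := true) (s2 := true) rfl hκ (en_pos (hx1 hx).le) (esg_rng (hx1 hx).le (hx2 hx').le).1 (mo_v x) covB02 covB40 hx hx'
        Pool.Agent.Strip051.G.I6500_6900.Tab.C.BA04.c_pp_202 noCut_EA noExt_EA F trivial trivial

theorem BA04_pp_203 {κ x : ℝ} (hκ : κ * h0 = ken x) (hx : ((697932185 : ℕ) : ℝ) / S ≤ x) (hx' : x ≤ (((697932185 : ℕ) : ℝ) + (42949674 : ℕ)) / S) :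
    TriA PP.cur (VE (h0 * 0) 3 κ (h0 * x) (eng.v x) (h0 * (3 / 40)) (tnt (h0 * x) (3 / 10)) (tbl tK x) (tbl tL x) (tbl (smT h0⁻¹ tC) x)) 2 0 3 0 4 1 1 :=
  (sideB hx hx').bothA (thrB hx hx') (en_pos (hx1 hx).le) (Or.inl rfl) (Or.inl rfl) fun y y' F =>
    bothA_cert (s1 := true) (s2 := true) rfl hκ (en_pos (hx1 hx).le) (esg_rng (hx1 hx).le (hx2 hx').le).1 (mo_v x) covB02 covB40 hx hx'
        Pool.Agent.Strip051.G.I6500_6900.Tab.C.BA04.c_pp_203 noCut_EA noExt_EA F trivial trivial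

theorem BA04_pp_213 {κ x : ℝ} (hκ : κ * h0 = ken x) (hx : ((697932185 : ℕ) : ℝ) / S ≤ x) (hx' : x ≤ (((697932185 : ℕ) : ℝ) + (42949674 : ℕ)) / S) :
    TriA PP.cur (VE (h0 * 0) 3 κ (h0 * x) (eng.v x) (h0 * (3 / 40)) (tnt (h0 * x) (3 / 10)) (tbl tK x) (tbl tL x) (tbl (smT h0⁻¹ tC) x)) 2 1 3 0 4 1 1 :=
  (sideB hx hx').bothA (thrB hx hx') (en_pos (hx1 hx).le) (Or.inl rfl) (Or.inl rfl) fun y y' F =>
    bothA_cert (s1 := true) (s2 := true) rfl hκ (en_pos (hx1 hx).le) (esg_rng (hx1 hx).le (hx2 hx').le).1 (mo_v x) covB02 covB41 hx hx'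
        Pool.Agent.Strip051.G.I6500_6900.Tab.C.BA04.c_pp_213 noCut_EA noExt_EA F trivial trivial

theorem BA04_pp_303 {κ x : ℝ} (hκ : κ * h0 = ken x) (hx : ((697932185 : ℕ) : ℝ) / S ≤ x) (hx' : x ≤ (((697932185 : ℕ) : ℝ) + (42949674 : ℕ)) / S) :
    TriA PP.cur (VE (h0 * 0) 3 κ (h0 * x) (eng.v x) (h0 * (3 / 40)) (tnt (h0 * x) (3 / 10)) (tbl tK x) (tbl tL x) (tbl (smT h0⁻¹ tC) x)) 3 0 3 0 4 1 1 :=
  triA_j0

theorem BA04_pp_313 {κ x : ℝ} (hκ : κ * h0 = ken x) (hx : ((697932185 : ℕ) : ℝ) / S ≤ x) (hx' : x ≤ (((697932185 : ℕ) : ℝ) + (42949674 : ℕ)) / S) :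
    TriA PP.cur (VE (h0 * 0) 3 κ (h0 * x) (eng.v x) (h0 * (3 / 40)) (tnt (h0 * x) (3 / 10)) (tbl tK x) (tbl tL x) (tbl (smT h0⁻¹ tC) x)) 3 1 3 0 4 1 1 :=
  triA_j0

theorem BA04_pm_001 {κ x : ℝ} (hκ : κ * h0 = ken x) (hx : ((697932185 : ℕ) : ℝ) / S ≤ x) (hx' : x ≤ (((697932185 : ℕ) : ℝ) + (42949674 : ℕ)) / S) :
    TriA PP.cur (VE (h0 * 0) 3 κ (h0 * x) (eng.v x) (h0 * (3 / 40)) (tnt (h0 * x) (3 / 10)) (tbl tK x) (tbl tL x) (tbl (smT h0⁻¹ tC) x)) 0 0 1 0 4 1 (-1) :=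
  (sideB hx hx').bothA (thrB hx hx') (en_pos (hx1 hx).le) (Or.inl rfl) (Or.inr rfl) fun y y' F =>
    bothA_cert (s1 := true) (s2 := false) rfl hκ (en_pos (hx1 hx).le) (esg_rng (hx1 hx).le (hx2 hx').le).1 (mo_v x) covB00 covB40 hx hx'
        Pool.Agent.Strip051.G.I6500_6900.Tab.C.BA04.c_pm_001 noCut_EA noExt_EA F trivial trivial

theorem BA04_pm_011 {κ x : ℝ} (hκ : κ * h0 = ken x) (hx : ((697932185 : ℕ) : ℝ) / S ≤ x) (hx' : x ≤ (((697932185 : ℕ) : ℝ) + (42949674 : ℕ)) / S) :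
    TriA PP.cur (VE (h0 * 0) 3 κ (h0 * x) (eng.v x) (h0 * (3 / 40)) (tnt (h0 * x) (3 / 10)) (tbl tK x) (tbl tL x) (tbl (smT h0⁻¹ tC) x)) 0 1 1 0 4 1 (-1) :=
  (sideB hx hx').bothA (thrB hx hx') (en_pos (hx1 hx).le) (Or.inl rfl) (Or.inr rfl) fun y y' F =>
    bothA_cert (s1 := true) (s2 := false) rfl hκ (en_pos (hx1 hx).le) (esg_rng (hx1 hx).le (hx2 hx').le).1 (mo_v x) covB00 covB41 hx hx'
        Pool.Agent.Strip051.G.I6500_6900.Tab.C.BA04.c_pm_011 noCut_EA noExt_EA F trivial trivial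

theorem BA04_pm_012 {κ x : ℝ} (hκ : κ * h0 = ken x) (hx : ((697932185 : ℕ) : ℝ) / S ≤ x) (hx' : x ≤ (((697932185 : ℕ) : ℝ) + (42949674 : ℕ)) / S) :
    TriA PP.cur (VE (h0 * 0) 3 κ (h0 * x) (eng.v x) (h0 * (3 / 40)) (tnt (h0 * x) (3 / 10)) (tbl tK x) (tbl tL x) (tbl (smT h0⁻¹ tC) x)) 0 1 2 0 4 1 (-1) :=
  (sideB hx hx').bothA (thrB hx hx') (en_pos (hx1 hx).le) (Or.inl rfl) (Or.inr rfl) fun y y' F =>
    bothA_cert (s1 := true) (s2 := false) rfl hκ (en_pos (hx1 hx).le) (esg_rng (hx1 hx).le (hx2 hx').le).1 (mo_v x) covB00 covB41 hx hx'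
        Pool.Agent.Strip051.G.I6500_6900.Tab.C.BA04.c_pm_012 noCut_EA noExt_EA F trivial trivial

theorem BA04_pm_022 {κ x : ℝ} (hκ : κ * h0 = ken x) (hx : ((697932185 : ℕ) : ℝ) / S ≤ x) (hx' : x ≤ (((697932185 : ℕ) : ℝ) + (42949674 : ℕ)) / S) :
    TriA PP.cur (VE (h0 * 0) 3 κ (h0 * x) (eng.v x) (h0 * (3 / 40)) (tnt (h0 * x) (3 / 10)) (tbl tK x) (tbl tL x) (tbl (smT h0⁻¹ tC) x)) 0 2 2 0 4 1 (-1) :=
  (sideB hx hx').bothA (thrB hx hx') (en_pos (hx1 hx).le) (Or.inl rfl) (Or.inr rfl) fun y y' F =>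
    (lt_or_ge (h0 * y') 1).elim
      (fun g => bothA_cert (s1 := true) (s2 := false) rfl hκ (en_pos (hx1 hx).le) (esg_rng (hx1 hx).le (hx2 hx').le).1 (mo_v x) covB00 covB42a hx hx'
        Pool.Agent.Strip051.G.I6500_6900.Tab.C.BA04.c_pm_022_a (cutEA_cons (Pool.Agent.Strip051.G.I6500_6900.Tab.altB_A022E_04 hκ hx hx') cutEA_nil) (xdA0 hκ hx hx' rfl) F trivial g)
      (fun g => bothA_cert (s1 := true) (s2 := false) rfl hκ (en_pos (hx1 hx).le) (esg_rng (hx1 hx).le (hx2 hx').le).1 (mo_v x) covB00 covB42b hx hx'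
        Pool.Agent.Strip051.G.I6500_6900.Tab.C.BA04.c_pm_022_b (cutEA_cons (Pool.Agent.Strip051.G.I6500_6900.Tab.altB_A022E_04 hκ hx hx') cutEA_nil) noExt_EA F trivial g)

theorem BA04_pm_023 {κ x : ℝ} (hκ : κ * h0 = ken x) (hx : ((697932185 : ℕ) : ℝ) / S ≤ x) (hx' : x ≤ (((697932185 : ℕ) : ℝ) + (42949674 : ℕ)) / S) :
    TriA PP.cur (VE (h0 * 0) 3 κ (h0 * x) (eng.v x) (h0 * (3 / 40)) (tnt (h0 * x) (3 / 10)) (tbl tK x) (tbl tL x) (tbl (smT h0⁻¹ tC) x)) 0 2 3 0 4 1 (-1) :=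
  (sideB hx hx').bothA (thrB hx hx') (en_pos (hx1 hx).le) (Or.inl rfl) (Or.inr rfl) fun y y' F =>
    (lt_or_ge (h0 * y') 1).elim
      (fun g => bothA_cert (s1 := true) (s2 := false) rfl hκ (en_pos (hx1 hx).le) (esg_rng (hx1 hx).le (hx2 hx').le).1 (mo_v x) covB00 covB42a hx hx'
        Pool.Agent.Strip051.G.I6500_6900.Tab.C.BA04.c_pm_023_a noCut_EA (xdA0 hκ hx hx' rfl) F trivial g)
      (fun g => bothA_cert (s1 := true) (s2 := false) rfl hκ (en_pos (hx1 hx).le) (esg_rng (hx1 hx).le (hx2 hx').le).1 (mo_v x) covB00 covB42b hx hx'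
        Pool.Agent.Strip051.G.I6500_6900.Tab.C.BA04.c_pm_023_b noCut_EA noExt_EA F trivial g)

theorem BA04_pm_033 {κ x : ℝ} (hκ : κ * h0 = ken x) (hx : ((697932185 : ℕ) : ℝ) / S ≤ x) (hx' : x ≤ (((697932185 : ℕ) : ℝ) + (42949674 : ℕ)) / S) :
    TriA PP.cur (VE (h0 * 0) 3 κ (h0 * x) (eng.v x) (h0 * (3 / 40)) (tnt (h0 * x) (3 / 10)) (tbl tK x) (tbl tL x) (tbl (smT h0⁻¹ tC) x)) 0 3 3 0 4 1 (-1) :=
  (sideB hx hx').bothA (thrB hx hx') (en_pos (hx1 hx).le) (Or.inl rfl) (Or.inr rfl) fun y y' F =>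
    bothA_cert (s1 := true) (s2 := false) rfl hκ (en_pos (hx1 hx).le) (esg_rng (hx1 hx).le (hx2 hx').le).1 (mo_v x) covB00 covB43 hx hx'
        Pool.Agent.Strip051.G.I6500_6900.Tab.C.BA04.c_pm_033 noCut_EA noExt_EA F trivial trivial

theorem BA04_pm_101 {κ x : ℝ} (hκ : κ * h0 = ken x) (hx : ((697932185 : ℕ) : ℝ) / S ≤ x) (hx' : x ≤ (((697932185 : ℕ) : ℝ) + (42949674 : ℕ)) / S) :
    TriA PP.cur (VE (h0 * 0) 3 κ (h0 * x) (eng.v x) (h0 * (3 / 40)) (tnt (h0 * x) (3 / 10)) (tbl tK x) (tbl tL x) (tbl (smT h0⁻¹ tC) x)) 1 0 1 0 4 1 (-1) :=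
  (sideB hx hx').bothA (thrB hx hx') (en_pos (hx1 hx).le) (Or.inl rfl) (Or.inr rfl) fun y y' F =>
    bothA_cert (s1 := true) (s2 := false) rfl hκ (en_pos (hx1 hx).le) (esg_rng (hx1 hx).le (hx2 hx').le).1 (mo_v x) covB01 covB40 hx hx'
        Pool.Agent.Strip051.G.I6500_6900.Tab.C.BA04.c_pm_101 (cutEA_cons (Pool.Agent.Strip051.G.I6500_6900.Tab.altB_A101E_04 hκ hx hx') cutEA_nil) noExt_EA F trivial trivial

theorem BA04_pm_102 {κ x : ℝ} (hκ : κ * h0 = ken x) (hx : ((697932185 : ℕ) : ℝ) / S ≤ x) (hx' : x ≤ (((697932185 : ℕ) : ℝ) + (42949674 : ℕ)) / S) :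
    TriA PP.cur (VE (h0 * 0) 3 κ (h0 * x) (eng.v x) (h0 * (3 / 40)) (tnt (h0 * x) (3 / 10)) (tbl tK x) (tbl tL x) (tbl (smT h0⁻¹ tC) x)) 1 0 2 0 4 1 (-1) :=
  (sideB hx hx').bothA (thrB hx hx') (en_pos (hx1 hx).le) (Or.inl rfl) (Or.inr rfl) fun y y' F =>
    bothA_cert (s1 := true) (s2 := false) rfl hκ (en_pos (hx1 hx).le) (esg_rng (hx1 hx).le (hx2 hx').le).1 (mo_v x) covB01 covB40 hx hx'
        Pool.Agent.Strip051.G.I6500_6900.Tab.C.BA04.c_pm_102 (cutEA_cons (Pool.Agent.Strip051.G.I6500_6900.Tab.altB_A102E_04 hκ hx hx') cutEA_nil) (xdA0 hκ hx hx' rfl) F trivial trivial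

theorem BA04_pm_112 {κ x : ℝ} (hκ : κ * h0 = ken x) (hx : ((697932185 : ℕ) : ℝ) / S ≤ x) (hx' : x ≤ (((697932185 : ℕ) : ℝ) + (42949674 : ℕ)) / S) :
    TriA PP.cur (VE (h0 * 0) 3 κ (h0 * x) (eng.v x) (h0 * (3 / 40)) (tnt (h0 * x) (3 / 10)) (tbl tK x) (tbl tL x) (tbl (smT h0⁻¹ tC) x)) 1 1 2 0 4 1 (-1) :=
  (sideB hx hx').bothA (thrB hx hx') (en_pos (hx1 hx).le) (Or.inl rfl) (Or.inr rfl) fun y y' F =>
    bothA_cert (s1 := true) (s2 := false) rfl hκ (en_pos (hx1 hx).le) (esg_rng (hx1 hx).le (hx2 hx').le).1 (mo_v x) covB01 covB41 hx hx'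
        Pool.Agent.Strip051.G.I6500_6900.Tab.C.BA04.c_pm_112 noCut_EA noExt_EA F trivial trivial

theorem BA04_pm_113 {κ x : ℝ} (hκ : κ * h0 = ken x) (hx : ((697932185 : ℕ) : ℝ) / S ≤ x) (hx' : x ≤ (((697932185 : ℕ) : ℝ) + (42949674 : ℕ)) / S) :
    TriA PP.cur (VE (h0 * 0) 3 κ (h0 * x) (eng.v x) (h0 * (3 / 40)) (tnt (h0 * x) (3 / 10)) (tbl tK x) (tbl tL x) (tbl (smT h0⁻¹ tC) x)) 1 1 3 0 4 1 (-1) :=
  (sideB hx hx').bothA (thrB hx hx') (en_pos (hx1 hx).le) (Or.inl rfl) (Or.inr rfl) fun y y' F =>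
    bothA_cert (s1 := true) (s2 := false) rfl hκ (en_pos (hx1 hx).le) (esg_rng (hx1 hx).le (hx2 hx').le).1 (mo_v x) covB01 covB41 hx hx'
        Pool.Agent.Strip051.G.I6500_6900.Tab.C.BA04.c_pm_113 noCut_EA noExt_EA F trivial trivial

theorem BA04_pm_123 {κ x : ℝ} (hκ : κ * h0 = ken x) (hx : ((697932185 : ℕ) : ℝ) / S ≤ x) (hx' : x ≤ (((697932185 : ℕ) : ℝ) + (42949674 : ℕ)) / S) :
    TriA PP.cur (VE (h0 * 0) 3 κ (h0 * x) (eng.v x) (h0 * (3 / 40)) (tnt (h0 * x) (3 / 10)) (tbl tK x) (tbl tL x) (tbl (smT h0⁻¹ tC) x)) 1 2 3 0 4 1 (-1) :=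
  (sideB hx hx').bothA (thrB hx hx') (en_pos (hx1 hx).le) (Or.inl rfl) (Or.inr rfl) fun y y' F =>
    (lt_or_ge (h0 * y') 1).elim
      (fun g => bothA_cert (s1 := true) (s2 := false) rfl hκ (en_pos (hx1 hx).le) (esg_rng (hx1 hx).le (hx2 hx').le).1 (mo_v x) covB01 covB42a hx hx'
        Pool.Agent.Strip051.G.I6500_6900.Tab.C.BA04.c_pm_123_a (cutEA_cons (Pool.Agent.Strip051.G.I6500_6900.Tab.alt12cB_A123_04 hκ hx hx') (cutEA_cons (Pool.Agent.Strip051.G.I6500_6900.Tab.Mo.molE_A_123_04_0 hκ hx hx') cutEA_nil)) (xdA0 hκ hx hx' rfl) F trivial g)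
      (fun g => bothA_cert (s1 := true) (s2 := false) rfl hκ (en_pos (hx1 hx).le) (esg_rng (hx1 hx).le (hx2 hx').le).1 (mo_v x) covB01 covB42b hx hx'
        Pool.Agent.Strip051.G.I6500_6900.Tab.C.BA04.c_pm_123_b (cutEA_cons (Pool.Agent.Strip051.G.I6500_6900.Tab.alt12cB_A123_04 hκ hx hx') (cutEA_cons (Pool.Agent.Strip051.G.I6500_6900.Tab.Mo.molE_A_123_04_0 hκ hx hx') cutEA_nil)) noExt_EA F trivial g)

theorem BA04_pm_133 {κ x : ℝ} (hκ : κ * h0 = ken x) (hx : ((697932185 : ℕ) : ℝ) / S ≤ x) (hx' : x ≤ (((697932185 : ℕ) : ℝ) + (42949674 : ℕ)) / S) :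
    TriA PP.cur (VE (h0 * 0) 3 κ (h0 * x) (eng.v x) (h0 * (3 / 40)) (tnt (h0 * x) (3 / 10)) (tbl tK x) (tbl tL x) (tbl (smT h0⁻¹ tC) x)) 1 3 3 0 4 1 (-1) :=
  (sideB hx hx').bothA (thrB hx hx') (en_pos (hx1 hx).le) (Or.inl rfl) (Or.inr rfl) fun y y' F =>
    bothA_cert (s1 := true) (s2 := false) rfl hκ (en_pos (hx1 hx).le) (esg_rng (hx1 hx).le (hx2 hx').le).1 (mo_v x) covB01 covB43 hx hx'
        Pool.Agent.Strip051.G.I6500_6900.Tab.C.BA04.c_pm_133 noCut_EA noExt_EA F trivial trivial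

theorem BA04_pm_202 {κ x : ℝ} (hκ : κ * h0 = ken x) (hx : ((697932185 : ℕ) : ℝ) / S ≤ x) (hx' : x ≤ (((697932185 : ℕ) : ℝ) + (42949674 : ℕ)) / S) :
    TriA PP.cur (VE (h0 * 0) 3 κ (h0 * x) (eng.v x) (h0 * (3 / 40)) (tnt (h0 * x) (3 / 10)) (tbl tK x) (tbl tL x) (tbl (smT h0⁻¹ tC) x)) 2 0 2 0 4 1 (-1) :=
  (sideB hx hx').bothA (thrB hx hx') (en_pos (hx1 hx).le) (Or.inl rfl) (Or.inr rfl) fun y y' F =>
    bothA_cert (s1 := true) (s2 := false) rfl hκ (en_pos (hx1 hx).le) (esg_rng (hx1 hx).le (hx2 hx').le).1 (mo_v x) covB02 covB40 hx hx'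
        Pool.Agent.Strip051.G.I6500_6900.Tab.C.BA04.c_pm_202 (cutEA_cons (Pool.Agent.Strip051.G.I6500_6900.Tab.altB_A202E_04 hκ hx hx') cutEA_nil) noExt_EA F trivial trivial

theorem BA04_pm_203 {κ x : ℝ} (hκ : κ * h0 = ken x) (hx : ((697932185 : ℕ) : ℝ) / S ≤ x) (hx' : x ≤ (((697932185 : ℕ) : ℝ) + (42949674 : ℕ)) / S) :
    TriA PP.cur (VE (h0 * 0) 3 κ (h0 * x) (eng.v x) (h0 * (3 / 40)) (tnt (h0 * x) (3 / 10)) (tbl tK x) (tbl tL x) (tbl (smT h0⁻¹ tC) x)) 2 0 3 0 4 1 (-1) :=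
  (sideB hx hx').bothA (thrB hx hx') (en_pos (hx1 hx).le) (Or.inl rfl) (Or.inr rfl) fun y y' F =>
    bothA_cert (s1 := true) (s2 := false) rfl hκ (en_pos (hx1 hx).le) (esg_rng (hx1 hx).le (hx2 hx').le).1 (mo_v x) covB02 covB40 hx hx'
        Pool.Agent.Strip051.G.I6500_6900.Tab.C.BA04.c_pm_203 noCut_EA noExt_EA F trivial trivial

theorem BA04_pm_213 {κ x : ℝ} (hκ : κ * h0 = ken x) (hx : ((697932185 : ℕ) : ℝ) / S ≤ x) (hx' : x ≤ (((697932185 : ℕ) : ℝ) + (42949674 : ℕ)) / S) :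
    TriA PP.cur (VE (h0 * 0) 3 κ (h0 * x) (eng.v x) (h0 * (3 / 40)) (tnt (h0 * x) (3 / 10)) (tbl tK x) (tbl tL x) (tbl (smT h0⁻¹ tC) x)) 2 1 3 0 4 1 (-1) :=
  (sideB hx hx').bothA (thrB hx hx') (en_pos (hx1 hx).le) (Or.inl rfl) (Or.inr rfl) fun y y' F =>
    bothA_cert (s1 := true) (s2 := false) rfl hκ (en_pos (hx1 hx).le) (esg_rng (hx1 hx).le (hx2 hx').le).1 (mo_v x) covB02 covB41 hx hx'
        Pool.Agent.Strip051.G.I6500_6900.Tab.C.BA04.c_pm_213 noCut_EA noExt_EA F trivial trivial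

theorem BA04_pm_303 {κ x : ℝ} (hκ : κ * h0 = ken x) (hx : ((697932185 : ℕ) : ℝ) / S ≤ x) (hx' : x ≤ (((697932185 : ℕ) : ℝ) + (42949674 : ℕ)) / S) :
    TriA PP.cur (VE (h0 * 0) 3 κ (h0 * x) (eng.v x) (h0 * (3 / 40)) (tnt (h0 * x) (3 / 10)) (tbl tK x) (tbl tL x) (tbl (smT h0⁻¹ tC) x)) 3 0 3 0 4 1 (-1) :=
  triA_j0

theorem BA04_pm_313 {κ x : ℝ} (hκ : κ * h0 = ken x) (hx : ((697932185 : ℕ) : ℝ) / S ≤ x) (hx' : x ≤ (((697932185 : ℕ) : ℝ) + (42949674 : ℕ)) / S) :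
    TriA PP.cur (VE (h0 * 0) 3 κ (h0 * x) (eng.v x) (h0 * (3 / 40)) (tnt (h0 * x) (3 / 10)) (tbl tK x) (tbl tL x) (tbl (smT h0⁻¹ tC) x)) 3 1 3 0 4 1 (-1) :=
  triA_j0

theorem BA04_mm_001 {κ x : ℝ} (hκ : κ * h0 = ken x) (hx : ((697932185 : ℕ) : ℝ) / S ≤ x) (hx' : x ≤ (((697932185 : ℕ) : ℝ) + (42949674 : ℕ)) / S) :
    TriA PP.cur (VE (h0 * 0) 3 κ (h0 * x) (eng.v x) (h0 * (3 / 40)) (tnt (h0 * x) (3 / 10)) (tbl tK x) (tbl tL x) (tbl (smT h0⁻¹ tC) x)) 0 0 1 0 4 (-1) (-1) :=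
  (sideB hx hx').bothA (thrB hx hx') (en_pos (hx1 hx).le) (Or.inr rfl) (Or.inr rfl) fun y y' F =>
    bothA_cert (s1 := false) (s2 := false) rfl hκ (en_pos (hx1 hx).le) (esg_rng (hx1 hx).le (hx2 hx').le).1 (mo_v x) covB00 covB40 hx hx'
        Pool.Agent.Strip051.G.I6500_6900.Tab.C.BA04.c_mm_001 noCut_EA noExt_EA F trivial trivial

theorem BA04_mm_011 {κ x : ℝ} (hκ : κ * h0 = ken x) (hx : ((697932185 : ℕ) : ℝ) / S ≤ x) (hx' : x ≤ (((697932185 : ℕ) : ℝ) + (42949674 : ℕ)) / S) :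
    TriA PP.cur (VE (h0 * 0) 3 κ (h0 * x) (eng.v x) (h0 * (3 / 40)) (tnt (h0 * x) (3 / 10)) (tbl tK x) (tbl tL x) (tbl (smT h0⁻¹ tC) x)) 0 1 1 0 4 (-1) (-1) :=
  (sideB hx hx').bothA (thrB hx hx') (en_pos (hx1 hx).le) (Or.inr rfl) (Or.inr rfl) fun y y' F =>
    bothA_cert (s1 := false) (s2 := false) rfl hκ (en_pos (hx1 hx).le) (esg_rng (hx1 hx).le (hx2 hx').le).1 (mo_v x) covB00 covB41 hx hx'
        Pool.Agent.Strip051.G.I6500_6900.Tab.C.BA04.c_mm_011 noCut_EA noExt_EA F trivial trivial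

theorem BA04_mm_012 {κ x : ℝ} (hκ : κ * h0 = ken x) (hx : ((697932185 : ℕ) : ℝ) / S ≤ x) (hx' : x ≤ (((697932185 : ℕ) : ℝ) + (42949674 : ℕ)) / S) :
    TriA PP.cur (VE (h0 * 0) 3 κ (h0 * x) (eng.v x) (h0 * (3 / 40)) (tnt (h0 * x) (3 / 10)) (tbl tK x) (tbl tL x) (tbl (smT h0⁻¹ tC) x)) 0 1 2 0 4 (-1) (-1) :=
  (sideB hx hx').bothA (thrB hx hx') (en_pos (hx1 hx).le) (Or.inr rfl) (Or.inr rfl) fun y y' F =>
    bothA_cert (s1 := false) (s2 := false) rfl hκ (en_pos (hx1 hx).le) (esg_rng (hx1 hx).le (hx2 hx').le).1 (mo_v x) covB00 covB41 hx hx'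
        Pool.Agent.Strip051.G.I6500_6900.Tab.C.BA04.c_mm_012 noCut_EA noExt_EA F trivial trivial

theorem BA04_mm_022 {κ x : ℝ} (hκ : κ * h0 = ken x) (hx : ((697932185 : ℕ) : ℝ) / S ≤ x) (hx' : x ≤ (((697932185 : ℕ) : ℝ) + (42949674 : ℕ)) / S) :
    TriA PP.cur (VE (h0 * 0) 3 κ (h0 * x) (eng.v x) (h0 * (3 / 40)) (tnt (h0 * x) (3 / 10)) (tbl tK x) (tbl tL x) (tbl (smT h0⁻¹ tC) x)) 0 2 2 0 4 (-1) (-1) :=
  (sideB hx hx').bothA (thrB hx hx') (en_pos (hx1 hx).le) (Or.inr rfl) (Or.inr rfl) fun y y' F =>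
    (lt_or_ge (h0 * y') 1).elim
      (fun g => bothA_cert (s1 := false) (s2 := false) rfl hκ (en_pos (hx1 hx).le) (esg_rng (hx1 hx).le (hx2 hx').le).1 (mo_v x) covB00 covB42a hx hx'
        Pool.Agent.Strip051.G.I6500_6900.Tab.C.BA04.c_mm_022_a noCut_EA noExt_EA F trivial g)
      (fun g => bothA_cert (s1 := false) (s2 := false) rfl hκ (en_pos (hx1 hx).le) (esg_rng (hx1 hx).le (hx2 hx').le).1 (mo_v x) covB00 covB42b hx hx'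
        Pool.Agent.Strip051.G.I6500_6900.Tab.C.BA04.c_mm_022_b noCut_EA noExt_EA F trivial g)

theorem BA04_mm_023 {κ x : ℝ} (hκ : κ * h0 = ken x) (hx : ((697932185 : ℕ) : ℝ) / S ≤ x) (hx' : x ≤ (((697932185 : ℕ) : ℝ) + (42949674 : ℕ)) / S) :
    TriA PP.cur (VE (h0 * 0) 3 κ (h0 * x) (eng.v x) (h0 * (3 / 40)) (tnt (h0 * x) (3 / 10)) (tbl tK x) (tbl tL x) (tbl (smT h0⁻¹ tC) x)) 0 2 3 0 4 (-1) (-1) :=
  (sideB hx hx').bothA (thrB hx hx') (en_pos (hx1 hx).le) (Or.inr rfl) (Or.inr rfl) fun y y' F =>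
    (lt_or_ge (h0 * y') 1).elim
      (fun g => bothA_cert (s1 := false) (s2 := false) rfl hκ (en_pos (hx1 hx).le) (esg_rng (hx1 hx).le (hx2 hx').le).1 (mo_v x) covB00 covB42a hx hx'
        Pool.Agent.Strip051.G.I6500_6900.Tab.C.BA04.c_mm_023_a noCut_EA noExt_EA F trivial g)
      (fun g => bothA_cert (s1 := false) (s2 := false) rfl hκ (en_pos (hx1 hx).le) (esg_rng (hx1 hx).le (hx2 hx').le).1 (mo_v x) covB00 covB42b hx hx'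
        Pool.Agent.Strip051.G.I6500_6900.Tab.C.BA04.c_mm_023_b noCut_EA noExt_EA F trivial g)

theorem BA04_mm_033 {κ x : ℝ} (hκ : κ * h0 = ken x) (hx : ((697932185 : ℕ) : ℝ) / S ≤ x) (hx' : x ≤ (((697932185 : ℕ) : ℝ) + (42949674 : ℕ)) / S) :
    TriA PP.cur (VE (h0 * 0) 3 κ (h0 * x) (eng.v x) (h0 * (3 / 40)) (tnt (h0 * x) (3 / 10)) (tbl tK x) (tbl tL x) (tbl (smT h0⁻¹ tC) x)) 0 3 3 0 4 (-1) (-1) :=
  (sideB hx hx').bothA (thrB hx hx') (en_pos (hx1 hx).le) (Or.inr rfl) (Or.inr rfl) fun y y' F =>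
    bothA_cert (s1 := false) (s2 := false) rfl hκ (en_pos (hx1 hx).le) (esg_rng (hx1 hx).le (hx2 hx').le).1 (mo_v x) covB00 covB43 hx hx'
        Pool.Agent.Strip051.G.I6500_6900.Tab.C.BA04.c_mm_033 noCut_EA noExt_EA F trivial trivial

theorem BA04_mm_101 {κ x : ℝ} (hκ : κ * h0 = ken x) (hx : ((697932185 : ℕ) : ℝ) / S ≤ x) (hx' : x ≤ (((697932185 : ℕ) : ℝ) + (42949674 : ℕ)) / S) :
    TriA PP.cur (VE (h0 * 0) 3 κ (h0 * x) (eng.v x) (h0 * (3 / 40)) (tnt (h0 * x) (3 / 10)) (tbl tK x) (tbl tL x) (tbl (smT h0⁻¹ tC) x)) 1 0 1 0 4 (-1) (-1) :=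
  (sideB hx hx').bothA (thrB hx hx') (en_pos (hx1 hx).le) (Or.inr rfl) (Or.inr rfl) fun y y' F =>
    bothA_cert (s1 := false) (s2 := false) rfl hκ (en_pos (hx1 hx).le) (esg_rng (hx1 hx).le (hx2 hx').le).1 (mo_v x) covB01 covB40 hx hx'
        Pool.Agent.Strip051.G.I6500_6900.Tab.C.BA04.c_mm_101 (cutEA_cons (Pool.Agent.Strip051.G.I6500_6900.Tab.altB_A101R_04 hκ hx hx') cutEA_nil) noExt_EA F trivial trivial

theorem BA04_mm_102 {κ x : ℝ} (hκ : κ * h0 = ken x) (hx : ((697932185 : ℕ) : ℝ) / S ≤ x) (hx' : x ≤ (((697932185 : ℕ) : ℝ) + (42949674 : ℕ)) / S) :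
    TriA PP.cur (VE (h0 * 0) 3 κ (h0 * x) (eng.v x) (h0 * (3 / 40)) (tnt (h0 * x) (3 / 10)) (tbl tK x) (tbl tL x) (tbl (smT h0⁻¹ tC) x)) 1 0 2 0 4 (-1) (-1) :=
  (sideB hx hx').bothA (thrB hx hx') (en_pos (hx1 hx).le) (Or.inr rfl) (Or.inr rfl) fun y y' F =>
    bothA_cert (s1 := false) (s2 := false) rfl hκ (en_pos (hx1 hx).le) (esg_rng (hx1 hx).le (hx2 hx').le).1 (mo_v x) covB01 covB40 hx hx'
        Pool.Agent.Strip051.G.I6500_6900.Tab.C.BA04.c_mm_102 (cutEA_cons (Pool.Agent.Strip051.G.I6500_6900.Tab.altB_A102R_04 hκ hx hx') cutEA_nil) noExt_EA F trivial trivial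

theorem BA04_mm_112 {κ x : ℝ} (hκ : κ * h0 = ken x) (hx : ((697932185 : ℕ) : ℝ) / S ≤ x) (hx' : x ≤ (((697932185 : ℕ) : ℝ) + (42949674 : ℕ)) / S) :
    TriA PP.cur (VE (h0 * 0) 3 κ (h0 * x) (eng.v x) (h0 * (3 / 40)) (tnt (h0 * x) (3 / 10)) (tbl tK x) (tbl tL x) (tbl (smT h0⁻¹ tC) x)) 1 1 2 0 4 (-1) (-1) :=
  (sideB hx hx').bothA (thrB hx hx') (en_pos (hx1 hx).le) (Or.inr rfl) (Or.inr rfl) fun y y' F =>
    bothA_cert (s1 := false) (s2 := false) rfl hκ (en_pos (hx1 hx).le) (esg_rng (hx1 hx).le (hx2 hx').le).1 (mo_v x) covB01 covB41 hx hx'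
        Pool.Agent.Strip051.G.I6500_6900.Tab.C.BA04.c_mm_112 noCut_EA noExt_EA F trivial trivial

theorem BA04_mm_113 {κ x : ℝ} (hκ : κ * h0 = ken x) (hx : ((697932185 : ℕ) : ℝ) / S ≤ x) (hx' : x ≤ (((697932185 : ℕ) : ℝ) + (42949674 : ℕ)) / S) :
    TriA PP.cur (VE (h0 * 0) 3 κ (h0 * x) (eng.v x) (h0 * (3 / 40)) (tnt (h0 * x) (3 / 10)) (tbl tK x) (tbl tL x) (tbl (smT h0⁻¹ tC) x)) 1 1 3 0 4 (-1) (-1) :=
  (sideB hx hx').bothA (thrB hx hx') (en_pos (hx1 hx).le) (Or.inr rfl) (Or.inr rfl) fun y y' F =>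
    bothA_cert (s1 := false) (s2 := false) rfl hκ (en_pos (hx1 hx).le) (esg_rng (hx1 hx).le (hx2 hx').le).1 (mo_v x) covB01 covB41 hx hx'
        Pool.Agent.Strip051.G.I6500_6900.Tab.C.BA04.c_mm_113 noCut_EA noExt_EA F trivial trivial

theorem BA04_mm_123 {κ x : ℝ} (hκ : κ * h0 = ken x) (hx : ((697932185 : ℕ) : ℝ) / S ≤ x) (hx' : x ≤ (((697932185 : ℕ) : ℝ) + (42949674 : ℕ)) / S) :
    TriA PP.cur (VE (h0 * 0) 3 κ (h0 * x) (eng.v x) (h0 * (3 / 40)) (tnt (h0 * x) (3 / 10)) (tbl tK x) (tbl tL x) (tbl (smT h0⁻¹ tC) x)) 1 2 3 0 4 (-1) (-1) :=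
  (sideB hx hx').bothA (thrB hx hx') (en_pos (hx1 hx).le) (Or.inr rfl) (Or.inr rfl) fun y y' F =>
    (lt_or_ge (h0 * y') 1).elim
      (fun g => bothA_cert (s1 := false) (s2 := false) rfl hκ (en_pos (hx1 hx).le) (esg_rng (hx1 hx).le (hx2 hx').le).1 (mo_v x) covB01 covB42a hx hx'
        Pool.Agent.Strip051.G.I6500_6900.Tab.C.BA04.c_mm_123_a noCut_EA noExt_EA F trivial g)
      (fun g => bothA_cert (s1 := false) (s2 := false) rfl hκ (en_pos (hx1 hx).le) (esg_rng (hx1 hx).le (hx2 hx').le).1 (mo_v x) covB01 covB42b hx hx'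
        Pool.Agent.Strip051.G.I6500_6900.Tab.C.BA04.c_mm_123_b noCut_EA noExt_EA F trivial g)

theorem BA04_mm_133 {κ x : ℝ} (hκ : κ * h0 = ken x) (hx : ((697932185 : ℕ) : ℝ) / S ≤ x) (hx' : x ≤ (((697932185 : ℕ) : ℝ) + (42949674 : ℕ)) / S) :
    TriA PP.cur (VE (h0 * 0) 3 κ (h0 * x) (eng.v x) (h0 * (3 / 40)) (tnt (h0 * x) (3 / 10)) (tbl tK x) (tbl tL x) (tbl (smT h0⁻¹ tC) x)) 1 3 3 0 4 (-1) (-1) :=
  (sideB hx hx').bothA (thrB hx hx') (en_pos (hx1 hx).le) (Or.inr rfl) (Or.inr rfl) fun y y' F =>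
    bothA_cert (s1 := false) (s2 := false) rfl hκ (en_pos (hx1 hx).le) (esg_rng (hx1 hx).le (hx2 hx').le).1 (mo_v x) covB01 covB43 hx hx'
        Pool.Agent.Strip051.G.I6500_6900.Tab.C.BA04.c_mm_133 noCut_EA noExt_EA F trivial trivial

theorem BA04_mm_202 {κ x : ℝ} (hκ : κ * h0 = ken x) (hx : ((697932185 : ℕ) : ℝ) / S ≤ x) (hx' : x ≤ (((697932185 : ℕ) : ℝ) + (42949674 : ℕ)) / S) :
    TriA PP.cur (VE (h0 * 0) 3 κ (h0 * x) (eng.v x) (h0 * (3 / 40)) (tnt (h0 * x) (3 / 10)) (tbl tK x) (tbl tL x) (tbl (smT h0⁻¹ tC) x)) 2 0 2 0 4 (-1) (-1) :=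
  (sideB hx hx').bothA (thrB hx hx') (en_pos (hx1 hx).le) (Or.inr rfl) (Or.inr rfl) fun y y' F =>
    bothA_cert (s1 := false) (s2 := false) rfl hκ (en_pos (hx1 hx).le) (esg_rng (hx1 hx).le (hx2 hx').le).1 (mo_v x) covB02 covB40 hx hx'
        Pool.Agent.Strip051.G.I6500_6900.Tab.C.BA04.c_mm_202 (cutEA_cons (Pool.Agent.Strip051.G.I6500_6900.Tab.altB_A202R_04 hκ hx hx') cutEA_nil) noExt_EA F trivial trivial

theorem BA04_mm_203 {κ x : ℝ} (hκ : κ * h0 = ken x) (hx : ((697932185 : ℕ) : ℝ) / S ≤ x) (hx' : x ≤ (((697932185 : ℕ) : ℝ) + (42949674 : ℕ)) / S) :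
    TriA PP.cur (VE (h0 * 0) 3 κ (h0 * x) (eng.v x) (h0 * (3 / 40)) (tnt (h0 * x) (3 / 10)) (tbl tK x) (tbl tL x) (tbl (smT h0⁻¹ tC) x)) 2 0 3 0 4 (-1) (-1) :=
  (sideB hx hx').bothA (thrB hx hx') (en_pos (hx1 hx).le) (Or.inr rfl) (Or.inr rfl) fun y y' F =>
    bothA_cert (s1 := false) (s2 := false) rfl hκ (en_pos (hx1 hx).le) (esg_rng (hx1 hx).le (hx2 hx').le).1 (mo_v x) covB02 covB40 hx hx'
        Pool.Agent.Strip051.G.I6500_6900.Tab.C.BA04.c_mm_203 noCut_EA noExt_EA F trivial trivial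

theorem BA04_mm_213 {κ x : ℝ} (hκ : κ * h0 = ken x) (hx : ((697932185 : ℕ) : ℝ) / S ≤ x) (hx' : x ≤ (((697932185 : ℕ) : ℝ) + (42949674 : ℕ)) / S) :
    TriA PP.cur (VE (h0 * 0) 3 κ (h0 * x) (eng.v x) (h0 * (3 / 40)) (tnt (h0 * x) (3 / 10)) (tbl tK x) (tbl tL x) (tbl (smT h0⁻¹ tC) x)) 2 1 3 0 4 (-1) (-1) :=
  (sideB hx hx').bothA (thrB hx hx') (en_pos (hx1 hx).le) (Or.inr rfl) (Or.inr rfl) fun y y' F =>
    bothA_cert (s1 := false) (s2 := false) rfl hκ (en_pos (hx1 hx).le) (esg_rng (hx1 hx).le (hx2 hx').le).1 (mo_v x) covB02 covB41 hx hx'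
        Pool.Agent.Strip051.G.I6500_6900.Tab.C.BA04.c_mm_213 noCut_EA noExt_EA F trivial trivial

theorem BA04_mm_303 {κ x : ℝ} (hκ : κ * h0 = ken x) (hx : ((697932185 : ℕ) : ℝ) / S ≤ x) (hx' : x ≤ (((697932185 : ℕ) : ℝ) + (42949674 : ℕ)) / S) :
    TriA PP.cur (VE (h0 * 0) 3 κ (h0 * x) (eng.v x) (h0 * (3 / 40)) (tnt (h0 * x) (3 / 10)) (tbl tK x) (tbl tL x) (tbl (smT h0⁻¹ tC) x)) 3 0 3 0 4 (-1) (-1) :=
  triA_j0

theorem BA04_mm_313 {κ x : ℝ} (hκ : κ * h0 = ken x) (hx : ((697932185 : ℕ) : ℝ) / S ≤ x) (hx' : x ≤ (((697932185 : ℕ) : ℝ) + (42949674 : ℕ)) / S) :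
    TriA PP.cur (VE (h0 * 0) 3 κ (h0 * x) (eng.v x) (h0 * (3 / 40)) (tnt (h0 * x) (3 / 10)) (tbl tK x) (tbl tL x) (tbl (smT h0⁻¹ tC) x)) 3 1 3 0 4 (-1) (-1) :=
  triA_j0

theorem BA04 {κ x : ℝ} (hκ : κ * h0 = ken x) (hx : ((697932185 : ℕ) : ℝ) / S ≤ x) (hx' : x ≤ (((697932185 : ℕ) : ℝ) + (42949674 : ℕ)) / S) : AllTA PP.cur (VE (h0 * 0) 3 κ (h0 * x) (eng.v x) (h0 * (3 / 40)) (tnt (h0 * x) (3 / 10)) (tbl tK x) (tbl tL x) (tbl (smT h0⁻¹ tC) x)) 0 4 where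
  pp := all17 (Q := fun a b c => TriA PP.cur (VE (h0 * 0) 3 κ (h0 * x) (eng.v x) (h0 * (3 / 40)) (tnt (h0 * x) (3 / 10)) (tbl tK x) (tbl tL x) (tbl (smT h0⁻¹ tC) x)) a b c 0 4 1 1)
    (BA04_pp_001 hκ hx hx') (BA04_pp_011 hκ hx hx') (BA04_pp_012 hκ hx hx') (BA04_pp_022 hκ hx hx') (BA04_pp_023 hκ hx hx') (BA04_pp_033 hκ hx hx') (BA04_pp_101 hκ hx hx') (BA04_pp_102 hκ hx hx') (BA04_pp_112 hκ hx hx') (BA04_pp_113 hκ hx hx') (BA04_pp_123 hκ hx hx') (BA04_pp_133 hκ hx hx') (BA04_pp_202 hκ hx hx') (BA04_pp_203 hκ hx hx') (BA04_pp_213 hκ hx hx') (BA04_pp_303 hκ hx hx') (BA04_pp_313 hκ hx hx')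
  pm := all17 (Q := fun a b c => TriA PP.cur (VE (h0 * 0) 3 κ (h0 * x) (eng.v x) (h0 * (3 / 40)) (tnt (h0 * x) (3 / 10)) (tbl tK x) (tbl tL x) (tbl (smT h0⁻¹ tC) x)) a b c 0 4 1 (-1))
    (BA04_pm_001 hκ hx hx') (BA04_pm_011 hκ hx hx') (BA04_pm_012 hκ hx hx') (BA04_pm_022 hκ hx hx') (BA04_pm_023 hκ hx hx') (BA04_pm_033 hκ hx hx') (BA04_pm_101 hκ hx hx') (BA04_pm_102 hκ hx hx') (BA04_pm_112 hκ hx hx') (BA04_pm_113 hκ hx hx') (BA04_pm_123 hκ hx hx') (BA04_pm_133 hκ hx hx') (BA04_pm_202 hκ hx hx') (BA04_pm_203 hκ hx hx') (BA04_pm_213 hκ hx hx') (BA04_pm_303 hκ hx hx') (BA04_pm_313 hκ hx hx')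
  mm := all17 (Q := fun a b c => TriA PP.cur (VE (h0 * 0) 3 κ (h0 * x) (eng.v x) (h0 * (3 / 40)) (tnt (h0 * x) (3 / 10)) (tbl tK x) (tbl tL x) (tbl (smT h0⁻¹ tC) x)) a b c 0 4 (-1) (-1))
    (BA04_mm_001 hκ hx hx') (BA04_mm_011 hκ hx hx') (BA04_mm_012 hκ hx hx') (BA04_mm_022 hκ hx hx') (BA04_mm_023 hκ hx hx') (BA04_mm_033 hκ hx hx') (BA04_mm_101 hκ hx hx') (BA04_mm_102 hκ hx hx') (BA04_mm_112 hκ hx hx') (BA04_mm_113 hκ hx hx') (BA04_mm_123 hκ hx hx') (BA04_mm_133 hκ hx hx') (BA04_mm_202 hκ hx hx') (BA04_mm_203 hκ hx hx') (BA04_mm_213 hκ hx hx') (BA04_mm_303 hκ hx hx') (BA04_mm_313 hκ hx hx')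

theorem BA05_pp_001 {κ x : ℝ} (hκ : κ * h0 = ken x) (hx : ((697932185 : ℕ) : ℝ) / S ≤ x) (hx' : x ≤ (((697932185 : ℕ) : ℝ) + (42949674 : ℕ)) / S) :
    TriA PP.cur (VE (h0 * 0) 3 κ (h0 * x) (eng.v x) (h0 * (3 / 40)) (tnt (h0 * x) (3 / 10)) (tbl tK x) (tbl tL x) (tbl (smT h0⁻¹ tC) x)) 0 0 1 0 5 1 1 :=
  (sideB hx hx').bothA (thrB hx hx') (en_pos (hx1 hx).le) (Or.inl rfl) (Or.inl rfl) fun y y' F =>
    bothA_cert (s1 := true) (s2 := true) rfl hκ (en_pos (hx1 hx).le) (esg_rng (hx1 hx).le (hx2 hx').le).1 (mo_v x) covB00 covB50 hx hx'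
        Pool.Agent.Strip051.G.I6500_6900.Tab.C.BA05.c_pp_001 noCut_EA noExt_EA F trivial trivial

theorem BA05_pp_011 {κ x : ℝ} (hκ : κ * h0 = ken x) (hx : ((697932185 : ℕ) : ℝ) / S ≤ x) (hx' : x ≤ (((697932185 : ℕ) : ℝ) + (42949674 : ℕ)) / S) :
    TriA PP.cur (VE (h0 * 0) 3 κ (h0 * x) (eng.v x) (h0 * (3 / 40)) (tnt (h0 * x) (3 / 10)) (tbl tK x) (tbl tL x) (tbl (smT h0⁻¹ tC) x)) 0 1 1 0 5 1 1 :=
  (sideB hx hx').bothA (thrB hx hx') (en_pos (hx1 hx).le) (Or.inl rfl) (Or.inl rfl) fun y y' F =>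
    bothA_cert (s1 := true) (s2 := true) rfl hκ (en_pos (hx1 hx).le) (esg_rng (hx1 hx).le (hx2 hx').le).1 (mo_v x) covB00 covB51 hx hx'
        Pool.Agent.Strip051.G.I6500_6900.Tab.C.BA05.c_pp_011 noCut_EA noExt_EA F trivial trivial

theorem BA05_pp_012 {κ x : ℝ} (hκ : κ * h0 = ken x) (hx : ((697932185 : ℕ) : ℝ) / S ≤ x) (hx' : x ≤ (((697932185 : ℕ) : ℝ) + (42949674 : ℕ)) / S) :
    TriA PP.cur (VE (h0 * 0) 3 κ (h0 * x) (eng.v x) (h0 * (3 / 40)) (tnt (h0 * x) (3 / 10)) (tbl tK x) (tbl tL x) (tbl (smT h0⁻¹ tC) x)) 0 1 2 0 5 1 1 :=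
  (sideB hx hx').bothA (thrB hx hx') (en_pos (hx1 hx).le) (Or.inl rfl) (Or.inl rfl) fun y y' F =>
    bothA_cert (s1 := true) (s2 := true) rfl hκ (en_pos (hx1 hx).le) (esg_rng (hx1 hx).le (hx2 hx').le).1 (mo_v x) covB00 covB51 hx hx'
        Pool.Agent.Strip051.G.I6500_6900.Tab.C.BA05.c_pp_012 noCut_EA noExt_EA F trivial trivial

theorem BA05_pp_022 {κ x : ℝ} (hκ : κ * h0 = ken x) (hx : ((697932185 : ℕ) : ℝ) / S ≤ x) (hx' : x ≤ (((697932185 : ℕ) : ℝ) + (42949674 : ℕ)) / S) :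
    TriA PP.cur (VE (h0 * 0) 3 κ (h0 * x) (eng.v x) (h0 * (3 / 40)) (tnt (h0 * x) (3 / 10)) (tbl tK x) (tbl tL x) (tbl (smT h0⁻¹ tC) x)) 0 2 2 0 5 1 1 :=
  (sideB hx hx').bothA (thrB hx hx') (en_pos (hx1 hx).le) (Or.inl rfl) (Or.inl rfl) fun y y' F =>
    bothA_cert (s1 := true) (s2 := true) rfl hκ (en_pos (hx1 hx).le) (esg_rng (hx1 hx).le (hx2 hx').le).1 (mo_v x) covB00 covB52 hx hx'
        Pool.Agent.Strip051.G.I6500_6900.Tab.C.BA05.c_pp_022 noCut_EA noExt_EA F trivial trivial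

theorem BA05_pp_023 {κ x : ℝ} (hκ : κ * h0 = ken x) (hx : ((697932185 : ℕ) : ℝ) / S ≤ x) (hx' : x ≤ (((697932185 : ℕ) : ℝ) + (42949674 : ℕ)) / S) :
    TriA PP.cur (VE (h0 * 0) 3 κ (h0 * x) (eng.v x) (h0 * (3 / 40)) (tnt (h0 * x) (3 / 10)) (tbl tK x) (tbl tL x) (tbl (smT h0⁻¹ tC) x)) 0 2 3 0 5 1 1 :=
  (sideB hx hx').bothA (thrB hx hx') (en_pos (hx1 hx).le) (Or.inl rfl) (Or.inl rfl) fun y y' F =>
    bothA_cert (s1 := true) (s2 := true) rfl hκ (en_pos (hx1 hx).le) (esg_rng (hx1 hx).le (hx2 hx').le).1 (mo_v x) covB00 covB52 hx hx'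
        Pool.Agent.Strip051.G.I6500_6900.Tab.C.BA05.c_pp_023 noCut_EA noExt_EA F trivial trivial

theorem BA05_pp_033 {κ x : ℝ} (hκ : κ * h0 = ken x) (hx : ((697932185 : ℕ) : ℝ) / S ≤ x) (hx' : x ≤ (((697932185 : ℕ) : ℝ) + (42949674 : ℕ)) / S) :
    TriA PP.cur (VE (h0 * 0) 3 κ (h0 * x) (eng.v x) (h0 * (3 / 40)) (tnt (h0 * x) (3 / 10)) (tbl tK x) (tbl tL x) (tbl (smT h0⁻¹ tC) x)) 0 3 3 0 5 1 1 :=
  (sideB hx hx').bothA (thrB hx hx') (en_pos (hx1 hx).le) (Or.inl rfl) (Or.inl rfl) fun y y' F =>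
    bothA_cert (s1 := true) (s2 := true) rfl hκ (en_pos (hx1 hx).le) (esg_rng (hx1 hx).le (hx2 hx').le).1 (mo_v x) covB00 covB53 hx hx'
        Pool.Agent.Strip051.G.I6500_6900.Tab.C.BA05.c_pp_033 noCut_EA noExt_EA F trivial trivial

theorem BA05_pp_101 {κ x : ℝ} (hκ : κ * h0 = ken x) (hx : ((697932185 : ℕ) : ℝ) / S ≤ x) (hx' : x ≤ (((697932185 : ℕ) : ℝ) + (42949674 : ℕ)) / S) :
    TriA PP.cur (VE (h0 * 0) 3 κ (h0 * x) (eng.v x) (h0 * (3 / 40)) (tnt (h0 * x) (3 / 10)) (tbl tK x) (tbl tL x) (tbl (smT h0⁻¹ tC) x)) 1 0 1 0 5 1 1 :=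
  (sideB hx hx').bothA (thrB hx hx') (en_pos (hx1 hx).le) (Or.inl rfl) (Or.inl rfl) fun y y' F =>
    bothA_cert (s1 := true) (s2 := true) rfl hκ (en_pos (hx1 hx).le) (esg_rng (hx1 hx).le (hx2 hx').le).1 (mo_v x) covB01 covB50 hx hx'
        Pool.Agent.Strip051.G.I6500_6900.Tab.C.BA05.c_pp_101 noCut_EA noExt_EA F trivial trivial

theorem BA05_pp_102 {κ x : ℝ} (hκ : κ * h0 = ken x) (hx : ((697932185 : ℕ) : ℝ) / S ≤ x) (hx' : x ≤ (((697932185 : ℕ) : ℝ) + (42949674 : ℕ)) / S) :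
    TriA PP.cur (VE (h0 * 0) 3 κ (h0 * x) (eng.v x) (h0 * (3 / 40)) (tnt (h0 * x) (3 / 10)) (tbl tK x) (tbl tL x) (tbl (smT h0⁻¹ tC) x)) 1 0 2 0 5 1 1 :=
  (sideB hx hx').bothA (thrB hx hx') (en_pos (hx1 hx).le) (Or.inl rfl) (Or.inl rfl) fun y y' F =>
    bothA_cert (s1 := true) (s2 := true) rfl hκ (en_pos (hx1 hx).le) (esg_rng (hx1 hx).le (hx2 hx').le).1 (mo_v x) covB01 covB50 hx hx'
        Pool.Agent.Strip051.G.I6500_6900.Tab.C.BA05.c_pp_102 noCut_EA noExt_EA F trivial trivial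

theorem BA05_pp_112 {κ x : ℝ} (hκ : κ * h0 = ken x) (hx : ((697932185 : ℕ) : ℝ) / S ≤ x) (hx' : x ≤ (((697932185 : ℕ) : ℝ) + (42949674 : ℕ)) / S) :
    TriA PP.cur (VE (h0 * 0) 3 κ (h0 * x) (eng.v x) (h0 * (3 / 40)) (tnt (h0 * x) (3 / 10)) (tbl tK x) (tbl tL x) (tbl (smT h0⁻¹ tC) x)) 1 1 2 0 5 1 1 :=
  (sideB hx hx').bothA (thrB hx hx') (en_pos (hx1 hx).le) (Or.inl rfl) (Or.inl rfl) fun y y' F =>
    bothA_cert (s1 := true) (s2 := true) rfl hκ (en_pos (hx1 hx).le) (esg_rng (hx1 hx).le (hx2 hx').le).1 (mo_v x) covB01 covB51 hx hx'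
        Pool.Agent.Strip051.G.I6500_6900.Tab.C.BA05.c_pp_112 noCut_EA noExt_EA F trivial trivial

theorem BA05_pp_113 {κ x : ℝ} (hκ : κ * h0 = ken x) (hx : ((697932185 : ℕ) : ℝ) / S ≤ x) (hx' : x ≤ (((697932185 : ℕ) : ℝ) + (42949674 : ℕ)) / S) :
    TriA PP.cur (VE (h0 * 0) 3 κ (h0 * x) (eng.v x) (h0 * (3 / 40)) (tnt (h0 * x) (3 / 10)) (tbl tK x) (tbl tL x) (tbl (smT h0⁻¹ tC) x)) 1 1 3 0 5 1 1 :=
  (sideB hx hx').bothA (thrB hx hx') (en_pos (hx1 hx).le) (Or.inl rfl) (Or.inl rfl) fun y y' F =>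
    bothA_cert (s1 := true) (s2 := true) rfl hκ (en_pos (hx1 hx).le) (esg_rng (hx1 hx).le (hx2 hx').le).1 (mo_v x) covB01 covB51 hx hx'
        Pool.Agent.Strip051.G.I6500_6900.Tab.C.BA05.c_pp_113 noCut_EA noExt_EA F trivial trivial

theorem BA05_pp_123 {κ x : ℝ} (hκ : κ * h0 = ken x) (hx : ((697932185 : ℕ) : ℝ) / S ≤ x) (hx' : x ≤ (((697932185 : ℕ) : ℝ) + (42949674 : ℕ)) / S) :
    TriA PP.cur (VE (h0 * 0) 3 κ (h0 * x) (eng.v x) (h0 * (3 / 40)) (tnt (h0 * x) (3 / 10)) (tbl tK x) (tbl tL x) (tbl (smT h0⁻¹ tC) x)) 1 2 3 0 5 1 1 :=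
  (sideB hx hx').bothA (thrB hx hx') (en_pos (hx1 hx).le) (Or.inl rfl) (Or.inl rfl) fun y y' F =>
    bothA_cert (s1 := true) (s2 := true) rfl hκ (en_pos (hx1 hx).le) (esg_rng (hx1 hx).le (hx2 hx').le).1 (mo_v x) covB01 covB52 hx hx'
        Pool.Agent.Strip051.G.I6500_6900.Tab.C.BA05.c_pp_123 noCut_EA noExt_EA F trivial trivial

theorem BA05_pp_133 {κ x : ℝ} (hκ : κ * h0 = ken x) (hx : ((697932185 : ℕ) : ℝ) / S ≤ x) (hx' : x ≤ (((697932185 : ℕ) : ℝ) + (42949674 : ℕ)) / S) :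
    TriA PP.cur (VE (h0 * 0) 3 κ (h0 * x) (eng.v x) (h0 * (3 / 40)) (tnt (h0 * x) (3 / 10)) (tbl tK x) (tbl tL x) (tbl (smT h0⁻¹ tC) x)) 1 3 3 0 5 1 1 :=
  (sideB hx hx').bothA (thrB hx hx') (en_pos (hx1 hx).le) (Or.inl rfl) (Or.inl rfl) fun y y' F =>
    bothA_cert (s1 := true) (s2 := true) rfl hκ (en_pos (hx1 hx).le) (esg_rng (hx1 hx).le (hx2 hx').le).1 (mo_v x) covB01 covB53 hx hx'
        Pool.Agent.Strip051.G.I6500_6900.Tab.C.BA05.c_pp_133 noCut_EA noExt_EA F trivial trivial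

theorem BA05_pp_202 {κ x : ℝ} (hκ : κ * h0 = ken x) (hx : ((697932185 : ℕ) : ℝ) / S ≤ x) (hx' : x ≤ (((697932185 : ℕ) : ℝ) + (42949674 : ℕ)) / S) :
    TriA PP.cur (VE (h0 * 0) 3 κ (h0 * x) (eng.v x) (h0 * (3 / 40)) (tnt (h0 * x) (3 / 10)) (tbl tK x) (tbl tL x) (tbl (smT h0⁻¹ tC) x)) 2 0 2 0 5 1 1 :=
  (sideB hx hx').bothA (thrB hx hx') (en_pos (hx1 hx).le) (Or.inl rfl) (Or.inl rfl) fun y y' F =>
    bothA_cert (s1 := true) (s2 := true) rfl hκ (en_pos (hx1 hx).le) (esg_rng (hx1 hx).le (hx2 hx').le).1 (mo_v x) covB02 covB50 hx hx'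
        Pool.Agent.Strip051.G.I6500_6900.Tab.C.BA05.c_pp_202 noCut_EA noExt_EA F trivial trivial

theorem BA05_pp_203 {κ x : ℝ} (hκ : κ * h0 = ken x) (hx : ((697932185 : ℕ) : ℝ) / S ≤ x) (hx' : x ≤ (((697932185 : ℕ) : ℝ) + (42949674 : ℕ)) / S) :
    TriA PP.cur (VE (h0 * 0) 3 κ (h0 * x) (eng.v x) (h0 * (3 / 40)) (tnt (h0 * x) (3 / 10)) (tbl tK x) (tbl tL x) (tbl (smT h0⁻¹ tC) x)) 2 0 3 0 5 1 1 :=
  (sideB hx hx').bothA (thrB hx hx') (en_pos (hx1 hx).le) (Or.inl rfl) (Or.inl rfl) fun y y' F =>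
    bothA_cert (s1 := true) (s2 := true) rfl hκ (en_pos (hx1 hx).le) (esg_rng (hx1 hx).le (hx2 hx').le).1 (mo_v x) covB02 covB50 hx hx'
        Pool.Agent.Strip051.G.I6500_6900.Tab.C.BA05.c_pp_203 noCut_EA noExt_EA F trivial trivial

theorem BA05_pp_213 {κ x : ℝ} (hκ : κ * h0 = ken x) (hx : ((697932185 : ℕ) : ℝ) / S ≤ x) (hx' : x ≤ (((697932185 : ℕ) : ℝ) + (42949674 : ℕ)) / S) :
    TriA PP.cur (VE (h0 * 0) 3 κ (h0 * x) (eng.v x) (h0 * (3 / 40)) (tnt (h0 * x) (3 / 10)) (tbl tK x) (tbl tL x) (tbl (smT h0⁻¹ tC) x)) 2 1 3 0 5 1 1 :=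
  (sideB hx hx').bothA (thrB hx hx') (en_pos (hx1 hx).le) (Or.inl rfl) (Or.inl rfl) fun y y' F =>
    bothA_cert (s1 := true) (s2 := true) rfl hκ (en_pos (hx1 hx).le) (esg_rng (hx1 hx).le (hx2 hx').le).1 (mo_v x) covB02 covB51 hx hx'
        Pool.Agent.Strip051.G.I6500_6900.Tab.C.BA05.c_pp_213 noCut_EA noExt_EA F trivial trivial

theorem BA05_pp_303 {κ x : ℝ} (hκ : κ * h0 = ken x) (hx : ((697932185 : ℕ) : ℝ) / S ≤ x) (hx' : x ≤ (((697932185 : ℕ) : ℝ) + (42949674 : ℕ)) / S) :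
    TriA PP.cur (VE (h0 * 0) 3 κ (h0 * x) (eng.v x) (h0 * (3 / 40)) (tnt (h0 * x) (3 / 10)) (tbl tK x) (tbl tL x) (tbl (smT h0⁻¹ tC) x)) 3 0 3 0 5 1 1 :=
  triA_j0

theorem BA05_pp_313 {κ x : ℝ} (hκ : κ * h0 = ken x) (hx : ((697932185 : ℕ) : ℝ) / S ≤ x) (hx' : x ≤ (((697932185 : ℕ) : ℝ) + (42949674 : ℕ)) / S) :
    TriA PP.cur (VE (h0 * 0) 3 κ (h0 * x) (eng.v x) (h0 * (3 / 40)) (tnt (h0 * x) (3 / 10)) (tbl tK x) (tbl tL x) (tbl (smT h0⁻¹ tC) x)) 3 1 3 0 5 1 1 :=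
  triA_j0

theorem BA05_pm_001 {κ x : ℝ} (hκ : κ * h0 = ken x) (hx : ((697932185 : ℕ) : ℝ) / S ≤ x) (hx' : x ≤ (((697932185 : ℕ) : ℝ) + (42949674 : ℕ)) / S) :
    TriA PP.cur (VE (h0 * 0) 3 κ (h0 * x) (eng.v x) (h0 * (3 / 40)) (tnt (h0 * x) (3 / 10)) (tbl tK x) (tbl tL x) (tbl (smT h0⁻¹ tC) x)) 0 0 1 0 5 1 (-1) :=
  (sideB hx hx').bothA (thrB hx hx') (en_pos (hx1 hx).le) (Or.inl rfl) (Or.inr rfl) fun y y' F =>
    bothA_cert (s1 := true) (s2 := false) rfl hκ (en_pos (hx1 hx).le) (esg_rng (hx1 hx).le (hx2 hx').le).1 (mo_v x) covB00 covB50 hx hx'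
        Pool.Agent.Strip051.G.I6500_6900.Tab.C.BA05.c_pm_001 noCut_EA (xdA0 hκ hx hx' rfl) F trivial trivial

theorem BA05_pm_011 {κ x : ℝ} (hκ : κ * h0 = ken x) (hx : ((697932185 : ℕ) : ℝ) / S ≤ x) (hx' : x ≤ (((697932185 : ℕ) : ℝ) + (42949674 : ℕ)) / S) :
    TriA PP.cur (VE (h0 * 0) 3 κ (h0 * x) (eng.v x) (h0 * (3 / 40)) (tnt (h0 * x) (3 / 10)) (tbl tK x) (tbl tL x) (tbl (smT h0⁻¹ tC) x)) 0 1 1 0 5 1 (-1) :=
  (sideB hx hx').bothA (thrB hx hx') (en_pos (hx1 hx).le) (Or.inl rfl) (Or.inr rfl) fun y y' F =>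
    bothA_cert (s1 := true) (s2 := false) rfl hκ (en_pos (hx1 hx).le) (esg_rng (hx1 hx).le (hx2 hx').le).1 (mo_v x) covB00 covB51 hx hx'
        Pool.Agent.Strip051.G.I6500_6900.Tab.C.BA05.c_pm_011 (cutEA_cons (Pool.Agent.Strip051.G.I6500_6900.Tab.altB_A011R_05 hκ hx hx') cutEA_nil) noExt_EA F trivial trivial

theorem BA05_pm_012 {κ x : ℝ} (hκ : κ * h0 = ken x) (hx : ((697932185 : ℕ) : ℝ) / S ≤ x) (hx' : x ≤ (((697932185 : ℕ) : ℝ) + (42949674 : ℕ)) / S) :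
    TriA PP.cur (VE (h0 * 0) 3 κ (h0 * x) (eng.v x) (h0 * (3 / 40)) (tnt (h0 * x) (3 / 10)) (tbl tK x) (tbl tL x) (tbl (smT h0⁻¹ tC) x)) 0 1 2 0 5 1 (-1) :=
  (sideB hx hx').bothA (thrB hx hx') (en_pos (hx1 hx).le) (Or.inl rfl) (Or.inr rfl) fun y y' F =>
    bothA_cert (s1 := true) (s2 := false) rfl hκ (en_pos (hx1 hx).le) (esg_rng (hx1 hx).le (hx2 hx').le).1 (mo_v x) covB00 covB51 hx hx'
        Pool.Agent.Strip051.G.I6500_6900.Tab.C.BA05.c_pm_012 (cutEA_cons (Pool.Agent.Strip051.G.I6500_6900.Tab.altB_A012R_05 hκ hx hx') cutEA_nil) noExt_EA F trivial trivial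

theorem BA05_pm_022 {κ x : ℝ} (hκ : κ * h0 = ken x) (hx : ((697932185 : ℕ) : ℝ) / S ≤ x) (hx' : x ≤ (((697932185 : ℕ) : ℝ) + (42949674 : ℕ)) / S) :
    TriA PP.cur (VE (h0 * 0) 3 κ (h0 * x) (eng.v x) (h0 * (3 / 40)) (tnt (h0 * x) (3 / 10)) (tbl tK x) (tbl tL x) (tbl (smT h0⁻¹ tC) x)) 0 2 2 0 5 1 (-1) :=
  (sideB hx hx').bothA (thrB hx hx') (en_pos (hx1 hx).le) (Or.inl rfl) (Or.inr rfl) fun y y' F =>
    bothA_cert (s1 := true) (s2 := false) rfl hκ (en_pos (hx1 hx).le) (esg_rng (hx1 hx).le (hx2 hx').le).1 (mo_v x) covB00 covB52 hx hx'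
        Pool.Agent.Strip051.G.I6500_6900.Tab.C.BA05.c_pm_022 noCut_EA noExt_EA F trivial trivial

theorem BA05_pm_023 {κ x : ℝ} (hκ : κ * h0 = ken x) (hx : ((697932185 : ℕ) : ℝ) / S ≤ x) (hx' : x ≤ (((697932185 : ℕ) : ℝ) + (42949674 : ℕ)) / S) :
    TriA PP.cur (VE (h0 * 0) 3 κ (h0 * x) (eng.v x) (h0 * (3 / 40)) (tnt (h0 * x) (3 / 10)) (tbl tK x) (tbl tL x) (tbl (smT h0⁻¹ tC) x)) 0 2 3 0 5 1 (-1) :=
  (sideB hx hx').bothA (thrB hx hx') (en_pos (hx1 hx).le) (Or.inl rfl) (Or.inr rfl) fun y y' F =>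
    bothA_cert (s1 := true) (s2 := false) rfl hκ (en_pos (hx1 hx).le) (esg_rng (hx1 hx).le (hx2 hx').le).1 (mo_v x) covB00 covB52 hx hx'
        Pool.Agent.Strip051.G.I6500_6900.Tab.C.BA05.c_pm_023 noCut_EA noExt_EA F trivial trivial

theorem BA05_pm_033 {κ x : ℝ} (hκ : κ * h0 = ken x) (hx : ((697932185 : ℕ) : ℝ) / S ≤ x) (hx' : x ≤ (((697932185 : ℕ) : ℝ) + (42949674 : ℕ)) / S) :
    TriA PP.cur (VE (h0 * 0) 3 κ (h0 * x) (eng.v x) (h0 * (3 / 40)) (tnt (h0 * x) (3 / 10)) (tbl tK x) (tbl tL x) (tbl (smT h0⁻¹ tC) x)) 0 3 3 0 5 1 (-1) :=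
  (sideB hx hx').bothA (thrB hx hx') (en_pos (hx1 hx).le) (Or.inl rfl) (Or.inr rfl) fun y y' F =>
    bothA_cert (s1 := true) (s2 := false) rfl hκ (en_pos (hx1 hx).le) (esg_rng (hx1 hx).le (hx2 hx').le).1 (mo_v x) covB00 covB53 hx hx'
        Pool.Agent.Strip051.G.I6500_6900.Tab.C.BA05.c_pm_033 noCut_EA noExt_EA F trivial trivial

theorem BA05_pm_101 {κ x : ℝ} (hκ : κ * h0 = ken x) (hx : ((697932185 : ℕ) : ℝ) / S ≤ x) (hx' : x ≤ (((697932185 : ℕ) : ℝ) + (42949674 : ℕ)) / S) :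
    TriA PP.cur (VE (h0 * 0) 3 κ (h0 * x) (eng.v x) (h0 * (3 / 40)) (tnt (h0 * x) (3 / 10)) (tbl tK x) (tbl tL x) (tbl (smT h0⁻¹ tC) x)) 1 0 1 0 5 1 (-1) :=
  (sideB hx hx').bothA (thrB hx hx') (en_pos (hx1 hx).le) (Or.inl rfl) (Or.inr rfl) fun y y' F =>
    bothA_cert (s1 := true) (s2 := false) rfl hκ (en_pos (hx1 hx).le) (esg_rng (hx1 hx).le (hx2 hx').le).1 (mo_v x) covB01 covB50 hx hx'
        Pool.Agent.Strip051.G.I6500_6900.Tab.C.BA05.c_pm_101 noCut_EA (xdA0 hκ hx hx' rfl) F trivial trivial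

theorem BA05_pm_102 {κ x : ℝ} (hκ : κ * h0 = ken x) (hx : ((697932185 : ℕ) : ℝ) / S ≤ x) (hx' : x ≤ (((697932185 : ℕ) : ℝ) + (42949674 : ℕ)) / S) :
    TriA PP.cur (VE (h0 * 0) 3 κ (h0 * x) (eng.v x) (h0 * (3 / 40)) (tnt (h0 * x) (3 / 10)) (tbl tK x) (tbl tL x) (tbl (smT h0⁻¹ tC) x)) 1 0 2 0 5 1 (-1) :=
  (sideB hx hx').bothA (thrB hx hx') (en_pos (hx1 hx).le) (Or.inl rfl) (Or.inr rfl) fun y y' F =>
    bothA_cert (s1 := true) (s2 := false) rfl hκ (en_pos (hx1 hx).le) (esg_rng (hx1 hx).le (hx2 hx').le).1 (mo_v x) covB01 covB50 hx hx'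
        Pool.Agent.Strip051.G.I6500_6900.Tab.C.BA05.c_pm_102 noCut_EA noExt_EA F trivial trivial

theorem BA05_pm_112 {κ x : ℝ} (hκ : κ * h0 = ken x) (hx : ((697932185 : ℕ) : ℝ) / S ≤ x) (hx' : x ≤ (((697932185 : ℕ) : ℝ) + (42949674 : ℕ)) / S) :
    TriA PP.cur (VE (h0 * 0) 3 κ (h0 * x) (eng.v x) (h0 * (3 / 40)) (tnt (h0 * x) (3 / 10)) (tbl tK x) (tbl tL x) (tbl (smT h0⁻¹ tC) x)) 1 1 2 0 5 1 (-1) :=
  (sideB hx hx').bothA (thrB hx hx') (en_pos (hx1 hx).le) (Or.inl rfl) (Or.inr rfl) fun y y' F =>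
    bothA_cert (s1 := true) (s2 := false) rfl hκ (en_pos (hx1 hx).le) (esg_rng (hx1 hx).le (hx2 hx').le).1 (mo_v x) covB01 covB51 hx hx'
        Pool.Agent.Strip051.G.I6500_6900.Tab.C.BA05.c_pm_112 noCut_EA noExt_EA F trivial trivial

theorem BA05_pm_113 {κ x : ℝ} (hκ : κ * h0 = ken x) (hx : ((697932185 : ℕ) : ℝ) / S ≤ x) (hx' : x ≤ (((697932185 : ℕ) : ℝ) + (42949674 : ℕ)) / S) :
    TriA PP.cur (VE (h0 * 0) 3 κ (h0 * x) (eng.v x) (h0 * (3 / 40)) (tnt (h0 * x) (3 / 10)) (tbl tK x) (tbl tL x) (tbl (smT h0⁻¹ tC) x)) 1 1 3 0 5 1 (-1) :=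
  (sideB hx hx').bothA (thrB hx hx') (en_pos (hx1 hx).le) (Or.inl rfl) (Or.inr rfl) fun y y' F =>
    bothA_cert (s1 := true) (s2 := false) rfl hκ (en_pos (hx1 hx).le) (esg_rng (hx1 hx).le (hx2 hx').le).1 (mo_v x) covB01 covB51 hx hx'
        Pool.Agent.Strip051.G.I6500_6900.Tab.C.BA05.c_pm_113 noCut_EA noExt_EA F trivial trivial

theorem BA05_pm_123 {κ x : ℝ} (hκ : κ * h0 = ken x) (hx : ((697932185 : ℕ) : ℝ) / S ≤ x) (hx' : x ≤ (((697932185 : ℕ) : ℝ) + (42949674 : ℕ)) / S) :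
    TriA PP.cur (VE (h0 * 0) 3 κ (h0 * x) (eng.v x) (h0 * (3 / 40)) (tnt (h0 * x) (3 / 10)) (tbl tK x) (tbl tL x) (tbl (smT h0⁻¹ tC) x)) 1 2 3 0 5 1 (-1) :=
  (sideB hx hx').bothA (thrB hx hx') (en_pos (hx1 hx).le) (Or.inl rfl) (Or.inr rfl) fun y y' F =>
    bothA_cert (s1 := true) (s2 := false) rfl hκ (en_pos (hx1 hx).le) (esg_rng (hx1 hx).le (hx2 hx').le).1 (mo_v x) covB01 covB52 hx hx'
        Pool.Agent.Strip051.G.I6500_6900.Tab.C.BA05.c_pm_123 noCut_EA noExt_EA F trivial trivial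

theorem BA05_pm_133 {κ x : ℝ} (hκ : κ * h0 = ken x) (hx : ((697932185 : ℕ) : ℝ) / S ≤ x) (hx' : x ≤ (((697932185 : ℕ) : ℝ) + (42949674 : ℕ)) / S) :
    TriA PP.cur (VE (h0 * 0) 3 κ (h0 * x) (eng.v x) (h0 * (3 / 40)) (tnt (h0 * x) (3 / 10)) (tbl tK x) (tbl tL x) (tbl (smT h0⁻¹ tC) x)) 1 3 3 0 5 1 (-1) :=
  (sideB hx hx').bothA (thrB hx hx') (en_pos (hx1 hx).le) (Or.inl rfl) (Or.inr rfl) fun y y' F =>
    bothA_cert (s1 := true) (s2 := false) rfl hκ (en_pos (hx1 hx).le) (esg_rng (hx1 hx).le (hx2 hx').le).1 (mo_v x) covB01 covB53 hx hx'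
        Pool.Agent.Strip051.G.I6500_6900.Tab.C.BA05.c_pm_133 noCut_EA noExt_EA F trivial trivial

theorem BA05_pm_202 {κ x : ℝ} (hκ : κ * h0 = ken x) (hx : ((697932185 : ℕ) : ℝ) / S ≤ x) (hx' : x ≤ (((697932185 : ℕ) : ℝ) + (42949674 : ℕ)) / S) :
    TriA PP.cur (VE (h0 * 0) 3 κ (h0 * x) (eng.v x) (h0 * (3 / 40)) (tnt (h0 * x) (3 / 10)) (tbl tK x) (tbl tL x) (tbl (smT h0⁻¹ tC) x)) 2 0 2 0 5 1 (-1) :=
  (sideB hx hx').bothA (thrB hx hx') (en_pos (hx1 hx).le) (Or.inl rfl) (Or.inr rfl) fun y y' F =>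
    bothA_cert (s1 := true) (s2 := false) rfl hκ (en_pos (hx1 hx).le) (esg_rng (hx1 hx).le (hx2 hx').le).1 (mo_v x) covB02 covB50 hx hx'
        Pool.Agent.Strip051.G.I6500_6900.Tab.C.BA05.c_pm_202 noCut_EA noExt_EA F trivial trivial

theorem BA05_pm_203 {κ x : ℝ} (hκ : κ * h0 = ken x) (hx : ((697932185 : ℕ) : ℝ) / S ≤ x) (hx' : x ≤ (((697932185 : ℕ) : ℝ) + (42949674 : ℕ)) / S) :
    TriA PP.cur (VE (h0 * 0) 3 κ (h0 * x) (eng.v x) (h0 * (3 / 40)) (tnt (h0 * x) (3 / 10)) (tbl tK x) (tbl tL x) (tbl (smT h0⁻¹ tC) x)) 2 0 3 0 5 1 (-1) :=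
  (sideB hx hx').bothA (thrB hx hx') (en_pos (hx1 hx).le) (Or.inl rfl) (Or.inr rfl) fun y y' F =>
    bothA_cert (s1 := true) (s2 := false) rfl hκ (en_pos (hx1 hx).le) (esg_rng (hx1 hx).le (hx2 hx').le).1 (mo_v x) covB02 covB50 hx hx'
        Pool.Agent.Strip051.G.I6500_6900.Tab.C.BA05.c_pm_203 noCut_EA noExt_EA F trivial trivial

theorem BA05_pm_213 {κ x : ℝ} (hκ : κ * h0 = ken x) (hx : ((697932185 : ℕ) : ℝ) / S ≤ x) (hx' : x ≤ (((697932185 : ℕ) : ℝ) + (42949674 : ℕ)) / S) :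
    TriA PP.cur (VE (h0 * 0) 3 κ (h0 * x) (eng.v x) (h0 * (3 / 40)) (tnt (h0 * x) (3 / 10)) (tbl tK x) (tbl tL x) (tbl (smT h0⁻¹ tC) x)) 2 1 3 0 5 1 (-1) :=
  (sideB hx hx').bothA (thrB hx hx') (en_pos (hx1 hx).le) (Or.inl rfl) (Or.inr rfl) fun y y' F =>
    bothA_cert (s1 := true) (s2 := false) rfl hκ (en_pos (hx1 hx).le) (esg_rng (hx1 hx).le (hx2 hx').le).1 (mo_v x) covB02 covB51 hx hx'
        Pool.Agent.Strip051.G.I6500_6900.Tab.C.BA05.c_pm_213 noCut_EA noExt_EA F trivial trivial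

theorem BA05_pm_303 {κ x : ℝ} (hκ : κ * h0 = ken x) (hx : ((697932185 : ℕ) : ℝ) / S ≤ x) (hx' : x ≤ (((697932185 : ℕ) : ℝ) + (42949674 : ℕ)) / S) :
    TriA PP.cur (VE (h0 * 0) 3 κ (h0 * x) (eng.v x) (h0 * (3 / 40)) (tnt (h0 * x) (3 / 10)) (tbl tK x) (tbl tL x) (tbl (smT h0⁻¹ tC) x)) 3 0 3 0 5 1 (-1) :=
  triA_j0

theorem BA05_pm_313 {κ x : ℝ} (hκ : κ * h0 = ken x) (hx : ((697932185 : ℕ) : ℝ) / S ≤ x) (hx' : x ≤ (((697932185 : ℕ) : ℝ) + (42949674 : ℕ)) / S) :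
    TriA PP.cur (VE (h0 * 0) 3 κ (h0 * x) (eng.v x) (h0 * (3 / 40)) (tnt (h0 * x) (3 / 10)) (tbl tK x) (tbl tL x) (tbl (smT h0⁻¹ tC) x)) 3 1 3 0 5 1 (-1) :=
  triA_j0

theorem BA05_mm_001 {κ x : ℝ} (hκ : κ * h0 = ken x) (hx : ((697932185 : ℕ) : ℝ) / S ≤ x) (hx' : x ≤ (((697932185 : ℕ) : ℝ) + (42949674 : ℕ)) / S) :
    TriA PP.cur (VE (h0 * 0) 3 κ (h0 * x) (eng.v x) (h0 * (3 / 40)) (tnt (h0 * x) (3 / 10)) (tbl tK x) (tbl tL x) (tbl (smT h0⁻¹ tC) x)) 0 0 1 0 5 (-1) (-1) :=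
  (sideB hx hx').bothA (thrB hx hx') (en_pos (hx1 hx).le) (Or.inr rfl) (Or.inr rfl) fun y y' F =>
    bothA_cert (s1 := false) (s2 := false) rfl hκ (en_pos (hx1 hx).le) (esg_rng (hx1 hx).le (hx2 hx').le).1 (mo_v x) covB00 covB50 hx hx'
        Pool.Agent.Strip051.G.I6500_6900.Tab.C.BA05.c_mm_001 noCut_EA noExt_EA F trivial trivial

theorem BA05_mm_011 {κ x : ℝ} (hκ : κ * h0 = ken x) (hx : ((697932185 : ℕ) : ℝ) / S ≤ x) (hx' : x ≤ (((697932185 : ℕ) : ℝ) + (42949674 : ℕ)) / S) :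
    TriA PP.cur (VE (h0 * 0) 3 κ (h0 * x) (eng.v x) (h0 * (3 / 40)) (tnt (h0 * x) (3 / 10)) (tbl tK x) (tbl tL x) (tbl (smT h0⁻¹ tC) x)) 0 1 1 0 5 (-1) (-1) :=
  (sideB hx hx').bothA (thrB hx hx') (en_pos (hx1 hx).le) (Or.inr rfl) (Or.inr rfl) fun y y' F =>
    bothA_cert (s1 := false) (s2 := false) rfl hκ (en_pos (hx1 hx).le) (esg_rng (hx1 hx).le (hx2 hx').le).1 (mo_v x) covB00 covB51 hx hx'
        Pool.Agent.Strip051.G.I6500_6900.Tab.C.BA05.c_mm_011 noCut_EA noExt_EA F trivial trivial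

theorem BA05_mm_012 {κ x : ℝ} (hκ : κ * h0 = ken x) (hx : ((697932185 : ℕ) : ℝ) / S ≤ x) (hx' : x ≤ (((697932185 : ℕ) : ℝ) + (42949674 : ℕ)) / S) :
    TriA PP.cur (VE (h0 * 0) 3 κ (h0 * x) (eng.v x) (h0 * (3 / 40)) (tnt (h0 * x) (3 / 10)) (tbl tK x) (tbl tL x) (tbl (smT h0⁻¹ tC) x)) 0 1 2 0 5 (-1) (-1) :=
  (sideB hx hx').bothA (thrB hx hx') (en_pos (hx1 hx).le) (Or.inr rfl) (Or.inr rfl) fun y y' F =>
    bothA_cert (s1 := false) (s2 := false) rfl hκ (en_pos (hx1 hx).le) (esg_rng (hx1 hx).le (hx2 hx').le).1 (mo_v x) covB00 covB51 hx hx'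
        Pool.Agent.Strip051.G.I6500_6900.Tab.C.BA05.c_mm_012 noCut_EA noExt_EA F trivial trivial

theorem BA05_mm_022 {κ x : ℝ} (hκ : κ * h0 = ken x) (hx : ((697932185 : ℕ) : ℝ) / S ≤ x) (hx' : x ≤ (((697932185 : ℕ) : ℝ) + (42949674 : ℕ)) / S) :
    TriA PP.cur (VE (h0 * 0) 3 κ (h0 * x) (eng.v x) (h0 * (3 / 40)) (tnt (h0 * x) (3 / 10)) (tbl tK x) (tbl tL x) (tbl (smT h0⁻¹ tC) x)) 0 2 2 0 5 (-1) (-1) :=
  (sideB hx hx').bothA (thrB hx hx') (en_pos (hx1 hx).le) (Or.inr rfl) (Or.inr rfl) fun y y' F =>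
    bothA_cert (s1 := false) (s2 := false) rfl hκ (en_pos (hx1 hx).le) (esg_rng (hx1 hx).le (hx2 hx').le).1 (mo_v x) covB00 covB52 hx hx'
        Pool.Agent.Strip051.G.I6500_6900.Tab.C.BA05.c_mm_022 noCut_EA noExt_EA F trivial trivial

theorem BA05_mm_023 {κ x : ℝ} (hκ : κ * h0 = ken x) (hx : ((697932185 : ℕ) : ℝ) / S ≤ x) (hx' : x ≤ (((697932185 : ℕ) : ℝ) + (42949674 : ℕ)) / S) :
    TriA PP.cur (VE (h0 * 0) 3 κ (h0 * x) (eng.v x) (h0 * (3 / 40)) (tnt (h0 * x) (3 / 10)) (tbl tK x) (tbl tL x) (tbl (smT h0⁻¹ tC) x)) 0 2 3 0 5 (-1) (-1) :=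
  (sideB hx hx').bothA (thrB hx hx') (en_pos (hx1 hx).le) (Or.inr rfl) (Or.inr rfl) fun y y' F =>
    bothA_cert (s1 := false) (s2 := false) rfl hκ (en_pos (hx1 hx).le) (esg_rng (hx1 hx).le (hx2 hx').le).1 (mo_v x) covB00 covB52 hx hx'
        Pool.Agent.Strip051.G.I6500_6900.Tab.C.BA05.c_mm_023 noCut_EA noExt_EA F trivial trivial

theorem BA05_mm_033 {κ x : ℝ} (hκ : κ * h0 = ken x) (hx : ((697932185 : ℕ) : ℝ) / S ≤ x) (hx' : x ≤ (((697932185 : ℕ) : ℝ) + (42949674 : ℕ)) / S) :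
    TriA PP.cur (VE (h0 * 0) 3 κ (h0 * x) (eng.v x) (h0 * (3 / 40)) (tnt (h0 * x) (3 / 10)) (tbl tK x) (tbl tL x) (tbl (smT h0⁻¹ tC) x)) 0 3 3 0 5 (-1) (-1) :=
  (sideB hx hx').bothA (thrB hx hx') (en_pos (hx1 hx).le) (Or.inr rfl) (Or.inr rfl) fun y y' F =>
    bothA_cert (s1 := false) (s2 := false) rfl hκ (en_pos (hx1 hx).le) (esg_rng (hx1 hx).le (hx2 hx').le).1 (mo_v x) covB00 covB53 hx hx'
        Pool.Agent.Strip051.G.I6500_6900.Tab.C.BA05.c_mm_033 noCut_EA noExt_EA F trivial trivial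

theorem BA05_mm_101 {κ x : ℝ} (hκ : κ * h0 = ken x) (hx : ((697932185 : ℕ) : ℝ) / S ≤ x) (hx' : x ≤ (((697932185 : ℕ) : ℝ) + (42949674 : ℕ)) / S) :
    TriA PP.cur (VE (h0 * 0) 3 κ (h0 * x) (eng.v x) (h0 * (3 / 40)) (tnt (h0 * x) (3 / 10)) (tbl tK x) (tbl tL x) (tbl (smT h0⁻¹ tC) x)) 1 0 1 0 5 (-1) (-1) :=
  (sideB hx hx').bothA (thrB hx hx') (en_pos (hx1 hx).le) (Or.inr rfl) (Or.inr rfl) fun y y' F =>
    bothA_cert (s1 := false) (s2 := false) rfl hκ (en_pos (hx1 hx).le) (esg_rng (hx1 hx).le (hx2 hx').le).1 (mo_v x) covB01 covB50 hx hx'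
        Pool.Agent.Strip051.G.I6500_6900.Tab.C.BA05.c_mm_101 noCut_EA noExt_EA F trivial trivial

theorem BA05_mm_102 {κ x : ℝ} (hκ : κ * h0 = ken x) (hx : ((697932185 : ℕ) : ℝ) / S ≤ x) (hx' : x ≤ (((697932185 : ℕ) : ℝ) + (42949674 : ℕ)) / S) :
    TriA PP.cur (VE (h0 * 0) 3 κ (h0 * x) (eng.v x) (h0 * (3 / 40)) (tnt (h0 * x) (3 / 10)) (tbl tK x) (tbl tL x) (tbl (smT h0⁻¹ tC) x)) 1 0 2 0 5 (-1) (-1) :=
  (sideB hx hx').bothA (thrB hx hx') (en_pos (hx1 hx).le) (Or.inr rfl) (Or.inr rfl) fun y y' F =>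
    bothA_cert (s1 := false) (s2 := false) rfl hκ (en_pos (hx1 hx).le) (esg_rng (hx1 hx).le (hx2 hx').le).1 (mo_v x) covB01 covB50 hx hx'
        Pool.Agent.Strip051.G.I6500_6900.Tab.C.BA05.c_mm_102 noCut_EA noExt_EA F trivial trivial

theorem BA05_mm_112 {κ x : ℝ} (hκ : κ * h0 = ken x) (hx : ((697932185 : ℕ) : ℝ) / S ≤ x) (hx' : x ≤ (((697932185 : ℕ) : ℝ) + (42949674 : ℕ)) / S) :
    TriA PP.cur (VE (h0 * 0) 3 κ (h0 * x) (eng.v x) (h0 * (3 / 40)) (tnt (h0 * x) (3 / 10)) (tbl tK x) (tbl tL x) (tbl (smT h0⁻¹ tC) x)) 1 1 2 0 5 (-1) (-1) :=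
  (sideB hx hx').bothA (thrB hx hx') (en_pos (hx1 hx).le) (Or.inr rfl) (Or.inr rfl) fun y y' F =>
    bothA_cert (s1 := false) (s2 := false) rfl hκ (en_pos (hx1 hx).le) (esg_rng (hx1 hx).le (hx2 hx').le).1 (mo_v x) covB01 covB51 hx hx'
        Pool.Agent.Strip051.G.I6500_6900.Tab.C.BA05.c_mm_112 noCut_EA noExt_EA F trivial trivial

theorem BA05_mm_113 {κ x : ℝ} (hκ : κ * h0 = ken x) (hx : ((697932185 : ℕ) : ℝ) / S ≤ x) (hx' : x ≤ (((697932185 : ℕ) : ℝ) + (42949674 : ℕ)) / S) :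
    TriA PP.cur (VE (h0 * 0) 3 κ (h0 * x) (eng.v x) (h0 * (3 / 40)) (tnt (h0 * x) (3 / 10)) (tbl tK x) (tbl tL x) (tbl (smT h0⁻¹ tC) x)) 1 1 3 0 5 (-1) (-1) :=
  (sideB hx hx').bothA (thrB hx hx') (en_pos (hx1 hx).le) (Or.inr rfl) (Or.inr rfl) fun y y' F =>
    bothA_cert (s1 := false) (s2 := false) rfl hκ (en_pos (hx1 hx).le) (esg_rng (hx1 hx).le (hx2 hx').le).1 (mo_v x) covB01 covB51 hx hx'
        Pool.Agent.Strip051.G.I6500_6900.Tab.C.BA05.c_mm_113 noCut_EA noExt_EA F trivial trivial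

theorem BA05_mm_123 {κ x : ℝ} (hκ : κ * h0 = ken x) (hx : ((697932185 : ℕ) : ℝ) / S ≤ x) (hx' : x ≤ (((697932185 : ℕ) : ℝ) + (42949674 : ℕ)) / S) :
    TriA PP.cur (VE (h0 * 0) 3 κ (h0 * x) (eng.v x) (h0 * (3 / 40)) (tnt (h0 * x) (3 / 10)) (tbl tK x) (tbl tL x) (tbl (smT h0⁻¹ tC) x)) 1 2 3 0 5 (-1) (-1) :=
  (sideB hx hx').bothA (thrB hx hx') (en_pos (hx1 hx).le) (Or.inr rfl) (Or.inr rfl) fun y y' F =>
    bothA_cert (s1 := false) (s2 := false) rfl hκ (en_pos (hx1 hx).le) (esg_rng (hx1 hx).le (hx2 hx').le).1 (mo_v x) covB01 covB52 hx hx'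
        Pool.Agent.Strip051.G.I6500_6900.Tab.C.BA05.c_mm_123 noCut_EA noExt_EA F trivial trivial

theorem BA05_mm_133 {κ x : ℝ} (hκ : κ * h0 = ken x) (hx : ((697932185 : ℕ) : ℝ) / S ≤ x) (hx' : x ≤ (((697932185 : ℕ) : ℝ) + (42949674 : ℕ)) / S) :
    TriA PP.cur (VE (h0 * 0) 3 κ (h0 * x) (eng.v x) (h0 * (3 / 40)) (tnt (h0 * x) (3 / 10)) (tbl tK x) (tbl tL x) (tbl (smT h0⁻¹ tC) x)) 1 3 3 0 5 (-1) (-1) :=
  (sideB hx hx').bothA (thrB hx hx') (en_pos (hx1 hx).le) (Or.inr rfl) (Or.inr rfl) fun y y' F =>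
    bothA_cert (s1 := false) (s2 := false) rfl hκ (en_pos (hx1 hx).le) (esg_rng (hx1 hx).le (hx2 hx').le).1 (mo_v x) covB01 covB53 hx hx'
        Pool.Agent.Strip051.G.I6500_6900.Tab.C.BA05.c_mm_133 noCut_EA noExt_EA F trivial trivial

theorem BA05_mm_202 {κ x : ℝ} (hκ : κ * h0 = ken x) (hx : ((697932185 : ℕ) : ℝ) / S ≤ x) (hx' : x ≤ (((697932185 : ℕ) : ℝ) + (42949674 : ℕ)) / S) :
    TriA PP.cur (VE (h0 * 0) 3 κ (h0 * x) (eng.v x) (h0 * (3 / 40)) (tnt (h0 * x) (3 / 10)) (tbl tK x) (tbl tL x) (tbl (smT h0⁻¹ tC) x)) 2 0 2 0 5 (-1) (-1) :=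
  (sideB hx hx').bothA (thrB hx hx') (en_pos (hx1 hx).le) (Or.inr rfl) (Or.inr rfl) fun y y' F =>
    bothA_cert (s1 := false) (s2 := false) rfl hκ (en_pos (hx1 hx).le) (esg_rng (hx1 hx).le (hx2 hx').le).1 (mo_v x) covB02 covB50 hx hx'
        Pool.Agent.Strip051.G.I6500_6900.Tab.C.BA05.c_mm_202 noCut_EA noExt_EA F trivial trivial

theorem BA05_mm_203 {κ x : ℝ} (hκ : κ * h0 = ken x) (hx : ((697932185 : ℕ) : ℝ) / S ≤ x) (hx' : x ≤ (((697932185 : ℕ) : ℝ) + (42949674 : ℕ)) / S) :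
    TriA PP.cur (VE (h0 * 0) 3 κ (h0 * x) (eng.v x) (h0 * (3 / 40)) (tnt (h0 * x) (3 / 10)) (tbl tK x) (tbl tL x) (tbl (smT h0⁻¹ tC) x)) 2 0 3 0 5 (-1) (-1) :=
  (sideB hx hx').bothA (thrB hx hx') (en_pos (hx1 hx).le) (Or.inr rfl) (Or.inr rfl) fun y y' F =>
    bothA_cert (s1 := false) (s2 := false) rfl hκ (en_pos (hx1 hx).le) (esg_rng (hx1 hx).le (hx2 hx').le).1 (mo_v x) covB02 covB50 hx hx'
        Pool.Agent.Strip051.G.I6500_6900.Tab.C.BA05.c_mm_203 noCut_EA noExt_EA F trivial trivial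

theorem BA05_mm_213 {κ x : ℝ} (hκ : κ * h0 = ken x) (hx : ((697932185 : ℕ) : ℝ) / S ≤ x) (hx' : x ≤ (((697932185 : ℕ) : ℝ) + (42949674 : ℕ)) / S) :
    TriA PP.cur (VE (h0 * 0) 3 κ (h0 * x) (eng.v x) (h0 * (3 / 40)) (tnt (h0 * x) (3 / 10)) (tbl tK x) (tbl tL x) (tbl (smT h0⁻¹ tC) x)) 2 1 3 0 5 (-1) (-1) :=
  (sideB hx hx').bothA (thrB hx hx') (en_pos (hx1 hx).le) (Or.inr rfl) (Or.inr rfl) fun y y' F =>
    bothA_cert (s1 := false) (s2 := false) rfl hκ (en_pos (hx1 hx).le) (esg_rng (hx1 hx).le (hx2 hx').le).1 (mo_v x) covB02 covB51 hx hx'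
        Pool.Agent.Strip051.G.I6500_6900.Tab.C.BA05.c_mm_213 noCut_EA noExt_EA F trivial trivial

theorem BA05_mm_303 {κ x : ℝ} (hκ : κ * h0 = ken x) (hx : ((697932185 : ℕ) : ℝ) / S ≤ x) (hx' : x ≤ (((697932185 : ℕ) : ℝ) + (42949674 : ℕ)) / S) :
    TriA PP.cur (VE (h0 * 0) 3 κ (h0 * x) (eng.v x) (h0 * (3 / 40)) (tnt (h0 * x) (3 / 10)) (tbl tK x) (tbl tL x) (tbl (smT h0⁻¹ tC) x)) 3 0 3 0 5 (-1) (-1) :=
  triA_j0

theorem BA05_mm_313 {κ x : ℝ} (hκ : κ * h0 = ken x) (hx : ((697932185 : ℕ) : ℝ) / S ≤ x) (hx' : x ≤ (((697932185 : ℕ) : ℝ) + (42949674 : ℕ)) / S) :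
    TriA PP.cur (VE (h0 * 0) 3 κ (h0 * x) (eng.v x) (h0 * (3 / 40)) (tnt (h0 * x) (3 / 10)) (tbl tK x) (tbl tL x) (tbl (smT h0⁻¹ tC) x)) 3 1 3 0 5 (-1) (-1) :=
  triA_j0

theorem BA05 {κ x : ℝ} (hκ : κ * h0 = ken x) (hx : ((697932185 : ℕ) : ℝ) / S ≤ x) (hx' : x ≤ (((697932185 : ℕ) : ℝ) + (42949674 : ℕ)) / S) : AllTA PP.cur (VE (h0 * 0) 3 κ (h0 * x) (eng.v x) (h0 * (3 / 40)) (tnt (h0 * x) (3 / 10)) (tbl tK x) (tbl tL x) (tbl (smT h0⁻¹ tC) x)) 0 5 where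
  pp := all17 (Q := fun a b c => TriA PP.cur (VE (h0 * 0) 3 κ (h0 * x) (eng.v x) (h0 * (3 / 40)) (tnt (h0 * x) (3 / 10)) (tbl tK x) (tbl tL x) (tbl (smT h0⁻¹ tC) x)) a b c 0 5 1 1)
    (BA05_pp_001 hκ hx hx') (BA05_pp_011 hκ hx hx') (BA05_pp_012 hκ hx hx') (BA05_pp_022 hκ hx hx') (BA05_pp_023 hκ hx hx') (BA05_pp_033 hκ hx hx') (BA05_pp_101 hκ hx hx') (BA05_pp_102 hκ hx hx') (BA05_pp_112 hκ hx hx') (BA05_pp_113 hκ hx hx') (BA05_pp_123 hκ hx hx') (BA05_pp_133 hκ hx hx') (BA05_pp_202 hκ hx hx') (BA05_pp_203 hκ hx hx') (BA05_pp_213 hκ hx hx') (BA05_pp_303 hκ hx hx') (BA05_pp_313 hκ hx hx')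
  pm := all17 (Q := fun a b c => TriA PP.cur (VE (h0 * 0) 3 κ (h0 * x) (eng.v x) (h0 * (3 / 40)) (tnt (h0 * x) (3 / 10)) (tbl tK x) (tbl tL x) (tbl (smT h0⁻¹ tC) x)) a b c 0 5 1 (-1))
    (BA05_pm_001 hκ hx hx') (BA05_pm_011 hκ hx hx') (BA05_pm_012 hκ hx hx') (BA05_pm_022 hκ hx hx') (BA05_pm_023 hκ hx hx') (BA05_pm_033 hκ hx hx') (BA05_pm_101 hκ hx hx') (BA05_pm_102 hκ hx hx') (BA05_pm_112 hκ hx hx') (BA05_pm_113 hκ hx hx') (BA05_pm_123 hκ hx hx') (BA05_pm_133 hκ hx hx') (BA05_pm_202 hκ hx hx') (BA05_pm_203 hκ hx hx') (BA05_pm_213 hκ hx hx') (BA05_pm_303 hκ hx hx') (BA05_pm_313 hκ hx hx')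
  mm := all17 (Q := fun a b c => TriA PP.cur (VE (h0 * 0) 3 κ (h0 * x) (eng.v x) (h0 * (3 / 40)) (tnt (h0 * x) (3 / 10)) (tbl tK x) (tbl tL x) (tbl (smT h0⁻¹ tC) x)) a b c 0 5 (-1) (-1))
    (BA05_mm_001 hκ hx hx') (BA05_mm_011 hκ hx hx') (BA05_mm_012 hκ hx hx') (BA05_mm_022 hκ hx hx') (BA05_mm_023 hκ hx hx') (BA05_mm_033 hκ hx hx') (BA05_mm_101 hκ hx hx') (BA05_mm_102 hκ hx hx') (BA05_mm_112 hκ hx hx') (BA05_mm_113 hκ hx hx') (BA05_mm_123 hκ hx hx') (BA05_mm_133 hκ hx hx') (BA05_mm_202 hκ hx hx') (BA05_mm_203 hκ hx hx') (BA05_mm_213 hκ hx hx') (BA05_mm_303 hκ hx hx') (BA05_mm_313 hκ hx hx')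

theorem BA06_pp_001 {κ x : ℝ} (hκ : κ * h0 = ken x) (hx : ((697932185 : ℕ) : ℝ) / S ≤ x) (hx' : x ≤ (((697932185 : ℕ) : ℝ) + (42949674 : ℕ)) / S) :
    TriA PP.cur (VE (h0 * 0) 3 κ (h0 * x) (eng.v x) (h0 * (3 / 40)) (tnt (h0 * x) (3 / 10)) (tbl tK x) (tbl tL x) (tbl (smT h0⁻¹ tC) x)) 0 0 1 0 6 1 1 :=
  (sideB hx hx').bothA (thrB hx hx') (en_pos (hx1 hx).le) (Or.inl rfl) (Or.inl rfl) fun y y' F =>
    bothA_cert (s1 := true) (s2 := true) rfl hκ (en_pos (hx1 hx).le) (esg_rng (hx1 hx).le (hx2 hx').le).1 (mo_v x) covB00 covB60 hx hx'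
        Pool.Agent.Strip051.G.I6500_6900.Tab.C.BA06.c_pp_001 noCut_EA noExt_EA F trivial trivial

theorem BA06_pp_011 {κ x : ℝ} (hκ : κ * h0 = ken x) (hx : ((697932185 : ℕ) : ℝ) / S ≤ x) (hx' : x ≤ (((697932185 : ℕ) : ℝ) + (42949674 : ℕ)) / S) :
    TriA PP.cur (VE (h0 * 0) 3 κ (h0 * x) (eng.v x) (h0 * (3 / 40)) (tnt (h0 * x) (3 / 10)) (tbl tK x) (tbl tL x) (tbl (smT h0⁻¹ tC) x)) 0 1 1 0 6 1 1 :=
  (sideB hx hx').bothA (thrB hx hx') (en_pos (hx1 hx).le) (Or.inl rfl) (Or.inl rfl) fun y y' F =>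
    bothA_cert (s1 := true) (s2 := true) rfl hκ (en_pos (hx1 hx).le) (esg_rng (hx1 hx).le (hx2 hx').le).1 (mo_v x) covB00 covB61 hx hx'
        Pool.Agent.Strip051.G.I6500_6900.Tab.C.BA06.c_pp_011 noCut_EA noExt_EA F trivial trivial

theorem BA06_pp_012 {κ x : ℝ} (hκ : κ * h0 = ken x) (hx : ((697932185 : ℕ) : ℝ) / S ≤ x) (hx' : x ≤ (((697932185 : ℕ) : ℝ) + (42949674 : ℕ)) / S) :
    TriA PP.cur (VE (h0 * 0) 3 κ (h0 * x) (eng.v x) (h0 * (3 / 40)) (tnt (h0 * x) (3 / 10)) (tbl tK x) (tbl tL x) (tbl (smT h0⁻¹ tC) x)) 0 1 2 0 6 1 1 :=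
  (sideB hx hx').bothA (thrB hx hx') (en_pos (hx1 hx).le) (Or.inl rfl) (Or.inl rfl) fun y y' F =>
    bothA_cert (s1 := true) (s2 := true) rfl hκ (en_pos (hx1 hx).le) (esg_rng (hx1 hx).le (hx2 hx').le).1 (mo_v x) covB00 covB61 hx hx'
        Pool.Agent.Strip051.G.I6500_6900.Tab.C.BA06.c_pp_012 noCut_EA noExt_EA F trivial trivial

theorem BA06_pp_022 {κ x : ℝ} (hκ : κ * h0 = ken x) (hx : ((697932185 : ℕ) : ℝ) / S ≤ x) (hx' : x ≤ (((697932185 : ℕ) : ℝ) + (42949674 : ℕ)) / S) :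
    TriA PP.cur (VE (h0 * 0) 3 κ (h0 * x) (eng.v x) (h0 * (3 / 40)) (tnt (h0 * x) (3 / 10)) (tbl tK x) (tbl tL x) (tbl (smT h0⁻¹ tC) x)) 0 2 2 0 6 1 1 :=
  (sideB hx hx').bothA (thrB hx hx') (en_pos (hx1 hx).le) (Or.inl rfl) (Or.inl rfl) fun y y' F =>
    bothA_cert (s1 := true) (s2 := true) rfl hκ (en_pos (hx1 hx).le) (esg_rng (hx1 hx).le (hx2 hx').le).1 (mo_v x) covB00 covB62 hx hx'
        Pool.Agent.Strip051.G.I6500_6900.Tab.C.BA06.c_pp_022 noCut_EA noExt_EA F trivial trivial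

theorem BA06_pp_023 {κ x : ℝ} (hκ : κ * h0 = ken x) (hx : ((697932185 : ℕ) : ℝ) / S ≤ x) (hx' : x ≤ (((697932185 : ℕ) : ℝ) + (42949674 : ℕ)) / S) :
    TriA PP.cur (VE (h0 * 0) 3 κ (h0 * x) (eng.v x) (h0 * (3 / 40)) (tnt (h0 * x) (3 / 10)) (tbl tK x) (tbl tL x) (tbl (smT h0⁻¹ tC) x)) 0 2 3 0 6 1 1 :=
  (sideB hx hx').bothA (thrB hx hx') (en_pos (hx1 hx).le) (Or.inl rfl) (Or.inl rfl) fun y y' F =>
    bothA_cert (s1 := true) (s2 := true) rfl hκ (en_pos (hx1 hx).le) (esg_rng (hx1 hx).le (hx2 hx').le).1 (mo_v x) covB00 covB62 hx hx'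
        Pool.Agent.Strip051.G.I6500_6900.Tab.C.BA06.c_pp_023 noCut_EA noExt_EA F trivial trivial

theorem BA06_pp_033 {κ x : ℝ} (hκ : κ * h0 = ken x) (hx : ((697932185 : ℕ) : ℝ) / S ≤ x) (hx' : x ≤ (((697932185 : ℕ) : ℝ) + (42949674 : ℕ)) / S) :
    TriA PP.cur (VE (h0 * 0) 3 κ (h0 * x) (eng.v x) (h0 * (3 / 40)) (tnt (h0 * x) (3 / 10)) (tbl tK x) (tbl tL x) (tbl (smT h0⁻¹ tC) x)) 0 3 3 0 6 1 1 :=
  (sideB hx hx').bothA (thrB hx hx') (en_pos (hx1 hx).le) (Or.inl rfl) (Or.inl rfl) fun y y' F =>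
    bothA_cert (s1 := true) (s2 := true) rfl hκ (en_pos (hx1 hx).le) (esg_rng (hx1 hx).le (hx2 hx').le).1 (mo_v x) covB00 covB63 hx hx'
        Pool.Agent.Strip051.G.I6500_6900.Tab.C.BA06.c_pp_033 noCut_EA noExt_EA F trivial trivial

theorem BA06_pp_101 {κ x : ℝ} (hκ : κ * h0 = ken x) (hx : ((697932185 : ℕ) : ℝ) / S ≤ x) (hx' : x ≤ (((697932185 : ℕ) : ℝ) + (42949674 : ℕ)) / S) :
    TriA PP.cur (VE (h0 * 0) 3 κ (h0 * x) (eng.v x) (h0 * (3 / 40)) (tnt (h0 * x) (3 / 10)) (tbl tK x) (tbl tL x) (tbl (smT h0⁻¹ tC) x)) 1 0 1 0 6 1 1 :=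
  (sideB hx hx').bothA (thrB hx hx') (en_pos (hx1 hx).le) (Or.inl rfl) (Or.inl rfl) fun y y' F =>
    bothA_cert (s1 := true) (s2 := true) rfl hκ (en_pos (hx1 hx).le) (esg_rng (hx1 hx).le (hx2 hx').le).1 (mo_v x) covB01 covB60 hx hx'
        Pool.Agent.Strip051.G.I6500_6900.Tab.C.BA06.c_pp_101 noCut_EA noExt_EA F trivial trivial

theorem BA06_pp_102 {κ x : ℝ} (hκ : κ * h0 = ken x) (hx : ((697932185 : ℕ) : ℝ) / S ≤ x) (hx' : x ≤ (((697932185 : ℕ) : ℝ) + (42949674 : ℕ)) / S) :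
    TriA PP.cur (VE (h0 * 0) 3 κ (h0 * x) (eng.v x) (h0 * (3 / 40)) (tnt (h0 * x) (3 / 10)) (tbl tK x) (tbl tL x) (tbl (smT h0⁻¹ tC) x)) 1 0 2 0 6 1 1 :=
  (sideB hx hx').bothA (thrB hx hx') (en_pos (hx1 hx).le) (Or.inl rfl) (Or.inl rfl) fun y y' F =>
    bothA_cert (s1 := true) (s2 := true) rfl hκ (en_pos (hx1 hx).le) (esg_rng (hx1 hx).le (hx2 hx').le).1 (mo_v x) covB01 covB60 hx hx'
        Pool.Agent.Strip051.G.I6500_6900.Tab.C.BA06.c_pp_102 noCut_EA noExt_EA F trivial trivial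

theorem BA06_pp_112 {κ x : ℝ} (hκ : κ * h0 = ken x) (hx : ((697932185 : ℕ) : ℝ) / S ≤ x) (hx' : x ≤ (((697932185 : ℕ) : ℝ) + (42949674 : ℕ)) / S) :
    TriA PP.cur (VE (h0 * 0) 3 κ (h0 * x) (eng.v x) (h0 * (3 / 40)) (tnt (h0 * x) (3 / 10)) (tbl tK x) (tbl tL x) (tbl (smT h0⁻¹ tC) x)) 1 1 2 0 6 1 1 :=
  (sideB hx hx').bothA (thrB hx hx') (en_pos (hx1 hx).le) (Or.inl rfl) (Or.inl rfl) fun y y' F =>
    bothA_cert (s1 := true) (s2 := true) rfl hκ (en_pos (hx1 hx).le) (esg_rng (hx1 hx).le (hx2 hx').le).1 (mo_v x) covB01 covB61 hx hx'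
        Pool.Agent.Strip051.G.I6500_6900.Tab.C.BA06.c_pp_112 noCut_EA noExt_EA F trivial trivial

theorem BA06_pp_113 {κ x : ℝ} (hκ : κ * h0 = ken x) (hx : ((697932185 : ℕ) : ℝ) / S ≤ x) (hx' : x ≤ (((697932185 : ℕ) : ℝ) + (42949674 : ℕ)) / S) :
    TriA PP.cur (VE (h0 * 0) 3 κ (h0 * x) (eng.v x) (h0 * (3 / 40)) (tnt (h0 * x) (3 / 10)) (tbl tK x) (tbl tL x) (tbl (smT h0⁻¹ tC) x)) 1 1 3 0 6 1 1 :=
  (sideB hx hx').bothA (thrB hx hx') (en_pos (hx1 hx).le) (Or.inl rfl) (Or.inl rfl) fun y y' F =>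
    bothA_cert (s1 := true) (s2 := true) rfl hκ (en_pos (hx1 hx).le) (esg_rng (hx1 hx).le (hx2 hx').le).1 (mo_v x) covB01 covB61 hx hx'
        Pool.Agent.Strip051.G.I6500_6900.Tab.C.BA06.c_pp_113 noCut_EA noExt_EA F trivial trivial

theorem BA06_pp_123 {κ x : ℝ} (hκ : κ * h0 = ken x) (hx : ((697932185 : ℕ) : ℝ) / S ≤ x) (hx' : x ≤ (((697932185 : ℕ) : ℝ) + (42949674 : ℕ)) / S) :
    TriA PP.cur (VE (h0 * 0) 3 κ (h0 * x) (eng.v x) (h0 * (3 / 40)) (tnt (h0 * x) (3 / 10)) (tbl tK x) (tbl tL x) (tbl (smT h0⁻¹ tC) x)) 1 2 3 0 6 1 1 :=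
  (sideB hx hx').bothA (thrB hx hx') (en_pos (hx1 hx).le) (Or.inl rfl) (Or.inl rfl) fun y y' F =>
    bothA_cert (s1 := true) (s2 := true) rfl hκ (en_pos (hx1 hx).le) (esg_rng (hx1 hx).le (hx2 hx').le).1 (mo_v x) covB01 covB62 hx hx'
        Pool.Agent.Strip051.G.I6500_6900.Tab.C.BA06.c_pp_123 noCut_EA noExt_EA F trivial trivial

theorem BA06_pp_133 {κ x : ℝ} (hκ : κ * h0 = ken x) (hx : ((697932185 : ℕ) : ℝ) / S ≤ x) (hx' : x ≤ (((697932185 : ℕ) : ℝ) + (42949674 : ℕ)) / S) :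
    TriA PP.cur (VE (h0 * 0) 3 κ (h0 * x) (eng.v x) (h0 * (3 / 40)) (tnt (h0 * x) (3 / 10)) (tbl tK x) (tbl tL x) (tbl (smT h0⁻¹ tC) x)) 1 3 3 0 6 1 1 :=
  (sideB hx hx').bothA (thrB hx hx') (en_pos (hx1 hx).le) (Or.inl rfl) (Or.inl rfl) fun y y' F =>
    bothA_cert (s1 := true) (s2 := true) rfl hκ (en_pos (hx1 hx).le) (esg_rng (hx1 hx).le (hx2 hx').le).1 (mo_v x) covB01 covB63 hx hx'
        Pool.Agent.Strip051.G.I6500_6900.Tab.C.BA06.c_pp_133 noCut_EA noExt_EA F trivial trivial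

theorem BA06_pp_202 {κ x : ℝ} (hκ : κ * h0 = ken x) (hx : ((697932185 : ℕ) : ℝ) / S ≤ x) (hx' : x ≤ (((697932185 : ℕ) : ℝ) + (42949674 : ℕ)) / S) :
    TriA PP.cur (VE (h0 * 0) 3 κ (h0 * x) (eng.v x) (h0 * (3 / 40)) (tnt (h0 * x) (3 / 10)) (tbl tK x) (tbl tL x) (tbl (smT h0⁻¹ tC) x)) 2 0 2 0 6 1 1 :=
  (sideB hx hx').bothA (thrB hx hx') (en_pos (hx1 hx).le) (Or.inl rfl) (Or.inl rfl) fun y y' F =>
    bothA_cert (s1 := true) (s2 := true) rfl hκ (en_pos (hx1 hx).le) (esg_rng (hx1 hx).le (hx2 hx').le).1 (mo_v x) covB02 covB60 hx hx'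
        Pool.Agent.Strip051.G.I6500_6900.Tab.C.BA06.c_pp_202 noCut_EA noExt_EA F trivial trivial

theorem BA06_pp_203 {κ x : ℝ} (hκ : κ * h0 = ken x) (hx : ((697932185 : ℕ) : ℝ) / S ≤ x) (hx' : x ≤ (((697932185 : ℕ) : ℝ) + (42949674 : ℕ)) / S) :
    TriA PP.cur (VE (h0 * 0) 3 κ (h0 * x) (eng.v x) (h0 * (3 / 40)) (tnt (h0 * x) (3 / 10)) (tbl tK x) (tbl tL x) (tbl (smT h0⁻¹ tC) x)) 2 0 3 0 6 1 1 :=
  (sideB hx hx').bothA (thrB hx hx') (en_pos (hx1 hx).le) (Or.inl rfl) (Or.inl rfl) fun y y' F =>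
    bothA_cert (s1 := true) (s2 := true) rfl hκ (en_pos (hx1 hx).le) (esg_rng (hx1 hx).le (hx2 hx').le).1 (mo_v x) covB02 covB60 hx hx'
        Pool.Agent.Strip051.G.I6500_6900.Tab.C.BA06.c_pp_203 noCut_EA noExt_EA F trivial trivial

theorem BA06_pp_213 {κ x : ℝ} (hκ : κ * h0 = ken x) (hx : ((697932185 : ℕ) : ℝ) / S ≤ x) (hx' : x ≤ (((697932185 : ℕ) : ℝ) + (42949674 : ℕ)) / S) :
    TriA PP.cur (VE (h0 * 0) 3 κ (h0 * x) (eng.v x) (h0 * (3 / 40)) (tnt (h0 * x) (3 / 10)) (tbl tK x) (tbl tL x) (tbl (smT h0⁻¹ tC) x)) 2 1 3 0 6 1 1 :=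
  (sideB hx hx').bothA (thrB hx hx') (en_pos (hx1 hx).le) (Or.inl rfl) (Or.inl rfl) fun y y' F =>
    bothA_cert (s1 := true) (s2 := true) rfl hκ (en_pos (hx1 hx).le) (esg_rng (hx1 hx).le (hx2 hx').le).1 (mo_v x) covB02 covB61 hx hx'
        Pool.Agent.Strip051.G.I6500_6900.Tab.C.BA06.c_pp_213 noCut_EA noExt_EA F trivial trivial

theorem BA06_pp_303 {κ x : ℝ} (hκ : κ * h0 = ken x) (hx : ((697932185 : ℕ) : ℝ) / S ≤ x) (hx' : x ≤ (((697932185 : ℕ) : ℝ) + (42949674 : ℕ)) / S) :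
    TriA PP.cur (VE (h0 * 0) 3 κ (h0 * x) (eng.v x) (h0 * (3 / 40)) (tnt (h0 * x) (3 / 10)) (tbl tK x) (tbl tL x) (tbl (smT h0⁻¹ tC) x)) 3 0 3 0 6 1 1 :=
  triA_j0

theorem BA06_pp_313 {κ x : ℝ} (hκ : κ * h0 = ken x) (hx : ((697932185 : ℕ) : ℝ) / S ≤ x) (hx' : x ≤ (((697932185 : ℕ) : ℝ) + (42949674 : ℕ)) / S) :
    TriA PP.cur (VE (h0 * 0) 3 κ (h0 * x) (eng.v x) (h0 * (3 / 40)) (tnt (h0 * x) (3 / 10)) (tbl tK x) (tbl tL x) (tbl (smT h0⁻¹ tC) x)) 3 1 3 0 6 1 1 :=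
  triA_j0

theorem BA06_pm_001 {κ x : ℝ} (hκ : κ * h0 = ken x) (hx : ((697932185 : ℕ) : ℝ) / S ≤ x) (hx' : x ≤ (((697932185 : ℕ) : ℝ) + (42949674 : ℕ)) / S) :
    TriA PP.cur (VE (h0 * 0) 3 κ (h0 * x) (eng.v x) (h0 * (3 / 40)) (tnt (h0 * x) (3 / 10)) (tbl tK x) (tbl tL x) (tbl (smT h0⁻¹ tC) x)) 0 0 1 0 6 1 (-1) :=
  (sideB hx hx').bothA (thrB hx hx') (en_pos (hx1 hx).le) (Or.inl rfl) (Or.inr rfl) fun y y' F =>
    bothA_cert (s1 := true) (s2 := false) rfl hκ (en_pos (hx1 hx).le) (esg_rng (hx1 hx).le (hx2 hx').le).1 (mo_v x) covB00 covB60 hx hx'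
        Pool.Agent.Strip051.G.I6500_6900.Tab.C.BA06.c_pm_001 noCut_EA noExt_EA F trivial trivial

theorem BA06_pm_011 {κ x : ℝ} (hκ : κ * h0 = ken x) (hx : ((697932185 : ℕ) : ℝ) / S ≤ x) (hx' : x ≤ (((697932185 : ℕ) : ℝ) + (42949674 : ℕ)) / S) :
    TriA PP.cur (VE (h0 * 0) 3 κ (h0 * x) (eng.v x) (h0 * (3 / 40)) (tnt (h0 * x) (3 / 10)) (tbl tK x) (tbl tL x) (tbl (smT h0⁻¹ tC) x)) 0 1 1 0 6 1 (-1) :=
  (sideB hx hx').bothA (thrB hx hx') (en_pos (hx1 hx).le) (Or.inl rfl) (Or.inr rfl) fun y y' F =>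
    bothA_cert (s1 := true) (s2 := false) rfl hκ (en_pos (hx1 hx).le) (esg_rng (hx1 hx).le (hx2 hx').le).1 (mo_v x) covB00 covB61 hx hx'
        Pool.Agent.Strip051.G.I6500_6900.Tab.C.BA06.c_pm_011 (cutEA_cons (Pool.Agent.Strip051.G.I6500_6900.Tab.altB_A011R_06 hκ hx hx') cutEA_nil) noExt_EA F trivial trivial

theorem BA06_pm_012 {κ x : ℝ} (hκ : κ * h0 = ken x) (hx : ((697932185 : ℕ) : ℝ) / S ≤ x) (hx' : x ≤ (((697932185 : ℕ) : ℝ) + (42949674 : ℕ)) / S) :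
    TriA PP.cur (VE (h0 * 0) 3 κ (h0 * x) (eng.v x) (h0 * (3 / 40)) (tnt (h0 * x) (3 / 10)) (tbl tK x) (tbl tL x) (tbl (smT h0⁻¹ tC) x)) 0 1 2 0 6 1 (-1) :=
  (sideB hx hx').bothA (thrB hx hx') (en_pos (hx1 hx).le) (Or.inl rfl) (Or.inr rfl) fun y y' F =>
    bothA_cert (s1 := true) (s2 := false) rfl hκ (en_pos (hx1 hx).le) (esg_rng (hx1 hx).le (hx2 hx').le).1 (mo_v x) covB00 covB61 hx hx'
        Pool.Agent.Strip051.G.I6500_6900.Tab.C.BA06.c_pm_012 (cutEA_cons (Pool.Agent.Strip051.G.I6500_6900.Tab.altB_A012R_06 hκ hx hx') cutEA_nil) noExt_EA F trivial trivial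

theorem BA06_pm_022 {κ x : ℝ} (hκ : κ * h0 = ken x) (hx : ((697932185 : ℕ) : ℝ) / S ≤ x) (hx' : x ≤ (((697932185 : ℕ) : ℝ) + (42949674 : ℕ)) / S) :
    TriA PP.cur (VE (h0 * 0) 3 κ (h0 * x) (eng.v x) (h0 * (3 / 40)) (tnt (h0 * x) (3 / 10)) (tbl tK x) (tbl tL x) (tbl (smT h0⁻¹ tC) x)) 0 2 2 0 6 1 (-1) :=
  (sideB hx hx').bothA (thrB hx hx') (en_pos (hx1 hx).le) (Or.inl rfl) (Or.inr rfl) fun y y' F =>
    bothA_cert (s1 := true) (s2 := false) rfl hκ (en_pos (hx1 hx).le) (esg_rng (hx1 hx).le (hx2 hx').le).1 (mo_v x) covB00 covB62 hx hx'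
        Pool.Agent.Strip051.G.I6500_6900.Tab.C.BA06.c_pm_022 noCut_EA noExt_EA F trivial trivial

theorem BA06_pm_023 {κ x : ℝ} (hκ : κ * h0 = ken x) (hx : ((697932185 : ℕ) : ℝ) / S ≤ x) (hx' : x ≤ (((697932185 : ℕ) : ℝ) + (42949674 : ℕ)) / S) :
    TriA PP.cur (VE (h0 * 0) 3 κ (h0 * x) (eng.v x) (h0 * (3 / 40)) (tnt (h0 * x) (3 / 10)) (tbl tK x) (tbl tL x) (tbl (smT h0⁻¹ tC) x)) 0 2 3 0 6 1 (-1) :=
  (sideB hx hx').bothA (thrB hx hx') (en_pos (hx1 hx).le) (Or.inl rfl) (Or.inr rfl) fun y y' F =>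
    bothA_cert (s1 := true) (s2 := false) rfl hκ (en_pos (hx1 hx).le) (esg_rng (hx1 hx).le (hx2 hx').le).1 (mo_v x) covB00 covB62 hx hx'
        Pool.Agent.Strip051.G.I6500_6900.Tab.C.BA06.c_pm_023 noCut_EA noExt_EA F trivial trivial

theorem BA06_pm_033 {κ x : ℝ} (hκ : κ * h0 = ken x) (hx : ((697932185 : ℕ) : ℝ) / S ≤ x) (hx' : x ≤ (((697932185 : ℕ) : ℝ) + (42949674 : ℕ)) / S) :
    TriA PP.cur (VE (h0 * 0) 3 κ (h0 * x) (eng.v x) (h0 * (3 / 40)) (tnt (h0 * x) (3 / 10)) (tbl tK x) (tbl tL x) (tbl (smT h0⁻¹ tC) x)) 0 3 3 0 6 1 (-1) :=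
  (sideB hx hx').bothA (thrB hx hx') (en_pos (hx1 hx).le) (Or.inl rfl) (Or.inr rfl) fun y y' F =>
    bothA_cert (s1 := true) (s2 := false) rfl hκ (en_pos (hx1 hx).le) (esg_rng (hx1 hx).le (hx2 hx').le).1 (mo_v x) covB00 covB63 hx hx'
        Pool.Agent.Strip051.G.I6500_6900.Tab.C.BA06.c_pm_033 noCut_EA noExt_EA F trivial trivial

theorem BA06_pm_101 {κ x : ℝ} (hκ : κ * h0 = ken x) (hx : ((697932185 : ℕ) : ℝ) / S ≤ x) (hx' : x ≤ (((697932185 : ℕ) : ℝ) + (42949674 : ℕ)) / S) :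
    TriA PP.cur (VE (h0 * 0) 3 κ (h0 * x) (eng.v x) (h0 * (3 / 40)) (tnt (h0 * x) (3 / 10)) (tbl tK x) (tbl tL x) (tbl (smT h0⁻¹ tC) x)) 1 0 1 0 6 1 (-1) :=
  (sideB hx hx').bothA (thrB hx hx') (en_pos (hx1 hx).le) (Or.inl rfl) (Or.inr rfl) fun y y' F =>
    bothA_cert (s1 := true) (s2 := false) rfl hκ (en_pos (hx1 hx).le) (esg_rng (hx1 hx).le (hx2 hx').le).1 (mo_v x) covB01 covB60 hx hx'
        Pool.Agent.Strip051.G.I6500_6900.Tab.C.BA06.c_pm_101 noCut_EA noExt_EA F trivial trivial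

theorem BA06_pm_102 {κ x : ℝ} (hκ : κ * h0 = ken x) (hx : ((697932185 : ℕ) : ℝ) / S ≤ x) (hx' : x ≤ (((697932185 : ℕ) : ℝ) + (42949674 : ℕ)) / S) :
    TriA PP.cur (VE (h0 * 0) 3 κ (h0 * x) (eng.v x) (h0 * (3 / 40)) (tnt (h0 * x) (3 / 10)) (tbl tK x) (tbl tL x) (tbl (smT h0⁻¹ tC) x)) 1 0 2 0 6 1 (-1) :=
  (sideB hx hx').bothA (thrB hx hx') (en_pos (hx1 hx).le) (Or.inl rfl) (Or.inr rfl) fun y y' F =>
    bothA_cert (s1 := true) (s2 := false) rfl hκ (en_pos (hx1 hx).le) (esg_rng (hx1 hx).le (hx2 hx').le).1 (mo_v x) covB01 covB60 hx hx'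
        Pool.Agent.Strip051.G.I6500_6900.Tab.C.BA06.c_pm_102 noCut_EA noExt_EA F trivial trivial

theorem BA06_pm_112 {κ x : ℝ} (hκ : κ * h0 = ken x) (hx : ((697932185 : ℕ) : ℝ) / S ≤ x) (hx' : x ≤ (((697932185 : ℕ) : ℝ) + (42949674 : ℕ)) / S) :
    TriA PP.cur (VE (h0 * 0) 3 κ (h0 * x) (eng.v x) (h0 * (3 / 40)) (tnt (h0 * x) (3 / 10)) (tbl tK x) (tbl tL x) (tbl (smT h0⁻¹ tC) x)) 1 1 2 0 6 1 (-1) :=
  (sideB hx hx').bothA (thrB hx hx') (en_pos (hx1 hx).le) (Or.inl rfl) (Or.inr rfl) fun y y' F =>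
    bothA_cert (s1 := true) (s2 := false) rfl hκ (en_pos (hx1 hx).le) (esg_rng (hx1 hx).le (hx2 hx').le).1 (mo_v x) covB01 covB61 hx hx'
        Pool.Agent.Strip051.G.I6500_6900.Tab.C.BA06.c_pm_112 noCut_EA noExt_EA F trivial trivial

theorem BA06_pm_113 {κ x : ℝ} (hκ : κ * h0 = ken x) (hx : ((697932185 : ℕ) : ℝ) / S ≤ x) (hx' : x ≤ (((697932185 : ℕ) : ℝ) + (42949674 : ℕ)) / S) :
    TriA PP.cur (VE (h0 * 0) 3 κ (h0 * x) (eng.v x) (h0 * (3 / 40)) (tnt (h0 * x) (3 / 10)) (tbl tK x) (tbl tL x) (tbl (smT h0⁻¹ tC) x)) 1 1 3 0 6 1 (-1) :=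
  (sideB hx hx').bothA (thrB hx hx') (en_pos (hx1 hx).le) (Or.inl rfl) (Or.inr rfl) fun y y' F =>
    bothA_cert (s1 := true) (s2 := false) rfl hκ (en_pos (hx1 hx).le) (esg_rng (hx1 hx).le (hx2 hx').le).1 (mo_v x) covB01 covB61 hx hx'
        Pool.Agent.Strip051.G.I6500_6900.Tab.C.BA06.c_pm_113 noCut_EA noExt_EA F trivial trivial

theorem BA06_pm_123 {κ x : ℝ} (hκ : κ * h0 = ken x) (hx : ((697932185 : ℕ) : ℝ) / S ≤ x) (hx' : x ≤ (((697932185 : ℕ) : ℝ) + (42949674 : ℕ)) / S) :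
    TriA PP.cur (VE (h0 * 0) 3 κ (h0 * x) (eng.v x) (h0 * (3 / 40)) (tnt (h0 * x) (3 / 10)) (tbl tK x) (tbl tL x) (tbl (smT h0⁻¹ tC) x)) 1 2 3 0 6 1 (-1) :=
  (sideB hx hx').bothA (thrB hx hx') (en_pos (hx1 hx).le) (Or.inl rfl) (Or.inr rfl) fun y y' F =>
    bothA_cert (s1 := true) (s2 := false) rfl hκ (en_pos (hx1 hx).le) (esg_rng (hx1 hx).le (hx2 hx').le).1 (mo_v x) covB01 covB62 hx hx'
        Pool.Agent.Strip051.G.I6500_6900.Tab.C.BA06.c_pm_123 noCut_EA noExt_EA F trivial trivial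

theorem BA06_pm_133 {κ x : ℝ} (hκ : κ * h0 = ken x) (hx : ((697932185 : ℕ) : ℝ) / S ≤ x) (hx' : x ≤ (((697932185 : ℕ) : ℝ) + (42949674 : ℕ)) / S) :
    TriA PP.cur (VE (h0 * 0) 3 κ (h0 * x) (eng.v x) (h0 * (3 / 40)) (tnt (h0 * x) (3 / 10)) (tbl tK x) (tbl tL x) (tbl (smT h0⁻¹ tC) x)) 1 3 3 0 6 1 (-1) :=
  (sideB hx hx').bothA (thrB hx hx') (en_pos (hx1 hx).le) (Or.inl rfl) (Or.inr rfl) fun y y' F =>
    bothA_cert (s1 := true) (s2 := false) rfl hκ (en_pos (hx1 hx).le) (esg_rng (hx1 hx).le (hx2 hx').le).1 (mo_v x) covB01 covB63 hx hx'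
        Pool.Agent.Strip051.G.I6500_6900.Tab.C.BA06.c_pm_133 noCut_EA noExt_EA F trivial trivial

theorem BA06_pm_202 {κ x : ℝ} (hκ : κ * h0 = ken x) (hx : ((697932185 : ℕ) : ℝ) / S ≤ x) (hx' : x ≤ (((697932185 : ℕ) : ℝ) + (42949674 : ℕ)) / S) :
    TriA PP.cur (VE (h0 * 0) 3 κ (h0 * x) (eng.v x) (h0 * (3 / 40)) (tnt (h0 * x) (3 / 10)) (tbl tK x) (tbl tL x) (tbl (smT h0⁻¹ tC) x)) 2 0 2 0 6 1 (-1) :=
  (sideB hx hx').bothA (thrB hx hx') (en_pos (hx1 hx).le) (Or.inl rfl) (Or.inr rfl) fun y y' F =>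
    bothA_cert (s1 := true) (s2 := false) rfl hκ (en_pos (hx1 hx).le) (esg_rng (hx1 hx).le (hx2 hx').le).1 (mo_v x) covB02 covB60 hx hx'
        Pool.Agent.Strip051.G.I6500_6900.Tab.C.BA06.c_pm_202 noCut_EA noExt_EA F trivial trivial

theorem BA06_pm_203 {κ x : ℝ} (hκ : κ * h0 = ken x) (hx : ((697932185 : ℕ) : ℝ) / S ≤ x) (hx' : x ≤ (((697932185 : ℕ) : ℝ) + (42949674 : ℕ)) / S) :
    TriA PP.cur (VE (h0 * 0) 3 κ (h0 * x) (eng.v x) (h0 * (3 / 40)) (tnt (h0 * x) (3 / 10)) (tbl tK x) (tbl tL x) (tbl (smT h0⁻¹ tC) x)) 2 0 3 0 6 1 (-1) :=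
  (sideB hx hx').bothA (thrB hx hx') (en_pos (hx1 hx).le) (Or.inl rfl) (Or.inr rfl) fun y y' F =>
    bothA_cert (s1 := true) (s2 := false) rfl hκ (en_pos (hx1 hx).le) (esg_rng (hx1 hx).le (hx2 hx').le).1 (mo_v x) covB02 covB60 hx hx'
        Pool.Agent.Strip051.G.I6500_6900.Tab.C.BA06.c_pm_203 noCut_EA noExt_EA F trivial trivial

theorem BA06_pm_213 {κ x : ℝ} (hκ : κ * h0 = ken x) (hx : ((697932185 : ℕ) : ℝ) / S ≤ x) (hx' : x ≤ (((697932185 : ℕ) : ℝ) + (42949674 : ℕ)) / S) :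
    TriA PP.cur (VE (h0 * 0) 3 κ (h0 * x) (eng.v x) (h0 * (3 / 40)) (tnt (h0 * x) (3 / 10)) (tbl tK x) (tbl tL x) (tbl (smT h0⁻¹ tC) x)) 2 1 3 0 6 1 (-1) :=
  (sideB hx hx').bothA (thrB hx hx') (en_pos (hx1 hx).le) (Or.inl rfl) (Or.inr rfl) fun y y' F =>
    bothA_cert (s1 := true) (s2 := false) rfl hκ (en_pos (hx1 hx).le) (esg_rng (hx1 hx).le (hx2 hx').le).1 (mo_v x) covB02 covB61 hx hx'
        Pool.Agent.Strip051.G.I6500_6900.Tab.C.BA06.c_pm_213 noCut_EA noExt_EA F trivial trivial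

theorem BA06_pm_303 {κ x : ℝ} (hκ : κ * h0 = ken x) (hx : ((697932185 : ℕ) : ℝ) / S ≤ x) (hx' : x ≤ (((697932185 : ℕ) : ℝ) + (42949674 : ℕ)) / S) :
    TriA PP.cur (VE (h0 * 0) 3 κ (h0 * x) (eng.v x) (h0 * (3 / 40)) (tnt (h0 * x) (3 / 10)) (tbl tK x) (tbl tL x) (tbl (smT h0⁻¹ tC) x)) 3 0 3 0 6 1 (-1) :=
  triA_j0

theorem BA06_pm_313 {κ x : ℝ} (hκ : κ * h0 = ken x) (hx : ((697932185 : ℕ) : ℝ) / S ≤ x) (hx' : x ≤ (((697932185 : ℕ) : ℝ) + (42949674 : ℕ)) / S) :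
    TriA PP.cur (VE (h0 * 0) 3 κ (h0 * x) (eng.v x) (h0 * (3 / 40)) (tnt (h0 * x) (3 / 10)) (tbl tK x) (tbl tL x) (tbl (smT h0⁻¹ tC) x)) 3 1 3 0 6 1 (-1) :=
  triA_j0

theorem BA06_mm_001 {κ x : ℝ} (hκ : κ * h0 = ken x) (hx : ((697932185 : ℕ) : ℝ) / S ≤ x) (hx' : x ≤ (((697932185 : ℕ) : ℝ) + (42949674 : ℕ)) / S) :
    TriA PP.cur (VE (h0 * 0) 3 κ (h0 * x) (eng.v x) (h0 * (3 / 40)) (tnt (h0 * x) (3 / 10)) (tbl tK x) (tbl tL x) (tbl (smT h0⁻¹ tC) x)) 0 0 1 0 6 (-1) (-1) :=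
  (sideB hx hx').bothA (thrB hx hx') (en_pos (hx1 hx).le) (Or.inr rfl) (Or.inr rfl) fun y y' F =>
    bothA_cert (s1 := false) (s2 := false) rfl hκ (en_pos (hx1 hx).le) (esg_rng (hx1 hx).le (hx2 hx').le).1 (mo_v x) covB00 covB60 hx hx'
        Pool.Agent.Strip051.G.I6500_6900.Tab.C.BA06.c_mm_001 noCut_EA noExt_EA F trivial trivial

theorem BA06_mm_011 {κ x : ℝ} (hκ : κ * h0 = ken x) (hx : ((697932185 : ℕ) : ℝ) / S ≤ x) (hx' : x ≤ (((697932185 : ℕ) : ℝ) + (42949674 : ℕ)) / S) :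
    TriA PP.cur (VE (h0 * 0) 3 κ (h0 * x) (eng.v x) (h0 * (3 / 40)) (tnt (h0 * x) (3 / 10)) (tbl tK x) (tbl tL x) (tbl (smT h0⁻¹ tC) x)) 0 1 1 0 6 (-1) (-1) :=
  (sideB hx hx').bothA (thrB hx hx') (en_pos (hx1 hx).le) (Or.inr rfl) (Or.inr rfl) fun y y' F =>
    bothA_cert (s1 := false) (s2 := false) rfl hκ (en_pos (hx1 hx).le) (esg_rng (hx1 hx).le (hx2 hx').le).1 (mo_v x) covB00 covB61 hx hx'
        Pool.Agent.Strip051.G.I6500_6900.Tab.C.BA06.c_mm_011 noCut_EA noExt_EA F trivial trivial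

theorem BA06_mm_012 {κ x : ℝ} (hκ : κ * h0 = ken x) (hx : ((697932185 : ℕ) : ℝ) / S ≤ x) (hx' : x ≤ (((697932185 : ℕ) : ℝ) + (42949674 : ℕ)) / S) :
    TriA PP.cur (VE (h0 * 0) 3 κ (h0 * x) (eng.v x) (h0 * (3 / 40)) (tnt (h0 * x) (3 / 10)) (tbl tK x) (tbl tL x) (tbl (smT h0⁻¹ tC) x)) 0 1 2 0 6 (-1) (-1) :=
  (sideB hx hx').bothA (thrB hx hx') (en_pos (hx1 hx).le) (Or.inr rfl) (Or.inr rfl) fun y y' F =>
    bothA_cert (s1 := false) (s2 := false) rfl hκ (en_pos (hx1 hx).le) (esg_rng (hx1 hx).le (hx2 hx').le).1 (mo_v x) covB00 covB61 hx hx'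
        Pool.Agent.Strip051.G.I6500_6900.Tab.C.BA06.c_mm_012 noCut_EA noExt_EA F trivial trivial

theorem BA06_mm_022 {κ x : ℝ} (hκ : κ * h0 = ken x) (hx : ((697932185 : ℕ) : ℝ) / S ≤ x) (hx' : x ≤ (((697932185 : ℕ) : ℝ) + (42949674 : ℕ)) / S) :
    TriA PP.cur (VE (h0 * 0) 3 κ (h0 * x) (eng.v x) (h0 * (3 / 40)) (tnt (h0 * x) (3 / 10)) (tbl tK x) (tbl tL x) (tbl (smT h0⁻¹ tC) x)) 0 2 2 0 6 (-1) (-1) :=
  (sideB hx hx').bothA (thrB hx hx') (en_pos (hx1 hx).le) (Or.inr rfl) (Or.inr rfl) fun y y' F =>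
    bothA_cert (s1 := false) (s2 := false) rfl hκ (en_pos (hx1 hx).le) (esg_rng (hx1 hx).le (hx2 hx').le).1 (mo_v x) covB00 covB62 hx hx'
        Pool.Agent.Strip051.G.I6500_6900.Tab.C.BA06.c_mm_022 noCut_EA noExt_EA F trivial trivial

theorem BA06_mm_023 {κ x : ℝ} (hκ : κ * h0 = ken x) (hx : ((697932185 : ℕ) : ℝ) / S ≤ x) (hx' : x ≤ (((697932185 : ℕ) : ℝ) + (42949674 : ℕ)) / S) :
    TriA PP.cur (VE (h0 * 0) 3 κ (h0 * x) (eng.v x) (h0 * (3 / 40)) (tnt (h0 * x) (3 / 10)) (tbl tK x) (tbl tL x) (tbl (smT h0⁻¹ tC) x)) 0 2 3 0 6 (-1) (-1) :=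
  (sideB hx hx').bothA (thrB hx hx') (en_pos (hx1 hx).le) (Or.inr rfl) (Or.inr rfl) fun y y' F =>
    bothA_cert (s1 := false) (s2 := false) rfl hκ (en_pos (hx1 hx).le) (esg_rng (hx1 hx).le (hx2 hx').le).1 (mo_v x) covB00 covB62 hx hx'
        Pool.Agent.Strip051.G.I6500_6900.Tab.C.BA06.c_mm_023 noCut_EA noExt_EA F trivial trivial

theorem BA06_mm_033 {κ x : ℝ} (hκ : κ * h0 = ken x) (hx : ((697932185 : ℕ) : ℝ) / S ≤ x) (hx' : x ≤ (((697932185 : ℕ) : ℝ) + (42949674 : ℕ)) / S) :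
    TriA PP.cur (VE (h0 * 0) 3 κ (h0 * x) (eng.v x) (h0 * (3 / 40)) (tnt (h0 * x) (3 / 10)) (tbl tK x) (tbl tL x) (tbl (smT h0⁻¹ tC) x)) 0 3 3 0 6 (-1) (-1) :=
  (sideB hx hx').bothA (thrB hx hx') (en_pos (hx1 hx).le) (Or.inr rfl) (Or.inr rfl) fun y y' F =>
    bothA_cert (s1 := false) (s2 := false) rfl hκ (en_pos (hx1 hx).le) (esg_rng (hx1 hx).le (hx2 hx').le).1 (mo_v x) covB00 covB63 hx hx'
        Pool.Agent.Strip051.G.I6500_6900.Tab.C.BA06.c_mm_033 noCut_EA noExt_EA F trivial trivial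

theorem BA06_mm_101 {κ x : ℝ} (hκ : κ * h0 = ken x) (hx : ((697932185 : ℕ) : ℝ) / S ≤ x) (hx' : x ≤ (((697932185 : ℕ) : ℝ) + (42949674 : ℕ)) / S) :
    TriA PP.cur (VE (h0 * 0) 3 κ (h0 * x) (eng.v x) (h0 * (3 / 40)) (tnt (h0 * x) (3 / 10)) (tbl tK x) (tbl tL x) (tbl (smT h0⁻¹ tC) x)) 1 0 1 0 6 (-1) (-1) :=
  (sideB hx hx').bothA (thrB hx hx') (en_pos (hx1 hx).le) (Or.inr rfl) (Or.inr rfl) fun y y' F =>
    bothA_cert (s1 := false) (s2 := false) rfl hκ (en_pos (hx1 hx).le) (esg_rng (hx1 hx).le (hx2 hx').le).1 (mo_v x) covB01 covB60 hx hx'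
        Pool.Agent.Strip051.G.I6500_6900.Tab.C.BA06.c_mm_101 noCut_EA noExt_EA F trivial trivial

theorem BA06_mm_102 {κ x : ℝ} (hκ : κ * h0 = ken x) (hx : ((697932185 : ℕ) : ℝ) / S ≤ x) (hx' : x ≤ (((697932185 : ℕ) : ℝ) + (42949674 : ℕ)) / S) :
    TriA PP.cur (VE (h0 * 0) 3 κ (h0 * x) (eng.v x) (h0 * (3 / 40)) (tnt (h0 * x) (3 / 10)) (tbl tK x) (tbl tL x) (tbl (smT h0⁻¹ tC) x)) 1 0 2 0 6 (-1) (-1) :=
  (sideB hx hx').bothA (thrB hx hx') (en_pos (hx1 hx).le) (Or.inr rfl) (Or.inr rfl) fun y y' F =>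
    bothA_cert (s1 := false) (s2 := false) rfl hκ (en_pos (hx1 hx).le) (esg_rng (hx1 hx).le (hx2 hx').le).1 (mo_v x) covB01 covB60 hx hx'
        Pool.Agent.Strip051.G.I6500_6900.Tab.C.BA06.c_mm_102 noCut_EA noExt_EA F trivial trivial

theorem BA06_mm_112 {κ x : ℝ} (hκ : κ * h0 = ken x) (hx : ((697932185 : ℕ) : ℝ) / S ≤ x) (hx' : x ≤ (((697932185 : ℕ) : ℝ) + (42949674 : ℕ)) / S) :
    TriA PP.cur (VE (h0 * 0) 3 κ (h0 * x) (eng.v x) (h0 * (3 / 40)) (tnt (h0 * x) (3 / 10)) (tbl tK x) (tbl tL x) (tbl (smT h0⁻¹ tC) x)) 1 1 2 0 6 (-1) (-1) :=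
  (sideB hx hx').bothA (thrB hx hx') (en_pos (hx1 hx).le) (Or.inr rfl) (Or.inr rfl) fun y y' F =>
    bothA_cert (s1 := false) (s2 := false) rfl hκ (en_pos (hx1 hx).le) (esg_rng (hx1 hx).le (hx2 hx').le).1 (mo_v x) covB01 covB61 hx hx'
        Pool.Agent.Strip051.G.I6500_6900.Tab.C.BA06.c_mm_112 noCut_EA noExt_EA F trivial trivial

theorem BA06_mm_113 {κ x : ℝ} (hκ : κ * h0 = ken x) (hx : ((697932185 : ℕ) : ℝ) / S ≤ x) (hx' : x ≤ (((697932185 : ℕ) : ℝ) + (42949674 : ℕ)) / S) :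
    TriA PP.cur (VE (h0 * 0) 3 κ (h0 * x) (eng.v x) (h0 * (3 / 40)) (tnt (h0 * x) (3 / 10)) (tbl tK x) (tbl tL x) (tbl (smT h0⁻¹ tC) x)) 1 1 3 0 6 (-1) (-1) :=
  (sideB hx hx').bothA (thrB hx hx') (en_pos (hx1 hx).le) (Or.inr rfl) (Or.inr rfl) fun y y' F =>
    bothA_cert (s1 := false) (s2 := false) rfl hκ (en_pos (hx1 hx).le) (esg_rng (hx1 hx).le (hx2 hx').le).1 (mo_v x) covB01 covB61 hx hx'
        Pool.Agent.Strip051.G.I6500_6900.Tab.C.BA06.c_mm_113 noCut_EA noExt_EA F trivial trivial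

theorem BA06_mm_123 {κ x : ℝ} (hκ : κ * h0 = ken x) (hx : ((697932185 : ℕ) : ℝ) / S ≤ x) (hx' : x ≤ (((697932185 : ℕ) : ℝ) + (42949674 : ℕ)) / S) :
    TriA PP.cur (VE (h0 * 0) 3 κ (h0 * x) (eng.v x) (h0 * (3 / 40)) (tnt (h0 * x) (3 / 10)) (tbl tK x) (tbl tL x) (tbl (smT h0⁻¹ tC) x)) 1 2 3 0 6 (-1) (-1) :=
  (sideB hx hx').bothA (thrB hx hx') (en_pos (hx1 hx).le) (Or.inr rfl) (Or.inr rfl) fun y y' F =>
    bothA_cert (s1 := false) (s2 := false) rfl hκ (en_pos (hx1 hx).le) (esg_rng (hx1 hx).le (hx2 hx').le).1 (mo_v x) covB01 covB62 hx hx'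
        Pool.Agent.Strip051.G.I6500_6900.Tab.C.BA06.c_mm_123 noCut_EA noExt_EA F trivial trivial

theorem BA06_mm_133 {κ x : ℝ} (hκ : κ * h0 = ken x) (hx : ((697932185 : ℕ) : ℝ) / S ≤ x) (hx' : x ≤ (((697932185 : ℕ) : ℝ) + (42949674 : ℕ)) / S) :
    TriA PP.cur (VE (h0 * 0) 3 κ (h0 * x) (eng.v x) (h0 * (3 / 40)) (tnt (h0 * x) (3 / 10)) (tbl tK x) (tbl tL x) (tbl (smT h0⁻¹ tC) x)) 1 3 3 0 6 (-1) (-1) :=
  (sideB hx hx').bothA (thrB hx hx') (en_pos (hx1 hx).le) (Or.inr rfl) (Or.inr rfl) fun y y' F =>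
    bothA_cert (s1 := false) (s2 := false) rfl hκ (en_pos (hx1 hx).le) (esg_rng (hx1 hx).le (hx2 hx').le).1 (mo_v x) covB01 covB63 hx hx'
        Pool.Agent.Strip051.G.I6500_6900.Tab.C.BA06.c_mm_133 noCut_EA noExt_EA F trivial trivial

theorem BA06_mm_202 {κ x : ℝ} (hκ : κ * h0 = ken x) (hx : ((697932185 : ℕ) : ℝ) / S ≤ x) (hx' : x ≤ (((697932185 : ℕ) : ℝ) + (42949674 : ℕ)) / S) :
    TriA PP.cur (VE (h0 * 0) 3 κ (h0 * x) (eng.v x) (h0 * (3 / 40)) (tnt (h0 * x) (3 / 10)) (tbl tK x) (tbl tL x) (tbl (smT h0⁻¹ tC) x)) 2 0 2 0 6 (-1) (-1) :=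
  (sideB hx hx').bothA (thrB hx hx') (en_pos (hx1 hx).le) (Or.inr rfl) (Or.inr rfl) fun y y' F =>
    bothA_cert (s1 := false) (s2 := false) rfl hκ (en_pos (hx1 hx).le) (esg_rng (hx1 hx).le (hx2 hx').le).1 (mo_v x) covB02 covB60 hx hx'
        Pool.Agent.Strip051.G.I6500_6900.Tab.C.BA06.c_mm_202 noCut_EA noExt_EA F trivial trivial

theorem BA06_mm_203 {κ x : ℝ} (hκ : κ * h0 = ken x) (hx : ((697932185 : ℕ) : ℝ) / S ≤ x) (hx' : x ≤ (((697932185 : ℕ) : ℝ) + (42949674 : ℕ)) / S) :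
    TriA PP.cur (VE (h0 * 0) 3 κ (h0 * x) (eng.v x) (h0 * (3 / 40)) (tnt (h0 * x) (3 / 10)) (tbl tK x) (tbl tL x) (tbl (smT h0⁻¹ tC) x)) 2 0 3 0 6 (-1) (-1) :=
  (sideB hx hx').bothA (thrB hx hx') (en_pos (hx1 hx).le) (Or.inr rfl) (Or.inr rfl) fun y y' F =>
    bothA_cert (s1 := false) (s2 := false) rfl hκ (en_pos (hx1 hx).le) (esg_rng (hx1 hx).le (hx2 hx').le).1 (mo_v x) covB02 covB60 hx hx'
        Pool.Agent.Strip051.G.I6500_6900.Tab.C.BA06.c_mm_203 noCut_EA noExt_EA F trivial trivial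

theorem BA06_mm_213 {κ x : ℝ} (hκ : κ * h0 = ken x) (hx : ((697932185 : ℕ) : ℝ) / S ≤ x) (hx' : x ≤ (((697932185 : ℕ) : ℝ) + (42949674 : ℕ)) / S) :
    TriA PP.cur (VE (h0 * 0) 3 κ (h0 * x) (eng.v x) (h0 * (3 / 40)) (tnt (h0 * x) (3 / 10)) (tbl tK x) (tbl tL x) (tbl (smT h0⁻¹ tC) x)) 2 1 3 0 6 (-1) (-1) :=
  (sideB hx hx').bothA (thrB hx hx') (en_pos (hx1 hx).le) (Or.inr rfl) (Or.inr rfl) fun y y' F =>
    bothA_cert (s1 := false) (s2 := false) rfl hκ (en_pos (hx1 hx).le) (esg_rng (hx1 hx).le (hx2 hx').le).1 (mo_v x) covB02 covB61 hx hx'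
        Pool.Agent.Strip051.G.I6500_6900.Tab.C.BA06.c_mm_213 noCut_EA noExt_EA F trivial trivial

theorem BA06_mm_303 {κ x : ℝ} (hκ : κ * h0 = ken x) (hx : ((697932185 : ℕ) : ℝ) / S ≤ x) (hx' : x ≤ (((697932185 : ℕ) : ℝ) + (42949674 : ℕ)) / S) :
    TriA PP.cur (VE (h0 * 0) 3 κ (h0 * x) (eng.v x) (h0 * (3 / 40)) (tnt (h0 * x) (3 / 10)) (tbl tK x) (tbl tL x) (tbl (smT h0⁻¹ tC) x)) 3 0 3 0 6 (-1) (-1) :=
  triA_j0

theorem BA06_mm_313 {κ x : ℝ} (hκ : κ * h0 = ken x) (hx : ((697932185 : ℕ) : ℝ) / S ≤ x) (hx' : x ≤ (((697932185 : ℕ) : ℝ) + (42949674 : ℕ)) / S) :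
    TriA PP.cur (VE (h0 * 0) 3 κ (h0 * x) (eng.v x) (h0 * (3 / 40)) (tnt (h0 * x) (3 / 10)) (tbl tK x) (tbl tL x) (tbl (smT h0⁻¹ tC) x)) 3 1 3 0 6 (-1) (-1) :=
  triA_j0

theorem BA06 {κ x : ℝ} (hκ : κ * h0 = ken x) (hx : ((697932185 : ℕ) : ℝ) / S ≤ x) (hx' : x ≤ (((697932185 : ℕ) : ℝ) + (42949674 : ℕ)) / S) : AllTA PP.cur (VE (h0 * 0) 3 κ (h0 * x) (eng.v x) (h0 * (3 / 40)) (tnt (h0 * x) (3 / 10)) (tbl tK x) (tbl tL x) (tbl (smT h0⁻¹ tC) x)) 0 6 where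
  pp := all17 (Q := fun a b c => TriA PP.cur (VE (h0 * 0) 3 κ (h0 * x) (eng.v x) (h0 * (3 / 40)) (tnt (h0 * x) (3 / 10)) (tbl tK x) (tbl tL x) (tbl (smT h0⁻¹ tC) x)) a b c 0 6 1 1)
    (BA06_pp_001 hκ hx hx') (BA06_pp_011 hκ hx hx') (BA06_pp_012 hκ hx hx') (BA06_pp_022 hκ hx hx') (BA06_pp_023 hκ hx hx') (BA06_pp_033 hκ hx hx') (BA06_pp_101 hκ hx hx') (BA06_pp_102 hκ hx hx') (BA06_pp_112 hκ hx hx') (BA06_pp_113 hκ hx hx') (BA06_pp_123 hκ hx hx') (BA06_pp_133 hκ hx hx') (BA06_pp_202 hκ hx hx') (BA06_pp_203 hκ hx hx') (BA06_pp_213 hκ hx hx') (BA06_pp_303 hκ hx hx') (BA06_pp_313 hκ hx hx')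
  pm := all17 (Q := fun a b c => TriA PP.cur (VE (h0 * 0) 3 κ (h0 * x) (eng.v x) (h0 * (3 / 40)) (tnt (h0 * x) (3 / 10)) (tbl tK x) (tbl tL x) (tbl (smT h0⁻¹ tC) x)) a b c 0 6 1 (-1))
    (BA06_pm_001 hκ hx hx') (BA06_pm_011 hκ hx hx') (BA06_pm_012 hκ hx hx') (BA06_pm_022 hκ hx hx') (BA06_pm_023 hκ hx hx') (BA06_pm_033 hκ hx hx') (BA06_pm_101 hκ hx hx') (BA06_pm_102 hκ hx hx') (BA06_pm_112 hκ hx hx') (BA06_pm_113 hκ hx hx') (BA06_pm_123 hκ hx hx') (BA06_pm_133 hκ hx hx') (BA06_pm_202 hκ hx hx') (BA06_pm_203 hκ hx hx') (BA06_pm_213 hκ hx hx') (BA06_pm_303 hκ hx hx') (BA06_pm_313 hκ hx hx')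
  mm := all17 (Q := fun a b c => TriA PP.cur (VE (h0 * 0) 3 κ (h0 * x) (eng.v x) (h0 * (3 / 40)) (tnt (h0 * x) (3 / 10)) (tbl tK x) (tbl tL x) (tbl (smT h0⁻¹ tC) x)) a b c 0 6 (-1) (-1))
    (BA06_mm_001 hκ hx hx') (BA06_mm_011 hκ hx hx') (BA06_mm_012 hκ hx hx') (BA06_mm_022 hκ hx hx') (BA06_mm_023 hκ hx hx') (BA06_mm_033 hκ hx hx') (BA06_mm_101 hκ hx hx') (BA06_mm_102 hκ hx hx') (BA06_mm_112 hκ hx hx') (BA06_mm_113 hκ hx hx') (BA06_mm_123 hκ hx hx') (BA06_mm_133 hκ hx hx') (BA06_mm_202 hκ hx hx') (BA06_mm_203 hκ hx hx') (BA06_mm_213 hκ hx hx') (BA06_mm_303 hκ hx hx') (BA06_mm_313 hκ hx hx')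

theorem BA07_pp_001 {κ x : ℝ} (hκ : κ * h0 = ken x) (hx : ((697932185 : ℕ) : ℝ) / S ≤ x) (hx' : x ≤ (((697932185 : ℕ) : ℝ) + (42949674 : ℕ)) / S) :
    TriA PP.cur (VE (h0 * 0) 3 κ (h0 * x) (eng.v x) (h0 * (3 / 40)) (tnt (h0 * x) (3 / 10)) (tbl tK x) (tbl tL x) (tbl (smT h0⁻¹ tC) x)) 0 0 1 0 7 1 1 :=
  (sideB hx hx').bothA (thrB hx hx') (en_pos (hx1 hx).le) (Or.inl rfl) (Or.inl rfl) fun y y' F =>
    bothA_cert (s1 := true) (s2 := true) rfl hκ (en_pos (hx1 hx).le) (esg_rng (hx1 hx).le (hx2 hx').le).1 (mo_v x) covB00 covB70 hx hx'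
        Pool.Agent.Strip051.G.I6500_6900.Tab.C.BA07.c_pp_001 (cutEA_cons (Pool.Agent.Strip051.G.I6500_6900.Tab.SE.se_A07pp_001_s hκ hx hx' cutEA_nil) cutEA_nil) noExt_EA F trivial trivial

theorem BA07_pp_011 {κ x : ℝ} (hκ : κ * h0 = ken x) (hx : ((697932185 : ℕ) : ℝ) / S ≤ x) (hx' : x ≤ (((697932185 : ℕ) : ℝ) + (42949674 : ℕ)) / S) :
    TriA PP.cur (VE (h0 * 0) 3 κ (h0 * x) (eng.v x) (h0 * (3 / 40)) (tnt (h0 * x) (3 / 10)) (tbl tK x) (tbl tL x) (tbl (smT h0⁻¹ tC) x)) 0 1 1 0 7 1 1 :=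
  (sideB hx hx').bothA (thrB hx hx') (en_pos (hx1 hx).le) (Or.inl rfl) (Or.inl rfl) fun y y' F =>
    bothA_cert (s1 := true) (s2 := true) rfl hκ (en_pos (hx1 hx).le) (esg_rng (hx1 hx).le (hx2 hx').le).1 (mo_v x) covB00 covB71 hx hx'
        Pool.Agent.Strip051.G.I6500_6900.Tab.C.BA07.c_pp_011 (cutEA_cons (Pool.Agent.Strip051.G.I6500_6900.Tab.SE.se_A07pp_011_s hκ hx hx' cutEA_nil) cutEA_nil) noExt_EA F trivial trivial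

theorem BA07_pp_012 {κ x : ℝ} (hκ : κ * h0 = ken x) (hx : ((697932185 : ℕ) : ℝ) / S ≤ x) (hx' : x ≤ (((697932185 : ℕ) : ℝ) + (42949674 : ℕ)) / S) :
    TriA PP.cur (VE (h0 * 0) 3 κ (h0 * x) (eng.v x) (h0 * (3 / 40)) (tnt (h0 * x) (3 / 10)) (tbl tK x) (tbl tL x) (tbl (smT h0⁻¹ tC) x)) 0 1 2 0 7 1 1 :=
  (sideB hx hx').bothA (thrB hx hx') (en_pos (hx1 hx).le) (Or.inl rfl) (Or.inl rfl) fun y y' F =>
    bothA_cert (s1 := true) (s2 := true) rfl hκ (en_pos (hx1 hx).le) (esg_rng (hx1 hx).le (hx2 hx').le).1 (mo_v x) covB00 covB71 hx hx'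
        Pool.Agent.Strip051.G.I6500_6900.Tab.C.BA07.c_pp_012 (cutEA_cons (Pool.Agent.Strip051.G.I6500_6900.Tab.SE.se_A07pp_012_s hκ hx hx' cutEA_nil) cutEA_nil) noExt_EA F trivial trivial

theorem BA07_pp_022 {κ x : ℝ} (hκ : κ * h0 = ken x) (hx : ((697932185 : ℕ) : ℝ) / S ≤ x) (hx' : x ≤ (((697932185 : ℕ) : ℝ) + (42949674 : ℕ)) / S) :
    TriA PP.cur (VE (h0 * 0) 3 κ (h0 * x) (eng.v x) (h0 * (3 / 40)) (tnt (h0 * x) (3 / 10)) (tbl tK x) (tbl tL x) (tbl (smT h0⁻¹ tC) x)) 0 2 2 0 7 1 1 :=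
  (sideB hx hx').bothA (thrB hx hx') (en_pos (hx1 hx).le) (Or.inl rfl) (Or.inl rfl) fun y y' F =>
    bothA_cert (s1 := true) (s2 := true) rfl hκ (en_pos (hx1 hx).le) (esg_rng (hx1 hx).le (hx2 hx').le).1 (mo_v x) covB00 covB72 hx hx'
        Pool.Agent.Strip051.G.I6500_6900.Tab.C.BA07.c_pp_022 (cutEA_cons (Pool.Agent.Strip051.G.I6500_6900.Tab.SE.se_A07pp_022_s hκ hx hx' cutEA_nil) cutEA_nil) noExt_EA F trivial trivial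

theorem BA07_pp_023 {κ x : ℝ} (hκ : κ * h0 = ken x) (hx : ((697932185 : ℕ) : ℝ) / S ≤ x) (hx' : x ≤ (((697932185 : ℕ) : ℝ) + (42949674 : ℕ)) / S) :
    TriA PP.cur (VE (h0 * 0) 3 κ (h0 * x) (eng.v x) (h0 * (3 / 40)) (tnt (h0 * x) (3 / 10)) (tbl tK x) (tbl tL x) (tbl (smT h0⁻¹ tC) x)) 0 2 3 0 7 1 1 :=
  (sideB hx hx').bothA (thrB hx hx') (en_pos (hx1 hx).le) (Or.inl rfl) (Or.inl rfl) fun y y' F =>
    bothA_cert (s1 := true) (s2 := true) rfl hκ (en_pos (hx1 hx).le) (esg_rng (hx1 hx).le (hx2 hx').le).1 (mo_v x) covB00 covB72 hx hx'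
        Pool.Agent.Strip051.G.I6500_6900.Tab.C.BA07.c_pp_023 (cutEA_cons (Pool.Agent.Strip051.G.I6500_6900.Tab.SE.se_A07pp_023_s hκ hx hx' cutEA_nil) cutEA_nil) noExt_EA F trivial trivial

theorem BA07_pp_033 {κ x : ℝ} (hκ : κ * h0 = ken x) (hx : ((697932185 : ℕ) : ℝ) / S ≤ x) (hx' : x ≤ (((697932185 : ℕ) : ℝ) + (42949674 : ℕ)) / S) :
    TriA PP.cur (VE (h0 * 0) 3 κ (h0 * x) (eng.v x) (h0 * (3 / 40)) (tnt (h0 * x) (3 / 10)) (tbl tK x) (tbl tL x) (tbl (smT h0⁻¹ tC) x)) 0 3 3 0 7 1 1 :=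
  (sideB hx hx').bothA (thrB hx hx') (en_pos (hx1 hx).le) (Or.inl rfl) (Or.inl rfl) fun y y' F =>
    bothA_cert (s1 := true) (s2 := true) rfl hκ (en_pos (hx1 hx).le) (esg_rng (hx1 hx).le (hx2 hx').le).1 (mo_v x) covB00 covB73 hx hx'
        Pool.Agent.Strip051.G.I6500_6900.Tab.C.BA07.c_pp_033 (cutEA_cons (Pool.Agent.Strip051.G.I6500_6900.Tab.SE.se_A07pp_033_s hκ hx hx' cutEA_nil) cutEA_nil) noExt_EA F trivial trivial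

theorem BA07_pp_101 {κ x : ℝ} (hκ : κ * h0 = ken x) (hx : ((697932185 : ℕ) : ℝ) / S ≤ x) (hx' : x ≤ (((697932185 : ℕ) : ℝ) + (42949674 : ℕ)) / S) :
    TriA PP.cur (VE (h0 * 0) 3 κ (h0 * x) (eng.v x) (h0 * (3 / 40)) (tnt (h0 * x) (3 / 10)) (tbl tK x) (tbl tL x) (tbl (smT h0⁻¹ tC) x)) 1 0 1 0 7 1 1 :=
  (sideB hx hx').bothA (thrB hx hx') (en_pos (hx1 hx).le) (Or.inl rfl) (Or.inl rfl) fun y y' F =>
    bothA_cert (s1 := true) (s2 := true) rfl hκ (en_pos (hx1 hx).le) (esg_rng (hx1 hx).le (hx2 hx').le).1 (mo_v x) covB01 covB70 hx hx'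
        Pool.Agent.Strip051.G.I6500_6900.Tab.C.BA07.c_pp_101 (cutEA_cons (Pool.Agent.Strip051.G.I6500_6900.Tab.SE.se_A07pp_101_s hκ hx hx' cutEA_nil) cutEA_nil) noExt_EA F trivial trivial

theorem BA07_pp_102 {κ x : ℝ} (hκ : κ * h0 = ken x) (hx : ((697932185 : ℕ) : ℝ) / S ≤ x) (hx' : x ≤ (((697932185 : ℕ) : ℝ) + (42949674 : ℕ)) / S) :
    TriA PP.cur (VE (h0 * 0) 3 κ (h0 * x) (eng.v x) (h0 * (3 / 40)) (tnt (h0 * x) (3 / 10)) (tbl tK x) (tbl tL x) (tbl (smT h0⁻¹ tC) x)) 1 0 2 0 7 1 1 :=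
  (sideB hx hx').bothA (thrB hx hx') (en_pos (hx1 hx).le) (Or.inl rfl) (Or.inl rfl) fun y y' F =>
    bothA_cert (s1 := true) (s2 := true) rfl hκ (en_pos (hx1 hx).le) (esg_rng (hx1 hx).le (hx2 hx').le).1 (mo_v x) covB01 covB70 hx hx'
        Pool.Agent.Strip051.G.I6500_6900.Tab.C.BA07.c_pp_102 (cutEA_cons (Pool.Agent.Strip051.G.I6500_6900.Tab.SE.se_A07pp_102_s hκ hx hx' cutEA_nil) cutEA_nil) noExt_EA F trivial trivial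

theorem BA07_pp_112 {κ x : ℝ} (hκ : κ * h0 = ken x) (hx : ((697932185 : ℕ) : ℝ) / S ≤ x) (hx' : x ≤ (((697932185 : ℕ) : ℝ) + (42949674 : ℕ)) / S) :
    TriA PP.cur (VE (h0 * 0) 3 κ (h0 * x) (eng.v x) (h0 * (3 / 40)) (tnt (h0 * x) (3 / 10)) (tbl tK x) (tbl tL x) (tbl (smT h0⁻¹ tC) x)) 1 1 2 0 7 1 1 :=
  (sideB hx hx').bothA (thrB hx hx') (en_pos (hx1 hx).le) (Or.inl rfl) (Or.inl rfl) fun y y' F =>
    bothA_cert (s1 := true) (s2 := true) rfl hκ (en_pos (hx1 hx).le) (esg_rng (hx1 hx).le (hx2 hx').le).1 (mo_v x) covB01 covB71 hx hx'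
        Pool.Agent.Strip051.G.I6500_6900.Tab.C.BA07.c_pp_112 (cutEA_cons (Pool.Agent.Strip051.G.I6500_6900.Tab.SE.se_A07pp_112_s hκ hx hx' cutEA_nil) cutEA_nil) noExt_EA F trivial trivial

theorem BA07_pp_113 {κ x : ℝ} (hκ : κ * h0 = ken x) (hx : ((697932185 : ℕ) : ℝ) / S ≤ x) (hx' : x ≤ (((697932185 : ℕ) : ℝ) + (42949674 : ℕ)) / S) :
    TriA PP.cur (VE (h0 * 0) 3 κ (h0 * x) (eng.v x) (h0 * (3 / 40)) (tnt (h0 * x) (3 / 10)) (tbl tK x) (tbl tL x) (tbl (smT h0⁻¹ tC) x)) 1 1 3 0 7 1 1 :=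
  (sideB hx hx').bothA (thrB hx hx') (en_pos (hx1 hx).le) (Or.inl rfl) (Or.inl rfl) fun y y' F =>
    bothA_cert (s1 := true) (s2 := true) rfl hκ (en_pos (hx1 hx).le) (esg_rng (hx1 hx).le (hx2 hx').le).1 (mo_v x) covB01 covB71 hx hx'
        Pool.Agent.Strip051.G.I6500_6900.Tab.C.BA07.c_pp_113 (cutEA_cons (Pool.Agent.Strip051.G.I6500_6900.Tab.SE.se_A07pp_113_s hκ hx hx' cutEA_nil) cutEA_nil) noExt_EA F trivial trivial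

theorem BA07_pp_123 {κ x : ℝ} (hκ : κ * h0 = ken x) (hx : ((697932185 : ℕ) : ℝ) / S ≤ x) (hx' : x ≤ (((697932185 : ℕ) : ℝ) + (42949674 : ℕ)) / S) :
    TriA PP.cur (VE (h0 * 0) 3 κ (h0 * x) (eng.v x) (h0 * (3 / 40)) (tnt (h0 * x) (3 / 10)) (tbl tK x) (tbl tL x) (tbl (smT h0⁻¹ tC) x)) 1 2 3 0 7 1 1 :=
  (sideB hx hx').bothA (thrB hx hx') (en_pos (hx1 hx).le) (Or.inl rfl) (Or.inl rfl) fun y y' F =>
    bothA_cert (s1 := true) (s2 := true) rfl hκ (en_pos (hx1 hx).le) (esg_rng (hx1 hx).le (hx2 hx').le).1 (mo_v x) covB01 covB72 hx hx'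
        Pool.Agent.Strip051.G.I6500_6900.Tab.C.BA07.c_pp_123 (cutEA_cons (Pool.Agent.Strip051.G.I6500_6900.Tab.SE.se_A07pp_123_s hκ hx hx' cutEA_nil) cutEA_nil) noExt_EA F trivial trivial

theorem BA07_pp_133 {κ x : ℝ} (hκ : κ * h0 = ken x) (hx : ((697932185 : ℕ) : ℝ) / S ≤ x) (hx' : x ≤ (((697932185 : ℕ) : ℝ) + (42949674 : ℕ)) / S) :
    TriA PP.cur (VE (h0 * 0) 3 κ (h0 * x) (eng.v x) (h0 * (3 / 40)) (tnt (h0 * x) (3 / 10)) (tbl tK x) (tbl tL x) (tbl (smT h0⁻¹ tC) x)) 1 3 3 0 7 1 1 :=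
  (sideB hx hx').bothA (thrB hx hx') (en_pos (hx1 hx).le) (Or.inl rfl) (Or.inl rfl) fun y y' F =>
    bothA_cert (s1 := true) (s2 := true) rfl hκ (en_pos (hx1 hx).le) (esg_rng (hx1 hx).le (hx2 hx').le).1 (mo_v x) covB01 covB73 hx hx'
        Pool.Agent.Strip051.G.I6500_6900.Tab.C.BA07.c_pp_133 (cutEA_cons (Pool.Agent.Strip051.G.I6500_6900.Tab.SE.se_A07pp_133_s hκ hx hx' cutEA_nil) cutEA_nil) noExt_EA F trivial trivial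

theorem BA07_pp_202 {κ x : ℝ} (hκ : κ * h0 = ken x) (hx : ((697932185 : ℕ) : ℝ) / S ≤ x) (hx' : x ≤ (((697932185 : ℕ) : ℝ) + (42949674 : ℕ)) / S) :
    TriA PP.cur (VE (h0 * 0) 3 κ (h0 * x) (eng.v x) (h0 * (3 / 40)) (tnt (h0 * x) (3 / 10)) (tbl tK x) (tbl tL x) (tbl (smT h0⁻¹ tC) x)) 2 0 2 0 7 1 1 :=
  (sideB hx hx').bothA (thrB hx hx') (en_pos (hx1 hx).le) (Or.inl rfl) (Or.inl rfl) fun y y' F =>
    bothA_cert (s1 := true) (s2 := true) rfl hκ (en_pos (hx1 hx).le) (esg_rng (hx1 hx).le (hx2 hx').le).1 (mo_v x) covB02 covB70 hx hx'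
        Pool.Agent.Strip051.G.I6500_6900.Tab.C.BA07.c_pp_202 (cutEA_cons (Pool.Agent.Strip051.G.I6500_6900.Tab.SE.se_A07pp_202_s hκ hx hx' cutEA_nil) cutEA_nil) noExt_EA F trivial trivial

theorem BA07_pp_203 {κ x : ℝ} (hκ : κ * h0 = ken x) (hx : ((697932185 : ℕ) : ℝ) / S ≤ x) (hx' : x ≤ (((697932185 : ℕ) : ℝ) + (42949674 : ℕ)) / S) :
    TriA PP.cur (VE (h0 * 0) 3 κ (h0 * x) (eng.v x) (h0 * (3 / 40)) (tnt (h0 * x) (3 / 10)) (tbl tK x) (tbl tL x) (tbl (smT h0⁻¹ tC) x)) 2 0 3 0 7 1 1 :=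
  (sideB hx hx').bothA (thrB hx hx') (en_pos (hx1 hx).le) (Or.inl rfl) (Or.inl rfl) fun y y' F =>
    bothA_cert (s1 := true) (s2 := true) rfl hκ (en_pos (hx1 hx).le) (esg_rng (hx1 hx).le (hx2 hx').le).1 (mo_v x) covB02 covB70 hx hx'
        Pool.Agent.Strip051.G.I6500_6900.Tab.C.BA07.c_pp_203 (cutEA_cons (Pool.Agent.Strip051.G.I6500_6900.Tab.SE.se_A07pp_203_s hκ hx hx' cutEA_nil) cutEA_nil) noExt_EA F trivial trivial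

theorem BA07_pp_213 {κ x : ℝ} (hκ : κ * h0 = ken x) (hx : ((697932185 : ℕ) : ℝ) / S ≤ x) (hx' : x ≤ (((697932185 : ℕ) : ℝ) + (42949674 : ℕ)) / S) :
    TriA PP.cur (VE (h0 * 0) 3 κ (h0 * x) (eng.v x) (h0 * (3 / 40)) (tnt (h0 * x) (3 / 10)) (tbl tK x) (tbl tL x) (tbl (smT h0⁻¹ tC) x)) 2 1 3 0 7 1 1 :=
  (sideB hx hx').bothA (thrB hx hx') (en_pos (hx1 hx).le) (Or.inl rfl) (Or.inl rfl) fun y y' F =>
    bothA_cert (s1 := true) (s2 := true) rfl hκ (en_pos (hx1 hx).le) (esg_rng (hx1 hx).le (hx2 hx').le).1 (mo_v x) covB02 covB71 hx hx'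
        Pool.Agent.Strip051.G.I6500_6900.Tab.C.BA07.c_pp_213 (cutEA_cons (Pool.Agent.Strip051.G.I6500_6900.Tab.SE.se_A07pp_213_s hκ hx hx' cutEA_nil) cutEA_nil) noExt_EA F trivial trivial

theorem BA07_pp_303 {κ x : ℝ} (hκ : κ * h0 = ken x) (hx : ((697932185 : ℕ) : ℝ) / S ≤ x) (hx' : x ≤ (((697932185 : ℕ) : ℝ) + (42949674 : ℕ)) / S) :
    TriA PP.cur (VE (h0 * 0) 3 κ (h0 * x) (eng.v x) (h0 * (3 / 40)) (tnt (h0 * x) (3 / 10)) (tbl tK x) (tbl tL x) (tbl (smT h0⁻¹ tC) x)) 3 0 3 0 7 1 1 :=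
  triA_j0

theorem BA07_pp_313 {κ x : ℝ} (hκ : κ * h0 = ken x) (hx : ((697932185 : ℕ) : ℝ) / S ≤ x) (hx' : x ≤ (((697932185 : ℕ) : ℝ) + (42949674 : ℕ)) / S) :
    TriA PP.cur (VE (h0 * 0) 3 κ (h0 * x) (eng.v x) (h0 * (3 / 40)) (tnt (h0 * x) (3 / 10)) (tbl tK x) (tbl tL x) (tbl (smT h0⁻¹ tC) x)) 3 1 3 0 7 1 1 :=
  triA_j0

theorem BA07_pm_001 {κ x : ℝ} (hκ : κ * h0 = ken x) (hx : ((697932185 : ℕ) : ℝ) / S ≤ x) (hx' : x ≤ (((697932185 : ℕ) : ℝ) + (42949674 : ℕ)) / S) :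
    TriA PP.cur (VE (h0 * 0) 3 κ (h0 * x) (eng.v x) (h0 * (3 / 40)) (tnt (h0 * x) (3 / 10)) (tbl tK x) (tbl tL x) (tbl (smT h0⁻¹ tC) x)) 0 0 1 0 7 1 (-1) :=
  (sideB hx hx').bothA (thrB hx hx') (en_pos (hx1 hx).le) (Or.inl rfl) (Or.inr rfl) fun y y' F =>
    bothA_cert (s1 := true) (s2 := false) rfl hκ (en_pos (hx1 hx).le) (esg_rng (hx1 hx).le (hx2 hx').le).1 (mo_v x) covB00 covB70 hx hx'
        Pool.Agent.Strip051.G.I6500_6900.Tab.C.BA07.c_pm_001 (cutEA_cons (Pool.Agent.Strip051.G.I6500_6900.Tab.SE.se_A07pm_001_s hκ hx hx' cutEA_nil) cutEA_nil) noExt_EA F trivial trivial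

theorem BA07_pm_011 {κ x : ℝ} (hκ : κ * h0 = ken x) (hx : ((697932185 : ℕ) : ℝ) / S ≤ x) (hx' : x ≤ (((697932185 : ℕ) : ℝ) + (42949674 : ℕ)) / S) :
    TriA PP.cur (VE (h0 * 0) 3 κ (h0 * x) (eng.v x) (h0 * (3 / 40)) (tnt (h0 * x) (3 / 10)) (tbl tK x) (tbl tL x) (tbl (smT h0⁻¹ tC) x)) 0 1 1 0 7 1 (-1) :=
  (sideB hx hx').bothA (thrB hx hx') (en_pos (hx1 hx).le) (Or.inl rfl) (Or.inr rfl) fun y y' F =>
    bothA_cert (s1 := true) (s2 := false) rfl hκ (en_pos (hx1 hx).le) (esg_rng (hx1 hx).le (hx2 hx').le).1 (mo_v x) covB00 covB71 hx hx'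
        Pool.Agent.Strip051.G.I6500_6900.Tab.C.BA07.c_pm_011 (cutEA_cons (Pool.Agent.Strip051.G.I6500_6900.Tab.SE.se_A07pm_011_s hκ hx hx' (cutEA_cons (Pool.Agent.Strip051.G.I6500_6900.Tab.altB_A011R_07 hκ hx hx') cutEA_nil)) (cutEA_cons (Pool.Agent.Strip051.G.I6500_6900.Tab.altB_A011R_07 hκ hx hx') cutEA_nil)) noExt_EA F trivial trivial

theorem BA07_pm_012 {κ x : ℝ} (hκ : κ * h0 = ken x) (hx : ((697932185 : ℕ) : ℝ) / S ≤ x) (hx' : x ≤ (((697932185 : ℕ) : ℝ) + (42949674 : ℕ)) / S) :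
    TriA PP.cur (VE (h0 * 0) 3 κ (h0 * x) (eng.v x) (h0 * (3 / 40)) (tnt (h0 * x) (3 / 10)) (tbl tK x) (tbl tL x) (tbl (smT h0⁻¹ tC) x)) 0 1 2 0 7 1 (-1) :=
  (sideB hx hx').bothA (thrB hx hx') (en_pos (hx1 hx).le) (Or.inl rfl) (Or.inr rfl) fun y y' F =>
    bothA_cert (s1 := true) (s2 := false) rfl hκ (en_pos (hx1 hx).le) (esg_rng (hx1 hx).le (hx2 hx').le).1 (mo_v x) covB00 covB71 hx hx'
        Pool.Agent.Strip051.G.I6500_6900.Tab.C.BA07.c_pm_012 (cutEA_cons (Pool.Agent.Strip051.G.I6500_6900.Tab.SE.se_A07pm_012_s hκ hx hx' (cutEA_cons (Pool.Agent.Strip051.G.I6500_6900.Tab.altB_A012R_07 hκ hx hx') cutEA_nil)) (cutEA_cons (Pool.Agent.Strip051.G.I6500_6900.Tab.altB_A012R_07 hκ hx hx') cutEA_nil)) noExt_EA F trivial trivial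

theorem BA07_pm_022 {κ x : ℝ} (hκ : κ * h0 = ken x) (hx : ((697932185 : ℕ) : ℝ) / S ≤ x) (hx' : x ≤ (((697932185 : ℕ) : ℝ) + (42949674 : ℕ)) / S) :
    TriA PP.cur (VE (h0 * 0) 3 κ (h0 * x) (eng.v x) (h0 * (3 / 40)) (tnt (h0 * x) (3 / 10)) (tbl tK x) (tbl tL x) (tbl (smT h0⁻¹ tC) x)) 0 2 2 0 7 1 (-1) :=
  (sideB hx hx').bothA (thrB hx hx') (en_pos (hx1 hx).le) (Or.inl rfl) (Or.inr rfl) fun y y' F =>
    bothA_cert (s1 := true) (s2 := false) rfl hκ (en_pos (hx1 hx).le) (esg_rng (hx1 hx).le (hx2 hx').le).1 (mo_v x) covB00 covB72 hx hx'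
        Pool.Agent.Strip051.G.I6500_6900.Tab.C.BA07.c_pm_022 (cutEA_cons (Pool.Agent.Strip051.G.I6500_6900.Tab.SE.se_A07pm_022_s hκ hx hx' (cutEA_cons (Pool.Agent.Strip051.G.I6500_6900.Tab.altB_A022R_07 hκ hx hx') cutEA_nil)) (cutEA_cons (Pool.Agent.Strip051.G.I6500_6900.Tab.altB_A022R_07 hκ hx hx') cutEA_nil)) noExt_EA F trivial trivial

theorem BA07_pm_023 {κ x : ℝ} (hκ : κ * h0 = ken x) (hx : ((697932185 : ℕ) : ℝ) / S ≤ x) (hx' : x ≤ (((697932185 : ℕ) : ℝ) + (42949674 : ℕ)) / S) :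
    TriA PP.cur (VE (h0 * 0) 3 κ (h0 * x) (eng.v x) (h0 * (3 / 40)) (tnt (h0 * x) (3 / 10)) (tbl tK x) (tbl tL x) (tbl (smT h0⁻¹ tC) x)) 0 2 3 0 7 1 (-1) :=
  (sideB hx hx').bothA (thrB hx hx') (en_pos (hx1 hx).le) (Or.inl rfl) (Or.inr rfl) fun y y' F =>
    bothA_cert (s1 := true) (s2 := false) rfl hκ (en_pos (hx1 hx).le) (esg_rng (hx1 hx).le (hx2 hx').le).1 (mo_v x) covB00 covB72 hx hx'
        Pool.Agent.Strip051.G.I6500_6900.Tab.C.BA07.c_pm_023 (cutEA_cons (Pool.Agent.Strip051.G.I6500_6900.Tab.SE.se_A07pm_023_s hκ hx hx' cutEA_nil) cutEA_nil) noExt_EA F trivial trivial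

theorem BA07_pm_033 {κ x : ℝ} (hκ : κ * h0 = ken x) (hx : ((697932185 : ℕ) : ℝ) / S ≤ x) (hx' : x ≤ (((697932185 : ℕ) : ℝ) + (42949674 : ℕ)) / S) :
    TriA PP.cur (VE (h0 * 0) 3 κ (h0 * x) (eng.v x) (h0 * (3 / 40)) (tnt (h0 * x) (3 / 10)) (tbl tK x) (tbl tL x) (tbl (smT h0⁻¹ tC) x)) 0 3 3 0 7 1 (-1) :=
  (sideB hx hx').bothA (thrB hx hx') (en_pos (hx1 hx).le) (Or.inl rfl) (Or.inr rfl) fun y y' F =>
    bothA_cert (s1 := true) (s2 := false) rfl hκ (en_pos (hx1 hx).le) (esg_rng (hx1 hx).le (hx2 hx').le).1 (mo_v x) covB00 covB73 hx hx'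
        Pool.Agent.Strip051.G.I6500_6900.Tab.C.BA07.c_pm_033 (cutEA_cons (Pool.Agent.Strip051.G.I6500_6900.Tab.SE.se_A07pm_033_s hκ hx hx' cutEA_nil) cutEA_nil) noExt_EA F trivial trivial

theorem BA07_pm_101 {κ x : ℝ} (hκ : κ * h0 = ken x) (hx : ((697932185 : ℕ) : ℝ) / S ≤ x) (hx' : x ≤ (((697932185 : ℕ) : ℝ) + (42949674 : ℕ)) / S) :
    TriA PP.cur (VE (h0 * 0) 3 κ (h0 * x) (eng.v x) (h0 * (3 / 40)) (tnt (h0 * x) (3 / 10)) (tbl tK x) (tbl tL x) (tbl (smT h0⁻¹ tC) x)) 1 0 1 0 7 1 (-1) :=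
  (sideB hx hx').bothA (thrB hx hx') (en_pos (hx1 hx).le) (Or.inl rfl) (Or.inr rfl) fun y y' F =>
    bothA_cert (s1 := true) (s2 := false) rfl hκ (en_pos (hx1 hx).le) (esg_rng (hx1 hx).le (hx2 hx').le).1 (mo_v x) covB01 covB70 hx hx'
        Pool.Agent.Strip051.G.I6500_6900.Tab.C.BA07.c_pm_101 (cutEA_cons (Pool.Agent.Strip051.G.I6500_6900.Tab.SE.se_A07pm_101_s hκ hx hx' cutEA_nil) cutEA_nil) noExt_EA F trivial trivial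

theorem BA07_pm_102 {κ x : ℝ} (hκ : κ * h0 = ken x) (hx : ((697932185 : ℕ) : ℝ) / S ≤ x) (hx' : x ≤ (((697932185 : ℕ) : ℝ) + (42949674 : ℕ)) / S) :
    TriA PP.cur (VE (h0 * 0) 3 κ (h0 * x) (eng.v x) (h0 * (3 / 40)) (tnt (h0 * x) (3 / 10)) (tbl tK x) (tbl tL x) (tbl (smT h0⁻¹ tC) x)) 1 0 2 0 7 1 (-1) :=
  (sideB hx hx').bothA (thrB hx hx') (en_pos (hx1 hx).le) (Or.inl rfl) (Or.inr rfl) fun y y' F =>
    bothA_cert (s1 := true) (s2 := false) rfl hκ (en_pos (hx1 hx).le) (esg_rng (hx1 hx).le (hx2 hx').le).1 (mo_v x) covB01 covB70 hx hx'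
        Pool.Agent.Strip051.G.I6500_6900.Tab.C.BA07.c_pm_102 (cutEA_cons (Pool.Agent.Strip051.G.I6500_6900.Tab.SE.se_A07pm_102_s hκ hx hx' cutEA_nil) cutEA_nil) noExt_EA F trivial trivial

theorem BA07_pm_112 {κ x : ℝ} (hκ : κ * h0 = ken x) (hx : ((697932185 : ℕ) : ℝ) / S ≤ x) (hx' : x ≤ (((697932185 : ℕ) : ℝ) + (42949674 : ℕ)) / S) :
    TriA PP.cur (VE (h0 * 0) 3 κ (h0 * x) (eng.v x) (h0 * (3 / 40)) (tnt (h0 * x) (3 / 10)) (tbl tK x) (tbl tL x) (tbl (smT h0⁻¹ tC) x)) 1 1 2 0 7 1 (-1) :=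
  (sideB hx hx').bothA (thrB hx hx') (en_pos (hx1 hx).le) (Or.inl rfl) (Or.inr rfl) fun y y' F =>
    bothA_cert (s1 := true) (s2 := false) rfl hκ (en_pos (hx1 hx).le) (esg_rng (hx1 hx).le (hx2 hx').le).1 (mo_v x) covB01 covB71 hx hx'
        Pool.Agent.Strip051.G.I6500_6900.Tab.C.BA07.c_pm_112 (cutEA_cons (Pool.Agent.Strip051.G.I6500_6900.Tab.SE.se_A07pm_112_s hκ hx hx' cutEA_nil) cutEA_nil) noExt_EA F trivial trivial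

theorem BA07_pm_113 {κ x : ℝ} (hκ : κ * h0 = ken x) (hx : ((697932185 : ℕ) : ℝ) / S ≤ x) (hx' : x ≤ (((697932185 : ℕ) : ℝ) + (42949674 : ℕ)) / S) :
    TriA PP.cur (VE (h0 * 0) 3 κ (h0 * x) (eng.v x) (h0 * (3 / 40)) (tnt (h0 * x) (3 / 10)) (tbl tK x) (tbl tL x) (tbl (smT h0⁻¹ tC) x)) 1 1 3 0 7 1 (-1) :=
  (sideB hx hx').bothA (thrB hx hx') (en_pos (hx1 hx).le) (Or.inl rfl) (Or.inr rfl) fun y y' F =>
    bothA_cert (s1 := true) (s2 := false) rfl hκ (en_pos (hx1 hx).le) (esg_rng (hx1 hx).le (hx2 hx').le).1 (mo_v x) covB01 covB71 hx hx'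
        Pool.Agent.Strip051.G.I6500_6900.Tab.C.BA07.c_pm_113 (cutEA_cons (Pool.Agent.Strip051.G.I6500_6900.Tab.SE.se_A07pm_113_s hκ hx hx' cutEA_nil) cutEA_nil) noExt_EA F trivial trivial

theorem BA07_pm_123 {κ x : ℝ} (hκ : κ * h0 = ken x) (hx : ((697932185 : ℕ) : ℝ) / S ≤ x) (hx' : x ≤ (((697932185 : ℕ) : ℝ) + (42949674 : ℕ)) / S) :
    TriA PP.cur (VE (h0 * 0) 3 κ (h0 * x) (eng.v x) (h0 * (3 / 40)) (tnt (h0 * x) (3 / 10)) (tbl tK x) (tbl tL x) (tbl (smT h0⁻¹ tC) x)) 1 2 3 0 7 1 (-1) :=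
  (sideB hx hx').bothA (thrB hx hx') (en_pos (hx1 hx).le) (Or.inl rfl) (Or.inr rfl) fun y y' F =>
    bothA_cert (s1 := true) (s2 := false) rfl hκ (en_pos (hx1 hx).le) (esg_rng (hx1 hx).le (hx2 hx').le).1 (mo_v x) covB01 covB72 hx hx'
        Pool.Agent.Strip051.G.I6500_6900.Tab.C.BA07.c_pm_123 (cutEA_cons (Pool.Agent.Strip051.G.I6500_6900.Tab.SE.se_A07pm_123_s hκ hx hx' cutEA_nil) cutEA_nil) noExt_EA F trivial trivial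

theorem BA07_pm_133 {κ x : ℝ} (hκ : κ * h0 = ken x) (hx : ((697932185 : ℕ) : ℝ) / S ≤ x) (hx' : x ≤ (((697932185 : ℕ) : ℝ) + (42949674 : ℕ)) / S) :
    TriA PP.cur (VE (h0 * 0) 3 κ (h0 * x) (eng.v x) (h0 * (3 / 40)) (tnt (h0 * x) (3 / 10)) (tbl tK x) (tbl tL x) (tbl (smT h0⁻¹ tC) x)) 1 3 3 0 7 1 (-1) :=
  (sideB hx hx').bothA (thrB hx hx') (en_pos (hx1 hx).le) (Or.inl rfl) (Or.inr rfl) fun y y' F =>
    bothA_cert (s1 := true) (s2 := false) rfl hκ (en_pos (hx1 hx).le) (esg_rng (hx1 hx).le (hx2 hx').le).1 (mo_v x) covB01 covB73 hx hx'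
        Pool.Agent.Strip051.G.I6500_6900.Tab.C.BA07.c_pm_133 (cutEA_cons (Pool.Agent.Strip051.G.I6500_6900.Tab.SE.se_A07pm_133_s hκ hx hx' cutEA_nil) cutEA_nil) noExt_EA F trivial trivial

theorem BA07_pm_202 {κ x : ℝ} (hκ : κ * h0 = ken x) (hx : ((697932185 : ℕ) : ℝ) / S ≤ x) (hx' : x ≤ (((697932185 : ℕ) : ℝ) + (42949674 : ℕ)) / S) :
    TriA PP.cur (VE (h0 * 0) 3 κ (h0 * x) (eng.v x) (h0 * (3 / 40)) (tnt (h0 * x) (3 / 10)) (tbl tK x) (tbl tL x) (tbl (smT h0⁻¹ tC) x)) 2 0 2 0 7 1 (-1) :=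
  (sideB hx hx').bothA (thrB hx hx') (en_pos (hx1 hx).le) (Or.inl rfl) (Or.inr rfl) fun y y' F =>
    bothA_cert (s1 := true) (s2 := false) rfl hκ (en_pos (hx1 hx).le) (esg_rng (hx1 hx).le (hx2 hx').le).1 (mo_v x) covB02 covB70 hx hx'
        Pool.Agent.Strip051.G.I6500_6900.Tab.C.BA07.c_pm_202 (cutEA_cons (Pool.Agent.Strip051.G.I6500_6900.Tab.SE.se_A07pm_202_s hκ hx hx' cutEA_nil) cutEA_nil) noExt_EA F trivial trivial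

theorem BA07_pm_203 {κ x : ℝ} (hκ : κ * h0 = ken x) (hx : ((697932185 : ℕ) : ℝ) / S ≤ x) (hx' : x ≤ (((697932185 : ℕ) : ℝ) + (42949674 : ℕ)) / S) :
    TriA PP.cur (VE (h0 * 0) 3 κ (h0 * x) (eng.v x) (h0 * (3 / 40)) (tnt (h0 * x) (3 / 10)) (tbl tK x) (tbl tL x) (tbl (smT h0⁻¹ tC) x)) 2 0 3 0 7 1 (-1) :=
  (sideB hx hx').bothA (thrB hx hx') (en_pos (hx1 hx).le) (Or.inl rfl) (Or.inr rfl) fun y y' F =>
    bothA_cert (s1 := true) (s2 := false) rfl hκ (en_pos (hx1 hx).le) (esg_rng (hx1 hx).le (hx2 hx').le).1 (mo_v x) covB02 covB70 hx hx'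
        Pool.Agent.Strip051.G.I6500_6900.Tab.C.BA07.c_pm_203 (cutEA_cons (Pool.Agent.Strip051.G.I6500_6900.Tab.SE.se_A07pm_203_s hκ hx hx' cutEA_nil) cutEA_nil) noExt_EA F trivial trivial

theorem BA07_pm_213 {κ x : ℝ} (hκ : κ * h0 = ken x) (hx : ((697932185 : ℕ) : ℝ) / S ≤ x) (hx' : x ≤ (((697932185 : ℕ) : ℝ) + (42949674 : ℕ)) / S) :
    TriA PP.cur (VE (h0 * 0) 3 κ (h0 * x) (eng.v x) (h0 * (3 / 40)) (tnt (h0 * x) (3 / 10)) (tbl tK x) (tbl tL x) (tbl (smT h0⁻¹ tC) x)) 2 1 3 0 7 1 (-1) :=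
  (sideB hx hx').bothA (thrB hx hx') (en_pos (hx1 hx).le) (Or.inl rfl) (Or.inr rfl) fun y y' F =>
    bothA_cert (s1 := true) (s2 := false) rfl hκ (en_pos (hx1 hx).le) (esg_rng (hx1 hx).le (hx2 hx').le).1 (mo_v x) covB02 covB71 hx hx'
        Pool.Agent.Strip051.G.I6500_6900.Tab.C.BA07.c_pm_213 (cutEA_cons (Pool.Agent.Strip051.G.I6500_6900.Tab.SE.se_A07pm_213_s hκ hx hx' cutEA_nil) cutEA_nil) noExt_EA F trivial trivial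

theorem BA07_pm_303 {κ x : ℝ} (hκ : κ * h0 = ken x) (hx : ((697932185 : ℕ) : ℝ) / S ≤ x) (hx' : x ≤ (((697932185 : ℕ) : ℝ) + (42949674 : ℕ)) / S) :
    TriA PP.cur (VE (h0 * 0) 3 κ (h0 * x) (eng.v x) (h0 * (3 / 40)) (tnt (h0 * x) (3 / 10)) (tbl tK x) (tbl tL x) (tbl (smT h0⁻¹ tC) x)) 3 0 3 0 7 1 (-1) :=
  triA_j0

theorem BA07_pm_313 {κ x : ℝ} (hκ : κ * h0 = ken x) (hx : ((697932185 : ℕ) : ℝ) / S ≤ x) (hx' : x ≤ (((697932185 : ℕ) : ℝ) + (42949674 : ℕ)) / S) :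
    TriA PP.cur (VE (h0 * 0) 3 κ (h0 * x) (eng.v x) (h0 * (3 / 40)) (tnt (h0 * x) (3 / 10)) (tbl tK x) (tbl tL x) (tbl (smT h0⁻¹ tC) x)) 3 1 3 0 7 1 (-1) :=
  triA_j0

theorem BA07_mm_001 {κ x : ℝ} (hκ : κ * h0 = ken x) (hx : ((697932185 : ℕ) : ℝ) / S ≤ x) (hx' : x ≤ (((697932185 : ℕ) : ℝ) + (42949674 : ℕ)) / S) :
    TriA PP.cur (VE (h0 * 0) 3 κ (h0 * x) (eng.v x) (h0 * (3 / 40)) (tnt (h0 * x) (3 / 10)) (tbl tK x) (tbl tL x) (tbl (smT h0⁻¹ tC) x)) 0 0 1 0 7 (-1) (-1) :=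
  (sideB hx hx').bothA (thrB hx hx') (en_pos (hx1 hx).le) (Or.inr rfl) (Or.inr rfl) fun y y' F =>
    bothA_cert (s1 := false) (s2 := false) rfl hκ (en_pos (hx1 hx).le) (esg_rng (hx1 hx).le (hx2 hx').le).1 (mo_v x) covB00 covB70 hx hx'
        Pool.Agent.Strip051.G.I6500_6900.Tab.C.BA07.c_mm_001 (cutEA_cons (Pool.Agent.Strip051.G.I6500_6900.Tab.SE.se_A07mm_001_s hκ hx hx' cutEA_nil) cutEA_nil) noExt_EA F trivial trivial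

theorem BA07_mm_011 {κ x : ℝ} (hκ : κ * h0 = ken x) (hx : ((697932185 : ℕ) : ℝ) / S ≤ x) (hx' : x ≤ (((697932185 : ℕ) : ℝ) + (42949674 : ℕ)) / S) :
    TriA PP.cur (VE (h0 * 0) 3 κ (h0 * x) (eng.v x) (h0 * (3 / 40)) (tnt (h0 * x) (3 / 10)) (tbl tK x) (tbl tL x) (tbl (smT h0⁻¹ tC) x)) 0 1 1 0 7 (-1) (-1) :=
  (sideB hx hx').bothA (thrB hx hx') (en_pos (hx1 hx).le) (Or.inr rfl) (Or.inr rfl) fun y y' F =>
    bothA_cert (s1 := false) (s2 := false) rfl hκ (en_pos (hx1 hx).le) (esg_rng (hx1 hx).le (hx2 hx').le).1 (mo_v x) covB00 covB71 hx hx'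
        Pool.Agent.Strip051.G.I6500_6900.Tab.C.BA07.c_mm_011 (cutEA_cons (Pool.Agent.Strip051.G.I6500_6900.Tab.SE.se_A07mm_011_s hκ hx hx' cutEA_nil) cutEA_nil) noExt_EA F trivial trivial

theorem BA07_mm_012 {κ x : ℝ} (hκ : κ * h0 = ken x) (hx : ((697932185 : ℕ) : ℝ) / S ≤ x) (hx' : x ≤ (((697932185 : ℕ) : ℝ) + (42949674 : ℕ)) / S) :
    TriA PP.cur (VE (h0 * 0) 3 κ (h0 * x) (eng.v x) (h0 * (3 / 40)) (tnt (h0 * x) (3 / 10)) (tbl tK x) (tbl tL x) (tbl (smT h0⁻¹ tC) x)) 0 1 2 0 7 (-1) (-1) :=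
  (sideB hx hx').bothA (thrB hx hx') (en_pos (hx1 hx).le) (Or.inr rfl) (Or.inr rfl) fun y y' F =>
    bothA_cert (s1 := false) (s2 := false) rfl hκ (en_pos (hx1 hx).le) (esg_rng (hx1 hx).le (hx2 hx').le).1 (mo_v x) covB00 covB71 hx hx'
        Pool.Agent.Strip051.G.I6500_6900.Tab.C.BA07.c_mm_012 (cutEA_cons (Pool.Agent.Strip051.G.I6500_6900.Tab.SE.se_A07mm_012_s hκ hx hx' cutEA_nil) cutEA_nil) noExt_EA F trivial trivial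

theorem BA07_mm_022 {κ x : ℝ} (hκ : κ * h0 = ken x) (hx : ((697932185 : ℕ) : ℝ) / S ≤ x) (hx' : x ≤ (((697932185 : ℕ) : ℝ) + (42949674 : ℕ)) / S) :
    TriA PP.cur (VE (h0 * 0) 3 κ (h0 * x) (eng.v x) (h0 * (3 / 40)) (tnt (h0 * x) (3 / 10)) (tbl tK x) (tbl tL x) (tbl (smT h0⁻¹ tC) x)) 0 2 2 0 7 (-1) (-1) :=
  (sideB hx hx').bothA (thrB hx hx') (en_pos (hx1 hx).le) (Or.inr rfl) (Or.inr rfl) fun y y' F =>
    bothA_cert (s1 := false) (s2 := false) rfl hκ (en_pos (hx1 hx).le) (esg_rng (hx1 hx).le (hx2 hx').le).1 (mo_v x) covB00 covB72 hx hx'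
        Pool.Agent.Strip051.G.I6500_6900.Tab.C.BA07.c_mm_022 (cutEA_cons (Pool.Agent.Strip051.G.I6500_6900.Tab.SE.se_A07mm_022_s hκ hx hx' cutEA_nil) cutEA_nil) noExt_EA F trivial trivial

theorem BA07_mm_023 {κ x : ℝ} (hκ : κ * h0 = ken x) (hx : ((697932185 : ℕ) : ℝ) / S ≤ x) (hx' : x ≤ (((697932185 : ℕ) : ℝ) + (42949674 : ℕ)) / S) :
    TriA PP.cur (VE (h0 * 0) 3 κ (h0 * x) (eng.v x) (h0 * (3 / 40)) (tnt (h0 * x) (3 / 10)) (tbl tK x) (tbl tL x) (tbl (smT h0⁻¹ tC) x)) 0 2 3 0 7 (-1) (-1) :=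
  (sideB hx hx').bothA (thrB hx hx') (en_pos (hx1 hx).le) (Or.inr rfl) (Or.inr rfl) fun y y' F =>
    bothA_cert (s1 := false) (s2 := false) rfl hκ (en_pos (hx1 hx).le) (esg_rng (hx1 hx).le (hx2 hx').le).1 (mo_v x) covB00 covB72 hx hx'
        Pool.Agent.Strip051.G.I6500_6900.Tab.C.BA07.c_mm_023 (cutEA_cons (Pool.Agent.Strip051.G.I6500_6900.Tab.SE.se_A07mm_023_s hκ hx hx' cutEA_nil) cutEA_nil) noExt_EA F trivial trivial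

theorem BA07_mm_033 {κ x : ℝ} (hκ : κ * h0 = ken x) (hx : ((697932185 : ℕ) : ℝ) / S ≤ x) (hx' : x ≤ (((697932185 : ℕ) : ℝ) + (42949674 : ℕ)) / S) :
    TriA PP.cur (VE (h0 * 0) 3 κ (h0 * x) (eng.v x) (h0 * (3 / 40)) (tnt (h0 * x) (3 / 10)) (tbl tK x) (tbl tL x) (tbl (smT h0⁻¹ tC) x)) 0 3 3 0 7 (-1) (-1) :=
  (sideB hx hx').bothA (thrB hx hx') (en_pos (hx1 hx).le) (Or.inr rfl) (Or.inr rfl) fun y y' F =>
    bothA_cert (s1 := false) (s2 := false) rfl hκ (en_pos (hx1 hx).le) (esg_rng (hx1 hx).le (hx2 hx').le).1 (mo_v x) covB00 covB73 hx hx'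
        Pool.Agent.Strip051.G.I6500_6900.Tab.C.BA07.c_mm_033 (cutEA_cons (Pool.Agent.Strip051.G.I6500_6900.Tab.SE.se_A07mm_033_s hκ hx hx' cutEA_nil) cutEA_nil) noExt_EA F trivial trivial

theorem BA07_mm_101 {κ x : ℝ} (hκ : κ * h0 = ken x) (hx : ((697932185 : ℕ) : ℝ) / S ≤ x) (hx' : x ≤ (((697932185 : ℕ) : ℝ) + (42949674 : ℕ)) / S) :
    TriA PP.cur (VE (h0 * 0) 3 κ (h0 * x) (eng.v x) (h0 * (3 / 40)) (tnt (h0 * x) (3 / 10)) (tbl tK x) (tbl tL x) (tbl (smT h0⁻¹ tC) x)) 1 0 1 0 7 (-1) (-1) :=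
  (sideB hx hx').bothA (thrB hx hx') (en_pos (hx1 hx).le) (Or.inr rfl) (Or.inr rfl) fun y y' F =>
    bothA_cert (s1 := false) (s2 := false) rfl hκ (en_pos (hx1 hx).le) (esg_rng (hx1 hx).le (hx2 hx').le).1 (mo_v x) covB01 covB70 hx hx'
        Pool.Agent.Strip051.G.I6500_6900.Tab.C.BA07.c_mm_101 (cutEA_cons (Pool.Agent.Strip051.G.I6500_6900.Tab.SE.se_A07mm_101_s hκ hx hx' cutEA_nil) cutEA_nil) noExt_EA F trivial trivial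

theorem BA07_mm_102 {κ x : ℝ} (hκ : κ * h0 = ken x) (hx : ((697932185 : ℕ) : ℝ) / S ≤ x) (hx' : x ≤ (((697932185 : ℕ) : ℝ) + (42949674 : ℕ)) / S) :
    TriA PP.cur (VE (h0 * 0) 3 κ (h0 * x) (eng.v x) (h0 * (3 / 40)) (tnt (h0 * x) (3 / 10)) (tbl tK x) (tbl tL x) (tbl (smT h0⁻¹ tC) x)) 1 0 2 0 7 (-1) (-1) :=
  (sideB hx hx').bothA (thrB hx hx') (en_pos (hx1 hx).le) (Or.inr rfl) (Or.inr rfl) fun y y' F =>
    bothA_cert (s1 := false) (s2 := false) rfl hκ (en_pos (hx1 hx).le) (esg_rng (hx1 hx).le (hx2 hx').le).1 (mo_v x) covB01 covB70 hx hx'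
        Pool.Agent.Strip051.G.I6500_6900.Tab.C.BA07.c_mm_102 (cutEA_cons (Pool.Agent.Strip051.G.I6500_6900.Tab.SE.se_A07mm_102_s hκ hx hx' cutEA_nil) cutEA_nil) noExt_EA F trivial trivial

theorem BA07_mm_112 {κ x : ℝ} (hκ : κ * h0 = ken x) (hx : ((697932185 : ℕ) : ℝ) / S ≤ x) (hx' : x ≤ (((697932185 : ℕ) : ℝ) + (42949674 : ℕ)) / S) :
    TriA PP.cur (VE (h0 * 0) 3 κ (h0 * x) (eng.v x) (h0 * (3 / 40)) (tnt (h0 * x) (3 / 10)) (tbl tK x) (tbl tL x) (tbl (smT h0⁻¹ tC) x)) 1 1 2 0 7 (-1) (-1) :=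
  (sideB hx hx').bothA (thrB hx hx') (en_pos (hx1 hx).le) (Or.inr rfl) (Or.inr rfl) fun y y' F =>
    bothA_cert (s1 := false) (s2 := false) rfl hκ (en_pos (hx1 hx).le) (esg_rng (hx1 hx).le (hx2 hx').le).1 (mo_v x) covB01 covB71 hx hx'
        Pool.Agent.Strip051.G.I6500_6900.Tab.C.BA07.c_mm_112 (cutEA_cons (Pool.Agent.Strip051.G.I6500_6900.Tab.SE.se_A07mm_112_s hκ hx hx' cutEA_nil) cutEA_nil) noExt_EA F trivial trivial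

theorem BA07_mm_113 {κ x : ℝ} (hκ : κ * h0 = ken x) (hx : ((697932185 : ℕ) : ℝ) / S ≤ x) (hx' : x ≤ (((697932185 : ℕ) : ℝ) + (42949674 : ℕ)) / S) :
    TriA PP.cur (VE (h0 * 0) 3 κ (h0 * x) (eng.v x) (h0 * (3 / 40)) (tnt (h0 * x) (3 / 10)) (tbl tK x) (tbl tL x) (tbl (smT h0⁻¹ tC) x)) 1 1 3 0 7 (-1) (-1) :=
  (sideB hx hx').bothA (thrB hx hx') (en_pos (hx1 hx).le) (Or.inr rfl) (Or.inr rfl) fun y y' F =>
    bothA_cert (s1 := false) (s2 := false) rfl hκ (en_pos (hx1 hx).le) (esg_rng (hx1 hx).le (hx2 hx').le).1 (mo_v x) covB01 covB71 hx hx'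
        Pool.Agent.Strip051.G.I6500_6900.Tab.C.BA07.c_mm_113 (cutEA_cons (Pool.Agent.Strip051.G.I6500_6900.Tab.SE.se_A07mm_113_s hκ hx hx' cutEA_nil) cutEA_nil) noExt_EA F trivial trivial

theorem BA07_mm_123 {κ x : ℝ} (hκ : κ * h0 = ken x) (hx : ((697932185 : ℕ) : ℝ) / S ≤ x) (hx' : x ≤ (((697932185 : ℕ) : ℝ) + (42949674 : ℕ)) / S) :
    TriA PP.cur (VE (h0 * 0) 3 κ (h0 * x) (eng.v x) (h0 * (3 / 40)) (tnt (h0 * x) (3 / 10)) (tbl tK x) (tbl tL x) (tbl (smT h0⁻¹ tC) x)) 1 2 3 0 7 (-1) (-1) :=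
  (sideB hx hx').bothA (thrB hx hx') (en_pos (hx1 hx).le) (Or.inr rfl) (Or.inr rfl) fun y y' F =>
    bothA_cert (s1 := false) (s2 := false) rfl hκ (en_pos (hx1 hx).le) (esg_rng (hx1 hx).le (hx2 hx').le).1 (mo_v x) covB01 covB72 hx hx'
        Pool.Agent.Strip051.G.I6500_6900.Tab.C.BA07.c_mm_123 (cutEA_cons (Pool.Agent.Strip051.G.I6500_6900.Tab.SE.se_A07mm_123_s hκ hx hx' cutEA_nil) cutEA_nil) noExt_EA F trivial trivial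

theorem BA07_mm_133 {κ x : ℝ} (hκ : κ * h0 = ken x) (hx : ((697932185 : ℕ) : ℝ) / S ≤ x) (hx' : x ≤ (((697932185 : ℕ) : ℝ) + (42949674 : ℕ)) / S) :
    TriA PP.cur (VE (h0 * 0) 3 κ (h0 * x) (eng.v x) (h0 * (3 / 40)) (tnt (h0 * x) (3 / 10)) (tbl tK x) (tbl tL x) (tbl (smT h0⁻¹ tC) x)) 1 3 3 0 7 (-1) (-1) :=
  (sideB hx hx').bothA (thrB hx hx') (en_pos (hx1 hx).le) (Or.inr rfl) (Or.inr rfl) fun y y' F =>
    bothA_cert (s1 := false) (s2 := false) rfl hκ (en_pos (hx1 hx).le) (esg_rng (hx1 hx).le (hx2 hx').le).1 (mo_v x) covB01 covB73 hx hx'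
        Pool.Agent.Strip051.G.I6500_6900.Tab.C.BA07.c_mm_133 (cutEA_cons (Pool.Agent.Strip051.G.I6500_6900.Tab.SE.se_A07mm_133_s hκ hx hx' cutEA_nil) cutEA_nil) noExt_EA F trivial trivial

theorem BA07_mm_202 {κ x : ℝ} (hκ : κ * h0 = ken x) (hx : ((697932185 : ℕ) : ℝ) / S ≤ x) (hx' : x ≤ (((697932185 : ℕ) : ℝ) + (42949674 : ℕ)) / S) :
    TriA PP.cur (VE (h0 * 0) 3 κ (h0 * x) (eng.v x) (h0 * (3 / 40)) (tnt (h0 * x) (3 / 10)) (tbl tK x) (tbl tL x) (tbl (smT h0⁻¹ tC) x)) 2 0 2 0 7 (-1) (-1) :=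
  (sideB hx hx').bothA (thrB hx hx') (en_pos (hx1 hx).le) (Or.inr rfl) (Or.inr rfl) fun y y' F =>
    bothA_cert (s1 := false) (s2 := false) rfl hκ (en_pos (hx1 hx).le) (esg_rng (hx1 hx).le (hx2 hx').le).1 (mo_v x) covB02 covB70 hx hx'
        Pool.Agent.Strip051.G.I6500_6900.Tab.C.BA07.c_mm_202 (cutEA_cons (Pool.Agent.Strip051.G.I6500_6900.Tab.SE.se_A07mm_202_s hκ hx hx' cutEA_nil) cutEA_nil) noExt_EA F trivial trivial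

theorem BA07_mm_203 {κ x : ℝ} (hκ : κ * h0 = ken x) (hx : ((697932185 : ℕ) : ℝ) / S ≤ x) (hx' : x ≤ (((697932185 : ℕ) : ℝ) + (42949674 : ℕ)) / S) :
    TriA PP.cur (VE (h0 * 0) 3 κ (h0 * x) (eng.v x) (h0 * (3 / 40)) (tnt (h0 * x) (3 / 10)) (tbl tK x) (tbl tL x) (tbl (smT h0⁻¹ tC) x)) 2 0 3 0 7 (-1) (-1) :=
  (sideB hx hx').bothA (thrB hx hx') (en_pos (hx1 hx).le) (Or.inr rfl) (Or.inr rfl) fun y y' F =>
    bothA_cert (s1 := false) (s2 := false) rfl hκ (en_pos (hx1 hx).le) (esg_rng (hx1 hx).le (hx2 hx').le).1 (mo_v x) covB02 covB70 hx hx'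
        Pool.Agent.Strip051.G.I6500_6900.Tab.C.BA07.c_mm_203 (cutEA_cons (Pool.Agent.Strip051.G.I6500_6900.Tab.SE.se_A07mm_203_s hκ hx hx' cutEA_nil) cutEA_nil) noExt_EA F trivial trivial

theorem BA07_mm_213 {κ x : ℝ} (hκ : κ * h0 = ken x) (hx : ((697932185 : ℕ) : ℝ) / S ≤ x) (hx' : x ≤ (((697932185 : ℕ) : ℝ) + (42949674 : ℕ)) / S) :
    TriA PP.cur (VE (h0 * 0) 3 κ (h0 * x) (eng.v x) (h0 * (3 / 40)) (tnt (h0 * x) (3 / 10)) (tbl tK x) (tbl tL x) (tbl (smT h0⁻¹ tC) x)) 2 1 3 0 7 (-1) (-1) :=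
  (sideB hx hx').bothA (thrB hx hx') (en_pos (hx1 hx).le) (Or.inr rfl) (Or.inr rfl) fun y y' F =>
    bothA_cert (s1 := false) (s2 := false) rfl hκ (en_pos (hx1 hx).le) (esg_rng (hx1 hx).le (hx2 hx').le).1 (mo_v x) covB02 covB71 hx hx'
        Pool.Agent.Strip051.G.I6500_6900.Tab.C.BA07.c_mm_213 (cutEA_cons (Pool.Agent.Strip051.G.I6500_6900.Tab.SE.se_A07mm_213_s hκ hx hx' cutEA_nil) cutEA_nil) noExt_EA F trivial trivial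

theorem BA07_mm_303 {κ x : ℝ} (hκ : κ * h0 = ken x) (hx : ((697932185 : ℕ) : ℝ) / S ≤ x) (hx' : x ≤ (((697932185 : ℕ) : ℝ) + (42949674 : ℕ)) / S) :
    TriA PP.cur (VE (h0 * 0) 3 κ (h0 * x) (eng.v x) (h0 * (3 / 40)) (tnt (h0 * x) (3 / 10)) (tbl tK x) (tbl tL x) (tbl (smT h0⁻¹ tC) x)) 3 0 3 0 7 (-1) (-1) :=
  triA_j0

theorem BA07_mm_313 {κ x : ℝ} (hκ : κ * h0 = ken x) (hx : ((697932185 : ℕ) : ℝ) / S ≤ x) (hx' : x ≤ (((697932185 : ℕ) : ℝ) + (42949674 : ℕ)) / S) :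
    TriA PP.cur (VE (h0 * 0) 3 κ (h0 * x) (eng.v x) (h0 * (3 / 40)) (tnt (h0 * x) (3 / 10)) (tbl tK x) (tbl tL x) (tbl (smT h0⁻¹ tC) x)) 3 1 3 0 7 (-1) (-1) :=
  triA_j0

theorem BA07 {κ x : ℝ} (hκ : κ * h0 = ken x) (hx : ((697932185 : ℕ) : ℝ) / S ≤ x) (hx' : x ≤ (((697932185 : ℕ) : ℝ) + (42949674 : ℕ)) / S) : AllTA PP.cur (VE (h0 * 0) 3 κ (h0 * x) (eng.v x) (h0 * (3 / 40)) (tnt (h0 * x) (3 / 10)) (tbl tK x) (tbl tL x) (tbl (smT h0⁻¹ tC) x)) 0 7 where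
  pp := all17 (Q := fun a b c => TriA PP.cur (VE (h0 * 0) 3 κ (h0 * x) (eng.v x) (h0 * (3 / 40)) (tnt (h0 * x) (3 / 10)) (tbl tK x) (tbl tL x) (tbl (smT h0⁻¹ tC) x)) a b c 0 7 1 1)
    (BA07_pp_001 hκ hx hx') (BA07_pp_011 hκ hx hx') (BA07_pp_012 hκ hx hx') (BA07_pp_022 hκ hx hx') (BA07_pp_023 hκ hx hx') (BA07_pp_033 hκ hx hx') (BA07_pp_101 hκ hx hx') (BA07_pp_102 hκ hx hx') (BA07_pp_112 hκ hx hx') (BA07_pp_113 hκ hx hx') (BA07_pp_123 hκ hx hx') (BA07_pp_133 hκ hx hx') (BA07_pp_202 hκ hx hx') (BA07_pp_203 hκ hx hx') (BA07_pp_213 hκ hx hx') (BA07_pp_303 hκ hx hx') (BA07_pp_313 hκ hx hx')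
  pm := all17 (Q := fun a b c => TriA PP.cur (VE (h0 * 0) 3 κ (h0 * x) (eng.v x) (h0 * (3 / 40)) (tnt (h0 * x) (3 / 10)) (tbl tK x) (tbl tL x) (tbl (smT h0⁻¹ tC) x)) a b c 0 7 1 (-1))
    (BA07_pm_001 hκ hx hx') (BA07_pm_011 hκ hx hx') (BA07_pm_012 hκ hx hx') (BA07_pm_022 hκ hx hx') (BA07_pm_023 hκ hx hx') (BA07_pm_033 hκ hx hx') (BA07_pm_101 hκ hx hx') (BA07_pm_102 hκ hx hx') (BA07_pm_112 hκ hx hx') (BA07_pm_113 hκ hx hx') (BA07_pm_123 hκ hx hx') (BA07_pm_133 hκ hx hx') (BA07_pm_202 hκ hx hx') (BA07_pm_203 hκ hx hx') (BA07_pm_213 hκ hx hx') (BA07_pm_303 hκ hx hx') (BA07_pm_313 hκ hx hx')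
  mm := all17 (Q := fun a b c => TriA PP.cur (VE (h0 * 0) 3 κ (h0 * x) (eng.v x) (h0 * (3 / 40)) (tnt (h0 * x) (3 / 10)) (tbl tK x) (tbl tL x) (tbl (smT h0⁻¹ tC) x)) a b c 0 7 (-1) (-1))
    (BA07_mm_001 hκ hx hx') (BA07_mm_011 hκ hx hx') (BA07_mm_012 hκ hx hx') (BA07_mm_022 hκ hx hx') (BA07_mm_023 hκ hx hx') (BA07_mm_033 hκ hx hx') (BA07_mm_101 hκ hx hx') (BA07_mm_102 hκ hx hx') (BA07_mm_112 hκ hx hx') (BA07_mm_113 hκ hx hx') (BA07_mm_123 hκ hx hx') (BA07_mm_133 hκ hx hx') (BA07_mm_202 hκ hx hx') (BA07_mm_203 hκ hx hx') (BA07_mm_213 hκ hx hx') (BA07_mm_303 hκ hx hx') (BA07_mm_313 hκ hx hx')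

end Pool.Agent.Strip051.G.I6500_6900.Tab
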