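import Pool.Agent.Strip051.G.I6500_6900.Tab

/-! # Certificates B10 (generated) -/

set_option linter.all false
set_option maxRecDepth 100000

namespace Pool.Agent.Strip051.G.I6500_6900.Tab.C.BA11

open Pool.Agent.Strip051.PB Pool.Agent.Strip051.PB.T
open Pool.Agent.Strip051.G.I6500_6900.Tab

noncomputable def cut_pp_022_a : Cut := Cut.of [[⟨0, 0, 0, 67108864⟩, ⟨1, 1, 0, 67108864⟩, ⟨2, 1, 0, 67108864⟩]]

noncomputable def f_pp_022_a : ℕ → ℕ → ℕ → ℕ → Bool := onCell 1073741824 536870912 0 536870912 697932185 42949674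
    (rowB 3 eng mog cd1q0 cd1q2a pd2 2 true true true .pp 0 2 2 (qsf 0 536870912 0 536870912 2) ndB1q0 ndB1q2a pcB2 cut_pp_022_a Ext.none)

def k0_pp_022_a : ∃ t, chk3 f_pp_022_a t 2 2 1 = true :=
  ⟨(a (a (l 1) (b (l 1) (a (l 1) (b (l 1) (a (l 1) (b (l 1) (a (l 1) (b (l 16508976) (c (l 16498864) (l 16521080)))))))))) (a (b (a (a (l 1) (b (l 16449992) (l 16457496))) (b (a (b (l 16444424) (l 16446912)) (l 16410256)) (a (l 16456656) (l 16464664)))) (a (b (a (b (l 16470560) (a (l 1) (l 16460264))) (b (l 16449048) (l 16440408))) (a (b (a (b (l 16490800) (l 16478664)) (b (l 16491584) (l 16500888))) (b (a (l 16510216) (l 16511944)) (a (l 16522096) (l 16524304)))) (b (b (l 16493680) (l 16503656)) (b (l 16515408) (a (l 16526968) (l 16530064)))))) (b (a (b (l 16471624) (a (l 16484552) (l 16486736))) (b (l 16480832) (l 16495600))) (a (b (a (l 16502144) (b (l 16499600) (l 16510632))) (a (l 16526704) (a (l 16529440) (l 16531568)))) (b (b (l 16508776) (l 16520016)) (a (l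 16536688) (l 16543704))))))) (b (a (b (l 16489968) (l 16482648)) (b (l 16487824) (l 16504424))) (a (a (b (b (l 16493552) (l 16508704)) (b (l 16548856) (l 16575032))) (b (l 16513680) (b (l 16541032) (l 16588632)))) (b (a (l 16525688) (l 16537504)) (b (a (l 16553896) (l 16566808)) (a (l 16528624) (l 16594616)))))))), by decide +kernel⟩

def k1_pp_022_a : ∃ t, chk3 f_pp_022_a t 4 6 1 = true :=
  ⟨(a (l 1) (b (a (l 1) (a (b (a (l 1) (l 16553904)) (a (b (l 1) (l 16561104)) (b (l 16575608) (l 16570440)))) (b (a (b (l 16541848) (l 16555512)) (b (l 16533112) (l 16547288))) (b (a (l 16560200) (l 16562976)) (a (l 16576856) (l 16580144)))))) (a (b (a (l 1) (a (b (l 1) (l 16597104)) (b (l 16589320) (a (l 16583864) (l 16588864))))) (a (a (l 1) (b (l 16605832) (a (l 16604280) (l 16609696)))) (b (a (a (l 16613912) (l 16598176)) (b (l 16600560) (l 16611008))) (a (a (l 16615000) (l 16620176)) (l 16606752))))) (b (a (a (b (l 16578120) (l 16564680)) (b (l 16587424) (l 16605424)))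 (b (a (l 16594928) (l 16598736)) (l 16603712))) (a (b (a (l 16584072) (l 16624808)) (a (l 16616392) (l 16646560))) (b (l 16627504) (l 16659648))))))), by decide +kernel⟩

def k2_pp_022_a : ∃ t, chk3 f_pp_022_a t 4 7 1 = true :=
  ⟨(b (a (a (l 1) (b (a (l 1) (a (l 1) (b (l 1) (b (a (l 1) (l 16629472)) (a (l 6) (l 16642776)))))) (a (l 6) (a (l 6) (a (l 6) (b (l 16665144) (b (l 16688184) (l 16704000)))))))) (a (b (a (b (a (a (l 16637672) (l 16643272)) (a (l 16627776) (l 16633144))) (a (b (l 16637936) (l 16651176)) (b (l 16648824) (l 16661984)))) (b (a (l 16640968) (l 16650992)) (a (b (l 16659240) (l 16672328)) (b (l 16669200) (l 16682224))))) (a (b (a (b (l 16665856) (l 16680888)) (b (l 16676512) (l 16691408))) (a (b (l 16706744) (a (l 16709336) (l 16714568))) (b (a (l 16704080) (l 16709168)) (l 16722216)))) (b (a (b (l 16686728) (l 16680520)) (l 16703816)) (a (l 16726936) (l 16733752))))) (b (a (b (a (l 16639568) (l 16669664)) (b (l 16683312) (l 16696248))) (b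 (l 16682672) (a (l 16702944) (l 16711296)))) (a (b (a (l 16713064) (l 16721920)) (a (b (l 16734192) (l 16747056)) (b (l 16740928) (l 16755336)))) (b (a (l 16729264) (l 16736464)) (a (b (l 16748800) (l 4)) (l 4))))))) (a (a (l 6) (a (l 6) (a (l 6) (a (l 6) (a (l 6) (b (b (b (l 16721488) (l 16717080)) (b (l 16755096) (l 4))) (l 4))))))) (b (a (b (a (a (b (l 16728024) (l 16744496)) (b (l 16738128) (b (l 16749648) (l 16756520)))) (a (b (l 16746392) (a (l 16758824) (l 16763200))) (b (l 16753768) (l 4)))) (a (b (a (a (l 16763000) (l 16766864)) (a (l 16771168) (l 4))) (l 4)) (l 4))) (b (a (l 4) (l 4)) (l 4))) (l 4)))), by decide +kernel⟩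

def k3_pp_022_a : ∃ t, chk3 f_pp_022_a t 5 6 1 = true :=
  ⟨(a (b (a (b (a (b (a (l 16535336) (l 16538032)) (a (l 16550016) (l 16553192))) (b (a (l 16541160) (l 16544712)) (a (l 16556792) (l 16560792)))) (a (a (b (l 16566208) (l 16583880)) (b (l 16569864) (l 16588024))) (b (a (l 16573936) (l 16578392)) (a (l 16592560) (l 16597472))))) (b (a (b (a (l 16548656) (l 16574040)) (a (l 16565184) (l 16590968))) (a (l 16568048) (l 16575232))) (a (a (a (l 16602136) (l 16594256)) (a (l 16596952) (a (l 16599024) (l 16600632)))) (b (l 16598896) (l 16640008))))) (a (b (a (b (a (l 16581992) (l 16607592)) (l 16626280)) (b (a (l 16612600) (l 16617968)) (c (l 16616480) (l 16616104)))) (a (b (l 16648784) (l 16671568)) (b (l 16660656) (l 16684360)))) (b (a (a (b (l 16623664) (l 16646304)) (b (a (l 16628144) (l 16631304)) (a (l 16651104) (l 16654448)))) (b (a (l 16636856) (l 16644328)) (a (l 16660080) (l 16667600)))) (a (a (l 16682544) (b (l 16677256) (l 16701984))) (b (l 16688304)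 (l 16712784)))))) (b (a (b (a (a (l 16582344) (l 16589408)) (b (l 16591152) (l 16608640))) (a (b (l 16613408) (a (l 16630080) (l 16637312))) (b (l 16627552) (l 16647816)))) (b (a (l 16634656) (l 16627848)) (a (b (l 16641656) (l 16662152)) (b (l 16656256) (l 16677040))))) (a (b (a (b (a (l 16651704) (l 16658808)) (l 16636312)) (l 16680896)) (a (b (l 16702504) (l 16727584)) (b (l 38352512423) (l 16764640)))) (b (a (b (l 16683944) (l 16686504)) (l 16732480)) (b (a (l 16733504) (l 4)) (l 4)))))), by decide +kernel⟩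

def k4_pp_022_a : ∃ t, chk3 f_pp_022_a t 5 7 1 = true :=
  ⟨(a (b (a (b (a (b (l 16695952) (a (l 16718448) (l 16725488))) (b (l 16709648) (a (l 16733104) (l 16740816)))) (b (a (a (l 16744408) (l 16751928)) (l 4)) (l 4))) (b (b (a (a (l 16720696) (a (l 16726384) (l 16730136))) (l 16744952)) (a (a (l 16747760) (l 4)) (l 4))) (l 4))) (l 4)) (l 4)), by decide +kernel⟩

def k5_pp_022_a : ∃ t, chk3 f_pp_022_a t 3 1 1 = true :=
  ⟨(a (b (a (b (a (b (l 16501688) (l 16522968)) (b (l 16522352) (l 16544952))) (a (b (l 16555936) (b (l 16586880) (l 16615688))) (b (l 16580392) (b (l 16613760) (l 16643944))))) (b (a (b (l 16543688) (l 16567760)) (b (l 16565672) (l 16592032))) (a (b (l 16624952) (a (l 16649024) (l 16704352))) (b (l 16630384) (a (l 16739752) (b (l 16674880) (l 16708672))))))) (b (a (b (a (a (a (l 16679224) (l 16665816)) (a (l 16694456) (l 16702200))) (b (l 16700520) (a (l 16734504) (l 55532544583)))) (a (b (b (a (l 16715336) (l 16732304)) (l 4)) (l 4)) (l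 4))) (b (b (a (a (l 16701104) (l 42110790935)) (a (l 43184537207) (l 4))) (l 4)) (l 4))) (l 4))) (b (a (b (a (l 16628440) (l 16657544)) (b (a (l 16660032) (l 16757640)) (a (b (l 16739744) (c (l 23857231479) (l 23320355463))) (b (l 21709750647) (l 4))))) (b (a (b (l 16649832) (l 16679664)) (b (l 16675656) (l 16746776))) (b (a (c (l 16802704) (l 16801840)) (b (l 16754328) (l 4))) (l 4)))) (l 4))), by decide +kernel⟩

theorem s6_pp_022_a : ∃ t, chk3 f_pp_022_a t 5 3 1 = true := ex3_b k3_pp_022_a k4_pp_022_a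

theorem s7_pp_022_a : ∃ t, chk3 f_pp_022_a t 4 3 1 = true := ex3_b k1_pp_022_a k2_pp_022_a

theorem s8_pp_022_a : ∃ t, chk3 f_pp_022_a t 2 3 1 = true := ex3_a s7_pp_022_a s6_pp_022_a

theorem s9_pp_022_a : ∃ t, chk3 f_pp_022_a t 2 1 1 = true := ex3_b k0_pp_022_a s8_pp_022_a

theorem s10_pp_022_a : ∃ t, chk3 f_pp_022_a t 1 1 1 = true := ex3_a s9_pp_022_a k5_pp_022_a

theorem c_pp_022_a : CertB 0 536870912 0 536870912 697932185 42949674 3 eng mog cd1q0 cd1q2a pd2 true true true .pp 0 2 2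
    ndB1q0 ndB1q2a pcB2 cut_pp_022_a Ext.none :=
  certB2 (fam := true) (s1 := true) (s2 := true) (a := 0) (b := 2) (c := 2) (cn := .pp) (n1 := ndB1q0) (n2 := ndB1q2a) (pc := pcB2) (cut := cut_pp_022_a) (xt := Ext.none) (P1 := 0) (W1 := 536870912) (P2 := 0) (W2 := 536870912) (P3 := 697932185) (W3 := 42949674) (N0 := 3) (En := eng) (mo := mog) (C1 := cd1q0) (C2 := cd1q2a) (C3 := pd2)
    rfl (fun _ => rfl) s10_pp_022_a

noncomputable def cut_pp_022_b : Cut := Cut.of [[⟨0, 0, 0, 67108864⟩, ⟨1, 1, 0, 67108864⟩, ⟨2, 1, 0, 67108864⟩]]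

noncomputable def f_pp_022_b : ℕ → ℕ → ℕ → ℕ → Bool := onCell 1073741824 536870912 1239849684 370763052 697932185 42949674
    (rowB 3 eng mog cd1q0 cd1q2b pd2 2 true true true .pp 0 2 2 (qsf 0 536870912 1239849684 370763052 2) ndB1q0 ndB1q2b pcB2 cut_pp_022_b Ext.none)

def k0_pp_022_b : ∃ t, chk3 f_pp_022_b t 1 1 1 = true :=
  ⟨(a (b (a (l 1) (a (b (b (a (a (l 1) (l 16473312)) (a (b (a (l 16422416) (b (l 16431776) (l 16408800))) (l 1)) (b (l 16437408) (l 16379992)))) (l 1)) (l 1)) (b (a (b (b (l 16484904) (l 16388016)) (b (l 16327544) (l 1))) (b (b (l 16454520) (l 16397472)) (b (l 16339000) (l 16279280)))) (a (l 1) (b (l 16188000) (l 1)))))) (l 1)) (b (a (a (b (b (a (l 16460400) (l 16458840)) (a (l 16346304) (l 16344552))) (a (b (l 16249736) (l 1)) (b (l 16230848) (l 16113400)))) (b (a (b (l 16482632) (a (l 16362240) (l 16376056))) (b (l 16506664) (l 16398984))) (a (b (l 16256424) (l 16143360)) (b (l 16286240) (l 16175968))))) (a (b (a (b (l 16576040) (l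 16431312)) (b (l 16564680) (l 16465544))) (a (b (l 16322664) (l 16212760)) (l 16331464))) (b (a (b (l 16596424) (l 16502816)) (b (l 16626976) (l 16542208))) (a (l 16354248) (l 16399560))))) (a (b (a (l 1) (a (b (l 16026768) (l 1)) (b (l 16064512) (l 15950392)))) (l 1)) (a (b (a (l 16052512) (l 16099160)) (a (l 1) (l 15890056))) (b (a (l 16148688) (l 16199128)) (a (l 15948200) (l 16003552))))))), by decide +kernel⟩

theorem c_pp_022_b : CertB 0 536870912 1239849684 370763052 697932185 42949674 3 eng mog cd1q0 cd1q2b pd2 true true true .pp 0 2 2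
    ndB1q0 ndB1q2b pcB2 cut_pp_022_b Ext.none :=
  certB2 (fam := true) (s1 := true) (s2 := true) (a := 0) (b := 2) (c := 2) (cn := .pp) (n1 := ndB1q0) (n2 := ndB1q2b) (pc := pcB2) (cut := cut_pp_022_b) (xt := Ext.none) (P1 := 0) (W1 := 536870912) (P2 := 1239849684) (W2 := 370763052) (P3 := 697932185) (W3 := 42949674) (N0 := 3) (En := eng) (mo := mog) (C1 := cd1q0) (C2 := cd1q2b) (C3 := pd2)
    rfl (fun _ => rfl) k0_pp_022_b

noncomputable def f_pp_023_a : ℕ → ℕ → ℕ → ℕ → Bool := onCell 1610612736 536870912 0 536870912 697932185 42949674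
    (rowB 3 eng mog cd1q0 cd1q2a pd3 2 true true true .up 0 2 3 (qsf 0 536870912 0 536870912 3) ndB1q0 ndB1q2a pcB3 Cut.none Ext.none)

def k0_pp_023_a : ∃ t, chk3 f_pp_023_a t 1 1 1 = true :=
  ⟨(b (a (b (a (a (a (b (l 16694912) (l 16753064)) (b (l 16724920) (l 21709764999))) (b (a (l 16750624) (l 32447178855)) (l 4))) (a (b (a (l 85060595623) (l 2)) (l 4)) (l 2))) (a (l 4) (l 4))) (l 2)) (l 4)), by decide +kernel⟩

theorem c_pp_023_a : CertB 0 536870912 0 536870912 697932185 42949674 3 eng mog cd1q0 cd1q2a pd3 true true true .up 0 2 3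
    ndB1q0 ndB1q2a pcB3 Cut.none Ext.none :=
  certB2 (fam := true) (s1 := true) (s2 := true) (a := 0) (b := 2) (c := 3) (cn := .up) (n1 := ndB1q0) (n2 := ndB1q2a) (pc := pcB3) (cut := Cut.none) (xt := Ext.none) (P1 := 0) (W1 := 536870912) (P2 := 0) (W2 := 536870912) (P3 := 697932185) (W3 := 42949674) (N0 := 3) (En := eng) (mo := mog) (C1 := cd1q0) (C2 := cd1q2a) (C3 := pd3)
    rfl (fun _ => rfl) k0_pp_023_a

noncomputable def f_pp_023_b : ℕ → ℕ → ℕ → ℕ → Bool := onCell 1610612736 536870912 1239849684 370763052 697932185 42949674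
    (rowB 3 eng mog cd1q0 cd1q2b pd3 2 true true true .up 0 2 3 (qsf 0 536870912 1239849684 370763052 3) ndB1q0 ndB1q2b pcB3 Cut.none Ext.none)

def k0_pp_023_b : ∃ t, chk3 f_pp_023_b t 1 1 1 = true :=
  ⟨(a (a (b (a (b (b (a (l 16654120) (l 16672688)) (l 16742952)) (a (l 16444616) (l 16488552))) (b (a (l 16708144) (b (l 16727040) (l 16667360))) (a (l 16530584) (l 16572480)))) (a (b (a (l 16247736) (l 16296160)) (l 16118368)) (b (a (l 16347664) (l 4)) (a (l 16152672) (l 4))))) (a (b (b (b (a (l 16747912) (l 4)) (l 4)) (l 4)) (l 4)) (l 4))) (l 4)), by decide +kernel⟩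

theorem c_pp_023_b : CertB 0 536870912 1239849684 370763052 697932185 42949674 3 eng mog cd1q0 cd1q2b pd3 true true true .up 0 2 3
    ndB1q0 ndB1q2b pcB3 Cut.none Ext.none :=
  certB2 (fam := true) (s1 := true) (s2 := true) (a := 0) (b := 2) (c := 3) (cn := .up) (n1 := ndB1q0) (n2 := ndB1q2b) (pc := pcB3) (cut := Cut.none) (xt := Ext.none) (P1 := 0) (W1 := 536870912) (P2 := 1239849684) (W2 := 370763052) (P3 := 697932185) (W3 := 42949674) (N0 := 3) (En := eng) (mo := mog) (C1 := cd1q0) (C2 := cd1q2b) (C3 := pd3)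
    rfl (fun _ => rfl) k0_pp_023_b

noncomputable def f_pp_033 : ℕ → ℕ → ℕ → ℕ → Bool := onCell 0 536870912 1610612736 536870912 697932185 42949674
    (rowB 3 eng mog cd1q0 cd1q3 pd3 1 true true true .pnn 0 3 3 (qsf 0 536870912 1610612736 536870912 3) ndB1q0 ndB1q3 pcB3 Cut.none Ext.none)

def k0_pp_033 : ∃ t, chk3 f_pp_033 t 1 1 1 = true :=
  ⟨(b (b (a (b (a (b (l 16057432) (l 16036360)) (l 1)) (a (b (l 16023376) (l 16026552)) (l 257730662119))) (l 1)) (a (l 4) (b (l 1) (l 4)))) (l 4)), by decide +kernel⟩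

theorem c_pp_033 : CertB 0 536870912 1610612736 536870912 697932185 42949674 3 eng mog cd1q0 cd1q3 pd3 true true true .pnn 0 3 3
    ndB1q0 ndB1q3 pcB3 Cut.none Ext.none :=
  certB1 (fam := true) (s1 := true) (s2 := true) (a := 0) (b := 3) (c := 3) (cn := .pnn) (n1 := ndB1q0) (n2 := ndB1q3) (pc := pcB3) (cut := Cut.none) (xt := Ext.none) (P1 := 0) (W1 := 536870912) (P2 := 1610612736) (W2 := 536870912) (P3 := 697932185) (W3 := 42949674) (N0 := 3) (En := eng) (mo := mog) (C1 := cd1q0) (C2 := cd1q3) (C3 := pd3)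
    rfl (fun _ => rfl) k0_pp_033

noncomputable def f_pp_101 : ℕ → ℕ → ℕ → ℕ → Bool := onCell 536870912 536870912 0 536870912 697932185 42949674
    (rowB 3 eng mog cd1q1 cd1q0 pd1 0 true true true .npn 1 0 1 (qsf 536870912 536870912 0 536870912 1) ndB1q1 ndB1q0 pcB1 Cut.none Ext.none)

def k0_pp_101 : ∃ t, chk3 f_pp_101 t 1 1 1 = true :=
  ⟨(l 4), by decide +kernel⟩

theorem c_pp_101 : CertB 536870912 536870912 0 536870912 697932185 42949674 3 eng mog cd1q1 cd1q0 pd1 true true true .npn 1 0 1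
    ndB1q1 ndB1q0 pcB1 Cut.none Ext.none :=
  certB0 (fam := true) (s1 := true) (s2 := true) (a := 1) (b := 0) (c := 1) (cn := .npn) (n1 := ndB1q1) (n2 := ndB1q0) (pc := pcB1) (cut := Cut.none) (xt := Ext.none) (P1 := 536870912) (W1 := 536870912) (P2 := 0) (W2 := 536870912) (P3 := 697932185) (W3 := 42949674) (N0 := 3) (En := eng) (mo := mog) (C1 := cd1q1) (C2 := cd1q0) (C3 := pd1)
    rfl k0_pp_101

noncomputable def f_pp_102 : ℕ → ℕ → ℕ → ℕ → Bool := onCell 536870912 536870912 0 536870912 697932185 42949674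
    (rowB 3 eng mog cd1q1 cd1q0 pd2 0 true true true .npp 1 0 2 (qsf 536870912 536870912 0 536870912 2) ndB1q1 ndB1q0 pcB2 Cut.none Ext.none)

def k0_pp_102 : ∃ t, chk3 f_pp_102 t 1 1 1 = true :=
  ⟨(l 4), by decide +kernel⟩

theorem c_pp_102 : CertB 536870912 536870912 0 536870912 697932185 42949674 3 eng mog cd1q1 cd1q0 pd2 true true true .npp 1 0 2
    ndB1q1 ndB1q0 pcB2 Cut.none Ext.none :=
  certB0 (fam := true) (s1 := true) (s2 := true) (a := 1) (b := 0) (c := 2) (cn := .npp) (n1 := ndB1q1) (n2 := ndB1q0) (pc := pcB2) (cut := Cut.none) (xt := Ext.none) (P1 := 536870912) (W1 := 536870912) (P2 := 0) (W2 := 536870912) (P3 := 697932185) (W3 := 42949674) (N0 := 3) (En := eng) (mo := mog) (C1 := cd1q1) (C2 := cd1q0) (C3 := pd2)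
    rfl k0_pp_102

noncomputable def f_pp_112 : ℕ → ℕ → ℕ → ℕ → Bool := onCell 536870912 536870912 536870912 536870912 697932185 42949674
    (rowB 3 eng mog cd1q1 cd1q1 pd2 0 true true true .dn 1 1 2 (qsf 536870912 536870912 536870912 536870912 2) ndB1q1 ndB1q1 pcB2 Cut.none Ext.none)

def k0_pp_112 : ∃ t, chk3 f_pp_112 t 1 1 1 = true :=
  ⟨(l 4), by decide +kernel⟩

theorem c_pp_112 : CertB 536870912 536870912 536870912 536870912 697932185 42949674 3 eng mog cd1q1 cd1q1 pd2 true true true .dn 1 1 2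
    ndB1q1 ndB1q1 pcB2 Cut.none Ext.none :=
  certB0 (fam := true) (s1 := true) (s2 := true) (a := 1) (b := 1) (c := 2) (cn := .dn) (n1 := ndB1q1) (n2 := ndB1q1) (pc := pcB2) (cut := Cut.none) (xt := Ext.none) (P1 := 536870912) (W1 := 536870912) (P2 := 536870912) (W2 := 536870912) (P3 := 697932185) (W3 := 42949674) (N0 := 3) (En := eng) (mo := mog) (C1 := cd1q1) (C2 := cd1q1) (C3 := pd2)
    rfl k0_pp_112

noncomputable def f_pp_113 : ℕ → ℕ → ℕ → ℕ → Bool := onCell 536870912 536870912 536870912 536870912 697932185 42949674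
    (rowB 3 eng mog cd1q1 cd1q1 pd3 0 true true true .nn 1 1 3 (qsf 536870912 536870912 536870912 536870912 3) ndB1q1 ndB1q1 pcB3 Cut.none Ext.none)

def k0_pp_113 : ∃ t, chk3 f_pp_113 t 1 1 1 = true :=
  ⟨(l 4), by decide +kernel⟩

theorem c_pp_113 : CertB 536870912 536870912 536870912 536870912 697932185 42949674 3 eng mog cd1q1 cd1q1 pd3 true true true .nn 1 1 3
    ndB1q1 ndB1q1 pcB3 Cut.none Ext.none :=
  certB0 (fam := true) (s1 := true) (s2 := true) (a := 1) (b := 1) (c := 3) (cn := .nn) (n1 := ndB1q1) (n2 := ndB1q1) (pc := pcB3) (cut := Cut.none) (xt := Ext.none) (P1 := 536870912) (W1 := 536870912) (P2 := 536870912) (W2 := 536870912) (P3 := 697932185) (W3 := 42949674) (N0 := 3) (En := eng) (mo := mog) (C1 := cd1q1) (C2 := cd1q1) (C3 := pd3)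
    rfl k0_pp_113

noncomputable def f_pp_123_a : ℕ → ℕ → ℕ → ℕ → Bool := onCell 536870912 536870912 0 536870912 697932185 42949674
    (rowB 3 eng mog cd1q1 cd1q2a pd3 0 true true true .npn 1 2 3 (qsf 536870912 536870912 0 536870912 3) ndB1q1 ndB1q2a pcB3 Cut.none Ext.none)

def k0_pp_123_a : ∃ t, chk3 f_pp_123_a t 1 1 1 = true :=
  ⟨(a (b (l 4) (l 4)) (l 4)), by decide +kernel⟩

theorem c_pp_123_a : CertB 536870912 536870912 0 536870912 697932185 42949674 3 eng mog cd1q1 cd1q2a pd3 true true true .npn 1 2 3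
    ndB1q1 ndB1q2a pcB3 Cut.none Ext.none :=
  certB0 (fam := true) (s1 := true) (s2 := true) (a := 1) (b := 2) (c := 3) (cn := .npn) (n1 := ndB1q1) (n2 := ndB1q2a) (pc := pcB3) (cut := Cut.none) (xt := Ext.none) (P1 := 536870912) (W1 := 536870912) (P2 := 0) (W2 := 536870912) (P3 := 697932185) (W3 := 42949674) (N0 := 3) (En := eng) (mo := mog) (C1 := cd1q1) (C2 := cd1q2a) (C3 := pd3)
    rfl k0_pp_123_a

noncomputable def f_pp_123_b : ℕ → ℕ → ℕ → ℕ → Bool := onCell 536870912 536870912 1239849684 370763052 697932185 42949674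
    (rowB 3 eng mog cd1q1 cd1q2b pd3 0 true true true .npn 1 2 3 (qsf 536870912 536870912 1239849684 370763052 3) ndB1q1 ndB1q2b pcB3 Cut.none Ext.none)

def k0_pp_123_b : ∃ t, chk3 f_pp_123_b t 1 1 1 = true :=
  ⟨(a (b (l 4) (l 4)) (l 4)), by decide +kernel⟩

theorem c_pp_123_b : CertB 536870912 536870912 1239849684 370763052 697932185 42949674 3 eng mog cd1q1 cd1q2b pd3 true true true .npn 1 2 3
    ndB1q1 ndB1q2b pcB3 Cut.none Ext.none :=
  certB0 (fam := true) (s1 := true) (s2 := true) (a := 1) (b := 2) (c := 3) (cn := .npn) (n1 := ndB1q1) (n2 := ndB1q2b) (pc := pcB3) (cut := Cut.none) (xt := Ext.none) (P1 := 536870912) (W1 := 536870912) (P2 := 1239849684) (W2 := 370763052) (P3 := 697932185) (W3 := 42949674) (N0 := 3) (En := eng) (mo := mog) (C1 := cd1q1) (C2 := cd1q2b) (C3 := pd3)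
    rfl k0_pp_123_b

noncomputable def f_pp_133 : ℕ → ℕ → ℕ → ℕ → Bool := onCell 536870912 536870912 1610612736 536870912 697932185 42949674
    (rowB 3 eng mog cd1q1 cd1q3 pd3 0 true true true .dn 1 3 3 (qsf 536870912 536870912 1610612736 536870912 3) ndB1q1 ndB1q3 pcB3 Cut.none Ext.none)

def k0_pp_133 : ∃ t, chk3 f_pp_133 t 1 1 1 = true :=
  ⟨(l 4), by decide +kernel⟩

theorem c_pp_133 : CertB 536870912 536870912 1610612736 536870912 697932185 42949674 3 eng mog cd1q1 cd1q3 pd3 true true true .dn 1 3 3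
    ndB1q1 ndB1q3 pcB3 Cut.none Ext.none :=
  certB0 (fam := true) (s1 := true) (s2 := true) (a := 1) (b := 3) (c := 3) (cn := .dn) (n1 := ndB1q1) (n2 := ndB1q3) (pc := pcB3) (cut := Cut.none) (xt := Ext.none) (P1 := 536870912) (W1 := 536870912) (P2 := 1610612736) (W2 := 536870912) (P3 := 697932185) (W3 := 42949674) (N0 := 3) (En := eng) (mo := mog) (C1 := cd1q1) (C2 := cd1q3) (C3 := pd3)
    rfl k0_pp_133

noncomputable def f_pp_202_a : ℕ → ℕ → ℕ → ℕ → Bool := onCell 0 536870912 0 536870912 697932185 42949674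
    (rowB 3 eng mog cd1q2a cd1q0 pd2 0 true true true .pp 2 0 2 (qsf 0 536870912 0 536870912 2) ndB1q2a ndB1q0 pcB2 Cut.none Ext.none)

def k0_pp_202_a : ∃ t, chk3 f_pp_202_a t 1 1 1 = true :=
  ⟨(l 5), by decide +kernel⟩

theorem c_pp_202_a : CertB 0 536870912 0 536870912 697932185 42949674 3 eng mog cd1q2a cd1q0 pd2 true true true .pp 2 0 2
    ndB1q2a ndB1q0 pcB2 Cut.none Ext.none :=
  certB0 (fam := true) (s1 := true) (s2 := true) (a := 2) (b := 0) (c := 2) (cn := .pp) (n1 := ndB1q2a) (n2 := ndB1q0) (pc := pcB2) (cut := Cut.none) (xt := Ext.none) (P1 := 0) (W1 := 536870912) (P2 := 0) (W2 := 536870912) (P3 := 697932185) (W3 := 42949674) (N0 := 3) (En := eng) (mo := mog) (C1 := cd1q2a) (C2 := cd1q0) (C3 := pd2)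
    rfl k0_pp_202_a

noncomputable def f_pp_202_b : ℕ → ℕ → ℕ → ℕ → Bool := onCell 1239849684 370763052 0 536870912 697932185 42949674
    (rowB 3 eng mog cd1q2b cd1q0 pd2 0 true true true .pp 2 0 2 (qsf 1239849684 370763052 0 536870912 2) ndB1q2b ndB1q0 pcB2 Cut.none Ext.none)

def k0_pp_202_b : ∃ t, chk3 f_pp_202_b t 1 1 1 = true :=
  ⟨(l 5), by decide +kernel⟩

theorem c_pp_202_b : CertB 1239849684 370763052 0 536870912 697932185 42949674 3 eng mog cd1q2b cd1q0 pd2 true true true .pp 2 0 2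
    ndB1q2b ndB1q0 pcB2 Cut.none Ext.none :=
  certB0 (fam := true) (s1 := true) (s2 := true) (a := 2) (b := 0) (c := 2) (cn := .pp) (n1 := ndB1q2b) (n2 := ndB1q0) (pc := pcB2) (cut := Cut.none) (xt := Ext.none) (P1 := 1239849684) (W1 := 370763052) (P2 := 0) (W2 := 536870912) (P3 := 697932185) (W3 := 42949674) (N0 := 3) (En := eng) (mo := mog) (C1 := cd1q2b) (C2 := cd1q0) (C3 := pd2)
    rfl k0_pp_202_b

noncomputable def f_pp_203_a : ℕ → ℕ → ℕ → ℕ → Bool := onCell 0 536870912 0 536870912 697932185 42949674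
    (rowB 3 eng mog cd1q2a cd1q0 pd3 0 true true true .up 2 0 3 (qsf 0 536870912 0 536870912 3) ndB1q2a ndB1q0 pcB3 Cut.none Ext.none)

def k0_pp_203_a : ∃ t, chk3 f_pp_203_a t 1 1 1 = true :=
  ⟨(l 5), by decide +kernel⟩

theorem c_pp_203_a : CertB 0 536870912 0 536870912 697932185 42949674 3 eng mog cd1q2a cd1q0 pd3 true true true .up 2 0 3
    ndB1q2a ndB1q0 pcB3 Cut.none Ext.none :=
  certB0 (fam := true) (s1 := true) (s2 := true) (a := 2) (b := 0) (c := 3) (cn := .up) (n1 := ndB1q2a) (n2 := ndB1q0) (pc := pcB3) (cut := Cut.none) (xt := Ext.none) (P1 := 0) (W1 := 536870912) (P2 := 0) (W2 := 536870912) (P3 := 697932185) (W3 := 42949674) (N0 := 3) (En := eng) (mo := mog) (C1 := cd1q2a) (C2 := cd1q0) (C3 := pd3)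
    rfl k0_pp_203_a

noncomputable def f_pp_203_b : ℕ → ℕ → ℕ → ℕ → Bool := onCell 1239849684 370763052 0 536870912 697932185 42949674
    (rowB 3 eng mog cd1q2b cd1q0 pd3 0 true true true .up 2 0 3 (qsf 1239849684 370763052 0 536870912 3) ndB1q2b ndB1q0 pcB3 Cut.none Ext.none)

def k0_pp_203_b : ∃ t, chk3 f_pp_203_b t 1 1 1 = true :=
  ⟨(l 5), by decide +kernel⟩

theorem c_pp_203_b : CertB 1239849684 370763052 0 536870912 697932185 42949674 3 eng mog cd1q2b cd1q0 pd3 true true true .up 2 0 3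
    ndB1q2b ndB1q0 pcB3 Cut.none Ext.none :=
  certB0 (fam := true) (s1 := true) (s2 := true) (a := 2) (b := 0) (c := 3) (cn := .up) (n1 := ndB1q2b) (n2 := ndB1q0) (pc := pcB3) (cut := Cut.none) (xt := Ext.none) (P1 := 1239849684) (W1 := 370763052) (P2 := 0) (W2 := 536870912) (P3 := 697932185) (W3 := 42949674) (N0 := 3) (En := eng) (mo := mog) (C1 := cd1q2b) (C2 := cd1q0) (C3 := pd3)
    rfl k0_pp_203_b

noncomputable def f_pp_213_a : ℕ → ℕ → ℕ → ℕ → Bool := onCell 0 536870912 536870912 536870912 697932185 42949674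
    (rowB 3 eng mog cd1q2a cd1q1 pd3 0 true true true .pnn 2 1 3 (qsf 0 536870912 536870912 536870912 3) ndB1q2a ndB1q1 pcB3 Cut.none Ext.none)

def k0_pp_213_a : ∃ t, chk3 f_pp_213_a t 1 1 1 = true :=
  ⟨(l 5), by decide +kernel⟩

theorem c_pp_213_a : CertB 0 536870912 536870912 536870912 697932185 42949674 3 eng mog cd1q2a cd1q1 pd3 true true true .pnn 2 1 3
    ndB1q2a ndB1q1 pcB3 Cut.none Ext.none :=
  certB0 (fam := true) (s1 := true) (s2 := true) (a := 2) (b := 1) (c := 3) (cn := .pnn) (n1 := ndB1q2a) (n2 := ndB1q1) (pc := pcB3) (cut := Cut.none) (xt := Ext.none) (P1 := 0) (W1 := 536870912) (P2 := 536870912) (W2 := 536870912) (P3 := 697932185) (W3 := 42949674) (N0 := 3) (En := eng) (mo := mog) (C1 := cd1q2a) (C2 := cd1q1) (C3 := pd3)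
    rfl k0_pp_213_a

noncomputable def f_pp_213_b : ℕ → ℕ → ℕ → ℕ → Bool := onCell 1239849684 370763052 536870912 536870912 697932185 42949674
    (rowB 3 eng mog cd1q2b cd1q1 pd3 0 true true true .pnn 2 1 3 (qsf 1239849684 370763052 536870912 536870912 3) ndB1q2b ndB1q1 pcB3 Cut.none Ext.none)

def k0_pp_213_b : ∃ t, chk3 f_pp_213_b t 1 1 1 = true :=
  ⟨(l 5), by decide +kernel⟩

theorem c_pp_213_b : CertB 1239849684 370763052 536870912 536870912 697932185 42949674 3 eng mog cd1q2b cd1q1 pd3 true true true .pnn 2 1 3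
    ndB1q2b ndB1q1 pcB3 Cut.none Ext.none :=
  certB0 (fam := true) (s1 := true) (s2 := true) (a := 2) (b := 1) (c := 3) (cn := .pnn) (n1 := ndB1q2b) (n2 := ndB1q1) (pc := pcB3) (cut := Cut.none) (xt := Ext.none) (P1 := 1239849684) (W1 := 370763052) (P2 := 536870912) (W2 := 536870912) (P3 := 697932185) (W3 := 42949674) (N0 := 3) (En := eng) (mo := mog) (C1 := cd1q2b) (C2 := cd1q1) (C3 := pd3)
    rfl k0_pp_213_b

noncomputable def f_pp_303 : ℕ → ℕ → ℕ → ℕ → Bool := onCell 1610612736 536870912 0 536870912 697932185 42949674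
    (rowB 3 eng mog cd1q3 cd1q0 pd3 0 true true true .npn 3 0 3 (qsf 1610612736 536870912 0 536870912 3) ndB1q3 ndB1q0 pcB3 Cut.none Ext.none)

def k0_pp_303 : ∃ t, chk3 f_pp_303 t 1 1 1 = true :=
  ⟨(l 5), by decide +kernel⟩

theorem c_pp_303 : CertB 1610612736 536870912 0 536870912 697932185 42949674 3 eng mog cd1q3 cd1q0 pd3 true true true .npn 3 0 3
    ndB1q3 ndB1q0 pcB3 Cut.none Ext.none :=
  certB0 (fam := true) (s1 := true) (s2 := true) (a := 3) (b := 0) (c := 3) (cn := .npn) (n1 := ndB1q3) (n2 := ndB1q0) (pc := pcB3) (cut := Cut.none) (xt := Ext.none) (P1 := 1610612736) (W1 := 536870912) (P2 := 0) (W2 := 536870912) (P3 := 697932185) (W3 := 42949674) (N0 := 3) (En := eng) (mo := mog) (C1 := cd1q3) (C2 := cd1q0) (C3 := pd3)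
    rfl k0_pp_303

noncomputable def f_pp_313 : ℕ → ℕ → ℕ → ℕ → Bool := onCell 1610612736 536870912 536870912 536870912 697932185 42949674
    (rowB 3 eng mog cd1q3 cd1q1 pd3 0 true true true .dn 3 1 3 (qsf 1610612736 536870912 536870912 536870912 3) ndB1q3 ndB1q1 pcB3 Cut.none Ext.none)

def k0_pp_313 : ∃ t, chk3 f_pp_313 t 1 1 1 = true :=
  ⟨(l 4), by decide +kernel⟩

theorem c_pp_313 : CertB 1610612736 536870912 536870912 536870912 697932185 42949674 3 eng mog cd1q3 cd1q1 pd3 true true true .dn 3 1 3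
    ndB1q3 ndB1q1 pcB3 Cut.none Ext.none :=
  certB0 (fam := true) (s1 := true) (s2 := true) (a := 3) (b := 1) (c := 3) (cn := .dn) (n1 := ndB1q3) (n2 := ndB1q1) (pc := pcB3) (cut := Cut.none) (xt := Ext.none) (P1 := 1610612736) (W1 := 536870912) (P2 := 536870912) (W2 := 536870912) (P3 := 697932185) (W3 := 42949674) (N0 := 3) (En := eng) (mo := mog) (C1 := cd1q3) (C2 := cd1q1) (C3 := pd3)
    rfl k0_pp_313

noncomputable def f_pm_001 : ℕ → ℕ → ℕ → ℕ → Bool := onCell 0 536870912 0 536870912 697932185 42949674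
    (rowB 3 eng mog cd1q0 cd1q0 pd1 0 true true false .up 0 0 1 (qsf 0 536870912 0 536870912 1) ndB1q0 ndB1q0 pcB1 Cut.none Ext.none)

def k0_pm_001 : ∃ t, chk3 f_pm_001 t 1 1 1 = true :=
  ⟨(l 3), by decide +kernel⟩

theorem c_pm_001 : CertB 0 536870912 0 536870912 697932185 42949674 3 eng mog cd1q0 cd1q0 pd1 true true false .up 0 0 1
    ndB1q0 ndB1q0 pcB1 Cut.none Ext.none :=
  certB0 (fam := true) (s1 := true) (s2 := false) (a := 0) (b := 0) (c := 1) (cn := .up) (n1 := ndB1q0) (n2 := ndB1q0) (pc := pcB1) (cut := Cut.none) (xt := Ext.none) (P1 := 0) (W1 := 536870912) (P2 := 0) (W2 := 536870912) (P3 := 697932185) (W3 := 42949674) (N0 := 3) (En := eng) (mo := mog) (C1 := cd1q0) (C2 := cd1q0) (C3 := pd1)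
    rfl k0_pm_001

noncomputable def f_pm_011 : ℕ → ℕ → ℕ → ℕ → Bool := onCell 0 536870912 536870912 536870912 697932185 42949674
    (rowB 3 eng mog cd1q0 cd1q1 pd1 1 true true false .pnn 0 1 1 (qsf 0 536870912 536870912 536870912 1) ndB1q0 ndB1q1 pcB1 Cut.none Ext.none)

def k0_pm_011 : ∃ t, chk3 f_pm_011 t 1 1 1 = true :=
  ⟨(a (l 3) (l 3)), by decide +kernel⟩

theorem c_pm_011 : CertB 0 536870912 536870912 536870912 697932185 42949674 3 eng mog cd1q0 cd1q1 pd1 true true false .pnn 0 1 1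
    ndB1q0 ndB1q1 pcB1 Cut.none Ext.none :=
  certB1 (fam := true) (s1 := true) (s2 := false) (a := 0) (b := 1) (c := 1) (cn := .pnn) (n1 := ndB1q0) (n2 := ndB1q1) (pc := pcB1) (cut := Cut.none) (xt := Ext.none) (P1 := 0) (W1 := 536870912) (P2 := 536870912) (W2 := 536870912) (P3 := 697932185) (W3 := 42949674) (N0 := 3) (En := eng) (mo := mog) (C1 := cd1q0) (C2 := cd1q1) (C3 := pd1)
    rfl (fun _ => rfl) k0_pm_011

noncomputable def f_pm_012 : ℕ → ℕ → ℕ → ℕ → Bool := onCell 1073741824 536870912 536870912 536870912 697932185 42949674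
    (rowB 3 eng mog cd1q0 cd1q1 pd2 2 true true false .pnp 0 1 2 (qsf 0 536870912 536870912 536870912 2) ndB1q0 ndB1q1 pcB2 Cut.none Ext.none)

def k0_pm_012 : ∃ t, chk3 f_pm_012 t 4 2 1 = true :=
  ⟨(l 3), by decide +kernel⟩

def k1_pm_012 : ∃ t, chk3 f_pm_012 t 8 3 1 = true :=
  ⟨(b (l 3) (a (l 3) (b (l 3) (b (l 3) (a (l 3) (a (l 3) (b (l 3) (a (b (l 3) (l 192904243079)) (b (l 16709032) (a (l 111836726567) (b (l 16701576) (l 16698488)))))))))))), by decide +kernel⟩

def k2_pm_012 : ∃ t, chk3 f_pm_012 t 9 3 1 = true :=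
  ⟨(a (b (l 3) (b (a (l 3) (a (l 3) (b (l 3) (b (l 3) (l 16714656))))) (a (b (a (l 3) (b (l 3) (l 16736632))) (b (b (a (l 16738792) (a (l 16709936) (l 16705344))) (a (a (l 16712248) (l 16708080)) (a (l 16703544) (l 16699456)))) (a (a (b (l 16704816) (l 16697288)) (b (l 16700440) (l 16694880))) (b (l 16695824) (l 16689232))))) (b (b (a (a (l 16717720) (l 16691184)) (a (l 16707232) (b (l 16683480) (l 16699288)))) (a (a (a (l 16708896) (l 16706032)) (l 16696912)) (a (l 16697072) (l 16692264)))) (b (a (a (b (l 16699992) (l 16695984)) (l 16693456)) (a (l 16688048) (l 16682224))) (a (b (l 16687464) (l 16679856)) (l 16673192))))))) (b (a (l 3) (b (l 3) (a (b (l 3) (a (l 137069672823) (l 16737040))) (b (a (l 3) (l 16718552)) (a (b (l 16713736) (l 16727544)) (b (l 16707928) (l 16700712))))))) (b (a (b (a (l 210621123575) (a (l 107541857207) (a (l 16715128) (l 16712272)))) (a (b (l 16713968) (a (l 16675304) (l 16706512))) (b (a (l 16705928) (l 16700416)) (a (l 16695696)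 (l 16690336))))) (b (a (b (l 16697872) (a (l 16704152) (l 16698160))) (a (b (b (l 16701184) (l 16697576)) (l 16692080)) (l 16689696))) (a (b (l 16692152) (l 16681616)) (b (l 16680456) (l 16670288))))) (a (a (b (b (a (l 16696488) (l 16691280)) (l 16683712)) (b (l 16673096) (l 16661760))) (b (b (l 16661640) (l 16671976)) (l 16655280))) (b (a (b (l 16671056) (l 16660096)) (l 16654152)) (b (a (l 16649184) (l 16637840)) (a (l 16638128) (l 16626864)))))))), by decide +kernel⟩

def k3_pm_012 : ∃ t, chk3 f_pm_012 t 5 2 1 = true :=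
  ⟨(b (a (a (a (l 3) (l 2)) (l 2)) (l 2)) (a (a (a (l 3) (a (b (l 3) (a (b (l 3) (l 16722104)) (b (l 16724368) (a (l 16719432) (l 16717632))))) (a (b (a (l 16771904) (l 16770560)) (a (b (l 16721960) (l 16715840)) (b (l 16720328) (l 16713976)))) (b (a (a (l 16727640) (b (l 16729720) (l 16724144))) (a (a (a (l 16726552) (b (l 16729168) (l 16723488))) (l 16726120)) (l 16725640))) (a (b (a (l 16719112) (l 16718248)) (l 16712072)) (b (l 16717016) (l 16762680))))))) (b (b (l 16719184) (l 16712016)) (b (l 16704448) (l 16696160)))) (b (a (l 16699312) (l 2)) (a (l 16678680) (l 16661336))))), by decide +kernel⟩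

def k4_pm_012 : ∃ t, chk3 f_pm_012 t 40 3 1 = true :=
  ⟨(b (b (a (a (l 3) (b (l 3) (a (l 16722496) (l 16720144)))) (b (a (l 16723712) (l 16719712)) (a (b (l 16718976) (l 16714360)) (a (l 16755200) (l 16752984))))) (a (b (a (b (l 16716560) (l 16709456)) (b (a (l 16712664) (l 16710040)) (a (l 16705272) (l 16702552)))) (a (b (l 16723200) (l 16694912)) (a (l 16736336) (l 16691576)))) (b (a (b (l 16748280) (l 16719696)) (b (l 16722528) (l 16693528))) (a (l 16687432) (l 16681944))))) (b (b (a (b (l 16684480) (l 16676768)) (b (l 16672864) (l 16664936))) (a (b (l 16668696) (l 16659072)) (l 16652360))) (b (a (l 16643184) (b (l 16637896) (l 16627384))) (a (b (l 16627080) (l 16615416)) (b (l 16616496) (l 16604568)))))), by decide +kernel⟩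

def k5_pm_012 : ∃ t, chk3 f_pm_012 t 41 3 1 = true :=
  ⟨(b (a (b (a (a (b (l 16716736) (l 16750784)) (b (l 16714696) (l 16727608))) (b (a (l 16712728) (l 16710752)) (l 16703240))) (b (a (l 16692624) (l 16687648)) (a (l 16676480) (l 16671072)))) (a (b (b (l 16728616) (a (l 16699808) (l 16697520))) (b (a (l 16683888) (l 16681472)) (l 16665712))) (b (a (a (b (l 16705008) (l 16695800)) (b (l 16703976) (l 16694720))) (a (a (a (b (l 16703368) (l 16694048)) (b (c (l 16727848) (l 16699328)) (l 16714648))) (l 16740112)) (l 16739360))) (a (b (l 16679032) (l 16661672)) (b (c (l 16722200) (l 16714672)) (c (l 16683424) (l 16697264))))))) (a (b (b (l 16657544) (l 16662160)) (b (a (l 16583128) (b (l 16625440) (l 16614704))) (b (l 16606032) (l 16594592)))) (b (a (b (l 16649216) (b (l 16636960) (l 16629072))) (a (b (l 16645128) (b (l 16633008) (l 16625152))) (a (a (a (b (l 16643608) (l 16627680)) (a (b (l 16643360) (l 16627480)) (b (l 16643192) (l 16627384)))) (b (l 16642760)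 (l 16626896))) (b (l 16641720) (l 16625824))))) (a (b (b (l 16620464) (l 16609752)) (l 16593472)) (b (a (l 16590632) (a (a (a (l 16610496) (a (l 16610456) (l 16610560))) (l 16610104)) (l 16609080))) (a (l 16590896) (a (a (a (l 16590416) (c (l 16550904) (l 16536920))) (l 16590704)) (l 16589736)))))))), by decide +kernel⟩

def k6_pm_012 : ∃ t, chk3 f_pm_012 t 21 3 1 = true :=
  ⟨(b (b (b (l 16707872) (l 16675800)) (b (l 16657256) (l 16637648))) (b (b (a (l 16630136) (l 16609128)) (b (l 16606816) (l 16598480))) (b (a (l 16597224) (l 16575360)) (b (l 16573232) (l 16564160))))), by decide +kernel⟩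

def k7_pm_012 : ∃ t, chk3 f_pm_012 t 11 3 1 = true :=
  ⟨(a (b (b (b (l 16660968) (l 16646808)) (b (l 16624792) (l 16601520))) (b (b (l 16600896) (l 16602752)) (b (l 16543336) (b (l 16531528) (l 16524128))))) (b (b (b (l 16639480) (l 16622248)) (b (l 16596840) (l 16570080))) (b (b (l 16544992) (l 16565184)) (b (l 16504104) (l 16487680))))), by decide +kernel⟩

def k8_pm_012 : ∃ t, chk3 f_pm_012 t 3 1 1 = true :=
  ⟨(b (a (b (l 2) (b (l 2) (a (l 16685832) (l 2)))) (l 2)) (b (a (a (b (a (b (l 16622672) (l 16602520)) (l 16600224)) (a (b (l 16573504) (l 16543152)) (l 16540680))) (b (l 16590544) (b (l 16543352) (l 16506288)))) (b (l 2) (a (b (l 2) (l 16501688)) (l 2)))) (a (b (a (b (a (l 16514536) (l 16491896)) (a (b (l 16495432) (l 16484576)) (l 16463488))) (b (l 16469840) (a (l 16443376) (l 16429200)))) (a (b (a (l 16490176) (l 16439464)) (a (l 16451160) (l 16418760))) (b (a (l 16415528) (l 16396992)) (a (l 16391784) (l 16369736))))) (b (a (b (a (l 16460888)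 (l 16462768)) (a (l 16421496) (l 16420848))) (b (l 2) (a (l 16426496) (l 2)))) (a (b (a (l 16384096) (l 16377400)) (a (l 16352184) (l 16339232))) (b (a (l 16376840) (l 16382624)) (a (l 16331088) (l 16327888)))))))), by decide +kernel⟩

theorem s9_pm_012 : ∃ t, chk3 f_pm_012 t 20 3 1 = true := ex3_a k4_pm_012 k5_pm_012

theorem s10_pm_012 : ∃ t, chk3 f_pm_012 t 10 3 1 = true := ex3_a s9_pm_012 k6_pm_012

theorem s11_pm_012 : ∃ t, chk3 f_pm_012 t 5 3 1 = true := ex3_a s10_pm_012 k7_pm_012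

theorem s12_pm_012 : ∃ t, chk3 f_pm_012 t 5 1 1 = true := ex3_b k3_pm_012 s11_pm_012

theorem s13_pm_012 : ∃ t, chk3 f_pm_012 t 4 3 1 = true := ex3_a k1_pm_012 k2_pm_012

theorem s14_pm_012 : ∃ t, chk3 f_pm_012 t 4 1 1 = true := ex3_b k0_pm_012 s13_pm_012

theorem s15_pm_012 : ∃ t, chk3 f_pm_012 t 2 1 1 = true := ex3_a s14_pm_012 s12_pm_012

theorem s16_pm_012 : ∃ t, chk3 f_pm_012 t 1 1 1 = true := ex3_a s15_pm_012 k8_pm_012

theorem c_pm_012 : CertB 0 536870912 536870912 536870912 697932185 42949674 3 eng mog cd1q0 cd1q1 pd2 true true false .pnp 0 1 2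
    ndB1q0 ndB1q1 pcB2 Cut.none Ext.none :=
  certB2 (fam := true) (s1 := true) (s2 := false) (a := 0) (b := 1) (c := 2) (cn := .pnp) (n1 := ndB1q0) (n2 := ndB1q1) (pc := pcB2) (cut := Cut.none) (xt := Ext.none) (P1 := 0) (W1 := 536870912) (P2 := 536870912) (W2 := 536870912) (P3 := 697932185) (W3 := 42949674) (N0 := 3) (En := eng) (mo := mog) (C1 := cd1q0) (C2 := cd1q1) (C3 := pd2)
    rfl (fun _ => rfl) s16_pm_012

noncomputable def cut_pm_022_a : Cut := Cut.of [[⟨0, 0, 0, 67108864⟩, ⟨1, 1, 0, 67108864⟩, ⟨2, 1, 0, 67108864⟩]]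

noncomputable def f_pm_022_a : ℕ → ℕ → ℕ → ℕ → Bool := onCell 1073741824 536870912 0 536870912 697932185 42949674
    (rowB 3 eng mog cd1q0 cd1q2a pd2 2 true true false .pp 0 2 2 (qsf 0 536870912 0 536870912 2) ndB1q0 ndB1q2a pcB2 cut_pm_022_a Ext.none)

def k0_pm_022_a : ∃ t, chk3 f_pm_022_a t 4 2 1 = true :=
  ⟨(a (l 1) (b (l 1) (a (l 1) (b (l 1) (a (l 1) (b (l 1) (a (l 1) (l 16495376)))))))), by decide +kernel⟩

def k1_pm_022_a : ∃ t, chk3 f_pm_022_a t 4 3 1 = true :=
  ⟨(a (b (l 1) (a (b (l 1) (l 6)) (a (b (b (l 1) (l 6)) (l 6)) (a (b (b (l 1) (l 6)) (l 6)) (b (b (b (l 1) (b (l 16622504) (l 16632200))) (b (l 16645184) (b (l 16658216) (l 16667016)))) (b (b (l 16680320) (l 16692256)) (b (l 16682584) (b (l 16695072) (l 16695056))))))))) (b (a (b (l 1) (b (a (l 1) (a (b (l 1) (l 16557896)) (b (l 16544352) (l 16560784)))) (a (a (l 1) (b (l 16573312) (l 16590880))) (b (a (l 16575520) (l 16577496)) (a (l 16592216) (l 16593304)))))) (b (a (b (b (l 1) (l 16507616))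 (a (b (l 1) (l 16532968)) (b (l 16523408) (l 16537056)))) (a (b (l 16531032) (b (l 16528000) (l 16540840))) (b (l 16536408) (c (l 16543712) (l 16532304))))) (b (a (b (a (l 16547888) (l 16551144)) (a (l 16563440) (l 16565808))) (a (b (l 16554104) (l 16567888)) (l 16542336))) (a (b (a (l 16579232) (l 16580688)) (l 16552520)) (a (l 16588568) (l 16588976)))))) (b (a (b (a (b (a (l 16608184) (l 16608792)) (a (l 16627224) (l 16626872))) (b (a (l 16609200) (l 16609368)) (l 16583984))) (a (b (a (l 16644144) (l 16642928)) (l 16638712)) (b (l 16640672) (l 16651200)))) (a (b (b (l 16609144) (l 16623848)) (l 16630112)) (b (l 16604600) (a (l 16616216) (l 16607352))))) (b (a (a (b (l 16673952) (l 16676656)) (b (l 16653696) (l 16656480))) (a (b (l 16634344) (l 16637176)) (b (l 16616064) (l 16618784)))) (a (b (a (a (l 16683976) (l 16673744)) (l 16679752)) (a (b (l 16679632) (l 16700632)) (a (l 16664576) (l 16654776)))) (a (b (l 16639536) (a (l 16645152) (l 16635088))) (b (a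 (l 16625312) (l 16615200)) (a (l 16624360) (l 16613448))))))))), by decide +kernel⟩

def k2_pm_022_a : ∃ t, chk3 f_pm_022_a t 20 1 1 = true :=
  ⟨(b (b (a (l 1) (b (c (l 16450824) (l 16441576)) (b (l 16452936) (l 16419568)))) (a (b (c (l 16473152) (l 94522212871)) (b (b (a (l 16482512) (l 16489272)) (c (l 16499360) (l 16485736))) (c (l 16510768) (l 16518760)))) (b (b (l 16451584) (l 16486360)) (a (b (l 16499184) (l 16513336)) (a (b (l 16501360) (l 16516584)) (b (a (l 16499008) (l 16497568)) (l 16513384))))))) (a (b (b (b (b (a (l 16515360) (l 16520376)) (l 16443720)) (a (l 16520944) (l 16545064))) (b (l 16544904) (l 16580688))) (b (b (l 16587680) (b (l 16592880) (l 16596544))) (b (b (l 16598520) (l 16599944)) (b (l 16599952) (a (l 16603024) (l 16593152)))))) (a (b (b (b (l 16529368) (l 16547744)) (b (l 16560776) (l 16569064))) (b (b (l 16576008) (l 16582768)) (b (l 16585648) (b (l 16585792) (l 16584064))))) (a (b (b (l 16538888) (a (l 16582096) (l 16580480)))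 (b (b (l 16570840) (l 16577168)) (b (l 16579464) (b (l 16579664) (l 16577984))))) (b (b (b (l 16528832) (l 16563192)) (b (l 16553184) (a (l 16561728) (l 16560816)))) (b (b (a (l 16568816) (l 16568056)) (a (l 16574888) (l 16574008))) (b (a (l 16577120) (b (l 16575784) (l 16576656))) (a (b (l 16577416) (l 16575784)) (a (a (a (l 16576320) (b (l 16577568) (l 16576024))) (l 16576552)) (l 16575680)))))))))), by decide +kernel⟩

def k3_pm_022_a : ∃ t, chk3 f_pm_022_a t 21 1 1 = true :=
  ⟨(b (b (c (a (b (a (l 16450568) (c (l 16467664) (l 16448920))) (a (l 16459072) (b (l 16431696) (a (l 16458920) (l 16457616))))) (b (b (l 16451640) (l 16453848)) (b (l 16457600) (l 16463008)))) (a (b (l 16455784) (b (l 16462128) (l 16469352))) (b (l 16458848) (l 16468160)))) (b (c (a (a (l 16453696) (b (l 16459408) (l 16496024))) (b (l 16470528) (l 16479448))) (a (b (l 16477536) (l 16486728)) (l 16462944))) (a (b (c (b (l 16484552) (l 16489520)) (l 16496600)) (c (l 16501232) (l 16510096)))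 (b (c (l 16488912) (l 16497128)) (l 16503480))))) (b (b (b (c (a (l 16516776) (l 16514320)) (l 16586208)) (a (l 16533552) (l 16529192))) (a (b (l 16544288) (c (l 16550864) (l 16555248))) (b (l 16538520) (l 16544952)))) (b (b (a (c (l 16579160) (l 16560592)) (l 16548912)) (a (a (l 16568440) (l 16559760)) (l 16552032))) (b (a (a (l 16570744) (l 16582880)) (l 16552896)) (a (b (l 16608576) (a (l 16569560) (l 16581536))) (b (l 16552224) (l 16549960))))))), by decide +kernel⟩

def k4_pm_022_a : ∃ t, chk3 f_pm_022_a t 11 1 1 = true :=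
  ⟨(b (b (a (b (a (c (l 16461728) (l 16459992)) (b (l 16463512) (l 16462416))) (a (b (l 16465800) (l 16471280)) (c (l 16470048) (l 16456944)))) (b (a (b (l 16464888) (l 16463048)) (b (l 16467352) (l 16464800))) (a (c (l 16473408) (l 16482232)) (b (l 16464832) (l 16467432))))) (b (a (a (b (l 16479128) (l 16489376)) (b (c (l 16479008) (l 16470632)) (l 16442448))) (b (a (c (l 16476888) (l 16468144)) (l 16493600)) (a (c (l 16484808) (l 16475968)) (l 16480464)))) (a (a (b (l 16499672) (l 16508304)) (b (l 16495712) (l 16508272))) (a (b (c (l 16495024) (l 16486480)) (l 16503832)) (b (l 16511864) (l 16502936)))))) (b (b (a (a (l 16546544) (l 16525560)) (c (l 16522560) (l 16517424))) (a (b (l 16535552) (l 16538352)) (b (l 16529672) (l 16528800)))) (b (b (a (l 16560016) (l 16525816)) (a (l 16539192) (l 16522264))) (b (a (a (l 16542312) (l 16531864)) (a (l 16521520) (l 16510840))) (a (a (l 16579312) (b (l 16528264) (l 16523840))) (b (l 16509600) (l 16544880))))))), by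 decide +kernel⟩

def k5_pm_022_a : ∃ t, chk3 f_pm_022_a t 3 2 1 = true :=
  ⟨(a (b (a (b (a (b (a (l 16472040) (l 16480712)) (a (l 16469136) (l 16477272))) (b (l 16494456) (a (l 16485856) (l 16494624)))) (a (b (a (l 16468968) (l 16476408)) (a (l 16471480) (l 16478016))) (b (a (l 16484248) (l 16492344)) (a (l 16484944) (l 16492184))))) (a (b (a (b (l 16508304) (l 16503480)) (b (l 16516960) (l 16511768))) (a (b (l 16500592) (l 16499640)) (b (l 16508336) (l 16506696)))) (b (b (a (l 16525008) (l 16534152)) (l 16523992)) (a (b (l 16515488) (l 16513272)) (l 16523440))))) (a (b (b (a (a (l 16476528) (l 16482000)) (a (l 16487920) (l 16494200))) (a (a (l 16483824) (l 16488072)) (a (l 16492824) (l 16497984)))) (a (b (a (l 16493016) (l 16495800)) (a (l 16503152) (l 16504048))) (b (b (l 16499528) (l 16502280)) (l 16506344)))) (b (b (a (a (l 16500752) (l 16507016)) (l 16538560)) (a (a (l 16503472) (l 16508800)) (l 16519040))) (a (b (a (l 16507104) (l 16511512)) (a (l 16509696)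 (l 16513256))) (b (l 16521208) (l 16521248)))))) (b (a (b (a (b (l 16551960) (l 16545752)) (l 16572608)) (a (l 16539288) (l 16560576))) (b (a (l 16596296) (l 16618144)) (a (l 16581480) (l 16600264)))) (a (b (a (l 16536144) (l 16553944)) (b (l 16626776) (l 16600336))) (b (l 16641600) (l 16541568))))), by decide +kernel⟩

def k6_pm_022_a : ∃ t, chk3 f_pm_022_a t 3 3 1 = true :=
  ⟨(b (a (a (b (b (a (l 16512256) (l 16511184)) (l 16569008)) (a (l 16521584) (l 16512800))) (b (a (b (a (l 16511736) (l 16514272)) (l 16513064)) (b (l 16519280) (l 16513904))) (a (l 16505320) (l 16499608)))) (a (b (a (l 16520720) (l 16522968)) (l 16576464)) (b (l 16524248) (l 16482640)))) (a (b (a (b (a (l 16512368) (l 16498960)) (a (l 16504984) (l 16488264))) (b (l 16524368) (l 16509608))) (a (b (a (l 16494624) (l 16474752)) (a (b (l 16485048) (l 16476672)) (l 16521264))) (b (a (l 16457816) (l 16443576)) (a (l 16460072) (l 16422816))))) (a (b (b (l 16465704) (l 16446688)) (b (l 16446448)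 (a (l 16408704) (l 16396424)))) (b (l 16619104) (b (l 16406520) (l 16382064)))))), by decide +kernel⟩

theorem s7_pm_022_a : ∃ t, chk3 f_pm_022_a t 3 1 1 = true := ex3_b k5_pm_022_a k6_pm_022_a

theorem s8_pm_022_a : ∃ t, chk3 f_pm_022_a t 10 1 1 = true := ex3_a k2_pm_022_a k3_pm_022_a

theorem s9_pm_022_a : ∃ t, chk3 f_pm_022_a t 5 1 1 = true := ex3_a s8_pm_022_a k4_pm_022_a

theorem s10_pm_022_a : ∃ t, chk3 f_pm_022_a t 4 1 1 = true := ex3_b k0_pm_022_a k1_pm_022_a

theorem s11_pm_022_a : ∃ t, chk3 f_pm_022_a t 2 1 1 = true := ex3_a s10_pm_022_a s9_pm_022_a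

theorem s12_pm_022_a : ∃ t, chk3 f_pm_022_a t 1 1 1 = true := ex3_a s11_pm_022_a s7_pm_022_a

theorem c_pm_022_a : CertB 0 536870912 0 536870912 697932185 42949674 3 eng mog cd1q0 cd1q2a pd2 true true false .pp 0 2 2
    ndB1q0 ndB1q2a pcB2 cut_pm_022_a Ext.none :=
  certB2 (fam := true) (s1 := true) (s2 := false) (a := 0) (b := 2) (c := 2) (cn := .pp) (n1 := ndB1q0) (n2 := ndB1q2a) (pc := pcB2) (cut := cut_pm_022_a) (xt := Ext.none) (P1 := 0) (W1 := 536870912) (P2 := 0) (W2 := 536870912) (P3 := 697932185) (W3 := 42949674) (N0 := 3) (En := eng) (mo := mog) (C1 := cd1q0) (C2 := cd1q2a) (C3 := pd2)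
    rfl (fun _ => rfl) s12_pm_022_a

noncomputable def cut_pm_022_b : Cut := Cut.of [[⟨0, 0, 0, 67108864⟩, ⟨1, 1, 0, 67108864⟩, ⟨2, 1, 0, 67108864⟩]]

noncomputable def f_pm_022_b : ℕ → ℕ → ℕ → ℕ → Bool := onCell 1073741824 536870912 1239849684 370763052 697932185 42949674
    (rowB 3 eng mog cd1q0 cd1q2b pd2 2 true true false .pp 0 2 2 (qsf 0 536870912 1239849684 370763052 2) ndB1q0 ndB1q2b pcB2 cut_pm_022_b Ext.none)

def k0_pm_022_b : ∃ t, chk3 f_pm_022_b t 1 1 1 = true :=
  ⟨(a (b (a (l 1) (a (b (b (a (a (l 1) (l 16404848)) (a (b (a (l 16427192) (b (l 16437456) (l 16416520))) (l 1)) (b (b (l 16442800) (l 16421064)) (l 16375808)))) (l 1)) (l 1)) (b (a (b (a (b (l 16435784) (l 16376936)) (b (l 16436984) (l 16379488))) (a (l 16327712) (b (l 16320272) (l 1)))) (b (b (l 16477744) (l 16406616)) (b (l 16328472) (l 16269696)))) (a (l 1) (b (l 16221176) (l 1)))))) (l 1)) (b (a (a (b (a (b (b (l 16470328) (l 16397352)) (b (l 16342896) (l 16286856))) (b (b (l 16491736)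 (l 16436848)) (b (l 16361040) (l 16307104)))) (b (a (l 16263056) (l 16224440)) (a (l 1) (l 16109472)))) (b (a (b (a (l 16502832) (l 16492552)) (a (l 16352128) (l 16365112))) (b (l 16499992) (l 16385936))) (a (b (a (l 16244048) (l 16256864)) (l 16203784)) (b (l 16278848) (l 16173408))))) (a (b (a (b (l 16573880) (l 16415656)) (b (l 16538600) (l 16447480))) (a (l 16326640) (l 16303624))) (b (a (l 16674288) (l 16664168)) (a (l 16346232) (l 16390624))))) (a (b (a (l 1) (a (b (l 16026784) (l 1)) (b (l 16065856) (l 15954920)))) (l 1)) (a (b (a (l 16057568) (l 16105720)) (a (l 1) (l 15907688))) (b (a (l 16156240) (l 16207992)) (a (l 15969624) (l 16029160))))))), by decide +kernel⟩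

theorem c_pm_022_b : CertB 0 536870912 1239849684 370763052 697932185 42949674 3 eng mog cd1q0 cd1q2b pd2 true true false .pp 0 2 2
    ndB1q0 ndB1q2b pcB2 cut_pm_022_b Ext.none :=
  certB2 (fam := true) (s1 := true) (s2 := false) (a := 0) (b := 2) (c := 2) (cn := .pp) (n1 := ndB1q0) (n2 := ndB1q2b) (pc := pcB2) (cut := cut_pm_022_b) (xt := Ext.none) (P1 := 0) (W1 := 536870912) (P2 := 1239849684) (W2 := 370763052) (P3 := 697932185) (W3 := 42949674) (N0 := 3) (En := eng) (mo := mog) (C1 := cd1q0) (C2 := cd1q2b) (C3 := pd2)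
    rfl (fun _ => rfl) k0_pm_022_b

noncomputable def f_pm_023_a : ℕ → ℕ → ℕ → ℕ → Bool := onCell 1610612736 536870912 0 536870912 697932185 42949674
    (rowB 3 eng mog cd1q0 cd1q2a pd3 2 true true false .up 0 2 3 (qsf 0 536870912 0 536870912 3) ndB1q0 ndB1q2a pcB3 Cut.none Ext.none)

def k0_pm_023_a : ∃ t, chk3 f_pm_023_a t 1 1 1 = true :=
  ⟨(a (b (a (a (b (a (b (l 16639016) (l 16618584)) (l 16640384)) (b (a (l 16600680) (l 16603968)) (a (l 16577368) (l 16569352)))) (b (a (l 16658544) (l 16691720)) (b (l 16641864) (l 16622248)))) (a (b (a (l 16718336) (l 16740200)) (a (b (l 16688816) (l 16670976)) (l 2))) (l 2))) (b (a (a (b (l 16520152) (a (l 16456312) (l 16486792))) (b (l 16591576) (a (l 16526384) (l 16574696)))) (l 2)) (a (a (b (l 16600136) (b (l 16403928) (l 16385032))) (b (l 16570200) (l 2))) (l 2)))) (l 2)), by decide +kernel⟩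

theorem c_pm_023_a : CertB 0 536870912 0 536870912 697932185 42949674 3 eng mog cd1q0 cd1q2a pd3 true true false .up 0 2 3
    ndB1q0 ndB1q2a pcB3 Cut.none Ext.none :=
  certB2 (fam := true) (s1 := true) (s2 := false) (a := 0) (b := 2) (c := 3) (cn := .up) (n1 := ndB1q0) (n2 := ndB1q2a) (pc := pcB3) (cut := Cut.none) (xt := Ext.none) (P1 := 0) (W1 := 536870912) (P2 := 0) (W2 := 536870912) (P3 := 697932185) (W3 := 42949674) (N0 := 3) (En := eng) (mo := mog) (C1 := cd1q0) (C2 := cd1q2a) (C3 := pd3)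
    rfl (fun _ => rfl) k0_pm_023_a

noncomputable def f_pm_023_b : ℕ → ℕ → ℕ → ℕ → Bool := onCell 1610612736 536870912 1239849684 370763052 697932185 42949674
    (rowB 3 eng mog cd1q0 cd1q2b pd3 2 true true false .up 0 2 3 (qsf 0 536870912 1239849684 370763052 3) ndB1q0 ndB1q2b pcB3 Cut.none Ext.none)

def k0_pm_023_b : ∃ t, chk3 f_pm_023_b t 1 1 1 = true :=
  ⟨(a (a (b (a (b (a (l 16670144) (l 16661024)) (a (l 16435976) (l 16480608))) (b (a (l 16639224) (l 16654512)) (l 16645720))) (a (b (l 16283944) (l 16103848)) (b (l 16403536) (l 16205344)))) (b (a (b (b (l 16745296) (l 16674368)) (l 16614192)) (b (b (l 410807119095) (l 16727328)) (l 16679904))) (a (b (l 16488984) (l 16331520)) (l 4)))) (a (b (l 4) (l 4)) (l 4))), by decide +kernel⟩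

theorem c_pm_023_b : CertB 0 536870912 1239849684 370763052 697932185 42949674 3 eng mog cd1q0 cd1q2b pd3 true true false .up 0 2 3
    ndB1q0 ndB1q2b pcB3 Cut.none Ext.none :=
  certB2 (fam := true) (s1 := true) (s2 := false) (a := 0) (b := 2) (c := 3) (cn := .up) (n1 := ndB1q0) (n2 := ndB1q2b) (pc := pcB3) (cut := Cut.none) (xt := Ext.none) (P1 := 0) (W1 := 536870912) (P2 := 1239849684) (W2 := 370763052) (P3 := 697932185) (W3 := 42949674) (N0 := 3) (En := eng) (mo := mog) (C1 := cd1q0) (C2 := cd1q2b) (C3 := pd3)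
    rfl (fun _ => rfl) k0_pm_023_b

noncomputable def f_pm_033 : ℕ → ℕ → ℕ → ℕ → Bool := onCell 0 536870912 1610612736 536870912 697932185 42949674
    (rowB 3 eng mog cd1q0 cd1q3 pd3 1 true true false .pnn 0 3 3 (qsf 0 536870912 1610612736 536870912 3) ndB1q0 ndB1q3 pcB3 Cut.none Ext.none)

def k0_pm_033 : ∃ t, chk3 f_pm_033 t 1 1 1 = true :=
  ⟨(b (b (a (b (a (l 16080352) (l 1)) (a (l 16052376) (l 16420376))) (l 1)) (a (b (a (l 16066944) (l 16436936)) (l 4)) (b (l 1) (a (l 4) (l 1))))) (l 4)), by decide +kernel⟩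

theorem c_pm_033 : CertB 0 536870912 1610612736 536870912 697932185 42949674 3 eng mog cd1q0 cd1q3 pd3 true true false .pnn 0 3 3
    ndB1q0 ndB1q3 pcB3 Cut.none Ext.none :=
  certB1 (fam := true) (s1 := true) (s2 := false) (a := 0) (b := 3) (c := 3) (cn := .pnn) (n1 := ndB1q0) (n2 := ndB1q3) (pc := pcB3) (cut := Cut.none) (xt := Ext.none) (P1 := 0) (W1 := 536870912) (P2 := 1610612736) (W2 := 536870912) (P3 := 697932185) (W3 := 42949674) (N0 := 3) (En := eng) (mo := mog) (C1 := cd1q0) (C2 := cd1q3) (C3 := pd3)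
    rfl (fun _ => rfl) k0_pm_033

noncomputable def f_pm_101 : ℕ → ℕ → ℕ → ℕ → Bool := onCell 536870912 536870912 0 536870912 697932185 42949674
    (rowB 3 eng mog cd1q1 cd1q0 pd1 2 true true false .npn 1 0 1 (qsf 536870912 536870912 0 536870912 1) ndB1q1 ndB1q0 pcB1 Cut.none Ext.none)

def k0_pm_101 : ∃ t, chk3 f_pm_101 t 1 1 1 = true :=
  ⟨(b (l 3) (l 3)), by decide +kernel⟩

theorem c_pm_101 : CertB 536870912 536870912 0 536870912 697932185 42949674 3 eng mog cd1q1 cd1q0 pd1 true true false .npn 1 0 1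
    ndB1q1 ndB1q0 pcB1 Cut.none Ext.none :=
  certB2 (fam := true) (s1 := true) (s2 := false) (a := 1) (b := 0) (c := 1) (cn := .npn) (n1 := ndB1q1) (n2 := ndB1q0) (pc := pcB1) (cut := Cut.none) (xt := Ext.none) (P1 := 536870912) (W1 := 536870912) (P2 := 0) (W2 := 536870912) (P3 := 697932185) (W3 := 42949674) (N0 := 3) (En := eng) (mo := mog) (C1 := cd1q1) (C2 := cd1q0) (C3 := pd1)
    rfl (fun _ => rfl) k0_pm_101

noncomputable def f_pm_102 : ℕ → ℕ → ℕ → ℕ → Bool := onCell 536870912 536870912 1073741824 536870912 697932185 42949674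
    (rowB 3 eng mog cd1q1 cd1q0 pd2 1 true true false .npp 1 0 2 (qsf 536870912 536870912 0 536870912 2) ndB1q1 ndB1q0 pcB2 Cut.none Ext.none)

def k0_pm_102 : ∃ t, chk3 f_pm_102 t 2 4 1 = true :=
  ⟨(l 3), by decide +kernel⟩

def k1_pm_102 : ∃ t, chk3 f_pm_102 t 3 8 1 = true :=
  ⟨(a (l 3) (b (l 3) (a (l 3) (a (l 3) (b (l 3) (b (l 3) (a (l 3) (b (a (l 3) (l 192904243079)) (a (l 16709032) (b (l 111836726567) (a (l 16701576) (l 16698488)))))))))))), by decide +kernel⟩

def k2_pm_102 : ∃ t, chk3 f_pm_102 t 3 9 1 = true :=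
  ⟨(b (a (l 3) (a (b (l 3) (a (l 3) (a (l 3) (b (l 3) (l 16714656))))) (b (a (b (l 3) (a (l 3) (l 16736632))) (a (a (b (l 16738792) (b (l 16709936) (l 16705344))) (b (b (l 16712248) (l 16708080)) (b (l 16703544) (l 16699456)))) (b (b (a (l 16704816) (l 16697288)) (a (l 16700440) (l 16694880))) (a (l 16695824) (l 16689232))))) (a (a (b (b (l 16717720) (l 16691184)) (b (l 16707232) (a (l 16683480) (l 16699288)))) (b (b (a (l 16709536) (l 16704808)) (l 16696912)) (b (l 16697072) (l 16692264)))) (a (b (b (a (l 16699992) (l 16695984)) (l 16693456)) (b (l 16688048) (l 16682224))) (b (a (l 16687464) (l 16679856)) (l 16673192))))))) (a (b (l 3) (a (l 3) (b (a (l 3) (b (l 137069672823) (l 16737040))) (a (b (l 3) (l 16718552)) (b (a (l 16713736) (l 16727544)) (a (l 16707928) (l 16700712))))))) (a (b (a (b (l 210621123575) (a (l 16720456) (a (l 16714944) (l 16710672)))) (b (a (l 16713968) (b (l 16675304) (l 16706512))) (a (b (l 16705928) (l 16700416)) (b (l 16695696)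 (l 16690336))))) (a (b (a (l 16697872) (b (l 16704152) (l 16698160))) (b (a (a (l 16701184) (l 16697576)) (l 16692080)) (l 16689696))) (b (a (l 16692152) (l 16681616)) (a (l 16680456) (l 16670288))))) (b (b (a (a (b (l 16696488) (l 16691280)) (l 16683712)) (a (l 16673096) (l 16661760))) (a (a (l 16661640) (l 16671976)) (l 16655280))) (a (b (a (l 16671056) (l 16660096)) (l 16654152)) (a (b (l 16649184) (l 16637840)) (b (l 16638128) (l 16626864)))))))), by decide +kernel⟩

def k3_pm_102 : ∃ t, chk3 f_pm_102 t 2 5 1 = true :=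
  ⟨(a (b (b (b (l 3) (l 2)) (l 2)) (l 2)) (b (b (b (l 3) (b (a (l 3) (b (a (l 3) (l 16722104)) (a (l 16724368) (b (l 16719432) (l 16717632))))) (b (a (b (l 16771904) (l 16770560)) (b (a (l 16721960) (l 16715840)) (a (l 16720328) (l 16713976)))) (a (b (b (l 16727640) (a (l 16729720) (l 16724144))) (b (b (b (l 16726552) (a (l 16729168) (l 16723488))) (l 16726120)) (l 16725640))) (b (a (b (l 16719112) (l 16718248)) (l 16712072)) (a (l 16717016) (l 16762680))))))) (a (a (l 16719184) (l 16712016)) (a (l 16704448) (l 16696160)))) (a (b (l 16699312) (l 2)) (b (l 16678680) (l 16661336))))), by decide +kernel⟩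

def k4_pm_102 : ∃ t, chk3 f_pm_102 t 3 40 1 = true :=
  ⟨(a (a (b (a (l 3) (a (l 3) (b (l 3) (l 16740016)))) (a (b (l 16723712) (l 16719712)) (b (a (l 16718976) (l 16714360)) (b (l 16755200) (l 16752984))))) (b (a (b (a (l 16716560) (l 16709456)) (a (b (l 16712664) (l 16710040)) (b (l 16705272) (l 16702552)))) (b (a (l 16723200) (l 16694912)) (b (l 16736336) (l 16691576)))) (a (b (a (l 16748280) (l 16719696)) (a (l 16722528) (l 16693528))) (b (l 16687432) (l 16681944))))) (a (a (b (a (l 16684480) (l 16676768)) (a (l 16672864) (l 16664936))) (b (a (l 16668696) (l 16659072)) (l 16652360))) (a (b (l 16643184) (a (l 16637896) (l 16627384))) (b (a (l 16627080) (l 16615416)) (a (l 16616496) (l 16604568)))))), by decide +kernel⟩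

def k5_pm_102 : ∃ t, chk3 f_pm_102 t 3 41 1 = true :=
  ⟨(a (b (a (b (a (b (l 16716736) (l 16714696)) (b (l 16750784) (l 16727608))) (a (b (l 16712728) (l 16710752)) (l 16703240))) (a (b (l 16692624) (l 16687648)) (b (l 16676480) (l 16671072)))) (b (a (a (l 16728616) (b (l 16699808) (l 16697520))) (a (b (l 16683888) (l 16681472)) (l 16665712))) (a (b (a (c (l 16708080) (l 16700872)) (a (l 16698160) (l 16713208))) (b (b (b (a (l 16703368) (l 16694048)) (a (c (l 16727848) (l 16699328)) (l 16714648))) (l 16740112)) (l 16739360))) (b (a (l 16679032) (l 16661672)) (a (c (l 16722200) (l 16714672)) (c (l 16683424) (l 16697264))))))) (b (a (a (l 16657544) (l 16662160)) (a (a (l 16585904) (b (l 16619912) (l 16614704))) (a (l 16606032) (l 16594592)))) (b (a (a (l 16649216) (a (l 16636960) (l 16629072))) (a (a (l 16620464) (l 16609752)) (l 16593472))) (a (b (a (l 16645128) (a (l 16633008) (l 16625152))) (b (b (b (a (l 16643608) (l 16627680)) (a (c (l 16646208) (l 16661336))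 (b (l 16627480) (l 16627384)))) (a (l 16642760) (l 16626896))) (a (l 16641720) (l 16625824)))) (a (b (l 16569664) (b (b (b (l 16610496) (a (l 16615448) (l 16605728))) (l 16610104)) (l 16609080))) (b (l 16590896) (b (b (b (l 16590416) (a (l 16595856) (l 16586280))) (l 16590704)) (l 16589736)))))))), by decide +kernel⟩

def k6_pm_102 : ∃ t, chk3 f_pm_102 t 3 21 1 = true :=
  ⟨(a (a (a (l 16707872) (l 16675800)) (a (l 16657256) (l 16637648))) (a (a (l 16682408) (l 16665584)) (a (b (l 16597224) (l 16575360)) (a (l 16573232) (l 16564160))))), by decide +kernel⟩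

def k7_pm_102 : ∃ t, chk3 f_pm_102 t 3 11 1 = true :=
  ⟨(b (a (a (a (l 16660968) (l 16646808)) (a (l 16624792) (l 16601520))) (a (a (l 16600896) (l 16581784)) (a (l 16543336) (a (l 16531528) (l 16524128))))) (a (a (a (l 16639480) (l 16622248)) (a (l 16596840) (l 16570080))) (a (a (l 16544992) (l 16544216)) (a (l 16504104) (l 16487680))))), by decide +kernel⟩

def k8_pm_102 : ∃ t, chk3 f_pm_102 t 1 3 1 = true :=
  ⟨(a (b (a (l 2) (a (l 2) (b (l 16685832) (l 2)))) (l 2)) (a (b (b (b (a (a (l 16622672) (l 16602520)) (a (l 16573504) (l 16543152))) (a (l 16600224) (l 16540680))) (a (l 16590544) (a (l 16543352) (l 16506288)))) (a (l 2) (b (a (l 2) (l 16501688)) (l 2)))) (b (a (b (a (b (l 16514536) (l 16491896)) (b (b (l 16497840) (l 16482504)) (l 16463488))) (a (l 16469840) (b (l 16443376) (l 16429200)))) (b (a (b (l 16469208) (l 16439464)) (b (l 16451160) (l 16418760))) (a (b (l 16415528) (l 16396992)) (b (l 16391784) (l 16369736))))) (a (b (a (b (l 16460888)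 (l 16462768)) (b (l 16421496) (l 16420848))) (a (l 2) (b (l 16426496) (l 2)))) (b (a (b (l 16384096) (l 16377400)) (b (l 16352184) (l 16339232))) (a (b (l 16376840) (l 16382624)) (b (l 16331088) (l 16327888)))))))), by decide +kernel⟩

theorem s9_pm_102 : ∃ t, chk3 f_pm_102 t 3 20 1 = true := ex3_b k4_pm_102 k5_pm_102

theorem s10_pm_102 : ∃ t, chk3 f_pm_102 t 3 10 1 = true := ex3_b s9_pm_102 k6_pm_102

theorem s11_pm_102 : ∃ t, chk3 f_pm_102 t 3 5 1 = true := ex3_b s10_pm_102 k7_pm_102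

theorem s12_pm_102 : ∃ t, chk3 f_pm_102 t 1 5 1 = true := ex3_a k3_pm_102 s11_pm_102

theorem s13_pm_102 : ∃ t, chk3 f_pm_102 t 3 4 1 = true := ex3_b k1_pm_102 k2_pm_102

theorem s14_pm_102 : ∃ t, chk3 f_pm_102 t 1 4 1 = true := ex3_a k0_pm_102 s13_pm_102

theorem s15_pm_102 : ∃ t, chk3 f_pm_102 t 1 2 1 = true := ex3_b s14_pm_102 s12_pm_102

theorem s16_pm_102 : ∃ t, chk3 f_pm_102 t 1 1 1 = true := ex3_b s15_pm_102 k8_pm_102

theorem c_pm_102 : CertB 536870912 536870912 0 536870912 697932185 42949674 3 eng mog cd1q1 cd1q0 pd2 true true false .npp 1 0 2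
    ndB1q1 ndB1q0 pcB2 Cut.none Ext.none :=
  certB1 (fam := true) (s1 := true) (s2 := false) (a := 1) (b := 0) (c := 2) (cn := .npp) (n1 := ndB1q1) (n2 := ndB1q0) (pc := pcB2) (cut := Cut.none) (xt := Ext.none) (P1 := 536870912) (W1 := 536870912) (P2 := 0) (W2 := 536870912) (P3 := 697932185) (W3 := 42949674) (N0 := 3) (En := eng) (mo := mog) (C1 := cd1q1) (C2 := cd1q0) (C3 := pd2)
    rfl (fun _ => rfl) s16_pm_102

noncomputable def f_pm_112 : ℕ → ℕ → ℕ → ℕ → Bool := onCell 536870912 536870912 1073741824 536870912 697932185 42949674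
    (rowB 3 eng mog cd1q1 cd1q1 pd2 1 true true false .dn 1 1 2 (qsf 536870912 536870912 536870912 536870912 2) ndB1q1 ndB1q1 pcB2 Cut.none Ext.none)

def k0_pm_112 : ∃ t, chk3 f_pm_112 t 2 1 1 = true :=
  ⟨(b (b (l 3) (a (b (b (b (l 3) (b (l 3) (b (a (b (l 3) (l 16746248)) (l 3)) (a (b (b (l 16724216) (a (l 16720056) (l 16725848))) (b (b (b (l 16723072) (a (l 16719416) (l 16725256))) (l 16722624)) (l 16722096))) (b (b (l 3) (l 16748184)) (a (l 16726808) (c (l 16727704) (l 16721760)))))))) (a (a (l 16706200) (l 16713296)) (l 16716336))) (a (b (l 16686552) (l 16661544)) (b (l 16697288) (l 16678144)))) (a (b (b (b (l 3) (b (l 3) (b (b (l 68753019639) (l 68216145719)) (b (a (b (l 16719912) (l 16719424)) (l 1)) (b (b (b (l 16714504) (a (l 16719000) (l 1))) (l 16714224)) (l 16713888)))))) (l 56941863399)) (b (l 16690832) (l 16675760))) (b (b (l 1) (l 177737631303)) (b (l 115997569767) (l 16654560)))))) (b (a (b (a (b (l 16635184) (l 16607480)) (l 16691072)) (a (a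 (l 16564384) (l 16574288)) (l 16608440))) (b (a (l 16655152) (l 16679560)) (a (l 16632064) (l 16624056)))) (a (b (a (b (a (l 16483792) (l 16522808)) (a (b (l 16456024) (l 16437920)) (l 16487776))) (b (l 16575464) (l 16549296))) (a (b (a (a (l 16417416) (l 16420968)) (a (l 16444224) (l 16466320))) (a (l 16364248) (b (l 16430128) (l 16410240)))) (b (a (l 16499432) (l 16543344)) (a (c (l 16491992) (l 16452352)) (l 16520576))))) (a (b (l 16613088) (b (l 16600312) (l 16589744))) (b (l 16624288) (l 16639648)))))), by decide +kernel⟩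

def k1_pm_112 : ∃ t, chk3 f_pm_112 t 3 1 1 = true :=
  ⟨(b (b (l 1) (b (l 1) (a (a (b (l 1) (l 156799722631)) (l 1)) (l 1)))) (a (b (a (b (b (l 85932764967) (l 16597016)) (l 16588512)) (b (b (l 1) (l 140693400471)) (l 86469496487))) (a (b (l 16593848) (l 16625632)) (b (a (l 16544928) (l 16504800)) (a (l 16575776) (l 16531160))))) (b (a (b (l 1) (a (l 128345239671) (l 1))) (l 1)) (a (b (a (l 46740827879) (b (l 16427800) (l 16426928))) (a (l 16485528) (b (l 16433032) (l 16448264)))) (b (b (l 1) (a (l 16387352) (l 1))) (a (b (l 16385632) (l 16391632)) (b (l 16344720) (l 16339352)))))))), by decide +kernel⟩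

theorem s2_pm_112 : ∃ t, chk3 f_pm_112 t 1 1 1 = true := ex3_a k0_pm_112 k1_pm_112

theorem c_pm_112 : CertB 536870912 536870912 536870912 536870912 697932185 42949674 3 eng mog cd1q1 cd1q1 pd2 true true false .dn 1 1 2
    ndB1q1 ndB1q1 pcB2 Cut.none Ext.none :=
  certB1 (fam := true) (s1 := true) (s2 := false) (a := 1) (b := 1) (c := 2) (cn := .dn) (n1 := ndB1q1) (n2 := ndB1q1) (pc := pcB2) (cut := Cut.none) (xt := Ext.none) (P1 := 536870912) (W1 := 536870912) (P2 := 536870912) (W2 := 536870912) (P3 := 697932185) (W3 := 42949674) (N0 := 3) (En := eng) (mo := mog) (C1 := cd1q1) (C2 := cd1q1) (C3 := pd2)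
    rfl (fun _ => rfl) s2_pm_112

noncomputable def f_pm_113 : ℕ → ℕ → ℕ → ℕ → Bool := onCell 536870912 536870912 536870912 536870912 697932185 42949674
    (rowB 3 eng mog cd1q1 cd1q1 pd3 0 true true false .nn 1 1 3 (qsf 536870912 536870912 536870912 536870912 3) ndB1q1 ndB1q1 pcB3 Cut.none Ext.none)

def k0_pm_113 : ∃ t, chk3 f_pm_113 t 2 1 1 = true :=
  ⟨(b (b (l 1) (a (l 1) (b (l 1) (l 90227781415)))) (a (b (b (l 1) (a (l 1) (l 100964968599))) (b (a (b (l 1) (l 83784956599)) (b (l 16475584) (l 16449696))) (a (b (l 16373160) (l 16347240)) (b (l 16430504) (l 16421144))))) (b (b (l 91838367575) (a (l 16577000) (l 16686192))) (b (a (a (l 16528408) (l 16595992)) (l 16743480)) (a (b (l 16565632) (a (l 16535928) (l 16643792))) (b (a (l 16731144) (l 16717232)) (a (b (l 16713704) (l 16701016)) (l 16636256)))))))), by decide +kernel⟩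

def k1_pm_113 : ∃ t, chk3 f_pm_113 t 3 1 1 = true :=
  ⟨(b (b (a (a (l 1) (b (l 1) (l 100964968599))) (a (b (a (l 1) (l 83784956599)) (a (l 16475584) (l 16449696))) (b (a (l 16373160) (l 16347240)) (a (l 16430504) (l 16421144))))) (a (a (l 91838367575) (b (l 16577000) (l 16686192))) (a (b (b (l 16528408) (l 16595992)) (l 16743480)) (b (a (l 16565632) (b (l 16535928) (l 16643792))) (a (b (l 16731144) (l 16717232)) (b (a (l 16713704) (l 16701016)) (l 16636256))))))) (a (b (b (l 16796176) (a (l 16866072) (l 17056376))) (a (b (l 16873264) (a (b (l 16778120) (l 16810200)) (b (l 16850008) (l 16844040)))) (b (l 16944424) (b (a (l 16884584) (l 16904216)) (a (l 16875336) (b (l 16892616) (l 16896360))))))) (b (a (b (l 16873264) (l 16944424)) (a (b (b (l 16778120) (l 16850008)) (b (l 16884584) (l 16904216))) (b (b (l 16810200) (l 16844040)) (b (l 16875336) (a (l 16892616) (l 16896360)))))) (a (b (l 16974928) (b (l 16909224) (a (l 17122608) (l 16876616)))) (b (a (l 16909224)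 (b (l 17101632) (l 16876616))) (a (b (l 16884360) (b (l 16858128) (l 16838896))) (b (a (l 16858128) (l 16838896)) (b (l 17052464) (a (l 16810784) (b (l 16799296) (a (l 16793352) (b (l 16788136) (a (l 16785120) (b (l 16782656) (b (l 16781072) (a (l 16780368) (a (l 16779160) (a (l 16778576) (l 16945792))))))))))))))))))), by decide +kernel⟩

theorem s2_pm_113 : ∃ t, chk3 f_pm_113 t 1 1 1 = true := ex3_a k0_pm_113 k1_pm_113

theorem c_pm_113 : CertB 536870912 536870912 536870912 536870912 697932185 42949674 3 eng mog cd1q1 cd1q1 pd3 true true false .nn 1 1 3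
    ndB1q1 ndB1q1 pcB3 Cut.none Ext.none :=
  certB0 (fam := true) (s1 := true) (s2 := false) (a := 1) (b := 1) (c := 3) (cn := .nn) (n1 := ndB1q1) (n2 := ndB1q1) (pc := pcB3) (cut := Cut.none) (xt := Ext.none) (P1 := 536870912) (W1 := 536870912) (P2 := 536870912) (W2 := 536870912) (P3 := 697932185) (W3 := 42949674) (N0 := 3) (En := eng) (mo := mog) (C1 := cd1q1) (C2 := cd1q1) (C3 := pd3)
    rfl s2_pm_113

noncomputable def f_pm_123_a : ℕ → ℕ → ℕ → ℕ → Bool := onCell 1610612736 536870912 0 536870912 697932185 42949674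
    (rowB 3 eng mog cd1q1 cd1q2a pd3 2 true true false .npn 1 2 3 (qsf 536870912 536870912 0 536870912 3) ndB1q1 ndB1q2a pcB3 Cut.none Ext.none)

def k0_pm_123_a : ∃ t, chk3 f_pm_123_a t 2 1 1 = true :=
  ⟨(a (b (a (l 1) (b (l 1) (b (l 1) (l 16652688)))) (b (a (l 1) (b (l 16614000) (b (l 16578816) (l 16554008)))) (a (b (l 16559248) (b (l 16418936) (l 16460680))) (a (b (l 16497864) (l 16463784)) (b (l 16552960) (l 16531376)))))) (a (b (b (a (l 16736512) (l 16751760)) (a (b (l 16706728) (l 16686712)) (b (l 16728880) (l 16715104)))) (a (b (a (l 16725680) (b (l 16663256) (l 16631720))) (a (b (l 16601952) (b (l 16593920) (l 16598040))) (b (b (l 16613136) (l 16609664)) (b (l 16613856) (l 16629200))))) (b (b (l 16700456) (a (l 16669080) (l 16713448))) (b (a (b (l 16663504) (l 16664248)) (b (b (l 16724320) (l 16729872)) (l 16735136))) (a (b (l 16672320) (l 16692840)) (b (l 16747376) (l 16763440))))))) (b (a (b (l 16767264) (b (l 16753784) (a (l 16739120) (l 16756088))))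 (b (l 16778696) (l 16780528))) (a (b (a (b (l 16732456) (a (l 16740392) (l 16731008))) (a (b (l 16737264) (l 16718968)) (l 16719048))) (a (b (a (b (a (l 16768328) (l 16762536)) (a (l 16783336) (l 16778992))) (b (l 16700784) (l 16760080))) (a (b (a (l 16799184) (l 16788880)) (a (l 16786424) (l 16778840))) (b (l 16759648) (l 16760896)))) (b (a (b (a (l 16720808) (l 16700608)) (c (l 16731720) (l 16692576))) (b (l 16704712) (l 16703112))) (a (b (a (l 16731160) (l 16713352)) (a (l 16743312) (l 16732360))) (l 16708280))))) (b (b (l 16786888) (l 16771976)) (b (b (l 16748136) (l 16703552)) (b (l 16738424) (a (l 16764144) (l 16793736))))))))), by decide +kernel⟩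

def k1_pm_123_a : ∃ t, chk3 f_pm_123_a t 3 1 1 = true :=
  ⟨(a (b (a (a (b (a (l 16768984) (l 63585728487)) (l 16808664)) (b (b (l 4) (l 16756328)) (l 16802248))) (b (a (b (l 4) (l 168812371431)) (l 4)) (a (b (l 16757824) (l 16785264)) (b (a (l 16724256) (l 16700120)) (l 16761240))))) (a (b (b (a (l 16844896) (l 16867424)) (a (l 16821024) (l 16854632))) (b (a (a (l 16770872) (l 16817640)) (b (l 16847064) (l 16849600))) (a (b (l 16814144) (l 16831304)) (b (l 16813784) (l 16807112))))) (b (a (b (l 16838064) (a (l 16866976) (l 16870384))) (b (l 16806360) (b (l 16851088) (a (l 16869304) (l 16858560))))) (b (a (l 16875096) (b (l 16874136) (l 16891480))) (a (b (l 16867656) (l 16904600)) (b (b (l 16908240) (l 16912296)) (l 16914856))))))) (b (b (l 4) (a (a (b (l 4) (a (l 16724640) (l 118346474215))) (l 4)) (l 4))) (b (a (a (b (l 16780216) (a (l 16841184) (l 16822992))) (b (a (l 16757712) (l 131768288103)) (a (l 16801768) (l 16783984)))) (a (b (l 4) (a (b (l 16755960)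 (l 16778400)) (b (l 4) (l 108146040103)))) (l 4))) (b (a (b (a (l 16855472) (l 16819608)) (a (l 16868320) (l 16832080))) (a (a (b (l 16794504) (l 16802944)) (b (l 16778544) (l 16788288))) (a (b (a (l 16763184) (l 4)) (a (l 16778008) (l 260617347143))) (l 4)))) (b (a (a (l 16867312) (l 16833952)) (a (a (l 16809888) (l 16792072)) (a (a (l 16779928) (l 16838224)) (a (a (l 16760824) (l 421141699271)) (l 4))))) (a (a (l 16869344) (l 16854120)) (a (a (l 16808856) (l 16794824)) (a (a (l 16786600) (a (l 16780296) (l 16775880))) (a (b (l 16854632) (a (l 16773960) (l 16770320))) (a (l 372823367767) (a (l 807151834807) (l 4)))))))))))), by decide +kernel⟩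

theorem s2_pm_123_a : ∃ t, chk3 f_pm_123_a t 1 1 1 = true := ex3_a k0_pm_123_a k1_pm_123_a

theorem c_pm_123_a : CertB 536870912 536870912 0 536870912 697932185 42949674 3 eng mog cd1q1 cd1q2a pd3 true true false .npn 1 2 3
    ndB1q1 ndB1q2a pcB3 Cut.none Ext.none :=
  certB2 (fam := true) (s1 := true) (s2 := false) (a := 1) (b := 2) (c := 3) (cn := .npn) (n1 := ndB1q1) (n2 := ndB1q2a) (pc := pcB3) (cut := Cut.none) (xt := Ext.none) (P1 := 536870912) (W1 := 536870912) (P2 := 0) (W2 := 536870912) (P3 := 697932185) (W3 := 42949674) (N0 := 3) (En := eng) (mo := mog) (C1 := cd1q1) (C2 := cd1q2a) (C3 := pd3)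
    rfl (fun _ => rfl) s2_pm_123_a

noncomputable def f_pm_123_b : ℕ → ℕ → ℕ → ℕ → Bool := onCell 1610612736 536870912 1239849684 370763052 697932185 42949674
    (rowB 3 eng mog cd1q1 cd1q2b pd3 2 true true false .npn 1 2 3 (qsf 536870912 536870912 1239849684 370763052 3) ndB1q1 ndB1q2b pcB3 Cut.none Ext.none)

def k0_pm_123_b : ∃ t, chk3 f_pm_123_b t 1 1 1 = true :=
  ⟨(b (a (a (l 1) (a (b (a (l 16731472) (l 16740424)) (l 1)) (b (a (l 16749944) (l 16760456)) (l 16714280)))) (a (l 4) (l 4))) (a (l 1) (l 4))), by decide +kernel⟩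

theorem c_pm_123_b : CertB 536870912 536870912 1239849684 370763052 697932185 42949674 3 eng mog cd1q1 cd1q2b pd3 true true false .npn 1 2 3
    ndB1q1 ndB1q2b pcB3 Cut.none Ext.none :=
  certB2 (fam := true) (s1 := true) (s2 := false) (a := 1) (b := 2) (c := 3) (cn := .npn) (n1 := ndB1q1) (n2 := ndB1q2b) (pc := pcB3) (cut := Cut.none) (xt := Ext.none) (P1 := 536870912) (W1 := 536870912) (P2 := 1239849684) (W2 := 370763052) (P3 := 697932185) (W3 := 42949674) (N0 := 3) (En := eng) (mo := mog) (C1 := cd1q1) (C2 := cd1q2b) (C3 := pd3)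
    rfl (fun _ => rfl) k0_pm_123_b

noncomputable def f_pm_133 : ℕ → ℕ → ℕ → ℕ → Bool := onCell 536870912 536870912 1610612736 536870912 697932185 42949674
    (rowB 3 eng mog cd1q1 cd1q3 pd3 0 true true false .dn 1 3 3 (qsf 536870912 536870912 1610612736 536870912 3) ndB1q1 ndB1q3 pcB3 Cut.none Ext.none)

def k0_pm_133 : ∃ t, chk3 f_pm_133 t 1 1 1 = true :=
  ⟨(l 4), by decide +kernel⟩

theorem c_pm_133 : CertB 536870912 536870912 1610612736 536870912 697932185 42949674 3 eng mog cd1q1 cd1q3 pd3 true true false .dn 1 3 3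
    ndB1q1 ndB1q3 pcB3 Cut.none Ext.none :=
  certB0 (fam := true) (s1 := true) (s2 := false) (a := 1) (b := 3) (c := 3) (cn := .dn) (n1 := ndB1q1) (n2 := ndB1q3) (pc := pcB3) (cut := Cut.none) (xt := Ext.none) (P1 := 536870912) (W1 := 536870912) (P2 := 1610612736) (W2 := 536870912) (P3 := 697932185) (W3 := 42949674) (N0 := 3) (En := eng) (mo := mog) (C1 := cd1q1) (C2 := cd1q3) (C3 := pd3)
    rfl k0_pm_133

noncomputable def cut_pm_202_a : Cut := Cut.of [[⟨0, 1, 0, 67108864⟩, ⟨1, 0, 0, 67108864⟩, ⟨2, 1, 0, 67108864⟩]]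

noncomputable def f_pm_202_a : ℕ → ℕ → ℕ → ℕ → Bool := onCell 0 536870912 1073741824 536870912 697932185 42949674
    (rowB 3 eng mog cd1q2a cd1q0 pd2 1 true true false .pp 2 0 2 (qsf 0 536870912 0 536870912 2) ndB1q2a ndB1q0 pcB2 cut_pm_202_a Ext.none)

def k0_pm_202_a : ∃ t, chk3 f_pm_202_a t 4 2 1 = true :=
  ⟨(b (l 1) (b (b (b (l 1) (a (b (l 1) (l 16450528)) (a (l 16452936) (a (l 16459048) (l 16463856))))) (b (a (b (l 16495744) (a (l 16474888) (a (l 16450664) (l 16452544)))) (c (b (l 16459072) (a (l 16431696) (b (l 16458920) (l 16457616)))) (a (l 16462128) (l 16469352)))) (c (a (a (l 16451640) (l 16453848)) (a (l 16457600) (l 16463008))) (a (l 16458848) (l 16468160))))) (b (a (b (c (l 16461728) (l 16459992)) (a (l 16463512) (l 16462416))) (a (b (l 16465800) (l 16464192)) (b (l 16471280) (l 16468616)))) (a (b (a (l 16464888) (l 16463048)) (a (l 16467352) (l 16464800))) (b (a (l 16463928) (c (l 16471072) (l 16462624))) (a (l 16464832) (l 16467432))))))),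 by decide +kernel⟩

def k1_pm_202_a : ∃ t, chk3 f_pm_202_a t 5 2 1 = true :=
  ⟨(b (b (l 1) (b (l 1) (a (l 1) (b (l 1) (a (l 1) (b (l 1) (l 16495376))))))) (b (b (a (a (b (l 16458760) (l 16430616)) (b (c (l 16480240) (l 16465864)) (l 16486360))) (b (a (a (b (l 16482512) (l 16489272)) (c (l 16499360) (l 16485736))) (c (l 16510768) (l 16518760))) (b (a (l 16499184) (l 16513336)) (b (a (l 16501360) (l 16516584)) (a (c (l 16525176) (l 16500288)) (l 16513384)))))) (a (c (b (b (l 16458936) (a (b (l 16466688) (l 16465256)) (l 16496024))) (a (l 16470528) (l 16479448))) (b (a (l 16477536) (l 16486728)) (l 16441968))) (b (a (b (l 16472928) (a (l 16486256) (l 16511632))) (c (l 16501232) (l 16510096))) (a (c (l 16488912) (l 16497128)) (l 16503480))))) (a (b (b (a (l 16479128) (l 16489376)) (a (c (l 16479008) (l 16470632)) (l 16442448))) (a (b (c (l 16476888) (l 16468144)) (l 16493600)) (b (c (l 16484808) (l 16475968)) (l 16480464)))) (b (a (b (l 16499672) (l 16495712))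 (b (l 16508304) (l 16508272))) (a (b (c (l 16495024) (l 16486480)) (l 16511864)) (b (l 16503832) (l 16502936))))))), by decide +kernel⟩

def k2_pm_202_a : ∃ t, chk3 f_pm_202_a t 2 3 1 = true :=
  ⟨(b (a (b (a (b (a (b (l 16472040) (l 16480712)) (b (l 16469136) (l 16477272))) (a (l 16494456) (b (l 16485856) (l 16494624)))) (b (a (b (l 16468968) (l 16476408)) (b (l 16471480) (l 16478016))) (a (b (l 16484248) (l 16492344)) (b (l 16484944) (l 16492184))))) (b (a (b (a (l 16508304) (l 16503480)) (a (l 16516960) (l 16511768))) (b (a (l 16500592) (l 16499640)) (a (l 16508336) (l 16506696)))) (a (a (b (l 16525008) (l 16534152)) (l 16523992)) (b (a (l 16515488) (l 16513272)) (l 16523440))))) (b (a (a (b (b (l 16476528) (l 16482000)) (b (l 16487920) (l 16494200))) (b (b (l 16483824) (l 16488072)) (b (l 16492824) (l 16497984)))) (b (a (b (l 16493016) (l 16495800)) (b (l 16503152) (l 16504048))) (a (a (l 16499528) (l 16502280)) (l 16506344)))) (a (a (b (b (l 16500752)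 (l 16507016)) (l 16538560)) (b (b (l 16503472) (l 16508800)) (l 16519040))) (b (a (b (l 16507104) (l 16511512)) (b (l 16509696) (l 16513256))) (a (l 16521208) (l 16521248)))))) (a (b (a (b (a (l 16551960) (l 16545752)) (l 16572608)) (b (l 16539288) (l 16560576))) (a (b (l 16596296) (l 16618144)) (b (l 16581480) (l 16600264)))) (b (a (b (l 16536144) (l 16553944)) (a (l 16626776) (l 16600336))) (a (l 16641600) (l 16541568))))), by decide +kernel⟩

def k3_pm_202_a : ∃ t, chk3 f_pm_202_a t 3 4 1 = true :=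
  ⟨(b (a (l 1) (b (a (l 1) (l 6)) (b (a (a (l 1) (l 6)) (l 6)) (b (a (a (l 1) (l 6)) (l 6)) (a (a (a (l 1) (a (l 16622504) (l 16632200))) (a (l 16645184) (a (l 16658216) (l 16667016)))) (a (a (l 16680320) (l 16692256)) (a (l 16683896) (a (l 16695072) (l 16695056))))))))) (a (a (b (l 1) (b (a (a (l 1) (l 8086135271)) (b (a (l 1) (l 16532968)) (a (l 16523408) (l 16537056)))) (b (a (a (l 16504240) (l 16515744)) (a (l 16528000) (l 16540840))) (a (l 16536408) (c (l 16543712) (l 16532304)))))) (b (a (b (l 1) (b (a (l 1) (l 16557896)) (a (l 16544352) (l 16560784)))) (b (b (l 1) (a (l 16573312) (l 16590880))) (a (b (l 101501769959) (l 16577496)) (b (l 16592216) (l 16593304))))) (a (b (a (b (l 16547888) (l 16551144)) (b (l 16563440) (l 16565808))) (b (a (l 16554104) (l 16567888)) (l 16542336))) (b (a (b (l 16579232) (l 16580688)) (l 16552520)) (b (l 16588568) (l 16588976)))))) (a (b (a (b (a (b (l 16608184) (l 16608792)) (b (l 16627224) (l 16626872))) (a (b (l 16609200)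 (l 16609368)) (l 16583984))) (b (a (b (l 16644144) (l 16642928)) (l 16638712)) (a (l 16640672) (l 16651200)))) (b (a (a (l 16609144) (l 16623848)) (l 16630112)) (a (l 16604600) (l 16611816)))) (b (b (a (a (l 16673952) (l 16676656)) (a (b (l 16683976) (l 16673744)) (a (l 16679632) (l 16700632)))) (a (a (l 16653696) (l 16656480)) (a (l 16658776) (b (l 16664576) (l 16654776))))) (a (b (a (l 16634344) (l 16637176)) (a (l 16616064) (l 16618784))) (a (b (l 16639536) (l 16641120)) (b (b (l 16645152) (l 16635088)) (b (l 16624360) (l 16613448))))))))), by decide +kernel⟩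

def k4_pm_202_a : ∃ t, chk3 f_pm_202_a t 3 5 1 = true :=
  ⟨(a (b (b (b (a (a (a (b (l 16515360) (l 16520376)) (l 16443720)) (b (l 16520944) (l 16545064))) (a (l 16544904) (l 16580688))) (b (a (a (l 16529368) (l 16547744)) (a (l 16560776) (l 16569064))) (b (a (l 16538888) (a (l 16555544) (l 16563864))) (a (a (l 16528832) (l 16542216)) (a (l 16553184) (b (l 16561728) (l 16560816))))))) (a (a (b (c (l 16516776) (l 16525016)) (l 16517408)) (b (l 16533552) (l 16529192))) (b (a (l 16544288) (c (l 16550864) (l 16555248))) (a (l 16538520) (l 16544952))))) (a (a (b (l 16521008) (l 16514560)) (b (l 16529680) (l 16525256))) (b (a (l 16535552) (l 16538352)) (a (l 16529672) (l 16528800))))) (b (b (a (b (a (l 16587680) (a (l 16592880) (l 16596544))) (b (a (l 16576008) (l 16582768)) (b (a (l 16570840) (l 16577168)) (a (b (l 16568816) (l 16568056)) (b (l 16574888) (l 16574008)))))) (b (a (a (l 16598520) (l 16599944)) (a (l 16599952) (b (l 16603024) (l 16593152)))) (b (a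 (l 16585648) (a (l 16585792) (l 16584064))) (b (a (l 16579464) (a (l 16579664) (l 16577984))) (a (b (l 16577120) (a (l 16575784) (l 16576656))) (b (a (l 16577416) (l 16575784)) (a (l 16576784) (a (l 16596776) (c (l 16598440) (l 16613968)))))))))) (a (a (b (c (l 16579160) (l 16560592)) (l 16548912)) (b (b (l 16568440) (l 16559760)) (l 16552032))) (b (a (a (l 16565736) (l 16566560)) (a (l 16608576) (b (l 16569560) (l 16581536)))) (a (l 16552896) (a (l 16552224) (l 16549960)))))) (a (a (b (l 16560016) (l 16525816)) (b (l 16539192) (l 16522264))) (a (b (a (l 16537592) (l 16536256)) (l 16578968)) (b (b (l 16559656) (l 16568112)) (a (l 16509600) (l 16502936))))))), by decide +kernel⟩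

def k5_pm_202_a : ∃ t, chk3 f_pm_202_a t 3 3 1 = true :=
  ⟨(b (a (b (a (a (b (l 16512256) (l 16511184)) (l 16569008)) (b (l 16521584) (l 16512800))) (b (a (a (b (l 16511736) (l 16514272)) (l 16513064)) (l 16505320)) (a (a (l 16519280) (l 16513904)) (l 16499608)))) (a (b (a (b (l 16512368) (l 16498960)) (b (l 16504984) (l 16488264))) (a (l 16545336) (b (l 16473928) (l 16461984)))) (b (a (b (l 16494624) (l 16474752)) (b (a (l 16485048) (l 16476672)) (a (l 16463048) (l 16453328)))) (b (a (l 16457816) (b (l 16443584) (l 16434784))) (a (l 16443576) (l 16422816)))))) (a (b (a (b (l 16520720) (l 16522968)) (b (l 16495024) (l 16490384))) (a (l 16524248) (l 16545552))) (b (a (a (l 16465704) (l 16446688)) (a (l 16509368) (b (l 16408704) (l 16396424)))) (a (a (l 16451016) (l 16429576)) (a (l 16406520) (l 16403032)))))), by decide +kernel⟩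

theorem s6_pm_202_a : ∃ t, chk3 f_pm_202_a t 3 2 1 = true := ex3_b k3_pm_202_a k4_pm_202_a

theorem s7_pm_202_a : ∃ t, chk3 f_pm_202_a t 3 1 1 = true := ex3_b s6_pm_202_a k5_pm_202_a

theorem s8_pm_202_a : ∃ t, chk3 f_pm_202_a t 2 2 1 = true := ex3_a k0_pm_202_a k1_pm_202_a

theorem s9_pm_202_a : ∃ t, chk3 f_pm_202_a t 2 1 1 = true := ex3_b s8_pm_202_a k2_pm_202_a

theorem s10_pm_202_a : ∃ t, chk3 f_pm_202_a t 1 1 1 = true := ex3_a s9_pm_202_a s7_pm_202_a

theorem c_pm_202_a : CertB 0 536870912 0 536870912 697932185 42949674 3 eng mog cd1q2a cd1q0 pd2 true true false .pp 2 0 2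
    ndB1q2a ndB1q0 pcB2 cut_pm_202_a Ext.none :=
  certB1 (fam := true) (s1 := true) (s2 := false) (a := 2) (b := 0) (c := 2) (cn := .pp) (n1 := ndB1q2a) (n2 := ndB1q0) (pc := pcB2) (cut := cut_pm_202_a) (xt := Ext.none) (P1 := 0) (W1 := 536870912) (P2 := 0) (W2 := 536870912) (P3 := 697932185) (W3 := 42949674) (N0 := 3) (En := eng) (mo := mog) (C1 := cd1q2a) (C2 := cd1q0) (C3 := pd2)
    rfl (fun _ => rfl) s10_pm_202_a

noncomputable def cut_pm_202_b : Cut := Cut.of [[⟨0, 1, 0, 67108864⟩, ⟨1, 0, 0, 67108864⟩, ⟨2, 1, 0, 67108864⟩]]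

noncomputable def f_pm_202_b : ℕ → ℕ → ℕ → ℕ → Bool := onCell 1239849684 370763052 1073741824 536870912 697932185 42949674
    (rowB 3 eng mog cd1q2b cd1q0 pd2 1 true true false .pp 2 0 2 (qsf 1239849684 370763052 0 536870912 2) ndB1q2b ndB1q0 pcB2 cut_pm_202_b Ext.none)

def k0_pm_202_b : ∃ t, chk3 f_pm_202_b t 1 1 1 = true :=
  ⟨(b (a (b (l 1) (b (a (a (b (b (l 1) (a (l 16414840) (l 1))) (b (a (b (l 16427192) (a (l 16437456) (l 16416520))) (l 1)) (a (a (l 16442800) (l 16421064)) (l 16375808)))) (l 1)) (l 1)) (a (b (a (b (a (l 16435784) (l 16376936)) (a (l 16436984) (l 16379488))) (b (l 16327712) (a (l 16320272) (l 1)))) (a (a (l 16477744) (l 16406616)) (a (l 16328472) (l 16269696)))) (b (l 1) (a (b (l 1) (l 16183928)) (l 1)))))) (l 1)) (a (b (b (a (b (a (a (l 16470328) (l 16397352)) (a (l 16342896) (l 16286856))) (a (a (l 16491736) (l 16436848)) (a (l 16361040) (l 16307104)))) (b (a (a (l 16229296) (l 16170408)) (l 1)) (a (l 16224440) (l 16109472)))) (a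 (b (a (b (l 16502832) (l 16492552)) (b (l 16352128) (l 16365112))) (a (l 16499992) (l 16385936))) (b (a (b (l 16244048) (l 16256864)) (b (l 16132904) (l 16148752))) (a (l 16278848) (l 16173408))))) (b (a (b (a (l 16573880) (l 16415656)) (a (l 16538600) (l 16447480))) (b (l 16368576) (l 16303624))) (a (b (l 16674288) (l 16664168)) (b (l 16346232) (l 16390624))))) (b (a (b (l 1) (b (a (l 16026784) (l 1)) (a (l 16065856) (l 15954920)))) (l 1)) (b (a (b (l 16057568) (l 16105720)) (b (l 1) (l 15907688))) (a (b (l 16156240) (l 16207992)) (b (l 15969624) (l 16029160))))))), by decide +kernel⟩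

theorem c_pm_202_b : CertB 1239849684 370763052 0 536870912 697932185 42949674 3 eng mog cd1q2b cd1q0 pd2 true true false .pp 2 0 2
    ndB1q2b ndB1q0 pcB2 cut_pm_202_b Ext.none :=
  certB1 (fam := true) (s1 := true) (s2 := false) (a := 2) (b := 0) (c := 2) (cn := .pp) (n1 := ndB1q2b) (n2 := ndB1q0) (pc := pcB2) (cut := cut_pm_202_b) (xt := Ext.none) (P1 := 1239849684) (W1 := 370763052) (P2 := 0) (W2 := 536870912) (P3 := 697932185) (W3 := 42949674) (N0 := 3) (En := eng) (mo := mog) (C1 := cd1q2b) (C2 := cd1q0) (C3 := pd2)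
    rfl (fun _ => rfl) k0_pm_202_b

noncomputable def f_pm_203_a : ℕ → ℕ → ℕ → ℕ → Bool := onCell 0 536870912 1610612736 536870912 697932185 42949674
    (rowB 3 eng mog cd1q2a cd1q0 pd3 1 true true false .up 2 0 3 (qsf 0 536870912 0 536870912 3) ndB1q2a ndB1q0 pcB3 Cut.none Ext.none)

def k0_pm_203_a : ∃ t, chk3 f_pm_203_a t 1 1 1 = true :=
  ⟨(b (a (b (b (a (a (l 16772624) (b (l 16618584) (l 16628208))) (a (b (l 16600680) (l 16603968)) (b (l 16577368) (l 16569352)))) (a (b (l 16658544) (l 16691720)) (a (l 16641864) (l 16622248)))) (b (a (b (l 16718336) (l 16740200)) (b (a (l 16688816) (l 16670976)) (l 2))) (l 2))) (a (b (b (a (l 16520152) (b (l 16456312) (l 16486792))) (a (l 16591576) (b (l 16526384) (l 16574696)))) (l 2)) (b (b (a (l 16621104) (a (l 16403928) (l 16385032))) (a (l 249745291511) (l 2))) (l 2)))) (l 2)), by decide +kernel⟩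

theorem c_pm_203_a : CertB 0 536870912 0 536870912 697932185 42949674 3 eng mog cd1q2a cd1q0 pd3 true true false .up 2 0 3
    ndB1q2a ndB1q0 pcB3 Cut.none Ext.none :=
  certB1 (fam := true) (s1 := true) (s2 := false) (a := 2) (b := 0) (c := 3) (cn := .up) (n1 := ndB1q2a) (n2 := ndB1q0) (pc := pcB3) (cut := Cut.none) (xt := Ext.none) (P1 := 0) (W1 := 536870912) (P2 := 0) (W2 := 536870912) (P3 := 697932185) (W3 := 42949674) (N0 := 3) (En := eng) (mo := mog) (C1 := cd1q2a) (C2 := cd1q0) (C3 := pd3)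
    rfl (fun _ => rfl) k0_pm_203_a

noncomputable def f_pm_203_b : ℕ → ℕ → ℕ → ℕ → Bool := onCell 1239849684 370763052 1610612736 536870912 697932185 42949674
    (rowB 3 eng mog cd1q2b cd1q0 pd3 1 true true false .up 2 0 3 (qsf 1239849684 370763052 0 536870912 3) ndB1q2b ndB1q0 pcB3 Cut.none Ext.none)

def k0_pm_203_b : ∃ t, chk3 f_pm_203_b t 1 1 1 = true :=
  ⟨(b (b (a (b (a (b (l 16670144) (l 16661024)) (b (l 16435976) (l 16480608))) (a (b (l 16639224) (l 16654512)) (l 16687664))) (b (a (l 16283944) (l 16103848)) (a (l 16424512) (l 16205344)))) (a (b (a (b (l 16669792) (l 16697624)) (l 16614192)) (a (a (l 410807119095) (l 16727328)) (l 16679904))) (b (a (l 16488984) (l 16331520)) (l 4)))) (b (a (l 4) (l 4)) (l 4))), by decide +kernel⟩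

theorem c_pm_203_b : CertB 1239849684 370763052 0 536870912 697932185 42949674 3 eng mog cd1q2b cd1q0 pd3 true true false .up 2 0 3
    ndB1q2b ndB1q0 pcB3 Cut.none Ext.none :=
  certB1 (fam := true) (s1 := true) (s2 := false) (a := 2) (b := 0) (c := 3) (cn := .up) (n1 := ndB1q2b) (n2 := ndB1q0) (pc := pcB3) (cut := Cut.none) (xt := Ext.none) (P1 := 1239849684) (W1 := 370763052) (P2 := 0) (W2 := 536870912) (P3 := 697932185) (W3 := 42949674) (N0 := 3) (En := eng) (mo := mog) (C1 := cd1q2b) (C2 := cd1q0) (C3 := pd3)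
    rfl (fun _ => rfl) k0_pm_203_b

noncomputable def f_pm_213_a : ℕ → ℕ → ℕ → ℕ → Bool := onCell 0 536870912 1610612736 536870912 697932185 42949674
    (rowB 3 eng mog cd1q2a cd1q1 pd3 1 true true false .pnn 2 1 3 (qsf 0 536870912 536870912 536870912 3) ndB1q2a ndB1q1 pcB3 Cut.none Ext.none)

def k0_pm_213_a : ∃ t, chk3 f_pm_213_a t 1 2 1 = true :=
  ⟨(b (a (b (l 1) (a (l 1) (a (l 1) (l 16652688)))) (a (b (l 1) (a (l 16614000) (a (l 16578816) (l 16554008)))) (b (a (l 16580224) (b (l 16440992) (l 16463512))) (a (a (l 16531752) (l 16513552)) (b (l 16484752) (l 16531376)))))) (b (a (a (b (l 16736512) (l 16751760)) (b (a (l 16706728) (l 16686712)) (a (l 16728880) (l 16715104)))) (b (a (b (l 16704712) (a (l 16663256) (l 16631720))) (b (a (l 16601952) (a (l 16593920) (l 16598040))) (a (a (l 16613136) (l 16609664)) (a (l 16613856) (l 16629200))))) (a (a (l 16700456) (b (l 16669080) (l 16713448))) (a (b (a (l 16663504) (l 16664248)) (a (a (l 16724320) (l 16729872))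 (l 16735136))) (b (a (l 16672320) (l 16692840)) (a (l 16747376) (l 16763440))))))) (a (b (a (l 16767264) (a (l 16753784) (b (l 16739120) (l 16756088)))) (a (l 16778696) (l 16780528))) (b (a (b (a (l 16732456) (b (l 16740392) (l 16731008))) (a (l 16742568) (b (l 16718968) (l 16727600)))) (b (a (b (a (b (l 16768328) (l 16762536)) (b (l 16783336) (l 16778992))) (a (l 16700784) (l 16760080))) (b (a (b (l 16799184) (l 16788880)) (b (l 16786424) (l 16778840))) (a (l 16759648) (l 16760896)))) (a (b (a (b (l 16720808) (l 16700608)) (c (l 16731720) (l 16692576))) (a (l 16704712) (l 16703112))) (b (a (b (l 16731160) (l 16713352)) (b (l 16743312) (l 16732360))) (l 16708280))))) (a (a (l 16786888) (l 16771976)) (a (a (l 16748136) (l 16703552)) (a (l 16738424) (b (l 16764144) (l 16793736))))))))), by decide +kernel⟩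

def k1_pm_213_a : ∃ t, chk3 f_pm_213_a t 1 3 1 = true :=
  ⟨(b (a (b (b (a (a (l 83986544951) (l 16781568)) (l 16808664)) (a (a (l 4) (l 16756328)) (l 16802248))) (a (b (a (l 4) (l 168812371431)) (l 4)) (a (b (l 16757824) (a (l 169885978567) (l 140358193607))) (b (l 16785264) (l 16761240))))) (b (a (a (b (l 16844896) (l 16867424)) (b (l 16821024) (l 16854632))) (a (b (b (l 16770872) (l 16817640)) (a (l 16847064) (l 16849600))) (b (a (l 16814144) (l 16831304)) (a (l 16813784) (l 16807112))))) (a (b (a (l 16838064) (b (l 16866976) (l 16870384))) (a (l 16806360) (a (l 16851088) (b (l 16869304) (l 16858560))))) (a (b (l 16875096) (a (l 16874136) (l 16891480))) (a (b (l 16867656) (a (l 16908240) (l 16912296))) (b (l 16904600) (l 16914856))))))) (b (a (a (l 4) (b (a (l 4) (b (l 16766584) (l 16756776))) (l 4))) (a (b (a (l 16780216) (a (l 16821040) (l 16844496))) (a (b (l 16757712) (l 16762904)) (b (l 16801768) (l 16783984)))) (a (a (b (l 16855472) (l 16819608))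 (b (l 16868320) (l 16832080))) (a (b (l 16867312) (l 16833952)) (b (l 16869344) (l 16958976)))))) (a (l 4) (a (b (a (l 4) (b (a (l 16755960) (l 16778400)) (a (l 4) (l 108146040103)))) (l 4)) (a (b (b (a (l 16794504) (l 16802944)) (a (l 16778544) (l 16788288))) (b (a (b (l 16763184) (l 4)) (b (l 16778008) (l 260080476231))) (l 4))) (b (a (b (l 16809888) (l 16792072)) (b (l 16808856) (l 16794824))) (b (b (a (l 16779928) (l 16786600)) (a (l 16859200) (b (l 16780296) (l 16775880)))) (b (a (b (l 16760824) (l 385708219079)) (a (l 84523763799) (b (l 16773960) (l 16770320)))) (b (a (l 4) (l 461943939159)) (b (l 823794855975) (l 4))))))))))), by decide +kernel⟩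

theorem s2_pm_213_a : ∃ t, chk3 f_pm_213_a t 1 1 1 = true := ex3_b k0_pm_213_a k1_pm_213_a

theorem c_pm_213_a : CertB 0 536870912 536870912 536870912 697932185 42949674 3 eng mog cd1q2a cd1q1 pd3 true true false .pnn 2 1 3
    ndB1q2a ndB1q1 pcB3 Cut.none Ext.none :=
  certB1 (fam := true) (s1 := true) (s2 := false) (a := 2) (b := 1) (c := 3) (cn := .pnn) (n1 := ndB1q2a) (n2 := ndB1q1) (pc := pcB3) (cut := Cut.none) (xt := Ext.none) (P1 := 0) (W1 := 536870912) (P2 := 536870912) (W2 := 536870912) (P3 := 697932185) (W3 := 42949674) (N0 := 3) (En := eng) (mo := mog) (C1 := cd1q2a) (C2 := cd1q1) (C3 := pd3)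
    rfl (fun _ => rfl) s2_pm_213_a

noncomputable def f_pm_213_b : ℕ → ℕ → ℕ → ℕ → Bool := onCell 1239849684 370763052 1610612736 536870912 697932185 42949674
    (rowB 3 eng mog cd1q2b cd1q1 pd3 1 true true false .pnn 2 1 3 (qsf 1239849684 370763052 536870912 536870912 3) ndB1q2b ndB1q1 pcB3 Cut.none Ext.none)

def k0_pm_213_b : ∃ t, chk3 f_pm_213_b t 1 1 1 = true :=
  ⟨(a (b (b (l 1) (b (a (b (l 16731472) (l 16740424)) (l 1)) (a (b (l 16749944) (l 16760456)) (l 16714280)))) (b (l 4) (l 4))) (b (l 1) (l 4))), by decide +kernel⟩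

theorem c_pm_213_b : CertB 1239849684 370763052 536870912 536870912 697932185 42949674 3 eng mog cd1q2b cd1q1 pd3 true true false .pnn 2 1 3
    ndB1q2b ndB1q1 pcB3 Cut.none Ext.none :=
  certB1 (fam := true) (s1 := true) (s2 := false) (a := 2) (b := 1) (c := 3) (cn := .pnn) (n1 := ndB1q2b) (n2 := ndB1q1) (pc := pcB3) (cut := Cut.none) (xt := Ext.none) (P1 := 1239849684) (W1 := 370763052) (P2 := 536870912) (W2 := 536870912) (P3 := 697932185) (W3 := 42949674) (N0 := 3) (En := eng) (mo := mog) (C1 := cd1q2b) (C2 := cd1q1) (C3 := pd3)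
    rfl (fun _ => rfl) k0_pm_213_b

noncomputable def f_pm_303 : ℕ → ℕ → ℕ → ℕ → Bool := onCell 1610612736 536870912 0 536870912 697932185 42949674
    (rowB 3 eng mog cd1q3 cd1q0 pd3 2 true true false .npn 3 0 3 (qsf 1610612736 536870912 0 536870912 3) ndB1q3 ndB1q0 pcB3 Cut.none Ext.none)

def k0_pm_303 : ∃ t, chk3 f_pm_303 t 1 1 1 = true :=
  ⟨(a (a (b (a (b (l 16080352) (l 1)) (b (l 16052376) (l 16462320))) (l 1)) (b (a (b (l 16066944) (l 16520816)) (l 4)) (a (l 1) (b (l 4) (l 1))))) (l 4)), by decide +kernel⟩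

theorem c_pm_303 : CertB 1610612736 536870912 0 536870912 697932185 42949674 3 eng mog cd1q3 cd1q0 pd3 true true false .npn 3 0 3
    ndB1q3 ndB1q0 pcB3 Cut.none Ext.none :=
  certB2 (fam := true) (s1 := true) (s2 := false) (a := 3) (b := 0) (c := 3) (cn := .npn) (n1 := ndB1q3) (n2 := ndB1q0) (pc := pcB3) (cut := Cut.none) (xt := Ext.none) (P1 := 1610612736) (W1 := 536870912) (P2 := 0) (W2 := 536870912) (P3 := 697932185) (W3 := 42949674) (N0 := 3) (En := eng) (mo := mog) (C1 := cd1q3) (C2 := cd1q0) (C3 := pd3)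
    rfl (fun _ => rfl) k0_pm_303

noncomputable def f_pm_313 : ℕ → ℕ → ℕ → ℕ → Bool := onCell 1610612736 536870912 536870912 536870912 697932185 42949674
    (rowB 3 eng mog cd1q3 cd1q1 pd3 0 true true false .dn 3 1 3 (qsf 1610612736 536870912 536870912 536870912 3) ndB1q3 ndB1q1 pcB3 Cut.none Ext.none)

def k0_pm_313 : ∃ t, chk3 f_pm_313 t 1 1 1 = true :=
  ⟨(l 4), by decide +kernel⟩

theorem c_pm_313 : CertB 1610612736 536870912 536870912 536870912 697932185 42949674 3 eng mog cd1q3 cd1q1 pd3 true true false .dn 3 1 3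
    ndB1q3 ndB1q1 pcB3 Cut.none Ext.none :=
  certB0 (fam := true) (s1 := true) (s2 := false) (a := 3) (b := 1) (c := 3) (cn := .dn) (n1 := ndB1q3) (n2 := ndB1q1) (pc := pcB3) (cut := Cut.none) (xt := Ext.none) (P1 := 1610612736) (W1 := 536870912) (P2 := 536870912) (W2 := 536870912) (P3 := 697932185) (W3 := 42949674) (N0 := 3) (En := eng) (mo := mog) (C1 := cd1q3) (C2 := cd1q1) (C3 := pd3)
    rfl k0_pm_313

noncomputable def f_mm_001 : ℕ → ℕ → ℕ → ℕ → Bool := onCell 0 536870912 0 536870912 697932185 42949674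
    (rowB 3 eng mog cd1q0 cd1q0 pd1 0 true false false .up 0 0 1 (qsf 0 536870912 0 536870912 1) ndB1q0 ndB1q0 pcB1 Cut.none Ext.none)

def k0_mm_001 : ∃ t, chk3 f_mm_001 t 1 1 1 = true :=
  ⟨(l 4), by decide +kernel⟩

theorem c_mm_001 : CertB 0 536870912 0 536870912 697932185 42949674 3 eng mog cd1q0 cd1q0 pd1 true false false .up 0 0 1
    ndB1q0 ndB1q0 pcB1 Cut.none Ext.none :=
  certB0 (fam := true) (s1 := false) (s2 := false) (a := 0) (b := 0) (c := 1) (cn := .up) (n1 := ndB1q0) (n2 := ndB1q0) (pc := pcB1) (cut := Cut.none) (xt := Ext.none) (P1 := 0) (W1 := 536870912) (P2 := 0) (W2 := 536870912) (P3 := 697932185) (W3 := 42949674) (N0 := 3) (En := eng) (mo := mog) (C1 := cd1q0) (C2 := cd1q0) (C3 := pd1)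
    rfl k0_mm_001

noncomputable def f_mm_011 : ℕ → ℕ → ℕ → ℕ → Bool := onCell 0 536870912 536870912 536870912 697932185 42949674
    (rowB 3 eng mog cd1q0 cd1q1 pd1 0 true false false .pnn 0 1 1 (qsf 0 536870912 536870912 536870912 1) ndB1q0 ndB1q1 pcB1 Cut.none Ext.none)

def k0_mm_011 : ∃ t, chk3 f_mm_011 t 1 1 1 = true :=
  ⟨(l 4), by decide +kernel⟩

theorem c_mm_011 : CertB 0 536870912 536870912 536870912 697932185 42949674 3 eng mog cd1q0 cd1q1 pd1 true false false .pnn 0 1 1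
    ndB1q0 ndB1q1 pcB1 Cut.none Ext.none :=
  certB0 (fam := true) (s1 := false) (s2 := false) (a := 0) (b := 1) (c := 1) (cn := .pnn) (n1 := ndB1q0) (n2 := ndB1q1) (pc := pcB1) (cut := Cut.none) (xt := Ext.none) (P1 := 0) (W1 := 536870912) (P2 := 536870912) (W2 := 536870912) (P3 := 697932185) (W3 := 42949674) (N0 := 3) (En := eng) (mo := mog) (C1 := cd1q0) (C2 := cd1q1) (C3 := pd1)
    rfl k0_mm_011

noncomputable def f_mm_012 : ℕ → ℕ → ℕ → ℕ → Bool := onCell 0 536870912 536870912 536870912 697932185 42949674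
    (rowB 3 eng mog cd1q0 cd1q1 pd2 0 true false false .pnp 0 1 2 (qsf 0 536870912 536870912 536870912 2) ndB1q0 ndB1q1 pcB2 Cut.none Ext.none)

def k0_mm_012 : ∃ t, chk3 f_mm_012 t 1 1 1 = true :=
  ⟨(l 4), by decide +kernel⟩

theorem c_mm_012 : CertB 0 536870912 536870912 536870912 697932185 42949674 3 eng mog cd1q0 cd1q1 pd2 true false false .pnp 0 1 2
    ndB1q0 ndB1q1 pcB2 Cut.none Ext.none :=
  certB0 (fam := true) (s1 := false) (s2 := false) (a := 0) (b := 1) (c := 2) (cn := .pnp) (n1 := ndB1q0) (n2 := ndB1q1) (pc := pcB2) (cut := Cut.none) (xt := Ext.none) (P1 := 0) (W1 := 536870912) (P2 := 536870912) (W2 := 536870912) (P3 := 697932185) (W3 := 42949674) (N0 := 3) (En := eng) (mo := mog) (C1 := cd1q0) (C2 := cd1q1) (C3 := pd2)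
    rfl k0_mm_012

noncomputable def f_mm_022_a : ℕ → ℕ → ℕ → ℕ → Bool := onCell 0 536870912 0 536870912 697932185 42949674
    (rowB 3 eng mog cd1q0 cd1q2a pd2 0 true false false .pp 0 2 2 (qsf 0 536870912 0 536870912 2) ndB1q0 ndB1q2a pcB2 Cut.none Ext.none)

def k0_mm_022_a : ∃ t, chk3 f_mm_022_a t 1 1 1 = true :=
  ⟨(l 5), by decide +kernel⟩

theorem c_mm_022_a : CertB 0 536870912 0 536870912 697932185 42949674 3 eng mog cd1q0 cd1q2a pd2 true false false .pp 0 2 2
    ndB1q0 ndB1q2a pcB2 Cut.none Ext.none :=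
  certB0 (fam := true) (s1 := false) (s2 := false) (a := 0) (b := 2) (c := 2) (cn := .pp) (n1 := ndB1q0) (n2 := ndB1q2a) (pc := pcB2) (cut := Cut.none) (xt := Ext.none) (P1 := 0) (W1 := 536870912) (P2 := 0) (W2 := 536870912) (P3 := 697932185) (W3 := 42949674) (N0 := 3) (En := eng) (mo := mog) (C1 := cd1q0) (C2 := cd1q2a) (C3 := pd2)
    rfl k0_mm_022_a

noncomputable def f_mm_022_b : ℕ → ℕ → ℕ → ℕ → Bool := onCell 0 536870912 1239849684 370763052 697932185 42949674
    (rowB 3 eng mog cd1q0 cd1q2b pd2 0 true false false .pp 0 2 2 (qsf 0 536870912 1239849684 370763052 2) ndB1q0 ndB1q2b pcB2 Cut.none Ext.none)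

def k0_mm_022_b : ∃ t, chk3 f_mm_022_b t 1 1 1 = true :=
  ⟨(l 5), by decide +kernel⟩

theorem c_mm_022_b : CertB 0 536870912 1239849684 370763052 697932185 42949674 3 eng mog cd1q0 cd1q2b pd2 true false false .pp 0 2 2
    ndB1q0 ndB1q2b pcB2 Cut.none Ext.none :=
  certB0 (fam := true) (s1 := false) (s2 := false) (a := 0) (b := 2) (c := 2) (cn := .pp) (n1 := ndB1q0) (n2 := ndB1q2b) (pc := pcB2) (cut := Cut.none) (xt := Ext.none) (P1 := 0) (W1 := 536870912) (P2 := 1239849684) (W2 := 370763052) (P3 := 697932185) (W3 := 42949674) (N0 := 3) (En := eng) (mo := mog) (C1 := cd1q0) (C2 := cd1q2b) (C3 := pd2)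
    rfl k0_mm_022_b

noncomputable def f_mm_023_a : ℕ → ℕ → ℕ → ℕ → Bool := onCell 0 536870912 0 536870912 697932185 42949674
    (rowB 3 eng mog cd1q0 cd1q2a pd3 0 true false false .up 0 2 3 (qsf 0 536870912 0 536870912 3) ndB1q0 ndB1q2a pcB3 Cut.none Ext.none)

def k0_mm_023_a : ∃ t, chk3 f_mm_023_a t 1 1 1 = true :=
  ⟨(l 5), by decide +kernel⟩

theorem c_mm_023_a : CertB 0 536870912 0 536870912 697932185 42949674 3 eng mog cd1q0 cd1q2a pd3 true false false .up 0 2 3
    ndB1q0 ndB1q2a pcB3 Cut.none Ext.none :=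
  certB0 (fam := true) (s1 := false) (s2 := false) (a := 0) (b := 2) (c := 3) (cn := .up) (n1 := ndB1q0) (n2 := ndB1q2a) (pc := pcB3) (cut := Cut.none) (xt := Ext.none) (P1 := 0) (W1 := 536870912) (P2 := 0) (W2 := 536870912) (P3 := 697932185) (W3 := 42949674) (N0 := 3) (En := eng) (mo := mog) (C1 := cd1q0) (C2 := cd1q2a) (C3 := pd3)
    rfl k0_mm_023_a

noncomputable def f_mm_023_b : ℕ → ℕ → ℕ → ℕ → Bool := onCell 0 536870912 1239849684 370763052 697932185 42949674
    (rowB 3 eng mog cd1q0 cd1q2b pd3 0 true false false .up 0 2 3 (qsf 0 536870912 1239849684 370763052 3) ndB1q0 ndB1q2b pcB3 Cut.none Ext.none)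

def k0_mm_023_b : ∃ t, chk3 f_mm_023_b t 1 1 1 = true :=
  ⟨(l 5), by decide +kernel⟩

theorem c_mm_023_b : CertB 0 536870912 1239849684 370763052 697932185 42949674 3 eng mog cd1q0 cd1q2b pd3 true false false .up 0 2 3
    ndB1q0 ndB1q2b pcB3 Cut.none Ext.none :=
  certB0 (fam := true) (s1 := false) (s2 := false) (a := 0) (b := 2) (c := 3) (cn := .up) (n1 := ndB1q0) (n2 := ndB1q2b) (pc := pcB3) (cut := Cut.none) (xt := Ext.none) (P1 := 0) (W1 := 536870912) (P2 := 1239849684) (W2 := 370763052) (P3 := 697932185) (W3 := 42949674) (N0 := 3) (En := eng) (mo := mog) (C1 := cd1q0) (C2 := cd1q2b) (C3 := pd3)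
    rfl k0_mm_023_b

noncomputable def f_mm_033 : ℕ → ℕ → ℕ → ℕ → Bool := onCell 0 536870912 1610612736 536870912 697932185 42949674
    (rowB 3 eng mog cd1q0 cd1q3 pd3 0 true false false .pnn 0 3 3 (qsf 0 536870912 1610612736 536870912 3) ndB1q0 ndB1q3 pcB3 Cut.none Ext.none)

def k0_mm_033 : ∃ t, chk3 f_mm_033 t 1 1 1 = true :=
  ⟨(l 5), by decide +kernel⟩

theorem c_mm_033 : CertB 0 536870912 1610612736 536870912 697932185 42949674 3 eng mog cd1q0 cd1q3 pd3 true false false .pnn 0 3 3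
    ndB1q0 ndB1q3 pcB3 Cut.none Ext.none :=
  certB0 (fam := true) (s1 := false) (s2 := false) (a := 0) (b := 3) (c := 3) (cn := .pnn) (n1 := ndB1q0) (n2 := ndB1q3) (pc := pcB3) (cut := Cut.none) (xt := Ext.none) (P1 := 0) (W1 := 536870912) (P2 := 1610612736) (W2 := 536870912) (P3 := 697932185) (W3 := 42949674) (N0 := 3) (En := eng) (mo := mog) (C1 := cd1q0) (C2 := cd1q3) (C3 := pd3)
    rfl k0_mm_033

noncomputable def f_mm_101 : ℕ → ℕ → ℕ → ℕ → Bool := onCell 536870912 536870912 0 536870912 697932185 42949674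
    (rowB 3 eng mog cd1q1 cd1q0 pd1 0 true false false .npn 1 0 1 (qsf 536870912 536870912 0 536870912 1) ndB1q1 ndB1q0 pcB1 Cut.none Ext.none)

def k0_mm_101 : ∃ t, chk3 f_mm_101 t 1 1 1 = true :=
  ⟨(l 4), by decide +kernel⟩

theorem c_mm_101 : CertB 536870912 536870912 0 536870912 697932185 42949674 3 eng mog cd1q1 cd1q0 pd1 true false false .npn 1 0 1
    ndB1q1 ndB1q0 pcB1 Cut.none Ext.none :=
  certB0 (fam := true) (s1 := false) (s2 := false) (a := 1) (b := 0) (c := 1) (cn := .npn) (n1 := ndB1q1) (n2 := ndB1q0) (pc := pcB1) (cut := Cut.none) (xt := Ext.none) (P1 := 536870912) (W1 := 536870912) (P2 := 0) (W2 := 536870912) (P3 := 697932185) (W3 := 42949674) (N0 := 3) (En := eng) (mo := mog) (C1 := cd1q1) (C2 := cd1q0) (C3 := pd1)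
    rfl k0_mm_101

noncomputable def f_mm_102 : ℕ → ℕ → ℕ → ℕ → Bool := onCell 536870912 536870912 0 536870912 697932185 42949674
    (rowB 3 eng mog cd1q1 cd1q0 pd2 0 true false false .npp 1 0 2 (qsf 536870912 536870912 0 536870912 2) ndB1q1 ndB1q0 pcB2 Cut.none Ext.none)

def k0_mm_102 : ∃ t, chk3 f_mm_102 t 1 1 1 = true :=
  ⟨(l 4), by decide +kernel⟩

theorem c_mm_102 : CertB 536870912 536870912 0 536870912 697932185 42949674 3 eng mog cd1q1 cd1q0 pd2 true false false .npp 1 0 2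
    ndB1q1 ndB1q0 pcB2 Cut.none Ext.none :=
  certB0 (fam := true) (s1 := false) (s2 := false) (a := 1) (b := 0) (c := 2) (cn := .npp) (n1 := ndB1q1) (n2 := ndB1q0) (pc := pcB2) (cut := Cut.none) (xt := Ext.none) (P1 := 536870912) (W1 := 536870912) (P2 := 0) (W2 := 536870912) (P3 := 697932185) (W3 := 42949674) (N0 := 3) (En := eng) (mo := mog) (C1 := cd1q1) (C2 := cd1q0) (C3 := pd2)
    rfl k0_mm_102

noncomputable def f_mm_112 : ℕ → ℕ → ℕ → ℕ → Bool := onCell 536870912 536870912 536870912 536870912 697932185 42949674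
    (rowB 3 eng mog cd1q1 cd1q1 pd2 0 true false false .dn 1 1 2 (qsf 536870912 536870912 536870912 536870912 2) ndB1q1 ndB1q1 pcB2 Cut.none Ext.none)

def k0_mm_112 : ∃ t, chk3 f_mm_112 t 1 1 1 = true :=
  ⟨(l 4), by decide +kernel⟩

theorem c_mm_112 : CertB 536870912 536870912 536870912 536870912 697932185 42949674 3 eng mog cd1q1 cd1q1 pd2 true false false .dn 1 1 2
    ndB1q1 ndB1q1 pcB2 Cut.none Ext.none :=
  certB0 (fam := true) (s1 := false) (s2 := false) (a := 1) (b := 1) (c := 2) (cn := .dn) (n1 := ndB1q1) (n2 := ndB1q1) (pc := pcB2) (cut := Cut.none) (xt := Ext.none) (P1 := 536870912) (W1 := 536870912) (P2 := 536870912) (W2 := 536870912) (P3 := 697932185) (W3 := 42949674) (N0 := 3) (En := eng) (mo := mog) (C1 := cd1q1) (C2 := cd1q1) (C3 := pd2)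
    rfl k0_mm_112

noncomputable def f_mm_113 : ℕ → ℕ → ℕ → ℕ → Bool := onCell 536870912 536870912 536870912 536870912 697932185 42949674
    (rowB 3 eng mog cd1q1 cd1q1 pd3 0 true false false .nn 1 1 3 (qsf 536870912 536870912 536870912 536870912 3) ndB1q1 ndB1q1 pcB3 Cut.none Ext.none)

def k0_mm_113 : ∃ t, chk3 f_mm_113 t 1 1 1 = true :=
  ⟨(l 4), by decide +kernel⟩

theorem c_mm_113 : CertB 536870912 536870912 536870912 536870912 697932185 42949674 3 eng mog cd1q1 cd1q1 pd3 true false false .nn 1 1 3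
    ndB1q1 ndB1q1 pcB3 Cut.none Ext.none :=
  certB0 (fam := true) (s1 := false) (s2 := false) (a := 1) (b := 1) (c := 3) (cn := .nn) (n1 := ndB1q1) (n2 := ndB1q1) (pc := pcB3) (cut := Cut.none) (xt := Ext.none) (P1 := 536870912) (W1 := 536870912) (P2 := 536870912) (W2 := 536870912) (P3 := 697932185) (W3 := 42949674) (N0 := 3) (En := eng) (mo := mog) (C1 := cd1q1) (C2 := cd1q1) (C3 := pd3)
    rfl k0_mm_113

noncomputable def f_mm_123_a : ℕ → ℕ → ℕ → ℕ → Bool := onCell 536870912 536870912 0 536870912 697932185 42949674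
    (rowB 3 eng mog cd1q1 cd1q2a pd3 0 true false false .npn 1 2 3 (qsf 536870912 536870912 0 536870912 3) ndB1q1 ndB1q2a pcB3 Cut.none Ext.none)

def k0_mm_123_a : ∃ t, chk3 f_mm_123_a t 1 1 1 = true :=
  ⟨(l 5), by decide +kernel⟩

theorem c_mm_123_a : CertB 536870912 536870912 0 536870912 697932185 42949674 3 eng mog cd1q1 cd1q2a pd3 true false false .npn 1 2 3
    ndB1q1 ndB1q2a pcB3 Cut.none Ext.none :=
  certB0 (fam := true) (s1 := false) (s2 := false) (a := 1) (b := 2) (c := 3) (cn := .npn) (n1 := ndB1q1) (n2 := ndB1q2a) (pc := pcB3) (cut := Cut.none) (xt := Ext.none) (P1 := 536870912) (W1 := 536870912) (P2 := 0) (W2 := 536870912) (P3 := 697932185) (W3 := 42949674) (N0 := 3) (En := eng) (mo := mog) (C1 := cd1q1) (C2 := cd1q2a) (C3 := pd3)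
    rfl k0_mm_123_a

noncomputable def f_mm_123_b : ℕ → ℕ → ℕ → ℕ → Bool := onCell 536870912 536870912 1239849684 370763052 697932185 42949674
    (rowB 3 eng mog cd1q1 cd1q2b pd3 0 true false false .npn 1 2 3 (qsf 536870912 536870912 1239849684 370763052 3) ndB1q1 ndB1q2b pcB3 Cut.none Ext.none)

def k0_mm_123_b : ∃ t, chk3 f_mm_123_b t 1 1 1 = true :=
  ⟨(l 5), by decide +kernel⟩

theorem c_mm_123_b : CertB 536870912 536870912 1239849684 370763052 697932185 42949674 3 eng mog cd1q1 cd1q2b pd3 true false false .npn 1 2 3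
    ndB1q1 ndB1q2b pcB3 Cut.none Ext.none :=
  certB0 (fam := true) (s1 := false) (s2 := false) (a := 1) (b := 2) (c := 3) (cn := .npn) (n1 := ndB1q1) (n2 := ndB1q2b) (pc := pcB3) (cut := Cut.none) (xt := Ext.none) (P1 := 536870912) (W1 := 536870912) (P2 := 1239849684) (W2 := 370763052) (P3 := 697932185) (W3 := 42949674) (N0 := 3) (En := eng) (mo := mog) (C1 := cd1q1) (C2 := cd1q2b) (C3 := pd3)
    rfl k0_mm_123_b

noncomputable def f_mm_133 : ℕ → ℕ → ℕ → ℕ → Bool := onCell 536870912 536870912 1610612736 536870912 697932185 42949674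
    (rowB 3 eng mog cd1q1 cd1q3 pd3 0 true false false .dn 1 3 3 (qsf 536870912 536870912 1610612736 536870912 3) ndB1q1 ndB1q3 pcB3 Cut.none Ext.none)

def k0_mm_133 : ∃ t, chk3 f_mm_133 t 1 1 1 = true :=
  ⟨(l 4), by decide +kernel⟩

theorem c_mm_133 : CertB 536870912 536870912 1610612736 536870912 697932185 42949674 3 eng mog cd1q1 cd1q3 pd3 true false false .dn 1 3 3
    ndB1q1 ndB1q3 pcB3 Cut.none Ext.none :=
  certB0 (fam := true) (s1 := false) (s2 := false) (a := 1) (b := 3) (c := 3) (cn := .dn) (n1 := ndB1q1) (n2 := ndB1q3) (pc := pcB3) (cut := Cut.none) (xt := Ext.none) (P1 := 536870912) (W1 := 536870912) (P2 := 1610612736) (W2 := 536870912) (P3 := 697932185) (W3 := 42949674) (N0 := 3) (En := eng) (mo := mog) (C1 := cd1q1) (C2 := cd1q3) (C3 := pd3)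
    rfl k0_mm_133

noncomputable def cut_mm_202_a : Cut := Cut.of [[⟨0, 1, 0, 67108864⟩, ⟨1, 0, 0, 67108864⟩, ⟨2, 1, 0, 67108864⟩]]

noncomputable def f_mm_202_a : ℕ → ℕ → ℕ → ℕ → Bool := onCell 0 536870912 1073741824 536870912 697932185 42949674
    (rowB 3 eng mog cd1q2a cd1q0 pd2 1 true false false .pp 2 0 2 (qsf 0 536870912 0 536870912 2) ndB1q2a ndB1q0 pcB2 cut_mm_202_a Ext.none)

def k0_mm_202_a : ∃ t, chk3 f_mm_202_a t 2 2 1 = true :=
  ⟨(a (b (l 1) (b (b (b (l 1) (a (a (l 16449416) (l 16450184)) (l 16457496))) (a (b (a (l 16444424) (l 16446912)) (l 16410256)) (b (l 16435680) (l 16443696)))) (b (a (b (l 16463600) (l 16474152)) (l 16482648)) (a (l 16487824) (l 16504424))))) (b (b (l 1) (b (l 1) (a (l 1) (b (l 1) (a (l 1) (b (l 1) (a (l 16508976) (b (l 16520008) (l 16520752))))))))) (b (b (a (b (a (l 16470560) (b (l 1) (l 16460264))) (a (l 16449048) (l 16429920))) (b (a (b (a (l 16490800) (l 16478664)) (a (l 16491584) (l 16500888))) (a (c (l 16495144)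 (l 16490408)) (b (l 16522096) (l 16524304)))) (a (a (l 16493680) (l 16503656)) (a (l 16515408) (b (l 16526968) (l 16530064)))))) (a (b (a (l 16471624) (b (l 16484552) (l 16486736))) (a (l 16480832) (l 16495600))) (b (a (b (l 16502144) (a (l 16499600) (l 16510632))) (b (l 16547672) (b (l 16529440) (l 16531568)))) (a (a (l 16508776) (l 16520016)) (b (l 16536688) (l 16543704)))))) (b (b (a (a (l 16493552) (l 16508704)) (a (l 16548856) (l 16575032))) (a (l 16513680) (a (l 16541032) (l 16588632)))) (a (b (l 16525688) (l 16537504)) (a (b (l 16553896) (l 16566808)) (b (l 16528624) (l 16594616)))))))), by decide +kernel⟩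

def k1_mm_202_a : ∃ t, chk3 f_mm_202_a t 2 3 1 = true :=
  ⟨(b (b (a (b (a (l 16501688) (l 16522968)) (a (l 16522352) (l 16544952))) (b (a (l 16555936) (a (l 16586880) (l 16615688))) (a (l 16580392) (a (l 16613760) (l 16643944))))) (a (b (a (l 16543688) (l 16567760)) (a (l 16565672) (l 16592032))) (b (a (l 16624952) (b (l 16649024) (l 16704352))) (a (l 16630384) (b (l 16739752) (a (l 16674880) (l 16708672))))))) (b (a (b (l 16628440) (l 16657544)) (a (b (l 16660032) (l 16757640)) (b (a (l 16739744) (c (l 23857231479) (l 23320355463))) (a (l 21709750647) (l 4))))) (a (b (a (l 16649832) (l 16679664)) (a (l 16675656) (l 16746776))) (a (b (c (l 16802704) (l 16801840)) (a (l 16754328) (l 4))) (l 4))))), by decide +kernel⟩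

def k2_mm_202_a : ∃ t, chk3 f_mm_202_a t 6 4 1 = true :=
  ⟨(b (l 1) (a (b (l 1) (b (a (b (l 1) (b (l 1) (l 16556192))) (b (a (l 1) (l 16571592)) (a (l 16575608) (l 16570440)))) (a (b (a (l 16547088) (b (l 16544536) (l 16545544))) (a (l 16533112) (l 16547288))) (a (b (l 16560200) (l 16562976)) (b (l 16576856) (l 16580144)))))) (b (a (b (l 1) (b (a (l 1) (b (l 1) (l 16578736))) (a (b (l 1) (l 16570832)) (b (l 16583864) (l 16588864))))) (b (b (l 1) (a (b (l 1) (l 16587584)) (b (l 16625248) (l 16609696)))) (a (b (b (l 16613912) (l 16598176)) (a (l 16600560) (l 16611008))) (b (b (l 16615000) (l 16620176)) (l 16617240))))) (a (b (b (a (l 16583368) (l 16564680)) (a (l 16587424) (l 16605424))) (a (b (l 16594928) (l 16598736)) (l 16603712))) (b (a (b (l 16589312) (l 16624808)) (b (l 16616392) (l 16646560))) (a (l 16627504) (l 16659648))))))), by decide +kernel⟩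

def k3_mm_202_a : ∃ t, chk3 f_mm_202_a t 7 4 1 = true :=
  ⟨(a (b (b (l 1) (a (b (l 1) (b (l 1) (a (l 1) (a (b (l 1) (l 16629472)) (b (l 6) (l 16642776)))))) (b (l 6) (b (l 6) (b (l 6) (b (l 6) (a (l 16666528) (l 16697456)))))))) (b (a (b (a (b (b (a (l 1) (l 16622736)) (a (l 16616248) (l 16628320))) (b (l 16627776) (l 16633144))) (b (a (l 16637936) (l 16651176)) (a (l 16648824) (l 16661984)))) (a (b (l 16640968) (l 16661472)) (b (a (l 16659240) (l 16672328)) (a (l 16669200) (l 16682224))))) (b (a (b (a (l 16665856) (l 16680888)) (a (l 16676512) (l 16691408))) (b (a (l 16706744) (a (l 16708000) (l 16715936))) (a (b (l 16704080) (l 16709168)) (l 16722216)))) (a (b (a (l 16686728) (l 16680520)) (l 16703816)) (b (l 16727264) (l 16733752))))) (a (b (a (b (l 16639568) (l 16669664)) (a (l 16683312) (l 16696248))) (a (l 16682672) (b (l 16702944) (l 16711296)))) (b (a (b (l 16713064) (l 16721920)) (b (a (l 16734192) (l 16747056)) (a (l 16740928) (l 16755336)))) (a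 (b (l 16729264) (l 16736464)) (b (a (l 16748800) (l 4)) (l 4))))))) (b (b (l 6) (b (l 6) (b (l 6) (b (l 6) (b (l 6) (a (a (a (l 16721488) (l 16717080)) (a (l 16755096) (l 4))) (l 4))))))) (a (b (a (b (b (a (l 16728024) (l 16744496)) (a (l 16738128) (a (l 16749648) (l 16756520)))) (a (b (l 16746392) (l 16753768)) (b (b (l 16758824) (l 16763200)) (l 4)))) (b (a (b (b (l 16763000) (l 16766864)) (b (l 16771168) (l 4))) (l 4)) (l 4))) (a (b (l 4) (l 4)) (l 4))) (l 4)))), by decide +kernel⟩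

def k4_mm_202_a : ∃ t, chk3 f_mm_202_a t 6 5 1 = true :=
  ⟨(b (a (b (a (b (a (b (l 16535336) (l 16538032)) (b (l 16550016) (l 16553192))) (a (b (l 16541160) (l 16544712)) (b (l 16556792) (l 16560792)))) (b (b (a (l 16566208) (l 16583880)) (a (l 16569864) (l 16588024))) (a (b (l 16573936) (l 16578392)) (b (l 16592560) (l 16597472))))) (a (b (a (b (l 16548656) (l 16574040)) (b (l 16565184) (l 16590968))) (b (l 16568048) (l 16575232))) (b (b (a (l 16583216) (l 16602736)) (b (l 16596952) (a (l 16589848) (l 16609872)))) (a (l 16598896) (l 16640008))))) (b (a (b (a (b (l 16581992) (l 16607592)) (l 16626280)) (a (b (l 16612600) (l 16617968)) (c (l 16616480) (l 16616104)))) (b (a (l 16648784) (l 16671568)) (a (l 16660656) (l 16684360)))) (a (b (b (a (l 16623664) (l 16646304)) (a (b (l 16628144) (l 16631304)) (b (l 16651104) (l 16654448)))) (a (b (l 16636856) (l 16644328)) (b (l 16660080) (l 16667600)))) (b (b (l 16682544) (a (l 16677256) (l 16701984))) (a (l 16688304)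 (l 16712784)))))) (a (b (a (b (b (l 16582344) (l 16589408)) (a (l 16591152) (l 16608640))) (b (a (l 16613408) (b (l 16630080) (l 16637312))) (a (l 16627552) (l 16647816)))) (a (b (l 16634656) (l 16627848)) (b (a (l 16641656) (l 16662152)) (a (l 16656256) (l 16677040))))) (b (a (b (a (b (l 16651704) (l 16658808)) (l 16636312)) (l 16680896)) (b (a (l 16702504) (l 16727584)) (a (c (l 16675944) (l 16674848)) (l 16764640)))) (a (b (a (l 16683944) (l 16686504)) (l 16732480)) (a (b (l 16733504) (l 4)) (l 4)))))), by decide +kernel⟩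

def k5_mm_202_a : ∃ t, chk3 f_mm_202_a t 7 5 1 = true :=
  ⟨(b (a (b (a (b (a (l 16695952) (b (l 16718448) (l 16725488))) (a (l 16709648) (b (l 16733104) (l 16740816)))) (a (b (b (l 16744408) (l 16751928)) (l 4)) (l 4))) (a (a (b (b (l 16720696) (b (l 16726384) (l 16730136))) (l 16744952)) (b (b (l 16747760) (l 4)) (l 4))) (l 4))) (l 4)) (l 4)), by decide +kernel⟩

def k6_mm_202_a : ∃ t, chk3 f_mm_202_a t 3 3 1 = true :=
  ⟨(b (a (b (b (a (b (b (l 16679224) (l 16665816)) (a (l 16657376) (l 16697648))) (a (a (b (l 16715336) (l 16732304)) (l 4)) (l 4))) (a (a (l 16700520) (b (l 16734504) (l 55532544583))) (l 4))) (a (a (b (b (l 16701104) (l 42110790935)) (b (l 43184537207) (l 4))) (l 4)) (l 4))) (l 4)) (l 4)), by decide +kernel⟩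

theorem s7_mm_202_a : ∃ t, chk3 f_mm_202_a t 3 5 1 = true := ex3_a k4_mm_202_a k5_mm_202_a

theorem s8_mm_202_a : ∃ t, chk3 f_mm_202_a t 3 4 1 = true := ex3_a k2_mm_202_a k3_mm_202_a

theorem s9_mm_202_a : ∃ t, chk3 f_mm_202_a t 3 2 1 = true := ex3_b s8_mm_202_a s7_mm_202_a

theorem s10_mm_202_a : ∃ t, chk3 f_mm_202_a t 3 1 1 = true := ex3_b s9_mm_202_a k6_mm_202_a

theorem s11_mm_202_a : ∃ t, chk3 f_mm_202_a t 2 1 1 = true := ex3_b k0_mm_202_a k1_mm_202_a

theorem s12_mm_202_a : ∃ t, chk3 f_mm_202_a t 1 1 1 = true := ex3_a s11_mm_202_a s10_mm_202_a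

theorem c_mm_202_a : CertB 0 536870912 0 536870912 697932185 42949674 3 eng mog cd1q2a cd1q0 pd2 true false false .pp 2 0 2
    ndB1q2a ndB1q0 pcB2 cut_mm_202_a Ext.none :=
  certB1 (fam := true) (s1 := false) (s2 := false) (a := 2) (b := 0) (c := 2) (cn := .pp) (n1 := ndB1q2a) (n2 := ndB1q0) (pc := pcB2) (cut := cut_mm_202_a) (xt := Ext.none) (P1 := 0) (W1 := 536870912) (P2 := 0) (W2 := 536870912) (P3 := 697932185) (W3 := 42949674) (N0 := 3) (En := eng) (mo := mog) (C1 := cd1q2a) (C2 := cd1q0) (C3 := pd2)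
    rfl (fun _ => rfl) s12_mm_202_a

noncomputable def cut_mm_202_b : Cut := Cut.of [[⟨0, 1, 0, 67108864⟩, ⟨1, 0, 0, 67108864⟩, ⟨2, 1, 0, 67108864⟩]]

noncomputable def f_mm_202_b : ℕ → ℕ → ℕ → ℕ → Bool := onCell 1239849684 370763052 1073741824 536870912 697932185 42949674
    (rowB 3 eng mog cd1q2b cd1q0 pd2 1 true false false .pp 2 0 2 (qsf 1239849684 370763052 0 536870912 2) ndB1q2b ndB1q0 pcB2 cut_mm_202_b Ext.none)

def k0_mm_202_b : ∃ t, chk3 f_mm_202_b t 1 1 1 = true :=
  ⟨(b (a (b (l 1) (b (a (a (b (b (l 1) (a (l 16420456) (l 1))) (b (a (b (l 16422416) (a (l 16431776) (l 16408800))) (l 1)) (a (a (l 16438368) (l 16415336)) (l 16379992)))) (l 1)) (l 1)) (a (b (a (a (l 16479664) (l 16388016)) (b (l 16294520) (l 16299624))) (a (a (l 16454520) (l 16397472)) (a (l 16339000) (l 16279280)))) (b (l 1) (a (a (l 16218512) (l 1)) (l 1)))))) (l 1)) (a (b (b (a (a (b (l 16460400) (l 16458840)) (b (l 16346304) (l 16344552))) (b (a (b (l 16202392) (l 16213168)) (l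 1)) (a (l 16230848) (l 16113400)))) (a (b (a (l 16482632) (b (l 16362240) (l 16376056))) (a (l 16506664) (l 16398984))) (b (a (l 16256424) (l 16143360)) (a (l 16286240) (l 16175968))))) (b (a (b (a (l 16576040) (l 16431312)) (a (l 16564680) (l 16465544))) (b (a (l 16322664) (l 16212760)) (l 16331464))) (a (b (a (l 16596424) (l 16502816)) (a (l 16626976) (l 16542208))) (b (l 16354248) (l 16399560))))) (b (a (b (l 1) (b (a (l 16026768) (l 1)) (a (l 16064512) (l 15950392)))) (l 1)) (b (a (b (l 16094456) (l 16099160)) (b (l 1) (l 15890056))) (a (b (l 16148688) (l 16199128)) (b (l 15948200) (l 16003552))))))), by decide +kernel⟩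

theorem c_mm_202_b : CertB 1239849684 370763052 0 536870912 697932185 42949674 3 eng mog cd1q2b cd1q0 pd2 true false false .pp 2 0 2
    ndB1q2b ndB1q0 pcB2 cut_mm_202_b Ext.none :=
  certB1 (fam := true) (s1 := false) (s2 := false) (a := 2) (b := 0) (c := 2) (cn := .pp) (n1 := ndB1q2b) (n2 := ndB1q0) (pc := pcB2) (cut := cut_mm_202_b) (xt := Ext.none) (P1 := 1239849684) (W1 := 370763052) (P2 := 0) (W2 := 536870912) (P3 := 697932185) (W3 := 42949674) (N0 := 3) (En := eng) (mo := mog) (C1 := cd1q2b) (C2 := cd1q0) (C3 := pd2)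
    rfl (fun _ => rfl) k0_mm_202_b

noncomputable def f_mm_203_a : ℕ → ℕ → ℕ → ℕ → Bool := onCell 0 536870912 1610612736 536870912 697932185 42949674
    (rowB 3 eng mog cd1q2a cd1q0 pd3 1 true false false .up 2 0 3 (qsf 0 536870912 0 536870912 3) ndB1q2a ndB1q0 pcB3 Cut.none Ext.none)

def k0_mm_203_a : ∃ t, chk3 f_mm_203_a t 1 1 1 = true :=
  ⟨(a (b (a (b (b (b (a (l 16694912) (l 16753064)) (a (l 16724920) (l 21709764999))) (a (b (l 16750624) (l 32447178855)) (l 4))) (b (a (b (l 85060595623) (l 2)) (l 4)) (l 2))) (b (l 4) (l 4))) (l 2)) (l 4)), by decide +kernel⟩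

theorem c_mm_203_a : CertB 0 536870912 0 536870912 697932185 42949674 3 eng mog cd1q2a cd1q0 pd3 true false false .up 2 0 3
    ndB1q2a ndB1q0 pcB3 Cut.none Ext.none :=
  certB1 (fam := true) (s1 := false) (s2 := false) (a := 2) (b := 0) (c := 3) (cn := .up) (n1 := ndB1q2a) (n2 := ndB1q0) (pc := pcB3) (cut := Cut.none) (xt := Ext.none) (P1 := 0) (W1 := 536870912) (P2 := 0) (W2 := 536870912) (P3 := 697932185) (W3 := 42949674) (N0 := 3) (En := eng) (mo := mog) (C1 := cd1q2a) (C2 := cd1q0) (C3 := pd3)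
    rfl (fun _ => rfl) k0_mm_203_a

noncomputable def f_mm_203_b : ℕ → ℕ → ℕ → ℕ → Bool := onCell 1239849684 370763052 1610612736 536870912 697932185 42949674
    (rowB 3 eng mog cd1q2b cd1q0 pd3 1 true false false .up 2 0 3 (qsf 1239849684 370763052 0 536870912 3) ndB1q2b ndB1q0 pcB3 Cut.none Ext.none)

def k0_mm_203_b : ∃ t, chk3 f_mm_203_b t 1 1 1 = true :=
  ⟨(b (b (a (b (a (b (a (l 16654120) (l 16579800)) (a (l 16672688) (l 16611648))) (b (l 16444616) (l 16488552))) (a (b (l 16708144) (a (l 16727040) (l 16667360))) (b (l 16530584) (l 16572480)))) (b (a (b (l 16247736) (l 16296160)) (l 16160312)) (a (b (l 16347664) (l 4)) (b (l 16152672) (l 4))))) (b (a (a (a (b (l 16747912) (l 4)) (l 4)) (l 4)) (l 4)) (l 4))) (l 4)), by decide +kernel⟩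

theorem c_mm_203_b : CertB 1239849684 370763052 0 536870912 697932185 42949674 3 eng mog cd1q2b cd1q0 pd3 true false false .up 2 0 3
    ndB1q2b ndB1q0 pcB3 Cut.none Ext.none :=
  certB1 (fam := true) (s1 := false) (s2 := false) (a := 2) (b := 0) (c := 3) (cn := .up) (n1 := ndB1q2b) (n2 := ndB1q0) (pc := pcB3) (cut := Cut.none) (xt := Ext.none) (P1 := 1239849684) (W1 := 370763052) (P2 := 0) (W2 := 536870912) (P3 := 697932185) (W3 := 42949674) (N0 := 3) (En := eng) (mo := mog) (C1 := cd1q2b) (C2 := cd1q0) (C3 := pd3)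
    rfl (fun _ => rfl) k0_mm_203_b

noncomputable def f_mm_213_a : ℕ → ℕ → ℕ → ℕ → Bool := onCell 0 536870912 536870912 536870912 697932185 42949674
    (rowB 3 eng mog cd1q2a cd1q1 pd3 0 true false false .pnn 2 1 3 (qsf 0 536870912 536870912 536870912 3) ndB1q2a ndB1q1 pcB3 Cut.none Ext.none)

def k0_mm_213_a : ∃ t, chk3 f_mm_213_a t 1 1 1 = true :=
  ⟨(a (b (l 4) (l 4)) (l 4)), by decide +kernel⟩

theorem c_mm_213_a : CertB 0 536870912 536870912 536870912 697932185 42949674 3 eng mog cd1q2a cd1q1 pd3 true false false .pnn 2 1 3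
    ndB1q2a ndB1q1 pcB3 Cut.none Ext.none :=
  certB0 (fam := true) (s1 := false) (s2 := false) (a := 2) (b := 1) (c := 3) (cn := .pnn) (n1 := ndB1q2a) (n2 := ndB1q1) (pc := pcB3) (cut := Cut.none) (xt := Ext.none) (P1 := 0) (W1 := 536870912) (P2 := 536870912) (W2 := 536870912) (P3 := 697932185) (W3 := 42949674) (N0 := 3) (En := eng) (mo := mog) (C1 := cd1q2a) (C2 := cd1q1) (C3 := pd3)
    rfl k0_mm_213_a

noncomputable def f_mm_213_b : ℕ → ℕ → ℕ → ℕ → Bool := onCell 1239849684 370763052 536870912 536870912 697932185 42949674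
    (rowB 3 eng mog cd1q2b cd1q1 pd3 0 true false false .pnn 2 1 3 (qsf 1239849684 370763052 536870912 536870912 3) ndB1q2b ndB1q1 pcB3 Cut.none Ext.none)

def k0_mm_213_b : ∃ t, chk3 f_mm_213_b t 1 1 1 = true :=
  ⟨(b (a (l 4) (l 4)) (l 4)), by decide +kernel⟩

theorem c_mm_213_b : CertB 1239849684 370763052 536870912 536870912 697932185 42949674 3 eng mog cd1q2b cd1q1 pd3 true false false .pnn 2 1 3
    ndB1q2b ndB1q1 pcB3 Cut.none Ext.none :=
  certB0 (fam := true) (s1 := false) (s2 := false) (a := 2) (b := 1) (c := 3) (cn := .pnn) (n1 := ndB1q2b) (n2 := ndB1q1) (pc := pcB3) (cut := Cut.none) (xt := Ext.none) (P1 := 1239849684) (W1 := 370763052) (P2 := 536870912) (W2 := 536870912) (P3 := 697932185) (W3 := 42949674) (N0 := 3) (En := eng) (mo := mog) (C1 := cd1q2b) (C2 := cd1q1) (C3 := pd3)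
    rfl k0_mm_213_b

noncomputable def f_mm_303 : ℕ → ℕ → ℕ → ℕ → Bool := onCell 1610612736 536870912 0 536870912 697932185 42949674
    (rowB 3 eng mog cd1q3 cd1q0 pd3 2 true false false .npn 3 0 3 (qsf 1610612736 536870912 0 536870912 3) ndB1q3 ndB1q0 pcB3 Cut.none Ext.none)

def k0_mm_303 : ∃ t, chk3 f_mm_303 t 1 1 1 = true :=
  ⟨(a (a (b (a (b (a (l 16057432) (l 16036360)) (l 1)) (b (a (l 16023376) (l 16026552)) (l 257730662119))) (l 1)) (b (l 4) (a (l 1) (l 4)))) (l 4)), by decide +kernel⟩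

theorem c_mm_303 : CertB 1610612736 536870912 0 536870912 697932185 42949674 3 eng mog cd1q3 cd1q0 pd3 true false false .npn 3 0 3
    ndB1q3 ndB1q0 pcB3 Cut.none Ext.none :=
  certB2 (fam := true) (s1 := false) (s2 := false) (a := 3) (b := 0) (c := 3) (cn := .npn) (n1 := ndB1q3) (n2 := ndB1q0) (pc := pcB3) (cut := Cut.none) (xt := Ext.none) (P1 := 1610612736) (W1 := 536870912) (P2 := 0) (W2 := 536870912) (P3 := 697932185) (W3 := 42949674) (N0 := 3) (En := eng) (mo := mog) (C1 := cd1q3) (C2 := cd1q0) (C3 := pd3)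
    rfl (fun _ => rfl) k0_mm_303

noncomputable def f_mm_313 : ℕ → ℕ → ℕ → ℕ → Bool := onCell 1610612736 536870912 536870912 536870912 697932185 42949674
    (rowB 3 eng mog cd1q3 cd1q1 pd3 0 true false false .dn 3 1 3 (qsf 1610612736 536870912 536870912 536870912 3) ndB1q3 ndB1q1 pcB3 Cut.none Ext.none)

def k0_mm_313 : ∃ t, chk3 f_mm_313 t 1 1 1 = true :=
  ⟨(l 4), by decide +kernel⟩

theorem c_mm_313 : CertB 1610612736 536870912 536870912 536870912 697932185 42949674 3 eng mog cd1q3 cd1q1 pd3 true false false .dn 3 1 3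
    ndB1q3 ndB1q1 pcB3 Cut.none Ext.none :=
  certB0 (fam := true) (s1 := false) (s2 := false) (a := 3) (b := 1) (c := 3) (cn := .dn) (n1 := ndB1q3) (n2 := ndB1q1) (pc := pcB3) (cut := Cut.none) (xt := Ext.none) (P1 := 1610612736) (W1 := 536870912) (P2 := 536870912) (W2 := 536870912) (P3 := 697932185) (W3 := 42949674) (N0 := 3) (En := eng) (mo := mog) (C1 := cd1q3) (C2 := cd1q1) (C3 := pd3)
    rfl k0_mm_313

end Pool.Agent.Strip051.G.I6500_6900.Tab.C.BA11

namespace Pool.Agent.Strip051.G.I6500_6900.Tab.C.BA12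

open Pool.Agent.Strip051.PB Pool.Agent.Strip051.PB.T
open Pool.Agent.Strip051.G.I6500_6900.Tab

noncomputable def f_pp_001 : ℕ → ℕ → ℕ → ℕ → Bool := onCell 0 536870912 0 536870912 697932185 42949674
    (rowB 3 eng mog cd1q0 cd2q0 pd1 0 true true true .up 0 0 1 (qsf 0 536870912 0 536870912 1) ndB1q0 ndB2q0 pcB1 Cut.none Ext.none)

def k0_pp_001 : ∃ t, chk3 f_pp_001 t 1 1 1 = true :=
  ⟨(l 4), by decide +kernel⟩

theorem c_pp_001 : CertB 0 536870912 0 536870912 697932185 42949674 3 eng mog cd1q0 cd2q0 pd1 true true true .up 0 0 1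
    ndB1q0 ndB2q0 pcB1 Cut.none Ext.none :=
  certB0 (fam := true) (s1 := true) (s2 := true) (a := 0) (b := 0) (c := 1) (cn := .up) (n1 := ndB1q0) (n2 := ndB2q0) (pc := pcB1) (cut := Cut.none) (xt := Ext.none) (P1 := 0) (W1 := 536870912) (P2 := 0) (W2 := 536870912) (P3 := 697932185) (W3 := 42949674) (N0 := 3) (En := eng) (mo := mog) (C1 := cd1q0) (C2 := cd2q0) (C3 := pd1)
    rfl k0_pp_001

noncomputable def f_pp_011 : ℕ → ℕ → ℕ → ℕ → Bool := onCell 0 536870912 536870912 536870912 697932185 42949674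
    (rowB 3 eng mog cd1q0 cd2q1 pd1 0 true true true .pnn 0 1 1 (qsf 0 536870912 536870912 536870912 1) ndB1q0 ndB2q1 pcB1 Cut.none Ext.none)

def k0_pp_011 : ∃ t, chk3 f_pp_011 t 1 1 1 = true :=
  ⟨(l 4), by decide +kernel⟩

theorem c_pp_011 : CertB 0 536870912 536870912 536870912 697932185 42949674 3 eng mog cd1q0 cd2q1 pd1 true true true .pnn 0 1 1
    ndB1q0 ndB2q1 pcB1 Cut.none Ext.none :=
  certB0 (fam := true) (s1 := true) (s2 := true) (a := 0) (b := 1) (c := 1) (cn := .pnn) (n1 := ndB1q0) (n2 := ndB2q1) (pc := pcB1) (cut := Cut.none) (xt := Ext.none) (P1 := 0) (W1 := 536870912) (P2 := 536870912) (W2 := 536870912) (P3 := 697932185) (W3 := 42949674) (N0 := 3) (En := eng) (mo := mog) (C1 := cd1q0) (C2 := cd2q1) (C3 := pd1)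
    rfl k0_pp_011

noncomputable def f_pp_012 : ℕ → ℕ → ℕ → ℕ → Bool := onCell 0 536870912 536870912 536870912 697932185 42949674
    (rowB 3 eng mog cd1q0 cd2q1 pd2 0 true true true .pnp 0 1 2 (qsf 0 536870912 536870912 536870912 2) ndB1q0 ndB2q1 pcB2 Cut.none Ext.none)

def k0_pp_012 : ∃ t, chk3 f_pp_012 t 1 1 1 = true :=
  ⟨(l 4), by decide +kernel⟩

theorem c_pp_012 : CertB 0 536870912 536870912 536870912 697932185 42949674 3 eng mog cd1q0 cd2q1 pd2 true true true .pnp 0 1 2
    ndB1q0 ndB2q1 pcB2 Cut.none Ext.none :=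
  certB0 (fam := true) (s1 := true) (s2 := true) (a := 0) (b := 1) (c := 2) (cn := .pnp) (n1 := ndB1q0) (n2 := ndB2q1) (pc := pcB2) (cut := Cut.none) (xt := Ext.none) (P1 := 0) (W1 := 536870912) (P2 := 536870912) (W2 := 536870912) (P3 := 697932185) (W3 := 42949674) (N0 := 3) (En := eng) (mo := mog) (C1 := cd1q0) (C2 := cd2q1) (C3 := pd2)
    rfl k0_pp_012

noncomputable def cut_pp_022_a : Cut := Cut.of [[⟨0, 0, 0, 67108864⟩, ⟨1, 1, 0, 67108864⟩, ⟨2, 1, 0, 67108864⟩]]

noncomputable def f_pp_022_a : ℕ → ℕ → ℕ → ℕ → Bool := onCell 0 536870912 0 536870912 697932185 42949674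
    (rowB 3 eng mog cd1q0 cd2q2a pd2 0 true true true .pp 0 2 2 (qsf 0 536870912 0 536870912 2) ndB1q0 ndB2q2a pcB2 cut_pp_022_a Ext.none)

def k0_pp_022_a : ∃ t, chk3 f_pp_022_a t 2 2 1 = true :=
  ⟨(a (a (b (a (b (a (l 16443584) (l 16388072)) (a (l 16453864) (b (l 16414824) (a (l 16461688) (l 16466936))))) (b (l 16469728) (a (l 16410456) (l 16486280)))) (a (b (a (b (l 16469088) (l 16483248)) (b (a (l 16473360) (b (l 16474392) (l 16480512))) (a (l 16488072) (l 16512824)))) (a (b (l 16500176) (l 16519880)) (b (b (l 16502704) (l 16512200)) (l 16527776)))) (b (a (b (l 16487376) (a (b (l 16493328) (l 16500816)) (l 16503960))) (b (l 16500928) (l 16514400))) (a (b (a (b (l 16509288) (l 16518840)) (b (l 16515544) (l 16524432))) (a (l 16534752) (b (l 16492464) (l 16545408)))) (b (l 16530616) (a (b (l 16540968) (a (l 16549664) (l 16553032))) (l 16553376))))))) (b (b (a (l 16492944) (l 16513336)) (a (l 16504952) (l 16529464))) (a (b (a (l 16521120) (l 16534360)) (a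 (b (l 16523760) (l 16522304)) (l 16610608))) (b (l 16617216) (a (l 16603736) (l 16597216)))))) (a (b (a (b (l 16536264) (l 16553720)) (b (l 16560344) (l 16599704))) (b (a (l 16603008) (a (l 16601408) (l 16614800))) (a (a (l 16612200) (l 16627272)) (b (l 16636944) (l 21172700983))))) (b (a (b (l 16585424) (l 16605056)) (b (l 16615416) (l 16635952))) (b (a (a (l 16628440) (l 16642752)) (a (l 16701160) (l 37815813751))) (a (b (a (l 16657672) (l 16672048)) (l 4)) (l 4)))))), by decide +kernel⟩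

def k1_pp_022_a : ∃ t, chk3 f_pp_022_a t 4 6 1 = true :=
  ⟨(a (a (b (a (b (a (l 16540472) (l 16544264)) (a (l 16565064) (l 16569536))) (b (l 16550728) (b (l 16569608) (l 16583080)))) (b (a (a (l 16587432) (l 16596552)) (b (l 16597216) (l 16612016))) (a (a (b (l 16605848) (l 16598240)) (l 16630184)) (b (l 16627456) (l 16643088))))) (b (a (b (l 16560728) (l 16586832)) (b (a (b (l 16520976) (l 16575464)) (a (l 16584440) (b (l 16571456) (l 16583408)))) (b (a (l 16588696) (l 16594904)) (l 16584704)))) (b (a (b (l 16608024) (l 16623024)) (b (l 16599272) (l 16593512))) (a (b (l 16638656) (l 16654840)) (b (l 16651280) (l 16667648)))))) (b (a (a (b (b (l 16580688) (l 16592664)) (a (a (l 16627856) (l 16632704)) (l 16636944))) (b (l 16601456) (l 16627280))) (b (a (l 16616104) (l 16630840)) (a (l 16642224) (l 16657144)))) (a (a (b (b (a (l 16630256) (l 16637328)) (l 16607200)) (a (l 16669872) (l 16698176))) (b (a (b (l 16623864) (l 16660192)) (l 16660160)) (b (a (l 16655384)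 (l 16705376)) (a (l 16693688) (l 4))))) (a (b (b (l 16663840) (l 16679784)) (b (l 16697104) (l 4))) (b (l 16708664) (l 4)))))), by decide +kernel⟩

def k2_pp_022_a : ∃ t, chk3 f_pp_022_a t 4 7 1 = true :=
  ⟨(a (b (a (a (b (a (a (b (l 16630680) (l 16645560)) (l 16655296)) (a (l 16659168) (l 16664248))) (b (a (a (l 6) (l 16667856)) (a (l 16652280) (l 16657560))) (a (l 6) (b (a (l 6) (l 16692184)) (l 6))))) (b (b (a (l 16653280) (l 16662576)) (a (l 16668888) (l 16678528))) (b (a (l 16686264) (l 16696184)) (a (b (l 16700048) (l 16709592)) (l 16719800))))) (b (a (b (l 16671640) (a (l 16686040) (l 16692208))) (b (l 16684640) (a (l 16698776) (l 16706088)))) (a (b (a (l 16702984) (l 16709184)) (a (b (l 16715880) (l 16724792)) (b (l 16722536) (l 16732488)))) (b (a (l 16716504) (l 16725136)) (l 4))))) (a (b (a (l 6) (b (a (l 6) (b (l 16727896) (a (l 6) (l 16738792)))) (l 6))) (l 6)) (b (a (b (a (b (l 16734520) (l 16750376)) (l 4)) (l 4)) (l 4)) (l 4)))) (b (a (b (a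 (b (a (l 16663984) (l 16703736)) (a (l 16714528) (l 4))) (l 4)) (l 4)) (l 4)) (l 4))), by decide +kernel⟩

def k3_pp_022_a : ∃ t, chk3 f_pp_022_a t 5 3 1 = true :=
  ⟨(b (a (b (b (a (a (l 16646144) (l 16662344)) (a (l 16678128) (l 4))) (a (a (l 16673264) (l 4)) (l 4))) (l 4)) (l 4)) (l 4)), by decide +kernel⟩

def k4_pp_022_a : ∃ t, chk3 f_pp_022_a t 3 1 1 = true :=
  ⟨(b (a (a (b (a (b (l 16646544) (c (l 16773088) (l 16772256))) (b (l 16676880) (b (l 16692512) (l 4)))) (b (a (b (l 16712048) (l 4)) (l 4)) (l 4))) (b (b (a (a (l 16697552) (l 16709432)) (l 16793848)) (l 4)) (l 4))) (l 4)) (l 4)), by decide +kernel⟩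

theorem s5_pp_022_a : ∃ t, chk3 f_pp_022_a t 4 3 1 = true := ex3_b k1_pp_022_a k2_pp_022_a

theorem s6_pp_022_a : ∃ t, chk3 f_pp_022_a t 2 3 1 = true := ex3_a s5_pp_022_a k3_pp_022_a

theorem s7_pp_022_a : ∃ t, chk3 f_pp_022_a t 2 1 1 = true := ex3_b k0_pp_022_a s6_pp_022_a

theorem s8_pp_022_a : ∃ t, chk3 f_pp_022_a t 1 1 1 = true := ex3_a s7_pp_022_a k4_pp_022_a

theorem c_pp_022_a : CertB 0 536870912 0 536870912 697932185 42949674 3 eng mog cd1q0 cd2q2a pd2 true true true .pp 0 2 2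
    ndB1q0 ndB2q2a pcB2 cut_pp_022_a Ext.none :=
  certB0 (fam := true) (s1 := true) (s2 := true) (a := 0) (b := 2) (c := 2) (cn := .pp) (n1 := ndB1q0) (n2 := ndB2q2a) (pc := pcB2) (cut := cut_pp_022_a) (xt := Ext.none) (P1 := 0) (W1 := 536870912) (P2 := 0) (W2 := 536870912) (P3 := 697932185) (W3 := 42949674) (N0 := 3) (En := eng) (mo := mog) (C1 := cd1q0) (C2 := cd2q2a) (C3 := pd2)
    rfl s8_pp_022_a

noncomputable def cut_pp_022_b : Cut := Cut.of [[⟨0, 0, 0, 67108864⟩, ⟨1, 1, 0, 67108864⟩, ⟨2, 1, 0, 67108864⟩]]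

noncomputable def f_pp_022_b : ℕ → ℕ → ℕ → ℕ → Bool := onCell 1073741824 536870912 1239849684 370763052 697932185 42949674
    (rowB 3 eng mog cd1q0 cd2q2b pd2 2 true true true .pp 0 2 2 (qsf 0 536870912 1239849684 370763052 2) ndB1q0 ndB2q2b pcB2 cut_pp_022_b Ext.none)

def k0_pp_022_b : ∃ t, chk3 f_pp_022_b t 1 1 1 = true :=
  ⟨(a (b (a (l 1) (a (b (b (a (a (l 1) (l 16392000)) (b (a (l 16416976) (l 16425264)) (l 16411944))) (l 1)) (l 1)) (b (b (a (b (l 16443376) (l 16391880)) (l 16435928)) (a (l 16345696) (l 16317120))) (a (l 1) (b (l 16195600) (l 1)))))) (l 1)) (b (a (a (b (b (a (l 16451072) (l 16472320)) (a (l 16333464) (a (l 16347456) (l 16358416)))) (b (a (b (l 16244208) (l 16183896)) (l 16236280)) (a (l 1) (l 16116928)))) (b (a (b (l 16498392) (a (l 16371416) (l 16386000))) (b (l 16525608) (l 16410520))) (a (b (l 16303464) (l 16187536)) (b (l 16291944) (l 16177560))))) (a (b (a (b (l 16555984) (l 16444744)) (b (l 16589136) (l 16480752))) (a (b (l 16328920)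 (l 16213728)) (b (l 16369816) (l 16256024)))) (b (a (b (l 16623080) (l 16519592)) (b (l 16654440) (l 16559448))) (a (b (l 16411200) (l 16302640)) (b (l 16454088) (l 16348056)))))) (a (b (a (l 1) (a (b (l 16026992) (l 1)) (b (l 16062920) (l 15946256)))) (l 1)) (a (b (a (b (l 16102552) (l 15990016)) (l 16133552)) (a (l 1) (l 15873816))) (b (a (l 16139440) (l 16208512)) (a (l 15928136) (l 15978968))))))), by decide +kernel⟩

theorem c_pp_022_b : CertB 0 536870912 1239849684 370763052 697932185 42949674 3 eng mog cd1q0 cd2q2b pd2 true true true .pp 0 2 2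
    ndB1q0 ndB2q2b pcB2 cut_pp_022_b Ext.none :=
  certB2 (fam := true) (s1 := true) (s2 := true) (a := 0) (b := 2) (c := 2) (cn := .pp) (n1 := ndB1q0) (n2 := ndB2q2b) (pc := pcB2) (cut := cut_pp_022_b) (xt := Ext.none) (P1 := 0) (W1 := 536870912) (P2 := 1239849684) (W2 := 370763052) (P3 := 697932185) (W3 := 42949674) (N0 := 3) (En := eng) (mo := mog) (C1 := cd1q0) (C2 := cd2q2b) (C3 := pd2)
    rfl (fun _ => rfl) k0_pp_022_b

noncomputable def f_pp_023_a : ℕ → ℕ → ℕ → ℕ → Bool := onCell 0 536870912 0 536870912 697932185 42949674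
    (rowB 3 eng mog cd1q0 cd2q2a pd3 0 true true true .up 0 2 3 (qsf 0 536870912 0 536870912 3) ndB1q0 ndB2q2a pcB3 Cut.none Ext.none)

def k0_pp_023_a : ∃ t, chk3 f_pp_023_a t 1 1 1 = true :=
  ⟨(a (l 1) (b (a (a (l 1) (b (b (a (l 1) (l 16751912)) (l 4)) (l 4))) (l 4)) (l 4))), by decide +kernel⟩

theorem c_pp_023_a : CertB 0 536870912 0 536870912 697932185 42949674 3 eng mog cd1q0 cd2q2a pd3 true true true .up 0 2 3
    ndB1q0 ndB2q2a pcB3 Cut.none Ext.none :=
  certB0 (fam := true) (s1 := true) (s2 := true) (a := 0) (b := 2) (c := 3) (cn := .up) (n1 := ndB1q0) (n2 := ndB2q2a) (pc := pcB3) (cut := Cut.none) (xt := Ext.none) (P1 := 0) (W1 := 536870912) (P2 := 0) (W2 := 536870912) (P3 := 697932185) (W3 := 42949674) (N0 := 3) (En := eng) (mo := mog) (C1 := cd1q0) (C2 := cd2q2a) (C3 := pd3)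
    rfl k0_pp_023_a

noncomputable def f_pp_023_b : ℕ → ℕ → ℕ → ℕ → Bool := onCell 1610612736 536870912 1239849684 370763052 697932185 42949674
    (rowB 3 eng mog cd1q0 cd2q2b pd3 2 true true true .up 0 2 3 (qsf 0 536870912 1239849684 370763052 3) ndB1q0 ndB2q2b pcB3 Cut.none Ext.none)

def k0_pp_023_b : ∃ t, chk3 f_pp_023_b t 1 1 1 = true :=
  ⟨(a (a (a (a (b (b (b (l 16679792) (l 16596336)) (l 4)) (b (l 16236592) (l 16026376))) (l 4)) (l 4)) (l 4)) (l 4)), by decide +kernel⟩

theorem c_pp_023_b : CertB 0 536870912 1239849684 370763052 697932185 42949674 3 eng mog cd1q0 cd2q2b pd3 true true true .up 0 2 3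
    ndB1q0 ndB2q2b pcB3 Cut.none Ext.none :=
  certB2 (fam := true) (s1 := true) (s2 := true) (a := 0) (b := 2) (c := 3) (cn := .up) (n1 := ndB1q0) (n2 := ndB2q2b) (pc := pcB3) (cut := Cut.none) (xt := Ext.none) (P1 := 0) (W1 := 536870912) (P2 := 1239849684) (W2 := 370763052) (P3 := 697932185) (W3 := 42949674) (N0 := 3) (En := eng) (mo := mog) (C1 := cd1q0) (C2 := cd2q2b) (C3 := pd3)
    rfl (fun _ => rfl) k0_pp_023_b

noncomputable def f_pp_033 : ℕ → ℕ → ℕ → ℕ → Bool := onCell 0 536870912 1610612736 536870912 697932185 42949674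
    (rowB 3 eng mog cd1q0 cd2q3 pd3 1 true true true .pnn 0 3 3 (qsf 0 536870912 1610612736 536870912 3) ndB1q0 ndB2q3 pcB3 Cut.none Ext.none)

def k0_pp_033 : ∃ t, chk3 f_pp_033 t 1 1 1 = true :=
  ⟨(b (b (a (b (a (b (l 226055205911) (l 4)) (l 1)) (l 4)) (l 1)) (l 4)) (l 4)), by decide +kernel⟩

theorem c_pp_033 : CertB 0 536870912 1610612736 536870912 697932185 42949674 3 eng mog cd1q0 cd2q3 pd3 true true true .pnn 0 3 3
    ndB1q0 ndB2q3 pcB3 Cut.none Ext.none :=
  certB1 (fam := true) (s1 := true) (s2 := true) (a := 0) (b := 3) (c := 3) (cn := .pnn) (n1 := ndB1q0) (n2 := ndB2q3) (pc := pcB3) (cut := Cut.none) (xt := Ext.none) (P1 := 0) (W1 := 536870912) (P2 := 1610612736) (W2 := 536870912) (P3 := 697932185) (W3 := 42949674) (N0 := 3) (En := eng) (mo := mog) (C1 := cd1q0) (C2 := cd2q3) (C3 := pd3)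
    rfl (fun _ => rfl) k0_pp_033

noncomputable def f_pp_101 : ℕ → ℕ → ℕ → ℕ → Bool := onCell 536870912 536870912 0 536870912 697932185 42949674
    (rowB 3 eng mog cd1q1 cd2q0 pd1 0 true true true .npn 1 0 1 (qsf 536870912 536870912 0 536870912 1) ndB1q1 ndB2q0 pcB1 Cut.none Ext.none)

def k0_pp_101 : ∃ t, chk3 f_pp_101 t 1 1 1 = true :=
  ⟨(l 4), by decide +kernel⟩

theorem c_pp_101 : CertB 536870912 536870912 0 536870912 697932185 42949674 3 eng mog cd1q1 cd2q0 pd1 true true true .npn 1 0 1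
    ndB1q1 ndB2q0 pcB1 Cut.none Ext.none :=
  certB0 (fam := true) (s1 := true) (s2 := true) (a := 1) (b := 0) (c := 1) (cn := .npn) (n1 := ndB1q1) (n2 := ndB2q0) (pc := pcB1) (cut := Cut.none) (xt := Ext.none) (P1 := 536870912) (W1 := 536870912) (P2 := 0) (W2 := 536870912) (P3 := 697932185) (W3 := 42949674) (N0 := 3) (En := eng) (mo := mog) (C1 := cd1q1) (C2 := cd2q0) (C3 := pd1)
    rfl k0_pp_101

noncomputable def f_pp_102 : ℕ → ℕ → ℕ → ℕ → Bool := onCell 536870912 536870912 0 536870912 697932185 42949674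
    (rowB 3 eng mog cd1q1 cd2q0 pd2 0 true true true .npp 1 0 2 (qsf 536870912 536870912 0 536870912 2) ndB1q1 ndB2q0 pcB2 Cut.none Ext.none)

def k0_pp_102 : ∃ t, chk3 f_pp_102 t 1 1 1 = true :=
  ⟨(l 4), by decide +kernel⟩

theorem c_pp_102 : CertB 536870912 536870912 0 536870912 697932185 42949674 3 eng mog cd1q1 cd2q0 pd2 true true true .npp 1 0 2
    ndB1q1 ndB2q0 pcB2 Cut.none Ext.none :=
  certB0 (fam := true) (s1 := true) (s2 := true) (a := 1) (b := 0) (c := 2) (cn := .npp) (n1 := ndB1q1) (n2 := ndB2q0) (pc := pcB2) (cut := Cut.none) (xt := Ext.none) (P1 := 536870912) (W1 := 536870912) (P2 := 0) (W2 := 536870912) (P3 := 697932185) (W3 := 42949674) (N0 := 3) (En := eng) (mo := mog) (C1 := cd1q1) (C2 := cd2q0) (C3 := pd2)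
    rfl k0_pp_102

noncomputable def f_pp_112 : ℕ → ℕ → ℕ → ℕ → Bool := onCell 536870912 536870912 536870912 536870912 697932185 42949674
    (rowB 3 eng mog cd1q1 cd2q1 pd2 0 true true true .dn 1 1 2 (qsf 536870912 536870912 536870912 536870912 2) ndB1q1 ndB2q1 pcB2 Cut.none Ext.none)

def k0_pp_112 : ∃ t, chk3 f_pp_112 t 1 1 1 = true :=
  ⟨(l 4), by decide +kernel⟩

theorem c_pp_112 : CertB 536870912 536870912 536870912 536870912 697932185 42949674 3 eng mog cd1q1 cd2q1 pd2 true true true .dn 1 1 2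
    ndB1q1 ndB2q1 pcB2 Cut.none Ext.none :=
  certB0 (fam := true) (s1 := true) (s2 := true) (a := 1) (b := 1) (c := 2) (cn := .dn) (n1 := ndB1q1) (n2 := ndB2q1) (pc := pcB2) (cut := Cut.none) (xt := Ext.none) (P1 := 536870912) (W1 := 536870912) (P2 := 536870912) (W2 := 536870912) (P3 := 697932185) (W3 := 42949674) (N0 := 3) (En := eng) (mo := mog) (C1 := cd1q1) (C2 := cd2q1) (C3 := pd2)
    rfl k0_pp_112

noncomputable def f_pp_113 : ℕ → ℕ → ℕ → ℕ → Bool := onCell 536870912 536870912 536870912 536870912 697932185 42949674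
    (rowB 3 eng mog cd1q1 cd2q1 pd3 0 true true true .nn 1 1 3 (qsf 536870912 536870912 536870912 536870912 3) ndB1q1 ndB2q1 pcB3 Cut.none Ext.none)

def k0_pp_113 : ∃ t, chk3 f_pp_113 t 1 1 1 = true :=
  ⟨(l 4), by decide +kernel⟩

theorem c_pp_113 : CertB 536870912 536870912 536870912 536870912 697932185 42949674 3 eng mog cd1q1 cd2q1 pd3 true true true .nn 1 1 3
    ndB1q1 ndB2q1 pcB3 Cut.none Ext.none :=
  certB0 (fam := true) (s1 := true) (s2 := true) (a := 1) (b := 1) (c := 3) (cn := .nn) (n1 := ndB1q1) (n2 := ndB2q1) (pc := pcB3) (cut := Cut.none) (xt := Ext.none) (P1 := 536870912) (W1 := 536870912) (P2 := 536870912) (W2 := 536870912) (P3 := 697932185) (W3 := 42949674) (N0 := 3) (En := eng) (mo := mog) (C1 := cd1q1) (C2 := cd2q1) (C3 := pd3)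
    rfl k0_pp_113

noncomputable def f_pp_123_a : ℕ → ℕ → ℕ → ℕ → Bool := onCell 536870912 536870912 0 536870912 697932185 42949674
    (rowB 3 eng mog cd1q1 cd2q2a pd3 0 true true true .npn 1 2 3 (qsf 536870912 536870912 0 536870912 3) ndB1q1 ndB2q2a pcB3 Cut.none Ext.none)

def k0_pp_123_a : ∃ t, chk3 f_pp_123_a t 1 1 1 = true :=
  ⟨(l 4), by decide +kernel⟩

theorem c_pp_123_a : CertB 536870912 536870912 0 536870912 697932185 42949674 3 eng mog cd1q1 cd2q2a pd3 true true true .npn 1 2 3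
    ndB1q1 ndB2q2a pcB3 Cut.none Ext.none :=
  certB0 (fam := true) (s1 := true) (s2 := true) (a := 1) (b := 2) (c := 3) (cn := .npn) (n1 := ndB1q1) (n2 := ndB2q2a) (pc := pcB3) (cut := Cut.none) (xt := Ext.none) (P1 := 536870912) (W1 := 536870912) (P2 := 0) (W2 := 536870912) (P3 := 697932185) (W3 := 42949674) (N0 := 3) (En := eng) (mo := mog) (C1 := cd1q1) (C2 := cd2q2a) (C3 := pd3)
    rfl k0_pp_123_a

noncomputable def f_pp_123_b : ℕ → ℕ → ℕ → ℕ → Bool := onCell 536870912 536870912 1239849684 370763052 697932185 42949674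
    (rowB 3 eng mog cd1q1 cd2q2b pd3 0 true true true .npn 1 2 3 (qsf 536870912 536870912 1239849684 370763052 3) ndB1q1 ndB2q2b pcB3 Cut.none Ext.none)

def k0_pp_123_b : ∃ t, chk3 f_pp_123_b t 1 1 1 = true :=
  ⟨(a (l 4) (l 4)), by decide +kernel⟩

theorem c_pp_123_b : CertB 536870912 536870912 1239849684 370763052 697932185 42949674 3 eng mog cd1q1 cd2q2b pd3 true true true .npn 1 2 3
    ndB1q1 ndB2q2b pcB3 Cut.none Ext.none :=
  certB0 (fam := true) (s1 := true) (s2 := true) (a := 1) (b := 2) (c := 3) (cn := .npn) (n1 := ndB1q1) (n2 := ndB2q2b) (pc := pcB3) (cut := Cut.none) (xt := Ext.none) (P1 := 536870912) (W1 := 536870912) (P2 := 1239849684) (W2 := 370763052) (P3 := 697932185) (W3 := 42949674) (N0 := 3) (En := eng) (mo := mog) (C1 := cd1q1) (C2 := cd2q2b) (C3 := pd3)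
    rfl k0_pp_123_b

noncomputable def f_pp_133 : ℕ → ℕ → ℕ → ℕ → Bool := onCell 536870912 536870912 1610612736 536870912 697932185 42949674
    (rowB 3 eng mog cd1q1 cd2q3 pd3 0 true true true .dn 1 3 3 (qsf 536870912 536870912 1610612736 536870912 3) ndB1q1 ndB2q3 pcB3 Cut.none Ext.none)

def k0_pp_133 : ∃ t, chk3 f_pp_133 t 1 1 1 = true :=
  ⟨(l 4), by decide +kernel⟩

theorem c_pp_133 : CertB 536870912 536870912 1610612736 536870912 697932185 42949674 3 eng mog cd1q1 cd2q3 pd3 true true true .dn 1 3 3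
    ndB1q1 ndB2q3 pcB3 Cut.none Ext.none :=
  certB0 (fam := true) (s1 := true) (s2 := true) (a := 1) (b := 3) (c := 3) (cn := .dn) (n1 := ndB1q1) (n2 := ndB2q3) (pc := pcB3) (cut := Cut.none) (xt := Ext.none) (P1 := 536870912) (W1 := 536870912) (P2 := 1610612736) (W2 := 536870912) (P3 := 697932185) (W3 := 42949674) (N0 := 3) (En := eng) (mo := mog) (C1 := cd1q1) (C2 := cd2q3) (C3 := pd3)
    rfl k0_pp_133

noncomputable def f_pp_202_a : ℕ → ℕ → ℕ → ℕ → Bool := onCell 0 536870912 0 536870912 697932185 42949674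
    (rowB 3 eng mog cd1q2a cd2q0 pd2 0 true true true .pp 2 0 2 (qsf 0 536870912 0 536870912 2) ndB1q2a ndB2q0 pcB2 Cut.none Ext.none)

def k0_pp_202_a : ∃ t, chk3 f_pp_202_a t 1 1 1 = true :=
  ⟨(l 5), by decide +kernel⟩

theorem c_pp_202_a : CertB 0 536870912 0 536870912 697932185 42949674 3 eng mog cd1q2a cd2q0 pd2 true true true .pp 2 0 2
    ndB1q2a ndB2q0 pcB2 Cut.none Ext.none :=
  certB0 (fam := true) (s1 := true) (s2 := true) (a := 2) (b := 0) (c := 2) (cn := .pp) (n1 := ndB1q2a) (n2 := ndB2q0) (pc := pcB2) (cut := Cut.none) (xt := Ext.none) (P1 := 0) (W1 := 536870912) (P2 := 0) (W2 := 536870912) (P3 := 697932185) (W3 := 42949674) (N0 := 3) (En := eng) (mo := mog) (C1 := cd1q2a) (C2 := cd2q0) (C3 := pd2)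
    rfl k0_pp_202_a

noncomputable def f_pp_202_b : ℕ → ℕ → ℕ → ℕ → Bool := onCell 1239849684 370763052 0 536870912 697932185 42949674
    (rowB 3 eng mog cd1q2b cd2q0 pd2 0 true true true .pp 2 0 2 (qsf 1239849684 370763052 0 536870912 2) ndB1q2b ndB2q0 pcB2 Cut.none Ext.none)

def k0_pp_202_b : ∃ t, chk3 f_pp_202_b t 1 1 1 = true :=
  ⟨(l 5), by decide +kernel⟩

theorem c_pp_202_b : CertB 1239849684 370763052 0 536870912 697932185 42949674 3 eng mog cd1q2b cd2q0 pd2 true true true .pp 2 0 2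
    ndB1q2b ndB2q0 pcB2 Cut.none Ext.none :=
  certB0 (fam := true) (s1 := true) (s2 := true) (a := 2) (b := 0) (c := 2) (cn := .pp) (n1 := ndB1q2b) (n2 := ndB2q0) (pc := pcB2) (cut := Cut.none) (xt := Ext.none) (P1 := 1239849684) (W1 := 370763052) (P2 := 0) (W2 := 536870912) (P3 := 697932185) (W3 := 42949674) (N0 := 3) (En := eng) (mo := mog) (C1 := cd1q2b) (C2 := cd2q0) (C3 := pd2)
    rfl k0_pp_202_b

noncomputable def f_pp_203_a : ℕ → ℕ → ℕ → ℕ → Bool := onCell 0 536870912 0 536870912 697932185 42949674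
    (rowB 3 eng mog cd1q2a cd2q0 pd3 0 true true true .up 2 0 3 (qsf 0 536870912 0 536870912 3) ndB1q2a ndB2q0 pcB3 Cut.none Ext.none)

def k0_pp_203_a : ∃ t, chk3 f_pp_203_a t 1 1 1 = true :=
  ⟨(l 5), by decide +kernel⟩

theorem c_pp_203_a : CertB 0 536870912 0 536870912 697932185 42949674 3 eng mog cd1q2a cd2q0 pd3 true true true .up 2 0 3
    ndB1q2a ndB2q0 pcB3 Cut.none Ext.none :=
  certB0 (fam := true) (s1 := true) (s2 := true) (a := 2) (b := 0) (c := 3) (cn := .up) (n1 := ndB1q2a) (n2 := ndB2q0) (pc := pcB3) (cut := Cut.none) (xt := Ext.none) (P1 := 0) (W1 := 536870912) (P2 := 0) (W2 := 536870912) (P3 := 697932185) (W3 := 42949674) (N0 := 3) (En := eng) (mo := mog) (C1 := cd1q2a) (C2 := cd2q0) (C3 := pd3)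
    rfl k0_pp_203_a

noncomputable def f_pp_203_b : ℕ → ℕ → ℕ → ℕ → Bool := onCell 1239849684 370763052 0 536870912 697932185 42949674
    (rowB 3 eng mog cd1q2b cd2q0 pd3 0 true true true .up 2 0 3 (qsf 1239849684 370763052 0 536870912 3) ndB1q2b ndB2q0 pcB3 Cut.none Ext.none)

def k0_pp_203_b : ∃ t, chk3 f_pp_203_b t 1 1 1 = true :=
  ⟨(l 5), by decide +kernel⟩

theorem c_pp_203_b : CertB 1239849684 370763052 0 536870912 697932185 42949674 3 eng mog cd1q2b cd2q0 pd3 true true true .up 2 0 3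
    ndB1q2b ndB2q0 pcB3 Cut.none Ext.none :=
  certB0 (fam := true) (s1 := true) (s2 := true) (a := 2) (b := 0) (c := 3) (cn := .up) (n1 := ndB1q2b) (n2 := ndB2q0) (pc := pcB3) (cut := Cut.none) (xt := Ext.none) (P1 := 1239849684) (W1 := 370763052) (P2 := 0) (W2 := 536870912) (P3 := 697932185) (W3 := 42949674) (N0 := 3) (En := eng) (mo := mog) (C1 := cd1q2b) (C2 := cd2q0) (C3 := pd3)
    rfl k0_pp_203_b

noncomputable def f_pp_213_a : ℕ → ℕ → ℕ → ℕ → Bool := onCell 0 536870912 536870912 536870912 697932185 42949674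
    (rowB 3 eng mog cd1q2a cd2q1 pd3 0 true true true .pnn 2 1 3 (qsf 0 536870912 536870912 536870912 3) ndB1q2a ndB2q1 pcB3 Cut.none Ext.none)

def k0_pp_213_a : ∃ t, chk3 f_pp_213_a t 1 1 1 = true :=
  ⟨(l 4), by decide +kernel⟩

theorem c_pp_213_a : CertB 0 536870912 536870912 536870912 697932185 42949674 3 eng mog cd1q2a cd2q1 pd3 true true true .pnn 2 1 3
    ndB1q2a ndB2q1 pcB3 Cut.none Ext.none :=
  certB0 (fam := true) (s1 := true) (s2 := true) (a := 2) (b := 1) (c := 3) (cn := .pnn) (n1 := ndB1q2a) (n2 := ndB2q1) (pc := pcB3) (cut := Cut.none) (xt := Ext.none) (P1 := 0) (W1 := 536870912) (P2 := 536870912) (W2 := 536870912) (P3 := 697932185) (W3 := 42949674) (N0 := 3) (En := eng) (mo := mog) (C1 := cd1q2a) (C2 := cd2q1) (C3 := pd3)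
    rfl k0_pp_213_a

noncomputable def f_pp_213_b : ℕ → ℕ → ℕ → ℕ → Bool := onCell 1239849684 370763052 536870912 536870912 697932185 42949674
    (rowB 3 eng mog cd1q2b cd2q1 pd3 0 true true true .pnn 2 1 3 (qsf 1239849684 370763052 536870912 536870912 3) ndB1q2b ndB2q1 pcB3 Cut.none Ext.none)

def k0_pp_213_b : ∃ t, chk3 f_pp_213_b t 1 1 1 = true :=
  ⟨(l 4), by decide +kernel⟩

theorem c_pp_213_b : CertB 1239849684 370763052 536870912 536870912 697932185 42949674 3 eng mog cd1q2b cd2q1 pd3 true true true .pnn 2 1 3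
    ndB1q2b ndB2q1 pcB3 Cut.none Ext.none :=
  certB0 (fam := true) (s1 := true) (s2 := true) (a := 2) (b := 1) (c := 3) (cn := .pnn) (n1 := ndB1q2b) (n2 := ndB2q1) (pc := pcB3) (cut := Cut.none) (xt := Ext.none) (P1 := 1239849684) (W1 := 370763052) (P2 := 536870912) (W2 := 536870912) (P3 := 697932185) (W3 := 42949674) (N0 := 3) (En := eng) (mo := mog) (C1 := cd1q2b) (C2 := cd2q1) (C3 := pd3)
    rfl k0_pp_213_b

noncomputable def f_pp_303 : ℕ → ℕ → ℕ → ℕ → Bool := onCell 1610612736 536870912 0 536870912 697932185 42949674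
    (rowB 3 eng mog cd1q3 cd2q0 pd3 0 true true true .npn 3 0 3 (qsf 1610612736 536870912 0 536870912 3) ndB1q3 ndB2q0 pcB3 Cut.none Ext.none)

def k0_pp_303 : ∃ t, chk3 f_pp_303 t 1 1 1 = true :=
  ⟨(l 5), by decide +kernel⟩

theorem c_pp_303 : CertB 1610612736 536870912 0 536870912 697932185 42949674 3 eng mog cd1q3 cd2q0 pd3 true true true .npn 3 0 3
    ndB1q3 ndB2q0 pcB3 Cut.none Ext.none :=
  certB0 (fam := true) (s1 := true) (s2 := true) (a := 3) (b := 0) (c := 3) (cn := .npn) (n1 := ndB1q3) (n2 := ndB2q0) (pc := pcB3) (cut := Cut.none) (xt := Ext.none) (P1 := 1610612736) (W1 := 536870912) (P2 := 0) (W2 := 536870912) (P3 := 697932185) (W3 := 42949674) (N0 := 3) (En := eng) (mo := mog) (C1 := cd1q3) (C2 := cd2q0) (C3 := pd3)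
    rfl k0_pp_303

noncomputable def f_pp_313 : ℕ → ℕ → ℕ → ℕ → Bool := onCell 1610612736 536870912 536870912 536870912 697932185 42949674
    (rowB 3 eng mog cd1q3 cd2q1 pd3 0 true true true .dn 3 1 3 (qsf 1610612736 536870912 536870912 536870912 3) ndB1q3 ndB2q1 pcB3 Cut.none Ext.none)

def k0_pp_313 : ∃ t, chk3 f_pp_313 t 1 1 1 = true :=
  ⟨(l 4), by decide +kernel⟩

theorem c_pp_313 : CertB 1610612736 536870912 536870912 536870912 697932185 42949674 3 eng mog cd1q3 cd2q1 pd3 true true true .dn 3 1 3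
    ndB1q3 ndB2q1 pcB3 Cut.none Ext.none :=
  certB0 (fam := true) (s1 := true) (s2 := true) (a := 3) (b := 1) (c := 3) (cn := .dn) (n1 := ndB1q3) (n2 := ndB2q1) (pc := pcB3) (cut := Cut.none) (xt := Ext.none) (P1 := 1610612736) (W1 := 536870912) (P2 := 536870912) (W2 := 536870912) (P3 := 697932185) (W3 := 42949674) (N0 := 3) (En := eng) (mo := mog) (C1 := cd1q3) (C2 := cd2q1) (C3 := pd3)
    rfl k0_pp_313

noncomputable def f_pm_001 : ℕ → ℕ → ℕ → ℕ → Bool := onCell 0 536870912 0 536870912 697932185 42949674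
    (rowB 3 eng mog cd1q0 cd2q0 pd1 0 true true false .up 0 0 1 (qsf 0 536870912 0 536870912 1) ndB1q0 ndB2q0 pcB1 Cut.none Ext.none)

def k0_pm_001 : ∃ t, chk3 f_pm_001 t 1 1 1 = true :=
  ⟨(l 3), by decide +kernel⟩

theorem c_pm_001 : CertB 0 536870912 0 536870912 697932185 42949674 3 eng mog cd1q0 cd2q0 pd1 true true false .up 0 0 1
    ndB1q0 ndB2q0 pcB1 Cut.none Ext.none :=
  certB0 (fam := true) (s1 := true) (s2 := false) (a := 0) (b := 0) (c := 1) (cn := .up) (n1 := ndB1q0) (n2 := ndB2q0) (pc := pcB1) (cut := Cut.none) (xt := Ext.none) (P1 := 0) (W1 := 536870912) (P2 := 0) (W2 := 536870912) (P3 := 697932185) (W3 := 42949674) (N0 := 3) (En := eng) (mo := mog) (C1 := cd1q0) (C2 := cd2q0) (C3 := pd1)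
    rfl k0_pm_001

noncomputable def f_pm_011 : ℕ → ℕ → ℕ → ℕ → Bool := onCell 0 536870912 536870912 536870912 697932185 42949674
    (rowB 3 eng mog cd1q0 cd2q1 pd1 1 true true false .pnn 0 1 1 (qsf 0 536870912 536870912 536870912 1) ndB1q0 ndB2q1 pcB1 Cut.none Ext.none)

def k0_pm_011 : ∃ t, chk3 f_pm_011 t 1 1 1 = true :=
  ⟨(l 3), by decide +kernel⟩

theorem c_pm_011 : CertB 0 536870912 536870912 536870912 697932185 42949674 3 eng mog cd1q0 cd2q1 pd1 true true false .pnn 0 1 1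
    ndB1q0 ndB2q1 pcB1 Cut.none Ext.none :=
  certB1 (fam := true) (s1 := true) (s2 := false) (a := 0) (b := 1) (c := 1) (cn := .pnn) (n1 := ndB1q0) (n2 := ndB2q1) (pc := pcB1) (cut := Cut.none) (xt := Ext.none) (P1 := 0) (W1 := 536870912) (P2 := 536870912) (W2 := 536870912) (P3 := 697932185) (W3 := 42949674) (N0 := 3) (En := eng) (mo := mog) (C1 := cd1q0) (C2 := cd2q1) (C3 := pd1)
    rfl (fun _ => rfl) k0_pm_011

noncomputable def f_pm_012 : ℕ → ℕ → ℕ → ℕ → Bool := onCell 1073741824 536870912 536870912 536870912 697932185 42949674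
    (rowB 3 eng mog cd1q0 cd2q1 pd2 2 true true false .pnp 0 1 2 (qsf 0 536870912 536870912 536870912 2) ndB1q0 ndB2q1 pcB2 Cut.none Ext.none)

def k0_pm_012 : ∃ t, chk3 f_pm_012 t 2 1 1 = true :=
  ⟨(a (b (l 3) (b (l 3) (l 3))) (a (a (a (b (b (a (l 3) (l 2)) (l 3)) (b (l 3) (b (l 3) (a (b (l 3) (a (l 3) (l 16585496))) (b (l 16585480) (a (l 16578104) (l 16570144))))))) (b (b (l 2) (a (l 3) (a (b (l 199346828007) (l 3)) (b (a (b (l 16710824) (l 16680408)) (l 16642240)) (a (b (l 16649800) (l 3)) (l 16622112)))))) (a (b (l 3) (b (b (a (l 3) (l 16577208)) (a (l 16577136) (l 16570160))) (b (a (l 16548752) (l 16583736)) (a (l 16562504) (l 16555752))))) (b (a (b (l 3) (a (l 16585840) (l 16582976))) (b (a (a (l 16602520) (l 16601448)) (l 16599832)) (a (a (l 16580864) (b (l 16584456) (l 16574208))) (b (l 16582480) (l 16613920))))) (a (b (b (a (l 16572328) (l 16569112)) (a (l 16564936) (l 16561592))) (b (l 16556336) (l 16549376))) (b (a (a (a (l 16563232) (l 16562424))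 (l 16561192)) (b (l 16562744) (l 16554896))) (a (b (l 16551648) (l 16544552)) (b (b (l 16550320) (l 16567312)) (l 16541384))))))))) (b (b (l 2) (b (l 16632568) (l 16608464))) (b (b (l 16582360) (b (l 16561656) (l 16548480))) (b (b (l 16536536) (l 16526304)) (b (l 16581136) (l 16511936)))))) (b (b (l 2) (b (l 16612480) (l 16577824))) (b (b (l 16604248) (b (l 16512328) (l 16492632))) (b (b (l 16515488) (a (l 16477584) (l 16435976))) (b (a (l 16465528) (l 16419016)) (a (l 16457968) (l 16407528)))))))), by decide +kernel⟩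

def k1_pm_012 : ∃ t, chk3 f_pm_012 t 3 1 1 = true :=
  ⟨(b (a (b (l 2) (a (b (l 2) (l 16555480)) (l 2))) (l 2)) (b (a (a (b (l 16505984) (b (l 16467000) (l 16440224))) (b (l 16493328) (l 16428648))) (b (l 2) (a (l 16427816) (l 2)))) (a (b (a (b (l 16413200) (l 16386984)) (l 16361584)) (a (b (a (l 16379632) (l 16347544)) (a (l 16363008) (l 16325104))) (b (l 16312432) (l 16282840)))) (b (a (l 16348184) (l 16360400)) (a (b (l 16288560) (l 16251384)) (l 16269568)))))), by decide +kernel⟩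

theorem s2_pm_012 : ∃ t, chk3 f_pm_012 t 1 1 1 = true := ex3_a k0_pm_012 k1_pm_012

theorem c_pm_012 : CertB 0 536870912 536870912 536870912 697932185 42949674 3 eng mog cd1q0 cd2q1 pd2 true true false .pnp 0 1 2
    ndB1q0 ndB2q1 pcB2 Cut.none Ext.none :=
  certB2 (fam := true) (s1 := true) (s2 := false) (a := 0) (b := 1) (c := 2) (cn := .pnp) (n1 := ndB1q0) (n2 := ndB2q1) (pc := pcB2) (cut := Cut.none) (xt := Ext.none) (P1 := 0) (W1 := 536870912) (P2 := 536870912) (W2 := 536870912) (P3 := 697932185) (W3 := 42949674) (N0 := 3) (En := eng) (mo := mog) (C1 := cd1q0) (C2 := cd2q1) (C3 := pd2)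
    rfl (fun _ => rfl) s2_pm_012

noncomputable def cut_pm_022_a : Cut := Cut.of [[⟨0, 0, 0, 67108864⟩, ⟨1, 1, 0, 67108864⟩, ⟨2, 1, 0, 67108864⟩]]

noncomputable def f_pm_022_a : ℕ → ℕ → ℕ → ℕ → Bool := onCell 1073741824 536870912 0 536870912 697932185 42949674
    (rowB 3 eng mog cd1q0 cd2q2a pd2 2 true true false .pp 0 2 2 (qsf 0 536870912 0 536870912 2) ndB1q0 ndB2q2a pcB2 cut_pm_022_a Ext.none)

def k0_pm_022_a : ∃ t, chk3 f_pm_022_a t 2 2 1 = true :=
  ⟨(a (a (l 1) (b (l 1) (a (l 1) (b (l 1) (a (l 1) (b (l 1) (l 59625693111))))))) (a (b (a (a (l 1) (b (c (l 16447152) (l 16433208)) (b (l 16447376) (a (l 16453128) (a (l 16458080) (c (l 16466632) (l 16454032))))))) (b (a (b (b (l 16537040) (l 16453128)) (l 16543800)) (b (l 16454976) (l 16455840))) (a (b (l 16459776) (l 16561784)) (l 16526920)))) (a (a (b (b (l 73047265975) (l 16461216)) (b (l 16495872) (l 16517608))) (a (b (b (l 16461248) (l 16470560)) (b (l 16482808) (l 16497704))) (b (a (l 16470752) (a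 (l 16472936) (l 16474280))) (a (l 16493648) (a (l 16494944) (l 16495552)))))) (a (b (b (l 16538792) (l 16484000)) (b (l 16493712) (l 16505784))) (b (b (l 16475424) (l 16483680)) (l 16498240))))) (b (b (a (c (a (l 16456096) (l 16453888)) (a (l 16446048) (l 16443616))) (a (b (l 16448688) (l 16447648)) (b (l 16449256) (l 16447648)))) (a (b (a (l 16454944) (l 16451432)) (a (l 16461296) (l 16456752))) (b (a (l 16449384) (l 16448608)) (a (l 16453704) (l 16452128))))) (b (a (b (a (l 16470016) (l 16464608)) (l 16475000)) (b (a (l 16460512) (l 16458304)) (a (l 16468312) (l 16466512)))) (a (b (l 16482944) (l 16492760)) (l 16481008)))))), by decide +kernel⟩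

def k1_pm_022_a : ∃ t, chk3 f_pm_022_a t 4 3 1 = true :=
  ⟨(a (b (l 1) (a (b (l 1) (l 6)) (a (b (b (l 1) (l 6)) (l 6)) (a (b (b (l 1) (l 6)) (l 6)) (b (b (b (l 1) (a (l 16630448) (l 16619728))) (b (a (l 6) (l 16638152)) (l 16656960))) (b (b (l 16654488) (l 16693368)) (b (l 16695944) (b (l 16695720) (l 16695248))))))))) (b (b (a (l 1) (a (b (l 16515392) (a (l 16518648) (l 16521928))) (b (a (l 16500944) (l 16504936)) (a (l 16524944) (l 16527680))))) (a (a (b (l 1) (a (l 1) (b (l 16565536) (l 16582984)))) (b (a (l 16542608) (b (l 16537200) (l 16552568))) (a (b (l 16567016) (l 16583704)) (b (l 16568288) (l 16584216))))) (a (b (a (b (l 16539712) (l 16554376)) (l 16549048)) (b (l 16569760) (l 16584536))) (b (a (l 16550696) (l 16552064)) (a (l 16577640) (l 16577520)))))) (b (a (b (a (a (b (l 16600616) (b (l 16614648) (l 16623864))) (b (l 16600720) (l 16618568))) (b (l 16600496) (a (l 16617672) (l 16616552)))) (a (b (a (l 16637112) (l 16635592)) (a (l 16654784) (l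 16652448))) (b (l 16632936) (l 16648552)))) (a (b (b (l 16599480) (l 16614432)) (l 16635768)) (b (l 16604176) (l 16618000)))) (b (a (a (b (l 16670840) (l 16679800)) (a (l 16664072) (l 16654208))) (a (b (l 16639008) (l 16640392)) (b (l 16620744) (l 16622016)))) (a (b (a (a (l 16685568) (l 16675344)) (l 16660408)) (a (b (l 16680296) (l 16700832)) (a (l 16665016) (l 16655224)))) (a (b (l 16641176) (a (l 16645600) (l 16635536))) (b (l 16642760) (a (l 16624808) (l 16613896))))))))), by decide +kernel⟩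

def k2_pm_022_a : ∃ t, chk3 f_pm_022_a t 5 3 1 = true :=
  ⟨(b (a (a (a (b (b (l 16533848) (a (l 16530096) (l 16532152))) (b (l 16532424) (l 16576584))) (b (a (b (l 16514816) (l 16533720)) (a (l 16525864) (b (l 16516728) (l 16533744)))) (a (l 16564816) (a (l 16563880) (a (l 16562896) (l 16561696)))))) (a (b (b (l 16519800) (l 16535328)) (b (l 16551856) (l 16561008))) (b (l 16523416) (l 16548688)))) (b (a (b (l 16504448) (l 16518000)) (l 16503536)) (b (l 16611200) (l 16598536)))) (a (a (b (a (b (l 16595496) (l 16601032)) (a (b (l 16583832) (l 16588968)) (a (b (l 16578712) (l 16583392)) (b (l 16577136) (a (l 16581168) (l 16580376)))))) (a (b (b (l 16603200) (l 16603168)) (b (l 16601592) (a (l 16603472) (l 16593592)))) (a (b (l 16589624) (b (l 16587424) (l 16584512))) (b (a (l 16583456) (a (l 16581152) (l 16601424))) (a (b (l 16581304) (l 16578424)) (a (b (l 16579064) (l 16576232)) (a (a (a (l 16577400) (b (l 16579248) (l 16576480))) (l 16577640)) (l 16576768))))))))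 (b (b (a (l 16567024) (l 16555816)) (a (a (l 16574784) (l 16566024)) (l 16557560))) (b (a (a (l 16574800) (l 16565904)) (l 16556440)) (a (b (l 16589248) (a (l 16570008) (l 16581968))) (b (l 16553616) (l 16550320)))))) (b (b (a (l 16543584) (l 16527472)) (a (l 16543040) (l 16524048))) (b (a (l 16560592) (l 16538328)) (a (a (l 16560320) (l 16547592)) (b (l 16509864) (l 16523888))))))), by decide +kernel⟩

def k3_pm_022_a : ∃ t, chk3 f_pm_022_a t 3 1 1 = true :=
  ⟨(a (b (a (b (b (b (a (a (l 16452216) (l 16459424)) (l 16471352)) (a (a (l 16450368) (l 16457112)) (l 16468304))) (a (b (l 16454184) (l 16457168)) (b (l 16467384) (l 16468496)))) (b (a (b (l 16462400) (l 16469352)) (l 16515696)) (a (l 16534088) (b (l 16480992) (l 16486512))))) (b (b (a (a (l 16503176) (b (l 16491848) (l 16487816))) (a (l 16497160) (l 16505528))) (a (a (l 16478352) (l 16485064)) (a (l 16491424) (l 16499712)))) (b (a (a (l 16480568) (l 16485328)) (l 16494864)) (a (a (l 16486776) (l 16510520))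 (l 16538576))))) (b (b (a (a (l 16498992) (l 16495448)) (a (l 16494792) (l 16496472))) (a (a (l 16515392) (l 16504560)) (l 16490344))) (b (a (a (b (l 16511448) (l 16504952)) (l 16512952)) (b (l 16476632) (l 16485088))) (a (b (a (l 16494832) (l 16474000)) (a (b (l 16484768) (l 16476464)) (l 16478768))) (b (a (l 16456240) (l 16441320)) (a (l 16438272) (l 16421760))))))) (b (b (a (a (b (l 16521920) (l 16514784)) (b (l 16543864) (l 16534696))) (b (l 16575128) (l 16562696))) (a (b (l 16602832) (l 16511840)) (b (l 16548504) (l 16527896)))) (b (a (b (l 16496920) (l 16477088)) (b (l 16492848) (l 16464992))) (a (b (a (l 16454920) (l 16445536)) (b (l 16422480) (a (l 16407472) (l 16395072)))) (b (l 16516944) (b (l 16403024) (l 16380608))))))), by decide +kernel⟩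

theorem s4_pm_022_a : ∃ t, chk3 f_pm_022_a t 2 3 1 = true := ex3_a k1_pm_022_a k2_pm_022_a

theorem s5_pm_022_a : ∃ t, chk3 f_pm_022_a t 2 1 1 = true := ex3_b k0_pm_022_a s4_pm_022_a

theorem s6_pm_022_a : ∃ t, chk3 f_pm_022_a t 1 1 1 = true := ex3_a s5_pm_022_a k3_pm_022_a

theorem c_pm_022_a : CertB 0 536870912 0 536870912 697932185 42949674 3 eng mog cd1q0 cd2q2a pd2 true true false .pp 0 2 2
    ndB1q0 ndB2q2a pcB2 cut_pm_022_a Ext.none :=
  certB2 (fam := true) (s1 := true) (s2 := false) (a := 0) (b := 2) (c := 2) (cn := .pp) (n1 := ndB1q0) (n2 := ndB2q2a) (pc := pcB2) (cut := cut_pm_022_a) (xt := Ext.none) (P1 := 0) (W1 := 536870912) (P2 := 0) (W2 := 536870912) (P3 := 697932185) (W3 := 42949674) (N0 := 3) (En := eng) (mo := mog) (C1 := cd1q0) (C2 := cd2q2a) (C3 := pd2)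
    rfl (fun _ => rfl) s6_pm_022_a

noncomputable def cut_pm_022_b : Cut := Cut.of [[⟨0, 0, 0, 67108864⟩, ⟨1, 1, 0, 67108864⟩, ⟨2, 1, 0, 67108864⟩]]

noncomputable def f_pm_022_b : ℕ → ℕ → ℕ → ℕ → Bool := onCell 1073741824 536870912 1239849684 370763052 697932185 42949674
    (rowB 3 eng mog cd1q0 cd2q2b pd2 2 true true false .pp 0 2 2 (qsf 0 536870912 1239849684 370763052 2) ndB1q0 ndB2q2b pcB2 cut_pm_022_b Ext.none)

def k0_pm_022_b : ∃ t, chk3 f_pm_022_b t 1 1 1 = true :=
  ⟨(a (b (a (l 1) (a (b (b (a (a (l 1) (b (l 16408640) (l 1))) (a (b (b (a (l 16435032) (l 16441544)) (l 16408040)) (l 1)) (b (c (l 16431112) (l 16420200)) (l 16408160)))) (l 1)) (l 1)) (b (a (b (a (b (l 16465784) (b (l 16380296) (l 16350600))) (b (c (l 16428064) (l 16416872)) (l 16366464))) (a (l 16295384) (b (l 16307800) (l 1)))) (b (b (a (l 16423536) (l 16425280)) (l 16391440)) (b (l 16314480) (l 16256544)))) (a (l 1) (b (a (l 1) (l 16171624)) (l 1)))))) (l 1)) (b (a (a (b (b (a (b (a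 (l 16428624) (l 16434888)) (l 16400696)) (b (a (l 16443712) (l 16453336)) (l 16438264))) (a (b (l 16327280) (l 16272928)) (b (l 16344128) (l 16292680)))) (a (b (b (l 16216760) (l 16159088)) (l 1)) (b (l 16213304) (l 16102304)))) (b (a (b (a (l 16512328) (b (l 16472480) (l 16425432))) (a (l 16336040) (l 16349320))) (b (b (l 16506584) (l 16441744)) (l 16370504))) (a (b (l 16261352) (l 16135912)) (b (l 16270032) (l 16170360))))) (a (b (a (b (l 16549768) (l 16399568)) (b (l 16512656) (l 16430040))) (a (l 16341896) (l 16297288))) (b (a (l 16629840) (l 16659064)) (a (l 16338824) (l 16381776))))) (a (b (a (l 1) (a (b (l 16026640) (l 1)) (b (l 16068232) (l 15962488)))) (l 1)) (a (b (a (l 16063560) (l 16112032)) (a (l 1) (l 15925712))) (b (a (l 16162728) (l 16215080)) (a (l 15989368) (l 16052424))))))), by decide +kernel⟩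

theorem c_pm_022_b : CertB 0 536870912 1239849684 370763052 697932185 42949674 3 eng mog cd1q0 cd2q2b pd2 true true false .pp 0 2 2
    ndB1q0 ndB2q2b pcB2 cut_pm_022_b Ext.none :=
  certB2 (fam := true) (s1 := true) (s2 := false) (a := 0) (b := 2) (c := 2) (cn := .pp) (n1 := ndB1q0) (n2 := ndB2q2b) (pc := pcB2) (cut := cut_pm_022_b) (xt := Ext.none) (P1 := 0) (W1 := 536870912) (P2 := 1239849684) (W2 := 370763052) (P3 := 697932185) (W3 := 42949674) (N0 := 3) (En := eng) (mo := mog) (C1 := cd1q0) (C2 := cd2q2b) (C3 := pd2)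
    rfl (fun _ => rfl) k0_pm_022_b

noncomputable def f_pm_023_a : ℕ → ℕ → ℕ → ℕ → Bool := onCell 1610612736 536870912 0 536870912 697932185 42949674
    (rowB 3 eng mog cd1q0 cd2q2a pd3 2 true true false .up 0 2 3 (qsf 0 536870912 0 536870912 3) ndB1q0 ndB2q2a pcB3 Cut.none Ext.none)

def k0_pm_023_a : ∃ t, chk3 f_pm_023_a t 1 1 1 = true :=
  ⟨(a (b (a (b (a (b (a (l 16603792) (l 16617176)) (l 16594624)) (a (l 16609992) (l 16649048))) (a (a (l 16554688) (l 16548904)) (l 16595080))) (a (b (a (l 16681376) (l 16709384)) (a (a (l 16641800) (l 16652128)) (l 2))) (l 2))) (b (a (a (b (l 16485976) (l 16454528)) (b (l 16560280) (l 16531352))) (l 2)) (a (a (b (l 16489488) (b (l 16401544) (l 16383992))) (b (l 16498888) (l 2))) (l 2)))) (l 2)), by decide +kernel⟩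

theorem c_pm_023_a : CertB 0 536870912 0 536870912 697932185 42949674 3 eng mog cd1q0 cd2q2a pd3 true true false .up 0 2 3
    ndB1q0 ndB2q2a pcB3 Cut.none Ext.none :=
  certB2 (fam := true) (s1 := true) (s2 := false) (a := 0) (b := 2) (c := 3) (cn := .up) (n1 := ndB1q0) (n2 := ndB2q2a) (pc := pcB3) (cut := Cut.none) (xt := Ext.none) (P1 := 0) (W1 := 536870912) (P2 := 0) (W2 := 536870912) (P3 := 697932185) (W3 := 42949674) (N0 := 3) (En := eng) (mo := mog) (C1 := cd1q0) (C2 := cd2q2a) (C3 := pd3)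
    rfl (fun _ => rfl) k0_pm_023_a

noncomputable def f_pm_023_b : ℕ → ℕ → ℕ → ℕ → Bool := onCell 1610612736 536870912 1239849684 370763052 697932185 42949674
    (rowB 3 eng mog cd1q0 cd2q2b pd3 2 true true false .up 0 2 3 (qsf 0 536870912 1239849684 370763052 3) ndB1q0 ndB2q2b pcB3 Cut.none Ext.none)

def k0_pm_023_b : ∃ t, chk3 f_pm_023_b t 1 1 1 = true :=
  ⟨(a (a (b (a (b (b (a (l 16590440) (l 16613392)) (l 16553656)) (a (l 16427192) (l 16473720))) (b (b (l 16622696) (l 16608008)) (l 16534520))) (a (b (l 16291720) (l 16127368)) (b (l 16388456) (l 16222968)))) (b (a (b (b (l 16689368) (l 16640296)) (l 16603408)) (b (l 16777296) (l 16666912))) (a (b (l 16489232) (l 16339728)) (b (l 16585648) (l 16470192))))) (a (b (b (l 2) (a (l 111769966727) (l 4))) (a (b (l 16665240) (l 4)) (l 4))) (l 4))), by decide +kernel⟩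

theorem c_pm_023_b : CertB 0 536870912 1239849684 370763052 697932185 42949674 3 eng mog cd1q0 cd2q2b pd3 true true false .up 0 2 3
    ndB1q0 ndB2q2b pcB3 Cut.none Ext.none :=
  certB2 (fam := true) (s1 := true) (s2 := false) (a := 0) (b := 2) (c := 3) (cn := .up) (n1 := ndB1q0) (n2 := ndB2q2b) (pc := pcB3) (cut := Cut.none) (xt := Ext.none) (P1 := 0) (W1 := 536870912) (P2 := 1239849684) (W2 := 370763052) (P3 := 697932185) (W3 := 42949674) (N0 := 3) (En := eng) (mo := mog) (C1 := cd1q0) (C2 := cd2q2b) (C3 := pd3)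
    rfl (fun _ => rfl) k0_pm_023_b

noncomputable def f_pm_033 : ℕ → ℕ → ℕ → ℕ → Bool := onCell 0 536870912 1610612736 536870912 697932185 42949674
    (rowB 3 eng mog cd1q0 cd2q3 pd3 1 true true false .pnn 0 3 3 (qsf 0 536870912 1610612736 536870912 3) ndB1q0 ndB2q3 pcB3 Cut.none Ext.none)

def k0_pm_033 : ∃ t, chk3 f_pm_033 t 1 1 1 = true :=
  ⟨(a (b (b (b (a (a (l 16051784) (l 16170600)) (l 1)) (a (l 16083240) (l 16590872))) (b (a (l 16082080) (l 16330840)) (a (l 16136576) (l 16355016)))) (l 4)) (b (b (l 1) (b (l 1) (a (l 263636871239) (l 1)))) (b (b (a (l 4) (l 1)) (l 4)) (l 4)))), by decide +kernel⟩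

theorem c_pm_033 : CertB 0 536870912 1610612736 536870912 697932185 42949674 3 eng mog cd1q0 cd2q3 pd3 true true false .pnn 0 3 3
    ndB1q0 ndB2q3 pcB3 Cut.none Ext.none :=
  certB1 (fam := true) (s1 := true) (s2 := false) (a := 0) (b := 3) (c := 3) (cn := .pnn) (n1 := ndB1q0) (n2 := ndB2q3) (pc := pcB3) (cut := Cut.none) (xt := Ext.none) (P1 := 0) (W1 := 536870912) (P2 := 1610612736) (W2 := 536870912) (P3 := 697932185) (W3 := 42949674) (N0 := 3) (En := eng) (mo := mog) (C1 := cd1q0) (C2 := cd2q3) (C3 := pd3)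
    rfl (fun _ => rfl) k0_pm_033

noncomputable def f_pm_101 : ℕ → ℕ → ℕ → ℕ → Bool := onCell 536870912 536870912 0 536870912 697932185 42949674
    (rowB 3 eng mog cd1q1 cd2q0 pd1 2 true true false .npn 1 0 1 (qsf 536870912 536870912 0 536870912 1) ndB1q1 ndB2q0 pcB1 Cut.none Ext.none)

def k0_pm_101 : ∃ t, chk3 f_pm_101 t 1 1 1 = true :=
  ⟨(b (l 3) (l 3)), by decide +kernel⟩

theorem c_pm_101 : CertB 536870912 536870912 0 536870912 697932185 42949674 3 eng mog cd1q1 cd2q0 pd1 true true false .npn 1 0 1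
    ndB1q1 ndB2q0 pcB1 Cut.none Ext.none :=
  certB2 (fam := true) (s1 := true) (s2 := false) (a := 1) (b := 0) (c := 1) (cn := .npn) (n1 := ndB1q1) (n2 := ndB2q0) (pc := pcB1) (cut := Cut.none) (xt := Ext.none) (P1 := 536870912) (W1 := 536870912) (P2 := 0) (W2 := 536870912) (P3 := 697932185) (W3 := 42949674) (N0 := 3) (En := eng) (mo := mog) (C1 := cd1q1) (C2 := cd2q0) (C3 := pd1)
    rfl (fun _ => rfl) k0_pm_101

noncomputable def f_pm_102 : ℕ → ℕ → ℕ → ℕ → Bool := onCell 536870912 536870912 1073741824 536870912 697932185 42949674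
    (rowB 3 eng mog cd1q1 cd2q0 pd2 1 true true false .npp 1 0 2 (qsf 536870912 536870912 0 536870912 2) ndB1q1 ndB2q0 pcB2 Cut.none Ext.none)

def k0_pm_102 : ∃ t, chk3 f_pm_102 t 1 4 1 = true :=
  ⟨(b (a (l 3) (a (l 3) (b (l 3) (a (l 3) (b (l 3) (a (b (l 3) (l 180019503031)) (a (a (l 158007756759) (b (l 3) (l 16722152))) (b (a (l 16714808) (l 59760332231)) (b (a (l 16705760) (l 16699176)) (a (l 16701248) (l 16696272))))))))))) (a (b (l 3) (a (l 3) (b (l 3) (b (l 3) (a (l 3) (b (l 3) (l 16697608))))))) (b (a (b (l 3) (a (l 3) (b (l 3) (l 79624463303)))) (a (b (a (l 3) (l 38822530839)) (a (b (l 16748648) (l 16715656)) (b (a (l 16738440) (l 16727656)) (a (l 16704616) (l 16717416))))) (a (b (b (l 16753376) (a (l 16723768) (l 16667040))) (b (a (l 16713344) (l 16658616)) (l 16697584))) (b (a (b (b (l 16665192) (l 16702816)) (l 16675680)) (b (b (l 16653200) (l 16690584)) (l 16639680))) (a (b (l 16633440) (l 16675472)) (l 16644488)))))) (a (b (a (l 3) (a (b (l 3)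 (l 16730936)) (b (l 16735528) (l 16745720)))) (a (a (b (l 16710848) (b (l 16711384) (l 16710592))) (b (l 16723184) (b (l 16720264) (l 16716896)))) (b (a (l 16780696) (b (l 16716416) (l 16710896))) (a (l 16734544) (l 16702256))))) (a (b (a (b (a (l 16727568) (l 16720544)) (l 16711840)) (b (l 16709064) (l 16696064))) (a (b (l 16741600) (l 16687280)) (l 16676320))) (a (b (a (l 16687784) (l 16674256)) (a (l 16663136) (l 16589552))) (b (a (l 16659096) (l 16643784)) (b (l 16635632) (l 16625024))))))))), by decide +kernel⟩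

def k1_pm_102 : ∃ t, chk3 f_pm_102 t 1 5 1 = true :=
  ⟨(b (b (b (a (a (l 3) (b (a (l 3) (b (l 16697408) (a (l 16693040) (l 16699728)))) (a (b (l 16684464) (l 16682816)) (a (b (l 16691472) (l 16688872)) (b (l 16696592) (l 16693736)))))) (a (a (b (a (b (l 16708392) (l 16705224)) (l 16710680)) (a (l 16699616) (l 16701992))) (a (b (l 16703680) (l 16693952)) (b (l 16691160) (l 16680392)))) (a (a (l 16669848) (b (l 16657752) (l 16646096))) (a (b (l 16639640) (l 16627016)) (b (l 16614888) (l 16604736)))))) (a (a (l 2) (b (a (b (l 16702800) (l 16701496)) (b (a (l 16686496) (l 16690984)) (l 16686896))) (b (a (l 16764008) (a (l 16683840) (l 16686616))) (a (b (l 16721728) (a (l 16678912) (l 16679888))) (b (a (l 16682712) (l 16684760)) (a (l 16681816) (l 16683896))))))) (a (b (a (b (l 16695648) (l 16692168)) (l 16677792)) (b (a (l 16688696) (l 16670632)) (a (b (l 16686288) (a (l 16685248) (l 16683920))) (b (l 16688168) (a (l 16693448) (c (l 16745880) (l 16735464)))))))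 (b (a (a (l 16653392) (l 16634784)) (a (l 16615176) (l 16594904))) (a (b (a (l 16645568) (l 16626408)) (b (l 16653336) (a (l 16639240) (l 16620448)))) (b (a (l 16606976) (l 16588352)) (b (a (l 16603560) (l 16585856)) (a (l 16602000) (l 16585352))))))))) (a (a (l 2) (a (l 16671920) (l 16671936))) (a (a (l 16669064) (a (l 16653064) (l 16635760))) (a (a (l 16617144) (l 16597432)) (a (l 16578192) (a (l 16565200) (l 16556552))))))) (a (a (l 2) (a (l 16736800) (l 16664272))) (a (a (l 16733616) (a (l 16604560) (l 16583448))) (a (a (l 16561760) (l 16539304)) (a (l 16559400) (b (l 16558824) (l 16478016))))))), by decide +kernel⟩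

def k2_pm_102 : ∃ t, chk3 f_pm_102 t 1 3 1 = true :=
  ⟨(a (b (a (l 2) (b (a (l 2) (l 16618648)) (l 2))) (l 2)) (a (b (a (b (l 16591280) (l 16579648)) (b (a (l 16557504) (l 16531640)) (l 16524112))) (a (l 2) (b (l 16550696) (l 2)))) (b (a (b (b (l 16504712) (l 16481632)) (l 16458728)) (b (a (l 16453064) (l 16512904)) (a (l 16410520) (l 16383424)))) (a (b (l 16448968) (l 16462432)) (b (a (l 16389984) (l 16360472)) (l 16375304)))))), by decide +kernel⟩

theorem s3_pm_102 : ∃ t, chk3 f_pm_102 t 1 2 1 = true := ex3_b k0_pm_102 k1_pm_102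

theorem s4_pm_102 : ∃ t, chk3 f_pm_102 t 1 1 1 = true := ex3_b s3_pm_102 k2_pm_102

theorem c_pm_102 : CertB 536870912 536870912 0 536870912 697932185 42949674 3 eng mog cd1q1 cd2q0 pd2 true true false .npp 1 0 2
    ndB1q1 ndB2q0 pcB2 Cut.none Ext.none :=
  certB1 (fam := true) (s1 := true) (s2 := false) (a := 1) (b := 0) (c := 2) (cn := .npp) (n1 := ndB1q1) (n2 := ndB2q0) (pc := pcB2) (cut := Cut.none) (xt := Ext.none) (P1 := 536870912) (W1 := 536870912) (P2 := 0) (W2 := 536870912) (P3 := 697932185) (W3 := 42949674) (N0 := 3) (En := eng) (mo := mog) (C1 := cd1q1) (C2 := cd2q0) (C3 := pd2)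
    rfl (fun _ => rfl) s4_pm_102

noncomputable def f_pm_112 : ℕ → ℕ → ℕ → ℕ → Bool := onCell 536870912 536870912 1073741824 536870912 697932185 42949674
    (rowB 3 eng mog cd1q1 cd2q1 pd2 1 true true false .dn 1 1 2 (qsf 536870912 536870912 536870912 536870912 2) ndB1q1 ndB2q1 pcB2 Cut.none Ext.none)

def k0_pm_112 : ∃ t, chk3 f_pm_112 t 1 1 1 = true :=
  ⟨(a (a (b (b (l 3) (b (b (b (l 3) (b (b (a (l 3) (l 16661720)) (a (l 16651464) (l 16660600))) (b (a (b (l 16649672) (l 16648552)) (b (l 16659560) (l 16659248))) (a (b (b (l 16647552) (l 16646992)) (a (l 16640808) (l 16650464))) (b (b (l 16659064) (l 16658872)) (l 16658424)))))) (a (l 16632624) (l 16649392))) (a (l 16590416) (l 16618560)))) (b (b (a (l 16528160) (l 16571312)) (a (l 16461528) (l 16521160))) (b (a (l 16392320) (l 16470280)) (a (l 16324040) (l 16419336))))) (a (b (b (l 3) (b (b (b (a (b (l 3) (l 85932748487)) (l 1)) (b (b (l 88080259159) (l 73584786759)) (b (a (l 16658456) (l 1)) (b (a (l 16658544)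 (l 1)) (a (l 16679296) (l 248067809111)))))) (l 16651344)) (l 16652200))) (b (b (l 16598744) (l 16566232)) (b (l 16537840) (l 16514768)))) (b (b (l 1) (b (b (l 1) (l 276521901975)) (l 16665856))) (b (b (l 16602192) (l 16584832)) (b (l 16577880) (l 16585064)))))) (b (b (l 1) (b (l 1) (a (a (l 277595709031) (l 1)) (l 1)))) (a (b (a (b (l 16579760) (l 16570720)) (b (l 220150593847) (l 16520552))) (a (l 16674728) (b (l 16530448) (l 16635208)))) (b (a (b (l 1) (l 16457544)) (l 1)) (b (a (l 16454976) (l 171295001351)) (a (l 16476144) (l 16391696))))))), by decide +kernel⟩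

theorem c_pm_112 : CertB 536870912 536870912 536870912 536870912 697932185 42949674 3 eng mog cd1q1 cd2q1 pd2 true true false .dn 1 1 2
    ndB1q1 ndB2q1 pcB2 Cut.none Ext.none :=
  certB1 (fam := true) (s1 := true) (s2 := false) (a := 1) (b := 1) (c := 2) (cn := .dn) (n1 := ndB1q1) (n2 := ndB2q1) (pc := pcB2) (cut := Cut.none) (xt := Ext.none) (P1 := 536870912) (W1 := 536870912) (P2 := 536870912) (W2 := 536870912) (P3 := 697932185) (W3 := 42949674) (N0 := 3) (En := eng) (mo := mog) (C1 := cd1q1) (C2 := cd2q1) (C3 := pd2)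
    rfl (fun _ => rfl) k0_pm_112

noncomputable def f_pm_113 : ℕ → ℕ → ℕ → ℕ → Bool := onCell 536870912 536870912 1610612736 536870912 697932185 42949674
    (rowB 3 eng mog cd1q1 cd2q1 pd3 1 true true false .nn 1 1 3 (qsf 536870912 536870912 536870912 536870912 3) ndB1q1 ndB2q1 pcB3 Cut.none Ext.none)

def k0_pm_113 : ∃ t, chk3 f_pm_113 t 1 1 1 = true :=
  ⟨(a (a (b (b (b (a (l 111232229959) (l 16369336)) (a (b (l 16222880) (l 2)) (l 16335488))) (b (b (a (l 2) (l 16331608)) (l 2)) (l 2))) (l 2)) (a (b (b (b (l 16497088) (l 16487976)) (b (l 16506288) (b (l 228270211959) (l 2)))) (l 2)) (b (b (b (l 16610600) (l 16648040)) (b (l 16670864) (l 16630592))) (b (b (b (l 16628040) (l 2)) (l 2)) (l 2))))) (b (b (a (a (b (l 16672872) (l 16771224)) (b (l 16651040) (l 16808416))) (a (b (l 16556536) (l 16733184)) (b (l 16446320) (l 16608336)))) (b (a (a (l 16798856) (l 16967528)) (b (a (l 16942576) (l 16815200)) (a (l 17091904) (l 16959176)))) (a (a (l 16723864) (a (l 16812360)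 (l 16884184))) (b (a (b (l 17087592) (l 17039256)) (b (l 16983040) (l 16970056))) (a (l 16969608) (l 17005888)))))) (a (b (b (a (l 16680144) (l 16761120)) (a (b (l 247597489639) (l 2)) (a (l 16694904) (l 16719400)))) (b (a (l 2) (b (a (l 2) (l 16693752)) (l 2))) (l 2))) (a (b (b (b (l 16891512) (l 16830376)) (b (l 16777728) (l 16757864))) (b (a (l 16819320) (b (l 16715176) (l 16693688))) (b (a (l 2) (l 16660640)) (l 2)))) (b (b (c (l 17010448) (l 16987680)) (b (l 16878352) (a (l 16792800) (l 16845584)))) (b (b (l 16923696) (l 16766432)) (b (b (l 16745240) (l 16739304)) (b (l 16724104) (b (l 16709728) (b (l 16705152) (b (l 16695600) (l 16683184)))))))))))), by decide +kernel⟩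

theorem c_pm_113 : CertB 536870912 536870912 536870912 536870912 697932185 42949674 3 eng mog cd1q1 cd2q1 pd3 true true false .nn 1 1 3
    ndB1q1 ndB2q1 pcB3 Cut.none Ext.none :=
  certB1 (fam := true) (s1 := true) (s2 := false) (a := 1) (b := 1) (c := 3) (cn := .nn) (n1 := ndB1q1) (n2 := ndB2q1) (pc := pcB3) (cut := Cut.none) (xt := Ext.none) (P1 := 536870912) (W1 := 536870912) (P2 := 536870912) (W2 := 536870912) (P3 := 697932185) (W3 := 42949674) (N0 := 3) (En := eng) (mo := mog) (C1 := cd1q1) (C2 := cd2q1) (C3 := pd3)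
    rfl (fun _ => rfl) k0_pm_113

noncomputable def f_pm_123_a : ℕ → ℕ → ℕ → ℕ → Bool := onCell 1610612736 536870912 0 536870912 697932185 42949674
    (rowB 3 eng mog cd1q1 cd2q2a pd3 2 true true false .npn 1 2 3 (qsf 536870912 536870912 0 536870912 3) ndB1q1 ndB2q2a pcB3 Cut.none Ext.none)

def k0_pm_123_a : ∃ t, chk3 f_pm_123_a t 2 1 1 = true :=
  ⟨(b (a (b (l 1) (a (l 1) (l 16630264))) (a (b (a (l 16703720) (l 16724296)) (a (a (l 16660704) (l 16668960)) (b (l 16701440) (l 16688664)))) (b (l 16759432) (a (a (l 16761568) (l 16733392)) (l 16764536))))) (a (b (a (l 1) (b (l 16583240) (l 16548280))) (a (b (l 16448544) (b (l 16416544) (l 16438672))) (b (l 16514496) (a (l 16461600) (l 16528512))))) (a (a (b (a (b (l 16629256) (l 16610136)) (b (l 16634680) (l 16614232))) (a (b (l 16592800) (b (l 16589240) (l 16596112))) (b (l 16603528) (b (l 16610432) (l 16627760))))) (b (b (l 16679752) (a (l 16655312) (l 16705152))) (b (a (l 16654496) (b (l 16716784) (l 16724240)))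 (a (b (l 16667496) (l 16690848)) (b (l 16740368) (l 16760536)))))) (a (b (b (a (l 16714608) (l 16710456)) (a (a (l 16734248) (l 16718480)) (a (l 16697888) (l 16703512)))) (a (b (a (b (c (l 16773240) (l 16737952)) (l 16769200)) (b (l 16734328) (l 16752016))) (a (a (a (l 16786888) (l 16789080)) (l 16715664)) (b (l 16754488) (l 16758968)))) (b (a (b (l 16701080) (l 16708296)) (l 16697280)) (a (b (l 16720592) (c (l 16752264) (l 16721568))) (l 16729096))))) (b (a (l 16741576) (l 16772200)) (b (a (l 16723432) (l 16755696)) (b (l 16759352) (l 16737216)))))))), by decide +kernel⟩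

def k1_pm_123_a : ∃ t, chk3 f_pm_123_a t 3 1 1 = true :=
  ⟨(b (b (a (a (b (l 16892984) (l 16800440)) (a (l 16864280) (a (l 141968876503) (l 171496736887)))) (l 4)) (a (a (a (l 16806960) (l 16844296)) (a (l 16821912) (l 16790296))) (a (a (a (l 16769584) (l 16755312)) (a (l 112441023991) (b (l 4) (l 16754040)))) (l 4)))) (b (b (a (a (l 16829168) (a (l 16858328) (l 16845976))) (a (a (l 16817504) (l 16824168)) (a (a (l 16754064) (l 4)) (l 4)))) (a (a (l 16824288) (a (l 16865232) (c (l 16859256) (l 16862808)))) (a (a (l 16887264) (a (l 16817504) (l 16798696))) (a (a (l 16781264) (a (l 16767384) (l 16756456))) (a (a (l 405035545879) (l 4)) (l 4)))))) (b (a (a (a (b (l 16796512) (l 16800608)) (l 16846240)) (a (l 16877248) (a (l 16888896) (l 16886000)))) (a (a (l 16867488) (a (l 16839000) (l 16819192))) (a (a (l 16796728) (a (l 16784424) (l 16781304))) (a (a (b (l 16769640) (l 16778128)) (b (l 389466307319) (l 16758432))) (a (a (l 456038295863) (l 4)) (l 4))))))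 (a (a (a (a (l 16810968) (l 16834296)) (a (l 16854240) (l 16829888))) (a (b (l 16888592) (l 16904312)) (a (l 16918064) (l 16899784)))) (a (a (a (l 16878320) (l 16858544)) (a (l 16840232) (l 16823264))) (a (b (a (l 16808600) (l 16793760)) (a (l 16809128) (l 16795008))) (a (a (b (l 16781072) (l 16785632)) (b (l 16775928) (l 16778584))) (a (b (a (l 16770448) (l 16752344)) (a (l 16772344) (b (l 16770320) (l 16770344)))) (a (b (l 4) (l 16758800)) (a (l 661659832615) (l 4))))))))))), by decide +kernel⟩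

theorem s2_pm_123_a : ∃ t, chk3 f_pm_123_a t 1 1 1 = true := ex3_a k0_pm_123_a k1_pm_123_a

theorem c_pm_123_a : CertB 536870912 536870912 0 536870912 697932185 42949674 3 eng mog cd1q1 cd2q2a pd3 true true false .npn 1 2 3
    ndB1q1 ndB2q2a pcB3 Cut.none Ext.none :=
  certB2 (fam := true) (s1 := true) (s2 := false) (a := 1) (b := 2) (c := 3) (cn := .npn) (n1 := ndB1q1) (n2 := ndB2q2a) (pc := pcB3) (cut := Cut.none) (xt := Ext.none) (P1 := 536870912) (W1 := 536870912) (P2 := 0) (W2 := 536870912) (P3 := 697932185) (W3 := 42949674) (N0 := 3) (En := eng) (mo := mog) (C1 := cd1q1) (C2 := cd2q2a) (C3 := pd3)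
    rfl (fun _ => rfl) s2_pm_123_a

noncomputable def f_pm_123_b : ℕ → ℕ → ℕ → ℕ → Bool := onCell 1610612736 536870912 1239849684 370763052 697932185 42949674
    (rowB 3 eng mog cd1q1 cd2q2b pd3 2 true true false .npn 1 2 3 (qsf 536870912 536870912 1239849684 370763052 3) ndB1q1 ndB2q2b pcB3 Cut.none Ext.none)

def k0_pm_123_b : ∃ t, chk3 f_pm_123_b t 1 1 1 = true :=
  ⟨(a (b (a (l 1) (a (b (b (l 16718728) (l 1)) (l 1)) (b (l 16736816) (l 16697352)))) (l 1)) (a (b (b (a (a (l 16757528) (l 16789000)) (l 4)) (a (l 29226056951) (l 4))) (a (l 1) (l 4))) (l 4))), by decide +kernel⟩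

theorem c_pm_123_b : CertB 536870912 536870912 1239849684 370763052 697932185 42949674 3 eng mog cd1q1 cd2q2b pd3 true true false .npn 1 2 3
    ndB1q1 ndB2q2b pcB3 Cut.none Ext.none :=
  certB2 (fam := true) (s1 := true) (s2 := false) (a := 1) (b := 2) (c := 3) (cn := .npn) (n1 := ndB1q1) (n2 := ndB2q2b) (pc := pcB3) (cut := Cut.none) (xt := Ext.none) (P1 := 536870912) (W1 := 536870912) (P2 := 1239849684) (W2 := 370763052) (P3 := 697932185) (W3 := 42949674) (N0 := 3) (En := eng) (mo := mog) (C1 := cd1q1) (C2 := cd2q2b) (C3 := pd3)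
    rfl (fun _ => rfl) k0_pm_123_b

noncomputable def f_pm_133 : ℕ → ℕ → ℕ → ℕ → Bool := onCell 536870912 536870912 1610612736 536870912 697932185 42949674
    (rowB 3 eng mog cd1q1 cd2q3 pd3 0 true true false .dn 1 3 3 (qsf 536870912 536870912 1610612736 536870912 3) ndB1q1 ndB2q3 pcB3 Cut.none Ext.none)

def k0_pm_133 : ∃ t, chk3 f_pm_133 t 1 1 1 = true :=
  ⟨(l 4), by decide +kernel⟩

theorem c_pm_133 : CertB 536870912 536870912 1610612736 536870912 697932185 42949674 3 eng mog cd1q1 cd2q3 pd3 true true false .dn 1 3 3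
    ndB1q1 ndB2q3 pcB3 Cut.none Ext.none :=
  certB0 (fam := true) (s1 := true) (s2 := false) (a := 1) (b := 3) (c := 3) (cn := .dn) (n1 := ndB1q1) (n2 := ndB2q3) (pc := pcB3) (cut := Cut.none) (xt := Ext.none) (P1 := 536870912) (W1 := 536870912) (P2 := 1610612736) (W2 := 536870912) (P3 := 697932185) (W3 := 42949674) (N0 := 3) (En := eng) (mo := mog) (C1 := cd1q1) (C2 := cd2q3) (C3 := pd3)
    rfl k0_pm_133

end Pool.Agent.Strip051.G.I6500_6900.Tab.C.BA12

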