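import Pool.Agent.Strip051.G.I6500_6900.Tab
import Pool.Agent.Strip051.PB.ExtD2

/-! # Certificates B11 (generated) -/

set_option linter.all false
set_option maxRecDepth 100000

namespace Pool.Agent.Strip051.G.I6500_6900.Tab.C.BA12

open Pool.Agent.Strip051.PB Pool.Agent.Strip051.PB.T
open Pool.Agent.Strip051.G.I6500_6900.Tab

noncomputable def cut_pm_202_a : Cut := Cut.of [[⟨0, 1, 0, 67108864⟩, ⟨1, 0, 0, 67108864⟩, ⟨2, 1, 0, 67108864⟩]]

noncomputable def f_pm_202_a : ℕ → ℕ → ℕ → ℕ → Bool := onCell 0 536870912 1073741824 536870912 697932185 42949674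
    (rowB 3 eng mog cd1q2a cd2q0 pd2 1 true true false .pp 2 0 2 (qsf 0 536870912 0 536870912 2) ndB1q2a ndB2q0 pcB2 cut_pm_202_a Ext.none)

def k0_pm_202_a : ∃ t, chk3 f_pm_202_a t 2 2 1 = true :=
  ⟨(b (b (l 1) (a (l 1) (b (l 1) (a (l 1) (b (l 1) (a (l 1) (b (l 1) (l 16516144)))))))) (b (a (b (b (l 1) (a (b (l 1) (l 16450472)) (a (l 16452832) (b (l 16457840) (l 16465144))))) (c (b (a (b (l 16450136) (a (l 16445392) (l 16447736))) (b (l 16458328) (a (l 16430560) (l 16446416)))) (a (a (l 16450000) (l 16452144)) (a (l 16455760) (l 16460952)))) (b (a (l 16475856) (a (l 16461584) (l 16467936))) (a (l 16456664) (l 16466000))))) (b (b (b (a (l 1) (a (c (l 16492552) (l 16478208)) (c (l 16508968) (l 16495544)))) (a (a (l 16462072) (l 16476904)) (a (c (l 16499608) (l 16486456)) (l 16509992)))) (a (a (l 16409912) (l 16445000)) (a (a (l 16498336) (b (l 16505168) (b (l 16501136) (l 16497816)))) (b (l 16516864) (b (l 16511560) (l 16507616)))))) (a (c (b (b (l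 16452344) (a (l 16485280) (l 16473024))) (a (l 16468200) (l 16476760))) (b (a (l 16475736) (l 16484440)) (l 16480656))) (b (a (c (b (l 16486936) (l 16482000)) (l 16493112)) (c (b (l 16497624) (l 16490920)) (l 16502320))) (a (l 16467696) (c (l 16492888) (l 16499440))))))) (a (c (b (a (b (l 16459264) (l 16466152)) (b (l 16466056) (l 16472232))) (a (l 16472504) (l 16474360))) (b (a (l 16462712) (l 16487624)) (a (l 16466544) (l 16467176)))) (a (a (b (a (l 16541360) (l 16524856)) (l 16478256)) (b (b (l 16486936) (l 16489104)) (l 16486080))) (a (b (a (l 16496256) (l 16499576)) (l 16495952)) (b (b (l 16501016) (l 16505504)) (l 16507472))))))), by decide +kernel⟩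

def k1_pm_202_a : ∃ t, chk3 f_pm_202_a t 2 3 1 = true :=
  ⟨(b (a (b (a (b (a (l 16479456) (l 16476064)) (a (l 16489736) (l 16486160))) (b (a (l 16475224) (l 16476688)) (a (l 16484008) (l 16484152)))) (b (a (b (a (l 16500920) (l 16497520)) (l 16510704)) (b (l 16495984) (l 16506496))) (a (l 16527544) (a (l 16521816) (l 16520384))))) (b (a (b (a (l 16480392) (l 16486080)) (b (l 16507576) (a (l 16489088) (l 16494128)))) (b (a (l 16493392) (l 16501376)) (a (l 16498168) (l 16505016)))) (b (a (b (l 16501128) (l 16509960)) (b (l 16511120) (l 16516896))) (a (l 16522264) (l 16524824))))) (a (b (b (a (l 16551136) (l 16541888)) (l 16570096)) (b (l 16592280) (l 16612496))) (b (a (b (l 16538904) (l 16555584)) (l 16540048)) (a (l 16580816) (l 16558280))))), by decide +kernel⟩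

def k2_pm_202_a : ∃ t, chk3 f_pm_202_a t 3 4 1 = true :=
  ⟨(b (a (l 1) (b (a (l 1) (l 6)) (b (a (a (l 1) (l 6)) (l 6)) (b (a (a (l 1) (l 6)) (l 6)) (a (a (a (l 1) (a (l 16622152) (l 16632424))) (a (a (l 16641648) (l 16650944)) (l 16644160))) (b (l 6) (a (l 16683280) (l 16683816)))))))) (a (b (a (l 1) (b (a (l 1) (b (l 1) (a (l 112776049927) (l 212097209767)))) (a (b (a (l 1) (l 131029623895)) (a (l 151430692247) (l 252362473847))) (a (b (l 226055829575) (l 16578880)) (b (l 16593456) (l 16574856)))))) (a (b (a (b (l 1) (l 127808345463)) (b (a (l 1) (l 184179801879)) (a (l 16523424) (l 16537936)))) (a (b (a (l 16503880) (l 16516144)) (a (l 16510808) (l 16501432))) (b (a (l 16529232) (l 16542992)) (l 16457472)))) (a (a (b (b (l 16558960) (l 16552984)) (l 16475344)) (b (c (l 16508768) (l 16561472)) (l 16573656))) (b (c (l 16511160) (b (l 16522688) (l 16588280))) (l 16590624))))) (a (a (b (a (b (b (l 212097238967) (l 16609952)) (b (l 16569688) (l 16613120)))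 (b (b (l 285648621543) (l 16608288)) (l 16630304))) (b (l 16616192) (l 16595072))) (b (b (a (b (l 16646552) (l 16646648)) (l 16664152)) (l 16642824)) (b (l 16620552) (l 16578400)))) (b (a (b (a (l 16667832) (l 16668936)) (a (l 16644704) (l 16645832))) (b (a (l 16669464) (l 16668504)) (a (l 16646408) (l 16645504)))) (a (b (l 16644120) (l 16601976)) (b (l 16644896) (l 16602848))))))), by decide +kernel⟩

def k3_pm_202_a : ∃ t, chk3 f_pm_202_a t 3 5 1 = true :=
  ⟨(a (b (b (a (b (a (b (l 16481040) (l 16528944)) (l 16506496)) (b (l 16474768) (b (l 16531328) (a (l 16521360) (l 16532872))))) (b (a (l 16564960) (l 16570960)) (b (a (l 16551280) (l 16557176)) (b (l 16559024) (a (l 16541688) (l 16547856)))))) (a (a (b (l 16511120) (l 16506312)) (b (l 16522440) (l 16516400))) (b (a (l 16531056) (l 16537032)) (a (l 16523784) (l 16528536))))) (a (b (a (l 16509520) (l 16516768)) (a (l 16513320) (l 16515888))) (b (a (l 16521560) (l 16523720)) (l 16517472)))) (b (b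 (a (b (a (l 16575288) (l 16579552)) (b (a (l 16561448) (l 16565728)) (b (l 16578872) (a (l 16573416) (l 16557064))))) (b (a (l 16582192) (l 16583176)) (b (a (l 16568432) (l 16569528)) (a (b (l 16562296) (l 16602080)) (b (l 16563504) (b (l 16561184) (l 16560400))))))) (a (b (a (l 16541464) (l 16545992)) (a (l 16531776) (l 16535144))) (a (b (l 16549008) (l 16536784)) (b (l 16591656) (l 16533784))))) (a (a (b (l 16524336) (l 16512240)) (b (l 16524160) (l 16506936))) (a (b (l 16520520) (l 16498648)) (b (l 16512608) (l 16487544)))))), by decide +kernel⟩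

def k4_pm_202_a : ∃ t, chk3 f_pm_202_a t 3 3 1 = true :=
  ⟨(b (a (b (a (b (a (l 16510344) (l 16513984)) (l 16577136)) (b (l 16510568) (l 16504912))) (a (b (l 16515608) (l 16519032)) (b (l 16501776) (l 16500600)))) (b (a (a (l 16494448) (l 16484456)) (b (l 16560336) (l 16457464))) (a (l 16578040) (b (l 16444840) (l 16435840))))) (a (b (a (l 16526936) (l 16502040)) (a (l 16541816) (l 16510248))) (a (b (l 16466944) (l 16469504)) (b (l 16428552) (l 16429360))))), by decide +kernel⟩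

theorem s5_pm_202_a : ∃ t, chk3 f_pm_202_a t 3 2 1 = true := ex3_b k2_pm_202_a k3_pm_202_a

theorem s6_pm_202_a : ∃ t, chk3 f_pm_202_a t 3 1 1 = true := ex3_b s5_pm_202_a k4_pm_202_a

theorem s7_pm_202_a : ∃ t, chk3 f_pm_202_a t 2 1 1 = true := ex3_b k0_pm_202_a k1_pm_202_a

theorem s8_pm_202_a : ∃ t, chk3 f_pm_202_a t 1 1 1 = true := ex3_a s7_pm_202_a s6_pm_202_a

theorem c_pm_202_a : CertB 0 536870912 0 536870912 697932185 42949674 3 eng mog cd1q2a cd2q0 pd2 true true false .pp 2 0 2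
    ndB1q2a ndB2q0 pcB2 cut_pm_202_a Ext.none :=
  certB1 (fam := true) (s1 := true) (s2 := false) (a := 2) (b := 0) (c := 2) (cn := .pp) (n1 := ndB1q2a) (n2 := ndB2q0) (pc := pcB2) (cut := cut_pm_202_a) (xt := Ext.none) (P1 := 0) (W1 := 536870912) (P2 := 0) (W2 := 536870912) (P3 := 697932185) (W3 := 42949674) (N0 := 3) (En := eng) (mo := mog) (C1 := cd1q2a) (C2 := cd2q0) (C3 := pd2)
    rfl (fun _ => rfl) s8_pm_202_a

noncomputable def cut_pm_202_b : Cut := Cut.of [[⟨0, 1, 0, 67108864⟩, ⟨1, 0, 0, 67108864⟩, ⟨2, 1, 0, 67108864⟩]]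

noncomputable def f_pm_202_b : ℕ → ℕ → ℕ → ℕ → Bool := onCell 1239849684 370763052 1073741824 536870912 697932185 42949674
    (rowB 3 eng mog cd1q2b cd2q0 pd2 1 true true false .pp 2 0 2 (qsf 1239849684 370763052 0 536870912 2) ndB1q2b ndB2q0 pcB2 cut_pm_202_b Ext.none)

def k0_pm_202_b : ∃ t, chk3 f_pm_202_b t 1 1 1 = true :=
  ⟨(b (a (b (l 1) (b (a (a (b (b (l 1) (a (l 16414336) (l 1))) (b (a (a (b (l 16440648) (l 16436840)) (l 16415544)) (l 1)) (a (a (l 16441328) (l 16421128)) (l 16375640)))) (l 1)) (l 1)) (a (b (b (a (a (l 16437296) (l 16377288)) (l 16327600)) (a (l 16461408) (a (l 16320392) (l 1)))) (a (a (l 16444976) (l 16388000)) (a (l 16329504) (l 16269896)))) (b (l 1) (a (b (l 1) (l 16184160)) (l 1)))))) (l 1)) (a (b (b (a (b (a (b (l 16425424) (l 16453136)) (a (l 16345408) (l 16288040))) (a (l 16484360) (b (l 16331816) (l 16341880)))) (b (a (b (l 16194560) (l 16206104)) (l 1)) (a (b (l 16218536) (l 16231584)) (l 16109984)))) (a (b (a (b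 (l 16454240) (l 16464120)) (l 16399344)) (a (l 16482784) (l 16379016))) (b (a (l 16251232) (b (l 16132840) (l 16148416))) (a (l 16277920) (l 16173240))))) (b (a (b (l 16567648) (l 16496536)) (b (l 16259224) (l 16296728))) (a (b (l 16531456) (l 16565576)) (b (l 16339352) (l 16385960))))) (b (a (b (l 1) (b (a (b (l 16019456) (l 16036872)) (l 1)) (a (l 16065776) (l 15958536)))) (l 1)) (b (a (b (l 51571780711) (l 16104400)) (b (l 1) (l 219612216967))) (a (b (l 16152048) (l 16198856)) (b (l 15971368) (l 16027352))))))), by decide +kernel⟩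

theorem c_pm_202_b : CertB 1239849684 370763052 0 536870912 697932185 42949674 3 eng mog cd1q2b cd2q0 pd2 true true false .pp 2 0 2
    ndB1q2b ndB2q0 pcB2 cut_pm_202_b Ext.none :=
  certB1 (fam := true) (s1 := true) (s2 := false) (a := 2) (b := 0) (c := 2) (cn := .pp) (n1 := ndB1q2b) (n2 := ndB2q0) (pc := pcB2) (cut := cut_pm_202_b) (xt := Ext.none) (P1 := 1239849684) (W1 := 370763052) (P2 := 0) (W2 := 536870912) (P3 := 697932185) (W3 := 42949674) (N0 := 3) (En := eng) (mo := mog) (C1 := cd1q2b) (C2 := cd2q0) (C3 := pd2)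
    rfl (fun _ => rfl) k0_pm_202_b

noncomputable def f_pm_203_a : ℕ → ℕ → ℕ → ℕ → Bool := onCell 0 536870912 1610612736 536870912 697932185 42949674
    (rowB 3 eng mog cd1q2a cd2q0 pd3 1 true true false .up 2 0 3 (qsf 0 536870912 0 536870912 3) ndB1q2a ndB2q0 pcB3 Cut.none Ext.none)

def k0_pm_203_a : ∃ t, chk3 f_pm_203_a t 1 1 1 = true :=
  ⟨(b (b (a (a (b (b (l 16633648) (l 16674984)) (l 16719368)) (b (a (l 16622808) (l 16604776)) (b (l 16667720) (l 16698504)))) (a (b (a (l 16574400) (l 16531960)) (l 16633720)) (b (a (l 16482272) (l 16443024)) (a (l 16582400) (l 2))))) (a (b (a (l 16963776) (l 16738328)) (l 2)) (a (l 2) (l 2)))) (l 2)), by decide +kernel⟩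

theorem c_pm_203_a : CertB 0 536870912 0 536870912 697932185 42949674 3 eng mog cd1q2a cd2q0 pd3 true true false .up 2 0 3
    ndB1q2a ndB2q0 pcB3 Cut.none Ext.none :=
  certB1 (fam := true) (s1 := true) (s2 := false) (a := 2) (b := 0) (c := 3) (cn := .up) (n1 := ndB1q2a) (n2 := ndB2q0) (pc := pcB3) (cut := Cut.none) (xt := Ext.none) (P1 := 0) (W1 := 536870912) (P2 := 0) (W2 := 536870912) (P3 := 697932185) (W3 := 42949674) (N0 := 3) (En := eng) (mo := mog) (C1 := cd1q2a) (C2 := cd2q0) (C3 := pd3)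
    rfl (fun _ => rfl) k0_pm_203_a

noncomputable def f_pm_203_b : ℕ → ℕ → ℕ → ℕ → Bool := onCell 1239849684 370763052 1610612736 536870912 697932185 42949674
    (rowB 3 eng mog cd1q2b cd2q0 pd3 1 true true false .up 2 0 3 (qsf 1239849684 370763052 0 536870912 3) ndB1q2b ndB2q0 pcB3 Cut.none Ext.none)

def k0_pm_203_b : ∃ t, chk3 f_pm_203_b t 1 1 1 = true :=
  ⟨(b (b (a (b (a (b (l 16595480) (l 16610416)) (l 16457640)) (a (b (l 16660568) (l 16701240)) (l 16541760))) (b (a (l 16334584) (l 16096344)) (a (l 16374752) (l 16192912)))) (b (b (a (a (l 16732544) (l 4)) (l 16383488)) (l 4)) (l 4))) (l 4)), by decide +kernel⟩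

theorem c_pm_203_b : CertB 1239849684 370763052 0 536870912 697932185 42949674 3 eng mog cd1q2b cd2q0 pd3 true true false .up 2 0 3
    ndB1q2b ndB2q0 pcB3 Cut.none Ext.none :=
  certB1 (fam := true) (s1 := true) (s2 := false) (a := 2) (b := 0) (c := 3) (cn := .up) (n1 := ndB1q2b) (n2 := ndB2q0) (pc := pcB3) (cut := Cut.none) (xt := Ext.none) (P1 := 1239849684) (W1 := 370763052) (P2 := 0) (W2 := 536870912) (P3 := 697932185) (W3 := 42949674) (N0 := 3) (En := eng) (mo := mog) (C1 := cd1q2b) (C2 := cd2q0) (C3 := pd3)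
    rfl (fun _ => rfl) k0_pm_203_b

noncomputable def f_pm_213_a : ℕ → ℕ → ℕ → ℕ → Bool := onCell 0 536870912 1610612736 536870912 697932185 42949674
    (rowB 3 eng mog cd1q2a cd2q1 pd3 1 true true false .pnn 2 1 3 (qsf 0 536870912 536870912 536870912 3) ndB1q2a ndB2q1 pcB3 Cut.none Ext.none)

def k0_pm_213_a : ∃ t, chk3 f_pm_213_a t 1 1 1 = true :=
  ⟨(a (a (b (b (l 1) (b (l 91301937063) (l 28689172759))) (l 4)) (b (b (b (l 1) (l 218003178167)) (b (l 16746504) (l 16763720))) (b (b (b (l 16719488) (l 16653072)) (b (l 108145332119) (l 4))) (l 4)))) (a (b (b (b (l 1) (l 16802824)) (b (b (l 16818664) (l 16762344)) (b (a (l 16801680) (l 16833008)) (l 16866760)))) (b (b (b (l 16816952) (l 16777080)) (b (a (l 16721720) (l 16778208)) (a (l 16694360) (l 16748368)))) (b (b (a (l 4) (l 16756160)) (l 4)) (l 4)))) (a (b (b (b (l 16511688) (l 16608048)) (b (b (l 16712584) (l 16806024)) (b (b (l 16883680) (l 16918232)) (l 16979872)))) (b (b (l 16908752) (b (l 16832096)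 (l 16797864))) (b (b (l 16704680) (l 16716896)) (l 4)))) (b (b (b (l 16466424) (l 16604064)) (b (b (b (l 16746752) (l 16779544)) (b (l 16868576) (l 16975704))) (b (b (b (l 17032688) (l 16987624)) (b (l 16945640) (l 16940032))) (l 16973216)))) (b (b (l 16961400) (b (l 16867968) (l 16824872))) (b (b (a (l 16792232) (l 16801008)) (l 16768584)) (b (b (l 16695312) (l 16590440)) (l 4)))))))), by decide +kernel⟩

theorem c_pm_213_a : CertB 0 536870912 536870912 536870912 697932185 42949674 3 eng mog cd1q2a cd2q1 pd3 true true false .pnn 2 1 3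
    ndB1q2a ndB2q1 pcB3 Cut.none Ext.none :=
  certB1 (fam := true) (s1 := true) (s2 := false) (a := 2) (b := 1) (c := 3) (cn := .pnn) (n1 := ndB1q2a) (n2 := ndB2q1) (pc := pcB3) (cut := Cut.none) (xt := Ext.none) (P1 := 0) (W1 := 536870912) (P2 := 536870912) (W2 := 536870912) (P3 := 697932185) (W3 := 42949674) (N0 := 3) (En := eng) (mo := mog) (C1 := cd1q2a) (C2 := cd2q1) (C3 := pd3)
    rfl (fun _ => rfl) k0_pm_213_a

noncomputable def f_pm_213_b : ℕ → ℕ → ℕ → ℕ → Bool := onCell 1239849684 370763052 536870912 536870912 697932185 42949674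
    (rowB 3 eng mog cd1q2b cd2q1 pd3 0 true true false .pnn 2 1 3 (qsf 1239849684 370763052 536870912 536870912 3) ndB1q2b ndB2q1 pcB3 Cut.none Ext.none)

def k0_pm_213_b : ∃ t, chk3 f_pm_213_b t 1 1 1 = true :=
  ⟨(b (a (l 4) (l 4)) (l 4)), by decide +kernel⟩

theorem c_pm_213_b : CertB 1239849684 370763052 536870912 536870912 697932185 42949674 3 eng mog cd1q2b cd2q1 pd3 true true false .pnn 2 1 3
    ndB1q2b ndB2q1 pcB3 Cut.none Ext.none :=
  certB0 (fam := true) (s1 := true) (s2 := false) (a := 2) (b := 1) (c := 3) (cn := .pnn) (n1 := ndB1q2b) (n2 := ndB2q1) (pc := pcB3) (cut := Cut.none) (xt := Ext.none) (P1 := 1239849684) (W1 := 370763052) (P2 := 536870912) (W2 := 536870912) (P3 := 697932185) (W3 := 42949674) (N0 := 3) (En := eng) (mo := mog) (C1 := cd1q2b) (C2 := cd2q1) (C3 := pd3)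
    rfl k0_pm_213_b

noncomputable def f_pm_303 : ℕ → ℕ → ℕ → ℕ → Bool := onCell 1610612736 536870912 0 536870912 697932185 42949674
    (rowB 3 eng mog cd1q3 cd2q0 pd3 2 true true false .npn 3 0 3 (qsf 1610612736 536870912 0 536870912 3) ndB1q3 ndB2q0 pcB3 Cut.none Ext.none)

def k0_pm_303 : ∃ t, chk3 f_pm_303 t 1 1 1 = true :=
  ⟨(a (a (b (a (b (l 16095896) (l 1)) (b (l 16047216) (l 16492472))) (l 1)) (a (b (b (a (l 16055648) (l 16078136)) (l 16471728)) (l 1)) (l 4))) (l 4)), by decide +kernel⟩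

theorem c_pm_303 : CertB 1610612736 536870912 0 536870912 697932185 42949674 3 eng mog cd1q3 cd2q0 pd3 true true false .npn 3 0 3
    ndB1q3 ndB2q0 pcB3 Cut.none Ext.none :=
  certB2 (fam := true) (s1 := true) (s2 := false) (a := 3) (b := 0) (c := 3) (cn := .npn) (n1 := ndB1q3) (n2 := ndB2q0) (pc := pcB3) (cut := Cut.none) (xt := Ext.none) (P1 := 1610612736) (W1 := 536870912) (P2 := 0) (W2 := 536870912) (P3 := 697932185) (W3 := 42949674) (N0 := 3) (En := eng) (mo := mog) (C1 := cd1q3) (C2 := cd2q0) (C3 := pd3)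
    rfl (fun _ => rfl) k0_pm_303

noncomputable def f_pm_313 : ℕ → ℕ → ℕ → ℕ → Bool := onCell 1610612736 536870912 536870912 536870912 697932185 42949674
    (rowB 3 eng mog cd1q3 cd2q1 pd3 0 true true false .dn 3 1 3 (qsf 1610612736 536870912 536870912 536870912 3) ndB1q3 ndB2q1 pcB3 Cut.none Ext.none)

def k0_pm_313 : ∃ t, chk3 f_pm_313 t 1 1 1 = true :=
  ⟨(l 4), by decide +kernel⟩

theorem c_pm_313 : CertB 1610612736 536870912 536870912 536870912 697932185 42949674 3 eng mog cd1q3 cd2q1 pd3 true true false .dn 3 1 3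
    ndB1q3 ndB2q1 pcB3 Cut.none Ext.none :=
  certB0 (fam := true) (s1 := true) (s2 := false) (a := 3) (b := 1) (c := 3) (cn := .dn) (n1 := ndB1q3) (n2 := ndB2q1) (pc := pcB3) (cut := Cut.none) (xt := Ext.none) (P1 := 1610612736) (W1 := 536870912) (P2 := 536870912) (W2 := 536870912) (P3 := 697932185) (W3 := 42949674) (N0 := 3) (En := eng) (mo := mog) (C1 := cd1q3) (C2 := cd2q1) (C3 := pd3)
    rfl k0_pm_313

noncomputable def f_mm_001 : ℕ → ℕ → ℕ → ℕ → Bool := onCell 0 536870912 0 536870912 697932185 42949674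
    (rowB 3 eng mog cd1q0 cd2q0 pd1 0 true false false .up 0 0 1 (qsf 0 536870912 0 536870912 1) ndB1q0 ndB2q0 pcB1 Cut.none Ext.none)

def k0_mm_001 : ∃ t, chk3 f_mm_001 t 1 1 1 = true :=
  ⟨(l 4), by decide +kernel⟩

theorem c_mm_001 : CertB 0 536870912 0 536870912 697932185 42949674 3 eng mog cd1q0 cd2q0 pd1 true false false .up 0 0 1
    ndB1q0 ndB2q0 pcB1 Cut.none Ext.none :=
  certB0 (fam := true) (s1 := false) (s2 := false) (a := 0) (b := 0) (c := 1) (cn := .up) (n1 := ndB1q0) (n2 := ndB2q0) (pc := pcB1) (cut := Cut.none) (xt := Ext.none) (P1 := 0) (W1 := 536870912) (P2 := 0) (W2 := 536870912) (P3 := 697932185) (W3 := 42949674) (N0 := 3) (En := eng) (mo := mog) (C1 := cd1q0) (C2 := cd2q0) (C3 := pd1)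
    rfl k0_mm_001

noncomputable def f_mm_011 : ℕ → ℕ → ℕ → ℕ → Bool := onCell 0 536870912 536870912 536870912 697932185 42949674
    (rowB 3 eng mog cd1q0 cd2q1 pd1 0 true false false .pnn 0 1 1 (qsf 0 536870912 536870912 536870912 1) ndB1q0 ndB2q1 pcB1 Cut.none Ext.none)

def k0_mm_011 : ∃ t, chk3 f_mm_011 t 1 1 1 = true :=
  ⟨(l 4), by decide +kernel⟩

theorem c_mm_011 : CertB 0 536870912 536870912 536870912 697932185 42949674 3 eng mog cd1q0 cd2q1 pd1 true false false .pnn 0 1 1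
    ndB1q0 ndB2q1 pcB1 Cut.none Ext.none :=
  certB0 (fam := true) (s1 := false) (s2 := false) (a := 0) (b := 1) (c := 1) (cn := .pnn) (n1 := ndB1q0) (n2 := ndB2q1) (pc := pcB1) (cut := Cut.none) (xt := Ext.none) (P1 := 0) (W1 := 536870912) (P2 := 536870912) (W2 := 536870912) (P3 := 697932185) (W3 := 42949674) (N0 := 3) (En := eng) (mo := mog) (C1 := cd1q0) (C2 := cd2q1) (C3 := pd1)
    rfl k0_mm_011

noncomputable def f_mm_012 : ℕ → ℕ → ℕ → ℕ → Bool := onCell 0 536870912 536870912 536870912 697932185 42949674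
    (rowB 3 eng mog cd1q0 cd2q1 pd2 0 true false false .pnp 0 1 2 (qsf 0 536870912 536870912 536870912 2) ndB1q0 ndB2q1 pcB2 Cut.none Ext.none)

def k0_mm_012 : ∃ t, chk3 f_mm_012 t 1 1 1 = true :=
  ⟨(l 4), by decide +kernel⟩

theorem c_mm_012 : CertB 0 536870912 536870912 536870912 697932185 42949674 3 eng mog cd1q0 cd2q1 pd2 true false false .pnp 0 1 2
    ndB1q0 ndB2q1 pcB2 Cut.none Ext.none :=
  certB0 (fam := true) (s1 := false) (s2 := false) (a := 0) (b := 1) (c := 2) (cn := .pnp) (n1 := ndB1q0) (n2 := ndB2q1) (pc := pcB2) (cut := Cut.none) (xt := Ext.none) (P1 := 0) (W1 := 536870912) (P2 := 536870912) (W2 := 536870912) (P3 := 697932185) (W3 := 42949674) (N0 := 3) (En := eng) (mo := mog) (C1 := cd1q0) (C2 := cd2q1) (C3 := pd2)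
    rfl k0_mm_012

noncomputable def f_mm_022_a : ℕ → ℕ → ℕ → ℕ → Bool := onCell 0 536870912 0 536870912 697932185 42949674
    (rowB 3 eng mog cd1q0 cd2q2a pd2 0 true false false .pp 0 2 2 (qsf 0 536870912 0 536870912 2) ndB1q0 ndB2q2a pcB2 Cut.none Ext.none)

def k0_mm_022_a : ∃ t, chk3 f_mm_022_a t 1 1 1 = true :=
  ⟨(l 5), by decide +kernel⟩

theorem c_mm_022_a : CertB 0 536870912 0 536870912 697932185 42949674 3 eng mog cd1q0 cd2q2a pd2 true false false .pp 0 2 2
    ndB1q0 ndB2q2a pcB2 Cut.none Ext.none :=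
  certB0 (fam := true) (s1 := false) (s2 := false) (a := 0) (b := 2) (c := 2) (cn := .pp) (n1 := ndB1q0) (n2 := ndB2q2a) (pc := pcB2) (cut := Cut.none) (xt := Ext.none) (P1 := 0) (W1 := 536870912) (P2 := 0) (W2 := 536870912) (P3 := 697932185) (W3 := 42949674) (N0 := 3) (En := eng) (mo := mog) (C1 := cd1q0) (C2 := cd2q2a) (C3 := pd2)
    rfl k0_mm_022_a

noncomputable def f_mm_022_b : ℕ → ℕ → ℕ → ℕ → Bool := onCell 0 536870912 1239849684 370763052 697932185 42949674
    (rowB 3 eng mog cd1q0 cd2q2b pd2 0 true false false .pp 0 2 2 (qsf 0 536870912 1239849684 370763052 2) ndB1q0 ndB2q2b pcB2 Cut.none Ext.none)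

def k0_mm_022_b : ∃ t, chk3 f_mm_022_b t 1 1 1 = true :=
  ⟨(l 5), by decide +kernel⟩

theorem c_mm_022_b : CertB 0 536870912 1239849684 370763052 697932185 42949674 3 eng mog cd1q0 cd2q2b pd2 true false false .pp 0 2 2
    ndB1q0 ndB2q2b pcB2 Cut.none Ext.none :=
  certB0 (fam := true) (s1 := false) (s2 := false) (a := 0) (b := 2) (c := 2) (cn := .pp) (n1 := ndB1q0) (n2 := ndB2q2b) (pc := pcB2) (cut := Cut.none) (xt := Ext.none) (P1 := 0) (W1 := 536870912) (P2 := 1239849684) (W2 := 370763052) (P3 := 697932185) (W3 := 42949674) (N0 := 3) (En := eng) (mo := mog) (C1 := cd1q0) (C2 := cd2q2b) (C3 := pd2)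
    rfl k0_mm_022_b

noncomputable def f_mm_023_a : ℕ → ℕ → ℕ → ℕ → Bool := onCell 0 536870912 0 536870912 697932185 42949674
    (rowB 3 eng mog cd1q0 cd2q2a pd3 0 true false false .up 0 2 3 (qsf 0 536870912 0 536870912 3) ndB1q0 ndB2q2a pcB3 Cut.none Ext.none)

def k0_mm_023_a : ∃ t, chk3 f_mm_023_a t 1 1 1 = true :=
  ⟨(l 5), by decide +kernel⟩

theorem c_mm_023_a : CertB 0 536870912 0 536870912 697932185 42949674 3 eng mog cd1q0 cd2q2a pd3 true false false .up 0 2 3
    ndB1q0 ndB2q2a pcB3 Cut.none Ext.none :=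
  certB0 (fam := true) (s1 := false) (s2 := false) (a := 0) (b := 2) (c := 3) (cn := .up) (n1 := ndB1q0) (n2 := ndB2q2a) (pc := pcB3) (cut := Cut.none) (xt := Ext.none) (P1 := 0) (W1 := 536870912) (P2 := 0) (W2 := 536870912) (P3 := 697932185) (W3 := 42949674) (N0 := 3) (En := eng) (mo := mog) (C1 := cd1q0) (C2 := cd2q2a) (C3 := pd3)
    rfl k0_mm_023_a

noncomputable def f_mm_023_b : ℕ → ℕ → ℕ → ℕ → Bool := onCell 0 536870912 1239849684 370763052 697932185 42949674
    (rowB 3 eng mog cd1q0 cd2q2b pd3 0 true false false .up 0 2 3 (qsf 0 536870912 1239849684 370763052 3) ndB1q0 ndB2q2b pcB3 Cut.none Ext.none)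

def k0_mm_023_b : ∃ t, chk3 f_mm_023_b t 1 1 1 = true :=
  ⟨(l 5), by decide +kernel⟩

theorem c_mm_023_b : CertB 0 536870912 1239849684 370763052 697932185 42949674 3 eng mog cd1q0 cd2q2b pd3 true false false .up 0 2 3
    ndB1q0 ndB2q2b pcB3 Cut.none Ext.none :=
  certB0 (fam := true) (s1 := false) (s2 := false) (a := 0) (b := 2) (c := 3) (cn := .up) (n1 := ndB1q0) (n2 := ndB2q2b) (pc := pcB3) (cut := Cut.none) (xt := Ext.none) (P1 := 0) (W1 := 536870912) (P2 := 1239849684) (W2 := 370763052) (P3 := 697932185) (W3 := 42949674) (N0 := 3) (En := eng) (mo := mog) (C1 := cd1q0) (C2 := cd2q2b) (C3 := pd3)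
    rfl k0_mm_023_b

noncomputable def f_mm_033 : ℕ → ℕ → ℕ → ℕ → Bool := onCell 0 536870912 1610612736 536870912 697932185 42949674
    (rowB 3 eng mog cd1q0 cd2q3 pd3 0 true false false .pnn 0 3 3 (qsf 0 536870912 1610612736 536870912 3) ndB1q0 ndB2q3 pcB3 Cut.none Ext.none)

def k0_mm_033 : ∃ t, chk3 f_mm_033 t 1 1 1 = true :=
  ⟨(l 5), by decide +kernel⟩

theorem c_mm_033 : CertB 0 536870912 1610612736 536870912 697932185 42949674 3 eng mog cd1q0 cd2q3 pd3 true false false .pnn 0 3 3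
    ndB1q0 ndB2q3 pcB3 Cut.none Ext.none :=
  certB0 (fam := true) (s1 := false) (s2 := false) (a := 0) (b := 3) (c := 3) (cn := .pnn) (n1 := ndB1q0) (n2 := ndB2q3) (pc := pcB3) (cut := Cut.none) (xt := Ext.none) (P1 := 0) (W1 := 536870912) (P2 := 1610612736) (W2 := 536870912) (P3 := 697932185) (W3 := 42949674) (N0 := 3) (En := eng) (mo := mog) (C1 := cd1q0) (C2 := cd2q3) (C3 := pd3)
    rfl k0_mm_033

noncomputable def f_mm_101 : ℕ → ℕ → ℕ → ℕ → Bool := onCell 536870912 536870912 0 536870912 697932185 42949674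
    (rowB 3 eng mog cd1q1 cd2q0 pd1 0 true false false .npn 1 0 1 (qsf 536870912 536870912 0 536870912 1) ndB1q1 ndB2q0 pcB1 Cut.none Ext.none)

def k0_mm_101 : ∃ t, chk3 f_mm_101 t 1 1 1 = true :=
  ⟨(l 4), by decide +kernel⟩

theorem c_mm_101 : CertB 536870912 536870912 0 536870912 697932185 42949674 3 eng mog cd1q1 cd2q0 pd1 true false false .npn 1 0 1
    ndB1q1 ndB2q0 pcB1 Cut.none Ext.none :=
  certB0 (fam := true) (s1 := false) (s2 := false) (a := 1) (b := 0) (c := 1) (cn := .npn) (n1 := ndB1q1) (n2 := ndB2q0) (pc := pcB1) (cut := Cut.none) (xt := Ext.none) (P1 := 536870912) (W1 := 536870912) (P2 := 0) (W2 := 536870912) (P3 := 697932185) (W3 := 42949674) (N0 := 3) (En := eng) (mo := mog) (C1 := cd1q1) (C2 := cd2q0) (C3 := pd1)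
    rfl k0_mm_101

noncomputable def f_mm_102 : ℕ → ℕ → ℕ → ℕ → Bool := onCell 536870912 536870912 0 536870912 697932185 42949674
    (rowB 3 eng mog cd1q1 cd2q0 pd2 0 true false false .npp 1 0 2 (qsf 536870912 536870912 0 536870912 2) ndB1q1 ndB2q0 pcB2 Cut.none Ext.none)

def k0_mm_102 : ∃ t, chk3 f_mm_102 t 1 1 1 = true :=
  ⟨(l 4), by decide +kernel⟩

theorem c_mm_102 : CertB 536870912 536870912 0 536870912 697932185 42949674 3 eng mog cd1q1 cd2q0 pd2 true false false .npp 1 0 2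
    ndB1q1 ndB2q0 pcB2 Cut.none Ext.none :=
  certB0 (fam := true) (s1 := false) (s2 := false) (a := 1) (b := 0) (c := 2) (cn := .npp) (n1 := ndB1q1) (n2 := ndB2q0) (pc := pcB2) (cut := Cut.none) (xt := Ext.none) (P1 := 536870912) (W1 := 536870912) (P2 := 0) (W2 := 536870912) (P3 := 697932185) (W3 := 42949674) (N0 := 3) (En := eng) (mo := mog) (C1 := cd1q1) (C2 := cd2q0) (C3 := pd2)
    rfl k0_mm_102

noncomputable def f_mm_112 : ℕ → ℕ → ℕ → ℕ → Bool := onCell 536870912 536870912 536870912 536870912 697932185 42949674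
    (rowB 3 eng mog cd1q1 cd2q1 pd2 0 true false false .dn 1 1 2 (qsf 536870912 536870912 536870912 536870912 2) ndB1q1 ndB2q1 pcB2 Cut.none Ext.none)

def k0_mm_112 : ∃ t, chk3 f_mm_112 t 1 1 1 = true :=
  ⟨(l 4), by decide +kernel⟩

theorem c_mm_112 : CertB 536870912 536870912 536870912 536870912 697932185 42949674 3 eng mog cd1q1 cd2q1 pd2 true false false .dn 1 1 2
    ndB1q1 ndB2q1 pcB2 Cut.none Ext.none :=
  certB0 (fam := true) (s1 := false) (s2 := false) (a := 1) (b := 1) (c := 2) (cn := .dn) (n1 := ndB1q1) (n2 := ndB2q1) (pc := pcB2) (cut := Cut.none) (xt := Ext.none) (P1 := 536870912) (W1 := 536870912) (P2 := 536870912) (W2 := 536870912) (P3 := 697932185) (W3 := 42949674) (N0 := 3) (En := eng) (mo := mog) (C1 := cd1q1) (C2 := cd2q1) (C3 := pd2)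
    rfl k0_mm_112

noncomputable def f_mm_113 : ℕ → ℕ → ℕ → ℕ → Bool := onCell 536870912 536870912 536870912 536870912 697932185 42949674
    (rowB 3 eng mog cd1q1 cd2q1 pd3 0 true false false .nn 1 1 3 (qsf 536870912 536870912 536870912 536870912 3) ndB1q1 ndB2q1 pcB3 Cut.none Ext.none)

def k0_mm_113 : ∃ t, chk3 f_mm_113 t 1 1 1 = true :=
  ⟨(l 4), by decide +kernel⟩

theorem c_mm_113 : CertB 536870912 536870912 536870912 536870912 697932185 42949674 3 eng mog cd1q1 cd2q1 pd3 true false false .nn 1 1 3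
    ndB1q1 ndB2q1 pcB3 Cut.none Ext.none :=
  certB0 (fam := true) (s1 := false) (s2 := false) (a := 1) (b := 1) (c := 3) (cn := .nn) (n1 := ndB1q1) (n2 := ndB2q1) (pc := pcB3) (cut := Cut.none) (xt := Ext.none) (P1 := 536870912) (W1 := 536870912) (P2 := 536870912) (W2 := 536870912) (P3 := 697932185) (W3 := 42949674) (N0 := 3) (En := eng) (mo := mog) (C1 := cd1q1) (C2 := cd2q1) (C3 := pd3)
    rfl k0_mm_113

noncomputable def f_mm_123_a : ℕ → ℕ → ℕ → ℕ → Bool := onCell 536870912 536870912 0 536870912 697932185 42949674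
    (rowB 3 eng mog cd1q1 cd2q2a pd3 0 true false false .npn 1 2 3 (qsf 536870912 536870912 0 536870912 3) ndB1q1 ndB2q2a pcB3 Cut.none Ext.none)

def k0_mm_123_a : ∃ t, chk3 f_mm_123_a t 1 1 1 = true :=
  ⟨(l 4), by decide +kernel⟩

theorem c_mm_123_a : CertB 536870912 536870912 0 536870912 697932185 42949674 3 eng mog cd1q1 cd2q2a pd3 true false false .npn 1 2 3
    ndB1q1 ndB2q2a pcB3 Cut.none Ext.none :=
  certB0 (fam := true) (s1 := false) (s2 := false) (a := 1) (b := 2) (c := 3) (cn := .npn) (n1 := ndB1q1) (n2 := ndB2q2a) (pc := pcB3) (cut := Cut.none) (xt := Ext.none) (P1 := 536870912) (W1 := 536870912) (P2 := 0) (W2 := 536870912) (P3 := 697932185) (W3 := 42949674) (N0 := 3) (En := eng) (mo := mog) (C1 := cd1q1) (C2 := cd2q2a) (C3 := pd3)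
    rfl k0_mm_123_a

noncomputable def f_mm_123_b : ℕ → ℕ → ℕ → ℕ → Bool := onCell 536870912 536870912 1239849684 370763052 697932185 42949674
    (rowB 3 eng mog cd1q1 cd2q2b pd3 0 true false false .npn 1 2 3 (qsf 536870912 536870912 1239849684 370763052 3) ndB1q1 ndB2q2b pcB3 Cut.none Ext.none)

def k0_mm_123_b : ∃ t, chk3 f_mm_123_b t 1 1 1 = true :=
  ⟨(l 5), by decide +kernel⟩

theorem c_mm_123_b : CertB 536870912 536870912 1239849684 370763052 697932185 42949674 3 eng mog cd1q1 cd2q2b pd3 true false false .npn 1 2 3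
    ndB1q1 ndB2q2b pcB3 Cut.none Ext.none :=
  certB0 (fam := true) (s1 := false) (s2 := false) (a := 1) (b := 2) (c := 3) (cn := .npn) (n1 := ndB1q1) (n2 := ndB2q2b) (pc := pcB3) (cut := Cut.none) (xt := Ext.none) (P1 := 536870912) (W1 := 536870912) (P2 := 1239849684) (W2 := 370763052) (P3 := 697932185) (W3 := 42949674) (N0 := 3) (En := eng) (mo := mog) (C1 := cd1q1) (C2 := cd2q2b) (C3 := pd3)
    rfl k0_mm_123_b

noncomputable def f_mm_133 : ℕ → ℕ → ℕ → ℕ → Bool := onCell 536870912 536870912 1610612736 536870912 697932185 42949674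
    (rowB 3 eng mog cd1q1 cd2q3 pd3 0 true false false .dn 1 3 3 (qsf 536870912 536870912 1610612736 536870912 3) ndB1q1 ndB2q3 pcB3 Cut.none Ext.none)

def k0_mm_133 : ∃ t, chk3 f_mm_133 t 1 1 1 = true :=
  ⟨(l 4), by decide +kernel⟩

theorem c_mm_133 : CertB 536870912 536870912 1610612736 536870912 697932185 42949674 3 eng mog cd1q1 cd2q3 pd3 true false false .dn 1 3 3
    ndB1q1 ndB2q3 pcB3 Cut.none Ext.none :=
  certB0 (fam := true) (s1 := false) (s2 := false) (a := 1) (b := 3) (c := 3) (cn := .dn) (n1 := ndB1q1) (n2 := ndB2q3) (pc := pcB3) (cut := Cut.none) (xt := Ext.none) (P1 := 536870912) (W1 := 536870912) (P2 := 1610612736) (W2 := 536870912) (P3 := 697932185) (W3 := 42949674) (N0 := 3) (En := eng) (mo := mog) (C1 := cd1q1) (C2 := cd2q3) (C3 := pd3)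
    rfl k0_mm_133

noncomputable def cut_mm_202_a : Cut := Cut.of [[⟨0, 1, 0, 67108864⟩, ⟨1, 0, 0, 67108864⟩, ⟨2, 1, 0, 67108864⟩]]

noncomputable def f_mm_202_a : ℕ → ℕ → ℕ → ℕ → Bool := onCell 0 536870912 0 536870912 697932185 42949674
    (rowB 3 eng mog cd1q2a cd2q0 pd2 0 true false false .pp 2 0 2 (qsf 0 536870912 0 536870912 2) ndB1q2a ndB2q0 pcB2 cut_mm_202_a Ext.none)

def k0_mm_202_a : ∃ t, chk3 f_mm_202_a t 2 2 1 = true :=
  ⟨(b (b (a (b (a (b (a (l 16444224) (l 16446712)) (l 16386112)) (b (l 16456136) (l 16437856))) (a (l 16464816) (l 16474864))) (b (a (b (a (l 16469512) (l 16481264)) (a (b (l 16470000) (l 16472256)) (a (l 16479680) (l 16486440)))) (b (a (a (l 16487464) (l 16489624)) (a (l 16512800) (a (l 16518256) (l 16523936)))) (a (a (l 16493824) (l 16502936)) (a (l 16513392) (l 16524680))))) (a (b (a (l 16480608) (l 16532672)) (l 16434920)) (b (b (a (a (l 16497352) (l 16506520)) (l 16523056)) (a (l 16527568) (a (l 16520704) (l 16532224))))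 (a (l 16516024) (b (l 16573528) (l 16537952))))))) (a (b (a (l 16484032) (l 16496408)) (a (l 16501552) (l 16517080))) (b (a (l 16515648) (a (l 16451144) (b (l 16547832) (l 16560960)))) (a (l 16539096) (a (l 16560384) (l 16538864)))))) (b (a (b (l 16630032) (a (l 16535288) (l 16556120))) (a (b (l 16562008) (l 16585640)) (b (l 16597112) (l 16624352)))) (b (a (l 16658416) (a (l 16615056) (a (l 16642360) (l 16688280)))) (a (l 16602472) (a (l 16645864) (l 4)))))), by decide +kernel⟩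

def k1_mm_202_a : ∃ t, chk3 f_mm_202_a t 6 4 1 = true :=
  ⟨(b (a (b (b (a (b (a (l 16532296) (l 16544912)) (a (l 16533672) (l 16546464))) (a (b (l 16558488) (l 16560192)) (b (l 16568760) (l 16574784)))) (a (b (a (l 16535640) (l 16548600)) (l 16565720)) (a (l 16563832) (l 16578648)))) (b (a (a (l 16542952) (l 16556328)) (a (l 16570616) (l 16564768))) (a (b (a (l 16548968) (l 16562496)) (a (l 16554632) (l 16567504))) (a (l 16579384) (l 16594808))))) (b (b (a (b (a (b (l 16576056) (l 16581248)) (b (l 16586216) (l 16591624))) (a (l 16588768) (l 16599464))) (a (b (a (l 16596840) (l 16602872)) (l 16610840)) (b (b (l 16609712) (l 16615552)) (l 16603064)))) (a (a (l 16594208) (l 16610768)) (a (l 16626256) (l 16640008)))) (a (b (a (l 16601584) (l 16618408)) (l 16619496)) (b (a (l 16635912) (l 16652856)) (l 16654424))))) (a (b (a (b (l 16570968) (l 16584560)) (b (b (a (l 16587672) (l 16602864)) (l 16622792)) (l 16612248))) (a (l 16542176) (b (l 16626288) (l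 16640576)))) (b (b (a (b (l 16627824) (l 16633944)) (l 16666256)) (a (b (l 16640640) (l 16647688)) (b (l 16676384) (l 16725976)))) (a (b (l 16616688) (l 16674352)) (a (l 16695320) (l 4)))))), by decide +kernel⟩

def k2_mm_202_a : ∃ t, chk3 f_mm_202_a t 7 4 1 = true :=
  ⟨(b (a (b (a (b (b (a (b (l 16623048) (l 16629096)) (b (a (l 16633344) (l 16640936)) (l 16664384))) (a (a (l 16634352) (l 16641408)) (a (l 16648592) (l 16656432)))) (a (b (l 16649104) (l 16659712)) (b (l 16622224) (l 16675224)))) (b (a (b (b (l 6) (l 16681888)) (c (l 16692184) (l 16690256))) (b (l 6) (a (l 16705544) (l 6)))) (a (b (a (l 16677424) (l 16686952)) (l 16693560)) (b (l 16706968) (l 16713360))))) (a (b (a (l 16670504) (l 16688848)) (a (l 16680888) (l 16699520))) (b (a (l 16705392) (b (l 16719616) (l 16725400))) (a (l 16717648) (l 16758784))))) (b (a (b (l 6) (a (b (l 6) (l 16740552)) (l 6))) (l 6)) (a (a (b (b (l 16759584) (l 4)) (l 4)) (l 4)) (l 4)))) (a (b (a (b (a (l 16693568)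 (l 16714240)) (l 16741848)) (l 4)) (l 4)) (l 4))), by decide +kernel⟩

def k3_mm_202_a : ∃ t, chk3 f_mm_202_a t 3 5 1 = true :=
  ⟨(a (b (a (a (b (l 16633552) (l 16663792)) (b (l 16663896) (l 4))) (l 4)) (l 4)) (l 4)), by decide +kernel⟩

def k4_mm_202_a : ∃ t, chk3 f_mm_202_a t 1 3 1 = true :=
  ⟨(a (a (b (b (a (l 16694648) (b (l 16645072) (l 16676864))) (b (a (l 16682400) (l 16709376)) (a (l 16715608) (l 4)))) (l 2)) (b (b (a (b (l 16677312) (l 4)) (l 4)) (l 4)) (l 4))) (l 4)), by decide +kernel⟩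

theorem s5_mm_202_a : ∃ t, chk3 f_mm_202_a t 3 4 1 = true := ex3_a k1_mm_202_a k2_mm_202_a

theorem s6_mm_202_a : ∃ t, chk3 f_mm_202_a t 3 2 1 = true := ex3_b s5_mm_202_a k3_mm_202_a

theorem s7_mm_202_a : ∃ t, chk3 f_mm_202_a t 1 2 1 = true := ex3_a k0_mm_202_a s6_mm_202_a

theorem s8_mm_202_a : ∃ t, chk3 f_mm_202_a t 1 1 1 = true := ex3_b s7_mm_202_a k4_mm_202_a

theorem c_mm_202_a : CertB 0 536870912 0 536870912 697932185 42949674 3 eng mog cd1q2a cd2q0 pd2 true false false .pp 2 0 2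
    ndB1q2a ndB2q0 pcB2 cut_mm_202_a Ext.none :=
  certB0 (fam := true) (s1 := false) (s2 := false) (a := 2) (b := 0) (c := 2) (cn := .pp) (n1 := ndB1q2a) (n2 := ndB2q0) (pc := pcB2) (cut := cut_mm_202_a) (xt := Ext.none) (P1 := 0) (W1 := 536870912) (P2 := 0) (W2 := 536870912) (P3 := 697932185) (W3 := 42949674) (N0 := 3) (En := eng) (mo := mog) (C1 := cd1q2a) (C2 := cd2q0) (C3 := pd2)
    rfl s8_mm_202_a

noncomputable def cut_mm_202_b : Cut := Cut.of [[⟨0, 1, 0, 67108864⟩, ⟨1, 0, 0, 67108864⟩, ⟨2, 1, 0, 67108864⟩]]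

noncomputable def f_mm_202_b : ℕ → ℕ → ℕ → ℕ → Bool := onCell 1239849684 370763052 1073741824 536870912 697932185 42949674
    (rowB 3 eng mog cd1q2b cd2q0 pd2 1 true false false .pp 2 0 2 (qsf 1239849684 370763052 0 536870912 2) ndB1q2b ndB2q0 pcB2 cut_mm_202_b Ext.none)

def k0_mm_202_b : ∃ t, chk3 f_mm_202_b t 1 1 1 = true :=
  ⟨(b (a (b (l 1) (b (a (a (b (b (l 1) (a (l 16420040) (l 1))) (b (a (b (l 16422896) (l 16420200)) (l 1)) (a (l 16426056) (l 16380488)))) (l 1)) (l 1)) (a (b (a (a (l 16440960) (l 16388496)) (b (l 16315600) (l 16299752))) (a (l 16428424) (a (l 16339592) (l 16279416)))) (b (l 1) (a (b (l 1) (l 16193048)) (l 1)))))) (l 1)) (a (b (b (a (b (a (l 16441144) (a (l 16355344) (l 16296816))) (a (l 16456272) (l 16345880))) (b (a (b (l 16202624) (l 16213248)) (l 1)) (a (l 16231040) (l 16114040)))) (a (b (a (l 16476080) (l 16388720)) (a (l 16502376) (l 16391944))) (b (a (l 16257056) (l 16143168)) (a (l 16285152) (l 16175744))))) (b (a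 (b (l 16565400) (l 16517368)) (b (l 16264800) (l 16303152))) (a (b (l 16553904) (l 16587984)) (b (l 16346568) (l 16414248))))) (b (a (b (l 1) (b (a (l 16028408) (l 1)) (a (l 16064384) (l 15953800)))) (l 1)) (b (a (b (a (l 16105080) (l 15997760)) (l 16097728)) (b (l 1) (l 156261326199))) (b (a (l 16144200) (l 15949936)) (a (l 16189352) (l 16001688))))))), by decide +kernel⟩

theorem c_mm_202_b : CertB 1239849684 370763052 0 536870912 697932185 42949674 3 eng mog cd1q2b cd2q0 pd2 true false false .pp 2 0 2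
    ndB1q2b ndB2q0 pcB2 cut_mm_202_b Ext.none :=
  certB1 (fam := true) (s1 := false) (s2 := false) (a := 2) (b := 0) (c := 2) (cn := .pp) (n1 := ndB1q2b) (n2 := ndB2q0) (pc := pcB2) (cut := cut_mm_202_b) (xt := Ext.none) (P1 := 1239849684) (W1 := 370763052) (P2 := 0) (W2 := 536870912) (P3 := 697932185) (W3 := 42949674) (N0 := 3) (En := eng) (mo := mog) (C1 := cd1q2b) (C2 := cd2q0) (C3 := pd2)
    rfl (fun _ => rfl) k0_mm_202_b

noncomputable def f_mm_203_a : ℕ → ℕ → ℕ → ℕ → Bool := onCell 0 536870912 1610612736 536870912 697932185 42949674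
    (rowB 3 eng mog cd1q2a cd2q0 pd3 1 true false false .up 2 0 3 (qsf 0 536870912 0 536870912 3) ndB1q2a ndB2q0 pcB3 Cut.none Ext.none)

def k0_mm_203_a : ∃ t, chk3 f_mm_203_a t 1 1 1 = true :=
  ⟨(b (b (a (b (a (b (l 16732296) (l 16751464)) (l 4)) (l 4)) (l 4)) (l 4)) (l 2)), by decide +kernel⟩

theorem c_mm_203_a : CertB 0 536870912 0 536870912 697932185 42949674 3 eng mog cd1q2a cd2q0 pd3 true false false .up 2 0 3
    ndB1q2a ndB2q0 pcB3 Cut.none Ext.none :=
  certB1 (fam := true) (s1 := false) (s2 := false) (a := 2) (b := 0) (c := 3) (cn := .up) (n1 := ndB1q2a) (n2 := ndB2q0) (pc := pcB3) (cut := Cut.none) (xt := Ext.none) (P1 := 0) (W1 := 536870912) (P2 := 0) (W2 := 536870912) (P3 := 697932185) (W3 := 42949674) (N0 := 3) (En := eng) (mo := mog) (C1 := cd1q2a) (C2 := cd2q0) (C3 := pd3)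
    rfl (fun _ => rfl) k0_mm_203_a

noncomputable def f_mm_203_b : ℕ → ℕ → ℕ → ℕ → Bool := onCell 1239849684 370763052 1610612736 536870912 697932185 42949674
    (rowB 3 eng mog cd1q2b cd2q0 pd3 1 true false false .up 2 0 3 (qsf 1239849684 370763052 0 536870912 3) ndB1q2b ndB2q0 pcB3 Cut.none Ext.none)

def k0_mm_203_b : ∃ t, chk3 f_mm_203_b t 1 1 1 = true :=
  ⟨(b (b (a (b (a (b (l 16612200) (l 16652848)) (b (l 16440352) (l 16485920))) (l 4)) (b (a (b (l 16234432) (l 16283584)) (b (l 16046672) (l 16089968))) (a (l 4) (b (l 16143520) (l 4))))) (l 4)) (l 4)), by decide +kernel⟩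

theorem c_mm_203_b : CertB 1239849684 370763052 0 536870912 697932185 42949674 3 eng mog cd1q2b cd2q0 pd3 true false false .up 2 0 3
    ndB1q2b ndB2q0 pcB3 Cut.none Ext.none :=
  certB1 (fam := true) (s1 := false) (s2 := false) (a := 2) (b := 0) (c := 3) (cn := .up) (n1 := ndB1q2b) (n2 := ndB2q0) (pc := pcB3) (cut := Cut.none) (xt := Ext.none) (P1 := 1239849684) (W1 := 370763052) (P2 := 0) (W2 := 536870912) (P3 := 697932185) (W3 := 42949674) (N0 := 3) (En := eng) (mo := mog) (C1 := cd1q2b) (C2 := cd2q0) (C3 := pd3)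
    rfl (fun _ => rfl) k0_mm_203_b

noncomputable def f_mm_213_a : ℕ → ℕ → ℕ → ℕ → Bool := onCell 0 536870912 536870912 536870912 697932185 42949674
    (rowB 3 eng mog cd1q2a cd2q1 pd3 0 true false false .pnn 2 1 3 (qsf 0 536870912 536870912 536870912 3) ndB1q2a ndB2q1 pcB3 Cut.none Ext.none)

def k0_mm_213_a : ∃ t, chk3 f_mm_213_a t 1 1 1 = true :=
  ⟨(l 4), by decide +kernel⟩

theorem c_mm_213_a : CertB 0 536870912 536870912 536870912 697932185 42949674 3 eng mog cd1q2a cd2q1 pd3 true false false .pnn 2 1 3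
    ndB1q2a ndB2q1 pcB3 Cut.none Ext.none :=
  certB0 (fam := true) (s1 := false) (s2 := false) (a := 2) (b := 1) (c := 3) (cn := .pnn) (n1 := ndB1q2a) (n2 := ndB2q1) (pc := pcB3) (cut := Cut.none) (xt := Ext.none) (P1 := 0) (W1 := 536870912) (P2 := 536870912) (W2 := 536870912) (P3 := 697932185) (W3 := 42949674) (N0 := 3) (En := eng) (mo := mog) (C1 := cd1q2a) (C2 := cd2q1) (C3 := pd3)
    rfl k0_mm_213_a

noncomputable def f_mm_213_b : ℕ → ℕ → ℕ → ℕ → Bool := onCell 1239849684 370763052 536870912 536870912 697932185 42949674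
    (rowB 3 eng mog cd1q2b cd2q1 pd3 0 true false false .pnn 2 1 3 (qsf 1239849684 370763052 536870912 536870912 3) ndB1q2b ndB2q1 pcB3 Cut.none Ext.none)

def k0_mm_213_b : ∃ t, chk3 f_mm_213_b t 1 1 1 = true :=
  ⟨(l 4), by decide +kernel⟩

theorem c_mm_213_b : CertB 1239849684 370763052 536870912 536870912 697932185 42949674 3 eng mog cd1q2b cd2q1 pd3 true false false .pnn 2 1 3
    ndB1q2b ndB2q1 pcB3 Cut.none Ext.none :=
  certB0 (fam := true) (s1 := false) (s2 := false) (a := 2) (b := 1) (c := 3) (cn := .pnn) (n1 := ndB1q2b) (n2 := ndB2q1) (pc := pcB3) (cut := Cut.none) (xt := Ext.none) (P1 := 1239849684) (W1 := 370763052) (P2 := 536870912) (W2 := 536870912) (P3 := 697932185) (W3 := 42949674) (N0 := 3) (En := eng) (mo := mog) (C1 := cd1q2b) (C2 := cd2q1) (C3 := pd3)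
    rfl k0_mm_213_b

noncomputable def f_mm_303 : ℕ → ℕ → ℕ → ℕ → Bool := onCell 1610612736 536870912 0 536870912 697932185 42949674
    (rowB 3 eng mog cd1q3 cd2q0 pd3 2 true false false .npn 3 0 3 (qsf 1610612736 536870912 0 536870912 3) ndB1q3 ndB2q0 pcB3 Cut.none Ext.none)

def k0_mm_303 : ∃ t, chk3 f_mm_303 t 1 1 1 = true :=
  ⟨(a (a (b (a (b (a (l 16051904) (l 16030632)) (l 1)) (b (a (l 16020456) (l 16025648)) (l 4))) (l 1)) (l 4)) (l 4)), by decide +kernel⟩

theorem c_mm_303 : CertB 1610612736 536870912 0 536870912 697932185 42949674 3 eng mog cd1q3 cd2q0 pd3 true false false .npn 3 0 3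
    ndB1q3 ndB2q0 pcB3 Cut.none Ext.none :=
  certB2 (fam := true) (s1 := false) (s2 := false) (a := 3) (b := 0) (c := 3) (cn := .npn) (n1 := ndB1q3) (n2 := ndB2q0) (pc := pcB3) (cut := Cut.none) (xt := Ext.none) (P1 := 1610612736) (W1 := 536870912) (P2 := 0) (W2 := 536870912) (P3 := 697932185) (W3 := 42949674) (N0 := 3) (En := eng) (mo := mog) (C1 := cd1q3) (C2 := cd2q0) (C3 := pd3)
    rfl (fun _ => rfl) k0_mm_303

noncomputable def f_mm_313 : ℕ → ℕ → ℕ → ℕ → Bool := onCell 1610612736 536870912 536870912 536870912 697932185 42949674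
    (rowB 3 eng mog cd1q3 cd2q1 pd3 0 true false false .dn 3 1 3 (qsf 1610612736 536870912 536870912 536870912 3) ndB1q3 ndB2q1 pcB3 Cut.none Ext.none)

def k0_mm_313 : ∃ t, chk3 f_mm_313 t 1 1 1 = true :=
  ⟨(l 4), by decide +kernel⟩

theorem c_mm_313 : CertB 1610612736 536870912 536870912 536870912 697932185 42949674 3 eng mog cd1q3 cd2q1 pd3 true false false .dn 3 1 3
    ndB1q3 ndB2q1 pcB3 Cut.none Ext.none :=
  certB0 (fam := true) (s1 := false) (s2 := false) (a := 3) (b := 1) (c := 3) (cn := .dn) (n1 := ndB1q3) (n2 := ndB2q1) (pc := pcB3) (cut := Cut.none) (xt := Ext.none) (P1 := 1610612736) (W1 := 536870912) (P2 := 536870912) (W2 := 536870912) (P3 := 697932185) (W3 := 42949674) (N0 := 3) (En := eng) (mo := mog) (C1 := cd1q3) (C2 := cd2q1) (C3 := pd3)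
    rfl k0_mm_313

end Pool.Agent.Strip051.G.I6500_6900.Tab.C.BA12

namespace Pool.Agent.Strip051.G.I6500_6900.Tab.C.BA13

open Pool.Agent.Strip051.PB Pool.Agent.Strip051.PB.T
open Pool.Agent.Strip051.G.I6500_6900.Tab

noncomputable def f_pp_001 : ℕ → ℕ → ℕ → ℕ → Bool := onCell 0 536870912 0 536870912 697932185 42949674
    (rowB 3 eng mog cd1q0 cd3q0 pd1 0 true true true .up 0 0 1 (qsf 0 536870912 0 536870912 1) ndB1q0 ndB3q0 pcB1 Cut.none Ext.none)

def k0_pp_001 : ∃ t, chk3 f_pp_001 t 1 1 1 = true :=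
  ⟨(l 4), by decide +kernel⟩

theorem c_pp_001 : CertB 0 536870912 0 536870912 697932185 42949674 3 eng mog cd1q0 cd3q0 pd1 true true true .up 0 0 1
    ndB1q0 ndB3q0 pcB1 Cut.none Ext.none :=
  certB0 (fam := true) (s1 := true) (s2 := true) (a := 0) (b := 0) (c := 1) (cn := .up) (n1 := ndB1q0) (n2 := ndB3q0) (pc := pcB1) (cut := Cut.none) (xt := Ext.none) (P1 := 0) (W1 := 536870912) (P2 := 0) (W2 := 536870912) (P3 := 697932185) (W3 := 42949674) (N0 := 3) (En := eng) (mo := mog) (C1 := cd1q0) (C2 := cd3q0) (C3 := pd1)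
    rfl k0_pp_001

noncomputable def f_pp_011 : ℕ → ℕ → ℕ → ℕ → Bool := onCell 0 536870912 536870912 536870912 697932185 42949674
    (rowB 3 eng mog cd1q0 cd3q1 pd1 0 true true true .pnn 0 1 1 (qsf 0 536870912 536870912 536870912 1) ndB1q0 ndB3q1 pcB1 Cut.none Ext.none)

def k0_pp_011 : ∃ t, chk3 f_pp_011 t 1 1 1 = true :=
  ⟨(l 4), by decide +kernel⟩

theorem c_pp_011 : CertB 0 536870912 536870912 536870912 697932185 42949674 3 eng mog cd1q0 cd3q1 pd1 true true true .pnn 0 1 1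
    ndB1q0 ndB3q1 pcB1 Cut.none Ext.none :=
  certB0 (fam := true) (s1 := true) (s2 := true) (a := 0) (b := 1) (c := 1) (cn := .pnn) (n1 := ndB1q0) (n2 := ndB3q1) (pc := pcB1) (cut := Cut.none) (xt := Ext.none) (P1 := 0) (W1 := 536870912) (P2 := 536870912) (W2 := 536870912) (P3 := 697932185) (W3 := 42949674) (N0 := 3) (En := eng) (mo := mog) (C1 := cd1q0) (C2 := cd3q1) (C3 := pd1)
    rfl k0_pp_011

noncomputable def f_pp_012 : ℕ → ℕ → ℕ → ℕ → Bool := onCell 0 536870912 536870912 536870912 697932185 42949674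
    (rowB 3 eng mog cd1q0 cd3q1 pd2 0 true true true .pnp 0 1 2 (qsf 0 536870912 536870912 536870912 2) ndB1q0 ndB3q1 pcB2 Cut.none Ext.none)

def k0_pp_012 : ∃ t, chk3 f_pp_012 t 1 1 1 = true :=
  ⟨(l 4), by decide +kernel⟩

theorem c_pp_012 : CertB 0 536870912 536870912 536870912 697932185 42949674 3 eng mog cd1q0 cd3q1 pd2 true true true .pnp 0 1 2
    ndB1q0 ndB3q1 pcB2 Cut.none Ext.none :=
  certB0 (fam := true) (s1 := true) (s2 := true) (a := 0) (b := 1) (c := 2) (cn := .pnp) (n1 := ndB1q0) (n2 := ndB3q1) (pc := pcB2) (cut := Cut.none) (xt := Ext.none) (P1 := 0) (W1 := 536870912) (P2 := 536870912) (W2 := 536870912) (P3 := 697932185) (W3 := 42949674) (N0 := 3) (En := eng) (mo := mog) (C1 := cd1q0) (C2 := cd3q1) (C3 := pd2)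
    rfl k0_pp_012

noncomputable def cut_pp_022_a : Cut := Cut.of [[⟨0, 0, 0, 67108864⟩, ⟨1, 1, 0, 67108864⟩, ⟨2, 1, 0, 67108864⟩]]

noncomputable def f_pp_022_a : ℕ → ℕ → ℕ → ℕ → Bool := onCell 0 536870912 0 536870912 697932185 42949674
    (rowB 3 eng mog cd1q0 cd3q2a pd2 0 true true true .pp 0 2 2 (qsf 0 536870912 0 536870912 2) ndB1q0 ndB3q2a pcB2 cut_pp_022_a Ext.none)

def k0_pp_022_a : ∃ t, chk3 f_pp_022_a t 1 1 1 = true :=
  ⟨(a (a (a (a (a (b (b (b (b (l 16439792) (l 16444408)) (b (l 16451480) (l 16460992))) (b (l 16480528) (l 16524968))) (b (b (b (l 16545848) (l 16568800)) (b (l 16592552) (a (l 16614592) (l 16624080)))) (b (b (a (a (l 16641936) (l 16647096)) (b (l 16646520) (l 16662528))) (a (b (b (l 16664976) (l 6)) (l 6)) (b (l 16679464) (a (l 6) (l 4))))) (l 6)))) (b (b (b (b (l 16451880) (l 16456624)) (a (l 16475504) (l 16409032))) (b (a (l 16489568) (l 16538096)) (l 16527216))) (b (b (b (l 16558816) (l 16583008)) (b (l 16609520) (a (l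 16633056) (l 16640616)))) (b (b (a (b (l 16655360) (l 16670768)) (l 4)) (l 4)) (l 4))))) (b (b (b (a (l 16468656) (l 16482856)) (a (l 16482960) (l 16497560))) (b (a (b (l 16499712) (l 16514256)) (l 16522024)) (b (a (l 16552376) (l 16546528)) (a (l 16551040) (l 16587376))))) (b (b (a (b (l 16573088) (l 16597920)) (b (a (l 16584968) (l 4)) (l 4))) (a (b (l 16623552) (l 4)) (l 4))) (l 4)))) (b (b (b (a (l 16503976) (l 16532528)) (a (l 16519376) (l 16568496))) (a (b (a (l 16537032) (l 16552520)) (a (l 16572864) (l 4))) (b (a (l 16563768) (l 4)) (l 4)))) (b (l 4) (l 4)))) (b (a (b (a (b (l 16560384) (l 43184196967)) (b (a (l 16581560) (l 4)) (l 4))) (l 4)) (l 4)) (l 4))) (l 4)), by decide +kernel⟩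

theorem c_pp_022_a : CertB 0 536870912 0 536870912 697932185 42949674 3 eng mog cd1q0 cd3q2a pd2 true true true .pp 0 2 2
    ndB1q0 ndB3q2a pcB2 cut_pp_022_a Ext.none :=
  certB0 (fam := true) (s1 := true) (s2 := true) (a := 0) (b := 2) (c := 2) (cn := .pp) (n1 := ndB1q0) (n2 := ndB3q2a) (pc := pcB2) (cut := cut_pp_022_a) (xt := Ext.none) (P1 := 0) (W1 := 536870912) (P2 := 0) (W2 := 536870912) (P3 := 697932185) (W3 := 42949674) (N0 := 3) (En := eng) (mo := mog) (C1 := cd1q0) (C2 := cd3q2a) (C3 := pd2)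
    rfl k0_pp_022_a

noncomputable def cut_pp_022_b : Cut := Cut.of [[⟨0, 0, 0, 67108864⟩, ⟨1, 1, 0, 67108864⟩, ⟨2, 1, 0, 67108864⟩]]

noncomputable def f_pp_022_b : ℕ → ℕ → ℕ → ℕ → Bool := onCell 1073741824 536870912 1239849684 370763052 697932185 42949674
    (rowB 3 eng mog cd1q0 cd3q2b pd2 2 true true true .pp 0 2 2 (qsf 0 536870912 1239849684 370763052 2) ndB1q0 ndB3q2b pcB2 cut_pp_022_b Ext.none)

def k0_pp_022_b : ∃ t, chk3 f_pp_022_b t 1 1 1 = true :=
  ⟨(a (b (a (l 1) (a (b (b (a (a (l 1) (b (l 16380080) (l 1))) (a (b (b (a (l 16422000) (l 16426552)) (l 16436096)) (l 1)) (b (l 16400552) (l 16340568)))) (l 1)) (l 1)) (b (b (a (a (b (l 16435624) (l 16354536)) (l 16461312)) (b (l 16470216) (l 16409664))) (a (b (l 16346560) (l 1)) (b (l 16349760) (l 16290584)))) (a (l 1) (b (l 16203952) (l 1)))))) (l 1)) (b (a (a (b (b (a (b (l 16497776) (l 16436136)) (b (l 16524048) (l 16458176))) (a (l 16366872) (l 16385368))) (a (b (l 16312200) (l 1)) (b (l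 16244936) (l 16125048)))) (b (a (a (b (l 16512560) (l 16381864)) (l 4)) (l 4)) (a (b (a (l 16259960) (l 16271320)) (l 16185040)) (b (l 4) (a (l 16168640) (l 4)))))) (l 4)) (a (b (a (l 1) (a (b (l 16217096) (l 1)) (b (l 16222288) (l 15940688)))) (l 1)) (a (b (a (b (l 4) (l 16001704)) (l 4)) (a (l 1) (b (l 4) (l 1)))) (l 4))))), by decide +kernel⟩

theorem c_pp_022_b : CertB 0 536870912 1239849684 370763052 697932185 42949674 3 eng mog cd1q0 cd3q2b pd2 true true true .pp 0 2 2
    ndB1q0 ndB3q2b pcB2 cut_pp_022_b Ext.none :=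
  certB2 (fam := true) (s1 := true) (s2 := true) (a := 0) (b := 2) (c := 2) (cn := .pp) (n1 := ndB1q0) (n2 := ndB3q2b) (pc := pcB2) (cut := cut_pp_022_b) (xt := Ext.none) (P1 := 0) (W1 := 536870912) (P2 := 1239849684) (W2 := 370763052) (P3 := 697932185) (W3 := 42949674) (N0 := 3) (En := eng) (mo := mog) (C1 := cd1q0) (C2 := cd3q2b) (C3 := pd2)
    rfl (fun _ => rfl) k0_pp_022_b

noncomputable def f_pp_023_a : ℕ → ℕ → ℕ → ℕ → Bool := onCell 1610612736 536870912 0 536870912 697932185 42949674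
    (rowB 3 eng mog cd1q0 cd3q2a pd3 2 true true true .up 0 2 3 (qsf 0 536870912 0 536870912 3) ndB1q0 ndB3q2a pcB3 Cut.none Ext.none)

def k0_pp_023_a : ∃ t, chk3 f_pp_023_a t 1 1 1 = true :=
  ⟨(l 4), by decide +kernel⟩

theorem c_pp_023_a : CertB 0 536870912 0 536870912 697932185 42949674 3 eng mog cd1q0 cd3q2a pd3 true true true .up 0 2 3
    ndB1q0 ndB3q2a pcB3 Cut.none Ext.none :=
  certB2 (fam := true) (s1 := true) (s2 := true) (a := 0) (b := 2) (c := 3) (cn := .up) (n1 := ndB1q0) (n2 := ndB3q2a) (pc := pcB3) (cut := Cut.none) (xt := Ext.none) (P1 := 0) (W1 := 536870912) (P2 := 0) (W2 := 536870912) (P3 := 697932185) (W3 := 42949674) (N0 := 3) (En := eng) (mo := mog) (C1 := cd1q0) (C2 := cd3q2a) (C3 := pd3)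
    rfl (fun _ => rfl) k0_pp_023_a

noncomputable def f_pp_023_b : ℕ → ℕ → ℕ → ℕ → Bool := onCell 0 536870912 1610612736 536870912 697932185 42949674
    (rowB 3 eng mog cd1q0 cd3q2b pd3 1 true true true .up 0 2 3 (qsf 0 536870912 1239849684 370763052 3) ndB1q0 ndB3q2b pcB3 Cut.none Ext.none)

def k0_pp_023_b : ∃ t, chk3 f_pp_023_b t 1 1 1 = true :=
  ⟨(b (l 4) (l 4)), by decide +kernel⟩

theorem c_pp_023_b : CertB 0 536870912 1239849684 370763052 697932185 42949674 3 eng mog cd1q0 cd3q2b pd3 true true true .up 0 2 3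
    ndB1q0 ndB3q2b pcB3 Cut.none Ext.none :=
  certB1 (fam := true) (s1 := true) (s2 := true) (a := 0) (b := 2) (c := 3) (cn := .up) (n1 := ndB1q0) (n2 := ndB3q2b) (pc := pcB3) (cut := Cut.none) (xt := Ext.none) (P1 := 0) (W1 := 536870912) (P2 := 1239849684) (W2 := 370763052) (P3 := 697932185) (W3 := 42949674) (N0 := 3) (En := eng) (mo := mog) (C1 := cd1q0) (C2 := cd3q2b) (C3 := pd3)
    rfl (fun _ => rfl) k0_pp_023_b

noncomputable def f_pp_033 : ℕ → ℕ → ℕ → ℕ → Bool := onCell 0 536870912 1610612736 536870912 697932185 42949674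
    (rowB 3 eng mog cd1q0 cd3q3 pd3 0 true true true .pnn 0 3 3 (qsf 0 536870912 1610612736 536870912 3) ndB1q0 ndB3q3 pcB3 Cut.none Ext.none)

def k0_pp_033 : ∃ t, chk3 f_pp_033 t 1 1 1 = true :=
  ⟨(a (l 4) (l 4)), by decide +kernel⟩

theorem c_pp_033 : CertB 0 536870912 1610612736 536870912 697932185 42949674 3 eng mog cd1q0 cd3q3 pd3 true true true .pnn 0 3 3
    ndB1q0 ndB3q3 pcB3 Cut.none Ext.none :=
  certB0 (fam := true) (s1 := true) (s2 := true) (a := 0) (b := 3) (c := 3) (cn := .pnn) (n1 := ndB1q0) (n2 := ndB3q3) (pc := pcB3) (cut := Cut.none) (xt := Ext.none) (P1 := 0) (W1 := 536870912) (P2 := 1610612736) (W2 := 536870912) (P3 := 697932185) (W3 := 42949674) (N0 := 3) (En := eng) (mo := mog) (C1 := cd1q0) (C2 := cd3q3) (C3 := pd3)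
    rfl k0_pp_033

noncomputable def f_pp_101 : ℕ → ℕ → ℕ → ℕ → Bool := onCell 536870912 536870912 0 536870912 697932185 42949674
    (rowB 3 eng mog cd1q1 cd3q0 pd1 0 true true true .npn 1 0 1 (qsf 536870912 536870912 0 536870912 1) ndB1q1 ndB3q0 pcB1 Cut.none Ext.none)

def k0_pp_101 : ∃ t, chk3 f_pp_101 t 1 1 1 = true :=
  ⟨(l 4), by decide +kernel⟩

theorem c_pp_101 : CertB 536870912 536870912 0 536870912 697932185 42949674 3 eng mog cd1q1 cd3q0 pd1 true true true .npn 1 0 1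
    ndB1q1 ndB3q0 pcB1 Cut.none Ext.none :=
  certB0 (fam := true) (s1 := true) (s2 := true) (a := 1) (b := 0) (c := 1) (cn := .npn) (n1 := ndB1q1) (n2 := ndB3q0) (pc := pcB1) (cut := Cut.none) (xt := Ext.none) (P1 := 536870912) (W1 := 536870912) (P2 := 0) (W2 := 536870912) (P3 := 697932185) (W3 := 42949674) (N0 := 3) (En := eng) (mo := mog) (C1 := cd1q1) (C2 := cd3q0) (C3 := pd1)
    rfl k0_pp_101

noncomputable def f_pp_102 : ℕ → ℕ → ℕ → ℕ → Bool := onCell 536870912 536870912 0 536870912 697932185 42949674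
    (rowB 3 eng mog cd1q1 cd3q0 pd2 0 true true true .npp 1 0 2 (qsf 536870912 536870912 0 536870912 2) ndB1q1 ndB3q0 pcB2 Cut.none Ext.none)

def k0_pp_102 : ∃ t, chk3 f_pp_102 t 1 1 1 = true :=
  ⟨(l 4), by decide +kernel⟩

theorem c_pp_102 : CertB 536870912 536870912 0 536870912 697932185 42949674 3 eng mog cd1q1 cd3q0 pd2 true true true .npp 1 0 2
    ndB1q1 ndB3q0 pcB2 Cut.none Ext.none :=
  certB0 (fam := true) (s1 := true) (s2 := true) (a := 1) (b := 0) (c := 2) (cn := .npp) (n1 := ndB1q1) (n2 := ndB3q0) (pc := pcB2) (cut := Cut.none) (xt := Ext.none) (P1 := 536870912) (W1 := 536870912) (P2 := 0) (W2 := 536870912) (P3 := 697932185) (W3 := 42949674) (N0 := 3) (En := eng) (mo := mog) (C1 := cd1q1) (C2 := cd3q0) (C3 := pd2)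
    rfl k0_pp_102

noncomputable def f_pp_112 : ℕ → ℕ → ℕ → ℕ → Bool := onCell 536870912 536870912 536870912 536870912 697932185 42949674
    (rowB 3 eng mog cd1q1 cd3q1 pd2 0 true true true .dn 1 1 2 (qsf 536870912 536870912 536870912 536870912 2) ndB1q1 ndB3q1 pcB2 Cut.none Ext.none)

def k0_pp_112 : ∃ t, chk3 f_pp_112 t 1 1 1 = true :=
  ⟨(l 4), by decide +kernel⟩

theorem c_pp_112 : CertB 536870912 536870912 536870912 536870912 697932185 42949674 3 eng mog cd1q1 cd3q1 pd2 true true true .dn 1 1 2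
    ndB1q1 ndB3q1 pcB2 Cut.none Ext.none :=
  certB0 (fam := true) (s1 := true) (s2 := true) (a := 1) (b := 1) (c := 2) (cn := .dn) (n1 := ndB1q1) (n2 := ndB3q1) (pc := pcB2) (cut := Cut.none) (xt := Ext.none) (P1 := 536870912) (W1 := 536870912) (P2 := 536870912) (W2 := 536870912) (P3 := 697932185) (W3 := 42949674) (N0 := 3) (En := eng) (mo := mog) (C1 := cd1q1) (C2 := cd3q1) (C3 := pd2)
    rfl k0_pp_112

noncomputable def f_pp_113 : ℕ → ℕ → ℕ → ℕ → Bool := onCell 536870912 536870912 536870912 536870912 697932185 42949674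
    (rowB 3 eng mog cd1q1 cd3q1 pd3 0 true true true .nn 1 1 3 (qsf 536870912 536870912 536870912 536870912 3) ndB1q1 ndB3q1 pcB3 Cut.none Ext.none)

def k0_pp_113 : ∃ t, chk3 f_pp_113 t 1 1 1 = true :=
  ⟨(l 4), by decide +kernel⟩

theorem c_pp_113 : CertB 536870912 536870912 536870912 536870912 697932185 42949674 3 eng mog cd1q1 cd3q1 pd3 true true true .nn 1 1 3
    ndB1q1 ndB3q1 pcB3 Cut.none Ext.none :=
  certB0 (fam := true) (s1 := true) (s2 := true) (a := 1) (b := 1) (c := 3) (cn := .nn) (n1 := ndB1q1) (n2 := ndB3q1) (pc := pcB3) (cut := Cut.none) (xt := Ext.none) (P1 := 536870912) (W1 := 536870912) (P2 := 536870912) (W2 := 536870912) (P3 := 697932185) (W3 := 42949674) (N0 := 3) (En := eng) (mo := mog) (C1 := cd1q1) (C2 := cd3q1) (C3 := pd3)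
    rfl k0_pp_113

noncomputable def f_pp_123_a : ℕ → ℕ → ℕ → ℕ → Bool := onCell 536870912 536870912 0 536870912 697932185 42949674
    (rowB 3 eng mog cd1q1 cd3q2a pd3 0 true true true .npn 1 2 3 (qsf 536870912 536870912 0 536870912 3) ndB1q1 ndB3q2a pcB3 Cut.none Ext.none)

def k0_pp_123_a : ∃ t, chk3 f_pp_123_a t 1 1 1 = true :=
  ⟨(l 4), by decide +kernel⟩

theorem c_pp_123_a : CertB 536870912 536870912 0 536870912 697932185 42949674 3 eng mog cd1q1 cd3q2a pd3 true true true .npn 1 2 3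
    ndB1q1 ndB3q2a pcB3 Cut.none Ext.none :=
  certB0 (fam := true) (s1 := true) (s2 := true) (a := 1) (b := 2) (c := 3) (cn := .npn) (n1 := ndB1q1) (n2 := ndB3q2a) (pc := pcB3) (cut := Cut.none) (xt := Ext.none) (P1 := 536870912) (W1 := 536870912) (P2 := 0) (W2 := 536870912) (P3 := 697932185) (W3 := 42949674) (N0 := 3) (En := eng) (mo := mog) (C1 := cd1q1) (C2 := cd3q2a) (C3 := pd3)
    rfl k0_pp_123_a

noncomputable def f_pp_123_b : ℕ → ℕ → ℕ → ℕ → Bool := onCell 536870912 536870912 1239849684 370763052 697932185 42949674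
    (rowB 3 eng mog cd1q1 cd3q2b pd3 0 true true true .npn 1 2 3 (qsf 536870912 536870912 1239849684 370763052 3) ndB1q1 ndB3q2b pcB3 Cut.none Ext.none)

def k0_pp_123_b : ∃ t, chk3 f_pp_123_b t 1 1 1 = true :=
  ⟨(l 4), by decide +kernel⟩

theorem c_pp_123_b : CertB 536870912 536870912 1239849684 370763052 697932185 42949674 3 eng mog cd1q1 cd3q2b pd3 true true true .npn 1 2 3
    ndB1q1 ndB3q2b pcB3 Cut.none Ext.none :=
  certB0 (fam := true) (s1 := true) (s2 := true) (a := 1) (b := 2) (c := 3) (cn := .npn) (n1 := ndB1q1) (n2 := ndB3q2b) (pc := pcB3) (cut := Cut.none) (xt := Ext.none) (P1 := 536870912) (W1 := 536870912) (P2 := 1239849684) (W2 := 370763052) (P3 := 697932185) (W3 := 42949674) (N0 := 3) (En := eng) (mo := mog) (C1 := cd1q1) (C2 := cd3q2b) (C3 := pd3)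
    rfl k0_pp_123_b

noncomputable def f_pp_133 : ℕ → ℕ → ℕ → ℕ → Bool := onCell 536870912 536870912 1610612736 536870912 697932185 42949674
    (rowB 3 eng mog cd1q1 cd3q3 pd3 0 true true true .dn 1 3 3 (qsf 536870912 536870912 1610612736 536870912 3) ndB1q1 ndB3q3 pcB3 Cut.none Ext.none)

def k0_pp_133 : ∃ t, chk3 f_pp_133 t 1 1 1 = true :=
  ⟨(l 4), by decide +kernel⟩

theorem c_pp_133 : CertB 536870912 536870912 1610612736 536870912 697932185 42949674 3 eng mog cd1q1 cd3q3 pd3 true true true .dn 1 3 3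
    ndB1q1 ndB3q3 pcB3 Cut.none Ext.none :=
  certB0 (fam := true) (s1 := true) (s2 := true) (a := 1) (b := 3) (c := 3) (cn := .dn) (n1 := ndB1q1) (n2 := ndB3q3) (pc := pcB3) (cut := Cut.none) (xt := Ext.none) (P1 := 536870912) (W1 := 536870912) (P2 := 1610612736) (W2 := 536870912) (P3 := 697932185) (W3 := 42949674) (N0 := 3) (En := eng) (mo := mog) (C1 := cd1q1) (C2 := cd3q3) (C3 := pd3)
    rfl k0_pp_133

noncomputable def f_pp_202_a : ℕ → ℕ → ℕ → ℕ → Bool := onCell 0 536870912 0 536870912 697932185 42949674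
    (rowB 3 eng mog cd1q2a cd3q0 pd2 0 true true true .pp 2 0 2 (qsf 0 536870912 0 536870912 2) ndB1q2a ndB3q0 pcB2 Cut.none Ext.none)

def k0_pp_202_a : ∃ t, chk3 f_pp_202_a t 1 1 1 = true :=
  ⟨(l 5), by decide +kernel⟩

theorem c_pp_202_a : CertB 0 536870912 0 536870912 697932185 42949674 3 eng mog cd1q2a cd3q0 pd2 true true true .pp 2 0 2
    ndB1q2a ndB3q0 pcB2 Cut.none Ext.none :=
  certB0 (fam := true) (s1 := true) (s2 := true) (a := 2) (b := 0) (c := 2) (cn := .pp) (n1 := ndB1q2a) (n2 := ndB3q0) (pc := pcB2) (cut := Cut.none) (xt := Ext.none) (P1 := 0) (W1 := 536870912) (P2 := 0) (W2 := 536870912) (P3 := 697932185) (W3 := 42949674) (N0 := 3) (En := eng) (mo := mog) (C1 := cd1q2a) (C2 := cd3q0) (C3 := pd2)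
    rfl k0_pp_202_a

noncomputable def f_pp_202_b : ℕ → ℕ → ℕ → ℕ → Bool := onCell 1239849684 370763052 0 536870912 697932185 42949674
    (rowB 3 eng mog cd1q2b cd3q0 pd2 0 true true true .pp 2 0 2 (qsf 1239849684 370763052 0 536870912 2) ndB1q2b ndB3q0 pcB2 Cut.none Ext.none)

def k0_pp_202_b : ∃ t, chk3 f_pp_202_b t 1 1 1 = true :=
  ⟨(l 5), by decide +kernel⟩

theorem c_pp_202_b : CertB 1239849684 370763052 0 536870912 697932185 42949674 3 eng mog cd1q2b cd3q0 pd2 true true true .pp 2 0 2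
    ndB1q2b ndB3q0 pcB2 Cut.none Ext.none :=
  certB0 (fam := true) (s1 := true) (s2 := true) (a := 2) (b := 0) (c := 2) (cn := .pp) (n1 := ndB1q2b) (n2 := ndB3q0) (pc := pcB2) (cut := Cut.none) (xt := Ext.none) (P1 := 1239849684) (W1 := 370763052) (P2 := 0) (W2 := 536870912) (P3 := 697932185) (W3 := 42949674) (N0 := 3) (En := eng) (mo := mog) (C1 := cd1q2b) (C2 := cd3q0) (C3 := pd2)
    rfl k0_pp_202_b

noncomputable def f_pp_203_a : ℕ → ℕ → ℕ → ℕ → Bool := onCell 0 536870912 0 536870912 697932185 42949674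
    (rowB 3 eng mog cd1q2a cd3q0 pd3 0 true true true .up 2 0 3 (qsf 0 536870912 0 536870912 3) ndB1q2a ndB3q0 pcB3 Cut.none Ext.none)

def k0_pp_203_a : ∃ t, chk3 f_pp_203_a t 1 1 1 = true :=
  ⟨(l 5), by decide +kernel⟩

theorem c_pp_203_a : CertB 0 536870912 0 536870912 697932185 42949674 3 eng mog cd1q2a cd3q0 pd3 true true true .up 2 0 3
    ndB1q2a ndB3q0 pcB3 Cut.none Ext.none :=
  certB0 (fam := true) (s1 := true) (s2 := true) (a := 2) (b := 0) (c := 3) (cn := .up) (n1 := ndB1q2a) (n2 := ndB3q0) (pc := pcB3) (cut := Cut.none) (xt := Ext.none) (P1 := 0) (W1 := 536870912) (P2 := 0) (W2 := 536870912) (P3 := 697932185) (W3 := 42949674) (N0 := 3) (En := eng) (mo := mog) (C1 := cd1q2a) (C2 := cd3q0) (C3 := pd3)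
    rfl k0_pp_203_a

noncomputable def f_pp_203_b : ℕ → ℕ → ℕ → ℕ → Bool := onCell 1239849684 370763052 0 536870912 697932185 42949674
    (rowB 3 eng mog cd1q2b cd3q0 pd3 0 true true true .up 2 0 3 (qsf 1239849684 370763052 0 536870912 3) ndB1q2b ndB3q0 pcB3 Cut.none Ext.none)

def k0_pp_203_b : ∃ t, chk3 f_pp_203_b t 1 1 1 = true :=
  ⟨(l 5), by decide +kernel⟩

theorem c_pp_203_b : CertB 1239849684 370763052 0 536870912 697932185 42949674 3 eng mog cd1q2b cd3q0 pd3 true true true .up 2 0 3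
    ndB1q2b ndB3q0 pcB3 Cut.none Ext.none :=
  certB0 (fam := true) (s1 := true) (s2 := true) (a := 2) (b := 0) (c := 3) (cn := .up) (n1 := ndB1q2b) (n2 := ndB3q0) (pc := pcB3) (cut := Cut.none) (xt := Ext.none) (P1 := 1239849684) (W1 := 370763052) (P2 := 0) (W2 := 536870912) (P3 := 697932185) (W3 := 42949674) (N0 := 3) (En := eng) (mo := mog) (C1 := cd1q2b) (C2 := cd3q0) (C3 := pd3)
    rfl k0_pp_203_b

noncomputable def f_pp_213_a : ℕ → ℕ → ℕ → ℕ → Bool := onCell 0 536870912 536870912 536870912 697932185 42949674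
    (rowB 3 eng mog cd1q2a cd3q1 pd3 0 true true true .pnn 2 1 3 (qsf 0 536870912 536870912 536870912 3) ndB1q2a ndB3q1 pcB3 Cut.none Ext.none)

def k0_pp_213_a : ∃ t, chk3 f_pp_213_a t 1 1 1 = true :=
  ⟨(l 4), by decide +kernel⟩

theorem c_pp_213_a : CertB 0 536870912 536870912 536870912 697932185 42949674 3 eng mog cd1q2a cd3q1 pd3 true true true .pnn 2 1 3
    ndB1q2a ndB3q1 pcB3 Cut.none Ext.none :=
  certB0 (fam := true) (s1 := true) (s2 := true) (a := 2) (b := 1) (c := 3) (cn := .pnn) (n1 := ndB1q2a) (n2 := ndB3q1) (pc := pcB3) (cut := Cut.none) (xt := Ext.none) (P1 := 0) (W1 := 536870912) (P2 := 536870912) (W2 := 536870912) (P3 := 697932185) (W3 := 42949674) (N0 := 3) (En := eng) (mo := mog) (C1 := cd1q2a) (C2 := cd3q1) (C3 := pd3)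
    rfl k0_pp_213_a

noncomputable def f_pp_213_b : ℕ → ℕ → ℕ → ℕ → Bool := onCell 1239849684 370763052 536870912 536870912 697932185 42949674
    (rowB 3 eng mog cd1q2b cd3q1 pd3 0 true true true .pnn 2 1 3 (qsf 1239849684 370763052 536870912 536870912 3) ndB1q2b ndB3q1 pcB3 Cut.none Ext.none)

def k0_pp_213_b : ∃ t, chk3 f_pp_213_b t 1 1 1 = true :=
  ⟨(l 4), by decide +kernel⟩

theorem c_pp_213_b : CertB 1239849684 370763052 536870912 536870912 697932185 42949674 3 eng mog cd1q2b cd3q1 pd3 true true true .pnn 2 1 3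
    ndB1q2b ndB3q1 pcB3 Cut.none Ext.none :=
  certB0 (fam := true) (s1 := true) (s2 := true) (a := 2) (b := 1) (c := 3) (cn := .pnn) (n1 := ndB1q2b) (n2 := ndB3q1) (pc := pcB3) (cut := Cut.none) (xt := Ext.none) (P1 := 1239849684) (W1 := 370763052) (P2 := 536870912) (W2 := 536870912) (P3 := 697932185) (W3 := 42949674) (N0 := 3) (En := eng) (mo := mog) (C1 := cd1q2b) (C2 := cd3q1) (C3 := pd3)
    rfl k0_pp_213_b

noncomputable def f_pp_303 : ℕ → ℕ → ℕ → ℕ → Bool := onCell 1610612736 536870912 0 536870912 697932185 42949674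
    (rowB 3 eng mog cd1q3 cd3q0 pd3 0 true true true .npn 3 0 3 (qsf 1610612736 536870912 0 536870912 3) ndB1q3 ndB3q0 pcB3 Cut.none Ext.none)

def k0_pp_303 : ∃ t, chk3 f_pp_303 t 1 1 1 = true :=
  ⟨(l 5), by decide +kernel⟩

theorem c_pp_303 : CertB 1610612736 536870912 0 536870912 697932185 42949674 3 eng mog cd1q3 cd3q0 pd3 true true true .npn 3 0 3
    ndB1q3 ndB3q0 pcB3 Cut.none Ext.none :=
  certB0 (fam := true) (s1 := true) (s2 := true) (a := 3) (b := 0) (c := 3) (cn := .npn) (n1 := ndB1q3) (n2 := ndB3q0) (pc := pcB3) (cut := Cut.none) (xt := Ext.none) (P1 := 1610612736) (W1 := 536870912) (P2 := 0) (W2 := 536870912) (P3 := 697932185) (W3 := 42949674) (N0 := 3) (En := eng) (mo := mog) (C1 := cd1q3) (C2 := cd3q0) (C3 := pd3)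
    rfl k0_pp_303

noncomputable def f_pp_313 : ℕ → ℕ → ℕ → ℕ → Bool := onCell 1610612736 536870912 536870912 536870912 697932185 42949674
    (rowB 3 eng mog cd1q3 cd3q1 pd3 0 true true true .dn 3 1 3 (qsf 1610612736 536870912 536870912 536870912 3) ndB1q3 ndB3q1 pcB3 Cut.none Ext.none)

def k0_pp_313 : ∃ t, chk3 f_pp_313 t 1 1 1 = true :=
  ⟨(l 4), by decide +kernel⟩

theorem c_pp_313 : CertB 1610612736 536870912 536870912 536870912 697932185 42949674 3 eng mog cd1q3 cd3q1 pd3 true true true .dn 3 1 3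
    ndB1q3 ndB3q1 pcB3 Cut.none Ext.none :=
  certB0 (fam := true) (s1 := true) (s2 := true) (a := 3) (b := 1) (c := 3) (cn := .dn) (n1 := ndB1q3) (n2 := ndB3q1) (pc := pcB3) (cut := Cut.none) (xt := Ext.none) (P1 := 1610612736) (W1 := 536870912) (P2 := 536870912) (W2 := 536870912) (P3 := 697932185) (W3 := 42949674) (N0 := 3) (En := eng) (mo := mog) (C1 := cd1q3) (C2 := cd3q1) (C3 := pd3)
    rfl k0_pp_313

noncomputable def f_pm_001 : ℕ → ℕ → ℕ → ℕ → Bool := onCell 0 536870912 0 536870912 697932185 42949674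
    (rowB 3 eng mog cd1q0 cd3q0 pd1 0 true true false .up 0 0 1 (qsf 0 536870912 0 536870912 1) ndB1q0 ndB3q0 pcB1 Cut.none Ext.none)

def k0_pm_001 : ∃ t, chk3 f_pm_001 t 1 1 1 = true :=
  ⟨(l 3), by decide +kernel⟩

theorem c_pm_001 : CertB 0 536870912 0 536870912 697932185 42949674 3 eng mog cd1q0 cd3q0 pd1 true true false .up 0 0 1
    ndB1q0 ndB3q0 pcB1 Cut.none Ext.none :=
  certB0 (fam := true) (s1 := true) (s2 := false) (a := 0) (b := 0) (c := 1) (cn := .up) (n1 := ndB1q0) (n2 := ndB3q0) (pc := pcB1) (cut := Cut.none) (xt := Ext.none) (P1 := 0) (W1 := 536870912) (P2 := 0) (W2 := 536870912) (P3 := 697932185) (W3 := 42949674) (N0 := 3) (En := eng) (mo := mog) (C1 := cd1q0) (C2 := cd3q0) (C3 := pd1)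
    rfl k0_pm_001

noncomputable def f_pm_011 : ℕ → ℕ → ℕ → ℕ → Bool := onCell 0 536870912 536870912 536870912 697932185 42949674
    (rowB 3 eng mog cd1q0 cd3q1 pd1 1 true true false .pnn 0 1 1 (qsf 0 536870912 536870912 536870912 1) ndB1q0 ndB3q1 pcB1 Cut.none Ext.none)

def k0_pm_011 : ∃ t, chk3 f_pm_011 t 1 1 1 = true :=
  ⟨(l 3), by decide +kernel⟩

theorem c_pm_011 : CertB 0 536870912 536870912 536870912 697932185 42949674 3 eng mog cd1q0 cd3q1 pd1 true true false .pnn 0 1 1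
    ndB1q0 ndB3q1 pcB1 Cut.none Ext.none :=
  certB1 (fam := true) (s1 := true) (s2 := false) (a := 0) (b := 1) (c := 1) (cn := .pnn) (n1 := ndB1q0) (n2 := ndB3q1) (pc := pcB1) (cut := Cut.none) (xt := Ext.none) (P1 := 0) (W1 := 536870912) (P2 := 536870912) (W2 := 536870912) (P3 := 697932185) (W3 := 42949674) (N0 := 3) (En := eng) (mo := mog) (C1 := cd1q0) (C2 := cd3q1) (C3 := pd1)
    rfl (fun _ => rfl) k0_pm_011

noncomputable def f_pm_012 : ℕ → ℕ → ℕ → ℕ → Bool := onCell 1073741824 536870912 536870912 536870912 697932185 42949674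
    (rowB 3 eng mog cd1q0 cd3q1 pd2 2 true true false .pnp 0 1 2 (qsf 0 536870912 536870912 536870912 2) ndB1q0 ndB3q1 pcB2 Cut.none Ext.none)

def k0_pm_012 : ∃ t, chk3 f_pm_012 t 2 1 1 = true :=
  ⟨(a (a (l 3) (b (a (l 3) (b (b (l 2) (a (l 3) (a (l 16528792) (l 16529576)))) (a (l 3) (a (l 3) (b (l 16519256) (l 16508304)))))) (l 3))) (a (a (a (b (b (a (b (l 2) (l 16615464)) (l 2)) (a (b (a (l 16518760) (l 16516304)) (a (l 16503488) (l 16500160))) (b (l 16511824) (l 16493672)))) (b (a (b (a (l 3) (l 16481408)) (l 3)) (b (b (l 16478368) (l 16467856)) (b (l 16459176) (l 16461992)))) (b (l 3) (l 3)))) (b (b (l 2) (a (b (l 16508048) (l 16486576)) (a (b (l 16505720) (l 16482144)) (b (a (l 16505456) (l 16506304)) (a (l 16480016) (l 16479224)))))) (a (a (b (b (l 16465168) (l 16533960)) (b (l 16480544) (l 3))) (b (b (l 16460440) (l 16527168)) (b (l 16513904) (b (l 16461144) (l 16468232))))) (b (a (b (l 16456008) (l 16436808)) (b (a (l 16452712) (l 16450600))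 (a (l 16474000) (b (l 16429848) (l 16427912))))) (a (a (b (l 16444632) (l 16478032)) (b (l 16440344) (l 16504480))) (b (a (l 16436096) (b (l 16430096) (l 16434168))) (a (b (l 16528272) (c (l 16497512) (l 16465024))) (b (l 16439672) (l 16444824))))))))) (b (b (l 2) (b (l 16500568) (l 16466920))) (b (b (l 16431904) (b (l 16405936) (l 16400264))) (b (b (l 16398600) (l 16399032)) (b (l 16401488) (l 16405048)))))) (b (b (l 2) (b (l 16491968) (l 16442152))) (b (b (l 16453256) (a (l 16361368) (l 16328264))) (b (a (l 16364328) (l 16297672)) (b (l 16306696) (l 16322968))))))), by decide +kernel⟩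

def k1_pm_012 : ∃ t, chk3 f_pm_012 t 3 1 1 = true :=
  ⟨(b (a (b (l 2) (a (b (l 2) (l 16429976)) (l 2))) (l 2)) (a (b (a (b (l 16402080) (a (l 16303552) (l 16285032))) (b (l 16350152) (l 16269632))) (b (a (a (l 16261424) (l 16233632)) (l 16206528)) (a (b (l 16214424) (l 16195776)) (l 16144696)))) (b (a (b (l 2) (a (l 16268920) (l 2))) (l 2)) (a (b (l 16196064) (l 16118728)) (b (a (l 16205112) (l 2)) (l 16124064)))))), by decide +kernel⟩

theorem s2_pm_012 : ∃ t, chk3 f_pm_012 t 1 1 1 = true := ex3_a k0_pm_012 k1_pm_012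

theorem c_pm_012 : CertB 0 536870912 536870912 536870912 697932185 42949674 3 eng mog cd1q0 cd3q1 pd2 true true false .pnp 0 1 2
    ndB1q0 ndB3q1 pcB2 Cut.none Ext.none :=
  certB2 (fam := true) (s1 := true) (s2 := false) (a := 0) (b := 1) (c := 2) (cn := .pnp) (n1 := ndB1q0) (n2 := ndB3q1) (pc := pcB2) (cut := Cut.none) (xt := Ext.none) (P1 := 0) (W1 := 536870912) (P2 := 536870912) (W2 := 536870912) (P3 := 697932185) (W3 := 42949674) (N0 := 3) (En := eng) (mo := mog) (C1 := cd1q0) (C2 := cd3q1) (C3 := pd2)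
    rfl (fun _ => rfl) s2_pm_012

noncomputable def cut_pm_022_a : Cut := Cut.of [[⟨0, 0, 0, 67108864⟩, ⟨1, 1, 0, 67108864⟩, ⟨2, 1, 0, 67108864⟩]]

noncomputable def f_pm_022_a : ℕ → ℕ → ℕ → ℕ → Bool := onCell 1073741824 536870912 0 536870912 697932185 42949674
    (rowB 3 eng mog cd1q0 cd3q2a pd2 2 true true false .pp 0 2 2 (qsf 0 536870912 0 536870912 2) ndB1q0 ndB3q2a pcB2 cut_pm_022_a Ext.none)

def k0_pm_022_a : ∃ t, chk3 f_pm_022_a t 2 2 1 = true :=
  ⟨(b (a (l 1) (a (a (a (l 1) (a (b (l 1) (l 16412744)) (a (b (l 1) (l 16416408)) (b (a (l 16410936) (l 16411984)) (a (l 16417888) (l 16418512)))))) (b (a (a (l 16415840) (l 16421632)) (l 16421496)) (a (a (l 16421736) (l 16426600)) (l 16425888)))) (a (b (l 16418168) (l 16421664)) (b (l 16416112) (l 16418256))))) (a (a (l 1) (a (l 1) (b (l 1) (a (l 1) (b (l 1) (l 68215553639)))))) (a (a (a (b (b (l 16419984) (l 16434344)) (b (l 16461744) (l 16470440))) (a (b (l 102575254167) (l 16464728)) (b (a (l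 16436072) (a (l 16436928) (l 16437040))) (a (l 16465952) (a (l 16466064) (l 16465592)))))) (a (b (a (l 16439448) (l 16443048)) (b (l 16460056) (l 16475456))) (b (l 16441256) (l 16465680)))) (b (a (l 16435152) (l 16429936)) (a (l 16477776) (l 16450256)))))), by decide +kernel⟩

def k1_pm_022_a : ∃ t, chk3 f_pm_022_a t 4 3 1 = true :=
  ⟨(a (b (l 1) (a (b (l 1) (l 6)) (a (b (b (l 1) (l 6)) (l 6)) (a (b (b (l 1) (l 6)) (l 6)) (b (b (b (l 1) (a (l 16618040) (l 16617264))) (b (a (l 6) (l 16635504)) (l 16654504))) (b (b (l 16652104) (l 16691416)) (b (l 16696056) (b (l 16695712) (l 16695224))))))))) (b (b (a (l 1) (a (b (l 16484264) (a (l 16510536) (l 16511848))) (b (a (l 16487544) (l 16489416)) (a (l 16512928) (l 16513776))))) (a (a (b (l 1) (a (l 1) (b (l 16562712) (l 16579648)))) (b (a (l 16538472) (l 16560032)) (a (b (l 16562624) (l 16578968)) (l 16570328)))) (a (b (a (l 16539488) (l 16539704)) (a (l 16569592) (l 16568632))) (b (l 16539528) (l 16566688)))))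 (b (a (b (a (a (b (l 107944262567) (l 160020778551)) (b (l 16596848) (l 16614240))) (a (l 16625024) (l 16602256))) (a (b (a (l 16633784) (l 16631384)) (a (l 16651600) (l 16648552))) (b (l 16627448) (l 16643624)))) (a (b (b (l 16591480) (l 16606640)) (l 16629096)) (b (l 16594264) (l 16619704)))) (b (a (a (b (l 16667616) (l 16680344)) (b (l 16659384) (l 16660288))) (a (l 16640712) (b (l 16621856) (l 16622664)))) (a (a (b (a (l 16685712) (l 16675520)) (b (l 16680312) (l 16700816))) (b (l 16660608) (a (l 16665024) (l 16655232)))) (b (a (l 16641392) (l 16642984)) (a (a (l 16645616) (l 16635552)) (a (l 16624824) (l 16613912))))))))), by decide +kernel⟩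

def k2_pm_022_a : ∃ t, chk3 f_pm_022_a t 5 3 1 = true :=
  ⟨(a (b (a (a (b (b (l 16491576) (l 16514352)) (b (l 16538312) (l 16563088))) (b (a (l 16503912) (a (l 16503592) (a (l 16502856) (l 16522696)))) (a (l 16548344) (a (l 16546248) (a (l 16544552) (l 16542696)))))) (a (b (b (l 16492512) (l 16510904)) (b (l 16530208) (l 16550016))) (b (l 16496800) (l 16532952)))) (a (a (a (b (l 16603048) (b (l 16608696) (l 16605216))) (b (l 16596736) (b (l 16599456) (l 16616296)))) (b (a (l 16588976) (a (l 16583656) (b (l 16574456) (l 16635856)))) (a (b (l 16590440) (b (l 16587624) (l 16584512))) (a (b (l 16584288) (l 16580112)) (a (b (l 16582032) (l 16598880)) (b (l 16602376) (a (a (a (l 16577496) (a (l 16577712) (l 16578112))) (l 16577752)) (l 16576880)))))))) (b (b (l 16657544) (a (l 16572104) (l 16558088))) (b (a (a (l 16575712) (l 16566712)) (l 16556576)) (a (b (l 16568488) (a (l 16570024) (l 16560992))) (b (l 16553456) (l 16550200))))))) (b (b (a (b (l 16477096)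 (l 16493288)) (l 16477536)) (a (l 16521040) (l 16507664))) (b (a (b (l 16541080) (l 16541040)) (l 16562328)) (b (a (l 16538224) (l 16514104)) (a (a (l 16538832) (l 16525776)) (b (l 16508008) (l 16502224))))))), by decide +kernel⟩

def k3_pm_022_a : ∃ t, chk3 f_pm_022_a t 3 1 1 = true :=
  ⟨(b (a (a (a (b (b (l 16420544) (l 16422296)) (b (l 16432936) (l 16450544))) (b (b (l 16432400) (l 16432264)) (l 16488880))) (b (b (a (l 16444968) (l 16458144)) (l 16448632)) (b (l 16451392) (l 16478872)))) (b (a (a (l 16474840) (l 16493232)) (l 16581376)) (a (l 16474000) (l 16487160)))) (a (b (a (b (a (l 16472360) (l 16467568)) (l 16551744)) (b (l 16464688) (l 16465144))) (b (a (a (l 16520488) (l 16479720)) (a (l 16462680) (l 16448528))) (a (b (a (l 16489928) (l 16467640)) (a (b (l 16482080) (l 16475504)) (l 16455448))) (b (a (l 16448624) (l 16432672)) (a (l 16435496) (l 16418648)))))) (b (a (b (l 16457768) (l 16446568)) (l 16523176)) (a (a (b (l 16436504) (l 16453904))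 (b (l 16425880) (l 16399616))) (b (l 16412344) (b (l 16392480) (l 16376896))))))), by decide +kernel⟩

theorem s4_pm_022_a : ∃ t, chk3 f_pm_022_a t 2 3 1 = true := ex3_a k1_pm_022_a k2_pm_022_a

theorem s5_pm_022_a : ∃ t, chk3 f_pm_022_a t 2 1 1 = true := ex3_b k0_pm_022_a s4_pm_022_a

theorem s6_pm_022_a : ∃ t, chk3 f_pm_022_a t 1 1 1 = true := ex3_a s5_pm_022_a k3_pm_022_a

theorem c_pm_022_a : CertB 0 536870912 0 536870912 697932185 42949674 3 eng mog cd1q0 cd3q2a pd2 true true false .pp 0 2 2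
    ndB1q0 ndB3q2a pcB2 cut_pm_022_a Ext.none :=
  certB2 (fam := true) (s1 := true) (s2 := false) (a := 0) (b := 2) (c := 2) (cn := .pp) (n1 := ndB1q0) (n2 := ndB3q2a) (pc := pcB2) (cut := cut_pm_022_a) (xt := Ext.none) (P1 := 0) (W1 := 536870912) (P2 := 0) (W2 := 536870912) (P3 := 697932185) (W3 := 42949674) (N0 := 3) (En := eng) (mo := mog) (C1 := cd1q0) (C2 := cd3q2a) (C3 := pd2)
    rfl (fun _ => rfl) s6_pm_022_a

noncomputable def cut_pm_022_b : Cut := Cut.of [[⟨0, 0, 0, 67108864⟩, ⟨1, 1, 0, 67108864⟩, ⟨2, 1, 0, 67108864⟩]]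

noncomputable def f_pm_022_b : ℕ → ℕ → ℕ → ℕ → Bool := onCell 0 536870912 1239849684 370763052 697932185 42949674
    (rowB 3 eng mog cd1q0 cd3q2b pd2 0 true true false .pp 0 2 2 (qsf 0 536870912 1239849684 370763052 2) ndB1q0 ndB3q2b pcB2 cut_pm_022_b Ext.none)

def k0_pm_022_b : ∃ t, chk3 f_pm_022_b t 1 1 1 = true :=
  ⟨(a (b (a (b (a (b (a (b (a (b (a (l 16425192) (l 16407824)) (l 16398416)) (l 16392496)) (a (l 16332592) (l 16335312))) (b (l 16434072) (l 16340592))) (a (b (l 16280968) (l 16234176)) (b (l 16294776) (l 16254624)))) (b (a (b (l 16393952) (l 16349464)) (b (l 16401464) (l 16363552))) (a (b (l 16310248) (a (l 16270640) (l 16281464))) (b (a (l 16323368) (l 16337000)) (l 16301864))))) (a (b (a (b (l 16193456) (a (l 16151152) (l 16167080))) (b (l 16220064) (a (l 16183048) (l 16199224)))) (b (a (a (l 16122040) (l 16140064)) (l 16188184)) (a (a (b (l 16103104) (l 16091808)) (l 16117296)) (l 16147200)))) (b (a (b (l 16289176) (l 16223432))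 (l 16268136)) (a (l 16194376) (l 16235024))))) (b (a (b (a (b (a (l 16413112) (l 16421000)) (a (l 16379728) (l 16390888))) (b (a (l 16429096) (l 16437328)) (l 16407520))) (a (b (l 16358008) (l 16334984)) (l 16376008))) (b (a (l 16439552) (l 16464760)) (l 16423272))) (a (b (l 16453792) (l 16304856)) (b (l 16406192) (l 16394528))))) (a (b (a (b (a (a (b (l 16076768) (l 16060288)) (l 16090696)) (l 16124488)) (a (b (l 16060480) (l 16052376)) (l 16107264))) (b (a (l 16168632) (l 16215296)) (l 16183456))) (a (b (a (l 16047048) (l 16103720)) (a (l 16052872) (l 16114360))) (b (l 16187072) (l 2)))) (b (a (b (l 16293352) (l 16294152)) (l 2)) (l 2)))) (b (a (b (a (b (l 16504136) (l 16493408)) (b (l 16549704) (l 2))) (a (l 16550288) (l 2))) (l 2)) (l 2))), by decide +kernel⟩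

theorem c_pm_022_b : CertB 0 536870912 1239849684 370763052 697932185 42949674 3 eng mog cd1q0 cd3q2b pd2 true true false .pp 0 2 2
    ndB1q0 ndB3q2b pcB2 cut_pm_022_b Ext.none :=
  certB0 (fam := true) (s1 := true) (s2 := false) (a := 0) (b := 2) (c := 2) (cn := .pp) (n1 := ndB1q0) (n2 := ndB3q2b) (pc := pcB2) (cut := cut_pm_022_b) (xt := Ext.none) (P1 := 0) (W1 := 536870912) (P2 := 1239849684) (W2 := 370763052) (P3 := 697932185) (W3 := 42949674) (N0 := 3) (En := eng) (mo := mog) (C1 := cd1q0) (C2 := cd3q2b) (C3 := pd2)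
    rfl k0_pm_022_b

noncomputable def f_pm_023_a : ℕ → ℕ → ℕ → ℕ → Bool := onCell 1610612736 536870912 0 536870912 697932185 42949674
    (rowB 3 eng mog cd1q0 cd3q2a pd3 2 true true false .up 0 2 3 (qsf 0 536870912 0 536870912 3) ndB1q0 ndB3q2a pcB3 Cut.none Ext.none)

def k0_pm_023_a : ∃ t, chk3 f_pm_023_a t 1 1 1 = true :=
  ⟨(a (b (a (a (b (l 16545336) (l 16494640)) (b (l 16563688) (l 16535632))) (a (a (a (l 16608256) (l 16613656)) (b (l 16662184) (l 2))) (l 2))) (b (a (a (l 16432256) (l 16610376)) (l 2)) (a (a (b (l 16408712) (b (l 16392624) (l 16380904))) (l 265314546279)) (l 2)))) (l 2)), by decide +kernel⟩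

theorem c_pm_023_a : CertB 0 536870912 0 536870912 697932185 42949674 3 eng mog cd1q0 cd3q2a pd3 true true false .up 0 2 3
    ndB1q0 ndB3q2a pcB3 Cut.none Ext.none :=
  certB2 (fam := true) (s1 := true) (s2 := false) (a := 0) (b := 2) (c := 3) (cn := .up) (n1 := ndB1q0) (n2 := ndB3q2a) (pc := pcB3) (cut := Cut.none) (xt := Ext.none) (P1 := 0) (W1 := 536870912) (P2 := 0) (W2 := 536870912) (P3 := 697932185) (W3 := 42949674) (N0 := 3) (En := eng) (mo := mog) (C1 := cd1q0) (C2 := cd3q2a) (C3 := pd3)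
    rfl (fun _ => rfl) k0_pm_023_a

noncomputable def f_pm_023_b : ℕ → ℕ → ℕ → ℕ → Bool := onCell 1610612736 536870912 1239849684 370763052 697932185 42949674
    (rowB 3 eng mog cd1q0 cd3q2b pd3 2 true true false .up 0 2 3 (qsf 0 536870912 1239849684 370763052 3) ndB1q0 ndB3q2b pcB3 Cut.none Ext.none)

def k0_pm_023_b : ∃ t, chk3 f_pm_023_b t 1 1 1 = true :=
  ⟨(b (a (a (b (a (b (l 16558288) (l 16527976)) (l 16590240)) (a (b (l 16477536) (l 16408720)) (l 16537840))) (a (b (a (l 16597880) (l 16645512)) (a (l 16592792) (l 16623968))) (a (b (l 16784960) (l 16652424)) (l 92442773399)))) (a (a (b (l 2) (l 16722176)) (a (l 239008657751) (l 2))) (l 2))) (a (a (a (b (l 16384696) (a (l 16130760) (l 16168880))) (b (l 16397784) (l 16235728))) (a (b (a (l 16469848) (l 16517232)) (l 16338720)) (b (l 16582904) (l 16455888)))) (a (a (b (l 16664360) (l 16580368)) (a (l 16683136) (l 16766136))) (l 4)))), by decide +kernel⟩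

theorem c_pm_023_b : CertB 0 536870912 1239849684 370763052 697932185 42949674 3 eng mog cd1q0 cd3q2b pd3 true true false .up 0 2 3
    ndB1q0 ndB3q2b pcB3 Cut.none Ext.none :=
  certB2 (fam := true) (s1 := true) (s2 := false) (a := 0) (b := 2) (c := 3) (cn := .up) (n1 := ndB1q0) (n2 := ndB3q2b) (pc := pcB3) (cut := Cut.none) (xt := Ext.none) (P1 := 0) (W1 := 536870912) (P2 := 1239849684) (W2 := 370763052) (P3 := 697932185) (W3 := 42949674) (N0 := 3) (En := eng) (mo := mog) (C1 := cd1q0) (C2 := cd3q2b) (C3 := pd3)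
    rfl (fun _ => rfl) k0_pm_023_b

noncomputable def f_pm_033 : ℕ → ℕ → ℕ → ℕ → Bool := onCell 1610612736 536870912 1610612736 536870912 697932185 42949674
    (rowB 3 eng mog cd1q0 cd3q3 pd3 2 true true false .pnn 0 3 3 (qsf 0 536870912 1610612736 536870912 3) ndB1q0 ndB3q3 pcB3 Cut.none Ext.none)

def k0_pm_033 : ∃ t, chk3 f_pm_033 t 1 1 1 = true :=
  ⟨(a (b (a (b (a (b (l 236255165991) (l 418791087031)) (b (l 16128632) (l 16006352))) (a (l 1) (b (l 401074319815) (l 1)))) (a (b (b (l 16234840) (l 16106872)) (a (l 15874824) (l 15943952))) (b (l 16459600) (l 16075272)))) (a (l 1) (b (a (l 1) (b (l 394095501367) (l 1))) (l 1)))) (a (b (a (b (a (l 16425768) (l 16499888)) (a (l 16196800) (l 4))) (l 4)) (b (a (a (l 15990848) (l 4)) (l 4)) (a (l 1) (b (l 4) (l 1))))) (l 4))), by decide +kernel⟩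

theorem c_pm_033 : CertB 0 536870912 1610612736 536870912 697932185 42949674 3 eng mog cd1q0 cd3q3 pd3 true true false .pnn 0 3 3
    ndB1q0 ndB3q3 pcB3 Cut.none Ext.none :=
  certB2 (fam := true) (s1 := true) (s2 := false) (a := 0) (b := 3) (c := 3) (cn := .pnn) (n1 := ndB1q0) (n2 := ndB3q3) (pc := pcB3) (cut := Cut.none) (xt := Ext.none) (P1 := 0) (W1 := 536870912) (P2 := 1610612736) (W2 := 536870912) (P3 := 697932185) (W3 := 42949674) (N0 := 3) (En := eng) (mo := mog) (C1 := cd1q0) (C2 := cd3q3) (C3 := pd3)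
    rfl (fun _ => rfl) k0_pm_033

noncomputable def f_pm_101 : ℕ → ℕ → ℕ → ℕ → Bool := onCell 536870912 536870912 0 536870912 697932185 42949674
    (rowB 3 eng mog cd1q1 cd3q0 pd1 2 true true false .npn 1 0 1 (qsf 536870912 536870912 0 536870912 1) ndB1q1 ndB3q0 pcB1 Cut.none Ext.none)

def k0_pm_101 : ∃ t, chk3 f_pm_101 t 1 1 1 = true :=
  ⟨(a (l 3) (b (l 3) (l 3))), by decide +kernel⟩

theorem c_pm_101 : CertB 536870912 536870912 0 536870912 697932185 42949674 3 eng mog cd1q1 cd3q0 pd1 true true false .npn 1 0 1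
    ndB1q1 ndB3q0 pcB1 Cut.none Ext.none :=
  certB2 (fam := true) (s1 := true) (s2 := false) (a := 1) (b := 0) (c := 1) (cn := .npn) (n1 := ndB1q1) (n2 := ndB3q0) (pc := pcB1) (cut := Cut.none) (xt := Ext.none) (P1 := 536870912) (W1 := 536870912) (P2 := 0) (W2 := 536870912) (P3 := 697932185) (W3 := 42949674) (N0 := 3) (En := eng) (mo := mog) (C1 := cd1q1) (C2 := cd3q0) (C3 := pd1)
    rfl (fun _ => rfl) k0_pm_101

noncomputable def f_pm_102 : ℕ → ℕ → ℕ → ℕ → Bool := onCell 536870912 536870912 1073741824 536870912 697932185 42949674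
    (rowB 3 eng mog cd1q1 cd3q0 pd2 1 true true false .npp 1 0 2 (qsf 536870912 536870912 0 536870912 2) ndB1q1 ndB3q0 pcB2 Cut.none Ext.none)

def k0_pm_102 : ∃ t, chk3 f_pm_102 t 1 4 1 = true :=
  ⟨(b (a (l 3) (a (l 3) (b (l 3) (a (b (l 3) (a (l 16764384) (l 16752408))) (b (a (l 3) (a (l 137069826519) (b (l 3) (b (l 16720680) (l 16694128))))) (a (a (l 16740824) (l 16748072)) (a (a (l 16716320) (l 16709200)) (a (l 16712656) (l 16697536))))))))) (a (b (a (l 3) (b (l 3) (a (l 3) (b (l 16562840) (l 16548528))))) (a (a (l 2) (b (b (l 3) (l 16533480)) (b (l 16543888) (l 16551440)))) (b (a (b (l 16516168) (l 16535912)) (b (l 16535360) (l 16554184))) (a (b (l 16550760) (l 16555832)) (b (l 16572664) (l 16580288)))))) (b (a (b (a (l 16672944) (b (l 16723992) (l 16703488))) (a (b (l 16644656) (l 16608160)) (a (b (l 16679080) (l 16667728)) (l 16692264)))) (a (b (a (l 16730744) (a (l 16680136) (l 16733504))) (a (l 16722768) (l 16713584))) (a (b (l 16628256) (a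 (l 16696688) (l 16681608))) (b (b (a (l 16697392) (l 16683072)) (l 16677632)) (a (l 16666160) (l 16650848)))))) (a (a (b (a (l 16592960) (l 16628224)) (l 16657088)) (b (a (l 16664808) (l 16694352)) (l 16673608))) (a (b (a (l 16698592) (l 16687752)) (a (l 16673952) (l 16660128))) (a (b (l 16665112) (l 16640064)) (b (l 16633728) (l 16610552)))))))), by decide +kernel⟩

def k1_pm_102 : ∃ t, chk3 f_pm_102 t 1 5 1 = true :=
  ⟨(a (a (b (b (b (b (a (l 2) (l 16553088)) (l 2)) (l 2)) (l 2)) (l 2)) (b (b (b (a (b (l 16560456) (l 16563872)) (l 16588456)) (b (a (l 16568464) (l 16593392)) (b (l 16728584) (b (l 16710192) (a (l 16578632) (l 16598632)))))) (a (l 16578176) (l 16594616))) (a (l 16573088) (l 16578240)))) (b (a (b (b (a (l 16673040) (a (l 16656512) (l 16658128))) (b (a (l 16629952) (l 16646344)) (b (a (l 16627904) (l 16641080)) (a (b (l 16627888) (l 16629168)) (b (l 16639264) (l 16638888)))))) (a (l 16618560) (l 16621192))) (b (b (a (l 16706360) (a (l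 16614728) (l 16587552))) (b (a (l 16626680) (a (l 16596368) (l 16569880))) (a (b (l 16619312) (b (l 16616352) (a (l 16623592) (l 16605568)))) (a (l 16692016) (b (l 16561536) (l 16558008)))))) (a (a (l 16602336) (l 16582104)) (a (l 16556872) (l 16613032))))) (a (a (l 16587136) (l 16659640)) (a (a (l 16550344) (l 16526592)) (a (l 16498952) (l 16468720)))))), by decide +kernel⟩

def k2_pm_102 : ∃ t, chk3 f_pm_102 t 1 3 1 = true :=
  ⟨(a (b (a (l 2) (b (l 16711624) (l 2))) (l 2)) (b (a (a (b (l 16557128) (l 16548984)) (b (l 16533696) (l 16517672))) (a (b (l 16490240) (l 16469296)) (b (a (l 16446976) (l 16414792)) (l 16406992)))) (a (a (l 2) (l 16545064)) (a (l 16721256) (b (l 16410896) (l 16441992)))))), by decide +kernel⟩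

theorem s3_pm_102 : ∃ t, chk3 f_pm_102 t 1 2 1 = true := ex3_b k0_pm_102 k1_pm_102

theorem s4_pm_102 : ∃ t, chk3 f_pm_102 t 1 1 1 = true := ex3_b s3_pm_102 k2_pm_102

theorem c_pm_102 : CertB 536870912 536870912 0 536870912 697932185 42949674 3 eng mog cd1q1 cd3q0 pd2 true true false .npp 1 0 2
    ndB1q1 ndB3q0 pcB2 Cut.none Ext.none :=
  certB1 (fam := true) (s1 := true) (s2 := false) (a := 1) (b := 0) (c := 2) (cn := .npp) (n1 := ndB1q1) (n2 := ndB3q0) (pc := pcB2) (cut := Cut.none) (xt := Ext.none) (P1 := 536870912) (W1 := 536870912) (P2 := 0) (W2 := 536870912) (P3 := 697932185) (W3 := 42949674) (N0 := 3) (En := eng) (mo := mog) (C1 := cd1q1) (C2 := cd3q0) (C3 := pd2)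
    rfl (fun _ => rfl) s4_pm_102

noncomputable def f_pm_112 : ℕ → ℕ → ℕ → ℕ → Bool := onCell 536870912 536870912 1073741824 536870912 697932185 42949674
    (rowB 3 eng mog cd1q1 cd3q1 pd2 1 true true false .dn 1 1 2 (qsf 536870912 536870912 536870912 536870912 2) ndB1q1 ndB3q1 pcB2 Cut.none Ext.none)

def k0_pm_112 : ∃ t, chk3 f_pm_112 t 1 1 1 = true :=
  ⟨(a (b (b (b (l 3) (b (a (l 3) (l 1)) (a (b (a (l 3) (a (l 16520664) (l 16517240))) (a (b (l 16527864) (l 16527856)) (b (l 16528328) (l 16553416)))) (b (l 1) (a (b (l 1) (l 16527728)) (l 1)))))) (a (b (b (b (b (a (l 16610648) (l 16531696)) (a (l 16521528) (l 16531848))) (b (a (l 16518720) (l 16532160)) (b (l 16525912) (b (l 16526808) (a (l 16516176) (l 16538056)))))) (a (l 16504856) (l 16533696))) (a (l 16463312) (l 16508168))) (b (b (a (b (b (l 16530824) (l 16533544)) (b (l 16537672) (b (l 16541472) (b (l 16544528) (l 16547192))))) (l 1)) (l 54257404167)) (l 16773784)))) (b (a (b (a (l 16392952)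 (l 16456624)) (a (l 16310656) (l 16389880))) (b (l 16707280) (l 16611568))) (a (a (b (l 16238032) (l 16176720)) (b (b (l 16337560) (l 16305408)) (a (l 16242648) (l 16291552)))) (b (a (l 16416352) (l 16492328)) (a (a (l 16350120) (l 16411128)) (l 16495048)))))) (b (b (l 1) (b (l 1) (a (a (l 16533664) (l 1)) (l 1)))) (b (a (b (a (l 16530896) (l 16498480)) (a (l 16525024) (l 16503352))) (b (l 1) (l 249141467623))) (a (a (b (l 16531224) (l 16561400)) (l 16539128)) (b (l 119755623959) (l 16495776)))))), by decide +kernel⟩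

theorem c_pm_112 : CertB 536870912 536870912 536870912 536870912 697932185 42949674 3 eng mog cd1q1 cd3q1 pd2 true true false .dn 1 1 2
    ndB1q1 ndB3q1 pcB2 Cut.none Ext.none :=
  certB1 (fam := true) (s1 := true) (s2 := false) (a := 1) (b := 1) (c := 2) (cn := .dn) (n1 := ndB1q1) (n2 := ndB3q1) (pc := pcB2) (cut := Cut.none) (xt := Ext.none) (P1 := 536870912) (W1 := 536870912) (P2 := 536870912) (W2 := 536870912) (P3 := 697932185) (W3 := 42949674) (N0 := 3) (En := eng) (mo := mog) (C1 := cd1q1) (C2 := cd3q1) (C3 := pd2)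
    rfl (fun _ => rfl) k0_pm_112

noncomputable def f_pm_113 : ℕ → ℕ → ℕ → ℕ → Bool := onCell 536870912 536870912 1610612736 536870912 697932185 42949674
    (rowB 3 eng mog cd1q1 cd3q1 pd3 1 true true false .nn 1 1 3 (qsf 536870912 536870912 536870912 536870912 3) ndB1q1 ndB3q1 pcB3 Cut.none Ext.none)

def k0_pm_113 : ∃ t, chk3 f_pm_113 t 1 1 1 = true :=
  ⟨(a (b (b (a (b (a (l 16132280) (l 16250344)) (b (l 16150552) (l 16359296))) (a (b (l 16376824) (l 16362576)) (b (l 16507152) (l 16528264)))) (a (b (a (l 2) (b (l 16175264) (l 2))) (l 2)) (a (b (l 16352624) (b (l 16334976) (l 2))) (b (b (l 16527784) (l 16506480)) (b (l 16479408) (l 16424632)))))) (a (l 2) (b (b (a (l 2) (a (l 2) (l 16380280))) (l 2)) (l 2)))) (a (b (b (a (b (l 16616864) (l 16689472)) (l 16714960)) (b (b (a (l 16629240) (l 16758736)) (a (l 16596984) (l 16701312))) (b (b (a (l 16577224) (l 16670688)) (b (l 16643504) (l 16640680))) (l 16608928)))) (b (b (a (l 16472992) (b (l 16619192)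 (l 16575312))) (a (b (l 16412216) (l 2)) (b (l 16535472) (l 16570992)))) (b (a (l 2) (b (b (l 16512624) (l 2)) (l 2))) (l 2)))) (b (b (a (l 16726944) (b (l 16541848) (l 16794296))) (b (b (a (l 16916888) (l 17078352)) (a (l 16727248) (l 16986632))) (b (b (a (b (l 16774248) (l 16799912)) (l 16936432)) (a (b (l 16827480) (l 16826856)) (l 16949992))) (a (l 16782168) (l 16889728))))) (b (b (a (b (l 16721552) (l 16676776)) (a (l 16772464) (l 16815392))) (b (a (l 16643456) (l 16728880)) (a (l 16628824) (b (l 16713880) (l 16709952))))) (b (b (a (a (l 16605536) (l 16646624)) (l 16694632)) (a (l 227734108519) (l 16665816))) (b (l 208405671143) (a (l 2) (l 4)))))))), by decide +kernel⟩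

theorem c_pm_113 : CertB 536870912 536870912 536870912 536870912 697932185 42949674 3 eng mog cd1q1 cd3q1 pd3 true true false .nn 1 1 3
    ndB1q1 ndB3q1 pcB3 Cut.none Ext.none :=
  certB1 (fam := true) (s1 := true) (s2 := false) (a := 1) (b := 1) (c := 3) (cn := .nn) (n1 := ndB1q1) (n2 := ndB3q1) (pc := pcB3) (cut := Cut.none) (xt := Ext.none) (P1 := 536870912) (W1 := 536870912) (P2 := 536870912) (W2 := 536870912) (P3 := 697932185) (W3 := 42949674) (N0 := 3) (En := eng) (mo := mog) (C1 := cd1q1) (C2 := cd3q1) (C3 := pd3)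
    rfl (fun _ => rfl) k0_pm_113

noncomputable def f_pm_123_a : ℕ → ℕ → ℕ → ℕ → Bool := onCell 1610612736 536870912 0 536870912 697932185 42949674
    (rowB 3 eng mog cd1q1 cd3q2a pd3 2 true true false .npn 1 2 3 (qsf 536870912 536870912 0 536870912 3) ndB1q1 ndB3q2a pcB3 Cut.none Ext.none)

def k0_pm_123_a : ∃ t, chk3 f_pm_123_a t 2 1 1 = true :=
  ⟨(a (b (a (l 1) (b (l 1) (l 16571936))) (b (a (l 1) (l 16608976)) (a (b (l 16430496) (b (l 16407608) (l 16393632))) (b (l 16492928) (b (l 16484592) (l 16505400)))))) (a (b (a (a (l 16630008) (l 16633192)) (b (l 16678320) (l 16654904))) (a (b (a (l 16581472) (l 16585128)) (a (b (l 16569040) (l 16583656)) (b (l 16582880) (b (l 16599992) (l 16624072))))) (b (a (l 16623384) (b (l 16668576) (l 16675208))) (b (a (l 16630736) (l 16692120)) (a (l 16669648) (b (l 16724688) (l 16754624))))))) (a (b (a (b (l 16700696) (a (l 16687280) (l 16680112))) (b (l 16705992) (l 16672688))) (b (a (a (b (l 16693232) (l 16708520))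 (b (l 16677064) (l 16688856))) (a (b (l 16654888) (l 16660776)) (l 16659768))) (a (b (a (l 16733120) (l 16719448)) (a (b (l 16768256) (l 16731440)) (c (l 16755672) (l 16740536)))) (b (a (l 16687776) (l 16683400)) (a (b (l 16712640) (l 16734352)) (l 16725088)))))) (b (b (l 16738592) (l 16715752)) (b (a (l 16688216) (l 16721560)) (b (l 16725544) (a (l 16750136) (l 16780456)))))))), by decide +kernel⟩

def k1_pm_123_a : ∃ t, chk3 f_pm_123_a t 3 1 1 = true :=
  ⟨(b (b (a (a (l 16800760) (a (l 16830160) (l 16807280))) (a (a (l 16776280) (l 187066148615)) (l 4))) (a (a (l 16791272) (a (l 16825728) (l 16826680))) (a (a (l 16805152) (l 16919944)) (a (a (l 16757304) (l 315378237143)) (l 4))))) (b (a (a (a (l 16766288) (l 16812048)) (a (l 16841680) (l 16927400))) (a (a (b (l 16811968) (l 16828816)) (b (l 16793600) (l 16813752))) (a (a (l 16833608) (l 16860800)) (a (a (l 16837400) (l 386245186407)) (l 4))))) (b (a (a (a (l 16783456) (l 16830320)) (a (l 16865600)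 (l 16884824))) (a (a (l 16864680) (l 16839352)) (a (a (l 16819152) (l 16797232)) (a (a (l 16788672) (l 16771184)) (a (l 298198349095) (l 4)))))) (a (a (a (a (l 16807280) (l 16830624)) (a (l 16850536) (l 16868032))) (a (a (l 16884976) (l 16901160)) (b (l 16907888) (l 16920880)))) (a (a (l 16960096) (b (l 16840632) (l 16836704))) (a (a (l 16812520) (a (l 16801984) (l 16797280))) (a (a (b (l 16787560) (l 16786776)) (b (l 16778912) (l 16780616))) (a (b (l 16767952) (a (l 16774056) (l 16810288))) (a (l 16818160) (a (l 16742584) (l 4))))))))))), by decide +kernel⟩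

theorem s2_pm_123_a : ∃ t, chk3 f_pm_123_a t 1 1 1 = true := ex3_a k0_pm_123_a k1_pm_123_a

theorem c_pm_123_a : CertB 536870912 536870912 0 536870912 697932185 42949674 3 eng mog cd1q1 cd3q2a pd3 true true false .npn 1 2 3
    ndB1q1 ndB3q2a pcB3 Cut.none Ext.none :=
  certB2 (fam := true) (s1 := true) (s2 := false) (a := 1) (b := 2) (c := 3) (cn := .npn) (n1 := ndB1q1) (n2 := ndB3q2a) (pc := pcB3) (cut := Cut.none) (xt := Ext.none) (P1 := 536870912) (W1 := 536870912) (P2 := 0) (W2 := 536870912) (P3 := 697932185) (W3 := 42949674) (N0 := 3) (En := eng) (mo := mog) (C1 := cd1q1) (C2 := cd3q2a) (C3 := pd3)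
    rfl (fun _ => rfl) s2_pm_123_a

noncomputable def f_pm_123_b : ℕ → ℕ → ℕ → ℕ → Bool := onCell 1610612736 536870912 1239849684 370763052 697932185 42949674
    (rowB 3 eng mog cd1q1 cd3q2b pd3 2 true true false .npn 1 2 3 (qsf 536870912 536870912 1239849684 370763052 3) ndB1q1 ndB3q2b pcB3 Cut.none Ext.none)

def k0_pm_123_b : ∃ t, chk3 f_pm_123_b t 1 1 1 = true :=
  ⟨(b (a (a (l 1) (a (b (a (l 16664808) (l 16684264)) (l 1)) (a (b (l 16788120) (l 1)) (l 16936976)))) (a (a (b (l 16766816) (l 16736024)) (a (b (l 16786024) (l 16745480)) (b (l 16774328) (l 16733464)))) (a (a (b (a (l 16761176) (l 16750584)) (l 4)) (l 4)) (l 4)))) (a (l 1) (a (a (l 1) (a (l 16717504) (l 16717144))) (l 4)))), by decide +kernel⟩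

theorem c_pm_123_b : CertB 536870912 536870912 1239849684 370763052 697932185 42949674 3 eng mog cd1q1 cd3q2b pd3 true true false .npn 1 2 3
    ndB1q1 ndB3q2b pcB3 Cut.none Ext.none :=
  certB2 (fam := true) (s1 := true) (s2 := false) (a := 1) (b := 2) (c := 3) (cn := .npn) (n1 := ndB1q1) (n2 := ndB3q2b) (pc := pcB3) (cut := Cut.none) (xt := Ext.none) (P1 := 536870912) (W1 := 536870912) (P2 := 1239849684) (W2 := 370763052) (P3 := 697932185) (W3 := 42949674) (N0 := 3) (En := eng) (mo := mog) (C1 := cd1q1) (C2 := cd3q2b) (C3 := pd3)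
    rfl (fun _ => rfl) k0_pm_123_b

noncomputable def f_pm_133 : ℕ → ℕ → ℕ → ℕ → Bool := onCell 536870912 536870912 1610612736 536870912 697932185 42949674
    (rowB 3 eng mog cd1q1 cd3q3 pd3 0 true true false .dn 1 3 3 (qsf 536870912 536870912 1610612736 536870912 3) ndB1q1 ndB3q3 pcB3 Cut.none Ext.none)

def k0_pm_133 : ∃ t, chk3 f_pm_133 t 1 1 1 = true :=
  ⟨(l 4), by decide +kernel⟩

theorem c_pm_133 : CertB 536870912 536870912 1610612736 536870912 697932185 42949674 3 eng mog cd1q1 cd3q3 pd3 true true false .dn 1 3 3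
    ndB1q1 ndB3q3 pcB3 Cut.none Ext.none :=
  certB0 (fam := true) (s1 := true) (s2 := false) (a := 1) (b := 3) (c := 3) (cn := .dn) (n1 := ndB1q1) (n2 := ndB3q3) (pc := pcB3) (cut := Cut.none) (xt := Ext.none) (P1 := 536870912) (W1 := 536870912) (P2 := 1610612736) (W2 := 536870912) (P3 := 697932185) (W3 := 42949674) (N0 := 3) (En := eng) (mo := mog) (C1 := cd1q1) (C2 := cd3q3) (C3 := pd3)
    rfl k0_pm_133

noncomputable def cut_pm_202_a : Cut := Cut.of [[⟨0, 1, 0, 67108864⟩, ⟨1, 0, 0, 67108864⟩, ⟨2, 1, 0, 67108864⟩]]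

noncomputable def f_pm_202_a : ℕ → ℕ → ℕ → ℕ → Bool := onCell 0 536870912 1073741824 536870912 697932185 42949674
    (rowB 3 eng mog cd1q2a cd3q0 pd2 1 true true false .pp 2 0 2 (qsf 0 536870912 0 536870912 2) ndB1q2a ndB3q0 pcB2 cut_pm_202_a Ext.none)

def k0_pm_202_a : ∃ t, chk3 f_pm_202_a t 2 2 1 = true :=
  ⟨(a (b (l 1) (b (b (b (l 1) (a (b (l 1) (l 16450528)) (a (l 16411000) (b (l 16457952) (l 16465024))))) (b (b (a (l 16494552) (a (l 16458264) (l 16463920))) (a (c (a (l 16444040) (l 16446280)) (l 16450880)) (c (a (l 16449864) (l 16475904)) (l 16460216)))) (a (a (l 16449280) (l 16451848)) (c (a (l 16452952) (l 16457864)) (l 16462464))))) (b (b (a (l 16504312) (c (l 16461696) (l 16467608))) (a (l 16462584) (l 16469144))) (a (b (l 16467272) (c (l 16470560) (l 16470376))) (c (l 16472832) (l 16469392)))))) (b (b (l 1) (b (l 1) (a (l 1) (b (l 1) (a (l 1) (b (l 1) (l 380674517735))))))) (b (b (b (b (a (l 1) (a (c (l 16492408) (l 16499032)) (b (l 16438560)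 (l 16505728)))) (a (a (l 16462304) (l 16414024)) (a (a (l 16489576) (l 16498616)) (l 16512008)))) (a (a (b (l 16469296) (l 16476008)) (l 16402880)) (a (b (l 16500992) (l 16494936)) (b (l 16512472) (b (l 16504808) (l 16500360)))))) (a (b (b (a (l 16471248) (l 16479600)) (c (a (l 16461944) (l 16470184)) (l 16474368))) (a (l 16373504) (l 16454848))) (b (a (c (l 16481352) (l 16489368)) (b (l 16493992) (l 16486704))) (a (l 16483760) (l 16488536))))) (a (b (b (a (l 16473384) (l 16481144)) (l 16439712)) (a (l 16480624) (l 16488960))) (b (a (b (l 16488928) (l 16492752)) (l 16495624)) (a (l 16496536) (l 16500640))))))), by decide +kernel⟩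

def k1_pm_202_a : ∃ t, chk3 f_pm_202_a t 2 3 1 = true :=
  ⟨(b (b (a (b (a (a (l 16479496) (l 16551560)) (l 16552672)) (a (l 16488840) (a (l 16549552) (l 16508648)))) (a (b (l 16487600) (c (l 16494312) (l 16491864))) (b (l 16563808) (a (l 16502208) (l 16505008))))) (a (b (a (l 16504696) (b (l 16517360) (l 16506176))) (l 16526096)) (a (b (b (l 16501944) (l 16509768)) (l 16523952)) (b (l 16554576) (l 16526688))))) (b (a (b (l 16550288) (l 16577176)) (b (a (l 16543912) (l 16543376)) (l 16563960))) (a (b (l 16607136) (l 16640096)) (b (l 16586880) (l 16613152))))), by decide +kernel⟩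

def k2_pm_202_a : ∃ t, chk3 f_pm_202_a t 3 4 1 = true :=
  ⟨(b (a (l 1) (b (a (l 1) (l 6)) (b (a (a (l 1) (l 6)) (l 6)) (b (a (a (l 1) (l 6)) (l 6)) (a (a (a (l 1) (a (l 364031735175) (l 428456262503))) (b (l 6) (a (l 16647672) (l 16667536)))) (a (l 16681176) (l 16678368))))))) (a (b (a (l 1) (b (a (l 1) (b (l 1) (a (l 273837308183) (l 370474134759)))) (a (b (a (l 1) (l 302291450039)) (a (l 317323810935) (l 412350015399))) (b (a (l 387653977639) (l 16594552)) (a (l 16601080) (l 16598120)))))) (a (b (a (b (l 1) (l 299070157351)) (b (a (l 1) (l 350072922327)) (a (l 391411974167) (l 16538704)))) (b (a (a (l 16503584) (l 16516488)) (a (l 16530312) (l 16482008))) (a (a (l 74121040519) (l 16460944)) (l 16481176)))) (b (a (a (b (l 431140475047) (l 16491712)) (b (l 16566432) (l 16571328))) (b (l 16488240) (l 16596816))) (a (b (l 16568200) (l 16572528)) (l 16581824))))) (a (b (a (a (b (b (b (l 321082023111) (l 402686413431)) (l 16631928)) (b (l 16613824) (l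 16616624))) (b (b (a (l 16624096) (l 16634480)) (l 16631416)) (l 16633528))) (b (a (a (l 16623704) (l 16654048)) (l 16661776)) (l 16635048))) (a (b (l 16608032) (l 16583120)) (b (l 16609096) (l 16584032)))) (b (a (b (l 16700248) (l 16634208)) (a (l 16729832) (l 16685104))) (a (b (l 16608136) (l 16583016)) (b (l 16605160) (l 16580152))))))), by decide +kernel⟩

def k3_pm_202_a : ∃ t, chk3 f_pm_202_a t 3 5 1 = true :=
  ⟨(a (b (b (b (a (a (b (l 16504280) (l 16532480)) (l 16549208)) (a (l 16555200) (l 16558232))) (a (b (l 16507840) (b (l 16520848) (a (l 16510864) (l 16519856)))) (b (l 16540544) (b (l 16532544) (a (l 16525856) (l 16528928)))))) (a (b (a (b (l 16502976) (l 16493080)) (l 16506768)) (a (l 16492464) (l 16497960))) (b (a (l 16512576) (l 16515464)) (l 16504352)))) (a (b (a (l 16497496) (l 16499184)) (l 16503016)) (b (a (l 16499600) (l 16499320)) (a (l 16498688) (l 16493224))))) (b (b (a (b (a (l 16559336) (l 16560160)) (b (l 16543320) (a (l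 16596112) (l 16576320)))) (b (a (l 16559192) (l 16556560)) (b (l 16541592) (b (l 16533888) (a (l 16530840) (l 16528920)))))) (a (b (l 16559680) (l 16505600)) (a (b (l 16517384) (l 16503888)) (b (l 16514936) (l 16498168))))) (a (b (a (l 16497448) (l 16494736)) (l 16483888)) (a (b (l 16488616) (l 16469616)) (l 16593400))))), by decide +kernel⟩

def k4_pm_202_a : ∃ t, chk3 f_pm_202_a t 3 3 1 = true :=
  ⟨(b (a (b (a (b (l 16503816) (l 16505064)) (b (l 16494104) (l 16491912))) (a (b (l 16509672) (l 16519128)) (b (l 16492528) (l 16497568)))) (b (a (b (l 16473144) (l 16467648)) (b (l 16449632) (l 16440472))) (a (b (l 16465480) (l 16467288)) (b (l 16436384) (l 16437392))))) (a (b (a (l 16559648) (l 16511456)) (a (l 16594536) (l 16541296))) (b (a (l 16477904) (l 16447864)) (l 16494656)))), by decide +kernel⟩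

theorem s5_pm_202_a : ∃ t, chk3 f_pm_202_a t 3 2 1 = true := ex3_b k2_pm_202_a k3_pm_202_a

theorem s6_pm_202_a : ∃ t, chk3 f_pm_202_a t 3 1 1 = true := ex3_b s5_pm_202_a k4_pm_202_a

theorem s7_pm_202_a : ∃ t, chk3 f_pm_202_a t 2 1 1 = true := ex3_b k0_pm_202_a k1_pm_202_a

theorem s8_pm_202_a : ∃ t, chk3 f_pm_202_a t 1 1 1 = true := ex3_a s7_pm_202_a s6_pm_202_a

theorem c_pm_202_a : CertB 0 536870912 0 536870912 697932185 42949674 3 eng mog cd1q2a cd3q0 pd2 true true false .pp 2 0 2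
    ndB1q2a ndB3q0 pcB2 cut_pm_202_a Ext.none :=
  certB1 (fam := true) (s1 := true) (s2 := false) (a := 2) (b := 0) (c := 2) (cn := .pp) (n1 := ndB1q2a) (n2 := ndB3q0) (pc := pcB2) (cut := cut_pm_202_a) (xt := Ext.none) (P1 := 0) (W1 := 536870912) (P2 := 0) (W2 := 536870912) (P3 := 697932185) (W3 := 42949674) (N0 := 3) (En := eng) (mo := mog) (C1 := cd1q2a) (C2 := cd3q0) (C3 := pd2)
    rfl (fun _ => rfl) s8_pm_202_a

noncomputable def cut_pm_202_b : Cut := Cut.of [[⟨0, 1, 0, 67108864⟩, ⟨1, 0, 0, 67108864⟩, ⟨2, 1, 0, 67108864⟩]]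

noncomputable def f_pm_202_b : ℕ → ℕ → ℕ → ℕ → Bool := onCell 1073741824 536870912 0 536870912 697932185 42949674
    (rowB 3 eng mog cd1q2b cd3q0 pd2 2 true true false .pp 2 0 2 (qsf 1239849684 370763052 0 536870912 2) ndB1q2b ndB3q0 pcB2 cut_pm_202_b Ext.none)

def k0_pm_202_b : ∃ t, chk3 f_pm_202_b t 1 1 1 = true :=
  ⟨(a (b (a (l 1) (b (a (b (a (b (b (a (l 1) (l 16481520)) (l 1)) (l 1)) (b (a (a (l 158946557655) (b (l 16435832) (l 240014210295))) (b (l 16418304) (l 213707341447))) (a (l 1) (l 359199567591)))) (l 1)) (a (b (b (b (l 16355288) (l 16398624)) (a (a (l 229276616695) (l 209949288183)) (b (l 16421760) (l 16458208)))) (b (a (l 1) (l 348462203815)) (l 1))) (b (b (b (l 16279464) (l 16343184)) (l 16386264)) (b (b (a (l 16463376) (l 16431016)) (l 272763464647)) (l 381211374967))))) (l 1))) (l 1)) (a (b (b (a (a (b (b (l 16233440) (l 16317216)) (b (l 16399176) (l 16540544))) (b (b (l 16173880) (l 16254944)) (l 16375184))) (a (b (b (l 16120808)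 (l 16199512)) (l 16317464)) (b (l 16113952) (l 16265960)))) (a (b (a (b (l 346851684055) (l 1)) (b (l 16488376) (l 328598131591))) (l 1)) (b (a (b (l 16430480) (l 16505160)) (l 16416512)) (a (l 418255534727) (l 185790381639))))) (l 1)) (b (b (a (b (a (l 16078464) (l 16053184)) (l 16206016)) (b (l 16030552) (l 16154960))) (a (b (l 16392608) (a (l 16522376) (l 16486968))) (b (l 16288112) (l 16440784)))) (b (a (b (a (l 476774530967) (l 16617728)) (l 1)) (b (a (l 16584184) (l 16552416)) (l 442951832215))) (l 1))))), by decide +kernel⟩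

theorem c_pm_202_b : CertB 1239849684 370763052 0 536870912 697932185 42949674 3 eng mog cd1q2b cd3q0 pd2 true true false .pp 2 0 2
    ndB1q2b ndB3q0 pcB2 cut_pm_202_b Ext.none :=
  certB2 (fam := true) (s1 := true) (s2 := false) (a := 2) (b := 0) (c := 2) (cn := .pp) (n1 := ndB1q2b) (n2 := ndB3q0) (pc := pcB2) (cut := cut_pm_202_b) (xt := Ext.none) (P1 := 1239849684) (W1 := 370763052) (P2 := 0) (W2 := 536870912) (P3 := 697932185) (W3 := 42949674) (N0 := 3) (En := eng) (mo := mog) (C1 := cd1q2b) (C2 := cd3q0) (C3 := pd2)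
    rfl (fun _ => rfl) k0_pm_202_b

noncomputable def f_pm_203_a : ℕ → ℕ → ℕ → ℕ → Bool := onCell 0 536870912 1610612736 536870912 697932185 42949674
    (rowB 3 eng mog cd1q2a cd3q0 pd3 1 true true false .up 2 0 3 (qsf 0 536870912 0 536870912 3) ndB1q2a ndB3q0 pcB3 Cut.none Ext.none)

def k0_pm_203_a : ∃ t, chk3 f_pm_203_a t 1 1 1 = true :=
  ⟨(b (b (a (b (a (l 16685624) (l 16658536)) (a (l 16778912) (l 16830968))) (a (b (l 16613032) (l 16688800)) (b (l 16558136) (l 16692384)))) (a (b (a (l 4) (l 16834296)) (l 2)) (a (l 2) (l 2)))) (l 2)), by decide +kernel⟩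

theorem c_pm_203_a : CertB 0 536870912 0 536870912 697932185 42949674 3 eng mog cd1q2a cd3q0 pd3 true true false .up 2 0 3
    ndB1q2a ndB3q0 pcB3 Cut.none Ext.none :=
  certB1 (fam := true) (s1 := true) (s2 := false) (a := 2) (b := 0) (c := 3) (cn := .up) (n1 := ndB1q2a) (n2 := ndB3q0) (pc := pcB3) (cut := Cut.none) (xt := Ext.none) (P1 := 0) (W1 := 536870912) (P2 := 0) (W2 := 536870912) (P3 := 697932185) (W3 := 42949674) (N0 := 3) (En := eng) (mo := mog) (C1 := cd1q2a) (C2 := cd3q0) (C3 := pd3)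
    rfl (fun _ => rfl) k0_pm_203_a

noncomputable def f_pm_203_b : ℕ → ℕ → ℕ → ℕ → Bool := onCell 1239849684 370763052 1610612736 536870912 697932185 42949674
    (rowB 3 eng mog cd1q2b cd3q0 pd3 1 true true false .up 2 0 3 (qsf 1239849684 370763052 0 536870912 3) ndB1q2b ndB3q0 pcB3 Cut.none Ext.none)

def k0_pm_203_b : ∃ t, chk3 f_pm_203_b t 1 1 1 = true :=
  ⟨(b (b (a (b (a (b (l 16613408) (l 16660576)) (b (l 16431912) (l 16476864))) (l 4)) (b (a (b (l 16233640) (l 16282192)) (b (l 16063528) (l 16101952))) (a (l 16373904) (b (l 16149208) (l 16212568))))) (l 4)) (l 4)), by decide +kernel⟩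

theorem c_pm_203_b : CertB 1239849684 370763052 0 536870912 697932185 42949674 3 eng mog cd1q2b cd3q0 pd3 true true false .up 2 0 3
    ndB1q2b ndB3q0 pcB3 Cut.none Ext.none :=
  certB1 (fam := true) (s1 := true) (s2 := false) (a := 2) (b := 0) (c := 3) (cn := .up) (n1 := ndB1q2b) (n2 := ndB3q0) (pc := pcB3) (cut := Cut.none) (xt := Ext.none) (P1 := 1239849684) (W1 := 370763052) (P2 := 0) (W2 := 536870912) (P3 := 697932185) (W3 := 42949674) (N0 := 3) (En := eng) (mo := mog) (C1 := cd1q2b) (C2 := cd3q0) (C3 := pd3)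
    rfl (fun _ => rfl) k0_pm_203_b

noncomputable def f_pm_213_a : ℕ → ℕ → ℕ → ℕ → Bool := onCell 0 536870912 1610612736 536870912 697932185 42949674
    (rowB 3 eng mog cd1q2a cd3q1 pd3 1 true true false .pnn 2 1 3 (qsf 0 536870912 536870912 536870912 3) ndB1q2a ndB3q1 pcB3 Cut.none Ext.none)

def k0_pm_213_a : ∃ t, chk3 f_pm_213_a t 1 1 1 = true :=
  ⟨(a (b (b (b (l 1) (a (l 1) (l 333430085879))) (b (c (l 16767304) (l 16734216)) (l 80765686295))) (l 4)) (b (b (a (b (l 1) (l 16702040)) (b (l 16588536) (l 16735888))) (b (a (l 16774704) (b (l 16894912) (l 16907080))) (a (l 16699840) (l 16824488)))) (b (b (a (b (l 16647440) (l 4)) (b (l 16755728) (l 16715272))) (a (l 4) (b (l 16614488) (b (l 16649976) (l 4))))) (l 4)))), by decide +kernel⟩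

theorem c_pm_213_a : CertB 0 536870912 536870912 536870912 697932185 42949674 3 eng mog cd1q2a cd3q1 pd3 true true false .pnn 2 1 3
    ndB1q2a ndB3q1 pcB3 Cut.none Ext.none :=
  certB1 (fam := true) (s1 := true) (s2 := false) (a := 2) (b := 1) (c := 3) (cn := .pnn) (n1 := ndB1q2a) (n2 := ndB3q1) (pc := pcB3) (cut := Cut.none) (xt := Ext.none) (P1 := 0) (W1 := 536870912) (P2 := 536870912) (W2 := 536870912) (P3 := 697932185) (W3 := 42949674) (N0 := 3) (En := eng) (mo := mog) (C1 := cd1q2a) (C2 := cd3q1) (C3 := pd3)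
    rfl (fun _ => rfl) k0_pm_213_a

noncomputable def f_pm_213_b : ℕ → ℕ → ℕ → ℕ → Bool := onCell 1239849684 370763052 536870912 536870912 697932185 42949674
    (rowB 3 eng mog cd1q2b cd3q1 pd3 0 true true false .pnn 2 1 3 (qsf 1239849684 370763052 536870912 536870912 3) ndB1q2b ndB3q1 pcB3 Cut.none Ext.none)

def k0_pm_213_b : ∃ t, chk3 f_pm_213_b t 1 1 1 = true :=
  ⟨(l 4), by decide +kernel⟩

theorem c_pm_213_b : CertB 1239849684 370763052 536870912 536870912 697932185 42949674 3 eng mog cd1q2b cd3q1 pd3 true true false .pnn 2 1 3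
    ndB1q2b ndB3q1 pcB3 Cut.none Ext.none :=
  certB0 (fam := true) (s1 := true) (s2 := false) (a := 2) (b := 1) (c := 3) (cn := .pnn) (n1 := ndB1q2b) (n2 := ndB3q1) (pc := pcB3) (cut := Cut.none) (xt := Ext.none) (P1 := 1239849684) (W1 := 370763052) (P2 := 536870912) (W2 := 536870912) (P3 := 697932185) (W3 := 42949674) (N0 := 3) (En := eng) (mo := mog) (C1 := cd1q2b) (C2 := cd3q1) (C3 := pd3)
    rfl k0_pm_213_b

noncomputable def f_pm_303 : ℕ → ℕ → ℕ → ℕ → Bool := onCell 1610612736 536870912 0 536870912 697932185 42949674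
    (rowB 3 eng mog cd1q3 cd3q0 pd3 2 true true false .npn 3 0 3 (qsf 1610612736 536870912 0 536870912 3) ndB1q3 ndB3q0 pcB3 Cut.none Ext.none)

def k0_pm_303 : ∃ t, chk3 f_pm_303 t 1 1 1 = true :=
  ⟨(a (a (b (a (b (b (l 16003984) (l 16120808)) (l 1)) (b (b (l 15977584) (l 16093952)) (l 301217422215))) (l 1)) (b (a (b (a (l 16049712) (l 16072944)) (l 4)) (l 4)) (l 4))) (l 4)), by decide +kernel⟩

theorem c_pm_303 : CertB 1610612736 536870912 0 536870912 697932185 42949674 3 eng mog cd1q3 cd3q0 pd3 true true false .npn 3 0 3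
    ndB1q3 ndB3q0 pcB3 Cut.none Ext.none :=
  certB2 (fam := true) (s1 := true) (s2 := false) (a := 3) (b := 0) (c := 3) (cn := .npn) (n1 := ndB1q3) (n2 := ndB3q0) (pc := pcB3) (cut := Cut.none) (xt := Ext.none) (P1 := 1610612736) (W1 := 536870912) (P2 := 0) (W2 := 536870912) (P3 := 697932185) (W3 := 42949674) (N0 := 3) (En := eng) (mo := mog) (C1 := cd1q3) (C2 := cd3q0) (C3 := pd3)
    rfl (fun _ => rfl) k0_pm_303

noncomputable def f_pm_313 : ℕ → ℕ → ℕ → ℕ → Bool := onCell 1610612736 536870912 536870912 536870912 697932185 42949674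
    (rowB 3 eng mog cd1q3 cd3q1 pd3 0 true true false .dn 3 1 3 (qsf 1610612736 536870912 536870912 536870912 3) ndB1q3 ndB3q1 pcB3 Cut.none Ext.none)

def k0_pm_313 : ∃ t, chk3 f_pm_313 t 1 1 1 = true :=
  ⟨(l 4), by decide +kernel⟩

theorem c_pm_313 : CertB 1610612736 536870912 536870912 536870912 697932185 42949674 3 eng mog cd1q3 cd3q1 pd3 true true false .dn 3 1 3
    ndB1q3 ndB3q1 pcB3 Cut.none Ext.none :=
  certB0 (fam := true) (s1 := true) (s2 := false) (a := 3) (b := 1) (c := 3) (cn := .dn) (n1 := ndB1q3) (n2 := ndB3q1) (pc := pcB3) (cut := Cut.none) (xt := Ext.none) (P1 := 1610612736) (W1 := 536870912) (P2 := 536870912) (W2 := 536870912) (P3 := 697932185) (W3 := 42949674) (N0 := 3) (En := eng) (mo := mog) (C1 := cd1q3) (C2 := cd3q1) (C3 := pd3)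
    rfl k0_pm_313

noncomputable def f_mm_001 : ℕ → ℕ → ℕ → ℕ → Bool := onCell 0 536870912 0 536870912 697932185 42949674
    (rowB 3 eng mog cd1q0 cd3q0 pd1 0 true false false .up 0 0 1 (qsf 0 536870912 0 536870912 1) ndB1q0 ndB3q0 pcB1 Cut.none Ext.none)

def k0_mm_001 : ∃ t, chk3 f_mm_001 t 1 1 1 = true :=
  ⟨(l 4), by decide +kernel⟩

theorem c_mm_001 : CertB 0 536870912 0 536870912 697932185 42949674 3 eng mog cd1q0 cd3q0 pd1 true false false .up 0 0 1
    ndB1q0 ndB3q0 pcB1 Cut.none Ext.none :=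
  certB0 (fam := true) (s1 := false) (s2 := false) (a := 0) (b := 0) (c := 1) (cn := .up) (n1 := ndB1q0) (n2 := ndB3q0) (pc := pcB1) (cut := Cut.none) (xt := Ext.none) (P1 := 0) (W1 := 536870912) (P2 := 0) (W2 := 536870912) (P3 := 697932185) (W3 := 42949674) (N0 := 3) (En := eng) (mo := mog) (C1 := cd1q0) (C2 := cd3q0) (C3 := pd1)
    rfl k0_mm_001

noncomputable def f_mm_011 : ℕ → ℕ → ℕ → ℕ → Bool := onCell 0 536870912 536870912 536870912 697932185 42949674
    (rowB 3 eng mog cd1q0 cd3q1 pd1 0 true false false .pnn 0 1 1 (qsf 0 536870912 536870912 536870912 1) ndB1q0 ndB3q1 pcB1 Cut.none Ext.none)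

def k0_mm_011 : ∃ t, chk3 f_mm_011 t 1 1 1 = true :=
  ⟨(l 4), by decide +kernel⟩

theorem c_mm_011 : CertB 0 536870912 536870912 536870912 697932185 42949674 3 eng mog cd1q0 cd3q1 pd1 true false false .pnn 0 1 1
    ndB1q0 ndB3q1 pcB1 Cut.none Ext.none :=
  certB0 (fam := true) (s1 := false) (s2 := false) (a := 0) (b := 1) (c := 1) (cn := .pnn) (n1 := ndB1q0) (n2 := ndB3q1) (pc := pcB1) (cut := Cut.none) (xt := Ext.none) (P1 := 0) (W1 := 536870912) (P2 := 536870912) (W2 := 536870912) (P3 := 697932185) (W3 := 42949674) (N0 := 3) (En := eng) (mo := mog) (C1 := cd1q0) (C2 := cd3q1) (C3 := pd1)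
    rfl k0_mm_011

noncomputable def f_mm_012 : ℕ → ℕ → ℕ → ℕ → Bool := onCell 0 536870912 536870912 536870912 697932185 42949674
    (rowB 3 eng mog cd1q0 cd3q1 pd2 0 true false false .pnp 0 1 2 (qsf 0 536870912 536870912 536870912 2) ndB1q0 ndB3q1 pcB2 Cut.none Ext.none)

def k0_mm_012 : ∃ t, chk3 f_mm_012 t 1 1 1 = true :=
  ⟨(l 4), by decide +kernel⟩

theorem c_mm_012 : CertB 0 536870912 536870912 536870912 697932185 42949674 3 eng mog cd1q0 cd3q1 pd2 true false false .pnp 0 1 2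
    ndB1q0 ndB3q1 pcB2 Cut.none Ext.none :=
  certB0 (fam := true) (s1 := false) (s2 := false) (a := 0) (b := 1) (c := 2) (cn := .pnp) (n1 := ndB1q0) (n2 := ndB3q1) (pc := pcB2) (cut := Cut.none) (xt := Ext.none) (P1 := 0) (W1 := 536870912) (P2 := 536870912) (W2 := 536870912) (P3 := 697932185) (W3 := 42949674) (N0 := 3) (En := eng) (mo := mog) (C1 := cd1q0) (C2 := cd3q1) (C3 := pd2)
    rfl k0_mm_012

noncomputable def f_mm_022_a : ℕ → ℕ → ℕ → ℕ → Bool := onCell 0 536870912 0 536870912 697932185 42949674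
    (rowB 3 eng mog cd1q0 cd3q2a pd2 0 true false false .pp 0 2 2 (qsf 0 536870912 0 536870912 2) ndB1q0 ndB3q2a pcB2 Cut.none Ext.none)

def k0_mm_022_a : ∃ t, chk3 f_mm_022_a t 1 1 1 = true :=
  ⟨(l 5), by decide +kernel⟩

theorem c_mm_022_a : CertB 0 536870912 0 536870912 697932185 42949674 3 eng mog cd1q0 cd3q2a pd2 true false false .pp 0 2 2
    ndB1q0 ndB3q2a pcB2 Cut.none Ext.none :=
  certB0 (fam := true) (s1 := false) (s2 := false) (a := 0) (b := 2) (c := 2) (cn := .pp) (n1 := ndB1q0) (n2 := ndB3q2a) (pc := pcB2) (cut := Cut.none) (xt := Ext.none) (P1 := 0) (W1 := 536870912) (P2 := 0) (W2 := 536870912) (P3 := 697932185) (W3 := 42949674) (N0 := 3) (En := eng) (mo := mog) (C1 := cd1q0) (C2 := cd3q2a) (C3 := pd2)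
    rfl k0_mm_022_a

noncomputable def f_mm_022_b : ℕ → ℕ → ℕ → ℕ → Bool := onCell 0 536870912 1239849684 370763052 697932185 42949674
    (rowB 3 eng mog cd1q0 cd3q2b pd2 0 true false false .pp 0 2 2 (qsf 0 536870912 1239849684 370763052 2) ndB1q0 ndB3q2b pcB2 Cut.none Ext.none)

def k0_mm_022_b : ∃ t, chk3 f_mm_022_b t 1 1 1 = true :=
  ⟨(l 5), by decide +kernel⟩

theorem c_mm_022_b : CertB 0 536870912 1239849684 370763052 697932185 42949674 3 eng mog cd1q0 cd3q2b pd2 true false false .pp 0 2 2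
    ndB1q0 ndB3q2b pcB2 Cut.none Ext.none :=
  certB0 (fam := true) (s1 := false) (s2 := false) (a := 0) (b := 2) (c := 2) (cn := .pp) (n1 := ndB1q0) (n2 := ndB3q2b) (pc := pcB2) (cut := Cut.none) (xt := Ext.none) (P1 := 0) (W1 := 536870912) (P2 := 1239849684) (W2 := 370763052) (P3 := 697932185) (W3 := 42949674) (N0 := 3) (En := eng) (mo := mog) (C1 := cd1q0) (C2 := cd3q2b) (C3 := pd2)
    rfl k0_mm_022_b

noncomputable def f_mm_023_a : ℕ → ℕ → ℕ → ℕ → Bool := onCell 0 536870912 0 536870912 697932185 42949674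
    (rowB 3 eng mog cd1q0 cd3q2a pd3 0 true false false .up 0 2 3 (qsf 0 536870912 0 536870912 3) ndB1q0 ndB3q2a pcB3 Cut.none Ext.none)

def k0_mm_023_a : ∃ t, chk3 f_mm_023_a t 1 1 1 = true :=
  ⟨(l 5), by decide +kernel⟩

theorem c_mm_023_a : CertB 0 536870912 0 536870912 697932185 42949674 3 eng mog cd1q0 cd3q2a pd3 true false false .up 0 2 3
    ndB1q0 ndB3q2a pcB3 Cut.none Ext.none :=
  certB0 (fam := true) (s1 := false) (s2 := false) (a := 0) (b := 2) (c := 3) (cn := .up) (n1 := ndB1q0) (n2 := ndB3q2a) (pc := pcB3) (cut := Cut.none) (xt := Ext.none) (P1 := 0) (W1 := 536870912) (P2 := 0) (W2 := 536870912) (P3 := 697932185) (W3 := 42949674) (N0 := 3) (En := eng) (mo := mog) (C1 := cd1q0) (C2 := cd3q2a) (C3 := pd3)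
    rfl k0_mm_023_a

noncomputable def f_mm_023_b : ℕ → ℕ → ℕ → ℕ → Bool := onCell 0 536870912 1239849684 370763052 697932185 42949674
    (rowB 3 eng mog cd1q0 cd3q2b pd3 0 true false false .up 0 2 3 (qsf 0 536870912 1239849684 370763052 3) ndB1q0 ndB3q2b pcB3 Cut.none Ext.none)

def k0_mm_023_b : ∃ t, chk3 f_mm_023_b t 1 1 1 = true :=
  ⟨(l 5), by decide +kernel⟩

theorem c_mm_023_b : CertB 0 536870912 1239849684 370763052 697932185 42949674 3 eng mog cd1q0 cd3q2b pd3 true false false .up 0 2 3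
    ndB1q0 ndB3q2b pcB3 Cut.none Ext.none :=
  certB0 (fam := true) (s1 := false) (s2 := false) (a := 0) (b := 2) (c := 3) (cn := .up) (n1 := ndB1q0) (n2 := ndB3q2b) (pc := pcB3) (cut := Cut.none) (xt := Ext.none) (P1 := 0) (W1 := 536870912) (P2 := 1239849684) (W2 := 370763052) (P3 := 697932185) (W3 := 42949674) (N0 := 3) (En := eng) (mo := mog) (C1 := cd1q0) (C2 := cd3q2b) (C3 := pd3)
    rfl k0_mm_023_b

noncomputable def f_mm_033 : ℕ → ℕ → ℕ → ℕ → Bool := onCell 0 536870912 1610612736 536870912 697932185 42949674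
    (rowB 3 eng mog cd1q0 cd3q3 pd3 0 true false false .pnn 0 3 3 (qsf 0 536870912 1610612736 536870912 3) ndB1q0 ndB3q3 pcB3 Cut.none Ext.none)

def k0_mm_033 : ∃ t, chk3 f_mm_033 t 1 1 1 = true :=
  ⟨(l 5), by decide +kernel⟩

theorem c_mm_033 : CertB 0 536870912 1610612736 536870912 697932185 42949674 3 eng mog cd1q0 cd3q3 pd3 true false false .pnn 0 3 3
    ndB1q0 ndB3q3 pcB3 Cut.none Ext.none :=
  certB0 (fam := true) (s1 := false) (s2 := false) (a := 0) (b := 3) (c := 3) (cn := .pnn) (n1 := ndB1q0) (n2 := ndB3q3) (pc := pcB3) (cut := Cut.none) (xt := Ext.none) (P1 := 0) (W1 := 536870912) (P2 := 1610612736) (W2 := 536870912) (P3 := 697932185) (W3 := 42949674) (N0 := 3) (En := eng) (mo := mog) (C1 := cd1q0) (C2 := cd3q3) (C3 := pd3)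
    rfl k0_mm_033

noncomputable def f_mm_101 : ℕ → ℕ → ℕ → ℕ → Bool := onCell 536870912 536870912 0 536870912 697932185 42949674
    (rowB 3 eng mog cd1q1 cd3q0 pd1 0 true false false .npn 1 0 1 (qsf 536870912 536870912 0 536870912 1) ndB1q1 ndB3q0 pcB1 Cut.none Ext.none)

def k0_mm_101 : ∃ t, chk3 f_mm_101 t 1 1 1 = true :=
  ⟨(l 4), by decide +kernel⟩

theorem c_mm_101 : CertB 536870912 536870912 0 536870912 697932185 42949674 3 eng mog cd1q1 cd3q0 pd1 true false false .npn 1 0 1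
    ndB1q1 ndB3q0 pcB1 Cut.none Ext.none :=
  certB0 (fam := true) (s1 := false) (s2 := false) (a := 1) (b := 0) (c := 1) (cn := .npn) (n1 := ndB1q1) (n2 := ndB3q0) (pc := pcB1) (cut := Cut.none) (xt := Ext.none) (P1 := 536870912) (W1 := 536870912) (P2 := 0) (W2 := 536870912) (P3 := 697932185) (W3 := 42949674) (N0 := 3) (En := eng) (mo := mog) (C1 := cd1q1) (C2 := cd3q0) (C3 := pd1)
    rfl k0_mm_101

noncomputable def f_mm_102 : ℕ → ℕ → ℕ → ℕ → Bool := onCell 536870912 536870912 0 536870912 697932185 42949674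
    (rowB 3 eng mog cd1q1 cd3q0 pd2 0 true false false .npp 1 0 2 (qsf 536870912 536870912 0 536870912 2) ndB1q1 ndB3q0 pcB2 Cut.none Ext.none)

def k0_mm_102 : ∃ t, chk3 f_mm_102 t 1 1 1 = true :=
  ⟨(l 4), by decide +kernel⟩

theorem c_mm_102 : CertB 536870912 536870912 0 536870912 697932185 42949674 3 eng mog cd1q1 cd3q0 pd2 true false false .npp 1 0 2
    ndB1q1 ndB3q0 pcB2 Cut.none Ext.none :=
  certB0 (fam := true) (s1 := false) (s2 := false) (a := 1) (b := 0) (c := 2) (cn := .npp) (n1 := ndB1q1) (n2 := ndB3q0) (pc := pcB2) (cut := Cut.none) (xt := Ext.none) (P1 := 536870912) (W1 := 536870912) (P2 := 0) (W2 := 536870912) (P3 := 697932185) (W3 := 42949674) (N0 := 3) (En := eng) (mo := mog) (C1 := cd1q1) (C2 := cd3q0) (C3 := pd2)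
    rfl k0_mm_102

noncomputable def f_mm_112 : ℕ → ℕ → ℕ → ℕ → Bool := onCell 536870912 536870912 536870912 536870912 697932185 42949674
    (rowB 3 eng mog cd1q1 cd3q1 pd2 0 true false false .dn 1 1 2 (qsf 536870912 536870912 536870912 536870912 2) ndB1q1 ndB3q1 pcB2 Cut.none Ext.none)

def k0_mm_112 : ∃ t, chk3 f_mm_112 t 1 1 1 = true :=
  ⟨(l 4), by decide +kernel⟩

theorem c_mm_112 : CertB 536870912 536870912 536870912 536870912 697932185 42949674 3 eng mog cd1q1 cd3q1 pd2 true false false .dn 1 1 2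
    ndB1q1 ndB3q1 pcB2 Cut.none Ext.none :=
  certB0 (fam := true) (s1 := false) (s2 := false) (a := 1) (b := 1) (c := 2) (cn := .dn) (n1 := ndB1q1) (n2 := ndB3q1) (pc := pcB2) (cut := Cut.none) (xt := Ext.none) (P1 := 536870912) (W1 := 536870912) (P2 := 536870912) (W2 := 536870912) (P3 := 697932185) (W3 := 42949674) (N0 := 3) (En := eng) (mo := mog) (C1 := cd1q1) (C2 := cd3q1) (C3 := pd2)
    rfl k0_mm_112

noncomputable def f_mm_113 : ℕ → ℕ → ℕ → ℕ → Bool := onCell 536870912 536870912 536870912 536870912 697932185 42949674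
    (rowB 3 eng mog cd1q1 cd3q1 pd3 0 true false false .nn 1 1 3 (qsf 536870912 536870912 536870912 536870912 3) ndB1q1 ndB3q1 pcB3 Cut.none Ext.none)

def k0_mm_113 : ∃ t, chk3 f_mm_113 t 1 1 1 = true :=
  ⟨(l 4), by decide +kernel⟩

theorem c_mm_113 : CertB 536870912 536870912 536870912 536870912 697932185 42949674 3 eng mog cd1q1 cd3q1 pd3 true false false .nn 1 1 3
    ndB1q1 ndB3q1 pcB3 Cut.none Ext.none :=
  certB0 (fam := true) (s1 := false) (s2 := false) (a := 1) (b := 1) (c := 3) (cn := .nn) (n1 := ndB1q1) (n2 := ndB3q1) (pc := pcB3) (cut := Cut.none) (xt := Ext.none) (P1 := 536870912) (W1 := 536870912) (P2 := 536870912) (W2 := 536870912) (P3 := 697932185) (W3 := 42949674) (N0 := 3) (En := eng) (mo := mog) (C1 := cd1q1) (C2 := cd3q1) (C3 := pd3)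
    rfl k0_mm_113

noncomputable def f_mm_123_a : ℕ → ℕ → ℕ → ℕ → Bool := onCell 536870912 536870912 0 536870912 697932185 42949674
    (rowB 3 eng mog cd1q1 cd3q2a pd3 0 true false false .npn 1 2 3 (qsf 536870912 536870912 0 536870912 3) ndB1q1 ndB3q2a pcB3 Cut.none Ext.none)

def k0_mm_123_a : ∃ t, chk3 f_mm_123_a t 1 1 1 = true :=
  ⟨(l 4), by decide +kernel⟩

theorem c_mm_123_a : CertB 536870912 536870912 0 536870912 697932185 42949674 3 eng mog cd1q1 cd3q2a pd3 true false false .npn 1 2 3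
    ndB1q1 ndB3q2a pcB3 Cut.none Ext.none :=
  certB0 (fam := true) (s1 := false) (s2 := false) (a := 1) (b := 2) (c := 3) (cn := .npn) (n1 := ndB1q1) (n2 := ndB3q2a) (pc := pcB3) (cut := Cut.none) (xt := Ext.none) (P1 := 536870912) (W1 := 536870912) (P2 := 0) (W2 := 536870912) (P3 := 697932185) (W3 := 42949674) (N0 := 3) (En := eng) (mo := mog) (C1 := cd1q1) (C2 := cd3q2a) (C3 := pd3)
    rfl k0_mm_123_a

noncomputable def f_mm_123_b : ℕ → ℕ → ℕ → ℕ → Bool := onCell 536870912 536870912 1239849684 370763052 697932185 42949674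
    (rowB 3 eng mog cd1q1 cd3q2b pd3 0 true false false .npn 1 2 3 (qsf 536870912 536870912 1239849684 370763052 3) ndB1q1 ndB3q2b pcB3 Cut.none Ext.none)

def k0_mm_123_b : ∃ t, chk3 f_mm_123_b t 1 1 1 = true :=
  ⟨(l 4), by decide +kernel⟩

theorem c_mm_123_b : CertB 536870912 536870912 1239849684 370763052 697932185 42949674 3 eng mog cd1q1 cd3q2b pd3 true false false .npn 1 2 3
    ndB1q1 ndB3q2b pcB3 Cut.none Ext.none :=
  certB0 (fam := true) (s1 := false) (s2 := false) (a := 1) (b := 2) (c := 3) (cn := .npn) (n1 := ndB1q1) (n2 := ndB3q2b) (pc := pcB3) (cut := Cut.none) (xt := Ext.none) (P1 := 536870912) (W1 := 536870912) (P2 := 1239849684) (W2 := 370763052) (P3 := 697932185) (W3 := 42949674) (N0 := 3) (En := eng) (mo := mog) (C1 := cd1q1) (C2 := cd3q2b) (C3 := pd3)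
    rfl k0_mm_123_b

noncomputable def f_mm_133 : ℕ → ℕ → ℕ → ℕ → Bool := onCell 536870912 536870912 1610612736 536870912 697932185 42949674
    (rowB 3 eng mog cd1q1 cd3q3 pd3 0 true false false .dn 1 3 3 (qsf 536870912 536870912 1610612736 536870912 3) ndB1q1 ndB3q3 pcB3 Cut.none Ext.none)

def k0_mm_133 : ∃ t, chk3 f_mm_133 t 1 1 1 = true :=
  ⟨(l 4), by decide +kernel⟩

theorem c_mm_133 : CertB 536870912 536870912 1610612736 536870912 697932185 42949674 3 eng mog cd1q1 cd3q3 pd3 true false false .dn 1 3 3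
    ndB1q1 ndB3q3 pcB3 Cut.none Ext.none :=
  certB0 (fam := true) (s1 := false) (s2 := false) (a := 1) (b := 3) (c := 3) (cn := .dn) (n1 := ndB1q1) (n2 := ndB3q3) (pc := pcB3) (cut := Cut.none) (xt := Ext.none) (P1 := 536870912) (W1 := 536870912) (P2 := 1610612736) (W2 := 536870912) (P3 := 697932185) (W3 := 42949674) (N0 := 3) (En := eng) (mo := mog) (C1 := cd1q1) (C2 := cd3q3) (C3 := pd3)
    rfl k0_mm_133

noncomputable def cut_mm_202_a : Cut := Cut.of [[⟨0, 1, 0, 67108864⟩, ⟨1, 0, 0, 67108864⟩, ⟨2, 1, 0, 67108864⟩]]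

noncomputable def f_mm_202_a : ℕ → ℕ → ℕ → ℕ → Bool := onCell 0 536870912 0 536870912 697932185 42949674
    (rowB 3 eng mog cd1q2a cd3q0 pd2 0 true false false .pp 2 0 2 (qsf 0 536870912 0 536870912 2) ndB1q2a ndB3q0 pcB2 cut_mm_202_a Ext.none)

def k0_mm_202_a : ∃ t, chk3 f_mm_202_a t 2 2 1 = true :=
  ⟨(b (b (a (b (a (b (l 16444888) (l 16405056)) (b (l 16455360) (l 16456800))) (a (l 16460880) (l 16470968))) (b (a (b (a (l 16468704) (l 16480424)) (a (l 16406280) (l 16460064))) (b (a (b (a (l 16490704) (l 16499312)) (l 16515920)) (b (a (l 16509264) (l 16520080)) (a (l 16509424) (l 16520392)))) (a (a (l 16491624) (l 16500664)) (b (l 16515912) (l 16517600))))) (a (b (a (l 16477400) (l 16487592)) (l 16493448)) (b (a (b (l 16499136) (l 16503248)) (b (l 16519960) (l 16523096))) (a (l 16511760) (l 16551624)))))) (a (a (l 16576296) (l 16584744)) (b (a (l 16509768) (l 16539128)) (a (l 16532288) (l 16563672))))) (b (a (b (l 16522592) (l 16691720)) (b (a (l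 16555976) (l 16591664)) (a (l 16582536) (l 4)))) (a (b (l 16574768) (l 16607280)) (a (b (l 16614632) (l 4)) (l 4))))), by decide +kernel⟩

def k1_mm_202_a : ∃ t, chk3 f_mm_202_a t 3 2 1 = true :=
  ⟨(b (a (b (b (b (a (b (a (a (l 16531776) (l 16544376)) (a (l 16557928) (b (l 16566352) (l 16571560)))) (a (l 16538616) (l 16555424))) (a (b (b (a (l 16576200) (l 16586384)) (l 16586952)) (l 16579288)) (b (a (b (l 16597216) (l 16603224)) (b (l 16609936) (l 16616200))) (a (l 16611888) (l 16625256))))) (a (a (l 16540776) (a (l 16561088) (l 16575776))) (a (b (l 16598288) (l 16600712)) (b (l 16629816) (l 16634336))))) (a (b (a (l 16546080) (l 16532304)) (a (b (l 16551776) (l 16556824)) (l 16561592))) (a (b (l 16605616) (l 16614384)) (b (l 16639480) (l 16649056))))) (b (a (a (l 16572032) (b (l 16593568) (l 16606456))) (a (b (l 16625784) (l 16640768)) (b (l 16663440) (l 4)))) (a (l 16635472) (l 4)))) (b (a (b (b (a (a (b (b (l 16623304) (l 16629840)) (l 16618336))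 (b (b (a (l 16633624) (l 16641240)) (l 16644256)) (a (l 16650152) (l 16658088)))) (a (b (b (l 6) (l 16661872)) (a (l 16667320) (l 16676816))) (b (l 6) (b (l 6) (l 16673984))))) (a (b (l 16659040) (l 16668928)) (a (l 16691264) (a (l 16704896) (l 16732056))))) (b (b (a (l 16672216) (l 16729336)) (a (l 16676816) (l 16716384))) (a (l 16687944) (l 4)))) (b (a (b (l 6) (a (b (l 6) (l 16731432)) (l 6))) (l 6)) (l 4))) (l 4))) (a (l 4) (l 4))), by decide +kernel⟩

def k2_mm_202_a : ∃ t, chk3 f_mm_202_a t 1 3 1 = true :=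
  ⟨(a (b (b (a (a (b (l 16629440) (l 4)) (l 4)) (l 4)) (l 4)) (l 4)) (l 4)), by decide +kernel⟩

theorem s3_mm_202_a : ∃ t, chk3 f_mm_202_a t 1 2 1 = true := ex3_a k0_mm_202_a k1_mm_202_a

theorem s4_mm_202_a : ∃ t, chk3 f_mm_202_a t 1 1 1 = true := ex3_b s3_mm_202_a k2_mm_202_a

theorem c_mm_202_a : CertB 0 536870912 0 536870912 697932185 42949674 3 eng mog cd1q2a cd3q0 pd2 true false false .pp 2 0 2
    ndB1q2a ndB3q0 pcB2 cut_mm_202_a Ext.none :=
  certB0 (fam := true) (s1 := false) (s2 := false) (a := 2) (b := 0) (c := 2) (cn := .pp) (n1 := ndB1q2a) (n2 := ndB3q0) (pc := pcB2) (cut := cut_mm_202_a) (xt := Ext.none) (P1 := 0) (W1 := 536870912) (P2 := 0) (W2 := 536870912) (P3 := 697932185) (W3 := 42949674) (N0 := 3) (En := eng) (mo := mog) (C1 := cd1q2a) (C2 := cd3q0) (C3 := pd2)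
    rfl s4_mm_202_a

noncomputable def cut_mm_202_b : Cut := Cut.of [[⟨0, 1, 0, 67108864⟩, ⟨1, 0, 0, 67108864⟩, ⟨2, 1, 0, 67108864⟩]]

noncomputable def f_mm_202_b : ℕ → ℕ → ℕ → ℕ → Bool := onCell 1073741824 536870912 0 536870912 697932185 42949674
    (rowB 3 eng mog cd1q2b cd3q0 pd2 2 true false false .pp 2 0 2 (qsf 1239849684 370763052 0 536870912 2) ndB1q2b ndB3q0 pcB2 cut_mm_202_b Ext.none)

def k0_mm_202_b : ∃ t, chk3 f_mm_202_b t 1 1 1 = true :=
  ⟨(a (b (a (l 1) (b (a (b (b (a (b (a (l 1) (l 16477568)) (l 1)) (a (b (l 16439600) (l 16469688)) (l 16427616))) (a (l 1) (a (l 1) (l 329671717383)))) (l 1)) (a (b (b (l 16365328) (l 16456280)) (l 377990092471)) (b (b (l 16310264) (l 16396032)) (b (l 16472496) (l 16492520))))) (l 1))) (l 1)) (a (b (b (a (b (b (a (l 16241000) (l 16178472)) (l 16292544)) (a (l 16451328) (l 16385616))) (b (a (b (l 16122816) (l 16203664)) (l 16114320)) (a (l 16326000) (l 16272648)))) (a (b (a (l 300143991639) (l 95596215031))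 (l 1)) (b (a (l 16548880) (l 16431432)) (a (l 325913846775) (l 188474826295))))) (l 1)) (b (a (b (b (a (l 16074568) (l 16043712)) (l 16354288)) (b (l 16466032) (a (l 16543800) (l 16504384)))) (b (b (a (l 16020584) (l 16001192)) (l 16144640)) (a (b (l 16305184) (l 16468552)) (b (l 16273840) (l 16436640))))) (b (a (b (a (l 379064006935) (l 16607920)) (l 1)) (a (b (l 16617240) (l 4)) (l 4))) (l 1))))), by decide +kernel⟩

theorem c_mm_202_b : CertB 1239849684 370763052 0 536870912 697932185 42949674 3 eng mog cd1q2b cd3q0 pd2 true false false .pp 2 0 2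
    ndB1q2b ndB3q0 pcB2 cut_mm_202_b Ext.none :=
  certB2 (fam := true) (s1 := false) (s2 := false) (a := 2) (b := 0) (c := 2) (cn := .pp) (n1 := ndB1q2b) (n2 := ndB3q0) (pc := pcB2) (cut := cut_mm_202_b) (xt := Ext.none) (P1 := 1239849684) (W1 := 370763052) (P2 := 0) (W2 := 536870912) (P3 := 697932185) (W3 := 42949674) (N0 := 3) (En := eng) (mo := mog) (C1 := cd1q2b) (C2 := cd3q0) (C3 := pd2)
    rfl (fun _ => rfl) k0_mm_202_b

noncomputable def f_mm_203_a : ℕ → ℕ → ℕ → ℕ → Bool := onCell 0 536870912 1610612736 536870912 697932185 42949674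
    (rowB 3 eng mog cd1q2a cd3q0 pd3 1 true false false .up 2 0 3 (qsf 0 536870912 0 536870912 3) ndB1q2a ndB3q0 pcB3 Cut.none Ext.none)

def k0_mm_203_a : ∃ t, chk3 f_mm_203_a t 1 1 1 = true :=
  ⟨(b (l 4) (l 2)), by decide +kernel⟩

theorem c_mm_203_a : CertB 0 536870912 0 536870912 697932185 42949674 3 eng mog cd1q2a cd3q0 pd3 true false false .up 2 0 3
    ndB1q2a ndB3q0 pcB3 Cut.none Ext.none :=
  certB1 (fam := true) (s1 := false) (s2 := false) (a := 2) (b := 0) (c := 3) (cn := .up) (n1 := ndB1q2a) (n2 := ndB3q0) (pc := pcB3) (cut := Cut.none) (xt := Ext.none) (P1 := 0) (W1 := 536870912) (P2 := 0) (W2 := 536870912) (P3 := 697932185) (W3 := 42949674) (N0 := 3) (En := eng) (mo := mog) (C1 := cd1q2a) (C2 := cd3q0) (C3 := pd3)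
    rfl (fun _ => rfl) k0_mm_203_a

noncomputable def f_mm_203_b : ℕ → ℕ → ℕ → ℕ → Bool := onCell 1239849684 370763052 1610612736 536870912 697932185 42949674
    (rowB 3 eng mog cd1q2b cd3q0 pd3 1 true false false .up 2 0 3 (qsf 1239849684 370763052 0 536870912 3) ndB1q2b ndB3q0 pcB3 Cut.none Ext.none)

def k0_mm_203_b : ∃ t, chk3 f_mm_203_b t 1 1 1 = true :=
  ⟨(b (b (a (l 4) (b (a (b (l 16224352) (l 4)) (b (l 16035176) (l 16079960))) (l 4))) (l 4)) (l 4)), by decide +kernel⟩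

theorem c_mm_203_b : CertB 1239849684 370763052 0 536870912 697932185 42949674 3 eng mog cd1q2b cd3q0 pd3 true false false .up 2 0 3
    ndB1q2b ndB3q0 pcB3 Cut.none Ext.none :=
  certB1 (fam := true) (s1 := false) (s2 := false) (a := 2) (b := 0) (c := 3) (cn := .up) (n1 := ndB1q2b) (n2 := ndB3q0) (pc := pcB3) (cut := Cut.none) (xt := Ext.none) (P1 := 1239849684) (W1 := 370763052) (P2 := 0) (W2 := 536870912) (P3 := 697932185) (W3 := 42949674) (N0 := 3) (En := eng) (mo := mog) (C1 := cd1q2b) (C2 := cd3q0) (C3 := pd3)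
    rfl (fun _ => rfl) k0_mm_203_b

noncomputable def f_mm_213_a : ℕ → ℕ → ℕ → ℕ → Bool := onCell 0 536870912 536870912 536870912 697932185 42949674
    (rowB 3 eng mog cd1q2a cd3q1 pd3 0 true false false .pnn 2 1 3 (qsf 0 536870912 536870912 536870912 3) ndB1q2a ndB3q1 pcB3 Cut.none Ext.none)

def k0_mm_213_a : ∃ t, chk3 f_mm_213_a t 1 1 1 = true :=
  ⟨(l 4), by decide +kernel⟩

theorem c_mm_213_a : CertB 0 536870912 536870912 536870912 697932185 42949674 3 eng mog cd1q2a cd3q1 pd3 true false false .pnn 2 1 3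
    ndB1q2a ndB3q1 pcB3 Cut.none Ext.none :=
  certB0 (fam := true) (s1 := false) (s2 := false) (a := 2) (b := 1) (c := 3) (cn := .pnn) (n1 := ndB1q2a) (n2 := ndB3q1) (pc := pcB3) (cut := Cut.none) (xt := Ext.none) (P1 := 0) (W1 := 536870912) (P2 := 536870912) (W2 := 536870912) (P3 := 697932185) (W3 := 42949674) (N0 := 3) (En := eng) (mo := mog) (C1 := cd1q2a) (C2 := cd3q1) (C3 := pd3)
    rfl k0_mm_213_a

noncomputable def f_mm_213_b : ℕ → ℕ → ℕ → ℕ → Bool := onCell 1239849684 370763052 536870912 536870912 697932185 42949674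
    (rowB 3 eng mog cd1q2b cd3q1 pd3 0 true false false .pnn 2 1 3 (qsf 1239849684 370763052 536870912 536870912 3) ndB1q2b ndB3q1 pcB3 Cut.none Ext.none)

def k0_mm_213_b : ∃ t, chk3 f_mm_213_b t 1 1 1 = true :=
  ⟨(l 4), by decide +kernel⟩

theorem c_mm_213_b : CertB 1239849684 370763052 536870912 536870912 697932185 42949674 3 eng mog cd1q2b cd3q1 pd3 true false false .pnn 2 1 3
    ndB1q2b ndB3q1 pcB3 Cut.none Ext.none :=
  certB0 (fam := true) (s1 := false) (s2 := false) (a := 2) (b := 1) (c := 3) (cn := .pnn) (n1 := ndB1q2b) (n2 := ndB3q1) (pc := pcB3) (cut := Cut.none) (xt := Ext.none) (P1 := 1239849684) (W1 := 370763052) (P2 := 536870912) (W2 := 536870912) (P3 := 697932185) (W3 := 42949674) (N0 := 3) (En := eng) (mo := mog) (C1 := cd1q2b) (C2 := cd3q1) (C3 := pd3)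
    rfl k0_mm_213_b

noncomputable def f_mm_303 : ℕ → ℕ → ℕ → ℕ → Bool := onCell 1610612736 536870912 0 536870912 697932185 42949674
    (rowB 3 eng mog cd1q3 cd3q0 pd3 2 true false false .npn 3 0 3 (qsf 1610612736 536870912 0 536870912 3) ndB1q3 ndB3q0 pcB3 Cut.none Ext.none)

def k0_mm_303 : ∃ t, chk3 f_mm_303 t 1 1 1 = true :=
  ⟨(b (a (a (a (b (b (l 15967104) (l 16133464)) (l 1)) (b (b (l 16016616) (l 4)) (l 4))) (l 4)) (l 4)) (l 4)), by decide +kernel⟩

theorem c_mm_303 : CertB 1610612736 536870912 0 536870912 697932185 42949674 3 eng mog cd1q3 cd3q0 pd3 true false false .npn 3 0 3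
    ndB1q3 ndB3q0 pcB3 Cut.none Ext.none :=
  certB2 (fam := true) (s1 := false) (s2 := false) (a := 3) (b := 0) (c := 3) (cn := .npn) (n1 := ndB1q3) (n2 := ndB3q0) (pc := pcB3) (cut := Cut.none) (xt := Ext.none) (P1 := 1610612736) (W1 := 536870912) (P2 := 0) (W2 := 536870912) (P3 := 697932185) (W3 := 42949674) (N0 := 3) (En := eng) (mo := mog) (C1 := cd1q3) (C2 := cd3q0) (C3 := pd3)
    rfl (fun _ => rfl) k0_mm_303

noncomputable def f_mm_313 : ℕ → ℕ → ℕ → ℕ → Bool := onCell 1610612736 536870912 536870912 536870912 697932185 42949674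
    (rowB 3 eng mog cd1q3 cd3q1 pd3 0 true false false .dn 3 1 3 (qsf 1610612736 536870912 536870912 536870912 3) ndB1q3 ndB3q1 pcB3 Cut.none Ext.none)

def k0_mm_313 : ∃ t, chk3 f_mm_313 t 1 1 1 = true :=
  ⟨(l 4), by decide +kernel⟩

theorem c_mm_313 : CertB 1610612736 536870912 536870912 536870912 697932185 42949674 3 eng mog cd1q3 cd3q1 pd3 true false false .dn 3 1 3
    ndB1q3 ndB3q1 pcB3 Cut.none Ext.none :=
  certB0 (fam := true) (s1 := false) (s2 := false) (a := 3) (b := 1) (c := 3) (cn := .dn) (n1 := ndB1q3) (n2 := ndB3q1) (pc := pcB3) (cut := Cut.none) (xt := Ext.none) (P1 := 1610612736) (W1 := 536870912) (P2 := 536870912) (W2 := 536870912) (P3 := 697932185) (W3 := 42949674) (N0 := 3) (En := eng) (mo := mog) (C1 := cd1q3) (C2 := cd3q1) (C3 := pd3)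
    rfl k0_mm_313

end Pool.Agent.Strip051.G.I6500_6900.Tab.C.BA13

namespace Pool.Agent.Strip051.G.I6500_6900.Tab.C.BA14

open Pool.Agent.Strip051.PB Pool.Agent.Strip051.PB.T
open Pool.Agent.Strip051.G.I6500_6900.Tab

noncomputable def f_pp_001 : ℕ → ℕ → ℕ → ℕ → Bool := onCell 0 536870912 0 536870912 697932185 42949674
    (rowB 3 eng mog cd1q0 cd4q0 pd1 0 true true true .up 0 0 1 (qsf 0 536870912 0 536870912 1) ndB1q0 ndB4q0 pcB1 Cut.none Ext.none)

def k0_pp_001 : ∃ t, chk3 f_pp_001 t 1 1 1 = true :=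
  ⟨(l 4), by decide +kernel⟩

theorem c_pp_001 : CertB 0 536870912 0 536870912 697932185 42949674 3 eng mog cd1q0 cd4q0 pd1 true true true .up 0 0 1
    ndB1q0 ndB4q0 pcB1 Cut.none Ext.none :=
  certB0 (fam := true) (s1 := true) (s2 := true) (a := 0) (b := 0) (c := 1) (cn := .up) (n1 := ndB1q0) (n2 := ndB4q0) (pc := pcB1) (cut := Cut.none) (xt := Ext.none) (P1 := 0) (W1 := 536870912) (P2 := 0) (W2 := 536870912) (P3 := 697932185) (W3 := 42949674) (N0 := 3) (En := eng) (mo := mog) (C1 := cd1q0) (C2 := cd4q0) (C3 := pd1)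
    rfl k0_pp_001

noncomputable def f_pp_011 : ℕ → ℕ → ℕ → ℕ → Bool := onCell 0 536870912 536870912 536870912 697932185 42949674
    (rowB 3 eng mog cd1q0 cd4q1 pd1 0 true true true .pnn 0 1 1 (qsf 0 536870912 536870912 536870912 1) ndB1q0 ndB4q1 pcB1 Cut.none Ext.none)

def k0_pp_011 : ∃ t, chk3 f_pp_011 t 1 1 1 = true :=
  ⟨(l 4), by decide +kernel⟩

theorem c_pp_011 : CertB 0 536870912 536870912 536870912 697932185 42949674 3 eng mog cd1q0 cd4q1 pd1 true true true .pnn 0 1 1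
    ndB1q0 ndB4q1 pcB1 Cut.none Ext.none :=
  certB0 (fam := true) (s1 := true) (s2 := true) (a := 0) (b := 1) (c := 1) (cn := .pnn) (n1 := ndB1q0) (n2 := ndB4q1) (pc := pcB1) (cut := Cut.none) (xt := Ext.none) (P1 := 0) (W1 := 536870912) (P2 := 536870912) (W2 := 536870912) (P3 := 697932185) (W3 := 42949674) (N0 := 3) (En := eng) (mo := mog) (C1 := cd1q0) (C2 := cd4q1) (C3 := pd1)
    rfl k0_pp_011

noncomputable def f_pp_012 : ℕ → ℕ → ℕ → ℕ → Bool := onCell 0 536870912 536870912 536870912 697932185 42949674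
    (rowB 3 eng mog cd1q0 cd4q1 pd2 0 true true true .pnp 0 1 2 (qsf 0 536870912 536870912 536870912 2) ndB1q0 ndB4q1 pcB2 Cut.none Ext.none)

def k0_pp_012 : ∃ t, chk3 f_pp_012 t 1 1 1 = true :=
  ⟨(l 4), by decide +kernel⟩

theorem c_pp_012 : CertB 0 536870912 536870912 536870912 697932185 42949674 3 eng mog cd1q0 cd4q1 pd2 true true true .pnp 0 1 2
    ndB1q0 ndB4q1 pcB2 Cut.none Ext.none :=
  certB0 (fam := true) (s1 := true) (s2 := true) (a := 0) (b := 1) (c := 2) (cn := .pnp) (n1 := ndB1q0) (n2 := ndB4q1) (pc := pcB2) (cut := Cut.none) (xt := Ext.none) (P1 := 0) (W1 := 536870912) (P2 := 536870912) (W2 := 536870912) (P3 := 697932185) (W3 := 42949674) (N0 := 3) (En := eng) (mo := mog) (C1 := cd1q0) (C2 := cd4q1) (C3 := pd2)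
    rfl k0_pp_012

noncomputable def cut_pp_022_a : Cut := Cut.of [[⟨0, 0, 0, 67108864⟩, ⟨1, 1, 0, 67108864⟩, ⟨2, 1, 0, 67108864⟩]]

noncomputable def f_pp_022_a : ℕ → ℕ → ℕ → ℕ → Bool := onCell 0 536870912 0 536870912 697932185 42949674
    (rowB 3 eng mog cd1q0 cd4q2a pd2 0 true true true .pp 0 2 2 (qsf 0 536870912 0 536870912 2) ndB1q0 ndB4q2a pcB2 cut_pp_022_a Ext.none)

def k0_pp_022_a : ∃ t, chk3 f_pp_022_a t 1 1 1 = true :=
  ⟨(a (b (l 4) (a (b (l 4) (a (b (l 4) (a (b (l 4) (l 6)) (l 4))) (l 4))) (l 4))) (l 4)), by decide +kernel⟩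

theorem c_pp_022_a : CertB 0 536870912 0 536870912 697932185 42949674 3 eng mog cd1q0 cd4q2a pd2 true true true .pp 0 2 2
    ndB1q0 ndB4q2a pcB2 cut_pp_022_a Ext.none :=
  certB0 (fam := true) (s1 := true) (s2 := true) (a := 0) (b := 2) (c := 2) (cn := .pp) (n1 := ndB1q0) (n2 := ndB4q2a) (pc := pcB2) (cut := cut_pp_022_a) (xt := Ext.none) (P1 := 0) (W1 := 536870912) (P2 := 0) (W2 := 536870912) (P3 := 697932185) (W3 := 42949674) (N0 := 3) (En := eng) (mo := mog) (C1 := cd1q0) (C2 := cd4q2a) (C3 := pd2)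
    rfl k0_pp_022_a

noncomputable def cut_pp_022_b : Cut := Cut.of [[⟨0, 0, 0, 67108864⟩, ⟨1, 1, 0, 67108864⟩, ⟨2, 1, 0, 67108864⟩]]

noncomputable def f_pp_022_b : ℕ → ℕ → ℕ → ℕ → Bool := onCell 0 536870912 1239849684 370763052 697932185 42949674
    (rowB 3 eng mog cd1q0 cd4q2b pd2 0 true true true .pp 0 2 2 (qsf 0 536870912 1239849684 370763052 2) ndB1q0 ndB4q2b pcB2 cut_pp_022_b Ext.none)

def k0_pp_022_b : ∃ t, chk3 f_pp_022_b t 1 1 1 = true :=
  ⟨(a (b (l 4) (l 4)) (l 4)), by decide +kernel⟩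

theorem c_pp_022_b : CertB 0 536870912 1239849684 370763052 697932185 42949674 3 eng mog cd1q0 cd4q2b pd2 true true true .pp 0 2 2
    ndB1q0 ndB4q2b pcB2 cut_pp_022_b Ext.none :=
  certB0 (fam := true) (s1 := true) (s2 := true) (a := 0) (b := 2) (c := 2) (cn := .pp) (n1 := ndB1q0) (n2 := ndB4q2b) (pc := pcB2) (cut := cut_pp_022_b) (xt := Ext.none) (P1 := 0) (W1 := 536870912) (P2 := 1239849684) (W2 := 370763052) (P3 := 697932185) (W3 := 42949674) (N0 := 3) (En := eng) (mo := mog) (C1 := cd1q0) (C2 := cd4q2b) (C3 := pd2)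
    rfl k0_pp_022_b

noncomputable def f_pp_023_a : ℕ → ℕ → ℕ → ℕ → Bool := onCell 1610612736 536870912 0 536870912 697932185 42949674
    (rowB 3 eng mog cd1q0 cd4q2a pd3 2 true true true .up 0 2 3 (qsf 0 536870912 0 536870912 3) ndB1q0 ndB4q2a pcB3 Cut.none Ext.none)

def k0_pp_023_a : ∃ t, chk3 f_pp_023_a t 1 1 1 = true :=
  ⟨(l 4), by decide +kernel⟩

theorem c_pp_023_a : CertB 0 536870912 0 536870912 697932185 42949674 3 eng mog cd1q0 cd4q2a pd3 true true true .up 0 2 3
    ndB1q0 ndB4q2a pcB3 Cut.none Ext.none :=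
  certB2 (fam := true) (s1 := true) (s2 := true) (a := 0) (b := 2) (c := 3) (cn := .up) (n1 := ndB1q0) (n2 := ndB4q2a) (pc := pcB3) (cut := Cut.none) (xt := Ext.none) (P1 := 0) (W1 := 536870912) (P2 := 0) (W2 := 536870912) (P3 := 697932185) (W3 := 42949674) (N0 := 3) (En := eng) (mo := mog) (C1 := cd1q0) (C2 := cd4q2a) (C3 := pd3)
    rfl (fun _ => rfl) k0_pp_023_a

noncomputable def f_pp_023_b : ℕ → ℕ → ℕ → ℕ → Bool := onCell 1610612736 536870912 1239849684 370763052 697932185 42949674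
    (rowB 3 eng mog cd1q0 cd4q2b pd3 2 true true true .up 0 2 3 (qsf 0 536870912 1239849684 370763052 3) ndB1q0 ndB4q2b pcB3 Cut.none Ext.none)

def k0_pp_023_b : ∃ t, chk3 f_pp_023_b t 1 1 1 = true :=
  ⟨(l 4), by decide +kernel⟩

theorem c_pp_023_b : CertB 0 536870912 1239849684 370763052 697932185 42949674 3 eng mog cd1q0 cd4q2b pd3 true true true .up 0 2 3
    ndB1q0 ndB4q2b pcB3 Cut.none Ext.none :=
  certB2 (fam := true) (s1 := true) (s2 := true) (a := 0) (b := 2) (c := 3) (cn := .up) (n1 := ndB1q0) (n2 := ndB4q2b) (pc := pcB3) (cut := Cut.none) (xt := Ext.none) (P1 := 0) (W1 := 536870912) (P2 := 1239849684) (W2 := 370763052) (P3 := 697932185) (W3 := 42949674) (N0 := 3) (En := eng) (mo := mog) (C1 := cd1q0) (C2 := cd4q2b) (C3 := pd3)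
    rfl (fun _ => rfl) k0_pp_023_b

noncomputable def f_pp_033 : ℕ → ℕ → ℕ → ℕ → Bool := onCell 0 536870912 1610612736 536870912 697932185 42949674
    (rowB 3 eng mog cd1q0 cd4q3 pd3 0 true true true .pnn 0 3 3 (qsf 0 536870912 1610612736 536870912 3) ndB1q0 ndB4q3 pcB3 Cut.none Ext.none)

def k0_pp_033 : ∃ t, chk3 f_pp_033 t 1 1 1 = true :=
  ⟨(l 4), by decide +kernel⟩

theorem c_pp_033 : CertB 0 536870912 1610612736 536870912 697932185 42949674 3 eng mog cd1q0 cd4q3 pd3 true true true .pnn 0 3 3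
    ndB1q0 ndB4q3 pcB3 Cut.none Ext.none :=
  certB0 (fam := true) (s1 := true) (s2 := true) (a := 0) (b := 3) (c := 3) (cn := .pnn) (n1 := ndB1q0) (n2 := ndB4q3) (pc := pcB3) (cut := Cut.none) (xt := Ext.none) (P1 := 0) (W1 := 536870912) (P2 := 1610612736) (W2 := 536870912) (P3 := 697932185) (W3 := 42949674) (N0 := 3) (En := eng) (mo := mog) (C1 := cd1q0) (C2 := cd4q3) (C3 := pd3)
    rfl k0_pp_033

noncomputable def f_pp_101 : ℕ → ℕ → ℕ → ℕ → Bool := onCell 536870912 536870912 0 536870912 697932185 42949674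
    (rowB 3 eng mog cd1q1 cd4q0 pd1 0 true true true .npn 1 0 1 (qsf 536870912 536870912 0 536870912 1) ndB1q1 ndB4q0 pcB1 Cut.none Ext.none)

def k0_pp_101 : ∃ t, chk3 f_pp_101 t 1 1 1 = true :=
  ⟨(l 5), by decide +kernel⟩

theorem c_pp_101 : CertB 536870912 536870912 0 536870912 697932185 42949674 3 eng mog cd1q1 cd4q0 pd1 true true true .npn 1 0 1
    ndB1q1 ndB4q0 pcB1 Cut.none Ext.none :=
  certB0 (fam := true) (s1 := true) (s2 := true) (a := 1) (b := 0) (c := 1) (cn := .npn) (n1 := ndB1q1) (n2 := ndB4q0) (pc := pcB1) (cut := Cut.none) (xt := Ext.none) (P1 := 536870912) (W1 := 536870912) (P2 := 0) (W2 := 536870912) (P3 := 697932185) (W3 := 42949674) (N0 := 3) (En := eng) (mo := mog) (C1 := cd1q1) (C2 := cd4q0) (C3 := pd1)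
    rfl k0_pp_101

noncomputable def f_pp_102 : ℕ → ℕ → ℕ → ℕ → Bool := onCell 536870912 536870912 0 536870912 697932185 42949674
    (rowB 3 eng mog cd1q1 cd4q0 pd2 0 true true true .npp 1 0 2 (qsf 536870912 536870912 0 536870912 2) ndB1q1 ndB4q0 pcB2 Cut.none Ext.none)

def k0_pp_102 : ∃ t, chk3 f_pp_102 t 1 1 1 = true :=
  ⟨(l 5), by decide +kernel⟩

theorem c_pp_102 : CertB 536870912 536870912 0 536870912 697932185 42949674 3 eng mog cd1q1 cd4q0 pd2 true true true .npp 1 0 2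
    ndB1q1 ndB4q0 pcB2 Cut.none Ext.none :=
  certB0 (fam := true) (s1 := true) (s2 := true) (a := 1) (b := 0) (c := 2) (cn := .npp) (n1 := ndB1q1) (n2 := ndB4q0) (pc := pcB2) (cut := Cut.none) (xt := Ext.none) (P1 := 536870912) (W1 := 536870912) (P2 := 0) (W2 := 536870912) (P3 := 697932185) (W3 := 42949674) (N0 := 3) (En := eng) (mo := mog) (C1 := cd1q1) (C2 := cd4q0) (C3 := pd2)
    rfl k0_pp_102

noncomputable def f_pp_112 : ℕ → ℕ → ℕ → ℕ → Bool := onCell 536870912 536870912 536870912 536870912 697932185 42949674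
    (rowB 3 eng mog cd1q1 cd4q1 pd2 0 true true true .dn 1 1 2 (qsf 536870912 536870912 536870912 536870912 2) ndB1q1 ndB4q1 pcB2 Cut.none Ext.none)

def k0_pp_112 : ∃ t, chk3 f_pp_112 t 1 1 1 = true :=
  ⟨(l 4), by decide +kernel⟩

theorem c_pp_112 : CertB 536870912 536870912 536870912 536870912 697932185 42949674 3 eng mog cd1q1 cd4q1 pd2 true true true .dn 1 1 2
    ndB1q1 ndB4q1 pcB2 Cut.none Ext.none :=
  certB0 (fam := true) (s1 := true) (s2 := true) (a := 1) (b := 1) (c := 2) (cn := .dn) (n1 := ndB1q1) (n2 := ndB4q1) (pc := pcB2) (cut := Cut.none) (xt := Ext.none) (P1 := 536870912) (W1 := 536870912) (P2 := 536870912) (W2 := 536870912) (P3 := 697932185) (W3 := 42949674) (N0 := 3) (En := eng) (mo := mog) (C1 := cd1q1) (C2 := cd4q1) (C3 := pd2)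
    rfl k0_pp_112

noncomputable def f_pp_113 : ℕ → ℕ → ℕ → ℕ → Bool := onCell 536870912 536870912 536870912 536870912 697932185 42949674
    (rowB 3 eng mog cd1q1 cd4q1 pd3 0 true true true .nn 1 1 3 (qsf 536870912 536870912 536870912 536870912 3) ndB1q1 ndB4q1 pcB3 Cut.none Ext.none)

def k0_pp_113 : ∃ t, chk3 f_pp_113 t 1 1 1 = true :=
  ⟨(l 4), by decide +kernel⟩

theorem c_pp_113 : CertB 536870912 536870912 536870912 536870912 697932185 42949674 3 eng mog cd1q1 cd4q1 pd3 true true true .nn 1 1 3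
    ndB1q1 ndB4q1 pcB3 Cut.none Ext.none :=
  certB0 (fam := true) (s1 := true) (s2 := true) (a := 1) (b := 1) (c := 3) (cn := .nn) (n1 := ndB1q1) (n2 := ndB4q1) (pc := pcB3) (cut := Cut.none) (xt := Ext.none) (P1 := 536870912) (W1 := 536870912) (P2 := 536870912) (W2 := 536870912) (P3 := 697932185) (W3 := 42949674) (N0 := 3) (En := eng) (mo := mog) (C1 := cd1q1) (C2 := cd4q1) (C3 := pd3)
    rfl k0_pp_113

noncomputable def f_pp_123_a : ℕ → ℕ → ℕ → ℕ → Bool := onCell 536870912 536870912 0 536870912 697932185 42949674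
    (rowB 3 eng mog cd1q1 cd4q2a pd3 0 true true true .npn 1 2 3 (qsf 536870912 536870912 0 536870912 3) ndB1q1 ndB4q2a pcB3 Cut.none Ext.none)

def k0_pp_123_a : ∃ t, chk3 f_pp_123_a t 1 1 1 = true :=
  ⟨(l 4), by decide +kernel⟩

theorem c_pp_123_a : CertB 536870912 536870912 0 536870912 697932185 42949674 3 eng mog cd1q1 cd4q2a pd3 true true true .npn 1 2 3
    ndB1q1 ndB4q2a pcB3 Cut.none Ext.none :=
  certB0 (fam := true) (s1 := true) (s2 := true) (a := 1) (b := 2) (c := 3) (cn := .npn) (n1 := ndB1q1) (n2 := ndB4q2a) (pc := pcB3) (cut := Cut.none) (xt := Ext.none) (P1 := 536870912) (W1 := 536870912) (P2 := 0) (W2 := 536870912) (P3 := 697932185) (W3 := 42949674) (N0 := 3) (En := eng) (mo := mog) (C1 := cd1q1) (C2 := cd4q2a) (C3 := pd3)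
    rfl k0_pp_123_a

noncomputable def f_pp_123_b : ℕ → ℕ → ℕ → ℕ → Bool := onCell 536870912 536870912 1239849684 370763052 697932185 42949674
    (rowB 3 eng mog cd1q1 cd4q2b pd3 0 true true true .npn 1 2 3 (qsf 536870912 536870912 1239849684 370763052 3) ndB1q1 ndB4q2b pcB3 Cut.none Ext.none)

def k0_pp_123_b : ∃ t, chk3 f_pp_123_b t 1 1 1 = true :=
  ⟨(l 4), by decide +kernel⟩

theorem c_pp_123_b : CertB 536870912 536870912 1239849684 370763052 697932185 42949674 3 eng mog cd1q1 cd4q2b pd3 true true true .npn 1 2 3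
    ndB1q1 ndB4q2b pcB3 Cut.none Ext.none :=
  certB0 (fam := true) (s1 := true) (s2 := true) (a := 1) (b := 2) (c := 3) (cn := .npn) (n1 := ndB1q1) (n2 := ndB4q2b) (pc := pcB3) (cut := Cut.none) (xt := Ext.none) (P1 := 536870912) (W1 := 536870912) (P2 := 1239849684) (W2 := 370763052) (P3 := 697932185) (W3 := 42949674) (N0 := 3) (En := eng) (mo := mog) (C1 := cd1q1) (C2 := cd4q2b) (C3 := pd3)
    rfl k0_pp_123_b

noncomputable def f_pp_133 : ℕ → ℕ → ℕ → ℕ → Bool := onCell 536870912 536870912 1610612736 536870912 697932185 42949674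
    (rowB 3 eng mog cd1q1 cd4q3 pd3 0 true true true .dn 1 3 3 (qsf 536870912 536870912 1610612736 536870912 3) ndB1q1 ndB4q3 pcB3 Cut.none Ext.none)

def k0_pp_133 : ∃ t, chk3 f_pp_133 t 1 1 1 = true :=
  ⟨(l 4), by decide +kernel⟩

theorem c_pp_133 : CertB 536870912 536870912 1610612736 536870912 697932185 42949674 3 eng mog cd1q1 cd4q3 pd3 true true true .dn 1 3 3
    ndB1q1 ndB4q3 pcB3 Cut.none Ext.none :=
  certB0 (fam := true) (s1 := true) (s2 := true) (a := 1) (b := 3) (c := 3) (cn := .dn) (n1 := ndB1q1) (n2 := ndB4q3) (pc := pcB3) (cut := Cut.none) (xt := Ext.none) (P1 := 536870912) (W1 := 536870912) (P2 := 1610612736) (W2 := 536870912) (P3 := 697932185) (W3 := 42949674) (N0 := 3) (En := eng) (mo := mog) (C1 := cd1q1) (C2 := cd4q3) (C3 := pd3)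
    rfl k0_pp_133

noncomputable def f_pp_202_a : ℕ → ℕ → ℕ → ℕ → Bool := onCell 0 536870912 0 536870912 697932185 42949674
    (rowB 3 eng mog cd1q2a cd4q0 pd2 0 true true true .pp 2 0 2 (qsf 0 536870912 0 536870912 2) ndB1q2a ndB4q0 pcB2 Cut.none Ext.none)

def k0_pp_202_a : ∃ t, chk3 f_pp_202_a t 1 1 1 = true :=
  ⟨(l 5), by decide +kernel⟩

theorem c_pp_202_a : CertB 0 536870912 0 536870912 697932185 42949674 3 eng mog cd1q2a cd4q0 pd2 true true true .pp 2 0 2
    ndB1q2a ndB4q0 pcB2 Cut.none Ext.none :=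
  certB0 (fam := true) (s1 := true) (s2 := true) (a := 2) (b := 0) (c := 2) (cn := .pp) (n1 := ndB1q2a) (n2 := ndB4q0) (pc := pcB2) (cut := Cut.none) (xt := Ext.none) (P1 := 0) (W1 := 536870912) (P2 := 0) (W2 := 536870912) (P3 := 697932185) (W3 := 42949674) (N0 := 3) (En := eng) (mo := mog) (C1 := cd1q2a) (C2 := cd4q0) (C3 := pd2)
    rfl k0_pp_202_a

noncomputable def f_pp_202_b : ℕ → ℕ → ℕ → ℕ → Bool := onCell 1239849684 370763052 0 536870912 697932185 42949674
    (rowB 3 eng mog cd1q2b cd4q0 pd2 0 true true true .pp 2 0 2 (qsf 1239849684 370763052 0 536870912 2) ndB1q2b ndB4q0 pcB2 Cut.none Ext.none)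

def k0_pp_202_b : ∃ t, chk3 f_pp_202_b t 1 1 1 = true :=
  ⟨(l 5), by decide +kernel⟩

theorem c_pp_202_b : CertB 1239849684 370763052 0 536870912 697932185 42949674 3 eng mog cd1q2b cd4q0 pd2 true true true .pp 2 0 2
    ndB1q2b ndB4q0 pcB2 Cut.none Ext.none :=
  certB0 (fam := true) (s1 := true) (s2 := true) (a := 2) (b := 0) (c := 2) (cn := .pp) (n1 := ndB1q2b) (n2 := ndB4q0) (pc := pcB2) (cut := Cut.none) (xt := Ext.none) (P1 := 1239849684) (W1 := 370763052) (P2 := 0) (W2 := 536870912) (P3 := 697932185) (W3 := 42949674) (N0 := 3) (En := eng) (mo := mog) (C1 := cd1q2b) (C2 := cd4q0) (C3 := pd2)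
    rfl k0_pp_202_b

noncomputable def f_pp_203_a : ℕ → ℕ → ℕ → ℕ → Bool := onCell 0 536870912 0 536870912 697932185 42949674
    (rowB 3 eng mog cd1q2a cd4q0 pd3 0 true true true .up 2 0 3 (qsf 0 536870912 0 536870912 3) ndB1q2a ndB4q0 pcB3 Cut.none Ext.none)

def k0_pp_203_a : ∃ t, chk3 f_pp_203_a t 1 1 1 = true :=
  ⟨(l 5), by decide +kernel⟩

theorem c_pp_203_a : CertB 0 536870912 0 536870912 697932185 42949674 3 eng mog cd1q2a cd4q0 pd3 true true true .up 2 0 3
    ndB1q2a ndB4q0 pcB3 Cut.none Ext.none :=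
  certB0 (fam := true) (s1 := true) (s2 := true) (a := 2) (b := 0) (c := 3) (cn := .up) (n1 := ndB1q2a) (n2 := ndB4q0) (pc := pcB3) (cut := Cut.none) (xt := Ext.none) (P1 := 0) (W1 := 536870912) (P2 := 0) (W2 := 536870912) (P3 := 697932185) (W3 := 42949674) (N0 := 3) (En := eng) (mo := mog) (C1 := cd1q2a) (C2 := cd4q0) (C3 := pd3)
    rfl k0_pp_203_a

noncomputable def f_pp_203_b : ℕ → ℕ → ℕ → ℕ → Bool := onCell 1239849684 370763052 0 536870912 697932185 42949674
    (rowB 3 eng mog cd1q2b cd4q0 pd3 0 true true true .up 2 0 3 (qsf 1239849684 370763052 0 536870912 3) ndB1q2b ndB4q0 pcB3 Cut.none Ext.none)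

def k0_pp_203_b : ∃ t, chk3 f_pp_203_b t 1 1 1 = true :=
  ⟨(l 5), by decide +kernel⟩

theorem c_pp_203_b : CertB 1239849684 370763052 0 536870912 697932185 42949674 3 eng mog cd1q2b cd4q0 pd3 true true true .up 2 0 3
    ndB1q2b ndB4q0 pcB3 Cut.none Ext.none :=
  certB0 (fam := true) (s1 := true) (s2 := true) (a := 2) (b := 0) (c := 3) (cn := .up) (n1 := ndB1q2b) (n2 := ndB4q0) (pc := pcB3) (cut := Cut.none) (xt := Ext.none) (P1 := 1239849684) (W1 := 370763052) (P2 := 0) (W2 := 536870912) (P3 := 697932185) (W3 := 42949674) (N0 := 3) (En := eng) (mo := mog) (C1 := cd1q2b) (C2 := cd4q0) (C3 := pd3)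
    rfl k0_pp_203_b

noncomputable def f_pp_213_a : ℕ → ℕ → ℕ → ℕ → Bool := onCell 0 536870912 536870912 536870912 697932185 42949674
    (rowB 3 eng mog cd1q2a cd4q1 pd3 0 true true true .pnn 2 1 3 (qsf 0 536870912 536870912 536870912 3) ndB1q2a ndB4q1 pcB3 Cut.none Ext.none)

def k0_pp_213_a : ∃ t, chk3 f_pp_213_a t 1 1 1 = true :=
  ⟨(l 4), by decide +kernel⟩

theorem c_pp_213_a : CertB 0 536870912 536870912 536870912 697932185 42949674 3 eng mog cd1q2a cd4q1 pd3 true true true .pnn 2 1 3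
    ndB1q2a ndB4q1 pcB3 Cut.none Ext.none :=
  certB0 (fam := true) (s1 := true) (s2 := true) (a := 2) (b := 1) (c := 3) (cn := .pnn) (n1 := ndB1q2a) (n2 := ndB4q1) (pc := pcB3) (cut := Cut.none) (xt := Ext.none) (P1 := 0) (W1 := 536870912) (P2 := 536870912) (W2 := 536870912) (P3 := 697932185) (W3 := 42949674) (N0 := 3) (En := eng) (mo := mog) (C1 := cd1q2a) (C2 := cd4q1) (C3 := pd3)
    rfl k0_pp_213_a

noncomputable def f_pp_213_b : ℕ → ℕ → ℕ → ℕ → Bool := onCell 1239849684 370763052 536870912 536870912 697932185 42949674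
    (rowB 3 eng mog cd1q2b cd4q1 pd3 0 true true true .pnn 2 1 3 (qsf 1239849684 370763052 536870912 536870912 3) ndB1q2b ndB4q1 pcB3 Cut.none Ext.none)

def k0_pp_213_b : ∃ t, chk3 f_pp_213_b t 1 1 1 = true :=
  ⟨(l 4), by decide +kernel⟩

theorem c_pp_213_b : CertB 1239849684 370763052 536870912 536870912 697932185 42949674 3 eng mog cd1q2b cd4q1 pd3 true true true .pnn 2 1 3
    ndB1q2b ndB4q1 pcB3 Cut.none Ext.none :=
  certB0 (fam := true) (s1 := true) (s2 := true) (a := 2) (b := 1) (c := 3) (cn := .pnn) (n1 := ndB1q2b) (n2 := ndB4q1) (pc := pcB3) (cut := Cut.none) (xt := Ext.none) (P1 := 1239849684) (W1 := 370763052) (P2 := 536870912) (W2 := 536870912) (P3 := 697932185) (W3 := 42949674) (N0 := 3) (En := eng) (mo := mog) (C1 := cd1q2b) (C2 := cd4q1) (C3 := pd3)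
    rfl k0_pp_213_b

noncomputable def f_pp_303 : ℕ → ℕ → ℕ → ℕ → Bool := onCell 1610612736 536870912 0 536870912 697932185 42949674
    (rowB 3 eng mog cd1q3 cd4q0 pd3 0 true true true .npn 3 0 3 (qsf 1610612736 536870912 0 536870912 3) ndB1q3 ndB4q0 pcB3 Cut.none Ext.none)

def k0_pp_303 : ∃ t, chk3 f_pp_303 t 1 1 1 = true :=
  ⟨(l 5), by decide +kernel⟩

theorem c_pp_303 : CertB 1610612736 536870912 0 536870912 697932185 42949674 3 eng mog cd1q3 cd4q0 pd3 true true true .npn 3 0 3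
    ndB1q3 ndB4q0 pcB3 Cut.none Ext.none :=
  certB0 (fam := true) (s1 := true) (s2 := true) (a := 3) (b := 0) (c := 3) (cn := .npn) (n1 := ndB1q3) (n2 := ndB4q0) (pc := pcB3) (cut := Cut.none) (xt := Ext.none) (P1 := 1610612736) (W1 := 536870912) (P2 := 0) (W2 := 536870912) (P3 := 697932185) (W3 := 42949674) (N0 := 3) (En := eng) (mo := mog) (C1 := cd1q3) (C2 := cd4q0) (C3 := pd3)
    rfl k0_pp_303

noncomputable def f_pp_313 : ℕ → ℕ → ℕ → ℕ → Bool := onCell 1610612736 536870912 536870912 536870912 697932185 42949674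
    (rowB 3 eng mog cd1q3 cd4q1 pd3 0 true true true .dn 3 1 3 (qsf 1610612736 536870912 536870912 536870912 3) ndB1q3 ndB4q1 pcB3 Cut.none Ext.none)

def k0_pp_313 : ∃ t, chk3 f_pp_313 t 1 1 1 = true :=
  ⟨(l 4), by decide +kernel⟩

theorem c_pp_313 : CertB 1610612736 536870912 536870912 536870912 697932185 42949674 3 eng mog cd1q3 cd4q1 pd3 true true true .dn 3 1 3
    ndB1q3 ndB4q1 pcB3 Cut.none Ext.none :=
  certB0 (fam := true) (s1 := true) (s2 := true) (a := 3) (b := 1) (c := 3) (cn := .dn) (n1 := ndB1q3) (n2 := ndB4q1) (pc := pcB3) (cut := Cut.none) (xt := Ext.none) (P1 := 1610612736) (W1 := 536870912) (P2 := 536870912) (W2 := 536870912) (P3 := 697932185) (W3 := 42949674) (N0 := 3) (En := eng) (mo := mog) (C1 := cd1q3) (C2 := cd4q1) (C3 := pd3)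
    rfl k0_pp_313

noncomputable def f_pm_001 : ℕ → ℕ → ℕ → ℕ → Bool := onCell 0 536870912 536870912 536870912 697932185 42949674
    (rowB 3 eng mog cd1q0 cd4q0 pd1 1 true true false .up 0 0 1 (qsf 0 536870912 0 536870912 1) ndB1q0 ndB4q0 pcB1 Cut.none Ext.none)

def k0_pm_001 : ∃ t, chk3 f_pm_001 t 1 1 1 = true :=
  ⟨(b (l 3) (l 3)), by decide +kernel⟩

theorem c_pm_001 : CertB 0 536870912 0 536870912 697932185 42949674 3 eng mog cd1q0 cd4q0 pd1 true true false .up 0 0 1
    ndB1q0 ndB4q0 pcB1 Cut.none Ext.none :=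
  certB1 (fam := true) (s1 := true) (s2 := false) (a := 0) (b := 0) (c := 1) (cn := .up) (n1 := ndB1q0) (n2 := ndB4q0) (pc := pcB1) (cut := Cut.none) (xt := Ext.none) (P1 := 0) (W1 := 536870912) (P2 := 0) (W2 := 536870912) (P3 := 697932185) (W3 := 42949674) (N0 := 3) (En := eng) (mo := mog) (C1 := cd1q0) (C2 := cd4q0) (C3 := pd1)
    rfl (fun _ => rfl) k0_pm_001

noncomputable def f_pm_011 : ℕ → ℕ → ℕ → ℕ → Bool := onCell 0 536870912 536870912 536870912 697932185 42949674
    (rowB 3 eng mog cd1q0 cd4q1 pd1 1 true true false .pnn 0 1 1 (qsf 0 536870912 536870912 536870912 1) ndB1q0 ndB4q1 pcB1 Cut.none Ext.none)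

def k0_pm_011 : ∃ t, chk3 f_pm_011 t 1 1 1 = true :=
  ⟨(b (l 3) (l 3)), by decide +kernel⟩

theorem c_pm_011 : CertB 0 536870912 536870912 536870912 697932185 42949674 3 eng mog cd1q0 cd4q1 pd1 true true false .pnn 0 1 1
    ndB1q0 ndB4q1 pcB1 Cut.none Ext.none :=
  certB1 (fam := true) (s1 := true) (s2 := false) (a := 0) (b := 1) (c := 1) (cn := .pnn) (n1 := ndB1q0) (n2 := ndB4q1) (pc := pcB1) (cut := Cut.none) (xt := Ext.none) (P1 := 0) (W1 := 536870912) (P2 := 536870912) (W2 := 536870912) (P3 := 697932185) (W3 := 42949674) (N0 := 3) (En := eng) (mo := mog) (C1 := cd1q0) (C2 := cd4q1) (C3 := pd1)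
    rfl (fun _ => rfl) k0_pm_011

noncomputable def f_pm_012 : ℕ → ℕ → ℕ → ℕ → Bool := onCell 1073741824 536870912 536870912 536870912 697932185 42949674
    (rowB 3 eng mog cd1q0 cd4q1 pd2 2 true true false .pnp 0 1 2 (qsf 0 536870912 536870912 536870912 2) ndB1q0 ndB4q1 pcB2 Cut.none Ext.none)

def k0_pm_012 : ∃ t, chk3 f_pm_012 t 4 1 1 = true :=
  ⟨(a (a (l 3) (a (b (b (l 3) (l 3)) (l 3)) (b (b (b (l 16343312) (l 16379384)) (b (l 16493000) (c (l 16565336) (l 36137730935)))) (a (b (b (l 16472344) (l 3)) (l 3)) (b (b (l 16496224) (b (l 16476696) (l 16498480))) (b (b (l 16520192) (l 16543040)) (b (l 16566592) (b (l 16538688) (a (l 3) (l 16581744)))))))))) (b (a (b (a (b (l 16351440) (l 16377064)) (b (l 2) (l 16371392))) (b (a (l 16396312) (l 16382424)) (a (l 16412304) (l 16389536)))) (b (b (l 2) (a (l 16364136) (l 16356936))) (a (b (l 16367624) (l 16366968)) (b (l 16353496) (l 16345888))))) (a (b (b (a (a (l 16437448) (l 16421080)) (l 16396144)) (a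 (b (l 16507536) (a (l 16475184) (l 16452008))) (b (l 16403920) (l 16418088)))) (b (a (b (a (l 16494616) (l 16469104)) (a (l 16514816) (l 16486144))) (a (a (l 16458248) (l 16445872)) (l 16490432))) (a (b (a (a (l 16544160) (l 16528176)) (l 16504640)) (a (a (b (l 16558592) (l 16565640)) (b (l 16542328) (l 16548616))) (b (l 16518208) (l 16524016)))) (b (a (l 16474848) (l 16446840)) (a (b (l 16487096) (l 16492880)) (b (l 16457416) (l 16463528))))))) (b (b (a (l 16364560) (l 16335352)) (a (l 16411544) (b (l 16328416) (l 16333424)))) (b (a (b (l 16386576) (l 16396464)) (b (l 16341448) (l 16348440))) (a (b (l 16406096) (b (l 16413976) (l 16419400))) (b (a (l 16366456) (l 16340688)) (a (l 16373496) (l 16345184))))))))), by decide +kernel⟩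

def k1_pm_012 : ∃ t, chk3 f_pm_012 t 5 1 1 = true :=
  ⟨(b (b (a (a (a (l 16459664) (l 2)) (l 2)) (l 2)) (a (a (a (b (l 16342160) (l 16327168)) (a (l 16431736) (a (l 16324752) (a (l 16367304) (b (l 16341696) (l 16312384)))))) (b (l 16333336) (l 16298448))) (b (l 16314344) (l 16265880)))) (a (b (a (a (b (l 16308464) (b (l 16294440) (l 16294824))) (a (b (l 16290552) (l 16269344)) (a (b (l 16282848) (l 16257528)) (b (a (l 16279928) (l 16278856)) (a (l 16252024) (l 16290624)))))) (b (l 16257512) (l 16281136))) (a (a (b (b (l 16298232) (l 16302064)) (b (l 16303432) (a (l 16317784) (l 16290944)))) (a (b (l 16267696) (b (l 16267128) (l 16264184))) (a (b (l 16251752) (b (l 16248872) (l 16243920))) (b (a (l 16243656) (b (l 16239984) (l 16236232))) (a (b (l 16239216) (l 16233056)) (b (l 16253048) (b (l 16226632) (b (l 16223888) (l 16264032))))))))) (b (b (l 16201480) (l 16192472)) (b (l 16183632) (b (l 16176128) (l 16170016)))))) (b (b (a (l 16222888) (l 16195528))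 (a (l 16168648) (l 16129152))) (b (b (l 16237680) (a (l 16119952) (l 16060304))) (b (a (l 16101912) (l 16032904)) (a (b (l 16088544) (l 16079152)) (l 16005536))))))), by decide +kernel⟩

def k2_pm_012 : ∃ t, chk3 f_pm_012 t 3 1 1 = true :=
  ⟨(b (a (b (l 2) (a (b (l 2) (l 16242912)) (l 2))) (l 2)) (a (b (a (b (l 16166528) (a (l 16098720) (l 16075552))) (b (l 16154680) (l 16056896))) (a (b (a (b (l 16048288) (l 16013320)) (l 15998216)) (b (a (l 15977400) (l 15934816)) (a (l 15940928) (l 15890560)))) (b (a (l 15974512) (l 15960320)) (a (b (l 15903624) (l 15852904)) (b (l 15882432) (l 15826848)))))) (b (a (b (l 2) (l 16064296)) (l 2)) (a (b (l 15957560) (a (l 15841992) (l 15839648))) (b (l 15989760) (a (l 15848168) (l 15867744))))))), by decide +kernel⟩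

theorem s3_pm_012 : ∃ t, chk3 f_pm_012 t 2 1 1 = true := ex3_a k0_pm_012 k1_pm_012

theorem s4_pm_012 : ∃ t, chk3 f_pm_012 t 1 1 1 = true := ex3_a s3_pm_012 k2_pm_012

theorem c_pm_012 : CertB 0 536870912 536870912 536870912 697932185 42949674 3 eng mog cd1q0 cd4q1 pd2 true true false .pnp 0 1 2
    ndB1q0 ndB4q1 pcB2 Cut.none Ext.none :=
  certB2 (fam := true) (s1 := true) (s2 := false) (a := 0) (b := 1) (c := 2) (cn := .pnp) (n1 := ndB1q0) (n2 := ndB4q1) (pc := pcB2) (cut := Cut.none) (xt := Ext.none) (P1 := 0) (W1 := 536870912) (P2 := 536870912) (W2 := 536870912) (P3 := 697932185) (W3 := 42949674) (N0 := 3) (En := eng) (mo := mog) (C1 := cd1q0) (C2 := cd4q1) (C3 := pd2)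
    rfl (fun _ => rfl) s4_pm_012

noncomputable def cut_pm_022_a : Cut := Cut.of [[⟨0, 0, 0, 67108864⟩, ⟨1, 1, 0, 67108864⟩, ⟨2, 1, 0, 67108864⟩]]

noncomputable def f_pm_022_a : ℕ → ℕ → ℕ → ℕ → Bool := onCell 1073741824 536870912 0 536870912 697932185 42949674
    (rowB 3 eng mog cd1q0 cd4q2a pd2 2 true true false .pp 0 2 2 (qsf 0 536870912 0 536870912 2) ndB1q0 ndB4q2a pcB2 cut_pm_022_a Ext.none)

def k0_pm_022_a : ∃ t, chk3 f_pm_022_a t 2 2 1 = true :=
  ⟨(a (a (l 1) (b (l 1) (a (l 1) (b (l 1) (a (l 1) (b (l 1) (a (l 1) (l 117607680391)))))))) (a (a (a (b (l 1) (a (b (l 1) (b (l 126734449111) (l 16456896))) (b (b (l 83247848615) (l 145524901303)) (b (l 16437000) (l 16456320))))) (b (a (b (l 1) (b (l 1) (c (l 124050015527) (l 16382184)))) (a (b (l 1) (b (l 152504162903) (l 16413776))) (b (a (b (l 16391728) (l 16417392)) (a (a (a (b (l 16370392) (l 16375024)) (a (b (l 16370096) (l 16374712)) (b (l 16369688) (l 16374296)))) (b (l 16369792) (l 16374384)))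 (b (l 16370056) (l 16374616)))) (a (b (l 16382648) (l 16392248)) (a (a (a (l 16408064) (b (l 16402384) (l 16390904))) (l 16386376)) (l 16386552)))))) (a (b (b (c (l 149282969591) (l 16395296)) (l 16440688)) (b (l 16436504) (l 16455200))) (a (b (b (l 16404928) (l 16419232)) (l 16444904)) (b (a (l 16411408) (b (l 16423832) (l 16416784))) (a (l 16443560) (l 16462792))))))) (b (a (b (a (b (l 16371608) (l 16375976)) (b (l 16374232) (l 16378264))) (a (b (l 16382808) (l 16392000)) (l 16389272))) (b (l 16376040) (l 16387976))) (a (b (a (l 16410464) (l 16411216)) (a (l 16441552) (l 16441168))) (b (l 16408688) (l 16437112))))) (b (a (b (l 16373728) (l 16383896)) (b (l 16371456) (l 16379400))) (a (b (l 16402248) (l 16427744)) (b (l 16395576) (l 16419760)))))), by decide +kernel⟩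

def k1_pm_022_a : ∃ t, chk3 f_pm_022_a t 2 6 1 = true :=
  ⟨(a (a (l 1) (b (a (l 1) (a (b (a (l 1) (l 55330698343)) (a (l 78953069415) (l 135324513943))) (b (a (l 118144594151) (b (l 16473680) (l 16485320))) (a (l 16505024) (l 16503680))))) (a (a (b (l 1) (a (l 1) (b (l 16562464) (l 110628589991)))) (b (a (l 41909034263) (b (l 16529008) (l 16543672))) (a (b (l 112776039719) (l 16576400)) (b (l 16558704) (l 16574040))))) (a (b (a (b (l 16527696) (l 16541976)) (l 16533232)) (a (l 16564160) (l 16561672))) (b (a (l 16531344) (l 16529240)) (l 16557472)))))) (a (a (a (b (b (a (l 16478656) (l 16477424)) (l 16500968)) (b (l 16525376) (l 16550936))) (a (b (l 16486856) (l 16533280)) (a (b (l 16484640) (l 16529864)) (b (a (l 16482752) (l 16480616)) (b (l 16597088) (l 16536392)))))) (b (a (l 16478648) (l 16471920)) (a (b (l 16509656) (l 16531792)) (l 16512520)))) (b (a (l 16460576) (l 16451128)) (a (l 16500504) (l 16486528))))), by decide +kernel⟩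

def k2_pm_022_a : ∃ t, chk3 f_pm_022_a t 2 7 1 = true :=
  ⟨(a (a (a (b (l 1) (l 6)) (a (b (b (l 1) (l 6)) (l 6)) (a (b (b (l 1) (l 6)) (l 6)) (b (b (b (l 1) (a (l 16618344) (l 16616960))) (b (a (l 6) (l 16634752)) (l 16653696))) (b (b (l 16672056) (l 16690464)) (b (l 16695376) (l 16705696))))))) (b (a (b (a (a (b (l 99891208103) (l 179885008423)) (b (l 16595088) (l 16611880))) (a (l 16600736) (l 16597728))) (a (a (a (l 16663088) (l 16640336)) (l 16658576)) (b (l 16623504) (l 16640000)))) (b (a (l 16613840) (l 16585680)) (a (l 16623624) (l 16614488)))) (b (a (a (a (l 16655928) (l 16672288)) (l 16680296)) (a (l 16640104) (b (l 16621320) (l 16622032)))) (a (a (b (a (l 16685064) (l 16674904)) (b (l 16679920) (l 16700672))) (b (l 16660016) (a (l 16664752) (l 16654968)))) (b (a (l 16640824) (l 16621432)) (a (a (l 16645352) (l 16635288)) (a (l 16624560) (l 16613640)))))))) (a (a (a (a (b (l 16593768) (b (l 16608056) (l 16604752))) (b (l 16588792) (b (l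 16598800) (l 16594848)))) (b (a (l 16583568) (a (l 16579192) (a (l 16576288) (l 16594520)))) (a (b (l 16589784) (b (l 16587016) (l 16584232))) (a (b (l 16583640) (l 16579640)) (a (b (l 16581424) (l 16577456)) (b (b (l 16581392) (l 16580144)) (a (b (l 16578792) (a (a (l 16575576) (l 16576248)) (l 16575848))) (l 16576448)))))))) (a (b (c (l 16569416) (l 16567744)) (b (a (l 16575144) (l 16566024)) (b (l 16567896) (a (l 16569760) (l 16560704))))) (b (l 16556480) (b (l 16555216) (b (l 16552496) (l 16549800)))))) (a (b (l 16537080) (b (l 16535344) (a (l 16537768) (l 16524384)))) (b (l 16512144) (b (l 16509368) (b (l 16505352) (l 16501264))))))), by decide +kernel⟩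

def k3_pm_022_a : ∃ t, chk3 f_pm_022_a t 3 1 1 = true :=
  ⟨(b (a (a (b (a (l 16378600) (l 16386976)) (a (l 16407992) (l 16409256))) (b (l 16399472) (a (l 16410328) (l 16413352)))) (a (b (l 16421640) (l 16417768)) (b (l 16439288) (l 16412216)))) (a (b (a (b (l 16398816) (l 16465784)) (b (l 16428832) (l 16437096))) (b (a (a (l 16487992) (l 16465288)) (a (l 16445768) (l 16429552))) (a (b (a (l 16483536) (l 16459768)) (a (l 16518488) (l 16452544))) (a (b (l 16439504) (l 16432184)) (l 16481976))))) (b (a (l 16559328) (l 16396944)) (a (b (l 16493392) (a (l 16404384) (l 16391648))) (b (l 16389408) (b (l 16380408) (l 16372632))))))), by decide +kernel⟩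

theorem s4_pm_022_a : ∃ t, chk3 f_pm_022_a t 2 3 1 = true := ex3_b k1_pm_022_a k2_pm_022_a

theorem s5_pm_022_a : ∃ t, chk3 f_pm_022_a t 2 1 1 = true := ex3_b k0_pm_022_a s4_pm_022_a

theorem s6_pm_022_a : ∃ t, chk3 f_pm_022_a t 1 1 1 = true := ex3_a s5_pm_022_a k3_pm_022_a

theorem c_pm_022_a : CertB 0 536870912 0 536870912 697932185 42949674 3 eng mog cd1q0 cd4q2a pd2 true true false .pp 0 2 2
    ndB1q0 ndB4q2a pcB2 cut_pm_022_a Ext.none :=
  certB2 (fam := true) (s1 := true) (s2 := false) (a := 0) (b := 2) (c := 2) (cn := .pp) (n1 := ndB1q0) (n2 := ndB4q2a) (pc := pcB2) (cut := cut_pm_022_a) (xt := Ext.none) (P1 := 0) (W1 := 536870912) (P2 := 0) (W2 := 536870912) (P3 := 697932185) (W3 := 42949674) (N0 := 3) (En := eng) (mo := mog) (C1 := cd1q0) (C2 := cd4q2a) (C3 := pd2)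
    rfl (fun _ => rfl) s6_pm_022_a

noncomputable def cut_pm_022_b : Cut := Cut.of [[⟨0, 0, 0, 67108864⟩, ⟨1, 1, 0, 67108864⟩, ⟨2, 1, 0, 67108864⟩]]

noncomputable def f_pm_022_b : ℕ → ℕ → ℕ → ℕ → Bool := onCell 0 536870912 1239849684 370763052 697932185 42949674
    (rowB 3 eng mog cd1q0 cd4q2b pd2 0 true true false .pp 0 2 2 (qsf 0 536870912 1239849684 370763052 2) ndB1q0 ndB4q2b pcB2 cut_pm_022_b Ext.none)

def k0_pm_022_b : ∃ t, chk3 f_pm_022_b t 2 2 1 = true :=
  ⟨(a (b (a (b (a (a (b (a (b (a (c (l 16368840) (l 16344016)) (b (l 16364376) (l 16352184))) (b (a (c (l 16350944) (l 16325176)) (l 16339000)) (l 16325144))) (b (a (b (l 16365816) (l 16352888)) (l 16359696)) (l 16332496))) (c (a (l 16306360) (l 16308008)) (l 16278456))) (b (l 16346288) (l 16296560))) (b (a (l 16346744) (l 16347408)) (l 16364968))) (a (a (a (b (c (l 16260256) (l 16227672)) (c (l 16219832) (l 16183288))) (b (l 16268384) (l 16227368))) (b (l 16273272) (l 16213416))) (b (a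 (l 16258872) (l 16265568)) (l 16227680)))) (b (a (b (l 16348808) (l 16309928)) (l 16359136)) (a (l 16365728) (l 16281200)))) (a (b (a (a (b (a (c (l 16185032) (l 16144328)) (l 16170840)) (a (l 16154464) (l 16140848))) (b (l 16179960) (l 16151848))) (b (l 16198208) (l 16173648))) (a (a (b (a (l 16107720) (l 16116184)) (a (l 16107768) (l 16096304))) (b (l 16128816) (l 16110480))) (a (l 16136776) (l 16154272)))) (b (a (l 16211680) (l 16241328)) (a (l 16180128) (l 16217632))))) (b (a (b (a (l 16354800) (l 16370992)) (l 16321992)) (b (l 16397368) (l 16376944))) (a (b (l 16295688) (l 16283208)) (b (l 16367712) (l 16368808))))), by decide +kernel⟩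

def k1_pm_022_b : ∃ t, chk3 f_pm_022_b t 2 3 1 = true :=
  ⟨(a (b (a (a (b (a (b (a (l 16070672) (l 16081176)) (a (l 16059328) (l 16070784))) (b (l 16096824) (l 16087832))) (b (a (a (l 16052816) (l 16065184)) (l 16083584)) (a (l 16057968) (l 16084256)))) (b (a (l 16113280) (l 16134512)) (l 16183624))) (b (a (l 16165776) (l 16210096)) (a (l 16168952) (l 16219064)))) (a (a (a (b (b (l 16061856) (l 16070688)) (b (a (l 16076640) (l 16092080)) (b (l 16097936) (l 16107808)))) (b (l 16094328) (b (l 16115192) (l 16134216)))) (b (b (l 16130704) (l 16143032)) (b (l 16159832) (l 2)))) (b (a (l 16190000) (l 2)) (l 2)))) (b (a (b (l 16285072) (l 16301792)) (l 2)) (l 2))), by decide +kernel⟩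

def k2_pm_022_b : ∃ t, chk3 f_pm_022_b t 3 1 1 = true :=
  ⟨(b (a (b (a (b (l 16438464) (l 16439624)) (b (l 16470840) (l 2))) (a (b (l 16446960) (l 2)) (l 2))) (l 2)) (l 2)), by decide +kernel⟩

theorem s3_pm_022_b : ∃ t, chk3 f_pm_022_b t 2 1 1 = true := ex3_b k0_pm_022_b k1_pm_022_b

theorem s4_pm_022_b : ∃ t, chk3 f_pm_022_b t 1 1 1 = true := ex3_a s3_pm_022_b k2_pm_022_b

theorem c_pm_022_b : CertB 0 536870912 1239849684 370763052 697932185 42949674 3 eng mog cd1q0 cd4q2b pd2 true true false .pp 0 2 2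
    ndB1q0 ndB4q2b pcB2 cut_pm_022_b Ext.none :=
  certB0 (fam := true) (s1 := true) (s2 := false) (a := 0) (b := 2) (c := 2) (cn := .pp) (n1 := ndB1q0) (n2 := ndB4q2b) (pc := pcB2) (cut := cut_pm_022_b) (xt := Ext.none) (P1 := 0) (W1 := 536870912) (P2 := 1239849684) (W2 := 370763052) (P3 := 697932185) (W3 := 42949674) (N0 := 3) (En := eng) (mo := mog) (C1 := cd1q0) (C2 := cd4q2b) (C3 := pd2)
    rfl s4_pm_022_b

noncomputable def f_pm_023_a : ℕ → ℕ → ℕ → ℕ → Bool := onCell 1610612736 536870912 0 536870912 697932185 42949674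
    (rowB 3 eng mog cd1q0 cd4q2a pd3 2 true true false .up 0 2 3 (qsf 0 536870912 0 536870912 3) ndB1q0 ndB4q2a pcB3 Cut.none Ext.none)

def k0_pm_023_a : ∃ t, chk3 f_pm_023_a t 1 1 1 = true :=
  ⟨(a (b (a (a (l 16460048) (l 16473064)) (a (a (a (l 16531736) (l 16533928)) (l 316317288807)) (l 2))) (b (a (a (l 16395160) (l 16458312)) (l 2)) (a (a (b (l 16388536) (l 16400872)) (l 281420572039)) (l 2)))) (l 2)), by decide +kernel⟩

theorem c_pm_023_a : CertB 0 536870912 0 536870912 697932185 42949674 3 eng mog cd1q0 cd4q2a pd3 true true false .up 0 2 3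
    ndB1q0 ndB4q2a pcB3 Cut.none Ext.none :=
  certB2 (fam := true) (s1 := true) (s2 := false) (a := 0) (b := 2) (c := 3) (cn := .up) (n1 := ndB1q0) (n2 := ndB4q2a) (pc := pcB3) (cut := Cut.none) (xt := Ext.none) (P1 := 0) (W1 := 536870912) (P2 := 0) (W2 := 536870912) (P3 := 697932185) (W3 := 42949674) (N0 := 3) (En := eng) (mo := mog) (C1 := cd1q0) (C2 := cd4q2a) (C3 := pd3)
    rfl (fun _ => rfl) k0_pm_023_a

noncomputable def f_pm_023_b : ℕ → ℕ → ℕ → ℕ → Bool := onCell 1610612736 536870912 1239849684 370763052 697932185 42949674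
    (rowB 3 eng mog cd1q0 cd4q2b pd3 2 true true false .up 0 2 3 (qsf 0 536870912 1239849684 370763052 3) ndB1q0 ndB4q2b pcB3 Cut.none Ext.none)

def k0_pm_023_b : ∃ t, chk3 f_pm_023_b t 1 1 1 = true :=
  ⟨(b (b (a (a (a (a (l 16462992) (l 16484360)) (l 16473144)) (a (a (a (l 16530576) (l 16530048)) (b (l 16597624) (l 16573856))) (a (a (a (l 16624928) (l 16607912)) (l 16579472)) (l 16618536)))) (l 2)) (a (a (a (b (l 16431256) (l 16379896)) (l 16553568)) (a (a (l 16526632) (l 16530856)) (a (a (l 16540760) (l 16585856)) (l 16600432)))) (a (a (l 16662192) (a (l 16702960) (l 2))) (l 2)))) (a (a (a (b (b (l 16325712) (a (l 16248312) (l 16296896))) (a (b (l 16203032) (a (l 16156624) (l 16172176))) (b (l 16243736) (l 16196432)))) (b (l 16607344) (b (l 16311160) (l 16255008)))) (a (a (b (l 16466704) (a (l 16341992) (l 16374792))) (b (l 16509200) (l 16411336))) (a (b (a (l 16541400) (l 16571056)) (a (l 16454488) (l 16488888))) (b (l 16597288) (l 16529704)))))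 (a (a (b (l 16650608) (l 16612304)) (a (l 16696272) (l 16715456))) (a (a (l 16727928) (l 16723688)) (l 4))))), by decide +kernel⟩

theorem c_pm_023_b : CertB 0 536870912 1239849684 370763052 697932185 42949674 3 eng mog cd1q0 cd4q2b pd3 true true false .up 0 2 3
    ndB1q0 ndB4q2b pcB3 Cut.none Ext.none :=
  certB2 (fam := true) (s1 := true) (s2 := false) (a := 0) (b := 2) (c := 3) (cn := .up) (n1 := ndB1q0) (n2 := ndB4q2b) (pc := pcB3) (cut := Cut.none) (xt := Ext.none) (P1 := 0) (W1 := 536870912) (P2 := 1239849684) (W2 := 370763052) (P3 := 697932185) (W3 := 42949674) (N0 := 3) (En := eng) (mo := mog) (C1 := cd1q0) (C2 := cd4q2b) (C3 := pd3)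
    rfl (fun _ => rfl) k0_pm_023_b

noncomputable def f_pm_033 : ℕ → ℕ → ℕ → ℕ → Bool := onCell 1610612736 536870912 1610612736 536870912 697932185 42949674
    (rowB 3 eng mog cd1q0 cd4q3 pd3 2 true true false .pnn 0 3 3 (qsf 0 536870912 1610612736 536870912 3) ndB1q0 ndB4q3 pcB3 Cut.none Ext.none)

def k0_pm_033 : ∃ t, chk3 f_pm_033 t 1 1 1 = true :=
  ⟨(a (b (a (b (a (a (b (b (l 336113294695) (l 449929964135)) (l 1)) (b (l 16114840) (l 440803182935))) (b (a (l 16140920) (l 16172800)) (l 117606916919))) (a (l 1) (b (l 425233857783) (l 1)))) (a (b (a (b (l 16222520) (l 16094336)) (b (l 16276448) (l 16146576))) (a (b (l 122438729575) (l 1)) (b (l 16022712) (l 15903184)))) (b (a (b (l 16339048) (l 16206664)) (l 16344056)) (b (l 16126808) (l 16021112))))) (a (l 1) (b (a (l 1) (b (l 389800512855) (l 1))) (l 1)))) (b (b (a (a (b (l 16507744) (l 16385848)) (a (l 16555808) (l 16619816))) (l 4)) (a (a (b (l 16277280) (a (l 16138208) (l 16214168))) (a (b (l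 16388736) (l 4)) (l 4))) (l 4))) (a (b (a (a (b (l 16001616) (l 1)) (b (l 16084016) (l 4))) (l 4)) (a (l 1) (b (l 4) (l 1)))) (l 4)))), by decide +kernel⟩

theorem c_pm_033 : CertB 0 536870912 1610612736 536870912 697932185 42949674 3 eng mog cd1q0 cd4q3 pd3 true true false .pnn 0 3 3
    ndB1q0 ndB4q3 pcB3 Cut.none Ext.none :=
  certB2 (fam := true) (s1 := true) (s2 := false) (a := 0) (b := 3) (c := 3) (cn := .pnn) (n1 := ndB1q0) (n2 := ndB4q3) (pc := pcB3) (cut := Cut.none) (xt := Ext.none) (P1 := 0) (W1 := 536870912) (P2 := 1610612736) (W2 := 536870912) (P3 := 697932185) (W3 := 42949674) (N0 := 3) (En := eng) (mo := mog) (C1 := cd1q0) (C2 := cd4q3) (C3 := pd3)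
    rfl (fun _ => rfl) k0_pm_033

noncomputable def f_pm_101 : ℕ → ℕ → ℕ → ℕ → Bool := onCell 536870912 536870912 0 536870912 697932185 42949674
    (rowB 3 eng mog cd1q1 cd4q0 pd1 2 true true false .npn 1 0 1 (qsf 536870912 536870912 0 536870912 1) ndB1q1 ndB4q0 pcB1 Cut.none Ext.none)

def k0_pm_101 : ∃ t, chk3 f_pm_101 t 1 1 1 = true :=
  ⟨(a (l 3) (a (l 3) (b (l 3) (l 3)))), by decide +kernel⟩

theorem c_pm_101 : CertB 536870912 536870912 0 536870912 697932185 42949674 3 eng mog cd1q1 cd4q0 pd1 true true false .npn 1 0 1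
    ndB1q1 ndB4q0 pcB1 Cut.none Ext.none :=
  certB2 (fam := true) (s1 := true) (s2 := false) (a := 1) (b := 0) (c := 1) (cn := .npn) (n1 := ndB1q1) (n2 := ndB4q0) (pc := pcB1) (cut := Cut.none) (xt := Ext.none) (P1 := 536870912) (W1 := 536870912) (P2 := 0) (W2 := 536870912) (P3 := 697932185) (W3 := 42949674) (N0 := 3) (En := eng) (mo := mog) (C1 := cd1q1) (C2 := cd4q0) (C3 := pd1)
    rfl (fun _ => rfl) k0_pm_101

noncomputable def f_pm_102 : ℕ → ℕ → ℕ → ℕ → Bool := onCell 536870912 536870912 1073741824 536870912 697932185 42949674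
    (rowB 3 eng mog cd1q1 cd4q0 pd2 1 true true false .npp 1 0 2 (qsf 536870912 536870912 0 536870912 2) ndB1q1 ndB4q0 pcB2 Cut.none Ext.none)

def k0_pm_102 : ∃ t, chk3 f_pm_102 t 1 4 1 = true :=
  ⟨(b (b (a (l 3) (a (l 3) (l 3))) (a (a (a (b (l 3) (l 16332696)) (b (l 3) (l 16329424))) (a (b (l 140290577367) (l 16452912)) (a (b (l 16527128) (l 16487696)) (b (l 16547536) (b (l 16511528) (l 16501128)))))) (a (a (b (b (l 3) (l 16635576)) (a (l 16550784) (l 16621912))) (b (a (l 16731680) (l 16766104)) (b (l 16703160) (l 16674248)))) (a (b (a (l 16775528) (l 16758992)) (a (l 16730216) (l 16728752))) (a (b (l 16749408) (l 16725000)) (b (a (l 16732248) (b (l 258939349271) (l 16693416))) (a (l 16705792) (l 16672248)))))))) (a (a (b (a (b (l 16356400) (l 2)) (b (l 16318792) (l 16347312))) (a (l 2) (l 16365696))) (b (a (l 16437552) (b (b (l 16473448) (l 16454760)) (l 16423504))) (a (l 16369528) (l 16390400)))) (a (b (a (a (b (l 16506424) (l 16477064)) (b (l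 16565616) (l 16516904))) (b (l 16633008) (l 16588328))) (a (a (l 16494520) (l 16650760)) (b (l 16566904) (l 16563568)))) (a (b (a (b (l 16687792) (l 16667568)) (b (l 16718616) (l 16690952))) (b (l 16697448) (l 16623760))) (b (a (b (l 16698192) (l 16671400)) (b (a (l 16677272) (l 16663664)) (l 16641568))) (a (l 16754312) (l 16620560))))))), by decide +kernel⟩

def k1_pm_102 : ∃ t, chk3 f_pm_102 t 1 5 1 = true :=
  ⟨(a (a (b (b (b (a (l 2) (l 16374952)) (l 2)) (l 2)) (l 2)) (b (b (b (a (l 16387392) (l 16425552)) (b (l 16493392) (a (l 16408440) (l 16444304)))) (a (l 16405496) (l 16438232))) (a (l 16404752) (l 16428816)))) (a (b (a (b (b (l 16491288) (b (l 16497400) (l 16508040))) (l 16496224)) (b (b (l 16551320) (b (l 16541536) (l 16542872))) (a (l 16531016) (l 16528616)))) (a (l 16472384) (l 16609960))) (b (a (b (b (l 16593528) (b (l 16572304) (l 16562296))) (a (l 16529296) (l 16527472))) (b (b (a (l 16583296) (l 16558392)) (a (l 16723952) (b (l 16537784)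 (l 16526328)))) (a (l 16512720) (l 16489024)))) (a (a (l 16495608) (l 16478360)) (a (l 16455944) (l 16429056)))))), by decide +kernel⟩

def k2_pm_102 : ∃ t, chk3 f_pm_102 t 1 3 1 = true :=
  ⟨(a (b (a (l 2) (b (l 16501160) (l 2))) (l 2)) (b (a (b (a (l 16452984) (l 16475344)) (l 16572072)) (b (a (l 16464376) (a (l 16425408) (l 16391232))) (a (l 16459712) (b (l 16408456) (l 16414864))))) (a (b (l 16501688) (l 2)) (a (l 16746472) (b (l 16440048) (l 16508144)))))), by decide +kernel⟩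

theorem s3_pm_102 : ∃ t, chk3 f_pm_102 t 1 2 1 = true := ex3_b k0_pm_102 k1_pm_102

theorem s4_pm_102 : ∃ t, chk3 f_pm_102 t 1 1 1 = true := ex3_b s3_pm_102 k2_pm_102

theorem c_pm_102 : CertB 536870912 536870912 0 536870912 697932185 42949674 3 eng mog cd1q1 cd4q0 pd2 true true false .npp 1 0 2
    ndB1q1 ndB4q0 pcB2 Cut.none Ext.none :=
  certB1 (fam := true) (s1 := true) (s2 := false) (a := 1) (b := 0) (c := 2) (cn := .npp) (n1 := ndB1q1) (n2 := ndB4q0) (pc := pcB2) (cut := Cut.none) (xt := Ext.none) (P1 := 536870912) (W1 := 536870912) (P2 := 0) (W2 := 536870912) (P3 := 697932185) (W3 := 42949674) (N0 := 3) (En := eng) (mo := mog) (C1 := cd1q1) (C2 := cd4q0) (C3 := pd2)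
    rfl (fun _ => rfl) s4_pm_102

noncomputable def f_pm_112 : ℕ → ℕ → ℕ → ℕ → Bool := onCell 536870912 536870912 1073741824 536870912 697932185 42949674
    (rowB 3 eng mog cd1q1 cd4q1 pd2 1 true true false .dn 1 1 2 (qsf 536870912 536870912 536870912 536870912 2) ndB1q1 ndB4q1 pcB2 Cut.none Ext.none)

def k0_pm_112 : ∃ t, chk3 f_pm_112 t 1 1 1 = true :=
  ⟨(a (b (b (b (a (b (l 3) (b (a (l 3) (l 1)) (a (l 16345912) (l 355441404759)))) (l 1)) (a (b (b (a (l 16359952) (l 16338928)) (l 16503688)) (b (l 16463832) (l 16357920))) (b (l 1) (b (l 1) (l 16468864))))) (b (b (b (a (l 16377320) (l 16476504)) (b (a (l 16355336) (l 16377520)) (a (b (l 16356896) (b (l 16359712) (a (l 16353200) (l 16371384)))) (l 16536480)))) (a (a (l 16339696) (l 16364504)) (l 16388704))) (a (a (l 16289984) (l 16335208)) (l 16386224)))) (b (a (b (a (l 16205536) (l 16276944)) (a (l 16108608) (l 16204344))) (b (l 16365880) (l 16333520))) (a (b (a (l 16016688) (l 16128984)) (a (l 15933264)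 (l 16065296))) (b (l 16300456) (l 16275968))))) (b (b (l 1) (a (b (l 1) (l 360273697655)) (l 1))) (b (a (b (l 16426920) (l 16443192)) (b (l 1) (l 255047022775))) (a (b (l 16466312) (l 16509048)) (b (l 16470184) (l 16544128)))))), by decide +kernel⟩

theorem c_pm_112 : CertB 536870912 536870912 536870912 536870912 697932185 42949674 3 eng mog cd1q1 cd4q1 pd2 true true false .dn 1 1 2
    ndB1q1 ndB4q1 pcB2 Cut.none Ext.none :=
  certB1 (fam := true) (s1 := true) (s2 := false) (a := 1) (b := 1) (c := 2) (cn := .dn) (n1 := ndB1q1) (n2 := ndB4q1) (pc := pcB2) (cut := Cut.none) (xt := Ext.none) (P1 := 536870912) (W1 := 536870912) (P2 := 536870912) (W2 := 536870912) (P3 := 697932185) (W3 := 42949674) (N0 := 3) (En := eng) (mo := mog) (C1 := cd1q1) (C2 := cd4q1) (C3 := pd2)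
    rfl (fun _ => rfl) k0_pm_112

noncomputable def f_pm_113 : ℕ → ℕ → ℕ → ℕ → Bool := onCell 536870912 536870912 1610612736 536870912 697932185 42949674
    (rowB 3 eng mog cd1q1 cd4q1 pd3 1 true true false .nn 1 1 3 (qsf 536870912 536870912 536870912 536870912 3) ndB1q1 ndB4q1 pcB3 Cut.none Ext.none)

def k0_pm_113 : ∃ t, chk3 f_pm_113 t 1 1 1 = true :=
  ⟨(a (a (b (b (a (b (l 15839448) (l 277124044711)) (b (l 16004360) (l 15875864))) (b (b (b (l 276050414695) (l 2)) (l 2)) (l 2))) (l 2)) (b (b (b (l 16266832) (a (l 16074296) (l 16290368))) (b (b (b (l 16117320) (l 16139320)) (a (l 194445987207) (l 16154072))) (b (b (b (l 224510836935) (l 244375113367)) (a (l 2) (l 16167320))) (l 264776418647)))) (b (b (a (l 2) (l 337791534007)) (l 2)) (l 2)))) (b (b (a (b (l 16588344) (l 16489280)) (b (l 16680552) (l 16868992))) (b (b (a (a (l 16369640) (l 16531352)) (l 16765608)) (a (l 16403560) (l 16706600))) (b (a (b (a (l 16293072) (l 16449464)) (l 16372448))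 (a (l 16586432) (l 16720640))) (a (l 16341872) (l 16606520))))) (b (b (a (a (l 16212344) (l 16364008)) (b (l 16566112) (l 16530304))) (a (b (l 16266496) (l 340476243655)) (b (l 16474184) (l 16434960)))) (b (a (b (a (l 2) (l 16297520)) (l 2)) (l 4)) (l 4))))), by decide +kernel⟩

theorem c_pm_113 : CertB 536870912 536870912 536870912 536870912 697932185 42949674 3 eng mog cd1q1 cd4q1 pd3 true true false .nn 1 1 3
    ndB1q1 ndB4q1 pcB3 Cut.none Ext.none :=
  certB1 (fam := true) (s1 := true) (s2 := false) (a := 1) (b := 1) (c := 3) (cn := .nn) (n1 := ndB1q1) (n2 := ndB4q1) (pc := pcB3) (cut := Cut.none) (xt := Ext.none) (P1 := 536870912) (W1 := 536870912) (P2 := 536870912) (W2 := 536870912) (P3 := 697932185) (W3 := 42949674) (N0 := 3) (En := eng) (mo := mog) (C1 := cd1q1) (C2 := cd4q1) (C3 := pd3)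
    rfl (fun _ => rfl) k0_pm_113

noncomputable def f_pm_123_a : ℕ → ℕ → ℕ → ℕ → Bool := onCell 1610612736 536870912 0 536870912 697932185 42949674
    (rowB 3 eng mog cd1q1 cd4q2a pd3 2 true true false .npn 1 2 3 (qsf 536870912 536870912 0 536870912 3) ndB1q1 ndB4q2a pcB3 Cut.none Ext.none)

def k0_pm_123_a : ∃ t, chk3 f_pm_123_a t 1 1 1 = true :=
  ⟨(a (a (b (a (l 1) (l 16514520)) (b (a (l 1) (l 16478080)) (a (b (l 16410136) (b (l 16397128) (l 16389984))) (b (l 16469008) (b (l 16472176) (l 16480064)))))) (a (b (a (a (l 16554264) (l 16554336)) (b (l 16607984) (l 16591880))) (a (b (a (l 16531968) (l 16539632)) (a (b (l 16542800) (l 16574080)) (b (l 16559848) (l 16602952)))) (b (l 16596552) (b (l 16631448) (a (l 16659936) (l 16731024)))))) (a (b (a (a (l 16640744) (l 16624264)) (a (l 16598504) (l 16595928))) (b (a (a (l 16649896) (l 16636712)) (a (l 16616520) (l 16620240))) (a (b (a (l 16700184) (l 16693424)) (a (a (l 16760896) (l 16754264)) (l 16738088)))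 (b (l 16647872) (b (l 16683144) (a (l 16731080) (l 16734632))))))) (b (l 16641256) (b (l 16663040) (b (l 16711296) (a (l 16745184) (l 16775616)))))))) (a (b (a (b (l 16731568) (l 16721904)) (a (l 16788816) (l 16798408))) (a (b (a (l 16723648) (l 16775520)) (a (b (l 16769568) (l 16709752)) (b (l 16815872) (a (l 16845736) (l 16863136))))) (b (a (l 16815784) (l 16830512)) (a (b (l 16850000) (a (l 16879920) (l 16895888))) (b (l 16871752) (b (l 16900576) (l 16921320))))))) (a (a (b (l 16773328) (b (l 16805112) (b (l 16857304) (l 16885072)))) (b (l 16973144) (b (l 16905088) (b (l 16831032) (b (l 16850888) (l 16840464)))))) (a (a (b (l 16742792) (b (l 16769840) (b (l 16811584) (l 16819016)))) (b (l 16755816) (b (l 16810992) (b (l 16796904) (l 16824384))))) (a (b (l 16916240) (b (l 16826984) (a (b (l 16787752) (l 16794112)) (b (l 16777416) (a (l 16786832) (l 16782408)))))) (b (l 4) (a (b (l 16771432) (b (l 16775424) (b (l 16779984) (a (l 16777048) (l 16773224)))))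 (b (l 4) (b (l 4) (a (l 16783920) (a (l 16750176) (l 4)))))))))))), by decide +kernel⟩

theorem c_pm_123_a : CertB 536870912 536870912 0 536870912 697932185 42949674 3 eng mog cd1q1 cd4q2a pd3 true true false .npn 1 2 3
    ndB1q1 ndB4q2a pcB3 Cut.none Ext.none :=
  certB2 (fam := true) (s1 := true) (s2 := false) (a := 1) (b := 2) (c := 3) (cn := .npn) (n1 := ndB1q1) (n2 := ndB4q2a) (pc := pcB3) (cut := Cut.none) (xt := Ext.none) (P1 := 536870912) (W1 := 536870912) (P2 := 0) (W2 := 536870912) (P3 := 697932185) (W3 := 42949674) (N0 := 3) (En := eng) (mo := mog) (C1 := cd1q1) (C2 := cd4q2a) (C3 := pd3)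
    rfl (fun _ => rfl) k0_pm_123_a

noncomputable def f_pm_123_b : ℕ → ℕ → ℕ → ℕ → Bool := onCell 1610612736 536870912 1239849684 370763052 697932185 42949674
    (rowB 3 eng mog cd1q1 cd4q2b pd3 2 true true false .npn 1 2 3 (qsf 536870912 536870912 1239849684 370763052 3) ndB1q1 ndB4q2b pcB3 Cut.none Ext.none)

def k0_pm_123_b : ∃ t, chk3 f_pm_123_b t 1 1 1 = true :=
  ⟨(b (a (a (l 1) (b (a (b (a (l 16584656) (l 16619552)) (l 1)) (a (a (a (l 16646368) (l 16632000)) (l 16542984)) (l 16639688))) (a (l 1) (a (l 1) (l 16639512))))) (a (a (b (l 16715784) (l 16681792)) (b (a (l 16763040) (l 16769128)) (a (l 16717032) (l 16730760)))) (a (a (b (l 16759600) (l 16746432)) (b (l 16753464) (l 16745832))) (a (b (l 16825552) (l 4)) (l 4))))) (a (l 1) (a (a (l 1) (a (l 16732624) (l 16727848))) (a (a (l 16730416) (l 16721256)) (l 4))))), by decide +kernel⟩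

theorem c_pm_123_b : CertB 536870912 536870912 1239849684 370763052 697932185 42949674 3 eng mog cd1q1 cd4q2b pd3 true true false .npn 1 2 3
    ndB1q1 ndB4q2b pcB3 Cut.none Ext.none :=
  certB2 (fam := true) (s1 := true) (s2 := false) (a := 1) (b := 2) (c := 3) (cn := .npn) (n1 := ndB1q1) (n2 := ndB4q2b) (pc := pcB3) (cut := Cut.none) (xt := Ext.none) (P1 := 536870912) (W1 := 536870912) (P2 := 1239849684) (W2 := 370763052) (P3 := 697932185) (W3 := 42949674) (N0 := 3) (En := eng) (mo := mog) (C1 := cd1q1) (C2 := cd4q2b) (C3 := pd3)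
    rfl (fun _ => rfl) k0_pm_123_b

noncomputable def f_pm_133 : ℕ → ℕ → ℕ → ℕ → Bool := onCell 536870912 536870912 1610612736 536870912 697932185 42949674
    (rowB 3 eng mog cd1q1 cd4q3 pd3 0 true true false .dn 1 3 3 (qsf 536870912 536870912 1610612736 536870912 3) ndB1q1 ndB4q3 pcB3 Cut.none Ext.none)

def k0_pm_133 : ∃ t, chk3 f_pm_133 t 1 1 1 = true :=
  ⟨(a (l 4) (l 2)), by decide +kernel⟩

theorem c_pm_133 : CertB 536870912 536870912 1610612736 536870912 697932185 42949674 3 eng mog cd1q1 cd4q3 pd3 true true false .dn 1 3 3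
    ndB1q1 ndB4q3 pcB3 Cut.none Ext.none :=
  certB0 (fam := true) (s1 := true) (s2 := false) (a := 1) (b := 3) (c := 3) (cn := .dn) (n1 := ndB1q1) (n2 := ndB4q3) (pc := pcB3) (cut := Cut.none) (xt := Ext.none) (P1 := 536870912) (W1 := 536870912) (P2 := 1610612736) (W2 := 536870912) (P3 := 697932185) (W3 := 42949674) (N0 := 3) (En := eng) (mo := mog) (C1 := cd1q1) (C2 := cd4q3) (C3 := pd3)
    rfl k0_pm_133

noncomputable def cut_pm_202_a : Cut := Cut.of [[⟨0, 1, 0, 67108864⟩, ⟨1, 0, 0, 67108864⟩, ⟨2, 1, 0, 67108864⟩]]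

noncomputable def f_pm_202_a : ℕ → ℕ → ℕ → ℕ → Bool := onCell 0 536870912 1073741824 536870912 697932185 42949674
    (rowB 3 eng mog cd1q2a cd4q0 pd2 1 true true false .pp 2 0 2 (qsf 0 536870912 0 536870912 2) ndB1q2a ndB4q0 pcB2 cut_pm_202_a Ext.none)

def k0_pm_202_a : ∃ t, chk3 f_pm_202_a t 2 2 1 = true :=
  ⟨(a (b (l 1) (b (b (b (l 1) (a (b (l 1) (l 16450600)) (a (b (l 1) (l 16456552)) (b (l 16458096) (l 16464864))))) (b (b (a (l 16493864) (a (l 16457280) (l 16462592))) (a (c (l 16443928) (l 16449200)) (c (a (l 16448208) (l 16452968)) (l 16458048)))) (a (a (l 16446512) (l 16448984)) (c (a (l 16450144) (l 16454768)) (l 16458928))))) (b (b (a (l 16473616) (c (l 16457288) (l 16462736))) (a (a (l 16455408) (l 16457376)) (l 16462880))) (a (b (a (l 16460184) (l 16460576)) (l 16465280)) (b (l 16465672) (l 16468088)))))) (b (b (l 1) (b (l 1) (a (l 1) (b (l 1) (b (l 1) (a (l 1) (a (l 16489320) (l 16521224)))))))) (b (b (b (b (a (l 1) (a (c (l 449930727543)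 (l 496638600887)) (b (l 16418152) (l 16506816)))) (a (a (l 143914184119) (l 237866602807)) (a (b (l 209412467591) (l 16496224)) (l 16513952)))) (a (a (b (l 16448280) (l 16475752)) (b (l 16483360) (l 16484784))) (a (b (l 16500944) (l 16492760)) (b (l 16507872) (b (l 16500008) (l 16495544)))))) (a (b (a (c (b (l 16465352) (l 16459592)) (l 16470976)) (c (l 16470320) (l 16478504))) (c (a (l 16461272) (l 16468936)) (l 16471760))) (b (a (c (l 16478328) (l 16485712)) (c (l 16483216) (l 16489600))) (a (l 16478832) (l 16482888))))) (a (b (b (a (l 16468016) (l 16475296)) (l 16474704)) (a (l 16474296) (l 16480904))) (b (a (l 16483936) (l 16487792)) (a (l 16487480) (l 16490832))))))), by decide +kernel⟩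

def k1_pm_202_a : ∃ t, chk3 f_pm_202_a t 2 3 1 = true :=
  ⟨(b (b (a (b (a (l 16472664) (b (a (l 16469544) (l 16472144)) (l 16495896))) (a (l 16484472) (b (l 16479296) (l 16484752)))) (b (a (l 16481232) (a (l 16489616) (l 16492128))) (a (b (l 16505344) (a (l 16486944) (l 16491032))) (a (l 16494088) (l 16495960))))) (a (b (a (l 16503848) (l 16500232)) (l 16532552)) (b (a (b (l 16498104) (l 16509240)) (b (l 16502712) (l 16511296))) (a (l 16529304) (l 16528912))))) (b (a (l 16561088) (b (l 16555592) (l 16582848))) (a (b (l 16629768) (l 16652200)) (b (l 16606192) (l 16626680))))), by decide +kernel⟩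

def k2_pm_202_a : ∃ t, chk3 f_pm_202_a t 3 4 1 = true :=
  ⟨(b (a (l 1) (b (a (l 1) (l 6)) (b (a (a (l 1) (l 6)) (l 6)) (b (a (a (l 1) (l 6)) (l 6)) (a (a (a (l 1) (b (l 527777359495) (l 508986909319))) (b (l 6) (a (l 16627904) (l 16669968)))) (a (l 16676160) (l 16670008))))))) (a (b (a (l 1) (b (a (l 1) (b (l 1) (a (l 436509193047) (l 523482342119)))) (a (b (a (l 1) (l 453689032231)) (a (l 477311326391) (l 571263807559))) (a (b (l 546030899879) (b (l 16579936) (l 16561656))) (b (b (l 16594424) (l 16596768)) (l 16600328)))))) (a (b (a (b (l 1) (b (l 1) (l 465500124679))) (b (a (l 1) (l 508449817943)) (a (l 556231354983) (l 600791670199)))) (b (a (a (l 519187223751) (l 483753765639)) (b (a (l 16529368) (l 16544944)) (l 16457152))) (a (a (b (l 16510008) (l 16514464)) (l 16462328)) (l 16546720)))) (b (a (b (a (l 591128008439) (b (l 16566256) (l 16569304))) (a (l 16472312) (l 16573872))) (b (l 16554064) (l 16594200))) (a (l 16446808) (l 16573000)))))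 (a (b (b (a (a (b (l 510060603511) (c (l 16552824) (l 16607720))) (b (b (l 16650440) (l 16589096)) (l 16633480))) (b (l 16574752) (l 16649768))) (a (a (l 16549800) (l 16628208)) (l 16627320))) (a (b (l 16599896) (l 16571088)) (b (l 16597600) (l 16568512)))) (b (a (b (l 16653400) (l 16623008)) (b (l 16646920) (l 16616256))) (a (l 16620456) (l 16571712)))))), by decide +kernel⟩

def k3_pm_202_a : ∃ t, chk3 f_pm_202_a t 3 5 1 = true :=
  ⟨(b (a (b (a (b (a (b (l 16527432) (l 16529032)) (l 16542112)) (b (l 16519856) (b (l 16510192) (a (l 16500568) (l 16506616))))) (b (a (l 16545368) (l 16545360)) (b (l 16525968) (b (l 16516216) (l 16510232))))) (a (b (a (b (l 16492792) (l 16484120)) (l 16470184)) (a (l 16484688) (l 16483872))) (b (l 16515024) (l 16481552)))) (b (a (b (a (l 16543136) (l 16540384)) (b (l 16521976) (a (l 16510776) (l 16508264)))) (b (l 16532912) (b (l 16512912) (a (l 16504072) (l 16498720))))) (a (b (l 16490168) (l 16475760)) (a (l 16560600)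 (a (l 16471888) (l 16507784)))))) (a (a (b (a (l 16489384) (l 16488144)) (l 16491704)) (b (a (l 16483200) (l 16477024)) (a (l 16485048) (l 16476128)))) (a (b (a (l 16469744) (l 16462864)) (l 16499368)) (b (a (l 16452928) (l 16439184)) (l 16427416))))), by decide +kernel⟩

def k4_pm_202_a : ∃ t, chk3 f_pm_202_a t 3 3 1 = true :=
  ⟨(b (a (b (a (b (l 16491784) (l 16493520)) (b (l 16498736) (l 16475360))) (a (b (l 16499816) (l 16514976)) (b (l 16477528) (l 16488656)))) (b (a (b (l 16449768) (l 16445520)) (b (l 16418424) (l 16416640))) (a (b (l 16446856) (l 16457680)) (b (l 16423096) (l 16436400))))) (a (b (a (b (l 16536016) (l 16556720)) (b (l 16505120) (l 16524128))) (b (l 16562640) (l 16587896))) (b (a (l 16630056) (l 16464848)) (l 16678776)))), by decide +kernel⟩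

theorem s5_pm_202_a : ∃ t, chk3 f_pm_202_a t 3 2 1 = true := ex3_b k2_pm_202_a k3_pm_202_a

theorem s6_pm_202_a : ∃ t, chk3 f_pm_202_a t 3 1 1 = true := ex3_b s5_pm_202_a k4_pm_202_a

theorem s7_pm_202_a : ∃ t, chk3 f_pm_202_a t 2 1 1 = true := ex3_b k0_pm_202_a k1_pm_202_a

theorem s8_pm_202_a : ∃ t, chk3 f_pm_202_a t 1 1 1 = true := ex3_a s7_pm_202_a s6_pm_202_a

theorem c_pm_202_a : CertB 0 536870912 0 536870912 697932185 42949674 3 eng mog cd1q2a cd4q0 pd2 true true false .pp 2 0 2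
    ndB1q2a ndB4q0 pcB2 cut_pm_202_a Ext.none :=
  certB1 (fam := true) (s1 := true) (s2 := false) (a := 2) (b := 0) (c := 2) (cn := .pp) (n1 := ndB1q2a) (n2 := ndB4q0) (pc := pcB2) (cut := cut_pm_202_a) (xt := Ext.none) (P1 := 0) (W1 := 536870912) (P2 := 0) (W2 := 536870912) (P3 := 697932185) (W3 := 42949674) (N0 := 3) (En := eng) (mo := mog) (C1 := cd1q2a) (C2 := cd4q0) (C3 := pd2)
    rfl (fun _ => rfl) s8_pm_202_a

noncomputable def cut_pm_202_b : Cut := Cut.of [[⟨0, 1, 0, 67108864⟩, ⟨1, 0, 0, 67108864⟩, ⟨2, 1, 0, 67108864⟩]]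

noncomputable def f_pm_202_b : ℕ → ℕ → ℕ → ℕ → Bool := onCell 1073741824 536870912 0 536870912 697932185 42949674
    (rowB 3 eng mog cd1q2b cd4q0 pd2 2 true true false .pp 2 0 2 (qsf 1239849684 370763052 0 536870912 2) ndB1q2b ndB4q0 pcB2 cut_pm_202_b Ext.none)

def k0_pm_202_b : ∃ t, chk3 f_pm_202_b t 1 1 1 = true :=
  ⟨(a (b (a (l 1) (b (a (b (b (b (a (a (l 1) (l 16480704)) (a (c (l 16441728) (l 16446880)) (l 16417376))) (a (l 1) (a (c (l 164315395591) (l 16470216)) (l 172905133831)))) (a (l 1) (a (l 1) (l 375305664391)))) (l 1)) (a (b (b (b (l 16354904) (l 16397960)) (b (a (l 16448120) (l 16421280)) (a (l 400001746759) (l 16452464)))) (b (l 435972148055) (l 1))) (b (b (b (l 16278960) (l 16321224)) (b (l 16364144) (l 16406400))) (b (a (l 16471400) (l 16448624)) (l 413960455063))))) (l 1))) (l 1)) (a (b (b (a (b (a (b (l 16337336) (l 16314744)) (b (l 16214120) (l 16251624))) (b (l 16489872) (a (l 16471640) (l 16412296)))) (b (b (a (l 16118720) (l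 16073648)) (l 16379312)) (a (l 16313848) (l 16261384)))) (a (b (b (a (l 394633134279) (l 16484584)) (l 381211494263)) (l 1)) (b (a (b (l 16429448) (l 16504256)) (l 16417016)) (a (l 468184511335) (l 246993645703))))) (l 1)) (b (b (a (b (a (l 16074024) (l 16048008)) (l 16220432)) (b (l 16191744) (l 16144496))) (a (b (l 16412784) (a (l 16536576) (l 16492176))) (b (l 16283152) (l 16449272)))) (b (a (b (l 492880733015) (l 1)) (b (a (l 16619568) (l 4)) (l 4))) (l 1))))), by decide +kernel⟩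

theorem c_pm_202_b : CertB 1239849684 370763052 0 536870912 697932185 42949674 3 eng mog cd1q2b cd4q0 pd2 true true false .pp 2 0 2
    ndB1q2b ndB4q0 pcB2 cut_pm_202_b Ext.none :=
  certB2 (fam := true) (s1 := true) (s2 := false) (a := 2) (b := 0) (c := 2) (cn := .pp) (n1 := ndB1q2b) (n2 := ndB4q0) (pc := pcB2) (cut := cut_pm_202_b) (xt := Ext.none) (P1 := 1239849684) (W1 := 370763052) (P2 := 0) (W2 := 536870912) (P3 := 697932185) (W3 := 42949674) (N0 := 3) (En := eng) (mo := mog) (C1 := cd1q2b) (C2 := cd4q0) (C3 := pd2)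
    rfl (fun _ => rfl) k0_pm_202_b

noncomputable def f_pm_203_a : ℕ → ℕ → ℕ → ℕ → Bool := onCell 0 536870912 1610612736 536870912 697932185 42949674
    (rowB 3 eng mog cd1q2a cd4q0 pd3 1 true true false .up 2 0 3 (qsf 0 536870912 0 536870912 3) ndB1q2a ndB4q0 pcB3 Cut.none Ext.none)

def k0_pm_203_a : ∃ t, chk3 f_pm_203_a t 1 1 1 = true :=
  ⟨(b (b (a (b (a (l 16682544) (l 16657744)) (a (l 4) (l 19025664871))) (b (a (l 16633600) (l 16640792)) (a (l 16703664) (l 16811784)))) (a (l 4) (a (l 2) (l 2)))) (l 2)), by decide +kernel⟩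

theorem c_pm_203_a : CertB 0 536870912 0 536870912 697932185 42949674 3 eng mog cd1q2a cd4q0 pd3 true true false .up 2 0 3
    ndB1q2a ndB4q0 pcB3 Cut.none Ext.none :=
  certB1 (fam := true) (s1 := true) (s2 := false) (a := 2) (b := 0) (c := 3) (cn := .up) (n1 := ndB1q2a) (n2 := ndB4q0) (pc := pcB3) (cut := Cut.none) (xt := Ext.none) (P1 := 0) (W1 := 536870912) (P2 := 0) (W2 := 536870912) (P3 := 697932185) (W3 := 42949674) (N0 := 3) (En := eng) (mo := mog) (C1 := cd1q2a) (C2 := cd4q0) (C3 := pd3)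
    rfl (fun _ => rfl) k0_pm_203_a

noncomputable def f_pm_203_b : ℕ → ℕ → ℕ → ℕ → Bool := onCell 1610612736 536870912 0 536870912 697932185 42949674
    (rowB 3 eng mog cd1q2b cd4q0 pd3 2 true true false .up 2 0 3 (qsf 1239849684 370763052 0 536870912 3) ndB1q2b ndB4q0 pcB3 Cut.none Ext.none)

def k0_pm_203_b : ∃ t, chk3 f_pm_203_b t 1 1 1 = true :=
  ⟨(b (a (a (a (b (b (l 15994936) (l 16102328)) (b (l 16339032) (l 16402608))) (b (b (l 15973848) (l 16083528)) (l 4))) (b (a (l 519790735607) (l 2)) (l 4))) (l 4)) (l 4)), by decide +kernel⟩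

theorem c_pm_203_b : CertB 1239849684 370763052 0 536870912 697932185 42949674 3 eng mog cd1q2b cd4q0 pd3 true true false .up 2 0 3
    ndB1q2b ndB4q0 pcB3 Cut.none Ext.none :=
  certB2 (fam := true) (s1 := true) (s2 := false) (a := 2) (b := 0) (c := 3) (cn := .up) (n1 := ndB1q2b) (n2 := ndB4q0) (pc := pcB3) (cut := Cut.none) (xt := Ext.none) (P1 := 1239849684) (W1 := 370763052) (P2 := 0) (W2 := 536870912) (P3 := 697932185) (W3 := 42949674) (N0 := 3) (En := eng) (mo := mog) (C1 := cd1q2b) (C2 := cd4q0) (C3 := pd3)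
    rfl (fun _ => rfl) k0_pm_203_b

noncomputable def f_pm_213_a : ℕ → ℕ → ℕ → ℕ → Bool := onCell 0 536870912 1610612736 536870912 697932185 42949674
    (rowB 3 eng mog cd1q2a cd4q1 pd3 1 true true false .pnn 2 1 3 (qsf 0 536870912 536870912 536870912 3) ndB1q2a ndB4q1 pcB3 Cut.none Ext.none)

def k0_pm_213_a : ∃ t, chk3 f_pm_213_a t 1 1 1 = true :=
  ⟨(a (b (b (b (l 1) (l 367253428295)) (l 4)) (l 4)) (b (b (b (a (l 1) (l 16663280)) (a (l 16656384) (l 16817872))) (b (a (l 16625624) (l 16728280)) (a (l 4) (l 16642008)))) (l 4))), by decide +kernel⟩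

theorem c_pm_213_a : CertB 0 536870912 536870912 536870912 697932185 42949674 3 eng mog cd1q2a cd4q1 pd3 true true false .pnn 2 1 3
    ndB1q2a ndB4q1 pcB3 Cut.none Ext.none :=
  certB1 (fam := true) (s1 := true) (s2 := false) (a := 2) (b := 1) (c := 3) (cn := .pnn) (n1 := ndB1q2a) (n2 := ndB4q1) (pc := pcB3) (cut := Cut.none) (xt := Ext.none) (P1 := 0) (W1 := 536870912) (P2 := 536870912) (W2 := 536870912) (P3 := 697932185) (W3 := 42949674) (N0 := 3) (En := eng) (mo := mog) (C1 := cd1q2a) (C2 := cd4q1) (C3 := pd3)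
    rfl (fun _ => rfl) k0_pm_213_a

noncomputable def f_pm_213_b : ℕ → ℕ → ℕ → ℕ → Bool := onCell 1239849684 370763052 536870912 536870912 697932185 42949674
    (rowB 3 eng mog cd1q2b cd4q1 pd3 0 true true false .pnn 2 1 3 (qsf 1239849684 370763052 536870912 536870912 3) ndB1q2b ndB4q1 pcB3 Cut.none Ext.none)

def k0_pm_213_b : ∃ t, chk3 f_pm_213_b t 1 1 1 = true :=
  ⟨(l 4), by decide +kernel⟩

theorem c_pm_213_b : CertB 1239849684 370763052 536870912 536870912 697932185 42949674 3 eng mog cd1q2b cd4q1 pd3 true true false .pnn 2 1 3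
    ndB1q2b ndB4q1 pcB3 Cut.none Ext.none :=
  certB0 (fam := true) (s1 := true) (s2 := false) (a := 2) (b := 1) (c := 3) (cn := .pnn) (n1 := ndB1q2b) (n2 := ndB4q1) (pc := pcB3) (cut := Cut.none) (xt := Ext.none) (P1 := 1239849684) (W1 := 370763052) (P2 := 536870912) (W2 := 536870912) (P3 := 697932185) (W3 := 42949674) (N0 := 3) (En := eng) (mo := mog) (C1 := cd1q2b) (C2 := cd4q1) (C3 := pd3)
    rfl k0_pm_213_b

noncomputable def f_pm_303 : ℕ → ℕ → ℕ → ℕ → Bool := onCell 1610612736 536870912 0 536870912 697932185 42949674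
    (rowB 3 eng mog cd1q3 cd4q0 pd3 2 true true false .npn 3 0 3 (qsf 1610612736 536870912 0 536870912 3) ndB1q3 ndB4q0 pcB3 Cut.none Ext.none)

def k0_pm_303 : ∃ t, chk3 f_pm_303 t 1 1 1 = true :=
  ⟨(b (a (a (a (b (b (l 15995704) (l 16106216)) (l 1)) (b (b (l 15970784) (l 16084552)) (l 4))) (b (a (b (l 15999400) (l 4)) (l 4)) (l 4))) (l 4)) (l 4)), by decide +kernel⟩

theorem c_pm_303 : CertB 1610612736 536870912 0 536870912 697932185 42949674 3 eng mog cd1q3 cd4q0 pd3 true true false .npn 3 0 3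
    ndB1q3 ndB4q0 pcB3 Cut.none Ext.none :=
  certB2 (fam := true) (s1 := true) (s2 := false) (a := 3) (b := 0) (c := 3) (cn := .npn) (n1 := ndB1q3) (n2 := ndB4q0) (pc := pcB3) (cut := Cut.none) (xt := Ext.none) (P1 := 1610612736) (W1 := 536870912) (P2 := 0) (W2 := 536870912) (P3 := 697932185) (W3 := 42949674) (N0 := 3) (En := eng) (mo := mog) (C1 := cd1q3) (C2 := cd4q0) (C3 := pd3)
    rfl (fun _ => rfl) k0_pm_303

noncomputable def f_pm_313 : ℕ → ℕ → ℕ → ℕ → Bool := onCell 1610612736 536870912 536870912 536870912 697932185 42949674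
    (rowB 3 eng mog cd1q3 cd4q1 pd3 0 true true false .dn 3 1 3 (qsf 1610612736 536870912 536870912 536870912 3) ndB1q3 ndB4q1 pcB3 Cut.none Ext.none)

def k0_pm_313 : ∃ t, chk3 f_pm_313 t 1 1 1 = true :=
  ⟨(l 4), by decide +kernel⟩

theorem c_pm_313 : CertB 1610612736 536870912 536870912 536870912 697932185 42949674 3 eng mog cd1q3 cd4q1 pd3 true true false .dn 3 1 3
    ndB1q3 ndB4q1 pcB3 Cut.none Ext.none :=
  certB0 (fam := true) (s1 := true) (s2 := false) (a := 3) (b := 1) (c := 3) (cn := .dn) (n1 := ndB1q3) (n2 := ndB4q1) (pc := pcB3) (cut := Cut.none) (xt := Ext.none) (P1 := 1610612736) (W1 := 536870912) (P2 := 536870912) (W2 := 536870912) (P3 := 697932185) (W3 := 42949674) (N0 := 3) (En := eng) (mo := mog) (C1 := cd1q3) (C2 := cd4q1) (C3 := pd3)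
    rfl k0_pm_313

noncomputable def f_mm_001 : ℕ → ℕ → ℕ → ℕ → Bool := onCell 0 536870912 0 536870912 697932185 42949674
    (rowB 3 eng mog cd1q0 cd4q0 pd1 0 true false false .up 0 0 1 (qsf 0 536870912 0 536870912 1) ndB1q0 ndB4q0 pcB1 Cut.none Ext.none)

def k0_mm_001 : ∃ t, chk3 f_mm_001 t 1 1 1 = true :=
  ⟨(l 4), by decide +kernel⟩

theorem c_mm_001 : CertB 0 536870912 0 536870912 697932185 42949674 3 eng mog cd1q0 cd4q0 pd1 true false false .up 0 0 1
    ndB1q0 ndB4q0 pcB1 Cut.none Ext.none :=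
  certB0 (fam := true) (s1 := false) (s2 := false) (a := 0) (b := 0) (c := 1) (cn := .up) (n1 := ndB1q0) (n2 := ndB4q0) (pc := pcB1) (cut := Cut.none) (xt := Ext.none) (P1 := 0) (W1 := 536870912) (P2 := 0) (W2 := 536870912) (P3 := 697932185) (W3 := 42949674) (N0 := 3) (En := eng) (mo := mog) (C1 := cd1q0) (C2 := cd4q0) (C3 := pd1)
    rfl k0_mm_001

noncomputable def f_mm_011 : ℕ → ℕ → ℕ → ℕ → Bool := onCell 0 536870912 536870912 536870912 697932185 42949674
    (rowB 3 eng mog cd1q0 cd4q1 pd1 0 true false false .pnn 0 1 1 (qsf 0 536870912 536870912 536870912 1) ndB1q0 ndB4q1 pcB1 Cut.none Ext.none)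

def k0_mm_011 : ∃ t, chk3 f_mm_011 t 1 1 1 = true :=
  ⟨(l 4), by decide +kernel⟩

theorem c_mm_011 : CertB 0 536870912 536870912 536870912 697932185 42949674 3 eng mog cd1q0 cd4q1 pd1 true false false .pnn 0 1 1
    ndB1q0 ndB4q1 pcB1 Cut.none Ext.none :=
  certB0 (fam := true) (s1 := false) (s2 := false) (a := 0) (b := 1) (c := 1) (cn := .pnn) (n1 := ndB1q0) (n2 := ndB4q1) (pc := pcB1) (cut := Cut.none) (xt := Ext.none) (P1 := 0) (W1 := 536870912) (P2 := 536870912) (W2 := 536870912) (P3 := 697932185) (W3 := 42949674) (N0 := 3) (En := eng) (mo := mog) (C1 := cd1q0) (C2 := cd4q1) (C3 := pd1)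
    rfl k0_mm_011

noncomputable def f_mm_012 : ℕ → ℕ → ℕ → ℕ → Bool := onCell 0 536870912 536870912 536870912 697932185 42949674
    (rowB 3 eng mog cd1q0 cd4q1 pd2 0 true false false .pnp 0 1 2 (qsf 0 536870912 536870912 536870912 2) ndB1q0 ndB4q1 pcB2 Cut.none Ext.none)

def k0_mm_012 : ∃ t, chk3 f_mm_012 t 1 1 1 = true :=
  ⟨(l 4), by decide +kernel⟩

theorem c_mm_012 : CertB 0 536870912 536870912 536870912 697932185 42949674 3 eng mog cd1q0 cd4q1 pd2 true false false .pnp 0 1 2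
    ndB1q0 ndB4q1 pcB2 Cut.none Ext.none :=
  certB0 (fam := true) (s1 := false) (s2 := false) (a := 0) (b := 1) (c := 2) (cn := .pnp) (n1 := ndB1q0) (n2 := ndB4q1) (pc := pcB2) (cut := Cut.none) (xt := Ext.none) (P1 := 0) (W1 := 536870912) (P2 := 536870912) (W2 := 536870912) (P3 := 697932185) (W3 := 42949674) (N0 := 3) (En := eng) (mo := mog) (C1 := cd1q0) (C2 := cd4q1) (C3 := pd2)
    rfl k0_mm_012

noncomputable def f_mm_022_a : ℕ → ℕ → ℕ → ℕ → Bool := onCell 0 536870912 0 536870912 697932185 42949674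
    (rowB 3 eng mog cd1q0 cd4q2a pd2 0 true false false .pp 0 2 2 (qsf 0 536870912 0 536870912 2) ndB1q0 ndB4q2a pcB2 Cut.none Ext.none)

def k0_mm_022_a : ∃ t, chk3 f_mm_022_a t 1 1 1 = true :=
  ⟨(l 5), by decide +kernel⟩

theorem c_mm_022_a : CertB 0 536870912 0 536870912 697932185 42949674 3 eng mog cd1q0 cd4q2a pd2 true false false .pp 0 2 2
    ndB1q0 ndB4q2a pcB2 Cut.none Ext.none :=
  certB0 (fam := true) (s1 := false) (s2 := false) (a := 0) (b := 2) (c := 2) (cn := .pp) (n1 := ndB1q0) (n2 := ndB4q2a) (pc := pcB2) (cut := Cut.none) (xt := Ext.none) (P1 := 0) (W1 := 536870912) (P2 := 0) (W2 := 536870912) (P3 := 697932185) (W3 := 42949674) (N0 := 3) (En := eng) (mo := mog) (C1 := cd1q0) (C2 := cd4q2a) (C3 := pd2)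
    rfl k0_mm_022_a

noncomputable def f_mm_022_b : ℕ → ℕ → ℕ → ℕ → Bool := onCell 0 536870912 1239849684 370763052 697932185 42949674
    (rowB 3 eng mog cd1q0 cd4q2b pd2 0 true false false .pp 0 2 2 (qsf 0 536870912 1239849684 370763052 2) ndB1q0 ndB4q2b pcB2 Cut.none Ext.none)

def k0_mm_022_b : ∃ t, chk3 f_mm_022_b t 1 1 1 = true :=
  ⟨(l 5), by decide +kernel⟩

theorem c_mm_022_b : CertB 0 536870912 1239849684 370763052 697932185 42949674 3 eng mog cd1q0 cd4q2b pd2 true false false .pp 0 2 2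
    ndB1q0 ndB4q2b pcB2 Cut.none Ext.none :=
  certB0 (fam := true) (s1 := false) (s2 := false) (a := 0) (b := 2) (c := 2) (cn := .pp) (n1 := ndB1q0) (n2 := ndB4q2b) (pc := pcB2) (cut := Cut.none) (xt := Ext.none) (P1 := 0) (W1 := 536870912) (P2 := 1239849684) (W2 := 370763052) (P3 := 697932185) (W3 := 42949674) (N0 := 3) (En := eng) (mo := mog) (C1 := cd1q0) (C2 := cd4q2b) (C3 := pd2)
    rfl k0_mm_022_b

noncomputable def f_mm_023_a : ℕ → ℕ → ℕ → ℕ → Bool := onCell 0 536870912 0 536870912 697932185 42949674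
    (rowB 3 eng mog cd1q0 cd4q2a pd3 0 true false false .up 0 2 3 (qsf 0 536870912 0 536870912 3) ndB1q0 ndB4q2a pcB3 Cut.none Ext.none)

def k0_mm_023_a : ∃ t, chk3 f_mm_023_a t 1 1 1 = true :=
  ⟨(l 5), by decide +kernel⟩

theorem c_mm_023_a : CertB 0 536870912 0 536870912 697932185 42949674 3 eng mog cd1q0 cd4q2a pd3 true false false .up 0 2 3
    ndB1q0 ndB4q2a pcB3 Cut.none Ext.none :=
  certB0 (fam := true) (s1 := false) (s2 := false) (a := 0) (b := 2) (c := 3) (cn := .up) (n1 := ndB1q0) (n2 := ndB4q2a) (pc := pcB3) (cut := Cut.none) (xt := Ext.none) (P1 := 0) (W1 := 536870912) (P2 := 0) (W2 := 536870912) (P3 := 697932185) (W3 := 42949674) (N0 := 3) (En := eng) (mo := mog) (C1 := cd1q0) (C2 := cd4q2a) (C3 := pd3)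
    rfl k0_mm_023_a

noncomputable def f_mm_023_b : ℕ → ℕ → ℕ → ℕ → Bool := onCell 0 536870912 1239849684 370763052 697932185 42949674
    (rowB 3 eng mog cd1q0 cd4q2b pd3 0 true false false .up 0 2 3 (qsf 0 536870912 1239849684 370763052 3) ndB1q0 ndB4q2b pcB3 Cut.none Ext.none)

def k0_mm_023_b : ∃ t, chk3 f_mm_023_b t 1 1 1 = true :=
  ⟨(l 5), by decide +kernel⟩

theorem c_mm_023_b : CertB 0 536870912 1239849684 370763052 697932185 42949674 3 eng mog cd1q0 cd4q2b pd3 true false false .up 0 2 3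
    ndB1q0 ndB4q2b pcB3 Cut.none Ext.none :=
  certB0 (fam := true) (s1 := false) (s2 := false) (a := 0) (b := 2) (c := 3) (cn := .up) (n1 := ndB1q0) (n2 := ndB4q2b) (pc := pcB3) (cut := Cut.none) (xt := Ext.none) (P1 := 0) (W1 := 536870912) (P2 := 1239849684) (W2 := 370763052) (P3 := 697932185) (W3 := 42949674) (N0 := 3) (En := eng) (mo := mog) (C1 := cd1q0) (C2 := cd4q2b) (C3 := pd3)
    rfl k0_mm_023_b

noncomputable def f_mm_033 : ℕ → ℕ → ℕ → ℕ → Bool := onCell 0 536870912 1610612736 536870912 697932185 42949674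
    (rowB 3 eng mog cd1q0 cd4q3 pd3 0 true false false .pnn 0 3 3 (qsf 0 536870912 1610612736 536870912 3) ndB1q0 ndB4q3 pcB3 Cut.none Ext.none)

def k0_mm_033 : ∃ t, chk3 f_mm_033 t 1 1 1 = true :=
  ⟨(l 4), by decide +kernel⟩

theorem c_mm_033 : CertB 0 536870912 1610612736 536870912 697932185 42949674 3 eng mog cd1q0 cd4q3 pd3 true false false .pnn 0 3 3
    ndB1q0 ndB4q3 pcB3 Cut.none Ext.none :=
  certB0 (fam := true) (s1 := false) (s2 := false) (a := 0) (b := 3) (c := 3) (cn := .pnn) (n1 := ndB1q0) (n2 := ndB4q3) (pc := pcB3) (cut := Cut.none) (xt := Ext.none) (P1 := 0) (W1 := 536870912) (P2 := 1610612736) (W2 := 536870912) (P3 := 697932185) (W3 := 42949674) (N0 := 3) (En := eng) (mo := mog) (C1 := cd1q0) (C2 := cd4q3) (C3 := pd3)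
    rfl k0_mm_033

noncomputable def f_mm_101 : ℕ → ℕ → ℕ → ℕ → Bool := onCell 536870912 536870912 0 536870912 697932185 42949674
    (rowB 3 eng mog cd1q1 cd4q0 pd1 0 true false false .npn 1 0 1 (qsf 536870912 536870912 0 536870912 1) ndB1q1 ndB4q0 pcB1 Cut.none Ext.none)

def k0_mm_101 : ∃ t, chk3 f_mm_101 t 1 1 1 = true :=
  ⟨(a (l 4) (l 4)), by decide +kernel⟩

theorem c_mm_101 : CertB 536870912 536870912 0 536870912 697932185 42949674 3 eng mog cd1q1 cd4q0 pd1 true false false .npn 1 0 1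
    ndB1q1 ndB4q0 pcB1 Cut.none Ext.none :=
  certB0 (fam := true) (s1 := false) (s2 := false) (a := 1) (b := 0) (c := 1) (cn := .npn) (n1 := ndB1q1) (n2 := ndB4q0) (pc := pcB1) (cut := Cut.none) (xt := Ext.none) (P1 := 536870912) (W1 := 536870912) (P2 := 0) (W2 := 536870912) (P3 := 697932185) (W3 := 42949674) (N0 := 3) (En := eng) (mo := mog) (C1 := cd1q1) (C2 := cd4q0) (C3 := pd1)
    rfl k0_mm_101

noncomputable def f_mm_102 : ℕ → ℕ → ℕ → ℕ → Bool := onCell 536870912 536870912 0 536870912 697932185 42949674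
    (rowB 3 eng mog cd1q1 cd4q0 pd2 0 true false false .npp 1 0 2 (qsf 536870912 536870912 0 536870912 2) ndB1q1 ndB4q0 pcB2 Cut.none Ext.none)

def k0_mm_102 : ∃ t, chk3 f_mm_102 t 1 1 1 = true :=
  ⟨(b (l 4) (l 4)), by decide +kernel⟩

theorem c_mm_102 : CertB 536870912 536870912 0 536870912 697932185 42949674 3 eng mog cd1q1 cd4q0 pd2 true false false .npp 1 0 2
    ndB1q1 ndB4q0 pcB2 Cut.none Ext.none :=
  certB0 (fam := true) (s1 := false) (s2 := false) (a := 1) (b := 0) (c := 2) (cn := .npp) (n1 := ndB1q1) (n2 := ndB4q0) (pc := pcB2) (cut := Cut.none) (xt := Ext.none) (P1 := 536870912) (W1 := 536870912) (P2 := 0) (W2 := 536870912) (P3 := 697932185) (W3 := 42949674) (N0 := 3) (En := eng) (mo := mog) (C1 := cd1q1) (C2 := cd4q0) (C3 := pd2)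
    rfl k0_mm_102

noncomputable def f_mm_112 : ℕ → ℕ → ℕ → ℕ → Bool := onCell 536870912 536870912 536870912 536870912 697932185 42949674
    (rowB 3 eng mog cd1q1 cd4q1 pd2 0 true false false .dn 1 1 2 (qsf 536870912 536870912 536870912 536870912 2) ndB1q1 ndB4q1 pcB2 Cut.none Ext.none)

def k0_mm_112 : ∃ t, chk3 f_mm_112 t 1 1 1 = true :=
  ⟨(l 4), by decide +kernel⟩

theorem c_mm_112 : CertB 536870912 536870912 536870912 536870912 697932185 42949674 3 eng mog cd1q1 cd4q1 pd2 true false false .dn 1 1 2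
    ndB1q1 ndB4q1 pcB2 Cut.none Ext.none :=
  certB0 (fam := true) (s1 := false) (s2 := false) (a := 1) (b := 1) (c := 2) (cn := .dn) (n1 := ndB1q1) (n2 := ndB4q1) (pc := pcB2) (cut := Cut.none) (xt := Ext.none) (P1 := 536870912) (W1 := 536870912) (P2 := 536870912) (W2 := 536870912) (P3 := 697932185) (W3 := 42949674) (N0 := 3) (En := eng) (mo := mog) (C1 := cd1q1) (C2 := cd4q1) (C3 := pd2)
    rfl k0_mm_112

noncomputable def f_mm_113 : ℕ → ℕ → ℕ → ℕ → Bool := onCell 536870912 536870912 536870912 536870912 697932185 42949674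
    (rowB 3 eng mog cd1q1 cd4q1 pd3 0 true false false .nn 1 1 3 (qsf 536870912 536870912 536870912 536870912 3) ndB1q1 ndB4q1 pcB3 Cut.none Ext.none)

def k0_mm_113 : ∃ t, chk3 f_mm_113 t 1 1 1 = true :=
  ⟨(l 4), by decide +kernel⟩

theorem c_mm_113 : CertB 536870912 536870912 536870912 536870912 697932185 42949674 3 eng mog cd1q1 cd4q1 pd3 true false false .nn 1 1 3
    ndB1q1 ndB4q1 pcB3 Cut.none Ext.none :=
  certB0 (fam := true) (s1 := false) (s2 := false) (a := 1) (b := 1) (c := 3) (cn := .nn) (n1 := ndB1q1) (n2 := ndB4q1) (pc := pcB3) (cut := Cut.none) (xt := Ext.none) (P1 := 536870912) (W1 := 536870912) (P2 := 536870912) (W2 := 536870912) (P3 := 697932185) (W3 := 42949674) (N0 := 3) (En := eng) (mo := mog) (C1 := cd1q1) (C2 := cd4q1) (C3 := pd3)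
    rfl k0_mm_113

noncomputable def f_mm_123_a : ℕ → ℕ → ℕ → ℕ → Bool := onCell 536870912 536870912 0 536870912 697932185 42949674
    (rowB 3 eng mog cd1q1 cd4q2a pd3 0 true false false .npn 1 2 3 (qsf 536870912 536870912 0 536870912 3) ndB1q1 ndB4q2a pcB3 Cut.none Ext.none)

def k0_mm_123_a : ∃ t, chk3 f_mm_123_a t 1 1 1 = true :=
  ⟨(l 4), by decide +kernel⟩

theorem c_mm_123_a : CertB 536870912 536870912 0 536870912 697932185 42949674 3 eng mog cd1q1 cd4q2a pd3 true false false .npn 1 2 3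
    ndB1q1 ndB4q2a pcB3 Cut.none Ext.none :=
  certB0 (fam := true) (s1 := false) (s2 := false) (a := 1) (b := 2) (c := 3) (cn := .npn) (n1 := ndB1q1) (n2 := ndB4q2a) (pc := pcB3) (cut := Cut.none) (xt := Ext.none) (P1 := 536870912) (W1 := 536870912) (P2 := 0) (W2 := 536870912) (P3 := 697932185) (W3 := 42949674) (N0 := 3) (En := eng) (mo := mog) (C1 := cd1q1) (C2 := cd4q2a) (C3 := pd3)
    rfl k0_mm_123_a

noncomputable def f_mm_123_b : ℕ → ℕ → ℕ → ℕ → Bool := onCell 536870912 536870912 1239849684 370763052 697932185 42949674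
    (rowB 3 eng mog cd1q1 cd4q2b pd3 0 true false false .npn 1 2 3 (qsf 536870912 536870912 1239849684 370763052 3) ndB1q1 ndB4q2b pcB3 Cut.none Ext.none)

def k0_mm_123_b : ∃ t, chk3 f_mm_123_b t 1 1 1 = true :=
  ⟨(l 4), by decide +kernel⟩

theorem c_mm_123_b : CertB 536870912 536870912 1239849684 370763052 697932185 42949674 3 eng mog cd1q1 cd4q2b pd3 true false false .npn 1 2 3
    ndB1q1 ndB4q2b pcB3 Cut.none Ext.none :=
  certB0 (fam := true) (s1 := false) (s2 := false) (a := 1) (b := 2) (c := 3) (cn := .npn) (n1 := ndB1q1) (n2 := ndB4q2b) (pc := pcB3) (cut := Cut.none) (xt := Ext.none) (P1 := 536870912) (W1 := 536870912) (P2 := 1239849684) (W2 := 370763052) (P3 := 697932185) (W3 := 42949674) (N0 := 3) (En := eng) (mo := mog) (C1 := cd1q1) (C2 := cd4q2b) (C3 := pd3)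
    rfl k0_mm_123_b

noncomputable def f_mm_133 : ℕ → ℕ → ℕ → ℕ → Bool := onCell 536870912 536870912 1610612736 536870912 697932185 42949674
    (rowB 3 eng mog cd1q1 cd4q3 pd3 0 true false false .dn 1 3 3 (qsf 536870912 536870912 1610612736 536870912 3) ndB1q1 ndB4q3 pcB3 Cut.none Ext.none)

def k0_mm_133 : ∃ t, chk3 f_mm_133 t 1 1 1 = true :=
  ⟨(l 4), by decide +kernel⟩

theorem c_mm_133 : CertB 536870912 536870912 1610612736 536870912 697932185 42949674 3 eng mog cd1q1 cd4q3 pd3 true false false .dn 1 3 3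
    ndB1q1 ndB4q3 pcB3 Cut.none Ext.none :=
  certB0 (fam := true) (s1 := false) (s2 := false) (a := 1) (b := 3) (c := 3) (cn := .dn) (n1 := ndB1q1) (n2 := ndB4q3) (pc := pcB3) (cut := Cut.none) (xt := Ext.none) (P1 := 536870912) (W1 := 536870912) (P2 := 1610612736) (W2 := 536870912) (P3 := 697932185) (W3 := 42949674) (N0 := 3) (En := eng) (mo := mog) (C1 := cd1q1) (C2 := cd4q3) (C3 := pd3)
    rfl k0_mm_133

noncomputable def cut_mm_202_a : Cut := Cut.of [[⟨0, 1, 0, 67108864⟩, ⟨1, 0, 0, 67108864⟩, ⟨2, 1, 0, 67108864⟩]]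

noncomputable def f_mm_202_a : ℕ → ℕ → ℕ → ℕ → Bool := onCell 0 536870912 0 536870912 697932185 42949674
    (rowB 3 eng mog cd1q2a cd4q0 pd2 0 true false false .pp 2 0 2 (qsf 0 536870912 0 536870912 2) ndB1q2a ndB4q0 pcB2 cut_mm_202_a Ext.none)

def k0_mm_202_a : ∃ t, chk3 f_mm_202_a t 1 1 1 = true :=
  ⟨(b (a (b (b (a (b (a (b (l 16444144) (l 16424000)) (b (l 16454600) (l 16454792))) (a (l 16456928) (l 16467064))) (b (b (a (a (l 16467904) (l 16479584)) (a (a (l 16479168) (l 16498320)) (b (a (l 16508784) (l 16519584)) (l 16534552)))) (a (a (l 16425232) (l 16478944)) (a (l 16493968) (l 16506432)))) (a (b (l 16395592) (l 16489040)) (b (a (l 16393352) (l 16476264)) (a (l 16507504) (l 16526512)))))) (a (b (l 16478864) (l 16497104)) (b (a (l 16482848) (a (l 16523192) (l 16542736))) (a (l 16525384) (l 16559016))))) (b (a (b (l 16517232) (a (l 16532888) (l 16553400))) (b (a (l 16551528) (l 4)) (l 4))) (a (b (l 16579720) (l 16618808)) (l 4)))) (b (a (b (b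 (a (b (b (a (a (l 16531264) (l 16543848)) (b (a (l 16557176) (l 16566448)) (l 16564448))) (a (l 16537168) (l 16564344))) (a (l 16538232) (l 16565656))) (b (a (b (b (a (l 16576320) (l 16586536)) (l 16587344)) (l 16594872)) (b (b (a (l 16607888) (l 16610144)) (l 16615576)) (l 16619680))) (a (l 16596344) (l 16629560)))) (a (b (l 16556400) (a (l 16466280) (l 16578040))) (b (a (l 16601272) (l 16634984)) (a (l 16568160) (l 16647688))))) (b (a (b (l 16617128) (l 16589344)) (b (a (l 16624800) (l 4)) (l 4))) (l 4))) (b (a (a (b (b (a (b (b (l 16623552) (l 16630544)) (l 16640640)) (b (b (a (l 16633888) (l 16641520)) (l 16645056)) (l 16655664))) (b (l 16661264) (l 16664648))) (b (l 16672800) (l 4))) (b (b (a (b (b (l 6) (l 16662784)) (l 16673824)) (b (l 6) (l 16693528))) (b (a (l 16687760) (l 16704672)) (l 16701216))) (l 4))) (b (a (b (l 6) (b (l 6) (l 4))) (l 6)) (l 4))) (l 4))) (l 4))) (a (l 4) (l 4))), by decide +kernel⟩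

theorem c_mm_202_a : CertB 0 536870912 0 536870912 697932185 42949674 3 eng mog cd1q2a cd4q0 pd2 true false false .pp 2 0 2
    ndB1q2a ndB4q0 pcB2 cut_mm_202_a Ext.none :=
  certB0 (fam := true) (s1 := false) (s2 := false) (a := 2) (b := 0) (c := 2) (cn := .pp) (n1 := ndB1q2a) (n2 := ndB4q0) (pc := pcB2) (cut := cut_mm_202_a) (xt := Ext.none) (P1 := 0) (W1 := 536870912) (P2 := 0) (W2 := 536870912) (P3 := 697932185) (W3 := 42949674) (N0 := 3) (En := eng) (mo := mog) (C1 := cd1q2a) (C2 := cd4q0) (C3 := pd2)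
    rfl k0_mm_202_a

noncomputable def cut_mm_202_b : Cut := Cut.of [[⟨0, 1, 0, 67108864⟩, ⟨1, 0, 0, 67108864⟩, ⟨2, 1, 0, 67108864⟩]]

noncomputable def f_mm_202_b : ℕ → ℕ → ℕ → ℕ → Bool := onCell 1073741824 536870912 0 536870912 697932185 42949674
    (rowB 3 eng mog cd1q2b cd4q0 pd2 2 true false false .pp 2 0 2 (qsf 1239849684 370763052 0 536870912 2) ndB1q2b ndB4q0 pcB2 cut_mm_202_b Ext.none)

def k0_mm_202_b : ∃ t, chk3 f_mm_202_b t 1 1 1 = true :=
  ⟨(a (b (a (l 1) (b (a (b (b (a (a (l 1) (l 86469107543)) (a (l 16453376) (l 16405232))) (a (l 1) (l 233571782311))) (l 1)) (b (b (b (b (l 16335696) (l 16335632)) (l 16482808)) (a (l 16452312) (l 16394232))) (a (l 377453206439) (l 54793829447)))) (l 1))) (l 1)) (a (b (b (a (b (b (a (l 16260472) (l 16176672)) (l 16289496)) (a (l 16449464) (l 16383168))) (a (b (a (l 16173848) (l 16146912)) (l 16322296)) (b (l 16110496) (l 16267896)))) (a (b (a (l 319471320167) (l 94522451767)) (l 1)) (b (a (l 16486080)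 (l 16431400)) (a (l 377453343143) (l 16570632))))) (l 1)) (b (a (b (b (a (l 16070096) (l 16038488)) (l 16389312)) (b (a (l 16381880) (l 16338472)) (a (l 16559344) (l 4)))) (b (b (a (l 16014496) (l 15993968)) (a (l 16149224) (l 16121040))) (b (a (l 16322840) (l 4)) (l 4)))) (l 4)))), by decide +kernel⟩

theorem c_mm_202_b : CertB 1239849684 370763052 0 536870912 697932185 42949674 3 eng mog cd1q2b cd4q0 pd2 true false false .pp 2 0 2
    ndB1q2b ndB4q0 pcB2 cut_mm_202_b Ext.none :=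
  certB2 (fam := true) (s1 := false) (s2 := false) (a := 2) (b := 0) (c := 2) (cn := .pp) (n1 := ndB1q2b) (n2 := ndB4q0) (pc := pcB2) (cut := cut_mm_202_b) (xt := Ext.none) (P1 := 1239849684) (W1 := 370763052) (P2 := 0) (W2 := 536870912) (P3 := 697932185) (W3 := 42949674) (N0 := 3) (En := eng) (mo := mog) (C1 := cd1q2b) (C2 := cd4q0) (C3 := pd2)
    rfl (fun _ => rfl) k0_mm_202_b

noncomputable def f_mm_203_a : ℕ → ℕ → ℕ → ℕ → Bool := onCell 0 536870912 1610612736 536870912 697932185 42949674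
    (rowB 3 eng mog cd1q2a cd4q0 pd3 1 true false false .up 2 0 3 (qsf 0 536870912 0 536870912 3) ndB1q2a ndB4q0 pcB3 Cut.none Ext.none)

def k0_mm_203_a : ∃ t, chk3 f_mm_203_a t 1 1 1 = true :=
  ⟨(l 4), by decide +kernel⟩

theorem c_mm_203_a : CertB 0 536870912 0 536870912 697932185 42949674 3 eng mog cd1q2a cd4q0 pd3 true false false .up 2 0 3
    ndB1q2a ndB4q0 pcB3 Cut.none Ext.none :=
  certB1 (fam := true) (s1 := false) (s2 := false) (a := 2) (b := 0) (c := 3) (cn := .up) (n1 := ndB1q2a) (n2 := ndB4q0) (pc := pcB3) (cut := Cut.none) (xt := Ext.none) (P1 := 0) (W1 := 536870912) (P2 := 0) (W2 := 536870912) (P3 := 697932185) (W3 := 42949674) (N0 := 3) (En := eng) (mo := mog) (C1 := cd1q2a) (C2 := cd4q0) (C3 := pd3)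
    rfl (fun _ => rfl) k0_mm_203_a

noncomputable def f_mm_203_b : ℕ → ℕ → ℕ → ℕ → Bool := onCell 1239849684 370763052 1610612736 536870912 697932185 42949674
    (rowB 3 eng mog cd1q2b cd4q0 pd3 1 true false false .up 2 0 3 (qsf 1239849684 370763052 0 536870912 3) ndB1q2b ndB4q0 pcB3 Cut.none Ext.none)

def k0_mm_203_b : ∃ t, chk3 f_mm_203_b t 1 1 1 = true :=
  ⟨(b (b (a (l 4) (b (a (b (l 16221728) (l 4)) (b (l 16110376) (l 16072704))) (l 4))) (l 4)) (l 4)), by decide +kernel⟩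

theorem c_mm_203_b : CertB 1239849684 370763052 0 536870912 697932185 42949674 3 eng mog cd1q2b cd4q0 pd3 true false false .up 2 0 3
    ndB1q2b ndB4q0 pcB3 Cut.none Ext.none :=
  certB1 (fam := true) (s1 := false) (s2 := false) (a := 2) (b := 0) (c := 3) (cn := .up) (n1 := ndB1q2b) (n2 := ndB4q0) (pc := pcB3) (cut := Cut.none) (xt := Ext.none) (P1 := 1239849684) (W1 := 370763052) (P2 := 0) (W2 := 536870912) (P3 := 697932185) (W3 := 42949674) (N0 := 3) (En := eng) (mo := mog) (C1 := cd1q2b) (C2 := cd4q0) (C3 := pd3)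
    rfl (fun _ => rfl) k0_mm_203_b

noncomputable def f_mm_213_a : ℕ → ℕ → ℕ → ℕ → Bool := onCell 0 536870912 536870912 536870912 697932185 42949674
    (rowB 3 eng mog cd1q2a cd4q1 pd3 0 true false false .pnn 2 1 3 (qsf 0 536870912 536870912 536870912 3) ndB1q2a ndB4q1 pcB3 Cut.none Ext.none)

def k0_mm_213_a : ∃ t, chk3 f_mm_213_a t 1 1 1 = true :=
  ⟨(l 4), by decide +kernel⟩

theorem c_mm_213_a : CertB 0 536870912 536870912 536870912 697932185 42949674 3 eng mog cd1q2a cd4q1 pd3 true false false .pnn 2 1 3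
    ndB1q2a ndB4q1 pcB3 Cut.none Ext.none :=
  certB0 (fam := true) (s1 := false) (s2 := false) (a := 2) (b := 1) (c := 3) (cn := .pnn) (n1 := ndB1q2a) (n2 := ndB4q1) (pc := pcB3) (cut := Cut.none) (xt := Ext.none) (P1 := 0) (W1 := 536870912) (P2 := 536870912) (W2 := 536870912) (P3 := 697932185) (W3 := 42949674) (N0 := 3) (En := eng) (mo := mog) (C1 := cd1q2a) (C2 := cd4q1) (C3 := pd3)
    rfl k0_mm_213_a

noncomputable def f_mm_213_b : ℕ → ℕ → ℕ → ℕ → Bool := onCell 1239849684 370763052 536870912 536870912 697932185 42949674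
    (rowB 3 eng mog cd1q2b cd4q1 pd3 0 true false false .pnn 2 1 3 (qsf 1239849684 370763052 536870912 536870912 3) ndB1q2b ndB4q1 pcB3 Cut.none Ext.none)

def k0_mm_213_b : ∃ t, chk3 f_mm_213_b t 1 1 1 = true :=
  ⟨(l 4), by decide +kernel⟩

theorem c_mm_213_b : CertB 1239849684 370763052 536870912 536870912 697932185 42949674 3 eng mog cd1q2b cd4q1 pd3 true false false .pnn 2 1 3
    ndB1q2b ndB4q1 pcB3 Cut.none Ext.none :=
  certB0 (fam := true) (s1 := false) (s2 := false) (a := 2) (b := 1) (c := 3) (cn := .pnn) (n1 := ndB1q2b) (n2 := ndB4q1) (pc := pcB3) (cut := Cut.none) (xt := Ext.none) (P1 := 1239849684) (W1 := 370763052) (P2 := 536870912) (W2 := 536870912) (P3 := 697932185) (W3 := 42949674) (N0 := 3) (En := eng) (mo := mog) (C1 := cd1q2b) (C2 := cd4q1) (C3 := pd3)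
    rfl k0_mm_213_b

noncomputable def f_mm_303 : ℕ → ℕ → ℕ → ℕ → Bool := onCell 1610612736 536870912 0 536870912 697932185 42949674
    (rowB 3 eng mog cd1q3 cd4q0 pd3 2 true false false .npn 3 0 3 (qsf 1610612736 536870912 0 536870912 3) ndB1q3 ndB4q0 pcB3 Cut.none Ext.none)

def k0_mm_303 : ∃ t, chk3 f_mm_303 t 1 1 1 = true :=
  ⟨(b (a (a (b (a (b (a (l 15969712) (l 15951240)) (l 16229704)) (a (l 16008416) (l 16015216))) (l 4)) (l 4)) (l 4)) (l 4)), by decide +kernel⟩

theorem c_mm_303 : CertB 1610612736 536870912 0 536870912 697932185 42949674 3 eng mog cd1q3 cd4q0 pd3 true false false .npn 3 0 3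
    ndB1q3 ndB4q0 pcB3 Cut.none Ext.none :=
  certB2 (fam := true) (s1 := false) (s2 := false) (a := 3) (b := 0) (c := 3) (cn := .npn) (n1 := ndB1q3) (n2 := ndB4q0) (pc := pcB3) (cut := Cut.none) (xt := Ext.none) (P1 := 1610612736) (W1 := 536870912) (P2 := 0) (W2 := 536870912) (P3 := 697932185) (W3 := 42949674) (N0 := 3) (En := eng) (mo := mog) (C1 := cd1q3) (C2 := cd4q0) (C3 := pd3)
    rfl (fun _ => rfl) k0_mm_303

noncomputable def f_mm_313 : ℕ → ℕ → ℕ → ℕ → Bool := onCell 1610612736 536870912 536870912 536870912 697932185 42949674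
    (rowB 3 eng mog cd1q3 cd4q1 pd3 0 true false false .dn 3 1 3 (qsf 1610612736 536870912 536870912 536870912 3) ndB1q3 ndB4q1 pcB3 Cut.none Ext.none)

def k0_mm_313 : ∃ t, chk3 f_mm_313 t 1 1 1 = true :=
  ⟨(l 4), by decide +kernel⟩

theorem c_mm_313 : CertB 1610612736 536870912 536870912 536870912 697932185 42949674 3 eng mog cd1q3 cd4q1 pd3 true false false .dn 3 1 3
    ndB1q3 ndB4q1 pcB3 Cut.none Ext.none :=
  certB0 (fam := true) (s1 := false) (s2 := false) (a := 3) (b := 1) (c := 3) (cn := .dn) (n1 := ndB1q3) (n2 := ndB4q1) (pc := pcB3) (cut := Cut.none) (xt := Ext.none) (P1 := 1610612736) (W1 := 536870912) (P2 := 536870912) (W2 := 536870912) (P3 := 697932185) (W3 := 42949674) (N0 := 3) (En := eng) (mo := mog) (C1 := cd1q3) (C2 := cd4q1) (C3 := pd3)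
    rfl k0_mm_313

end Pool.Agent.Strip051.G.I6500_6900.Tab.C.BA14

namespace Pool.Agent.Strip051.G.I6500_6900.Tab.C.BA15

open Pool.Agent.Strip051.PB Pool.Agent.Strip051.PB.T
open Pool.Agent.Strip051.G.I6500_6900.Tab

noncomputable def f_pp_001 : ℕ → ℕ → ℕ → ℕ → Bool := onCell 0 536870912 0 536870912 697932185 42949674
    (rowB 3 eng mog cd1q0 cd5q0 pd1 0 true true true .up 0 0 1 (qsf 0 536870912 0 536870912 1) ndB1q0 ndB5q0 pcB1 Cut.none Ext.none)

def k0_pp_001 : ∃ t, chk3 f_pp_001 t 1 1 1 = true :=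
  ⟨(l 4), by decide +kernel⟩

theorem c_pp_001 : CertB 0 536870912 0 536870912 697932185 42949674 3 eng mog cd1q0 cd5q0 pd1 true true true .up 0 0 1
    ndB1q0 ndB5q0 pcB1 Cut.none Ext.none :=
  certB0 (fam := true) (s1 := true) (s2 := true) (a := 0) (b := 0) (c := 1) (cn := .up) (n1 := ndB1q0) (n2 := ndB5q0) (pc := pcB1) (cut := Cut.none) (xt := Ext.none) (P1 := 0) (W1 := 536870912) (P2 := 0) (W2 := 536870912) (P3 := 697932185) (W3 := 42949674) (N0 := 3) (En := eng) (mo := mog) (C1 := cd1q0) (C2 := cd5q0) (C3 := pd1)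
    rfl k0_pp_001

noncomputable def f_pp_011 : ℕ → ℕ → ℕ → ℕ → Bool := onCell 0 536870912 536870912 536870912 697932185 42949674
    (rowB 3 eng mog cd1q0 cd5q1 pd1 0 true true true .pnn 0 1 1 (qsf 0 536870912 536870912 536870912 1) ndB1q0 ndB5q1 pcB1 Cut.none Ext.none)

def k0_pp_011 : ∃ t, chk3 f_pp_011 t 1 1 1 = true :=
  ⟨(l 4), by decide +kernel⟩

theorem c_pp_011 : CertB 0 536870912 536870912 536870912 697932185 42949674 3 eng mog cd1q0 cd5q1 pd1 true true true .pnn 0 1 1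
    ndB1q0 ndB5q1 pcB1 Cut.none Ext.none :=
  certB0 (fam := true) (s1 := true) (s2 := true) (a := 0) (b := 1) (c := 1) (cn := .pnn) (n1 := ndB1q0) (n2 := ndB5q1) (pc := pcB1) (cut := Cut.none) (xt := Ext.none) (P1 := 0) (W1 := 536870912) (P2 := 536870912) (W2 := 536870912) (P3 := 697932185) (W3 := 42949674) (N0 := 3) (En := eng) (mo := mog) (C1 := cd1q0) (C2 := cd5q1) (C3 := pd1)
    rfl k0_pp_011

noncomputable def f_pp_012 : ℕ → ℕ → ℕ → ℕ → Bool := onCell 0 536870912 536870912 536870912 697932185 42949674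
    (rowB 3 eng mog cd1q0 cd5q1 pd2 0 true true true .pnp 0 1 2 (qsf 0 536870912 536870912 536870912 2) ndB1q0 ndB5q1 pcB2 Cut.none Ext.none)

def k0_pp_012 : ∃ t, chk3 f_pp_012 t 1 1 1 = true :=
  ⟨(l 4), by decide +kernel⟩

theorem c_pp_012 : CertB 0 536870912 536870912 536870912 697932185 42949674 3 eng mog cd1q0 cd5q1 pd2 true true true .pnp 0 1 2
    ndB1q0 ndB5q1 pcB2 Cut.none Ext.none :=
  certB0 (fam := true) (s1 := true) (s2 := true) (a := 0) (b := 1) (c := 2) (cn := .pnp) (n1 := ndB1q0) (n2 := ndB5q1) (pc := pcB2) (cut := Cut.none) (xt := Ext.none) (P1 := 0) (W1 := 536870912) (P2 := 536870912) (W2 := 536870912) (P3 := 697932185) (W3 := 42949674) (N0 := 3) (En := eng) (mo := mog) (C1 := cd1q0) (C2 := cd5q1) (C3 := pd2)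
    rfl k0_pp_012

noncomputable def f_pp_022 : ℕ → ℕ → ℕ → ℕ → Bool := onCell 0 536870912 1073741824 536870912 697932185 42949674
    (rowB 3 eng mog cd1q0 cd5q2 pd2 0 true true true .pp 0 2 2 (qsf 0 536870912 1073741824 536870912 2) ndB1q0 ndB5q2 pcB2 Cut.none Ext.none)

def k0_pp_022 : ∃ t, chk3 f_pp_022 t 1 1 1 = true :=
  ⟨(l 4), by decide +kernel⟩

theorem c_pp_022 : CertB 0 536870912 1073741824 536870912 697932185 42949674 3 eng mog cd1q0 cd5q2 pd2 true true true .pp 0 2 2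
    ndB1q0 ndB5q2 pcB2 Cut.none Ext.none :=
  certB0 (fam := true) (s1 := true) (s2 := true) (a := 0) (b := 2) (c := 2) (cn := .pp) (n1 := ndB1q0) (n2 := ndB5q2) (pc := pcB2) (cut := Cut.none) (xt := Ext.none) (P1 := 0) (W1 := 536870912) (P2 := 1073741824) (W2 := 536870912) (P3 := 697932185) (W3 := 42949674) (N0 := 3) (En := eng) (mo := mog) (C1 := cd1q0) (C2 := cd5q2) (C3 := pd2)
    rfl k0_pp_022

noncomputable def f_pp_023 : ℕ → ℕ → ℕ → ℕ → Bool := onCell 0 536870912 1073741824 536870912 697932185 42949674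
    (rowB 3 eng mog cd1q0 cd5q2 pd3 0 true true true .up 0 2 3 (qsf 0 536870912 1073741824 536870912 3) ndB1q0 ndB5q2 pcB3 Cut.none Ext.none)

def k0_pp_023 : ∃ t, chk3 f_pp_023 t 1 1 1 = true :=
  ⟨(l 4), by decide +kernel⟩

theorem c_pp_023 : CertB 0 536870912 1073741824 536870912 697932185 42949674 3 eng mog cd1q0 cd5q2 pd3 true true true .up 0 2 3
    ndB1q0 ndB5q2 pcB3 Cut.none Ext.none :=
  certB0 (fam := true) (s1 := true) (s2 := true) (a := 0) (b := 2) (c := 3) (cn := .up) (n1 := ndB1q0) (n2 := ndB5q2) (pc := pcB3) (cut := Cut.none) (xt := Ext.none) (P1 := 0) (W1 := 536870912) (P2 := 1073741824) (W2 := 536870912) (P3 := 697932185) (W3 := 42949674) (N0 := 3) (En := eng) (mo := mog) (C1 := cd1q0) (C2 := cd5q2) (C3 := pd3)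
    rfl k0_pp_023

noncomputable def f_pp_033 : ℕ → ℕ → ℕ → ℕ → Bool := onCell 0 536870912 0 1230186008 697932185 42949674
    (rowB 3 eng mog cd1q0 cd5q3 pd3 0 true true true .pnn 0 3 3 (qsf 0 536870912 0 1230186008 3) ndB1q0 ndB5q3 pcB3 Cut.none Ext.none)

def k0_pp_033 : ∃ t, chk3 f_pp_033 t 1 1 1 = true :=
  ⟨(b (l 4) (l 4)), by decide +kernel⟩

theorem c_pp_033 : CertB 0 536870912 0 1230186008 697932185 42949674 3 eng mog cd1q0 cd5q3 pd3 true true true .pnn 0 3 3
    ndB1q0 ndB5q3 pcB3 Cut.none Ext.none :=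
  certB0 (fam := true) (s1 := true) (s2 := true) (a := 0) (b := 3) (c := 3) (cn := .pnn) (n1 := ndB1q0) (n2 := ndB5q3) (pc := pcB3) (cut := Cut.none) (xt := Ext.none) (P1 := 0) (W1 := 536870912) (P2 := 0) (W2 := 1230186008) (P3 := 697932185) (W3 := 42949674) (N0 := 3) (En := eng) (mo := mog) (C1 := cd1q0) (C2 := cd5q3) (C3 := pd3)
    rfl k0_pp_033

noncomputable def f_pp_101 : ℕ → ℕ → ℕ → ℕ → Bool := onCell 536870912 536870912 0 536870912 697932185 42949674
    (rowB 3 eng mog cd1q1 cd5q0 pd1 0 true true true .npn 1 0 1 (qsf 536870912 536870912 0 536870912 1) ndB1q1 ndB5q0 pcB1 Cut.none Ext.none)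

def k0_pp_101 : ∃ t, chk3 f_pp_101 t 1 1 1 = true :=
  ⟨(l 4), by decide +kernel⟩

theorem c_pp_101 : CertB 536870912 536870912 0 536870912 697932185 42949674 3 eng mog cd1q1 cd5q0 pd1 true true true .npn 1 0 1
    ndB1q1 ndB5q0 pcB1 Cut.none Ext.none :=
  certB0 (fam := true) (s1 := true) (s2 := true) (a := 1) (b := 0) (c := 1) (cn := .npn) (n1 := ndB1q1) (n2 := ndB5q0) (pc := pcB1) (cut := Cut.none) (xt := Ext.none) (P1 := 536870912) (W1 := 536870912) (P2 := 0) (W2 := 536870912) (P3 := 697932185) (W3 := 42949674) (N0 := 3) (En := eng) (mo := mog) (C1 := cd1q1) (C2 := cd5q0) (C3 := pd1)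
    rfl k0_pp_101

noncomputable def f_pp_102 : ℕ → ℕ → ℕ → ℕ → Bool := onCell 536870912 536870912 0 536870912 697932185 42949674
    (rowB 3 eng mog cd1q1 cd5q0 pd2 0 true true true .npp 1 0 2 (qsf 536870912 536870912 0 536870912 2) ndB1q1 ndB5q0 pcB2 Cut.none Ext.none)

def k0_pp_102 : ∃ t, chk3 f_pp_102 t 1 1 1 = true :=
  ⟨(l 4), by decide +kernel⟩

theorem c_pp_102 : CertB 536870912 536870912 0 536870912 697932185 42949674 3 eng mog cd1q1 cd5q0 pd2 true true true .npp 1 0 2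
    ndB1q1 ndB5q0 pcB2 Cut.none Ext.none :=
  certB0 (fam := true) (s1 := true) (s2 := true) (a := 1) (b := 0) (c := 2) (cn := .npp) (n1 := ndB1q1) (n2 := ndB5q0) (pc := pcB2) (cut := Cut.none) (xt := Ext.none) (P1 := 536870912) (W1 := 536870912) (P2 := 0) (W2 := 536870912) (P3 := 697932185) (W3 := 42949674) (N0 := 3) (En := eng) (mo := mog) (C1 := cd1q1) (C2 := cd5q0) (C3 := pd2)
    rfl k0_pp_102

noncomputable def f_pp_112 : ℕ → ℕ → ℕ → ℕ → Bool := onCell 536870912 536870912 536870912 536870912 697932185 42949674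
    (rowB 3 eng mog cd1q1 cd5q1 pd2 0 true true true .dn 1 1 2 (qsf 536870912 536870912 536870912 536870912 2) ndB1q1 ndB5q1 pcB2 Cut.none Ext.none)

def k0_pp_112 : ∃ t, chk3 f_pp_112 t 1 1 1 = true :=
  ⟨(l 4), by decide +kernel⟩

theorem c_pp_112 : CertB 536870912 536870912 536870912 536870912 697932185 42949674 3 eng mog cd1q1 cd5q1 pd2 true true true .dn 1 1 2
    ndB1q1 ndB5q1 pcB2 Cut.none Ext.none :=
  certB0 (fam := true) (s1 := true) (s2 := true) (a := 1) (b := 1) (c := 2) (cn := .dn) (n1 := ndB1q1) (n2 := ndB5q1) (pc := pcB2) (cut := Cut.none) (xt := Ext.none) (P1 := 536870912) (W1 := 536870912) (P2 := 536870912) (W2 := 536870912) (P3 := 697932185) (W3 := 42949674) (N0 := 3) (En := eng) (mo := mog) (C1 := cd1q1) (C2 := cd5q1) (C3 := pd2)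
    rfl k0_pp_112

noncomputable def f_pp_113 : ℕ → ℕ → ℕ → ℕ → Bool := onCell 536870912 536870912 536870912 536870912 697932185 42949674
    (rowB 3 eng mog cd1q1 cd5q1 pd3 0 true true true .nn 1 1 3 (qsf 536870912 536870912 536870912 536870912 3) ndB1q1 ndB5q1 pcB3 Cut.none Ext.none)

def k0_pp_113 : ∃ t, chk3 f_pp_113 t 1 1 1 = true :=
  ⟨(l 4), by decide +kernel⟩

theorem c_pp_113 : CertB 536870912 536870912 536870912 536870912 697932185 42949674 3 eng mog cd1q1 cd5q1 pd3 true true true .nn 1 1 3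
    ndB1q1 ndB5q1 pcB3 Cut.none Ext.none :=
  certB0 (fam := true) (s1 := true) (s2 := true) (a := 1) (b := 1) (c := 3) (cn := .nn) (n1 := ndB1q1) (n2 := ndB5q1) (pc := pcB3) (cut := Cut.none) (xt := Ext.none) (P1 := 536870912) (W1 := 536870912) (P2 := 536870912) (W2 := 536870912) (P3 := 697932185) (W3 := 42949674) (N0 := 3) (En := eng) (mo := mog) (C1 := cd1q1) (C2 := cd5q1) (C3 := pd3)
    rfl k0_pp_113

noncomputable def f_pp_123 : ℕ → ℕ → ℕ → ℕ → Bool := onCell 536870912 536870912 1073741824 536870912 697932185 42949674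
    (rowB 3 eng mog cd1q1 cd5q2 pd3 0 true true true .npn 1 2 3 (qsf 536870912 536870912 1073741824 536870912 3) ndB1q1 ndB5q2 pcB3 Cut.none Ext.none)

def k0_pp_123 : ∃ t, chk3 f_pp_123 t 1 1 1 = true :=
  ⟨(l 4), by decide +kernel⟩

theorem c_pp_123 : CertB 536870912 536870912 1073741824 536870912 697932185 42949674 3 eng mog cd1q1 cd5q2 pd3 true true true .npn 1 2 3
    ndB1q1 ndB5q2 pcB3 Cut.none Ext.none :=
  certB0 (fam := true) (s1 := true) (s2 := true) (a := 1) (b := 2) (c := 3) (cn := .npn) (n1 := ndB1q1) (n2 := ndB5q2) (pc := pcB3) (cut := Cut.none) (xt := Ext.none) (P1 := 536870912) (W1 := 536870912) (P2 := 1073741824) (W2 := 536870912) (P3 := 697932185) (W3 := 42949674) (N0 := 3) (En := eng) (mo := mog) (C1 := cd1q1) (C2 := cd5q2) (C3 := pd3)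
    rfl k0_pp_123

noncomputable def f_pp_133 : ℕ → ℕ → ℕ → ℕ → Bool := onCell 536870912 536870912 0 1230186008 697932185 42949674
    (rowB 3 eng mog cd1q1 cd5q3 pd3 0 true true true .dn 1 3 3 (qsf 536870912 536870912 0 1230186008 3) ndB1q1 ndB5q3 pcB3 Cut.none Ext.none)

def k0_pp_133 : ∃ t, chk3 f_pp_133 t 1 1 1 = true :=
  ⟨(l 4), by decide +kernel⟩

theorem c_pp_133 : CertB 536870912 536870912 0 1230186008 697932185 42949674 3 eng mog cd1q1 cd5q3 pd3 true true true .dn 1 3 3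
    ndB1q1 ndB5q3 pcB3 Cut.none Ext.none :=
  certB0 (fam := true) (s1 := true) (s2 := true) (a := 1) (b := 3) (c := 3) (cn := .dn) (n1 := ndB1q1) (n2 := ndB5q3) (pc := pcB3) (cut := Cut.none) (xt := Ext.none) (P1 := 536870912) (W1 := 536870912) (P2 := 0) (W2 := 1230186008) (P3 := 697932185) (W3 := 42949674) (N0 := 3) (En := eng) (mo := mog) (C1 := cd1q1) (C2 := cd5q3) (C3 := pd3)
    rfl k0_pp_133

noncomputable def f_pp_202_a : ℕ → ℕ → ℕ → ℕ → Bool := onCell 0 536870912 0 536870912 697932185 42949674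
    (rowB 3 eng mog cd1q2a cd5q0 pd2 0 true true true .pp 2 0 2 (qsf 0 536870912 0 536870912 2) ndB1q2a ndB5q0 pcB2 Cut.none Ext.none)

def k0_pp_202_a : ∃ t, chk3 f_pp_202_a t 1 1 1 = true :=
  ⟨(l 5), by decide +kernel⟩

theorem c_pp_202_a : CertB 0 536870912 0 536870912 697932185 42949674 3 eng mog cd1q2a cd5q0 pd2 true true true .pp 2 0 2
    ndB1q2a ndB5q0 pcB2 Cut.none Ext.none :=
  certB0 (fam := true) (s1 := true) (s2 := true) (a := 2) (b := 0) (c := 2) (cn := .pp) (n1 := ndB1q2a) (n2 := ndB5q0) (pc := pcB2) (cut := Cut.none) (xt := Ext.none) (P1 := 0) (W1 := 536870912) (P2 := 0) (W2 := 536870912) (P3 := 697932185) (W3 := 42949674) (N0 := 3) (En := eng) (mo := mog) (C1 := cd1q2a) (C2 := cd5q0) (C3 := pd2)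
    rfl k0_pp_202_a

noncomputable def f_pp_202_b : ℕ → ℕ → ℕ → ℕ → Bool := onCell 1239849684 370763052 0 536870912 697932185 42949674
    (rowB 3 eng mog cd1q2b cd5q0 pd2 0 true true true .pp 2 0 2 (qsf 1239849684 370763052 0 536870912 2) ndB1q2b ndB5q0 pcB2 Cut.none Ext.none)

def k0_pp_202_b : ∃ t, chk3 f_pp_202_b t 1 1 1 = true :=
  ⟨(l 5), by decide +kernel⟩

theorem c_pp_202_b : CertB 1239849684 370763052 0 536870912 697932185 42949674 3 eng mog cd1q2b cd5q0 pd2 true true true .pp 2 0 2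
    ndB1q2b ndB5q0 pcB2 Cut.none Ext.none :=
  certB0 (fam := true) (s1 := true) (s2 := true) (a := 2) (b := 0) (c := 2) (cn := .pp) (n1 := ndB1q2b) (n2 := ndB5q0) (pc := pcB2) (cut := Cut.none) (xt := Ext.none) (P1 := 1239849684) (W1 := 370763052) (P2 := 0) (W2 := 536870912) (P3 := 697932185) (W3 := 42949674) (N0 := 3) (En := eng) (mo := mog) (C1 := cd1q2b) (C2 := cd5q0) (C3 := pd2)
    rfl k0_pp_202_b

noncomputable def f_pp_203_a : ℕ → ℕ → ℕ → ℕ → Bool := onCell 0 536870912 0 536870912 697932185 42949674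
    (rowB 3 eng mog cd1q2a cd5q0 pd3 0 true true true .up 2 0 3 (qsf 0 536870912 0 536870912 3) ndB1q2a ndB5q0 pcB3 Cut.none Ext.none)

def k0_pp_203_a : ∃ t, chk3 f_pp_203_a t 1 1 1 = true :=
  ⟨(l 5), by decide +kernel⟩

theorem c_pp_203_a : CertB 0 536870912 0 536870912 697932185 42949674 3 eng mog cd1q2a cd5q0 pd3 true true true .up 2 0 3
    ndB1q2a ndB5q0 pcB3 Cut.none Ext.none :=
  certB0 (fam := true) (s1 := true) (s2 := true) (a := 2) (b := 0) (c := 3) (cn := .up) (n1 := ndB1q2a) (n2 := ndB5q0) (pc := pcB3) (cut := Cut.none) (xt := Ext.none) (P1 := 0) (W1 := 536870912) (P2 := 0) (W2 := 536870912) (P3 := 697932185) (W3 := 42949674) (N0 := 3) (En := eng) (mo := mog) (C1 := cd1q2a) (C2 := cd5q0) (C3 := pd3)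
    rfl k0_pp_203_a

noncomputable def f_pp_203_b : ℕ → ℕ → ℕ → ℕ → Bool := onCell 1239849684 370763052 0 536870912 697932185 42949674
    (rowB 3 eng mog cd1q2b cd5q0 pd3 0 true true true .up 2 0 3 (qsf 1239849684 370763052 0 536870912 3) ndB1q2b ndB5q0 pcB3 Cut.none Ext.none)

def k0_pp_203_b : ∃ t, chk3 f_pp_203_b t 1 1 1 = true :=
  ⟨(l 5), by decide +kernel⟩

theorem c_pp_203_b : CertB 1239849684 370763052 0 536870912 697932185 42949674 3 eng mog cd1q2b cd5q0 pd3 true true true .up 2 0 3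
    ndB1q2b ndB5q0 pcB3 Cut.none Ext.none :=
  certB0 (fam := true) (s1 := true) (s2 := true) (a := 2) (b := 0) (c := 3) (cn := .up) (n1 := ndB1q2b) (n2 := ndB5q0) (pc := pcB3) (cut := Cut.none) (xt := Ext.none) (P1 := 1239849684) (W1 := 370763052) (P2 := 0) (W2 := 536870912) (P3 := 697932185) (W3 := 42949674) (N0 := 3) (En := eng) (mo := mog) (C1 := cd1q2b) (C2 := cd5q0) (C3 := pd3)
    rfl k0_pp_203_b

noncomputable def f_pp_213_a : ℕ → ℕ → ℕ → ℕ → Bool := onCell 0 536870912 536870912 536870912 697932185 42949674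
    (rowB 3 eng mog cd1q2a cd5q1 pd3 0 true true true .pnn 2 1 3 (qsf 0 536870912 536870912 536870912 3) ndB1q2a ndB5q1 pcB3 Cut.none Ext.none)

def k0_pp_213_a : ∃ t, chk3 f_pp_213_a t 1 1 1 = true :=
  ⟨(l 4), by decide +kernel⟩

theorem c_pp_213_a : CertB 0 536870912 536870912 536870912 697932185 42949674 3 eng mog cd1q2a cd5q1 pd3 true true true .pnn 2 1 3
    ndB1q2a ndB5q1 pcB3 Cut.none Ext.none :=
  certB0 (fam := true) (s1 := true) (s2 := true) (a := 2) (b := 1) (c := 3) (cn := .pnn) (n1 := ndB1q2a) (n2 := ndB5q1) (pc := pcB3) (cut := Cut.none) (xt := Ext.none) (P1 := 0) (W1 := 536870912) (P2 := 536870912) (W2 := 536870912) (P3 := 697932185) (W3 := 42949674) (N0 := 3) (En := eng) (mo := mog) (C1 := cd1q2a) (C2 := cd5q1) (C3 := pd3)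
    rfl k0_pp_213_a

noncomputable def f_pp_213_b : ℕ → ℕ → ℕ → ℕ → Bool := onCell 1239849684 370763052 536870912 536870912 697932185 42949674
    (rowB 3 eng mog cd1q2b cd5q1 pd3 0 true true true .pnn 2 1 3 (qsf 1239849684 370763052 536870912 536870912 3) ndB1q2b ndB5q1 pcB3 Cut.none Ext.none)

def k0_pp_213_b : ∃ t, chk3 f_pp_213_b t 1 1 1 = true :=
  ⟨(l 4), by decide +kernel⟩

theorem c_pp_213_b : CertB 1239849684 370763052 536870912 536870912 697932185 42949674 3 eng mog cd1q2b cd5q1 pd3 true true true .pnn 2 1 3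
    ndB1q2b ndB5q1 pcB3 Cut.none Ext.none :=
  certB0 (fam := true) (s1 := true) (s2 := true) (a := 2) (b := 1) (c := 3) (cn := .pnn) (n1 := ndB1q2b) (n2 := ndB5q1) (pc := pcB3) (cut := Cut.none) (xt := Ext.none) (P1 := 1239849684) (W1 := 370763052) (P2 := 536870912) (W2 := 536870912) (P3 := 697932185) (W3 := 42949674) (N0 := 3) (En := eng) (mo := mog) (C1 := cd1q2b) (C2 := cd5q1) (C3 := pd3)
    rfl k0_pp_213_b

noncomputable def f_pp_303 : ℕ → ℕ → ℕ → ℕ → Bool := onCell 1610612736 536870912 0 536870912 697932185 42949674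
    (rowB 3 eng mog cd1q3 cd5q0 pd3 0 true true true .npn 3 0 3 (qsf 1610612736 536870912 0 536870912 3) ndB1q3 ndB5q0 pcB3 Cut.none Ext.none)

def k0_pp_303 : ∃ t, chk3 f_pp_303 t 1 1 1 = true :=
  ⟨(l 5), by decide +kernel⟩

theorem c_pp_303 : CertB 1610612736 536870912 0 536870912 697932185 42949674 3 eng mog cd1q3 cd5q0 pd3 true true true .npn 3 0 3
    ndB1q3 ndB5q0 pcB3 Cut.none Ext.none :=
  certB0 (fam := true) (s1 := true) (s2 := true) (a := 3) (b := 0) (c := 3) (cn := .npn) (n1 := ndB1q3) (n2 := ndB5q0) (pc := pcB3) (cut := Cut.none) (xt := Ext.none) (P1 := 1610612736) (W1 := 536870912) (P2 := 0) (W2 := 536870912) (P3 := 697932185) (W3 := 42949674) (N0 := 3) (En := eng) (mo := mog) (C1 := cd1q3) (C2 := cd5q0) (C3 := pd3)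
    rfl k0_pp_303

noncomputable def f_pp_313 : ℕ → ℕ → ℕ → ℕ → Bool := onCell 1610612736 536870912 536870912 536870912 697932185 42949674
    (rowB 3 eng mog cd1q3 cd5q1 pd3 0 true true true .dn 3 1 3 (qsf 1610612736 536870912 536870912 536870912 3) ndB1q3 ndB5q1 pcB3 Cut.none Ext.none)

def k0_pp_313 : ∃ t, chk3 f_pp_313 t 1 1 1 = true :=
  ⟨(l 4), by decide +kernel⟩

theorem c_pp_313 : CertB 1610612736 536870912 536870912 536870912 697932185 42949674 3 eng mog cd1q3 cd5q1 pd3 true true true .dn 3 1 3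
    ndB1q3 ndB5q1 pcB3 Cut.none Ext.none :=
  certB0 (fam := true) (s1 := true) (s2 := true) (a := 3) (b := 1) (c := 3) (cn := .dn) (n1 := ndB1q3) (n2 := ndB5q1) (pc := pcB3) (cut := Cut.none) (xt := Ext.none) (P1 := 1610612736) (W1 := 536870912) (P2 := 536870912) (W2 := 536870912) (P3 := 697932185) (W3 := 42949674) (N0 := 3) (En := eng) (mo := mog) (C1 := cd1q3) (C2 := cd5q1) (C3 := pd3)
    rfl k0_pp_313

noncomputable def f_pm_001 : ℕ → ℕ → ℕ → ℕ → Bool := onCell 0 536870912 536870912 536870912 697932185 42949674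
    (rowB 3 eng mog cd1q0 cd5q0 pd1 1 true true false .up 0 0 1 (qsf 0 536870912 0 536870912 1) ndB1q0 ndB5q0 pcB1 Cut.none Ext.none)

def k0_pm_001 : ∃ t, chk3 f_pm_001 t 1 1 1 = true :=
  ⟨(b (l 3) (b (l 3) (a (l 2) (b (l 3) (a (l 2) (b (l 3) (a (l 2) (c (l 49022444903) (l 16474488))))))))), by decide +kernel⟩

theorem c_pm_001 : CertB 0 536870912 0 536870912 697932185 42949674 3 eng mog cd1q0 cd5q0 pd1 true true false .up 0 0 1
    ndB1q0 ndB5q0 pcB1 Cut.none Ext.none :=
  certB1 (fam := true) (s1 := true) (s2 := false) (a := 0) (b := 0) (c := 1) (cn := .up) (n1 := ndB1q0) (n2 := ndB5q0) (pc := pcB1) (cut := Cut.none) (xt := Ext.none) (P1 := 0) (W1 := 536870912) (P2 := 0) (W2 := 536870912) (P3 := 697932185) (W3 := 42949674) (N0 := 3) (En := eng) (mo := mog) (C1 := cd1q0) (C2 := cd5q0) (C3 := pd1)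
    rfl (fun _ => rfl) k0_pm_001

noncomputable def cut_pm_011 : Cut := Cut.of [[⟨0, 0, 0, 67108864⟩, ⟨1, 1, 0, 67108864⟩, ⟨2, 1, 0, 67108864⟩]]

noncomputable def f_pm_011 : ℕ → ℕ → ℕ → ℕ → Bool := onCell 0 536870912 536870912 536870912 697932185 42949674
    (rowB 3 eng mog cd1q0 cd5q1 pd1 1 true true false .pnn 0 1 1 (qsf 0 536870912 536870912 536870912 1) ndB1q0 ndB5q1 pcB1 cut_pm_011 Ext.none)

def k0_pm_011 : ∃ t, chk3 f_pm_011 t 1 1 1 = true :=
  ⟨(b (l 3) (b (l 3) (b (l 3) (a (b (l 3) (b (l 3) (a (b (l 3) (b (l 3) (a (a (l 6) (a (l 6) (l 16714632))) (a (l 16707944) (l 16653960))))) (b (l 3) (a (a (l 16609840) (l 16600112)) (l 16549448)))))) (b (l 3) (a (b (l 3) (a (l 16513064) (l 16422440))) (a (b (l 16386072) (l 16354240)) (l 16432648)))))))), by decide +kernel⟩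

theorem c_pm_011 : CertB 0 536870912 536870912 536870912 697932185 42949674 3 eng mog cd1q0 cd5q1 pd1 true true false .pnn 0 1 1
    ndB1q0 ndB5q1 pcB1 cut_pm_011 Ext.none :=
  certB1 (fam := true) (s1 := true) (s2 := false) (a := 0) (b := 1) (c := 1) (cn := .pnn) (n1 := ndB1q0) (n2 := ndB5q1) (pc := pcB1) (cut := cut_pm_011) (xt := Ext.none) (P1 := 0) (W1 := 536870912) (P2 := 536870912) (W2 := 536870912) (P3 := 697932185) (W3 := 42949674) (N0 := 3) (En := eng) (mo := mog) (C1 := cd1q0) (C2 := cd5q1) (C3 := pd1)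
    rfl (fun _ => rfl) k0_pm_011

noncomputable def cut_pm_012 : Cut := Cut.of [[⟨0, 0, 0, 67108864⟩, ⟨1, 1, 0, 67108864⟩, ⟨2, 1, 0, 67108864⟩]]

noncomputable def xt_pm_012 : Ext := extD2 3 ⟨7, 3, 3, 10, 49, 25, 3, 4, 67, 200, 3, 16⟩ eng cd1q0 cd5q1 pd2 true true false .pnp 0 1 2 rfl ndB1q0 ndB5q1 pcB2

noncomputable def f_pm_012 : ℕ → ℕ → ℕ → ℕ → Bool := onCell 1073741824 536870912 536870912 536870912 697932185 42949674
    (rowB 3 eng mog cd1q0 cd5q1 pd2 2 true true false .pnp 0 1 2 (qsf 0 536870912 536870912 536870912 2) ndB1q0 ndB5q1 pcB2 cut_pm_012 xt_pm_012)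

def k0_pm_012 : ∃ t, chk3 f_pm_012 t 4 1 1 = true :=
  ⟨(a (b (b (b (l 16292992) (a (l 16314744) (l 16276856))) (b (a (l 16379472) (l 16389344)) (a (l 16523944) (b (l 16359504) (l 16381096))))) (b (b (b (a (l 16486792) (l 16403184)) (a (l 16539176) (l 16425920))) (a (b (l 16631856) (a (l 16608088) (l 595144563623358282084159))) (b (l 16574928) (a (l 16501696) (l 16450936))))) (a (b (a (a (b (l 16643024) (c (l 16680744) (l 16674248))) (b (l 16629760) (l 16659800))) (b (l 16586856) (b (l 16611912) (l 16626800)))) (a (b (a (b (l 16705064) (l 6)) (b (l 16683992) (l 16696864))) (l 6)) (b (b (l 16639256) (a (l 16687144) (l 16635824))) (b (a (l 6) (b (l 16644080) (l 6))) (l 6))))) (b (b (a (l 16530400) (l 16475808)) (a (b (l 16552504) (l 16567328)) (l 16501224))) (b (b (a (l 16580312) (l 16520624)) (a (l 16614432) (l 16531672))) (b (a (a (l 16636920) (l 16585400)) (l 16574336)) (a (b (a (l 6) (l 16592208)) (l 6)) (b (l 16546144) (a (l 16565448) (l 16534624))))))))))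 (b (b (b (a (l 16190352) (l 2)) (a (l 16239088) (l 16202344))) (b (a (l 16276240) (l 16229584)) (a (l 16306184) (l 16247928)))) (b (b (a (b (l 16326392) (l 16340200)) (b (l 16257488) (l 16262904))) (a (b (l 16355208) (l 16397368)) (b (l 16269256) (l 16282720)))) (b (a (b (l 16460328) (a (l 16444488) (l 16389824))) (b (l 16402824) (a (l 16337216) (l 16286488)))) (a (b (a (b (l 16460896) (l 16471856)) (l 16407568)) (b (a (l 16501904) (l 16421016)) (a (b (l 16486016) (l 16489000)) (b (l 16426824) (l 16429528))))) (b (a (l 16350776) (l 16296016)) (a (b (l 16361120) (l 16367960)) (b (l 16303056) (l 16307792))))))))), by decide +kernel⟩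

def k1_pm_012 : ∃ t, chk3 f_pm_012 t 5 1 1 = true :=
  ⟨(b (a (b (a (a (l 16138048) (l 2)) (l 2)) (a (a (b (l 16197384) (l 16208312)) (a (l 16271856) (b (l 16179832) (l 16183480)))) (b (l 16158152) (l 16156384)))) (b (l 2) (b (l 16142728) (l 16119816)))) (b (a (a (b (a (l 16211168) (a (l 16188744) (a (l 16178424) (l 16173400)))) (a (l 16214512) (a (l 16186040) (b (l 16189400) (l 16316080))))) (b (l 16143552) (b (l 16128464) (l 16124272)))) (b (l 16085128) (a (l 16069264) (l 16022872)))) (a (b (a (a (b (l 16227592) (l 16236928)) (a (l 16218336) (a (l 16180224) (b (l 16167080) (l 16169872))))) (b (l 16142784) (a (l 16141608) (l 16098192)))) (a (a (b (l 16243176) (b (l 16246824) (l 16249216))) (b (a (l 16204712) (a (l 16185496) (a (l 16175504) (l 16168312)))) (a (l 16206032) (a (l 16184896) (a (l 16173736) (b (l 16166328) (l 16164632))))))) (b (a (l 16140896) (l 16093256)) (a (b (l 16137952) (l 16134984)) (l 16127680))))) (b (b (a (l 16050672) (l 15992000))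 (a (l 16038512) (l 15970536))) (b (a (l 16026040) (l 15948328)) (a (b (l 16016232) (l 16092760)) (b (l 15931120) (l 15919336)))))))), by decide +kernel⟩

def k2_pm_012 : ∃ t, chk3 f_pm_012 t 3 1 1 = true :=
  ⟨(b (a (b (l 2) (a (b (l 2) (l 16099680)) (l 2))) (l 2)) (a (b (a (b (l 16039040) (l 16013664)) (b (l 16027776) (l 15937896))) (b (a (a (l 15930640) (l 15891000)) (l 16019664)) (a (b (a (l 15884448) (l 15833928)) (a (b (l 15860184) (l 15843656)) (l 15793176))) (b (l 15780904) (a (l 15747848) (l 15715120)))))) (b (a (b (l 2) (l 15945504)) (l 2)) (a (b (l 15839048) (a (l 15725040) (l 15719800))) (b (l 15872456) (b (l 15770928) (l 15698320))))))), by decide +kernel⟩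

theorem s3_pm_012 : ∃ t, chk3 f_pm_012 t 2 1 1 = true := ex3_a k0_pm_012 k1_pm_012

theorem s4_pm_012 : ∃ t, chk3 f_pm_012 t 1 1 1 = true := ex3_a s3_pm_012 k2_pm_012

theorem c_pm_012 : CertB 0 536870912 536870912 536870912 697932185 42949674 3 eng mog cd1q0 cd5q1 pd2 true true false .pnp 0 1 2
    ndB1q0 ndB5q1 pcB2 cut_pm_012 xt_pm_012 :=
  certB2 (fam := true) (s1 := true) (s2 := false) (a := 0) (b := 1) (c := 2) (cn := .pnp) (n1 := ndB1q0) (n2 := ndB5q1) (pc := pcB2) (cut := cut_pm_012) (xt := xt_pm_012) (P1 := 0) (W1 := 536870912) (P2 := 536870912) (W2 := 536870912) (P3 := 697932185) (W3 := 42949674) (N0 := 3) (En := eng) (mo := mog) (C1 := cd1q0) (C2 := cd5q1) (C3 := pd2)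
    rfl (fun _ => rfl) s4_pm_012

noncomputable def f_pm_022 : ℕ → ℕ → ℕ → ℕ → Bool := onCell 0 536870912 1073741824 536870912 697932185 42949674
    (rowB 3 eng mog cd1q0 cd5q2 pd2 1 true true false .pp 0 2 2 (qsf 0 536870912 1073741824 536870912 2) ndB1q0 ndB5q2 pcB2 Cut.none Ext.none)

def k0_pm_022 : ∃ t, chk3 f_pm_022 t 2 2 1 = true :=
  ⟨(b (a (a (a (b (l 3) (l 3)) (l 3)) (l 3)) (l 3)) (a (b (b (b (b (a (a (b (l 16510880) (c (l 16507024) (l 16453472))) (b (l 16533608) (l 16524696))) (a (b (l 16555032) (l 16546384)) (b (l 16566552) (l 16559168)))) (b (a (a (l 16494288) (l 16516920)) (a (l 16538312) (l 16551760))) (a (a (l 16487536) (l 16510224)) (l 16601144)))) (a (b (a (b (l 16479632) (l 16470896)) (l 16498144)) (b (a (l 16462424) (l 16485352)) (b (a (l 16455832) (l 16478888)) (a (c (l 16456776) (l 16443304)) (l 16473864))))) (a (b (l 16519664) (b (l 16506864) (b (l 16500584) (l 16495688)))) (b (l 16530968) (b (l 16520376) (b (l 16514816) (l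 16511768))))))) (a (a (a (b (l 16425984) (a (l 16383032) (l 16394288))) (l 16442720)) (l 16439336)) (a (l 16461488) (l 16479224)))) (a (a (b (a (b (a (l 16336256) (l 16350856)) (l 16299520)) (b (l 16368616) (l 16326976))) (a (l 16239952) (l 16266968))) (b (a (l 16408216) (l 16380280)) (b (a (l 16310312) (l 16329648)) (l 16283688)))) (a (b (l 16397216) (l 16332376)) (l 16451056)))) (a (b (b (b (b (b (l 196527880759) (l 197064757159)) (b (l 192232895303) (l 184179809591))) (b (a (l 16534064) (l 1)) (b (a (l 16524112) (l 1)) (b (l 170758007095) (a (l 16515880) (l 16579328)))))) (a (l 16484960) (l 16508008))) (b (a (l 16427176) (l 16432288)) (l 16375096))) (b (b (l 1) (a (l 150893871911) (l 1))) (a (b (l 16433832) (l 16383312)) (b (l 218002610727) (l 16382024))))))), by decide +kernel⟩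

def k1_pm_022 : ∃ t, chk3 f_pm_022 t 2 3 1 = true :=
  ⟨(b (a (b (b (a (a (b (l 16201920) (l 16172328)) (l 16233856)) (a (b (l 16284248) (l 16254448)) (l 16294872))) (a (a (a (l 16123760) (l 16148144)) (l 16181328)) (a (l 16216736) (l 16241872)))) (a (a (b (a (l 16086808) (l 16109512)) (a (l 16060776) (l 16081696))) (b (l 16140920) (l 16111048))) (a (l 16200744) (b (l 16201800) (l 16171432))))) (b (a (b (l 16320272) (a (l 16258520) (l 16271024))) (a (b (l 16333560) (l 16282728)) (b (l 16336760) (l 16290816)))) (a (b (a (l 16217312) (l 16221080)) (a (l 16189600) (l 16188312))) (a (b (l 16233168) (l 16189096)) (l 16224832))))) (a (b (a (b (a (b (l 16058464) (l 16053504)) (l 16091472)) (a (a (c (l 16079704) (l 16009376)) (l 16059824)) (l 16082880))) (b (l 16179688) (l 16125216))) (a (b (a (a (b (l 16051960) (l 16062048)) (l 16068344)) (l 16086592)) (a (a (b (l 16076368) (l 16093184)) (l 16092040)) (l 16104384))) (a (l 16114160) (l 16136192)))) (b (a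 (b (l 16174528) (l 16165600)) (b (a (l 16163736) (l 16166648)) (a (l 16146688) (l 16150448)))) (a (a (l 16159296) (l 16170280)) (b (l 16140632) (l 16161152)))))), by decide +kernel⟩

def k2_pm_022 : ∃ t, chk3 f_pm_022 t 3 1 1 = true :=
  ⟨(b (b (l 1) (b (l 1) (a (a (b (l 1) (l 210486288951)) (l 1)) (l 1)))) (b (a (b (a (b (a (l 16335128) (l 196527605303)) (l 135861126503)) (b (l 1) (l 169684016391))) (a (b (l 16257648) (l 16222632)) (a (l 16351216) (l 150356587767)))) (b (l 1) (a (l 214244331463) (l 1)))) (a (a (b (a (b (l 16181768) (l 16152280)) (l 16181288)) (b (a (l 16145232) (l 16144616)) (a (l 16148592) (l 16145960)))) (b (b (l 16209120) (l 16186136)) (b (l 16165192) (l 16149448)))) (b (a (l 150356583111) (l 223907982359)) (a (l 16181064) (l 149282822199)))))), by decide +kernel⟩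

theorem s3_pm_022 : ∃ t, chk3 f_pm_022 t 2 1 1 = true := ex3_b k0_pm_022 k1_pm_022

theorem s4_pm_022 : ∃ t, chk3 f_pm_022 t 1 1 1 = true := ex3_a s3_pm_022 k2_pm_022

theorem c_pm_022 : CertB 0 536870912 1073741824 536870912 697932185 42949674 3 eng mog cd1q0 cd5q2 pd2 true true false .pp 0 2 2
    ndB1q0 ndB5q2 pcB2 Cut.none Ext.none :=
  certB1 (fam := true) (s1 := true) (s2 := false) (a := 0) (b := 2) (c := 2) (cn := .pp) (n1 := ndB1q0) (n2 := ndB5q2) (pc := pcB2) (cut := Cut.none) (xt := Ext.none) (P1 := 0) (W1 := 536870912) (P2 := 1073741824) (W2 := 536870912) (P3 := 697932185) (W3 := 42949674) (N0 := 3) (En := eng) (mo := mog) (C1 := cd1q0) (C2 := cd5q2) (C3 := pd2)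
    rfl (fun _ => rfl) s4_pm_022

noncomputable def f_pm_023 : ℕ → ℕ → ℕ → ℕ → Bool := onCell 1610612736 536870912 1073741824 536870912 697932185 42949674
    (rowB 3 eng mog cd1q0 cd5q2 pd3 2 true true false .up 0 2 3 (qsf 0 536870912 1073741824 536870912 3) ndB1q0 ndB5q2 pcB3 Cut.none Ext.none)

def k0_pm_023 : ∃ t, chk3 f_pm_023 t 1 1 1 = true :=
  ⟨(a (a (b (b (a (b (l 16198856) (l 16165312)) (l 16369912)) (b (a (l 16136128) (l 16162416)) (a (l 16152856) (l 16191416)))) (b (b (a (l 16180008) (l 16160912)) (a (l 16205248) (l 16245232))) (a (b (l 16177824) (a (b (l 16130712) (l 16115856)) (l 16158992))) (b (l 16247472) (l 16216104))))) (b (b (a (l 16295088) (l 2)) (a (b (l 16217632) (l 16246840)) (b (l 16303704) (l 16325312)))) (a (b (a (l 16184792) (l 16235552)) (a (b (l 16292104) (l 16272240)) (l 16329384))) (a (b (b (l 16310936) (l 16300144)) (b (l 16358232) (l 16369000))) (b (l 16376680) (l 16407288)))))) (b (a (b (l 2) (a (b (l 2) (l 16429000))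 (l 2))) (l 2)) (b (a (a (b (l 16476288) (l 16483440)) (l 281421120791)) (a (l 470399694775) (l 2))) (a (a (b (l 16482096) (l 16482296)) (a (l 16558224) (l 16372120))) (a (a (l 16638856) (l 16634496)) (a (l 16710056) (a (l 16741576) (a (l 16738456) (l 4))))))))), by decide +kernel⟩

theorem c_pm_023 : CertB 0 536870912 1073741824 536870912 697932185 42949674 3 eng mog cd1q0 cd5q2 pd3 true true false .up 0 2 3
    ndB1q0 ndB5q2 pcB3 Cut.none Ext.none :=
  certB2 (fam := true) (s1 := true) (s2 := false) (a := 0) (b := 2) (c := 3) (cn := .up) (n1 := ndB1q0) (n2 := ndB5q2) (pc := pcB3) (cut := Cut.none) (xt := Ext.none) (P1 := 0) (W1 := 536870912) (P2 := 1073741824) (W2 := 536870912) (P3 := 697932185) (W3 := 42949674) (N0 := 3) (En := eng) (mo := mog) (C1 := cd1q0) (C2 := cd5q2) (C3 := pd3)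
    rfl (fun _ => rfl) k0_pm_023

noncomputable def f_pm_033 : ℕ → ℕ → ℕ → ℕ → Bool := onCell 1610612736 536870912 0 1230186008 697932185 42949674
    (rowB 3 eng mog cd1q0 cd5q3 pd3 2 true true false .pnn 0 3 3 (qsf 0 536870912 0 1230186008 3) ndB1q0 ndB5q3 pcB3 Cut.none Ext.none)

def k0_pm_033 : ∃ t, chk3 f_pm_033 t 2 2 1 = true :=
  ⟨(l 1), by decide +kernel⟩

def k1_pm_033 : ∃ t, chk3 f_pm_033 t 2 6 1 = true :=
  ⟨(b (l 1) (a (l 1) (b (l 1) (a (l 1) (a (l 1) (l 336650480407)))))), by decide +kernel⟩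

def k2_pm_033 : ∃ t, chk3 f_pm_033 t 2 7 1 = true :=
  ⟨(b (a (l 1) (a (b (b (l 1) (a (l 1) (b (l 1) (a (l 1) (b (l 1) (c (l 15883120) (l 256655791847))))))) (a (b (l 1) (a (b (l 1) (l 15946312)) (b (l 315175182823) (l 15986416)))) (b (a (b (l 1) (l 15910336)) (b (c (l 15911184) (l 205116277831)) (l 194915909975))) (b (a (l 15979072) (l 15955760)) (l 15989624))))) (b (a (b (a (l 1) (a (l 1) (l 16082360))) (a (b (a (l 1) (b (l 1) (c (l 16028608) (l 15936288)))) (a (c (l 248602955655) (b (l 15783176) (l 15730424))) (b (l 15934568) (l 15896704)))) (b (a (c (b (l 16106944) (l 16078792)) (l 16040600)) (l 16089616)) (a (b (c (l 16046960) (l 15955616)) (l 15945192)) (l 15990328))))) (b (l 16094688) (b (b (l 16119744) (l 16084648)) (b (l 16045792) (l 16015568))))) (a (b (a (a (b (a (l 15833432) (l 15868416)) (c (l 15975400) (l 15833032))) (b (l 15928824) (l 15983144))) (a (b (l 15999264) (l 16054616)) (l 16055264))) (a (b (a (l 15965528) (l 16040368)) (a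 (l 15965520) (l 16036040))) (b (a (l 16112824) (l 16140088)) (l 16122648)))) (b (l 16071800) (b (l 16150448) (l 16150536))))))) (a (a (b (l 1) (a (b (l 1) (a (l 236792297991) (l 238403095287))) (b (l 370473258535) (l 16158776)))) (b (b (b (l 333965616231) (l 337723972855)) (l 343092759431)) (b (l 16141160) (l 16211992)))) (a (b (b (a (b (a (l 15963120) (l 15999824)) (l 16027968)) (b (l 15986080) (l 16041272))) (a (l 16098640) (l 16120416))) (a (a (l 16216280) (l 16247136)) (l 16271696))) (b (a (b (a (b (l 16013808) (l 16063672)) (b (l 16131712) (l 16175496))) (a (l 16146888) (l 16244608))) (b (l 16188072) (l 16279248))) (a (a (l 16307336) (l 16372536)) (l 16408656)))))), by decide +kernel⟩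

def k3_pm_033 : ∃ t, chk3 f_pm_033 t 3 1 1 = true :=
  ⟨(a (b (l 1) (b (a (b (l 1) (a (b (l 15968192) (l 16057760)) (b (l 16045608) (l 16120720)))) (b (a (l 367789176247) (b (l 4) (l 16140032))) (a (l 16159592) (l 16444832)))) (b (b (a (b (l 16345992) (b (a (l 16136304) (l 16188088)) (a (l 16158776) (l 16136840)))) (b (a (l 16248888) (l 16326024)) (b (a (l 16257512) (l 16335832)) (a (l 16213152) (l 16295880))))) (a (b (b (l 16119368) (l 16164136)) (b (l 16212224) (l 16216792))) (b (a (l 16247168) (l 16326096)) (a (l 16309264) (l 16381824))))) (b (a (b (l 16251304) (l 16337912)) (b (a (l 16341720) (l 16416432)) (l 16454768))) (a (l 16464952) (a (l 16528936) (l 16582496))))))) (b (b (l 4) (l 4)) (b (a (b (l 4) (a (a (l 16282712) (l 16306968)) (l 4))) (l 4)) (b (a (b (a (b (l 16397488) (b (l 16409168) (l 16372840))) (b (l 4) (b (l 4) (l 16437328)))) (a (b (l 16403976) (l 16461216)) (b (l 16472616) (l 16531576)))) (l 4)) (a (b (b (a (l 16493592) (l 16562984))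 (a (l 16554920) (l 16622176))) (a (l 16644880) (l 16690832))) (a (b (b (l 4) (l 16654176)) (l 16754272)) (l 4))))))), by decide +kernel⟩

theorem s4_pm_033 : ∃ t, chk3 f_pm_033 t 2 3 1 = true := ex3_b k1_pm_033 k2_pm_033

theorem s5_pm_033 : ∃ t, chk3 f_pm_033 t 2 1 1 = true := ex3_b k0_pm_033 s4_pm_033

theorem s6_pm_033 : ∃ t, chk3 f_pm_033 t 1 1 1 = true := ex3_a s5_pm_033 k3_pm_033

theorem c_pm_033 : CertB 0 536870912 0 1230186008 697932185 42949674 3 eng mog cd1q0 cd5q3 pd3 true true false .pnn 0 3 3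
    ndB1q0 ndB5q3 pcB3 Cut.none Ext.none :=
  certB2 (fam := true) (s1 := true) (s2 := false) (a := 0) (b := 3) (c := 3) (cn := .pnn) (n1 := ndB1q0) (n2 := ndB5q3) (pc := pcB3) (cut := Cut.none) (xt := Ext.none) (P1 := 0) (W1 := 536870912) (P2 := 0) (W2 := 1230186008) (P3 := 697932185) (W3 := 42949674) (N0 := 3) (En := eng) (mo := mog) (C1 := cd1q0) (C2 := cd5q3) (C3 := pd3)
    rfl (fun _ => rfl) s6_pm_033

noncomputable def f_pm_101 : ℕ → ℕ → ℕ → ℕ → Bool := onCell 536870912 536870912 0 536870912 697932185 42949674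
    (rowB 3 eng mog cd1q1 cd5q0 pd1 2 true true false .npn 1 0 1 (qsf 536870912 536870912 0 536870912 1) ndB1q1 ndB5q0 pcB1 Cut.none Ext.none)

def k0_pm_101 : ∃ t, chk3 f_pm_101 t 1 1 1 = true :=
  ⟨(a (l 3) (a (l 3) (b (a (l 3) (b (b (a (a (l 3) (b (l 16721688) (l 16736520))) (a (l 16692824) (l 16659920))) (a (a (l 3) (b (l 16751752) (l 16767616))) (a (b (l 16691944) (l 16705840)) (l 16682864)))) (a (a (l 3) (b (a (b (l 928417840615) (l 3)) (b (l 73182408167) (l 16760992))) (b (l 65665817143) (l 16595928)))) (a (b (b (l 16824672) (l 16758568)) (b (l 16635960) (l 16562528))) (b (b (l 16658616) (l 16635656)) (b (l 16582072) (l 16508936))))))) (a (l 3) (a (b (b (b (a (l 3) (l 16515080)) (l 3)) (l 3)) (l 3)) (b (b (b (a (l 16480600) (l 16425368)) (b (b (l 16396968) (b (l 16426640) (l 16412920))) (b (l 16447136) (c (l 103246582359) (l 16468568))))) (b (b (a (l 16445552) (l 16387744)) (b (l 16331824) (l 16286728))) (b (b (l 100024874279) (l 16269472))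 (a (l 16344072) (l 16290544))))) (b (a (l 16315400) (l 16265816)) (a (l 16349168) (l 16262536))))))))), by decide +kernel⟩

theorem c_pm_101 : CertB 536870912 536870912 0 536870912 697932185 42949674 3 eng mog cd1q1 cd5q0 pd1 true true false .npn 1 0 1
    ndB1q1 ndB5q0 pcB1 Cut.none Ext.none :=
  certB2 (fam := true) (s1 := true) (s2 := false) (a := 1) (b := 0) (c := 1) (cn := .npn) (n1 := ndB1q1) (n2 := ndB5q0) (pc := pcB1) (cut := Cut.none) (xt := Ext.none) (P1 := 536870912) (W1 := 536870912) (P2 := 0) (W2 := 536870912) (P3 := 697932185) (W3 := 42949674) (N0 := 3) (En := eng) (mo := mog) (C1 := cd1q1) (C2 := cd5q0) (C3 := pd1)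
    rfl (fun _ => rfl) k0_pm_101

end Pool.Agent.Strip051.G.I6500_6900.Tab.C.BA15

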