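import Pool.Agent.Strip051.G.I6500_6900.Tab
import Pool.Agent.Strip051.PB.ExtD2

/-! # Certificates B12 (generated) -/

set_option linter.all false
set_option maxRecDepth 100000

namespace Pool.Agent.Strip051.G.I6500_6900.Tab.C.BA15

open Pool.Agent.Strip051.PB Pool.Agent.Strip051.PB.T
open Pool.Agent.Strip051.G.I6500_6900.Tab

noncomputable def f_pm_102 : ℕ → ℕ → ℕ → ℕ → Bool := onCell 1073741824 536870912 0 536870912 697932185 42949674
    (rowB 3 eng mog cd1q1 cd5q0 pd2 2 true true false .npp 1 0 2 (qsf 536870912 536870912 0 536870912 2) ndB1q1 ndB5q0 pcB2 Cut.none Ext.none)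

def k0_pm_102 : ∃ t, chk3 f_pm_102 t 2 2 1 = true :=
  ⟨(a (b (a (b (a (b (a (l 16562376) (l 16522840)) (a (l 16563760) (l 16541904))) (b (a (l 16482576) (l 2)) (a (l 16503888) (l 16464744)))) (a (b (l 16550824) (l 16560216)) (b (l 16453232) (l 16494232)))) (b (a (b (l 2) (a (l 16425632) (l 2))) (l 2)) (a (b (l 16450592) (l 16471016)) (b (b (l 2) (l 16337784)) (l 16380504))))) (a (b (a (b (l 16570152) (l 16547376)) (b (l 16488944) (l 16463896))) (a (b (l 16501720) (l 16440168)) (l 16399224))) (b (a (b (l 16480936) (l 16426272)) (b (l 16426808) (l 16430480))) (a (l 16353304) (l 16366304))))) (b (a (b (l 2) (a (a (b (l 2) (l 16303032)) (l 2)) (l 2))) (l 2)) (a (a (b (b (a (l 16362144) (l 16356632)) (a (l 16389920) (l 16355640))) (a (l 16368280) (l 16358160))) (b (b (a (l 16269776) (l 2)) (a (l 16314968) (l 16287384))) (b (l 16328224) (l 16330784)))) (b (b (l 2) (a (l 16261680) (l 2))) (a (b (l 16298584) (l 16321856)) (l 16290248)))))), by decide +kernel⟩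

def k1_pm_102 : ∃ t, chk3 f_pm_102 t 2 3 1 = true :=
  ⟨(a (b (b (b (a (a (l 16361744) (l 16313960)) (l 16269792)) (a (b (b (l 16348768) (l 16288984)) (b (l 16328112) (l 16454032))) (b (a (l 16245736) (l 16235288)) (l 16274136)))) (b (a (b (a (l 16324680) (l 16278800)) (a (l 16212032) (l 16182576))) (a (l 16209928) (l 16204280))) (a (b (a (l 16218648) (l 16119400)) (a (l 16227280) (l 16156648))) (b (l 16107888) (l 16142424))))) (a (b (a (l 16210496) (l 16140912)) (l 16375712)) (b (l 16104440) (l 16138976)))) (b (b (b (a (a (l 16311400) (l 16311024)) (l 16328568)) (a (a (b (l 16428104) (a (l 16267072) (l 16296392))) (b (l 16292352) (l 16315272))) (b (l 16329560) (l 16360064)))) (a (b (a (a (l 16217080) (l 16246560)) (l 16269528)) (a (a (l 16176752) (b (l 16200080) (l 16200552))) (l 16331360))) (b (l 16335712) (l 16332072)))) (a (a (a (l 16136016) (b (l 16168816) (l 16150384))) (b (l 16186384) (l 16152440))) (b (l 16282320) (l 16227728))))), by decide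 +kernel⟩

def k2_pm_102 : ∃ t, chk3 f_pm_102 t 3 1 1 = true :=
  ⟨(b (a (b (l 2) (b (l 2) (a (a (l 16266568) (l 2)) (l 2)))) (l 2)) (b (b (a (a (b (l 16311472) (b (l 16333408) (l 16359272))) (b (l 2) (a (l 16497768) (l 2)))) (l 2)) (a (b (a (l 16366176) (l 16364392)) (a (l 16370080) (l 16390488))) (a (b (l 2) (l 16665856)) (l 2)))) (a (a (b (l 16369160) (l 16325448)) (b (l 16415112) (l 16407480))) (a (b (l 16450872) (l 16475736)) (b (a (l 16479856) (l 2)) (l 16551728)))))), by decide +kernel⟩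

theorem s3_pm_102 : ∃ t, chk3 f_pm_102 t 2 1 1 = true := ex3_b k0_pm_102 k1_pm_102

theorem s4_pm_102 : ∃ t, chk3 f_pm_102 t 1 1 1 = true := ex3_a s3_pm_102 k2_pm_102

theorem c_pm_102 : CertB 536870912 536870912 0 536870912 697932185 42949674 3 eng mog cd1q1 cd5q0 pd2 true true false .npp 1 0 2
    ndB1q1 ndB5q0 pcB2 Cut.none Ext.none :=
  certB2 (fam := true) (s1 := true) (s2 := false) (a := 1) (b := 0) (c := 2) (cn := .npp) (n1 := ndB1q1) (n2 := ndB5q0) (pc := pcB2) (cut := Cut.none) (xt := Ext.none) (P1 := 536870912) (W1 := 536870912) (P2 := 0) (W2 := 536870912) (P3 := 697932185) (W3 := 42949674) (N0 := 3) (En := eng) (mo := mog) (C1 := cd1q1) (C2 := cd5q0) (C3 := pd2)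
    rfl (fun _ => rfl) s4_pm_102

noncomputable def f_pm_112 : ℕ → ℕ → ℕ → ℕ → Bool := onCell 536870912 536870912 1073741824 536870912 697932185 42949674
    (rowB 3 eng mog cd1q1 cd5q1 pd2 1 true true false .dn 1 1 2 (qsf 536870912 536870912 536870912 536870912 2) ndB1q1 ndB5q1 pcB2 Cut.none Ext.none)

def k0_pm_112 : ∃ t, chk3 f_pm_112 t 1 1 1 = true :=
  ⟨(a (b (b (b (a (a (l 16267712) (l 16203232)) (l 1)) (a (b (l 16165120) (a (l 16197712) (l 16163656))) (a (l 262025308471) (l 1)))) (b (a (b (b (l 16169632) (a (l 16243128) (l 16161768))) (a (l 16158824) (l 16149712))) (b (b (l 16131560) (a (l 16144920) (l 1))) (l 16179640))) (a (a (l 16134496) (l 16155552)) (l 16202592)))) (b (a (b (l 16270096) (a (l 15986608) (l 16075512))) (b (l 16206592) (l 16202288))) (a (a (b (l 15898440) (l 15813968)) (b (l 16010280) (l 15950616))) (b (l 16184232) (l 16169656))))) (b (a (b (l 1) (b (l 1) (l 380674430599))) (l 1)) (b (a (b (l 16295256) (l 16346864)) (b (l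 1) (l 16537888))) (a (b (l 16391432) (l 16444456)) (b (l 16471184) (l 16571576)))))), by decide +kernel⟩

theorem c_pm_112 : CertB 536870912 536870912 536870912 536870912 697932185 42949674 3 eng mog cd1q1 cd5q1 pd2 true true false .dn 1 1 2
    ndB1q1 ndB5q1 pcB2 Cut.none Ext.none :=
  certB1 (fam := true) (s1 := true) (s2 := false) (a := 1) (b := 1) (c := 2) (cn := .dn) (n1 := ndB1q1) (n2 := ndB5q1) (pc := pcB2) (cut := Cut.none) (xt := Ext.none) (P1 := 536870912) (W1 := 536870912) (P2 := 536870912) (W2 := 536870912) (P3 := 697932185) (W3 := 42949674) (N0 := 3) (En := eng) (mo := mog) (C1 := cd1q1) (C2 := cd5q1) (C3 := pd2)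
    rfl (fun _ => rfl) k0_pm_112

noncomputable def f_pm_113 : ℕ → ℕ → ℕ → ℕ → Bool := onCell 536870912 536870912 1610612736 536870912 697932185 42949674
    (rowB 3 eng mog cd1q1 cd5q1 pd3 1 true true false .nn 1 1 3 (qsf 536870912 536870912 536870912 536870912 3) ndB1q1 ndB5q1 pcB3 Cut.none Ext.none)

def k0_pm_113 : ∃ t, chk3 f_pm_113 t 1 1 1 = true :=
  ⟨(a (a (b (b (b (a (l 15729720) (l 15902912)) (a (l 325442074535) (l 15748496))) (b (b (b (l 323294590631) (l 2)) (l 2)) (l 2))) (l 2)) (b (b (b (a (l 16076344) (l 16250352)) (l 16063256)) (b (b (a (l 15882200) (l 16112704)) (l 321147776999)) (b (b (l 318463316807) (l 318463219719)) (l 349602203591)))) (b (b (a (l 2) (l 15956312)) (l 2)) (l 2)))) (a (b (b (b (l 16516920) (l 16431640)) (b (b (l 16358368) (l 16316920)) (b (l 16281256) (l 16249728)))) (b (b (a (l 16129744) (l 16285592)) (b (l 16184840) (l 406511133351))) (l 4))) (b (b (b (l 16736088) (l 16733120)) (b (l 16625608) (l 16536096))) (b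 (b (l 16443848) (l 4)) (l 4))))), by decide +kernel⟩

theorem c_pm_113 : CertB 536870912 536870912 536870912 536870912 697932185 42949674 3 eng mog cd1q1 cd5q1 pd3 true true false .nn 1 1 3
    ndB1q1 ndB5q1 pcB3 Cut.none Ext.none :=
  certB1 (fam := true) (s1 := true) (s2 := false) (a := 1) (b := 1) (c := 3) (cn := .nn) (n1 := ndB1q1) (n2 := ndB5q1) (pc := pcB3) (cut := Cut.none) (xt := Ext.none) (P1 := 536870912) (W1 := 536870912) (P2 := 536870912) (W2 := 536870912) (P3 := 697932185) (W3 := 42949674) (N0 := 3) (En := eng) (mo := mog) (C1 := cd1q1) (C2 := cd5q1) (C3 := pd3)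
    rfl (fun _ => rfl) k0_pm_113

noncomputable def f_pm_123 : ℕ → ℕ → ℕ → ℕ → Bool := onCell 1610612736 536870912 1073741824 536870912 697932185 42949674
    (rowB 3 eng mog cd1q1 cd5q2 pd3 2 true true false .npn 1 2 3 (qsf 536870912 536870912 1073741824 536870912 3) ndB1q1 ndB5q2 pcB3 Cut.none Ext.none)

def k0_pm_123 : ∃ t, chk3 f_pm_123 t 1 1 1 = true :=
  ⟨(a (a (b (b (b (a (l 16213656) (l 16267408)) (l 146598671767)) (b (l 144988064167) (l 1))) (l 1)) (b (b (a (l 16458504) (l 16474504)) (a (b (l 16240272) (l 16304200)) (b (l 16329216) (l 16351384)))) (a (l 1) (a (l 1) (b (l 16460928) (l 1)))))) (b (a (b (b (a (l 16596680) (l 16624736)) (a (l 16496048) (l 16536352))) (a (b (l 16423728) (l 16452048)) (b (b (l 16487544) (l 16472800)) (l 16423616)))) (a (b (b (a (l 16628744) (b (l 16649880) (l 16603080))) (l 16570192)) (b (l 16483968) (l 16551560))) (a (b (b (b (l 16425200) (l 16842168)) (b (l 16695312) (l 16538048))) (b (b (l 16514528) (l 16506448))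 (l 16552712))) (a (b (b (l 16666064) (b (l 16595200) (l 16547456))) (b (l 16538080) (l 16547328))) (b (a (b (l 16587104) (l 16591072)) (a (l 16612472) (a (l 16606696) (a (l 486102795655) (l 16720304))))) (a (b (l 16523112) (l 16551472)) (b (a (l 16527520) (a (l 16530192) (b (l 16670368) (l 16754096)))) (a (l 16556904) (a (l 16560896) (l 16670856)))))))))) (a (b (a (b (l 16500456) (l 16537528)) (b (l 16576200) (l 16606912))) (a (l 1) (l 204044738071))) (a (a (b (l 16598464) (l 16669272)) (b (l 16610624) (l 16693704))) (a (b (l 16682064) (l 16723528)) (a (b (l 16635648) (l 16749200)) (a (b (l 16646232) (l 16755024)) (b (a (l 16652688) (l 16762840)) (l 4))))))))), by decide +kernel⟩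

theorem c_pm_123 : CertB 536870912 536870912 1073741824 536870912 697932185 42949674 3 eng mog cd1q1 cd5q2 pd3 true true false .npn 1 2 3
    ndB1q1 ndB5q2 pcB3 Cut.none Ext.none :=
  certB2 (fam := true) (s1 := true) (s2 := false) (a := 1) (b := 2) (c := 3) (cn := .npn) (n1 := ndB1q1) (n2 := ndB5q2) (pc := pcB3) (cut := Cut.none) (xt := Ext.none) (P1 := 536870912) (W1 := 536870912) (P2 := 1073741824) (W2 := 536870912) (P3 := 697932185) (W3 := 42949674) (N0 := 3) (En := eng) (mo := mog) (C1 := cd1q1) (C2 := cd5q2) (C3 := pd3)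
    rfl (fun _ => rfl) k0_pm_123

noncomputable def f_pm_133 : ℕ → ℕ → ℕ → ℕ → Bool := onCell 536870912 536870912 0 1230186008 697932185 42949674
    (rowB 3 eng mog cd1q1 cd5q3 pd3 0 true true false .dn 1 3 3 (qsf 536870912 536870912 0 1230186008 3) ndB1q1 ndB5q3 pcB3 Cut.none Ext.none)

def k0_pm_133 : ∃ t, chk3 f_pm_133 t 1 1 1 = true :=
  ⟨(b (l 2) (b (l 2) (a (l 4) (l 2)))), by decide +kernel⟩

theorem c_pm_133 : CertB 536870912 536870912 0 1230186008 697932185 42949674 3 eng mog cd1q1 cd5q3 pd3 true true false .dn 1 3 3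
    ndB1q1 ndB5q3 pcB3 Cut.none Ext.none :=
  certB0 (fam := true) (s1 := true) (s2 := false) (a := 1) (b := 3) (c := 3) (cn := .dn) (n1 := ndB1q1) (n2 := ndB5q3) (pc := pcB3) (cut := Cut.none) (xt := Ext.none) (P1 := 536870912) (W1 := 536870912) (P2 := 0) (W2 := 1230186008) (P3 := 697932185) (W3 := 42949674) (N0 := 3) (En := eng) (mo := mog) (C1 := cd1q1) (C2 := cd5q3) (C3 := pd3)
    rfl k0_pm_133

noncomputable def f_pm_202_a : ℕ → ℕ → ℕ → ℕ → Bool := onCell 0 536870912 0 536870912 697932185 42949674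
    (rowB 3 eng mog cd1q2a cd5q0 pd2 0 true true false .pp 2 0 2 (qsf 0 536870912 0 536870912 2) ndB1q2a ndB5q0 pcB2 Cut.none Ext.none)

def k0_pm_202_a : ∃ t, chk3 f_pm_202_a t 2 1 1 = true :=
  ⟨(b (b (a (b (b (a (b (l 16372456) (l 16377256)) (b (l 16379024) (a (l 16377080) (l 16378088)))) (a (l 16395344) (l 16393824))) (b (l 16481264) (l 16443232))) (a (b (b (b (a (l 16431592) (l 16399752)) (a (l 16381472) (a (l 16385880) (l 16390248)))) (b (a (l 16387456) (b (l 16385208) (l 16389736))) (l 16398296))) (b (l 16414136) (l 16435272))) (b (b (a (b (l 16411224) (l 16398024)) (b (l 16420376) (l 16405744))) (a (b (b (l 16389488) (l 16472864)) (l 16438152)) (b (l 16393008) (l 16390984)))) (b (a (l 16411192) (b (l 16399528) (l 16409016))) (l 16426616))))) (b (a (b (l 16469760) (a (l 16503568) (l 16491528))) (b (a (l 16457704) (l 16446008)) (a (l 16480096) (l 16463840)))) (a (b (l 16590336) (l 16556016)) (b (a (l 16504224) (l 16483184)) (l 16537104)))))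 (b (a (b (b (l 16583784) (l 4)) (l 4)) (b (b (l 16790304) (b (l 16555304) (l 16660696))) (a (l 4) (b (l 16577416) (l 16593840))))) (l 4))), by decide +kernel⟩

def k1_pm_202_a : ∃ t, chk3 f_pm_202_a t 3 2 1 = true :=
  ⟨(b (a (b (a (b (b (l 16433824) (l 16416704)) (b (l 16401096) (a (l 16388096) (l 16388248)))) (b (a (l 16435824) (l 16443704)) (a (l 16399184) (l 16403176)))) (a (b (a (b (l 16391128) (l 16399152)) (b (l 16381872) (l 16387648))) (a (l 16412128) (l 16398552))) (b (a (b (l 16376592) (l 16373192)) (b (l 16377120) (l 16363656))) (a (l 16384056) (l 16512816))))) (b (a (b (a (l 16453856) (b (l 16482416) (l 16455768))) (a (l 16409360) (l 16420040))) (b (a (b (a (l 16498960) (l 16513064)) (l 16475272)) (a (b (l 16526976) (l 16495216)) (b (l 16541000) (l 16509064)))) (a (l 16434512) (a (l 16450112) (l 16462768))))) (a (b (a (l 16371816) (l 16378840)) (a (b (l 16350920) (l 16350176)) (b (l 16353112) (l 16340968)))) (b (a (l 16389504) (l 16405584))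 (a (l 16353264) (l 16366488)))))) (a (b (a (b (a (l 16429040) (l 16414392)) (l 16434400)) (b (a (l 16397112) (l 16380224)) (a (l 16405696) (l 16384776)))) (a (b (l 16447920) (l 16467240)) (b (l 16403544) (l 16416280)))) (b (a (b (a (l 16361456) (b (l 16340320) (l 16347440))) (l 16483920)) (b (a (b (l 16417616) (a (l 16334168) (l 16328520))) (b (l 16343672) (a (l 16328632) (l 16334360)))) (a (l 16332904) (b (a (l 16322320) (l 16320632)) (l 16320888))))) (a (b (l 16527720) (l 16452512)) (b (a (l 16336784) (l 16325312)) (l 16339384)))))), by decide +kernel⟩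

def k2_pm_202_a : ∃ t, chk3 f_pm_202_a t 3 3 1 = true :=
  ⟨(b (b (a (b (a (l 16490200) (l 16438048)) (b (l 16527920) (l 16528184))) (b (a (l 16511384) (l 16353448)) (a (b (l 16405480) (l 16429904)) (b (a (l 16375584) (l 16368248)) (a (l 16398872) (l 16388984)))))) (a (b (a (l 16544080) (l 16499216)) (a (l 16566288) (l 16528208))) (b (a (l 16450432) (a (l 16420664) (l 16409592))) (a (l 16483984) (l 16702824))))) (a (b (a (b (l 16592728) (l 2)) (l 16576992)) (l 2)) (b (a (l 16541184) (l 16511960)) (a (b (l 16614136) (l 2)) (l 16624880))))), by decide +kernel⟩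

theorem s3_pm_202_a : ∃ t, chk3 f_pm_202_a t 3 1 1 = true := ex3_b k1_pm_202_a k2_pm_202_a

theorem s4_pm_202_a : ∃ t, chk3 f_pm_202_a t 1 1 1 = true := ex3_a k0_pm_202_a s3_pm_202_a

theorem c_pm_202_a : CertB 0 536870912 0 536870912 697932185 42949674 3 eng mog cd1q2a cd5q0 pd2 true true false .pp 2 0 2
    ndB1q2a ndB5q0 pcB2 Cut.none Ext.none :=
  certB0 (fam := true) (s1 := true) (s2 := false) (a := 2) (b := 0) (c := 2) (cn := .pp) (n1 := ndB1q2a) (n2 := ndB5q0) (pc := pcB2) (cut := Cut.none) (xt := Ext.none) (P1 := 0) (W1 := 536870912) (P2 := 0) (W2 := 536870912) (P3 := 697932185) (W3 := 42949674) (N0 := 3) (En := eng) (mo := mog) (C1 := cd1q2a) (C2 := cd5q0) (C3 := pd2)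
    rfl s4_pm_202_a

noncomputable def f_pm_202_b : ℕ → ℕ → ℕ → ℕ → Bool := onCell 1073741824 536870912 0 536870912 697932185 42949674
    (rowB 3 eng mog cd1q2b cd5q0 pd2 2 true true false .pp 2 0 2 (qsf 1239849684 370763052 0 536870912 2) ndB1q2b ndB5q0 pcB2 Cut.none Ext.none)

def k0_pm_202_b : ∃ t, chk3 f_pm_202_b t 1 1 1 = true :=
  ⟨(a (b (a (l 1) (b (a (b (a (b (l 16408720) (l 1)) (a (l 132640234423) (l 16386512))) (l 1)) (b (a (l 16374976) (l 16354808)) (a (l 412350042071) (l 16438968)))) (l 1))) (l 1)) (a (b (b (a (b (l 16292216) (a (l 16427704) (l 16410880))) (a (l 16322544) (l 16276056))) (a (b (a (l 409665795943) (l 16494448)) (l 1)) (b (a (l 16490016) (l 16477000)) (l 4)))) (l 1)) (b (b (a (a (l 16229432) (l 16192576)) (l 16215472)) (l 4)) (l 4)))), by decide +kernel⟩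

theorem c_pm_202_b : CertB 1239849684 370763052 0 536870912 697932185 42949674 3 eng mog cd1q2b cd5q0 pd2 true true false .pp 2 0 2
    ndB1q2b ndB5q0 pcB2 Cut.none Ext.none :=
  certB2 (fam := true) (s1 := true) (s2 := false) (a := 2) (b := 0) (c := 2) (cn := .pp) (n1 := ndB1q2b) (n2 := ndB5q0) (pc := pcB2) (cut := Cut.none) (xt := Ext.none) (P1 := 1239849684) (W1 := 370763052) (P2 := 0) (W2 := 536870912) (P3 := 697932185) (W3 := 42949674) (N0 := 3) (En := eng) (mo := mog) (C1 := cd1q2b) (C2 := cd5q0) (C3 := pd2)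
    rfl (fun _ => rfl) k0_pm_202_b

noncomputable def f_pm_203_a : ℕ → ℕ → ℕ → ℕ → Bool := onCell 0 536870912 1610612736 536870912 697932185 42949674
    (rowB 3 eng mog cd1q2a cd5q0 pd3 1 true true false .up 2 0 3 (qsf 0 536870912 0 536870912 3) ndB1q2a ndB5q0 pcB3 Cut.none Ext.none)

def k0_pm_203_a : ∃ t, chk3 f_pm_203_a t 1 1 1 = true :=
  ⟨(b (a (l 4) (a (b (b (l 16619784) (l 4)) (l 2)) (b (b (l 16697480) (l 16742952)) (l 2)))) (l 2)), by decide +kernel⟩

theorem c_pm_203_a : CertB 0 536870912 0 536870912 697932185 42949674 3 eng mog cd1q2a cd5q0 pd3 true true false .up 2 0 3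
    ndB1q2a ndB5q0 pcB3 Cut.none Ext.none :=
  certB1 (fam := true) (s1 := true) (s2 := false) (a := 2) (b := 0) (c := 3) (cn := .up) (n1 := ndB1q2a) (n2 := ndB5q0) (pc := pcB3) (cut := Cut.none) (xt := Ext.none) (P1 := 0) (W1 := 536870912) (P2 := 0) (W2 := 536870912) (P3 := 697932185) (W3 := 42949674) (N0 := 3) (En := eng) (mo := mog) (C1 := cd1q2a) (C2 := cd5q0) (C3 := pd3)
    rfl (fun _ => rfl) k0_pm_203_a

noncomputable def f_pm_203_b : ℕ → ℕ → ℕ → ℕ → Bool := onCell 1610612736 536870912 0 536870912 697932185 42949674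
    (rowB 3 eng mog cd1q2b cd5q0 pd3 2 true true false .up 2 0 3 (qsf 1239849684 370763052 0 536870912 3) ndB1q2b ndB5q0 pcB3 Cut.none Ext.none)

def k0_pm_203_b : ∃ t, chk3 f_pm_203_b t 1 1 1 = true :=
  ⟨(a (l 4) (l 4)), by decide +kernel⟩

theorem c_pm_203_b : CertB 1239849684 370763052 0 536870912 697932185 42949674 3 eng mog cd1q2b cd5q0 pd3 true true false .up 2 0 3
    ndB1q2b ndB5q0 pcB3 Cut.none Ext.none :=
  certB2 (fam := true) (s1 := true) (s2 := false) (a := 2) (b := 0) (c := 3) (cn := .up) (n1 := ndB1q2b) (n2 := ndB5q0) (pc := pcB3) (cut := Cut.none) (xt := Ext.none) (P1 := 1239849684) (W1 := 370763052) (P2 := 0) (W2 := 536870912) (P3 := 697932185) (W3 := 42949674) (N0 := 3) (En := eng) (mo := mog) (C1 := cd1q2b) (C2 := cd5q0) (C3 := pd3)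
    rfl (fun _ => rfl) k0_pm_203_b

noncomputable def f_pm_213_a : ℕ → ℕ → ℕ → ℕ → Bool := onCell 0 536870912 1610612736 536870912 697932185 42949674
    (rowB 3 eng mog cd1q2a cd5q1 pd3 1 true true false .pnn 2 1 3 (qsf 0 536870912 536870912 536870912 3) ndB1q2a ndB5q1 pcB3 Cut.none Ext.none)

def k0_pm_213_a : ∃ t, chk3 f_pm_213_a t 1 1 1 = true :=
  ⟨(b (a (l 4) (b (b (a (l 1) (l 16712304)) (a (l 4) (l 16678264))) (b (a (l 4) (l 16622096)) (l 4)))) (l 4)), by decide +kernel⟩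

theorem c_pm_213_a : CertB 0 536870912 536870912 536870912 697932185 42949674 3 eng mog cd1q2a cd5q1 pd3 true true false .pnn 2 1 3
    ndB1q2a ndB5q1 pcB3 Cut.none Ext.none :=
  certB1 (fam := true) (s1 := true) (s2 := false) (a := 2) (b := 1) (c := 3) (cn := .pnn) (n1 := ndB1q2a) (n2 := ndB5q1) (pc := pcB3) (cut := Cut.none) (xt := Ext.none) (P1 := 0) (W1 := 536870912) (P2 := 536870912) (W2 := 536870912) (P3 := 697932185) (W3 := 42949674) (N0 := 3) (En := eng) (mo := mog) (C1 := cd1q2a) (C2 := cd5q1) (C3 := pd3)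
    rfl (fun _ => rfl) k0_pm_213_a

noncomputable def f_pm_213_b : ℕ → ℕ → ℕ → ℕ → Bool := onCell 1239849684 370763052 536870912 536870912 697932185 42949674
    (rowB 3 eng mog cd1q2b cd5q1 pd3 0 true true false .pnn 2 1 3 (qsf 1239849684 370763052 536870912 536870912 3) ndB1q2b ndB5q1 pcB3 Cut.none Ext.none)

def k0_pm_213_b : ∃ t, chk3 f_pm_213_b t 1 1 1 = true :=
  ⟨(l 4), by decide +kernel⟩

theorem c_pm_213_b : CertB 1239849684 370763052 536870912 536870912 697932185 42949674 3 eng mog cd1q2b cd5q1 pd3 true true false .pnn 2 1 3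
    ndB1q2b ndB5q1 pcB3 Cut.none Ext.none :=
  certB0 (fam := true) (s1 := true) (s2 := false) (a := 2) (b := 1) (c := 3) (cn := .pnn) (n1 := ndB1q2b) (n2 := ndB5q1) (pc := pcB3) (cut := Cut.none) (xt := Ext.none) (P1 := 1239849684) (W1 := 370763052) (P2 := 536870912) (W2 := 536870912) (P3 := 697932185) (W3 := 42949674) (N0 := 3) (En := eng) (mo := mog) (C1 := cd1q2b) (C2 := cd5q1) (C3 := pd3)
    rfl k0_pm_213_b

noncomputable def f_pm_303 : ℕ → ℕ → ℕ → ℕ → Bool := onCell 1610612736 536870912 0 536870912 697932185 42949674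
    (rowB 3 eng mog cd1q3 cd5q0 pd3 2 true true false .npn 3 0 3 (qsf 1610612736 536870912 0 536870912 3) ndB1q3 ndB5q0 pcB3 Cut.none Ext.none)

def k0_pm_303 : ∃ t, chk3 f_pm_303 t 1 1 1 = true :=
  ⟨(a (l 4) (l 4)), by decide +kernel⟩

theorem c_pm_303 : CertB 1610612736 536870912 0 536870912 697932185 42949674 3 eng mog cd1q3 cd5q0 pd3 true true false .npn 3 0 3
    ndB1q3 ndB5q0 pcB3 Cut.none Ext.none :=
  certB2 (fam := true) (s1 := true) (s2 := false) (a := 3) (b := 0) (c := 3) (cn := .npn) (n1 := ndB1q3) (n2 := ndB5q0) (pc := pcB3) (cut := Cut.none) (xt := Ext.none) (P1 := 1610612736) (W1 := 536870912) (P2 := 0) (W2 := 536870912) (P3 := 697932185) (W3 := 42949674) (N0 := 3) (En := eng) (mo := mog) (C1 := cd1q3) (C2 := cd5q0) (C3 := pd3)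
    rfl (fun _ => rfl) k0_pm_303

noncomputable def f_pm_313 : ℕ → ℕ → ℕ → ℕ → Bool := onCell 1610612736 536870912 536870912 536870912 697932185 42949674
    (rowB 3 eng mog cd1q3 cd5q1 pd3 0 true true false .dn 3 1 3 (qsf 1610612736 536870912 536870912 536870912 3) ndB1q3 ndB5q1 pcB3 Cut.none Ext.none)

def k0_pm_313 : ∃ t, chk3 f_pm_313 t 1 1 1 = true :=
  ⟨(l 4), by decide +kernel⟩

theorem c_pm_313 : CertB 1610612736 536870912 536870912 536870912 697932185 42949674 3 eng mog cd1q3 cd5q1 pd3 true true false .dn 3 1 3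
    ndB1q3 ndB5q1 pcB3 Cut.none Ext.none :=
  certB0 (fam := true) (s1 := true) (s2 := false) (a := 3) (b := 1) (c := 3) (cn := .dn) (n1 := ndB1q3) (n2 := ndB5q1) (pc := pcB3) (cut := Cut.none) (xt := Ext.none) (P1 := 1610612736) (W1 := 536870912) (P2 := 536870912) (W2 := 536870912) (P3 := 697932185) (W3 := 42949674) (N0 := 3) (En := eng) (mo := mog) (C1 := cd1q3) (C2 := cd5q1) (C3 := pd3)
    rfl k0_pm_313

noncomputable def f_mm_001 : ℕ → ℕ → ℕ → ℕ → Bool := onCell 0 536870912 0 536870912 697932185 42949674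
    (rowB 3 eng mog cd1q0 cd5q0 pd1 0 true false false .up 0 0 1 (qsf 0 536870912 0 536870912 1) ndB1q0 ndB5q0 pcB1 Cut.none Ext.none)

def k0_mm_001 : ∃ t, chk3 f_mm_001 t 1 1 1 = true :=
  ⟨(l 4), by decide +kernel⟩

theorem c_mm_001 : CertB 0 536870912 0 536870912 697932185 42949674 3 eng mog cd1q0 cd5q0 pd1 true false false .up 0 0 1
    ndB1q0 ndB5q0 pcB1 Cut.none Ext.none :=
  certB0 (fam := true) (s1 := false) (s2 := false) (a := 0) (b := 0) (c := 1) (cn := .up) (n1 := ndB1q0) (n2 := ndB5q0) (pc := pcB1) (cut := Cut.none) (xt := Ext.none) (P1 := 0) (W1 := 536870912) (P2 := 0) (W2 := 536870912) (P3 := 697932185) (W3 := 42949674) (N0 := 3) (En := eng) (mo := mog) (C1 := cd1q0) (C2 := cd5q0) (C3 := pd1)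
    rfl k0_mm_001

noncomputable def f_mm_011 : ℕ → ℕ → ℕ → ℕ → Bool := onCell 0 536870912 536870912 536870912 697932185 42949674
    (rowB 3 eng mog cd1q0 cd5q1 pd1 0 true false false .pnn 0 1 1 (qsf 0 536870912 536870912 536870912 1) ndB1q0 ndB5q1 pcB1 Cut.none Ext.none)

def k0_mm_011 : ∃ t, chk3 f_mm_011 t 1 1 1 = true :=
  ⟨(l 4), by decide +kernel⟩

theorem c_mm_011 : CertB 0 536870912 536870912 536870912 697932185 42949674 3 eng mog cd1q0 cd5q1 pd1 true false false .pnn 0 1 1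
    ndB1q0 ndB5q1 pcB1 Cut.none Ext.none :=
  certB0 (fam := true) (s1 := false) (s2 := false) (a := 0) (b := 1) (c := 1) (cn := .pnn) (n1 := ndB1q0) (n2 := ndB5q1) (pc := pcB1) (cut := Cut.none) (xt := Ext.none) (P1 := 0) (W1 := 536870912) (P2 := 536870912) (W2 := 536870912) (P3 := 697932185) (W3 := 42949674) (N0 := 3) (En := eng) (mo := mog) (C1 := cd1q0) (C2 := cd5q1) (C3 := pd1)
    rfl k0_mm_011

noncomputable def f_mm_012 : ℕ → ℕ → ℕ → ℕ → Bool := onCell 0 536870912 536870912 536870912 697932185 42949674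
    (rowB 3 eng mog cd1q0 cd5q1 pd2 0 true false false .pnp 0 1 2 (qsf 0 536870912 536870912 536870912 2) ndB1q0 ndB5q1 pcB2 Cut.none Ext.none)

def k0_mm_012 : ∃ t, chk3 f_mm_012 t 1 1 1 = true :=
  ⟨(l 4), by decide +kernel⟩

theorem c_mm_012 : CertB 0 536870912 536870912 536870912 697932185 42949674 3 eng mog cd1q0 cd5q1 pd2 true false false .pnp 0 1 2
    ndB1q0 ndB5q1 pcB2 Cut.none Ext.none :=
  certB0 (fam := true) (s1 := false) (s2 := false) (a := 0) (b := 1) (c := 2) (cn := .pnp) (n1 := ndB1q0) (n2 := ndB5q1) (pc := pcB2) (cut := Cut.none) (xt := Ext.none) (P1 := 0) (W1 := 536870912) (P2 := 536870912) (W2 := 536870912) (P3 := 697932185) (W3 := 42949674) (N0 := 3) (En := eng) (mo := mog) (C1 := cd1q0) (C2 := cd5q1) (C3 := pd2)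
    rfl k0_mm_012

noncomputable def f_mm_022 : ℕ → ℕ → ℕ → ℕ → Bool := onCell 0 536870912 1073741824 536870912 697932185 42949674
    (rowB 3 eng mog cd1q0 cd5q2 pd2 0 true false false .pp 0 2 2 (qsf 0 536870912 1073741824 536870912 2) ndB1q0 ndB5q2 pcB2 Cut.none Ext.none)

def k0_mm_022 : ∃ t, chk3 f_mm_022 t 1 1 1 = true :=
  ⟨(l 4), by decide +kernel⟩

theorem c_mm_022 : CertB 0 536870912 1073741824 536870912 697932185 42949674 3 eng mog cd1q0 cd5q2 pd2 true false false .pp 0 2 2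
    ndB1q0 ndB5q2 pcB2 Cut.none Ext.none :=
  certB0 (fam := true) (s1 := false) (s2 := false) (a := 0) (b := 2) (c := 2) (cn := .pp) (n1 := ndB1q0) (n2 := ndB5q2) (pc := pcB2) (cut := Cut.none) (xt := Ext.none) (P1 := 0) (W1 := 536870912) (P2 := 1073741824) (W2 := 536870912) (P3 := 697932185) (W3 := 42949674) (N0 := 3) (En := eng) (mo := mog) (C1 := cd1q0) (C2 := cd5q2) (C3 := pd2)
    rfl k0_mm_022

noncomputable def f_mm_023 : ℕ → ℕ → ℕ → ℕ → Bool := onCell 0 536870912 1073741824 536870912 697932185 42949674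
    (rowB 3 eng mog cd1q0 cd5q2 pd3 0 true false false .up 0 2 3 (qsf 0 536870912 1073741824 536870912 3) ndB1q0 ndB5q2 pcB3 Cut.none Ext.none)

def k0_mm_023 : ∃ t, chk3 f_mm_023 t 1 1 1 = true :=
  ⟨(l 4), by decide +kernel⟩

theorem c_mm_023 : CertB 0 536870912 1073741824 536870912 697932185 42949674 3 eng mog cd1q0 cd5q2 pd3 true false false .up 0 2 3
    ndB1q0 ndB5q2 pcB3 Cut.none Ext.none :=
  certB0 (fam := true) (s1 := false) (s2 := false) (a := 0) (b := 2) (c := 3) (cn := .up) (n1 := ndB1q0) (n2 := ndB5q2) (pc := pcB3) (cut := Cut.none) (xt := Ext.none) (P1 := 0) (W1 := 536870912) (P2 := 1073741824) (W2 := 536870912) (P3 := 697932185) (W3 := 42949674) (N0 := 3) (En := eng) (mo := mog) (C1 := cd1q0) (C2 := cd5q2) (C3 := pd3)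
    rfl k0_mm_023

noncomputable def f_mm_033 : ℕ → ℕ → ℕ → ℕ → Bool := onCell 0 536870912 0 1230186008 697932185 42949674
    (rowB 3 eng mog cd1q0 cd5q3 pd3 0 true false false .pnn 0 3 3 (qsf 0 536870912 0 1230186008 3) ndB1q0 ndB5q3 pcB3 Cut.none Ext.none)

def k0_mm_033 : ∃ t, chk3 f_mm_033 t 1 1 1 = true :=
  ⟨(l 5), by decide +kernel⟩

theorem c_mm_033 : CertB 0 536870912 0 1230186008 697932185 42949674 3 eng mog cd1q0 cd5q3 pd3 true false false .pnn 0 3 3
    ndB1q0 ndB5q3 pcB3 Cut.none Ext.none :=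
  certB0 (fam := true) (s1 := false) (s2 := false) (a := 0) (b := 3) (c := 3) (cn := .pnn) (n1 := ndB1q0) (n2 := ndB5q3) (pc := pcB3) (cut := Cut.none) (xt := Ext.none) (P1 := 0) (W1 := 536870912) (P2 := 0) (W2 := 1230186008) (P3 := 697932185) (W3 := 42949674) (N0 := 3) (En := eng) (mo := mog) (C1 := cd1q0) (C2 := cd5q3) (C3 := pd3)
    rfl k0_mm_033

noncomputable def f_mm_101 : ℕ → ℕ → ℕ → ℕ → Bool := onCell 536870912 536870912 0 536870912 697932185 42949674
    (rowB 3 eng mog cd1q1 cd5q0 pd1 0 true false false .npn 1 0 1 (qsf 536870912 536870912 0 536870912 1) ndB1q1 ndB5q0 pcB1 Cut.none Ext.none)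

def k0_mm_101 : ∃ t, chk3 f_mm_101 t 1 1 1 = true :=
  ⟨(l 4), by decide +kernel⟩

theorem c_mm_101 : CertB 536870912 536870912 0 536870912 697932185 42949674 3 eng mog cd1q1 cd5q0 pd1 true false false .npn 1 0 1
    ndB1q1 ndB5q0 pcB1 Cut.none Ext.none :=
  certB0 (fam := true) (s1 := false) (s2 := false) (a := 1) (b := 0) (c := 1) (cn := .npn) (n1 := ndB1q1) (n2 := ndB5q0) (pc := pcB1) (cut := Cut.none) (xt := Ext.none) (P1 := 536870912) (W1 := 536870912) (P2 := 0) (W2 := 536870912) (P3 := 697932185) (W3 := 42949674) (N0 := 3) (En := eng) (mo := mog) (C1 := cd1q1) (C2 := cd5q0) (C3 := pd1)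
    rfl k0_mm_101

noncomputable def f_mm_102 : ℕ → ℕ → ℕ → ℕ → Bool := onCell 536870912 536870912 0 536870912 697932185 42949674
    (rowB 3 eng mog cd1q1 cd5q0 pd2 0 true false false .npp 1 0 2 (qsf 536870912 536870912 0 536870912 2) ndB1q1 ndB5q0 pcB2 Cut.none Ext.none)

def k0_mm_102 : ∃ t, chk3 f_mm_102 t 1 1 1 = true :=
  ⟨(l 4), by decide +kernel⟩

theorem c_mm_102 : CertB 536870912 536870912 0 536870912 697932185 42949674 3 eng mog cd1q1 cd5q0 pd2 true false false .npp 1 0 2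
    ndB1q1 ndB5q0 pcB2 Cut.none Ext.none :=
  certB0 (fam := true) (s1 := false) (s2 := false) (a := 1) (b := 0) (c := 2) (cn := .npp) (n1 := ndB1q1) (n2 := ndB5q0) (pc := pcB2) (cut := Cut.none) (xt := Ext.none) (P1 := 536870912) (W1 := 536870912) (P2 := 0) (W2 := 536870912) (P3 := 697932185) (W3 := 42949674) (N0 := 3) (En := eng) (mo := mog) (C1 := cd1q1) (C2 := cd5q0) (C3 := pd2)
    rfl k0_mm_102

noncomputable def f_mm_112 : ℕ → ℕ → ℕ → ℕ → Bool := onCell 536870912 536870912 536870912 536870912 697932185 42949674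
    (rowB 3 eng mog cd1q1 cd5q1 pd2 0 true false false .dn 1 1 2 (qsf 536870912 536870912 536870912 536870912 2) ndB1q1 ndB5q1 pcB2 Cut.none Ext.none)

def k0_mm_112 : ∃ t, chk3 f_mm_112 t 1 1 1 = true :=
  ⟨(l 4), by decide +kernel⟩

theorem c_mm_112 : CertB 536870912 536870912 536870912 536870912 697932185 42949674 3 eng mog cd1q1 cd5q1 pd2 true false false .dn 1 1 2
    ndB1q1 ndB5q1 pcB2 Cut.none Ext.none :=
  certB0 (fam := true) (s1 := false) (s2 := false) (a := 1) (b := 1) (c := 2) (cn := .dn) (n1 := ndB1q1) (n2 := ndB5q1) (pc := pcB2) (cut := Cut.none) (xt := Ext.none) (P1 := 536870912) (W1 := 536870912) (P2 := 536870912) (W2 := 536870912) (P3 := 697932185) (W3 := 42949674) (N0 := 3) (En := eng) (mo := mog) (C1 := cd1q1) (C2 := cd5q1) (C3 := pd2)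
    rfl k0_mm_112

noncomputable def f_mm_113 : ℕ → ℕ → ℕ → ℕ → Bool := onCell 536870912 536870912 536870912 536870912 697932185 42949674
    (rowB 3 eng mog cd1q1 cd5q1 pd3 0 true false false .nn 1 1 3 (qsf 536870912 536870912 536870912 536870912 3) ndB1q1 ndB5q1 pcB3 Cut.none Ext.none)

def k0_mm_113 : ∃ t, chk3 f_mm_113 t 1 1 1 = true :=
  ⟨(l 4), by decide +kernel⟩

theorem c_mm_113 : CertB 536870912 536870912 536870912 536870912 697932185 42949674 3 eng mog cd1q1 cd5q1 pd3 true false false .nn 1 1 3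
    ndB1q1 ndB5q1 pcB3 Cut.none Ext.none :=
  certB0 (fam := true) (s1 := false) (s2 := false) (a := 1) (b := 1) (c := 3) (cn := .nn) (n1 := ndB1q1) (n2 := ndB5q1) (pc := pcB3) (cut := Cut.none) (xt := Ext.none) (P1 := 536870912) (W1 := 536870912) (P2 := 536870912) (W2 := 536870912) (P3 := 697932185) (W3 := 42949674) (N0 := 3) (En := eng) (mo := mog) (C1 := cd1q1) (C2 := cd5q1) (C3 := pd3)
    rfl k0_mm_113

noncomputable def f_mm_123 : ℕ → ℕ → ℕ → ℕ → Bool := onCell 536870912 536870912 1073741824 536870912 697932185 42949674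
    (rowB 3 eng mog cd1q1 cd5q2 pd3 0 true false false .npn 1 2 3 (qsf 536870912 536870912 1073741824 536870912 3) ndB1q1 ndB5q2 pcB3 Cut.none Ext.none)

def k0_mm_123 : ∃ t, chk3 f_mm_123 t 1 1 1 = true :=
  ⟨(l 4), by decide +kernel⟩

theorem c_mm_123 : CertB 536870912 536870912 1073741824 536870912 697932185 42949674 3 eng mog cd1q1 cd5q2 pd3 true false false .npn 1 2 3
    ndB1q1 ndB5q2 pcB3 Cut.none Ext.none :=
  certB0 (fam := true) (s1 := false) (s2 := false) (a := 1) (b := 2) (c := 3) (cn := .npn) (n1 := ndB1q1) (n2 := ndB5q2) (pc := pcB3) (cut := Cut.none) (xt := Ext.none) (P1 := 536870912) (W1 := 536870912) (P2 := 1073741824) (W2 := 536870912) (P3 := 697932185) (W3 := 42949674) (N0 := 3) (En := eng) (mo := mog) (C1 := cd1q1) (C2 := cd5q2) (C3 := pd3)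
    rfl k0_mm_123

noncomputable def f_mm_133 : ℕ → ℕ → ℕ → ℕ → Bool := onCell 536870912 536870912 0 1230186008 697932185 42949674
    (rowB 3 eng mog cd1q1 cd5q3 pd3 0 true false false .dn 1 3 3 (qsf 536870912 536870912 0 1230186008 3) ndB1q1 ndB5q3 pcB3 Cut.none Ext.none)

def k0_mm_133 : ∃ t, chk3 f_mm_133 t 1 1 1 = true :=
  ⟨(l 4), by decide +kernel⟩

theorem c_mm_133 : CertB 536870912 536870912 0 1230186008 697932185 42949674 3 eng mog cd1q1 cd5q3 pd3 true false false .dn 1 3 3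
    ndB1q1 ndB5q3 pcB3 Cut.none Ext.none :=
  certB0 (fam := true) (s1 := false) (s2 := false) (a := 1) (b := 3) (c := 3) (cn := .dn) (n1 := ndB1q1) (n2 := ndB5q3) (pc := pcB3) (cut := Cut.none) (xt := Ext.none) (P1 := 536870912) (W1 := 536870912) (P2 := 0) (W2 := 1230186008) (P3 := 697932185) (W3 := 42949674) (N0 := 3) (En := eng) (mo := mog) (C1 := cd1q1) (C2 := cd5q3) (C3 := pd3)
    rfl k0_mm_133

noncomputable def f_mm_202_a : ℕ → ℕ → ℕ → ℕ → Bool := onCell 0 536870912 0 536870912 697932185 42949674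
    (rowB 3 eng mog cd1q2a cd5q0 pd2 0 true false false .pp 2 0 2 (qsf 0 536870912 0 536870912 2) ndB1q2a ndB5q0 pcB2 Cut.none Ext.none)

def k0_mm_202_a : ∃ t, chk3 f_mm_202_a t 1 1 1 = true :=
  ⟨(b (a (b (b (a (b (a (l 16373560) (l 16378816)) (l 16468272)) (a (b (l 16497576) (l 4)) (l 4))) (a (a (l 16682240) (l 4)) (l 4))) (l 4)) (l 4)) (l 4)), by decide +kernel⟩

theorem c_mm_202_a : CertB 0 536870912 0 536870912 697932185 42949674 3 eng mog cd1q2a cd5q0 pd2 true false false .pp 2 0 2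
    ndB1q2a ndB5q0 pcB2 Cut.none Ext.none :=
  certB0 (fam := true) (s1 := false) (s2 := false) (a := 2) (b := 0) (c := 2) (cn := .pp) (n1 := ndB1q2a) (n2 := ndB5q0) (pc := pcB2) (cut := Cut.none) (xt := Ext.none) (P1 := 0) (W1 := 536870912) (P2 := 0) (W2 := 536870912) (P3 := 697932185) (W3 := 42949674) (N0 := 3) (En := eng) (mo := mog) (C1 := cd1q2a) (C2 := cd5q0) (C3 := pd2)
    rfl k0_mm_202_a

noncomputable def f_mm_202_b : ℕ → ℕ → ℕ → ℕ → Bool := onCell 1073741824 536870912 0 536870912 697932185 42949674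
    (rowB 3 eng mog cd1q2b cd5q0 pd2 2 true false false .pp 2 0 2 (qsf 1239849684 370763052 0 536870912 2) ndB1q2b ndB5q0 pcB2 Cut.none Ext.none)

def k0_mm_202_b : ∃ t, chk3 f_mm_202_b t 1 1 1 = true :=
  ⟨(a (b (a (l 1) (b (a (b (a (l 236256363191) (a (l 16399984) (l 16388456))) (l 1)) (b (a (l 16373248) (l 16350272)) (a (l 16459336) (l 16447632)))) (l 1))) (l 1)) (b (b (a (a (b (a (l 16324040) (l 16292256)) (a (l 16435696) (l 16419704))) (b (l 16225816) (l 4))) (l 4)) (l 4)) (l 4))), by decide +kernel⟩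

theorem c_mm_202_b : CertB 1239849684 370763052 0 536870912 697932185 42949674 3 eng mog cd1q2b cd5q0 pd2 true false false .pp 2 0 2
    ndB1q2b ndB5q0 pcB2 Cut.none Ext.none :=
  certB2 (fam := true) (s1 := false) (s2 := false) (a := 2) (b := 0) (c := 2) (cn := .pp) (n1 := ndB1q2b) (n2 := ndB5q0) (pc := pcB2) (cut := Cut.none) (xt := Ext.none) (P1 := 1239849684) (W1 := 370763052) (P2 := 0) (W2 := 536870912) (P3 := 697932185) (W3 := 42949674) (N0 := 3) (En := eng) (mo := mog) (C1 := cd1q2b) (C2 := cd5q0) (C3 := pd2)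
    rfl (fun _ => rfl) k0_mm_202_b

noncomputable def f_mm_203_a : ℕ → ℕ → ℕ → ℕ → Bool := onCell 0 536870912 1610612736 536870912 697932185 42949674
    (rowB 3 eng mog cd1q2a cd5q0 pd3 1 true false false .up 2 0 3 (qsf 0 536870912 0 536870912 3) ndB1q2a ndB5q0 pcB3 Cut.none Ext.none)

def k0_mm_203_a : ∃ t, chk3 f_mm_203_a t 1 1 1 = true :=
  ⟨(l 4), by decide +kernel⟩

theorem c_mm_203_a : CertB 0 536870912 0 536870912 697932185 42949674 3 eng mog cd1q2a cd5q0 pd3 true false false .up 2 0 3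
    ndB1q2a ndB5q0 pcB3 Cut.none Ext.none :=
  certB1 (fam := true) (s1 := false) (s2 := false) (a := 2) (b := 0) (c := 3) (cn := .up) (n1 := ndB1q2a) (n2 := ndB5q0) (pc := pcB3) (cut := Cut.none) (xt := Ext.none) (P1 := 0) (W1 := 536870912) (P2 := 0) (W2 := 536870912) (P3 := 697932185) (W3 := 42949674) (N0 := 3) (En := eng) (mo := mog) (C1 := cd1q2a) (C2 := cd5q0) (C3 := pd3)
    rfl (fun _ => rfl) k0_mm_203_a

noncomputable def f_mm_203_b : ℕ → ℕ → ℕ → ℕ → Bool := onCell 1239849684 370763052 1610612736 536870912 697932185 42949674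
    (rowB 3 eng mog cd1q2b cd5q0 pd3 1 true false false .up 2 0 3 (qsf 1239849684 370763052 0 536870912 3) ndB1q2b ndB5q0 pcB3 Cut.none Ext.none)

def k0_mm_203_b : ∃ t, chk3 f_mm_203_b t 1 1 1 = true :=
  ⟨(l 4), by decide +kernel⟩

theorem c_mm_203_b : CertB 1239849684 370763052 0 536870912 697932185 42949674 3 eng mog cd1q2b cd5q0 pd3 true false false .up 2 0 3
    ndB1q2b ndB5q0 pcB3 Cut.none Ext.none :=
  certB1 (fam := true) (s1 := false) (s2 := false) (a := 2) (b := 0) (c := 3) (cn := .up) (n1 := ndB1q2b) (n2 := ndB5q0) (pc := pcB3) (cut := Cut.none) (xt := Ext.none) (P1 := 1239849684) (W1 := 370763052) (P2 := 0) (W2 := 536870912) (P3 := 697932185) (W3 := 42949674) (N0 := 3) (En := eng) (mo := mog) (C1 := cd1q2b) (C2 := cd5q0) (C3 := pd3)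
    rfl (fun _ => rfl) k0_mm_203_b

noncomputable def f_mm_213_a : ℕ → ℕ → ℕ → ℕ → Bool := onCell 0 536870912 536870912 536870912 697932185 42949674
    (rowB 3 eng mog cd1q2a cd5q1 pd3 0 true false false .pnn 2 1 3 (qsf 0 536870912 536870912 536870912 3) ndB1q2a ndB5q1 pcB3 Cut.none Ext.none)

def k0_mm_213_a : ∃ t, chk3 f_mm_213_a t 1 1 1 = true :=
  ⟨(l 4), by decide +kernel⟩

theorem c_mm_213_a : CertB 0 536870912 536870912 536870912 697932185 42949674 3 eng mog cd1q2a cd5q1 pd3 true false false .pnn 2 1 3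
    ndB1q2a ndB5q1 pcB3 Cut.none Ext.none :=
  certB0 (fam := true) (s1 := false) (s2 := false) (a := 2) (b := 1) (c := 3) (cn := .pnn) (n1 := ndB1q2a) (n2 := ndB5q1) (pc := pcB3) (cut := Cut.none) (xt := Ext.none) (P1 := 0) (W1 := 536870912) (P2 := 536870912) (W2 := 536870912) (P3 := 697932185) (W3 := 42949674) (N0 := 3) (En := eng) (mo := mog) (C1 := cd1q2a) (C2 := cd5q1) (C3 := pd3)
    rfl k0_mm_213_a

noncomputable def f_mm_213_b : ℕ → ℕ → ℕ → ℕ → Bool := onCell 1239849684 370763052 536870912 536870912 697932185 42949674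
    (rowB 3 eng mog cd1q2b cd5q1 pd3 0 true false false .pnn 2 1 3 (qsf 1239849684 370763052 536870912 536870912 3) ndB1q2b ndB5q1 pcB3 Cut.none Ext.none)

def k0_mm_213_b : ∃ t, chk3 f_mm_213_b t 1 1 1 = true :=
  ⟨(l 4), by decide +kernel⟩

theorem c_mm_213_b : CertB 1239849684 370763052 536870912 536870912 697932185 42949674 3 eng mog cd1q2b cd5q1 pd3 true false false .pnn 2 1 3
    ndB1q2b ndB5q1 pcB3 Cut.none Ext.none :=
  certB0 (fam := true) (s1 := false) (s2 := false) (a := 2) (b := 1) (c := 3) (cn := .pnn) (n1 := ndB1q2b) (n2 := ndB5q1) (pc := pcB3) (cut := Cut.none) (xt := Ext.none) (P1 := 1239849684) (W1 := 370763052) (P2 := 536870912) (W2 := 536870912) (P3 := 697932185) (W3 := 42949674) (N0 := 3) (En := eng) (mo := mog) (C1 := cd1q2b) (C2 := cd5q1) (C3 := pd3)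
    rfl k0_mm_213_b

noncomputable def f_mm_303 : ℕ → ℕ → ℕ → ℕ → Bool := onCell 1610612736 536870912 0 536870912 697932185 42949674
    (rowB 3 eng mog cd1q3 cd5q0 pd3 2 true false false .npn 3 0 3 (qsf 1610612736 536870912 0 536870912 3) ndB1q3 ndB5q0 pcB3 Cut.none Ext.none)

def k0_mm_303 : ∃ t, chk3 f_mm_303 t 1 1 1 = true :=
  ⟨(l 4), by decide +kernel⟩

theorem c_mm_303 : CertB 1610612736 536870912 0 536870912 697932185 42949674 3 eng mog cd1q3 cd5q0 pd3 true false false .npn 3 0 3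
    ndB1q3 ndB5q0 pcB3 Cut.none Ext.none :=
  certB2 (fam := true) (s1 := false) (s2 := false) (a := 3) (b := 0) (c := 3) (cn := .npn) (n1 := ndB1q3) (n2 := ndB5q0) (pc := pcB3) (cut := Cut.none) (xt := Ext.none) (P1 := 1610612736) (W1 := 536870912) (P2 := 0) (W2 := 536870912) (P3 := 697932185) (W3 := 42949674) (N0 := 3) (En := eng) (mo := mog) (C1 := cd1q3) (C2 := cd5q0) (C3 := pd3)
    rfl (fun _ => rfl) k0_mm_303

noncomputable def f_mm_313 : ℕ → ℕ → ℕ → ℕ → Bool := onCell 1610612736 536870912 536870912 536870912 697932185 42949674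
    (rowB 3 eng mog cd1q3 cd5q1 pd3 0 true false false .dn 3 1 3 (qsf 1610612736 536870912 536870912 536870912 3) ndB1q3 ndB5q1 pcB3 Cut.none Ext.none)

def k0_mm_313 : ∃ t, chk3 f_mm_313 t 1 1 1 = true :=
  ⟨(l 4), by decide +kernel⟩

theorem c_mm_313 : CertB 1610612736 536870912 536870912 536870912 697932185 42949674 3 eng mog cd1q3 cd5q1 pd3 true false false .dn 3 1 3
    ndB1q3 ndB5q1 pcB3 Cut.none Ext.none :=
  certB0 (fam := true) (s1 := false) (s2 := false) (a := 3) (b := 1) (c := 3) (cn := .dn) (n1 := ndB1q3) (n2 := ndB5q1) (pc := pcB3) (cut := Cut.none) (xt := Ext.none) (P1 := 1610612736) (W1 := 536870912) (P2 := 536870912) (W2 := 536870912) (P3 := 697932185) (W3 := 42949674) (N0 := 3) (En := eng) (mo := mog) (C1 := cd1q3) (C2 := cd5q1) (C3 := pd3)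
    rfl k0_mm_313

end Pool.Agent.Strip051.G.I6500_6900.Tab.C.BA15

namespace Pool.Agent.Strip051.G.I6500_6900.Tab.C.BA16

open Pool.Agent.Strip051.PB Pool.Agent.Strip051.PB.T
open Pool.Agent.Strip051.G.I6500_6900.Tab

noncomputable def f_pp_001 : ℕ → ℕ → ℕ → ℕ → Bool := onCell 0 536870912 0 536870912 697932185 42949674
    (rowB 3 eng mog cd1q0 cd6q0 pd1 0 true true true .up 0 0 1 (qsf 0 536870912 0 536870912 1) ndB1q0 ndB6q0 pcB1 Cut.none Ext.none)

def k0_pp_001 : ∃ t, chk3 f_pp_001 t 1 1 1 = true :=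
  ⟨(l 4), by decide +kernel⟩

theorem c_pp_001 : CertB 0 536870912 0 536870912 697932185 42949674 3 eng mog cd1q0 cd6q0 pd1 true true true .up 0 0 1
    ndB1q0 ndB6q0 pcB1 Cut.none Ext.none :=
  certB0 (fam := true) (s1 := true) (s2 := true) (a := 0) (b := 0) (c := 1) (cn := .up) (n1 := ndB1q0) (n2 := ndB6q0) (pc := pcB1) (cut := Cut.none) (xt := Ext.none) (P1 := 0) (W1 := 536870912) (P2 := 0) (W2 := 536870912) (P3 := 697932185) (W3 := 42949674) (N0 := 3) (En := eng) (mo := mog) (C1 := cd1q0) (C2 := cd6q0) (C3 := pd1)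
    rfl k0_pp_001

noncomputable def f_pp_011 : ℕ → ℕ → ℕ → ℕ → Bool := onCell 0 536870912 536870912 536870912 697932185 42949674
    (rowB 3 eng mog cd1q0 cd6q1 pd1 0 true true true .pnn 0 1 1 (qsf 0 536870912 536870912 536870912 1) ndB1q0 ndB6q1 pcB1 Cut.none Ext.none)

def k0_pp_011 : ∃ t, chk3 f_pp_011 t 1 1 1 = true :=
  ⟨(l 4), by decide +kernel⟩

theorem c_pp_011 : CertB 0 536870912 536870912 536870912 697932185 42949674 3 eng mog cd1q0 cd6q1 pd1 true true true .pnn 0 1 1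
    ndB1q0 ndB6q1 pcB1 Cut.none Ext.none :=
  certB0 (fam := true) (s1 := true) (s2 := true) (a := 0) (b := 1) (c := 1) (cn := .pnn) (n1 := ndB1q0) (n2 := ndB6q1) (pc := pcB1) (cut := Cut.none) (xt := Ext.none) (P1 := 0) (W1 := 536870912) (P2 := 536870912) (W2 := 536870912) (P3 := 697932185) (W3 := 42949674) (N0 := 3) (En := eng) (mo := mog) (C1 := cd1q0) (C2 := cd6q1) (C3 := pd1)
    rfl k0_pp_011

noncomputable def f_pp_012 : ℕ → ℕ → ℕ → ℕ → Bool := onCell 0 536870912 536870912 536870912 697932185 42949674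
    (rowB 3 eng mog cd1q0 cd6q1 pd2 0 true true true .pnp 0 1 2 (qsf 0 536870912 536870912 536870912 2) ndB1q0 ndB6q1 pcB2 Cut.none Ext.none)

def k0_pp_012 : ∃ t, chk3 f_pp_012 t 1 1 1 = true :=
  ⟨(l 4), by decide +kernel⟩

theorem c_pp_012 : CertB 0 536870912 536870912 536870912 697932185 42949674 3 eng mog cd1q0 cd6q1 pd2 true true true .pnp 0 1 2
    ndB1q0 ndB6q1 pcB2 Cut.none Ext.none :=
  certB0 (fam := true) (s1 := true) (s2 := true) (a := 0) (b := 1) (c := 2) (cn := .pnp) (n1 := ndB1q0) (n2 := ndB6q1) (pc := pcB2) (cut := Cut.none) (xt := Ext.none) (P1 := 0) (W1 := 536870912) (P2 := 536870912) (W2 := 536870912) (P3 := 697932185) (W3 := 42949674) (N0 := 3) (En := eng) (mo := mog) (C1 := cd1q0) (C2 := cd6q1) (C3 := pd2)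
    rfl k0_pp_012

noncomputable def f_pp_022 : ℕ → ℕ → ℕ → ℕ → Bool := onCell 0 536870912 1073741824 536870912 697932185 42949674
    (rowB 3 eng mog cd1q0 cd6q2 pd2 0 true true true .pp 0 2 2 (qsf 0 536870912 1073741824 536870912 2) ndB1q0 ndB6q2 pcB2 Cut.none Ext.none)

def k0_pp_022 : ∃ t, chk3 f_pp_022 t 1 1 1 = true :=
  ⟨(l 4), by decide +kernel⟩

theorem c_pp_022 : CertB 0 536870912 1073741824 536870912 697932185 42949674 3 eng mog cd1q0 cd6q2 pd2 true true true .pp 0 2 2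
    ndB1q0 ndB6q2 pcB2 Cut.none Ext.none :=
  certB0 (fam := true) (s1 := true) (s2 := true) (a := 0) (b := 2) (c := 2) (cn := .pp) (n1 := ndB1q0) (n2 := ndB6q2) (pc := pcB2) (cut := Cut.none) (xt := Ext.none) (P1 := 0) (W1 := 536870912) (P2 := 1073741824) (W2 := 536870912) (P3 := 697932185) (W3 := 42949674) (N0 := 3) (En := eng) (mo := mog) (C1 := cd1q0) (C2 := cd6q2) (C3 := pd2)
    rfl k0_pp_022

noncomputable def f_pp_023 : ℕ → ℕ → ℕ → ℕ → Bool := onCell 0 536870912 1073741824 536870912 697932185 42949674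
    (rowB 3 eng mog cd1q0 cd6q2 pd3 0 true true true .up 0 2 3 (qsf 0 536870912 1073741824 536870912 3) ndB1q0 ndB6q2 pcB3 Cut.none Ext.none)

def k0_pp_023 : ∃ t, chk3 f_pp_023 t 1 1 1 = true :=
  ⟨(l 4), by decide +kernel⟩

theorem c_pp_023 : CertB 0 536870912 1073741824 536870912 697932185 42949674 3 eng mog cd1q0 cd6q2 pd3 true true true .up 0 2 3
    ndB1q0 ndB6q2 pcB3 Cut.none Ext.none :=
  certB0 (fam := true) (s1 := true) (s2 := true) (a := 0) (b := 2) (c := 3) (cn := .up) (n1 := ndB1q0) (n2 := ndB6q2) (pc := pcB3) (cut := Cut.none) (xt := Ext.none) (P1 := 0) (W1 := 536870912) (P2 := 1073741824) (W2 := 536870912) (P3 := 697932185) (W3 := 42949674) (N0 := 3) (En := eng) (mo := mog) (C1 := cd1q0) (C2 := cd6q2) (C3 := pd3)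
    rfl k0_pp_023

noncomputable def f_pp_033 : ℕ → ℕ → ℕ → ℕ → Bool := onCell 0 536870912 0 1230186008 697932185 42949674
    (rowB 3 eng mog cd1q0 cd6q3 pd3 0 true true true .pnn 0 3 3 (qsf 0 536870912 0 1230186008 3) ndB1q0 ndB6q3 pcB3 Cut.none Ext.none)

def k0_pp_033 : ∃ t, chk3 f_pp_033 t 1 1 1 = true :=
  ⟨(b (l 4) (l 4)), by decide +kernel⟩

theorem c_pp_033 : CertB 0 536870912 0 1230186008 697932185 42949674 3 eng mog cd1q0 cd6q3 pd3 true true true .pnn 0 3 3
    ndB1q0 ndB6q3 pcB3 Cut.none Ext.none :=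
  certB0 (fam := true) (s1 := true) (s2 := true) (a := 0) (b := 3) (c := 3) (cn := .pnn) (n1 := ndB1q0) (n2 := ndB6q3) (pc := pcB3) (cut := Cut.none) (xt := Ext.none) (P1 := 0) (W1 := 536870912) (P2 := 0) (W2 := 1230186008) (P3 := 697932185) (W3 := 42949674) (N0 := 3) (En := eng) (mo := mog) (C1 := cd1q0) (C2 := cd6q3) (C3 := pd3)
    rfl k0_pp_033

noncomputable def f_pp_101 : ℕ → ℕ → ℕ → ℕ → Bool := onCell 536870912 536870912 0 536870912 697932185 42949674
    (rowB 3 eng mog cd1q1 cd6q0 pd1 0 true true true .npn 1 0 1 (qsf 536870912 536870912 0 536870912 1) ndB1q1 ndB6q0 pcB1 Cut.none Ext.none)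

def k0_pp_101 : ∃ t, chk3 f_pp_101 t 1 1 1 = true :=
  ⟨(l 4), by decide +kernel⟩

theorem c_pp_101 : CertB 536870912 536870912 0 536870912 697932185 42949674 3 eng mog cd1q1 cd6q0 pd1 true true true .npn 1 0 1
    ndB1q1 ndB6q0 pcB1 Cut.none Ext.none :=
  certB0 (fam := true) (s1 := true) (s2 := true) (a := 1) (b := 0) (c := 1) (cn := .npn) (n1 := ndB1q1) (n2 := ndB6q0) (pc := pcB1) (cut := Cut.none) (xt := Ext.none) (P1 := 536870912) (W1 := 536870912) (P2 := 0) (W2 := 536870912) (P3 := 697932185) (W3 := 42949674) (N0 := 3) (En := eng) (mo := mog) (C1 := cd1q1) (C2 := cd6q0) (C3 := pd1)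
    rfl k0_pp_101

noncomputable def f_pp_102 : ℕ → ℕ → ℕ → ℕ → Bool := onCell 536870912 536870912 0 536870912 697932185 42949674
    (rowB 3 eng mog cd1q1 cd6q0 pd2 0 true true true .npp 1 0 2 (qsf 536870912 536870912 0 536870912 2) ndB1q1 ndB6q0 pcB2 Cut.none Ext.none)

def k0_pp_102 : ∃ t, chk3 f_pp_102 t 1 1 1 = true :=
  ⟨(l 4), by decide +kernel⟩

theorem c_pp_102 : CertB 536870912 536870912 0 536870912 697932185 42949674 3 eng mog cd1q1 cd6q0 pd2 true true true .npp 1 0 2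
    ndB1q1 ndB6q0 pcB2 Cut.none Ext.none :=
  certB0 (fam := true) (s1 := true) (s2 := true) (a := 1) (b := 0) (c := 2) (cn := .npp) (n1 := ndB1q1) (n2 := ndB6q0) (pc := pcB2) (cut := Cut.none) (xt := Ext.none) (P1 := 536870912) (W1 := 536870912) (P2 := 0) (W2 := 536870912) (P3 := 697932185) (W3 := 42949674) (N0 := 3) (En := eng) (mo := mog) (C1 := cd1q1) (C2 := cd6q0) (C3 := pd2)
    rfl k0_pp_102

noncomputable def f_pp_112 : ℕ → ℕ → ℕ → ℕ → Bool := onCell 536870912 536870912 536870912 536870912 697932185 42949674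
    (rowB 3 eng mog cd1q1 cd6q1 pd2 0 true true true .dn 1 1 2 (qsf 536870912 536870912 536870912 536870912 2) ndB1q1 ndB6q1 pcB2 Cut.none Ext.none)

def k0_pp_112 : ∃ t, chk3 f_pp_112 t 1 1 1 = true :=
  ⟨(l 4), by decide +kernel⟩

theorem c_pp_112 : CertB 536870912 536870912 536870912 536870912 697932185 42949674 3 eng mog cd1q1 cd6q1 pd2 true true true .dn 1 1 2
    ndB1q1 ndB6q1 pcB2 Cut.none Ext.none :=
  certB0 (fam := true) (s1 := true) (s2 := true) (a := 1) (b := 1) (c := 2) (cn := .dn) (n1 := ndB1q1) (n2 := ndB6q1) (pc := pcB2) (cut := Cut.none) (xt := Ext.none) (P1 := 536870912) (W1 := 536870912) (P2 := 536870912) (W2 := 536870912) (P3 := 697932185) (W3 := 42949674) (N0 := 3) (En := eng) (mo := mog) (C1 := cd1q1) (C2 := cd6q1) (C3 := pd2)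
    rfl k0_pp_112

noncomputable def f_pp_113 : ℕ → ℕ → ℕ → ℕ → Bool := onCell 536870912 536870912 536870912 536870912 697932185 42949674
    (rowB 3 eng mog cd1q1 cd6q1 pd3 0 true true true .nn 1 1 3 (qsf 536870912 536870912 536870912 536870912 3) ndB1q1 ndB6q1 pcB3 Cut.none Ext.none)

def k0_pp_113 : ∃ t, chk3 f_pp_113 t 1 1 1 = true :=
  ⟨(l 4), by decide +kernel⟩

theorem c_pp_113 : CertB 536870912 536870912 536870912 536870912 697932185 42949674 3 eng mog cd1q1 cd6q1 pd3 true true true .nn 1 1 3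
    ndB1q1 ndB6q1 pcB3 Cut.none Ext.none :=
  certB0 (fam := true) (s1 := true) (s2 := true) (a := 1) (b := 1) (c := 3) (cn := .nn) (n1 := ndB1q1) (n2 := ndB6q1) (pc := pcB3) (cut := Cut.none) (xt := Ext.none) (P1 := 536870912) (W1 := 536870912) (P2 := 536870912) (W2 := 536870912) (P3 := 697932185) (W3 := 42949674) (N0 := 3) (En := eng) (mo := mog) (C1 := cd1q1) (C2 := cd6q1) (C3 := pd3)
    rfl k0_pp_113

noncomputable def f_pp_123 : ℕ → ℕ → ℕ → ℕ → Bool := onCell 536870912 536870912 1073741824 536870912 697932185 42949674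
    (rowB 3 eng mog cd1q1 cd6q2 pd3 0 true true true .npn 1 2 3 (qsf 536870912 536870912 1073741824 536870912 3) ndB1q1 ndB6q2 pcB3 Cut.none Ext.none)

def k0_pp_123 : ∃ t, chk3 f_pp_123 t 1 1 1 = true :=
  ⟨(l 4), by decide +kernel⟩

theorem c_pp_123 : CertB 536870912 536870912 1073741824 536870912 697932185 42949674 3 eng mog cd1q1 cd6q2 pd3 true true true .npn 1 2 3
    ndB1q1 ndB6q2 pcB3 Cut.none Ext.none :=
  certB0 (fam := true) (s1 := true) (s2 := true) (a := 1) (b := 2) (c := 3) (cn := .npn) (n1 := ndB1q1) (n2 := ndB6q2) (pc := pcB3) (cut := Cut.none) (xt := Ext.none) (P1 := 536870912) (W1 := 536870912) (P2 := 1073741824) (W2 := 536870912) (P3 := 697932185) (W3 := 42949674) (N0 := 3) (En := eng) (mo := mog) (C1 := cd1q1) (C2 := cd6q2) (C3 := pd3)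
    rfl k0_pp_123

noncomputable def f_pp_133 : ℕ → ℕ → ℕ → ℕ → Bool := onCell 536870912 536870912 0 1230186008 697932185 42949674
    (rowB 3 eng mog cd1q1 cd6q3 pd3 0 true true true .dn 1 3 3 (qsf 536870912 536870912 0 1230186008 3) ndB1q1 ndB6q3 pcB3 Cut.none Ext.none)

def k0_pp_133 : ∃ t, chk3 f_pp_133 t 1 1 1 = true :=
  ⟨(l 4), by decide +kernel⟩

theorem c_pp_133 : CertB 536870912 536870912 0 1230186008 697932185 42949674 3 eng mog cd1q1 cd6q3 pd3 true true true .dn 1 3 3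
    ndB1q1 ndB6q3 pcB3 Cut.none Ext.none :=
  certB0 (fam := true) (s1 := true) (s2 := true) (a := 1) (b := 3) (c := 3) (cn := .dn) (n1 := ndB1q1) (n2 := ndB6q3) (pc := pcB3) (cut := Cut.none) (xt := Ext.none) (P1 := 536870912) (W1 := 536870912) (P2 := 0) (W2 := 1230186008) (P3 := 697932185) (W3 := 42949674) (N0 := 3) (En := eng) (mo := mog) (C1 := cd1q1) (C2 := cd6q3) (C3 := pd3)
    rfl k0_pp_133

noncomputable def f_pp_202_a : ℕ → ℕ → ℕ → ℕ → Bool := onCell 0 536870912 0 536870912 697932185 42949674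
    (rowB 3 eng mog cd1q2a cd6q0 pd2 0 true true true .pp 2 0 2 (qsf 0 536870912 0 536870912 2) ndB1q2a ndB6q0 pcB2 Cut.none Ext.none)

def k0_pp_202_a : ∃ t, chk3 f_pp_202_a t 1 1 1 = true :=
  ⟨(l 5), by decide +kernel⟩

theorem c_pp_202_a : CertB 0 536870912 0 536870912 697932185 42949674 3 eng mog cd1q2a cd6q0 pd2 true true true .pp 2 0 2
    ndB1q2a ndB6q0 pcB2 Cut.none Ext.none :=
  certB0 (fam := true) (s1 := true) (s2 := true) (a := 2) (b := 0) (c := 2) (cn := .pp) (n1 := ndB1q2a) (n2 := ndB6q0) (pc := pcB2) (cut := Cut.none) (xt := Ext.none) (P1 := 0) (W1 := 536870912) (P2 := 0) (W2 := 536870912) (P3 := 697932185) (W3 := 42949674) (N0 := 3) (En := eng) (mo := mog) (C1 := cd1q2a) (C2 := cd6q0) (C3 := pd2)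
    rfl k0_pp_202_a

noncomputable def f_pp_202_b : ℕ → ℕ → ℕ → ℕ → Bool := onCell 1239849684 370763052 0 536870912 697932185 42949674
    (rowB 3 eng mog cd1q2b cd6q0 pd2 0 true true true .pp 2 0 2 (qsf 1239849684 370763052 0 536870912 2) ndB1q2b ndB6q0 pcB2 Cut.none Ext.none)

def k0_pp_202_b : ∃ t, chk3 f_pp_202_b t 1 1 1 = true :=
  ⟨(l 4), by decide +kernel⟩

theorem c_pp_202_b : CertB 1239849684 370763052 0 536870912 697932185 42949674 3 eng mog cd1q2b cd6q0 pd2 true true true .pp 2 0 2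
    ndB1q2b ndB6q0 pcB2 Cut.none Ext.none :=
  certB0 (fam := true) (s1 := true) (s2 := true) (a := 2) (b := 0) (c := 2) (cn := .pp) (n1 := ndB1q2b) (n2 := ndB6q0) (pc := pcB2) (cut := Cut.none) (xt := Ext.none) (P1 := 1239849684) (W1 := 370763052) (P2 := 0) (W2 := 536870912) (P3 := 697932185) (W3 := 42949674) (N0 := 3) (En := eng) (mo := mog) (C1 := cd1q2b) (C2 := cd6q0) (C3 := pd2)
    rfl k0_pp_202_b

noncomputable def f_pp_203_a : ℕ → ℕ → ℕ → ℕ → Bool := onCell 0 536870912 0 536870912 697932185 42949674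
    (rowB 3 eng mog cd1q2a cd6q0 pd3 0 true true true .up 2 0 3 (qsf 0 536870912 0 536870912 3) ndB1q2a ndB6q0 pcB3 Cut.none Ext.none)

def k0_pp_203_a : ∃ t, chk3 f_pp_203_a t 1 1 1 = true :=
  ⟨(l 5), by decide +kernel⟩

theorem c_pp_203_a : CertB 0 536870912 0 536870912 697932185 42949674 3 eng mog cd1q2a cd6q0 pd3 true true true .up 2 0 3
    ndB1q2a ndB6q0 pcB3 Cut.none Ext.none :=
  certB0 (fam := true) (s1 := true) (s2 := true) (a := 2) (b := 0) (c := 3) (cn := .up) (n1 := ndB1q2a) (n2 := ndB6q0) (pc := pcB3) (cut := Cut.none) (xt := Ext.none) (P1 := 0) (W1 := 536870912) (P2 := 0) (W2 := 536870912) (P3 := 697932185) (W3 := 42949674) (N0 := 3) (En := eng) (mo := mog) (C1 := cd1q2a) (C2 := cd6q0) (C3 := pd3)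
    rfl k0_pp_203_a

noncomputable def f_pp_203_b : ℕ → ℕ → ℕ → ℕ → Bool := onCell 1239849684 370763052 0 536870912 697932185 42949674
    (rowB 3 eng mog cd1q2b cd6q0 pd3 0 true true true .up 2 0 3 (qsf 1239849684 370763052 0 536870912 3) ndB1q2b ndB6q0 pcB3 Cut.none Ext.none)

def k0_pp_203_b : ∃ t, chk3 f_pp_203_b t 1 1 1 = true :=
  ⟨(l 4), by decide +kernel⟩

theorem c_pp_203_b : CertB 1239849684 370763052 0 536870912 697932185 42949674 3 eng mog cd1q2b cd6q0 pd3 true true true .up 2 0 3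
    ndB1q2b ndB6q0 pcB3 Cut.none Ext.none :=
  certB0 (fam := true) (s1 := true) (s2 := true) (a := 2) (b := 0) (c := 3) (cn := .up) (n1 := ndB1q2b) (n2 := ndB6q0) (pc := pcB3) (cut := Cut.none) (xt := Ext.none) (P1 := 1239849684) (W1 := 370763052) (P2 := 0) (W2 := 536870912) (P3 := 697932185) (W3 := 42949674) (N0 := 3) (En := eng) (mo := mog) (C1 := cd1q2b) (C2 := cd6q0) (C3 := pd3)
    rfl k0_pp_203_b

noncomputable def f_pp_213_a : ℕ → ℕ → ℕ → ℕ → Bool := onCell 0 536870912 536870912 536870912 697932185 42949674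
    (rowB 3 eng mog cd1q2a cd6q1 pd3 0 true true true .pnn 2 1 3 (qsf 0 536870912 536870912 536870912 3) ndB1q2a ndB6q1 pcB3 Cut.none Ext.none)

def k0_pp_213_a : ∃ t, chk3 f_pp_213_a t 1 1 1 = true :=
  ⟨(l 4), by decide +kernel⟩

theorem c_pp_213_a : CertB 0 536870912 536870912 536870912 697932185 42949674 3 eng mog cd1q2a cd6q1 pd3 true true true .pnn 2 1 3
    ndB1q2a ndB6q1 pcB3 Cut.none Ext.none :=
  certB0 (fam := true) (s1 := true) (s2 := true) (a := 2) (b := 1) (c := 3) (cn := .pnn) (n1 := ndB1q2a) (n2 := ndB6q1) (pc := pcB3) (cut := Cut.none) (xt := Ext.none) (P1 := 0) (W1 := 536870912) (P2 := 536870912) (W2 := 536870912) (P3 := 697932185) (W3 := 42949674) (N0 := 3) (En := eng) (mo := mog) (C1 := cd1q2a) (C2 := cd6q1) (C3 := pd3)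
    rfl k0_pp_213_a

noncomputable def f_pp_213_b : ℕ → ℕ → ℕ → ℕ → Bool := onCell 1239849684 370763052 536870912 536870912 697932185 42949674
    (rowB 3 eng mog cd1q2b cd6q1 pd3 0 true true true .pnn 2 1 3 (qsf 1239849684 370763052 536870912 536870912 3) ndB1q2b ndB6q1 pcB3 Cut.none Ext.none)

def k0_pp_213_b : ∃ t, chk3 f_pp_213_b t 1 1 1 = true :=
  ⟨(l 4), by decide +kernel⟩

theorem c_pp_213_b : CertB 1239849684 370763052 536870912 536870912 697932185 42949674 3 eng mog cd1q2b cd6q1 pd3 true true true .pnn 2 1 3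
    ndB1q2b ndB6q1 pcB3 Cut.none Ext.none :=
  certB0 (fam := true) (s1 := true) (s2 := true) (a := 2) (b := 1) (c := 3) (cn := .pnn) (n1 := ndB1q2b) (n2 := ndB6q1) (pc := pcB3) (cut := Cut.none) (xt := Ext.none) (P1 := 1239849684) (W1 := 370763052) (P2 := 536870912) (W2 := 536870912) (P3 := 697932185) (W3 := 42949674) (N0 := 3) (En := eng) (mo := mog) (C1 := cd1q2b) (C2 := cd6q1) (C3 := pd3)
    rfl k0_pp_213_b

noncomputable def f_pp_303 : ℕ → ℕ → ℕ → ℕ → Bool := onCell 1610612736 536870912 0 536870912 697932185 42949674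
    (rowB 3 eng mog cd1q3 cd6q0 pd3 0 true true true .npn 3 0 3 (qsf 1610612736 536870912 0 536870912 3) ndB1q3 ndB6q0 pcB3 Cut.none Ext.none)

def k0_pp_303 : ∃ t, chk3 f_pp_303 t 1 1 1 = true :=
  ⟨(l 4), by decide +kernel⟩

theorem c_pp_303 : CertB 1610612736 536870912 0 536870912 697932185 42949674 3 eng mog cd1q3 cd6q0 pd3 true true true .npn 3 0 3
    ndB1q3 ndB6q0 pcB3 Cut.none Ext.none :=
  certB0 (fam := true) (s1 := true) (s2 := true) (a := 3) (b := 0) (c := 3) (cn := .npn) (n1 := ndB1q3) (n2 := ndB6q0) (pc := pcB3) (cut := Cut.none) (xt := Ext.none) (P1 := 1610612736) (W1 := 536870912) (P2 := 0) (W2 := 536870912) (P3 := 697932185) (W3 := 42949674) (N0 := 3) (En := eng) (mo := mog) (C1 := cd1q3) (C2 := cd6q0) (C3 := pd3)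
    rfl k0_pp_303

noncomputable def f_pp_313 : ℕ → ℕ → ℕ → ℕ → Bool := onCell 1610612736 536870912 536870912 536870912 697932185 42949674
    (rowB 3 eng mog cd1q3 cd6q1 pd3 0 true true true .dn 3 1 3 (qsf 1610612736 536870912 536870912 536870912 3) ndB1q3 ndB6q1 pcB3 Cut.none Ext.none)

def k0_pp_313 : ∃ t, chk3 f_pp_313 t 1 1 1 = true :=
  ⟨(l 4), by decide +kernel⟩

theorem c_pp_313 : CertB 1610612736 536870912 536870912 536870912 697932185 42949674 3 eng mog cd1q3 cd6q1 pd3 true true true .dn 3 1 3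
    ndB1q3 ndB6q1 pcB3 Cut.none Ext.none :=
  certB0 (fam := true) (s1 := true) (s2 := true) (a := 3) (b := 1) (c := 3) (cn := .dn) (n1 := ndB1q3) (n2 := ndB6q1) (pc := pcB3) (cut := Cut.none) (xt := Ext.none) (P1 := 1610612736) (W1 := 536870912) (P2 := 536870912) (W2 := 536870912) (P3 := 697932185) (W3 := 42949674) (N0 := 3) (En := eng) (mo := mog) (C1 := cd1q3) (C2 := cd6q1) (C3 := pd3)
    rfl k0_pp_313

noncomputable def f_pm_001 : ℕ → ℕ → ℕ → ℕ → Bool := onCell 0 536870912 536870912 536870912 697932185 42949674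
    (rowB 3 eng mog cd1q0 cd6q0 pd1 1 true true false .up 0 0 1 (qsf 0 536870912 0 536870912 1) ndB1q0 ndB6q0 pcB1 Cut.none Ext.none)

def k0_pm_001 : ∃ t, chk3 f_pm_001 t 1 1 1 = true :=
  ⟨(b (l 3) (b (l 3) (a (l 2) (b (a (l 3) (b (l 3) (a (a (l 85462735399) (l 16475840)) (b (l 16417552) (l 16380240))))) (a (l 2) (b (a (a (l 2) (l 16393904)) (l 16415120)) (a (l 2) (l 117137612295)))))))), by decide +kernel⟩

theorem c_pm_001 : CertB 0 536870912 0 536870912 697932185 42949674 3 eng mog cd1q0 cd6q0 pd1 true true false .up 0 0 1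
    ndB1q0 ndB6q0 pcB1 Cut.none Ext.none :=
  certB1 (fam := true) (s1 := true) (s2 := false) (a := 0) (b := 0) (c := 1) (cn := .up) (n1 := ndB1q0) (n2 := ndB6q0) (pc := pcB1) (cut := Cut.none) (xt := Ext.none) (P1 := 0) (W1 := 536870912) (P2 := 0) (W2 := 536870912) (P3 := 697932185) (W3 := 42949674) (N0 := 3) (En := eng) (mo := mog) (C1 := cd1q0) (C2 := cd6q0) (C3 := pd1)
    rfl (fun _ => rfl) k0_pm_001

noncomputable def cut_pm_011 : Cut := Cut.of [[⟨0, 0, 0, 67108864⟩, ⟨1, 1, 0, 67108864⟩, ⟨2, 1, 0, 67108864⟩]]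

noncomputable def f_pm_011 : ℕ → ℕ → ℕ → ℕ → Bool := onCell 0 536870912 536870912 536870912 697932185 42949674
    (rowB 3 eng mog cd1q0 cd6q1 pd1 1 true true false .pnn 0 1 1 (qsf 0 536870912 536870912 536870912 1) ndB1q0 ndB6q1 pcB1 cut_pm_011 Ext.none)

def k0_pm_011 : ∃ t, chk3 f_pm_011 t 1 1 1 = true :=
  ⟨(b (l 3) (b (l 3) (a (b (l 3) (a (b (l 3) (a (b (l 3) (a (l 6) (b (a (l 3) (l 1017538030167)) (a (l 6) (b (l 16746936) (l 16717672)))))) (b (a (l 3) (a (l 3) (l 16706336))) (a (b (a (b (l 3) (l 16716200)) (l 16702280)) (a (l 16724648) (l 16685584))) (b (l 16682984) (l 16661368)))))) (b (a (l 3) (b (l 3) (a (l 16628264) (l 16590760)))) (a (b (a (b (l 3) (l 16664056)) (l 16635544)) (a (l 16661320) (l 16603344))) (b (a (l 16597352) (l 16560776)) (l 16611808)))))) (b (a (l 3) (b (l 3) (a (b (l 3) (l 16432184)) (b (l 1) (l 16356736))))) (a (b (a (b (l 16615208) (l 16573544)) (a (l 16547240) (l 16463912))) (b (a (l 16501288) (l 16422112)) (a (l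 16470984) (l 16394744)))) (b (a (l 16467048) (l 16348128)) (a (l 16347152) (l 16265992)))))))), by decide +kernel⟩

theorem c_pm_011 : CertB 0 536870912 536870912 536870912 697932185 42949674 3 eng mog cd1q0 cd6q1 pd1 true true false .pnn 0 1 1
    ndB1q0 ndB6q1 pcB1 cut_pm_011 Ext.none :=
  certB1 (fam := true) (s1 := true) (s2 := false) (a := 0) (b := 1) (c := 1) (cn := .pnn) (n1 := ndB1q0) (n2 := ndB6q1) (pc := pcB1) (cut := cut_pm_011) (xt := Ext.none) (P1 := 0) (W1 := 536870912) (P2 := 536870912) (W2 := 536870912) (P3 := 697932185) (W3 := 42949674) (N0 := 3) (En := eng) (mo := mog) (C1 := cd1q0) (C2 := cd6q1) (C3 := pd1)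
    rfl (fun _ => rfl) k0_pm_011

noncomputable def cut_pm_012 : Cut := Cut.of [[⟨0, 0, 0, 67108864⟩, ⟨1, 1, 0, 67108864⟩, ⟨2, 1, 0, 67108864⟩]]

noncomputable def f_pm_012 : ℕ → ℕ → ℕ → ℕ → Bool := onCell 1073741824 536870912 536870912 536870912 697932185 42949674
    (rowB 3 eng mog cd1q0 cd6q1 pd2 2 true true false .pnp 0 1 2 (qsf 0 536870912 536870912 536870912 2) ndB1q0 ndB6q1 pcB2 cut_pm_012 Ext.none)

def k0_pm_012 : ∃ t, chk3 f_pm_012 t 4 1 1 = true :=
  ⟨(a (b (b (b (l 16197888) (l 16324336)) (b (a (l 16342728) (l 16343264)) (a (l 16475848) (l 16484008)))) (b (b (a (b (l 16465832) (l 16521848)) (b (l 16378032) (l 16405512))) (b (a (l 16617808) (l 16558816)) (a (a (l 16597336) (l 16542672)) (a (l 16489656) (l 16438232))))) (a (b (b (a (a (l 16644632) (l 16622032)) (a (l 16592776) (l 16563952))) (a (a (l 16698272) (l 16657816)) (a (l 16628248) (l 16640520)))) (a (b (b (a (l 16704832) (l 16679872)) (a (l 6) (l 16693920))) (l 6)) (b (b (a (l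 16649976) (l 16620424)) (a (l 16663240) (l 16632912))) (b (a (l 6) (b (l 16642056) (l 6))) (l 6))))) (b (b (a (l 16521504) (l 16466544)) (a (b (l 16545752) (l 16561920)) (l 16495008))) (b (b (a (l 16597160) (l 16516456)) (a (a (l 16602872) (l 16573144)) (l 16549752))) (b (a (a (l 16635200) (l 16583688)) (b (l 16536264) (l 16540840))) (a (b (a (l 6) (l 16591368)) (l 6)) (b (l 16545312) (a (l 16565176) (l 16534352)))))))))) (b (b (b (l 16064368) (a (l 16163248) (l 16112272))) (b (a (l 16220952) (l 16164544)) (a (l 16267048) (l 16202432)))) (b (b (a (a (l 16327488) (l 16287056)) (b (l 16223928) (l 16236200))) (a (b (l 16336952) (l 16383584)) (b (l 16248640) (l 16267304)))) (b (a (b (l 16471408) (a (l 16438088) (l 16383200))) (b (l 16391928) (a (l 16330328) (l 16279304)))) (a (b (a (b (l 16456656) (l 16468944)) (l 16424904)) (b (a (l 16500216) (l 16419320)) (a (b (l 16485200) (l 16488736)) (b (l 16426000) (l 16429264))))) (b (a (l 16347048) (l 16292184))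 (b (a (l 16359408) (l 16301312)) (a (l 16388392) (l 16307248))))))))), by decide +kernel⟩

def k1_pm_012 : ∃ t, chk3 f_pm_012 t 5 1 1 = true :=
  ⟨(b (a (b (a (a (l 16039488) (l 2)) (l 2)) (a (a (b (l 16124312) (l 16157544)) (b (l 16273344) (a (l 16136704) (l 16127048)))) (b (l 16070672) (l 16096120)))) (b (l 2) (b (l 16057352) (l 16059016)))) (b (a (a (b (a (l 16177944) (a (l 16153760) (l 16224696))) (a (l 16194904) (a (l 16165504) (a (l 16151488) (l 16226872))))) (b (l 16104480) (b (l 16102112) (l 16104816)))) (b (l 16044048) (b (l 16024024) (l 16014280)))) (a (b (a (a (b (l 16215800) (l 16229416)) (a (l 16229360) (a (l 16170088) (b (l 16154408) (l 16161904))))) (b (l 16129224) (a (l 16133352) (l 16089344)))) (a (a (b (l 16239208) (b (l 16245040) (l 16248664))) (b (a (l 16200632) (a (l 16181360) (a (l 16171360) (l 16164176)))) (a (l 16204872) (a (l 16183728) (a (l 16172568) (b (l 16164512) (l 16164088))))))) (b (a (l 16136632) (l 16088632)) (a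 (b (l 16136088) (l 16134424)) (b (l 16086216) (l 16082528)))))) (b (b (a (l 16035608) (l 15975608)) (a (l 16028736) (l 15959632))) (b (a (l 16020768) (l 15942280)) (a (b (l 16013832) (a (l 16032560) (l 15984808))) (b (l 15928288) (l 15918432)))))))), by decide +kernel⟩

def k2_pm_012 : ∃ t, chk3 f_pm_012 t 3 1 1 = true :=
  ⟨(b (a (b (l 2) (a (b (l 2) (l 16040272)) (l 2))) (l 2)) (a (b (a (b (l 15996824) (l 15944232)) (b (l 15985976) (l 15909368))) (b (a (b (l 15907480) (l 15880280)) (a (l 15846032) (l 15827808))) (a (b (a (l 15877720) (l 15826600)) (a (b (l 15856968) (l 15842624)) (l 15790840))) (b (l 15772896) (a (l 15745320) (l 15712432)))))) (b (a (b (l 2) (l 15917096)) (l 2)) (a (b (l 15821960) (a (l 15719416) (l 15714032))) (b (l 15855216) (b (l 15762256) (l 15695384))))))), by decide +kernel⟩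

theorem s3_pm_012 : ∃ t, chk3 f_pm_012 t 2 1 1 = true := ex3_a k0_pm_012 k1_pm_012

theorem s4_pm_012 : ∃ t, chk3 f_pm_012 t 1 1 1 = true := ex3_a s3_pm_012 k2_pm_012

theorem c_pm_012 : CertB 0 536870912 536870912 536870912 697932185 42949674 3 eng mog cd1q0 cd6q1 pd2 true true false .pnp 0 1 2
    ndB1q0 ndB6q1 pcB2 cut_pm_012 Ext.none :=
  certB2 (fam := true) (s1 := true) (s2 := false) (a := 0) (b := 1) (c := 2) (cn := .pnp) (n1 := ndB1q0) (n2 := ndB6q1) (pc := pcB2) (cut := cut_pm_012) (xt := Ext.none) (P1 := 0) (W1 := 536870912) (P2 := 536870912) (W2 := 536870912) (P3 := 697932185) (W3 := 42949674) (N0 := 3) (En := eng) (mo := mog) (C1 := cd1q0) (C2 := cd6q1) (C3 := pd2)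
    rfl (fun _ => rfl) s4_pm_012

noncomputable def f_pm_022 : ℕ → ℕ → ℕ → ℕ → Bool := onCell 1073741824 536870912 1073741824 536870912 697932185 42949674
    (rowB 3 eng mog cd1q0 cd6q2 pd2 2 true true false .pp 0 2 2 (qsf 0 536870912 1073741824 536870912 2) ndB1q0 ndB6q2 pcB2 Cut.none Ext.none)

def k0_pm_022 : ∃ t, chk3 f_pm_022 t 1 1 1 = true :=
  ⟨(a (b (a (b (l 3) (a (l 1) (b (l 3) (l 1)))) (a (a (a (l 3) (a (b (l 3) (l 3)) (b (a (b (l 16518288) (a (l 3) (l 16465024))) (b (a (b (l 16461040) (l 16464616)) (l 16457960)) (a (a (l 16461288) (l 16459072)) (b (l 16436512) (c (l 16431592) (l 16454192)))))) (a (l 3) (b (a (b (a (l 16454008) (l 16451864)) (l 1)) (a (b (a (a (l 16450480) (l 144988059975)) (l 16448952)) (l 1)) (b (l 16447272) (b (l 16443400) (l 1))))) (l 1)))))) (b (b (l 16416928) (b (l 16418792) (l 16415504))) (b (b (l 16411000) (b (l 16407280) (l 67678720343))) (b (l 431140102007) (l 1))))) (b (b (b (l 16309056) (l 16314560)) (a (b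 (l 16349384) (l 16347928)) (l 16285744))) (b (b (a (l 16344064) (l 16281752)) (b (l 16371872) (l 16400144))) (b (b (l 16410320) (l 227665958695)) (a (l 309807108615) (l 344166744087))))))) (a (l 1) (b (a (l 1) (b (b (l 333429300535) (l 1)) (l 1))) (l 1)))) (b (b (a (b (a (l 16345000) (l 16120656)) (a (b (l 16203040) (l 16202424)) (l 16119856))) (a (b (l 16078848) (l 16069288)) (b (l 16069800) (l 16049432)))) (a (b (a (b (l 16199168) (b (l 16195160) (l 16223704))) (b (l 16112464) (l 16111576))) (a (b (l 16281168) (l 16234704)) (b (l 16131296) (l 16137240)))) (a (b (b (l 16057928) (l 16053640)) (l 16122592)) (b (l 16031896) (l 16057512))))) (b (a (b (a (b (l 355440828679) (l 328597287079)) (b (l 16127056) (l 16106568))) (a (b (l 387116121975) (l 1)) (a (l 353830338007) (l 241087336663)))) (b (a (l 16067680) (l 16035920)) (a (b (l 16052400) (l 16038688)) (l 16036416)))) (a (a (l 1) (b (l 474625832919) (l 1))) (b (a (l 410738408503) (l 16031824)) (a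 (l 485900053543) (l 433824072727))))))), by decide +kernel⟩

theorem c_pm_022 : CertB 0 536870912 1073741824 536870912 697932185 42949674 3 eng mog cd1q0 cd6q2 pd2 true true false .pp 0 2 2
    ndB1q0 ndB6q2 pcB2 Cut.none Ext.none :=
  certB2 (fam := true) (s1 := true) (s2 := false) (a := 0) (b := 2) (c := 2) (cn := .pp) (n1 := ndB1q0) (n2 := ndB6q2) (pc := pcB2) (cut := Cut.none) (xt := Ext.none) (P1 := 0) (W1 := 536870912) (P2 := 1073741824) (W2 := 536870912) (P3 := 697932185) (W3 := 42949674) (N0 := 3) (En := eng) (mo := mog) (C1 := cd1q0) (C2 := cd6q2) (C3 := pd2)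
    rfl (fun _ => rfl) k0_pm_022

noncomputable def f_pm_023 : ℕ → ℕ → ℕ → ℕ → Bool := onCell 1610612736 536870912 1073741824 536870912 697932185 42949674
    (rowB 3 eng mog cd1q0 cd6q2 pd3 2 true true false .up 0 2 3 (qsf 0 536870912 1073741824 536870912 3) ndB1q0 ndB6q2 pcB3 Cut.none Ext.none)

def k0_pm_023 : ∃ t, chk3 f_pm_023 t 1 1 1 = true :=
  ⟨(a (a (b (b (a (b (l 16096832) (l 16058816)) (l 73114203543)) (b (a (l 16032648) (l 16054680)) (l 16195120))) (b (b (l 16070304) (l 16043840)) (b (a (l 16066792) (l 16096656)) (a (l 16063496) (l 16124776))))) (b (b (a (b (l 2) (l 16141552)) (l 2)) (b (a (l 16097128) (l 16150768)) (l 16148296))) (b (b (l 16172320) (l 16147928)) (a (l 16166664) (b (l 16210088) (l 16246872)))))) (b (a (b (l 2) (a (b (l 2) (l 16240536)) (l 2))) (l 2)) (b (a (b (a (l 16294104) (l 16353568)) (l 16379984)) (a (l 664746658839) (l 2))) (a (a (l 16377360) (l 16493728)) (a (l 16574648) (a (l 16613928) (a (l 16627936) (a (l 16633968)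 (a (l 16636936) (l 547709220471)))))))))), by decide +kernel⟩

theorem c_pm_023 : CertB 0 536870912 1073741824 536870912 697932185 42949674 3 eng mog cd1q0 cd6q2 pd3 true true false .up 0 2 3
    ndB1q0 ndB6q2 pcB3 Cut.none Ext.none :=
  certB2 (fam := true) (s1 := true) (s2 := false) (a := 0) (b := 2) (c := 3) (cn := .up) (n1 := ndB1q0) (n2 := ndB6q2) (pc := pcB3) (cut := Cut.none) (xt := Ext.none) (P1 := 0) (W1 := 536870912) (P2 := 1073741824) (W2 := 536870912) (P3 := 697932185) (W3 := 42949674) (N0 := 3) (En := eng) (mo := mog) (C1 := cd1q0) (C2 := cd6q2) (C3 := pd3)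
    rfl (fun _ => rfl) k0_pm_023

noncomputable def f_pm_033 : ℕ → ℕ → ℕ → ℕ → Bool := onCell 1610612736 536870912 0 1230186008 697932185 42949674
    (rowB 3 eng mog cd1q0 cd6q3 pd3 2 true true false .pnn 0 3 3 (qsf 0 536870912 0 1230186008 3) ndB1q0 ndB6q3 pcB3 Cut.none Ext.none)

def k0_pm_033 : ∃ t, chk3 f_pm_033 t 1 1 1 = true :=
  ⟨(a (b (l 1) (b (b (l 1) (a (l 1) (b (l 1) (a (l 1) (a (l 1) (l 428992389815)))))) (b (a (l 1) (a (a (b (l 1) (l 418254610903)) (b (l 378526000551) (l 16007056))) (a (b (a (l 380673428407) (l 377452230759)) (a (l 16044328) (l 16069696))) (b (l 16050088) (l 16092728))))) (a (a (b (l 1) (l 422012708983)) (b (l 432750167223) (l 16082352))) (a (b (l 16056680) (l 16148248)) (b (a (l 16116208) (l 16152240)) (l 16216248))))))) (a (b (l 1) (b (a (b (l 1) (a (b (l 437582300103) (l 352219906135)) (b (l 16039112) (l 16075712)))) (b (a (b (l 1) (l 16114600)) (l 16146544)) (a (b (l 16096512) (l 16124744)) (b (l 16164696) (l 16196032)))))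 (b (a (b (a (l 16082000) (l 16122592)) (l 16282296)) (a (b (l 16170552) (l 16236504)) (b (l 16237232) (l 16299528)))) (a (b (l 16228080) (l 16333032)) (b (l 16350288) (l 16407904)))))) (b (b (l 4) (a (a (b (l 1) (l 16148728)) (l 4)) (l 4))) (a (a (b (b (a (l 16199016) (l 16225600)) (b (l 16242272) (l 16266632))) (b (b (l 16324808) (l 16378848)) (l 16620488))) (b (b (l 16236000) (l 16324416)) (b (b (l 16395904) (l 16466880)) (l 16551352)))) (a (b (b (l 4) (l 16371240)) (b (b (l 16463520) (l 16519680)) (l 16598232))) (b (l 4) (a (b (l 16527592) (l 16626736)) (b (l 4) (a (l 16642520) (l 16641760)))))))))), by decide +kernel⟩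

theorem c_pm_033 : CertB 0 536870912 0 1230186008 697932185 42949674 3 eng mog cd1q0 cd6q3 pd3 true true false .pnn 0 3 3
    ndB1q0 ndB6q3 pcB3 Cut.none Ext.none :=
  certB2 (fam := true) (s1 := true) (s2 := false) (a := 0) (b := 3) (c := 3) (cn := .pnn) (n1 := ndB1q0) (n2 := ndB6q3) (pc := pcB3) (cut := Cut.none) (xt := Ext.none) (P1 := 0) (W1 := 536870912) (P2 := 0) (W2 := 1230186008) (P3 := 697932185) (W3 := 42949674) (N0 := 3) (En := eng) (mo := mog) (C1 := cd1q0) (C2 := cd6q3) (C3 := pd3)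
    rfl (fun _ => rfl) k0_pm_033

noncomputable def f_pm_101 : ℕ → ℕ → ℕ → ℕ → Bool := onCell 536870912 536870912 0 536870912 697932185 42949674
    (rowB 3 eng mog cd1q1 cd6q0 pd1 2 true true false .npn 1 0 1 (qsf 536870912 536870912 0 536870912 1) ndB1q1 ndB6q0 pcB1 Cut.none Ext.none)

def k0_pm_101 : ∃ t, chk3 f_pm_101 t 1 1 1 = true :=
  ⟨(a (l 3) (a (b (a (l 3) (b (a (l 3) (b (a (b (l 16804536) (l 96804541319)) (b (l 16694024) (l 16718104))) (a (l 151565493415) (b (l 16738776) (l 16751984))))) (a (l 3) (b (a (l 3) (b (l 16775696) (l 111836736871))) (l 3))))) (l 3)) (b (a (b (b (a (a (l 16746136) (l 16583056)) (b (l 16491816) (l 16511960))) (a (a (b (l 16675744) (l 16691520)) (b (l 16616616) (l 16635360))) (b (l 16531680) (l 16552760)))) (a (b (a (b (l 16704144) (l 96804376311)) (b (l 16647384) (l 16635696))) (a (b (l 16640752) (l 16586528)) (b (l 16585040) (l 16531576)))) (b (b (l 16569280) (a (l 16583136) (l 16532432))) (a (l 16548200) (l 16455544)))))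 (b (b (a (b (l 16400376) (l 16409224)) (b (l 16368744) (l 16310128))) (a (l 16433288) (l 16368512))) (b (a (b (l 16462072) (l 16455216)) (a (l 16459648) (l 16316808))) (a (a (l 16403440) (l 16350168)) (l 16267528))))) (a (b (a (b (a (b (l 16531160) (l 3)) (b (l 16476192) (l 16419656))) (b (a (l 3) (l 16418336)) (l 43117005399))) (b (a (l 16393456) (l 16318680)) (a (a (l 16466504) (l 16354488)) (l 16332720)))) (a (l 3) (b (a (l 16390776) (l 16319872)) (l 137471942615)))) (b (b (a (b (l 16287536) (l 16222984)) (l 16135440)) (a (b (l 16205032) (l 16240200)) (l 16135744))) (a (b (l 16243704) (l 16373896)) (b (l 16136552) (l 16240312)))))))), by decide +kernel⟩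

theorem c_pm_101 : CertB 536870912 536870912 0 536870912 697932185 42949674 3 eng mog cd1q1 cd6q0 pd1 true true false .npn 1 0 1
    ndB1q1 ndB6q0 pcB1 Cut.none Ext.none :=
  certB2 (fam := true) (s1 := true) (s2 := false) (a := 1) (b := 0) (c := 1) (cn := .npn) (n1 := ndB1q1) (n2 := ndB6q0) (pc := pcB1) (cut := Cut.none) (xt := Ext.none) (P1 := 536870912) (W1 := 536870912) (P2 := 0) (W2 := 536870912) (P3 := 697932185) (W3 := 42949674) (N0 := 3) (En := eng) (mo := mog) (C1 := cd1q1) (C2 := cd6q0) (C3 := pd1)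
    rfl (fun _ => rfl) k0_pm_101

noncomputable def f_pm_102 : ℕ → ℕ → ℕ → ℕ → Bool := onCell 536870912 536870912 1073741824 536870912 697932185 42949674
    (rowB 3 eng mog cd1q1 cd6q0 pd2 1 true true false .npp 1 0 2 (qsf 536870912 536870912 0 536870912 2) ndB1q1 ndB6q0 pcB2 Cut.none Ext.none)

def k0_pm_102 : ∃ t, chk3 f_pm_102 t 1 1 1 = true :=
  ⟨(a (b (b (a (a (b (l 16185792) (l 16100912)) (b (l 16088952) (l 16028960))) (b (a (a (l 15965304) (l 15962152)) (b (l 16019784) (l 15958744))) (a (l 15969640) (l 15932704)))) (a (b (b (a (l 2) (l 16037240)) (l 2)) (l 2)) (b (b (b (l 15948864) (l 15952184)) (l 15938456)) (a (l 16090096) (l 16064680))))) (b (a (l 2) (b (l 16203320) (l 2))) (l 2))) (b (b (a (b (a (b (l 16138208) (l 16050496)) (b (b (l 16240920) (l 16197160)) (l 16135864))) (a (b (l 15997392) (l 15966632)) (b (l 16073176) (l 16031872)))) (b (a (b (l 16262392) (a (l 16176208) (l 16184920))) (b (a (b (l 16224784) (l 16206728)) (b (l 16236312)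 (l 16220992))) (a (l 16205824) (a (l 16218760) (l 16209056))))) (a (b (l 16255968) (l 16140216)) (a (b (l 16209680) (l 16201472)) (b (l 16199944) (l 16190720)))))) (a (b (b (a (b (l 15956912) (l 15948960)) (b (l 16015016) (l 16015408))) (a (l 15955968) (l 16113112))) (a (l 16080104) (l 16143272))) (b (a (b (l 16122704) (l 16118496)) (b (a (l 16182856) (l 16184328)) (b (l 16177720) (l 16184568)))) (a (b (l 16167944) (l 16219512)) (b (l 16207224) (l 16238400)))))) (b (a (b (l 16436752) (l 16323272)) (b (a (l 16286176) (b (l 16274808) (l 16314888))) (a (l 16364328) (l 16380432)))) (a (b (l 16429400) (l 2)) (b (l 16469744) (l 16575944)))))), by decide +kernel⟩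

theorem c_pm_102 : CertB 536870912 536870912 0 536870912 697932185 42949674 3 eng mog cd1q1 cd6q0 pd2 true true false .npp 1 0 2
    ndB1q1 ndB6q0 pcB2 Cut.none Ext.none :=
  certB1 (fam := true) (s1 := true) (s2 := false) (a := 1) (b := 0) (c := 2) (cn := .npp) (n1 := ndB1q1) (n2 := ndB6q0) (pc := pcB2) (cut := Cut.none) (xt := Ext.none) (P1 := 536870912) (W1 := 536870912) (P2 := 0) (W2 := 536870912) (P3 := 697932185) (W3 := 42949674) (N0 := 3) (En := eng) (mo := mog) (C1 := cd1q1) (C2 := cd6q0) (C3 := pd2)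
    rfl (fun _ => rfl) k0_pm_102

noncomputable def f_pm_112 : ℕ → ℕ → ℕ → ℕ → Bool := onCell 536870912 536870912 1073741824 536870912 697932185 42949674
    (rowB 3 eng mog cd1q1 cd6q1 pd2 1 true true false .dn 1 1 2 (qsf 536870912 536870912 536870912 536870912 2) ndB1q1 ndB6q1 pcB2 Cut.none Ext.none)

def k0_pm_112 : ∃ t, chk3 f_pm_112 t 1 1 1 = true :=
  ⟨(a (b (b (a (b (a (l 16119184) (l 16027464)) (a (l 16111408) (l 16040648))) (b (l 1) (l 219612247255))) (b (a (b (b (l 16140768) (a (l 16081520) (l 16027504))) (a (l 16064800) (l 16020784))) (b (a (l 16147216) (l 1)) (l 16058864))) (a (a (l 16063040) (l 16058408)) (l 16170080)))) (b (a (b (l 16190368) (a (l 15951744) (l 16027456))) (b (l 16112032) (l 16135712))) (a (a (b (l 15875736) (l 15802496)) (b (l 15976408) (l 15928008))) (a (l 16073696) (l 16196400))))) (b (b (l 1) (a (b (l 1) (l 380137286823)) (l 1))) (b (a (b (l 16205552) (l 16278216)) (b (l 1) (l 16572840))) (a (l 16373376) (b (l 16464824)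 (l 16579880)))))), by decide +kernel⟩

theorem c_pm_112 : CertB 536870912 536870912 536870912 536870912 697932185 42949674 3 eng mog cd1q1 cd6q1 pd2 true true false .dn 1 1 2
    ndB1q1 ndB6q1 pcB2 Cut.none Ext.none :=
  certB1 (fam := true) (s1 := true) (s2 := false) (a := 1) (b := 1) (c := 2) (cn := .dn) (n1 := ndB1q1) (n2 := ndB6q1) (pc := pcB2) (cut := Cut.none) (xt := Ext.none) (P1 := 536870912) (W1 := 536870912) (P2 := 536870912) (W2 := 536870912) (P3 := 697932185) (W3 := 42949674) (N0 := 3) (En := eng) (mo := mog) (C1 := cd1q1) (C2 := cd6q1) (C3 := pd2)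
    rfl (fun _ => rfl) k0_pm_112

noncomputable def f_pm_113 : ℕ → ℕ → ℕ → ℕ → Bool := onCell 536870912 536870912 1610612736 536870912 697932185 42949674
    (rowB 3 eng mog cd1q1 cd6q1 pd3 1 true true false .nn 1 1 3 (qsf 536870912 536870912 536870912 536870912 3) ndB1q1 ndB6q1 pcB3 Cut.none Ext.none)

def k0_pm_113 : ∃ t, chk3 f_pm_113 t 1 1 1 = true :=
  ⟨(a (a (b (b (b (a (l 15729704) (l 15892248)) (a (l 325442124039) (l 15748480))) (b (b (b (l 321147163335) (l 2)) (l 2)) (l 2))) (l 2)) (b (b (b (l 16133320) (l 16046024)) (b (b (a (l 15879488) (l 16100256)) (l 342085731191)) (b (b (l 336716911671) (l 337253714295)) (l 360876517479)))) (b (b (a (l 2) (l 15967808)) (l 2)) (l 2)))) (a (b (b (b (l 16479296) (l 16395088)) (b (b (l 16332400) (l 16296656)) (a (l 16173840) (l 16322120)))) (b (b (a (l 16129736) (l 16277472)) (b (l 16186336) (l 425301631479))) (l 4))) (b (b (b (l 16756632) (l 16659272)) (b (l 16583216) (l 16505296))) (b (b (l 16630792)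 (l 4)) (l 4))))), by decide +kernel⟩

theorem c_pm_113 : CertB 536870912 536870912 536870912 536870912 697932185 42949674 3 eng mog cd1q1 cd6q1 pd3 true true false .nn 1 1 3
    ndB1q1 ndB6q1 pcB3 Cut.none Ext.none :=
  certB1 (fam := true) (s1 := true) (s2 := false) (a := 1) (b := 1) (c := 3) (cn := .nn) (n1 := ndB1q1) (n2 := ndB6q1) (pc := pcB3) (cut := Cut.none) (xt := Ext.none) (P1 := 536870912) (W1 := 536870912) (P2 := 536870912) (W2 := 536870912) (P3 := 697932185) (W3 := 42949674) (N0 := 3) (En := eng) (mo := mog) (C1 := cd1q1) (C2 := cd6q1) (C3 := pd3)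
    rfl (fun _ => rfl) k0_pm_113

noncomputable def f_pm_123 : ℕ → ℕ → ℕ → ℕ → Bool := onCell 1610612736 536870912 1073741824 536870912 697932185 42949674
    (rowB 3 eng mog cd1q1 cd6q2 pd3 2 true true false .npn 1 2 3 (qsf 536870912 536870912 1073741824 536870912 3) ndB1q1 ndB6q2 pcB3 Cut.none Ext.none)

def k0_pm_123 : ∃ t, chk3 f_pm_123 t 1 1 1 = true :=
  ⟨(a (a (b (b (b (a (l 16111280) (l 16162368)) (l 93985064455)) (b (l 181495001815) (l 1))) (l 1)) (b (b (a (b (l 16272824) (l 16164608)) (a (b (l 16365256) (l 16239560)) (a (l 16320784) (l 16329816)))) (b (a (l 16119424) (l 16177536)) (l 16185920))) (b (b (l 16265184) (l 1)) (l 1)))) (b (b (a (a (b (b (l 16439016) (l 16372784)) (a (l 16290144) (l 16300616))) (a (b (l 16432576) (l 16317856)) (b (b (l 16499688) (l 16423992)) (a (l 16331144) (l 16349392))))) (a (b (a (a (l 16511144) (l 16546712)) (a (l 16564536) (l 16576264))) (a (a (l 16377216) (l 16405560)) (a (l 16448640) (l 16468560)))) (a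 (b (l 16696512) (a (l 16488152) (l 16506832))) (a (l 16717088) (l 4))))) (a (a (b (l 16231648) (l 16261832)) (b (a (l 16252496) (l 16441248)) (a (l 16295576) (l 16313280)))) (a (b (a (l 16385560) (a (l 16351416) (l 16368800))) (a (l 16336880) (l 16386760))) (a (b (a (l 16415592) (l 16426600)) (a (l 16411504) (l 16434056))) (a (b (l 16441320) (l 16455760)) (a (l 16451576) (a (l 16446320) (l 4)))))))) (a (b (b (a (l 16316336) (l 16370224)) (l 16410376)) (b (l 16496224) (l 1))) (a (b (b (a (l 16401544) (l 16426232)) (l 16482000)) (l 16598992)) (a (b (b (l 16459360) (l 16513824)) (l 16625920)) (a (b (b (l 16493480) (l 16534792)) (l 16638576)) (b (a (b (l 16508384) (l 16551160)) (a (l 16531544) (l 1842238947143))) (a (l 16645008) (a (l 16648440) (l 16881624)))))))))), by decide +kernel⟩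

theorem c_pm_123 : CertB 536870912 536870912 1073741824 536870912 697932185 42949674 3 eng mog cd1q1 cd6q2 pd3 true true false .npn 1 2 3
    ndB1q1 ndB6q2 pcB3 Cut.none Ext.none :=
  certB2 (fam := true) (s1 := true) (s2 := false) (a := 1) (b := 2) (c := 3) (cn := .npn) (n1 := ndB1q1) (n2 := ndB6q2) (pc := pcB3) (cut := Cut.none) (xt := Ext.none) (P1 := 536870912) (W1 := 536870912) (P2 := 1073741824) (W2 := 536870912) (P3 := 697932185) (W3 := 42949674) (N0 := 3) (En := eng) (mo := mog) (C1 := cd1q1) (C2 := cd6q2) (C3 := pd3)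
    rfl (fun _ => rfl) k0_pm_123

noncomputable def f_pm_133 : ℕ → ℕ → ℕ → ℕ → Bool := onCell 536870912 536870912 0 1230186008 697932185 42949674
    (rowB 3 eng mog cd1q1 cd6q3 pd3 0 true true false .dn 1 3 3 (qsf 536870912 536870912 0 1230186008 3) ndB1q1 ndB6q3 pcB3 Cut.none Ext.none)

def k0_pm_133 : ∃ t, chk3 f_pm_133 t 1 1 1 = true :=
  ⟨(b (l 2) (b (l 2) (a (b (l 2) (a (b (l 2) (a (l 4) (l 2))) (l 2))) (l 2)))), by decide +kernel⟩

theorem c_pm_133 : CertB 536870912 536870912 0 1230186008 697932185 42949674 3 eng mog cd1q1 cd6q3 pd3 true true false .dn 1 3 3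
    ndB1q1 ndB6q3 pcB3 Cut.none Ext.none :=
  certB0 (fam := true) (s1 := true) (s2 := false) (a := 1) (b := 3) (c := 3) (cn := .dn) (n1 := ndB1q1) (n2 := ndB6q3) (pc := pcB3) (cut := Cut.none) (xt := Ext.none) (P1 := 536870912) (W1 := 536870912) (P2 := 0) (W2 := 1230186008) (P3 := 697932185) (W3 := 42949674) (N0 := 3) (En := eng) (mo := mog) (C1 := cd1q1) (C2 := cd6q3) (C3 := pd3)
    rfl k0_pm_133

noncomputable def f_pm_202_a : ℕ → ℕ → ℕ → ℕ → Bool := onCell 0 536870912 1073741824 536870912 697932185 42949674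
    (rowB 3 eng mog cd1q2a cd6q0 pd2 1 true true false .pp 2 0 2 (qsf 0 536870912 0 536870912 2) ndB1q2a ndB6q0 pcB2 Cut.none Ext.none)

def k0_pm_202_a : ∃ t, chk3 f_pm_202_a t 2 1 1 = true :=
  ⟨(b (a (b (l 1) (b (b (a (l 16207048) (l 16215520)) (b (l 16234824) (l 16251824))) (b (l 16281976) (l 16325128)))) (b (b (l 1) (a (l 1) (b (l 1) (b (l 1) (a (l 1) (l 16230392)))))) (b (b (a (b (l 16222712) (l 16230272)) (a (l 16231784) (l 16229736))) (a (l 16391464) (b (l 16235320) (l 16248416)))) (b (a (l 16279024) (l 16275192)) (l 16312696))))) (b (b (a (b (l 16373256) (l 4)) (b (l 16351480) (l 16389504))) (a (l 4) (b (l 16421168) (l 16448888)))) (b (a (l 4) (l 4)) (l 4)))), by decide +kernel⟩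

def k1_pm_202_a : ∃ t, chk3 f_pm_202_a t 3 4 1 = true :=
  ⟨(b (a (l 1) (b (a (l 1) (b (a (l 1) (b (a (l 1) (a (b (l 1) (a (b (l 1) (l 16246288)) (l 16285808))) (a (b (l 16246688) (l 16242712)) (l 16243464)))) (a (a (b (l 1) (l 16245040)) (b (b (l 1) (l 16244808)) (l 16241432))) (a (b (a (l 16242912) (l 16240672)) (l 16237088)) (l 16235736))))) (a (a (b (l 1) (b (l 1) (l 16239912))) (b (b (l 1) (l 16241496)) (a (l 16237000) (l 16233568)))) (a (b (a (l 16238520) (l 16234504)) (l 16227624)) (a (l 16226520) (l 16224632)))))) (b (a (a (l 1) (a (l 1) (b (l 16240704) (l 16233560)))) (a (a (b (l 16233912) (l 16225664)) (l 16222264)) (a (l 16215712) (l 16211928)))) (a (a (b (l 1) (a (l 1) (l 16231520))) (a (b (l 16232504) (l 16225064)) (l 16221632))) (a (a (l 16213528) (l 16207000)) (a (l 16202328) (l 16200944))))))) (a (a (b (l 1) (b (a (l 16232832) (b (l 16232920) (l 16229152))) (a (l 16229040) (l 16222984)))) (b (b (a (l 1) (b (l 1) (a (l 16238752) (l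 16233512)))) (a (b (l 16238496) (l 16232656)) (a (b (l 16233192) (l 16225824)) (l 16223120)))) (a (b (l 16223552) (l 16212880)) (b (a (l 16214768) (l 16209792)) (l 16200376))))) (a (b (a (b (a (l 16250080) (l 16220664)) (l 16211168)) (b (l 16210128) (l 16197016))) (a (b (a (l 16202616) (l 16194624)) (a (l 16191128) (l 16184336))) (b (l 16186032) (l 16176912)))) (b (a (b (a (l 16199504) (l 16194328)) (l 16185760)) (a (b (l 16191464) (l 16182968)) (b (l 16192248) (l 16185784)))) (a (b (l 16177040) (l 16170560)) (a (l 16174528) (c (l 16218248) (l 16142856)))))))), by decide +kernel⟩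

def k2_pm_202_a : ∃ t, chk3 f_pm_202_a t 3 5 1 = true :=
  ⟨(a (b (b (a (a (l 16223920) (l 16214848)) (a (l 16202856) (l 16251968))) (a (b (l 16219480) (l 16231520)) (b (l 16192712) (l 16204568)))) (a (b (l 16258512) (l 16294672)) (b (l 16232888) (l 16268576)))) (b (a (b (a (b (l 16179104) (l 16173800)) (b (a (l 16172064) (l 16168552)) (l 16165840))) (b (a (l 16171952) (l 16164472)) (a (l 16184600) (l 16178224)))) (b (a (b (l 16166288) (a (l 16163280) (l 16165600))) (a (l 16171112) (l 16201800))) (a (b (a (l 16163512) (l 16229640)) (a (l 16178152) (l 16181464))) (b (a (l 16174504) (b (l 16185392) (l 16186360))) (a (b (l 16182992) (l 16191016)) (l 16195232)))))) (a (b (a (l 16214832) (l 16207456)) (l 16240712)) (b (a (l 16225256) (b (l 16205312) (l 16220864))) (l 16237736))))), by decide +kernel⟩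

def k3_pm_202_a : ∃ t, chk3 f_pm_202_a t 3 3 1 = true :=
  ⟨(b (b (a (a (l 16342488) (l 16309504)) (a (l 16282560) (l 16335304))) (a (b (l 16368408) (l 16398496)) (b (l 16408736) (l 16395696)))) (b (a (b (l 16431960) (l 16472152)) (b (l 16445848) (l 16497712))) (a (b (l 16514264) (l 16549312)) (l 16581904)))), by decide +kernel⟩

theorem s4_pm_202_a : ∃ t, chk3 f_pm_202_a t 3 2 1 = true := ex3_b k1_pm_202_a k2_pm_202_a

theorem s5_pm_202_a : ∃ t, chk3 f_pm_202_a t 3 1 1 = true := ex3_b s4_pm_202_a k3_pm_202_a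

theorem s6_pm_202_a : ∃ t, chk3 f_pm_202_a t 1 1 1 = true := ex3_a k0_pm_202_a s5_pm_202_a

theorem c_pm_202_a : CertB 0 536870912 0 536870912 697932185 42949674 3 eng mog cd1q2a cd6q0 pd2 true true false .pp 2 0 2
    ndB1q2a ndB6q0 pcB2 Cut.none Ext.none :=
  certB1 (fam := true) (s1 := true) (s2 := false) (a := 2) (b := 0) (c := 2) (cn := .pp) (n1 := ndB1q2a) (n2 := ndB6q0) (pc := pcB2) (cut := Cut.none) (xt := Ext.none) (P1 := 0) (W1 := 536870912) (P2 := 0) (W2 := 536870912) (P3 := 697932185) (W3 := 42949674) (N0 := 3) (En := eng) (mo := mog) (C1 := cd1q2a) (C2 := cd6q0) (C3 := pd2)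
    rfl (fun _ => rfl) s6_pm_202_a

noncomputable def f_pm_202_b : ℕ → ℕ → ℕ → ℕ → Bool := onCell 1239849684 370763052 0 536870912 697932185 42949674
    (rowB 3 eng mog cd1q2b cd6q0 pd2 0 true true false .pp 2 0 2 (qsf 1239849684 370763052 0 536870912 2) ndB1q2b ndB6q0 pcB2 Cut.none Ext.none)

def k0_pm_202_b : ∃ t, chk3 f_pm_202_b t 1 1 1 = true :=
  ⟨(b (a (b (b (a (b (a (a (l 16248008) (l 16262440)) (l 4)) (l 4)) (l 4)) (l 4)) (l 4)) (l 4)) (l 4)), by decide +kernel⟩

theorem c_pm_202_b : CertB 1239849684 370763052 0 536870912 697932185 42949674 3 eng mog cd1q2b cd6q0 pd2 true true false .pp 2 0 2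
    ndB1q2b ndB6q0 pcB2 Cut.none Ext.none :=
  certB0 (fam := true) (s1 := true) (s2 := false) (a := 2) (b := 0) (c := 2) (cn := .pp) (n1 := ndB1q2b) (n2 := ndB6q0) (pc := pcB2) (cut := Cut.none) (xt := Ext.none) (P1 := 1239849684) (W1 := 370763052) (P2 := 0) (W2 := 536870912) (P3 := 697932185) (W3 := 42949674) (N0 := 3) (En := eng) (mo := mog) (C1 := cd1q2b) (C2 := cd6q0) (C3 := pd2)
    rfl k0_pm_202_b

noncomputable def f_pm_203_a : ℕ → ℕ → ℕ → ℕ → Bool := onCell 0 536870912 1610612736 536870912 697932185 42949674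
    (rowB 3 eng mog cd1q2a cd6q0 pd3 1 true true false .up 2 0 3 (qsf 0 536870912 0 536870912 3) ndB1q2a ndB6q0 pcB3 Cut.none Ext.none)

def k0_pm_203_a : ∃ t, chk3 f_pm_203_a t 1 1 1 = true :=
  ⟨(b (a (l 4) (a (l 4) (b (b (l 16702216) (l 16735272)) (l 2)))) (l 2)), by decide +kernel⟩

theorem c_pm_203_a : CertB 0 536870912 0 536870912 697932185 42949674 3 eng mog cd1q2a cd6q0 pd3 true true false .up 2 0 3
    ndB1q2a ndB6q0 pcB3 Cut.none Ext.none :=
  certB1 (fam := true) (s1 := true) (s2 := false) (a := 2) (b := 0) (c := 3) (cn := .up) (n1 := ndB1q2a) (n2 := ndB6q0) (pc := pcB3) (cut := Cut.none) (xt := Ext.none) (P1 := 0) (W1 := 536870912) (P2 := 0) (W2 := 536870912) (P3 := 697932185) (W3 := 42949674) (N0 := 3) (En := eng) (mo := mog) (C1 := cd1q2a) (C2 := cd6q0) (C3 := pd3)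
    rfl (fun _ => rfl) k0_pm_203_a

noncomputable def f_pm_203_b : ℕ → ℕ → ℕ → ℕ → Bool := onCell 1239849684 370763052 1610612736 536870912 697932185 42949674
    (rowB 3 eng mog cd1q2b cd6q0 pd3 1 true true false .up 2 0 3 (qsf 1239849684 370763052 0 536870912 3) ndB1q2b ndB6q0 pcB3 Cut.none Ext.none)

def k0_pm_203_b : ∃ t, chk3 f_pm_203_b t 1 1 1 = true :=
  ⟨(l 4), by decide +kernel⟩

theorem c_pm_203_b : CertB 1239849684 370763052 0 536870912 697932185 42949674 3 eng mog cd1q2b cd6q0 pd3 true true false .up 2 0 3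
    ndB1q2b ndB6q0 pcB3 Cut.none Ext.none :=
  certB1 (fam := true) (s1 := true) (s2 := false) (a := 2) (b := 0) (c := 3) (cn := .up) (n1 := ndB1q2b) (n2 := ndB6q0) (pc := pcB3) (cut := Cut.none) (xt := Ext.none) (P1 := 1239849684) (W1 := 370763052) (P2 := 0) (W2 := 536870912) (P3 := 697932185) (W3 := 42949674) (N0 := 3) (En := eng) (mo := mog) (C1 := cd1q2b) (C2 := cd6q0) (C3 := pd3)
    rfl (fun _ => rfl) k0_pm_203_b

noncomputable def f_pm_213_a : ℕ → ℕ → ℕ → ℕ → Bool := onCell 0 536870912 1610612736 536870912 697932185 42949674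
    (rowB 3 eng mog cd1q2a cd6q1 pd3 1 true true false .pnn 2 1 3 (qsf 0 536870912 536870912 536870912 3) ndB1q2a ndB6q1 pcB3 Cut.none Ext.none)

def k0_pm_213_a : ∃ t, chk3 f_pm_213_a t 1 1 1 = true :=
  ⟨(b (a (l 4) (a (l 4) (b (b (l 16650688) (l 16620840)) (l 4)))) (l 4)), by decide +kernel⟩

theorem c_pm_213_a : CertB 0 536870912 536870912 536870912 697932185 42949674 3 eng mog cd1q2a cd6q1 pd3 true true false .pnn 2 1 3
    ndB1q2a ndB6q1 pcB3 Cut.none Ext.none :=
  certB1 (fam := true) (s1 := true) (s2 := false) (a := 2) (b := 1) (c := 3) (cn := .pnn) (n1 := ndB1q2a) (n2 := ndB6q1) (pc := pcB3) (cut := Cut.none) (xt := Ext.none) (P1 := 0) (W1 := 536870912) (P2 := 536870912) (W2 := 536870912) (P3 := 697932185) (W3 := 42949674) (N0 := 3) (En := eng) (mo := mog) (C1 := cd1q2a) (C2 := cd6q1) (C3 := pd3)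
    rfl (fun _ => rfl) k0_pm_213_a

noncomputable def f_pm_213_b : ℕ → ℕ → ℕ → ℕ → Bool := onCell 1239849684 370763052 536870912 536870912 697932185 42949674
    (rowB 3 eng mog cd1q2b cd6q1 pd3 0 true true false .pnn 2 1 3 (qsf 1239849684 370763052 536870912 536870912 3) ndB1q2b ndB6q1 pcB3 Cut.none Ext.none)

def k0_pm_213_b : ∃ t, chk3 f_pm_213_b t 1 1 1 = true :=
  ⟨(l 4), by decide +kernel⟩

theorem c_pm_213_b : CertB 1239849684 370763052 536870912 536870912 697932185 42949674 3 eng mog cd1q2b cd6q1 pd3 true true false .pnn 2 1 3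
    ndB1q2b ndB6q1 pcB3 Cut.none Ext.none :=
  certB0 (fam := true) (s1 := true) (s2 := false) (a := 2) (b := 1) (c := 3) (cn := .pnn) (n1 := ndB1q2b) (n2 := ndB6q1) (pc := pcB3) (cut := Cut.none) (xt := Ext.none) (P1 := 1239849684) (W1 := 370763052) (P2 := 536870912) (W2 := 536870912) (P3 := 697932185) (W3 := 42949674) (N0 := 3) (En := eng) (mo := mog) (C1 := cd1q2b) (C2 := cd6q1) (C3 := pd3)
    rfl k0_pm_213_b

noncomputable def f_pm_303 : ℕ → ℕ → ℕ → ℕ → Bool := onCell 1610612736 536870912 0 536870912 697932185 42949674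
    (rowB 3 eng mog cd1q3 cd6q0 pd3 0 true true false .npn 3 0 3 (qsf 1610612736 536870912 0 536870912 3) ndB1q3 ndB6q0 pcB3 Cut.none Ext.none)

def k0_pm_303 : ∃ t, chk3 f_pm_303 t 1 1 1 = true :=
  ⟨(l 4), by decide +kernel⟩

theorem c_pm_303 : CertB 1610612736 536870912 0 536870912 697932185 42949674 3 eng mog cd1q3 cd6q0 pd3 true true false .npn 3 0 3
    ndB1q3 ndB6q0 pcB3 Cut.none Ext.none :=
  certB0 (fam := true) (s1 := true) (s2 := false) (a := 3) (b := 0) (c := 3) (cn := .npn) (n1 := ndB1q3) (n2 := ndB6q0) (pc := pcB3) (cut := Cut.none) (xt := Ext.none) (P1 := 1610612736) (W1 := 536870912) (P2 := 0) (W2 := 536870912) (P3 := 697932185) (W3 := 42949674) (N0 := 3) (En := eng) (mo := mog) (C1 := cd1q3) (C2 := cd6q0) (C3 := pd3)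
    rfl k0_pm_303

noncomputable def f_pm_313 : ℕ → ℕ → ℕ → ℕ → Bool := onCell 1610612736 536870912 536870912 536870912 697932185 42949674
    (rowB 3 eng mog cd1q3 cd6q1 pd3 0 true true false .dn 3 1 3 (qsf 1610612736 536870912 536870912 536870912 3) ndB1q3 ndB6q1 pcB3 Cut.none Ext.none)

def k0_pm_313 : ∃ t, chk3 f_pm_313 t 1 1 1 = true :=
  ⟨(l 4), by decide +kernel⟩

theorem c_pm_313 : CertB 1610612736 536870912 536870912 536870912 697932185 42949674 3 eng mog cd1q3 cd6q1 pd3 true true false .dn 3 1 3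
    ndB1q3 ndB6q1 pcB3 Cut.none Ext.none :=
  certB0 (fam := true) (s1 := true) (s2 := false) (a := 3) (b := 1) (c := 3) (cn := .dn) (n1 := ndB1q3) (n2 := ndB6q1) (pc := pcB3) (cut := Cut.none) (xt := Ext.none) (P1 := 1610612736) (W1 := 536870912) (P2 := 536870912) (W2 := 536870912) (P3 := 697932185) (W3 := 42949674) (N0 := 3) (En := eng) (mo := mog) (C1 := cd1q3) (C2 := cd6q1) (C3 := pd3)
    rfl k0_pm_313

noncomputable def f_mm_001 : ℕ → ℕ → ℕ → ℕ → Bool := onCell 0 536870912 0 536870912 697932185 42949674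
    (rowB 3 eng mog cd1q0 cd6q0 pd1 0 true false false .up 0 0 1 (qsf 0 536870912 0 536870912 1) ndB1q0 ndB6q0 pcB1 Cut.none Ext.none)

def k0_mm_001 : ∃ t, chk3 f_mm_001 t 1 1 1 = true :=
  ⟨(l 4), by decide +kernel⟩

theorem c_mm_001 : CertB 0 536870912 0 536870912 697932185 42949674 3 eng mog cd1q0 cd6q0 pd1 true false false .up 0 0 1
    ndB1q0 ndB6q0 pcB1 Cut.none Ext.none :=
  certB0 (fam := true) (s1 := false) (s2 := false) (a := 0) (b := 0) (c := 1) (cn := .up) (n1 := ndB1q0) (n2 := ndB6q0) (pc := pcB1) (cut := Cut.none) (xt := Ext.none) (P1 := 0) (W1 := 536870912) (P2 := 0) (W2 := 536870912) (P3 := 697932185) (W3 := 42949674) (N0 := 3) (En := eng) (mo := mog) (C1 := cd1q0) (C2 := cd6q0) (C3 := pd1)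
    rfl k0_mm_001

noncomputable def f_mm_011 : ℕ → ℕ → ℕ → ℕ → Bool := onCell 0 536870912 536870912 536870912 697932185 42949674
    (rowB 3 eng mog cd1q0 cd6q1 pd1 0 true false false .pnn 0 1 1 (qsf 0 536870912 536870912 536870912 1) ndB1q0 ndB6q1 pcB1 Cut.none Ext.none)

def k0_mm_011 : ∃ t, chk3 f_mm_011 t 1 1 1 = true :=
  ⟨(l 4), by decide +kernel⟩

theorem c_mm_011 : CertB 0 536870912 536870912 536870912 697932185 42949674 3 eng mog cd1q0 cd6q1 pd1 true false false .pnn 0 1 1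
    ndB1q0 ndB6q1 pcB1 Cut.none Ext.none :=
  certB0 (fam := true) (s1 := false) (s2 := false) (a := 0) (b := 1) (c := 1) (cn := .pnn) (n1 := ndB1q0) (n2 := ndB6q1) (pc := pcB1) (cut := Cut.none) (xt := Ext.none) (P1 := 0) (W1 := 536870912) (P2 := 536870912) (W2 := 536870912) (P3 := 697932185) (W3 := 42949674) (N0 := 3) (En := eng) (mo := mog) (C1 := cd1q0) (C2 := cd6q1) (C3 := pd1)
    rfl k0_mm_011

noncomputable def f_mm_012 : ℕ → ℕ → ℕ → ℕ → Bool := onCell 0 536870912 536870912 536870912 697932185 42949674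
    (rowB 3 eng mog cd1q0 cd6q1 pd2 0 true false false .pnp 0 1 2 (qsf 0 536870912 536870912 536870912 2) ndB1q0 ndB6q1 pcB2 Cut.none Ext.none)

def k0_mm_012 : ∃ t, chk3 f_mm_012 t 1 1 1 = true :=
  ⟨(l 4), by decide +kernel⟩

theorem c_mm_012 : CertB 0 536870912 536870912 536870912 697932185 42949674 3 eng mog cd1q0 cd6q1 pd2 true false false .pnp 0 1 2
    ndB1q0 ndB6q1 pcB2 Cut.none Ext.none :=
  certB0 (fam := true) (s1 := false) (s2 := false) (a := 0) (b := 1) (c := 2) (cn := .pnp) (n1 := ndB1q0) (n2 := ndB6q1) (pc := pcB2) (cut := Cut.none) (xt := Ext.none) (P1 := 0) (W1 := 536870912) (P2 := 536870912) (W2 := 536870912) (P3 := 697932185) (W3 := 42949674) (N0 := 3) (En := eng) (mo := mog) (C1 := cd1q0) (C2 := cd6q1) (C3 := pd2)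
    rfl k0_mm_012

noncomputable def f_mm_022 : ℕ → ℕ → ℕ → ℕ → Bool := onCell 0 536870912 1073741824 536870912 697932185 42949674
    (rowB 3 eng mog cd1q0 cd6q2 pd2 0 true false false .pp 0 2 2 (qsf 0 536870912 1073741824 536870912 2) ndB1q0 ndB6q2 pcB2 Cut.none Ext.none)

def k0_mm_022 : ∃ t, chk3 f_mm_022 t 1 1 1 = true :=
  ⟨(l 4), by decide +kernel⟩

theorem c_mm_022 : CertB 0 536870912 1073741824 536870912 697932185 42949674 3 eng mog cd1q0 cd6q2 pd2 true false false .pp 0 2 2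
    ndB1q0 ndB6q2 pcB2 Cut.none Ext.none :=
  certB0 (fam := true) (s1 := false) (s2 := false) (a := 0) (b := 2) (c := 2) (cn := .pp) (n1 := ndB1q0) (n2 := ndB6q2) (pc := pcB2) (cut := Cut.none) (xt := Ext.none) (P1 := 0) (W1 := 536870912) (P2 := 1073741824) (W2 := 536870912) (P3 := 697932185) (W3 := 42949674) (N0 := 3) (En := eng) (mo := mog) (C1 := cd1q0) (C2 := cd6q2) (C3 := pd2)
    rfl k0_mm_022

noncomputable def f_mm_023 : ℕ → ℕ → ℕ → ℕ → Bool := onCell 0 536870912 1073741824 536870912 697932185 42949674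
    (rowB 3 eng mog cd1q0 cd6q2 pd3 0 true false false .up 0 2 3 (qsf 0 536870912 1073741824 536870912 3) ndB1q0 ndB6q2 pcB3 Cut.none Ext.none)

def k0_mm_023 : ∃ t, chk3 f_mm_023 t 1 1 1 = true :=
  ⟨(l 4), by decide +kernel⟩

theorem c_mm_023 : CertB 0 536870912 1073741824 536870912 697932185 42949674 3 eng mog cd1q0 cd6q2 pd3 true false false .up 0 2 3
    ndB1q0 ndB6q2 pcB3 Cut.none Ext.none :=
  certB0 (fam := true) (s1 := false) (s2 := false) (a := 0) (b := 2) (c := 3) (cn := .up) (n1 := ndB1q0) (n2 := ndB6q2) (pc := pcB3) (cut := Cut.none) (xt := Ext.none) (P1 := 0) (W1 := 536870912) (P2 := 1073741824) (W2 := 536870912) (P3 := 697932185) (W3 := 42949674) (N0 := 3) (En := eng) (mo := mog) (C1 := cd1q0) (C2 := cd6q2) (C3 := pd3)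
    rfl k0_mm_023

noncomputable def f_mm_033 : ℕ → ℕ → ℕ → ℕ → Bool := onCell 0 536870912 0 1230186008 697932185 42949674
    (rowB 3 eng mog cd1q0 cd6q3 pd3 0 true false false .pnn 0 3 3 (qsf 0 536870912 0 1230186008 3) ndB1q0 ndB6q3 pcB3 Cut.none Ext.none)

def k0_mm_033 : ∃ t, chk3 f_mm_033 t 1 1 1 = true :=
  ⟨(l 5), by decide +kernel⟩

theorem c_mm_033 : CertB 0 536870912 0 1230186008 697932185 42949674 3 eng mog cd1q0 cd6q3 pd3 true false false .pnn 0 3 3
    ndB1q0 ndB6q3 pcB3 Cut.none Ext.none :=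
  certB0 (fam := true) (s1 := false) (s2 := false) (a := 0) (b := 3) (c := 3) (cn := .pnn) (n1 := ndB1q0) (n2 := ndB6q3) (pc := pcB3) (cut := Cut.none) (xt := Ext.none) (P1 := 0) (W1 := 536870912) (P2 := 0) (W2 := 1230186008) (P3 := 697932185) (W3 := 42949674) (N0 := 3) (En := eng) (mo := mog) (C1 := cd1q0) (C2 := cd6q3) (C3 := pd3)
    rfl k0_mm_033

noncomputable def f_mm_101 : ℕ → ℕ → ℕ → ℕ → Bool := onCell 536870912 536870912 0 536870912 697932185 42949674
    (rowB 3 eng mog cd1q1 cd6q0 pd1 0 true false false .npn 1 0 1 (qsf 536870912 536870912 0 536870912 1) ndB1q1 ndB6q0 pcB1 Cut.none Ext.none)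

def k0_mm_101 : ∃ t, chk3 f_mm_101 t 1 1 1 = true :=
  ⟨(l 4), by decide +kernel⟩

theorem c_mm_101 : CertB 536870912 536870912 0 536870912 697932185 42949674 3 eng mog cd1q1 cd6q0 pd1 true false false .npn 1 0 1
    ndB1q1 ndB6q0 pcB1 Cut.none Ext.none :=
  certB0 (fam := true) (s1 := false) (s2 := false) (a := 1) (b := 0) (c := 1) (cn := .npn) (n1 := ndB1q1) (n2 := ndB6q0) (pc := pcB1) (cut := Cut.none) (xt := Ext.none) (P1 := 536870912) (W1 := 536870912) (P2 := 0) (W2 := 536870912) (P3 := 697932185) (W3 := 42949674) (N0 := 3) (En := eng) (mo := mog) (C1 := cd1q1) (C2 := cd6q0) (C3 := pd1)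
    rfl k0_mm_101

noncomputable def f_mm_102 : ℕ → ℕ → ℕ → ℕ → Bool := onCell 536870912 536870912 0 536870912 697932185 42949674
    (rowB 3 eng mog cd1q1 cd6q0 pd2 0 true false false .npp 1 0 2 (qsf 536870912 536870912 0 536870912 2) ndB1q1 ndB6q0 pcB2 Cut.none Ext.none)

def k0_mm_102 : ∃ t, chk3 f_mm_102 t 1 1 1 = true :=
  ⟨(l 4), by decide +kernel⟩

theorem c_mm_102 : CertB 536870912 536870912 0 536870912 697932185 42949674 3 eng mog cd1q1 cd6q0 pd2 true false false .npp 1 0 2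
    ndB1q1 ndB6q0 pcB2 Cut.none Ext.none :=
  certB0 (fam := true) (s1 := false) (s2 := false) (a := 1) (b := 0) (c := 2) (cn := .npp) (n1 := ndB1q1) (n2 := ndB6q0) (pc := pcB2) (cut := Cut.none) (xt := Ext.none) (P1 := 536870912) (W1 := 536870912) (P2 := 0) (W2 := 536870912) (P3 := 697932185) (W3 := 42949674) (N0 := 3) (En := eng) (mo := mog) (C1 := cd1q1) (C2 := cd6q0) (C3 := pd2)
    rfl k0_mm_102

noncomputable def f_mm_112 : ℕ → ℕ → ℕ → ℕ → Bool := onCell 536870912 536870912 536870912 536870912 697932185 42949674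
    (rowB 3 eng mog cd1q1 cd6q1 pd2 0 true false false .dn 1 1 2 (qsf 536870912 536870912 536870912 536870912 2) ndB1q1 ndB6q1 pcB2 Cut.none Ext.none)

def k0_mm_112 : ∃ t, chk3 f_mm_112 t 1 1 1 = true :=
  ⟨(l 4), by decide +kernel⟩

theorem c_mm_112 : CertB 536870912 536870912 536870912 536870912 697932185 42949674 3 eng mog cd1q1 cd6q1 pd2 true false false .dn 1 1 2
    ndB1q1 ndB6q1 pcB2 Cut.none Ext.none :=
  certB0 (fam := true) (s1 := false) (s2 := false) (a := 1) (b := 1) (c := 2) (cn := .dn) (n1 := ndB1q1) (n2 := ndB6q1) (pc := pcB2) (cut := Cut.none) (xt := Ext.none) (P1 := 536870912) (W1 := 536870912) (P2 := 536870912) (W2 := 536870912) (P3 := 697932185) (W3 := 42949674) (N0 := 3) (En := eng) (mo := mog) (C1 := cd1q1) (C2 := cd6q1) (C3 := pd2)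
    rfl k0_mm_112

noncomputable def f_mm_113 : ℕ → ℕ → ℕ → ℕ → Bool := onCell 536870912 536870912 536870912 536870912 697932185 42949674
    (rowB 3 eng mog cd1q1 cd6q1 pd3 0 true false false .nn 1 1 3 (qsf 536870912 536870912 536870912 536870912 3) ndB1q1 ndB6q1 pcB3 Cut.none Ext.none)

def k0_mm_113 : ∃ t, chk3 f_mm_113 t 1 1 1 = true :=
  ⟨(l 4), by decide +kernel⟩

theorem c_mm_113 : CertB 536870912 536870912 536870912 536870912 697932185 42949674 3 eng mog cd1q1 cd6q1 pd3 true false false .nn 1 1 3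
    ndB1q1 ndB6q1 pcB3 Cut.none Ext.none :=
  certB0 (fam := true) (s1 := false) (s2 := false) (a := 1) (b := 1) (c := 3) (cn := .nn) (n1 := ndB1q1) (n2 := ndB6q1) (pc := pcB3) (cut := Cut.none) (xt := Ext.none) (P1 := 536870912) (W1 := 536870912) (P2 := 536870912) (W2 := 536870912) (P3 := 697932185) (W3 := 42949674) (N0 := 3) (En := eng) (mo := mog) (C1 := cd1q1) (C2 := cd6q1) (C3 := pd3)
    rfl k0_mm_113

noncomputable def f_mm_123 : ℕ → ℕ → ℕ → ℕ → Bool := onCell 536870912 536870912 1073741824 536870912 697932185 42949674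
    (rowB 3 eng mog cd1q1 cd6q2 pd3 0 true false false .npn 1 2 3 (qsf 536870912 536870912 1073741824 536870912 3) ndB1q1 ndB6q2 pcB3 Cut.none Ext.none)

def k0_mm_123 : ∃ t, chk3 f_mm_123 t 1 1 1 = true :=
  ⟨(l 4), by decide +kernel⟩

theorem c_mm_123 : CertB 536870912 536870912 1073741824 536870912 697932185 42949674 3 eng mog cd1q1 cd6q2 pd3 true false false .npn 1 2 3
    ndB1q1 ndB6q2 pcB3 Cut.none Ext.none :=
  certB0 (fam := true) (s1 := false) (s2 := false) (a := 1) (b := 2) (c := 3) (cn := .npn) (n1 := ndB1q1) (n2 := ndB6q2) (pc := pcB3) (cut := Cut.none) (xt := Ext.none) (P1 := 536870912) (W1 := 536870912) (P2 := 1073741824) (W2 := 536870912) (P3 := 697932185) (W3 := 42949674) (N0 := 3) (En := eng) (mo := mog) (C1 := cd1q1) (C2 := cd6q2) (C3 := pd3)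
    rfl k0_mm_123

noncomputable def f_mm_133 : ℕ → ℕ → ℕ → ℕ → Bool := onCell 536870912 536870912 0 1230186008 697932185 42949674
    (rowB 3 eng mog cd1q1 cd6q3 pd3 0 true false false .dn 1 3 3 (qsf 536870912 536870912 0 1230186008 3) ndB1q1 ndB6q3 pcB3 Cut.none Ext.none)

def k0_mm_133 : ∃ t, chk3 f_mm_133 t 1 1 1 = true :=
  ⟨(l 4), by decide +kernel⟩

theorem c_mm_133 : CertB 536870912 536870912 0 1230186008 697932185 42949674 3 eng mog cd1q1 cd6q3 pd3 true false false .dn 1 3 3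
    ndB1q1 ndB6q3 pcB3 Cut.none Ext.none :=
  certB0 (fam := true) (s1 := false) (s2 := false) (a := 1) (b := 3) (c := 3) (cn := .dn) (n1 := ndB1q1) (n2 := ndB6q3) (pc := pcB3) (cut := Cut.none) (xt := Ext.none) (P1 := 536870912) (W1 := 536870912) (P2 := 0) (W2 := 1230186008) (P3 := 697932185) (W3 := 42949674) (N0 := 3) (En := eng) (mo := mog) (C1 := cd1q1) (C2 := cd6q3) (C3 := pd3)
    rfl k0_mm_133

noncomputable def f_mm_202_a : ℕ → ℕ → ℕ → ℕ → Bool := onCell 0 536870912 0 536870912 697932185 42949674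
    (rowB 3 eng mog cd1q2a cd6q0 pd2 0 true false false .pp 2 0 2 (qsf 0 536870912 0 536870912 2) ndB1q2a ndB6q0 pcB2 Cut.none Ext.none)

def k0_mm_202_a : ∃ t, chk3 f_mm_202_a t 1 1 1 = true :=
  ⟨(b (l 4) (l 4)), by decide +kernel⟩

theorem c_mm_202_a : CertB 0 536870912 0 536870912 697932185 42949674 3 eng mog cd1q2a cd6q0 pd2 true false false .pp 2 0 2
    ndB1q2a ndB6q0 pcB2 Cut.none Ext.none :=
  certB0 (fam := true) (s1 := false) (s2 := false) (a := 2) (b := 0) (c := 2) (cn := .pp) (n1 := ndB1q2a) (n2 := ndB6q0) (pc := pcB2) (cut := Cut.none) (xt := Ext.none) (P1 := 0) (W1 := 536870912) (P2 := 0) (W2 := 536870912) (P3 := 697932185) (W3 := 42949674) (N0 := 3) (En := eng) (mo := mog) (C1 := cd1q2a) (C2 := cd6q0) (C3 := pd2)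
    rfl k0_mm_202_a

noncomputable def f_mm_202_b : ℕ → ℕ → ℕ → ℕ → Bool := onCell 1239849684 370763052 0 536870912 697932185 42949674
    (rowB 3 eng mog cd1q2b cd6q0 pd2 0 true false false .pp 2 0 2 (qsf 1239849684 370763052 0 536870912 2) ndB1q2b ndB6q0 pcB2 Cut.none Ext.none)

def k0_mm_202_b : ∃ t, chk3 f_mm_202_b t 1 1 1 = true :=
  ⟨(l 4), by decide +kernel⟩

theorem c_mm_202_b : CertB 1239849684 370763052 0 536870912 697932185 42949674 3 eng mog cd1q2b cd6q0 pd2 true false false .pp 2 0 2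
    ndB1q2b ndB6q0 pcB2 Cut.none Ext.none :=
  certB0 (fam := true) (s1 := false) (s2 := false) (a := 2) (b := 0) (c := 2) (cn := .pp) (n1 := ndB1q2b) (n2 := ndB6q0) (pc := pcB2) (cut := Cut.none) (xt := Ext.none) (P1 := 1239849684) (W1 := 370763052) (P2 := 0) (W2 := 536870912) (P3 := 697932185) (W3 := 42949674) (N0 := 3) (En := eng) (mo := mog) (C1 := cd1q2b) (C2 := cd6q0) (C3 := pd2)
    rfl k0_mm_202_b

noncomputable def f_mm_203_a : ℕ → ℕ → ℕ → ℕ → Bool := onCell 0 536870912 1610612736 536870912 697932185 42949674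
    (rowB 3 eng mog cd1q2a cd6q0 pd3 1 true false false .up 2 0 3 (qsf 0 536870912 0 536870912 3) ndB1q2a ndB6q0 pcB3 Cut.none Ext.none)

def k0_mm_203_a : ∃ t, chk3 f_mm_203_a t 1 1 1 = true :=
  ⟨(l 4), by decide +kernel⟩

theorem c_mm_203_a : CertB 0 536870912 0 536870912 697932185 42949674 3 eng mog cd1q2a cd6q0 pd3 true false false .up 2 0 3
    ndB1q2a ndB6q0 pcB3 Cut.none Ext.none :=
  certB1 (fam := true) (s1 := false) (s2 := false) (a := 2) (b := 0) (c := 3) (cn := .up) (n1 := ndB1q2a) (n2 := ndB6q0) (pc := pcB3) (cut := Cut.none) (xt := Ext.none) (P1 := 0) (W1 := 536870912) (P2 := 0) (W2 := 536870912) (P3 := 697932185) (W3 := 42949674) (N0 := 3) (En := eng) (mo := mog) (C1 := cd1q2a) (C2 := cd6q0) (C3 := pd3)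
    rfl (fun _ => rfl) k0_mm_203_a

noncomputable def f_mm_203_b : ℕ → ℕ → ℕ → ℕ → Bool := onCell 1239849684 370763052 0 536870912 697932185 42949674
    (rowB 3 eng mog cd1q2b cd6q0 pd3 0 true false false .up 2 0 3 (qsf 1239849684 370763052 0 536870912 3) ndB1q2b ndB6q0 pcB3 Cut.none Ext.none)

def k0_mm_203_b : ∃ t, chk3 f_mm_203_b t 1 1 1 = true :=
  ⟨(l 4), by decide +kernel⟩

theorem c_mm_203_b : CertB 1239849684 370763052 0 536870912 697932185 42949674 3 eng mog cd1q2b cd6q0 pd3 true false false .up 2 0 3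
    ndB1q2b ndB6q0 pcB3 Cut.none Ext.none :=
  certB0 (fam := true) (s1 := false) (s2 := false) (a := 2) (b := 0) (c := 3) (cn := .up) (n1 := ndB1q2b) (n2 := ndB6q0) (pc := pcB3) (cut := Cut.none) (xt := Ext.none) (P1 := 1239849684) (W1 := 370763052) (P2 := 0) (W2 := 536870912) (P3 := 697932185) (W3 := 42949674) (N0 := 3) (En := eng) (mo := mog) (C1 := cd1q2b) (C2 := cd6q0) (C3 := pd3)
    rfl k0_mm_203_b

noncomputable def f_mm_213_a : ℕ → ℕ → ℕ → ℕ → Bool := onCell 0 536870912 536870912 536870912 697932185 42949674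
    (rowB 3 eng mog cd1q2a cd6q1 pd3 0 true false false .pnn 2 1 3 (qsf 0 536870912 536870912 536870912 3) ndB1q2a ndB6q1 pcB3 Cut.none Ext.none)

def k0_mm_213_a : ∃ t, chk3 f_mm_213_a t 1 1 1 = true :=
  ⟨(l 4), by decide +kernel⟩

theorem c_mm_213_a : CertB 0 536870912 536870912 536870912 697932185 42949674 3 eng mog cd1q2a cd6q1 pd3 true false false .pnn 2 1 3
    ndB1q2a ndB6q1 pcB3 Cut.none Ext.none :=
  certB0 (fam := true) (s1 := false) (s2 := false) (a := 2) (b := 1) (c := 3) (cn := .pnn) (n1 := ndB1q2a) (n2 := ndB6q1) (pc := pcB3) (cut := Cut.none) (xt := Ext.none) (P1 := 0) (W1 := 536870912) (P2 := 536870912) (W2 := 536870912) (P3 := 697932185) (W3 := 42949674) (N0 := 3) (En := eng) (mo := mog) (C1 := cd1q2a) (C2 := cd6q1) (C3 := pd3)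
    rfl k0_mm_213_a

noncomputable def f_mm_213_b : ℕ → ℕ → ℕ → ℕ → Bool := onCell 1239849684 370763052 536870912 536870912 697932185 42949674
    (rowB 3 eng mog cd1q2b cd6q1 pd3 0 true false false .pnn 2 1 3 (qsf 1239849684 370763052 536870912 536870912 3) ndB1q2b ndB6q1 pcB3 Cut.none Ext.none)

def k0_mm_213_b : ∃ t, chk3 f_mm_213_b t 1 1 1 = true :=
  ⟨(l 4), by decide +kernel⟩

theorem c_mm_213_b : CertB 1239849684 370763052 536870912 536870912 697932185 42949674 3 eng mog cd1q2b cd6q1 pd3 true false false .pnn 2 1 3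
    ndB1q2b ndB6q1 pcB3 Cut.none Ext.none :=
  certB0 (fam := true) (s1 := false) (s2 := false) (a := 2) (b := 1) (c := 3) (cn := .pnn) (n1 := ndB1q2b) (n2 := ndB6q1) (pc := pcB3) (cut := Cut.none) (xt := Ext.none) (P1 := 1239849684) (W1 := 370763052) (P2 := 536870912) (W2 := 536870912) (P3 := 697932185) (W3 := 42949674) (N0 := 3) (En := eng) (mo := mog) (C1 := cd1q2b) (C2 := cd6q1) (C3 := pd3)
    rfl k0_mm_213_b

noncomputable def f_mm_303 : ℕ → ℕ → ℕ → ℕ → Bool := onCell 1610612736 536870912 0 536870912 697932185 42949674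
    (rowB 3 eng mog cd1q3 cd6q0 pd3 0 true false false .npn 3 0 3 (qsf 1610612736 536870912 0 536870912 3) ndB1q3 ndB6q0 pcB3 Cut.none Ext.none)

def k0_mm_303 : ∃ t, chk3 f_mm_303 t 1 1 1 = true :=
  ⟨(l 4), by decide +kernel⟩

theorem c_mm_303 : CertB 1610612736 536870912 0 536870912 697932185 42949674 3 eng mog cd1q3 cd6q0 pd3 true false false .npn 3 0 3
    ndB1q3 ndB6q0 pcB3 Cut.none Ext.none :=
  certB0 (fam := true) (s1 := false) (s2 := false) (a := 3) (b := 0) (c := 3) (cn := .npn) (n1 := ndB1q3) (n2 := ndB6q0) (pc := pcB3) (cut := Cut.none) (xt := Ext.none) (P1 := 1610612736) (W1 := 536870912) (P2 := 0) (W2 := 536870912) (P3 := 697932185) (W3 := 42949674) (N0 := 3) (En := eng) (mo := mog) (C1 := cd1q3) (C2 := cd6q0) (C3 := pd3)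
    rfl k0_mm_303

noncomputable def f_mm_313 : ℕ → ℕ → ℕ → ℕ → Bool := onCell 1610612736 536870912 536870912 536870912 697932185 42949674
    (rowB 3 eng mog cd1q3 cd6q1 pd3 0 true false false .dn 3 1 3 (qsf 1610612736 536870912 536870912 536870912 3) ndB1q3 ndB6q1 pcB3 Cut.none Ext.none)

def k0_mm_313 : ∃ t, chk3 f_mm_313 t 1 1 1 = true :=
  ⟨(l 4), by decide +kernel⟩

theorem c_mm_313 : CertB 1610612736 536870912 536870912 536870912 697932185 42949674 3 eng mog cd1q3 cd6q1 pd3 true false false .dn 3 1 3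
    ndB1q3 ndB6q1 pcB3 Cut.none Ext.none :=
  certB0 (fam := true) (s1 := false) (s2 := false) (a := 3) (b := 1) (c := 3) (cn := .dn) (n1 := ndB1q3) (n2 := ndB6q1) (pc := pcB3) (cut := Cut.none) (xt := Ext.none) (P1 := 1610612736) (W1 := 536870912) (P2 := 536870912) (W2 := 536870912) (P3 := 697932185) (W3 := 42949674) (N0 := 3) (En := eng) (mo := mog) (C1 := cd1q3) (C2 := cd6q1) (C3 := pd3)
    rfl k0_mm_313

end Pool.Agent.Strip051.G.I6500_6900.Tab.C.BA16

namespace Pool.Agent.Strip051.G.I6500_6900.Tab.C.BA17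

open Pool.Agent.Strip051.PB Pool.Agent.Strip051.PB.T
open Pool.Agent.Strip051.G.I6500_6900.Tab

noncomputable def f_pp_001 : ℕ → ℕ → ℕ → ℕ → Bool := onCell 0 536870912 0 536870912 697932185 42949674
    (rowB 3 eng mog cd1q0 cd7q0 pd1 0 true true true .up 0 0 1 (qsf 0 536870912 0 536870912 1) ndB1q0 ndB7q0 pcB1 Cut.none Ext.none)

def k0_pp_001 : ∃ t, chk3 f_pp_001 t 1 1 1 = true :=
  ⟨(l 4), by decide +kernel⟩

theorem c_pp_001 : CertB 0 536870912 0 536870912 697932185 42949674 3 eng mog cd1q0 cd7q0 pd1 true true true .up 0 0 1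
    ndB1q0 ndB7q0 pcB1 Cut.none Ext.none :=
  certB0 (fam := true) (s1 := true) (s2 := true) (a := 0) (b := 0) (c := 1) (cn := .up) (n1 := ndB1q0) (n2 := ndB7q0) (pc := pcB1) (cut := Cut.none) (xt := Ext.none) (P1 := 0) (W1 := 536870912) (P2 := 0) (W2 := 536870912) (P3 := 697932185) (W3 := 42949674) (N0 := 3) (En := eng) (mo := mog) (C1 := cd1q0) (C2 := cd7q0) (C3 := pd1)
    rfl k0_pp_001

noncomputable def f_pp_011 : ℕ → ℕ → ℕ → ℕ → Bool := onCell 0 536870912 536870912 536870912 697932185 42949674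
    (rowB 3 eng mog cd1q0 cd7q1 pd1 0 true true true .pnn 0 1 1 (qsf 0 536870912 536870912 536870912 1) ndB1q0 ndB7q1 pcB1 Cut.none Ext.none)

def k0_pp_011 : ∃ t, chk3 f_pp_011 t 1 1 1 = true :=
  ⟨(l 4), by decide +kernel⟩

theorem c_pp_011 : CertB 0 536870912 536870912 536870912 697932185 42949674 3 eng mog cd1q0 cd7q1 pd1 true true true .pnn 0 1 1
    ndB1q0 ndB7q1 pcB1 Cut.none Ext.none :=
  certB0 (fam := true) (s1 := true) (s2 := true) (a := 0) (b := 1) (c := 1) (cn := .pnn) (n1 := ndB1q0) (n2 := ndB7q1) (pc := pcB1) (cut := Cut.none) (xt := Ext.none) (P1 := 0) (W1 := 536870912) (P2 := 536870912) (W2 := 536870912) (P3 := 697932185) (W3 := 42949674) (N0 := 3) (En := eng) (mo := mog) (C1 := cd1q0) (C2 := cd7q1) (C3 := pd1)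
    rfl k0_pp_011

noncomputable def f_pp_012 : ℕ → ℕ → ℕ → ℕ → Bool := onCell 0 536870912 536870912 536870912 697932185 42949674
    (rowB 3 eng mog cd1q0 cd7q1 pd2 0 true true true .pnp 0 1 2 (qsf 0 536870912 536870912 536870912 2) ndB1q0 ndB7q1 pcB2 Cut.none Ext.none)

def k0_pp_012 : ∃ t, chk3 f_pp_012 t 1 1 1 = true :=
  ⟨(l 4), by decide +kernel⟩

theorem c_pp_012 : CertB 0 536870912 536870912 536870912 697932185 42949674 3 eng mog cd1q0 cd7q1 pd2 true true true .pnp 0 1 2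
    ndB1q0 ndB7q1 pcB2 Cut.none Ext.none :=
  certB0 (fam := true) (s1 := true) (s2 := true) (a := 0) (b := 1) (c := 2) (cn := .pnp) (n1 := ndB1q0) (n2 := ndB7q1) (pc := pcB2) (cut := Cut.none) (xt := Ext.none) (P1 := 0) (W1 := 536870912) (P2 := 536870912) (W2 := 536870912) (P3 := 697932185) (W3 := 42949674) (N0 := 3) (En := eng) (mo := mog) (C1 := cd1q0) (C2 := cd7q1) (C3 := pd2)
    rfl k0_pp_012

noncomputable def f_pp_022 : ℕ → ℕ → ℕ → ℕ → Bool := onCell 0 536870912 1073741824 536870912 697932185 42949674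
    (rowB 3 eng mog cd1q0 cd7q2 pd2 0 true true true .pp 0 2 2 (qsf 0 536870912 1073741824 536870912 2) ndB1q0 ndB7q2 pcB2 Cut.none Ext.none)

def k0_pp_022 : ∃ t, chk3 f_pp_022 t 1 1 1 = true :=
  ⟨(l 4), by decide +kernel⟩

theorem c_pp_022 : CertB 0 536870912 1073741824 536870912 697932185 42949674 3 eng mog cd1q0 cd7q2 pd2 true true true .pp 0 2 2
    ndB1q0 ndB7q2 pcB2 Cut.none Ext.none :=
  certB0 (fam := true) (s1 := true) (s2 := true) (a := 0) (b := 2) (c := 2) (cn := .pp) (n1 := ndB1q0) (n2 := ndB7q2) (pc := pcB2) (cut := Cut.none) (xt := Ext.none) (P1 := 0) (W1 := 536870912) (P2 := 1073741824) (W2 := 536870912) (P3 := 697932185) (W3 := 42949674) (N0 := 3) (En := eng) (mo := mog) (C1 := cd1q0) (C2 := cd7q2) (C3 := pd2)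
    rfl k0_pp_022

noncomputable def f_pp_023 : ℕ → ℕ → ℕ → ℕ → Bool := onCell 0 536870912 1073741824 536870912 697932185 42949674
    (rowB 3 eng mog cd1q0 cd7q2 pd3 0 true true true .up 0 2 3 (qsf 0 536870912 1073741824 536870912 3) ndB1q0 ndB7q2 pcB3 Cut.none Ext.none)

def k0_pp_023 : ∃ t, chk3 f_pp_023 t 1 1 1 = true :=
  ⟨(l 4), by decide +kernel⟩

theorem c_pp_023 : CertB 0 536870912 1073741824 536870912 697932185 42949674 3 eng mog cd1q0 cd7q2 pd3 true true true .up 0 2 3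
    ndB1q0 ndB7q2 pcB3 Cut.none Ext.none :=
  certB0 (fam := true) (s1 := true) (s2 := true) (a := 0) (b := 2) (c := 3) (cn := .up) (n1 := ndB1q0) (n2 := ndB7q2) (pc := pcB3) (cut := Cut.none) (xt := Ext.none) (P1 := 0) (W1 := 536870912) (P2 := 1073741824) (W2 := 536870912) (P3 := 697932185) (W3 := 42949674) (N0 := 3) (En := eng) (mo := mog) (C1 := cd1q0) (C2 := cd7q2) (C3 := pd3)
    rfl k0_pp_023

noncomputable def f_pp_033 : ℕ → ℕ → ℕ → ℕ → Bool := onCell 0 536870912 0 1230186008 697932185 42949674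
    (rowB 3 eng mog cd1q0 cd7q3 pd3 0 true true true .pnn 0 3 3 (qsf 0 536870912 0 1230186008 3) ndB1q0 ndB7q3 pcB3 Cut.none Ext.none)

def k0_pp_033 : ∃ t, chk3 f_pp_033 t 1 1 1 = true :=
  ⟨(l 4), by decide +kernel⟩

theorem c_pp_033 : CertB 0 536870912 0 1230186008 697932185 42949674 3 eng mog cd1q0 cd7q3 pd3 true true true .pnn 0 3 3
    ndB1q0 ndB7q3 pcB3 Cut.none Ext.none :=
  certB0 (fam := true) (s1 := true) (s2 := true) (a := 0) (b := 3) (c := 3) (cn := .pnn) (n1 := ndB1q0) (n2 := ndB7q3) (pc := pcB3) (cut := Cut.none) (xt := Ext.none) (P1 := 0) (W1 := 536870912) (P2 := 0) (W2 := 1230186008) (P3 := 697932185) (W3 := 42949674) (N0 := 3) (En := eng) (mo := mog) (C1 := cd1q0) (C2 := cd7q3) (C3 := pd3)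
    rfl k0_pp_033

noncomputable def f_pp_101 : ℕ → ℕ → ℕ → ℕ → Bool := onCell 536870912 536870912 0 536870912 697932185 42949674
    (rowB 3 eng mog cd1q1 cd7q0 pd1 0 true true true .npn 1 0 1 (qsf 536870912 536870912 0 536870912 1) ndB1q1 ndB7q0 pcB1 Cut.none Ext.none)

def k0_pp_101 : ∃ t, chk3 f_pp_101 t 1 1 1 = true :=
  ⟨(l 4), by decide +kernel⟩

theorem c_pp_101 : CertB 536870912 536870912 0 536870912 697932185 42949674 3 eng mog cd1q1 cd7q0 pd1 true true true .npn 1 0 1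
    ndB1q1 ndB7q0 pcB1 Cut.none Ext.none :=
  certB0 (fam := true) (s1 := true) (s2 := true) (a := 1) (b := 0) (c := 1) (cn := .npn) (n1 := ndB1q1) (n2 := ndB7q0) (pc := pcB1) (cut := Cut.none) (xt := Ext.none) (P1 := 536870912) (W1 := 536870912) (P2 := 0) (W2 := 536870912) (P3 := 697932185) (W3 := 42949674) (N0 := 3) (En := eng) (mo := mog) (C1 := cd1q1) (C2 := cd7q0) (C3 := pd1)
    rfl k0_pp_101

noncomputable def f_pp_102 : ℕ → ℕ → ℕ → ℕ → Bool := onCell 536870912 536870912 0 536870912 697932185 42949674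
    (rowB 3 eng mog cd1q1 cd7q0 pd2 0 true true true .npp 1 0 2 (qsf 536870912 536870912 0 536870912 2) ndB1q1 ndB7q0 pcB2 Cut.none Ext.none)

def k0_pp_102 : ∃ t, chk3 f_pp_102 t 1 1 1 = true :=
  ⟨(l 4), by decide +kernel⟩

theorem c_pp_102 : CertB 536870912 536870912 0 536870912 697932185 42949674 3 eng mog cd1q1 cd7q0 pd2 true true true .npp 1 0 2
    ndB1q1 ndB7q0 pcB2 Cut.none Ext.none :=
  certB0 (fam := true) (s1 := true) (s2 := true) (a := 1) (b := 0) (c := 2) (cn := .npp) (n1 := ndB1q1) (n2 := ndB7q0) (pc := pcB2) (cut := Cut.none) (xt := Ext.none) (P1 := 536870912) (W1 := 536870912) (P2 := 0) (W2 := 536870912) (P3 := 697932185) (W3 := 42949674) (N0 := 3) (En := eng) (mo := mog) (C1 := cd1q1) (C2 := cd7q0) (C3 := pd2)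
    rfl k0_pp_102

noncomputable def f_pp_112 : ℕ → ℕ → ℕ → ℕ → Bool := onCell 536870912 536870912 536870912 536870912 697932185 42949674
    (rowB 3 eng mog cd1q1 cd7q1 pd2 0 true true true .dn 1 1 2 (qsf 536870912 536870912 536870912 536870912 2) ndB1q1 ndB7q1 pcB2 Cut.none Ext.none)

def k0_pp_112 : ∃ t, chk3 f_pp_112 t 1 1 1 = true :=
  ⟨(l 4), by decide +kernel⟩

theorem c_pp_112 : CertB 536870912 536870912 536870912 536870912 697932185 42949674 3 eng mog cd1q1 cd7q1 pd2 true true true .dn 1 1 2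
    ndB1q1 ndB7q1 pcB2 Cut.none Ext.none :=
  certB0 (fam := true) (s1 := true) (s2 := true) (a := 1) (b := 1) (c := 2) (cn := .dn) (n1 := ndB1q1) (n2 := ndB7q1) (pc := pcB2) (cut := Cut.none) (xt := Ext.none) (P1 := 536870912) (W1 := 536870912) (P2 := 536870912) (W2 := 536870912) (P3 := 697932185) (W3 := 42949674) (N0 := 3) (En := eng) (mo := mog) (C1 := cd1q1) (C2 := cd7q1) (C3 := pd2)
    rfl k0_pp_112

noncomputable def f_pp_113 : ℕ → ℕ → ℕ → ℕ → Bool := onCell 536870912 536870912 536870912 536870912 697932185 42949674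
    (rowB 3 eng mog cd1q1 cd7q1 pd3 0 true true true .nn 1 1 3 (qsf 536870912 536870912 536870912 536870912 3) ndB1q1 ndB7q1 pcB3 Cut.none Ext.none)

def k0_pp_113 : ∃ t, chk3 f_pp_113 t 1 1 1 = true :=
  ⟨(l 4), by decide +kernel⟩

theorem c_pp_113 : CertB 536870912 536870912 536870912 536870912 697932185 42949674 3 eng mog cd1q1 cd7q1 pd3 true true true .nn 1 1 3
    ndB1q1 ndB7q1 pcB3 Cut.none Ext.none :=
  certB0 (fam := true) (s1 := true) (s2 := true) (a := 1) (b := 1) (c := 3) (cn := .nn) (n1 := ndB1q1) (n2 := ndB7q1) (pc := pcB3) (cut := Cut.none) (xt := Ext.none) (P1 := 536870912) (W1 := 536870912) (P2 := 536870912) (W2 := 536870912) (P3 := 697932185) (W3 := 42949674) (N0 := 3) (En := eng) (mo := mog) (C1 := cd1q1) (C2 := cd7q1) (C3 := pd3)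
    rfl k0_pp_113

noncomputable def f_pp_123 : ℕ → ℕ → ℕ → ℕ → Bool := onCell 536870912 536870912 1073741824 536870912 697932185 42949674
    (rowB 3 eng mog cd1q1 cd7q2 pd3 0 true true true .npn 1 2 3 (qsf 536870912 536870912 1073741824 536870912 3) ndB1q1 ndB7q2 pcB3 Cut.none Ext.none)

def k0_pp_123 : ∃ t, chk3 f_pp_123 t 1 1 1 = true :=
  ⟨(l 4), by decide +kernel⟩

theorem c_pp_123 : CertB 536870912 536870912 1073741824 536870912 697932185 42949674 3 eng mog cd1q1 cd7q2 pd3 true true true .npn 1 2 3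
    ndB1q1 ndB7q2 pcB3 Cut.none Ext.none :=
  certB0 (fam := true) (s1 := true) (s2 := true) (a := 1) (b := 2) (c := 3) (cn := .npn) (n1 := ndB1q1) (n2 := ndB7q2) (pc := pcB3) (cut := Cut.none) (xt := Ext.none) (P1 := 536870912) (W1 := 536870912) (P2 := 1073741824) (W2 := 536870912) (P3 := 697932185) (W3 := 42949674) (N0 := 3) (En := eng) (mo := mog) (C1 := cd1q1) (C2 := cd7q2) (C3 := pd3)
    rfl k0_pp_123

noncomputable def f_pp_133 : ℕ → ℕ → ℕ → ℕ → Bool := onCell 536870912 536870912 0 1230186008 697932185 42949674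
    (rowB 3 eng mog cd1q1 cd7q3 pd3 0 true true true .dn 1 3 3 (qsf 536870912 536870912 0 1230186008 3) ndB1q1 ndB7q3 pcB3 Cut.none Ext.none)

def k0_pp_133 : ∃ t, chk3 f_pp_133 t 1 1 1 = true :=
  ⟨(l 4), by decide +kernel⟩

theorem c_pp_133 : CertB 536870912 536870912 0 1230186008 697932185 42949674 3 eng mog cd1q1 cd7q3 pd3 true true true .dn 1 3 3
    ndB1q1 ndB7q3 pcB3 Cut.none Ext.none :=
  certB0 (fam := true) (s1 := true) (s2 := true) (a := 1) (b := 3) (c := 3) (cn := .dn) (n1 := ndB1q1) (n2 := ndB7q3) (pc := pcB3) (cut := Cut.none) (xt := Ext.none) (P1 := 536870912) (W1 := 536870912) (P2 := 0) (W2 := 1230186008) (P3 := 697932185) (W3 := 42949674) (N0 := 3) (En := eng) (mo := mog) (C1 := cd1q1) (C2 := cd7q3) (C3 := pd3)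
    rfl k0_pp_133

noncomputable def f_pp_202_a : ℕ → ℕ → ℕ → ℕ → Bool := onCell 0 536870912 0 536870912 697932185 42949674
    (rowB 3 eng mog cd1q2a cd7q0 pd2 0 true true true .pp 2 0 2 (qsf 0 536870912 0 536870912 2) ndB1q2a ndB7q0 pcB2 Cut.none Ext.none)

def k0_pp_202_a : ∃ t, chk3 f_pp_202_a t 1 1 1 = true :=
  ⟨(l 4), by decide +kernel⟩

theorem c_pp_202_a : CertB 0 536870912 0 536870912 697932185 42949674 3 eng mog cd1q2a cd7q0 pd2 true true true .pp 2 0 2
    ndB1q2a ndB7q0 pcB2 Cut.none Ext.none :=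
  certB0 (fam := true) (s1 := true) (s2 := true) (a := 2) (b := 0) (c := 2) (cn := .pp) (n1 := ndB1q2a) (n2 := ndB7q0) (pc := pcB2) (cut := Cut.none) (xt := Ext.none) (P1 := 0) (W1 := 536870912) (P2 := 0) (W2 := 536870912) (P3 := 697932185) (W3 := 42949674) (N0 := 3) (En := eng) (mo := mog) (C1 := cd1q2a) (C2 := cd7q0) (C3 := pd2)
    rfl k0_pp_202_a

noncomputable def f_pp_202_b : ℕ → ℕ → ℕ → ℕ → Bool := onCell 1239849684 370763052 0 536870912 697932185 42949674
    (rowB 3 eng mog cd1q2b cd7q0 pd2 0 true true true .pp 2 0 2 (qsf 1239849684 370763052 0 536870912 2) ndB1q2b ndB7q0 pcB2 Cut.none Ext.none)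

def k0_pp_202_b : ∃ t, chk3 f_pp_202_b t 1 1 1 = true :=
  ⟨(l 4), by decide +kernel⟩

theorem c_pp_202_b : CertB 1239849684 370763052 0 536870912 697932185 42949674 3 eng mog cd1q2b cd7q0 pd2 true true true .pp 2 0 2
    ndB1q2b ndB7q0 pcB2 Cut.none Ext.none :=
  certB0 (fam := true) (s1 := true) (s2 := true) (a := 2) (b := 0) (c := 2) (cn := .pp) (n1 := ndB1q2b) (n2 := ndB7q0) (pc := pcB2) (cut := Cut.none) (xt := Ext.none) (P1 := 1239849684) (W1 := 370763052) (P2 := 0) (W2 := 536870912) (P3 := 697932185) (W3 := 42949674) (N0 := 3) (En := eng) (mo := mog) (C1 := cd1q2b) (C2 := cd7q0) (C3 := pd2)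
    rfl k0_pp_202_b

noncomputable def f_pp_203_a : ℕ → ℕ → ℕ → ℕ → Bool := onCell 0 536870912 0 536870912 697932185 42949674
    (rowB 3 eng mog cd1q2a cd7q0 pd3 0 true true true .up 2 0 3 (qsf 0 536870912 0 536870912 3) ndB1q2a ndB7q0 pcB3 Cut.none Ext.none)

def k0_pp_203_a : ∃ t, chk3 f_pp_203_a t 1 1 1 = true :=
  ⟨(l 4), by decide +kernel⟩

theorem c_pp_203_a : CertB 0 536870912 0 536870912 697932185 42949674 3 eng mog cd1q2a cd7q0 pd3 true true true .up 2 0 3
    ndB1q2a ndB7q0 pcB3 Cut.none Ext.none :=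
  certB0 (fam := true) (s1 := true) (s2 := true) (a := 2) (b := 0) (c := 3) (cn := .up) (n1 := ndB1q2a) (n2 := ndB7q0) (pc := pcB3) (cut := Cut.none) (xt := Ext.none) (P1 := 0) (W1 := 536870912) (P2 := 0) (W2 := 536870912) (P3 := 697932185) (W3 := 42949674) (N0 := 3) (En := eng) (mo := mog) (C1 := cd1q2a) (C2 := cd7q0) (C3 := pd3)
    rfl k0_pp_203_a

noncomputable def f_pp_203_b : ℕ → ℕ → ℕ → ℕ → Bool := onCell 1239849684 370763052 0 536870912 697932185 42949674
    (rowB 3 eng mog cd1q2b cd7q0 pd3 0 true true true .up 2 0 3 (qsf 1239849684 370763052 0 536870912 3) ndB1q2b ndB7q0 pcB3 Cut.none Ext.none)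

def k0_pp_203_b : ∃ t, chk3 f_pp_203_b t 1 1 1 = true :=
  ⟨(l 4), by decide +kernel⟩

theorem c_pp_203_b : CertB 1239849684 370763052 0 536870912 697932185 42949674 3 eng mog cd1q2b cd7q0 pd3 true true true .up 2 0 3
    ndB1q2b ndB7q0 pcB3 Cut.none Ext.none :=
  certB0 (fam := true) (s1 := true) (s2 := true) (a := 2) (b := 0) (c := 3) (cn := .up) (n1 := ndB1q2b) (n2 := ndB7q0) (pc := pcB3) (cut := Cut.none) (xt := Ext.none) (P1 := 1239849684) (W1 := 370763052) (P2 := 0) (W2 := 536870912) (P3 := 697932185) (W3 := 42949674) (N0 := 3) (En := eng) (mo := mog) (C1 := cd1q2b) (C2 := cd7q0) (C3 := pd3)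
    rfl k0_pp_203_b

noncomputable def f_pp_213_a : ℕ → ℕ → ℕ → ℕ → Bool := onCell 0 536870912 536870912 536870912 697932185 42949674
    (rowB 3 eng mog cd1q2a cd7q1 pd3 0 true true true .pnn 2 1 3 (qsf 0 536870912 536870912 536870912 3) ndB1q2a ndB7q1 pcB3 Cut.none Ext.none)

def k0_pp_213_a : ∃ t, chk3 f_pp_213_a t 1 1 1 = true :=
  ⟨(l 4), by decide +kernel⟩

theorem c_pp_213_a : CertB 0 536870912 536870912 536870912 697932185 42949674 3 eng mog cd1q2a cd7q1 pd3 true true true .pnn 2 1 3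
    ndB1q2a ndB7q1 pcB3 Cut.none Ext.none :=
  certB0 (fam := true) (s1 := true) (s2 := true) (a := 2) (b := 1) (c := 3) (cn := .pnn) (n1 := ndB1q2a) (n2 := ndB7q1) (pc := pcB3) (cut := Cut.none) (xt := Ext.none) (P1 := 0) (W1 := 536870912) (P2 := 536870912) (W2 := 536870912) (P3 := 697932185) (W3 := 42949674) (N0 := 3) (En := eng) (mo := mog) (C1 := cd1q2a) (C2 := cd7q1) (C3 := pd3)
    rfl k0_pp_213_a

noncomputable def f_pp_213_b : ℕ → ℕ → ℕ → ℕ → Bool := onCell 1239849684 370763052 536870912 536870912 697932185 42949674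
    (rowB 3 eng mog cd1q2b cd7q1 pd3 0 true true true .pnn 2 1 3 (qsf 1239849684 370763052 536870912 536870912 3) ndB1q2b ndB7q1 pcB3 Cut.none Ext.none)

def k0_pp_213_b : ∃ t, chk3 f_pp_213_b t 1 1 1 = true :=
  ⟨(l 4), by decide +kernel⟩

theorem c_pp_213_b : CertB 1239849684 370763052 536870912 536870912 697932185 42949674 3 eng mog cd1q2b cd7q1 pd3 true true true .pnn 2 1 3
    ndB1q2b ndB7q1 pcB3 Cut.none Ext.none :=
  certB0 (fam := true) (s1 := true) (s2 := true) (a := 2) (b := 1) (c := 3) (cn := .pnn) (n1 := ndB1q2b) (n2 := ndB7q1) (pc := pcB3) (cut := Cut.none) (xt := Ext.none) (P1 := 1239849684) (W1 := 370763052) (P2 := 536870912) (W2 := 536870912) (P3 := 697932185) (W3 := 42949674) (N0 := 3) (En := eng) (mo := mog) (C1 := cd1q2b) (C2 := cd7q1) (C3 := pd3)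
    rfl k0_pp_213_b

noncomputable def f_pp_303 : ℕ → ℕ → ℕ → ℕ → Bool := onCell 1610612736 536870912 0 536870912 697932185 42949674
    (rowB 3 eng mog cd1q3 cd7q0 pd3 0 true true true .npn 3 0 3 (qsf 1610612736 536870912 0 536870912 3) ndB1q3 ndB7q0 pcB3 Cut.none Ext.none)

def k0_pp_303 : ∃ t, chk3 f_pp_303 t 1 1 1 = true :=
  ⟨(l 4), by decide +kernel⟩

theorem c_pp_303 : CertB 1610612736 536870912 0 536870912 697932185 42949674 3 eng mog cd1q3 cd7q0 pd3 true true true .npn 3 0 3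
    ndB1q3 ndB7q0 pcB3 Cut.none Ext.none :=
  certB0 (fam := true) (s1 := true) (s2 := true) (a := 3) (b := 0) (c := 3) (cn := .npn) (n1 := ndB1q3) (n2 := ndB7q0) (pc := pcB3) (cut := Cut.none) (xt := Ext.none) (P1 := 1610612736) (W1 := 536870912) (P2 := 0) (W2 := 536870912) (P3 := 697932185) (W3 := 42949674) (N0 := 3) (En := eng) (mo := mog) (C1 := cd1q3) (C2 := cd7q0) (C3 := pd3)
    rfl k0_pp_303

noncomputable def f_pp_313 : ℕ → ℕ → ℕ → ℕ → Bool := onCell 1610612736 536870912 536870912 536870912 697932185 42949674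
    (rowB 3 eng mog cd1q3 cd7q1 pd3 0 true true true .dn 3 1 3 (qsf 1610612736 536870912 536870912 536870912 3) ndB1q3 ndB7q1 pcB3 Cut.none Ext.none)

def k0_pp_313 : ∃ t, chk3 f_pp_313 t 1 1 1 = true :=
  ⟨(l 4), by decide +kernel⟩

theorem c_pp_313 : CertB 1610612736 536870912 536870912 536870912 697932185 42949674 3 eng mog cd1q3 cd7q1 pd3 true true true .dn 3 1 3
    ndB1q3 ndB7q1 pcB3 Cut.none Ext.none :=
  certB0 (fam := true) (s1 := true) (s2 := true) (a := 3) (b := 1) (c := 3) (cn := .dn) (n1 := ndB1q3) (n2 := ndB7q1) (pc := pcB3) (cut := Cut.none) (xt := Ext.none) (P1 := 1610612736) (W1 := 536870912) (P2 := 536870912) (W2 := 536870912) (P3 := 697932185) (W3 := 42949674) (N0 := 3) (En := eng) (mo := mog) (C1 := cd1q3) (C2 := cd7q1) (C3 := pd3)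
    rfl k0_pp_313

noncomputable def f_pm_001 : ℕ → ℕ → ℕ → ℕ → Bool := onCell 0 536870912 536870912 536870912 697932185 42949674
    (rowB 3 eng mog cd1q0 cd7q0 pd1 1 true true false .up 0 0 1 (qsf 0 536870912 0 536870912 1) ndB1q0 ndB7q0 pcB1 Cut.none Ext.none)

def k0_pm_001 : ∃ t, chk3 f_pm_001 t 1 1 1 = true :=
  ⟨(a (b (l 3) (b (l 3) (l 2))) (b (b (l 3) (a (l 3) (a (l 3) (a (l 3) (b (l 3) (b (l 3) (l 173576885895))))))) (b (a (b (l 3) (a (b (l 3) (l 2)) (b (a (b (l 3) (l 42580569799)) (b (l 16729344) (l 16671224))) (a (b (a (l 2) (l 16653616)) (l 2)) (b (l 16633704) (l 16575760)))))) (b (a (b (l 3) (b (a (l 3) (l 16654704)) (a (l 166597621879) (l 16635032)))) (b (b (a (l 16687376) (l 16642816)) (a (l 16641888) (l 16612488))) (b (a (l 16628952) (l 16575464)) (a (l 16564440) (l 16531904))))) (a (b (a (b (l 16637584) (l 16594312)) (b (l 16587200) (l 16540712))) (a (b (l 16557840) (l 16521616)) (b (l 16504488) (l 16471368)))) (a (b (l 16533120)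 (l 16490784)) (b (l 16460376) (l 16410320)))))) (a (b (a (l 2) (b (a (l 2) (b (l 16539080) (l 2))) (l 2))) (l 2)) (b (a (b (a (l 16551744) (b (l 16437336) (l 16402840))) (a (l 59692780087) (l 16374144))) (b (a (l 16388496) (l 16308080)) (a (l 16302440) (l 16250400)))) (a (b (a (l 2) (l 16298360)) (l 2)) (b (l 16382368) (l 16307872)))))))), by decide +kernel⟩

theorem c_pm_001 : CertB 0 536870912 0 536870912 697932185 42949674 3 eng mog cd1q0 cd7q0 pd1 true true false .up 0 0 1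
    ndB1q0 ndB7q0 pcB1 Cut.none Ext.none :=
  certB1 (fam := true) (s1 := true) (s2 := false) (a := 0) (b := 0) (c := 1) (cn := .up) (n1 := ndB1q0) (n2 := ndB7q0) (pc := pcB1) (cut := Cut.none) (xt := Ext.none) (P1 := 0) (W1 := 536870912) (P2 := 0) (W2 := 536870912) (P3 := 697932185) (W3 := 42949674) (N0 := 3) (En := eng) (mo := mog) (C1 := cd1q0) (C2 := cd7q0) (C3 := pd1)
    rfl (fun _ => rfl) k0_pm_001

noncomputable def cut_pm_011 : Cut := Cut.of [[⟨0, 0, 0, 67108864⟩, ⟨1, 1, 0, 67108864⟩, ⟨2, 1, 0, 67108864⟩]]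

noncomputable def xt_pm_011 : Ext := extD2 3 ⟨7, 3, 3, 10, 49, 25, 3, 4, 67, 200, 3, 16⟩ eng cd1q0 cd7q1 pd1 true true false .pnn 0 1 1 rfl ndB1q0 ndB7q1 pcB1

noncomputable def f_pm_011 : ℕ → ℕ → ℕ → ℕ → Bool := onCell 0 536870912 536870912 536870912 697932185 42949674
    (rowB 3 eng mog cd1q0 cd7q1 pd1 1 true true false .pnn 0 1 1 (qsf 0 536870912 536870912 536870912 1) ndB1q0 ndB7q1 pcB1 cut_pm_011 xt_pm_011)

def k0_pm_011 : ∃ t, chk3 f_pm_011 t 1 2 1 = true :=
  ⟨(a (l 3) (a (l 3) (l 1))), by decide +kernel⟩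

def k1_pm_011 : ∃ t, chk3 f_pm_011 t 2 3 1 = true :=
  ⟨(b (l 3) (a (b (l 3) (a (b (l 3) (a (b (l 3) (l 6)) (b (b (l 3) (a (a (l 3) (b (l 3) (l 194515024823))) (a (b (l 426443231079) (l 16757272)) (l 16757896)))) (b (a (b (a (l 6) (l 16758056)) (l 6)) (a (l 16745528) (l 16736872))) (a (l 6) (b (l 16729448) (l 16721672))))))) (b (a (b (l 3) (a (l 3) (b (l 3) (a (l 16759272) (l 16751032))))) (b (a (l 3) (b (l 3) (l 16749000))) (b (a (a (l 16758712) (l 16748776)) (l 16732720)) (a (l 16737560) (l 16716360))))) (b (a (b (a (a (l 16765176) (l 16751672)) (l 16739112)) (a (l 16750384) (l 16722872))) (b (a (l 16721280) (l 16679016)) (l 16715176))) (a (b (b (l 16740248) (l 16732256)) (a (l 16708064) (l 16690648))) (a (l 16701472) (l 16659080))))))) (b (a (b (l 3) (a (b (l 3) (a (l 3) (l 385640949111))) (b (l 3) (b (l 142975357399) (l 55465365367))))) (b (a (l 3) (b (l 3) (c (l 16744904) (l 16744680)))) (b (a (a (l 16738656) (l 16723232)) (l 16709392)) (a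 (b (l 16686592) (l 16669520)) (l 16654736))))) (b (a (a (a (b (b (l 16765256) (l 16748920)) (l 16713776)) (b (b (l 16723600) (l 16707056)) (a (l 16687536) (l 16677088)))) (a (b (l 16736704) (l 16682528)) (b (l 16695456) (l 16641080)))) (a (b (l 16665096) (a (l 16620888) (l 16600432))) (a (l 16626264) (l 16593688)))) (b (a (a (l 16680816) (a (l 16628576) (l 16608056))) (a (l 598263074416325132555327) (l 16534296))) (a (b (a (l 16593280) (l 16593624)) (l 16639760)) (a (l 16586688) (l 16501768)))))))), by decide +kernel⟩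

def k2_pm_011 : ∃ t, chk3 f_pm_011 t 3 3 1 = true :=
  ⟨(b (b (a (l 3) (l 1)) (a (a (b (l 3) (a (b (l 3) (b (l 3) (l 16740192))) (b (l 100025693351) (b (l 16689024) (l 16670544))))) (b (a (b (l 3) (l 16763960)) (b (l 1) (l 16649776))) (b (a (l 16687056) (l 16612248)) (a (l 16629488) (l 16575320))))) (a (b (l 1) (b (l 1) (a (l 16522208) (l 1)))) (l 1)))) (a (b (b (a (b (a (c (l 16733776) (l 16732976)) (l 16642056)) (a (l 16696440) (l 16605432))) (b (a (l 16591856) (l 16538664)) (l 16593816))) (a (b (a (l 16620088) (l 16571856)) (a (l 16587664) (l 16540560))) (a (l 16560488) (l 16480504)))) (b (a (a (b (l 16555616) (l 16523640)) (l 16515808)) (a (l 16470376) (l 16402024))) (a (a (b (l 16491592) (l 16459496)) (b (l 16449128) (l 16418640))) (b (l 16383560) (l 16356200))))) (b (b (a (a (l 16510752) (l 16482976)) (l 1)) (a (a (l 16469096) (l 16354128)) (l 16401432))) (a (b (l 16439984) (l 16297768)) (b (l 16279880) (l 16190744)))))), by decide +kernel⟩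

theorem s3_pm_011 : ∃ t, chk3 f_pm_011 t 1 3 1 = true := ex3_a k1_pm_011 k2_pm_011

theorem s4_pm_011 : ∃ t, chk3 f_pm_011 t 1 1 1 = true := ex3_b k0_pm_011 s3_pm_011

theorem c_pm_011 : CertB 0 536870912 536870912 536870912 697932185 42949674 3 eng mog cd1q0 cd7q1 pd1 true true false .pnn 0 1 1
    ndB1q0 ndB7q1 pcB1 cut_pm_011 xt_pm_011 :=
  certB1 (fam := true) (s1 := true) (s2 := false) (a := 0) (b := 1) (c := 1) (cn := .pnn) (n1 := ndB1q0) (n2 := ndB7q1) (pc := pcB1) (cut := cut_pm_011) (xt := xt_pm_011) (P1 := 0) (W1 := 536870912) (P2 := 536870912) (W2 := 536870912) (P3 := 697932185) (W3 := 42949674) (N0 := 3) (En := eng) (mo := mog) (C1 := cd1q0) (C2 := cd7q1) (C3 := pd1)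
    rfl (fun _ => rfl) s4_pm_011

noncomputable def cut_pm_012 : Cut := Cut.of [[⟨0, 0, 0, 67108864⟩, ⟨1, 1, 0, 67108864⟩, ⟨2, 1, 0, 67108864⟩]]

noncomputable def f_pm_012 : ℕ → ℕ → ℕ → ℕ → Bool := onCell 1073741824 536870912 536870912 536870912 697932185 42949674
    (rowB 3 eng mog cd1q0 cd7q1 pd2 2 true true false .pnp 0 1 2 (qsf 0 536870912 536870912 536870912 2) ndB1q0 ndB7q1 pcB2 cut_pm_012 Ext.none)

def k0_pm_012 : ∃ t, chk3 f_pm_012 t 4 2 1 = true :=
  ⟨(b (a (b (l 16161312) (l 16270800)) (b (l 15973888) (l 16015872))) (a (b (a (l 16293680) (l 16345240)) (a (a (b (l 16375416) (l 16416224)) (l 16478256)) (b (l 16273296) (l 16306256)))) (b (a (l 16147600) (l 16077528)) (a (l 16358384) (l 16158880))))), by decide +kernel⟩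

def k1_pm_012 : ∃ t, chk3 f_pm_012 t 4 3 1 = true :=
  ⟨(a (b (b (a (b (l 16517760) (l 16517464)) (b (l 16340248) (l 16376032))) (a (a (b (l 16584520) (l 16583232)) (b (l 16490200) (l 16527784))) (a (b (l 16438520) (l 16473968)) (b (l 16387672) (l 16421696))))) (a (b (b (a (l 16677136) (l 16628800)) (b (a (l 16675624) (l 16637104)) (a (l 16692856) (a (l 16628024) (l 16598616))))) (b (a (b (a (l 16703752) (a (l 16681064) (l 16666032))) (a (l 6) (a (l 6) (l 16681944)))) (b (a (l 16643640) (l 16614088)) (a (l 16679960) (l 16628672)))) (a (l 6) (b (a (l 6) (b (l 16639336) (l 6))) (l 6))))) (b (b (a (l 16508648) (l 16453192)) (a (b (l 16535344) (l 16553456)) (l 16506280))) (b (b (a (l 16590800) (l 16510040)) (a (a (l 16598648) (l 16568928)) (l 16545536))) (b (a (a (b (l 16608720) (l 16615232)) (l 16581472)) (b (l 16533600) (l 16539096))) (a (b (a (l 6) (l 16590416)) (l 6)) (b (l 16544376) (a (l 16564904) (l 16534080))))))))) (b (b (a (b (l 16253608)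 (l 16283088)) (b (l 16174096) (l 16197936))) (a (b (l 16313840) (l 16365616)) (b (l 16222384) (l 16247168)))) (b (a (b (a (l 16399592) (l 16347704)) (a (l 16428136) (l 16372936))) (b (l 16407808) (a (l 16319712) (l 16268280)))) (a (b (a (b (l 16450144) (l 16464696)) (b (l 16392096) (l 16404816))) (b (a (l 16498024) (l 16417120)) (a (b (l 16484280) (l 16488472)) (b (l 16425088) (l 16429008))))) (b (a (l 16341440) (l 16286424)) (b (a (l 16357176) (l 16299040)) (a (l 16387816) (l 16306672)))))))), by decide +kernel⟩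

def k2_pm_012 : ∃ t, chk3 f_pm_012 t 5 1 1 = true :=
  ⟨(b (b (a (a (b (l 2) (a (l 15935144) (l 2))) (l 2)) (l 2)) (a (a (b (a (l 16025752) (l 16163184)) (a (l 16085400) (a (l 16060248) (l 16046464)))) (b (l 15950728) (l 16009856))) (b (l 15941848) (l 15971504)))) (b (a (a (b (a (l 16129168) (a (l 16102432) (l 16150136))) (a (l 16169328) (a (l 16138664) (a (l 16123968) (l 16114952))))) (b (l 16089104) (a (l 16091272) (l 16056984)))) (b (l 16046608) (a (l 16012536) (l 15962952)))) (a (b (a (a (b (l 16198992) (l 16217928)) (a (b (l 16164352) (l 16181032)) (a (l 16176016) (b (l 16136368) (l 16149784))))) (b (l 16130960) (a (l 16120840) (l 16076024)))) (a (a (b (l 16233264) (b (l 16242720) (l 16248080))) (b (a (l 16194536) (a (l 16175200) (a (l 16165184) (l 16158000)))) (a (b (l 16201544) (l 16205120)) (a (l 16182288) (a (l 16171144) (b (l 16162144) (l 16163496))))))) (b (a (l 16130304) (l 16081808)) (a (b (l 16133664) (l 16133816)) (b (l 16083536)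 (l 16081848)))))) (b (b (a (l 16014336) (l 15952544)) (a (l 16014152) (l 15943536))) (b (a (l 16013080) (l 15933544)) (a (b (l 16010680) (a (l 16031760) (l 15983896))) (b (l 15924568) (l 15917384)))))))), by decide +kernel⟩

def k3_pm_012 : ∃ t, chk3 f_pm_012 t 3 1 1 = true :=
  ⟨(b (a (b (l 2) (a (b (l 2) (l 15954728)) (l 2))) (l 2)) (a (b (a (b (l 15934688) (l 15908128)) (b (l 15923624) (l 15871968))) (b (a (b (l 15882208) (l 15904208)) (b (l 15827600) (l 15795536))) (a (b (a (l 15868056) (l 15816152)) (a (b (l 15852744) (l 15841384)) (l 15787848))) (b (l 15761520) (a (l 15742064) (l 15708976)))))) (b (a (b (l 2) (l 15878856)) (l 2)) (b (a (l 15797464) (l 15830088)) (a (a (l 15774528) (l 15706048)) (b (l 15750008) (l 15691600))))))), by decide +kernel⟩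

theorem s4_pm_012 : ∃ t, chk3 f_pm_012 t 4 1 1 = true := ex3_b k0_pm_012 k1_pm_012

theorem s5_pm_012 : ∃ t, chk3 f_pm_012 t 2 1 1 = true := ex3_a s4_pm_012 k2_pm_012

theorem s6_pm_012 : ∃ t, chk3 f_pm_012 t 1 1 1 = true := ex3_a s5_pm_012 k3_pm_012

theorem c_pm_012 : CertB 0 536870912 536870912 536870912 697932185 42949674 3 eng mog cd1q0 cd7q1 pd2 true true false .pnp 0 1 2
    ndB1q0 ndB7q1 pcB2 cut_pm_012 Ext.none :=
  certB2 (fam := true) (s1 := true) (s2 := false) (a := 0) (b := 1) (c := 2) (cn := .pnp) (n1 := ndB1q0) (n2 := ndB7q1) (pc := pcB2) (cut := cut_pm_012) (xt := Ext.none) (P1 := 0) (W1 := 536870912) (P2 := 536870912) (W2 := 536870912) (P3 := 697932185) (W3 := 42949674) (N0 := 3) (En := eng) (mo := mog) (C1 := cd1q0) (C2 := cd7q1) (C3 := pd2)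
    rfl (fun _ => rfl) s6_pm_012

noncomputable def cut_pm_022 : Cut := Cut.of [[⟨0, 0, 0, 67108864⟩, ⟨1, 1, 0, 67108864⟩, ⟨2, 1, 0, 67108864⟩]]

noncomputable def f_pm_022 : ℕ → ℕ → ℕ → ℕ → Bool := onCell 1073741824 536870912 1073741824 536870912 697932185 42949674
    (rowB 3 eng mog cd1q0 cd7q2 pd2 2 true true false .pp 0 2 2 (qsf 0 536870912 1073741824 536870912 2) ndB1q0 ndB7q2 pcB2 cut_pm_022 Ext.none)

def k0_pm_022 : ∃ t, chk3 f_pm_022 t 4 2 1 = true :=
  ⟨(b (a (a (b (b (l 6) (b (l 6) (l 1))) (l 1)) (b (b (a (l 6) (a (l 6) (a (l 6) (b (l 16547112) (l 16582128))))) (a (b (l 6) (a (l 1) (l 707092347959))) (b (b (a (l 6) (l 16614488)) (l 16666520)) (a (b (l 6) (l 607771198359)) (b (l 16645336) (l 520261154199)))))) (a (l 1) (b (b (l 706018510615) (l 1)) (l 1))))) (b (a (b (a (b (b (l 16499744) (l 16517800)) (b (l 16535336) (l 16552208))) (b (l 16469872) (l 16504712))) (a (b (l 16618392) (b (l 16599456) (l 16614112))) (b (l 16516432) (l 16567952))))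 (b (a (b (l 16410960) (l 16424968)) (b (l 16372416) (l 16367360))) (a (b (l 16457712) (l 16488336)) (b (l 16399944) (l 16430720))))) (a (b (a (b (a (l 513818725415) (l 189548603959)) (l 718366517223)) (b (l 16575464) (a (l 543346462087) (l 16585224)))) (a (l 1) (l 714071475623))) (b (a (b (l 16517024) (l 16543776)) (b (l 16459584) (l 16486640))) (a (b (l 445099030487) (l 722124482119)) (b (l 16511824) (l 425234708391))))))) (a (l 1) (b (a (l 1) (b (a (l 1) (l 716755698775)) (l 1))) (l 1)))), by decide +kernel⟩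

def k1_pm_022 : ∃ t, chk3 f_pm_022 t 5 2 1 = true :=
  ⟨(b (a (a (a (b (b (b (l 16270720) (l 16309048)) (b (l 16343152) (l 16373592))) (b (a (l 16430832) (l 16402480)) (b (l 16455560) (l 16479104)))) (a (b (b (l 16267096) (l 16336816)) (b (l 16373720) (l 16425240))) (b (b (a (l 16223768) (a (l 16211824) (b (l 16183680) (l 16221504)))) (a (l 16293952) (a (l 16282040) (l 16272960)))) (a (b (l 16351312) (l 16403048)) (a (b (l 16339008) (l 16390504)) (b (b (l 16316880) (l 16405440)) (b (l 16389168) (l 16392840)))))))) (b (b (a (b (l 16153272) (l 16190920)) (l 16119272)) (a (l 16284240) (l 16189232))) (b (a (l 16300384) (l 16249032)) (b (l 16459632) (l 16337688))))) (b (b (a (b (l 16087864) (l 16062680)) (b (l 15933960) (l 15972704))) (a (l 16114400) (l 16025016))) (b (a (l 16175552) (l 16086744)) (a (l 16270976) (l 16141320))))) (b (a (a (a (b (a (l 534756425799) (l 273300095543)) (l 1)) (a (b (l 149283050871) (l 1)) (a (b (l 16447232) (l 1)) (b (a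 (l 16435224) (c (l 16428232) (l 16423376))) (a (l 1) (l 387116976279)))))) (b (b (l 16360720) (l 16381552)) (a (l 347925070231) (l 16384072)))) (b (a (l 16276264) (l 16189832)) (a (l 16314984) (l 16230032)))) (a (a (l 1) (b (l 607233804631) (l 1))) (a (b (l 16469784) (l 595959375223)) (b (l 16261312) (l 16281904)))))), by decide +kernel⟩

def k2_pm_022 : ∃ t, chk3 f_pm_022 t 2 3 1 = true :=
  ⟨(a (l 1) (a (l 1) (b (b (b (l 645888259239) (l 1)) (l 1)) (l 1)))), by decide +kernel⟩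

def k3_pm_022 : ∃ t, chk3 f_pm_022 t 3 1 1 = true :=
  ⟨(b (a (b (b (a (b (a (b (l 15855440) (l 15893928)) (l 15810480)) (a (l 15946800) (l 15880864))) (b (a (l 15759712) (l 15721944)) (a (l 15827608) (l 15786880)))) (a (b (a (l 16009192) (l 15943096)) (a (l 16063880) (l 15998056))) (b (l 15865560) (l 15919440)))) (b (a (b (l 16141976) (l 16204432)) (b (l 15967184) (l 16009056))) (a (b (a (l 16186640) (l 16122216)) (l 16220152)) (b (l 16043768) (l 16069696))))) (b (b (a (b (a (l 15696480) (l 15683168)) (l 15747848)) (a (l 15708656) (l 15717216))) (a (b (l 15802520) (l 15852952)) (l 15805304))) (b (a (b (l 15897976) (l 15936472)) (l 15887936)) (a (b (l 15969752) (l 15996528)) (l 16035320))))) (a (b (b (a (b (a (l 16219736) (l 16161880)) (a (l 630855732503) (l 16150144))) (b (l 16085520) (l 16086560))) (a (b (l 641593001079) (l 1)) (b (l 331818438391) (l 322154761527)))) (a (l 1) (b (b (l 393558390887) (l 1)) (l 1)))) (b (b (a (b (l 16013640) (l 16014936))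 (l 15962280)) (a (b (l 15996984) (a (l 16006040) (l 15978456))) (b (l 15962568) (l 15934576)))) (b (a (b (l 15977096) (l 321617780711)) (b (l 15941504) (l 15937912))) (a (b (l 436507894119) (l 1)) (b (l 15924576) (l 359735470199))))))), by decide +kernel⟩

theorem s4_pm_022 : ∃ t, chk3 f_pm_022 t 2 2 1 = true := ex3_a k0_pm_022 k1_pm_022

theorem s5_pm_022 : ∃ t, chk3 f_pm_022 t 2 1 1 = true := ex3_b s4_pm_022 k2_pm_022

theorem s6_pm_022 : ∃ t, chk3 f_pm_022 t 1 1 1 = true := ex3_a s5_pm_022 k3_pm_022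

theorem c_pm_022 : CertB 0 536870912 1073741824 536870912 697932185 42949674 3 eng mog cd1q0 cd7q2 pd2 true true false .pp 0 2 2
    ndB1q0 ndB7q2 pcB2 cut_pm_022 Ext.none :=
  certB2 (fam := true) (s1 := true) (s2 := false) (a := 0) (b := 2) (c := 2) (cn := .pp) (n1 := ndB1q0) (n2 := ndB7q2) (pc := pcB2) (cut := cut_pm_022) (xt := Ext.none) (P1 := 0) (W1 := 536870912) (P2 := 1073741824) (W2 := 536870912) (P3 := 697932185) (W3 := 42949674) (N0 := 3) (En := eng) (mo := mog) (C1 := cd1q0) (C2 := cd7q2) (C3 := pd2)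
    rfl (fun _ => rfl) s6_pm_022

noncomputable def f_pm_023 : ℕ → ℕ → ℕ → ℕ → Bool := onCell 1610612736 536870912 1073741824 536870912 697932185 42949674
    (rowB 3 eng mog cd1q0 cd7q2 pd3 2 true true false .up 0 2 3 (qsf 0 536870912 1073741824 536870912 3) ndB1q0 ndB7q2 pcB3 Cut.none Ext.none)

def k0_pm_023 : ∃ t, chk3 f_pm_023 t 1 1 1 = true :=
  ⟨(b (b (a (a (a (b (l 15749304) (l 15818504)) (b (l 15754312) (l 15828384))) (a (a (b (l 2) (l 205720747479)) (l 2)) (l 2))) (l 2)) (a (a (a (b (l 15889296) (l 15950440)) (b (l 15899304) (l 15963376))) (a (a (b (l 15911768) (l 15976592)) (b (l 15917760) (l 15988288))) (a (a (b (l 15931096) (l 16001608)) (b (l 2) (l 16055344))) (l 160087047047)))) (a (a (b (l 2) (l 16122944)) (l 2)) (l 2)))) (b (a (a (b (a (l 15986296) (l 16008096)) (a (l 15957720) (l 15992568))) (a (a (b (l 16029472) (l 16028592)) (b (l 16047464) (l 16063064))) (a (b (l 16078432) (l 16095360)) (l 16222376)))) (a (a (b (l 16177184) (l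 16209224)) (b (a (l 16223408) (l 2)) (a (l 16281488) (l 16320648)))) (a (a (b (l 2) (l 16373792)) (l 2)) (l 2)))) (a (a (b (a (l 15896384) (l 15867824)) (a (l 15970528) (l 15920104))) (a (b (l 15946240) (l 15935976)) (b (a (l 16029312) (l 16115368)) (l 16068120)))) (a (a (b (l 16236936) (l 16253976)) (b (a (l 16324760) (l 16371168)) (l 16383960))) (a (b (a (l 16413456) (l 16452576)) (l 16467488)) (a (l 16688512) (a (l 16607344) (a (l 16298392) (l 4))))))))), by decide +kernel⟩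

theorem c_pm_023 : CertB 0 536870912 1073741824 536870912 697932185 42949674 3 eng mog cd1q0 cd7q2 pd3 true true false .up 0 2 3
    ndB1q0 ndB7q2 pcB3 Cut.none Ext.none :=
  certB2 (fam := true) (s1 := true) (s2 := false) (a := 0) (b := 2) (c := 3) (cn := .up) (n1 := ndB1q0) (n2 := ndB7q2) (pc := pcB3) (cut := Cut.none) (xt := Ext.none) (P1 := 0) (W1 := 536870912) (P2 := 1073741824) (W2 := 536870912) (P3 := 697932185) (W3 := 42949674) (N0 := 3) (En := eng) (mo := mog) (C1 := cd1q0) (C2 := cd7q2) (C3 := pd3)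
    rfl (fun _ => rfl) k0_pm_023

noncomputable def f_pm_033 : ℕ → ℕ → ℕ → ℕ → Bool := onCell 1610612736 536870912 0 1230186008 697932185 42949674
    (rowB 3 eng mog cd1q0 cd7q3 pd3 2 true true false .pnn 0 3 3 (qsf 0 536870912 0 1230186008 3) ndB1q0 ndB7q3 pcB3 Cut.none Ext.none)

def k0_pm_033 : ∃ t, chk3 f_pm_033 t 1 1 1 = true :=
  ⟨(a (b (l 1) (b (b (l 1) (a (l 1) (a (l 1) (a (l 1) (l 569115197383))))) (b (a (l 1) (b (l 532071120135) (l 15991768))) (b (a (l 499321651815) (l 15977280)) (a (a (l 409664732663) (l 15906320)) (l 15975904)))))) (a (b (l 1) (b (b (a (l 1) (a (b (l 1) (l 16092040)) (b (l 16140936) (l 16130128)))) (a (b (a (l 528850427751) (l 16062896)) (a (l 16058536) (l 16083864))) (b (a (l 16094528) (l 16139248)) (a (l 16117064) (l 16166400))))) (b (b (a (l 16114384) (l 16204592)) (l 16220136)) (b (l 16266432) (a (l 16230560) (a (l 16342048) (l 16404088))))))) (b (b (l 4) (a (b (a (l 1) (l 4)) (a (b (l 1) (l 16211912)) (l 16283904)))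 (a (b (l 4) (l 16267456)) (l 4)))) (a (b (b (a (b (l 16351952) (l 16207280)) (b (l 16251528) (l 16279352))) (b (a (l 16209824) (l 16283920)) (l 16410784))) (b (b (l 16406728) (l 16389672)) (b (l 16446864) (l 16451384)))) (b (a (b (a (l 16316152) (l 16331656)) (b (l 16360808) (l 16385296))) (a (b (l 16344400) (l 16416944)) (b (l 4) (a (l 16433808) (b (l 4) (l 592403349719)))))) (a (b (l 16445848) (l 16522584)) (b (a (l 16487376) (a (b (l 16494952) (l 16526720)) (b (a (l 16505720) (l 16503824)) (l 16537648)))) (a (l 16545584) (a (b (l 16551216) (l 16560688)) (a (l 16562448) (l 16566280))))))))))), by decide +kernel⟩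

theorem c_pm_033 : CertB 0 536870912 0 1230186008 697932185 42949674 3 eng mog cd1q0 cd7q3 pd3 true true false .pnn 0 3 3
    ndB1q0 ndB7q3 pcB3 Cut.none Ext.none :=
  certB2 (fam := true) (s1 := true) (s2 := false) (a := 0) (b := 3) (c := 3) (cn := .pnn) (n1 := ndB1q0) (n2 := ndB7q3) (pc := pcB3) (cut := Cut.none) (xt := Ext.none) (P1 := 0) (W1 := 536870912) (P2 := 0) (W2 := 1230186008) (P3 := 697932185) (W3 := 42949674) (N0 := 3) (En := eng) (mo := mog) (C1 := cd1q0) (C2 := cd7q3) (C3 := pd3)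
    rfl (fun _ => rfl) k0_pm_033

noncomputable def f_pm_101 : ℕ → ℕ → ℕ → ℕ → Bool := onCell 536870912 536870912 536870912 536870912 697932185 42949674
    (rowB 3 eng mog cd1q1 cd7q0 pd1 1 true true false .npn 1 0 1 (qsf 536870912 536870912 0 536870912 1) ndB1q1 ndB7q0 pcB1 Cut.none Ext.none)

def k0_pm_101 : ∃ t, chk3 f_pm_101 t 1 2 1 = true :=
  ⟨(a (b (a (l 3) (a (a (a (l 3) (l 1)) (l 1)) (l 1))) (a (b (a (l 3) (b (a (l 3) (l 134922327031)) (a (l 124721781527) (l 105394395319)))) (a (b (a (l 187535696487) (b (l 16676624) (l 16655160))) (b (a (l 16671984) (l 16630120)) (a (l 16623200) (l 16602400)))) (b (b (l 111836842279) (l 16639296)) (a (l 16593952) (l 16569992))))) (b (b (a (a (b (l 16670984) (l 16654376)) (l 16639384)) (l 1)) (a (a (l 16627528) (l 16598128)) (a (l 16573664) (l 1)))) (a (b (a (l 16588784) (l 16557928)) (a (l 16543984) (l 16517144))) (b (l 16518648) (l 16470344)))))) (b (l 1) (a (b (l 1) (a (l 129956107063) (l 1))) (l 1)))),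 by decide +kernel⟩

def k1_pm_101 : ∃ t, chk3 f_pm_101 t 1 3 1 = true :=
  ⟨(a (b (b (a (b (a (a (b (l 16591232) (l 16554976)) (l 16555480)) (a (l 16536048) (l 16514584))) (a (a (b (l 16516712) (l 16475912)) (l 16519480)) (a (l 16463760) (l 16448496)))) (a (b (l 16479984) (l 16418032)) (l 16584824))) (a (b (a (a (l 16407432) (l 16375736)) (l 16364608)) (a (a (l 16323968) (l 16262840)) (l 16257184))) (a (b (l 16340664) (l 16249976)) (l 16370112)))) (a (b (a (b (l 16351296) (l 16256512)) (b (l 16132480) (l 16047688))) (a (a (l 16237288) (l 16092512)) (a (l 15998400) (l 15954728)))) (b (a (b (l 16144328) (l 16018672)) (b (l 16136856) (l 16030360))) (a (b (l 15916352) (l 15881432)) (b (l 15902160) (l 15828472)))))) (b (a (b (a (b (l 16366480) (l 16309472)) (a (l 16298768) (l 1))) (a (b (l 16251152) (l 16189088)) (b (l 16188576) (l 16123464)))) (a (b (l 1) (b (l 1) (a (l 16077976) (l 1)))) (l 1))) (a (b (a (b (l 16113992) (l 16022768)) (l 16149792)) (a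 (l 15865648) (l 15916112))) (b (a (a (l 15981112) (b (a (l 15990144) (l 1)) (a (l 15921856) (l 15910040)))) (b (l 1) (a (b (l 1) (l 211558987927)) (l 1)))) (a (a (l 15819368) (b (l 15851080) (l 15755304))) (b (a (l 178272974135) (b (l 1) (l 212095856903))) (a (l 15745064) (l 165388089623)))))))), by decide +kernel⟩

theorem s2_pm_101 : ∃ t, chk3 f_pm_101 t 1 1 1 = true := ex3_b k0_pm_101 k1_pm_101

theorem c_pm_101 : CertB 536870912 536870912 0 536870912 697932185 42949674 3 eng mog cd1q1 cd7q0 pd1 true true false .npn 1 0 1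
    ndB1q1 ndB7q0 pcB1 Cut.none Ext.none :=
  certB1 (fam := true) (s1 := true) (s2 := false) (a := 1) (b := 0) (c := 1) (cn := .npn) (n1 := ndB1q1) (n2 := ndB7q0) (pc := pcB1) (cut := Cut.none) (xt := Ext.none) (P1 := 536870912) (W1 := 536870912) (P2 := 0) (W2 := 536870912) (P3 := 697932185) (W3 := 42949674) (N0 := 3) (En := eng) (mo := mog) (C1 := cd1q1) (C2 := cd7q0) (C3 := pd1)
    rfl (fun _ => rfl) s2_pm_101

noncomputable def f_pm_102 : ℕ → ℕ → ℕ → ℕ → Bool := onCell 536870912 536870912 1073741824 536870912 697932185 42949674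
    (rowB 3 eng mog cd1q1 cd7q0 pd2 1 true true false .npp 1 0 2 (qsf 536870912 536870912 0 536870912 2) ndB1q1 ndB7q0 pcB2 Cut.none Ext.none)

def k0_pm_102 : ∃ t, chk3 f_pm_102 t 1 1 1 = true :=
  ⟨(a (b (b (a (b (a (b (l 16112104) (l 16054288)) (b (l 15886456) (l 15881304))) (a (a (l 2) (l 15974792)) (b (l 15872296) (l 15860280)))) (a (b (b (l 15808568) (l 15798008)) (b (l 15786368) (l 15775576))) (b (l 15898960) (b (l 15757368) (l 15748488))))) (a (b (a (l 2) (b (b (l 15868520) (l 2)) (l 2))) (l 2)) (b (a (b (a (b (l 15777816) (l 15770096)) (l 15752256)) (b (l 15750808) (l 15782056))) (b (l 15739264) (l 15750368))) (a (b (l 15853368) (l 2)) (l 16077992))))) (a (l 2) (b (b (a (l 2) (l 16010824)) (l 2)) (l 2)))) (b (b (a (b (a (l 15951696) (l 15769040)) (a (l 15757760) (l 15784992))) (a (b (l 15986336) (l 15805656)) (b (a (l 15748912) (b (l 15717592) (l 15752728))) (a (l 15813944) (l 15814352))))) (a (b (a (b (l 15754696) (l 15771800)) (b (l 15799440)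 (l 15825144))) (a (l 15951128) (l 15958360))) (b (a (b (l 15843136) (l 15879920)) (b (l 15879864) (l 15935384))) (a (l 16002824) (l 16056624))))) (b (a (b (a (l 16047576) (l 16096376)) (a (l 16137936) (l 16209112))) (b (a (l 16152232) (l 16206712)) (a (l 16280888) (l 16347280)))) (a (a (l 2) (b (l 16319008) (l 2))) (b (a (l 16409408) (l 16480696)) (a (l 16537248) (l 16628688))))))), by decide +kernel⟩

theorem c_pm_102 : CertB 536870912 536870912 0 536870912 697932185 42949674 3 eng mog cd1q1 cd7q0 pd2 true true false .npp 1 0 2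
    ndB1q1 ndB7q0 pcB2 Cut.none Ext.none :=
  certB1 (fam := true) (s1 := true) (s2 := false) (a := 1) (b := 0) (c := 2) (cn := .npp) (n1 := ndB1q1) (n2 := ndB7q0) (pc := pcB2) (cut := Cut.none) (xt := Ext.none) (P1 := 536870912) (W1 := 536870912) (P2 := 0) (W2 := 536870912) (P3 := 697932185) (W3 := 42949674) (N0 := 3) (En := eng) (mo := mog) (C1 := cd1q1) (C2 := cd7q0) (C3 := pd2)
    rfl (fun _ => rfl) k0_pm_102

noncomputable def f_pm_112 : ℕ → ℕ → ℕ → ℕ → Bool := onCell 536870912 536870912 1073741824 536870912 697932185 42949674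
    (rowB 3 eng mog cd1q1 cd7q1 pd2 1 true true false .dn 1 1 2 (qsf 536870912 536870912 536870912 536870912 2) ndB1q1 ndB7q1 pcB2 Cut.none Ext.none)

def k0_pm_112 : ∃ t, chk3 f_pm_112 t 1 1 1 = true :=
  ⟨(b (a (b (a (b (a (b (l 16005368) (l 16000696)) (l 191158166199)) (a (a (l 16007920) (l 15953472)) (l 15908448))) (b (l 1) (a (l 15814576) (l 1)))) (a (b (b (a (b (l 15954280) (l 16029504)) (b (l 15847408) (l 15880664))) (a (l 15934736) (l 15923680))) (a (a (l 15968640) (l 15954776)) (l 16007288))) (b (a (b (b (l 15764960) (l 15823576)) (l 15830312)) (b (l 1) (l 15750696))) (a (l 15979008) (l 15891776))))) (a (b (l 1) (b (l 1) (a (l 15911968) (l 1)))) (l 1))) (a (b (a (b (a (l 15949320) (l 15965632)) (a (l 15901040) (l 15956544))) (b (a (l 15985640) (l 16015664)) (a (l 16013200) (l 16073992)))) (a (a (b (l 15843376) (l 15785720)) (b (l 15926376) (l 15896560))) (a (a (l 15986344) (l 16041928)) (l 16170832)))) (b (a (b (a (l 16051608) (l 16100032))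 (a (l 16143408) (l 16213176))) (b (l 1) (a (l 16283640) (l 1)))) (a (b (l 16337976) (l 16367096)) (b (l 16447296) (l 16586064)))))), by decide +kernel⟩

theorem c_pm_112 : CertB 536870912 536870912 536870912 536870912 697932185 42949674 3 eng mog cd1q1 cd7q1 pd2 true true false .dn 1 1 2
    ndB1q1 ndB7q1 pcB2 Cut.none Ext.none :=
  certB1 (fam := true) (s1 := true) (s2 := false) (a := 1) (b := 1) (c := 2) (cn := .dn) (n1 := ndB1q1) (n2 := ndB7q1) (pc := pcB2) (cut := Cut.none) (xt := Ext.none) (P1 := 536870912) (W1 := 536870912) (P2 := 536870912) (W2 := 536870912) (P3 := 697932185) (W3 := 42949674) (N0 := 3) (En := eng) (mo := mog) (C1 := cd1q1) (C2 := cd7q1) (C3 := pd2)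
    rfl (fun _ => rfl) k0_pm_112

noncomputable def f_pm_113 : ℕ → ℕ → ℕ → ℕ → Bool := onCell 1610612736 536870912 536870912 536870912 697932185 42949674
    (rowB 3 eng mog cd1q1 cd7q1 pd3 2 true true false .nn 1 1 3 (qsf 536870912 536870912 536870912 536870912 3) ndB1q1 ndB7q1 pcB3 Cut.none Ext.none)

def k0_pm_113 : ∃ t, chk3 f_pm_113 t 1 1 1 = true :=
  ⟨(a (a (b (b (a (b (l 16710056) (l 16634712)) (l 16816120)) (a (b (l 16553280) (l 16424584)) (b (l 16579168) (l 16462488)))) (b (a (b (l 16246400) (l 16085776)) (b (l 16342280) (l 16212016))) (a (b (l 15948576) (a (l 15795032) (l 15808360))) (b (l 16019976) (l 15845328))))) (b (b (a (b (l 2) (l 4)) (l 2)) (a (l 16468400) (b (l 4) (l 16532456)))) (a (a (b (b (l 16388752) (l 16257848)) (b (l 16118936) (l 15934160))) (b (l 16363064) (b (l 16161704) (l 16006776)))) (b (l 16426120) (b (l 16233248) (a (b (l 16104032) (l 16026752)) (l 16116952))))))) (a (b (l 4) (a (b (l 16661104) (a (l 16358096) (l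 16261744))) (b (l 4) (a (l 16281392) (l 4))))) (b (l 2) (b (l 4) (l 4))))), by decide +kernel⟩

theorem c_pm_113 : CertB 536870912 536870912 536870912 536870912 697932185 42949674 3 eng mog cd1q1 cd7q1 pd3 true true false .nn 1 1 3
    ndB1q1 ndB7q1 pcB3 Cut.none Ext.none :=
  certB2 (fam := true) (s1 := true) (s2 := false) (a := 1) (b := 1) (c := 3) (cn := .nn) (n1 := ndB1q1) (n2 := ndB7q1) (pc := pcB3) (cut := Cut.none) (xt := Ext.none) (P1 := 536870912) (W1 := 536870912) (P2 := 536870912) (W2 := 536870912) (P3 := 697932185) (W3 := 42949674) (N0 := 3) (En := eng) (mo := mog) (C1 := cd1q1) (C2 := cd7q1) (C3 := pd3)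
    rfl (fun _ => rfl) k0_pm_113

noncomputable def f_pm_123 : ℕ → ℕ → ℕ → ℕ → Bool := onCell 1610612736 536870912 1073741824 536870912 697932185 42949674
    (rowB 3 eng mog cd1q1 cd7q2 pd3 2 true true false .npn 1 2 3 (qsf 536870912 536870912 1073741824 536870912 3) ndB1q1 ndB7q2 pcB3 Cut.none Ext.none)

def k0_pm_123 : ∃ t, chk3 f_pm_123 t 1 1 1 = true :=
  ⟨(a (a (b (b (a (b (l 15763632) (l 15849400)) (b (l 15774256) (l 15846752))) (a (l 1) (l 309806858935))) (l 1)) (b (a (a (b (b (b (l 15817480) (l 15821944)) (l 15859712)) (b (l 15938176) (l 1))) (b (b (l 15880472) (l 15877728)) (b (l 15938736) (l 16034288)))) (a (b (a (b (l 15944048) (l 15921696)) (b (l 16001320) (l 16014120))) (a (b (l 15952672) (l 16036904)) (b (l 16036584) (l 16082920)))) (b (b (l 16031600) (l 16035464)) (b (l 16064304) (l 16101688))))) (a (l 1) (b (a (l 1) (l 16284720)) (l 1))))) (a (b (b (a (b (b (l 16119624) (l 16110632)) (l 16077456)) (a (b (l 16196504) (l 16173960))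 (b (l 16200560) (l 16225256)))) (a (b (l 16113824) (l 16144496)) (a (b (l 16170496) (l 16195272)) (b (l 16229976) (l 16234904))))) (b (a (b (l 16199552) (l 16260872)) (b (a (l 16238736) (l 16287304)) (a (l 16303656) (l 16334560)))) (a (l 1) (b (a (l 1) (l 16402160)) (l 1))))) (a (b (b (a (b (l 4) (l 16221696)) (l 4)) (a (l 16270768) (l 16291904))) (b (a (b (l 16328992) (l 16386904)) (b (l 16379248) (l 16424312))) (a (l 16522344) (b (l 16465080) (l 16514408))))) (b (b (l 4) (l 4)) (a (b (b (l 16397608) (l 16460336)) (l 16721536)) (b (l 4) (a (l 16639400) (a (l 16330824) (l 4))))))))), by decide +kernel⟩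

theorem c_pm_123 : CertB 536870912 536870912 1073741824 536870912 697932185 42949674 3 eng mog cd1q1 cd7q2 pd3 true true false .npn 1 2 3
    ndB1q1 ndB7q2 pcB3 Cut.none Ext.none :=
  certB2 (fam := true) (s1 := true) (s2 := false) (a := 1) (b := 2) (c := 3) (cn := .npn) (n1 := ndB1q1) (n2 := ndB7q2) (pc := pcB3) (cut := Cut.none) (xt := Ext.none) (P1 := 536870912) (W1 := 536870912) (P2 := 1073741824) (W2 := 536870912) (P3 := 697932185) (W3 := 42949674) (N0 := 3) (En := eng) (mo := mog) (C1 := cd1q1) (C2 := cd7q2) (C3 := pd3)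
    rfl (fun _ => rfl) k0_pm_123

noncomputable def f_pm_133 : ℕ → ℕ → ℕ → ℕ → Bool := onCell 536870912 536870912 0 1230186008 697932185 42949674
    (rowB 3 eng mog cd1q1 cd7q3 pd3 0 true true false .dn 1 3 3 (qsf 536870912 536870912 0 1230186008 3) ndB1q1 ndB7q3 pcB3 Cut.none Ext.none)

def k0_pm_133 : ∃ t, chk3 f_pm_133 t 1 1 1 = true :=
  ⟨(b (l 2) (b (l 2) (a (b (l 2) (a (l 4) (l 2))) (l 2)))), by decide +kernel⟩

theorem c_pm_133 : CertB 536870912 536870912 0 1230186008 697932185 42949674 3 eng mog cd1q1 cd7q3 pd3 true true false .dn 1 3 3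
    ndB1q1 ndB7q3 pcB3 Cut.none Ext.none :=
  certB0 (fam := true) (s1 := true) (s2 := false) (a := 1) (b := 3) (c := 3) (cn := .dn) (n1 := ndB1q1) (n2 := ndB7q3) (pc := pcB3) (cut := Cut.none) (xt := Ext.none) (P1 := 536870912) (W1 := 536870912) (P2 := 0) (W2 := 1230186008) (P3 := 697932185) (W3 := 42949674) (N0 := 3) (En := eng) (mo := mog) (C1 := cd1q1) (C2 := cd7q3) (C3 := pd3)
    rfl k0_pm_133

noncomputable def f_pm_202_a : ℕ → ℕ → ℕ → ℕ → Bool := onCell 0 536870912 0 536870912 697932185 42949674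
    (rowB 3 eng mog cd1q2a cd7q0 pd2 0 true true false .pp 2 0 2 (qsf 0 536870912 0 536870912 2) ndB1q2a ndB7q0 pcB2 Cut.none Ext.none)

def k0_pm_202_a : ∃ t, chk3 f_pm_202_a t 1 1 1 = true :=
  ⟨(b (a (l 4) (b (a (b (a (b (l 15799232) (l 15856904)) (b (a (l 15752344) (l 15722984)) (l 15783440))) (a (b (l 15918824) (l 4)) (b (l 15838368) (l 15902792)))) (a (b (b (a (l 15695696) (b (l 15666464) (l 15682568))) (a (l 15736904) (l 15712544))) (b (l 15774456) (a (l 15849712) (l 15822752)))) (b (a (b (b (a (l 15653384) (l 15646128)) (l 15664888)) (l 15695568)) (b (a (b (b (a (l 15639624) (l 15636832)) (l 15644712)) (l 15658008)) (b (a (b (b (l 15633016) (l 15636320)) (l 15642496)) (b (l 15760112) (l 15644832))) (l 15661536))) (a (l 15692872) (l 15703144)))) (a (b (l 15747768) (l 15809008)) (b (l 15755768) (l 15821336)))))) (a (a (l 4) (b (l 16198736) (b (l 16120968) (l 4)))) (b (a (b (l 15907520) (l 15983840)) (b (a (l 15879664) (l 15891992)) (a (l 15961704)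 (l 15963072)))) (a (l 16100448) (b (l 16048512) (l 16131424))))))) (a (l 4) (a (l 4) (b (b (a (b (l 16215432) (l 16288536)) (b (l 16211784) (l 16289552))) (a (b (l 16358800) (l 4)) (b (l 16364008) (l 16429936)))) (a (l 4) (b (b (l 16491296) (l 16545328)) (b (l 16579784) (l 4)))))))), by decide +kernel⟩

theorem c_pm_202_a : CertB 0 536870912 0 536870912 697932185 42949674 3 eng mog cd1q2a cd7q0 pd2 true true false .pp 2 0 2
    ndB1q2a ndB7q0 pcB2 Cut.none Ext.none :=
  certB0 (fam := true) (s1 := true) (s2 := false) (a := 2) (b := 0) (c := 2) (cn := .pp) (n1 := ndB1q2a) (n2 := ndB7q0) (pc := pcB2) (cut := Cut.none) (xt := Ext.none) (P1 := 0) (W1 := 536870912) (P2 := 0) (W2 := 536870912) (P3 := 697932185) (W3 := 42949674) (N0 := 3) (En := eng) (mo := mog) (C1 := cd1q2a) (C2 := cd7q0) (C3 := pd2)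
    rfl k0_pm_202_a

noncomputable def f_pm_202_b : ℕ → ℕ → ℕ → ℕ → Bool := onCell 1239849684 370763052 0 536870912 697932185 42949674
    (rowB 3 eng mog cd1q2b cd7q0 pd2 0 true true false .pp 2 0 2 (qsf 1239849684 370763052 0 536870912 2) ndB1q2b ndB7q0 pcB2 Cut.none Ext.none)

def k0_pm_202_b : ∃ t, chk3 f_pm_202_b t 1 1 1 = true :=
  ⟨(l 4), by decide +kernel⟩

theorem c_pm_202_b : CertB 1239849684 370763052 0 536870912 697932185 42949674 3 eng mog cd1q2b cd7q0 pd2 true true false .pp 2 0 2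
    ndB1q2b ndB7q0 pcB2 Cut.none Ext.none :=
  certB0 (fam := true) (s1 := true) (s2 := false) (a := 2) (b := 0) (c := 2) (cn := .pp) (n1 := ndB1q2b) (n2 := ndB7q0) (pc := pcB2) (cut := Cut.none) (xt := Ext.none) (P1 := 1239849684) (W1 := 370763052) (P2 := 0) (W2 := 536870912) (P3 := 697932185) (W3 := 42949674) (N0 := 3) (En := eng) (mo := mog) (C1 := cd1q2b) (C2 := cd7q0) (C3 := pd2)
    rfl k0_pm_202_b

noncomputable def f_pm_203_a : ℕ → ℕ → ℕ → ℕ → Bool := onCell 0 536870912 1610612736 536870912 697932185 42949674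
    (rowB 3 eng mog cd1q2a cd7q0 pd3 1 true true false .up 2 0 3 (qsf 0 536870912 0 536870912 3) ndB1q2a ndB7q0 pcB3 Cut.none Ext.none)

def k0_pm_203_a : ∃ t, chk3 f_pm_203_a t 1 1 1 = true :=
  ⟨(a (l 4) (b (l 4) (l 2))), by decide +kernel⟩

theorem c_pm_203_a : CertB 0 536870912 0 536870912 697932185 42949674 3 eng mog cd1q2a cd7q0 pd3 true true false .up 2 0 3
    ndB1q2a ndB7q0 pcB3 Cut.none Ext.none :=
  certB1 (fam := true) (s1 := true) (s2 := false) (a := 2) (b := 0) (c := 3) (cn := .up) (n1 := ndB1q2a) (n2 := ndB7q0) (pc := pcB3) (cut := Cut.none) (xt := Ext.none) (P1 := 0) (W1 := 536870912) (P2 := 0) (W2 := 536870912) (P3 := 697932185) (W3 := 42949674) (N0 := 3) (En := eng) (mo := mog) (C1 := cd1q2a) (C2 := cd7q0) (C3 := pd3)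
    rfl (fun _ => rfl) k0_pm_203_a

noncomputable def f_pm_203_b : ℕ → ℕ → ℕ → ℕ → Bool := onCell 1239849684 370763052 0 536870912 697932185 42949674
    (rowB 3 eng mog cd1q2b cd7q0 pd3 0 true true false .up 2 0 3 (qsf 1239849684 370763052 0 536870912 3) ndB1q2b ndB7q0 pcB3 Cut.none Ext.none)

def k0_pm_203_b : ∃ t, chk3 f_pm_203_b t 1 1 1 = true :=
  ⟨(l 4), by decide +kernel⟩

theorem c_pm_203_b : CertB 1239849684 370763052 0 536870912 697932185 42949674 3 eng mog cd1q2b cd7q0 pd3 true true false .up 2 0 3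
    ndB1q2b ndB7q0 pcB3 Cut.none Ext.none :=
  certB0 (fam := true) (s1 := true) (s2 := false) (a := 2) (b := 0) (c := 3) (cn := .up) (n1 := ndB1q2b) (n2 := ndB7q0) (pc := pcB3) (cut := Cut.none) (xt := Ext.none) (P1 := 1239849684) (W1 := 370763052) (P2 := 0) (W2 := 536870912) (P3 := 697932185) (W3 := 42949674) (N0 := 3) (En := eng) (mo := mog) (C1 := cd1q2b) (C2 := cd7q0) (C3 := pd3)
    rfl k0_pm_203_b

noncomputable def f_pm_213_a : ℕ → ℕ → ℕ → ℕ → Bool := onCell 0 536870912 536870912 536870912 697932185 42949674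
    (rowB 3 eng mog cd1q2a cd7q1 pd3 0 true true false .pnn 2 1 3 (qsf 0 536870912 536870912 536870912 3) ndB1q2a ndB7q1 pcB3 Cut.none Ext.none)

def k0_pm_213_a : ∃ t, chk3 f_pm_213_a t 1 1 1 = true :=
  ⟨(a (l 4) (b (l 4) (l 4))), by decide +kernel⟩

theorem c_pm_213_a : CertB 0 536870912 536870912 536870912 697932185 42949674 3 eng mog cd1q2a cd7q1 pd3 true true false .pnn 2 1 3
    ndB1q2a ndB7q1 pcB3 Cut.none Ext.none :=
  certB0 (fam := true) (s1 := true) (s2 := false) (a := 2) (b := 1) (c := 3) (cn := .pnn) (n1 := ndB1q2a) (n2 := ndB7q1) (pc := pcB3) (cut := Cut.none) (xt := Ext.none) (P1 := 0) (W1 := 536870912) (P2 := 536870912) (W2 := 536870912) (P3 := 697932185) (W3 := 42949674) (N0 := 3) (En := eng) (mo := mog) (C1 := cd1q2a) (C2 := cd7q1) (C3 := pd3)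
    rfl k0_pm_213_a

noncomputable def f_pm_213_b : ℕ → ℕ → ℕ → ℕ → Bool := onCell 1239849684 370763052 536870912 536870912 697932185 42949674
    (rowB 3 eng mog cd1q2b cd7q1 pd3 0 true true false .pnn 2 1 3 (qsf 1239849684 370763052 536870912 536870912 3) ndB1q2b ndB7q1 pcB3 Cut.none Ext.none)

def k0_pm_213_b : ∃ t, chk3 f_pm_213_b t 1 1 1 = true :=
  ⟨(l 4), by decide +kernel⟩

theorem c_pm_213_b : CertB 1239849684 370763052 536870912 536870912 697932185 42949674 3 eng mog cd1q2b cd7q1 pd3 true true false .pnn 2 1 3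
    ndB1q2b ndB7q1 pcB3 Cut.none Ext.none :=
  certB0 (fam := true) (s1 := true) (s2 := false) (a := 2) (b := 1) (c := 3) (cn := .pnn) (n1 := ndB1q2b) (n2 := ndB7q1) (pc := pcB3) (cut := Cut.none) (xt := Ext.none) (P1 := 1239849684) (W1 := 370763052) (P2 := 536870912) (W2 := 536870912) (P3 := 697932185) (W3 := 42949674) (N0 := 3) (En := eng) (mo := mog) (C1 := cd1q2b) (C2 := cd7q1) (C3 := pd3)
    rfl k0_pm_213_b

noncomputable def f_pm_303 : ℕ → ℕ → ℕ → ℕ → Bool := onCell 1610612736 536870912 0 536870912 697932185 42949674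
    (rowB 3 eng mog cd1q3 cd7q0 pd3 0 true true false .npn 3 0 3 (qsf 1610612736 536870912 0 536870912 3) ndB1q3 ndB7q0 pcB3 Cut.none Ext.none)

def k0_pm_303 : ∃ t, chk3 f_pm_303 t 1 1 1 = true :=
  ⟨(l 4), by decide +kernel⟩

theorem c_pm_303 : CertB 1610612736 536870912 0 536870912 697932185 42949674 3 eng mog cd1q3 cd7q0 pd3 true true false .npn 3 0 3
    ndB1q3 ndB7q0 pcB3 Cut.none Ext.none :=
  certB0 (fam := true) (s1 := true) (s2 := false) (a := 3) (b := 0) (c := 3) (cn := .npn) (n1 := ndB1q3) (n2 := ndB7q0) (pc := pcB3) (cut := Cut.none) (xt := Ext.none) (P1 := 1610612736) (W1 := 536870912) (P2 := 0) (W2 := 536870912) (P3 := 697932185) (W3 := 42949674) (N0 := 3) (En := eng) (mo := mog) (C1 := cd1q3) (C2 := cd7q0) (C3 := pd3)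
    rfl k0_pm_303

noncomputable def f_pm_313 : ℕ → ℕ → ℕ → ℕ → Bool := onCell 1610612736 536870912 536870912 536870912 697932185 42949674
    (rowB 3 eng mog cd1q3 cd7q1 pd3 0 true true false .dn 3 1 3 (qsf 1610612736 536870912 536870912 536870912 3) ndB1q3 ndB7q1 pcB3 Cut.none Ext.none)

def k0_pm_313 : ∃ t, chk3 f_pm_313 t 1 1 1 = true :=
  ⟨(l 4), by decide +kernel⟩

theorem c_pm_313 : CertB 1610612736 536870912 536870912 536870912 697932185 42949674 3 eng mog cd1q3 cd7q1 pd3 true true false .dn 3 1 3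
    ndB1q3 ndB7q1 pcB3 Cut.none Ext.none :=
  certB0 (fam := true) (s1 := true) (s2 := false) (a := 3) (b := 1) (c := 3) (cn := .dn) (n1 := ndB1q3) (n2 := ndB7q1) (pc := pcB3) (cut := Cut.none) (xt := Ext.none) (P1 := 1610612736) (W1 := 536870912) (P2 := 536870912) (W2 := 536870912) (P3 := 697932185) (W3 := 42949674) (N0 := 3) (En := eng) (mo := mog) (C1 := cd1q3) (C2 := cd7q1) (C3 := pd3)
    rfl k0_pm_313

noncomputable def f_mm_001 : ℕ → ℕ → ℕ → ℕ → Bool := onCell 0 536870912 0 536870912 697932185 42949674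
    (rowB 3 eng mog cd1q0 cd7q0 pd1 0 true false false .up 0 0 1 (qsf 0 536870912 0 536870912 1) ndB1q0 ndB7q0 pcB1 Cut.none Ext.none)

def k0_mm_001 : ∃ t, chk3 f_mm_001 t 1 1 1 = true :=
  ⟨(l 4), by decide +kernel⟩

theorem c_mm_001 : CertB 0 536870912 0 536870912 697932185 42949674 3 eng mog cd1q0 cd7q0 pd1 true false false .up 0 0 1
    ndB1q0 ndB7q0 pcB1 Cut.none Ext.none :=
  certB0 (fam := true) (s1 := false) (s2 := false) (a := 0) (b := 0) (c := 1) (cn := .up) (n1 := ndB1q0) (n2 := ndB7q0) (pc := pcB1) (cut := Cut.none) (xt := Ext.none) (P1 := 0) (W1 := 536870912) (P2 := 0) (W2 := 536870912) (P3 := 697932185) (W3 := 42949674) (N0 := 3) (En := eng) (mo := mog) (C1 := cd1q0) (C2 := cd7q0) (C3 := pd1)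
    rfl k0_mm_001

noncomputable def f_mm_011 : ℕ → ℕ → ℕ → ℕ → Bool := onCell 0 536870912 536870912 536870912 697932185 42949674
    (rowB 3 eng mog cd1q0 cd7q1 pd1 0 true false false .pnn 0 1 1 (qsf 0 536870912 536870912 536870912 1) ndB1q0 ndB7q1 pcB1 Cut.none Ext.none)

def k0_mm_011 : ∃ t, chk3 f_mm_011 t 1 1 1 = true :=
  ⟨(l 4), by decide +kernel⟩

theorem c_mm_011 : CertB 0 536870912 536870912 536870912 697932185 42949674 3 eng mog cd1q0 cd7q1 pd1 true false false .pnn 0 1 1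
    ndB1q0 ndB7q1 pcB1 Cut.none Ext.none :=
  certB0 (fam := true) (s1 := false) (s2 := false) (a := 0) (b := 1) (c := 1) (cn := .pnn) (n1 := ndB1q0) (n2 := ndB7q1) (pc := pcB1) (cut := Cut.none) (xt := Ext.none) (P1 := 0) (W1 := 536870912) (P2 := 536870912) (W2 := 536870912) (P3 := 697932185) (W3 := 42949674) (N0 := 3) (En := eng) (mo := mog) (C1 := cd1q0) (C2 := cd7q1) (C3 := pd1)
    rfl k0_mm_011

noncomputable def f_mm_012 : ℕ → ℕ → ℕ → ℕ → Bool := onCell 0 536870912 536870912 536870912 697932185 42949674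
    (rowB 3 eng mog cd1q0 cd7q1 pd2 0 true false false .pnp 0 1 2 (qsf 0 536870912 536870912 536870912 2) ndB1q0 ndB7q1 pcB2 Cut.none Ext.none)

def k0_mm_012 : ∃ t, chk3 f_mm_012 t 1 1 1 = true :=
  ⟨(l 4), by decide +kernel⟩

theorem c_mm_012 : CertB 0 536870912 536870912 536870912 697932185 42949674 3 eng mog cd1q0 cd7q1 pd2 true false false .pnp 0 1 2
    ndB1q0 ndB7q1 pcB2 Cut.none Ext.none :=
  certB0 (fam := true) (s1 := false) (s2 := false) (a := 0) (b := 1) (c := 2) (cn := .pnp) (n1 := ndB1q0) (n2 := ndB7q1) (pc := pcB2) (cut := Cut.none) (xt := Ext.none) (P1 := 0) (W1 := 536870912) (P2 := 536870912) (W2 := 536870912) (P3 := 697932185) (W3 := 42949674) (N0 := 3) (En := eng) (mo := mog) (C1 := cd1q0) (C2 := cd7q1) (C3 := pd2)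
    rfl k0_mm_012

noncomputable def f_mm_022 : ℕ → ℕ → ℕ → ℕ → Bool := onCell 0 536870912 1073741824 536870912 697932185 42949674
    (rowB 3 eng mog cd1q0 cd7q2 pd2 0 true false false .pp 0 2 2 (qsf 0 536870912 1073741824 536870912 2) ndB1q0 ndB7q2 pcB2 Cut.none Ext.none)

def k0_mm_022 : ∃ t, chk3 f_mm_022 t 1 1 1 = true :=
  ⟨(l 4), by decide +kernel⟩

theorem c_mm_022 : CertB 0 536870912 1073741824 536870912 697932185 42949674 3 eng mog cd1q0 cd7q2 pd2 true false false .pp 0 2 2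
    ndB1q0 ndB7q2 pcB2 Cut.none Ext.none :=
  certB0 (fam := true) (s1 := false) (s2 := false) (a := 0) (b := 2) (c := 2) (cn := .pp) (n1 := ndB1q0) (n2 := ndB7q2) (pc := pcB2) (cut := Cut.none) (xt := Ext.none) (P1 := 0) (W1 := 536870912) (P2 := 1073741824) (W2 := 536870912) (P3 := 697932185) (W3 := 42949674) (N0 := 3) (En := eng) (mo := mog) (C1 := cd1q0) (C2 := cd7q2) (C3 := pd2)
    rfl k0_mm_022

noncomputable def f_mm_023 : ℕ → ℕ → ℕ → ℕ → Bool := onCell 0 536870912 1073741824 536870912 697932185 42949674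
    (rowB 3 eng mog cd1q0 cd7q2 pd3 0 true false false .up 0 2 3 (qsf 0 536870912 1073741824 536870912 3) ndB1q0 ndB7q2 pcB3 Cut.none Ext.none)

def k0_mm_023 : ∃ t, chk3 f_mm_023 t 1 1 1 = true :=
  ⟨(l 4), by decide +kernel⟩

theorem c_mm_023 : CertB 0 536870912 1073741824 536870912 697932185 42949674 3 eng mog cd1q0 cd7q2 pd3 true false false .up 0 2 3
    ndB1q0 ndB7q2 pcB3 Cut.none Ext.none :=
  certB0 (fam := true) (s1 := false) (s2 := false) (a := 0) (b := 2) (c := 3) (cn := .up) (n1 := ndB1q0) (n2 := ndB7q2) (pc := pcB3) (cut := Cut.none) (xt := Ext.none) (P1 := 0) (W1 := 536870912) (P2 := 1073741824) (W2 := 536870912) (P3 := 697932185) (W3 := 42949674) (N0 := 3) (En := eng) (mo := mog) (C1 := cd1q0) (C2 := cd7q2) (C3 := pd3)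
    rfl k0_mm_023

noncomputable def f_mm_033 : ℕ → ℕ → ℕ → ℕ → Bool := onCell 0 536870912 0 1230186008 697932185 42949674
    (rowB 3 eng mog cd1q0 cd7q3 pd3 0 true false false .pnn 0 3 3 (qsf 0 536870912 0 1230186008 3) ndB1q0 ndB7q3 pcB3 Cut.none Ext.none)

def k0_mm_033 : ∃ t, chk3 f_mm_033 t 1 1 1 = true :=
  ⟨(l 4), by decide +kernel⟩

theorem c_mm_033 : CertB 0 536870912 0 1230186008 697932185 42949674 3 eng mog cd1q0 cd7q3 pd3 true false false .pnn 0 3 3
    ndB1q0 ndB7q3 pcB3 Cut.none Ext.none :=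
  certB0 (fam := true) (s1 := false) (s2 := false) (a := 0) (b := 3) (c := 3) (cn := .pnn) (n1 := ndB1q0) (n2 := ndB7q3) (pc := pcB3) (cut := Cut.none) (xt := Ext.none) (P1 := 0) (W1 := 536870912) (P2 := 0) (W2 := 1230186008) (P3 := 697932185) (W3 := 42949674) (N0 := 3) (En := eng) (mo := mog) (C1 := cd1q0) (C2 := cd7q3) (C3 := pd3)
    rfl k0_mm_033

noncomputable def f_mm_101 : ℕ → ℕ → ℕ → ℕ → Bool := onCell 536870912 536870912 0 536870912 697932185 42949674
    (rowB 3 eng mog cd1q1 cd7q0 pd1 0 true false false .npn 1 0 1 (qsf 536870912 536870912 0 536870912 1) ndB1q1 ndB7q0 pcB1 Cut.none Ext.none)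

def k0_mm_101 : ∃ t, chk3 f_mm_101 t 1 1 1 = true :=
  ⟨(l 4), by decide +kernel⟩

theorem c_mm_101 : CertB 536870912 536870912 0 536870912 697932185 42949674 3 eng mog cd1q1 cd7q0 pd1 true false false .npn 1 0 1
    ndB1q1 ndB7q0 pcB1 Cut.none Ext.none :=
  certB0 (fam := true) (s1 := false) (s2 := false) (a := 1) (b := 0) (c := 1) (cn := .npn) (n1 := ndB1q1) (n2 := ndB7q0) (pc := pcB1) (cut := Cut.none) (xt := Ext.none) (P1 := 536870912) (W1 := 536870912) (P2 := 0) (W2 := 536870912) (P3 := 697932185) (W3 := 42949674) (N0 := 3) (En := eng) (mo := mog) (C1 := cd1q1) (C2 := cd7q0) (C3 := pd1)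
    rfl k0_mm_101

noncomputable def f_mm_102 : ℕ → ℕ → ℕ → ℕ → Bool := onCell 536870912 536870912 0 536870912 697932185 42949674
    (rowB 3 eng mog cd1q1 cd7q0 pd2 0 true false false .npp 1 0 2 (qsf 536870912 536870912 0 536870912 2) ndB1q1 ndB7q0 pcB2 Cut.none Ext.none)

def k0_mm_102 : ∃ t, chk3 f_mm_102 t 1 1 1 = true :=
  ⟨(l 4), by decide +kernel⟩

theorem c_mm_102 : CertB 536870912 536870912 0 536870912 697932185 42949674 3 eng mog cd1q1 cd7q0 pd2 true false false .npp 1 0 2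
    ndB1q1 ndB7q0 pcB2 Cut.none Ext.none :=
  certB0 (fam := true) (s1 := false) (s2 := false) (a := 1) (b := 0) (c := 2) (cn := .npp) (n1 := ndB1q1) (n2 := ndB7q0) (pc := pcB2) (cut := Cut.none) (xt := Ext.none) (P1 := 536870912) (W1 := 536870912) (P2 := 0) (W2 := 536870912) (P3 := 697932185) (W3 := 42949674) (N0 := 3) (En := eng) (mo := mog) (C1 := cd1q1) (C2 := cd7q0) (C3 := pd2)
    rfl k0_mm_102

noncomputable def f_mm_112 : ℕ → ℕ → ℕ → ℕ → Bool := onCell 536870912 536870912 536870912 536870912 697932185 42949674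
    (rowB 3 eng mog cd1q1 cd7q1 pd2 0 true false false .dn 1 1 2 (qsf 536870912 536870912 536870912 536870912 2) ndB1q1 ndB7q1 pcB2 Cut.none Ext.none)

def k0_mm_112 : ∃ t, chk3 f_mm_112 t 1 1 1 = true :=
  ⟨(l 4), by decide +kernel⟩

theorem c_mm_112 : CertB 536870912 536870912 536870912 536870912 697932185 42949674 3 eng mog cd1q1 cd7q1 pd2 true false false .dn 1 1 2
    ndB1q1 ndB7q1 pcB2 Cut.none Ext.none :=
  certB0 (fam := true) (s1 := false) (s2 := false) (a := 1) (b := 1) (c := 2) (cn := .dn) (n1 := ndB1q1) (n2 := ndB7q1) (pc := pcB2) (cut := Cut.none) (xt := Ext.none) (P1 := 536870912) (W1 := 536870912) (P2 := 536870912) (W2 := 536870912) (P3 := 697932185) (W3 := 42949674) (N0 := 3) (En := eng) (mo := mog) (C1 := cd1q1) (C2 := cd7q1) (C3 := pd2)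
    rfl k0_mm_112

noncomputable def f_mm_113 : ℕ → ℕ → ℕ → ℕ → Bool := onCell 536870912 536870912 536870912 536870912 697932185 42949674
    (rowB 3 eng mog cd1q1 cd7q1 pd3 0 true false false .nn 1 1 3 (qsf 536870912 536870912 536870912 536870912 3) ndB1q1 ndB7q1 pcB3 Cut.none Ext.none)

def k0_mm_113 : ∃ t, chk3 f_mm_113 t 1 1 1 = true :=
  ⟨(l 4), by decide +kernel⟩

theorem c_mm_113 : CertB 536870912 536870912 536870912 536870912 697932185 42949674 3 eng mog cd1q1 cd7q1 pd3 true false false .nn 1 1 3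
    ndB1q1 ndB7q1 pcB3 Cut.none Ext.none :=
  certB0 (fam := true) (s1 := false) (s2 := false) (a := 1) (b := 1) (c := 3) (cn := .nn) (n1 := ndB1q1) (n2 := ndB7q1) (pc := pcB3) (cut := Cut.none) (xt := Ext.none) (P1 := 536870912) (W1 := 536870912) (P2 := 536870912) (W2 := 536870912) (P3 := 697932185) (W3 := 42949674) (N0 := 3) (En := eng) (mo := mog) (C1 := cd1q1) (C2 := cd7q1) (C3 := pd3)
    rfl k0_mm_113

noncomputable def f_mm_123 : ℕ → ℕ → ℕ → ℕ → Bool := onCell 536870912 536870912 1073741824 536870912 697932185 42949674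
    (rowB 3 eng mog cd1q1 cd7q2 pd3 0 true false false .npn 1 2 3 (qsf 536870912 536870912 1073741824 536870912 3) ndB1q1 ndB7q2 pcB3 Cut.none Ext.none)

def k0_mm_123 : ∃ t, chk3 f_mm_123 t 1 1 1 = true :=
  ⟨(l 4), by decide +kernel⟩

theorem c_mm_123 : CertB 536870912 536870912 1073741824 536870912 697932185 42949674 3 eng mog cd1q1 cd7q2 pd3 true false false .npn 1 2 3
    ndB1q1 ndB7q2 pcB3 Cut.none Ext.none :=
  certB0 (fam := true) (s1 := false) (s2 := false) (a := 1) (b := 2) (c := 3) (cn := .npn) (n1 := ndB1q1) (n2 := ndB7q2) (pc := pcB3) (cut := Cut.none) (xt := Ext.none) (P1 := 536870912) (W1 := 536870912) (P2 := 1073741824) (W2 := 536870912) (P3 := 697932185) (W3 := 42949674) (N0 := 3) (En := eng) (mo := mog) (C1 := cd1q1) (C2 := cd7q2) (C3 := pd3)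
    rfl k0_mm_123

noncomputable def f_mm_133 : ℕ → ℕ → ℕ → ℕ → Bool := onCell 536870912 536870912 0 1230186008 697932185 42949674
    (rowB 3 eng mog cd1q1 cd7q3 pd3 0 true false false .dn 1 3 3 (qsf 536870912 536870912 0 1230186008 3) ndB1q1 ndB7q3 pcB3 Cut.none Ext.none)

def k0_mm_133 : ∃ t, chk3 f_mm_133 t 1 1 1 = true :=
  ⟨(l 4), by decide +kernel⟩

theorem c_mm_133 : CertB 536870912 536870912 0 1230186008 697932185 42949674 3 eng mog cd1q1 cd7q3 pd3 true false false .dn 1 3 3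
    ndB1q1 ndB7q3 pcB3 Cut.none Ext.none :=
  certB0 (fam := true) (s1 := false) (s2 := false) (a := 1) (b := 3) (c := 3) (cn := .dn) (n1 := ndB1q1) (n2 := ndB7q3) (pc := pcB3) (cut := Cut.none) (xt := Ext.none) (P1 := 536870912) (W1 := 536870912) (P2 := 0) (W2 := 1230186008) (P3 := 697932185) (W3 := 42949674) (N0 := 3) (En := eng) (mo := mog) (C1 := cd1q1) (C2 := cd7q3) (C3 := pd3)
    rfl k0_mm_133

noncomputable def f_mm_202_a : ℕ → ℕ → ℕ → ℕ → Bool := onCell 0 536870912 0 536870912 697932185 42949674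
    (rowB 3 eng mog cd1q2a cd7q0 pd2 0 true false false .pp 2 0 2 (qsf 0 536870912 0 536870912 2) ndB1q2a ndB7q0 pcB2 Cut.none Ext.none)

def k0_mm_202_a : ∃ t, chk3 f_mm_202_a t 1 1 1 = true :=
  ⟨(l 4), by decide +kernel⟩

theorem c_mm_202_a : CertB 0 536870912 0 536870912 697932185 42949674 3 eng mog cd1q2a cd7q0 pd2 true false false .pp 2 0 2
    ndB1q2a ndB7q0 pcB2 Cut.none Ext.none :=
  certB0 (fam := true) (s1 := false) (s2 := false) (a := 2) (b := 0) (c := 2) (cn := .pp) (n1 := ndB1q2a) (n2 := ndB7q0) (pc := pcB2) (cut := Cut.none) (xt := Ext.none) (P1 := 0) (W1 := 536870912) (P2 := 0) (W2 := 536870912) (P3 := 697932185) (W3 := 42949674) (N0 := 3) (En := eng) (mo := mog) (C1 := cd1q2a) (C2 := cd7q0) (C3 := pd2)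
    rfl k0_mm_202_a

noncomputable def f_mm_202_b : ℕ → ℕ → ℕ → ℕ → Bool := onCell 1239849684 370763052 0 536870912 697932185 42949674
    (rowB 3 eng mog cd1q2b cd7q0 pd2 0 true false false .pp 2 0 2 (qsf 1239849684 370763052 0 536870912 2) ndB1q2b ndB7q0 pcB2 Cut.none Ext.none)

def k0_mm_202_b : ∃ t, chk3 f_mm_202_b t 1 1 1 = true :=
  ⟨(l 4), by decide +kernel⟩

theorem c_mm_202_b : CertB 1239849684 370763052 0 536870912 697932185 42949674 3 eng mog cd1q2b cd7q0 pd2 true false false .pp 2 0 2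
    ndB1q2b ndB7q0 pcB2 Cut.none Ext.none :=
  certB0 (fam := true) (s1 := false) (s2 := false) (a := 2) (b := 0) (c := 2) (cn := .pp) (n1 := ndB1q2b) (n2 := ndB7q0) (pc := pcB2) (cut := Cut.none) (xt := Ext.none) (P1 := 1239849684) (W1 := 370763052) (P2 := 0) (W2 := 536870912) (P3 := 697932185) (W3 := 42949674) (N0 := 3) (En := eng) (mo := mog) (C1 := cd1q2b) (C2 := cd7q0) (C3 := pd2)
    rfl k0_mm_202_b

noncomputable def f_mm_203_a : ℕ → ℕ → ℕ → ℕ → Bool := onCell 0 536870912 0 536870912 697932185 42949674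
    (rowB 3 eng mog cd1q2a cd7q0 pd3 0 true false false .up 2 0 3 (qsf 0 536870912 0 536870912 3) ndB1q2a ndB7q0 pcB3 Cut.none Ext.none)

def k0_mm_203_a : ∃ t, chk3 f_mm_203_a t 1 1 1 = true :=
  ⟨(l 4), by decide +kernel⟩

theorem c_mm_203_a : CertB 0 536870912 0 536870912 697932185 42949674 3 eng mog cd1q2a cd7q0 pd3 true false false .up 2 0 3
    ndB1q2a ndB7q0 pcB3 Cut.none Ext.none :=
  certB0 (fam := true) (s1 := false) (s2 := false) (a := 2) (b := 0) (c := 3) (cn := .up) (n1 := ndB1q2a) (n2 := ndB7q0) (pc := pcB3) (cut := Cut.none) (xt := Ext.none) (P1 := 0) (W1 := 536870912) (P2 := 0) (W2 := 536870912) (P3 := 697932185) (W3 := 42949674) (N0 := 3) (En := eng) (mo := mog) (C1 := cd1q2a) (C2 := cd7q0) (C3 := pd3)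
    rfl k0_mm_203_a

noncomputable def f_mm_203_b : ℕ → ℕ → ℕ → ℕ → Bool := onCell 1239849684 370763052 0 536870912 697932185 42949674
    (rowB 3 eng mog cd1q2b cd7q0 pd3 0 true false false .up 2 0 3 (qsf 1239849684 370763052 0 536870912 3) ndB1q2b ndB7q0 pcB3 Cut.none Ext.none)

def k0_mm_203_b : ∃ t, chk3 f_mm_203_b t 1 1 1 = true :=
  ⟨(l 4), by decide +kernel⟩

theorem c_mm_203_b : CertB 1239849684 370763052 0 536870912 697932185 42949674 3 eng mog cd1q2b cd7q0 pd3 true false false .up 2 0 3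
    ndB1q2b ndB7q0 pcB3 Cut.none Ext.none :=
  certB0 (fam := true) (s1 := false) (s2 := false) (a := 2) (b := 0) (c := 3) (cn := .up) (n1 := ndB1q2b) (n2 := ndB7q0) (pc := pcB3) (cut := Cut.none) (xt := Ext.none) (P1 := 1239849684) (W1 := 370763052) (P2 := 0) (W2 := 536870912) (P3 := 697932185) (W3 := 42949674) (N0 := 3) (En := eng) (mo := mog) (C1 := cd1q2b) (C2 := cd7q0) (C3 := pd3)
    rfl k0_mm_203_b

noncomputable def f_mm_213_a : ℕ → ℕ → ℕ → ℕ → Bool := onCell 0 536870912 536870912 536870912 697932185 42949674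
    (rowB 3 eng mog cd1q2a cd7q1 pd3 0 true false false .pnn 2 1 3 (qsf 0 536870912 536870912 536870912 3) ndB1q2a ndB7q1 pcB3 Cut.none Ext.none)

def k0_mm_213_a : ∃ t, chk3 f_mm_213_a t 1 1 1 = true :=
  ⟨(l 4), by decide +kernel⟩

theorem c_mm_213_a : CertB 0 536870912 536870912 536870912 697932185 42949674 3 eng mog cd1q2a cd7q1 pd3 true false false .pnn 2 1 3
    ndB1q2a ndB7q1 pcB3 Cut.none Ext.none :=
  certB0 (fam := true) (s1 := false) (s2 := false) (a := 2) (b := 1) (c := 3) (cn := .pnn) (n1 := ndB1q2a) (n2 := ndB7q1) (pc := pcB3) (cut := Cut.none) (xt := Ext.none) (P1 := 0) (W1 := 536870912) (P2 := 536870912) (W2 := 536870912) (P3 := 697932185) (W3 := 42949674) (N0 := 3) (En := eng) (mo := mog) (C1 := cd1q2a) (C2 := cd7q1) (C3 := pd3)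
    rfl k0_mm_213_a

noncomputable def f_mm_213_b : ℕ → ℕ → ℕ → ℕ → Bool := onCell 1239849684 370763052 536870912 536870912 697932185 42949674
    (rowB 3 eng mog cd1q2b cd7q1 pd3 0 true false false .pnn 2 1 3 (qsf 1239849684 370763052 536870912 536870912 3) ndB1q2b ndB7q1 pcB3 Cut.none Ext.none)

def k0_mm_213_b : ∃ t, chk3 f_mm_213_b t 1 1 1 = true :=
  ⟨(l 4), by decide +kernel⟩

theorem c_mm_213_b : CertB 1239849684 370763052 536870912 536870912 697932185 42949674 3 eng mog cd1q2b cd7q1 pd3 true false false .pnn 2 1 3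
    ndB1q2b ndB7q1 pcB3 Cut.none Ext.none :=
  certB0 (fam := true) (s1 := false) (s2 := false) (a := 2) (b := 1) (c := 3) (cn := .pnn) (n1 := ndB1q2b) (n2 := ndB7q1) (pc := pcB3) (cut := Cut.none) (xt := Ext.none) (P1 := 1239849684) (W1 := 370763052) (P2 := 536870912) (W2 := 536870912) (P3 := 697932185) (W3 := 42949674) (N0 := 3) (En := eng) (mo := mog) (C1 := cd1q2b) (C2 := cd7q1) (C3 := pd3)
    rfl k0_mm_213_b

noncomputable def f_mm_303 : ℕ → ℕ → ℕ → ℕ → Bool := onCell 1610612736 536870912 0 536870912 697932185 42949674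
    (rowB 3 eng mog cd1q3 cd7q0 pd3 0 true false false .npn 3 0 3 (qsf 1610612736 536870912 0 536870912 3) ndB1q3 ndB7q0 pcB3 Cut.none Ext.none)

def k0_mm_303 : ∃ t, chk3 f_mm_303 t 1 1 1 = true :=
  ⟨(l 4), by decide +kernel⟩

theorem c_mm_303 : CertB 1610612736 536870912 0 536870912 697932185 42949674 3 eng mog cd1q3 cd7q0 pd3 true false false .npn 3 0 3
    ndB1q3 ndB7q0 pcB3 Cut.none Ext.none :=
  certB0 (fam := true) (s1 := false) (s2 := false) (a := 3) (b := 0) (c := 3) (cn := .npn) (n1 := ndB1q3) (n2 := ndB7q0) (pc := pcB3) (cut := Cut.none) (xt := Ext.none) (P1 := 1610612736) (W1 := 536870912) (P2 := 0) (W2 := 536870912) (P3 := 697932185) (W3 := 42949674) (N0 := 3) (En := eng) (mo := mog) (C1 := cd1q3) (C2 := cd7q0) (C3 := pd3)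
    rfl k0_mm_303

noncomputable def f_mm_313 : ℕ → ℕ → ℕ → ℕ → Bool := onCell 1610612736 536870912 536870912 536870912 697932185 42949674
    (rowB 3 eng mog cd1q3 cd7q1 pd3 0 true false false .dn 3 1 3 (qsf 1610612736 536870912 536870912 536870912 3) ndB1q3 ndB7q1 pcB3 Cut.none Ext.none)

def k0_mm_313 : ∃ t, chk3 f_mm_313 t 1 1 1 = true :=
  ⟨(l 4), by decide +kernel⟩

theorem c_mm_313 : CertB 1610612736 536870912 536870912 536870912 697932185 42949674 3 eng mog cd1q3 cd7q1 pd3 true false false .dn 3 1 3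
    ndB1q3 ndB7q1 pcB3 Cut.none Ext.none :=
  certB0 (fam := true) (s1 := false) (s2 := false) (a := 3) (b := 1) (c := 3) (cn := .dn) (n1 := ndB1q3) (n2 := ndB7q1) (pc := pcB3) (cut := Cut.none) (xt := Ext.none) (P1 := 1610612736) (W1 := 536870912) (P2 := 536870912) (W2 := 536870912) (P3 := 697932185) (W3 := 42949674) (N0 := 3) (En := eng) (mo := mog) (C1 := cd1q3) (C2 := cd7q1) (C3 := pd3)
    rfl k0_mm_313

end Pool.Agent.Strip051.G.I6500_6900.Tab.C.BA17

namespace Pool.Agent.Strip051.G.I6500_6900.Tab.C.BA22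

open Pool.Agent.Strip051.PB Pool.Agent.Strip051.PB.T
open Pool.Agent.Strip051.G.I6500_6900.Tab

noncomputable def f_pp_001 : ℕ → ℕ → ℕ → ℕ → Bool := onCell 0 536870912 0 536870912 697932185 42949674
    (rowB 3 eng mog cd2q0 cd2q0 pd1 0 true true true .up 0 0 1 (qsf 0 536870912 0 536870912 1) ndB2q0 ndB2q0 pcB1 Cut.none Ext.none)

def k0_pp_001 : ∃ t, chk3 f_pp_001 t 1 1 1 = true :=
  ⟨(l 4), by decide +kernel⟩

theorem c_pp_001 : CertB 0 536870912 0 536870912 697932185 42949674 3 eng mog cd2q0 cd2q0 pd1 true true true .up 0 0 1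
    ndB2q0 ndB2q0 pcB1 Cut.none Ext.none :=
  certB0 (fam := true) (s1 := true) (s2 := true) (a := 0) (b := 0) (c := 1) (cn := .up) (n1 := ndB2q0) (n2 := ndB2q0) (pc := pcB1) (cut := Cut.none) (xt := Ext.none) (P1 := 0) (W1 := 536870912) (P2 := 0) (W2 := 536870912) (P3 := 697932185) (W3 := 42949674) (N0 := 3) (En := eng) (mo := mog) (C1 := cd2q0) (C2 := cd2q0) (C3 := pd1)
    rfl k0_pp_001

noncomputable def f_pp_011 : ℕ → ℕ → ℕ → ℕ → Bool := onCell 0 536870912 536870912 536870912 697932185 42949674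
    (rowB 3 eng mog cd2q0 cd2q1 pd1 0 true true true .pnn 0 1 1 (qsf 0 536870912 536870912 536870912 1) ndB2q0 ndB2q1 pcB1 Cut.none Ext.none)

def k0_pp_011 : ∃ t, chk3 f_pp_011 t 1 1 1 = true :=
  ⟨(l 4), by decide +kernel⟩

theorem c_pp_011 : CertB 0 536870912 536870912 536870912 697932185 42949674 3 eng mog cd2q0 cd2q1 pd1 true true true .pnn 0 1 1
    ndB2q0 ndB2q1 pcB1 Cut.none Ext.none :=
  certB0 (fam := true) (s1 := true) (s2 := true) (a := 0) (b := 1) (c := 1) (cn := .pnn) (n1 := ndB2q0) (n2 := ndB2q1) (pc := pcB1) (cut := Cut.none) (xt := Ext.none) (P1 := 0) (W1 := 536870912) (P2 := 536870912) (W2 := 536870912) (P3 := 697932185) (W3 := 42949674) (N0 := 3) (En := eng) (mo := mog) (C1 := cd2q0) (C2 := cd2q1) (C3 := pd1)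
    rfl k0_pp_011

noncomputable def f_pp_012 : ℕ → ℕ → ℕ → ℕ → Bool := onCell 0 536870912 536870912 536870912 697932185 42949674
    (rowB 3 eng mog cd2q0 cd2q1 pd2 0 true true true .pnp 0 1 2 (qsf 0 536870912 536870912 536870912 2) ndB2q0 ndB2q1 pcB2 Cut.none Ext.none)

def k0_pp_012 : ∃ t, chk3 f_pp_012 t 1 1 1 = true :=
  ⟨(l 4), by decide +kernel⟩

theorem c_pp_012 : CertB 0 536870912 536870912 536870912 697932185 42949674 3 eng mog cd2q0 cd2q1 pd2 true true true .pnp 0 1 2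
    ndB2q0 ndB2q1 pcB2 Cut.none Ext.none :=
  certB0 (fam := true) (s1 := true) (s2 := true) (a := 0) (b := 1) (c := 2) (cn := .pnp) (n1 := ndB2q0) (n2 := ndB2q1) (pc := pcB2) (cut := Cut.none) (xt := Ext.none) (P1 := 0) (W1 := 536870912) (P2 := 536870912) (W2 := 536870912) (P3 := 697932185) (W3 := 42949674) (N0 := 3) (En := eng) (mo := mog) (C1 := cd2q0) (C2 := cd2q1) (C3 := pd2)
    rfl k0_pp_012

noncomputable def cut_pp_022_a : Cut := Cut.of [[⟨0, 0, 0, 67108864⟩, ⟨1, 1, 0, 67108864⟩, ⟨2, 1, 0, 67108864⟩]]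

noncomputable def f_pp_022_a : ℕ → ℕ → ℕ → ℕ → Bool := onCell 0 536870912 0 536870912 697932185 42949674
    (rowB 3 eng mog cd2q0 cd2q2a pd2 0 true true true .pp 0 2 2 (qsf 0 536870912 0 536870912 2) ndB2q0 ndB2q2a pcB2 cut_pp_022_a Ext.none)

def k0_pp_022_a : ∃ t, chk3 f_pp_022_a t 2 2 1 = true :=
  ⟨(a (a (b (a (b (a (l 16443032) (l 16407600)) (a (l 16453288) (b (l 16455312) (a (l 16460416) (l 16465264))))) (b (l 16467144) (a (l 16471080) (l 16483336)))) (a (a (b (b (l 16426528) (l 16482592)) (b (l 16499464) (l 16519112))) (b (a (l 16563312) (b (l 16475864) (l 16490056))) (b (l 16463768) (l 16525848)))) (a (b (b (l 16485056) (a (l 16495008) (l 16501416))) (b (a (l 16448944) (l 16517456)) (l 16534688))) (b (l 16441688) (b (l 16527464) (a (l 16480288) (l 16549976))))))) (b (a (b (l 16489688) (l 16501504)) (l 16603056)) (b (a (l 16524016) (l 16550216)) (a (b (l 16484816) (l 16483408)) (l 16606504))))) (a (b (a (l 16539864) (b (l 16553584) (l 16572192)))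 (b (a (l 16576248) (l 16664496)) (a (l 16657200) (l 4)))) (b (a (b (l 16584416) (l 16604048)) (b (l 16615064) (l 16635720))) (b (a (l 31910205335) (l 4)) (l 4))))), by decide +kernel⟩

def k1_pp_022_a : ∃ t, chk3 f_pp_022_a t 2 3 1 = true :=
  ⟨(a (b (a (a (b (a (b (a (l 16540032) (l 16543056)) (a (l 16565024) (l 16568192))) (b (l 16548600) (l 16573968))) (a (b (a (l 16587888) (l 16596000)) (a (b (l 16606360) (l 16619760)) (l 16623824))) (b (l 16601944) (a (l 16630336) (l 16634752))))) (b (a (b (l 16515832) (l 16583488)) (b (c (l 16569680) (l 16568728)) (b (l 16588032) (l 16601672)))) (a (b (l 16611712) (l 16642384)) (b (l 16581416) (l 16675720))))) (a (a (b (b (l 16582632) (l 16639568)) (b (b (l 16629224) (l 16644744)) (l 16670672))) (b (l 16630808) (b (l 16718600) (l 4)))) (b (a (l 16625408) (l 16641864)) (l 4)))) (a (b (a (a (b (a (b (l 16602448) (b (l 16644952) (l 16652824))) (b (l 16645200) (l 16660616))) (a (b (b (l 16661384) (l 6)) (l 6))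 (b (l 16677872) (a (l 6) (l 16699360))))) (b (b (l 16656912) (l 16674016)) (b (a (l 16688728) (l 16692968)) (a (l 16705808) (l 16710704))))) (a (a (b (l 16672680) (b (l 16698688) (l 16718360))) (b (l 16678808) (l 4))) (b (b (l 16681040) (l 4)) (l 4)))) (a (b (a (l 6) (b (a (l 6) (l 16741480)) (l 6))) (l 6)) (l 4))) (l 4))) (b (l 4) (l 4))), by decide +kernel⟩

def k2_pp_022_a : ∃ t, chk3 f_pp_022_a t 3 1 1 = true :=
  ⟨(b (a (a (b (a (b (l 16646728) (l 4)) (l 4)) (l 4)) (l 4)) (l 4)) (l 4)), by decide +kernel⟩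

theorem s3_pp_022_a : ∃ t, chk3 f_pp_022_a t 2 1 1 = true := ex3_b k0_pp_022_a k1_pp_022_a

theorem s4_pp_022_a : ∃ t, chk3 f_pp_022_a t 1 1 1 = true := ex3_a s3_pp_022_a k2_pp_022_a

theorem c_pp_022_a : CertB 0 536870912 0 536870912 697932185 42949674 3 eng mog cd2q0 cd2q2a pd2 true true true .pp 0 2 2
    ndB2q0 ndB2q2a pcB2 cut_pp_022_a Ext.none :=
  certB0 (fam := true) (s1 := true) (s2 := true) (a := 0) (b := 2) (c := 2) (cn := .pp) (n1 := ndB2q0) (n2 := ndB2q2a) (pc := pcB2) (cut := cut_pp_022_a) (xt := Ext.none) (P1 := 0) (W1 := 536870912) (P2 := 0) (W2 := 536870912) (P3 := 697932185) (W3 := 42949674) (N0 := 3) (En := eng) (mo := mog) (C1 := cd2q0) (C2 := cd2q2a) (C3 := pd2)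
    rfl s4_pp_022_a

noncomputable def cut_pp_022_b : Cut := Cut.of [[⟨0, 0, 0, 67108864⟩, ⟨1, 1, 0, 67108864⟩, ⟨2, 1, 0, 67108864⟩]]

noncomputable def f_pp_022_b : ℕ → ℕ → ℕ → ℕ → Bool := onCell 0 536870912 1073741824 536870912 697932185 42949674
    (rowB 3 eng mog cd2q0 cd2q2b pd2 1 true true true .pp 0 2 2 (qsf 0 536870912 1239849684 370763052 2) ndB2q0 ndB2q2b pcB2 cut_pp_022_b Ext.none)

def k0_pp_022_b : ∃ t, chk3 f_pp_022_b t 1 1 1 = true :=
  ⟨(b (a (b (l 1) (a (b (a (b (a (b (l 1) (l 16491088)) (l 1)) (b (a (l 208338648007) (l 1)) (a (l 16427648) (l 16497952)))) (l 1)) (a (a (b (l 16389912) (l 16319104)) (b (l 16462520) (l 16406664))) (b (l 320008122007) (a (l 16484128) (l 16555024))))) (l 1))) (l 1)) (b (a (a (b (a (b (l 16292904) (a (l 16184696) (l 16270752))) (b (l 16464504) (l 16398288))) (a (b (a (l 16126664) (l 16211504)) (l 16117848)) (b (l 16337576) (l 16303808)))) (b (a (b (l 170221286615) (l 16604808)) (l 1)) (a (b (l 16607920)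 (l 16446592)) (b (l 200286149367) (l 16615544))))) (l 1)) (a (b (a (a (b (l 16074416) (l 16038968)) (b (l 16235184) (l 16194712))) (a (b (l 16479616) (l 16350960)) (b (l 16566448) (l 16521400)))) (a (b (a (l 16010496) (l 16160664)) (a (l 15984248) (l 16130912))) (b (a (l 16312600) (l 16480832)) (l 4)))) (a (b (a (b (l 281890251607) (l 126198045095)) (l 1)) (l 4)) (l 1))))), by decide +kernel⟩

theorem c_pp_022_b : CertB 0 536870912 1239849684 370763052 697932185 42949674 3 eng mog cd2q0 cd2q2b pd2 true true true .pp 0 2 2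
    ndB2q0 ndB2q2b pcB2 cut_pp_022_b Ext.none :=
  certB1 (fam := true) (s1 := true) (s2 := true) (a := 0) (b := 2) (c := 2) (cn := .pp) (n1 := ndB2q0) (n2 := ndB2q2b) (pc := pcB2) (cut := cut_pp_022_b) (xt := Ext.none) (P1 := 0) (W1 := 536870912) (P2 := 1239849684) (W2 := 370763052) (P3 := 697932185) (W3 := 42949674) (N0 := 3) (En := eng) (mo := mog) (C1 := cd2q0) (C2 := cd2q2b) (C3 := pd2)
    rfl (fun _ => rfl) k0_pp_022_b

noncomputable def f_pp_023_a : ℕ → ℕ → ℕ → ℕ → Bool := onCell 1610612736 536870912 0 536870912 697932185 42949674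
    (rowB 3 eng mog cd2q0 cd2q2a pd3 2 true true true .up 0 2 3 (qsf 0 536870912 0 536870912 3) ndB2q0 ndB2q2a pcB3 Cut.none Ext.none)

def k0_pp_023_a : ∃ t, chk3 f_pp_023_a t 1 1 1 = true :=
  ⟨(a (l 4) (l 2)), by decide +kernel⟩

theorem c_pp_023_a : CertB 0 536870912 0 536870912 697932185 42949674 3 eng mog cd2q0 cd2q2a pd3 true true true .up 0 2 3
    ndB2q0 ndB2q2a pcB3 Cut.none Ext.none :=
  certB2 (fam := true) (s1 := true) (s2 := true) (a := 0) (b := 2) (c := 3) (cn := .up) (n1 := ndB2q0) (n2 := ndB2q2a) (pc := pcB3) (cut := Cut.none) (xt := Ext.none) (P1 := 0) (W1 := 536870912) (P2 := 0) (W2 := 536870912) (P3 := 697932185) (W3 := 42949674) (N0 := 3) (En := eng) (mo := mog) (C1 := cd2q0) (C2 := cd2q2a) (C3 := pd3)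
    rfl (fun _ => rfl) k0_pp_023_a

noncomputable def f_pp_023_b : ℕ → ℕ → ℕ → ℕ → Bool := onCell 1610612736 536870912 1239849684 370763052 697932185 42949674
    (rowB 3 eng mog cd2q0 cd2q2b pd3 2 true true true .up 0 2 3 (qsf 0 536870912 1239849684 370763052 3) ndB2q0 ndB2q2b pcB3 Cut.none Ext.none)

def k0_pp_023_b : ∃ t, chk3 f_pp_023_b t 1 1 1 = true :=
  ⟨(a (a (b (l 4) (a (b (l 4) (a (l 16025264) (l 4))) (l 4))) (l 4)) (l 4)), by decide +kernel⟩

theorem c_pp_023_b : CertB 0 536870912 1239849684 370763052 697932185 42949674 3 eng mog cd2q0 cd2q2b pd3 true true true .up 0 2 3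
    ndB2q0 ndB2q2b pcB3 Cut.none Ext.none :=
  certB2 (fam := true) (s1 := true) (s2 := true) (a := 0) (b := 2) (c := 3) (cn := .up) (n1 := ndB2q0) (n2 := ndB2q2b) (pc := pcB3) (cut := Cut.none) (xt := Ext.none) (P1 := 0) (W1 := 536870912) (P2 := 1239849684) (W2 := 370763052) (P3 := 697932185) (W3 := 42949674) (N0 := 3) (En := eng) (mo := mog) (C1 := cd2q0) (C2 := cd2q2b) (C3 := pd3)
    rfl (fun _ => rfl) k0_pp_023_b

noncomputable def f_pp_033 : ℕ → ℕ → ℕ → ℕ → Bool := onCell 0 536870912 1610612736 536870912 697932185 42949674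
    (rowB 3 eng mog cd2q0 cd2q3 pd3 1 true true true .pnn 0 3 3 (qsf 0 536870912 1610612736 536870912 3) ndB2q0 ndB2q3 pcB3 Cut.none Ext.none)

def k0_pp_033 : ∃ t, chk3 f_pp_033 t 1 1 1 = true :=
  ⟨(b (b (a (b (a (a (b (l 15952024) (l 4)) (l 4)) (l 1)) (l 4)) (l 1)) (l 4)) (l 4)), by decide +kernel⟩

theorem c_pp_033 : CertB 0 536870912 1610612736 536870912 697932185 42949674 3 eng mog cd2q0 cd2q3 pd3 true true true .pnn 0 3 3
    ndB2q0 ndB2q3 pcB3 Cut.none Ext.none :=
  certB1 (fam := true) (s1 := true) (s2 := true) (a := 0) (b := 3) (c := 3) (cn := .pnn) (n1 := ndB2q0) (n2 := ndB2q3) (pc := pcB3) (cut := Cut.none) (xt := Ext.none) (P1 := 0) (W1 := 536870912) (P2 := 1610612736) (W2 := 536870912) (P3 := 697932185) (W3 := 42949674) (N0 := 3) (En := eng) (mo := mog) (C1 := cd2q0) (C2 := cd2q3) (C3 := pd3)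
    rfl (fun _ => rfl) k0_pp_033

noncomputable def f_pp_101 : ℕ → ℕ → ℕ → ℕ → Bool := onCell 536870912 536870912 0 536870912 697932185 42949674
    (rowB 3 eng mog cd2q1 cd2q0 pd1 0 true true true .npn 1 0 1 (qsf 536870912 536870912 0 536870912 1) ndB2q1 ndB2q0 pcB1 Cut.none Ext.none)

def k0_pp_101 : ∃ t, chk3 f_pp_101 t 1 1 1 = true :=
  ⟨(l 4), by decide +kernel⟩

theorem c_pp_101 : CertB 536870912 536870912 0 536870912 697932185 42949674 3 eng mog cd2q1 cd2q0 pd1 true true true .npn 1 0 1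
    ndB2q1 ndB2q0 pcB1 Cut.none Ext.none :=
  certB0 (fam := true) (s1 := true) (s2 := true) (a := 1) (b := 0) (c := 1) (cn := .npn) (n1 := ndB2q1) (n2 := ndB2q0) (pc := pcB1) (cut := Cut.none) (xt := Ext.none) (P1 := 536870912) (W1 := 536870912) (P2 := 0) (W2 := 536870912) (P3 := 697932185) (W3 := 42949674) (N0 := 3) (En := eng) (mo := mog) (C1 := cd2q1) (C2 := cd2q0) (C3 := pd1)
    rfl k0_pp_101

noncomputable def f_pp_102 : ℕ → ℕ → ℕ → ℕ → Bool := onCell 536870912 536870912 0 536870912 697932185 42949674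
    (rowB 3 eng mog cd2q1 cd2q0 pd2 0 true true true .npp 1 0 2 (qsf 536870912 536870912 0 536870912 2) ndB2q1 ndB2q0 pcB2 Cut.none Ext.none)

def k0_pp_102 : ∃ t, chk3 f_pp_102 t 1 1 1 = true :=
  ⟨(l 4), by decide +kernel⟩

theorem c_pp_102 : CertB 536870912 536870912 0 536870912 697932185 42949674 3 eng mog cd2q1 cd2q0 pd2 true true true .npp 1 0 2
    ndB2q1 ndB2q0 pcB2 Cut.none Ext.none :=
  certB0 (fam := true) (s1 := true) (s2 := true) (a := 1) (b := 0) (c := 2) (cn := .npp) (n1 := ndB2q1) (n2 := ndB2q0) (pc := pcB2) (cut := Cut.none) (xt := Ext.none) (P1 := 536870912) (W1 := 536870912) (P2 := 0) (W2 := 536870912) (P3 := 697932185) (W3 := 42949674) (N0 := 3) (En := eng) (mo := mog) (C1 := cd2q1) (C2 := cd2q0) (C3 := pd2)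
    rfl k0_pp_102

noncomputable def f_pp_112 : ℕ → ℕ → ℕ → ℕ → Bool := onCell 536870912 536870912 536870912 536870912 697932185 42949674
    (rowB 3 eng mog cd2q1 cd2q1 pd2 0 true true true .dn 1 1 2 (qsf 536870912 536870912 536870912 536870912 2) ndB2q1 ndB2q1 pcB2 Cut.none Ext.none)

def k0_pp_112 : ∃ t, chk3 f_pp_112 t 1 1 1 = true :=
  ⟨(l 4), by decide +kernel⟩

theorem c_pp_112 : CertB 536870912 536870912 536870912 536870912 697932185 42949674 3 eng mog cd2q1 cd2q1 pd2 true true true .dn 1 1 2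
    ndB2q1 ndB2q1 pcB2 Cut.none Ext.none :=
  certB0 (fam := true) (s1 := true) (s2 := true) (a := 1) (b := 1) (c := 2) (cn := .dn) (n1 := ndB2q1) (n2 := ndB2q1) (pc := pcB2) (cut := Cut.none) (xt := Ext.none) (P1 := 536870912) (W1 := 536870912) (P2 := 536870912) (W2 := 536870912) (P3 := 697932185) (W3 := 42949674) (N0 := 3) (En := eng) (mo := mog) (C1 := cd2q1) (C2 := cd2q1) (C3 := pd2)
    rfl k0_pp_112

noncomputable def f_pp_113 : ℕ → ℕ → ℕ → ℕ → Bool := onCell 536870912 536870912 536870912 536870912 697932185 42949674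
    (rowB 3 eng mog cd2q1 cd2q1 pd3 0 true true true .nn 1 1 3 (qsf 536870912 536870912 536870912 536870912 3) ndB2q1 ndB2q1 pcB3 Cut.none Ext.none)

def k0_pp_113 : ∃ t, chk3 f_pp_113 t 1 1 1 = true :=
  ⟨(l 4), by decide +kernel⟩

theorem c_pp_113 : CertB 536870912 536870912 536870912 536870912 697932185 42949674 3 eng mog cd2q1 cd2q1 pd3 true true true .nn 1 1 3
    ndB2q1 ndB2q1 pcB3 Cut.none Ext.none :=
  certB0 (fam := true) (s1 := true) (s2 := true) (a := 1) (b := 1) (c := 3) (cn := .nn) (n1 := ndB2q1) (n2 := ndB2q1) (pc := pcB3) (cut := Cut.none) (xt := Ext.none) (P1 := 536870912) (W1 := 536870912) (P2 := 536870912) (W2 := 536870912) (P3 := 697932185) (W3 := 42949674) (N0 := 3) (En := eng) (mo := mog) (C1 := cd2q1) (C2 := cd2q1) (C3 := pd3)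
    rfl k0_pp_113

noncomputable def f_pp_123_a : ℕ → ℕ → ℕ → ℕ → Bool := onCell 536870912 536870912 0 536870912 697932185 42949674
    (rowB 3 eng mog cd2q1 cd2q2a pd3 0 true true true .npn 1 2 3 (qsf 536870912 536870912 0 536870912 3) ndB2q1 ndB2q2a pcB3 Cut.none Ext.none)

def k0_pp_123_a : ∃ t, chk3 f_pp_123_a t 1 1 1 = true :=
  ⟨(l 4), by decide +kernel⟩

theorem c_pp_123_a : CertB 536870912 536870912 0 536870912 697932185 42949674 3 eng mog cd2q1 cd2q2a pd3 true true true .npn 1 2 3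
    ndB2q1 ndB2q2a pcB3 Cut.none Ext.none :=
  certB0 (fam := true) (s1 := true) (s2 := true) (a := 1) (b := 2) (c := 3) (cn := .npn) (n1 := ndB2q1) (n2 := ndB2q2a) (pc := pcB3) (cut := Cut.none) (xt := Ext.none) (P1 := 536870912) (W1 := 536870912) (P2 := 0) (W2 := 536870912) (P3 := 697932185) (W3 := 42949674) (N0 := 3) (En := eng) (mo := mog) (C1 := cd2q1) (C2 := cd2q2a) (C3 := pd3)
    rfl k0_pp_123_a

noncomputable def f_pp_123_b : ℕ → ℕ → ℕ → ℕ → Bool := onCell 536870912 536870912 1239849684 370763052 697932185 42949674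
    (rowB 3 eng mog cd2q1 cd2q2b pd3 0 true true true .npn 1 2 3 (qsf 536870912 536870912 1239849684 370763052 3) ndB2q1 ndB2q2b pcB3 Cut.none Ext.none)

def k0_pp_123_b : ∃ t, chk3 f_pp_123_b t 1 1 1 = true :=
  ⟨(l 4), by decide +kernel⟩

theorem c_pp_123_b : CertB 536870912 536870912 1239849684 370763052 697932185 42949674 3 eng mog cd2q1 cd2q2b pd3 true true true .npn 1 2 3
    ndB2q1 ndB2q2b pcB3 Cut.none Ext.none :=
  certB0 (fam := true) (s1 := true) (s2 := true) (a := 1) (b := 2) (c := 3) (cn := .npn) (n1 := ndB2q1) (n2 := ndB2q2b) (pc := pcB3) (cut := Cut.none) (xt := Ext.none) (P1 := 536870912) (W1 := 536870912) (P2 := 1239849684) (W2 := 370763052) (P3 := 697932185) (W3 := 42949674) (N0 := 3) (En := eng) (mo := mog) (C1 := cd2q1) (C2 := cd2q2b) (C3 := pd3)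
    rfl k0_pp_123_b

noncomputable def f_pp_133 : ℕ → ℕ → ℕ → ℕ → Bool := onCell 536870912 536870912 1610612736 536870912 697932185 42949674
    (rowB 3 eng mog cd2q1 cd2q3 pd3 0 true true true .dn 1 3 3 (qsf 536870912 536870912 1610612736 536870912 3) ndB2q1 ndB2q3 pcB3 Cut.none Ext.none)

def k0_pp_133 : ∃ t, chk3 f_pp_133 t 1 1 1 = true :=
  ⟨(l 4), by decide +kernel⟩

theorem c_pp_133 : CertB 536870912 536870912 1610612736 536870912 697932185 42949674 3 eng mog cd2q1 cd2q3 pd3 true true true .dn 1 3 3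
    ndB2q1 ndB2q3 pcB3 Cut.none Ext.none :=
  certB0 (fam := true) (s1 := true) (s2 := true) (a := 1) (b := 3) (c := 3) (cn := .dn) (n1 := ndB2q1) (n2 := ndB2q3) (pc := pcB3) (cut := Cut.none) (xt := Ext.none) (P1 := 536870912) (W1 := 536870912) (P2 := 1610612736) (W2 := 536870912) (P3 := 697932185) (W3 := 42949674) (N0 := 3) (En := eng) (mo := mog) (C1 := cd2q1) (C2 := cd2q3) (C3 := pd3)
    rfl k0_pp_133

noncomputable def f_pp_202_a : ℕ → ℕ → ℕ → ℕ → Bool := onCell 0 536870912 0 536870912 697932185 42949674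
    (rowB 3 eng mog cd2q2a cd2q0 pd2 0 true true true .pp 2 0 2 (qsf 0 536870912 0 536870912 2) ndB2q2a ndB2q0 pcB2 Cut.none Ext.none)

def k0_pp_202_a : ∃ t, chk3 f_pp_202_a t 1 1 1 = true :=
  ⟨(l 5), by decide +kernel⟩

theorem c_pp_202_a : CertB 0 536870912 0 536870912 697932185 42949674 3 eng mog cd2q2a cd2q0 pd2 true true true .pp 2 0 2
    ndB2q2a ndB2q0 pcB2 Cut.none Ext.none :=
  certB0 (fam := true) (s1 := true) (s2 := true) (a := 2) (b := 0) (c := 2) (cn := .pp) (n1 := ndB2q2a) (n2 := ndB2q0) (pc := pcB2) (cut := Cut.none) (xt := Ext.none) (P1 := 0) (W1 := 536870912) (P2 := 0) (W2 := 536870912) (P3 := 697932185) (W3 := 42949674) (N0 := 3) (En := eng) (mo := mog) (C1 := cd2q2a) (C2 := cd2q0) (C3 := pd2)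
    rfl k0_pp_202_a

noncomputable def f_pp_202_b : ℕ → ℕ → ℕ → ℕ → Bool := onCell 1239849684 370763052 0 536870912 697932185 42949674
    (rowB 3 eng mog cd2q2b cd2q0 pd2 0 true true true .pp 2 0 2 (qsf 1239849684 370763052 0 536870912 2) ndB2q2b ndB2q0 pcB2 Cut.none Ext.none)

def k0_pp_202_b : ∃ t, chk3 f_pp_202_b t 1 1 1 = true :=
  ⟨(l 5), by decide +kernel⟩

theorem c_pp_202_b : CertB 1239849684 370763052 0 536870912 697932185 42949674 3 eng mog cd2q2b cd2q0 pd2 true true true .pp 2 0 2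
    ndB2q2b ndB2q0 pcB2 Cut.none Ext.none :=
  certB0 (fam := true) (s1 := true) (s2 := true) (a := 2) (b := 0) (c := 2) (cn := .pp) (n1 := ndB2q2b) (n2 := ndB2q0) (pc := pcB2) (cut := Cut.none) (xt := Ext.none) (P1 := 1239849684) (W1 := 370763052) (P2 := 0) (W2 := 536870912) (P3 := 697932185) (W3 := 42949674) (N0 := 3) (En := eng) (mo := mog) (C1 := cd2q2b) (C2 := cd2q0) (C3 := pd2)
    rfl k0_pp_202_b

noncomputable def f_pp_203_a : ℕ → ℕ → ℕ → ℕ → Bool := onCell 0 536870912 0 536870912 697932185 42949674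
    (rowB 3 eng mog cd2q2a cd2q0 pd3 0 true true true .up 2 0 3 (qsf 0 536870912 0 536870912 3) ndB2q2a ndB2q0 pcB3 Cut.none Ext.none)

def k0_pp_203_a : ∃ t, chk3 f_pp_203_a t 1 1 1 = true :=
  ⟨(l 5), by decide +kernel⟩

theorem c_pp_203_a : CertB 0 536870912 0 536870912 697932185 42949674 3 eng mog cd2q2a cd2q0 pd3 true true true .up 2 0 3
    ndB2q2a ndB2q0 pcB3 Cut.none Ext.none :=
  certB0 (fam := true) (s1 := true) (s2 := true) (a := 2) (b := 0) (c := 3) (cn := .up) (n1 := ndB2q2a) (n2 := ndB2q0) (pc := pcB3) (cut := Cut.none) (xt := Ext.none) (P1 := 0) (W1 := 536870912) (P2 := 0) (W2 := 536870912) (P3 := 697932185) (W3 := 42949674) (N0 := 3) (En := eng) (mo := mog) (C1 := cd2q2a) (C2 := cd2q0) (C3 := pd3)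
    rfl k0_pp_203_a

noncomputable def f_pp_203_b : ℕ → ℕ → ℕ → ℕ → Bool := onCell 1239849684 370763052 0 536870912 697932185 42949674
    (rowB 3 eng mog cd2q2b cd2q0 pd3 0 true true true .up 2 0 3 (qsf 1239849684 370763052 0 536870912 3) ndB2q2b ndB2q0 pcB3 Cut.none Ext.none)

def k0_pp_203_b : ∃ t, chk3 f_pp_203_b t 1 1 1 = true :=
  ⟨(l 5), by decide +kernel⟩

theorem c_pp_203_b : CertB 1239849684 370763052 0 536870912 697932185 42949674 3 eng mog cd2q2b cd2q0 pd3 true true true .up 2 0 3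
    ndB2q2b ndB2q0 pcB3 Cut.none Ext.none :=
  certB0 (fam := true) (s1 := true) (s2 := true) (a := 2) (b := 0) (c := 3) (cn := .up) (n1 := ndB2q2b) (n2 := ndB2q0) (pc := pcB3) (cut := Cut.none) (xt := Ext.none) (P1 := 1239849684) (W1 := 370763052) (P2 := 0) (W2 := 536870912) (P3 := 697932185) (W3 := 42949674) (N0 := 3) (En := eng) (mo := mog) (C1 := cd2q2b) (C2 := cd2q0) (C3 := pd3)
    rfl k0_pp_203_b

noncomputable def f_pp_213_a : ℕ → ℕ → ℕ → ℕ → Bool := onCell 0 536870912 536870912 536870912 697932185 42949674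
    (rowB 3 eng mog cd2q2a cd2q1 pd3 0 true true true .pnn 2 1 3 (qsf 0 536870912 536870912 536870912 3) ndB2q2a ndB2q1 pcB3 Cut.none Ext.none)

def k0_pp_213_a : ∃ t, chk3 f_pp_213_a t 1 1 1 = true :=
  ⟨(l 4), by decide +kernel⟩

theorem c_pp_213_a : CertB 0 536870912 536870912 536870912 697932185 42949674 3 eng mog cd2q2a cd2q1 pd3 true true true .pnn 2 1 3
    ndB2q2a ndB2q1 pcB3 Cut.none Ext.none :=
  certB0 (fam := true) (s1 := true) (s2 := true) (a := 2) (b := 1) (c := 3) (cn := .pnn) (n1 := ndB2q2a) (n2 := ndB2q1) (pc := pcB3) (cut := Cut.none) (xt := Ext.none) (P1 := 0) (W1 := 536870912) (P2 := 536870912) (W2 := 536870912) (P3 := 697932185) (W3 := 42949674) (N0 := 3) (En := eng) (mo := mog) (C1 := cd2q2a) (C2 := cd2q1) (C3 := pd3)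
    rfl k0_pp_213_a

noncomputable def f_pp_213_b : ℕ → ℕ → ℕ → ℕ → Bool := onCell 1239849684 370763052 536870912 536870912 697932185 42949674
    (rowB 3 eng mog cd2q2b cd2q1 pd3 0 true true true .pnn 2 1 3 (qsf 1239849684 370763052 536870912 536870912 3) ndB2q2b ndB2q1 pcB3 Cut.none Ext.none)

def k0_pp_213_b : ∃ t, chk3 f_pp_213_b t 1 1 1 = true :=
  ⟨(l 4), by decide +kernel⟩

theorem c_pp_213_b : CertB 1239849684 370763052 536870912 536870912 697932185 42949674 3 eng mog cd2q2b cd2q1 pd3 true true true .pnn 2 1 3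
    ndB2q2b ndB2q1 pcB3 Cut.none Ext.none :=
  certB0 (fam := true) (s1 := true) (s2 := true) (a := 2) (b := 1) (c := 3) (cn := .pnn) (n1 := ndB2q2b) (n2 := ndB2q1) (pc := pcB3) (cut := Cut.none) (xt := Ext.none) (P1 := 1239849684) (W1 := 370763052) (P2 := 536870912) (W2 := 536870912) (P3 := 697932185) (W3 := 42949674) (N0 := 3) (En := eng) (mo := mog) (C1 := cd2q2b) (C2 := cd2q1) (C3 := pd3)
    rfl k0_pp_213_b

noncomputable def f_pp_303 : ℕ → ℕ → ℕ → ℕ → Bool := onCell 1610612736 536870912 0 536870912 697932185 42949674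
    (rowB 3 eng mog cd2q3 cd2q0 pd3 0 true true true .npn 3 0 3 (qsf 1610612736 536870912 0 536870912 3) ndB2q3 ndB2q0 pcB3 Cut.none Ext.none)

def k0_pp_303 : ∃ t, chk3 f_pp_303 t 1 1 1 = true :=
  ⟨(l 5), by decide +kernel⟩

theorem c_pp_303 : CertB 1610612736 536870912 0 536870912 697932185 42949674 3 eng mog cd2q3 cd2q0 pd3 true true true .npn 3 0 3
    ndB2q3 ndB2q0 pcB3 Cut.none Ext.none :=
  certB0 (fam := true) (s1 := true) (s2 := true) (a := 3) (b := 0) (c := 3) (cn := .npn) (n1 := ndB2q3) (n2 := ndB2q0) (pc := pcB3) (cut := Cut.none) (xt := Ext.none) (P1 := 1610612736) (W1 := 536870912) (P2 := 0) (W2 := 536870912) (P3 := 697932185) (W3 := 42949674) (N0 := 3) (En := eng) (mo := mog) (C1 := cd2q3) (C2 := cd2q0) (C3 := pd3)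
    rfl k0_pp_303

noncomputable def f_pp_313 : ℕ → ℕ → ℕ → ℕ → Bool := onCell 1610612736 536870912 536870912 536870912 697932185 42949674
    (rowB 3 eng mog cd2q3 cd2q1 pd3 0 true true true .dn 3 1 3 (qsf 1610612736 536870912 536870912 536870912 3) ndB2q3 ndB2q1 pcB3 Cut.none Ext.none)

def k0_pp_313 : ∃ t, chk3 f_pp_313 t 1 1 1 = true :=
  ⟨(l 4), by decide +kernel⟩

theorem c_pp_313 : CertB 1610612736 536870912 536870912 536870912 697932185 42949674 3 eng mog cd2q3 cd2q1 pd3 true true true .dn 3 1 3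
    ndB2q3 ndB2q1 pcB3 Cut.none Ext.none :=
  certB0 (fam := true) (s1 := true) (s2 := true) (a := 3) (b := 1) (c := 3) (cn := .dn) (n1 := ndB2q3) (n2 := ndB2q1) (pc := pcB3) (cut := Cut.none) (xt := Ext.none) (P1 := 1610612736) (W1 := 536870912) (P2 := 536870912) (W2 := 536870912) (P3 := 697932185) (W3 := 42949674) (N0 := 3) (En := eng) (mo := mog) (C1 := cd2q3) (C2 := cd2q1) (C3 := pd3)
    rfl k0_pp_313

noncomputable def f_pm_001 : ℕ → ℕ → ℕ → ℕ → Bool := onCell 0 536870912 0 536870912 697932185 42949674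
    (rowB 3 eng mog cd2q0 cd2q0 pd1 0 true true false .up 0 0 1 (qsf 0 536870912 0 536870912 1) ndB2q0 ndB2q0 pcB1 Cut.none Ext.none)

def k0_pm_001 : ∃ t, chk3 f_pm_001 t 1 1 1 = true :=
  ⟨(l 3), by decide +kernel⟩

theorem c_pm_001 : CertB 0 536870912 0 536870912 697932185 42949674 3 eng mog cd2q0 cd2q0 pd1 true true false .up 0 0 1
    ndB2q0 ndB2q0 pcB1 Cut.none Ext.none :=
  certB0 (fam := true) (s1 := true) (s2 := false) (a := 0) (b := 0) (c := 1) (cn := .up) (n1 := ndB2q0) (n2 := ndB2q0) (pc := pcB1) (cut := Cut.none) (xt := Ext.none) (P1 := 0) (W1 := 536870912) (P2 := 0) (W2 := 536870912) (P3 := 697932185) (W3 := 42949674) (N0 := 3) (En := eng) (mo := mog) (C1 := cd2q0) (C2 := cd2q0) (C3 := pd1)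
    rfl k0_pm_001

noncomputable def f_pm_011 : ℕ → ℕ → ℕ → ℕ → Bool := onCell 0 536870912 536870912 536870912 697932185 42949674
    (rowB 3 eng mog cd2q0 cd2q1 pd1 1 true true false .pnn 0 1 1 (qsf 0 536870912 536870912 536870912 1) ndB2q0 ndB2q1 pcB1 Cut.none Ext.none)

def k0_pm_011 : ∃ t, chk3 f_pm_011 t 1 1 1 = true :=
  ⟨(l 3), by decide +kernel⟩

theorem c_pm_011 : CertB 0 536870912 536870912 536870912 697932185 42949674 3 eng mog cd2q0 cd2q1 pd1 true true false .pnn 0 1 1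
    ndB2q0 ndB2q1 pcB1 Cut.none Ext.none :=
  certB1 (fam := true) (s1 := true) (s2 := false) (a := 0) (b := 1) (c := 1) (cn := .pnn) (n1 := ndB2q0) (n2 := ndB2q1) (pc := pcB1) (cut := Cut.none) (xt := Ext.none) (P1 := 0) (W1 := 536870912) (P2 := 536870912) (W2 := 536870912) (P3 := 697932185) (W3 := 42949674) (N0 := 3) (En := eng) (mo := mog) (C1 := cd2q0) (C2 := cd2q1) (C3 := pd1)
    rfl (fun _ => rfl) k0_pm_011

noncomputable def f_pm_012 : ℕ → ℕ → ℕ → ℕ → Bool := onCell 1073741824 536870912 536870912 536870912 697932185 42949674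
    (rowB 3 eng mog cd2q0 cd2q1 pd2 2 true true false .pnp 0 1 2 (qsf 0 536870912 536870912 536870912 2) ndB2q0 ndB2q1 pcB2 Cut.none Ext.none)

def k0_pm_012 : ∃ t, chk3 f_pm_012 t 2 1 1 = true :=
  ⟨(a (a (l 3) (b (l 3) (a (l 3) (b (l 3) (b (l 3) (a (l 3) (b (l 3) (a (l 3) (l 16600904))))))))) (a (a (a (b (l 3) (b (a (l 3) (b (l 3) (b (l 3) (l 16599256)))) (b (a (b (l 3) (a (l 3) (l 16594856))) (b (l 16591016) (a (l 16587344) (l 16580112)))) (a (b (a (l 16598648) (l 16590936)) (a (l 16592224) (l 16585616))) (b (a (l 16583000) (l 16574744)) (a (l 16577704) (l 16570344))))))) (b (a (l 3) (b (l 2) (a (b (l 3) (l 16614912)) (b (a (l 16626024) (l 16624632)) (a (b (l 16615512) (l 16608456)) (l 16610224)))))) (a (b (b (a (l 3) (l 16605168)) (a (l 16657368) (b (l 16592968) (l 16583880)))) (b (a (b (l 16581000) (l 16572808)) (b (l 16574456) (l 16565920))) (b (a (l 16567112) (l 16559792)) (a (l 16563160) (l 16556392))))) (b (a (b (a (l 16601568) (l 16599184))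 (a (l 16584304) (l 16581432))) (b (a (a (l 16597400) (l 16596208)) (l 16594448)) (a (l 16578584) (b (l 16580584) (l 16570568))))) (a (b (b (l 16568152) (l 16559272)) (b (l 16552808) (l 16549632))) (b (a (b (l 16563480) (l 16554344)) (b (l 16560344) (l 16551024))) (a (b (l 16547496) (l 16544504)) (b (l 16544232) (l 16541760))))))))) (b (b (l 2) (b (l 16613688) (l 16595584))) (b (b (l 16575856) (b (l 16558832) (l 16546720))) (b (b (l 16534432) (l 16523064)) (b (l 16514264) (l 16510120)))))) (b (b (l 2) (b (l 16590912) (l 16563136))) (b (b (l 16532904) (b (l 16507552) (l 16489560))) (b (a (l 16482952) (l 16443752)) (b (l 16439056) (l 16429312))))))), by decide +kernel⟩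

def k1_pm_012 : ∃ t, chk3 f_pm_012 t 3 1 1 = true :=
  ⟨(b (a (b (l 2) (a (l 16686232) (l 2))) (l 2)) (b (a (b (a (l 16497800) (l 16488696)) (a (l 16449944) (l 16429328))) (b (l 2) (l 16450752))) (a (b (a (l 16460736) (l 16363648)) (a (a (l 16369672) (l 16334824)) (l 16298400))) (b (l 16370688) (a (l 16280848) (l 16299656)))))), by decide +kernel⟩

theorem s2_pm_012 : ∃ t, chk3 f_pm_012 t 1 1 1 = true := ex3_a k0_pm_012 k1_pm_012

theorem c_pm_012 : CertB 0 536870912 536870912 536870912 697932185 42949674 3 eng mog cd2q0 cd2q1 pd2 true true false .pnp 0 1 2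
    ndB2q0 ndB2q1 pcB2 Cut.none Ext.none :=
  certB2 (fam := true) (s1 := true) (s2 := false) (a := 0) (b := 1) (c := 2) (cn := .pnp) (n1 := ndB2q0) (n2 := ndB2q1) (pc := pcB2) (cut := Cut.none) (xt := Ext.none) (P1 := 0) (W1 := 536870912) (P2 := 536870912) (W2 := 536870912) (P3 := 697932185) (W3 := 42949674) (N0 := 3) (En := eng) (mo := mog) (C1 := cd2q0) (C2 := cd2q1) (C3 := pd2)
    rfl (fun _ => rfl) s2_pm_012

noncomputable def cut_pm_022_a : Cut := Cut.of [[⟨0, 0, 0, 67108864⟩, ⟨1, 1, 0, 67108864⟩, ⟨2, 1, 0, 67108864⟩]]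

noncomputable def f_pm_022_a : ℕ → ℕ → ℕ → ℕ → Bool := onCell 1073741824 536870912 0 536870912 697932185 42949674
    (rowB 3 eng mog cd2q0 cd2q2a pd2 2 true true false .pp 0 2 2 (qsf 0 536870912 0 536870912 2) ndB2q0 ndB2q2a pcB2 cut_pm_022_a Ext.none)

def k0_pm_022_a : ∃ t, chk3 f_pm_022_a t 2 2 1 = true :=
  ⟨(a (a (l 1) (b (l 1) (a (l 1) (b (l 1) (a (l 1) (b (l 1) (l 185253486263))))))) (a (a (b (a (l 1) (b (c (l 16446960) (l 16432976)) (a (b (l 1) (l 16452840)) (a (l 16369856) (a (l 16456304) (l 16458008)))))) (a (b (b (a (l 1) (l 16453312)) (l 16481496)) (b (l 257731043975) (a (l 16490160) (l 16495896)))) (b (a (b (l 16461456) (l 16471648)) (a (l 16472328) (a (l 16475056) (l 16476816)))) (a (b (l 16485008) (l 16501256)) (a (l 16497520) (a (l 16499336) (l 16500328))))))) (a (b (c (b (b (l 16450056) (l 16452880)) (l 16480184)) (b (l 16469432) (l 16458856))) (b (b (a (l 16476072) (l 16469408)) (l 16484464)) (a (l 16503720) (l 16499408)))) (b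 (b (b (l 16456256) (l 16457200)) (l 16464672)) (b (b (l 16471632) (l 16480128)) (l 16497584))))) (b (a (b (c (l 16478352) (l 16447816)) (b (l 16456096) (l 16462200))) (b (a (l 16452848) (l 16454264)) (a (l 16456672) (l 16456600)))) (a (b (b (l 16471224) (l 16481824)) (l 16498208)) (b (l 16469608) (l 16488984)))))), by decide +kernel⟩

def k1_pm_022_a : ∃ t, chk3 f_pm_022_a t 4 3 1 = true :=
  ⟨(a (b (l 1) (a (b (l 1) (l 6)) (a (b (b (l 1) (l 6)) (l 6)) (a (b (b (l 1) (l 6)) (l 6)) (b (b (b (l 1) (a (l 185790590343) (l 161094511383))) (b (a (l 6) (l 16639608)) (l 16659440))) (a (l 6) (b (l 16687096) (l 16684840)))))))) (b (b (a (l 1) (a (b (l 140156343655) (a (l 167536774791) (l 192769730343))) (b (a (l 16500968) (l 16506176)) (a (l 16526632) (l 16530664))))) (a (a (b (l 1) (a (l 1) (b (l 16564544) (l 214244660919)))) (b (a (l 130492724791) (b (l 16536600) (l 16552920))) (a (b (l 16567176) (l 16584952)) (b (l 16569680) (l 16586736))))) (a (b (a (b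 (l 16540304) (l 16555960)) (l 16551408)) (c (l 16501280) (l 16492904))) (b (a (l 16554376) (l 16557088)) (l 16584240))))) (b (a (b (a (a (b (l 235182664215) (b (l 16615472) (l 16625304))) (b (l 16601880) (l 16620960))) (a (b (l 16603080) (l 16621384)) (l 16571048))) (a (a (b (l 16639520) (l 16658584)) (l 16627632)) (l 16647400))) (a (b (l 16613568) (l 16626752)) (b (l 16602960) (l 16605632)))) (b (a (b (a (l 16672384) (l 16649344)) (a (l 16672088) (l 16649040))) (a (b (l 16627136) (l 16626832)) (l 16606000))) (a (b (a (l 16671064) (l 16648040)) (a (l 16668936) (l 16645952))) (a (l 16625000) (l 16603920))))))), by decide +kernel⟩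

def k2_pm_022_a : ∃ t, chk3 f_pm_022_a t 5 3 1 = true :=
  ⟨(a (b (a (b (a (b (a (l 16511128) (l 16515760)) (l 16494128)) (a (l 16530688) (a (l 16532992) (a (l 16533792) (l 16533976))))) (a (b (l 16560472) (l 16579248)) (a (l 16562856) (a (l 16556624) (l 16553856))))) (a (b (l 16525952) (l 16543072)) (b (l 16518384) (l 16533672)))) (a (b (a (b (l 16583256) (l 16585856)) (a (b (l 16569488) (l 16572064)) (a (l 16544216) (b (l 16560808) (l 16563624))))) (a (b (l 16586224) (l 16584248)) (a (b (l 16572472) (l 16570592)) (a (l 16587040) (b (l 16585272) (a (l 16562264) (l 16561496))))))) (a (b (b (l 16549776) (l 16552496)) (b (l 16553112) (l 16592728))) (b (l 16540552) (b (l 16540408) (l 16534696)))))) (b (b (a (l 16515224) (l 16509624)) (a (l 16526728) (l 16516672))) (b (b (a (l 16529184) (l 16514224)) (a (l 16528192) (l 16508968))) (b (a (l 16523144) (l 16500072)) (a (l 16513176) (l 16487704)))))), by decide +kernel⟩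

def k3_pm_022_a : ∃ t, chk3 f_pm_022_a t 3 1 1 = true :=
  ⟨(a (a (b (b (b (a (b (l 16459272) (l 16457064)) (b (l 16467912) (l 16464816))) (a (l 16479544) (l 16506416))) (b (a (l 16467160) (l 16491312)) (a (l 16481696) (l 16482904)))) (b (b (a (l 16500224) (l 16498592)) (l 16501576)) (b (a (l 16496104) (l 16482848)) (a (l 16494960) (l 16456968))))) (b (b (a (b (a (l 16477208) (l 16488704)) (a (l 16475064) (l 16485608))) (b (l 16504728) (l 16500192))) (a (b (l 16463384) (l 16492104)) (l 16554160))) (b (a (b (l 16497704) (l 16491624)) (l 16579608)) (b (l 16468920) (a (l 16443792) (l 16434344)))))) (b (b (a (a (l 16511880) (l 16523232)) (b (l 16580984) (l 16567648))) (a (b (l 16522264) (l 16511456)) (l 16537688))) (b (a (b (l 16502008) (l 16487040)) (l 16504896)) (a (b (l 16460384) (l 16426552)) (b (l 16462104) (l 16427032)))))), by decide +kernel⟩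

theorem s4_pm_022_a : ∃ t, chk3 f_pm_022_a t 2 3 1 = true := ex3_a k1_pm_022_a k2_pm_022_a

theorem s5_pm_022_a : ∃ t, chk3 f_pm_022_a t 2 1 1 = true := ex3_b k0_pm_022_a s4_pm_022_a

theorem s6_pm_022_a : ∃ t, chk3 f_pm_022_a t 1 1 1 = true := ex3_a s5_pm_022_a k3_pm_022_a

theorem c_pm_022_a : CertB 0 536870912 0 536870912 697932185 42949674 3 eng mog cd2q0 cd2q2a pd2 true true false .pp 0 2 2
    ndB2q0 ndB2q2a pcB2 cut_pm_022_a Ext.none :=
  certB2 (fam := true) (s1 := true) (s2 := false) (a := 0) (b := 2) (c := 2) (cn := .pp) (n1 := ndB2q0) (n2 := ndB2q2a) (pc := pcB2) (cut := cut_pm_022_a) (xt := Ext.none) (P1 := 0) (W1 := 536870912) (P2 := 0) (W2 := 536870912) (P3 := 697932185) (W3 := 42949674) (N0 := 3) (En := eng) (mo := mog) (C1 := cd2q0) (C2 := cd2q2a) (C3 := pd2)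
    rfl (fun _ => rfl) s6_pm_022_a

noncomputable def cut_pm_022_b : Cut := Cut.of [[⟨0, 0, 0, 67108864⟩, ⟨1, 1, 0, 67108864⟩, ⟨2, 1, 0, 67108864⟩]]

noncomputable def f_pm_022_b : ℕ → ℕ → ℕ → ℕ → Bool := onCell 1073741824 536870912 1239849684 370763052 697932185 42949674
    (rowB 3 eng mog cd2q0 cd2q2b pd2 2 true true false .pp 0 2 2 (qsf 0 536870912 1239849684 370763052 2) ndB2q0 ndB2q2b pcB2 cut_pm_022_b Ext.none)

def k0_pm_022_b : ∃ t, chk3 f_pm_022_b t 1 1 1 = true :=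
  ⟨(a (b (a (l 1) (a (b (b (a (a (l 1) (b (l 47277607271) (l 1))) (a (b (a (l 16419688) (c (l 16471320) (l 16420432))) (l 1)) (b (b (l 16441832) (l 16411808)) (l 16387024)))) (l 1)) (l 1)) (b (b (a (b (a (l 16425368) (l 16425504)) (b (l 16381384) (l 16351584))) (b (l 16438888) (l 16372904))) (a (a (l 16337232) (b (l 16307920) (l 1))) (b (l 16315536) (l 16256744)))) (b (a (l 1) (a (l 1) (l 16171872))) (l 1))))) (l 1)) (b (a (a (b (b (a (b (l 16457072) (l 16384056)) (b (l 16447016) (l 16398584))) (a (a (l 16297896) (l 16306904)) (l 16321992))) (b (a (b (l 16217096) (l 16159232)) (l 16214112)) (a (l 1) (l 16102816)))) (b (b (a (a (l 16518800) (l 16444720)) (l 16462520)) (a (l 16385512) (l 16365320))) (a (b (l 16242136) (l 78952424359)) (b (l 16270128) (l 16170464))))) (a (b (a (b (l 16510888) (l 16394240)) (l 16476288)) (a (l 16254048) (l 16290952))) (b (a (l 16509424) (l 16542272)) (a (l 16332728) (l 16378688))))) (a (b (a (l 1) (b (a (l 135860546775)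 (l 16068072)) (a (l 1) (l 15966376)))) (l 1)) (a (b (a (b (l 16110872) (l 16013864)) (l 16110624)) (b (l 264709457015) (l 1))) (b (a (l 16159072) (l 16206656)) (a (l 220149265287) (l 16050608))))))), by decide +kernel⟩

theorem c_pm_022_b : CertB 0 536870912 1239849684 370763052 697932185 42949674 3 eng mog cd2q0 cd2q2b pd2 true true false .pp 0 2 2
    ndB2q0 ndB2q2b pcB2 cut_pm_022_b Ext.none :=
  certB2 (fam := true) (s1 := true) (s2 := false) (a := 0) (b := 2) (c := 2) (cn := .pp) (n1 := ndB2q0) (n2 := ndB2q2b) (pc := pcB2) (cut := cut_pm_022_b) (xt := Ext.none) (P1 := 0) (W1 := 536870912) (P2 := 1239849684) (W2 := 370763052) (P3 := 697932185) (W3 := 42949674) (N0 := 3) (En := eng) (mo := mog) (C1 := cd2q0) (C2 := cd2q2b) (C3 := pd2)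
    rfl (fun _ => rfl) k0_pm_022_b

noncomputable def f_pm_023_a : ℕ → ℕ → ℕ → ℕ → Bool := onCell 1610612736 536870912 0 536870912 697932185 42949674
    (rowB 3 eng mog cd2q0 cd2q2a pd3 2 true true false .up 0 2 3 (qsf 0 536870912 0 536870912 3) ndB2q0 ndB2q2a pcB3 Cut.none Ext.none)

def k0_pm_023_a : ∃ t, chk3 f_pm_023_a t 1 1 1 = true :=
  ⟨(a (b (a (a (b (a (l 16598624) (l 16630576)) (a (l 16550024) (l 16594568))) (b (l 16686600) (l 16650000))) (a (b (l 16738928) (a (l 16699168) (l 2))) (l 2))) (b (a (a (l 16526992) (l 16608096)) (l 2)) (a (a (b (l 16472496) (l 16440584)) (l 262093527879)) (l 2)))) (l 2)), by decide +kernel⟩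

theorem c_pm_023_a : CertB 0 536870912 0 536870912 697932185 42949674 3 eng mog cd2q0 cd2q2a pd3 true true false .up 0 2 3
    ndB2q0 ndB2q2a pcB3 Cut.none Ext.none :=
  certB2 (fam := true) (s1 := true) (s2 := false) (a := 0) (b := 2) (c := 3) (cn := .up) (n1 := ndB2q0) (n2 := ndB2q2a) (pc := pcB3) (cut := Cut.none) (xt := Ext.none) (P1 := 0) (W1 := 536870912) (P2 := 0) (W2 := 536870912) (P3 := 697932185) (W3 := 42949674) (N0 := 3) (En := eng) (mo := mog) (C1 := cd2q0) (C2 := cd2q2a) (C3 := pd3)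
    rfl (fun _ => rfl) k0_pm_023_a

noncomputable def f_pm_023_b : ℕ → ℕ → ℕ → ℕ → Bool := onCell 1610612736 536870912 1239849684 370763052 697932185 42949674
    (rowB 3 eng mog cd2q0 cd2q2b pd3 2 true true false .up 0 2 3 (qsf 0 536870912 1239849684 370763052 3) ndB2q0 ndB2q2b pcB3 Cut.none Ext.none)

def k0_pm_023_b : ∃ t, chk3 f_pm_023_b t 1 1 1 = true :=
  ⟨(a (a (b (a (b (a (l 16574288) (l 16596056)) (l 16452528)) (b (l 16622544) (l 16537736))) (a (b (l 16280544) (l 16120176)) (b (l 16381496) (l 16210848)))) (a (b (b (l 16721720) (l 16614760)) (b (l 16492040) (l 16332040))) (b (b (l 16764576) (l 16693400)) (b (l 16599816) (l 16472680))))) (a (l 4) (l 4))), by decide +kernel⟩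

theorem c_pm_023_b : CertB 0 536870912 1239849684 370763052 697932185 42949674 3 eng mog cd2q0 cd2q2b pd3 true true false .up 0 2 3
    ndB2q0 ndB2q2b pcB3 Cut.none Ext.none :=
  certB2 (fam := true) (s1 := true) (s2 := false) (a := 0) (b := 2) (c := 3) (cn := .up) (n1 := ndB2q0) (n2 := ndB2q2b) (pc := pcB3) (cut := Cut.none) (xt := Ext.none) (P1 := 0) (W1 := 536870912) (P2 := 1239849684) (W2 := 370763052) (P3 := 697932185) (W3 := 42949674) (N0 := 3) (En := eng) (mo := mog) (C1 := cd2q0) (C2 := cd2q2b) (C3 := pd3)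
    rfl (fun _ => rfl) k0_pm_023_b

noncomputable def f_pm_033 : ℕ → ℕ → ℕ → ℕ → Bool := onCell 0 536870912 1610612736 536870912 697932185 42949674
    (rowB 3 eng mog cd2q0 cd2q3 pd3 1 true true false .pnn 0 3 3 (qsf 0 536870912 1610612736 536870912 3) ndB2q0 ndB2q3 pcB3 Cut.none Ext.none)

def k0_pm_033 : ∃ t, chk3 f_pm_033 t 1 1 1 = true :=
  ⟨(b (b (a (a (b (a (l 16048376) (l 16164656)) (l 16183056)) (b (l 1) (l 16433256))) (l 1)) (a (b (a (l 16079248) (l 16321792)) (a (l 16136072) (l 16349592))) (b (l 1) (a (l 16573208) (l 1))))) (l 4)), by decide +kernel⟩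

theorem c_pm_033 : CertB 0 536870912 1610612736 536870912 697932185 42949674 3 eng mog cd2q0 cd2q3 pd3 true true false .pnn 0 3 3
    ndB2q0 ndB2q3 pcB3 Cut.none Ext.none :=
  certB1 (fam := true) (s1 := true) (s2 := false) (a := 0) (b := 3) (c := 3) (cn := .pnn) (n1 := ndB2q0) (n2 := ndB2q3) (pc := pcB3) (cut := Cut.none) (xt := Ext.none) (P1 := 0) (W1 := 536870912) (P2 := 1610612736) (W2 := 536870912) (P3 := 697932185) (W3 := 42949674) (N0 := 3) (En := eng) (mo := mog) (C1 := cd2q0) (C2 := cd2q3) (C3 := pd3)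
    rfl (fun _ => rfl) k0_pm_033

noncomputable def f_pm_101 : ℕ → ℕ → ℕ → ℕ → Bool := onCell 536870912 536870912 0 536870912 697932185 42949674
    (rowB 3 eng mog cd2q1 cd2q0 pd1 2 true true false .npn 1 0 1 (qsf 536870912 536870912 0 536870912 1) ndB2q1 ndB2q0 pcB1 Cut.none Ext.none)

def k0_pm_101 : ∃ t, chk3 f_pm_101 t 1 1 1 = true :=
  ⟨(l 3), by decide +kernel⟩

theorem c_pm_101 : CertB 536870912 536870912 0 536870912 697932185 42949674 3 eng mog cd2q1 cd2q0 pd1 true true false .npn 1 0 1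
    ndB2q1 ndB2q0 pcB1 Cut.none Ext.none :=
  certB2 (fam := true) (s1 := true) (s2 := false) (a := 1) (b := 0) (c := 1) (cn := .npn) (n1 := ndB2q1) (n2 := ndB2q0) (pc := pcB1) (cut := Cut.none) (xt := Ext.none) (P1 := 536870912) (W1 := 536870912) (P2 := 0) (W2 := 536870912) (P3 := 697932185) (W3 := 42949674) (N0 := 3) (En := eng) (mo := mog) (C1 := cd2q1) (C2 := cd2q0) (C3 := pd1)
    rfl (fun _ => rfl) k0_pm_101

noncomputable def f_pm_102 : ℕ → ℕ → ℕ → ℕ → Bool := onCell 536870912 536870912 1073741824 536870912 697932185 42949674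
    (rowB 3 eng mog cd2q1 cd2q0 pd2 1 true true false .npp 1 0 2 (qsf 536870912 536870912 0 536870912 2) ndB2q1 ndB2q0 pcB2 Cut.none Ext.none)

def k0_pm_102 : ∃ t, chk3 f_pm_102 t 1 2 1 = true :=
  ⟨(b (b (l 3) (a (l 3) (b (l 3) (a (l 3) (a (l 3) (b (l 3) (a (l 3) (b (l 3) (l 16600904))))))))) (b (b (b (a (l 3) (a (b (l 3) (a (l 3) (a (l 3) (l 16599256)))) (a (b (a (l 3) (b (l 3) (l 16594856))) (a (l 16591016) (b (l 16587344) (l 16580112)))) (b (a (b (l 16598648) (l 16590936)) (b (l 16592224) (l 16585616))) (a (b (l 16583000) (l 16574744)) (b (l 16577704) (l 16570344))))))) (a (b (l 3) (a (l 2) (b (a (l 3) (l 16614912)) (a (b (l 16626024) (l 16624632)) (b (a (l 16615512) (l 16608456)) (l 16610224)))))) (b (a (a (b (l 3) (l 16605168)) (b (l 16657368) (a (l 16592968) (l 16583880)))) (a (b (a (l 16581000) (l 16572808)) (a (l 16574456) (l 16565920))) (a (b (l 16567112) (l 16559792)) (b (l 16563160) (l 16556392))))) (a (b (a (b (l 16601568) (l 16599184))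 (b (l 16584304) (l 16581432))) (a (b (b (l 16597400) (l 16596208)) (l 16594448)) (b (l 16578584) (a (l 16580584) (l 16570568))))) (b (a (a (l 16568152) (l 16559272)) (a (l 16552808) (l 16549632))) (a (b (a (l 16563480) (l 16554344)) (a (l 16560344) (l 16551024))) (b (a (l 16547496) (l 16544504)) (a (l 16544232) (l 16541760))))))))) (a (a (l 2) (a (l 16613688) (l 16595584))) (a (a (l 16575856) (a (l 16558832) (l 16546720))) (a (a (l 16534432) (l 16523064)) (a (l 16514264) (l 16510120)))))) (a (a (l 2) (a (l 16590912) (l 16563136))) (a (a (l 16532904) (a (l 16507552) (l 16489560))) (a (b (l 16482952) (l 16443752)) (a (l 16439056) (l 16429312))))))), by decide +kernel⟩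

def k1_pm_102 : ∃ t, chk3 f_pm_102 t 1 3 1 = true :=
  ⟨(a (b (a (l 2) (b (l 16707208) (l 2))) (l 2)) (a (b (a (b (l 16497800) (l 16488696)) (b (l 16449944) (l 16429328))) (a (l 2) (l 16450752))) (b (a (b (l 16439760) (l 16363648)) (b (b (l 16369672) (l 16334824)) (l 16298400))) (a (l 16370688) (b (l 16280848) (l 16299656)))))), by decide +kernel⟩

theorem s2_pm_102 : ∃ t, chk3 f_pm_102 t 1 1 1 = true := ex3_b k0_pm_102 k1_pm_102

theorem c_pm_102 : CertB 536870912 536870912 0 536870912 697932185 42949674 3 eng mog cd2q1 cd2q0 pd2 true true false .npp 1 0 2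
    ndB2q1 ndB2q0 pcB2 Cut.none Ext.none :=
  certB1 (fam := true) (s1 := true) (s2 := false) (a := 1) (b := 0) (c := 2) (cn := .npp) (n1 := ndB2q1) (n2 := ndB2q0) (pc := pcB2) (cut := Cut.none) (xt := Ext.none) (P1 := 536870912) (W1 := 536870912) (P2 := 0) (W2 := 536870912) (P3 := 697932185) (W3 := 42949674) (N0 := 3) (En := eng) (mo := mog) (C1 := cd2q1) (C2 := cd2q0) (C3 := pd2)
    rfl (fun _ => rfl) s2_pm_102

noncomputable def f_pm_112 : ℕ → ℕ → ℕ → ℕ → Bool := onCell 1073741824 536870912 536870912 536870912 697932185 42949674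
    (rowB 3 eng mog cd2q1 cd2q1 pd2 2 true true false .dn 1 1 2 (qsf 536870912 536870912 536870912 536870912 2) ndB2q1 ndB2q1 pcB2 Cut.none Ext.none)

def k0_pm_112 : ∃ t, chk3 f_pm_112 t 1 1 1 = true :=
  ⟨(b (a (a (l 3) (a (a (a (l 3) (a (l 3) (b (a (l 3) (a (a (l 3) (l 16620512)) (l 16619448))) (b (a (l 3) (a (l 16605352) (l 16604360))) (l 1))))) (b (l 16607416) (l 125124424087))) (b (b (l 16562312) (l 16578136)) (b (l 16572552) (l 16546944))))) (a (b (a (l 16674240) (l 16692392)) (a (l 16602232) (l 16527016))) (b (a (l 16440608) (b (l 16543496) (l 16446888))) (a (l 16529872) (l 16551304))))) (a (a (l 1) (a (l 1) (b (b (l 263100015831) (l 1)) (l 1)))) (a (b (b (l 194380612583) (a (l 271689791351) (l 16426288))) (a (l 1) (l 287795819559))) (b (b (l 16519840) (l 16457704)) (b (l 16378848) (a (l 16295928) (l 16315528))))))), by decide +kernel⟩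

theorem c_pm_112 : CertB 536870912 536870912 536870912 536870912 697932185 42949674 3 eng mog cd2q1 cd2q1 pd2 true true false .dn 1 1 2
    ndB2q1 ndB2q1 pcB2 Cut.none Ext.none :=
  certB2 (fam := true) (s1 := true) (s2 := false) (a := 1) (b := 1) (c := 2) (cn := .dn) (n1 := ndB2q1) (n2 := ndB2q1) (pc := pcB2) (cut := Cut.none) (xt := Ext.none) (P1 := 536870912) (W1 := 536870912) (P2 := 536870912) (W2 := 536870912) (P3 := 697932185) (W3 := 42949674) (N0 := 3) (En := eng) (mo := mog) (C1 := cd2q1) (C2 := cd2q1) (C3 := pd2)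
    rfl (fun _ => rfl) k0_pm_112

noncomputable def f_pm_113 : ℕ → ℕ → ℕ → ℕ → Bool := onCell 536870912 536870912 536870912 536870912 697932185 42949674
    (rowB 3 eng mog cd2q1 cd2q1 pd3 0 true true false .nn 1 1 3 (qsf 536870912 536870912 536870912 536870912 3) ndB2q1 ndB2q1 pcB3 Cut.none Ext.none)

def k0_pm_113 : ∃ t, chk3 f_pm_113 t 1 1 1 = true :=
  ⟨(a (b (a (l 1) (b (l 1) (l 128345619431))) (b (a (l 172905842823) (l 132103695111)) (a (b (l 16388952) (l 16360328)) (b (l 16666784) (a (l 16631048) (b (l 16874000) (l 16854792))))))) (b (a (b (l 172905842823) (l 160020982535)) (b (a (l 16388952) (l 16360328)) (a (l 16666784) (b (l 16631048) (a (l 16874000) (l 16854792)))))) (a (b (l 16931616) (b (l 17019456) (a (l 16993376) (l 16995712)))) (b (a (l 17019456) (b (l 17035320) (l 16995712))) (a (b (l 17031040) (l 16930968)) (b (l 16930968) (a (l 16888120) (b (l 16865344) (a (l 16834224) (b (l 16822624) (a (l 16805632) (b (l 16799488) (a (l 16791400)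 (b (l 16788240) (a (l 16784304) (l 16844424)))))))))))))))), by decide +kernel⟩

theorem c_pm_113 : CertB 536870912 536870912 536870912 536870912 697932185 42949674 3 eng mog cd2q1 cd2q1 pd3 true true false .nn 1 1 3
    ndB2q1 ndB2q1 pcB3 Cut.none Ext.none :=
  certB0 (fam := true) (s1 := true) (s2 := false) (a := 1) (b := 1) (c := 3) (cn := .nn) (n1 := ndB2q1) (n2 := ndB2q1) (pc := pcB3) (cut := Cut.none) (xt := Ext.none) (P1 := 536870912) (W1 := 536870912) (P2 := 536870912) (W2 := 536870912) (P3 := 697932185) (W3 := 42949674) (N0 := 3) (En := eng) (mo := mog) (C1 := cd2q1) (C2 := cd2q1) (C3 := pd3)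
    rfl k0_pm_113

noncomputable def f_pm_123_a : ℕ → ℕ → ℕ → ℕ → Bool := onCell 1610612736 536870912 0 536870912 697932185 42949674
    (rowB 3 eng mog cd2q1 cd2q2a pd3 2 true true false .npn 1 2 3 (qsf 536870912 536870912 0 536870912 3) ndB2q1 ndB2q2a pcB3 Cut.none Ext.none)

def k0_pm_123_a : ∃ t, chk3 f_pm_123_a t 1 1 1 = true :=
  ⟨(b (a (a (a (l 1) (b (l 1) (l 16679760))) (a (b (l 16744368) (a (l 16715600) (l 16743744))) (b (l 16747632) (l 16787616)))) (a (a (a (l 66270401863) (l 77544627095)) (b (l 4) (a (l 16706288) (l 16577608)))) (l 4))) (b (a (a (a (l 1) (l 16632136)) (a (a (l 16694896) (l 16747672)) (a (b (l 16791208) (l 16844664)) (l 16876632)))) (a (a (a (l 16861176) (l 16813816)) (a (l 16776112) (a (l 16752568) (l 16737448)))) (a (a (l 16755680) (a (l 16519472) (l 4))) (l 4)))) (a (a (a (b (l 16502280) (l 16464008)) (b (l 16599936) (l 16601632))) (a (a (a (l 16715328) (b (l 16717912) (l 16777192))) (b (l 16802952) (a (l 16867192) (l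 16975896)))) (a (a (a (b (l 16878000) (l 17033432)) (l 16956904)) (b (l 16908712) (l 16938448))) (l 16969232)))) (a (a (b (l 16920136) (l 16964504)) (a (b (l 16837280) (l 16868752)) (b (l 16801872) (a (l 16834024) (l 16817520))))) (a (a (b (l 16771672) (l 16753640)) (b (l 16724816) (l 16770656))) (a (b (l 16684264) (a (l 16753536) (l 16634088))) (l 4))))))), by decide +kernel⟩

theorem c_pm_123_a : CertB 536870912 536870912 0 536870912 697932185 42949674 3 eng mog cd2q1 cd2q2a pd3 true true false .npn 1 2 3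
    ndB2q1 ndB2q2a pcB3 Cut.none Ext.none :=
  certB2 (fam := true) (s1 := true) (s2 := false) (a := 1) (b := 2) (c := 3) (cn := .npn) (n1 := ndB2q1) (n2 := ndB2q2a) (pc := pcB3) (cut := Cut.none) (xt := Ext.none) (P1 := 536870912) (W1 := 536870912) (P2 := 0) (W2 := 536870912) (P3 := 697932185) (W3 := 42949674) (N0 := 3) (En := eng) (mo := mog) (C1 := cd2q1) (C2 := cd2q2a) (C3 := pd3)
    rfl (fun _ => rfl) k0_pm_123_a

noncomputable def f_pm_123_b : ℕ → ℕ → ℕ → ℕ → Bool := onCell 1610612736 536870912 1239849684 370763052 697932185 42949674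
    (rowB 3 eng mog cd2q1 cd2q2b pd3 2 true true false .npn 1 2 3 (qsf 536870912 536870912 1239849684 370763052 3) ndB2q1 ndB2q2b pcB3 Cut.none Ext.none)

def k0_pm_123_b : ∃ t, chk3 f_pm_123_b t 1 1 1 = true :=
  ⟨(b (a (a (l 1) (a (l 16967112) (b (l 16754864) (l 16743696)))) (l 4)) (a (l 1) (l 4))), by decide +kernel⟩

theorem c_pm_123_b : CertB 536870912 536870912 1239849684 370763052 697932185 42949674 3 eng mog cd2q1 cd2q2b pd3 true true false .npn 1 2 3
    ndB2q1 ndB2q2b pcB3 Cut.none Ext.none :=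
  certB2 (fam := true) (s1 := true) (s2 := false) (a := 1) (b := 2) (c := 3) (cn := .npn) (n1 := ndB2q1) (n2 := ndB2q2b) (pc := pcB3) (cut := Cut.none) (xt := Ext.none) (P1 := 536870912) (W1 := 536870912) (P2 := 1239849684) (W2 := 370763052) (P3 := 697932185) (W3 := 42949674) (N0 := 3) (En := eng) (mo := mog) (C1 := cd2q1) (C2 := cd2q2b) (C3 := pd3)
    rfl (fun _ => rfl) k0_pm_123_b

noncomputable def f_pm_133 : ℕ → ℕ → ℕ → ℕ → Bool := onCell 536870912 536870912 1610612736 536870912 697932185 42949674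
    (rowB 3 eng mog cd2q1 cd2q3 pd3 0 true true false .dn 1 3 3 (qsf 536870912 536870912 1610612736 536870912 3) ndB2q1 ndB2q3 pcB3 Cut.none Ext.none)

def k0_pm_133 : ∃ t, chk3 f_pm_133 t 1 1 1 = true :=
  ⟨(l 4), by decide +kernel⟩

theorem c_pm_133 : CertB 536870912 536870912 1610612736 536870912 697932185 42949674 3 eng mog cd2q1 cd2q3 pd3 true true false .dn 1 3 3
    ndB2q1 ndB2q3 pcB3 Cut.none Ext.none :=
  certB0 (fam := true) (s1 := true) (s2 := false) (a := 1) (b := 3) (c := 3) (cn := .dn) (n1 := ndB2q1) (n2 := ndB2q3) (pc := pcB3) (cut := Cut.none) (xt := Ext.none) (P1 := 536870912) (W1 := 536870912) (P2 := 1610612736) (W2 := 536870912) (P3 := 697932185) (W3 := 42949674) (N0 := 3) (En := eng) (mo := mog) (C1 := cd2q1) (C2 := cd2q3) (C3 := pd3)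
    rfl k0_pm_133

noncomputable def cut_pm_202_a : Cut := Cut.of [[⟨0, 1, 0, 67108864⟩, ⟨1, 0, 0, 67108864⟩, ⟨2, 1, 0, 67108864⟩]]

noncomputable def f_pm_202_a : ℕ → ℕ → ℕ → ℕ → Bool := onCell 0 536870912 1073741824 536870912 697932185 42949674
    (rowB 3 eng mog cd2q2a cd2q0 pd2 1 true true false .pp 2 0 2 (qsf 0 536870912 0 536870912 2) ndB2q2a ndB2q0 pcB2 cut_pm_202_a Ext.none)

def k0_pm_202_a : ∃ t, chk3 f_pm_202_a t 2 1 1 = true :=
  ⟨(b (a (b (l 1) (b (b (b (l 1) (a (c (l 16446960) (l 16432976)) (a (l 16426296) (a (l 16453832) (b (l 16455496) (b (l 16461064) (l 16464128))))))) (a (b (b (l 16451320) (a (l 16452688) (l 16455416))) (a (l 16456256) (l 16457200))) (b (a (l 16523320) (l 16529032)) (l 16464672)))) (b (a (a (l 16494928) (l 16473928)) (a (l 16456096) (l 16462200))) (a (b (l 16452848) (l 16454264)) (b (l 16456672) (l 16456600)))))) (b (b (l 1) (b (l 1) (a (l 1) (b (l 1) (a (l 1) (b (l 1) (l 16484120))))))) (b (b (b (a (b (l 1) (a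 (l 16453312) (l 16464336))) (a (b (l 16471880) (l 16478616)) (b (l 16490160) (l 16495896)))) (b (a (a (l 16461456) (l 16471648)) (a (l 16485008) (l 16501256))) (b (a (l 16472328) (l 16497520)) (a (a (l 16471176) (l 16480024)) (a (l 16491976) (l 16506680)))))) (b (a (a (b (l 16476072) (l 16469408)) (l 16484464)) (b (l 16503720) (l 16499408))) (a (a (l 16471632) (l 16480128)) (l 16497584)))) (b (a (a (l 16471224) (l 16481824)) (l 16498208)) (a (l 16469608) (l 16488984)))))) (b (b (a (a (b (a (l 16459272) (l 16457064)) (a (l 16467912) (l 16464816))) (b (l 16479544) (l 16506416))) (a (b (l 16467160) (l 16491312)) (b (l 16481696) (l 16482904)))) (a (b (a (b (l 16477208) (l 16488704)) (b (l 16475064) (l 16485608))) (a (l 16504728) (l 16500192))) (b (a (l 16463384) (l 16492104)) (l 16543680)))) (a (b (b (l 16510568) (l 16523232)) (a (l 16580984) (l 16567648))) (b (a (l 16522264) (l 16511456)) (l 16537688))))), by decide +kernel⟩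

def k1_pm_202_a : ∃ t, chk3 f_pm_202_a t 3 4 1 = true :=
  ⟨(b (a (l 1) (b (a (l 1) (l 6)) (b (a (a (l 1) (l 6)) (l 6)) (b (a (a (l 1) (l 6)) (l 6)) (a (a (a (l 1) (b (a (l 1) (l 6)) (l 161094511383))) (a (b (l 6) (l 16639608)) (l 16659440))) (b (l 6) (a (l 16687096) (l 16684840)))))))) (a (a (b (l 1) (b (a (b (l 1) (l 16495536)) (b (l 171294892151) (l 192232859431))) (a (b (l 125660820903) (l 16506176)) (b (l 16526632) (l 16530664))))) (b (b (a (l 1) (b (l 1) (a (l 120829092807) (l 214244660999)))) (a (b (a (l 1) (l 16549736)) (a (l 16536600) (l 16552920))) (b (a (l 186327342135) (l 16584952)) (a (l 16569680) (l 16586736))))) (b (b (a (a (l 16540304) (l 16555960)) (l 16601280)) (a (l 16551408) (l 16582088))) (a (b (l 16554376) (l 16557088)) (l 16584240))))) (a (b (a (b (b (a (b (l 16600240) (l 16600912)) (a (l 16615472) (l 16625304))) (a (l 16601880) (l 16620960))) (b (a (l 16603080) (l 16621384)) (l 16571048))) (b (b (a (l 16639520) (l 16658584))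 (l 16606656)) (l 16626432))) (a (b (l 16613568) (l 16602960)) (b (l 16626752) (l 16605632)))) (a (b (a (b (l 16672384) (l 16649344)) (b (l 16672088) (l 16649040))) (b (a (l 16627136) (l 16626832)) (l 16606000))) (b (a (b (l 16671064) (l 16648040)) (b (l 16668936) (l 16645952))) (b (l 16625000) (l 16603920))))))), by decide +kernel⟩

def k2_pm_202_a : ∃ t, chk3 f_pm_202_a t 3 5 1 = true :=
  ⟨(b (a (b (a (b (a (b (l 16511128) (l 16515760)) (l 16494128)) (b (l 16530688) (b (l 16532992) (l 16533528)))) (b (a (l 16560472) (l 16579248)) (b (l 16562856) (b (l 16556624) (l 16553856))))) (a (b (l 16525952) (l 16518384)) (b (l 16543072) (l 16533672)))) (b (a (b (a (l 16583256) (l 16585856)) (b (a (l 16569488) (l 16572064)) (b (l 16544216) (a (l 16560808) (l 16563624))))) (b (a (l 16586224) (l 16584248)) (b (a (l 16572472) (l 16570592)) (b (l 16566064) (a (l 16585272) (b (l 16562264) (l 16561496))))))) (b (a (a (l 16549776) (l 16552496)) (a (l 16553112) (l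 16592728))) (a (l 16540552) (a (l 16540408) (l 16534696)))))) (a (a (b (l 16515224) (l 16509624)) (b (l 16526728) (l 16516672))) (a (a (b (l 16529184) (l 16514224)) (b (l 16528192) (l 16508968))) (a (b (l 16523144) (l 16500072)) (b (l 16513176) (l 16487704)))))), by decide +kernel⟩

def k3_pm_202_a : ∃ t, chk3 f_pm_202_a t 3 3 1 = true :=
  ⟨(b (b (a (a (b (l 16500224) (l 16498592)) (l 16501576)) (a (b (l 16496104) (l 16482848)) (a (l 16471888) (l 16540776)))) (a (b (a (l 16497704) (l 16491624)) (l 16558640)) (a (l 16468920) (b (l 16443792) (l 16434344))))) (a (b (a (l 16502008) (l 16487040)) (l 16504896)) (b (a (l 16460384) (l 16426552)) (a (l 16462104) (l 16427032))))), by decide +kernel⟩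

theorem s4_pm_202_a : ∃ t, chk3 f_pm_202_a t 3 2 1 = true := ex3_b k1_pm_202_a k2_pm_202_a

theorem s5_pm_202_a : ∃ t, chk3 f_pm_202_a t 3 1 1 = true := ex3_b s4_pm_202_a k3_pm_202_a

theorem s6_pm_202_a : ∃ t, chk3 f_pm_202_a t 1 1 1 = true := ex3_a k0_pm_202_a s5_pm_202_a

theorem c_pm_202_a : CertB 0 536870912 0 536870912 697932185 42949674 3 eng mog cd2q2a cd2q0 pd2 true true false .pp 2 0 2
    ndB2q2a ndB2q0 pcB2 cut_pm_202_a Ext.none :=
  certB1 (fam := true) (s1 := true) (s2 := false) (a := 2) (b := 0) (c := 2) (cn := .pp) (n1 := ndB2q2a) (n2 := ndB2q0) (pc := pcB2) (cut := cut_pm_202_a) (xt := Ext.none) (P1 := 0) (W1 := 536870912) (P2 := 0) (W2 := 536870912) (P3 := 697932185) (W3 := 42949674) (N0 := 3) (En := eng) (mo := mog) (C1 := cd2q2a) (C2 := cd2q0) (C3 := pd2)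
    rfl (fun _ => rfl) s6_pm_202_a

noncomputable def cut_pm_202_b : Cut := Cut.of [[⟨0, 1, 0, 67108864⟩, ⟨1, 0, 0, 67108864⟩, ⟨2, 1, 0, 67108864⟩]]

noncomputable def f_pm_202_b : ℕ → ℕ → ℕ → ℕ → Bool := onCell 1239849684 370763052 1073741824 536870912 697932185 42949674
    (rowB 3 eng mog cd2q2b cd2q0 pd2 1 true true false .pp 2 0 2 (qsf 1239849684 370763052 0 536870912 2) ndB2q2b ndB2q0 pcB2 cut_pm_202_b Ext.none)

def k0_pm_202_b : ∃ t, chk3 f_pm_202_b t 1 1 1 = true :=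
  ⟨(b (a (b (l 1) (b (a (a (b (b (l 1) (c (l 16486752) (l 157872921383))) (a (a (b (b (l 16435048) (l 16441896)) (l 16441832)) (b (l 16470736) (l 16411808))) (b (l 1) (c (l 16372184) (l 16358784))))) (l 1)) (l 1)) (a (a (b (a (b (l 16425368) (l 16425504)) (b (a (l 16380880) (l 16350720)) (l 16367544))) (a (l 16438888) (l 16372904))) (a (b (a (l 16342392) (l 16311936)) (l 16315536)) (b (l 1) (l 16256744)))) (b (l 1) (a (b (l 1) (l 16171872)) (l 1)))))) (l 1)) (a (b (b (a (a (b (a (l 16457072) (l 16384056)) (a (l 16447016) (l 16398584))) (b (b (l 16297896) (l 16306904)) (l 16321992))) (a (b (b (l 16182504) (l 16194384)) (l 16214112)) (b (l 1) (b (l 16094704) (l 16110616))))) (a (a (b (b (l 16518800) (l 16444720)) (l 16462520)) (b (l 16385512) (l 16365320))) (b (a (l 16242136) (b (l 16127312) (l 16144296))) (a (l 16270128) (l 16170464))))) (b (a (b (a (l 16510888) (l 16394240)) (l 16476288)) (b (l 16254048) (l 16290952))) (a (b (l 16509424) (l 16542272))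 (b (l 16332728) (l 16378688))))) (b (a (b (l 1) (b (a (l 139081774871) (l 1)) (a (l 16068072) (l 15966376)))) (l 1)) (b (a (b (a (l 16110872) (l 16013864)) (l 16110624)) (a (l 266856947879) (l 1))) (a (b (l 16159072) (l 16206656)) (b (l 220149267911) (l 16050608))))))), by decide +kernel⟩

theorem c_pm_202_b : CertB 1239849684 370763052 0 536870912 697932185 42949674 3 eng mog cd2q2b cd2q0 pd2 true true false .pp 2 0 2
    ndB2q2b ndB2q0 pcB2 cut_pm_202_b Ext.none :=
  certB1 (fam := true) (s1 := true) (s2 := false) (a := 2) (b := 0) (c := 2) (cn := .pp) (n1 := ndB2q2b) (n2 := ndB2q0) (pc := pcB2) (cut := cut_pm_202_b) (xt := Ext.none) (P1 := 1239849684) (W1 := 370763052) (P2 := 0) (W2 := 536870912) (P3 := 697932185) (W3 := 42949674) (N0 := 3) (En := eng) (mo := mog) (C1 := cd2q2b) (C2 := cd2q0) (C3 := pd2)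
    rfl (fun _ => rfl) k0_pm_202_b

noncomputable def f_pm_203_a : ℕ → ℕ → ℕ → ℕ → Bool := onCell 0 536870912 1610612736 536870912 697932185 42949674
    (rowB 3 eng mog cd2q2a cd2q0 pd3 1 true true false .up 2 0 3 (qsf 0 536870912 0 536870912 3) ndB2q2a ndB2q0 pcB3 Cut.none Ext.none)

def k0_pm_203_a : ∃ t, chk3 f_pm_203_a t 1 1 1 = true :=
  ⟨(b (a (b (b (a (b (l 16598624) (l 16630576)) (b (l 16550024) (l 16594568))) (a (l 16686600) (l 16650000))) (b (a (l 16738928) (b (l 16699168) (l 2))) (l 2))) (a (b (b (l 16526992) (l 16608096)) (l 2)) (b (b (a (l 16472496) (l 16440584)) (l 259409173319)) (l 2)))) (l 2)), by decide +kernel⟩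

theorem c_pm_203_a : CertB 0 536870912 0 536870912 697932185 42949674 3 eng mog cd2q2a cd2q0 pd3 true true false .up 2 0 3
    ndB2q2a ndB2q0 pcB3 Cut.none Ext.none :=
  certB1 (fam := true) (s1 := true) (s2 := false) (a := 2) (b := 0) (c := 3) (cn := .up) (n1 := ndB2q2a) (n2 := ndB2q0) (pc := pcB3) (cut := Cut.none) (xt := Ext.none) (P1 := 0) (W1 := 536870912) (P2 := 0) (W2 := 536870912) (P3 := 697932185) (W3 := 42949674) (N0 := 3) (En := eng) (mo := mog) (C1 := cd2q2a) (C2 := cd2q0) (C3 := pd3)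
    rfl (fun _ => rfl) k0_pm_203_a

noncomputable def f_pm_203_b : ℕ → ℕ → ℕ → ℕ → Bool := onCell 1239849684 370763052 1610612736 536870912 697932185 42949674
    (rowB 3 eng mog cd2q2b cd2q0 pd3 1 true true false .up 2 0 3 (qsf 1239849684 370763052 0 536870912 3) ndB2q2b ndB2q0 pcB3 Cut.none Ext.none)

def k0_pm_203_b : ∃ t, chk3 f_pm_203_b t 1 1 1 = true :=
  ⟨(b (b (a (b (a (b (l 16574288) (l 16596056)) (l 16452528)) (a (l 16622544) (l 16537736))) (b (a (l 16280544) (l 16120176)) (a (l 16381496) (l 16210848)))) (b (a (a (l 16721720) (l 16614760)) (a (l 16492040) (l 16332040))) (a (a (l 16764576) (l 16693400)) (a (l 16599816) (l 16472680))))) (b (l 4) (l 4))), by decide +kernel⟩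

theorem c_pm_203_b : CertB 1239849684 370763052 0 536870912 697932185 42949674 3 eng mog cd2q2b cd2q0 pd3 true true false .up 2 0 3
    ndB2q2b ndB2q0 pcB3 Cut.none Ext.none :=
  certB1 (fam := true) (s1 := true) (s2 := false) (a := 2) (b := 0) (c := 3) (cn := .up) (n1 := ndB2q2b) (n2 := ndB2q0) (pc := pcB3) (cut := Cut.none) (xt := Ext.none) (P1 := 1239849684) (W1 := 370763052) (P2 := 0) (W2 := 536870912) (P3 := 697932185) (W3 := 42949674) (N0 := 3) (En := eng) (mo := mog) (C1 := cd2q2b) (C2 := cd2q0) (C3 := pd3)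
    rfl (fun _ => rfl) k0_pm_203_b

noncomputable def f_pm_213_a : ℕ → ℕ → ℕ → ℕ → Bool := onCell 0 536870912 1610612736 536870912 697932185 42949674
    (rowB 3 eng mog cd2q2a cd2q1 pd3 1 true true false .pnn 2 1 3 (qsf 0 536870912 536870912 536870912 3) ndB2q2a ndB2q1 pcB3 Cut.none Ext.none)

def k0_pm_213_a : ∃ t, chk3 f_pm_213_a t 1 1 1 = true :=
  ⟨(a (b (b (b (l 1) (a (l 1) (l 16679760))) (b (a (l 16744368) (b (l 16715600) (l 16743744))) (a (l 16747632) (l 16787616)))) (b (a (b (l 82376394471) (l 4)) (b (l 16748864) (b (l 16706288) (l 16577608)))) (l 4))) (a (b (b (b (l 1) (l 16632136)) (b (b (l 16694896) (l 16747672)) (b (a (l 16791208) (l 16844664)) (l 16876632)))) (b (b (b (l 16861176) (l 16813816)) (b (l 16776112) (b (l 16752568) (l 16737448)))) (b (b (l 16755680) (b (l 16561416) (l 4))) (l 4)))) (b (b (b (a (l 16502280) (l 16464008)) (a (l 16599936) (l 16601632))) (b (b (b (l 16715328) (a (l 16717912) (l 16777192))) (a (l 16802952) (b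 (l 16867192) (l 16975888)))) (b (b (b (a (l 16878000) (l 17033432)) (l 16956904)) (a (l 16908712) (l 16938448))) (l 16969232)))) (b (b (a (l 16920136) (l 16964504)) (b (a (l 16837280) (l 16868752)) (a (l 16801872) (b (l 16834024) (l 16817520))))) (b (b (a (l 16771672) (l 16753640)) (a (l 16724816) (l 16770656))) (b (a (l 16684264) (b (l 16753528) (l 16634088))) (l 4))))))), by decide +kernel⟩

theorem c_pm_213_a : CertB 0 536870912 536870912 536870912 697932185 42949674 3 eng mog cd2q2a cd2q1 pd3 true true false .pnn 2 1 3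
    ndB2q2a ndB2q1 pcB3 Cut.none Ext.none :=
  certB1 (fam := true) (s1 := true) (s2 := false) (a := 2) (b := 1) (c := 3) (cn := .pnn) (n1 := ndB2q2a) (n2 := ndB2q1) (pc := pcB3) (cut := Cut.none) (xt := Ext.none) (P1 := 0) (W1 := 536870912) (P2 := 536870912) (W2 := 536870912) (P3 := 697932185) (W3 := 42949674) (N0 := 3) (En := eng) (mo := mog) (C1 := cd2q2a) (C2 := cd2q1) (C3 := pd3)
    rfl (fun _ => rfl) k0_pm_213_a

noncomputable def f_pm_213_b : ℕ → ℕ → ℕ → ℕ → Bool := onCell 1239849684 370763052 1610612736 536870912 697932185 42949674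
    (rowB 3 eng mog cd2q2b cd2q1 pd3 1 true true false .pnn 2 1 3 (qsf 1239849684 370763052 536870912 536870912 3) ndB2q2b ndB2q1 pcB3 Cut.none Ext.none)

def k0_pm_213_b : ∃ t, chk3 f_pm_213_b t 1 1 1 = true :=
  ⟨(a (b (b (l 1) (b (l 16967112) (a (l 16754864) (l 16743696)))) (l 4)) (b (l 1) (l 4))), by decide +kernel⟩

theorem c_pm_213_b : CertB 1239849684 370763052 536870912 536870912 697932185 42949674 3 eng mog cd2q2b cd2q1 pd3 true true false .pnn 2 1 3
    ndB2q2b ndB2q1 pcB3 Cut.none Ext.none :=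
  certB1 (fam := true) (s1 := true) (s2 := false) (a := 2) (b := 1) (c := 3) (cn := .pnn) (n1 := ndB2q2b) (n2 := ndB2q1) (pc := pcB3) (cut := Cut.none) (xt := Ext.none) (P1 := 1239849684) (W1 := 370763052) (P2 := 536870912) (W2 := 536870912) (P3 := 697932185) (W3 := 42949674) (N0 := 3) (En := eng) (mo := mog) (C1 := cd2q2b) (C2 := cd2q1) (C3 := pd3)
    rfl (fun _ => rfl) k0_pm_213_b

noncomputable def f_pm_303 : ℕ → ℕ → ℕ → ℕ → Bool := onCell 1610612736 536870912 0 536870912 697932185 42949674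
    (rowB 3 eng mog cd2q3 cd2q0 pd3 2 true true false .npn 3 0 3 (qsf 1610612736 536870912 0 536870912 3) ndB2q3 ndB2q0 pcB3 Cut.none Ext.none)

def k0_pm_303 : ∃ t, chk3 f_pm_303 t 1 1 1 = true :=
  ⟨(a (a (b (b (a (b (l 16048376) (l 16164656)) (b (l 16016704) (l 16136968))) (a (l 1) (l 16433256))) (l 1)) (b (a (b (l 16079248) (l 16321792)) (b (l 16136072) (l 16349592))) (a (l 1) (b (l 16573208) (l 1))))) (l 4)), by decide +kernel⟩

theorem c_pm_303 : CertB 1610612736 536870912 0 536870912 697932185 42949674 3 eng mog cd2q3 cd2q0 pd3 true true false .npn 3 0 3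
    ndB2q3 ndB2q0 pcB3 Cut.none Ext.none :=
  certB2 (fam := true) (s1 := true) (s2 := false) (a := 3) (b := 0) (c := 3) (cn := .npn) (n1 := ndB2q3) (n2 := ndB2q0) (pc := pcB3) (cut := Cut.none) (xt := Ext.none) (P1 := 1610612736) (W1 := 536870912) (P2 := 0) (W2 := 536870912) (P3 := 697932185) (W3 := 42949674) (N0 := 3) (En := eng) (mo := mog) (C1 := cd2q3) (C2 := cd2q0) (C3 := pd3)
    rfl (fun _ => rfl) k0_pm_303

noncomputable def f_pm_313 : ℕ → ℕ → ℕ → ℕ → Bool := onCell 1610612736 536870912 536870912 536870912 697932185 42949674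
    (rowB 3 eng mog cd2q3 cd2q1 pd3 0 true true false .dn 3 1 3 (qsf 1610612736 536870912 536870912 536870912 3) ndB2q3 ndB2q1 pcB3 Cut.none Ext.none)

def k0_pm_313 : ∃ t, chk3 f_pm_313 t 1 1 1 = true :=
  ⟨(l 4), by decide +kernel⟩

theorem c_pm_313 : CertB 1610612736 536870912 536870912 536870912 697932185 42949674 3 eng mog cd2q3 cd2q1 pd3 true true false .dn 3 1 3
    ndB2q3 ndB2q1 pcB3 Cut.none Ext.none :=
  certB0 (fam := true) (s1 := true) (s2 := false) (a := 3) (b := 1) (c := 3) (cn := .dn) (n1 := ndB2q3) (n2 := ndB2q1) (pc := pcB3) (cut := Cut.none) (xt := Ext.none) (P1 := 1610612736) (W1 := 536870912) (P2 := 536870912) (W2 := 536870912) (P3 := 697932185) (W3 := 42949674) (N0 := 3) (En := eng) (mo := mog) (C1 := cd2q3) (C2 := cd2q1) (C3 := pd3)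
    rfl k0_pm_313

noncomputable def f_mm_001 : ℕ → ℕ → ℕ → ℕ → Bool := onCell 0 536870912 0 536870912 697932185 42949674
    (rowB 3 eng mog cd2q0 cd2q0 pd1 0 true false false .up 0 0 1 (qsf 0 536870912 0 536870912 1) ndB2q0 ndB2q0 pcB1 Cut.none Ext.none)

def k0_mm_001 : ∃ t, chk3 f_mm_001 t 1 1 1 = true :=
  ⟨(l 4), by decide +kernel⟩

theorem c_mm_001 : CertB 0 536870912 0 536870912 697932185 42949674 3 eng mog cd2q0 cd2q0 pd1 true false false .up 0 0 1
    ndB2q0 ndB2q0 pcB1 Cut.none Ext.none :=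
  certB0 (fam := true) (s1 := false) (s2 := false) (a := 0) (b := 0) (c := 1) (cn := .up) (n1 := ndB2q0) (n2 := ndB2q0) (pc := pcB1) (cut := Cut.none) (xt := Ext.none) (P1 := 0) (W1 := 536870912) (P2 := 0) (W2 := 536870912) (P3 := 697932185) (W3 := 42949674) (N0 := 3) (En := eng) (mo := mog) (C1 := cd2q0) (C2 := cd2q0) (C3 := pd1)
    rfl k0_mm_001

noncomputable def f_mm_011 : ℕ → ℕ → ℕ → ℕ → Bool := onCell 0 536870912 536870912 536870912 697932185 42949674
    (rowB 3 eng mog cd2q0 cd2q1 pd1 0 true false false .pnn 0 1 1 (qsf 0 536870912 536870912 536870912 1) ndB2q0 ndB2q1 pcB1 Cut.none Ext.none)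

def k0_mm_011 : ∃ t, chk3 f_mm_011 t 1 1 1 = true :=
  ⟨(l 4), by decide +kernel⟩

theorem c_mm_011 : CertB 0 536870912 536870912 536870912 697932185 42949674 3 eng mog cd2q0 cd2q1 pd1 true false false .pnn 0 1 1
    ndB2q0 ndB2q1 pcB1 Cut.none Ext.none :=
  certB0 (fam := true) (s1 := false) (s2 := false) (a := 0) (b := 1) (c := 1) (cn := .pnn) (n1 := ndB2q0) (n2 := ndB2q1) (pc := pcB1) (cut := Cut.none) (xt := Ext.none) (P1 := 0) (W1 := 536870912) (P2 := 536870912) (W2 := 536870912) (P3 := 697932185) (W3 := 42949674) (N0 := 3) (En := eng) (mo := mog) (C1 := cd2q0) (C2 := cd2q1) (C3 := pd1)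
    rfl k0_mm_011

noncomputable def f_mm_012 : ℕ → ℕ → ℕ → ℕ → Bool := onCell 0 536870912 536870912 536870912 697932185 42949674
    (rowB 3 eng mog cd2q0 cd2q1 pd2 0 true false false .pnp 0 1 2 (qsf 0 536870912 536870912 536870912 2) ndB2q0 ndB2q1 pcB2 Cut.none Ext.none)

def k0_mm_012 : ∃ t, chk3 f_mm_012 t 1 1 1 = true :=
  ⟨(l 4), by decide +kernel⟩

theorem c_mm_012 : CertB 0 536870912 536870912 536870912 697932185 42949674 3 eng mog cd2q0 cd2q1 pd2 true false false .pnp 0 1 2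
    ndB2q0 ndB2q1 pcB2 Cut.none Ext.none :=
  certB0 (fam := true) (s1 := false) (s2 := false) (a := 0) (b := 1) (c := 2) (cn := .pnp) (n1 := ndB2q0) (n2 := ndB2q1) (pc := pcB2) (cut := Cut.none) (xt := Ext.none) (P1 := 0) (W1 := 536870912) (P2 := 536870912) (W2 := 536870912) (P3 := 697932185) (W3 := 42949674) (N0 := 3) (En := eng) (mo := mog) (C1 := cd2q0) (C2 := cd2q1) (C3 := pd2)
    rfl k0_mm_012

noncomputable def f_mm_022_a : ℕ → ℕ → ℕ → ℕ → Bool := onCell 0 536870912 0 536870912 697932185 42949674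
    (rowB 3 eng mog cd2q0 cd2q2a pd2 0 true false false .pp 0 2 2 (qsf 0 536870912 0 536870912 2) ndB2q0 ndB2q2a pcB2 Cut.none Ext.none)

def k0_mm_022_a : ∃ t, chk3 f_mm_022_a t 1 1 1 = true :=
  ⟨(l 5), by decide +kernel⟩

theorem c_mm_022_a : CertB 0 536870912 0 536870912 697932185 42949674 3 eng mog cd2q0 cd2q2a pd2 true false false .pp 0 2 2
    ndB2q0 ndB2q2a pcB2 Cut.none Ext.none :=
  certB0 (fam := true) (s1 := false) (s2 := false) (a := 0) (b := 2) (c := 2) (cn := .pp) (n1 := ndB2q0) (n2 := ndB2q2a) (pc := pcB2) (cut := Cut.none) (xt := Ext.none) (P1 := 0) (W1 := 536870912) (P2 := 0) (W2 := 536870912) (P3 := 697932185) (W3 := 42949674) (N0 := 3) (En := eng) (mo := mog) (C1 := cd2q0) (C2 := cd2q2a) (C3 := pd2)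
    rfl k0_mm_022_a

noncomputable def f_mm_022_b : ℕ → ℕ → ℕ → ℕ → Bool := onCell 0 536870912 1239849684 370763052 697932185 42949674
    (rowB 3 eng mog cd2q0 cd2q2b pd2 0 true false false .pp 0 2 2 (qsf 0 536870912 1239849684 370763052 2) ndB2q0 ndB2q2b pcB2 Cut.none Ext.none)

def k0_mm_022_b : ∃ t, chk3 f_mm_022_b t 1 1 1 = true :=
  ⟨(l 5), by decide +kernel⟩

theorem c_mm_022_b : CertB 0 536870912 1239849684 370763052 697932185 42949674 3 eng mog cd2q0 cd2q2b pd2 true false false .pp 0 2 2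
    ndB2q0 ndB2q2b pcB2 Cut.none Ext.none :=
  certB0 (fam := true) (s1 := false) (s2 := false) (a := 0) (b := 2) (c := 2) (cn := .pp) (n1 := ndB2q0) (n2 := ndB2q2b) (pc := pcB2) (cut := Cut.none) (xt := Ext.none) (P1 := 0) (W1 := 536870912) (P2 := 1239849684) (W2 := 370763052) (P3 := 697932185) (W3 := 42949674) (N0 := 3) (En := eng) (mo := mog) (C1 := cd2q0) (C2 := cd2q2b) (C3 := pd2)
    rfl k0_mm_022_b

noncomputable def f_mm_023_a : ℕ → ℕ → ℕ → ℕ → Bool := onCell 0 536870912 0 536870912 697932185 42949674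
    (rowB 3 eng mog cd2q0 cd2q2a pd3 0 true false false .up 0 2 3 (qsf 0 536870912 0 536870912 3) ndB2q0 ndB2q2a pcB3 Cut.none Ext.none)

def k0_mm_023_a : ∃ t, chk3 f_mm_023_a t 1 1 1 = true :=
  ⟨(l 5), by decide +kernel⟩

theorem c_mm_023_a : CertB 0 536870912 0 536870912 697932185 42949674 3 eng mog cd2q0 cd2q2a pd3 true false false .up 0 2 3
    ndB2q0 ndB2q2a pcB3 Cut.none Ext.none :=
  certB0 (fam := true) (s1 := false) (s2 := false) (a := 0) (b := 2) (c := 3) (cn := .up) (n1 := ndB2q0) (n2 := ndB2q2a) (pc := pcB3) (cut := Cut.none) (xt := Ext.none) (P1 := 0) (W1 := 536870912) (P2 := 0) (W2 := 536870912) (P3 := 697932185) (W3 := 42949674) (N0 := 3) (En := eng) (mo := mog) (C1 := cd2q0) (C2 := cd2q2a) (C3 := pd3)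
    rfl k0_mm_023_a

noncomputable def f_mm_023_b : ℕ → ℕ → ℕ → ℕ → Bool := onCell 0 536870912 1239849684 370763052 697932185 42949674
    (rowB 3 eng mog cd2q0 cd2q2b pd3 0 true false false .up 0 2 3 (qsf 0 536870912 1239849684 370763052 3) ndB2q0 ndB2q2b pcB3 Cut.none Ext.none)

def k0_mm_023_b : ∃ t, chk3 f_mm_023_b t 1 1 1 = true :=
  ⟨(l 5), by decide +kernel⟩

theorem c_mm_023_b : CertB 0 536870912 1239849684 370763052 697932185 42949674 3 eng mog cd2q0 cd2q2b pd3 true false false .up 0 2 3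
    ndB2q0 ndB2q2b pcB3 Cut.none Ext.none :=
  certB0 (fam := true) (s1 := false) (s2 := false) (a := 0) (b := 2) (c := 3) (cn := .up) (n1 := ndB2q0) (n2 := ndB2q2b) (pc := pcB3) (cut := Cut.none) (xt := Ext.none) (P1 := 0) (W1 := 536870912) (P2 := 1239849684) (W2 := 370763052) (P3 := 697932185) (W3 := 42949674) (N0 := 3) (En := eng) (mo := mog) (C1 := cd2q0) (C2 := cd2q2b) (C3 := pd3)
    rfl k0_mm_023_b

noncomputable def f_mm_033 : ℕ → ℕ → ℕ → ℕ → Bool := onCell 0 536870912 1610612736 536870912 697932185 42949674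
    (rowB 3 eng mog cd2q0 cd2q3 pd3 0 true false false .pnn 0 3 3 (qsf 0 536870912 1610612736 536870912 3) ndB2q0 ndB2q3 pcB3 Cut.none Ext.none)

def k0_mm_033 : ∃ t, chk3 f_mm_033 t 1 1 1 = true :=
  ⟨(l 5), by decide +kernel⟩

theorem c_mm_033 : CertB 0 536870912 1610612736 536870912 697932185 42949674 3 eng mog cd2q0 cd2q3 pd3 true false false .pnn 0 3 3
    ndB2q0 ndB2q3 pcB3 Cut.none Ext.none :=
  certB0 (fam := true) (s1 := false) (s2 := false) (a := 0) (b := 3) (c := 3) (cn := .pnn) (n1 := ndB2q0) (n2 := ndB2q3) (pc := pcB3) (cut := Cut.none) (xt := Ext.none) (P1 := 0) (W1 := 536870912) (P2 := 1610612736) (W2 := 536870912) (P3 := 697932185) (W3 := 42949674) (N0 := 3) (En := eng) (mo := mog) (C1 := cd2q0) (C2 := cd2q3) (C3 := pd3)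
    rfl k0_mm_033

noncomputable def f_mm_101 : ℕ → ℕ → ℕ → ℕ → Bool := onCell 536870912 536870912 0 536870912 697932185 42949674
    (rowB 3 eng mog cd2q1 cd2q0 pd1 0 true false false .npn 1 0 1 (qsf 536870912 536870912 0 536870912 1) ndB2q1 ndB2q0 pcB1 Cut.none Ext.none)

def k0_mm_101 : ∃ t, chk3 f_mm_101 t 1 1 1 = true :=
  ⟨(l 4), by decide +kernel⟩

theorem c_mm_101 : CertB 536870912 536870912 0 536870912 697932185 42949674 3 eng mog cd2q1 cd2q0 pd1 true false false .npn 1 0 1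
    ndB2q1 ndB2q0 pcB1 Cut.none Ext.none :=
  certB0 (fam := true) (s1 := false) (s2 := false) (a := 1) (b := 0) (c := 1) (cn := .npn) (n1 := ndB2q1) (n2 := ndB2q0) (pc := pcB1) (cut := Cut.none) (xt := Ext.none) (P1 := 536870912) (W1 := 536870912) (P2 := 0) (W2 := 536870912) (P3 := 697932185) (W3 := 42949674) (N0 := 3) (En := eng) (mo := mog) (C1 := cd2q1) (C2 := cd2q0) (C3 := pd1)
    rfl k0_mm_101

noncomputable def f_mm_102 : ℕ → ℕ → ℕ → ℕ → Bool := onCell 536870912 536870912 0 536870912 697932185 42949674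
    (rowB 3 eng mog cd2q1 cd2q0 pd2 0 true false false .npp 1 0 2 (qsf 536870912 536870912 0 536870912 2) ndB2q1 ndB2q0 pcB2 Cut.none Ext.none)

def k0_mm_102 : ∃ t, chk3 f_mm_102 t 1 1 1 = true :=
  ⟨(l 4), by decide +kernel⟩

theorem c_mm_102 : CertB 536870912 536870912 0 536870912 697932185 42949674 3 eng mog cd2q1 cd2q0 pd2 true false false .npp 1 0 2
    ndB2q1 ndB2q0 pcB2 Cut.none Ext.none :=
  certB0 (fam := true) (s1 := false) (s2 := false) (a := 1) (b := 0) (c := 2) (cn := .npp) (n1 := ndB2q1) (n2 := ndB2q0) (pc := pcB2) (cut := Cut.none) (xt := Ext.none) (P1 := 536870912) (W1 := 536870912) (P2 := 0) (W2 := 536870912) (P3 := 697932185) (W3 := 42949674) (N0 := 3) (En := eng) (mo := mog) (C1 := cd2q1) (C2 := cd2q0) (C3 := pd2)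
    rfl k0_mm_102

noncomputable def f_mm_112 : ℕ → ℕ → ℕ → ℕ → Bool := onCell 536870912 536870912 536870912 536870912 697932185 42949674
    (rowB 3 eng mog cd2q1 cd2q1 pd2 0 true false false .dn 1 1 2 (qsf 536870912 536870912 536870912 536870912 2) ndB2q1 ndB2q1 pcB2 Cut.none Ext.none)

def k0_mm_112 : ∃ t, chk3 f_mm_112 t 1 1 1 = true :=
  ⟨(l 4), by decide +kernel⟩

theorem c_mm_112 : CertB 536870912 536870912 536870912 536870912 697932185 42949674 3 eng mog cd2q1 cd2q1 pd2 true false false .dn 1 1 2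
    ndB2q1 ndB2q1 pcB2 Cut.none Ext.none :=
  certB0 (fam := true) (s1 := false) (s2 := false) (a := 1) (b := 1) (c := 2) (cn := .dn) (n1 := ndB2q1) (n2 := ndB2q1) (pc := pcB2) (cut := Cut.none) (xt := Ext.none) (P1 := 536870912) (W1 := 536870912) (P2 := 536870912) (W2 := 536870912) (P3 := 697932185) (W3 := 42949674) (N0 := 3) (En := eng) (mo := mog) (C1 := cd2q1) (C2 := cd2q1) (C3 := pd2)
    rfl k0_mm_112

noncomputable def f_mm_113 : ℕ → ℕ → ℕ → ℕ → Bool := onCell 536870912 536870912 536870912 536870912 697932185 42949674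
    (rowB 3 eng mog cd2q1 cd2q1 pd3 0 true false false .nn 1 1 3 (qsf 536870912 536870912 536870912 536870912 3) ndB2q1 ndB2q1 pcB3 Cut.none Ext.none)

def k0_mm_113 : ∃ t, chk3 f_mm_113 t 1 1 1 = true :=
  ⟨(l 4), by decide +kernel⟩

theorem c_mm_113 : CertB 536870912 536870912 536870912 536870912 697932185 42949674 3 eng mog cd2q1 cd2q1 pd3 true false false .nn 1 1 3
    ndB2q1 ndB2q1 pcB3 Cut.none Ext.none :=
  certB0 (fam := true) (s1 := false) (s2 := false) (a := 1) (b := 1) (c := 3) (cn := .nn) (n1 := ndB2q1) (n2 := ndB2q1) (pc := pcB3) (cut := Cut.none) (xt := Ext.none) (P1 := 536870912) (W1 := 536870912) (P2 := 536870912) (W2 := 536870912) (P3 := 697932185) (W3 := 42949674) (N0 := 3) (En := eng) (mo := mog) (C1 := cd2q1) (C2 := cd2q1) (C3 := pd3)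
    rfl k0_mm_113

noncomputable def f_mm_123_a : ℕ → ℕ → ℕ → ℕ → Bool := onCell 536870912 536870912 0 536870912 697932185 42949674
    (rowB 3 eng mog cd2q1 cd2q2a pd3 0 true false false .npn 1 2 3 (qsf 536870912 536870912 0 536870912 3) ndB2q1 ndB2q2a pcB3 Cut.none Ext.none)

def k0_mm_123_a : ∃ t, chk3 f_mm_123_a t 1 1 1 = true :=
  ⟨(l 4), by decide +kernel⟩

theorem c_mm_123_a : CertB 536870912 536870912 0 536870912 697932185 42949674 3 eng mog cd2q1 cd2q2a pd3 true false false .npn 1 2 3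
    ndB2q1 ndB2q2a pcB3 Cut.none Ext.none :=
  certB0 (fam := true) (s1 := false) (s2 := false) (a := 1) (b := 2) (c := 3) (cn := .npn) (n1 := ndB2q1) (n2 := ndB2q2a) (pc := pcB3) (cut := Cut.none) (xt := Ext.none) (P1 := 536870912) (W1 := 536870912) (P2 := 0) (W2 := 536870912) (P3 := 697932185) (W3 := 42949674) (N0 := 3) (En := eng) (mo := mog) (C1 := cd2q1) (C2 := cd2q2a) (C3 := pd3)
    rfl k0_mm_123_a

noncomputable def f_mm_123_b : ℕ → ℕ → ℕ → ℕ → Bool := onCell 536870912 536870912 1239849684 370763052 697932185 42949674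
    (rowB 3 eng mog cd2q1 cd2q2b pd3 0 true false false .npn 1 2 3 (qsf 536870912 536870912 1239849684 370763052 3) ndB2q1 ndB2q2b pcB3 Cut.none Ext.none)

def k0_mm_123_b : ∃ t, chk3 f_mm_123_b t 1 1 1 = true :=
  ⟨(l 4), by decide +kernel⟩

theorem c_mm_123_b : CertB 536870912 536870912 1239849684 370763052 697932185 42949674 3 eng mog cd2q1 cd2q2b pd3 true false false .npn 1 2 3
    ndB2q1 ndB2q2b pcB3 Cut.none Ext.none :=
  certB0 (fam := true) (s1 := false) (s2 := false) (a := 1) (b := 2) (c := 3) (cn := .npn) (n1 := ndB2q1) (n2 := ndB2q2b) (pc := pcB3) (cut := Cut.none) (xt := Ext.none) (P1 := 536870912) (W1 := 536870912) (P2 := 1239849684) (W2 := 370763052) (P3 := 697932185) (W3 := 42949674) (N0 := 3) (En := eng) (mo := mog) (C1 := cd2q1) (C2 := cd2q2b) (C3 := pd3)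
    rfl k0_mm_123_b

noncomputable def f_mm_133 : ℕ → ℕ → ℕ → ℕ → Bool := onCell 536870912 536870912 1610612736 536870912 697932185 42949674
    (rowB 3 eng mog cd2q1 cd2q3 pd3 0 true false false .dn 1 3 3 (qsf 536870912 536870912 1610612736 536870912 3) ndB2q1 ndB2q3 pcB3 Cut.none Ext.none)

def k0_mm_133 : ∃ t, chk3 f_mm_133 t 1 1 1 = true :=
  ⟨(l 4), by decide +kernel⟩

theorem c_mm_133 : CertB 536870912 536870912 1610612736 536870912 697932185 42949674 3 eng mog cd2q1 cd2q3 pd3 true false false .dn 1 3 3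
    ndB2q1 ndB2q3 pcB3 Cut.none Ext.none :=
  certB0 (fam := true) (s1 := false) (s2 := false) (a := 1) (b := 3) (c := 3) (cn := .dn) (n1 := ndB2q1) (n2 := ndB2q3) (pc := pcB3) (cut := Cut.none) (xt := Ext.none) (P1 := 536870912) (W1 := 536870912) (P2 := 1610612736) (W2 := 536870912) (P3 := 697932185) (W3 := 42949674) (N0 := 3) (En := eng) (mo := mog) (C1 := cd2q1) (C2 := cd2q3) (C3 := pd3)
    rfl k0_mm_133

noncomputable def cut_mm_202_a : Cut := Cut.of [[⟨0, 1, 0, 67108864⟩, ⟨1, 0, 0, 67108864⟩, ⟨2, 1, 0, 67108864⟩]]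

noncomputable def f_mm_202_a : ℕ → ℕ → ℕ → ℕ → Bool := onCell 0 536870912 0 536870912 697932185 42949674
    (rowB 3 eng mog cd2q2a cd2q0 pd2 0 true false false .pp 2 0 2 (qsf 0 536870912 0 536870912 2) ndB2q2a ndB2q0 pcB2 cut_mm_202_a Ext.none)

def k0_mm_202_a : ∃ t, chk3 f_mm_202_a t 2 2 1 = true :=
  ⟨(b (b (a (b (a (b (l 16422064) (l 16407600)) (b (l 16453288) (a (l 16455312) (b (l 16460416) (l 16465264))))) (a (l 16467144) (c (l 16394048) (l 16413936)))) (b (b (a (a (l 16426528) (l 16482592)) (a (l 16499464) (b (l 16517784) (l 16520608)))) (a (b (a (l 16472024) (l 16486648)) (a (l 16475864) (l 16490056))) (a (l 16463768) (l 16525848)))) (b (a (a (l 16485056) (b (l 16495008) (l 16501416))) (a (b (l 16448944) (l 16517456)) (l 16539928))) (a (l 16441688) (a (l 16527464) (b (l 16480288) (l 16549976))))))) (a (b (a (l 16489688) (l 16501504)) (l 16603056)) (a (b (l 16524016) (l 16550216)) (b (a (l 16484816) (l 16504384)) (l 16606504))))) (b (a (b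 (l 16539864) (a (l 16553584) (l 16572192))) (a (b (l 16576248) (l 16685472)) (b (l 16657200) (l 4)))) (a (b (a (l 16584416) (l 16604048)) (a (l 16615064) (l 16635720))) (a (b (l 31910205335) (l 4)) (l 4))))), by decide +kernel⟩

def k1_mm_202_a : ∃ t, chk3 f_mm_202_a t 3 2 1 = true :=
  ⟨(b (a (b (b (a (b (a (b (l 16540032) (l 16543056)) (b (l 16565024) (l 16568192))) (a (l 16548600) (l 16573968))) (b (a (b (l 16587888) (l 16596000)) (b (a (l 16606360) (l 16619760)) (l 16623824))) (a (a (l 16594624) (l 16609264)) (b (l 16630336) (l 16634752))))) (a (b (a (l 16515832) (l 16583488)) (a (c (l 16569680) (l 16568728)) (a (l 16588032) (l 16601672)))) (b (a (l 16611712) (l 16642384)) (a (l 16581416) (l 16654752))))) (b (b (a (a (l 16582632) (l 16639568)) (a (a (l 16629224) (l 16644744)) (l 16670672))) (a (l 16630808) (a (l 16716304) (l 4)))) (a (a (l 16619720) (l 16647672)) (l 4)))) (b (a (b (b (a (b (a (a (l 16630248) (l 16637504)) (a (l 16644952) (l 16652824)))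 (a (l 16645200) (l 16660616))) (b (a (b (l 6) (l 16647904)) (l 6)) (a (l 16677872) (b (l 6) (l 16699360))))) (a (a (l 16656912) (b (l 16671752) (l 16676280))) (a (b (l 16688728) (l 16692968)) (b (l 16705808) (l 16710704))))) (b (a (a (l 16666808) (l 16684528)) (b (a (l 16698688) (l 16718360)) (l 4))) (a (a (l 16681040) (l 4)) (l 4)))) (b (a (b (l 6) (a (b (l 6) (l 16741480)) (l 6))) (l 6)) (l 4))) (l 4))) (a (l 4) (l 4))), by decide +kernel⟩

def k2_mm_202_a : ∃ t, chk3 f_mm_202_a t 1 3 1 = true :=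
  ⟨(a (b (b (a (b (a (l 16646728) (l 4)) (l 4)) (l 4)) (l 4)) (l 4)) (l 4)), by decide +kernel⟩

theorem s3_mm_202_a : ∃ t, chk3 f_mm_202_a t 1 2 1 = true := ex3_a k0_mm_202_a k1_mm_202_a

theorem s4_mm_202_a : ∃ t, chk3 f_mm_202_a t 1 1 1 = true := ex3_b s3_mm_202_a k2_mm_202_a

theorem c_mm_202_a : CertB 0 536870912 0 536870912 697932185 42949674 3 eng mog cd2q2a cd2q0 pd2 true false false .pp 2 0 2
    ndB2q2a ndB2q0 pcB2 cut_mm_202_a Ext.none :=
  certB0 (fam := true) (s1 := false) (s2 := false) (a := 2) (b := 0) (c := 2) (cn := .pp) (n1 := ndB2q2a) (n2 := ndB2q0) (pc := pcB2) (cut := cut_mm_202_a) (xt := Ext.none) (P1 := 0) (W1 := 536870912) (P2 := 0) (W2 := 536870912) (P3 := 697932185) (W3 := 42949674) (N0 := 3) (En := eng) (mo := mog) (C1 := cd2q2a) (C2 := cd2q0) (C3 := pd2)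
    rfl s4_mm_202_a

noncomputable def cut_mm_202_b : Cut := Cut.of [[⟨0, 1, 0, 67108864⟩, ⟨1, 0, 0, 67108864⟩, ⟨2, 1, 0, 67108864⟩]]

noncomputable def f_mm_202_b : ℕ → ℕ → ℕ → ℕ → Bool := onCell 1073741824 536870912 0 536870912 697932185 42949674
    (rowB 3 eng mog cd2q2b cd2q0 pd2 2 true false false .pp 2 0 2 (qsf 1239849684 370763052 0 536870912 2) ndB2q2b ndB2q0 pcB2 cut_mm_202_b Ext.none)

def k0_mm_202_b : ∃ t, chk3 f_mm_202_b t 1 1 1 = true :=
  ⟨(a (b (a (l 1) (b (a (b (a (b (a (l 1) (l 16491088)) (l 1)) (a (b (l 208338648007) (l 1)) (b (l 16427648) (l 16497952)))) (l 1)) (b (b (a (l 16389912) (l 16319104)) (a (l 16462520) (l 16406664))) (a (l 320008122007) (b (l 16484128) (l 16555024))))) (l 1))) (l 1)) (a (b (b (a (b (a (l 16292904) (b (l 16184696) (l 16270752))) (a (l 16464504) (l 16398288))) (b (a (b (l 16126664) (l 16211504)) (l 16117848)) (a (l 16337576) (l 16303808)))) (a (b (a (l 164315706583) (l 16604808)) (l 1)) (a (b (l 16545000)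 (l 200823020279)) (b (l 16446592) (l 16615544))))) (l 1)) (b (a (b (b (a (l 16074416) (l 16038968)) (a (l 16235184) (l 16194712))) (b (a (l 16479616) (l 16350960)) (a (l 16566448) (l 16521400)))) (b (a (b (l 16010496) (l 16160664)) (b (l 15984248) (l 16130912))) (a (b (l 16312600) (l 16480832)) (l 4)))) (b (a (b (a (l 281890251607) (l 126198045095)) (l 1)) (l 4)) (l 1))))), by decide +kernel⟩

theorem c_mm_202_b : CertB 1239849684 370763052 0 536870912 697932185 42949674 3 eng mog cd2q2b cd2q0 pd2 true false false .pp 2 0 2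
    ndB2q2b ndB2q0 pcB2 cut_mm_202_b Ext.none :=
  certB2 (fam := true) (s1 := false) (s2 := false) (a := 2) (b := 0) (c := 2) (cn := .pp) (n1 := ndB2q2b) (n2 := ndB2q0) (pc := pcB2) (cut := cut_mm_202_b) (xt := Ext.none) (P1 := 1239849684) (W1 := 370763052) (P2 := 0) (W2 := 536870912) (P3 := 697932185) (W3 := 42949674) (N0 := 3) (En := eng) (mo := mog) (C1 := cd2q2b) (C2 := cd2q0) (C3 := pd2)
    rfl (fun _ => rfl) k0_mm_202_b

noncomputable def f_mm_203_a : ℕ → ℕ → ℕ → ℕ → Bool := onCell 0 536870912 1610612736 536870912 697932185 42949674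
    (rowB 3 eng mog cd2q2a cd2q0 pd3 1 true false false .up 2 0 3 (qsf 0 536870912 0 536870912 3) ndB2q2a ndB2q0 pcB3 Cut.none Ext.none)

def k0_mm_203_a : ∃ t, chk3 f_mm_203_a t 1 1 1 = true :=
  ⟨(b (l 4) (l 2)), by decide +kernel⟩

theorem c_mm_203_a : CertB 0 536870912 0 536870912 697932185 42949674 3 eng mog cd2q2a cd2q0 pd3 true false false .up 2 0 3
    ndB2q2a ndB2q0 pcB3 Cut.none Ext.none :=
  certB1 (fam := true) (s1 := false) (s2 := false) (a := 2) (b := 0) (c := 3) (cn := .up) (n1 := ndB2q2a) (n2 := ndB2q0) (pc := pcB3) (cut := Cut.none) (xt := Ext.none) (P1 := 0) (W1 := 536870912) (P2 := 0) (W2 := 536870912) (P3 := 697932185) (W3 := 42949674) (N0 := 3) (En := eng) (mo := mog) (C1 := cd2q2a) (C2 := cd2q0) (C3 := pd3)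
    rfl (fun _ => rfl) k0_mm_203_a

noncomputable def f_mm_203_b : ℕ → ℕ → ℕ → ℕ → Bool := onCell 1239849684 370763052 1610612736 536870912 697932185 42949674
    (rowB 3 eng mog cd2q2b cd2q0 pd3 1 true false false .up 2 0 3 (qsf 1239849684 370763052 0 536870912 3) ndB2q2b ndB2q0 pcB3 Cut.none Ext.none)

def k0_mm_203_b : ∃ t, chk3 f_mm_203_b t 1 1 1 = true :=
  ⟨(b (b (a (l 4) (b (a (l 4) (b (l 16025264) (l 4))) (l 4))) (l 4)) (l 4)), by decide +kernel⟩

theorem c_mm_203_b : CertB 1239849684 370763052 0 536870912 697932185 42949674 3 eng mog cd2q2b cd2q0 pd3 true false false .up 2 0 3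
    ndB2q2b ndB2q0 pcB3 Cut.none Ext.none :=
  certB1 (fam := true) (s1 := false) (s2 := false) (a := 2) (b := 0) (c := 3) (cn := .up) (n1 := ndB2q2b) (n2 := ndB2q0) (pc := pcB3) (cut := Cut.none) (xt := Ext.none) (P1 := 1239849684) (W1 := 370763052) (P2 := 0) (W2 := 536870912) (P3 := 697932185) (W3 := 42949674) (N0 := 3) (En := eng) (mo := mog) (C1 := cd2q2b) (C2 := cd2q0) (C3 := pd3)
    rfl (fun _ => rfl) k0_mm_203_b

noncomputable def f_mm_213_a : ℕ → ℕ → ℕ → ℕ → Bool := onCell 0 536870912 536870912 536870912 697932185 42949674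
    (rowB 3 eng mog cd2q2a cd2q1 pd3 0 true false false .pnn 2 1 3 (qsf 0 536870912 536870912 536870912 3) ndB2q2a ndB2q1 pcB3 Cut.none Ext.none)

def k0_mm_213_a : ∃ t, chk3 f_mm_213_a t 1 1 1 = true :=
  ⟨(l 4), by decide +kernel⟩

theorem c_mm_213_a : CertB 0 536870912 536870912 536870912 697932185 42949674 3 eng mog cd2q2a cd2q1 pd3 true false false .pnn 2 1 3
    ndB2q2a ndB2q1 pcB3 Cut.none Ext.none :=
  certB0 (fam := true) (s1 := false) (s2 := false) (a := 2) (b := 1) (c := 3) (cn := .pnn) (n1 := ndB2q2a) (n2 := ndB2q1) (pc := pcB3) (cut := Cut.none) (xt := Ext.none) (P1 := 0) (W1 := 536870912) (P2 := 536870912) (W2 := 536870912) (P3 := 697932185) (W3 := 42949674) (N0 := 3) (En := eng) (mo := mog) (C1 := cd2q2a) (C2 := cd2q1) (C3 := pd3)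
    rfl k0_mm_213_a

noncomputable def f_mm_213_b : ℕ → ℕ → ℕ → ℕ → Bool := onCell 1239849684 370763052 536870912 536870912 697932185 42949674
    (rowB 3 eng mog cd2q2b cd2q1 pd3 0 true false false .pnn 2 1 3 (qsf 1239849684 370763052 536870912 536870912 3) ndB2q2b ndB2q1 pcB3 Cut.none Ext.none)

def k0_mm_213_b : ∃ t, chk3 f_mm_213_b t 1 1 1 = true :=
  ⟨(l 4), by decide +kernel⟩

theorem c_mm_213_b : CertB 1239849684 370763052 536870912 536870912 697932185 42949674 3 eng mog cd2q2b cd2q1 pd3 true false false .pnn 2 1 3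
    ndB2q2b ndB2q1 pcB3 Cut.none Ext.none :=
  certB0 (fam := true) (s1 := false) (s2 := false) (a := 2) (b := 1) (c := 3) (cn := .pnn) (n1 := ndB2q2b) (n2 := ndB2q1) (pc := pcB3) (cut := Cut.none) (xt := Ext.none) (P1 := 1239849684) (W1 := 370763052) (P2 := 536870912) (W2 := 536870912) (P3 := 697932185) (W3 := 42949674) (N0 := 3) (En := eng) (mo := mog) (C1 := cd2q2b) (C2 := cd2q1) (C3 := pd3)
    rfl k0_mm_213_b

noncomputable def f_mm_303 : ℕ → ℕ → ℕ → ℕ → Bool := onCell 1610612736 536870912 0 536870912 697932185 42949674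
    (rowB 3 eng mog cd2q3 cd2q0 pd3 2 true false false .npn 3 0 3 (qsf 1610612736 536870912 0 536870912 3) ndB2q3 ndB2q0 pcB3 Cut.none Ext.none)

def k0_mm_303 : ∃ t, chk3 f_mm_303 t 1 1 1 = true :=
  ⟨(a (a (b (a (b (b (a (l 15952024) (l 4)) (l 4)) (l 1)) (l 4)) (l 1)) (l 4)) (l 4)), by decide +kernel⟩

theorem c_mm_303 : CertB 1610612736 536870912 0 536870912 697932185 42949674 3 eng mog cd2q3 cd2q0 pd3 true false false .npn 3 0 3
    ndB2q3 ndB2q0 pcB3 Cut.none Ext.none :=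
  certB2 (fam := true) (s1 := false) (s2 := false) (a := 3) (b := 0) (c := 3) (cn := .npn) (n1 := ndB2q3) (n2 := ndB2q0) (pc := pcB3) (cut := Cut.none) (xt := Ext.none) (P1 := 1610612736) (W1 := 536870912) (P2 := 0) (W2 := 536870912) (P3 := 697932185) (W3 := 42949674) (N0 := 3) (En := eng) (mo := mog) (C1 := cd2q3) (C2 := cd2q0) (C3 := pd3)
    rfl (fun _ => rfl) k0_mm_303

noncomputable def f_mm_313 : ℕ → ℕ → ℕ → ℕ → Bool := onCell 1610612736 536870912 536870912 536870912 697932185 42949674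
    (rowB 3 eng mog cd2q3 cd2q1 pd3 0 true false false .dn 3 1 3 (qsf 1610612736 536870912 536870912 536870912 3) ndB2q3 ndB2q1 pcB3 Cut.none Ext.none)

def k0_mm_313 : ∃ t, chk3 f_mm_313 t 1 1 1 = true :=
  ⟨(l 4), by decide +kernel⟩

theorem c_mm_313 : CertB 1610612736 536870912 536870912 536870912 697932185 42949674 3 eng mog cd2q3 cd2q1 pd3 true false false .dn 3 1 3
    ndB2q3 ndB2q1 pcB3 Cut.none Ext.none :=
  certB0 (fam := true) (s1 := false) (s2 := false) (a := 3) (b := 1) (c := 3) (cn := .dn) (n1 := ndB2q3) (n2 := ndB2q1) (pc := pcB3) (cut := Cut.none) (xt := Ext.none) (P1 := 1610612736) (W1 := 536870912) (P2 := 536870912) (W2 := 536870912) (P3 := 697932185) (W3 := 42949674) (N0 := 3) (En := eng) (mo := mog) (C1 := cd2q3) (C2 := cd2q1) (C3 := pd3)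
    rfl k0_mm_313

end Pool.Agent.Strip051.G.I6500_6900.Tab.C.BA22

namespace Pool.Agent.Strip051.G.I6500_6900.Tab.C.BA23

open Pool.Agent.Strip051.PB Pool.Agent.Strip051.PB.T
open Pool.Agent.Strip051.G.I6500_6900.Tab

noncomputable def f_pp_001 : ℕ → ℕ → ℕ → ℕ → Bool := onCell 0 536870912 0 536870912 697932185 42949674
    (rowB 3 eng mog cd2q0 cd3q0 pd1 0 true true true .up 0 0 1 (qsf 0 536870912 0 536870912 1) ndB2q0 ndB3q0 pcB1 Cut.none Ext.none)

def k0_pp_001 : ∃ t, chk3 f_pp_001 t 1 1 1 = true :=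
  ⟨(l 4), by decide +kernel⟩

theorem c_pp_001 : CertB 0 536870912 0 536870912 697932185 42949674 3 eng mog cd2q0 cd3q0 pd1 true true true .up 0 0 1
    ndB2q0 ndB3q0 pcB1 Cut.none Ext.none :=
  certB0 (fam := true) (s1 := true) (s2 := true) (a := 0) (b := 0) (c := 1) (cn := .up) (n1 := ndB2q0) (n2 := ndB3q0) (pc := pcB1) (cut := Cut.none) (xt := Ext.none) (P1 := 0) (W1 := 536870912) (P2 := 0) (W2 := 536870912) (P3 := 697932185) (W3 := 42949674) (N0 := 3) (En := eng) (mo := mog) (C1 := cd2q0) (C2 := cd3q0) (C3 := pd1)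
    rfl k0_pp_001

noncomputable def f_pp_011 : ℕ → ℕ → ℕ → ℕ → Bool := onCell 0 536870912 536870912 536870912 697932185 42949674
    (rowB 3 eng mog cd2q0 cd3q1 pd1 0 true true true .pnn 0 1 1 (qsf 0 536870912 536870912 536870912 1) ndB2q0 ndB3q1 pcB1 Cut.none Ext.none)

def k0_pp_011 : ∃ t, chk3 f_pp_011 t 1 1 1 = true :=
  ⟨(l 4), by decide +kernel⟩

theorem c_pp_011 : CertB 0 536870912 536870912 536870912 697932185 42949674 3 eng mog cd2q0 cd3q1 pd1 true true true .pnn 0 1 1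
    ndB2q0 ndB3q1 pcB1 Cut.none Ext.none :=
  certB0 (fam := true) (s1 := true) (s2 := true) (a := 0) (b := 1) (c := 1) (cn := .pnn) (n1 := ndB2q0) (n2 := ndB3q1) (pc := pcB1) (cut := Cut.none) (xt := Ext.none) (P1 := 0) (W1 := 536870912) (P2 := 536870912) (W2 := 536870912) (P3 := 697932185) (W3 := 42949674) (N0 := 3) (En := eng) (mo := mog) (C1 := cd2q0) (C2 := cd3q1) (C3 := pd1)
    rfl k0_pp_011

noncomputable def f_pp_012 : ℕ → ℕ → ℕ → ℕ → Bool := onCell 0 536870912 536870912 536870912 697932185 42949674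
    (rowB 3 eng mog cd2q0 cd3q1 pd2 0 true true true .pnp 0 1 2 (qsf 0 536870912 536870912 536870912 2) ndB2q0 ndB3q1 pcB2 Cut.none Ext.none)

def k0_pp_012 : ∃ t, chk3 f_pp_012 t 1 1 1 = true :=
  ⟨(l 4), by decide +kernel⟩

theorem c_pp_012 : CertB 0 536870912 536870912 536870912 697932185 42949674 3 eng mog cd2q0 cd3q1 pd2 true true true .pnp 0 1 2
    ndB2q0 ndB3q1 pcB2 Cut.none Ext.none :=
  certB0 (fam := true) (s1 := true) (s2 := true) (a := 0) (b := 1) (c := 2) (cn := .pnp) (n1 := ndB2q0) (n2 := ndB3q1) (pc := pcB2) (cut := Cut.none) (xt := Ext.none) (P1 := 0) (W1 := 536870912) (P2 := 536870912) (W2 := 536870912) (P3 := 697932185) (W3 := 42949674) (N0 := 3) (En := eng) (mo := mog) (C1 := cd2q0) (C2 := cd3q1) (C3 := pd2)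
    rfl k0_pp_012

noncomputable def cut_pp_022_a : Cut := Cut.of [[⟨0, 0, 0, 67108864⟩, ⟨1, 1, 0, 67108864⟩, ⟨2, 1, 0, 67108864⟩]]

noncomputable def f_pp_022_a : ℕ → ℕ → ℕ → ℕ → Bool := onCell 0 536870912 0 536870912 697932185 42949674
    (rowB 3 eng mog cd2q0 cd3q2a pd2 0 true true true .pp 0 2 2 (qsf 0 536870912 0 536870912 2) ndB2q0 ndB3q2a pcB2 cut_pp_022_a Ext.none)

def k0_pp_022_a : ∃ t, chk3 f_pp_022_a t 1 1 1 = true :=
  ⟨(a (b (a (a (b (a (a (b (b (l 16439240) (l 16443856)) (b (l 16450912) (l 16460400))) (b (b (l 16450432) (l 16455184)) (b (l 16420280) (l 16471680)))) (b (l 16389280) (l 16487632))) (a (a (b (l 16479896) (b (l 16504032) (l 16523344))) (b (b (l 16483848) (l 16498528)) (l 16525400))) (a (b (l 16504736) (a (l 16535304) (l 16616104))) (b (l 16519232) (l 16639008))))) (b (a (b (l 16500616) (l 16516632)) (a (l 16531552) (l 16545616))) (a (b (l 16543488) (l 4)) (l 4)))) (a (l 4) (l 4))) (a (a (a (a (b (b (b (l 16545016) (l 16569088))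 (b (l 16614408) (a (l 16615120) (l 16625536)))) (b (b (a (b (l 16637152) (l 16652976)) (b (l 16647808) (l 16663336))) (a (b (l 16670088) (l 6)) (b (l 16679792) (l 4)))) (l 6))) (b (b (b (l 16556704) (l 16580960)) (b (l 16608136) (a (l 16633768) (l 4)))) (b (l 4) (l 4)))) (b (b (a (a (l 16580040) (l 16588760)) (l 4)) (l 4)) (l 4))) (l 4)) (l 4))) (l 4)), by decide +kernel⟩

theorem c_pp_022_a : CertB 0 536870912 0 536870912 697932185 42949674 3 eng mog cd2q0 cd3q2a pd2 true true true .pp 0 2 2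
    ndB2q0 ndB3q2a pcB2 cut_pp_022_a Ext.none :=
  certB0 (fam := true) (s1 := true) (s2 := true) (a := 0) (b := 2) (c := 2) (cn := .pp) (n1 := ndB2q0) (n2 := ndB3q2a) (pc := pcB2) (cut := cut_pp_022_a) (xt := Ext.none) (P1 := 0) (W1 := 536870912) (P2 := 0) (W2 := 536870912) (P3 := 697932185) (W3 := 42949674) (N0 := 3) (En := eng) (mo := mog) (C1 := cd2q0) (C2 := cd3q2a) (C3 := pd2)
    rfl k0_pp_022_a

noncomputable def cut_pp_022_b : Cut := Cut.of [[⟨0, 0, 0, 67108864⟩, ⟨1, 1, 0, 67108864⟩, ⟨2, 1, 0, 67108864⟩]]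

noncomputable def f_pp_022_b : ℕ → ℕ → ℕ → ℕ → Bool := onCell 0 536870912 1073741824 536870912 697932185 42949674
    (rowB 3 eng mog cd2q0 cd3q2b pd2 1 true true true .pp 0 2 2 (qsf 0 536870912 1239849684 370763052 2) ndB2q0 ndB3q2b pcB2 cut_pp_022_b Ext.none)

def k0_pp_022_b : ∃ t, chk3 f_pp_022_b t 1 1 1 = true :=
  ⟨(b (b (l 1) (a (a (b (a (b (a (b (l 1) (a (l 150893773271) (l 1))) (l 1)) (b (a (a (b (l 16443112) (l 16425872)) (l 177737351047)) (l 1)) (a (a (l 16403192) (l 16445952)) (a (l 16489096) (l 1))))) (l 1)) (a (a (b (a (l 16359104) (l 16401528)) (l 16321080)) (b (c (l 16483720) (l 16479776)) (l 16406240))) (b (a (l 286185356471) (l 1)) (a (l 16492968) (l 295849104631))))) (l 1)) (l 1))) (b (a (a (b (a (a (b (l 16261408) (l 16193176)) (b (l 16346096) (l 16279568))) (a (b (l 16432744) (l 16366936)) (b (l 16520688) (l 16455536)))) (a (b (b (l 16187656) (l 16157296)) (a (l 16073176) (l 4))) (l 4))) (b (a (b (a (l 16651608) (l 1)) (l 4))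 (l 1)) (l 4))) (l 1)) (a (b (l 4) (l 4)) (l 4)))), by decide +kernel⟩

theorem c_pp_022_b : CertB 0 536870912 1239849684 370763052 697932185 42949674 3 eng mog cd2q0 cd3q2b pd2 true true true .pp 0 2 2
    ndB2q0 ndB3q2b pcB2 cut_pp_022_b Ext.none :=
  certB1 (fam := true) (s1 := true) (s2 := true) (a := 0) (b := 2) (c := 2) (cn := .pp) (n1 := ndB2q0) (n2 := ndB3q2b) (pc := pcB2) (cut := cut_pp_022_b) (xt := Ext.none) (P1 := 0) (W1 := 536870912) (P2 := 1239849684) (W2 := 370763052) (P3 := 697932185) (W3 := 42949674) (N0 := 3) (En := eng) (mo := mog) (C1 := cd2q0) (C2 := cd3q2b) (C3 := pd2)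
    rfl (fun _ => rfl) k0_pp_022_b

noncomputable def f_pp_023_a : ℕ → ℕ → ℕ → ℕ → Bool := onCell 1610612736 536870912 0 536870912 697932185 42949674
    (rowB 3 eng mog cd2q0 cd3q2a pd3 2 true true true .up 0 2 3 (qsf 0 536870912 0 536870912 3) ndB2q0 ndB3q2a pcB3 Cut.none Ext.none)

def k0_pp_023_a : ∃ t, chk3 f_pp_023_a t 1 1 1 = true :=
  ⟨(l 4), by decide +kernel⟩

theorem c_pp_023_a : CertB 0 536870912 0 536870912 697932185 42949674 3 eng mog cd2q0 cd3q2a pd3 true true true .up 0 2 3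
    ndB2q0 ndB3q2a pcB3 Cut.none Ext.none :=
  certB2 (fam := true) (s1 := true) (s2 := true) (a := 0) (b := 2) (c := 3) (cn := .up) (n1 := ndB2q0) (n2 := ndB3q2a) (pc := pcB3) (cut := Cut.none) (xt := Ext.none) (P1 := 0) (W1 := 536870912) (P2 := 0) (W2 := 536870912) (P3 := 697932185) (W3 := 42949674) (N0 := 3) (En := eng) (mo := mog) (C1 := cd2q0) (C2 := cd3q2a) (C3 := pd3)
    rfl (fun _ => rfl) k0_pp_023_a

noncomputable def f_pp_023_b : ℕ → ℕ → ℕ → ℕ → Bool := onCell 1610612736 536870912 1239849684 370763052 697932185 42949674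
    (rowB 3 eng mog cd2q0 cd3q2b pd3 2 true true true .up 0 2 3 (qsf 0 536870912 1239849684 370763052 3) ndB2q0 ndB3q2b pcB3 Cut.none Ext.none)

def k0_pp_023_b : ∃ t, chk3 f_pp_023_b t 1 1 1 = true :=
  ⟨(l 4), by decide +kernel⟩

theorem c_pp_023_b : CertB 0 536870912 1239849684 370763052 697932185 42949674 3 eng mog cd2q0 cd3q2b pd3 true true true .up 0 2 3
    ndB2q0 ndB3q2b pcB3 Cut.none Ext.none :=
  certB2 (fam := true) (s1 := true) (s2 := true) (a := 0) (b := 2) (c := 3) (cn := .up) (n1 := ndB2q0) (n2 := ndB3q2b) (pc := pcB3) (cut := Cut.none) (xt := Ext.none) (P1 := 0) (W1 := 536870912) (P2 := 1239849684) (W2 := 370763052) (P3 := 697932185) (W3 := 42949674) (N0 := 3) (En := eng) (mo := mog) (C1 := cd2q0) (C2 := cd3q2b) (C3 := pd3)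
    rfl (fun _ => rfl) k0_pp_023_b

noncomputable def f_pp_033 : ℕ → ℕ → ℕ → ℕ → Bool := onCell 0 536870912 1610612736 536870912 697932185 42949674
    (rowB 3 eng mog cd2q0 cd3q3 pd3 0 true true true .pnn 0 3 3 (qsf 0 536870912 1610612736 536870912 3) ndB2q0 ndB3q3 pcB3 Cut.none Ext.none)

def k0_pp_033 : ∃ t, chk3 f_pp_033 t 1 1 1 = true :=
  ⟨(a (l 4) (l 4)), by decide +kernel⟩

theorem c_pp_033 : CertB 0 536870912 1610612736 536870912 697932185 42949674 3 eng mog cd2q0 cd3q3 pd3 true true true .pnn 0 3 3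
    ndB2q0 ndB3q3 pcB3 Cut.none Ext.none :=
  certB0 (fam := true) (s1 := true) (s2 := true) (a := 0) (b := 3) (c := 3) (cn := .pnn) (n1 := ndB2q0) (n2 := ndB3q3) (pc := pcB3) (cut := Cut.none) (xt := Ext.none) (P1 := 0) (W1 := 536870912) (P2 := 1610612736) (W2 := 536870912) (P3 := 697932185) (W3 := 42949674) (N0 := 3) (En := eng) (mo := mog) (C1 := cd2q0) (C2 := cd3q3) (C3 := pd3)
    rfl k0_pp_033

noncomputable def f_pp_101 : ℕ → ℕ → ℕ → ℕ → Bool := onCell 536870912 536870912 0 536870912 697932185 42949674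
    (rowB 3 eng mog cd2q1 cd3q0 pd1 0 true true true .npn 1 0 1 (qsf 536870912 536870912 0 536870912 1) ndB2q1 ndB3q0 pcB1 Cut.none Ext.none)

def k0_pp_101 : ∃ t, chk3 f_pp_101 t 1 1 1 = true :=
  ⟨(l 4), by decide +kernel⟩

theorem c_pp_101 : CertB 536870912 536870912 0 536870912 697932185 42949674 3 eng mog cd2q1 cd3q0 pd1 true true true .npn 1 0 1
    ndB2q1 ndB3q0 pcB1 Cut.none Ext.none :=
  certB0 (fam := true) (s1 := true) (s2 := true) (a := 1) (b := 0) (c := 1) (cn := .npn) (n1 := ndB2q1) (n2 := ndB3q0) (pc := pcB1) (cut := Cut.none) (xt := Ext.none) (P1 := 536870912) (W1 := 536870912) (P2 := 0) (W2 := 536870912) (P3 := 697932185) (W3 := 42949674) (N0 := 3) (En := eng) (mo := mog) (C1 := cd2q1) (C2 := cd3q0) (C3 := pd1)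
    rfl k0_pp_101

noncomputable def f_pp_102 : ℕ → ℕ → ℕ → ℕ → Bool := onCell 536870912 536870912 0 536870912 697932185 42949674
    (rowB 3 eng mog cd2q1 cd3q0 pd2 0 true true true .npp 1 0 2 (qsf 536870912 536870912 0 536870912 2) ndB2q1 ndB3q0 pcB2 Cut.none Ext.none)

def k0_pp_102 : ∃ t, chk3 f_pp_102 t 1 1 1 = true :=
  ⟨(l 4), by decide +kernel⟩

theorem c_pp_102 : CertB 536870912 536870912 0 536870912 697932185 42949674 3 eng mog cd2q1 cd3q0 pd2 true true true .npp 1 0 2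
    ndB2q1 ndB3q0 pcB2 Cut.none Ext.none :=
  certB0 (fam := true) (s1 := true) (s2 := true) (a := 1) (b := 0) (c := 2) (cn := .npp) (n1 := ndB2q1) (n2 := ndB3q0) (pc := pcB2) (cut := Cut.none) (xt := Ext.none) (P1 := 536870912) (W1 := 536870912) (P2 := 0) (W2 := 536870912) (P3 := 697932185) (W3 := 42949674) (N0 := 3) (En := eng) (mo := mog) (C1 := cd2q1) (C2 := cd3q0) (C3 := pd2)
    rfl k0_pp_102

noncomputable def f_pp_112 : ℕ → ℕ → ℕ → ℕ → Bool := onCell 536870912 536870912 536870912 536870912 697932185 42949674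
    (rowB 3 eng mog cd2q1 cd3q1 pd2 0 true true true .dn 1 1 2 (qsf 536870912 536870912 536870912 536870912 2) ndB2q1 ndB3q1 pcB2 Cut.none Ext.none)

def k0_pp_112 : ∃ t, chk3 f_pp_112 t 1 1 1 = true :=
  ⟨(l 4), by decide +kernel⟩

theorem c_pp_112 : CertB 536870912 536870912 536870912 536870912 697932185 42949674 3 eng mog cd2q1 cd3q1 pd2 true true true .dn 1 1 2
    ndB2q1 ndB3q1 pcB2 Cut.none Ext.none :=
  certB0 (fam := true) (s1 := true) (s2 := true) (a := 1) (b := 1) (c := 2) (cn := .dn) (n1 := ndB2q1) (n2 := ndB3q1) (pc := pcB2) (cut := Cut.none) (xt := Ext.none) (P1 := 536870912) (W1 := 536870912) (P2 := 536870912) (W2 := 536870912) (P3 := 697932185) (W3 := 42949674) (N0 := 3) (En := eng) (mo := mog) (C1 := cd2q1) (C2 := cd3q1) (C3 := pd2)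
    rfl k0_pp_112

noncomputable def f_pp_113 : ℕ → ℕ → ℕ → ℕ → Bool := onCell 536870912 536870912 536870912 536870912 697932185 42949674
    (rowB 3 eng mog cd2q1 cd3q1 pd3 0 true true true .nn 1 1 3 (qsf 536870912 536870912 536870912 536870912 3) ndB2q1 ndB3q1 pcB3 Cut.none Ext.none)

def k0_pp_113 : ∃ t, chk3 f_pp_113 t 1 1 1 = true :=
  ⟨(l 4), by decide +kernel⟩

theorem c_pp_113 : CertB 536870912 536870912 536870912 536870912 697932185 42949674 3 eng mog cd2q1 cd3q1 pd3 true true true .nn 1 1 3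
    ndB2q1 ndB3q1 pcB3 Cut.none Ext.none :=
  certB0 (fam := true) (s1 := true) (s2 := true) (a := 1) (b := 1) (c := 3) (cn := .nn) (n1 := ndB2q1) (n2 := ndB3q1) (pc := pcB3) (cut := Cut.none) (xt := Ext.none) (P1 := 536870912) (W1 := 536870912) (P2 := 536870912) (W2 := 536870912) (P3 := 697932185) (W3 := 42949674) (N0 := 3) (En := eng) (mo := mog) (C1 := cd2q1) (C2 := cd3q1) (C3 := pd3)
    rfl k0_pp_113

noncomputable def f_pp_123_a : ℕ → ℕ → ℕ → ℕ → Bool := onCell 536870912 536870912 0 536870912 697932185 42949674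
    (rowB 3 eng mog cd2q1 cd3q2a pd3 0 true true true .npn 1 2 3 (qsf 536870912 536870912 0 536870912 3) ndB2q1 ndB3q2a pcB3 Cut.none Ext.none)

def k0_pp_123_a : ∃ t, chk3 f_pp_123_a t 1 1 1 = true :=
  ⟨(l 4), by decide +kernel⟩

theorem c_pp_123_a : CertB 536870912 536870912 0 536870912 697932185 42949674 3 eng mog cd2q1 cd3q2a pd3 true true true .npn 1 2 3
    ndB2q1 ndB3q2a pcB3 Cut.none Ext.none :=
  certB0 (fam := true) (s1 := true) (s2 := true) (a := 1) (b := 2) (c := 3) (cn := .npn) (n1 := ndB2q1) (n2 := ndB3q2a) (pc := pcB3) (cut := Cut.none) (xt := Ext.none) (P1 := 536870912) (W1 := 536870912) (P2 := 0) (W2 := 536870912) (P3 := 697932185) (W3 := 42949674) (N0 := 3) (En := eng) (mo := mog) (C1 := cd2q1) (C2 := cd3q2a) (C3 := pd3)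
    rfl k0_pp_123_a

noncomputable def f_pp_123_b : ℕ → ℕ → ℕ → ℕ → Bool := onCell 536870912 536870912 1239849684 370763052 697932185 42949674
    (rowB 3 eng mog cd2q1 cd3q2b pd3 0 true true true .npn 1 2 3 (qsf 536870912 536870912 1239849684 370763052 3) ndB2q1 ndB3q2b pcB3 Cut.none Ext.none)

def k0_pp_123_b : ∃ t, chk3 f_pp_123_b t 1 1 1 = true :=
  ⟨(l 4), by decide +kernel⟩

theorem c_pp_123_b : CertB 536870912 536870912 1239849684 370763052 697932185 42949674 3 eng mog cd2q1 cd3q2b pd3 true true true .npn 1 2 3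
    ndB2q1 ndB3q2b pcB3 Cut.none Ext.none :=
  certB0 (fam := true) (s1 := true) (s2 := true) (a := 1) (b := 2) (c := 3) (cn := .npn) (n1 := ndB2q1) (n2 := ndB3q2b) (pc := pcB3) (cut := Cut.none) (xt := Ext.none) (P1 := 536870912) (W1 := 536870912) (P2 := 1239849684) (W2 := 370763052) (P3 := 697932185) (W3 := 42949674) (N0 := 3) (En := eng) (mo := mog) (C1 := cd2q1) (C2 := cd3q2b) (C3 := pd3)
    rfl k0_pp_123_b

noncomputable def f_pp_133 : ℕ → ℕ → ℕ → ℕ → Bool := onCell 536870912 536870912 1610612736 536870912 697932185 42949674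
    (rowB 3 eng mog cd2q1 cd3q3 pd3 0 true true true .dn 1 3 3 (qsf 536870912 536870912 1610612736 536870912 3) ndB2q1 ndB3q3 pcB3 Cut.none Ext.none)

def k0_pp_133 : ∃ t, chk3 f_pp_133 t 1 1 1 = true :=
  ⟨(l 4), by decide +kernel⟩

theorem c_pp_133 : CertB 536870912 536870912 1610612736 536870912 697932185 42949674 3 eng mog cd2q1 cd3q3 pd3 true true true .dn 1 3 3
    ndB2q1 ndB3q3 pcB3 Cut.none Ext.none :=
  certB0 (fam := true) (s1 := true) (s2 := true) (a := 1) (b := 3) (c := 3) (cn := .dn) (n1 := ndB2q1) (n2 := ndB3q3) (pc := pcB3) (cut := Cut.none) (xt := Ext.none) (P1 := 536870912) (W1 := 536870912) (P2 := 1610612736) (W2 := 536870912) (P3 := 697932185) (W3 := 42949674) (N0 := 3) (En := eng) (mo := mog) (C1 := cd2q1) (C2 := cd3q3) (C3 := pd3)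
    rfl k0_pp_133

noncomputable def f_pp_202_a : ℕ → ℕ → ℕ → ℕ → Bool := onCell 0 536870912 0 536870912 697932185 42949674
    (rowB 3 eng mog cd2q2a cd3q0 pd2 0 true true true .pp 2 0 2 (qsf 0 536870912 0 536870912 2) ndB2q2a ndB3q0 pcB2 Cut.none Ext.none)

def k0_pp_202_a : ∃ t, chk3 f_pp_202_a t 1 1 1 = true :=
  ⟨(l 5), by decide +kernel⟩

theorem c_pp_202_a : CertB 0 536870912 0 536870912 697932185 42949674 3 eng mog cd2q2a cd3q0 pd2 true true true .pp 2 0 2
    ndB2q2a ndB3q0 pcB2 Cut.none Ext.none :=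
  certB0 (fam := true) (s1 := true) (s2 := true) (a := 2) (b := 0) (c := 2) (cn := .pp) (n1 := ndB2q2a) (n2 := ndB3q0) (pc := pcB2) (cut := Cut.none) (xt := Ext.none) (P1 := 0) (W1 := 536870912) (P2 := 0) (W2 := 536870912) (P3 := 697932185) (W3 := 42949674) (N0 := 3) (En := eng) (mo := mog) (C1 := cd2q2a) (C2 := cd3q0) (C3 := pd2)
    rfl k0_pp_202_a

noncomputable def f_pp_202_b : ℕ → ℕ → ℕ → ℕ → Bool := onCell 1239849684 370763052 0 536870912 697932185 42949674
    (rowB 3 eng mog cd2q2b cd3q0 pd2 0 true true true .pp 2 0 2 (qsf 1239849684 370763052 0 536870912 2) ndB2q2b ndB3q0 pcB2 Cut.none Ext.none)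

def k0_pp_202_b : ∃ t, chk3 f_pp_202_b t 1 1 1 = true :=
  ⟨(l 5), by decide +kernel⟩

theorem c_pp_202_b : CertB 1239849684 370763052 0 536870912 697932185 42949674 3 eng mog cd2q2b cd3q0 pd2 true true true .pp 2 0 2
    ndB2q2b ndB3q0 pcB2 Cut.none Ext.none :=
  certB0 (fam := true) (s1 := true) (s2 := true) (a := 2) (b := 0) (c := 2) (cn := .pp) (n1 := ndB2q2b) (n2 := ndB3q0) (pc := pcB2) (cut := Cut.none) (xt := Ext.none) (P1 := 1239849684) (W1 := 370763052) (P2 := 0) (W2 := 536870912) (P3 := 697932185) (W3 := 42949674) (N0 := 3) (En := eng) (mo := mog) (C1 := cd2q2b) (C2 := cd3q0) (C3 := pd2)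
    rfl k0_pp_202_b

noncomputable def f_pp_203_a : ℕ → ℕ → ℕ → ℕ → Bool := onCell 0 536870912 0 536870912 697932185 42949674
    (rowB 3 eng mog cd2q2a cd3q0 pd3 0 true true true .up 2 0 3 (qsf 0 536870912 0 536870912 3) ndB2q2a ndB3q0 pcB3 Cut.none Ext.none)

def k0_pp_203_a : ∃ t, chk3 f_pp_203_a t 1 1 1 = true :=
  ⟨(l 5), by decide +kernel⟩

theorem c_pp_203_a : CertB 0 536870912 0 536870912 697932185 42949674 3 eng mog cd2q2a cd3q0 pd3 true true true .up 2 0 3
    ndB2q2a ndB3q0 pcB3 Cut.none Ext.none :=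
  certB0 (fam := true) (s1 := true) (s2 := true) (a := 2) (b := 0) (c := 3) (cn := .up) (n1 := ndB2q2a) (n2 := ndB3q0) (pc := pcB3) (cut := Cut.none) (xt := Ext.none) (P1 := 0) (W1 := 536870912) (P2 := 0) (W2 := 536870912) (P3 := 697932185) (W3 := 42949674) (N0 := 3) (En := eng) (mo := mog) (C1 := cd2q2a) (C2 := cd3q0) (C3 := pd3)
    rfl k0_pp_203_a

noncomputable def f_pp_203_b : ℕ → ℕ → ℕ → ℕ → Bool := onCell 1239849684 370763052 0 536870912 697932185 42949674
    (rowB 3 eng mog cd2q2b cd3q0 pd3 0 true true true .up 2 0 3 (qsf 1239849684 370763052 0 536870912 3) ndB2q2b ndB3q0 pcB3 Cut.none Ext.none)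

def k0_pp_203_b : ∃ t, chk3 f_pp_203_b t 1 1 1 = true :=
  ⟨(l 5), by decide +kernel⟩

theorem c_pp_203_b : CertB 1239849684 370763052 0 536870912 697932185 42949674 3 eng mog cd2q2b cd3q0 pd3 true true true .up 2 0 3
    ndB2q2b ndB3q0 pcB3 Cut.none Ext.none :=
  certB0 (fam := true) (s1 := true) (s2 := true) (a := 2) (b := 0) (c := 3) (cn := .up) (n1 := ndB2q2b) (n2 := ndB3q0) (pc := pcB3) (cut := Cut.none) (xt := Ext.none) (P1 := 1239849684) (W1 := 370763052) (P2 := 0) (W2 := 536870912) (P3 := 697932185) (W3 := 42949674) (N0 := 3) (En := eng) (mo := mog) (C1 := cd2q2b) (C2 := cd3q0) (C3 := pd3)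
    rfl k0_pp_203_b

noncomputable def f_pp_213_a : ℕ → ℕ → ℕ → ℕ → Bool := onCell 0 536870912 536870912 536870912 697932185 42949674
    (rowB 3 eng mog cd2q2a cd3q1 pd3 0 true true true .pnn 2 1 3 (qsf 0 536870912 536870912 536870912 3) ndB2q2a ndB3q1 pcB3 Cut.none Ext.none)

def k0_pp_213_a : ∃ t, chk3 f_pp_213_a t 1 1 1 = true :=
  ⟨(l 4), by decide +kernel⟩

theorem c_pp_213_a : CertB 0 536870912 536870912 536870912 697932185 42949674 3 eng mog cd2q2a cd3q1 pd3 true true true .pnn 2 1 3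
    ndB2q2a ndB3q1 pcB3 Cut.none Ext.none :=
  certB0 (fam := true) (s1 := true) (s2 := true) (a := 2) (b := 1) (c := 3) (cn := .pnn) (n1 := ndB2q2a) (n2 := ndB3q1) (pc := pcB3) (cut := Cut.none) (xt := Ext.none) (P1 := 0) (W1 := 536870912) (P2 := 536870912) (W2 := 536870912) (P3 := 697932185) (W3 := 42949674) (N0 := 3) (En := eng) (mo := mog) (C1 := cd2q2a) (C2 := cd3q1) (C3 := pd3)
    rfl k0_pp_213_a

noncomputable def f_pp_213_b : ℕ → ℕ → ℕ → ℕ → Bool := onCell 1239849684 370763052 536870912 536870912 697932185 42949674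
    (rowB 3 eng mog cd2q2b cd3q1 pd3 0 true true true .pnn 2 1 3 (qsf 1239849684 370763052 536870912 536870912 3) ndB2q2b ndB3q1 pcB3 Cut.none Ext.none)

def k0_pp_213_b : ∃ t, chk3 f_pp_213_b t 1 1 1 = true :=
  ⟨(l 4), by decide +kernel⟩

theorem c_pp_213_b : CertB 1239849684 370763052 536870912 536870912 697932185 42949674 3 eng mog cd2q2b cd3q1 pd3 true true true .pnn 2 1 3
    ndB2q2b ndB3q1 pcB3 Cut.none Ext.none :=
  certB0 (fam := true) (s1 := true) (s2 := true) (a := 2) (b := 1) (c := 3) (cn := .pnn) (n1 := ndB2q2b) (n2 := ndB3q1) (pc := pcB3) (cut := Cut.none) (xt := Ext.none) (P1 := 1239849684) (W1 := 370763052) (P2 := 536870912) (W2 := 536870912) (P3 := 697932185) (W3 := 42949674) (N0 := 3) (En := eng) (mo := mog) (C1 := cd2q2b) (C2 := cd3q1) (C3 := pd3)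
    rfl k0_pp_213_b

noncomputable def f_pp_303 : ℕ → ℕ → ℕ → ℕ → Bool := onCell 1610612736 536870912 0 536870912 697932185 42949674
    (rowB 3 eng mog cd2q3 cd3q0 pd3 0 true true true .npn 3 0 3 (qsf 1610612736 536870912 0 536870912 3) ndB2q3 ndB3q0 pcB3 Cut.none Ext.none)

def k0_pp_303 : ∃ t, chk3 f_pp_303 t 1 1 1 = true :=
  ⟨(l 5), by decide +kernel⟩

theorem c_pp_303 : CertB 1610612736 536870912 0 536870912 697932185 42949674 3 eng mog cd2q3 cd3q0 pd3 true true true .npn 3 0 3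
    ndB2q3 ndB3q0 pcB3 Cut.none Ext.none :=
  certB0 (fam := true) (s1 := true) (s2 := true) (a := 3) (b := 0) (c := 3) (cn := .npn) (n1 := ndB2q3) (n2 := ndB3q0) (pc := pcB3) (cut := Cut.none) (xt := Ext.none) (P1 := 1610612736) (W1 := 536870912) (P2 := 0) (W2 := 536870912) (P3 := 697932185) (W3 := 42949674) (N0 := 3) (En := eng) (mo := mog) (C1 := cd2q3) (C2 := cd3q0) (C3 := pd3)
    rfl k0_pp_303

noncomputable def f_pp_313 : ℕ → ℕ → ℕ → ℕ → Bool := onCell 1610612736 536870912 536870912 536870912 697932185 42949674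
    (rowB 3 eng mog cd2q3 cd3q1 pd3 0 true true true .dn 3 1 3 (qsf 1610612736 536870912 536870912 536870912 3) ndB2q3 ndB3q1 pcB3 Cut.none Ext.none)

def k0_pp_313 : ∃ t, chk3 f_pp_313 t 1 1 1 = true :=
  ⟨(l 4), by decide +kernel⟩

theorem c_pp_313 : CertB 1610612736 536870912 536870912 536870912 697932185 42949674 3 eng mog cd2q3 cd3q1 pd3 true true true .dn 3 1 3
    ndB2q3 ndB3q1 pcB3 Cut.none Ext.none :=
  certB0 (fam := true) (s1 := true) (s2 := true) (a := 3) (b := 1) (c := 3) (cn := .dn) (n1 := ndB2q3) (n2 := ndB3q1) (pc := pcB3) (cut := Cut.none) (xt := Ext.none) (P1 := 1610612736) (W1 := 536870912) (P2 := 536870912) (W2 := 536870912) (P3 := 697932185) (W3 := 42949674) (N0 := 3) (En := eng) (mo := mog) (C1 := cd2q3) (C2 := cd3q1) (C3 := pd3)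
    rfl k0_pp_313

noncomputable def f_pm_001 : ℕ → ℕ → ℕ → ℕ → Bool := onCell 0 536870912 0 536870912 697932185 42949674
    (rowB 3 eng mog cd2q0 cd3q0 pd1 0 true true false .up 0 0 1 (qsf 0 536870912 0 536870912 1) ndB2q0 ndB3q0 pcB1 Cut.none Ext.none)

def k0_pm_001 : ∃ t, chk3 f_pm_001 t 1 1 1 = true :=
  ⟨(l 3), by decide +kernel⟩

theorem c_pm_001 : CertB 0 536870912 0 536870912 697932185 42949674 3 eng mog cd2q0 cd3q0 pd1 true true false .up 0 0 1
    ndB2q0 ndB3q0 pcB1 Cut.none Ext.none :=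
  certB0 (fam := true) (s1 := true) (s2 := false) (a := 0) (b := 0) (c := 1) (cn := .up) (n1 := ndB2q0) (n2 := ndB3q0) (pc := pcB1) (cut := Cut.none) (xt := Ext.none) (P1 := 0) (W1 := 536870912) (P2 := 0) (W2 := 536870912) (P3 := 697932185) (W3 := 42949674) (N0 := 3) (En := eng) (mo := mog) (C1 := cd2q0) (C2 := cd3q0) (C3 := pd1)
    rfl k0_pm_001

noncomputable def f_pm_011 : ℕ → ℕ → ℕ → ℕ → Bool := onCell 0 536870912 536870912 536870912 697932185 42949674
    (rowB 3 eng mog cd2q0 cd3q1 pd1 1 true true false .pnn 0 1 1 (qsf 0 536870912 536870912 536870912 1) ndB2q0 ndB3q1 pcB1 Cut.none Ext.none)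

def k0_pm_011 : ∃ t, chk3 f_pm_011 t 1 1 1 = true :=
  ⟨(l 3), by decide +kernel⟩

theorem c_pm_011 : CertB 0 536870912 536870912 536870912 697932185 42949674 3 eng mog cd2q0 cd3q1 pd1 true true false .pnn 0 1 1
    ndB2q0 ndB3q1 pcB1 Cut.none Ext.none :=
  certB1 (fam := true) (s1 := true) (s2 := false) (a := 0) (b := 1) (c := 1) (cn := .pnn) (n1 := ndB2q0) (n2 := ndB3q1) (pc := pcB1) (cut := Cut.none) (xt := Ext.none) (P1 := 0) (W1 := 536870912) (P2 := 536870912) (W2 := 536870912) (P3 := 697932185) (W3 := 42949674) (N0 := 3) (En := eng) (mo := mog) (C1 := cd2q0) (C2 := cd3q1) (C3 := pd1)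
    rfl (fun _ => rfl) k0_pm_011

noncomputable def f_pm_012 : ℕ → ℕ → ℕ → ℕ → Bool := onCell 1073741824 536870912 536870912 536870912 697932185 42949674
    (rowB 3 eng mog cd2q0 cd3q1 pd2 2 true true false .pnp 0 1 2 (qsf 0 536870912 536870912 536870912 2) ndB2q0 ndB3q1 pcB2 Cut.none Ext.none)

def k0_pm_012 : ∃ t, chk3 f_pm_012 t 1 1 1 = true :=
  ⟨(a (a (b (l 3) (l 3)) (a (a (a (b (a (l 3) (b (l 2) (l 16505232))) (l 3)) (b (b (l 2) (a (l 16687008) (a (l 16493624) (b (l 16504912) (l 16477104))))) (a (b (b (l 16462128) (l 16445728)) (l 3)) (b (a (b (l 16454400) (l 16435608)) (b (l 16449688) (a (l 16430720) (l 16427480)))) (a (b (l 16438864) (b (l 16447744) (l 16458312))) (b (a (l 16432624) (l 16428512)) (a (b (l 16440336) (l 16345632)) (l 16460880)))))))) (b (b (l 2) (l 16477912)) (b (b (l 16427960) (l 16401032)) (b (l 16395624) (b (l 16397024) (l 16402752)))))) (b (b (l 2) (b (l 16475680) (l 16429376))) (b (b (l 16382016) (l 16339384)) (b (l 16316800)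 (b (l 16303304) (l 16297880))))))) (b (a (b (l 2) (a (l 16548656) (l 2))) (l 2)) (b (a (a (b (l 16348152) (l 16287152)) (b (l 16344448) (l 16268304))) (a (l 16328048) (l 2))) (a (b (a (l 16244080) (l 16208000)) (a (l 16203064) (l 16145928))) (b (l 16222344) (l 16134944)))))), by decide +kernel⟩

theorem c_pm_012 : CertB 0 536870912 536870912 536870912 697932185 42949674 3 eng mog cd2q0 cd3q1 pd2 true true false .pnp 0 1 2
    ndB2q0 ndB3q1 pcB2 Cut.none Ext.none :=
  certB2 (fam := true) (s1 := true) (s2 := false) (a := 0) (b := 1) (c := 2) (cn := .pnp) (n1 := ndB2q0) (n2 := ndB3q1) (pc := pcB2) (cut := Cut.none) (xt := Ext.none) (P1 := 0) (W1 := 536870912) (P2 := 536870912) (W2 := 536870912) (P3 := 697932185) (W3 := 42949674) (N0 := 3) (En := eng) (mo := mog) (C1 := cd2q0) (C2 := cd3q1) (C3 := pd2)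
    rfl (fun _ => rfl) k0_pm_012

noncomputable def cut_pm_022_a : Cut := Cut.of [[⟨0, 0, 0, 67108864⟩, ⟨1, 1, 0, 67108864⟩, ⟨2, 1, 0, 67108864⟩]]

noncomputable def f_pm_022_a : ℕ → ℕ → ℕ → ℕ → Bool := onCell 1073741824 536870912 0 536870912 697932185 42949674
    (rowB 3 eng mog cd2q0 cd3q2a pd2 2 true true false .pp 0 2 2 (qsf 0 536870912 0 536870912 2) ndB2q0 ndB3q2a pcB2 cut_pm_022_a Ext.none)

def k0_pm_022_a : ∃ t, chk3 f_pm_022_a t 2 2 1 = true :=
  ⟨(a (a (l 1) (b (l 1) (a (l 1) (b (l 1) (a (l 1) (b (l 1) (l 192232741591))))))) (a (a (a (b (l 1) (b (b (l 136934946407) (l 189548328759)) (b (l 248604175447) (l 276521502823)))) (b (a (b (l 1) (l 155725447543)) (a (b (l 1) (l 16416568)) (b (a (l 16410856) (l 16412200)) (a (l 16418504) (l 16419440))))) (a (b (l 233034899223) (l 16467624)) (b (a (l 16437664) (a (l 16439008) (l 16439472))) (a (l 16469864) (a (l 16470512) (l 16470432))))))) (b (a (b (a (l 16416816) (l 16423848)) (a (l 16423448)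 (l 16429568))) (b (l 16425344) (l 16430488))) (b (a (a (l 16442696) (l 16447592)) (l 16447392)) (a (b (l 16465672) (l 16482544)) (l 16474208))))) (b (a (b (l 16424600) (l 16428832)) (b (l 16425112) (l 16427824))) (b (a (l 16443744) (l 16439880)) (a (l 16488528) (l 16459520)))))), by decide +kernel⟩

def k1_pm_022_a : ∃ t, chk3 f_pm_022_a t 2 6 1 = true :=
  ⟨(a (a (l 1) (a (b (l 1) (a (b (l 1) (a (l 1) (b (l 154651972823) (l 242698830919)))) (b (a (l 170758057863) (l 173979289415)) (a (b (l 198138514711) (l 16580216)) (l 16572288))))) (b (a (b (l 153041195911) (a (l 211023303607) (l 16512296))) (b (a (l 16487568) (l 16490664)) (a (l 16514624) (l 16516760)))) (a (b (a (l 16540576) (l 16542072)) (a (l 16572864) (l 16573264))) (b (l 16543896) (l 16573400)))))) (b (a (a (a (b (l 16494752) (l 16519368)) (a (b (l 16498232) (l 16521312)) (a (l 16510832) (b (l 16498592) (l 16520232))))) (a (l 16511808) (l 16508560))) (l 16574952)) (a (a (a (b (l 16545456)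 (l 16572600)) (a (l 16558792) (b (l 16605600) (l 16563528)))) (a (l 16547968) (l 16536208))) (a (l 16524160) (l 16507896))))), by decide +kernel⟩

def k2_pm_022_a : ∃ t, chk3 f_pm_022_a t 2 7 1 = true :=
  ⟨(a (a (a (b (l 1) (l 6)) (a (b (b (l 1) (l 6)) (l 6)) (a (b (b (l 1) (l 6)) (l 6)) (b (b (b (l 1) (a (l 184179963527) (l 202433571751))) (b (a (l 6) (l 16636960)) (l 16656984))) (b (l 16634648) (b (l 16688848) (l 16686560))))))) (b (a (a (b (a (b (l 229813959671) (a (l 16617264) (l 16617024))) (b (l 16598008) (l 16616640))) (a (b (l 16636192) (l 16655400)) (l 16581624))) (b (a (l 16628096) (l 16585712)) (l 16642192))) (a (b (l 16605680) (l 16628496)) (b (l 16603584) (l 16607392)))) (b (a (a (a (l 16678936) (l 16667296)) (l 16650176)) (a (l 16628016) (l 16606880))) (a (b (a (l 16671232) (l 16648248)) (a (l 16668936) (l 16645960))) (a (l 16625088) (l 16604016)))))) (a (a (b (a (l 16608304) (a (l 16573544) (a (l 16567400) (b (l 16564000) (l 16565680)))))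 (a (b (l 16587104) (l 16584328)) (a (l 16593464) (a (l 16566432) (a (l 16564120) (b (l 16564128) (l 16561616))))))) (b (a (l 16554088) (l 16541464)) (b (a (l 16554056) (l 16540624)) (a (l 16571840) (l 16534536))))) (b (a (b (l 16526960) (l 16526368)) (l 16506464)) (b (a (l 16521848) (l 16496952)) (a (l 16512512) (l 16486424)))))), by decide +kernel⟩

def k3_pm_022_a : ∃ t, chk3 f_pm_022_a t 3 1 1 = true :=
  ⟨(b (a (a (b (a (b (l 16426936) (l 16428312)) (b (l 16430288) (l 16430640))) (a (l 16446032) (l 16447152))) (b (a (b (l 16443312) (l 16442312)) (l 16462944)) (a (l 16455480) (l 16464696)))) (b (a (l 16490296) (l 16523480)) (a (l 16475704) (l 16482968)))) (a (b (a (b (l 16473568) (l 16484920)) (l 16615120)) (a (b (a (l 16487080) (l 16470920)) (a (l 16470560) (l 16452560))) (b (l 16453400) (a (l 16438544) (l 16428408))))) (b (a (l 16462488) (l 16465912)) (b (a (l 16441520) (l 16441128)) (a (l 16419856) (l 16419840)))))), by decide +kernel⟩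

theorem s4_pm_022_a : ∃ t, chk3 f_pm_022_a t 2 3 1 = true := ex3_b k1_pm_022_a k2_pm_022_a

theorem s5_pm_022_a : ∃ t, chk3 f_pm_022_a t 2 1 1 = true := ex3_b k0_pm_022_a s4_pm_022_a

theorem s6_pm_022_a : ∃ t, chk3 f_pm_022_a t 1 1 1 = true := ex3_a s5_pm_022_a k3_pm_022_a

theorem c_pm_022_a : CertB 0 536870912 0 536870912 697932185 42949674 3 eng mog cd2q0 cd3q2a pd2 true true false .pp 0 2 2
    ndB2q0 ndB3q2a pcB2 cut_pm_022_a Ext.none :=
  certB2 (fam := true) (s1 := true) (s2 := false) (a := 0) (b := 2) (c := 2) (cn := .pp) (n1 := ndB2q0) (n2 := ndB3q2a) (pc := pcB2) (cut := cut_pm_022_a) (xt := Ext.none) (P1 := 0) (W1 := 536870912) (P2 := 0) (W2 := 536870912) (P3 := 697932185) (W3 := 42949674) (N0 := 3) (En := eng) (mo := mog) (C1 := cd2q0) (C2 := cd3q2a) (C3 := pd2)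
    rfl (fun _ => rfl) s6_pm_022_a

noncomputable def cut_pm_022_b : Cut := Cut.of [[⟨0, 0, 0, 67108864⟩, ⟨1, 1, 0, 67108864⟩, ⟨2, 1, 0, 67108864⟩]]

noncomputable def f_pm_022_b : ℕ → ℕ → ℕ → ℕ → Bool := onCell 0 536870912 1239849684 370763052 697932185 42949674
    (rowB 3 eng mog cd2q0 cd3q2b pd2 0 true true false .pp 0 2 2 (qsf 0 536870912 1239849684 370763052 2) ndB2q0 ndB3q2b pcB2 cut_pm_022_b Ext.none)

def k0_pm_022_b : ∃ t, chk3 f_pm_022_b t 1 1 1 = true :=
  ⟨(a (b (a (b (a (b (a (b (a (b (a (l 16425784) (l 16409592)) (l 16420480)) (l 16395672)) (a (l 16333520) (l 16337880))) (b (l 16397736) (l 16345200))) (a (a (b (l 16278520) (l 16229776)) (l 16262672)) (b (l 16298448) (l 16257096)))) (b (a (b (l 16401928) (l 16355712)) (l 16449880)) (a (b (l 16315160) (l 16280128)) (b (l 16333736) (l 16304552))))) (a (b (a (a (b (l 16187224) (l 16151344)) (b (l 16200992) (l 16167400))) (b (l 16221696) (a (l 16183880) (l 16200656)))) (a (a (b (l 16121992)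 (a (l 16092248) (l 16102096))) (b (l 16140088) (l 16117000))) (b (l 16167720) (l 16147088)))) (b (a (b (l 16250624) (l 16225992)) (l 16269240)) (l 16215000)))) (b (a (b (a (b (l 16414600) (l 16381984)) (b (l 16430448) (l 16403512))) (a (l 16340768) (l 16369968))) (b (a (l 16444752) (l 16472288)) (l 16428600))) (a (b (l 16319776) (l 16294272)) (b (l 16409928) (l 16396072))))) (a (b (a (a (b (a (b (l 16076496) (l 16059912)) (l 16089912)) (a (l 16042392) (l 16067552))) (b (l 16123552) (l 16105480))) (b (l 16190712) (l 16180688))) (a (a (b (l 16045864) (l 16051528)) (l 16104576)) (b (l 16183272) (l 2)))) (b (a (b (l 16280888) (l 16279928)) (l 2)) (l 2)))) (b (a (b (a (b (l 16512200) (l 16502304)) (b (l 16562240) (l 2))) (a (b (l 16498288) (l 2)) (l 2))) (l 2)) (l 2))), by decide +kernel⟩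

theorem c_pm_022_b : CertB 0 536870912 1239849684 370763052 697932185 42949674 3 eng mog cd2q0 cd3q2b pd2 true true false .pp 0 2 2
    ndB2q0 ndB3q2b pcB2 cut_pm_022_b Ext.none :=
  certB0 (fam := true) (s1 := true) (s2 := false) (a := 0) (b := 2) (c := 2) (cn := .pp) (n1 := ndB2q0) (n2 := ndB3q2b) (pc := pcB2) (cut := cut_pm_022_b) (xt := Ext.none) (P1 := 0) (W1 := 536870912) (P2 := 1239849684) (W2 := 370763052) (P3 := 697932185) (W3 := 42949674) (N0 := 3) (En := eng) (mo := mog) (C1 := cd2q0) (C2 := cd3q2b) (C3 := pd2)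
    rfl k0_pm_022_b

noncomputable def f_pm_023_a : ℕ → ℕ → ℕ → ℕ → Bool := onCell 1610612736 536870912 0 536870912 697932185 42949674
    (rowB 3 eng mog cd2q0 cd3q2a pd3 2 true true false .up 0 2 3 (qsf 0 536870912 0 536870912 3) ndB2q0 ndB3q2a pcB3 Cut.none Ext.none)

def k0_pm_023_a : ∃ t, chk3 f_pm_023_a t 1 1 1 = true :=
  ⟨(a (b (a (a (b (l 16541736) (l 16504312)) (l 16611232)) (a (a (l 16666488) (l 16701888)) (l 2))) (b (a (a (l 16478832) (l 16567208)) (l 2)) (a (a (b (l 16450840) (l 16433912)) (l 16553192)) (l 2)))) (l 2)), by decide +kernel⟩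

theorem c_pm_023_a : CertB 0 536870912 0 536870912 697932185 42949674 3 eng mog cd2q0 cd3q2a pd3 true true false .up 0 2 3
    ndB2q0 ndB3q2a pcB3 Cut.none Ext.none :=
  certB2 (fam := true) (s1 := true) (s2 := false) (a := 0) (b := 2) (c := 3) (cn := .up) (n1 := ndB2q0) (n2 := ndB3q2a) (pc := pcB3) (cut := Cut.none) (xt := Ext.none) (P1 := 0) (W1 := 536870912) (P2 := 0) (W2 := 536870912) (P3 := 697932185) (W3 := 42949674) (N0 := 3) (En := eng) (mo := mog) (C1 := cd2q0) (C2 := cd3q2a) (C3 := pd3)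
    rfl (fun _ => rfl) k0_pm_023_a

noncomputable def f_pm_023_b : ℕ → ℕ → ℕ → ℕ → Bool := onCell 1610612736 536870912 1239849684 370763052 697932185 42949674
    (rowB 3 eng mog cd2q0 cd3q2b pd3 2 true true false .up 0 2 3 (qsf 0 536870912 1239849684 370763052 3) ndB2q0 ndB3q2b pcB3 Cut.none Ext.none)

def k0_pm_023_b : ∃ t, chk3 f_pm_023_b t 1 1 1 = true :=
  ⟨(a (a (b (a (b (l 16560088) (l 16449632)) (b (l 16583432) (l 16545448))) (a (b (l 16291288) (a (l 16126600) (l 16161176))) (b (l 16392496) (l 16225280)))) (b (a (b (l 16688512) (l 16622680)) (l 16953080)) (a (b (l 16496768) (l 16331064)) (b (l 16598096) (l 16460328))))) (a (a (b (l 221291970279) (b (l 16688512) (l 16594608))) (b (a (l 16764136) (l 2)) (l 4))) (l 4))), by decide +kernel⟩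

theorem c_pm_023_b : CertB 0 536870912 1239849684 370763052 697932185 42949674 3 eng mog cd2q0 cd3q2b pd3 true true false .up 0 2 3
    ndB2q0 ndB3q2b pcB3 Cut.none Ext.none :=
  certB2 (fam := true) (s1 := true) (s2 := false) (a := 0) (b := 2) (c := 3) (cn := .up) (n1 := ndB2q0) (n2 := ndB3q2b) (pc := pcB3) (cut := Cut.none) (xt := Ext.none) (P1 := 0) (W1 := 536870912) (P2 := 1239849684) (W2 := 370763052) (P3 := 697932185) (W3 := 42949674) (N0 := 3) (En := eng) (mo := mog) (C1 := cd2q0) (C2 := cd3q2b) (C3 := pd3)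
    rfl (fun _ => rfl) k0_pm_023_b

noncomputable def f_pm_033 : ℕ → ℕ → ℕ → ℕ → Bool := onCell 0 536870912 1610612736 536870912 697932185 42949674
    (rowB 3 eng mog cd2q0 cd3q3 pd3 1 true true false .pnn 0 3 3 (qsf 0 536870912 1610612736 536870912 3) ndB2q0 ndB3q3 pcB3 Cut.none Ext.none)

def k0_pm_033 : ∃ t, chk3 f_pm_033 t 1 1 1 = true :=
  ⟨(b (b (a (a (b (a (l 16100560) (l 16202432)) (a (l 16064752) (l 16180656))) (b (l 1) (l 355978636167))) (l 1)) (b (a (a (a (l 16039200) (l 16163984)) (l 16413392)) (l 1)) (a (a (l 16130568) (l 16364872)) (a (l 16592648) (l 1))))) (b (a (b (b (a (l 16168272) (l 16393344)) (l 4)) (l 4)) (b (a (l 16618680) (l 1)) (l 4))) (l 4))), by decide +kernel⟩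

theorem c_pm_033 : CertB 0 536870912 1610612736 536870912 697932185 42949674 3 eng mog cd2q0 cd3q3 pd3 true true false .pnn 0 3 3
    ndB2q0 ndB3q3 pcB3 Cut.none Ext.none :=
  certB1 (fam := true) (s1 := true) (s2 := false) (a := 0) (b := 3) (c := 3) (cn := .pnn) (n1 := ndB2q0) (n2 := ndB3q3) (pc := pcB3) (cut := Cut.none) (xt := Ext.none) (P1 := 0) (W1 := 536870912) (P2 := 1610612736) (W2 := 536870912) (P3 := 697932185) (W3 := 42949674) (N0 := 3) (En := eng) (mo := mog) (C1 := cd2q0) (C2 := cd3q3) (C3 := pd3)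
    rfl (fun _ => rfl) k0_pm_033

noncomputable def f_pm_101 : ℕ → ℕ → ℕ → ℕ → Bool := onCell 536870912 536870912 0 536870912 697932185 42949674
    (rowB 3 eng mog cd2q1 cd3q0 pd1 2 true true false .npn 1 0 1 (qsf 536870912 536870912 0 536870912 1) ndB2q1 ndB3q0 pcB1 Cut.none Ext.none)

def k0_pm_101 : ∃ t, chk3 f_pm_101 t 1 1 1 = true :=
  ⟨(l 3), by decide +kernel⟩

theorem c_pm_101 : CertB 536870912 536870912 0 536870912 697932185 42949674 3 eng mog cd2q1 cd3q0 pd1 true true false .npn 1 0 1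
    ndB2q1 ndB3q0 pcB1 Cut.none Ext.none :=
  certB2 (fam := true) (s1 := true) (s2 := false) (a := 1) (b := 0) (c := 1) (cn := .npn) (n1 := ndB2q1) (n2 := ndB3q0) (pc := pcB1) (cut := Cut.none) (xt := Ext.none) (P1 := 536870912) (W1 := 536870912) (P2 := 0) (W2 := 536870912) (P3 := 697932185) (W3 := 42949674) (N0 := 3) (En := eng) (mo := mog) (C1 := cd2q1) (C2 := cd3q0) (C3 := pd1)
    rfl (fun _ => rfl) k0_pm_101

end Pool.Agent.Strip051.G.I6500_6900.Tab.C.BA23

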