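import Pool.Agent.Strip051.G.I6500_6900.AsmH
import Pool.Agent.Strip051.G.I6500_6900.TrB12
import Pool.Agent.Strip051.G.I6500_6900.TrB13
import Pool.Agent.Strip051.G.I6500_6900.TrB14
import Pool.Agent.Strip051.G.I6500_6900.CrnE_0
import Pool.Agent.Strip051.G.I6500_6900.CrnE_1

/-! # Rows from certificates (generated) -/

set_option linter.all false
set_option maxRecDepth 100000

namespace Pool.Agent.Strip051.G.I6500_6900.Tab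

open Pool.Agent.Strip051.PB Pool.Agent.StripNear Pool.Agent.Strip051.LC

theorem BA23_pp_001 {κ x : ℝ} (hκ : κ * h0 = ken x) (hx : ((697932185 : ℕ) : ℝ) / S ≤ x) (hx' : x ≤ (((697932185 : ℕ) : ℝ) + (42949674 : ℕ)) / S) :
    TriA PP.cur (VE (h0 * 0) 3 κ (h0 * x) (eng.v x) (h0 * (3 / 40)) (tnt (h0 * x) (3 / 10)) (tbl tK x) (tbl tL x) (tbl (smT h0⁻¹ tC) x)) 0 0 1 2 3 1 1 :=
  (sideB hx hx').bothA (thrB hx hx') (en_pos (hx1 hx).le) (Or.inl rfl) (Or.inl rfl) fun y y' F =>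
    bothA_cert (s1 := true) (s2 := true) rfl hκ (en_pos (hx1 hx).le) (esg_rng (hx1 hx).le (hx2 hx').le).1 (mo_v x) covB20 covB30 hx hx'
        Pool.Agent.Strip051.G.I6500_6900.Tab.C.BA23.c_pp_001 noCut_EA noExt_EA F trivial trivial

theorem BA23_pp_011 {κ x : ℝ} (hκ : κ * h0 = ken x) (hx : ((697932185 : ℕ) : ℝ) / S ≤ x) (hx' : x ≤ (((697932185 : ℕ) : ℝ) + (42949674 : ℕ)) / S) :
    TriA PP.cur (VE (h0 * 0) 3 κ (h0 * x) (eng.v x) (h0 * (3 / 40)) (tnt (h0 * x) (3 / 10)) (tbl tK x) (tbl tL x) (tbl (smT h0⁻¹ tC) x)) 0 1 1 2 3 1 1 :=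
  (sideB hx hx').bothA (thrB hx hx') (en_pos (hx1 hx).le) (Or.inl rfl) (Or.inl rfl) fun y y' F =>
    bothA_cert (s1 := true) (s2 := true) rfl hκ (en_pos (hx1 hx).le) (esg_rng (hx1 hx).le (hx2 hx').le).1 (mo_v x) covB20 covB31 hx hx'
        Pool.Agent.Strip051.G.I6500_6900.Tab.C.BA23.c_pp_011 noCut_EA noExt_EA F trivial trivial

theorem BA23_pp_012 {κ x : ℝ} (hκ : κ * h0 = ken x) (hx : ((697932185 : ℕ) : ℝ) / S ≤ x) (hx' : x ≤ (((697932185 : ℕ) : ℝ) + (42949674 : ℕ)) / S) :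
    TriA PP.cur (VE (h0 * 0) 3 κ (h0 * x) (eng.v x) (h0 * (3 / 40)) (tnt (h0 * x) (3 / 10)) (tbl tK x) (tbl tL x) (tbl (smT h0⁻¹ tC) x)) 0 1 2 2 3 1 1 :=
  (sideB hx hx').bothA (thrB hx hx') (en_pos (hx1 hx).le) (Or.inl rfl) (Or.inl rfl) fun y y' F =>
    bothA_cert (s1 := true) (s2 := true) rfl hκ (en_pos (hx1 hx).le) (esg_rng (hx1 hx).le (hx2 hx').le).1 (mo_v x) covB20 covB31 hx hx'
        Pool.Agent.Strip051.G.I6500_6900.Tab.C.BA23.c_pp_012 noCut_EA noExt_EA F trivial trivial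

theorem BA23_pp_022 {κ x : ℝ} (hκ : κ * h0 = ken x) (hx : ((697932185 : ℕ) : ℝ) / S ≤ x) (hx' : x ≤ (((697932185 : ℕ) : ℝ) + (42949674 : ℕ)) / S) :
    TriA PP.cur (VE (h0 * 0) 3 κ (h0 * x) (eng.v x) (h0 * (3 / 40)) (tnt (h0 * x) (3 / 10)) (tbl tK x) (tbl tL x) (tbl (smT h0⁻¹ tC) x)) 0 2 2 2 3 1 1 :=
  (sideB hx hx').bothA (thrB hx hx') (en_pos (hx1 hx).le) (Or.inl rfl) (Or.inl rfl) fun y y' F =>
    (lt_or_ge (h0 * y') 1).elim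
      (fun g => bothA_cert (s1 := true) (s2 := true) rfl hκ (en_pos (hx1 hx).le) (esg_rng (hx1 hx).le (hx2 hx').le).1 (mo_v x) covB20 covB32a hx hx'
        Pool.Agent.Strip051.G.I6500_6900.Tab.C.BA23.c_pp_022_a (cutEA_cons (Pool.Agent.Strip051.G.I6500_6900.Tab.altB_A022L_23 hκ hx hx') cutEA_nil) noExt_EA F trivial g)
      (fun g => bothA_cert (s1 := true) (s2 := true) rfl hκ (en_pos (hx1 hx).le) (esg_rng (hx1 hx).le (hx2 hx').le).1 (mo_v x) covB20 covB32b hx hx'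
        Pool.Agent.Strip051.G.I6500_6900.Tab.C.BA23.c_pp_022_b (cutEA_cons (Pool.Agent.Strip051.G.I6500_6900.Tab.altB_A022L_23 hκ hx hx') cutEA_nil) noExt_EA F trivial g)

theorem BA23_pp_023 {κ x : ℝ} (hκ : κ * h0 = ken x) (hx : ((697932185 : ℕ) : ℝ) / S ≤ x) (hx' : x ≤ (((697932185 : ℕ) : ℝ) + (42949674 : ℕ)) / S) :
    TriA PP.cur (VE (h0 * 0) 3 κ (h0 * x) (eng.v x) (h0 * (3 / 40)) (tnt (h0 * x) (3 / 10)) (tbl tK x) (tbl tL x) (tbl (smT h0⁻¹ tC) x)) 0 2 3 2 3 1 1 :=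
  (sideB hx hx').bothA (thrB hx hx') (en_pos (hx1 hx).le) (Or.inl rfl) (Or.inl rfl) fun y y' F =>
    (lt_or_ge (h0 * y') 1).elim
      (fun g => bothA_cert (s1 := true) (s2 := true) rfl hκ (en_pos (hx1 hx).le) (esg_rng (hx1 hx).le (hx2 hx').le).1 (mo_v x) covB20 covB32a hx hx'
        Pool.Agent.Strip051.G.I6500_6900.Tab.C.BA23.c_pp_023_a noCut_EA noExt_EA F trivial g)
      (fun g => bothA_cert (s1 := true) (s2 := true) rfl hκ (en_pos (hx1 hx).le) (esg_rng (hx1 hx).le (hx2 hx').le).1 (mo_v x) covB20 covB32b hx hx'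
        Pool.Agent.Strip051.G.I6500_6900.Tab.C.BA23.c_pp_023_b noCut_EA noExt_EA F trivial g)

theorem BA23_pp_033 {κ x : ℝ} (hκ : κ * h0 = ken x) (hx : ((697932185 : ℕ) : ℝ) / S ≤ x) (hx' : x ≤ (((697932185 : ℕ) : ℝ) + (42949674 : ℕ)) / S) :
    TriA PP.cur (VE (h0 * 0) 3 κ (h0 * x) (eng.v x) (h0 * (3 / 40)) (tnt (h0 * x) (3 / 10)) (tbl tK x) (tbl tL x) (tbl (smT h0⁻¹ tC) x)) 0 3 3 2 3 1 1 :=
  (sideB hx hx').bothA (thrB hx hx') (en_pos (hx1 hx).le) (Or.inl rfl) (Or.inl rfl) fun y y' F =>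
    bothA_cert (s1 := true) (s2 := true) rfl hκ (en_pos (hx1 hx).le) (esg_rng (hx1 hx).le (hx2 hx').le).1 (mo_v x) covB20 covB33 hx hx'
        Pool.Agent.Strip051.G.I6500_6900.Tab.C.BA23.c_pp_033 noCut_EA noExt_EA F trivial trivial

theorem BA23_pp_101 {κ x : ℝ} (hκ : κ * h0 = ken x) (hx : ((697932185 : ℕ) : ℝ) / S ≤ x) (hx' : x ≤ (((697932185 : ℕ) : ℝ) + (42949674 : ℕ)) / S) :
    TriA PP.cur (VE (h0 * 0) 3 κ (h0 * x) (eng.v x) (h0 * (3 / 40)) (tnt (h0 * x) (3 / 10)) (tbl tK x) (tbl tL x) (tbl (smT h0⁻¹ tC) x)) 1 0 1 2 3 1 1 :=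
  (sideB hx hx').bothA (thrB hx hx') (en_pos (hx1 hx).le) (Or.inl rfl) (Or.inl rfl) fun y y' F =>
    bothA_cert (s1 := true) (s2 := true) rfl hκ (en_pos (hx1 hx).le) (esg_rng (hx1 hx).le (hx2 hx').le).1 (mo_v x) covB21 covB30 hx hx'
        Pool.Agent.Strip051.G.I6500_6900.Tab.C.BA23.c_pp_101 noCut_EA noExt_EA F trivial trivial

theorem BA23_pp_102 {κ x : ℝ} (hκ : κ * h0 = ken x) (hx : ((697932185 : ℕ) : ℝ) / S ≤ x) (hx' : x ≤ (((697932185 : ℕ) : ℝ) + (42949674 : ℕ)) / S) :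
    TriA PP.cur (VE (h0 * 0) 3 κ (h0 * x) (eng.v x) (h0 * (3 / 40)) (tnt (h0 * x) (3 / 10)) (tbl tK x) (tbl tL x) (tbl (smT h0⁻¹ tC) x)) 1 0 2 2 3 1 1 :=
  (sideB hx hx').bothA (thrB hx hx') (en_pos (hx1 hx).le) (Or.inl rfl) (Or.inl rfl) fun y y' F =>
    bothA_cert (s1 := true) (s2 := true) rfl hκ (en_pos (hx1 hx).le) (esg_rng (hx1 hx).le (hx2 hx').le).1 (mo_v x) covB21 covB30 hx hx'
        Pool.Agent.Strip051.G.I6500_6900.Tab.C.BA23.c_pp_102 noCut_EA noExt_EA F trivial trivial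

theorem BA23_pp_112 {κ x : ℝ} (hκ : κ * h0 = ken x) (hx : ((697932185 : ℕ) : ℝ) / S ≤ x) (hx' : x ≤ (((697932185 : ℕ) : ℝ) + (42949674 : ℕ)) / S) :
    TriA PP.cur (VE (h0 * 0) 3 κ (h0 * x) (eng.v x) (h0 * (3 / 40)) (tnt (h0 * x) (3 / 10)) (tbl tK x) (tbl tL x) (tbl (smT h0⁻¹ tC) x)) 1 1 2 2 3 1 1 :=
  (sideB hx hx').bothA (thrB hx hx') (en_pos (hx1 hx).le) (Or.inl rfl) (Or.inl rfl) fun y y' F =>
    bothA_cert (s1 := true) (s2 := true) rfl hκ (en_pos (hx1 hx).le) (esg_rng (hx1 hx).le (hx2 hx').le).1 (mo_v x) covB21 covB31 hx hx'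
        Pool.Agent.Strip051.G.I6500_6900.Tab.C.BA23.c_pp_112 noCut_EA noExt_EA F trivial trivial

theorem BA23_pp_113 {κ x : ℝ} (hκ : κ * h0 = ken x) (hx : ((697932185 : ℕ) : ℝ) / S ≤ x) (hx' : x ≤ (((697932185 : ℕ) : ℝ) + (42949674 : ℕ)) / S) :
    TriA PP.cur (VE (h0 * 0) 3 κ (h0 * x) (eng.v x) (h0 * (3 / 40)) (tnt (h0 * x) (3 / 10)) (tbl tK x) (tbl tL x) (tbl (smT h0⁻¹ tC) x)) 1 1 3 2 3 1 1 :=
  (sideB hx hx').bothA (thrB hx hx') (en_pos (hx1 hx).le) (Or.inl rfl) (Or.inl rfl) fun y y' F =>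
    bothA_cert (s1 := true) (s2 := true) rfl hκ (en_pos (hx1 hx).le) (esg_rng (hx1 hx).le (hx2 hx').le).1 (mo_v x) covB21 covB31 hx hx'
        Pool.Agent.Strip051.G.I6500_6900.Tab.C.BA23.c_pp_113 noCut_EA noExt_EA F trivial trivial

theorem BA23_pp_123 {κ x : ℝ} (hκ : κ * h0 = ken x) (hx : ((697932185 : ℕ) : ℝ) / S ≤ x) (hx' : x ≤ (((697932185 : ℕ) : ℝ) + (42949674 : ℕ)) / S) :
    TriA PP.cur (VE (h0 * 0) 3 κ (h0 * x) (eng.v x) (h0 * (3 / 40)) (tnt (h0 * x) (3 / 10)) (tbl tK x) (tbl tL x) (tbl (smT h0⁻¹ tC) x)) 1 2 3 2 3 1 1 :=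
  (sideB hx hx').bothA (thrB hx hx') (en_pos (hx1 hx).le) (Or.inl rfl) (Or.inl rfl) fun y y' F =>
    (lt_or_ge (h0 * y') 1).elim
      (fun g => bothA_cert (s1 := true) (s2 := true) rfl hκ (en_pos (hx1 hx).le) (esg_rng (hx1 hx).le (hx2 hx').le).1 (mo_v x) covB21 covB32a hx hx'
        Pool.Agent.Strip051.G.I6500_6900.Tab.C.BA23.c_pp_123_a noCut_EA noExt_EA F trivial g)
      (fun g => bothA_cert (s1 := true) (s2 := true) rfl hκ (en_pos (hx1 hx).le) (esg_rng (hx1 hx).le (hx2 hx').le).1 (mo_v x) covB21 covB32b hx hx'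
        Pool.Agent.Strip051.G.I6500_6900.Tab.C.BA23.c_pp_123_b noCut_EA noExt_EA F trivial g)

theorem BA23_pp_133 {κ x : ℝ} (hκ : κ * h0 = ken x) (hx : ((697932185 : ℕ) : ℝ) / S ≤ x) (hx' : x ≤ (((697932185 : ℕ) : ℝ) + (42949674 : ℕ)) / S) :
    TriA PP.cur (VE (h0 * 0) 3 κ (h0 * x) (eng.v x) (h0 * (3 / 40)) (tnt (h0 * x) (3 / 10)) (tbl tK x) (tbl tL x) (tbl (smT h0⁻¹ tC) x)) 1 3 3 2 3 1 1 :=
  (sideB hx hx').bothA (thrB hx hx') (en_pos (hx1 hx).le) (Or.inl rfl) (Or.inl rfl) fun y y' F =>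
    bothA_cert (s1 := true) (s2 := true) rfl hκ (en_pos (hx1 hx).le) (esg_rng (hx1 hx).le (hx2 hx').le).1 (mo_v x) covB21 covB33 hx hx'
        Pool.Agent.Strip051.G.I6500_6900.Tab.C.BA23.c_pp_133 noCut_EA noExt_EA F trivial trivial

theorem BA23_pp_202 {κ x : ℝ} (hκ : κ * h0 = ken x) (hx : ((697932185 : ℕ) : ℝ) / S ≤ x) (hx' : x ≤ (((697932185 : ℕ) : ℝ) + (42949674 : ℕ)) / S) :
    TriA PP.cur (VE (h0 * 0) 3 κ (h0 * x) (eng.v x) (h0 * (3 / 40)) (tnt (h0 * x) (3 / 10)) (tbl tK x) (tbl tL x) (tbl (smT h0⁻¹ tC) x)) 2 0 2 2 3 1 1 :=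
  (sideB hx hx').bothA (thrB hx hx') (en_pos (hx1 hx).le) (Or.inl rfl) (Or.inl rfl) fun y y' F =>
    (lt_or_ge (h0 * y) 1).elim
      (fun h => bothA_cert (s1 := true) (s2 := true) rfl hκ (en_pos (hx1 hx).le) (esg_rng (hx1 hx).le (hx2 hx').le).1 (mo_v x) covB22a covB30 hx hx'
        Pool.Agent.Strip051.G.I6500_6900.Tab.C.BA23.c_pp_202_a noCut_EA noExt_EA F h trivial)
      (fun h => bothA_cert (s1 := true) (s2 := true) rfl hκ (en_pos (hx1 hx).le) (esg_rng (hx1 hx).le (hx2 hx').le).1 (mo_v x) covB22b covB30 hx hx'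
        Pool.Agent.Strip051.G.I6500_6900.Tab.C.BA23.c_pp_202_b noCut_EA noExt_EA F h trivial)

theorem BA23_pp_203 {κ x : ℝ} (hκ : κ * h0 = ken x) (hx : ((697932185 : ℕ) : ℝ) / S ≤ x) (hx' : x ≤ (((697932185 : ℕ) : ℝ) + (42949674 : ℕ)) / S) :
    TriA PP.cur (VE (h0 * 0) 3 κ (h0 * x) (eng.v x) (h0 * (3 / 40)) (tnt (h0 * x) (3 / 10)) (tbl tK x) (tbl tL x) (tbl (smT h0⁻¹ tC) x)) 2 0 3 2 3 1 1 :=
  (sideB hx hx').bothA (thrB hx hx') (en_pos (hx1 hx).le) (Or.inl rfl) (Or.inl rfl) fun y y' F =>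
    (lt_or_ge (h0 * y) 1).elim
      (fun h => bothA_cert (s1 := true) (s2 := true) rfl hκ (en_pos (hx1 hx).le) (esg_rng (hx1 hx).le (hx2 hx').le).1 (mo_v x) covB22a covB30 hx hx'
        Pool.Agent.Strip051.G.I6500_6900.Tab.C.BA23.c_pp_203_a noCut_EA noExt_EA F h trivial)
      (fun h => bothA_cert (s1 := true) (s2 := true) rfl hκ (en_pos (hx1 hx).le) (esg_rng (hx1 hx).le (hx2 hx').le).1 (mo_v x) covB22b covB30 hx hx'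
        Pool.Agent.Strip051.G.I6500_6900.Tab.C.BA23.c_pp_203_b noCut_EA noExt_EA F h trivial)

theorem BA23_pp_213 {κ x : ℝ} (hκ : κ * h0 = ken x) (hx : ((697932185 : ℕ) : ℝ) / S ≤ x) (hx' : x ≤ (((697932185 : ℕ) : ℝ) + (42949674 : ℕ)) / S) :
    TriA PP.cur (VE (h0 * 0) 3 κ (h0 * x) (eng.v x) (h0 * (3 / 40)) (tnt (h0 * x) (3 / 10)) (tbl tK x) (tbl tL x) (tbl (smT h0⁻¹ tC) x)) 2 1 3 2 3 1 1 :=
  (sideB hx hx').bothA (thrB hx hx') (en_pos (hx1 hx).le) (Or.inl rfl) (Or.inl rfl) fun y y' F =>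
    (lt_or_ge (h0 * y) 1).elim
      (fun h => bothA_cert (s1 := true) (s2 := true) rfl hκ (en_pos (hx1 hx).le) (esg_rng (hx1 hx).le (hx2 hx').le).1 (mo_v x) covB22a covB31 hx hx'
        Pool.Agent.Strip051.G.I6500_6900.Tab.C.BA23.c_pp_213_a noCut_EA noExt_EA F h trivial)
      (fun h => bothA_cert (s1 := true) (s2 := true) rfl hκ (en_pos (hx1 hx).le) (esg_rng (hx1 hx).le (hx2 hx').le).1 (mo_v x) covB22b covB31 hx hx'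
        Pool.Agent.Strip051.G.I6500_6900.Tab.C.BA23.c_pp_213_b noCut_EA noExt_EA F h trivial)

theorem BA23_pp_303 {κ x : ℝ} (hκ : κ * h0 = ken x) (hx : ((697932185 : ℕ) : ℝ) / S ≤ x) (hx' : x ≤ (((697932185 : ℕ) : ℝ) + (42949674 : ℕ)) / S) :
    TriA PP.cur (VE (h0 * 0) 3 κ (h0 * x) (eng.v x) (h0 * (3 / 40)) (tnt (h0 * x) (3 / 10)) (tbl tK x) (tbl tL x) (tbl (smT h0⁻¹ tC) x)) 3 0 3 2 3 1 1 :=
  (sideB hx hx').bothA (thrB hx hx') (en_pos (hx1 hx).le) (Or.inl rfl) (Or.inl rfl) fun y y' F =>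
    bothA_cert (s1 := true) (s2 := true) rfl hκ (en_pos (hx1 hx).le) (esg_rng (hx1 hx).le (hx2 hx').le).1 (mo_v x) covB23 covB30 hx hx'
        Pool.Agent.Strip051.G.I6500_6900.Tab.C.BA23.c_pp_303 noCut_EA noExt_EA F trivial trivial

theorem BA23_pp_313 {κ x : ℝ} (hκ : κ * h0 = ken x) (hx : ((697932185 : ℕ) : ℝ) / S ≤ x) (hx' : x ≤ (((697932185 : ℕ) : ℝ) + (42949674 : ℕ)) / S) :
    TriA PP.cur (VE (h0 * 0) 3 κ (h0 * x) (eng.v x) (h0 * (3 / 40)) (tnt (h0 * x) (3 / 10)) (tbl tK x) (tbl tL x) (tbl (smT h0⁻¹ tC) x)) 3 1 3 2 3 1 1 :=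
  (sideB hx hx').bothA (thrB hx hx') (en_pos (hx1 hx).le) (Or.inl rfl) (Or.inl rfl) fun y y' F =>
    bothA_cert (s1 := true) (s2 := true) rfl hκ (en_pos (hx1 hx).le) (esg_rng (hx1 hx).le (hx2 hx').le).1 (mo_v x) covB23 covB31 hx hx'
        Pool.Agent.Strip051.G.I6500_6900.Tab.C.BA23.c_pp_313 noCut_EA noExt_EA F trivial trivial

theorem BA23_pm_001 {κ x : ℝ} (hκ : κ * h0 = ken x) (hx : ((697932185 : ℕ) : ℝ) / S ≤ x) (hx' : x ≤ (((697932185 : ℕ) : ℝ) + (42949674 : ℕ)) / S) :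
    TriA PP.cur (VE (h0 * 0) 3 κ (h0 * x) (eng.v x) (h0 * (3 / 40)) (tnt (h0 * x) (3 / 10)) (tbl tK x) (tbl tL x) (tbl (smT h0⁻¹ tC) x)) 0 0 1 2 3 1 (-1) :=
  (sideB hx hx').bothA (thrB hx hx') (en_pos (hx1 hx).le) (Or.inl rfl) (Or.inr rfl) fun y y' F =>
    bothA_cert (s1 := true) (s2 := false) rfl hκ (en_pos (hx1 hx).le) (esg_rng (hx1 hx).le (hx2 hx').le).1 (mo_v x) covB20 covB30 hx hx'
        Pool.Agent.Strip051.G.I6500_6900.Tab.C.BA23.c_pm_001 noCut_EA noExt_EA F trivial trivial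

theorem BA23_pm_011 {κ x : ℝ} (hκ : κ * h0 = ken x) (hx : ((697932185 : ℕ) : ℝ) / S ≤ x) (hx' : x ≤ (((697932185 : ℕ) : ℝ) + (42949674 : ℕ)) / S) :
    TriA PP.cur (VE (h0 * 0) 3 κ (h0 * x) (eng.v x) (h0 * (3 / 40)) (tnt (h0 * x) (3 / 10)) (tbl tK x) (tbl tL x) (tbl (smT h0⁻¹ tC) x)) 0 1 1 2 3 1 (-1) :=
  (sideB hx hx').bothA (thrB hx hx') (en_pos (hx1 hx).le) (Or.inl rfl) (Or.inr rfl) fun y y' F =>
    bothA_cert (s1 := true) (s2 := false) rfl hκ (en_pos (hx1 hx).le) (esg_rng (hx1 hx).le (hx2 hx').le).1 (mo_v x) covB20 covB31 hx hx'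
        Pool.Agent.Strip051.G.I6500_6900.Tab.C.BA23.c_pm_011 noCut_EA noExt_EA F trivial trivial

theorem BA23_pm_012 {κ x : ℝ} (hκ : κ * h0 = ken x) (hx : ((697932185 : ℕ) : ℝ) / S ≤ x) (hx' : x ≤ (((697932185 : ℕ) : ℝ) + (42949674 : ℕ)) / S) :
    TriA PP.cur (VE (h0 * 0) 3 κ (h0 * x) (eng.v x) (h0 * (3 / 40)) (tnt (h0 * x) (3 / 10)) (tbl tK x) (tbl tL x) (tbl (smT h0⁻¹ tC) x)) 0 1 2 2 3 1 (-1) :=
  (sideB hx hx').bothA (thrB hx hx') (en_pos (hx1 hx).le) (Or.inl rfl) (Or.inr rfl) fun y y' F =>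
    bothA_cert (s1 := true) (s2 := false) rfl hκ (en_pos (hx1 hx).le) (esg_rng (hx1 hx).le (hx2 hx').le).1 (mo_v x) covB20 covB31 hx hx'
        Pool.Agent.Strip051.G.I6500_6900.Tab.C.BA23.c_pm_012 noCut_EA noExt_EA F trivial trivial

theorem BA23_pm_022 {κ x : ℝ} (hκ : κ * h0 = ken x) (hx : ((697932185 : ℕ) : ℝ) / S ≤ x) (hx' : x ≤ (((697932185 : ℕ) : ℝ) + (42949674 : ℕ)) / S) :
    TriA PP.cur (VE (h0 * 0) 3 κ (h0 * x) (eng.v x) (h0 * (3 / 40)) (tnt (h0 * x) (3 / 10)) (tbl tK x) (tbl tL x) (tbl (smT h0⁻¹ tC) x)) 0 2 2 2 3 1 (-1) :=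
  (sideB hx hx').bothA (thrB hx hx') (en_pos (hx1 hx).le) (Or.inl rfl) (Or.inr rfl) fun y y' F =>
    (lt_or_ge (h0 * y') 1).elim
      (fun g => bothA_cert (s1 := true) (s2 := false) rfl hκ (en_pos (hx1 hx).le) (esg_rng (hx1 hx).le (hx2 hx').le).1 (mo_v x) covB20 covB32a hx hx'
        Pool.Agent.Strip051.G.I6500_6900.Tab.C.BA23.c_pm_022_a (cutEA_cons (Pool.Agent.Strip051.G.I6500_6900.Tab.altB_A022E_23 hκ hx hx') cutEA_nil) noExt_EA F trivial g)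
      (fun g => bothA_cert (s1 := true) (s2 := false) rfl hκ (en_pos (hx1 hx).le) (esg_rng (hx1 hx).le (hx2 hx').le).1 (mo_v x) covB20 covB32b hx hx'
        Pool.Agent.Strip051.G.I6500_6900.Tab.C.BA23.c_pm_022_b (cutEA_cons (Pool.Agent.Strip051.G.I6500_6900.Tab.altB_A022E_23 hκ hx hx') cutEA_nil) noExt_EA F trivial g)

theorem BA23_pm_023 {κ x : ℝ} (hκ : κ * h0 = ken x) (hx : ((697932185 : ℕ) : ℝ) / S ≤ x) (hx' : x ≤ (((697932185 : ℕ) : ℝ) + (42949674 : ℕ)) / S) :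
    TriA PP.cur (VE (h0 * 0) 3 κ (h0 * x) (eng.v x) (h0 * (3 / 40)) (tnt (h0 * x) (3 / 10)) (tbl tK x) (tbl tL x) (tbl (smT h0⁻¹ tC) x)) 0 2 3 2 3 1 (-1) :=
  (sideB hx hx').bothA (thrB hx hx') (en_pos (hx1 hx).le) (Or.inl rfl) (Or.inr rfl) fun y y' F =>
    (lt_or_ge (h0 * y') 1).elim
      (fun g => bothA_cert (s1 := true) (s2 := false) rfl hκ (en_pos (hx1 hx).le) (esg_rng (hx1 hx).le (hx2 hx').le).1 (mo_v x) covB20 covB32a hx hx'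
        Pool.Agent.Strip051.G.I6500_6900.Tab.C.BA23.c_pm_023_a noCut_EA noExt_EA F trivial g)
      (fun g => bothA_cert (s1 := true) (s2 := false) rfl hκ (en_pos (hx1 hx).le) (esg_rng (hx1 hx).le (hx2 hx').le).1 (mo_v x) covB20 covB32b hx hx'
        Pool.Agent.Strip051.G.I6500_6900.Tab.C.BA23.c_pm_023_b noCut_EA noExt_EA F trivial g)

theorem BA23_pm_033 {κ x : ℝ} (hκ : κ * h0 = ken x) (hx : ((697932185 : ℕ) : ℝ) / S ≤ x) (hx' : x ≤ (((697932185 : ℕ) : ℝ) + (42949674 : ℕ)) / S) :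
    TriA PP.cur (VE (h0 * 0) 3 κ (h0 * x) (eng.v x) (h0 * (3 / 40)) (tnt (h0 * x) (3 / 10)) (tbl tK x) (tbl tL x) (tbl (smT h0⁻¹ tC) x)) 0 3 3 2 3 1 (-1) :=
  (sideB hx hx').bothA (thrB hx hx') (en_pos (hx1 hx).le) (Or.inl rfl) (Or.inr rfl) fun y y' F =>
    bothA_cert (s1 := true) (s2 := false) rfl hκ (en_pos (hx1 hx).le) (esg_rng (hx1 hx).le (hx2 hx').le).1 (mo_v x) covB20 covB33 hx hx'
        Pool.Agent.Strip051.G.I6500_6900.Tab.C.BA23.c_pm_033 noCut_EA noExt_EA F trivial trivial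

theorem BA23_pm_101 {κ x : ℝ} (hκ : κ * h0 = ken x) (hx : ((697932185 : ℕ) : ℝ) / S ≤ x) (hx' : x ≤ (((697932185 : ℕ) : ℝ) + (42949674 : ℕ)) / S) :
    TriA PP.cur (VE (h0 * 0) 3 κ (h0 * x) (eng.v x) (h0 * (3 / 40)) (tnt (h0 * x) (3 / 10)) (tbl tK x) (tbl tL x) (tbl (smT h0⁻¹ tC) x)) 1 0 1 2 3 1 (-1) :=
  (sideB hx hx').bothA (thrB hx hx') (en_pos (hx1 hx).le) (Or.inl rfl) (Or.inr rfl) fun y y' F =>
    bothA_cert (s1 := true) (s2 := false) rfl hκ (en_pos (hx1 hx).le) (esg_rng (hx1 hx).le (hx2 hx').le).1 (mo_v x) covB21 covB30 hx hx'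
        Pool.Agent.Strip051.G.I6500_6900.Tab.C.BA23.c_pm_101 noCut_EA noExt_EA F trivial trivial

theorem BA23_pm_102 {κ x : ℝ} (hκ : κ * h0 = ken x) (hx : ((697932185 : ℕ) : ℝ) / S ≤ x) (hx' : x ≤ (((697932185 : ℕ) : ℝ) + (42949674 : ℕ)) / S) :
    TriA PP.cur (VE (h0 * 0) 3 κ (h0 * x) (eng.v x) (h0 * (3 / 40)) (tnt (h0 * x) (3 / 10)) (tbl tK x) (tbl tL x) (tbl (smT h0⁻¹ tC) x)) 1 0 2 2 3 1 (-1) :=
  (sideB hx hx').bothA (thrB hx hx') (en_pos (hx1 hx).le) (Or.inl rfl) (Or.inr rfl) fun y y' F =>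
    bothA_cert (s1 := true) (s2 := false) rfl hκ (en_pos (hx1 hx).le) (esg_rng (hx1 hx).le (hx2 hx').le).1 (mo_v x) covB21 covB30 hx hx'
        Pool.Agent.Strip051.G.I6500_6900.Tab.C.BA23.c_pm_102 noCut_EA noExt_EA F trivial trivial

theorem BA23_pm_112 {κ x : ℝ} (hκ : κ * h0 = ken x) (hx : ((697932185 : ℕ) : ℝ) / S ≤ x) (hx' : x ≤ (((697932185 : ℕ) : ℝ) + (42949674 : ℕ)) / S) :
    TriA PP.cur (VE (h0 * 0) 3 κ (h0 * x) (eng.v x) (h0 * (3 / 40)) (tnt (h0 * x) (3 / 10)) (tbl tK x) (tbl tL x) (tbl (smT h0⁻¹ tC) x)) 1 1 2 2 3 1 (-1) :=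
  (sideB hx hx').bothA (thrB hx hx') (en_pos (hx1 hx).le) (Or.inl rfl) (Or.inr rfl) fun y y' F =>
    bothA_cert (s1 := true) (s2 := false) rfl hκ (en_pos (hx1 hx).le) (esg_rng (hx1 hx).le (hx2 hx').le).1 (mo_v x) covB21 covB31 hx hx'
        Pool.Agent.Strip051.G.I6500_6900.Tab.C.BA23.c_pm_112 noCut_EA noExt_EA F trivial trivial

theorem BA23_pm_113 {κ x : ℝ} (hκ : κ * h0 = ken x) (hx : ((697932185 : ℕ) : ℝ) / S ≤ x) (hx' : x ≤ (((697932185 : ℕ) : ℝ) + (42949674 : ℕ)) / S) :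
    TriA PP.cur (VE (h0 * 0) 3 κ (h0 * x) (eng.v x) (h0 * (3 / 40)) (tnt (h0 * x) (3 / 10)) (tbl tK x) (tbl tL x) (tbl (smT h0⁻¹ tC) x)) 1 1 3 2 3 1 (-1) :=
  (sideB hx hx').bothA (thrB hx hx') (en_pos (hx1 hx).le) (Or.inl rfl) (Or.inr rfl) fun y y' F =>
    bothA_cert (s1 := true) (s2 := false) rfl hκ (en_pos (hx1 hx).le) (esg_rng (hx1 hx).le (hx2 hx').le).1 (mo_v x) covB21 covB31 hx hx'
        Pool.Agent.Strip051.G.I6500_6900.Tab.C.BA23.c_pm_113 noCut_EA noExt_EA F trivial trivial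

theorem BA23_pm_123 {κ x : ℝ} (hκ : κ * h0 = ken x) (hx : ((697932185 : ℕ) : ℝ) / S ≤ x) (hx' : x ≤ (((697932185 : ℕ) : ℝ) + (42949674 : ℕ)) / S) :
    TriA PP.cur (VE (h0 * 0) 3 κ (h0 * x) (eng.v x) (h0 * (3 / 40)) (tnt (h0 * x) (3 / 10)) (tbl tK x) (tbl tL x) (tbl (smT h0⁻¹ tC) x)) 1 2 3 2 3 1 (-1) :=
  (sideB hx hx').bothA (thrB hx hx') (en_pos (hx1 hx).le) (Or.inl rfl) (Or.inr rfl) fun y y' F =>
    (lt_or_ge (h0 * y') 1).elim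
      (fun g => bothA_cert (s1 := true) (s2 := false) rfl hκ (en_pos (hx1 hx).le) (esg_rng (hx1 hx).le (hx2 hx').le).1 (mo_v x) covB21 covB32a hx hx'
        Pool.Agent.Strip051.G.I6500_6900.Tab.C.BA23.c_pm_123_a noCut_EA noExt_EA F trivial g)
      (fun g => bothA_cert (s1 := true) (s2 := false) rfl hκ (en_pos (hx1 hx).le) (esg_rng (hx1 hx).le (hx2 hx').le).1 (mo_v x) covB21 covB32b hx hx'
        Pool.Agent.Strip051.G.I6500_6900.Tab.C.BA23.c_pm_123_b noCut_EA noExt_EA F trivial g)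

theorem BA23_pm_133 {κ x : ℝ} (hκ : κ * h0 = ken x) (hx : ((697932185 : ℕ) : ℝ) / S ≤ x) (hx' : x ≤ (((697932185 : ℕ) : ℝ) + (42949674 : ℕ)) / S) :
    TriA PP.cur (VE (h0 * 0) 3 κ (h0 * x) (eng.v x) (h0 * (3 / 40)) (tnt (h0 * x) (3 / 10)) (tbl tK x) (tbl tL x) (tbl (smT h0⁻¹ tC) x)) 1 3 3 2 3 1 (-1) :=
  (sideB hx hx').bothA (thrB hx hx') (en_pos (hx1 hx).le) (Or.inl rfl) (Or.inr rfl) fun y y' F =>
    bothA_cert (s1 := true) (s2 := false) rfl hκ (en_pos (hx1 hx).le) (esg_rng (hx1 hx).le (hx2 hx').le).1 (mo_v x) covB21 covB33 hx hx'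
        Pool.Agent.Strip051.G.I6500_6900.Tab.C.BA23.c_pm_133 noCut_EA noExt_EA F trivial trivial

theorem BA23_pm_202 {κ x : ℝ} (hκ : κ * h0 = ken x) (hx : ((697932185 : ℕ) : ℝ) / S ≤ x) (hx' : x ≤ (((697932185 : ℕ) : ℝ) + (42949674 : ℕ)) / S) :
    TriA PP.cur (VE (h0 * 0) 3 κ (h0 * x) (eng.v x) (h0 * (3 / 40)) (tnt (h0 * x) (3 / 10)) (tbl tK x) (tbl tL x) (tbl (smT h0⁻¹ tC) x)) 2 0 2 2 3 1 (-1) :=
  (sideB hx hx').bothA (thrB hx hx') (en_pos (hx1 hx).le) (Or.inl rfl) (Or.inr rfl) fun y y' F =>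
    (lt_or_ge (h0 * y) 1).elim
      (fun h => bothA_cert (s1 := true) (s2 := false) rfl hκ (en_pos (hx1 hx).le) (esg_rng (hx1 hx).le (hx2 hx').le).1 (mo_v x) covB22a covB30 hx hx'
        Pool.Agent.Strip051.G.I6500_6900.Tab.C.BA23.c_pm_202_a (cutEA_cons (Pool.Agent.Strip051.G.I6500_6900.Tab.altB_A202E_23 hκ hx hx') cutEA_nil) noExt_EA F h trivial)
      (fun h => bothA_cert (s1 := true) (s2 := false) rfl hκ (en_pos (hx1 hx).le) (esg_rng (hx1 hx).le (hx2 hx').le).1 (mo_v x) covB22b covB30 hx hx'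
        Pool.Agent.Strip051.G.I6500_6900.Tab.C.BA23.c_pm_202_b (cutEA_cons (Pool.Agent.Strip051.G.I6500_6900.Tab.altB_A202E_23 hκ hx hx') cutEA_nil) noExt_EA F h trivial)

theorem BA23_pm_203 {κ x : ℝ} (hκ : κ * h0 = ken x) (hx : ((697932185 : ℕ) : ℝ) / S ≤ x) (hx' : x ≤ (((697932185 : ℕ) : ℝ) + (42949674 : ℕ)) / S) :
    TriA PP.cur (VE (h0 * 0) 3 κ (h0 * x) (eng.v x) (h0 * (3 / 40)) (tnt (h0 * x) (3 / 10)) (tbl tK x) (tbl tL x) (tbl (smT h0⁻¹ tC) x)) 2 0 3 2 3 1 (-1) :=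
  (sideB hx hx').bothA (thrB hx hx') (en_pos (hx1 hx).le) (Or.inl rfl) (Or.inr rfl) fun y y' F =>
    (lt_or_ge (h0 * y) 1).elim
      (fun h => bothA_cert (s1 := true) (s2 := false) rfl hκ (en_pos (hx1 hx).le) (esg_rng (hx1 hx).le (hx2 hx').le).1 (mo_v x) covB22a covB30 hx hx'
        Pool.Agent.Strip051.G.I6500_6900.Tab.C.BA23.c_pm_203_a noCut_EA noExt_EA F h trivial)
      (fun h => bothA_cert (s1 := true) (s2 := false) rfl hκ (en_pos (hx1 hx).le) (esg_rng (hx1 hx).le (hx2 hx').le).1 (mo_v x) covB22b covB30 hx hx'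
        Pool.Agent.Strip051.G.I6500_6900.Tab.C.BA23.c_pm_203_b noCut_EA noExt_EA F h trivial)

theorem BA23_pm_213 {κ x : ℝ} (hκ : κ * h0 = ken x) (hx : ((697932185 : ℕ) : ℝ) / S ≤ x) (hx' : x ≤ (((697932185 : ℕ) : ℝ) + (42949674 : ℕ)) / S) :
    TriA PP.cur (VE (h0 * 0) 3 κ (h0 * x) (eng.v x) (h0 * (3 / 40)) (tnt (h0 * x) (3 / 10)) (tbl tK x) (tbl tL x) (tbl (smT h0⁻¹ tC) x)) 2 1 3 2 3 1 (-1) :=
  (sideB hx hx').bothA (thrB hx hx') (en_pos (hx1 hx).le) (Or.inl rfl) (Or.inr rfl) fun y y' F =>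
    (lt_or_ge (h0 * y) 1).elim
      (fun h => bothA_cert (s1 := true) (s2 := false) rfl hκ (en_pos (hx1 hx).le) (esg_rng (hx1 hx).le (hx2 hx').le).1 (mo_v x) covB22a covB31 hx hx'
        Pool.Agent.Strip051.G.I6500_6900.Tab.C.BA23.c_pm_213_a noCut_EA noExt_EA F h trivial)
      (fun h => bothA_cert (s1 := true) (s2 := false) rfl hκ (en_pos (hx1 hx).le) (esg_rng (hx1 hx).le (hx2 hx').le).1 (mo_v x) covB22b covB31 hx hx'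
        Pool.Agent.Strip051.G.I6500_6900.Tab.C.BA23.c_pm_213_b noCut_EA noExt_EA F h trivial)

theorem BA23_pm_303 {κ x : ℝ} (hκ : κ * h0 = ken x) (hx : ((697932185 : ℕ) : ℝ) / S ≤ x) (hx' : x ≤ (((697932185 : ℕ) : ℝ) + (42949674 : ℕ)) / S) :
    TriA PP.cur (VE (h0 * 0) 3 κ (h0 * x) (eng.v x) (h0 * (3 / 40)) (tnt (h0 * x) (3 / 10)) (tbl tK x) (tbl tL x) (tbl (smT h0⁻¹ tC) x)) 3 0 3 2 3 1 (-1) :=
  (sideB hx hx').bothA (thrB hx hx') (en_pos (hx1 hx).le) (Or.inl rfl) (Or.inr rfl) fun y y' F =>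
    bothA_cert (s1 := true) (s2 := false) rfl hκ (en_pos (hx1 hx).le) (esg_rng (hx1 hx).le (hx2 hx').le).1 (mo_v x) covB23 covB30 hx hx'
        Pool.Agent.Strip051.G.I6500_6900.Tab.C.BA23.c_pm_303 noCut_EA noExt_EA F trivial trivial

theorem BA23_pm_313 {κ x : ℝ} (hκ : κ * h0 = ken x) (hx : ((697932185 : ℕ) : ℝ) / S ≤ x) (hx' : x ≤ (((697932185 : ℕ) : ℝ) + (42949674 : ℕ)) / S) :
    TriA PP.cur (VE (h0 * 0) 3 κ (h0 * x) (eng.v x) (h0 * (3 / 40)) (tnt (h0 * x) (3 / 10)) (tbl tK x) (tbl tL x) (tbl (smT h0⁻¹ tC) x)) 3 1 3 2 3 1 (-1) :=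
  (sideB hx hx').bothA (thrB hx hx') (en_pos (hx1 hx).le) (Or.inl rfl) (Or.inr rfl) fun y y' F =>
    bothA_cert (s1 := true) (s2 := false) rfl hκ (en_pos (hx1 hx).le) (esg_rng (hx1 hx).le (hx2 hx').le).1 (mo_v x) covB23 covB31 hx hx'
        Pool.Agent.Strip051.G.I6500_6900.Tab.C.BA23.c_pm_313 noCut_EA noExt_EA F trivial trivial

theorem BA23_mm_001 {κ x : ℝ} (hκ : κ * h0 = ken x) (hx : ((697932185 : ℕ) : ℝ) / S ≤ x) (hx' : x ≤ (((697932185 : ℕ) : ℝ) + (42949674 : ℕ)) / S) :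
    TriA PP.cur (VE (h0 * 0) 3 κ (h0 * x) (eng.v x) (h0 * (3 / 40)) (tnt (h0 * x) (3 / 10)) (tbl tK x) (tbl tL x) (tbl (smT h0⁻¹ tC) x)) 0 0 1 2 3 (-1) (-1) :=
  (sideB hx hx').bothA (thrB hx hx') (en_pos (hx1 hx).le) (Or.inr rfl) (Or.inr rfl) fun y y' F =>
    bothA_cert (s1 := false) (s2 := false) rfl hκ (en_pos (hx1 hx).le) (esg_rng (hx1 hx).le (hx2 hx').le).1 (mo_v x) covB20 covB30 hx hx'
        Pool.Agent.Strip051.G.I6500_6900.Tab.C.BA23.c_mm_001 noCut_EA noExt_EA F trivial trivial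

theorem BA23_mm_011 {κ x : ℝ} (hκ : κ * h0 = ken x) (hx : ((697932185 : ℕ) : ℝ) / S ≤ x) (hx' : x ≤ (((697932185 : ℕ) : ℝ) + (42949674 : ℕ)) / S) :
    TriA PP.cur (VE (h0 * 0) 3 κ (h0 * x) (eng.v x) (h0 * (3 / 40)) (tnt (h0 * x) (3 / 10)) (tbl tK x) (tbl tL x) (tbl (smT h0⁻¹ tC) x)) 0 1 1 2 3 (-1) (-1) :=
  (sideB hx hx').bothA (thrB hx hx') (en_pos (hx1 hx).le) (Or.inr rfl) (Or.inr rfl) fun y y' F =>
    bothA_cert (s1 := false) (s2 := false) rfl hκ (en_pos (hx1 hx).le) (esg_rng (hx1 hx).le (hx2 hx').le).1 (mo_v x) covB20 covB31 hx hx'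
        Pool.Agent.Strip051.G.I6500_6900.Tab.C.BA23.c_mm_011 noCut_EA noExt_EA F trivial trivial

theorem BA23_mm_012 {κ x : ℝ} (hκ : κ * h0 = ken x) (hx : ((697932185 : ℕ) : ℝ) / S ≤ x) (hx' : x ≤ (((697932185 : ℕ) : ℝ) + (42949674 : ℕ)) / S) :
    TriA PP.cur (VE (h0 * 0) 3 κ (h0 * x) (eng.v x) (h0 * (3 / 40)) (tnt (h0 * x) (3 / 10)) (tbl tK x) (tbl tL x) (tbl (smT h0⁻¹ tC) x)) 0 1 2 2 3 (-1) (-1) :=
  (sideB hx hx').bothA (thrB hx hx') (en_pos (hx1 hx).le) (Or.inr rfl) (Or.inr rfl) fun y y' F =>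
    bothA_cert (s1 := false) (s2 := false) rfl hκ (en_pos (hx1 hx).le) (esg_rng (hx1 hx).le (hx2 hx').le).1 (mo_v x) covB20 covB31 hx hx'
        Pool.Agent.Strip051.G.I6500_6900.Tab.C.BA23.c_mm_012 noCut_EA noExt_EA F trivial trivial

theorem BA23_mm_022 {κ x : ℝ} (hκ : κ * h0 = ken x) (hx : ((697932185 : ℕ) : ℝ) / S ≤ x) (hx' : x ≤ (((697932185 : ℕ) : ℝ) + (42949674 : ℕ)) / S) :
    TriA PP.cur (VE (h0 * 0) 3 κ (h0 * x) (eng.v x) (h0 * (3 / 40)) (tnt (h0 * x) (3 / 10)) (tbl tK x) (tbl tL x) (tbl (smT h0⁻¹ tC) x)) 0 2 2 2 3 (-1) (-1) :=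
  (sideB hx hx').bothA (thrB hx hx') (en_pos (hx1 hx).le) (Or.inr rfl) (Or.inr rfl) fun y y' F =>
    (lt_or_ge (h0 * y') 1).elim
      (fun g => bothA_cert (s1 := false) (s2 := false) rfl hκ (en_pos (hx1 hx).le) (esg_rng (hx1 hx).le (hx2 hx').le).1 (mo_v x) covB20 covB32a hx hx'
        Pool.Agent.Strip051.G.I6500_6900.Tab.C.BA23.c_mm_022_a noCut_EA noExt_EA F trivial g)
      (fun g => bothA_cert (s1 := false) (s2 := false) rfl hκ (en_pos (hx1 hx).le) (esg_rng (hx1 hx).le (hx2 hx').le).1 (mo_v x) covB20 covB32b hx hx'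
        Pool.Agent.Strip051.G.I6500_6900.Tab.C.BA23.c_mm_022_b noCut_EA noExt_EA F trivial g)

theorem BA23_mm_023 {κ x : ℝ} (hκ : κ * h0 = ken x) (hx : ((697932185 : ℕ) : ℝ) / S ≤ x) (hx' : x ≤ (((697932185 : ℕ) : ℝ) + (42949674 : ℕ)) / S) :
    TriA PP.cur (VE (h0 * 0) 3 κ (h0 * x) (eng.v x) (h0 * (3 / 40)) (tnt (h0 * x) (3 / 10)) (tbl tK x) (tbl tL x) (tbl (smT h0⁻¹ tC) x)) 0 2 3 2 3 (-1) (-1) :=
  (sideB hx hx').bothA (thrB hx hx') (en_pos (hx1 hx).le) (Or.inr rfl) (Or.inr rfl) fun y y' F =>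
    (lt_or_ge (h0 * y') 1).elim
      (fun g => bothA_cert (s1 := false) (s2 := false) rfl hκ (en_pos (hx1 hx).le) (esg_rng (hx1 hx).le (hx2 hx').le).1 (mo_v x) covB20 covB32a hx hx'
        Pool.Agent.Strip051.G.I6500_6900.Tab.C.BA23.c_mm_023_a noCut_EA noExt_EA F trivial g)
      (fun g => bothA_cert (s1 := false) (s2 := false) rfl hκ (en_pos (hx1 hx).le) (esg_rng (hx1 hx).le (hx2 hx').le).1 (mo_v x) covB20 covB32b hx hx'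
        Pool.Agent.Strip051.G.I6500_6900.Tab.C.BA23.c_mm_023_b noCut_EA noExt_EA F trivial g)

theorem BA23_mm_033 {κ x : ℝ} (hκ : κ * h0 = ken x) (hx : ((697932185 : ℕ) : ℝ) / S ≤ x) (hx' : x ≤ (((697932185 : ℕ) : ℝ) + (42949674 : ℕ)) / S) :
    TriA PP.cur (VE (h0 * 0) 3 κ (h0 * x) (eng.v x) (h0 * (3 / 40)) (tnt (h0 * x) (3 / 10)) (tbl tK x) (tbl tL x) (tbl (smT h0⁻¹ tC) x)) 0 3 3 2 3 (-1) (-1) :=
  (sideB hx hx').bothA (thrB hx hx') (en_pos (hx1 hx).le) (Or.inr rfl) (Or.inr rfl) fun y y' F =>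
    bothA_cert (s1 := false) (s2 := false) rfl hκ (en_pos (hx1 hx).le) (esg_rng (hx1 hx).le (hx2 hx').le).1 (mo_v x) covB20 covB33 hx hx'
        Pool.Agent.Strip051.G.I6500_6900.Tab.C.BA23.c_mm_033 noCut_EA noExt_EA F trivial trivial

theorem BA23_mm_101 {κ x : ℝ} (hκ : κ * h0 = ken x) (hx : ((697932185 : ℕ) : ℝ) / S ≤ x) (hx' : x ≤ (((697932185 : ℕ) : ℝ) + (42949674 : ℕ)) / S) :
    TriA PP.cur (VE (h0 * 0) 3 κ (h0 * x) (eng.v x) (h0 * (3 / 40)) (tnt (h0 * x) (3 / 10)) (tbl tK x) (tbl tL x) (tbl (smT h0⁻¹ tC) x)) 1 0 1 2 3 (-1) (-1) :=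
  (sideB hx hx').bothA (thrB hx hx') (en_pos (hx1 hx).le) (Or.inr rfl) (Or.inr rfl) fun y y' F =>
    bothA_cert (s1 := false) (s2 := false) rfl hκ (en_pos (hx1 hx).le) (esg_rng (hx1 hx).le (hx2 hx').le).1 (mo_v x) covB21 covB30 hx hx'
        Pool.Agent.Strip051.G.I6500_6900.Tab.C.BA23.c_mm_101 noCut_EA noExt_EA F trivial trivial

theorem BA23_mm_102 {κ x : ℝ} (hκ : κ * h0 = ken x) (hx : ((697932185 : ℕ) : ℝ) / S ≤ x) (hx' : x ≤ (((697932185 : ℕ) : ℝ) + (42949674 : ℕ)) / S) :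
    TriA PP.cur (VE (h0 * 0) 3 κ (h0 * x) (eng.v x) (h0 * (3 / 40)) (tnt (h0 * x) (3 / 10)) (tbl tK x) (tbl tL x) (tbl (smT h0⁻¹ tC) x)) 1 0 2 2 3 (-1) (-1) :=
  (sideB hx hx').bothA (thrB hx hx') (en_pos (hx1 hx).le) (Or.inr rfl) (Or.inr rfl) fun y y' F =>
    bothA_cert (s1 := false) (s2 := false) rfl hκ (en_pos (hx1 hx).le) (esg_rng (hx1 hx).le (hx2 hx').le).1 (mo_v x) covB21 covB30 hx hx'
        Pool.Agent.Strip051.G.I6500_6900.Tab.C.BA23.c_mm_102 noCut_EA noExt_EA F trivial trivial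

theorem BA23_mm_112 {κ x : ℝ} (hκ : κ * h0 = ken x) (hx : ((697932185 : ℕ) : ℝ) / S ≤ x) (hx' : x ≤ (((697932185 : ℕ) : ℝ) + (42949674 : ℕ)) / S) :
    TriA PP.cur (VE (h0 * 0) 3 κ (h0 * x) (eng.v x) (h0 * (3 / 40)) (tnt (h0 * x) (3 / 10)) (tbl tK x) (tbl tL x) (tbl (smT h0⁻¹ tC) x)) 1 1 2 2 3 (-1) (-1) :=
  (sideB hx hx').bothA (thrB hx hx') (en_pos (hx1 hx).le) (Or.inr rfl) (Or.inr rfl) fun y y' F =>
    bothA_cert (s1 := false) (s2 := false) rfl hκ (en_pos (hx1 hx).le) (esg_rng (hx1 hx).le (hx2 hx').le).1 (mo_v x) covB21 covB31 hx hx'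
        Pool.Agent.Strip051.G.I6500_6900.Tab.C.BA23.c_mm_112 noCut_EA noExt_EA F trivial trivial

theorem BA23_mm_113 {κ x : ℝ} (hκ : κ * h0 = ken x) (hx : ((697932185 : ℕ) : ℝ) / S ≤ x) (hx' : x ≤ (((697932185 : ℕ) : ℝ) + (42949674 : ℕ)) / S) :
    TriA PP.cur (VE (h0 * 0) 3 κ (h0 * x) (eng.v x) (h0 * (3 / 40)) (tnt (h0 * x) (3 / 10)) (tbl tK x) (tbl tL x) (tbl (smT h0⁻¹ tC) x)) 1 1 3 2 3 (-1) (-1) :=
  (sideB hx hx').bothA (thrB hx hx') (en_pos (hx1 hx).le) (Or.inr rfl) (Or.inr rfl) fun y y' F =>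
    bothA_cert (s1 := false) (s2 := false) rfl hκ (en_pos (hx1 hx).le) (esg_rng (hx1 hx).le (hx2 hx').le).1 (mo_v x) covB21 covB31 hx hx'
        Pool.Agent.Strip051.G.I6500_6900.Tab.C.BA23.c_mm_113 noCut_EA noExt_EA F trivial trivial

theorem BA23_mm_123 {κ x : ℝ} (hκ : κ * h0 = ken x) (hx : ((697932185 : ℕ) : ℝ) / S ≤ x) (hx' : x ≤ (((697932185 : ℕ) : ℝ) + (42949674 : ℕ)) / S) :
    TriA PP.cur (VE (h0 * 0) 3 κ (h0 * x) (eng.v x) (h0 * (3 / 40)) (tnt (h0 * x) (3 / 10)) (tbl tK x) (tbl tL x) (tbl (smT h0⁻¹ tC) x)) 1 2 3 2 3 (-1) (-1) :=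
  (sideB hx hx').bothA (thrB hx hx') (en_pos (hx1 hx).le) (Or.inr rfl) (Or.inr rfl) fun y y' F =>
    (lt_or_ge (h0 * y') 1).elim
      (fun g => bothA_cert (s1 := false) (s2 := false) rfl hκ (en_pos (hx1 hx).le) (esg_rng (hx1 hx).le (hx2 hx').le).1 (mo_v x) covB21 covB32a hx hx'
        Pool.Agent.Strip051.G.I6500_6900.Tab.C.BA23.c_mm_123_a noCut_EA noExt_EA F trivial g)
      (fun g => bothA_cert (s1 := false) (s2 := false) rfl hκ (en_pos (hx1 hx).le) (esg_rng (hx1 hx).le (hx2 hx').le).1 (mo_v x) covB21 covB32b hx hx'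
        Pool.Agent.Strip051.G.I6500_6900.Tab.C.BA23.c_mm_123_b noCut_EA noExt_EA F trivial g)

theorem BA23_mm_133 {κ x : ℝ} (hκ : κ * h0 = ken x) (hx : ((697932185 : ℕ) : ℝ) / S ≤ x) (hx' : x ≤ (((697932185 : ℕ) : ℝ) + (42949674 : ℕ)) / S) :
    TriA PP.cur (VE (h0 * 0) 3 κ (h0 * x) (eng.v x) (h0 * (3 / 40)) (tnt (h0 * x) (3 / 10)) (tbl tK x) (tbl tL x) (tbl (smT h0⁻¹ tC) x)) 1 3 3 2 3 (-1) (-1) :=
  (sideB hx hx').bothA (thrB hx hx') (en_pos (hx1 hx).le) (Or.inr rfl) (Or.inr rfl) fun y y' F =>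
    bothA_cert (s1 := false) (s2 := false) rfl hκ (en_pos (hx1 hx).le) (esg_rng (hx1 hx).le (hx2 hx').le).1 (mo_v x) covB21 covB33 hx hx'
        Pool.Agent.Strip051.G.I6500_6900.Tab.C.BA23.c_mm_133 noCut_EA noExt_EA F trivial trivial

theorem BA23_mm_202 {κ x : ℝ} (hκ : κ * h0 = ken x) (hx : ((697932185 : ℕ) : ℝ) / S ≤ x) (hx' : x ≤ (((697932185 : ℕ) : ℝ) + (42949674 : ℕ)) / S) :
    TriA PP.cur (VE (h0 * 0) 3 κ (h0 * x) (eng.v x) (h0 * (3 / 40)) (tnt (h0 * x) (3 / 10)) (tbl tK x) (tbl tL x) (tbl (smT h0⁻¹ tC) x)) 2 0 2 2 3 (-1) (-1) :=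
  (sideB hx hx').bothA (thrB hx hx') (en_pos (hx1 hx).le) (Or.inr rfl) (Or.inr rfl) fun y y' F =>
    (lt_or_ge (h0 * y) 1).elim
      (fun h => bothA_cert (s1 := false) (s2 := false) rfl hκ (en_pos (hx1 hx).le) (esg_rng (hx1 hx).le (hx2 hx').le).1 (mo_v x) covB22a covB30 hx hx'
        Pool.Agent.Strip051.G.I6500_6900.Tab.C.BA23.c_mm_202_a (cutEA_cons (Pool.Agent.Strip051.G.I6500_6900.Tab.altB_A202R_23 hκ hx hx') cutEA_nil) noExt_EA F h trivial)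
      (fun h => bothA_cert (s1 := false) (s2 := false) rfl hκ (en_pos (hx1 hx).le) (esg_rng (hx1 hx).le (hx2 hx').le).1 (mo_v x) covB22b covB30 hx hx'
        Pool.Agent.Strip051.G.I6500_6900.Tab.C.BA23.c_mm_202_b (cutEA_cons (Pool.Agent.Strip051.G.I6500_6900.Tab.altB_A202R_23 hκ hx hx') cutEA_nil) noExt_EA F h trivial)

theorem BA23_mm_203 {κ x : ℝ} (hκ : κ * h0 = ken x) (hx : ((697932185 : ℕ) : ℝ) / S ≤ x) (hx' : x ≤ (((697932185 : ℕ) : ℝ) + (42949674 : ℕ)) / S) :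
    TriA PP.cur (VE (h0 * 0) 3 κ (h0 * x) (eng.v x) (h0 * (3 / 40)) (tnt (h0 * x) (3 / 10)) (tbl tK x) (tbl tL x) (tbl (smT h0⁻¹ tC) x)) 2 0 3 2 3 (-1) (-1) :=
  (sideB hx hx').bothA (thrB hx hx') (en_pos (hx1 hx).le) (Or.inr rfl) (Or.inr rfl) fun y y' F =>
    (lt_or_ge (h0 * y) 1).elim
      (fun h => bothA_cert (s1 := false) (s2 := false) rfl hκ (en_pos (hx1 hx).le) (esg_rng (hx1 hx).le (hx2 hx').le).1 (mo_v x) covB22a covB30 hx hx'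
        Pool.Agent.Strip051.G.I6500_6900.Tab.C.BA23.c_mm_203_a noCut_EA noExt_EA F h trivial)
      (fun h => bothA_cert (s1 := false) (s2 := false) rfl hκ (en_pos (hx1 hx).le) (esg_rng (hx1 hx).le (hx2 hx').le).1 (mo_v x) covB22b covB30 hx hx'
        Pool.Agent.Strip051.G.I6500_6900.Tab.C.BA23.c_mm_203_b noCut_EA noExt_EA F h trivial)

theorem BA23_mm_213 {κ x : ℝ} (hκ : κ * h0 = ken x) (hx : ((697932185 : ℕ) : ℝ) / S ≤ x) (hx' : x ≤ (((697932185 : ℕ) : ℝ) + (42949674 : ℕ)) / S) :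
    TriA PP.cur (VE (h0 * 0) 3 κ (h0 * x) (eng.v x) (h0 * (3 / 40)) (tnt (h0 * x) (3 / 10)) (tbl tK x) (tbl tL x) (tbl (smT h0⁻¹ tC) x)) 2 1 3 2 3 (-1) (-1) :=
  (sideB hx hx').bothA (thrB hx hx') (en_pos (hx1 hx).le) (Or.inr rfl) (Or.inr rfl) fun y y' F =>
    (lt_or_ge (h0 * y) 1).elim
      (fun h => bothA_cert (s1 := false) (s2 := false) rfl hκ (en_pos (hx1 hx).le) (esg_rng (hx1 hx).le (hx2 hx').le).1 (mo_v x) covB22a covB31 hx hx'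
        Pool.Agent.Strip051.G.I6500_6900.Tab.C.BA23.c_mm_213_a noCut_EA noExt_EA F h trivial)
      (fun h => bothA_cert (s1 := false) (s2 := false) rfl hκ (en_pos (hx1 hx).le) (esg_rng (hx1 hx).le (hx2 hx').le).1 (mo_v x) covB22b covB31 hx hx'
        Pool.Agent.Strip051.G.I6500_6900.Tab.C.BA23.c_mm_213_b noCut_EA noExt_EA F h trivial)

theorem BA23_mm_303 {κ x : ℝ} (hκ : κ * h0 = ken x) (hx : ((697932185 : ℕ) : ℝ) / S ≤ x) (hx' : x ≤ (((697932185 : ℕ) : ℝ) + (42949674 : ℕ)) / S) :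
    TriA PP.cur (VE (h0 * 0) 3 κ (h0 * x) (eng.v x) (h0 * (3 / 40)) (tnt (h0 * x) (3 / 10)) (tbl tK x) (tbl tL x) (tbl (smT h0⁻¹ tC) x)) 3 0 3 2 3 (-1) (-1) :=
  (sideB hx hx').bothA (thrB hx hx') (en_pos (hx1 hx).le) (Or.inr rfl) (Or.inr rfl) fun y y' F =>
    bothA_cert (s1 := false) (s2 := false) rfl hκ (en_pos (hx1 hx).le) (esg_rng (hx1 hx).le (hx2 hx').le).1 (mo_v x) covB23 covB30 hx hx'
        Pool.Agent.Strip051.G.I6500_6900.Tab.C.BA23.c_mm_303 noCut_EA noExt_EA F trivial trivial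

theorem BA23_mm_313 {κ x : ℝ} (hκ : κ * h0 = ken x) (hx : ((697932185 : ℕ) : ℝ) / S ≤ x) (hx' : x ≤ (((697932185 : ℕ) : ℝ) + (42949674 : ℕ)) / S) :
    TriA PP.cur (VE (h0 * 0) 3 κ (h0 * x) (eng.v x) (h0 * (3 / 40)) (tnt (h0 * x) (3 / 10)) (tbl tK x) (tbl tL x) (tbl (smT h0⁻¹ tC) x)) 3 1 3 2 3 (-1) (-1) :=
  (sideB hx hx').bothA (thrB hx hx') (en_pos (hx1 hx).le) (Or.inr rfl) (Or.inr rfl) fun y y' F =>
    bothA_cert (s1 := false) (s2 := false) rfl hκ (en_pos (hx1 hx).le) (esg_rng (hx1 hx).le (hx2 hx').le).1 (mo_v x) covB23 covB31 hx hx'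
        Pool.Agent.Strip051.G.I6500_6900.Tab.C.BA23.c_mm_313 noCut_EA noExt_EA F trivial trivial

theorem BA23 {κ x : ℝ} (hκ : κ * h0 = ken x) (hx : ((697932185 : ℕ) : ℝ) / S ≤ x) (hx' : x ≤ (((697932185 : ℕ) : ℝ) + (42949674 : ℕ)) / S) : AllTA PP.cur (VE (h0 * 0) 3 κ (h0 * x) (eng.v x) (h0 * (3 / 40)) (tnt (h0 * x) (3 / 10)) (tbl tK x) (tbl tL x) (tbl (smT h0⁻¹ tC) x)) 2 3 where
  pp := all17 (Q := fun a b c => TriA PP.cur (VE (h0 * 0) 3 κ (h0 * x) (eng.v x) (h0 * (3 / 40)) (tnt (h0 * x) (3 / 10)) (tbl tK x) (tbl tL x) (tbl (smT h0⁻¹ tC) x)) a b c 2 3 1 1)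
    (BA23_pp_001 hκ hx hx') (BA23_pp_011 hκ hx hx') (BA23_pp_012 hκ hx hx') (BA23_pp_022 hκ hx hx') (BA23_pp_023 hκ hx hx') (BA23_pp_033 hκ hx hx') (BA23_pp_101 hκ hx hx') (BA23_pp_102 hκ hx hx') (BA23_pp_112 hκ hx hx') (BA23_pp_113 hκ hx hx') (BA23_pp_123 hκ hx hx') (BA23_pp_133 hκ hx hx') (BA23_pp_202 hκ hx hx') (BA23_pp_203 hκ hx hx') (BA23_pp_213 hκ hx hx') (BA23_pp_303 hκ hx hx') (BA23_pp_313 hκ hx hx')
  pm := all17 (Q := fun a b c => TriA PP.cur (VE (h0 * 0) 3 κ (h0 * x) (eng.v x) (h0 * (3 / 40)) (tnt (h0 * x) (3 / 10)) (tbl tK x) (tbl tL x) (tbl (smT h0⁻¹ tC) x)) a b c 2 3 1 (-1))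
    (BA23_pm_001 hκ hx hx') (BA23_pm_011 hκ hx hx') (BA23_pm_012 hκ hx hx') (BA23_pm_022 hκ hx hx') (BA23_pm_023 hκ hx hx') (BA23_pm_033 hκ hx hx') (BA23_pm_101 hκ hx hx') (BA23_pm_102 hκ hx hx') (BA23_pm_112 hκ hx hx') (BA23_pm_113 hκ hx hx') (BA23_pm_123 hκ hx hx') (BA23_pm_133 hκ hx hx') (BA23_pm_202 hκ hx hx') (BA23_pm_203 hκ hx hx') (BA23_pm_213 hκ hx hx') (BA23_pm_303 hκ hx hx') (BA23_pm_313 hκ hx hx')
  mm := all17 (Q := fun a b c => TriA PP.cur (VE (h0 * 0) 3 κ (h0 * x) (eng.v x) (h0 * (3 / 40)) (tnt (h0 * x) (3 / 10)) (tbl tK x) (tbl tL x) (tbl (smT h0⁻¹ tC) x)) a b c 2 3 (-1) (-1))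
    (BA23_mm_001 hκ hx hx') (BA23_mm_011 hκ hx hx') (BA23_mm_012 hκ hx hx') (BA23_mm_022 hκ hx hx') (BA23_mm_023 hκ hx hx') (BA23_mm_033 hκ hx hx') (BA23_mm_101 hκ hx hx') (BA23_mm_102 hκ hx hx') (BA23_mm_112 hκ hx hx') (BA23_mm_113 hκ hx hx') (BA23_mm_123 hκ hx hx') (BA23_mm_133 hκ hx hx') (BA23_mm_202 hκ hx hx') (BA23_mm_203 hκ hx hx') (BA23_mm_213 hκ hx hx') (BA23_mm_303 hκ hx hx') (BA23_mm_313 hκ hx hx')

theorem BA24_pp_001 {κ x : ℝ} (hκ : κ * h0 = ken x) (hx : ((697932185 : ℕ) : ℝ) / S ≤ x) (hx' : x ≤ (((697932185 : ℕ) : ℝ) + (42949674 : ℕ)) / S) :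
    TriA PP.cur (VE (h0 * 0) 3 κ (h0 * x) (eng.v x) (h0 * (3 / 40)) (tnt (h0 * x) (3 / 10)) (tbl tK x) (tbl tL x) (tbl (smT h0⁻¹ tC) x)) 0 0 1 2 4 1 1 :=
  (sideB hx hx').bothA (thrB hx hx') (en_pos (hx1 hx).le) (Or.inl rfl) (Or.inl rfl) fun y y' F =>
    bothA_cert (s1 := true) (s2 := true) rfl hκ (en_pos (hx1 hx).le) (esg_rng (hx1 hx).le (hx2 hx').le).1 (mo_v x) covB20 covB40 hx hx'
        Pool.Agent.Strip051.G.I6500_6900.Tab.C.BA24.c_pp_001 noCut_EA noExt_EA F trivial trivial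

theorem BA24_pp_011 {κ x : ℝ} (hκ : κ * h0 = ken x) (hx : ((697932185 : ℕ) : ℝ) / S ≤ x) (hx' : x ≤ (((697932185 : ℕ) : ℝ) + (42949674 : ℕ)) / S) :
    TriA PP.cur (VE (h0 * 0) 3 κ (h0 * x) (eng.v x) (h0 * (3 / 40)) (tnt (h0 * x) (3 / 10)) (tbl tK x) (tbl tL x) (tbl (smT h0⁻¹ tC) x)) 0 1 1 2 4 1 1 :=
  (sideB hx hx').bothA (thrB hx hx') (en_pos (hx1 hx).le) (Or.inl rfl) (Or.inl rfl) fun y y' F =>
    bothA_cert (s1 := true) (s2 := true) rfl hκ (en_pos (hx1 hx).le) (esg_rng (hx1 hx).le (hx2 hx').le).1 (mo_v x) covB20 covB41 hx hx'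
        Pool.Agent.Strip051.G.I6500_6900.Tab.C.BA24.c_pp_011 noCut_EA noExt_EA F trivial trivial

theorem BA24_pp_012 {κ x : ℝ} (hκ : κ * h0 = ken x) (hx : ((697932185 : ℕ) : ℝ) / S ≤ x) (hx' : x ≤ (((697932185 : ℕ) : ℝ) + (42949674 : ℕ)) / S) :
    TriA PP.cur (VE (h0 * 0) 3 κ (h0 * x) (eng.v x) (h0 * (3 / 40)) (tnt (h0 * x) (3 / 10)) (tbl tK x) (tbl tL x) (tbl (smT h0⁻¹ tC) x)) 0 1 2 2 4 1 1 :=
  (sideB hx hx').bothA (thrB hx hx') (en_pos (hx1 hx).le) (Or.inl rfl) (Or.inl rfl) fun y y' F =>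
    bothA_cert (s1 := true) (s2 := true) rfl hκ (en_pos (hx1 hx).le) (esg_rng (hx1 hx).le (hx2 hx').le).1 (mo_v x) covB20 covB41 hx hx'
        Pool.Agent.Strip051.G.I6500_6900.Tab.C.BA24.c_pp_012 noCut_EA noExt_EA F trivial trivial

theorem BA24_pp_022 {κ x : ℝ} (hκ : κ * h0 = ken x) (hx : ((697932185 : ℕ) : ℝ) / S ≤ x) (hx' : x ≤ (((697932185 : ℕ) : ℝ) + (42949674 : ℕ)) / S) :
    TriA PP.cur (VE (h0 * 0) 3 κ (h0 * x) (eng.v x) (h0 * (3 / 40)) (tnt (h0 * x) (3 / 10)) (tbl tK x) (tbl tL x) (tbl (smT h0⁻¹ tC) x)) 0 2 2 2 4 1 1 :=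
  (sideB hx hx').bothA (thrB hx hx') (en_pos (hx1 hx).le) (Or.inl rfl) (Or.inl rfl) fun y y' F =>
    (lt_or_ge (h0 * y') 1).elim
      (fun g => bothA_cert (s1 := true) (s2 := true) rfl hκ (en_pos (hx1 hx).le) (esg_rng (hx1 hx).le (hx2 hx').le).1 (mo_v x) covB20 covB42a hx hx'
        Pool.Agent.Strip051.G.I6500_6900.Tab.C.BA24.c_pp_022_a (cutEA_cons (Pool.Agent.Strip051.G.I6500_6900.Tab.altB_A022L_24 hκ hx hx') cutEA_nil) noExt_EA F trivial g)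
      (fun g => bothA_cert (s1 := true) (s2 := true) rfl hκ (en_pos (hx1 hx).le) (esg_rng (hx1 hx).le (hx2 hx').le).1 (mo_v x) covB20 covB42b hx hx'
        Pool.Agent.Strip051.G.I6500_6900.Tab.C.BA24.c_pp_022_b (cutEA_cons (Pool.Agent.Strip051.G.I6500_6900.Tab.altB_A022L_24 hκ hx hx') cutEA_nil) noExt_EA F trivial g)

theorem BA24_pp_023 {κ x : ℝ} (hκ : κ * h0 = ken x) (hx : ((697932185 : ℕ) : ℝ) / S ≤ x) (hx' : x ≤ (((697932185 : ℕ) : ℝ) + (42949674 : ℕ)) / S) :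
    TriA PP.cur (VE (h0 * 0) 3 κ (h0 * x) (eng.v x) (h0 * (3 / 40)) (tnt (h0 * x) (3 / 10)) (tbl tK x) (tbl tL x) (tbl (smT h0⁻¹ tC) x)) 0 2 3 2 4 1 1 :=
  (sideB hx hx').bothA (thrB hx hx') (en_pos (hx1 hx).le) (Or.inl rfl) (Or.inl rfl) fun y y' F =>
    (lt_or_ge (h0 * y') 1).elim
      (fun g => bothA_cert (s1 := true) (s2 := true) rfl hκ (en_pos (hx1 hx).le) (esg_rng (hx1 hx).le (hx2 hx').le).1 (mo_v x) covB20 covB42a hx hx'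
        Pool.Agent.Strip051.G.I6500_6900.Tab.C.BA24.c_pp_023_a noCut_EA noExt_EA F trivial g)
      (fun g => bothA_cert (s1 := true) (s2 := true) rfl hκ (en_pos (hx1 hx).le) (esg_rng (hx1 hx).le (hx2 hx').le).1 (mo_v x) covB20 covB42b hx hx'
        Pool.Agent.Strip051.G.I6500_6900.Tab.C.BA24.c_pp_023_b noCut_EA noExt_EA F trivial g)

theorem BA24_pp_033 {κ x : ℝ} (hκ : κ * h0 = ken x) (hx : ((697932185 : ℕ) : ℝ) / S ≤ x) (hx' : x ≤ (((697932185 : ℕ) : ℝ) + (42949674 : ℕ)) / S) :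
    TriA PP.cur (VE (h0 * 0) 3 κ (h0 * x) (eng.v x) (h0 * (3 / 40)) (tnt (h0 * x) (3 / 10)) (tbl tK x) (tbl tL x) (tbl (smT h0⁻¹ tC) x)) 0 3 3 2 4 1 1 :=
  (sideB hx hx').bothA (thrB hx hx') (en_pos (hx1 hx).le) (Or.inl rfl) (Or.inl rfl) fun y y' F =>
    bothA_cert (s1 := true) (s2 := true) rfl hκ (en_pos (hx1 hx).le) (esg_rng (hx1 hx).le (hx2 hx').le).1 (mo_v x) covB20 covB43 hx hx'
        Pool.Agent.Strip051.G.I6500_6900.Tab.C.BA24.c_pp_033 noCut_EA noExt_EA F trivial trivial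

theorem BA24_pp_101 {κ x : ℝ} (hκ : κ * h0 = ken x) (hx : ((697932185 : ℕ) : ℝ) / S ≤ x) (hx' : x ≤ (((697932185 : ℕ) : ℝ) + (42949674 : ℕ)) / S) :
    TriA PP.cur (VE (h0 * 0) 3 κ (h0 * x) (eng.v x) (h0 * (3 / 40)) (tnt (h0 * x) (3 / 10)) (tbl tK x) (tbl tL x) (tbl (smT h0⁻¹ tC) x)) 1 0 1 2 4 1 1 :=
  (sideB hx hx').bothA (thrB hx hx') (en_pos (hx1 hx).le) (Or.inl rfl) (Or.inl rfl) fun y y' F =>
    bothA_cert (s1 := true) (s2 := true) rfl hκ (en_pos (hx1 hx).le) (esg_rng (hx1 hx).le (hx2 hx').le).1 (mo_v x) covB21 covB40 hx hx'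
        Pool.Agent.Strip051.G.I6500_6900.Tab.C.BA24.c_pp_101 noCut_EA noExt_EA F trivial trivial

theorem BA24_pp_102 {κ x : ℝ} (hκ : κ * h0 = ken x) (hx : ((697932185 : ℕ) : ℝ) / S ≤ x) (hx' : x ≤ (((697932185 : ℕ) : ℝ) + (42949674 : ℕ)) / S) :
    TriA PP.cur (VE (h0 * 0) 3 κ (h0 * x) (eng.v x) (h0 * (3 / 40)) (tnt (h0 * x) (3 / 10)) (tbl tK x) (tbl tL x) (tbl (smT h0⁻¹ tC) x)) 1 0 2 2 4 1 1 :=
  (sideB hx hx').bothA (thrB hx hx') (en_pos (hx1 hx).le) (Or.inl rfl) (Or.inl rfl) fun y y' F =>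
    bothA_cert (s1 := true) (s2 := true) rfl hκ (en_pos (hx1 hx).le) (esg_rng (hx1 hx).le (hx2 hx').le).1 (mo_v x) covB21 covB40 hx hx'
        Pool.Agent.Strip051.G.I6500_6900.Tab.C.BA24.c_pp_102 noCut_EA noExt_EA F trivial trivial

theorem BA24_pp_112 {κ x : ℝ} (hκ : κ * h0 = ken x) (hx : ((697932185 : ℕ) : ℝ) / S ≤ x) (hx' : x ≤ (((697932185 : ℕ) : ℝ) + (42949674 : ℕ)) / S) :
    TriA PP.cur (VE (h0 * 0) 3 κ (h0 * x) (eng.v x) (h0 * (3 / 40)) (tnt (h0 * x) (3 / 10)) (tbl tK x) (tbl tL x) (tbl (smT h0⁻¹ tC) x)) 1 1 2 2 4 1 1 :=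
  (sideB hx hx').bothA (thrB hx hx') (en_pos (hx1 hx).le) (Or.inl rfl) (Or.inl rfl) fun y y' F =>
    bothA_cert (s1 := true) (s2 := true) rfl hκ (en_pos (hx1 hx).le) (esg_rng (hx1 hx).le (hx2 hx').le).1 (mo_v x) covB21 covB41 hx hx'
        Pool.Agent.Strip051.G.I6500_6900.Tab.C.BA24.c_pp_112 noCut_EA noExt_EA F trivial trivial

theorem BA24_pp_113 {κ x : ℝ} (hκ : κ * h0 = ken x) (hx : ((697932185 : ℕ) : ℝ) / S ≤ x) (hx' : x ≤ (((697932185 : ℕ) : ℝ) + (42949674 : ℕ)) / S) :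
    TriA PP.cur (VE (h0 * 0) 3 κ (h0 * x) (eng.v x) (h0 * (3 / 40)) (tnt (h0 * x) (3 / 10)) (tbl tK x) (tbl tL x) (tbl (smT h0⁻¹ tC) x)) 1 1 3 2 4 1 1 :=
  (sideB hx hx').bothA (thrB hx hx') (en_pos (hx1 hx).le) (Or.inl rfl) (Or.inl rfl) fun y y' F =>
    bothA_cert (s1 := true) (s2 := true) rfl hκ (en_pos (hx1 hx).le) (esg_rng (hx1 hx).le (hx2 hx').le).1 (mo_v x) covB21 covB41 hx hx'
        Pool.Agent.Strip051.G.I6500_6900.Tab.C.BA24.c_pp_113 noCut_EA noExt_EA F trivial trivial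

theorem BA24_pp_123 {κ x : ℝ} (hκ : κ * h0 = ken x) (hx : ((697932185 : ℕ) : ℝ) / S ≤ x) (hx' : x ≤ (((697932185 : ℕ) : ℝ) + (42949674 : ℕ)) / S) :
    TriA PP.cur (VE (h0 * 0) 3 κ (h0 * x) (eng.v x) (h0 * (3 / 40)) (tnt (h0 * x) (3 / 10)) (tbl tK x) (tbl tL x) (tbl (smT h0⁻¹ tC) x)) 1 2 3 2 4 1 1 :=
  (sideB hx hx').bothA (thrB hx hx') (en_pos (hx1 hx).le) (Or.inl rfl) (Or.inl rfl) fun y y' F =>
    (lt_or_ge (h0 * y') 1).elim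
      (fun g => bothA_cert (s1 := true) (s2 := true) rfl hκ (en_pos (hx1 hx).le) (esg_rng (hx1 hx).le (hx2 hx').le).1 (mo_v x) covB21 covB42a hx hx'
        Pool.Agent.Strip051.G.I6500_6900.Tab.C.BA24.c_pp_123_a noCut_EA noExt_EA F trivial g)
      (fun g => bothA_cert (s1 := true) (s2 := true) rfl hκ (en_pos (hx1 hx).le) (esg_rng (hx1 hx).le (hx2 hx').le).1 (mo_v x) covB21 covB42b hx hx'
        Pool.Agent.Strip051.G.I6500_6900.Tab.C.BA24.c_pp_123_b noCut_EA noExt_EA F trivial g)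

theorem BA24_pp_133 {κ x : ℝ} (hκ : κ * h0 = ken x) (hx : ((697932185 : ℕ) : ℝ) / S ≤ x) (hx' : x ≤ (((697932185 : ℕ) : ℝ) + (42949674 : ℕ)) / S) :
    TriA PP.cur (VE (h0 * 0) 3 κ (h0 * x) (eng.v x) (h0 * (3 / 40)) (tnt (h0 * x) (3 / 10)) (tbl tK x) (tbl tL x) (tbl (smT h0⁻¹ tC) x)) 1 3 3 2 4 1 1 :=
  (sideB hx hx').bothA (thrB hx hx') (en_pos (hx1 hx).le) (Or.inl rfl) (Or.inl rfl) fun y y' F =>
    bothA_cert (s1 := true) (s2 := true) rfl hκ (en_pos (hx1 hx).le) (esg_rng (hx1 hx).le (hx2 hx').le).1 (mo_v x) covB21 covB43 hx hx'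
        Pool.Agent.Strip051.G.I6500_6900.Tab.C.BA24.c_pp_133 noCut_EA noExt_EA F trivial trivial

theorem BA24_pp_202 {κ x : ℝ} (hκ : κ * h0 = ken x) (hx : ((697932185 : ℕ) : ℝ) / S ≤ x) (hx' : x ≤ (((697932185 : ℕ) : ℝ) + (42949674 : ℕ)) / S) :
    TriA PP.cur (VE (h0 * 0) 3 κ (h0 * x) (eng.v x) (h0 * (3 / 40)) (tnt (h0 * x) (3 / 10)) (tbl tK x) (tbl tL x) (tbl (smT h0⁻¹ tC) x)) 2 0 2 2 4 1 1 :=
  (sideB hx hx').bothA (thrB hx hx') (en_pos (hx1 hx).le) (Or.inl rfl) (Or.inl rfl) fun y y' F =>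
    (lt_or_ge (h0 * y) 1).elim
      (fun h => bothA_cert (s1 := true) (s2 := true) rfl hκ (en_pos (hx1 hx).le) (esg_rng (hx1 hx).le (hx2 hx').le).1 (mo_v x) covB22a covB40 hx hx'
        Pool.Agent.Strip051.G.I6500_6900.Tab.C.BA24.c_pp_202_a noCut_EA noExt_EA F h trivial)
      (fun h => bothA_cert (s1 := true) (s2 := true) rfl hκ (en_pos (hx1 hx).le) (esg_rng (hx1 hx).le (hx2 hx').le).1 (mo_v x) covB22b covB40 hx hx'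
        Pool.Agent.Strip051.G.I6500_6900.Tab.C.BA24.c_pp_202_b noCut_EA noExt_EA F h trivial)

theorem BA24_pp_203 {κ x : ℝ} (hκ : κ * h0 = ken x) (hx : ((697932185 : ℕ) : ℝ) / S ≤ x) (hx' : x ≤ (((697932185 : ℕ) : ℝ) + (42949674 : ℕ)) / S) :
    TriA PP.cur (VE (h0 * 0) 3 κ (h0 * x) (eng.v x) (h0 * (3 / 40)) (tnt (h0 * x) (3 / 10)) (tbl tK x) (tbl tL x) (tbl (smT h0⁻¹ tC) x)) 2 0 3 2 4 1 1 :=
  (sideB hx hx').bothA (thrB hx hx') (en_pos (hx1 hx).le) (Or.inl rfl) (Or.inl rfl) fun y y' F =>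
    (lt_or_ge (h0 * y) 1).elim
      (fun h => bothA_cert (s1 := true) (s2 := true) rfl hκ (en_pos (hx1 hx).le) (esg_rng (hx1 hx).le (hx2 hx').le).1 (mo_v x) covB22a covB40 hx hx'
        Pool.Agent.Strip051.G.I6500_6900.Tab.C.BA24.c_pp_203_a noCut_EA noExt_EA F h trivial)
      (fun h => bothA_cert (s1 := true) (s2 := true) rfl hκ (en_pos (hx1 hx).le) (esg_rng (hx1 hx).le (hx2 hx').le).1 (mo_v x) covB22b covB40 hx hx'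
        Pool.Agent.Strip051.G.I6500_6900.Tab.C.BA24.c_pp_203_b noCut_EA noExt_EA F h trivial)

theorem BA24_pp_213 {κ x : ℝ} (hκ : κ * h0 = ken x) (hx : ((697932185 : ℕ) : ℝ) / S ≤ x) (hx' : x ≤ (((697932185 : ℕ) : ℝ) + (42949674 : ℕ)) / S) :
    TriA PP.cur (VE (h0 * 0) 3 κ (h0 * x) (eng.v x) (h0 * (3 / 40)) (tnt (h0 * x) (3 / 10)) (tbl tK x) (tbl tL x) (tbl (smT h0⁻¹ tC) x)) 2 1 3 2 4 1 1 :=
  (sideB hx hx').bothA (thrB hx hx') (en_pos (hx1 hx).le) (Or.inl rfl) (Or.inl rfl) fun y y' F =>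
    (lt_or_ge (h0 * y) 1).elim
      (fun h => bothA_cert (s1 := true) (s2 := true) rfl hκ (en_pos (hx1 hx).le) (esg_rng (hx1 hx).le (hx2 hx').le).1 (mo_v x) covB22a covB41 hx hx'
        Pool.Agent.Strip051.G.I6500_6900.Tab.C.BA24.c_pp_213_a noCut_EA noExt_EA F h trivial)
      (fun h => bothA_cert (s1 := true) (s2 := true) rfl hκ (en_pos (hx1 hx).le) (esg_rng (hx1 hx).le (hx2 hx').le).1 (mo_v x) covB22b covB41 hx hx'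
        Pool.Agent.Strip051.G.I6500_6900.Tab.C.BA24.c_pp_213_b noCut_EA noExt_EA F h trivial)

theorem BA24_pp_303 {κ x : ℝ} (hκ : κ * h0 = ken x) (hx : ((697932185 : ℕ) : ℝ) / S ≤ x) (hx' : x ≤ (((697932185 : ℕ) : ℝ) + (42949674 : ℕ)) / S) :
    TriA PP.cur (VE (h0 * 0) 3 κ (h0 * x) (eng.v x) (h0 * (3 / 40)) (tnt (h0 * x) (3 / 10)) (tbl tK x) (tbl tL x) (tbl (smT h0⁻¹ tC) x)) 3 0 3 2 4 1 1 :=
  (sideB hx hx').bothA (thrB hx hx') (en_pos (hx1 hx).le) (Or.inl rfl) (Or.inl rfl) fun y y' F =>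
    bothA_cert (s1 := true) (s2 := true) rfl hκ (en_pos (hx1 hx).le) (esg_rng (hx1 hx).le (hx2 hx').le).1 (mo_v x) covB23 covB40 hx hx'
        Pool.Agent.Strip051.G.I6500_6900.Tab.C.BA24.c_pp_303 noCut_EA noExt_EA F trivial trivial

theorem BA24_pp_313 {κ x : ℝ} (hκ : κ * h0 = ken x) (hx : ((697932185 : ℕ) : ℝ) / S ≤ x) (hx' : x ≤ (((697932185 : ℕ) : ℝ) + (42949674 : ℕ)) / S) :
    TriA PP.cur (VE (h0 * 0) 3 κ (h0 * x) (eng.v x) (h0 * (3 / 40)) (tnt (h0 * x) (3 / 10)) (tbl tK x) (tbl tL x) (tbl (smT h0⁻¹ tC) x)) 3 1 3 2 4 1 1 :=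
  (sideB hx hx').bothA (thrB hx hx') (en_pos (hx1 hx).le) (Or.inl rfl) (Or.inl rfl) fun y y' F =>
    bothA_cert (s1 := true) (s2 := true) rfl hκ (en_pos (hx1 hx).le) (esg_rng (hx1 hx).le (hx2 hx').le).1 (mo_v x) covB23 covB41 hx hx'
        Pool.Agent.Strip051.G.I6500_6900.Tab.C.BA24.c_pp_313 noCut_EA noExt_EA F trivial trivial

theorem BA24_pm_001 {κ x : ℝ} (hκ : κ * h0 = ken x) (hx : ((697932185 : ℕ) : ℝ) / S ≤ x) (hx' : x ≤ (((697932185 : ℕ) : ℝ) + (42949674 : ℕ)) / S) :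
    TriA PP.cur (VE (h0 * 0) 3 κ (h0 * x) (eng.v x) (h0 * (3 / 40)) (tnt (h0 * x) (3 / 10)) (tbl tK x) (tbl tL x) (tbl (smT h0⁻¹ tC) x)) 0 0 1 2 4 1 (-1) :=
  (sideB hx hx').bothA (thrB hx hx') (en_pos (hx1 hx).le) (Or.inl rfl) (Or.inr rfl) fun y y' F =>
    bothA_cert (s1 := true) (s2 := false) rfl hκ (en_pos (hx1 hx).le) (esg_rng (hx1 hx).le (hx2 hx').le).1 (mo_v x) covB20 covB40 hx hx'
        Pool.Agent.Strip051.G.I6500_6900.Tab.C.BA24.c_pm_001 noCut_EA noExt_EA F trivial trivial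

theorem BA24_pm_011 {κ x : ℝ} (hκ : κ * h0 = ken x) (hx : ((697932185 : ℕ) : ℝ) / S ≤ x) (hx' : x ≤ (((697932185 : ℕ) : ℝ) + (42949674 : ℕ)) / S) :
    TriA PP.cur (VE (h0 * 0) 3 κ (h0 * x) (eng.v x) (h0 * (3 / 40)) (tnt (h0 * x) (3 / 10)) (tbl tK x) (tbl tL x) (tbl (smT h0⁻¹ tC) x)) 0 1 1 2 4 1 (-1) :=
  (sideB hx hx').bothA (thrB hx hx') (en_pos (hx1 hx).le) (Or.inl rfl) (Or.inr rfl) fun y y' F =>
    bothA_cert (s1 := true) (s2 := false) rfl hκ (en_pos (hx1 hx).le) (esg_rng (hx1 hx).le (hx2 hx').le).1 (mo_v x) covB20 covB41 hx hx'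
        Pool.Agent.Strip051.G.I6500_6900.Tab.C.BA24.c_pm_011 noCut_EA noExt_EA F trivial trivial

theorem BA24_pm_012 {κ x : ℝ} (hκ : κ * h0 = ken x) (hx : ((697932185 : ℕ) : ℝ) / S ≤ x) (hx' : x ≤ (((697932185 : ℕ) : ℝ) + (42949674 : ℕ)) / S) :
    TriA PP.cur (VE (h0 * 0) 3 κ (h0 * x) (eng.v x) (h0 * (3 / 40)) (tnt (h0 * x) (3 / 10)) (tbl tK x) (tbl tL x) (tbl (smT h0⁻¹ tC) x)) 0 1 2 2 4 1 (-1) :=
  (sideB hx hx').bothA (thrB hx hx') (en_pos (hx1 hx).le) (Or.inl rfl) (Or.inr rfl) fun y y' F =>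
    bothA_cert (s1 := true) (s2 := false) rfl hκ (en_pos (hx1 hx).le) (esg_rng (hx1 hx).le (hx2 hx').le).1 (mo_v x) covB20 covB41 hx hx'
        Pool.Agent.Strip051.G.I6500_6900.Tab.C.BA24.c_pm_012 noCut_EA noExt_EA F trivial trivial

theorem BA24_pm_022 {κ x : ℝ} (hκ : κ * h0 = ken x) (hx : ((697932185 : ℕ) : ℝ) / S ≤ x) (hx' : x ≤ (((697932185 : ℕ) : ℝ) + (42949674 : ℕ)) / S) :
    TriA PP.cur (VE (h0 * 0) 3 κ (h0 * x) (eng.v x) (h0 * (3 / 40)) (tnt (h0 * x) (3 / 10)) (tbl tK x) (tbl tL x) (tbl (smT h0⁻¹ tC) x)) 0 2 2 2 4 1 (-1) :=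
  (sideB hx hx').bothA (thrB hx hx') (en_pos (hx1 hx).le) (Or.inl rfl) (Or.inr rfl) fun y y' F =>
    (lt_or_ge (h0 * y') 1).elim
      (fun g => bothA_cert (s1 := true) (s2 := false) rfl hκ (en_pos (hx1 hx).le) (esg_rng (hx1 hx).le (hx2 hx').le).1 (mo_v x) covB20 covB42a hx hx'
        Pool.Agent.Strip051.G.I6500_6900.Tab.C.BA24.c_pm_022_a (cutEA_cons (Pool.Agent.Strip051.G.I6500_6900.Tab.altB_A022E_24 hκ hx hx') cutEA_nil) noExt_EA F trivial g)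
      (fun g => bothA_cert (s1 := true) (s2 := false) rfl hκ (en_pos (hx1 hx).le) (esg_rng (hx1 hx).le (hx2 hx').le).1 (mo_v x) covB20 covB42b hx hx'
        Pool.Agent.Strip051.G.I6500_6900.Tab.C.BA24.c_pm_022_b (cutEA_cons (Pool.Agent.Strip051.G.I6500_6900.Tab.altB_A022E_24 hκ hx hx') cutEA_nil) noExt_EA F trivial g)

theorem BA24_pm_023 {κ x : ℝ} (hκ : κ * h0 = ken x) (hx : ((697932185 : ℕ) : ℝ) / S ≤ x) (hx' : x ≤ (((697932185 : ℕ) : ℝ) + (42949674 : ℕ)) / S) :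
    TriA PP.cur (VE (h0 * 0) 3 κ (h0 * x) (eng.v x) (h0 * (3 / 40)) (tnt (h0 * x) (3 / 10)) (tbl tK x) (tbl tL x) (tbl (smT h0⁻¹ tC) x)) 0 2 3 2 4 1 (-1) :=
  (sideB hx hx').bothA (thrB hx hx') (en_pos (hx1 hx).le) (Or.inl rfl) (Or.inr rfl) fun y y' F =>
    (lt_or_ge (h0 * y') 1).elim
      (fun g => bothA_cert (s1 := true) (s2 := false) rfl hκ (en_pos (hx1 hx).le) (esg_rng (hx1 hx).le (hx2 hx').le).1 (mo_v x) covB20 covB42a hx hx'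
        Pool.Agent.Strip051.G.I6500_6900.Tab.C.BA24.c_pm_023_a noCut_EA noExt_EA F trivial g)
      (fun g => bothA_cert (s1 := true) (s2 := false) rfl hκ (en_pos (hx1 hx).le) (esg_rng (hx1 hx).le (hx2 hx').le).1 (mo_v x) covB20 covB42b hx hx'
        Pool.Agent.Strip051.G.I6500_6900.Tab.C.BA24.c_pm_023_b noCut_EA noExt_EA F trivial g)

theorem BA24_pm_033 {κ x : ℝ} (hκ : κ * h0 = ken x) (hx : ((697932185 : ℕ) : ℝ) / S ≤ x) (hx' : x ≤ (((697932185 : ℕ) : ℝ) + (42949674 : ℕ)) / S) :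
    TriA PP.cur (VE (h0 * 0) 3 κ (h0 * x) (eng.v x) (h0 * (3 / 40)) (tnt (h0 * x) (3 / 10)) (tbl tK x) (tbl tL x) (tbl (smT h0⁻¹ tC) x)) 0 3 3 2 4 1 (-1) :=
  (sideB hx hx').bothA (thrB hx hx') (en_pos (hx1 hx).le) (Or.inl rfl) (Or.inr rfl) fun y y' F =>
    bothA_cert (s1 := true) (s2 := false) rfl hκ (en_pos (hx1 hx).le) (esg_rng (hx1 hx).le (hx2 hx').le).1 (mo_v x) covB20 covB43 hx hx'
        Pool.Agent.Strip051.G.I6500_6900.Tab.C.BA24.c_pm_033 noCut_EA noExt_EA F trivial trivial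

theorem BA24_pm_101 {κ x : ℝ} (hκ : κ * h0 = ken x) (hx : ((697932185 : ℕ) : ℝ) / S ≤ x) (hx' : x ≤ (((697932185 : ℕ) : ℝ) + (42949674 : ℕ)) / S) :
    TriA PP.cur (VE (h0 * 0) 3 κ (h0 * x) (eng.v x) (h0 * (3 / 40)) (tnt (h0 * x) (3 / 10)) (tbl tK x) (tbl tL x) (tbl (smT h0⁻¹ tC) x)) 1 0 1 2 4 1 (-1) :=
  (sideB hx hx').bothA (thrB hx hx') (en_pos (hx1 hx).le) (Or.inl rfl) (Or.inr rfl) fun y y' F =>
    bothA_cert (s1 := true) (s2 := false) rfl hκ (en_pos (hx1 hx).le) (esg_rng (hx1 hx).le (hx2 hx').le).1 (mo_v x) covB21 covB40 hx hx'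
        Pool.Agent.Strip051.G.I6500_6900.Tab.C.BA24.c_pm_101 noCut_EA noExt_EA F trivial trivial

theorem BA24_pm_102 {κ x : ℝ} (hκ : κ * h0 = ken x) (hx : ((697932185 : ℕ) : ℝ) / S ≤ x) (hx' : x ≤ (((697932185 : ℕ) : ℝ) + (42949674 : ℕ)) / S) :
    TriA PP.cur (VE (h0 * 0) 3 κ (h0 * x) (eng.v x) (h0 * (3 / 40)) (tnt (h0 * x) (3 / 10)) (tbl tK x) (tbl tL x) (tbl (smT h0⁻¹ tC) x)) 1 0 2 2 4 1 (-1) :=
  (sideB hx hx').bothA (thrB hx hx') (en_pos (hx1 hx).le) (Or.inl rfl) (Or.inr rfl) fun y y' F =>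
    bothA_cert (s1 := true) (s2 := false) rfl hκ (en_pos (hx1 hx).le) (esg_rng (hx1 hx).le (hx2 hx').le).1 (mo_v x) covB21 covB40 hx hx'
        Pool.Agent.Strip051.G.I6500_6900.Tab.C.BA24.c_pm_102 noCut_EA noExt_EA F trivial trivial

theorem BA24_pm_112 {κ x : ℝ} (hκ : κ * h0 = ken x) (hx : ((697932185 : ℕ) : ℝ) / S ≤ x) (hx' : x ≤ (((697932185 : ℕ) : ℝ) + (42949674 : ℕ)) / S) :
    TriA PP.cur (VE (h0 * 0) 3 κ (h0 * x) (eng.v x) (h0 * (3 / 40)) (tnt (h0 * x) (3 / 10)) (tbl tK x) (tbl tL x) (tbl (smT h0⁻¹ tC) x)) 1 1 2 2 4 1 (-1) :=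
  (sideB hx hx').bothA (thrB hx hx') (en_pos (hx1 hx).le) (Or.inl rfl) (Or.inr rfl) fun y y' F =>
    bothA_cert (s1 := true) (s2 := false) rfl hκ (en_pos (hx1 hx).le) (esg_rng (hx1 hx).le (hx2 hx').le).1 (mo_v x) covB21 covB41 hx hx'
        Pool.Agent.Strip051.G.I6500_6900.Tab.C.BA24.c_pm_112 noCut_EA noExt_EA F trivial trivial

theorem BA24_pm_113 {κ x : ℝ} (hκ : κ * h0 = ken x) (hx : ((697932185 : ℕ) : ℝ) / S ≤ x) (hx' : x ≤ (((697932185 : ℕ) : ℝ) + (42949674 : ℕ)) / S) :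
    TriA PP.cur (VE (h0 * 0) 3 κ (h0 * x) (eng.v x) (h0 * (3 / 40)) (tnt (h0 * x) (3 / 10)) (tbl tK x) (tbl tL x) (tbl (smT h0⁻¹ tC) x)) 1 1 3 2 4 1 (-1) :=
  (sideB hx hx').bothA (thrB hx hx') (en_pos (hx1 hx).le) (Or.inl rfl) (Or.inr rfl) fun y y' F =>
    bothA_cert (s1 := true) (s2 := false) rfl hκ (en_pos (hx1 hx).le) (esg_rng (hx1 hx).le (hx2 hx').le).1 (mo_v x) covB21 covB41 hx hx'
        Pool.Agent.Strip051.G.I6500_6900.Tab.C.BA24.c_pm_113 noCut_EA noExt_EA F trivial trivial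

theorem BA24_pm_123 {κ x : ℝ} (hκ : κ * h0 = ken x) (hx : ((697932185 : ℕ) : ℝ) / S ≤ x) (hx' : x ≤ (((697932185 : ℕ) : ℝ) + (42949674 : ℕ)) / S) :
    TriA PP.cur (VE (h0 * 0) 3 κ (h0 * x) (eng.v x) (h0 * (3 / 40)) (tnt (h0 * x) (3 / 10)) (tbl tK x) (tbl tL x) (tbl (smT h0⁻¹ tC) x)) 1 2 3 2 4 1 (-1) :=
  (sideB hx hx').bothA (thrB hx hx') (en_pos (hx1 hx).le) (Or.inl rfl) (Or.inr rfl) fun y y' F =>
    (lt_or_ge (h0 * y') 1).elim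
      (fun g => bothA_cert (s1 := true) (s2 := false) rfl hκ (en_pos (hx1 hx).le) (esg_rng (hx1 hx).le (hx2 hx').le).1 (mo_v x) covB21 covB42a hx hx'
        Pool.Agent.Strip051.G.I6500_6900.Tab.C.BA24.c_pm_123_a noCut_EA noExt_EA F trivial g)
      (fun g => bothA_cert (s1 := true) (s2 := false) rfl hκ (en_pos (hx1 hx).le) (esg_rng (hx1 hx).le (hx2 hx').le).1 (mo_v x) covB21 covB42b hx hx'
        Pool.Agent.Strip051.G.I6500_6900.Tab.C.BA24.c_pm_123_b noCut_EA noExt_EA F trivial g)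

theorem BA24_pm_133 {κ x : ℝ} (hκ : κ * h0 = ken x) (hx : ((697932185 : ℕ) : ℝ) / S ≤ x) (hx' : x ≤ (((697932185 : ℕ) : ℝ) + (42949674 : ℕ)) / S) :
    TriA PP.cur (VE (h0 * 0) 3 κ (h0 * x) (eng.v x) (h0 * (3 / 40)) (tnt (h0 * x) (3 / 10)) (tbl tK x) (tbl tL x) (tbl (smT h0⁻¹ tC) x)) 1 3 3 2 4 1 (-1) :=
  (sideB hx hx').bothA (thrB hx hx') (en_pos (hx1 hx).le) (Or.inl rfl) (Or.inr rfl) fun y y' F =>
    bothA_cert (s1 := true) (s2 := false) rfl hκ (en_pos (hx1 hx).le) (esg_rng (hx1 hx).le (hx2 hx').le).1 (mo_v x) covB21 covB43 hx hx'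
        Pool.Agent.Strip051.G.I6500_6900.Tab.C.BA24.c_pm_133 noCut_EA noExt_EA F trivial trivial

theorem BA24_pm_202 {κ x : ℝ} (hκ : κ * h0 = ken x) (hx : ((697932185 : ℕ) : ℝ) / S ≤ x) (hx' : x ≤ (((697932185 : ℕ) : ℝ) + (42949674 : ℕ)) / S) :
    TriA PP.cur (VE (h0 * 0) 3 κ (h0 * x) (eng.v x) (h0 * (3 / 40)) (tnt (h0 * x) (3 / 10)) (tbl tK x) (tbl tL x) (tbl (smT h0⁻¹ tC) x)) 2 0 2 2 4 1 (-1) :=
  (sideB hx hx').bothA (thrB hx hx') (en_pos (hx1 hx).le) (Or.inl rfl) (Or.inr rfl) fun y y' F =>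
    (lt_or_ge (h0 * y) 1).elim
      (fun h => bothA_cert (s1 := true) (s2 := false) rfl hκ (en_pos (hx1 hx).le) (esg_rng (hx1 hx).le (hx2 hx').le).1 (mo_v x) covB22a covB40 hx hx'
        Pool.Agent.Strip051.G.I6500_6900.Tab.C.BA24.c_pm_202_a (cutEA_cons (Pool.Agent.Strip051.G.I6500_6900.Tab.altB_A202E_24 hκ hx hx') cutEA_nil) noExt_EA F h trivial)
      (fun h => bothA_cert (s1 := true) (s2 := false) rfl hκ (en_pos (hx1 hx).le) (esg_rng (hx1 hx).le (hx2 hx').le).1 (mo_v x) covB22b covB40 hx hx'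
        Pool.Agent.Strip051.G.I6500_6900.Tab.C.BA24.c_pm_202_b (cutEA_cons (Pool.Agent.Strip051.G.I6500_6900.Tab.altB_A202E_24 hκ hx hx') cutEA_nil) noExt_EA F h trivial)

theorem BA24_pm_203 {κ x : ℝ} (hκ : κ * h0 = ken x) (hx : ((697932185 : ℕ) : ℝ) / S ≤ x) (hx' : x ≤ (((697932185 : ℕ) : ℝ) + (42949674 : ℕ)) / S) :
    TriA PP.cur (VE (h0 * 0) 3 κ (h0 * x) (eng.v x) (h0 * (3 / 40)) (tnt (h0 * x) (3 / 10)) (tbl tK x) (tbl tL x) (tbl (smT h0⁻¹ tC) x)) 2 0 3 2 4 1 (-1) :=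
  (sideB hx hx').bothA (thrB hx hx') (en_pos (hx1 hx).le) (Or.inl rfl) (Or.inr rfl) fun y y' F =>
    (lt_or_ge (h0 * y) 1).elim
      (fun h => bothA_cert (s1 := true) (s2 := false) rfl hκ (en_pos (hx1 hx).le) (esg_rng (hx1 hx).le (hx2 hx').le).1 (mo_v x) covB22a covB40 hx hx'
        Pool.Agent.Strip051.G.I6500_6900.Tab.C.BA24.c_pm_203_a noCut_EA noExt_EA F h trivial)
      (fun h => bothA_cert (s1 := true) (s2 := false) rfl hκ (en_pos (hx1 hx).le) (esg_rng (hx1 hx).le (hx2 hx').le).1 (mo_v x) covB22b covB40 hx hx'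
        Pool.Agent.Strip051.G.I6500_6900.Tab.C.BA24.c_pm_203_b noCut_EA noExt_EA F h trivial)

theorem BA24_pm_213 {κ x : ℝ} (hκ : κ * h0 = ken x) (hx : ((697932185 : ℕ) : ℝ) / S ≤ x) (hx' : x ≤ (((697932185 : ℕ) : ℝ) + (42949674 : ℕ)) / S) :
    TriA PP.cur (VE (h0 * 0) 3 κ (h0 * x) (eng.v x) (h0 * (3 / 40)) (tnt (h0 * x) (3 / 10)) (tbl tK x) (tbl tL x) (tbl (smT h0⁻¹ tC) x)) 2 1 3 2 4 1 (-1) :=
  (sideB hx hx').bothA (thrB hx hx') (en_pos (hx1 hx).le) (Or.inl rfl) (Or.inr rfl) fun y y' F =>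
    (lt_or_ge (h0 * y) 1).elim
      (fun h => bothA_cert (s1 := true) (s2 := false) rfl hκ (en_pos (hx1 hx).le) (esg_rng (hx1 hx).le (hx2 hx').le).1 (mo_v x) covB22a covB41 hx hx'
        Pool.Agent.Strip051.G.I6500_6900.Tab.C.BA24.c_pm_213_a noCut_EA noExt_EA F h trivial)
      (fun h => bothA_cert (s1 := true) (s2 := false) rfl hκ (en_pos (hx1 hx).le) (esg_rng (hx1 hx).le (hx2 hx').le).1 (mo_v x) covB22b covB41 hx hx'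
        Pool.Agent.Strip051.G.I6500_6900.Tab.C.BA24.c_pm_213_b noCut_EA noExt_EA F h trivial)

theorem BA24_pm_303 {κ x : ℝ} (hκ : κ * h0 = ken x) (hx : ((697932185 : ℕ) : ℝ) / S ≤ x) (hx' : x ≤ (((697932185 : ℕ) : ℝ) + (42949674 : ℕ)) / S) :
    TriA PP.cur (VE (h0 * 0) 3 κ (h0 * x) (eng.v x) (h0 * (3 / 40)) (tnt (h0 * x) (3 / 10)) (tbl tK x) (tbl tL x) (tbl (smT h0⁻¹ tC) x)) 3 0 3 2 4 1 (-1) :=
  (sideB hx hx').bothA (thrB hx hx') (en_pos (hx1 hx).le) (Or.inl rfl) (Or.inr rfl) fun y y' F =>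
    bothA_cert (s1 := true) (s2 := false) rfl hκ (en_pos (hx1 hx).le) (esg_rng (hx1 hx).le (hx2 hx').le).1 (mo_v x) covB23 covB40 hx hx'
        Pool.Agent.Strip051.G.I6500_6900.Tab.C.BA24.c_pm_303 noCut_EA noExt_EA F trivial trivial

theorem BA24_pm_313 {κ x : ℝ} (hκ : κ * h0 = ken x) (hx : ((697932185 : ℕ) : ℝ) / S ≤ x) (hx' : x ≤ (((697932185 : ℕ) : ℝ) + (42949674 : ℕ)) / S) :
    TriA PP.cur (VE (h0 * 0) 3 κ (h0 * x) (eng.v x) (h0 * (3 / 40)) (tnt (h0 * x) (3 / 10)) (tbl tK x) (tbl tL x) (tbl (smT h0⁻¹ tC) x)) 3 1 3 2 4 1 (-1) :=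
  (sideB hx hx').bothA (thrB hx hx') (en_pos (hx1 hx).le) (Or.inl rfl) (Or.inr rfl) fun y y' F =>
    bothA_cert (s1 := true) (s2 := false) rfl hκ (en_pos (hx1 hx).le) (esg_rng (hx1 hx).le (hx2 hx').le).1 (mo_v x) covB23 covB41 hx hx'
        Pool.Agent.Strip051.G.I6500_6900.Tab.C.BA24.c_pm_313 noCut_EA noExt_EA F trivial trivial

theorem BA24_mm_001 {κ x : ℝ} (hκ : κ * h0 = ken x) (hx : ((697932185 : ℕ) : ℝ) / S ≤ x) (hx' : x ≤ (((697932185 : ℕ) : ℝ) + (42949674 : ℕ)) / S) :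
    TriA PP.cur (VE (h0 * 0) 3 κ (h0 * x) (eng.v x) (h0 * (3 / 40)) (tnt (h0 * x) (3 / 10)) (tbl tK x) (tbl tL x) (tbl (smT h0⁻¹ tC) x)) 0 0 1 2 4 (-1) (-1) :=
  (sideB hx hx').bothA (thrB hx hx') (en_pos (hx1 hx).le) (Or.inr rfl) (Or.inr rfl) fun y y' F =>
    bothA_cert (s1 := false) (s2 := false) rfl hκ (en_pos (hx1 hx).le) (esg_rng (hx1 hx).le (hx2 hx').le).1 (mo_v x) covB20 covB40 hx hx'
        Pool.Agent.Strip051.G.I6500_6900.Tab.C.BA24.c_mm_001 noCut_EA noExt_EA F trivial trivial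

theorem BA24_mm_011 {κ x : ℝ} (hκ : κ * h0 = ken x) (hx : ((697932185 : ℕ) : ℝ) / S ≤ x) (hx' : x ≤ (((697932185 : ℕ) : ℝ) + (42949674 : ℕ)) / S) :
    TriA PP.cur (VE (h0 * 0) 3 κ (h0 * x) (eng.v x) (h0 * (3 / 40)) (tnt (h0 * x) (3 / 10)) (tbl tK x) (tbl tL x) (tbl (smT h0⁻¹ tC) x)) 0 1 1 2 4 (-1) (-1) :=
  (sideB hx hx').bothA (thrB hx hx') (en_pos (hx1 hx).le) (Or.inr rfl) (Or.inr rfl) fun y y' F =>
    bothA_cert (s1 := false) (s2 := false) rfl hκ (en_pos (hx1 hx).le) (esg_rng (hx1 hx).le (hx2 hx').le).1 (mo_v x) covB20 covB41 hx hx'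
        Pool.Agent.Strip051.G.I6500_6900.Tab.C.BA24.c_mm_011 noCut_EA noExt_EA F trivial trivial

theorem BA24_mm_012 {κ x : ℝ} (hκ : κ * h0 = ken x) (hx : ((697932185 : ℕ) : ℝ) / S ≤ x) (hx' : x ≤ (((697932185 : ℕ) : ℝ) + (42949674 : ℕ)) / S) :
    TriA PP.cur (VE (h0 * 0) 3 κ (h0 * x) (eng.v x) (h0 * (3 / 40)) (tnt (h0 * x) (3 / 10)) (tbl tK x) (tbl tL x) (tbl (smT h0⁻¹ tC) x)) 0 1 2 2 4 (-1) (-1) :=
  (sideB hx hx').bothA (thrB hx hx') (en_pos (hx1 hx).le) (Or.inr rfl) (Or.inr rfl) fun y y' F =>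
    bothA_cert (s1 := false) (s2 := false) rfl hκ (en_pos (hx1 hx).le) (esg_rng (hx1 hx).le (hx2 hx').le).1 (mo_v x) covB20 covB41 hx hx'
        Pool.Agent.Strip051.G.I6500_6900.Tab.C.BA24.c_mm_012 noCut_EA noExt_EA F trivial trivial

theorem BA24_mm_022 {κ x : ℝ} (hκ : κ * h0 = ken x) (hx : ((697932185 : ℕ) : ℝ) / S ≤ x) (hx' : x ≤ (((697932185 : ℕ) : ℝ) + (42949674 : ℕ)) / S) :
    TriA PP.cur (VE (h0 * 0) 3 κ (h0 * x) (eng.v x) (h0 * (3 / 40)) (tnt (h0 * x) (3 / 10)) (tbl tK x) (tbl tL x) (tbl (smT h0⁻¹ tC) x)) 0 2 2 2 4 (-1) (-1) :=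
  (sideB hx hx').bothA (thrB hx hx') (en_pos (hx1 hx).le) (Or.inr rfl) (Or.inr rfl) fun y y' F =>
    (lt_or_ge (h0 * y') 1).elim
      (fun g => bothA_cert (s1 := false) (s2 := false) rfl hκ (en_pos (hx1 hx).le) (esg_rng (hx1 hx).le (hx2 hx').le).1 (mo_v x) covB20 covB42a hx hx'
        Pool.Agent.Strip051.G.I6500_6900.Tab.C.BA24.c_mm_022_a noCut_EA noExt_EA F trivial g)
      (fun g => bothA_cert (s1 := false) (s2 := false) rfl hκ (en_pos (hx1 hx).le) (esg_rng (hx1 hx).le (hx2 hx').le).1 (mo_v x) covB20 covB42b hx hx'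
        Pool.Agent.Strip051.G.I6500_6900.Tab.C.BA24.c_mm_022_b noCut_EA noExt_EA F trivial g)

theorem BA24_mm_023 {κ x : ℝ} (hκ : κ * h0 = ken x) (hx : ((697932185 : ℕ) : ℝ) / S ≤ x) (hx' : x ≤ (((697932185 : ℕ) : ℝ) + (42949674 : ℕ)) / S) :
    TriA PP.cur (VE (h0 * 0) 3 κ (h0 * x) (eng.v x) (h0 * (3 / 40)) (tnt (h0 * x) (3 / 10)) (tbl tK x) (tbl tL x) (tbl (smT h0⁻¹ tC) x)) 0 2 3 2 4 (-1) (-1) :=
  (sideB hx hx').bothA (thrB hx hx') (en_pos (hx1 hx).le) (Or.inr rfl) (Or.inr rfl) fun y y' F =>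
    (lt_or_ge (h0 * y') 1).elim
      (fun g => bothA_cert (s1 := false) (s2 := false) rfl hκ (en_pos (hx1 hx).le) (esg_rng (hx1 hx).le (hx2 hx').le).1 (mo_v x) covB20 covB42a hx hx'
        Pool.Agent.Strip051.G.I6500_6900.Tab.C.BA24.c_mm_023_a noCut_EA noExt_EA F trivial g)
      (fun g => bothA_cert (s1 := false) (s2 := false) rfl hκ (en_pos (hx1 hx).le) (esg_rng (hx1 hx).le (hx2 hx').le).1 (mo_v x) covB20 covB42b hx hx'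
        Pool.Agent.Strip051.G.I6500_6900.Tab.C.BA24.c_mm_023_b noCut_EA noExt_EA F trivial g)

theorem BA24_mm_033 {κ x : ℝ} (hκ : κ * h0 = ken x) (hx : ((697932185 : ℕ) : ℝ) / S ≤ x) (hx' : x ≤ (((697932185 : ℕ) : ℝ) + (42949674 : ℕ)) / S) :
    TriA PP.cur (VE (h0 * 0) 3 κ (h0 * x) (eng.v x) (h0 * (3 / 40)) (tnt (h0 * x) (3 / 10)) (tbl tK x) (tbl tL x) (tbl (smT h0⁻¹ tC) x)) 0 3 3 2 4 (-1) (-1) :=
  (sideB hx hx').bothA (thrB hx hx') (en_pos (hx1 hx).le) (Or.inr rfl) (Or.inr rfl) fun y y' F =>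
    bothA_cert (s1 := false) (s2 := false) rfl hκ (en_pos (hx1 hx).le) (esg_rng (hx1 hx).le (hx2 hx').le).1 (mo_v x) covB20 covB43 hx hx'
        Pool.Agent.Strip051.G.I6500_6900.Tab.C.BA24.c_mm_033 noCut_EA noExt_EA F trivial trivial

theorem BA24_mm_101 {κ x : ℝ} (hκ : κ * h0 = ken x) (hx : ((697932185 : ℕ) : ℝ) / S ≤ x) (hx' : x ≤ (((697932185 : ℕ) : ℝ) + (42949674 : ℕ)) / S) :
    TriA PP.cur (VE (h0 * 0) 3 κ (h0 * x) (eng.v x) (h0 * (3 / 40)) (tnt (h0 * x) (3 / 10)) (tbl tK x) (tbl tL x) (tbl (smT h0⁻¹ tC) x)) 1 0 1 2 4 (-1) (-1) :=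
  (sideB hx hx').bothA (thrB hx hx') (en_pos (hx1 hx).le) (Or.inr rfl) (Or.inr rfl) fun y y' F =>
    bothA_cert (s1 := false) (s2 := false) rfl hκ (en_pos (hx1 hx).le) (esg_rng (hx1 hx).le (hx2 hx').le).1 (mo_v x) covB21 covB40 hx hx'
        Pool.Agent.Strip051.G.I6500_6900.Tab.C.BA24.c_mm_101 noCut_EA noExt_EA F trivial trivial

theorem BA24_mm_102 {κ x : ℝ} (hκ : κ * h0 = ken x) (hx : ((697932185 : ℕ) : ℝ) / S ≤ x) (hx' : x ≤ (((697932185 : ℕ) : ℝ) + (42949674 : ℕ)) / S) :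
    TriA PP.cur (VE (h0 * 0) 3 κ (h0 * x) (eng.v x) (h0 * (3 / 40)) (tnt (h0 * x) (3 / 10)) (tbl tK x) (tbl tL x) (tbl (smT h0⁻¹ tC) x)) 1 0 2 2 4 (-1) (-1) :=
  (sideB hx hx').bothA (thrB hx hx') (en_pos (hx1 hx).le) (Or.inr rfl) (Or.inr rfl) fun y y' F =>
    bothA_cert (s1 := false) (s2 := false) rfl hκ (en_pos (hx1 hx).le) (esg_rng (hx1 hx).le (hx2 hx').le).1 (mo_v x) covB21 covB40 hx hx'
        Pool.Agent.Strip051.G.I6500_6900.Tab.C.BA24.c_mm_102 noCut_EA noExt_EA F trivial trivial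

theorem BA24_mm_112 {κ x : ℝ} (hκ : κ * h0 = ken x) (hx : ((697932185 : ℕ) : ℝ) / S ≤ x) (hx' : x ≤ (((697932185 : ℕ) : ℝ) + (42949674 : ℕ)) / S) :
    TriA PP.cur (VE (h0 * 0) 3 κ (h0 * x) (eng.v x) (h0 * (3 / 40)) (tnt (h0 * x) (3 / 10)) (tbl tK x) (tbl tL x) (tbl (smT h0⁻¹ tC) x)) 1 1 2 2 4 (-1) (-1) :=
  (sideB hx hx').bothA (thrB hx hx') (en_pos (hx1 hx).le) (Or.inr rfl) (Or.inr rfl) fun y y' F =>
    bothA_cert (s1 := false) (s2 := false) rfl hκ (en_pos (hx1 hx).le) (esg_rng (hx1 hx).le (hx2 hx').le).1 (mo_v x) covB21 covB41 hx hx'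
        Pool.Agent.Strip051.G.I6500_6900.Tab.C.BA24.c_mm_112 noCut_EA noExt_EA F trivial trivial

theorem BA24_mm_113 {κ x : ℝ} (hκ : κ * h0 = ken x) (hx : ((697932185 : ℕ) : ℝ) / S ≤ x) (hx' : x ≤ (((697932185 : ℕ) : ℝ) + (42949674 : ℕ)) / S) :
    TriA PP.cur (VE (h0 * 0) 3 κ (h0 * x) (eng.v x) (h0 * (3 / 40)) (tnt (h0 * x) (3 / 10)) (tbl tK x) (tbl tL x) (tbl (smT h0⁻¹ tC) x)) 1 1 3 2 4 (-1) (-1) :=
  (sideB hx hx').bothA (thrB hx hx') (en_pos (hx1 hx).le) (Or.inr rfl) (Or.inr rfl) fun y y' F =>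
    bothA_cert (s1 := false) (s2 := false) rfl hκ (en_pos (hx1 hx).le) (esg_rng (hx1 hx).le (hx2 hx').le).1 (mo_v x) covB21 covB41 hx hx'
        Pool.Agent.Strip051.G.I6500_6900.Tab.C.BA24.c_mm_113 noCut_EA noExt_EA F trivial trivial

theorem BA24_mm_123 {κ x : ℝ} (hκ : κ * h0 = ken x) (hx : ((697932185 : ℕ) : ℝ) / S ≤ x) (hx' : x ≤ (((697932185 : ℕ) : ℝ) + (42949674 : ℕ)) / S) :
    TriA PP.cur (VE (h0 * 0) 3 κ (h0 * x) (eng.v x) (h0 * (3 / 40)) (tnt (h0 * x) (3 / 10)) (tbl tK x) (tbl tL x) (tbl (smT h0⁻¹ tC) x)) 1 2 3 2 4 (-1) (-1) :=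
  (sideB hx hx').bothA (thrB hx hx') (en_pos (hx1 hx).le) (Or.inr rfl) (Or.inr rfl) fun y y' F =>
    (lt_or_ge (h0 * y') 1).elim
      (fun g => bothA_cert (s1 := false) (s2 := false) rfl hκ (en_pos (hx1 hx).le) (esg_rng (hx1 hx).le (hx2 hx').le).1 (mo_v x) covB21 covB42a hx hx'
        Pool.Agent.Strip051.G.I6500_6900.Tab.C.BA24.c_mm_123_a noCut_EA noExt_EA F trivial g)
      (fun g => bothA_cert (s1 := false) (s2 := false) rfl hκ (en_pos (hx1 hx).le) (esg_rng (hx1 hx).le (hx2 hx').le).1 (mo_v x) covB21 covB42b hx hx'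
        Pool.Agent.Strip051.G.I6500_6900.Tab.C.BA24.c_mm_123_b noCut_EA noExt_EA F trivial g)

theorem BA24_mm_133 {κ x : ℝ} (hκ : κ * h0 = ken x) (hx : ((697932185 : ℕ) : ℝ) / S ≤ x) (hx' : x ≤ (((697932185 : ℕ) : ℝ) + (42949674 : ℕ)) / S) :
    TriA PP.cur (VE (h0 * 0) 3 κ (h0 * x) (eng.v x) (h0 * (3 / 40)) (tnt (h0 * x) (3 / 10)) (tbl tK x) (tbl tL x) (tbl (smT h0⁻¹ tC) x)) 1 3 3 2 4 (-1) (-1) :=
  (sideB hx hx').bothA (thrB hx hx') (en_pos (hx1 hx).le) (Or.inr rfl) (Or.inr rfl) fun y y' F =>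
    bothA_cert (s1 := false) (s2 := false) rfl hκ (en_pos (hx1 hx).le) (esg_rng (hx1 hx).le (hx2 hx').le).1 (mo_v x) covB21 covB43 hx hx'
        Pool.Agent.Strip051.G.I6500_6900.Tab.C.BA24.c_mm_133 noCut_EA noExt_EA F trivial trivial

theorem BA24_mm_202 {κ x : ℝ} (hκ : κ * h0 = ken x) (hx : ((697932185 : ℕ) : ℝ) / S ≤ x) (hx' : x ≤ (((697932185 : ℕ) : ℝ) + (42949674 : ℕ)) / S) :
    TriA PP.cur (VE (h0 * 0) 3 κ (h0 * x) (eng.v x) (h0 * (3 / 40)) (tnt (h0 * x) (3 / 10)) (tbl tK x) (tbl tL x) (tbl (smT h0⁻¹ tC) x)) 2 0 2 2 4 (-1) (-1) :=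
  (sideB hx hx').bothA (thrB hx hx') (en_pos (hx1 hx).le) (Or.inr rfl) (Or.inr rfl) fun y y' F =>
    (lt_or_ge (h0 * y) 1).elim
      (fun h => bothA_cert (s1 := false) (s2 := false) rfl hκ (en_pos (hx1 hx).le) (esg_rng (hx1 hx).le (hx2 hx').le).1 (mo_v x) covB22a covB40 hx hx'
        Pool.Agent.Strip051.G.I6500_6900.Tab.C.BA24.c_mm_202_a (cutEA_cons (Pool.Agent.Strip051.G.I6500_6900.Tab.altB_A202R_24 hκ hx hx') cutEA_nil) noExt_EA F h trivial)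
      (fun h => bothA_cert (s1 := false) (s2 := false) rfl hκ (en_pos (hx1 hx).le) (esg_rng (hx1 hx).le (hx2 hx').le).1 (mo_v x) covB22b covB40 hx hx'
        Pool.Agent.Strip051.G.I6500_6900.Tab.C.BA24.c_mm_202_b (cutEA_cons (Pool.Agent.Strip051.G.I6500_6900.Tab.altB_A202R_24 hκ hx hx') cutEA_nil) noExt_EA F h trivial)

theorem BA24_mm_203 {κ x : ℝ} (hκ : κ * h0 = ken x) (hx : ((697932185 : ℕ) : ℝ) / S ≤ x) (hx' : x ≤ (((697932185 : ℕ) : ℝ) + (42949674 : ℕ)) / S) :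
    TriA PP.cur (VE (h0 * 0) 3 κ (h0 * x) (eng.v x) (h0 * (3 / 40)) (tnt (h0 * x) (3 / 10)) (tbl tK x) (tbl tL x) (tbl (smT h0⁻¹ tC) x)) 2 0 3 2 4 (-1) (-1) :=
  (sideB hx hx').bothA (thrB hx hx') (en_pos (hx1 hx).le) (Or.inr rfl) (Or.inr rfl) fun y y' F =>
    (lt_or_ge (h0 * y) 1).elim
      (fun h => bothA_cert (s1 := false) (s2 := false) rfl hκ (en_pos (hx1 hx).le) (esg_rng (hx1 hx).le (hx2 hx').le).1 (mo_v x) covB22a covB40 hx hx'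
        Pool.Agent.Strip051.G.I6500_6900.Tab.C.BA24.c_mm_203_a noCut_EA noExt_EA F h trivial)
      (fun h => bothA_cert (s1 := false) (s2 := false) rfl hκ (en_pos (hx1 hx).le) (esg_rng (hx1 hx).le (hx2 hx').le).1 (mo_v x) covB22b covB40 hx hx'
        Pool.Agent.Strip051.G.I6500_6900.Tab.C.BA24.c_mm_203_b noCut_EA noExt_EA F h trivial)

theorem BA24_mm_213 {κ x : ℝ} (hκ : κ * h0 = ken x) (hx : ((697932185 : ℕ) : ℝ) / S ≤ x) (hx' : x ≤ (((697932185 : ℕ) : ℝ) + (42949674 : ℕ)) / S) :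
    TriA PP.cur (VE (h0 * 0) 3 κ (h0 * x) (eng.v x) (h0 * (3 / 40)) (tnt (h0 * x) (3 / 10)) (tbl tK x) (tbl tL x) (tbl (smT h0⁻¹ tC) x)) 2 1 3 2 4 (-1) (-1) :=
  (sideB hx hx').bothA (thrB hx hx') (en_pos (hx1 hx).le) (Or.inr rfl) (Or.inr rfl) fun y y' F =>
    (lt_or_ge (h0 * y) 1).elim
      (fun h => bothA_cert (s1 := false) (s2 := false) rfl hκ (en_pos (hx1 hx).le) (esg_rng (hx1 hx).le (hx2 hx').le).1 (mo_v x) covB22a covB41 hx hx'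
        Pool.Agent.Strip051.G.I6500_6900.Tab.C.BA24.c_mm_213_a noCut_EA noExt_EA F h trivial)
      (fun h => bothA_cert (s1 := false) (s2 := false) rfl hκ (en_pos (hx1 hx).le) (esg_rng (hx1 hx).le (hx2 hx').le).1 (mo_v x) covB22b covB41 hx hx'
        Pool.Agent.Strip051.G.I6500_6900.Tab.C.BA24.c_mm_213_b noCut_EA noExt_EA F h trivial)

theorem BA24_mm_303 {κ x : ℝ} (hκ : κ * h0 = ken x) (hx : ((697932185 : ℕ) : ℝ) / S ≤ x) (hx' : x ≤ (((697932185 : ℕ) : ℝ) + (42949674 : ℕ)) / S) :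
    TriA PP.cur (VE (h0 * 0) 3 κ (h0 * x) (eng.v x) (h0 * (3 / 40)) (tnt (h0 * x) (3 / 10)) (tbl tK x) (tbl tL x) (tbl (smT h0⁻¹ tC) x)) 3 0 3 2 4 (-1) (-1) :=
  (sideB hx hx').bothA (thrB hx hx') (en_pos (hx1 hx).le) (Or.inr rfl) (Or.inr rfl) fun y y' F =>
    bothA_cert (s1 := false) (s2 := false) rfl hκ (en_pos (hx1 hx).le) (esg_rng (hx1 hx).le (hx2 hx').le).1 (mo_v x) covB23 covB40 hx hx'
        Pool.Agent.Strip051.G.I6500_6900.Tab.C.BA24.c_mm_303 noCut_EA noExt_EA F trivial trivial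

theorem BA24_mm_313 {κ x : ℝ} (hκ : κ * h0 = ken x) (hx : ((697932185 : ℕ) : ℝ) / S ≤ x) (hx' : x ≤ (((697932185 : ℕ) : ℝ) + (42949674 : ℕ)) / S) :
    TriA PP.cur (VE (h0 * 0) 3 κ (h0 * x) (eng.v x) (h0 * (3 / 40)) (tnt (h0 * x) (3 / 10)) (tbl tK x) (tbl tL x) (tbl (smT h0⁻¹ tC) x)) 3 1 3 2 4 (-1) (-1) :=
  (sideB hx hx').bothA (thrB hx hx') (en_pos (hx1 hx).le) (Or.inr rfl) (Or.inr rfl) fun y y' F =>
    bothA_cert (s1 := false) (s2 := false) rfl hκ (en_pos (hx1 hx).le) (esg_rng (hx1 hx).le (hx2 hx').le).1 (mo_v x) covB23 covB41 hx hx'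
        Pool.Agent.Strip051.G.I6500_6900.Tab.C.BA24.c_mm_313 noCut_EA noExt_EA F trivial trivial

theorem BA24 {κ x : ℝ} (hκ : κ * h0 = ken x) (hx : ((697932185 : ℕ) : ℝ) / S ≤ x) (hx' : x ≤ (((697932185 : ℕ) : ℝ) + (42949674 : ℕ)) / S) : AllTA PP.cur (VE (h0 * 0) 3 κ (h0 * x) (eng.v x) (h0 * (3 / 40)) (tnt (h0 * x) (3 / 10)) (tbl tK x) (tbl tL x) (tbl (smT h0⁻¹ tC) x)) 2 4 where
  pp := all17 (Q := fun a b c => TriA PP.cur (VE (h0 * 0) 3 κ (h0 * x) (eng.v x) (h0 * (3 / 40)) (tnt (h0 * x) (3 / 10)) (tbl tK x) (tbl tL x) (tbl (smT h0⁻¹ tC) x)) a b c 2 4 1 1)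
    (BA24_pp_001 hκ hx hx') (BA24_pp_011 hκ hx hx') (BA24_pp_012 hκ hx hx') (BA24_pp_022 hκ hx hx') (BA24_pp_023 hκ hx hx') (BA24_pp_033 hκ hx hx') (BA24_pp_101 hκ hx hx') (BA24_pp_102 hκ hx hx') (BA24_pp_112 hκ hx hx') (BA24_pp_113 hκ hx hx') (BA24_pp_123 hκ hx hx') (BA24_pp_133 hκ hx hx') (BA24_pp_202 hκ hx hx') (BA24_pp_203 hκ hx hx') (BA24_pp_213 hκ hx hx') (BA24_pp_303 hκ hx hx') (BA24_pp_313 hκ hx hx')
  pm := all17 (Q := fun a b c => TriA PP.cur (VE (h0 * 0) 3 κ (h0 * x) (eng.v x) (h0 * (3 / 40)) (tnt (h0 * x) (3 / 10)) (tbl tK x) (tbl tL x) (tbl (smT h0⁻¹ tC) x)) a b c 2 4 1 (-1))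
    (BA24_pm_001 hκ hx hx') (BA24_pm_011 hκ hx hx') (BA24_pm_012 hκ hx hx') (BA24_pm_022 hκ hx hx') (BA24_pm_023 hκ hx hx') (BA24_pm_033 hκ hx hx') (BA24_pm_101 hκ hx hx') (BA24_pm_102 hκ hx hx') (BA24_pm_112 hκ hx hx') (BA24_pm_113 hκ hx hx') (BA24_pm_123 hκ hx hx') (BA24_pm_133 hκ hx hx') (BA24_pm_202 hκ hx hx') (BA24_pm_203 hκ hx hx') (BA24_pm_213 hκ hx hx') (BA24_pm_303 hκ hx hx') (BA24_pm_313 hκ hx hx')
  mm := all17 (Q := fun a b c => TriA PP.cur (VE (h0 * 0) 3 κ (h0 * x) (eng.v x) (h0 * (3 / 40)) (tnt (h0 * x) (3 / 10)) (tbl tK x) (tbl tL x) (tbl (smT h0⁻¹ tC) x)) a b c 2 4 (-1) (-1))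
    (BA24_mm_001 hκ hx hx') (BA24_mm_011 hκ hx hx') (BA24_mm_012 hκ hx hx') (BA24_mm_022 hκ hx hx') (BA24_mm_023 hκ hx hx') (BA24_mm_033 hκ hx hx') (BA24_mm_101 hκ hx hx') (BA24_mm_102 hκ hx hx') (BA24_mm_112 hκ hx hx') (BA24_mm_113 hκ hx hx') (BA24_mm_123 hκ hx hx') (BA24_mm_133 hκ hx hx') (BA24_mm_202 hκ hx hx') (BA24_mm_203 hκ hx hx') (BA24_mm_213 hκ hx hx') (BA24_mm_303 hκ hx hx') (BA24_mm_313 hκ hx hx')

theorem BA25_pp_001 {κ x : ℝ} (hκ : κ * h0 = ken x) (hx : ((697932185 : ℕ) : ℝ) / S ≤ x) (hx' : x ≤ (((697932185 : ℕ) : ℝ) + (42949674 : ℕ)) / S) :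
    TriA PP.cur (VE (h0 * 0) 3 κ (h0 * x) (eng.v x) (h0 * (3 / 40)) (tnt (h0 * x) (3 / 10)) (tbl tK x) (tbl tL x) (tbl (smT h0⁻¹ tC) x)) 0 0 1 2 5 1 1 :=
  (sideB hx hx').bothA (thrB hx hx') (en_pos (hx1 hx).le) (Or.inl rfl) (Or.inl rfl) fun y y' F =>
    bothA_cert (s1 := true) (s2 := true) rfl hκ (en_pos (hx1 hx).le) (esg_rng (hx1 hx).le (hx2 hx').le).1 (mo_v x) covB20 covB50 hx hx'
        Pool.Agent.Strip051.G.I6500_6900.Tab.C.BA25.c_pp_001 noCut_EA noExt_EA F trivial trivial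

theorem BA25_pp_011 {κ x : ℝ} (hκ : κ * h0 = ken x) (hx : ((697932185 : ℕ) : ℝ) / S ≤ x) (hx' : x ≤ (((697932185 : ℕ) : ℝ) + (42949674 : ℕ)) / S) :
    TriA PP.cur (VE (h0 * 0) 3 κ (h0 * x) (eng.v x) (h0 * (3 / 40)) (tnt (h0 * x) (3 / 10)) (tbl tK x) (tbl tL x) (tbl (smT h0⁻¹ tC) x)) 0 1 1 2 5 1 1 :=
  (sideB hx hx').bothA (thrB hx hx') (en_pos (hx1 hx).le) (Or.inl rfl) (Or.inl rfl) fun y y' F =>
    bothA_cert (s1 := true) (s2 := true) rfl hκ (en_pos (hx1 hx).le) (esg_rng (hx1 hx).le (hx2 hx').le).1 (mo_v x) covB20 covB51 hx hx'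
        Pool.Agent.Strip051.G.I6500_6900.Tab.C.BA25.c_pp_011 noCut_EA noExt_EA F trivial trivial

theorem BA25_pp_012 {κ x : ℝ} (hκ : κ * h0 = ken x) (hx : ((697932185 : ℕ) : ℝ) / S ≤ x) (hx' : x ≤ (((697932185 : ℕ) : ℝ) + (42949674 : ℕ)) / S) :
    TriA PP.cur (VE (h0 * 0) 3 κ (h0 * x) (eng.v x) (h0 * (3 / 40)) (tnt (h0 * x) (3 / 10)) (tbl tK x) (tbl tL x) (tbl (smT h0⁻¹ tC) x)) 0 1 2 2 5 1 1 :=
  (sideB hx hx').bothA (thrB hx hx') (en_pos (hx1 hx).le) (Or.inl rfl) (Or.inl rfl) fun y y' F =>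
    bothA_cert (s1 := true) (s2 := true) rfl hκ (en_pos (hx1 hx).le) (esg_rng (hx1 hx).le (hx2 hx').le).1 (mo_v x) covB20 covB51 hx hx'
        Pool.Agent.Strip051.G.I6500_6900.Tab.C.BA25.c_pp_012 noCut_EA noExt_EA F trivial trivial

theorem BA25_pp_022 {κ x : ℝ} (hκ : κ * h0 = ken x) (hx : ((697932185 : ℕ) : ℝ) / S ≤ x) (hx' : x ≤ (((697932185 : ℕ) : ℝ) + (42949674 : ℕ)) / S) :
    TriA PP.cur (VE (h0 * 0) 3 κ (h0 * x) (eng.v x) (h0 * (3 / 40)) (tnt (h0 * x) (3 / 10)) (tbl tK x) (tbl tL x) (tbl (smT h0⁻¹ tC) x)) 0 2 2 2 5 1 1 :=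
  (sideB hx hx').bothA (thrB hx hx') (en_pos (hx1 hx).le) (Or.inl rfl) (Or.inl rfl) fun y y' F =>
    bothA_cert (s1 := true) (s2 := true) rfl hκ (en_pos (hx1 hx).le) (esg_rng (hx1 hx).le (hx2 hx').le).1 (mo_v x) covB20 covB52 hx hx'
        Pool.Agent.Strip051.G.I6500_6900.Tab.C.BA25.c_pp_022 noCut_EA noExt_EA F trivial trivial

theorem BA25_pp_023 {κ x : ℝ} (hκ : κ * h0 = ken x) (hx : ((697932185 : ℕ) : ℝ) / S ≤ x) (hx' : x ≤ (((697932185 : ℕ) : ℝ) + (42949674 : ℕ)) / S) :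
    TriA PP.cur (VE (h0 * 0) 3 κ (h0 * x) (eng.v x) (h0 * (3 / 40)) (tnt (h0 * x) (3 / 10)) (tbl tK x) (tbl tL x) (tbl (smT h0⁻¹ tC) x)) 0 2 3 2 5 1 1 :=
  (sideB hx hx').bothA (thrB hx hx') (en_pos (hx1 hx).le) (Or.inl rfl) (Or.inl rfl) fun y y' F =>
    bothA_cert (s1 := true) (s2 := true) rfl hκ (en_pos (hx1 hx).le) (esg_rng (hx1 hx).le (hx2 hx').le).1 (mo_v x) covB20 covB52 hx hx'
        Pool.Agent.Strip051.G.I6500_6900.Tab.C.BA25.c_pp_023 noCut_EA noExt_EA F trivial trivial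

theorem BA25_pp_033 {κ x : ℝ} (hκ : κ * h0 = ken x) (hx : ((697932185 : ℕ) : ℝ) / S ≤ x) (hx' : x ≤ (((697932185 : ℕ) : ℝ) + (42949674 : ℕ)) / S) :
    TriA PP.cur (VE (h0 * 0) 3 κ (h0 * x) (eng.v x) (h0 * (3 / 40)) (tnt (h0 * x) (3 / 10)) (tbl tK x) (tbl tL x) (tbl (smT h0⁻¹ tC) x)) 0 3 3 2 5 1 1 :=
  (sideB hx hx').bothA (thrB hx hx') (en_pos (hx1 hx).le) (Or.inl rfl) (Or.inl rfl) fun y y' F =>
    bothA_cert (s1 := true) (s2 := true) rfl hκ (en_pos (hx1 hx).le) (esg_rng (hx1 hx).le (hx2 hx').le).1 (mo_v x) covB20 covB53 hx hx'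
        Pool.Agent.Strip051.G.I6500_6900.Tab.C.BA25.c_pp_033 noCut_EA noExt_EA F trivial trivial

theorem BA25_pp_101 {κ x : ℝ} (hκ : κ * h0 = ken x) (hx : ((697932185 : ℕ) : ℝ) / S ≤ x) (hx' : x ≤ (((697932185 : ℕ) : ℝ) + (42949674 : ℕ)) / S) :
    TriA PP.cur (VE (h0 * 0) 3 κ (h0 * x) (eng.v x) (h0 * (3 / 40)) (tnt (h0 * x) (3 / 10)) (tbl tK x) (tbl tL x) (tbl (smT h0⁻¹ tC) x)) 1 0 1 2 5 1 1 :=
  (sideB hx hx').bothA (thrB hx hx') (en_pos (hx1 hx).le) (Or.inl rfl) (Or.inl rfl) fun y y' F =>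
    bothA_cert (s1 := true) (s2 := true) rfl hκ (en_pos (hx1 hx).le) (esg_rng (hx1 hx).le (hx2 hx').le).1 (mo_v x) covB21 covB50 hx hx'
        Pool.Agent.Strip051.G.I6500_6900.Tab.C.BA25.c_pp_101 noCut_EA noExt_EA F trivial trivial

theorem BA25_pp_102 {κ x : ℝ} (hκ : κ * h0 = ken x) (hx : ((697932185 : ℕ) : ℝ) / S ≤ x) (hx' : x ≤ (((697932185 : ℕ) : ℝ) + (42949674 : ℕ)) / S) :
    TriA PP.cur (VE (h0 * 0) 3 κ (h0 * x) (eng.v x) (h0 * (3 / 40)) (tnt (h0 * x) (3 / 10)) (tbl tK x) (tbl tL x) (tbl (smT h0⁻¹ tC) x)) 1 0 2 2 5 1 1 :=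
  (sideB hx hx').bothA (thrB hx hx') (en_pos (hx1 hx).le) (Or.inl rfl) (Or.inl rfl) fun y y' F =>
    bothA_cert (s1 := true) (s2 := true) rfl hκ (en_pos (hx1 hx).le) (esg_rng (hx1 hx).le (hx2 hx').le).1 (mo_v x) covB21 covB50 hx hx'
        Pool.Agent.Strip051.G.I6500_6900.Tab.C.BA25.c_pp_102 noCut_EA noExt_EA F trivial trivial

theorem BA25_pp_112 {κ x : ℝ} (hκ : κ * h0 = ken x) (hx : ((697932185 : ℕ) : ℝ) / S ≤ x) (hx' : x ≤ (((697932185 : ℕ) : ℝ) + (42949674 : ℕ)) / S) :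
    TriA PP.cur (VE (h0 * 0) 3 κ (h0 * x) (eng.v x) (h0 * (3 / 40)) (tnt (h0 * x) (3 / 10)) (tbl tK x) (tbl tL x) (tbl (smT h0⁻¹ tC) x)) 1 1 2 2 5 1 1 :=
  (sideB hx hx').bothA (thrB hx hx') (en_pos (hx1 hx).le) (Or.inl rfl) (Or.inl rfl) fun y y' F =>
    bothA_cert (s1 := true) (s2 := true) rfl hκ (en_pos (hx1 hx).le) (esg_rng (hx1 hx).le (hx2 hx').le).1 (mo_v x) covB21 covB51 hx hx'
        Pool.Agent.Strip051.G.I6500_6900.Tab.C.BA25.c_pp_112 noCut_EA noExt_EA F trivial trivial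

theorem BA25_pp_113 {κ x : ℝ} (hκ : κ * h0 = ken x) (hx : ((697932185 : ℕ) : ℝ) / S ≤ x) (hx' : x ≤ (((697932185 : ℕ) : ℝ) + (42949674 : ℕ)) / S) :
    TriA PP.cur (VE (h0 * 0) 3 κ (h0 * x) (eng.v x) (h0 * (3 / 40)) (tnt (h0 * x) (3 / 10)) (tbl tK x) (tbl tL x) (tbl (smT h0⁻¹ tC) x)) 1 1 3 2 5 1 1 :=
  (sideB hx hx').bothA (thrB hx hx') (en_pos (hx1 hx).le) (Or.inl rfl) (Or.inl rfl) fun y y' F =>
    bothA_cert (s1 := true) (s2 := true) rfl hκ (en_pos (hx1 hx).le) (esg_rng (hx1 hx).le (hx2 hx').le).1 (mo_v x) covB21 covB51 hx hx'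
        Pool.Agent.Strip051.G.I6500_6900.Tab.C.BA25.c_pp_113 noCut_EA noExt_EA F trivial trivial

theorem BA25_pp_123 {κ x : ℝ} (hκ : κ * h0 = ken x) (hx : ((697932185 : ℕ) : ℝ) / S ≤ x) (hx' : x ≤ (((697932185 : ℕ) : ℝ) + (42949674 : ℕ)) / S) :
    TriA PP.cur (VE (h0 * 0) 3 κ (h0 * x) (eng.v x) (h0 * (3 / 40)) (tnt (h0 * x) (3 / 10)) (tbl tK x) (tbl tL x) (tbl (smT h0⁻¹ tC) x)) 1 2 3 2 5 1 1 :=
  (sideB hx hx').bothA (thrB hx hx') (en_pos (hx1 hx).le) (Or.inl rfl) (Or.inl rfl) fun y y' F =>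
    bothA_cert (s1 := true) (s2 := true) rfl hκ (en_pos (hx1 hx).le) (esg_rng (hx1 hx).le (hx2 hx').le).1 (mo_v x) covB21 covB52 hx hx'
        Pool.Agent.Strip051.G.I6500_6900.Tab.C.BA25.c_pp_123 noCut_EA noExt_EA F trivial trivial

theorem BA25_pp_133 {κ x : ℝ} (hκ : κ * h0 = ken x) (hx : ((697932185 : ℕ) : ℝ) / S ≤ x) (hx' : x ≤ (((697932185 : ℕ) : ℝ) + (42949674 : ℕ)) / S) :
    TriA PP.cur (VE (h0 * 0) 3 κ (h0 * x) (eng.v x) (h0 * (3 / 40)) (tnt (h0 * x) (3 / 10)) (tbl tK x) (tbl tL x) (tbl (smT h0⁻¹ tC) x)) 1 3 3 2 5 1 1 :=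
  (sideB hx hx').bothA (thrB hx hx') (en_pos (hx1 hx).le) (Or.inl rfl) (Or.inl rfl) fun y y' F =>
    bothA_cert (s1 := true) (s2 := true) rfl hκ (en_pos (hx1 hx).le) (esg_rng (hx1 hx).le (hx2 hx').le).1 (mo_v x) covB21 covB53 hx hx'
        Pool.Agent.Strip051.G.I6500_6900.Tab.C.BA25.c_pp_133 noCut_EA noExt_EA F trivial trivial

theorem BA25_pp_202 {κ x : ℝ} (hκ : κ * h0 = ken x) (hx : ((697932185 : ℕ) : ℝ) / S ≤ x) (hx' : x ≤ (((697932185 : ℕ) : ℝ) + (42949674 : ℕ)) / S) :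
    TriA PP.cur (VE (h0 * 0) 3 κ (h0 * x) (eng.v x) (h0 * (3 / 40)) (tnt (h0 * x) (3 / 10)) (tbl tK x) (tbl tL x) (tbl (smT h0⁻¹ tC) x)) 2 0 2 2 5 1 1 :=
  (sideB hx hx').bothA (thrB hx hx') (en_pos (hx1 hx).le) (Or.inl rfl) (Or.inl rfl) fun y y' F =>
    (lt_or_ge (h0 * y) 1).elim
      (fun h => bothA_cert (s1 := true) (s2 := true) rfl hκ (en_pos (hx1 hx).le) (esg_rng (hx1 hx).le (hx2 hx').le).1 (mo_v x) covB22a covB50 hx hx'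
        Pool.Agent.Strip051.G.I6500_6900.Tab.C.BA25.c_pp_202_a noCut_EA noExt_EA F h trivial)
      (fun h => bothA_cert (s1 := true) (s2 := true) rfl hκ (en_pos (hx1 hx).le) (esg_rng (hx1 hx).le (hx2 hx').le).1 (mo_v x) covB22b covB50 hx hx'
        Pool.Agent.Strip051.G.I6500_6900.Tab.C.BA25.c_pp_202_b noCut_EA noExt_EA F h trivial)

theorem BA25_pp_203 {κ x : ℝ} (hκ : κ * h0 = ken x) (hx : ((697932185 : ℕ) : ℝ) / S ≤ x) (hx' : x ≤ (((697932185 : ℕ) : ℝ) + (42949674 : ℕ)) / S) :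
    TriA PP.cur (VE (h0 * 0) 3 κ (h0 * x) (eng.v x) (h0 * (3 / 40)) (tnt (h0 * x) (3 / 10)) (tbl tK x) (tbl tL x) (tbl (smT h0⁻¹ tC) x)) 2 0 3 2 5 1 1 :=
  (sideB hx hx').bothA (thrB hx hx') (en_pos (hx1 hx).le) (Or.inl rfl) (Or.inl rfl) fun y y' F =>
    (lt_or_ge (h0 * y) 1).elim
      (fun h => bothA_cert (s1 := true) (s2 := true) rfl hκ (en_pos (hx1 hx).le) (esg_rng (hx1 hx).le (hx2 hx').le).1 (mo_v x) covB22a covB50 hx hx'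
        Pool.Agent.Strip051.G.I6500_6900.Tab.C.BA25.c_pp_203_a noCut_EA noExt_EA F h trivial)
      (fun h => bothA_cert (s1 := true) (s2 := true) rfl hκ (en_pos (hx1 hx).le) (esg_rng (hx1 hx).le (hx2 hx').le).1 (mo_v x) covB22b covB50 hx hx'
        Pool.Agent.Strip051.G.I6500_6900.Tab.C.BA25.c_pp_203_b noCut_EA noExt_EA F h trivial)

theorem BA25_pp_213 {κ x : ℝ} (hκ : κ * h0 = ken x) (hx : ((697932185 : ℕ) : ℝ) / S ≤ x) (hx' : x ≤ (((697932185 : ℕ) : ℝ) + (42949674 : ℕ)) / S) :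
    TriA PP.cur (VE (h0 * 0) 3 κ (h0 * x) (eng.v x) (h0 * (3 / 40)) (tnt (h0 * x) (3 / 10)) (tbl tK x) (tbl tL x) (tbl (smT h0⁻¹ tC) x)) 2 1 3 2 5 1 1 :=
  (sideB hx hx').bothA (thrB hx hx') (en_pos (hx1 hx).le) (Or.inl rfl) (Or.inl rfl) fun y y' F =>
    (lt_or_ge (h0 * y) 1).elim
      (fun h => bothA_cert (s1 := true) (s2 := true) rfl hκ (en_pos (hx1 hx).le) (esg_rng (hx1 hx).le (hx2 hx').le).1 (mo_v x) covB22a covB51 hx hx'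
        Pool.Agent.Strip051.G.I6500_6900.Tab.C.BA25.c_pp_213_a noCut_EA noExt_EA F h trivial)
      (fun h => bothA_cert (s1 := true) (s2 := true) rfl hκ (en_pos (hx1 hx).le) (esg_rng (hx1 hx).le (hx2 hx').le).1 (mo_v x) covB22b covB51 hx hx'
        Pool.Agent.Strip051.G.I6500_6900.Tab.C.BA25.c_pp_213_b noCut_EA noExt_EA F h trivial)

theorem BA25_pp_303 {κ x : ℝ} (hκ : κ * h0 = ken x) (hx : ((697932185 : ℕ) : ℝ) / S ≤ x) (hx' : x ≤ (((697932185 : ℕ) : ℝ) + (42949674 : ℕ)) / S) :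
    TriA PP.cur (VE (h0 * 0) 3 κ (h0 * x) (eng.v x) (h0 * (3 / 40)) (tnt (h0 * x) (3 / 10)) (tbl tK x) (tbl tL x) (tbl (smT h0⁻¹ tC) x)) 3 0 3 2 5 1 1 :=
  (sideB hx hx').bothA (thrB hx hx') (en_pos (hx1 hx).le) (Or.inl rfl) (Or.inl rfl) fun y y' F =>
    bothA_cert (s1 := true) (s2 := true) rfl hκ (en_pos (hx1 hx).le) (esg_rng (hx1 hx).le (hx2 hx').le).1 (mo_v x) covB23 covB50 hx hx'
        Pool.Agent.Strip051.G.I6500_6900.Tab.C.BA25.c_pp_303 noCut_EA noExt_EA F trivial trivial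

theorem BA25_pp_313 {κ x : ℝ} (hκ : κ * h0 = ken x) (hx : ((697932185 : ℕ) : ℝ) / S ≤ x) (hx' : x ≤ (((697932185 : ℕ) : ℝ) + (42949674 : ℕ)) / S) :
    TriA PP.cur (VE (h0 * 0) 3 κ (h0 * x) (eng.v x) (h0 * (3 / 40)) (tnt (h0 * x) (3 / 10)) (tbl tK x) (tbl tL x) (tbl (smT h0⁻¹ tC) x)) 3 1 3 2 5 1 1 :=
  (sideB hx hx').bothA (thrB hx hx') (en_pos (hx1 hx).le) (Or.inl rfl) (Or.inl rfl) fun y y' F =>
    bothA_cert (s1 := true) (s2 := true) rfl hκ (en_pos (hx1 hx).le) (esg_rng (hx1 hx).le (hx2 hx').le).1 (mo_v x) covB23 covB51 hx hx'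
        Pool.Agent.Strip051.G.I6500_6900.Tab.C.BA25.c_pp_313 noCut_EA noExt_EA F trivial trivial

theorem BA25_pm_001 {κ x : ℝ} (hκ : κ * h0 = ken x) (hx : ((697932185 : ℕ) : ℝ) / S ≤ x) (hx' : x ≤ (((697932185 : ℕ) : ℝ) + (42949674 : ℕ)) / S) :
    TriA PP.cur (VE (h0 * 0) 3 κ (h0 * x) (eng.v x) (h0 * (3 / 40)) (tnt (h0 * x) (3 / 10)) (tbl tK x) (tbl tL x) (tbl (smT h0⁻¹ tC) x)) 0 0 1 2 5 1 (-1) :=
  (sideB hx hx').bothA (thrB hx hx') (en_pos (hx1 hx).le) (Or.inl rfl) (Or.inr rfl) fun y y' F =>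
    bothA_cert (s1 := true) (s2 := false) rfl hκ (en_pos (hx1 hx).le) (esg_rng (hx1 hx).le (hx2 hx').le).1 (mo_v x) covB20 covB50 hx hx'
        Pool.Agent.Strip051.G.I6500_6900.Tab.C.BA25.c_pm_001 noCut_EA noExt_EA F trivial trivial

theorem BA25_pm_011 {κ x : ℝ} (hκ : κ * h0 = ken x) (hx : ((697932185 : ℕ) : ℝ) / S ≤ x) (hx' : x ≤ (((697932185 : ℕ) : ℝ) + (42949674 : ℕ)) / S) :
    TriA PP.cur (VE (h0 * 0) 3 κ (h0 * x) (eng.v x) (h0 * (3 / 40)) (tnt (h0 * x) (3 / 10)) (tbl tK x) (tbl tL x) (tbl (smT h0⁻¹ tC) x)) 0 1 1 2 5 1 (-1) :=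
  (sideB hx hx').bothA (thrB hx hx') (en_pos (hx1 hx).le) (Or.inl rfl) (Or.inr rfl) fun y y' F =>
    bothA_cert (s1 := true) (s2 := false) rfl hκ (en_pos (hx1 hx).le) (esg_rng (hx1 hx).le (hx2 hx').le).1 (mo_v x) covB20 covB51 hx hx'
        Pool.Agent.Strip051.G.I6500_6900.Tab.C.BA25.c_pm_011 (cutEA_cons (Pool.Agent.Strip051.G.I6500_6900.Tab.altB_A011R_25 hκ hx hx') cutEA_nil) noExt_EA F trivial trivial

theorem BA25_pm_012 {κ x : ℝ} (hκ : κ * h0 = ken x) (hx : ((697932185 : ℕ) : ℝ) / S ≤ x) (hx' : x ≤ (((697932185 : ℕ) : ℝ) + (42949674 : ℕ)) / S) :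
    TriA PP.cur (VE (h0 * 0) 3 κ (h0 * x) (eng.v x) (h0 * (3 / 40)) (tnt (h0 * x) (3 / 10)) (tbl tK x) (tbl tL x) (tbl (smT h0⁻¹ tC) x)) 0 1 2 2 5 1 (-1) :=
  (sideB hx hx').bothA (thrB hx hx') (en_pos (hx1 hx).le) (Or.inl rfl) (Or.inr rfl) fun y y' F =>
    bothA_cert (s1 := true) (s2 := false) rfl hκ (en_pos (hx1 hx).le) (esg_rng (hx1 hx).le (hx2 hx').le).1 (mo_v x) covB20 covB51 hx hx'
        Pool.Agent.Strip051.G.I6500_6900.Tab.C.BA25.c_pm_012 (cutEA_cons (Pool.Agent.Strip051.G.I6500_6900.Tab.altB_A012R_25 hκ hx hx') cutEA_nil) noExt_EA F trivial trivial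

theorem BA25_pm_022 {κ x : ℝ} (hκ : κ * h0 = ken x) (hx : ((697932185 : ℕ) : ℝ) / S ≤ x) (hx' : x ≤ (((697932185 : ℕ) : ℝ) + (42949674 : ℕ)) / S) :
    TriA PP.cur (VE (h0 * 0) 3 κ (h0 * x) (eng.v x) (h0 * (3 / 40)) (tnt (h0 * x) (3 / 10)) (tbl tK x) (tbl tL x) (tbl (smT h0⁻¹ tC) x)) 0 2 2 2 5 1 (-1) :=
  (sideB hx hx').bothA (thrB hx hx') (en_pos (hx1 hx).le) (Or.inl rfl) (Or.inr rfl) fun y y' F =>
    bothA_cert (s1 := true) (s2 := false) rfl hκ (en_pos (hx1 hx).le) (esg_rng (hx1 hx).le (hx2 hx').le).1 (mo_v x) covB20 covB52 hx hx'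
        Pool.Agent.Strip051.G.I6500_6900.Tab.C.BA25.c_pm_022 noCut_EA noExt_EA F trivial trivial

theorem BA25_pm_023 {κ x : ℝ} (hκ : κ * h0 = ken x) (hx : ((697932185 : ℕ) : ℝ) / S ≤ x) (hx' : x ≤ (((697932185 : ℕ) : ℝ) + (42949674 : ℕ)) / S) :
    TriA PP.cur (VE (h0 * 0) 3 κ (h0 * x) (eng.v x) (h0 * (3 / 40)) (tnt (h0 * x) (3 / 10)) (tbl tK x) (tbl tL x) (tbl (smT h0⁻¹ tC) x)) 0 2 3 2 5 1 (-1) :=
  (sideB hx hx').bothA (thrB hx hx') (en_pos (hx1 hx).le) (Or.inl rfl) (Or.inr rfl) fun y y' F =>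
    bothA_cert (s1 := true) (s2 := false) rfl hκ (en_pos (hx1 hx).le) (esg_rng (hx1 hx).le (hx2 hx').le).1 (mo_v x) covB20 covB52 hx hx'
        Pool.Agent.Strip051.G.I6500_6900.Tab.C.BA25.c_pm_023 noCut_EA noExt_EA F trivial trivial

theorem BA25_pm_033 {κ x : ℝ} (hκ : κ * h0 = ken x) (hx : ((697932185 : ℕ) : ℝ) / S ≤ x) (hx' : x ≤ (((697932185 : ℕ) : ℝ) + (42949674 : ℕ)) / S) :
    TriA PP.cur (VE (h0 * 0) 3 κ (h0 * x) (eng.v x) (h0 * (3 / 40)) (tnt (h0 * x) (3 / 10)) (tbl tK x) (tbl tL x) (tbl (smT h0⁻¹ tC) x)) 0 3 3 2 5 1 (-1) :=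
  (sideB hx hx').bothA (thrB hx hx') (en_pos (hx1 hx).le) (Or.inl rfl) (Or.inr rfl) fun y y' F =>
    bothA_cert (s1 := true) (s2 := false) rfl hκ (en_pos (hx1 hx).le) (esg_rng (hx1 hx).le (hx2 hx').le).1 (mo_v x) covB20 covB53 hx hx'
        Pool.Agent.Strip051.G.I6500_6900.Tab.C.BA25.c_pm_033 noCut_EA noExt_EA F trivial trivial

theorem BA25_pm_101 {κ x : ℝ} (hκ : κ * h0 = ken x) (hx : ((697932185 : ℕ) : ℝ) / S ≤ x) (hx' : x ≤ (((697932185 : ℕ) : ℝ) + (42949674 : ℕ)) / S) :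
    TriA PP.cur (VE (h0 * 0) 3 κ (h0 * x) (eng.v x) (h0 * (3 / 40)) (tnt (h0 * x) (3 / 10)) (tbl tK x) (tbl tL x) (tbl (smT h0⁻¹ tC) x)) 1 0 1 2 5 1 (-1) :=
  (sideB hx hx').bothA (thrB hx hx') (en_pos (hx1 hx).le) (Or.inl rfl) (Or.inr rfl) fun y y' F =>
    bothA_cert (s1 := true) (s2 := false) rfl hκ (en_pos (hx1 hx).le) (esg_rng (hx1 hx).le (hx2 hx').le).1 (mo_v x) covB21 covB50 hx hx'
        Pool.Agent.Strip051.G.I6500_6900.Tab.C.BA25.c_pm_101 noCut_EA noExt_EA F trivial trivial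

theorem BA25_pm_102 {κ x : ℝ} (hκ : κ * h0 = ken x) (hx : ((697932185 : ℕ) : ℝ) / S ≤ x) (hx' : x ≤ (((697932185 : ℕ) : ℝ) + (42949674 : ℕ)) / S) :
    TriA PP.cur (VE (h0 * 0) 3 κ (h0 * x) (eng.v x) (h0 * (3 / 40)) (tnt (h0 * x) (3 / 10)) (tbl tK x) (tbl tL x) (tbl (smT h0⁻¹ tC) x)) 1 0 2 2 5 1 (-1) :=
  (sideB hx hx').bothA (thrB hx hx') (en_pos (hx1 hx).le) (Or.inl rfl) (Or.inr rfl) fun y y' F =>
    bothA_cert (s1 := true) (s2 := false) rfl hκ (en_pos (hx1 hx).le) (esg_rng (hx1 hx).le (hx2 hx').le).1 (mo_v x) covB21 covB50 hx hx'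
        Pool.Agent.Strip051.G.I6500_6900.Tab.C.BA25.c_pm_102 noCut_EA noExt_EA F trivial trivial

theorem BA25_pm_112 {κ x : ℝ} (hκ : κ * h0 = ken x) (hx : ((697932185 : ℕ) : ℝ) / S ≤ x) (hx' : x ≤ (((697932185 : ℕ) : ℝ) + (42949674 : ℕ)) / S) :
    TriA PP.cur (VE (h0 * 0) 3 κ (h0 * x) (eng.v x) (h0 * (3 / 40)) (tnt (h0 * x) (3 / 10)) (tbl tK x) (tbl tL x) (tbl (smT h0⁻¹ tC) x)) 1 1 2 2 5 1 (-1) :=
  (sideB hx hx').bothA (thrB hx hx') (en_pos (hx1 hx).le) (Or.inl rfl) (Or.inr rfl) fun y y' F =>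
    bothA_cert (s1 := true) (s2 := false) rfl hκ (en_pos (hx1 hx).le) (esg_rng (hx1 hx).le (hx2 hx').le).1 (mo_v x) covB21 covB51 hx hx'
        Pool.Agent.Strip051.G.I6500_6900.Tab.C.BA25.c_pm_112 noCut_EA noExt_EA F trivial trivial

theorem BA25_pm_113 {κ x : ℝ} (hκ : κ * h0 = ken x) (hx : ((697932185 : ℕ) : ℝ) / S ≤ x) (hx' : x ≤ (((697932185 : ℕ) : ℝ) + (42949674 : ℕ)) / S) :
    TriA PP.cur (VE (h0 * 0) 3 κ (h0 * x) (eng.v x) (h0 * (3 / 40)) (tnt (h0 * x) (3 / 10)) (tbl tK x) (tbl tL x) (tbl (smT h0⁻¹ tC) x)) 1 1 3 2 5 1 (-1) :=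
  (sideB hx hx').bothA (thrB hx hx') (en_pos (hx1 hx).le) (Or.inl rfl) (Or.inr rfl) fun y y' F =>
    bothA_cert (s1 := true) (s2 := false) rfl hκ (en_pos (hx1 hx).le) (esg_rng (hx1 hx).le (hx2 hx').le).1 (mo_v x) covB21 covB51 hx hx'
        Pool.Agent.Strip051.G.I6500_6900.Tab.C.BA25.c_pm_113 noCut_EA noExt_EA F trivial trivial

theorem BA25_pm_123 {κ x : ℝ} (hκ : κ * h0 = ken x) (hx : ((697932185 : ℕ) : ℝ) / S ≤ x) (hx' : x ≤ (((697932185 : ℕ) : ℝ) + (42949674 : ℕ)) / S) :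
    TriA PP.cur (VE (h0 * 0) 3 κ (h0 * x) (eng.v x) (h0 * (3 / 40)) (tnt (h0 * x) (3 / 10)) (tbl tK x) (tbl tL x) (tbl (smT h0⁻¹ tC) x)) 1 2 3 2 5 1 (-1) :=
  (sideB hx hx').bothA (thrB hx hx') (en_pos (hx1 hx).le) (Or.inl rfl) (Or.inr rfl) fun y y' F =>
    bothA_cert (s1 := true) (s2 := false) rfl hκ (en_pos (hx1 hx).le) (esg_rng (hx1 hx).le (hx2 hx').le).1 (mo_v x) covB21 covB52 hx hx'
        Pool.Agent.Strip051.G.I6500_6900.Tab.C.BA25.c_pm_123 noCut_EA noExt_EA F trivial trivial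

theorem BA25_pm_133 {κ x : ℝ} (hκ : κ * h0 = ken x) (hx : ((697932185 : ℕ) : ℝ) / S ≤ x) (hx' : x ≤ (((697932185 : ℕ) : ℝ) + (42949674 : ℕ)) / S) :
    TriA PP.cur (VE (h0 * 0) 3 κ (h0 * x) (eng.v x) (h0 * (3 / 40)) (tnt (h0 * x) (3 / 10)) (tbl tK x) (tbl tL x) (tbl (smT h0⁻¹ tC) x)) 1 3 3 2 5 1 (-1) :=
  (sideB hx hx').bothA (thrB hx hx') (en_pos (hx1 hx).le) (Or.inl rfl) (Or.inr rfl) fun y y' F =>
    bothA_cert (s1 := true) (s2 := false) rfl hκ (en_pos (hx1 hx).le) (esg_rng (hx1 hx).le (hx2 hx').le).1 (mo_v x) covB21 covB53 hx hx'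
        Pool.Agent.Strip051.G.I6500_6900.Tab.C.BA25.c_pm_133 noCut_EA noExt_EA F trivial trivial

theorem BA25_pm_202 {κ x : ℝ} (hκ : κ * h0 = ken x) (hx : ((697932185 : ℕ) : ℝ) / S ≤ x) (hx' : x ≤ (((697932185 : ℕ) : ℝ) + (42949674 : ℕ)) / S) :
    TriA PP.cur (VE (h0 * 0) 3 κ (h0 * x) (eng.v x) (h0 * (3 / 40)) (tnt (h0 * x) (3 / 10)) (tbl tK x) (tbl tL x) (tbl (smT h0⁻¹ tC) x)) 2 0 2 2 5 1 (-1) :=
  (sideB hx hx').bothA (thrB hx hx') (en_pos (hx1 hx).le) (Or.inl rfl) (Or.inr rfl) fun y y' F =>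
    (lt_or_ge (h0 * y) 1).elim
      (fun h => bothA_cert (s1 := true) (s2 := false) rfl hκ (en_pos (hx1 hx).le) (esg_rng (hx1 hx).le (hx2 hx').le).1 (mo_v x) covB22a covB50 hx hx'
        Pool.Agent.Strip051.G.I6500_6900.Tab.C.BA25.c_pm_202_a noCut_EA noExt_EA F h trivial)
      (fun h => bothA_cert (s1 := true) (s2 := false) rfl hκ (en_pos (hx1 hx).le) (esg_rng (hx1 hx).le (hx2 hx').le).1 (mo_v x) covB22b covB50 hx hx'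
        Pool.Agent.Strip051.G.I6500_6900.Tab.C.BA25.c_pm_202_b noCut_EA noExt_EA F h trivial)

theorem BA25_pm_203 {κ x : ℝ} (hκ : κ * h0 = ken x) (hx : ((697932185 : ℕ) : ℝ) / S ≤ x) (hx' : x ≤ (((697932185 : ℕ) : ℝ) + (42949674 : ℕ)) / S) :
    TriA PP.cur (VE (h0 * 0) 3 κ (h0 * x) (eng.v x) (h0 * (3 / 40)) (tnt (h0 * x) (3 / 10)) (tbl tK x) (tbl tL x) (tbl (smT h0⁻¹ tC) x)) 2 0 3 2 5 1 (-1) :=
  (sideB hx hx').bothA (thrB hx hx') (en_pos (hx1 hx).le) (Or.inl rfl) (Or.inr rfl) fun y y' F =>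
    (lt_or_ge (h0 * y) 1).elim
      (fun h => bothA_cert (s1 := true) (s2 := false) rfl hκ (en_pos (hx1 hx).le) (esg_rng (hx1 hx).le (hx2 hx').le).1 (mo_v x) covB22a covB50 hx hx'
        Pool.Agent.Strip051.G.I6500_6900.Tab.C.BA25.c_pm_203_a noCut_EA noExt_EA F h trivial)
      (fun h => bothA_cert (s1 := true) (s2 := false) rfl hκ (en_pos (hx1 hx).le) (esg_rng (hx1 hx).le (hx2 hx').le).1 (mo_v x) covB22b covB50 hx hx'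
        Pool.Agent.Strip051.G.I6500_6900.Tab.C.BA25.c_pm_203_b noCut_EA noExt_EA F h trivial)

theorem BA25_pm_213 {κ x : ℝ} (hκ : κ * h0 = ken x) (hx : ((697932185 : ℕ) : ℝ) / S ≤ x) (hx' : x ≤ (((697932185 : ℕ) : ℝ) + (42949674 : ℕ)) / S) :
    TriA PP.cur (VE (h0 * 0) 3 κ (h0 * x) (eng.v x) (h0 * (3 / 40)) (tnt (h0 * x) (3 / 10)) (tbl tK x) (tbl tL x) (tbl (smT h0⁻¹ tC) x)) 2 1 3 2 5 1 (-1) :=
  (sideB hx hx').bothA (thrB hx hx') (en_pos (hx1 hx).le) (Or.inl rfl) (Or.inr rfl) fun y y' F =>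
    (lt_or_ge (h0 * y) 1).elim
      (fun h => bothA_cert (s1 := true) (s2 := false) rfl hκ (en_pos (hx1 hx).le) (esg_rng (hx1 hx).le (hx2 hx').le).1 (mo_v x) covB22a covB51 hx hx'
        Pool.Agent.Strip051.G.I6500_6900.Tab.C.BA25.c_pm_213_a noCut_EA noExt_EA F h trivial)
      (fun h => bothA_cert (s1 := true) (s2 := false) rfl hκ (en_pos (hx1 hx).le) (esg_rng (hx1 hx).le (hx2 hx').le).1 (mo_v x) covB22b covB51 hx hx'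
        Pool.Agent.Strip051.G.I6500_6900.Tab.C.BA25.c_pm_213_b noCut_EA noExt_EA F h trivial)

theorem BA25_pm_303 {κ x : ℝ} (hκ : κ * h0 = ken x) (hx : ((697932185 : ℕ) : ℝ) / S ≤ x) (hx' : x ≤ (((697932185 : ℕ) : ℝ) + (42949674 : ℕ)) / S) :
    TriA PP.cur (VE (h0 * 0) 3 κ (h0 * x) (eng.v x) (h0 * (3 / 40)) (tnt (h0 * x) (3 / 10)) (tbl tK x) (tbl tL x) (tbl (smT h0⁻¹ tC) x)) 3 0 3 2 5 1 (-1) :=
  (sideB hx hx').bothA (thrB hx hx') (en_pos (hx1 hx).le) (Or.inl rfl) (Or.inr rfl) fun y y' F =>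
    bothA_cert (s1 := true) (s2 := false) rfl hκ (en_pos (hx1 hx).le) (esg_rng (hx1 hx).le (hx2 hx').le).1 (mo_v x) covB23 covB50 hx hx'
        Pool.Agent.Strip051.G.I6500_6900.Tab.C.BA25.c_pm_303 noCut_EA noExt_EA F trivial trivial

theorem BA25_pm_313 {κ x : ℝ} (hκ : κ * h0 = ken x) (hx : ((697932185 : ℕ) : ℝ) / S ≤ x) (hx' : x ≤ (((697932185 : ℕ) : ℝ) + (42949674 : ℕ)) / S) :
    TriA PP.cur (VE (h0 * 0) 3 κ (h0 * x) (eng.v x) (h0 * (3 / 40)) (tnt (h0 * x) (3 / 10)) (tbl tK x) (tbl tL x) (tbl (smT h0⁻¹ tC) x)) 3 1 3 2 5 1 (-1) :=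
  (sideB hx hx').bothA (thrB hx hx') (en_pos (hx1 hx).le) (Or.inl rfl) (Or.inr rfl) fun y y' F =>
    bothA_cert (s1 := true) (s2 := false) rfl hκ (en_pos (hx1 hx).le) (esg_rng (hx1 hx).le (hx2 hx').le).1 (mo_v x) covB23 covB51 hx hx'
        Pool.Agent.Strip051.G.I6500_6900.Tab.C.BA25.c_pm_313 noCut_EA noExt_EA F trivial trivial

theorem BA25_mm_001 {κ x : ℝ} (hκ : κ * h0 = ken x) (hx : ((697932185 : ℕ) : ℝ) / S ≤ x) (hx' : x ≤ (((697932185 : ℕ) : ℝ) + (42949674 : ℕ)) / S) :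
    TriA PP.cur (VE (h0 * 0) 3 κ (h0 * x) (eng.v x) (h0 * (3 / 40)) (tnt (h0 * x) (3 / 10)) (tbl tK x) (tbl tL x) (tbl (smT h0⁻¹ tC) x)) 0 0 1 2 5 (-1) (-1) :=
  (sideB hx hx').bothA (thrB hx hx') (en_pos (hx1 hx).le) (Or.inr rfl) (Or.inr rfl) fun y y' F =>
    bothA_cert (s1 := false) (s2 := false) rfl hκ (en_pos (hx1 hx).le) (esg_rng (hx1 hx).le (hx2 hx').le).1 (mo_v x) covB20 covB50 hx hx'
        Pool.Agent.Strip051.G.I6500_6900.Tab.C.BA25.c_mm_001 noCut_EA noExt_EA F trivial trivial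

theorem BA25_mm_011 {κ x : ℝ} (hκ : κ * h0 = ken x) (hx : ((697932185 : ℕ) : ℝ) / S ≤ x) (hx' : x ≤ (((697932185 : ℕ) : ℝ) + (42949674 : ℕ)) / S) :
    TriA PP.cur (VE (h0 * 0) 3 κ (h0 * x) (eng.v x) (h0 * (3 / 40)) (tnt (h0 * x) (3 / 10)) (tbl tK x) (tbl tL x) (tbl (smT h0⁻¹ tC) x)) 0 1 1 2 5 (-1) (-1) :=
  (sideB hx hx').bothA (thrB hx hx') (en_pos (hx1 hx).le) (Or.inr rfl) (Or.inr rfl) fun y y' F =>
    bothA_cert (s1 := false) (s2 := false) rfl hκ (en_pos (hx1 hx).le) (esg_rng (hx1 hx).le (hx2 hx').le).1 (mo_v x) covB20 covB51 hx hx'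
        Pool.Agent.Strip051.G.I6500_6900.Tab.C.BA25.c_mm_011 noCut_EA noExt_EA F trivial trivial

theorem BA25_mm_012 {κ x : ℝ} (hκ : κ * h0 = ken x) (hx : ((697932185 : ℕ) : ℝ) / S ≤ x) (hx' : x ≤ (((697932185 : ℕ) : ℝ) + (42949674 : ℕ)) / S) :
    TriA PP.cur (VE (h0 * 0) 3 κ (h0 * x) (eng.v x) (h0 * (3 / 40)) (tnt (h0 * x) (3 / 10)) (tbl tK x) (tbl tL x) (tbl (smT h0⁻¹ tC) x)) 0 1 2 2 5 (-1) (-1) :=
  (sideB hx hx').bothA (thrB hx hx') (en_pos (hx1 hx).le) (Or.inr rfl) (Or.inr rfl) fun y y' F =>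
    bothA_cert (s1 := false) (s2 := false) rfl hκ (en_pos (hx1 hx).le) (esg_rng (hx1 hx).le (hx2 hx').le).1 (mo_v x) covB20 covB51 hx hx'
        Pool.Agent.Strip051.G.I6500_6900.Tab.C.BA25.c_mm_012 noCut_EA noExt_EA F trivial trivial

theorem BA25_mm_022 {κ x : ℝ} (hκ : κ * h0 = ken x) (hx : ((697932185 : ℕ) : ℝ) / S ≤ x) (hx' : x ≤ (((697932185 : ℕ) : ℝ) + (42949674 : ℕ)) / S) :
    TriA PP.cur (VE (h0 * 0) 3 κ (h0 * x) (eng.v x) (h0 * (3 / 40)) (tnt (h0 * x) (3 / 10)) (tbl tK x) (tbl tL x) (tbl (smT h0⁻¹ tC) x)) 0 2 2 2 5 (-1) (-1) :=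
  (sideB hx hx').bothA (thrB hx hx') (en_pos (hx1 hx).le) (Or.inr rfl) (Or.inr rfl) fun y y' F =>
    bothA_cert (s1 := false) (s2 := false) rfl hκ (en_pos (hx1 hx).le) (esg_rng (hx1 hx).le (hx2 hx').le).1 (mo_v x) covB20 covB52 hx hx'
        Pool.Agent.Strip051.G.I6500_6900.Tab.C.BA25.c_mm_022 noCut_EA noExt_EA F trivial trivial

theorem BA25_mm_023 {κ x : ℝ} (hκ : κ * h0 = ken x) (hx : ((697932185 : ℕ) : ℝ) / S ≤ x) (hx' : x ≤ (((697932185 : ℕ) : ℝ) + (42949674 : ℕ)) / S) :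
    TriA PP.cur (VE (h0 * 0) 3 κ (h0 * x) (eng.v x) (h0 * (3 / 40)) (tnt (h0 * x) (3 / 10)) (tbl tK x) (tbl tL x) (tbl (smT h0⁻¹ tC) x)) 0 2 3 2 5 (-1) (-1) :=
  (sideB hx hx').bothA (thrB hx hx') (en_pos (hx1 hx).le) (Or.inr rfl) (Or.inr rfl) fun y y' F =>
    bothA_cert (s1 := false) (s2 := false) rfl hκ (en_pos (hx1 hx).le) (esg_rng (hx1 hx).le (hx2 hx').le).1 (mo_v x) covB20 covB52 hx hx'
        Pool.Agent.Strip051.G.I6500_6900.Tab.C.BA25.c_mm_023 noCut_EA noExt_EA F trivial trivial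

theorem BA25_mm_033 {κ x : ℝ} (hκ : κ * h0 = ken x) (hx : ((697932185 : ℕ) : ℝ) / S ≤ x) (hx' : x ≤ (((697932185 : ℕ) : ℝ) + (42949674 : ℕ)) / S) :
    TriA PP.cur (VE (h0 * 0) 3 κ (h0 * x) (eng.v x) (h0 * (3 / 40)) (tnt (h0 * x) (3 / 10)) (tbl tK x) (tbl tL x) (tbl (smT h0⁻¹ tC) x)) 0 3 3 2 5 (-1) (-1) :=
  (sideB hx hx').bothA (thrB hx hx') (en_pos (hx1 hx).le) (Or.inr rfl) (Or.inr rfl) fun y y' F =>
    bothA_cert (s1 := false) (s2 := false) rfl hκ (en_pos (hx1 hx).le) (esg_rng (hx1 hx).le (hx2 hx').le).1 (mo_v x) covB20 covB53 hx hx'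
        Pool.Agent.Strip051.G.I6500_6900.Tab.C.BA25.c_mm_033 noCut_EA noExt_EA F trivial trivial

theorem BA25_mm_101 {κ x : ℝ} (hκ : κ * h0 = ken x) (hx : ((697932185 : ℕ) : ℝ) / S ≤ x) (hx' : x ≤ (((697932185 : ℕ) : ℝ) + (42949674 : ℕ)) / S) :
    TriA PP.cur (VE (h0 * 0) 3 κ (h0 * x) (eng.v x) (h0 * (3 / 40)) (tnt (h0 * x) (3 / 10)) (tbl tK x) (tbl tL x) (tbl (smT h0⁻¹ tC) x)) 1 0 1 2 5 (-1) (-1) :=
  (sideB hx hx').bothA (thrB hx hx') (en_pos (hx1 hx).le) (Or.inr rfl) (Or.inr rfl) fun y y' F =>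
    bothA_cert (s1 := false) (s2 := false) rfl hκ (en_pos (hx1 hx).le) (esg_rng (hx1 hx).le (hx2 hx').le).1 (mo_v x) covB21 covB50 hx hx'
        Pool.Agent.Strip051.G.I6500_6900.Tab.C.BA25.c_mm_101 noCut_EA noExt_EA F trivial trivial

theorem BA25_mm_102 {κ x : ℝ} (hκ : κ * h0 = ken x) (hx : ((697932185 : ℕ) : ℝ) / S ≤ x) (hx' : x ≤ (((697932185 : ℕ) : ℝ) + (42949674 : ℕ)) / S) :
    TriA PP.cur (VE (h0 * 0) 3 κ (h0 * x) (eng.v x) (h0 * (3 / 40)) (tnt (h0 * x) (3 / 10)) (tbl tK x) (tbl tL x) (tbl (smT h0⁻¹ tC) x)) 1 0 2 2 5 (-1) (-1) :=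
  (sideB hx hx').bothA (thrB hx hx') (en_pos (hx1 hx).le) (Or.inr rfl) (Or.inr rfl) fun y y' F =>
    bothA_cert (s1 := false) (s2 := false) rfl hκ (en_pos (hx1 hx).le) (esg_rng (hx1 hx).le (hx2 hx').le).1 (mo_v x) covB21 covB50 hx hx'
        Pool.Agent.Strip051.G.I6500_6900.Tab.C.BA25.c_mm_102 noCut_EA noExt_EA F trivial trivial

theorem BA25_mm_112 {κ x : ℝ} (hκ : κ * h0 = ken x) (hx : ((697932185 : ℕ) : ℝ) / S ≤ x) (hx' : x ≤ (((697932185 : ℕ) : ℝ) + (42949674 : ℕ)) / S) :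
    TriA PP.cur (VE (h0 * 0) 3 κ (h0 * x) (eng.v x) (h0 * (3 / 40)) (tnt (h0 * x) (3 / 10)) (tbl tK x) (tbl tL x) (tbl (smT h0⁻¹ tC) x)) 1 1 2 2 5 (-1) (-1) :=
  (sideB hx hx').bothA (thrB hx hx') (en_pos (hx1 hx).le) (Or.inr rfl) (Or.inr rfl) fun y y' F =>
    bothA_cert (s1 := false) (s2 := false) rfl hκ (en_pos (hx1 hx).le) (esg_rng (hx1 hx).le (hx2 hx').le).1 (mo_v x) covB21 covB51 hx hx'
        Pool.Agent.Strip051.G.I6500_6900.Tab.C.BA25.c_mm_112 noCut_EA noExt_EA F trivial trivial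

theorem BA25_mm_113 {κ x : ℝ} (hκ : κ * h0 = ken x) (hx : ((697932185 : ℕ) : ℝ) / S ≤ x) (hx' : x ≤ (((697932185 : ℕ) : ℝ) + (42949674 : ℕ)) / S) :
    TriA PP.cur (VE (h0 * 0) 3 κ (h0 * x) (eng.v x) (h0 * (3 / 40)) (tnt (h0 * x) (3 / 10)) (tbl tK x) (tbl tL x) (tbl (smT h0⁻¹ tC) x)) 1 1 3 2 5 (-1) (-1) :=
  (sideB hx hx').bothA (thrB hx hx') (en_pos (hx1 hx).le) (Or.inr rfl) (Or.inr rfl) fun y y' F =>
    bothA_cert (s1 := false) (s2 := false) rfl hκ (en_pos (hx1 hx).le) (esg_rng (hx1 hx).le (hx2 hx').le).1 (mo_v x) covB21 covB51 hx hx'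
        Pool.Agent.Strip051.G.I6500_6900.Tab.C.BA25.c_mm_113 noCut_EA noExt_EA F trivial trivial

theorem BA25_mm_123 {κ x : ℝ} (hκ : κ * h0 = ken x) (hx : ((697932185 : ℕ) : ℝ) / S ≤ x) (hx' : x ≤ (((697932185 : ℕ) : ℝ) + (42949674 : ℕ)) / S) :
    TriA PP.cur (VE (h0 * 0) 3 κ (h0 * x) (eng.v x) (h0 * (3 / 40)) (tnt (h0 * x) (3 / 10)) (tbl tK x) (tbl tL x) (tbl (smT h0⁻¹ tC) x)) 1 2 3 2 5 (-1) (-1) :=
  (sideB hx hx').bothA (thrB hx hx') (en_pos (hx1 hx).le) (Or.inr rfl) (Or.inr rfl) fun y y' F =>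
    bothA_cert (s1 := false) (s2 := false) rfl hκ (en_pos (hx1 hx).le) (esg_rng (hx1 hx).le (hx2 hx').le).1 (mo_v x) covB21 covB52 hx hx'
        Pool.Agent.Strip051.G.I6500_6900.Tab.C.BA25.c_mm_123 noCut_EA noExt_EA F trivial trivial

theorem BA25_mm_133 {κ x : ℝ} (hκ : κ * h0 = ken x) (hx : ((697932185 : ℕ) : ℝ) / S ≤ x) (hx' : x ≤ (((697932185 : ℕ) : ℝ) + (42949674 : ℕ)) / S) :
    TriA PP.cur (VE (h0 * 0) 3 κ (h0 * x) (eng.v x) (h0 * (3 / 40)) (tnt (h0 * x) (3 / 10)) (tbl tK x) (tbl tL x) (tbl (smT h0⁻¹ tC) x)) 1 3 3 2 5 (-1) (-1) :=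
  (sideB hx hx').bothA (thrB hx hx') (en_pos (hx1 hx).le) (Or.inr rfl) (Or.inr rfl) fun y y' F =>
    bothA_cert (s1 := false) (s2 := false) rfl hκ (en_pos (hx1 hx).le) (esg_rng (hx1 hx).le (hx2 hx').le).1 (mo_v x) covB21 covB53 hx hx'
        Pool.Agent.Strip051.G.I6500_6900.Tab.C.BA25.c_mm_133 noCut_EA noExt_EA F trivial trivial

theorem BA25_mm_202 {κ x : ℝ} (hκ : κ * h0 = ken x) (hx : ((697932185 : ℕ) : ℝ) / S ≤ x) (hx' : x ≤ (((697932185 : ℕ) : ℝ) + (42949674 : ℕ)) / S) :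
    TriA PP.cur (VE (h0 * 0) 3 κ (h0 * x) (eng.v x) (h0 * (3 / 40)) (tnt (h0 * x) (3 / 10)) (tbl tK x) (tbl tL x) (tbl (smT h0⁻¹ tC) x)) 2 0 2 2 5 (-1) (-1) :=
  (sideB hx hx').bothA (thrB hx hx') (en_pos (hx1 hx).le) (Or.inr rfl) (Or.inr rfl) fun y y' F =>
    (lt_or_ge (h0 * y) 1).elim
      (fun h => bothA_cert (s1 := false) (s2 := false) rfl hκ (en_pos (hx1 hx).le) (esg_rng (hx1 hx).le (hx2 hx').le).1 (mo_v x) covB22a covB50 hx hx'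
        Pool.Agent.Strip051.G.I6500_6900.Tab.C.BA25.c_mm_202_a noCut_EA noExt_EA F h trivial)
      (fun h => bothA_cert (s1 := false) (s2 := false) rfl hκ (en_pos (hx1 hx).le) (esg_rng (hx1 hx).le (hx2 hx').le).1 (mo_v x) covB22b covB50 hx hx'
        Pool.Agent.Strip051.G.I6500_6900.Tab.C.BA25.c_mm_202_b noCut_EA noExt_EA F h trivial)

theorem BA25_mm_203 {κ x : ℝ} (hκ : κ * h0 = ken x) (hx : ((697932185 : ℕ) : ℝ) / S ≤ x) (hx' : x ≤ (((697932185 : ℕ) : ℝ) + (42949674 : ℕ)) / S) :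
    TriA PP.cur (VE (h0 * 0) 3 κ (h0 * x) (eng.v x) (h0 * (3 / 40)) (tnt (h0 * x) (3 / 10)) (tbl tK x) (tbl tL x) (tbl (smT h0⁻¹ tC) x)) 2 0 3 2 5 (-1) (-1) :=
  (sideB hx hx').bothA (thrB hx hx') (en_pos (hx1 hx).le) (Or.inr rfl) (Or.inr rfl) fun y y' F =>
    (lt_or_ge (h0 * y) 1).elim
      (fun h => bothA_cert (s1 := false) (s2 := false) rfl hκ (en_pos (hx1 hx).le) (esg_rng (hx1 hx).le (hx2 hx').le).1 (mo_v x) covB22a covB50 hx hx'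
        Pool.Agent.Strip051.G.I6500_6900.Tab.C.BA25.c_mm_203_a noCut_EA noExt_EA F h trivial)
      (fun h => bothA_cert (s1 := false) (s2 := false) rfl hκ (en_pos (hx1 hx).le) (esg_rng (hx1 hx).le (hx2 hx').le).1 (mo_v x) covB22b covB50 hx hx'
        Pool.Agent.Strip051.G.I6500_6900.Tab.C.BA25.c_mm_203_b noCut_EA noExt_EA F h trivial)

theorem BA25_mm_213 {κ x : ℝ} (hκ : κ * h0 = ken x) (hx : ((697932185 : ℕ) : ℝ) / S ≤ x) (hx' : x ≤ (((697932185 : ℕ) : ℝ) + (42949674 : ℕ)) / S) :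
    TriA PP.cur (VE (h0 * 0) 3 κ (h0 * x) (eng.v x) (h0 * (3 / 40)) (tnt (h0 * x) (3 / 10)) (tbl tK x) (tbl tL x) (tbl (smT h0⁻¹ tC) x)) 2 1 3 2 5 (-1) (-1) :=
  (sideB hx hx').bothA (thrB hx hx') (en_pos (hx1 hx).le) (Or.inr rfl) (Or.inr rfl) fun y y' F =>
    (lt_or_ge (h0 * y) 1).elim
      (fun h => bothA_cert (s1 := false) (s2 := false) rfl hκ (en_pos (hx1 hx).le) (esg_rng (hx1 hx).le (hx2 hx').le).1 (mo_v x) covB22a covB51 hx hx'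
        Pool.Agent.Strip051.G.I6500_6900.Tab.C.BA25.c_mm_213_a noCut_EA noExt_EA F h trivial)
      (fun h => bothA_cert (s1 := false) (s2 := false) rfl hκ (en_pos (hx1 hx).le) (esg_rng (hx1 hx).le (hx2 hx').le).1 (mo_v x) covB22b covB51 hx hx'
        Pool.Agent.Strip051.G.I6500_6900.Tab.C.BA25.c_mm_213_b noCut_EA noExt_EA F h trivial)

theorem BA25_mm_303 {κ x : ℝ} (hκ : κ * h0 = ken x) (hx : ((697932185 : ℕ) : ℝ) / S ≤ x) (hx' : x ≤ (((697932185 : ℕ) : ℝ) + (42949674 : ℕ)) / S) :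
    TriA PP.cur (VE (h0 * 0) 3 κ (h0 * x) (eng.v x) (h0 * (3 / 40)) (tnt (h0 * x) (3 / 10)) (tbl tK x) (tbl tL x) (tbl (smT h0⁻¹ tC) x)) 3 0 3 2 5 (-1) (-1) :=
  (sideB hx hx').bothA (thrB hx hx') (en_pos (hx1 hx).le) (Or.inr rfl) (Or.inr rfl) fun y y' F =>
    bothA_cert (s1 := false) (s2 := false) rfl hκ (en_pos (hx1 hx).le) (esg_rng (hx1 hx).le (hx2 hx').le).1 (mo_v x) covB23 covB50 hx hx'
        Pool.Agent.Strip051.G.I6500_6900.Tab.C.BA25.c_mm_303 noCut_EA noExt_EA F trivial trivial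

theorem BA25_mm_313 {κ x : ℝ} (hκ : κ * h0 = ken x) (hx : ((697932185 : ℕ) : ℝ) / S ≤ x) (hx' : x ≤ (((697932185 : ℕ) : ℝ) + (42949674 : ℕ)) / S) :
    TriA PP.cur (VE (h0 * 0) 3 κ (h0 * x) (eng.v x) (h0 * (3 / 40)) (tnt (h0 * x) (3 / 10)) (tbl tK x) (tbl tL x) (tbl (smT h0⁻¹ tC) x)) 3 1 3 2 5 (-1) (-1) :=
  (sideB hx hx').bothA (thrB hx hx') (en_pos (hx1 hx).le) (Or.inr rfl) (Or.inr rfl) fun y y' F =>
    bothA_cert (s1 := false) (s2 := false) rfl hκ (en_pos (hx1 hx).le) (esg_rng (hx1 hx).le (hx2 hx').le).1 (mo_v x) covB23 covB51 hx hx'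
        Pool.Agent.Strip051.G.I6500_6900.Tab.C.BA25.c_mm_313 noCut_EA noExt_EA F trivial trivial

theorem BA25 {κ x : ℝ} (hκ : κ * h0 = ken x) (hx : ((697932185 : ℕ) : ℝ) / S ≤ x) (hx' : x ≤ (((697932185 : ℕ) : ℝ) + (42949674 : ℕ)) / S) : AllTA PP.cur (VE (h0 * 0) 3 κ (h0 * x) (eng.v x) (h0 * (3 / 40)) (tnt (h0 * x) (3 / 10)) (tbl tK x) (tbl tL x) (tbl (smT h0⁻¹ tC) x)) 2 5 where
  pp := all17 (Q := fun a b c => TriA PP.cur (VE (h0 * 0) 3 κ (h0 * x) (eng.v x) (h0 * (3 / 40)) (tnt (h0 * x) (3 / 10)) (tbl tK x) (tbl tL x) (tbl (smT h0⁻¹ tC) x)) a b c 2 5 1 1)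
    (BA25_pp_001 hκ hx hx') (BA25_pp_011 hκ hx hx') (BA25_pp_012 hκ hx hx') (BA25_pp_022 hκ hx hx') (BA25_pp_023 hκ hx hx') (BA25_pp_033 hκ hx hx') (BA25_pp_101 hκ hx hx') (BA25_pp_102 hκ hx hx') (BA25_pp_112 hκ hx hx') (BA25_pp_113 hκ hx hx') (BA25_pp_123 hκ hx hx') (BA25_pp_133 hκ hx hx') (BA25_pp_202 hκ hx hx') (BA25_pp_203 hκ hx hx') (BA25_pp_213 hκ hx hx') (BA25_pp_303 hκ hx hx') (BA25_pp_313 hκ hx hx')
  pm := all17 (Q := fun a b c => TriA PP.cur (VE (h0 * 0) 3 κ (h0 * x) (eng.v x) (h0 * (3 / 40)) (tnt (h0 * x) (3 / 10)) (tbl tK x) (tbl tL x) (tbl (smT h0⁻¹ tC) x)) a b c 2 5 1 (-1))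
    (BA25_pm_001 hκ hx hx') (BA25_pm_011 hκ hx hx') (BA25_pm_012 hκ hx hx') (BA25_pm_022 hκ hx hx') (BA25_pm_023 hκ hx hx') (BA25_pm_033 hκ hx hx') (BA25_pm_101 hκ hx hx') (BA25_pm_102 hκ hx hx') (BA25_pm_112 hκ hx hx') (BA25_pm_113 hκ hx hx') (BA25_pm_123 hκ hx hx') (BA25_pm_133 hκ hx hx') (BA25_pm_202 hκ hx hx') (BA25_pm_203 hκ hx hx') (BA25_pm_213 hκ hx hx') (BA25_pm_303 hκ hx hx') (BA25_pm_313 hκ hx hx')
  mm := all17 (Q := fun a b c => TriA PP.cur (VE (h0 * 0) 3 κ (h0 * x) (eng.v x) (h0 * (3 / 40)) (tnt (h0 * x) (3 / 10)) (tbl tK x) (tbl tL x) (tbl (smT h0⁻¹ tC) x)) a b c 2 5 (-1) (-1))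
    (BA25_mm_001 hκ hx hx') (BA25_mm_011 hκ hx hx') (BA25_mm_012 hκ hx hx') (BA25_mm_022 hκ hx hx') (BA25_mm_023 hκ hx hx') (BA25_mm_033 hκ hx hx') (BA25_mm_101 hκ hx hx') (BA25_mm_102 hκ hx hx') (BA25_mm_112 hκ hx hx') (BA25_mm_113 hκ hx hx') (BA25_mm_123 hκ hx hx') (BA25_mm_133 hκ hx hx') (BA25_mm_202 hκ hx hx') (BA25_mm_203 hκ hx hx') (BA25_mm_213 hκ hx hx') (BA25_mm_303 hκ hx hx') (BA25_mm_313 hκ hx hx')

theorem BA26_pp_001 {κ x : ℝ} (hκ : κ * h0 = ken x) (hx : ((697932185 : ℕ) : ℝ) / S ≤ x) (hx' : x ≤ (((697932185 : ℕ) : ℝ) + (42949674 : ℕ)) / S) :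
    TriA PP.cur (VE (h0 * 0) 3 κ (h0 * x) (eng.v x) (h0 * (3 / 40)) (tnt (h0 * x) (3 / 10)) (tbl tK x) (tbl tL x) (tbl (smT h0⁻¹ tC) x)) 0 0 1 2 6 1 1 :=
  (sideB hx hx').bothA (thrB hx hx') (en_pos (hx1 hx).le) (Or.inl rfl) (Or.inl rfl) fun y y' F =>
    bothA_cert (s1 := true) (s2 := true) rfl hκ (en_pos (hx1 hx).le) (esg_rng (hx1 hx).le (hx2 hx').le).1 (mo_v x) covB20 covB60 hx hx'
        Pool.Agent.Strip051.G.I6500_6900.Tab.C.BA26.c_pp_001 noCut_EA noExt_EA F trivial trivial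

theorem BA26_pp_011 {κ x : ℝ} (hκ : κ * h0 = ken x) (hx : ((697932185 : ℕ) : ℝ) / S ≤ x) (hx' : x ≤ (((697932185 : ℕ) : ℝ) + (42949674 : ℕ)) / S) :
    TriA PP.cur (VE (h0 * 0) 3 κ (h0 * x) (eng.v x) (h0 * (3 / 40)) (tnt (h0 * x) (3 / 10)) (tbl tK x) (tbl tL x) (tbl (smT h0⁻¹ tC) x)) 0 1 1 2 6 1 1 :=
  (sideB hx hx').bothA (thrB hx hx') (en_pos (hx1 hx).le) (Or.inl rfl) (Or.inl rfl) fun y y' F =>
    bothA_cert (s1 := true) (s2 := true) rfl hκ (en_pos (hx1 hx).le) (esg_rng (hx1 hx).le (hx2 hx').le).1 (mo_v x) covB20 covB61 hx hx'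
        Pool.Agent.Strip051.G.I6500_6900.Tab.C.BA26.c_pp_011 noCut_EA noExt_EA F trivial trivial

theorem BA26_pp_012 {κ x : ℝ} (hκ : κ * h0 = ken x) (hx : ((697932185 : ℕ) : ℝ) / S ≤ x) (hx' : x ≤ (((697932185 : ℕ) : ℝ) + (42949674 : ℕ)) / S) :
    TriA PP.cur (VE (h0 * 0) 3 κ (h0 * x) (eng.v x) (h0 * (3 / 40)) (tnt (h0 * x) (3 / 10)) (tbl tK x) (tbl tL x) (tbl (smT h0⁻¹ tC) x)) 0 1 2 2 6 1 1 :=
  (sideB hx hx').bothA (thrB hx hx') (en_pos (hx1 hx).le) (Or.inl rfl) (Or.inl rfl) fun y y' F =>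
    bothA_cert (s1 := true) (s2 := true) rfl hκ (en_pos (hx1 hx).le) (esg_rng (hx1 hx).le (hx2 hx').le).1 (mo_v x) covB20 covB61 hx hx'
        Pool.Agent.Strip051.G.I6500_6900.Tab.C.BA26.c_pp_012 noCut_EA noExt_EA F trivial trivial

theorem BA26_pp_022 {κ x : ℝ} (hκ : κ * h0 = ken x) (hx : ((697932185 : ℕ) : ℝ) / S ≤ x) (hx' : x ≤ (((697932185 : ℕ) : ℝ) + (42949674 : ℕ)) / S) :
    TriA PP.cur (VE (h0 * 0) 3 κ (h0 * x) (eng.v x) (h0 * (3 / 40)) (tnt (h0 * x) (3 / 10)) (tbl tK x) (tbl tL x) (tbl (smT h0⁻¹ tC) x)) 0 2 2 2 6 1 1 :=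
  (sideB hx hx').bothA (thrB hx hx') (en_pos (hx1 hx).le) (Or.inl rfl) (Or.inl rfl) fun y y' F =>
    bothA_cert (s1 := true) (s2 := true) rfl hκ (en_pos (hx1 hx).le) (esg_rng (hx1 hx).le (hx2 hx').le).1 (mo_v x) covB20 covB62 hx hx'
        Pool.Agent.Strip051.G.I6500_6900.Tab.C.BA26.c_pp_022 noCut_EA noExt_EA F trivial trivial

theorem BA26_pp_023 {κ x : ℝ} (hκ : κ * h0 = ken x) (hx : ((697932185 : ℕ) : ℝ) / S ≤ x) (hx' : x ≤ (((697932185 : ℕ) : ℝ) + (42949674 : ℕ)) / S) :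
    TriA PP.cur (VE (h0 * 0) 3 κ (h0 * x) (eng.v x) (h0 * (3 / 40)) (tnt (h0 * x) (3 / 10)) (tbl tK x) (tbl tL x) (tbl (smT h0⁻¹ tC) x)) 0 2 3 2 6 1 1 :=
  (sideB hx hx').bothA (thrB hx hx') (en_pos (hx1 hx).le) (Or.inl rfl) (Or.inl rfl) fun y y' F =>
    bothA_cert (s1 := true) (s2 := true) rfl hκ (en_pos (hx1 hx).le) (esg_rng (hx1 hx).le (hx2 hx').le).1 (mo_v x) covB20 covB62 hx hx'
        Pool.Agent.Strip051.G.I6500_6900.Tab.C.BA26.c_pp_023 noCut_EA noExt_EA F trivial trivial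

theorem BA26_pp_033 {κ x : ℝ} (hκ : κ * h0 = ken x) (hx : ((697932185 : ℕ) : ℝ) / S ≤ x) (hx' : x ≤ (((697932185 : ℕ) : ℝ) + (42949674 : ℕ)) / S) :
    TriA PP.cur (VE (h0 * 0) 3 κ (h0 * x) (eng.v x) (h0 * (3 / 40)) (tnt (h0 * x) (3 / 10)) (tbl tK x) (tbl tL x) (tbl (smT h0⁻¹ tC) x)) 0 3 3 2 6 1 1 :=
  (sideB hx hx').bothA (thrB hx hx') (en_pos (hx1 hx).le) (Or.inl rfl) (Or.inl rfl) fun y y' F =>
    bothA_cert (s1 := true) (s2 := true) rfl hκ (en_pos (hx1 hx).le) (esg_rng (hx1 hx).le (hx2 hx').le).1 (mo_v x) covB20 covB63 hx hx'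
        Pool.Agent.Strip051.G.I6500_6900.Tab.C.BA26.c_pp_033 noCut_EA noExt_EA F trivial trivial

theorem BA26_pp_101 {κ x : ℝ} (hκ : κ * h0 = ken x) (hx : ((697932185 : ℕ) : ℝ) / S ≤ x) (hx' : x ≤ (((697932185 : ℕ) : ℝ) + (42949674 : ℕ)) / S) :
    TriA PP.cur (VE (h0 * 0) 3 κ (h0 * x) (eng.v x) (h0 * (3 / 40)) (tnt (h0 * x) (3 / 10)) (tbl tK x) (tbl tL x) (tbl (smT h0⁻¹ tC) x)) 1 0 1 2 6 1 1 :=
  (sideB hx hx').bothA (thrB hx hx') (en_pos (hx1 hx).le) (Or.inl rfl) (Or.inl rfl) fun y y' F =>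
    bothA_cert (s1 := true) (s2 := true) rfl hκ (en_pos (hx1 hx).le) (esg_rng (hx1 hx).le (hx2 hx').le).1 (mo_v x) covB21 covB60 hx hx'
        Pool.Agent.Strip051.G.I6500_6900.Tab.C.BA26.c_pp_101 noCut_EA noExt_EA F trivial trivial

theorem BA26_pp_102 {κ x : ℝ} (hκ : κ * h0 = ken x) (hx : ((697932185 : ℕ) : ℝ) / S ≤ x) (hx' : x ≤ (((697932185 : ℕ) : ℝ) + (42949674 : ℕ)) / S) :
    TriA PP.cur (VE (h0 * 0) 3 κ (h0 * x) (eng.v x) (h0 * (3 / 40)) (tnt (h0 * x) (3 / 10)) (tbl tK x) (tbl tL x) (tbl (smT h0⁻¹ tC) x)) 1 0 2 2 6 1 1 :=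
  (sideB hx hx').bothA (thrB hx hx') (en_pos (hx1 hx).le) (Or.inl rfl) (Or.inl rfl) fun y y' F =>
    bothA_cert (s1 := true) (s2 := true) rfl hκ (en_pos (hx1 hx).le) (esg_rng (hx1 hx).le (hx2 hx').le).1 (mo_v x) covB21 covB60 hx hx'
        Pool.Agent.Strip051.G.I6500_6900.Tab.C.BA26.c_pp_102 noCut_EA noExt_EA F trivial trivial

theorem BA26_pp_112 {κ x : ℝ} (hκ : κ * h0 = ken x) (hx : ((697932185 : ℕ) : ℝ) / S ≤ x) (hx' : x ≤ (((697932185 : ℕ) : ℝ) + (42949674 : ℕ)) / S) :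
    TriA PP.cur (VE (h0 * 0) 3 κ (h0 * x) (eng.v x) (h0 * (3 / 40)) (tnt (h0 * x) (3 / 10)) (tbl tK x) (tbl tL x) (tbl (smT h0⁻¹ tC) x)) 1 1 2 2 6 1 1 :=
  (sideB hx hx').bothA (thrB hx hx') (en_pos (hx1 hx).le) (Or.inl rfl) (Or.inl rfl) fun y y' F =>
    bothA_cert (s1 := true) (s2 := true) rfl hκ (en_pos (hx1 hx).le) (esg_rng (hx1 hx).le (hx2 hx').le).1 (mo_v x) covB21 covB61 hx hx'
        Pool.Agent.Strip051.G.I6500_6900.Tab.C.BA26.c_pp_112 noCut_EA noExt_EA F trivial trivial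

theorem BA26_pp_113 {κ x : ℝ} (hκ : κ * h0 = ken x) (hx : ((697932185 : ℕ) : ℝ) / S ≤ x) (hx' : x ≤ (((697932185 : ℕ) : ℝ) + (42949674 : ℕ)) / S) :
    TriA PP.cur (VE (h0 * 0) 3 κ (h0 * x) (eng.v x) (h0 * (3 / 40)) (tnt (h0 * x) (3 / 10)) (tbl tK x) (tbl tL x) (tbl (smT h0⁻¹ tC) x)) 1 1 3 2 6 1 1 :=
  (sideB hx hx').bothA (thrB hx hx') (en_pos (hx1 hx).le) (Or.inl rfl) (Or.inl rfl) fun y y' F =>
    bothA_cert (s1 := true) (s2 := true) rfl hκ (en_pos (hx1 hx).le) (esg_rng (hx1 hx).le (hx2 hx').le).1 (mo_v x) covB21 covB61 hx hx'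
        Pool.Agent.Strip051.G.I6500_6900.Tab.C.BA26.c_pp_113 noCut_EA noExt_EA F trivial trivial

theorem BA26_pp_123 {κ x : ℝ} (hκ : κ * h0 = ken x) (hx : ((697932185 : ℕ) : ℝ) / S ≤ x) (hx' : x ≤ (((697932185 : ℕ) : ℝ) + (42949674 : ℕ)) / S) :
    TriA PP.cur (VE (h0 * 0) 3 κ (h0 * x) (eng.v x) (h0 * (3 / 40)) (tnt (h0 * x) (3 / 10)) (tbl tK x) (tbl tL x) (tbl (smT h0⁻¹ tC) x)) 1 2 3 2 6 1 1 :=
  (sideB hx hx').bothA (thrB hx hx') (en_pos (hx1 hx).le) (Or.inl rfl) (Or.inl rfl) fun y y' F =>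
    bothA_cert (s1 := true) (s2 := true) rfl hκ (en_pos (hx1 hx).le) (esg_rng (hx1 hx).le (hx2 hx').le).1 (mo_v x) covB21 covB62 hx hx'
        Pool.Agent.Strip051.G.I6500_6900.Tab.C.BA26.c_pp_123 noCut_EA noExt_EA F trivial trivial

theorem BA26_pp_133 {κ x : ℝ} (hκ : κ * h0 = ken x) (hx : ((697932185 : ℕ) : ℝ) / S ≤ x) (hx' : x ≤ (((697932185 : ℕ) : ℝ) + (42949674 : ℕ)) / S) :
    TriA PP.cur (VE (h0 * 0) 3 κ (h0 * x) (eng.v x) (h0 * (3 / 40)) (tnt (h0 * x) (3 / 10)) (tbl tK x) (tbl tL x) (tbl (smT h0⁻¹ tC) x)) 1 3 3 2 6 1 1 :=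
  (sideB hx hx').bothA (thrB hx hx') (en_pos (hx1 hx).le) (Or.inl rfl) (Or.inl rfl) fun y y' F =>
    bothA_cert (s1 := true) (s2 := true) rfl hκ (en_pos (hx1 hx).le) (esg_rng (hx1 hx).le (hx2 hx').le).1 (mo_v x) covB21 covB63 hx hx'
        Pool.Agent.Strip051.G.I6500_6900.Tab.C.BA26.c_pp_133 noCut_EA noExt_EA F trivial trivial

theorem BA26_pp_202 {κ x : ℝ} (hκ : κ * h0 = ken x) (hx : ((697932185 : ℕ) : ℝ) / S ≤ x) (hx' : x ≤ (((697932185 : ℕ) : ℝ) + (42949674 : ℕ)) / S) :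
    TriA PP.cur (VE (h0 * 0) 3 κ (h0 * x) (eng.v x) (h0 * (3 / 40)) (tnt (h0 * x) (3 / 10)) (tbl tK x) (tbl tL x) (tbl (smT h0⁻¹ tC) x)) 2 0 2 2 6 1 1 :=
  (sideB hx hx').bothA (thrB hx hx') (en_pos (hx1 hx).le) (Or.inl rfl) (Or.inl rfl) fun y y' F =>
    (lt_or_ge (h0 * y) 1).elim
      (fun h => bothA_cert (s1 := true) (s2 := true) rfl hκ (en_pos (hx1 hx).le) (esg_rng (hx1 hx).le (hx2 hx').le).1 (mo_v x) covB22a covB60 hx hx'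
        Pool.Agent.Strip051.G.I6500_6900.Tab.C.BA26.c_pp_202_a noCut_EA noExt_EA F h trivial)
      (fun h => bothA_cert (s1 := true) (s2 := true) rfl hκ (en_pos (hx1 hx).le) (esg_rng (hx1 hx).le (hx2 hx').le).1 (mo_v x) covB22b covB60 hx hx'
        Pool.Agent.Strip051.G.I6500_6900.Tab.C.BA26.c_pp_202_b noCut_EA noExt_EA F h trivial)

theorem BA26_pp_203 {κ x : ℝ} (hκ : κ * h0 = ken x) (hx : ((697932185 : ℕ) : ℝ) / S ≤ x) (hx' : x ≤ (((697932185 : ℕ) : ℝ) + (42949674 : ℕ)) / S) :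
    TriA PP.cur (VE (h0 * 0) 3 κ (h0 * x) (eng.v x) (h0 * (3 / 40)) (tnt (h0 * x) (3 / 10)) (tbl tK x) (tbl tL x) (tbl (smT h0⁻¹ tC) x)) 2 0 3 2 6 1 1 :=
  (sideB hx hx').bothA (thrB hx hx') (en_pos (hx1 hx).le) (Or.inl rfl) (Or.inl rfl) fun y y' F =>
    (lt_or_ge (h0 * y) 1).elim
      (fun h => bothA_cert (s1 := true) (s2 := true) rfl hκ (en_pos (hx1 hx).le) (esg_rng (hx1 hx).le (hx2 hx').le).1 (mo_v x) covB22a covB60 hx hx'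
        Pool.Agent.Strip051.G.I6500_6900.Tab.C.BA26.c_pp_203_a noCut_EA noExt_EA F h trivial)
      (fun h => bothA_cert (s1 := true) (s2 := true) rfl hκ (en_pos (hx1 hx).le) (esg_rng (hx1 hx).le (hx2 hx').le).1 (mo_v x) covB22b covB60 hx hx'
        Pool.Agent.Strip051.G.I6500_6900.Tab.C.BA26.c_pp_203_b noCut_EA noExt_EA F h trivial)

theorem BA26_pp_213 {κ x : ℝ} (hκ : κ * h0 = ken x) (hx : ((697932185 : ℕ) : ℝ) / S ≤ x) (hx' : x ≤ (((697932185 : ℕ) : ℝ) + (42949674 : ℕ)) / S) :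
    TriA PP.cur (VE (h0 * 0) 3 κ (h0 * x) (eng.v x) (h0 * (3 / 40)) (tnt (h0 * x) (3 / 10)) (tbl tK x) (tbl tL x) (tbl (smT h0⁻¹ tC) x)) 2 1 3 2 6 1 1 :=
  (sideB hx hx').bothA (thrB hx hx') (en_pos (hx1 hx).le) (Or.inl rfl) (Or.inl rfl) fun y y' F =>
    (lt_or_ge (h0 * y) 1).elim
      (fun h => bothA_cert (s1 := true) (s2 := true) rfl hκ (en_pos (hx1 hx).le) (esg_rng (hx1 hx).le (hx2 hx').le).1 (mo_v x) covB22a covB61 hx hx'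
        Pool.Agent.Strip051.G.I6500_6900.Tab.C.BA26.c_pp_213_a noCut_EA noExt_EA F h trivial)
      (fun h => bothA_cert (s1 := true) (s2 := true) rfl hκ (en_pos (hx1 hx).le) (esg_rng (hx1 hx).le (hx2 hx').le).1 (mo_v x) covB22b covB61 hx hx'
        Pool.Agent.Strip051.G.I6500_6900.Tab.C.BA26.c_pp_213_b noCut_EA noExt_EA F h trivial)

theorem BA26_pp_303 {κ x : ℝ} (hκ : κ * h0 = ken x) (hx : ((697932185 : ℕ) : ℝ) / S ≤ x) (hx' : x ≤ (((697932185 : ℕ) : ℝ) + (42949674 : ℕ)) / S) :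
    TriA PP.cur (VE (h0 * 0) 3 κ (h0 * x) (eng.v x) (h0 * (3 / 40)) (tnt (h0 * x) (3 / 10)) (tbl tK x) (tbl tL x) (tbl (smT h0⁻¹ tC) x)) 3 0 3 2 6 1 1 :=
  (sideB hx hx').bothA (thrB hx hx') (en_pos (hx1 hx).le) (Or.inl rfl) (Or.inl rfl) fun y y' F =>
    bothA_cert (s1 := true) (s2 := true) rfl hκ (en_pos (hx1 hx).le) (esg_rng (hx1 hx).le (hx2 hx').le).1 (mo_v x) covB23 covB60 hx hx'
        Pool.Agent.Strip051.G.I6500_6900.Tab.C.BA26.c_pp_303 noCut_EA noExt_EA F trivial trivial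

theorem BA26_pp_313 {κ x : ℝ} (hκ : κ * h0 = ken x) (hx : ((697932185 : ℕ) : ℝ) / S ≤ x) (hx' : x ≤ (((697932185 : ℕ) : ℝ) + (42949674 : ℕ)) / S) :
    TriA PP.cur (VE (h0 * 0) 3 κ (h0 * x) (eng.v x) (h0 * (3 / 40)) (tnt (h0 * x) (3 / 10)) (tbl tK x) (tbl tL x) (tbl (smT h0⁻¹ tC) x)) 3 1 3 2 6 1 1 :=
  (sideB hx hx').bothA (thrB hx hx') (en_pos (hx1 hx).le) (Or.inl rfl) (Or.inl rfl) fun y y' F =>
    bothA_cert (s1 := true) (s2 := true) rfl hκ (en_pos (hx1 hx).le) (esg_rng (hx1 hx).le (hx2 hx').le).1 (mo_v x) covB23 covB61 hx hx'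
        Pool.Agent.Strip051.G.I6500_6900.Tab.C.BA26.c_pp_313 noCut_EA noExt_EA F trivial trivial

theorem BA26_pm_001 {κ x : ℝ} (hκ : κ * h0 = ken x) (hx : ((697932185 : ℕ) : ℝ) / S ≤ x) (hx' : x ≤ (((697932185 : ℕ) : ℝ) + (42949674 : ℕ)) / S) :
    TriA PP.cur (VE (h0 * 0) 3 κ (h0 * x) (eng.v x) (h0 * (3 / 40)) (tnt (h0 * x) (3 / 10)) (tbl tK x) (tbl tL x) (tbl (smT h0⁻¹ tC) x)) 0 0 1 2 6 1 (-1) :=
  (sideB hx hx').bothA (thrB hx hx') (en_pos (hx1 hx).le) (Or.inl rfl) (Or.inr rfl) fun y y' F =>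
    bothA_cert (s1 := true) (s2 := false) rfl hκ (en_pos (hx1 hx).le) (esg_rng (hx1 hx).le (hx2 hx').le).1 (mo_v x) covB20 covB60 hx hx'
        Pool.Agent.Strip051.G.I6500_6900.Tab.C.BA26.c_pm_001 noCut_EA noExt_EA F trivial trivial

theorem BA26_pm_011 {κ x : ℝ} (hκ : κ * h0 = ken x) (hx : ((697932185 : ℕ) : ℝ) / S ≤ x) (hx' : x ≤ (((697932185 : ℕ) : ℝ) + (42949674 : ℕ)) / S) :
    TriA PP.cur (VE (h0 * 0) 3 κ (h0 * x) (eng.v x) (h0 * (3 / 40)) (tnt (h0 * x) (3 / 10)) (tbl tK x) (tbl tL x) (tbl (smT h0⁻¹ tC) x)) 0 1 1 2 6 1 (-1) :=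
  (sideB hx hx').bothA (thrB hx hx') (en_pos (hx1 hx).le) (Or.inl rfl) (Or.inr rfl) fun y y' F =>
    bothA_cert (s1 := true) (s2 := false) rfl hκ (en_pos (hx1 hx).le) (esg_rng (hx1 hx).le (hx2 hx').le).1 (mo_v x) covB20 covB61 hx hx'
        Pool.Agent.Strip051.G.I6500_6900.Tab.C.BA26.c_pm_011 (cutEA_cons (Pool.Agent.Strip051.G.I6500_6900.Tab.altB_A011R_26 hκ hx hx') cutEA_nil) noExt_EA F trivial trivial

theorem BA26_pm_012 {κ x : ℝ} (hκ : κ * h0 = ken x) (hx : ((697932185 : ℕ) : ℝ) / S ≤ x) (hx' : x ≤ (((697932185 : ℕ) : ℝ) + (42949674 : ℕ)) / S) :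
    TriA PP.cur (VE (h0 * 0) 3 κ (h0 * x) (eng.v x) (h0 * (3 / 40)) (tnt (h0 * x) (3 / 10)) (tbl tK x) (tbl tL x) (tbl (smT h0⁻¹ tC) x)) 0 1 2 2 6 1 (-1) :=
  (sideB hx hx').bothA (thrB hx hx') (en_pos (hx1 hx).le) (Or.inl rfl) (Or.inr rfl) fun y y' F =>
    bothA_cert (s1 := true) (s2 := false) rfl hκ (en_pos (hx1 hx).le) (esg_rng (hx1 hx).le (hx2 hx').le).1 (mo_v x) covB20 covB61 hx hx'
        Pool.Agent.Strip051.G.I6500_6900.Tab.C.BA26.c_pm_012 (cutEA_cons (Pool.Agent.Strip051.G.I6500_6900.Tab.altB_A012R_26 hκ hx hx') cutEA_nil) noExt_EA F trivial trivial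

theorem BA26_pm_022 {κ x : ℝ} (hκ : κ * h0 = ken x) (hx : ((697932185 : ℕ) : ℝ) / S ≤ x) (hx' : x ≤ (((697932185 : ℕ) : ℝ) + (42949674 : ℕ)) / S) :
    TriA PP.cur (VE (h0 * 0) 3 κ (h0 * x) (eng.v x) (h0 * (3 / 40)) (tnt (h0 * x) (3 / 10)) (tbl tK x) (tbl tL x) (tbl (smT h0⁻¹ tC) x)) 0 2 2 2 6 1 (-1) :=
  (sideB hx hx').bothA (thrB hx hx') (en_pos (hx1 hx).le) (Or.inl rfl) (Or.inr rfl) fun y y' F =>
    bothA_cert (s1 := true) (s2 := false) rfl hκ (en_pos (hx1 hx).le) (esg_rng (hx1 hx).le (hx2 hx').le).1 (mo_v x) covB20 covB62 hx hx'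
        Pool.Agent.Strip051.G.I6500_6900.Tab.C.BA26.c_pm_022 noCut_EA noExt_EA F trivial trivial

theorem BA26_pm_023 {κ x : ℝ} (hκ : κ * h0 = ken x) (hx : ((697932185 : ℕ) : ℝ) / S ≤ x) (hx' : x ≤ (((697932185 : ℕ) : ℝ) + (42949674 : ℕ)) / S) :
    TriA PP.cur (VE (h0 * 0) 3 κ (h0 * x) (eng.v x) (h0 * (3 / 40)) (tnt (h0 * x) (3 / 10)) (tbl tK x) (tbl tL x) (tbl (smT h0⁻¹ tC) x)) 0 2 3 2 6 1 (-1) :=
  (sideB hx hx').bothA (thrB hx hx') (en_pos (hx1 hx).le) (Or.inl rfl) (Or.inr rfl) fun y y' F =>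
    bothA_cert (s1 := true) (s2 := false) rfl hκ (en_pos (hx1 hx).le) (esg_rng (hx1 hx).le (hx2 hx').le).1 (mo_v x) covB20 covB62 hx hx'
        Pool.Agent.Strip051.G.I6500_6900.Tab.C.BA26.c_pm_023 noCut_EA noExt_EA F trivial trivial

theorem BA26_pm_033 {κ x : ℝ} (hκ : κ * h0 = ken x) (hx : ((697932185 : ℕ) : ℝ) / S ≤ x) (hx' : x ≤ (((697932185 : ℕ) : ℝ) + (42949674 : ℕ)) / S) :
    TriA PP.cur (VE (h0 * 0) 3 κ (h0 * x) (eng.v x) (h0 * (3 / 40)) (tnt (h0 * x) (3 / 10)) (tbl tK x) (tbl tL x) (tbl (smT h0⁻¹ tC) x)) 0 3 3 2 6 1 (-1) :=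
  (sideB hx hx').bothA (thrB hx hx') (en_pos (hx1 hx).le) (Or.inl rfl) (Or.inr rfl) fun y y' F =>
    bothA_cert (s1 := true) (s2 := false) rfl hκ (en_pos (hx1 hx).le) (esg_rng (hx1 hx).le (hx2 hx').le).1 (mo_v x) covB20 covB63 hx hx'
        Pool.Agent.Strip051.G.I6500_6900.Tab.C.BA26.c_pm_033 noCut_EA noExt_EA F trivial trivial

theorem BA26_pm_101 {κ x : ℝ} (hκ : κ * h0 = ken x) (hx : ((697932185 : ℕ) : ℝ) / S ≤ x) (hx' : x ≤ (((697932185 : ℕ) : ℝ) + (42949674 : ℕ)) / S) :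
    TriA PP.cur (VE (h0 * 0) 3 κ (h0 * x) (eng.v x) (h0 * (3 / 40)) (tnt (h0 * x) (3 / 10)) (tbl tK x) (tbl tL x) (tbl (smT h0⁻¹ tC) x)) 1 0 1 2 6 1 (-1) :=
  (sideB hx hx').bothA (thrB hx hx') (en_pos (hx1 hx).le) (Or.inl rfl) (Or.inr rfl) fun y y' F =>
    bothA_cert (s1 := true) (s2 := false) rfl hκ (en_pos (hx1 hx).le) (esg_rng (hx1 hx).le (hx2 hx').le).1 (mo_v x) covB21 covB60 hx hx'
        Pool.Agent.Strip051.G.I6500_6900.Tab.C.BA26.c_pm_101 noCut_EA noExt_EA F trivial trivial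

theorem BA26_pm_102 {κ x : ℝ} (hκ : κ * h0 = ken x) (hx : ((697932185 : ℕ) : ℝ) / S ≤ x) (hx' : x ≤ (((697932185 : ℕ) : ℝ) + (42949674 : ℕ)) / S) :
    TriA PP.cur (VE (h0 * 0) 3 κ (h0 * x) (eng.v x) (h0 * (3 / 40)) (tnt (h0 * x) (3 / 10)) (tbl tK x) (tbl tL x) (tbl (smT h0⁻¹ tC) x)) 1 0 2 2 6 1 (-1) :=
  (sideB hx hx').bothA (thrB hx hx') (en_pos (hx1 hx).le) (Or.inl rfl) (Or.inr rfl) fun y y' F =>
    bothA_cert (s1 := true) (s2 := false) rfl hκ (en_pos (hx1 hx).le) (esg_rng (hx1 hx).le (hx2 hx').le).1 (mo_v x) covB21 covB60 hx hx'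
        Pool.Agent.Strip051.G.I6500_6900.Tab.C.BA26.c_pm_102 noCut_EA noExt_EA F trivial trivial

theorem BA26_pm_112 {κ x : ℝ} (hκ : κ * h0 = ken x) (hx : ((697932185 : ℕ) : ℝ) / S ≤ x) (hx' : x ≤ (((697932185 : ℕ) : ℝ) + (42949674 : ℕ)) / S) :
    TriA PP.cur (VE (h0 * 0) 3 κ (h0 * x) (eng.v x) (h0 * (3 / 40)) (tnt (h0 * x) (3 / 10)) (tbl tK x) (tbl tL x) (tbl (smT h0⁻¹ tC) x)) 1 1 2 2 6 1 (-1) :=
  (sideB hx hx').bothA (thrB hx hx') (en_pos (hx1 hx).le) (Or.inl rfl) (Or.inr rfl) fun y y' F =>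
    bothA_cert (s1 := true) (s2 := false) rfl hκ (en_pos (hx1 hx).le) (esg_rng (hx1 hx).le (hx2 hx').le).1 (mo_v x) covB21 covB61 hx hx'
        Pool.Agent.Strip051.G.I6500_6900.Tab.C.BA26.c_pm_112 noCut_EA noExt_EA F trivial trivial

theorem BA26_pm_113 {κ x : ℝ} (hκ : κ * h0 = ken x) (hx : ((697932185 : ℕ) : ℝ) / S ≤ x) (hx' : x ≤ (((697932185 : ℕ) : ℝ) + (42949674 : ℕ)) / S) :
    TriA PP.cur (VE (h0 * 0) 3 κ (h0 * x) (eng.v x) (h0 * (3 / 40)) (tnt (h0 * x) (3 / 10)) (tbl tK x) (tbl tL x) (tbl (smT h0⁻¹ tC) x)) 1 1 3 2 6 1 (-1) :=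
  (sideB hx hx').bothA (thrB hx hx') (en_pos (hx1 hx).le) (Or.inl rfl) (Or.inr rfl) fun y y' F =>
    bothA_cert (s1 := true) (s2 := false) rfl hκ (en_pos (hx1 hx).le) (esg_rng (hx1 hx).le (hx2 hx').le).1 (mo_v x) covB21 covB61 hx hx'
        Pool.Agent.Strip051.G.I6500_6900.Tab.C.BA26.c_pm_113 noCut_EA noExt_EA F trivial trivial

theorem BA26_pm_123 {κ x : ℝ} (hκ : κ * h0 = ken x) (hx : ((697932185 : ℕ) : ℝ) / S ≤ x) (hx' : x ≤ (((697932185 : ℕ) : ℝ) + (42949674 : ℕ)) / S) :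
    TriA PP.cur (VE (h0 * 0) 3 κ (h0 * x) (eng.v x) (h0 * (3 / 40)) (tnt (h0 * x) (3 / 10)) (tbl tK x) (tbl tL x) (tbl (smT h0⁻¹ tC) x)) 1 2 3 2 6 1 (-1) :=
  (sideB hx hx').bothA (thrB hx hx') (en_pos (hx1 hx).le) (Or.inl rfl) (Or.inr rfl) fun y y' F =>
    bothA_cert (s1 := true) (s2 := false) rfl hκ (en_pos (hx1 hx).le) (esg_rng (hx1 hx).le (hx2 hx').le).1 (mo_v x) covB21 covB62 hx hx'
        Pool.Agent.Strip051.G.I6500_6900.Tab.C.BA26.c_pm_123 noCut_EA noExt_EA F trivial trivial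

theorem BA26_pm_133 {κ x : ℝ} (hκ : κ * h0 = ken x) (hx : ((697932185 : ℕ) : ℝ) / S ≤ x) (hx' : x ≤ (((697932185 : ℕ) : ℝ) + (42949674 : ℕ)) / S) :
    TriA PP.cur (VE (h0 * 0) 3 κ (h0 * x) (eng.v x) (h0 * (3 / 40)) (tnt (h0 * x) (3 / 10)) (tbl tK x) (tbl tL x) (tbl (smT h0⁻¹ tC) x)) 1 3 3 2 6 1 (-1) :=
  (sideB hx hx').bothA (thrB hx hx') (en_pos (hx1 hx).le) (Or.inl rfl) (Or.inr rfl) fun y y' F =>
    bothA_cert (s1 := true) (s2 := false) rfl hκ (en_pos (hx1 hx).le) (esg_rng (hx1 hx).le (hx2 hx').le).1 (mo_v x) covB21 covB63 hx hx'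
        Pool.Agent.Strip051.G.I6500_6900.Tab.C.BA26.c_pm_133 noCut_EA noExt_EA F trivial trivial

theorem BA26_pm_202 {κ x : ℝ} (hκ : κ * h0 = ken x) (hx : ((697932185 : ℕ) : ℝ) / S ≤ x) (hx' : x ≤ (((697932185 : ℕ) : ℝ) + (42949674 : ℕ)) / S) :
    TriA PP.cur (VE (h0 * 0) 3 κ (h0 * x) (eng.v x) (h0 * (3 / 40)) (tnt (h0 * x) (3 / 10)) (tbl tK x) (tbl tL x) (tbl (smT h0⁻¹ tC) x)) 2 0 2 2 6 1 (-1) :=
  (sideB hx hx').bothA (thrB hx hx') (en_pos (hx1 hx).le) (Or.inl rfl) (Or.inr rfl) fun y y' F =>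
    (lt_or_ge (h0 * y) 1).elim
      (fun h => bothA_cert (s1 := true) (s2 := false) rfl hκ (en_pos (hx1 hx).le) (esg_rng (hx1 hx).le (hx2 hx').le).1 (mo_v x) covB22a covB60 hx hx'
        Pool.Agent.Strip051.G.I6500_6900.Tab.C.BA26.c_pm_202_a noCut_EA noExt_EA F h trivial)
      (fun h => bothA_cert (s1 := true) (s2 := false) rfl hκ (en_pos (hx1 hx).le) (esg_rng (hx1 hx).le (hx2 hx').le).1 (mo_v x) covB22b covB60 hx hx'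
        Pool.Agent.Strip051.G.I6500_6900.Tab.C.BA26.c_pm_202_b noCut_EA noExt_EA F h trivial)

theorem BA26_pm_203 {κ x : ℝ} (hκ : κ * h0 = ken x) (hx : ((697932185 : ℕ) : ℝ) / S ≤ x) (hx' : x ≤ (((697932185 : ℕ) : ℝ) + (42949674 : ℕ)) / S) :
    TriA PP.cur (VE (h0 * 0) 3 κ (h0 * x) (eng.v x) (h0 * (3 / 40)) (tnt (h0 * x) (3 / 10)) (tbl tK x) (tbl tL x) (tbl (smT h0⁻¹ tC) x)) 2 0 3 2 6 1 (-1) :=
  (sideB hx hx').bothA (thrB hx hx') (en_pos (hx1 hx).le) (Or.inl rfl) (Or.inr rfl) fun y y' F =>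
    (lt_or_ge (h0 * y) 1).elim
      (fun h => bothA_cert (s1 := true) (s2 := false) rfl hκ (en_pos (hx1 hx).le) (esg_rng (hx1 hx).le (hx2 hx').le).1 (mo_v x) covB22a covB60 hx hx'
        Pool.Agent.Strip051.G.I6500_6900.Tab.C.BA26.c_pm_203_a noCut_EA noExt_EA F h trivial)
      (fun h => bothA_cert (s1 := true) (s2 := false) rfl hκ (en_pos (hx1 hx).le) (esg_rng (hx1 hx).le (hx2 hx').le).1 (mo_v x) covB22b covB60 hx hx'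
        Pool.Agent.Strip051.G.I6500_6900.Tab.C.BA26.c_pm_203_b noCut_EA noExt_EA F h trivial)

theorem BA26_pm_213 {κ x : ℝ} (hκ : κ * h0 = ken x) (hx : ((697932185 : ℕ) : ℝ) / S ≤ x) (hx' : x ≤ (((697932185 : ℕ) : ℝ) + (42949674 : ℕ)) / S) :
    TriA PP.cur (VE (h0 * 0) 3 κ (h0 * x) (eng.v x) (h0 * (3 / 40)) (tnt (h0 * x) (3 / 10)) (tbl tK x) (tbl tL x) (tbl (smT h0⁻¹ tC) x)) 2 1 3 2 6 1 (-1) :=
  (sideB hx hx').bothA (thrB hx hx') (en_pos (hx1 hx).le) (Or.inl rfl) (Or.inr rfl) fun y y' F =>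
    (lt_or_ge (h0 * y) 1).elim
      (fun h => bothA_cert (s1 := true) (s2 := false) rfl hκ (en_pos (hx1 hx).le) (esg_rng (hx1 hx).le (hx2 hx').le).1 (mo_v x) covB22a covB61 hx hx'
        Pool.Agent.Strip051.G.I6500_6900.Tab.C.BA26.c_pm_213_a noCut_EA noExt_EA F h trivial)
      (fun h => bothA_cert (s1 := true) (s2 := false) rfl hκ (en_pos (hx1 hx).le) (esg_rng (hx1 hx).le (hx2 hx').le).1 (mo_v x) covB22b covB61 hx hx'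
        Pool.Agent.Strip051.G.I6500_6900.Tab.C.BA26.c_pm_213_b noCut_EA noExt_EA F h trivial)

theorem BA26_pm_303 {κ x : ℝ} (hκ : κ * h0 = ken x) (hx : ((697932185 : ℕ) : ℝ) / S ≤ x) (hx' : x ≤ (((697932185 : ℕ) : ℝ) + (42949674 : ℕ)) / S) :
    TriA PP.cur (VE (h0 * 0) 3 κ (h0 * x) (eng.v x) (h0 * (3 / 40)) (tnt (h0 * x) (3 / 10)) (tbl tK x) (tbl tL x) (tbl (smT h0⁻¹ tC) x)) 3 0 3 2 6 1 (-1) :=
  (sideB hx hx').bothA (thrB hx hx') (en_pos (hx1 hx).le) (Or.inl rfl) (Or.inr rfl) fun y y' F =>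
    bothA_cert (s1 := true) (s2 := false) rfl hκ (en_pos (hx1 hx).le) (esg_rng (hx1 hx).le (hx2 hx').le).1 (mo_v x) covB23 covB60 hx hx'
        Pool.Agent.Strip051.G.I6500_6900.Tab.C.BA26.c_pm_303 noCut_EA noExt_EA F trivial trivial

theorem BA26_pm_313 {κ x : ℝ} (hκ : κ * h0 = ken x) (hx : ((697932185 : ℕ) : ℝ) / S ≤ x) (hx' : x ≤ (((697932185 : ℕ) : ℝ) + (42949674 : ℕ)) / S) :
    TriA PP.cur (VE (h0 * 0) 3 κ (h0 * x) (eng.v x) (h0 * (3 / 40)) (tnt (h0 * x) (3 / 10)) (tbl tK x) (tbl tL x) (tbl (smT h0⁻¹ tC) x)) 3 1 3 2 6 1 (-1) :=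
  (sideB hx hx').bothA (thrB hx hx') (en_pos (hx1 hx).le) (Or.inl rfl) (Or.inr rfl) fun y y' F =>
    bothA_cert (s1 := true) (s2 := false) rfl hκ (en_pos (hx1 hx).le) (esg_rng (hx1 hx).le (hx2 hx').le).1 (mo_v x) covB23 covB61 hx hx'
        Pool.Agent.Strip051.G.I6500_6900.Tab.C.BA26.c_pm_313 noCut_EA noExt_EA F trivial trivial

theorem BA26_mm_001 {κ x : ℝ} (hκ : κ * h0 = ken x) (hx : ((697932185 : ℕ) : ℝ) / S ≤ x) (hx' : x ≤ (((697932185 : ℕ) : ℝ) + (42949674 : ℕ)) / S) :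
    TriA PP.cur (VE (h0 * 0) 3 κ (h0 * x) (eng.v x) (h0 * (3 / 40)) (tnt (h0 * x) (3 / 10)) (tbl tK x) (tbl tL x) (tbl (smT h0⁻¹ tC) x)) 0 0 1 2 6 (-1) (-1) :=
  (sideB hx hx').bothA (thrB hx hx') (en_pos (hx1 hx).le) (Or.inr rfl) (Or.inr rfl) fun y y' F =>
    bothA_cert (s1 := false) (s2 := false) rfl hκ (en_pos (hx1 hx).le) (esg_rng (hx1 hx).le (hx2 hx').le).1 (mo_v x) covB20 covB60 hx hx'
        Pool.Agent.Strip051.G.I6500_6900.Tab.C.BA26.c_mm_001 noCut_EA noExt_EA F trivial trivial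

theorem BA26_mm_011 {κ x : ℝ} (hκ : κ * h0 = ken x) (hx : ((697932185 : ℕ) : ℝ) / S ≤ x) (hx' : x ≤ (((697932185 : ℕ) : ℝ) + (42949674 : ℕ)) / S) :
    TriA PP.cur (VE (h0 * 0) 3 κ (h0 * x) (eng.v x) (h0 * (3 / 40)) (tnt (h0 * x) (3 / 10)) (tbl tK x) (tbl tL x) (tbl (smT h0⁻¹ tC) x)) 0 1 1 2 6 (-1) (-1) :=
  (sideB hx hx').bothA (thrB hx hx') (en_pos (hx1 hx).le) (Or.inr rfl) (Or.inr rfl) fun y y' F =>
    bothA_cert (s1 := false) (s2 := false) rfl hκ (en_pos (hx1 hx).le) (esg_rng (hx1 hx).le (hx2 hx').le).1 (mo_v x) covB20 covB61 hx hx'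
        Pool.Agent.Strip051.G.I6500_6900.Tab.C.BA26.c_mm_011 noCut_EA noExt_EA F trivial trivial

theorem BA26_mm_012 {κ x : ℝ} (hκ : κ * h0 = ken x) (hx : ((697932185 : ℕ) : ℝ) / S ≤ x) (hx' : x ≤ (((697932185 : ℕ) : ℝ) + (42949674 : ℕ)) / S) :
    TriA PP.cur (VE (h0 * 0) 3 κ (h0 * x) (eng.v x) (h0 * (3 / 40)) (tnt (h0 * x) (3 / 10)) (tbl tK x) (tbl tL x) (tbl (smT h0⁻¹ tC) x)) 0 1 2 2 6 (-1) (-1) :=
  (sideB hx hx').bothA (thrB hx hx') (en_pos (hx1 hx).le) (Or.inr rfl) (Or.inr rfl) fun y y' F =>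
    bothA_cert (s1 := false) (s2 := false) rfl hκ (en_pos (hx1 hx).le) (esg_rng (hx1 hx).le (hx2 hx').le).1 (mo_v x) covB20 covB61 hx hx'
        Pool.Agent.Strip051.G.I6500_6900.Tab.C.BA26.c_mm_012 noCut_EA noExt_EA F trivial trivial

theorem BA26_mm_022 {κ x : ℝ} (hκ : κ * h0 = ken x) (hx : ((697932185 : ℕ) : ℝ) / S ≤ x) (hx' : x ≤ (((697932185 : ℕ) : ℝ) + (42949674 : ℕ)) / S) :
    TriA PP.cur (VE (h0 * 0) 3 κ (h0 * x) (eng.v x) (h0 * (3 / 40)) (tnt (h0 * x) (3 / 10)) (tbl tK x) (tbl tL x) (tbl (smT h0⁻¹ tC) x)) 0 2 2 2 6 (-1) (-1) :=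
  (sideB hx hx').bothA (thrB hx hx') (en_pos (hx1 hx).le) (Or.inr rfl) (Or.inr rfl) fun y y' F =>
    bothA_cert (s1 := false) (s2 := false) rfl hκ (en_pos (hx1 hx).le) (esg_rng (hx1 hx).le (hx2 hx').le).1 (mo_v x) covB20 covB62 hx hx'
        Pool.Agent.Strip051.G.I6500_6900.Tab.C.BA26.c_mm_022 noCut_EA noExt_EA F trivial trivial

theorem BA26_mm_023 {κ x : ℝ} (hκ : κ * h0 = ken x) (hx : ((697932185 : ℕ) : ℝ) / S ≤ x) (hx' : x ≤ (((697932185 : ℕ) : ℝ) + (42949674 : ℕ)) / S) :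
    TriA PP.cur (VE (h0 * 0) 3 κ (h0 * x) (eng.v x) (h0 * (3 / 40)) (tnt (h0 * x) (3 / 10)) (tbl tK x) (tbl tL x) (tbl (smT h0⁻¹ tC) x)) 0 2 3 2 6 (-1) (-1) :=
  (sideB hx hx').bothA (thrB hx hx') (en_pos (hx1 hx).le) (Or.inr rfl) (Or.inr rfl) fun y y' F =>
    bothA_cert (s1 := false) (s2 := false) rfl hκ (en_pos (hx1 hx).le) (esg_rng (hx1 hx).le (hx2 hx').le).1 (mo_v x) covB20 covB62 hx hx'
        Pool.Agent.Strip051.G.I6500_6900.Tab.C.BA26.c_mm_023 noCut_EA noExt_EA F trivial trivial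

theorem BA26_mm_033 {κ x : ℝ} (hκ : κ * h0 = ken x) (hx : ((697932185 : ℕ) : ℝ) / S ≤ x) (hx' : x ≤ (((697932185 : ℕ) : ℝ) + (42949674 : ℕ)) / S) :
    TriA PP.cur (VE (h0 * 0) 3 κ (h0 * x) (eng.v x) (h0 * (3 / 40)) (tnt (h0 * x) (3 / 10)) (tbl tK x) (tbl tL x) (tbl (smT h0⁻¹ tC) x)) 0 3 3 2 6 (-1) (-1) :=
  (sideB hx hx').bothA (thrB hx hx') (en_pos (hx1 hx).le) (Or.inr rfl) (Or.inr rfl) fun y y' F =>
    bothA_cert (s1 := false) (s2 := false) rfl hκ (en_pos (hx1 hx).le) (esg_rng (hx1 hx).le (hx2 hx').le).1 (mo_v x) covB20 covB63 hx hx'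
        Pool.Agent.Strip051.G.I6500_6900.Tab.C.BA26.c_mm_033 noCut_EA noExt_EA F trivial trivial

theorem BA26_mm_101 {κ x : ℝ} (hκ : κ * h0 = ken x) (hx : ((697932185 : ℕ) : ℝ) / S ≤ x) (hx' : x ≤ (((697932185 : ℕ) : ℝ) + (42949674 : ℕ)) / S) :
    TriA PP.cur (VE (h0 * 0) 3 κ (h0 * x) (eng.v x) (h0 * (3 / 40)) (tnt (h0 * x) (3 / 10)) (tbl tK x) (tbl tL x) (tbl (smT h0⁻¹ tC) x)) 1 0 1 2 6 (-1) (-1) :=
  (sideB hx hx').bothA (thrB hx hx') (en_pos (hx1 hx).le) (Or.inr rfl) (Or.inr rfl) fun y y' F =>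
    bothA_cert (s1 := false) (s2 := false) rfl hκ (en_pos (hx1 hx).le) (esg_rng (hx1 hx).le (hx2 hx').le).1 (mo_v x) covB21 covB60 hx hx'
        Pool.Agent.Strip051.G.I6500_6900.Tab.C.BA26.c_mm_101 noCut_EA noExt_EA F trivial trivial

theorem BA26_mm_102 {κ x : ℝ} (hκ : κ * h0 = ken x) (hx : ((697932185 : ℕ) : ℝ) / S ≤ x) (hx' : x ≤ (((697932185 : ℕ) : ℝ) + (42949674 : ℕ)) / S) :
    TriA PP.cur (VE (h0 * 0) 3 κ (h0 * x) (eng.v x) (h0 * (3 / 40)) (tnt (h0 * x) (3 / 10)) (tbl tK x) (tbl tL x) (tbl (smT h0⁻¹ tC) x)) 1 0 2 2 6 (-1) (-1) :=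
  (sideB hx hx').bothA (thrB hx hx') (en_pos (hx1 hx).le) (Or.inr rfl) (Or.inr rfl) fun y y' F =>
    bothA_cert (s1 := false) (s2 := false) rfl hκ (en_pos (hx1 hx).le) (esg_rng (hx1 hx).le (hx2 hx').le).1 (mo_v x) covB21 covB60 hx hx'
        Pool.Agent.Strip051.G.I6500_6900.Tab.C.BA26.c_mm_102 noCut_EA noExt_EA F trivial trivial

theorem BA26_mm_112 {κ x : ℝ} (hκ : κ * h0 = ken x) (hx : ((697932185 : ℕ) : ℝ) / S ≤ x) (hx' : x ≤ (((697932185 : ℕ) : ℝ) + (42949674 : ℕ)) / S) :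
    TriA PP.cur (VE (h0 * 0) 3 κ (h0 * x) (eng.v x) (h0 * (3 / 40)) (tnt (h0 * x) (3 / 10)) (tbl tK x) (tbl tL x) (tbl (smT h0⁻¹ tC) x)) 1 1 2 2 6 (-1) (-1) :=
  (sideB hx hx').bothA (thrB hx hx') (en_pos (hx1 hx).le) (Or.inr rfl) (Or.inr rfl) fun y y' F =>
    bothA_cert (s1 := false) (s2 := false) rfl hκ (en_pos (hx1 hx).le) (esg_rng (hx1 hx).le (hx2 hx').le).1 (mo_v x) covB21 covB61 hx hx'
        Pool.Agent.Strip051.G.I6500_6900.Tab.C.BA26.c_mm_112 noCut_EA noExt_EA F trivial trivial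

theorem BA26_mm_113 {κ x : ℝ} (hκ : κ * h0 = ken x) (hx : ((697932185 : ℕ) : ℝ) / S ≤ x) (hx' : x ≤ (((697932185 : ℕ) : ℝ) + (42949674 : ℕ)) / S) :
    TriA PP.cur (VE (h0 * 0) 3 κ (h0 * x) (eng.v x) (h0 * (3 / 40)) (tnt (h0 * x) (3 / 10)) (tbl tK x) (tbl tL x) (tbl (smT h0⁻¹ tC) x)) 1 1 3 2 6 (-1) (-1) :=
  (sideB hx hx').bothA (thrB hx hx') (en_pos (hx1 hx).le) (Or.inr rfl) (Or.inr rfl) fun y y' F =>
    bothA_cert (s1 := false) (s2 := false) rfl hκ (en_pos (hx1 hx).le) (esg_rng (hx1 hx).le (hx2 hx').le).1 (mo_v x) covB21 covB61 hx hx'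
        Pool.Agent.Strip051.G.I6500_6900.Tab.C.BA26.c_mm_113 noCut_EA noExt_EA F trivial trivial

theorem BA26_mm_123 {κ x : ℝ} (hκ : κ * h0 = ken x) (hx : ((697932185 : ℕ) : ℝ) / S ≤ x) (hx' : x ≤ (((697932185 : ℕ) : ℝ) + (42949674 : ℕ)) / S) :
    TriA PP.cur (VE (h0 * 0) 3 κ (h0 * x) (eng.v x) (h0 * (3 / 40)) (tnt (h0 * x) (3 / 10)) (tbl tK x) (tbl tL x) (tbl (smT h0⁻¹ tC) x)) 1 2 3 2 6 (-1) (-1) :=
  (sideB hx hx').bothA (thrB hx hx') (en_pos (hx1 hx).le) (Or.inr rfl) (Or.inr rfl) fun y y' F =>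
    bothA_cert (s1 := false) (s2 := false) rfl hκ (en_pos (hx1 hx).le) (esg_rng (hx1 hx).le (hx2 hx').le).1 (mo_v x) covB21 covB62 hx hx'
        Pool.Agent.Strip051.G.I6500_6900.Tab.C.BA26.c_mm_123 noCut_EA noExt_EA F trivial trivial

theorem BA26_mm_133 {κ x : ℝ} (hκ : κ * h0 = ken x) (hx : ((697932185 : ℕ) : ℝ) / S ≤ x) (hx' : x ≤ (((697932185 : ℕ) : ℝ) + (42949674 : ℕ)) / S) :
    TriA PP.cur (VE (h0 * 0) 3 κ (h0 * x) (eng.v x) (h0 * (3 / 40)) (tnt (h0 * x) (3 / 10)) (tbl tK x) (tbl tL x) (tbl (smT h0⁻¹ tC) x)) 1 3 3 2 6 (-1) (-1) :=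
  (sideB hx hx').bothA (thrB hx hx') (en_pos (hx1 hx).le) (Or.inr rfl) (Or.inr rfl) fun y y' F =>
    bothA_cert (s1 := false) (s2 := false) rfl hκ (en_pos (hx1 hx).le) (esg_rng (hx1 hx).le (hx2 hx').le).1 (mo_v x) covB21 covB63 hx hx'
        Pool.Agent.Strip051.G.I6500_6900.Tab.C.BA26.c_mm_133 noCut_EA noExt_EA F trivial trivial

theorem BA26_mm_202 {κ x : ℝ} (hκ : κ * h0 = ken x) (hx : ((697932185 : ℕ) : ℝ) / S ≤ x) (hx' : x ≤ (((697932185 : ℕ) : ℝ) + (42949674 : ℕ)) / S) :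
    TriA PP.cur (VE (h0 * 0) 3 κ (h0 * x) (eng.v x) (h0 * (3 / 40)) (tnt (h0 * x) (3 / 10)) (tbl tK x) (tbl tL x) (tbl (smT h0⁻¹ tC) x)) 2 0 2 2 6 (-1) (-1) :=
  (sideB hx hx').bothA (thrB hx hx') (en_pos (hx1 hx).le) (Or.inr rfl) (Or.inr rfl) fun y y' F =>
    (lt_or_ge (h0 * y) 1).elim
      (fun h => bothA_cert (s1 := false) (s2 := false) rfl hκ (en_pos (hx1 hx).le) (esg_rng (hx1 hx).le (hx2 hx').le).1 (mo_v x) covB22a covB60 hx hx'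
        Pool.Agent.Strip051.G.I6500_6900.Tab.C.BA26.c_mm_202_a noCut_EA noExt_EA F h trivial)
      (fun h => bothA_cert (s1 := false) (s2 := false) rfl hκ (en_pos (hx1 hx).le) (esg_rng (hx1 hx).le (hx2 hx').le).1 (mo_v x) covB22b covB60 hx hx'
        Pool.Agent.Strip051.G.I6500_6900.Tab.C.BA26.c_mm_202_b noCut_EA noExt_EA F h trivial)

theorem BA26_mm_203 {κ x : ℝ} (hκ : κ * h0 = ken x) (hx : ((697932185 : ℕ) : ℝ) / S ≤ x) (hx' : x ≤ (((697932185 : ℕ) : ℝ) + (42949674 : ℕ)) / S) :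
    TriA PP.cur (VE (h0 * 0) 3 κ (h0 * x) (eng.v x) (h0 * (3 / 40)) (tnt (h0 * x) (3 / 10)) (tbl tK x) (tbl tL x) (tbl (smT h0⁻¹ tC) x)) 2 0 3 2 6 (-1) (-1) :=
  (sideB hx hx').bothA (thrB hx hx') (en_pos (hx1 hx).le) (Or.inr rfl) (Or.inr rfl) fun y y' F =>
    (lt_or_ge (h0 * y) 1).elim
      (fun h => bothA_cert (s1 := false) (s2 := false) rfl hκ (en_pos (hx1 hx).le) (esg_rng (hx1 hx).le (hx2 hx').le).1 (mo_v x) covB22a covB60 hx hx'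
        Pool.Agent.Strip051.G.I6500_6900.Tab.C.BA26.c_mm_203_a noCut_EA noExt_EA F h trivial)
      (fun h => bothA_cert (s1 := false) (s2 := false) rfl hκ (en_pos (hx1 hx).le) (esg_rng (hx1 hx).le (hx2 hx').le).1 (mo_v x) covB22b covB60 hx hx'
        Pool.Agent.Strip051.G.I6500_6900.Tab.C.BA26.c_mm_203_b noCut_EA noExt_EA F h trivial)

theorem BA26_mm_213 {κ x : ℝ} (hκ : κ * h0 = ken x) (hx : ((697932185 : ℕ) : ℝ) / S ≤ x) (hx' : x ≤ (((697932185 : ℕ) : ℝ) + (42949674 : ℕ)) / S) :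
    TriA PP.cur (VE (h0 * 0) 3 κ (h0 * x) (eng.v x) (h0 * (3 / 40)) (tnt (h0 * x) (3 / 10)) (tbl tK x) (tbl tL x) (tbl (smT h0⁻¹ tC) x)) 2 1 3 2 6 (-1) (-1) :=
  (sideB hx hx').bothA (thrB hx hx') (en_pos (hx1 hx).le) (Or.inr rfl) (Or.inr rfl) fun y y' F =>
    (lt_or_ge (h0 * y) 1).elim
      (fun h => bothA_cert (s1 := false) (s2 := false) rfl hκ (en_pos (hx1 hx).le) (esg_rng (hx1 hx).le (hx2 hx').le).1 (mo_v x) covB22a covB61 hx hx'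
        Pool.Agent.Strip051.G.I6500_6900.Tab.C.BA26.c_mm_213_a noCut_EA noExt_EA F h trivial)
      (fun h => bothA_cert (s1 := false) (s2 := false) rfl hκ (en_pos (hx1 hx).le) (esg_rng (hx1 hx).le (hx2 hx').le).1 (mo_v x) covB22b covB61 hx hx'
        Pool.Agent.Strip051.G.I6500_6900.Tab.C.BA26.c_mm_213_b noCut_EA noExt_EA F h trivial)

theorem BA26_mm_303 {κ x : ℝ} (hκ : κ * h0 = ken x) (hx : ((697932185 : ℕ) : ℝ) / S ≤ x) (hx' : x ≤ (((697932185 : ℕ) : ℝ) + (42949674 : ℕ)) / S) :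
    TriA PP.cur (VE (h0 * 0) 3 κ (h0 * x) (eng.v x) (h0 * (3 / 40)) (tnt (h0 * x) (3 / 10)) (tbl tK x) (tbl tL x) (tbl (smT h0⁻¹ tC) x)) 3 0 3 2 6 (-1) (-1) :=
  (sideB hx hx').bothA (thrB hx hx') (en_pos (hx1 hx).le) (Or.inr rfl) (Or.inr rfl) fun y y' F =>
    bothA_cert (s1 := false) (s2 := false) rfl hκ (en_pos (hx1 hx).le) (esg_rng (hx1 hx).le (hx2 hx').le).1 (mo_v x) covB23 covB60 hx hx'
        Pool.Agent.Strip051.G.I6500_6900.Tab.C.BA26.c_mm_303 noCut_EA noExt_EA F trivial trivial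

theorem BA26_mm_313 {κ x : ℝ} (hκ : κ * h0 = ken x) (hx : ((697932185 : ℕ) : ℝ) / S ≤ x) (hx' : x ≤ (((697932185 : ℕ) : ℝ) + (42949674 : ℕ)) / S) :
    TriA PP.cur (VE (h0 * 0) 3 κ (h0 * x) (eng.v x) (h0 * (3 / 40)) (tnt (h0 * x) (3 / 10)) (tbl tK x) (tbl tL x) (tbl (smT h0⁻¹ tC) x)) 3 1 3 2 6 (-1) (-1) :=
  (sideB hx hx').bothA (thrB hx hx') (en_pos (hx1 hx).le) (Or.inr rfl) (Or.inr rfl) fun y y' F =>
    bothA_cert (s1 := false) (s2 := false) rfl hκ (en_pos (hx1 hx).le) (esg_rng (hx1 hx).le (hx2 hx').le).1 (mo_v x) covB23 covB61 hx hx'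
        Pool.Agent.Strip051.G.I6500_6900.Tab.C.BA26.c_mm_313 noCut_EA noExt_EA F trivial trivial

theorem BA26 {κ x : ℝ} (hκ : κ * h0 = ken x) (hx : ((697932185 : ℕ) : ℝ) / S ≤ x) (hx' : x ≤ (((697932185 : ℕ) : ℝ) + (42949674 : ℕ)) / S) : AllTA PP.cur (VE (h0 * 0) 3 κ (h0 * x) (eng.v x) (h0 * (3 / 40)) (tnt (h0 * x) (3 / 10)) (tbl tK x) (tbl tL x) (tbl (smT h0⁻¹ tC) x)) 2 6 where
  pp := all17 (Q := fun a b c => TriA PP.cur (VE (h0 * 0) 3 κ (h0 * x) (eng.v x) (h0 * (3 / 40)) (tnt (h0 * x) (3 / 10)) (tbl tK x) (tbl tL x) (tbl (smT h0⁻¹ tC) x)) a b c 2 6 1 1)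
    (BA26_pp_001 hκ hx hx') (BA26_pp_011 hκ hx hx') (BA26_pp_012 hκ hx hx') (BA26_pp_022 hκ hx hx') (BA26_pp_023 hκ hx hx') (BA26_pp_033 hκ hx hx') (BA26_pp_101 hκ hx hx') (BA26_pp_102 hκ hx hx') (BA26_pp_112 hκ hx hx') (BA26_pp_113 hκ hx hx') (BA26_pp_123 hκ hx hx') (BA26_pp_133 hκ hx hx') (BA26_pp_202 hκ hx hx') (BA26_pp_203 hκ hx hx') (BA26_pp_213 hκ hx hx') (BA26_pp_303 hκ hx hx') (BA26_pp_313 hκ hx hx')
  pm := all17 (Q := fun a b c => TriA PP.cur (VE (h0 * 0) 3 κ (h0 * x) (eng.v x) (h0 * (3 / 40)) (tnt (h0 * x) (3 / 10)) (tbl tK x) (tbl tL x) (tbl (smT h0⁻¹ tC) x)) a b c 2 6 1 (-1))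
    (BA26_pm_001 hκ hx hx') (BA26_pm_011 hκ hx hx') (BA26_pm_012 hκ hx hx') (BA26_pm_022 hκ hx hx') (BA26_pm_023 hκ hx hx') (BA26_pm_033 hκ hx hx') (BA26_pm_101 hκ hx hx') (BA26_pm_102 hκ hx hx') (BA26_pm_112 hκ hx hx') (BA26_pm_113 hκ hx hx') (BA26_pm_123 hκ hx hx') (BA26_pm_133 hκ hx hx') (BA26_pm_202 hκ hx hx') (BA26_pm_203 hκ hx hx') (BA26_pm_213 hκ hx hx') (BA26_pm_303 hκ hx hx') (BA26_pm_313 hκ hx hx')
  mm := all17 (Q := fun a b c => TriA PP.cur (VE (h0 * 0) 3 κ (h0 * x) (eng.v x) (h0 * (3 / 40)) (tnt (h0 * x) (3 / 10)) (tbl tK x) (tbl tL x) (tbl (smT h0⁻¹ tC) x)) a b c 2 6 (-1) (-1))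
    (BA26_mm_001 hκ hx hx') (BA26_mm_011 hκ hx hx') (BA26_mm_012 hκ hx hx') (BA26_mm_022 hκ hx hx') (BA26_mm_023 hκ hx hx') (BA26_mm_033 hκ hx hx') (BA26_mm_101 hκ hx hx') (BA26_mm_102 hκ hx hx') (BA26_mm_112 hκ hx hx') (BA26_mm_113 hκ hx hx') (BA26_mm_123 hκ hx hx') (BA26_mm_133 hκ hx hx') (BA26_mm_202 hκ hx hx') (BA26_mm_203 hκ hx hx') (BA26_mm_213 hκ hx hx') (BA26_mm_303 hκ hx hx') (BA26_mm_313 hκ hx hx')

theorem BA27_pp_001 {κ x : ℝ} (hκ : κ * h0 = ken x) (hx : ((697932185 : ℕ) : ℝ) / S ≤ x) (hx' : x ≤ (((697932185 : ℕ) : ℝ) + (42949674 : ℕ)) / S) :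
    TriA PP.cur (VE (h0 * 0) 3 κ (h0 * x) (eng.v x) (h0 * (3 / 40)) (tnt (h0 * x) (3 / 10)) (tbl tK x) (tbl tL x) (tbl (smT h0⁻¹ tC) x)) 0 0 1 2 7 1 1 :=
  (sideB hx hx').bothA (thrB hx hx') (en_pos (hx1 hx).le) (Or.inl rfl) (Or.inl rfl) fun y y' F =>
    bothA_cert (s1 := true) (s2 := true) rfl hκ (en_pos (hx1 hx).le) (esg_rng (hx1 hx).le (hx2 hx').le).1 (mo_v x) covB20 covB70 hx hx'
        Pool.Agent.Strip051.G.I6500_6900.Tab.C.BA27.c_pp_001 noCut_EA noExt_EA F trivial trivial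

theorem BA27_pp_011 {κ x : ℝ} (hκ : κ * h0 = ken x) (hx : ((697932185 : ℕ) : ℝ) / S ≤ x) (hx' : x ≤ (((697932185 : ℕ) : ℝ) + (42949674 : ℕ)) / S) :
    TriA PP.cur (VE (h0 * 0) 3 κ (h0 * x) (eng.v x) (h0 * (3 / 40)) (tnt (h0 * x) (3 / 10)) (tbl tK x) (tbl tL x) (tbl (smT h0⁻¹ tC) x)) 0 1 1 2 7 1 1 :=
  (sideB hx hx').bothA (thrB hx hx') (en_pos (hx1 hx).le) (Or.inl rfl) (Or.inl rfl) fun y y' F =>
    bothA_cert (s1 := true) (s2 := true) rfl hκ (en_pos (hx1 hx).le) (esg_rng (hx1 hx).le (hx2 hx').le).1 (mo_v x) covB20 covB71 hx hx'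
        Pool.Agent.Strip051.G.I6500_6900.Tab.C.BA27.c_pp_011 noCut_EA noExt_EA F trivial trivial

theorem BA27_pp_012 {κ x : ℝ} (hκ : κ * h0 = ken x) (hx : ((697932185 : ℕ) : ℝ) / S ≤ x) (hx' : x ≤ (((697932185 : ℕ) : ℝ) + (42949674 : ℕ)) / S) :
    TriA PP.cur (VE (h0 * 0) 3 κ (h0 * x) (eng.v x) (h0 * (3 / 40)) (tnt (h0 * x) (3 / 10)) (tbl tK x) (tbl tL x) (tbl (smT h0⁻¹ tC) x)) 0 1 2 2 7 1 1 :=
  (sideB hx hx').bothA (thrB hx hx') (en_pos (hx1 hx).le) (Or.inl rfl) (Or.inl rfl) fun y y' F =>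
    bothA_cert (s1 := true) (s2 := true) rfl hκ (en_pos (hx1 hx).le) (esg_rng (hx1 hx).le (hx2 hx').le).1 (mo_v x) covB20 covB71 hx hx'
        Pool.Agent.Strip051.G.I6500_6900.Tab.C.BA27.c_pp_012 noCut_EA noExt_EA F trivial trivial

theorem BA27_pp_022 {κ x : ℝ} (hκ : κ * h0 = ken x) (hx : ((697932185 : ℕ) : ℝ) / S ≤ x) (hx' : x ≤ (((697932185 : ℕ) : ℝ) + (42949674 : ℕ)) / S) :
    TriA PP.cur (VE (h0 * 0) 3 κ (h0 * x) (eng.v x) (h0 * (3 / 40)) (tnt (h0 * x) (3 / 10)) (tbl tK x) (tbl tL x) (tbl (smT h0⁻¹ tC) x)) 0 2 2 2 7 1 1 :=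
  (sideB hx hx').bothA (thrB hx hx') (en_pos (hx1 hx).le) (Or.inl rfl) (Or.inl rfl) fun y y' F =>
    bothA_cert (s1 := true) (s2 := true) rfl hκ (en_pos (hx1 hx).le) (esg_rng (hx1 hx).le (hx2 hx').le).1 (mo_v x) covB20 covB72 hx hx'
        Pool.Agent.Strip051.G.I6500_6900.Tab.C.BA27.c_pp_022 noCut_EA noExt_EA F trivial trivial

theorem BA27_pp_023 {κ x : ℝ} (hκ : κ * h0 = ken x) (hx : ((697932185 : ℕ) : ℝ) / S ≤ x) (hx' : x ≤ (((697932185 : ℕ) : ℝ) + (42949674 : ℕ)) / S) :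
    TriA PP.cur (VE (h0 * 0) 3 κ (h0 * x) (eng.v x) (h0 * (3 / 40)) (tnt (h0 * x) (3 / 10)) (tbl tK x) (tbl tL x) (tbl (smT h0⁻¹ tC) x)) 0 2 3 2 7 1 1 :=
  (sideB hx hx').bothA (thrB hx hx') (en_pos (hx1 hx).le) (Or.inl rfl) (Or.inl rfl) fun y y' F =>
    bothA_cert (s1 := true) (s2 := true) rfl hκ (en_pos (hx1 hx).le) (esg_rng (hx1 hx).le (hx2 hx').le).1 (mo_v x) covB20 covB72 hx hx'
        Pool.Agent.Strip051.G.I6500_6900.Tab.C.BA27.c_pp_023 noCut_EA noExt_EA F trivial trivial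

theorem BA27_pp_033 {κ x : ℝ} (hκ : κ * h0 = ken x) (hx : ((697932185 : ℕ) : ℝ) / S ≤ x) (hx' : x ≤ (((697932185 : ℕ) : ℝ) + (42949674 : ℕ)) / S) :
    TriA PP.cur (VE (h0 * 0) 3 κ (h0 * x) (eng.v x) (h0 * (3 / 40)) (tnt (h0 * x) (3 / 10)) (tbl tK x) (tbl tL x) (tbl (smT h0⁻¹ tC) x)) 0 3 3 2 7 1 1 :=
  (sideB hx hx').bothA (thrB hx hx') (en_pos (hx1 hx).le) (Or.inl rfl) (Or.inl rfl) fun y y' F =>
    bothA_cert (s1 := true) (s2 := true) rfl hκ (en_pos (hx1 hx).le) (esg_rng (hx1 hx).le (hx2 hx').le).1 (mo_v x) covB20 covB73 hx hx'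
        Pool.Agent.Strip051.G.I6500_6900.Tab.C.BA27.c_pp_033 noCut_EA noExt_EA F trivial trivial

theorem BA27_pp_101 {κ x : ℝ} (hκ : κ * h0 = ken x) (hx : ((697932185 : ℕ) : ℝ) / S ≤ x) (hx' : x ≤ (((697932185 : ℕ) : ℝ) + (42949674 : ℕ)) / S) :
    TriA PP.cur (VE (h0 * 0) 3 κ (h0 * x) (eng.v x) (h0 * (3 / 40)) (tnt (h0 * x) (3 / 10)) (tbl tK x) (tbl tL x) (tbl (smT h0⁻¹ tC) x)) 1 0 1 2 7 1 1 :=
  (sideB hx hx').bothA (thrB hx hx') (en_pos (hx1 hx).le) (Or.inl rfl) (Or.inl rfl) fun y y' F =>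
    bothA_cert (s1 := true) (s2 := true) rfl hκ (en_pos (hx1 hx).le) (esg_rng (hx1 hx).le (hx2 hx').le).1 (mo_v x) covB21 covB70 hx hx'
        Pool.Agent.Strip051.G.I6500_6900.Tab.C.BA27.c_pp_101 noCut_EA noExt_EA F trivial trivial

theorem BA27_pp_102 {κ x : ℝ} (hκ : κ * h0 = ken x) (hx : ((697932185 : ℕ) : ℝ) / S ≤ x) (hx' : x ≤ (((697932185 : ℕ) : ℝ) + (42949674 : ℕ)) / S) :
    TriA PP.cur (VE (h0 * 0) 3 κ (h0 * x) (eng.v x) (h0 * (3 / 40)) (tnt (h0 * x) (3 / 10)) (tbl tK x) (tbl tL x) (tbl (smT h0⁻¹ tC) x)) 1 0 2 2 7 1 1 :=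
  (sideB hx hx').bothA (thrB hx hx') (en_pos (hx1 hx).le) (Or.inl rfl) (Or.inl rfl) fun y y' F =>
    bothA_cert (s1 := true) (s2 := true) rfl hκ (en_pos (hx1 hx).le) (esg_rng (hx1 hx).le (hx2 hx').le).1 (mo_v x) covB21 covB70 hx hx'
        Pool.Agent.Strip051.G.I6500_6900.Tab.C.BA27.c_pp_102 noCut_EA noExt_EA F trivial trivial

theorem BA27_pp_112 {κ x : ℝ} (hκ : κ * h0 = ken x) (hx : ((697932185 : ℕ) : ℝ) / S ≤ x) (hx' : x ≤ (((697932185 : ℕ) : ℝ) + (42949674 : ℕ)) / S) :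
    TriA PP.cur (VE (h0 * 0) 3 κ (h0 * x) (eng.v x) (h0 * (3 / 40)) (tnt (h0 * x) (3 / 10)) (tbl tK x) (tbl tL x) (tbl (smT h0⁻¹ tC) x)) 1 1 2 2 7 1 1 :=
  (sideB hx hx').bothA (thrB hx hx') (en_pos (hx1 hx).le) (Or.inl rfl) (Or.inl rfl) fun y y' F =>
    bothA_cert (s1 := true) (s2 := true) rfl hκ (en_pos (hx1 hx).le) (esg_rng (hx1 hx).le (hx2 hx').le).1 (mo_v x) covB21 covB71 hx hx'
        Pool.Agent.Strip051.G.I6500_6900.Tab.C.BA27.c_pp_112 noCut_EA noExt_EA F trivial trivial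

theorem BA27_pp_113 {κ x : ℝ} (hκ : κ * h0 = ken x) (hx : ((697932185 : ℕ) : ℝ) / S ≤ x) (hx' : x ≤ (((697932185 : ℕ) : ℝ) + (42949674 : ℕ)) / S) :
    TriA PP.cur (VE (h0 * 0) 3 κ (h0 * x) (eng.v x) (h0 * (3 / 40)) (tnt (h0 * x) (3 / 10)) (tbl tK x) (tbl tL x) (tbl (smT h0⁻¹ tC) x)) 1 1 3 2 7 1 1 :=
  (sideB hx hx').bothA (thrB hx hx') (en_pos (hx1 hx).le) (Or.inl rfl) (Or.inl rfl) fun y y' F =>
    bothA_cert (s1 := true) (s2 := true) rfl hκ (en_pos (hx1 hx).le) (esg_rng (hx1 hx).le (hx2 hx').le).1 (mo_v x) covB21 covB71 hx hx'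
        Pool.Agent.Strip051.G.I6500_6900.Tab.C.BA27.c_pp_113 noCut_EA noExt_EA F trivial trivial

theorem BA27_pp_123 {κ x : ℝ} (hκ : κ * h0 = ken x) (hx : ((697932185 : ℕ) : ℝ) / S ≤ x) (hx' : x ≤ (((697932185 : ℕ) : ℝ) + (42949674 : ℕ)) / S) :
    TriA PP.cur (VE (h0 * 0) 3 κ (h0 * x) (eng.v x) (h0 * (3 / 40)) (tnt (h0 * x) (3 / 10)) (tbl tK x) (tbl tL x) (tbl (smT h0⁻¹ tC) x)) 1 2 3 2 7 1 1 :=
  (sideB hx hx').bothA (thrB hx hx') (en_pos (hx1 hx).le) (Or.inl rfl) (Or.inl rfl) fun y y' F =>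
    bothA_cert (s1 := true) (s2 := true) rfl hκ (en_pos (hx1 hx).le) (esg_rng (hx1 hx).le (hx2 hx').le).1 (mo_v x) covB21 covB72 hx hx'
        Pool.Agent.Strip051.G.I6500_6900.Tab.C.BA27.c_pp_123 noCut_EA noExt_EA F trivial trivial

theorem BA27_pp_133 {κ x : ℝ} (hκ : κ * h0 = ken x) (hx : ((697932185 : ℕ) : ℝ) / S ≤ x) (hx' : x ≤ (((697932185 : ℕ) : ℝ) + (42949674 : ℕ)) / S) :
    TriA PP.cur (VE (h0 * 0) 3 κ (h0 * x) (eng.v x) (h0 * (3 / 40)) (tnt (h0 * x) (3 / 10)) (tbl tK x) (tbl tL x) (tbl (smT h0⁻¹ tC) x)) 1 3 3 2 7 1 1 :=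
  (sideB hx hx').bothA (thrB hx hx') (en_pos (hx1 hx).le) (Or.inl rfl) (Or.inl rfl) fun y y' F =>
    bothA_cert (s1 := true) (s2 := true) rfl hκ (en_pos (hx1 hx).le) (esg_rng (hx1 hx).le (hx2 hx').le).1 (mo_v x) covB21 covB73 hx hx'
        Pool.Agent.Strip051.G.I6500_6900.Tab.C.BA27.c_pp_133 noCut_EA noExt_EA F trivial trivial

theorem BA27_pp_202 {κ x : ℝ} (hκ : κ * h0 = ken x) (hx : ((697932185 : ℕ) : ℝ) / S ≤ x) (hx' : x ≤ (((697932185 : ℕ) : ℝ) + (42949674 : ℕ)) / S) :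
    TriA PP.cur (VE (h0 * 0) 3 κ (h0 * x) (eng.v x) (h0 * (3 / 40)) (tnt (h0 * x) (3 / 10)) (tbl tK x) (tbl tL x) (tbl (smT h0⁻¹ tC) x)) 2 0 2 2 7 1 1 :=
  (sideB hx hx').bothA (thrB hx hx') (en_pos (hx1 hx).le) (Or.inl rfl) (Or.inl rfl) fun y y' F =>
    (lt_or_ge (h0 * y) 1).elim
      (fun h => bothA_cert (s1 := true) (s2 := true) rfl hκ (en_pos (hx1 hx).le) (esg_rng (hx1 hx).le (hx2 hx').le).1 (mo_v x) covB22a covB70 hx hx'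
        Pool.Agent.Strip051.G.I6500_6900.Tab.C.BA27.c_pp_202_a noCut_EA noExt_EA F h trivial)
      (fun h => bothA_cert (s1 := true) (s2 := true) rfl hκ (en_pos (hx1 hx).le) (esg_rng (hx1 hx).le (hx2 hx').le).1 (mo_v x) covB22b covB70 hx hx'
        Pool.Agent.Strip051.G.I6500_6900.Tab.C.BA27.c_pp_202_b noCut_EA noExt_EA F h trivial)

theorem BA27_pp_203 {κ x : ℝ} (hκ : κ * h0 = ken x) (hx : ((697932185 : ℕ) : ℝ) / S ≤ x) (hx' : x ≤ (((697932185 : ℕ) : ℝ) + (42949674 : ℕ)) / S) :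
    TriA PP.cur (VE (h0 * 0) 3 κ (h0 * x) (eng.v x) (h0 * (3 / 40)) (tnt (h0 * x) (3 / 10)) (tbl tK x) (tbl tL x) (tbl (smT h0⁻¹ tC) x)) 2 0 3 2 7 1 1 :=
  (sideB hx hx').bothA (thrB hx hx') (en_pos (hx1 hx).le) (Or.inl rfl) (Or.inl rfl) fun y y' F =>
    (lt_or_ge (h0 * y) 1).elim
      (fun h => bothA_cert (s1 := true) (s2 := true) rfl hκ (en_pos (hx1 hx).le) (esg_rng (hx1 hx).le (hx2 hx').le).1 (mo_v x) covB22a covB70 hx hx'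
        Pool.Agent.Strip051.G.I6500_6900.Tab.C.BA27.c_pp_203_a noCut_EA noExt_EA F h trivial)
      (fun h => bothA_cert (s1 := true) (s2 := true) rfl hκ (en_pos (hx1 hx).le) (esg_rng (hx1 hx).le (hx2 hx').le).1 (mo_v x) covB22b covB70 hx hx'
        Pool.Agent.Strip051.G.I6500_6900.Tab.C.BA27.c_pp_203_b noCut_EA noExt_EA F h trivial)

theorem BA27_pp_213 {κ x : ℝ} (hκ : κ * h0 = ken x) (hx : ((697932185 : ℕ) : ℝ) / S ≤ x) (hx' : x ≤ (((697932185 : ℕ) : ℝ) + (42949674 : ℕ)) / S) :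
    TriA PP.cur (VE (h0 * 0) 3 κ (h0 * x) (eng.v x) (h0 * (3 / 40)) (tnt (h0 * x) (3 / 10)) (tbl tK x) (tbl tL x) (tbl (smT h0⁻¹ tC) x)) 2 1 3 2 7 1 1 :=
  (sideB hx hx').bothA (thrB hx hx') (en_pos (hx1 hx).le) (Or.inl rfl) (Or.inl rfl) fun y y' F =>
    (lt_or_ge (h0 * y) 1).elim
      (fun h => bothA_cert (s1 := true) (s2 := true) rfl hκ (en_pos (hx1 hx).le) (esg_rng (hx1 hx).le (hx2 hx').le).1 (mo_v x) covB22a covB71 hx hx'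
        Pool.Agent.Strip051.G.I6500_6900.Tab.C.BA27.c_pp_213_a noCut_EA noExt_EA F h trivial)
      (fun h => bothA_cert (s1 := true) (s2 := true) rfl hκ (en_pos (hx1 hx).le) (esg_rng (hx1 hx).le (hx2 hx').le).1 (mo_v x) covB22b covB71 hx hx'
        Pool.Agent.Strip051.G.I6500_6900.Tab.C.BA27.c_pp_213_b noCut_EA noExt_EA F h trivial)

theorem BA27_pp_303 {κ x : ℝ} (hκ : κ * h0 = ken x) (hx : ((697932185 : ℕ) : ℝ) / S ≤ x) (hx' : x ≤ (((697932185 : ℕ) : ℝ) + (42949674 : ℕ)) / S) :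
    TriA PP.cur (VE (h0 * 0) 3 κ (h0 * x) (eng.v x) (h0 * (3 / 40)) (tnt (h0 * x) (3 / 10)) (tbl tK x) (tbl tL x) (tbl (smT h0⁻¹ tC) x)) 3 0 3 2 7 1 1 :=
  (sideB hx hx').bothA (thrB hx hx') (en_pos (hx1 hx).le) (Or.inl rfl) (Or.inl rfl) fun y y' F =>
    bothA_cert (s1 := true) (s2 := true) rfl hκ (en_pos (hx1 hx).le) (esg_rng (hx1 hx).le (hx2 hx').le).1 (mo_v x) covB23 covB70 hx hx'
        Pool.Agent.Strip051.G.I6500_6900.Tab.C.BA27.c_pp_303 noCut_EA noExt_EA F trivial trivial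

theorem BA27_pp_313 {κ x : ℝ} (hκ : κ * h0 = ken x) (hx : ((697932185 : ℕ) : ℝ) / S ≤ x) (hx' : x ≤ (((697932185 : ℕ) : ℝ) + (42949674 : ℕ)) / S) :
    TriA PP.cur (VE (h0 * 0) 3 κ (h0 * x) (eng.v x) (h0 * (3 / 40)) (tnt (h0 * x) (3 / 10)) (tbl tK x) (tbl tL x) (tbl (smT h0⁻¹ tC) x)) 3 1 3 2 7 1 1 :=
  (sideB hx hx').bothA (thrB hx hx') (en_pos (hx1 hx).le) (Or.inl rfl) (Or.inl rfl) fun y y' F =>
    bothA_cert (s1 := true) (s2 := true) rfl hκ (en_pos (hx1 hx).le) (esg_rng (hx1 hx).le (hx2 hx').le).1 (mo_v x) covB23 covB71 hx hx'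
        Pool.Agent.Strip051.G.I6500_6900.Tab.C.BA27.c_pp_313 noCut_EA noExt_EA F trivial trivial

theorem BA27_pm_001 {κ x : ℝ} (hκ : κ * h0 = ken x) (hx : ((697932185 : ℕ) : ℝ) / S ≤ x) (hx' : x ≤ (((697932185 : ℕ) : ℝ) + (42949674 : ℕ)) / S) :
    TriA PP.cur (VE (h0 * 0) 3 κ (h0 * x) (eng.v x) (h0 * (3 / 40)) (tnt (h0 * x) (3 / 10)) (tbl tK x) (tbl tL x) (tbl (smT h0⁻¹ tC) x)) 0 0 1 2 7 1 (-1) :=
  (sideB hx hx').bothA (thrB hx hx') (en_pos (hx1 hx).le) (Or.inl rfl) (Or.inr rfl) fun y y' F =>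
    bothA_cert (s1 := true) (s2 := false) rfl hκ (en_pos (hx1 hx).le) (esg_rng (hx1 hx).le (hx2 hx').le).1 (mo_v x) covB20 covB70 hx hx'
        Pool.Agent.Strip051.G.I6500_6900.Tab.C.BA27.c_pm_001 noCut_EA noExt_EA F trivial trivial

theorem BA27_pm_011 {κ x : ℝ} (hκ : κ * h0 = ken x) (hx : ((697932185 : ℕ) : ℝ) / S ≤ x) (hx' : x ≤ (((697932185 : ℕ) : ℝ) + (42949674 : ℕ)) / S) :
    TriA PP.cur (VE (h0 * 0) 3 κ (h0 * x) (eng.v x) (h0 * (3 / 40)) (tnt (h0 * x) (3 / 10)) (tbl tK x) (tbl tL x) (tbl (smT h0⁻¹ tC) x)) 0 1 1 2 7 1 (-1) :=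
  (sideB hx hx').bothA (thrB hx hx') (en_pos (hx1 hx).le) (Or.inl rfl) (Or.inr rfl) fun y y' F =>
    bothA_cert (s1 := true) (s2 := false) rfl hκ (en_pos (hx1 hx).le) (esg_rng (hx1 hx).le (hx2 hx').le).1 (mo_v x) covB20 covB71 hx hx'
        Pool.Agent.Strip051.G.I6500_6900.Tab.C.BA27.c_pm_011 (cutEA_cons (Pool.Agent.Strip051.G.I6500_6900.Tab.altB_A011R_27 hκ hx hx') cutEA_nil) noExt_EA F trivial trivial

theorem BA27_pm_012 {κ x : ℝ} (hκ : κ * h0 = ken x) (hx : ((697932185 : ℕ) : ℝ) / S ≤ x) (hx' : x ≤ (((697932185 : ℕ) : ℝ) + (42949674 : ℕ)) / S) :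
    TriA PP.cur (VE (h0 * 0) 3 κ (h0 * x) (eng.v x) (h0 * (3 / 40)) (tnt (h0 * x) (3 / 10)) (tbl tK x) (tbl tL x) (tbl (smT h0⁻¹ tC) x)) 0 1 2 2 7 1 (-1) :=
  (sideB hx hx').bothA (thrB hx hx') (en_pos (hx1 hx).le) (Or.inl rfl) (Or.inr rfl) fun y y' F =>
    bothA_cert (s1 := true) (s2 := false) rfl hκ (en_pos (hx1 hx).le) (esg_rng (hx1 hx).le (hx2 hx').le).1 (mo_v x) covB20 covB71 hx hx'
        Pool.Agent.Strip051.G.I6500_6900.Tab.C.BA27.c_pm_012 (cutEA_cons (Pool.Agent.Strip051.G.I6500_6900.Tab.altB_A012R_27 hκ hx hx') cutEA_nil) noExt_EA F trivial trivial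

theorem BA27_pm_022 {κ x : ℝ} (hκ : κ * h0 = ken x) (hx : ((697932185 : ℕ) : ℝ) / S ≤ x) (hx' : x ≤ (((697932185 : ℕ) : ℝ) + (42949674 : ℕ)) / S) :
    TriA PP.cur (VE (h0 * 0) 3 κ (h0 * x) (eng.v x) (h0 * (3 / 40)) (tnt (h0 * x) (3 / 10)) (tbl tK x) (tbl tL x) (tbl (smT h0⁻¹ tC) x)) 0 2 2 2 7 1 (-1) :=
  (sideB hx hx').bothA (thrB hx hx') (en_pos (hx1 hx).le) (Or.inl rfl) (Or.inr rfl) fun y y' F =>
    bothA_cert (s1 := true) (s2 := false) rfl hκ (en_pos (hx1 hx).le) (esg_rng (hx1 hx).le (hx2 hx').le).1 (mo_v x) covB20 covB72 hx hx'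
        Pool.Agent.Strip051.G.I6500_6900.Tab.C.BA27.c_pm_022 (cutEA_cons (Pool.Agent.Strip051.G.I6500_6900.Tab.altB_A022R_27 hκ hx hx') cutEA_nil) noExt_EA F trivial trivial

theorem BA27_pm_023 {κ x : ℝ} (hκ : κ * h0 = ken x) (hx : ((697932185 : ℕ) : ℝ) / S ≤ x) (hx' : x ≤ (((697932185 : ℕ) : ℝ) + (42949674 : ℕ)) / S) :
    TriA PP.cur (VE (h0 * 0) 3 κ (h0 * x) (eng.v x) (h0 * (3 / 40)) (tnt (h0 * x) (3 / 10)) (tbl tK x) (tbl tL x) (tbl (smT h0⁻¹ tC) x)) 0 2 3 2 7 1 (-1) :=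
  (sideB hx hx').bothA (thrB hx hx') (en_pos (hx1 hx).le) (Or.inl rfl) (Or.inr rfl) fun y y' F =>
    bothA_cert (s1 := true) (s2 := false) rfl hκ (en_pos (hx1 hx).le) (esg_rng (hx1 hx).le (hx2 hx').le).1 (mo_v x) covB20 covB72 hx hx'
        Pool.Agent.Strip051.G.I6500_6900.Tab.C.BA27.c_pm_023 noCut_EA noExt_EA F trivial trivial

theorem BA27_pm_033 {κ x : ℝ} (hκ : κ * h0 = ken x) (hx : ((697932185 : ℕ) : ℝ) / S ≤ x) (hx' : x ≤ (((697932185 : ℕ) : ℝ) + (42949674 : ℕ)) / S) :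
    TriA PP.cur (VE (h0 * 0) 3 κ (h0 * x) (eng.v x) (h0 * (3 / 40)) (tnt (h0 * x) (3 / 10)) (tbl tK x) (tbl tL x) (tbl (smT h0⁻¹ tC) x)) 0 3 3 2 7 1 (-1) :=
  (sideB hx hx').bothA (thrB hx hx') (en_pos (hx1 hx).le) (Or.inl rfl) (Or.inr rfl) fun y y' F =>
    bothA_cert (s1 := true) (s2 := false) rfl hκ (en_pos (hx1 hx).le) (esg_rng (hx1 hx).le (hx2 hx').le).1 (mo_v x) covB20 covB73 hx hx'
        Pool.Agent.Strip051.G.I6500_6900.Tab.C.BA27.c_pm_033 noCut_EA noExt_EA F trivial trivial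

theorem BA27_pm_101 {κ x : ℝ} (hκ : κ * h0 = ken x) (hx : ((697932185 : ℕ) : ℝ) / S ≤ x) (hx' : x ≤ (((697932185 : ℕ) : ℝ) + (42949674 : ℕ)) / S) :
    TriA PP.cur (VE (h0 * 0) 3 κ (h0 * x) (eng.v x) (h0 * (3 / 40)) (tnt (h0 * x) (3 / 10)) (tbl tK x) (tbl tL x) (tbl (smT h0⁻¹ tC) x)) 1 0 1 2 7 1 (-1) :=
  (sideB hx hx').bothA (thrB hx hx') (en_pos (hx1 hx).le) (Or.inl rfl) (Or.inr rfl) fun y y' F =>
    bothA_cert (s1 := true) (s2 := false) rfl hκ (en_pos (hx1 hx).le) (esg_rng (hx1 hx).le (hx2 hx').le).1 (mo_v x) covB21 covB70 hx hx'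
        Pool.Agent.Strip051.G.I6500_6900.Tab.C.BA27.c_pm_101 noCut_EA noExt_EA F trivial trivial

theorem BA27_pm_102 {κ x : ℝ} (hκ : κ * h0 = ken x) (hx : ((697932185 : ℕ) : ℝ) / S ≤ x) (hx' : x ≤ (((697932185 : ℕ) : ℝ) + (42949674 : ℕ)) / S) :
    TriA PP.cur (VE (h0 * 0) 3 κ (h0 * x) (eng.v x) (h0 * (3 / 40)) (tnt (h0 * x) (3 / 10)) (tbl tK x) (tbl tL x) (tbl (smT h0⁻¹ tC) x)) 1 0 2 2 7 1 (-1) :=
  (sideB hx hx').bothA (thrB hx hx') (en_pos (hx1 hx).le) (Or.inl rfl) (Or.inr rfl) fun y y' F =>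
    bothA_cert (s1 := true) (s2 := false) rfl hκ (en_pos (hx1 hx).le) (esg_rng (hx1 hx).le (hx2 hx').le).1 (mo_v x) covB21 covB70 hx hx'
        Pool.Agent.Strip051.G.I6500_6900.Tab.C.BA27.c_pm_102 noCut_EA noExt_EA F trivial trivial

theorem BA27_pm_112 {κ x : ℝ} (hκ : κ * h0 = ken x) (hx : ((697932185 : ℕ) : ℝ) / S ≤ x) (hx' : x ≤ (((697932185 : ℕ) : ℝ) + (42949674 : ℕ)) / S) :
    TriA PP.cur (VE (h0 * 0) 3 κ (h0 * x) (eng.v x) (h0 * (3 / 40)) (tnt (h0 * x) (3 / 10)) (tbl tK x) (tbl tL x) (tbl (smT h0⁻¹ tC) x)) 1 1 2 2 7 1 (-1) :=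
  (sideB hx hx').bothA (thrB hx hx') (en_pos (hx1 hx).le) (Or.inl rfl) (Or.inr rfl) fun y y' F =>
    bothA_cert (s1 := true) (s2 := false) rfl hκ (en_pos (hx1 hx).le) (esg_rng (hx1 hx).le (hx2 hx').le).1 (mo_v x) covB21 covB71 hx hx'
        Pool.Agent.Strip051.G.I6500_6900.Tab.C.BA27.c_pm_112 noCut_EA noExt_EA F trivial trivial

theorem BA27_pm_113 {κ x : ℝ} (hκ : κ * h0 = ken x) (hx : ((697932185 : ℕ) : ℝ) / S ≤ x) (hx' : x ≤ (((697932185 : ℕ) : ℝ) + (42949674 : ℕ)) / S) :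
    TriA PP.cur (VE (h0 * 0) 3 κ (h0 * x) (eng.v x) (h0 * (3 / 40)) (tnt (h0 * x) (3 / 10)) (tbl tK x) (tbl tL x) (tbl (smT h0⁻¹ tC) x)) 1 1 3 2 7 1 (-1) :=
  (sideB hx hx').bothA (thrB hx hx') (en_pos (hx1 hx).le) (Or.inl rfl) (Or.inr rfl) fun y y' F =>
    bothA_cert (s1 := true) (s2 := false) rfl hκ (en_pos (hx1 hx).le) (esg_rng (hx1 hx).le (hx2 hx').le).1 (mo_v x) covB21 covB71 hx hx'
        Pool.Agent.Strip051.G.I6500_6900.Tab.C.BA27.c_pm_113 noCut_EA noExt_EA F trivial trivial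

theorem BA27_pm_123 {κ x : ℝ} (hκ : κ * h0 = ken x) (hx : ((697932185 : ℕ) : ℝ) / S ≤ x) (hx' : x ≤ (((697932185 : ℕ) : ℝ) + (42949674 : ℕ)) / S) :
    TriA PP.cur (VE (h0 * 0) 3 κ (h0 * x) (eng.v x) (h0 * (3 / 40)) (tnt (h0 * x) (3 / 10)) (tbl tK x) (tbl tL x) (tbl (smT h0⁻¹ tC) x)) 1 2 3 2 7 1 (-1) :=
  (sideB hx hx').bothA (thrB hx hx') (en_pos (hx1 hx).le) (Or.inl rfl) (Or.inr rfl) fun y y' F =>
    bothA_cert (s1 := true) (s2 := false) rfl hκ (en_pos (hx1 hx).le) (esg_rng (hx1 hx).le (hx2 hx').le).1 (mo_v x) covB21 covB72 hx hx'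
        Pool.Agent.Strip051.G.I6500_6900.Tab.C.BA27.c_pm_123 noCut_EA noExt_EA F trivial trivial

theorem BA27_pm_133 {κ x : ℝ} (hκ : κ * h0 = ken x) (hx : ((697932185 : ℕ) : ℝ) / S ≤ x) (hx' : x ≤ (((697932185 : ℕ) : ℝ) + (42949674 : ℕ)) / S) :
    TriA PP.cur (VE (h0 * 0) 3 κ (h0 * x) (eng.v x) (h0 * (3 / 40)) (tnt (h0 * x) (3 / 10)) (tbl tK x) (tbl tL x) (tbl (smT h0⁻¹ tC) x)) 1 3 3 2 7 1 (-1) :=
  (sideB hx hx').bothA (thrB hx hx') (en_pos (hx1 hx).le) (Or.inl rfl) (Or.inr rfl) fun y y' F =>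
    bothA_cert (s1 := true) (s2 := false) rfl hκ (en_pos (hx1 hx).le) (esg_rng (hx1 hx).le (hx2 hx').le).1 (mo_v x) covB21 covB73 hx hx'
        Pool.Agent.Strip051.G.I6500_6900.Tab.C.BA27.c_pm_133 noCut_EA noExt_EA F trivial trivial

theorem BA27_pm_202 {κ x : ℝ} (hκ : κ * h0 = ken x) (hx : ((697932185 : ℕ) : ℝ) / S ≤ x) (hx' : x ≤ (((697932185 : ℕ) : ℝ) + (42949674 : ℕ)) / S) :
    TriA PP.cur (VE (h0 * 0) 3 κ (h0 * x) (eng.v x) (h0 * (3 / 40)) (tnt (h0 * x) (3 / 10)) (tbl tK x) (tbl tL x) (tbl (smT h0⁻¹ tC) x)) 2 0 2 2 7 1 (-1) :=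
  (sideB hx hx').bothA (thrB hx hx') (en_pos (hx1 hx).le) (Or.inl rfl) (Or.inr rfl) fun y y' F =>
    (lt_or_ge (h0 * y) 1).elim
      (fun h => bothA_cert (s1 := true) (s2 := false) rfl hκ (en_pos (hx1 hx).le) (esg_rng (hx1 hx).le (hx2 hx').le).1 (mo_v x) covB22a covB70 hx hx'
        Pool.Agent.Strip051.G.I6500_6900.Tab.C.BA27.c_pm_202_a noCut_EA noExt_EA F h trivial)
      (fun h => bothA_cert (s1 := true) (s2 := false) rfl hκ (en_pos (hx1 hx).le) (esg_rng (hx1 hx).le (hx2 hx').le).1 (mo_v x) covB22b covB70 hx hx'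
        Pool.Agent.Strip051.G.I6500_6900.Tab.C.BA27.c_pm_202_b noCut_EA noExt_EA F h trivial)

theorem BA27_pm_203 {κ x : ℝ} (hκ : κ * h0 = ken x) (hx : ((697932185 : ℕ) : ℝ) / S ≤ x) (hx' : x ≤ (((697932185 : ℕ) : ℝ) + (42949674 : ℕ)) / S) :
    TriA PP.cur (VE (h0 * 0) 3 κ (h0 * x) (eng.v x) (h0 * (3 / 40)) (tnt (h0 * x) (3 / 10)) (tbl tK x) (tbl tL x) (tbl (smT h0⁻¹ tC) x)) 2 0 3 2 7 1 (-1) :=
  (sideB hx hx').bothA (thrB hx hx') (en_pos (hx1 hx).le) (Or.inl rfl) (Or.inr rfl) fun y y' F =>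
    (lt_or_ge (h0 * y) 1).elim
      (fun h => bothA_cert (s1 := true) (s2 := false) rfl hκ (en_pos (hx1 hx).le) (esg_rng (hx1 hx).le (hx2 hx').le).1 (mo_v x) covB22a covB70 hx hx'
        Pool.Agent.Strip051.G.I6500_6900.Tab.C.BA27.c_pm_203_a noCut_EA noExt_EA F h trivial)
      (fun h => bothA_cert (s1 := true) (s2 := false) rfl hκ (en_pos (hx1 hx).le) (esg_rng (hx1 hx).le (hx2 hx').le).1 (mo_v x) covB22b covB70 hx hx'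
        Pool.Agent.Strip051.G.I6500_6900.Tab.C.BA27.c_pm_203_b noCut_EA noExt_EA F h trivial)

theorem BA27_pm_213 {κ x : ℝ} (hκ : κ * h0 = ken x) (hx : ((697932185 : ℕ) : ℝ) / S ≤ x) (hx' : x ≤ (((697932185 : ℕ) : ℝ) + (42949674 : ℕ)) / S) :
    TriA PP.cur (VE (h0 * 0) 3 κ (h0 * x) (eng.v x) (h0 * (3 / 40)) (tnt (h0 * x) (3 / 10)) (tbl tK x) (tbl tL x) (tbl (smT h0⁻¹ tC) x)) 2 1 3 2 7 1 (-1) :=
  (sideB hx hx').bothA (thrB hx hx') (en_pos (hx1 hx).le) (Or.inl rfl) (Or.inr rfl) fun y y' F =>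
    (lt_or_ge (h0 * y) 1).elim
      (fun h => bothA_cert (s1 := true) (s2 := false) rfl hκ (en_pos (hx1 hx).le) (esg_rng (hx1 hx).le (hx2 hx').le).1 (mo_v x) covB22a covB71 hx hx'
        Pool.Agent.Strip051.G.I6500_6900.Tab.C.BA27.c_pm_213_a noCut_EA noExt_EA F h trivial)
      (fun h => bothA_cert (s1 := true) (s2 := false) rfl hκ (en_pos (hx1 hx).le) (esg_rng (hx1 hx).le (hx2 hx').le).1 (mo_v x) covB22b covB71 hx hx'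
        Pool.Agent.Strip051.G.I6500_6900.Tab.C.BA27.c_pm_213_b noCut_EA noExt_EA F h trivial)

theorem BA27_pm_303 {κ x : ℝ} (hκ : κ * h0 = ken x) (hx : ((697932185 : ℕ) : ℝ) / S ≤ x) (hx' : x ≤ (((697932185 : ℕ) : ℝ) + (42949674 : ℕ)) / S) :
    TriA PP.cur (VE (h0 * 0) 3 κ (h0 * x) (eng.v x) (h0 * (3 / 40)) (tnt (h0 * x) (3 / 10)) (tbl tK x) (tbl tL x) (tbl (smT h0⁻¹ tC) x)) 3 0 3 2 7 1 (-1) :=
  (sideB hx hx').bothA (thrB hx hx') (en_pos (hx1 hx).le) (Or.inl rfl) (Or.inr rfl) fun y y' F =>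
    bothA_cert (s1 := true) (s2 := false) rfl hκ (en_pos (hx1 hx).le) (esg_rng (hx1 hx).le (hx2 hx').le).1 (mo_v x) covB23 covB70 hx hx'
        Pool.Agent.Strip051.G.I6500_6900.Tab.C.BA27.c_pm_303 noCut_EA noExt_EA F trivial trivial

theorem BA27_pm_313 {κ x : ℝ} (hκ : κ * h0 = ken x) (hx : ((697932185 : ℕ) : ℝ) / S ≤ x) (hx' : x ≤ (((697932185 : ℕ) : ℝ) + (42949674 : ℕ)) / S) :
    TriA PP.cur (VE (h0 * 0) 3 κ (h0 * x) (eng.v x) (h0 * (3 / 40)) (tnt (h0 * x) (3 / 10)) (tbl tK x) (tbl tL x) (tbl (smT h0⁻¹ tC) x)) 3 1 3 2 7 1 (-1) :=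
  (sideB hx hx').bothA (thrB hx hx') (en_pos (hx1 hx).le) (Or.inl rfl) (Or.inr rfl) fun y y' F =>
    bothA_cert (s1 := true) (s2 := false) rfl hκ (en_pos (hx1 hx).le) (esg_rng (hx1 hx).le (hx2 hx').le).1 (mo_v x) covB23 covB71 hx hx'
        Pool.Agent.Strip051.G.I6500_6900.Tab.C.BA27.c_pm_313 noCut_EA noExt_EA F trivial trivial

theorem BA27_mm_001 {κ x : ℝ} (hκ : κ * h0 = ken x) (hx : ((697932185 : ℕ) : ℝ) / S ≤ x) (hx' : x ≤ (((697932185 : ℕ) : ℝ) + (42949674 : ℕ)) / S) :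
    TriA PP.cur (VE (h0 * 0) 3 κ (h0 * x) (eng.v x) (h0 * (3 / 40)) (tnt (h0 * x) (3 / 10)) (tbl tK x) (tbl tL x) (tbl (smT h0⁻¹ tC) x)) 0 0 1 2 7 (-1) (-1) :=
  (sideB hx hx').bothA (thrB hx hx') (en_pos (hx1 hx).le) (Or.inr rfl) (Or.inr rfl) fun y y' F =>
    bothA_cert (s1 := false) (s2 := false) rfl hκ (en_pos (hx1 hx).le) (esg_rng (hx1 hx).le (hx2 hx').le).1 (mo_v x) covB20 covB70 hx hx'
        Pool.Agent.Strip051.G.I6500_6900.Tab.C.BA27.c_mm_001 noCut_EA noExt_EA F trivial trivial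

theorem BA27_mm_011 {κ x : ℝ} (hκ : κ * h0 = ken x) (hx : ((697932185 : ℕ) : ℝ) / S ≤ x) (hx' : x ≤ (((697932185 : ℕ) : ℝ) + (42949674 : ℕ)) / S) :
    TriA PP.cur (VE (h0 * 0) 3 κ (h0 * x) (eng.v x) (h0 * (3 / 40)) (tnt (h0 * x) (3 / 10)) (tbl tK x) (tbl tL x) (tbl (smT h0⁻¹ tC) x)) 0 1 1 2 7 (-1) (-1) :=
  (sideB hx hx').bothA (thrB hx hx') (en_pos (hx1 hx).le) (Or.inr rfl) (Or.inr rfl) fun y y' F =>
    bothA_cert (s1 := false) (s2 := false) rfl hκ (en_pos (hx1 hx).le) (esg_rng (hx1 hx).le (hx2 hx').le).1 (mo_v x) covB20 covB71 hx hx'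
        Pool.Agent.Strip051.G.I6500_6900.Tab.C.BA27.c_mm_011 noCut_EA noExt_EA F trivial trivial

theorem BA27_mm_012 {κ x : ℝ} (hκ : κ * h0 = ken x) (hx : ((697932185 : ℕ) : ℝ) / S ≤ x) (hx' : x ≤ (((697932185 : ℕ) : ℝ) + (42949674 : ℕ)) / S) :
    TriA PP.cur (VE (h0 * 0) 3 κ (h0 * x) (eng.v x) (h0 * (3 / 40)) (tnt (h0 * x) (3 / 10)) (tbl tK x) (tbl tL x) (tbl (smT h0⁻¹ tC) x)) 0 1 2 2 7 (-1) (-1) :=
  (sideB hx hx').bothA (thrB hx hx') (en_pos (hx1 hx).le) (Or.inr rfl) (Or.inr rfl) fun y y' F =>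
    bothA_cert (s1 := false) (s2 := false) rfl hκ (en_pos (hx1 hx).le) (esg_rng (hx1 hx).le (hx2 hx').le).1 (mo_v x) covB20 covB71 hx hx'
        Pool.Agent.Strip051.G.I6500_6900.Tab.C.BA27.c_mm_012 noCut_EA noExt_EA F trivial trivial

theorem BA27_mm_022 {κ x : ℝ} (hκ : κ * h0 = ken x) (hx : ((697932185 : ℕ) : ℝ) / S ≤ x) (hx' : x ≤ (((697932185 : ℕ) : ℝ) + (42949674 : ℕ)) / S) :
    TriA PP.cur (VE (h0 * 0) 3 κ (h0 * x) (eng.v x) (h0 * (3 / 40)) (tnt (h0 * x) (3 / 10)) (tbl tK x) (tbl tL x) (tbl (smT h0⁻¹ tC) x)) 0 2 2 2 7 (-1) (-1) :=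
  (sideB hx hx').bothA (thrB hx hx') (en_pos (hx1 hx).le) (Or.inr rfl) (Or.inr rfl) fun y y' F =>
    bothA_cert (s1 := false) (s2 := false) rfl hκ (en_pos (hx1 hx).le) (esg_rng (hx1 hx).le (hx2 hx').le).1 (mo_v x) covB20 covB72 hx hx'
        Pool.Agent.Strip051.G.I6500_6900.Tab.C.BA27.c_mm_022 noCut_EA noExt_EA F trivial trivial

theorem BA27_mm_023 {κ x : ℝ} (hκ : κ * h0 = ken x) (hx : ((697932185 : ℕ) : ℝ) / S ≤ x) (hx' : x ≤ (((697932185 : ℕ) : ℝ) + (42949674 : ℕ)) / S) :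
    TriA PP.cur (VE (h0 * 0) 3 κ (h0 * x) (eng.v x) (h0 * (3 / 40)) (tnt (h0 * x) (3 / 10)) (tbl tK x) (tbl tL x) (tbl (smT h0⁻¹ tC) x)) 0 2 3 2 7 (-1) (-1) :=
  (sideB hx hx').bothA (thrB hx hx') (en_pos (hx1 hx).le) (Or.inr rfl) (Or.inr rfl) fun y y' F =>
    bothA_cert (s1 := false) (s2 := false) rfl hκ (en_pos (hx1 hx).le) (esg_rng (hx1 hx).le (hx2 hx').le).1 (mo_v x) covB20 covB72 hx hx'
        Pool.Agent.Strip051.G.I6500_6900.Tab.C.BA27.c_mm_023 noCut_EA noExt_EA F trivial trivial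

theorem BA27_mm_033 {κ x : ℝ} (hκ : κ * h0 = ken x) (hx : ((697932185 : ℕ) : ℝ) / S ≤ x) (hx' : x ≤ (((697932185 : ℕ) : ℝ) + (42949674 : ℕ)) / S) :
    TriA PP.cur (VE (h0 * 0) 3 κ (h0 * x) (eng.v x) (h0 * (3 / 40)) (tnt (h0 * x) (3 / 10)) (tbl tK x) (tbl tL x) (tbl (smT h0⁻¹ tC) x)) 0 3 3 2 7 (-1) (-1) :=
  (sideB hx hx').bothA (thrB hx hx') (en_pos (hx1 hx).le) (Or.inr rfl) (Or.inr rfl) fun y y' F =>
    bothA_cert (s1 := false) (s2 := false) rfl hκ (en_pos (hx1 hx).le) (esg_rng (hx1 hx).le (hx2 hx').le).1 (mo_v x) covB20 covB73 hx hx'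
        Pool.Agent.Strip051.G.I6500_6900.Tab.C.BA27.c_mm_033 noCut_EA noExt_EA F trivial trivial

theorem BA27_mm_101 {κ x : ℝ} (hκ : κ * h0 = ken x) (hx : ((697932185 : ℕ) : ℝ) / S ≤ x) (hx' : x ≤ (((697932185 : ℕ) : ℝ) + (42949674 : ℕ)) / S) :
    TriA PP.cur (VE (h0 * 0) 3 κ (h0 * x) (eng.v x) (h0 * (3 / 40)) (tnt (h0 * x) (3 / 10)) (tbl tK x) (tbl tL x) (tbl (smT h0⁻¹ tC) x)) 1 0 1 2 7 (-1) (-1) :=
  (sideB hx hx').bothA (thrB hx hx') (en_pos (hx1 hx).le) (Or.inr rfl) (Or.inr rfl) fun y y' F =>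
    bothA_cert (s1 := false) (s2 := false) rfl hκ (en_pos (hx1 hx).le) (esg_rng (hx1 hx).le (hx2 hx').le).1 (mo_v x) covB21 covB70 hx hx'
        Pool.Agent.Strip051.G.I6500_6900.Tab.C.BA27.c_mm_101 noCut_EA noExt_EA F trivial trivial

theorem BA27_mm_102 {κ x : ℝ} (hκ : κ * h0 = ken x) (hx : ((697932185 : ℕ) : ℝ) / S ≤ x) (hx' : x ≤ (((697932185 : ℕ) : ℝ) + (42949674 : ℕ)) / S) :
    TriA PP.cur (VE (h0 * 0) 3 κ (h0 * x) (eng.v x) (h0 * (3 / 40)) (tnt (h0 * x) (3 / 10)) (tbl tK x) (tbl tL x) (tbl (smT h0⁻¹ tC) x)) 1 0 2 2 7 (-1) (-1) :=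
  (sideB hx hx').bothA (thrB hx hx') (en_pos (hx1 hx).le) (Or.inr rfl) (Or.inr rfl) fun y y' F =>
    bothA_cert (s1 := false) (s2 := false) rfl hκ (en_pos (hx1 hx).le) (esg_rng (hx1 hx).le (hx2 hx').le).1 (mo_v x) covB21 covB70 hx hx'
        Pool.Agent.Strip051.G.I6500_6900.Tab.C.BA27.c_mm_102 noCut_EA noExt_EA F trivial trivial

theorem BA27_mm_112 {κ x : ℝ} (hκ : κ * h0 = ken x) (hx : ((697932185 : ℕ) : ℝ) / S ≤ x) (hx' : x ≤ (((697932185 : ℕ) : ℝ) + (42949674 : ℕ)) / S) :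
    TriA PP.cur (VE (h0 * 0) 3 κ (h0 * x) (eng.v x) (h0 * (3 / 40)) (tnt (h0 * x) (3 / 10)) (tbl tK x) (tbl tL x) (tbl (smT h0⁻¹ tC) x)) 1 1 2 2 7 (-1) (-1) :=
  (sideB hx hx').bothA (thrB hx hx') (en_pos (hx1 hx).le) (Or.inr rfl) (Or.inr rfl) fun y y' F =>
    bothA_cert (s1 := false) (s2 := false) rfl hκ (en_pos (hx1 hx).le) (esg_rng (hx1 hx).le (hx2 hx').le).1 (mo_v x) covB21 covB71 hx hx'
        Pool.Agent.Strip051.G.I6500_6900.Tab.C.BA27.c_mm_112 noCut_EA noExt_EA F trivial trivial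

theorem BA27_mm_113 {κ x : ℝ} (hκ : κ * h0 = ken x) (hx : ((697932185 : ℕ) : ℝ) / S ≤ x) (hx' : x ≤ (((697932185 : ℕ) : ℝ) + (42949674 : ℕ)) / S) :
    TriA PP.cur (VE (h0 * 0) 3 κ (h0 * x) (eng.v x) (h0 * (3 / 40)) (tnt (h0 * x) (3 / 10)) (tbl tK x) (tbl tL x) (tbl (smT h0⁻¹ tC) x)) 1 1 3 2 7 (-1) (-1) :=
  (sideB hx hx').bothA (thrB hx hx') (en_pos (hx1 hx).le) (Or.inr rfl) (Or.inr rfl) fun y y' F =>
    bothA_cert (s1 := false) (s2 := false) rfl hκ (en_pos (hx1 hx).le) (esg_rng (hx1 hx).le (hx2 hx').le).1 (mo_v x) covB21 covB71 hx hx'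
        Pool.Agent.Strip051.G.I6500_6900.Tab.C.BA27.c_mm_113 noCut_EA noExt_EA F trivial trivial

theorem BA27_mm_123 {κ x : ℝ} (hκ : κ * h0 = ken x) (hx : ((697932185 : ℕ) : ℝ) / S ≤ x) (hx' : x ≤ (((697932185 : ℕ) : ℝ) + (42949674 : ℕ)) / S) :
    TriA PP.cur (VE (h0 * 0) 3 κ (h0 * x) (eng.v x) (h0 * (3 / 40)) (tnt (h0 * x) (3 / 10)) (tbl tK x) (tbl tL x) (tbl (smT h0⁻¹ tC) x)) 1 2 3 2 7 (-1) (-1) :=
  (sideB hx hx').bothA (thrB hx hx') (en_pos (hx1 hx).le) (Or.inr rfl) (Or.inr rfl) fun y y' F =>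
    bothA_cert (s1 := false) (s2 := false) rfl hκ (en_pos (hx1 hx).le) (esg_rng (hx1 hx).le (hx2 hx').le).1 (mo_v x) covB21 covB72 hx hx'
        Pool.Agent.Strip051.G.I6500_6900.Tab.C.BA27.c_mm_123 noCut_EA noExt_EA F trivial trivial

theorem BA27_mm_133 {κ x : ℝ} (hκ : κ * h0 = ken x) (hx : ((697932185 : ℕ) : ℝ) / S ≤ x) (hx' : x ≤ (((697932185 : ℕ) : ℝ) + (42949674 : ℕ)) / S) :
    TriA PP.cur (VE (h0 * 0) 3 κ (h0 * x) (eng.v x) (h0 * (3 / 40)) (tnt (h0 * x) (3 / 10)) (tbl tK x) (tbl tL x) (tbl (smT h0⁻¹ tC) x)) 1 3 3 2 7 (-1) (-1) :=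
  (sideB hx hx').bothA (thrB hx hx') (en_pos (hx1 hx).le) (Or.inr rfl) (Or.inr rfl) fun y y' F =>
    bothA_cert (s1 := false) (s2 := false) rfl hκ (en_pos (hx1 hx).le) (esg_rng (hx1 hx).le (hx2 hx').le).1 (mo_v x) covB21 covB73 hx hx'
        Pool.Agent.Strip051.G.I6500_6900.Tab.C.BA27.c_mm_133 noCut_EA noExt_EA F trivial trivial

theorem BA27_mm_202 {κ x : ℝ} (hκ : κ * h0 = ken x) (hx : ((697932185 : ℕ) : ℝ) / S ≤ x) (hx' : x ≤ (((697932185 : ℕ) : ℝ) + (42949674 : ℕ)) / S) :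
    TriA PP.cur (VE (h0 * 0) 3 κ (h0 * x) (eng.v x) (h0 * (3 / 40)) (tnt (h0 * x) (3 / 10)) (tbl tK x) (tbl tL x) (tbl (smT h0⁻¹ tC) x)) 2 0 2 2 7 (-1) (-1) :=
  (sideB hx hx').bothA (thrB hx hx') (en_pos (hx1 hx).le) (Or.inr rfl) (Or.inr rfl) fun y y' F =>
    (lt_or_ge (h0 * y) 1).elim
      (fun h => bothA_cert (s1 := false) (s2 := false) rfl hκ (en_pos (hx1 hx).le) (esg_rng (hx1 hx).le (hx2 hx').le).1 (mo_v x) covB22a covB70 hx hx'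
        Pool.Agent.Strip051.G.I6500_6900.Tab.C.BA27.c_mm_202_a noCut_EA noExt_EA F h trivial)
      (fun h => bothA_cert (s1 := false) (s2 := false) rfl hκ (en_pos (hx1 hx).le) (esg_rng (hx1 hx).le (hx2 hx').le).1 (mo_v x) covB22b covB70 hx hx'
        Pool.Agent.Strip051.G.I6500_6900.Tab.C.BA27.c_mm_202_b noCut_EA noExt_EA F h trivial)

theorem BA27_mm_203 {κ x : ℝ} (hκ : κ * h0 = ken x) (hx : ((697932185 : ℕ) : ℝ) / S ≤ x) (hx' : x ≤ (((697932185 : ℕ) : ℝ) + (42949674 : ℕ)) / S) :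
    TriA PP.cur (VE (h0 * 0) 3 κ (h0 * x) (eng.v x) (h0 * (3 / 40)) (tnt (h0 * x) (3 / 10)) (tbl tK x) (tbl tL x) (tbl (smT h0⁻¹ tC) x)) 2 0 3 2 7 (-1) (-1) :=
  (sideB hx hx').bothA (thrB hx hx') (en_pos (hx1 hx).le) (Or.inr rfl) (Or.inr rfl) fun y y' F =>
    (lt_or_ge (h0 * y) 1).elim
      (fun h => bothA_cert (s1 := false) (s2 := false) rfl hκ (en_pos (hx1 hx).le) (esg_rng (hx1 hx).le (hx2 hx').le).1 (mo_v x) covB22a covB70 hx hx'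
        Pool.Agent.Strip051.G.I6500_6900.Tab.C.BA27.c_mm_203_a noCut_EA noExt_EA F h trivial)
      (fun h => bothA_cert (s1 := false) (s2 := false) rfl hκ (en_pos (hx1 hx).le) (esg_rng (hx1 hx).le (hx2 hx').le).1 (mo_v x) covB22b covB70 hx hx'
        Pool.Agent.Strip051.G.I6500_6900.Tab.C.BA27.c_mm_203_b noCut_EA noExt_EA F h trivial)

theorem BA27_mm_213 {κ x : ℝ} (hκ : κ * h0 = ken x) (hx : ((697932185 : ℕ) : ℝ) / S ≤ x) (hx' : x ≤ (((697932185 : ℕ) : ℝ) + (42949674 : ℕ)) / S) :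
    TriA PP.cur (VE (h0 * 0) 3 κ (h0 * x) (eng.v x) (h0 * (3 / 40)) (tnt (h0 * x) (3 / 10)) (tbl tK x) (tbl tL x) (tbl (smT h0⁻¹ tC) x)) 2 1 3 2 7 (-1) (-1) :=
  (sideB hx hx').bothA (thrB hx hx') (en_pos (hx1 hx).le) (Or.inr rfl) (Or.inr rfl) fun y y' F =>
    (lt_or_ge (h0 * y) 1).elim
      (fun h => bothA_cert (s1 := false) (s2 := false) rfl hκ (en_pos (hx1 hx).le) (esg_rng (hx1 hx).le (hx2 hx').le).1 (mo_v x) covB22a covB71 hx hx'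
        Pool.Agent.Strip051.G.I6500_6900.Tab.C.BA27.c_mm_213_a noCut_EA noExt_EA F h trivial)
      (fun h => bothA_cert (s1 := false) (s2 := false) rfl hκ (en_pos (hx1 hx).le) (esg_rng (hx1 hx).le (hx2 hx').le).1 (mo_v x) covB22b covB71 hx hx'
        Pool.Agent.Strip051.G.I6500_6900.Tab.C.BA27.c_mm_213_b noCut_EA noExt_EA F h trivial)

theorem BA27_mm_303 {κ x : ℝ} (hκ : κ * h0 = ken x) (hx : ((697932185 : ℕ) : ℝ) / S ≤ x) (hx' : x ≤ (((697932185 : ℕ) : ℝ) + (42949674 : ℕ)) / S) :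
    TriA PP.cur (VE (h0 * 0) 3 κ (h0 * x) (eng.v x) (h0 * (3 / 40)) (tnt (h0 * x) (3 / 10)) (tbl tK x) (tbl tL x) (tbl (smT h0⁻¹ tC) x)) 3 0 3 2 7 (-1) (-1) :=
  (sideB hx hx').bothA (thrB hx hx') (en_pos (hx1 hx).le) (Or.inr rfl) (Or.inr rfl) fun y y' F =>
    bothA_cert (s1 := false) (s2 := false) rfl hκ (en_pos (hx1 hx).le) (esg_rng (hx1 hx).le (hx2 hx').le).1 (mo_v x) covB23 covB70 hx hx'
        Pool.Agent.Strip051.G.I6500_6900.Tab.C.BA27.c_mm_303 noCut_EA noExt_EA F trivial trivial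

theorem BA27_mm_313 {κ x : ℝ} (hκ : κ * h0 = ken x) (hx : ((697932185 : ℕ) : ℝ) / S ≤ x) (hx' : x ≤ (((697932185 : ℕ) : ℝ) + (42949674 : ℕ)) / S) :
    TriA PP.cur (VE (h0 * 0) 3 κ (h0 * x) (eng.v x) (h0 * (3 / 40)) (tnt (h0 * x) (3 / 10)) (tbl tK x) (tbl tL x) (tbl (smT h0⁻¹ tC) x)) 3 1 3 2 7 (-1) (-1) :=
  (sideB hx hx').bothA (thrB hx hx') (en_pos (hx1 hx).le) (Or.inr rfl) (Or.inr rfl) fun y y' F =>
    bothA_cert (s1 := false) (s2 := false) rfl hκ (en_pos (hx1 hx).le) (esg_rng (hx1 hx).le (hx2 hx').le).1 (mo_v x) covB23 covB71 hx hx'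
        Pool.Agent.Strip051.G.I6500_6900.Tab.C.BA27.c_mm_313 noCut_EA noExt_EA F trivial trivial

theorem BA27 {κ x : ℝ} (hκ : κ * h0 = ken x) (hx : ((697932185 : ℕ) : ℝ) / S ≤ x) (hx' : x ≤ (((697932185 : ℕ) : ℝ) + (42949674 : ℕ)) / S) : AllTA PP.cur (VE (h0 * 0) 3 κ (h0 * x) (eng.v x) (h0 * (3 / 40)) (tnt (h0 * x) (3 / 10)) (tbl tK x) (tbl tL x) (tbl (smT h0⁻¹ tC) x)) 2 7 where
  pp := all17 (Q := fun a b c => TriA PP.cur (VE (h0 * 0) 3 κ (h0 * x) (eng.v x) (h0 * (3 / 40)) (tnt (h0 * x) (3 / 10)) (tbl tK x) (tbl tL x) (tbl (smT h0⁻¹ tC) x)) a b c 2 7 1 1)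
    (BA27_pp_001 hκ hx hx') (BA27_pp_011 hκ hx hx') (BA27_pp_012 hκ hx hx') (BA27_pp_022 hκ hx hx') (BA27_pp_023 hκ hx hx') (BA27_pp_033 hκ hx hx') (BA27_pp_101 hκ hx hx') (BA27_pp_102 hκ hx hx') (BA27_pp_112 hκ hx hx') (BA27_pp_113 hκ hx hx') (BA27_pp_123 hκ hx hx') (BA27_pp_133 hκ hx hx') (BA27_pp_202 hκ hx hx') (BA27_pp_203 hκ hx hx') (BA27_pp_213 hκ hx hx') (BA27_pp_303 hκ hx hx') (BA27_pp_313 hκ hx hx')
  pm := all17 (Q := fun a b c => TriA PP.cur (VE (h0 * 0) 3 κ (h0 * x) (eng.v x) (h0 * (3 / 40)) (tnt (h0 * x) (3 / 10)) (tbl tK x) (tbl tL x) (tbl (smT h0⁻¹ tC) x)) a b c 2 7 1 (-1))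
    (BA27_pm_001 hκ hx hx') (BA27_pm_011 hκ hx hx') (BA27_pm_012 hκ hx hx') (BA27_pm_022 hκ hx hx') (BA27_pm_023 hκ hx hx') (BA27_pm_033 hκ hx hx') (BA27_pm_101 hκ hx hx') (BA27_pm_102 hκ hx hx') (BA27_pm_112 hκ hx hx') (BA27_pm_113 hκ hx hx') (BA27_pm_123 hκ hx hx') (BA27_pm_133 hκ hx hx') (BA27_pm_202 hκ hx hx') (BA27_pm_203 hκ hx hx') (BA27_pm_213 hκ hx hx') (BA27_pm_303 hκ hx hx') (BA27_pm_313 hκ hx hx')
  mm := all17 (Q := fun a b c => TriA PP.cur (VE (h0 * 0) 3 κ (h0 * x) (eng.v x) (h0 * (3 / 40)) (tnt (h0 * x) (3 / 10)) (tbl tK x) (tbl tL x) (tbl (smT h0⁻¹ tC) x)) a b c 2 7 (-1) (-1))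
    (BA27_mm_001 hκ hx hx') (BA27_mm_011 hκ hx hx') (BA27_mm_012 hκ hx hx') (BA27_mm_022 hκ hx hx') (BA27_mm_023 hκ hx hx') (BA27_mm_033 hκ hx hx') (BA27_mm_101 hκ hx hx') (BA27_mm_102 hκ hx hx') (BA27_mm_112 hκ hx hx') (BA27_mm_113 hκ hx hx') (BA27_mm_123 hκ hx hx') (BA27_mm_133 hκ hx hx') (BA27_mm_202 hκ hx hx') (BA27_mm_203 hκ hx hx') (BA27_mm_213 hκ hx hx') (BA27_mm_303 hκ hx hx') (BA27_mm_313 hκ hx hx')

theorem BA33_pp_001 {κ x : ℝ} (hκ : κ * h0 = ken x) (hx : ((697932185 : ℕ) : ℝ) / S ≤ x) (hx' : x ≤ (((697932185 : ℕ) : ℝ) + (42949674 : ℕ)) / S) :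
    TriA PP.cur (VE (h0 * 0) 3 κ (h0 * x) (eng.v x) (h0 * (3 / 40)) (tnt (h0 * x) (3 / 10)) (tbl tK x) (tbl tL x) (tbl (smT h0⁻¹ tC) x)) 0 0 1 3 3 1 1 :=
  (sideB hx hx').bothA (thrB hx hx') (en_pos (hx1 hx).le) (Or.inl rfl) (Or.inl rfl) fun y y' F =>
    bothA_cert (s1 := true) (s2 := true) rfl hκ (en_pos (hx1 hx).le) (esg_rng (hx1 hx).le (hx2 hx').le).1 (mo_v x) covB30 covB30 hx hx'
        Pool.Agent.Strip051.G.I6500_6900.Tab.C.BA33.c_pp_001 noCut_EA noExt_EA F trivial trivial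

theorem BA33_pp_011 {κ x : ℝ} (hκ : κ * h0 = ken x) (hx : ((697932185 : ℕ) : ℝ) / S ≤ x) (hx' : x ≤ (((697932185 : ℕ) : ℝ) + (42949674 : ℕ)) / S) :
    TriA PP.cur (VE (h0 * 0) 3 κ (h0 * x) (eng.v x) (h0 * (3 / 40)) (tnt (h0 * x) (3 / 10)) (tbl tK x) (tbl tL x) (tbl (smT h0⁻¹ tC) x)) 0 1 1 3 3 1 1 :=
  (sideB hx hx').bothA (thrB hx hx') (en_pos (hx1 hx).le) (Or.inl rfl) (Or.inl rfl) fun y y' F =>
    bothA_cert (s1 := true) (s2 := true) rfl hκ (en_pos (hx1 hx).le) (esg_rng (hx1 hx).le (hx2 hx').le).1 (mo_v x) covB30 covB31 hx hx'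
        Pool.Agent.Strip051.G.I6500_6900.Tab.C.BA33.c_pp_011 noCut_EA noExt_EA F trivial trivial

theorem BA33_pp_012 {κ x : ℝ} (hκ : κ * h0 = ken x) (hx : ((697932185 : ℕ) : ℝ) / S ≤ x) (hx' : x ≤ (((697932185 : ℕ) : ℝ) + (42949674 : ℕ)) / S) :
    TriA PP.cur (VE (h0 * 0) 3 κ (h0 * x) (eng.v x) (h0 * (3 / 40)) (tnt (h0 * x) (3 / 10)) (tbl tK x) (tbl tL x) (tbl (smT h0⁻¹ tC) x)) 0 1 2 3 3 1 1 :=
  (sideB hx hx').bothA (thrB hx hx') (en_pos (hx1 hx).le) (Or.inl rfl) (Or.inl rfl) fun y y' F =>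
    bothA_cert (s1 := true) (s2 := true) rfl hκ (en_pos (hx1 hx).le) (esg_rng (hx1 hx).le (hx2 hx').le).1 (mo_v x) covB30 covB31 hx hx'
        Pool.Agent.Strip051.G.I6500_6900.Tab.C.BA33.c_pp_012 noCut_EA noExt_EA F trivial trivial

theorem BA33_pp_022 {κ x : ℝ} (hκ : κ * h0 = ken x) (hx : ((697932185 : ℕ) : ℝ) / S ≤ x) (hx' : x ≤ (((697932185 : ℕ) : ℝ) + (42949674 : ℕ)) / S) :
    TriA PP.cur (VE (h0 * 0) 3 κ (h0 * x) (eng.v x) (h0 * (3 / 40)) (tnt (h0 * x) (3 / 10)) (tbl tK x) (tbl tL x) (tbl (smT h0⁻¹ tC) x)) 0 2 2 3 3 1 1 :=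
  (sideB hx hx').bothA (thrB hx hx') (en_pos (hx1 hx).le) (Or.inl rfl) (Or.inl rfl) fun y y' F =>
    (lt_or_ge (h0 * y') 1).elim
      (fun g => bothA_cert (s1 := true) (s2 := true) rfl hκ (en_pos (hx1 hx).le) (esg_rng (hx1 hx).le (hx2 hx').le).1 (mo_v x) covB30 covB32a hx hx'
        Pool.Agent.Strip051.G.I6500_6900.Tab.C.BA33.c_pp_022_a (cutEA_cons (Pool.Agent.Strip051.G.I6500_6900.Tab.altB_A022L_33 hκ hx hx') cutEA_nil) noExt_EA F trivial g)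
      (fun g => bothA_cert (s1 := true) (s2 := true) rfl hκ (en_pos (hx1 hx).le) (esg_rng (hx1 hx).le (hx2 hx').le).1 (mo_v x) covB30 covB32b hx hx'
        Pool.Agent.Strip051.G.I6500_6900.Tab.C.BA33.c_pp_022_b (cutEA_cons (Pool.Agent.Strip051.G.I6500_6900.Tab.altB_A022L_33 hκ hx hx') cutEA_nil) noExt_EA F trivial g)

theorem BA33_pp_023 {κ x : ℝ} (hκ : κ * h0 = ken x) (hx : ((697932185 : ℕ) : ℝ) / S ≤ x) (hx' : x ≤ (((697932185 : ℕ) : ℝ) + (42949674 : ℕ)) / S) :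
    TriA PP.cur (VE (h0 * 0) 3 κ (h0 * x) (eng.v x) (h0 * (3 / 40)) (tnt (h0 * x) (3 / 10)) (tbl tK x) (tbl tL x) (tbl (smT h0⁻¹ tC) x)) 0 2 3 3 3 1 1 :=
  (sideB hx hx').bothA (thrB hx hx') (en_pos (hx1 hx).le) (Or.inl rfl) (Or.inl rfl) fun y y' F =>
    (lt_or_ge (h0 * y') 1).elim
      (fun g => bothA_cert (s1 := true) (s2 := true) rfl hκ (en_pos (hx1 hx).le) (esg_rng (hx1 hx).le (hx2 hx').le).1 (mo_v x) covB30 covB32a hx hx'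
        Pool.Agent.Strip051.G.I6500_6900.Tab.C.BA33.c_pp_023_a noCut_EA noExt_EA F trivial g)
      (fun g => bothA_cert (s1 := true) (s2 := true) rfl hκ (en_pos (hx1 hx).le) (esg_rng (hx1 hx).le (hx2 hx').le).1 (mo_v x) covB30 covB32b hx hx'
        Pool.Agent.Strip051.G.I6500_6900.Tab.C.BA33.c_pp_023_b noCut_EA noExt_EA F trivial g)

theorem BA33_pp_033 {κ x : ℝ} (hκ : κ * h0 = ken x) (hx : ((697932185 : ℕ) : ℝ) / S ≤ x) (hx' : x ≤ (((697932185 : ℕ) : ℝ) + (42949674 : ℕ)) / S) :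
    TriA PP.cur (VE (h0 * 0) 3 κ (h0 * x) (eng.v x) (h0 * (3 / 40)) (tnt (h0 * x) (3 / 10)) (tbl tK x) (tbl tL x) (tbl (smT h0⁻¹ tC) x)) 0 3 3 3 3 1 1 :=
  (sideB hx hx').bothA (thrB hx hx') (en_pos (hx1 hx).le) (Or.inl rfl) (Or.inl rfl) fun y y' F =>
    bothA_cert (s1 := true) (s2 := true) rfl hκ (en_pos (hx1 hx).le) (esg_rng (hx1 hx).le (hx2 hx').le).1 (mo_v x) covB30 covB33 hx hx'
        Pool.Agent.Strip051.G.I6500_6900.Tab.C.BA33.c_pp_033 noCut_EA noExt_EA F trivial trivial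

theorem BA33_pp_101 {κ x : ℝ} (hκ : κ * h0 = ken x) (hx : ((697932185 : ℕ) : ℝ) / S ≤ x) (hx' : x ≤ (((697932185 : ℕ) : ℝ) + (42949674 : ℕ)) / S) :
    TriA PP.cur (VE (h0 * 0) 3 κ (h0 * x) (eng.v x) (h0 * (3 / 40)) (tnt (h0 * x) (3 / 10)) (tbl tK x) (tbl tL x) (tbl (smT h0⁻¹ tC) x)) 1 0 1 3 3 1 1 :=
  (sideB hx hx').bothA (thrB hx hx') (en_pos (hx1 hx).le) (Or.inl rfl) (Or.inl rfl) fun y y' F =>
    bothA_cert (s1 := true) (s2 := true) rfl hκ (en_pos (hx1 hx).le) (esg_rng (hx1 hx).le (hx2 hx').le).1 (mo_v x) covB31 covB30 hx hx'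
        Pool.Agent.Strip051.G.I6500_6900.Tab.C.BA33.c_pp_101 noCut_EA noExt_EA F trivial trivial

theorem BA33_pp_102 {κ x : ℝ} (hκ : κ * h0 = ken x) (hx : ((697932185 : ℕ) : ℝ) / S ≤ x) (hx' : x ≤ (((697932185 : ℕ) : ℝ) + (42949674 : ℕ)) / S) :
    TriA PP.cur (VE (h0 * 0) 3 κ (h0 * x) (eng.v x) (h0 * (3 / 40)) (tnt (h0 * x) (3 / 10)) (tbl tK x) (tbl tL x) (tbl (smT h0⁻¹ tC) x)) 1 0 2 3 3 1 1 :=
  (sideB hx hx').bothA (thrB hx hx') (en_pos (hx1 hx).le) (Or.inl rfl) (Or.inl rfl) fun y y' F =>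
    bothA_cert (s1 := true) (s2 := true) rfl hκ (en_pos (hx1 hx).le) (esg_rng (hx1 hx).le (hx2 hx').le).1 (mo_v x) covB31 covB30 hx hx'
        Pool.Agent.Strip051.G.I6500_6900.Tab.C.BA33.c_pp_102 noCut_EA noExt_EA F trivial trivial

theorem BA33_pp_112 {κ x : ℝ} (hκ : κ * h0 = ken x) (hx : ((697932185 : ℕ) : ℝ) / S ≤ x) (hx' : x ≤ (((697932185 : ℕ) : ℝ) + (42949674 : ℕ)) / S) :
    TriA PP.cur (VE (h0 * 0) 3 κ (h0 * x) (eng.v x) (h0 * (3 / 40)) (tnt (h0 * x) (3 / 10)) (tbl tK x) (tbl tL x) (tbl (smT h0⁻¹ tC) x)) 1 1 2 3 3 1 1 :=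
  (sideB hx hx').bothA (thrB hx hx') (en_pos (hx1 hx).le) (Or.inl rfl) (Or.inl rfl) fun y y' F =>
    bothA_cert (s1 := true) (s2 := true) rfl hκ (en_pos (hx1 hx).le) (esg_rng (hx1 hx).le (hx2 hx').le).1 (mo_v x) covB31 covB31 hx hx'
        Pool.Agent.Strip051.G.I6500_6900.Tab.C.BA33.c_pp_112 noCut_EA noExt_EA F trivial trivial

theorem BA33_pp_113 {κ x : ℝ} (hκ : κ * h0 = ken x) (hx : ((697932185 : ℕ) : ℝ) / S ≤ x) (hx' : x ≤ (((697932185 : ℕ) : ℝ) + (42949674 : ℕ)) / S) :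
    TriA PP.cur (VE (h0 * 0) 3 κ (h0 * x) (eng.v x) (h0 * (3 / 40)) (tnt (h0 * x) (3 / 10)) (tbl tK x) (tbl tL x) (tbl (smT h0⁻¹ tC) x)) 1 1 3 3 3 1 1 :=
  (sideB hx hx').bothA (thrB hx hx') (en_pos (hx1 hx).le) (Or.inl rfl) (Or.inl rfl) fun y y' F =>
    bothA_cert (s1 := true) (s2 := true) rfl hκ (en_pos (hx1 hx).le) (esg_rng (hx1 hx).le (hx2 hx').le).1 (mo_v x) covB31 covB31 hx hx'
        Pool.Agent.Strip051.G.I6500_6900.Tab.C.BA33.c_pp_113 noCut_EA noExt_EA F trivial trivial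

theorem BA33_pp_123 {κ x : ℝ} (hκ : κ * h0 = ken x) (hx : ((697932185 : ℕ) : ℝ) / S ≤ x) (hx' : x ≤ (((697932185 : ℕ) : ℝ) + (42949674 : ℕ)) / S) :
    TriA PP.cur (VE (h0 * 0) 3 κ (h0 * x) (eng.v x) (h0 * (3 / 40)) (tnt (h0 * x) (3 / 10)) (tbl tK x) (tbl tL x) (tbl (smT h0⁻¹ tC) x)) 1 2 3 3 3 1 1 :=
  (sideB hx hx').bothA (thrB hx hx') (en_pos (hx1 hx).le) (Or.inl rfl) (Or.inl rfl) fun y y' F =>
    (lt_or_ge (h0 * y') 1).elim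
      (fun g => bothA_cert (s1 := true) (s2 := true) rfl hκ (en_pos (hx1 hx).le) (esg_rng (hx1 hx).le (hx2 hx').le).1 (mo_v x) covB31 covB32a hx hx'
        Pool.Agent.Strip051.G.I6500_6900.Tab.C.BA33.c_pp_123_a noCut_EA noExt_EA F trivial g)
      (fun g => bothA_cert (s1 := true) (s2 := true) rfl hκ (en_pos (hx1 hx).le) (esg_rng (hx1 hx).le (hx2 hx').le).1 (mo_v x) covB31 covB32b hx hx'
        Pool.Agent.Strip051.G.I6500_6900.Tab.C.BA33.c_pp_123_b noCut_EA noExt_EA F trivial g)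

theorem BA33_pp_133 {κ x : ℝ} (hκ : κ * h0 = ken x) (hx : ((697932185 : ℕ) : ℝ) / S ≤ x) (hx' : x ≤ (((697932185 : ℕ) : ℝ) + (42949674 : ℕ)) / S) :
    TriA PP.cur (VE (h0 * 0) 3 κ (h0 * x) (eng.v x) (h0 * (3 / 40)) (tnt (h0 * x) (3 / 10)) (tbl tK x) (tbl tL x) (tbl (smT h0⁻¹ tC) x)) 1 3 3 3 3 1 1 :=
  (sideB hx hx').bothA (thrB hx hx') (en_pos (hx1 hx).le) (Or.inl rfl) (Or.inl rfl) fun y y' F =>
    bothA_cert (s1 := true) (s2 := true) rfl hκ (en_pos (hx1 hx).le) (esg_rng (hx1 hx).le (hx2 hx').le).1 (mo_v x) covB31 covB33 hx hx'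
        Pool.Agent.Strip051.G.I6500_6900.Tab.C.BA33.c_pp_133 noCut_EA noExt_EA F trivial trivial

theorem BA33_pp_202 {κ x : ℝ} (hκ : κ * h0 = ken x) (hx : ((697932185 : ℕ) : ℝ) / S ≤ x) (hx' : x ≤ (((697932185 : ℕ) : ℝ) + (42949674 : ℕ)) / S) :
    TriA PP.cur (VE (h0 * 0) 3 κ (h0 * x) (eng.v x) (h0 * (3 / 40)) (tnt (h0 * x) (3 / 10)) (tbl tK x) (tbl tL x) (tbl (smT h0⁻¹ tC) x)) 2 0 2 3 3 1 1 :=
  (sideB hx hx').bothA (thrB hx hx') (en_pos (hx1 hx).le) (Or.inl rfl) (Or.inl rfl) fun y y' F =>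
    (lt_or_ge (h0 * y) 1).elim
      (fun h => bothA_cert (s1 := true) (s2 := true) rfl hκ (en_pos (hx1 hx).le) (esg_rng (hx1 hx).le (hx2 hx').le).1 (mo_v x) covB32a covB30 hx hx'
        Pool.Agent.Strip051.G.I6500_6900.Tab.C.BA33.c_pp_202_a noCut_EA noExt_EA F h trivial)
      (fun h => bothA_cert (s1 := true) (s2 := true) rfl hκ (en_pos (hx1 hx).le) (esg_rng (hx1 hx).le (hx2 hx').le).1 (mo_v x) covB32b covB30 hx hx'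
        Pool.Agent.Strip051.G.I6500_6900.Tab.C.BA33.c_pp_202_b noCut_EA noExt_EA F h trivial)

theorem BA33_pp_203 {κ x : ℝ} (hκ : κ * h0 = ken x) (hx : ((697932185 : ℕ) : ℝ) / S ≤ x) (hx' : x ≤ (((697932185 : ℕ) : ℝ) + (42949674 : ℕ)) / S) :
    TriA PP.cur (VE (h0 * 0) 3 κ (h0 * x) (eng.v x) (h0 * (3 / 40)) (tnt (h0 * x) (3 / 10)) (tbl tK x) (tbl tL x) (tbl (smT h0⁻¹ tC) x)) 2 0 3 3 3 1 1 :=
  (sideB hx hx').bothA (thrB hx hx') (en_pos (hx1 hx).le) (Or.inl rfl) (Or.inl rfl) fun y y' F =>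
    (lt_or_ge (h0 * y) 1).elim
      (fun h => bothA_cert (s1 := true) (s2 := true) rfl hκ (en_pos (hx1 hx).le) (esg_rng (hx1 hx).le (hx2 hx').le).1 (mo_v x) covB32a covB30 hx hx'
        Pool.Agent.Strip051.G.I6500_6900.Tab.C.BA33.c_pp_203_a noCut_EA noExt_EA F h trivial)
      (fun h => bothA_cert (s1 := true) (s2 := true) rfl hκ (en_pos (hx1 hx).le) (esg_rng (hx1 hx).le (hx2 hx').le).1 (mo_v x) covB32b covB30 hx hx'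
        Pool.Agent.Strip051.G.I6500_6900.Tab.C.BA33.c_pp_203_b noCut_EA noExt_EA F h trivial)

theorem BA33_pp_213 {κ x : ℝ} (hκ : κ * h0 = ken x) (hx : ((697932185 : ℕ) : ℝ) / S ≤ x) (hx' : x ≤ (((697932185 : ℕ) : ℝ) + (42949674 : ℕ)) / S) :
    TriA PP.cur (VE (h0 * 0) 3 κ (h0 * x) (eng.v x) (h0 * (3 / 40)) (tnt (h0 * x) (3 / 10)) (tbl tK x) (tbl tL x) (tbl (smT h0⁻¹ tC) x)) 2 1 3 3 3 1 1 :=
  (sideB hx hx').bothA (thrB hx hx') (en_pos (hx1 hx).le) (Or.inl rfl) (Or.inl rfl) fun y y' F =>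
    (lt_or_ge (h0 * y) 1).elim
      (fun h => bothA_cert (s1 := true) (s2 := true) rfl hκ (en_pos (hx1 hx).le) (esg_rng (hx1 hx).le (hx2 hx').le).1 (mo_v x) covB32a covB31 hx hx'
        Pool.Agent.Strip051.G.I6500_6900.Tab.C.BA33.c_pp_213_a noCut_EA noExt_EA F h trivial)
      (fun h => bothA_cert (s1 := true) (s2 := true) rfl hκ (en_pos (hx1 hx).le) (esg_rng (hx1 hx).le (hx2 hx').le).1 (mo_v x) covB32b covB31 hx hx'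
        Pool.Agent.Strip051.G.I6500_6900.Tab.C.BA33.c_pp_213_b noCut_EA noExt_EA F h trivial)

theorem BA33_pp_303 {κ x : ℝ} (hκ : κ * h0 = ken x) (hx : ((697932185 : ℕ) : ℝ) / S ≤ x) (hx' : x ≤ (((697932185 : ℕ) : ℝ) + (42949674 : ℕ)) / S) :
    TriA PP.cur (VE (h0 * 0) 3 κ (h0 * x) (eng.v x) (h0 * (3 / 40)) (tnt (h0 * x) (3 / 10)) (tbl tK x) (tbl tL x) (tbl (smT h0⁻¹ tC) x)) 3 0 3 3 3 1 1 :=
  (sideB hx hx').bothA (thrB hx hx') (en_pos (hx1 hx).le) (Or.inl rfl) (Or.inl rfl) fun y y' F =>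
    bothA_cert (s1 := true) (s2 := true) rfl hκ (en_pos (hx1 hx).le) (esg_rng (hx1 hx).le (hx2 hx').le).1 (mo_v x) covB33 covB30 hx hx'
        Pool.Agent.Strip051.G.I6500_6900.Tab.C.BA33.c_pp_303 noCut_EA noExt_EA F trivial trivial

theorem BA33_pp_313 {κ x : ℝ} (hκ : κ * h0 = ken x) (hx : ((697932185 : ℕ) : ℝ) / S ≤ x) (hx' : x ≤ (((697932185 : ℕ) : ℝ) + (42949674 : ℕ)) / S) :
    TriA PP.cur (VE (h0 * 0) 3 κ (h0 * x) (eng.v x) (h0 * (3 / 40)) (tnt (h0 * x) (3 / 10)) (tbl tK x) (tbl tL x) (tbl (smT h0⁻¹ tC) x)) 3 1 3 3 3 1 1 :=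
  (sideB hx hx').bothA (thrB hx hx') (en_pos (hx1 hx).le) (Or.inl rfl) (Or.inl rfl) fun y y' F =>
    bothA_cert (s1 := true) (s2 := true) rfl hκ (en_pos (hx1 hx).le) (esg_rng (hx1 hx).le (hx2 hx').le).1 (mo_v x) covB33 covB31 hx hx'
        Pool.Agent.Strip051.G.I6500_6900.Tab.C.BA33.c_pp_313 noCut_EA noExt_EA F trivial trivial

theorem BA33_pm_001 {κ x : ℝ} (hκ : κ * h0 = ken x) (hx : ((697932185 : ℕ) : ℝ) / S ≤ x) (hx' : x ≤ (((697932185 : ℕ) : ℝ) + (42949674 : ℕ)) / S) :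
    TriA PP.cur (VE (h0 * 0) 3 κ (h0 * x) (eng.v x) (h0 * (3 / 40)) (tnt (h0 * x) (3 / 10)) (tbl tK x) (tbl tL x) (tbl (smT h0⁻¹ tC) x)) 0 0 1 3 3 1 (-1) :=
  (sideB hx hx').bothA (thrB hx hx') (en_pos (hx1 hx).le) (Or.inl rfl) (Or.inr rfl) fun y y' F =>
    bothA_cert (s1 := true) (s2 := false) rfl hκ (en_pos (hx1 hx).le) (esg_rng (hx1 hx).le (hx2 hx').le).1 (mo_v x) covB30 covB30 hx hx'
        Pool.Agent.Strip051.G.I6500_6900.Tab.C.BA33.c_pm_001 noCut_EA noExt_EA F trivial trivial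

theorem BA33_pm_011 {κ x : ℝ} (hκ : κ * h0 = ken x) (hx : ((697932185 : ℕ) : ℝ) / S ≤ x) (hx' : x ≤ (((697932185 : ℕ) : ℝ) + (42949674 : ℕ)) / S) :
    TriA PP.cur (VE (h0 * 0) 3 κ (h0 * x) (eng.v x) (h0 * (3 / 40)) (tnt (h0 * x) (3 / 10)) (tbl tK x) (tbl tL x) (tbl (smT h0⁻¹ tC) x)) 0 1 1 3 3 1 (-1) :=
  (sideB hx hx').bothA (thrB hx hx') (en_pos (hx1 hx).le) (Or.inl rfl) (Or.inr rfl) fun y y' F =>
    bothA_cert (s1 := true) (s2 := false) rfl hκ (en_pos (hx1 hx).le) (esg_rng (hx1 hx).le (hx2 hx').le).1 (mo_v x) covB30 covB31 hx hx'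
        Pool.Agent.Strip051.G.I6500_6900.Tab.C.BA33.c_pm_011 noCut_EA noExt_EA F trivial trivial

theorem BA33_pm_012 {κ x : ℝ} (hκ : κ * h0 = ken x) (hx : ((697932185 : ℕ) : ℝ) / S ≤ x) (hx' : x ≤ (((697932185 : ℕ) : ℝ) + (42949674 : ℕ)) / S) :
    TriA PP.cur (VE (h0 * 0) 3 κ (h0 * x) (eng.v x) (h0 * (3 / 40)) (tnt (h0 * x) (3 / 10)) (tbl tK x) (tbl tL x) (tbl (smT h0⁻¹ tC) x)) 0 1 2 3 3 1 (-1) :=
  (sideB hx hx').bothA (thrB hx hx') (en_pos (hx1 hx).le) (Or.inl rfl) (Or.inr rfl) fun y y' F =>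
    bothA_cert (s1 := true) (s2 := false) rfl hκ (en_pos (hx1 hx).le) (esg_rng (hx1 hx).le (hx2 hx').le).1 (mo_v x) covB30 covB31 hx hx'
        Pool.Agent.Strip051.G.I6500_6900.Tab.C.BA33.c_pm_012 noCut_EA noExt_EA F trivial trivial

theorem BA33_pm_022 {κ x : ℝ} (hκ : κ * h0 = ken x) (hx : ((697932185 : ℕ) : ℝ) / S ≤ x) (hx' : x ≤ (((697932185 : ℕ) : ℝ) + (42949674 : ℕ)) / S) :
    TriA PP.cur (VE (h0 * 0) 3 κ (h0 * x) (eng.v x) (h0 * (3 / 40)) (tnt (h0 * x) (3 / 10)) (tbl tK x) (tbl tL x) (tbl (smT h0⁻¹ tC) x)) 0 2 2 3 3 1 (-1) :=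
  (sideB hx hx').bothA (thrB hx hx') (en_pos (hx1 hx).le) (Or.inl rfl) (Or.inr rfl) fun y y' F =>
    (lt_or_ge (h0 * y') 1).elim
      (fun g => bothA_cert (s1 := true) (s2 := false) rfl hκ (en_pos (hx1 hx).le) (esg_rng (hx1 hx).le (hx2 hx').le).1 (mo_v x) covB30 covB32a hx hx'
        Pool.Agent.Strip051.G.I6500_6900.Tab.C.BA33.c_pm_022_a (cutEA_cons (Pool.Agent.Strip051.G.I6500_6900.Tab.altB_A022E_33 hκ hx hx') cutEA_nil) noExt_EA F trivial g)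
      (fun g => bothA_cert (s1 := true) (s2 := false) rfl hκ (en_pos (hx1 hx).le) (esg_rng (hx1 hx).le (hx2 hx').le).1 (mo_v x) covB30 covB32b hx hx'
        Pool.Agent.Strip051.G.I6500_6900.Tab.C.BA33.c_pm_022_b (cutEA_cons (Pool.Agent.Strip051.G.I6500_6900.Tab.altB_A022E_33 hκ hx hx') cutEA_nil) noExt_EA F trivial g)

theorem BA33_pm_023 {κ x : ℝ} (hκ : κ * h0 = ken x) (hx : ((697932185 : ℕ) : ℝ) / S ≤ x) (hx' : x ≤ (((697932185 : ℕ) : ℝ) + (42949674 : ℕ)) / S) :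
    TriA PP.cur (VE (h0 * 0) 3 κ (h0 * x) (eng.v x) (h0 * (3 / 40)) (tnt (h0 * x) (3 / 10)) (tbl tK x) (tbl tL x) (tbl (smT h0⁻¹ tC) x)) 0 2 3 3 3 1 (-1) :=
  (sideB hx hx').bothA (thrB hx hx') (en_pos (hx1 hx).le) (Or.inl rfl) (Or.inr rfl) fun y y' F =>
    (lt_or_ge (h0 * y') 1).elim
      (fun g => bothA_cert (s1 := true) (s2 := false) rfl hκ (en_pos (hx1 hx).le) (esg_rng (hx1 hx).le (hx2 hx').le).1 (mo_v x) covB30 covB32a hx hx'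
        Pool.Agent.Strip051.G.I6500_6900.Tab.C.BA33.c_pm_023_a noCut_EA noExt_EA F trivial g)
      (fun g => bothA_cert (s1 := true) (s2 := false) rfl hκ (en_pos (hx1 hx).le) (esg_rng (hx1 hx).le (hx2 hx').le).1 (mo_v x) covB30 covB32b hx hx'
        Pool.Agent.Strip051.G.I6500_6900.Tab.C.BA33.c_pm_023_b noCut_EA noExt_EA F trivial g)

theorem BA33_pm_033 {κ x : ℝ} (hκ : κ * h0 = ken x) (hx : ((697932185 : ℕ) : ℝ) / S ≤ x) (hx' : x ≤ (((697932185 : ℕ) : ℝ) + (42949674 : ℕ)) / S) :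
    TriA PP.cur (VE (h0 * 0) 3 κ (h0 * x) (eng.v x) (h0 * (3 / 40)) (tnt (h0 * x) (3 / 10)) (tbl tK x) (tbl tL x) (tbl (smT h0⁻¹ tC) x)) 0 3 3 3 3 1 (-1) :=
  (sideB hx hx').bothA (thrB hx hx') (en_pos (hx1 hx).le) (Or.inl rfl) (Or.inr rfl) fun y y' F =>
    bothA_cert (s1 := true) (s2 := false) rfl hκ (en_pos (hx1 hx).le) (esg_rng (hx1 hx).le (hx2 hx').le).1 (mo_v x) covB30 covB33 hx hx'
        Pool.Agent.Strip051.G.I6500_6900.Tab.C.BA33.c_pm_033 noCut_EA noExt_EA F trivial trivial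

theorem BA33_pm_101 {κ x : ℝ} (hκ : κ * h0 = ken x) (hx : ((697932185 : ℕ) : ℝ) / S ≤ x) (hx' : x ≤ (((697932185 : ℕ) : ℝ) + (42949674 : ℕ)) / S) :
    TriA PP.cur (VE (h0 * 0) 3 κ (h0 * x) (eng.v x) (h0 * (3 / 40)) (tnt (h0 * x) (3 / 10)) (tbl tK x) (tbl tL x) (tbl (smT h0⁻¹ tC) x)) 1 0 1 3 3 1 (-1) :=
  (sideB hx hx').bothA (thrB hx hx') (en_pos (hx1 hx).le) (Or.inl rfl) (Or.inr rfl) fun y y' F =>
    bothA_cert (s1 := true) (s2 := false) rfl hκ (en_pos (hx1 hx).le) (esg_rng (hx1 hx).le (hx2 hx').le).1 (mo_v x) covB31 covB30 hx hx'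
        Pool.Agent.Strip051.G.I6500_6900.Tab.C.BA33.c_pm_101 noCut_EA noExt_EA F trivial trivial

theorem BA33_pm_102 {κ x : ℝ} (hκ : κ * h0 = ken x) (hx : ((697932185 : ℕ) : ℝ) / S ≤ x) (hx' : x ≤ (((697932185 : ℕ) : ℝ) + (42949674 : ℕ)) / S) :
    TriA PP.cur (VE (h0 * 0) 3 κ (h0 * x) (eng.v x) (h0 * (3 / 40)) (tnt (h0 * x) (3 / 10)) (tbl tK x) (tbl tL x) (tbl (smT h0⁻¹ tC) x)) 1 0 2 3 3 1 (-1) :=
  (sideB hx hx').bothA (thrB hx hx') (en_pos (hx1 hx).le) (Or.inl rfl) (Or.inr rfl) fun y y' F =>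
    bothA_cert (s1 := true) (s2 := false) rfl hκ (en_pos (hx1 hx).le) (esg_rng (hx1 hx).le (hx2 hx').le).1 (mo_v x) covB31 covB30 hx hx'
        Pool.Agent.Strip051.G.I6500_6900.Tab.C.BA33.c_pm_102 noCut_EA noExt_EA F trivial trivial

theorem BA33_pm_112 {κ x : ℝ} (hκ : κ * h0 = ken x) (hx : ((697932185 : ℕ) : ℝ) / S ≤ x) (hx' : x ≤ (((697932185 : ℕ) : ℝ) + (42949674 : ℕ)) / S) :
    TriA PP.cur (VE (h0 * 0) 3 κ (h0 * x) (eng.v x) (h0 * (3 / 40)) (tnt (h0 * x) (3 / 10)) (tbl tK x) (tbl tL x) (tbl (smT h0⁻¹ tC) x)) 1 1 2 3 3 1 (-1) :=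
  (sideB hx hx').bothA (thrB hx hx') (en_pos (hx1 hx).le) (Or.inl rfl) (Or.inr rfl) fun y y' F =>
    bothA_cert (s1 := true) (s2 := false) rfl hκ (en_pos (hx1 hx).le) (esg_rng (hx1 hx).le (hx2 hx').le).1 (mo_v x) covB31 covB31 hx hx'
        Pool.Agent.Strip051.G.I6500_6900.Tab.C.BA33.c_pm_112 noCut_EA noExt_EA F trivial trivial

theorem BA33_pm_113 {κ x : ℝ} (hκ : κ * h0 = ken x) (hx : ((697932185 : ℕ) : ℝ) / S ≤ x) (hx' : x ≤ (((697932185 : ℕ) : ℝ) + (42949674 : ℕ)) / S) :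
    TriA PP.cur (VE (h0 * 0) 3 κ (h0 * x) (eng.v x) (h0 * (3 / 40)) (tnt (h0 * x) (3 / 10)) (tbl tK x) (tbl tL x) (tbl (smT h0⁻¹ tC) x)) 1 1 3 3 3 1 (-1) :=
  (sideB hx hx').bothA (thrB hx hx') (en_pos (hx1 hx).le) (Or.inl rfl) (Or.inr rfl) fun y y' F =>
    bothA_cert (s1 := true) (s2 := false) rfl hκ (en_pos (hx1 hx).le) (esg_rng (hx1 hx).le (hx2 hx').le).1 (mo_v x) covB31 covB31 hx hx'
        Pool.Agent.Strip051.G.I6500_6900.Tab.C.BA33.c_pm_113 noCut_EA noExt_EA F trivial trivial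

theorem BA33_pm_123 {κ x : ℝ} (hκ : κ * h0 = ken x) (hx : ((697932185 : ℕ) : ℝ) / S ≤ x) (hx' : x ≤ (((697932185 : ℕ) : ℝ) + (42949674 : ℕ)) / S) :
    TriA PP.cur (VE (h0 * 0) 3 κ (h0 * x) (eng.v x) (h0 * (3 / 40)) (tnt (h0 * x) (3 / 10)) (tbl tK x) (tbl tL x) (tbl (smT h0⁻¹ tC) x)) 1 2 3 3 3 1 (-1) :=
  (sideB hx hx').bothA (thrB hx hx') (en_pos (hx1 hx).le) (Or.inl rfl) (Or.inr rfl) fun y y' F =>
    (lt_or_ge (h0 * y') 1).elim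
      (fun g => bothA_cert (s1 := true) (s2 := false) rfl hκ (en_pos (hx1 hx).le) (esg_rng (hx1 hx).le (hx2 hx').le).1 (mo_v x) covB31 covB32a hx hx'
        Pool.Agent.Strip051.G.I6500_6900.Tab.C.BA33.c_pm_123_a noCut_EA noExt_EA F trivial g)
      (fun g => bothA_cert (s1 := true) (s2 := false) rfl hκ (en_pos (hx1 hx).le) (esg_rng (hx1 hx).le (hx2 hx').le).1 (mo_v x) covB31 covB32b hx hx'
        Pool.Agent.Strip051.G.I6500_6900.Tab.C.BA33.c_pm_123_b noCut_EA noExt_EA F trivial g)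

theorem BA33_pm_133 {κ x : ℝ} (hκ : κ * h0 = ken x) (hx : ((697932185 : ℕ) : ℝ) / S ≤ x) (hx' : x ≤ (((697932185 : ℕ) : ℝ) + (42949674 : ℕ)) / S) :
    TriA PP.cur (VE (h0 * 0) 3 κ (h0 * x) (eng.v x) (h0 * (3 / 40)) (tnt (h0 * x) (3 / 10)) (tbl tK x) (tbl tL x) (tbl (smT h0⁻¹ tC) x)) 1 3 3 3 3 1 (-1) :=
  (sideB hx hx').bothA (thrB hx hx') (en_pos (hx1 hx).le) (Or.inl rfl) (Or.inr rfl) fun y y' F =>
    bothA_cert (s1 := true) (s2 := false) rfl hκ (en_pos (hx1 hx).le) (esg_rng (hx1 hx).le (hx2 hx').le).1 (mo_v x) covB31 covB33 hx hx'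
        Pool.Agent.Strip051.G.I6500_6900.Tab.C.BA33.c_pm_133 noCut_EA noExt_EA F trivial trivial

theorem BA33_pm_202 {κ x : ℝ} (hκ : κ * h0 = ken x) (hx : ((697932185 : ℕ) : ℝ) / S ≤ x) (hx' : x ≤ (((697932185 : ℕ) : ℝ) + (42949674 : ℕ)) / S) :
    TriA PP.cur (VE (h0 * 0) 3 κ (h0 * x) (eng.v x) (h0 * (3 / 40)) (tnt (h0 * x) (3 / 10)) (tbl tK x) (tbl tL x) (tbl (smT h0⁻¹ tC) x)) 2 0 2 3 3 1 (-1) :=
  (sideB hx hx').bothA (thrB hx hx') (en_pos (hx1 hx).le) (Or.inl rfl) (Or.inr rfl) fun y y' F =>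
    (lt_or_ge (h0 * y) 1).elim
      (fun h => bothA_cert (s1 := true) (s2 := false) rfl hκ (en_pos (hx1 hx).le) (esg_rng (hx1 hx).le (hx2 hx').le).1 (mo_v x) covB32a covB30 hx hx'
        Pool.Agent.Strip051.G.I6500_6900.Tab.C.BA33.c_pm_202_a (cutEA_cons (Pool.Agent.Strip051.G.I6500_6900.Tab.altB_A202E_33 hκ hx hx') cutEA_nil) noExt_EA F h trivial)
      (fun h => bothA_cert (s1 := true) (s2 := false) rfl hκ (en_pos (hx1 hx).le) (esg_rng (hx1 hx).le (hx2 hx').le).1 (mo_v x) covB32b covB30 hx hx'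
        Pool.Agent.Strip051.G.I6500_6900.Tab.C.BA33.c_pm_202_b (cutEA_cons (Pool.Agent.Strip051.G.I6500_6900.Tab.altB_A202E_33 hκ hx hx') cutEA_nil) noExt_EA F h trivial)

theorem BA33_pm_203 {κ x : ℝ} (hκ : κ * h0 = ken x) (hx : ((697932185 : ℕ) : ℝ) / S ≤ x) (hx' : x ≤ (((697932185 : ℕ) : ℝ) + (42949674 : ℕ)) / S) :
    TriA PP.cur (VE (h0 * 0) 3 κ (h0 * x) (eng.v x) (h0 * (3 / 40)) (tnt (h0 * x) (3 / 10)) (tbl tK x) (tbl tL x) (tbl (smT h0⁻¹ tC) x)) 2 0 3 3 3 1 (-1) :=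
  (sideB hx hx').bothA (thrB hx hx') (en_pos (hx1 hx).le) (Or.inl rfl) (Or.inr rfl) fun y y' F =>
    (lt_or_ge (h0 * y) 1).elim
      (fun h => bothA_cert (s1 := true) (s2 := false) rfl hκ (en_pos (hx1 hx).le) (esg_rng (hx1 hx).le (hx2 hx').le).1 (mo_v x) covB32a covB30 hx hx'
        Pool.Agent.Strip051.G.I6500_6900.Tab.C.BA33.c_pm_203_a noCut_EA noExt_EA F h trivial)
      (fun h => bothA_cert (s1 := true) (s2 := false) rfl hκ (en_pos (hx1 hx).le) (esg_rng (hx1 hx).le (hx2 hx').le).1 (mo_v x) covB32b covB30 hx hx'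
        Pool.Agent.Strip051.G.I6500_6900.Tab.C.BA33.c_pm_203_b noCut_EA noExt_EA F h trivial)

theorem BA33_pm_213 {κ x : ℝ} (hκ : κ * h0 = ken x) (hx : ((697932185 : ℕ) : ℝ) / S ≤ x) (hx' : x ≤ (((697932185 : ℕ) : ℝ) + (42949674 : ℕ)) / S) :
    TriA PP.cur (VE (h0 * 0) 3 κ (h0 * x) (eng.v x) (h0 * (3 / 40)) (tnt (h0 * x) (3 / 10)) (tbl tK x) (tbl tL x) (tbl (smT h0⁻¹ tC) x)) 2 1 3 3 3 1 (-1) :=
  (sideB hx hx').bothA (thrB hx hx') (en_pos (hx1 hx).le) (Or.inl rfl) (Or.inr rfl) fun y y' F =>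
    (lt_or_ge (h0 * y) 1).elim
      (fun h => bothA_cert (s1 := true) (s2 := false) rfl hκ (en_pos (hx1 hx).le) (esg_rng (hx1 hx).le (hx2 hx').le).1 (mo_v x) covB32a covB31 hx hx'
        Pool.Agent.Strip051.G.I6500_6900.Tab.C.BA33.c_pm_213_a noCut_EA noExt_EA F h trivial)
      (fun h => bothA_cert (s1 := true) (s2 := false) rfl hκ (en_pos (hx1 hx).le) (esg_rng (hx1 hx).le (hx2 hx').le).1 (mo_v x) covB32b covB31 hx hx'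
        Pool.Agent.Strip051.G.I6500_6900.Tab.C.BA33.c_pm_213_b noCut_EA noExt_EA F h trivial)

theorem BA33_pm_303 {κ x : ℝ} (hκ : κ * h0 = ken x) (hx : ((697932185 : ℕ) : ℝ) / S ≤ x) (hx' : x ≤ (((697932185 : ℕ) : ℝ) + (42949674 : ℕ)) / S) :
    TriA PP.cur (VE (h0 * 0) 3 κ (h0 * x) (eng.v x) (h0 * (3 / 40)) (tnt (h0 * x) (3 / 10)) (tbl tK x) (tbl tL x) (tbl (smT h0⁻¹ tC) x)) 3 0 3 3 3 1 (-1) :=
  (sideB hx hx').bothA (thrB hx hx') (en_pos (hx1 hx).le) (Or.inl rfl) (Or.inr rfl) fun y y' F =>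
    bothA_cert (s1 := true) (s2 := false) rfl hκ (en_pos (hx1 hx).le) (esg_rng (hx1 hx).le (hx2 hx').le).1 (mo_v x) covB33 covB30 hx hx'
        Pool.Agent.Strip051.G.I6500_6900.Tab.C.BA33.c_pm_303 noCut_EA noExt_EA F trivial trivial

theorem BA33_pm_313 {κ x : ℝ} (hκ : κ * h0 = ken x) (hx : ((697932185 : ℕ) : ℝ) / S ≤ x) (hx' : x ≤ (((697932185 : ℕ) : ℝ) + (42949674 : ℕ)) / S) :
    TriA PP.cur (VE (h0 * 0) 3 κ (h0 * x) (eng.v x) (h0 * (3 / 40)) (tnt (h0 * x) (3 / 10)) (tbl tK x) (tbl tL x) (tbl (smT h0⁻¹ tC) x)) 3 1 3 3 3 1 (-1) :=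
  (sideB hx hx').bothA (thrB hx hx') (en_pos (hx1 hx).le) (Or.inl rfl) (Or.inr rfl) fun y y' F =>
    bothA_cert (s1 := true) (s2 := false) rfl hκ (en_pos (hx1 hx).le) (esg_rng (hx1 hx).le (hx2 hx').le).1 (mo_v x) covB33 covB31 hx hx'
        Pool.Agent.Strip051.G.I6500_6900.Tab.C.BA33.c_pm_313 noCut_EA noExt_EA F trivial trivial

theorem BA33_mm_001 {κ x : ℝ} (hκ : κ * h0 = ken x) (hx : ((697932185 : ℕ) : ℝ) / S ≤ x) (hx' : x ≤ (((697932185 : ℕ) : ℝ) + (42949674 : ℕ)) / S) :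
    TriA PP.cur (VE (h0 * 0) 3 κ (h0 * x) (eng.v x) (h0 * (3 / 40)) (tnt (h0 * x) (3 / 10)) (tbl tK x) (tbl tL x) (tbl (smT h0⁻¹ tC) x)) 0 0 1 3 3 (-1) (-1) :=
  (sideB hx hx').bothA (thrB hx hx') (en_pos (hx1 hx).le) (Or.inr rfl) (Or.inr rfl) fun y y' F =>
    bothA_cert (s1 := false) (s2 := false) rfl hκ (en_pos (hx1 hx).le) (esg_rng (hx1 hx).le (hx2 hx').le).1 (mo_v x) covB30 covB30 hx hx'
        Pool.Agent.Strip051.G.I6500_6900.Tab.C.BA33.c_mm_001 noCut_EA noExt_EA F trivial trivial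

theorem BA33_mm_011 {κ x : ℝ} (hκ : κ * h0 = ken x) (hx : ((697932185 : ℕ) : ℝ) / S ≤ x) (hx' : x ≤ (((697932185 : ℕ) : ℝ) + (42949674 : ℕ)) / S) :
    TriA PP.cur (VE (h0 * 0) 3 κ (h0 * x) (eng.v x) (h0 * (3 / 40)) (tnt (h0 * x) (3 / 10)) (tbl tK x) (tbl tL x) (tbl (smT h0⁻¹ tC) x)) 0 1 1 3 3 (-1) (-1) :=
  (sideB hx hx').bothA (thrB hx hx') (en_pos (hx1 hx).le) (Or.inr rfl) (Or.inr rfl) fun y y' F =>
    bothA_cert (s1 := false) (s2 := false) rfl hκ (en_pos (hx1 hx).le) (esg_rng (hx1 hx).le (hx2 hx').le).1 (mo_v x) covB30 covB31 hx hx'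
        Pool.Agent.Strip051.G.I6500_6900.Tab.C.BA33.c_mm_011 noCut_EA noExt_EA F trivial trivial

theorem BA33_mm_012 {κ x : ℝ} (hκ : κ * h0 = ken x) (hx : ((697932185 : ℕ) : ℝ) / S ≤ x) (hx' : x ≤ (((697932185 : ℕ) : ℝ) + (42949674 : ℕ)) / S) :
    TriA PP.cur (VE (h0 * 0) 3 κ (h0 * x) (eng.v x) (h0 * (3 / 40)) (tnt (h0 * x) (3 / 10)) (tbl tK x) (tbl tL x) (tbl (smT h0⁻¹ tC) x)) 0 1 2 3 3 (-1) (-1) :=
  (sideB hx hx').bothA (thrB hx hx') (en_pos (hx1 hx).le) (Or.inr rfl) (Or.inr rfl) fun y y' F =>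
    bothA_cert (s1 := false) (s2 := false) rfl hκ (en_pos (hx1 hx).le) (esg_rng (hx1 hx).le (hx2 hx').le).1 (mo_v x) covB30 covB31 hx hx'
        Pool.Agent.Strip051.G.I6500_6900.Tab.C.BA33.c_mm_012 noCut_EA noExt_EA F trivial trivial

theorem BA33_mm_022 {κ x : ℝ} (hκ : κ * h0 = ken x) (hx : ((697932185 : ℕ) : ℝ) / S ≤ x) (hx' : x ≤ (((697932185 : ℕ) : ℝ) + (42949674 : ℕ)) / S) :
    TriA PP.cur (VE (h0 * 0) 3 κ (h0 * x) (eng.v x) (h0 * (3 / 40)) (tnt (h0 * x) (3 / 10)) (tbl tK x) (tbl tL x) (tbl (smT h0⁻¹ tC) x)) 0 2 2 3 3 (-1) (-1) :=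
  (sideB hx hx').bothA (thrB hx hx') (en_pos (hx1 hx).le) (Or.inr rfl) (Or.inr rfl) fun y y' F =>
    (lt_or_ge (h0 * y') 1).elim
      (fun g => bothA_cert (s1 := false) (s2 := false) rfl hκ (en_pos (hx1 hx).le) (esg_rng (hx1 hx).le (hx2 hx').le).1 (mo_v x) covB30 covB32a hx hx'
        Pool.Agent.Strip051.G.I6500_6900.Tab.C.BA33.c_mm_022_a noCut_EA noExt_EA F trivial g)
      (fun g => bothA_cert (s1 := false) (s2 := false) rfl hκ (en_pos (hx1 hx).le) (esg_rng (hx1 hx).le (hx2 hx').le).1 (mo_v x) covB30 covB32b hx hx'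
        Pool.Agent.Strip051.G.I6500_6900.Tab.C.BA33.c_mm_022_b noCut_EA noExt_EA F trivial g)

theorem BA33_mm_023 {κ x : ℝ} (hκ : κ * h0 = ken x) (hx : ((697932185 : ℕ) : ℝ) / S ≤ x) (hx' : x ≤ (((697932185 : ℕ) : ℝ) + (42949674 : ℕ)) / S) :
    TriA PP.cur (VE (h0 * 0) 3 κ (h0 * x) (eng.v x) (h0 * (3 / 40)) (tnt (h0 * x) (3 / 10)) (tbl tK x) (tbl tL x) (tbl (smT h0⁻¹ tC) x)) 0 2 3 3 3 (-1) (-1) :=
  (sideB hx hx').bothA (thrB hx hx') (en_pos (hx1 hx).le) (Or.inr rfl) (Or.inr rfl) fun y y' F =>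
    (lt_or_ge (h0 * y') 1).elim
      (fun g => bothA_cert (s1 := false) (s2 := false) rfl hκ (en_pos (hx1 hx).le) (esg_rng (hx1 hx).le (hx2 hx').le).1 (mo_v x) covB30 covB32a hx hx'
        Pool.Agent.Strip051.G.I6500_6900.Tab.C.BA33.c_mm_023_a noCut_EA noExt_EA F trivial g)
      (fun g => bothA_cert (s1 := false) (s2 := false) rfl hκ (en_pos (hx1 hx).le) (esg_rng (hx1 hx).le (hx2 hx').le).1 (mo_v x) covB30 covB32b hx hx'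
        Pool.Agent.Strip051.G.I6500_6900.Tab.C.BA33.c_mm_023_b noCut_EA noExt_EA F trivial g)

theorem BA33_mm_033 {κ x : ℝ} (hκ : κ * h0 = ken x) (hx : ((697932185 : ℕ) : ℝ) / S ≤ x) (hx' : x ≤ (((697932185 : ℕ) : ℝ) + (42949674 : ℕ)) / S) :
    TriA PP.cur (VE (h0 * 0) 3 κ (h0 * x) (eng.v x) (h0 * (3 / 40)) (tnt (h0 * x) (3 / 10)) (tbl tK x) (tbl tL x) (tbl (smT h0⁻¹ tC) x)) 0 3 3 3 3 (-1) (-1) :=
  (sideB hx hx').bothA (thrB hx hx') (en_pos (hx1 hx).le) (Or.inr rfl) (Or.inr rfl) fun y y' F =>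
    bothA_cert (s1 := false) (s2 := false) rfl hκ (en_pos (hx1 hx).le) (esg_rng (hx1 hx).le (hx2 hx').le).1 (mo_v x) covB30 covB33 hx hx'
        Pool.Agent.Strip051.G.I6500_6900.Tab.C.BA33.c_mm_033 noCut_EA noExt_EA F trivial trivial

theorem BA33_mm_101 {κ x : ℝ} (hκ : κ * h0 = ken x) (hx : ((697932185 : ℕ) : ℝ) / S ≤ x) (hx' : x ≤ (((697932185 : ℕ) : ℝ) + (42949674 : ℕ)) / S) :
    TriA PP.cur (VE (h0 * 0) 3 κ (h0 * x) (eng.v x) (h0 * (3 / 40)) (tnt (h0 * x) (3 / 10)) (tbl tK x) (tbl tL x) (tbl (smT h0⁻¹ tC) x)) 1 0 1 3 3 (-1) (-1) :=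
  (sideB hx hx').bothA (thrB hx hx') (en_pos (hx1 hx).le) (Or.inr rfl) (Or.inr rfl) fun y y' F =>
    bothA_cert (s1 := false) (s2 := false) rfl hκ (en_pos (hx1 hx).le) (esg_rng (hx1 hx).le (hx2 hx').le).1 (mo_v x) covB31 covB30 hx hx'
        Pool.Agent.Strip051.G.I6500_6900.Tab.C.BA33.c_mm_101 noCut_EA noExt_EA F trivial trivial

theorem BA33_mm_102 {κ x : ℝ} (hκ : κ * h0 = ken x) (hx : ((697932185 : ℕ) : ℝ) / S ≤ x) (hx' : x ≤ (((697932185 : ℕ) : ℝ) + (42949674 : ℕ)) / S) :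
    TriA PP.cur (VE (h0 * 0) 3 κ (h0 * x) (eng.v x) (h0 * (3 / 40)) (tnt (h0 * x) (3 / 10)) (tbl tK x) (tbl tL x) (tbl (smT h0⁻¹ tC) x)) 1 0 2 3 3 (-1) (-1) :=
  (sideB hx hx').bothA (thrB hx hx') (en_pos (hx1 hx).le) (Or.inr rfl) (Or.inr rfl) fun y y' F =>
    bothA_cert (s1 := false) (s2 := false) rfl hκ (en_pos (hx1 hx).le) (esg_rng (hx1 hx).le (hx2 hx').le).1 (mo_v x) covB31 covB30 hx hx'
        Pool.Agent.Strip051.G.I6500_6900.Tab.C.BA33.c_mm_102 noCut_EA noExt_EA F trivial trivial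

theorem BA33_mm_112 {κ x : ℝ} (hκ : κ * h0 = ken x) (hx : ((697932185 : ℕ) : ℝ) / S ≤ x) (hx' : x ≤ (((697932185 : ℕ) : ℝ) + (42949674 : ℕ)) / S) :
    TriA PP.cur (VE (h0 * 0) 3 κ (h0 * x) (eng.v x) (h0 * (3 / 40)) (tnt (h0 * x) (3 / 10)) (tbl tK x) (tbl tL x) (tbl (smT h0⁻¹ tC) x)) 1 1 2 3 3 (-1) (-1) :=
  (sideB hx hx').bothA (thrB hx hx') (en_pos (hx1 hx).le) (Or.inr rfl) (Or.inr rfl) fun y y' F =>
    bothA_cert (s1 := false) (s2 := false) rfl hκ (en_pos (hx1 hx).le) (esg_rng (hx1 hx).le (hx2 hx').le).1 (mo_v x) covB31 covB31 hx hx'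
        Pool.Agent.Strip051.G.I6500_6900.Tab.C.BA33.c_mm_112 noCut_EA noExt_EA F trivial trivial

theorem BA33_mm_113 {κ x : ℝ} (hκ : κ * h0 = ken x) (hx : ((697932185 : ℕ) : ℝ) / S ≤ x) (hx' : x ≤ (((697932185 : ℕ) : ℝ) + (42949674 : ℕ)) / S) :
    TriA PP.cur (VE (h0 * 0) 3 κ (h0 * x) (eng.v x) (h0 * (3 / 40)) (tnt (h0 * x) (3 / 10)) (tbl tK x) (tbl tL x) (tbl (smT h0⁻¹ tC) x)) 1 1 3 3 3 (-1) (-1) :=
  (sideB hx hx').bothA (thrB hx hx') (en_pos (hx1 hx).le) (Or.inr rfl) (Or.inr rfl) fun y y' F =>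
    bothA_cert (s1 := false) (s2 := false) rfl hκ (en_pos (hx1 hx).le) (esg_rng (hx1 hx).le (hx2 hx').le).1 (mo_v x) covB31 covB31 hx hx'
        Pool.Agent.Strip051.G.I6500_6900.Tab.C.BA33.c_mm_113 noCut_EA noExt_EA F trivial trivial

theorem BA33_mm_123 {κ x : ℝ} (hκ : κ * h0 = ken x) (hx : ((697932185 : ℕ) : ℝ) / S ≤ x) (hx' : x ≤ (((697932185 : ℕ) : ℝ) + (42949674 : ℕ)) / S) :
    TriA PP.cur (VE (h0 * 0) 3 κ (h0 * x) (eng.v x) (h0 * (3 / 40)) (tnt (h0 * x) (3 / 10)) (tbl tK x) (tbl tL x) (tbl (smT h0⁻¹ tC) x)) 1 2 3 3 3 (-1) (-1) :=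
  (sideB hx hx').bothA (thrB hx hx') (en_pos (hx1 hx).le) (Or.inr rfl) (Or.inr rfl) fun y y' F =>
    (lt_or_ge (h0 * y') 1).elim
      (fun g => bothA_cert (s1 := false) (s2 := false) rfl hκ (en_pos (hx1 hx).le) (esg_rng (hx1 hx).le (hx2 hx').le).1 (mo_v x) covB31 covB32a hx hx'
        Pool.Agent.Strip051.G.I6500_6900.Tab.C.BA33.c_mm_123_a noCut_EA noExt_EA F trivial g)
      (fun g => bothA_cert (s1 := false) (s2 := false) rfl hκ (en_pos (hx1 hx).le) (esg_rng (hx1 hx).le (hx2 hx').le).1 (mo_v x) covB31 covB32b hx hx'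
        Pool.Agent.Strip051.G.I6500_6900.Tab.C.BA33.c_mm_123_b noCut_EA noExt_EA F trivial g)

theorem BA33_mm_133 {κ x : ℝ} (hκ : κ * h0 = ken x) (hx : ((697932185 : ℕ) : ℝ) / S ≤ x) (hx' : x ≤ (((697932185 : ℕ) : ℝ) + (42949674 : ℕ)) / S) :
    TriA PP.cur (VE (h0 * 0) 3 κ (h0 * x) (eng.v x) (h0 * (3 / 40)) (tnt (h0 * x) (3 / 10)) (tbl tK x) (tbl tL x) (tbl (smT h0⁻¹ tC) x)) 1 3 3 3 3 (-1) (-1) :=
  (sideB hx hx').bothA (thrB hx hx') (en_pos (hx1 hx).le) (Or.inr rfl) (Or.inr rfl) fun y y' F =>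
    bothA_cert (s1 := false) (s2 := false) rfl hκ (en_pos (hx1 hx).le) (esg_rng (hx1 hx).le (hx2 hx').le).1 (mo_v x) covB31 covB33 hx hx'
        Pool.Agent.Strip051.G.I6500_6900.Tab.C.BA33.c_mm_133 noCut_EA noExt_EA F trivial trivial

theorem BA33_mm_202 {κ x : ℝ} (hκ : κ * h0 = ken x) (hx : ((697932185 : ℕ) : ℝ) / S ≤ x) (hx' : x ≤ (((697932185 : ℕ) : ℝ) + (42949674 : ℕ)) / S) :
    TriA PP.cur (VE (h0 * 0) 3 κ (h0 * x) (eng.v x) (h0 * (3 / 40)) (tnt (h0 * x) (3 / 10)) (tbl tK x) (tbl tL x) (tbl (smT h0⁻¹ tC) x)) 2 0 2 3 3 (-1) (-1) :=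
  (sideB hx hx').bothA (thrB hx hx') (en_pos (hx1 hx).le) (Or.inr rfl) (Or.inr rfl) fun y y' F =>
    (lt_or_ge (h0 * y) 1).elim
      (fun h => bothA_cert (s1 := false) (s2 := false) rfl hκ (en_pos (hx1 hx).le) (esg_rng (hx1 hx).le (hx2 hx').le).1 (mo_v x) covB32a covB30 hx hx'
        Pool.Agent.Strip051.G.I6500_6900.Tab.C.BA33.c_mm_202_a (cutEA_cons (Pool.Agent.Strip051.G.I6500_6900.Tab.altB_A202R_33 hκ hx hx') cutEA_nil) noExt_EA F h trivial)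
      (fun h => bothA_cert (s1 := false) (s2 := false) rfl hκ (en_pos (hx1 hx).le) (esg_rng (hx1 hx).le (hx2 hx').le).1 (mo_v x) covB32b covB30 hx hx'
        Pool.Agent.Strip051.G.I6500_6900.Tab.C.BA33.c_mm_202_b (cutEA_cons (Pool.Agent.Strip051.G.I6500_6900.Tab.altB_A202R_33 hκ hx hx') cutEA_nil) noExt_EA F h trivial)

theorem BA33_mm_203 {κ x : ℝ} (hκ : κ * h0 = ken x) (hx : ((697932185 : ℕ) : ℝ) / S ≤ x) (hx' : x ≤ (((697932185 : ℕ) : ℝ) + (42949674 : ℕ)) / S) :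
    TriA PP.cur (VE (h0 * 0) 3 κ (h0 * x) (eng.v x) (h0 * (3 / 40)) (tnt (h0 * x) (3 / 10)) (tbl tK x) (tbl tL x) (tbl (smT h0⁻¹ tC) x)) 2 0 3 3 3 (-1) (-1) :=
  (sideB hx hx').bothA (thrB hx hx') (en_pos (hx1 hx).le) (Or.inr rfl) (Or.inr rfl) fun y y' F =>
    (lt_or_ge (h0 * y) 1).elim
      (fun h => bothA_cert (s1 := false) (s2 := false) rfl hκ (en_pos (hx1 hx).le) (esg_rng (hx1 hx).le (hx2 hx').le).1 (mo_v x) covB32a covB30 hx hx'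
        Pool.Agent.Strip051.G.I6500_6900.Tab.C.BA33.c_mm_203_a noCut_EA noExt_EA F h trivial)
      (fun h => bothA_cert (s1 := false) (s2 := false) rfl hκ (en_pos (hx1 hx).le) (esg_rng (hx1 hx).le (hx2 hx').le).1 (mo_v x) covB32b covB30 hx hx'
        Pool.Agent.Strip051.G.I6500_6900.Tab.C.BA33.c_mm_203_b noCut_EA noExt_EA F h trivial)

theorem BA33_mm_213 {κ x : ℝ} (hκ : κ * h0 = ken x) (hx : ((697932185 : ℕ) : ℝ) / S ≤ x) (hx' : x ≤ (((697932185 : ℕ) : ℝ) + (42949674 : ℕ)) / S) :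
    TriA PP.cur (VE (h0 * 0) 3 κ (h0 * x) (eng.v x) (h0 * (3 / 40)) (tnt (h0 * x) (3 / 10)) (tbl tK x) (tbl tL x) (tbl (smT h0⁻¹ tC) x)) 2 1 3 3 3 (-1) (-1) :=
  (sideB hx hx').bothA (thrB hx hx') (en_pos (hx1 hx).le) (Or.inr rfl) (Or.inr rfl) fun y y' F =>
    (lt_or_ge (h0 * y) 1).elim
      (fun h => bothA_cert (s1 := false) (s2 := false) rfl hκ (en_pos (hx1 hx).le) (esg_rng (hx1 hx).le (hx2 hx').le).1 (mo_v x) covB32a covB31 hx hx'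
        Pool.Agent.Strip051.G.I6500_6900.Tab.C.BA33.c_mm_213_a noCut_EA noExt_EA F h trivial)
      (fun h => bothA_cert (s1 := false) (s2 := false) rfl hκ (en_pos (hx1 hx).le) (esg_rng (hx1 hx).le (hx2 hx').le).1 (mo_v x) covB32b covB31 hx hx'
        Pool.Agent.Strip051.G.I6500_6900.Tab.C.BA33.c_mm_213_b noCut_EA noExt_EA F h trivial)

theorem BA33_mm_303 {κ x : ℝ} (hκ : κ * h0 = ken x) (hx : ((697932185 : ℕ) : ℝ) / S ≤ x) (hx' : x ≤ (((697932185 : ℕ) : ℝ) + (42949674 : ℕ)) / S) :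
    TriA PP.cur (VE (h0 * 0) 3 κ (h0 * x) (eng.v x) (h0 * (3 / 40)) (tnt (h0 * x) (3 / 10)) (tbl tK x) (tbl tL x) (tbl (smT h0⁻¹ tC) x)) 3 0 3 3 3 (-1) (-1) :=
  (sideB hx hx').bothA (thrB hx hx') (en_pos (hx1 hx).le) (Or.inr rfl) (Or.inr rfl) fun y y' F =>
    bothA_cert (s1 := false) (s2 := false) rfl hκ (en_pos (hx1 hx).le) (esg_rng (hx1 hx).le (hx2 hx').le).1 (mo_v x) covB33 covB30 hx hx'
        Pool.Agent.Strip051.G.I6500_6900.Tab.C.BA33.c_mm_303 noCut_EA noExt_EA F trivial trivial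

theorem BA33_mm_313 {κ x : ℝ} (hκ : κ * h0 = ken x) (hx : ((697932185 : ℕ) : ℝ) / S ≤ x) (hx' : x ≤ (((697932185 : ℕ) : ℝ) + (42949674 : ℕ)) / S) :
    TriA PP.cur (VE (h0 * 0) 3 κ (h0 * x) (eng.v x) (h0 * (3 / 40)) (tnt (h0 * x) (3 / 10)) (tbl tK x) (tbl tL x) (tbl (smT h0⁻¹ tC) x)) 3 1 3 3 3 (-1) (-1) :=
  (sideB hx hx').bothA (thrB hx hx') (en_pos (hx1 hx).le) (Or.inr rfl) (Or.inr rfl) fun y y' F =>
    bothA_cert (s1 := false) (s2 := false) rfl hκ (en_pos (hx1 hx).le) (esg_rng (hx1 hx).le (hx2 hx').le).1 (mo_v x) covB33 covB31 hx hx'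
        Pool.Agent.Strip051.G.I6500_6900.Tab.C.BA33.c_mm_313 noCut_EA noExt_EA F trivial trivial

theorem BA33 {κ x : ℝ} (hκ : κ * h0 = ken x) (hx : ((697932185 : ℕ) : ℝ) / S ≤ x) (hx' : x ≤ (((697932185 : ℕ) : ℝ) + (42949674 : ℕ)) / S) : AllTA PP.cur (VE (h0 * 0) 3 κ (h0 * x) (eng.v x) (h0 * (3 / 40)) (tnt (h0 * x) (3 / 10)) (tbl tK x) (tbl tL x) (tbl (smT h0⁻¹ tC) x)) 3 3 where
  pp := all17 (Q := fun a b c => TriA PP.cur (VE (h0 * 0) 3 κ (h0 * x) (eng.v x) (h0 * (3 / 40)) (tnt (h0 * x) (3 / 10)) (tbl tK x) (tbl tL x) (tbl (smT h0⁻¹ tC) x)) a b c 3 3 1 1)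
    (BA33_pp_001 hκ hx hx') (BA33_pp_011 hκ hx hx') (BA33_pp_012 hκ hx hx') (BA33_pp_022 hκ hx hx') (BA33_pp_023 hκ hx hx') (BA33_pp_033 hκ hx hx') (BA33_pp_101 hκ hx hx') (BA33_pp_102 hκ hx hx') (BA33_pp_112 hκ hx hx') (BA33_pp_113 hκ hx hx') (BA33_pp_123 hκ hx hx') (BA33_pp_133 hκ hx hx') (BA33_pp_202 hκ hx hx') (BA33_pp_203 hκ hx hx') (BA33_pp_213 hκ hx hx') (BA33_pp_303 hκ hx hx') (BA33_pp_313 hκ hx hx')
  pm := all17 (Q := fun a b c => TriA PP.cur (VE (h0 * 0) 3 κ (h0 * x) (eng.v x) (h0 * (3 / 40)) (tnt (h0 * x) (3 / 10)) (tbl tK x) (tbl tL x) (tbl (smT h0⁻¹ tC) x)) a b c 3 3 1 (-1))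
    (BA33_pm_001 hκ hx hx') (BA33_pm_011 hκ hx hx') (BA33_pm_012 hκ hx hx') (BA33_pm_022 hκ hx hx') (BA33_pm_023 hκ hx hx') (BA33_pm_033 hκ hx hx') (BA33_pm_101 hκ hx hx') (BA33_pm_102 hκ hx hx') (BA33_pm_112 hκ hx hx') (BA33_pm_113 hκ hx hx') (BA33_pm_123 hκ hx hx') (BA33_pm_133 hκ hx hx') (BA33_pm_202 hκ hx hx') (BA33_pm_203 hκ hx hx') (BA33_pm_213 hκ hx hx') (BA33_pm_303 hκ hx hx') (BA33_pm_313 hκ hx hx')
  mm := all17 (Q := fun a b c => TriA PP.cur (VE (h0 * 0) 3 κ (h0 * x) (eng.v x) (h0 * (3 / 40)) (tnt (h0 * x) (3 / 10)) (tbl tK x) (tbl tL x) (tbl (smT h0⁻¹ tC) x)) a b c 3 3 (-1) (-1))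
    (BA33_mm_001 hκ hx hx') (BA33_mm_011 hκ hx hx') (BA33_mm_012 hκ hx hx') (BA33_mm_022 hκ hx hx') (BA33_mm_023 hκ hx hx') (BA33_mm_033 hκ hx hx') (BA33_mm_101 hκ hx hx') (BA33_mm_102 hκ hx hx') (BA33_mm_112 hκ hx hx') (BA33_mm_113 hκ hx hx') (BA33_mm_123 hκ hx hx') (BA33_mm_133 hκ hx hx') (BA33_mm_202 hκ hx hx') (BA33_mm_203 hκ hx hx') (BA33_mm_213 hκ hx hx') (BA33_mm_303 hκ hx hx') (BA33_mm_313 hκ hx hx')

theorem BA34_pp_001 {κ x : ℝ} (hκ : κ * h0 = ken x) (hx : ((697932185 : ℕ) : ℝ) / S ≤ x) (hx' : x ≤ (((697932185 : ℕ) : ℝ) + (42949674 : ℕ)) / S) :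
    TriA PP.cur (VE (h0 * 0) 3 κ (h0 * x) (eng.v x) (h0 * (3 / 40)) (tnt (h0 * x) (3 / 10)) (tbl tK x) (tbl tL x) (tbl (smT h0⁻¹ tC) x)) 0 0 1 3 4 1 1 :=
  (sideB hx hx').bothA (thrB hx hx') (en_pos (hx1 hx).le) (Or.inl rfl) (Or.inl rfl) fun y y' F =>
    bothA_cert (s1 := true) (s2 := true) rfl hκ (en_pos (hx1 hx).le) (esg_rng (hx1 hx).le (hx2 hx').le).1 (mo_v x) covB30 covB40 hx hx'
        Pool.Agent.Strip051.G.I6500_6900.Tab.C.BA34.c_pp_001 noCut_EA noExt_EA F trivial trivial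

theorem BA34_pp_011 {κ x : ℝ} (hκ : κ * h0 = ken x) (hx : ((697932185 : ℕ) : ℝ) / S ≤ x) (hx' : x ≤ (((697932185 : ℕ) : ℝ) + (42949674 : ℕ)) / S) :
    TriA PP.cur (VE (h0 * 0) 3 κ (h0 * x) (eng.v x) (h0 * (3 / 40)) (tnt (h0 * x) (3 / 10)) (tbl tK x) (tbl tL x) (tbl (smT h0⁻¹ tC) x)) 0 1 1 3 4 1 1 :=
  (sideB hx hx').bothA (thrB hx hx') (en_pos (hx1 hx).le) (Or.inl rfl) (Or.inl rfl) fun y y' F =>
    bothA_cert (s1 := true) (s2 := true) rfl hκ (en_pos (hx1 hx).le) (esg_rng (hx1 hx).le (hx2 hx').le).1 (mo_v x) covB30 covB41 hx hx'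
        Pool.Agent.Strip051.G.I6500_6900.Tab.C.BA34.c_pp_011 noCut_EA noExt_EA F trivial trivial

theorem BA34_pp_012 {κ x : ℝ} (hκ : κ * h0 = ken x) (hx : ((697932185 : ℕ) : ℝ) / S ≤ x) (hx' : x ≤ (((697932185 : ℕ) : ℝ) + (42949674 : ℕ)) / S) :
    TriA PP.cur (VE (h0 * 0) 3 κ (h0 * x) (eng.v x) (h0 * (3 / 40)) (tnt (h0 * x) (3 / 10)) (tbl tK x) (tbl tL x) (tbl (smT h0⁻¹ tC) x)) 0 1 2 3 4 1 1 :=
  (sideB hx hx').bothA (thrB hx hx') (en_pos (hx1 hx).le) (Or.inl rfl) (Or.inl rfl) fun y y' F =>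
    bothA_cert (s1 := true) (s2 := true) rfl hκ (en_pos (hx1 hx).le) (esg_rng (hx1 hx).le (hx2 hx').le).1 (mo_v x) covB30 covB41 hx hx'
        Pool.Agent.Strip051.G.I6500_6900.Tab.C.BA34.c_pp_012 noCut_EA noExt_EA F trivial trivial

theorem BA34_pp_022 {κ x : ℝ} (hκ : κ * h0 = ken x) (hx : ((697932185 : ℕ) : ℝ) / S ≤ x) (hx' : x ≤ (((697932185 : ℕ) : ℝ) + (42949674 : ℕ)) / S) :
    TriA PP.cur (VE (h0 * 0) 3 κ (h0 * x) (eng.v x) (h0 * (3 / 40)) (tnt (h0 * x) (3 / 10)) (tbl tK x) (tbl tL x) (tbl (smT h0⁻¹ tC) x)) 0 2 2 3 4 1 1 :=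
  (sideB hx hx').bothA (thrB hx hx') (en_pos (hx1 hx).le) (Or.inl rfl) (Or.inl rfl) fun y y' F =>
    (lt_or_ge (h0 * y') 1).elim
      (fun g => bothA_cert (s1 := true) (s2 := true) rfl hκ (en_pos (hx1 hx).le) (esg_rng (hx1 hx).le (hx2 hx').le).1 (mo_v x) covB30 covB42a hx hx'
        Pool.Agent.Strip051.G.I6500_6900.Tab.C.BA34.c_pp_022_a (cutEA_cons (Pool.Agent.Strip051.G.I6500_6900.Tab.altB_A022L_34 hκ hx hx') cutEA_nil) noExt_EA F trivial g)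
      (fun g => bothA_cert (s1 := true) (s2 := true) rfl hκ (en_pos (hx1 hx).le) (esg_rng (hx1 hx).le (hx2 hx').le).1 (mo_v x) covB30 covB42b hx hx'
        Pool.Agent.Strip051.G.I6500_6900.Tab.C.BA34.c_pp_022_b (cutEA_cons (Pool.Agent.Strip051.G.I6500_6900.Tab.altB_A022L_34 hκ hx hx') cutEA_nil) noExt_EA F trivial g)

theorem BA34_pp_023 {κ x : ℝ} (hκ : κ * h0 = ken x) (hx : ((697932185 : ℕ) : ℝ) / S ≤ x) (hx' : x ≤ (((697932185 : ℕ) : ℝ) + (42949674 : ℕ)) / S) :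
    TriA PP.cur (VE (h0 * 0) 3 κ (h0 * x) (eng.v x) (h0 * (3 / 40)) (tnt (h0 * x) (3 / 10)) (tbl tK x) (tbl tL x) (tbl (smT h0⁻¹ tC) x)) 0 2 3 3 4 1 1 :=
  (sideB hx hx').bothA (thrB hx hx') (en_pos (hx1 hx).le) (Or.inl rfl) (Or.inl rfl) fun y y' F =>
    (lt_or_ge (h0 * y') 1).elim
      (fun g => bothA_cert (s1 := true) (s2 := true) rfl hκ (en_pos (hx1 hx).le) (esg_rng (hx1 hx).le (hx2 hx').le).1 (mo_v x) covB30 covB42a hx hx'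
        Pool.Agent.Strip051.G.I6500_6900.Tab.C.BA34.c_pp_023_a noCut_EA noExt_EA F trivial g)
      (fun g => bothA_cert (s1 := true) (s2 := true) rfl hκ (en_pos (hx1 hx).le) (esg_rng (hx1 hx).le (hx2 hx').le).1 (mo_v x) covB30 covB42b hx hx'
        Pool.Agent.Strip051.G.I6500_6900.Tab.C.BA34.c_pp_023_b noCut_EA noExt_EA F trivial g)

theorem BA34_pp_033 {κ x : ℝ} (hκ : κ * h0 = ken x) (hx : ((697932185 : ℕ) : ℝ) / S ≤ x) (hx' : x ≤ (((697932185 : ℕ) : ℝ) + (42949674 : ℕ)) / S) :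
    TriA PP.cur (VE (h0 * 0) 3 κ (h0 * x) (eng.v x) (h0 * (3 / 40)) (tnt (h0 * x) (3 / 10)) (tbl tK x) (tbl tL x) (tbl (smT h0⁻¹ tC) x)) 0 3 3 3 4 1 1 :=
  (sideB hx hx').bothA (thrB hx hx') (en_pos (hx1 hx).le) (Or.inl rfl) (Or.inl rfl) fun y y' F =>
    bothA_cert (s1 := true) (s2 := true) rfl hκ (en_pos (hx1 hx).le) (esg_rng (hx1 hx).le (hx2 hx').le).1 (mo_v x) covB30 covB43 hx hx'
        Pool.Agent.Strip051.G.I6500_6900.Tab.C.BA34.c_pp_033 noCut_EA noExt_EA F trivial trivial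

theorem BA34_pp_101 {κ x : ℝ} (hκ : κ * h0 = ken x) (hx : ((697932185 : ℕ) : ℝ) / S ≤ x) (hx' : x ≤ (((697932185 : ℕ) : ℝ) + (42949674 : ℕ)) / S) :
    TriA PP.cur (VE (h0 * 0) 3 κ (h0 * x) (eng.v x) (h0 * (3 / 40)) (tnt (h0 * x) (3 / 10)) (tbl tK x) (tbl tL x) (tbl (smT h0⁻¹ tC) x)) 1 0 1 3 4 1 1 :=
  (sideB hx hx').bothA (thrB hx hx') (en_pos (hx1 hx).le) (Or.inl rfl) (Or.inl rfl) fun y y' F =>
    bothA_cert (s1 := true) (s2 := true) rfl hκ (en_pos (hx1 hx).le) (esg_rng (hx1 hx).le (hx2 hx').le).1 (mo_v x) covB31 covB40 hx hx'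
        Pool.Agent.Strip051.G.I6500_6900.Tab.C.BA34.c_pp_101 noCut_EA noExt_EA F trivial trivial

theorem BA34_pp_102 {κ x : ℝ} (hκ : κ * h0 = ken x) (hx : ((697932185 : ℕ) : ℝ) / S ≤ x) (hx' : x ≤ (((697932185 : ℕ) : ℝ) + (42949674 : ℕ)) / S) :
    TriA PP.cur (VE (h0 * 0) 3 κ (h0 * x) (eng.v x) (h0 * (3 / 40)) (tnt (h0 * x) (3 / 10)) (tbl tK x) (tbl tL x) (tbl (smT h0⁻¹ tC) x)) 1 0 2 3 4 1 1 :=
  (sideB hx hx').bothA (thrB hx hx') (en_pos (hx1 hx).le) (Or.inl rfl) (Or.inl rfl) fun y y' F =>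
    bothA_cert (s1 := true) (s2 := true) rfl hκ (en_pos (hx1 hx).le) (esg_rng (hx1 hx).le (hx2 hx').le).1 (mo_v x) covB31 covB40 hx hx'
        Pool.Agent.Strip051.G.I6500_6900.Tab.C.BA34.c_pp_102 noCut_EA noExt_EA F trivial trivial

theorem BA34_pp_112 {κ x : ℝ} (hκ : κ * h0 = ken x) (hx : ((697932185 : ℕ) : ℝ) / S ≤ x) (hx' : x ≤ (((697932185 : ℕ) : ℝ) + (42949674 : ℕ)) / S) :
    TriA PP.cur (VE (h0 * 0) 3 κ (h0 * x) (eng.v x) (h0 * (3 / 40)) (tnt (h0 * x) (3 / 10)) (tbl tK x) (tbl tL x) (tbl (smT h0⁻¹ tC) x)) 1 1 2 3 4 1 1 :=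
  (sideB hx hx').bothA (thrB hx hx') (en_pos (hx1 hx).le) (Or.inl rfl) (Or.inl rfl) fun y y' F =>
    bothA_cert (s1 := true) (s2 := true) rfl hκ (en_pos (hx1 hx).le) (esg_rng (hx1 hx).le (hx2 hx').le).1 (mo_v x) covB31 covB41 hx hx'
        Pool.Agent.Strip051.G.I6500_6900.Tab.C.BA34.c_pp_112 noCut_EA noExt_EA F trivial trivial

theorem BA34_pp_113 {κ x : ℝ} (hκ : κ * h0 = ken x) (hx : ((697932185 : ℕ) : ℝ) / S ≤ x) (hx' : x ≤ (((697932185 : ℕ) : ℝ) + (42949674 : ℕ)) / S) :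
    TriA PP.cur (VE (h0 * 0) 3 κ (h0 * x) (eng.v x) (h0 * (3 / 40)) (tnt (h0 * x) (3 / 10)) (tbl tK x) (tbl tL x) (tbl (smT h0⁻¹ tC) x)) 1 1 3 3 4 1 1 :=
  (sideB hx hx').bothA (thrB hx hx') (en_pos (hx1 hx).le) (Or.inl rfl) (Or.inl rfl) fun y y' F =>
    bothA_cert (s1 := true) (s2 := true) rfl hκ (en_pos (hx1 hx).le) (esg_rng (hx1 hx).le (hx2 hx').le).1 (mo_v x) covB31 covB41 hx hx'
        Pool.Agent.Strip051.G.I6500_6900.Tab.C.BA34.c_pp_113 noCut_EA noExt_EA F trivial trivial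

theorem BA34_pp_123 {κ x : ℝ} (hκ : κ * h0 = ken x) (hx : ((697932185 : ℕ) : ℝ) / S ≤ x) (hx' : x ≤ (((697932185 : ℕ) : ℝ) + (42949674 : ℕ)) / S) :
    TriA PP.cur (VE (h0 * 0) 3 κ (h0 * x) (eng.v x) (h0 * (3 / 40)) (tnt (h0 * x) (3 / 10)) (tbl tK x) (tbl tL x) (tbl (smT h0⁻¹ tC) x)) 1 2 3 3 4 1 1 :=
  (sideB hx hx').bothA (thrB hx hx') (en_pos (hx1 hx).le) (Or.inl rfl) (Or.inl rfl) fun y y' F =>
    (lt_or_ge (h0 * y') 1).elim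
      (fun g => bothA_cert (s1 := true) (s2 := true) rfl hκ (en_pos (hx1 hx).le) (esg_rng (hx1 hx).le (hx2 hx').le).1 (mo_v x) covB31 covB42a hx hx'
        Pool.Agent.Strip051.G.I6500_6900.Tab.C.BA34.c_pp_123_a noCut_EA noExt_EA F trivial g)
      (fun g => bothA_cert (s1 := true) (s2 := true) rfl hκ (en_pos (hx1 hx).le) (esg_rng (hx1 hx).le (hx2 hx').le).1 (mo_v x) covB31 covB42b hx hx'
        Pool.Agent.Strip051.G.I6500_6900.Tab.C.BA34.c_pp_123_b noCut_EA noExt_EA F trivial g)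

theorem BA34_pp_133 {κ x : ℝ} (hκ : κ * h0 = ken x) (hx : ((697932185 : ℕ) : ℝ) / S ≤ x) (hx' : x ≤ (((697932185 : ℕ) : ℝ) + (42949674 : ℕ)) / S) :
    TriA PP.cur (VE (h0 * 0) 3 κ (h0 * x) (eng.v x) (h0 * (3 / 40)) (tnt (h0 * x) (3 / 10)) (tbl tK x) (tbl tL x) (tbl (smT h0⁻¹ tC) x)) 1 3 3 3 4 1 1 :=
  (sideB hx hx').bothA (thrB hx hx') (en_pos (hx1 hx).le) (Or.inl rfl) (Or.inl rfl) fun y y' F =>
    bothA_cert (s1 := true) (s2 := true) rfl hκ (en_pos (hx1 hx).le) (esg_rng (hx1 hx).le (hx2 hx').le).1 (mo_v x) covB31 covB43 hx hx'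
        Pool.Agent.Strip051.G.I6500_6900.Tab.C.BA34.c_pp_133 noCut_EA noExt_EA F trivial trivial

theorem BA34_pp_202 {κ x : ℝ} (hκ : κ * h0 = ken x) (hx : ((697932185 : ℕ) : ℝ) / S ≤ x) (hx' : x ≤ (((697932185 : ℕ) : ℝ) + (42949674 : ℕ)) / S) :
    TriA PP.cur (VE (h0 * 0) 3 κ (h0 * x) (eng.v x) (h0 * (3 / 40)) (tnt (h0 * x) (3 / 10)) (tbl tK x) (tbl tL x) (tbl (smT h0⁻¹ tC) x)) 2 0 2 3 4 1 1 :=
  (sideB hx hx').bothA (thrB hx hx') (en_pos (hx1 hx).le) (Or.inl rfl) (Or.inl rfl) fun y y' F =>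
    (lt_or_ge (h0 * y) 1).elim
      (fun h => bothA_cert (s1 := true) (s2 := true) rfl hκ (en_pos (hx1 hx).le) (esg_rng (hx1 hx).le (hx2 hx').le).1 (mo_v x) covB32a covB40 hx hx'
        Pool.Agent.Strip051.G.I6500_6900.Tab.C.BA34.c_pp_202_a noCut_EA noExt_EA F h trivial)
      (fun h => bothA_cert (s1 := true) (s2 := true) rfl hκ (en_pos (hx1 hx).le) (esg_rng (hx1 hx).le (hx2 hx').le).1 (mo_v x) covB32b covB40 hx hx'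
        Pool.Agent.Strip051.G.I6500_6900.Tab.C.BA34.c_pp_202_b noCut_EA noExt_EA F h trivial)

theorem BA34_pp_203 {κ x : ℝ} (hκ : κ * h0 = ken x) (hx : ((697932185 : ℕ) : ℝ) / S ≤ x) (hx' : x ≤ (((697932185 : ℕ) : ℝ) + (42949674 : ℕ)) / S) :
    TriA PP.cur (VE (h0 * 0) 3 κ (h0 * x) (eng.v x) (h0 * (3 / 40)) (tnt (h0 * x) (3 / 10)) (tbl tK x) (tbl tL x) (tbl (smT h0⁻¹ tC) x)) 2 0 3 3 4 1 1 :=
  (sideB hx hx').bothA (thrB hx hx') (en_pos (hx1 hx).le) (Or.inl rfl) (Or.inl rfl) fun y y' F =>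
    (lt_or_ge (h0 * y) 1).elim
      (fun h => bothA_cert (s1 := true) (s2 := true) rfl hκ (en_pos (hx1 hx).le) (esg_rng (hx1 hx).le (hx2 hx').le).1 (mo_v x) covB32a covB40 hx hx'
        Pool.Agent.Strip051.G.I6500_6900.Tab.C.BA34.c_pp_203_a noCut_EA noExt_EA F h trivial)
      (fun h => bothA_cert (s1 := true) (s2 := true) rfl hκ (en_pos (hx1 hx).le) (esg_rng (hx1 hx).le (hx2 hx').le).1 (mo_v x) covB32b covB40 hx hx'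
        Pool.Agent.Strip051.G.I6500_6900.Tab.C.BA34.c_pp_203_b noCut_EA noExt_EA F h trivial)

theorem BA34_pp_213 {κ x : ℝ} (hκ : κ * h0 = ken x) (hx : ((697932185 : ℕ) : ℝ) / S ≤ x) (hx' : x ≤ (((697932185 : ℕ) : ℝ) + (42949674 : ℕ)) / S) :
    TriA PP.cur (VE (h0 * 0) 3 κ (h0 * x) (eng.v x) (h0 * (3 / 40)) (tnt (h0 * x) (3 / 10)) (tbl tK x) (tbl tL x) (tbl (smT h0⁻¹ tC) x)) 2 1 3 3 4 1 1 :=
  (sideB hx hx').bothA (thrB hx hx') (en_pos (hx1 hx).le) (Or.inl rfl) (Or.inl rfl) fun y y' F =>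
    (lt_or_ge (h0 * y) 1).elim
      (fun h => bothA_cert (s1 := true) (s2 := true) rfl hκ (en_pos (hx1 hx).le) (esg_rng (hx1 hx).le (hx2 hx').le).1 (mo_v x) covB32a covB41 hx hx'
        Pool.Agent.Strip051.G.I6500_6900.Tab.C.BA34.c_pp_213_a noCut_EA noExt_EA F h trivial)
      (fun h => bothA_cert (s1 := true) (s2 := true) rfl hκ (en_pos (hx1 hx).le) (esg_rng (hx1 hx).le (hx2 hx').le).1 (mo_v x) covB32b covB41 hx hx'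
        Pool.Agent.Strip051.G.I6500_6900.Tab.C.BA34.c_pp_213_b noCut_EA noExt_EA F h trivial)

theorem BA34_pp_303 {κ x : ℝ} (hκ : κ * h0 = ken x) (hx : ((697932185 : ℕ) : ℝ) / S ≤ x) (hx' : x ≤ (((697932185 : ℕ) : ℝ) + (42949674 : ℕ)) / S) :
    TriA PP.cur (VE (h0 * 0) 3 κ (h0 * x) (eng.v x) (h0 * (3 / 40)) (tnt (h0 * x) (3 / 10)) (tbl tK x) (tbl tL x) (tbl (smT h0⁻¹ tC) x)) 3 0 3 3 4 1 1 :=
  (sideB hx hx').bothA (thrB hx hx') (en_pos (hx1 hx).le) (Or.inl rfl) (Or.inl rfl) fun y y' F =>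
    bothA_cert (s1 := true) (s2 := true) rfl hκ (en_pos (hx1 hx).le) (esg_rng (hx1 hx).le (hx2 hx').le).1 (mo_v x) covB33 covB40 hx hx'
        Pool.Agent.Strip051.G.I6500_6900.Tab.C.BA34.c_pp_303 noCut_EA noExt_EA F trivial trivial

theorem BA34_pp_313 {κ x : ℝ} (hκ : κ * h0 = ken x) (hx : ((697932185 : ℕ) : ℝ) / S ≤ x) (hx' : x ≤ (((697932185 : ℕ) : ℝ) + (42949674 : ℕ)) / S) :
    TriA PP.cur (VE (h0 * 0) 3 κ (h0 * x) (eng.v x) (h0 * (3 / 40)) (tnt (h0 * x) (3 / 10)) (tbl tK x) (tbl tL x) (tbl (smT h0⁻¹ tC) x)) 3 1 3 3 4 1 1 :=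
  (sideB hx hx').bothA (thrB hx hx') (en_pos (hx1 hx).le) (Or.inl rfl) (Or.inl rfl) fun y y' F =>
    bothA_cert (s1 := true) (s2 := true) rfl hκ (en_pos (hx1 hx).le) (esg_rng (hx1 hx).le (hx2 hx').le).1 (mo_v x) covB33 covB41 hx hx'
        Pool.Agent.Strip051.G.I6500_6900.Tab.C.BA34.c_pp_313 noCut_EA noExt_EA F trivial trivial

theorem BA34_pm_001 {κ x : ℝ} (hκ : κ * h0 = ken x) (hx : ((697932185 : ℕ) : ℝ) / S ≤ x) (hx' : x ≤ (((697932185 : ℕ) : ℝ) + (42949674 : ℕ)) / S) :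
    TriA PP.cur (VE (h0 * 0) 3 κ (h0 * x) (eng.v x) (h0 * (3 / 40)) (tnt (h0 * x) (3 / 10)) (tbl tK x) (tbl tL x) (tbl (smT h0⁻¹ tC) x)) 0 0 1 3 4 1 (-1) :=
  (sideB hx hx').bothA (thrB hx hx') (en_pos (hx1 hx).le) (Or.inl rfl) (Or.inr rfl) fun y y' F =>
    bothA_cert (s1 := true) (s2 := false) rfl hκ (en_pos (hx1 hx).le) (esg_rng (hx1 hx).le (hx2 hx').le).1 (mo_v x) covB30 covB40 hx hx'
        Pool.Agent.Strip051.G.I6500_6900.Tab.C.BA34.c_pm_001 noCut_EA noExt_EA F trivial trivial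

theorem BA34_pm_011 {κ x : ℝ} (hκ : κ * h0 = ken x) (hx : ((697932185 : ℕ) : ℝ) / S ≤ x) (hx' : x ≤ (((697932185 : ℕ) : ℝ) + (42949674 : ℕ)) / S) :
    TriA PP.cur (VE (h0 * 0) 3 κ (h0 * x) (eng.v x) (h0 * (3 / 40)) (tnt (h0 * x) (3 / 10)) (tbl tK x) (tbl tL x) (tbl (smT h0⁻¹ tC) x)) 0 1 1 3 4 1 (-1) :=
  (sideB hx hx').bothA (thrB hx hx') (en_pos (hx1 hx).le) (Or.inl rfl) (Or.inr rfl) fun y y' F =>
    bothA_cert (s1 := true) (s2 := false) rfl hκ (en_pos (hx1 hx).le) (esg_rng (hx1 hx).le (hx2 hx').le).1 (mo_v x) covB30 covB41 hx hx'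
        Pool.Agent.Strip051.G.I6500_6900.Tab.C.BA34.c_pm_011 noCut_EA noExt_EA F trivial trivial

theorem BA34_pm_012 {κ x : ℝ} (hκ : κ * h0 = ken x) (hx : ((697932185 : ℕ) : ℝ) / S ≤ x) (hx' : x ≤ (((697932185 : ℕ) : ℝ) + (42949674 : ℕ)) / S) :
    TriA PP.cur (VE (h0 * 0) 3 κ (h0 * x) (eng.v x) (h0 * (3 / 40)) (tnt (h0 * x) (3 / 10)) (tbl tK x) (tbl tL x) (tbl (smT h0⁻¹ tC) x)) 0 1 2 3 4 1 (-1) :=
  (sideB hx hx').bothA (thrB hx hx') (en_pos (hx1 hx).le) (Or.inl rfl) (Or.inr rfl) fun y y' F =>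
    bothA_cert (s1 := true) (s2 := false) rfl hκ (en_pos (hx1 hx).le) (esg_rng (hx1 hx).le (hx2 hx').le).1 (mo_v x) covB30 covB41 hx hx'
        Pool.Agent.Strip051.G.I6500_6900.Tab.C.BA34.c_pm_012 noCut_EA noExt_EA F trivial trivial

theorem BA34_pm_022 {κ x : ℝ} (hκ : κ * h0 = ken x) (hx : ((697932185 : ℕ) : ℝ) / S ≤ x) (hx' : x ≤ (((697932185 : ℕ) : ℝ) + (42949674 : ℕ)) / S) :
    TriA PP.cur (VE (h0 * 0) 3 κ (h0 * x) (eng.v x) (h0 * (3 / 40)) (tnt (h0 * x) (3 / 10)) (tbl tK x) (tbl tL x) (tbl (smT h0⁻¹ tC) x)) 0 2 2 3 4 1 (-1) :=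
  (sideB hx hx').bothA (thrB hx hx') (en_pos (hx1 hx).le) (Or.inl rfl) (Or.inr rfl) fun y y' F =>
    (lt_or_ge (h0 * y') 1).elim
      (fun g => bothA_cert (s1 := true) (s2 := false) rfl hκ (en_pos (hx1 hx).le) (esg_rng (hx1 hx).le (hx2 hx').le).1 (mo_v x) covB30 covB42a hx hx'
        Pool.Agent.Strip051.G.I6500_6900.Tab.C.BA34.c_pm_022_a (cutEA_cons (Pool.Agent.Strip051.G.I6500_6900.Tab.altB_A022E_34 hκ hx hx') cutEA_nil) noExt_EA F trivial g)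
      (fun g => bothA_cert (s1 := true) (s2 := false) rfl hκ (en_pos (hx1 hx).le) (esg_rng (hx1 hx).le (hx2 hx').le).1 (mo_v x) covB30 covB42b hx hx'
        Pool.Agent.Strip051.G.I6500_6900.Tab.C.BA34.c_pm_022_b (cutEA_cons (Pool.Agent.Strip051.G.I6500_6900.Tab.altB_A022E_34 hκ hx hx') cutEA_nil) noExt_EA F trivial g)

theorem BA34_pm_023 {κ x : ℝ} (hκ : κ * h0 = ken x) (hx : ((697932185 : ℕ) : ℝ) / S ≤ x) (hx' : x ≤ (((697932185 : ℕ) : ℝ) + (42949674 : ℕ)) / S) :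
    TriA PP.cur (VE (h0 * 0) 3 κ (h0 * x) (eng.v x) (h0 * (3 / 40)) (tnt (h0 * x) (3 / 10)) (tbl tK x) (tbl tL x) (tbl (smT h0⁻¹ tC) x)) 0 2 3 3 4 1 (-1) :=
  (sideB hx hx').bothA (thrB hx hx') (en_pos (hx1 hx).le) (Or.inl rfl) (Or.inr rfl) fun y y' F =>
    (lt_or_ge (h0 * y') 1).elim
      (fun g => bothA_cert (s1 := true) (s2 := false) rfl hκ (en_pos (hx1 hx).le) (esg_rng (hx1 hx).le (hx2 hx').le).1 (mo_v x) covB30 covB42a hx hx'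
        Pool.Agent.Strip051.G.I6500_6900.Tab.C.BA34.c_pm_023_a noCut_EA noExt_EA F trivial g)
      (fun g => bothA_cert (s1 := true) (s2 := false) rfl hκ (en_pos (hx1 hx).le) (esg_rng (hx1 hx).le (hx2 hx').le).1 (mo_v x) covB30 covB42b hx hx'
        Pool.Agent.Strip051.G.I6500_6900.Tab.C.BA34.c_pm_023_b noCut_EA noExt_EA F trivial g)

theorem BA34_pm_033 {κ x : ℝ} (hκ : κ * h0 = ken x) (hx : ((697932185 : ℕ) : ℝ) / S ≤ x) (hx' : x ≤ (((697932185 : ℕ) : ℝ) + (42949674 : ℕ)) / S) :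
    TriA PP.cur (VE (h0 * 0) 3 κ (h0 * x) (eng.v x) (h0 * (3 / 40)) (tnt (h0 * x) (3 / 10)) (tbl tK x) (tbl tL x) (tbl (smT h0⁻¹ tC) x)) 0 3 3 3 4 1 (-1) :=
  (sideB hx hx').bothA (thrB hx hx') (en_pos (hx1 hx).le) (Or.inl rfl) (Or.inr rfl) fun y y' F =>
    bothA_cert (s1 := true) (s2 := false) rfl hκ (en_pos (hx1 hx).le) (esg_rng (hx1 hx).le (hx2 hx').le).1 (mo_v x) covB30 covB43 hx hx'
        Pool.Agent.Strip051.G.I6500_6900.Tab.C.BA34.c_pm_033 noCut_EA noExt_EA F trivial trivial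

theorem BA34_pm_101 {κ x : ℝ} (hκ : κ * h0 = ken x) (hx : ((697932185 : ℕ) : ℝ) / S ≤ x) (hx' : x ≤ (((697932185 : ℕ) : ℝ) + (42949674 : ℕ)) / S) :
    TriA PP.cur (VE (h0 * 0) 3 κ (h0 * x) (eng.v x) (h0 * (3 / 40)) (tnt (h0 * x) (3 / 10)) (tbl tK x) (tbl tL x) (tbl (smT h0⁻¹ tC) x)) 1 0 1 3 4 1 (-1) :=
  (sideB hx hx').bothA (thrB hx hx') (en_pos (hx1 hx).le) (Or.inl rfl) (Or.inr rfl) fun y y' F =>
    bothA_cert (s1 := true) (s2 := false) rfl hκ (en_pos (hx1 hx).le) (esg_rng (hx1 hx).le (hx2 hx').le).1 (mo_v x) covB31 covB40 hx hx'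
        Pool.Agent.Strip051.G.I6500_6900.Tab.C.BA34.c_pm_101 noCut_EA noExt_EA F trivial trivial

theorem BA34_pm_102 {κ x : ℝ} (hκ : κ * h0 = ken x) (hx : ((697932185 : ℕ) : ℝ) / S ≤ x) (hx' : x ≤ (((697932185 : ℕ) : ℝ) + (42949674 : ℕ)) / S) :
    TriA PP.cur (VE (h0 * 0) 3 κ (h0 * x) (eng.v x) (h0 * (3 / 40)) (tnt (h0 * x) (3 / 10)) (tbl tK x) (tbl tL x) (tbl (smT h0⁻¹ tC) x)) 1 0 2 3 4 1 (-1) :=
  (sideB hx hx').bothA (thrB hx hx') (en_pos (hx1 hx).le) (Or.inl rfl) (Or.inr rfl) fun y y' F =>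
    bothA_cert (s1 := true) (s2 := false) rfl hκ (en_pos (hx1 hx).le) (esg_rng (hx1 hx).le (hx2 hx').le).1 (mo_v x) covB31 covB40 hx hx'
        Pool.Agent.Strip051.G.I6500_6900.Tab.C.BA34.c_pm_102 noCut_EA noExt_EA F trivial trivial

theorem BA34_pm_112 {κ x : ℝ} (hκ : κ * h0 = ken x) (hx : ((697932185 : ℕ) : ℝ) / S ≤ x) (hx' : x ≤ (((697932185 : ℕ) : ℝ) + (42949674 : ℕ)) / S) :
    TriA PP.cur (VE (h0 * 0) 3 κ (h0 * x) (eng.v x) (h0 * (3 / 40)) (tnt (h0 * x) (3 / 10)) (tbl tK x) (tbl tL x) (tbl (smT h0⁻¹ tC) x)) 1 1 2 3 4 1 (-1) :=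
  (sideB hx hx').bothA (thrB hx hx') (en_pos (hx1 hx).le) (Or.inl rfl) (Or.inr rfl) fun y y' F =>
    bothA_cert (s1 := true) (s2 := false) rfl hκ (en_pos (hx1 hx).le) (esg_rng (hx1 hx).le (hx2 hx').le).1 (mo_v x) covB31 covB41 hx hx'
        Pool.Agent.Strip051.G.I6500_6900.Tab.C.BA34.c_pm_112 noCut_EA noExt_EA F trivial trivial

theorem BA34_pm_113 {κ x : ℝ} (hκ : κ * h0 = ken x) (hx : ((697932185 : ℕ) : ℝ) / S ≤ x) (hx' : x ≤ (((697932185 : ℕ) : ℝ) + (42949674 : ℕ)) / S) :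
    TriA PP.cur (VE (h0 * 0) 3 κ (h0 * x) (eng.v x) (h0 * (3 / 40)) (tnt (h0 * x) (3 / 10)) (tbl tK x) (tbl tL x) (tbl (smT h0⁻¹ tC) x)) 1 1 3 3 4 1 (-1) :=
  (sideB hx hx').bothA (thrB hx hx') (en_pos (hx1 hx).le) (Or.inl rfl) (Or.inr rfl) fun y y' F =>
    bothA_cert (s1 := true) (s2 := false) rfl hκ (en_pos (hx1 hx).le) (esg_rng (hx1 hx).le (hx2 hx').le).1 (mo_v x) covB31 covB41 hx hx'
        Pool.Agent.Strip051.G.I6500_6900.Tab.C.BA34.c_pm_113 noCut_EA noExt_EA F trivial trivial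

theorem BA34_pm_123 {κ x : ℝ} (hκ : κ * h0 = ken x) (hx : ((697932185 : ℕ) : ℝ) / S ≤ x) (hx' : x ≤ (((697932185 : ℕ) : ℝ) + (42949674 : ℕ)) / S) :
    TriA PP.cur (VE (h0 * 0) 3 κ (h0 * x) (eng.v x) (h0 * (3 / 40)) (tnt (h0 * x) (3 / 10)) (tbl tK x) (tbl tL x) (tbl (smT h0⁻¹ tC) x)) 1 2 3 3 4 1 (-1) :=
  (sideB hx hx').bothA (thrB hx hx') (en_pos (hx1 hx).le) (Or.inl rfl) (Or.inr rfl) fun y y' F =>
    (lt_or_ge (h0 * y') 1).elim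
      (fun g => bothA_cert (s1 := true) (s2 := false) rfl hκ (en_pos (hx1 hx).le) (esg_rng (hx1 hx).le (hx2 hx').le).1 (mo_v x) covB31 covB42a hx hx'
        Pool.Agent.Strip051.G.I6500_6900.Tab.C.BA34.c_pm_123_a noCut_EA noExt_EA F trivial g)
      (fun g => bothA_cert (s1 := true) (s2 := false) rfl hκ (en_pos (hx1 hx).le) (esg_rng (hx1 hx).le (hx2 hx').le).1 (mo_v x) covB31 covB42b hx hx'
        Pool.Agent.Strip051.G.I6500_6900.Tab.C.BA34.c_pm_123_b noCut_EA noExt_EA F trivial g)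

theorem BA34_pm_133 {κ x : ℝ} (hκ : κ * h0 = ken x) (hx : ((697932185 : ℕ) : ℝ) / S ≤ x) (hx' : x ≤ (((697932185 : ℕ) : ℝ) + (42949674 : ℕ)) / S) :
    TriA PP.cur (VE (h0 * 0) 3 κ (h0 * x) (eng.v x) (h0 * (3 / 40)) (tnt (h0 * x) (3 / 10)) (tbl tK x) (tbl tL x) (tbl (smT h0⁻¹ tC) x)) 1 3 3 3 4 1 (-1) :=
  (sideB hx hx').bothA (thrB hx hx') (en_pos (hx1 hx).le) (Or.inl rfl) (Or.inr rfl) fun y y' F =>
    bothA_cert (s1 := true) (s2 := false) rfl hκ (en_pos (hx1 hx).le) (esg_rng (hx1 hx).le (hx2 hx').le).1 (mo_v x) covB31 covB43 hx hx'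
        Pool.Agent.Strip051.G.I6500_6900.Tab.C.BA34.c_pm_133 noCut_EA noExt_EA F trivial trivial

theorem BA34_pm_202 {κ x : ℝ} (hκ : κ * h0 = ken x) (hx : ((697932185 : ℕ) : ℝ) / S ≤ x) (hx' : x ≤ (((697932185 : ℕ) : ℝ) + (42949674 : ℕ)) / S) :
    TriA PP.cur (VE (h0 * 0) 3 κ (h0 * x) (eng.v x) (h0 * (3 / 40)) (tnt (h0 * x) (3 / 10)) (tbl tK x) (tbl tL x) (tbl (smT h0⁻¹ tC) x)) 2 0 2 3 4 1 (-1) :=
  (sideB hx hx').bothA (thrB hx hx') (en_pos (hx1 hx).le) (Or.inl rfl) (Or.inr rfl) fun y y' F =>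
    (lt_or_ge (h0 * y) 1).elim
      (fun h => bothA_cert (s1 := true) (s2 := false) rfl hκ (en_pos (hx1 hx).le) (esg_rng (hx1 hx).le (hx2 hx').le).1 (mo_v x) covB32a covB40 hx hx'
        Pool.Agent.Strip051.G.I6500_6900.Tab.C.BA34.c_pm_202_a (cutEA_cons (Pool.Agent.Strip051.G.I6500_6900.Tab.altB_A202E_34 hκ hx hx') cutEA_nil) noExt_EA F h trivial)
      (fun h => bothA_cert (s1 := true) (s2 := false) rfl hκ (en_pos (hx1 hx).le) (esg_rng (hx1 hx).le (hx2 hx').le).1 (mo_v x) covB32b covB40 hx hx'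
        Pool.Agent.Strip051.G.I6500_6900.Tab.C.BA34.c_pm_202_b (cutEA_cons (Pool.Agent.Strip051.G.I6500_6900.Tab.altB_A202E_34 hκ hx hx') cutEA_nil) noExt_EA F h trivial)

theorem BA34_pm_203 {κ x : ℝ} (hκ : κ * h0 = ken x) (hx : ((697932185 : ℕ) : ℝ) / S ≤ x) (hx' : x ≤ (((697932185 : ℕ) : ℝ) + (42949674 : ℕ)) / S) :
    TriA PP.cur (VE (h0 * 0) 3 κ (h0 * x) (eng.v x) (h0 * (3 / 40)) (tnt (h0 * x) (3 / 10)) (tbl tK x) (tbl tL x) (tbl (smT h0⁻¹ tC) x)) 2 0 3 3 4 1 (-1) :=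
  (sideB hx hx').bothA (thrB hx hx') (en_pos (hx1 hx).le) (Or.inl rfl) (Or.inr rfl) fun y y' F =>
    (lt_or_ge (h0 * y) 1).elim
      (fun h => bothA_cert (s1 := true) (s2 := false) rfl hκ (en_pos (hx1 hx).le) (esg_rng (hx1 hx).le (hx2 hx').le).1 (mo_v x) covB32a covB40 hx hx'
        Pool.Agent.Strip051.G.I6500_6900.Tab.C.BA34.c_pm_203_a noCut_EA noExt_EA F h trivial)
      (fun h => bothA_cert (s1 := true) (s2 := false) rfl hκ (en_pos (hx1 hx).le) (esg_rng (hx1 hx).le (hx2 hx').le).1 (mo_v x) covB32b covB40 hx hx'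
        Pool.Agent.Strip051.G.I6500_6900.Tab.C.BA34.c_pm_203_b noCut_EA noExt_EA F h trivial)

theorem BA34_pm_213 {κ x : ℝ} (hκ : κ * h0 = ken x) (hx : ((697932185 : ℕ) : ℝ) / S ≤ x) (hx' : x ≤ (((697932185 : ℕ) : ℝ) + (42949674 : ℕ)) / S) :
    TriA PP.cur (VE (h0 * 0) 3 κ (h0 * x) (eng.v x) (h0 * (3 / 40)) (tnt (h0 * x) (3 / 10)) (tbl tK x) (tbl tL x) (tbl (smT h0⁻¹ tC) x)) 2 1 3 3 4 1 (-1) :=
  (sideB hx hx').bothA (thrB hx hx') (en_pos (hx1 hx).le) (Or.inl rfl) (Or.inr rfl) fun y y' F =>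
    (lt_or_ge (h0 * y) 1).elim
      (fun h => bothA_cert (s1 := true) (s2 := false) rfl hκ (en_pos (hx1 hx).le) (esg_rng (hx1 hx).le (hx2 hx').le).1 (mo_v x) covB32a covB41 hx hx'
        Pool.Agent.Strip051.G.I6500_6900.Tab.C.BA34.c_pm_213_a noCut_EA noExt_EA F h trivial)
      (fun h => bothA_cert (s1 := true) (s2 := false) rfl hκ (en_pos (hx1 hx).le) (esg_rng (hx1 hx).le (hx2 hx').le).1 (mo_v x) covB32b covB41 hx hx'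
        Pool.Agent.Strip051.G.I6500_6900.Tab.C.BA34.c_pm_213_b noCut_EA noExt_EA F h trivial)

theorem BA34_pm_303 {κ x : ℝ} (hκ : κ * h0 = ken x) (hx : ((697932185 : ℕ) : ℝ) / S ≤ x) (hx' : x ≤ (((697932185 : ℕ) : ℝ) + (42949674 : ℕ)) / S) :
    TriA PP.cur (VE (h0 * 0) 3 κ (h0 * x) (eng.v x) (h0 * (3 / 40)) (tnt (h0 * x) (3 / 10)) (tbl tK x) (tbl tL x) (tbl (smT h0⁻¹ tC) x)) 3 0 3 3 4 1 (-1) :=
  (sideB hx hx').bothA (thrB hx hx') (en_pos (hx1 hx).le) (Or.inl rfl) (Or.inr rfl) fun y y' F =>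
    bothA_cert (s1 := true) (s2 := false) rfl hκ (en_pos (hx1 hx).le) (esg_rng (hx1 hx).le (hx2 hx').le).1 (mo_v x) covB33 covB40 hx hx'
        Pool.Agent.Strip051.G.I6500_6900.Tab.C.BA34.c_pm_303 noCut_EA noExt_EA F trivial trivial

theorem BA34_pm_313 {κ x : ℝ} (hκ : κ * h0 = ken x) (hx : ((697932185 : ℕ) : ℝ) / S ≤ x) (hx' : x ≤ (((697932185 : ℕ) : ℝ) + (42949674 : ℕ)) / S) :
    TriA PP.cur (VE (h0 * 0) 3 κ (h0 * x) (eng.v x) (h0 * (3 / 40)) (tnt (h0 * x) (3 / 10)) (tbl tK x) (tbl tL x) (tbl (smT h0⁻¹ tC) x)) 3 1 3 3 4 1 (-1) :=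
  (sideB hx hx').bothA (thrB hx hx') (en_pos (hx1 hx).le) (Or.inl rfl) (Or.inr rfl) fun y y' F =>
    bothA_cert (s1 := true) (s2 := false) rfl hκ (en_pos (hx1 hx).le) (esg_rng (hx1 hx).le (hx2 hx').le).1 (mo_v x) covB33 covB41 hx hx'
        Pool.Agent.Strip051.G.I6500_6900.Tab.C.BA34.c_pm_313 noCut_EA noExt_EA F trivial trivial

theorem BA34_mm_001 {κ x : ℝ} (hκ : κ * h0 = ken x) (hx : ((697932185 : ℕ) : ℝ) / S ≤ x) (hx' : x ≤ (((697932185 : ℕ) : ℝ) + (42949674 : ℕ)) / S) :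
    TriA PP.cur (VE (h0 * 0) 3 κ (h0 * x) (eng.v x) (h0 * (3 / 40)) (tnt (h0 * x) (3 / 10)) (tbl tK x) (tbl tL x) (tbl (smT h0⁻¹ tC) x)) 0 0 1 3 4 (-1) (-1) :=
  (sideB hx hx').bothA (thrB hx hx') (en_pos (hx1 hx).le) (Or.inr rfl) (Or.inr rfl) fun y y' F =>
    bothA_cert (s1 := false) (s2 := false) rfl hκ (en_pos (hx1 hx).le) (esg_rng (hx1 hx).le (hx2 hx').le).1 (mo_v x) covB30 covB40 hx hx'
        Pool.Agent.Strip051.G.I6500_6900.Tab.C.BA34.c_mm_001 noCut_EA noExt_EA F trivial trivial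

theorem BA34_mm_011 {κ x : ℝ} (hκ : κ * h0 = ken x) (hx : ((697932185 : ℕ) : ℝ) / S ≤ x) (hx' : x ≤ (((697932185 : ℕ) : ℝ) + (42949674 : ℕ)) / S) :
    TriA PP.cur (VE (h0 * 0) 3 κ (h0 * x) (eng.v x) (h0 * (3 / 40)) (tnt (h0 * x) (3 / 10)) (tbl tK x) (tbl tL x) (tbl (smT h0⁻¹ tC) x)) 0 1 1 3 4 (-1) (-1) :=
  (sideB hx hx').bothA (thrB hx hx') (en_pos (hx1 hx).le) (Or.inr rfl) (Or.inr rfl) fun y y' F =>
    bothA_cert (s1 := false) (s2 := false) rfl hκ (en_pos (hx1 hx).le) (esg_rng (hx1 hx).le (hx2 hx').le).1 (mo_v x) covB30 covB41 hx hx'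
        Pool.Agent.Strip051.G.I6500_6900.Tab.C.BA34.c_mm_011 noCut_EA noExt_EA F trivial trivial

theorem BA34_mm_012 {κ x : ℝ} (hκ : κ * h0 = ken x) (hx : ((697932185 : ℕ) : ℝ) / S ≤ x) (hx' : x ≤ (((697932185 : ℕ) : ℝ) + (42949674 : ℕ)) / S) :
    TriA PP.cur (VE (h0 * 0) 3 κ (h0 * x) (eng.v x) (h0 * (3 / 40)) (tnt (h0 * x) (3 / 10)) (tbl tK x) (tbl tL x) (tbl (smT h0⁻¹ tC) x)) 0 1 2 3 4 (-1) (-1) :=
  (sideB hx hx').bothA (thrB hx hx') (en_pos (hx1 hx).le) (Or.inr rfl) (Or.inr rfl) fun y y' F =>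
    bothA_cert (s1 := false) (s2 := false) rfl hκ (en_pos (hx1 hx).le) (esg_rng (hx1 hx).le (hx2 hx').le).1 (mo_v x) covB30 covB41 hx hx'
        Pool.Agent.Strip051.G.I6500_6900.Tab.C.BA34.c_mm_012 noCut_EA noExt_EA F trivial trivial

theorem BA34_mm_022 {κ x : ℝ} (hκ : κ * h0 = ken x) (hx : ((697932185 : ℕ) : ℝ) / S ≤ x) (hx' : x ≤ (((697932185 : ℕ) : ℝ) + (42949674 : ℕ)) / S) :
    TriA PP.cur (VE (h0 * 0) 3 κ (h0 * x) (eng.v x) (h0 * (3 / 40)) (tnt (h0 * x) (3 / 10)) (tbl tK x) (tbl tL x) (tbl (smT h0⁻¹ tC) x)) 0 2 2 3 4 (-1) (-1) :=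
  (sideB hx hx').bothA (thrB hx hx') (en_pos (hx1 hx).le) (Or.inr rfl) (Or.inr rfl) fun y y' F =>
    (lt_or_ge (h0 * y') 1).elim
      (fun g => bothA_cert (s1 := false) (s2 := false) rfl hκ (en_pos (hx1 hx).le) (esg_rng (hx1 hx).le (hx2 hx').le).1 (mo_v x) covB30 covB42a hx hx'
        Pool.Agent.Strip051.G.I6500_6900.Tab.C.BA34.c_mm_022_a noCut_EA noExt_EA F trivial g)
      (fun g => bothA_cert (s1 := false) (s2 := false) rfl hκ (en_pos (hx1 hx).le) (esg_rng (hx1 hx).le (hx2 hx').le).1 (mo_v x) covB30 covB42b hx hx'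
        Pool.Agent.Strip051.G.I6500_6900.Tab.C.BA34.c_mm_022_b noCut_EA noExt_EA F trivial g)

theorem BA34_mm_023 {κ x : ℝ} (hκ : κ * h0 = ken x) (hx : ((697932185 : ℕ) : ℝ) / S ≤ x) (hx' : x ≤ (((697932185 : ℕ) : ℝ) + (42949674 : ℕ)) / S) :
    TriA PP.cur (VE (h0 * 0) 3 κ (h0 * x) (eng.v x) (h0 * (3 / 40)) (tnt (h0 * x) (3 / 10)) (tbl tK x) (tbl tL x) (tbl (smT h0⁻¹ tC) x)) 0 2 3 3 4 (-1) (-1) :=
  (sideB hx hx').bothA (thrB hx hx') (en_pos (hx1 hx).le) (Or.inr rfl) (Or.inr rfl) fun y y' F =>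
    (lt_or_ge (h0 * y') 1).elim
      (fun g => bothA_cert (s1 := false) (s2 := false) rfl hκ (en_pos (hx1 hx).le) (esg_rng (hx1 hx).le (hx2 hx').le).1 (mo_v x) covB30 covB42a hx hx'
        Pool.Agent.Strip051.G.I6500_6900.Tab.C.BA34.c_mm_023_a noCut_EA noExt_EA F trivial g)
      (fun g => bothA_cert (s1 := false) (s2 := false) rfl hκ (en_pos (hx1 hx).le) (esg_rng (hx1 hx).le (hx2 hx').le).1 (mo_v x) covB30 covB42b hx hx'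
        Pool.Agent.Strip051.G.I6500_6900.Tab.C.BA34.c_mm_023_b noCut_EA noExt_EA F trivial g)

theorem BA34_mm_033 {κ x : ℝ} (hκ : κ * h0 = ken x) (hx : ((697932185 : ℕ) : ℝ) / S ≤ x) (hx' : x ≤ (((697932185 : ℕ) : ℝ) + (42949674 : ℕ)) / S) :
    TriA PP.cur (VE (h0 * 0) 3 κ (h0 * x) (eng.v x) (h0 * (3 / 40)) (tnt (h0 * x) (3 / 10)) (tbl tK x) (tbl tL x) (tbl (smT h0⁻¹ tC) x)) 0 3 3 3 4 (-1) (-1) :=
  (sideB hx hx').bothA (thrB hx hx') (en_pos (hx1 hx).le) (Or.inr rfl) (Or.inr rfl) fun y y' F =>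
    bothA_cert (s1 := false) (s2 := false) rfl hκ (en_pos (hx1 hx).le) (esg_rng (hx1 hx).le (hx2 hx').le).1 (mo_v x) covB30 covB43 hx hx'
        Pool.Agent.Strip051.G.I6500_6900.Tab.C.BA34.c_mm_033 noCut_EA noExt_EA F trivial trivial

theorem BA34_mm_101 {κ x : ℝ} (hκ : κ * h0 = ken x) (hx : ((697932185 : ℕ) : ℝ) / S ≤ x) (hx' : x ≤ (((697932185 : ℕ) : ℝ) + (42949674 : ℕ)) / S) :
    TriA PP.cur (VE (h0 * 0) 3 κ (h0 * x) (eng.v x) (h0 * (3 / 40)) (tnt (h0 * x) (3 / 10)) (tbl tK x) (tbl tL x) (tbl (smT h0⁻¹ tC) x)) 1 0 1 3 4 (-1) (-1) :=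
  (sideB hx hx').bothA (thrB hx hx') (en_pos (hx1 hx).le) (Or.inr rfl) (Or.inr rfl) fun y y' F =>
    bothA_cert (s1 := false) (s2 := false) rfl hκ (en_pos (hx1 hx).le) (esg_rng (hx1 hx).le (hx2 hx').le).1 (mo_v x) covB31 covB40 hx hx'
        Pool.Agent.Strip051.G.I6500_6900.Tab.C.BA34.c_mm_101 noCut_EA noExt_EA F trivial trivial

theorem BA34_mm_102 {κ x : ℝ} (hκ : κ * h0 = ken x) (hx : ((697932185 : ℕ) : ℝ) / S ≤ x) (hx' : x ≤ (((697932185 : ℕ) : ℝ) + (42949674 : ℕ)) / S) :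
    TriA PP.cur (VE (h0 * 0) 3 κ (h0 * x) (eng.v x) (h0 * (3 / 40)) (tnt (h0 * x) (3 / 10)) (tbl tK x) (tbl tL x) (tbl (smT h0⁻¹ tC) x)) 1 0 2 3 4 (-1) (-1) :=
  (sideB hx hx').bothA (thrB hx hx') (en_pos (hx1 hx).le) (Or.inr rfl) (Or.inr rfl) fun y y' F =>
    bothA_cert (s1 := false) (s2 := false) rfl hκ (en_pos (hx1 hx).le) (esg_rng (hx1 hx).le (hx2 hx').le).1 (mo_v x) covB31 covB40 hx hx'
        Pool.Agent.Strip051.G.I6500_6900.Tab.C.BA34.c_mm_102 noCut_EA noExt_EA F trivial trivial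

theorem BA34_mm_112 {κ x : ℝ} (hκ : κ * h0 = ken x) (hx : ((697932185 : ℕ) : ℝ) / S ≤ x) (hx' : x ≤ (((697932185 : ℕ) : ℝ) + (42949674 : ℕ)) / S) :
    TriA PP.cur (VE (h0 * 0) 3 κ (h0 * x) (eng.v x) (h0 * (3 / 40)) (tnt (h0 * x) (3 / 10)) (tbl tK x) (tbl tL x) (tbl (smT h0⁻¹ tC) x)) 1 1 2 3 4 (-1) (-1) :=
  (sideB hx hx').bothA (thrB hx hx') (en_pos (hx1 hx).le) (Or.inr rfl) (Or.inr rfl) fun y y' F =>
    bothA_cert (s1 := false) (s2 := false) rfl hκ (en_pos (hx1 hx).le) (esg_rng (hx1 hx).le (hx2 hx').le).1 (mo_v x) covB31 covB41 hx hx'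
        Pool.Agent.Strip051.G.I6500_6900.Tab.C.BA34.c_mm_112 noCut_EA noExt_EA F trivial trivial

theorem BA34_mm_113 {κ x : ℝ} (hκ : κ * h0 = ken x) (hx : ((697932185 : ℕ) : ℝ) / S ≤ x) (hx' : x ≤ (((697932185 : ℕ) : ℝ) + (42949674 : ℕ)) / S) :
    TriA PP.cur (VE (h0 * 0) 3 κ (h0 * x) (eng.v x) (h0 * (3 / 40)) (tnt (h0 * x) (3 / 10)) (tbl tK x) (tbl tL x) (tbl (smT h0⁻¹ tC) x)) 1 1 3 3 4 (-1) (-1) :=
  (sideB hx hx').bothA (thrB hx hx') (en_pos (hx1 hx).le) (Or.inr rfl) (Or.inr rfl) fun y y' F =>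
    bothA_cert (s1 := false) (s2 := false) rfl hκ (en_pos (hx1 hx).le) (esg_rng (hx1 hx).le (hx2 hx').le).1 (mo_v x) covB31 covB41 hx hx'
        Pool.Agent.Strip051.G.I6500_6900.Tab.C.BA34.c_mm_113 noCut_EA noExt_EA F trivial trivial

theorem BA34_mm_123 {κ x : ℝ} (hκ : κ * h0 = ken x) (hx : ((697932185 : ℕ) : ℝ) / S ≤ x) (hx' : x ≤ (((697932185 : ℕ) : ℝ) + (42949674 : ℕ)) / S) :
    TriA PP.cur (VE (h0 * 0) 3 κ (h0 * x) (eng.v x) (h0 * (3 / 40)) (tnt (h0 * x) (3 / 10)) (tbl tK x) (tbl tL x) (tbl (smT h0⁻¹ tC) x)) 1 2 3 3 4 (-1) (-1) :=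
  (sideB hx hx').bothA (thrB hx hx') (en_pos (hx1 hx).le) (Or.inr rfl) (Or.inr rfl) fun y y' F =>
    (lt_or_ge (h0 * y') 1).elim
      (fun g => bothA_cert (s1 := false) (s2 := false) rfl hκ (en_pos (hx1 hx).le) (esg_rng (hx1 hx).le (hx2 hx').le).1 (mo_v x) covB31 covB42a hx hx'
        Pool.Agent.Strip051.G.I6500_6900.Tab.C.BA34.c_mm_123_a noCut_EA noExt_EA F trivial g)
      (fun g => bothA_cert (s1 := false) (s2 := false) rfl hκ (en_pos (hx1 hx).le) (esg_rng (hx1 hx).le (hx2 hx').le).1 (mo_v x) covB31 covB42b hx hx'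
        Pool.Agent.Strip051.G.I6500_6900.Tab.C.BA34.c_mm_123_b noCut_EA noExt_EA F trivial g)

theorem BA34_mm_133 {κ x : ℝ} (hκ : κ * h0 = ken x) (hx : ((697932185 : ℕ) : ℝ) / S ≤ x) (hx' : x ≤ (((697932185 : ℕ) : ℝ) + (42949674 : ℕ)) / S) :
    TriA PP.cur (VE (h0 * 0) 3 κ (h0 * x) (eng.v x) (h0 * (3 / 40)) (tnt (h0 * x) (3 / 10)) (tbl tK x) (tbl tL x) (tbl (smT h0⁻¹ tC) x)) 1 3 3 3 4 (-1) (-1) :=
  (sideB hx hx').bothA (thrB hx hx') (en_pos (hx1 hx).le) (Or.inr rfl) (Or.inr rfl) fun y y' F =>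
    bothA_cert (s1 := false) (s2 := false) rfl hκ (en_pos (hx1 hx).le) (esg_rng (hx1 hx).le (hx2 hx').le).1 (mo_v x) covB31 covB43 hx hx'
        Pool.Agent.Strip051.G.I6500_6900.Tab.C.BA34.c_mm_133 noCut_EA noExt_EA F trivial trivial

theorem BA34_mm_202 {κ x : ℝ} (hκ : κ * h0 = ken x) (hx : ((697932185 : ℕ) : ℝ) / S ≤ x) (hx' : x ≤ (((697932185 : ℕ) : ℝ) + (42949674 : ℕ)) / S) :
    TriA PP.cur (VE (h0 * 0) 3 κ (h0 * x) (eng.v x) (h0 * (3 / 40)) (tnt (h0 * x) (3 / 10)) (tbl tK x) (tbl tL x) (tbl (smT h0⁻¹ tC) x)) 2 0 2 3 4 (-1) (-1) :=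
  (sideB hx hx').bothA (thrB hx hx') (en_pos (hx1 hx).le) (Or.inr rfl) (Or.inr rfl) fun y y' F =>
    (lt_or_ge (h0 * y) 1).elim
      (fun h => bothA_cert (s1 := false) (s2 := false) rfl hκ (en_pos (hx1 hx).le) (esg_rng (hx1 hx).le (hx2 hx').le).1 (mo_v x) covB32a covB40 hx hx'
        Pool.Agent.Strip051.G.I6500_6900.Tab.C.BA34.c_mm_202_a (cutEA_cons (Pool.Agent.Strip051.G.I6500_6900.Tab.altB_A202R_34 hκ hx hx') cutEA_nil) noExt_EA F h trivial)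
      (fun h => bothA_cert (s1 := false) (s2 := false) rfl hκ (en_pos (hx1 hx).le) (esg_rng (hx1 hx).le (hx2 hx').le).1 (mo_v x) covB32b covB40 hx hx'
        Pool.Agent.Strip051.G.I6500_6900.Tab.C.BA34.c_mm_202_b (cutEA_cons (Pool.Agent.Strip051.G.I6500_6900.Tab.altB_A202R_34 hκ hx hx') cutEA_nil) noExt_EA F h trivial)

theorem BA34_mm_203 {κ x : ℝ} (hκ : κ * h0 = ken x) (hx : ((697932185 : ℕ) : ℝ) / S ≤ x) (hx' : x ≤ (((697932185 : ℕ) : ℝ) + (42949674 : ℕ)) / S) :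
    TriA PP.cur (VE (h0 * 0) 3 κ (h0 * x) (eng.v x) (h0 * (3 / 40)) (tnt (h0 * x) (3 / 10)) (tbl tK x) (tbl tL x) (tbl (smT h0⁻¹ tC) x)) 2 0 3 3 4 (-1) (-1) :=
  (sideB hx hx').bothA (thrB hx hx') (en_pos (hx1 hx).le) (Or.inr rfl) (Or.inr rfl) fun y y' F =>
    (lt_or_ge (h0 * y) 1).elim
      (fun h => bothA_cert (s1 := false) (s2 := false) rfl hκ (en_pos (hx1 hx).le) (esg_rng (hx1 hx).le (hx2 hx').le).1 (mo_v x) covB32a covB40 hx hx'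
        Pool.Agent.Strip051.G.I6500_6900.Tab.C.BA34.c_mm_203_a noCut_EA noExt_EA F h trivial)
      (fun h => bothA_cert (s1 := false) (s2 := false) rfl hκ (en_pos (hx1 hx).le) (esg_rng (hx1 hx).le (hx2 hx').le).1 (mo_v x) covB32b covB40 hx hx'
        Pool.Agent.Strip051.G.I6500_6900.Tab.C.BA34.c_mm_203_b noCut_EA noExt_EA F h trivial)

theorem BA34_mm_213 {κ x : ℝ} (hκ : κ * h0 = ken x) (hx : ((697932185 : ℕ) : ℝ) / S ≤ x) (hx' : x ≤ (((697932185 : ℕ) : ℝ) + (42949674 : ℕ)) / S) :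
    TriA PP.cur (VE (h0 * 0) 3 κ (h0 * x) (eng.v x) (h0 * (3 / 40)) (tnt (h0 * x) (3 / 10)) (tbl tK x) (tbl tL x) (tbl (smT h0⁻¹ tC) x)) 2 1 3 3 4 (-1) (-1) :=
  (sideB hx hx').bothA (thrB hx hx') (en_pos (hx1 hx).le) (Or.inr rfl) (Or.inr rfl) fun y y' F =>
    (lt_or_ge (h0 * y) 1).elim
      (fun h => bothA_cert (s1 := false) (s2 := false) rfl hκ (en_pos (hx1 hx).le) (esg_rng (hx1 hx).le (hx2 hx').le).1 (mo_v x) covB32a covB41 hx hx'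
        Pool.Agent.Strip051.G.I6500_6900.Tab.C.BA34.c_mm_213_a noCut_EA noExt_EA F h trivial)
      (fun h => bothA_cert (s1 := false) (s2 := false) rfl hκ (en_pos (hx1 hx).le) (esg_rng (hx1 hx).le (hx2 hx').le).1 (mo_v x) covB32b covB41 hx hx'
        Pool.Agent.Strip051.G.I6500_6900.Tab.C.BA34.c_mm_213_b noCut_EA noExt_EA F h trivial)

theorem BA34_mm_303 {κ x : ℝ} (hκ : κ * h0 = ken x) (hx : ((697932185 : ℕ) : ℝ) / S ≤ x) (hx' : x ≤ (((697932185 : ℕ) : ℝ) + (42949674 : ℕ)) / S) :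
    TriA PP.cur (VE (h0 * 0) 3 κ (h0 * x) (eng.v x) (h0 * (3 / 40)) (tnt (h0 * x) (3 / 10)) (tbl tK x) (tbl tL x) (tbl (smT h0⁻¹ tC) x)) 3 0 3 3 4 (-1) (-1) :=
  (sideB hx hx').bothA (thrB hx hx') (en_pos (hx1 hx).le) (Or.inr rfl) (Or.inr rfl) fun y y' F =>
    bothA_cert (s1 := false) (s2 := false) rfl hκ (en_pos (hx1 hx).le) (esg_rng (hx1 hx).le (hx2 hx').le).1 (mo_v x) covB33 covB40 hx hx'
        Pool.Agent.Strip051.G.I6500_6900.Tab.C.BA34.c_mm_303 noCut_EA noExt_EA F trivial trivial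

theorem BA34_mm_313 {κ x : ℝ} (hκ : κ * h0 = ken x) (hx : ((697932185 : ℕ) : ℝ) / S ≤ x) (hx' : x ≤ (((697932185 : ℕ) : ℝ) + (42949674 : ℕ)) / S) :
    TriA PP.cur (VE (h0 * 0) 3 κ (h0 * x) (eng.v x) (h0 * (3 / 40)) (tnt (h0 * x) (3 / 10)) (tbl tK x) (tbl tL x) (tbl (smT h0⁻¹ tC) x)) 3 1 3 3 4 (-1) (-1) :=
  (sideB hx hx').bothA (thrB hx hx') (en_pos (hx1 hx).le) (Or.inr rfl) (Or.inr rfl) fun y y' F =>
    bothA_cert (s1 := false) (s2 := false) rfl hκ (en_pos (hx1 hx).le) (esg_rng (hx1 hx).le (hx2 hx').le).1 (mo_v x) covB33 covB41 hx hx'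
        Pool.Agent.Strip051.G.I6500_6900.Tab.C.BA34.c_mm_313 noCut_EA noExt_EA F trivial trivial

theorem BA34 {κ x : ℝ} (hκ : κ * h0 = ken x) (hx : ((697932185 : ℕ) : ℝ) / S ≤ x) (hx' : x ≤ (((697932185 : ℕ) : ℝ) + (42949674 : ℕ)) / S) : AllTA PP.cur (VE (h0 * 0) 3 κ (h0 * x) (eng.v x) (h0 * (3 / 40)) (tnt (h0 * x) (3 / 10)) (tbl tK x) (tbl tL x) (tbl (smT h0⁻¹ tC) x)) 3 4 where
  pp := all17 (Q := fun a b c => TriA PP.cur (VE (h0 * 0) 3 κ (h0 * x) (eng.v x) (h0 * (3 / 40)) (tnt (h0 * x) (3 / 10)) (tbl tK x) (tbl tL x) (tbl (smT h0⁻¹ tC) x)) a b c 3 4 1 1)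
    (BA34_pp_001 hκ hx hx') (BA34_pp_011 hκ hx hx') (BA34_pp_012 hκ hx hx') (BA34_pp_022 hκ hx hx') (BA34_pp_023 hκ hx hx') (BA34_pp_033 hκ hx hx') (BA34_pp_101 hκ hx hx') (BA34_pp_102 hκ hx hx') (BA34_pp_112 hκ hx hx') (BA34_pp_113 hκ hx hx') (BA34_pp_123 hκ hx hx') (BA34_pp_133 hκ hx hx') (BA34_pp_202 hκ hx hx') (BA34_pp_203 hκ hx hx') (BA34_pp_213 hκ hx hx') (BA34_pp_303 hκ hx hx') (BA34_pp_313 hκ hx hx')
  pm := all17 (Q := fun a b c => TriA PP.cur (VE (h0 * 0) 3 κ (h0 * x) (eng.v x) (h0 * (3 / 40)) (tnt (h0 * x) (3 / 10)) (tbl tK x) (tbl tL x) (tbl (smT h0⁻¹ tC) x)) a b c 3 4 1 (-1))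
    (BA34_pm_001 hκ hx hx') (BA34_pm_011 hκ hx hx') (BA34_pm_012 hκ hx hx') (BA34_pm_022 hκ hx hx') (BA34_pm_023 hκ hx hx') (BA34_pm_033 hκ hx hx') (BA34_pm_101 hκ hx hx') (BA34_pm_102 hκ hx hx') (BA34_pm_112 hκ hx hx') (BA34_pm_113 hκ hx hx') (BA34_pm_123 hκ hx hx') (BA34_pm_133 hκ hx hx') (BA34_pm_202 hκ hx hx') (BA34_pm_203 hκ hx hx') (BA34_pm_213 hκ hx hx') (BA34_pm_303 hκ hx hx') (BA34_pm_313 hκ hx hx')
  mm := all17 (Q := fun a b c => TriA PP.cur (VE (h0 * 0) 3 κ (h0 * x) (eng.v x) (h0 * (3 / 40)) (tnt (h0 * x) (3 / 10)) (tbl tK x) (tbl tL x) (tbl (smT h0⁻¹ tC) x)) a b c 3 4 (-1) (-1))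
    (BA34_mm_001 hκ hx hx') (BA34_mm_011 hκ hx hx') (BA34_mm_012 hκ hx hx') (BA34_mm_022 hκ hx hx') (BA34_mm_023 hκ hx hx') (BA34_mm_033 hκ hx hx') (BA34_mm_101 hκ hx hx') (BA34_mm_102 hκ hx hx') (BA34_mm_112 hκ hx hx') (BA34_mm_113 hκ hx hx') (BA34_mm_123 hκ hx hx') (BA34_mm_133 hκ hx hx') (BA34_mm_202 hκ hx hx') (BA34_mm_203 hκ hx hx') (BA34_mm_213 hκ hx hx') (BA34_mm_303 hκ hx hx') (BA34_mm_313 hκ hx hx')

theorem BA35_pp_001 {κ x : ℝ} (hκ : κ * h0 = ken x) (hx : ((697932185 : ℕ) : ℝ) / S ≤ x) (hx' : x ≤ (((697932185 : ℕ) : ℝ) + (42949674 : ℕ)) / S) :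
    TriA PP.cur (VE (h0 * 0) 3 κ (h0 * x) (eng.v x) (h0 * (3 / 40)) (tnt (h0 * x) (3 / 10)) (tbl tK x) (tbl tL x) (tbl (smT h0⁻¹ tC) x)) 0 0 1 3 5 1 1 :=
  (sideB hx hx').bothA (thrB hx hx') (en_pos (hx1 hx).le) (Or.inl rfl) (Or.inl rfl) fun y y' F =>
    bothA_cert (s1 := true) (s2 := true) rfl hκ (en_pos (hx1 hx).le) (esg_rng (hx1 hx).le (hx2 hx').le).1 (mo_v x) covB30 covB50 hx hx'
        Pool.Agent.Strip051.G.I6500_6900.Tab.C.BA35.c_pp_001 noCut_EA noExt_EA F trivial trivial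

theorem BA35_pp_011 {κ x : ℝ} (hκ : κ * h0 = ken x) (hx : ((697932185 : ℕ) : ℝ) / S ≤ x) (hx' : x ≤ (((697932185 : ℕ) : ℝ) + (42949674 : ℕ)) / S) :
    TriA PP.cur (VE (h0 * 0) 3 κ (h0 * x) (eng.v x) (h0 * (3 / 40)) (tnt (h0 * x) (3 / 10)) (tbl tK x) (tbl tL x) (tbl (smT h0⁻¹ tC) x)) 0 1 1 3 5 1 1 :=
  (sideB hx hx').bothA (thrB hx hx') (en_pos (hx1 hx).le) (Or.inl rfl) (Or.inl rfl) fun y y' F =>
    bothA_cert (s1 := true) (s2 := true) rfl hκ (en_pos (hx1 hx).le) (esg_rng (hx1 hx).le (hx2 hx').le).1 (mo_v x) covB30 covB51 hx hx'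
        Pool.Agent.Strip051.G.I6500_6900.Tab.C.BA35.c_pp_011 noCut_EA noExt_EA F trivial trivial

theorem BA35_pp_012 {κ x : ℝ} (hκ : κ * h0 = ken x) (hx : ((697932185 : ℕ) : ℝ) / S ≤ x) (hx' : x ≤ (((697932185 : ℕ) : ℝ) + (42949674 : ℕ)) / S) :
    TriA PP.cur (VE (h0 * 0) 3 κ (h0 * x) (eng.v x) (h0 * (3 / 40)) (tnt (h0 * x) (3 / 10)) (tbl tK x) (tbl tL x) (tbl (smT h0⁻¹ tC) x)) 0 1 2 3 5 1 1 :=
  (sideB hx hx').bothA (thrB hx hx') (en_pos (hx1 hx).le) (Or.inl rfl) (Or.inl rfl) fun y y' F =>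
    bothA_cert (s1 := true) (s2 := true) rfl hκ (en_pos (hx1 hx).le) (esg_rng (hx1 hx).le (hx2 hx').le).1 (mo_v x) covB30 covB51 hx hx'
        Pool.Agent.Strip051.G.I6500_6900.Tab.C.BA35.c_pp_012 noCut_EA noExt_EA F trivial trivial

theorem BA35_pp_022 {κ x : ℝ} (hκ : κ * h0 = ken x) (hx : ((697932185 : ℕ) : ℝ) / S ≤ x) (hx' : x ≤ (((697932185 : ℕ) : ℝ) + (42949674 : ℕ)) / S) :
    TriA PP.cur (VE (h0 * 0) 3 κ (h0 * x) (eng.v x) (h0 * (3 / 40)) (tnt (h0 * x) (3 / 10)) (tbl tK x) (tbl tL x) (tbl (smT h0⁻¹ tC) x)) 0 2 2 3 5 1 1 :=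
  (sideB hx hx').bothA (thrB hx hx') (en_pos (hx1 hx).le) (Or.inl rfl) (Or.inl rfl) fun y y' F =>
    bothA_cert (s1 := true) (s2 := true) rfl hκ (en_pos (hx1 hx).le) (esg_rng (hx1 hx).le (hx2 hx').le).1 (mo_v x) covB30 covB52 hx hx'
        Pool.Agent.Strip051.G.I6500_6900.Tab.C.BA35.c_pp_022 noCut_EA noExt_EA F trivial trivial

theorem BA35_pp_023 {κ x : ℝ} (hκ : κ * h0 = ken x) (hx : ((697932185 : ℕ) : ℝ) / S ≤ x) (hx' : x ≤ (((697932185 : ℕ) : ℝ) + (42949674 : ℕ)) / S) :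
    TriA PP.cur (VE (h0 * 0) 3 κ (h0 * x) (eng.v x) (h0 * (3 / 40)) (tnt (h0 * x) (3 / 10)) (tbl tK x) (tbl tL x) (tbl (smT h0⁻¹ tC) x)) 0 2 3 3 5 1 1 :=
  (sideB hx hx').bothA (thrB hx hx') (en_pos (hx1 hx).le) (Or.inl rfl) (Or.inl rfl) fun y y' F =>
    bothA_cert (s1 := true) (s2 := true) rfl hκ (en_pos (hx1 hx).le) (esg_rng (hx1 hx).le (hx2 hx').le).1 (mo_v x) covB30 covB52 hx hx'
        Pool.Agent.Strip051.G.I6500_6900.Tab.C.BA35.c_pp_023 noCut_EA noExt_EA F trivial trivial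

theorem BA35_pp_033 {κ x : ℝ} (hκ : κ * h0 = ken x) (hx : ((697932185 : ℕ) : ℝ) / S ≤ x) (hx' : x ≤ (((697932185 : ℕ) : ℝ) + (42949674 : ℕ)) / S) :
    TriA PP.cur (VE (h0 * 0) 3 κ (h0 * x) (eng.v x) (h0 * (3 / 40)) (tnt (h0 * x) (3 / 10)) (tbl tK x) (tbl tL x) (tbl (smT h0⁻¹ tC) x)) 0 3 3 3 5 1 1 :=
  (sideB hx hx').bothA (thrB hx hx') (en_pos (hx1 hx).le) (Or.inl rfl) (Or.inl rfl) fun y y' F =>
    bothA_cert (s1 := true) (s2 := true) rfl hκ (en_pos (hx1 hx).le) (esg_rng (hx1 hx).le (hx2 hx').le).1 (mo_v x) covB30 covB53 hx hx'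
        Pool.Agent.Strip051.G.I6500_6900.Tab.C.BA35.c_pp_033 noCut_EA noExt_EA F trivial trivial

theorem BA35_pp_101 {κ x : ℝ} (hκ : κ * h0 = ken x) (hx : ((697932185 : ℕ) : ℝ) / S ≤ x) (hx' : x ≤ (((697932185 : ℕ) : ℝ) + (42949674 : ℕ)) / S) :
    TriA PP.cur (VE (h0 * 0) 3 κ (h0 * x) (eng.v x) (h0 * (3 / 40)) (tnt (h0 * x) (3 / 10)) (tbl tK x) (tbl tL x) (tbl (smT h0⁻¹ tC) x)) 1 0 1 3 5 1 1 :=
  (sideB hx hx').bothA (thrB hx hx') (en_pos (hx1 hx).le) (Or.inl rfl) (Or.inl rfl) fun y y' F =>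
    bothA_cert (s1 := true) (s2 := true) rfl hκ (en_pos (hx1 hx).le) (esg_rng (hx1 hx).le (hx2 hx').le).1 (mo_v x) covB31 covB50 hx hx'
        Pool.Agent.Strip051.G.I6500_6900.Tab.C.BA35.c_pp_101 noCut_EA noExt_EA F trivial trivial

theorem BA35_pp_102 {κ x : ℝ} (hκ : κ * h0 = ken x) (hx : ((697932185 : ℕ) : ℝ) / S ≤ x) (hx' : x ≤ (((697932185 : ℕ) : ℝ) + (42949674 : ℕ)) / S) :
    TriA PP.cur (VE (h0 * 0) 3 κ (h0 * x) (eng.v x) (h0 * (3 / 40)) (tnt (h0 * x) (3 / 10)) (tbl tK x) (tbl tL x) (tbl (smT h0⁻¹ tC) x)) 1 0 2 3 5 1 1 :=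
  (sideB hx hx').bothA (thrB hx hx') (en_pos (hx1 hx).le) (Or.inl rfl) (Or.inl rfl) fun y y' F =>
    bothA_cert (s1 := true) (s2 := true) rfl hκ (en_pos (hx1 hx).le) (esg_rng (hx1 hx).le (hx2 hx').le).1 (mo_v x) covB31 covB50 hx hx'
        Pool.Agent.Strip051.G.I6500_6900.Tab.C.BA35.c_pp_102 noCut_EA noExt_EA F trivial trivial

theorem BA35_pp_112 {κ x : ℝ} (hκ : κ * h0 = ken x) (hx : ((697932185 : ℕ) : ℝ) / S ≤ x) (hx' : x ≤ (((697932185 : ℕ) : ℝ) + (42949674 : ℕ)) / S) :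
    TriA PP.cur (VE (h0 * 0) 3 κ (h0 * x) (eng.v x) (h0 * (3 / 40)) (tnt (h0 * x) (3 / 10)) (tbl tK x) (tbl tL x) (tbl (smT h0⁻¹ tC) x)) 1 1 2 3 5 1 1 :=
  (sideB hx hx').bothA (thrB hx hx') (en_pos (hx1 hx).le) (Or.inl rfl) (Or.inl rfl) fun y y' F =>
    bothA_cert (s1 := true) (s2 := true) rfl hκ (en_pos (hx1 hx).le) (esg_rng (hx1 hx).le (hx2 hx').le).1 (mo_v x) covB31 covB51 hx hx'
        Pool.Agent.Strip051.G.I6500_6900.Tab.C.BA35.c_pp_112 noCut_EA noExt_EA F trivial trivial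

theorem BA35_pp_113 {κ x : ℝ} (hκ : κ * h0 = ken x) (hx : ((697932185 : ℕ) : ℝ) / S ≤ x) (hx' : x ≤ (((697932185 : ℕ) : ℝ) + (42949674 : ℕ)) / S) :
    TriA PP.cur (VE (h0 * 0) 3 κ (h0 * x) (eng.v x) (h0 * (3 / 40)) (tnt (h0 * x) (3 / 10)) (tbl tK x) (tbl tL x) (tbl (smT h0⁻¹ tC) x)) 1 1 3 3 5 1 1 :=
  (sideB hx hx').bothA (thrB hx hx') (en_pos (hx1 hx).le) (Or.inl rfl) (Or.inl rfl) fun y y' F =>
    bothA_cert (s1 := true) (s2 := true) rfl hκ (en_pos (hx1 hx).le) (esg_rng (hx1 hx).le (hx2 hx').le).1 (mo_v x) covB31 covB51 hx hx'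
        Pool.Agent.Strip051.G.I6500_6900.Tab.C.BA35.c_pp_113 noCut_EA noExt_EA F trivial trivial

theorem BA35_pp_123 {κ x : ℝ} (hκ : κ * h0 = ken x) (hx : ((697932185 : ℕ) : ℝ) / S ≤ x) (hx' : x ≤ (((697932185 : ℕ) : ℝ) + (42949674 : ℕ)) / S) :
    TriA PP.cur (VE (h0 * 0) 3 κ (h0 * x) (eng.v x) (h0 * (3 / 40)) (tnt (h0 * x) (3 / 10)) (tbl tK x) (tbl tL x) (tbl (smT h0⁻¹ tC) x)) 1 2 3 3 5 1 1 :=
  (sideB hx hx').bothA (thrB hx hx') (en_pos (hx1 hx).le) (Or.inl rfl) (Or.inl rfl) fun y y' F =>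
    bothA_cert (s1 := true) (s2 := true) rfl hκ (en_pos (hx1 hx).le) (esg_rng (hx1 hx).le (hx2 hx').le).1 (mo_v x) covB31 covB52 hx hx'
        Pool.Agent.Strip051.G.I6500_6900.Tab.C.BA35.c_pp_123 noCut_EA noExt_EA F trivial trivial

theorem BA35_pp_133 {κ x : ℝ} (hκ : κ * h0 = ken x) (hx : ((697932185 : ℕ) : ℝ) / S ≤ x) (hx' : x ≤ (((697932185 : ℕ) : ℝ) + (42949674 : ℕ)) / S) :
    TriA PP.cur (VE (h0 * 0) 3 κ (h0 * x) (eng.v x) (h0 * (3 / 40)) (tnt (h0 * x) (3 / 10)) (tbl tK x) (tbl tL x) (tbl (smT h0⁻¹ tC) x)) 1 3 3 3 5 1 1 :=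
  (sideB hx hx').bothA (thrB hx hx') (en_pos (hx1 hx).le) (Or.inl rfl) (Or.inl rfl) fun y y' F =>
    bothA_cert (s1 := true) (s2 := true) rfl hκ (en_pos (hx1 hx).le) (esg_rng (hx1 hx).le (hx2 hx').le).1 (mo_v x) covB31 covB53 hx hx'
        Pool.Agent.Strip051.G.I6500_6900.Tab.C.BA35.c_pp_133 noCut_EA noExt_EA F trivial trivial

theorem BA35_pp_202 {κ x : ℝ} (hκ : κ * h0 = ken x) (hx : ((697932185 : ℕ) : ℝ) / S ≤ x) (hx' : x ≤ (((697932185 : ℕ) : ℝ) + (42949674 : ℕ)) / S) :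
    TriA PP.cur (VE (h0 * 0) 3 κ (h0 * x) (eng.v x) (h0 * (3 / 40)) (tnt (h0 * x) (3 / 10)) (tbl tK x) (tbl tL x) (tbl (smT h0⁻¹ tC) x)) 2 0 2 3 5 1 1 :=
  (sideB hx hx').bothA (thrB hx hx') (en_pos (hx1 hx).le) (Or.inl rfl) (Or.inl rfl) fun y y' F =>
    (lt_or_ge (h0 * y) 1).elim
      (fun h => bothA_cert (s1 := true) (s2 := true) rfl hκ (en_pos (hx1 hx).le) (esg_rng (hx1 hx).le (hx2 hx').le).1 (mo_v x) covB32a covB50 hx hx'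
        Pool.Agent.Strip051.G.I6500_6900.Tab.C.BA35.c_pp_202_a noCut_EA noExt_EA F h trivial)
      (fun h => bothA_cert (s1 := true) (s2 := true) rfl hκ (en_pos (hx1 hx).le) (esg_rng (hx1 hx).le (hx2 hx').le).1 (mo_v x) covB32b covB50 hx hx'
        Pool.Agent.Strip051.G.I6500_6900.Tab.C.BA35.c_pp_202_b noCut_EA noExt_EA F h trivial)

theorem BA35_pp_203 {κ x : ℝ} (hκ : κ * h0 = ken x) (hx : ((697932185 : ℕ) : ℝ) / S ≤ x) (hx' : x ≤ (((697932185 : ℕ) : ℝ) + (42949674 : ℕ)) / S) :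
    TriA PP.cur (VE (h0 * 0) 3 κ (h0 * x) (eng.v x) (h0 * (3 / 40)) (tnt (h0 * x) (3 / 10)) (tbl tK x) (tbl tL x) (tbl (smT h0⁻¹ tC) x)) 2 0 3 3 5 1 1 :=
  (sideB hx hx').bothA (thrB hx hx') (en_pos (hx1 hx).le) (Or.inl rfl) (Or.inl rfl) fun y y' F =>
    (lt_or_ge (h0 * y) 1).elim
      (fun h => bothA_cert (s1 := true) (s2 := true) rfl hκ (en_pos (hx1 hx).le) (esg_rng (hx1 hx).le (hx2 hx').le).1 (mo_v x) covB32a covB50 hx hx'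
        Pool.Agent.Strip051.G.I6500_6900.Tab.C.BA35.c_pp_203_a noCut_EA noExt_EA F h trivial)
      (fun h => bothA_cert (s1 := true) (s2 := true) rfl hκ (en_pos (hx1 hx).le) (esg_rng (hx1 hx).le (hx2 hx').le).1 (mo_v x) covB32b covB50 hx hx'
        Pool.Agent.Strip051.G.I6500_6900.Tab.C.BA35.c_pp_203_b noCut_EA noExt_EA F h trivial)

theorem BA35_pp_213 {κ x : ℝ} (hκ : κ * h0 = ken x) (hx : ((697932185 : ℕ) : ℝ) / S ≤ x) (hx' : x ≤ (((697932185 : ℕ) : ℝ) + (42949674 : ℕ)) / S) :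
    TriA PP.cur (VE (h0 * 0) 3 κ (h0 * x) (eng.v x) (h0 * (3 / 40)) (tnt (h0 * x) (3 / 10)) (tbl tK x) (tbl tL x) (tbl (smT h0⁻¹ tC) x)) 2 1 3 3 5 1 1 :=
  (sideB hx hx').bothA (thrB hx hx') (en_pos (hx1 hx).le) (Or.inl rfl) (Or.inl rfl) fun y y' F =>
    (lt_or_ge (h0 * y) 1).elim
      (fun h => bothA_cert (s1 := true) (s2 := true) rfl hκ (en_pos (hx1 hx).le) (esg_rng (hx1 hx).le (hx2 hx').le).1 (mo_v x) covB32a covB51 hx hx'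
        Pool.Agent.Strip051.G.I6500_6900.Tab.C.BA35.c_pp_213_a noCut_EA noExt_EA F h trivial)
      (fun h => bothA_cert (s1 := true) (s2 := true) rfl hκ (en_pos (hx1 hx).le) (esg_rng (hx1 hx).le (hx2 hx').le).1 (mo_v x) covB32b covB51 hx hx'
        Pool.Agent.Strip051.G.I6500_6900.Tab.C.BA35.c_pp_213_b noCut_EA noExt_EA F h trivial)

theorem BA35_pp_303 {κ x : ℝ} (hκ : κ * h0 = ken x) (hx : ((697932185 : ℕ) : ℝ) / S ≤ x) (hx' : x ≤ (((697932185 : ℕ) : ℝ) + (42949674 : ℕ)) / S) :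
    TriA PP.cur (VE (h0 * 0) 3 κ (h0 * x) (eng.v x) (h0 * (3 / 40)) (tnt (h0 * x) (3 / 10)) (tbl tK x) (tbl tL x) (tbl (smT h0⁻¹ tC) x)) 3 0 3 3 5 1 1 :=
  (sideB hx hx').bothA (thrB hx hx') (en_pos (hx1 hx).le) (Or.inl rfl) (Or.inl rfl) fun y y' F =>
    bothA_cert (s1 := true) (s2 := true) rfl hκ (en_pos (hx1 hx).le) (esg_rng (hx1 hx).le (hx2 hx').le).1 (mo_v x) covB33 covB50 hx hx'
        Pool.Agent.Strip051.G.I6500_6900.Tab.C.BA35.c_pp_303 noCut_EA noExt_EA F trivial trivial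

theorem BA35_pp_313 {κ x : ℝ} (hκ : κ * h0 = ken x) (hx : ((697932185 : ℕ) : ℝ) / S ≤ x) (hx' : x ≤ (((697932185 : ℕ) : ℝ) + (42949674 : ℕ)) / S) :
    TriA PP.cur (VE (h0 * 0) 3 κ (h0 * x) (eng.v x) (h0 * (3 / 40)) (tnt (h0 * x) (3 / 10)) (tbl tK x) (tbl tL x) (tbl (smT h0⁻¹ tC) x)) 3 1 3 3 5 1 1 :=
  (sideB hx hx').bothA (thrB hx hx') (en_pos (hx1 hx).le) (Or.inl rfl) (Or.inl rfl) fun y y' F =>
    bothA_cert (s1 := true) (s2 := true) rfl hκ (en_pos (hx1 hx).le) (esg_rng (hx1 hx).le (hx2 hx').le).1 (mo_v x) covB33 covB51 hx hx'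
        Pool.Agent.Strip051.G.I6500_6900.Tab.C.BA35.c_pp_313 noCut_EA noExt_EA F trivial trivial

theorem BA35_pm_001 {κ x : ℝ} (hκ : κ * h0 = ken x) (hx : ((697932185 : ℕ) : ℝ) / S ≤ x) (hx' : x ≤ (((697932185 : ℕ) : ℝ) + (42949674 : ℕ)) / S) :
    TriA PP.cur (VE (h0 * 0) 3 κ (h0 * x) (eng.v x) (h0 * (3 / 40)) (tnt (h0 * x) (3 / 10)) (tbl tK x) (tbl tL x) (tbl (smT h0⁻¹ tC) x)) 0 0 1 3 5 1 (-1) :=
  (sideB hx hx').bothA (thrB hx hx') (en_pos (hx1 hx).le) (Or.inl rfl) (Or.inr rfl) fun y y' F =>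
    bothA_cert (s1 := true) (s2 := false) rfl hκ (en_pos (hx1 hx).le) (esg_rng (hx1 hx).le (hx2 hx').le).1 (mo_v x) covB30 covB50 hx hx'
        Pool.Agent.Strip051.G.I6500_6900.Tab.C.BA35.c_pm_001 noCut_EA noExt_EA F trivial trivial

theorem BA35_pm_011 {κ x : ℝ} (hκ : κ * h0 = ken x) (hx : ((697932185 : ℕ) : ℝ) / S ≤ x) (hx' : x ≤ (((697932185 : ℕ) : ℝ) + (42949674 : ℕ)) / S) :
    TriA PP.cur (VE (h0 * 0) 3 κ (h0 * x) (eng.v x) (h0 * (3 / 40)) (tnt (h0 * x) (3 / 10)) (tbl tK x) (tbl tL x) (tbl (smT h0⁻¹ tC) x)) 0 1 1 3 5 1 (-1) :=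
  (sideB hx hx').bothA (thrB hx hx') (en_pos (hx1 hx).le) (Or.inl rfl) (Or.inr rfl) fun y y' F =>
    bothA_cert (s1 := true) (s2 := false) rfl hκ (en_pos (hx1 hx).le) (esg_rng (hx1 hx).le (hx2 hx').le).1 (mo_v x) covB30 covB51 hx hx'
        Pool.Agent.Strip051.G.I6500_6900.Tab.C.BA35.c_pm_011 (cutEA_cons (Pool.Agent.Strip051.G.I6500_6900.Tab.altB_A011R_35 hκ hx hx') cutEA_nil) noExt_EA F trivial trivial

theorem BA35_pm_012 {κ x : ℝ} (hκ : κ * h0 = ken x) (hx : ((697932185 : ℕ) : ℝ) / S ≤ x) (hx' : x ≤ (((697932185 : ℕ) : ℝ) + (42949674 : ℕ)) / S) :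
    TriA PP.cur (VE (h0 * 0) 3 κ (h0 * x) (eng.v x) (h0 * (3 / 40)) (tnt (h0 * x) (3 / 10)) (tbl tK x) (tbl tL x) (tbl (smT h0⁻¹ tC) x)) 0 1 2 3 5 1 (-1) :=
  (sideB hx hx').bothA (thrB hx hx') (en_pos (hx1 hx).le) (Or.inl rfl) (Or.inr rfl) fun y y' F =>
    bothA_cert (s1 := true) (s2 := false) rfl hκ (en_pos (hx1 hx).le) (esg_rng (hx1 hx).le (hx2 hx').le).1 (mo_v x) covB30 covB51 hx hx'
        Pool.Agent.Strip051.G.I6500_6900.Tab.C.BA35.c_pm_012 (cutEA_cons (Pool.Agent.Strip051.G.I6500_6900.Tab.altB_A012R_35 hκ hx hx') cutEA_nil) noExt_EA F trivial trivial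

theorem BA35_pm_022 {κ x : ℝ} (hκ : κ * h0 = ken x) (hx : ((697932185 : ℕ) : ℝ) / S ≤ x) (hx' : x ≤ (((697932185 : ℕ) : ℝ) + (42949674 : ℕ)) / S) :
    TriA PP.cur (VE (h0 * 0) 3 κ (h0 * x) (eng.v x) (h0 * (3 / 40)) (tnt (h0 * x) (3 / 10)) (tbl tK x) (tbl tL x) (tbl (smT h0⁻¹ tC) x)) 0 2 2 3 5 1 (-1) :=
  (sideB hx hx').bothA (thrB hx hx') (en_pos (hx1 hx).le) (Or.inl rfl) (Or.inr rfl) fun y y' F =>
    bothA_cert (s1 := true) (s2 := false) rfl hκ (en_pos (hx1 hx).le) (esg_rng (hx1 hx).le (hx2 hx').le).1 (mo_v x) covB30 covB52 hx hx'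
        Pool.Agent.Strip051.G.I6500_6900.Tab.C.BA35.c_pm_022 noCut_EA noExt_EA F trivial trivial

theorem BA35_pm_023 {κ x : ℝ} (hκ : κ * h0 = ken x) (hx : ((697932185 : ℕ) : ℝ) / S ≤ x) (hx' : x ≤ (((697932185 : ℕ) : ℝ) + (42949674 : ℕ)) / S) :
    TriA PP.cur (VE (h0 * 0) 3 κ (h0 * x) (eng.v x) (h0 * (3 / 40)) (tnt (h0 * x) (3 / 10)) (tbl tK x) (tbl tL x) (tbl (smT h0⁻¹ tC) x)) 0 2 3 3 5 1 (-1) :=
  (sideB hx hx').bothA (thrB hx hx') (en_pos (hx1 hx).le) (Or.inl rfl) (Or.inr rfl) fun y y' F =>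
    bothA_cert (s1 := true) (s2 := false) rfl hκ (en_pos (hx1 hx).le) (esg_rng (hx1 hx).le (hx2 hx').le).1 (mo_v x) covB30 covB52 hx hx'
        Pool.Agent.Strip051.G.I6500_6900.Tab.C.BA35.c_pm_023 noCut_EA noExt_EA F trivial trivial

theorem BA35_pm_033 {κ x : ℝ} (hκ : κ * h0 = ken x) (hx : ((697932185 : ℕ) : ℝ) / S ≤ x) (hx' : x ≤ (((697932185 : ℕ) : ℝ) + (42949674 : ℕ)) / S) :
    TriA PP.cur (VE (h0 * 0) 3 κ (h0 * x) (eng.v x) (h0 * (3 / 40)) (tnt (h0 * x) (3 / 10)) (tbl tK x) (tbl tL x) (tbl (smT h0⁻¹ tC) x)) 0 3 3 3 5 1 (-1) :=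
  (sideB hx hx').bothA (thrB hx hx') (en_pos (hx1 hx).le) (Or.inl rfl) (Or.inr rfl) fun y y' F =>
    bothA_cert (s1 := true) (s2 := false) rfl hκ (en_pos (hx1 hx).le) (esg_rng (hx1 hx).le (hx2 hx').le).1 (mo_v x) covB30 covB53 hx hx'
        Pool.Agent.Strip051.G.I6500_6900.Tab.C.BA35.c_pm_033 noCut_EA noExt_EA F trivial trivial

theorem BA35_pm_101 {κ x : ℝ} (hκ : κ * h0 = ken x) (hx : ((697932185 : ℕ) : ℝ) / S ≤ x) (hx' : x ≤ (((697932185 : ℕ) : ℝ) + (42949674 : ℕ)) / S) :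
    TriA PP.cur (VE (h0 * 0) 3 κ (h0 * x) (eng.v x) (h0 * (3 / 40)) (tnt (h0 * x) (3 / 10)) (tbl tK x) (tbl tL x) (tbl (smT h0⁻¹ tC) x)) 1 0 1 3 5 1 (-1) :=
  (sideB hx hx').bothA (thrB hx hx') (en_pos (hx1 hx).le) (Or.inl rfl) (Or.inr rfl) fun y y' F =>
    bothA_cert (s1 := true) (s2 := false) rfl hκ (en_pos (hx1 hx).le) (esg_rng (hx1 hx).le (hx2 hx').le).1 (mo_v x) covB31 covB50 hx hx'
        Pool.Agent.Strip051.G.I6500_6900.Tab.C.BA35.c_pm_101 noCut_EA noExt_EA F trivial trivial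

theorem BA35_pm_102 {κ x : ℝ} (hκ : κ * h0 = ken x) (hx : ((697932185 : ℕ) : ℝ) / S ≤ x) (hx' : x ≤ (((697932185 : ℕ) : ℝ) + (42949674 : ℕ)) / S) :
    TriA PP.cur (VE (h0 * 0) 3 κ (h0 * x) (eng.v x) (h0 * (3 / 40)) (tnt (h0 * x) (3 / 10)) (tbl tK x) (tbl tL x) (tbl (smT h0⁻¹ tC) x)) 1 0 2 3 5 1 (-1) :=
  (sideB hx hx').bothA (thrB hx hx') (en_pos (hx1 hx).le) (Or.inl rfl) (Or.inr rfl) fun y y' F =>
    bothA_cert (s1 := true) (s2 := false) rfl hκ (en_pos (hx1 hx).le) (esg_rng (hx1 hx).le (hx2 hx').le).1 (mo_v x) covB31 covB50 hx hx'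
        Pool.Agent.Strip051.G.I6500_6900.Tab.C.BA35.c_pm_102 noCut_EA noExt_EA F trivial trivial

theorem BA35_pm_112 {κ x : ℝ} (hκ : κ * h0 = ken x) (hx : ((697932185 : ℕ) : ℝ) / S ≤ x) (hx' : x ≤ (((697932185 : ℕ) : ℝ) + (42949674 : ℕ)) / S) :
    TriA PP.cur (VE (h0 * 0) 3 κ (h0 * x) (eng.v x) (h0 * (3 / 40)) (tnt (h0 * x) (3 / 10)) (tbl tK x) (tbl tL x) (tbl (smT h0⁻¹ tC) x)) 1 1 2 3 5 1 (-1) :=
  (sideB hx hx').bothA (thrB hx hx') (en_pos (hx1 hx).le) (Or.inl rfl) (Or.inr rfl) fun y y' F =>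
    bothA_cert (s1 := true) (s2 := false) rfl hκ (en_pos (hx1 hx).le) (esg_rng (hx1 hx).le (hx2 hx').le).1 (mo_v x) covB31 covB51 hx hx'
        Pool.Agent.Strip051.G.I6500_6900.Tab.C.BA35.c_pm_112 noCut_EA noExt_EA F trivial trivial

theorem BA35_pm_113 {κ x : ℝ} (hκ : κ * h0 = ken x) (hx : ((697932185 : ℕ) : ℝ) / S ≤ x) (hx' : x ≤ (((697932185 : ℕ) : ℝ) + (42949674 : ℕ)) / S) :
    TriA PP.cur (VE (h0 * 0) 3 κ (h0 * x) (eng.v x) (h0 * (3 / 40)) (tnt (h0 * x) (3 / 10)) (tbl tK x) (tbl tL x) (tbl (smT h0⁻¹ tC) x)) 1 1 3 3 5 1 (-1) :=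
  (sideB hx hx').bothA (thrB hx hx') (en_pos (hx1 hx).le) (Or.inl rfl) (Or.inr rfl) fun y y' F =>
    bothA_cert (s1 := true) (s2 := false) rfl hκ (en_pos (hx1 hx).le) (esg_rng (hx1 hx).le (hx2 hx').le).1 (mo_v x) covB31 covB51 hx hx'
        Pool.Agent.Strip051.G.I6500_6900.Tab.C.BA35.c_pm_113 noCut_EA noExt_EA F trivial trivial

theorem BA35_pm_123 {κ x : ℝ} (hκ : κ * h0 = ken x) (hx : ((697932185 : ℕ) : ℝ) / S ≤ x) (hx' : x ≤ (((697932185 : ℕ) : ℝ) + (42949674 : ℕ)) / S) :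
    TriA PP.cur (VE (h0 * 0) 3 κ (h0 * x) (eng.v x) (h0 * (3 / 40)) (tnt (h0 * x) (3 / 10)) (tbl tK x) (tbl tL x) (tbl (smT h0⁻¹ tC) x)) 1 2 3 3 5 1 (-1) :=
  (sideB hx hx').bothA (thrB hx hx') (en_pos (hx1 hx).le) (Or.inl rfl) (Or.inr rfl) fun y y' F =>
    bothA_cert (s1 := true) (s2 := false) rfl hκ (en_pos (hx1 hx).le) (esg_rng (hx1 hx).le (hx2 hx').le).1 (mo_v x) covB31 covB52 hx hx'
        Pool.Agent.Strip051.G.I6500_6900.Tab.C.BA35.c_pm_123 noCut_EA noExt_EA F trivial trivial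

theorem BA35_pm_133 {κ x : ℝ} (hκ : κ * h0 = ken x) (hx : ((697932185 : ℕ) : ℝ) / S ≤ x) (hx' : x ≤ (((697932185 : ℕ) : ℝ) + (42949674 : ℕ)) / S) :
    TriA PP.cur (VE (h0 * 0) 3 κ (h0 * x) (eng.v x) (h0 * (3 / 40)) (tnt (h0 * x) (3 / 10)) (tbl tK x) (tbl tL x) (tbl (smT h0⁻¹ tC) x)) 1 3 3 3 5 1 (-1) :=
  (sideB hx hx').bothA (thrB hx hx') (en_pos (hx1 hx).le) (Or.inl rfl) (Or.inr rfl) fun y y' F =>
    bothA_cert (s1 := true) (s2 := false) rfl hκ (en_pos (hx1 hx).le) (esg_rng (hx1 hx).le (hx2 hx').le).1 (mo_v x) covB31 covB53 hx hx'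
        Pool.Agent.Strip051.G.I6500_6900.Tab.C.BA35.c_pm_133 noCut_EA noExt_EA F trivial trivial

theorem BA35_pm_202 {κ x : ℝ} (hκ : κ * h0 = ken x) (hx : ((697932185 : ℕ) : ℝ) / S ≤ x) (hx' : x ≤ (((697932185 : ℕ) : ℝ) + (42949674 : ℕ)) / S) :
    TriA PP.cur (VE (h0 * 0) 3 κ (h0 * x) (eng.v x) (h0 * (3 / 40)) (tnt (h0 * x) (3 / 10)) (tbl tK x) (tbl tL x) (tbl (smT h0⁻¹ tC) x)) 2 0 2 3 5 1 (-1) :=
  (sideB hx hx').bothA (thrB hx hx') (en_pos (hx1 hx).le) (Or.inl rfl) (Or.inr rfl) fun y y' F =>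
    (lt_or_ge (h0 * y) 1).elim
      (fun h => bothA_cert (s1 := true) (s2 := false) rfl hκ (en_pos (hx1 hx).le) (esg_rng (hx1 hx).le (hx2 hx').le).1 (mo_v x) covB32a covB50 hx hx'
        Pool.Agent.Strip051.G.I6500_6900.Tab.C.BA35.c_pm_202_a noCut_EA noExt_EA F h trivial)
      (fun h => bothA_cert (s1 := true) (s2 := false) rfl hκ (en_pos (hx1 hx).le) (esg_rng (hx1 hx).le (hx2 hx').le).1 (mo_v x) covB32b covB50 hx hx'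
        Pool.Agent.Strip051.G.I6500_6900.Tab.C.BA35.c_pm_202_b noCut_EA noExt_EA F h trivial)

theorem BA35_pm_203 {κ x : ℝ} (hκ : κ * h0 = ken x) (hx : ((697932185 : ℕ) : ℝ) / S ≤ x) (hx' : x ≤ (((697932185 : ℕ) : ℝ) + (42949674 : ℕ)) / S) :
    TriA PP.cur (VE (h0 * 0) 3 κ (h0 * x) (eng.v x) (h0 * (3 / 40)) (tnt (h0 * x) (3 / 10)) (tbl tK x) (tbl tL x) (tbl (smT h0⁻¹ tC) x)) 2 0 3 3 5 1 (-1) :=
  (sideB hx hx').bothA (thrB hx hx') (en_pos (hx1 hx).le) (Or.inl rfl) (Or.inr rfl) fun y y' F =>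
    (lt_or_ge (h0 * y) 1).elim
      (fun h => bothA_cert (s1 := true) (s2 := false) rfl hκ (en_pos (hx1 hx).le) (esg_rng (hx1 hx).le (hx2 hx').le).1 (mo_v x) covB32a covB50 hx hx'
        Pool.Agent.Strip051.G.I6500_6900.Tab.C.BA35.c_pm_203_a noCut_EA noExt_EA F h trivial)
      (fun h => bothA_cert (s1 := true) (s2 := false) rfl hκ (en_pos (hx1 hx).le) (esg_rng (hx1 hx).le (hx2 hx').le).1 (mo_v x) covB32b covB50 hx hx'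
        Pool.Agent.Strip051.G.I6500_6900.Tab.C.BA35.c_pm_203_b noCut_EA noExt_EA F h trivial)

theorem BA35_pm_213 {κ x : ℝ} (hκ : κ * h0 = ken x) (hx : ((697932185 : ℕ) : ℝ) / S ≤ x) (hx' : x ≤ (((697932185 : ℕ) : ℝ) + (42949674 : ℕ)) / S) :
    TriA PP.cur (VE (h0 * 0) 3 κ (h0 * x) (eng.v x) (h0 * (3 / 40)) (tnt (h0 * x) (3 / 10)) (tbl tK x) (tbl tL x) (tbl (smT h0⁻¹ tC) x)) 2 1 3 3 5 1 (-1) :=
  (sideB hx hx').bothA (thrB hx hx') (en_pos (hx1 hx).le) (Or.inl rfl) (Or.inr rfl) fun y y' F =>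
    (lt_or_ge (h0 * y) 1).elim
      (fun h => bothA_cert (s1 := true) (s2 := false) rfl hκ (en_pos (hx1 hx).le) (esg_rng (hx1 hx).le (hx2 hx').le).1 (mo_v x) covB32a covB51 hx hx'
        Pool.Agent.Strip051.G.I6500_6900.Tab.C.BA35.c_pm_213_a noCut_EA noExt_EA F h trivial)
      (fun h => bothA_cert (s1 := true) (s2 := false) rfl hκ (en_pos (hx1 hx).le) (esg_rng (hx1 hx).le (hx2 hx').le).1 (mo_v x) covB32b covB51 hx hx'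
        Pool.Agent.Strip051.G.I6500_6900.Tab.C.BA35.c_pm_213_b noCut_EA noExt_EA F h trivial)

theorem BA35_pm_303 {κ x : ℝ} (hκ : κ * h0 = ken x) (hx : ((697932185 : ℕ) : ℝ) / S ≤ x) (hx' : x ≤ (((697932185 : ℕ) : ℝ) + (42949674 : ℕ)) / S) :
    TriA PP.cur (VE (h0 * 0) 3 κ (h0 * x) (eng.v x) (h0 * (3 / 40)) (tnt (h0 * x) (3 / 10)) (tbl tK x) (tbl tL x) (tbl (smT h0⁻¹ tC) x)) 3 0 3 3 5 1 (-1) :=
  (sideB hx hx').bothA (thrB hx hx') (en_pos (hx1 hx).le) (Or.inl rfl) (Or.inr rfl) fun y y' F =>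
    bothA_cert (s1 := true) (s2 := false) rfl hκ (en_pos (hx1 hx).le) (esg_rng (hx1 hx).le (hx2 hx').le).1 (mo_v x) covB33 covB50 hx hx'
        Pool.Agent.Strip051.G.I6500_6900.Tab.C.BA35.c_pm_303 noCut_EA noExt_EA F trivial trivial

theorem BA35_pm_313 {κ x : ℝ} (hκ : κ * h0 = ken x) (hx : ((697932185 : ℕ) : ℝ) / S ≤ x) (hx' : x ≤ (((697932185 : ℕ) : ℝ) + (42949674 : ℕ)) / S) :
    TriA PP.cur (VE (h0 * 0) 3 κ (h0 * x) (eng.v x) (h0 * (3 / 40)) (tnt (h0 * x) (3 / 10)) (tbl tK x) (tbl tL x) (tbl (smT h0⁻¹ tC) x)) 3 1 3 3 5 1 (-1) :=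
  (sideB hx hx').bothA (thrB hx hx') (en_pos (hx1 hx).le) (Or.inl rfl) (Or.inr rfl) fun y y' F =>
    bothA_cert (s1 := true) (s2 := false) rfl hκ (en_pos (hx1 hx).le) (esg_rng (hx1 hx).le (hx2 hx').le).1 (mo_v x) covB33 covB51 hx hx'
        Pool.Agent.Strip051.G.I6500_6900.Tab.C.BA35.c_pm_313 noCut_EA noExt_EA F trivial trivial

theorem BA35_mm_001 {κ x : ℝ} (hκ : κ * h0 = ken x) (hx : ((697932185 : ℕ) : ℝ) / S ≤ x) (hx' : x ≤ (((697932185 : ℕ) : ℝ) + (42949674 : ℕ)) / S) :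
    TriA PP.cur (VE (h0 * 0) 3 κ (h0 * x) (eng.v x) (h0 * (3 / 40)) (tnt (h0 * x) (3 / 10)) (tbl tK x) (tbl tL x) (tbl (smT h0⁻¹ tC) x)) 0 0 1 3 5 (-1) (-1) :=
  (sideB hx hx').bothA (thrB hx hx') (en_pos (hx1 hx).le) (Or.inr rfl) (Or.inr rfl) fun y y' F =>
    bothA_cert (s1 := false) (s2 := false) rfl hκ (en_pos (hx1 hx).le) (esg_rng (hx1 hx).le (hx2 hx').le).1 (mo_v x) covB30 covB50 hx hx'
        Pool.Agent.Strip051.G.I6500_6900.Tab.C.BA35.c_mm_001 noCut_EA noExt_EA F trivial trivial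

theorem BA35_mm_011 {κ x : ℝ} (hκ : κ * h0 = ken x) (hx : ((697932185 : ℕ) : ℝ) / S ≤ x) (hx' : x ≤ (((697932185 : ℕ) : ℝ) + (42949674 : ℕ)) / S) :
    TriA PP.cur (VE (h0 * 0) 3 κ (h0 * x) (eng.v x) (h0 * (3 / 40)) (tnt (h0 * x) (3 / 10)) (tbl tK x) (tbl tL x) (tbl (smT h0⁻¹ tC) x)) 0 1 1 3 5 (-1) (-1) :=
  (sideB hx hx').bothA (thrB hx hx') (en_pos (hx1 hx).le) (Or.inr rfl) (Or.inr rfl) fun y y' F =>
    bothA_cert (s1 := false) (s2 := false) rfl hκ (en_pos (hx1 hx).le) (esg_rng (hx1 hx).le (hx2 hx').le).1 (mo_v x) covB30 covB51 hx hx'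
        Pool.Agent.Strip051.G.I6500_6900.Tab.C.BA35.c_mm_011 noCut_EA noExt_EA F trivial trivial

theorem BA35_mm_012 {κ x : ℝ} (hκ : κ * h0 = ken x) (hx : ((697932185 : ℕ) : ℝ) / S ≤ x) (hx' : x ≤ (((697932185 : ℕ) : ℝ) + (42949674 : ℕ)) / S) :
    TriA PP.cur (VE (h0 * 0) 3 κ (h0 * x) (eng.v x) (h0 * (3 / 40)) (tnt (h0 * x) (3 / 10)) (tbl tK x) (tbl tL x) (tbl (smT h0⁻¹ tC) x)) 0 1 2 3 5 (-1) (-1) :=
  (sideB hx hx').bothA (thrB hx hx') (en_pos (hx1 hx).le) (Or.inr rfl) (Or.inr rfl) fun y y' F =>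
    bothA_cert (s1 := false) (s2 := false) rfl hκ (en_pos (hx1 hx).le) (esg_rng (hx1 hx).le (hx2 hx').le).1 (mo_v x) covB30 covB51 hx hx'
        Pool.Agent.Strip051.G.I6500_6900.Tab.C.BA35.c_mm_012 noCut_EA noExt_EA F trivial trivial

theorem BA35_mm_022 {κ x : ℝ} (hκ : κ * h0 = ken x) (hx : ((697932185 : ℕ) : ℝ) / S ≤ x) (hx' : x ≤ (((697932185 : ℕ) : ℝ) + (42949674 : ℕ)) / S) :
    TriA PP.cur (VE (h0 * 0) 3 κ (h0 * x) (eng.v x) (h0 * (3 / 40)) (tnt (h0 * x) (3 / 10)) (tbl tK x) (tbl tL x) (tbl (smT h0⁻¹ tC) x)) 0 2 2 3 5 (-1) (-1) :=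
  (sideB hx hx').bothA (thrB hx hx') (en_pos (hx1 hx).le) (Or.inr rfl) (Or.inr rfl) fun y y' F =>
    bothA_cert (s1 := false) (s2 := false) rfl hκ (en_pos (hx1 hx).le) (esg_rng (hx1 hx).le (hx2 hx').le).1 (mo_v x) covB30 covB52 hx hx'
        Pool.Agent.Strip051.G.I6500_6900.Tab.C.BA35.c_mm_022 noCut_EA noExt_EA F trivial trivial

theorem BA35_mm_023 {κ x : ℝ} (hκ : κ * h0 = ken x) (hx : ((697932185 : ℕ) : ℝ) / S ≤ x) (hx' : x ≤ (((697932185 : ℕ) : ℝ) + (42949674 : ℕ)) / S) :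
    TriA PP.cur (VE (h0 * 0) 3 κ (h0 * x) (eng.v x) (h0 * (3 / 40)) (tnt (h0 * x) (3 / 10)) (tbl tK x) (tbl tL x) (tbl (smT h0⁻¹ tC) x)) 0 2 3 3 5 (-1) (-1) :=
  (sideB hx hx').bothA (thrB hx hx') (en_pos (hx1 hx).le) (Or.inr rfl) (Or.inr rfl) fun y y' F =>
    bothA_cert (s1 := false) (s2 := false) rfl hκ (en_pos (hx1 hx).le) (esg_rng (hx1 hx).le (hx2 hx').le).1 (mo_v x) covB30 covB52 hx hx'
        Pool.Agent.Strip051.G.I6500_6900.Tab.C.BA35.c_mm_023 noCut_EA noExt_EA F trivial trivial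

theorem BA35_mm_033 {κ x : ℝ} (hκ : κ * h0 = ken x) (hx : ((697932185 : ℕ) : ℝ) / S ≤ x) (hx' : x ≤ (((697932185 : ℕ) : ℝ) + (42949674 : ℕ)) / S) :
    TriA PP.cur (VE (h0 * 0) 3 κ (h0 * x) (eng.v x) (h0 * (3 / 40)) (tnt (h0 * x) (3 / 10)) (tbl tK x) (tbl tL x) (tbl (smT h0⁻¹ tC) x)) 0 3 3 3 5 (-1) (-1) :=
  (sideB hx hx').bothA (thrB hx hx') (en_pos (hx1 hx).le) (Or.inr rfl) (Or.inr rfl) fun y y' F =>
    bothA_cert (s1 := false) (s2 := false) rfl hκ (en_pos (hx1 hx).le) (esg_rng (hx1 hx).le (hx2 hx').le).1 (mo_v x) covB30 covB53 hx hx'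
        Pool.Agent.Strip051.G.I6500_6900.Tab.C.BA35.c_mm_033 noCut_EA noExt_EA F trivial trivial

theorem BA35_mm_101 {κ x : ℝ} (hκ : κ * h0 = ken x) (hx : ((697932185 : ℕ) : ℝ) / S ≤ x) (hx' : x ≤ (((697932185 : ℕ) : ℝ) + (42949674 : ℕ)) / S) :
    TriA PP.cur (VE (h0 * 0) 3 κ (h0 * x) (eng.v x) (h0 * (3 / 40)) (tnt (h0 * x) (3 / 10)) (tbl tK x) (tbl tL x) (tbl (smT h0⁻¹ tC) x)) 1 0 1 3 5 (-1) (-1) :=
  (sideB hx hx').bothA (thrB hx hx') (en_pos (hx1 hx).le) (Or.inr rfl) (Or.inr rfl) fun y y' F =>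
    bothA_cert (s1 := false) (s2 := false) rfl hκ (en_pos (hx1 hx).le) (esg_rng (hx1 hx).le (hx2 hx').le).1 (mo_v x) covB31 covB50 hx hx'
        Pool.Agent.Strip051.G.I6500_6900.Tab.C.BA35.c_mm_101 noCut_EA noExt_EA F trivial trivial

theorem BA35_mm_102 {κ x : ℝ} (hκ : κ * h0 = ken x) (hx : ((697932185 : ℕ) : ℝ) / S ≤ x) (hx' : x ≤ (((697932185 : ℕ) : ℝ) + (42949674 : ℕ)) / S) :
    TriA PP.cur (VE (h0 * 0) 3 κ (h0 * x) (eng.v x) (h0 * (3 / 40)) (tnt (h0 * x) (3 / 10)) (tbl tK x) (tbl tL x) (tbl (smT h0⁻¹ tC) x)) 1 0 2 3 5 (-1) (-1) :=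
  (sideB hx hx').bothA (thrB hx hx') (en_pos (hx1 hx).le) (Or.inr rfl) (Or.inr rfl) fun y y' F =>
    bothA_cert (s1 := false) (s2 := false) rfl hκ (en_pos (hx1 hx).le) (esg_rng (hx1 hx).le (hx2 hx').le).1 (mo_v x) covB31 covB50 hx hx'
        Pool.Agent.Strip051.G.I6500_6900.Tab.C.BA35.c_mm_102 noCut_EA noExt_EA F trivial trivial

theorem BA35_mm_112 {κ x : ℝ} (hκ : κ * h0 = ken x) (hx : ((697932185 : ℕ) : ℝ) / S ≤ x) (hx' : x ≤ (((697932185 : ℕ) : ℝ) + (42949674 : ℕ)) / S) :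
    TriA PP.cur (VE (h0 * 0) 3 κ (h0 * x) (eng.v x) (h0 * (3 / 40)) (tnt (h0 * x) (3 / 10)) (tbl tK x) (tbl tL x) (tbl (smT h0⁻¹ tC) x)) 1 1 2 3 5 (-1) (-1) :=
  (sideB hx hx').bothA (thrB hx hx') (en_pos (hx1 hx).le) (Or.inr rfl) (Or.inr rfl) fun y y' F =>
    bothA_cert (s1 := false) (s2 := false) rfl hκ (en_pos (hx1 hx).le) (esg_rng (hx1 hx).le (hx2 hx').le).1 (mo_v x) covB31 covB51 hx hx'
        Pool.Agent.Strip051.G.I6500_6900.Tab.C.BA35.c_mm_112 noCut_EA noExt_EA F trivial trivial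

theorem BA35_mm_113 {κ x : ℝ} (hκ : κ * h0 = ken x) (hx : ((697932185 : ℕ) : ℝ) / S ≤ x) (hx' : x ≤ (((697932185 : ℕ) : ℝ) + (42949674 : ℕ)) / S) :
    TriA PP.cur (VE (h0 * 0) 3 κ (h0 * x) (eng.v x) (h0 * (3 / 40)) (tnt (h0 * x) (3 / 10)) (tbl tK x) (tbl tL x) (tbl (smT h0⁻¹ tC) x)) 1 1 3 3 5 (-1) (-1) :=
  (sideB hx hx').bothA (thrB hx hx') (en_pos (hx1 hx).le) (Or.inr rfl) (Or.inr rfl) fun y y' F =>
    bothA_cert (s1 := false) (s2 := false) rfl hκ (en_pos (hx1 hx).le) (esg_rng (hx1 hx).le (hx2 hx').le).1 (mo_v x) covB31 covB51 hx hx'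
        Pool.Agent.Strip051.G.I6500_6900.Tab.C.BA35.c_mm_113 noCut_EA noExt_EA F trivial trivial

theorem BA35_mm_123 {κ x : ℝ} (hκ : κ * h0 = ken x) (hx : ((697932185 : ℕ) : ℝ) / S ≤ x) (hx' : x ≤ (((697932185 : ℕ) : ℝ) + (42949674 : ℕ)) / S) :
    TriA PP.cur (VE (h0 * 0) 3 κ (h0 * x) (eng.v x) (h0 * (3 / 40)) (tnt (h0 * x) (3 / 10)) (tbl tK x) (tbl tL x) (tbl (smT h0⁻¹ tC) x)) 1 2 3 3 5 (-1) (-1) :=
  (sideB hx hx').bothA (thrB hx hx') (en_pos (hx1 hx).le) (Or.inr rfl) (Or.inr rfl) fun y y' F =>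
    bothA_cert (s1 := false) (s2 := false) rfl hκ (en_pos (hx1 hx).le) (esg_rng (hx1 hx).le (hx2 hx').le).1 (mo_v x) covB31 covB52 hx hx'
        Pool.Agent.Strip051.G.I6500_6900.Tab.C.BA35.c_mm_123 noCut_EA noExt_EA F trivial trivial

theorem BA35_mm_133 {κ x : ℝ} (hκ : κ * h0 = ken x) (hx : ((697932185 : ℕ) : ℝ) / S ≤ x) (hx' : x ≤ (((697932185 : ℕ) : ℝ) + (42949674 : ℕ)) / S) :
    TriA PP.cur (VE (h0 * 0) 3 κ (h0 * x) (eng.v x) (h0 * (3 / 40)) (tnt (h0 * x) (3 / 10)) (tbl tK x) (tbl tL x) (tbl (smT h0⁻¹ tC) x)) 1 3 3 3 5 (-1) (-1) :=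
  (sideB hx hx').bothA (thrB hx hx') (en_pos (hx1 hx).le) (Or.inr rfl) (Or.inr rfl) fun y y' F =>
    bothA_cert (s1 := false) (s2 := false) rfl hκ (en_pos (hx1 hx).le) (esg_rng (hx1 hx).le (hx2 hx').le).1 (mo_v x) covB31 covB53 hx hx'
        Pool.Agent.Strip051.G.I6500_6900.Tab.C.BA35.c_mm_133 noCut_EA noExt_EA F trivial trivial

theorem BA35_mm_202 {κ x : ℝ} (hκ : κ * h0 = ken x) (hx : ((697932185 : ℕ) : ℝ) / S ≤ x) (hx' : x ≤ (((697932185 : ℕ) : ℝ) + (42949674 : ℕ)) / S) :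
    TriA PP.cur (VE (h0 * 0) 3 κ (h0 * x) (eng.v x) (h0 * (3 / 40)) (tnt (h0 * x) (3 / 10)) (tbl tK x) (tbl tL x) (tbl (smT h0⁻¹ tC) x)) 2 0 2 3 5 (-1) (-1) :=
  (sideB hx hx').bothA (thrB hx hx') (en_pos (hx1 hx).le) (Or.inr rfl) (Or.inr rfl) fun y y' F =>
    (lt_or_ge (h0 * y) 1).elim
      (fun h => bothA_cert (s1 := false) (s2 := false) rfl hκ (en_pos (hx1 hx).le) (esg_rng (hx1 hx).le (hx2 hx').le).1 (mo_v x) covB32a covB50 hx hx'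
        Pool.Agent.Strip051.G.I6500_6900.Tab.C.BA35.c_mm_202_a noCut_EA noExt_EA F h trivial)
      (fun h => bothA_cert (s1 := false) (s2 := false) rfl hκ (en_pos (hx1 hx).le) (esg_rng (hx1 hx).le (hx2 hx').le).1 (mo_v x) covB32b covB50 hx hx'
        Pool.Agent.Strip051.G.I6500_6900.Tab.C.BA35.c_mm_202_b noCut_EA noExt_EA F h trivial)

theorem BA35_mm_203 {κ x : ℝ} (hκ : κ * h0 = ken x) (hx : ((697932185 : ℕ) : ℝ) / S ≤ x) (hx' : x ≤ (((697932185 : ℕ) : ℝ) + (42949674 : ℕ)) / S) :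
    TriA PP.cur (VE (h0 * 0) 3 κ (h0 * x) (eng.v x) (h0 * (3 / 40)) (tnt (h0 * x) (3 / 10)) (tbl tK x) (tbl tL x) (tbl (smT h0⁻¹ tC) x)) 2 0 3 3 5 (-1) (-1) :=
  (sideB hx hx').bothA (thrB hx hx') (en_pos (hx1 hx).le) (Or.inr rfl) (Or.inr rfl) fun y y' F =>
    (lt_or_ge (h0 * y) 1).elim
      (fun h => bothA_cert (s1 := false) (s2 := false) rfl hκ (en_pos (hx1 hx).le) (esg_rng (hx1 hx).le (hx2 hx').le).1 (mo_v x) covB32a covB50 hx hx'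
        Pool.Agent.Strip051.G.I6500_6900.Tab.C.BA35.c_mm_203_a noCut_EA noExt_EA F h trivial)
      (fun h => bothA_cert (s1 := false) (s2 := false) rfl hκ (en_pos (hx1 hx).le) (esg_rng (hx1 hx).le (hx2 hx').le).1 (mo_v x) covB32b covB50 hx hx'
        Pool.Agent.Strip051.G.I6500_6900.Tab.C.BA35.c_mm_203_b noCut_EA noExt_EA F h trivial)

theorem BA35_mm_213 {κ x : ℝ} (hκ : κ * h0 = ken x) (hx : ((697932185 : ℕ) : ℝ) / S ≤ x) (hx' : x ≤ (((697932185 : ℕ) : ℝ) + (42949674 : ℕ)) / S) :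
    TriA PP.cur (VE (h0 * 0) 3 κ (h0 * x) (eng.v x) (h0 * (3 / 40)) (tnt (h0 * x) (3 / 10)) (tbl tK x) (tbl tL x) (tbl (smT h0⁻¹ tC) x)) 2 1 3 3 5 (-1) (-1) :=
  (sideB hx hx').bothA (thrB hx hx') (en_pos (hx1 hx).le) (Or.inr rfl) (Or.inr rfl) fun y y' F =>
    (lt_or_ge (h0 * y) 1).elim
      (fun h => bothA_cert (s1 := false) (s2 := false) rfl hκ (en_pos (hx1 hx).le) (esg_rng (hx1 hx).le (hx2 hx').le).1 (mo_v x) covB32a covB51 hx hx'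
        Pool.Agent.Strip051.G.I6500_6900.Tab.C.BA35.c_mm_213_a noCut_EA noExt_EA F h trivial)
      (fun h => bothA_cert (s1 := false) (s2 := false) rfl hκ (en_pos (hx1 hx).le) (esg_rng (hx1 hx).le (hx2 hx').le).1 (mo_v x) covB32b covB51 hx hx'
        Pool.Agent.Strip051.G.I6500_6900.Tab.C.BA35.c_mm_213_b noCut_EA noExt_EA F h trivial)

theorem BA35_mm_303 {κ x : ℝ} (hκ : κ * h0 = ken x) (hx : ((697932185 : ℕ) : ℝ) / S ≤ x) (hx' : x ≤ (((697932185 : ℕ) : ℝ) + (42949674 : ℕ)) / S) :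
    TriA PP.cur (VE (h0 * 0) 3 κ (h0 * x) (eng.v x) (h0 * (3 / 40)) (tnt (h0 * x) (3 / 10)) (tbl tK x) (tbl tL x) (tbl (smT h0⁻¹ tC) x)) 3 0 3 3 5 (-1) (-1) :=
  (sideB hx hx').bothA (thrB hx hx') (en_pos (hx1 hx).le) (Or.inr rfl) (Or.inr rfl) fun y y' F =>
    bothA_cert (s1 := false) (s2 := false) rfl hκ (en_pos (hx1 hx).le) (esg_rng (hx1 hx).le (hx2 hx').le).1 (mo_v x) covB33 covB50 hx hx'
        Pool.Agent.Strip051.G.I6500_6900.Tab.C.BA35.c_mm_303 noCut_EA noExt_EA F trivial trivial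

theorem BA35_mm_313 {κ x : ℝ} (hκ : κ * h0 = ken x) (hx : ((697932185 : ℕ) : ℝ) / S ≤ x) (hx' : x ≤ (((697932185 : ℕ) : ℝ) + (42949674 : ℕ)) / S) :
    TriA PP.cur (VE (h0 * 0) 3 κ (h0 * x) (eng.v x) (h0 * (3 / 40)) (tnt (h0 * x) (3 / 10)) (tbl tK x) (tbl tL x) (tbl (smT h0⁻¹ tC) x)) 3 1 3 3 5 (-1) (-1) :=
  (sideB hx hx').bothA (thrB hx hx') (en_pos (hx1 hx).le) (Or.inr rfl) (Or.inr rfl) fun y y' F =>
    bothA_cert (s1 := false) (s2 := false) rfl hκ (en_pos (hx1 hx).le) (esg_rng (hx1 hx).le (hx2 hx').le).1 (mo_v x) covB33 covB51 hx hx'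
        Pool.Agent.Strip051.G.I6500_6900.Tab.C.BA35.c_mm_313 noCut_EA noExt_EA F trivial trivial

theorem BA35 {κ x : ℝ} (hκ : κ * h0 = ken x) (hx : ((697932185 : ℕ) : ℝ) / S ≤ x) (hx' : x ≤ (((697932185 : ℕ) : ℝ) + (42949674 : ℕ)) / S) : AllTA PP.cur (VE (h0 * 0) 3 κ (h0 * x) (eng.v x) (h0 * (3 / 40)) (tnt (h0 * x) (3 / 10)) (tbl tK x) (tbl tL x) (tbl (smT h0⁻¹ tC) x)) 3 5 where
  pp := all17 (Q := fun a b c => TriA PP.cur (VE (h0 * 0) 3 κ (h0 * x) (eng.v x) (h0 * (3 / 40)) (tnt (h0 * x) (3 / 10)) (tbl tK x) (tbl tL x) (tbl (smT h0⁻¹ tC) x)) a b c 3 5 1 1)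
    (BA35_pp_001 hκ hx hx') (BA35_pp_011 hκ hx hx') (BA35_pp_012 hκ hx hx') (BA35_pp_022 hκ hx hx') (BA35_pp_023 hκ hx hx') (BA35_pp_033 hκ hx hx') (BA35_pp_101 hκ hx hx') (BA35_pp_102 hκ hx hx') (BA35_pp_112 hκ hx hx') (BA35_pp_113 hκ hx hx') (BA35_pp_123 hκ hx hx') (BA35_pp_133 hκ hx hx') (BA35_pp_202 hκ hx hx') (BA35_pp_203 hκ hx hx') (BA35_pp_213 hκ hx hx') (BA35_pp_303 hκ hx hx') (BA35_pp_313 hκ hx hx')
  pm := all17 (Q := fun a b c => TriA PP.cur (VE (h0 * 0) 3 κ (h0 * x) (eng.v x) (h0 * (3 / 40)) (tnt (h0 * x) (3 / 10)) (tbl tK x) (tbl tL x) (tbl (smT h0⁻¹ tC) x)) a b c 3 5 1 (-1))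
    (BA35_pm_001 hκ hx hx') (BA35_pm_011 hκ hx hx') (BA35_pm_012 hκ hx hx') (BA35_pm_022 hκ hx hx') (BA35_pm_023 hκ hx hx') (BA35_pm_033 hκ hx hx') (BA35_pm_101 hκ hx hx') (BA35_pm_102 hκ hx hx') (BA35_pm_112 hκ hx hx') (BA35_pm_113 hκ hx hx') (BA35_pm_123 hκ hx hx') (BA35_pm_133 hκ hx hx') (BA35_pm_202 hκ hx hx') (BA35_pm_203 hκ hx hx') (BA35_pm_213 hκ hx hx') (BA35_pm_303 hκ hx hx') (BA35_pm_313 hκ hx hx')
  mm := all17 (Q := fun a b c => TriA PP.cur (VE (h0 * 0) 3 κ (h0 * x) (eng.v x) (h0 * (3 / 40)) (tnt (h0 * x) (3 / 10)) (tbl tK x) (tbl tL x) (tbl (smT h0⁻¹ tC) x)) a b c 3 5 (-1) (-1))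
    (BA35_mm_001 hκ hx hx') (BA35_mm_011 hκ hx hx') (BA35_mm_012 hκ hx hx') (BA35_mm_022 hκ hx hx') (BA35_mm_023 hκ hx hx') (BA35_mm_033 hκ hx hx') (BA35_mm_101 hκ hx hx') (BA35_mm_102 hκ hx hx') (BA35_mm_112 hκ hx hx') (BA35_mm_113 hκ hx hx') (BA35_mm_123 hκ hx hx') (BA35_mm_133 hκ hx hx') (BA35_mm_202 hκ hx hx') (BA35_mm_203 hκ hx hx') (BA35_mm_213 hκ hx hx') (BA35_mm_303 hκ hx hx') (BA35_mm_313 hκ hx hx')

end Pool.Agent.Strip051.G.I6500_6900.Tab
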