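import Pool.Agent.Strip051.G.I6500_6900.Tab
import Pool.Agent.Strip051.PB.ExtD2

/-! # Certificates B16 (generated) -/

set_option linter.all false
set_option maxRecDepth 100000

namespace Pool.Agent.Strip051.G.I6500_6900.Tab.C.BA77

open Pool.Agent.Strip051.PB Pool.Agent.Strip051.PB.T
open Pool.Agent.Strip051.G.I6500_6900.Tab

noncomputable def f_pm_023 : ℕ → ℕ → ℕ → ℕ → Bool := onCell 1610612736 536870912 1073741824 536870912 697932185 42949674
    (rowB 3 eng mog cd7q0 cd7q2 pd3 2 true true false .up 0 2 3 (qsf 0 536870912 1073741824 536870912 3) ndB7q0 ndB7q2 pcB3 Cut.none Ext.none)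

def k0_pm_023 : ∃ t, chk3 f_pm_023 t 1 1 1 = true :=
  ⟨(a (a (b (b (b (l 16156728) (l 16105264)) (b (l 16133816) (l 16199240))) (b (l 16366160) (l 16522376))) (b (b (a (l 16583424) (l 2)) (a (a (l 16286456) (l 16360944)) (l 315780732343))) (a (b (l 16397496) (l 16616768)) (b (a (l 16450680) (l 16501208)) (a (l 16559144) (l 16588968)))))) (b (a (b (l 2) (a (l 16786896) (l 2))) (l 2)) (b (a (a (l 16578664) (l 16694888)) (a (l 16791648) (l 2))) (a (a (l 16623488) (l 16679328)) (a (l 16730136) (a (l 16738800) (l 4))))))), by decide +kernel⟩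

theorem c_pm_023 : CertB 0 536870912 1073741824 536870912 697932185 42949674 3 eng mog cd7q0 cd7q2 pd3 true true false .up 0 2 3
    ndB7q0 ndB7q2 pcB3 Cut.none Ext.none :=
  certB2 (fam := true) (s1 := true) (s2 := false) (a := 0) (b := 2) (c := 3) (cn := .up) (n1 := ndB7q0) (n2 := ndB7q2) (pc := pcB3) (cut := Cut.none) (xt := Ext.none) (P1 := 0) (W1 := 536870912) (P2 := 1073741824) (W2 := 536870912) (P3 := 697932185) (W3 := 42949674) (N0 := 3) (En := eng) (mo := mog) (C1 := cd7q0) (C2 := cd7q2) (C3 := pd3)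
    rfl (fun _ => rfl) k0_pm_023

noncomputable def f_pm_033 : ℕ → ℕ → ℕ → ℕ → Bool := onCell 1610612736 536870912 0 1230186008 697932185 42949674
    (rowB 3 eng mog cd7q0 cd7q3 pd3 2 true true false .pnn 0 3 3 (qsf 0 536870912 0 1230186008 3) ndB7q0 ndB7q3 pcB3 Cut.none Ext.none)

def k0_pm_033 : ∃ t, chk3 f_pm_033 t 1 1 1 = true :=
  ⟨(b (a (l 1) (l 4)) (b (a (a (l 1) (b (l 1) (l 16759504))) (l 4)) (a (a (b (l 1) (l 16900104)) (a (b (l 16718088) (a (l 16636640) (l 16642768))) (b (l 16744160) (a (l 16658480) (l 16675432))))) (a (b (l 16754592) (a (l 16697152) (l 16744352))) (a (b (l 4) (l 16746480)) (l 4)))))), by decide +kernel⟩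

theorem c_pm_033 : CertB 0 536870912 0 1230186008 697932185 42949674 3 eng mog cd7q0 cd7q3 pd3 true true false .pnn 0 3 3
    ndB7q0 ndB7q3 pcB3 Cut.none Ext.none :=
  certB2 (fam := true) (s1 := true) (s2 := false) (a := 0) (b := 3) (c := 3) (cn := .pnn) (n1 := ndB7q0) (n2 := ndB7q3) (pc := pcB3) (cut := Cut.none) (xt := Ext.none) (P1 := 0) (W1 := 536870912) (P2 := 0) (W2 := 1230186008) (P3 := 697932185) (W3 := 42949674) (N0 := 3) (En := eng) (mo := mog) (C1 := cd7q0) (C2 := cd7q3) (C3 := pd3)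
    rfl (fun _ => rfl) k0_pm_033

noncomputable def f_pm_101 : ℕ → ℕ → ℕ → ℕ → Bool := onCell 536870912 536870912 536870912 536870912 697932185 42949674
    (rowB 3 eng mog cd7q1 cd7q0 pd1 1 true true false .npn 1 0 1 (qsf 536870912 536870912 0 536870912 1) ndB7q1 ndB7q0 pcB1 Cut.none Ext.none)

def k0_pm_101 : ∃ t, chk3 f_pm_101 t 1 1 1 = true :=
  ⟨(l 3), by decide +kernel⟩

theorem c_pm_101 : CertB 536870912 536870912 0 536870912 697932185 42949674 3 eng mog cd7q1 cd7q0 pd1 true true false .npn 1 0 1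
    ndB7q1 ndB7q0 pcB1 Cut.none Ext.none :=
  certB1 (fam := true) (s1 := true) (s2 := false) (a := 1) (b := 0) (c := 1) (cn := .npn) (n1 := ndB7q1) (n2 := ndB7q0) (pc := pcB1) (cut := Cut.none) (xt := Ext.none) (P1 := 536870912) (W1 := 536870912) (P2 := 0) (W2 := 536870912) (P3 := 697932185) (W3 := 42949674) (N0 := 3) (En := eng) (mo := mog) (C1 := cd7q1) (C2 := cd7q0) (C3 := pd1)
    rfl (fun _ => rfl) k0_pm_101

noncomputable def f_pm_102 : ℕ → ℕ → ℕ → ℕ → Bool := onCell 536870912 536870912 1073741824 536870912 697932185 42949674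
    (rowB 3 eng mog cd7q1 cd7q0 pd2 1 true true false .npp 1 0 2 (qsf 536870912 536870912 0 536870912 2) ndB7q1 ndB7q0 pcB2 Cut.none Ext.none)

def k0_pm_102 : ∃ t, chk3 f_pm_102 t 1 1 1 = true :=
  ⟨(a (b (b (l 3) (b (b (b (l 3) (a (l 2) (b (l 3) (b (l 16009560) (b (l 16010704) (l 16009744)))))) (a (l 2) (l 15998800))) (a (l 2) (a (l 15997616) (l 15961176))))) (a (l 2) (b (a (l 2) (b (l 15956960) (l 2))) (l 2)))) (b (b (b (l 3) (b (l 3) (a (l 3) (b (l 3) (a (l 3) (l 15669632)))))) (b (b (b (a (a (l 3) (l 15848304)) (a (l 140289565159) (b (l 15676312) (l 15679088)))) (b (a (l 15882136) (a (l 15768800) (l 15682576))) (a (b (l 15884224) (b (l 15884360) (l 15884392))) (b (a (l 15770528) (l 15685256)) (a (l 15771864) (b (l 15686728) (l 15687984))))))) (a (l 15903256) (a (l 15772824) (l 15692416)))) (a (a (l 15907608) (l 15848928)) (a (l 15777384) (l 15703512))))) (a (a (b (b (l 15913560) (l 15946504)) (l 2)) (b (b (l 15857312) (l 15893240)) (l 16228328)))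 (b (b (a (l 15792800) (l 15720256)) (a (l 15825408) (l 15750960))) (a (l 15959952) (l 15869384)))))), by decide +kernel⟩

theorem c_pm_102 : CertB 536870912 536870912 0 536870912 697932185 42949674 3 eng mog cd7q1 cd7q0 pd2 true true false .npp 1 0 2
    ndB7q1 ndB7q0 pcB2 Cut.none Ext.none :=
  certB1 (fam := true) (s1 := true) (s2 := false) (a := 1) (b := 0) (c := 2) (cn := .npp) (n1 := ndB7q1) (n2 := ndB7q0) (pc := pcB2) (cut := Cut.none) (xt := Ext.none) (P1 := 536870912) (W1 := 536870912) (P2 := 0) (W2 := 536870912) (P3 := 697932185) (W3 := 42949674) (N0 := 3) (En := eng) (mo := mog) (C1 := cd7q1) (C2 := cd7q0) (C3 := pd2)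
    rfl (fun _ => rfl) k0_pm_102

noncomputable def f_pm_112 : ℕ → ℕ → ℕ → ℕ → Bool := onCell 536870912 536870912 1073741824 536870912 697932185 42949674
    (rowB 3 eng mog cd7q1 cd7q1 pd2 1 true true false .dn 1 1 2 (qsf 536870912 536870912 536870912 536870912 2) ndB7q1 ndB7q1 pcB2 Cut.none Ext.none)

def k0_pm_112 : ∃ t, chk3 f_pm_112 t 1 1 1 = true :=
  ⟨(b (b (a (l 3) (l 1)) (a (b (b (b (l 3) (b (l 3) (a (b (l 3) (a (l 16048096) (l 16051824))) (b (l 16013312) (a (l 16036024) (l 1)))))) (a (l 16040648) (l 16004568))) (a (l 15995520) (l 15986768))) (b (l 1) (a (l 15876312) (l 1))))) (a (a (b (a (l 15929744) (l 15968816)) (l 15997744)) (b (a (l 15978704) (l 15971752)) (l 16113160))) (b (a (b (l 15887144) (l 15924104)) (b (l 1) (l 15788728))) (a (l 16260168) (b (l 15857584) (l 15986888)))))), by decide +kernel⟩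

theorem c_pm_112 : CertB 536870912 536870912 536870912 536870912 697932185 42949674 3 eng mog cd7q1 cd7q1 pd2 true true false .dn 1 1 2
    ndB7q1 ndB7q1 pcB2 Cut.none Ext.none :=
  certB1 (fam := true) (s1 := true) (s2 := false) (a := 1) (b := 1) (c := 2) (cn := .dn) (n1 := ndB7q1) (n2 := ndB7q1) (pc := pcB2) (cut := Cut.none) (xt := Ext.none) (P1 := 536870912) (W1 := 536870912) (P2 := 536870912) (W2 := 536870912) (P3 := 697932185) (W3 := 42949674) (N0 := 3) (En := eng) (mo := mog) (C1 := cd7q1) (C2 := cd7q1) (C3 := pd2)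
    rfl (fun _ => rfl) k0_pm_112

noncomputable def f_pm_113 : ℕ → ℕ → ℕ → ℕ → Bool := onCell 536870912 536870912 1610612736 536870912 697932185 42949674
    (rowB 3 eng mog cd7q1 cd7q1 pd3 1 true true false .nn 1 1 3 (qsf 536870912 536870912 536870912 536870912 3) ndB7q1 ndB7q1 pcB3 Cut.none Ext.none)

def k0_pm_113 : ∃ t, chk3 f_pm_113 t 1 1 1 = true :=
  ⟨(a (a (b (b (l 16218664) (b (l 16545288) (l 2))) (l 2)) (b (b (l 16541984) (l 17268784)) (b (b (l 17074392) (l 2)) (l 2)))) (b (b (a (l 16620712) (l 16402616)) (a (l 17582896) (l 17418064))) (a (b (l 17396224) (b (l 16927352) (l 2))) (b (l 17298552) (b (l 17050776) (b (l 16892600) (b (l 16808216) (l 16745872)))))))), by decide +kernel⟩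

theorem c_pm_113 : CertB 536870912 536870912 536870912 536870912 697932185 42949674 3 eng mog cd7q1 cd7q1 pd3 true true false .nn 1 1 3
    ndB7q1 ndB7q1 pcB3 Cut.none Ext.none :=
  certB1 (fam := true) (s1 := true) (s2 := false) (a := 1) (b := 1) (c := 3) (cn := .nn) (n1 := ndB7q1) (n2 := ndB7q1) (pc := pcB3) (cut := Cut.none) (xt := Ext.none) (P1 := 536870912) (W1 := 536870912) (P2 := 536870912) (W2 := 536870912) (P3 := 697932185) (W3 := 42949674) (N0 := 3) (En := eng) (mo := mog) (C1 := cd7q1) (C2 := cd7q1) (C3 := pd3)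
    rfl (fun _ => rfl) k0_pm_113

noncomputable def f_pm_123 : ℕ → ℕ → ℕ → ℕ → Bool := onCell 536870912 536870912 1610612736 536870912 697932185 42949674
    (rowB 3 eng mog cd7q1 cd7q2 pd3 1 true true false .npn 1 2 3 (qsf 536870912 536870912 1073741824 536870912 3) ndB7q1 ndB7q2 pcB3 Cut.none Ext.none)

def k0_pm_123 : ∃ t, chk3 f_pm_123 t 1 1 1 = true :=
  ⟨(a (b (b (a (l 826277353383) (a (l 16931136) (l 1))) (a (b (b (l 16408208) (l 16474072)) (b (l 16538472) (l 16600616))) (b (l 17322400) (l 17217712)))) (b (a (b (l 16682752) (l 16744720)) (b (l 17135816) (l 17075696))) (b (a (l 16746016) (l 16964704)) (b (a (l 16756560) (l 16837208)) (a (l 4) (b (l 16759248) (l 4))))))) (b (a (b (l 1) (l 831648444935)) (l 1)) (a (b (b (l 17264960) (l 17152552)) (b (l 17032864) (b (l 16887464) (b (l 16811872) (l 16742240))))) (b (l 782255848151) (b (l 17008456) (b (l 16911688) (b (l 16838712) (l 16782440)))))))), by decide +kernel⟩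

theorem c_pm_123 : CertB 536870912 536870912 1073741824 536870912 697932185 42949674 3 eng mog cd7q1 cd7q2 pd3 true true false .npn 1 2 3
    ndB7q1 ndB7q2 pcB3 Cut.none Ext.none :=
  certB1 (fam := true) (s1 := true) (s2 := false) (a := 1) (b := 2) (c := 3) (cn := .npn) (n1 := ndB7q1) (n2 := ndB7q2) (pc := pcB3) (cut := Cut.none) (xt := Ext.none) (P1 := 536870912) (W1 := 536870912) (P2 := 1073741824) (W2 := 536870912) (P3 := 697932185) (W3 := 42949674) (N0 := 3) (En := eng) (mo := mog) (C1 := cd7q1) (C2 := cd7q2) (C3 := pd3)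
    rfl (fun _ => rfl) k0_pm_123

noncomputable def f_pm_133 : ℕ → ℕ → ℕ → ℕ → Bool := onCell 536870912 536870912 0 1230186008 697932185 42949674
    (rowB 3 eng mog cd7q1 cd7q3 pd3 0 true true false .dn 1 3 3 (qsf 536870912 536870912 0 1230186008 3) ndB7q1 ndB7q3 pcB3 Cut.none Ext.none)

def k0_pm_133 : ∃ t, chk3 f_pm_133 t 1 1 1 = true :=
  ⟨(b (l 2) (b (l 2) (l 4))), by decide +kernel⟩

theorem c_pm_133 : CertB 536870912 536870912 0 1230186008 697932185 42949674 3 eng mog cd7q1 cd7q3 pd3 true true false .dn 1 3 3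
    ndB7q1 ndB7q3 pcB3 Cut.none Ext.none :=
  certB0 (fam := true) (s1 := true) (s2 := false) (a := 1) (b := 3) (c := 3) (cn := .dn) (n1 := ndB7q1) (n2 := ndB7q3) (pc := pcB3) (cut := Cut.none) (xt := Ext.none) (P1 := 536870912) (W1 := 536870912) (P2 := 0) (W2 := 1230186008) (P3 := 697932185) (W3 := 42949674) (N0 := 3) (En := eng) (mo := mog) (C1 := cd7q1) (C2 := cd7q3) (C3 := pd3)
    rfl k0_pm_133

noncomputable def f_pm_202 : ℕ → ℕ → ℕ → ℕ → Bool := onCell 1073741824 536870912 1073741824 536870912 697932185 42949674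
    (rowB 3 eng mog cd7q2 cd7q0 pd2 1 true true false .pp 2 0 2 (qsf 1073741824 536870912 0 536870912 2) ndB7q2 ndB7q0 pcB2 Cut.none Ext.none)

def k0_pm_202 : ∃ t, chk3 f_pm_202 t 1 1 1 = true :=
  ⟨(b (b (a (b (l 3) (b (a (l 3) (l 1)) (a (a (b (l 3) (l 127941319079)) (b (l 15735256) (l 15752728))) (b (l 1) (a (l 15837128) (l 1)))))) (l 1)) (a (a (b (b (b (a (b (l 15672584) (l 15676032)) (l 15766032)) (b (a (l 15681680) (l 15776160)) (b (a (l 15686272) (l 15782584)) (a (b (l 15689056) (l 15691864)) (l 15790184))))) (a (l 15700608) (l 15804176))) (a (l 15720888) (l 15834048))) (a (b (b (b (l 15859400) (b (l 15870592) (b (l 15879464) (l 15888688)))) (l 15902992)) (l 15939368)) (b (b (l 1) (l 15991344)) (l 16037864)))) (a (b (l 1) (a (l 16133032) (l 1))) (l 1)))) (a (a (b (a (l 15748304) (l 15863024)) (a (l 15845936) (l 15917488))) (b (a (l 15977608) (l 16090832)) (a (l 16018472) (l 16136376)))) (a (b (a (l 16204704) (l 16341072)) (a (l 16261824) (l 16371168)))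 (b (a (l 488585752231) (l 1)) (l 16493048))))), by decide +kernel⟩

theorem c_pm_202 : CertB 1073741824 536870912 0 536870912 697932185 42949674 3 eng mog cd7q2 cd7q0 pd2 true true false .pp 2 0 2
    ndB7q2 ndB7q0 pcB2 Cut.none Ext.none :=
  certB1 (fam := true) (s1 := true) (s2 := false) (a := 2) (b := 0) (c := 2) (cn := .pp) (n1 := ndB7q2) (n2 := ndB7q0) (pc := pcB2) (cut := Cut.none) (xt := Ext.none) (P1 := 1073741824) (W1 := 536870912) (P2 := 0) (W2 := 536870912) (P3 := 697932185) (W3 := 42949674) (N0 := 3) (En := eng) (mo := mog) (C1 := cd7q2) (C2 := cd7q0) (C3 := pd2)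
    rfl (fun _ => rfl) k0_pm_202

noncomputable def f_pm_203 : ℕ → ℕ → ℕ → ℕ → Bool := onCell 1073741824 536870912 1610612736 536870912 697932185 42949674
    (rowB 3 eng mog cd7q2 cd7q0 pd3 1 true true false .up 2 0 3 (qsf 1073741824 536870912 0 536870912 3) ndB7q2 ndB7q0 pcB3 Cut.none Ext.none)

def k0_pm_203 : ∃ t, chk3 f_pm_203 t 1 1 1 = true :=
  ⟨(a (b (b (a (a (l 16156728) (l 16105264)) (a (l 16133816) (l 16199240))) (a (b (l 16583424) (l 2)) (b (b (l 16286456) (l 16360944)) (b (l 16456024) (l 16571952))))) (a (l 2) (b (b (l 16786896) (l 2)) (l 2)))) (a (b (b (l 16429080) (b (l 16397496) (b (l 16450680) (l 16501208)))) (b (b (l 16578664) (l 16694888)) (b (l 16791648) (l 2)))) (b (b (l 16606256) (b (l 16700648) (b (l 16559144) (l 16588968)))) (b (b (l 16623488) (l 16679328)) (b (l 16730136) (b (l 16738800) (l 4))))))), by decide +kernel⟩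

theorem c_pm_203 : CertB 1073741824 536870912 0 536870912 697932185 42949674 3 eng mog cd7q2 cd7q0 pd3 true true false .up 2 0 3
    ndB7q2 ndB7q0 pcB3 Cut.none Ext.none :=
  certB1 (fam := true) (s1 := true) (s2 := false) (a := 2) (b := 0) (c := 3) (cn := .up) (n1 := ndB7q2) (n2 := ndB7q0) (pc := pcB3) (cut := Cut.none) (xt := Ext.none) (P1 := 1073741824) (W1 := 536870912) (P2 := 0) (W2 := 536870912) (P3 := 697932185) (W3 := 42949674) (N0 := 3) (En := eng) (mo := mog) (C1 := cd7q2) (C2 := cd7q0) (C3 := pd3)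
    rfl (fun _ => rfl) k0_pm_203

noncomputable def f_pm_213 : ℕ → ℕ → ℕ → ℕ → Bool := onCell 1610612736 536870912 536870912 536870912 697932185 42949674
    (rowB 3 eng mog cd7q2 cd7q1 pd3 2 true true false .pnn 2 1 3 (qsf 1073741824 536870912 536870912 536870912 3) ndB7q2 ndB7q1 pcB3 Cut.none Ext.none)

def k0_pm_213 : ∃ t, chk3 f_pm_213 t 1 1 1 = true :=
  ⟨(a (a (b (b (l 755947263911) (b (l 16931136) (l 1))) (l 1)) (b (b (a (a (l 16408208) (l 16474072)) (a (l 16538472) (l 16600616))) (a (l 17322400) (l 17217712))) (b (l 831648444935) (l 1)))) (b (a (b (a (l 16682752) (l 16744720)) (a (l 17135816) (l 17075696))) (a (b (l 16746016) (l 16964704)) (a (b (l 16756560) (l 16837208)) (b (l 4) (a (l 16759248) (l 4)))))) (a (b (a (l 17264960) (l 17152552)) (l 782255848151)) (a (b (l 17032864) (l 17008456)) (a (b (l 16887464) (l 16911688)) (a (b (l 16811872) (l 16838712)) (b (l 16742240) (l 16782440)))))))), by decide +kernel⟩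

theorem c_pm_213 : CertB 1073741824 536870912 536870912 536870912 697932185 42949674 3 eng mog cd7q2 cd7q1 pd3 true true false .pnn 2 1 3
    ndB7q2 ndB7q1 pcB3 Cut.none Ext.none :=
  certB2 (fam := true) (s1 := true) (s2 := false) (a := 2) (b := 1) (c := 3) (cn := .pnn) (n1 := ndB7q2) (n2 := ndB7q1) (pc := pcB3) (cut := Cut.none) (xt := Ext.none) (P1 := 1073741824) (W1 := 536870912) (P2 := 536870912) (W2 := 536870912) (P3 := 697932185) (W3 := 42949674) (N0 := 3) (En := eng) (mo := mog) (C1 := cd7q2) (C2 := cd7q1) (C3 := pd3)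
    rfl (fun _ => rfl) k0_pm_213

noncomputable def f_pm_303 : ℕ → ℕ → ℕ → ℕ → Bool := onCell 0 1230186008 1610612736 536870912 697932185 42949674
    (rowB 3 eng mog cd7q3 cd7q0 pd3 1 true true false .npn 3 0 3 (qsf 0 1230186008 0 536870912 3) ndB7q3 ndB7q0 pcB3 Cut.none Ext.none)

def k0_pm_303 : ∃ t, chk3 f_pm_303 t 1 1 1 = true :=
  ⟨(a (b (l 1) (l 4)) (a (b (b (l 1) (a (l 1) (l 16759504))) (l 4)) (b (b (a (l 1) (l 16879136)) (b (a (l 16718088) (b (l 16636624) (l 16642768))) (a (l 16744160) (b (l 16658480) (l 16675432))))) (b (a (l 16754592) (b (l 16697152) (l 16744352))) (b (a (l 4) (l 16746480)) (l 4)))))), by decide +kernel⟩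

theorem c_pm_303 : CertB 0 1230186008 0 536870912 697932185 42949674 3 eng mog cd7q3 cd7q0 pd3 true true false .npn 3 0 3
    ndB7q3 ndB7q0 pcB3 Cut.none Ext.none :=
  certB1 (fam := true) (s1 := true) (s2 := false) (a := 3) (b := 0) (c := 3) (cn := .npn) (n1 := ndB7q3) (n2 := ndB7q0) (pc := pcB3) (cut := Cut.none) (xt := Ext.none) (P1 := 0) (W1 := 1230186008) (P2 := 0) (W2 := 536870912) (P3 := 697932185) (W3 := 42949674) (N0 := 3) (En := eng) (mo := mog) (C1 := cd7q3) (C2 := cd7q0) (C3 := pd3)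
    rfl (fun _ => rfl) k0_pm_303

noncomputable def f_pm_313 : ℕ → ℕ → ℕ → ℕ → Bool := onCell 0 1230186008 536870912 536870912 697932185 42949674
    (rowB 3 eng mog cd7q3 cd7q1 pd3 0 true true false .dn 3 1 3 (qsf 0 1230186008 536870912 536870912 3) ndB7q3 ndB7q1 pcB3 Cut.none Ext.none)

def k0_pm_313 : ∃ t, chk3 f_pm_313 t 1 1 1 = true :=
  ⟨(a (l 2) (a (l 2) (l 4))), by decide +kernel⟩

theorem c_pm_313 : CertB 0 1230186008 536870912 536870912 697932185 42949674 3 eng mog cd7q3 cd7q1 pd3 true true false .dn 3 1 3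
    ndB7q3 ndB7q1 pcB3 Cut.none Ext.none :=
  certB0 (fam := true) (s1 := true) (s2 := false) (a := 3) (b := 1) (c := 3) (cn := .dn) (n1 := ndB7q3) (n2 := ndB7q1) (pc := pcB3) (cut := Cut.none) (xt := Ext.none) (P1 := 0) (W1 := 1230186008) (P2 := 536870912) (W2 := 536870912) (P3 := 697932185) (W3 := 42949674) (N0 := 3) (En := eng) (mo := mog) (C1 := cd7q3) (C2 := cd7q1) (C3 := pd3)
    rfl k0_pm_313

noncomputable def f_mm_001 : ℕ → ℕ → ℕ → ℕ → Bool := onCell 0 536870912 0 536870912 697932185 42949674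
    (rowB 3 eng mog cd7q0 cd7q0 pd1 0 true false false .up 0 0 1 (qsf 0 536870912 0 536870912 1) ndB7q0 ndB7q0 pcB1 Cut.none Ext.none)

def k0_mm_001 : ∃ t, chk3 f_mm_001 t 1 1 1 = true :=
  ⟨(l 4), by decide +kernel⟩

theorem c_mm_001 : CertB 0 536870912 0 536870912 697932185 42949674 3 eng mog cd7q0 cd7q0 pd1 true false false .up 0 0 1
    ndB7q0 ndB7q0 pcB1 Cut.none Ext.none :=
  certB0 (fam := true) (s1 := false) (s2 := false) (a := 0) (b := 0) (c := 1) (cn := .up) (n1 := ndB7q0) (n2 := ndB7q0) (pc := pcB1) (cut := Cut.none) (xt := Ext.none) (P1 := 0) (W1 := 536870912) (P2 := 0) (W2 := 536870912) (P3 := 697932185) (W3 := 42949674) (N0 := 3) (En := eng) (mo := mog) (C1 := cd7q0) (C2 := cd7q0) (C3 := pd1)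
    rfl k0_mm_001

noncomputable def f_mm_011 : ℕ → ℕ → ℕ → ℕ → Bool := onCell 0 536870912 536870912 536870912 697932185 42949674
    (rowB 3 eng mog cd7q0 cd7q1 pd1 0 true false false .pnn 0 1 1 (qsf 0 536870912 536870912 536870912 1) ndB7q0 ndB7q1 pcB1 Cut.none Ext.none)

def k0_mm_011 : ∃ t, chk3 f_mm_011 t 1 1 1 = true :=
  ⟨(l 4), by decide +kernel⟩

theorem c_mm_011 : CertB 0 536870912 536870912 536870912 697932185 42949674 3 eng mog cd7q0 cd7q1 pd1 true false false .pnn 0 1 1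
    ndB7q0 ndB7q1 pcB1 Cut.none Ext.none :=
  certB0 (fam := true) (s1 := false) (s2 := false) (a := 0) (b := 1) (c := 1) (cn := .pnn) (n1 := ndB7q0) (n2 := ndB7q1) (pc := pcB1) (cut := Cut.none) (xt := Ext.none) (P1 := 0) (W1 := 536870912) (P2 := 536870912) (W2 := 536870912) (P3 := 697932185) (W3 := 42949674) (N0 := 3) (En := eng) (mo := mog) (C1 := cd7q0) (C2 := cd7q1) (C3 := pd1)
    rfl k0_mm_011

noncomputable def f_mm_012 : ℕ → ℕ → ℕ → ℕ → Bool := onCell 0 536870912 536870912 536870912 697932185 42949674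
    (rowB 3 eng mog cd7q0 cd7q1 pd2 0 true false false .pnp 0 1 2 (qsf 0 536870912 536870912 536870912 2) ndB7q0 ndB7q1 pcB2 Cut.none Ext.none)

def k0_mm_012 : ∃ t, chk3 f_mm_012 t 1 1 1 = true :=
  ⟨(l 4), by decide +kernel⟩

theorem c_mm_012 : CertB 0 536870912 536870912 536870912 697932185 42949674 3 eng mog cd7q0 cd7q1 pd2 true false false .pnp 0 1 2
    ndB7q0 ndB7q1 pcB2 Cut.none Ext.none :=
  certB0 (fam := true) (s1 := false) (s2 := false) (a := 0) (b := 1) (c := 2) (cn := .pnp) (n1 := ndB7q0) (n2 := ndB7q1) (pc := pcB2) (cut := Cut.none) (xt := Ext.none) (P1 := 0) (W1 := 536870912) (P2 := 536870912) (W2 := 536870912) (P3 := 697932185) (W3 := 42949674) (N0 := 3) (En := eng) (mo := mog) (C1 := cd7q0) (C2 := cd7q1) (C3 := pd2)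
    rfl k0_mm_012

noncomputable def f_mm_022 : ℕ → ℕ → ℕ → ℕ → Bool := onCell 0 536870912 1073741824 536870912 697932185 42949674
    (rowB 3 eng mog cd7q0 cd7q2 pd2 0 true false false .pp 0 2 2 (qsf 0 536870912 1073741824 536870912 2) ndB7q0 ndB7q2 pcB2 Cut.none Ext.none)

def k0_mm_022 : ∃ t, chk3 f_mm_022 t 1 1 1 = true :=
  ⟨(l 4), by decide +kernel⟩

theorem c_mm_022 : CertB 0 536870912 1073741824 536870912 697932185 42949674 3 eng mog cd7q0 cd7q2 pd2 true false false .pp 0 2 2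
    ndB7q0 ndB7q2 pcB2 Cut.none Ext.none :=
  certB0 (fam := true) (s1 := false) (s2 := false) (a := 0) (b := 2) (c := 2) (cn := .pp) (n1 := ndB7q0) (n2 := ndB7q2) (pc := pcB2) (cut := Cut.none) (xt := Ext.none) (P1 := 0) (W1 := 536870912) (P2 := 1073741824) (W2 := 536870912) (P3 := 697932185) (W3 := 42949674) (N0 := 3) (En := eng) (mo := mog) (C1 := cd7q0) (C2 := cd7q2) (C3 := pd2)
    rfl k0_mm_022

noncomputable def f_mm_023 : ℕ → ℕ → ℕ → ℕ → Bool := onCell 0 536870912 1073741824 536870912 697932185 42949674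
    (rowB 3 eng mog cd7q0 cd7q2 pd3 0 true false false .up 0 2 3 (qsf 0 536870912 1073741824 536870912 3) ndB7q0 ndB7q2 pcB3 Cut.none Ext.none)

def k0_mm_023 : ∃ t, chk3 f_mm_023 t 1 1 1 = true :=
  ⟨(l 4), by decide +kernel⟩

theorem c_mm_023 : CertB 0 536870912 1073741824 536870912 697932185 42949674 3 eng mog cd7q0 cd7q2 pd3 true false false .up 0 2 3
    ndB7q0 ndB7q2 pcB3 Cut.none Ext.none :=
  certB0 (fam := true) (s1 := false) (s2 := false) (a := 0) (b := 2) (c := 3) (cn := .up) (n1 := ndB7q0) (n2 := ndB7q2) (pc := pcB3) (cut := Cut.none) (xt := Ext.none) (P1 := 0) (W1 := 536870912) (P2 := 1073741824) (W2 := 536870912) (P3 := 697932185) (W3 := 42949674) (N0 := 3) (En := eng) (mo := mog) (C1 := cd7q0) (C2 := cd7q2) (C3 := pd3)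
    rfl k0_mm_023

noncomputable def f_mm_033 : ℕ → ℕ → ℕ → ℕ → Bool := onCell 0 536870912 0 1230186008 697932185 42949674
    (rowB 3 eng mog cd7q0 cd7q3 pd3 0 true false false .pnn 0 3 3 (qsf 0 536870912 0 1230186008 3) ndB7q0 ndB7q3 pcB3 Cut.none Ext.none)

def k0_mm_033 : ∃ t, chk3 f_mm_033 t 1 1 1 = true :=
  ⟨(l 4), by decide +kernel⟩

theorem c_mm_033 : CertB 0 536870912 0 1230186008 697932185 42949674 3 eng mog cd7q0 cd7q3 pd3 true false false .pnn 0 3 3
    ndB7q0 ndB7q3 pcB3 Cut.none Ext.none :=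
  certB0 (fam := true) (s1 := false) (s2 := false) (a := 0) (b := 3) (c := 3) (cn := .pnn) (n1 := ndB7q0) (n2 := ndB7q3) (pc := pcB3) (cut := Cut.none) (xt := Ext.none) (P1 := 0) (W1 := 536870912) (P2 := 0) (W2 := 1230186008) (P3 := 697932185) (W3 := 42949674) (N0 := 3) (En := eng) (mo := mog) (C1 := cd7q0) (C2 := cd7q3) (C3 := pd3)
    rfl k0_mm_033

noncomputable def f_mm_101 : ℕ → ℕ → ℕ → ℕ → Bool := onCell 536870912 536870912 0 536870912 697932185 42949674
    (rowB 3 eng mog cd7q1 cd7q0 pd1 0 true false false .npn 1 0 1 (qsf 536870912 536870912 0 536870912 1) ndB7q1 ndB7q0 pcB1 Cut.none Ext.none)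

def k0_mm_101 : ∃ t, chk3 f_mm_101 t 1 1 1 = true :=
  ⟨(l 4), by decide +kernel⟩

theorem c_mm_101 : CertB 536870912 536870912 0 536870912 697932185 42949674 3 eng mog cd7q1 cd7q0 pd1 true false false .npn 1 0 1
    ndB7q1 ndB7q0 pcB1 Cut.none Ext.none :=
  certB0 (fam := true) (s1 := false) (s2 := false) (a := 1) (b := 0) (c := 1) (cn := .npn) (n1 := ndB7q1) (n2 := ndB7q0) (pc := pcB1) (cut := Cut.none) (xt := Ext.none) (P1 := 536870912) (W1 := 536870912) (P2 := 0) (W2 := 536870912) (P3 := 697932185) (W3 := 42949674) (N0 := 3) (En := eng) (mo := mog) (C1 := cd7q1) (C2 := cd7q0) (C3 := pd1)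
    rfl k0_mm_101

noncomputable def f_mm_102 : ℕ → ℕ → ℕ → ℕ → Bool := onCell 536870912 536870912 0 536870912 697932185 42949674
    (rowB 3 eng mog cd7q1 cd7q0 pd2 0 true false false .npp 1 0 2 (qsf 536870912 536870912 0 536870912 2) ndB7q1 ndB7q0 pcB2 Cut.none Ext.none)

def k0_mm_102 : ∃ t, chk3 f_mm_102 t 1 1 1 = true :=
  ⟨(l 4), by decide +kernel⟩

theorem c_mm_102 : CertB 536870912 536870912 0 536870912 697932185 42949674 3 eng mog cd7q1 cd7q0 pd2 true false false .npp 1 0 2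
    ndB7q1 ndB7q0 pcB2 Cut.none Ext.none :=
  certB0 (fam := true) (s1 := false) (s2 := false) (a := 1) (b := 0) (c := 2) (cn := .npp) (n1 := ndB7q1) (n2 := ndB7q0) (pc := pcB2) (cut := Cut.none) (xt := Ext.none) (P1 := 536870912) (W1 := 536870912) (P2 := 0) (W2 := 536870912) (P3 := 697932185) (W3 := 42949674) (N0 := 3) (En := eng) (mo := mog) (C1 := cd7q1) (C2 := cd7q0) (C3 := pd2)
    rfl k0_mm_102

noncomputable def f_mm_112 : ℕ → ℕ → ℕ → ℕ → Bool := onCell 536870912 536870912 536870912 536870912 697932185 42949674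
    (rowB 3 eng mog cd7q1 cd7q1 pd2 0 true false false .dn 1 1 2 (qsf 536870912 536870912 536870912 536870912 2) ndB7q1 ndB7q1 pcB2 Cut.none Ext.none)

def k0_mm_112 : ∃ t, chk3 f_mm_112 t 1 1 1 = true :=
  ⟨(l 4), by decide +kernel⟩

theorem c_mm_112 : CertB 536870912 536870912 536870912 536870912 697932185 42949674 3 eng mog cd7q1 cd7q1 pd2 true false false .dn 1 1 2
    ndB7q1 ndB7q1 pcB2 Cut.none Ext.none :=
  certB0 (fam := true) (s1 := false) (s2 := false) (a := 1) (b := 1) (c := 2) (cn := .dn) (n1 := ndB7q1) (n2 := ndB7q1) (pc := pcB2) (cut := Cut.none) (xt := Ext.none) (P1 := 536870912) (W1 := 536870912) (P2 := 536870912) (W2 := 536870912) (P3 := 697932185) (W3 := 42949674) (N0 := 3) (En := eng) (mo := mog) (C1 := cd7q1) (C2 := cd7q1) (C3 := pd2)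
    rfl k0_mm_112

noncomputable def f_mm_113 : ℕ → ℕ → ℕ → ℕ → Bool := onCell 536870912 536870912 536870912 536870912 697932185 42949674
    (rowB 3 eng mog cd7q1 cd7q1 pd3 0 true false false .nn 1 1 3 (qsf 536870912 536870912 536870912 536870912 3) ndB7q1 ndB7q1 pcB3 Cut.none Ext.none)

def k0_mm_113 : ∃ t, chk3 f_mm_113 t 1 1 1 = true :=
  ⟨(l 4), by decide +kernel⟩

theorem c_mm_113 : CertB 536870912 536870912 536870912 536870912 697932185 42949674 3 eng mog cd7q1 cd7q1 pd3 true false false .nn 1 1 3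
    ndB7q1 ndB7q1 pcB3 Cut.none Ext.none :=
  certB0 (fam := true) (s1 := false) (s2 := false) (a := 1) (b := 1) (c := 3) (cn := .nn) (n1 := ndB7q1) (n2 := ndB7q1) (pc := pcB3) (cut := Cut.none) (xt := Ext.none) (P1 := 536870912) (W1 := 536870912) (P2 := 536870912) (W2 := 536870912) (P3 := 697932185) (W3 := 42949674) (N0 := 3) (En := eng) (mo := mog) (C1 := cd7q1) (C2 := cd7q1) (C3 := pd3)
    rfl k0_mm_113

noncomputable def f_mm_123 : ℕ → ℕ → ℕ → ℕ → Bool := onCell 536870912 536870912 1073741824 536870912 697932185 42949674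
    (rowB 3 eng mog cd7q1 cd7q2 pd3 0 true false false .npn 1 2 3 (qsf 536870912 536870912 1073741824 536870912 3) ndB7q1 ndB7q2 pcB3 Cut.none Ext.none)

def k0_mm_123 : ∃ t, chk3 f_mm_123 t 1 1 1 = true :=
  ⟨(l 4), by decide +kernel⟩

theorem c_mm_123 : CertB 536870912 536870912 1073741824 536870912 697932185 42949674 3 eng mog cd7q1 cd7q2 pd3 true false false .npn 1 2 3
    ndB7q1 ndB7q2 pcB3 Cut.none Ext.none :=
  certB0 (fam := true) (s1 := false) (s2 := false) (a := 1) (b := 2) (c := 3) (cn := .npn) (n1 := ndB7q1) (n2 := ndB7q2) (pc := pcB3) (cut := Cut.none) (xt := Ext.none) (P1 := 536870912) (W1 := 536870912) (P2 := 1073741824) (W2 := 536870912) (P3 := 697932185) (W3 := 42949674) (N0 := 3) (En := eng) (mo := mog) (C1 := cd7q1) (C2 := cd7q2) (C3 := pd3)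
    rfl k0_mm_123

noncomputable def f_mm_133 : ℕ → ℕ → ℕ → ℕ → Bool := onCell 536870912 536870912 0 1230186008 697932185 42949674
    (rowB 3 eng mog cd7q1 cd7q3 pd3 0 true false false .dn 1 3 3 (qsf 536870912 536870912 0 1230186008 3) ndB7q1 ndB7q3 pcB3 Cut.none Ext.none)

def k0_mm_133 : ∃ t, chk3 f_mm_133 t 1 1 1 = true :=
  ⟨(l 4), by decide +kernel⟩

theorem c_mm_133 : CertB 536870912 536870912 0 1230186008 697932185 42949674 3 eng mog cd7q1 cd7q3 pd3 true false false .dn 1 3 3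
    ndB7q1 ndB7q3 pcB3 Cut.none Ext.none :=
  certB0 (fam := true) (s1 := false) (s2 := false) (a := 1) (b := 3) (c := 3) (cn := .dn) (n1 := ndB7q1) (n2 := ndB7q3) (pc := pcB3) (cut := Cut.none) (xt := Ext.none) (P1 := 536870912) (W1 := 536870912) (P2 := 0) (W2 := 1230186008) (P3 := 697932185) (W3 := 42949674) (N0 := 3) (En := eng) (mo := mog) (C1 := cd7q1) (C2 := cd7q3) (C3 := pd3)
    rfl k0_mm_133

noncomputable def f_mm_202 : ℕ → ℕ → ℕ → ℕ → Bool := onCell 1073741824 536870912 0 536870912 697932185 42949674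
    (rowB 3 eng mog cd7q2 cd7q0 pd2 0 true false false .pp 2 0 2 (qsf 1073741824 536870912 0 536870912 2) ndB7q2 ndB7q0 pcB2 Cut.none Ext.none)

def k0_mm_202 : ∃ t, chk3 f_mm_202 t 1 1 1 = true :=
  ⟨(l 4), by decide +kernel⟩

theorem c_mm_202 : CertB 1073741824 536870912 0 536870912 697932185 42949674 3 eng mog cd7q2 cd7q0 pd2 true false false .pp 2 0 2
    ndB7q2 ndB7q0 pcB2 Cut.none Ext.none :=
  certB0 (fam := true) (s1 := false) (s2 := false) (a := 2) (b := 0) (c := 2) (cn := .pp) (n1 := ndB7q2) (n2 := ndB7q0) (pc := pcB2) (cut := Cut.none) (xt := Ext.none) (P1 := 1073741824) (W1 := 536870912) (P2 := 0) (W2 := 536870912) (P3 := 697932185) (W3 := 42949674) (N0 := 3) (En := eng) (mo := mog) (C1 := cd7q2) (C2 := cd7q0) (C3 := pd2)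
    rfl k0_mm_202

noncomputable def f_mm_203 : ℕ → ℕ → ℕ → ℕ → Bool := onCell 1073741824 536870912 0 536870912 697932185 42949674
    (rowB 3 eng mog cd7q2 cd7q0 pd3 0 true false false .up 2 0 3 (qsf 1073741824 536870912 0 536870912 3) ndB7q2 ndB7q0 pcB3 Cut.none Ext.none)

def k0_mm_203 : ∃ t, chk3 f_mm_203 t 1 1 1 = true :=
  ⟨(l 4), by decide +kernel⟩

theorem c_mm_203 : CertB 1073741824 536870912 0 536870912 697932185 42949674 3 eng mog cd7q2 cd7q0 pd3 true false false .up 2 0 3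
    ndB7q2 ndB7q0 pcB3 Cut.none Ext.none :=
  certB0 (fam := true) (s1 := false) (s2 := false) (a := 2) (b := 0) (c := 3) (cn := .up) (n1 := ndB7q2) (n2 := ndB7q0) (pc := pcB3) (cut := Cut.none) (xt := Ext.none) (P1 := 1073741824) (W1 := 536870912) (P2 := 0) (W2 := 536870912) (P3 := 697932185) (W3 := 42949674) (N0 := 3) (En := eng) (mo := mog) (C1 := cd7q2) (C2 := cd7q0) (C3 := pd3)
    rfl k0_mm_203

noncomputable def f_mm_213 : ℕ → ℕ → ℕ → ℕ → Bool := onCell 1073741824 536870912 536870912 536870912 697932185 42949674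
    (rowB 3 eng mog cd7q2 cd7q1 pd3 0 true false false .pnn 2 1 3 (qsf 1073741824 536870912 536870912 536870912 3) ndB7q2 ndB7q1 pcB3 Cut.none Ext.none)

def k0_mm_213 : ∃ t, chk3 f_mm_213 t 1 1 1 = true :=
  ⟨(l 4), by decide +kernel⟩

theorem c_mm_213 : CertB 1073741824 536870912 536870912 536870912 697932185 42949674 3 eng mog cd7q2 cd7q1 pd3 true false false .pnn 2 1 3
    ndB7q2 ndB7q1 pcB3 Cut.none Ext.none :=
  certB0 (fam := true) (s1 := false) (s2 := false) (a := 2) (b := 1) (c := 3) (cn := .pnn) (n1 := ndB7q2) (n2 := ndB7q1) (pc := pcB3) (cut := Cut.none) (xt := Ext.none) (P1 := 1073741824) (W1 := 536870912) (P2 := 536870912) (W2 := 536870912) (P3 := 697932185) (W3 := 42949674) (N0 := 3) (En := eng) (mo := mog) (C1 := cd7q2) (C2 := cd7q1) (C3 := pd3)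
    rfl k0_mm_213

noncomputable def f_mm_303 : ℕ → ℕ → ℕ → ℕ → Bool := onCell 0 1230186008 0 536870912 697932185 42949674
    (rowB 3 eng mog cd7q3 cd7q0 pd3 0 true false false .npn 3 0 3 (qsf 0 1230186008 0 536870912 3) ndB7q3 ndB7q0 pcB3 Cut.none Ext.none)

def k0_mm_303 : ∃ t, chk3 f_mm_303 t 1 1 1 = true :=
  ⟨(l 4), by decide +kernel⟩

theorem c_mm_303 : CertB 0 1230186008 0 536870912 697932185 42949674 3 eng mog cd7q3 cd7q0 pd3 true false false .npn 3 0 3
    ndB7q3 ndB7q0 pcB3 Cut.none Ext.none :=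
  certB0 (fam := true) (s1 := false) (s2 := false) (a := 3) (b := 0) (c := 3) (cn := .npn) (n1 := ndB7q3) (n2 := ndB7q0) (pc := pcB3) (cut := Cut.none) (xt := Ext.none) (P1 := 0) (W1 := 1230186008) (P2 := 0) (W2 := 536870912) (P3 := 697932185) (W3 := 42949674) (N0 := 3) (En := eng) (mo := mog) (C1 := cd7q3) (C2 := cd7q0) (C3 := pd3)
    rfl k0_mm_303

noncomputable def f_mm_313 : ℕ → ℕ → ℕ → ℕ → Bool := onCell 0 1230186008 536870912 536870912 697932185 42949674
    (rowB 3 eng mog cd7q3 cd7q1 pd3 0 true false false .dn 3 1 3 (qsf 0 1230186008 536870912 536870912 3) ndB7q3 ndB7q1 pcB3 Cut.none Ext.none)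

def k0_mm_313 : ∃ t, chk3 f_mm_313 t 1 1 1 = true :=
  ⟨(l 4), by decide +kernel⟩

theorem c_mm_313 : CertB 0 1230186008 536870912 536870912 697932185 42949674 3 eng mog cd7q3 cd7q1 pd3 true false false .dn 3 1 3
    ndB7q3 ndB7q1 pcB3 Cut.none Ext.none :=
  certB0 (fam := true) (s1 := false) (s2 := false) (a := 3) (b := 1) (c := 3) (cn := .dn) (n1 := ndB7q3) (n2 := ndB7q1) (pc := pcB3) (cut := Cut.none) (xt := Ext.none) (P1 := 0) (W1 := 1230186008) (P2 := 536870912) (W2 := 536870912) (P3 := 697932185) (W3 := 42949674) (N0 := 3) (En := eng) (mo := mog) (C1 := cd7q3) (C2 := cd7q1) (C3 := pd3)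
    rfl k0_mm_313

end Pool.Agent.Strip051.G.I6500_6900.Tab.C.BA77

namespace Pool.Agent.Strip051.G.I6500_6900.Tab.C.BB00

open Pool.Agent.Strip051.PB Pool.Agent.Strip051.PB.T
open Pool.Agent.Strip051.G.I6500_6900.Tab

noncomputable def cut_pp_001 : Cut := Cut.of [[⟨3, 0, 0, 1449551462⟩], [⟨4, 0, 0, 2845415833⟩]]

noncomputable def f_pp_001 : ℕ → ℕ → ℕ → ℕ → Bool := onCell 0 536870912 536870912 536870912 697932185 42949674
    (rowB 3 eng mog cd0q0 cd0q1 pd0 0 false true true .up 0 0 1 (qsf 0 536870912 536870912 536870912 0) ndB0q0 ndB0q1 pcB0 cut_pp_001 Ext.none)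

def k0_pp_001 : ∃ t, chk3 f_pp_001 t 1 1 1 = true :=
  ⟨(l 6), by decide +kernel⟩

theorem c_pp_001 : CertB 0 536870912 536870912 536870912 697932185 42949674 3 eng mog cd0q0 cd0q1 pd0 false true true .up 0 0 1
    ndB0q0 ndB0q1 pcB0 cut_pp_001 Ext.none :=
  certB0 (fam := false) (s1 := true) (s2 := true) (a := 0) (b := 0) (c := 1) (cn := .up) (n1 := ndB0q0) (n2 := ndB0q1) (pc := pcB0) (cut := cut_pp_001) (xt := Ext.none) (P1 := 0) (W1 := 536870912) (P2 := 536870912) (W2 := 536870912) (P3 := 697932185) (W3 := 42949674) (N0 := 3) (En := eng) (mo := mog) (C1 := cd0q0) (C2 := cd0q1) (C3 := pd0)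
    rfl k0_pp_001

noncomputable def cut_pp_011 : Cut := Cut.of [[⟨3, 0, 0, 1449551462⟩], [⟨4, 0, 0, 2845415833⟩], [⟨0, 0, 0, 67108864⟩, ⟨1, 1, 0, 67108864⟩, ⟨2, 1, 0, 67108864⟩]]

noncomputable def f_pp_011 : ℕ → ℕ → ℕ → ℕ → Bool := onCell 0 536870912 536870912 536870912 697932185 42949674
    (rowB 3 eng mog cd0q0 cd0q1 pd1 0 false true true .pnn 0 1 1 (qsf 0 536870912 536870912 536870912 1) ndB0q0 ndB0q1 pcB1 cut_pp_011 Ext.none)

def k0_pp_011 : ∃ t, chk3 f_pp_011 t 1 1 1 = true :=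
  ⟨(l 6), by decide +kernel⟩

theorem c_pp_011 : CertB 0 536870912 536870912 536870912 697932185 42949674 3 eng mog cd0q0 cd0q1 pd1 false true true .pnn 0 1 1
    ndB0q0 ndB0q1 pcB1 cut_pp_011 Ext.none :=
  certB0 (fam := false) (s1 := true) (s2 := true) (a := 0) (b := 1) (c := 1) (cn := .pnn) (n1 := ndB0q0) (n2 := ndB0q1) (pc := pcB1) (cut := cut_pp_011) (xt := Ext.none) (P1 := 0) (W1 := 536870912) (P2 := 536870912) (W2 := 536870912) (P3 := 697932185) (W3 := 42949674) (N0 := 3) (En := eng) (mo := mog) (C1 := cd0q0) (C2 := cd0q1) (C3 := pd1)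
    rfl k0_pp_011

noncomputable def cut_pp_012 : Cut := Cut.of [[⟨3, 0, 0, 1449551462⟩], [⟨4, 0, 0, 2845415833⟩], [⟨0, 0, 0, 33554432⟩, ⟨1, 1, 0, 33554432⟩, ⟨2, 1, 0, 33554432⟩]]

noncomputable def f_pp_012 : ℕ → ℕ → ℕ → ℕ → Bool := onCell 536870912 536870912 0 536870912 697932185 42949674
    (rowB 3 eng mog cd0q0 cd0q2 pd1 2 false true true .pnp 0 1 2 (qsf 0 536870912 0 536870912 1) ndB0q0 ndB0q2 pcB1 cut_pp_012 Ext.none)

def k0_pp_012 : ∃ t, chk3 f_pp_012 t 1 1 1 = true :=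
  ⟨(a (l 6) (b (b (b (b (a (a (a (l 16633600) (a (l 16610744) (b (l 16590120) (l 16600648)))) (a (a (b (l 16576440) (l 16586112)) (a (l 16571808) (l 16565392))) (a (l 16556888) (l 16546136)))) (a (a (a (l 16535848) (l 16526104)) (l 16513424)) (a (l 16502256) (l 16496408)))) (a (a (l 6) (a (a (l 16601824) (b (l 16583288) (l 16593736))) (a (b (l 16571920) (l 16581448)) (l 16565528)))) (a (a (a (l 16554056) (l 16543384)) (a (l 16533664) (l 16525504))) (a (l 16516584) (l 16509088))))) (a (a (l 6) (a (l 6) (b (a (l 16597008) (l 16584848)) (l 6)))) (a (a (b (a (l 16573304) (l 16562328)) (a (l 16593376) (l 16581592))) (b (a (l 16551760) (l 16542840)) (a (l 16570840) (l 16561616)))) (a (a (l 16544848) (l 16559904)) (l 16563208))))) (a (l 6) (a (a (l 6) (b (b (a (l 16590864) (l 16581288)) (l 6)) (l 6))) (b (a (b (a (l 16573336) (l 16566264)) (a (l 16594232) (l 16587064))) (b (l 16556968) (a (l 16580128) (l 16573056)))) (a (l 6) (b (b (a (l 16594872) (l 16582376))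 (a (l 6) (l 16588648))) (a (l 6) (b (a (l 6) (l 16593128)) (l 6))))))))) (l 6))), by decide +kernel⟩

theorem c_pp_012 : CertB 0 536870912 0 536870912 697932185 42949674 3 eng mog cd0q0 cd0q2 pd1 false true true .pnp 0 1 2
    ndB0q0 ndB0q2 pcB1 cut_pp_012 Ext.none :=
  certB2 (fam := false) (s1 := true) (s2 := true) (a := 0) (b := 1) (c := 2) (cn := .pnp) (n1 := ndB0q0) (n2 := ndB0q2) (pc := pcB1) (cut := cut_pp_012) (xt := Ext.none) (P1 := 0) (W1 := 536870912) (P2 := 0) (W2 := 536870912) (P3 := 697932185) (W3 := 42949674) (N0 := 3) (En := eng) (mo := mog) (C1 := cd0q0) (C2 := cd0q2) (C3 := pd1)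
    rfl (fun _ => rfl) k0_pp_012

noncomputable def cut_pp_022 : Cut := Cut.of [[⟨3, 0, 0, 1449551462⟩], [⟨4, 0, 0, 2845415833⟩], [⟨0, 0, 0, 67108864⟩, ⟨1, 1, 0, 67108864⟩, ⟨2, 1, 0, 67108864⟩]]

noncomputable def f_pp_022 : ℕ → ℕ → ℕ → ℕ → Bool := onCell 0 536870912 0 536870912 697932185 42949674
    (rowB 3 eng mog cd0q0 cd0q2 pd2 0 false true true .pp 0 2 2 (qsf 0 536870912 0 536870912 2) ndB0q0 ndB0q2 pcB2 cut_pp_022 Ext.none)

def k0_pp_022 : ∃ t, chk3 f_pp_022 t 1 1 1 = true :=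
  ⟨(a (a (b (b (a (b (a (b (l 16456632) (l 16460912)) (l 16533960)) (a (c (l 16522560) (l 16463568)) (a (l 16478856) (l 16486512)))) (b (a (l 16479152) (l 16486744)) (a (c (l 16494736) (l 16497616)) (l 16548672)))) (b (b (a (a (c (l 16484336) (l 16475008)) (l 16497456)) (a (l 16515984) (l 16526064))) (a (a (c (l 16495712) (l 16485368)) (l 16510000)) (a (l 16530304) (l 16542696)))) (a (a (b (a (l 16437864) (l 16487632)) (b (a (l 16487712) (l 16519312)) (c (l 16526056) (l 16535072)))) (b (c (l 16527312) (l 16540592)) (b (l 16544328) (a (l 16538048) (l 16550048))))) (b (a (a (l 16540088) (l 16551360)) (b (l 16557432) (l 16569832))) (b (a (l 16589752) (l 16624152)) (a (a (l 16562664) (l 16575712)) (a (l 16588904) (l 6)))))))) (b (a (b (b (b (a (c (l 16534008) (a (l 16515256) (l 16529368))) (a (l 16547896) (l 16560968))) (a (a (l 16551624) (l 16565872)) (a (l 16579864) (c (l 16575904) (l 16569664))))) (b (a (a (l 16560896) (l 16576400)) (a (c (l 16574192)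 (l 16566432)) (c (l 16609400) (l 16582672)))) (a (c (a (l 16555592) (l 16571280)) (a (l 16544016) (l 16561936))) (a (b (l 16600832) (l 6)) (l 6))))) (a (b (a (b (c (l 16567128) (l 16556200)) (l 6)) (l 6)) (l 6)) (l 6))) (b (a (b (a (b (l 16574560) (c (l 16589552) (l 16606200))) (b (l 16588480) (l 6))) (l 6)) (l 6)) (l 6))) (l 6))) (b (a (a (b (b (l 16491560) (l 53183285799)) (b (b (l 16532784) (l 126734661063)) (a (b (l 16595016) (l 502544372487)) (l 1)))) (b (b (l 1) (l 1)) (l 1))) (l 1)) (l 6))) (l 1)), by decide +kernel⟩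

theorem c_pp_022 : CertB 0 536870912 0 536870912 697932185 42949674 3 eng mog cd0q0 cd0q2 pd2 false true true .pp 0 2 2
    ndB0q0 ndB0q2 pcB2 cut_pp_022 Ext.none :=
  certB0 (fam := false) (s1 := true) (s2 := true) (a := 0) (b := 2) (c := 2) (cn := .pp) (n1 := ndB0q0) (n2 := ndB0q2) (pc := pcB2) (cut := cut_pp_022) (xt := Ext.none) (P1 := 0) (W1 := 536870912) (P2 := 0) (W2 := 536870912) (P3 := 697932185) (W3 := 42949674) (N0 := 3) (En := eng) (mo := mog) (C1 := cd0q0) (C2 := cd0q2) (C3 := pd2)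
    rfl k0_pp_022

noncomputable def cut_pp_101 : Cut := Cut.of [[⟨3, 0, 0, 1449551462⟩], [⟨4, 0, 0, 2845415833⟩]]

noncomputable def f_pp_101 : ℕ → ℕ → ℕ → ℕ → Bool := onCell 536870912 536870912 536870912 536870912 697932185 42949674
    (rowB 3 eng mog cd0q1 cd0q1 pd0 0 false true true .npn 1 0 1 (qsf 536870912 536870912 536870912 536870912 0) ndB0q1 ndB0q1 pcB0 cut_pp_101 Ext.none)

def k0_pp_101 : ∃ t, chk3 f_pp_101 t 1 1 1 = true :=
  ⟨(l 3), by decide +kernel⟩

theorem c_pp_101 : CertB 536870912 536870912 536870912 536870912 697932185 42949674 3 eng mog cd0q1 cd0q1 pd0 false true true .npn 1 0 1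
    ndB0q1 ndB0q1 pcB0 cut_pp_101 Ext.none :=
  certB0 (fam := false) (s1 := true) (s2 := true) (a := 1) (b := 0) (c := 1) (cn := .npn) (n1 := ndB0q1) (n2 := ndB0q1) (pc := pcB0) (cut := cut_pp_101) (xt := Ext.none) (P1 := 536870912) (W1 := 536870912) (P2 := 536870912) (W2 := 536870912) (P3 := 697932185) (W3 := 42949674) (N0 := 3) (En := eng) (mo := mog) (C1 := cd0q1) (C2 := cd0q1) (C3 := pd0)
    rfl k0_pp_101

noncomputable def cut_pp_102 : Cut := Cut.of [[⟨3, 0, 0, 1449551462⟩], [⟨4, 0, 0, 2845415833⟩]]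

noncomputable def f_pp_102 : ℕ → ℕ → ℕ → ℕ → Bool := onCell 536870912 536870912 0 536870912 697932185 42949674
    (rowB 3 eng mog cd0q1 cd0q2 pd0 0 false true true .npp 1 0 2 (qsf 536870912 536870912 0 536870912 0) ndB0q1 ndB0q2 pcB0 cut_pp_102 Ext.none)

def k0_pp_102 : ∃ t, chk3 f_pp_102 t 1 1 1 = true :=
  ⟨(a (l 6) (l 3)), by decide +kernel⟩

theorem c_pp_102 : CertB 536870912 536870912 0 536870912 697932185 42949674 3 eng mog cd0q1 cd0q2 pd0 false true true .npp 1 0 2
    ndB0q1 ndB0q2 pcB0 cut_pp_102 Ext.none :=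
  certB0 (fam := false) (s1 := true) (s2 := true) (a := 1) (b := 0) (c := 2) (cn := .npp) (n1 := ndB0q1) (n2 := ndB0q2) (pc := pcB0) (cut := cut_pp_102) (xt := Ext.none) (P1 := 536870912) (W1 := 536870912) (P2 := 0) (W2 := 536870912) (P3 := 697932185) (W3 := 42949674) (N0 := 3) (En := eng) (mo := mog) (C1 := cd0q1) (C2 := cd0q2) (C3 := pd0)
    rfl k0_pp_102

noncomputable def cut_pp_112 : Cut := Cut.of [[⟨3, 0, 0, 1449551462⟩], [⟨4, 0, 0, 2845415833⟩]]

noncomputable def f_pp_112 : ℕ → ℕ → ℕ → ℕ → Bool := onCell 536870912 536870912 0 536870912 697932185 42949674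
    (rowB 3 eng mog cd0q1 cd0q2 pd1 0 false true true .dn 1 1 2 (qsf 536870912 536870912 0 536870912 1) ndB0q1 ndB0q2 pcB1 cut_pp_112 Ext.none)

def k0_pp_112 : ∃ t, chk3 f_pp_112 t 1 1 1 = true :=
  ⟨(a (l 6) (l 1)), by decide +kernel⟩

theorem c_pp_112 : CertB 536870912 536870912 0 536870912 697932185 42949674 3 eng mog cd0q1 cd0q2 pd1 false true true .dn 1 1 2
    ndB0q1 ndB0q2 pcB1 cut_pp_112 Ext.none :=
  certB0 (fam := false) (s1 := true) (s2 := true) (a := 1) (b := 1) (c := 2) (cn := .dn) (n1 := ndB0q1) (n2 := ndB0q2) (pc := pcB1) (cut := cut_pp_112) (xt := Ext.none) (P1 := 536870912) (W1 := 536870912) (P2 := 0) (W2 := 536870912) (P3 := 697932185) (W3 := 42949674) (N0 := 3) (En := eng) (mo := mog) (C1 := cd0q1) (C2 := cd0q2) (C3 := pd1)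
    rfl k0_pp_112

noncomputable def cut_pp_202 : Cut := Cut.of [[⟨3, 0, 0, 1449551462⟩], [⟨4, 0, 0, 2845415833⟩]]

noncomputable def f_pp_202 : ℕ → ℕ → ℕ → ℕ → Bool := onCell 0 536870912 0 536870912 697932185 42949674
    (rowB 3 eng mog cd0q2 cd0q2 pd0 0 false true true .pp 2 0 2 (qsf 0 536870912 0 536870912 0) ndB0q2 ndB0q2 pcB0 cut_pp_202 Ext.none)

def k0_pp_202 : ∃ t, chk3 f_pp_202 t 1 1 1 = true :=
  ⟨(l 3), by decide +kernel⟩

theorem c_pp_202 : CertB 0 536870912 0 536870912 697932185 42949674 3 eng mog cd0q2 cd0q2 pd0 false true true .pp 2 0 2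
    ndB0q2 ndB0q2 pcB0 cut_pp_202 Ext.none :=
  certB0 (fam := false) (s1 := true) (s2 := true) (a := 2) (b := 0) (c := 2) (cn := .pp) (n1 := ndB0q2) (n2 := ndB0q2) (pc := pcB0) (cut := cut_pp_202) (xt := Ext.none) (P1 := 0) (W1 := 536870912) (P2 := 0) (W2 := 536870912) (P3 := 697932185) (W3 := 42949674) (N0 := 3) (En := eng) (mo := mog) (C1 := cd0q2) (C2 := cd0q2) (C3 := pd0)
    rfl k0_pp_202

noncomputable def cut_pm_001 : Cut := Cut.of [[⟨3, 0, 0, 1449551462⟩], [⟨4, 0, 0, 2845415833⟩]]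

noncomputable def xt_pm_001 : Ext := extD2 3 ⟨7, 3, 3, 10, 49, 25, 3, 4, 67, 200, 3, 16⟩ eng cd0q0 cd0q1 pd0 false true false .up 0 0 1 rfl ndB0q0 ndB0q1 pcB0

noncomputable def f_pm_001 : ℕ → ℕ → ℕ → ℕ → Bool := onCell 0 536870912 536870912 536870912 697932185 42949674
    (rowB 3 eng mog cd0q0 cd0q1 pd0 0 false true false .up 0 0 1 (qsf 0 536870912 536870912 536870912 0) ndB0q0 ndB0q1 pcB0 cut_pm_001 xt_pm_001)

def k0_pm_001 : ∃ t, chk3 f_pm_001 t 1 2 1 = true :=
  ⟨(l 14), by decide +kernel⟩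

def k1_pm_001 : ∃ t, chk3 f_pm_001 t 1 6 1 = true :=
  ⟨(a (l 14) (a (l 14) (b (l 14) (a (b (l 14) (a (l 14) (b (l 14) (a (l 14) (b (l 14) (l 16555776)))))) (b (a (l 14) (b (a (l 14) (l 16621368)) (a (b (l 16612160) (l 16598184)) (b (l 16607920) (l 16597928))))) (a (b (a (b (l 14) (l 16576400)) (l 16578096)) (a (b (l 16561832) (l 16546904)) (b (l 16555896) (l 16540512)))) (b (a (l 16576128) (b (l 16585976) (l 16571584))) (a (b (l 16553312) (l 16537432)) (b (l 16555752) (b (l 16543496) (l 16535456))))))))))), by decide +kernel⟩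

def k2_pm_001 : ∃ t, chk3 f_pm_001 t 2 7 1 = true :=
  ⟨(l 2), by decide +kernel⟩

def k3_pm_001 : ∃ t, chk3 f_pm_001 t 6 7 1 = true :=
  ⟨(b (b (l 14) (l 2)) (l 2)), by decide +kernel⟩

def k4_pm_001 : ∃ t, chk3 f_pm_001 t 14 14 1 = true :=
  ⟨(b (a (b (a (l 14) (b (l 14) (a (l 14) (l 16547056)))) (a (b (l 14) (l 2)) (b (a (b (l 14) (l 68819643175)) (b (l 16536872) (c (l 16536736) (l 16523760)))) (a (b (c (l 71504014983) (l 68282762455)) (l 2)) (c (l 46271053255) (l 37681090391)))))) (b (a (b (a (l 14) (l 16549352)) (a (l 16541088) (l 16535184))) (b (l 16541184) (a (l 16529520) (l 16524232)))) (a (b (a (b (l 16530840) (l 16523976)) (b (l 16524792) (l 16517816))) (a (c (l 16520584) (l 16507016)) (l 16507632))) (b (a (b (l 16518712) (l 16511784)) (l 16509704)) (a (l 16501576) (l 16495896)))))) (a (b (a (l 2) (b (a (l 2) (c (l 60229697447) (l 58619056903))) (l 2))) (l 2)) (b (a (b (a (c (l 16507832) (l 16493680)) (c (l 16501592) (l 16487424))) (a (c (l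 52713468311) (l 50029085463)) (c (l 39828554423) (l 16474768)))) (b (a (l 16488544) (l 16482808)) (a (c (l 16483312) (l 16468672)) (l 16470344)))) (b (a (a (l 2) (c (l 45734111959) (l 41975987063))) (c (a (l 35533552007) (l 16465816)) (a (l 16456656) (l 16450840)))) (a (l 2) (c (a (l 42512851639) (c (l 16458008) (l 16450768))) (a (l 33922888551) (l 16439336)))))))), by decide +kernel⟩

def k5_pm_001 : ∃ t, chk3 f_pm_001 t 15 14 1 = true :=
  ⟨(b (a (b (a (b (l 16531832) (a (l 16519160) (l 16514592))) (b (l 16525232) (a (l 16510832) (l 16508216)))) (a (b (a (l 16504600) (l 16500080)) (a (l 16490680) (l 16486008))) (b (l 16494576) (l 16480208)))) (b (a (b (a (l 16521880) (l 16520856)) (l 16505576)) (b (l 16522400) (l 16506384))) (a (b (l 16490024) (l 16475128)) (b (l 16490120) (l 16474544))))) (a (b (a (b (a (l 16477504) (l 16472704)) (a (l 16464968) (l 16460072))) (b (a (l 16468496) (l 16464952)) (c (l 16461672) (l 16445680)))) (a (b (c (a (l 16460480)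 (l 16455632)) (l 16463696)) (c (a (c (l 16452640) (l 16445336)) (l 16444072)) (a (l 16433832) (l 16428688)))) (b (c (l 16449424) (l 16433472)) (c (a (l 16439640) (l 16435816)) (l 16421816))))) (b (a (b (a (l 16462144) (l 16460280)) (c (l 16456280) (l 16439112))) (b (a (l 16459664) (l 16460432)) (b (l 16449376) (l 16474080)))) (a (b (a (l 16436488) (l 16434136)) (c (a (l 16432656) (l 16430376)) (l 16414648))) (b (c (l 597116493979993431839279) (l 16423312)) (c (l 595634413385821303902767) (l 16410936))))))), by decide +kernel⟩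

def k6_pm_001 : ∃ t, chk3 f_pm_001 t 14 15 1 = true :=
  ⟨(b (a (l 2) (b (b (a (l 2) (a (l 2) (c (l 53250236055) (l 16428168)))) (l 2)) (l 2))) (l 2)), by decide +kernel⟩

def k7_pm_001 : ∃ t, chk3 f_pm_001 t 15 15 1 = true :=
  ⟨(b (a (a (a (b (b (c (c (l 16441416) (l 16434168)) (l 16422672)) (c (l 59155783367) (l 16411816))) (l 2)) (b (b (c (l 16432800) (l 16417504)) (c (c (l 16425344) (l 16418144)) (l 16406648))) (a (l 2) (b (c (l 30164715975) (l 16395016)) (l 2))))) (b (b (c (a (l 16428264) (l 16424288)) (l 16410544)) (c (a (b (l 16419904) (l 16414488)) (b (l 16415832) (l 16410376))) (a (l 16401904) (l 16397624)))) (b (c (a (l 21574778423) (l 16402536)) (a (l 16391464) (l 16387088))) (c (a (l 71503753367) (c (l 24259101735) (l 16389112))) (l 16400496))))) (b (b (a (c (a (l 16420944) (l 16418440)) (l 16403136)) (c (l 594095263177171137860143) (l 16399024))) (b (a (a (l 16425536) (l 16401672)) (c (l 592881525063196261454383) (l 16390464))) (a (c (a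 (l 16406776) (l 16403928)) (l 16410240)) (c (l 592106902530003751969327) (l 16405496))))) (a (c (a (b (l 16398832) (c (l 16392584) (l 16385128))) (b (l 16395856) (l 16385616))) (b (l 16381368) (l 16371352))) (c (l 590940722300206951424559) (b (l 16376312) (l 16365792)))))) (b (a (a (l 2) (a (l 2) (c (b (c (l 57545071511) (l 16380088)) (l 2)) (l 68282466071)))) (c (a (a (c (a (b (l 56471328167) (l 2)) (l 140620011592548399)) (b (l 16375936) (l 57008171447))) (c (l 140554796803702831) (b (l 16372352) (l 16363696)))) (b (l 587891821232015409914415) (l 140348432190488623))) (a (b (l 16362056) (a (l 16355448) (l 16351608))) (b (l 16377024) (b (l 16349280) (l 16344976)))))) (a (l 2) (b (a (a (l 2) (c (c (l 140436736717471791) (l 54323792871)) (l 66134939975))) (c (l 140801224805417007) (a (l 16340160) (l 16337528)))) (a (l 2) (a (c (l 140218895945957423) (l 69356142935)) (c (l 140136295129792559) (c (c (l 139975903850397743) (l 16331592)) (l 16325064))))))))),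 by decide +kernel⟩

theorem s8_pm_001 : ∃ t, chk3 f_pm_001 t 7 15 1 = true := ex3_a k6_pm_001 k7_pm_001

theorem s9_pm_001 : ∃ t, chk3 f_pm_001 t 7 14 1 = true := ex3_a k4_pm_001 k5_pm_001

theorem s10_pm_001 : ∃ t, chk3 f_pm_001 t 7 7 1 = true := ex3_b s9_pm_001 s8_pm_001

theorem s11_pm_001 : ∃ t, chk3 f_pm_001 t 3 7 1 = true := ex3_a k3_pm_001 s10_pm_001

theorem s12_pm_001 : ∃ t, chk3 f_pm_001 t 1 7 1 = true := ex3_a k2_pm_001 s11_pm_001

theorem s13_pm_001 : ∃ t, chk3 f_pm_001 t 1 3 1 = true := ex3_b k1_pm_001 s12_pm_001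

theorem s14_pm_001 : ∃ t, chk3 f_pm_001 t 1 1 1 = true := ex3_b k0_pm_001 s13_pm_001

theorem c_pm_001 : CertB 0 536870912 536870912 536870912 697932185 42949674 3 eng mog cd0q0 cd0q1 pd0 false true false .up 0 0 1
    ndB0q0 ndB0q1 pcB0 cut_pm_001 xt_pm_001 :=
  certB0 (fam := false) (s1 := true) (s2 := false) (a := 0) (b := 0) (c := 1) (cn := .up) (n1 := ndB0q0) (n2 := ndB0q1) (pc := pcB0) (cut := cut_pm_001) (xt := xt_pm_001) (P1 := 0) (W1 := 536870912) (P2 := 536870912) (W2 := 536870912) (P3 := 697932185) (W3 := 42949674) (N0 := 3) (En := eng) (mo := mog) (C1 := cd0q0) (C2 := cd0q1) (C3 := pd0)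
    rfl s14_pm_001

noncomputable def cut_pm_011 : Cut := Cut.of [[⟨3, 0, 0, 1449551462⟩], [⟨4, 0, 0, 2845415833⟩], [⟨0, 0, 0, 53687091⟩, ⟨1, 1, 0, 53687091⟩, ⟨2, 1, 0, 53687091⟩]]

noncomputable def f_pm_011 : ℕ → ℕ → ℕ → ℕ → Bool := onCell 0 536870912 536870912 536870912 697932185 42949674
    (rowB 3 eng mog cd0q0 cd0q1 pd1 0 false true false .pnn 0 1 1 (qsf 0 536870912 536870912 536870912 1) ndB0q0 ndB0q1 pcB1 cut_pm_011 Ext.none)

def k0_pm_011 : ∃ t, chk3 f_pm_011 t 1 2 1 = true :=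
  ⟨(l 14), by decide +kernel⟩

def k1_pm_011 : ∃ t, chk3 f_pm_011 t 2 3 1 = true :=
  ⟨(b (l 14) (a (l 14) (b (l 14) (a (l 14) (b (l 14) (a (l 14) (b (l 14) (a (b (l 14) (l 16536336)) (b (l 16532800) (l 16520848)))))))))), by decide +kernel⟩

def k2_pm_011 : ∃ t, chk3 f_pm_011 t 3 6 1 = true :=
  ⟨(a (l 14) (a (a (l 14) (l 1)) (l 1))), by decide +kernel⟩

def k3_pm_011 : ∃ t, chk3 f_pm_011 t 6 7 1 = true :=
  ⟨(b (a (l 14) (b (l 14) (a (a (l 14) (b (l 14) (b (l 14) (c (l 16510920) (l 16507304))))) (b (a (b (l 14) (l 16516592)) (b (l 16515352) (l 16502432))) (b (a (l 16504288) (l 16490088)) (a (c (l 16494720) (l 16490376)) (l 16478336))))))) (a (b (a (b (l 14) (a (l 14) (b (l 14) (l 16534720)))) (b (a (l 14) (b (l 14) (l 16543576))) (a (b (l 16550024) (l 16517472)) (b (l 16511168) (a (l 16504464) (l 16495736)))))) (b (a (a (b (a (l 14) (l 16535664)) (l 16528176)) (b (b (l 16525912) (l 16520200)) (l 16511792))) (a (b (l 16506328) (l 16495560)) (b (l 16489480)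 (l 16479304)))) (a (a (b (l 16516696) (l 16505208)) (l 16516240)) (a (l 16479832) (l 16464464))))) (b (a (a (b (c (l 16532528) (l 16529160)) (b (l 16493280) (l 16503664))) (b (c (l 16493944) (l 16490256)) (b (l 16476000) (l 16486728)))) (b (a (c (l 16477968) (l 16473560)) (c (l 16464304) (l 16458720))) (b (a (l 16459936) (l 16445704)) (a (l 16449864) (l 16435648))))) (a (b (a (l 16488648) (l 16451320)) (a (l 16448952) (l 16433424))) (b (a (l 16435792) (l 16421688)) (a (l 16418392) (l 16404440))))))), by decide +kernel⟩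

def k4_pm_011 : ∃ t, chk3 f_pm_011 t 7 7 1 = true :=
  ⟨(b (a (b (a (b (a (l 14) (l 16563504)) (a (b (l 14) (l 16516856)) (b (l 16519520) (l 16504504)))) (b (l 1) (b (l 1) (l 47814556343)))) (a (b (a (l 16496336) (l 16484040)) (b (a (l 16477448) (l 16465104)) (a (l 16465624) (l 16453272)))) (b (a (l 16503152) (l 48888231975)) (c (a (l 16451256) (b (l 16445176) (l 16433488))) (a (l 16442320) (l 40298221799)))))) (b (l 1) (a (b (l 1) (b (l 1) (c (l 33855733511) (l 31708231031)))) (l 1)))) (a (b (a (a (b (l 16448736) (b (l 16432920) (l 16422824))) (b (l 16436384) (b (l 16420584) (l 16410576)))) (b (a (c (l 16428672) (l 16419672)) (c (l 16416864) (l 16407136))) (a (b (l 16408472) (l 16398632)) (b (l 16396432) (l 16386864))))) (a (b (a (l 16408848) (l 16396688)) (a (l 16391664) (l 16379680))) (b (a (l 16384952) (c (l 16378360) (l 16368512))) (a (l 16368264) (c (l 16362120) (l 16352240)))))) (b (a (b (a (c (l 16405000) (l 16394816)) (c (l 16414104) (l 16382792)))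 (a (b (l 16384584) (l 16375280)) (c (l 16373280) (l 16362880)))) (b (l 1) (a (c (l 16361448) (l 16351240)) (l 1)))) (a (b (a (c (l 16367368) (l 16357000)) (c (l 16356328) (l 16345744))) (a (c (l 16351648) (l 16341224)) (c (l 16341216) (l 16330520)))) (b (a (c (l 16345008) (l 16334576)) (c (l 16333928) (l 16323776))) (a (c (l 16330592) (l 16319984)) (c (l 16320208) (l 16309808)))))))), by decide +kernel⟩

theorem s5_pm_011 : ∃ t, chk3 f_pm_011 t 3 7 1 = true := ex3_a k3_pm_011 k4_pm_011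

theorem s6_pm_011 : ∃ t, chk3 f_pm_011 t 3 3 1 = true := ex3_b k2_pm_011 s5_pm_011

theorem s7_pm_011 : ∃ t, chk3 f_pm_011 t 1 3 1 = true := ex3_a k1_pm_011 s6_pm_011

theorem s8_pm_011 : ∃ t, chk3 f_pm_011 t 1 1 1 = true := ex3_b k0_pm_011 s7_pm_011

theorem c_pm_011 : CertB 0 536870912 536870912 536870912 697932185 42949674 3 eng mog cd0q0 cd0q1 pd1 false true false .pnn 0 1 1
    ndB0q0 ndB0q1 pcB1 cut_pm_011 Ext.none :=
  certB0 (fam := false) (s1 := true) (s2 := false) (a := 0) (b := 1) (c := 1) (cn := .pnn) (n1 := ndB0q0) (n2 := ndB0q1) (pc := pcB1) (cut := cut_pm_011) (xt := Ext.none) (P1 := 0) (W1 := 536870912) (P2 := 536870912) (W2 := 536870912) (P3 := 697932185) (W3 := 42949674) (N0 := 3) (En := eng) (mo := mog) (C1 := cd0q0) (C2 := cd0q1) (C3 := pd1)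
    rfl s8_pm_011

noncomputable def cut_pm_012 : Cut := Cut.of [[⟨3, 0, 0, 1449551462⟩], [⟨4, 0, 0, 2845415833⟩], [⟨0, 0, 0, 53687091⟩, ⟨1, 1, 0, 53687091⟩, ⟨2, 1, 0, 53687091⟩]]

noncomputable def f_pm_012 : ℕ → ℕ → ℕ → ℕ → Bool := onCell 0 536870912 0 536870912 697932185 42949674
    (rowB 3 eng mog cd0q0 cd0q2 pd1 0 false true false .pnp 0 1 2 (qsf 0 536870912 0 536870912 1) ndB0q0 ndB0q2 pcB1 cut_pm_012 Ext.none)

def k0_pm_012 : ∃ t, chk3 f_pm_012 t 2 2 1 = true :=
  ⟨(a (b (l 2) (a (l 2) (b (l 2) (a (l 2) (a (l 2) (b (l 2) (a (l 2) (b (b (l 16451568) (l 16453304)) (b (l 16455616) (l 16458496)))))))))) (b (a (a (a (l 2) (b (l 16481512) (b (l 16475352) (l 16473504)))) (b (b (l 16486344) (l 16478728)) (b (l 16474224) (l 16493320)))) (a (b (b (l 16490608) (l 16481080)) (a (l 16472520) (l 16472936))) (b (b (l 16500160) (a (l 16486032) (l 16491488))) (a (b (l 16477632) (l 16471944)) (b (l 16481904) (l 16474840)))))) (a (b (a (b (a (l 16462264) (l 16465728))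 (a (b (l 16457016) (l 16454568)) (l 16458888))) (b (a (l 16468312) (l 16469528)) (a (l 16460984) (l 16462216)))) (a (b (a (b (a (l 16452064) (l 16453664)) (a (l 16451784) (l 16453232))) (b (l 16455600) (l 16454944))) (a (b (a (l 16453792) (l 16454984)) (a (l 16458120) (l 16458944))) (b (l 16477280) (a (l 16459512) (l 16459848))))) (b (a (b (l 16457360) (l 16456392)) (b (l 16458232) (l 16456936))) (a (b (l 16457232) (l 16459896)) (b (l 16457256) (l 16459176)))))) (b (a (b (a (l 16468864) (l 16468096)) (a (l 16462752) (l 16463616))) (b (a (l 16468584) (l 16469992)) (a (b (l 16466352) (l 16462992)) (b (l 16467264) (l 16465176))))) (a (b (a (b (l 16458384) (l 16456744)) (b (l 16458712) (l 16456712))) (a (b (l 16456520) (a (l 16458072) (l 16457272))) (b (a (l 16456008) (l 16455896)) (a (l 16456624) (l 16456144))))) (b (b (a (l 16459752) (l 16461552)) (a (l 16457384) (l 16458792))) (a (b (a (l 16455952) (l 16456200)) (a (l 16455832) (l 16455704))) (b (a (l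 16456632) (l 16457256)) (a (l 16455776) (l 16456048)))))))))), by decide +kernel⟩

def k1_pm_012 : ∃ t, chk3 f_pm_012 t 4 3 1 = true :=
  ⟨(b (a (l 2) (b (a (l 2) (b (a (b (l 2) (a (l 2) (a (l 2) (l 16470664)))) (b (a (b (l 16460960) (l 16464808)) (b (l 16461816) (l 16465424))) (a (a (l 16470872) (l 16471040)) (l 16471216)))) (a (a (b (l 2) (a (l 16490560) (l 16490416))) (b (a (l 16479864) (l 16479872)) (l 16490104))) (b (a (l 16479808) (l 16479584)) (a (l 16489544) (l 16488816)))))) (a (a (b (l 2) (a (l 2) (b (l 16537320) (l 16554992)))) (b (a (b (l 2) (l 16519144)) (b (l 16503480) (l 16517960))) (b (a (l 16535664) (l 16533808)) (l 16551440)))) (b (a (b (a (l 16502728) (l 16501784)) (l 16515832)) (b (l 16500056) (l 16512376))) (a (b (l 16530688) (l 16546032)) (b (l 16525904) (l 16539928))))))) (b (a (b (b (l 2) (l 14)) (l 14)) (a (b (a (b (l 16553080) (l 14)) (b (l 16568136) (l 16584872))) (l 14)) (b (b (l 16515944) (l 16572952)) (b (l 16588584) (l 16600976)))))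 (l 14))), by decide +kernel⟩

def k2_pm_012 : ∃ t, chk3 f_pm_012 t 5 3 1 = true :=
  ⟨(b (a (b (a (b (a (b (a (l 16464144) (l 16464520)) (a (l 16471312) (l 16471208))) (b (a (l 16464648) (l 16464536)) (l 16470600))) (a (b (l 16478920) (l 16487416)) (b (l 16477280) (l 16484776)))) (b (a (b (l 16463928) (l 16468952)) (b (l 16462328) (l 16466408))) (a (b (l 16474680) (l 16481192)) (b (l 16471176) (l 16476704))))) (a (b (a (b (l 16497176) (l 16508272)) (b (l 16493448) (l 16503328))) (a (l 16547856) (l 16519960))) (b (a (l 16514104) (l 16486968)) (a (l 16512096) (l 16503376))))) (b (a (b (a (b (a (l 16460568) (l 16459328)) (l 16463104)) (b (a (l 16458248) (l 16457336)) (l 16459976))) (a (b (l 16466920) (l 16471472)) (b (l 16462856) (l 16466432)))) (b (a (b (a (l 16456600) (l 16456048)) (l 16457584)) (b (b (l 16455576) (l 16455608)) (l 16455984))) (a (b (l 16459528) (l 16462144)) (b (l 16457008) (l 16458680))))) (a (b (a (b (l 16476896) (l 16483160)) (b (l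 16470784) (l 16475888))) (a (l 16493960) (l 16484792))) (b (b (a (l 16465456) (l 16460952)) (l 16487448)) (a (l 16476424) (l 16490376)))))) (b (a (a (b (l 16548144) (b (l 16567344) (l 16577464))) (b (l 16527448) (l 16609200))) (a (b (a (l 16509840) (l 16498216)) (b (l 16516368) (a (l 16532512) (l 16518528)))) (b (a (l 16487832) (l 16480280)) (b (l 16494648) (a (l 16507576) (l 16497992)))))) (a (b (a (b (l 16584296) (l 14)) (b (l 16562608) (l 16568232))) (a (l 14) (a (l 14) (b (l 16568344) (l 14))))) (b (a (a (l 16569016) (l 16533872)) (a (l 16521376) (l 16509296))) (a (b (a (l 16555784) (l 16542272)) (a (l 16558560) (l 16544288))) (b (a (l 16528456) (l 16514336)) (a (l 16529744) (l 16514888)))))))), by decide +kernel⟩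

def k3_pm_012 : ∃ t, chk3 f_pm_012 t 6 4 1 = true :=
  ⟨(a (a (b (b (a (l 16511536) (l 16520328)) (a (l 16498360) (l 16506064))) (a (b (l 16487584) (l 16479120)) (b (l 16494064) (l 16484192)))) (b (b (a (l 16529624) (l 16539368)) (a (l 16514240) (l 16522848))) (b (a (l 16501008) (l 16508352)) (a (l 16489720) (b (l 16498544) (l 16492632)))))) (b (a (b (a (l 16549936) (l 16562640)) (a (b (l 16536416) (l 16528160)) (l 16544552))) (b (a (l 16576984) (b (l 16596624) (l 16586808))) (a (l 16558304) (l 16573040)))) (a (b (a (a (l 16514304) (l 16519320)) (b (l 16532272) (l 16524744))) (a (b (a (l 16503776) (l 16508784)) (a (l 16497504) (l 16502560))) (b (l 16517672) (l 16511136)))) (b (a (b (l 16545680) (l 16537840)) (l 16556048)) (a (b (l 16530408) (l 16523464)) (b (l 16544120) (l 16536760))))))), by decide +kernel⟩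

def k4_pm_012 : ∃ t, chk3 f_pm_012 t 6 5 1 = true :=
  ⟨(a (b (a (b (a (l 16472776) (l 16476344)) (a (b (l 16469208) (l 16467016)) (l 16470192))) (b (a (l 16480344) (b (l 16487192) (l 16482232))) (a (l 16472856) (b (l 16477888) (l 16495208))))) (a (b (a (b (l 16463992) (l 16460856)) (b (l 16466520) (l 16462992))) (a (b (a (l 16458064) (l 16458888)) (a (l 16456496) (l 16456968))) (b (l 16460032) (l 16457592)))) (b (a (b (l 16468032) (l 16464992)) (b (l 16492336) (a (l 16467368) (l 16470712)))) (a (b (a (l 16461072) (l 16462008)) (a (l 16458136) (l 16459616))) (b (l 16466408) (l 16464152)))))) (b (a (b (a (b (a (l 16491888) (l 16496944)) (a (l 16486992) (l 16491936))) (b (l 16505200) (c (l 16508152) (l 16491296)))) (a (b (l 16485192) (l 16481640)) (b (c (l 16503432) (l 16486536)) (l 16512008)))) (b (a (c (b (l 16524968) (l 16519168)) (l 16506072)) (b (l 16529928) (l 16523624))) (a (b (c (l 16513960) (l 16497872)) (a (l 16498752) (l 16504208))) (b (l 16517896)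 (l 16512808))))) (a (b (a (b (l 16478776) (b (l 16476952) (l 16475656))) (b (l 16508616) (l 16484688))) (a (b (l 16473784) (l 16470512)) (b (b (l 16482280) (l 16480808)) (l 16477704)))) (b (a (b (a (l 16494968) (l 16500168)) (l 16494000)) (b (l 16508384) (l 16504248))) (a (b (l 16510960) (l 16485984)) (b (l 16499744) (l 16494592))))))), by decide +kernel⟩

def k5_pm_012 : ∃ t, chk3 f_pm_012 t 7 2 1 = true :=
  ⟨(b (a (b (a (b (a (b (l 16611760) (l 16602016)) (l 16621032)) (a (l 16587864) (b (l 16606968) (l 16597400)))) (b (l 16642200) (b (l 16647632) (a (l 16611312) (l 16623784))))) (a (b (a (l 16570368) (l 16584072)) (a (l 16554040) (l 16566984))) (b (a (l 16597216) (l 16610168)) (a (l 16579344) (l 16591232))))) (b (a (b (l 6) (l 16689968)) (l 6)) (a (b (a (b (l 16626976) (l 16617280)) (b (l 16639072) (l 16629336))) (a (l 16602800) (l 16614096))) (b (a (l 16645576) (l 6)) (a (b (l 16630632) (l 16619920)) (b (l 16641272) (l 16631160))))))) (a (b (a (b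 (a (l 16539416) (l 16551416)) (a (l 16526976) (l 16537944))) (b (a (l 16562832) (l 16573768)) (a (l 16548312) (l 16558200)))) (a (b (a (b (l 16519216) (l 16514480)) (l 16526784)) (b (l 16513648) (l 16506696))) (b (b (l 16543552) (l 16537280)) (b (l 16529952) (l 16521272))))) (b (a (b (a (l 16584376) (l 16594720)) (a (l 16567752) (l 16577048))) (b (a (l 16604928) (l 16615168)) (a (l 16586312) (l 16595544)))) (a (b (a (l 16553232) (l 16561480)) (b (l 16544664) (l 16534000))) (b (a (l 16569736) (l 16577848)) (a (l 16549184) (l 16555600))))))), by decide +kernel⟩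

def k6_pm_012 : ∃ t, chk3 f_pm_012 t 6 3 1 = true :=
  ⟨(b (a (b (a (b (a (b (a (l 16455584) (l 16455648)) (l 16455072)) (b (l 16455664) (a (l 16454512) (l 16454208)))) (a (b (l 16455192) (l 16455928)) (b (a (l 16453976) (l 16454072)) (l 16455008)))) (b (a (b (a (l 16456104) (l 16458224)) (l 16456392)) (b (l 16462208) (l 16460672))) (a (b (l 16456456) (l 16457056)) (b (l 16459672) (l 16459120))))) (a (b (a (b (l 16457368) (l 16459784)) (b (l 16456760) (l 16459104))) (a (l 16465384) (l 16463096))) (b (a (l 16458504) (l 16458608)) (a (l 16460504) (l 16457600))))) (b (a (b (a (b (l 16467600) (l 16465024)) (b (l 16473816) (l 16470184))) (a (b (l 16462936) (l 16461240)) (b (l 16466992) (l 16464144)))) (b (a (b (l 16480904) (l 16476176)) (l 16486008)) (a (l 16469936) (l 16474744)))) (a (b (a (l 16458784) (l 16459712)) (a (l 16454784) (l 16452624))) (b (a (l 16461304) (l 16463248)) (a (l 16450968) (l 16449392)))))) (a (b (a (b (a (l 16474920) (l 16469536))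 (b (l 16479032) (l 16483816))) (b (l 16481624) (l 16463520))) (b (a (a (l 16497424) (l 16485328)) (b (l 16465920) (l 16467024))) (a (b (a (l 16500040) (l 16485952)) (a (l 16499856) (l 16485032))) (b (l 16465400) (a (l 16470512) (l 16456120)))))) (b (a (b (l 16449072) (l 16445720)) (b (a (l 16441352) (l 16436056)) (l 16428384))) (b (a (b (l 16442936) (l 16440720)) (a (l 16423504) (l 16411752))) (b (a (l 16437728) (l 16452464)) (a (a (l 16441592) (l 16426888)) (a (l 16412480) (l 16398968)))))))), by decide +kernel⟩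

def k7_pm_012 : ∃ t, chk3 f_pm_012 t 7 3 1 = true :=
  ⟨(b (a (b (b (a (b (l 16499920) (l 16492032)) (b (l 16511400) (l 16501848))) (a (l 16481072) (l 16486808))) (a (b (l 16465040) (l 16445576)) (b (l 16464712) (l 16437632)))) (b (b (a (a (l 16513696) (l 16518560)) (l 16545848)) (a (l 16575056) (b (l 16501320) (l 16485760)))) (a (b (l 16462448) (l 16427248)) (b (l 16458576) (l 16415096))))) (b (a (a (b (l 16426344) (l 16408224)) (b (l 16410072) (l 16392832))) (a (b (l 16397736) (l 16379032)) (b (l 16388040) (l 16366104)))) (a (b (a (b (l 16398912) (l 16392944)) (b (l 16381120) (l 16373784))) (a (a (l 16410656) (l 16399440)) (b (l 16366464) (a (l 16364104) (l 16353608))))) (b (a (b (l 16365008) (l 16356360)) (b (l 16349816) (l 16370992))) (a (b (l 16347480) (a (l 16343472) (l 16333568))) (b (a (l 16333648) (l 16324736)) (a (l 16323696) (l 16314128)))))))), by decide +kernel⟩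

theorem s8_pm_012 : ∃ t, chk3 f_pm_012 t 3 3 1 = true := ex3_a k6_pm_012 k7_pm_012

theorem s9_pm_012 : ∃ t, chk3 f_pm_012 t 6 2 1 = true := ex3_b k3_pm_012 k4_pm_012

theorem s10_pm_012 : ∃ t, chk3 f_pm_012 t 3 2 1 = true := ex3_a s9_pm_012 k5_pm_012

theorem s11_pm_012 : ∃ t, chk3 f_pm_012 t 3 1 1 = true := ex3_b s10_pm_012 s8_pm_012

theorem s12_pm_012 : ∃ t, chk3 f_pm_012 t 2 3 1 = true := ex3_a k1_pm_012 k2_pm_012

theorem s13_pm_012 : ∃ t, chk3 f_pm_012 t 2 1 1 = true := ex3_b k0_pm_012 s12_pm_012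

theorem s14_pm_012 : ∃ t, chk3 f_pm_012 t 1 1 1 = true := ex3_a s13_pm_012 s11_pm_012

theorem c_pm_012 : CertB 0 536870912 0 536870912 697932185 42949674 3 eng mog cd0q0 cd0q2 pd1 false true false .pnp 0 1 2
    ndB0q0 ndB0q2 pcB1 cut_pm_012 Ext.none :=
  certB0 (fam := false) (s1 := true) (s2 := false) (a := 0) (b := 1) (c := 2) (cn := .pnp) (n1 := ndB0q0) (n2 := ndB0q2) (pc := pcB1) (cut := cut_pm_012) (xt := Ext.none) (P1 := 0) (W1 := 536870912) (P2 := 0) (W2 := 536870912) (P3 := 697932185) (W3 := 42949674) (N0 := 3) (En := eng) (mo := mog) (C1 := cd0q0) (C2 := cd0q2) (C3 := pd1)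
    rfl s14_pm_012

noncomputable def cut_pm_022 : Cut := Cut.of [[⟨3, 0, 0, 1449551462⟩], [⟨4, 0, 0, 2845415833⟩], [⟨0, 0, 0, 67108864⟩, ⟨1, 1, 0, 67108864⟩, ⟨2, 1, 0, 67108864⟩]]

noncomputable def f_pm_022 : ℕ → ℕ → ℕ → ℕ → Bool := onCell 1073741824 536870912 0 536870912 697932185 42949674
    (rowB 3 eng mog cd0q0 cd0q2 pd2 2 false true false .pp 0 2 2 (qsf 0 536870912 0 536870912 2) ndB0q0 ndB0q2 pcB2 cut_pm_022 Ext.none)

def k0_pm_022 : ∃ t, chk3 f_pm_022 t 2 2 1 = true :=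
  ⟨(a (b (a (b (a (l 16436768) (l 16475120)) (a (b (l 16476776) (l 16476224)) (l 16514384))) (b (a (l 16469080) (b (l 16462048) (l 16460584))) (a (l 16510704) (l 16494640)))) (a (b (a (b (l 16467960) (a (l 16460848) (l 16463464))) (b (l 16467744) (l 16467408))) (b (a (a (b (l 16457288) (l 16456560)) (b (l 16461992) (l 16462656))) (a (l 16488568) (l 16514824))) (a (a (b (a (l 16456264) (l 16460096)) (a (b (l 16458864) (l 16461448)) (l 16464744))) (b (l 16465720) (a (l 16469208) (l 16473592)))) (a (b (l 16473024) (l 16480056)) (b (l 16480216) (l 16488520)))))) (b (a (b (l 16468368) (a (l 16471536) (l 16474464))) (b (l 16470040) (l 16479256))) (b (a (a (l 16499072) (l 16504344)) (b (l 16487928) (a (l 16492248) (l 16498496)))) (b (a (a (l 16487280) (l 16494296)) (a (l 16501480) (l 16508864))) (a (a (l 16496784) (l 16525944)) (a (c (l 16534448) (l 16513288)) (c (l 16521368) (l 16522472))))))))) (a (a (b (b (b (l 16453520) (b (l 16453008) (l 16453784))) (l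 16480616)) (a (b (l 16499648) (b (l 19897291991) (b (l 307660126439) (l 1)))) (b (l 16528816) (l 1)))) (b (b (l 1) (l 1)) (l 1))) (l 1))), by decide +kernel⟩

def k1_pm_022 : ∃ t, chk3 f_pm_022 t 4 12 1 = true :=
  ⟨(a (a (b (a (b (a (b (l 16464560) (l 16468096)) (l 16471536)) (a (l 16474024) (l 16480000))) (b (a (l 16476696) (l 16481760)) (a (l 16485864) (l 16491608)))) (a (b (a (l 16483040) (l 16489728)) (a (l 16493552) (l 16500952))) (b (a (l 16496280) (l 16502704)) (a (l 16508192) (l 16515288))))) (b (a (b (l 16510200) (a (l 16497264) (l 16502840))) (b (l 16519912) (l 16531968))) (a (b (a (l 16509032) (l 16515224)) (a (l 16522256) (l 16529064))) (b (a (l 16521304) (l 16527264)) (c (l 16560944) (l 16559024)))))) (a (a (b (b (l 16529360) (l 16542616)) (b (c (l 16557616) (l 16556584)) (a (l 16569768) (l 16555288)))) (b (b (c (l 16539208) (l 16538336)) (a (l 16529560) (l 16534880))) (b (a (l 16544936) (l 16550856)) (a (l 16561792) (a (l 16561888) (b (l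 16559032) (l 16563312))))))) (b (b (a (a (l 16524904) (l 16529712)) (a (l 84858711927) (l 400001914855))) (a (a (l 16540240) (a (l 16542944) (l 16541936))) (a (l 423624238535) (l 1)))) (a (b (a (a (l 16552064) (l 16553168)) (b (l 236793168407) (l 187937931367))) (a (b (a (l 16558200) (l 16557208)) (a (l 16562392) (l 257731174135))) (b (l 332356205335) (l 1)))) (l 1))))), by decide +kernel⟩

def k2_pm_022 : ∃ t, chk3 f_pm_022 t 4 13 1 = true :=
  ⟨(b (b (a (a (a (a (l 16506248) (l 16514344)) (a (l 16522272) (l 16530032))) (a (a (l 16537600) (l 16545016)) (a (l 16552272) (c (l 16538920) (l 16538040))))) (a (a (a (l 16566576) (l 16572440)) (a (b (l 16569344) (a (l 16574040) (l 16573432))) (b (a (l 16568384) (l 16567536)) (a (l 16572664) (l 187937975767))))) (a (a (a (b (l 194917288535) (l 280279757271)) (l 1)) (l 1)) (l 1)))) (a (a (a (a (l 16521432) (l 16530224)) (a (l 16538832) (l 16547216))) (a (a (l 16555400) (l 16563400)) (a (l 16571272) (l 16579072))))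 (a (a (a (l 16582168) (b (l 16579248) (l 16583848))) (b (a (a (l 16578496) (l 16577800)) (a (l 167000018983) (l 14))) (l 14))) (l 1)))) (a (a (a (b (a (l 16538984) (l 16548480)) (l 16584200)) (b (a (l 16557720) (l 16566720)) (l 16582944))) (a (b (a (l 16575488) (l 16584104)) (l 16601744)) (b (a (l 16592048) (l 16592152)) (l 14)))) (l 14))), by decide +kernel⟩

def k3_pm_022 : ∃ t, chk3 f_pm_022 t 4 7 1 = true :=
  ⟨(a (b (a (a (b (b (a (l 16578288) (l 16589056)) (l 14)) (l 14)) (l 14)) (l 14)) (l 14)) (l 14)), by decide +kernel⟩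

def k4_pm_022 : ∃ t, chk3 f_pm_022 t 5 3 1 = true :=
  ⟨(b (l 1) (l 1)), by decide +kernel⟩

def k5_pm_022 : ∃ t, chk3 f_pm_022 t 3 1 1 = true :=
  ⟨(l 1), by decide +kernel⟩

theorem s6_pm_022 : ∃ t, chk3 f_pm_022 t 4 6 1 = true := ex3_b k1_pm_022 k2_pm_022

theorem s7_pm_022 : ∃ t, chk3 f_pm_022 t 4 3 1 = true := ex3_b s6_pm_022 k3_pm_022

theorem s8_pm_022 : ∃ t, chk3 f_pm_022 t 2 3 1 = true := ex3_a s7_pm_022 k4_pm_022

theorem s9_pm_022 : ∃ t, chk3 f_pm_022 t 2 1 1 = true := ex3_b k0_pm_022 s8_pm_022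

theorem s10_pm_022 : ∃ t, chk3 f_pm_022 t 1 1 1 = true := ex3_a s9_pm_022 k5_pm_022

theorem c_pm_022 : CertB 0 536870912 0 536870912 697932185 42949674 3 eng mog cd0q0 cd0q2 pd2 false true false .pp 0 2 2
    ndB0q0 ndB0q2 pcB2 cut_pm_022 Ext.none :=
  certB2 (fam := false) (s1 := true) (s2 := false) (a := 0) (b := 2) (c := 2) (cn := .pp) (n1 := ndB0q0) (n2 := ndB0q2) (pc := pcB2) (cut := cut_pm_022) (xt := Ext.none) (P1 := 0) (W1 := 536870912) (P2 := 0) (W2 := 536870912) (P3 := 697932185) (W3 := 42949674) (N0 := 3) (En := eng) (mo := mog) (C1 := cd0q0) (C2 := cd0q2) (C3 := pd2)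
    rfl (fun _ => rfl) s10_pm_022

end Pool.Agent.Strip051.G.I6500_6900.Tab.C.BB00

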