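import Pool.Agent.Strip051.G.I6500_6900.AsmH
import Pool.Agent.Strip051.G.I6500_6900.TrB15
import Pool.Agent.Strip051.G.I6500_6900.TrB16

/-! # Rows from certificates (generated) -/

set_option linter.all false
set_option maxRecDepth 100000

namespace Pool.Agent.Strip051.G.I6500_6900.Tab

open Pool.Agent.Strip051.PB Pool.Agent.StripNear Pool.Agent.Strip051.LC

theorem BA57_pp_001 {κ x : ℝ} (hκ : κ * h0 = ken x) (hx : ((697932185 : ℕ) : ℝ) / S ≤ x) (hx' : x ≤ (((697932185 : ℕ) : ℝ) + (42949674 : ℕ)) / S) :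
    TriA PP.cur (VE (h0 * 0) 3 κ (h0 * x) (eng.v x) (h0 * (3 / 40)) (tnt (h0 * x) (3 / 10)) (tbl tK x) (tbl tL x) (tbl (smT h0⁻¹ tC) x)) 0 0 1 5 7 1 1 :=
  (sideB hx hx').bothA (thrB hx hx') (en_pos (hx1 hx).le) (Or.inl rfl) (Or.inl rfl) fun y y' F =>
    bothA_cert (s1 := true) (s2 := true) rfl hκ (en_pos (hx1 hx).le) (esg_rng (hx1 hx).le (hx2 hx').le).1 (mo_v x) covB50 covB70 hx hx'
        Pool.Agent.Strip051.G.I6500_6900.Tab.C.BA57.c_pp_001 noCut_EA noExt_EA F trivial trivial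

theorem BA57_pp_011 {κ x : ℝ} (hκ : κ * h0 = ken x) (hx : ((697932185 : ℕ) : ℝ) / S ≤ x) (hx' : x ≤ (((697932185 : ℕ) : ℝ) + (42949674 : ℕ)) / S) :
    TriA PP.cur (VE (h0 * 0) 3 κ (h0 * x) (eng.v x) (h0 * (3 / 40)) (tnt (h0 * x) (3 / 10)) (tbl tK x) (tbl tL x) (tbl (smT h0⁻¹ tC) x)) 0 1 1 5 7 1 1 :=
  (sideB hx hx').bothA (thrB hx hx') (en_pos (hx1 hx).le) (Or.inl rfl) (Or.inl rfl) fun y y' F =>
    bothA_cert (s1 := true) (s2 := true) rfl hκ (en_pos (hx1 hx).le) (esg_rng (hx1 hx).le (hx2 hx').le).1 (mo_v x) covB50 covB71 hx hx'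
        Pool.Agent.Strip051.G.I6500_6900.Tab.C.BA57.c_pp_011 noCut_EA noExt_EA F trivial trivial

theorem BA57_pp_012 {κ x : ℝ} (hκ : κ * h0 = ken x) (hx : ((697932185 : ℕ) : ℝ) / S ≤ x) (hx' : x ≤ (((697932185 : ℕ) : ℝ) + (42949674 : ℕ)) / S) :
    TriA PP.cur (VE (h0 * 0) 3 κ (h0 * x) (eng.v x) (h0 * (3 / 40)) (tnt (h0 * x) (3 / 10)) (tbl tK x) (tbl tL x) (tbl (smT h0⁻¹ tC) x)) 0 1 2 5 7 1 1 :=
  (sideB hx hx').bothA (thrB hx hx') (en_pos (hx1 hx).le) (Or.inl rfl) (Or.inl rfl) fun y y' F =>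
    bothA_cert (s1 := true) (s2 := true) rfl hκ (en_pos (hx1 hx).le) (esg_rng (hx1 hx).le (hx2 hx').le).1 (mo_v x) covB50 covB71 hx hx'
        Pool.Agent.Strip051.G.I6500_6900.Tab.C.BA57.c_pp_012 noCut_EA noExt_EA F trivial trivial

theorem BA57_pp_022 {κ x : ℝ} (hκ : κ * h0 = ken x) (hx : ((697932185 : ℕ) : ℝ) / S ≤ x) (hx' : x ≤ (((697932185 : ℕ) : ℝ) + (42949674 : ℕ)) / S) :
    TriA PP.cur (VE (h0 * 0) 3 κ (h0 * x) (eng.v x) (h0 * (3 / 40)) (tnt (h0 * x) (3 / 10)) (tbl tK x) (tbl tL x) (tbl (smT h0⁻¹ tC) x)) 0 2 2 5 7 1 1 :=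
  (sideB hx hx').bothA (thrB hx hx') (en_pos (hx1 hx).le) (Or.inl rfl) (Or.inl rfl) fun y y' F =>
    bothA_cert (s1 := true) (s2 := true) rfl hκ (en_pos (hx1 hx).le) (esg_rng (hx1 hx).le (hx2 hx').le).1 (mo_v x) covB50 covB72 hx hx'
        Pool.Agent.Strip051.G.I6500_6900.Tab.C.BA57.c_pp_022 noCut_EA noExt_EA F trivial trivial

theorem BA57_pp_023 {κ x : ℝ} (hκ : κ * h0 = ken x) (hx : ((697932185 : ℕ) : ℝ) / S ≤ x) (hx' : x ≤ (((697932185 : ℕ) : ℝ) + (42949674 : ℕ)) / S) :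
    TriA PP.cur (VE (h0 * 0) 3 κ (h0 * x) (eng.v x) (h0 * (3 / 40)) (tnt (h0 * x) (3 / 10)) (tbl tK x) (tbl tL x) (tbl (smT h0⁻¹ tC) x)) 0 2 3 5 7 1 1 :=
  (sideB hx hx').bothA (thrB hx hx') (en_pos (hx1 hx).le) (Or.inl rfl) (Or.inl rfl) fun y y' F =>
    bothA_cert (s1 := true) (s2 := true) rfl hκ (en_pos (hx1 hx).le) (esg_rng (hx1 hx).le (hx2 hx').le).1 (mo_v x) covB50 covB72 hx hx'
        Pool.Agent.Strip051.G.I6500_6900.Tab.C.BA57.c_pp_023 noCut_EA noExt_EA F trivial trivial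

theorem BA57_pp_033 {κ x : ℝ} (hκ : κ * h0 = ken x) (hx : ((697932185 : ℕ) : ℝ) / S ≤ x) (hx' : x ≤ (((697932185 : ℕ) : ℝ) + (42949674 : ℕ)) / S) :
    TriA PP.cur (VE (h0 * 0) 3 κ (h0 * x) (eng.v x) (h0 * (3 / 40)) (tnt (h0 * x) (3 / 10)) (tbl tK x) (tbl tL x) (tbl (smT h0⁻¹ tC) x)) 0 3 3 5 7 1 1 :=
  (sideB hx hx').bothA (thrB hx hx') (en_pos (hx1 hx).le) (Or.inl rfl) (Or.inl rfl) fun y y' F =>
    bothA_cert (s1 := true) (s2 := true) rfl hκ (en_pos (hx1 hx).le) (esg_rng (hx1 hx).le (hx2 hx').le).1 (mo_v x) covB50 covB73 hx hx'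
        Pool.Agent.Strip051.G.I6500_6900.Tab.C.BA57.c_pp_033 noCut_EA noExt_EA F trivial trivial

theorem BA57_pp_101 {κ x : ℝ} (hκ : κ * h0 = ken x) (hx : ((697932185 : ℕ) : ℝ) / S ≤ x) (hx' : x ≤ (((697932185 : ℕ) : ℝ) + (42949674 : ℕ)) / S) :
    TriA PP.cur (VE (h0 * 0) 3 κ (h0 * x) (eng.v x) (h0 * (3 / 40)) (tnt (h0 * x) (3 / 10)) (tbl tK x) (tbl tL x) (tbl (smT h0⁻¹ tC) x)) 1 0 1 5 7 1 1 :=
  (sideB hx hx').bothA (thrB hx hx') (en_pos (hx1 hx).le) (Or.inl rfl) (Or.inl rfl) fun y y' F =>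
    bothA_cert (s1 := true) (s2 := true) rfl hκ (en_pos (hx1 hx).le) (esg_rng (hx1 hx).le (hx2 hx').le).1 (mo_v x) covB51 covB70 hx hx'
        Pool.Agent.Strip051.G.I6500_6900.Tab.C.BA57.c_pp_101 noCut_EA noExt_EA F trivial trivial

theorem BA57_pp_102 {κ x : ℝ} (hκ : κ * h0 = ken x) (hx : ((697932185 : ℕ) : ℝ) / S ≤ x) (hx' : x ≤ (((697932185 : ℕ) : ℝ) + (42949674 : ℕ)) / S) :
    TriA PP.cur (VE (h0 * 0) 3 κ (h0 * x) (eng.v x) (h0 * (3 / 40)) (tnt (h0 * x) (3 / 10)) (tbl tK x) (tbl tL x) (tbl (smT h0⁻¹ tC) x)) 1 0 2 5 7 1 1 :=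
  (sideB hx hx').bothA (thrB hx hx') (en_pos (hx1 hx).le) (Or.inl rfl) (Or.inl rfl) fun y y' F =>
    bothA_cert (s1 := true) (s2 := true) rfl hκ (en_pos (hx1 hx).le) (esg_rng (hx1 hx).le (hx2 hx').le).1 (mo_v x) covB51 covB70 hx hx'
        Pool.Agent.Strip051.G.I6500_6900.Tab.C.BA57.c_pp_102 noCut_EA noExt_EA F trivial trivial

theorem BA57_pp_112 {κ x : ℝ} (hκ : κ * h0 = ken x) (hx : ((697932185 : ℕ) : ℝ) / S ≤ x) (hx' : x ≤ (((697932185 : ℕ) : ℝ) + (42949674 : ℕ)) / S) :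
    TriA PP.cur (VE (h0 * 0) 3 κ (h0 * x) (eng.v x) (h0 * (3 / 40)) (tnt (h0 * x) (3 / 10)) (tbl tK x) (tbl tL x) (tbl (smT h0⁻¹ tC) x)) 1 1 2 5 7 1 1 :=
  (sideB hx hx').bothA (thrB hx hx') (en_pos (hx1 hx).le) (Or.inl rfl) (Or.inl rfl) fun y y' F =>
    bothA_cert (s1 := true) (s2 := true) rfl hκ (en_pos (hx1 hx).le) (esg_rng (hx1 hx).le (hx2 hx').le).1 (mo_v x) covB51 covB71 hx hx'
        Pool.Agent.Strip051.G.I6500_6900.Tab.C.BA57.c_pp_112 noCut_EA noExt_EA F trivial trivial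

theorem BA57_pp_113 {κ x : ℝ} (hκ : κ * h0 = ken x) (hx : ((697932185 : ℕ) : ℝ) / S ≤ x) (hx' : x ≤ (((697932185 : ℕ) : ℝ) + (42949674 : ℕ)) / S) :
    TriA PP.cur (VE (h0 * 0) 3 κ (h0 * x) (eng.v x) (h0 * (3 / 40)) (tnt (h0 * x) (3 / 10)) (tbl tK x) (tbl tL x) (tbl (smT h0⁻¹ tC) x)) 1 1 3 5 7 1 1 :=
  (sideB hx hx').bothA (thrB hx hx') (en_pos (hx1 hx).le) (Or.inl rfl) (Or.inl rfl) fun y y' F =>
    bothA_cert (s1 := true) (s2 := true) rfl hκ (en_pos (hx1 hx).le) (esg_rng (hx1 hx).le (hx2 hx').le).1 (mo_v x) covB51 covB71 hx hx'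
        Pool.Agent.Strip051.G.I6500_6900.Tab.C.BA57.c_pp_113 noCut_EA noExt_EA F trivial trivial

theorem BA57_pp_123 {κ x : ℝ} (hκ : κ * h0 = ken x) (hx : ((697932185 : ℕ) : ℝ) / S ≤ x) (hx' : x ≤ (((697932185 : ℕ) : ℝ) + (42949674 : ℕ)) / S) :
    TriA PP.cur (VE (h0 * 0) 3 κ (h0 * x) (eng.v x) (h0 * (3 / 40)) (tnt (h0 * x) (3 / 10)) (tbl tK x) (tbl tL x) (tbl (smT h0⁻¹ tC) x)) 1 2 3 5 7 1 1 :=
  (sideB hx hx').bothA (thrB hx hx') (en_pos (hx1 hx).le) (Or.inl rfl) (Or.inl rfl) fun y y' F =>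
    bothA_cert (s1 := true) (s2 := true) rfl hκ (en_pos (hx1 hx).le) (esg_rng (hx1 hx).le (hx2 hx').le).1 (mo_v x) covB51 covB72 hx hx'
        Pool.Agent.Strip051.G.I6500_6900.Tab.C.BA57.c_pp_123 noCut_EA noExt_EA F trivial trivial

theorem BA57_pp_133 {κ x : ℝ} (hκ : κ * h0 = ken x) (hx : ((697932185 : ℕ) : ℝ) / S ≤ x) (hx' : x ≤ (((697932185 : ℕ) : ℝ) + (42949674 : ℕ)) / S) :
    TriA PP.cur (VE (h0 * 0) 3 κ (h0 * x) (eng.v x) (h0 * (3 / 40)) (tnt (h0 * x) (3 / 10)) (tbl tK x) (tbl tL x) (tbl (smT h0⁻¹ tC) x)) 1 3 3 5 7 1 1 :=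
  (sideB hx hx').bothA (thrB hx hx') (en_pos (hx1 hx).le) (Or.inl rfl) (Or.inl rfl) fun y y' F =>
    bothA_cert (s1 := true) (s2 := true) rfl hκ (en_pos (hx1 hx).le) (esg_rng (hx1 hx).le (hx2 hx').le).1 (mo_v x) covB51 covB73 hx hx'
        Pool.Agent.Strip051.G.I6500_6900.Tab.C.BA57.c_pp_133 noCut_EA noExt_EA F trivial trivial

theorem BA57_pp_202 {κ x : ℝ} (hκ : κ * h0 = ken x) (hx : ((697932185 : ℕ) : ℝ) / S ≤ x) (hx' : x ≤ (((697932185 : ℕ) : ℝ) + (42949674 : ℕ)) / S) :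
    TriA PP.cur (VE (h0 * 0) 3 κ (h0 * x) (eng.v x) (h0 * (3 / 40)) (tnt (h0 * x) (3 / 10)) (tbl tK x) (tbl tL x) (tbl (smT h0⁻¹ tC) x)) 2 0 2 5 7 1 1 :=
  (sideB hx hx').bothA (thrB hx hx') (en_pos (hx1 hx).le) (Or.inl rfl) (Or.inl rfl) fun y y' F =>
    bothA_cert (s1 := true) (s2 := true) rfl hκ (en_pos (hx1 hx).le) (esg_rng (hx1 hx).le (hx2 hx').le).1 (mo_v x) covB52 covB70 hx hx'
        Pool.Agent.Strip051.G.I6500_6900.Tab.C.BA57.c_pp_202 noCut_EA noExt_EA F trivial trivial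

theorem BA57_pp_203 {κ x : ℝ} (hκ : κ * h0 = ken x) (hx : ((697932185 : ℕ) : ℝ) / S ≤ x) (hx' : x ≤ (((697932185 : ℕ) : ℝ) + (42949674 : ℕ)) / S) :
    TriA PP.cur (VE (h0 * 0) 3 κ (h0 * x) (eng.v x) (h0 * (3 / 40)) (tnt (h0 * x) (3 / 10)) (tbl tK x) (tbl tL x) (tbl (smT h0⁻¹ tC) x)) 2 0 3 5 7 1 1 :=
  (sideB hx hx').bothA (thrB hx hx') (en_pos (hx1 hx).le) (Or.inl rfl) (Or.inl rfl) fun y y' F =>
    bothA_cert (s1 := true) (s2 := true) rfl hκ (en_pos (hx1 hx).le) (esg_rng (hx1 hx).le (hx2 hx').le).1 (mo_v x) covB52 covB70 hx hx'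
        Pool.Agent.Strip051.G.I6500_6900.Tab.C.BA57.c_pp_203 noCut_EA noExt_EA F trivial trivial

theorem BA57_pp_213 {κ x : ℝ} (hκ : κ * h0 = ken x) (hx : ((697932185 : ℕ) : ℝ) / S ≤ x) (hx' : x ≤ (((697932185 : ℕ) : ℝ) + (42949674 : ℕ)) / S) :
    TriA PP.cur (VE (h0 * 0) 3 κ (h0 * x) (eng.v x) (h0 * (3 / 40)) (tnt (h0 * x) (3 / 10)) (tbl tK x) (tbl tL x) (tbl (smT h0⁻¹ tC) x)) 2 1 3 5 7 1 1 :=
  (sideB hx hx').bothA (thrB hx hx') (en_pos (hx1 hx).le) (Or.inl rfl) (Or.inl rfl) fun y y' F =>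
    bothA_cert (s1 := true) (s2 := true) rfl hκ (en_pos (hx1 hx).le) (esg_rng (hx1 hx).le (hx2 hx').le).1 (mo_v x) covB52 covB71 hx hx'
        Pool.Agent.Strip051.G.I6500_6900.Tab.C.BA57.c_pp_213 noCut_EA noExt_EA F trivial trivial

theorem BA57_pp_303 {κ x : ℝ} (hκ : κ * h0 = ken x) (hx : ((697932185 : ℕ) : ℝ) / S ≤ x) (hx' : x ≤ (((697932185 : ℕ) : ℝ) + (42949674 : ℕ)) / S) :
    TriA PP.cur (VE (h0 * 0) 3 κ (h0 * x) (eng.v x) (h0 * (3 / 40)) (tnt (h0 * x) (3 / 10)) (tbl tK x) (tbl tL x) (tbl (smT h0⁻¹ tC) x)) 3 0 3 5 7 1 1 :=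
  (sideB hx hx').bothA (thrB hx hx') (en_pos (hx1 hx).le) (Or.inl rfl) (Or.inl rfl) fun y y' F =>
    bothA_cert (s1 := true) (s2 := true) rfl hκ (en_pos (hx1 hx).le) (esg_rng (hx1 hx).le (hx2 hx').le).1 (mo_v x) covB53 covB70 hx hx'
        Pool.Agent.Strip051.G.I6500_6900.Tab.C.BA57.c_pp_303 noCut_EA noExt_EA F trivial trivial

theorem BA57_pp_313 {κ x : ℝ} (hκ : κ * h0 = ken x) (hx : ((697932185 : ℕ) : ℝ) / S ≤ x) (hx' : x ≤ (((697932185 : ℕ) : ℝ) + (42949674 : ℕ)) / S) :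
    TriA PP.cur (VE (h0 * 0) 3 κ (h0 * x) (eng.v x) (h0 * (3 / 40)) (tnt (h0 * x) (3 / 10)) (tbl tK x) (tbl tL x) (tbl (smT h0⁻¹ tC) x)) 3 1 3 5 7 1 1 :=
  (sideB hx hx').bothA (thrB hx hx') (en_pos (hx1 hx).le) (Or.inl rfl) (Or.inl rfl) fun y y' F =>
    bothA_cert (s1 := true) (s2 := true) rfl hκ (en_pos (hx1 hx).le) (esg_rng (hx1 hx).le (hx2 hx').le).1 (mo_v x) covB53 covB71 hx hx'
        Pool.Agent.Strip051.G.I6500_6900.Tab.C.BA57.c_pp_313 noCut_EA noExt_EA F trivial trivial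

theorem BA57_pm_001 {κ x : ℝ} (hκ : κ * h0 = ken x) (hx : ((697932185 : ℕ) : ℝ) / S ≤ x) (hx' : x ≤ (((697932185 : ℕ) : ℝ) + (42949674 : ℕ)) / S) :
    TriA PP.cur (VE (h0 * 0) 3 κ (h0 * x) (eng.v x) (h0 * (3 / 40)) (tnt (h0 * x) (3 / 10)) (tbl tK x) (tbl tL x) (tbl (smT h0⁻¹ tC) x)) 0 0 1 5 7 1 (-1) :=
  (sideB hx hx').bothA (thrB hx hx') (en_pos (hx1 hx).le) (Or.inl rfl) (Or.inr rfl) fun y y' F =>
    bothA_cert (s1 := true) (s2 := false) rfl hκ (en_pos (hx1 hx).le) (esg_rng (hx1 hx).le (hx2 hx').le).1 (mo_v x) covB50 covB70 hx hx'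
        Pool.Agent.Strip051.G.I6500_6900.Tab.C.BA57.c_pm_001 noCut_EA noExt_EA F trivial trivial

theorem BA57_pm_011 {κ x : ℝ} (hκ : κ * h0 = ken x) (hx : ((697932185 : ℕ) : ℝ) / S ≤ x) (hx' : x ≤ (((697932185 : ℕ) : ℝ) + (42949674 : ℕ)) / S) :
    TriA PP.cur (VE (h0 * 0) 3 κ (h0 * x) (eng.v x) (h0 * (3 / 40)) (tnt (h0 * x) (3 / 10)) (tbl tK x) (tbl tL x) (tbl (smT h0⁻¹ tC) x)) 0 1 1 5 7 1 (-1) :=
  (sideB hx hx').bothA (thrB hx hx') (en_pos (hx1 hx).le) (Or.inl rfl) (Or.inr rfl) fun y y' F =>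
    bothA_cert (s1 := true) (s2 := false) rfl hκ (en_pos (hx1 hx).le) (esg_rng (hx1 hx).le (hx2 hx').le).1 (mo_v x) covB50 covB71 hx hx'
        Pool.Agent.Strip051.G.I6500_6900.Tab.C.BA57.c_pm_011 noCut_EA noExt_EA F trivial trivial

theorem BA57_pm_012 {κ x : ℝ} (hκ : κ * h0 = ken x) (hx : ((697932185 : ℕ) : ℝ) / S ≤ x) (hx' : x ≤ (((697932185 : ℕ) : ℝ) + (42949674 : ℕ)) / S) :
    TriA PP.cur (VE (h0 * 0) 3 κ (h0 * x) (eng.v x) (h0 * (3 / 40)) (tnt (h0 * x) (3 / 10)) (tbl tK x) (tbl tL x) (tbl (smT h0⁻¹ tC) x)) 0 1 2 5 7 1 (-1) :=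
  (sideB hx hx').bothA (thrB hx hx') (en_pos (hx1 hx).le) (Or.inl rfl) (Or.inr rfl) fun y y' F =>
    bothA_cert (s1 := true) (s2 := false) rfl hκ (en_pos (hx1 hx).le) (esg_rng (hx1 hx).le (hx2 hx').le).1 (mo_v x) covB50 covB71 hx hx'
        Pool.Agent.Strip051.G.I6500_6900.Tab.C.BA57.c_pm_012 noCut_EA noExt_EA F trivial trivial

theorem BA57_pm_022 {κ x : ℝ} (hκ : κ * h0 = ken x) (hx : ((697932185 : ℕ) : ℝ) / S ≤ x) (hx' : x ≤ (((697932185 : ℕ) : ℝ) + (42949674 : ℕ)) / S) :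
    TriA PP.cur (VE (h0 * 0) 3 κ (h0 * x) (eng.v x) (h0 * (3 / 40)) (tnt (h0 * x) (3 / 10)) (tbl tK x) (tbl tL x) (tbl (smT h0⁻¹ tC) x)) 0 2 2 5 7 1 (-1) :=
  (sideB hx hx').bothA (thrB hx hx') (en_pos (hx1 hx).le) (Or.inl rfl) (Or.inr rfl) fun y y' F =>
    bothA_cert (s1 := true) (s2 := false) rfl hκ (en_pos (hx1 hx).le) (esg_rng (hx1 hx).le (hx2 hx').le).1 (mo_v x) covB50 covB72 hx hx'
        Pool.Agent.Strip051.G.I6500_6900.Tab.C.BA57.c_pm_022 noCut_EA noExt_EA F trivial trivial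

theorem BA57_pm_023 {κ x : ℝ} (hκ : κ * h0 = ken x) (hx : ((697932185 : ℕ) : ℝ) / S ≤ x) (hx' : x ≤ (((697932185 : ℕ) : ℝ) + (42949674 : ℕ)) / S) :
    TriA PP.cur (VE (h0 * 0) 3 κ (h0 * x) (eng.v x) (h0 * (3 / 40)) (tnt (h0 * x) (3 / 10)) (tbl tK x) (tbl tL x) (tbl (smT h0⁻¹ tC) x)) 0 2 3 5 7 1 (-1) :=
  (sideB hx hx').bothA (thrB hx hx') (en_pos (hx1 hx).le) (Or.inl rfl) (Or.inr rfl) fun y y' F =>
    bothA_cert (s1 := true) (s2 := false) rfl hκ (en_pos (hx1 hx).le) (esg_rng (hx1 hx).le (hx2 hx').le).1 (mo_v x) covB50 covB72 hx hx'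
        Pool.Agent.Strip051.G.I6500_6900.Tab.C.BA57.c_pm_023 noCut_EA noExt_EA F trivial trivial

theorem BA57_pm_033 {κ x : ℝ} (hκ : κ * h0 = ken x) (hx : ((697932185 : ℕ) : ℝ) / S ≤ x) (hx' : x ≤ (((697932185 : ℕ) : ℝ) + (42949674 : ℕ)) / S) :
    TriA PP.cur (VE (h0 * 0) 3 κ (h0 * x) (eng.v x) (h0 * (3 / 40)) (tnt (h0 * x) (3 / 10)) (tbl tK x) (tbl tL x) (tbl (smT h0⁻¹ tC) x)) 0 3 3 5 7 1 (-1) :=
  (sideB hx hx').bothA (thrB hx hx') (en_pos (hx1 hx).le) (Or.inl rfl) (Or.inr rfl) fun y y' F =>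
    bothA_cert (s1 := true) (s2 := false) rfl hκ (en_pos (hx1 hx).le) (esg_rng (hx1 hx).le (hx2 hx').le).1 (mo_v x) covB50 covB73 hx hx'
        Pool.Agent.Strip051.G.I6500_6900.Tab.C.BA57.c_pm_033 noCut_EA noExt_EA F trivial trivial

theorem BA57_pm_101 {κ x : ℝ} (hκ : κ * h0 = ken x) (hx : ((697932185 : ℕ) : ℝ) / S ≤ x) (hx' : x ≤ (((697932185 : ℕ) : ℝ) + (42949674 : ℕ)) / S) :
    TriA PP.cur (VE (h0 * 0) 3 κ (h0 * x) (eng.v x) (h0 * (3 / 40)) (tnt (h0 * x) (3 / 10)) (tbl tK x) (tbl tL x) (tbl (smT h0⁻¹ tC) x)) 1 0 1 5 7 1 (-1) :=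
  (sideB hx hx').bothA (thrB hx hx') (en_pos (hx1 hx).le) (Or.inl rfl) (Or.inr rfl) fun y y' F =>
    bothA_cert (s1 := true) (s2 := false) rfl hκ (en_pos (hx1 hx).le) (esg_rng (hx1 hx).le (hx2 hx').le).1 (mo_v x) covB51 covB70 hx hx'
        Pool.Agent.Strip051.G.I6500_6900.Tab.C.BA57.c_pm_101 noCut_EA noExt_EA F trivial trivial

theorem BA57_pm_102 {κ x : ℝ} (hκ : κ * h0 = ken x) (hx : ((697932185 : ℕ) : ℝ) / S ≤ x) (hx' : x ≤ (((697932185 : ℕ) : ℝ) + (42949674 : ℕ)) / S) :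
    TriA PP.cur (VE (h0 * 0) 3 κ (h0 * x) (eng.v x) (h0 * (3 / 40)) (tnt (h0 * x) (3 / 10)) (tbl tK x) (tbl tL x) (tbl (smT h0⁻¹ tC) x)) 1 0 2 5 7 1 (-1) :=
  (sideB hx hx').bothA (thrB hx hx') (en_pos (hx1 hx).le) (Or.inl rfl) (Or.inr rfl) fun y y' F =>
    bothA_cert (s1 := true) (s2 := false) rfl hκ (en_pos (hx1 hx).le) (esg_rng (hx1 hx).le (hx2 hx').le).1 (mo_v x) covB51 covB70 hx hx'
        Pool.Agent.Strip051.G.I6500_6900.Tab.C.BA57.c_pm_102 noCut_EA noExt_EA F trivial trivial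

theorem BA57_pm_112 {κ x : ℝ} (hκ : κ * h0 = ken x) (hx : ((697932185 : ℕ) : ℝ) / S ≤ x) (hx' : x ≤ (((697932185 : ℕ) : ℝ) + (42949674 : ℕ)) / S) :
    TriA PP.cur (VE (h0 * 0) 3 κ (h0 * x) (eng.v x) (h0 * (3 / 40)) (tnt (h0 * x) (3 / 10)) (tbl tK x) (tbl tL x) (tbl (smT h0⁻¹ tC) x)) 1 1 2 5 7 1 (-1) :=
  (sideB hx hx').bothA (thrB hx hx') (en_pos (hx1 hx).le) (Or.inl rfl) (Or.inr rfl) fun y y' F =>
    bothA_cert (s1 := true) (s2 := false) rfl hκ (en_pos (hx1 hx).le) (esg_rng (hx1 hx).le (hx2 hx').le).1 (mo_v x) covB51 covB71 hx hx'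
        Pool.Agent.Strip051.G.I6500_6900.Tab.C.BA57.c_pm_112 noCut_EA noExt_EA F trivial trivial

theorem BA57_pm_113 {κ x : ℝ} (hκ : κ * h0 = ken x) (hx : ((697932185 : ℕ) : ℝ) / S ≤ x) (hx' : x ≤ (((697932185 : ℕ) : ℝ) + (42949674 : ℕ)) / S) :
    TriA PP.cur (VE (h0 * 0) 3 κ (h0 * x) (eng.v x) (h0 * (3 / 40)) (tnt (h0 * x) (3 / 10)) (tbl tK x) (tbl tL x) (tbl (smT h0⁻¹ tC) x)) 1 1 3 5 7 1 (-1) :=
  (sideB hx hx').bothA (thrB hx hx') (en_pos (hx1 hx).le) (Or.inl rfl) (Or.inr rfl) fun y y' F =>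
    bothA_cert (s1 := true) (s2 := false) rfl hκ (en_pos (hx1 hx).le) (esg_rng (hx1 hx).le (hx2 hx').le).1 (mo_v x) covB51 covB71 hx hx'
        Pool.Agent.Strip051.G.I6500_6900.Tab.C.BA57.c_pm_113 noCut_EA noExt_EA F trivial trivial

theorem BA57_pm_123 {κ x : ℝ} (hκ : κ * h0 = ken x) (hx : ((697932185 : ℕ) : ℝ) / S ≤ x) (hx' : x ≤ (((697932185 : ℕ) : ℝ) + (42949674 : ℕ)) / S) :
    TriA PP.cur (VE (h0 * 0) 3 κ (h0 * x) (eng.v x) (h0 * (3 / 40)) (tnt (h0 * x) (3 / 10)) (tbl tK x) (tbl tL x) (tbl (smT h0⁻¹ tC) x)) 1 2 3 5 7 1 (-1) :=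
  (sideB hx hx').bothA (thrB hx hx') (en_pos (hx1 hx).le) (Or.inl rfl) (Or.inr rfl) fun y y' F =>
    bothA_cert (s1 := true) (s2 := false) rfl hκ (en_pos (hx1 hx).le) (esg_rng (hx1 hx).le (hx2 hx').le).1 (mo_v x) covB51 covB72 hx hx'
        Pool.Agent.Strip051.G.I6500_6900.Tab.C.BA57.c_pm_123 noCut_EA noExt_EA F trivial trivial

theorem BA57_pm_133 {κ x : ℝ} (hκ : κ * h0 = ken x) (hx : ((697932185 : ℕ) : ℝ) / S ≤ x) (hx' : x ≤ (((697932185 : ℕ) : ℝ) + (42949674 : ℕ)) / S) :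
    TriA PP.cur (VE (h0 * 0) 3 κ (h0 * x) (eng.v x) (h0 * (3 / 40)) (tnt (h0 * x) (3 / 10)) (tbl tK x) (tbl tL x) (tbl (smT h0⁻¹ tC) x)) 1 3 3 5 7 1 (-1) :=
  (sideB hx hx').bothA (thrB hx hx') (en_pos (hx1 hx).le) (Or.inl rfl) (Or.inr rfl) fun y y' F =>
    bothA_cert (s1 := true) (s2 := false) rfl hκ (en_pos (hx1 hx).le) (esg_rng (hx1 hx).le (hx2 hx').le).1 (mo_v x) covB51 covB73 hx hx'
        Pool.Agent.Strip051.G.I6500_6900.Tab.C.BA57.c_pm_133 noCut_EA noExt_EA F trivial trivial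

theorem BA57_pm_202 {κ x : ℝ} (hκ : κ * h0 = ken x) (hx : ((697932185 : ℕ) : ℝ) / S ≤ x) (hx' : x ≤ (((697932185 : ℕ) : ℝ) + (42949674 : ℕ)) / S) :
    TriA PP.cur (VE (h0 * 0) 3 κ (h0 * x) (eng.v x) (h0 * (3 / 40)) (tnt (h0 * x) (3 / 10)) (tbl tK x) (tbl tL x) (tbl (smT h0⁻¹ tC) x)) 2 0 2 5 7 1 (-1) :=
  (sideB hx hx').bothA (thrB hx hx') (en_pos (hx1 hx).le) (Or.inl rfl) (Or.inr rfl) fun y y' F =>
    bothA_cert (s1 := true) (s2 := false) rfl hκ (en_pos (hx1 hx).le) (esg_rng (hx1 hx).le (hx2 hx').le).1 (mo_v x) covB52 covB70 hx hx'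
        Pool.Agent.Strip051.G.I6500_6900.Tab.C.BA57.c_pm_202 noCut_EA noExt_EA F trivial trivial

theorem BA57_pm_203 {κ x : ℝ} (hκ : κ * h0 = ken x) (hx : ((697932185 : ℕ) : ℝ) / S ≤ x) (hx' : x ≤ (((697932185 : ℕ) : ℝ) + (42949674 : ℕ)) / S) :
    TriA PP.cur (VE (h0 * 0) 3 κ (h0 * x) (eng.v x) (h0 * (3 / 40)) (tnt (h0 * x) (3 / 10)) (tbl tK x) (tbl tL x) (tbl (smT h0⁻¹ tC) x)) 2 0 3 5 7 1 (-1) :=
  (sideB hx hx').bothA (thrB hx hx') (en_pos (hx1 hx).le) (Or.inl rfl) (Or.inr rfl) fun y y' F =>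
    bothA_cert (s1 := true) (s2 := false) rfl hκ (en_pos (hx1 hx).le) (esg_rng (hx1 hx).le (hx2 hx').le).1 (mo_v x) covB52 covB70 hx hx'
        Pool.Agent.Strip051.G.I6500_6900.Tab.C.BA57.c_pm_203 noCut_EA noExt_EA F trivial trivial

theorem BA57_pm_213 {κ x : ℝ} (hκ : κ * h0 = ken x) (hx : ((697932185 : ℕ) : ℝ) / S ≤ x) (hx' : x ≤ (((697932185 : ℕ) : ℝ) + (42949674 : ℕ)) / S) :
    TriA PP.cur (VE (h0 * 0) 3 κ (h0 * x) (eng.v x) (h0 * (3 / 40)) (tnt (h0 * x) (3 / 10)) (tbl tK x) (tbl tL x) (tbl (smT h0⁻¹ tC) x)) 2 1 3 5 7 1 (-1) :=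
  (sideB hx hx').bothA (thrB hx hx') (en_pos (hx1 hx).le) (Or.inl rfl) (Or.inr rfl) fun y y' F =>
    bothA_cert (s1 := true) (s2 := false) rfl hκ (en_pos (hx1 hx).le) (esg_rng (hx1 hx).le (hx2 hx').le).1 (mo_v x) covB52 covB71 hx hx'
        Pool.Agent.Strip051.G.I6500_6900.Tab.C.BA57.c_pm_213 noCut_EA noExt_EA F trivial trivial

theorem BA57_pm_303 {κ x : ℝ} (hκ : κ * h0 = ken x) (hx : ((697932185 : ℕ) : ℝ) / S ≤ x) (hx' : x ≤ (((697932185 : ℕ) : ℝ) + (42949674 : ℕ)) / S) :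
    TriA PP.cur (VE (h0 * 0) 3 κ (h0 * x) (eng.v x) (h0 * (3 / 40)) (tnt (h0 * x) (3 / 10)) (tbl tK x) (tbl tL x) (tbl (smT h0⁻¹ tC) x)) 3 0 3 5 7 1 (-1) :=
  (sideB hx hx').bothA (thrB hx hx') (en_pos (hx1 hx).le) (Or.inl rfl) (Or.inr rfl) fun y y' F =>
    bothA_cert (s1 := true) (s2 := false) rfl hκ (en_pos (hx1 hx).le) (esg_rng (hx1 hx).le (hx2 hx').le).1 (mo_v x) covB53 covB70 hx hx'
        Pool.Agent.Strip051.G.I6500_6900.Tab.C.BA57.c_pm_303 noCut_EA noExt_EA F trivial trivial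

theorem BA57_pm_313 {κ x : ℝ} (hκ : κ * h0 = ken x) (hx : ((697932185 : ℕ) : ℝ) / S ≤ x) (hx' : x ≤ (((697932185 : ℕ) : ℝ) + (42949674 : ℕ)) / S) :
    TriA PP.cur (VE (h0 * 0) 3 κ (h0 * x) (eng.v x) (h0 * (3 / 40)) (tnt (h0 * x) (3 / 10)) (tbl tK x) (tbl tL x) (tbl (smT h0⁻¹ tC) x)) 3 1 3 5 7 1 (-1) :=
  (sideB hx hx').bothA (thrB hx hx') (en_pos (hx1 hx).le) (Or.inl rfl) (Or.inr rfl) fun y y' F =>
    bothA_cert (s1 := true) (s2 := false) rfl hκ (en_pos (hx1 hx).le) (esg_rng (hx1 hx).le (hx2 hx').le).1 (mo_v x) covB53 covB71 hx hx'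
        Pool.Agent.Strip051.G.I6500_6900.Tab.C.BA57.c_pm_313 noCut_EA noExt_EA F trivial trivial

theorem BA57_mm_001 {κ x : ℝ} (hκ : κ * h0 = ken x) (hx : ((697932185 : ℕ) : ℝ) / S ≤ x) (hx' : x ≤ (((697932185 : ℕ) : ℝ) + (42949674 : ℕ)) / S) :
    TriA PP.cur (VE (h0 * 0) 3 κ (h0 * x) (eng.v x) (h0 * (3 / 40)) (tnt (h0 * x) (3 / 10)) (tbl tK x) (tbl tL x) (tbl (smT h0⁻¹ tC) x)) 0 0 1 5 7 (-1) (-1) :=
  (sideB hx hx').bothA (thrB hx hx') (en_pos (hx1 hx).le) (Or.inr rfl) (Or.inr rfl) fun y y' F =>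
    bothA_cert (s1 := false) (s2 := false) rfl hκ (en_pos (hx1 hx).le) (esg_rng (hx1 hx).le (hx2 hx').le).1 (mo_v x) covB50 covB70 hx hx'
        Pool.Agent.Strip051.G.I6500_6900.Tab.C.BA57.c_mm_001 noCut_EA noExt_EA F trivial trivial

theorem BA57_mm_011 {κ x : ℝ} (hκ : κ * h0 = ken x) (hx : ((697932185 : ℕ) : ℝ) / S ≤ x) (hx' : x ≤ (((697932185 : ℕ) : ℝ) + (42949674 : ℕ)) / S) :
    TriA PP.cur (VE (h0 * 0) 3 κ (h0 * x) (eng.v x) (h0 * (3 / 40)) (tnt (h0 * x) (3 / 10)) (tbl tK x) (tbl tL x) (tbl (smT h0⁻¹ tC) x)) 0 1 1 5 7 (-1) (-1) :=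
  (sideB hx hx').bothA (thrB hx hx') (en_pos (hx1 hx).le) (Or.inr rfl) (Or.inr rfl) fun y y' F =>
    bothA_cert (s1 := false) (s2 := false) rfl hκ (en_pos (hx1 hx).le) (esg_rng (hx1 hx).le (hx2 hx').le).1 (mo_v x) covB50 covB71 hx hx'
        Pool.Agent.Strip051.G.I6500_6900.Tab.C.BA57.c_mm_011 noCut_EA noExt_EA F trivial trivial

theorem BA57_mm_012 {κ x : ℝ} (hκ : κ * h0 = ken x) (hx : ((697932185 : ℕ) : ℝ) / S ≤ x) (hx' : x ≤ (((697932185 : ℕ) : ℝ) + (42949674 : ℕ)) / S) :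
    TriA PP.cur (VE (h0 * 0) 3 κ (h0 * x) (eng.v x) (h0 * (3 / 40)) (tnt (h0 * x) (3 / 10)) (tbl tK x) (tbl tL x) (tbl (smT h0⁻¹ tC) x)) 0 1 2 5 7 (-1) (-1) :=
  (sideB hx hx').bothA (thrB hx hx') (en_pos (hx1 hx).le) (Or.inr rfl) (Or.inr rfl) fun y y' F =>
    bothA_cert (s1 := false) (s2 := false) rfl hκ (en_pos (hx1 hx).le) (esg_rng (hx1 hx).le (hx2 hx').le).1 (mo_v x) covB50 covB71 hx hx'
        Pool.Agent.Strip051.G.I6500_6900.Tab.C.BA57.c_mm_012 noCut_EA noExt_EA F trivial trivial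

theorem BA57_mm_022 {κ x : ℝ} (hκ : κ * h0 = ken x) (hx : ((697932185 : ℕ) : ℝ) / S ≤ x) (hx' : x ≤ (((697932185 : ℕ) : ℝ) + (42949674 : ℕ)) / S) :
    TriA PP.cur (VE (h0 * 0) 3 κ (h0 * x) (eng.v x) (h0 * (3 / 40)) (tnt (h0 * x) (3 / 10)) (tbl tK x) (tbl tL x) (tbl (smT h0⁻¹ tC) x)) 0 2 2 5 7 (-1) (-1) :=
  (sideB hx hx').bothA (thrB hx hx') (en_pos (hx1 hx).le) (Or.inr rfl) (Or.inr rfl) fun y y' F =>
    bothA_cert (s1 := false) (s2 := false) rfl hκ (en_pos (hx1 hx).le) (esg_rng (hx1 hx).le (hx2 hx').le).1 (mo_v x) covB50 covB72 hx hx'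
        Pool.Agent.Strip051.G.I6500_6900.Tab.C.BA57.c_mm_022 noCut_EA noExt_EA F trivial trivial

theorem BA57_mm_023 {κ x : ℝ} (hκ : κ * h0 = ken x) (hx : ((697932185 : ℕ) : ℝ) / S ≤ x) (hx' : x ≤ (((697932185 : ℕ) : ℝ) + (42949674 : ℕ)) / S) :
    TriA PP.cur (VE (h0 * 0) 3 κ (h0 * x) (eng.v x) (h0 * (3 / 40)) (tnt (h0 * x) (3 / 10)) (tbl tK x) (tbl tL x) (tbl (smT h0⁻¹ tC) x)) 0 2 3 5 7 (-1) (-1) :=
  (sideB hx hx').bothA (thrB hx hx') (en_pos (hx1 hx).le) (Or.inr rfl) (Or.inr rfl) fun y y' F =>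
    bothA_cert (s1 := false) (s2 := false) rfl hκ (en_pos (hx1 hx).le) (esg_rng (hx1 hx).le (hx2 hx').le).1 (mo_v x) covB50 covB72 hx hx'
        Pool.Agent.Strip051.G.I6500_6900.Tab.C.BA57.c_mm_023 noCut_EA noExt_EA F trivial trivial

theorem BA57_mm_033 {κ x : ℝ} (hκ : κ * h0 = ken x) (hx : ((697932185 : ℕ) : ℝ) / S ≤ x) (hx' : x ≤ (((697932185 : ℕ) : ℝ) + (42949674 : ℕ)) / S) :
    TriA PP.cur (VE (h0 * 0) 3 κ (h0 * x) (eng.v x) (h0 * (3 / 40)) (tnt (h0 * x) (3 / 10)) (tbl tK x) (tbl tL x) (tbl (smT h0⁻¹ tC) x)) 0 3 3 5 7 (-1) (-1) :=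
  (sideB hx hx').bothA (thrB hx hx') (en_pos (hx1 hx).le) (Or.inr rfl) (Or.inr rfl) fun y y' F =>
    bothA_cert (s1 := false) (s2 := false) rfl hκ (en_pos (hx1 hx).le) (esg_rng (hx1 hx).le (hx2 hx').le).1 (mo_v x) covB50 covB73 hx hx'
        Pool.Agent.Strip051.G.I6500_6900.Tab.C.BA57.c_mm_033 noCut_EA noExt_EA F trivial trivial

theorem BA57_mm_101 {κ x : ℝ} (hκ : κ * h0 = ken x) (hx : ((697932185 : ℕ) : ℝ) / S ≤ x) (hx' : x ≤ (((697932185 : ℕ) : ℝ) + (42949674 : ℕ)) / S) :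
    TriA PP.cur (VE (h0 * 0) 3 κ (h0 * x) (eng.v x) (h0 * (3 / 40)) (tnt (h0 * x) (3 / 10)) (tbl tK x) (tbl tL x) (tbl (smT h0⁻¹ tC) x)) 1 0 1 5 7 (-1) (-1) :=
  (sideB hx hx').bothA (thrB hx hx') (en_pos (hx1 hx).le) (Or.inr rfl) (Or.inr rfl) fun y y' F =>
    bothA_cert (s1 := false) (s2 := false) rfl hκ (en_pos (hx1 hx).le) (esg_rng (hx1 hx).le (hx2 hx').le).1 (mo_v x) covB51 covB70 hx hx'
        Pool.Agent.Strip051.G.I6500_6900.Tab.C.BA57.c_mm_101 noCut_EA noExt_EA F trivial trivial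

theorem BA57_mm_102 {κ x : ℝ} (hκ : κ * h0 = ken x) (hx : ((697932185 : ℕ) : ℝ) / S ≤ x) (hx' : x ≤ (((697932185 : ℕ) : ℝ) + (42949674 : ℕ)) / S) :
    TriA PP.cur (VE (h0 * 0) 3 κ (h0 * x) (eng.v x) (h0 * (3 / 40)) (tnt (h0 * x) (3 / 10)) (tbl tK x) (tbl tL x) (tbl (smT h0⁻¹ tC) x)) 1 0 2 5 7 (-1) (-1) :=
  (sideB hx hx').bothA (thrB hx hx') (en_pos (hx1 hx).le) (Or.inr rfl) (Or.inr rfl) fun y y' F =>
    bothA_cert (s1 := false) (s2 := false) rfl hκ (en_pos (hx1 hx).le) (esg_rng (hx1 hx).le (hx2 hx').le).1 (mo_v x) covB51 covB70 hx hx'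
        Pool.Agent.Strip051.G.I6500_6900.Tab.C.BA57.c_mm_102 noCut_EA noExt_EA F trivial trivial

theorem BA57_mm_112 {κ x : ℝ} (hκ : κ * h0 = ken x) (hx : ((697932185 : ℕ) : ℝ) / S ≤ x) (hx' : x ≤ (((697932185 : ℕ) : ℝ) + (42949674 : ℕ)) / S) :
    TriA PP.cur (VE (h0 * 0) 3 κ (h0 * x) (eng.v x) (h0 * (3 / 40)) (tnt (h0 * x) (3 / 10)) (tbl tK x) (tbl tL x) (tbl (smT h0⁻¹ tC) x)) 1 1 2 5 7 (-1) (-1) :=
  (sideB hx hx').bothA (thrB hx hx') (en_pos (hx1 hx).le) (Or.inr rfl) (Or.inr rfl) fun y y' F =>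
    bothA_cert (s1 := false) (s2 := false) rfl hκ (en_pos (hx1 hx).le) (esg_rng (hx1 hx).le (hx2 hx').le).1 (mo_v x) covB51 covB71 hx hx'
        Pool.Agent.Strip051.G.I6500_6900.Tab.C.BA57.c_mm_112 noCut_EA noExt_EA F trivial trivial

theorem BA57_mm_113 {κ x : ℝ} (hκ : κ * h0 = ken x) (hx : ((697932185 : ℕ) : ℝ) / S ≤ x) (hx' : x ≤ (((697932185 : ℕ) : ℝ) + (42949674 : ℕ)) / S) :
    TriA PP.cur (VE (h0 * 0) 3 κ (h0 * x) (eng.v x) (h0 * (3 / 40)) (tnt (h0 * x) (3 / 10)) (tbl tK x) (tbl tL x) (tbl (smT h0⁻¹ tC) x)) 1 1 3 5 7 (-1) (-1) :=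
  (sideB hx hx').bothA (thrB hx hx') (en_pos (hx1 hx).le) (Or.inr rfl) (Or.inr rfl) fun y y' F =>
    bothA_cert (s1 := false) (s2 := false) rfl hκ (en_pos (hx1 hx).le) (esg_rng (hx1 hx).le (hx2 hx').le).1 (mo_v x) covB51 covB71 hx hx'
        Pool.Agent.Strip051.G.I6500_6900.Tab.C.BA57.c_mm_113 noCut_EA noExt_EA F trivial trivial

theorem BA57_mm_123 {κ x : ℝ} (hκ : κ * h0 = ken x) (hx : ((697932185 : ℕ) : ℝ) / S ≤ x) (hx' : x ≤ (((697932185 : ℕ) : ℝ) + (42949674 : ℕ)) / S) :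
    TriA PP.cur (VE (h0 * 0) 3 κ (h0 * x) (eng.v x) (h0 * (3 / 40)) (tnt (h0 * x) (3 / 10)) (tbl tK x) (tbl tL x) (tbl (smT h0⁻¹ tC) x)) 1 2 3 5 7 (-1) (-1) :=
  (sideB hx hx').bothA (thrB hx hx') (en_pos (hx1 hx).le) (Or.inr rfl) (Or.inr rfl) fun y y' F =>
    bothA_cert (s1 := false) (s2 := false) rfl hκ (en_pos (hx1 hx).le) (esg_rng (hx1 hx).le (hx2 hx').le).1 (mo_v x) covB51 covB72 hx hx'
        Pool.Agent.Strip051.G.I6500_6900.Tab.C.BA57.c_mm_123 noCut_EA noExt_EA F trivial trivial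

theorem BA57_mm_133 {κ x : ℝ} (hκ : κ * h0 = ken x) (hx : ((697932185 : ℕ) : ℝ) / S ≤ x) (hx' : x ≤ (((697932185 : ℕ) : ℝ) + (42949674 : ℕ)) / S) :
    TriA PP.cur (VE (h0 * 0) 3 κ (h0 * x) (eng.v x) (h0 * (3 / 40)) (tnt (h0 * x) (3 / 10)) (tbl tK x) (tbl tL x) (tbl (smT h0⁻¹ tC) x)) 1 3 3 5 7 (-1) (-1) :=
  (sideB hx hx').bothA (thrB hx hx') (en_pos (hx1 hx).le) (Or.inr rfl) (Or.inr rfl) fun y y' F =>
    bothA_cert (s1 := false) (s2 := false) rfl hκ (en_pos (hx1 hx).le) (esg_rng (hx1 hx).le (hx2 hx').le).1 (mo_v x) covB51 covB73 hx hx'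
        Pool.Agent.Strip051.G.I6500_6900.Tab.C.BA57.c_mm_133 noCut_EA noExt_EA F trivial trivial

theorem BA57_mm_202 {κ x : ℝ} (hκ : κ * h0 = ken x) (hx : ((697932185 : ℕ) : ℝ) / S ≤ x) (hx' : x ≤ (((697932185 : ℕ) : ℝ) + (42949674 : ℕ)) / S) :
    TriA PP.cur (VE (h0 * 0) 3 κ (h0 * x) (eng.v x) (h0 * (3 / 40)) (tnt (h0 * x) (3 / 10)) (tbl tK x) (tbl tL x) (tbl (smT h0⁻¹ tC) x)) 2 0 2 5 7 (-1) (-1) :=
  (sideB hx hx').bothA (thrB hx hx') (en_pos (hx1 hx).le) (Or.inr rfl) (Or.inr rfl) fun y y' F =>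
    bothA_cert (s1 := false) (s2 := false) rfl hκ (en_pos (hx1 hx).le) (esg_rng (hx1 hx).le (hx2 hx').le).1 (mo_v x) covB52 covB70 hx hx'
        Pool.Agent.Strip051.G.I6500_6900.Tab.C.BA57.c_mm_202 noCut_EA noExt_EA F trivial trivial

theorem BA57_mm_203 {κ x : ℝ} (hκ : κ * h0 = ken x) (hx : ((697932185 : ℕ) : ℝ) / S ≤ x) (hx' : x ≤ (((697932185 : ℕ) : ℝ) + (42949674 : ℕ)) / S) :
    TriA PP.cur (VE (h0 * 0) 3 κ (h0 * x) (eng.v x) (h0 * (3 / 40)) (tnt (h0 * x) (3 / 10)) (tbl tK x) (tbl tL x) (tbl (smT h0⁻¹ tC) x)) 2 0 3 5 7 (-1) (-1) :=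
  (sideB hx hx').bothA (thrB hx hx') (en_pos (hx1 hx).le) (Or.inr rfl) (Or.inr rfl) fun y y' F =>
    bothA_cert (s1 := false) (s2 := false) rfl hκ (en_pos (hx1 hx).le) (esg_rng (hx1 hx).le (hx2 hx').le).1 (mo_v x) covB52 covB70 hx hx'
        Pool.Agent.Strip051.G.I6500_6900.Tab.C.BA57.c_mm_203 noCut_EA noExt_EA F trivial trivial

theorem BA57_mm_213 {κ x : ℝ} (hκ : κ * h0 = ken x) (hx : ((697932185 : ℕ) : ℝ) / S ≤ x) (hx' : x ≤ (((697932185 : ℕ) : ℝ) + (42949674 : ℕ)) / S) :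
    TriA PP.cur (VE (h0 * 0) 3 κ (h0 * x) (eng.v x) (h0 * (3 / 40)) (tnt (h0 * x) (3 / 10)) (tbl tK x) (tbl tL x) (tbl (smT h0⁻¹ tC) x)) 2 1 3 5 7 (-1) (-1) :=
  (sideB hx hx').bothA (thrB hx hx') (en_pos (hx1 hx).le) (Or.inr rfl) (Or.inr rfl) fun y y' F =>
    bothA_cert (s1 := false) (s2 := false) rfl hκ (en_pos (hx1 hx).le) (esg_rng (hx1 hx).le (hx2 hx').le).1 (mo_v x) covB52 covB71 hx hx'
        Pool.Agent.Strip051.G.I6500_6900.Tab.C.BA57.c_mm_213 noCut_EA noExt_EA F trivial trivial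

theorem BA57_mm_303 {κ x : ℝ} (hκ : κ * h0 = ken x) (hx : ((697932185 : ℕ) : ℝ) / S ≤ x) (hx' : x ≤ (((697932185 : ℕ) : ℝ) + (42949674 : ℕ)) / S) :
    TriA PP.cur (VE (h0 * 0) 3 κ (h0 * x) (eng.v x) (h0 * (3 / 40)) (tnt (h0 * x) (3 / 10)) (tbl tK x) (tbl tL x) (tbl (smT h0⁻¹ tC) x)) 3 0 3 5 7 (-1) (-1) :=
  (sideB hx hx').bothA (thrB hx hx') (en_pos (hx1 hx).le) (Or.inr rfl) (Or.inr rfl) fun y y' F =>
    bothA_cert (s1 := false) (s2 := false) rfl hκ (en_pos (hx1 hx).le) (esg_rng (hx1 hx).le (hx2 hx').le).1 (mo_v x) covB53 covB70 hx hx'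
        Pool.Agent.Strip051.G.I6500_6900.Tab.C.BA57.c_mm_303 noCut_EA noExt_EA F trivial trivial

theorem BA57_mm_313 {κ x : ℝ} (hκ : κ * h0 = ken x) (hx : ((697932185 : ℕ) : ℝ) / S ≤ x) (hx' : x ≤ (((697932185 : ℕ) : ℝ) + (42949674 : ℕ)) / S) :
    TriA PP.cur (VE (h0 * 0) 3 κ (h0 * x) (eng.v x) (h0 * (3 / 40)) (tnt (h0 * x) (3 / 10)) (tbl tK x) (tbl tL x) (tbl (smT h0⁻¹ tC) x)) 3 1 3 5 7 (-1) (-1) :=
  (sideB hx hx').bothA (thrB hx hx') (en_pos (hx1 hx).le) (Or.inr rfl) (Or.inr rfl) fun y y' F =>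
    bothA_cert (s1 := false) (s2 := false) rfl hκ (en_pos (hx1 hx).le) (esg_rng (hx1 hx).le (hx2 hx').le).1 (mo_v x) covB53 covB71 hx hx'
        Pool.Agent.Strip051.G.I6500_6900.Tab.C.BA57.c_mm_313 noCut_EA noExt_EA F trivial trivial

theorem BA57 {κ x : ℝ} (hκ : κ * h0 = ken x) (hx : ((697932185 : ℕ) : ℝ) / S ≤ x) (hx' : x ≤ (((697932185 : ℕ) : ℝ) + (42949674 : ℕ)) / S) : AllTA PP.cur (VE (h0 * 0) 3 κ (h0 * x) (eng.v x) (h0 * (3 / 40)) (tnt (h0 * x) (3 / 10)) (tbl tK x) (tbl tL x) (tbl (smT h0⁻¹ tC) x)) 5 7 where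
  pp := all17 (Q := fun a b c => TriA PP.cur (VE (h0 * 0) 3 κ (h0 * x) (eng.v x) (h0 * (3 / 40)) (tnt (h0 * x) (3 / 10)) (tbl tK x) (tbl tL x) (tbl (smT h0⁻¹ tC) x)) a b c 5 7 1 1)
    (BA57_pp_001 hκ hx hx') (BA57_pp_011 hκ hx hx') (BA57_pp_012 hκ hx hx') (BA57_pp_022 hκ hx hx') (BA57_pp_023 hκ hx hx') (BA57_pp_033 hκ hx hx') (BA57_pp_101 hκ hx hx') (BA57_pp_102 hκ hx hx') (BA57_pp_112 hκ hx hx') (BA57_pp_113 hκ hx hx') (BA57_pp_123 hκ hx hx') (BA57_pp_133 hκ hx hx') (BA57_pp_202 hκ hx hx') (BA57_pp_203 hκ hx hx') (BA57_pp_213 hκ hx hx') (BA57_pp_303 hκ hx hx') (BA57_pp_313 hκ hx hx')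
  pm := all17 (Q := fun a b c => TriA PP.cur (VE (h0 * 0) 3 κ (h0 * x) (eng.v x) (h0 * (3 / 40)) (tnt (h0 * x) (3 / 10)) (tbl tK x) (tbl tL x) (tbl (smT h0⁻¹ tC) x)) a b c 5 7 1 (-1))
    (BA57_pm_001 hκ hx hx') (BA57_pm_011 hκ hx hx') (BA57_pm_012 hκ hx hx') (BA57_pm_022 hκ hx hx') (BA57_pm_023 hκ hx hx') (BA57_pm_033 hκ hx hx') (BA57_pm_101 hκ hx hx') (BA57_pm_102 hκ hx hx') (BA57_pm_112 hκ hx hx') (BA57_pm_113 hκ hx hx') (BA57_pm_123 hκ hx hx') (BA57_pm_133 hκ hx hx') (BA57_pm_202 hκ hx hx') (BA57_pm_203 hκ hx hx') (BA57_pm_213 hκ hx hx') (BA57_pm_303 hκ hx hx') (BA57_pm_313 hκ hx hx')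
  mm := all17 (Q := fun a b c => TriA PP.cur (VE (h0 * 0) 3 κ (h0 * x) (eng.v x) (h0 * (3 / 40)) (tnt (h0 * x) (3 / 10)) (tbl tK x) (tbl tL x) (tbl (smT h0⁻¹ tC) x)) a b c 5 7 (-1) (-1))
    (BA57_mm_001 hκ hx hx') (BA57_mm_011 hκ hx hx') (BA57_mm_012 hκ hx hx') (BA57_mm_022 hκ hx hx') (BA57_mm_023 hκ hx hx') (BA57_mm_033 hκ hx hx') (BA57_mm_101 hκ hx hx') (BA57_mm_102 hκ hx hx') (BA57_mm_112 hκ hx hx') (BA57_mm_113 hκ hx hx') (BA57_mm_123 hκ hx hx') (BA57_mm_133 hκ hx hx') (BA57_mm_202 hκ hx hx') (BA57_mm_203 hκ hx hx') (BA57_mm_213 hκ hx hx') (BA57_mm_303 hκ hx hx') (BA57_mm_313 hκ hx hx')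

theorem BA66_pp_001 {κ x : ℝ} (hκ : κ * h0 = ken x) (hx : ((697932185 : ℕ) : ℝ) / S ≤ x) (hx' : x ≤ (((697932185 : ℕ) : ℝ) + (42949674 : ℕ)) / S) :
    TriA PP.cur (VE (h0 * 0) 3 κ (h0 * x) (eng.v x) (h0 * (3 / 40)) (tnt (h0 * x) (3 / 10)) (tbl tK x) (tbl tL x) (tbl (smT h0⁻¹ tC) x)) 0 0 1 6 6 1 1 :=
  (sideB hx hx').bothA (thrB hx hx') (en_pos (hx1 hx).le) (Or.inl rfl) (Or.inl rfl) fun y y' F =>
    bothA_cert (s1 := true) (s2 := true) rfl hκ (en_pos (hx1 hx).le) (esg_rng (hx1 hx).le (hx2 hx').le).1 (mo_v x) covB60 covB60 hx hx'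
        Pool.Agent.Strip051.G.I6500_6900.Tab.C.BA66.c_pp_001 noCut_EA noExt_EA F trivial trivial

theorem BA66_pp_011 {κ x : ℝ} (hκ : κ * h0 = ken x) (hx : ((697932185 : ℕ) : ℝ) / S ≤ x) (hx' : x ≤ (((697932185 : ℕ) : ℝ) + (42949674 : ℕ)) / S) :
    TriA PP.cur (VE (h0 * 0) 3 κ (h0 * x) (eng.v x) (h0 * (3 / 40)) (tnt (h0 * x) (3 / 10)) (tbl tK x) (tbl tL x) (tbl (smT h0⁻¹ tC) x)) 0 1 1 6 6 1 1 :=
  (sideB hx hx').bothA (thrB hx hx') (en_pos (hx1 hx).le) (Or.inl rfl) (Or.inl rfl) fun y y' F =>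
    bothA_cert (s1 := true) (s2 := true) rfl hκ (en_pos (hx1 hx).le) (esg_rng (hx1 hx).le (hx2 hx').le).1 (mo_v x) covB60 covB61 hx hx'
        Pool.Agent.Strip051.G.I6500_6900.Tab.C.BA66.c_pp_011 noCut_EA noExt_EA F trivial trivial

theorem BA66_pp_012 {κ x : ℝ} (hκ : κ * h0 = ken x) (hx : ((697932185 : ℕ) : ℝ) / S ≤ x) (hx' : x ≤ (((697932185 : ℕ) : ℝ) + (42949674 : ℕ)) / S) :
    TriA PP.cur (VE (h0 * 0) 3 κ (h0 * x) (eng.v x) (h0 * (3 / 40)) (tnt (h0 * x) (3 / 10)) (tbl tK x) (tbl tL x) (tbl (smT h0⁻¹ tC) x)) 0 1 2 6 6 1 1 :=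
  (sideB hx hx').bothA (thrB hx hx') (en_pos (hx1 hx).le) (Or.inl rfl) (Or.inl rfl) fun y y' F =>
    bothA_cert (s1 := true) (s2 := true) rfl hκ (en_pos (hx1 hx).le) (esg_rng (hx1 hx).le (hx2 hx').le).1 (mo_v x) covB60 covB61 hx hx'
        Pool.Agent.Strip051.G.I6500_6900.Tab.C.BA66.c_pp_012 noCut_EA noExt_EA F trivial trivial

theorem BA66_pp_022 {κ x : ℝ} (hκ : κ * h0 = ken x) (hx : ((697932185 : ℕ) : ℝ) / S ≤ x) (hx' : x ≤ (((697932185 : ℕ) : ℝ) + (42949674 : ℕ)) / S) :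
    TriA PP.cur (VE (h0 * 0) 3 κ (h0 * x) (eng.v x) (h0 * (3 / 40)) (tnt (h0 * x) (3 / 10)) (tbl tK x) (tbl tL x) (tbl (smT h0⁻¹ tC) x)) 0 2 2 6 6 1 1 :=
  (sideB hx hx').bothA (thrB hx hx') (en_pos (hx1 hx).le) (Or.inl rfl) (Or.inl rfl) fun y y' F =>
    bothA_cert (s1 := true) (s2 := true) rfl hκ (en_pos (hx1 hx).le) (esg_rng (hx1 hx).le (hx2 hx').le).1 (mo_v x) covB60 covB62 hx hx'
        Pool.Agent.Strip051.G.I6500_6900.Tab.C.BA66.c_pp_022 noCut_EA noExt_EA F trivial trivial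

theorem BA66_pp_023 {κ x : ℝ} (hκ : κ * h0 = ken x) (hx : ((697932185 : ℕ) : ℝ) / S ≤ x) (hx' : x ≤ (((697932185 : ℕ) : ℝ) + (42949674 : ℕ)) / S) :
    TriA PP.cur (VE (h0 * 0) 3 κ (h0 * x) (eng.v x) (h0 * (3 / 40)) (tnt (h0 * x) (3 / 10)) (tbl tK x) (tbl tL x) (tbl (smT h0⁻¹ tC) x)) 0 2 3 6 6 1 1 :=
  (sideB hx hx').bothA (thrB hx hx') (en_pos (hx1 hx).le) (Or.inl rfl) (Or.inl rfl) fun y y' F =>
    bothA_cert (s1 := true) (s2 := true) rfl hκ (en_pos (hx1 hx).le) (esg_rng (hx1 hx).le (hx2 hx').le).1 (mo_v x) covB60 covB62 hx hx'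
        Pool.Agent.Strip051.G.I6500_6900.Tab.C.BA66.c_pp_023 noCut_EA noExt_EA F trivial trivial

theorem BA66_pp_033 {κ x : ℝ} (hκ : κ * h0 = ken x) (hx : ((697932185 : ℕ) : ℝ) / S ≤ x) (hx' : x ≤ (((697932185 : ℕ) : ℝ) + (42949674 : ℕ)) / S) :
    TriA PP.cur (VE (h0 * 0) 3 κ (h0 * x) (eng.v x) (h0 * (3 / 40)) (tnt (h0 * x) (3 / 10)) (tbl tK x) (tbl tL x) (tbl (smT h0⁻¹ tC) x)) 0 3 3 6 6 1 1 :=
  (sideB hx hx').bothA (thrB hx hx') (en_pos (hx1 hx).le) (Or.inl rfl) (Or.inl rfl) fun y y' F =>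
    bothA_cert (s1 := true) (s2 := true) rfl hκ (en_pos (hx1 hx).le) (esg_rng (hx1 hx).le (hx2 hx').le).1 (mo_v x) covB60 covB63 hx hx'
        Pool.Agent.Strip051.G.I6500_6900.Tab.C.BA66.c_pp_033 noCut_EA noExt_EA F trivial trivial

theorem BA66_pp_101 {κ x : ℝ} (hκ : κ * h0 = ken x) (hx : ((697932185 : ℕ) : ℝ) / S ≤ x) (hx' : x ≤ (((697932185 : ℕ) : ℝ) + (42949674 : ℕ)) / S) :
    TriA PP.cur (VE (h0 * 0) 3 κ (h0 * x) (eng.v x) (h0 * (3 / 40)) (tnt (h0 * x) (3 / 10)) (tbl tK x) (tbl tL x) (tbl (smT h0⁻¹ tC) x)) 1 0 1 6 6 1 1 :=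
  (sideB hx hx').bothA (thrB hx hx') (en_pos (hx1 hx).le) (Or.inl rfl) (Or.inl rfl) fun y y' F =>
    bothA_cert (s1 := true) (s2 := true) rfl hκ (en_pos (hx1 hx).le) (esg_rng (hx1 hx).le (hx2 hx').le).1 (mo_v x) covB61 covB60 hx hx'
        Pool.Agent.Strip051.G.I6500_6900.Tab.C.BA66.c_pp_101 noCut_EA noExt_EA F trivial trivial

theorem BA66_pp_102 {κ x : ℝ} (hκ : κ * h0 = ken x) (hx : ((697932185 : ℕ) : ℝ) / S ≤ x) (hx' : x ≤ (((697932185 : ℕ) : ℝ) + (42949674 : ℕ)) / S) :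
    TriA PP.cur (VE (h0 * 0) 3 κ (h0 * x) (eng.v x) (h0 * (3 / 40)) (tnt (h0 * x) (3 / 10)) (tbl tK x) (tbl tL x) (tbl (smT h0⁻¹ tC) x)) 1 0 2 6 6 1 1 :=
  (sideB hx hx').bothA (thrB hx hx') (en_pos (hx1 hx).le) (Or.inl rfl) (Or.inl rfl) fun y y' F =>
    bothA_cert (s1 := true) (s2 := true) rfl hκ (en_pos (hx1 hx).le) (esg_rng (hx1 hx).le (hx2 hx').le).1 (mo_v x) covB61 covB60 hx hx'
        Pool.Agent.Strip051.G.I6500_6900.Tab.C.BA66.c_pp_102 noCut_EA noExt_EA F trivial trivial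

theorem BA66_pp_112 {κ x : ℝ} (hκ : κ * h0 = ken x) (hx : ((697932185 : ℕ) : ℝ) / S ≤ x) (hx' : x ≤ (((697932185 : ℕ) : ℝ) + (42949674 : ℕ)) / S) :
    TriA PP.cur (VE (h0 * 0) 3 κ (h0 * x) (eng.v x) (h0 * (3 / 40)) (tnt (h0 * x) (3 / 10)) (tbl tK x) (tbl tL x) (tbl (smT h0⁻¹ tC) x)) 1 1 2 6 6 1 1 :=
  (sideB hx hx').bothA (thrB hx hx') (en_pos (hx1 hx).le) (Or.inl rfl) (Or.inl rfl) fun y y' F =>
    bothA_cert (s1 := true) (s2 := true) rfl hκ (en_pos (hx1 hx).le) (esg_rng (hx1 hx).le (hx2 hx').le).1 (mo_v x) covB61 covB61 hx hx'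
        Pool.Agent.Strip051.G.I6500_6900.Tab.C.BA66.c_pp_112 noCut_EA noExt_EA F trivial trivial

theorem BA66_pp_113 {κ x : ℝ} (hκ : κ * h0 = ken x) (hx : ((697932185 : ℕ) : ℝ) / S ≤ x) (hx' : x ≤ (((697932185 : ℕ) : ℝ) + (42949674 : ℕ)) / S) :
    TriA PP.cur (VE (h0 * 0) 3 κ (h0 * x) (eng.v x) (h0 * (3 / 40)) (tnt (h0 * x) (3 / 10)) (tbl tK x) (tbl tL x) (tbl (smT h0⁻¹ tC) x)) 1 1 3 6 6 1 1 :=
  (sideB hx hx').bothA (thrB hx hx') (en_pos (hx1 hx).le) (Or.inl rfl) (Or.inl rfl) fun y y' F =>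
    bothA_cert (s1 := true) (s2 := true) rfl hκ (en_pos (hx1 hx).le) (esg_rng (hx1 hx).le (hx2 hx').le).1 (mo_v x) covB61 covB61 hx hx'
        Pool.Agent.Strip051.G.I6500_6900.Tab.C.BA66.c_pp_113 noCut_EA noExt_EA F trivial trivial

theorem BA66_pp_123 {κ x : ℝ} (hκ : κ * h0 = ken x) (hx : ((697932185 : ℕ) : ℝ) / S ≤ x) (hx' : x ≤ (((697932185 : ℕ) : ℝ) + (42949674 : ℕ)) / S) :
    TriA PP.cur (VE (h0 * 0) 3 κ (h0 * x) (eng.v x) (h0 * (3 / 40)) (tnt (h0 * x) (3 / 10)) (tbl tK x) (tbl tL x) (tbl (smT h0⁻¹ tC) x)) 1 2 3 6 6 1 1 :=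
  (sideB hx hx').bothA (thrB hx hx') (en_pos (hx1 hx).le) (Or.inl rfl) (Or.inl rfl) fun y y' F =>
    bothA_cert (s1 := true) (s2 := true) rfl hκ (en_pos (hx1 hx).le) (esg_rng (hx1 hx).le (hx2 hx').le).1 (mo_v x) covB61 covB62 hx hx'
        Pool.Agent.Strip051.G.I6500_6900.Tab.C.BA66.c_pp_123 noCut_EA noExt_EA F trivial trivial

theorem BA66_pp_133 {κ x : ℝ} (hκ : κ * h0 = ken x) (hx : ((697932185 : ℕ) : ℝ) / S ≤ x) (hx' : x ≤ (((697932185 : ℕ) : ℝ) + (42949674 : ℕ)) / S) :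
    TriA PP.cur (VE (h0 * 0) 3 κ (h0 * x) (eng.v x) (h0 * (3 / 40)) (tnt (h0 * x) (3 / 10)) (tbl tK x) (tbl tL x) (tbl (smT h0⁻¹ tC) x)) 1 3 3 6 6 1 1 :=
  (sideB hx hx').bothA (thrB hx hx') (en_pos (hx1 hx).le) (Or.inl rfl) (Or.inl rfl) fun y y' F =>
    bothA_cert (s1 := true) (s2 := true) rfl hκ (en_pos (hx1 hx).le) (esg_rng (hx1 hx).le (hx2 hx').le).1 (mo_v x) covB61 covB63 hx hx'
        Pool.Agent.Strip051.G.I6500_6900.Tab.C.BA66.c_pp_133 noCut_EA noExt_EA F trivial trivial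

theorem BA66_pp_202 {κ x : ℝ} (hκ : κ * h0 = ken x) (hx : ((697932185 : ℕ) : ℝ) / S ≤ x) (hx' : x ≤ (((697932185 : ℕ) : ℝ) + (42949674 : ℕ)) / S) :
    TriA PP.cur (VE (h0 * 0) 3 κ (h0 * x) (eng.v x) (h0 * (3 / 40)) (tnt (h0 * x) (3 / 10)) (tbl tK x) (tbl tL x) (tbl (smT h0⁻¹ tC) x)) 2 0 2 6 6 1 1 :=
  (sideB hx hx').bothA (thrB hx hx') (en_pos (hx1 hx).le) (Or.inl rfl) (Or.inl rfl) fun y y' F =>
    bothA_cert (s1 := true) (s2 := true) rfl hκ (en_pos (hx1 hx).le) (esg_rng (hx1 hx).le (hx2 hx').le).1 (mo_v x) covB62 covB60 hx hx'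
        Pool.Agent.Strip051.G.I6500_6900.Tab.C.BA66.c_pp_202 noCut_EA noExt_EA F trivial trivial

theorem BA66_pp_203 {κ x : ℝ} (hκ : κ * h0 = ken x) (hx : ((697932185 : ℕ) : ℝ) / S ≤ x) (hx' : x ≤ (((697932185 : ℕ) : ℝ) + (42949674 : ℕ)) / S) :
    TriA PP.cur (VE (h0 * 0) 3 κ (h0 * x) (eng.v x) (h0 * (3 / 40)) (tnt (h0 * x) (3 / 10)) (tbl tK x) (tbl tL x) (tbl (smT h0⁻¹ tC) x)) 2 0 3 6 6 1 1 :=
  (sideB hx hx').bothA (thrB hx hx') (en_pos (hx1 hx).le) (Or.inl rfl) (Or.inl rfl) fun y y' F =>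
    bothA_cert (s1 := true) (s2 := true) rfl hκ (en_pos (hx1 hx).le) (esg_rng (hx1 hx).le (hx2 hx').le).1 (mo_v x) covB62 covB60 hx hx'
        Pool.Agent.Strip051.G.I6500_6900.Tab.C.BA66.c_pp_203 noCut_EA noExt_EA F trivial trivial

theorem BA66_pp_213 {κ x : ℝ} (hκ : κ * h0 = ken x) (hx : ((697932185 : ℕ) : ℝ) / S ≤ x) (hx' : x ≤ (((697932185 : ℕ) : ℝ) + (42949674 : ℕ)) / S) :
    TriA PP.cur (VE (h0 * 0) 3 κ (h0 * x) (eng.v x) (h0 * (3 / 40)) (tnt (h0 * x) (3 / 10)) (tbl tK x) (tbl tL x) (tbl (smT h0⁻¹ tC) x)) 2 1 3 6 6 1 1 :=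
  (sideB hx hx').bothA (thrB hx hx') (en_pos (hx1 hx).le) (Or.inl rfl) (Or.inl rfl) fun y y' F =>
    bothA_cert (s1 := true) (s2 := true) rfl hκ (en_pos (hx1 hx).le) (esg_rng (hx1 hx).le (hx2 hx').le).1 (mo_v x) covB62 covB61 hx hx'
        Pool.Agent.Strip051.G.I6500_6900.Tab.C.BA66.c_pp_213 noCut_EA noExt_EA F trivial trivial

theorem BA66_pp_303 {κ x : ℝ} (hκ : κ * h0 = ken x) (hx : ((697932185 : ℕ) : ℝ) / S ≤ x) (hx' : x ≤ (((697932185 : ℕ) : ℝ) + (42949674 : ℕ)) / S) :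
    TriA PP.cur (VE (h0 * 0) 3 κ (h0 * x) (eng.v x) (h0 * (3 / 40)) (tnt (h0 * x) (3 / 10)) (tbl tK x) (tbl tL x) (tbl (smT h0⁻¹ tC) x)) 3 0 3 6 6 1 1 :=
  (sideB hx hx').bothA (thrB hx hx') (en_pos (hx1 hx).le) (Or.inl rfl) (Or.inl rfl) fun y y' F =>
    bothA_cert (s1 := true) (s2 := true) rfl hκ (en_pos (hx1 hx).le) (esg_rng (hx1 hx).le (hx2 hx').le).1 (mo_v x) covB63 covB60 hx hx'
        Pool.Agent.Strip051.G.I6500_6900.Tab.C.BA66.c_pp_303 noCut_EA noExt_EA F trivial trivial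

theorem BA66_pp_313 {κ x : ℝ} (hκ : κ * h0 = ken x) (hx : ((697932185 : ℕ) : ℝ) / S ≤ x) (hx' : x ≤ (((697932185 : ℕ) : ℝ) + (42949674 : ℕ)) / S) :
    TriA PP.cur (VE (h0 * 0) 3 κ (h0 * x) (eng.v x) (h0 * (3 / 40)) (tnt (h0 * x) (3 / 10)) (tbl tK x) (tbl tL x) (tbl (smT h0⁻¹ tC) x)) 3 1 3 6 6 1 1 :=
  (sideB hx hx').bothA (thrB hx hx') (en_pos (hx1 hx).le) (Or.inl rfl) (Or.inl rfl) fun y y' F =>
    bothA_cert (s1 := true) (s2 := true) rfl hκ (en_pos (hx1 hx).le) (esg_rng (hx1 hx).le (hx2 hx').le).1 (mo_v x) covB63 covB61 hx hx'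
        Pool.Agent.Strip051.G.I6500_6900.Tab.C.BA66.c_pp_313 noCut_EA noExt_EA F trivial trivial

theorem BA66_pm_001 {κ x : ℝ} (hκ : κ * h0 = ken x) (hx : ((697932185 : ℕ) : ℝ) / S ≤ x) (hx' : x ≤ (((697932185 : ℕ) : ℝ) + (42949674 : ℕ)) / S) :
    TriA PP.cur (VE (h0 * 0) 3 κ (h0 * x) (eng.v x) (h0 * (3 / 40)) (tnt (h0 * x) (3 / 10)) (tbl tK x) (tbl tL x) (tbl (smT h0⁻¹ tC) x)) 0 0 1 6 6 1 (-1) :=
  (sideB hx hx').bothA (thrB hx hx') (en_pos (hx1 hx).le) (Or.inl rfl) (Or.inr rfl) fun y y' F =>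
    bothA_cert (s1 := true) (s2 := false) rfl hκ (en_pos (hx1 hx).le) (esg_rng (hx1 hx).le (hx2 hx').le).1 (mo_v x) covB60 covB60 hx hx'
        Pool.Agent.Strip051.G.I6500_6900.Tab.C.BA66.c_pm_001 noCut_EA noExt_EA F trivial trivial

theorem BA66_pm_011 {κ x : ℝ} (hκ : κ * h0 = ken x) (hx : ((697932185 : ℕ) : ℝ) / S ≤ x) (hx' : x ≤ (((697932185 : ℕ) : ℝ) + (42949674 : ℕ)) / S) :
    TriA PP.cur (VE (h0 * 0) 3 κ (h0 * x) (eng.v x) (h0 * (3 / 40)) (tnt (h0 * x) (3 / 10)) (tbl tK x) (tbl tL x) (tbl (smT h0⁻¹ tC) x)) 0 1 1 6 6 1 (-1) :=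
  (sideB hx hx').bothA (thrB hx hx') (en_pos (hx1 hx).le) (Or.inl rfl) (Or.inr rfl) fun y y' F =>
    bothA_cert (s1 := true) (s2 := false) rfl hκ (en_pos (hx1 hx).le) (esg_rng (hx1 hx).le (hx2 hx').le).1 (mo_v x) covB60 covB61 hx hx'
        Pool.Agent.Strip051.G.I6500_6900.Tab.C.BA66.c_pm_011 noCut_EA noExt_EA F trivial trivial

theorem BA66_pm_012 {κ x : ℝ} (hκ : κ * h0 = ken x) (hx : ((697932185 : ℕ) : ℝ) / S ≤ x) (hx' : x ≤ (((697932185 : ℕ) : ℝ) + (42949674 : ℕ)) / S) :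
    TriA PP.cur (VE (h0 * 0) 3 κ (h0 * x) (eng.v x) (h0 * (3 / 40)) (tnt (h0 * x) (3 / 10)) (tbl tK x) (tbl tL x) (tbl (smT h0⁻¹ tC) x)) 0 1 2 6 6 1 (-1) :=
  (sideB hx hx').bothA (thrB hx hx') (en_pos (hx1 hx).le) (Or.inl rfl) (Or.inr rfl) fun y y' F =>
    bothA_cert (s1 := true) (s2 := false) rfl hκ (en_pos (hx1 hx).le) (esg_rng (hx1 hx).le (hx2 hx').le).1 (mo_v x) covB60 covB61 hx hx'
        Pool.Agent.Strip051.G.I6500_6900.Tab.C.BA66.c_pm_012 noCut_EA noExt_EA F trivial trivial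

theorem BA66_pm_022 {κ x : ℝ} (hκ : κ * h0 = ken x) (hx : ((697932185 : ℕ) : ℝ) / S ≤ x) (hx' : x ≤ (((697932185 : ℕ) : ℝ) + (42949674 : ℕ)) / S) :
    TriA PP.cur (VE (h0 * 0) 3 κ (h0 * x) (eng.v x) (h0 * (3 / 40)) (tnt (h0 * x) (3 / 10)) (tbl tK x) (tbl tL x) (tbl (smT h0⁻¹ tC) x)) 0 2 2 6 6 1 (-1) :=
  (sideB hx hx').bothA (thrB hx hx') (en_pos (hx1 hx).le) (Or.inl rfl) (Or.inr rfl) fun y y' F =>
    bothA_cert (s1 := true) (s2 := false) rfl hκ (en_pos (hx1 hx).le) (esg_rng (hx1 hx).le (hx2 hx').le).1 (mo_v x) covB60 covB62 hx hx'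
        Pool.Agent.Strip051.G.I6500_6900.Tab.C.BA66.c_pm_022 noCut_EA noExt_EA F trivial trivial

theorem BA66_pm_023 {κ x : ℝ} (hκ : κ * h0 = ken x) (hx : ((697932185 : ℕ) : ℝ) / S ≤ x) (hx' : x ≤ (((697932185 : ℕ) : ℝ) + (42949674 : ℕ)) / S) :
    TriA PP.cur (VE (h0 * 0) 3 κ (h0 * x) (eng.v x) (h0 * (3 / 40)) (tnt (h0 * x) (3 / 10)) (tbl tK x) (tbl tL x) (tbl (smT h0⁻¹ tC) x)) 0 2 3 6 6 1 (-1) :=
  (sideB hx hx').bothA (thrB hx hx') (en_pos (hx1 hx).le) (Or.inl rfl) (Or.inr rfl) fun y y' F =>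
    bothA_cert (s1 := true) (s2 := false) rfl hκ (en_pos (hx1 hx).le) (esg_rng (hx1 hx).le (hx2 hx').le).1 (mo_v x) covB60 covB62 hx hx'
        Pool.Agent.Strip051.G.I6500_6900.Tab.C.BA66.c_pm_023 noCut_EA noExt_EA F trivial trivial

theorem BA66_pm_033 {κ x : ℝ} (hκ : κ * h0 = ken x) (hx : ((697932185 : ℕ) : ℝ) / S ≤ x) (hx' : x ≤ (((697932185 : ℕ) : ℝ) + (42949674 : ℕ)) / S) :
    TriA PP.cur (VE (h0 * 0) 3 κ (h0 * x) (eng.v x) (h0 * (3 / 40)) (tnt (h0 * x) (3 / 10)) (tbl tK x) (tbl tL x) (tbl (smT h0⁻¹ tC) x)) 0 3 3 6 6 1 (-1) :=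
  (sideB hx hx').bothA (thrB hx hx') (en_pos (hx1 hx).le) (Or.inl rfl) (Or.inr rfl) fun y y' F =>
    bothA_cert (s1 := true) (s2 := false) rfl hκ (en_pos (hx1 hx).le) (esg_rng (hx1 hx).le (hx2 hx').le).1 (mo_v x) covB60 covB63 hx hx'
        Pool.Agent.Strip051.G.I6500_6900.Tab.C.BA66.c_pm_033 noCut_EA noExt_EA F trivial trivial

theorem BA66_pm_101 {κ x : ℝ} (hκ : κ * h0 = ken x) (hx : ((697932185 : ℕ) : ℝ) / S ≤ x) (hx' : x ≤ (((697932185 : ℕ) : ℝ) + (42949674 : ℕ)) / S) :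
    TriA PP.cur (VE (h0 * 0) 3 κ (h0 * x) (eng.v x) (h0 * (3 / 40)) (tnt (h0 * x) (3 / 10)) (tbl tK x) (tbl tL x) (tbl (smT h0⁻¹ tC) x)) 1 0 1 6 6 1 (-1) :=
  (sideB hx hx').bothA (thrB hx hx') (en_pos (hx1 hx).le) (Or.inl rfl) (Or.inr rfl) fun y y' F =>
    bothA_cert (s1 := true) (s2 := false) rfl hκ (en_pos (hx1 hx).le) (esg_rng (hx1 hx).le (hx2 hx').le).1 (mo_v x) covB61 covB60 hx hx'
        Pool.Agent.Strip051.G.I6500_6900.Tab.C.BA66.c_pm_101 noCut_EA noExt_EA F trivial trivial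

theorem BA66_pm_102 {κ x : ℝ} (hκ : κ * h0 = ken x) (hx : ((697932185 : ℕ) : ℝ) / S ≤ x) (hx' : x ≤ (((697932185 : ℕ) : ℝ) + (42949674 : ℕ)) / S) :
    TriA PP.cur (VE (h0 * 0) 3 κ (h0 * x) (eng.v x) (h0 * (3 / 40)) (tnt (h0 * x) (3 / 10)) (tbl tK x) (tbl tL x) (tbl (smT h0⁻¹ tC) x)) 1 0 2 6 6 1 (-1) :=
  (sideB hx hx').bothA (thrB hx hx') (en_pos (hx1 hx).le) (Or.inl rfl) (Or.inr rfl) fun y y' F =>
    bothA_cert (s1 := true) (s2 := false) rfl hκ (en_pos (hx1 hx).le) (esg_rng (hx1 hx).le (hx2 hx').le).1 (mo_v x) covB61 covB60 hx hx'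
        Pool.Agent.Strip051.G.I6500_6900.Tab.C.BA66.c_pm_102 noCut_EA noExt_EA F trivial trivial

theorem BA66_pm_112 {κ x : ℝ} (hκ : κ * h0 = ken x) (hx : ((697932185 : ℕ) : ℝ) / S ≤ x) (hx' : x ≤ (((697932185 : ℕ) : ℝ) + (42949674 : ℕ)) / S) :
    TriA PP.cur (VE (h0 * 0) 3 κ (h0 * x) (eng.v x) (h0 * (3 / 40)) (tnt (h0 * x) (3 / 10)) (tbl tK x) (tbl tL x) (tbl (smT h0⁻¹ tC) x)) 1 1 2 6 6 1 (-1) :=
  (sideB hx hx').bothA (thrB hx hx') (en_pos (hx1 hx).le) (Or.inl rfl) (Or.inr rfl) fun y y' F =>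
    bothA_cert (s1 := true) (s2 := false) rfl hκ (en_pos (hx1 hx).le) (esg_rng (hx1 hx).le (hx2 hx').le).1 (mo_v x) covB61 covB61 hx hx'
        Pool.Agent.Strip051.G.I6500_6900.Tab.C.BA66.c_pm_112 noCut_EA noExt_EA F trivial trivial

theorem BA66_pm_113 {κ x : ℝ} (hκ : κ * h0 = ken x) (hx : ((697932185 : ℕ) : ℝ) / S ≤ x) (hx' : x ≤ (((697932185 : ℕ) : ℝ) + (42949674 : ℕ)) / S) :
    TriA PP.cur (VE (h0 * 0) 3 κ (h0 * x) (eng.v x) (h0 * (3 / 40)) (tnt (h0 * x) (3 / 10)) (tbl tK x) (tbl tL x) (tbl (smT h0⁻¹ tC) x)) 1 1 3 6 6 1 (-1) :=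
  (sideB hx hx').bothA (thrB hx hx') (en_pos (hx1 hx).le) (Or.inl rfl) (Or.inr rfl) fun y y' F =>
    bothA_cert (s1 := true) (s2 := false) rfl hκ (en_pos (hx1 hx).le) (esg_rng (hx1 hx).le (hx2 hx').le).1 (mo_v x) covB61 covB61 hx hx'
        Pool.Agent.Strip051.G.I6500_6900.Tab.C.BA66.c_pm_113 noCut_EA noExt_EA F trivial trivial

theorem BA66_pm_123 {κ x : ℝ} (hκ : κ * h0 = ken x) (hx : ((697932185 : ℕ) : ℝ) / S ≤ x) (hx' : x ≤ (((697932185 : ℕ) : ℝ) + (42949674 : ℕ)) / S) :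
    TriA PP.cur (VE (h0 * 0) 3 κ (h0 * x) (eng.v x) (h0 * (3 / 40)) (tnt (h0 * x) (3 / 10)) (tbl tK x) (tbl tL x) (tbl (smT h0⁻¹ tC) x)) 1 2 3 6 6 1 (-1) :=
  (sideB hx hx').bothA (thrB hx hx') (en_pos (hx1 hx).le) (Or.inl rfl) (Or.inr rfl) fun y y' F =>
    bothA_cert (s1 := true) (s2 := false) rfl hκ (en_pos (hx1 hx).le) (esg_rng (hx1 hx).le (hx2 hx').le).1 (mo_v x) covB61 covB62 hx hx'
        Pool.Agent.Strip051.G.I6500_6900.Tab.C.BA66.c_pm_123 noCut_EA noExt_EA F trivial trivial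

theorem BA66_pm_133 {κ x : ℝ} (hκ : κ * h0 = ken x) (hx : ((697932185 : ℕ) : ℝ) / S ≤ x) (hx' : x ≤ (((697932185 : ℕ) : ℝ) + (42949674 : ℕ)) / S) :
    TriA PP.cur (VE (h0 * 0) 3 κ (h0 * x) (eng.v x) (h0 * (3 / 40)) (tnt (h0 * x) (3 / 10)) (tbl tK x) (tbl tL x) (tbl (smT h0⁻¹ tC) x)) 1 3 3 6 6 1 (-1) :=
  (sideB hx hx').bothA (thrB hx hx') (en_pos (hx1 hx).le) (Or.inl rfl) (Or.inr rfl) fun y y' F =>
    bothA_cert (s1 := true) (s2 := false) rfl hκ (en_pos (hx1 hx).le) (esg_rng (hx1 hx).le (hx2 hx').le).1 (mo_v x) covB61 covB63 hx hx'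
        Pool.Agent.Strip051.G.I6500_6900.Tab.C.BA66.c_pm_133 noCut_EA noExt_EA F trivial trivial

theorem BA66_pm_202 {κ x : ℝ} (hκ : κ * h0 = ken x) (hx : ((697932185 : ℕ) : ℝ) / S ≤ x) (hx' : x ≤ (((697932185 : ℕ) : ℝ) + (42949674 : ℕ)) / S) :
    TriA PP.cur (VE (h0 * 0) 3 κ (h0 * x) (eng.v x) (h0 * (3 / 40)) (tnt (h0 * x) (3 / 10)) (tbl tK x) (tbl tL x) (tbl (smT h0⁻¹ tC) x)) 2 0 2 6 6 1 (-1) :=
  (sideB hx hx').bothA (thrB hx hx') (en_pos (hx1 hx).le) (Or.inl rfl) (Or.inr rfl) fun y y' F =>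
    bothA_cert (s1 := true) (s2 := false) rfl hκ (en_pos (hx1 hx).le) (esg_rng (hx1 hx).le (hx2 hx').le).1 (mo_v x) covB62 covB60 hx hx'
        Pool.Agent.Strip051.G.I6500_6900.Tab.C.BA66.c_pm_202 noCut_EA noExt_EA F trivial trivial

theorem BA66_pm_203 {κ x : ℝ} (hκ : κ * h0 = ken x) (hx : ((697932185 : ℕ) : ℝ) / S ≤ x) (hx' : x ≤ (((697932185 : ℕ) : ℝ) + (42949674 : ℕ)) / S) :
    TriA PP.cur (VE (h0 * 0) 3 κ (h0 * x) (eng.v x) (h0 * (3 / 40)) (tnt (h0 * x) (3 / 10)) (tbl tK x) (tbl tL x) (tbl (smT h0⁻¹ tC) x)) 2 0 3 6 6 1 (-1) :=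
  (sideB hx hx').bothA (thrB hx hx') (en_pos (hx1 hx).le) (Or.inl rfl) (Or.inr rfl) fun y y' F =>
    bothA_cert (s1 := true) (s2 := false) rfl hκ (en_pos (hx1 hx).le) (esg_rng (hx1 hx).le (hx2 hx').le).1 (mo_v x) covB62 covB60 hx hx'
        Pool.Agent.Strip051.G.I6500_6900.Tab.C.BA66.c_pm_203 noCut_EA noExt_EA F trivial trivial

theorem BA66_pm_213 {κ x : ℝ} (hκ : κ * h0 = ken x) (hx : ((697932185 : ℕ) : ℝ) / S ≤ x) (hx' : x ≤ (((697932185 : ℕ) : ℝ) + (42949674 : ℕ)) / S) :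
    TriA PP.cur (VE (h0 * 0) 3 κ (h0 * x) (eng.v x) (h0 * (3 / 40)) (tnt (h0 * x) (3 / 10)) (tbl tK x) (tbl tL x) (tbl (smT h0⁻¹ tC) x)) 2 1 3 6 6 1 (-1) :=
  (sideB hx hx').bothA (thrB hx hx') (en_pos (hx1 hx).le) (Or.inl rfl) (Or.inr rfl) fun y y' F =>
    bothA_cert (s1 := true) (s2 := false) rfl hκ (en_pos (hx1 hx).le) (esg_rng (hx1 hx).le (hx2 hx').le).1 (mo_v x) covB62 covB61 hx hx'
        Pool.Agent.Strip051.G.I6500_6900.Tab.C.BA66.c_pm_213 noCut_EA noExt_EA F trivial trivial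

theorem BA66_pm_303 {κ x : ℝ} (hκ : κ * h0 = ken x) (hx : ((697932185 : ℕ) : ℝ) / S ≤ x) (hx' : x ≤ (((697932185 : ℕ) : ℝ) + (42949674 : ℕ)) / S) :
    TriA PP.cur (VE (h0 * 0) 3 κ (h0 * x) (eng.v x) (h0 * (3 / 40)) (tnt (h0 * x) (3 / 10)) (tbl tK x) (tbl tL x) (tbl (smT h0⁻¹ tC) x)) 3 0 3 6 6 1 (-1) :=
  (sideB hx hx').bothA (thrB hx hx') (en_pos (hx1 hx).le) (Or.inl rfl) (Or.inr rfl) fun y y' F =>
    bothA_cert (s1 := true) (s2 := false) rfl hκ (en_pos (hx1 hx).le) (esg_rng (hx1 hx).le (hx2 hx').le).1 (mo_v x) covB63 covB60 hx hx'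
        Pool.Agent.Strip051.G.I6500_6900.Tab.C.BA66.c_pm_303 noCut_EA noExt_EA F trivial trivial

theorem BA66_pm_313 {κ x : ℝ} (hκ : κ * h0 = ken x) (hx : ((697932185 : ℕ) : ℝ) / S ≤ x) (hx' : x ≤ (((697932185 : ℕ) : ℝ) + (42949674 : ℕ)) / S) :
    TriA PP.cur (VE (h0 * 0) 3 κ (h0 * x) (eng.v x) (h0 * (3 / 40)) (tnt (h0 * x) (3 / 10)) (tbl tK x) (tbl tL x) (tbl (smT h0⁻¹ tC) x)) 3 1 3 6 6 1 (-1) :=
  (sideB hx hx').bothA (thrB hx hx') (en_pos (hx1 hx).le) (Or.inl rfl) (Or.inr rfl) fun y y' F =>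
    bothA_cert (s1 := true) (s2 := false) rfl hκ (en_pos (hx1 hx).le) (esg_rng (hx1 hx).le (hx2 hx').le).1 (mo_v x) covB63 covB61 hx hx'
        Pool.Agent.Strip051.G.I6500_6900.Tab.C.BA66.c_pm_313 noCut_EA noExt_EA F trivial trivial

theorem BA66_mm_001 {κ x : ℝ} (hκ : κ * h0 = ken x) (hx : ((697932185 : ℕ) : ℝ) / S ≤ x) (hx' : x ≤ (((697932185 : ℕ) : ℝ) + (42949674 : ℕ)) / S) :
    TriA PP.cur (VE (h0 * 0) 3 κ (h0 * x) (eng.v x) (h0 * (3 / 40)) (tnt (h0 * x) (3 / 10)) (tbl tK x) (tbl tL x) (tbl (smT h0⁻¹ tC) x)) 0 0 1 6 6 (-1) (-1) :=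
  (sideB hx hx').bothA (thrB hx hx') (en_pos (hx1 hx).le) (Or.inr rfl) (Or.inr rfl) fun y y' F =>
    bothA_cert (s1 := false) (s2 := false) rfl hκ (en_pos (hx1 hx).le) (esg_rng (hx1 hx).le (hx2 hx').le).1 (mo_v x) covB60 covB60 hx hx'
        Pool.Agent.Strip051.G.I6500_6900.Tab.C.BA66.c_mm_001 noCut_EA noExt_EA F trivial trivial

theorem BA66_mm_011 {κ x : ℝ} (hκ : κ * h0 = ken x) (hx : ((697932185 : ℕ) : ℝ) / S ≤ x) (hx' : x ≤ (((697932185 : ℕ) : ℝ) + (42949674 : ℕ)) / S) :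
    TriA PP.cur (VE (h0 * 0) 3 κ (h0 * x) (eng.v x) (h0 * (3 / 40)) (tnt (h0 * x) (3 / 10)) (tbl tK x) (tbl tL x) (tbl (smT h0⁻¹ tC) x)) 0 1 1 6 6 (-1) (-1) :=
  (sideB hx hx').bothA (thrB hx hx') (en_pos (hx1 hx).le) (Or.inr rfl) (Or.inr rfl) fun y y' F =>
    bothA_cert (s1 := false) (s2 := false) rfl hκ (en_pos (hx1 hx).le) (esg_rng (hx1 hx).le (hx2 hx').le).1 (mo_v x) covB60 covB61 hx hx'
        Pool.Agent.Strip051.G.I6500_6900.Tab.C.BA66.c_mm_011 noCut_EA noExt_EA F trivial trivial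

theorem BA66_mm_012 {κ x : ℝ} (hκ : κ * h0 = ken x) (hx : ((697932185 : ℕ) : ℝ) / S ≤ x) (hx' : x ≤ (((697932185 : ℕ) : ℝ) + (42949674 : ℕ)) / S) :
    TriA PP.cur (VE (h0 * 0) 3 κ (h0 * x) (eng.v x) (h0 * (3 / 40)) (tnt (h0 * x) (3 / 10)) (tbl tK x) (tbl tL x) (tbl (smT h0⁻¹ tC) x)) 0 1 2 6 6 (-1) (-1) :=
  (sideB hx hx').bothA (thrB hx hx') (en_pos (hx1 hx).le) (Or.inr rfl) (Or.inr rfl) fun y y' F =>
    bothA_cert (s1 := false) (s2 := false) rfl hκ (en_pos (hx1 hx).le) (esg_rng (hx1 hx).le (hx2 hx').le).1 (mo_v x) covB60 covB61 hx hx'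
        Pool.Agent.Strip051.G.I6500_6900.Tab.C.BA66.c_mm_012 noCut_EA noExt_EA F trivial trivial

theorem BA66_mm_022 {κ x : ℝ} (hκ : κ * h0 = ken x) (hx : ((697932185 : ℕ) : ℝ) / S ≤ x) (hx' : x ≤ (((697932185 : ℕ) : ℝ) + (42949674 : ℕ)) / S) :
    TriA PP.cur (VE (h0 * 0) 3 κ (h0 * x) (eng.v x) (h0 * (3 / 40)) (tnt (h0 * x) (3 / 10)) (tbl tK x) (tbl tL x) (tbl (smT h0⁻¹ tC) x)) 0 2 2 6 6 (-1) (-1) :=
  (sideB hx hx').bothA (thrB hx hx') (en_pos (hx1 hx).le) (Or.inr rfl) (Or.inr rfl) fun y y' F =>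
    bothA_cert (s1 := false) (s2 := false) rfl hκ (en_pos (hx1 hx).le) (esg_rng (hx1 hx).le (hx2 hx').le).1 (mo_v x) covB60 covB62 hx hx'
        Pool.Agent.Strip051.G.I6500_6900.Tab.C.BA66.c_mm_022 noCut_EA noExt_EA F trivial trivial

theorem BA66_mm_023 {κ x : ℝ} (hκ : κ * h0 = ken x) (hx : ((697932185 : ℕ) : ℝ) / S ≤ x) (hx' : x ≤ (((697932185 : ℕ) : ℝ) + (42949674 : ℕ)) / S) :
    TriA PP.cur (VE (h0 * 0) 3 κ (h0 * x) (eng.v x) (h0 * (3 / 40)) (tnt (h0 * x) (3 / 10)) (tbl tK x) (tbl tL x) (tbl (smT h0⁻¹ tC) x)) 0 2 3 6 6 (-1) (-1) :=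
  (sideB hx hx').bothA (thrB hx hx') (en_pos (hx1 hx).le) (Or.inr rfl) (Or.inr rfl) fun y y' F =>
    bothA_cert (s1 := false) (s2 := false) rfl hκ (en_pos (hx1 hx).le) (esg_rng (hx1 hx).le (hx2 hx').le).1 (mo_v x) covB60 covB62 hx hx'
        Pool.Agent.Strip051.G.I6500_6900.Tab.C.BA66.c_mm_023 noCut_EA noExt_EA F trivial trivial

theorem BA66_mm_033 {κ x : ℝ} (hκ : κ * h0 = ken x) (hx : ((697932185 : ℕ) : ℝ) / S ≤ x) (hx' : x ≤ (((697932185 : ℕ) : ℝ) + (42949674 : ℕ)) / S) :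
    TriA PP.cur (VE (h0 * 0) 3 κ (h0 * x) (eng.v x) (h0 * (3 / 40)) (tnt (h0 * x) (3 / 10)) (tbl tK x) (tbl tL x) (tbl (smT h0⁻¹ tC) x)) 0 3 3 6 6 (-1) (-1) :=
  (sideB hx hx').bothA (thrB hx hx') (en_pos (hx1 hx).le) (Or.inr rfl) (Or.inr rfl) fun y y' F =>
    bothA_cert (s1 := false) (s2 := false) rfl hκ (en_pos (hx1 hx).le) (esg_rng (hx1 hx).le (hx2 hx').le).1 (mo_v x) covB60 covB63 hx hx'
        Pool.Agent.Strip051.G.I6500_6900.Tab.C.BA66.c_mm_033 noCut_EA noExt_EA F trivial trivial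

theorem BA66_mm_101 {κ x : ℝ} (hκ : κ * h0 = ken x) (hx : ((697932185 : ℕ) : ℝ) / S ≤ x) (hx' : x ≤ (((697932185 : ℕ) : ℝ) + (42949674 : ℕ)) / S) :
    TriA PP.cur (VE (h0 * 0) 3 κ (h0 * x) (eng.v x) (h0 * (3 / 40)) (tnt (h0 * x) (3 / 10)) (tbl tK x) (tbl tL x) (tbl (smT h0⁻¹ tC) x)) 1 0 1 6 6 (-1) (-1) :=
  (sideB hx hx').bothA (thrB hx hx') (en_pos (hx1 hx).le) (Or.inr rfl) (Or.inr rfl) fun y y' F =>
    bothA_cert (s1 := false) (s2 := false) rfl hκ (en_pos (hx1 hx).le) (esg_rng (hx1 hx).le (hx2 hx').le).1 (mo_v x) covB61 covB60 hx hx'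
        Pool.Agent.Strip051.G.I6500_6900.Tab.C.BA66.c_mm_101 noCut_EA noExt_EA F trivial trivial

theorem BA66_mm_102 {κ x : ℝ} (hκ : κ * h0 = ken x) (hx : ((697932185 : ℕ) : ℝ) / S ≤ x) (hx' : x ≤ (((697932185 : ℕ) : ℝ) + (42949674 : ℕ)) / S) :
    TriA PP.cur (VE (h0 * 0) 3 κ (h0 * x) (eng.v x) (h0 * (3 / 40)) (tnt (h0 * x) (3 / 10)) (tbl tK x) (tbl tL x) (tbl (smT h0⁻¹ tC) x)) 1 0 2 6 6 (-1) (-1) :=
  (sideB hx hx').bothA (thrB hx hx') (en_pos (hx1 hx).le) (Or.inr rfl) (Or.inr rfl) fun y y' F =>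
    bothA_cert (s1 := false) (s2 := false) rfl hκ (en_pos (hx1 hx).le) (esg_rng (hx1 hx).le (hx2 hx').le).1 (mo_v x) covB61 covB60 hx hx'
        Pool.Agent.Strip051.G.I6500_6900.Tab.C.BA66.c_mm_102 noCut_EA noExt_EA F trivial trivial

theorem BA66_mm_112 {κ x : ℝ} (hκ : κ * h0 = ken x) (hx : ((697932185 : ℕ) : ℝ) / S ≤ x) (hx' : x ≤ (((697932185 : ℕ) : ℝ) + (42949674 : ℕ)) / S) :
    TriA PP.cur (VE (h0 * 0) 3 κ (h0 * x) (eng.v x) (h0 * (3 / 40)) (tnt (h0 * x) (3 / 10)) (tbl tK x) (tbl tL x) (tbl (smT h0⁻¹ tC) x)) 1 1 2 6 6 (-1) (-1) :=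
  (sideB hx hx').bothA (thrB hx hx') (en_pos (hx1 hx).le) (Or.inr rfl) (Or.inr rfl) fun y y' F =>
    bothA_cert (s1 := false) (s2 := false) rfl hκ (en_pos (hx1 hx).le) (esg_rng (hx1 hx).le (hx2 hx').le).1 (mo_v x) covB61 covB61 hx hx'
        Pool.Agent.Strip051.G.I6500_6900.Tab.C.BA66.c_mm_112 noCut_EA noExt_EA F trivial trivial

theorem BA66_mm_113 {κ x : ℝ} (hκ : κ * h0 = ken x) (hx : ((697932185 : ℕ) : ℝ) / S ≤ x) (hx' : x ≤ (((697932185 : ℕ) : ℝ) + (42949674 : ℕ)) / S) :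
    TriA PP.cur (VE (h0 * 0) 3 κ (h0 * x) (eng.v x) (h0 * (3 / 40)) (tnt (h0 * x) (3 / 10)) (tbl tK x) (tbl tL x) (tbl (smT h0⁻¹ tC) x)) 1 1 3 6 6 (-1) (-1) :=
  (sideB hx hx').bothA (thrB hx hx') (en_pos (hx1 hx).le) (Or.inr rfl) (Or.inr rfl) fun y y' F =>
    bothA_cert (s1 := false) (s2 := false) rfl hκ (en_pos (hx1 hx).le) (esg_rng (hx1 hx).le (hx2 hx').le).1 (mo_v x) covB61 covB61 hx hx'
        Pool.Agent.Strip051.G.I6500_6900.Tab.C.BA66.c_mm_113 noCut_EA noExt_EA F trivial trivial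

theorem BA66_mm_123 {κ x : ℝ} (hκ : κ * h0 = ken x) (hx : ((697932185 : ℕ) : ℝ) / S ≤ x) (hx' : x ≤ (((697932185 : ℕ) : ℝ) + (42949674 : ℕ)) / S) :
    TriA PP.cur (VE (h0 * 0) 3 κ (h0 * x) (eng.v x) (h0 * (3 / 40)) (tnt (h0 * x) (3 / 10)) (tbl tK x) (tbl tL x) (tbl (smT h0⁻¹ tC) x)) 1 2 3 6 6 (-1) (-1) :=
  (sideB hx hx').bothA (thrB hx hx') (en_pos (hx1 hx).le) (Or.inr rfl) (Or.inr rfl) fun y y' F =>
    bothA_cert (s1 := false) (s2 := false) rfl hκ (en_pos (hx1 hx).le) (esg_rng (hx1 hx).le (hx2 hx').le).1 (mo_v x) covB61 covB62 hx hx'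
        Pool.Agent.Strip051.G.I6500_6900.Tab.C.BA66.c_mm_123 noCut_EA noExt_EA F trivial trivial

theorem BA66_mm_133 {κ x : ℝ} (hκ : κ * h0 = ken x) (hx : ((697932185 : ℕ) : ℝ) / S ≤ x) (hx' : x ≤ (((697932185 : ℕ) : ℝ) + (42949674 : ℕ)) / S) :
    TriA PP.cur (VE (h0 * 0) 3 κ (h0 * x) (eng.v x) (h0 * (3 / 40)) (tnt (h0 * x) (3 / 10)) (tbl tK x) (tbl tL x) (tbl (smT h0⁻¹ tC) x)) 1 3 3 6 6 (-1) (-1) :=
  (sideB hx hx').bothA (thrB hx hx') (en_pos (hx1 hx).le) (Or.inr rfl) (Or.inr rfl) fun y y' F =>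
    bothA_cert (s1 := false) (s2 := false) rfl hκ (en_pos (hx1 hx).le) (esg_rng (hx1 hx).le (hx2 hx').le).1 (mo_v x) covB61 covB63 hx hx'
        Pool.Agent.Strip051.G.I6500_6900.Tab.C.BA66.c_mm_133 noCut_EA noExt_EA F trivial trivial

theorem BA66_mm_202 {κ x : ℝ} (hκ : κ * h0 = ken x) (hx : ((697932185 : ℕ) : ℝ) / S ≤ x) (hx' : x ≤ (((697932185 : ℕ) : ℝ) + (42949674 : ℕ)) / S) :
    TriA PP.cur (VE (h0 * 0) 3 κ (h0 * x) (eng.v x) (h0 * (3 / 40)) (tnt (h0 * x) (3 / 10)) (tbl tK x) (tbl tL x) (tbl (smT h0⁻¹ tC) x)) 2 0 2 6 6 (-1) (-1) :=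
  (sideB hx hx').bothA (thrB hx hx') (en_pos (hx1 hx).le) (Or.inr rfl) (Or.inr rfl) fun y y' F =>
    bothA_cert (s1 := false) (s2 := false) rfl hκ (en_pos (hx1 hx).le) (esg_rng (hx1 hx).le (hx2 hx').le).1 (mo_v x) covB62 covB60 hx hx'
        Pool.Agent.Strip051.G.I6500_6900.Tab.C.BA66.c_mm_202 noCut_EA noExt_EA F trivial trivial

theorem BA66_mm_203 {κ x : ℝ} (hκ : κ * h0 = ken x) (hx : ((697932185 : ℕ) : ℝ) / S ≤ x) (hx' : x ≤ (((697932185 : ℕ) : ℝ) + (42949674 : ℕ)) / S) :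
    TriA PP.cur (VE (h0 * 0) 3 κ (h0 * x) (eng.v x) (h0 * (3 / 40)) (tnt (h0 * x) (3 / 10)) (tbl tK x) (tbl tL x) (tbl (smT h0⁻¹ tC) x)) 2 0 3 6 6 (-1) (-1) :=
  (sideB hx hx').bothA (thrB hx hx') (en_pos (hx1 hx).le) (Or.inr rfl) (Or.inr rfl) fun y y' F =>
    bothA_cert (s1 := false) (s2 := false) rfl hκ (en_pos (hx1 hx).le) (esg_rng (hx1 hx).le (hx2 hx').le).1 (mo_v x) covB62 covB60 hx hx'
        Pool.Agent.Strip051.G.I6500_6900.Tab.C.BA66.c_mm_203 noCut_EA noExt_EA F trivial trivial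

theorem BA66_mm_213 {κ x : ℝ} (hκ : κ * h0 = ken x) (hx : ((697932185 : ℕ) : ℝ) / S ≤ x) (hx' : x ≤ (((697932185 : ℕ) : ℝ) + (42949674 : ℕ)) / S) :
    TriA PP.cur (VE (h0 * 0) 3 κ (h0 * x) (eng.v x) (h0 * (3 / 40)) (tnt (h0 * x) (3 / 10)) (tbl tK x) (tbl tL x) (tbl (smT h0⁻¹ tC) x)) 2 1 3 6 6 (-1) (-1) :=
  (sideB hx hx').bothA (thrB hx hx') (en_pos (hx1 hx).le) (Or.inr rfl) (Or.inr rfl) fun y y' F =>
    bothA_cert (s1 := false) (s2 := false) rfl hκ (en_pos (hx1 hx).le) (esg_rng (hx1 hx).le (hx2 hx').le).1 (mo_v x) covB62 covB61 hx hx'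
        Pool.Agent.Strip051.G.I6500_6900.Tab.C.BA66.c_mm_213 noCut_EA noExt_EA F trivial trivial

theorem BA66_mm_303 {κ x : ℝ} (hκ : κ * h0 = ken x) (hx : ((697932185 : ℕ) : ℝ) / S ≤ x) (hx' : x ≤ (((697932185 : ℕ) : ℝ) + (42949674 : ℕ)) / S) :
    TriA PP.cur (VE (h0 * 0) 3 κ (h0 * x) (eng.v x) (h0 * (3 / 40)) (tnt (h0 * x) (3 / 10)) (tbl tK x) (tbl tL x) (tbl (smT h0⁻¹ tC) x)) 3 0 3 6 6 (-1) (-1) :=
  (sideB hx hx').bothA (thrB hx hx') (en_pos (hx1 hx).le) (Or.inr rfl) (Or.inr rfl) fun y y' F =>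
    bothA_cert (s1 := false) (s2 := false) rfl hκ (en_pos (hx1 hx).le) (esg_rng (hx1 hx).le (hx2 hx').le).1 (mo_v x) covB63 covB60 hx hx'
        Pool.Agent.Strip051.G.I6500_6900.Tab.C.BA66.c_mm_303 noCut_EA noExt_EA F trivial trivial

theorem BA66_mm_313 {κ x : ℝ} (hκ : κ * h0 = ken x) (hx : ((697932185 : ℕ) : ℝ) / S ≤ x) (hx' : x ≤ (((697932185 : ℕ) : ℝ) + (42949674 : ℕ)) / S) :
    TriA PP.cur (VE (h0 * 0) 3 κ (h0 * x) (eng.v x) (h0 * (3 / 40)) (tnt (h0 * x) (3 / 10)) (tbl tK x) (tbl tL x) (tbl (smT h0⁻¹ tC) x)) 3 1 3 6 6 (-1) (-1) :=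
  (sideB hx hx').bothA (thrB hx hx') (en_pos (hx1 hx).le) (Or.inr rfl) (Or.inr rfl) fun y y' F =>
    bothA_cert (s1 := false) (s2 := false) rfl hκ (en_pos (hx1 hx).le) (esg_rng (hx1 hx).le (hx2 hx').le).1 (mo_v x) covB63 covB61 hx hx'
        Pool.Agent.Strip051.G.I6500_6900.Tab.C.BA66.c_mm_313 noCut_EA noExt_EA F trivial trivial

theorem BA66 {κ x : ℝ} (hκ : κ * h0 = ken x) (hx : ((697932185 : ℕ) : ℝ) / S ≤ x) (hx' : x ≤ (((697932185 : ℕ) : ℝ) + (42949674 : ℕ)) / S) : AllTA PP.cur (VE (h0 * 0) 3 κ (h0 * x) (eng.v x) (h0 * (3 / 40)) (tnt (h0 * x) (3 / 10)) (tbl tK x) (tbl tL x) (tbl (smT h0⁻¹ tC) x)) 6 6 where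
  pp := all17 (Q := fun a b c => TriA PP.cur (VE (h0 * 0) 3 κ (h0 * x) (eng.v x) (h0 * (3 / 40)) (tnt (h0 * x) (3 / 10)) (tbl tK x) (tbl tL x) (tbl (smT h0⁻¹ tC) x)) a b c 6 6 1 1)
    (BA66_pp_001 hκ hx hx') (BA66_pp_011 hκ hx hx') (BA66_pp_012 hκ hx hx') (BA66_pp_022 hκ hx hx') (BA66_pp_023 hκ hx hx') (BA66_pp_033 hκ hx hx') (BA66_pp_101 hκ hx hx') (BA66_pp_102 hκ hx hx') (BA66_pp_112 hκ hx hx') (BA66_pp_113 hκ hx hx') (BA66_pp_123 hκ hx hx') (BA66_pp_133 hκ hx hx') (BA66_pp_202 hκ hx hx') (BA66_pp_203 hκ hx hx') (BA66_pp_213 hκ hx hx') (BA66_pp_303 hκ hx hx') (BA66_pp_313 hκ hx hx')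
  pm := all17 (Q := fun a b c => TriA PP.cur (VE (h0 * 0) 3 κ (h0 * x) (eng.v x) (h0 * (3 / 40)) (tnt (h0 * x) (3 / 10)) (tbl tK x) (tbl tL x) (tbl (smT h0⁻¹ tC) x)) a b c 6 6 1 (-1))
    (BA66_pm_001 hκ hx hx') (BA66_pm_011 hκ hx hx') (BA66_pm_012 hκ hx hx') (BA66_pm_022 hκ hx hx') (BA66_pm_023 hκ hx hx') (BA66_pm_033 hκ hx hx') (BA66_pm_101 hκ hx hx') (BA66_pm_102 hκ hx hx') (BA66_pm_112 hκ hx hx') (BA66_pm_113 hκ hx hx') (BA66_pm_123 hκ hx hx') (BA66_pm_133 hκ hx hx') (BA66_pm_202 hκ hx hx') (BA66_pm_203 hκ hx hx') (BA66_pm_213 hκ hx hx') (BA66_pm_303 hκ hx hx') (BA66_pm_313 hκ hx hx')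
  mm := all17 (Q := fun a b c => TriA PP.cur (VE (h0 * 0) 3 κ (h0 * x) (eng.v x) (h0 * (3 / 40)) (tnt (h0 * x) (3 / 10)) (tbl tK x) (tbl tL x) (tbl (smT h0⁻¹ tC) x)) a b c 6 6 (-1) (-1))
    (BA66_mm_001 hκ hx hx') (BA66_mm_011 hκ hx hx') (BA66_mm_012 hκ hx hx') (BA66_mm_022 hκ hx hx') (BA66_mm_023 hκ hx hx') (BA66_mm_033 hκ hx hx') (BA66_mm_101 hκ hx hx') (BA66_mm_102 hκ hx hx') (BA66_mm_112 hκ hx hx') (BA66_mm_113 hκ hx hx') (BA66_mm_123 hκ hx hx') (BA66_mm_133 hκ hx hx') (BA66_mm_202 hκ hx hx') (BA66_mm_203 hκ hx hx') (BA66_mm_213 hκ hx hx') (BA66_mm_303 hκ hx hx') (BA66_mm_313 hκ hx hx')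

theorem BA67_pp_001 {κ x : ℝ} (hκ : κ * h0 = ken x) (hx : ((697932185 : ℕ) : ℝ) / S ≤ x) (hx' : x ≤ (((697932185 : ℕ) : ℝ) + (42949674 : ℕ)) / S) :
    TriA PP.cur (VE (h0 * 0) 3 κ (h0 * x) (eng.v x) (h0 * (3 / 40)) (tnt (h0 * x) (3 / 10)) (tbl tK x) (tbl tL x) (tbl (smT h0⁻¹ tC) x)) 0 0 1 6 7 1 1 :=
  (sideB hx hx').bothA (thrB hx hx') (en_pos (hx1 hx).le) (Or.inl rfl) (Or.inl rfl) fun y y' F =>
    bothA_cert (s1 := true) (s2 := true) rfl hκ (en_pos (hx1 hx).le) (esg_rng (hx1 hx).le (hx2 hx').le).1 (mo_v x) covB60 covB70 hx hx'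
        Pool.Agent.Strip051.G.I6500_6900.Tab.C.BA67.c_pp_001 noCut_EA noExt_EA F trivial trivial

theorem BA67_pp_011 {κ x : ℝ} (hκ : κ * h0 = ken x) (hx : ((697932185 : ℕ) : ℝ) / S ≤ x) (hx' : x ≤ (((697932185 : ℕ) : ℝ) + (42949674 : ℕ)) / S) :
    TriA PP.cur (VE (h0 * 0) 3 κ (h0 * x) (eng.v x) (h0 * (3 / 40)) (tnt (h0 * x) (3 / 10)) (tbl tK x) (tbl tL x) (tbl (smT h0⁻¹ tC) x)) 0 1 1 6 7 1 1 :=
  (sideB hx hx').bothA (thrB hx hx') (en_pos (hx1 hx).le) (Or.inl rfl) (Or.inl rfl) fun y y' F =>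
    bothA_cert (s1 := true) (s2 := true) rfl hκ (en_pos (hx1 hx).le) (esg_rng (hx1 hx).le (hx2 hx').le).1 (mo_v x) covB60 covB71 hx hx'
        Pool.Agent.Strip051.G.I6500_6900.Tab.C.BA67.c_pp_011 noCut_EA noExt_EA F trivial trivial

theorem BA67_pp_012 {κ x : ℝ} (hκ : κ * h0 = ken x) (hx : ((697932185 : ℕ) : ℝ) / S ≤ x) (hx' : x ≤ (((697932185 : ℕ) : ℝ) + (42949674 : ℕ)) / S) :
    TriA PP.cur (VE (h0 * 0) 3 κ (h0 * x) (eng.v x) (h0 * (3 / 40)) (tnt (h0 * x) (3 / 10)) (tbl tK x) (tbl tL x) (tbl (smT h0⁻¹ tC) x)) 0 1 2 6 7 1 1 :=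
  (sideB hx hx').bothA (thrB hx hx') (en_pos (hx1 hx).le) (Or.inl rfl) (Or.inl rfl) fun y y' F =>
    bothA_cert (s1 := true) (s2 := true) rfl hκ (en_pos (hx1 hx).le) (esg_rng (hx1 hx).le (hx2 hx').le).1 (mo_v x) covB60 covB71 hx hx'
        Pool.Agent.Strip051.G.I6500_6900.Tab.C.BA67.c_pp_012 noCut_EA noExt_EA F trivial trivial

theorem BA67_pp_022 {κ x : ℝ} (hκ : κ * h0 = ken x) (hx : ((697932185 : ℕ) : ℝ) / S ≤ x) (hx' : x ≤ (((697932185 : ℕ) : ℝ) + (42949674 : ℕ)) / S) :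
    TriA PP.cur (VE (h0 * 0) 3 κ (h0 * x) (eng.v x) (h0 * (3 / 40)) (tnt (h0 * x) (3 / 10)) (tbl tK x) (tbl tL x) (tbl (smT h0⁻¹ tC) x)) 0 2 2 6 7 1 1 :=
  (sideB hx hx').bothA (thrB hx hx') (en_pos (hx1 hx).le) (Or.inl rfl) (Or.inl rfl) fun y y' F =>
    bothA_cert (s1 := true) (s2 := true) rfl hκ (en_pos (hx1 hx).le) (esg_rng (hx1 hx).le (hx2 hx').le).1 (mo_v x) covB60 covB72 hx hx'
        Pool.Agent.Strip051.G.I6500_6900.Tab.C.BA67.c_pp_022 noCut_EA noExt_EA F trivial trivial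

theorem BA67_pp_023 {κ x : ℝ} (hκ : κ * h0 = ken x) (hx : ((697932185 : ℕ) : ℝ) / S ≤ x) (hx' : x ≤ (((697932185 : ℕ) : ℝ) + (42949674 : ℕ)) / S) :
    TriA PP.cur (VE (h0 * 0) 3 κ (h0 * x) (eng.v x) (h0 * (3 / 40)) (tnt (h0 * x) (3 / 10)) (tbl tK x) (tbl tL x) (tbl (smT h0⁻¹ tC) x)) 0 2 3 6 7 1 1 :=
  (sideB hx hx').bothA (thrB hx hx') (en_pos (hx1 hx).le) (Or.inl rfl) (Or.inl rfl) fun y y' F =>
    bothA_cert (s1 := true) (s2 := true) rfl hκ (en_pos (hx1 hx).le) (esg_rng (hx1 hx).le (hx2 hx').le).1 (mo_v x) covB60 covB72 hx hx'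
        Pool.Agent.Strip051.G.I6500_6900.Tab.C.BA67.c_pp_023 noCut_EA noExt_EA F trivial trivial

theorem BA67_pp_033 {κ x : ℝ} (hκ : κ * h0 = ken x) (hx : ((697932185 : ℕ) : ℝ) / S ≤ x) (hx' : x ≤ (((697932185 : ℕ) : ℝ) + (42949674 : ℕ)) / S) :
    TriA PP.cur (VE (h0 * 0) 3 κ (h0 * x) (eng.v x) (h0 * (3 / 40)) (tnt (h0 * x) (3 / 10)) (tbl tK x) (tbl tL x) (tbl (smT h0⁻¹ tC) x)) 0 3 3 6 7 1 1 :=
  (sideB hx hx').bothA (thrB hx hx') (en_pos (hx1 hx).le) (Or.inl rfl) (Or.inl rfl) fun y y' F =>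
    bothA_cert (s1 := true) (s2 := true) rfl hκ (en_pos (hx1 hx).le) (esg_rng (hx1 hx).le (hx2 hx').le).1 (mo_v x) covB60 covB73 hx hx'
        Pool.Agent.Strip051.G.I6500_6900.Tab.C.BA67.c_pp_033 noCut_EA noExt_EA F trivial trivial

theorem BA67_pp_101 {κ x : ℝ} (hκ : κ * h0 = ken x) (hx : ((697932185 : ℕ) : ℝ) / S ≤ x) (hx' : x ≤ (((697932185 : ℕ) : ℝ) + (42949674 : ℕ)) / S) :
    TriA PP.cur (VE (h0 * 0) 3 κ (h0 * x) (eng.v x) (h0 * (3 / 40)) (tnt (h0 * x) (3 / 10)) (tbl tK x) (tbl tL x) (tbl (smT h0⁻¹ tC) x)) 1 0 1 6 7 1 1 :=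
  (sideB hx hx').bothA (thrB hx hx') (en_pos (hx1 hx).le) (Or.inl rfl) (Or.inl rfl) fun y y' F =>
    bothA_cert (s1 := true) (s2 := true) rfl hκ (en_pos (hx1 hx).le) (esg_rng (hx1 hx).le (hx2 hx').le).1 (mo_v x) covB61 covB70 hx hx'
        Pool.Agent.Strip051.G.I6500_6900.Tab.C.BA67.c_pp_101 noCut_EA noExt_EA F trivial trivial

theorem BA67_pp_102 {κ x : ℝ} (hκ : κ * h0 = ken x) (hx : ((697932185 : ℕ) : ℝ) / S ≤ x) (hx' : x ≤ (((697932185 : ℕ) : ℝ) + (42949674 : ℕ)) / S) :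
    TriA PP.cur (VE (h0 * 0) 3 κ (h0 * x) (eng.v x) (h0 * (3 / 40)) (tnt (h0 * x) (3 / 10)) (tbl tK x) (tbl tL x) (tbl (smT h0⁻¹ tC) x)) 1 0 2 6 7 1 1 :=
  (sideB hx hx').bothA (thrB hx hx') (en_pos (hx1 hx).le) (Or.inl rfl) (Or.inl rfl) fun y y' F =>
    bothA_cert (s1 := true) (s2 := true) rfl hκ (en_pos (hx1 hx).le) (esg_rng (hx1 hx).le (hx2 hx').le).1 (mo_v x) covB61 covB70 hx hx'
        Pool.Agent.Strip051.G.I6500_6900.Tab.C.BA67.c_pp_102 noCut_EA noExt_EA F trivial trivial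

theorem BA67_pp_112 {κ x : ℝ} (hκ : κ * h0 = ken x) (hx : ((697932185 : ℕ) : ℝ) / S ≤ x) (hx' : x ≤ (((697932185 : ℕ) : ℝ) + (42949674 : ℕ)) / S) :
    TriA PP.cur (VE (h0 * 0) 3 κ (h0 * x) (eng.v x) (h0 * (3 / 40)) (tnt (h0 * x) (3 / 10)) (tbl tK x) (tbl tL x) (tbl (smT h0⁻¹ tC) x)) 1 1 2 6 7 1 1 :=
  (sideB hx hx').bothA (thrB hx hx') (en_pos (hx1 hx).le) (Or.inl rfl) (Or.inl rfl) fun y y' F =>
    bothA_cert (s1 := true) (s2 := true) rfl hκ (en_pos (hx1 hx).le) (esg_rng (hx1 hx).le (hx2 hx').le).1 (mo_v x) covB61 covB71 hx hx'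
        Pool.Agent.Strip051.G.I6500_6900.Tab.C.BA67.c_pp_112 noCut_EA noExt_EA F trivial trivial

theorem BA67_pp_113 {κ x : ℝ} (hκ : κ * h0 = ken x) (hx : ((697932185 : ℕ) : ℝ) / S ≤ x) (hx' : x ≤ (((697932185 : ℕ) : ℝ) + (42949674 : ℕ)) / S) :
    TriA PP.cur (VE (h0 * 0) 3 κ (h0 * x) (eng.v x) (h0 * (3 / 40)) (tnt (h0 * x) (3 / 10)) (tbl tK x) (tbl tL x) (tbl (smT h0⁻¹ tC) x)) 1 1 3 6 7 1 1 :=
  (sideB hx hx').bothA (thrB hx hx') (en_pos (hx1 hx).le) (Or.inl rfl) (Or.inl rfl) fun y y' F =>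
    bothA_cert (s1 := true) (s2 := true) rfl hκ (en_pos (hx1 hx).le) (esg_rng (hx1 hx).le (hx2 hx').le).1 (mo_v x) covB61 covB71 hx hx'
        Pool.Agent.Strip051.G.I6500_6900.Tab.C.BA67.c_pp_113 noCut_EA noExt_EA F trivial trivial

theorem BA67_pp_123 {κ x : ℝ} (hκ : κ * h0 = ken x) (hx : ((697932185 : ℕ) : ℝ) / S ≤ x) (hx' : x ≤ (((697932185 : ℕ) : ℝ) + (42949674 : ℕ)) / S) :
    TriA PP.cur (VE (h0 * 0) 3 κ (h0 * x) (eng.v x) (h0 * (3 / 40)) (tnt (h0 * x) (3 / 10)) (tbl tK x) (tbl tL x) (tbl (smT h0⁻¹ tC) x)) 1 2 3 6 7 1 1 :=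
  (sideB hx hx').bothA (thrB hx hx') (en_pos (hx1 hx).le) (Or.inl rfl) (Or.inl rfl) fun y y' F =>
    bothA_cert (s1 := true) (s2 := true) rfl hκ (en_pos (hx1 hx).le) (esg_rng (hx1 hx).le (hx2 hx').le).1 (mo_v x) covB61 covB72 hx hx'
        Pool.Agent.Strip051.G.I6500_6900.Tab.C.BA67.c_pp_123 noCut_EA noExt_EA F trivial trivial

theorem BA67_pp_133 {κ x : ℝ} (hκ : κ * h0 = ken x) (hx : ((697932185 : ℕ) : ℝ) / S ≤ x) (hx' : x ≤ (((697932185 : ℕ) : ℝ) + (42949674 : ℕ)) / S) :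
    TriA PP.cur (VE (h0 * 0) 3 κ (h0 * x) (eng.v x) (h0 * (3 / 40)) (tnt (h0 * x) (3 / 10)) (tbl tK x) (tbl tL x) (tbl (smT h0⁻¹ tC) x)) 1 3 3 6 7 1 1 :=
  (sideB hx hx').bothA (thrB hx hx') (en_pos (hx1 hx).le) (Or.inl rfl) (Or.inl rfl) fun y y' F =>
    bothA_cert (s1 := true) (s2 := true) rfl hκ (en_pos (hx1 hx).le) (esg_rng (hx1 hx).le (hx2 hx').le).1 (mo_v x) covB61 covB73 hx hx'
        Pool.Agent.Strip051.G.I6500_6900.Tab.C.BA67.c_pp_133 noCut_EA noExt_EA F trivial trivial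

theorem BA67_pp_202 {κ x : ℝ} (hκ : κ * h0 = ken x) (hx : ((697932185 : ℕ) : ℝ) / S ≤ x) (hx' : x ≤ (((697932185 : ℕ) : ℝ) + (42949674 : ℕ)) / S) :
    TriA PP.cur (VE (h0 * 0) 3 κ (h0 * x) (eng.v x) (h0 * (3 / 40)) (tnt (h0 * x) (3 / 10)) (tbl tK x) (tbl tL x) (tbl (smT h0⁻¹ tC) x)) 2 0 2 6 7 1 1 :=
  (sideB hx hx').bothA (thrB hx hx') (en_pos (hx1 hx).le) (Or.inl rfl) (Or.inl rfl) fun y y' F =>
    bothA_cert (s1 := true) (s2 := true) rfl hκ (en_pos (hx1 hx).le) (esg_rng (hx1 hx).le (hx2 hx').le).1 (mo_v x) covB62 covB70 hx hx'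
        Pool.Agent.Strip051.G.I6500_6900.Tab.C.BA67.c_pp_202 noCut_EA noExt_EA F trivial trivial

theorem BA67_pp_203 {κ x : ℝ} (hκ : κ * h0 = ken x) (hx : ((697932185 : ℕ) : ℝ) / S ≤ x) (hx' : x ≤ (((697932185 : ℕ) : ℝ) + (42949674 : ℕ)) / S) :
    TriA PP.cur (VE (h0 * 0) 3 κ (h0 * x) (eng.v x) (h0 * (3 / 40)) (tnt (h0 * x) (3 / 10)) (tbl tK x) (tbl tL x) (tbl (smT h0⁻¹ tC) x)) 2 0 3 6 7 1 1 :=
  (sideB hx hx').bothA (thrB hx hx') (en_pos (hx1 hx).le) (Or.inl rfl) (Or.inl rfl) fun y y' F =>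
    bothA_cert (s1 := true) (s2 := true) rfl hκ (en_pos (hx1 hx).le) (esg_rng (hx1 hx).le (hx2 hx').le).1 (mo_v x) covB62 covB70 hx hx'
        Pool.Agent.Strip051.G.I6500_6900.Tab.C.BA67.c_pp_203 noCut_EA noExt_EA F trivial trivial

theorem BA67_pp_213 {κ x : ℝ} (hκ : κ * h0 = ken x) (hx : ((697932185 : ℕ) : ℝ) / S ≤ x) (hx' : x ≤ (((697932185 : ℕ) : ℝ) + (42949674 : ℕ)) / S) :
    TriA PP.cur (VE (h0 * 0) 3 κ (h0 * x) (eng.v x) (h0 * (3 / 40)) (tnt (h0 * x) (3 / 10)) (tbl tK x) (tbl tL x) (tbl (smT h0⁻¹ tC) x)) 2 1 3 6 7 1 1 :=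
  (sideB hx hx').bothA (thrB hx hx') (en_pos (hx1 hx).le) (Or.inl rfl) (Or.inl rfl) fun y y' F =>
    bothA_cert (s1 := true) (s2 := true) rfl hκ (en_pos (hx1 hx).le) (esg_rng (hx1 hx).le (hx2 hx').le).1 (mo_v x) covB62 covB71 hx hx'
        Pool.Agent.Strip051.G.I6500_6900.Tab.C.BA67.c_pp_213 noCut_EA noExt_EA F trivial trivial

theorem BA67_pp_303 {κ x : ℝ} (hκ : κ * h0 = ken x) (hx : ((697932185 : ℕ) : ℝ) / S ≤ x) (hx' : x ≤ (((697932185 : ℕ) : ℝ) + (42949674 : ℕ)) / S) :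
    TriA PP.cur (VE (h0 * 0) 3 κ (h0 * x) (eng.v x) (h0 * (3 / 40)) (tnt (h0 * x) (3 / 10)) (tbl tK x) (tbl tL x) (tbl (smT h0⁻¹ tC) x)) 3 0 3 6 7 1 1 :=
  (sideB hx hx').bothA (thrB hx hx') (en_pos (hx1 hx).le) (Or.inl rfl) (Or.inl rfl) fun y y' F =>
    bothA_cert (s1 := true) (s2 := true) rfl hκ (en_pos (hx1 hx).le) (esg_rng (hx1 hx).le (hx2 hx').le).1 (mo_v x) covB63 covB70 hx hx'
        Pool.Agent.Strip051.G.I6500_6900.Tab.C.BA67.c_pp_303 noCut_EA noExt_EA F trivial trivial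

theorem BA67_pp_313 {κ x : ℝ} (hκ : κ * h0 = ken x) (hx : ((697932185 : ℕ) : ℝ) / S ≤ x) (hx' : x ≤ (((697932185 : ℕ) : ℝ) + (42949674 : ℕ)) / S) :
    TriA PP.cur (VE (h0 * 0) 3 κ (h0 * x) (eng.v x) (h0 * (3 / 40)) (tnt (h0 * x) (3 / 10)) (tbl tK x) (tbl tL x) (tbl (smT h0⁻¹ tC) x)) 3 1 3 6 7 1 1 :=
  (sideB hx hx').bothA (thrB hx hx') (en_pos (hx1 hx).le) (Or.inl rfl) (Or.inl rfl) fun y y' F =>
    bothA_cert (s1 := true) (s2 := true) rfl hκ (en_pos (hx1 hx).le) (esg_rng (hx1 hx).le (hx2 hx').le).1 (mo_v x) covB63 covB71 hx hx'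
        Pool.Agent.Strip051.G.I6500_6900.Tab.C.BA67.c_pp_313 noCut_EA noExt_EA F trivial trivial

theorem BA67_pm_001 {κ x : ℝ} (hκ : κ * h0 = ken x) (hx : ((697932185 : ℕ) : ℝ) / S ≤ x) (hx' : x ≤ (((697932185 : ℕ) : ℝ) + (42949674 : ℕ)) / S) :
    TriA PP.cur (VE (h0 * 0) 3 κ (h0 * x) (eng.v x) (h0 * (3 / 40)) (tnt (h0 * x) (3 / 10)) (tbl tK x) (tbl tL x) (tbl (smT h0⁻¹ tC) x)) 0 0 1 6 7 1 (-1) :=
  (sideB hx hx').bothA (thrB hx hx') (en_pos (hx1 hx).le) (Or.inl rfl) (Or.inr rfl) fun y y' F =>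
    bothA_cert (s1 := true) (s2 := false) rfl hκ (en_pos (hx1 hx).le) (esg_rng (hx1 hx).le (hx2 hx').le).1 (mo_v x) covB60 covB70 hx hx'
        Pool.Agent.Strip051.G.I6500_6900.Tab.C.BA67.c_pm_001 noCut_EA noExt_EA F trivial trivial

theorem BA67_pm_011 {κ x : ℝ} (hκ : κ * h0 = ken x) (hx : ((697932185 : ℕ) : ℝ) / S ≤ x) (hx' : x ≤ (((697932185 : ℕ) : ℝ) + (42949674 : ℕ)) / S) :
    TriA PP.cur (VE (h0 * 0) 3 κ (h0 * x) (eng.v x) (h0 * (3 / 40)) (tnt (h0 * x) (3 / 10)) (tbl tK x) (tbl tL x) (tbl (smT h0⁻¹ tC) x)) 0 1 1 6 7 1 (-1) :=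
  (sideB hx hx').bothA (thrB hx hx') (en_pos (hx1 hx).le) (Or.inl rfl) (Or.inr rfl) fun y y' F =>
    bothA_cert (s1 := true) (s2 := false) rfl hκ (en_pos (hx1 hx).le) (esg_rng (hx1 hx).le (hx2 hx').le).1 (mo_v x) covB60 covB71 hx hx'
        Pool.Agent.Strip051.G.I6500_6900.Tab.C.BA67.c_pm_011 noCut_EA noExt_EA F trivial trivial

theorem BA67_pm_012 {κ x : ℝ} (hκ : κ * h0 = ken x) (hx : ((697932185 : ℕ) : ℝ) / S ≤ x) (hx' : x ≤ (((697932185 : ℕ) : ℝ) + (42949674 : ℕ)) / S) :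
    TriA PP.cur (VE (h0 * 0) 3 κ (h0 * x) (eng.v x) (h0 * (3 / 40)) (tnt (h0 * x) (3 / 10)) (tbl tK x) (tbl tL x) (tbl (smT h0⁻¹ tC) x)) 0 1 2 6 7 1 (-1) :=
  (sideB hx hx').bothA (thrB hx hx') (en_pos (hx1 hx).le) (Or.inl rfl) (Or.inr rfl) fun y y' F =>
    bothA_cert (s1 := true) (s2 := false) rfl hκ (en_pos (hx1 hx).le) (esg_rng (hx1 hx).le (hx2 hx').le).1 (mo_v x) covB60 covB71 hx hx'
        Pool.Agent.Strip051.G.I6500_6900.Tab.C.BA67.c_pm_012 noCut_EA noExt_EA F trivial trivial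

theorem BA67_pm_022 {κ x : ℝ} (hκ : κ * h0 = ken x) (hx : ((697932185 : ℕ) : ℝ) / S ≤ x) (hx' : x ≤ (((697932185 : ℕ) : ℝ) + (42949674 : ℕ)) / S) :
    TriA PP.cur (VE (h0 * 0) 3 κ (h0 * x) (eng.v x) (h0 * (3 / 40)) (tnt (h0 * x) (3 / 10)) (tbl tK x) (tbl tL x) (tbl (smT h0⁻¹ tC) x)) 0 2 2 6 7 1 (-1) :=
  (sideB hx hx').bothA (thrB hx hx') (en_pos (hx1 hx).le) (Or.inl rfl) (Or.inr rfl) fun y y' F =>
    bothA_cert (s1 := true) (s2 := false) rfl hκ (en_pos (hx1 hx).le) (esg_rng (hx1 hx).le (hx2 hx').le).1 (mo_v x) covB60 covB72 hx hx'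
        Pool.Agent.Strip051.G.I6500_6900.Tab.C.BA67.c_pm_022 noCut_EA noExt_EA F trivial trivial

theorem BA67_pm_023 {κ x : ℝ} (hκ : κ * h0 = ken x) (hx : ((697932185 : ℕ) : ℝ) / S ≤ x) (hx' : x ≤ (((697932185 : ℕ) : ℝ) + (42949674 : ℕ)) / S) :
    TriA PP.cur (VE (h0 * 0) 3 κ (h0 * x) (eng.v x) (h0 * (3 / 40)) (tnt (h0 * x) (3 / 10)) (tbl tK x) (tbl tL x) (tbl (smT h0⁻¹ tC) x)) 0 2 3 6 7 1 (-1) :=
  (sideB hx hx').bothA (thrB hx hx') (en_pos (hx1 hx).le) (Or.inl rfl) (Or.inr rfl) fun y y' F =>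
    bothA_cert (s1 := true) (s2 := false) rfl hκ (en_pos (hx1 hx).le) (esg_rng (hx1 hx).le (hx2 hx').le).1 (mo_v x) covB60 covB72 hx hx'
        Pool.Agent.Strip051.G.I6500_6900.Tab.C.BA67.c_pm_023 noCut_EA noExt_EA F trivial trivial

theorem BA67_pm_033 {κ x : ℝ} (hκ : κ * h0 = ken x) (hx : ((697932185 : ℕ) : ℝ) / S ≤ x) (hx' : x ≤ (((697932185 : ℕ) : ℝ) + (42949674 : ℕ)) / S) :
    TriA PP.cur (VE (h0 * 0) 3 κ (h0 * x) (eng.v x) (h0 * (3 / 40)) (tnt (h0 * x) (3 / 10)) (tbl tK x) (tbl tL x) (tbl (smT h0⁻¹ tC) x)) 0 3 3 6 7 1 (-1) :=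
  (sideB hx hx').bothA (thrB hx hx') (en_pos (hx1 hx).le) (Or.inl rfl) (Or.inr rfl) fun y y' F =>
    bothA_cert (s1 := true) (s2 := false) rfl hκ (en_pos (hx1 hx).le) (esg_rng (hx1 hx).le (hx2 hx').le).1 (mo_v x) covB60 covB73 hx hx'
        Pool.Agent.Strip051.G.I6500_6900.Tab.C.BA67.c_pm_033 noCut_EA noExt_EA F trivial trivial

theorem BA67_pm_101 {κ x : ℝ} (hκ : κ * h0 = ken x) (hx : ((697932185 : ℕ) : ℝ) / S ≤ x) (hx' : x ≤ (((697932185 : ℕ) : ℝ) + (42949674 : ℕ)) / S) :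
    TriA PP.cur (VE (h0 * 0) 3 κ (h0 * x) (eng.v x) (h0 * (3 / 40)) (tnt (h0 * x) (3 / 10)) (tbl tK x) (tbl tL x) (tbl (smT h0⁻¹ tC) x)) 1 0 1 6 7 1 (-1) :=
  (sideB hx hx').bothA (thrB hx hx') (en_pos (hx1 hx).le) (Or.inl rfl) (Or.inr rfl) fun y y' F =>
    bothA_cert (s1 := true) (s2 := false) rfl hκ (en_pos (hx1 hx).le) (esg_rng (hx1 hx).le (hx2 hx').le).1 (mo_v x) covB61 covB70 hx hx'
        Pool.Agent.Strip051.G.I6500_6900.Tab.C.BA67.c_pm_101 noCut_EA noExt_EA F trivial trivial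

theorem BA67_pm_102 {κ x : ℝ} (hκ : κ * h0 = ken x) (hx : ((697932185 : ℕ) : ℝ) / S ≤ x) (hx' : x ≤ (((697932185 : ℕ) : ℝ) + (42949674 : ℕ)) / S) :
    TriA PP.cur (VE (h0 * 0) 3 κ (h0 * x) (eng.v x) (h0 * (3 / 40)) (tnt (h0 * x) (3 / 10)) (tbl tK x) (tbl tL x) (tbl (smT h0⁻¹ tC) x)) 1 0 2 6 7 1 (-1) :=
  (sideB hx hx').bothA (thrB hx hx') (en_pos (hx1 hx).le) (Or.inl rfl) (Or.inr rfl) fun y y' F =>
    bothA_cert (s1 := true) (s2 := false) rfl hκ (en_pos (hx1 hx).le) (esg_rng (hx1 hx).le (hx2 hx').le).1 (mo_v x) covB61 covB70 hx hx'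
        Pool.Agent.Strip051.G.I6500_6900.Tab.C.BA67.c_pm_102 noCut_EA noExt_EA F trivial trivial

theorem BA67_pm_112 {κ x : ℝ} (hκ : κ * h0 = ken x) (hx : ((697932185 : ℕ) : ℝ) / S ≤ x) (hx' : x ≤ (((697932185 : ℕ) : ℝ) + (42949674 : ℕ)) / S) :
    TriA PP.cur (VE (h0 * 0) 3 κ (h0 * x) (eng.v x) (h0 * (3 / 40)) (tnt (h0 * x) (3 / 10)) (tbl tK x) (tbl tL x) (tbl (smT h0⁻¹ tC) x)) 1 1 2 6 7 1 (-1) :=
  (sideB hx hx').bothA (thrB hx hx') (en_pos (hx1 hx).le) (Or.inl rfl) (Or.inr rfl) fun y y' F =>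
    bothA_cert (s1 := true) (s2 := false) rfl hκ (en_pos (hx1 hx).le) (esg_rng (hx1 hx).le (hx2 hx').le).1 (mo_v x) covB61 covB71 hx hx'
        Pool.Agent.Strip051.G.I6500_6900.Tab.C.BA67.c_pm_112 noCut_EA noExt_EA F trivial trivial

theorem BA67_pm_113 {κ x : ℝ} (hκ : κ * h0 = ken x) (hx : ((697932185 : ℕ) : ℝ) / S ≤ x) (hx' : x ≤ (((697932185 : ℕ) : ℝ) + (42949674 : ℕ)) / S) :
    TriA PP.cur (VE (h0 * 0) 3 κ (h0 * x) (eng.v x) (h0 * (3 / 40)) (tnt (h0 * x) (3 / 10)) (tbl tK x) (tbl tL x) (tbl (smT h0⁻¹ tC) x)) 1 1 3 6 7 1 (-1) :=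
  (sideB hx hx').bothA (thrB hx hx') (en_pos (hx1 hx).le) (Or.inl rfl) (Or.inr rfl) fun y y' F =>
    bothA_cert (s1 := true) (s2 := false) rfl hκ (en_pos (hx1 hx).le) (esg_rng (hx1 hx).le (hx2 hx').le).1 (mo_v x) covB61 covB71 hx hx'
        Pool.Agent.Strip051.G.I6500_6900.Tab.C.BA67.c_pm_113 noCut_EA noExt_EA F trivial trivial

theorem BA67_pm_123 {κ x : ℝ} (hκ : κ * h0 = ken x) (hx : ((697932185 : ℕ) : ℝ) / S ≤ x) (hx' : x ≤ (((697932185 : ℕ) : ℝ) + (42949674 : ℕ)) / S) :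
    TriA PP.cur (VE (h0 * 0) 3 κ (h0 * x) (eng.v x) (h0 * (3 / 40)) (tnt (h0 * x) (3 / 10)) (tbl tK x) (tbl tL x) (tbl (smT h0⁻¹ tC) x)) 1 2 3 6 7 1 (-1) :=
  (sideB hx hx').bothA (thrB hx hx') (en_pos (hx1 hx).le) (Or.inl rfl) (Or.inr rfl) fun y y' F =>
    bothA_cert (s1 := true) (s2 := false) rfl hκ (en_pos (hx1 hx).le) (esg_rng (hx1 hx).le (hx2 hx').le).1 (mo_v x) covB61 covB72 hx hx'
        Pool.Agent.Strip051.G.I6500_6900.Tab.C.BA67.c_pm_123 noCut_EA noExt_EA F trivial trivial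

theorem BA67_pm_133 {κ x : ℝ} (hκ : κ * h0 = ken x) (hx : ((697932185 : ℕ) : ℝ) / S ≤ x) (hx' : x ≤ (((697932185 : ℕ) : ℝ) + (42949674 : ℕ)) / S) :
    TriA PP.cur (VE (h0 * 0) 3 κ (h0 * x) (eng.v x) (h0 * (3 / 40)) (tnt (h0 * x) (3 / 10)) (tbl tK x) (tbl tL x) (tbl (smT h0⁻¹ tC) x)) 1 3 3 6 7 1 (-1) :=
  (sideB hx hx').bothA (thrB hx hx') (en_pos (hx1 hx).le) (Or.inl rfl) (Or.inr rfl) fun y y' F =>
    bothA_cert (s1 := true) (s2 := false) rfl hκ (en_pos (hx1 hx).le) (esg_rng (hx1 hx).le (hx2 hx').le).1 (mo_v x) covB61 covB73 hx hx'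
        Pool.Agent.Strip051.G.I6500_6900.Tab.C.BA67.c_pm_133 noCut_EA noExt_EA F trivial trivial

theorem BA67_pm_202 {κ x : ℝ} (hκ : κ * h0 = ken x) (hx : ((697932185 : ℕ) : ℝ) / S ≤ x) (hx' : x ≤ (((697932185 : ℕ) : ℝ) + (42949674 : ℕ)) / S) :
    TriA PP.cur (VE (h0 * 0) 3 κ (h0 * x) (eng.v x) (h0 * (3 / 40)) (tnt (h0 * x) (3 / 10)) (tbl tK x) (tbl tL x) (tbl (smT h0⁻¹ tC) x)) 2 0 2 6 7 1 (-1) :=
  (sideB hx hx').bothA (thrB hx hx') (en_pos (hx1 hx).le) (Or.inl rfl) (Or.inr rfl) fun y y' F =>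
    bothA_cert (s1 := true) (s2 := false) rfl hκ (en_pos (hx1 hx).le) (esg_rng (hx1 hx).le (hx2 hx').le).1 (mo_v x) covB62 covB70 hx hx'
        Pool.Agent.Strip051.G.I6500_6900.Tab.C.BA67.c_pm_202 noCut_EA noExt_EA F trivial trivial

theorem BA67_pm_203 {κ x : ℝ} (hκ : κ * h0 = ken x) (hx : ((697932185 : ℕ) : ℝ) / S ≤ x) (hx' : x ≤ (((697932185 : ℕ) : ℝ) + (42949674 : ℕ)) / S) :
    TriA PP.cur (VE (h0 * 0) 3 κ (h0 * x) (eng.v x) (h0 * (3 / 40)) (tnt (h0 * x) (3 / 10)) (tbl tK x) (tbl tL x) (tbl (smT h0⁻¹ tC) x)) 2 0 3 6 7 1 (-1) :=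
  (sideB hx hx').bothA (thrB hx hx') (en_pos (hx1 hx).le) (Or.inl rfl) (Or.inr rfl) fun y y' F =>
    bothA_cert (s1 := true) (s2 := false) rfl hκ (en_pos (hx1 hx).le) (esg_rng (hx1 hx).le (hx2 hx').le).1 (mo_v x) covB62 covB70 hx hx'
        Pool.Agent.Strip051.G.I6500_6900.Tab.C.BA67.c_pm_203 noCut_EA noExt_EA F trivial trivial

theorem BA67_pm_213 {κ x : ℝ} (hκ : κ * h0 = ken x) (hx : ((697932185 : ℕ) : ℝ) / S ≤ x) (hx' : x ≤ (((697932185 : ℕ) : ℝ) + (42949674 : ℕ)) / S) :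
    TriA PP.cur (VE (h0 * 0) 3 κ (h0 * x) (eng.v x) (h0 * (3 / 40)) (tnt (h0 * x) (3 / 10)) (tbl tK x) (tbl tL x) (tbl (smT h0⁻¹ tC) x)) 2 1 3 6 7 1 (-1) :=
  (sideB hx hx').bothA (thrB hx hx') (en_pos (hx1 hx).le) (Or.inl rfl) (Or.inr rfl) fun y y' F =>
    bothA_cert (s1 := true) (s2 := false) rfl hκ (en_pos (hx1 hx).le) (esg_rng (hx1 hx).le (hx2 hx').le).1 (mo_v x) covB62 covB71 hx hx'
        Pool.Agent.Strip051.G.I6500_6900.Tab.C.BA67.c_pm_213 noCut_EA noExt_EA F trivial trivial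

theorem BA67_pm_303 {κ x : ℝ} (hκ : κ * h0 = ken x) (hx : ((697932185 : ℕ) : ℝ) / S ≤ x) (hx' : x ≤ (((697932185 : ℕ) : ℝ) + (42949674 : ℕ)) / S) :
    TriA PP.cur (VE (h0 * 0) 3 κ (h0 * x) (eng.v x) (h0 * (3 / 40)) (tnt (h0 * x) (3 / 10)) (tbl tK x) (tbl tL x) (tbl (smT h0⁻¹ tC) x)) 3 0 3 6 7 1 (-1) :=
  (sideB hx hx').bothA (thrB hx hx') (en_pos (hx1 hx).le) (Or.inl rfl) (Or.inr rfl) fun y y' F =>
    bothA_cert (s1 := true) (s2 := false) rfl hκ (en_pos (hx1 hx).le) (esg_rng (hx1 hx).le (hx2 hx').le).1 (mo_v x) covB63 covB70 hx hx'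
        Pool.Agent.Strip051.G.I6500_6900.Tab.C.BA67.c_pm_303 noCut_EA noExt_EA F trivial trivial

theorem BA67_pm_313 {κ x : ℝ} (hκ : κ * h0 = ken x) (hx : ((697932185 : ℕ) : ℝ) / S ≤ x) (hx' : x ≤ (((697932185 : ℕ) : ℝ) + (42949674 : ℕ)) / S) :
    TriA PP.cur (VE (h0 * 0) 3 κ (h0 * x) (eng.v x) (h0 * (3 / 40)) (tnt (h0 * x) (3 / 10)) (tbl tK x) (tbl tL x) (tbl (smT h0⁻¹ tC) x)) 3 1 3 6 7 1 (-1) :=
  (sideB hx hx').bothA (thrB hx hx') (en_pos (hx1 hx).le) (Or.inl rfl) (Or.inr rfl) fun y y' F =>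
    bothA_cert (s1 := true) (s2 := false) rfl hκ (en_pos (hx1 hx).le) (esg_rng (hx1 hx).le (hx2 hx').le).1 (mo_v x) covB63 covB71 hx hx'
        Pool.Agent.Strip051.G.I6500_6900.Tab.C.BA67.c_pm_313 noCut_EA noExt_EA F trivial trivial

theorem BA67_mm_001 {κ x : ℝ} (hκ : κ * h0 = ken x) (hx : ((697932185 : ℕ) : ℝ) / S ≤ x) (hx' : x ≤ (((697932185 : ℕ) : ℝ) + (42949674 : ℕ)) / S) :
    TriA PP.cur (VE (h0 * 0) 3 κ (h0 * x) (eng.v x) (h0 * (3 / 40)) (tnt (h0 * x) (3 / 10)) (tbl tK x) (tbl tL x) (tbl (smT h0⁻¹ tC) x)) 0 0 1 6 7 (-1) (-1) :=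
  (sideB hx hx').bothA (thrB hx hx') (en_pos (hx1 hx).le) (Or.inr rfl) (Or.inr rfl) fun y y' F =>
    bothA_cert (s1 := false) (s2 := false) rfl hκ (en_pos (hx1 hx).le) (esg_rng (hx1 hx).le (hx2 hx').le).1 (mo_v x) covB60 covB70 hx hx'
        Pool.Agent.Strip051.G.I6500_6900.Tab.C.BA67.c_mm_001 noCut_EA noExt_EA F trivial trivial

theorem BA67_mm_011 {κ x : ℝ} (hκ : κ * h0 = ken x) (hx : ((697932185 : ℕ) : ℝ) / S ≤ x) (hx' : x ≤ (((697932185 : ℕ) : ℝ) + (42949674 : ℕ)) / S) :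
    TriA PP.cur (VE (h0 * 0) 3 κ (h0 * x) (eng.v x) (h0 * (3 / 40)) (tnt (h0 * x) (3 / 10)) (tbl tK x) (tbl tL x) (tbl (smT h0⁻¹ tC) x)) 0 1 1 6 7 (-1) (-1) :=
  (sideB hx hx').bothA (thrB hx hx') (en_pos (hx1 hx).le) (Or.inr rfl) (Or.inr rfl) fun y y' F =>
    bothA_cert (s1 := false) (s2 := false) rfl hκ (en_pos (hx1 hx).le) (esg_rng (hx1 hx).le (hx2 hx').le).1 (mo_v x) covB60 covB71 hx hx'
        Pool.Agent.Strip051.G.I6500_6900.Tab.C.BA67.c_mm_011 noCut_EA noExt_EA F trivial trivial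

theorem BA67_mm_012 {κ x : ℝ} (hκ : κ * h0 = ken x) (hx : ((697932185 : ℕ) : ℝ) / S ≤ x) (hx' : x ≤ (((697932185 : ℕ) : ℝ) + (42949674 : ℕ)) / S) :
    TriA PP.cur (VE (h0 * 0) 3 κ (h0 * x) (eng.v x) (h0 * (3 / 40)) (tnt (h0 * x) (3 / 10)) (tbl tK x) (tbl tL x) (tbl (smT h0⁻¹ tC) x)) 0 1 2 6 7 (-1) (-1) :=
  (sideB hx hx').bothA (thrB hx hx') (en_pos (hx1 hx).le) (Or.inr rfl) (Or.inr rfl) fun y y' F =>
    bothA_cert (s1 := false) (s2 := false) rfl hκ (en_pos (hx1 hx).le) (esg_rng (hx1 hx).le (hx2 hx').le).1 (mo_v x) covB60 covB71 hx hx'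
        Pool.Agent.Strip051.G.I6500_6900.Tab.C.BA67.c_mm_012 noCut_EA noExt_EA F trivial trivial

theorem BA67_mm_022 {κ x : ℝ} (hκ : κ * h0 = ken x) (hx : ((697932185 : ℕ) : ℝ) / S ≤ x) (hx' : x ≤ (((697932185 : ℕ) : ℝ) + (42949674 : ℕ)) / S) :
    TriA PP.cur (VE (h0 * 0) 3 κ (h0 * x) (eng.v x) (h0 * (3 / 40)) (tnt (h0 * x) (3 / 10)) (tbl tK x) (tbl tL x) (tbl (smT h0⁻¹ tC) x)) 0 2 2 6 7 (-1) (-1) :=
  (sideB hx hx').bothA (thrB hx hx') (en_pos (hx1 hx).le) (Or.inr rfl) (Or.inr rfl) fun y y' F =>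
    bothA_cert (s1 := false) (s2 := false) rfl hκ (en_pos (hx1 hx).le) (esg_rng (hx1 hx).le (hx2 hx').le).1 (mo_v x) covB60 covB72 hx hx'
        Pool.Agent.Strip051.G.I6500_6900.Tab.C.BA67.c_mm_022 noCut_EA noExt_EA F trivial trivial

theorem BA67_mm_023 {κ x : ℝ} (hκ : κ * h0 = ken x) (hx : ((697932185 : ℕ) : ℝ) / S ≤ x) (hx' : x ≤ (((697932185 : ℕ) : ℝ) + (42949674 : ℕ)) / S) :
    TriA PP.cur (VE (h0 * 0) 3 κ (h0 * x) (eng.v x) (h0 * (3 / 40)) (tnt (h0 * x) (3 / 10)) (tbl tK x) (tbl tL x) (tbl (smT h0⁻¹ tC) x)) 0 2 3 6 7 (-1) (-1) :=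
  (sideB hx hx').bothA (thrB hx hx') (en_pos (hx1 hx).le) (Or.inr rfl) (Or.inr rfl) fun y y' F =>
    bothA_cert (s1 := false) (s2 := false) rfl hκ (en_pos (hx1 hx).le) (esg_rng (hx1 hx).le (hx2 hx').le).1 (mo_v x) covB60 covB72 hx hx'
        Pool.Agent.Strip051.G.I6500_6900.Tab.C.BA67.c_mm_023 noCut_EA noExt_EA F trivial trivial

theorem BA67_mm_033 {κ x : ℝ} (hκ : κ * h0 = ken x) (hx : ((697932185 : ℕ) : ℝ) / S ≤ x) (hx' : x ≤ (((697932185 : ℕ) : ℝ) + (42949674 : ℕ)) / S) :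
    TriA PP.cur (VE (h0 * 0) 3 κ (h0 * x) (eng.v x) (h0 * (3 / 40)) (tnt (h0 * x) (3 / 10)) (tbl tK x) (tbl tL x) (tbl (smT h0⁻¹ tC) x)) 0 3 3 6 7 (-1) (-1) :=
  (sideB hx hx').bothA (thrB hx hx') (en_pos (hx1 hx).le) (Or.inr rfl) (Or.inr rfl) fun y y' F =>
    bothA_cert (s1 := false) (s2 := false) rfl hκ (en_pos (hx1 hx).le) (esg_rng (hx1 hx).le (hx2 hx').le).1 (mo_v x) covB60 covB73 hx hx'
        Pool.Agent.Strip051.G.I6500_6900.Tab.C.BA67.c_mm_033 noCut_EA noExt_EA F trivial trivial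

theorem BA67_mm_101 {κ x : ℝ} (hκ : κ * h0 = ken x) (hx : ((697932185 : ℕ) : ℝ) / S ≤ x) (hx' : x ≤ (((697932185 : ℕ) : ℝ) + (42949674 : ℕ)) / S) :
    TriA PP.cur (VE (h0 * 0) 3 κ (h0 * x) (eng.v x) (h0 * (3 / 40)) (tnt (h0 * x) (3 / 10)) (tbl tK x) (tbl tL x) (tbl (smT h0⁻¹ tC) x)) 1 0 1 6 7 (-1) (-1) :=
  (sideB hx hx').bothA (thrB hx hx') (en_pos (hx1 hx).le) (Or.inr rfl) (Or.inr rfl) fun y y' F =>
    bothA_cert (s1 := false) (s2 := false) rfl hκ (en_pos (hx1 hx).le) (esg_rng (hx1 hx).le (hx2 hx').le).1 (mo_v x) covB61 covB70 hx hx'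
        Pool.Agent.Strip051.G.I6500_6900.Tab.C.BA67.c_mm_101 noCut_EA noExt_EA F trivial trivial

theorem BA67_mm_102 {κ x : ℝ} (hκ : κ * h0 = ken x) (hx : ((697932185 : ℕ) : ℝ) / S ≤ x) (hx' : x ≤ (((697932185 : ℕ) : ℝ) + (42949674 : ℕ)) / S) :
    TriA PP.cur (VE (h0 * 0) 3 κ (h0 * x) (eng.v x) (h0 * (3 / 40)) (tnt (h0 * x) (3 / 10)) (tbl tK x) (tbl tL x) (tbl (smT h0⁻¹ tC) x)) 1 0 2 6 7 (-1) (-1) :=
  (sideB hx hx').bothA (thrB hx hx') (en_pos (hx1 hx).le) (Or.inr rfl) (Or.inr rfl) fun y y' F =>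
    bothA_cert (s1 := false) (s2 := false) rfl hκ (en_pos (hx1 hx).le) (esg_rng (hx1 hx).le (hx2 hx').le).1 (mo_v x) covB61 covB70 hx hx'
        Pool.Agent.Strip051.G.I6500_6900.Tab.C.BA67.c_mm_102 noCut_EA noExt_EA F trivial trivial

theorem BA67_mm_112 {κ x : ℝ} (hκ : κ * h0 = ken x) (hx : ((697932185 : ℕ) : ℝ) / S ≤ x) (hx' : x ≤ (((697932185 : ℕ) : ℝ) + (42949674 : ℕ)) / S) :
    TriA PP.cur (VE (h0 * 0) 3 κ (h0 * x) (eng.v x) (h0 * (3 / 40)) (tnt (h0 * x) (3 / 10)) (tbl tK x) (tbl tL x) (tbl (smT h0⁻¹ tC) x)) 1 1 2 6 7 (-1) (-1) :=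
  (sideB hx hx').bothA (thrB hx hx') (en_pos (hx1 hx).le) (Or.inr rfl) (Or.inr rfl) fun y y' F =>
    bothA_cert (s1 := false) (s2 := false) rfl hκ (en_pos (hx1 hx).le) (esg_rng (hx1 hx).le (hx2 hx').le).1 (mo_v x) covB61 covB71 hx hx'
        Pool.Agent.Strip051.G.I6500_6900.Tab.C.BA67.c_mm_112 noCut_EA noExt_EA F trivial trivial

theorem BA67_mm_113 {κ x : ℝ} (hκ : κ * h0 = ken x) (hx : ((697932185 : ℕ) : ℝ) / S ≤ x) (hx' : x ≤ (((697932185 : ℕ) : ℝ) + (42949674 : ℕ)) / S) :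
    TriA PP.cur (VE (h0 * 0) 3 κ (h0 * x) (eng.v x) (h0 * (3 / 40)) (tnt (h0 * x) (3 / 10)) (tbl tK x) (tbl tL x) (tbl (smT h0⁻¹ tC) x)) 1 1 3 6 7 (-1) (-1) :=
  (sideB hx hx').bothA (thrB hx hx') (en_pos (hx1 hx).le) (Or.inr rfl) (Or.inr rfl) fun y y' F =>
    bothA_cert (s1 := false) (s2 := false) rfl hκ (en_pos (hx1 hx).le) (esg_rng (hx1 hx).le (hx2 hx').le).1 (mo_v x) covB61 covB71 hx hx'
        Pool.Agent.Strip051.G.I6500_6900.Tab.C.BA67.c_mm_113 noCut_EA noExt_EA F trivial trivial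

theorem BA67_mm_123 {κ x : ℝ} (hκ : κ * h0 = ken x) (hx : ((697932185 : ℕ) : ℝ) / S ≤ x) (hx' : x ≤ (((697932185 : ℕ) : ℝ) + (42949674 : ℕ)) / S) :
    TriA PP.cur (VE (h0 * 0) 3 κ (h0 * x) (eng.v x) (h0 * (3 / 40)) (tnt (h0 * x) (3 / 10)) (tbl tK x) (tbl tL x) (tbl (smT h0⁻¹ tC) x)) 1 2 3 6 7 (-1) (-1) :=
  (sideB hx hx').bothA (thrB hx hx') (en_pos (hx1 hx).le) (Or.inr rfl) (Or.inr rfl) fun y y' F =>
    bothA_cert (s1 := false) (s2 := false) rfl hκ (en_pos (hx1 hx).le) (esg_rng (hx1 hx).le (hx2 hx').le).1 (mo_v x) covB61 covB72 hx hx'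
        Pool.Agent.Strip051.G.I6500_6900.Tab.C.BA67.c_mm_123 noCut_EA noExt_EA F trivial trivial

theorem BA67_mm_133 {κ x : ℝ} (hκ : κ * h0 = ken x) (hx : ((697932185 : ℕ) : ℝ) / S ≤ x) (hx' : x ≤ (((697932185 : ℕ) : ℝ) + (42949674 : ℕ)) / S) :
    TriA PP.cur (VE (h0 * 0) 3 κ (h0 * x) (eng.v x) (h0 * (3 / 40)) (tnt (h0 * x) (3 / 10)) (tbl tK x) (tbl tL x) (tbl (smT h0⁻¹ tC) x)) 1 3 3 6 7 (-1) (-1) :=
  (sideB hx hx').bothA (thrB hx hx') (en_pos (hx1 hx).le) (Or.inr rfl) (Or.inr rfl) fun y y' F =>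
    bothA_cert (s1 := false) (s2 := false) rfl hκ (en_pos (hx1 hx).le) (esg_rng (hx1 hx).le (hx2 hx').le).1 (mo_v x) covB61 covB73 hx hx'
        Pool.Agent.Strip051.G.I6500_6900.Tab.C.BA67.c_mm_133 noCut_EA noExt_EA F trivial trivial

theorem BA67_mm_202 {κ x : ℝ} (hκ : κ * h0 = ken x) (hx : ((697932185 : ℕ) : ℝ) / S ≤ x) (hx' : x ≤ (((697932185 : ℕ) : ℝ) + (42949674 : ℕ)) / S) :
    TriA PP.cur (VE (h0 * 0) 3 κ (h0 * x) (eng.v x) (h0 * (3 / 40)) (tnt (h0 * x) (3 / 10)) (tbl tK x) (tbl tL x) (tbl (smT h0⁻¹ tC) x)) 2 0 2 6 7 (-1) (-1) :=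
  (sideB hx hx').bothA (thrB hx hx') (en_pos (hx1 hx).le) (Or.inr rfl) (Or.inr rfl) fun y y' F =>
    bothA_cert (s1 := false) (s2 := false) rfl hκ (en_pos (hx1 hx).le) (esg_rng (hx1 hx).le (hx2 hx').le).1 (mo_v x) covB62 covB70 hx hx'
        Pool.Agent.Strip051.G.I6500_6900.Tab.C.BA67.c_mm_202 noCut_EA noExt_EA F trivial trivial

theorem BA67_mm_203 {κ x : ℝ} (hκ : κ * h0 = ken x) (hx : ((697932185 : ℕ) : ℝ) / S ≤ x) (hx' : x ≤ (((697932185 : ℕ) : ℝ) + (42949674 : ℕ)) / S) :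
    TriA PP.cur (VE (h0 * 0) 3 κ (h0 * x) (eng.v x) (h0 * (3 / 40)) (tnt (h0 * x) (3 / 10)) (tbl tK x) (tbl tL x) (tbl (smT h0⁻¹ tC) x)) 2 0 3 6 7 (-1) (-1) :=
  (sideB hx hx').bothA (thrB hx hx') (en_pos (hx1 hx).le) (Or.inr rfl) (Or.inr rfl) fun y y' F =>
    bothA_cert (s1 := false) (s2 := false) rfl hκ (en_pos (hx1 hx).le) (esg_rng (hx1 hx).le (hx2 hx').le).1 (mo_v x) covB62 covB70 hx hx'
        Pool.Agent.Strip051.G.I6500_6900.Tab.C.BA67.c_mm_203 noCut_EA noExt_EA F trivial trivial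

theorem BA67_mm_213 {κ x : ℝ} (hκ : κ * h0 = ken x) (hx : ((697932185 : ℕ) : ℝ) / S ≤ x) (hx' : x ≤ (((697932185 : ℕ) : ℝ) + (42949674 : ℕ)) / S) :
    TriA PP.cur (VE (h0 * 0) 3 κ (h0 * x) (eng.v x) (h0 * (3 / 40)) (tnt (h0 * x) (3 / 10)) (tbl tK x) (tbl tL x) (tbl (smT h0⁻¹ tC) x)) 2 1 3 6 7 (-1) (-1) :=
  (sideB hx hx').bothA (thrB hx hx') (en_pos (hx1 hx).le) (Or.inr rfl) (Or.inr rfl) fun y y' F =>
    bothA_cert (s1 := false) (s2 := false) rfl hκ (en_pos (hx1 hx).le) (esg_rng (hx1 hx).le (hx2 hx').le).1 (mo_v x) covB62 covB71 hx hx'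
        Pool.Agent.Strip051.G.I6500_6900.Tab.C.BA67.c_mm_213 noCut_EA noExt_EA F trivial trivial

theorem BA67_mm_303 {κ x : ℝ} (hκ : κ * h0 = ken x) (hx : ((697932185 : ℕ) : ℝ) / S ≤ x) (hx' : x ≤ (((697932185 : ℕ) : ℝ) + (42949674 : ℕ)) / S) :
    TriA PP.cur (VE (h0 * 0) 3 κ (h0 * x) (eng.v x) (h0 * (3 / 40)) (tnt (h0 * x) (3 / 10)) (tbl tK x) (tbl tL x) (tbl (smT h0⁻¹ tC) x)) 3 0 3 6 7 (-1) (-1) :=
  (sideB hx hx').bothA (thrB hx hx') (en_pos (hx1 hx).le) (Or.inr rfl) (Or.inr rfl) fun y y' F =>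
    bothA_cert (s1 := false) (s2 := false) rfl hκ (en_pos (hx1 hx).le) (esg_rng (hx1 hx).le (hx2 hx').le).1 (mo_v x) covB63 covB70 hx hx'
        Pool.Agent.Strip051.G.I6500_6900.Tab.C.BA67.c_mm_303 noCut_EA noExt_EA F trivial trivial

theorem BA67_mm_313 {κ x : ℝ} (hκ : κ * h0 = ken x) (hx : ((697932185 : ℕ) : ℝ) / S ≤ x) (hx' : x ≤ (((697932185 : ℕ) : ℝ) + (42949674 : ℕ)) / S) :
    TriA PP.cur (VE (h0 * 0) 3 κ (h0 * x) (eng.v x) (h0 * (3 / 40)) (tnt (h0 * x) (3 / 10)) (tbl tK x) (tbl tL x) (tbl (smT h0⁻¹ tC) x)) 3 1 3 6 7 (-1) (-1) :=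
  (sideB hx hx').bothA (thrB hx hx') (en_pos (hx1 hx).le) (Or.inr rfl) (Or.inr rfl) fun y y' F =>
    bothA_cert (s1 := false) (s2 := false) rfl hκ (en_pos (hx1 hx).le) (esg_rng (hx1 hx).le (hx2 hx').le).1 (mo_v x) covB63 covB71 hx hx'
        Pool.Agent.Strip051.G.I6500_6900.Tab.C.BA67.c_mm_313 noCut_EA noExt_EA F trivial trivial

theorem BA67 {κ x : ℝ} (hκ : κ * h0 = ken x) (hx : ((697932185 : ℕ) : ℝ) / S ≤ x) (hx' : x ≤ (((697932185 : ℕ) : ℝ) + (42949674 : ℕ)) / S) : AllTA PP.cur (VE (h0 * 0) 3 κ (h0 * x) (eng.v x) (h0 * (3 / 40)) (tnt (h0 * x) (3 / 10)) (tbl tK x) (tbl tL x) (tbl (smT h0⁻¹ tC) x)) 6 7 where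
  pp := all17 (Q := fun a b c => TriA PP.cur (VE (h0 * 0) 3 κ (h0 * x) (eng.v x) (h0 * (3 / 40)) (tnt (h0 * x) (3 / 10)) (tbl tK x) (tbl tL x) (tbl (smT h0⁻¹ tC) x)) a b c 6 7 1 1)
    (BA67_pp_001 hκ hx hx') (BA67_pp_011 hκ hx hx') (BA67_pp_012 hκ hx hx') (BA67_pp_022 hκ hx hx') (BA67_pp_023 hκ hx hx') (BA67_pp_033 hκ hx hx') (BA67_pp_101 hκ hx hx') (BA67_pp_102 hκ hx hx') (BA67_pp_112 hκ hx hx') (BA67_pp_113 hκ hx hx') (BA67_pp_123 hκ hx hx') (BA67_pp_133 hκ hx hx') (BA67_pp_202 hκ hx hx') (BA67_pp_203 hκ hx hx') (BA67_pp_213 hκ hx hx') (BA67_pp_303 hκ hx hx') (BA67_pp_313 hκ hx hx')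
  pm := all17 (Q := fun a b c => TriA PP.cur (VE (h0 * 0) 3 κ (h0 * x) (eng.v x) (h0 * (3 / 40)) (tnt (h0 * x) (3 / 10)) (tbl tK x) (tbl tL x) (tbl (smT h0⁻¹ tC) x)) a b c 6 7 1 (-1))
    (BA67_pm_001 hκ hx hx') (BA67_pm_011 hκ hx hx') (BA67_pm_012 hκ hx hx') (BA67_pm_022 hκ hx hx') (BA67_pm_023 hκ hx hx') (BA67_pm_033 hκ hx hx') (BA67_pm_101 hκ hx hx') (BA67_pm_102 hκ hx hx') (BA67_pm_112 hκ hx hx') (BA67_pm_113 hκ hx hx') (BA67_pm_123 hκ hx hx') (BA67_pm_133 hκ hx hx') (BA67_pm_202 hκ hx hx') (BA67_pm_203 hκ hx hx') (BA67_pm_213 hκ hx hx') (BA67_pm_303 hκ hx hx') (BA67_pm_313 hκ hx hx')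
  mm := all17 (Q := fun a b c => TriA PP.cur (VE (h0 * 0) 3 κ (h0 * x) (eng.v x) (h0 * (3 / 40)) (tnt (h0 * x) (3 / 10)) (tbl tK x) (tbl tL x) (tbl (smT h0⁻¹ tC) x)) a b c 6 7 (-1) (-1))
    (BA67_mm_001 hκ hx hx') (BA67_mm_011 hκ hx hx') (BA67_mm_012 hκ hx hx') (BA67_mm_022 hκ hx hx') (BA67_mm_023 hκ hx hx') (BA67_mm_033 hκ hx hx') (BA67_mm_101 hκ hx hx') (BA67_mm_102 hκ hx hx') (BA67_mm_112 hκ hx hx') (BA67_mm_113 hκ hx hx') (BA67_mm_123 hκ hx hx') (BA67_mm_133 hκ hx hx') (BA67_mm_202 hκ hx hx') (BA67_mm_203 hκ hx hx') (BA67_mm_213 hκ hx hx') (BA67_mm_303 hκ hx hx') (BA67_mm_313 hκ hx hx')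

theorem BA77_pp_001 {κ x : ℝ} (hκ : κ * h0 = ken x) (hx : ((697932185 : ℕ) : ℝ) / S ≤ x) (hx' : x ≤ (((697932185 : ℕ) : ℝ) + (42949674 : ℕ)) / S) :
    TriA PP.cur (VE (h0 * 0) 3 κ (h0 * x) (eng.v x) (h0 * (3 / 40)) (tnt (h0 * x) (3 / 10)) (tbl tK x) (tbl tL x) (tbl (smT h0⁻¹ tC) x)) 0 0 1 7 7 1 1 :=
  (sideB hx hx').bothA (thrB hx hx') (en_pos (hx1 hx).le) (Or.inl rfl) (Or.inl rfl) fun y y' F =>
    bothA_cert (s1 := true) (s2 := true) rfl hκ (en_pos (hx1 hx).le) (esg_rng (hx1 hx).le (hx2 hx').le).1 (mo_v x) covB70 covB70 hx hx'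
        Pool.Agent.Strip051.G.I6500_6900.Tab.C.BA77.c_pp_001 noCut_EA noExt_EA F trivial trivial

theorem BA77_pp_011 {κ x : ℝ} (hκ : κ * h0 = ken x) (hx : ((697932185 : ℕ) : ℝ) / S ≤ x) (hx' : x ≤ (((697932185 : ℕ) : ℝ) + (42949674 : ℕ)) / S) :
    TriA PP.cur (VE (h0 * 0) 3 κ (h0 * x) (eng.v x) (h0 * (3 / 40)) (tnt (h0 * x) (3 / 10)) (tbl tK x) (tbl tL x) (tbl (smT h0⁻¹ tC) x)) 0 1 1 7 7 1 1 :=
  (sideB hx hx').bothA (thrB hx hx') (en_pos (hx1 hx).le) (Or.inl rfl) (Or.inl rfl) fun y y' F =>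
    bothA_cert (s1 := true) (s2 := true) rfl hκ (en_pos (hx1 hx).le) (esg_rng (hx1 hx).le (hx2 hx').le).1 (mo_v x) covB70 covB71 hx hx'
        Pool.Agent.Strip051.G.I6500_6900.Tab.C.BA77.c_pp_011 noCut_EA noExt_EA F trivial trivial

theorem BA77_pp_012 {κ x : ℝ} (hκ : κ * h0 = ken x) (hx : ((697932185 : ℕ) : ℝ) / S ≤ x) (hx' : x ≤ (((697932185 : ℕ) : ℝ) + (42949674 : ℕ)) / S) :
    TriA PP.cur (VE (h0 * 0) 3 κ (h0 * x) (eng.v x) (h0 * (3 / 40)) (tnt (h0 * x) (3 / 10)) (tbl tK x) (tbl tL x) (tbl (smT h0⁻¹ tC) x)) 0 1 2 7 7 1 1 :=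
  (sideB hx hx').bothA (thrB hx hx') (en_pos (hx1 hx).le) (Or.inl rfl) (Or.inl rfl) fun y y' F =>
    bothA_cert (s1 := true) (s2 := true) rfl hκ (en_pos (hx1 hx).le) (esg_rng (hx1 hx).le (hx2 hx').le).1 (mo_v x) covB70 covB71 hx hx'
        Pool.Agent.Strip051.G.I6500_6900.Tab.C.BA77.c_pp_012 noCut_EA noExt_EA F trivial trivial

theorem BA77_pp_022 {κ x : ℝ} (hκ : κ * h0 = ken x) (hx : ((697932185 : ℕ) : ℝ) / S ≤ x) (hx' : x ≤ (((697932185 : ℕ) : ℝ) + (42949674 : ℕ)) / S) :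
    TriA PP.cur (VE (h0 * 0) 3 κ (h0 * x) (eng.v x) (h0 * (3 / 40)) (tnt (h0 * x) (3 / 10)) (tbl tK x) (tbl tL x) (tbl (smT h0⁻¹ tC) x)) 0 2 2 7 7 1 1 :=
  (sideB hx hx').bothA (thrB hx hx') (en_pos (hx1 hx).le) (Or.inl rfl) (Or.inl rfl) fun y y' F =>
    bothA_cert (s1 := true) (s2 := true) rfl hκ (en_pos (hx1 hx).le) (esg_rng (hx1 hx).le (hx2 hx').le).1 (mo_v x) covB70 covB72 hx hx'
        Pool.Agent.Strip051.G.I6500_6900.Tab.C.BA77.c_pp_022 noCut_EA noExt_EA F trivial trivial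

theorem BA77_pp_023 {κ x : ℝ} (hκ : κ * h0 = ken x) (hx : ((697932185 : ℕ) : ℝ) / S ≤ x) (hx' : x ≤ (((697932185 : ℕ) : ℝ) + (42949674 : ℕ)) / S) :
    TriA PP.cur (VE (h0 * 0) 3 κ (h0 * x) (eng.v x) (h0 * (3 / 40)) (tnt (h0 * x) (3 / 10)) (tbl tK x) (tbl tL x) (tbl (smT h0⁻¹ tC) x)) 0 2 3 7 7 1 1 :=
  (sideB hx hx').bothA (thrB hx hx') (en_pos (hx1 hx).le) (Or.inl rfl) (Or.inl rfl) fun y y' F =>
    bothA_cert (s1 := true) (s2 := true) rfl hκ (en_pos (hx1 hx).le) (esg_rng (hx1 hx).le (hx2 hx').le).1 (mo_v x) covB70 covB72 hx hx'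
        Pool.Agent.Strip051.G.I6500_6900.Tab.C.BA77.c_pp_023 noCut_EA noExt_EA F trivial trivial

theorem BA77_pp_033 {κ x : ℝ} (hκ : κ * h0 = ken x) (hx : ((697932185 : ℕ) : ℝ) / S ≤ x) (hx' : x ≤ (((697932185 : ℕ) : ℝ) + (42949674 : ℕ)) / S) :
    TriA PP.cur (VE (h0 * 0) 3 κ (h0 * x) (eng.v x) (h0 * (3 / 40)) (tnt (h0 * x) (3 / 10)) (tbl tK x) (tbl tL x) (tbl (smT h0⁻¹ tC) x)) 0 3 3 7 7 1 1 :=
  (sideB hx hx').bothA (thrB hx hx') (en_pos (hx1 hx).le) (Or.inl rfl) (Or.inl rfl) fun y y' F =>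
    bothA_cert (s1 := true) (s2 := true) rfl hκ (en_pos (hx1 hx).le) (esg_rng (hx1 hx).le (hx2 hx').le).1 (mo_v x) covB70 covB73 hx hx'
        Pool.Agent.Strip051.G.I6500_6900.Tab.C.BA77.c_pp_033 noCut_EA noExt_EA F trivial trivial

theorem BA77_pp_101 {κ x : ℝ} (hκ : κ * h0 = ken x) (hx : ((697932185 : ℕ) : ℝ) / S ≤ x) (hx' : x ≤ (((697932185 : ℕ) : ℝ) + (42949674 : ℕ)) / S) :
    TriA PP.cur (VE (h0 * 0) 3 κ (h0 * x) (eng.v x) (h0 * (3 / 40)) (tnt (h0 * x) (3 / 10)) (tbl tK x) (tbl tL x) (tbl (smT h0⁻¹ tC) x)) 1 0 1 7 7 1 1 :=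
  (sideB hx hx').bothA (thrB hx hx') (en_pos (hx1 hx).le) (Or.inl rfl) (Or.inl rfl) fun y y' F =>
    bothA_cert (s1 := true) (s2 := true) rfl hκ (en_pos (hx1 hx).le) (esg_rng (hx1 hx).le (hx2 hx').le).1 (mo_v x) covB71 covB70 hx hx'
        Pool.Agent.Strip051.G.I6500_6900.Tab.C.BA77.c_pp_101 noCut_EA noExt_EA F trivial trivial

theorem BA77_pp_102 {κ x : ℝ} (hκ : κ * h0 = ken x) (hx : ((697932185 : ℕ) : ℝ) / S ≤ x) (hx' : x ≤ (((697932185 : ℕ) : ℝ) + (42949674 : ℕ)) / S) :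
    TriA PP.cur (VE (h0 * 0) 3 κ (h0 * x) (eng.v x) (h0 * (3 / 40)) (tnt (h0 * x) (3 / 10)) (tbl tK x) (tbl tL x) (tbl (smT h0⁻¹ tC) x)) 1 0 2 7 7 1 1 :=
  (sideB hx hx').bothA (thrB hx hx') (en_pos (hx1 hx).le) (Or.inl rfl) (Or.inl rfl) fun y y' F =>
    bothA_cert (s1 := true) (s2 := true) rfl hκ (en_pos (hx1 hx).le) (esg_rng (hx1 hx).le (hx2 hx').le).1 (mo_v x) covB71 covB70 hx hx'
        Pool.Agent.Strip051.G.I6500_6900.Tab.C.BA77.c_pp_102 noCut_EA noExt_EA F trivial trivial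

theorem BA77_pp_112 {κ x : ℝ} (hκ : κ * h0 = ken x) (hx : ((697932185 : ℕ) : ℝ) / S ≤ x) (hx' : x ≤ (((697932185 : ℕ) : ℝ) + (42949674 : ℕ)) / S) :
    TriA PP.cur (VE (h0 * 0) 3 κ (h0 * x) (eng.v x) (h0 * (3 / 40)) (tnt (h0 * x) (3 / 10)) (tbl tK x) (tbl tL x) (tbl (smT h0⁻¹ tC) x)) 1 1 2 7 7 1 1 :=
  (sideB hx hx').bothA (thrB hx hx') (en_pos (hx1 hx).le) (Or.inl rfl) (Or.inl rfl) fun y y' F =>
    bothA_cert (s1 := true) (s2 := true) rfl hκ (en_pos (hx1 hx).le) (esg_rng (hx1 hx).le (hx2 hx').le).1 (mo_v x) covB71 covB71 hx hx'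
        Pool.Agent.Strip051.G.I6500_6900.Tab.C.BA77.c_pp_112 noCut_EA noExt_EA F trivial trivial

theorem BA77_pp_113 {κ x : ℝ} (hκ : κ * h0 = ken x) (hx : ((697932185 : ℕ) : ℝ) / S ≤ x) (hx' : x ≤ (((697932185 : ℕ) : ℝ) + (42949674 : ℕ)) / S) :
    TriA PP.cur (VE (h0 * 0) 3 κ (h0 * x) (eng.v x) (h0 * (3 / 40)) (tnt (h0 * x) (3 / 10)) (tbl tK x) (tbl tL x) (tbl (smT h0⁻¹ tC) x)) 1 1 3 7 7 1 1 :=
  (sideB hx hx').bothA (thrB hx hx') (en_pos (hx1 hx).le) (Or.inl rfl) (Or.inl rfl) fun y y' F =>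
    bothA_cert (s1 := true) (s2 := true) rfl hκ (en_pos (hx1 hx).le) (esg_rng (hx1 hx).le (hx2 hx').le).1 (mo_v x) covB71 covB71 hx hx'
        Pool.Agent.Strip051.G.I6500_6900.Tab.C.BA77.c_pp_113 noCut_EA noExt_EA F trivial trivial

theorem BA77_pp_123 {κ x : ℝ} (hκ : κ * h0 = ken x) (hx : ((697932185 : ℕ) : ℝ) / S ≤ x) (hx' : x ≤ (((697932185 : ℕ) : ℝ) + (42949674 : ℕ)) / S) :
    TriA PP.cur (VE (h0 * 0) 3 κ (h0 * x) (eng.v x) (h0 * (3 / 40)) (tnt (h0 * x) (3 / 10)) (tbl tK x) (tbl tL x) (tbl (smT h0⁻¹ tC) x)) 1 2 3 7 7 1 1 :=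
  (sideB hx hx').bothA (thrB hx hx') (en_pos (hx1 hx).le) (Or.inl rfl) (Or.inl rfl) fun y y' F =>
    bothA_cert (s1 := true) (s2 := true) rfl hκ (en_pos (hx1 hx).le) (esg_rng (hx1 hx).le (hx2 hx').le).1 (mo_v x) covB71 covB72 hx hx'
        Pool.Agent.Strip051.G.I6500_6900.Tab.C.BA77.c_pp_123 noCut_EA noExt_EA F trivial trivial

theorem BA77_pp_133 {κ x : ℝ} (hκ : κ * h0 = ken x) (hx : ((697932185 : ℕ) : ℝ) / S ≤ x) (hx' : x ≤ (((697932185 : ℕ) : ℝ) + (42949674 : ℕ)) / S) :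
    TriA PP.cur (VE (h0 * 0) 3 κ (h0 * x) (eng.v x) (h0 * (3 / 40)) (tnt (h0 * x) (3 / 10)) (tbl tK x) (tbl tL x) (tbl (smT h0⁻¹ tC) x)) 1 3 3 7 7 1 1 :=
  (sideB hx hx').bothA (thrB hx hx') (en_pos (hx1 hx).le) (Or.inl rfl) (Or.inl rfl) fun y y' F =>
    bothA_cert (s1 := true) (s2 := true) rfl hκ (en_pos (hx1 hx).le) (esg_rng (hx1 hx).le (hx2 hx').le).1 (mo_v x) covB71 covB73 hx hx'
        Pool.Agent.Strip051.G.I6500_6900.Tab.C.BA77.c_pp_133 noCut_EA noExt_EA F trivial trivial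

theorem BA77_pp_202 {κ x : ℝ} (hκ : κ * h0 = ken x) (hx : ((697932185 : ℕ) : ℝ) / S ≤ x) (hx' : x ≤ (((697932185 : ℕ) : ℝ) + (42949674 : ℕ)) / S) :
    TriA PP.cur (VE (h0 * 0) 3 κ (h0 * x) (eng.v x) (h0 * (3 / 40)) (tnt (h0 * x) (3 / 10)) (tbl tK x) (tbl tL x) (tbl (smT h0⁻¹ tC) x)) 2 0 2 7 7 1 1 :=
  (sideB hx hx').bothA (thrB hx hx') (en_pos (hx1 hx).le) (Or.inl rfl) (Or.inl rfl) fun y y' F =>
    bothA_cert (s1 := true) (s2 := true) rfl hκ (en_pos (hx1 hx).le) (esg_rng (hx1 hx).le (hx2 hx').le).1 (mo_v x) covB72 covB70 hx hx'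
        Pool.Agent.Strip051.G.I6500_6900.Tab.C.BA77.c_pp_202 noCut_EA noExt_EA F trivial trivial

theorem BA77_pp_203 {κ x : ℝ} (hκ : κ * h0 = ken x) (hx : ((697932185 : ℕ) : ℝ) / S ≤ x) (hx' : x ≤ (((697932185 : ℕ) : ℝ) + (42949674 : ℕ)) / S) :
    TriA PP.cur (VE (h0 * 0) 3 κ (h0 * x) (eng.v x) (h0 * (3 / 40)) (tnt (h0 * x) (3 / 10)) (tbl tK x) (tbl tL x) (tbl (smT h0⁻¹ tC) x)) 2 0 3 7 7 1 1 :=
  (sideB hx hx').bothA (thrB hx hx') (en_pos (hx1 hx).le) (Or.inl rfl) (Or.inl rfl) fun y y' F =>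
    bothA_cert (s1 := true) (s2 := true) rfl hκ (en_pos (hx1 hx).le) (esg_rng (hx1 hx).le (hx2 hx').le).1 (mo_v x) covB72 covB70 hx hx'
        Pool.Agent.Strip051.G.I6500_6900.Tab.C.BA77.c_pp_203 noCut_EA noExt_EA F trivial trivial

theorem BA77_pp_213 {κ x : ℝ} (hκ : κ * h0 = ken x) (hx : ((697932185 : ℕ) : ℝ) / S ≤ x) (hx' : x ≤ (((697932185 : ℕ) : ℝ) + (42949674 : ℕ)) / S) :
    TriA PP.cur (VE (h0 * 0) 3 κ (h0 * x) (eng.v x) (h0 * (3 / 40)) (tnt (h0 * x) (3 / 10)) (tbl tK x) (tbl tL x) (tbl (smT h0⁻¹ tC) x)) 2 1 3 7 7 1 1 :=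
  (sideB hx hx').bothA (thrB hx hx') (en_pos (hx1 hx).le) (Or.inl rfl) (Or.inl rfl) fun y y' F =>
    bothA_cert (s1 := true) (s2 := true) rfl hκ (en_pos (hx1 hx).le) (esg_rng (hx1 hx).le (hx2 hx').le).1 (mo_v x) covB72 covB71 hx hx'
        Pool.Agent.Strip051.G.I6500_6900.Tab.C.BA77.c_pp_213 noCut_EA noExt_EA F trivial trivial

theorem BA77_pp_303 {κ x : ℝ} (hκ : κ * h0 = ken x) (hx : ((697932185 : ℕ) : ℝ) / S ≤ x) (hx' : x ≤ (((697932185 : ℕ) : ℝ) + (42949674 : ℕ)) / S) :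
    TriA PP.cur (VE (h0 * 0) 3 κ (h0 * x) (eng.v x) (h0 * (3 / 40)) (tnt (h0 * x) (3 / 10)) (tbl tK x) (tbl tL x) (tbl (smT h0⁻¹ tC) x)) 3 0 3 7 7 1 1 :=
  (sideB hx hx').bothA (thrB hx hx') (en_pos (hx1 hx).le) (Or.inl rfl) (Or.inl rfl) fun y y' F =>
    bothA_cert (s1 := true) (s2 := true) rfl hκ (en_pos (hx1 hx).le) (esg_rng (hx1 hx).le (hx2 hx').le).1 (mo_v x) covB73 covB70 hx hx'
        Pool.Agent.Strip051.G.I6500_6900.Tab.C.BA77.c_pp_303 noCut_EA noExt_EA F trivial trivial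

theorem BA77_pp_313 {κ x : ℝ} (hκ : κ * h0 = ken x) (hx : ((697932185 : ℕ) : ℝ) / S ≤ x) (hx' : x ≤ (((697932185 : ℕ) : ℝ) + (42949674 : ℕ)) / S) :
    TriA PP.cur (VE (h0 * 0) 3 κ (h0 * x) (eng.v x) (h0 * (3 / 40)) (tnt (h0 * x) (3 / 10)) (tbl tK x) (tbl tL x) (tbl (smT h0⁻¹ tC) x)) 3 1 3 7 7 1 1 :=
  (sideB hx hx').bothA (thrB hx hx') (en_pos (hx1 hx).le) (Or.inl rfl) (Or.inl rfl) fun y y' F =>
    bothA_cert (s1 := true) (s2 := true) rfl hκ (en_pos (hx1 hx).le) (esg_rng (hx1 hx).le (hx2 hx').le).1 (mo_v x) covB73 covB71 hx hx'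
        Pool.Agent.Strip051.G.I6500_6900.Tab.C.BA77.c_pp_313 noCut_EA noExt_EA F trivial trivial

theorem BA77_pm_001 {κ x : ℝ} (hκ : κ * h0 = ken x) (hx : ((697932185 : ℕ) : ℝ) / S ≤ x) (hx' : x ≤ (((697932185 : ℕ) : ℝ) + (42949674 : ℕ)) / S) :
    TriA PP.cur (VE (h0 * 0) 3 κ (h0 * x) (eng.v x) (h0 * (3 / 40)) (tnt (h0 * x) (3 / 10)) (tbl tK x) (tbl tL x) (tbl (smT h0⁻¹ tC) x)) 0 0 1 7 7 1 (-1) :=
  (sideB hx hx').bothA (thrB hx hx') (en_pos (hx1 hx).le) (Or.inl rfl) (Or.inr rfl) fun y y' F =>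
    bothA_cert (s1 := true) (s2 := false) rfl hκ (en_pos (hx1 hx).le) (esg_rng (hx1 hx).le (hx2 hx').le).1 (mo_v x) covB70 covB70 hx hx'
        Pool.Agent.Strip051.G.I6500_6900.Tab.C.BA77.c_pm_001 noCut_EA noExt_EA F trivial trivial

theorem BA77_pm_011 {κ x : ℝ} (hκ : κ * h0 = ken x) (hx : ((697932185 : ℕ) : ℝ) / S ≤ x) (hx' : x ≤ (((697932185 : ℕ) : ℝ) + (42949674 : ℕ)) / S) :
    TriA PP.cur (VE (h0 * 0) 3 κ (h0 * x) (eng.v x) (h0 * (3 / 40)) (tnt (h0 * x) (3 / 10)) (tbl tK x) (tbl tL x) (tbl (smT h0⁻¹ tC) x)) 0 1 1 7 7 1 (-1) :=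
  (sideB hx hx').bothA (thrB hx hx') (en_pos (hx1 hx).le) (Or.inl rfl) (Or.inr rfl) fun y y' F =>
    bothA_cert (s1 := true) (s2 := false) rfl hκ (en_pos (hx1 hx).le) (esg_rng (hx1 hx).le (hx2 hx').le).1 (mo_v x) covB70 covB71 hx hx'
        Pool.Agent.Strip051.G.I6500_6900.Tab.C.BA77.c_pm_011 noCut_EA noExt_EA F trivial trivial

theorem BA77_pm_012 {κ x : ℝ} (hκ : κ * h0 = ken x) (hx : ((697932185 : ℕ) : ℝ) / S ≤ x) (hx' : x ≤ (((697932185 : ℕ) : ℝ) + (42949674 : ℕ)) / S) :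
    TriA PP.cur (VE (h0 * 0) 3 κ (h0 * x) (eng.v x) (h0 * (3 / 40)) (tnt (h0 * x) (3 / 10)) (tbl tK x) (tbl tL x) (tbl (smT h0⁻¹ tC) x)) 0 1 2 7 7 1 (-1) :=
  (sideB hx hx').bothA (thrB hx hx') (en_pos (hx1 hx).le) (Or.inl rfl) (Or.inr rfl) fun y y' F =>
    bothA_cert (s1 := true) (s2 := false) rfl hκ (en_pos (hx1 hx).le) (esg_rng (hx1 hx).le (hx2 hx').le).1 (mo_v x) covB70 covB71 hx hx'
        Pool.Agent.Strip051.G.I6500_6900.Tab.C.BA77.c_pm_012 noCut_EA noExt_EA F trivial trivial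

theorem BA77_pm_022 {κ x : ℝ} (hκ : κ * h0 = ken x) (hx : ((697932185 : ℕ) : ℝ) / S ≤ x) (hx' : x ≤ (((697932185 : ℕ) : ℝ) + (42949674 : ℕ)) / S) :
    TriA PP.cur (VE (h0 * 0) 3 κ (h0 * x) (eng.v x) (h0 * (3 / 40)) (tnt (h0 * x) (3 / 10)) (tbl tK x) (tbl tL x) (tbl (smT h0⁻¹ tC) x)) 0 2 2 7 7 1 (-1) :=
  (sideB hx hx').bothA (thrB hx hx') (en_pos (hx1 hx).le) (Or.inl rfl) (Or.inr rfl) fun y y' F =>
    bothA_cert (s1 := true) (s2 := false) rfl hκ (en_pos (hx1 hx).le) (esg_rng (hx1 hx).le (hx2 hx').le).1 (mo_v x) covB70 covB72 hx hx'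
        Pool.Agent.Strip051.G.I6500_6900.Tab.C.BA77.c_pm_022 noCut_EA noExt_EA F trivial trivial

theorem BA77_pm_023 {κ x : ℝ} (hκ : κ * h0 = ken x) (hx : ((697932185 : ℕ) : ℝ) / S ≤ x) (hx' : x ≤ (((697932185 : ℕ) : ℝ) + (42949674 : ℕ)) / S) :
    TriA PP.cur (VE (h0 * 0) 3 κ (h0 * x) (eng.v x) (h0 * (3 / 40)) (tnt (h0 * x) (3 / 10)) (tbl tK x) (tbl tL x) (tbl (smT h0⁻¹ tC) x)) 0 2 3 7 7 1 (-1) :=
  (sideB hx hx').bothA (thrB hx hx') (en_pos (hx1 hx).le) (Or.inl rfl) (Or.inr rfl) fun y y' F =>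
    bothA_cert (s1 := true) (s2 := false) rfl hκ (en_pos (hx1 hx).le) (esg_rng (hx1 hx).le (hx2 hx').le).1 (mo_v x) covB70 covB72 hx hx'
        Pool.Agent.Strip051.G.I6500_6900.Tab.C.BA77.c_pm_023 noCut_EA noExt_EA F trivial trivial

theorem BA77_pm_033 {κ x : ℝ} (hκ : κ * h0 = ken x) (hx : ((697932185 : ℕ) : ℝ) / S ≤ x) (hx' : x ≤ (((697932185 : ℕ) : ℝ) + (42949674 : ℕ)) / S) :
    TriA PP.cur (VE (h0 * 0) 3 κ (h0 * x) (eng.v x) (h0 * (3 / 40)) (tnt (h0 * x) (3 / 10)) (tbl tK x) (tbl tL x) (tbl (smT h0⁻¹ tC) x)) 0 3 3 7 7 1 (-1) :=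
  (sideB hx hx').bothA (thrB hx hx') (en_pos (hx1 hx).le) (Or.inl rfl) (Or.inr rfl) fun y y' F =>
    bothA_cert (s1 := true) (s2 := false) rfl hκ (en_pos (hx1 hx).le) (esg_rng (hx1 hx).le (hx2 hx').le).1 (mo_v x) covB70 covB73 hx hx'
        Pool.Agent.Strip051.G.I6500_6900.Tab.C.BA77.c_pm_033 noCut_EA noExt_EA F trivial trivial

theorem BA77_pm_101 {κ x : ℝ} (hκ : κ * h0 = ken x) (hx : ((697932185 : ℕ) : ℝ) / S ≤ x) (hx' : x ≤ (((697932185 : ℕ) : ℝ) + (42949674 : ℕ)) / S) :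
    TriA PP.cur (VE (h0 * 0) 3 κ (h0 * x) (eng.v x) (h0 * (3 / 40)) (tnt (h0 * x) (3 / 10)) (tbl tK x) (tbl tL x) (tbl (smT h0⁻¹ tC) x)) 1 0 1 7 7 1 (-1) :=
  (sideB hx hx').bothA (thrB hx hx') (en_pos (hx1 hx).le) (Or.inl rfl) (Or.inr rfl) fun y y' F =>
    bothA_cert (s1 := true) (s2 := false) rfl hκ (en_pos (hx1 hx).le) (esg_rng (hx1 hx).le (hx2 hx').le).1 (mo_v x) covB71 covB70 hx hx'
        Pool.Agent.Strip051.G.I6500_6900.Tab.C.BA77.c_pm_101 noCut_EA noExt_EA F trivial trivial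

theorem BA77_pm_102 {κ x : ℝ} (hκ : κ * h0 = ken x) (hx : ((697932185 : ℕ) : ℝ) / S ≤ x) (hx' : x ≤ (((697932185 : ℕ) : ℝ) + (42949674 : ℕ)) / S) :
    TriA PP.cur (VE (h0 * 0) 3 κ (h0 * x) (eng.v x) (h0 * (3 / 40)) (tnt (h0 * x) (3 / 10)) (tbl tK x) (tbl tL x) (tbl (smT h0⁻¹ tC) x)) 1 0 2 7 7 1 (-1) :=
  (sideB hx hx').bothA (thrB hx hx') (en_pos (hx1 hx).le) (Or.inl rfl) (Or.inr rfl) fun y y' F =>
    bothA_cert (s1 := true) (s2 := false) rfl hκ (en_pos (hx1 hx).le) (esg_rng (hx1 hx).le (hx2 hx').le).1 (mo_v x) covB71 covB70 hx hx'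
        Pool.Agent.Strip051.G.I6500_6900.Tab.C.BA77.c_pm_102 noCut_EA noExt_EA F trivial trivial

theorem BA77_pm_112 {κ x : ℝ} (hκ : κ * h0 = ken x) (hx : ((697932185 : ℕ) : ℝ) / S ≤ x) (hx' : x ≤ (((697932185 : ℕ) : ℝ) + (42949674 : ℕ)) / S) :
    TriA PP.cur (VE (h0 * 0) 3 κ (h0 * x) (eng.v x) (h0 * (3 / 40)) (tnt (h0 * x) (3 / 10)) (tbl tK x) (tbl tL x) (tbl (smT h0⁻¹ tC) x)) 1 1 2 7 7 1 (-1) :=
  (sideB hx hx').bothA (thrB hx hx') (en_pos (hx1 hx).le) (Or.inl rfl) (Or.inr rfl) fun y y' F =>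
    bothA_cert (s1 := true) (s2 := false) rfl hκ (en_pos (hx1 hx).le) (esg_rng (hx1 hx).le (hx2 hx').le).1 (mo_v x) covB71 covB71 hx hx'
        Pool.Agent.Strip051.G.I6500_6900.Tab.C.BA77.c_pm_112 noCut_EA noExt_EA F trivial trivial

theorem BA77_pm_113 {κ x : ℝ} (hκ : κ * h0 = ken x) (hx : ((697932185 : ℕ) : ℝ) / S ≤ x) (hx' : x ≤ (((697932185 : ℕ) : ℝ) + (42949674 : ℕ)) / S) :
    TriA PP.cur (VE (h0 * 0) 3 κ (h0 * x) (eng.v x) (h0 * (3 / 40)) (tnt (h0 * x) (3 / 10)) (tbl tK x) (tbl tL x) (tbl (smT h0⁻¹ tC) x)) 1 1 3 7 7 1 (-1) :=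
  (sideB hx hx').bothA (thrB hx hx') (en_pos (hx1 hx).le) (Or.inl rfl) (Or.inr rfl) fun y y' F =>
    bothA_cert (s1 := true) (s2 := false) rfl hκ (en_pos (hx1 hx).le) (esg_rng (hx1 hx).le (hx2 hx').le).1 (mo_v x) covB71 covB71 hx hx'
        Pool.Agent.Strip051.G.I6500_6900.Tab.C.BA77.c_pm_113 noCut_EA noExt_EA F trivial trivial

theorem BA77_pm_123 {κ x : ℝ} (hκ : κ * h0 = ken x) (hx : ((697932185 : ℕ) : ℝ) / S ≤ x) (hx' : x ≤ (((697932185 : ℕ) : ℝ) + (42949674 : ℕ)) / S) :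
    TriA PP.cur (VE (h0 * 0) 3 κ (h0 * x) (eng.v x) (h0 * (3 / 40)) (tnt (h0 * x) (3 / 10)) (tbl tK x) (tbl tL x) (tbl (smT h0⁻¹ tC) x)) 1 2 3 7 7 1 (-1) :=
  (sideB hx hx').bothA (thrB hx hx') (en_pos (hx1 hx).le) (Or.inl rfl) (Or.inr rfl) fun y y' F =>
    bothA_cert (s1 := true) (s2 := false) rfl hκ (en_pos (hx1 hx).le) (esg_rng (hx1 hx).le (hx2 hx').le).1 (mo_v x) covB71 covB72 hx hx'
        Pool.Agent.Strip051.G.I6500_6900.Tab.C.BA77.c_pm_123 noCut_EA noExt_EA F trivial trivial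

theorem BA77_pm_133 {κ x : ℝ} (hκ : κ * h0 = ken x) (hx : ((697932185 : ℕ) : ℝ) / S ≤ x) (hx' : x ≤ (((697932185 : ℕ) : ℝ) + (42949674 : ℕ)) / S) :
    TriA PP.cur (VE (h0 * 0) 3 κ (h0 * x) (eng.v x) (h0 * (3 / 40)) (tnt (h0 * x) (3 / 10)) (tbl tK x) (tbl tL x) (tbl (smT h0⁻¹ tC) x)) 1 3 3 7 7 1 (-1) :=
  (sideB hx hx').bothA (thrB hx hx') (en_pos (hx1 hx).le) (Or.inl rfl) (Or.inr rfl) fun y y' F =>
    bothA_cert (s1 := true) (s2 := false) rfl hκ (en_pos (hx1 hx).le) (esg_rng (hx1 hx).le (hx2 hx').le).1 (mo_v x) covB71 covB73 hx hx'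
        Pool.Agent.Strip051.G.I6500_6900.Tab.C.BA77.c_pm_133 noCut_EA noExt_EA F trivial trivial

theorem BA77_pm_202 {κ x : ℝ} (hκ : κ * h0 = ken x) (hx : ((697932185 : ℕ) : ℝ) / S ≤ x) (hx' : x ≤ (((697932185 : ℕ) : ℝ) + (42949674 : ℕ)) / S) :
    TriA PP.cur (VE (h0 * 0) 3 κ (h0 * x) (eng.v x) (h0 * (3 / 40)) (tnt (h0 * x) (3 / 10)) (tbl tK x) (tbl tL x) (tbl (smT h0⁻¹ tC) x)) 2 0 2 7 7 1 (-1) :=
  (sideB hx hx').bothA (thrB hx hx') (en_pos (hx1 hx).le) (Or.inl rfl) (Or.inr rfl) fun y y' F =>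
    bothA_cert (s1 := true) (s2 := false) rfl hκ (en_pos (hx1 hx).le) (esg_rng (hx1 hx).le (hx2 hx').le).1 (mo_v x) covB72 covB70 hx hx'
        Pool.Agent.Strip051.G.I6500_6900.Tab.C.BA77.c_pm_202 noCut_EA noExt_EA F trivial trivial

theorem BA77_pm_203 {κ x : ℝ} (hκ : κ * h0 = ken x) (hx : ((697932185 : ℕ) : ℝ) / S ≤ x) (hx' : x ≤ (((697932185 : ℕ) : ℝ) + (42949674 : ℕ)) / S) :
    TriA PP.cur (VE (h0 * 0) 3 κ (h0 * x) (eng.v x) (h0 * (3 / 40)) (tnt (h0 * x) (3 / 10)) (tbl tK x) (tbl tL x) (tbl (smT h0⁻¹ tC) x)) 2 0 3 7 7 1 (-1) :=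
  (sideB hx hx').bothA (thrB hx hx') (en_pos (hx1 hx).le) (Or.inl rfl) (Or.inr rfl) fun y y' F =>
    bothA_cert (s1 := true) (s2 := false) rfl hκ (en_pos (hx1 hx).le) (esg_rng (hx1 hx).le (hx2 hx').le).1 (mo_v x) covB72 covB70 hx hx'
        Pool.Agent.Strip051.G.I6500_6900.Tab.C.BA77.c_pm_203 noCut_EA noExt_EA F trivial trivial

theorem BA77_pm_213 {κ x : ℝ} (hκ : κ * h0 = ken x) (hx : ((697932185 : ℕ) : ℝ) / S ≤ x) (hx' : x ≤ (((697932185 : ℕ) : ℝ) + (42949674 : ℕ)) / S) :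
    TriA PP.cur (VE (h0 * 0) 3 κ (h0 * x) (eng.v x) (h0 * (3 / 40)) (tnt (h0 * x) (3 / 10)) (tbl tK x) (tbl tL x) (tbl (smT h0⁻¹ tC) x)) 2 1 3 7 7 1 (-1) :=
  (sideB hx hx').bothA (thrB hx hx') (en_pos (hx1 hx).le) (Or.inl rfl) (Or.inr rfl) fun y y' F =>
    bothA_cert (s1 := true) (s2 := false) rfl hκ (en_pos (hx1 hx).le) (esg_rng (hx1 hx).le (hx2 hx').le).1 (mo_v x) covB72 covB71 hx hx'
        Pool.Agent.Strip051.G.I6500_6900.Tab.C.BA77.c_pm_213 noCut_EA noExt_EA F trivial trivial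

theorem BA77_pm_303 {κ x : ℝ} (hκ : κ * h0 = ken x) (hx : ((697932185 : ℕ) : ℝ) / S ≤ x) (hx' : x ≤ (((697932185 : ℕ) : ℝ) + (42949674 : ℕ)) / S) :
    TriA PP.cur (VE (h0 * 0) 3 κ (h0 * x) (eng.v x) (h0 * (3 / 40)) (tnt (h0 * x) (3 / 10)) (tbl tK x) (tbl tL x) (tbl (smT h0⁻¹ tC) x)) 3 0 3 7 7 1 (-1) :=
  (sideB hx hx').bothA (thrB hx hx') (en_pos (hx1 hx).le) (Or.inl rfl) (Or.inr rfl) fun y y' F =>
    bothA_cert (s1 := true) (s2 := false) rfl hκ (en_pos (hx1 hx).le) (esg_rng (hx1 hx).le (hx2 hx').le).1 (mo_v x) covB73 covB70 hx hx'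
        Pool.Agent.Strip051.G.I6500_6900.Tab.C.BA77.c_pm_303 noCut_EA noExt_EA F trivial trivial

theorem BA77_pm_313 {κ x : ℝ} (hκ : κ * h0 = ken x) (hx : ((697932185 : ℕ) : ℝ) / S ≤ x) (hx' : x ≤ (((697932185 : ℕ) : ℝ) + (42949674 : ℕ)) / S) :
    TriA PP.cur (VE (h0 * 0) 3 κ (h0 * x) (eng.v x) (h0 * (3 / 40)) (tnt (h0 * x) (3 / 10)) (tbl tK x) (tbl tL x) (tbl (smT h0⁻¹ tC) x)) 3 1 3 7 7 1 (-1) :=
  (sideB hx hx').bothA (thrB hx hx') (en_pos (hx1 hx).le) (Or.inl rfl) (Or.inr rfl) fun y y' F =>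
    bothA_cert (s1 := true) (s2 := false) rfl hκ (en_pos (hx1 hx).le) (esg_rng (hx1 hx).le (hx2 hx').le).1 (mo_v x) covB73 covB71 hx hx'
        Pool.Agent.Strip051.G.I6500_6900.Tab.C.BA77.c_pm_313 noCut_EA noExt_EA F trivial trivial

theorem BA77_mm_001 {κ x : ℝ} (hκ : κ * h0 = ken x) (hx : ((697932185 : ℕ) : ℝ) / S ≤ x) (hx' : x ≤ (((697932185 : ℕ) : ℝ) + (42949674 : ℕ)) / S) :
    TriA PP.cur (VE (h0 * 0) 3 κ (h0 * x) (eng.v x) (h0 * (3 / 40)) (tnt (h0 * x) (3 / 10)) (tbl tK x) (tbl tL x) (tbl (smT h0⁻¹ tC) x)) 0 0 1 7 7 (-1) (-1) :=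
  (sideB hx hx').bothA (thrB hx hx') (en_pos (hx1 hx).le) (Or.inr rfl) (Or.inr rfl) fun y y' F =>
    bothA_cert (s1 := false) (s2 := false) rfl hκ (en_pos (hx1 hx).le) (esg_rng (hx1 hx).le (hx2 hx').le).1 (mo_v x) covB70 covB70 hx hx'
        Pool.Agent.Strip051.G.I6500_6900.Tab.C.BA77.c_mm_001 noCut_EA noExt_EA F trivial trivial

theorem BA77_mm_011 {κ x : ℝ} (hκ : κ * h0 = ken x) (hx : ((697932185 : ℕ) : ℝ) / S ≤ x) (hx' : x ≤ (((697932185 : ℕ) : ℝ) + (42949674 : ℕ)) / S) :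
    TriA PP.cur (VE (h0 * 0) 3 κ (h0 * x) (eng.v x) (h0 * (3 / 40)) (tnt (h0 * x) (3 / 10)) (tbl tK x) (tbl tL x) (tbl (smT h0⁻¹ tC) x)) 0 1 1 7 7 (-1) (-1) :=
  (sideB hx hx').bothA (thrB hx hx') (en_pos (hx1 hx).le) (Or.inr rfl) (Or.inr rfl) fun y y' F =>
    bothA_cert (s1 := false) (s2 := false) rfl hκ (en_pos (hx1 hx).le) (esg_rng (hx1 hx).le (hx2 hx').le).1 (mo_v x) covB70 covB71 hx hx'
        Pool.Agent.Strip051.G.I6500_6900.Tab.C.BA77.c_mm_011 noCut_EA noExt_EA F trivial trivial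

theorem BA77_mm_012 {κ x : ℝ} (hκ : κ * h0 = ken x) (hx : ((697932185 : ℕ) : ℝ) / S ≤ x) (hx' : x ≤ (((697932185 : ℕ) : ℝ) + (42949674 : ℕ)) / S) :
    TriA PP.cur (VE (h0 * 0) 3 κ (h0 * x) (eng.v x) (h0 * (3 / 40)) (tnt (h0 * x) (3 / 10)) (tbl tK x) (tbl tL x) (tbl (smT h0⁻¹ tC) x)) 0 1 2 7 7 (-1) (-1) :=
  (sideB hx hx').bothA (thrB hx hx') (en_pos (hx1 hx).le) (Or.inr rfl) (Or.inr rfl) fun y y' F =>
    bothA_cert (s1 := false) (s2 := false) rfl hκ (en_pos (hx1 hx).le) (esg_rng (hx1 hx).le (hx2 hx').le).1 (mo_v x) covB70 covB71 hx hx'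
        Pool.Agent.Strip051.G.I6500_6900.Tab.C.BA77.c_mm_012 noCut_EA noExt_EA F trivial trivial

theorem BA77_mm_022 {κ x : ℝ} (hκ : κ * h0 = ken x) (hx : ((697932185 : ℕ) : ℝ) / S ≤ x) (hx' : x ≤ (((697932185 : ℕ) : ℝ) + (42949674 : ℕ)) / S) :
    TriA PP.cur (VE (h0 * 0) 3 κ (h0 * x) (eng.v x) (h0 * (3 / 40)) (tnt (h0 * x) (3 / 10)) (tbl tK x) (tbl tL x) (tbl (smT h0⁻¹ tC) x)) 0 2 2 7 7 (-1) (-1) :=
  (sideB hx hx').bothA (thrB hx hx') (en_pos (hx1 hx).le) (Or.inr rfl) (Or.inr rfl) fun y y' F =>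
    bothA_cert (s1 := false) (s2 := false) rfl hκ (en_pos (hx1 hx).le) (esg_rng (hx1 hx).le (hx2 hx').le).1 (mo_v x) covB70 covB72 hx hx'
        Pool.Agent.Strip051.G.I6500_6900.Tab.C.BA77.c_mm_022 noCut_EA noExt_EA F trivial trivial

theorem BA77_mm_023 {κ x : ℝ} (hκ : κ * h0 = ken x) (hx : ((697932185 : ℕ) : ℝ) / S ≤ x) (hx' : x ≤ (((697932185 : ℕ) : ℝ) + (42949674 : ℕ)) / S) :
    TriA PP.cur (VE (h0 * 0) 3 κ (h0 * x) (eng.v x) (h0 * (3 / 40)) (tnt (h0 * x) (3 / 10)) (tbl tK x) (tbl tL x) (tbl (smT h0⁻¹ tC) x)) 0 2 3 7 7 (-1) (-1) :=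
  (sideB hx hx').bothA (thrB hx hx') (en_pos (hx1 hx).le) (Or.inr rfl) (Or.inr rfl) fun y y' F =>
    bothA_cert (s1 := false) (s2 := false) rfl hκ (en_pos (hx1 hx).le) (esg_rng (hx1 hx).le (hx2 hx').le).1 (mo_v x) covB70 covB72 hx hx'
        Pool.Agent.Strip051.G.I6500_6900.Tab.C.BA77.c_mm_023 noCut_EA noExt_EA F trivial trivial

theorem BA77_mm_033 {κ x : ℝ} (hκ : κ * h0 = ken x) (hx : ((697932185 : ℕ) : ℝ) / S ≤ x) (hx' : x ≤ (((697932185 : ℕ) : ℝ) + (42949674 : ℕ)) / S) :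
    TriA PP.cur (VE (h0 * 0) 3 κ (h0 * x) (eng.v x) (h0 * (3 / 40)) (tnt (h0 * x) (3 / 10)) (tbl tK x) (tbl tL x) (tbl (smT h0⁻¹ tC) x)) 0 3 3 7 7 (-1) (-1) :=
  (sideB hx hx').bothA (thrB hx hx') (en_pos (hx1 hx).le) (Or.inr rfl) (Or.inr rfl) fun y y' F =>
    bothA_cert (s1 := false) (s2 := false) rfl hκ (en_pos (hx1 hx).le) (esg_rng (hx1 hx).le (hx2 hx').le).1 (mo_v x) covB70 covB73 hx hx'
        Pool.Agent.Strip051.G.I6500_6900.Tab.C.BA77.c_mm_033 noCut_EA noExt_EA F trivial trivial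

theorem BA77_mm_101 {κ x : ℝ} (hκ : κ * h0 = ken x) (hx : ((697932185 : ℕ) : ℝ) / S ≤ x) (hx' : x ≤ (((697932185 : ℕ) : ℝ) + (42949674 : ℕ)) / S) :
    TriA PP.cur (VE (h0 * 0) 3 κ (h0 * x) (eng.v x) (h0 * (3 / 40)) (tnt (h0 * x) (3 / 10)) (tbl tK x) (tbl tL x) (tbl (smT h0⁻¹ tC) x)) 1 0 1 7 7 (-1) (-1) :=
  (sideB hx hx').bothA (thrB hx hx') (en_pos (hx1 hx).le) (Or.inr rfl) (Or.inr rfl) fun y y' F =>
    bothA_cert (s1 := false) (s2 := false) rfl hκ (en_pos (hx1 hx).le) (esg_rng (hx1 hx).le (hx2 hx').le).1 (mo_v x) covB71 covB70 hx hx'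
        Pool.Agent.Strip051.G.I6500_6900.Tab.C.BA77.c_mm_101 noCut_EA noExt_EA F trivial trivial

theorem BA77_mm_102 {κ x : ℝ} (hκ : κ * h0 = ken x) (hx : ((697932185 : ℕ) : ℝ) / S ≤ x) (hx' : x ≤ (((697932185 : ℕ) : ℝ) + (42949674 : ℕ)) / S) :
    TriA PP.cur (VE (h0 * 0) 3 κ (h0 * x) (eng.v x) (h0 * (3 / 40)) (tnt (h0 * x) (3 / 10)) (tbl tK x) (tbl tL x) (tbl (smT h0⁻¹ tC) x)) 1 0 2 7 7 (-1) (-1) :=
  (sideB hx hx').bothA (thrB hx hx') (en_pos (hx1 hx).le) (Or.inr rfl) (Or.inr rfl) fun y y' F =>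
    bothA_cert (s1 := false) (s2 := false) rfl hκ (en_pos (hx1 hx).le) (esg_rng (hx1 hx).le (hx2 hx').le).1 (mo_v x) covB71 covB70 hx hx'
        Pool.Agent.Strip051.G.I6500_6900.Tab.C.BA77.c_mm_102 noCut_EA noExt_EA F trivial trivial

theorem BA77_mm_112 {κ x : ℝ} (hκ : κ * h0 = ken x) (hx : ((697932185 : ℕ) : ℝ) / S ≤ x) (hx' : x ≤ (((697932185 : ℕ) : ℝ) + (42949674 : ℕ)) / S) :
    TriA PP.cur (VE (h0 * 0) 3 κ (h0 * x) (eng.v x) (h0 * (3 / 40)) (tnt (h0 * x) (3 / 10)) (tbl tK x) (tbl tL x) (tbl (smT h0⁻¹ tC) x)) 1 1 2 7 7 (-1) (-1) :=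
  (sideB hx hx').bothA (thrB hx hx') (en_pos (hx1 hx).le) (Or.inr rfl) (Or.inr rfl) fun y y' F =>
    bothA_cert (s1 := false) (s2 := false) rfl hκ (en_pos (hx1 hx).le) (esg_rng (hx1 hx).le (hx2 hx').le).1 (mo_v x) covB71 covB71 hx hx'
        Pool.Agent.Strip051.G.I6500_6900.Tab.C.BA77.c_mm_112 noCut_EA noExt_EA F trivial trivial

theorem BA77_mm_113 {κ x : ℝ} (hκ : κ * h0 = ken x) (hx : ((697932185 : ℕ) : ℝ) / S ≤ x) (hx' : x ≤ (((697932185 : ℕ) : ℝ) + (42949674 : ℕ)) / S) :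
    TriA PP.cur (VE (h0 * 0) 3 κ (h0 * x) (eng.v x) (h0 * (3 / 40)) (tnt (h0 * x) (3 / 10)) (tbl tK x) (tbl tL x) (tbl (smT h0⁻¹ tC) x)) 1 1 3 7 7 (-1) (-1) :=
  (sideB hx hx').bothA (thrB hx hx') (en_pos (hx1 hx).le) (Or.inr rfl) (Or.inr rfl) fun y y' F =>
    bothA_cert (s1 := false) (s2 := false) rfl hκ (en_pos (hx1 hx).le) (esg_rng (hx1 hx).le (hx2 hx').le).1 (mo_v x) covB71 covB71 hx hx'
        Pool.Agent.Strip051.G.I6500_6900.Tab.C.BA77.c_mm_113 noCut_EA noExt_EA F trivial trivial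

theorem BA77_mm_123 {κ x : ℝ} (hκ : κ * h0 = ken x) (hx : ((697932185 : ℕ) : ℝ) / S ≤ x) (hx' : x ≤ (((697932185 : ℕ) : ℝ) + (42949674 : ℕ)) / S) :
    TriA PP.cur (VE (h0 * 0) 3 κ (h0 * x) (eng.v x) (h0 * (3 / 40)) (tnt (h0 * x) (3 / 10)) (tbl tK x) (tbl tL x) (tbl (smT h0⁻¹ tC) x)) 1 2 3 7 7 (-1) (-1) :=
  (sideB hx hx').bothA (thrB hx hx') (en_pos (hx1 hx).le) (Or.inr rfl) (Or.inr rfl) fun y y' F =>
    bothA_cert (s1 := false) (s2 := false) rfl hκ (en_pos (hx1 hx).le) (esg_rng (hx1 hx).le (hx2 hx').le).1 (mo_v x) covB71 covB72 hx hx'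
        Pool.Agent.Strip051.G.I6500_6900.Tab.C.BA77.c_mm_123 noCut_EA noExt_EA F trivial trivial

theorem BA77_mm_133 {κ x : ℝ} (hκ : κ * h0 = ken x) (hx : ((697932185 : ℕ) : ℝ) / S ≤ x) (hx' : x ≤ (((697932185 : ℕ) : ℝ) + (42949674 : ℕ)) / S) :
    TriA PP.cur (VE (h0 * 0) 3 κ (h0 * x) (eng.v x) (h0 * (3 / 40)) (tnt (h0 * x) (3 / 10)) (tbl tK x) (tbl tL x) (tbl (smT h0⁻¹ tC) x)) 1 3 3 7 7 (-1) (-1) :=
  (sideB hx hx').bothA (thrB hx hx') (en_pos (hx1 hx).le) (Or.inr rfl) (Or.inr rfl) fun y y' F =>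
    bothA_cert (s1 := false) (s2 := false) rfl hκ (en_pos (hx1 hx).le) (esg_rng (hx1 hx).le (hx2 hx').le).1 (mo_v x) covB71 covB73 hx hx'
        Pool.Agent.Strip051.G.I6500_6900.Tab.C.BA77.c_mm_133 noCut_EA noExt_EA F trivial trivial

theorem BA77_mm_202 {κ x : ℝ} (hκ : κ * h0 = ken x) (hx : ((697932185 : ℕ) : ℝ) / S ≤ x) (hx' : x ≤ (((697932185 : ℕ) : ℝ) + (42949674 : ℕ)) / S) :
    TriA PP.cur (VE (h0 * 0) 3 κ (h0 * x) (eng.v x) (h0 * (3 / 40)) (tnt (h0 * x) (3 / 10)) (tbl tK x) (tbl tL x) (tbl (smT h0⁻¹ tC) x)) 2 0 2 7 7 (-1) (-1) :=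
  (sideB hx hx').bothA (thrB hx hx') (en_pos (hx1 hx).le) (Or.inr rfl) (Or.inr rfl) fun y y' F =>
    bothA_cert (s1 := false) (s2 := false) rfl hκ (en_pos (hx1 hx).le) (esg_rng (hx1 hx).le (hx2 hx').le).1 (mo_v x) covB72 covB70 hx hx'
        Pool.Agent.Strip051.G.I6500_6900.Tab.C.BA77.c_mm_202 noCut_EA noExt_EA F trivial trivial

theorem BA77_mm_203 {κ x : ℝ} (hκ : κ * h0 = ken x) (hx : ((697932185 : ℕ) : ℝ) / S ≤ x) (hx' : x ≤ (((697932185 : ℕ) : ℝ) + (42949674 : ℕ)) / S) :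
    TriA PP.cur (VE (h0 * 0) 3 κ (h0 * x) (eng.v x) (h0 * (3 / 40)) (tnt (h0 * x) (3 / 10)) (tbl tK x) (tbl tL x) (tbl (smT h0⁻¹ tC) x)) 2 0 3 7 7 (-1) (-1) :=
  (sideB hx hx').bothA (thrB hx hx') (en_pos (hx1 hx).le) (Or.inr rfl) (Or.inr rfl) fun y y' F =>
    bothA_cert (s1 := false) (s2 := false) rfl hκ (en_pos (hx1 hx).le) (esg_rng (hx1 hx).le (hx2 hx').le).1 (mo_v x) covB72 covB70 hx hx'
        Pool.Agent.Strip051.G.I6500_6900.Tab.C.BA77.c_mm_203 noCut_EA noExt_EA F trivial trivial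

theorem BA77_mm_213 {κ x : ℝ} (hκ : κ * h0 = ken x) (hx : ((697932185 : ℕ) : ℝ) / S ≤ x) (hx' : x ≤ (((697932185 : ℕ) : ℝ) + (42949674 : ℕ)) / S) :
    TriA PP.cur (VE (h0 * 0) 3 κ (h0 * x) (eng.v x) (h0 * (3 / 40)) (tnt (h0 * x) (3 / 10)) (tbl tK x) (tbl tL x) (tbl (smT h0⁻¹ tC) x)) 2 1 3 7 7 (-1) (-1) :=
  (sideB hx hx').bothA (thrB hx hx') (en_pos (hx1 hx).le) (Or.inr rfl) (Or.inr rfl) fun y y' F =>
    bothA_cert (s1 := false) (s2 := false) rfl hκ (en_pos (hx1 hx).le) (esg_rng (hx1 hx).le (hx2 hx').le).1 (mo_v x) covB72 covB71 hx hx'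
        Pool.Agent.Strip051.G.I6500_6900.Tab.C.BA77.c_mm_213 noCut_EA noExt_EA F trivial trivial

theorem BA77_mm_303 {κ x : ℝ} (hκ : κ * h0 = ken x) (hx : ((697932185 : ℕ) : ℝ) / S ≤ x) (hx' : x ≤ (((697932185 : ℕ) : ℝ) + (42949674 : ℕ)) / S) :
    TriA PP.cur (VE (h0 * 0) 3 κ (h0 * x) (eng.v x) (h0 * (3 / 40)) (tnt (h0 * x) (3 / 10)) (tbl tK x) (tbl tL x) (tbl (smT h0⁻¹ tC) x)) 3 0 3 7 7 (-1) (-1) :=
  (sideB hx hx').bothA (thrB hx hx') (en_pos (hx1 hx).le) (Or.inr rfl) (Or.inr rfl) fun y y' F =>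
    bothA_cert (s1 := false) (s2 := false) rfl hκ (en_pos (hx1 hx).le) (esg_rng (hx1 hx).le (hx2 hx').le).1 (mo_v x) covB73 covB70 hx hx'
        Pool.Agent.Strip051.G.I6500_6900.Tab.C.BA77.c_mm_303 noCut_EA noExt_EA F trivial trivial

theorem BA77_mm_313 {κ x : ℝ} (hκ : κ * h0 = ken x) (hx : ((697932185 : ℕ) : ℝ) / S ≤ x) (hx' : x ≤ (((697932185 : ℕ) : ℝ) + (42949674 : ℕ)) / S) :
    TriA PP.cur (VE (h0 * 0) 3 κ (h0 * x) (eng.v x) (h0 * (3 / 40)) (tnt (h0 * x) (3 / 10)) (tbl tK x) (tbl tL x) (tbl (smT h0⁻¹ tC) x)) 3 1 3 7 7 (-1) (-1) :=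
  (sideB hx hx').bothA (thrB hx hx') (en_pos (hx1 hx).le) (Or.inr rfl) (Or.inr rfl) fun y y' F =>
    bothA_cert (s1 := false) (s2 := false) rfl hκ (en_pos (hx1 hx).le) (esg_rng (hx1 hx).le (hx2 hx').le).1 (mo_v x) covB73 covB71 hx hx'
        Pool.Agent.Strip051.G.I6500_6900.Tab.C.BA77.c_mm_313 noCut_EA noExt_EA F trivial trivial

theorem BA77 {κ x : ℝ} (hκ : κ * h0 = ken x) (hx : ((697932185 : ℕ) : ℝ) / S ≤ x) (hx' : x ≤ (((697932185 : ℕ) : ℝ) + (42949674 : ℕ)) / S) : AllTA PP.cur (VE (h0 * 0) 3 κ (h0 * x) (eng.v x) (h0 * (3 / 40)) (tnt (h0 * x) (3 / 10)) (tbl tK x) (tbl tL x) (tbl (smT h0⁻¹ tC) x)) 7 7 where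
  pp := all17 (Q := fun a b c => TriA PP.cur (VE (h0 * 0) 3 κ (h0 * x) (eng.v x) (h0 * (3 / 40)) (tnt (h0 * x) (3 / 10)) (tbl tK x) (tbl tL x) (tbl (smT h0⁻¹ tC) x)) a b c 7 7 1 1)
    (BA77_pp_001 hκ hx hx') (BA77_pp_011 hκ hx hx') (BA77_pp_012 hκ hx hx') (BA77_pp_022 hκ hx hx') (BA77_pp_023 hκ hx hx') (BA77_pp_033 hκ hx hx') (BA77_pp_101 hκ hx hx') (BA77_pp_102 hκ hx hx') (BA77_pp_112 hκ hx hx') (BA77_pp_113 hκ hx hx') (BA77_pp_123 hκ hx hx') (BA77_pp_133 hκ hx hx') (BA77_pp_202 hκ hx hx') (BA77_pp_203 hκ hx hx') (BA77_pp_213 hκ hx hx') (BA77_pp_303 hκ hx hx') (BA77_pp_313 hκ hx hx')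
  pm := all17 (Q := fun a b c => TriA PP.cur (VE (h0 * 0) 3 κ (h0 * x) (eng.v x) (h0 * (3 / 40)) (tnt (h0 * x) (3 / 10)) (tbl tK x) (tbl tL x) (tbl (smT h0⁻¹ tC) x)) a b c 7 7 1 (-1))
    (BA77_pm_001 hκ hx hx') (BA77_pm_011 hκ hx hx') (BA77_pm_012 hκ hx hx') (BA77_pm_022 hκ hx hx') (BA77_pm_023 hκ hx hx') (BA77_pm_033 hκ hx hx') (BA77_pm_101 hκ hx hx') (BA77_pm_102 hκ hx hx') (BA77_pm_112 hκ hx hx') (BA77_pm_113 hκ hx hx') (BA77_pm_123 hκ hx hx') (BA77_pm_133 hκ hx hx') (BA77_pm_202 hκ hx hx') (BA77_pm_203 hκ hx hx') (BA77_pm_213 hκ hx hx') (BA77_pm_303 hκ hx hx') (BA77_pm_313 hκ hx hx')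
  mm := all17 (Q := fun a b c => TriA PP.cur (VE (h0 * 0) 3 κ (h0 * x) (eng.v x) (h0 * (3 / 40)) (tnt (h0 * x) (3 / 10)) (tbl tK x) (tbl tL x) (tbl (smT h0⁻¹ tC) x)) a b c 7 7 (-1) (-1))
    (BA77_mm_001 hκ hx hx') (BA77_mm_011 hκ hx hx') (BA77_mm_012 hκ hx hx') (BA77_mm_022 hκ hx hx') (BA77_mm_023 hκ hx hx') (BA77_mm_033 hκ hx hx') (BA77_mm_101 hκ hx hx') (BA77_mm_102 hκ hx hx') (BA77_mm_112 hκ hx hx') (BA77_mm_113 hκ hx hx') (BA77_mm_123 hκ hx hx') (BA77_mm_133 hκ hx hx') (BA77_mm_202 hκ hx hx') (BA77_mm_203 hκ hx hx') (BA77_mm_213 hκ hx hx') (BA77_mm_303 hκ hx hx') (BA77_mm_313 hκ hx hx')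

end Pool.Agent.Strip051.G.I6500_6900.Tab
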