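import Pool.Agent.Strip051.G.I6500_6900.Gn
import Pool.Agent.Strip051.PB.Corns
import Pool.Agent.Strip051.PB.CornW

/-! # Certificates of the aligned corners (generated) -/

set_option linter.all false

namespace Pool.Agent.Strip051.G.I6500_6900.Tab.CW

open Pool.Agent.Strip051.PB

def B022R_316 :
    ∃ t, chk3 (onCell 0 67108864 0 1073741824 697932185 42949674 (corW 3 c0B eng mog cB022R gB3q0 gB1q2 gB6q2 gB7q2 dB3q0 dB1q2 dB6q2 dB7q2 false true)) t 1 1 1 = true :=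
  ⟨(T.b (T.a (T.a (T.b (T.l 204) (T.l 0)) (T.a (T.l 0) (T.b (T.l 204) (T.l 0)))) (T.a (T.a (T.b (T.l 204) (T.l 0)) (T.l 16)) (T.b (T.b (T.l 220) (T.l 0)) (T.l 0)))) (T.a (T.a (T.l 816) (T.l 0)) (T.l 4))), by decide +kernel⟩

def B022R_326 :
    ∃ t, chk3 (onCell 0 67108864 0 1073741824 697932185 42949674 (corW 3 c0B eng mog cB022R gB3q0 gB2q2 gB6q2 gB7q2 dB3q0 dB2q2 dB6q2 dB7q2 false true)) t 1 1 1 = true :=
  ⟨(T.b (T.a (T.a (T.l 0) (T.a (T.l 0) (T.l 0))) (T.a (T.l 0) (T.b (T.l 0) (T.l 816)))) (T.a (T.a (T.l 816) (T.l 816)) (T.l 816))), by decide +kernel⟩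

def B022R_336 :
    ∃ t, chk3 (onCell 0 67108864 0 1073741824 697932185 42949674 (corW 3 c0B eng mog cB022R gB3q0 gB3q2 gB6q2 gB7q2 dB3q0 dB3q2 dB6q2 dB7q2 false true)) t 1 1 1 = true :=
  ⟨(T.b (T.b (T.a (T.a (T.l 0) (T.l 0)) (T.b (T.l 0) (T.l 0))) (T.a (T.a (T.l 816) (T.l 816)) (T.l 0))) (T.a (T.l 2) (T.l 816))), by decide +kernel⟩

def B022R_346 :
    ∃ t, chk3 (onCell 0 67108864 0 1073741824 697932185 42949674 (corW 3 c0B eng mog cB022R gB3q0 gB4q2 gB6q2 gB7q2 dB3q0 dB4q2 dB6q2 dB7q2 false true)) t 1 1 1 = true :=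
  ⟨(T.l 2), by decide +kernel⟩

def B022R_406 :
    ∃ t, chk3 (onCell 0 67108864 0 1073741824 697932185 42949674 (corW 3 c0B eng mog cB022R gB4q0 gB0q2 gB6q2 gB7q2 dB4q0 dB0q2 dB6q2 dB7q2 false true)) t 1 1 1 = true :=
  ⟨(T.b (T.a (T.a (T.b (T.b (T.c (T.l 204) (T.l 204)) (T.l 204)) (T.l 0)) (T.a (T.b (T.b (T.a (T.l 204) (T.l 204)) (T.l 204)) (T.l 0)) (T.b (T.b (T.a (T.l 204) (T.l 204)) (T.l 204)) (T.l 0)))) (T.a (T.b (T.a (T.b (T.l 204) (T.l 204)) (T.b (T.l 204) (T.l 204))) (T.l 0)) (T.b (T.a (T.l 0) (T.b (T.l 204) (T.l 0))) (T.l 0)))) (T.a (T.a (T.l 816) (T.l 0)) (T.a (T.l 816) (T.l 816)))), by decide +kernel⟩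

def B022R_416 :
    ∃ t, chk3 (onCell 0 67108864 0 1073741824 697932185 42949674 (corW 3 c0B eng mog cB022R gB4q0 gB1q2 gB6q2 gB7q2 dB4q0 dB1q2 dB6q2 dB7q2 false true)) t 1 1 1 = true :=
  ⟨(T.b (T.a (T.a (T.b (T.l 204) (T.l 0)) (T.a (T.b (T.l 204) (T.l 0)) (T.b (T.l 0) (T.l 0)))) (T.a (T.b (T.a (T.l 0) (T.l 0)) (T.l 0)) (T.b (T.a (T.l 0) (T.l 0)) (T.l 0)))) (T.a (T.a (T.l 816) (T.l 816)) (T.l 0))), by decide +kernel⟩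

def B022R_426 :
    ∃ t, chk3 (onCell 0 67108864 0 1073741824 697932185 42949674 (corW 3 c0B eng mog cB022R gB4q0 gB2q2 gB6q2 gB7q2 dB4q0 dB2q2 dB6q2 dB7q2 false true)) t 1 1 1 = true :=
  ⟨(T.b (T.b (T.a (T.a (T.l 0) (T.a (T.l 0) (T.l 0))) (T.a (T.l 0) (T.l 0))) (T.a (T.a (T.l 816) (T.l 0)) (T.l 0))) (T.a (T.a (T.l 816) (T.l 816)) (T.l 816))), by decide +kernel⟩

def B022R_436 :
    ∃ t, chk3 (onCell 0 67108864 0 1073741824 697932185 42949674 (corW 3 c0B eng mog cB022R gB4q0 gB3q2 gB6q2 gB7q2 dB4q0 dB3q2 dB6q2 dB7q2 false true)) t 1 1 1 = true :=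
  ⟨(T.b (T.b (T.a (T.a (T.l 0) (T.l 0)) (T.b (T.l 0) (T.l 0))) (T.a (T.l 2) (T.l 816))) (T.l 2)), by decide +kernel⟩

def B022R_446 :
    ∃ t, chk3 (onCell 0 67108864 0 1073741824 697932185 42949674 (corW 3 c0B eng mog cB022R gB4q0 gB4q2 gB6q2 gB7q2 dB4q0 dB4q2 dB6q2 dB7q2 false true)) t 1 1 1 = true :=
  ⟨(T.l 2), by decide +kernel⟩

def B101E_000 :
    ∃ t, chk3 (onCell 0 67108864 0 1073741824 697932185 42949674 (corW 3 c0B eng mog cB101E gB0q1 gB0q1 gB0q0 gB1q0 dB0q1 dB0q1 dB0q0 dB1q0 true true)) t 1 1 1 = true :=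
  ⟨(T.l 2), by decide +kernel⟩

def B101E_001 :
    ∃ t, chk3 (onCell 0 67108864 0 1073741824 697932185 42949674 (corW 3 c0B eng mog cB101E gB0q1 gB0q1 gB1q0 gB2q0 dB0q1 dB0q1 dB1q0 dB2q0 true true)) t 1 1 1 = true :=
  ⟨(T.l 2), by decide +kernel⟩

def B101E_002 :
    ∃ t, chk3 (onCell 0 67108864 0 1073741824 697932185 42949674 (corW 3 c0B eng mog cB101E gB0q1 gB0q1 gB2q0 gB3q0 dB0q1 dB0q1 dB2q0 dB3q0 true true)) t 1 1 1 = true :=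
  ⟨(T.l 2), by decide +kernel⟩

def B101E_003 :
    ∃ t, chk3 (onCell 0 67108864 0 1073741824 697932185 42949674 (corW 3 c0B eng mog cB101E gB0q1 gB0q1 gB3q0 gB4q0 dB0q1 dB0q1 dB3q0 dB4q0 true true)) t 1 1 1 = true :=
  ⟨(T.b (T.l 2) (T.l 2)), by decide +kernel⟩

def B101E_004 :
    ∃ t, chk3 (onCell 0 67108864 0 1073741824 697932185 42949674 (corW 3 c0B eng mog cB101E gB0q1 gB0q1 gB4q0 gB5q0 dB0q1 dB0q1 dB4q0 dB5q0 true false)) t 1 1 1 = true :=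
  ⟨(T.a (T.b (T.b (T.b (T.l 204) (T.l 204)) (T.b (T.l 204) (T.l 236))) (T.b (T.b (T.l 204) (T.l 204)) (T.b (T.l 204) (T.l 204)))) (T.b (T.b (T.a (T.a (T.b (T.l 204) (T.l 204)) (T.b (T.l 204) (T.l 204))) (T.b (T.l 204) (T.l 236))) (T.a (T.b (T.b (T.l 204) (T.l 204)) (T.l 204)) (T.b (T.l 236) (T.b (T.l 204) (T.l 204))))) (T.b (T.a (T.b (T.l 204) (T.l 204)) (T.b (T.l 204) (T.l 204))) (T.a (T.b (T.l 204) (T.l 204)) (T.b (T.l 204) (T.l 204)))))), by decide +kernel⟩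

def B101L_500 :
    ∃ t, chk3 (onCell 0 67108864 0 1073741824 697932185 42949674 (corW 3 c0B eng mog cB101L gB5q1 gB0q1 gB0q0 gB1q0 dB5q1 dB0q1 dB0q0 dB1q0 true true)) t 1 1 1 = true :=
  ⟨(T.b (T.l 1) (T.b (T.l 1) (T.b (T.l 1) (T.b (T.b (T.b (T.l 1) (T.b (T.l 1) (T.a (T.l 816) (T.a (T.c (T.l 816) (T.l 816)) (T.l 816))))) (T.a (T.l 816) (T.a (T.c (T.l 816) (T.l 816)) (T.l 816)))) (T.a (T.l 816) (T.a (T.b (T.l 816) (T.l 816)) (T.l 816))))))), by decide +kernel⟩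

def B101L_501 :
    ∃ t, chk3 (onCell 0 67108864 0 1073741824 697932185 42949674 (corW 3 c0B eng mog cB101L gB5q1 gB0q1 gB1q0 gB2q0 dB5q1 dB0q1 dB1q0 dB2q0 true true)) t 1 1 1 = true :=
  ⟨(T.b (T.l 1) (T.b (T.l 1) (T.b (T.l 1) (T.b (T.l 1) (T.l 816))))), by decide +kernel⟩

def B101L_502 :
    ∃ t, chk3 (onCell 0 67108864 0 1073741824 697932185 42949674 (corW 3 c0B eng mog cB101L gB5q1 gB0q1 gB2q0 gB3q0 dB5q1 dB0q1 dB2q0 dB3q0 true true)) t 1 1 1 = true :=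
  ⟨(T.l 1), by decide +kernel⟩

def B101L_503 :
    ∃ t, chk3 (onCell 0 67108864 0 1073741824 697932185 42949674 (corW 3 c0B eng mog cB101L gB5q1 gB0q1 gB3q0 gB4q0 dB5q1 dB0q1 dB3q0 dB4q0 true true)) t 1 1 1 = true :=
  ⟨(T.l 1), by decide +kernel⟩

def B101L_504 :
    ∃ t, chk3 (onCell 0 67108864 0 1073741824 697932185 42949674 (corW 3 c0B eng mog cB101L gB5q1 gB0q1 gB4q0 gB5q0 dB5q1 dB0q1 dB4q0 dB5q0 true false)) t 1 1 1 = true :=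
  ⟨(T.l 1), by decide +kernel⟩

def B101L_600 :
    ∃ t, chk3 (onCell 0 67108864 0 1073741824 697932185 42949674 (corW 3 c0B eng mog cB101L gB6q1 gB0q1 gB0q0 gB1q0 dB6q1 dB0q1 dB0q0 dB1q0 true true)) t 1 1 1 = true :=
  ⟨(T.b (T.l 1) (T.b (T.l 1) (T.b (T.b (T.b (T.l 1) (T.b (T.l 1) (T.a (T.c (T.b (T.c (T.a (T.l 816) (T.l 816)) (T.l 816)) (T.l 816)) (T.l 816)) (T.a (T.c (T.l 816) (T.l 816)) (T.c (T.a (T.l 816) (T.l 816)) (T.l 816)))))) (T.a (T.a (T.l 816) (T.l 816)) (T.a (T.b (T.l 816) (T.l 816)) (T.b (T.l 816) (T.l 816))))) (T.a (T.l 0) (T.b (T.a (T.l 816) (T.l 816)) (T.l 2)))))), by decide +kernel⟩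

def B101L_601 :
    ∃ t, chk3 (onCell 0 67108864 0 1073741824 697932185 42949674 (corW 3 c0B eng mog cB101L gB6q1 gB0q1 gB1q0 gB2q0 dB6q1 dB0q1 dB1q0 dB2q0 true true)) t 1 1 1 = true :=
  ⟨(T.b (T.l 1) (T.b (T.l 1) (T.b (T.l 1) (T.l 816)))), by decide +kernel⟩

def B101L_602 :
    ∃ t, chk3 (onCell 0 67108864 0 1073741824 697932185 42949674 (corW 3 c0B eng mog cB101L gB6q1 gB0q1 gB2q0 gB3q0 dB6q1 dB0q1 dB2q0 dB3q0 true true)) t 1 1 1 = true :=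
  ⟨(T.b (T.l 1) (T.l 1)), by decide +kernel⟩

def B101L_603 :
    ∃ t, chk3 (onCell 0 67108864 0 1073741824 697932185 42949674 (corW 3 c0B eng mog cB101L gB6q1 gB0q1 gB3q0 gB4q0 dB6q1 dB0q1 dB3q0 dB4q0 true true)) t 1 1 1 = true :=
  ⟨(T.l 1), by decide +kernel⟩

def B101L_604 :
    ∃ t, chk3 (onCell 0 67108864 0 1073741824 697932185 42949674 (corW 3 c0B eng mog cB101L gB6q1 gB0q1 gB4q0 gB5q0 dB6q1 dB0q1 dB4q0 dB5q0 true false)) t 1 1 1 = true :=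
  ⟨(T.l 1), by decide +kernel⟩

def B101L_700 :
    ∃ t, chk3 (onCell 0 53687091 0 1073741824 697932185 42949674 (corW 3 c0B eng mog cB101L gB7q1 gB0q1 gB0q0 gB1q0 dB7q1 dB0q1 dB0q0 dB1q0 true true)) t 1 1 1 = true :=
  ⟨(T.b (T.l 1) (T.b (T.b (T.l 1) (T.b (T.b (T.l 1) (T.b (T.b (T.b (T.l 1) (T.a (T.a (T.l 1) (T.a (T.l 1) (T.a (T.l 1) (T.a (T.l 1) (T.b (T.l 1) (T.b (T.l 1) (T.l 0))))))) (T.b (T.a (T.l 1) (T.b (T.l 1) (T.a (T.a (T.l 1) (T.l 0)) (T.l 0)))) (T.a (T.a (T.b (T.l 1) (T.l 0)) (T.c (T.l 0) (T.l 0))) (T.l 0))))) (T.a (T.b (T.a (T.b (T.b (T.l 1) (T.a (T.a (T.l 1) (T.a (T.l 1) (T.b (T.l 1) (T.l 0)))) (T.b (T.a (T.l 1) (T.l 0)) (T.l 0)))) (T.a (T.c (T.c (T.a (T.c (T.a (T.l 0) (T.l 0)) (T.l 0)) (T.l 0)) (T.l 0)) (T.l 0)) (T.l 0))) (T.b (T.a (T.b (T.b (T.l 1) (T.c (T.l 0) (T.l 0))) (T.l 0)) (T.l 0)) (T.l 0))) (T.a (T.l 0) (T.l 0)))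 (T.a (T.c (T.l 0) (T.l 0)) (T.l 0)))) (T.a (T.a (T.l 0) (T.l 0)) (T.l 0)))) (T.b (T.a (T.l 0) (T.l 0)) (T.l 0)))) (T.l 2))), by decide +kernel⟩

def B101L_701 :
    ∃ t, chk3 (onCell 0 53687091 0 1073741824 697932185 42949674 (corW 3 c0B eng mog cB101L gB7q1 gB0q1 gB1q0 gB2q0 dB7q1 dB0q1 dB1q0 dB2q0 true true)) t 1 1 1 = true :=
  ⟨(T.b (T.l 1) (T.b (T.b (T.l 1) (T.b (T.l 1) (T.b (T.l 1) (T.l 0)))) (T.b (T.l 0) (T.l 204)))), by decide +kernel⟩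

def B101L_702 :
    ∃ t, chk3 (onCell 0 53687091 0 1073741824 697932185 42949674 (corW 3 c0B eng mog cB101L gB7q1 gB0q1 gB2q0 gB3q0 dB7q1 dB0q1 dB2q0 dB3q0 true true)) t 1 1 1 = true :=
  ⟨(T.b (T.l 1) (T.b (T.l 1) (T.b (T.l 1) (T.l 204)))), by decide +kernel⟩

def B101L_703 :
    ∃ t, chk3 (onCell 0 53687091 0 1073741824 697932185 42949674 (corW 3 c0B eng mog cB101L gB7q1 gB0q1 gB3q0 gB4q0 dB7q1 dB0q1 dB3q0 dB4q0 true true)) t 1 1 1 = true :=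
  ⟨(T.l 1), by decide +kernel⟩

def B101L_704 :
    ∃ t, chk3 (onCell 0 53687091 0 1073741824 697932185 42949674 (corW 3 c0B eng mog cB101L gB7q1 gB0q1 gB4q0 gB5q0 dB7q1 dB0q1 dB4q0 dB5q0 true false)) t 1 1 1 = true :=
  ⟨(T.l 1), by decide +kernel⟩

def B101R_050 :
    ∃ t, chk3 (onCell 0 67108864 0 1073741824 697932185 42949674 (corW 3 c0B eng mog cB101R gB0q1 gB5q1 gB0q0 gB1q0 dB0q1 dB5q1 dB0q0 dB1q0 true true)) t 1 1 1 = true :=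
  ⟨(T.l 1), by decide +kernel⟩

def B101R_051 :
    ∃ t, chk3 (onCell 0 67108864 0 1073741824 697932185 42949674 (corW 3 c0B eng mog cB101R gB0q1 gB5q1 gB1q0 gB2q0 dB0q1 dB5q1 dB1q0 dB2q0 true true)) t 1 1 1 = true :=
  ⟨(T.l 1), by decide +kernel⟩

def B101R_052 :
    ∃ t, chk3 (onCell 0 67108864 0 1073741824 697932185 42949674 (corW 3 c0B eng mog cB101R gB0q1 gB5q1 gB2q0 gB3q0 dB0q1 dB5q1 dB2q0 dB3q0 true true)) t 1 1 1 = true :=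
  ⟨(T.l 1), by decide +kernel⟩

def B101R_053 :
    ∃ t, chk3 (onCell 0 67108864 0 1073741824 697932185 42949674 (corW 3 c0B eng mog cB101R gB0q1 gB5q1 gB3q0 gB4q0 dB0q1 dB5q1 dB3q0 dB4q0 true true)) t 1 1 1 = true :=
  ⟨(T.l 1), by decide +kernel⟩

def B101R_054 :
    ∃ t, chk3 (onCell 0 67108864 0 1073741824 697932185 42949674 (corW 3 c0B eng mog cB101R gB0q1 gB5q1 gB4q0 gB5q0 dB0q1 dB5q1 dB4q0 dB5q0 true false)) t 1 1 1 = true :=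
  ⟨(T.l 1), by decide +kernel⟩

def B101R_060 :
    ∃ t, chk3 (onCell 0 67108864 0 1073741824 697932185 42949674 (corW 3 c0B eng mog cB101R gB0q1 gB6q1 gB0q0 gB1q0 dB0q1 dB6q1 dB0q0 dB1q0 true true)) t 1 1 1 = true :=
  ⟨(T.l 1), by decide +kernel⟩

def B101R_061 :
    ∃ t, chk3 (onCell 0 67108864 0 1073741824 697932185 42949674 (corW 3 c0B eng mog cB101R gB0q1 gB6q1 gB1q0 gB2q0 dB0q1 dB6q1 dB1q0 dB2q0 true true)) t 1 1 1 = true :=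
  ⟨(T.l 1), by decide +kernel⟩

def B101R_062 :
    ∃ t, chk3 (onCell 0 67108864 0 1073741824 697932185 42949674 (corW 3 c0B eng mog cB101R gB0q1 gB6q1 gB2q0 gB3q0 dB0q1 dB6q1 dB2q0 dB3q0 true true)) t 1 1 1 = true :=
  ⟨(T.l 1), by decide +kernel⟩

def B101R_063 :
    ∃ t, chk3 (onCell 0 67108864 0 1073741824 697932185 42949674 (corW 3 c0B eng mog cB101R gB0q1 gB6q1 gB3q0 gB4q0 dB0q1 dB6q1 dB3q0 dB4q0 true true)) t 1 1 1 = true :=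
  ⟨(T.l 1), by decide +kernel⟩

def B101R_064 :
    ∃ t, chk3 (onCell 0 67108864 0 1073741824 697932185 42949674 (corW 3 c0B eng mog cB101R gB0q1 gB6q1 gB4q0 gB5q0 dB0q1 dB6q1 dB4q0 dB5q0 true false)) t 1 1 1 = true :=
  ⟨(T.l 1), by decide +kernel⟩

def B101R_070 :
    ∃ t, chk3 (onCell 0 67108864 0 1073741824 697932185 42949674 (corW 3 c0B eng mog cB101R gB0q1 gB7q1 gB0q0 gB1q0 dB0q1 dB7q1 dB0q0 dB1q0 true true)) t 1 1 1 = true :=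
  ⟨(T.l 1), by decide +kernel⟩

def B101R_071 :
    ∃ t, chk3 (onCell 0 67108864 0 1073741824 697932185 42949674 (corW 3 c0B eng mog cB101R gB0q1 gB7q1 gB1q0 gB2q0 dB0q1 dB7q1 dB1q0 dB2q0 true true)) t 1 1 1 = true :=
  ⟨(T.l 1), by decide +kernel⟩

def B101R_072 :
    ∃ t, chk3 (onCell 0 67108864 0 1073741824 697932185 42949674 (corW 3 c0B eng mog cB101R gB0q1 gB7q1 gB2q0 gB3q0 dB0q1 dB7q1 dB2q0 dB3q0 true true)) t 1 1 1 = true :=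
  ⟨(T.l 1), by decide +kernel⟩

def B101R_073 :
    ∃ t, chk3 (onCell 0 67108864 0 1073741824 697932185 42949674 (corW 3 c0B eng mog cB101R gB0q1 gB7q1 gB3q0 gB4q0 dB0q1 dB7q1 dB3q0 dB4q0 true true)) t 1 1 1 = true :=
  ⟨(T.l 1), by decide +kernel⟩

def B101R_074 :
    ∃ t, chk3 (onCell 0 67108864 0 1073741824 697932185 42949674 (corW 3 c0B eng mog cB101R gB0q1 gB7q1 gB4q0 gB5q0 dB0q1 dB7q1 dB4q0 dB5q0 true false)) t 1 1 1 = true :=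
  ⟨(T.l 1), by decide +kernel⟩

def B102E_000 :
    ∃ t, chk3 (onCell 0 33554432 0 1073741824 697932185 42949674 (corW 3 c0B eng mog cB102E gB0q1 gB0q2 gB0q0 gB1q0 dB0q1 dB0q2 dB0q0 dB1q0 true true)) t 1 1 1 = true :=
  ⟨(T.b (T.b (T.l 1) (T.b (T.l 1) (T.b (T.l 1) (T.a (T.b (T.l 1) (T.a (T.b (T.l 1) (T.a (T.b (T.l 1) (T.a (T.b (T.l 1) (T.a (T.b (T.l 1) (T.a (T.b (T.l 1) (T.b (T.l 1) (T.l 0))) (T.l 1))) (T.l 1))) (T.l 1))) (T.l 1))) (T.l 1))) (T.l 1))))) (T.b (T.b (T.b (T.b (T.a (T.b (T.a (T.b (T.b (T.a (T.b (T.c (T.a (T.l 0) (T.a (T.l 0) (T.b (T.l 1) (T.l 0)))) (T.a (T.l 0) (T.b (T.a (T.l 0) (T.l 1)) (T.l 0)))) (T.l 0)) (T.b (T.a (T.b (T.l 1) (T.c (T.l 0) (T.c (T.l 0) (T.l 0)))) (T.l 1)) (T.c (T.l 0) (T.l 0)))) (T.c (T.l 0) (T.l 0))) (T.c (T.l 0) (T.l 0))) (T.b (T.b (T.a (T.b (T.l 1) (T.b (T.a (T.a (T.c (T.l 0) (T.l 0)) (T.l 1)) (T.l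 1)) (T.c (T.l 0) (T.c (T.l 0) (T.l 0))))) (T.l 1)) (T.a (T.c (T.l 0) (T.l 0)) (T.b (T.c (T.c (T.l 0) (T.l 0)) (T.a (T.l 0) (T.b (T.l 1) (T.l 0)))) (T.l 0)))) (T.c (T.l 0) (T.l 0)))) (T.c (T.a (T.l 0) (T.l 204)) (T.a (T.l 0) (T.l 204)))) (T.b (T.b (T.a (T.b (T.l 1) (T.b (T.a (T.a (T.a (T.b (T.l 1) (T.l 0)) (T.l 1)) (T.l 1)) (T.l 1)) (T.a (T.c (T.l 0) (T.l 0)) (T.b (T.l 1) (T.c (T.l 0) (T.l 0)))))) (T.l 1)) (T.a (T.b (T.c (T.l 0) (T.l 0)) (T.l 204)) (T.b (T.b (T.a (T.b (T.a (T.l 0) (T.l 1)) (T.l 0)) (T.l 1)) (T.c (T.l 0) (T.c (T.l 0) (T.l 0)))) (T.l 0)))) (T.c (T.a (T.l 204) (T.l 204)) (T.a (T.l 204) (T.l 204))))) (T.a (T.c (T.a (T.l 0) (T.l 204)) (T.a (T.l 204) (T.l 204))) (T.c (T.a (T.l 204) (T.l 204)) (T.a (T.l 204) (T.l 204))))) (T.l 2)) (T.l 2)) (T.l 2))), by decide +kernel⟩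

def B102E_001 :
    ∃ t, chk3 (onCell 0 33554432 0 1073741824 697932185 42949674 (corW 3 c0B eng mog cB102E gB0q1 gB0q2 gB1q0 gB2q0 dB0q1 dB0q2 dB1q0 dB2q0 true true)) t 1 1 1 = true :=
  ⟨(T.b (T.l 1) (T.b (T.b (T.b (T.b (T.l 1) (T.b (T.l 1) (T.a (T.l 204) (T.c (T.l 204) (T.l 204))))) (T.b (T.c (T.a (T.l 204) (T.l 204)) (T.a (T.l 204) (T.l 204))) (T.a (T.l 204) (T.l 204)))) (T.b (T.a (T.l 204) (T.l 204)) (T.l 2))) (T.l 2))), by decide +kernel⟩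

def B102E_002 :
    ∃ t, chk3 (onCell 0 33554432 0 1073741824 697932185 42949674 (corW 3 c0B eng mog cB102E gB0q1 gB0q2 gB2q0 gB3q0 dB0q1 dB0q2 dB2q0 dB3q0 true true)) t 1 1 1 = true :=
  ⟨(T.b (T.l 1) (T.b (T.b (T.l 1) (T.b (T.a (T.l 204) (T.l 204)) (T.l 204))) (T.b (T.l 0) (T.l 2)))), by decide +kernel⟩

def B102E_003 :
    ∃ t, chk3 (onCell 0 33554432 0 1073741824 697932185 42949674 (corW 3 c0B eng mog cB102E gB0q1 gB0q2 gB3q0 gB4q0 dB0q1 dB0q2 dB3q0 dB4q0 true true)) t 1 1 1 = true :=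
  ⟨(T.b (T.l 1) (T.b (T.l 1) (T.b (T.l 0) (T.l 0)))), by decide +kernel⟩

def B102E_004 :
    ∃ t, chk3 (onCell 0 33554432 0 1073741824 697932185 42949674 (corW 3 c0B eng mog cB102E gB0q1 gB0q2 gB4q0 gB5q0 dB0q1 dB0q2 dB4q0 dB5q0 true false)) t 1 1 1 = true :=
  ⟨(T.b (T.l 1) (T.b (T.l 1) (T.b (T.l 1) (T.l 0)))), by decide +kernel⟩

def B102E_010 :
    ∃ t, chk3 (onCell 0 67108864 0 1073741824 697932185 42949674 (corW 3 c0B eng mog cB102E gB0q1 gB1q2 gB0q0 gB1q0 dB0q1 dB1q2 dB0q0 dB1q0 true true)) t 1 1 1 = true :=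
  ⟨(T.b (T.b (T.l 1) (T.b (T.l 1) (T.b (T.l 1) (T.b (T.l 1) (T.a (T.b (T.b (T.a (T.b (T.l 1) (T.a (T.b (T.a (T.l 0) (T.l 1)) (T.l 0)) (T.a (T.l 1) (T.l 1)))) (T.l 1)) (T.a (T.a (T.l 0) (T.c (T.c (T.l 0) (T.l 0)) (T.l 0))) (T.b (T.a (T.b (T.l 1) (T.c (T.l 816) (T.l 816))) (T.l 1)) (T.a (T.l 0) (T.c (T.c (T.l 816) (T.l 816)) (T.l 0)))))) (T.a (T.l 0) (T.c (T.l 0) (T.l 0)))) (T.b (T.l 1) (T.a (T.a (T.c (T.l 0) (T.l 0)) (T.b (T.b (T.a (T.c (T.l 0) (T.l 0)) (T.l 1)) (T.l 0)) (T.l 0))) (T.b (T.a (T.b (T.l 1) (T.c (T.l 0) (T.l 0))) (T.l 1)) (T.a (T.l 204) (T.a (T.l 204) (T.c (T.l 204) (T.l 204)))))))))))) (T.b (T.b (T.b (T.a (T.a (T.l 0) (T.b (T.l 0) (T.l 204))) (T.a (T.a (T.l 204) (T.b (T.l 204) (T.l 204))) (T.a (T.b (T.l 204) (T.l 204)) (T.b (T.a (T.l 204) (T.c (T.l 204) (T.l 204))) (T.l 204))))) (T.l 2)) (T.l 2)) (T.l 2))), by decide +kernel⟩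

def B102E_011 :
    ∃ t, chk3 (onCell 0 67108864 0 1073741824 697932185 42949674 (corW 3 c0B eng mog cB102E gB0q1 gB1q2 gB1q0 gB2q0 dB0q1 dB1q2 dB1q0 dB2q0 true true)) t 1 1 1 = true :=
  ⟨(T.b (T.b (T.l 1) (T.l 1)) (T.b (T.b (T.a (T.b (T.b (T.l 0) (T.l 204)) (T.l 204)) (T.a (T.b (T.b (T.l 1) (T.l 204)) (T.l 204)) (T.b (T.b (T.l 1) (T.c (T.l 204) (T.l 204))) (T.a (T.l 204) (T.l 204))))) (T.a (T.l 204) (T.b (T.a (T.l 204) (T.b (T.l 204) (T.l 2))) (T.l 2)))) (T.l 2))), by decide +kernel⟩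

def B102E_012 :
    ∃ t, chk3 (onCell 0 67108864 0 1073741824 697932185 42949674 (corW 3 c0B eng mog cB102E gB0q1 gB1q2 gB2q0 gB3q0 dB0q1 dB1q2 dB2q0 dB3q0 true true)) t 1 1 1 = true :=
  ⟨(T.b (T.l 1) (T.b (T.b (T.l 1) (T.a (T.l 204) (T.a (T.b (T.l 204) (T.l 204)) (T.b (T.b (T.l 204) (T.l 204)) (T.l 204))))) (T.b (T.a (T.l 0) (T.a (T.b (T.l 204) (T.l 2)) (T.b (T.l 204) (T.l 2)))) (T.l 2)))), by decide +kernel⟩

def B102E_013 :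
    ∃ t, chk3 (onCell 0 67108864 0 1073741824 697932185 42949674 (corW 3 c0B eng mog cB102E gB0q1 gB1q2 gB3q0 gB4q0 dB0q1 dB1q2 dB3q0 dB4q0 true true)) t 1 1 1 = true :=
  ⟨(T.b (T.l 1) (T.b (T.l 1) (T.b (T.a (T.l 0) (T.a (T.b (T.l 204) (T.l 204)) (T.b (T.l 204) (T.l 204)))) (T.a (T.l 0) (T.a (T.b (T.l 0) (T.l 0)) (T.l 0)))))), by decide +kernel⟩

def B102E_014 :
    ∃ t, chk3 (onCell 0 67108864 0 1073741824 697932185 42949674 (corW 3 c0B eng mog cB102E gB0q1 gB1q2 gB4q0 gB5q0 dB0q1 dB1q2 dB4q0 dB5q0 true false)) t 1 1 1 = true :=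
  ⟨(T.b (T.l 1) (T.b (T.l 1) (T.b (T.l 1) (T.a (T.l 0) (T.a (T.b (T.l 1) (T.l 0)) (T.l 0)))))), by decide +kernel⟩

def B102E_020 :
    ∃ t, chk3 (onCell 0 67108864 0 1073741824 697932185 42949674 (corW 3 c0B eng mog cB102E gB0q1 gB2q2 gB0q0 gB1q0 dB0q1 dB2q2 dB0q0 dB1q0 true true)) t 1 1 1 = true :=
  ⟨(T.b (T.b (T.l 1) (T.b (T.l 1) (T.b (T.b (T.l 1) (T.a (T.b (T.b (T.a (T.a (T.l 0) (T.l 1)) (T.l 1)) (T.a (T.l 0) (T.a (T.l 0) (T.c (T.l 816) (T.l 816))))) (T.a (T.l 0) (T.l 0))) (T.b (T.l 1) (T.a (T.a (T.l 0) (T.a (T.l 0) (T.l 820))) (T.b (T.a (T.a (T.l 816) (T.l 1)) (T.l 1)) (T.a (T.l 0) (T.c (T.l 0) (T.l 0)))))))) (T.a (T.a (T.l 0) (T.l 0)) (T.a (T.a (T.l 0) (T.l 0)) (T.a (T.l 0) (T.b (T.l 0) (T.l 0)))))))) (T.b (T.b (T.l 2) (T.l 2)) (T.l 2))), by decide +kernel⟩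

def B102E_021 :
    ∃ t, chk3 (onCell 0 67108864 0 1073741824 697932185 42949674 (corW 3 c0B eng mog cB102E gB0q1 gB2q2 gB1q0 gB2q0 dB0q1 dB2q2 dB1q0 dB2q0 true true)) t 1 1 1 = true :=
  ⟨(T.b (T.b (T.l 1) (T.b (T.l 1) (T.b (T.l 1) (T.a (T.l 0) (T.a (T.l 0) (T.b (T.l 1) (T.l 0))))))) (T.b (T.b (T.a (T.l 0) (T.a (T.l 204) (T.b (T.l 0) (T.l 204)))) (T.l 2)) (T.l 2))), by decide +kernel⟩

def B102E_022 :
    ∃ t, chk3 (onCell 0 67108864 0 1073741824 697932185 42949674 (corW 3 c0B eng mog cB102E gB0q1 gB2q2 gB2q0 gB3q0 dB0q1 dB2q2 dB2q0 dB3q0 true true)) t 1 1 1 = true :=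
  ⟨(T.b (T.l 1) (T.b (T.a (T.b (T.l 204) (T.l 204)) (T.b (T.a (T.l 204) (T.b (T.l 1) (T.l 204))) (T.a (T.b (T.l 204) (T.l 204)) (T.l 0)))) (T.a (T.l 0) (T.b (T.a (T.b (T.l 204) (T.l 2)) (T.l 0)) (T.l 2))))), by decide +kernel⟩

def B102E_023 :
    ∃ t, chk3 (onCell 0 67108864 0 1073741824 697932185 42949674 (corW 3 c0B eng mog cB102E gB0q1 gB2q2 gB3q0 gB4q0 dB0q1 dB2q2 dB3q0 dB4q0 true true)) t 1 1 1 = true :=
  ⟨(T.b (T.l 1) (T.b (T.b (T.l 1) (T.l 1)) (T.a (T.l 0) (T.a (T.b (T.b (T.l 204) (T.l 204)) (T.b (T.l 0) (T.l 0))) (T.b (T.l 0) (T.l 0)))))), by decide +kernel⟩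

def B102E_024 :
    ∃ t, chk3 (onCell 0 67108864 0 1073741824 697932185 42949674 (corW 3 c0B eng mog cB102E gB0q1 gB2q2 gB4q0 gB5q0 dB0q1 dB2q2 dB4q0 dB5q0 true false)) t 1 1 1 = true :=
  ⟨(T.b (T.l 1) (T.b (T.l 1) (T.b (T.l 1) (T.a (T.l 0) (T.a (T.b (T.l 1) (T.l 0)) (T.l 0)))))), by decide +kernel⟩

def B102E_030 :
    ∃ t, chk3 (onCell 0 67108864 0 1073741824 697932185 42949674 (corW 3 c0B eng mog cB102E gB0q1 gB3q2 gB0q0 gB1q0 dB0q1 dB3q2 dB0q0 dB1q0 true true)) t 1 1 1 = true :=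
  ⟨(T.b (T.b (T.l 1) (T.b (T.b (T.b (T.l 1) (T.a (T.a (T.l 204) (T.l 204)) (T.b (T.a (T.a (T.l 204) (T.l 1)) (T.l 1)) (T.a (T.a (T.l 204) (T.l 204)) (T.a (T.l 204) (T.l 204)))))) (T.a (T.l 204) (T.a (T.a (T.l 204) (T.l 204)) (T.a (T.l 204) (T.l 204))))) (T.a (T.l 2) (T.l 2)))) (T.l 2)), by decide +kernel⟩

def B102E_031 :
    ∃ t, chk3 (onCell 0 67108864 0 1073741824 697932185 42949674 (corW 3 c0B eng mog cB102E gB0q1 gB3q2 gB1q0 gB2q0 dB0q1 dB3q2 dB1q0 dB2q0 true true)) t 1 1 1 = true :=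
  ⟨(T.b (T.b (T.l 1) (T.b (T.b (T.l 1) (T.a (T.l 204) (T.b (T.l 1) (T.a (T.l 204) (T.l 204))))) (T.a (T.l 204) (T.a (T.l 204) (T.b (T.l 204) (T.l 204)))))) (T.b (T.b (T.a (T.l 204) (T.a (T.l 204) (T.l 0))) (T.l 2)) (T.l 2))), by decide +kernel⟩

def B102E_032 :
    ∃ t, chk3 (onCell 0 67108864 0 1073741824 697932185 42949674 (corW 3 c0B eng mog cB102E gB0q1 gB3q2 gB2q0 gB3q0 dB0q1 dB3q2 dB2q0 dB3q0 true true)) t 1 1 1 = true :=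
  ⟨(T.b (T.b (T.l 1) (T.b (T.l 1) (T.a (T.l 204) (T.b (T.l 1) (T.l 0))))) (T.b (T.a (T.l 204) (T.b (T.a (T.l 204) (T.l 0)) (T.a (T.l 0) (T.l 204)))) (T.l 2))), by decide +kernel⟩

def B102E_033 :
    ∃ t, chk3 (onCell 0 67108864 0 1073741824 697932185 42949674 (corW 3 c0B eng mog cB102E gB0q1 gB3q2 gB3q0 gB4q0 dB0q1 dB3q2 dB3q0 dB4q0 true true)) t 1 1 1 = true :=
  ⟨(T.b (T.l 1) (T.b (T.b (T.l 1) (T.a (T.l 204) (T.a (T.l 0) (T.l 204)))) (T.a (T.l 0) (T.a (T.b (T.l 0) (T.l 0)) (T.b (T.l 0) (T.l 0)))))), by decide +kernel⟩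

def B102E_034 :
    ∃ t, chk3 (onCell 0 67108864 0 1073741824 697932185 42949674 (corW 3 c0B eng mog cB102E gB0q1 gB3q2 gB4q0 gB5q0 dB0q1 dB3q2 dB4q0 dB5q0 true false)) t 1 1 1 = true :=
  ⟨(T.b (T.l 1) (T.b (T.l 1) (T.a (T.l 0) (T.b (T.l 1) (T.a (T.b (T.l 0) (T.l 204)) (T.l 0)))))), by decide +kernel⟩

def B102E_040 :
    ∃ t, chk3 (onCell 0 67108864 0 1073741824 697932185 42949674 (corW 3 c0B eng mog cB102E gB0q1 gB4q2 gB0q0 gB1q0 dB0q1 dB4q2 dB0q0 dB1q0 true true)) t 1 1 1 = true :=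
  ⟨(T.b (T.b (T.b (T.b (T.l 1) (T.b (T.a (T.b (T.l 1) (T.b (T.l 1) (T.a (T.l 204) (T.l 204)))) (T.l 1)) (T.a (T.a (T.l 204) (T.l 204)) (T.a (T.a (T.l 204) (T.l 204)) (T.c (T.l 204) (T.l 204)))))) (T.b (T.a (T.l 204) (T.a (T.a (T.l 204) (T.l 204)) (T.b (T.l 204) (T.l 204)))) (T.l 2))) (T.l 2)) (T.l 2)), by decide +kernel⟩

def B102E_041 :
    ∃ t, chk3 (onCell 0 67108864 0 1073741824 697932185 42949674 (corW 3 c0B eng mog cB102E gB0q1 gB4q2 gB1q0 gB2q0 dB0q1 dB4q2 dB1q0 dB2q0 true true)) t 1 1 1 = true :=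
  ⟨(T.b (T.b (T.b (T.l 1) (T.a (T.b (T.l 204) (T.l 204)) (T.b (T.a (T.b (T.l 1) (T.l 204)) (T.l 204)) (T.a (T.l 204) (T.l 204))))) (T.a (T.l 204) (T.b (T.b (T.l 204) (T.l 204)) (T.l 2)))) (T.l 2)), by decide +kernel⟩

def B102E_042 :
    ∃ t, chk3 (onCell 0 67108864 0 1073741824 697932185 42949674 (corW 3 c0B eng mog cB102E gB0q1 gB4q2 gB2q0 gB3q0 dB0q1 dB4q2 dB2q0 dB3q0 true true)) t 1 1 1 = true :=
  ⟨(T.b (T.b (T.l 1) (T.a (T.l 204) (T.b (T.b (T.l 1) (T.l 204)) (T.l 0)))) (T.b (T.a (T.l 204) (T.b (T.b (T.l 0) (T.l 0)) (T.b (T.l 0) (T.l 2)))) (T.l 2))), by decide +kernel⟩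

def B102E_043 :
    ∃ t, chk3 (onCell 0 67108864 0 1073741824 697932185 42949674 (corW 3 c0B eng mog cB102E gB0q1 gB4q2 gB3q0 gB4q0 dB0q1 dB4q2 dB3q0 dB4q0 true true)) t 1 1 1 = true :=
  ⟨(T.b (T.l 1) (T.b (T.a (T.l 204) (T.b (T.b (T.l 1) (T.l 0)) (T.a (T.l 204) (T.l 204)))) (T.a (T.l 0) (T.b (T.a (T.l 0) (T.l 204)) (T.a (T.l 0) (T.l 0)))))), by decide +kernel⟩

def B102E_044 :
    ∃ t, chk3 (onCell 0 67108864 0 1073741824 697932185 42949674 (corW 3 c0B eng mog cB102E gB0q1 gB4q2 gB4q0 gB5q0 dB0q1 dB4q2 dB4q0 dB5q0 true false)) t 1 1 1 = true :=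
  ⟨(T.b (T.l 1) (T.b (T.l 1) (T.a (T.l 0) (T.b (T.l 1) (T.a (T.b (T.l 204) (T.l 204)) (T.l 204)))))), by decide +kernel⟩

def B102L_500 :
    ∃ t, chk3 (onCell 0 67108864 0 1073741824 697932185 42949674 (corW 3 c0B eng mog cB102L gB5q1 gB0q2 gB0q0 gB1q0 dB5q1 dB0q2 dB0q0 dB1q0 true true)) t 1 1 1 = true :=
  ⟨(T.b (T.l 2) (T.b (T.l 2) (T.b (T.l 2) (T.a (T.l 0) (T.l 2))))), by decide +kernel⟩

def B102L_501 :
    ∃ t, chk3 (onCell 0 67108864 0 1073741824 697932185 42949674 (corW 3 c0B eng mog cB102L gB5q1 gB0q2 gB1q0 gB2q0 dB5q1 dB0q2 dB1q0 dB2q0 true true)) t 1 1 1 = true :=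
  ⟨(T.b (T.l 2) (T.b (T.l 2) (T.l 0))), by decide +kernel⟩

def B102L_502 :
    ∃ t, chk3 (onCell 0 67108864 0 1073741824 697932185 42949674 (corW 3 c0B eng mog cB102L gB5q1 gB0q2 gB2q0 gB3q0 dB5q1 dB0q2 dB2q0 dB3q0 true true)) t 1 1 1 = true :=
  ⟨(T.b (T.b (T.l 2) (T.b (T.l 2) (T.b (T.a (T.l 2) (T.l 2)) (T.a (T.l 204) (T.l 204))))) (T.b (T.a (T.l 204) (T.b (T.b (T.l 204) (T.l 204)) (T.l 204))) (T.l 0))), by decide +kernel⟩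

def B102L_503 :
    ∃ t, chk3 (onCell 0 67108864 0 1073741824 697932185 42949674 (corW 3 c0B eng mog cB102L gB5q1 gB0q2 gB3q0 gB4q0 dB5q1 dB0q2 dB3q0 dB4q0 true true)) t 1 1 1 = true :=
  ⟨(T.b (T.b (T.b (T.a (T.a (T.l 204) (T.l 2)) (T.l 2)) (T.a (T.a (T.l 204) (T.l 204)) (T.b (T.l 2) (T.l 204)))) (T.b (T.a (T.a (T.l 204) (T.l 204)) (T.b (T.l 204) (T.l 204))) (T.a (T.a (T.l 204) (T.l 204)) (T.b (T.l 204) (T.l 204))))) (T.b (T.a (T.l 204) (T.b (T.b (T.l 204) (T.l 1)) (T.l 1))) (T.l 1))), by decide +kernel⟩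

def B102L_504 :
    ∃ t, chk3 (onCell 0 67108864 0 1073741824 697932185 42949674 (corW 3 c0B eng mog cB102L gB5q1 gB0q2 gB4q0 gB5q0 dB5q1 dB0q2 dB4q0 dB5q0 true false)) t 1 1 1 = true :=
  ⟨(T.b (T.b (T.b (T.a (T.a (T.l 204) (T.l 204)) (T.a (T.l 204) (T.l 204))) (T.a (T.a (T.l 204) (T.l 204)) (T.b (T.l 204) (T.l 204)))) (T.a (T.l 1) (T.a (T.b (T.l 204) (T.l 1)) (T.l 0)))) (T.l 1)), by decide +kernel⟩

def B102L_510 :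
    ∃ t, chk3 (onCell 0 67108864 0 1073741824 697932185 42949674 (corW 3 c0B eng mog cB102L gB5q1 gB1q2 gB0q0 gB1q0 dB5q1 dB1q2 dB0q0 dB1q0 true true)) t 1 1 1 = true :=
  ⟨(T.b (T.l 2) (T.b (T.l 2) (T.a (T.l 0) (T.b (T.l 2) (T.l 2))))), by decide +kernel⟩

def B102L_511 :
    ∃ t, chk3 (onCell 0 67108864 0 1073741824 697932185 42949674 (corW 3 c0B eng mog cB102L gB5q1 gB1q2 gB1q0 gB2q0 dB5q1 dB1q2 dB1q0 dB2q0 true true)) t 1 1 1 = true :=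
  ⟨(T.b (T.l 2) (T.b (T.b (T.l 2) (T.l 204)) (T.l 0))), by decide +kernel⟩

def B102L_512 :
    ∃ t, chk3 (onCell 0 67108864 0 1073741824 697932185 42949674 (corW 3 c0B eng mog cB102L gB5q1 gB1q2 gB2q0 gB3q0 dB5q1 dB1q2 dB2q0 dB3q0 true true)) t 1 1 1 = true :=
  ⟨(T.b (T.b (T.l 2) (T.a (T.l 204) (T.a (T.b (T.l 2) (T.l 204)) (T.l 0)))) (T.b (T.b (T.a (T.l 204) (T.b (T.l 204) (T.l 204))) (T.l 204)) (T.l 0))), by decide +kernel⟩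

def B102L_513 :
    ∃ t, chk3 (onCell 0 67108864 0 1073741824 697932185 42949674 (corW 3 c0B eng mog cB102L gB5q1 gB1q2 gB3q0 gB4q0 dB5q1 dB1q2 dB3q0 dB4q0 true true)) t 1 1 1 = true :=
  ⟨(T.b (T.b (T.b (T.a (T.a (T.l 204) (T.l 204)) (T.b (T.l 2) (T.l 204))) (T.a (T.l 204) (T.l 204))) (T.a (T.l 204) (T.a (T.b (T.l 204) (T.l 204)) (T.l 0)))) (T.b (T.a (T.l 1) (T.l 1)) (T.l 1))), by decide +kernel⟩

def B102L_514 :
    ∃ t, chk3 (onCell 0 67108864 0 1073741824 697932185 42949674 (corW 3 c0B eng mog cB102L gB5q1 gB1q2 gB4q0 gB5q0 dB5q1 dB1q2 dB4q0 dB5q0 true false)) t 1 1 1 = true :=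
  ⟨(T.b (T.b (T.b (T.a (T.a (T.l 204) (T.l 204)) (T.b (T.l 204) (T.l 204))) (T.a (T.l 204) (T.l 0))) (T.l 1)) (T.l 1)), by decide +kernel⟩

def B102L_520 :
    ∃ t, chk3 (onCell 0 67108864 0 1073741824 697932185 42949674 (corW 3 c0B eng mog cB102L gB5q1 gB2q2 gB0q0 gB1q0 dB5q1 dB2q2 dB0q0 dB1q0 true true)) t 1 1 1 = true :=
  ⟨(T.b (T.l 2) (T.b (T.l 2) (T.a (T.l 0) (T.b (T.l 2) (T.l 2))))), by decide +kernel⟩

def B102L_521 :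
    ∃ t, chk3 (onCell 0 67108864 0 1073741824 697932185 42949674 (corW 3 c0B eng mog cB102L gB5q1 gB2q2 gB1q0 gB2q0 dB5q1 dB2q2 dB1q0 dB2q0 true true)) t 1 1 1 = true :=
  ⟨(T.b (T.l 2) (T.b (T.b (T.l 2) (T.l 204)) (T.l 0))), by decide +kernel⟩

def B102L_522 :
    ∃ t, chk3 (onCell 0 67108864 0 1073741824 697932185 42949674 (corW 3 c0B eng mog cB102L gB5q1 gB2q2 gB2q0 gB3q0 dB5q1 dB2q2 dB2q0 dB3q0 true true)) t 1 1 1 = true :=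
  ⟨(T.b (T.b (T.b (T.l 2) (T.a (T.l 204) (T.l 2))) (T.a (T.l 204) (T.b (T.l 204) (T.l 0)))) (T.b (T.b (T.a (T.l 204) (T.b (T.l 204) (T.l 204))) (T.l 204)) (T.l 1))), by decide +kernel⟩

def B102L_523 :
    ∃ t, chk3 (onCell 0 67108864 0 1073741824 697932185 42949674 (corW 3 c0B eng mog cB102L gB5q1 gB2q2 gB3q0 gB4q0 dB5q1 dB2q2 dB3q0 dB4q0 true true)) t 1 1 1 = true :=
  ⟨(T.b (T.b (T.b (T.a (T.a (T.l 204) (T.l 204)) (T.l 204)) (T.a (T.l 204) (T.l 204))) (T.a (T.l 204) (T.b (T.l 204) (T.l 1)))) (T.l 1)), by decide +kernel⟩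

def B102L_524 :
    ∃ t, chk3 (onCell 0 67108864 0 1073741824 697932185 42949674 (corW 3 c0B eng mog cB102L gB5q1 gB2q2 gB4q0 gB5q0 dB5q1 dB2q2 dB4q0 dB5q0 true false)) t 1 1 1 = true :=
  ⟨(T.b (T.b (T.a (T.l 1) (T.b (T.l 204) (T.l 1))) (T.l 1)) (T.l 1)), by decide +kernel⟩

def B102L_530 :
    ∃ t, chk3 (onCell 0 67108864 0 1073741824 697932185 42949674 (corW 3 c0B eng mog cB102L gB5q1 gB3q2 gB0q0 gB1q0 dB5q1 dB3q2 dB0q0 dB1q0 true true)) t 1 1 1 = true :=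
  ⟨(T.b (T.l 2) (T.b (T.l 2) (T.a (T.l 0) (T.l 2)))), by decide +kernel⟩

def B102L_531 :
    ∃ t, chk3 (onCell 0 67108864 0 1073741824 697932185 42949674 (corW 3 c0B eng mog cB102L gB5q1 gB3q2 gB1q0 gB2q0 dB5q1 dB3q2 dB1q0 dB2q0 true true)) t 1 1 1 = true :=
  ⟨(T.b (T.b (T.l 2) (T.a (T.l 204) (T.b (T.l 2) (T.l 204)))) (T.b (T.b (T.a (T.l 204) (T.l 0)) (T.l 204)) (T.l 0))), by decide +kernel⟩

def B102L_532 :
    ∃ t, chk3 (onCell 0 67108864 0 1073741824 697932185 42949674 (corW 3 c0B eng mog cB102L gB5q1 gB3q2 gB2q0 gB3q0 dB5q1 dB3q2 dB2q0 dB3q0 true true)) t 1 1 1 = true :=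
  ⟨(T.b (T.b (T.a (T.a (T.l 204) (T.b (T.l 204) (T.l 204))) (T.b (T.l 204) (T.l 204))) (T.a (T.l 204) (T.b (T.l 204) (T.l 204)))) (T.b (T.b (T.a (T.l 1) (T.l 0)) (T.l 1)) (T.l 1))), by decide +kernel⟩

def B102L_533 :
    ∃ t, chk3 (onCell 0 67108864 0 1073741824 697932185 42949674 (corW 3 c0B eng mog cB102L gB5q1 gB3q2 gB3q0 gB4q0 dB5q1 dB3q2 dB3q0 dB4q0 true true)) t 1 1 1 = true :=
  ⟨(T.l 1), by decide +kernel⟩

def B102L_534 :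
    ∃ t, chk3 (onCell 0 67108864 0 1073741824 697932185 42949674 (corW 3 c0B eng mog cB102L gB5q1 gB3q2 gB4q0 gB5q0 dB5q1 dB3q2 dB4q0 dB5q0 true false)) t 1 1 1 = true :=
  ⟨(T.l 1), by decide +kernel⟩

def B102L_540 :
    ∃ t, chk3 (onCell 0 67108864 0 1073741824 697932185 42949674 (corW 3 c0B eng mog cB102L gB5q1 gB4q2 gB0q0 gB1q0 dB5q1 dB4q2 dB0q0 dB1q0 true true)) t 1 1 1 = true :=
  ⟨(T.b (T.a (T.a (T.l 204) (T.l 2)) (T.l 2)) (T.a (T.l 0) (T.b (T.l 2) (T.l 2)))), by decide +kernel⟩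

def B102L_541 :
    ∃ t, chk3 (onCell 0 67108864 0 1073741824 697932185 42949674 (corW 3 c0B eng mog cB102L gB5q1 gB4q2 gB1q0 gB2q0 dB5q1 dB4q2 dB1q0 dB2q0 true true)) t 1 1 1 = true :=
  ⟨(T.b (T.a (T.b (T.b (T.a (T.l 204) (T.l 204)) (T.l 204)) (T.l 204)) (T.b (T.a (T.l 204) (T.l 204)) (T.b (T.l 204) (T.l 204)))) (T.b (T.b (T.a (T.l 204) (T.l 0)) (T.l 204)) (T.l 0))), by decide +kernel⟩

def B102L_542 :
    ∃ t, chk3 (onCell 0 67108864 0 1073741824 697932185 42949674 (corW 3 c0B eng mog cB102L gB5q1 gB4q2 gB2q0 gB3q0 dB5q1 dB4q2 dB2q0 dB3q0 true true)) t 1 1 1 = true :=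
  ⟨(T.l 1), by decide +kernel⟩

def B102L_543 :
    ∃ t, chk3 (onCell 0 67108864 0 1073741824 697932185 42949674 (corW 3 c0B eng mog cB102L gB5q1 gB4q2 gB3q0 gB4q0 dB5q1 dB4q2 dB3q0 dB4q0 true true)) t 1 1 1 = true :=
  ⟨(T.l 1), by decide +kernel⟩

def B102L_544 :
    ∃ t, chk3 (onCell 0 67108864 0 1073741824 697932185 42949674 (corW 3 c0B eng mog cB102L gB5q1 gB4q2 gB4q0 gB5q0 dB5q1 dB4q2 dB4q0 dB5q0 true false)) t 1 1 1 = true :=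
  ⟨(T.l 1), by decide +kernel⟩

def B102L_600 :
    ∃ t, chk3 (onCell 0 67108864 0 1073741824 697932185 42949674 (corW 3 c0B eng mog cB102L gB6q1 gB0q2 gB0q0 gB1q0 dB6q1 dB0q2 dB0q0 dB1q0 true true)) t 1 1 1 = true :=
  ⟨(T.b (T.l 2) (T.l 2)), by decide +kernel⟩

def B102L_601 :
    ∃ t, chk3 (onCell 0 67108864 0 1073741824 697932185 42949674 (corW 3 c0B eng mog cB102L gB6q1 gB0q2 gB1q0 gB2q0 dB6q1 dB0q2 dB1q0 dB2q0 true true)) t 1 1 1 = true :=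
  ⟨(T.b (T.l 2) (T.b (T.l 2) (T.l 0))), by decide +kernel⟩

def B102L_602 :
    ∃ t, chk3 (onCell 0 67108864 0 1073741824 697932185 42949674 (corW 3 c0B eng mog cB102L gB6q1 gB0q2 gB2q0 gB3q0 dB6q1 dB0q2 dB2q0 dB3q0 true true)) t 1 1 1 = true :=
  ⟨(T.b (T.b (T.l 2) (T.b (T.l 2) (T.a (T.b (T.l 2) (T.l 204)) (T.l 2)))) (T.b (T.a (T.l 204) (T.b (T.b (T.l 204) (T.l 204)) (T.l 204))) (T.l 0))), by decide +kernel⟩

def B102L_603 :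
    ∃ t, chk3 (onCell 0 67108864 0 1073741824 697932185 42949674 (corW 3 c0B eng mog cB102L gB6q1 gB0q2 gB3q0 gB4q0 dB6q1 dB0q2 dB3q0 dB4q0 true true)) t 1 1 1 = true :=
  ⟨(T.b (T.b (T.b (T.a (T.a (T.l 204) (T.l 2)) (T.l 2)) (T.a (T.a (T.l 204) (T.l 204)) (T.b (T.l 2) (T.l 204)))) (T.b (T.a (T.a (T.l 204) (T.l 204)) (T.b (T.l 204) (T.l 204))) (T.a (T.a (T.l 204) (T.l 204)) (T.b (T.l 204) (T.l 204))))) (T.b (T.a (T.l 204) (T.b (T.b (T.l 204) (T.l 204)) (T.l 1))) (T.l 1))), by decide +kernel⟩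

def B102L_604 :
    ∃ t, chk3 (onCell 0 67108864 0 1073741824 697932185 42949674 (corW 3 c0B eng mog cB102L gB6q1 gB0q2 gB4q0 gB5q0 dB6q1 dB0q2 dB4q0 dB5q0 true false)) t 1 1 1 = true :=
  ⟨(T.b (T.b (T.b (T.a (T.a (T.l 204) (T.l 204)) (T.a (T.l 204) (T.l 204))) (T.a (T.a (T.l 204) (T.l 204)) (T.b (T.l 204) (T.l 204)))) (T.a (T.l 1) (T.a (T.b (T.l 204) (T.l 1)) (T.l 0)))) (T.l 1)), by decide +kernel⟩

def B102L_610 :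
    ∃ t, chk3 (onCell 0 67108864 0 1073741824 697932185 42949674 (corW 3 c0B eng mog cB102L gB6q1 gB1q2 gB0q0 gB1q0 dB6q1 dB1q2 dB0q0 dB1q0 true true)) t 1 1 1 = true :=
  ⟨(T.b (T.l 2) (T.l 2)), by decide +kernel⟩

def B102L_611 :
    ∃ t, chk3 (onCell 0 67108864 0 1073741824 697932185 42949674 (corW 3 c0B eng mog cB102L gB6q1 gB1q2 gB1q0 gB2q0 dB6q1 dB1q2 dB1q0 dB2q0 true true)) t 1 1 1 = true :=
  ⟨(T.b (T.l 2) (T.b (T.l 2) (T.l 0))), by decide +kernel⟩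

def B102L_612 :
    ∃ t, chk3 (onCell 0 67108864 0 1073741824 697932185 42949674 (corW 3 c0B eng mog cB102L gB6q1 gB1q2 gB2q0 gB3q0 dB6q1 dB1q2 dB2q0 dB3q0 true true)) t 1 1 1 = true :=
  ⟨(T.b (T.b (T.l 2) (T.a (T.l 204) (T.b (T.l 2) (T.l 16)))) (T.b (T.b (T.a (T.l 204) (T.b (T.l 204) (T.l 204))) (T.l 204)) (T.l 0))), by decide +kernel⟩

def B102L_613 :
    ∃ t, chk3 (onCell 0 67108864 0 1073741824 697932185 42949674 (corW 3 c0B eng mog cB102L gB6q1 gB1q2 gB3q0 gB4q0 dB6q1 dB1q2 dB3q0 dB4q0 true true)) t 1 1 1 = true :=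
  ⟨(T.b (T.b (T.a (T.b (T.a (T.l 204) (T.l 204)) (T.l 204)) (T.a (T.l 204) (T.l 204))) (T.a (T.l 204) (T.b (T.l 0) (T.l 16)))) (T.b (T.a (T.l 204) (T.b (T.b (T.l 204) (T.l 1)) (T.l 1))) (T.l 1))), by decide +kernel⟩

def B102L_614 :
    ∃ t, chk3 (onCell 0 67108864 0 1073741824 697932185 42949674 (corW 3 c0B eng mog cB102L gB6q1 gB1q2 gB4q0 gB5q0 dB6q1 dB1q2 dB4q0 dB5q0 true false)) t 1 1 1 = true :=
  ⟨(T.b (T.b (T.a (T.b (T.a (T.l 204) (T.l 204)) (T.l 204)) (T.a (T.l 204) (T.l 204))) (T.a (T.l 1) (T.l 1))) (T.l 1)), by decide +kernel⟩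

def B102L_620 :
    ∃ t, chk3 (onCell 0 67108864 0 1073741824 697932185 42949674 (corW 3 c0B eng mog cB102L gB6q1 gB2q2 gB0q0 gB1q0 dB6q1 dB2q2 dB0q0 dB1q0 true true)) t 1 1 1 = true :=
  ⟨(T.b (T.l 2) (T.l 2)), by decide +kernel⟩

def B102L_621 :
    ∃ t, chk3 (onCell 0 67108864 0 1073741824 697932185 42949674 (corW 3 c0B eng mog cB102L gB6q1 gB2q2 gB1q0 gB2q0 dB6q1 dB2q2 dB1q0 dB2q0 true true)) t 1 1 1 = true :=
  ⟨(T.b (T.l 2) (T.b (T.l 2) (T.l 0))), by decide +kernel⟩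

def B102L_622 :
    ∃ t, chk3 (onCell 0 67108864 0 1073741824 697932185 42949674 (corW 3 c0B eng mog cB102L gB6q1 gB2q2 gB2q0 gB3q0 dB6q1 dB2q2 dB2q0 dB3q0 true true)) t 1 1 1 = true :=
  ⟨(T.b (T.b (T.a (T.b (T.l 2) (T.l 204)) (T.l 2)) (T.a (T.l 204) (T.b (T.l 204) (T.l 204)))) (T.b (T.b (T.a (T.l 204) (T.l 0)) (T.l 204)) (T.l 0))), by decide +kernel⟩

def B102L_623 :
    ∃ t, chk3 (onCell 0 67108864 0 1073741824 697932185 42949674 (corW 3 c0B eng mog cB102L gB6q1 gB2q2 gB3q0 gB4q0 dB6q1 dB2q2 dB3q0 dB4q0 true true)) t 1 1 1 = true :=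
  ⟨(T.b (T.b (T.a (T.a (T.l 204) (T.b (T.l 204) (T.l 204))) (T.b (T.l 204) (T.l 204))) (T.a (T.l 204) (T.b (T.l 204) (T.l 204)))) (T.l 1)), by decide +kernel⟩

def B102L_624 :
    ∃ t, chk3 (onCell 0 67108864 0 1073741824 697932185 42949674 (corW 3 c0B eng mog cB102L gB6q1 gB2q2 gB4q0 gB5q0 dB6q1 dB2q2 dB4q0 dB5q0 true false)) t 1 1 1 = true :=
  ⟨(T.b (T.b (T.a (T.l 1) (T.b (T.l 204) (T.l 1))) (T.l 1)) (T.l 1)), by decide +kernel⟩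

def B102L_630 :
    ∃ t, chk3 (onCell 0 67108864 0 1073741824 697932185 42949674 (corW 3 c0B eng mog cB102L gB6q1 gB3q2 gB0q0 gB1q0 dB6q1 dB3q2 dB0q0 dB1q0 true true)) t 1 1 1 = true :=
  ⟨(T.l 2), by decide +kernel⟩

def B102L_631 :
    ∃ t, chk3 (onCell 0 67108864 0 1073741824 697932185 42949674 (corW 3 c0B eng mog cB102L gB6q1 gB3q2 gB1q0 gB2q0 dB6q1 dB3q2 dB1q0 dB2q0 true true)) t 1 1 1 = true :=
  ⟨(T.b (T.b (T.l 2) (T.a (T.l 204) (T.l 2))) (T.b (T.b (T.a (T.l 204) (T.l 204)) (T.l 204)) (T.l 0))), by decide +kernel⟩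

def B102L_632 :
    ∃ t, chk3 (onCell 0 67108864 0 1073741824 697932185 42949674 (corW 3 c0B eng mog cB102L gB6q1 gB3q2 gB2q0 gB3q0 dB6q1 dB3q2 dB2q0 dB3q0 true true)) t 1 1 1 = true :=
  ⟨(T.b (T.b (T.a (T.a (T.l 204) (T.b (T.l 204) (T.l 204))) (T.b (T.l 204) (T.l 204))) (T.a (T.l 204) (T.b (T.l 204) (T.l 204)))) (T.b (T.b (T.a (T.l 204) (T.l 204)) (T.l 204)) (T.l 1))), by decide +kernel⟩

def B102L_633 :
    ∃ t, chk3 (onCell 0 67108864 0 1073741824 697932185 42949674 (corW 3 c0B eng mog cB102L gB6q1 gB3q2 gB3q0 gB4q0 dB6q1 dB3q2 dB3q0 dB4q0 true true)) t 1 1 1 = true :=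
  ⟨(T.l 1), by decide +kernel⟩

def B102L_634 :
    ∃ t, chk3 (onCell 0 67108864 0 1073741824 697932185 42949674 (corW 3 c0B eng mog cB102L gB6q1 gB3q2 gB4q0 gB5q0 dB6q1 dB3q2 dB4q0 dB5q0 true false)) t 1 1 1 = true :=
  ⟨(T.l 1), by decide +kernel⟩

def B102L_640 :
    ∃ t, chk3 (onCell 0 67108864 0 1073741824 697932185 42949674 (corW 3 c0B eng mog cB102L gB6q1 gB4q2 gB0q0 gB1q0 dB6q1 dB4q2 dB0q0 dB1q0 true true)) t 1 1 1 = true :=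
  ⟨(T.b (T.b (T.b (T.a (T.a (T.l 204) (T.l 2)) (T.l 2)) (T.l 2)) (T.l 2)) (T.l 2)), by decide +kernel⟩

def B102L_641 :
    ∃ t, chk3 (onCell 0 67108864 0 1073741824 697932185 42949674 (corW 3 c0B eng mog cB102L gB6q1 gB4q2 gB1q0 gB2q0 dB6q1 dB4q2 dB1q0 dB2q0 true true)) t 1 1 1 = true :=
  ⟨(T.b (T.b (T.a (T.b (T.a (T.l 204) (T.l 204)) (T.l 204)) (T.a (T.l 204) (T.l 204))) (T.a (T.l 204) (T.b (T.l 204) (T.l 204)))) (T.b (T.b (T.a (T.l 204) (T.l 204)) (T.l 204)) (T.l 0))), by decide +kernel⟩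

def B102L_642 :
    ∃ t, chk3 (onCell 0 67108864 0 1073741824 697932185 42949674 (corW 3 c0B eng mog cB102L gB6q1 gB4q2 gB2q0 gB3q0 dB6q1 dB4q2 dB2q0 dB3q0 true true)) t 1 1 1 = true :=
  ⟨(T.l 1), by decide +kernel⟩

def B102L_643 :
    ∃ t, chk3 (onCell 0 67108864 0 1073741824 697932185 42949674 (corW 3 c0B eng mog cB102L gB6q1 gB4q2 gB3q0 gB4q0 dB6q1 dB4q2 dB3q0 dB4q0 true true)) t 1 1 1 = true :=
  ⟨(T.l 1), by decide +kernel⟩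

def B102L_644 :
    ∃ t, chk3 (onCell 0 67108864 0 1073741824 697932185 42949674 (corW 3 c0B eng mog cB102L gB6q1 gB4q2 gB4q0 gB5q0 dB6q1 dB4q2 dB4q0 dB5q0 true false)) t 1 1 1 = true :=
  ⟨(T.l 1), by decide +kernel⟩

def B102L_700 :
    ∃ t, chk3 (onCell 0 67108864 0 1073741824 697932185 42949674 (corW 3 c0B eng mog cB102L gB7q1 gB0q2 gB0q0 gB1q0 dB7q1 dB0q2 dB0q0 dB1q0 true true)) t 1 1 1 = true :=
  ⟨(T.l 2), by decide +kernel⟩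

def B102L_701 :
    ∃ t, chk3 (onCell 0 67108864 0 1073741824 697932185 42949674 (corW 3 c0B eng mog cB102L gB7q1 gB0q2 gB1q0 gB2q0 dB7q1 dB0q2 dB1q0 dB2q0 true true)) t 1 1 1 = true :=
  ⟨(T.b (T.l 2) (T.b (T.l 2) (T.l 2))), by decide +kernel⟩

def B102L_702 :
    ∃ t, chk3 (onCell 0 67108864 0 1073741824 697932185 42949674 (corW 3 c0B eng mog cB102L gB7q1 gB0q2 gB2q0 gB3q0 dB7q1 dB0q2 dB2q0 dB3q0 true true)) t 1 1 1 = true :=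
  ⟨(T.b (T.b (T.l 2) (T.l 2)) (T.a (T.l 0) (T.b (T.b (T.l 2) (T.l 204)) (T.l 204)))), by decide +kernel⟩

def B102L_703 :
    ∃ t, chk3 (onCell 0 67108864 0 1073741824 697932185 42949674 (corW 3 c0B eng mog cB102L gB7q1 gB0q2 gB3q0 gB4q0 dB7q1 dB0q2 dB3q0 dB4q0 true true)) t 1 1 1 = true :=
  ⟨(T.b (T.b (T.a (T.a (T.l 204) (T.b (T.l 2) (T.l 204))) (T.b (T.l 2) (T.l 2))) (T.b (T.a (T.a (T.l 204) (T.l 204)) (T.b (T.l 204) (T.l 204))) (T.a (T.a (T.l 204) (T.l 204)) (T.b (T.l 204) (T.l 204))))) (T.b (T.a (T.l 204) (T.b (T.b (T.l 204) (T.l 204)) (T.l 204))) (T.l 1))), by decide +kernel⟩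

def B102L_704 :
    ∃ t, chk3 (onCell 0 67108864 0 1073741824 697932185 42949674 (corW 3 c0B eng mog cB102L gB7q1 gB0q2 gB4q0 gB5q0 dB7q1 dB0q2 dB4q0 dB5q0 true false)) t 1 1 1 = true :=
  ⟨(T.b (T.b (T.a (T.a (T.l 204) (T.b (T.l 204) (T.l 204))) (T.a (T.l 220) (T.l 204))) (T.b (T.a (T.a (T.l 1) (T.l 204)) (T.b (T.l 204) (T.l 204))) (T.a (T.l 1) (T.b (T.l 204) (T.l 1))))) (T.l 1)), by decide +kernel⟩

def B102L_710 :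
    ∃ t, chk3 (onCell 0 67108864 0 1073741824 697932185 42949674 (corW 3 c0B eng mog cB102L gB7q1 gB1q2 gB0q0 gB1q0 dB7q1 dB1q2 dB0q0 dB1q0 true true)) t 1 1 1 = true :=
  ⟨(T.l 2), by decide +kernel⟩

def B102L_711 :
    ∃ t, chk3 (onCell 0 67108864 0 1073741824 697932185 42949674 (corW 3 c0B eng mog cB102L gB7q1 gB1q2 gB1q0 gB2q0 dB7q1 dB1q2 dB1q0 dB2q0 true true)) t 1 1 1 = true :=
  ⟨(T.b (T.l 2) (T.b (T.l 2) (T.l 2))), by decide +kernel⟩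

def B102L_712 :
    ∃ t, chk3 (onCell 0 67108864 0 1073741824 697932185 42949674 (corW 3 c0B eng mog cB102L gB7q1 gB1q2 gB2q0 gB3q0 dB7q1 dB1q2 dB2q0 dB3q0 true true)) t 1 1 1 = true :=
  ⟨(T.b (T.b (T.l 2) (T.b (T.l 2) (T.l 2))) (T.a (T.l 0) (T.b (T.b (T.l 0) (T.l 204)) (T.l 204)))), by decide +kernel⟩

def B102L_713 :
    ∃ t, chk3 (onCell 0 67108864 0 1073741824 697932185 42949674 (corW 3 c0B eng mog cB102L gB7q1 gB1q2 gB3q0 gB4q0 dB7q1 dB1q2 dB3q0 dB4q0 true true)) t 1 1 1 = true :=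
  ⟨(T.b (T.b (T.a (T.b (T.a (T.l 204) (T.l 204)) (T.l 204)) (T.b (T.l 2) (T.l 204))) (T.a (T.l 204) (T.b (T.l 204) (T.l 0)))) (T.b (T.a (T.l 204) (T.b (T.l 0) (T.l 204))) (T.l 1))), by decide +kernel⟩

def B102L_714 :
    ∃ t, chk3 (onCell 0 67108864 0 1073741824 697932185 42949674 (corW 3 c0B eng mog cB102L gB7q1 gB1q2 gB4q0 gB5q0 dB7q1 dB1q2 dB4q0 dB5q0 true false)) t 1 1 1 = true :=
  ⟨(T.b (T.b (T.a (T.a (T.l 204) (T.b (T.l 204) (T.l 204))) (T.a (T.l 204) (T.l 204))) (T.a (T.l 1) (T.b (T.l 0) (T.l 1)))) (T.l 1)), by decide +kernel⟩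

def B102L_720 :
    ∃ t, chk3 (onCell 0 67108864 0 1073741824 697932185 42949674 (corW 3 c0B eng mog cB102L gB7q1 gB2q2 gB0q0 gB1q0 dB7q1 dB2q2 dB0q0 dB1q0 true true)) t 1 1 1 = true :=
  ⟨(T.l 2), by decide +kernel⟩

def B102L_721 :
    ∃ t, chk3 (onCell 0 67108864 0 1073741824 697932185 42949674 (corW 3 c0B eng mog cB102L gB7q1 gB2q2 gB1q0 gB2q0 dB7q1 dB2q2 dB1q0 dB2q0 true true)) t 1 1 1 = true :=
  ⟨(T.b (T.l 2) (T.l 2)), by decide +kernel⟩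

def B102L_722 :
    ∃ t, chk3 (onCell 0 67108864 0 1073741824 697932185 42949674 (corW 3 c0B eng mog cB102L gB7q1 gB2q2 gB2q0 gB3q0 dB7q1 dB2q2 dB2q0 dB3q0 true true)) t 1 1 1 = true :=
  ⟨(T.b (T.b (T.a (T.b (T.l 2) (T.l 2)) (T.l 2)) (T.a (T.l 204) (T.b (T.l 2) (T.l 204)))) (T.a (T.l 0) (T.b (T.b (T.l 0) (T.l 204)) (T.l 204)))), by decide +kernel⟩

def B102L_723 :
    ∃ t, chk3 (onCell 0 67108864 0 1073741824 697932185 42949674 (corW 3 c0B eng mog cB102L gB7q1 gB2q2 gB3q0 gB4q0 dB7q1 dB2q2 dB3q0 dB4q0 true true)) t 1 1 1 = true :=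
  ⟨(T.b (T.b (T.a (T.a (T.l 204) (T.b (T.l 204) (T.l 204))) (T.b (T.l 204) (T.l 204))) (T.a (T.l 204) (T.b (T.l 204) (T.l 204)))) (T.b (T.a (T.l 1) (T.b (T.l 0) (T.l 1))) (T.l 1))), by decide +kernel⟩

def B102L_724 :
    ∃ t, chk3 (onCell 0 67108864 0 1073741824 697932185 42949674 (corW 3 c0B eng mog cB102L gB7q1 gB2q2 gB4q0 gB5q0 dB7q1 dB2q2 dB4q0 dB5q0 true false)) t 1 1 1 = true :=
  ⟨(T.b (T.b (T.a (T.l 1) (T.b (T.l 204) (T.l 1))) (T.l 1)) (T.l 1)), by decide +kernel⟩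

def B102L_730 :
    ∃ t, chk3 (onCell 0 67108864 0 1073741824 697932185 42949674 (corW 3 c0B eng mog cB102L gB7q1 gB3q2 gB0q0 gB1q0 dB7q1 dB3q2 dB0q0 dB1q0 true true)) t 1 1 1 = true :=
  ⟨(T.l 2), by decide +kernel⟩

def B102L_731 :
    ∃ t, chk3 (onCell 0 67108864 0 1073741824 697932185 42949674 (corW 3 c0B eng mog cB102L gB7q1 gB3q2 gB1q0 gB2q0 dB7q1 dB3q2 dB1q0 dB2q0 true true)) t 1 1 1 = true :=
  ⟨(T.b (T.l 2) (T.l 2)), by decide +kernel⟩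

def B102L_732 :
    ∃ t, chk3 (onCell 0 67108864 0 1073741824 697932185 42949674 (corW 3 c0B eng mog cB102L gB7q1 gB3q2 gB2q0 gB3q0 dB7q1 dB3q2 dB2q0 dB3q0 true true)) t 1 1 1 = true :=
  ⟨(T.b (T.a (T.b (T.a (T.l 204) (T.b (T.l 204) (T.l 204))) (T.l 204)) (T.b (T.b (T.l 204) (T.l 204)) (T.b (T.l 204) (T.l 204)))) (T.a (T.l 204) (T.b (T.b (T.l 204) (T.l 204)) (T.l 204)))), by decide +kernel⟩

def B102L_733 :
    ∃ t, chk3 (onCell 0 67108864 0 1073741824 697932185 42949674 (corW 3 c0B eng mog cB102L gB7q1 gB3q2 gB3q0 gB4q0 dB7q1 dB3q2 dB3q0 dB4q0 true true)) t 1 1 1 = true :=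
  ⟨(T.l 1), by decide +kernel⟩

def B102L_734 :
    ∃ t, chk3 (onCell 0 67108864 0 1073741824 697932185 42949674 (corW 3 c0B eng mog cB102L gB7q1 gB3q2 gB4q0 gB5q0 dB7q1 dB3q2 dB4q0 dB5q0 true false)) t 1 1 1 = true :=
  ⟨(T.l 1), by decide +kernel⟩

def B102L_740 :
    ∃ t, chk3 (onCell 0 67108864 0 1073741824 697932185 42949674 (corW 3 c0B eng mog cB102L gB7q1 gB4q2 gB0q0 gB1q0 dB7q1 dB4q2 dB0q0 dB1q0 true true)) t 1 1 1 = true :=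
  ⟨(T.b (T.b (T.b (T.a (T.a (T.l 204) (T.l 2)) (T.l 2)) (T.l 2)) (T.l 2)) (T.l 2)), by decide +kernel⟩

def B102L_741 :
    ∃ t, chk3 (onCell 0 67108864 0 1073741824 697932185 42949674 (corW 3 c0B eng mog cB102L gB7q1 gB4q2 gB1q0 gB2q0 dB7q1 dB4q2 dB1q0 dB2q0 true true)) t 1 1 1 = true :=
  ⟨(T.b (T.b (T.b (T.a (T.a (T.l 204) (T.l 204)) (T.b (T.l 204) (T.l 204))) (T.a (T.l 204) (T.l 204))) (T.a (T.l 204) (T.b (T.l 204) (T.l 204)))) (T.a (T.l 204) (T.a (T.l 204) (T.b (T.l 204) (T.l 2))))), by decide +kernel⟩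

def B102L_742 :
    ∃ t, chk3 (onCell 0 67108864 0 1073741824 697932185 42949674 (corW 3 c0B eng mog cB102L gB7q1 gB4q2 gB2q0 gB3q0 dB7q1 dB4q2 dB2q0 dB3q0 true true)) t 1 1 1 = true :=
  ⟨(T.b (T.l 1) (T.a (T.l 204) (T.b (T.b (T.l 1) (T.l 204)) (T.l 204)))), by decide +kernel⟩

def B102L_743 :
    ∃ t, chk3 (onCell 0 67108864 0 1073741824 697932185 42949674 (corW 3 c0B eng mog cB102L gB7q1 gB4q2 gB3q0 gB4q0 dB7q1 dB4q2 dB3q0 dB4q0 true true)) t 1 1 1 = true :=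
  ⟨(T.l 1), by decide +kernel⟩

def B102L_744 :
    ∃ t, chk3 (onCell 0 67108864 0 1073741824 697932185 42949674 (corW 3 c0B eng mog cB102L gB7q1 gB4q2 gB4q0 gB5q0 dB7q1 dB4q2 dB4q0 dB5q0 true false)) t 1 1 1 = true :=
  ⟨(T.l 1), by decide +kernel⟩

def B102R_070 :
    ∃ t, chk3 (onCell 0 67108864 0 1073741824 697932185 42949674 (corW 3 c0B eng mog cB102R gB0q1 gB7q2 gB0q0 gB1q0 dB0q1 dB7q2 dB0q0 dB1q0 true true)) t 1 1 1 = true :=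
  ⟨(T.l 1), by decide +kernel⟩

def B102R_071 :
    ∃ t, chk3 (onCell 0 67108864 0 1073741824 697932185 42949674 (corW 3 c0B eng mog cB102R gB0q1 gB7q2 gB1q0 gB2q0 dB0q1 dB7q2 dB1q0 dB2q0 true true)) t 1 1 1 = true :=
  ⟨(T.l 1), by decide +kernel⟩

def B102R_072 :
    ∃ t, chk3 (onCell 0 67108864 0 1073741824 697932185 42949674 (corW 3 c0B eng mog cB102R gB0q1 gB7q2 gB2q0 gB3q0 dB0q1 dB7q2 dB2q0 dB3q0 true true)) t 1 1 1 = true :=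
  ⟨(T.l 1), by decide +kernel⟩

def B102R_073 :
    ∃ t, chk3 (onCell 0 67108864 0 1073741824 697932185 42949674 (corW 3 c0B eng mog cB102R gB0q1 gB7q2 gB3q0 gB4q0 dB0q1 dB7q2 dB3q0 dB4q0 true true)) t 1 1 1 = true :=
  ⟨(T.l 1), by decide +kernel⟩

def B102R_074 :
    ∃ t, chk3 (onCell 0 67108864 0 1073741824 697932185 42949674 (corW 3 c0B eng mog cB102R gB0q1 gB7q2 gB4q0 gB5q0 dB0q1 dB7q2 dB4q0 dB5q0 true false)) t 1 1 1 = true :=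
  ⟨(T.l 1), by decide +kernel⟩

def B202E_000 :
    ∃ t, chk3 (onCell 0 67108864 0 1073741824 697932185 42949674 (corW 3 c0B eng mog cB202E gB0q2 gB0q2 gB0q0 gB1q0 dB0q2 dB0q2 dB0q0 dB1q0 true true)) t 1 1 1 = true :=
  ⟨(T.l 1), by decide +kernel⟩

def B202E_001 :
    ∃ t, chk3 (onCell 0 67108864 0 1073741824 697932185 42949674 (corW 3 c0B eng mog cB202E gB0q2 gB0q2 gB1q0 gB2q0 dB0q2 dB0q2 dB1q0 dB2q0 true true)) t 1 1 1 = true :=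
  ⟨(T.l 1), by decide +kernel⟩

def B202E_002 :
    ∃ t, chk3 (onCell 0 67108864 0 1073741824 697932185 42949674 (corW 3 c0B eng mog cB202E gB0q2 gB0q2 gB2q0 gB3q0 dB0q2 dB0q2 dB2q0 dB3q0 true true)) t 1 1 1 = true :=
  ⟨(T.l 1), by decide +kernel⟩

def B202E_003 :
    ∃ t, chk3 (onCell 0 67108864 0 1073741824 697932185 42949674 (corW 3 c0B eng mog cB202E gB0q2 gB0q2 gB3q0 gB4q0 dB0q2 dB0q2 dB3q0 dB4q0 true true)) t 1 1 1 = true :=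
  ⟨(T.l 1), by decide +kernel⟩

def B202E_004 :
    ∃ t, chk3 (onCell 0 67108864 0 1073741824 697932185 42949674 (corW 3 c0B eng mog cB202E gB0q2 gB0q2 gB4q0 gB5q0 dB0q2 dB0q2 dB4q0 dB5q0 true false)) t 1 1 1 = true :=
  ⟨(T.l 1), by decide +kernel⟩

def B202E_010 :
    ∃ t, chk3 (onCell 0 67108864 0 1073741824 697932185 42949674 (corW 3 c0B eng mog cB202E gB0q2 gB1q2 gB0q0 gB1q0 dB0q2 dB1q2 dB0q0 dB1q0 true true)) t 1 1 1 = true :=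
  ⟨(T.l 1), by decide +kernel⟩

def B202E_011 :
    ∃ t, chk3 (onCell 0 67108864 0 1073741824 697932185 42949674 (corW 3 c0B eng mog cB202E gB0q2 gB1q2 gB1q0 gB2q0 dB0q2 dB1q2 dB1q0 dB2q0 true true)) t 1 1 1 = true :=
  ⟨(T.l 1), by decide +kernel⟩

def B202E_012 :
    ∃ t, chk3 (onCell 0 67108864 0 1073741824 697932185 42949674 (corW 3 c0B eng mog cB202E gB0q2 gB1q2 gB2q0 gB3q0 dB0q2 dB1q2 dB2q0 dB3q0 true true)) t 1 1 1 = true :=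
  ⟨(T.l 1), by decide +kernel⟩

def B202E_013 :
    ∃ t, chk3 (onCell 0 67108864 0 1073741824 697932185 42949674 (corW 3 c0B eng mog cB202E gB0q2 gB1q2 gB3q0 gB4q0 dB0q2 dB1q2 dB3q0 dB4q0 true true)) t 1 1 1 = true :=
  ⟨(T.l 1), by decide +kernel⟩

def B202E_014 :
    ∃ t, chk3 (onCell 0 67108864 0 1073741824 697932185 42949674 (corW 3 c0B eng mog cB202E gB0q2 gB1q2 gB4q0 gB5q0 dB0q2 dB1q2 dB4q0 dB5q0 true false)) t 1 1 1 = true :=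
  ⟨(T.l 1), by decide +kernel⟩

def B202E_020 :
    ∃ t, chk3 (onCell 0 67108864 0 1073741824 697932185 42949674 (corW 3 c0B eng mog cB202E gB0q2 gB2q2 gB0q0 gB1q0 dB0q2 dB2q2 dB0q0 dB1q0 true true)) t 1 1 1 = true :=
  ⟨(T.l 1), by decide +kernel⟩

def B202E_021 :
    ∃ t, chk3 (onCell 0 67108864 0 1073741824 697932185 42949674 (corW 3 c0B eng mog cB202E gB0q2 gB2q2 gB1q0 gB2q0 dB0q2 dB2q2 dB1q0 dB2q0 true true)) t 1 1 1 = true :=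
  ⟨(T.l 1), by decide +kernel⟩

def B202E_022 :
    ∃ t, chk3 (onCell 0 67108864 0 1073741824 697932185 42949674 (corW 3 c0B eng mog cB202E gB0q2 gB2q2 gB2q0 gB3q0 dB0q2 dB2q2 dB2q0 dB3q0 true true)) t 1 1 1 = true :=
  ⟨(T.l 1), by decide +kernel⟩

def B202E_023 :
    ∃ t, chk3 (onCell 0 67108864 0 1073741824 697932185 42949674 (corW 3 c0B eng mog cB202E gB0q2 gB2q2 gB3q0 gB4q0 dB0q2 dB2q2 dB3q0 dB4q0 true true)) t 1 1 1 = true :=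
  ⟨(T.l 1), by decide +kernel⟩

def B202E_024 :
    ∃ t, chk3 (onCell 0 67108864 0 1073741824 697932185 42949674 (corW 3 c0B eng mog cB202E gB0q2 gB2q2 gB4q0 gB5q0 dB0q2 dB2q2 dB4q0 dB5q0 true false)) t 1 1 1 = true :=
  ⟨(T.l 1), by decide +kernel⟩

def B202E_030 :
    ∃ t, chk3 (onCell 0 67108864 0 1073741824 697932185 42949674 (corW 3 c0B eng mog cB202E gB0q2 gB3q2 gB0q0 gB1q0 dB0q2 dB3q2 dB0q0 dB1q0 true true)) t 1 1 1 = true :=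
  ⟨(T.l 1), by decide +kernel⟩

def B202E_031 :
    ∃ t, chk3 (onCell 0 67108864 0 1073741824 697932185 42949674 (corW 3 c0B eng mog cB202E gB0q2 gB3q2 gB1q0 gB2q0 dB0q2 dB3q2 dB1q0 dB2q0 true true)) t 1 1 1 = true :=
  ⟨(T.l 1), by decide +kernel⟩

def B202E_032 :
    ∃ t, chk3 (onCell 0 67108864 0 1073741824 697932185 42949674 (corW 3 c0B eng mog cB202E gB0q2 gB3q2 gB2q0 gB3q0 dB0q2 dB3q2 dB2q0 dB3q0 true true)) t 1 1 1 = true :=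
  ⟨(T.l 1), by decide +kernel⟩

def B202E_033 :
    ∃ t, chk3 (onCell 0 67108864 0 1073741824 697932185 42949674 (corW 3 c0B eng mog cB202E gB0q2 gB3q2 gB3q0 gB4q0 dB0q2 dB3q2 dB3q0 dB4q0 true true)) t 1 1 1 = true :=
  ⟨(T.l 1), by decide +kernel⟩

def B202E_034 :
    ∃ t, chk3 (onCell 0 67108864 0 1073741824 697932185 42949674 (corW 3 c0B eng mog cB202E gB0q2 gB3q2 gB4q0 gB5q0 dB0q2 dB3q2 dB4q0 dB5q0 true false)) t 1 1 1 = true :=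
  ⟨(T.l 1), by decide +kernel⟩

def B202E_040 :
    ∃ t, chk3 (onCell 0 67108864 0 1073741824 697932185 42949674 (corW 3 c0B eng mog cB202E gB0q2 gB4q2 gB0q0 gB1q0 dB0q2 dB4q2 dB0q0 dB1q0 true true)) t 1 1 1 = true :=
  ⟨(T.b (T.l 1) (T.l 1)), by decide +kernel⟩

def B202E_041 :
    ∃ t, chk3 (onCell 0 67108864 0 1073741824 697932185 42949674 (corW 3 c0B eng mog cB202E gB0q2 gB4q2 gB1q0 gB2q0 dB0q2 dB4q2 dB1q0 dB2q0 true true)) t 1 1 1 = true :=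
  ⟨(T.b (T.l 1) (T.l 1)), by decide +kernel⟩

def B202E_042 :
    ∃ t, chk3 (onCell 0 67108864 0 1073741824 697932185 42949674 (corW 3 c0B eng mog cB202E gB0q2 gB4q2 gB2q0 gB3q0 dB0q2 dB4q2 dB2q0 dB3q0 true true)) t 1 1 1 = true :=
  ⟨(T.l 1), by decide +kernel⟩

def B202E_043 :
    ∃ t, chk3 (onCell 0 67108864 0 1073741824 697932185 42949674 (corW 3 c0B eng mog cB202E gB0q2 gB4q2 gB3q0 gB4q0 dB0q2 dB4q2 dB3q0 dB4q0 true true)) t 1 1 1 = true :=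
  ⟨(T.l 1), by decide +kernel⟩

def B202E_044 :
    ∃ t, chk3 (onCell 0 67108864 0 1073741824 697932185 42949674 (corW 3 c0B eng mog cB202E gB0q2 gB4q2 gB4q0 gB5q0 dB0q2 dB4q2 dB4q0 dB5q0 true false)) t 1 1 1 = true :=
  ⟨(T.l 1), by decide +kernel⟩

def B202E_100 :
    ∃ t, chk3 (onCell 0 67108864 0 1073741824 697932185 42949674 (corW 3 c0B eng mog cB202E gB1q2 gB0q2 gB0q0 gB1q0 dB1q2 dB0q2 dB0q0 dB1q0 true true)) t 1 1 1 = true :=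
  ⟨(T.l 1), by decide +kernel⟩

def B202E_101 :
    ∃ t, chk3 (onCell 0 67108864 0 1073741824 697932185 42949674 (corW 3 c0B eng mog cB202E gB1q2 gB0q2 gB1q0 gB2q0 dB1q2 dB0q2 dB1q0 dB2q0 true true)) t 1 1 1 = true :=
  ⟨(T.l 1), by decide +kernel⟩

def B202E_102 :
    ∃ t, chk3 (onCell 0 67108864 0 1073741824 697932185 42949674 (corW 3 c0B eng mog cB202E gB1q2 gB0q2 gB2q0 gB3q0 dB1q2 dB0q2 dB2q0 dB3q0 true true)) t 1 1 1 = true :=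
  ⟨(T.l 1), by decide +kernel⟩

def B202E_103 :
    ∃ t, chk3 (onCell 0 67108864 0 1073741824 697932185 42949674 (corW 3 c0B eng mog cB202E gB1q2 gB0q2 gB3q0 gB4q0 dB1q2 dB0q2 dB3q0 dB4q0 true true)) t 1 1 1 = true :=
  ⟨(T.l 1), by decide +kernel⟩

def B202E_104 :
    ∃ t, chk3 (onCell 0 67108864 0 1073741824 697932185 42949674 (corW 3 c0B eng mog cB202E gB1q2 gB0q2 gB4q0 gB5q0 dB1q2 dB0q2 dB4q0 dB5q0 true false)) t 1 1 1 = true :=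
  ⟨(T.l 1), by decide +kernel⟩

def B202E_110 :
    ∃ t, chk3 (onCell 0 67108864 0 1073741824 697932185 42949674 (corW 3 c0B eng mog cB202E gB1q2 gB1q2 gB0q0 gB1q0 dB1q2 dB1q2 dB0q0 dB1q0 true true)) t 1 1 1 = true :=
  ⟨(T.l 1), by decide +kernel⟩

def B202E_111 :
    ∃ t, chk3 (onCell 0 67108864 0 1073741824 697932185 42949674 (corW 3 c0B eng mog cB202E gB1q2 gB1q2 gB1q0 gB2q0 dB1q2 dB1q2 dB1q0 dB2q0 true true)) t 1 1 1 = true :=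
  ⟨(T.l 1), by decide +kernel⟩

def B202E_112 :
    ∃ t, chk3 (onCell 0 67108864 0 1073741824 697932185 42949674 (corW 3 c0B eng mog cB202E gB1q2 gB1q2 gB2q0 gB3q0 dB1q2 dB1q2 dB2q0 dB3q0 true true)) t 1 1 1 = true :=
  ⟨(T.l 1), by decide +kernel⟩

def B202E_113 :
    ∃ t, chk3 (onCell 0 67108864 0 1073741824 697932185 42949674 (corW 3 c0B eng mog cB202E gB1q2 gB1q2 gB3q0 gB4q0 dB1q2 dB1q2 dB3q0 dB4q0 true true)) t 1 1 1 = true :=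
  ⟨(T.l 1), by decide +kernel⟩

def B202E_114 :
    ∃ t, chk3 (onCell 0 67108864 0 1073741824 697932185 42949674 (corW 3 c0B eng mog cB202E gB1q2 gB1q2 gB4q0 gB5q0 dB1q2 dB1q2 dB4q0 dB5q0 true false)) t 1 1 1 = true :=
  ⟨(T.l 1), by decide +kernel⟩

def B202E_120 :
    ∃ t, chk3 (onCell 0 67108864 0 1073741824 697932185 42949674 (corW 3 c0B eng mog cB202E gB1q2 gB2q2 gB0q0 gB1q0 dB1q2 dB2q2 dB0q0 dB1q0 true true)) t 1 1 1 = true :=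
  ⟨(T.l 1), by decide +kernel⟩

def B202E_121 :
    ∃ t, chk3 (onCell 0 67108864 0 1073741824 697932185 42949674 (corW 3 c0B eng mog cB202E gB1q2 gB2q2 gB1q0 gB2q0 dB1q2 dB2q2 dB1q0 dB2q0 true true)) t 1 1 1 = true :=
  ⟨(T.l 1), by decide +kernel⟩

def B202E_122 :
    ∃ t, chk3 (onCell 0 67108864 0 1073741824 697932185 42949674 (corW 3 c0B eng mog cB202E gB1q2 gB2q2 gB2q0 gB3q0 dB1q2 dB2q2 dB2q0 dB3q0 true true)) t 1 1 1 = true :=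
  ⟨(T.l 1), by decide +kernel⟩

def B202E_123 :
    ∃ t, chk3 (onCell 0 67108864 0 1073741824 697932185 42949674 (corW 3 c0B eng mog cB202E gB1q2 gB2q2 gB3q0 gB4q0 dB1q2 dB2q2 dB3q0 dB4q0 true true)) t 1 1 1 = true :=
  ⟨(T.l 1), by decide +kernel⟩

def B202E_124 :
    ∃ t, chk3 (onCell 0 67108864 0 1073741824 697932185 42949674 (corW 3 c0B eng mog cB202E gB1q2 gB2q2 gB4q0 gB5q0 dB1q2 dB2q2 dB4q0 dB5q0 true false)) t 1 1 1 = true :=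
  ⟨(T.l 1), by decide +kernel⟩

def B202E_130 :
    ∃ t, chk3 (onCell 0 67108864 0 1073741824 697932185 42949674 (corW 3 c0B eng mog cB202E gB1q2 gB3q2 gB0q0 gB1q0 dB1q2 dB3q2 dB0q0 dB1q0 true true)) t 1 1 1 = true :=
  ⟨(T.l 1), by decide +kernel⟩

def B202E_131 :
    ∃ t, chk3 (onCell 0 67108864 0 1073741824 697932185 42949674 (corW 3 c0B eng mog cB202E gB1q2 gB3q2 gB1q0 gB2q0 dB1q2 dB3q2 dB1q0 dB2q0 true true)) t 1 1 1 = true :=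
  ⟨(T.l 1), by decide +kernel⟩

def B202E_132 :
    ∃ t, chk3 (onCell 0 67108864 0 1073741824 697932185 42949674 (corW 3 c0B eng mog cB202E gB1q2 gB3q2 gB2q0 gB3q0 dB1q2 dB3q2 dB2q0 dB3q0 true true)) t 1 1 1 = true :=
  ⟨(T.l 1), by decide +kernel⟩

def B202E_133 :
    ∃ t, chk3 (onCell 0 67108864 0 1073741824 697932185 42949674 (corW 3 c0B eng mog cB202E gB1q2 gB3q2 gB3q0 gB4q0 dB1q2 dB3q2 dB3q0 dB4q0 true true)) t 1 1 1 = true :=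
  ⟨(T.l 1), by decide +kernel⟩

def B202E_134 :
    ∃ t, chk3 (onCell 0 67108864 0 1073741824 697932185 42949674 (corW 3 c0B eng mog cB202E gB1q2 gB3q2 gB4q0 gB5q0 dB1q2 dB3q2 dB4q0 dB5q0 true false)) t 1 1 1 = true :=
  ⟨(T.l 1), by decide +kernel⟩

def B202E_140 :
    ∃ t, chk3 (onCell 0 67108864 0 1073741824 697932185 42949674 (corW 3 c0B eng mog cB202E gB1q2 gB4q2 gB0q0 gB1q0 dB1q2 dB4q2 dB0q0 dB1q0 true true)) t 1 1 1 = true :=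
  ⟨(T.b (T.l 1) (T.l 1)), by decide +kernel⟩

def B202E_141 :
    ∃ t, chk3 (onCell 0 67108864 0 1073741824 697932185 42949674 (corW 3 c0B eng mog cB202E gB1q2 gB4q2 gB1q0 gB2q0 dB1q2 dB4q2 dB1q0 dB2q0 true true)) t 1 1 1 = true :=
  ⟨(T.l 1), by decide +kernel⟩

def B202E_142 :
    ∃ t, chk3 (onCell 0 67108864 0 1073741824 697932185 42949674 (corW 3 c0B eng mog cB202E gB1q2 gB4q2 gB2q0 gB3q0 dB1q2 dB4q2 dB2q0 dB3q0 true true)) t 1 1 1 = true :=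
  ⟨(T.l 1), by decide +kernel⟩

def B202E_143 :
    ∃ t, chk3 (onCell 0 67108864 0 1073741824 697932185 42949674 (corW 3 c0B eng mog cB202E gB1q2 gB4q2 gB3q0 gB4q0 dB1q2 dB4q2 dB3q0 dB4q0 true true)) t 1 1 1 = true :=
  ⟨(T.l 1), by decide +kernel⟩

def B202E_144 :
    ∃ t, chk3 (onCell 0 67108864 0 1073741824 697932185 42949674 (corW 3 c0B eng mog cB202E gB1q2 gB4q2 gB4q0 gB5q0 dB1q2 dB4q2 dB4q0 dB5q0 true false)) t 1 1 1 = true :=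
  ⟨(T.l 1), by decide +kernel⟩

def B202E_200 :
    ∃ t, chk3 (onCell 0 67108864 0 1073741824 697932185 42949674 (corW 3 c0B eng mog cB202E gB2q2 gB0q2 gB0q0 gB1q0 dB2q2 dB0q2 dB0q0 dB1q0 true true)) t 1 1 1 = true :=
  ⟨(T.l 1), by decide +kernel⟩

def B202E_201 :
    ∃ t, chk3 (onCell 0 67108864 0 1073741824 697932185 42949674 (corW 3 c0B eng mog cB202E gB2q2 gB0q2 gB1q0 gB2q0 dB2q2 dB0q2 dB1q0 dB2q0 true true)) t 1 1 1 = true :=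
  ⟨(T.l 1), by decide +kernel⟩

def B202E_202 :
    ∃ t, chk3 (onCell 0 67108864 0 1073741824 697932185 42949674 (corW 3 c0B eng mog cB202E gB2q2 gB0q2 gB2q0 gB3q0 dB2q2 dB0q2 dB2q0 dB3q0 true true)) t 1 1 1 = true :=
  ⟨(T.l 1), by decide +kernel⟩

def B202E_203 :
    ∃ t, chk3 (onCell 0 67108864 0 1073741824 697932185 42949674 (corW 3 c0B eng mog cB202E gB2q2 gB0q2 gB3q0 gB4q0 dB2q2 dB0q2 dB3q0 dB4q0 true true)) t 1 1 1 = true :=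
  ⟨(T.l 1), by decide +kernel⟩

def B202E_204 :
    ∃ t, chk3 (onCell 0 67108864 0 1073741824 697932185 42949674 (corW 3 c0B eng mog cB202E gB2q2 gB0q2 gB4q0 gB5q0 dB2q2 dB0q2 dB4q0 dB5q0 true false)) t 1 1 1 = true :=
  ⟨(T.l 1), by decide +kernel⟩

def B202E_210 :
    ∃ t, chk3 (onCell 0 67108864 0 1073741824 697932185 42949674 (corW 3 c0B eng mog cB202E gB2q2 gB1q2 gB0q0 gB1q0 dB2q2 dB1q2 dB0q0 dB1q0 true true)) t 1 1 1 = true :=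
  ⟨(T.l 1), by decide +kernel⟩

def B202E_211 :
    ∃ t, chk3 (onCell 0 67108864 0 1073741824 697932185 42949674 (corW 3 c0B eng mog cB202E gB2q2 gB1q2 gB1q0 gB2q0 dB2q2 dB1q2 dB1q0 dB2q0 true true)) t 1 1 1 = true :=
  ⟨(T.l 1), by decide +kernel⟩

def B202E_212 :
    ∃ t, chk3 (onCell 0 67108864 0 1073741824 697932185 42949674 (corW 3 c0B eng mog cB202E gB2q2 gB1q2 gB2q0 gB3q0 dB2q2 dB1q2 dB2q0 dB3q0 true true)) t 1 1 1 = true :=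
  ⟨(T.l 1), by decide +kernel⟩

def B202E_213 :
    ∃ t, chk3 (onCell 0 67108864 0 1073741824 697932185 42949674 (corW 3 c0B eng mog cB202E gB2q2 gB1q2 gB3q0 gB4q0 dB2q2 dB1q2 dB3q0 dB4q0 true true)) t 1 1 1 = true :=
  ⟨(T.l 1), by decide +kernel⟩

def B202E_214 :
    ∃ t, chk3 (onCell 0 67108864 0 1073741824 697932185 42949674 (corW 3 c0B eng mog cB202E gB2q2 gB1q2 gB4q0 gB5q0 dB2q2 dB1q2 dB4q0 dB5q0 true false)) t 1 1 1 = true :=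
  ⟨(T.l 1), by decide +kernel⟩

def B202E_220 :
    ∃ t, chk3 (onCell 0 67108864 0 1073741824 697932185 42949674 (corW 3 c0B eng mog cB202E gB2q2 gB2q2 gB0q0 gB1q0 dB2q2 dB2q2 dB0q0 dB1q0 true true)) t 1 1 1 = true :=
  ⟨(T.l 1), by decide +kernel⟩

def B202E_221 :
    ∃ t, chk3 (onCell 0 67108864 0 1073741824 697932185 42949674 (corW 3 c0B eng mog cB202E gB2q2 gB2q2 gB1q0 gB2q0 dB2q2 dB2q2 dB1q0 dB2q0 true true)) t 1 1 1 = true :=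
  ⟨(T.l 1), by decide +kernel⟩

def B202E_222 :
    ∃ t, chk3 (onCell 0 67108864 0 1073741824 697932185 42949674 (corW 3 c0B eng mog cB202E gB2q2 gB2q2 gB2q0 gB3q0 dB2q2 dB2q2 dB2q0 dB3q0 true true)) t 1 1 1 = true :=
  ⟨(T.l 1), by decide +kernel⟩

def B202E_223 :
    ∃ t, chk3 (onCell 0 67108864 0 1073741824 697932185 42949674 (corW 3 c0B eng mog cB202E gB2q2 gB2q2 gB3q0 gB4q0 dB2q2 dB2q2 dB3q0 dB4q0 true true)) t 1 1 1 = true :=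
  ⟨(T.l 1), by decide +kernel⟩

def B202E_224 :
    ∃ t, chk3 (onCell 0 67108864 0 1073741824 697932185 42949674 (corW 3 c0B eng mog cB202E gB2q2 gB2q2 gB4q0 gB5q0 dB2q2 dB2q2 dB4q0 dB5q0 true false)) t 1 1 1 = true :=
  ⟨(T.l 1), by decide +kernel⟩

def B202E_230 :
    ∃ t, chk3 (onCell 0 67108864 0 1073741824 697932185 42949674 (corW 3 c0B eng mog cB202E gB2q2 gB3q2 gB0q0 gB1q0 dB2q2 dB3q2 dB0q0 dB1q0 true true)) t 1 1 1 = true :=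
  ⟨(T.l 1), by decide +kernel⟩

def B202E_231 :
    ∃ t, chk3 (onCell 0 67108864 0 1073741824 697932185 42949674 (corW 3 c0B eng mog cB202E gB2q2 gB3q2 gB1q0 gB2q0 dB2q2 dB3q2 dB1q0 dB2q0 true true)) t 1 1 1 = true :=
  ⟨(T.l 1), by decide +kernel⟩

def B202E_232 :
    ∃ t, chk3 (onCell 0 67108864 0 1073741824 697932185 42949674 (corW 3 c0B eng mog cB202E gB2q2 gB3q2 gB2q0 gB3q0 dB2q2 dB3q2 dB2q0 dB3q0 true true)) t 1 1 1 = true :=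
  ⟨(T.l 1), by decide +kernel⟩

def B202E_233 :
    ∃ t, chk3 (onCell 0 67108864 0 1073741824 697932185 42949674 (corW 3 c0B eng mog cB202E gB2q2 gB3q2 gB3q0 gB4q0 dB2q2 dB3q2 dB3q0 dB4q0 true true)) t 1 1 1 = true :=
  ⟨(T.l 1), by decide +kernel⟩

def B202E_234 :
    ∃ t, chk3 (onCell 0 67108864 0 1073741824 697932185 42949674 (corW 3 c0B eng mog cB202E gB2q2 gB3q2 gB4q0 gB5q0 dB2q2 dB3q2 dB4q0 dB5q0 true false)) t 1 1 1 = true :=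
  ⟨(T.l 1), by decide +kernel⟩

def B202E_240 :
    ∃ t, chk3 (onCell 0 67108864 0 1073741824 697932185 42949674 (corW 3 c0B eng mog cB202E gB2q2 gB4q2 gB0q0 gB1q0 dB2q2 dB4q2 dB0q0 dB1q0 true true)) t 1 1 1 = true :=
  ⟨(T.b (T.l 1) (T.l 1)), by decide +kernel⟩

def B202E_241 :
    ∃ t, chk3 (onCell 0 67108864 0 1073741824 697932185 42949674 (corW 3 c0B eng mog cB202E gB2q2 gB4q2 gB1q0 gB2q0 dB2q2 dB4q2 dB1q0 dB2q0 true true)) t 1 1 1 = true :=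
  ⟨(T.l 1), by decide +kernel⟩

def B202E_242 :
    ∃ t, chk3 (onCell 0 67108864 0 1073741824 697932185 42949674 (corW 3 c0B eng mog cB202E gB2q2 gB4q2 gB2q0 gB3q0 dB2q2 dB4q2 dB2q0 dB3q0 true true)) t 1 1 1 = true :=
  ⟨(T.l 1), by decide +kernel⟩

def B202E_243 :
    ∃ t, chk3 (onCell 0 67108864 0 1073741824 697932185 42949674 (corW 3 c0B eng mog cB202E gB2q2 gB4q2 gB3q0 gB4q0 dB2q2 dB4q2 dB3q0 dB4q0 true true)) t 1 1 1 = true :=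
  ⟨(T.l 1), by decide +kernel⟩

def B202E_244 :
    ∃ t, chk3 (onCell 0 67108864 0 1073741824 697932185 42949674 (corW 3 c0B eng mog cB202E gB2q2 gB4q2 gB4q0 gB5q0 dB2q2 dB4q2 dB4q0 dB5q0 true false)) t 1 1 1 = true :=
  ⟨(T.l 1), by decide +kernel⟩

def B202E_300 :
    ∃ t, chk3 (onCell 0 67108864 0 1073741824 697932185 42949674 (corW 3 c0B eng mog cB202E gB3q2 gB0q2 gB0q0 gB1q0 dB3q2 dB0q2 dB0q0 dB1q0 true true)) t 1 1 1 = true :=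
  ⟨(T.l 1), by decide +kernel⟩

def B202E_301 :
    ∃ t, chk3 (onCell 0 67108864 0 1073741824 697932185 42949674 (corW 3 c0B eng mog cB202E gB3q2 gB0q2 gB1q0 gB2q0 dB3q2 dB0q2 dB1q0 dB2q0 true true)) t 1 1 1 = true :=
  ⟨(T.l 1), by decide +kernel⟩

def B202E_302 :
    ∃ t, chk3 (onCell 0 67108864 0 1073741824 697932185 42949674 (corW 3 c0B eng mog cB202E gB3q2 gB0q2 gB2q0 gB3q0 dB3q2 dB0q2 dB2q0 dB3q0 true true)) t 1 1 1 = true :=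
  ⟨(T.l 1), by decide +kernel⟩

def B202E_303 :
    ∃ t, chk3 (onCell 0 67108864 0 1073741824 697932185 42949674 (corW 3 c0B eng mog cB202E gB3q2 gB0q2 gB3q0 gB4q0 dB3q2 dB0q2 dB3q0 dB4q0 true true)) t 1 1 1 = true :=
  ⟨(T.l 1), by decide +kernel⟩

def B202E_304 :
    ∃ t, chk3 (onCell 0 67108864 0 1073741824 697932185 42949674 (corW 3 c0B eng mog cB202E gB3q2 gB0q2 gB4q0 gB5q0 dB3q2 dB0q2 dB4q0 dB5q0 true false)) t 1 1 1 = true :=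
  ⟨(T.l 1), by decide +kernel⟩

def B202E_310 :
    ∃ t, chk3 (onCell 0 67108864 0 1073741824 697932185 42949674 (corW 3 c0B eng mog cB202E gB3q2 gB1q2 gB0q0 gB1q0 dB3q2 dB1q2 dB0q0 dB1q0 true true)) t 1 1 1 = true :=
  ⟨(T.l 1), by decide +kernel⟩

def B202E_311 :
    ∃ t, chk3 (onCell 0 67108864 0 1073741824 697932185 42949674 (corW 3 c0B eng mog cB202E gB3q2 gB1q2 gB1q0 gB2q0 dB3q2 dB1q2 dB1q0 dB2q0 true true)) t 1 1 1 = true :=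
  ⟨(T.l 1), by decide +kernel⟩

def B202E_312 :
    ∃ t, chk3 (onCell 0 67108864 0 1073741824 697932185 42949674 (corW 3 c0B eng mog cB202E gB3q2 gB1q2 gB2q0 gB3q0 dB3q2 dB1q2 dB2q0 dB3q0 true true)) t 1 1 1 = true :=
  ⟨(T.l 1), by decide +kernel⟩

def B202E_313 :
    ∃ t, chk3 (onCell 0 67108864 0 1073741824 697932185 42949674 (corW 3 c0B eng mog cB202E gB3q2 gB1q2 gB3q0 gB4q0 dB3q2 dB1q2 dB3q0 dB4q0 true true)) t 1 1 1 = true :=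
  ⟨(T.l 1), by decide +kernel⟩

def B202E_314 :
    ∃ t, chk3 (onCell 0 67108864 0 1073741824 697932185 42949674 (corW 3 c0B eng mog cB202E gB3q2 gB1q2 gB4q0 gB5q0 dB3q2 dB1q2 dB4q0 dB5q0 true false)) t 1 1 1 = true :=
  ⟨(T.l 1), by decide +kernel⟩

def B202E_320 :
    ∃ t, chk3 (onCell 0 67108864 0 1073741824 697932185 42949674 (corW 3 c0B eng mog cB202E gB3q2 gB2q2 gB0q0 gB1q0 dB3q2 dB2q2 dB0q0 dB1q0 true true)) t 1 1 1 = true :=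
  ⟨(T.l 1), by decide +kernel⟩

def B202E_321 :
    ∃ t, chk3 (onCell 0 67108864 0 1073741824 697932185 42949674 (corW 3 c0B eng mog cB202E gB3q2 gB2q2 gB1q0 gB2q0 dB3q2 dB2q2 dB1q0 dB2q0 true true)) t 1 1 1 = true :=
  ⟨(T.l 1), by decide +kernel⟩

def B202E_322 :
    ∃ t, chk3 (onCell 0 67108864 0 1073741824 697932185 42949674 (corW 3 c0B eng mog cB202E gB3q2 gB2q2 gB2q0 gB3q0 dB3q2 dB2q2 dB2q0 dB3q0 true true)) t 1 1 1 = true :=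
  ⟨(T.l 1), by decide +kernel⟩

def B202E_323 :
    ∃ t, chk3 (onCell 0 67108864 0 1073741824 697932185 42949674 (corW 3 c0B eng mog cB202E gB3q2 gB2q2 gB3q0 gB4q0 dB3q2 dB2q2 dB3q0 dB4q0 true true)) t 1 1 1 = true :=
  ⟨(T.l 1), by decide +kernel⟩

def B202E_324 :
    ∃ t, chk3 (onCell 0 67108864 0 1073741824 697932185 42949674 (corW 3 c0B eng mog cB202E gB3q2 gB2q2 gB4q0 gB5q0 dB3q2 dB2q2 dB4q0 dB5q0 true false)) t 1 1 1 = true :=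
  ⟨(T.l 1), by decide +kernel⟩

def B202E_330 :
    ∃ t, chk3 (onCell 0 67108864 0 1073741824 697932185 42949674 (corW 3 c0B eng mog cB202E gB3q2 gB3q2 gB0q0 gB1q0 dB3q2 dB3q2 dB0q0 dB1q0 true true)) t 1 1 1 = true :=
  ⟨(T.l 1), by decide +kernel⟩

def B202E_331 :
    ∃ t, chk3 (onCell 0 67108864 0 1073741824 697932185 42949674 (corW 3 c0B eng mog cB202E gB3q2 gB3q2 gB1q0 gB2q0 dB3q2 dB3q2 dB1q0 dB2q0 true true)) t 1 1 1 = true :=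
  ⟨(T.l 1), by decide +kernel⟩

def B202E_332 :
    ∃ t, chk3 (onCell 0 67108864 0 1073741824 697932185 42949674 (corW 3 c0B eng mog cB202E gB3q2 gB3q2 gB2q0 gB3q0 dB3q2 dB3q2 dB2q0 dB3q0 true true)) t 1 1 1 = true :=
  ⟨(T.l 1), by decide +kernel⟩

def B202E_333 :
    ∃ t, chk3 (onCell 0 67108864 0 1073741824 697932185 42949674 (corW 3 c0B eng mog cB202E gB3q2 gB3q2 gB3q0 gB4q0 dB3q2 dB3q2 dB3q0 dB4q0 true true)) t 1 1 1 = true :=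
  ⟨(T.l 1), by decide +kernel⟩

def B202E_334 :
    ∃ t, chk3 (onCell 0 67108864 0 1073741824 697932185 42949674 (corW 3 c0B eng mog cB202E gB3q2 gB3q2 gB4q0 gB5q0 dB3q2 dB3q2 dB4q0 dB5q0 true false)) t 1 1 1 = true :=
  ⟨(T.l 1), by decide +kernel⟩

def B202E_340 :
    ∃ t, chk3 (onCell 0 67108864 0 1073741824 697932185 42949674 (corW 3 c0B eng mog cB202E gB3q2 gB4q2 gB0q0 gB1q0 dB3q2 dB4q2 dB0q0 dB1q0 true true)) t 1 1 1 = true :=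
  ⟨(T.l 1), by decide +kernel⟩

def B202E_341 :
    ∃ t, chk3 (onCell 0 67108864 0 1073741824 697932185 42949674 (corW 3 c0B eng mog cB202E gB3q2 gB4q2 gB1q0 gB2q0 dB3q2 dB4q2 dB1q0 dB2q0 true true)) t 1 1 1 = true :=
  ⟨(T.l 1), by decide +kernel⟩

def B202E_342 :
    ∃ t, chk3 (onCell 0 67108864 0 1073741824 697932185 42949674 (corW 3 c0B eng mog cB202E gB3q2 gB4q2 gB2q0 gB3q0 dB3q2 dB4q2 dB2q0 dB3q0 true true)) t 1 1 1 = true :=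
  ⟨(T.l 1), by decide +kernel⟩

def B202E_343 :
    ∃ t, chk3 (onCell 0 67108864 0 1073741824 697932185 42949674 (corW 3 c0B eng mog cB202E gB3q2 gB4q2 gB3q0 gB4q0 dB3q2 dB4q2 dB3q0 dB4q0 true true)) t 1 1 1 = true :=
  ⟨(T.l 1), by decide +kernel⟩

def B202E_344 :
    ∃ t, chk3 (onCell 0 67108864 0 1073741824 697932185 42949674 (corW 3 c0B eng mog cB202E gB3q2 gB4q2 gB4q0 gB5q0 dB3q2 dB4q2 dB4q0 dB5q0 true false)) t 1 1 1 = true :=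
  ⟨(T.l 1), by decide +kernel⟩

def B202E_400 :
    ∃ t, chk3 (onCell 0 67108864 0 1073741824 697932185 42949674 (corW 3 c0B eng mog cB202E gB4q2 gB0q2 gB0q0 gB1q0 dB4q2 dB0q2 dB0q0 dB1q0 true true)) t 1 1 1 = true :=
  ⟨(T.l 1), by decide +kernel⟩

def B202E_401 :
    ∃ t, chk3 (onCell 0 67108864 0 1073741824 697932185 42949674 (corW 3 c0B eng mog cB202E gB4q2 gB0q2 gB1q0 gB2q0 dB4q2 dB0q2 dB1q0 dB2q0 true true)) t 1 1 1 = true :=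
  ⟨(T.l 1), by decide +kernel⟩

def B202E_402 :
    ∃ t, chk3 (onCell 0 67108864 0 1073741824 697932185 42949674 (corW 3 c0B eng mog cB202E gB4q2 gB0q2 gB2q0 gB3q0 dB4q2 dB0q2 dB2q0 dB3q0 true true)) t 1 1 1 = true :=
  ⟨(T.l 1), by decide +kernel⟩

def B202E_403 :
    ∃ t, chk3 (onCell 0 67108864 0 1073741824 697932185 42949674 (corW 3 c0B eng mog cB202E gB4q2 gB0q2 gB3q0 gB4q0 dB4q2 dB0q2 dB3q0 dB4q0 true true)) t 1 1 1 = true :=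
  ⟨(T.l 1), by decide +kernel⟩

def B202E_404 :
    ∃ t, chk3 (onCell 0 67108864 0 1073741824 697932185 42949674 (corW 3 c0B eng mog cB202E gB4q2 gB0q2 gB4q0 gB5q0 dB4q2 dB0q2 dB4q0 dB5q0 true false)) t 1 1 1 = true :=
  ⟨(T.l 1), by decide +kernel⟩

def B202E_410 :
    ∃ t, chk3 (onCell 0 67108864 0 1073741824 697932185 42949674 (corW 3 c0B eng mog cB202E gB4q2 gB1q2 gB0q0 gB1q0 dB4q2 dB1q2 dB0q0 dB1q0 true true)) t 1 1 1 = true :=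
  ⟨(T.l 1), by decide +kernel⟩

def B202E_411 :
    ∃ t, chk3 (onCell 0 67108864 0 1073741824 697932185 42949674 (corW 3 c0B eng mog cB202E gB4q2 gB1q2 gB1q0 gB2q0 dB4q2 dB1q2 dB1q0 dB2q0 true true)) t 1 1 1 = true :=
  ⟨(T.l 1), by decide +kernel⟩

def B202E_412 :
    ∃ t, chk3 (onCell 0 67108864 0 1073741824 697932185 42949674 (corW 3 c0B eng mog cB202E gB4q2 gB1q2 gB2q0 gB3q0 dB4q2 dB1q2 dB2q0 dB3q0 true true)) t 1 1 1 = true :=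
  ⟨(T.l 1), by decide +kernel⟩

def B202E_413 :
    ∃ t, chk3 (onCell 0 67108864 0 1073741824 697932185 42949674 (corW 3 c0B eng mog cB202E gB4q2 gB1q2 gB3q0 gB4q0 dB4q2 dB1q2 dB3q0 dB4q0 true true)) t 1 1 1 = true :=
  ⟨(T.l 1), by decide +kernel⟩

def B202E_414 :
    ∃ t, chk3 (onCell 0 67108864 0 1073741824 697932185 42949674 (corW 3 c0B eng mog cB202E gB4q2 gB1q2 gB4q0 gB5q0 dB4q2 dB1q2 dB4q0 dB5q0 true false)) t 1 1 1 = true :=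
  ⟨(T.l 1), by decide +kernel⟩

def B202E_420 :
    ∃ t, chk3 (onCell 0 67108864 0 1073741824 697932185 42949674 (corW 3 c0B eng mog cB202E gB4q2 gB2q2 gB0q0 gB1q0 dB4q2 dB2q2 dB0q0 dB1q0 true true)) t 1 1 1 = true :=
  ⟨(T.l 1), by decide +kernel⟩

def B202E_421 :
    ∃ t, chk3 (onCell 0 67108864 0 1073741824 697932185 42949674 (corW 3 c0B eng mog cB202E gB4q2 gB2q2 gB1q0 gB2q0 dB4q2 dB2q2 dB1q0 dB2q0 true true)) t 1 1 1 = true :=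
  ⟨(T.l 1), by decide +kernel⟩

def B202E_422 :
    ∃ t, chk3 (onCell 0 67108864 0 1073741824 697932185 42949674 (corW 3 c0B eng mog cB202E gB4q2 gB2q2 gB2q0 gB3q0 dB4q2 dB2q2 dB2q0 dB3q0 true true)) t 1 1 1 = true :=
  ⟨(T.l 1), by decide +kernel⟩

def B202E_423 :
    ∃ t, chk3 (onCell 0 67108864 0 1073741824 697932185 42949674 (corW 3 c0B eng mog cB202E gB4q2 gB2q2 gB3q0 gB4q0 dB4q2 dB2q2 dB3q0 dB4q0 true true)) t 1 1 1 = true :=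
  ⟨(T.l 1), by decide +kernel⟩

def B202E_424 :
    ∃ t, chk3 (onCell 0 67108864 0 1073741824 697932185 42949674 (corW 3 c0B eng mog cB202E gB4q2 gB2q2 gB4q0 gB5q0 dB4q2 dB2q2 dB4q0 dB5q0 true false)) t 1 1 1 = true :=
  ⟨(T.l 1), by decide +kernel⟩

def B202E_430 :
    ∃ t, chk3 (onCell 0 67108864 0 1073741824 697932185 42949674 (corW 3 c0B eng mog cB202E gB4q2 gB3q2 gB0q0 gB1q0 dB4q2 dB3q2 dB0q0 dB1q0 true true)) t 1 1 1 = true :=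
  ⟨(T.l 1), by decide +kernel⟩

def B202E_431 :
    ∃ t, chk3 (onCell 0 67108864 0 1073741824 697932185 42949674 (corW 3 c0B eng mog cB202E gB4q2 gB3q2 gB1q0 gB2q0 dB4q2 dB3q2 dB1q0 dB2q0 true true)) t 1 1 1 = true :=
  ⟨(T.l 1), by decide +kernel⟩

def B202E_432 :
    ∃ t, chk3 (onCell 0 67108864 0 1073741824 697932185 42949674 (corW 3 c0B eng mog cB202E gB4q2 gB3q2 gB2q0 gB3q0 dB4q2 dB3q2 dB2q0 dB3q0 true true)) t 1 1 1 = true :=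
  ⟨(T.l 1), by decide +kernel⟩

def B202E_433 :
    ∃ t, chk3 (onCell 0 67108864 0 1073741824 697932185 42949674 (corW 3 c0B eng mog cB202E gB4q2 gB3q2 gB3q0 gB4q0 dB4q2 dB3q2 dB3q0 dB4q0 true true)) t 1 1 1 = true :=
  ⟨(T.l 1), by decide +kernel⟩

def B202E_434 :
    ∃ t, chk3 (onCell 0 67108864 0 1073741824 697932185 42949674 (corW 3 c0B eng mog cB202E gB4q2 gB3q2 gB4q0 gB5q0 dB4q2 dB3q2 dB4q0 dB5q0 true false)) t 1 1 1 = true :=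
  ⟨(T.l 1), by decide +kernel⟩

def B202E_440 :
    ∃ t, chk3 (onCell 0 67108864 0 1073741824 697932185 42949674 (corW 3 c0B eng mog cB202E gB4q2 gB4q2 gB0q0 gB1q0 dB4q2 dB4q2 dB0q0 dB1q0 true true)) t 1 1 1 = true :=
  ⟨(T.l 1), by decide +kernel⟩

def B202E_441 :
    ∃ t, chk3 (onCell 0 67108864 0 1073741824 697932185 42949674 (corW 3 c0B eng mog cB202E gB4q2 gB4q2 gB1q0 gB2q0 dB4q2 dB4q2 dB1q0 dB2q0 true true)) t 1 1 1 = true :=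
  ⟨(T.l 1), by decide +kernel⟩

def B202E_442 :
    ∃ t, chk3 (onCell 0 67108864 0 1073741824 697932185 42949674 (corW 3 c0B eng mog cB202E gB4q2 gB4q2 gB2q0 gB3q0 dB4q2 dB4q2 dB2q0 dB3q0 true true)) t 1 1 1 = true :=
  ⟨(T.l 1), by decide +kernel⟩

def B202E_443 :
    ∃ t, chk3 (onCell 0 67108864 0 1073741824 697932185 42949674 (corW 3 c0B eng mog cB202E gB4q2 gB4q2 gB3q0 gB4q0 dB4q2 dB4q2 dB3q0 dB4q0 true true)) t 1 1 1 = true :=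
  ⟨(T.l 1), by decide +kernel⟩

def B202E_444 :
    ∃ t, chk3 (onCell 0 67108864 0 1073741824 697932185 42949674 (corW 3 c0B eng mog cB202E gB4q2 gB4q2 gB4q0 gB5q0 dB4q2 dB4q2 dB4q0 dB5q0 true false)) t 1 1 1 = true :=
  ⟨(T.l 1), by decide +kernel⟩

def B202L_700 :
    ∃ t, chk3 (onCell 0 67108864 0 1073741824 697932185 42949674 (corW 3 c0B eng mog cB202L gB7q2 gB0q2 gB0q0 gB1q0 dB7q2 dB0q2 dB0q0 dB1q0 true true)) t 1 1 1 = true :=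
  ⟨(T.l 2), by decide +kernel⟩

def B202L_701 :
    ∃ t, chk3 (onCell 0 67108864 0 1073741824 697932185 42949674 (corW 3 c0B eng mog cB202L gB7q2 gB0q2 gB1q0 gB2q0 dB7q2 dB0q2 dB1q0 dB2q0 true true)) t 1 1 1 = true :=
  ⟨(T.l 2), by decide +kernel⟩

def B202L_702 :
    ∃ t, chk3 (onCell 0 67108864 0 1073741824 697932185 42949674 (corW 3 c0B eng mog cB202L gB7q2 gB0q2 gB2q0 gB3q0 dB7q2 dB0q2 dB2q0 dB3q0 true true)) t 1 1 1 = true :=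
  ⟨(T.l 2), by decide +kernel⟩

def B202L_703 :
    ∃ t, chk3 (onCell 0 67108864 0 1073741824 697932185 42949674 (corW 3 c0B eng mog cB202L gB7q2 gB0q2 gB3q0 gB4q0 dB7q2 dB0q2 dB3q0 dB4q0 true true)) t 1 1 1 = true :=
  ⟨(T.l 2), by decide +kernel⟩

def B202L_704 :
    ∃ t, chk3 (onCell 0 67108864 0 1073741824 697932185 42949674 (corW 3 c0B eng mog cB202L gB7q2 gB0q2 gB4q0 gB5q0 dB7q2 dB0q2 dB4q0 dB5q0 true false)) t 1 1 1 = true :=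
  ⟨(T.b (T.a (T.a (T.l 204) (T.l 204)) (T.l 220)) (T.a (T.a (T.l 204) (T.l 204)) (T.a (T.l 204) (T.l 204)))), by decide +kernel⟩

def B202L_710 :
    ∃ t, chk3 (onCell 0 67108864 0 1073741824 697932185 42949674 (corW 3 c0B eng mog cB202L gB7q2 gB1q2 gB0q0 gB1q0 dB7q2 dB1q2 dB0q0 dB1q0 true true)) t 1 1 1 = true :=
  ⟨(T.l 2), by decide +kernel⟩

def B202L_711 :
    ∃ t, chk3 (onCell 0 67108864 0 1073741824 697932185 42949674 (corW 3 c0B eng mog cB202L gB7q2 gB1q2 gB1q0 gB2q0 dB7q2 dB1q2 dB1q0 dB2q0 true true)) t 1 1 1 = true :=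
  ⟨(T.l 2), by decide +kernel⟩

def B202L_712 :
    ∃ t, chk3 (onCell 0 67108864 0 1073741824 697932185 42949674 (corW 3 c0B eng mog cB202L gB7q2 gB1q2 gB2q0 gB3q0 dB7q2 dB1q2 dB2q0 dB3q0 true true)) t 1 1 1 = true :=
  ⟨(T.l 2), by decide +kernel⟩

def B202L_713 :
    ∃ t, chk3 (onCell 0 67108864 0 1073741824 697932185 42949674 (corW 3 c0B eng mog cB202L gB7q2 gB1q2 gB3q0 gB4q0 dB7q2 dB1q2 dB3q0 dB4q0 true true)) t 1 1 1 = true :=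
  ⟨(T.b (T.a (T.a (T.l 204) (T.l 2)) (T.l 2)) (T.l 2)), by decide +kernel⟩

def B202L_714 :
    ∃ t, chk3 (onCell 0 67108864 0 1073741824 697932185 42949674 (corW 3 c0B eng mog cB202L gB7q2 gB1q2 gB4q0 gB5q0 dB7q2 dB1q2 dB4q0 dB5q0 true false)) t 1 1 1 = true :=
  ⟨(T.b (T.a (T.a (T.l 204) (T.l 204)) (T.l 204)) (T.a (T.a (T.l 204) (T.l 204)) (T.b (T.l 204) (T.l 204)))), by decide +kernel⟩

def B202L_720 :
    ∃ t, chk3 (onCell 0 67108864 0 1073741824 697932185 42949674 (corW 3 c0B eng mog cB202L gB7q2 gB2q2 gB0q0 gB1q0 dB7q2 dB2q2 dB0q0 dB1q0 true true)) t 1 1 1 = true :=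
  ⟨(T.l 2), by decide +kernel⟩

def B202L_721 :
    ∃ t, chk3 (onCell 0 67108864 0 1073741824 697932185 42949674 (corW 3 c0B eng mog cB202L gB7q2 gB2q2 gB1q0 gB2q0 dB7q2 dB2q2 dB1q0 dB2q0 true true)) t 1 1 1 = true :=
  ⟨(T.l 2), by decide +kernel⟩

def B202L_722 :
    ∃ t, chk3 (onCell 0 67108864 0 1073741824 697932185 42949674 (corW 3 c0B eng mog cB202L gB7q2 gB2q2 gB2q0 gB3q0 dB7q2 dB2q2 dB2q0 dB3q0 true true)) t 1 1 1 = true :=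
  ⟨(T.l 2), by decide +kernel⟩

def B202L_723 :
    ∃ t, chk3 (onCell 0 67108864 0 1073741824 697932185 42949674 (corW 3 c0B eng mog cB202L gB7q2 gB2q2 gB3q0 gB4q0 dB7q2 dB2q2 dB3q0 dB4q0 true true)) t 1 1 1 = true :=
  ⟨(T.b (T.a (T.a (T.l 204) (T.l 204)) (T.l 204)) (T.l 2)), by decide +kernel⟩

def B202L_724 :
    ∃ t, chk3 (onCell 0 67108864 0 1073741824 697932185 42949674 (corW 3 c0B eng mog cB202L gB7q2 gB2q2 gB4q0 gB5q0 dB7q2 dB2q2 dB4q0 dB5q0 true false)) t 1 1 1 = true :=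
  ⟨(T.b (T.a (T.a (T.l 204) (T.l 204)) (T.l 204)) (T.a (T.a (T.l 204) (T.l 204)) (T.b (T.l 204) (T.l 204)))), by decide +kernel⟩

def B202L_730 :
    ∃ t, chk3 (onCell 0 67108864 0 1073741824 697932185 42949674 (corW 3 c0B eng mog cB202L gB7q2 gB3q2 gB0q0 gB1q0 dB7q2 dB3q2 dB0q0 dB1q0 true true)) t 1 1 1 = true :=
  ⟨(T.l 2), by decide +kernel⟩

def B202L_731 :
    ∃ t, chk3 (onCell 0 67108864 0 1073741824 697932185 42949674 (corW 3 c0B eng mog cB202L gB7q2 gB3q2 gB1q0 gB2q0 dB7q2 dB3q2 dB1q0 dB2q0 true true)) t 1 1 1 = true :=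
  ⟨(T.l 2), by decide +kernel⟩

def B202L_732 :
    ∃ t, chk3 (onCell 0 67108864 0 1073741824 697932185 42949674 (corW 3 c0B eng mog cB202L gB7q2 gB3q2 gB2q0 gB3q0 dB7q2 dB3q2 dB2q0 dB3q0 true true)) t 1 1 1 = true :=
  ⟨(T.b (T.a (T.a (T.l 204) (T.l 204)) (T.l 204)) (T.b (T.a (T.a (T.l 204) (T.l 204)) (T.l 0)) (T.a (T.a (T.l 0) (T.l 2)) (T.l 2)))), by decide +kernel⟩

def B202L_733 :
    ∃ t, chk3 (onCell 0 67108864 0 1073741824 697932185 42949674 (corW 3 c0B eng mog cB202L gB7q2 gB3q2 gB3q0 gB4q0 dB7q2 dB3q2 dB3q0 dB4q0 true true)) t 1 1 1 = true :=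
  ⟨(T.b (T.a (T.l 1) (T.l 204)) (T.b (T.a (T.a (T.l 204) (T.l 204)) (T.l 0)) (T.a (T.a (T.l 0) (T.l 0)) (T.l 0)))), by decide +kernel⟩

def B202L_734 :
    ∃ t, chk3 (onCell 0 67108864 0 1073741824 697932185 42949674 (corW 3 c0B eng mog cB202L gB7q2 gB3q2 gB4q0 gB5q0 dB7q2 dB3q2 dB4q0 dB5q0 true false)) t 1 1 1 = true :=
  ⟨(T.b (T.l 1) (T.b (T.a (T.l 1) (T.l 0)) (T.a (T.a (T.l 0) (T.l 0)) (T.l 0)))), by decide +kernel⟩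

def B202L_740 :
    ∃ t, chk3 (onCell 0 67108864 0 1073741824 697932185 42949674 (corW 3 c0B eng mog cB202L gB7q2 gB4q2 gB0q0 gB1q0 dB7q2 dB4q2 dB0q0 dB1q0 true true)) t 1 1 1 = true :=
  ⟨(T.b (T.b (T.b (T.a (T.a (T.l 204) (T.l 204)) (T.a (T.l 204) (T.l 2))) (T.a (T.a (T.l 204) (T.l 204)) (T.a (T.l 204) (T.l 204)))) (T.b (T.a (T.a (T.l 204) (T.l 204)) (T.a (T.l 204) (T.l 204))) (T.a (T.l 1) (T.l 204)))) (T.l 1)), by decide +kernel⟩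

def B202L_741 :
    ∃ t, chk3 (onCell 0 67108864 0 1073741824 697932185 42949674 (corW 3 c0B eng mog cB202L gB7q2 gB4q2 gB1q0 gB2q0 dB7q2 dB4q2 dB1q0 dB2q0 true true)) t 1 1 1 = true :=
  ⟨(T.b (T.a (T.a (T.l 204) (T.l 204)) (T.l 220)) (T.l 1)), by decide +kernel⟩

def B202L_742 :
    ∃ t, chk3 (onCell 0 67108864 0 1073741824 697932185 42949674 (corW 3 c0B eng mog cB202L gB7q2 gB4q2 gB2q0 gB3q0 dB7q2 dB4q2 dB2q0 dB3q0 true true)) t 1 1 1 = true :=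
  ⟨(T.l 1), by decide +kernel⟩

def B202L_743 :
    ∃ t, chk3 (onCell 0 67108864 0 1073741824 697932185 42949674 (corW 3 c0B eng mog cB202L gB7q2 gB4q2 gB3q0 gB4q0 dB7q2 dB4q2 dB3q0 dB4q0 true true)) t 1 1 1 = true :=
  ⟨(T.l 1), by decide +kernel⟩

def B202L_744 :
    ∃ t, chk3 (onCell 0 67108864 0 1073741824 697932185 42949674 (corW 3 c0B eng mog cB202L gB7q2 gB4q2 gB4q0 gB5q0 dB7q2 dB4q2 dB4q0 dB5q0 true false)) t 1 1 1 = true :=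
  ⟨(T.l 1), by decide +kernel⟩

def B202R_070 :
    ∃ t, chk3 (onCell 0 53687091 0 1073741824 697932185 42949674 (corW 3 c0B eng mog cB202R gB0q2 gB7q2 gB0q0 gB1q0 dB0q2 dB7q2 dB0q0 dB1q0 true true)) t 1 1 1 = true :=
  ⟨(T.b (T.b (T.l 1) (T.b (T.b (T.l 1) (T.b (T.b (T.a (T.l 1) (T.a (T.l 1) (T.a (T.l 1) (T.b (T.l 1) (T.b (T.l 1) (T.b (T.l 1) (T.b (T.l 1) (T.c (T.l 0) (T.l 0))))))))) (T.b (T.a (T.b (T.b (T.l 1) (T.a (T.a (T.l 1) (T.a (T.l 1) (T.a (T.l 1) (T.b (T.l 1) (T.b (T.l 1) (T.l 0)))))) (T.a (T.b (T.l 1) (T.c (T.c (T.a (T.l 0) (T.l 0)) (T.l 0)) (T.l 0))) (T.c (T.c (T.a (T.c (T.a (T.b (T.l 1) (T.l 0)) (T.l 0)) (T.l 0)) (T.l 0)) (T.l 0)) (T.l 0))))) (T.a (T.b (T.a (T.b (T.b (T.l 1) (T.a (T.c (T.a (T.l 1) (T.l 0)) (T.l 0)) (T.l 0))) (T.c (T.l 0) (T.l 0))) (T.c (T.c (T.l 0) (T.l 0)) (T.l 0))) (T.l 0)) (T.c (T.l 0) (T.l 0)))) (T.a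 (T.b (T.b (T.b (T.l 1) (T.a (T.a (T.l 1) (T.c (T.l 0) (T.l 0))) (T.l 0))) (T.c (T.l 0) (T.l 0))) (T.l 0)) (T.c (T.a (T.l 0) (T.l 0)) (T.l 0)))) (T.a (T.a (T.l 0) (T.l 0)) (T.l 0)))) (T.a (T.a (T.l 0) (T.l 0)) (T.l 0)))) (T.b (T.a (T.l 0) (T.a (T.l 204) (T.l 204))) (T.l 2)))) (T.l 2)), by decide +kernel⟩

def B202R_071 :
    ∃ t, chk3 (onCell 0 53687091 0 1073741824 697932185 42949674 (corW 3 c0B eng mog cB202R gB0q2 gB7q2 gB1q0 gB2q0 dB0q2 dB7q2 dB1q0 dB2q0 true true)) t 1 1 1 = true :=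
  ⟨(T.b (T.b (T.l 1) (T.b (T.l 1) (T.a (T.l 0) (T.a (T.l 0) (T.b (T.l 204) (T.l 204)))))) (T.b (T.b (T.l 2) (T.l 2)) (T.l 2))), by decide +kernel⟩

def B202R_072 :
    ∃ t, chk3 (onCell 0 53687091 0 1073741824 697932185 42949674 (corW 3 c0B eng mog cB202R gB0q2 gB7q2 gB2q0 gB3q0 dB0q2 dB7q2 dB2q0 dB3q0 true true)) t 1 1 1 = true :=
  ⟨(T.b (T.b (T.l 1) (T.b (T.l 1) (T.b (T.l 1) (T.a (T.l 204) (T.l 204))))) (T.b (T.b (T.a (T.l 0) (T.a (T.l 204) (T.l 0))) (T.l 2)) (T.l 2))), by decide +kernel⟩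

def B202R_073 :
    ∃ t, chk3 (onCell 0 53687091 0 1073741824 697932185 42949674 (corW 3 c0B eng mog cB202R gB0q2 gB7q2 gB3q0 gB4q0 dB0q2 dB7q2 dB3q0 dB4q0 true true)) t 1 1 1 = true :=
  ⟨(T.b (T.l 1) (T.b (T.b (T.a (T.l 0) (T.a (T.l 204) (T.l 0))) (T.b (T.a (T.l 0) (T.b (T.l 0) (T.l 2))) (T.l 2))) (T.l 2))), by decide +kernel⟩

def B202R_074 :
    ∃ t, chk3 (onCell 0 53687091 0 1073741824 697932185 42949674 (corW 3 c0B eng mog cB202R gB0q2 gB7q2 gB4q0 gB5q0 dB0q2 dB7q2 dB4q0 dB5q0 true false)) t 1 1 1 = true :=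
  ⟨(T.b (T.l 1) (T.b (T.b (T.b (T.l 1) (T.a (T.l 1) (T.l 1))) (T.b (T.a (T.l 0) (T.b (T.l 0) (T.l 0))) (T.a (T.l 204) (T.b (T.l 0) (T.l 0))))) (T.b (T.a (T.a (T.l 204) (T.l 204)) (T.b (T.l 16) (T.l 0))) (T.a (T.a (T.l 204) (T.l 204)) (T.b (T.l 0) (T.l 0)))))), by decide +kernel⟩

def B202R_170 :
    ∃ t, chk3 (onCell 0 67108864 0 1073741824 697932185 42949674 (corW 3 c0B eng mog cB202R gB1q2 gB7q2 gB0q0 gB1q0 dB1q2 dB7q2 dB0q0 dB1q0 true true)) t 1 1 1 = true :=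
  ⟨(T.b (T.b (T.l 1) (T.b (T.b (T.l 1) (T.b (T.l 1) (T.b (T.l 1) (T.a (T.b (T.a (T.l 1) (T.c (T.l 0) (T.l 0))) (T.l 0)) (T.a (T.l 0) (T.c (T.l 0) (T.l 0))))))) (T.b (T.a (T.a (T.l 0) (T.l 0)) (T.a (T.l 0) (T.l 0))) (T.a (T.l 2) (T.l 2))))) (T.b (T.l 2) (T.l 2))), by decide +kernel⟩

def B202R_171 :
    ∃ t, chk3 (onCell 0 67108864 0 1073741824 697932185 42949674 (corW 3 c0B eng mog cB202R gB1q2 gB7q2 gB1q0 gB2q0 dB1q2 dB7q2 dB1q0 dB2q0 true true)) t 1 1 1 = true :=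
  ⟨(T.b (T.b (T.l 1) (T.b (T.l 1) (T.a (T.b (T.a (T.l 0) (T.l 0)) (T.l 0)) (T.a (T.b (T.l 204) (T.l 204)) (T.b (T.l 204) (T.l 0)))))) (T.b (T.a (T.l 0) (T.b (T.a (T.l 204) (T.l 0)) (T.l 2))) (T.l 2))), by decide +kernel⟩

def B202R_172 :
    ∃ t, chk3 (onCell 0 67108864 0 1073741824 697932185 42949674 (corW 3 c0B eng mog cB202R gB1q2 gB7q2 gB2q0 gB3q0 dB1q2 dB7q2 dB2q0 dB3q0 true true)) t 1 1 1 = true :=
  ⟨(T.b (T.b (T.l 1) (T.b (T.l 1) (T.l 1))) (T.b (T.a (T.l 0) (T.b (T.a (T.l 204) (T.l 0)) (T.l 2))) (T.l 2))), by decide +kernel⟩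

def B202R_173 :
    ∃ t, chk3 (onCell 0 67108864 0 1073741824 697932185 42949674 (corW 3 c0B eng mog cB202R gB1q2 gB7q2 gB3q0 gB4q0 dB1q2 dB7q2 dB3q0 dB4q0 true true)) t 1 1 1 = true :=
  ⟨(T.b (T.l 1) (T.b (T.b (T.a (T.l 0) (T.a (T.l 204) (T.l 0))) (T.a (T.l 0) (T.a (T.l 0) (T.l 0)))) (T.l 2))), by decide +kernel⟩

def B202R_174 :
    ∃ t, chk3 (onCell 0 67108864 0 1073741824 697932185 42949674 (corW 3 c0B eng mog cB202R gB1q2 gB7q2 gB4q0 gB5q0 dB1q2 dB7q2 dB4q0 dB5q0 true false)) t 1 1 1 = true :=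
  ⟨(T.b (T.l 1) (T.b (T.b (T.l 1) (T.a (T.l 0) (T.a (T.l 0) (T.l 0)))) (T.b (T.a (T.l 204) (T.b (T.l 0) (T.l 0))) (T.a (T.a (T.l 204) (T.l 0)) (T.a (T.l 204) (T.l 204)))))), by decide +kernel⟩

def B202R_270 :
    ∃ t, chk3 (onCell 0 67108864 0 1073741824 697932185 42949674 (corW 3 c0B eng mog cB202R gB2q2 gB7q2 gB0q0 gB1q0 dB2q2 dB7q2 dB0q0 dB1q0 true true)) t 1 1 1 = true :=
  ⟨(T.b (T.b (T.l 1) (T.b (T.l 1) (T.b (T.l 1) (T.a (T.b (T.a (T.l 1) (T.l 0)) (T.l 0)) (T.a (T.l 0) (T.b (T.l 0) (T.l 0))))))) (T.b (T.b (T.a (T.l 0) (T.a (T.l 0) (T.b (T.l 0) (T.l 2)))) (T.l 2)) (T.l 2))), by decide +kernel⟩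

def B202R_271 :
    ∃ t, chk3 (onCell 0 67108864 0 1073741824 697932185 42949674 (corW 3 c0B eng mog cB202R gB2q2 gB7q2 gB1q0 gB2q0 dB2q2 dB7q2 dB1q0 dB2q0 true true)) t 1 1 1 = true :=
  ⟨(T.b (T.l 1) (T.b (T.b (T.a (T.l 0) (T.a (T.l 204) (T.b (T.l 0) (T.l 0)))) (T.a (T.l 0) (T.l 2))) (T.l 2))), by decide +kernel⟩

def B202R_272 :
    ∃ t, chk3 (onCell 0 67108864 0 1073741824 697932185 42949674 (corW 3 c0B eng mog cB202R gB2q2 gB7q2 gB2q0 gB3q0 dB2q2 dB7q2 dB2q0 dB3q0 true true)) t 1 1 1 = true :=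
  ⟨(T.b (T.l 1) (T.b (T.a (T.l 0) (T.b (T.b (T.l 1) (T.a (T.l 204) (T.l 0))) (T.a (T.l 0) (T.l 0)))) (T.l 2))), by decide +kernel⟩

def B202R_273 :
    ∃ t, chk3 (onCell 0 67108864 0 1073741824 697932185 42949674 (corW 3 c0B eng mog cB202R gB2q2 gB7q2 gB3q0 gB4q0 dB2q2 dB7q2 dB3q0 dB4q0 true true)) t 1 1 1 = true :=
  ⟨(T.b (T.l 1) (T.b (T.b (T.l 1) (T.a (T.l 0) (T.a (T.l 0) (T.l 0)))) (T.b (T.a (T.l 0) (T.b (T.l 0) (T.l 2))) (T.l 2)))), by decide +kernel⟩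

def B202R_274 :
    ∃ t, chk3 (onCell 0 67108864 0 1073741824 697932185 42949674 (corW 3 c0B eng mog cB202R gB2q2 gB7q2 gB4q0 gB5q0 dB2q2 dB7q2 dB4q0 dB5q0 true false)) t 1 1 1 = true :=
  ⟨(T.b (T.l 1) (T.b (T.b (T.l 1) (T.a (T.l 1) (T.a (T.b (T.l 1) (T.l 0)) (T.l 0)))) (T.b (T.a (T.l 0) (T.b (T.l 0) (T.l 0))) (T.a (T.a (T.l 204) (T.l 0)) (T.b (T.l 0) (T.l 0)))))), by decide +kernel⟩

def B202R_370 :
    ∃ t, chk3 (onCell 0 67108864 0 1073741824 697932185 42949674 (corW 3 c0B eng mog cB202R gB3q2 gB7q2 gB0q0 gB1q0 dB3q2 dB7q2 dB0q0 dB1q0 true true)) t 1 1 1 = true :=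
  ⟨(T.b (T.l 1) (T.b (T.l 1) (T.b (T.a (T.l 816) (T.a (T.l 0) (T.l 0))) (T.a (T.b (T.l 2) (T.l 2)) (T.l 2))))), by decide +kernel⟩

def B202R_371 :
    ∃ t, chk3 (onCell 0 67108864 0 1073741824 697932185 42949674 (corW 3 c0B eng mog cB202R gB3q2 gB7q2 gB1q0 gB2q0 dB3q2 dB7q2 dB1q0 dB2q0 true true)) t 1 1 1 = true :=
  ⟨(T.b (T.l 1) (T.b (T.l 1) (T.b (T.a (T.l 816) (T.a (T.l 0) (T.l 0))) (T.b (T.a (T.l 816) (T.a (T.l 0) (T.l 2))) (T.l 2))))), by decide +kernel⟩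

def B202R_372 :
    ∃ t, chk3 (onCell 0 67108864 0 1073741824 697932185 42949674 (corW 3 c0B eng mog cB202R gB3q2 gB7q2 gB2q0 gB3q0 dB3q2 dB7q2 dB2q0 dB3q0 true true)) t 1 1 1 = true :=
  ⟨(T.b (T.l 1) (T.b (T.l 1) (T.b (T.a (T.l 1) (T.a (T.l 0) (T.l 0))) (T.b (T.a (T.l 816) (T.a (T.l 0) (T.l 0))) (T.a (T.l 2) (T.l 2)))))), by decide +kernel⟩

def B202R_373 :
    ∃ t, chk3 (onCell 0 67108864 0 1073741824 697932185 42949674 (corW 3 c0B eng mog cB202R gB3q2 gB7q2 gB3q0 gB4q0 dB3q2 dB7q2 dB3q0 dB4q0 true true)) t 1 1 1 = true :=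
  ⟨(T.b (T.l 1) (T.b (T.l 1) (T.b (T.l 1) (T.b (T.a (T.l 816) (T.a (T.l 0) (T.l 0))) (T.a (T.a (T.l 816) (T.l 0)) (T.l 2)))))), by decide +kernel⟩

def B202R_374 :
    ∃ t, chk3 (onCell 0 67108864 0 1073741824 697932185 42949674 (corW 3 c0B eng mog cB202R gB3q2 gB7q2 gB4q0 gB5q0 dB3q2 dB7q2 dB4q0 dB5q0 true false)) t 1 1 1 = true :=
  ⟨(T.b (T.l 1) (T.b (T.l 1) (T.b (T.l 1) (T.b (T.a (T.l 816) (T.a (T.l 0) (T.l 0))) (T.a (T.a (T.l 816) (T.l 0)) (T.l 256)))))), by decide +kernel⟩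

def B202R_470 :
    ∃ t, chk3 (onCell 0 67108864 0 1073741824 697932185 42949674 (corW 3 c0B eng mog cB202R gB4q2 gB7q2 gB0q0 gB1q0 dB4q2 dB7q2 dB0q0 dB1q0 true true)) t 1 1 1 = true :=
  ⟨(T.l 1), by decide +kernel⟩

def B202R_471 :
    ∃ t, chk3 (onCell 0 67108864 0 1073741824 697932185 42949674 (corW 3 c0B eng mog cB202R gB4q2 gB7q2 gB1q0 gB2q0 dB4q2 dB7q2 dB1q0 dB2q0 true true)) t 1 1 1 = true :=
  ⟨(T.l 1), by decide +kernel⟩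

def B202R_472 :
    ∃ t, chk3 (onCell 0 67108864 0 1073741824 697932185 42949674 (corW 3 c0B eng mog cB202R gB4q2 gB7q2 gB2q0 gB3q0 dB4q2 dB7q2 dB2q0 dB3q0 true true)) t 1 1 1 = true :=
  ⟨(T.l 1), by decide +kernel⟩

def B202R_473 :
    ∃ t, chk3 (onCell 0 67108864 0 1073741824 697932185 42949674 (corW 3 c0B eng mog cB202R gB4q2 gB7q2 gB3q0 gB4q0 dB4q2 dB7q2 dB3q0 dB4q0 true true)) t 1 1 1 = true :=
  ⟨(T.l 1), by decide +kernel⟩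

def B202R_474 :
    ∃ t, chk3 (onCell 0 67108864 0 1073741824 697932185 42949674 (corW 3 c0B eng mog cB202R gB4q2 gB7q2 gB4q0 gB5q0 dB4q2 dB7q2 dB4q0 dB5q0 true false)) t 1 1 1 = true :=
  ⟨(T.l 1), by decide +kernel⟩

end Pool.Agent.Strip051.G.I6500_6900.Tab.CW
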