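import Pool.Agent.Strip051.G.I6500_6900.CrnB
import Pool.Agent.Strip051.G.I6500_6900.CG_2
import Pool.Agent.Strip051.G.I6500_6900.CW_2

/-! # Aligned corners: the alternatives (generated) -/

set_option linter.all false

namespace Pool.Agent.Strip051.G.I6500_6900.Tab

open Pool.Agent.Strip051.PB Pool.Agent.StripNear Pool.Agent.Strip051.LC

theorem altB_B202E_33 {κ x : ℝ} (hκ : κ * h0 = ken x) (hx : ((697932185 : ℕ) : ℝ) / S ≤ x) (hx' : x ≤ (((697932185 : ℕ) : ℝ) + (42949674 : ℕ)) / S) :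
    AltEB 3 κ (eng.v x) (3 / 40) (tnt (h0 * x) (3 / 10)) PP tK tL tC pcB (scP esg pd) [⟨0, 1, 0, 67108864⟩, ⟨1, 0, 0, 67108864⟩, ⟨2, 1, 0, 67108864⟩] 2 0 2 3 3 (sgb true) (sgb false) x := by
  have X : XR 67108864 x := XR.of hx hx' (by norm_num) (by norm_num) (by norm_num) (by norm_num)
  have hen : 0 < eng.v x := en_pos X.x0.le
  refine CornW.altB (C := cB202E) (j := (3 : Fin 8)) (k := (3 : Fin 8)) (Ef := esg) (pd := pd) (o := 3 / 40)
    (cornW_of (C := cB202E) (C0 := c0B) (En := eng) (mo := mog) (j := (3 : Fin 8)) (k := (3 : Fin 8)) (lo := 0) (hi := 4) (W := 67108864) (N0 := 3) cB202E_q (sideB hx hx') gokB (pinU hx hx') dokB X (by norm_num) (by norm_num) (l := (0 : Fin 8)) rfl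
      (gatB32 x) (gatB32 x) (gatB00 x) (datB32 x) (datB32 x) (datB00 x) ?_)
    (cornS_of (C := cB202E) (C0 := c0B) (j := (3 : Fin 8)) (k := (3 : Fin 8)) (lo := 0) (hi := 4) (W := 67108864) (N0 := 3) cB202E_q (sideB hx hx') gokB X (by norm_num) (by norm_num) (l := (0 : Fin 8)) rfl
      (gatB32 x) (gatB32 x) (gatB00 x) ?_)
    (thU (pinU hx hx')) rfl hκ (fun j q y => tC_eq j q y x) (esg_rng X.x0.le (by linarith [X.b, X.p0])).1 (mo_v x) le_rfl le_rfl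
  · intro ρ a B hρ hd i h1 h2
    fin_cases i
    · exact corW_cert (G1 := gB3q2) (G2 := gB3q2) (Ga := gB0q0) (Gb := gB1q0) (D1 := dB3q2) (D2 := dB3q2) (Da := dB0q0) (Db := dB1q0) cB202E_ok B hρ hen (gatB32 x) (gatB32 x) (fun _ => gatB00 x) (fun _ => gatB10 x) (datB32 x) (datB32 x) (fun _ => datB00 x) (fun _ => datB10 x) hd hx hx' CW.B202E_330
    · exact corW_cert (G1 := gB3q2) (G2 := gB3q2) (Ga := gB1q0) (Gb := gB2q0) (D1 := dB3q2) (D2 := dB3q2) (Da := dB1q0) (Db := dB2q0) cB202E_ok B hρ hen (gatB32 x) (gatB32 x) (fun _ => gatB10 x) (fun _ => gatB20 x) (datB32 x) (datB32 x) (fun _ => datB10 x) (fun _ => datB20 x) hd hx hx' CW.B202E_331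
    · exact corW_cert (G1 := gB3q2) (G2 := gB3q2) (Ga := gB2q0) (Gb := gB3q0) (D1 := dB3q2) (D2 := dB3q2) (Da := dB2q0) (Db := dB3q0) cB202E_ok B hρ hen (gatB32 x) (gatB32 x) (fun _ => gatB20 x) (fun _ => gatB30 x) (datB32 x) (datB32 x) (fun _ => datB20 x) (fun _ => datB30 x) hd hx hx' CW.B202E_332
    · exact corW_cert (G1 := gB3q2) (G2 := gB3q2) (Ga := gB3q0) (Gb := gB4q0) (D1 := dB3q2) (D2 := dB3q2) (Da := dB3q0) (Db := dB4q0) cB202E_ok B hρ hen (gatB32 x) (gatB32 x) (fun _ => gatB30 x) (fun _ => gatB40 x) (datB32 x) (datB32 x) (fun _ => datB30 x) (fun _ => datB40 x) hd hx hx' CW.B202E_333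
    · exact corW_cert (G1 := gB3q2) (G2 := gB3q2) (Ga := gB4q0) (Gb := gB5q0) (D1 := dB3q2) (D2 := dB3q2) (Da := dB4q0) (Db := dB5q0) cB202E_ok B hρ hen (gatB32 x) (gatB32 x) (fun _ => gatB40 x) (fun h => absurd h (by decide)) (datB32 x) (datB32 x) (fun _ => datB40 x) (fun h => absurd h (by decide)) hd hx hx' CW.B202E_334
    · exact absurd h2 (by norm_num)
    · exact absurd h2 (by norm_num)
  · intro ρ a B hρ hd i h1 h2
    fin_cases i
    · exact corT_cert (G1 := gB3q2) (G2 := gB3q2) (Ga := gB0q0) (Gb := gB1q0) cB202E_ok B hρ (gatB32 x) (gatB32 x) (fun _ => gatB00 x) (fun _ => gatB10 x) hd hx hx' CG.B202E_330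
    · exact corT_cert (G1 := gB3q2) (G2 := gB3q2) (Ga := gB1q0) (Gb := gB2q0) cB202E_ok B hρ (gatB32 x) (gatB32 x) (fun _ => gatB10 x) (fun _ => gatB20 x) hd hx hx' CG.B202E_331
    · exact corT_cert (G1 := gB3q2) (G2 := gB3q2) (Ga := gB2q0) (Gb := gB3q0) cB202E_ok B hρ (gatB32 x) (gatB32 x) (fun _ => gatB20 x) (fun _ => gatB30 x) hd hx hx' CG.B202E_332
    · exact corT_cert (G1 := gB3q2) (G2 := gB3q2) (Ga := gB3q0) (Gb := gB4q0) cB202E_ok B hρ (gatB32 x) (gatB32 x) (fun _ => gatB30 x) (fun _ => gatB40 x) hd hx hx' CG.B202E_333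
    · exact corT_cert (G1 := gB3q2) (G2 := gB3q2) (Ga := gB4q0) (Gb := gB5q0) cB202E_ok B hρ (gatB32 x) (gatB32 x) (fun _ => gatB40 x) (fun h => absurd h (by decide)) hd hx hx' CG.B202E_334
    · exact absurd h2 (by norm_num)
    · exact absurd h2 (by norm_num)

theorem altB_B202E_34 {κ x : ℝ} (hκ : κ * h0 = ken x) (hx : ((697932185 : ℕ) : ℝ) / S ≤ x) (hx' : x ≤ (((697932185 : ℕ) : ℝ) + (42949674 : ℕ)) / S) :
    AltEB 3 κ (eng.v x) (3 / 40) (tnt (h0 * x) (3 / 10)) PP tK tL tC pcB (scP esg pd) [⟨0, 1, 0, 67108864⟩, ⟨1, 0, 0, 67108864⟩, ⟨2, 1, 0, 67108864⟩] 2 0 2 3 4 (sgb true) (sgb false) x := by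
  have X : XR 67108864 x := XR.of hx hx' (by norm_num) (by norm_num) (by norm_num) (by norm_num)
  have hen : 0 < eng.v x := en_pos X.x0.le
  refine CornW.altB (C := cB202E) (j := (3 : Fin 8)) (k := (4 : Fin 8)) (Ef := esg) (pd := pd) (o := 3 / 40)
    (cornW_of (C := cB202E) (C0 := c0B) (En := eng) (mo := mog) (j := (3 : Fin 8)) (k := (4 : Fin 8)) (lo := 0) (hi := 4) (W := 67108864) (N0 := 3) cB202E_q (sideB hx hx') gokB (pinU hx hx') dokB X (by norm_num) (by norm_num) (l := (0 : Fin 8)) rfl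
      (gatB32 x) (gatB42 x) (gatB00 x) (datB32 x) (datB42 x) (datB00 x) ?_)
    (cornS_of (C := cB202E) (C0 := c0B) (j := (3 : Fin 8)) (k := (4 : Fin 8)) (lo := 0) (hi := 4) (W := 67108864) (N0 := 3) cB202E_q (sideB hx hx') gokB X (by norm_num) (by norm_num) (l := (0 : Fin 8)) rfl
      (gatB32 x) (gatB42 x) (gatB00 x) ?_)
    (thU (pinU hx hx')) rfl hκ (fun j q y => tC_eq j q y x) (esg_rng X.x0.le (by linarith [X.b, X.p0])).1 (mo_v x) le_rfl le_rfl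
  · intro ρ a B hρ hd i h1 h2
    fin_cases i
    · exact corW_cert (G1 := gB3q2) (G2 := gB4q2) (Ga := gB0q0) (Gb := gB1q0) (D1 := dB3q2) (D2 := dB4q2) (Da := dB0q0) (Db := dB1q0) cB202E_ok B hρ hen (gatB32 x) (gatB42 x) (fun _ => gatB00 x) (fun _ => gatB10 x) (datB32 x) (datB42 x) (fun _ => datB00 x) (fun _ => datB10 x) hd hx hx' CW.B202E_340
    · exact corW_cert (G1 := gB3q2) (G2 := gB4q2) (Ga := gB1q0) (Gb := gB2q0) (D1 := dB3q2) (D2 := dB4q2) (Da := dB1q0) (Db := dB2q0) cB202E_ok B hρ hen (gatB32 x) (gatB42 x) (fun _ => gatB10 x) (fun _ => gatB20 x) (datB32 x) (datB42 x) (fun _ => datB10 x) (fun _ => datB20 x) hd hx hx' CW.B202E_341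
    · exact corW_cert (G1 := gB3q2) (G2 := gB4q2) (Ga := gB2q0) (Gb := gB3q0) (D1 := dB3q2) (D2 := dB4q2) (Da := dB2q0) (Db := dB3q0) cB202E_ok B hρ hen (gatB32 x) (gatB42 x) (fun _ => gatB20 x) (fun _ => gatB30 x) (datB32 x) (datB42 x) (fun _ => datB20 x) (fun _ => datB30 x) hd hx hx' CW.B202E_342
    · exact corW_cert (G1 := gB3q2) (G2 := gB4q2) (Ga := gB3q0) (Gb := gB4q0) (D1 := dB3q2) (D2 := dB4q2) (Da := dB3q0) (Db := dB4q0) cB202E_ok B hρ hen (gatB32 x) (gatB42 x) (fun _ => gatB30 x) (fun _ => gatB40 x) (datB32 x) (datB42 x) (fun _ => datB30 x) (fun _ => datB40 x) hd hx hx' CW.B202E_343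
    · exact corW_cert (G1 := gB3q2) (G2 := gB4q2) (Ga := gB4q0) (Gb := gB5q0) (D1 := dB3q2) (D2 := dB4q2) (Da := dB4q0) (Db := dB5q0) cB202E_ok B hρ hen (gatB32 x) (gatB42 x) (fun _ => gatB40 x) (fun h => absurd h (by decide)) (datB32 x) (datB42 x) (fun _ => datB40 x) (fun h => absurd h (by decide)) hd hx hx' CW.B202E_344
    · exact absurd h2 (by norm_num)
    · exact absurd h2 (by norm_num)
  · intro ρ a B hρ hd i h1 h2
    fin_cases i
    · exact corT_cert (G1 := gB3q2) (G2 := gB4q2) (Ga := gB0q0) (Gb := gB1q0) cB202E_ok B hρ (gatB32 x) (gatB42 x) (fun _ => gatB00 x) (fun _ => gatB10 x) hd hx hx' CG.B202E_340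
    · exact corT_cert (G1 := gB3q2) (G2 := gB4q2) (Ga := gB1q0) (Gb := gB2q0) cB202E_ok B hρ (gatB32 x) (gatB42 x) (fun _ => gatB10 x) (fun _ => gatB20 x) hd hx hx' CG.B202E_341
    · exact corT_cert (G1 := gB3q2) (G2 := gB4q2) (Ga := gB2q0) (Gb := gB3q0) cB202E_ok B hρ (gatB32 x) (gatB42 x) (fun _ => gatB20 x) (fun _ => gatB30 x) hd hx hx' CG.B202E_342
    · exact corT_cert (G1 := gB3q2) (G2 := gB4q2) (Ga := gB3q0) (Gb := gB4q0) cB202E_ok B hρ (gatB32 x) (gatB42 x) (fun _ => gatB30 x) (fun _ => gatB40 x) hd hx hx' CG.B202E_343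
    · exact corT_cert (G1 := gB3q2) (G2 := gB4q2) (Ga := gB4q0) (Gb := gB5q0) cB202E_ok B hρ (gatB32 x) (gatB42 x) (fun _ => gatB40 x) (fun h => absurd h (by decide)) hd hx hx' CG.B202E_344
    · exact absurd h2 (by norm_num)
    · exact absurd h2 (by norm_num)

theorem altB_B202E_40 {κ x : ℝ} (hκ : κ * h0 = ken x) (hx : ((697932185 : ℕ) : ℝ) / S ≤ x) (hx' : x ≤ (((697932185 : ℕ) : ℝ) + (42949674 : ℕ)) / S) :
    AltEB 3 κ (eng.v x) (3 / 40) (tnt (h0 * x) (3 / 10)) PP tK tL tC pcB (scP esg pd) [⟨0, 1, 0, 67108864⟩, ⟨1, 0, 0, 67108864⟩, ⟨2, 1, 0, 67108864⟩] 2 0 2 4 0 (sgb true) (sgb false) x := by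
  have X : XR 67108864 x := XR.of hx hx' (by norm_num) (by norm_num) (by norm_num) (by norm_num)
  have hen : 0 < eng.v x := en_pos X.x0.le
  refine CornW.altB (C := cB202E) (j := (4 : Fin 8)) (k := (0 : Fin 8)) (Ef := esg) (pd := pd) (o := 3 / 40)
    (cornW_of (C := cB202E) (C0 := c0B) (En := eng) (mo := mog) (j := (4 : Fin 8)) (k := (0 : Fin 8)) (lo := 0) (hi := 4) (W := 67108864) (N0 := 3) cB202E_q (sideB hx hx') gokB (pinU hx hx') dokB X (by norm_num) (by norm_num) (l := (0 : Fin 8)) rfl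
      (gatB42 x) (gatB02 x) (gatB00 x) (datB42 x) (datB02 x) (datB00 x) ?_)
    (cornS_of (C := cB202E) (C0 := c0B) (j := (4 : Fin 8)) (k := (0 : Fin 8)) (lo := 0) (hi := 4) (W := 67108864) (N0 := 3) cB202E_q (sideB hx hx') gokB X (by norm_num) (by norm_num) (l := (0 : Fin 8)) rfl
      (gatB42 x) (gatB02 x) (gatB00 x) ?_)
    (thU (pinU hx hx')) rfl hκ (fun j q y => tC_eq j q y x) (esg_rng X.x0.le (by linarith [X.b, X.p0])).1 (mo_v x) le_rfl le_rfl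
  · intro ρ a B hρ hd i h1 h2
    fin_cases i
    · exact corW_cert (G1 := gB4q2) (G2 := gB0q2) (Ga := gB0q0) (Gb := gB1q0) (D1 := dB4q2) (D2 := dB0q2) (Da := dB0q0) (Db := dB1q0) cB202E_ok B hρ hen (gatB42 x) (gatB02 x) (fun _ => gatB00 x) (fun _ => gatB10 x) (datB42 x) (datB02 x) (fun _ => datB00 x) (fun _ => datB10 x) hd hx hx' CW.B202E_400
    · exact corW_cert (G1 := gB4q2) (G2 := gB0q2) (Ga := gB1q0) (Gb := gB2q0) (D1 := dB4q2) (D2 := dB0q2) (Da := dB1q0) (Db := dB2q0) cB202E_ok B hρ hen (gatB42 x) (gatB02 x) (fun _ => gatB10 x) (fun _ => gatB20 x) (datB42 x) (datB02 x) (fun _ => datB10 x) (fun _ => datB20 x) hd hx hx' CW.B202E_401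
    · exact corW_cert (G1 := gB4q2) (G2 := gB0q2) (Ga := gB2q0) (Gb := gB3q0) (D1 := dB4q2) (D2 := dB0q2) (Da := dB2q0) (Db := dB3q0) cB202E_ok B hρ hen (gatB42 x) (gatB02 x) (fun _ => gatB20 x) (fun _ => gatB30 x) (datB42 x) (datB02 x) (fun _ => datB20 x) (fun _ => datB30 x) hd hx hx' CW.B202E_402
    · exact corW_cert (G1 := gB4q2) (G2 := gB0q2) (Ga := gB3q0) (Gb := gB4q0) (D1 := dB4q2) (D2 := dB0q2) (Da := dB3q0) (Db := dB4q0) cB202E_ok B hρ hen (gatB42 x) (gatB02 x) (fun _ => gatB30 x) (fun _ => gatB40 x) (datB42 x) (datB02 x) (fun _ => datB30 x) (fun _ => datB40 x) hd hx hx' CW.B202E_403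
    · exact corW_cert (G1 := gB4q2) (G2 := gB0q2) (Ga := gB4q0) (Gb := gB5q0) (D1 := dB4q2) (D2 := dB0q2) (Da := dB4q0) (Db := dB5q0) cB202E_ok B hρ hen (gatB42 x) (gatB02 x) (fun _ => gatB40 x) (fun h => absurd h (by decide)) (datB42 x) (datB02 x) (fun _ => datB40 x) (fun h => absurd h (by decide)) hd hx hx' CW.B202E_404
    · exact absurd h2 (by norm_num)
    · exact absurd h2 (by norm_num)
  · intro ρ a B hρ hd i h1 h2
    fin_cases i
    · exact corT_cert (G1 := gB4q2) (G2 := gB0q2) (Ga := gB0q0) (Gb := gB1q0) cB202E_ok B hρ (gatB42 x) (gatB02 x) (fun _ => gatB00 x) (fun _ => gatB10 x) hd hx hx' CG.B202E_400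
    · exact corT_cert (G1 := gB4q2) (G2 := gB0q2) (Ga := gB1q0) (Gb := gB2q0) cB202E_ok B hρ (gatB42 x) (gatB02 x) (fun _ => gatB10 x) (fun _ => gatB20 x) hd hx hx' CG.B202E_401
    · exact corT_cert (G1 := gB4q2) (G2 := gB0q2) (Ga := gB2q0) (Gb := gB3q0) cB202E_ok B hρ (gatB42 x) (gatB02 x) (fun _ => gatB20 x) (fun _ => gatB30 x) hd hx hx' CG.B202E_402
    · exact corT_cert (G1 := gB4q2) (G2 := gB0q2) (Ga := gB3q0) (Gb := gB4q0) cB202E_ok B hρ (gatB42 x) (gatB02 x) (fun _ => gatB30 x) (fun _ => gatB40 x) hd hx hx' CG.B202E_403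
    · exact corT_cert (G1 := gB4q2) (G2 := gB0q2) (Ga := gB4q0) (Gb := gB5q0) cB202E_ok B hρ (gatB42 x) (gatB02 x) (fun _ => gatB40 x) (fun h => absurd h (by decide)) hd hx hx' CG.B202E_404
    · exact absurd h2 (by norm_num)
    · exact absurd h2 (by norm_num)

theorem altB_B202E_41 {κ x : ℝ} (hκ : κ * h0 = ken x) (hx : ((697932185 : ℕ) : ℝ) / S ≤ x) (hx' : x ≤ (((697932185 : ℕ) : ℝ) + (42949674 : ℕ)) / S) :
    AltEB 3 κ (eng.v x) (3 / 40) (tnt (h0 * x) (3 / 10)) PP tK tL tC pcB (scP esg pd) [⟨0, 1, 0, 67108864⟩, ⟨1, 0, 0, 67108864⟩, ⟨2, 1, 0, 67108864⟩] 2 0 2 4 1 (sgb true) (sgb false) x := by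
  have X : XR 67108864 x := XR.of hx hx' (by norm_num) (by norm_num) (by norm_num) (by norm_num)
  have hen : 0 < eng.v x := en_pos X.x0.le
  refine CornW.altB (C := cB202E) (j := (4 : Fin 8)) (k := (1 : Fin 8)) (Ef := esg) (pd := pd) (o := 3 / 40)
    (cornW_of (C := cB202E) (C0 := c0B) (En := eng) (mo := mog) (j := (4 : Fin 8)) (k := (1 : Fin 8)) (lo := 0) (hi := 4) (W := 67108864) (N0 := 3) cB202E_q (sideB hx hx') gokB (pinU hx hx') dokB X (by norm_num) (by norm_num) (l := (0 : Fin 8)) rfl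
      (gatB42 x) (gatB12 x) (gatB00 x) (datB42 x) (datB12 x) (datB00 x) ?_)
    (cornS_of (C := cB202E) (C0 := c0B) (j := (4 : Fin 8)) (k := (1 : Fin 8)) (lo := 0) (hi := 4) (W := 67108864) (N0 := 3) cB202E_q (sideB hx hx') gokB X (by norm_num) (by norm_num) (l := (0 : Fin 8)) rfl
      (gatB42 x) (gatB12 x) (gatB00 x) ?_)
    (thU (pinU hx hx')) rfl hκ (fun j q y => tC_eq j q y x) (esg_rng X.x0.le (by linarith [X.b, X.p0])).1 (mo_v x) le_rfl le_rfl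
  · intro ρ a B hρ hd i h1 h2
    fin_cases i
    · exact corW_cert (G1 := gB4q2) (G2 := gB1q2) (Ga := gB0q0) (Gb := gB1q0) (D1 := dB4q2) (D2 := dB1q2) (Da := dB0q0) (Db := dB1q0) cB202E_ok B hρ hen (gatB42 x) (gatB12 x) (fun _ => gatB00 x) (fun _ => gatB10 x) (datB42 x) (datB12 x) (fun _ => datB00 x) (fun _ => datB10 x) hd hx hx' CW.B202E_410
    · exact corW_cert (G1 := gB4q2) (G2 := gB1q2) (Ga := gB1q0) (Gb := gB2q0) (D1 := dB4q2) (D2 := dB1q2) (Da := dB1q0) (Db := dB2q0) cB202E_ok B hρ hen (gatB42 x) (gatB12 x) (fun _ => gatB10 x) (fun _ => gatB20 x) (datB42 x) (datB12 x) (fun _ => datB10 x) (fun _ => datB20 x) hd hx hx' CW.B202E_411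
    · exact corW_cert (G1 := gB4q2) (G2 := gB1q2) (Ga := gB2q0) (Gb := gB3q0) (D1 := dB4q2) (D2 := dB1q2) (Da := dB2q0) (Db := dB3q0) cB202E_ok B hρ hen (gatB42 x) (gatB12 x) (fun _ => gatB20 x) (fun _ => gatB30 x) (datB42 x) (datB12 x) (fun _ => datB20 x) (fun _ => datB30 x) hd hx hx' CW.B202E_412
    · exact corW_cert (G1 := gB4q2) (G2 := gB1q2) (Ga := gB3q0) (Gb := gB4q0) (D1 := dB4q2) (D2 := dB1q2) (Da := dB3q0) (Db := dB4q0) cB202E_ok B hρ hen (gatB42 x) (gatB12 x) (fun _ => gatB30 x) (fun _ => gatB40 x) (datB42 x) (datB12 x) (fun _ => datB30 x) (fun _ => datB40 x) hd hx hx' CW.B202E_413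
    · exact corW_cert (G1 := gB4q2) (G2 := gB1q2) (Ga := gB4q0) (Gb := gB5q0) (D1 := dB4q2) (D2 := dB1q2) (Da := dB4q0) (Db := dB5q0) cB202E_ok B hρ hen (gatB42 x) (gatB12 x) (fun _ => gatB40 x) (fun h => absurd h (by decide)) (datB42 x) (datB12 x) (fun _ => datB40 x) (fun h => absurd h (by decide)) hd hx hx' CW.B202E_414
    · exact absurd h2 (by norm_num)
    · exact absurd h2 (by norm_num)
  · intro ρ a B hρ hd i h1 h2
    fin_cases i
    · exact corT_cert (G1 := gB4q2) (G2 := gB1q2) (Ga := gB0q0) (Gb := gB1q0) cB202E_ok B hρ (gatB42 x) (gatB12 x) (fun _ => gatB00 x) (fun _ => gatB10 x) hd hx hx' CG.B202E_410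
    · exact corT_cert (G1 := gB4q2) (G2 := gB1q2) (Ga := gB1q0) (Gb := gB2q0) cB202E_ok B hρ (gatB42 x) (gatB12 x) (fun _ => gatB10 x) (fun _ => gatB20 x) hd hx hx' CG.B202E_411
    · exact corT_cert (G1 := gB4q2) (G2 := gB1q2) (Ga := gB2q0) (Gb := gB3q0) cB202E_ok B hρ (gatB42 x) (gatB12 x) (fun _ => gatB20 x) (fun _ => gatB30 x) hd hx hx' CG.B202E_412
    · exact corT_cert (G1 := gB4q2) (G2 := gB1q2) (Ga := gB3q0) (Gb := gB4q0) cB202E_ok B hρ (gatB42 x) (gatB12 x) (fun _ => gatB30 x) (fun _ => gatB40 x) hd hx hx' CG.B202E_413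
    · exact corT_cert (G1 := gB4q2) (G2 := gB1q2) (Ga := gB4q0) (Gb := gB5q0) cB202E_ok B hρ (gatB42 x) (gatB12 x) (fun _ => gatB40 x) (fun h => absurd h (by decide)) hd hx hx' CG.B202E_414
    · exact absurd h2 (by norm_num)
    · exact absurd h2 (by norm_num)

theorem altB_B202E_42 {κ x : ℝ} (hκ : κ * h0 = ken x) (hx : ((697932185 : ℕ) : ℝ) / S ≤ x) (hx' : x ≤ (((697932185 : ℕ) : ℝ) + (42949674 : ℕ)) / S) :
    AltEB 3 κ (eng.v x) (3 / 40) (tnt (h0 * x) (3 / 10)) PP tK tL tC pcB (scP esg pd) [⟨0, 1, 0, 67108864⟩, ⟨1, 0, 0, 67108864⟩, ⟨2, 1, 0, 67108864⟩] 2 0 2 4 2 (sgb true) (sgb false) x := by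
  have X : XR 67108864 x := XR.of hx hx' (by norm_num) (by norm_num) (by norm_num) (by norm_num)
  have hen : 0 < eng.v x := en_pos X.x0.le
  refine CornW.altB (C := cB202E) (j := (4 : Fin 8)) (k := (2 : Fin 8)) (Ef := esg) (pd := pd) (o := 3 / 40)
    (cornW_of (C := cB202E) (C0 := c0B) (En := eng) (mo := mog) (j := (4 : Fin 8)) (k := (2 : Fin 8)) (lo := 0) (hi := 4) (W := 67108864) (N0 := 3) cB202E_q (sideB hx hx') gokB (pinU hx hx') dokB X (by norm_num) (by norm_num) (l := (0 : Fin 8)) rfl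
      (gatB42 x) (gatB22 x) (gatB00 x) (datB42 x) (datB22 x) (datB00 x) ?_)
    (cornS_of (C := cB202E) (C0 := c0B) (j := (4 : Fin 8)) (k := (2 : Fin 8)) (lo := 0) (hi := 4) (W := 67108864) (N0 := 3) cB202E_q (sideB hx hx') gokB X (by norm_num) (by norm_num) (l := (0 : Fin 8)) rfl
      (gatB42 x) (gatB22 x) (gatB00 x) ?_)
    (thU (pinU hx hx')) rfl hκ (fun j q y => tC_eq j q y x) (esg_rng X.x0.le (by linarith [X.b, X.p0])).1 (mo_v x) le_rfl le_rfl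
  · intro ρ a B hρ hd i h1 h2
    fin_cases i
    · exact corW_cert (G1 := gB4q2) (G2 := gB2q2) (Ga := gB0q0) (Gb := gB1q0) (D1 := dB4q2) (D2 := dB2q2) (Da := dB0q0) (Db := dB1q0) cB202E_ok B hρ hen (gatB42 x) (gatB22 x) (fun _ => gatB00 x) (fun _ => gatB10 x) (datB42 x) (datB22 x) (fun _ => datB00 x) (fun _ => datB10 x) hd hx hx' CW.B202E_420
    · exact corW_cert (G1 := gB4q2) (G2 := gB2q2) (Ga := gB1q0) (Gb := gB2q0) (D1 := dB4q2) (D2 := dB2q2) (Da := dB1q0) (Db := dB2q0) cB202E_ok B hρ hen (gatB42 x) (gatB22 x) (fun _ => gatB10 x) (fun _ => gatB20 x) (datB42 x) (datB22 x) (fun _ => datB10 x) (fun _ => datB20 x) hd hx hx' CW.B202E_421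
    · exact corW_cert (G1 := gB4q2) (G2 := gB2q2) (Ga := gB2q0) (Gb := gB3q0) (D1 := dB4q2) (D2 := dB2q2) (Da := dB2q0) (Db := dB3q0) cB202E_ok B hρ hen (gatB42 x) (gatB22 x) (fun _ => gatB20 x) (fun _ => gatB30 x) (datB42 x) (datB22 x) (fun _ => datB20 x) (fun _ => datB30 x) hd hx hx' CW.B202E_422
    · exact corW_cert (G1 := gB4q2) (G2 := gB2q2) (Ga := gB3q0) (Gb := gB4q0) (D1 := dB4q2) (D2 := dB2q2) (Da := dB3q0) (Db := dB4q0) cB202E_ok B hρ hen (gatB42 x) (gatB22 x) (fun _ => gatB30 x) (fun _ => gatB40 x) (datB42 x) (datB22 x) (fun _ => datB30 x) (fun _ => datB40 x) hd hx hx' CW.B202E_423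
    · exact corW_cert (G1 := gB4q2) (G2 := gB2q2) (Ga := gB4q0) (Gb := gB5q0) (D1 := dB4q2) (D2 := dB2q2) (Da := dB4q0) (Db := dB5q0) cB202E_ok B hρ hen (gatB42 x) (gatB22 x) (fun _ => gatB40 x) (fun h => absurd h (by decide)) (datB42 x) (datB22 x) (fun _ => datB40 x) (fun h => absurd h (by decide)) hd hx hx' CW.B202E_424
    · exact absurd h2 (by norm_num)
    · exact absurd h2 (by norm_num)
  · intro ρ a B hρ hd i h1 h2
    fin_cases i
    · exact corT_cert (G1 := gB4q2) (G2 := gB2q2) (Ga := gB0q0) (Gb := gB1q0) cB202E_ok B hρ (gatB42 x) (gatB22 x) (fun _ => gatB00 x) (fun _ => gatB10 x) hd hx hx' CG.B202E_420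
    · exact corT_cert (G1 := gB4q2) (G2 := gB2q2) (Ga := gB1q0) (Gb := gB2q0) cB202E_ok B hρ (gatB42 x) (gatB22 x) (fun _ => gatB10 x) (fun _ => gatB20 x) hd hx hx' CG.B202E_421
    · exact corT_cert (G1 := gB4q2) (G2 := gB2q2) (Ga := gB2q0) (Gb := gB3q0) cB202E_ok B hρ (gatB42 x) (gatB22 x) (fun _ => gatB20 x) (fun _ => gatB30 x) hd hx hx' CG.B202E_422
    · exact corT_cert (G1 := gB4q2) (G2 := gB2q2) (Ga := gB3q0) (Gb := gB4q0) cB202E_ok B hρ (gatB42 x) (gatB22 x) (fun _ => gatB30 x) (fun _ => gatB40 x) hd hx hx' CG.B202E_423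
    · exact corT_cert (G1 := gB4q2) (G2 := gB2q2) (Ga := gB4q0) (Gb := gB5q0) cB202E_ok B hρ (gatB42 x) (gatB22 x) (fun _ => gatB40 x) (fun h => absurd h (by decide)) hd hx hx' CG.B202E_424
    · exact absurd h2 (by norm_num)
    · exact absurd h2 (by norm_num)

theorem altB_B202E_43 {κ x : ℝ} (hκ : κ * h0 = ken x) (hx : ((697932185 : ℕ) : ℝ) / S ≤ x) (hx' : x ≤ (((697932185 : ℕ) : ℝ) + (42949674 : ℕ)) / S) :
    AltEB 3 κ (eng.v x) (3 / 40) (tnt (h0 * x) (3 / 10)) PP tK tL tC pcB (scP esg pd) [⟨0, 1, 0, 67108864⟩, ⟨1, 0, 0, 67108864⟩, ⟨2, 1, 0, 67108864⟩] 2 0 2 4 3 (sgb true) (sgb false) x := by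
  have X : XR 67108864 x := XR.of hx hx' (by norm_num) (by norm_num) (by norm_num) (by norm_num)
  have hen : 0 < eng.v x := en_pos X.x0.le
  refine CornW.altB (C := cB202E) (j := (4 : Fin 8)) (k := (3 : Fin 8)) (Ef := esg) (pd := pd) (o := 3 / 40)
    (cornW_of (C := cB202E) (C0 := c0B) (En := eng) (mo := mog) (j := (4 : Fin 8)) (k := (3 : Fin 8)) (lo := 0) (hi := 4) (W := 67108864) (N0 := 3) cB202E_q (sideB hx hx') gokB (pinU hx hx') dokB X (by norm_num) (by norm_num) (l := (0 : Fin 8)) rfl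
      (gatB42 x) (gatB32 x) (gatB00 x) (datB42 x) (datB32 x) (datB00 x) ?_)
    (cornS_of (C := cB202E) (C0 := c0B) (j := (4 : Fin 8)) (k := (3 : Fin 8)) (lo := 0) (hi := 4) (W := 67108864) (N0 := 3) cB202E_q (sideB hx hx') gokB X (by norm_num) (by norm_num) (l := (0 : Fin 8)) rfl
      (gatB42 x) (gatB32 x) (gatB00 x) ?_)
    (thU (pinU hx hx')) rfl hκ (fun j q y => tC_eq j q y x) (esg_rng X.x0.le (by linarith [X.b, X.p0])).1 (mo_v x) le_rfl le_rfl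
  · intro ρ a B hρ hd i h1 h2
    fin_cases i
    · exact corW_cert (G1 := gB4q2) (G2 := gB3q2) (Ga := gB0q0) (Gb := gB1q0) (D1 := dB4q2) (D2 := dB3q2) (Da := dB0q0) (Db := dB1q0) cB202E_ok B hρ hen (gatB42 x) (gatB32 x) (fun _ => gatB00 x) (fun _ => gatB10 x) (datB42 x) (datB32 x) (fun _ => datB00 x) (fun _ => datB10 x) hd hx hx' CW.B202E_430
    · exact corW_cert (G1 := gB4q2) (G2 := gB3q2) (Ga := gB1q0) (Gb := gB2q0) (D1 := dB4q2) (D2 := dB3q2) (Da := dB1q0) (Db := dB2q0) cB202E_ok B hρ hen (gatB42 x) (gatB32 x) (fun _ => gatB10 x) (fun _ => gatB20 x) (datB42 x) (datB32 x) (fun _ => datB10 x) (fun _ => datB20 x) hd hx hx' CW.B202E_431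
    · exact corW_cert (G1 := gB4q2) (G2 := gB3q2) (Ga := gB2q0) (Gb := gB3q0) (D1 := dB4q2) (D2 := dB3q2) (Da := dB2q0) (Db := dB3q0) cB202E_ok B hρ hen (gatB42 x) (gatB32 x) (fun _ => gatB20 x) (fun _ => gatB30 x) (datB42 x) (datB32 x) (fun _ => datB20 x) (fun _ => datB30 x) hd hx hx' CW.B202E_432
    · exact corW_cert (G1 := gB4q2) (G2 := gB3q2) (Ga := gB3q0) (Gb := gB4q0) (D1 := dB4q2) (D2 := dB3q2) (Da := dB3q0) (Db := dB4q0) cB202E_ok B hρ hen (gatB42 x) (gatB32 x) (fun _ => gatB30 x) (fun _ => gatB40 x) (datB42 x) (datB32 x) (fun _ => datB30 x) (fun _ => datB40 x) hd hx hx' CW.B202E_433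
    · exact corW_cert (G1 := gB4q2) (G2 := gB3q2) (Ga := gB4q0) (Gb := gB5q0) (D1 := dB4q2) (D2 := dB3q2) (Da := dB4q0) (Db := dB5q0) cB202E_ok B hρ hen (gatB42 x) (gatB32 x) (fun _ => gatB40 x) (fun h => absurd h (by decide)) (datB42 x) (datB32 x) (fun _ => datB40 x) (fun h => absurd h (by decide)) hd hx hx' CW.B202E_434
    · exact absurd h2 (by norm_num)
    · exact absurd h2 (by norm_num)
  · intro ρ a B hρ hd i h1 h2
    fin_cases i
    · exact corT_cert (G1 := gB4q2) (G2 := gB3q2) (Ga := gB0q0) (Gb := gB1q0) cB202E_ok B hρ (gatB42 x) (gatB32 x) (fun _ => gatB00 x) (fun _ => gatB10 x) hd hx hx' CG.B202E_430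
    · exact corT_cert (G1 := gB4q2) (G2 := gB3q2) (Ga := gB1q0) (Gb := gB2q0) cB202E_ok B hρ (gatB42 x) (gatB32 x) (fun _ => gatB10 x) (fun _ => gatB20 x) hd hx hx' CG.B202E_431
    · exact corT_cert (G1 := gB4q2) (G2 := gB3q2) (Ga := gB2q0) (Gb := gB3q0) cB202E_ok B hρ (gatB42 x) (gatB32 x) (fun _ => gatB20 x) (fun _ => gatB30 x) hd hx hx' CG.B202E_432
    · exact corT_cert (G1 := gB4q2) (G2 := gB3q2) (Ga := gB3q0) (Gb := gB4q0) cB202E_ok B hρ (gatB42 x) (gatB32 x) (fun _ => gatB30 x) (fun _ => gatB40 x) hd hx hx' CG.B202E_433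
    · exact corT_cert (G1 := gB4q2) (G2 := gB3q2) (Ga := gB4q0) (Gb := gB5q0) cB202E_ok B hρ (gatB42 x) (gatB32 x) (fun _ => gatB40 x) (fun h => absurd h (by decide)) hd hx hx' CG.B202E_434
    · exact absurd h2 (by norm_num)
    · exact absurd h2 (by norm_num)

theorem altB_B202E_44 {κ x : ℝ} (hκ : κ * h0 = ken x) (hx : ((697932185 : ℕ) : ℝ) / S ≤ x) (hx' : x ≤ (((697932185 : ℕ) : ℝ) + (42949674 : ℕ)) / S) :
    AltEB 3 κ (eng.v x) (3 / 40) (tnt (h0 * x) (3 / 10)) PP tK tL tC pcB (scP esg pd) [⟨0, 1, 0, 67108864⟩, ⟨1, 0, 0, 67108864⟩, ⟨2, 1, 0, 67108864⟩] 2 0 2 4 4 (sgb true) (sgb false) x := by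
  have X : XR 67108864 x := XR.of hx hx' (by norm_num) (by norm_num) (by norm_num) (by norm_num)
  have hen : 0 < eng.v x := en_pos X.x0.le
  refine CornW.altB (C := cB202E) (j := (4 : Fin 8)) (k := (4 : Fin 8)) (Ef := esg) (pd := pd) (o := 3 / 40)
    (cornW_of (C := cB202E) (C0 := c0B) (En := eng) (mo := mog) (j := (4 : Fin 8)) (k := (4 : Fin 8)) (lo := 0) (hi := 4) (W := 67108864) (N0 := 3) cB202E_q (sideB hx hx') gokB (pinU hx hx') dokB X (by norm_num) (by norm_num) (l := (0 : Fin 8)) rfl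
      (gatB42 x) (gatB42 x) (gatB00 x) (datB42 x) (datB42 x) (datB00 x) ?_)
    (cornS_of (C := cB202E) (C0 := c0B) (j := (4 : Fin 8)) (k := (4 : Fin 8)) (lo := 0) (hi := 4) (W := 67108864) (N0 := 3) cB202E_q (sideB hx hx') gokB X (by norm_num) (by norm_num) (l := (0 : Fin 8)) rfl
      (gatB42 x) (gatB42 x) (gatB00 x) ?_)
    (thU (pinU hx hx')) rfl hκ (fun j q y => tC_eq j q y x) (esg_rng X.x0.le (by linarith [X.b, X.p0])).1 (mo_v x) le_rfl le_rfl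
  · intro ρ a B hρ hd i h1 h2
    fin_cases i
    · exact corW_cert (G1 := gB4q2) (G2 := gB4q2) (Ga := gB0q0) (Gb := gB1q0) (D1 := dB4q2) (D2 := dB4q2) (Da := dB0q0) (Db := dB1q0) cB202E_ok B hρ hen (gatB42 x) (gatB42 x) (fun _ => gatB00 x) (fun _ => gatB10 x) (datB42 x) (datB42 x) (fun _ => datB00 x) (fun _ => datB10 x) hd hx hx' CW.B202E_440
    · exact corW_cert (G1 := gB4q2) (G2 := gB4q2) (Ga := gB1q0) (Gb := gB2q0) (D1 := dB4q2) (D2 := dB4q2) (Da := dB1q0) (Db := dB2q0) cB202E_ok B hρ hen (gatB42 x) (gatB42 x) (fun _ => gatB10 x) (fun _ => gatB20 x) (datB42 x) (datB42 x) (fun _ => datB10 x) (fun _ => datB20 x) hd hx hx' CW.B202E_441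
    · exact corW_cert (G1 := gB4q2) (G2 := gB4q2) (Ga := gB2q0) (Gb := gB3q0) (D1 := dB4q2) (D2 := dB4q2) (Da := dB2q0) (Db := dB3q0) cB202E_ok B hρ hen (gatB42 x) (gatB42 x) (fun _ => gatB20 x) (fun _ => gatB30 x) (datB42 x) (datB42 x) (fun _ => datB20 x) (fun _ => datB30 x) hd hx hx' CW.B202E_442
    · exact corW_cert (G1 := gB4q2) (G2 := gB4q2) (Ga := gB3q0) (Gb := gB4q0) (D1 := dB4q2) (D2 := dB4q2) (Da := dB3q0) (Db := dB4q0) cB202E_ok B hρ hen (gatB42 x) (gatB42 x) (fun _ => gatB30 x) (fun _ => gatB40 x) (datB42 x) (datB42 x) (fun _ => datB30 x) (fun _ => datB40 x) hd hx hx' CW.B202E_443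
    · exact corW_cert (G1 := gB4q2) (G2 := gB4q2) (Ga := gB4q0) (Gb := gB5q0) (D1 := dB4q2) (D2 := dB4q2) (Da := dB4q0) (Db := dB5q0) cB202E_ok B hρ hen (gatB42 x) (gatB42 x) (fun _ => gatB40 x) (fun h => absurd h (by decide)) (datB42 x) (datB42 x) (fun _ => datB40 x) (fun h => absurd h (by decide)) hd hx hx' CW.B202E_444
    · exact absurd h2 (by norm_num)
    · exact absurd h2 (by norm_num)
  · intro ρ a B hρ hd i h1 h2
    fin_cases i
    · exact corT_cert (G1 := gB4q2) (G2 := gB4q2) (Ga := gB0q0) (Gb := gB1q0) cB202E_ok B hρ (gatB42 x) (gatB42 x) (fun _ => gatB00 x) (fun _ => gatB10 x) hd hx hx' CG.B202E_440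
    · exact corT_cert (G1 := gB4q2) (G2 := gB4q2) (Ga := gB1q0) (Gb := gB2q0) cB202E_ok B hρ (gatB42 x) (gatB42 x) (fun _ => gatB10 x) (fun _ => gatB20 x) hd hx hx' CG.B202E_441
    · exact corT_cert (G1 := gB4q2) (G2 := gB4q2) (Ga := gB2q0) (Gb := gB3q0) cB202E_ok B hρ (gatB42 x) (gatB42 x) (fun _ => gatB20 x) (fun _ => gatB30 x) hd hx hx' CG.B202E_442
    · exact corT_cert (G1 := gB4q2) (G2 := gB4q2) (Ga := gB3q0) (Gb := gB4q0) cB202E_ok B hρ (gatB42 x) (gatB42 x) (fun _ => gatB30 x) (fun _ => gatB40 x) hd hx hx' CG.B202E_443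
    · exact corT_cert (G1 := gB4q2) (G2 := gB4q2) (Ga := gB4q0) (Gb := gB5q0) cB202E_ok B hρ (gatB42 x) (gatB42 x) (fun _ => gatB40 x) (fun h => absurd h (by decide)) hd hx hx' CG.B202E_444
    · exact absurd h2 (by norm_num)
    · exact absurd h2 (by norm_num)

theorem altB_B202L_70 {κ x : ℝ} (hκ : κ * h0 = ken x) (hx : ((697932185 : ℕ) : ℝ) / S ≤ x) (hx' : x ≤ (((697932185 : ℕ) : ℝ) + (42949674 : ℕ)) / S) :
    AltEB 3 κ (eng.v x) (3 / 40) (tnt (h0 * x) (3 / 10)) PP tK tL tC pcB (scP esg pd) [⟨0, 1, 0, 67108864⟩, ⟨1, 0, 0, 67108864⟩, ⟨2, 1, 0, 67108864⟩] 2 0 2 7 0 (sgb true) (sgb true) x := by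
  have X : XR 67108864 x := XR.of hx hx' (by norm_num) (by norm_num) (by norm_num) (by norm_num)
  have hen : 0 < eng.v x := en_pos X.x0.le
  refine CornW.altB (C := cB202L) (j := (7 : Fin 8)) (k := (0 : Fin 8)) (Ef := esg) (pd := pd) (o := 3 / 40)
    (cornW_of (C := cB202L) (C0 := c0B) (En := eng) (mo := mog) (j := (7 : Fin 8)) (k := (0 : Fin 8)) (lo := 0) (hi := 4) (W := 67108864) (N0 := 3) cB202L_q (sideB hx hx') gokB (pinU hx hx') dokB X (by norm_num) (by norm_num) (l := (0 : Fin 8)) rfl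
      (gatB72 x) (gatB02 x) (gatB00 x) (datB72 x) (datB02 x) (datB00 x) ?_)
    (cornS_of (C := cB202L) (C0 := c0B) (j := (7 : Fin 8)) (k := (0 : Fin 8)) (lo := 0) (hi := 4) (W := 67108864) (N0 := 3) cB202L_q (sideB hx hx') gokB X (by norm_num) (by norm_num) (l := (0 : Fin 8)) rfl
      (gatB72 x) (gatB02 x) (gatB00 x) ?_)
    (thU (pinU hx hx')) rfl hκ (fun j q y => tC_eq j q y x) (esg_rng X.x0.le (by linarith [X.b, X.p0])).1 (mo_v x) le_rfl le_rfl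
  · intro ρ a B hρ hd i h1 h2
    fin_cases i
    · exact corW_cert (G1 := gB7q2) (G2 := gB0q2) (Ga := gB0q0) (Gb := gB1q0) (D1 := dB7q2) (D2 := dB0q2) (Da := dB0q0) (Db := dB1q0) cB202L_ok B hρ hen (gatB72 x) (gatB02 x) (fun _ => gatB00 x) (fun _ => gatB10 x) (datB72 x) (datB02 x) (fun _ => datB00 x) (fun _ => datB10 x) hd hx hx' CW.B202L_700
    · exact corW_cert (G1 := gB7q2) (G2 := gB0q2) (Ga := gB1q0) (Gb := gB2q0) (D1 := dB7q2) (D2 := dB0q2) (Da := dB1q0) (Db := dB2q0) cB202L_ok B hρ hen (gatB72 x) (gatB02 x) (fun _ => gatB10 x) (fun _ => gatB20 x) (datB72 x) (datB02 x) (fun _ => datB10 x) (fun _ => datB20 x) hd hx hx' CW.B202L_701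
    · exact corW_cert (G1 := gB7q2) (G2 := gB0q2) (Ga := gB2q0) (Gb := gB3q0) (D1 := dB7q2) (D2 := dB0q2) (Da := dB2q0) (Db := dB3q0) cB202L_ok B hρ hen (gatB72 x) (gatB02 x) (fun _ => gatB20 x) (fun _ => gatB30 x) (datB72 x) (datB02 x) (fun _ => datB20 x) (fun _ => datB30 x) hd hx hx' CW.B202L_702
    · exact corW_cert (G1 := gB7q2) (G2 := gB0q2) (Ga := gB3q0) (Gb := gB4q0) (D1 := dB7q2) (D2 := dB0q2) (Da := dB3q0) (Db := dB4q0) cB202L_ok B hρ hen (gatB72 x) (gatB02 x) (fun _ => gatB30 x) (fun _ => gatB40 x) (datB72 x) (datB02 x) (fun _ => datB30 x) (fun _ => datB40 x) hd hx hx' CW.B202L_703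
    · exact corW_cert (G1 := gB7q2) (G2 := gB0q2) (Ga := gB4q0) (Gb := gB5q0) (D1 := dB7q2) (D2 := dB0q2) (Da := dB4q0) (Db := dB5q0) cB202L_ok B hρ hen (gatB72 x) (gatB02 x) (fun _ => gatB40 x) (fun h => absurd h (by decide)) (datB72 x) (datB02 x) (fun _ => datB40 x) (fun h => absurd h (by decide)) hd hx hx' CW.B202L_704
    · exact absurd h2 (by norm_num)
    · exact absurd h2 (by norm_num)
  · intro ρ a B hρ hd i h1 h2
    fin_cases i
    · exact corT_cert (G1 := gB7q2) (G2 := gB0q2) (Ga := gB0q0) (Gb := gB1q0) cB202L_ok B hρ (gatB72 x) (gatB02 x) (fun _ => gatB00 x) (fun _ => gatB10 x) hd hx hx' CG.B202L_700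
    · exact corT_cert (G1 := gB7q2) (G2 := gB0q2) (Ga := gB1q0) (Gb := gB2q0) cB202L_ok B hρ (gatB72 x) (gatB02 x) (fun _ => gatB10 x) (fun _ => gatB20 x) hd hx hx' CG.B202L_701
    · exact corT_cert (G1 := gB7q2) (G2 := gB0q2) (Ga := gB2q0) (Gb := gB3q0) cB202L_ok B hρ (gatB72 x) (gatB02 x) (fun _ => gatB20 x) (fun _ => gatB30 x) hd hx hx' CG.B202L_702
    · exact corT_cert (G1 := gB7q2) (G2 := gB0q2) (Ga := gB3q0) (Gb := gB4q0) cB202L_ok B hρ (gatB72 x) (gatB02 x) (fun _ => gatB30 x) (fun _ => gatB40 x) hd hx hx' CG.B202L_703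
    · exact corT_cert (G1 := gB7q2) (G2 := gB0q2) (Ga := gB4q0) (Gb := gB5q0) cB202L_ok B hρ (gatB72 x) (gatB02 x) (fun _ => gatB40 x) (fun h => absurd h (by decide)) hd hx hx' CG.B202L_704
    · exact absurd h2 (by norm_num)
    · exact absurd h2 (by norm_num)

theorem altB_B202L_71 {κ x : ℝ} (hκ : κ * h0 = ken x) (hx : ((697932185 : ℕ) : ℝ) / S ≤ x) (hx' : x ≤ (((697932185 : ℕ) : ℝ) + (42949674 : ℕ)) / S) :
    AltEB 3 κ (eng.v x) (3 / 40) (tnt (h0 * x) (3 / 10)) PP tK tL tC pcB (scP esg pd) [⟨0, 1, 0, 67108864⟩, ⟨1, 0, 0, 67108864⟩, ⟨2, 1, 0, 67108864⟩] 2 0 2 7 1 (sgb true) (sgb true) x := by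
  have X : XR 67108864 x := XR.of hx hx' (by norm_num) (by norm_num) (by norm_num) (by norm_num)
  have hen : 0 < eng.v x := en_pos X.x0.le
  refine CornW.altB (C := cB202L) (j := (7 : Fin 8)) (k := (1 : Fin 8)) (Ef := esg) (pd := pd) (o := 3 / 40)
    (cornW_of (C := cB202L) (C0 := c0B) (En := eng) (mo := mog) (j := (7 : Fin 8)) (k := (1 : Fin 8)) (lo := 0) (hi := 4) (W := 67108864) (N0 := 3) cB202L_q (sideB hx hx') gokB (pinU hx hx') dokB X (by norm_num) (by norm_num) (l := (0 : Fin 8)) rfl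
      (gatB72 x) (gatB12 x) (gatB00 x) (datB72 x) (datB12 x) (datB00 x) ?_)
    (cornS_of (C := cB202L) (C0 := c0B) (j := (7 : Fin 8)) (k := (1 : Fin 8)) (lo := 0) (hi := 4) (W := 67108864) (N0 := 3) cB202L_q (sideB hx hx') gokB X (by norm_num) (by norm_num) (l := (0 : Fin 8)) rfl
      (gatB72 x) (gatB12 x) (gatB00 x) ?_)
    (thU (pinU hx hx')) rfl hκ (fun j q y => tC_eq j q y x) (esg_rng X.x0.le (by linarith [X.b, X.p0])).1 (mo_v x) le_rfl le_rfl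
  · intro ρ a B hρ hd i h1 h2
    fin_cases i
    · exact corW_cert (G1 := gB7q2) (G2 := gB1q2) (Ga := gB0q0) (Gb := gB1q0) (D1 := dB7q2) (D2 := dB1q2) (Da := dB0q0) (Db := dB1q0) cB202L_ok B hρ hen (gatB72 x) (gatB12 x) (fun _ => gatB00 x) (fun _ => gatB10 x) (datB72 x) (datB12 x) (fun _ => datB00 x) (fun _ => datB10 x) hd hx hx' CW.B202L_710
    · exact corW_cert (G1 := gB7q2) (G2 := gB1q2) (Ga := gB1q0) (Gb := gB2q0) (D1 := dB7q2) (D2 := dB1q2) (Da := dB1q0) (Db := dB2q0) cB202L_ok B hρ hen (gatB72 x) (gatB12 x) (fun _ => gatB10 x) (fun _ => gatB20 x) (datB72 x) (datB12 x) (fun _ => datB10 x) (fun _ => datB20 x) hd hx hx' CW.B202L_711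
    · exact corW_cert (G1 := gB7q2) (G2 := gB1q2) (Ga := gB2q0) (Gb := gB3q0) (D1 := dB7q2) (D2 := dB1q2) (Da := dB2q0) (Db := dB3q0) cB202L_ok B hρ hen (gatB72 x) (gatB12 x) (fun _ => gatB20 x) (fun _ => gatB30 x) (datB72 x) (datB12 x) (fun _ => datB20 x) (fun _ => datB30 x) hd hx hx' CW.B202L_712
    · exact corW_cert (G1 := gB7q2) (G2 := gB1q2) (Ga := gB3q0) (Gb := gB4q0) (D1 := dB7q2) (D2 := dB1q2) (Da := dB3q0) (Db := dB4q0) cB202L_ok B hρ hen (gatB72 x) (gatB12 x) (fun _ => gatB30 x) (fun _ => gatB40 x) (datB72 x) (datB12 x) (fun _ => datB30 x) (fun _ => datB40 x) hd hx hx' CW.B202L_713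
    · exact corW_cert (G1 := gB7q2) (G2 := gB1q2) (Ga := gB4q0) (Gb := gB5q0) (D1 := dB7q2) (D2 := dB1q2) (Da := dB4q0) (Db := dB5q0) cB202L_ok B hρ hen (gatB72 x) (gatB12 x) (fun _ => gatB40 x) (fun h => absurd h (by decide)) (datB72 x) (datB12 x) (fun _ => datB40 x) (fun h => absurd h (by decide)) hd hx hx' CW.B202L_714
    · exact absurd h2 (by norm_num)
    · exact absurd h2 (by norm_num)
  · intro ρ a B hρ hd i h1 h2
    fin_cases i
    · exact corT_cert (G1 := gB7q2) (G2 := gB1q2) (Ga := gB0q0) (Gb := gB1q0) cB202L_ok B hρ (gatB72 x) (gatB12 x) (fun _ => gatB00 x) (fun _ => gatB10 x) hd hx hx' CG.B202L_710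
    · exact corT_cert (G1 := gB7q2) (G2 := gB1q2) (Ga := gB1q0) (Gb := gB2q0) cB202L_ok B hρ (gatB72 x) (gatB12 x) (fun _ => gatB10 x) (fun _ => gatB20 x) hd hx hx' CG.B202L_711
    · exact corT_cert (G1 := gB7q2) (G2 := gB1q2) (Ga := gB2q0) (Gb := gB3q0) cB202L_ok B hρ (gatB72 x) (gatB12 x) (fun _ => gatB20 x) (fun _ => gatB30 x) hd hx hx' CG.B202L_712
    · exact corT_cert (G1 := gB7q2) (G2 := gB1q2) (Ga := gB3q0) (Gb := gB4q0) cB202L_ok B hρ (gatB72 x) (gatB12 x) (fun _ => gatB30 x) (fun _ => gatB40 x) hd hx hx' CG.B202L_713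
    · exact corT_cert (G1 := gB7q2) (G2 := gB1q2) (Ga := gB4q0) (Gb := gB5q0) cB202L_ok B hρ (gatB72 x) (gatB12 x) (fun _ => gatB40 x) (fun h => absurd h (by decide)) hd hx hx' CG.B202L_714
    · exact absurd h2 (by norm_num)
    · exact absurd h2 (by norm_num)

theorem altB_B202L_72 {κ x : ℝ} (hκ : κ * h0 = ken x) (hx : ((697932185 : ℕ) : ℝ) / S ≤ x) (hx' : x ≤ (((697932185 : ℕ) : ℝ) + (42949674 : ℕ)) / S) :
    AltEB 3 κ (eng.v x) (3 / 40) (tnt (h0 * x) (3 / 10)) PP tK tL tC pcB (scP esg pd) [⟨0, 1, 0, 67108864⟩, ⟨1, 0, 0, 67108864⟩, ⟨2, 1, 0, 67108864⟩] 2 0 2 7 2 (sgb true) (sgb true) x := by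
  have X : XR 67108864 x := XR.of hx hx' (by norm_num) (by norm_num) (by norm_num) (by norm_num)
  have hen : 0 < eng.v x := en_pos X.x0.le
  refine CornW.altB (C := cB202L) (j := (7 : Fin 8)) (k := (2 : Fin 8)) (Ef := esg) (pd := pd) (o := 3 / 40)
    (cornW_of (C := cB202L) (C0 := c0B) (En := eng) (mo := mog) (j := (7 : Fin 8)) (k := (2 : Fin 8)) (lo := 0) (hi := 4) (W := 67108864) (N0 := 3) cB202L_q (sideB hx hx') gokB (pinU hx hx') dokB X (by norm_num) (by norm_num) (l := (0 : Fin 8)) rfl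
      (gatB72 x) (gatB22 x) (gatB00 x) (datB72 x) (datB22 x) (datB00 x) ?_)
    (cornS_of (C := cB202L) (C0 := c0B) (j := (7 : Fin 8)) (k := (2 : Fin 8)) (lo := 0) (hi := 4) (W := 67108864) (N0 := 3) cB202L_q (sideB hx hx') gokB X (by norm_num) (by norm_num) (l := (0 : Fin 8)) rfl
      (gatB72 x) (gatB22 x) (gatB00 x) ?_)
    (thU (pinU hx hx')) rfl hκ (fun j q y => tC_eq j q y x) (esg_rng X.x0.le (by linarith [X.b, X.p0])).1 (mo_v x) le_rfl le_rfl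
  · intro ρ a B hρ hd i h1 h2
    fin_cases i
    · exact corW_cert (G1 := gB7q2) (G2 := gB2q2) (Ga := gB0q0) (Gb := gB1q0) (D1 := dB7q2) (D2 := dB2q2) (Da := dB0q0) (Db := dB1q0) cB202L_ok B hρ hen (gatB72 x) (gatB22 x) (fun _ => gatB00 x) (fun _ => gatB10 x) (datB72 x) (datB22 x) (fun _ => datB00 x) (fun _ => datB10 x) hd hx hx' CW.B202L_720
    · exact corW_cert (G1 := gB7q2) (G2 := gB2q2) (Ga := gB1q0) (Gb := gB2q0) (D1 := dB7q2) (D2 := dB2q2) (Da := dB1q0) (Db := dB2q0) cB202L_ok B hρ hen (gatB72 x) (gatB22 x) (fun _ => gatB10 x) (fun _ => gatB20 x) (datB72 x) (datB22 x) (fun _ => datB10 x) (fun _ => datB20 x) hd hx hx' CW.B202L_721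
    · exact corW_cert (G1 := gB7q2) (G2 := gB2q2) (Ga := gB2q0) (Gb := gB3q0) (D1 := dB7q2) (D2 := dB2q2) (Da := dB2q0) (Db := dB3q0) cB202L_ok B hρ hen (gatB72 x) (gatB22 x) (fun _ => gatB20 x) (fun _ => gatB30 x) (datB72 x) (datB22 x) (fun _ => datB20 x) (fun _ => datB30 x) hd hx hx' CW.B202L_722
    · exact corW_cert (G1 := gB7q2) (G2 := gB2q2) (Ga := gB3q0) (Gb := gB4q0) (D1 := dB7q2) (D2 := dB2q2) (Da := dB3q0) (Db := dB4q0) cB202L_ok B hρ hen (gatB72 x) (gatB22 x) (fun _ => gatB30 x) (fun _ => gatB40 x) (datB72 x) (datB22 x) (fun _ => datB30 x) (fun _ => datB40 x) hd hx hx' CW.B202L_723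
    · exact corW_cert (G1 := gB7q2) (G2 := gB2q2) (Ga := gB4q0) (Gb := gB5q0) (D1 := dB7q2) (D2 := dB2q2) (Da := dB4q0) (Db := dB5q0) cB202L_ok B hρ hen (gatB72 x) (gatB22 x) (fun _ => gatB40 x) (fun h => absurd h (by decide)) (datB72 x) (datB22 x) (fun _ => datB40 x) (fun h => absurd h (by decide)) hd hx hx' CW.B202L_724
    · exact absurd h2 (by norm_num)
    · exact absurd h2 (by norm_num)
  · intro ρ a B hρ hd i h1 h2
    fin_cases i
    · exact corT_cert (G1 := gB7q2) (G2 := gB2q2) (Ga := gB0q0) (Gb := gB1q0) cB202L_ok B hρ (gatB72 x) (gatB22 x) (fun _ => gatB00 x) (fun _ => gatB10 x) hd hx hx' CG.B202L_720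
    · exact corT_cert (G1 := gB7q2) (G2 := gB2q2) (Ga := gB1q0) (Gb := gB2q0) cB202L_ok B hρ (gatB72 x) (gatB22 x) (fun _ => gatB10 x) (fun _ => gatB20 x) hd hx hx' CG.B202L_721
    · exact corT_cert (G1 := gB7q2) (G2 := gB2q2) (Ga := gB2q0) (Gb := gB3q0) cB202L_ok B hρ (gatB72 x) (gatB22 x) (fun _ => gatB20 x) (fun _ => gatB30 x) hd hx hx' CG.B202L_722
    · exact corT_cert (G1 := gB7q2) (G2 := gB2q2) (Ga := gB3q0) (Gb := gB4q0) cB202L_ok B hρ (gatB72 x) (gatB22 x) (fun _ => gatB30 x) (fun _ => gatB40 x) hd hx hx' CG.B202L_723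
    · exact corT_cert (G1 := gB7q2) (G2 := gB2q2) (Ga := gB4q0) (Gb := gB5q0) cB202L_ok B hρ (gatB72 x) (gatB22 x) (fun _ => gatB40 x) (fun h => absurd h (by decide)) hd hx hx' CG.B202L_724
    · exact absurd h2 (by norm_num)
    · exact absurd h2 (by norm_num)

theorem altB_B202L_73 {κ x : ℝ} (hκ : κ * h0 = ken x) (hx : ((697932185 : ℕ) : ℝ) / S ≤ x) (hx' : x ≤ (((697932185 : ℕ) : ℝ) + (42949674 : ℕ)) / S) :
    AltEB 3 κ (eng.v x) (3 / 40) (tnt (h0 * x) (3 / 10)) PP tK tL tC pcB (scP esg pd) [⟨0, 1, 0, 67108864⟩, ⟨1, 0, 0, 67108864⟩, ⟨2, 1, 0, 67108864⟩] 2 0 2 7 3 (sgb true) (sgb true) x := by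
  have X : XR 67108864 x := XR.of hx hx' (by norm_num) (by norm_num) (by norm_num) (by norm_num)
  have hen : 0 < eng.v x := en_pos X.x0.le
  refine CornW.altB (C := cB202L) (j := (7 : Fin 8)) (k := (3 : Fin 8)) (Ef := esg) (pd := pd) (o := 3 / 40)
    (cornW_of (C := cB202L) (C0 := c0B) (En := eng) (mo := mog) (j := (7 : Fin 8)) (k := (3 : Fin 8)) (lo := 0) (hi := 4) (W := 67108864) (N0 := 3) cB202L_q (sideB hx hx') gokB (pinU hx hx') dokB X (by norm_num) (by norm_num) (l := (0 : Fin 8)) rfl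
      (gatB72 x) (gatB32 x) (gatB00 x) (datB72 x) (datB32 x) (datB00 x) ?_)
    (cornS_of (C := cB202L) (C0 := c0B) (j := (7 : Fin 8)) (k := (3 : Fin 8)) (lo := 0) (hi := 4) (W := 67108864) (N0 := 3) cB202L_q (sideB hx hx') gokB X (by norm_num) (by norm_num) (l := (0 : Fin 8)) rfl
      (gatB72 x) (gatB32 x) (gatB00 x) ?_)
    (thU (pinU hx hx')) rfl hκ (fun j q y => tC_eq j q y x) (esg_rng X.x0.le (by linarith [X.b, X.p0])).1 (mo_v x) le_rfl le_rfl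
  · intro ρ a B hρ hd i h1 h2
    fin_cases i
    · exact corW_cert (G1 := gB7q2) (G2 := gB3q2) (Ga := gB0q0) (Gb := gB1q0) (D1 := dB7q2) (D2 := dB3q2) (Da := dB0q0) (Db := dB1q0) cB202L_ok B hρ hen (gatB72 x) (gatB32 x) (fun _ => gatB00 x) (fun _ => gatB10 x) (datB72 x) (datB32 x) (fun _ => datB00 x) (fun _ => datB10 x) hd hx hx' CW.B202L_730
    · exact corW_cert (G1 := gB7q2) (G2 := gB3q2) (Ga := gB1q0) (Gb := gB2q0) (D1 := dB7q2) (D2 := dB3q2) (Da := dB1q0) (Db := dB2q0) cB202L_ok B hρ hen (gatB72 x) (gatB32 x) (fun _ => gatB10 x) (fun _ => gatB20 x) (datB72 x) (datB32 x) (fun _ => datB10 x) (fun _ => datB20 x) hd hx hx' CW.B202L_731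
    · exact corW_cert (G1 := gB7q2) (G2 := gB3q2) (Ga := gB2q0) (Gb := gB3q0) (D1 := dB7q2) (D2 := dB3q2) (Da := dB2q0) (Db := dB3q0) cB202L_ok B hρ hen (gatB72 x) (gatB32 x) (fun _ => gatB20 x) (fun _ => gatB30 x) (datB72 x) (datB32 x) (fun _ => datB20 x) (fun _ => datB30 x) hd hx hx' CW.B202L_732
    · exact corW_cert (G1 := gB7q2) (G2 := gB3q2) (Ga := gB3q0) (Gb := gB4q0) (D1 := dB7q2) (D2 := dB3q2) (Da := dB3q0) (Db := dB4q0) cB202L_ok B hρ hen (gatB72 x) (gatB32 x) (fun _ => gatB30 x) (fun _ => gatB40 x) (datB72 x) (datB32 x) (fun _ => datB30 x) (fun _ => datB40 x) hd hx hx' CW.B202L_733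
    · exact corW_cert (G1 := gB7q2) (G2 := gB3q2) (Ga := gB4q0) (Gb := gB5q0) (D1 := dB7q2) (D2 := dB3q2) (Da := dB4q0) (Db := dB5q0) cB202L_ok B hρ hen (gatB72 x) (gatB32 x) (fun _ => gatB40 x) (fun h => absurd h (by decide)) (datB72 x) (datB32 x) (fun _ => datB40 x) (fun h => absurd h (by decide)) hd hx hx' CW.B202L_734
    · exact absurd h2 (by norm_num)
    · exact absurd h2 (by norm_num)
  · intro ρ a B hρ hd i h1 h2
    fin_cases i
    · exact corT_cert (G1 := gB7q2) (G2 := gB3q2) (Ga := gB0q0) (Gb := gB1q0) cB202L_ok B hρ (gatB72 x) (gatB32 x) (fun _ => gatB00 x) (fun _ => gatB10 x) hd hx hx' CG.B202L_730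
    · exact corT_cert (G1 := gB7q2) (G2 := gB3q2) (Ga := gB1q0) (Gb := gB2q0) cB202L_ok B hρ (gatB72 x) (gatB32 x) (fun _ => gatB10 x) (fun _ => gatB20 x) hd hx hx' CG.B202L_731
    · exact corT_cert (G1 := gB7q2) (G2 := gB3q2) (Ga := gB2q0) (Gb := gB3q0) cB202L_ok B hρ (gatB72 x) (gatB32 x) (fun _ => gatB20 x) (fun _ => gatB30 x) hd hx hx' CG.B202L_732
    · exact corT_cert (G1 := gB7q2) (G2 := gB3q2) (Ga := gB3q0) (Gb := gB4q0) cB202L_ok B hρ (gatB72 x) (gatB32 x) (fun _ => gatB30 x) (fun _ => gatB40 x) hd hx hx' CG.B202L_733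
    · exact corT_cert (G1 := gB7q2) (G2 := gB3q2) (Ga := gB4q0) (Gb := gB5q0) cB202L_ok B hρ (gatB72 x) (gatB32 x) (fun _ => gatB40 x) (fun h => absurd h (by decide)) hd hx hx' CG.B202L_734
    · exact absurd h2 (by norm_num)
    · exact absurd h2 (by norm_num)

theorem altB_B202L_74 {κ x : ℝ} (hκ : κ * h0 = ken x) (hx : ((697932185 : ℕ) : ℝ) / S ≤ x) (hx' : x ≤ (((697932185 : ℕ) : ℝ) + (42949674 : ℕ)) / S) :
    AltEB 3 κ (eng.v x) (3 / 40) (tnt (h0 * x) (3 / 10)) PP tK tL tC pcB (scP esg pd) [⟨0, 1, 0, 67108864⟩, ⟨1, 0, 0, 67108864⟩, ⟨2, 1, 0, 67108864⟩] 2 0 2 7 4 (sgb true) (sgb true) x := by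
  have X : XR 67108864 x := XR.of hx hx' (by norm_num) (by norm_num) (by norm_num) (by norm_num)
  have hen : 0 < eng.v x := en_pos X.x0.le
  refine CornW.altB (C := cB202L) (j := (7 : Fin 8)) (k := (4 : Fin 8)) (Ef := esg) (pd := pd) (o := 3 / 40)
    (cornW_of (C := cB202L) (C0 := c0B) (En := eng) (mo := mog) (j := (7 : Fin 8)) (k := (4 : Fin 8)) (lo := 0) (hi := 4) (W := 67108864) (N0 := 3) cB202L_q (sideB hx hx') gokB (pinU hx hx') dokB X (by norm_num) (by norm_num) (l := (0 : Fin 8)) rfl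
      (gatB72 x) (gatB42 x) (gatB00 x) (datB72 x) (datB42 x) (datB00 x) ?_)
    (cornS_of (C := cB202L) (C0 := c0B) (j := (7 : Fin 8)) (k := (4 : Fin 8)) (lo := 0) (hi := 4) (W := 67108864) (N0 := 3) cB202L_q (sideB hx hx') gokB X (by norm_num) (by norm_num) (l := (0 : Fin 8)) rfl
      (gatB72 x) (gatB42 x) (gatB00 x) ?_)
    (thU (pinU hx hx')) rfl hκ (fun j q y => tC_eq j q y x) (esg_rng X.x0.le (by linarith [X.b, X.p0])).1 (mo_v x) le_rfl le_rfl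
  · intro ρ a B hρ hd i h1 h2
    fin_cases i
    · exact corW_cert (G1 := gB7q2) (G2 := gB4q2) (Ga := gB0q0) (Gb := gB1q0) (D1 := dB7q2) (D2 := dB4q2) (Da := dB0q0) (Db := dB1q0) cB202L_ok B hρ hen (gatB72 x) (gatB42 x) (fun _ => gatB00 x) (fun _ => gatB10 x) (datB72 x) (datB42 x) (fun _ => datB00 x) (fun _ => datB10 x) hd hx hx' CW.B202L_740
    · exact corW_cert (G1 := gB7q2) (G2 := gB4q2) (Ga := gB1q0) (Gb := gB2q0) (D1 := dB7q2) (D2 := dB4q2) (Da := dB1q0) (Db := dB2q0) cB202L_ok B hρ hen (gatB72 x) (gatB42 x) (fun _ => gatB10 x) (fun _ => gatB20 x) (datB72 x) (datB42 x) (fun _ => datB10 x) (fun _ => datB20 x) hd hx hx' CW.B202L_741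
    · exact corW_cert (G1 := gB7q2) (G2 := gB4q2) (Ga := gB2q0) (Gb := gB3q0) (D1 := dB7q2) (D2 := dB4q2) (Da := dB2q0) (Db := dB3q0) cB202L_ok B hρ hen (gatB72 x) (gatB42 x) (fun _ => gatB20 x) (fun _ => gatB30 x) (datB72 x) (datB42 x) (fun _ => datB20 x) (fun _ => datB30 x) hd hx hx' CW.B202L_742
    · exact corW_cert (G1 := gB7q2) (G2 := gB4q2) (Ga := gB3q0) (Gb := gB4q0) (D1 := dB7q2) (D2 := dB4q2) (Da := dB3q0) (Db := dB4q0) cB202L_ok B hρ hen (gatB72 x) (gatB42 x) (fun _ => gatB30 x) (fun _ => gatB40 x) (datB72 x) (datB42 x) (fun _ => datB30 x) (fun _ => datB40 x) hd hx hx' CW.B202L_743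
    · exact corW_cert (G1 := gB7q2) (G2 := gB4q2) (Ga := gB4q0) (Gb := gB5q0) (D1 := dB7q2) (D2 := dB4q2) (Da := dB4q0) (Db := dB5q0) cB202L_ok B hρ hen (gatB72 x) (gatB42 x) (fun _ => gatB40 x) (fun h => absurd h (by decide)) (datB72 x) (datB42 x) (fun _ => datB40 x) (fun h => absurd h (by decide)) hd hx hx' CW.B202L_744
    · exact absurd h2 (by norm_num)
    · exact absurd h2 (by norm_num)
  · intro ρ a B hρ hd i h1 h2
    fin_cases i
    · exact corT_cert (G1 := gB7q2) (G2 := gB4q2) (Ga := gB0q0) (Gb := gB1q0) cB202L_ok B hρ (gatB72 x) (gatB42 x) (fun _ => gatB00 x) (fun _ => gatB10 x) hd hx hx' CG.B202L_740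
    · exact corT_cert (G1 := gB7q2) (G2 := gB4q2) (Ga := gB1q0) (Gb := gB2q0) cB202L_ok B hρ (gatB72 x) (gatB42 x) (fun _ => gatB10 x) (fun _ => gatB20 x) hd hx hx' CG.B202L_741
    · exact corT_cert (G1 := gB7q2) (G2 := gB4q2) (Ga := gB2q0) (Gb := gB3q0) cB202L_ok B hρ (gatB72 x) (gatB42 x) (fun _ => gatB20 x) (fun _ => gatB30 x) hd hx hx' CG.B202L_742
    · exact corT_cert (G1 := gB7q2) (G2 := gB4q2) (Ga := gB3q0) (Gb := gB4q0) cB202L_ok B hρ (gatB72 x) (gatB42 x) (fun _ => gatB30 x) (fun _ => gatB40 x) hd hx hx' CG.B202L_743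
    · exact corT_cert (G1 := gB7q2) (G2 := gB4q2) (Ga := gB4q0) (Gb := gB5q0) cB202L_ok B hρ (gatB72 x) (gatB42 x) (fun _ => gatB40 x) (fun h => absurd h (by decide)) hd hx hx' CG.B202L_744
    · exact absurd h2 (by norm_num)
    · exact absurd h2 (by norm_num)

theorem altB_B202R_07 {κ x : ℝ} (hκ : κ * h0 = ken x) (hx : ((697932185 : ℕ) : ℝ) / S ≤ x) (hx' : x ≤ (((697932185 : ℕ) : ℝ) + (42949674 : ℕ)) / S) :
    AltEB 3 κ (eng.v x) (3 / 40) (tnt (h0 * x) (3 / 10)) PP tK tL tC pcB (scP esg pd) [⟨0, 1, 0, 53687091⟩, ⟨1, 0, 0, 53687091⟩, ⟨2, 1, 0, 53687091⟩] 2 0 2 0 7 (sgb false) (sgb false) x := by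
  have X : XR 53687091 x := XR.of hx hx' (by norm_num) (by norm_num) (by norm_num) (by norm_num)
  have hen : 0 < eng.v x := en_pos X.x0.le
  refine CornW.altB (C := cB202R) (j := (0 : Fin 8)) (k := (7 : Fin 8)) (Ef := esg) (pd := pd) (o := 3 / 40)
    (cornW_of (C := cB202R) (C0 := c0B) (En := eng) (mo := mog) (j := (0 : Fin 8)) (k := (7 : Fin 8)) (lo := 0) (hi := 4) (W := 53687091) (N0 := 3) cB202R_q (sideB hx hx') gokB (pinU hx hx') dokB X (by norm_num) (by norm_num) (l := (0 : Fin 8)) rfl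
      (gatB02 x) (gatB72 x) (gatB00 x) (datB02 x) (datB72 x) (datB00 x) ?_)
    (cornS_of (C := cB202R) (C0 := c0B) (j := (0 : Fin 8)) (k := (7 : Fin 8)) (lo := 0) (hi := 4) (W := 53687091) (N0 := 3) cB202R_q (sideB hx hx') gokB X (by norm_num) (by norm_num) (l := (0 : Fin 8)) rfl
      (gatB02 x) (gatB72 x) (gatB00 x) ?_)
    (thU (pinU hx hx')) rfl hκ (fun j q y => tC_eq j q y x) (esg_rng X.x0.le (by linarith [X.b, X.p0])).1 (mo_v x) le_rfl le_rfl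
  · intro ρ a B hρ hd i h1 h2
    fin_cases i
    · exact corW_cert (G1 := gB0q2) (G2 := gB7q2) (Ga := gB0q0) (Gb := gB1q0) (D1 := dB0q2) (D2 := dB7q2) (Da := dB0q0) (Db := dB1q0) cB202R_ok B hρ hen (gatB02 x) (gatB72 x) (fun _ => gatB00 x) (fun _ => gatB10 x) (datB02 x) (datB72 x) (fun _ => datB00 x) (fun _ => datB10 x) hd hx hx' CW.B202R_070
    · exact corW_cert (G1 := gB0q2) (G2 := gB7q2) (Ga := gB1q0) (Gb := gB2q0) (D1 := dB0q2) (D2 := dB7q2) (Da := dB1q0) (Db := dB2q0) cB202R_ok B hρ hen (gatB02 x) (gatB72 x) (fun _ => gatB10 x) (fun _ => gatB20 x) (datB02 x) (datB72 x) (fun _ => datB10 x) (fun _ => datB20 x) hd hx hx' CW.B202R_071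
    · exact corW_cert (G1 := gB0q2) (G2 := gB7q2) (Ga := gB2q0) (Gb := gB3q0) (D1 := dB0q2) (D2 := dB7q2) (Da := dB2q0) (Db := dB3q0) cB202R_ok B hρ hen (gatB02 x) (gatB72 x) (fun _ => gatB20 x) (fun _ => gatB30 x) (datB02 x) (datB72 x) (fun _ => datB20 x) (fun _ => datB30 x) hd hx hx' CW.B202R_072
    · exact corW_cert (G1 := gB0q2) (G2 := gB7q2) (Ga := gB3q0) (Gb := gB4q0) (D1 := dB0q2) (D2 := dB7q2) (Da := dB3q0) (Db := dB4q0) cB202R_ok B hρ hen (gatB02 x) (gatB72 x) (fun _ => gatB30 x) (fun _ => gatB40 x) (datB02 x) (datB72 x) (fun _ => datB30 x) (fun _ => datB40 x) hd hx hx' CW.B202R_073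
    · exact corW_cert (G1 := gB0q2) (G2 := gB7q2) (Ga := gB4q0) (Gb := gB5q0) (D1 := dB0q2) (D2 := dB7q2) (Da := dB4q0) (Db := dB5q0) cB202R_ok B hρ hen (gatB02 x) (gatB72 x) (fun _ => gatB40 x) (fun h => absurd h (by decide)) (datB02 x) (datB72 x) (fun _ => datB40 x) (fun h => absurd h (by decide)) hd hx hx' CW.B202R_074
    · exact absurd h2 (by norm_num)
    · exact absurd h2 (by norm_num)
  · intro ρ a B hρ hd i h1 h2
    fin_cases i
    · exact corX_cert (G1 := gB0q2) (G2 := gB7q2) (Ga := gB0q0) (Gb := gB1q0) (GT := gB0q0) cB202R_ok tB202R_ok B hρ (gatB02 x) (gatB72 x) (fun _ => gatB00 x) (fun _ => gatB10 x) rfl (tgh_B202R (kodd x) (gpu2 x) (gpt2 x) (gpu0 x) (gatB02 x) (gatB72 x) (gatB00 x) B (le_sixteenth hd (by norm_num))) hd hx hx' CG.B202R_070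
    · exact corT_cert (G1 := gB0q2) (G2 := gB7q2) (Ga := gB1q0) (Gb := gB2q0) cB202R_ok B hρ (gatB02 x) (gatB72 x) (fun _ => gatB10 x) (fun _ => gatB20 x) hd hx hx' CG.B202R_071
    · exact corT_cert (G1 := gB0q2) (G2 := gB7q2) (Ga := gB2q0) (Gb := gB3q0) cB202R_ok B hρ (gatB02 x) (gatB72 x) (fun _ => gatB20 x) (fun _ => gatB30 x) hd hx hx' CG.B202R_072
    · exact corT_cert (G1 := gB0q2) (G2 := gB7q2) (Ga := gB3q0) (Gb := gB4q0) cB202R_ok B hρ (gatB02 x) (gatB72 x) (fun _ => gatB30 x) (fun _ => gatB40 x) hd hx hx' CG.B202R_073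
    · exact corT_cert (G1 := gB0q2) (G2 := gB7q2) (Ga := gB4q0) (Gb := gB5q0) cB202R_ok B hρ (gatB02 x) (gatB72 x) (fun _ => gatB40 x) (fun h => absurd h (by decide)) hd hx hx' CG.B202R_074
    · exact absurd h2 (by norm_num)
    · exact absurd h2 (by norm_num)

theorem altB_B202R_17 {κ x : ℝ} (hκ : κ * h0 = ken x) (hx : ((697932185 : ℕ) : ℝ) / S ≤ x) (hx' : x ≤ (((697932185 : ℕ) : ℝ) + (42949674 : ℕ)) / S) :
    AltEB 3 κ (eng.v x) (3 / 40) (tnt (h0 * x) (3 / 10)) PP tK tL tC pcB (scP esg pd) [⟨0, 1, 0, 67108864⟩, ⟨1, 0, 0, 67108864⟩, ⟨2, 1, 0, 67108864⟩] 2 0 2 1 7 (sgb false) (sgb false) x := by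
  have X : XR 67108864 x := XR.of hx hx' (by norm_num) (by norm_num) (by norm_num) (by norm_num)
  have hen : 0 < eng.v x := en_pos X.x0.le
  refine CornW.altB (C := cB202R) (j := (1 : Fin 8)) (k := (7 : Fin 8)) (Ef := esg) (pd := pd) (o := 3 / 40)
    (cornW_of (C := cB202R) (C0 := c0B) (En := eng) (mo := mog) (j := (1 : Fin 8)) (k := (7 : Fin 8)) (lo := 0) (hi := 4) (W := 67108864) (N0 := 3) cB202R_q (sideB hx hx') gokB (pinU hx hx') dokB X (by norm_num) (by norm_num) (l := (0 : Fin 8)) rfl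
      (gatB12 x) (gatB72 x) (gatB00 x) (datB12 x) (datB72 x) (datB00 x) ?_)
    (cornS_of (C := cB202R) (C0 := c0B) (j := (1 : Fin 8)) (k := (7 : Fin 8)) (lo := 0) (hi := 4) (W := 67108864) (N0 := 3) cB202R_q (sideB hx hx') gokB X (by norm_num) (by norm_num) (l := (0 : Fin 8)) rfl
      (gatB12 x) (gatB72 x) (gatB00 x) ?_)
    (thU (pinU hx hx')) rfl hκ (fun j q y => tC_eq j q y x) (esg_rng X.x0.le (by linarith [X.b, X.p0])).1 (mo_v x) le_rfl le_rfl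
  · intro ρ a B hρ hd i h1 h2
    fin_cases i
    · exact corW_cert (G1 := gB1q2) (G2 := gB7q2) (Ga := gB0q0) (Gb := gB1q0) (D1 := dB1q2) (D2 := dB7q2) (Da := dB0q0) (Db := dB1q0) cB202R_ok B hρ hen (gatB12 x) (gatB72 x) (fun _ => gatB00 x) (fun _ => gatB10 x) (datB12 x) (datB72 x) (fun _ => datB00 x) (fun _ => datB10 x) hd hx hx' CW.B202R_170
    · exact corW_cert (G1 := gB1q2) (G2 := gB7q2) (Ga := gB1q0) (Gb := gB2q0) (D1 := dB1q2) (D2 := dB7q2) (Da := dB1q0) (Db := dB2q0) cB202R_ok B hρ hen (gatB12 x) (gatB72 x) (fun _ => gatB10 x) (fun _ => gatB20 x) (datB12 x) (datB72 x) (fun _ => datB10 x) (fun _ => datB20 x) hd hx hx' CW.B202R_171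
    · exact corW_cert (G1 := gB1q2) (G2 := gB7q2) (Ga := gB2q0) (Gb := gB3q0) (D1 := dB1q2) (D2 := dB7q2) (Da := dB2q0) (Db := dB3q0) cB202R_ok B hρ hen (gatB12 x) (gatB72 x) (fun _ => gatB20 x) (fun _ => gatB30 x) (datB12 x) (datB72 x) (fun _ => datB20 x) (fun _ => datB30 x) hd hx hx' CW.B202R_172
    · exact corW_cert (G1 := gB1q2) (G2 := gB7q2) (Ga := gB3q0) (Gb := gB4q0) (D1 := dB1q2) (D2 := dB7q2) (Da := dB3q0) (Db := dB4q0) cB202R_ok B hρ hen (gatB12 x) (gatB72 x) (fun _ => gatB30 x) (fun _ => gatB40 x) (datB12 x) (datB72 x) (fun _ => datB30 x) (fun _ => datB40 x) hd hx hx' CW.B202R_173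
    · exact corW_cert (G1 := gB1q2) (G2 := gB7q2) (Ga := gB4q0) (Gb := gB5q0) (D1 := dB1q2) (D2 := dB7q2) (Da := dB4q0) (Db := dB5q0) cB202R_ok B hρ hen (gatB12 x) (gatB72 x) (fun _ => gatB40 x) (fun h => absurd h (by decide)) (datB12 x) (datB72 x) (fun _ => datB40 x) (fun h => absurd h (by decide)) hd hx hx' CW.B202R_174
    · exact absurd h2 (by norm_num)
    · exact absurd h2 (by norm_num)
  · intro ρ a B hρ hd i h1 h2
    fin_cases i
    · exact corT_cert (G1 := gB1q2) (G2 := gB7q2) (Ga := gB0q0) (Gb := gB1q0) cB202R_ok B hρ (gatB12 x) (gatB72 x) (fun _ => gatB00 x) (fun _ => gatB10 x) hd hx hx' CG.B202R_170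
    · exact corT_cert (G1 := gB1q2) (G2 := gB7q2) (Ga := gB1q0) (Gb := gB2q0) cB202R_ok B hρ (gatB12 x) (gatB72 x) (fun _ => gatB10 x) (fun _ => gatB20 x) hd hx hx' CG.B202R_171
    · exact corT_cert (G1 := gB1q2) (G2 := gB7q2) (Ga := gB2q0) (Gb := gB3q0) cB202R_ok B hρ (gatB12 x) (gatB72 x) (fun _ => gatB20 x) (fun _ => gatB30 x) hd hx hx' CG.B202R_172
    · exact corT_cert (G1 := gB1q2) (G2 := gB7q2) (Ga := gB3q0) (Gb := gB4q0) cB202R_ok B hρ (gatB12 x) (gatB72 x) (fun _ => gatB30 x) (fun _ => gatB40 x) hd hx hx' CG.B202R_173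
    · exact corT_cert (G1 := gB1q2) (G2 := gB7q2) (Ga := gB4q0) (Gb := gB5q0) cB202R_ok B hρ (gatB12 x) (gatB72 x) (fun _ => gatB40 x) (fun h => absurd h (by decide)) hd hx hx' CG.B202R_174
    · exact absurd h2 (by norm_num)
    · exact absurd h2 (by norm_num)

theorem altB_B202R_27 {κ x : ℝ} (hκ : κ * h0 = ken x) (hx : ((697932185 : ℕ) : ℝ) / S ≤ x) (hx' : x ≤ (((697932185 : ℕ) : ℝ) + (42949674 : ℕ)) / S) :
    AltEB 3 κ (eng.v x) (3 / 40) (tnt (h0 * x) (3 / 10)) PP tK tL tC pcB (scP esg pd) [⟨0, 1, 0, 67108864⟩, ⟨1, 0, 0, 67108864⟩, ⟨2, 1, 0, 67108864⟩] 2 0 2 2 7 (sgb false) (sgb false) x := by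
  have X : XR 67108864 x := XR.of hx hx' (by norm_num) (by norm_num) (by norm_num) (by norm_num)
  have hen : 0 < eng.v x := en_pos X.x0.le
  refine CornW.altB (C := cB202R) (j := (2 : Fin 8)) (k := (7 : Fin 8)) (Ef := esg) (pd := pd) (o := 3 / 40)
    (cornW_of (C := cB202R) (C0 := c0B) (En := eng) (mo := mog) (j := (2 : Fin 8)) (k := (7 : Fin 8)) (lo := 0) (hi := 4) (W := 67108864) (N0 := 3) cB202R_q (sideB hx hx') gokB (pinU hx hx') dokB X (by norm_num) (by norm_num) (l := (0 : Fin 8)) rfl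
      (gatB22 x) (gatB72 x) (gatB00 x) (datB22 x) (datB72 x) (datB00 x) ?_)
    (cornS_of (C := cB202R) (C0 := c0B) (j := (2 : Fin 8)) (k := (7 : Fin 8)) (lo := 0) (hi := 4) (W := 67108864) (N0 := 3) cB202R_q (sideB hx hx') gokB X (by norm_num) (by norm_num) (l := (0 : Fin 8)) rfl
      (gatB22 x) (gatB72 x) (gatB00 x) ?_)
    (thU (pinU hx hx')) rfl hκ (fun j q y => tC_eq j q y x) (esg_rng X.x0.le (by linarith [X.b, X.p0])).1 (mo_v x) le_rfl le_rfl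
  · intro ρ a B hρ hd i h1 h2
    fin_cases i
    · exact corW_cert (G1 := gB2q2) (G2 := gB7q2) (Ga := gB0q0) (Gb := gB1q0) (D1 := dB2q2) (D2 := dB7q2) (Da := dB0q0) (Db := dB1q0) cB202R_ok B hρ hen (gatB22 x) (gatB72 x) (fun _ => gatB00 x) (fun _ => gatB10 x) (datB22 x) (datB72 x) (fun _ => datB00 x) (fun _ => datB10 x) hd hx hx' CW.B202R_270
    · exact corW_cert (G1 := gB2q2) (G2 := gB7q2) (Ga := gB1q0) (Gb := gB2q0) (D1 := dB2q2) (D2 := dB7q2) (Da := dB1q0) (Db := dB2q0) cB202R_ok B hρ hen (gatB22 x) (gatB72 x) (fun _ => gatB10 x) (fun _ => gatB20 x) (datB22 x) (datB72 x) (fun _ => datB10 x) (fun _ => datB20 x) hd hx hx' CW.B202R_271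
    · exact corW_cert (G1 := gB2q2) (G2 := gB7q2) (Ga := gB2q0) (Gb := gB3q0) (D1 := dB2q2) (D2 := dB7q2) (Da := dB2q0) (Db := dB3q0) cB202R_ok B hρ hen (gatB22 x) (gatB72 x) (fun _ => gatB20 x) (fun _ => gatB30 x) (datB22 x) (datB72 x) (fun _ => datB20 x) (fun _ => datB30 x) hd hx hx' CW.B202R_272
    · exact corW_cert (G1 := gB2q2) (G2 := gB7q2) (Ga := gB3q0) (Gb := gB4q0) (D1 := dB2q2) (D2 := dB7q2) (Da := dB3q0) (Db := dB4q0) cB202R_ok B hρ hen (gatB22 x) (gatB72 x) (fun _ => gatB30 x) (fun _ => gatB40 x) (datB22 x) (datB72 x) (fun _ => datB30 x) (fun _ => datB40 x) hd hx hx' CW.B202R_273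
    · exact corW_cert (G1 := gB2q2) (G2 := gB7q2) (Ga := gB4q0) (Gb := gB5q0) (D1 := dB2q2) (D2 := dB7q2) (Da := dB4q0) (Db := dB5q0) cB202R_ok B hρ hen (gatB22 x) (gatB72 x) (fun _ => gatB40 x) (fun h => absurd h (by decide)) (datB22 x) (datB72 x) (fun _ => datB40 x) (fun h => absurd h (by decide)) hd hx hx' CW.B202R_274
    · exact absurd h2 (by norm_num)
    · exact absurd h2 (by norm_num)
  · intro ρ a B hρ hd i h1 h2
    fin_cases i
    · exact corT_cert (G1 := gB2q2) (G2 := gB7q2) (Ga := gB0q0) (Gb := gB1q0) cB202R_ok B hρ (gatB22 x) (gatB72 x) (fun _ => gatB00 x) (fun _ => gatB10 x) hd hx hx' CG.B202R_270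
    · exact corT_cert (G1 := gB2q2) (G2 := gB7q2) (Ga := gB1q0) (Gb := gB2q0) cB202R_ok B hρ (gatB22 x) (gatB72 x) (fun _ => gatB10 x) (fun _ => gatB20 x) hd hx hx' CG.B202R_271
    · exact corT_cert (G1 := gB2q2) (G2 := gB7q2) (Ga := gB2q0) (Gb := gB3q0) cB202R_ok B hρ (gatB22 x) (gatB72 x) (fun _ => gatB20 x) (fun _ => gatB30 x) hd hx hx' CG.B202R_272
    · exact corT_cert (G1 := gB2q2) (G2 := gB7q2) (Ga := gB3q0) (Gb := gB4q0) cB202R_ok B hρ (gatB22 x) (gatB72 x) (fun _ => gatB30 x) (fun _ => gatB40 x) hd hx hx' CG.B202R_273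
    · exact corT_cert (G1 := gB2q2) (G2 := gB7q2) (Ga := gB4q0) (Gb := gB5q0) cB202R_ok B hρ (gatB22 x) (gatB72 x) (fun _ => gatB40 x) (fun h => absurd h (by decide)) hd hx hx' CG.B202R_274
    · exact absurd h2 (by norm_num)
    · exact absurd h2 (by norm_num)

theorem altB_B202R_37 {κ x : ℝ} (hκ : κ * h0 = ken x) (hx : ((697932185 : ℕ) : ℝ) / S ≤ x) (hx' : x ≤ (((697932185 : ℕ) : ℝ) + (42949674 : ℕ)) / S) :
    AltEB 3 κ (eng.v x) (3 / 40) (tnt (h0 * x) (3 / 10)) PP tK tL tC pcB (scP esg pd) [⟨0, 1, 0, 67108864⟩, ⟨1, 0, 0, 67108864⟩, ⟨2, 1, 0, 67108864⟩] 2 0 2 3 7 (sgb false) (sgb false) x := by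
  have X : XR 67108864 x := XR.of hx hx' (by norm_num) (by norm_num) (by norm_num) (by norm_num)
  have hen : 0 < eng.v x := en_pos X.x0.le
  refine CornW.altB (C := cB202R) (j := (3 : Fin 8)) (k := (7 : Fin 8)) (Ef := esg) (pd := pd) (o := 3 / 40)
    (cornW_of (C := cB202R) (C0 := c0B) (En := eng) (mo := mog) (j := (3 : Fin 8)) (k := (7 : Fin 8)) (lo := 0) (hi := 4) (W := 67108864) (N0 := 3) cB202R_q (sideB hx hx') gokB (pinU hx hx') dokB X (by norm_num) (by norm_num) (l := (0 : Fin 8)) rfl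
      (gatB32 x) (gatB72 x) (gatB00 x) (datB32 x) (datB72 x) (datB00 x) ?_)
    (cornS_of (C := cB202R) (C0 := c0B) (j := (3 : Fin 8)) (k := (7 : Fin 8)) (lo := 0) (hi := 4) (W := 67108864) (N0 := 3) cB202R_q (sideB hx hx') gokB X (by norm_num) (by norm_num) (l := (0 : Fin 8)) rfl
      (gatB32 x) (gatB72 x) (gatB00 x) ?_)
    (thU (pinU hx hx')) rfl hκ (fun j q y => tC_eq j q y x) (esg_rng X.x0.le (by linarith [X.b, X.p0])).1 (mo_v x) le_rfl le_rfl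
  · intro ρ a B hρ hd i h1 h2
    fin_cases i
    · exact corW_cert (G1 := gB3q2) (G2 := gB7q2) (Ga := gB0q0) (Gb := gB1q0) (D1 := dB3q2) (D2 := dB7q2) (Da := dB0q0) (Db := dB1q0) cB202R_ok B hρ hen (gatB32 x) (gatB72 x) (fun _ => gatB00 x) (fun _ => gatB10 x) (datB32 x) (datB72 x) (fun _ => datB00 x) (fun _ => datB10 x) hd hx hx' CW.B202R_370
    · exact corW_cert (G1 := gB3q2) (G2 := gB7q2) (Ga := gB1q0) (Gb := gB2q0) (D1 := dB3q2) (D2 := dB7q2) (Da := dB1q0) (Db := dB2q0) cB202R_ok B hρ hen (gatB32 x) (gatB72 x) (fun _ => gatB10 x) (fun _ => gatB20 x) (datB32 x) (datB72 x) (fun _ => datB10 x) (fun _ => datB20 x) hd hx hx' CW.B202R_371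
    · exact corW_cert (G1 := gB3q2) (G2 := gB7q2) (Ga := gB2q0) (Gb := gB3q0) (D1 := dB3q2) (D2 := dB7q2) (Da := dB2q0) (Db := dB3q0) cB202R_ok B hρ hen (gatB32 x) (gatB72 x) (fun _ => gatB20 x) (fun _ => gatB30 x) (datB32 x) (datB72 x) (fun _ => datB20 x) (fun _ => datB30 x) hd hx hx' CW.B202R_372
    · exact corW_cert (G1 := gB3q2) (G2 := gB7q2) (Ga := gB3q0) (Gb := gB4q0) (D1 := dB3q2) (D2 := dB7q2) (Da := dB3q0) (Db := dB4q0) cB202R_ok B hρ hen (gatB32 x) (gatB72 x) (fun _ => gatB30 x) (fun _ => gatB40 x) (datB32 x) (datB72 x) (fun _ => datB30 x) (fun _ => datB40 x) hd hx hx' CW.B202R_373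
    · exact corW_cert (G1 := gB3q2) (G2 := gB7q2) (Ga := gB4q0) (Gb := gB5q0) (D1 := dB3q2) (D2 := dB7q2) (Da := dB4q0) (Db := dB5q0) cB202R_ok B hρ hen (gatB32 x) (gatB72 x) (fun _ => gatB40 x) (fun h => absurd h (by decide)) (datB32 x) (datB72 x) (fun _ => datB40 x) (fun h => absurd h (by decide)) hd hx hx' CW.B202R_374
    · exact absurd h2 (by norm_num)
    · exact absurd h2 (by norm_num)
  · intro ρ a B hρ hd i h1 h2
    fin_cases i
    · exact corT_cert (G1 := gB3q2) (G2 := gB7q2) (Ga := gB0q0) (Gb := gB1q0) cB202R_ok B hρ (gatB32 x) (gatB72 x) (fun _ => gatB00 x) (fun _ => gatB10 x) hd hx hx' CG.B202R_370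
    · exact corT_cert (G1 := gB3q2) (G2 := gB7q2) (Ga := gB1q0) (Gb := gB2q0) cB202R_ok B hρ (gatB32 x) (gatB72 x) (fun _ => gatB10 x) (fun _ => gatB20 x) hd hx hx' CG.B202R_371
    · exact corT_cert (G1 := gB3q2) (G2 := gB7q2) (Ga := gB2q0) (Gb := gB3q0) cB202R_ok B hρ (gatB32 x) (gatB72 x) (fun _ => gatB20 x) (fun _ => gatB30 x) hd hx hx' CG.B202R_372
    · exact corT_cert (G1 := gB3q2) (G2 := gB7q2) (Ga := gB3q0) (Gb := gB4q0) cB202R_ok B hρ (gatB32 x) (gatB72 x) (fun _ => gatB30 x) (fun _ => gatB40 x) hd hx hx' CG.B202R_373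
    · exact corT_cert (G1 := gB3q2) (G2 := gB7q2) (Ga := gB4q0) (Gb := gB5q0) cB202R_ok B hρ (gatB32 x) (gatB72 x) (fun _ => gatB40 x) (fun h => absurd h (by decide)) hd hx hx' CG.B202R_374
    · exact absurd h2 (by norm_num)
    · exact absurd h2 (by norm_num)

theorem altB_B202R_47 {κ x : ℝ} (hκ : κ * h0 = ken x) (hx : ((697932185 : ℕ) : ℝ) / S ≤ x) (hx' : x ≤ (((697932185 : ℕ) : ℝ) + (42949674 : ℕ)) / S) :
    AltEB 3 κ (eng.v x) (3 / 40) (tnt (h0 * x) (3 / 10)) PP tK tL tC pcB (scP esg pd) [⟨0, 1, 0, 67108864⟩, ⟨1, 0, 0, 67108864⟩, ⟨2, 1, 0, 67108864⟩] 2 0 2 4 7 (sgb false) (sgb false) x := by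
  have X : XR 67108864 x := XR.of hx hx' (by norm_num) (by norm_num) (by norm_num) (by norm_num)
  have hen : 0 < eng.v x := en_pos X.x0.le
  refine CornW.altB (C := cB202R) (j := (4 : Fin 8)) (k := (7 : Fin 8)) (Ef := esg) (pd := pd) (o := 3 / 40)
    (cornW_of (C := cB202R) (C0 := c0B) (En := eng) (mo := mog) (j := (4 : Fin 8)) (k := (7 : Fin 8)) (lo := 0) (hi := 4) (W := 67108864) (N0 := 3) cB202R_q (sideB hx hx') gokB (pinU hx hx') dokB X (by norm_num) (by norm_num) (l := (0 : Fin 8)) rfl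
      (gatB42 x) (gatB72 x) (gatB00 x) (datB42 x) (datB72 x) (datB00 x) ?_)
    (cornS_of (C := cB202R) (C0 := c0B) (j := (4 : Fin 8)) (k := (7 : Fin 8)) (lo := 0) (hi := 4) (W := 67108864) (N0 := 3) cB202R_q (sideB hx hx') gokB X (by norm_num) (by norm_num) (l := (0 : Fin 8)) rfl
      (gatB42 x) (gatB72 x) (gatB00 x) ?_)
    (thU (pinU hx hx')) rfl hκ (fun j q y => tC_eq j q y x) (esg_rng X.x0.le (by linarith [X.b, X.p0])).1 (mo_v x) le_rfl le_rfl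
  · intro ρ a B hρ hd i h1 h2
    fin_cases i
    · exact corW_cert (G1 := gB4q2) (G2 := gB7q2) (Ga := gB0q0) (Gb := gB1q0) (D1 := dB4q2) (D2 := dB7q2) (Da := dB0q0) (Db := dB1q0) cB202R_ok B hρ hen (gatB42 x) (gatB72 x) (fun _ => gatB00 x) (fun _ => gatB10 x) (datB42 x) (datB72 x) (fun _ => datB00 x) (fun _ => datB10 x) hd hx hx' CW.B202R_470
    · exact corW_cert (G1 := gB4q2) (G2 := gB7q2) (Ga := gB1q0) (Gb := gB2q0) (D1 := dB4q2) (D2 := dB7q2) (Da := dB1q0) (Db := dB2q0) cB202R_ok B hρ hen (gatB42 x) (gatB72 x) (fun _ => gatB10 x) (fun _ => gatB20 x) (datB42 x) (datB72 x) (fun _ => datB10 x) (fun _ => datB20 x) hd hx hx' CW.B202R_471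
    · exact corW_cert (G1 := gB4q2) (G2 := gB7q2) (Ga := gB2q0) (Gb := gB3q0) (D1 := dB4q2) (D2 := dB7q2) (Da := dB2q0) (Db := dB3q0) cB202R_ok B hρ hen (gatB42 x) (gatB72 x) (fun _ => gatB20 x) (fun _ => gatB30 x) (datB42 x) (datB72 x) (fun _ => datB20 x) (fun _ => datB30 x) hd hx hx' CW.B202R_472
    · exact corW_cert (G1 := gB4q2) (G2 := gB7q2) (Ga := gB3q0) (Gb := gB4q0) (D1 := dB4q2) (D2 := dB7q2) (Da := dB3q0) (Db := dB4q0) cB202R_ok B hρ hen (gatB42 x) (gatB72 x) (fun _ => gatB30 x) (fun _ => gatB40 x) (datB42 x) (datB72 x) (fun _ => datB30 x) (fun _ => datB40 x) hd hx hx' CW.B202R_473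
    · exact corW_cert (G1 := gB4q2) (G2 := gB7q2) (Ga := gB4q0) (Gb := gB5q0) (D1 := dB4q2) (D2 := dB7q2) (Da := dB4q0) (Db := dB5q0) cB202R_ok B hρ hen (gatB42 x) (gatB72 x) (fun _ => gatB40 x) (fun h => absurd h (by decide)) (datB42 x) (datB72 x) (fun _ => datB40 x) (fun h => absurd h (by decide)) hd hx hx' CW.B202R_474
    · exact absurd h2 (by norm_num)
    · exact absurd h2 (by norm_num)
  · intro ρ a B hρ hd i h1 h2
    fin_cases i
    · exact corT_cert (G1 := gB4q2) (G2 := gB7q2) (Ga := gB0q0) (Gb := gB1q0) cB202R_ok B hρ (gatB42 x) (gatB72 x) (fun _ => gatB00 x) (fun _ => gatB10 x) hd hx hx' CG.B202R_470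
    · exact corT_cert (G1 := gB4q2) (G2 := gB7q2) (Ga := gB1q0) (Gb := gB2q0) cB202R_ok B hρ (gatB42 x) (gatB72 x) (fun _ => gatB10 x) (fun _ => gatB20 x) hd hx hx' CG.B202R_471
    · exact corT_cert (G1 := gB4q2) (G2 := gB7q2) (Ga := gB2q0) (Gb := gB3q0) cB202R_ok B hρ (gatB42 x) (gatB72 x) (fun _ => gatB20 x) (fun _ => gatB30 x) hd hx hx' CG.B202R_472
    · exact corT_cert (G1 := gB4q2) (G2 := gB7q2) (Ga := gB3q0) (Gb := gB4q0) cB202R_ok B hρ (gatB42 x) (gatB72 x) (fun _ => gatB30 x) (fun _ => gatB40 x) hd hx hx' CG.B202R_473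
    · exact corT_cert (G1 := gB4q2) (G2 := gB7q2) (Ga := gB4q0) (Gb := gB5q0) cB202R_ok B hρ (gatB42 x) (gatB72 x) (fun _ => gatB40 x) (fun h => absurd h (by decide)) hd hx hx' CG.B202R_474
    · exact absurd h2 (by norm_num)
    · exact absurd h2 (by norm_num)

end Pool.Agent.Strip051.G.I6500_6900.Tab
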