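import Pool.Agent.Strip051.G.I6500_6900.StH
import Pool.Agent.Strip051.G.I6500_6900.StF

/-! # Unit strips 16 (generated) -/

set_option linter.all false
set_option maxRecDepth 100000

namespace Pool.Agent.Strip051.G.I6500_6900.Tab.St.C

open Pool.Agent.Strip051.PB Pool.Agent.Strip051.PB.T Pool.Agent.StripNear Pool.Agent.Strip051.LC
open Pool.Agent.Strip051.G.I6500_6900.Tab Pool.Agent.Strip051.G.I6500_6900.Tab.St

noncomputable def cut_B07pm_213_s1 : Cut := Cut.of [[⟨4, 0, 0, 1449551462⟩], [⟨0, 1, 0, 67108864⟩, ⟨1, 1, 0, 67108864⟩, ⟨2, 2, 0, 16777216⟩]]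

noncomputable def xt_B07pm_213_s1 : Ext := strExt6 dd false true false .u2 .s2m .u0m .pnn 2 1 3 rfl rfl gf1 vv ww ndB0q2 ndB7q3

noncomputable def f_B07pm_213_s1 : ℕ → ℕ → ℕ → ℕ → Bool := onCell 0 536870912 0 1230186008 697932185 42949674
    (rowF 0 false true false .pnn 2 1 3 (qsf 0 536870912 0 1230186008 1) ndB0q2 ndB7q3 pcB1 cut_B07pm_213_s1 xt_B07pm_213_s1)

def k0_B07pm_213_s1 : ∃ t, chk3 f_B07pm_213_s1 t 1 2 1 = true :=
  ⟨(a (b (l 3) (b (l 3) (a (l 3) (a (b (l 3) (a (l 3) (b (l 3) (l 1069790223)))) (b (a (l 3) (b (l 1071499279) (l 1071142415))) (a (b (l 1069488143) (a (l 1069702671) (l 1067633167))) (b (l 1070746639) (a (l 16761632) (l 16755832))))))))) (b (a (b (l 3) (a (l 3) (a (l 3) (b (l 3) (a (l 1073589775) (l 1073605647)))))) (b (a (a (l 3) (l 14)) (l 14)) (a (b (a (a (l 1073374735) (l 1073281551)) (a (l 1073229839) (l 14))) (a (a (l 1073568271) (l 1073495567)) (b (a (l 16775488) (l 16774184))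 (l 16773344)))) (b (b (l 14) (a (l 16771744) (l 16765976))) (a (b (l 16770128) (l 16767872)) (l 16764280)))))) (a (b (a (b (a (l 3) (l 1072049679)) (a (l 1071991311) (l 1072024079))) (b (a (l 1072754703) (b (l 1073549839) (a (l 16774704) (l 16773992)))) (a (b (l 1072629263) (l 16766768)) (b (l 16771480) (l 16768352))))) (a (b (a (b (l 1072194575) (l 1072129039)) (b (a (l 16769344) (l 16764608)) (l 16761000))) (a (b (a (l 16763864) (l 16760184)) (l 16691056)) (b (l 16757184) (l 16748576)))) (b (a (b (l 16762888) (l 16755368)) (l 16758840)) (l 16747736)))) (b (b (a (a (b (l 16775232) (l 16772952)) (b (l 16771200) (l 16767024))) (a (l 16764352) (l 16760288))) (a (l 16764496) (l 16756264))) (a (b (l 16754368) (l 16745528)) (b (l 6) (l 6))))))), by decide +kernel⟩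

def k1_B07pm_213_s1 : ∃ t, chk3 f_B07pm_213_s1 t 1 3 1 = true :=
  ⟨(b (a (b (a (a (l 3) (b (l 3) (a (l 3) (b (l 1071135247) (l 1071322639))))) (a (b (a (b (l 3) (l 1070872591)) (b (l 1070322191) (l 1070632463))) (a (b (l 1071079439) (l 1071205903)) (b (a (l 16763632) (l 16754952)) (l 16752168)))) (b (a (b (a (l 1070174223) (l 16757768)) (a (l 16756256) (l 16748176))) (b (a (l 16750344) (l 16748608)) (l 16742904))) (a (b (l 16745576) (l 16735608)) (l 16729256))))) (a (a (b (a (l 3) (b (l 3) (a (l 3) (l 1070888975)))) (a (b (l 1071245839) (l 1071637519)) (a (l 1073499663) (b (l 1071195663) (l 16763840))))) (b (a (l 1071072783) (b (l 1071298063) (a (l 16763040) (l 16756776)))) (a (b (a (l 16776552) (l 16717416)) (a (l 16758944) (l 16755672))) (b (a (l 16756520) (l 16750904)) (l 16746976))))) (a (b (a (b (a (l 16758128) (l 16753976)) (l 16750968)) (b (l 16743904) (l 16735984))) (b (l 16736400) (l 16727952)))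 (b (a (l 16724240) (l 16712272)) (a (l 16713728) (l 16705744)))))) (a (b (b (a (l 16736192) (b (l 16739072) (l 16736248))) (a (b (l 16722936) (l 16717192)) (l 16730208))) (b (a (l 16728296) (l 6)) (l 6))) (b (l 6) (l 6)))) (a (b (a (a (b (a (b (l 1071945231) (a (l 16765360) (l 16762568))) (b (a (l 16762616) (l 16759736)) (a (l 16758024) (l 16751080)))) (b (a (a (l 16759976) (l 16752896)) (l 16744184)) (l 16732936))) (b (a (l 16746944) (l 16733328)) (a (b (l 16730872) (l 16721152)) (l 16736080)))) (a (b (a (l 16727112) (l 16718824)) (l 16703064)) (l 6))) (a (l 1) (l 6))) (l 6))), by decide +kernel⟩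

theorem t2_B07pm_213_s1 : ∃ t, chk3 f_B07pm_213_s1 t 1 1 1 = true := ex3_b k0_B07pm_213_s1 k1_B07pm_213_s1

theorem c_B07pm_213_s1 : CertF 0 536870912 0 1230186008 697932185 42949674 false true false .pnn 2 1 3
    ndB0q2 ndB7q3 pcB1 cut_B07pm_213_s1 xt_B07pm_213_s1 :=
  certF0 (fam := false) (s1 := true) (s2 := false) (a := 2) (b := 1) (c := 3) (cn := .pnn) (n1 := ndB0q2) (n2 := ndB7q3) (pc := pcB1) (cut := cut_B07pm_213_s1) (xt := xt_B07pm_213_s1) (P1 := 0) (W1 := 536870912) (P2 := 0) (W2 := 1230186008) (P3 := 697932185) (W3 := 42949674)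
    rfl t2_B07pm_213_s1

theorem s_B07pm_213_s1 {κ x : ℝ} (hκ : κ * h0 = ken x) (hx : ((697932185 : ℕ) : ℝ) / S ≤ x)
    (hx' : x ≤ (((697932185 : ℕ) : ℝ) + (42949674 : ℕ)) / S)
    (H : CutB (VFD κ) PP tK tL pcB (Cut.of [[⟨0, 1, 0, 67108864⟩, ⟨1, 1, 0, 67108864⟩, ⟨2, 2, 0, 16777216⟩]]) 2 1 3 0 7 (sgb true) (sgb false) x) :
    AltB (VFD κ) PP tK tL pcB [⟨3, 0, 0, 1449551462⟩] 2 1 3 0 7 (sgb true) (sgb false) x :=
  strip_altBD (m := 1449551462) true rfl hκ (SH.κ0 hκ (SH.hx1 hx).le (SH.hx2 hx').le) (SH.hx1 hx).le (SH.hx2 hx') (covB02).cov (covB73).cov hx hx' c_B07pm_213_s1 H ((okx6 hx hx').extB (T := tt) (okx hx hx') (sideB hx hx') hκ rfl rfl (.O 2 true) (.N 3 false) (Or.inr rfl))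

noncomputable def cut_B07mm_001_s1 : Cut := Cut.of [[⟨4, 0, 0, 1449551462⟩]]

noncomputable def f_B07mm_001_s1 : ℕ → ℕ → ℕ → ℕ → Bool := onCell 0 536870912 0 536870912 697932185 42949674
    (rowF 1 false false false .up 0 0 1 (qsf 0 536870912 536870912 536870912 0) ndB0q0 ndB7q1 pcB0 cut_B07mm_001_s1 Ext.none)

def k0_B07mm_001_s1 : ∃ t, chk3 f_B07mm_001_s1 t 1 1 1 = true :=
  ⟨(l 3), by decide +kernel⟩

theorem c_B07mm_001_s1 : CertF 0 536870912 536870912 536870912 697932185 42949674 false false false .up 0 0 1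
    ndB0q0 ndB7q1 pcB0 cut_B07mm_001_s1 Ext.none :=
  certF1 (fam := false) (s1 := false) (s2 := false) (a := 0) (b := 0) (c := 1) (cn := .up) (n1 := ndB0q0) (n2 := ndB7q1) (pc := pcB0) (cut := cut_B07mm_001_s1) (xt := Ext.none) (P1 := 0) (W1 := 536870912) (P2 := 536870912) (W2 := 536870912) (P3 := 697932185) (W3 := 42949674)
    rfl (fun _ => rfl) k0_B07mm_001_s1

theorem s_B07mm_001_s1 {κ x : ℝ} (hκ : κ * h0 = ken x) (hx : ((697932185 : ℕ) : ℝ) / S ≤ x)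
    (hx' : x ≤ (((697932185 : ℕ) : ℝ) + (42949674 : ℕ)) / S) :
    AltB (VFD κ) PP tK tL pcB [⟨3, 0, 0, 1449551462⟩] 0 0 1 0 7 (sgb false) (sgb false) x :=
  strip_altBD (m := 1449551462) true rfl hκ (SH.κ0 hκ (SH.hx1 hx).le (SH.hx2 hx').le) (SH.hx1 hx).le (SH.hx2 hx') (covB00).cov (covB71).cov hx hx' c_B07mm_001_s1 cutB_nil (noExt_B)

noncomputable def cut_B07mm_011_s1 : Cut := Cut.of [[⟨4, 0, 0, 1449551462⟩]]

noncomputable def f_B07mm_011_s1 : ℕ → ℕ → ℕ → ℕ → Bool := onCell 0 536870912 536870912 536870912 697932185 42949674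
    (rowF 1 false false false .pnn 0 1 1 (qsf 0 536870912 536870912 536870912 1) ndB0q0 ndB7q1 pcB1 cut_B07mm_011_s1 Ext.none)

def k0_B07mm_011_s1 : ∃ t, chk3 f_B07mm_011_s1 t 1 1 1 = true :=
  ⟨(l 5), by decide +kernel⟩

theorem c_B07mm_011_s1 : CertF 0 536870912 536870912 536870912 697932185 42949674 false false false .pnn 0 1 1
    ndB0q0 ndB7q1 pcB1 cut_B07mm_011_s1 Ext.none :=
  certF1 (fam := false) (s1 := false) (s2 := false) (a := 0) (b := 1) (c := 1) (cn := .pnn) (n1 := ndB0q0) (n2 := ndB7q1) (pc := pcB1) (cut := cut_B07mm_011_s1) (xt := Ext.none) (P1 := 0) (W1 := 536870912) (P2 := 536870912) (W2 := 536870912) (P3 := 697932185) (W3 := 42949674)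
    rfl (fun _ => rfl) k0_B07mm_011_s1

theorem s_B07mm_011_s1 {κ x : ℝ} (hκ : κ * h0 = ken x) (hx : ((697932185 : ℕ) : ℝ) / S ≤ x)
    (hx' : x ≤ (((697932185 : ℕ) : ℝ) + (42949674 : ℕ)) / S) :
    AltB (VFD κ) PP tK tL pcB [⟨3, 0, 0, 1449551462⟩] 0 1 1 0 7 (sgb false) (sgb false) x :=
  strip_altBD (m := 1449551462) true rfl hκ (SH.κ0 hκ (SH.hx1 hx).le (SH.hx2 hx').le) (SH.hx1 hx).le (SH.hx2 hx') (covB00).cov (covB71).cov hx hx' c_B07mm_011_s1 cutB_nil (noExt_B)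

noncomputable def cut_B07mm_012_s1 : Cut := Cut.of [[⟨4, 0, 0, 1449551462⟩]]

noncomputable def f_B07mm_012_s1 : ℕ → ℕ → ℕ → ℕ → Bool := onCell 0 536870912 1073741824 536870912 697932185 42949674
    (rowF 0 false false false .pnp 0 1 2 (qsf 0 536870912 1073741824 536870912 1) ndB0q0 ndB7q2 pcB1 cut_B07mm_012_s1 Ext.none)

def k0_B07mm_012_s1 : ∃ t, chk3 f_B07mm_012_s1 t 1 1 1 = true :=
  ⟨(l 5), by decide +kernel⟩

theorem c_B07mm_012_s1 : CertF 0 536870912 1073741824 536870912 697932185 42949674 false false false .pnp 0 1 2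
    ndB0q0 ndB7q2 pcB1 cut_B07mm_012_s1 Ext.none :=
  certF0 (fam := false) (s1 := false) (s2 := false) (a := 0) (b := 1) (c := 2) (cn := .pnp) (n1 := ndB0q0) (n2 := ndB7q2) (pc := pcB1) (cut := cut_B07mm_012_s1) (xt := Ext.none) (P1 := 0) (W1 := 536870912) (P2 := 1073741824) (W2 := 536870912) (P3 := 697932185) (W3 := 42949674)
    rfl k0_B07mm_012_s1

theorem s_B07mm_012_s1 {κ x : ℝ} (hκ : κ * h0 = ken x) (hx : ((697932185 : ℕ) : ℝ) / S ≤ x)
    (hx' : x ≤ (((697932185 : ℕ) : ℝ) + (42949674 : ℕ)) / S) :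
    AltB (VFD κ) PP tK tL pcB [⟨3, 0, 0, 1449551462⟩] 0 1 2 0 7 (sgb false) (sgb false) x :=
  strip_altBD (m := 1449551462) true rfl hκ (SH.κ0 hκ (SH.hx1 hx).le (SH.hx2 hx').le) (SH.hx1 hx).le (SH.hx2 hx') (covB00).cov (covB72).cov hx hx' c_B07mm_012_s1 cutB_nil (noExt_B)

noncomputable def cut_B07mm_022_s1 : Cut := Cut.of [[⟨4, 0, 0, 1449551462⟩]]

noncomputable def f_B07mm_022_s1 : ℕ → ℕ → ℕ → ℕ → Bool := onCell 0 536870912 1073741824 536870912 697932185 42949674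
    (rowF 0 false false false .pp 0 2 2 (qsf 0 536870912 1073741824 536870912 2) ndB0q0 ndB7q2 pcB2 cut_B07mm_022_s1 Ext.none)

def k0_B07mm_022_s1 : ∃ t, chk3 f_B07mm_022_s1 t 1 1 1 = true :=
  ⟨(l 5), by decide +kernel⟩

theorem c_B07mm_022_s1 : CertF 0 536870912 1073741824 536870912 697932185 42949674 false false false .pp 0 2 2
    ndB0q0 ndB7q2 pcB2 cut_B07mm_022_s1 Ext.none :=
  certF0 (fam := false) (s1 := false) (s2 := false) (a := 0) (b := 2) (c := 2) (cn := .pp) (n1 := ndB0q0) (n2 := ndB7q2) (pc := pcB2) (cut := cut_B07mm_022_s1) (xt := Ext.none) (P1 := 0) (W1 := 536870912) (P2 := 1073741824) (W2 := 536870912) (P3 := 697932185) (W3 := 42949674)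
    rfl k0_B07mm_022_s1

theorem s_B07mm_022_s1 {κ x : ℝ} (hκ : κ * h0 = ken x) (hx : ((697932185 : ℕ) : ℝ) / S ≤ x)
    (hx' : x ≤ (((697932185 : ℕ) : ℝ) + (42949674 : ℕ)) / S) :
    AltB (VFD κ) PP tK tL pcB [⟨3, 0, 0, 1449551462⟩] 0 2 2 0 7 (sgb false) (sgb false) x :=
  strip_altBD (m := 1449551462) true rfl hκ (SH.κ0 hκ (SH.hx1 hx).le (SH.hx2 hx').le) (SH.hx1 hx).le (SH.hx2 hx') (covB00).cov (covB72).cov hx hx' c_B07mm_022_s1 cutB_nil (noExt_B)

noncomputable def cut_B07mm_023_s1 : Cut := Cut.of [[⟨4, 0, 0, 1449551462⟩]]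

noncomputable def f_B07mm_023_s1 : ℕ → ℕ → ℕ → ℕ → Bool := onCell 0 536870912 0 1230186008 697932185 42949674
    (rowF 0 false false false .up 0 2 3 (qsf 0 536870912 0 1230186008 2) ndB0q0 ndB7q3 pcB2 cut_B07mm_023_s1 Ext.none)

def k0_B07mm_023_s1 : ∃ t, chk3 f_B07mm_023_s1 t 1 1 1 = true :=
  ⟨(l 5), by decide +kernel⟩

theorem c_B07mm_023_s1 : CertF 0 536870912 0 1230186008 697932185 42949674 false false false .up 0 2 3
    ndB0q0 ndB7q3 pcB2 cut_B07mm_023_s1 Ext.none :=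
  certF0 (fam := false) (s1 := false) (s2 := false) (a := 0) (b := 2) (c := 3) (cn := .up) (n1 := ndB0q0) (n2 := ndB7q3) (pc := pcB2) (cut := cut_B07mm_023_s1) (xt := Ext.none) (P1 := 0) (W1 := 536870912) (P2 := 0) (W2 := 1230186008) (P3 := 697932185) (W3 := 42949674)
    rfl k0_B07mm_023_s1

theorem s_B07mm_023_s1 {κ x : ℝ} (hκ : κ * h0 = ken x) (hx : ((697932185 : ℕ) : ℝ) / S ≤ x)
    (hx' : x ≤ (((697932185 : ℕ) : ℝ) + (42949674 : ℕ)) / S) :
    AltB (VFD κ) PP tK tL pcB [⟨3, 0, 0, 1449551462⟩] 0 2 3 0 7 (sgb false) (sgb false) x :=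
  strip_altBD (m := 1449551462) true rfl hκ (SH.κ0 hκ (SH.hx1 hx).le (SH.hx2 hx').le) (SH.hx1 hx).le (SH.hx2 hx') (covB00).cov (covB73).cov hx hx' c_B07mm_023_s1 cutB_nil (noExt_B)

noncomputable def cut_B07mm_033_s1 : Cut := Cut.of [[⟨4, 0, 0, 1449551462⟩]]

noncomputable def f_B07mm_033_s1 : ℕ → ℕ → ℕ → ℕ → Bool := onCell 0 536870912 0 1230186008 697932185 42949674
    (rowF 0 false false false .pnn 0 3 3 (qsf 0 536870912 0 1230186008 3) ndB0q0 ndB7q3 pcB3 cut_B07mm_033_s1 Ext.none)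

def k0_B07mm_033_s1 : ∃ t, chk3 f_B07mm_033_s1 t 1 1 1 = true :=
  ⟨(l 5), by decide +kernel⟩

theorem c_B07mm_033_s1 : CertF 0 536870912 0 1230186008 697932185 42949674 false false false .pnn 0 3 3
    ndB0q0 ndB7q3 pcB3 cut_B07mm_033_s1 Ext.none :=
  certF0 (fam := false) (s1 := false) (s2 := false) (a := 0) (b := 3) (c := 3) (cn := .pnn) (n1 := ndB0q0) (n2 := ndB7q3) (pc := pcB3) (cut := cut_B07mm_033_s1) (xt := Ext.none) (P1 := 0) (W1 := 536870912) (P2 := 0) (W2 := 1230186008) (P3 := 697932185) (W3 := 42949674)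
    rfl k0_B07mm_033_s1

theorem s_B07mm_033_s1 {κ x : ℝ} (hκ : κ * h0 = ken x) (hx : ((697932185 : ℕ) : ℝ) / S ≤ x)
    (hx' : x ≤ (((697932185 : ℕ) : ℝ) + (42949674 : ℕ)) / S) :
    AltB (VFD κ) PP tK tL pcB [⟨3, 0, 0, 1449551462⟩] 0 3 3 0 7 (sgb false) (sgb false) x :=
  strip_altBD (m := 1449551462) true rfl hκ (SH.κ0 hκ (SH.hx1 hx).le (SH.hx2 hx').le) (SH.hx1 hx).le (SH.hx2 hx') (covB00).cov (covB73).cov hx hx' c_B07mm_033_s1 cutB_nil (noExt_B)

noncomputable def cut_B07mm_101_s1 : Cut := Cut.of [[⟨4, 0, 0, 1449551462⟩], [⟨0, 1, 0, 67108864⟩, ⟨1, 0, 0, 67108864⟩, ⟨2, 1, 0, 67108864⟩]]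

noncomputable def f_B07mm_101_s1 : ℕ → ℕ → ℕ → ℕ → Bool := onCell 536870912 536870912 0 536870912 697932185 42949674
    (rowF 1 false false false .npn 1 0 1 (qsf 536870912 536870912 536870912 536870912 0) ndB0q1 ndB7q1 pcB0 cut_B07mm_101_s1 Ext.none)

def k0_B07mm_101_s1 : ∃ t, chk3 f_B07mm_101_s1 t 1 1 1 = true :=
  ⟨(a (l 3) (b (a (l 3) (b (a (l 3) (b (a (l 3) (b (l 14) (l 3))) (l 3))) (l 3))) (l 3))), by decide +kernel⟩

theorem c_B07mm_101_s1 : CertF 536870912 536870912 536870912 536870912 697932185 42949674 false false false .npn 1 0 1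
    ndB0q1 ndB7q1 pcB0 cut_B07mm_101_s1 Ext.none :=
  certF1 (fam := false) (s1 := false) (s2 := false) (a := 1) (b := 0) (c := 1) (cn := .npn) (n1 := ndB0q1) (n2 := ndB7q1) (pc := pcB0) (cut := cut_B07mm_101_s1) (xt := Ext.none) (P1 := 536870912) (W1 := 536870912) (P2 := 536870912) (W2 := 536870912) (P3 := 697932185) (W3 := 42949674)
    rfl (fun _ => rfl) k0_B07mm_101_s1

theorem s_B07mm_101_s1 {κ x : ℝ} (hκ : κ * h0 = ken x) (hx : ((697932185 : ℕ) : ℝ) / S ≤ x)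
    (hx' : x ≤ (((697932185 : ℕ) : ℝ) + (42949674 : ℕ)) / S)
    (H : CutB (VFD κ) PP tK tL pcB (Cut.of [[⟨0, 1, 0, 67108864⟩, ⟨1, 0, 0, 67108864⟩, ⟨2, 1, 0, 67108864⟩]]) 1 0 1 0 7 (sgb false) (sgb false) x) :
    AltB (VFD κ) PP tK tL pcB [⟨3, 0, 0, 1449551462⟩] 1 0 1 0 7 (sgb false) (sgb false) x :=
  strip_altBD (m := 1449551462) true rfl hκ (SH.κ0 hκ (SH.hx1 hx).le (SH.hx2 hx').le) (SH.hx1 hx).le (SH.hx2 hx') (covB01).cov (covB71).cov hx hx' c_B07mm_101_s1 H (noExt_B)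

noncomputable def cut_B07mm_102_s1 : Cut := Cut.of [[⟨4, 0, 0, 1449551462⟩], [⟨0, 1, 0, 67108864⟩, ⟨1, 0, 0, 67108864⟩, ⟨2, 1, 0, 67108864⟩]]

noncomputable def f_B07mm_102_s1 : ℕ → ℕ → ℕ → ℕ → Bool := onCell 536870912 536870912 0 536870912 697932185 42949674
    (rowF 1 false false false .npp 1 0 2 (qsf 536870912 536870912 1073741824 536870912 0) ndB0q1 ndB7q2 pcB0 cut_B07mm_102_s1 Ext.none)

def k0_B07mm_102_s1 : ∃ t, chk3 f_B07mm_102_s1 t 1 1 1 = true :=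
  ⟨(a (l 3) (b (a (l 3) (a (l 3) (a (l 3) (b (b (b (l 14) (l 3)) (l 3)) (l 3))))) (l 3))), by decide +kernel⟩

theorem c_B07mm_102_s1 : CertF 536870912 536870912 1073741824 536870912 697932185 42949674 false false false .npp 1 0 2
    ndB0q1 ndB7q2 pcB0 cut_B07mm_102_s1 Ext.none :=
  certF1 (fam := false) (s1 := false) (s2 := false) (a := 1) (b := 0) (c := 2) (cn := .npp) (n1 := ndB0q1) (n2 := ndB7q2) (pc := pcB0) (cut := cut_B07mm_102_s1) (xt := Ext.none) (P1 := 536870912) (W1 := 536870912) (P2 := 1073741824) (W2 := 536870912) (P3 := 697932185) (W3 := 42949674)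
    rfl (fun _ => rfl) k0_B07mm_102_s1

theorem s_B07mm_102_s1 {κ x : ℝ} (hκ : κ * h0 = ken x) (hx : ((697932185 : ℕ) : ℝ) / S ≤ x)
    (hx' : x ≤ (((697932185 : ℕ) : ℝ) + (42949674 : ℕ)) / S)
    (H : CutB (VFD κ) PP tK tL pcB (Cut.of [[⟨0, 1, 0, 67108864⟩, ⟨1, 0, 0, 67108864⟩, ⟨2, 1, 0, 67108864⟩]]) 1 0 2 0 7 (sgb false) (sgb false) x) :
    AltB (VFD κ) PP tK tL pcB [⟨3, 0, 0, 1449551462⟩] 1 0 2 0 7 (sgb false) (sgb false) x :=
  strip_altBD (m := 1449551462) true rfl hκ (SH.κ0 hκ (SH.hx1 hx).le (SH.hx2 hx').le) (SH.hx1 hx).le (SH.hx2 hx') (covB01).cov (covB72).cov hx hx' c_B07mm_102_s1 H (noExt_B)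

noncomputable def cut_B07mm_112_s1 : Cut := Cut.of [[⟨4, 0, 0, 1449551462⟩]]

noncomputable def f_B07mm_112_s1 : ℕ → ℕ → ℕ → ℕ → Bool := onCell 536870912 536870912 1073741824 536870912 697932185 42949674
    (rowF 2 false false false .dn 1 1 2 (qsf 536870912 536870912 1073741824 536870912 1) ndB0q1 ndB7q2 pcB1 cut_B07mm_112_s1 Ext.none)

def k0_B07mm_112_s1 : ∃ t, chk3 f_B07mm_112_s1 t 1 1 1 = true :=
  ⟨(a (l 3) (l 5)), by decide +kernel⟩

theorem c_B07mm_112_s1 : CertF 536870912 536870912 1073741824 536870912 697932185 42949674 false false false .dn 1 1 2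
    ndB0q1 ndB7q2 pcB1 cut_B07mm_112_s1 Ext.none :=
  certF2 (fam := false) (s1 := false) (s2 := false) (a := 1) (b := 1) (c := 2) (cn := .dn) (n1 := ndB0q1) (n2 := ndB7q2) (pc := pcB1) (cut := cut_B07mm_112_s1) (xt := Ext.none) (P1 := 536870912) (W1 := 536870912) (P2 := 1073741824) (W2 := 536870912) (P3 := 697932185) (W3 := 42949674)
    rfl (fun _ => rfl) k0_B07mm_112_s1

theorem s_B07mm_112_s1 {κ x : ℝ} (hκ : κ * h0 = ken x) (hx : ((697932185 : ℕ) : ℝ) / S ≤ x)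
    (hx' : x ≤ (((697932185 : ℕ) : ℝ) + (42949674 : ℕ)) / S) :
    AltB (VFD κ) PP tK tL pcB [⟨3, 0, 0, 1449551462⟩] 1 1 2 0 7 (sgb false) (sgb false) x :=
  strip_altBD (m := 1449551462) true rfl hκ (SH.κ0 hκ (SH.hx1 hx).le (SH.hx2 hx').le) (SH.hx1 hx).le (SH.hx2 hx') (covB01).cov (covB72).cov hx hx' c_B07mm_112_s1 cutB_nil (noExt_B)

noncomputable def cut_B07mm_113_s1 : Cut := Cut.of [[⟨4, 0, 0, 1449551462⟩]]

noncomputable def f_B07mm_113_s1 : ℕ → ℕ → ℕ → ℕ → Bool := onCell 536870912 536870912 0 1230186008 697932185 42949674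
    (rowF 0 false false false .nn 1 1 3 (qsf 536870912 536870912 0 1230186008 1) ndB0q1 ndB7q3 pcB1 cut_B07mm_113_s1 Ext.none)

def k0_B07mm_113_s1 : ∃ t, chk3 f_B07mm_113_s1 t 1 1 1 = true :=
  ⟨(b (l 5) (a (l 5) (b (a (l 5) (l 3)) (l 3)))), by decide +kernel⟩

theorem c_B07mm_113_s1 : CertF 536870912 536870912 0 1230186008 697932185 42949674 false false false .nn 1 1 3
    ndB0q1 ndB7q3 pcB1 cut_B07mm_113_s1 Ext.none :=
  certF0 (fam := false) (s1 := false) (s2 := false) (a := 1) (b := 1) (c := 3) (cn := .nn) (n1 := ndB0q1) (n2 := ndB7q3) (pc := pcB1) (cut := cut_B07mm_113_s1) (xt := Ext.none) (P1 := 536870912) (W1 := 536870912) (P2 := 0) (W2 := 1230186008) (P3 := 697932185) (W3 := 42949674)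
    rfl k0_B07mm_113_s1

theorem s_B07mm_113_s1 {κ x : ℝ} (hκ : κ * h0 = ken x) (hx : ((697932185 : ℕ) : ℝ) / S ≤ x)
    (hx' : x ≤ (((697932185 : ℕ) : ℝ) + (42949674 : ℕ)) / S) :
    AltB (VFD κ) PP tK tL pcB [⟨3, 0, 0, 1449551462⟩] 1 1 3 0 7 (sgb false) (sgb false) x :=
  strip_altBD (m := 1449551462) true rfl hκ (SH.κ0 hκ (SH.hx1 hx).le (SH.hx2 hx').le) (SH.hx1 hx).le (SH.hx2 hx') (covB01).cov (covB73).cov hx hx' c_B07mm_113_s1 cutB_nil (noExt_B)

noncomputable def cut_B07mm_123_s1 : Cut := Cut.of [[⟨4, 0, 0, 1449551462⟩]]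

noncomputable def f_B07mm_123_s1 : ℕ → ℕ → ℕ → ℕ → Bool := onCell 1073741824 536870912 0 1230186008 697932185 42949674
    (rowF 2 false false false .npn 1 2 3 (qsf 536870912 536870912 0 1230186008 2) ndB0q1 ndB7q3 pcB2 cut_B07mm_123_s1 Ext.none)

def k0_B07mm_123_s1 : ∃ t, chk3 f_B07mm_123_s1 t 1 1 1 = true :=
  ⟨(b (l 5) (l 5)), by decide +kernel⟩

theorem c_B07mm_123_s1 : CertF 536870912 536870912 0 1230186008 697932185 42949674 false false false .npn 1 2 3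
    ndB0q1 ndB7q3 pcB2 cut_B07mm_123_s1 Ext.none :=
  certF2 (fam := false) (s1 := false) (s2 := false) (a := 1) (b := 2) (c := 3) (cn := .npn) (n1 := ndB0q1) (n2 := ndB7q3) (pc := pcB2) (cut := cut_B07mm_123_s1) (xt := Ext.none) (P1 := 536870912) (W1 := 536870912) (P2 := 0) (W2 := 1230186008) (P3 := 697932185) (W3 := 42949674)
    rfl (fun _ => rfl) k0_B07mm_123_s1

theorem s_B07mm_123_s1 {κ x : ℝ} (hκ : κ * h0 = ken x) (hx : ((697932185 : ℕ) : ℝ) / S ≤ x)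
    (hx' : x ≤ (((697932185 : ℕ) : ℝ) + (42949674 : ℕ)) / S) :
    AltB (VFD κ) PP tK tL pcB [⟨3, 0, 0, 1449551462⟩] 1 2 3 0 7 (sgb false) (sgb false) x :=
  strip_altBD (m := 1449551462) true rfl hκ (SH.κ0 hκ (SH.hx1 hx).le (SH.hx2 hx').le) (SH.hx1 hx).le (SH.hx2 hx') (covB01).cov (covB73).cov hx hx' c_B07mm_123_s1 cutB_nil (noExt_B)

noncomputable def cut_B07mm_133_s1 : Cut := Cut.of [[⟨4, 0, 0, 1449551462⟩]]

noncomputable def f_B07mm_133_s1 : ℕ → ℕ → ℕ → ℕ → Bool := onCell 1610612736 536870912 0 1230186008 697932185 42949674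
    (rowF 2 false false false .dn 1 3 3 (qsf 536870912 536870912 0 1230186008 3) ndB0q1 ndB7q3 pcB3 cut_B07mm_133_s1 Ext.none)

def k0_B07mm_133_s1 : ∃ t, chk3 f_B07mm_133_s1 t 1 1 1 = true :=
  ⟨(l 5), by decide +kernel⟩

theorem c_B07mm_133_s1 : CertF 536870912 536870912 0 1230186008 697932185 42949674 false false false .dn 1 3 3
    ndB0q1 ndB7q3 pcB3 cut_B07mm_133_s1 Ext.none :=
  certF2 (fam := false) (s1 := false) (s2 := false) (a := 1) (b := 3) (c := 3) (cn := .dn) (n1 := ndB0q1) (n2 := ndB7q3) (pc := pcB3) (cut := cut_B07mm_133_s1) (xt := Ext.none) (P1 := 536870912) (W1 := 536870912) (P2 := 0) (W2 := 1230186008) (P3 := 697932185) (W3 := 42949674)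
    rfl (fun _ => rfl) k0_B07mm_133_s1

theorem s_B07mm_133_s1 {κ x : ℝ} (hκ : κ * h0 = ken x) (hx : ((697932185 : ℕ) : ℝ) / S ≤ x)
    (hx' : x ≤ (((697932185 : ℕ) : ℝ) + (42949674 : ℕ)) / S) :
    AltB (VFD κ) PP tK tL pcB [⟨3, 0, 0, 1449551462⟩] 1 3 3 0 7 (sgb false) (sgb false) x :=
  strip_altBD (m := 1449551462) true rfl hκ (SH.κ0 hκ (SH.hx1 hx).le (SH.hx2 hx').le) (SH.hx1 hx).le (SH.hx2 hx') (covB01).cov (covB73).cov hx hx' c_B07mm_133_s1 cutB_nil (noExt_B)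

noncomputable def cut_B07mm_202_s1 : Cut := Cut.of [[⟨4, 0, 0, 1449551462⟩], [⟨0, 1, 0, 53687091⟩, ⟨1, 0, 0, 53687091⟩, ⟨2, 1, 0, 53687091⟩]]

noncomputable def xt_B07mm_202_s1 : Ext := strExt6 dd false false false .u2 .s2m .u0m .pp 2 0 2 rfl rfl gf0 vv ww ndB0q2 ndB7q2

noncomputable def f_B07mm_202_s1 : ℕ → ℕ → ℕ → ℕ → Bool := onCell 0 536870912 0 536870912 697932185 42949674
    (rowF 1 false false false .pp 2 0 2 (qsf 0 536870912 1073741824 536870912 0) ndB0q2 ndB7q2 pcB0 cut_B07mm_202_s1 xt_B07mm_202_s1)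

def k0_B07mm_202_s1 : ∃ t, chk3 f_B07mm_202_s1 t 2 1 1 = true :=
  ⟨(b (a (a (l 6) (b (l 6) (b (l 6) (a (l 6) (b (l 16586392) (l 16615152)))))) (b (b (b (l 6) (a (l 6) (l 16467584))) (a (l 16491432) (b (l 16511664) (a (l 16537552) (l 16561272))))) (b (a (b (l 16544816) (a (l 16608616) (b (l 16575048) (l 16591480)))) (b (a (l 16571216) (l 16636384)) (a (b (l 16594096) (l 16611008)) (b (l 16619000) (l 16635440))))) (a (b (a (b (l 16590680) (l 16606600)) (l 16616648)) (a (l 16631320) (l 16648048))) (a (b (l 16635056) (a (l 16661296) (l 16671864))) (b (b (l 16651576) (l 16667760)) (l 16691552))))))) (b (b (a (b (a (l 6) (a (l 16633952) (l 16646224))) (a (a (l 6) (l 16654552)) (l 16665512))) (a (b (a (l 16658264) (l 16678816)) (a (l 16690976) (l 16707760))) (b (a (l 16697608) (a (b (l 16706864) (l 16721656)) (b (l 16720992) (l 16736272)))) (a (a (b (l 16714200) (l 16727800)) (b (l 16724016) (l 16738088)))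 (a (b (l 16736400) (l 16771464)) (b (l 16771840) (l 1064961039))))))) (b (a (a (a (l 16674976) (l 16682024)) (a (l 16690504) (l 16703832))) (a (a (l 16718096) (a (l 16729736) (b (l 16731656) (l 16744168)))) (a (a (b (l 16740736) (l 16753648)) (l 1066705935)) (l 1065685007)))) (a (a (l 149887431271) (a (l 16717656) (l 16729408))) (a (a (b (l 16737320) (l 206259074071)) (b (a (l 16748408) (l 16757008)) (a (l 16759624) (l 234176382327)))) (a (b (a (l 1068446223) (l 1067842063)) (a (l 1069543951) (l 1068898831))) (b (l 1066763279) (l 3))))))) (a (l 2) (a (l 2) (a (l 2) (l 3)))))), by decide +kernel⟩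

def k1_B07mm_202_s1 : ∃ t, chk3 f_B07mm_202_s1 t 6 4 1 = true :=
  ⟨(b (a (b (a (l 16460904) (l 16495080)) (l 16693480)) (b (a (l 16449728) (b (l 16564344) (l 16591952))) (a (l 16586224) (b (l 16618424) (l 16641912))))) (a (b (a (l 16555040) (l 16589632)) (a (b (l 16498880) (l 16600080)) (b (l 16616800) (l 16642824)))) (b (a (b (l 16618336) (l 16636464)) (b (l 16702440) (a (l 16665056) (l 16772248)))) (a (b (a (l 16642504) (l 16662064)) (l 16753536)) (b (a (l 16767672) (a (l 16698592) (l 16708912))) (a (l 16615608) (l 16678688))))))), by decide +kernel⟩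

def k2_B07mm_202_s1 : ∃ t, chk3 f_B07mm_202_s1 t 14 8 1 = true :=
  ⟨(b (a (b (l 16568648) (l 16639160)) (b (b (l 16651216) (l 16666432)) (a (l 16676880) (b (l 16694088) (l 16750224))))) (a (b (a (l 16655224) (l 16676656)) (a (l 16717256) (b (l 16690720) (l 16698312)))) (a (b (b (l 16693792) (l 16702760)) (b (a (l 16705360) (l 16715592)) (l 16740904))) (b (a (b (l 16711040) (l 16716992)) (b (l 16720032) (l 16729624))) (a (b (l 16727208) (l 16692344)) (b (b (l 16734264) (l 16738608)) (l 16724536))))))), by decide +kernel⟩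

def k3_B07mm_202_s1 : ∃ t, chk3 f_B07mm_202_s1 t 15 8 1 = true :=
  ⟨(b (a (b (a (b (l 14) (l 16705200)) (l 14)) (a (b (a (l 16714192) (l 16748024)) (a (l 16744944) (b (l 16732032) (l 16735824)))) (b (a (b (l 14) (l 16738864)) (l 14)) (a (b (l 16742656) (a (l 16743848) (l 16728176))) (b (a (l 16750736) (l 14)) (a (l 16754608) (l 16760464))))))) (b (l 14) (a (b (l 14) (a (a (b (l 14) (b (l 14) (c (l 16777944) (l 16767320)))) (l 14)) (l 14))) (l 14)))) (a (a (b (a (b (l 16730744) (a (l 16694288) (l 16720480))) (b (b (l 16740632) (l 16722560)) (a (l 16768040) (l 16731920)))) (a (a (b (l 16744800) (b (l 16751616) (l 16735336))) (b (l 16750448) (a (l 16758224) (l 16771392)))) (b (b (a (l 16753880) (l 16749232)) (b (l 16760200) (l 16767584))) (a (b (a (l 16761464) (l 16764392)) (l 1060660751)) (l 1060540943))))) (b (a (b (b (l 16750352) (l 16744376)) (a (b (l 16756408) (a (l 16759504) (l 16751872))) (b (l 16762272)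 (a (l 16775624) (l 1060172303))))) (b (a (b (l 16759080) (b (l 16762480) (a (l 16763224) (l 16766024)))) (b (b (l 16774352) (l 16766000)) (a (b (l 16766704) (l 16769040)) (l 1059990031)))) (a (b (a (b (l 16765352) (l 16767688)) (l 1060072975)) (l 1060096527)) (l 1059978767)))) (a (b (a (b (a (l 16753376) (l 16766864)) (l 1060354575)) (l 1060236815)) (l 1060399631)) (a (l 1060193807) (l 3))))) (a (b (a (b (a (b (a (b (l 16778568) (l 16770424)) (l 1059925007)) (l 1059893775)) (l 1059774479)) (a (l 1059876367) (l 3))) (l 3)) (l 3)) (l 3)))), by decide +kernel⟩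

def k4_B07mm_202_s1 : ∃ t, chk3 f_B07mm_202_s1 t 7 9 1 = true :=
  ⟨(a (b (a (a (b (b (l 16686344) (l 16694760)) (a (l 16618592) (l 16712592))) (b (b (l 16708072) (l 16673248)) (a (l 16722952) (l 16733848)))) (a (b (b (a (l 16721960) (l 16732528)) (l 16736352)) (a (b (l 16698128) (l 16749320)) (b (a (l 16748336) (l 16753728)) (a (l 16757104) (l 16762392))))) (b (a (b (l 16722624) (b (l 16729632) (l 16755104))) (b (a (l 16752064) (l 16757504)) (b (l 16771840) (l 16771120)))) (a (b (a (l 16758912) (l 16764336)) (l 1061877263)) (l 1061640719))))) (a (a (b (l 16725064) (b (a (l 16732184) (l 16742672)) (a (l 16740208) (l 16750448)))) (b (b (a (l 16736808) (l 16747608)) (a (l 16745248) (l 16776424))) (a (b (l 16752896) (l 1061751311)) (l 1061708303)))) (a (b (a (b (l 16768328) (l 1062029327)) (l 1062016527)) (l 1061457935)) (a (l 1063113743) (l 3))))) (a (b (a (b (a (b (a (b (l 16750208) (l 16760032)) (l 1060921871))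 (l 1061178383)) (a (l 1060936207) (l 1060873743))) (a (l 1061506063) (l 3))) (l 3)) (l 3)) (l 3))), by decide +kernel⟩

def k5_B07mm_202_s1 : ∃ t, chk3 f_B07mm_202_s1 t 3 5 1 = true :=
  ⟨(a (b (a (b (a (b (l 16616408) (l 16633064)) (b (l 16649680) (l 16666496))) (a (b (l 16649200) (l 16666072)) (b (l 16683208) (l 16700160)))) (b (a (b (a (l 16676408) (l 16695656)) (a (l 16693136) (l 16712424))) (a (b (l 16716184) (b (l 16728528) (l 16778800))) (b (b (a (l 16727592) (l 16737880)) (a (l 16735704) (l 16787888))) (a (b (l 16743896) (l 16752544)) (l 1061751311))))) (a (a (b (l 16709952) (b (l 16722776) (l 16689400))) (b (a (l 16682344) (b (l 16729912) (l 16738416))) (a (l 16783416) (l 16772464)))) (a (b (a (b (l 16740064) (l 16748752)) (l 16770712)) (l 1061989391)) (l 1061853199))))) (a (b (a (b (l 16682768) (l 16698448)) (b (a (l 16708168) (a (l 16721080) (l 16729920))) (a (l 16723776) (b (l 16737440) (l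 16745592))))) (a (b (a (l 16706088) (l 16722584)) (a (l 16721488) (b (l 16734520) (l 16742552)))) (a (b (b (l 16735832) (l 16744032)) (l 1063884815)) (l 1063321615)))) (a (b (b (a (a (l 16739216) (l 16769768)) (l 1062312463)) (l 1062432271)) (a (l 1062822415) (l 3))) (b (a (b (l 1061909007) (l 3)) (l 3)) (l 3))))) (b (a (a (b (a (b (a (b (a (l 16745512) (l 16750736)) (l 1061699087)) (l 1061634063)) (l 1061600271)) (b (l 1061453327) (l 1061436431))) (a (l 1061707279) (l 3))) (l 3)) (l 3)) (l 3))), by decide +kernel⟩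

def k6_B07mm_202_s1 : ∃ t, chk3 f_B07mm_202_s1 t 3 3 1 = true :=
  ⟨(b (a (a (b (a (b (a (b (l 16773888) (l 1064644111)) (l 1064309775)) (b (l 1064551439) (l 1064477199))) (b (a (l 1064057359) (b (l 1063737871) (l 3))) (l 3))) (l 3)) (l 3)) (l 3)) (l 3)), by decide +kernel⟩

theorem t7_B07mm_202_s1 : ∃ t, chk3 f_B07mm_202_s1 t 7 8 1 = true := ex3_a k2_B07mm_202_s1 k3_B07mm_202_s1

theorem t8_B07mm_202_s1 : ∃ t, chk3 f_B07mm_202_s1 t 7 4 1 = true := ex3_b t7_B07mm_202_s1 k4_B07mm_202_s1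

theorem t9_B07mm_202_s1 : ∃ t, chk3 f_B07mm_202_s1 t 3 4 1 = true := ex3_a k1_B07mm_202_s1 t8_B07mm_202_s1

theorem t10_B07mm_202_s1 : ∃ t, chk3 f_B07mm_202_s1 t 3 2 1 = true := ex3_b t9_B07mm_202_s1 k5_B07mm_202_s1

theorem t11_B07mm_202_s1 : ∃ t, chk3 f_B07mm_202_s1 t 3 1 1 = true := ex3_b t10_B07mm_202_s1 k6_B07mm_202_s1

theorem t12_B07mm_202_s1 : ∃ t, chk3 f_B07mm_202_s1 t 1 1 1 = true := ex3_a k0_B07mm_202_s1 t11_B07mm_202_s1

theorem c_B07mm_202_s1 : CertF 0 536870912 1073741824 536870912 697932185 42949674 false false false .pp 2 0 2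
    ndB0q2 ndB7q2 pcB0 cut_B07mm_202_s1 xt_B07mm_202_s1 :=
  certF1 (fam := false) (s1 := false) (s2 := false) (a := 2) (b := 0) (c := 2) (cn := .pp) (n1 := ndB0q2) (n2 := ndB7q2) (pc := pcB0) (cut := cut_B07mm_202_s1) (xt := xt_B07mm_202_s1) (P1 := 0) (W1 := 536870912) (P2 := 1073741824) (W2 := 536870912) (P3 := 697932185) (W3 := 42949674)
    rfl (fun _ => rfl) t12_B07mm_202_s1

theorem s_B07mm_202_s1 {κ x : ℝ} (hκ : κ * h0 = ken x) (hx : ((697932185 : ℕ) : ℝ) / S ≤ x)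
    (hx' : x ≤ (((697932185 : ℕ) : ℝ) + (42949674 : ℕ)) / S)
    (H : CutB (VFD κ) PP tK tL pcB (Cut.of [[⟨0, 1, 0, 53687091⟩, ⟨1, 0, 0, 53687091⟩, ⟨2, 1, 0, 53687091⟩]]) 2 0 2 0 7 (sgb false) (sgb false) x) :
    AltB (VFD κ) PP tK tL pcB [⟨3, 0, 0, 1449551462⟩] 2 0 2 0 7 (sgb false) (sgb false) x :=
  strip_altBD (m := 1449551462) true rfl hκ (SH.κ0 hκ (SH.hx1 hx).le (SH.hx2 hx').le) (SH.hx1 hx).le (SH.hx2 hx') (covB02).cov (covB72).cov hx hx' c_B07mm_202_s1 H ((okx6 hx hx').extB (T := tt) (okx hx hx') (sideB hx hx') hκ rfl rfl (.O 2 false) (.N 2 false) (Or.inl rfl))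

noncomputable def cut_B07mm_203_s1 : Cut := Cut.of [[⟨4, 0, 0, 1449551462⟩]]

noncomputable def xt_B07mm_203_s1 : Ext := strExt6 dd false false false .u2 .s2m .u0m .up 2 0 3 rfl rfl gf0 vv ww ndB0q2 ndB7q3

noncomputable def f_B07mm_203_s1 : ℕ → ℕ → ℕ → ℕ → Bool := onCell 0 536870912 0 1230186008 697932185 42949674
    (rowF 0 false false false .up 2 0 3 (qsf 0 536870912 0 1230186008 0) ndB0q2 ndB7q3 pcB0 cut_B07mm_203_s1 xt_B07mm_203_s1)

def k0_B07mm_203_s1 : ∃ t, chk3 f_B07mm_203_s1 t 1 1 1 = true :=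
  ⟨(b (l 2) (b (l 2) (a (b (b (l 2) (b (a (l 2) (l 2)) (a (a (a (a (l 16765496) (l 16767760)) (a (l 262093643879) (l 1072515599))) (a (l 1072335375) (l 3))) (l 3)))) (a (b (a (a (b (l 16757152) (l 16744168)) (b (b (l 16765456) (l 16760392)) (l 16751176))) (b (a (a (b (l 16770032) (l 16765736)) (l 1071857679)) (b (l 1071790607) (l 1072196623))) (a (b (a (l 16760072) (l 16764744)) (a (l 16753752) (l 16758392))) (a (b (l 16769376) (l 16764088)) (l 1071364111))))) (a (a (b (l 16726304) (l 16703448)) (b (l 16734928) (l 16711224))) (a (b (l 16744272) (l 16723264)) (b (b (a (l 16757024) (l 16763576)) (a (l 16748968) (l 16755664))) (l 16736976))))) (a (b (b (l 3) (a (a (l 1071291919) (l 1071216143)) (l 3))) (b (a (a (b (l 1070931983) (l 16762992)) (l 1070776335)) (b (l 1070844431) (l 1070623247))) (a (b (a (l 16753992) (l 16762312)) (a (l 16743080) (l 16709832))) (b (l 1070300687) (a (l 16761296) (l 1069767695))))))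 (b (l 3) (b (l 3) (a (a (b (l 3) (l 1069598223)) (l 3)) (l 3))))))) (l 3)))), by decide +kernel⟩

theorem c_B07mm_203_s1 : CertF 0 536870912 0 1230186008 697932185 42949674 false false false .up 2 0 3
    ndB0q2 ndB7q3 pcB0 cut_B07mm_203_s1 xt_B07mm_203_s1 :=
  certF0 (fam := false) (s1 := false) (s2 := false) (a := 2) (b := 0) (c := 3) (cn := .up) (n1 := ndB0q2) (n2 := ndB7q3) (pc := pcB0) (cut := cut_B07mm_203_s1) (xt := xt_B07mm_203_s1) (P1 := 0) (W1 := 536870912) (P2 := 0) (W2 := 1230186008) (P3 := 697932185) (W3 := 42949674)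
    rfl k0_B07mm_203_s1

theorem s_B07mm_203_s1 {κ x : ℝ} (hκ : κ * h0 = ken x) (hx : ((697932185 : ℕ) : ℝ) / S ≤ x)
    (hx' : x ≤ (((697932185 : ℕ) : ℝ) + (42949674 : ℕ)) / S) :
    AltB (VFD κ) PP tK tL pcB [⟨3, 0, 0, 1449551462⟩] 2 0 3 0 7 (sgb false) (sgb false) x :=
  strip_altBD (m := 1449551462) true rfl hκ (SH.κ0 hκ (SH.hx1 hx).le (SH.hx2 hx').le) (SH.hx1 hx).le (SH.hx2 hx') (covB02).cov (covB73).cov hx hx' c_B07mm_203_s1 cutB_nil ((okx6 hx hx').extB (T := tt) (okx hx hx') (sideB hx hx') hκ rfl rfl (.O 2 false) (.N 3 false) (Or.inl rfl))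

noncomputable def cut_B07mm_213_s1 : Cut := Cut.of [[⟨4, 0, 0, 1449551462⟩]]

noncomputable def xt_B07mm_213_s1 : Ext := strExt6 dd false false false .u2 .s2m .u0m .pnn 2 1 3 rfl rfl gf1 vv ww ndB0q2 ndB7q3

noncomputable def f_B07mm_213_s1 : ℕ → ℕ → ℕ → ℕ → Bool := onCell 0 536870912 0 1230186008 697932185 42949674
    (rowF 0 false false false .pnn 2 1 3 (qsf 0 536870912 0 1230186008 1) ndB0q2 ndB7q3 pcB1 cut_B07mm_213_s1 xt_B07mm_213_s1)

def k0_B07mm_213_s1 : ∃ t, chk3 f_B07mm_213_s1 t 1 1 1 = true :=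
  ⟨(a (b (l 3) (a (b (b (l 3) (l 3)) (b (a (b (a (l 1071646223) (a (l 1072337935) (l 3))) (a (b (b (l 16767040) (l 16804160)) (b (l 16757984) (l 1))) (b (b (l 1072280591) (l 1072102415)) (b (l 1071106575) (l 1))))) (b (l 3) (a (b (b (l 3) (l 1072575503)) (l 1071988239)) (b (l 3) (l 3))))) (l 1))) (b (l 3) (b (l 3) (b (a (l 1) (l 3)) (l 1)))))) (b (b (l 5) (l 3)) (b (l 3) (l 3)))), by decide +kernel⟩

theorem c_B07mm_213_s1 : CertF 0 536870912 0 1230186008 697932185 42949674 false false false .pnn 2 1 3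
    ndB0q2 ndB7q3 pcB1 cut_B07mm_213_s1 xt_B07mm_213_s1 :=
  certF0 (fam := false) (s1 := false) (s2 := false) (a := 2) (b := 1) (c := 3) (cn := .pnn) (n1 := ndB0q2) (n2 := ndB7q3) (pc := pcB1) (cut := cut_B07mm_213_s1) (xt := xt_B07mm_213_s1) (P1 := 0) (W1 := 536870912) (P2 := 0) (W2 := 1230186008) (P3 := 697932185) (W3 := 42949674)
    rfl k0_B07mm_213_s1

theorem s_B07mm_213_s1 {κ x : ℝ} (hκ : κ * h0 = ken x) (hx : ((697932185 : ℕ) : ℝ) / S ≤ x)
    (hx' : x ≤ (((697932185 : ℕ) : ℝ) + (42949674 : ℕ)) / S) :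
    AltB (VFD κ) PP tK tL pcB [⟨3, 0, 0, 1449551462⟩] 2 1 3 0 7 (sgb false) (sgb false) x :=
  strip_altBD (m := 1449551462) true rfl hκ (SH.κ0 hκ (SH.hx1 hx).le (SH.hx2 hx').le) (SH.hx1 hx).le (SH.hx2 hx') (covB02).cov (covB73).cov hx hx' c_B07mm_213_s1 cutB_nil ((okx6 hx hx').extB (T := tt) (okx hx hx') (sideB hx hx') hκ rfl rfl (.O 2 false) (.N 3 false) (Or.inr rfl))

noncomputable def cut_B70pp_001_s1 : Cut := Cut.of [[⟨4, 0, 0, 1449551462⟩]]

noncomputable def xt_B70pp_001_s1 : Ext := strExt6 dd false true true .s0 .u0 .u0m .up 0 0 1 rfl rfl gf0 vv ww ndB7q0 ndB0q1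

noncomputable def f_B70pp_001_s1 : ℕ → ℕ → ℕ → ℕ → Bool := onCell 0 536870912 536870912 536870912 697932185 42949674
    (rowF 2 false true true .up 0 0 1 (qsf 0 536870912 536870912 536870912 0) ndB7q0 ndB0q1 pcB0 cut_B70pp_001_s1 xt_B70pp_001_s1)

def k0_B70pp_001_s1 : ∃ t, chk3 f_B70pp_001_s1 t 1 1 1 = true :=
  ⟨(a (b (l 3) (b (b (l 3) (l 2)) (l 2))) (b (b (l 3) (a (l 3) (b (a (l 3) (b (a (l 3) (a (l 3) (l 1060460047))) (a (b (l 3) (l 1056665103)) (a (b (l 1058375695) (l 1057851407)) (b (l 1059543567) (l 1058914831)))))) (a (b (a (l 3) (a (l 3) (l 1055181327))) (a (l 1057449487) (b (l 1058012175) (l 1057414671)))) (b (a (l 1056106511) (a (l 1057406991) (l 1058303503))) (a (b (l 1056315407) (l 1057313807)) (b (l 1057343503) (l 16751328)))))))) (b (a (a (b (b (l 3) (a (l 3) (b (l 3) (l 1053295119)))) (b (a (l 2) (l 1054457871)) (l 2))) (b (a (b (l 3) (b (l 1055408143) (l 1053961231))) (b (b (b (l 3)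 (l 1059961871)) (l 1058392079)) (l 1056258063))) (b (a (a (l 1054649359) (b (l 1054634511) (l 16770088))) (a (b (l 16778144) (l 16664664)) (b (l 16673592) (l 16643280)))) (a (a (l 2) (l 157403655527)) (b (l 16626008) (l 16597000)))))) (b (a (a (b (b (l 1058764303) (l 1059090447)) (a (b (l 16762792) (l 16688112)) (b (l 16703280) (l 16670368)))) (b (b (l 1058308111) (l 16755184)) (b (l 16676688) (l 16644392)))) (b (a (b (l 16769968) (l 16750072)) (b (l 16649504) (l 16630384))) (a (l 16625416) (l 16590680)))) (a (a (b (a (l 16722096) (l 16619096)) (l 16654904)) (b (l 16592904) (l 16532128))) (b (a (l 16558464) (l 16525800)) (l 16649600))))) (a (b (a (l 2) (b (a (l 2) (l 16634128)) (l 2))) (l 2)) (b (a (b (a (l 16510928) (l 16472792)) (l 158477053959)) (b (l 16463088) (l 16371704))) (a (b (l 16394936) (l 2)) (b (l 16418216) (l 6)))))))), by decide +kernel⟩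

theorem c_B70pp_001_s1 : CertF 0 536870912 536870912 536870912 697932185 42949674 false true true .up 0 0 1
    ndB7q0 ndB0q1 pcB0 cut_B70pp_001_s1 xt_B70pp_001_s1 :=
  certF2 (fam := false) (s1 := true) (s2 := true) (a := 0) (b := 0) (c := 1) (cn := .up) (n1 := ndB7q0) (n2 := ndB0q1) (pc := pcB0) (cut := cut_B70pp_001_s1) (xt := xt_B70pp_001_s1) (P1 := 0) (W1 := 536870912) (P2 := 536870912) (W2 := 536870912) (P3 := 697932185) (W3 := 42949674)
    rfl (fun _ => rfl) k0_B70pp_001_s1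

theorem s_B70pp_001_s1 {κ x : ℝ} (hκ : κ * h0 = ken x) (hx : ((697932185 : ℕ) : ℝ) / S ≤ x)
    (hx' : x ≤ (((697932185 : ℕ) : ℝ) + (42949674 : ℕ)) / S) :
    AltB (VFD κ) PP tK tL pcB [⟨3, 0, 0, 1449551462⟩] 0 0 1 7 0 (sgb true) (sgb true) x :=
  strip_altBD (m := 1449551462) true rfl hκ (SH.κ0 hκ (SH.hx1 hx).le (SH.hx2 hx').le) (SH.hx1 hx).le (SH.hx2 hx') (covB70).cov (covB01).cov hx hx' c_B70pp_001_s1 cutB_nil ((okx6 hx hx').extB (T := tt) (okx hx hx') (sideB hx hx') hκ rfl rfl (.N 0 true) (.O 1 true) (Or.inl rfl))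

noncomputable def cut_B70pp_011_s1 : Cut := Cut.of [[⟨4, 0, 0, 1449551462⟩]]

noncomputable def xt_B70pp_011_s1 : Ext := strExt6 dd false true true .s0 .u0 .u0m .pnn 0 1 1 rfl rfl gf1 vv ww ndB7q0 ndB0q1

noncomputable def f_B70pp_011_s1 : ℕ → ℕ → ℕ → ℕ → Bool := onCell 536870912 536870912 536870912 536870912 697932185 42949674
    (rowF 2 false true true .pnn 0 1 1 (qsf 0 536870912 536870912 536870912 1) ndB7q0 ndB0q1 pcB1 cut_B70pp_011_s1 xt_B70pp_011_s1)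

def k0_B70pp_011_s1 : ∃ t, chk3 f_B70pp_011_s1 t 1 1 1 = true :=
  ⟨(a (b (a (b (b (a (l 3) (b (l 1) (a (l 1062457359) (l 1)))) (a (a (a (l 3) (a (l 3) (l 1061528079))) (l 1061806607)) (a (l 1062181391) (l 1062507023)))) (a (b (a (b (a (l 1059680271) (l 1060725263)) (a (b (l 1058814479) (l 1058155023)) (l 1059681807))) (b (a (l 1061454863) (l 1061800463)) (a (l 1060531727) (l 16703912)))) (b (a (a (l 1057600015) (b (l 16696672) (l 16672720))) (b (l 16678472) (l 16656688))) (a (b (a (l 16657632) (l 16647872)) (l 16625896)) (l 16618864)))) (b (b (a (l 1062135823) (b (l 16699616) (l 16683760))) (a (b (l 16694056) (l 16675176)) (l 16742352))) (b (a (l 16644376) (l 16618056)) (l 16669344))))) (b (a (b (l 1) (b (l 1) (a (l 163779170135) (l 1)))) (l 1)) (b (a (a (b (l 16748184) (l 16628128)) (l 129956294583)) (b (l 1) (l 16570064))) (a (b (l 16574408) (l 16533688)) (b (l 16520216) (l 16472584)))))) (b (a (b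 (a (b (a (l 16596896) (l 16563032)) (a (l 16547880) (l 16515224))) (b (l 16534424) (l 16463888))) (b (a (l 16469872) (l 16403496)) (a (l 16495552) (l 16350048)))) (b (a (b (l 16488832) (l 16426320)) (b (l 16429072) (l 16377920))) (a (b (l 16341592) (l 6)) (l 6)))) (a (b (a (b (l 16436808) (l 16304728)) (b (l 6) (l 6))) (l 6)) (l 6)))) (b (a (b (l 1) (a (b (l 1) (b (l 1) (l 16603032))) (l 1))) (l 1)) (b (a (a (l 6) (l 6)) (l 6)) (l 6)))), by decide +kernel⟩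

theorem c_B70pp_011_s1 : CertF 0 536870912 536870912 536870912 697932185 42949674 false true true .pnn 0 1 1
    ndB7q0 ndB0q1 pcB1 cut_B70pp_011_s1 xt_B70pp_011_s1 :=
  certF2 (fam := false) (s1 := true) (s2 := true) (a := 0) (b := 1) (c := 1) (cn := .pnn) (n1 := ndB7q0) (n2 := ndB0q1) (pc := pcB1) (cut := cut_B70pp_011_s1) (xt := xt_B70pp_011_s1) (P1 := 0) (W1 := 536870912) (P2 := 536870912) (W2 := 536870912) (P3 := 697932185) (W3 := 42949674)
    rfl (fun _ => rfl) k0_B70pp_011_s1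

theorem s_B70pp_011_s1 {κ x : ℝ} (hκ : κ * h0 = ken x) (hx : ((697932185 : ℕ) : ℝ) / S ≤ x)
    (hx' : x ≤ (((697932185 : ℕ) : ℝ) + (42949674 : ℕ)) / S) :
    AltB (VFD κ) PP tK tL pcB [⟨3, 0, 0, 1449551462⟩] 0 1 1 7 0 (sgb true) (sgb true) x :=
  strip_altBD (m := 1449551462) true rfl hκ (SH.κ0 hκ (SH.hx1 hx).le (SH.hx2 hx').le) (SH.hx1 hx).le (SH.hx2 hx') (covB70).cov (covB01).cov hx hx' c_B70pp_011_s1 cutB_nil ((okx6 hx hx').extB (T := tt) (okx hx hx') (sideB hx hx') hκ rfl rfl (.N 0 true) (.O 1 true) (Or.inr rfl))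

noncomputable def cut_B70pp_012_s1 : Cut := Cut.of [[⟨4, 0, 0, 1449551462⟩]]

noncomputable def f_B70pp_012_s1 : ℕ → ℕ → ℕ → ℕ → Bool := onCell 0 536870912 0 536870912 697932185 42949674
    (rowF 0 false true true .pnp 0 1 2 (qsf 0 536870912 0 536870912 1) ndB7q0 ndB0q2 pcB1 cut_B70pp_012_s1 Ext.none)

def k0_B70pp_012_s1 : ∃ t, chk3 f_B70pp_012_s1 t 1 1 1 = true :=
  ⟨(a (l 6) (l 6)), by decide +kernel⟩

theorem c_B70pp_012_s1 : CertF 0 536870912 0 536870912 697932185 42949674 false true true .pnp 0 1 2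
    ndB7q0 ndB0q2 pcB1 cut_B70pp_012_s1 Ext.none :=
  certF0 (fam := false) (s1 := true) (s2 := true) (a := 0) (b := 1) (c := 2) (cn := .pnp) (n1 := ndB7q0) (n2 := ndB0q2) (pc := pcB1) (cut := cut_B70pp_012_s1) (xt := Ext.none) (P1 := 0) (W1 := 536870912) (P2 := 0) (W2 := 536870912) (P3 := 697932185) (W3 := 42949674)
    rfl k0_B70pp_012_s1

theorem s_B70pp_012_s1 {κ x : ℝ} (hκ : κ * h0 = ken x) (hx : ((697932185 : ℕ) : ℝ) / S ≤ x)
    (hx' : x ≤ (((697932185 : ℕ) : ℝ) + (42949674 : ℕ)) / S) :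
    AltB (VFD κ) PP tK tL pcB [⟨3, 0, 0, 1449551462⟩] 0 1 2 7 0 (sgb true) (sgb true) x :=
  strip_altBD (m := 1449551462) true rfl hκ (SH.κ0 hκ (SH.hx1 hx).le (SH.hx2 hx').le) (SH.hx1 hx).le (SH.hx2 hx') (covB70).cov (covB02).cov hx hx' c_B70pp_012_s1 cutB_nil (noExt_B)

noncomputable def cut_B70pp_022_s1 : Cut := Cut.of [[⟨4, 0, 0, 1449551462⟩]]

noncomputable def f_B70pp_022_s1 : ℕ → ℕ → ℕ → ℕ → Bool := onCell 1073741824 536870912 0 536870912 697932185 42949674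
    (rowF 2 false true true .pp 0 2 2 (qsf 0 536870912 0 536870912 2) ndB7q0 ndB0q2 pcB2 cut_B70pp_022_s1 Ext.none)

def k0_B70pp_022_s1 : ∃ t, chk3 f_B70pp_022_s1 t 1 1 1 = true :=
  ⟨(l 6), by decide +kernel⟩

theorem c_B70pp_022_s1 : CertF 0 536870912 0 536870912 697932185 42949674 false true true .pp 0 2 2
    ndB7q0 ndB0q2 pcB2 cut_B70pp_022_s1 Ext.none :=
  certF2 (fam := false) (s1 := true) (s2 := true) (a := 0) (b := 2) (c := 2) (cn := .pp) (n1 := ndB7q0) (n2 := ndB0q2) (pc := pcB2) (cut := cut_B70pp_022_s1) (xt := Ext.none) (P1 := 0) (W1 := 536870912) (P2 := 0) (W2 := 536870912) (P3 := 697932185) (W3 := 42949674)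
    rfl (fun _ => rfl) k0_B70pp_022_s1

theorem s_B70pp_022_s1 {κ x : ℝ} (hκ : κ * h0 = ken x) (hx : ((697932185 : ℕ) : ℝ) / S ≤ x)
    (hx' : x ≤ (((697932185 : ℕ) : ℝ) + (42949674 : ℕ)) / S) :
    AltB (VFD κ) PP tK tL pcB [⟨3, 0, 0, 1449551462⟩] 0 2 2 7 0 (sgb true) (sgb true) x :=
  strip_altBD (m := 1449551462) true rfl hκ (SH.κ0 hκ (SH.hx1 hx).le (SH.hx2 hx').le) (SH.hx1 hx).le (SH.hx2 hx') (covB70).cov (covB02).cov hx hx' c_B70pp_022_s1 cutB_nil (noExt_B)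

noncomputable def cut_B70pp_101_s1 : Cut := Cut.of [[⟨4, 0, 0, 1449551462⟩], [⟨0, 1, 0, 53687091⟩, ⟨1, 0, 0, 53687091⟩, ⟨2, 1, 0, 53687091⟩]]

noncomputable def xt_B70pp_101_s1 : Ext := strExt6 dd false true true .s0 .u0 .u0m .npn 1 0 1 rfl rfl gf0 vv ww ndB7q1 ndB0q1

noncomputable def f_B70pp_101_s1 : ℕ → ℕ → ℕ → ℕ → Bool := onCell 0 536870912 536870912 536870912 697932185 42949674
    (rowF 2 false true true .npn 1 0 1 (qsf 536870912 536870912 536870912 536870912 0) ndB7q1 ndB0q1 pcB0 cut_B70pp_101_s1 xt_B70pp_101_s1)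

def k0_B70pp_101_s1 : ∃ t, chk3 f_B70pp_101_s1 t 2 2 1 = true :=
  ⟨(l 3), by decide +kernel⟩

def k1_B70pp_101_s1 : ∃ t, chk3 f_B70pp_101_s1 t 2 6 1 = true :=
  ⟨(a (l 3) (a (l 3) (b (l 3) (b (l 3) (a (l 1055637007) (l 1055776783)))))), by decide +kernel⟩

def k2_B70pp_101_s1 : ∃ t, chk3 f_B70pp_101_s1 t 4 7 1 = true :=
  ⟨(b (b (l 3) (a (l 3) (a (l 3) (a (l 3) (l 1057332751))))) (a (b (b (l 3) (a (l 3) (a (l 3) (a (l 3) (l 1058347023))))) (b (a (b (l 3) (b (l 3) (b (l 3) (l 14)))) (a (a (b (l 3) (l 1058534927)) (b (l 1058400271) (b (l 1058583055) (b (l 1058680847) (a (a (l 16767840) (l 16765400)) (l 16772328)))))) (b (l 1058453519) (a (b (a (l 1058688527) (b (l 1058733583) (l 16750800))) (b (l 16769744) (l 16744344))) (b (a (b (l 16761072) (l 16756744)) (l 16743888)) (l 16747632)))))) (a (l 14) (b (a (a (a (b (b (l 1058852879) (l 14)) (l 14)) (b (a (b (l 16768080) (l 16763592)) (l 16768696)) (l 16755624)))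 (b (b (l 16765080) (l 16776216)) (l 16727544))) (a (b (l 16727072) (l 16739056)) (l 16713160))) (a (a (l 14) (b (l 16739536) (l 16730968))) (c (l 16737104) (l 16731624))))))) (b (a (b (a (l 3) (l 1058920463)) (a (l 1061337615) (b (l 1059285007) (a (b (l 1059345423) (l 16755384)) (b (l 16754976) (l 16746856)))))) (b (a (l 1059148303) (b (l 1058021903) (a (l 1058531343) (l 16764920)))) (a (b (a (b (l 16772840) (l 16754496)) (l 16769536)) (a (l 16763248) (l 16731928))) (b (a (l 16738184) (l 16769688)) (l 16674480))))) (b (a (a (b (a (b (l 1058906127) (c (l 16766736) (l 16766520))) (b (l 16766240) (a (l 16728536) (l 16744856)))) (b (a (l 16726376) (l 16738136)) (l 16712712))) (a (b (l 16763688) (l 16724512)) (l 16745488))) (a (l 16731592) (b (l 16699904) (l 16683200)))) (a (b (b (l 16736384) (l 16727040)) (a (l 16660808) (l 16684392))) (b (a (l 16683840) (l 16666448)) (l 16657800))))))), by decide +kernel⟩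

def k3_B70pp_101_s1 : ∃ t, chk3 f_B70pp_101_s1 t 5 7 1 = true :=
  ⟨(b (a (b (a (l 3) (b (l 3) (l 1055317007))) (a (b (l 1056136207) (a (l 1056932367) (b (l 1056459279) (a (l 1056811023) (l 16777520))))) (b (l 1056087055) (a (b (a (l 16763456) (l 16731928)) (a (b (l 16729368) (l 16721184)) (l 16715656))) (b (a (l 16721808) (l 16712320)) (l 16701296)))))) (b (a (a (l 1055585295) (l 1056197647)) (b (l 1056168975) (b (a (l 16721184) (l 16699608)) (l 16736328)))) (a (b (a (b (l 16730144) (l 16714024)) (l 16744616)) (a (b (l 16698056) (l 16682072)) (l 16586472))) (b (l 16712416) (l 16639024))))) (b (a (b (b (a (a (a (l 1057489423) (b (l 16744112) (l 16735312))) (a (l 16771160) (l 16719424))) (l 16716520)) (a (a (a (b (l 16737504) (l 16729504)) (l 16723512)) (l 16709040)) (l 16680400))) (a (a (b (l 16712768) (l 16697216)) (l 16770584)) (l 16657728))) (a (a (l 16642200) (l 16621424)) (b (l 16607488) (l 16575432))))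 (a (a (b (l 16664648) (l 16548352)) (b (l 16626824) (l 16593776))) (a (l 16567416) (l 16485128))))), by decide +kernel⟩

def k4_B70pp_101_s1 : ∃ t, chk3 f_B70pp_101_s1 t 3 1 1 = true :=
  ⟨(a (b (l 3) (b (a (b (b (l 3) (a (l 3) (b (l 3) (l 1053295119)))) (b (a (l 1054631951) (l 1054457871)) (a (b (l 1058100751) (a (l 1056047119) (l 16755032))) (b (a (l 16743320) (l 16742208)) (a (l 16691320) (l 16669888)))))) (b (a (b (l 1) (b (l 1) (l 1053961231))) (l 1)) (b (a (a (l 1054649359) (a (l 106333936583) (l 126198138375))) (a (l 171295284183) (l 1))) (a (b (a (l 16678912) (l 16657664)) (l 16638352)) (l 16663480))))) (b (a (b (a (b (a (l 16733784) (l 16680760)) (l 16659032)) (b (l 16648328) (l 16532312))) (a (l 16612984) (l 16571976))) (b (a (l 16590472) (l 16550008)) (a (b (l 16545936) (l 16519104)) (l 16494008)))) (a (b (a (l 16553056) (b (l 16530576) (l 16502264))) (a (l 16491328) (l 16458312))) (b (l 16462520)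 (a (l 16427328) (l 16396648))))))) (b (l 1) (b (b (l 1) (a (a (b (l 1) (l 16570464)) (l 1)) (l 1))) (b (a (b (a (l 16510608) (l 16304648)) (l 16439432)) (b (l 1) (l 16455216))) (a (b (l 16563192) (l 16352952)) (b (l 16334528) (l 6))))))), by decide +kernel⟩

theorem t5_B70pp_101_s1 : ∃ t, chk3 f_B70pp_101_s1 t 2 7 1 = true := ex3_a k2_B70pp_101_s1 k3_B70pp_101_s1

theorem t6_B70pp_101_s1 : ∃ t, chk3 f_B70pp_101_s1 t 2 3 1 = true := ex3_b k1_B70pp_101_s1 t5_B70pp_101_s1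

theorem t7_B70pp_101_s1 : ∃ t, chk3 f_B70pp_101_s1 t 2 1 1 = true := ex3_b k0_B70pp_101_s1 t6_B70pp_101_s1

theorem t8_B70pp_101_s1 : ∃ t, chk3 f_B70pp_101_s1 t 1 1 1 = true := ex3_a t7_B70pp_101_s1 k4_B70pp_101_s1

theorem c_B70pp_101_s1 : CertF 536870912 536870912 536870912 536870912 697932185 42949674 false true true .npn 1 0 1
    ndB7q1 ndB0q1 pcB0 cut_B70pp_101_s1 xt_B70pp_101_s1 :=
  certF2 (fam := false) (s1 := true) (s2 := true) (a := 1) (b := 0) (c := 1) (cn := .npn) (n1 := ndB7q1) (n2 := ndB0q1) (pc := pcB0) (cut := cut_B70pp_101_s1) (xt := xt_B70pp_101_s1) (P1 := 536870912) (W1 := 536870912) (P2 := 536870912) (W2 := 536870912) (P3 := 697932185) (W3 := 42949674)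
    rfl (fun _ => rfl) t8_B70pp_101_s1

theorem s_B70pp_101_s1 {κ x : ℝ} (hκ : κ * h0 = ken x) (hx : ((697932185 : ℕ) : ℝ) / S ≤ x)
    (hx' : x ≤ (((697932185 : ℕ) : ℝ) + (42949674 : ℕ)) / S)
    (H : CutB (VFD κ) PP tK tL pcB (Cut.of [[⟨0, 1, 0, 53687091⟩, ⟨1, 0, 0, 53687091⟩, ⟨2, 1, 0, 53687091⟩]]) 1 0 1 7 0 (sgb true) (sgb true) x) :
    AltB (VFD κ) PP tK tL pcB [⟨3, 0, 0, 1449551462⟩] 1 0 1 7 0 (sgb true) (sgb true) x :=
  strip_altBD (m := 1449551462) true rfl hκ (SH.κ0 hκ (SH.hx1 hx).le (SH.hx2 hx').le) (SH.hx1 hx).le (SH.hx2 hx') (covB71).cov (covB01).cov hx hx' c_B70pp_101_s1 H ((okx6 hx hx').extB (T := tt) (okx hx hx') (sideB hx hx') hκ rfl rfl (.N 1 true) (.O 1 true) (Or.inl rfl))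

noncomputable def cut_B70pp_102_s1 : Cut := Cut.of [[⟨4, 0, 0, 1449551462⟩], [⟨0, 1, 0, 67108864⟩, ⟨1, 0, 0, 67108864⟩, ⟨2, 1, 0, 67108864⟩]]

noncomputable def f_B70pp_102_s1 : ℕ → ℕ → ℕ → ℕ → Bool := onCell 536870912 536870912 0 536870912 697932185 42949674
    (rowF 0 false true true .npp 1 0 2 (qsf 536870912 536870912 0 536870912 0) ndB7q1 ndB0q2 pcB0 cut_B70pp_102_s1 Ext.none)

def k0_B70pp_102_s1 : ∃ t, chk3 f_B70pp_102_s1 t 1 1 1 = true :=
  ⟨(a (b (l 6) (a (l 6) (b (l 6) (b (l 6) (a (b (l 6) (l 16367184)) (b (b (l 6) (l 16382272)) (l 16418032))))))) (b (l 6) (a (b (l 6) (b (b (a (l 6) (l 16362096)) (a (l 16365528) (l 16590728))) (b (a (l 16505256) (a (l 16470832) (b (l 16490752) (l 16525096)))) (a (l 16649224) (a (l 16539976) (l 16662040)))))) (b (b (l 6) (a (a (l 6) (b (l 6) (l 16367512))) (b (a (l 6) (l 16312168)) (a (l 16377528) (l 16383648))))) (b (b (a (a (l 16408192) (b (l 16417696) (l 16448672)))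 (a (b (l 16430688) (l 16467928)) (l 16544096))) (a (a (b (l 16456200) (l 16488792)) (l 16497312)) (a (b (l 16503320) (l 16539664)) (b (l 16604288) (a (l 16558816) (l 16565944)))))) (a (a (b (b (l 16522288) (l 16555840)) (l 16610760)) (b (b (l 16548776) (l 16585352)) (b (l 16623616) (l 16663944)))) (a (a (b (l 16673768) (b (l 16648336) (l 16690816))) (b (b (l 16584928) (l 16624456)) (b (b (l 16655192) (l 14)) (l 14)))) (b (b (a (l 16598952) (l 14)) (l 14)) (l 14))))))))), by decide +kernel⟩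

theorem c_B70pp_102_s1 : CertF 536870912 536870912 0 536870912 697932185 42949674 false true true .npp 1 0 2
    ndB7q1 ndB0q2 pcB0 cut_B70pp_102_s1 Ext.none :=
  certF0 (fam := false) (s1 := true) (s2 := true) (a := 1) (b := 0) (c := 2) (cn := .npp) (n1 := ndB7q1) (n2 := ndB0q2) (pc := pcB0) (cut := cut_B70pp_102_s1) (xt := Ext.none) (P1 := 536870912) (W1 := 536870912) (P2 := 0) (W2 := 536870912) (P3 := 697932185) (W3 := 42949674)
    rfl k0_B70pp_102_s1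

theorem s_B70pp_102_s1 {κ x : ℝ} (hκ : κ * h0 = ken x) (hx : ((697932185 : ℕ) : ℝ) / S ≤ x)
    (hx' : x ≤ (((697932185 : ℕ) : ℝ) + (42949674 : ℕ)) / S)
    (H : CutB (VFD κ) PP tK tL pcB (Cut.of [[⟨0, 1, 0, 67108864⟩, ⟨1, 0, 0, 67108864⟩, ⟨2, 1, 0, 67108864⟩]]) 1 0 2 7 0 (sgb true) (sgb true) x) :
    AltB (VFD κ) PP tK tL pcB [⟨3, 0, 0, 1449551462⟩] 1 0 2 7 0 (sgb true) (sgb true) x :=
  strip_altBD (m := 1449551462) true rfl hκ (SH.κ0 hκ (SH.hx1 hx).le (SH.hx2 hx').le) (SH.hx1 hx).le (SH.hx2 hx') (covB71).cov (covB02).cov hx hx' c_B70pp_102_s1 H (noExt_B)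

noncomputable def cut_B70pp_112_s1 : Cut := Cut.of [[⟨4, 0, 0, 1449551462⟩]]

noncomputable def f_B70pp_112_s1 : ℕ → ℕ → ℕ → ℕ → Bool := onCell 536870912 536870912 0 536870912 697932185 42949674
    (rowF 2 false true true .dn 1 1 2 (qsf 536870912 536870912 0 536870912 1) ndB7q1 ndB0q2 pcB1 cut_B70pp_112_s1 Ext.none)

def k0_B70pp_112_s1 : ∃ t, chk3 f_B70pp_112_s1 t 1 1 1 = true :=
  ⟨(b (l 6) (l 6)), by decide +kernel⟩

theorem c_B70pp_112_s1 : CertF 536870912 536870912 0 536870912 697932185 42949674 false true true .dn 1 1 2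
    ndB7q1 ndB0q2 pcB1 cut_B70pp_112_s1 Ext.none :=
  certF2 (fam := false) (s1 := true) (s2 := true) (a := 1) (b := 1) (c := 2) (cn := .dn) (n1 := ndB7q1) (n2 := ndB0q2) (pc := pcB1) (cut := cut_B70pp_112_s1) (xt := Ext.none) (P1 := 536870912) (W1 := 536870912) (P2 := 0) (W2 := 536870912) (P3 := 697932185) (W3 := 42949674)
    rfl (fun _ => rfl) k0_B70pp_112_s1

theorem s_B70pp_112_s1 {κ x : ℝ} (hκ : κ * h0 = ken x) (hx : ((697932185 : ℕ) : ℝ) / S ≤ x)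
    (hx' : x ≤ (((697932185 : ℕ) : ℝ) + (42949674 : ℕ)) / S) :
    AltB (VFD κ) PP tK tL pcB [⟨3, 0, 0, 1449551462⟩] 1 1 2 7 0 (sgb true) (sgb true) x :=
  strip_altBD (m := 1449551462) true rfl hκ (SH.κ0 hκ (SH.hx1 hx).le (SH.hx2 hx').le) (SH.hx1 hx).le (SH.hx2 hx') (covB71).cov (covB02).cov hx hx' c_B70pp_112_s1 cutB_nil (noExt_B)

noncomputable def cut_B70pp_202_s1 : Cut := Cut.of [[⟨4, 0, 0, 1449551462⟩], [⟨0, 1, 0, 67108864⟩, ⟨1, 0, 0, 67108864⟩, ⟨2, 1, 0, 67108864⟩]]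

noncomputable def f_B70pp_202_s1 : ℕ → ℕ → ℕ → ℕ → Bool := onCell 0 536870912 0 536870912 697932185 42949674
    (rowF 2 false true true .pp 2 0 2 (qsf 1073741824 536870912 0 536870912 0) ndB7q2 ndB0q2 pcB0 cut_B70pp_202_s1 Ext.none)

def k0_B70pp_202_s1 : ∃ t, chk3 f_B70pp_202_s1 t 1 1 1 = true :=
  ⟨(a (b (a (l 6) (l 6)) (a (b (b (a (b (l 16374800) (l 16408448)) (l 6)) (a (a (b (l 16477328) (l 16520752)) (b (l 16413968) (l 16456840))) (a (b (l 16342656) (l 16383768)) (l 365642028967)))) (a (a (b (b (l 16650256) (l 14)) (l 14)) (b (b (l 16585336) (a (l 14) (b (l 16517608) (l 16542920)))) (a (l 14) (l 1)))) (b (a (b (l 16426184) (l 1)) (l 1)) (l 1)))) (b (l 1) (l 1)))) (l 1)), by decide +kernel⟩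

theorem c_B70pp_202_s1 : CertF 1073741824 536870912 0 536870912 697932185 42949674 false true true .pp 2 0 2
    ndB7q2 ndB0q2 pcB0 cut_B70pp_202_s1 Ext.none :=
  certF2 (fam := false) (s1 := true) (s2 := true) (a := 2) (b := 0) (c := 2) (cn := .pp) (n1 := ndB7q2) (n2 := ndB0q2) (pc := pcB0) (cut := cut_B70pp_202_s1) (xt := Ext.none) (P1 := 1073741824) (W1 := 536870912) (P2 := 0) (W2 := 536870912) (P3 := 697932185) (W3 := 42949674)
    rfl (fun _ => rfl) k0_B70pp_202_s1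

theorem s_B70pp_202_s1 {κ x : ℝ} (hκ : κ * h0 = ken x) (hx : ((697932185 : ℕ) : ℝ) / S ≤ x)
    (hx' : x ≤ (((697932185 : ℕ) : ℝ) + (42949674 : ℕ)) / S)
    (H : CutB (VFD κ) PP tK tL pcB (Cut.of [[⟨0, 1, 0, 67108864⟩, ⟨1, 0, 0, 67108864⟩, ⟨2, 1, 0, 67108864⟩]]) 2 0 2 7 0 (sgb true) (sgb true) x) :
    AltB (VFD κ) PP tK tL pcB [⟨3, 0, 0, 1449551462⟩] 2 0 2 7 0 (sgb true) (sgb true) x :=
  strip_altBD (m := 1449551462) true rfl hκ (SH.κ0 hκ (SH.hx1 hx).le (SH.hx2 hx').le) (SH.hx1 hx).le (SH.hx2 hx') (covB72).cov (covB02).cov hx hx' c_B70pp_202_s1 H (noExt_B)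

noncomputable def cut_B70pm_001_s1 : Cut := Cut.of [[⟨4, 0, 0, 1449551462⟩]]

noncomputable def f_B70pm_001_s1 : ℕ → ℕ → ℕ → ℕ → Bool := onCell 0 536870912 536870912 536870912 697932185 42949674
    (rowF 0 false true false .up 0 0 1 (qsf 0 536870912 536870912 536870912 0) ndB7q0 ndB0q1 pcB0 cut_B70pm_001_s1 Ext.none)

def k0_B70pm_001_s1 : ∃ t, chk3 f_B70pm_001_s1 t 1 1 1 = true :=
  ⟨(l 4), by decide +kernel⟩

theorem c_B70pm_001_s1 : CertF 0 536870912 536870912 536870912 697932185 42949674 false true false .up 0 0 1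
    ndB7q0 ndB0q1 pcB0 cut_B70pm_001_s1 Ext.none :=
  certF0 (fam := false) (s1 := true) (s2 := false) (a := 0) (b := 0) (c := 1) (cn := .up) (n1 := ndB7q0) (n2 := ndB0q1) (pc := pcB0) (cut := cut_B70pm_001_s1) (xt := Ext.none) (P1 := 0) (W1 := 536870912) (P2 := 536870912) (W2 := 536870912) (P3 := 697932185) (W3 := 42949674)
    rfl k0_B70pm_001_s1

theorem s_B70pm_001_s1 {κ x : ℝ} (hκ : κ * h0 = ken x) (hx : ((697932185 : ℕ) : ℝ) / S ≤ x)
    (hx' : x ≤ (((697932185 : ℕ) : ℝ) + (42949674 : ℕ)) / S) :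
    AltB (VFD κ) PP tK tL pcB [⟨3, 0, 0, 1449551462⟩] 0 0 1 7 0 (sgb true) (sgb false) x :=
  strip_altBD (m := 1449551462) true rfl hκ (SH.κ0 hκ (SH.hx1 hx).le (SH.hx2 hx').le) (SH.hx1 hx).le (SH.hx2 hx') (covB70).cov (covB01).cov hx hx' c_B70pm_001_s1 cutB_nil (noExt_B)

noncomputable def cut_B70pm_011_s1 : Cut := Cut.of [[⟨4, 0, 0, 1449551462⟩]]

noncomputable def f_B70pm_011_s1 : ℕ → ℕ → ℕ → ℕ → Bool := onCell 0 536870912 536870912 536870912 697932185 42949674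
    (rowF 0 false true false .pnn 0 1 1 (qsf 0 536870912 536870912 536870912 1) ndB7q0 ndB0q1 pcB1 cut_B70pm_011_s1 Ext.none)

def k0_B70pm_011_s1 : ∃ t, chk3 f_B70pm_011_s1 t 1 1 1 = true :=
  ⟨(l 4), by decide +kernel⟩

theorem c_B70pm_011_s1 : CertF 0 536870912 536870912 536870912 697932185 42949674 false true false .pnn 0 1 1
    ndB7q0 ndB0q1 pcB1 cut_B70pm_011_s1 Ext.none :=
  certF0 (fam := false) (s1 := true) (s2 := false) (a := 0) (b := 1) (c := 1) (cn := .pnn) (n1 := ndB7q0) (n2 := ndB0q1) (pc := pcB1) (cut := cut_B70pm_011_s1) (xt := Ext.none) (P1 := 0) (W1 := 536870912) (P2 := 536870912) (W2 := 536870912) (P3 := 697932185) (W3 := 42949674)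
    rfl k0_B70pm_011_s1

theorem s_B70pm_011_s1 {κ x : ℝ} (hκ : κ * h0 = ken x) (hx : ((697932185 : ℕ) : ℝ) / S ≤ x)
    (hx' : x ≤ (((697932185 : ℕ) : ℝ) + (42949674 : ℕ)) / S) :
    AltB (VFD κ) PP tK tL pcB [⟨3, 0, 0, 1449551462⟩] 0 1 1 7 0 (sgb true) (sgb false) x :=
  strip_altBD (m := 1449551462) true rfl hκ (SH.κ0 hκ (SH.hx1 hx).le (SH.hx2 hx').le) (SH.hx1 hx).le (SH.hx2 hx') (covB70).cov (covB01).cov hx hx' c_B70pm_011_s1 cutB_nil (noExt_B)

noncomputable def cut_B70pm_012_s1 : Cut := Cut.of [[⟨4, 0, 0, 1449551462⟩]]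

noncomputable def f_B70pm_012_s1 : ℕ → ℕ → ℕ → ℕ → Bool := onCell 0 536870912 0 536870912 697932185 42949674
    (rowF 0 false true false .pnp 0 1 2 (qsf 0 536870912 0 536870912 1) ndB7q0 ndB0q2 pcB1 cut_B70pm_012_s1 Ext.none)

def k0_B70pm_012_s1 : ∃ t, chk3 f_B70pm_012_s1 t 1 1 1 = true :=
  ⟨(l 6), by decide +kernel⟩

theorem c_B70pm_012_s1 : CertF 0 536870912 0 536870912 697932185 42949674 false true false .pnp 0 1 2
    ndB7q0 ndB0q2 pcB1 cut_B70pm_012_s1 Ext.none :=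
  certF0 (fam := false) (s1 := true) (s2 := false) (a := 0) (b := 1) (c := 2) (cn := .pnp) (n1 := ndB7q0) (n2 := ndB0q2) (pc := pcB1) (cut := cut_B70pm_012_s1) (xt := Ext.none) (P1 := 0) (W1 := 536870912) (P2 := 0) (W2 := 536870912) (P3 := 697932185) (W3 := 42949674)
    rfl k0_B70pm_012_s1

theorem s_B70pm_012_s1 {κ x : ℝ} (hκ : κ * h0 = ken x) (hx : ((697932185 : ℕ) : ℝ) / S ≤ x)
    (hx' : x ≤ (((697932185 : ℕ) : ℝ) + (42949674 : ℕ)) / S) :
    AltB (VFD κ) PP tK tL pcB [⟨3, 0, 0, 1449551462⟩] 0 1 2 7 0 (sgb true) (sgb false) x :=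
  strip_altBD (m := 1449551462) true rfl hκ (SH.κ0 hκ (SH.hx1 hx).le (SH.hx2 hx').le) (SH.hx1 hx).le (SH.hx2 hx') (covB70).cov (covB02).cov hx hx' c_B70pm_012_s1 cutB_nil (noExt_B)

noncomputable def cut_B70pm_022_s1 : Cut := Cut.of [[⟨4, 0, 0, 1449551462⟩]]

noncomputable def f_B70pm_022_s1 : ℕ → ℕ → ℕ → ℕ → Bool := onCell 0 536870912 0 536870912 697932185 42949674
    (rowF 0 false true false .pp 0 2 2 (qsf 0 536870912 0 536870912 2) ndB7q0 ndB0q2 pcB2 cut_B70pm_022_s1 Ext.none)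

def k0_B70pm_022_s1 : ∃ t, chk3 f_B70pm_022_s1 t 1 1 1 = true :=
  ⟨(l 6), by decide +kernel⟩

theorem c_B70pm_022_s1 : CertF 0 536870912 0 536870912 697932185 42949674 false true false .pp 0 2 2
    ndB7q0 ndB0q2 pcB2 cut_B70pm_022_s1 Ext.none :=
  certF0 (fam := false) (s1 := true) (s2 := false) (a := 0) (b := 2) (c := 2) (cn := .pp) (n1 := ndB7q0) (n2 := ndB0q2) (pc := pcB2) (cut := cut_B70pm_022_s1) (xt := Ext.none) (P1 := 0) (W1 := 536870912) (P2 := 0) (W2 := 536870912) (P3 := 697932185) (W3 := 42949674)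
    rfl k0_B70pm_022_s1

theorem s_B70pm_022_s1 {κ x : ℝ} (hκ : κ * h0 = ken x) (hx : ((697932185 : ℕ) : ℝ) / S ≤ x)
    (hx' : x ≤ (((697932185 : ℕ) : ℝ) + (42949674 : ℕ)) / S) :
    AltB (VFD κ) PP tK tL pcB [⟨3, 0, 0, 1449551462⟩] 0 2 2 7 0 (sgb true) (sgb false) x :=
  strip_altBD (m := 1449551462) true rfl hκ (SH.κ0 hκ (SH.hx1 hx).le (SH.hx2 hx').le) (SH.hx1 hx).le (SH.hx2 hx') (covB70).cov (covB02).cov hx hx' c_B70pm_022_s1 cutB_nil (noExt_B)

noncomputable def cut_B70pm_101_s1 : Cut := Cut.of [[⟨4, 0, 0, 1449551462⟩]]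

noncomputable def f_B70pm_101_s1 : ℕ → ℕ → ℕ → ℕ → Bool := onCell 536870912 536870912 536870912 536870912 697932185 42949674
    (rowF 0 false true false .npn 1 0 1 (qsf 536870912 536870912 536870912 536870912 0) ndB7q1 ndB0q1 pcB0 cut_B70pm_101_s1 Ext.none)

def k0_B70pm_101_s1 : ∃ t, chk3 f_B70pm_101_s1 t 1 1 1 = true :=
  ⟨(l 4), by decide +kernel⟩

theorem c_B70pm_101_s1 : CertF 536870912 536870912 536870912 536870912 697932185 42949674 false true false .npn 1 0 1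
    ndB7q1 ndB0q1 pcB0 cut_B70pm_101_s1 Ext.none :=
  certF0 (fam := false) (s1 := true) (s2 := false) (a := 1) (b := 0) (c := 1) (cn := .npn) (n1 := ndB7q1) (n2 := ndB0q1) (pc := pcB0) (cut := cut_B70pm_101_s1) (xt := Ext.none) (P1 := 536870912) (W1 := 536870912) (P2 := 536870912) (W2 := 536870912) (P3 := 697932185) (W3 := 42949674)
    rfl k0_B70pm_101_s1

theorem s_B70pm_101_s1 {κ x : ℝ} (hκ : κ * h0 = ken x) (hx : ((697932185 : ℕ) : ℝ) / S ≤ x)
    (hx' : x ≤ (((697932185 : ℕ) : ℝ) + (42949674 : ℕ)) / S) :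
    AltB (VFD κ) PP tK tL pcB [⟨3, 0, 0, 1449551462⟩] 1 0 1 7 0 (sgb true) (sgb false) x :=
  strip_altBD (m := 1449551462) true rfl hκ (SH.κ0 hκ (SH.hx1 hx).le (SH.hx2 hx').le) (SH.hx1 hx).le (SH.hx2 hx') (covB71).cov (covB01).cov hx hx' c_B70pm_101_s1 cutB_nil (noExt_B)

noncomputable def cut_B70pm_102_s1 : Cut := Cut.of [[⟨4, 0, 0, 1449551462⟩]]

noncomputable def f_B70pm_102_s1 : ℕ → ℕ → ℕ → ℕ → Bool := onCell 536870912 536870912 0 536870912 697932185 42949674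
    (rowF 0 false true false .npp 1 0 2 (qsf 536870912 536870912 0 536870912 0) ndB7q1 ndB0q2 pcB0 cut_B70pm_102_s1 Ext.none)

def k0_B70pm_102_s1 : ∃ t, chk3 f_B70pm_102_s1 t 1 1 1 = true :=
  ⟨(l 6), by decide +kernel⟩

theorem c_B70pm_102_s1 : CertF 536870912 536870912 0 536870912 697932185 42949674 false true false .npp 1 0 2
    ndB7q1 ndB0q2 pcB0 cut_B70pm_102_s1 Ext.none :=
  certF0 (fam := false) (s1 := true) (s2 := false) (a := 1) (b := 0) (c := 2) (cn := .npp) (n1 := ndB7q1) (n2 := ndB0q2) (pc := pcB0) (cut := cut_B70pm_102_s1) (xt := Ext.none) (P1 := 536870912) (W1 := 536870912) (P2 := 0) (W2 := 536870912) (P3 := 697932185) (W3 := 42949674)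
    rfl k0_B70pm_102_s1

theorem s_B70pm_102_s1 {κ x : ℝ} (hκ : κ * h0 = ken x) (hx : ((697932185 : ℕ) : ℝ) / S ≤ x)
    (hx' : x ≤ (((697932185 : ℕ) : ℝ) + (42949674 : ℕ)) / S) :
    AltB (VFD κ) PP tK tL pcB [⟨3, 0, 0, 1449551462⟩] 1 0 2 7 0 (sgb true) (sgb false) x :=
  strip_altBD (m := 1449551462) true rfl hκ (SH.κ0 hκ (SH.hx1 hx).le (SH.hx2 hx').le) (SH.hx1 hx).le (SH.hx2 hx') (covB71).cov (covB02).cov hx hx' c_B70pm_102_s1 cutB_nil (noExt_B)

noncomputable def cut_B70pm_112_s1 : Cut := Cut.of [[⟨4, 0, 0, 1449551462⟩]]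

noncomputable def f_B70pm_112_s1 : ℕ → ℕ → ℕ → ℕ → Bool := onCell 536870912 536870912 0 536870912 697932185 42949674
    (rowF 0 false true false .dn 1 1 2 (qsf 536870912 536870912 0 536870912 1) ndB7q1 ndB0q2 pcB1 cut_B70pm_112_s1 Ext.none)

def k0_B70pm_112_s1 : ∃ t, chk3 f_B70pm_112_s1 t 1 1 1 = true :=
  ⟨(l 6), by decide +kernel⟩

theorem c_B70pm_112_s1 : CertF 536870912 536870912 0 536870912 697932185 42949674 false true false .dn 1 1 2
    ndB7q1 ndB0q2 pcB1 cut_B70pm_112_s1 Ext.none :=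
  certF0 (fam := false) (s1 := true) (s2 := false) (a := 1) (b := 1) (c := 2) (cn := .dn) (n1 := ndB7q1) (n2 := ndB0q2) (pc := pcB1) (cut := cut_B70pm_112_s1) (xt := Ext.none) (P1 := 536870912) (W1 := 536870912) (P2 := 0) (W2 := 536870912) (P3 := 697932185) (W3 := 42949674)
    rfl k0_B70pm_112_s1

theorem s_B70pm_112_s1 {κ x : ℝ} (hκ : κ * h0 = ken x) (hx : ((697932185 : ℕ) : ℝ) / S ≤ x)
    (hx' : x ≤ (((697932185 : ℕ) : ℝ) + (42949674 : ℕ)) / S) :
    AltB (VFD κ) PP tK tL pcB [⟨3, 0, 0, 1449551462⟩] 1 1 2 7 0 (sgb true) (sgb false) x :=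
  strip_altBD (m := 1449551462) true rfl hκ (SH.κ0 hκ (SH.hx1 hx).le (SH.hx2 hx').le) (SH.hx1 hx).le (SH.hx2 hx') (covB71).cov (covB02).cov hx hx' c_B70pm_112_s1 cutB_nil (noExt_B)

noncomputable def cut_B70pm_202_s1 : Cut := Cut.of [[⟨4, 0, 0, 1449551462⟩]]

noncomputable def f_B70pm_202_s1 : ℕ → ℕ → ℕ → ℕ → Bool := onCell 0 536870912 0 536870912 697932185 42949674
    (rowF 2 false true false .pp 2 0 2 (qsf 1073741824 536870912 0 536870912 0) ndB7q2 ndB0q2 pcB0 cut_B70pm_202_s1 Ext.none)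

def k0_B70pm_202_s1 : ∃ t, chk3 f_B70pm_202_s1 t 1 1 1 = true :=
  ⟨(l 6), by decide +kernel⟩

theorem c_B70pm_202_s1 : CertF 1073741824 536870912 0 536870912 697932185 42949674 false true false .pp 2 0 2
    ndB7q2 ndB0q2 pcB0 cut_B70pm_202_s1 Ext.none :=
  certF2 (fam := false) (s1 := true) (s2 := false) (a := 2) (b := 0) (c := 2) (cn := .pp) (n1 := ndB7q2) (n2 := ndB0q2) (pc := pcB0) (cut := cut_B70pm_202_s1) (xt := Ext.none) (P1 := 1073741824) (W1 := 536870912) (P2 := 0) (W2 := 536870912) (P3 := 697932185) (W3 := 42949674)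
    rfl (fun _ => rfl) k0_B70pm_202_s1

theorem s_B70pm_202_s1 {κ x : ℝ} (hκ : κ * h0 = ken x) (hx : ((697932185 : ℕ) : ℝ) / S ≤ x)
    (hx' : x ≤ (((697932185 : ℕ) : ℝ) + (42949674 : ℕ)) / S) :
    AltB (VFD κ) PP tK tL pcB [⟨3, 0, 0, 1449551462⟩] 2 0 2 7 0 (sgb true) (sgb false) x :=
  strip_altBD (m := 1449551462) true rfl hκ (SH.κ0 hκ (SH.hx1 hx).le (SH.hx2 hx').le) (SH.hx1 hx).le (SH.hx2 hx') (covB72).cov (covB02).cov hx hx' c_B70pm_202_s1 cutB_nil (noExt_B)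

noncomputable def cut_B70mm_001_s1 : Cut := Cut.of [[⟨4, 0, 0, 1449551462⟩]]

noncomputable def f_B70mm_001_s1 : ℕ → ℕ → ℕ → ℕ → Bool := onCell 0 536870912 536870912 536870912 697932185 42949674
    (rowF 0 false false false .up 0 0 1 (qsf 0 536870912 536870912 536870912 0) ndB7q0 ndB0q1 pcB0 cut_B70mm_001_s1 Ext.none)

def k0_B70mm_001_s1 : ∃ t, chk3 f_B70mm_001_s1 t 1 1 1 = true :=
  ⟨(l 5), by decide +kernel⟩

theorem c_B70mm_001_s1 : CertF 0 536870912 536870912 536870912 697932185 42949674 false false false .up 0 0 1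
    ndB7q0 ndB0q1 pcB0 cut_B70mm_001_s1 Ext.none :=
  certF0 (fam := false) (s1 := false) (s2 := false) (a := 0) (b := 0) (c := 1) (cn := .up) (n1 := ndB7q0) (n2 := ndB0q1) (pc := pcB0) (cut := cut_B70mm_001_s1) (xt := Ext.none) (P1 := 0) (W1 := 536870912) (P2 := 536870912) (W2 := 536870912) (P3 := 697932185) (W3 := 42949674)
    rfl k0_B70mm_001_s1

theorem s_B70mm_001_s1 {κ x : ℝ} (hκ : κ * h0 = ken x) (hx : ((697932185 : ℕ) : ℝ) / S ≤ x)
    (hx' : x ≤ (((697932185 : ℕ) : ℝ) + (42949674 : ℕ)) / S) :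
    AltB (VFD κ) PP tK tL pcB [⟨3, 0, 0, 1449551462⟩] 0 0 1 7 0 (sgb false) (sgb false) x :=
  strip_altBD (m := 1449551462) true rfl hκ (SH.κ0 hκ (SH.hx1 hx).le (SH.hx2 hx').le) (SH.hx1 hx).le (SH.hx2 hx') (covB70).cov (covB01).cov hx hx' c_B70mm_001_s1 cutB_nil (noExt_B)

noncomputable def cut_B70mm_011_s1 : Cut := Cut.of [[⟨4, 0, 0, 1449551462⟩]]

noncomputable def f_B70mm_011_s1 : ℕ → ℕ → ℕ → ℕ → Bool := onCell 0 536870912 536870912 536870912 697932185 42949674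
    (rowF 0 false false false .pnn 0 1 1 (qsf 0 536870912 536870912 536870912 1) ndB7q0 ndB0q1 pcB1 cut_B70mm_011_s1 Ext.none)

def k0_B70mm_011_s1 : ∃ t, chk3 f_B70mm_011_s1 t 1 1 1 = true :=
  ⟨(l 5), by decide +kernel⟩

theorem c_B70mm_011_s1 : CertF 0 536870912 536870912 536870912 697932185 42949674 false false false .pnn 0 1 1
    ndB7q0 ndB0q1 pcB1 cut_B70mm_011_s1 Ext.none :=
  certF0 (fam := false) (s1 := false) (s2 := false) (a := 0) (b := 1) (c := 1) (cn := .pnn) (n1 := ndB7q0) (n2 := ndB0q1) (pc := pcB1) (cut := cut_B70mm_011_s1) (xt := Ext.none) (P1 := 0) (W1 := 536870912) (P2 := 536870912) (W2 := 536870912) (P3 := 697932185) (W3 := 42949674)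
    rfl k0_B70mm_011_s1

theorem s_B70mm_011_s1 {κ x : ℝ} (hκ : κ * h0 = ken x) (hx : ((697932185 : ℕ) : ℝ) / S ≤ x)
    (hx' : x ≤ (((697932185 : ℕ) : ℝ) + (42949674 : ℕ)) / S) :
    AltB (VFD κ) PP tK tL pcB [⟨3, 0, 0, 1449551462⟩] 0 1 1 7 0 (sgb false) (sgb false) x :=
  strip_altBD (m := 1449551462) true rfl hκ (SH.κ0 hκ (SH.hx1 hx).le (SH.hx2 hx').le) (SH.hx1 hx).le (SH.hx2 hx') (covB70).cov (covB01).cov hx hx' c_B70mm_011_s1 cutB_nil (noExt_B)

noncomputable def cut_B70mm_012_s1 : Cut := Cut.of [[⟨4, 0, 0, 1449551462⟩]]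

noncomputable def f_B70mm_012_s1 : ℕ → ℕ → ℕ → ℕ → Bool := onCell 0 536870912 0 536870912 697932185 42949674
    (rowF 0 false false false .pnp 0 1 2 (qsf 0 536870912 0 536870912 1) ndB7q0 ndB0q2 pcB1 cut_B70mm_012_s1 Ext.none)

def k0_B70mm_012_s1 : ∃ t, chk3 f_B70mm_012_s1 t 1 1 1 = true :=
  ⟨(l 5), by decide +kernel⟩

theorem c_B70mm_012_s1 : CertF 0 536870912 0 536870912 697932185 42949674 false false false .pnp 0 1 2
    ndB7q0 ndB0q2 pcB1 cut_B70mm_012_s1 Ext.none :=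
  certF0 (fam := false) (s1 := false) (s2 := false) (a := 0) (b := 1) (c := 2) (cn := .pnp) (n1 := ndB7q0) (n2 := ndB0q2) (pc := pcB1) (cut := cut_B70mm_012_s1) (xt := Ext.none) (P1 := 0) (W1 := 536870912) (P2 := 0) (W2 := 536870912) (P3 := 697932185) (W3 := 42949674)
    rfl k0_B70mm_012_s1

theorem s_B70mm_012_s1 {κ x : ℝ} (hκ : κ * h0 = ken x) (hx : ((697932185 : ℕ) : ℝ) / S ≤ x)
    (hx' : x ≤ (((697932185 : ℕ) : ℝ) + (42949674 : ℕ)) / S) :
    AltB (VFD κ) PP tK tL pcB [⟨3, 0, 0, 1449551462⟩] 0 1 2 7 0 (sgb false) (sgb false) x :=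
  strip_altBD (m := 1449551462) true rfl hκ (SH.κ0 hκ (SH.hx1 hx).le (SH.hx2 hx').le) (SH.hx1 hx).le (SH.hx2 hx') (covB70).cov (covB02).cov hx hx' c_B70mm_012_s1 cutB_nil (noExt_B)

noncomputable def cut_B70mm_022_s1 : Cut := Cut.of [[⟨4, 0, 0, 1449551462⟩]]

noncomputable def f_B70mm_022_s1 : ℕ → ℕ → ℕ → ℕ → Bool := onCell 0 536870912 0 536870912 697932185 42949674
    (rowF 0 false false false .pp 0 2 2 (qsf 0 536870912 0 536870912 2) ndB7q0 ndB0q2 pcB2 cut_B70mm_022_s1 Ext.none)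

def k0_B70mm_022_s1 : ∃ t, chk3 f_B70mm_022_s1 t 1 1 1 = true :=
  ⟨(l 5), by decide +kernel⟩

theorem c_B70mm_022_s1 : CertF 0 536870912 0 536870912 697932185 42949674 false false false .pp 0 2 2
    ndB7q0 ndB0q2 pcB2 cut_B70mm_022_s1 Ext.none :=
  certF0 (fam := false) (s1 := false) (s2 := false) (a := 0) (b := 2) (c := 2) (cn := .pp) (n1 := ndB7q0) (n2 := ndB0q2) (pc := pcB2) (cut := cut_B70mm_022_s1) (xt := Ext.none) (P1 := 0) (W1 := 536870912) (P2 := 0) (W2 := 536870912) (P3 := 697932185) (W3 := 42949674)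
    rfl k0_B70mm_022_s1

theorem s_B70mm_022_s1 {κ x : ℝ} (hκ : κ * h0 = ken x) (hx : ((697932185 : ℕ) : ℝ) / S ≤ x)
    (hx' : x ≤ (((697932185 : ℕ) : ℝ) + (42949674 : ℕ)) / S) :
    AltB (VFD κ) PP tK tL pcB [⟨3, 0, 0, 1449551462⟩] 0 2 2 7 0 (sgb false) (sgb false) x :=
  strip_altBD (m := 1449551462) true rfl hκ (SH.κ0 hκ (SH.hx1 hx).le (SH.hx2 hx').le) (SH.hx1 hx).le (SH.hx2 hx') (covB70).cov (covB02).cov hx hx' c_B70mm_022_s1 cutB_nil (noExt_B)

noncomputable def cut_B70mm_101_s1 : Cut := Cut.of [[⟨4, 0, 0, 1449551462⟩]]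

noncomputable def f_B70mm_101_s1 : ℕ → ℕ → ℕ → ℕ → Bool := onCell 0 536870912 536870912 536870912 697932185 42949674
    (rowF 2 false false false .npn 1 0 1 (qsf 536870912 536870912 536870912 536870912 0) ndB7q1 ndB0q1 pcB0 cut_B70mm_101_s1 Ext.none)

def k0_B70mm_101_s1 : ∃ t, chk3 f_B70mm_101_s1 t 1 1 1 = true :=
  ⟨(l 5), by decide +kernel⟩

theorem c_B70mm_101_s1 : CertF 536870912 536870912 536870912 536870912 697932185 42949674 false false false .npn 1 0 1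
    ndB7q1 ndB0q1 pcB0 cut_B70mm_101_s1 Ext.none :=
  certF2 (fam := false) (s1 := false) (s2 := false) (a := 1) (b := 0) (c := 1) (cn := .npn) (n1 := ndB7q1) (n2 := ndB0q1) (pc := pcB0) (cut := cut_B70mm_101_s1) (xt := Ext.none) (P1 := 536870912) (W1 := 536870912) (P2 := 536870912) (W2 := 536870912) (P3 := 697932185) (W3 := 42949674)
    rfl (fun _ => rfl) k0_B70mm_101_s1

theorem s_B70mm_101_s1 {κ x : ℝ} (hκ : κ * h0 = ken x) (hx : ((697932185 : ℕ) : ℝ) / S ≤ x)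
    (hx' : x ≤ (((697932185 : ℕ) : ℝ) + (42949674 : ℕ)) / S) :
    AltB (VFD κ) PP tK tL pcB [⟨3, 0, 0, 1449551462⟩] 1 0 1 7 0 (sgb false) (sgb false) x :=
  strip_altBD (m := 1449551462) true rfl hκ (SH.κ0 hκ (SH.hx1 hx).le (SH.hx2 hx').le) (SH.hx1 hx).le (SH.hx2 hx') (covB71).cov (covB01).cov hx hx' c_B70mm_101_s1 cutB_nil (noExt_B)

noncomputable def cut_B70mm_102_s1 : Cut := Cut.of [[⟨4, 0, 0, 1449551462⟩]]

noncomputable def f_B70mm_102_s1 : ℕ → ℕ → ℕ → ℕ → Bool := onCell 536870912 536870912 0 536870912 697932185 42949674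
    (rowF 0 false false false .npp 1 0 2 (qsf 536870912 536870912 0 536870912 0) ndB7q1 ndB0q2 pcB0 cut_B70mm_102_s1 Ext.none)

def k0_B70mm_102_s1 : ∃ t, chk3 f_B70mm_102_s1 t 1 1 1 = true :=
  ⟨(l 5), by decide +kernel⟩

theorem c_B70mm_102_s1 : CertF 536870912 536870912 0 536870912 697932185 42949674 false false false .npp 1 0 2
    ndB7q1 ndB0q2 pcB0 cut_B70mm_102_s1 Ext.none :=
  certF0 (fam := false) (s1 := false) (s2 := false) (a := 1) (b := 0) (c := 2) (cn := .npp) (n1 := ndB7q1) (n2 := ndB0q2) (pc := pcB0) (cut := cut_B70mm_102_s1) (xt := Ext.none) (P1 := 536870912) (W1 := 536870912) (P2 := 0) (W2 := 536870912) (P3 := 697932185) (W3 := 42949674)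
    rfl k0_B70mm_102_s1

theorem s_B70mm_102_s1 {κ x : ℝ} (hκ : κ * h0 = ken x) (hx : ((697932185 : ℕ) : ℝ) / S ≤ x)
    (hx' : x ≤ (((697932185 : ℕ) : ℝ) + (42949674 : ℕ)) / S) :
    AltB (VFD κ) PP tK tL pcB [⟨3, 0, 0, 1449551462⟩] 1 0 2 7 0 (sgb false) (sgb false) x :=
  strip_altBD (m := 1449551462) true rfl hκ (SH.κ0 hκ (SH.hx1 hx).le (SH.hx2 hx').le) (SH.hx1 hx).le (SH.hx2 hx') (covB71).cov (covB02).cov hx hx' c_B70mm_102_s1 cutB_nil (noExt_B)

noncomputable def cut_B70mm_112_s1 : Cut := Cut.of [[⟨4, 0, 0, 1449551462⟩]]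

noncomputable def f_B70mm_112_s1 : ℕ → ℕ → ℕ → ℕ → Bool := onCell 536870912 536870912 0 536870912 697932185 42949674
    (rowF 0 false false false .dn 1 1 2 (qsf 536870912 536870912 0 536870912 1) ndB7q1 ndB0q2 pcB1 cut_B70mm_112_s1 Ext.none)

def k0_B70mm_112_s1 : ∃ t, chk3 f_B70mm_112_s1 t 1 1 1 = true :=
  ⟨(l 5), by decide +kernel⟩

theorem c_B70mm_112_s1 : CertF 536870912 536870912 0 536870912 697932185 42949674 false false false .dn 1 1 2
    ndB7q1 ndB0q2 pcB1 cut_B70mm_112_s1 Ext.none :=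
  certF0 (fam := false) (s1 := false) (s2 := false) (a := 1) (b := 1) (c := 2) (cn := .dn) (n1 := ndB7q1) (n2 := ndB0q2) (pc := pcB1) (cut := cut_B70mm_112_s1) (xt := Ext.none) (P1 := 536870912) (W1 := 536870912) (P2 := 0) (W2 := 536870912) (P3 := 697932185) (W3 := 42949674)
    rfl k0_B70mm_112_s1

theorem s_B70mm_112_s1 {κ x : ℝ} (hκ : κ * h0 = ken x) (hx : ((697932185 : ℕ) : ℝ) / S ≤ x)
    (hx' : x ≤ (((697932185 : ℕ) : ℝ) + (42949674 : ℕ)) / S) :
    AltB (VFD κ) PP tK tL pcB [⟨3, 0, 0, 1449551462⟩] 1 1 2 7 0 (sgb false) (sgb false) x :=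
  strip_altBD (m := 1449551462) true rfl hκ (SH.κ0 hκ (SH.hx1 hx).le (SH.hx2 hx').le) (SH.hx1 hx).le (SH.hx2 hx') (covB71).cov (covB02).cov hx hx' c_B70mm_112_s1 cutB_nil (noExt_B)

noncomputable def cut_B70mm_202_s1 : Cut := Cut.of [[⟨4, 0, 0, 1449551462⟩]]

noncomputable def f_B70mm_202_s1 : ℕ → ℕ → ℕ → ℕ → Bool := onCell 1073741824 536870912 0 536870912 697932185 42949674
    (rowF 0 false false false .pp 2 0 2 (qsf 1073741824 536870912 0 536870912 0) ndB7q2 ndB0q2 pcB0 cut_B70mm_202_s1 Ext.none)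

def k0_B70mm_202_s1 : ∃ t, chk3 f_B70mm_202_s1 t 1 1 1 = true :=
  ⟨(l 5), by decide +kernel⟩

theorem c_B70mm_202_s1 : CertF 1073741824 536870912 0 536870912 697932185 42949674 false false false .pp 2 0 2
    ndB7q2 ndB0q2 pcB0 cut_B70mm_202_s1 Ext.none :=
  certF0 (fam := false) (s1 := false) (s2 := false) (a := 2) (b := 0) (c := 2) (cn := .pp) (n1 := ndB7q2) (n2 := ndB0q2) (pc := pcB0) (cut := cut_B70mm_202_s1) (xt := Ext.none) (P1 := 1073741824) (W1 := 536870912) (P2 := 0) (W2 := 536870912) (P3 := 697932185) (W3 := 42949674)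
    rfl k0_B70mm_202_s1

theorem s_B70mm_202_s1 {κ x : ℝ} (hκ : κ * h0 = ken x) (hx : ((697932185 : ℕ) : ℝ) / S ≤ x)
    (hx' : x ≤ (((697932185 : ℕ) : ℝ) + (42949674 : ℕ)) / S) :
    AltB (VFD κ) PP tK tL pcB [⟨3, 0, 0, 1449551462⟩] 2 0 2 7 0 (sgb false) (sgb false) x :=
  strip_altBD (m := 1449551462) true rfl hκ (SH.κ0 hκ (SH.hx1 hx).le (SH.hx2 hx').le) (SH.hx1 hx).le (SH.hx2 hx') (covB72).cov (covB02).cov hx hx' c_B70mm_202_s1 cutB_nil (noExt_B)

end Pool.Agent.Strip051.G.I6500_6900.Tab.St.C
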