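import Pool.Agent.Strip051.G.I6500_6900.Tab
import Pool.Agent.Strip051.PB.StripB

/-! # Strips, near vertex: certificates 7 (generated) -/

set_option linter.all false
set_option maxRecDepth 100000

namespace Pool.Agent.Strip051.G.I6500_6900.Tab.CS.BB70

open Pool.Agent.Strip051.PB Pool.Agent.Strip051.PB.T
open Pool.Agent.Strip051.G.I6500_6900.Tab

noncomputable def cut_pp_101_s : Cut := Cut.of [[⟨4, 0, 0, 1449551462⟩], [⟨0, 1, 0, 53687091⟩, ⟨1, 0, 0, 53687091⟩, ⟨2, 1, 0, 53687091⟩]]

noncomputable def f_pp_101_s : ℕ → ℕ → ℕ → ℕ → Bool := onCell 0 536870912 536870912 536870912 697932185 42949674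
    (rowNE 3 eng mog cd7q1 cd0q1 pd0 2 false true true .npn 1 0 1 (qsf 536870912 536870912 536870912 536870912 0) ndB7q1 ndB0q1 pcB0 cut_pp_101_s Ext.none)

def k0_pp_101_s : ∃ t, chk3 f_pp_101_s t 2 2 1 = true :=
  ⟨(l 3), by decide +kernel⟩

def k1_pp_101_s : ∃ t, chk3 f_pp_101_s t 4 6 1 = true :=
  ⟨(l 3), by decide +kernel⟩

def k2_pp_101_s : ∃ t, chk3 f_pp_101_s t 5 12 1 = true :=
  ⟨(l 3), by decide +kernel⟩

def k3_pp_101_s : ∃ t, chk3 f_pp_101_s t 10 13 1 = true :=
  ⟨(l 3), by decide +kernel⟩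

def k4_pp_101_s : ∃ t, chk3 f_pp_101_s t 11 26 1 = true :=
  ⟨(l 3), by decide +kernel⟩

def k5_pp_101_s : ∃ t, chk3 f_pp_101_s t 22 27 1 = true :=
  ⟨(b (l 3) (a (l 3) (b (l 3) (a (l 3) (b (l 3) (a (l 3) (b (b (l 3) (a (l 3) (a (l 3) (c (c (l 258939556231) (l 258402685351)) (a (l 446844371959) (b (l 493015270183) (l 145659790535))))))) (a (c (c (b (l 432885730791) (a (l 258939556215) (l 16776456))) (b (l 441475665063) (a (l 258939556183) (l 16776456)))) (b (a (l 3) (c (l 450065598087) (l 466708595959))) (a (b (l 488720303399) (l 308868546647)) (c (l 16776456) (b (l 162839660279) (l 16775960)))))) (c (c (c (l 113984409047) (l 16778736)) (c (l 110226312663) (l 108615699927))) (b (a (c (l 188609465527) (b (l 371682443671) (l 16777616))) (l 16775800)) (l 16774472))))))))))), by decide +kernel⟩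

def k6_pp_101_s : ∃ t, chk3 f_pp_101_s t 23 54 1 = true :=
  ⟨(a (l 3) (b (a (l 3) (b (l 3) (a (l 3) (b (l 3) (a (l 3) (c (l 476909143367) (l 495699623975))))))) (a (b (l 3) (a (b (l 3) (a (l 3) (c (c (l 489794047143) (l 501605206343)) (l 527375008839)))) (b (b (l 3) (a (l 3) (c (c (a (l 484425336103) (l 209010560615)) (l 365776863719)) (a (l 508584526199) (c (l 199346884135) (l 293299290103)))))) (a (c (b (c (l 432348857767) (l 435033211927)) (c (c (l 16778744) (l 168208371655)) (l 162839662535))) (a (b (l 3) (b (l 440401920231) (l 146196662167))) (b (l 414632116471) (l 16776120)))) (c (c (c (l 16775112) (l 16775104)) (l 16775104)) (a (a (b (l 164450273623) (l 16775120)) (l 16775432)) (l 16774432))))))) (b (a (b (l 3) (a (c (c (l 490330917207) (l 497310238311)) (l 515026977271)) (c (b (c (l 412484633543) (l 414632116871)) (c (c (l 16779184) (l 16776560)) (l 16779184))) (b (l 424832663719) (a (a (l 228874783991) (l 16778200)) (l 16775904)))))) (a (b (a (c (l 480130368743) (l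 498920849591)) (b (l 3) (c (l 183240756343) (l 171966467111)))) (c (c (l 16777520) (l 16774888)) (l 59760445607))) (b (a (b (c (l 250886492407) (l 359334412311)) (l 16777096)) (c (l 16775424) (l 16775416))) (l 16774872)))) (a (a (b (c (c (c (l 153175987015) (l 152102245175)) (b (l 204178723591) (l 16775360))) (b (a (l 398525989015) (l 121500600535)) (l 16775352))) (c (l 16777712) (l 16772448))) (c (l 16777328) (l 16776976))) (c (l 16773048) (l 16778240))))))), by decide +kernel⟩

def k7_pp_101_s : ∃ t, chk3 f_pp_101_s t 46 110 1 = true :=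
  ⟨(a (l 3) (b (a (l 3) (b (l 3) (a (l 3) (c (b (c (l 445233760215) (l 447918114295)) (c (c (l 191293821207) (l 185925112087)) (l 177872048391))) (b (a (l 3) (c (l 434496340599) (l 444160015415))) (b (a (l 472077304263) (c (l 16776768) (l 119353116039))) (a (a (l 359334412407) (l 16776792)) (l 16775792)))))))) (a (b (b (l 3) (a (l 3) (a (l 3) (c (c (l 246054654071) (l 242296557719)) (b (l 482814722631) (a (l 376514281655) (l 110226310119))))))) (a (c (c (b (l 448991857207) (a (l 250886492407) (l 16776400))) (b (l 455434307607) (a (b (l 471540434071) (l 202031237511)) (l 16776392)))) (b (a (l 3) (c (l 447381242807) (b (l 3) (a (l 3) (l 386177958071))))) (b (a (l 489794044631) (a (a (l 342154543223) (l 143512306743)) (l 16776560))) (a (a (a (l 467245465991) (b (l 3) (l 178408915639))) (b (l 180556399607) (l 16776656))) (l 16775904))))) (c (c (c (l 108615699623) (l 107005086887)) (b (l 133311761559) (l 16774400))) (b (a (a (c (l 211694914391) (b (l 480130367831) (l 111300051991)))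 (b (b (l 382419861655) (l 16776952)) (l 16776216))) (l 16777016)) (l 16777024))))) (c (b (c (a (b (a (l 431275115911) (l 174113950615)) (l 16777648)) (l 16776632)) (a (b (l 331417125271) (l 16775680)) (l 16774008))) (c (l 16776656) (l 16771400))) (b (a (a (b (c (l 442012533527) (b (l 3) (l 417853341959))) (a (a (b (l 220284847623) (l 16776352)) (l 84456506231)) (l 16776016))) (b (b (a (l 459192402247) (l 169818981911)) (l 16777472)) (l 16775016))) (l 16776624)) (l 16776640)))))), by decide +kernel⟩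

def k8_pp_101_s : ∃ t, chk3 f_pp_101_s t 46 111 1 = true :=
  ⟨(b (a (a (b (l 3) (a (l 3) (c (c (b (l 435570085031) (a (l 258402685271) (l 16776456))) (b (l 450602469975) (a (l 360408154919) (l 16776456)))) (b (a (l 3) (c (l 455434306855) (b (l 3) (l 436643824183)))) (a (b (l 500531463175) (a (l 399062860183) (l 143512306871))) (a (b (a (l 378661765351) (l 178408916151)) (l 16776288)) (l 16776120))))))) (b (b (a (l 3) (c (a (c (l 424295794503) (l 437717566935)) (c (l 186998852695) (l 185388239959))) (b (a (l 3) (a (l 489257173527) (b (l 399062859991) (l 136532984519)))) (a (c (l 423222051495) (a (l 3) (l 405505310967))) (a (b (l 186998850583) (l 16776672)) (l 16776256)))))) (a (a (l 3) (c (c (l 254107718007) (b (l 468856079703) (l 206326204855))) (c (l 364166251031) (b (l 511268881095) (a (l 409263407383) (l 135996114055)))))) (c (c (l 16778392) (l 16778392)) (b (a (a (a (l 370608701623) (l 170892723335)) (l 16776592)) (l 16775600)) (l 16775272))))) (c (c (a (c (l 112373796295)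 (l 16778728)) (l 16772800)) (a (c (l 109152570823) (l 108615699735)) (l 16772792))) (a (b (a (a (b (l 494089011847) (l 141364823207)) (b (a (l 375977410759) (l 175187690647)) (l 16776280))) (l 16777088)) (l 16774464)) (l 16778032))))) (a (c (c (b (l 16778016) (l 16768816)) (l 16776032)) (a (c (l 16777360) (b (c (l 16776720) (l 16777376)) (l 16770128))) (l 16774696))) (c (l 16772360) (l 16765456)))) (a (a (b (a (c (b (a (c (l 421074569463) (l 434496341863)) (c (l 191830690999) (l 189683207351))) (c (l 16778424) (l 16778424))) (b (b (a (l 3) (b (l 448454984343) (l 331417125031))) (a (l 429664502551) (l 110226310407))) (a (a (b (l 213305526103) (l 16776296)) (l 16776136)) (l 16775136)))) (c (c (l 16774136) (l 16774136)) (l 16777576))) (c (c (l 16771480) (l 16771472)) (l 16776720))) (c (c (l 16778640) (l 16768152)) (l 16773392))) (c (l 16770336) (l 16770640)))), by decide +kernel⟩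

def k9_pp_101_s : ∃ t, chk3 f_pp_101_s t 47 55 1 = true :=
  ⟨(a (c (b (b (a (b (a (c (c (l 420000827639) (l 420000827367)) (l 420000826967)) (b (c (a (l 415168988135) (l 157470952039)) (l 315847868599)) (c (l 16778168) (l 16775544)))) (c (c (l 80698412263) (a (l 97878281143) (l 16772624))) (l 74255961303))) (c (l 16777168) (l 16775840))) (c (c (l 16775920) (l 16775912)) (l 16775888))) (l 16767952)) (b (b (a (a (a (b (l 3) (b (a (b (l 440938791143) (l 16776752)) (l 102173246871)) (l 16774952))) (b (b (l 3) (a (l 409263407383) (b (l 429127631047) (l 16776712)))) (l 16777224))) (b (b (a (l 427517018471) (a (b (l 417316470935) (l 16776672)) (l 16776496))) (c (l 16775544) (l 54928606759))) (l 16772608))) (l 16777784)) (l 16775864)) (l 16774440))) (b (c (b (l 16772504) (l 16754824)) (l 16774400)) (l 16763808))), by decide +kernel⟩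

def k10_pp_101_s : ∃ t, chk3 f_pp_101_s t 4 14 1 = true :=
  ⟨(a (l 3) (b (l 3) (a (l 3) (b (l 3) (a (l 3) (b (l 3) (a (b (l 3) (a (l 3) (b (l 3) (b (a (l 3) (l 397452249527)) (a (l 425369537511) (a (a (l 265382005943) (l 149417888263)) (l 16776184))))))) (b (a (l 3) (b (a (l 3) (l 433959474023)) (b (a (l 3) (c (l 212231787495) (l 202031240151))) (a (l 331953996327) (l 16775256))))) (a (a (b (b (l 3) (l 375440541527)) (a (b (l 145659792471) (l 16774960)) (l 16777392))) (b (b (a (l 432348858647) (l 227264171799)) (l 92509571895)) (l 16772896))) (a (b (l 59760445687) (l 16775616)) (c (l 16775240) (l 16769896)))))))))))), by decide +kernel⟩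

def k11_pp_101_s : ∃ t, chk3 f_pp_101_s t 8 30 1 = true :=
  ⟨(a (l 3) (b (l 3) (a (l 3) (b (l 3) (a (l 3) (b (l 3) (a (l 3) (b (l 3) (b (a (l 3) (b (l 437180697047) (a (l 3) (a (l 353965703623) (l 16777928))))) (b (a (l 3) (a (a (l 369534960231) (l 154786596263)) (l 16776176))) (a (a (l 3) (a (l 384030475015) (l 197736269399))) (l 16777648)))))))))))), by decide +kernel⟩

def k12_pp_101_s : ∃ t, chk3 f_pp_101_s t 16 31 1 = true :=
  ⟨(b (b (l 3) (b (l 3) (b (l 3) (l 14)))) (l 14)), by decide +kernel⟩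

def k13_pp_101_s : ∃ t, chk3 f_pp_101_s t 34 124 1 = true :=
  ⟨(a (l 3) (b (l 3) (a (l 3) (a (l 3) (b (l 3) (b (l 3) (b (a (l 3) (a (l 400136602583) (b (l 378661765639) (l 138143597447)))) (b (a (l 413558375463) (a (l 146196661191) (l 16776464))) (a (a (l 412484633271) (l 171966465047)) (l 16776200)))))))))), by decide +kernel⟩

def k14_pp_101_s : ∃ t, chk3 f_pp_101_s t 68 250 1 = true :=
  ⟨(a (l 3) (a (l 3) (b (l 3) (b (l 3) (b (b (l 3) (a (l 3) (a (l 3) (a (l 3) (l 366313734471))))) (a (a (l 3) (b (l 3) (l 401747214983))) (b (a (l 387788571223) (c (l 154786595703) (l 142438564727))) (a (a (a (l 236927845095) (l 167671497367)) (l 16776920)) (l 16775816))))))))), by decide +kernel⟩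

def k15_pp_101_s : ∃ t, chk3 f_pp_101_s t 68 251 1 = true :=
  ⟨(a (a (b (l 3) (a (l 14) (b (b (l 3) (a (l 14) (b (a (l 394767892967) (b (l 306184192663) (l 16777432))) (c (l 107541955079) (l 16777480))))) (l 14)))) (a (b (l 3) (b (b (a (b (l 3) (a (l 386714829239) (b (l 283098743495) (l 16777080)))) (b (a (l 378124894599) (c (l 198273139431) (l 199883752167))) (l 94657053111))) (c (c (l 83382764023) (l 16777536)) (l 16777528))) (b (a (l 16776696) (l 16774784)) (l 16773944)))) (b (b (l 3) (b (l 3) (a (b (l 3) (a (l 367924347239) (c (l 177872044887) (l 179482657623)))) (b (a (c (l 357723799863) (l 364166250791)) (c (l 168745239335) (l 170892722967))) (l 16777376))))) (b (c (c (b (l 16777488) (l 16777672)) (l 16776912)) (l 16777552)) (l 16775936))))) (b (b (a (b (b (l 3) (a (l 3) (a (l 3) (l 416242729703)))) (a (c (c (l 425369536151) (l 429127632519)) (l 434496341607)) (a (b (l 423222051607) (a (c (l 244444038103) (l 248202134471)) (l 142975435383))) (b (a (a (l 280951259943)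 (l 205252461351)) (l 133848629815)) (l 16776600))))) (a (b (b (a (l 409263407799) (c (a (l 215453008695) (l 16776952)) (l 174113948599))) (a (a (a (l 269140099831) (l 197736268455)) (l 16777304)) (l 16776536))) (l 16777288)) (c (l 16776672) (l 16777960)))) (a (a (b (a (b (l 3) (a (c (l 349133865223) (l 355576316151)) (c (l 159618433767) (l 161229046503)))) (b (a (c (l 340007059671) (l 257328940039)) (l 151565370039)) (l 16776656))) (c (l 16777424) (l 16777408))) (c (l 16777128) (l 16776776))) (a (c (l 16776920) (l 16776872)) (l 16775696)))) (b (c (c (l 16776576) (l 16777856)) (l 16776496)) (a (l 16776752) (l 16769104))))), by decide +kernel⟩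

def k16_pp_101_s : ∃ t, chk3 f_pp_101_s t 69 125 1 = true :=
  ⟨(b (b (b (a (l 3) (a (b (a (l 3) (b (l 424832664727) (a (l 429664502567) (c (l 190756947015) (l 191830688839))))) (b (a (l 3) (a (a (l 254107714551) (l 16777712)) (l 16776616))) (a (a (l 3) (c (l 212231783527) (l 215453008983))) (l 16776352)))) (b (b (a (a (l 181630141495) (l 16776536)) (l 16774328)) (l 16777312)) (l 16777448)))) (a (a (l 3) (b (b (l 3) (a (l 3) (a (l 3) (c (l 228337911015) (l 231022265559))))) (b (a (l 3) (a (c (l 237464716567) (l 239612200215)) (l 16776760))) (a (a (l 3) (c (l 335175221463) (l 339470188759))) (l 16777480))))) (a (b (b (a (a (c (l 220284847271) (l 222432330903)) (l 16776688)) (l 16774472)) (a (l 16777080) (l 16775224))) (l 16776936)) (a (l 16776352) (l 16772536))))) (a (b (a (b (a (l 3) (a (l 3) (a (l 427517019095) (b (l 3) (l 238001587111))))) (a (a (l 3) (a (l 3) (b (l 3) (l 260013294615)))) (b (a (c (l 356650058119) (l 362555638135)) (l 113447535351)) (c (l 109152568103) (l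 16777608))))) (a (b (a (b (c (l 341617672471) (l 347523252487)) (l 16777520)) (l 88751473271)) (l 16777024)) (l 16777048))) (a (a (b (b (a (c (l 370608701943) (l 377051152871)) (c (l 138143597351) (l 16777608))) (c (c (l 117742502823) (l 112373793703)) (l 110763180951))) (l 16777160)) (c (l 16776544) (l 16775200))) (a (l 16776632) (l 16772808)))) (a (b (a (l 16776496) (l 16772672)) (l 16771008)) (l 16774984)))) (a (b (c (c (l 16776512) (l 16776464)) (l 16776400)) (b (l 16773024) (l 16775928))) (b (a (l 16767592) (l 16765192)) (l 16772328)))), by decide +kernel⟩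

def k17_pp_101_s : ∃ t, chk3 f_pp_101_s t 70 124 1 = true :=
  ⟨(b (a (l 3) (b (l 3) (b (b (l 3) (a (l 3) (a (l 3) (a (l 3) (l 378124894935))))) (a (a (l 3) (b (l 3) (l 418390214039))) (a (b (c (l 406042182951) (l 404431570183)) (a (a (l 345912639799) (l 170355852583)) (l 16777696))) (b (a (c (l 205252462247) (l 214379267575)) (l 16777936)) (l 16775824))))))) (a (a (b (l 3) (b (b (a (l 3) (a (c (l 374366798567) (l 380272378583)) (b (l 255718327687) (l 16776856)))) (b (a (a (l 3) (l 361481896327)) (l 16777584)) (a (a (l 370071830983) (l 16777592)) (l 16776040)))) (c (c (a (l 82845893495) (l 16777288)) (l 16777704)) (l 67813508295)))) (b (b (l 3) (b (a (l 3) (a (c (l 350207607271) (l 355039445463)) (c (l 141364823463) (l 144586048759)))) (a (a (c (l 362555638375) (l 367924347479)) (b (l 236390974711) (l 16776784))) (l 16777472)))) (c (c (b (l 16777720) (l 16770264)) (l 16777904)) (l 16777704)))) (b (a (b (a (b (l 428590761495) (a (c (l 338396447063) (l 343228285255)) (c (l 129016792343)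 (l 16777856)))) (b (a (c (l 326585286855) (l 330880254135)) (l 116668761191)) (l 16775992))) (c (l 16777552) (l 16777528))) (c (l 16777592) (l 16776240))) (b (a (a (l 16778528) (l 16772088)) (l 16770296)) (l 16774488))))), by decide +kernel⟩

def k18_pp_101_s : ∃ t, chk3 f_pp_101_s t 71 124 1 = true :=
  ⟨(b (a (b (b (b (l 3) (a (l 3) (a (l 3) (a (l 421611439159) (a (l 272361326167) (l 204178720119)))))) (b (a (l 3) (a (a (l 435033212103) (l 337322705175)) (l 102173246823))) (a (a (l 3) (a (l 3) (l 350744478135))) (c (a (l 114521277863) (l 16772856)) (l 90898957879))))) (a (b (b (c (a (l 378661766151) (l 125795567143)) (a (l 383493604343) (l 123111212567))) (a (a (a (l 219211105751) (l 16777792)) (l 16776536)) (l 16775648))) (l 16777200)) (c (l 16775952) (l 16778520)))) (b (a (b (a (b (a (l 398525989799) (l 214379267799)) (l 16777768)) (l 74792829911)) (l 16776848)) (l 16776888)) (a (c (l 16776208) (l 16776136)) (l 16773816)))) (a (c (l 16775112) (l 16773024)) (c (l 16773712)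 (l 16773544)))), by decide +kernel⟩

def k19_pp_101_s : ∃ t, chk3 f_pp_101_s t 35 125 1 = true :=
  ⟨(a (a (b (c (c (l 16775704) (l 16776296)) (l 16776208)) (b (l 16772032) (l 16757192))) (b (b (a (l 16767072) (l 16764696)) (a (l 16762568) (l 16760136))) (b (l 16756984) (l 16752416)))) (b (a (b (l 16761072) (l 16756744)) (b (l 16756496) (l 16752024))) (a (l 16749968) (l 16745296)))), by decide +kernel⟩

def k20_pp_101_s : ∃ t, chk3 f_pp_101_s t 17 63 1 = true :=
  ⟨(b (a (a (b (a (a (l 14) (a (l 14) (b (l 16775128) (l 14)))) (a (b (l 16773328) (l 16758344)) (b (c (l 16776176) (l 16765512)) (l 16761200)))) (a (l 14) (l 16766112))) (b (b (c (l 16766488) (l 16764984)) (l 16765728)) (a (l 16750888) (l 16746152)))) (a (b (a (l 16750408) (l 16745688)) (l 16739056)) (b (l 16738640) (l 16729616)))) (a (a (l 14) (b (l 16739536) (l 16730968))) (b (a (l 16729936) (l 16720584)) (l 16716864)))), by decide +kernel⟩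

def k21_pp_101_s : ∃ t, chk3 f_pp_101_s t 18 60 1 = true :=
  ⟨(a (l 3) (b (l 3) (a (l 3) (b (l 3) (a (b (l 3) (a (l 3) (b (l 427517021111) (a (l 343765156519) (l 16778200))))) (b (a (c (l 411410894919) (l 417316474887)) (c (b (l 385104218199) (l 135996115895)) (b (l 389936056375) (l 135996115879)))) (b (a (a (a (l 354502574823) (l 169818982631)) (l 16776312)) (l 16774648)) (l 16779032)))))))), by decide +kernel⟩

def k22_pp_101_s : ∃ t, chk3 f_pp_101_s t 36 61 1 = true :=
  ⟨(b (a (l 3) (b (l 3) (a (a (l 3) (a (l 3) (b (l 3) (b (l 3) (l 411410892823))))) (b (b (l 3) (a (l 3) (a (l 3) (l 372219315495)))) (b (a (c (l 409263409703) (l 404968442359)) (a (a (l 328195899687) (l 145659791431)) (l 16777352))) (a (a (b (l 387788571719) (l 137606727447)) (l 98952021687)) (l 16774552))))))) (a (b (a (l 3) (b (l 3) (b (a (l 3) (b (a (l 3) (l 333564608807)) (a (l 345912639975) (l 16776416)))) (b (a (a (l 3) (l 357723800231)) (l 16777912)) (a (a (l 370071831383) (l 16777936)) (l 16774888))))))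 (a (b (a (b (l 3) (a (l 431811987703) (b (l 415168988487) (a (l 235854104279) (l 16776752))))) (a (c (b (l 404431570903) (c (l 113447536583) (l 112373794743))) (b (l 410337150887) (l 109152569415))) (b (b (l 382956733431) (l 132238018279)) (l 16775240)))) (b (a (b (a (a (l 250886489991) (l 16778160)) (l 16775976)) (l 16778112)) (l 16773672)) (l 16776616))) (b (a (a (a (b (l 105394472583) (l 16774360)) (l 16777464)) (l 16776592)) (l 16777472)) (l 16774344)))) (b (a (b (b (a (l 438254439639) (a (b (l 425369535927) (l 167671498775)) (a (l 132774889479) (l 16776216)))) (a (a (b (l 3) (l 228337912167)) (b (l 214379268263) (l 16776208))) (l 16777616))) (c (c (l 16778264) (l 16778240)) (l 16778224))) (c (b (l 16777848) (l 16768456)) (l 16775728))) (c (l 16772960) (l 16774832))))), by decide +kernel⟩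

def k23_pp_101_s : ∃ t, chk3 f_pp_101_s t 37 61 1 = true :=
  ⟨(b (a (b (a (b (l 3) (b (l 3) (a (l 3) (a (l 436106955079) (a (l 368461218807) (l 224579815943)))))) (b (b (l 3) (a (l 3) (a (l 385641088535) (a (l 233169750567) (l 16778104))))) (a (a (b (l 406579054519) (l 110226311207)) (b (a (l 344838898247) (l 162302789815)) (l 16775336))) (c (l 16777272) (l 16777264))))) (a (b (b (a (a (l 3) (a (l 393157281159) (l 336785834439))) (c (l 109689440711) (l 109689440615))) (a (a (a (l 182703884743) (l 16777960)) (l 16775808)) (l 16774104))) (l 16777408)) (c (l 16774968) (l 16774944)))) (b (a (b (b (a (a (l 364703122535) (l 142438566311)) (l 16775160)) (l 47412414103)) (l 16776536)) (l 16776728)) (l 16771624))) (a (b (c (l 16774296) (l 16763752)) (l 16760624)) (b (l 16754976) (l 16746856)))), by decide +kernel⟩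

def k24_pp_101_s : ∃ t, chk3 f_pp_101_s t 19 30 1 = true :=
  ⟨(b (a (b (a (l 3) (b (a (l 3) (a (l 3) (b (l 3) (a (l 435570085751) (b (l 3) (l 248739007975)))))) (a (b (a (l 3) (c (l 411410894823) (l 417316474791))) (b (a (l 421611441047) (c (l 144049180135) (l 146733534535))) (a (c (l 210621172183) (l 210621172167)) (l 16774848)))) (b (a (b (l 382419863463) (a (l 157470952215) (l 16775920))) (c (l 80161540983) (l 16778424))) (l 16777576))))) (a (b (a (b (l 3) (b (a (l 3) (c (l 351281349799) (l 355039446167))) (a (c (l 367924348551) (l 372756186727)) (l 102173247543)))) (a (b (a (l 410874023095) (b (l 3) (l 172503337607))) (l 71034734407)) (b (b (a (l 367924348087) (l 142438566215)) (l 16775496)) (l 16772616)))) (a (a (b (c (b (l 119889988007) (l 16774384)) (l 94120184423)) (l 16771464)) (l 16776464)) (l 16775800))) (b (a (c (l 16777648) (l 16776336)) (l 16776800)) (l 16771256)))) (b (a (a (b (b (a (l 3) (b (l 3) (a (l 378661766439) (l 136532986743)))) (a (b (a (l 407115925335)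 (l 214379269351)) (l 16778432)) (l 16777064))) (l 16777392)) (b (b (a (a (b (l 350744478423) (l 16775712)) (l 77477186151)) (l 16773688)) (l 16770776)) (l 16764552))) (c (c (l 16776968) (l 16776856)) (l 16776696))) (b (c (l 16772112) (l 16769216)) (b (l 16762776) (l 16753424))))) (a (b (a (a (l 16771104) (l 16766768)) (c (l 16769600) (l 16769488))) (a (l 16758008) (l 16731928))) (b (a (l 16759152) (b (l 16731744) (l 16723600))) (a (l 16721472) (l 16711488))))), by decide +kernel⟩

def k25_pp_101_s : ∃ t, chk3 f_pp_101_s t 9 31 1 = true :=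
  ⟨(b (a (a (a (c (b (b (a (l 16772552) (l 16773208)) (l 16763784)) (b (l 16726512) (l 16738480))) (b (b (l 16775368) (l 16762592)) (l 16768112))) (b (b (a (l 16758024) (l 16753632)) (a (l 16739024) (l 16744856))) (b (l 16738136) (l 16729096)))) (a (b (l 16755824) (l 16724512)) (l 16745488))) (a (l 16744696) (b (l 16699904) (l 16683200)))) (a (b (a (a (l 16724768) (l 16715488)) (b (l 16706312) (l 16697160))) (a (b (l 16706816) (l 16698296)) (l 16684392))) (b (a (l 16683840) (l 16666448)) (l 16615856)))), by decide +kernel⟩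

def k26_pp_101_s : ∃ t, chk3 f_pp_101_s t 20 28 1 = true :=
  ⟨(l 3), by decide +kernel⟩

def k27_pp_101_s : ∃ t, chk3 f_pp_101_s t 21 56 1 = true :=
  ⟨(l 3), by decide +kernel⟩

def k28_pp_101_s : ∃ t, chk3 f_pp_101_s t 42 57 1 = true :=
  ⟨(b (l 3) (a (l 3) (b (l 3) (a (b (l 3) (a (l 3) (b (l 3) (c (c (l 334101479879) (l 334101479879)) (l 224579819543))))) (b (a (c (c (l 438254441479) (l 443623150583)) (l 453823697879)) (c (b (c (l 397989120407) (l 399062862215)) (c (l 163376533287) (l 160155307847))) (b (l 401210345847) (l 16779176)))) (c (a (b (a (b (l 439328180071) (l 210084301479)) (l 115595020359)) (l 16775008)) (l 16778624)) (a (b (l 192367563751) (l 16774976)) (l 16773312)))))))), by decide +kernel⟩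

def k29_pp_101_s : ∃ t, chk3 f_pp_101_s t 43 57 1 = true :=
  ⟨(b (a (b (l 3) (a (l 3) (b (l 3) (a (l 3) (a (l 3) (c (c (l 401210346375) (l 402820959111)) (l 404431571831))))))) (b (a (l 3) (b (l 3) (a (a (l 3) (c (c (l 424295796327) (l 426443279959)) (l 437717569095))) (c (b (c (l 379198637959) (l 380809250679)) (c (l 112910666903) (l 110763183287))) (b (l 381346121591) (l 114521279735)))))) (a (b (a (l 3) (c (c (b (l 444696891335) (a (l 384567346647) (l 16778064))) (b (l 448454987703) (a (l 386177959383) (l 16778056)))) (b (l 458118664103) (l 319605964839)))) (a (c (b (c (l 355576317095) (l 356650058263)) (c (l 16778520) (l 16778504))) (b (l 357186929815) (l 16775872))) (c (c (l 16774256) (l 16774232)) (l 16774208)))) (a (b (b (c (c (a (l 227264172231) (l 16776176)) (c (l 175187693879) (l 173040210263))) (l 171966467863)) (c (l 16777344) (l 16774696))) (c (l 16771528) (l 16771456))) (c (l 16776832) (l 16770872)))))) (b (a (a (b (l 3) (a (b (l 3) (c (c (l 363629381015) (l 364703122839))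 (l 365776864647))) (c (a (b (c (l 397989119719) (l 399062861543)) (l 86603990663)) (c (l 106468215943) (l 105394474087))) (b (l 330880254279) (l 16775456))))) (b (a (c (c (b (l 428590763239) (a (l 243907170839) (l 16776376))) (b (l 430738246871) (c (l 188072596167) (l 186998854343)))) (b (l 442012536007) (l 186461983495))) (c (b (c (l 153712856647) (l 151028502119)) (l 16774344)) (l 102173249287))) (c (c (l 16772504) (l 16772464)) (l 16772416)))) (c (c (l 16777032) (l 16776960)) (l 16776856))) (a (b (a (c (a (c (l 83382766583) (l 82309024711)) (l 16772264)) (l 16778792)) (l 16773384)) (c (l 16777112) (l 16766464))) (l 16768416)))), by decide +kernel⟩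

def k30_pp_101_s : ∃ t, chk3 f_pp_101_s t 20 29 1 = true :=
  ⟨(b (a (l 3) (b (a (l 3) (b (l 3) (a (l 3) (b (l 3) (a (c (l 431275119239) (l 440938795607)) (c (b (l 392083540167) (l 129016794919)) (b (l 394231023799) (l 130627407655)))))))) (a (b (a (l 3) (b (l 3) (a (l 3) (c (l 399599733607) (l 403894701511))))) (a (b (a (l 3) (l 437180699559)) (a (b (l 3) (l 333027738135)) (c (b (l 203104981047) (l 16775168)) (l 125258700215)))) (b (a (b (l 406579055223) (l 173577081351)) (c (l 95730798135) (l 16777848))) (l 16772232)))) (b (b (b (a (l 3) (a (c (a (l 241222816167) (l 16776384)) (l 188072596247)) (l 16774360))) (a (a (l 3) (c (l 323900932215) (l 217063626439))) (l 16776144))) (b (a (a (c (l 351818220551) (l 355039446007)) (l 16777992)) (c (l 16766144) (l 16766032))) (a (a (l 95193926199) (l 16767944)) (l 16779624)))) (c (l 16776952) (l 16776736)))))) (a (b (a (b (l 3) (a (b (l 3) (a (l 3) (c (l 402820959911) (l 399599734391)))) (b (a (l 3) (b (l 3) (l 337322705575))) (a (b (l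 361481897367) (l 16778736)) (l 16777248))))) (b (b (a (l 3) (a (c (l 404968443591) (l 400673476247)) (b (l 359334413655) (l 16778680)))) (b (a (l 425369539223) (a (l 124721827703) (l 16768664))) (a (a (l 3) (l 180556402231)) (l 16773056)))) (a (a (b (b (l 313163513751) (l 16775272)) (l 16768096)) (l 16776816)) (l 16775472)))) (a (b (a (b (a (b (l 409263409879) (l 140291084951)) (c (l 94657056727) (l 91972702119))) (l 16777744)) (c (l 16780024) (l 16769408))) (c (l 16774080) (l 16773848))) (c (c (l 16773232) (l 16778272)) (l 16767496)))) (b (b (a (b (a (l 16778440) (a (l 16769192) (l 16766512))) (l 16776640)) (a (l 16781248) (l 16754896))) (a (a (l 16772752) (l 16756896)) (l 16769792))) (a (b (l 16771792) (l 16742040)) (l 16761792))))), by decide +kernel⟩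

def k31_pp_101_s : ∃ t, chk3 f_pp_101_s t 21 29 1 = true :=
  ⟨(b (a (b (a (b (a (l 3) (b (a (l 3) (c (c (l 414095249479) (l 415168991287)) (l 428053893143))) (b (a (c (l 431275117815) (l 445233761495)) (c (c (l 165524016983) (l 162839662439)) (l 16779192))) (a (c (a (l 355039445799) (l 16777784)) (l 192367563735)) (l 16777072))))) (a (b (a (c (b (l 3) (l 362018768199)) (l 390472928231)) (c (b (a (l 397989119703) (l 183777627351)) (l 16775520)) (b (l 222432335815) (l 16775488)))) (b (c (l 80698412103) (l 16777256)) (l 16777728))) (c (c (l 16775680) (l 16775616)) (l 16775520)))) (a (a (b (b (c (b (c (l 365776864711) (l 366313735623)) (c (l 16778704) (l 16778696))) (b (l 367387477431) (l 16776056))) (l 16776744)) (l 16776752)) (b (c (c (l 16777576) (l 16777528)) (l 16777464)) (l 16774048))) (b (c (l 16773512) (l 16768112)) (l 16770008)))) (b (a (c (l 16774920) (l 16774664)) (c (l 16774752) (l 16774296))) (a (a (l 16758264) (l 16752888)) (l 16744904)))) (a (b (c (c (l 16766560)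 (l 16776856)) (l 16776592)) (b (l 16742984) (l 16734480))) (b (b (a (l 16752112) (l 16746880)) (l 16741088)) (l 16728560)))) (b (a (a (b (l 16746848) (l 16738128)) (l 16752896)) (a (l 16742776) (l 16712320))) (a (a (b (l 16729368) (l 16721184)) (l 16715656)) (l 16701296)))), by decide +kernel⟩

def k32_pp_101_s : ∃ t, chk3 f_pp_101_s t 44 56 1 = true :=
  ⟨(b (l 3) (a (b (l 3) (a (b (l 3) (a (l 3) (c (c (l 445233763735) (l 447918118279)) (l 458118664935)))) (b (b (l 3) (a (l 3) (c (a (c (l 443086277255) (l 446307502711)) (c (l 212231786327) (l 212768657159))) (a (l 456508050039) (l 211694915335))))) (a (c (c (b (l 399062862295) (c (l 156397211367) (l 154786598663))) (b (l 400673475031) (c (l 153175985927) (l 16779152)))) (b (l 402284087751) (a (l 198810013287) (l 16775856)))) (c (c (l 75866573623) (l 16778640)) (l 76940315415)))))) (b (a (b (l 3) (b (a (l 3) (c (c (l 413558377351) (l 415168990087)) (l 416779602823))) (a (c (c (l 444696891399) (l 448454987783)) (l 458118664183))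 (c (c (c (l 170355855543) (l 169818984631)) (c (l 168208371895) (l 166597759159))) (a (l 326585286967) (l 16776112)))))) (a (b (b (l 3) (c (a (c (l 444696890359) (l 448991857655)) (c (l 234780364823) (l 233169752087))) (a (l 457581792247) (l 334638350855)))) (b (c (c (l 108078828535) (l 107541957527)) (c (l 16778776) (l 120963730327))) (c (l 16776720) (l 16774088)))) (b (c (b (a (c (l 402284087143) (l 403894699879)) (c (l 171429596103) (l 169282112455))) (c (l 16775544) (l 16775536))) (b (a (l 404968441703) (l 167671499719)) (l 16775536))) (c (l 16776384) (l 16772440))))) (a (b (b (a (c (a (c (l 385104217591) (l 386177959415)) (c (l 16778696) (l 16778040))) (a (l 386714830327) (l 151565371975))) (c (l 16777328) (l 16774696))) (c (c (l 16773976) (l 16773968)) (l 16773952))) (c (l 16776080) (l 16770808))) (c (c (l 16767592) (l 16767576)) (l 16767560)))))), by decide +kernel⟩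

def k33_pp_101_s : ∃ t, chk3 f_pp_101_s t 45 112 1 = true :=
  ⟨(a (b (a (l 3) (b (l 3) (a (l 3) (c (c (b (l 425906408839) (a (l 254107717911) (l 16776408))) (b (l 428053892487) (a (l 253570846999) (l 16776408)))) (a (b (l 3) (a (l 425906406695) (l 323900932375))) (b (l 442549405431) (l 116131891159))))))) (a (b (b (l 3) (a (l 3) (a (l 3) (c (c (l 247665267015) (l 249275879591)) (c (l 347523253047) (l 351281349319)))))) (b (a (a (l 3) (c (c (l 408726538231) (l 410337150967)) (l 412484634583))) (c (c (l 138680470759) (l 138143599687)) (a (a (l 214916139879) (l 16776656)) (l 16775664)))) (c (b (a (c (l 225116688583) (l 222432333447)) (l 16776768)) (c (l 93583313703) (l 89825217303))) (a (a (l 341617672887) (l 16776288)) (l 16774296))))) (b (a (c (b (a (c (l 414095247463) (l 415705860199)) (c (l 185925110823) (l 183777627175))) (c (l 16775696) (l 16775696))) (b (a (l 432885729143) (a (l 320142835975) (l 135459243783))) (l 88214603767))) (c (c (l 16774056) (l 16774056)) (l 16776680)))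 (c (c (l 16771336) (l 16771336)) (l 16776584))))) (b (a (b (b (a (l 3) (c (a (c (l 420000827639) (l 422685182167)) (c (l 191293820071) (l 189683207335))) (a (l 451676210791) (b (l 364703121927) (l 16776616))))) (a (a (l 3) (c (c (l 257328943447) (l 256792072535)) (c (l 358797542231) (b (l 493552141559) (l 210621172007))))) (c (c (l 16778400) (l 16775776)) (c (l 16778400) (a (l 117205632871) (l 16775120)))))) (c (c (a (c (l 115595021543) (l 16778696)) (l 16772768)) (a (c (l 110226312583) (l 108078828935)) (l 16772768))) (a (a (b (a (l 326585286951) (l 139754211159)) (l 16775088)) (l 16774760)) (l 16772776)))) (c (c (l 16777344) (l 16776032)) (b (c (l 16778040) (l 16778040)) (l 16768784)))) (c (c (l 16775880) (l 16775888)) (l 16775904)))), by decide +kernel⟩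

def k34_pp_101_s : ∃ t, chk3 f_pp_101_s t 45 113 1 = true :=
  ⟨(a (a (b (c (c (l 16775760) (l 16775760)) (l 16778384)) (l 16772808)) (c (c (l 16771680) (l 16771680)) (l 16771712))) (c (l 16769000) (l 16774280))), by decide +kernel⟩

def k35_pp_101_s : ∃ t, chk3 f_pp_101_s t 22 57 1 = true :=
  ⟨(a (b (a (b (a (b (a (b (l 3) (c (a (c (l 417316472935) (l 419463956583)) (c (l 187535723927) (l 185925111191))) (a (l 421074569319) (l 184314498439)))) (a (c (b (c (l 362555638775) (l 258402685607)) (l 50096767607)) (b (l 363629380599) (l 16775712))) (c (c (l 16778040) (l 16778032)) (l 16778024)))) (c (c (l 16778472) (l 16778448)) (l 16778424))) (c (c (l 16775168) (l 16775144)) (l 16775104))) (c (c (l 16774720) (l 16774656)) (l 16774576))) (b (c (l 16771112) (l 16772368)) (l 16774608))) (b (a (l 16766232) (l 16745456)) (l 16768592))) (a (b (l 16763272) (l 16731552)) (l 16750256))), by decide +kernel⟩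

def k36_pp_101_s : ∃ t, chk3 f_pp_101_s t 23 28 1 = true :=
  ⟨(b (b (a (a (c (c (l 16774520) (l 16769272)) (l 16774520)) (c (l 16769120) (l 16748120))) (l 16753080)) (a (c (l 16758296) (l 16758288)) (l 16715904))) (a (b (l 16721184) (l 16705224)) (l 16723128))), by decide +kernel⟩

def k37_pp_101_s : ∃ t, chk3 f_pp_101_s t 11 29 1 = true :=
  ⟨(a (b (b (a (l 16751120) (l 16710648)) (a (l 16714024) (l 16694696))) (b (l 16718136) (a (l 16682072) (l 16662304)))) (b (a (l 16681312) (l 16659808)) (l 16639024))), by decide +kernel⟩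

def k38_pp_101_s : ∃ t, chk3 f_pp_101_s t 5 15 1 = true :=
  ⟨(a (b (a (b (b (a (b (c (l 16765488) (l 16770216)) (a (l 16746216) (l 16735312))) (a (b (l 16733200) (l 16725136)) (l 16719424))) (a (a (b (a (l 16740224) (l 16734848)) (l 16729504)) (l 16723512)) (l 16709040))) (a (b (l 16733736) (l 16697216)) (b (l 16694160) (l 16679240)))) (b (a (a (b (l 16709952) (l 16695328)) (l 16692968)) (l 16699088)) (l 16678704))) (b (a (b (l 16651776) (l 16615080)) (l 16626824)) (a (a (l 16640728) (l 16623768)) (l 16593776)))) (a (b (a (l 16678904) (l 16652880)) (l 16598880)) (b (b (l 16607488) (l 16575432)) (b (l 16543288) (l 16510816))))), by decide +kernel⟩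

def k39_pp_101_s : ∃ t, chk3 f_pp_101_s t 3 2 1 = true :=
  ⟨(a (l 3) (l 1)), by decide +kernel⟩

def k40_pp_101_s : ∃ t, chk3 f_pp_101_s t 12 12 1 = true :=
  ⟨(b (l 3) (a (l 3) (b (l 3) (a (l 3) (b (l 3) (a (b (l 3) (l 535964936263)) (b (a (l 3) (a (l 497847104695) (l 1))) (a (b (l 425369532775) (l 132238023735)) (l 16779648))))))))), by decide +kernel⟩

def k41_pp_101_s : ∃ t, chk3 f_pp_101_s t 12 26 1 = true :=
  ⟨(a (b (l 3) (a (b (l 3) (a (l 3) (b (l 3) (a (c (l 481204110391) (l 499994589975)) (b (a (l 534354329399) (a (l 385104215959) (l 175724565319))) (a (b (l 222969206007) (l 16775576)) (l 16773832))))))) (b (a (b (l 3) (a (l 3) (b (l 3) (a (l 3) (l 372219313895))))) (b (a (l 3) (b (l 458118658983) (a (c (l 236390981367) (l 229411659447)) (l 16775016)))) (a (b (a (l 463487368599) (c (l 168745244183) (l 156397213175))) (a (l 16778200) (l 16772808))) (l 16775816)))) (a (b (a (b (l 512879492439) (a (l 408726535975) (c (l 16779360) (l 123111215431)))) (a (b (a (l 235854109271)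 (l 144049180599)) (l 16773352)) (l 16772528))) (a (b (l 16778840) (l 16769744)) (l 16766184))) (b (l 16776088) (l 16757912)))))) (b (a (b (a (l 3) (b (l 3) (a (l 3) (b (l 517174458119) (a (l 406579051719) (l 16775832)))))) (a (b (l 523080036519) (a (b (l 3) (a (l 513953233815) (l 191830694647))) (b (a (l 371682442775) (l 16775472)) (l 16772968)))) (b (a (b (l 388325440583) (a (l 155323471271) (l 16773704))) (l 16771360)) (l 16776864)))) (b (a (b (a (b (l 3) (l 410337147591)) (b (a (l 434496338807) (l 16776096)) (l 16773592))) (a (b (l 123648088535) (l 16771496)) (l 16767664))) (a (l 16776248) (l 16780864))) (a (l 16769288) (l 16747272)))) (a (b (a (b (a (b (a (l 131701150263) (l 16773304)) (l 16770800)) (l 16767104)) (l 16762160)) (l 16775696)) (l 16764680)) (a (l 16756704) (l 16724456))))), by decide +kernel⟩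

def k42_pp_101_s : ∃ t, chk3 f_pp_101_s t 12 27 1 = true :=
  ⟨(a (b (a (b (a (b (a (l 3) (b (l 3) (a (l 465097982215) (b (l 356113186855) (l 16775968))))) (b (b (a (l 517711331943) (a (c (l 16779336) (l 147270405783)) (l 16774064))) (a (a (l 3) (c (l 220821722215) (l 313163513815))) (l 16773488))) (a (a (c (b (l 386714829239) (l 129016793975)) (b (l 394231021543) (l 116131892071))) (c (l 16774624) (l 16774608))) (l 16770632)))) (b (a (b (a (b (l 482814722103) (l 194515046983)) (l 93583314087)) (l 16778152)) (l 16774672)) (l 16774984))) (a (b (c (c (l 16778104) (l 16778064)) (l 16778008)) (l 16769664)) (l 16766112))) (b (a (l 16771232) (l 16746496)) (l 16757704))) (a (b (c (a (l 16769152) (l 16737552)) (l 16763544)) (l 16747736)) (b (l 16721096) (l 16705080)))) (b (a (b (l 16729912) (l 16714816)) (a (l 16705832) (l 16694832))) (a (b (l 16720248) (l 16683456)) (l 16669888)))), by decide +kernel⟩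

def k43_pp_101_s : ∃ t, chk3 f_pp_101_s t 13 6 1 = true :=
  ⟨(b (a (b (l 1) (b (l 1) (a (b (l 1) (a (b (l 1) (l 16784048)) (l 1))) (l 1)))) (l 1)) (a (b (b (a (a (b (l 16751256) (l 16735864)) (l 16753208)) (l 16742008)) (a (l 16728792) (l 16707024))) (b (a (l 16678912) (l 16657664)) (l 16638352))) (b (a (b (l 1) (l 16664488)) (l 1)) (b (l 16625696) (l 16596784))))), by decide +kernel⟩

def k44_pp_101_s : ∃ t, chk3 f_pp_101_s t 7 6 1 = true :=
  ⟨(b (l 1) (a (a (b (l 1) (l 155188925271)) (l 1)) (l 1))), by decide +kernel⟩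

def k45_pp_101_s : ∃ t, chk3 f_pp_101_s t 3 7 1 = true :=
  ⟨(a (b (a (b (a (b (a (b (l 16710616) (l 16694232)) (l 16701736)) (l 16700968)) (b (l 16669296) (a (l 16626776) (l 16605720)))) (a (b (l 16627904) (l 16619192)) (l 16608672))) (b (a (b (l 16627640) (l 16575104)) (l 16581464)) (a (b (l 16545936) (l 16519104)) (l 16556920)))) (a (b (a (l 16574032) (l 16621400)) (a (l 16512304) (l 16458312))) (b (a (l 16480176) (l 16444888)) (a (l 16427328) (l 16396648))))) (b (a (b (a (l 16510608) (l 16535336)) (a (l 16520264) (l 16421680))) (b (l 1) (l 16455216))) (a (b (l 16563192) (l 16352952)) (b (l 16334528) (l 6))))), by decide +kernel⟩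

theorem s46_pp_101_s : ∃ t, chk3 f_pp_101_s t 12 13 1 = true := ex3_b k41_pp_101_s k42_pp_101_s

theorem s47_pp_101_s : ∃ t, chk3 f_pp_101_s t 12 6 1 = true := ex3_b k40_pp_101_s s46_pp_101_s

theorem s48_pp_101_s : ∃ t, chk3 f_pp_101_s t 6 6 1 = true := ex3_a s47_pp_101_s k43_pp_101_s

theorem s49_pp_101_s : ∃ t, chk3 f_pp_101_s t 3 6 1 = true := ex3_a s48_pp_101_s k44_pp_101_s

theorem s50_pp_101_s : ∃ t, chk3 f_pp_101_s t 3 3 1 = true := ex3_b s49_pp_101_s k45_pp_101_s

theorem s51_pp_101_s : ∃ t, chk3 f_pp_101_s t 3 1 1 = true := ex3_b k39_pp_101_s s50_pp_101_s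

theorem s52_pp_101_s : ∃ t, chk3 f_pp_101_s t 45 56 1 = true := ex3_b k33_pp_101_s k34_pp_101_s

theorem s53_pp_101_s : ∃ t, chk3 f_pp_101_s t 22 56 1 = true := ex3_a k32_pp_101_s s52_pp_101_s

theorem s54_pp_101_s : ∃ t, chk3 f_pp_101_s t 22 28 1 = true := ex3_b s53_pp_101_s k35_pp_101_s

theorem s55_pp_101_s : ∃ t, chk3 f_pp_101_s t 11 28 1 = true := ex3_a s54_pp_101_s k36_pp_101_s

theorem s56_pp_101_s : ∃ t, chk3 f_pp_101_s t 11 14 1 = true := ex3_b s55_pp_101_s k37_pp_101_s

theorem s57_pp_101_s : ∃ t, chk3 f_pp_101_s t 10 29 1 = true := ex3_a k30_pp_101_s k31_pp_101_s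

theorem s58_pp_101_s : ∃ t, chk3 f_pp_101_s t 21 57 1 = true := ex3_a k28_pp_101_s k29_pp_101_s

theorem s59_pp_101_s : ∃ t, chk3 f_pp_101_s t 21 28 1 = true := ex3_b k27_pp_101_s s58_pp_101_s

theorem s60_pp_101_s : ∃ t, chk3 f_pp_101_s t 10 28 1 = true := ex3_a k26_pp_101_s s59_pp_101_s

theorem s61_pp_101_s : ∃ t, chk3 f_pp_101_s t 10 14 1 = true := ex3_b s60_pp_101_s s57_pp_101_s

theorem s62_pp_101_s : ∃ t, chk3 f_pp_101_s t 5 14 1 = true := ex3_a s61_pp_101_s s56_pp_101_s

theorem s63_pp_101_s : ∃ t, chk3 f_pp_101_s t 5 7 1 = true := ex3_b s62_pp_101_s k38_pp_101_s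

theorem s64_pp_101_s : ∃ t, chk3 f_pp_101_s t 18 61 1 = true := ex3_a k22_pp_101_s k23_pp_101_s

theorem s65_pp_101_s : ∃ t, chk3 f_pp_101_s t 18 30 1 = true := ex3_b k21_pp_101_s s64_pp_101_s

theorem s66_pp_101_s : ∃ t, chk3 f_pp_101_s t 9 30 1 = true := ex3_a s65_pp_101_s k24_pp_101_s

theorem s67_pp_101_s : ∃ t, chk3 f_pp_101_s t 9 15 1 = true := ex3_b s66_pp_101_s k25_pp_101_s

theorem s68_pp_101_s : ∃ t, chk3 f_pp_101_s t 35 124 1 = true := ex3_a k17_pp_101_s k18_pp_101_s

theorem s69_pp_101_s : ∃ t, chk3 f_pp_101_s t 35 62 1 = true := ex3_b s68_pp_101_s k19_pp_101_s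

theorem s70_pp_101_s : ∃ t, chk3 f_pp_101_s t 68 125 1 = true := ex3_b k14_pp_101_s k15_pp_101_s

theorem s71_pp_101_s : ∃ t, chk3 f_pp_101_s t 34 125 1 = true := ex3_a s70_pp_101_s k16_pp_101_s

theorem s72_pp_101_s : ∃ t, chk3 f_pp_101_s t 34 62 1 = true := ex3_b k13_pp_101_s s71_pp_101_s

theorem s73_pp_101_s : ∃ t, chk3 f_pp_101_s t 17 62 1 = true := ex3_a s72_pp_101_s s69_pp_101_s

theorem s74_pp_101_s : ∃ t, chk3 f_pp_101_s t 17 31 1 = true := ex3_b s73_pp_101_s k20_pp_101_s

theorem s75_pp_101_s : ∃ t, chk3 f_pp_101_s t 8 31 1 = true := ex3_a k12_pp_101_s s74_pp_101_s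

theorem s76_pp_101_s : ∃ t, chk3 f_pp_101_s t 8 15 1 = true := ex3_b k11_pp_101_s s75_pp_101_s

theorem s77_pp_101_s : ∃ t, chk3 f_pp_101_s t 4 15 1 = true := ex3_a s76_pp_101_s s67_pp_101_s

theorem s78_pp_101_s : ∃ t, chk3 f_pp_101_s t 4 7 1 = true := ex3_b k10_pp_101_s s77_pp_101_s

theorem s79_pp_101_s : ∃ t, chk3 f_pp_101_s t 2 7 1 = true := ex3_a s78_pp_101_s s63_pp_101_s

theorem s80_pp_101_s : ∃ t, chk3 f_pp_101_s t 46 55 1 = true := ex3_b k7_pp_101_s k8_pp_101_s

theorem s81_pp_101_s : ∃ t, chk3 f_pp_101_s t 23 55 1 = true := ex3_a s80_pp_101_s k9_pp_101_s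

theorem s82_pp_101_s : ∃ t, chk3 f_pp_101_s t 23 27 1 = true := ex3_b k6_pp_101_s s81_pp_101_s

theorem s83_pp_101_s : ∃ t, chk3 f_pp_101_s t 11 27 1 = true := ex3_a k5_pp_101_s s82_pp_101_s

theorem s84_pp_101_s : ∃ t, chk3 f_pp_101_s t 11 13 1 = true := ex3_b k4_pp_101_s s83_pp_101_s

theorem s85_pp_101_s : ∃ t, chk3 f_pp_101_s t 5 13 1 = true := ex3_a k3_pp_101_s s84_pp_101_s

theorem s86_pp_101_s : ∃ t, chk3 f_pp_101_s t 5 6 1 = true := ex3_b k2_pp_101_s s85_pp_101_s

theorem s87_pp_101_s : ∃ t, chk3 f_pp_101_s t 2 6 1 = true := ex3_a k1_pp_101_s s86_pp_101_s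

theorem s88_pp_101_s : ∃ t, chk3 f_pp_101_s t 2 3 1 = true := ex3_b s87_pp_101_s s79_pp_101_s

theorem s89_pp_101_s : ∃ t, chk3 f_pp_101_s t 2 1 1 = true := ex3_b k0_pp_101_s s88_pp_101_s

theorem s90_pp_101_s : ∃ t, chk3 f_pp_101_s t 1 1 1 = true := ex3_a s89_pp_101_s s51_pp_101_s

theorem c_pp_101_s : CertNE 536870912 536870912 536870912 536870912 697932185 42949674 3 eng mog cd7q1 cd0q1 pd0 false true true .npn 1 0 1
    ndB7q1 ndB0q1 pcB0 cut_pp_101_s Ext.none :=
  certNE2 (fam := false) (s1 := true) (s2 := true) (a := 1) (b := 0) (c := 1) (cn := .npn) (n1 := ndB7q1) (n2 := ndB0q1) (pc := pcB0) (cut := cut_pp_101_s) (xt := Ext.none) (P1 := 536870912) (W1 := 536870912) (P2 := 536870912) (W2 := 536870912) (P3 := 697932185) (W3 := 42949674) (N0 := 3) (En := eng) (mo := mog) (C1 := cd7q1) (C2 := cd0q1) (C3 := pd0)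
    rfl (fun _ => rfl) s90_pp_101_s

noncomputable def cut_pp_102_s : Cut := Cut.of [[⟨4, 0, 0, 1449551462⟩], [⟨0, 1, 0, 67108864⟩, ⟨1, 0, 0, 67108864⟩, ⟨2, 1, 0, 67108864⟩]]

noncomputable def f_pp_102_s : ℕ → ℕ → ℕ → ℕ → Bool := onCell 0 536870912 0 536870912 697932185 42949674
    (rowNE 3 eng mog cd7q1 cd0q2 pd0 2 false true true .npp 1 0 2 (qsf 536870912 536870912 0 536870912 0) ndB7q1 ndB0q2 pcB0 cut_pp_102_s Ext.none)

def k0_pp_102_s : ∃ t, chk3 f_pp_102_s t 1 1 1 = true :=
  ⟨(b (a (a (l 6) (l 6)) (l 6)) (a (a (b (a (l 2) (b (l 6) (a (b (l 16309784) (l 16385480)) (l 16536088)))) (b (a (a (l 2) (b (a (l 2) (l 16466208)) (a (l 14) (b (l 16525056) (l 16650096))))) (a (b (a (l 16462864) (l 16458200)) (a (b (l 16519192) (l 16555360)) (b (l 16511960) (l 16542928)))) (b (a (l 16453176) (l 16446240)) (l 16550400)))) (a (a (l 14) (a (l 14) (a (l 14) (a (l 14) (a (l 14) (b (l 16611384) (l 16673128))))))) (b (a (b (l 16621912) (a (l 16618112) (l 16602280))) (b (l 16551128) (l 16579032)))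 (a (b (a (l 16647840) (l 16631392)) (l 16690728)) (l 16642224)))))) (b (a (b (l 6) (a (l 16385016) (l 6))) (l 6)) (a (b (a (b (l 16453696) (l 16485592)) (b (l 16408704) (l 16457472))) (b (a (l 16558448) (b (l 16494040) (l 16517816))) (a (l 16631336) (l 16553624)))) (b (a (l 16400728) (l 16371248)) (b (l 16597848) (l 16598160)))))) (a (b (l 6) (b (l 6) (a (b (l 16517776) (l 16427536)) (b (l 6) (l 16374312))))) (l 6)))), by decide +kernel⟩

theorem c_pp_102_s : CertNE 536870912 536870912 0 536870912 697932185 42949674 3 eng mog cd7q1 cd0q2 pd0 false true true .npp 1 0 2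
    ndB7q1 ndB0q2 pcB0 cut_pp_102_s Ext.none :=
  certNE2 (fam := false) (s1 := true) (s2 := true) (a := 1) (b := 0) (c := 2) (cn := .npp) (n1 := ndB7q1) (n2 := ndB0q2) (pc := pcB0) (cut := cut_pp_102_s) (xt := Ext.none) (P1 := 536870912) (W1 := 536870912) (P2 := 0) (W2 := 536870912) (P3 := 697932185) (W3 := 42949674) (N0 := 3) (En := eng) (mo := mog) (C1 := cd7q1) (C2 := cd0q2) (C3 := pd0)
    rfl (fun _ => rfl) k0_pp_102_s

noncomputable def cut_pp_112_s : Cut := Cut.of [[⟨4, 0, 0, 1449551462⟩]]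

noncomputable def f_pp_112_s : ℕ → ℕ → ℕ → ℕ → Bool := onCell 536870912 536870912 0 536870912 697932185 42949674
    (rowNE 3 eng mog cd7q1 cd0q2 pd1 2 false true true .dn 1 1 2 (qsf 536870912 536870912 0 536870912 1) ndB7q1 ndB0q2 pcB1 cut_pp_112_s Ext.none)

def k0_pp_112_s : ∃ t, chk3 f_pp_112_s t 1 1 1 = true :=
  ⟨(a (l 6) (l 1)), by decide +kernel⟩

theorem c_pp_112_s : CertNE 536870912 536870912 0 536870912 697932185 42949674 3 eng mog cd7q1 cd0q2 pd1 false true true .dn 1 1 2
    ndB7q1 ndB0q2 pcB1 cut_pp_112_s Ext.none :=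
  certNE2 (fam := false) (s1 := true) (s2 := true) (a := 1) (b := 1) (c := 2) (cn := .dn) (n1 := ndB7q1) (n2 := ndB0q2) (pc := pcB1) (cut := cut_pp_112_s) (xt := Ext.none) (P1 := 536870912) (W1 := 536870912) (P2 := 0) (W2 := 536870912) (P3 := 697932185) (W3 := 42949674) (N0 := 3) (En := eng) (mo := mog) (C1 := cd7q1) (C2 := cd0q2) (C3 := pd1)
    rfl (fun _ => rfl) k0_pp_112_s

noncomputable def cut_pp_202_s : Cut := Cut.of [[⟨4, 0, 0, 1449551462⟩], [⟨0, 1, 0, 67108864⟩, ⟨1, 0, 0, 67108864⟩, ⟨2, 1, 0, 67108864⟩]]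

noncomputable def f_pp_202_s : ℕ → ℕ → ℕ → ℕ → Bool := onCell 0 536870912 0 536870912 697932185 42949674
    (rowNE 3 eng mog cd7q2 cd0q2 pd0 2 false true true .pp 2 0 2 (qsf 1073741824 536870912 0 536870912 0) ndB7q2 ndB0q2 pcB0 cut_pp_202_s Ext.none)

def k0_pp_202_s : ∃ t, chk3 f_pp_202_s t 1 1 1 = true :=
  ⟨(a (b (a (l 6) (l 6)) (a (b (a (b (a (l 16420880) (l 16358088)) (a (b (l 16477328) (l 16520752)) (b (l 16413968) (l 16456840)))) (b (l 6) (a (b (l 16342656) (l 16383768)) (l 320008085335)))) (a (b (b (a (a (l 16581488) (l 16551224)) (l 16606312)) (a (l 14) (a (l 14) (b (l 16517608) (l 16584864))))) (a (l 14) (a (l 14) (l 1)))) (b (a (b (l 16426184) (l 1)) (l 1)) (l 1)))) (b (l 1) (l 1)))) (l 1)), by decide +kernel⟩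

theorem c_pp_202_s : CertNE 1073741824 536870912 0 536870912 697932185 42949674 3 eng mog cd7q2 cd0q2 pd0 false true true .pp 2 0 2
    ndB7q2 ndB0q2 pcB0 cut_pp_202_s Ext.none :=
  certNE2 (fam := false) (s1 := true) (s2 := true) (a := 2) (b := 0) (c := 2) (cn := .pp) (n1 := ndB7q2) (n2 := ndB0q2) (pc := pcB0) (cut := cut_pp_202_s) (xt := Ext.none) (P1 := 1073741824) (W1 := 536870912) (P2 := 0) (W2 := 536870912) (P3 := 697932185) (W3 := 42949674) (N0 := 3) (En := eng) (mo := mog) (C1 := cd7q2) (C2 := cd0q2) (C3 := pd0)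
    rfl (fun _ => rfl) k0_pp_202_s

noncomputable def cut_pm_001_s : Cut := Cut.of [[⟨4, 0, 0, 1449551462⟩]]

noncomputable def f_pm_001_s : ℕ → ℕ → ℕ → ℕ → Bool := onCell 0 536870912 536870912 536870912 697932185 42949674
    (rowNE 3 eng mog cd7q0 cd0q1 pd0 0 false true false .up 0 0 1 (qsf 0 536870912 536870912 536870912 0) ndB7q0 ndB0q1 pcB0 cut_pm_001_s Ext.none)

def k0_pm_001_s : ∃ t, chk3 f_pm_001_s t 1 1 1 = true :=
  ⟨(l 4), by decide +kernel⟩

theorem c_pm_001_s : CertNE 0 536870912 536870912 536870912 697932185 42949674 3 eng mog cd7q0 cd0q1 pd0 false true false .up 0 0 1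
    ndB7q0 ndB0q1 pcB0 cut_pm_001_s Ext.none :=
  certNE0 (fam := false) (s1 := true) (s2 := false) (a := 0) (b := 0) (c := 1) (cn := .up) (n1 := ndB7q0) (n2 := ndB0q1) (pc := pcB0) (cut := cut_pm_001_s) (xt := Ext.none) (P1 := 0) (W1 := 536870912) (P2 := 536870912) (W2 := 536870912) (P3 := 697932185) (W3 := 42949674) (N0 := 3) (En := eng) (mo := mog) (C1 := cd7q0) (C2 := cd0q1) (C3 := pd0)
    rfl k0_pm_001_s

noncomputable def cut_pm_011_s : Cut := Cut.of [[⟨4, 0, 0, 1449551462⟩]]

noncomputable def f_pm_011_s : ℕ → ℕ → ℕ → ℕ → Bool := onCell 0 536870912 536870912 536870912 697932185 42949674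
    (rowNE 3 eng mog cd7q0 cd0q1 pd1 0 false true false .pnn 0 1 1 (qsf 0 536870912 536870912 536870912 1) ndB7q0 ndB0q1 pcB1 cut_pm_011_s Ext.none)

def k0_pm_011_s : ∃ t, chk3 f_pm_011_s t 1 1 1 = true :=
  ⟨(l 4), by decide +kernel⟩

theorem c_pm_011_s : CertNE 0 536870912 536870912 536870912 697932185 42949674 3 eng mog cd7q0 cd0q1 pd1 false true false .pnn 0 1 1
    ndB7q0 ndB0q1 pcB1 cut_pm_011_s Ext.none :=
  certNE0 (fam := false) (s1 := true) (s2 := false) (a := 0) (b := 1) (c := 1) (cn := .pnn) (n1 := ndB7q0) (n2 := ndB0q1) (pc := pcB1) (cut := cut_pm_011_s) (xt := Ext.none) (P1 := 0) (W1 := 536870912) (P2 := 536870912) (W2 := 536870912) (P3 := 697932185) (W3 := 42949674) (N0 := 3) (En := eng) (mo := mog) (C1 := cd7q0) (C2 := cd0q1) (C3 := pd1)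
    rfl k0_pm_011_s

noncomputable def cut_pm_012_s : Cut := Cut.of [[⟨4, 0, 0, 1449551462⟩]]

noncomputable def f_pm_012_s : ℕ → ℕ → ℕ → ℕ → Bool := onCell 0 536870912 0 536870912 697932185 42949674
    (rowNE 3 eng mog cd7q0 cd0q2 pd1 0 false true false .pnp 0 1 2 (qsf 0 536870912 0 536870912 1) ndB7q0 ndB0q2 pcB1 cut_pm_012_s Ext.none)

def k0_pm_012_s : ∃ t, chk3 f_pm_012_s t 1 1 1 = true :=
  ⟨(l 6), by decide +kernel⟩

theorem c_pm_012_s : CertNE 0 536870912 0 536870912 697932185 42949674 3 eng mog cd7q0 cd0q2 pd1 false true false .pnp 0 1 2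
    ndB7q0 ndB0q2 pcB1 cut_pm_012_s Ext.none :=
  certNE0 (fam := false) (s1 := true) (s2 := false) (a := 0) (b := 1) (c := 2) (cn := .pnp) (n1 := ndB7q0) (n2 := ndB0q2) (pc := pcB1) (cut := cut_pm_012_s) (xt := Ext.none) (P1 := 0) (W1 := 536870912) (P2 := 0) (W2 := 536870912) (P3 := 697932185) (W3 := 42949674) (N0 := 3) (En := eng) (mo := mog) (C1 := cd7q0) (C2 := cd0q2) (C3 := pd1)
    rfl k0_pm_012_s

noncomputable def cut_pm_022_s : Cut := Cut.of [[⟨4, 0, 0, 1449551462⟩]]

noncomputable def f_pm_022_s : ℕ → ℕ → ℕ → ℕ → Bool := onCell 0 536870912 0 536870912 697932185 42949674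
    (rowNE 3 eng mog cd7q0 cd0q2 pd2 0 false true false .pp 0 2 2 (qsf 0 536870912 0 536870912 2) ndB7q0 ndB0q2 pcB2 cut_pm_022_s Ext.none)

def k0_pm_022_s : ∃ t, chk3 f_pm_022_s t 1 1 1 = true :=
  ⟨(l 6), by decide +kernel⟩

theorem c_pm_022_s : CertNE 0 536870912 0 536870912 697932185 42949674 3 eng mog cd7q0 cd0q2 pd2 false true false .pp 0 2 2
    ndB7q0 ndB0q2 pcB2 cut_pm_022_s Ext.none :=
  certNE0 (fam := false) (s1 := true) (s2 := false) (a := 0) (b := 2) (c := 2) (cn := .pp) (n1 := ndB7q0) (n2 := ndB0q2) (pc := pcB2) (cut := cut_pm_022_s) (xt := Ext.none) (P1 := 0) (W1 := 536870912) (P2 := 0) (W2 := 536870912) (P3 := 697932185) (W3 := 42949674) (N0 := 3) (En := eng) (mo := mog) (C1 := cd7q0) (C2 := cd0q2) (C3 := pd2)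
    rfl k0_pm_022_s

noncomputable def cut_pm_101_s : Cut := Cut.of [[⟨4, 0, 0, 1449551462⟩]]

noncomputable def f_pm_101_s : ℕ → ℕ → ℕ → ℕ → Bool := onCell 536870912 536870912 536870912 536870912 697932185 42949674
    (rowNE 3 eng mog cd7q1 cd0q1 pd0 0 false true false .npn 1 0 1 (qsf 536870912 536870912 536870912 536870912 0) ndB7q1 ndB0q1 pcB0 cut_pm_101_s Ext.none)

def k0_pm_101_s : ∃ t, chk3 f_pm_101_s t 1 1 1 = true :=
  ⟨(l 4), by decide +kernel⟩

theorem c_pm_101_s : CertNE 536870912 536870912 536870912 536870912 697932185 42949674 3 eng mog cd7q1 cd0q1 pd0 false true false .npn 1 0 1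
    ndB7q1 ndB0q1 pcB0 cut_pm_101_s Ext.none :=
  certNE0 (fam := false) (s1 := true) (s2 := false) (a := 1) (b := 0) (c := 1) (cn := .npn) (n1 := ndB7q1) (n2 := ndB0q1) (pc := pcB0) (cut := cut_pm_101_s) (xt := Ext.none) (P1 := 536870912) (W1 := 536870912) (P2 := 536870912) (W2 := 536870912) (P3 := 697932185) (W3 := 42949674) (N0 := 3) (En := eng) (mo := mog) (C1 := cd7q1) (C2 := cd0q1) (C3 := pd0)
    rfl k0_pm_101_s

noncomputable def cut_pm_102_s : Cut := Cut.of [[⟨4, 0, 0, 1449551462⟩]]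

noncomputable def f_pm_102_s : ℕ → ℕ → ℕ → ℕ → Bool := onCell 536870912 536870912 0 536870912 697932185 42949674
    (rowNE 3 eng mog cd7q1 cd0q2 pd0 0 false true false .npp 1 0 2 (qsf 536870912 536870912 0 536870912 0) ndB7q1 ndB0q2 pcB0 cut_pm_102_s Ext.none)

def k0_pm_102_s : ∃ t, chk3 f_pm_102_s t 1 1 1 = true :=
  ⟨(l 6), by decide +kernel⟩

theorem c_pm_102_s : CertNE 536870912 536870912 0 536870912 697932185 42949674 3 eng mog cd7q1 cd0q2 pd0 false true false .npp 1 0 2
    ndB7q1 ndB0q2 pcB0 cut_pm_102_s Ext.none :=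
  certNE0 (fam := false) (s1 := true) (s2 := false) (a := 1) (b := 0) (c := 2) (cn := .npp) (n1 := ndB7q1) (n2 := ndB0q2) (pc := pcB0) (cut := cut_pm_102_s) (xt := Ext.none) (P1 := 536870912) (W1 := 536870912) (P2 := 0) (W2 := 536870912) (P3 := 697932185) (W3 := 42949674) (N0 := 3) (En := eng) (mo := mog) (C1 := cd7q1) (C2 := cd0q2) (C3 := pd0)
    rfl k0_pm_102_s

noncomputable def cut_pm_112_s : Cut := Cut.of [[⟨4, 0, 0, 1449551462⟩]]

noncomputable def f_pm_112_s : ℕ → ℕ → ℕ → ℕ → Bool := onCell 536870912 536870912 0 536870912 697932185 42949674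
    (rowNE 3 eng mog cd7q1 cd0q2 pd1 0 false true false .dn 1 1 2 (qsf 536870912 536870912 0 536870912 1) ndB7q1 ndB0q2 pcB1 cut_pm_112_s Ext.none)

def k0_pm_112_s : ∃ t, chk3 f_pm_112_s t 1 1 1 = true :=
  ⟨(l 6), by decide +kernel⟩

theorem c_pm_112_s : CertNE 536870912 536870912 0 536870912 697932185 42949674 3 eng mog cd7q1 cd0q2 pd1 false true false .dn 1 1 2
    ndB7q1 ndB0q2 pcB1 cut_pm_112_s Ext.none :=
  certNE0 (fam := false) (s1 := true) (s2 := false) (a := 1) (b := 1) (c := 2) (cn := .dn) (n1 := ndB7q1) (n2 := ndB0q2) (pc := pcB1) (cut := cut_pm_112_s) (xt := Ext.none) (P1 := 536870912) (W1 := 536870912) (P2 := 0) (W2 := 536870912) (P3 := 697932185) (W3 := 42949674) (N0 := 3) (En := eng) (mo := mog) (C1 := cd7q1) (C2 := cd0q2) (C3 := pd1)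
    rfl k0_pm_112_s

noncomputable def cut_pm_202_s : Cut := Cut.of [[⟨4, 0, 0, 1449551462⟩]]

noncomputable def f_pm_202_s : ℕ → ℕ → ℕ → ℕ → Bool := onCell 0 536870912 0 536870912 697932185 42949674
    (rowNE 3 eng mog cd7q2 cd0q2 pd0 2 false true false .pp 2 0 2 (qsf 1073741824 536870912 0 536870912 0) ndB7q2 ndB0q2 pcB0 cut_pm_202_s Ext.none)

def k0_pm_202_s : ∃ t, chk3 f_pm_202_s t 1 1 1 = true :=
  ⟨(l 6), by decide +kernel⟩

theorem c_pm_202_s : CertNE 1073741824 536870912 0 536870912 697932185 42949674 3 eng mog cd7q2 cd0q2 pd0 false true false .pp 2 0 2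
    ndB7q2 ndB0q2 pcB0 cut_pm_202_s Ext.none :=
  certNE2 (fam := false) (s1 := true) (s2 := false) (a := 2) (b := 0) (c := 2) (cn := .pp) (n1 := ndB7q2) (n2 := ndB0q2) (pc := pcB0) (cut := cut_pm_202_s) (xt := Ext.none) (P1 := 1073741824) (W1 := 536870912) (P2 := 0) (W2 := 536870912) (P3 := 697932185) (W3 := 42949674) (N0 := 3) (En := eng) (mo := mog) (C1 := cd7q2) (C2 := cd0q2) (C3 := pd0)
    rfl (fun _ => rfl) k0_pm_202_s

noncomputable def cut_mm_001_s : Cut := Cut.of [[⟨4, 0, 0, 1449551462⟩]]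

noncomputable def f_mm_001_s : ℕ → ℕ → ℕ → ℕ → Bool := onCell 0 536870912 536870912 536870912 697932185 42949674
    (rowNE 3 eng mog cd7q0 cd0q1 pd0 0 false false false .up 0 0 1 (qsf 0 536870912 536870912 536870912 0) ndB7q0 ndB0q1 pcB0 cut_mm_001_s Ext.none)

def k0_mm_001_s : ∃ t, chk3 f_mm_001_s t 1 1 1 = true :=
  ⟨(l 5), by decide +kernel⟩

theorem c_mm_001_s : CertNE 0 536870912 536870912 536870912 697932185 42949674 3 eng mog cd7q0 cd0q1 pd0 false false false .up 0 0 1
    ndB7q0 ndB0q1 pcB0 cut_mm_001_s Ext.none :=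
  certNE0 (fam := false) (s1 := false) (s2 := false) (a := 0) (b := 0) (c := 1) (cn := .up) (n1 := ndB7q0) (n2 := ndB0q1) (pc := pcB0) (cut := cut_mm_001_s) (xt := Ext.none) (P1 := 0) (W1 := 536870912) (P2 := 536870912) (W2 := 536870912) (P3 := 697932185) (W3 := 42949674) (N0 := 3) (En := eng) (mo := mog) (C1 := cd7q0) (C2 := cd0q1) (C3 := pd0)
    rfl k0_mm_001_s

noncomputable def cut_mm_011_s : Cut := Cut.of [[⟨4, 0, 0, 1449551462⟩]]

noncomputable def f_mm_011_s : ℕ → ℕ → ℕ → ℕ → Bool := onCell 0 536870912 536870912 536870912 697932185 42949674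
    (rowNE 3 eng mog cd7q0 cd0q1 pd1 0 false false false .pnn 0 1 1 (qsf 0 536870912 536870912 536870912 1) ndB7q0 ndB0q1 pcB1 cut_mm_011_s Ext.none)

def k0_mm_011_s : ∃ t, chk3 f_mm_011_s t 1 1 1 = true :=
  ⟨(l 5), by decide +kernel⟩

theorem c_mm_011_s : CertNE 0 536870912 536870912 536870912 697932185 42949674 3 eng mog cd7q0 cd0q1 pd1 false false false .pnn 0 1 1
    ndB7q0 ndB0q1 pcB1 cut_mm_011_s Ext.none :=
  certNE0 (fam := false) (s1 := false) (s2 := false) (a := 0) (b := 1) (c := 1) (cn := .pnn) (n1 := ndB7q0) (n2 := ndB0q1) (pc := pcB1) (cut := cut_mm_011_s) (xt := Ext.none) (P1 := 0) (W1 := 536870912) (P2 := 536870912) (W2 := 536870912) (P3 := 697932185) (W3 := 42949674) (N0 := 3) (En := eng) (mo := mog) (C1 := cd7q0) (C2 := cd0q1) (C3 := pd1)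
    rfl k0_mm_011_s

noncomputable def cut_mm_012_s : Cut := Cut.of [[⟨4, 0, 0, 1449551462⟩]]

noncomputable def f_mm_012_s : ℕ → ℕ → ℕ → ℕ → Bool := onCell 0 536870912 0 536870912 697932185 42949674
    (rowNE 3 eng mog cd7q0 cd0q2 pd1 0 false false false .pnp 0 1 2 (qsf 0 536870912 0 536870912 1) ndB7q0 ndB0q2 pcB1 cut_mm_012_s Ext.none)

def k0_mm_012_s : ∃ t, chk3 f_mm_012_s t 1 1 1 = true :=
  ⟨(l 5), by decide +kernel⟩

theorem c_mm_012_s : CertNE 0 536870912 0 536870912 697932185 42949674 3 eng mog cd7q0 cd0q2 pd1 false false false .pnp 0 1 2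
    ndB7q0 ndB0q2 pcB1 cut_mm_012_s Ext.none :=
  certNE0 (fam := false) (s1 := false) (s2 := false) (a := 0) (b := 1) (c := 2) (cn := .pnp) (n1 := ndB7q0) (n2 := ndB0q2) (pc := pcB1) (cut := cut_mm_012_s) (xt := Ext.none) (P1 := 0) (W1 := 536870912) (P2 := 0) (W2 := 536870912) (P3 := 697932185) (W3 := 42949674) (N0 := 3) (En := eng) (mo := mog) (C1 := cd7q0) (C2 := cd0q2) (C3 := pd1)
    rfl k0_mm_012_s

noncomputable def cut_mm_022_s : Cut := Cut.of [[⟨4, 0, 0, 1449551462⟩]]

noncomputable def f_mm_022_s : ℕ → ℕ → ℕ → ℕ → Bool := onCell 0 536870912 0 536870912 697932185 42949674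
    (rowNE 3 eng mog cd7q0 cd0q2 pd2 0 false false false .pp 0 2 2 (qsf 0 536870912 0 536870912 2) ndB7q0 ndB0q2 pcB2 cut_mm_022_s Ext.none)

def k0_mm_022_s : ∃ t, chk3 f_mm_022_s t 1 1 1 = true :=
  ⟨(l 5), by decide +kernel⟩

theorem c_mm_022_s : CertNE 0 536870912 0 536870912 697932185 42949674 3 eng mog cd7q0 cd0q2 pd2 false false false .pp 0 2 2
    ndB7q0 ndB0q2 pcB2 cut_mm_022_s Ext.none :=
  certNE0 (fam := false) (s1 := false) (s2 := false) (a := 0) (b := 2) (c := 2) (cn := .pp) (n1 := ndB7q0) (n2 := ndB0q2) (pc := pcB2) (cut := cut_mm_022_s) (xt := Ext.none) (P1 := 0) (W1 := 536870912) (P2 := 0) (W2 := 536870912) (P3 := 697932185) (W3 := 42949674) (N0 := 3) (En := eng) (mo := mog) (C1 := cd7q0) (C2 := cd0q2) (C3 := pd2)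
    rfl k0_mm_022_s

noncomputable def cut_mm_101_s : Cut := Cut.of [[⟨4, 0, 0, 1449551462⟩]]

noncomputable def f_mm_101_s : ℕ → ℕ → ℕ → ℕ → Bool := onCell 0 536870912 536870912 536870912 697932185 42949674
    (rowNE 3 eng mog cd7q1 cd0q1 pd0 2 false false false .npn 1 0 1 (qsf 536870912 536870912 536870912 536870912 0) ndB7q1 ndB0q1 pcB0 cut_mm_101_s Ext.none)

def k0_mm_101_s : ∃ t, chk3 f_mm_101_s t 1 1 1 = true :=
  ⟨(l 5), by decide +kernel⟩

theorem c_mm_101_s : CertNE 536870912 536870912 536870912 536870912 697932185 42949674 3 eng mog cd7q1 cd0q1 pd0 false false false .npn 1 0 1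
    ndB7q1 ndB0q1 pcB0 cut_mm_101_s Ext.none :=
  certNE2 (fam := false) (s1 := false) (s2 := false) (a := 1) (b := 0) (c := 1) (cn := .npn) (n1 := ndB7q1) (n2 := ndB0q1) (pc := pcB0) (cut := cut_mm_101_s) (xt := Ext.none) (P1 := 536870912) (W1 := 536870912) (P2 := 536870912) (W2 := 536870912) (P3 := 697932185) (W3 := 42949674) (N0 := 3) (En := eng) (mo := mog) (C1 := cd7q1) (C2 := cd0q1) (C3 := pd0)
    rfl (fun _ => rfl) k0_mm_101_s

noncomputable def cut_mm_102_s : Cut := Cut.of [[⟨4, 0, 0, 1449551462⟩]]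

noncomputable def f_mm_102_s : ℕ → ℕ → ℕ → ℕ → Bool := onCell 536870912 536870912 0 536870912 697932185 42949674
    (rowNE 3 eng mog cd7q1 cd0q2 pd0 0 false false false .npp 1 0 2 (qsf 536870912 536870912 0 536870912 0) ndB7q1 ndB0q2 pcB0 cut_mm_102_s Ext.none)

def k0_mm_102_s : ∃ t, chk3 f_mm_102_s t 1 1 1 = true :=
  ⟨(l 5), by decide +kernel⟩

theorem c_mm_102_s : CertNE 536870912 536870912 0 536870912 697932185 42949674 3 eng mog cd7q1 cd0q2 pd0 false false false .npp 1 0 2
    ndB7q1 ndB0q2 pcB0 cut_mm_102_s Ext.none :=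
  certNE0 (fam := false) (s1 := false) (s2 := false) (a := 1) (b := 0) (c := 2) (cn := .npp) (n1 := ndB7q1) (n2 := ndB0q2) (pc := pcB0) (cut := cut_mm_102_s) (xt := Ext.none) (P1 := 536870912) (W1 := 536870912) (P2 := 0) (W2 := 536870912) (P3 := 697932185) (W3 := 42949674) (N0 := 3) (En := eng) (mo := mog) (C1 := cd7q1) (C2 := cd0q2) (C3 := pd0)
    rfl k0_mm_102_s

noncomputable def cut_mm_112_s : Cut := Cut.of [[⟨4, 0, 0, 1449551462⟩]]

noncomputable def f_mm_112_s : ℕ → ℕ → ℕ → ℕ → Bool := onCell 536870912 536870912 0 536870912 697932185 42949674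
    (rowNE 3 eng mog cd7q1 cd0q2 pd1 0 false false false .dn 1 1 2 (qsf 536870912 536870912 0 536870912 1) ndB7q1 ndB0q2 pcB1 cut_mm_112_s Ext.none)

def k0_mm_112_s : ∃ t, chk3 f_mm_112_s t 1 1 1 = true :=
  ⟨(l 5), by decide +kernel⟩

theorem c_mm_112_s : CertNE 536870912 536870912 0 536870912 697932185 42949674 3 eng mog cd7q1 cd0q2 pd1 false false false .dn 1 1 2
    ndB7q1 ndB0q2 pcB1 cut_mm_112_s Ext.none :=
  certNE0 (fam := false) (s1 := false) (s2 := false) (a := 1) (b := 1) (c := 2) (cn := .dn) (n1 := ndB7q1) (n2 := ndB0q2) (pc := pcB1) (cut := cut_mm_112_s) (xt := Ext.none) (P1 := 536870912) (W1 := 536870912) (P2 := 0) (W2 := 536870912) (P3 := 697932185) (W3 := 42949674) (N0 := 3) (En := eng) (mo := mog) (C1 := cd7q1) (C2 := cd0q2) (C3 := pd1)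
    rfl k0_mm_112_s

noncomputable def cut_mm_202_s : Cut := Cut.of [[⟨4, 0, 0, 1449551462⟩]]

noncomputable def f_mm_202_s : ℕ → ℕ → ℕ → ℕ → Bool := onCell 1073741824 536870912 0 536870912 697932185 42949674
    (rowNE 3 eng mog cd7q2 cd0q2 pd0 0 false false false .pp 2 0 2 (qsf 1073741824 536870912 0 536870912 0) ndB7q2 ndB0q2 pcB0 cut_mm_202_s Ext.none)

def k0_mm_202_s : ∃ t, chk3 f_mm_202_s t 1 1 1 = true :=
  ⟨(l 5), by decide +kernel⟩

theorem c_mm_202_s : CertNE 1073741824 536870912 0 536870912 697932185 42949674 3 eng mog cd7q2 cd0q2 pd0 false false false .pp 2 0 2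
    ndB7q2 ndB0q2 pcB0 cut_mm_202_s Ext.none :=
  certNE0 (fam := false) (s1 := false) (s2 := false) (a := 2) (b := 0) (c := 2) (cn := .pp) (n1 := ndB7q2) (n2 := ndB0q2) (pc := pcB0) (cut := cut_mm_202_s) (xt := Ext.none) (P1 := 1073741824) (W1 := 536870912) (P2 := 0) (W2 := 536870912) (P3 := 697932185) (W3 := 42949674) (N0 := 3) (En := eng) (mo := mog) (C1 := cd7q2) (C2 := cd0q2) (C3 := pd0)
    rfl k0_mm_202_s

end Pool.Agent.Strip051.G.I6500_6900.Tab.CS.BB70

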