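import Pool.Agent.Strip051.G.I6500_6900.Tab

/-! # Certificates B19 (generated) -/

set_option linter.all false
set_option maxRecDepth 100000

namespace Pool.Agent.Strip051.G.I6500_6900.Tab.C.BB01

open Pool.Agent.Strip051.PB Pool.Agent.Strip051.PB.T
open Pool.Agent.Strip051.G.I6500_6900.Tab

noncomputable def cut_pp_012_a : Cut := Cut.of [[⟨0, 0, 0, 67108864⟩, ⟨1, 1, 0, 67108864⟩, ⟨2, 1, 0, 67108864⟩]]

noncomputable def f_pp_012_a : ℕ → ℕ → ℕ → ℕ → Bool := onCell 536870912 536870912 0 536870912 697932185 42949674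
    (rowB 3 eng mog cd0q0 cd1q2a pd1 2 false true true .pnp 0 1 2 (qsf 0 536870912 0 536870912 1) ndB0q0 ndB1q2a pcB1 cut_pp_012_a Ext.none)

def k0_pp_012_a : ∃ t, chk3 f_pp_012_a t 4 1 1 = true :=
  ⟨(b (a (l 2) (l 3)) (l 3)), by decide +kernel⟩

def k1_pp_012_a : ∃ t, chk3 f_pp_012_a t 20 4 1 = true :=
  ⟨(b (a (l 2) (a (l 2) (a (l 2) (b (b (l 16759008) (b (l 16777432) (b (l 16776168) (a (a (l 2) (a (l 2) (l 16776376))) (l 16772744))))) (b (b (b (a (b (c (l 164987138631) (l 157470945495)) (l 3)) (a (b (b (a (l 103246984743) (l 16774560)) (l 145659785079)) (l 3)) (b (c (l 54928602567) (l 16775752)) (c (l 151565365367) (l 143512301207))))) (l 3)) (l 3)) (l 3)))))) (l 3)), by decide +kernel⟩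

def k2_pp_012_a : ∃ t, chk3 f_pp_012_a t 21 16 1 = true :=
  ⟨(a (a (b (l 16775000) (a (c (l 16777120) (l 16776416)) (l 16773408))) (b (l 16747352) (c (l 16779344) (l 16778288)))) (b (l 16758328) (a (l 16772024) (l 16744304)))), by decide +kernel⟩

def k3_pp_012_a : ∃ t, chk3 f_pp_012_a t 42 34 1 = true :=
  ⟨(a (b (b (a (a (b (l 16773080) (a (b (l 54928602327) (a (l 155860332247) (l 115058144631))) (l 16775936))) (l 16772088)) (l 16769584)) (a (a (a (l 3) (b (a (l 154786590439) (b (l 104857597047) (l 3))) (l 3))) (a (b (b (l 16774136) (a (l 137069849911) (l 95193920375))) (l 166597750583)) (b (l 16773648) (b (a (l 127406173271) (l 82309018199)) (l 158007815639))))) (a (a (b (l 16772832) (a (b (l 16774016) (a (l 126332432999) (l 102710112919))) (l 64055407239))) (l 16772664)) (l 16771408)))) (a (l 3) (b (a (b (c (a (l 160155299559) (a (b (l 107005080215) (l 3)) (b (l 16774264) (l 138680462503)))) (a (l 152639106279) (b (l 85530243639) (l 140291074839)))) (l 3)) (a (b (c (b (l 16773672) (c (l 83382759959)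 (l 81235276119))) (l 48486150647)) (a (l 164450266407) (b (b (l 100562628839) (l 154249718615)) (l 3)))) (b (l 16772976) (b (c (l 74255954311) (l 16773784)) (a (l 153175976823) (b (l 84993372263) (l 139754203767))))))) (l 3)))) (b (c (l 16776672) (l 16775944)) (a (a (a (b (c (b (l 16772376) (l 61907923047)) (l 16772600)) (b (b (c (a (l 146196655047) (b (l 16774248) (l 125795561431))) (l 118279366695)) (l 3)) (l 3))) (b (l 16771968) (b (b (l 57076084599) (c (a (b (l 118279368695) (l 3)) (a (b (l 16774184) (l 129016786567)) (l 74255953495))) (l 105931337975))) (c (l 167671491879) (l 160155298551))))) (b (l 16770688) (a (b (l 16775736) (c (b (c (a (b (l 100025757335) (l 155860331351)) (b (l 16774008) (l 91972693527))) (a (l 124184946999) (l 79624662295))) (c (a (l 3) (l 155860331367)) (l 156397202151))) (b (l 97878274151) (l 151028492567)))) (b (l 16772272) (b (l 16773272) (c (c (a (b (l 84456500599) (l 140827945591)) (l 70497856679)) (a (l 110763175559) (l 16773808))) (l 89288339335))))))) (c (b (l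 16768448) (a (l 16774528) (l 16770232))) (l 16774424))))), by decide +kernel⟩

def k4_pp_012_a : ∃ t, chk3 f_pp_012_a t 84 35 1 = true :=
  ⟨(l 3), by decide +kernel⟩

def k5_pp_012_a : ∃ t, chk3 f_pp_012_a t 170 70 1 = true :=
  ⟨(b (a (l 3) (a (l 3) (a (l 3) (b (b (b (a (l 152639105159) (b (l 86603983911) (l 137069849719))) (l 3)) (l 3)) (l 3))))) (l 3)), by decide +kernel⟩

def k6_pp_012_a : ∃ t, chk3 f_pp_012_a t 171 70 1 = true :=
  ⟨(b (a (a (b (c (a (b (b (l 16774632) (a (l 145659783511) (a (l 115595013239) (l 91972692951)))) (l 3)) (b (l 16773736) (c (b (c (a (l 138143590887) (l 92509563879)) (l 110226304263)) (l 166597749335)) (l 131701139511)))) (b (l 81772146231) (l 135996106519))) (l 3)) (b (c (a (b (l 16773328) (b (l 16773808) (a (b (l 98952014791) (l 153175976135)) (a (l 90362080071) (l 16773976))))) (l 16773240)) (l 65666018679)) (b (c (a (c (l 162839652967) (l 159081556247)) (a (b (b (l 83382758183) (a (l 163913394887) (l 125258689335))) (l 3)) (b (l 69960985319) (a (l 159618427031)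 (b (l 115058141943) (l 3)))))) (l 128479913479)) (l 3)))) (b (c (l 16772200) (l 16771736)) (c (a (b (c (a (b (l 16773728) (a (b (l 16774064) (a (l 145122912935) (l 106468207207))) (l 16773944))) (l 16773488)) (l 69424114631)) (c (a (b (a (l 3) (b (a (l 133311752807) (l 90898950679)) (l 159618427111))) (l 3)) (a (b (a (b (l 16774032) (l 118816238199)) (l 71571597863)) (l 156397201655)) (b (l 16773856) (b (a (l 106468207143) (l 16774048)) (l 144586041447))))) (a (l 145659783207) (b (l 16773760) (l 129553655543))))) (c (b (l 16772872) (a (a (b (l 16773656) (b (l 16773896) (l 84993370663))) (l 16773616)) (l 16773312))) (l 16772976))) (a (b (l 16773192) (c (l 121500591495) (l 115058142519))) (l 16772672))))) (a (l 3) (a (l 3) (b (c (b (a (c (b (c (a (l 146196654295) (b (l 77477177735) (l 128479914615))) (a (l 145122912279) (l 103783852599))) (l 3)) (l 134922364695)) (a (b (l 64592275895) (a (l 151028492167) (b (l 101636368855) (l 3)))) (b (l 16773584) (b (l 16773824) (a (l 131164269015) (l 91435821447))))))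 (c (l 164987136519) (l 163376523447))) (b (c (l 113984398439) (l 107005078775)) (l 161229039303))) (l 3))))), by decide +kernel⟩

def k7_pp_012_a : ∃ t, chk3 f_pp_012_a t 85 71 1 = true :=
  ⟨(l 3), by decide +kernel⟩

def k8_pp_012_a : ∃ t, chk3 f_pp_012_a t 43 34 1 = true :=
  ⟨(a (a (l 16773824) (l 16770384)) (l 16775736)), by decide +kernel⟩

def k9_pp_012_a : ∃ t, chk3 f_pp_012_a t 86 70 1 = true :=
  ⟨(a (b (c (a (l 16773792) (l 16769472)) (l 16775016)) (a (b (c (a (b (l 16774536) (c (a (b (a (c (b (l 104857594359) (l 154249717815)) (l 122574334519)) (b (l 16773832) (l 94657047031))) (l 155860330567)) (a (b (l 16773712) (b (l 86603983271) (l 137606719927))) (l 65129146647))) (a (b (l 103246981719) (l 154249717479)) (l 81772145095)))) (l 16775336)) (a (b (l 16772824) (c (l 100562627863) (l 99488885671))) (l 16772280))) (c (a (b (a (l 3) (a (l 3) (b (c (l 141364815719) (l 138680461607)) (l 3)))) (l 3)) (a (b (c (b (a (b (l 16773856) (l 121500592551)) (l 16773736)) (a (l 3) (a (l 146733524775)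 (l 119889979847)))) (b (l 86603983127) (l 138680460759))) (l 3)) (b (a (a (b (l 16773480) (b (l 16773720) (l 122574334199))) (l 64055404727)) (l 16773376)) (a (l 160155297575) (b (b (l 95730788599) (l 147270395383)) (l 3)))))) (a (l 156397201143) (b (c (l 92509563847) (l 91435821703)) (l 145659782343))))) (b (l 16773816) (b (c (l 16775056) (l 16771992)) (a (c (a (b (c (l 71034726647) (l 16773448)) (a (l 147270395399) (b (l 80161531975) (l 130090526887)))) (l 60297308119)) (l 83382758215)) (l 16775072)))))) (c (b (l 16766928) (l 16774808)) (l 16772856))), by decide +kernel⟩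

def k10_pp_012_a : ∃ t, chk3 f_pp_012_a t 86 71 1 = true :=
  ⟨(a (b (a (l 3) (b (c (a (a (l 3) (b (c (b (c (a (l 137069848215) (l 94657046695)) (l 113984399799)) (l 3)) (l 130627396807)) (l 3))) (a (b (b (l 16773368) (c (a (l 124721817335) (l 83919628343)) (l 104857594007))) (l 158544684663)) (b (l 16773112) (b (a (a (l 123648075911) (l 100025755783)) (l 72645338983)) (l 148344137047))))) (a (l 145659782391) (b (l 76403435847) (l 130627396215)))) (l 3))) (l 3)) (b (a (a (b (c (b (l 16772480) (a (a (b (l 16773288) (a (l 110226303111) (l 86603982823))) (l 16773240)) (l 16772928))) (l 16775000)) (b (c (c (a (b (l 141364815255) (l 3)) (b (l 79624661047) (c (l 133848622439) (l 133311751335)))) (a (l 147807265975) (l 103783852407))) (l 123648074055)) (l 3))) (b (l 16771728) (b (c (c (l 61371049959) (l 16772848)) (l 16772536)) (a (b (c (a (l 148881007687) (l 105394464807)) (l 120426849911)) (l 3)) (c (b (l 16773240) (a (l 138143589319) (l 94657046439))) (l 91435820855)))))) (c (c (l 16774120) (l 16771232))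 (l 16776112))) (a (l 3) (a (b (c (b (a (b (a (l 125258688439) (l 83382757095)) (l 157470942263)) (c (b (l 16773168) (l 95193917479)) (l 81772144359))) (l 157470942519)) (b (l 101099498071) (l 155323458135))) (l 3)) (b (b (l 16774992) (c (a (b (l 86603982775) (l 141364814647)) (l 69960984423)) (l 92509563143))) (c (b (c (a (l 3) (l 143512298535)) (l 148344136583)) (l 3)) (l 152102232743))))))), by decide +kernel⟩

def k11_pp_012_a : ∃ t, chk3 f_pp_012_a t 87 35 1 = true :=
  ⟨(b (l 16771920) (a (b (l 16773752) (a (b (c (l 16771656) (l 16771176)) (c (a (b (a (b (l 16773112) (l 122037462999)) (l 16772864)) (a (l 3) (b (l 113447528423) (l 3)))) (a (b (l 16772440) (b (l 16772936) (l 104857593687))) (l 16772352))) (a (b (l 83382757287) (l 139217330215)) (l 66202887895)))) (c (l 16770632) (l 16770096)))) (c (l 16777248) (l 16766056)))), by decide +kernel⟩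

def k12_pp_012_a : ∃ t, chk3 f_pp_012_a t 21 9 1 = true :=
  ⟨(b (a (l 3) (b (a (l 3) (b (b (a (a (a (l 3) (b (b (a (l 157470941623) (b (a (l 111300044231) (l 16772856)) (l 147270393991))) (l 3)) (l 3))) (a (b (c (a (b (l 74792822455) (l 146733523543)) (b (l 16772504) (a (l 113984399127) (l 90362078823)))) (b (l 16772264) (l 122574331335))) (l 3)) (b (c (l 16773512) (l 16771728)) (b (c (c (a (l 135996105255) (l 90898949799)) (l 114521267975)) (l 106468206599)) (l 3))))) (a (b (l 16770656) (a (b (l 16772112) (c (c (a (l 124184944903) (l 79624660327)) (l 100025755575)) (l 97878271687))) (l 16774208))) (l 16774840))) (a (l 3) (a (b (c (a (l 156934071207) (b (c (a (l 107005077223) (l 16772744)) (l 91435820711)) (l 145122910535))) (a (l 155323457639) (b (l 89825207655) (l 144049167831)))) (l 3)) (a (a (b (c (b (l 16772200) (l 95193917111)) (l 75866563687)) (l 3)) (b (l 16773168) (c (b (l 127406169895) (l 3)) (l 139754200375)))) (b (l 16771208) (a (c (b (l 83382756567) (l 153712844887)) (l 116668750519))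 (c (b (l 16772264) (l 110763173463)) (l 84993369255)))))))) (l 3))) (l 3))) (l 3)), by decide +kernel⟩

def k13_pp_012_a : ∃ t, chk3 f_pp_012_a t 10 5 1 = true :=
  ⟨(l 3), by decide +kernel⟩

def k14_pp_012_a : ∃ t, chk3 f_pp_012_a t 11 8 1 = true :=
  ⟨(a (b (a (b (a (l 16727136) (l 16741776)) (l 16755224)) (b (l 16732024) (a (l 16723840) (l 16717384)))) (a (b (a (l 16747968) (l 16741184)) (a (c (l 16769552) (l 16768504)) (l 16772648))) (a (l 16760560) (l 16753680)))) (b (a (l 16723176) (l 16687728)) (a (b (a (l 16720296) (l 16713728)) (l 16748448)) (b (l 16703104) (a (l 16716576) (l 16709792)))))), by decide +kernel⟩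

def k15_pp_012_a : ∃ t, chk3 f_pp_012_a t 44 36 1 = true :=
  ⟨(a (a (b (b (l 16766992) (a (c (b (l 16770200) (c (l 55465469271) (l 16774016))) (l 16772936)) (l 16768848))) (b (a (a (b (b (a (l 141901684743) (b (l 72645337815) (l 119889978471))) (l 3)) (l 3)) (b (b (l 55465468663) (c (a (l 130627395127) (l 86603981959)) (l 103246980231))) (l 158007812087))) (b (c (l 16771176) (l 16770624)) (c (a (b (a (l 118816234775) (l 75329692311)) (l 148881006423)) (a (b (l 16771968) (l 101636367575)) (l 16771880))) (a (b (l 95193916199) (l 148881005447)) (l 70497854375))))) (a (l 3) (b (c (a (l 3) (l 146196652007)) (l 149954747911)) (l 3))))) (b (l 16775368) (b (c (l 16774536) (l 16773888)) (a (a (b (c (b (c (l 78550918167) (l 78014046695)) (c (l 131164266055) (l 131701136439))) (b (l 75866562663) (l 132238006583))) (l 3)) (b (c (c (l 61907919639) (l 16774208)) (l 16773792)) (c (b (c (l 122574331191) (l 123111201559)) (l 3)) (l 134922361255)))) (b (l 16775384) (a (b (a (l 64055402695) (l 16771392)) (c (a (l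 135996103783) (l 92509561543)) (l 107541946935))) (l 47412404407))))))) (b (l 16770176) (a (c (l 16772488) (l 16771720)) (l 16773864)))), by decide +kernel⟩

def k16_pp_012_a : ∃ t, chk3 f_pp_012_a t 44 37 1 = true :=
  ⟨(a (b (a (l 3) (b (a (l 3) (a (l 3) (b (b (c (a (l 124184943431) (l 79624659335)) (l 99488882935)) (l 152639101799)) (l 3)))) (l 3))) (l 3)) (b (a (b (a (a (b (b (l 16771232) (c (a (l 107005076247) (l 16772000)) (l 87140851607))) (c (l 148344135207) (l 149417875911))) (b (l 16770704) (c (b (c (l 80698401447) (l 80161529959)) (l 134922361735)) (b (l 78550916663) (l 136532973303))))) (b (l 16769400) (c (a (b (l 16771192) (l 70497853847)) (l 16770672)) (l 53317984327)))) (a (l 3) (b (a (a (l 154786585351) (b (b (l 87140851431) (l 141901682695)) (l 3))) (b (c (l 61907918935) (l 16771048)) (c (a (l 140291070647) (l 97341399399)) (l 119353103495)))) (l 3)))) (b (c (l 16773120) (l 16767088)) (a (b (c (l 46338662423) (l 16772688)) (b (a (a (c (l 128479910311) (l 130627392695)) (c (l 82309013639)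 (l 81235270535))) (l 16771000)) (a (l 155860326791) (a (c (l 116668749959) (l 111836912759)) (c (l 69960982183) (l 16771136)))))) (c (l 16774968) (l 16774224))))) (a (l 3) (b (a (b (c (a (l 3) (l 149954747559)) (l 153712843223)) (l 3)) (a (b (c (b (c (a (l 99488882791) (l 16771808)) (l 80698400519)) (c (l 137069845335) (l 137606715559))) (b (l 79087787191) (l 139217327319))) (l 3)) (a (b (c (b (l 16771208) (c (l 87140851527) (l 83919625351))) (l 70497852487)) (l 156934068535)) (b (l 16772728) (b (b (a (l 113447525351) (l 70497852183)) (l 147270391335)) (l 3)))))) (l 3))))), by decide +kernel⟩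

def k17_pp_012_a : ∃ t, chk3 f_pp_012_a t 45 18 1 = true :=
  ⟨(b (a (c (l 16766616) (l 16765296)) (l 16769496)) (a (b (a (c (l 16771064) (l 16775392)) (l 16761872)) (a (b (b (c (l 16774448) (l 16773640)) (a (c (a (a (b (l 69960982167) (l 143512295735)) (b (l 16771288) (a (l 112373784343) (l 88751464023)))) (l 48486145399)) (a (b (l 60834175303) (c (l 120963716023) (l 122574328071))) (l 16772864))) (l 16771920))) (b (b (a (a (l 3) (a (c (l 131164264487) (l 133311746711)) (b (l 53854853735) (c (l 105931333223) (l 107541944343))))) (c (l 16770736) (l 16769952))) (a (l 3) (c (a (c (a (l 118279362711) (l 71034723703)) (a (l 119353103783) (l 71034722935))) (l 16770992)) (a (a (l 120963715415) (l 68887238663)) (l 16770208))))) (a (l 3) (a (c (b (l 147807263127) (l 3)) (l 152639100311)) (a (b (b (c (l 73719078055) (l 16770944)) (c (l 130090522407) (l 126869297063))) (l 3)) (c (b (l 57076079687) (c (l 131164264711) (l 132238005767))) (b (l 16770680) (l 134385488279)))))))) (b (l 16771232) (a (a (a (b (l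 16769592) (b (l 16770632) (a (c (b (l 16771648) (l 130090523783)) (l 98415138791)) (c (l 74255948919) (l 75329689175))))) (c (l 16772888) (l 16772064))) (c (l 16772248) (l 16768776))) (c (l 16768344) (l 16767432)))))) (b (l 16767120) (a (c (l 16774912) (l 16773816)) (l 16760368))))), by decide +kernel⟩

def k18_pp_012_a : ∃ t, chk3 f_pp_012_a t 44 19 1 = true :=
  ⟨(l 3), by decide +kernel⟩

def k19_pp_012_a : ∃ t, chk3 f_pp_012_a t 90 38 1 = true :=
  ⟨(b (a (l 3) (b (b (b (a (a (a (l 3) (a (c (l 134385489703) (l 136532971783)) (c (b (l 73182206775) (l 146196649719)) (l 107005073335)))) (c (a (c (b (l 16771584) (l 84456496199)) (l 70497851911)) (l 16771120)) (c (l 61371045751) (l 60297303223)))) (c (l 16770048) (l 16769184))) (a (a (l 3) (a (c (l 144586037223) (l 147270390199)) (b (c (a (l 91972688775) (l 16771528)) (l 73182205367)) (c (l 130627393815) (l 133311746103))))) (a (a (b (l 16770784) (c (l 64592272231) (l 16772032))) (l 16771832)) (l 16769864)))) (a (l 3) (a (b (a (b (c (a (l 146733520551)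 (l 104857590727)) (l 118816232967)) (l 3)) (b (c (l 16772776) (l 16770632)) (a (c (l 133848618535) (l 132774876375)) (c (c (l 92509559623) (l 93583300599)) (l 93583299767))))) (l 3)) (b (c (l 16772304) (l 16770136)) (b (a (a (c (c (l 118279363527) (l 119353104503)) (l 119353103591)) (c (l 73182206615) (l 73182204935))) (c (l 16771296) (l 16770440))) (a (c (l 149417875175) (l 151565357159)) (a (c (a (l 118279363383) (l 94657043079)) (l 107005072455)) (c (l 60297304583) (l 16770680))))))))) (a (l 3) (a (l 3) (a (l 3) (b (b (c (c (l 144049166567) (l 145659778471)) (l 147270389943)) (l 3)) (l 3))))))) (l 3)), by decide +kernel⟩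

def k20_pp_012_a : ∃ t, chk3 f_pp_012_a t 364 76 1 = true :=
  ⟨(b (c (c (l 16772232) (l 16771752)) (c (l 16771296) (l 16770848))) (b (a (a (b (a (b (c (c (l 92509559559) (l 93583300519)) (l 93583299639)) (l 3)) (b (c (l 16771448) (l 16770584)) (c (c (l 118279363463) (l 119353104407)) (l 119353103463)))) (l 3)) (b (c (a (b (l 16771232) (c (l 73719077495) (l 73719076615))) (l 16771192)) (c (l 57076077655) (l 16771520))) (a (c (l 149954746087) (l 152639098935)) (b (b (c (c (l 78550915543) (l 79087785575)) (l 78014042775)) (c (l 131164265079) (l 133311746823))) (l 3))))) (b (c (l 16770656) (l 16769760)) (a (b (c (c (l 55465466375) (l 55465465479)) (l 54391722663)) (a (c (c (l 133848618823) (l 134922359767)) (l 137069842103)) (b (c (l 58686691687) (l 16770656)) (c (c (l 112910654055) (l 113447524087)) (l 114521264839))))) (c (c (l 16771360) (l 16770904)) (l 16771544))))) (a (l 3) (a (l 3) (b (b (a (b (c (c (c (l 97341397527) (l 97341397159)) (l 97341396647)) (l 96267653831)) (c (l 146733520263) (l 148881002151)))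 (c (b (l 16771456) (c (c (l 87677721111) (l 89288333399)) (l 87677720231))) (c (l 73719075671) (l 73719074759)))) (c (c (l 141901682663) (l 142438552695)) (l 143512293207))) (l 3)))))), by decide +kernel⟩

def k21_pp_012_a : ∃ t, chk3 f_pp_012_a t 365 76 1 = true :=
  ⟨(a (b (l 16770208) (b (c (l 16772768) (l 16769216)) (a (b (b (c (l 16771224) (l 16770312)) (a (b (c (c (l 71571593607) (l 71571592695)) (l 70497849863)) (c (c (l 124721813975) (l 125258683991)) (l 124184941175))) (c (c (l 54391724327) (l 53854852599)) (l 52781109671)))) (a (l 3) (b (c (c (l 126869296823) (l 127406166839)) (l 128479907351)) (l 3)))) (b (c (l 16770960) (l 16770040)) (a (b (b (c (l 16772120) (l 16770576)) (c (c (l 105394461127) (l 105931331143)) (l 104857588247))) (l 3)) (b (c (l 16771336) (l 16770440)) (c (a (l 129553650839) (b (l 70497851511) (l 140827941111))) (c (l 111300039575) (l 111300038695))))))))) (b (l 16766712) (b (l 16771416) (a (b (c (l 16770528) (l 16769592)) (c (a (b (l 16771120) (c (l 66202884471) (l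 66202883559))) (l 16771072)) (c (l 49559884583) (l 16771360)))) (c (l 16770424) (l 16769488)))))), by decide +kernel⟩

def k22_pp_012_a : ∃ t, chk3 f_pp_012_a t 183 76 1 = true :=
  ⟨(a (b (l 16765392) (b (l 16767480) (c (l 16771976) (l 16770984)))) (c (l 16770856) (l 16769696))), by decide +kernel⟩

def k23_pp_012_a : ∃ t, chk3 f_pp_012_a t 91 77 1 = true :=
  ⟨(a (b (b (b (a (l 3) (b (a (l 3) (c (a (a (l 139217327319) (b (l 69960980695) (l 122574330167))) (l 46875531495)) (a (c (l 109689427127) (l 109689426263)) (l 16770328)))) (a (l 3) (a (l 3) (a (c (l 125795554343) (l 122574328423)) (c (c (l 78550915415) (l 78550914519)) (l 76940300711))))))) (l 3)) (l 3)) (l 3)) (b (a (a (a (b (b (c (l 16770960) (l 16770056)) (b (a (c (l 108078815703) (l 108615684695)) (c (l 64592271463) (l 16771096))) (c (l 139754198167) (l 141364809159)))) (l 3)) (b (b (l 16770064) (a (b (l 16770672) (c (l 89825204503) (l 89288331687))) (c (l 16772376) (l 16770176)))) (b (c (l 134922359991) (l 136532971015)) (l 3)))) (b (c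 (l 16770216) (l 16769280)) (b (a (b (c (c (l 65129142615) (l 64592270807)) (l 62981657079)) (c (c (l 119353103591) (l 120426844535)) (l 115058135767))) (c (c (l 47949273239) (l 16772040)) (l 45801787847))) (a (l 3) (b (c (a (l 135459230503) (l 88214591559)) (l 105394459175)) (l 3)))))) (a (a (b (l 16769080) (b (l 16771384) (b (c (l 16771016) (l 16770128)) (c (c (l 95730784583) (l 96267654599)) (l 94657040903))))) (c (l 16771752) (l 16771464))) (c (l 16771768) (l 16770792)))) (a (l 3) (b (a (a (l 3) (b (a (c (l 122037457575) (l 123648068599)) (b (c (l 16771112) (l 16770240)) (l 134385487607))) (l 3))) (b (a (b (l 16770352) (c (a (l 86603978615) (l 16771008)) (l 69960978727))) (l 16771392)) (a (c (l 131701134103) (l 133311745143)) (b (c (l 61371045751) (l 16771448)) (c (l 111836911767) (l 111300038983)))))) (l 3))))), by decide +kernel⟩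

def k24_pp_012_a : ∃ t, chk3 f_pp_012_a t 45 39 1 = true :=
  ⟨(l 3), by decide +kernel⟩

def k25_pp_012_a : ∃ t, chk3 f_pp_012_a t 92 9 1 = true :=
  ⟨(b (b (l 16741544) (l 16766776)) (b (a (b (c (l 16773528) (l 16772224)) (b (c (l 16770936) (l 16771160)) (a (a (b (c (c (l 16771752) (l 16772600)) (l 33990627895)) (b (a (c (c (l 117205619559) (l 118279360519)) (l 119889971991)) (b (a (l 47412400311) (l 16770248)) (c (l 90898945991) (l 90898944119)))) (l 3))) (b (l 16771496) (b (c (l 16770312) (l 16769432)) (a (b (c (l 80698398551) (l 81235267511)) (l 133848616423)) (b (l 16770136) (c (l 70497851095) (l 16771016))))))) (c (l 16771984) (l 16770376))))) (b (l 16769352) (c (l 16770112) (l 16768928)))) (b (a (b (a (a (l 3) (a (l 3) (b (c (l 133848617751) (l 135459228855)) (l 3)))) (a (b (a (b (a (c (l 93046429655) (l 91972685991)) (c (l 69424109159) (l 68350365479))) (l 3)) (c (b (l 16770520) (l 115058135031)) (b (l 16769664) (l 116668746119)))) (l 3)) (b (b (l 16769432) (a (b (l 16770144) (a (l 110763167655)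 (l 68887236407))) (l 16769872))) (b (a (l 140291067351) (b (a (l 94120169287) (l 55465463399)) (l 130090519639))) (l 3))))) (l 3)) (a (a (b (b (l 16771512) (c (b (l 45264918055) (a (l 125795553207) (a (l 89288332839) (l 66202883255)))) (b (l 44728045127) (a (l 127406164327) (l 79087783175))))) (l 3)) (b (c (c (l 16771992) (l 16771528)) (l 16770864)) (b (b (a (c (l 111836909143) (l 106468199879)) (c (l 63518528887) (l 63518526679))) (l 138143583623)) (l 3)))) (b (c (l 16773104) (l 16772152)) (b (a (a (b (l 16769672) (c (l 89825203191) (l 92509555735))) (c (l 40433079383) (l 16771776))) (c (l 16769352) (l 16768504))) (c (a (l 130627391751) (a (b (l 73719076103) (l 3)) (b (l 16770096) (l 108615683255)))) (a (l 132774873863) (b (c (l 59223560183) (l 55465463863)) (l 118816229351)))))))) (l 3)))), by decide +kernel⟩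

def k26_pp_012_a : ∃ t, chk3 f_pp_012_a t 93 9 1 = true :=
  ⟨(b (l 16760920) (b (b (l 16764088) (c (l 16770240) (l 16768776))) (b (a (b (c (l 16765312) (l 16764232)) (a (b (l 16772864) (a (b (l 16769040) (c (l 49559884919) (l 45801787927))) (l 16768504))) (l 16771792))) (c (l 16773696) (l 16772528))) (a (b (a (b (a (b (a (l 133311744727) (c (l 86067106887) (l 78014042807))) (l 3)) (c (b (l 16769880) (a (l 118279359639) (l 69960979319))) (b (l 16769096) (c (l 86603976439) (l 78550913175))))) (l 3)) (b (c (l 16771568) (l 16770752)) (a (c (b (a (l 95730783111) (l 56002335223)) (l 130627390871)) (b (c (l 74792816183) (l 68887236407)) (l 132238002151))) (b (l 16769080) (c (c (l 65129141255) (l 64592269639)) (l 58149819143)))))) (a (l 3) (a (l 3) (b (c (l 124721810967) (l 125258679783)) (l 3))))) (b (c (c (l 16772544) (l 16772080)) (l 16771424)) (a (a (b (c (b (c (l 54928593463) (l 54391721847)) (l 109152553719)) (b (l 48486142375) (l 111300035927))) (l 3)) (b (c (l 36674982119) (l 16771256)) (b (a (l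 123111195399) (b (l 48486143255) (l 91435816599))) (l 3)))) (b (l 16770352) (a (c (b (l 16769496) (a (l 109152553367) (l 61371043799))) (b (l 16768776) (c (l 73719074711) (l 119353095671)))) (l 16771232))))))))), by decide +kernel⟩

def k27_pp_012_a : ∃ t, chk3 f_pp_012_a t 47 9 1 = true :=
  ⟨(b (a (l 16753840) (l 16725648)) (a (b (c (l 16771264) (l 16769224)) (b (l 16767848) (a (a (b (l 16764016) (l 16771920)) (l 16768864)) (l 16771496)))) (b (l 16763080) (b (l 16750272) (l 16766208))))), by decide +kernel⟩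

def k28_pp_012_a : ∃ t, chk3 f_pp_012_a t 22 5 1 = true :=
  ⟨(l 3), by decide +kernel⟩

def k29_pp_012_a : ∃ t, chk3 f_pp_012_a t 46 20 1 = true :=
  ⟨(b (a (l 3) (b (a (l 3) (b (a (l 3) (b (c (a (l 133311745495) (b (c (l 67276624487) (l 67276623527)) (l 122037455559))) (a (l 132774873255) (b (l 74255942199) (l 122574325143)))) (l 3))) (l 3))) (l 3))) (l 3)), by decide +kernel⟩

def k30_pp_012_a : ∃ t, chk3 f_pp_012_a t 94 40 1 = true :=
  ⟨(b (a (b (a (a (b (a (c (b (l 16769304) (l 71571590791)) (l 48486141911)) (l 16771800)) (c (b (l 111300036983) (l 3)) (l 118279358023))) (b (l 16770840) (c (b (l 41506821095) (c (l 100025747831) (l 101099488983))) (b (l 16770168) (l 98952004599))))) (c (c (l 16770800) (l 16770416)) (l 16769872))) (a (l 3) (b (b (a (c (c (l 79624655287) (l 75866558903)) (l 81235266439)) (l 16771432)) (a (l 3) (c (c (l 69424106951) (l 63518527415)) (l 65129140071)))) (c (a (l 3) (l 124721810247)) (l 126332422439))))) (b (c (l 16770720) (l 16769872)) (a (b (l 16771816) (c (a (b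 (c (l 56539205495) (l 52781108999)) (l 112910649399)) (c (l 36674981479) (l 34527497671))) (a (b (l 51707366951) (l 113447519159)) (l 33453755783)))) (c (l 16769832) (l 16766512))))) (a (l 3) (b (b (b (a (c (a (l 3) (c (l 102173231143) (l 103246972359))) (l 113984390407)) (c (l 25937563511) (l 16770816))) (a (l 3) (a (a (l 114521261271) (b (l 16771128) (l 83919622823))) (l 16771336)))) (a (l 3) (a (l 3) (b (a (b (l 74792817159) (l 3)) (c (l 51707367223) (l 16770184))) (l 124184938039))))) (l 3)))), by decide +kernel⟩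

def k31_pp_012_a : ∃ t, chk3 f_pp_012_a t 95 40 1 = true :=
  ⟨(b (a (c (l 16768656) (l 16767720)) (l 16769912)) (a (a (b (b (l 16769760) (b (l 16770744) (a (c (a (l 73182203751) (l 16769240)) (l 60297299047)) (l 16768352)))) (b (c (b (a (l 114521261863) (c (l 46875528055) (l 43117431703))) (a (l 3) (c (l 103246972663) (l 104857584871)))) (a (l 119889970471) (b (l 48486138759) (l 107541938727)))) (l 3))) (b (l 16770040) (a (b (c (c (l 28621916999) (l 16770264)) (l 27548174663)) (b (a (l 116668744743) (c (a (l 79087783191) (l 58686688279)) (l 70497847479))) (l 3))) (b (l 16767672) (c (b (l 16770208) (a (l 104320713943) (a (l 63518526343) (l 16770520)))) (a (b (l 16768616) (l 87140846407)) (l 44191171527))))))) (b (l 16768768) (a (c (c (l 16770144) (l 16769840)) (l 16769424)) (l 16768000))))), by decide +kernel⟩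

def k32_pp_012_a : ∃ t, chk3 f_pp_012_a t 47 41 1 = true :=
  ⟨(a (l 3) (b (a (l 3) (b (a (a (b (c (b (a (c (l 79624653399) (l 75329686215)) (l 35601238487)) (l 115058132551)) (b (a (l 84456489847) (l 16770000)) (l 117742486279))) (l 3)) (a (b (b (l 16768504) (c (b (l 16769200) (l 82845878775)) (l 64592267127))) (l 3)) (b (c (l 16769968) (l 16768200)) (b (b (c (l 73182202199) (l 74792814199)) (l 3)) (l 3))))) (b (c (l 16770272) (l 16769760)) (a (b (a (b (l 16768816) (c (l 57076074679) (l 61907911111))) (l 16768568)) (b (a (l 110226294919) (c (l 47412398103) (l 16769176))) (c (l 112910648583) (l 115595002375)))) (c (c (l 21105723495) (l 20031981207)) (l 19495109975))))) (a (l 3) (a (l 3) (b (b (a (c (c (l 104320713975) (l 105931326311)) (l 108615680327)) (b (c (l 16769080) (l 16768696)) (c (c (l 76940298295) (l 75866555991)) (l 80698393175)))) (l 3)) (l 3)))))) (l 3))), by decide +kernel⟩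

def k33_pp_012_a : ∃ t, chk3 f_pp_012_a t 23 21 1 = true :=
  ⟨(l 3), by decide +kernel⟩

def k34_pp_012_a : ∃ t, chk3 f_pp_012_a t 23 11 1 = true :=
  ⟨(l 3), by decide +kernel⟩

def k35_pp_012_a : ∃ t, chk3 f_pp_012_a t 5 3 1 = true :=
  ⟨(l 3), by decide +kernel⟩

def k36_pp_012_a : ∃ t, chk3 f_pp_012_a t 12 4 1 = true :=
  ⟨(a (b (a (b (l 16673112) (l 16693256)) (l 16704656)) (b (a (b (a (l 16712536) (l 16705400)) (a (l 16723680) (l 16715832))) (b (l 16693408) (a (l 16708032) (l 16700440)))) (a (b (a (l 16734784) (l 16727232)) (a (l 16766760) (l 16738352))) (b (a (l 16719368) (l 16710840)) (a (l 16730600) (l 16722352)))))) (b (a (b (l 16642256) (l 16661992)) (b (l 16626224) (l 16645616))) (b (a (l 16682728) (l 16687088)) (a (b (a (l 16723864) (l 16695088)) (a (l 16713920) (l 16726376))) (a (b (l 16686760) (b (l 16695112) (l 16700344))) (l 16683088)))))), by decide +kernel⟩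

def k37_pp_012_a : ∃ t, chk3 f_pp_012_a t 48 40 1 = true :=
  ⟨(b (a (l 16764568) (l 16746752)) (a (a (c (l 16767120) (l 16766192)) (l 16768336)) (l 16762888))), by decide +kernel⟩

def k38_pp_012_a : ∃ t, chk3 f_pp_012_a t 96 82 1 = true :=
  ⟨(b (a (a (c (l 16769272) (l 16768720)) (l 16767272)) (l 16767272)) (a (a (a (a (b (c (b (l 16768840) (a (l 105394455479) (b (l 16769856) (l 111300035927)))) (b (l 16768448) (b (l 61371040279) (l 118816227671)))) (l 3)) (b (b (l 16768232) (b (l 16768712) (c (c (l 50096752471) (l 49023010087)) (l 50633621911)))) (a (l 3) (b (c (l 110226293719) (l 112373776695)) (l 3))))) (b (c (l 16769464) (l 16769048)) (b (a (b (c (a (l 59760428231) (l 16769032)) (l 39896203511)) (c (c (l 88214587271) (l 88214586743)) (l 93046424135))) (c (c (l 16769648) (l 16769456)) (l 16769032))) (a (l 3) (a (c (l 114521261047) (l 116131873159)) (b (c (a (l 79624651863) (l 56539202711)) (l 71571587191)) (l 3))))))) (c (b (l 16769560) (b (l 16769208) (a (a (b (l 16768960) (a (l 90898941031)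 (c (l 45264913831) (l 45264913319)))) (l 16768728)) (l 16768128)))) (b (l 16769072) (b (l 16768800) (b (l 16769312) (a (a (a (l 88214586263) (l 46875525111)) (l 16768544)) (l 16767920))))))) (a (c (l 16768552) (l 16768016)) (l 16766544)))), by decide +kernel⟩

def k39_pp_012_a : ∃ t, chk3 f_pp_012_a t 192 83 1 = true :=
  ⟨(b (a (l 3) (b (a (b (a (c (l 119353099463) (l 120963711591)) (a (b (b (c (l 49559880775) (l 45801783943)) (c (l 99488875623) (l 105394454551))) (l 3)) (b (c (l 30769398871) (l 16769104)) (c (a (l 115058132199) (l 93583295559)) (l 96804520103))))) (l 3)) (a (b (a (b (c (l 16768896) (l 16768568)) (b (c (l 16769128) (l 16768816)) (c (l 79087780903) (l 78014037991)))) (c (l 16769512) (l 16769184))) (b (a (l 3) (b (c (c (l 59760428327) (l 60297298759)) (c (l 60297298295) (l 63518523255))) (c (l 110226293895) (l 113984389543)))) (l 3))) (b (c (l 16768560) (l 16768216)) (a (b (c (a (b (l 16769088) (l 73182200807)) (l 16769072)) (a (b (l 16768792) (l 76403425143)) (l 16768776))) (c (l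 102173229783) (c (l 103246971175) (l 97878261959)))) (b (c (l 16768928) (l 16768616)) (b (c (l 39359333271) (c (l 16769096) (l 16769128))) (c (l 81235264503) (l 83919618071)))))))) (l 3))) (l 3)), by decide +kernel⟩

def k40_pp_012_a : ∃ t, chk3 f_pp_012_a t 193 83 1 = true :=
  ⟨(a (b (b (b (c (l 16768864) (l 16768464)) (b (c (l 16769344) (l 16768816)) (a (c (c (l 16769480) (l 16769312)) (c (l 16769240) (l 16769024))) (l 16767760)))) (b (a (b (a (a (b (c (l 71571588007) (c (l 71034716519) (l 72645328855))) (l 3)) (b (c (l 16769064) (l 16768784)) (c (l 59760427991) (l 57076072359)))) (c (l 16768848) (l 16768560))) (a (c (l 109689422711) (l 108078809463)) (a (b (c (l 43654300599) (l 38285591031)) (c (l 90362070039) (l 88751456871))) (c (l 16769376) (l 16769112))))) (c (l 16769720) (l 16769408))) (b (a (a (l 3) (c (l 98952004327) (l 99488874743))) (a (a (c (a (l 54391718807) (l 16769432)) (l 43117428903)) (l 16769480)) (l 16768528))) (a (l 3) (a (a (l 3) (b (c (l 59223556983) (l 56002331207)) (l 101099488135)))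 (c (a (l 30232527751) (l 16768872)) (l 16769048))))))) (b (a (l 3) (b (a (l 3) (a (c (l 103783842647) (l 103783842199)) (b (c (c (l 50096751815) (l 50096751415)) (l 50096750839)) (l 3)))) (l 3))) (l 3))) (b (b (c (l 16768856) (l 16768376)) (c (c (l 16770232) (l 16770040)) (l 16768464))) (a (b (a (b (b (c (l 16768888) (l 16768640)) (a (c (l 79624651623) (l 75866555143)) (c (l 37211849559) (l 16769192)))) (l 105394455351)) (b (l 16769168) (b (c (c (l 42043688135) (l 38285591943)) (l 41506816455)) (l 93046424119)))) (l 3)) (b (b (l 16769208) (a (c (c (l 22716335351) (l 21105722535)) (l 20568850823)) (l 16768344))) (b (a (c (c (l 91972682567) (l 93583295111)) (l 94657036679)) (b (l 19495109687) (a (l 91435811735) (l 46875526439)))) (l 3)))))), by decide +kernel⟩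

def k41_pp_012_a : ∃ t, chk3 f_pp_012_a t 97 41 1 = true :=
  ⟨(b (a (c (l 16765584) (l 16764648)) (l 16761488)) (b (a (a (c (l 16767832) (l 16767304)) (l 16765808)) (l 16765744)) (b (a (a (c (l 16769768) (l 16769432)) (l 16765256)) (l 16767856)) (a (a (a (b (l 4462724071) (a (a (l 86603973383) (b (l 33453753527) (l 82845878007))) (c (c (l 27548173767) (l 26474431927)) (l 27548172839)))) (l 16769192)) (l 16769240)) (l 16766624))))), by decide +kernel⟩

def k42_pp_012_a : ∃ t, chk3 f_pp_012_a t 49 20 1 = true :=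
  ⟨(b (a (c (l 16764080) (l 16761768)) (l 16754704)) (a (b (c (l 16761840) (l 16760224)) (a (b (l 16756816) (l 16764912)) (a (l 16760608) (l 16753368)))) (b (l 16763328) (a (l 16760752) (l 16746016))))), by decide +kernel⟩

def k43_pp_012_a : ∃ t, chk3 f_pp_012_a t 48 21 1 = true :=
  ⟨(b (a (l 3) (b (a (b (b (a (a (c (l 101636359719) (l 102710101287)) (a (b (b (l 29695657143) (l 77477167703)) (l 3)) (b (l 16769304) (b (l 55465461495) (l 3))))) (a (a (b (l 16768240) (a (l 44728042103) (l 16769440))) (l 16769472)) (l 16770160))) (a (l 3) (a (a (l 101636359383) (b (a (l 61371041671) (l 49023009367)) (l 3))) (b (l 15200141687) (b (c (l 49023009559) (l 45801784263)) (l 72645330071)))))) (l 3)) (a (b (c (l 16768952) (l 16768776)) (b (a (b (a (l 61907911719) (l 24863819063)) (l 94657037223)) (b (l 16769496) (a (l 46875526071) (l 16768632)))) (a (l 3) (a (l 3) (b (l 66739749975) (l 3)))))) (b (l 16767832) (b (l 16769968) (b (a (c (l 23790076695) (l 23253205703)) (l 16767848)) (a (a (l 94120166119) (c (l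 51707364391) (l 53317976999))) (l 16769160))))))) (a (l 3) (b (a (l 3) (b (a (l 3) (b (a (l 72645330055) (a (l 47949267767) (l 16769176))) (l 3))) (l 3))) (l 3))))) (l 3)), by decide +kernel⟩

def k44_pp_012_a : ∃ t, chk3 f_pp_012_a t 98 42 1 = true :=
  ⟨(b (b (a (c (l 16768048) (l 16767456)) (l 16763928)) (a (a (a (a (l 16769496) (l 16769064)) (l 16768400)) (l 16767040)) (c (l 16767112) (l 16766480)))) (a (b (b (a (b (l 16768904) (a (a (c (l 55465460951) (l 59223557127)) (c (l 16769256) (l 16769456))) (l 16768168))) (l 16769136)) (b (b (a (a (l 77477168535) (l 16769312)) (l 16768688)) (a (a (l 3) (a (l 65666007783) (l 16768784))) (l 16768208))) (b (a (a (l 3) (a (l 3) (l 53317976871))) (l 16768872)) (a (l 3) (a (a (l 42043687575) (l 16768608)) (l 16767960)))))) (a (l 3) (b (a (b (a (l 89825198823) (b (l 29695656391) (l 73719071399))) (l 3)) (a (b (l 16769080) (b (l 63518524007) (l 3))) (b (l 16768240) (b (l 16768744) (c (l 52781105559) (l 52781106119)))))) (l 3)))) (b (a (c (l 16768128) (l 16767856))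 (l 16767376)) (a (a (a (b (l 16768632) (b (b (a (l 62981652391) (l 16768864)) (l 87140843687)) (l 3))) (b (l 16769008) (b (a (b (l 16768656) (l 46875524775)) (l 16768600)) (c (l 81235263831) (l 83382747751))))) (b (l 16768320) (a (b (l 16768928) (b (c (l 16768704) (l 16768816)) (a (l 94657036055) (b (l 43117428263) (l 82845875879))))) (c (c (l 16769416) (l 16769456)) (l 16769480))))) (b (l 16768208) (a (b (l 16767120) (l 16768800)) (l 16767824))))))), by decide +kernel⟩

def k45_pp_012_a : ∃ t, chk3 f_pp_012_a t 98 43 1 = true :=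
  ⟨(b (a (l 3) (b (b (a (a (l 3) (a (l 3) (b (b (a (l 80698392263) (c (l 39896203335) (l 16768936))) (l 3)) (l 3)))) (a (b (a (b (l 16768560) (a (c (l 58686685271) (l 59760427607)) (c (l 16768712) (l 16768832)))) (l 16768928)) (a (c (c (l 84456489191) (l 85530231207)) (l 87677715063)) (b (a (b (l 16768808) (l 68887232135)) (l 16768672)) (a (l 3) (b (l 59760426535) (l 93583294183)))))) (b (l 16768880) (a (a (b (l 16768440) (b (l 16768696) (l 45801782807))) (l 16768384)) (l 16768032))))) (a (l 3) (a (l 3) (a (b (b (a (l 87140843303) (b (l 36138106327) (l 74792812151))) (l 3)) (l 3)) (a (b (b (l 21105720711) (c (l 68887232471) (l 69960974823))) (l 3)) (b (b (l 16768432) (b (l 16768688) (l 53854846471))) (l 89288327463))))))) (l 3))) (l 3)), by decide +kernel⟩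

def k46_pp_012_a : ∃ t, chk3 f_pp_012_a t 99 42 1 = true :=
  ⟨(a (a (b (l 16762336) (b (l 16766680) (c (l 16767112) (l 16766768)))) (b (l 16765496) (b (l 16759376) (a (l 16768048) (l 16761776))))) (b (l 16762320) (a (b (l 16757280) (l 16765456)) (l 16763176)))), by decide +kernel⟩

def k47_pp_012_a : ∃ t, chk3 f_pp_012_a t 99 86 1 = true :=
  ⟨(b (a (a (a (b (c (l 16769608) (l 16766912)) (b (c (l 16769296) (l 16768024)) (b (a (a (b (l 43654299031) (l 80698392119)) (c (l 16768576) (l 16768696))) (l 16768304)) (a (c (l 76403425447) (l 78014038727)) (a (b (l 16768680) (l 62444780935)) (l 16768528)))))) (b (l 16768600) (c (l 16768712) (l 16768696)))) (b (l 16767088) (c (l 16767952) (l 16768440)))) (a (c (l 16765960) (l 16768160)) (l 16766280))) (b (a (a (a (a (l 3) (a (l 3) (b (b (c (c (l 57612943303) (l 59223556231)) (l 61371040071)) (l 3)) (l 3)))) (b (a (b (c (c (l 18958237431) (l 16768488)) (l 16769216)) (a (l 81235263047) (b (l 32380009655) (l 68350360935)))) (c (l 16768816) (l 16768248))) (a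 (l 3) (b (a (c (c (l 61907910455) (l 62981652567)) (l 65666007239)) (c (c (l 31306268151) (l 31843139351)) (l 33453752263))) (l 84993359799))))) (a (a (b (l 16767728) (b (l 16768256) (b (c (l 25400687959) (l 16768568)) (a (l 73719069991) (l 30769396695))))) (c (l 16768880) (l 16767592))) (c (l 16768168) (l 16769432)))) (a (c (l 16768024) (l 16767832)) (l 16765856))) (a (a (l 3) (a (b (a (a (l 3) (b (b (l 65129135287) (l 3)) (l 3))) (a (b (c (c (l 37211848119) (l 37211848407)) (l 39896203159)) (l 88751455607)) (b (l 16768352) (b (a (l 59760426007) (l 16768552)) (l 79624649879))))) (l 3)) (a (b (b (l 16767984) (a (c (l 26474429575) (l 16768504)) (l 16768216))) (b (a (c (l 72645328327) (l 73719070807)) (b (l 16768480) (a (l 80161520583) (l 51170491255)))) (l 3))) (a (b (l 16767792) (b (l 16768320) (c (a (l 72645328071) (l 54391716999)) (l 60834168759)))) (b (l 16767544) (b (l 16768080) (a (b (l 16768400) (l 55465458471)) (l 16768368)))))))) (a (a (c (c (l 16768536) (l 16768576)) (l 16768576)) (c (l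 16766280) (l 16766200))) (c (l 16767424) (l 16764576)))))), by decide +kernel⟩

def k48_pp_012_a : ∃ t, chk3 f_pp_012_a t 99 87 1 = true :=
  ⟨(a (b (a (l 3) (a (l 3) (b (a (l 3) (a (l 3) (b (b (l 80161520727) (l 3)) (l 3)))) (l 3)))) (l 3)) (b (b (a (a (b (a (a (b (b (l 35601234567) (l 67813489511)) (l 3)) (b (c (l 16768200) (l 16768336)) (c (c (l 61907909959) (l 62444781207)) (l 65129135895)))) (b (l 16767912) (a (a (b (l 16768368) (l 64055392903)) (l 27011299831)) (l 16768144)))) (a (l 3) (b (a (l 84993358759) (c (a (l 62981651367) (l 44191169335)) (l 52781104759))) (l 3)))) (b (c (l 16767304) (l 16767344)) (b (c (c (l 16768408) (l 16769152)) (l 14663269655)) (a (a (c (l 68887231527) (l 69424103111)) (c (c (l 37211847591) (l 37748718823)) (l 39896202679))) (l 16767976))))) (c (c (l 16768136) (l 16768792)) (c (l 16768760) (l 16768688)))) (a (b (a (l 3) (a (l 87140842487) (a (b (c (c (l 54391716839) (l 54928588087)) (l 57076071959)) (l 3)) (b (c (l 16768104) (l 16768264)) (l 76940294743))))) (l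 3)) (a (a (b (b (l 16767832) (a (b (l 16768224) (l 62981650791)) (l 16768064))) (a (l 3) (b (b (l 54391716135) (l 85530229143)) (l 3)))) (a (b (l 16767632) (b (c (l 30769396103) (l 16768216)) (l 81235261863))) (b (l 16767376) (b (l 16767912) (b (l 16768176) (l 68887230631)))))) (c (c (l 16768312) (l 16768384)) (c (l 16768408) (l 16769704)))))) (a (l 3) (a (l 3) (b (b (b (a (a (c (l 65666005495) (l 65666006279)) (c (l 34527492343) (l 16768168))) (l 16767736)) (a (l 86067100135) (a (c (l 50633619767) (l 53317975127)) (l 26474428103)))) (a (l 3) (c (c (l 76940294695) (l 78014036823)) (l 75866554279)))) (l 3)))))), by decide +kernel⟩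

def k49_pp_012_a : ∃ t, chk3 f_pp_012_a t 24 11 1 = true :=
  ⟨(l 3), by decide +kernel⟩

def k50_pp_012_a : ∃ t, chk3 f_pp_012_a t 25 10 1 = true :=
  ⟨(a (b (a (b (l 16725168) (b (l 16733752) (l 16750032))) (b (l 16716808) (l 16749096))) (a (b (b (a (l 16747528) (l 16743200)) (a (c (l 16764504) (l 16763248)) (l 16759544))) (b (b (a (c (l 16763480) (l 16762624)) (l 16753480)) (a (a (a (l 16765008) (l 16761320)) (l 16764944)) (l 16761688))) (b (a (a (c (c (c (l 16767504) (l 16767496)) (l 16767784)) (c (l 16767368) (l 16767240))) (c (l 16765440) (l 16767712))) (c (l 16764608) (l 16764328))) (a (b (c (a (a (a (b (l 16767320) (c (b (l 28085041447) (l 59760425655)) (b (l 28085041895) (l 60834167959)))) (c (l 16768416) (l 16768520))) (l 16767728)) (l 16767528)) (a (a (b (l 16767160) (a (b (l 30232525767) (l 63518522711)) (l 16767648))) (l 16766448)) (l 16767416))) (b (a (a (a (l 3) (b (a (l 75866552167) (a (l 53317973639) (l 16767608))) (l 3))) (a (b (l 16767624) (a (a (l 74255939271) (l 55465457143))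 (l 34527491383))) (l 16767280))) (c (l 16767248) (l 16768568))) (a (a (l 3) (a (c (l 79087778231) (l 76940296199)) (b (c (c (l 33453750279) (l 33453750759)) (l 36138105431)) (c (l 67813488647) (l 67276618935))))) (a (a (a (c (l 24326944311) (l 16767672)) (l 16767352)) (l 16766960)) (l 16766168))))) (a (b (l 16765344) (a (l 16766048) (l 16763656))) (c (l 16761448) (l 16761072))))))) (b (a (b (l 16738880) (l 16744712)) (l 16758472)) (b (a (l 16761080) (l 16746232)) (a (b (l 16760272) (c (l 16763528) (l 16762904))) (c (l 16763112) (l 16762048))))))) (b (b (a (l 16708592) (b (l 16696704) (l 16702120))) (a (l 16719688) (l 16710488))) (b (a (a (l 16733264) (l 16728752)) (l 16721768)) (a (a (b (l 16741904) (c (l 16748376) (l 16747056))) (b (l 16737368) (l 16743200))) (b (l 16730384) (l 16757192)))))), by decide +kernel⟩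

def k51_pp_012_a : ∃ t, chk3 f_pp_012_a t 100 88 1 = true :=
  ⟨(a (b (a (l 3) (b (b (a (b (a (c (a (l 78014035655) (l 50096748023)) (l 58149813159)) (l 23790072535)) (a (l 3) (c (a (l 65666004487) (l 16767568)) (l 49559878279)))) (c (l 16766792) (l 16766936))) (b (a (l 84993357799) (a (c (a (l 52781102375) (l 16767416)) (l 40433072647)) (l 16767168))) (a (l 3) (a (l 75329680727) (c (l 32380007527) (l 31843137735)))))) (b (b (a (l 3) (a (l 3) (c (l 62981649751) (l 60834167783)))) (l 3)) (l 3)))) (l 3)) (a (b (b (c (c (l 16768184) (l 16768264)) (c (l 16768288) (l 16768256))) (a (b (b (c (a (l 16767208) (l 16766712)) (l 16767176)) (a (c (a (l 71034713159) (l 45264909079)) (l 52244232999)) (l 16767200))) (a (l 3) (b (c (a (l 59760423703) (l 16767248)) (l 43654298183)) (l 80161518263)))) (a (b (l 16766488) (b (l 16767032) (a (a (l 60297294183) (l 44728037495)) (l 16767256)))) (b (l 16765952) (l 16766680))))) (a (l 3) (b (b (a (c (c (l 69424100343) (l 70497842631)) (l 67813489879)) (b (c (l 30232522967)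 (l 16767320)) (c (c (l 53854843847) (l 55465457207)) (l 56002329095)))) (l 3)) (l 3)))) (b (a (b (l 16764048) (c (l 16765440) (l 16765520))) (c (l 16766336) (l 16766240))) (b (b (a (c (c (l 16767664) (l 16766536)) (l 16767992)) (l 16765856)) (a (b (a (c (c (l 45264909015) (l 46875522471)) (l 47949264535)) (l 16766880)) (a (l 84993355735) (a (a (l 68887227991) (l 54391713111)) (a (l 39359327415) (l 16767040))))) (c (l 16766112) (l 16766328)))) (b (a (a (l 3) (a (l 3) (b (l 74255936935) (l 3)))) (a (b (c (a (l 43117424487) (l 16766736)) (l 29158782679)) (c (c (l 58686681399) (l 59223553143)) (l 59760425095))) (c (c (l 16767056) (l 16766624)) (l 16767472)))) (b (a (l 3) (a (l 3) (a (l 76940291159) (b (l 16766368) (l 65666001799))))) (l 3))))))), by decide +kernel⟩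

def k52_pp_012_a : ∃ t, chk3 f_pp_012_a t 100 89 1 = true :=
  ⟨(l 3), by decide +kernel⟩

def k53_pp_012_a : ∃ t, chk3 f_pp_012_a t 404 44 1 = true :=
  ⟨(b (c (b (l 16764768) (a (b (l 16764736) (b (l 16765760) (a (b (l 16766512) (a (l 59760422519) (l 33453747543))) (l 16766168)))) (c (l 16766936) (l 16767048)))) (b (l 16767160) (b (l 16766872) (a (a (b (l 16766264) (a (b (l 16766976) (l 57076069847)) (l 21105718551))) (l 16766080)) (l 16765240))))) (b (a (b (b (a (c (c (l 72645324983) (l 74255938295)) (l 72645327143)) (b (a (c (a (l 58149809415) (l 42580552903)) (l 45801780551)) (c (l 16766544) (l 16766904))) (c (c (l 64592260695) (l 62444778151)) (l 63518521015)))) (l 3)) (l 3)) (a (b (b (b (l 16765704) (c (a (a (l 46338648935) (l 16766552)) (l 16766360)) (l 24863814711))) (b (a (c (l 78550903847) (l 73719067767)) (c (a (l 64055388903) (l 50096744967)) (l 48486134791))) (l 3))) (l 3)) (b (b (c (l 16765816) (l 16766112)) (b (c (a (l 29695650199) (l 16766184)) (l 16766688)) (a (c (c (l 62444776567)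 (l 61371035687)) (l 61907907655)) (c (c (c (l 28621909079) (l 16766424)) (l 16766640)) (l 35601232583))))) (a (l 3) (b (b (c (l 89825191959) (l 75866551255)) (l 3)) (l 3)))))) (l 3))), by decide +kernel⟩

def k54_pp_012_a : ∃ t, chk3 f_pp_012_a t 405 44 1 = true :=
  ⟨(b (b (c (l 16760024) (l 16759640)) (c (c (l 16765400) (l 16765448)) (a (l 16765944) (l 16762184)))) (b (b (a (b (c (l 16765040) (l 16765264)) (c (a (c (l 16765824) (l 16766088)) (l 16765448)) (l 16766032))) (c (c (l 16764240) (l 16764416)) (l 16764512))) (b (a (b (a (a (c (c (a (l 61371034455) (l 47412390519)) (l 50633617127)) (l 51170489191)) (c (c (l 27011295591) (l 16766464)) (l 16766744))) (c (l 16765952) (l 16766328))) (a (a (l 3) (b (c (c (l 63518517783) (l 16766704)) (l 59760423463)) (l 3))) (a (c (c (c (c (l 32380005271) (l 16766504)) (l 37211843783)) (l 40433069463)) (l 40433070631)) (c (c (l 16765984) (l 16766288)) (l 16766568))))) (c (c (c (l 16766440) (l 16765280)) (l 16765456)) (l 16765672))) (a (a (l 3) (b (a (l 3) (c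 (c (c (c (l 40969940119) (l 45801778279)) (l 49559874775)) (l 52781100567)) (l 53317972663))) (l 3))) (a (b (c (c (c (c (l 16766440) (l 16766536)) (l 16766008)) (l 16766240)) (c (l 16766456) (l 16766576))) (a (c (c (c (l 54928583895) (l 62981647511)) (l 65129131655)) (l 66739745367)) (c (c (c (c (l 29158779303) (l 34527488951)) (l 38822456279)) (l 42580552903)) (c (l 42043683031) (l 43117425303))))) (c (c (c (l 16766152) (l 16765672)) (l 16765888)) (l 16766160)))))) (b (b (a (l 3) (a (l 3) (a (b (c (c (c (a (l 56539195863) (l 38822455719)) (l 52244229015)) (l 54928583991)) (a (l 66202874183) (l 51707359415))) (l 3)) (b (c (c (c (l 16810748071) (l 23253199479)) (l 16766424)) (a (l 37211844583) (l 16766520))) (c (c (c (b (l 55465453975) (l 3)) (l 61371034455)) (l 62444776887)) (l 64055390631)))))) (l 3)) (l 3)))), by decide +kernel⟩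

def k55_pp_012_a : ∃ t, chk3 f_pp_012_a t 203 88 1 = true :=
  ⟨(a (b (l 16757656) (c (l 16763312) (l 16765712))) (c (l 16762408) (l 16761880))), by decide +kernel⟩

def k56_pp_012_a : ∃ t, chk3 f_pp_012_a t 203 178 1 = true :=
  ⟨(a (c (a (b (l 16763288) (b (l 16764304) (a (a (l 16765360) (l 16765104)) (l 16764712)))) (c (l 16765464) (l 16765592))) (b (l 16765424) (a (c (l 16764888) (l 16764936)) (l 16763784)))) (c (c (l 16763904) (l 16763968)) (c (l 16763952) (l 16766480)))), by decide +kernel⟩

def k57_pp_012_a : ∃ t, chk3 f_pp_012_a t 406 179 1 = true :=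
  ⟨(a (b (b (b (c (c (c (l 16765872) (l 16765392)) (l 16765608)) (l 16765880)) (a (b (c (c (c (l 16766016) (l 16765880)) (l 16766128)) (l 21642587927)) (a (c (c (c (l 40433068407) (l 52244228599)) (l 53317971015)) (l 54391713847)) (c (c (c (l 16765728) (l 16765928)) (l 16766176)) (l 16766504)))) (c (c (c (l 16765280) (l 16765464)) (l 16765688)) (l 16765984)))) (a (a (l 3) (b (b (c (c (c (l 37748713543) (l 16766096)) (l 16766352)) (l 46875520951)) (l 3)) (l 3))) (b (c (c (c (l 3388975207) (c (l 16766432) (l 16765872))) (l 13589523159)) (a (l 20031975351) (l 16766248))) (a (c (c (c (l 53854841591) (l 63518518007)) (l 64055389575)) (l 66202874135)) (c (c (c (a (l 34527488039) (l 16765816)) (l 29695650359)) (l 33453747063)) (l 33990619191)))))) (l 3)) (b (b (c (c (c (l 16765688) (l 16764536)) (l 16764720)) (l 16766248)) (c (c (c (l 16765736) (c (l 16766528) (l 16766608))) (a (l 16765736) (l 16765208))) (c (l 16765680) (l 16765792)))) (b (b (a (a (c (c (c (l 47949260903) (l 51707357879)) (l 53854842023))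 (l 54928584807)) (c (c (c (l 16765752) (l 16765944)) (l 16766184)) (l 16766496))) (c (c (l 16765480) (l 16765800)) (l 16766080))) (a (c (c (l 65666001703) (l 65666002567)) (l 67813487095)) (c (c (c (l 20031973303) (l 17884490519)) (l 23790070695)) (c (l 24863813463) (l 26474426935))))) (a (l 3) (c (c (c (l 54928583399) (l 54928584183)) (l 59223551863)) (l 61371036599)))))), by decide +kernel⟩

def k58_pp_012_a : ∃ t, chk3 f_pp_012_a t 407 179 1 = true :=
  ⟨(b (b (c (c (l 16764232) (l 16765736)) (l 16764536)) (a (a (l 16764120) (l 16764224)) (l 16763400))) (a (a (b (c (c (l 16765168) (l 16765456)) (l 16765720)) (a (c (c (c (l 32916875367) (l 28621909095)) (l 35064360167)) (l 36674974151)) (c (c (b (l 16765608) (l 51170485959)) (l 16766424)) (l 21642588279)))) (c (c (c (l 16765600) (l 16766424)) (l 16765320)) (l 16766872))) (c (c (c (l 16765504) (l 16764336)) (l 16764512)) (l 16764704)))), by decide +kernel⟩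

def k59_pp_012_a : ∃ t, chk3 f_pp_012_a t 50 45 1 = true :=
  ⟨(a (l 3) (a (l 3) (b (b (b (a (l 3) (a (a (l 3) (b (c (c (c (l 44728035623) (l 40969940423)) (l 47412391559)) (l 48486133303)) (l 3))) (a (b (c (a (b (l 16765760) (l 16765544)) (b (l 16765496) (l 16765872))) (l 17347621047)) (c (l 69960968439) (l 61907907367))) (b (c (l 16765296) (l 16765656)) (c (b (a (l 16765992) (l 16765736)) (l 64055387527)) (l 29158781463)))))) (l 3)) (l 3)) (l 3)))), by decide +kernel⟩

def k60_pp_012_a : ∃ t, chk3 f_pp_012_a t 50 23 1 = true :=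
  ⟨(l 3), by decide +kernel⟩

def k61_pp_012_a : ∃ t, chk3 f_pp_012_a t 51 44 1 = true :=
  ⟨(a (a (a (b (c (l 16760272) (l 16754352)) (c (b (l 16761816) (c (b (l 16763832) (l 16764024)) (b (l 16761328) (l 16762888)))) (b (l 16759008) (b (l 16763968) (l 16762984))))) (a (b (l 16753072) (b (l 16757480) (b (l 16759696) (l 16761280)))) (b (l 16751960) (b (l 16756360) (b (l 16758584) (l 16760160)))))) (b (c (l 16760040) (l 16748536)) (c (b (l 16758984) (a (l 16760344) (l 16755512))) (b (l 16753184) (c (l 16761696) (l 16761472)))))) (b (a (l 16754928) (l 16739808)) (b (a (l 16748888) (l 16744256)) (a (c (l 16757400) (l 16751600)) (l 16752536))))), by decide +kernel⟩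

def k62_pp_012_a : ∃ t, chk3 f_pp_012_a t 102 45 1 = true :=
  ⟨(a (b (b (c (b (a (a (c (c (b (l 16764296) (l 16766352)) (l 16766136)) (l 16766312)) (l 16763824)) (a (l 16762760) (l 16761680))) (a (a (b (a (c (l 51170486567) (l 47949262455)) (a (l 35064357975) (l 16765648))) (l 62444776823)) (b (l 16764984) (a (a (l 48486131367) (l 32916874615)) (l 16765488)))) (a (l 16764304) (l 16763232)))) (a (b (a (l 16766512) (l 16764056)) (b (a (a (l 49559876279) (l 16766128)) (l 16765288)) (a (l 61907907975) (c (l 19495104743) (l 21642589127))))) (a (l 16763728) (l 16762568)))) (a (a (l 3) (b (c (b (l 60297292071) (l 3)) (l 53317974519)) (l 3))) (b (a (b (a (c (l 27548165351) (l 16766048)) (l 16765392)) (a (l 73719064071) (c (l 38822454999) (l 16766264)))) (c (c (c (l 16765896) (l 16766032)) (l 16766192)) (l 16766352))) (b (a (l 3) (a (l 62981645303) (c (l 16765648) (l 16765960)))) (l 3))))) (l 3)) (a (b (b (c (l 16762784) (l 16760816)) (a (b (c (l 16763696) (l 16763880)) (b (l 16765040) (a (l 53854839255)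 (l 16765552)))) (b (l 16762704) (a (l 16764592) (l 16764024))))) (b (b (b (a (l 64592258327) (a (l 36674969655) (l 16765232))) (a (l 3) (l 56002323511))) (l 3)) (l 3))) (b (c (b (l 16758616) (c (l 16764288) (l 16761776))) (b (l 16758456) (l 16764392))) (a (b (b (c (c (l 16764512) (l 16764712)) (l 16764848)) (c (b (l 40433067639) (l 3)) (l 41506812647))) (l 3)) (b (b (l 16763648) (b (l 16764856) (a (l 16765224) (l 16765368)))) (b (l 62444775271) (l 3))))))), by decide +kernel⟩

def k63_pp_012_a : ∃ t, chk3 f_pp_012_a t 103 45 1 = true :=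
  ⟨(a (b (c (b (l 16760504) (c (l 16762312) (l 16763616))) (a (l 16761672) (l 16760600))) (b (a (c (a (l 16764184) (l 16762088)) (l 16765352)) (c (l 16763032) (l 16760344))) (a (a (b (b (a (l 16765584) (l 16765048)) (l 54928581303)) (l 3)) (b (b (l 16764184) (l 24326937511)) (a (l 60297291047) (l 44191162823)))) (a (b (l 16763440) (b (l 16764656) (a (l 16765680) (l 16765160)))) (c (l 16764312) (l 16763096)))))) (a (b (c (l 16753448) (l 16752960)) (b (l 16760712) (c (l 16763272) (l 16761304)))) (b (l 16756184) (c (c (l 16762728) (l 16762704)) (l 16762496))))), by decide +kernel⟩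

def k64_pp_012_a : ∃ t, chk3 f_pp_012_a t 51 23 1 = true :=
  ⟨(b (a (l 3) (b (b (b (a (a (l 3) (a (l 59760420311) (a (l 45264904599) (a (l 36674969063) (l 31306259463))))) (a (a (b (l 16763968) (l 24863808087)) (l 16763216)) (l 16761488))) (a (l 3) (a (a (c (l 40433067639) (l 37748715335)) (b (l 16764440) (l 39896194551))) (c (l 16764328) (l 16763144))))) (a (l 3) (b (a (c (l 56539196503) (l 54928586183)) (a (b (a (l 16765160) (l 16764632)) (l 52781096919)) (c (c (l 16766552) (l 16764120)) (l 16764232)))) (a (l 3) (c (a (l 3) (l 37748712775)) (l 38285587303)))))) (l 3))) (l 3)), by decide +kernel⟩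

def k65_pp_012_a : ∃ t, chk3 f_pp_012_a t 13 4 1 = true :=
  ⟨(a (b (a (b (l 16610592) (l 16629136)) (b (l 16596672) (l 16614456))) (a (b (l 16648928) (b (l 16664496) (l 16675160))) (b (l 16633512) (a (l 16657672) (l 16650080))))) (b (a (b (l 16584072) (l 16601088)) (b (l 16572304) (l 16588576))) (b (a (l 16619456) (l 16606040)) (a (l 16639104) (l 16624912))))), by decide +kernel⟩

def k66_pp_012_a : ∃ t, chk3 f_pp_012_a t 26 10 1 = true :=
  ⟨(a (b (b (a (l 16690680) (l 16681864)) (a (l 16701336) (b (l 16690360) (l 16695656)))) (a (b (l 16712760) (l 16745232)) (b (l 16704224) (l 16715704)))) (b (a (b (l 16673720) (l 16685024)) (l 16671392)) (b (a (l 16716840) (l 16688184)) (a (l 16707456) (l 16699416))))), by decide +kernel⟩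

def k67_pp_012_a : ∃ t, chk3 f_pp_012_a t 26 22 1 = true :=
  ⟨(b (a (a (b (l 16754016) (a (b (l 16739712) (l 16742752)) (l 16736816))) (b (l 16724456) (l 16740880))) (a (l 16740088) (l 16710944))) (a (a (b (a (c (l 16747880) (l 16747112)) (l 16743112)) (a (b (l 16757616) (a (l 16756752) (l 16754496))) (c (l 16755032) (l 16759704)))) (a (b (l 16738784) (l 16755680)) (a (l 16749264) (l 16736648)))) (a (c (l 16742440) (l 16751648)) (l 16744032)))), by decide +kernel⟩

def k68_pp_012_a : ∃ t, chk3 f_pp_012_a t 26 46 1 = true :=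
  ⟨(b (a (a (b (a (a (a (l 16760592) (l 16759456)) (l 16760384)) (c (l 16759768) (l 16754240))) (a (a (a (b (l 16763048) (c (l 16764808) (l 16764712))) (c (l 16762624) (l 16762760))) (c (l 16763600) (l 16761032))) (a (a (l 16759368) (l 16758256)) (l 16756592)))) (a (c (l 16757040) (l 16761928)) (c (l 16747528) (l 16747016)))) (a (c (l 16751696) (l 16750944)) (l 16732456))) (a (a (b (a (a (a (l 3) (b (c (l 22179456599) (l 16766488)) (l 3))) (b (c (l 16764656) (l 16766184)) (a (c (l 26474424903) (l 16765632)) (c (l 16765664) (l 16764640))))) (a (b (l 16761272) (l 16764224)) (l 16761176))) (a (l 3) (a (a (b (b (l 16765312) (l 31306262999)) (l 3)) (c (b (l 16763784) (c (l 16766880) (l 16765352))) (l 13052651559))) (c (c (c (b (l 16761992) (l 16764816)) (l 16765504)) (l 16765664)) (l 16765176))))) (c (a (a (a (l 16762376) (l 16761296)) (l 16759680)) (l 16759088)) (a (a (l 16761912) (l 16762288)) (l 16758936)))) (a (a (l 16754720) (l 16750432)) (c (l 16749632) (l 16759376))))), by decide +kernel⟩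

def k69_pp_012_a : ∃ t, chk3 f_pp_012_a t 26 94 1 = true :=
  ⟨(a (b (a (a (l 3) (a (l 3) (b (c (a (l 3) (b (l 16765664) (l 6610202391))) (l 28085038231)) (l 3)))) (a (c (a (b (c (l 16764656) (l 16763272)) (a (a (l 3) (b (l 16765856) (l 3))) (b (l 16765104) (a (l 4462718471) (l 16765576))))) (c (l 16763656) (l 16761912))) (a (a (l 6073331447) (l 16763752)) (l 16762096))) (c (c (l 16761136) (l 16763904)) (l 16758728)))) (a (l 3) (a (a (l 3) (b (c (c (a (b (a (l 16764328) (l 16766456)) (l 27548164775)) (a (b (l 16763320) (l 16764056)) (l 16763176))) (l 16766288)) (l 16767152)) (a (l 3) (b (c (c (l 29158776983) (l 16764816)) (l 16765200)) (l 3))))) (a (c (b (l 16764336) (c (b (c (a (l 16763456) (l 16762424)) (l 16763080)) (a (l 30769389175) (l 16764552))) (l 16765320))) (l 16765808)) (c (c (l 16763200) (l 16760800)) (l 16760976)))))) (a (a (c (c (l 16761120) (l 16761216)) (l 16761208)) (l 16757240)) (c (l 16750664) (l 16758112)))), by decide +kernel⟩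

def k70_pp_012_a : ∃ t, chk3 f_pp_012_a t 26 95 1 = true :=
  ⟨(b (a (a (l 3) (a (l 3) (b (a (a (l 3) (c (b (c (l 23790066951) (l 16764272)) (l 71034702007)) (l 16765056))) (c (c (a (b (l 16762968) (l 24326937399)) (c (l 16764864) (l 16762384))) (l 16764440)) (l 16763480))) (a (l 3) (c (a (a (l 3) (b (l 30232518407) (l 3))) (b (c (l 25400678775) (l 16763728)) (c (l 25937550951) (l 16767056)))) (c (l 16767528) (l 16765104))))))) (a (a (c (a (b (l 16763560) (c (a (b (l 16762416) (l 16763160)) (l 16764392)) (l 16762576))) (l 16762256)) (l 16764600)) (c (l 16761712) (l 16756568))) (a (l 16752264) (l 16748000)))) (a (l 3) (a (c (a (a (a (b (b (c (c (l 19495100503) (l 16763944)) (l 16766784)) (c (l 24326939735) (l 16764856))) (l 3)) (c (a (b (b (l 16763136) (l 27548163783)) (l 3)) (b (l 16763656) (b (l 25400680743) (l 3)))) (b (l 35601224919) (l 20568843911)))) (a (c (b (c (l 16762176) (l 16762312)) (a (b (l 24863808695) (l 25400680855)) (b (l 16763104) (l 27011292951)))) (b (l 16762536) (b (l 16763632)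 (l 16764336)))) (c (b (l 16761232) (a (l 27011290903) (l 16762464))) (l 16762920)))) (c (a (b (l 16759712) (a (c (l 16761640) (l 16761776)) (l 16763320))) (l 16758448)) (l 16762368))) (a (a (b (l 16767160) (a (l 3) (l 16768080))) (a (l 16766384) (l 16762688))) (l 16762544))) (c (a (l 16760696) (l 16751264)) (l 16758576))))), by decide +kernel⟩

def k71_pp_012_a : ∃ t, chk3 f_pp_012_a t 27 5 1 = true :=
  ⟨(b (a (b (l 16659912) (b (l 16676536) (a (l 16691320) (l 16683688)))) (b (l 16645056) (l 16687432))) (a (a (b (b (l 16702896) (l 16714896)) (a (b (l 16750376) (l 16750856)) (b (l 16725280) (l 16748464)))) (b (b (l 16694808) (l 16706816)) (b (l 16740080) (b (l 16749464) (a (l 16736976) (l 16732728)))))) (a (b (b (l 16708064) (l 16698792)) (b (l 16710856) (a (l 16746304) (l 16721096)))) (b (b (l 16679456) (l 16690816)) (b (l 16702704) (a (l 16716872) (l 16712720))))))), by decide +kernel⟩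

def k72_pp_012_a : ∃ t, chk3 f_pp_012_a t 12 3 1 = true :=
  ⟨(l 3), by decide +kernel⟩

def k73_pp_012_a : ∃ t, chk3 f_pp_012_a t 52 24 1 = true :=
  ⟨(l 3), by decide +kernel⟩

def k74_pp_012_a : ∃ t, chk3 f_pp_012_a t 106 48 1 = true :=
  ⟨(b (b (a (a (l 3) (b (a (l 3) (c (b (c (a (l 20568842471) (l 24326937879)) (l 16764080)) (c (c (l 17884488871) (l 16765880)) (l 16764776))) (l 16767552))) (l 3))) (a (a (c (c (a (b (b (l 16763072) (l 21642583943)) (l 3)) (b (l 16763920) (b (l 20568842567) (l 3)))) (b (c (l 16763384) (l 16766152)) (l 15737006199))) (c (l 14663263607) (l 16767472))) (c (b (c (l 16762840) (l 16762464)) (c (a (b (l 23253196167) (l 20568842535)) (b (l 16763048) (l 21642583895))) (c (l 16765144) (l 16763984)))) (l 16765656))) (c (c (b (a (l 16761184) (l 16757560)) (a (c (l 16763920) (l 16762728)) (l 16761664))) (b (l 16760968) (l 43117414823))) (l 16762176)))) (a (l 3) (a (l 3) (b (c (a (c (a (b (l 21642584199) (l 3)) (b (l 23790067031) (l 20568842487))) (l 18421359751)) (b (l 16763552)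 (a (a (l 19495100679) (l 22716325671)) (l 16764696)))) (l 11442039191)) (a (l 3) (a (l 3) (b (c (a (l 20568842631) (l 18421358999)) (l 16764688)) (l 3)))))))) (l 3)), by decide +kernel⟩

def k75_pp_012_a : ∃ t, chk3 f_pp_012_a t 107 48 1 = true :=
  ⟨(a (b (b (c (c (a (b (l 16758680) (l 16759512)) (l 16757432)) (l 16761352)) (l 16758880)) (b (c (a (c (a (l 16762152) (l 16761160)) (l 16761920)) (l 16761112)) (l 16761392)) (c (a (a (c (b (l 23253195847) (a (l 20568842471) (l 21105712919))) (l 16765168)) (c (l 16763952) (l 16762888))) (c (c (l 16761096) (l 16761208)) (l 16761408))) (c (l 14126389783) (l 16765680))))) (b (b (a (a (l 3) (c (a (b (l 19495100535) (l 3)) (b (l 22716325543) (l 17884488759))) (l 40969938215))) (c (a (a (b (l 16763120) (l 18958229799)) (l 16764304)) (a (l 16762496) (l 16762008))) (l 16763328))) (a (l 3) (b (c (c (a (l 17347616727) (l 16764560)) (l 16765264)) (l 27011293911)) (a (l 3) (c (a (l 17884488743) (l 18421358951)) (l 16767240)))))) (l 3))) (c (b (c (b (l 16754400) (l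 16758752)) (l 16761360)) (b (b (c (a (l 16763280) (l 16758688)) (l 16759936)) (c (a (c (l 16763400) (l 16762192)) (l 16760176)) (a (l 16765000) (l 16760432)))) (b (a (a (b (a (l 19495101303) (l 16763600)) (l 15200135063)) (c (l 21105712263) (l 16763344))) (c (l 16762968) (l 16761888))) (a (a (l 3) (b (l 17347618327) (l 3))) (a (b (l 16764672) (l 19495101511)) (l 16764064)))))) (b (l 16761416) (b (l 16763784) (a (b (c (c (l 4999591191) (l 16767448)) (l 27011299383)) (a (l 3) (l 38822459671))) (c (l 31306257239) (l 16767160))))))), by decide +kernel⟩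

def k76_pp_012_a : ∃ t, chk3 f_pp_012_a t 53 49 1 = true :=
  ⟨(a (l 3) (b (a (l 3) (b (a (l 3) (c (b (a (l 63518515639) (a (l 16810747671) (l 15200133991))) (l 3)) (a (l 96267643703) (l 82308998103)))) (l 3))) (l 3))), by decide +kernel⟩

def k77_pp_012_a : ∃ t, chk3 f_pp_012_a t 26 25 1 = true :=
  ⟨(l 3), by decide +kernel⟩

def k78_pp_012_a : ∃ t, chk3 f_pp_012_a t 26 13 1 = true :=
  ⟨(l 3), by decide +kernel⟩

def k79_pp_012_a : ∃ t, chk3 f_pp_012_a t 54 48 1 = true :=
  ⟨(a (c (b (c (l 16757680) (l 16757680)) (a (b (l 16759256) (a (b (l 16759816) (a (l 16761784) (l 16760808))) (l 16758616))) (l 16759392))) (b (l 16757520) (a (l 16763752) (l 16754160)))) (a (b (l 16743416) (l 16755168)) (a (l 16753944) (l 16751776)))), by decide +kernel⟩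

def k80_pp_012_a : ∃ t, chk3 f_pp_012_a t 54 49 1 = true :=
  ⟨(a (a (b (b (a (b (c (c (a (l 16765776) (l 16762184)) (l 16762880)) (l 16763296)) (c (a (b (l 17347618375) (l 3)) (c (l 15737004439) (l 16763856))) (a (l 75329677751) (l 31843136583)))) (c (c (b (l 16760720) (l 16762208)) (l 16760376)) (l 16762112))) (a (b (c (l 69960967591) (l 96267643255)) (l 3)) (a (c (b (c (l 22716327639) (l 49023002375)) (l 3)) (l 93046416391)) (b (c (l 16764608) (l 16763792)) (c (l 52781096935) (l 79087774039)))))) (l 3)) (a (b (c (b (c (l 16758216) (l 16759760)) (b (c (l 16761760) (l 16761968)) (c (l 11978908215) (l 28085034311)))) (b (l 16760224) (b (l 16762376) (b (l 16763456) (l 84456479463))))) (b (b (a (c (l 76403420695) (l 94120158759)) (b (l 16273875799) (l 50096744855))) (l 3)) (l 3))) (b (b (l 16758000) (b (l 16762808) (c (l 16764688) (l 16761936)))) (b (b (c (c (l 16762800) (l 16762992)) (l 62981642007)) (c (a (l 53854841543) (l 27548164807)) (a (l 78014032503) (c (l 16765520) (l 30232523351))))) (b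 (c (l 89825191671) (l 97341386631)) (l 3)))))) (c (a (b (c (l 16758808) (l 16756448)) (b (a (b (l 16766216) (l 16762464)) (l 16759800)) (b (a (a (l 54391711623) (l 16763464)) (l 16764656)) (a (a (l 3) (l 78550903719)) (a (l 27548164775) (l 16763048)))))) (b (l 16752152) (c (b (l 16756808) (l 16759808)) (l 16761176)))) (b (c (l 16759520) (l 16759432)) (a (b (c (l 16766384) (l 16766704)) (b (a (a (b (l 16764496) (l 78014032455)) (l 89825187815)) (l 16762536)) (a (a (l 3) (l 75866549031)) (a (l 90362059959) (l 16763520))))) (l 16763920))))), by decide +kernel⟩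

def k81_pp_012_a : ∃ t, chk3 f_pp_012_a t 54 25 1 = true :=
  ⟨(b (b (a (l 3) (a (a (l 3) (b (b (a (l 81235259063) (b (a (l 16765904) (l 16764128)) (l 79624645031))) (l 3)) (l 3))) (b (c (a (b (c (l 16763024) (l 16767144)) (a (l 79624645479) (l 54928581143))) (l 16761952)) (a (b (l 64055385063) (a (l 96804513559) (l 76403417383))) (l 16767704))) (a (a (l 3) (a (l 3) (b (l 88751450663) (l 3)))) (a (b (c (l 57612936791) (l 75329677031)) (l 3)) (c (b (l 16763712) (l 80161516167)) (b (l 16764184) (l 81772129287)))))))) (l 3)) (l 3)), by decide +kernel⟩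

def k82_pp_012_a : ∃ t, chk3 f_pp_012_a t 55 24 1 = true :=
  ⟨(b (b (a (a (l 16734808) (l 16730464)) (l 16734520)) (a (a (l 16741208) (l 16742056)) (c (l 16751768) (l 16729672)))) (a (a (c (b (l 16747832) (l 16759504)) (l 16758656)) (c (c (l 16757264) (l 16757096)) (l 16756696))) (b (a (l 16744064) (l 16734472)) (c (l 16748608) (a (l 16744952) (l 16740448)))))), by decide +kernel⟩

def k83_pp_012_a : ∃ t, chk3 f_pp_012_a t 55 50 1 = true :=
  ⟨(a (b (a (a (a (b (l 16766008) (b (l 16762984) (c (l 61907902103) (l 60834162263)))) (c (l 16763672) (l 16766632))) (c (l 16762224) (l 16764904))) (c (c (l 16761608) (l 16756344)) (l 16761440))) (a (b (b (c (a (a (l 87140839095) (b (l 16764416) (l 85530224871))) (l 16763344)) (a (a (l 80161518039) (l 61907905399)) (l 16763840))) (c (a (l 93046420647) (a (l 78550903175) (l 16766976))) (a (l 101099483575) (a (l 68350357719) (l 16767448))))) (a (l 3) (a (l 3) (b (c (l 87677709735) (l 69960971671)) (l 3))))) (c (a (b (l 16762152) (a (b (l 74792804487) (l 97341386727))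 (b (l 16763920) (b (l 16765048) (l 93046418327))))) (c (l 16764224) (l 16765744))) (b (l 16766496) (a (b (l 40433070151) (a (l 102173224663) (l 51170489383))) (l 16767416)))))) (b (c (c (l 16757712) (l 16754928)) (l 16754552)) (a (c (c (l 16761096) (l 16763696)) (l 16763560)) (c (l 16756680) (b (l 16752032) (a (l 16756536) (l 16754232))))))), by decide +kernel⟩

def k84_pp_012_a : ∃ t, chk3 f_pp_012_a t 55 51 1 = true :=
  ⟨(a (b (b (a (l 3) (a (l 3) (c (b (b (l 54928582071) (l 83382741911)) (l 95193904871)) (b (a (l 58686683527) (l 16768056)) (l 100562613063))))) (l 3)) (l 3)) (b (a (a (b (a (c (b (l 16764000) (l 38285584455)) (a (l 33453750327) (l 16767464))) (c (l 16763768) (l 16766600))) (a (l 3) (b (c (b (l 16765624) (l 94657032103)) (l 54928587383)) (l 3)))) (b (c (l 16762280) (l 16762232)) (b (c (l 16765824) (l 16767392)) (c (a (b (l 57612941943) (l 3)) (c (l 16768024) (l 16765584))) (a (l 61907910007) (l 16767832)))))) (b (c (l 16760912) (l 16758752)) (c (c (l 16764808) (l 16764840)) (l 16766072))))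 (a (l 3) (a (b (c (b (a (l 44728035847) (l 16764984)) (l 87677711095)) (b (l 38285589431) (l 103246967527))) (l 3)) (c (b (b (l 16763496) (l 16766272)) (b (a (l 65129137255) (c (l 16768472) (l 16768648))) (l 3))) (b (l 16767976) (a (l 109689419879) (l 92509548727)))))))), by decide +kernel⟩

def k85_pp_012_a : ∃ t, chk3 f_pp_012_a t 27 13 1 = true :=
  ⟨(l 3), by decide +kernel⟩

def k86_pp_012_a : ∃ t, chk3 f_pp_012_a t 13 7 1 = true :=
  ⟨(l 3), by decide +kernel⟩

def k87_pp_012_a : ∃ t, chk3 f_pp_012_a t 7 2 1 = true :=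
  ⟨(a (b (a (b (a (b (l 16561080) (l 16576416)) (b (l 16549648) (l 16564816))) (a (b (l 16593192) (l 16611320)) (b (l 16580936) (l 16598376)))) (b (a (l 16546888) (l 16537544)) (a (b (l 16569608) (l 16586560)) (b (l 16559832) (l 16576384))))) (b (b (a (a (l 16630752) (l 16617392)) (a (l 16605192) (l 16594688))) (a (a (l 16672640) (l 16658840)) (a (l 16646472) (b (l 16609504) (l 16620008))))) (a (a (b (b (l 16668112) (a (l 16683336) (l 16675864))) (a (b (l 16715792) (l 16706664)) (b (l 16708416) (l 16699072)))) (b (a (l 16684192) (l 16677568)) (a (b (l 16680496) (l 16702504)) (l 16690136)))) (a (b (b (l 16641712) (l 16663328)) (a (l 16673152) (l 16667064))) (a (b (l 16639008) (l 16661448)) (b (l 16634064) (l 16656144))))))) (b (a (b (a (l 16529992) (l 16524200)) (a (b (l 16551424) (l 16567880)) (l 16552712))) (b (l 16517608) (a (l 16546608) (l 16541048)))) (b (a (a (b (l 16585968) (l 16605848)) (b (l 16578496) (l 16598048))) (b (a (l 16571896) (l 16564992)) (a (l 16589904) (l 16576992)))) (a (a (b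 (a (l 16650400) (l 16651304)) (a (b (l 16645552) (l 16654496)) (b (l 16638344) (l 16647048)))) (b (b (l 16612096) (a (l 16622880) (l 16615832))) (a (b (l 16631088) (a (l 16641568) (l 16616992))) (b (l 16623992) (b (l 16630408) (l 16634848)))))) (b (a (b (l 16598416) (a (l 16608920) (l 16602160))) (b (l 16585280) (a (l 16595536) (l 16589048)))) (a (b (a (l 16617040) (l 16610224)) (a (b (l 16623432) (l 16627864)) (b (l 16616600) (l 16621024)))) (b (a (l 16603560) (l 16597016)) (a (b (l 16609912) (l 16614320)) (l 16615984))))))))), by decide +kernel⟩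

def k88_pp_012_a : ∃ t, chk3 f_pp_012_a t 28 12 1 = true :=
  ⟨(b (a (a (a (b (l 16741824) (c (l 16744336) (l 16753784))) (b (l 16716776) (c (l 16750688) (l 16728528)))) (b (a (l 16712832) (l 16709024)) (b (l 16740944) (c (l 16726712) (l 16725456))))) (a (a (b (l 16705376) (l 16738256)) (l 16718328)) (b (l 16696992) (l 16708560)))) (b (a (a (a (c (a (l 16752816) (b (l 16742216) (l 16759088))) (b (l 16742560) (l 16759648))) (b (l 16743888) (a (l 16748784) (l 16749232)))) (a (b (l 16734432) (a (l 16741848) (l 16739728))) (b (l 16730344) (l 16741848)))) (a (c (l 16738600) (a (l 16749888) (l 16725104))) (l 16730888))) (a (b (a (a (c (c (l 16761440) (l 16761336)) (l 16761088)) (c (l 16757024) (b (l 16749640) (l 16758216)))) (a (c (l 16757968) (l 16757360)) (a (l 16749248) (l 16752392)))) (a (b (a (c (c (l 16763672) (l 16761024)) (l 16763520)) (c (l 16756624) (a (l 16757456) (l 16755184)))) (a (a (a (c (b (l 16764944) (l 49023003863)) (a (l 42043686327) (l 16768344))) (c (l 16764680) (l 16767488))) (c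 (l 16763192) (l 16763136))) (c (l 16762496) (l 16759680)))) (c (a (l 16759128) (l 16749608)) (a (b (l 16757064) (a (l 16756280) (l 16754040))) (b (l 16747440) (l 16755968)))))) (a (a (a (a (l 16748792) (l 16747760)) (l 16747560)) (a (l 16749520) (l 16737120))) (c (l 16743440) (l 16742648)))))), by decide +kernel⟩

def k89_pp_012_a : ∃ t, chk3 f_pp_012_a t 56 26 1 = true :=
  ⟨(b (b (b (a (a (a (c (c (l 112910645351) (l 109689420183)) (l 111836904407)) (b (c (a (l 16766544) (l 16764896)) (l 16768280)) (a (l 3) (c (a (l 16768904) (l 16766112)) (l 16768048))))) (a (c (c (l 16764048) (l 16764224)) (l 16766832)) (c (l 16762040) (l 16761912)))) (a (c (l 16761352) (l 16758496)) (a (l 16755328) (l 16753152)))) (a (a (l 3) (a (b (a (a (l 3) (c (l 16766912) (l 16766944))) (c (l 16765832) (l 16766160))) (l 3)) (c (b (l 16764336) (a (l 16766304) (l 16765304))) (b (l 16764448) (l 16767424))))) (c (a (a (l 16764376) (l 16760888)) (l 16760232)) (a (c (l 16764520) (l 16764424)) (l 16757344))))) (a (a (l 3) (a (l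 3) (a (l 3) (b (c (b (l 63518514807) (l 3)) (l 71571584727)) (l 3))))) (a (b (a (b (c (a (l 16765776) (l 16764768)) (l 16765520)) (c (a (b (l 16766880) (l 3)) (l 16766248)) (a (l 30232526903) (l 16766576)))) (c (c (l 16765240) (l 16765392)) (l 16765392))) (a (l 3) (b (c (a (l 16766720) (l 16765712)) (l 16766864)) (a (l 3) (c (l 69424095415) (l 16768800)))))) (c (a (b (l 16763256) (b (l 16765512) (a (l 16766176) (l 16765168)))) (b (l 16759760) (c (l 16764160) (l 16762984)))) (a (b (l 16761808) (a (l 16766056) (l 16764600))) (b (l 16759560) (l 16764208))))))) (a (l 3) (a (l 3) (b (a (a (l 3) (b (b (c (l 16766656) (l 16766936)) (l 3)) (l 3))) (b (c (b (c (l 16765728) (l 16765200)) (a (c (l 16767072) (l 16767184)) (c (l 16766056) (l 16766176)))) (b (l 16765400) (c (l 16766816) (l 16766976)))) (a (l 3) (b (c (l 77477159591) (l 16768512)) (l 3))))) (l 3))))), by decide +kernel⟩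

def k90_pp_012_a : ∃ t, chk3 f_pp_012_a t 57 26 1 = true :=
  ⟨(a (a (a (b (b (l 16756240) (b (l 16760120) (a (l 16762616) (l 16760216)))) (b (b (c (c (c (l 16765072) (l 16765128)) (l 16765232)) (c (l 16765328) (l 16765264))) (a (b (c (a (l 16766840) (l 16766336)) (l 16766848)) (l 3)) (c (b (l 16766224) (l 16766896)) (b (l 16765840) (l 16767304))))) (l 3))) (b (b (l 16750536) (b (l 16755368) (l 16760736))) (b (c (b (l 16763128) (a (b (l 16764552) (a (l 16766296) (l 16765784))) (l 16765584))) (b (l 16761784) (a (a (l 16766312) (l 16765312)) (l 16765864)))) (b (b (a (c (b (l 16767160) (l 3)) (l 16767760)) (c (c (l 16766472) (l 16766560)) (l 16766736))) (l 3)) (l 3))))) (b (c (b (l 16747728) (l 16759280)) (b (l 16747232) (l 16758960))) (b (b (c (l 16761368) (l 16761248)) (a (c (l 16764704) (l 16764256)) (c (l 16760688) (l 16760864)))) (a (b (c (b (c (l 16765256) (l 16765680)) (c (a (l 16766944) (l 16765920)) (l 16766680))) (b (l 16766520) (c (l 16766616) (l 16766736)))) (a (l 3) (b (b (l 57612935063)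 (l 3)) (l 3)))) (c (a (b (l 16765160) (b (l 16766432) (l 63518522727))) (b (l 16763152) (b (l 16765408) (l 16766928)))) (b (l 16765544) (b (c (l 16766056) (l 16766168)) (a (l 74255940695) (l 16767088))))))))) (b (a (b (l 16748912) (a (l 16750944) (l 16749032))) (c (l 16753784) (l 16753376))) (a (a (c (b (l 16759768) (b (l 16762928) (a (l 16765800) (l 16764784)))) (b (l 16759832) (b (l 16761856) (a (l 16766640) (l 16764312))))) (b (l 16757864) (b (l 16762296) (a (l 16763192) (l 16762176))))) (a (b (l 16753184) (a (l 16762272) (l 16761256))) (b (l 16751136) (l 16759736)))))), by decide +kernel⟩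

def k91_pp_012_a : ∃ t, chk3 f_pp_012_a t 28 27 1 = true :=
  ⟨(a (l 3) (b (a (l 3) (a (b (b (a (a (b (a (l 66739747303) (l 16767904)) (l 3)) (c (b (l 16766424) (l 58686684711)) (b (l 16766568) (l 78014036807)))) (a (c (l 16766832) (l 16766320)) (l 16766544))) (b (a (l 3) (a (l 3) (a (l 62444780103) (l 16767952)))) (l 3))) (l 3)) (b (b (c (l 16765256) (c (l 16765376) (l 16765480))) (b (c (l 16766944) (l 16767240)) (a (a (b (l 50096749239) (l 3)) (l 49023005415)) (l 16765520)))) (b (b (c (a (l 122574323287) (a (l 16768624) (l 16766312))) (a (l 90362068679) (l 16766888))) (a (l 3) (a (l 3) (l 54928586919)))) (l 3))))) (l 3))), by decide +kernel⟩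

def k92_pp_012_a : ∃ t, chk3 f_pp_012_a t 29 12 1 = true :=
  ⟨(b (b (a (l 16698152) (a (l 16678792) (l 16671328))) (a (a (l 16702248) (l 16696416)) (a (l 16688880) (l 16681008)))) (b (a (a (l 16713904) (l 16707232)) (a (l 16699120) (l 16691232))) (a (a (c (l 16725952) (l 16725344)) (l 16728504)) (a (l 16709952) (l 16702040))))), by decide +kernel⟩

def k93_pp_012_a : ∃ t, chk3 f_pp_012_a t 58 26 1 = true :=
  ⟨(a (b (c (l 16745840) (l 16745440)) (a (b (l 16753320) (a (l 16755088) (l 16753072))) (b (l 16744016) (l 16755288)))) (a (b (l 16731216) (a (l 16749240) (l 16741992))) (b (l 16727168) (l 16744232)))), by decide +kernel⟩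

def k94_pp_012_a : ∃ t, chk3 f_pp_012_a t 58 54 1 = true :=
  ⟨(a (a (b (b (l 16758688) (c (l 16764336) (l 16764488))) (a (a (b (b (l 16765352) (l 16766680)) (b (l 60297297047) (l 3))) (b (l 16765024) (b (l 16768336) (l 66202879431)))) (b (l 16763536) (a (b (l 16766040) (a (l 14663270167) (l 16767144))) (b (l 16765056) (l 16767720)))))) (b (c (l 16756160) (l 16758960)) (b (l 16763184) (a (b (l 16763576) (l 16766248)) (l 16762288))))) (a (b (l 16752248) (a (l 16760272) (l 16756992))) (b (l 16748288) (l 16759288)))), by decide +kernel⟩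

def k95_pp_012_a : ∃ t, chk3 f_pp_012_a t 58 55 1 = true :=
  ⟨(b (b (a (a (a (l 3) (a (l 3) (b (a (l 65129136887) (l 16768872)) (l 3)))) (a (a (b (c (l 16766808) (l 16768096)) (c (l 65129134775) (l 64592261127))) (b (l 16765808) (a (l 16768408) (l 20568848727)))) (b (l 16766968) (a (l 16767520) (l 16765232))))) (a (a (c (l 16763088) (l 16765712)) (l 16763752)) (l 16758208))) (a (a (l 3) (a (l 3) (b (a (b (l 8220818199) (a (l 3) (l 16767696))) (c (l 16767968) (l 16767912))) (b (a (l 3) (l 2852108599)) (l 3))))) (a (b (a (c (l 16765192) (l 16767776)) (l 16763224)) (a (a (c (l 12515785687) (c (l 16768344) (l 11978914615))) (l 16767400)) (l 16767256))) (a (l 16764616) (l 16760056))))) (a (l 3) (a (b (a (b (a (c (b (l 71571582375) (l 3)) (l 67276616231)) (b (l 18421365319) (a (l 16768080) (l 16767608)))) (l 3)) (b (a (a (l 16768088) (l 16766296)) (l 16765568)) (a (c (b (l 16767648) (l 73719066439)) (c (l 16768584) (l 16768544))) (c (l 16768352) (l 16768272))))) (a (l 3) (a (l 3) (b (a (l 72645325687)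 (a (l 67276615703) (l 16769376))) (l 3))))) (b (a (a (a (l 16766872) (l 16765080)) (l 16766984)) (l 16764224)) (b (a (a (c (l 4999593863) (l 16768744)) (l 16766520)) (l 16767704)) (a (a (l 86067100135) (a (b (l 16767840) (l 3)) (l 16769040))) (c (l 16769208) (l 16769136)))))))), by decide +kernel⟩

def k96_pp_012_a : ∃ t, chk3 f_pp_012_a t 59 13 1 = true :=
  ⟨(b (a (b (l 16731648) (c (l 16738224) (l 16738408))) (b (l 16718536) (a (l 16727168) (l 16723312)))) (a (a (b (b (l 16744352) (l 16750136)) (b (l 16758360) (b (l 16761344) (a (l 16765208) (l 16761992))))) (b (b (l 16740448) (l 16746256)) (b (l 16751880) (l 16761272)))) (a (b (l 16744720) (b (l 16748056) (l 16753864))) (b (l 16740904) (c (l 16752368) (l 16752520)))))), by decide +kernel⟩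

def k97_pp_012_a : ∃ t, chk3 f_pp_012_a t 28 7 1 = true :=
  ⟨(l 3), by decide +kernel⟩

def k98_pp_012_a : ∃ t, chk3 f_pp_012_a t 58 28 1 = true :=
  ⟨(b (a (l 3) (b (a (l 3) (b (a (l 3) (a (b (a (l 65129133191) (l 4999595367)) (l 3)) (b (l 16768840) (c (l 84993359911) (l 59760424551))))) (l 3))) (l 3))) (l 3)), by decide +kernel⟩

def k99_pp_012_a : ∃ t, chk3 f_pp_012_a t 59 28 1 = true :=
  ⟨(a (b (a (b (b (b (a (l 16768728) (l 16764208)) (a (a (l 4462724759) (l 16767112)) (l 16765696))) (a (a (l 130090516311) (b (a (l 58686684967) (l 16768368)) (l 3))) (b (l 16768504) (a (a (l 66739752135) (l 53317978663)) (l 16768232))))) (b (a (l 3) (b (c (l 123648067927) (l 125795551415)) (l 3))) (l 3))) (b (a (b (l 16765672) (c (l 16768704) (l 16767360))) (l 16765288)) (b (a (a (b (l 32916883271) (l 131164260871)) (b (l 16767872) (a (l 88751460167) (l 16771792)))) (c (b (l 16766472) (l 16770632)) (l 16767888))) (a (l 3) (b (a (l 89825202167) (l 16771712)) (l 126869295095)))))) (l 3)) (a (b (b (c (l 16762440)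 (l 16762496)) (b (l 16767048) (a (a (c (b (l 16768152) (l 28085049175)) (l 22179465719)) (l 16768008)) (l 16766616)))) (b (b (a (a (l 128479909735) (a (l 118816231991) (b (l 16771120) (l 3)))) (b (l 16771608) (a (a (l 76403431687) (l 48486143943)) (l 16771360)))) (a (l 3) (b (c (a (l 3) (l 123648070487)) (l 125258684279)) (l 3)))) (l 3))) (b (b (l 16758400) (c (l 16764856) (l 16762352))) (b (b (c (l 16769432) (l 16769304)) (a (a (b (a (l 84993364455) (l 16770416)) (l 151565355895)) (b (l 16769296) (a (c (l 131164262263) (l 134922358439)) (b (l 16770040) (l 106468201431))))) (a (b (l 16766280) (b (l 16769248) (l 39896207367))) (l 16768360)))) (b (a (l 3) (b (b (a (a (l 119353103623) (a (l 107541942535) (l 53317979879))) (l 16770840)) (b (a (c (l 147270390055) (l 150491615255)) (a (a (l 113984393079) (l 16770160)) (l 16769760))) (a (l 3) (a (a (l 3) (b (a (l 81235267239) (l 16770344)) (l 89288331351))) (c (l 16770848) (l 16770024)))))) (b (a (l 3) (a (l 3) (a (l 82845880087) (a (l 30232531591) (l 16771168)))))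 (l 3)))) (l 3)))))), by decide +kernel⟩

def k100_pp_012_a : ∃ t, chk3 f_pp_012_a t 29 29 1 = true :=
  ⟨(l 3), by decide +kernel⟩

def k101_pp_012_a : ∃ t, chk3 f_pp_012_a t 29 15 1 = true :=
  ⟨(l 3), by decide +kernel⟩

def k102_pp_012_a : ∃ t, chk3 f_pp_012_a t 30 6 1 = true :=
  ⟨(b (a (b (a (b (l 16663696) (l 16673368)) (b (c (l 16656128) (l 16656488)) (c (l 16665864) (l 16645128)))) (b (a (l 16662616) (l 16655168)) (a (l 16694312) (b (l 16684160) (l 16689592))))) (b (b (a (c (l 16648880) (l 16628152)) (c (l 16647032) (l 16647176))) (a (c (l 16658608) (l 16637792)) (a (l 16653240) (l 16649712)))) (b (a (c (l 16668880) (l 16648032)) (b (l 16659120) (l 16664416))) (a (b (l 16676928) (l 16682368)) (b (l 16669848) (l 16675328)))))) (b (a (b (b (a (l 16702704) (l 16695184)) (l 16704760)) (a (l 16717608) (l 16710168))) (b (a (b (l 16687976) (l 16672776)) (a (l 16664608) (l 16661120))) (a (l 16702904) (b (l 16692704) (l 16698864))))) (a (a (b (b (l 16727072) (l 16732960)) (b (l 16738680) (l 16749792)))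 (b (b (l 16719688) (l 16725600)) (b (l 16731344) (l 16737240)))) (b (a (l 16715392) (l 16708248)) (a (l 16729672) (l 16719880)))))), by decide +kernel⟩

def k103_pp_012_a : ∃ t, chk3 f_pp_012_a t 31 6 1 = true :=
  ⟨(b (a (b (b (a (a (l 16636520) (l 16643544)) (a (l 16640120) (l 16636728))) (a (a (l 16651464) (l 16647344)) (a (b (l 16636840) (l 16641840)) (b (l 16633448) (l 16638440))))) (b (a (a (b (l 16653872) (l 16659192)) (b (l 16650424) (l 16655744))) (b (a (l 16647000) (l 16643592)) (a (l 16652320) (l 16648896)))) (a (b (a (l 16664640) (l 16661192)) (a (l 16670120) (l 16666672))) (b (a (l 16657760) (l 16654328)) (a (l 16663224) (l 16659784)))))) (b (a (b (b (l 16618864) (l 16634032)) (a (b (l 16630072) (l 16635056)) (l 16634424))) (b (a (l 16616200) (l 16612864)) (a (l 16636288) (l 16622424)))) (b (a (b (a (l 16640184) (l 16636784)) (a (l 16645472) (l 16642056))) (a (b (l 16633384) (l 16638640)) (l 16637512))) (b (a (a (l 16650896) (l 16647464)) (a (l 16644032) (l 16640600))) (a (l 16654784)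 (l 16652976)))))) (a (b (b (a (a (l 16657664) (l 16654208)) (b (l 16667112) (l 16651912))) (a (c (l 16688664) (l 16689192)) (l 16681888))) (b (a (b (l 16698192) (l 16704104)) (b (l 16691240) (l 16697088))) (a (l 16712336) (l 16704936)))) (b (b (b (a (l 16665456) (l 16653304)) (a (l 16650240) (l 16643320))) (a (c (l 16653712) (l 16675360)) (b (l 16664968) (l 16671072)))) (b (a (l 16687216) (l 16680248)) (a (l 16697240) (l 16689872)))))), by decide +kernel⟩

def k104_pp_012_a : ∃ t, chk3 f_pp_012_a t 30 28 1 = true :=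
  ⟨(a (b (a (a (b (l 16752416) (l 16758584)) (b (l 16748744) (l 16754488))) (b (l 16743184) (a (l 16750416) (l 16746352)))) (b (a (a (a (b (l 16763624) (l 16771528)) (l 16765496)) (l 16762368)) (a (l 16755584) (l 16751440))) (b (a (a (a (a (a (b (b (l 16768736) (l 16770720)) (b (l 16771488) (l 73719076631))) (b (l 16769848) (a (l 16771480) (l 16769904)))) (b (l 16770368) (l 16769240))) (b (l 16768784) (l 16770264))) (b (l 16768232) (l 16769712))) (a (l 16764752) (l 16755304))) (a (a (b (b (a (a (l 71034723687) (l 16771736)) (l 16768824)) (a (a (l 3) (l 57076079703)) (l 16772232))) (a (l 3) (a (c (l 137069839223) (l 44191178439)) (l 16772880)))) (c (l 16769552) (l 16769312))) (a (l 16765192) (l 16763576)))))) (b (a (b (l 16735240) (l 16740272)) (a (l 16731800) (l 16727824))) (a (a (b (l 16747304) (a (l 16764152) (l 16751560))) (a (l 16751448) (l 16747400))) (a (l 16746904) (l 16742760))))), by decide +kernel⟩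

def k105_pp_012_a : ∃ t, chk3 f_pp_012_a t 60 116 1 = true :=
  ⟨(a (a (a (l 3) (a (l 3) (b (b (l 55465468263) (l 3)) (l 3)))) (a (b (b (c (a (l 90898939911) (l 16769760)) (l 16771480)) (a (l 7147087575) (a (l 75329684935) (l 88751456935)))) (l 3)) (b (a (a (l 16772296) (l 16771760)) (l 16770960)) (a (b (l 16771800) (l 3)) (a (b (b (l 16770552) (l 68887235031)) (l 16772608)) (b (l 16773032) (l 16772016))))))) (b (a (a (b (l 16765960) (l 16770136)) (c (l 16769992) (l 16764456))) (a (l 16767728) (l 16760360))) (b (a (a (a (l 16772224) (l 16768536)) (l 16769552)) (a (l 16764800) (l 16762664))) (a (a (a (b (l 16771424) (l 16771576)) (a (l 16771664) (l 16772440))) (c (l 16771184) (a (l 16768936) (l 16767848)))) (a (l 16768960) (l 16764200)))))), by decide +kernel⟩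

def k106_pp_012_a : ∃ t, chk3 f_pp_012_a t 60 117 1 = true :=
  ⟨(a (l 3) (b (a (a (b (a (c (l 17884502407) (l 16772480)) (b (l 16771912) (c (l 16772016) (l 16772040)))) (l 3)) (b (c (l 16771560) (a (a (l 16771440) (l 16771552)) (l 16772040))) (a (b (a (l 16772024) (l 16772120)) (a (l 3) (l 11442051031))) (b (c (l 16772008) (l 16771912)) (a (a (l 16771840) (l 16771560)) (b (l 16770960) (l 16771672))))))) (c (b (l 16769536) (a (l 16770800) (l 16769992))) (a (a (b (l 16768328) (b (l 16769504) (l 16771600))) (l 16769336)) (a (l 16769552) (l 16768464))))) (a (a (l 3) (b (b (a (l 3) (a (l 12515793031) (b (l 16771736) (l 10905180055)))) (l 3)) (l 3))) (b (a (b (a (a (l 16772040) (b (l 16770656) (l 16771696))) (c (l 16771408) (l 16771288))) (a (a (b (c (l 16772008) (l 16771944)) (c (l 16772408) (l 16772368))) (a (a (a (l 16772184) (l 16772120)) (l 16772016)) (l 16771480))) (l 16771792))) (c (l 16770192) (a (l 16770584) (l 16768176)))) (a (a (a (l 3) (b (b (a (l 16772360) (l 16772112)) (l 3)) (l 3))) (a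 (b (b (l 16771984) (a (a (l 16772264) (l 16772120)) (l 16772232))) (b (a (l 3) (a (l 16772384) (l 16772240))) (l 3))) (b (l 16771960) (a (b (a (l 16772096) (l 16771952)) (l 11442051255)) (b (l 16771752) (b (l 16772040) (a (l 16772312) (l 16772168)))))))) (a (b (b (l 16770960) (a (a (l 16771096) (l 16770824)) (l 16770416))) (a (a (a (l 16772232) (l 16772256)) (l 16772056)) (l 16771648))) (l 16771112))))))), by decide +kernel⟩

def k107_pp_012_a : ∃ t, chk3 f_pp_012_a t 60 59 1 = true :=
  ⟨(a (l 3) (b (a (l 3) (a (l 3) (b (a (b (a (b (a (b (c (c (l 5536471479) (l 16772272)) (l 16772232)) (l 3)) (b (b (l 16771880) (l 16772240)) (a (l 10905180391) (b (l 16772200) (l 16772408))))) (l 3)) (b (b (l 16772224) (a (a (b (l 16772064) (l 16772256)) (l 16772352)) (l 16771816))) (b (a (a (l 3) (b (l 16772232) (l 3))) (c (a (b (l 16772200) (l 16772400)) (l 16772328)) (l 16772176))) (a (l 3) (b (l 9831438679) (l 3)))))) (l 3)) (b (b (b (l 16771416) (l 16771920)) (a (a (b (l 16772336) (c (b (c (l 16772256) (l 16772232))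 (c (l 16772424) (l 16772432))) (l 16772296))) (b (l 16771656) (a (b (l 16772016) (l 16772368)) (l 16771976)))) (a (l 16772152) (l 16771304)))) (b (b (a (a (l 3) (c (b (c (l 16772400) (l 16772352)) (l 3925858999)) (l 16772392))) (c (c (c (c (l 16772360) (l 16772312)) (l 16772304)) (l 2315246023)) (l 16772312))) (a (l 3) (a (a (l 3) (b (b (l 16772328) (l 16772264)) (l 3))) (c (b (l 16772360) (a (l 16772416) (l 16772320))) (l 16772400))))) (b (a (l 3) (a (l 3) (c (c (c (l 2852117415) (l 16772536)) (l 16772560)) (l 16772488)))) (l 3))))) (l 3)))) (l 3))), by decide +kernel⟩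

def k108_pp_012_a : ∃ t, chk3 f_pp_012_a t 61 58 1 = true :=
  ⟨(a (a (b (b (l 16762416) (a (l 16766544) (l 16759168))) (a (b (b (l 16763592) (l 16767744)) (c (l 16770136) (b (l 16769160) (a (l 16771256) (l 16767536))))) (c (l 16766520) (b (l 16762032) (b (l 16764352) (l 16768512)))))) (b (a (l 16760768) (l 16763888)) (c (l 16764656) (b (l 16764008) (a (l 16768176) (l 16760744)))))) (a (b (b (l 16748704) (l 16751720)) (b (l 16759968) (a (l 16758800) (l 16756656)))) (b (b (l 16744488) (l 16747472)) (b (l 16750456) (l 16763920))))), by decide +kernel⟩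

def k109_pp_012_a : ∃ t, chk3 f_pp_012_a t 122 236 1 = true :=
  ⟨(a (a (b (b (l 16770800) (a (l 16771616) (c (l 16770920) (l 16770784)))) (a (a (a (b (b (l 16771608) (a (l 16772384) (l 16771920))) (b (b (c (a (l 16772432) (l 16772240)) (l 16772248)) (c (c (a (l 16772528) (l 16772424)) (l 16772496)) (l 16772448))) (l 3))) (b (l 16772184) (b (b (l 16772008) (c (l 16772392) (l 16772328))) (b (c (c (c (l 16772480) (l 16772416)) (l 16772408)) (l 16772360)) (a (l 3) (b (l 16273889703) (l 3))))))) (b (l 16771776) (a (b (l 16771832) (b (l 16772440) (c (c (l 16772512) (l 16772320)) (l 16772272)))) (b (l 16771560) (l 16772264))))) (b (l 16770960) (a (l 16772040) (l 16770800))))) (c (c (l 16770392) (l 16770312)) (a (b (l 16767984) (b (l 16769144) (l 16771224))) (l 16768968)))) (c (l 16768464) (a (b (l 16765232) (c (l 16769456) (l 16769328))) (l 16766424)))), by decide +kernel⟩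

def k110_pp_012_a : ∃ t, chk3 f_pp_012_a t 488 237 1 = true :=
  ⟨(a (a (l 3) (b (b (a (b (b (c (a (l 16772408) (a (l 16772496) (l 16772424))) (l 16772480)) (l 3)) (l 3)) (b (c (b (l 16772584) (c (c (l 16772512) (l 16772448)) (l 16772432))) (l 16772456)) (a (l 3) (b (b (l 20031986135) (l 3)) (l 3))))) (l 3)) (l 3))) (b (a (b (b (a (a (l 16772440) (l 16771976)) (l 16771776)) (c (a (b (c (l 16772536) (l 16772352)) (a (l 6073342807) (a (l 16772520) (l 16772448)))) (l 16772512)) (a (a (l 16772472) (l 16772328)) (a (l 16772352) (l 16772376))))) (a (l 3) (b (b (c (c (c (l 16772536) (l 16772472)) (l 16772456)) (l 16772416)) (c (c (c (l 16772616) (l 16772624)) (l 16772656)) (l 16772616))) (l 3)))) (b (b (l 16771368) (l 16772240)) (a (b (b (l 16772496) (a (b (l 16772376) (l 30769404423)) (l 16772288))) (b (c (c (c (l 5536472039) (l 16772568)) (l 16772568)) (l 16772528)) (a (l 3) (l 9294568119)))) (b (l 16772320) (c (c (c (c (l 16772568) (l 16772576)) (l 16772576)) (l 16772552)) (l 16772504)))))) (a (l 3)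 (a (l 3) (a (l 3) (b (b (b (a (l 9831439047) (l 24326953559)) (l 3)) (l 3)) (l 3))))))), by decide +kernel⟩

def k111_pp_012_a : ∃ t, chk3 f_pp_012_a t 489 237 1 = true :=
  ⟨(b (b (a (b (l 16770552) (l 16771584)) (c (l 16771032) (l 16770888))) (a (a (a (a (b (l 16771784) (l 16772168)) (l 16772328)) (l 16772288)) (l 16771880)) (l 16771064))) (a (a (b (a (b (b (a (b (l 16772400) (l 35064371767)) (l 16772312)) (c (a (l 16772576) (l 16772536)) (l 16772544))) (c (c (l 7147085063) (l 16772688)) (l 16772696))) (b (a (l 16772600) (l 16772136)) (b (c (c (l 16772688) (l 16772504)) (l 16772456)) (c (c (l 5536472215) (l 16772704)) (l 16772664))))) (l 3)) (b (b (l 16772288) (a (a (b (l 16772288) (l 16772640)) (l 16772240)) (l 16772040))) (a (b (b (c (c (l 16772704) (l 16772616)) (l 16772568)) (c (l 3388988631) (l 16772776))) (l 3)) (b (b (l 16772320) (c (l 16772704) (c (l 72645335191) (l 16772784)))) (c (c (c (l 7147085111) (l 16772800)) (l 16772744)) (l 16772624)))))) (b (b (l 16771632) (b (l 16771920) (l 16772104)))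 (a (b (c (l 16772048) (l 16772288)) (a (b (l 16772752) (a (l 6073342983) (l 16772552))) (l 16772576))) (a (l 16772440) (l 16771512)))))), by decide +kernel⟩

def k112_pp_012_a : ∃ t, chk3 f_pp_012_a t 245 237 1 = true :=
  ⟨(a (b (l 16770040) (b (c (l 16770920) (a (l 16771312) (l 16768896))) (a (l 16771816) (a (l 16770008) (l 16769464))))) (c (l 16769712) (b (l 16768712) (a (l 16768168) (l 16767056))))), by decide +kernel⟩

def k113_pp_012_a : ∃ t, chk3 f_pp_012_a t 122 119 1 = true :=
  ⟨(b (a (a (l 3) (a (l 3) (b (b (b (a (a (c (c (l 16772800) (l 16772920)) (l 16772736)) (c (b (l 16772568) (l 16772760)) (l 16772600))) (c (l 16772584) (l 16772504))) (a (l 3) (a (b (a (l 16772712) (l 16772568)) (l 7683955783)) (a (l 16772728) (l 16772392))))) (b (a (l 3) (a (l 3) (c (c (l 16772856) (l 16772872)) (l 16772816)))) (l 3))) (l 3)))) (a (b (a (a (b (a (l 16772488) (l 16771720)) (b (a (b (l 16772464) (l 16772744)) (l 16772288)) (a (c (l 16772640) (l 16772928)) (c (l 16772704) (l 16772632))))) (b (l 16771312)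 (a (a (l 16772600) (l 16772464)) (l 16772584)))) (c (l 16771912) (a (l 16771736) (a (l 16771968) (l 16770384))))) (a (b (a (c (c (l 10905182071) (l 16773000)) (l 16773064)) (b (c (c (l 16772848) (l 16772656)) (l 16772760)) (c (c (l 16773040) (l 16773056)) (l 16772840)))) (l 3)) (a (b (a (b (l 16772216) (l 16772920)) (l 16772784)) (b (a (l 16772664) (l 16772864)) (l 16772928))) (b (l 16772376) (a (b (l 16772416) (l 16772800)) (l 16772984)))))) (a (b (c (a (l 16771432) (l 16769576)) (l 16770672)) (a (c (l 16772256) (b (l 16771104) (l 16772520))) (l 16771656))) (c (l 16770824) (b (l 16768576) (l 16771072)))))) (a (l 3) (b (a (a (l 3) (a (l 3) (b (a (l 3) (c (l 16773152) (l 16773080))) (l 3)))) (a (a (b (c (c (l 16772736) (l 16772696)) (l 16772800)) (l 16772992)) (b (l 16772776) (c (l 16772928) (l 16772840)))) (c (l 16772544) (b (l 16772536) (a (l 16772912) (l 16771696)))))) (a (l 3) (a (l 3) (b (a (c (l 16773128) (l 16773048)) (l 16773168)) (a (l 3) (l 16772968)))))))), by decide +kernel⟩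

def k114_pp_012_a : ∃ t, chk3 f_pp_012_a t 123 59 1 = true :=
  ⟨(a (a (c (b (l 16766096) (b (l 16770512) (b (l 16771408) (b (l 16772512) (b (l 16773056) (l 16773184)))))) (b (b (l 16761600) (l 16767256)) (b (b (l 16769528) (a (l 16768976) (l 16767856))) (a (b (l 16771464) (a (a (b (l 16772032) (l 54928595031)) (l 16772784)) (l 16772360))) (b (l 16769360) (l 16772176)))))) (b (b (l 16759640) (c (l 16762800) (l 16762424))) (b (b (l 16770096) (l 16768952)) (c (l 16771288) (b (l 16770304) (c (l 16771856) (l 16771744))))))) (a (b (b (l 16757480) (l 16760448)) (c (l 16767672) (b (l 16763208) (l 16768816)))) (b (b (l 16755328) (l 16758280)) (b (l 16761224) (c (l 16764336) (l 16763960)))))), by decide +kernel⟩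

def k115_pp_012_a : ∃ t, chk3 f_pp_012_a t 30 15 1 = true :=
  ⟨(b (a (l 3) (b (a (l 3) (b (a (b (a (a (b (a (b (l 16773504) (l 3)) (b (l 16772904) (l 16773712))) (l 3)) (a (b (c (l 16772776) (b (l 16772272) (l 49023014679))) (l 3)) (b (c (b (l 16771848) (l 16772576)) (l 16772736)) (b (l 16773296) (l 3))))) (a (b (a (l 16772256) (l 16772352)) (b (c (l 16773144) (l 16773008)) (a (l 16773496) (l 60297303207)))) (c (l 16772344) (b (l 16770112) (l 16772904))))) (b (a (l 3) (a (c (l 76940307079) (l 80161531063)) (a (b (l 62981658135) (l 3)) (b (l 16772504) (l 100562622343))))) (l 3))) (a (a (b (b (l 16769104) (l 16771880)) (a (b (l 16772968) (b (l 23790086407) (l 3))) (b (l 16771752) (b (l 16772856) (l 44191181431))))) (b (l 16770040) (b (l 16772232) (c (c (l 16773816) (l 16773736)) (l 16773600))))) (b (c (l 16768536) (l 16769536)) (a (l 16771848) (l 16770576))))) (a (l 3) (b (a (b (a (l 3) (a (l 107541948615) (b (l 32916891575) (l 3)))) (l 3)) (a (b (b (l 16773656) (a (c (l 60297308775) (l 69960984695))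 (l 16774104))) (a (l 3) (b (a (l 93583304999) (l 80698402567)) (l 3)))) (b (l 16772904) (b (a (a (l 69960983639) (l 16772808)) (l 16772392)) (a (c (c (l 110226302407) (l 111300044071)) (l 112373785639)) (a (b (l 16773072) (l 94657046135)) (c (l 31306277911) (l 31306277831)))))))) (a (l 3) (a (l 3) (a (l 3) (b (b (b (c (l 116131882311) (l 118279365591)) (l 3)) (l 3)) (l 3))))))))) (l 3))) (l 3)), by decide +kernel⟩

def k116_pp_012_a : ∃ t, chk3 f_pp_012_a t 31 7 1 = true :=
  ⟨(b (b (a (b (a (l 16721904) (l 16714064)) (a (b (l 16718344) (a (l 16735872) (l 16731744))) (l 16728432))) (b (a (l 16706288) (l 16698632)) (a (l 16720312) (b (l 16704680) (l 16709128))))) (b (a (b (a (a (l 16741784) (l 16737616)) (l 16736616)) (a (a (b (l 16746224) (l 16749176)) (l 16743488)) (a (l 16739272) (l 16735064)))) (a (b (l 16733528) (a (l 16730832) (l 16726576))) (a (l 16730032) (l 6)))) (a (a (a (b (b (l 16752120) (l 16749808)) (a (b (l 16759056) (l 16761976)) (a (l 16753656) (l 16757816)))) (a (b (l 16750392) (a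 (l 16756736) (l 16755656))) (b (l 16748256) (l 16759280)))) (a (c (l 16753616) (b (l 16744584) (l 16750368))) (b (l 16740784) (l 6)))) (a (b (a (l 16736480) (l 6)) (l 6)) (l 6))))) (a (b (b (a (a (b (a (c (l 16769448) (b (l 16764680) (l 16770224))) (b (l 16762696) (l 16768184))) (b (a (a (b (l 16773104) (a (b (l 16771832) (l 16773200)) (l 16772944))) (b (l 16769368) (a (l 16772384) (l 16770512)))) (b (l 16770320) (l 6))) (b (b (a (a (a (a (b (b (l 42043695719) (c (l 92509562087) (l 96267658007))) (l 3)) (b (l 16773592) (l 6))) (l 6)) (l 6)) (l 6)) (l 6)) (l 6)))) (b (a (l 16764560) (l 16762032)) (l 6))) (l 6)) (l 6)) (l 6)) (l 6))), by decide +kernel⟩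

theorem s117_pp_012_a : ∃ t, chk3 f_pp_012_a t 244 237 1 = true := ex3_a k110_pp_012_a k111_pp_012_a

theorem s118_pp_012_a : ∃ t, chk3 f_pp_012_a t 122 237 1 = true := ex3_a s117_pp_012_a k112_pp_012_a

theorem s119_pp_012_a : ∃ t, chk3 f_pp_012_a t 122 118 1 = true := ex3_b k109_pp_012_a s118_pp_012_a

theorem s120_pp_012_a : ∃ t, chk3 f_pp_012_a t 122 59 1 = true := ex3_b s119_pp_012_a k113_pp_012_a

theorem s121_pp_012_a : ∃ t, chk3 f_pp_012_a t 61 59 1 = true := ex3_a s120_pp_012_a k114_pp_012_a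

theorem s122_pp_012_a : ∃ t, chk3 f_pp_012_a t 61 29 1 = true := ex3_b k108_pp_012_a s121_pp_012_a

theorem s123_pp_012_a : ∃ t, chk3 f_pp_012_a t 60 58 1 = true := ex3_b k105_pp_012_a k106_pp_012_a

theorem s124_pp_012_a : ∃ t, chk3 f_pp_012_a t 60 29 1 = true := ex3_b s123_pp_012_a k107_pp_012_a

theorem s125_pp_012_a : ∃ t, chk3 f_pp_012_a t 30 29 1 = true := ex3_a s124_pp_012_a s122_pp_012_a

theorem s126_pp_012_a : ∃ t, chk3 f_pp_012_a t 30 14 1 = true := ex3_b k104_pp_012_a s125_pp_012_a

theorem s127_pp_012_a : ∃ t, chk3 f_pp_012_a t 30 7 1 = true := ex3_b s126_pp_012_a k115_pp_012_a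

theorem s128_pp_012_a : ∃ t, chk3 f_pp_012_a t 15 7 1 = true := ex3_a s127_pp_012_a k116_pp_012_a

theorem s129_pp_012_a : ∃ t, chk3 f_pp_012_a t 15 6 1 = true := ex3_a k102_pp_012_a k103_pp_012_a

theorem s130_pp_012_a : ∃ t, chk3 f_pp_012_a t 15 3 1 = true := ex3_b s129_pp_012_a s128_pp_012_a

theorem s131_pp_012_a : ∃ t, chk3 f_pp_012_a t 29 28 1 = true := ex3_a k98_pp_012_a k99_pp_012_a

theorem s132_pp_012_a : ∃ t, chk3 f_pp_012_a t 29 14 1 = true := ex3_b s131_pp_012_a k100_pp_012_a

theorem s133_pp_012_a : ∃ t, chk3 f_pp_012_a t 29 7 1 = true := ex3_b s132_pp_012_a k101_pp_012_a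

theorem s134_pp_012_a : ∃ t, chk3 f_pp_012_a t 14 7 1 = true := ex3_a k97_pp_012_a s133_pp_012_a

theorem s135_pp_012_a : ∃ t, chk3 f_pp_012_a t 58 27 1 = true := ex3_b k94_pp_012_a k95_pp_012_a

theorem s136_pp_012_a : ∃ t, chk3 f_pp_012_a t 58 13 1 = true := ex3_b k93_pp_012_a s135_pp_012_a

theorem s137_pp_012_a : ∃ t, chk3 f_pp_012_a t 29 13 1 = true := ex3_a s136_pp_012_a k96_pp_012_a

theorem s138_pp_012_a : ∃ t, chk3 f_pp_012_a t 29 6 1 = true := ex3_b k92_pp_012_a s137_pp_012_a

theorem s139_pp_012_a : ∃ t, chk3 f_pp_012_a t 28 26 1 = true := ex3_a k89_pp_012_a k90_pp_012_a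

theorem s140_pp_012_a : ∃ t, chk3 f_pp_012_a t 28 13 1 = true := ex3_b s139_pp_012_a k91_pp_012_a

theorem s141_pp_012_a : ∃ t, chk3 f_pp_012_a t 28 6 1 = true := ex3_b k88_pp_012_a s140_pp_012_a

theorem s142_pp_012_a : ∃ t, chk3 f_pp_012_a t 14 6 1 = true := ex3_a s141_pp_012_a s138_pp_012_a

theorem s143_pp_012_a : ∃ t, chk3 f_pp_012_a t 14 3 1 = true := ex3_b s142_pp_012_a s134_pp_012_a

theorem s144_pp_012_a : ∃ t, chk3 f_pp_012_a t 7 3 1 = true := ex3_a s143_pp_012_a s130_pp_012_a

theorem s145_pp_012_a : ∃ t, chk3 f_pp_012_a t 7 1 1 = true := ex3_b k87_pp_012_a s144_pp_012_a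

theorem s146_pp_012_a : ∃ t, chk3 f_pp_012_a t 55 25 1 = true := ex3_b k83_pp_012_a k84_pp_012_a

theorem s147_pp_012_a : ∃ t, chk3 f_pp_012_a t 55 12 1 = true := ex3_b k82_pp_012_a s146_pp_012_a

theorem s148_pp_012_a : ∃ t, chk3 f_pp_012_a t 54 24 1 = true := ex3_b k79_pp_012_a k80_pp_012_a

theorem s149_pp_012_a : ∃ t, chk3 f_pp_012_a t 54 12 1 = true := ex3_b s148_pp_012_a k81_pp_012_a

theorem s150_pp_012_a : ∃ t, chk3 f_pp_012_a t 27 12 1 = true := ex3_a s149_pp_012_a s147_pp_012_a

theorem s151_pp_012_a : ∃ t, chk3 f_pp_012_a t 27 6 1 = true := ex3_b s150_pp_012_a k85_pp_012_a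

theorem s152_pp_012_a : ∃ t, chk3 f_pp_012_a t 53 48 1 = true := ex3_a k74_pp_012_a k75_pp_012_a

theorem s153_pp_012_a : ∃ t, chk3 f_pp_012_a t 53 24 1 = true := ex3_b s152_pp_012_a k76_pp_012_a

theorem s154_pp_012_a : ∃ t, chk3 f_pp_012_a t 26 24 1 = true := ex3_a k73_pp_012_a s153_pp_012_a

theorem s155_pp_012_a : ∃ t, chk3 f_pp_012_a t 26 12 1 = true := ex3_b s154_pp_012_a k77_pp_012_a

theorem s156_pp_012_a : ∃ t, chk3 f_pp_012_a t 26 6 1 = true := ex3_b s155_pp_012_a k78_pp_012_a

theorem s157_pp_012_a : ∃ t, chk3 f_pp_012_a t 13 6 1 = true := ex3_a s156_pp_012_a s151_pp_012_a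

theorem s158_pp_012_a : ∃ t, chk3 f_pp_012_a t 13 3 1 = true := ex3_b s157_pp_012_a k86_pp_012_a

theorem s159_pp_012_a : ∃ t, chk3 f_pp_012_a t 6 3 1 = true := ex3_a k72_pp_012_a s158_pp_012_a

theorem s160_pp_012_a : ∃ t, chk3 f_pp_012_a t 26 47 1 = true := ex3_b k69_pp_012_a k70_pp_012_a

theorem s161_pp_012_a : ∃ t, chk3 f_pp_012_a t 26 23 1 = true := ex3_b k68_pp_012_a s160_pp_012_a

theorem s162_pp_012_a : ∃ t, chk3 f_pp_012_a t 26 11 1 = true := ex3_b k67_pp_012_a s161_pp_012_a

theorem s163_pp_012_a : ∃ t, chk3 f_pp_012_a t 26 5 1 = true := ex3_b k66_pp_012_a s162_pp_012_a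

theorem s164_pp_012_a : ∃ t, chk3 f_pp_012_a t 13 5 1 = true := ex3_a s163_pp_012_a k71_pp_012_a

theorem s165_pp_012_a : ∃ t, chk3 f_pp_012_a t 13 2 1 = true := ex3_b k65_pp_012_a s164_pp_012_a

theorem s166_pp_012_a : ∃ t, chk3 f_pp_012_a t 51 45 1 = true := ex3_a k62_pp_012_a k63_pp_012_a

theorem s167_pp_012_a : ∃ t, chk3 f_pp_012_a t 51 22 1 = true := ex3_b k61_pp_012_a s166_pp_012_a

theorem s168_pp_012_a : ∃ t, chk3 f_pp_012_a t 51 11 1 = true := ex3_b s167_pp_012_a k64_pp_012_a

theorem s169_pp_012_a : ∃ t, chk3 f_pp_012_a t 203 179 1 = true := ex3_a k57_pp_012_a k58_pp_012_a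

theorem s170_pp_012_a : ∃ t, chk3 f_pp_012_a t 203 89 1 = true := ex3_b k56_pp_012_a s169_pp_012_a

theorem s171_pp_012_a : ∃ t, chk3 f_pp_012_a t 203 44 1 = true := ex3_b k55_pp_012_a s170_pp_012_a

theorem s172_pp_012_a : ∃ t, chk3 f_pp_012_a t 202 44 1 = true := ex3_a k53_pp_012_a k54_pp_012_a

theorem s173_pp_012_a : ∃ t, chk3 f_pp_012_a t 101 44 1 = true := ex3_a s172_pp_012_a s171_pp_012_a

theorem s174_pp_012_a : ∃ t, chk3 f_pp_012_a t 100 44 1 = true := ex3_b k51_pp_012_a k52_pp_012_a

theorem s175_pp_012_a : ∃ t, chk3 f_pp_012_a t 50 44 1 = true := ex3_a s174_pp_012_a s173_pp_012_a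

theorem s176_pp_012_a : ∃ t, chk3 f_pp_012_a t 50 22 1 = true := ex3_b s175_pp_012_a k59_pp_012_a

theorem s177_pp_012_a : ∃ t, chk3 f_pp_012_a t 50 11 1 = true := ex3_b s176_pp_012_a k60_pp_012_a

theorem s178_pp_012_a : ∃ t, chk3 f_pp_012_a t 25 11 1 = true := ex3_a s177_pp_012_a s168_pp_012_a

theorem s179_pp_012_a : ∃ t, chk3 f_pp_012_a t 25 5 1 = true := ex3_b k50_pp_012_a s178_pp_012_a

theorem s180_pp_012_a : ∃ t, chk3 f_pp_012_a t 99 43 1 = true := ex3_b k47_pp_012_a k48_pp_012_a

theorem s181_pp_012_a : ∃ t, chk3 f_pp_012_a t 99 21 1 = true := ex3_b k46_pp_012_a s180_pp_012_a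

theorem s182_pp_012_a : ∃ t, chk3 f_pp_012_a t 98 21 1 = true := ex3_b k44_pp_012_a k45_pp_012_a

theorem s183_pp_012_a : ∃ t, chk3 f_pp_012_a t 49 21 1 = true := ex3_a s182_pp_012_a s181_pp_012_a

theorem s184_pp_012_a : ∃ t, chk3 f_pp_012_a t 24 21 1 = true := ex3_a k43_pp_012_a s183_pp_012_a

theorem s185_pp_012_a : ∃ t, chk3 f_pp_012_a t 96 83 1 = true := ex3_a k39_pp_012_a k40_pp_012_a

theorem s186_pp_012_a : ∃ t, chk3 f_pp_012_a t 96 41 1 = true := ex3_b k38_pp_012_a s185_pp_012_a

theorem s187_pp_012_a : ∃ t, chk3 f_pp_012_a t 48 41 1 = true := ex3_a s186_pp_012_a k41_pp_012_a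

theorem s188_pp_012_a : ∃ t, chk3 f_pp_012_a t 48 20 1 = true := ex3_b k37_pp_012_a s187_pp_012_a

theorem s189_pp_012_a : ∃ t, chk3 f_pp_012_a t 24 20 1 = true := ex3_a s188_pp_012_a k42_pp_012_a

theorem s190_pp_012_a : ∃ t, chk3 f_pp_012_a t 24 10 1 = true := ex3_b s189_pp_012_a s184_pp_012_a

theorem s191_pp_012_a : ∃ t, chk3 f_pp_012_a t 24 5 1 = true := ex3_b s190_pp_012_a k49_pp_012_a

theorem s192_pp_012_a : ∃ t, chk3 f_pp_012_a t 12 5 1 = true := ex3_a s191_pp_012_a s179_pp_012_a

theorem s193_pp_012_a : ∃ t, chk3 f_pp_012_a t 12 2 1 = true := ex3_b k36_pp_012_a s192_pp_012_a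

theorem s194_pp_012_a : ∃ t, chk3 f_pp_012_a t 6 2 1 = true := ex3_a s193_pp_012_a s165_pp_012_a

theorem s195_pp_012_a : ∃ t, chk3 f_pp_012_a t 6 1 1 = true := ex3_b s194_pp_012_a s159_pp_012_a

theorem s196_pp_012_a : ∃ t, chk3 f_pp_012_a t 3 1 1 = true := ex3_a s195_pp_012_a s145_pp_012_a

theorem s197_pp_012_a : ∃ t, chk3 f_pp_012_a t 47 40 1 = true := ex3_a k30_pp_012_a k31_pp_012_a

theorem s198_pp_012_a : ∃ t, chk3 f_pp_012_a t 47 20 1 = true := ex3_b s197_pp_012_a k32_pp_012_a

theorem s199_pp_012_a : ∃ t, chk3 f_pp_012_a t 23 20 1 = true := ex3_a k29_pp_012_a s198_pp_012_a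

theorem s200_pp_012_a : ∃ t, chk3 f_pp_012_a t 23 10 1 = true := ex3_b s199_pp_012_a k33_pp_012_a

theorem s201_pp_012_a : ∃ t, chk3 f_pp_012_a t 23 5 1 = true := ex3_b s200_pp_012_a k34_pp_012_a

theorem s202_pp_012_a : ∃ t, chk3 f_pp_012_a t 11 5 1 = true := ex3_a k28_pp_012_a s201_pp_012_a

theorem s203_pp_012_a : ∃ t, chk3 f_pp_012_a t 46 9 1 = true := ex3_a k25_pp_012_a k26_pp_012_a

theorem s204_pp_012_a : ∃ t, chk3 f_pp_012_a t 23 9 1 = true := ex3_a s203_pp_012_a k27_pp_012_a

theorem s205_pp_012_a : ∃ t, chk3 f_pp_012_a t 182 76 1 = true := ex3_a k20_pp_012_a k21_pp_012_a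

theorem s206_pp_012_a : ∃ t, chk3 f_pp_012_a t 91 76 1 = true := ex3_a s205_pp_012_a k22_pp_012_a

theorem s207_pp_012_a : ∃ t, chk3 f_pp_012_a t 91 38 1 = true := ex3_b s206_pp_012_a k23_pp_012_a

theorem s208_pp_012_a : ∃ t, chk3 f_pp_012_a t 45 38 1 = true := ex3_a k19_pp_012_a s207_pp_012_a

theorem s209_pp_012_a : ∃ t, chk3 f_pp_012_a t 45 19 1 = true := ex3_b s208_pp_012_a k24_pp_012_a

theorem s210_pp_012_a : ∃ t, chk3 f_pp_012_a t 22 19 1 = true := ex3_a k18_pp_012_a s209_pp_012_a

theorem s211_pp_012_a : ∃ t, chk3 f_pp_012_a t 44 18 1 = true := ex3_b k15_pp_012_a k16_pp_012_a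

theorem s212_pp_012_a : ∃ t, chk3 f_pp_012_a t 22 18 1 = true := ex3_a s211_pp_012_a k17_pp_012_a

theorem s213_pp_012_a : ∃ t, chk3 f_pp_012_a t 22 9 1 = true := ex3_b s212_pp_012_a s210_pp_012_a

theorem s214_pp_012_a : ∃ t, chk3 f_pp_012_a t 11 9 1 = true := ex3_a s213_pp_012_a s204_pp_012_a

theorem s215_pp_012_a : ∃ t, chk3 f_pp_012_a t 11 4 1 = true := ex3_b k14_pp_012_a s214_pp_012_a

theorem s216_pp_012_a : ∃ t, chk3 f_pp_012_a t 11 2 1 = true := ex3_b s215_pp_012_a s202_pp_012_a

theorem s217_pp_012_a : ∃ t, chk3 f_pp_012_a t 86 35 1 = true := ex3_b k9_pp_012_a k10_pp_012_a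

theorem s218_pp_012_a : ∃ t, chk3 f_pp_012_a t 43 35 1 = true := ex3_a s217_pp_012_a k11_pp_012_a

theorem s219_pp_012_a : ∃ t, chk3 f_pp_012_a t 43 17 1 = true := ex3_b k8_pp_012_a s218_pp_012_a

theorem s220_pp_012_a : ∃ t, chk3 f_pp_012_a t 85 70 1 = true := ex3_a k5_pp_012_a k6_pp_012_a

theorem s221_pp_012_a : ∃ t, chk3 f_pp_012_a t 85 35 1 = true := ex3_b s220_pp_012_a k7_pp_012_a

theorem s222_pp_012_a : ∃ t, chk3 f_pp_012_a t 42 35 1 = true := ex3_a k4_pp_012_a s221_pp_012_a

theorem s223_pp_012_a : ∃ t, chk3 f_pp_012_a t 42 17 1 = true := ex3_b k3_pp_012_a s222_pp_012_a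

theorem s224_pp_012_a : ∃ t, chk3 f_pp_012_a t 21 17 1 = true := ex3_a s223_pp_012_a s219_pp_012_a

theorem s225_pp_012_a : ∃ t, chk3 f_pp_012_a t 21 8 1 = true := ex3_b k2_pp_012_a s224_pp_012_a

theorem s226_pp_012_a : ∃ t, chk3 f_pp_012_a t 21 4 1 = true := ex3_b s225_pp_012_a k12_pp_012_a

theorem s227_pp_012_a : ∃ t, chk3 f_pp_012_a t 10 4 1 = true := ex3_a k1_pp_012_a s226_pp_012_a

theorem s228_pp_012_a : ∃ t, chk3 f_pp_012_a t 10 2 1 = true := ex3_b s227_pp_012_a k13_pp_012_a

theorem s229_pp_012_a : ∃ t, chk3 f_pp_012_a t 5 2 1 = true := ex3_a s228_pp_012_a s216_pp_012_a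

theorem s230_pp_012_a : ∃ t, chk3 f_pp_012_a t 5 1 1 = true := ex3_b s229_pp_012_a k35_pp_012_a

theorem s231_pp_012_a : ∃ t, chk3 f_pp_012_a t 2 1 1 = true := ex3_a k0_pp_012_a s230_pp_012_a

theorem s232_pp_012_a : ∃ t, chk3 f_pp_012_a t 1 1 1 = true := ex3_a s231_pp_012_a s196_pp_012_a

theorem c_pp_012_a : CertB 0 536870912 0 536870912 697932185 42949674 3 eng mog cd0q0 cd1q2a pd1 false true true .pnp 0 1 2
    ndB0q0 ndB1q2a pcB1 cut_pp_012_a Ext.none :=
  certB2 (fam := false) (s1 := true) (s2 := true) (a := 0) (b := 1) (c := 2) (cn := .pnp) (n1 := ndB0q0) (n2 := ndB1q2a) (pc := pcB1) (cut := cut_pp_012_a) (xt := Ext.none) (P1 := 0) (W1 := 536870912) (P2 := 0) (W2 := 536870912) (P3 := 697932185) (W3 := 42949674) (N0 := 3) (En := eng) (mo := mog) (C1 := cd0q0) (C2 := cd1q2a) (C3 := pd1)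
    rfl (fun _ => rfl) s232_pp_012_a

noncomputable def cut_pp_012_b : Cut := Cut.of [[⟨0, 0, 0, 67108864⟩, ⟨1, 1, 0, 67108864⟩, ⟨2, 1, 0, 67108864⟩]]

noncomputable def f_pp_012_b : ℕ → ℕ → ℕ → ℕ → Bool := onCell 0 536870912 536870912 536870912 697932185 42949674
    (rowB 3 eng mog cd0q0 cd1q2b pd1 1 false true true .pnp 0 1 2 (qsf 0 536870912 1239849684 370763052 1) ndB0q0 ndB1q2b pcB1 cut_pp_012_b Ext.none)

def k0_pp_012_b : ∃ t, chk3 f_pp_012_b t 1 2 1 = true :=
  ⟨(a (l 1) (b (l 1) (a (l 1) (b (a (l 1) (b (a (l 1) (b (l 1) (a (l 1) (b (l 1) (a (l 1) (l 127271920183)))))) (a (b (l 1) (a (l 1) (b (l 1) (l 102575827063)))) (a (b (b (l 1) (l 141230540967)) (b (l 94522775447) (l 16726792))) (b (b (a (l 102575859991) (l 16748336)) (l 16761304)) (l 16725728)))))) (a (b (a (l 1) (b (l 1) (a (l 1) (l 98280846359)))) (a (b (l 1) (l 173442732183)) (a (l 126198105015) (l 78953474567)))) (b (a (b (a (l 98280855751) (b (l 108481401159) (l 16713320))) (a (l 16725872) (l 16697264))) (b (a (l 16732392) (l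 16705504)) (a (l 16690616) (l 16684504)))) (a (a (l 16670824) (l 16663248)) (l 16653864)))))))), by decide +kernel⟩

def k1_pp_012_b : ∃ t, chk3 f_pp_012_b t 1 3 1 = true :=
  ⟨(a (a (l 1) (b (l 1) (a (b (l 1) (a (b (l 1) (l 115997313479)) (b (a (l 1) (l 16560664)) (l 16566352)))) (b (a (a (l 1) (a (l 1) (b (l 1) (l 16561152)))) (b (a (l 1) (l 4865106151)) (a (l 16539200) (l 16511864)))) (a (b (a (l 16569368) (l 16495840)) (l 16479560)) (b (l 16473720) (l 16379624))))))) (a (b (a (b (l 1) (a (b (l 1) (a (l 1) (b (l 1) (l 16585216)))) (b (a (l 1) (b (l 1) (l 16627608))) (a (b (l 16595928) (l 16562464)) (b (l 16574184) (l 16541216)))))) (b (a (b (l 1) (b (l 1) (a (l 1) (l 116534304679)))) (b (a (l 1) (l 164852735879)) (a (b (l 160557692199) (l 16615480)) (l 56941647767)))) (a (b (a (b (l 129956052503) (l 16586376)) (b (l 16600072) (l 16568600))) (a (l 16558800) (l 16520464))) (b (a (l 16569048) (l 16556144)) (a (l 16505776) (l 16493168)))))) (a (b (a (b (a (l 16599352) (l 16533544)) (a (l 16486696)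 (l 16463248))) (b (a (l 16511080) (l 16490128)) (a (l 16441368) (l 16421176)))) (b (a (l 16403088) (l 16360904)) (a (l 16331192) (l 16290752)))) (b (a (b (a (l 16471120) (l 16454656)) (l 16394976)) (b (l 16518728) (l 16368416))) (a (b (l 16326960) (l 16259048)) (b (l 16302120) (l 16236152)))))) (b (a (b (b (a (a (l 104723247127) (l 16670344)) (l 16676352)) (a (l 16662856) (l 16580368))) (a (b (l 16539392) (l 16476920)) (b (l 16520568) (l 16459096)))) (b (a (b (l 16618072) (l 16565344)) (b (l 16606480) (l 16555632))) (a (b (l 16506720) (l 16446704)) (l 16532400)))) (a (b (b (a (l 16413472) (l 16397048)) (a (l 16348584) (l 16334520))) (a (l 16251352) (l 16239672))) (b (a (b (l 16386536) (l 16326248)) (l 16417024)) (a (l 16235336) (l 16240552))))))), by decide +kernel⟩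

theorem s2_pp_012_b : ∃ t, chk3 f_pp_012_b t 1 1 1 = true := ex3_b k0_pp_012_b k1_pp_012_b

theorem c_pp_012_b : CertB 0 536870912 1239849684 370763052 697932185 42949674 3 eng mog cd0q0 cd1q2b pd1 false true true .pnp 0 1 2
    ndB0q0 ndB1q2b pcB1 cut_pp_012_b Ext.none :=
  certB1 (fam := false) (s1 := true) (s2 := true) (a := 0) (b := 1) (c := 2) (cn := .pnp) (n1 := ndB0q0) (n2 := ndB1q2b) (pc := pcB1) (cut := cut_pp_012_b) (xt := Ext.none) (P1 := 0) (W1 := 536870912) (P2 := 1239849684) (W2 := 370763052) (P3 := 697932185) (W3 := 42949674) (N0 := 3) (En := eng) (mo := mog) (C1 := cd0q0) (C2 := cd1q2b) (C3 := pd1)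
    rfl (fun _ => rfl) s2_pp_012_b

end Pool.Agent.Strip051.G.I6500_6900.Tab.C.BB01

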