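import Pool.Agent.Strip051.G.I6500_6900.Tab

/-! # Certificates B20 (generated) -/

set_option linter.all false
set_option maxRecDepth 100000

namespace Pool.Agent.Strip051.G.I6500_6900.Tab.C.BB01

open Pool.Agent.Strip051.PB Pool.Agent.Strip051.PB.T
open Pool.Agent.Strip051.G.I6500_6900.Tab

noncomputable def cut_pp_022_a : Cut := Cut.of [[⟨0, 0, 0, 67108864⟩, ⟨1, 1, 0, 67108864⟩, ⟨2, 1, 0, 67108864⟩]]

noncomputable def f_pp_022_a : ℕ → ℕ → ℕ → ℕ → Bool := onCell 1073741824 536870912 0 536870912 697932185 42949674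
    (rowB 3 eng mog cd0q0 cd1q2a pd2 2 false true true .pp 0 2 2 (qsf 0 536870912 0 536870912 2) ndB0q0 ndB1q2a pcB2 cut_pp_022_a Ext.none)

def k0_pp_022_a : ∃ t, chk3 f_pp_022_a t 8 2 1 = true :=
  ⟨(b (a (b (l 16500008) (l 16552856)) (b (l 16493776) (l 16563328))) (b (b (a (l 16537864) (l 16528616)) (a (l 16602256) (l 16581744))) (a (a (b (l 16577872) (l 16617088)) (b (l 16567856) (l 16597760))) (b (a (l 16555112) (l 16542512)) (a (b (l 16564440) (l 16592360)) (b (l 16550800) (l 16557000))))))), by decide +kernel⟩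

def k1_pp_022_a : ∃ t, chk3 f_pp_022_a t 8 3 1 = true :=
  ⟨(b (a (a (b (b (b (l 16630064) (a (l 16621592) (l 16614496))) (a (b (l 16630808) (a (l 16640152) (l 16639600))) (b (l 16624200) (l 16634376)))) (b (a (b (a (l 16649168) (l 16648640)) (a (b (l 16655680) (l 16659904)) (l 16657328))) (b (l 16644928) (l 16656096))) (a (b (a (b (l 16664040) (l 16668720)) (l 16665936)) (a (l 16676112) (l 16675664))) (b (l 16665040) (l 16674760))))) (b (b (a (l 16613312) (b (l 16590192) (l 16598616))) (b (c (l 16612848) (l 16631392)) (a (l 16625680) (l 16616912)))) (b (b (a (l 16635800) (l 16626600)) (a (l 16646520) (l 16615936))) (b (a (l 16657568) (l 16647520)) (l 16651992))))) (b (a (b (b (l 16599744) (a (l 16590624) (l 16582600))) (a (b (l 16599136) (l 16608088)) (b (l 16590728) (l 16599272)))) (b (c (l 16591000) (l 16584904)) (b (l 16578208) (l 16607112)))) (b (a (b (a (l 16617392) (l 16608152)) (a (l 16627256) (l 16617592))) (b (l 16615288) (l 16623952))) (a (b (a (l 16637432)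 (l 16627256)) (a (l 16646640) (l 16635880))) (b (a (l 16616976) (l 16606544)) (a (l 16624952) (l 16613800))))))) (a (b (b (b (a (a (a (l 16685608) (l 16685144)) (l 16684232)) (a (l 16678320) (l 16667304))) (b (a (a (l 16692160) (l 16690960)) (l 16680912)) (l 6))) (l 6)) (l 6)) (b (b (a (a (b (l 16656112) (l 16686704)) (b (l 16644688) (l 16653552))) (b (a (l 16633032) (l 16621064)) (a (l 16662024) (l 22581867079)))) (a (l 6) (a (l 6) (a (l 6) (l 1))))) (a (l 6) (l 1))))), by decide +kernel⟩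

def k2_pp_022_a : ∃ t, chk3 f_pp_022_a t 9 1 1 = true :=
  ⟨(b (b (a (b (l 16484728) (a (l 16502992) (l 16493536))) (b (l 16472096) (a (l 16484512) (l 16475984)))) (b (a (b (l 16508992) (a (l 16522920) (l 16512088))) (c (l 16497256) (a (l 16493216) (l 16482344)))) (a (b (a (l 16530416) (l 16518912)) (a (b (l 16537544) (l 16543000)) (l 16548136))) (a (b (b (l 16506664) (l 16509192)) (b (l 16512448) (l 16515952))) (b (c (l 16502744) (l 16511480)) (b (l 16499928) (l 16502112))))))) (b (b (a (b (a (b (l 16548832) (l 16555064)) (b (l 16534320) (l 16539520))) (a (b (l 16561688) (l 16568608)) (b (l 16545008) (l 16571640)))) (b (a (b (l 16519680) (l 16523608)) (b (l 16504424) (l 16506808))) (a (b (l 16548680) (a (l 16536696) (l 16526968))) (l 1)))) (a (b (a (a (l 16605240) (l 16595448)) (b (a (l 16561288) (l 16551376)) (a (l 16567552) (l 16556792)))) (a (b (a (l 16595880) (l 16584944)) (a (l 16602336) (l 16590528))) (b (a (l 16573664) (l 1)) (l 1)))) (b (a (b (a (l 16541136)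 (l 1)) (l 1)) (l 1)) (l 1)))) (b (a (b (a (b (a (l 16608704) (l 16595904)) (a (l 16614784) (l 1))) (l 1)) (l 1)) (l 1)) (l 1)))), by decide +kernel⟩

def k3_pp_022_a : ∃ t, chk3 f_pp_022_a t 5 1 1 = true :=
  ⟨(b (a (b (b (a (a (l 16461688) (l 16454600)) (l 1)) (a (c (l 16488784) (l 93985384327)) (l 1))) (a (a (b (c (l 16483568) (l 16471192)) (b (b (l 16485288) (l 16444304)) (c (l 16494592) (l 16478704)))) (b (c (l 16473688) (l 16459264)) (l 1))) (l 1))) (l 1)) (b (l 1) (l 1))), by decide +kernel⟩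

def k4_pp_022_a : ∃ t, chk3 f_pp_022_a t 3 1 1 = true :=
  ⟨(l 1), by decide +kernel⟩

theorem s5_pp_022_a : ∃ t, chk3 f_pp_022_a t 8 1 1 = true := ex3_b k0_pp_022_a k1_pp_022_a

theorem s6_pp_022_a : ∃ t, chk3 f_pp_022_a t 4 1 1 = true := ex3_a s5_pp_022_a k2_pp_022_a

theorem s7_pp_022_a : ∃ t, chk3 f_pp_022_a t 2 1 1 = true := ex3_a s6_pp_022_a k3_pp_022_a

theorem s8_pp_022_a : ∃ t, chk3 f_pp_022_a t 1 1 1 = true := ex3_a s7_pp_022_a k4_pp_022_a

theorem c_pp_022_a : CertB 0 536870912 0 536870912 697932185 42949674 3 eng mog cd0q0 cd1q2a pd2 false true true .pp 0 2 2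
    ndB0q0 ndB1q2a pcB2 cut_pp_022_a Ext.none :=
  certB2 (fam := false) (s1 := true) (s2 := true) (a := 0) (b := 2) (c := 2) (cn := .pp) (n1 := ndB0q0) (n2 := ndB1q2a) (pc := pcB2) (cut := cut_pp_022_a) (xt := Ext.none) (P1 := 0) (W1 := 536870912) (P2 := 0) (W2 := 536870912) (P3 := 697932185) (W3 := 42949674) (N0 := 3) (En := eng) (mo := mog) (C1 := cd0q0) (C2 := cd1q2a) (C3 := pd2)
    rfl (fun _ => rfl) s8_pp_022_a

noncomputable def cut_pp_022_b : Cut := Cut.of [[⟨0, 0, 0, 67108864⟩, ⟨1, 1, 0, 67108864⟩, ⟨2, 1, 0, 67108864⟩]]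

noncomputable def f_pp_022_b : ℕ → ℕ → ℕ → ℕ → Bool := onCell 0 536870912 1073741824 536870912 697932185 42949674
    (rowB 3 eng mog cd0q0 cd1q2b pd2 1 false true true .pp 0 2 2 (qsf 0 536870912 1239849684 370763052 2) ndB0q0 ndB1q2b pcB2 cut_pp_022_b Ext.none)

def k0_pp_022_b : ∃ t, chk3 f_pp_022_b t 1 1 1 = true :=
  ⟨(b (a (a (b (a (b (l 1) (a (b (l 1) (l 126197723911)) (b (l 124050251719) (l 16486864)))) (a (b (b (l 1) (l 117607835735)) (b (l 16475904) (l 16403448))) (b (b (l 16552656) (l 16484080)) (b (l 16412864) (l 16386600))))) (b (a (b (a (a (l 16466544) (l 16439288)) (l 16392840)) (b (a (l 16421064) (l 16340080)) (l 16449336))) (b (a (l 16333968) (l 16279376)) (a (l 16309728) (l 16369552)))) (a (a (b (l 16315544) (l 16243992)) (l 16265000)) (b (l 16231920) (l 16164992))))) (b (b (a (a (a (l 16512696) (l 16459320)) (a (l 16469632) (l 16418008))) (b (a (l 16361032) (l 16306840)) (a (l 16305136) (l 16258168)))) (a (a (c (l 16385872) (l 16384040)) (l 16291552))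 (a (l 16226224) (l 16189680)))) (b (a (b (l 16270616) (a (l 16199104) (l 16141088))) (b (l 16138000) (a (l 16113632) (l 16093840)))) (a (l 16205808) (l 16069912))))) (a (b (a (b (a (b (l 16261888) (l 16219616)) (b (l 16225096) (l 16189200))) (a (l 16160368) (l 16139184))) (b (a (b (l 16197120) (l 16167384)) (l 16205856)) (a (l 16126304) (l 16116688)))) (a (b (b (l 16100072) (l 16077144)) (l 16092048)) (b (b (l 16086320) (l 16073872)) (l 16109224)))) (b (a (b (a (l 16150200) (l 16143288)) (l 16107952)) (b (l 16211552) (l 16125328))) (b (a (l 16080936) (l 2)) (l 2))))) (a (b (a (b (a (a (l 16152376) (l 16132016)) (l 16100184)) (a (b (l 16071464) (l 16037640)) (b (l 16047728) (l 16033160)))) (b (a (l 16056024) (l 16049152)) (a (l 16027248) (l 16007616)))) (a (b (a (l 16007704) (l 16029616)) (a (l 15996248) (l 16043144))) (b (a (l 16057016) (l 2)) (l 2)))) (b (a (a (b (l 16090456) (l 2)) (l 2)) (l 2)) (l 2)))), by decide +kernel⟩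

theorem c_pp_022_b : CertB 0 536870912 1239849684 370763052 697932185 42949674 3 eng mog cd0q0 cd1q2b pd2 false true true .pp 0 2 2
    ndB0q0 ndB1q2b pcB2 cut_pp_022_b Ext.none :=
  certB1 (fam := false) (s1 := true) (s2 := true) (a := 0) (b := 2) (c := 2) (cn := .pp) (n1 := ndB0q0) (n2 := ndB1q2b) (pc := pcB2) (cut := cut_pp_022_b) (xt := Ext.none) (P1 := 0) (W1 := 536870912) (P2 := 1239849684) (W2 := 370763052) (P3 := 697932185) (W3 := 42949674) (N0 := 3) (En := eng) (mo := mog) (C1 := cd0q0) (C2 := cd1q2b) (C3 := pd2)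
    rfl (fun _ => rfl) k0_pp_022_b

noncomputable def f_pp_023 : ℕ → ℕ → ℕ → ℕ → Bool := onCell 0 536870912 1073741824 536870912 697932185 42949674
    (rowB 3 eng mog cd0q0 cd1q3 pd2 1 false true true .up 0 2 3 (qsf 0 536870912 1610612736 536870912 2) ndB0q0 ndB1q3 pcB2 Cut.none Ext.none)

def k0_pp_023 : ∃ t, chk3 f_pp_023 t 1 1 1 = true :=
  ⟨(b (a (a (l 1) (b (l 1) (b (l 1) (a (l 1) (l 16090168))))) (a (b (a (l 1) (b (l 1) (l 205117431207))) (a (b (l 251288266631) (l 16091808)) (b (b (l 16085928) (l 16073872)) (l 16110296)))) (b (a (b (l 209949182599) (l 16107608)) (b (l 16169096) (l 16126952))) (b (a (l 16082144) (l 16116784)) (a (l 16130480) (l 16183688)))))) (a (b (a (b (l 1) (a (l 1) (l 361346248423))) (b (a (l 16057648) (l 16048664)) (a (l 16027728) (l 16005128)))) (a (b (l 359199182023) (a (l 15996776) (l 16041352))) (b (a (l 16055296) (l 16080328)) (l 16125792)))) (b (a (a (b (l 16091968) (l 16066864)) (b (l 16142952) (l 16157136))) (b (l 16217616) (l 16332832)))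 (a (a (l 16242496) (l 16235088)) (b (l 16458008) (l 16549152)))))), by decide +kernel⟩

theorem c_pp_023 : CertB 0 536870912 1610612736 536870912 697932185 42949674 3 eng mog cd0q0 cd1q3 pd2 false true true .up 0 2 3
    ndB0q0 ndB1q3 pcB2 Cut.none Ext.none :=
  certB1 (fam := false) (s1 := true) (s2 := true) (a := 0) (b := 2) (c := 3) (cn := .up) (n1 := ndB0q0) (n2 := ndB1q3) (pc := pcB2) (cut := Cut.none) (xt := Ext.none) (P1 := 0) (W1 := 536870912) (P2 := 1610612736) (W2 := 536870912) (P3 := 697932185) (W3 := 42949674) (N0 := 3) (En := eng) (mo := mog) (C1 := cd0q0) (C2 := cd1q3) (C3 := pd2)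
    rfl (fun _ => rfl) k0_pp_023

noncomputable def f_pp_033 : ℕ → ℕ → ℕ → ℕ → Bool := onCell 1610612736 536870912 1610612736 536870912 697932185 42949674
    (rowB 3 eng mog cd0q0 cd1q3 pd3 2 false true true .pnn 0 3 3 (qsf 0 536870912 1610612736 536870912 3) ndB0q0 ndB1q3 pcB3 Cut.none Ext.none)

def k0_pp_033 : ∃ t, chk3 f_pp_033 t 1 1 1 = true :=
  ⟨(a (b (a (b (a (b (l 399464048231) (l 16001968)) (b (l 509522633063) (l 15921128))) (a (b (l 16054400) (l 16144152)) (b (l 15977056) (l 16064824)))) (a (b (b (l 1) (l 528313164727)) (b (l 15948384) (l 16046528))) (l 4))) (a (b (a (b (l 16298800) (l 16426032)) (b (l 16213256) (a (l 16370768) (l 16323912)))) (a (b (l 16524760) (l 16588376)) (a (l 16510184) (l 16494640)))) (a (b (b (l 50700012135) (l 16284904)) (a (l 16466032) (l 16438912))) (l 4)))) (l 4)), by decide +kernel⟩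

theorem c_pp_033 : CertB 0 536870912 1610612736 536870912 697932185 42949674 3 eng mog cd0q0 cd1q3 pd3 false true true .pnn 0 3 3
    ndB0q0 ndB1q3 pcB3 Cut.none Ext.none :=
  certB2 (fam := false) (s1 := true) (s2 := true) (a := 0) (b := 3) (c := 3) (cn := .pnn) (n1 := ndB0q0) (n2 := ndB1q3) (pc := pcB3) (cut := Cut.none) (xt := Ext.none) (P1 := 0) (W1 := 536870912) (P2 := 1610612736) (W2 := 536870912) (P3 := 697932185) (W3 := 42949674) (N0 := 3) (En := eng) (mo := mog) (C1 := cd0q0) (C2 := cd1q3) (C3 := pd3)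
    rfl (fun _ => rfl) k0_pp_033

noncomputable def f_pp_101 : ℕ → ℕ → ℕ → ℕ → Bool := onCell 536870912 536870912 536870912 536870912 697932185 42949674
    (rowB 3 eng mog cd0q1 cd1q1 pd0 0 false true true .npn 1 0 1 (qsf 536870912 536870912 536870912 536870912 0) ndB0q1 ndB1q1 pcB0 Cut.none Ext.none)

def k0_pp_101 : ∃ t, chk3 f_pp_101 t 1 1 1 = true :=
  ⟨(l 3), by decide +kernel⟩

theorem c_pp_101 : CertB 536870912 536870912 536870912 536870912 697932185 42949674 3 eng mog cd0q1 cd1q1 pd0 false true true .npn 1 0 1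
    ndB0q1 ndB1q1 pcB0 Cut.none Ext.none :=
  certB0 (fam := false) (s1 := true) (s2 := true) (a := 1) (b := 0) (c := 1) (cn := .npn) (n1 := ndB0q1) (n2 := ndB1q1) (pc := pcB0) (cut := Cut.none) (xt := Ext.none) (P1 := 536870912) (W1 := 536870912) (P2 := 536870912) (W2 := 536870912) (P3 := 697932185) (W3 := 42949674) (N0 := 3) (En := eng) (mo := mog) (C1 := cd0q1) (C2 := cd1q1) (C3 := pd0)
    rfl k0_pp_101

noncomputable def f_pp_102_a : ℕ → ℕ → ℕ → ℕ → Bool := onCell 0 536870912 0 536870912 697932185 42949674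
    (rowB 3 eng mog cd0q1 cd1q2a pd0 2 false true true .npp 1 0 2 (qsf 536870912 536870912 0 536870912 0) ndB0q1 ndB1q2a pcB0 Cut.none Ext.none)

def k0_pp_102_a : ∃ t, chk3 f_pp_102_a t 1 1 1 = true :=
  ⟨(a (b (l 3) (l 3)) (l 3)), by decide +kernel⟩

theorem c_pp_102_a : CertB 536870912 536870912 0 536870912 697932185 42949674 3 eng mog cd0q1 cd1q2a pd0 false true true .npp 1 0 2
    ndB0q1 ndB1q2a pcB0 Cut.none Ext.none :=
  certB2 (fam := false) (s1 := true) (s2 := true) (a := 1) (b := 0) (c := 2) (cn := .npp) (n1 := ndB0q1) (n2 := ndB1q2a) (pc := pcB0) (cut := Cut.none) (xt := Ext.none) (P1 := 536870912) (W1 := 536870912) (P2 := 0) (W2 := 536870912) (P3 := 697932185) (W3 := 42949674) (N0 := 3) (En := eng) (mo := mog) (C1 := cd0q1) (C2 := cd1q2a) (C3 := pd0)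
    rfl (fun _ => rfl) k0_pp_102_a

noncomputable def f_pp_102_b : ℕ → ℕ → ℕ → ℕ → Bool := onCell 536870912 536870912 0 536870912 697932185 42949674
    (rowB 3 eng mog cd0q1 cd1q2b pd0 1 false true true .npp 1 0 2 (qsf 536870912 536870912 1239849684 370763052 0) ndB0q1 ndB1q2b pcB0 Cut.none Ext.none)

def k0_pp_102_b : ∃ t, chk3 f_pp_102_b t 1 1 1 = true :=
  ⟨(a (l 3) (l 3)), by decide +kernel⟩

theorem c_pp_102_b : CertB 536870912 536870912 1239849684 370763052 697932185 42949674 3 eng mog cd0q1 cd1q2b pd0 false true true .npp 1 0 2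
    ndB0q1 ndB1q2b pcB0 Cut.none Ext.none :=
  certB1 (fam := false) (s1 := true) (s2 := true) (a := 1) (b := 0) (c := 2) (cn := .npp) (n1 := ndB0q1) (n2 := ndB1q2b) (pc := pcB0) (cut := Cut.none) (xt := Ext.none) (P1 := 536870912) (W1 := 536870912) (P2 := 1239849684) (W2 := 370763052) (P3 := 697932185) (W3 := 42949674) (N0 := 3) (En := eng) (mo := mog) (C1 := cd0q1) (C2 := cd1q2b) (C3 := pd0)
    rfl (fun _ => rfl) k0_pp_102_b

noncomputable def f_pp_112_a : ℕ → ℕ → ℕ → ℕ → Bool := onCell 536870912 536870912 0 536870912 697932185 42949674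
    (rowB 3 eng mog cd0q1 cd1q2a pd1 2 false true true .dn 1 1 2 (qsf 536870912 536870912 0 536870912 1) ndB0q1 ndB1q2a pcB1 Cut.none Ext.none)

def k0_pp_112_a : ∃ t, chk3 f_pp_112_a t 4 2 1 = true :=
  ⟨(a (l 3) (l 3)), by decide +kernel⟩

def k1_pp_112_a : ∃ t, chk3 f_pp_112_a t 160 64 1 = true :=
  ⟨(b (a (b (b (a (l 3) (b (b (a (a (l 3) (a (l 3) (b (l 12515801431) (l 3)))) (a (a (b (l 16776272) (l 14126414151)) (l 16776232)) (l 16776104))) (a (l 3) (c (l 11442060151) (a (a (l 3) (a (l 16776296) (l 15200155975))) (c (l 16776216) (l 22179477927)))))) (b (a (l 3) (a (l 3) (a (l 16776352) (b (l 18421381431) (l 16776336))))) (l 3)))) (l 3)) (l 3)) (a (b (a (b (b (l 16775920) (c (l 13052672935) (a (b (l 23253219607) (a (l 16776280) (a (l 13052672311) (l 18421381367)))) (l 24863832311)))) (a (l 3) (b (a (c (l 16776392) (l 7683963239)) (b (b (l 16776256) (l 11442059543)) (l 3))) (l 3)))) (a (b (l 16775808) (b (b (l 16776168) (c (l 16776336) (a (l 11442059559) (l 19495123207))))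 (l 37748733927))) (b (l 16775624) (b (l 16776072) (b (c (l 16776312) (a (l 13589543175) (l 21105735911))) (l 2852124919)))))) (l 3)) (b (b (l 16776480) (a (b (l 16775816) (a (c (l 16776240) (a (b (l 16776096) (l 15200155943)) (l 23790090519))) (l 16776024))) (l 16776264))) (b (b (a (c (c (l 30769413191) (l 7147092855)) (a (l 6073350455) (b (a (l 16810768647) (l 16776128)) (l 8757704951)))) (a (a (b (l 16776104) (a (l 13589543111) (l 16776224))) (l 16776096)) (l 16775968))) (a (l 3) (c (c (l 29695671383) (l 8757705527)) (c (a (l 16776264) (l 13589543463)) (b (a (l 11442059511) (l 22179477783)) (a (l 3) (l 12515801383))))))) (l 3))))) (l 3)), by decide +kernel⟩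

def k2_pp_112_a : ∃ t, chk3 f_pp_112_a t 161 64 1 = true :=
  ⟨(b (a (a (a (b (l 16774936) (b (c (l 16775928) (c (l 16775816) (c (l 16776416) (l 23790090455)))) (b (a (a (l 3388995767) (b (a (l 10905188503) (l 15200155783)) (l 3))) (c (l 16776232) (b (l 16776064) (a (l 16776192) (l 16810768535))))) (l 3)))) (b (l 16774560) (b (l 16775496) (b (c (l 16776016) (l 16776200)) (a (b (a (l 8757704871) (a (l 16776200) (l 16776176))) (l 3)) (b (l 16776072) (a (l 10905188487) (l 18958252151)))))))) (c (l 16776056) (c (l 16775888) (b (l 16773816) (l 16776432))))) (c (l 16776256) (l 16775984))) (a (b (a (a (l 3) (c (l 137069852967) (b (c (l 127943047303) (l 126332434455)) (l 3)))) (b (b (a (a (b (a (l 13052672135) (l 16776144)) (l 4462737527)) (a (b (l 16776064) (l 13052672135)) (l 16776048))) (l 16775840)) (a (c (l 123648080599) (c (l 37748734327) (l 8757704887))) (c (l 11978930919) (a (b (l 19495123095) (l 10368317575)) (l 22716348535))))) (a (l 3) (b (a (l 3) (c (l 16776264)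 (l 9831446711))) (l 3))))) (l 3)) (a (a (b (b (l 16776288) (b (a (b (l 21105735703) (a (l 16776184) (l 16776152))) (l 23253219399)) (c (l 37748734727) (c (l 16776152) (c (l 10368317767) (l 11978930439)))))) (l 3)) (b (b (l 16775272) (a (b (l 16775816) (a (b (l 16776064) (l 16776152)) (l 20031993895))) (l 16775784))) (a (l 3) (b (b (c (l 16776200) (a (l 16776088) (l 12515801223))) (l 3)) (l 3))))) (b (c (l 16775136) (l 16776240)) (b (b (a (a (c (l 16776096) (l 19495123047)) (l 16775872)) (l 16775608)) (a (a (l 16776160) (b (l 16273897479) (l 16776136))) (c (l 16775976) (l 22179477591)))) (a (l 3) (b (a (l 16776136) (a (l 9831446567) (l 15737026583))) (l 3)))))))), by decide +kernel⟩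

def k3_pp_112_a : ∃ t, chk3 f_pp_112_a t 80 65 1 = true :=
  ⟨(l 3), by decide +kernel⟩

def k4_pp_112_a : ∃ t, chk3 f_pp_112_a t 81 32 1 = true :=
  ⟨(b (a (a (b (l 16777200) (a (b (l 16774280) (b (l 16776536) (a (b (c (l 16775928) (l 16775768)) (a (l 8220833863) (a (l 12515801095) (l 16775992)))) (l 23253219223)))) (c (l 16774296) (l 16776656)))) (c (l 16777144) (l 16776760))) (c (l 16774840) (l 16774344))) (b (a (a (b (a (a (l 3) (b (b (a (l 10368317527) (l 16810768439)) (l 127943047511)) (l 3))) (a (b (b (l 16775736) (a (l 12515801191) (l 16775920))) (c (l 127406176215) (l 124184950487))) (b (l 16775528) (b (a (l 10905188455) (l 16775872)) (c (l 119889983943) (l 36674992295)))))) (l 3)) (a (b (a (c (l 16810768759) (c (l 19495123031) (b (l 16775008) (l 20568864775)))) (l 16775104)) (b (a (a (l 3) (b (l 16776000) (l 3))) (a (b (l 16775904) (l 3)) (b (l 16775760) (l 16775968)))) (l 3))) (b (l 16774552) (b (c (l 16775568) (l 22179477335)) (a (b (c (l 31306283511)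 (l 16775880)) (l 3)) (b (l 16775728) (l 12515801127))))))) (a (a (c (l 16777176) (l 20031993671)) (l 16776280)) (l 16775112))) (a (l 3) (a (a (b (b (a (b (l 14126413863) (l 3)) (c (l 16775808) (l 16810768407))) (l 129553659511)) (l 3)) (b (b (l 16775224) (a (b (l 16775792) (l 122574338247)) (l 17347639143))) (c (l 168208365239) (l 125795562935)))) (b (c (l 16774560) (l 16774280)) (b (a (a (a (l 36138121719) (l 16775728)) (l 16775512)) (l 16774976)) (c (a (l 121500595767) (c (l 27548187239) (l 25400703383))) (a (c (l 118816240983) (l 117205628103)) (l 16273897575))))))))), by decide +kernel⟩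

def k5_pp_112_a : ∃ t, chk3 f_pp_112_a t 40 33 1 = true :=
  ⟨(a (l 3) (b (a (l 3) (b (a (l 3) (a (l 3) (a (l 3) (b (b (b (l 16775736) (l 3)) (l 3)) (l 3))))) (l 3))) (l 3))), by decide +kernel⟩

def k6_pp_112_a : ∃ t, chk3 f_pp_112_a t 41 16 1 = true :=
  ⟨(b (a (a (b (l 16776640) (a (c (l 16775032) (l 16775952)) (l 16775864))) (c (l 16776400) (l 16775704))) (c (l 16771600) (l 16770688))) (a (b (b (a (a (b (b (a (c (l 16776832) (l 16776624)) (l 16774720)) (a (a (l 3) (a (l 111836920007) (l 33453767095))) (l 16776616))) (a (l 3) (a (l 163376526599) (b (a (l 102710114519) (l 16775576)) (l 3))))) (b (l 16773880) (a (b (l 16775184) (a (l 117205627959) (c (l 30232541527) (l 33453766615)))) (l 16774760)))) (c (l 16777608) (l 16777192))) (a (a (l 3) (b (a (l 3) (b (a (l 110226305959) (l 29695670551)) (l 3))) (l 3))) (a (b (a (a (b (l 16775120) (l 100562630855)) (l 16776344)) (l 16774488)) (a (l 165524010023) (b (a (l 92509564535) (l 16775200)) (l 156934075239)))) (a (a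 (b (l 16773904) (b (l 16774848) (l 84456503447))) (l 16774152)) (l 16773568))))) (a (l 3) (b (a (l 3) (b (a (c (l 159618429943) (l 152639107751)) (a (b (l 76403439719) (l 3)) (b (l 16774952) (l 101099501607)))) (l 3))) (l 3)))) (b (a (c (l 16775744) (l 16775224)) (l 16777432)) (a (b (a (a (a (b (l 24326961191) (l 166597751495)) (b (l 16774496) (b (l 93583308647) (l 3)))) (b (l 16773912) (b (l 16774848) (a (l 154249720247) (l 85530245095))))) (c (l 16776176) (l 16775808))) (a (l 3) (b (a (a (l 153712849335) (b (l 78014052103) (l 3))) (a (b (l 16774760) (l 135996108887)) (l 54391730663))) (l 168745235063)))) (b (l 16776168) (a (b (l 16773712) (a (b (a (l 123111208599) (l 16774832)) (l 159618429127)) (a (b (l 16774472) (l 113447532135)) (l 16774392)))) (l 1))))))), by decide +kernel⟩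

def k7_pp_112_a : ∃ t, chk3 f_pp_112_a t 20 17 1 = true :=
  ⟨(a (l 3) (b (a (l 3) (b (a (l 3) (b (a (b (c (l 164987138631) (l 157470945495)) (l 3)) (l 1)) (l 3))) (l 3))) (l 3))), by decide +kernel⟩

def k8_pp_112_a : ∃ t, chk3 f_pp_112_a t 20 9 1 = true :=
  ⟨(l 3), by decide +kernel⟩

def k9_pp_112_a : ∃ t, chk3 f_pp_112_a t 21 4 1 = true :=
  ⟨(b (l 1) (l 1)), by decide +kernel⟩

def k10_pp_112_a : ∃ t, chk3 f_pp_112_a t 10 5 1 = true :=
  ⟨(l 3), by decide +kernel⟩

def k11_pp_112_a : ∃ t, chk3 f_pp_112_a t 11 2 1 = true :=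
  ⟨(l 1), by decide +kernel⟩

def k12_pp_112_a : ∃ t, chk3 f_pp_112_a t 2 3 1 = true :=
  ⟨(l 3), by decide +kernel⟩

def k13_pp_112_a : ∃ t, chk3 f_pp_112_a t 3 1 1 = true :=
  ⟨(l 1), by decide +kernel⟩

theorem s14_pp_112_a : ∃ t, chk3 f_pp_112_a t 80 64 1 = true := ex3_a k1_pp_112_a k2_pp_112_a

theorem s15_pp_112_a : ∃ t, chk3 f_pp_112_a t 80 32 1 = true := ex3_b s14_pp_112_a k3_pp_112_a

theorem s16_pp_112_a : ∃ t, chk3 f_pp_112_a t 40 32 1 = true := ex3_a s15_pp_112_a k4_pp_112_a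

theorem s17_pp_112_a : ∃ t, chk3 f_pp_112_a t 40 16 1 = true := ex3_b s16_pp_112_a k5_pp_112_a

theorem s18_pp_112_a : ∃ t, chk3 f_pp_112_a t 20 16 1 = true := ex3_a s17_pp_112_a k6_pp_112_a

theorem s19_pp_112_a : ∃ t, chk3 f_pp_112_a t 20 8 1 = true := ex3_b s18_pp_112_a k7_pp_112_a

theorem s20_pp_112_a : ∃ t, chk3 f_pp_112_a t 20 4 1 = true := ex3_b s19_pp_112_a k8_pp_112_a

theorem s21_pp_112_a : ∃ t, chk3 f_pp_112_a t 10 4 1 = true := ex3_a s20_pp_112_a k9_pp_112_a

theorem s22_pp_112_a : ∃ t, chk3 f_pp_112_a t 10 2 1 = true := ex3_b s21_pp_112_a k10_pp_112_a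

theorem s23_pp_112_a : ∃ t, chk3 f_pp_112_a t 5 2 1 = true := ex3_a s22_pp_112_a k11_pp_112_a

theorem s24_pp_112_a : ∃ t, chk3 f_pp_112_a t 2 2 1 = true := ex3_a k0_pp_112_a s23_pp_112_a

theorem s25_pp_112_a : ∃ t, chk3 f_pp_112_a t 2 1 1 = true := ex3_b s24_pp_112_a k12_pp_112_a

theorem s26_pp_112_a : ∃ t, chk3 f_pp_112_a t 1 1 1 = true := ex3_a s25_pp_112_a k13_pp_112_a

theorem c_pp_112_a : CertB 536870912 536870912 0 536870912 697932185 42949674 3 eng mog cd0q1 cd1q2a pd1 false true true .dn 1 1 2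
    ndB0q1 ndB1q2a pcB1 Cut.none Ext.none :=
  certB2 (fam := false) (s1 := true) (s2 := true) (a := 1) (b := 1) (c := 2) (cn := .dn) (n1 := ndB0q1) (n2 := ndB1q2a) (pc := pcB1) (cut := Cut.none) (xt := Ext.none) (P1 := 536870912) (W1 := 536870912) (P2 := 0) (W2 := 536870912) (P3 := 697932185) (W3 := 42949674) (N0 := 3) (En := eng) (mo := mog) (C1 := cd0q1) (C2 := cd1q2a) (C3 := pd1)
    rfl (fun _ => rfl) s26_pp_112_a

noncomputable def f_pp_112_b : ℕ → ℕ → ℕ → ℕ → Bool := onCell 536870912 536870912 536870912 536870912 697932185 42949674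
    (rowB 3 eng mog cd0q1 cd1q2b pd1 1 false true true .dn 1 1 2 (qsf 536870912 536870912 1239849684 370763052 1) ndB0q1 ndB1q2b pcB1 Cut.none Ext.none)

def k0_pp_112_b : ∃ t, chk3 f_pp_112_b t 2 4 1 = true :=
  ⟨(a (b (l 3) (a (a (a (l 1) (a (l 1) (a (l 1) (l 3)))) (l 3)) (l 3))) (l 3)), by decide +kernel⟩

def k1_pp_112_b : ∃ t, chk3 f_pp_112_b t 2 5 1 = true :=
  ⟨(a (b (a (b (a (b (a (b (l 1) (a (l 1) (b (l 1) (a (l 1) (l 91838466215))))) (b (a (b (l 1) (a (l 1) (b (l 1) (a (l 1) (l 108481472423))))) (b (b (a (l 1) (a (a (b (l 1) (b (b (l 1) (b (l 1) (l 115460799447))) (c (l 74121738967) (c (l 64994933383) (l 59089353319))))) (b (l 3) (a (b (a (a (b (l 1) (l 108078823879)) (l 97341405847)) (l 3)) (c (l 16775992) (c (l 16775880) (l 16776464)))) (l 74792827655)))) (l 3))) (a (a (l 1) (a (b (l 1) (l 111165830103)) (b (a (l 111165831591) (l 107944605815)) (l 16774704)))) (b (a (a (a (l 60699965207) (l 16775344)) (l 16775112)) (l 16775792)) (c (l 16774136) (l 16775096)))))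 (a (b (a (a (l 111165829767) (l 103649636103)) (l 53720640839)) (l 16774200)) (c (l 16771776) (l 16771184))))) (a (b (a (b (l 1) (l 118145143511)) (l 60699960135)) (l 55868116855)) (b (a (l 16768504) (l 16767400)) (l 16763768))))) (a (b (a (b (l 1) (l 99354648071)) (b (l 70900496839) (l 16759392))) (a (l 71437358311) (l 16752752))) (a (b (l 16759448) (l 16750544)) (l 16773888)))) (b (a (a (b (a (b (l 242296550775) (l 16775360)) (l 228337905303)) (l 16774080)) (b (l 3) (l 16760744))) (l 227264129223)) (a (l 16770864) (l 16766304)))) (a (b (a (l 16760960) (l 16735584)) (l 16760272)) (b (l 16751272) (l 16711600)))) (b (a (b (l 3) (l 104320699143)) (l 3)) (a (b (l 16723312) (l 16707416)) (l 92509535015)))) (a (b (a (b (l 16698376) (l 16677568)) (l 16682696)) (a (l 16688176) (l 16641960))) (b (a (l 16680640) (l 16680952)) (l 16666680)))) (b (l 3) (a (b (a (l 16680664) (l 3)) (a (l 16656976) (l 16665416))) (b (l 3) (l 134922406791))))), by decide +kernel⟩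

def k2_pp_112_b : ∃ t, chk3 f_pp_112_b t 3 2 1 = true :=
  ⟨(l 3), by decide +kernel⟩

def k3_pp_112_b : ∃ t, chk3 f_pp_112_b t 1 3 1 = true :=
  ⟨(a (b (a (b (a (a (l 16660112) (b (l 16600400) (l 16553592))) (b (a (l 16603920) (l 16613120)) (l 16589152))) (a (a (l 16468584) (l 16473704)) (a (l 16485488) (l 16504936)))) (b (b (a (l 16659080) (a (l 16670336) (l 16713960))) (a (a (l 16594832) (l 16623224)) (b (l 16681048) (l 16677336)))) (a (b (a (l 16555496) (l 16591408)) (l 16535472)) (b (l 56472034583) (l 2))))) (a (a (b (a (l 16358984) (l 16368592)) (a (l 16250712) (l 16268128))) (b (l 16462976) (b (l 16334048) (l 2)))) (b (a (a (l 16456128) (l 2)) (l 2)) (l 2)))) (a (b (b (b (l 3) (l 2)) (l 2)) (l 2)) (l 2))), by decide +kernel⟩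

theorem s4_pp_112_b : ∃ t, chk3 f_pp_112_b t 2 2 1 = true := ex3_b k0_pp_112_b k1_pp_112_b

theorem s5_pp_112_b : ∃ t, chk3 f_pp_112_b t 1 2 1 = true := ex3_a s4_pp_112_b k2_pp_112_b

theorem s6_pp_112_b : ∃ t, chk3 f_pp_112_b t 1 1 1 = true := ex3_b s5_pp_112_b k3_pp_112_b

theorem c_pp_112_b : CertB 536870912 536870912 1239849684 370763052 697932185 42949674 3 eng mog cd0q1 cd1q2b pd1 false true true .dn 1 1 2
    ndB0q1 ndB1q2b pcB1 Cut.none Ext.none :=
  certB1 (fam := false) (s1 := true) (s2 := true) (a := 1) (b := 1) (c := 2) (cn := .dn) (n1 := ndB0q1) (n2 := ndB1q2b) (pc := pcB1) (cut := Cut.none) (xt := Ext.none) (P1 := 536870912) (W1 := 536870912) (P2 := 1239849684) (W2 := 370763052) (P3 := 697932185) (W3 := 42949674) (N0 := 3) (En := eng) (mo := mog) (C1 := cd0q1) (C2 := cd1q2b) (C3 := pd1)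
    rfl (fun _ => rfl) s6_pp_112_b

noncomputable def cut_pp_113 : Cut := Cut.of [[⟨0, 1, 0, 67108864⟩, ⟨1, 1, 0, 67108864⟩, ⟨2, 2, 0, 16777216⟩]]

noncomputable def f_pp_113 : ℕ → ℕ → ℕ → ℕ → Bool := onCell 536870912 536870912 536870912 536870912 697932185 42949674
    (rowB 3 eng mog cd0q1 cd1q3 pd1 1 false true true .nn 1 1 3 (qsf 536870912 536870912 1610612736 536870912 1) ndB0q1 ndB1q3 pcB1 cut_pp_113 Ext.none)

def k0_pp_113 : ∃ t, chk3 f_pp_113 t 1 2 1 = true :=
  ⟨(a (a (l 1) (a (l 1) (a (l 1) (l 3)))) (l 3)), by decide +kernel⟩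

def k1_pp_113 : ∃ t, chk3 f_pp_113 t 2 3 1 = true :=
  ⟨(b (a (b (l 1) (a (l 1) (l 16532592))) (b (a (b (l 1) (a (l 1) (l 16621472))) (b (a (l 16669464) (l 16692848)) (b (l 16701840) (l 16677560)))) (a (b (l 16633840) (l 16535456)) (b (a (l 16641128) (l 16701312)) (a (l 16624736) (l 16703672)))))) (a (a (b (a (l 1) (l 16365728)) (a (l 16249368) (l 16268112))) (b (l 16399192) (l 16316320))) (b (a (a (l 16458072) (l 16520288)) (b (l 16658672) (l 16645792))) (a (b (l 16447496) (l 16425544)) (b (l 16603848) (l 16565368)))))), by decide +kernel⟩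

def k2_pp_113 : ∃ t, chk3 f_pp_113 t 3 3 1 = true :=
  ⟨(b (a (b (a (b (l 3) (a (b (l 3) (l 16752048)) (l 3))) (l 3)) (a (b (a (l 16771160) (l 119353236215)) (a (l 16798648) (b (l 16886848) (l 16851968)))) (b (l 3) (a (b (l 16967968) (l 16927848)) (a (l 217600727207) (l 3)))))) (l 3)) (a (b (a (b (a (l 16754336) (l 16804248)) (a (l 16705624) (l 16751304))) (b (a (b (l 16888768) (l 16853800)) (b (a (l 16936000) (l 16945904)) (a (l 16895984) (l 16923744)))) (a (l 16810208) (b (l 16874984) (l 16844464))))) (a (a (l 16639168) (l 16681600)) (b (a (l 16758296) (b (l 16816520) (l 16789808))) (a (l 16711848) (l 16752736))))) (b (a (b (a (a (b (l 3) (l 16911440)) (l 3)) (l 3)) (b (a (a (l 16913232) (l 16896832)) (l 3)) (a (l 16891472) (a (l 162839859991) (l 421611672583))))) (l 3)) (a (a (b (b (l 16859760) (l 16830248)) (b (l 16802784) (l 16775944))) (b (b (a (l 16884400) (l 171429748087)) (l 16856928)) (b (l 16826496) (l 16798288)))) (b (a (a (b (l 434496526119) (l 166060987847))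 (b (l 3) (a (l 232632932455) (l 519322061751)))) (l 3)) (a (b (a (l 16832400) (b (l 198273203783) (l 16825344))) (l 16824448)) (a (b (b (l 515027055287) (a (l 205789381559) (l 490867853991))) (b (a (l 16808296) (b (l 231022296071) (l 16802688))) (l 16791824))) (b (l 3) (a (b (b (l 541870562263) (a (l 16790800) (l 515027011047))) (b (a (l 16793184) (l 162302802375)) (l 16784656))) (b (l 3) (a (b (b (l 560124153431) (l 6)) (l 6)) (l 6)))))))))))), by decide +kernel⟩

theorem s3_pp_113 : ∃ t, chk3 f_pp_113 t 1 3 1 = true := ex3_a k1_pp_113 k2_pp_113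

theorem s4_pp_113 : ∃ t, chk3 f_pp_113 t 1 1 1 = true := ex3_b k0_pp_113 s3_pp_113

theorem c_pp_113 : CertB 536870912 536870912 1610612736 536870912 697932185 42949674 3 eng mog cd0q1 cd1q3 pd1 false true true .nn 1 1 3
    ndB0q1 ndB1q3 pcB1 cut_pp_113 Ext.none :=
  certB1 (fam := false) (s1 := true) (s2 := true) (a := 1) (b := 1) (c := 3) (cn := .nn) (n1 := ndB0q1) (n2 := ndB1q3) (pc := pcB1) (cut := cut_pp_113) (xt := Ext.none) (P1 := 536870912) (W1 := 536870912) (P2 := 1610612736) (W2 := 536870912) (P3 := 697932185) (W3 := 42949674) (N0 := 3) (En := eng) (mo := mog) (C1 := cd0q1) (C2 := cd1q3) (C3 := pd1)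
    rfl (fun _ => rfl) s4_pp_113

noncomputable def cut_pp_123 : Cut := Cut.of [[⟨0, 1, 0, 67108864⟩, ⟨1, 1, 0, 67108864⟩, ⟨2, 2, 0, 16777216⟩]]

noncomputable def f_pp_123 : ℕ → ℕ → ℕ → ℕ → Bool := onCell 536870912 536870912 1073741824 536870912 697932185 42949674
    (rowB 3 eng mog cd0q1 cd1q3 pd2 1 false true true .npn 1 2 3 (qsf 536870912 536870912 1610612736 536870912 2) ndB0q1 ndB1q3 pcB2 cut_pp_123 Ext.none)

def k0_pp_123 : ∃ t, chk3 f_pp_123 t 1 1 1 = true :=
  ⟨(a (b (b (a (a (b (l 16205808) (l 16178328)) (b (l 16257624) (l 16263984))) (a (b (l 16395488) (l 16366672)) (b (l 16480208) (l 16452120)))) (a (b (a (l 16182552) (l 16274160)) (a (l 16273552) (l 16360040))) (a (b (l 16351944) (l 16424040)) (b (b (b (l 16425224) (l 16416960)) (l 16414632)) (l 16479560))))) (a (b (a (b (l 16384688) (l 16477112)) (b (l 16455136) (l 16535376))) (b (l 16596712) (l 16669048))) (b (a (b (l 16511088) (l 16584600)) (b (l 16561776) (l 16627704))) (a (b (l 16657832) (l 2))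 (l 2))))) (b (a (b (a (b (a (l 16553232) (l 16592792)) (a (l 16498584) (l 16534216))) (b (a (l 16640960) (l 16679880)) (a (l 16577528) (l 16615088)))) (a (b (b (a (l 16466424) (l 16503216)) (l 16478576)) (l 16739248)) (b (b (b (l 16569560) (l 16711312)) (l 16555912)) (a (l 16579016) (l 2))))) (b (b (a (a (l 16694904) (b (l 16757944) (l 16722224))) (b (a (a (l 16764688) (l 16766528)) (a (b (l 16773856) (l 16758488)) (b (a (l 16772208) (b (l 6) (l 519791706983))) (l 512812392007)))) (a (l 16732032) (l 505296236439)))) (a (a (b (l 16664992) (l 16642016)) (b (l 16683336) (l 16643504))) (a (l 251893131127) (l 2)))) (a (b (b (b (l 16601936) (l 2)) (l 2)) (l 2)) (l 2)))) (a (b (a (b (l 16770016) (l 2)) (l 2)) (l 2)) (l 2)))), by decide +kernel⟩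

theorem c_pp_123 : CertB 536870912 536870912 1610612736 536870912 697932185 42949674 3 eng mog cd0q1 cd1q3 pd2 false true true .npn 1 2 3
    ndB0q1 ndB1q3 pcB2 cut_pp_123 Ext.none :=
  certB1 (fam := false) (s1 := true) (s2 := true) (a := 1) (b := 2) (c := 3) (cn := .npn) (n1 := ndB0q1) (n2 := ndB1q3) (pc := pcB2) (cut := cut_pp_123) (xt := Ext.none) (P1 := 536870912) (W1 := 536870912) (P2 := 1610612736) (W2 := 536870912) (P3 := 697932185) (W3 := 42949674) (N0 := 3) (En := eng) (mo := mog) (C1 := cd0q1) (C2 := cd1q3) (C3 := pd2)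
    rfl (fun _ => rfl) k0_pp_123

noncomputable def f_pp_133 : ℕ → ℕ → ℕ → ℕ → Bool := onCell 536870912 536870912 1610612736 536870912 697932185 42949674
    (rowB 3 eng mog cd0q1 cd1q3 pd3 0 false true true .dn 1 3 3 (qsf 536870912 536870912 1610612736 536870912 3) ndB0q1 ndB1q3 pcB3 Cut.none Ext.none)

def k0_pp_133 : ∃ t, chk3 f_pp_133 t 1 1 1 = true :=
  ⟨(a (b (l 1) (a (b (l 1) (a (b (l 1) (l 16691512)) (l 1))) (l 1))) (l 1)), by decide +kernel⟩

theorem c_pp_133 : CertB 536870912 536870912 1610612736 536870912 697932185 42949674 3 eng mog cd0q1 cd1q3 pd3 false true true .dn 1 3 3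
    ndB0q1 ndB1q3 pcB3 Cut.none Ext.none :=
  certB0 (fam := false) (s1 := true) (s2 := true) (a := 1) (b := 3) (c := 3) (cn := .dn) (n1 := ndB0q1) (n2 := ndB1q3) (pc := pcB3) (cut := Cut.none) (xt := Ext.none) (P1 := 536870912) (W1 := 536870912) (P2 := 1610612736) (W2 := 536870912) (P3 := 697932185) (W3 := 42949674) (N0 := 3) (En := eng) (mo := mog) (C1 := cd0q1) (C2 := cd1q3) (C3 := pd3)
    rfl k0_pp_133

noncomputable def f_pp_202_a : ℕ → ℕ → ℕ → ℕ → Bool := onCell 0 536870912 0 536870912 697932185 42949674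
    (rowB 3 eng mog cd0q2 cd1q2a pd0 0 false true true .pp 2 0 2 (qsf 0 536870912 0 536870912 0) ndB0q2 ndB1q2a pcB0 Cut.none Ext.none)

def k0_pp_202_a : ∃ t, chk3 f_pp_202_a t 1 1 1 = true :=
  ⟨(l 3), by decide +kernel⟩

theorem c_pp_202_a : CertB 0 536870912 0 536870912 697932185 42949674 3 eng mog cd0q2 cd1q2a pd0 false true true .pp 2 0 2
    ndB0q2 ndB1q2a pcB0 Cut.none Ext.none :=
  certB0 (fam := false) (s1 := true) (s2 := true) (a := 2) (b := 0) (c := 2) (cn := .pp) (n1 := ndB0q2) (n2 := ndB1q2a) (pc := pcB0) (cut := Cut.none) (xt := Ext.none) (P1 := 0) (W1 := 536870912) (P2 := 0) (W2 := 536870912) (P3 := 697932185) (W3 := 42949674) (N0 := 3) (En := eng) (mo := mog) (C1 := cd0q2) (C2 := cd1q2a) (C3 := pd0)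
    rfl k0_pp_202_a

noncomputable def f_pp_202_b : ℕ → ℕ → ℕ → ℕ → Bool := onCell 0 536870912 1239849684 370763052 697932185 42949674
    (rowB 3 eng mog cd0q2 cd1q2b pd0 0 false true true .pp 2 0 2 (qsf 0 536870912 1239849684 370763052 0) ndB0q2 ndB1q2b pcB0 Cut.none Ext.none)

def k0_pp_202_b : ∃ t, chk3 f_pp_202_b t 1 1 1 = true :=
  ⟨(l 3), by decide +kernel⟩

theorem c_pp_202_b : CertB 0 536870912 1239849684 370763052 697932185 42949674 3 eng mog cd0q2 cd1q2b pd0 false true true .pp 2 0 2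
    ndB0q2 ndB1q2b pcB0 Cut.none Ext.none :=
  certB0 (fam := false) (s1 := true) (s2 := true) (a := 2) (b := 0) (c := 2) (cn := .pp) (n1 := ndB0q2) (n2 := ndB1q2b) (pc := pcB0) (cut := Cut.none) (xt := Ext.none) (P1 := 0) (W1 := 536870912) (P2 := 1239849684) (W2 := 370763052) (P3 := 697932185) (W3 := 42949674) (N0 := 3) (En := eng) (mo := mog) (C1 := cd0q2) (C2 := cd1q2b) (C3 := pd0)
    rfl k0_pp_202_b

noncomputable def f_pp_203 : ℕ → ℕ → ℕ → ℕ → Bool := onCell 0 536870912 0 536870912 697932185 42949674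
    (rowB 3 eng mog cd0q2 cd1q3 pd0 1 false true true .up 2 0 3 (qsf 0 536870912 1610612736 536870912 0) ndB0q2 ndB1q3 pcB0 Cut.none Ext.none)

def k0_pp_203 : ∃ t, chk3 f_pp_203 t 1 1 1 = true :=
  ⟨(l 3), by decide +kernel⟩

theorem c_pp_203 : CertB 0 536870912 1610612736 536870912 697932185 42949674 3 eng mog cd0q2 cd1q3 pd0 false true true .up 2 0 3
    ndB0q2 ndB1q3 pcB0 Cut.none Ext.none :=
  certB1 (fam := false) (s1 := true) (s2 := true) (a := 2) (b := 0) (c := 3) (cn := .up) (n1 := ndB0q2) (n2 := ndB1q3) (pc := pcB0) (cut := Cut.none) (xt := Ext.none) (P1 := 0) (W1 := 536870912) (P2 := 1610612736) (W2 := 536870912) (P3 := 697932185) (W3 := 42949674) (N0 := 3) (En := eng) (mo := mog) (C1 := cd0q2) (C2 := cd1q3) (C3 := pd0)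
    rfl (fun _ => rfl) k0_pp_203

noncomputable def cut_pp_213 : Cut := Cut.of [[⟨0, 1, 0, 67108864⟩, ⟨1, 1, 0, 67108864⟩, ⟨2, 2, 0, 16777216⟩]]

noncomputable def f_pp_213 : ℕ → ℕ → ℕ → ℕ → Bool := onCell 0 536870912 1610612736 536870912 697932185 42949674
    (rowB 3 eng mog cd0q2 cd1q3 pd1 0 false true true .pnn 2 1 3 (qsf 0 536870912 1610612736 536870912 1) ndB0q2 ndB1q3 pcB1 cut_pp_213 Ext.none)

def k0_pp_213 : ∃ t, chk3 f_pp_213 t 1 1 1 = true :=
  ⟨(b (l 3) (a (l 3) (b (l 3) (a (l 3) (b (l 3) (a (l 3) (b (l 3) (b (l 3) (b (l 3) (l 6)))))))))), by decide +kernel⟩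

theorem c_pp_213 : CertB 0 536870912 1610612736 536870912 697932185 42949674 3 eng mog cd0q2 cd1q3 pd1 false true true .pnn 2 1 3
    ndB0q2 ndB1q3 pcB1 cut_pp_213 Ext.none :=
  certB0 (fam := false) (s1 := true) (s2 := true) (a := 2) (b := 1) (c := 3) (cn := .pnn) (n1 := ndB0q2) (n2 := ndB1q3) (pc := pcB1) (cut := cut_pp_213) (xt := Ext.none) (P1 := 0) (W1 := 536870912) (P2 := 1610612736) (W2 := 536870912) (P3 := 697932185) (W3 := 42949674) (N0 := 3) (En := eng) (mo := mog) (C1 := cd0q2) (C2 := cd1q3) (C3 := pd1)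
    rfl k0_pp_213

noncomputable def f_pm_001 : ℕ → ℕ → ℕ → ℕ → Bool := onCell 0 536870912 0 536870912 697932185 42949674
    (rowB 3 eng mog cd0q0 cd1q1 pd0 1 false true false .up 0 0 1 (qsf 0 536870912 536870912 536870912 0) ndB0q0 ndB1q1 pcB0 Cut.none Ext.none)

def k0_pm_001 : ∃ t, chk3 f_pm_001 t 1 1 1 = true :=
  ⟨(a (l 4) (b (l 4) (b (a (l 4) (a (l 4) (a (b (l 4) (b (b (l 4) (l 45868555687)) (b (a (l 4) (l 16550848)) (a (l 16531200) (l 16508552))))) (b (b (b (l 4) (l 32446914983)) (b (a (l 4) (l 16553304)) (a (l 16581208) (l 16520688)))) (b (a (b (l 16529032) (l 16510552)) (l 16488288)) (b (a (l 16494448) (l 16465552)) (l 16459432))))))) (a (a (l 4) (l 4)) (b (a (a (l 4) (b (b (l 4) (a (l 4) (l 16548672))) (a (b (l 4) (l 16541168)) (b (l 16522504) (l 16496840))))) (b (a (a (b (l 16527136) (l 16504192)) (l 16519464)) (b (l 16436648) (a (l 16429872) (l 16396072)))) (a (a (b (l 16481392) (l 16456984)) (b (l 16442944) (l 16418536))) (a (a (l 16402792) (l 16384776))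 (l 16359424))))) (a (b (a (a (l 4) (b (l 16559120) (l 16533736))) (a (b (l 16512752) (l 16485584)) (b (l 16471368) (l 16445848)))) (a (b (a (b (l 4) (l 16535848)) (a (l 16509488) (l 16488984))) (a (b (l 16520344) (l 16505496)) (l 16472568))) (a (b (l 16459584) (l 16434672)) (b (l 16421104) (l 16398000))))) (b (a (b (a (l 16432008) (l 16394072)) (a (l 16407424) (l 16370656))) (a (l 16367776) (b (l 16325352) (l 16324976)))) (a (b (a (l 16384224) (l 16349480)) (a (l 16363464) (a (l 16339680) (l 16323592)))) (a (b (a (l 16325544) (l 16308616)) (l 16298584)) (b (l 16285872) (l 16269232))))))))))), by decide +kernel⟩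

theorem c_pm_001 : CertB 0 536870912 536870912 536870912 697932185 42949674 3 eng mog cd0q0 cd1q1 pd0 false true false .up 0 0 1
    ndB0q0 ndB1q1 pcB0 Cut.none Ext.none :=
  certB1 (fam := false) (s1 := true) (s2 := false) (a := 0) (b := 0) (c := 1) (cn := .up) (n1 := ndB0q0) (n2 := ndB1q1) (pc := pcB0) (cut := Cut.none) (xt := Ext.none) (P1 := 0) (W1 := 536870912) (P2 := 536870912) (W2 := 536870912) (P3 := 697932185) (W3 := 42949674) (N0 := 3) (En := eng) (mo := mog) (C1 := cd0q0) (C2 := cd1q1) (C3 := pd0)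
    rfl (fun _ => rfl) k0_pm_001

noncomputable def f_pm_011 : ℕ → ℕ → ℕ → ℕ → Bool := onCell 0 536870912 536870912 536870912 697932185 42949674
    (rowB 3 eng mog cd0q0 cd1q1 pd1 0 false true false .pnn 0 1 1 (qsf 0 536870912 536870912 536870912 1) ndB0q0 ndB1q1 pcB1 Cut.none Ext.none)

def k0_pm_011 : ∃ t, chk3 f_pm_011 t 1 1 1 = true :=
  ⟨(a (b (l 4) (a (l 4) (b (l 4) (b (l 4) (a (l 4) (b (a (l 4) (b (l 4) (a (l 4) (l 16545680)))) (a (b (l 4) (a (b (l 4) (l 16543904)) (b (l 57679478519) (l 16523200)))) (b (a (b (l 4) (l 16530096)) (a (l 16522488) (l 16513248))) (a (b (l 16516960) (l 16505192)) (l 16493752)))))))))) (b (l 4) (a (b (l 4) (a (b (a (l 4) (b (l 4) (b (l 4) (a (l 4) (l 16512776))))) (b (a (b (a (l 4) (l 16531720)) (a (l 16525688) (l 16506000))) (a (b (l 16510224) (l 16485976)) (l 16518840))) (a (b (a (l 16499904) (l 16460840)) (l 16478480)) (b (l 16474064) (l 16432096))))) (b (b (a (a (l 4) (b (l 4) (l 16520152))) (b (a (l 4) (l 16532584)) (a (l 16499440)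 (l 16503712)))) (a (a (b (l 16515584) (l 16489992)) (l 16540904)) (a (l 16481656) (l 16443944)))) (b (a (a (l 16455552) (l 16434200)) (c (l 16478168) (l 16475352))) (a (b (l 16413888) (l 16395088)) (a (l 16396576) (l 16399872))))))) (b (a (a (a (a (a (l 4) (l 1)) (l 1)) (l 1)) (l 1)) (l 1)) (a (b (b (a (b (a (l 16497056) (l 16483112)) (a (l 16468824) (l 16454968))) (b (l 1) (a (l 16440800) (l 1)))) (a (a (l 16450024) (l 16477752)) (b (l 42982627175) (l 16422224)))) (b (a (a (l 16402704) (l 16366608)) (b (l 16376976) (l 16354728))) (a (b (l 16343064) (l 16324792)) (b (l 16354872) (l 16295192))))) (b (b (l 1) (a (a (l 30097657799) (l 1)) (l 1))) (b (a (b (l 16348160) (a (l 16312184) (l 16297752))) (b (l 1) (l 41371767495))) (a (b (l 16284888) (l 16267296)) (a (l 16255384) (l 16242096)))))))))), by decide +kernel⟩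

theorem c_pm_011 : CertB 0 536870912 536870912 536870912 697932185 42949674 3 eng mog cd0q0 cd1q1 pd1 false true false .pnn 0 1 1
    ndB0q0 ndB1q1 pcB1 Cut.none Ext.none :=
  certB0 (fam := false) (s1 := true) (s2 := false) (a := 0) (b := 1) (c := 1) (cn := .pnn) (n1 := ndB0q0) (n2 := ndB1q1) (pc := pcB1) (cut := Cut.none) (xt := Ext.none) (P1 := 0) (W1 := 536870912) (P2 := 536870912) (W2 := 536870912) (P3 := 697932185) (W3 := 42949674) (N0 := 3) (En := eng) (mo := mog) (C1 := cd0q0) (C2 := cd1q1) (C3 := pd1)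
    rfl k0_pm_011

noncomputable def cut_pm_012_a : Cut := Cut.of [[⟨0, 0, 0, 67108864⟩, ⟨1, 1, 0, 67108864⟩, ⟨2, 1, 0, 67108864⟩]]

noncomputable def f_pm_012_a : ℕ → ℕ → ℕ → ℕ → Bool := onCell 0 536870912 0 536870912 697932185 42949674
    (rowB 3 eng mog cd0q0 cd1q2a pd1 0 false true false .pnp 0 1 2 (qsf 0 536870912 0 536870912 1) ndB0q0 ndB1q2a pcB1 cut_pm_012_a Ext.none)

def k0_pm_012_a : ∃ t, chk3 f_pm_012_a t 2 2 1 = true :=
  ⟨(a (b (l 2) (a (l 2) (a (l 2) (b (l 2) (a (l 2) (b (l 2) (a (l 2) (b (a (l 2) (l 16453920)) (a (l 16459024) (l 16438680)))))))))) (a (b (a (a (l 2) (b (l 16468280) (b (l 16457864) (l 16446128)))) (b (l 16467808) (b (l 16480160) (l 16450880)))) (a (b (a (b (l 16433496) (a (l 2) (b (l 16430768) (l 16429576)))) (b (l 16437600) (b (l 16433552) (l 16432184)))) (b (a (b (a (b (l 16427400) (l 16427768)) (l 16429496)) (a (a (l 16429472) (l 16430368)) (l 16431584))) (b (a (l 16431152) (l 16432560)) (a (l 16432992) (l 16434152)))) (a (b (a (l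 16455056) (l 16435424)) (a (l 16439544) (l 16440512))) (b (a (l 16436504) (l 16437336)) (a (l 16441232) (l 16441704)))))) (b (b (a (l 16440736) (l 16442976)) (a (l 16435632) (l 16437456))) (b (a (b (l 16434216) (l 16435432)) (b (l 16435600) (l 16436312))) (a (b (l 16438128) (l 16441944)) (b (l 16438360) (l 16441448))))))) (b (a (b (a (l 16467656) (l 16468904)) (b (l 16458744) (a (l 16453456) (l 16453864)))) (b (a (l 16471792) (l 16476256)) (a (b (l 16459832) (l 16454728)) (l 16480888)))) (b (a (b (a (l 16444504) (l 16446200)) (a (l 16459496) (l 16460696))) (b (a (l 16448768) (b (l 16453096) (l 16449464))) (a (l 16462576) (l 16444208)))) (a (b (a (b (l 16436200) (l 16436400)) (b (l 16457896) (l 16436592))) (a (b (l 16437792) (l 16440144)) (b (l 16437336) (l 16438960)))) (b (a (b (l 16459280) (l 16437456)) (b (l 16440400) (l 16439032))) (a (b (l 16437544) (l 16438448)) (b (l 16438480) (l 16438680))))))))), by decide +kernel⟩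

def k1_pm_012_a : ∃ t, chk3 f_pm_012_a t 4 3 1 = true :=
  ⟨(b (a (l 2) (a (b (l 2) (a (b (l 2) (a (l 2) (b (l 16526392) (l 16544432)))) (b (a (l 16499160) (b (l 16490480) (l 16506296))) (b (l 16524048) (l 16541152))))) (b (a (b (a (l 2) (b (l 2) (l 16452912))) (a (b (l 2) (l 16476048)) (b (l 16463720) (l 16475824)))) (b (a (b (a (l 16444352) (l 16444856)) (l 16453552)) (b (l 16445536) (l 16454032))) (b (l 16463872) (l 16475160)))) (b (a (b (l 16489488) (l 16504368)) (b (l 16487544) (l 16501168))) (a (l 16507264) (l 16523104)))))) (a (a (b (l 2) (l 6)) (a (b (b (l 2) (l 6)) (l 6)) (a (b (b (l 2) (l 6)) (l 6)) (b (b (b (l 2) (l 16589912)) (b (l 16609720) (l 16630288))) (a (l 6) (b (l 16662032) (b (l 16679872) (b (l 16688208) (l 16693552))))))))) (b (a (b (b (a (a (l 16566224) (l 16563664)) (l 16559400)) (a (b (l 16580536) (l 16590384)) (l 16536760))) (a (b (l 16604376) (l 16624080)) (l 16605736))) (b (b (l 16528640) (l 16566624)) (l 16612392))) (b (a (a (b (l 16645040)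 (l 16657744)) (b (l 16631712) (l 16641720))) (b (l 16610360) (a (l 16626528) (l 16612120)))) (a (b (a (a (l 16673216) (l 16664592)) (l 16673032)) (b (a (l 16697792) (l 16659448)) (a (b (l 16701640) (a (l 16687808) (l 16678648))) (b (l 16663008) (l 16686296))))) (b (a (l 16636104) (l 16620936)) (a (b (l 16642920) (l 16668232)) (b (l 16627184) (l 16631152))))))))), by decide +kernel⟩

def k2_pm_012_a : ∃ t, chk3 f_pm_012_a t 5 3 1 = true :=
  ⟨(b (a (b (a (b (a (b (a (l 16446296) (l 16446864)) (l 16454416)) (b (l 16447232) (l 16454144))) (a (b (l 16463480) (l 16473688)) (b (l 16462216) (l 16471352)))) (b (a (b (l 16446872) (l 16452880)) (b (l 16445560) (l 16450680))) (a (l 16464040) (l 16460320)))) (a (b (a (l 16491160) (l 16487064)) (a (l 16517320) (l 16510680))) (b (a (l 16482000) (l 16476016)) (a (l 16503088) (l 16494608))))) (b (a (b (a (b (l 16443448) (l 16447672)) (b (l 16441448) (l 16444792))) (a (l 16455816) (l 16451456))) (b (a (b (l 16440152) (l 16442624))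 (b (l 16439600) (l 16441216))) (a (l 16447832) (l 16444984)))) (a (b (a (l 16469272) (l 16462696)) (a (l 16485392) (l 16476392))) (b (a (l 16456888) (l 16451904)) (a (l 16468184) (l 16461304)))))) (b (a (a (b (b (l 16534048) (l 16548224)) (l 16591000)) (b (l 16520992) (l 16565856))) (a (b (a (l 16503592) (l 16492080)) (b (l 16511600) (l 16521832))) (b (a (l 16481792) (l 16474328)) (b (a (l 16494000) (l 16486088)) (l 16499280))))) (a (b (a (a (l 16594672) (l 16582256)) (l 16575896)) (a (b (a (l 16606504) (l 16592984)) (a (l 16614016) (l 16599752))) (a (b (l 16580448) (l 16586464)) (b (l 16568560) (b (l 16572064) (l 16573784)))))) (a (a (b (l 16545672) (b (l 16555896) (l 16558592))) (b (l 16531520) (b (l 16542280) (l 16544288)))) (b (a (l 16519040) (l 16506976)) (b (l 16521280) (a (l 16529704) (l 16514816)))))))), by decide +kernel⟩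

def k3_pm_012_a : ∃ t, chk3 f_pm_012_a t 6 2 1 = true :=
  ⟨(b (a (a (b (a (l 16482120) (l 16509776)) (a (b (l 16466872) (l 16459800)) (b (l 16471864) (l 16463552)))) (b (a (b (l 16502664) (l 16488928)) (b (l 16510760) (l 16495944))) (a (b (l 16477312) (l 16467736)) (b (l 16483144) (l 16472304))))) (a (b (a (b (l 16519704) (a (l 16501648) (l 16506240))) (b (l 16531664) (l 16515440))) (a (b (a (l 16487960) (l 16492464)) (a (l 16476432) (l 16481104))) (b (l 16501384) (b (l 16492184) (l 16486944))))) (b (a (b (l 16545384) (l 16528808)) (b (l 16560096) (l 16543160))) (a (b (l 16514248) (c (l 16510240) (l 16493104))) (b (l 16528080) (l 16514984)))))) (a (b (a (b (a (l 16475024) (l 16456840)) (a (l 16447416) (l 16471880))) (b (a (l 16460160) (l 16463424)) (a (b (l 16455248) (l 16451680)) (b (l 16457824) (a (l 16453800) (l 16456152)))))) (a (b (a (b (l 16443104) (l 16441232)) (b (l 16445864) (l 16443480))) (a (b (l 16440056) (l 16439552)) (l 16483072))) (b (a (b (l 16448344)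 (l 16445464)) (b (a (l 16450328) (l 16453536)) (l 16449664))) (a (a (l 16441944) (b (l 16443680) (l 16442560))) (l 16447600))))) (b (a (b (a (b (l 16471728) (l 16467968)) (l 16480280)) (a (b (l 16464912) (l 16462192)) (l 16473264))) (a (b (l 16512712) (l 16483832)) (b (l 16504176) (l 16495376)))) (a (b (a (b (l 16460032) (l 16457384)) (b (l 16469216) (l 16466072))) (a (l 16454312) (l 16461864))) (b (a (b (l 16478864) (l 16475904)) (l 16529592)) (a (l 16470320) (l 16479576))))))), by decide +kernel⟩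

def k4_pm_012_a : ∃ t, chk3 f_pm_012_a t 7 2 1 = true :=
  ⟨(b (a (b (a (b (l 16582064) (l 16564568)) (b (a (l 16603024) (l 16616184)) (l 16591072))) (a (b (a (l 16541968) (l 16555240)) (a (l 16528208) (l 16540800))) (b (l 16574104) (l 16558632)))) (b (a (b (a (l 16628240) (l 16640960)) (a (l 16609840) (l 16622488))) (b (l 16701456) (a (l 16654656) (l 16645248)))) (a (b (l 16597880) (l 16581016)) (b (a (l 16615032) (l 16626976)) (a (l 16597160) (l 16607984)))))) (a (b (a (b (a (l 16516640) (l 16528464)) (l 16512480)) (b (l 16545120) (l 16533112))) (a (b (a (l 16498192) (l 16508232)) (l 16514232)) (b (l 16521736) (l 16507624)))) (b (a (b (l 16565928) (l 16552040)) (b (l 16607024) (l 16570448))) (a (b (l 16538360) (l 16521072)) (b (l 16554600) (l 16534160)))))), by decide +kernel⟩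

def k5_pm_012_a : ∃ t, chk3 f_pm_012_a t 3 3 1 = true :=
  ⟨(a (b (a (b (a (b (a (b (l 16439704) (l 16440480)) (b (l 16439904) (l 16439944))) (a (l 16442848) (b (l 16440944) (l 16442904)))) (b (a (b (l 16441568) (l 16442072)) (l 16446552)) (a (l 16444256) (l 16446944)))) (a (b (a (l 16448392) (l 16447656)) (a (l 16457416) (l 16455264))) (b (a (l 16448136) (l 16448240)) (l 16451256)))) (b (a (b (a (l 16451456) (l 16457184)) (a (l 16449672) (l 16453208))) (b (a (l 16463792) (l 16471112)) (a (l 16457544) (l 16462464)))) (a (b (l 16448792) (l 16446120)) (b (l 16452056) (l 16443048))))) (a (b (a (b (l 16487280) (b (l 16474544) (l 16543472))) (b (l 16454992) (l 16459576))) (a (b (a (l 16495120) (l 16483040)) (b (l 16492728) (a (l 16499752) (l 16484896)))) (b (l 16464320) (b (l 16464864) (a (l 16470344) (l 16455912)))))) (b (a (b (l 16443520) (l 16420704)) (b (a (l 16435952) (l 16430832)) (l 16424608))) (a (b (l 16439624) (b (l 16437000) (a (l 16441360) (l 16426624)))) (b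 (b (l 16417112) (l 16413088)) (a (b (l 16416168) (l 16412184)) (l 16463976))))))) (b (a (b (a (b (l 16481424) (l 16469008)) (b (l 16492488) (l 16475000))) (a (b (l 16454944) (l 16438840)) (b (l 16454816) (l 16431432)))) (b (a (b (l 16502136) (l 16479360)) (b (l 16510208) (l 16482480))) (a (l 16417128) (l 16409616)))) (b (a (a (b (l 16421448) (l 16404336)) (l 16458008)) (a (b (l 16390056) (l 16373432)) (b (l 16379576) (l 16359928)))) (a (b (a (l 16456328) (b (l 16377440) (l 16371272))) (a (b (l 16385920) (l 16411792)) (b (l 16365208) (a (l 16363688) (l 16353168))))) (b (a (b (l 16360744) (l 16353392)) (b (l 16344928) (l 16336416))) (b (a (l 16346072) (l 16348632)) (a (a (l 16343008) (l 16333072)) (a (l 16323176) (l 16313584))))))))), by decide +kernel⟩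

theorem s6_pm_012_a : ∃ t, chk3 f_pm_012_a t 3 2 1 = true := ex3_a k3_pm_012_a k4_pm_012_a

theorem s7_pm_012_a : ∃ t, chk3 f_pm_012_a t 3 1 1 = true := ex3_b s6_pm_012_a k5_pm_012_a

theorem s8_pm_012_a : ∃ t, chk3 f_pm_012_a t 2 3 1 = true := ex3_a k1_pm_012_a k2_pm_012_a

theorem s9_pm_012_a : ∃ t, chk3 f_pm_012_a t 2 1 1 = true := ex3_b k0_pm_012_a s8_pm_012_a

theorem s10_pm_012_a : ∃ t, chk3 f_pm_012_a t 1 1 1 = true := ex3_a s9_pm_012_a s7_pm_012_a

theorem c_pm_012_a : CertB 0 536870912 0 536870912 697932185 42949674 3 eng mog cd0q0 cd1q2a pd1 false true false .pnp 0 1 2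
    ndB0q0 ndB1q2a pcB1 cut_pm_012_a Ext.none :=
  certB0 (fam := false) (s1 := true) (s2 := false) (a := 0) (b := 1) (c := 2) (cn := .pnp) (n1 := ndB0q0) (n2 := ndB1q2a) (pc := pcB1) (cut := cut_pm_012_a) (xt := Ext.none) (P1 := 0) (W1 := 536870912) (P2 := 0) (W2 := 536870912) (P3 := 697932185) (W3 := 42949674) (N0 := 3) (En := eng) (mo := mog) (C1 := cd0q0) (C2 := cd1q2a) (C3 := pd1)
    rfl s10_pm_012_a

noncomputable def cut_pm_012_b : Cut := Cut.of [[⟨0, 0, 0, 67108864⟩, ⟨1, 1, 0, 67108864⟩, ⟨2, 1, 0, 67108864⟩]]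

noncomputable def f_pm_012_b : ℕ → ℕ → ℕ → ℕ → Bool := onCell 0 536870912 1239849684 370763052 697932185 42949674
    (rowB 3 eng mog cd0q0 cd1q2b pd1 0 false true false .pnp 0 1 2 (qsf 0 536870912 1239849684 370763052 1) ndB0q0 ndB1q2b pcB1 cut_pm_012_b Ext.none)

def k0_pm_012_b : ∃ t, chk3 f_pm_012_b t 2 1 1 = true :=
  ⟨(a (l 2) (b (b (b (a (a (a (l 2) (l 16463848)) (a (b (l 16448544) (l 2)) (b (l 16449336) (l 16397488)))) (a (a (b (l 16450640) (l 16399448)) (l 16428128)) (a (l 16453832) (l 16502184)))) (a (l 2) (a (a (l 16321976) (l 16326296)) (a (l 16374536) (l 16340744))))) (a (l 2) (a (l 2) (b (a (l 2) (l 16240592)) (l 2))))) (l 2))), by decide +kernel⟩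

def k1_pm_012_b : ∃ t, chk3 f_pm_012_b t 3 1 1 = true :=
  ⟨(a (b (a (b (a (b (a (b (l 16470864) (l 16423256)) (b (l 16479112) (l 16432568))) (a (l 16350504) (l 16361312))) (b (a (b (l 16487872) (l 16442480)) (b (l 16497096) (l 16452920))) (a (l 16372856) (l 16385064)))) (a (b (a (l 16251888) (l 16264472)) (l 2)) (b (a (l 16278056) (l 16292512)) (a (l 16182136) (l 16198600))))) (b (b (a (b (a (l 16507128) (b (l 16529776) (l 16508512))) (a (l 16464184) (l 16476936))) (b (a (l 16533592) (l 16549400)) (a (l 16491600) (l 16508440)))) (a (a (l 16398160) (l 16412664)) (a (l 16428640) (l 16446120)))) (a (b (a (l 16307976) (l 16324744)) (l 16225656)) (b (a (l 16342768) (l 16361960)) (l 16265528))))) (a (l 2) (b (a (b (l 16134784) (l 2)) (b (l 16178016) (l 16091096))) (l 2)))) (b (b (a (b (a (b (l 16594000) (l 16534816)) (b (a (l 16595704) (l 16609424)) (l 16568808))) (a (b (l 16494704) (l 16453712)) (l 16554576))) (b (a (b (l 16630400) (l 16599456)) (a (l 16657816) (l 16692880)))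 (a (b (l 16566864) (l 16532912)) (l 16585712)))) (a (a (b (l 16391944) (l 16308336)) (b (b (l 16453592) (l 16413496)) (l 16353168))) (b (a (b (l 16496592) (l 16458144)) (l 16562072)) (a (l 16421136) (b (l 16468272) (l 16430936)))))) (a (b (a (b (l 16223704) (l 16139032)) (b (l 16271848) (l 16190280))) (b (a (l 2) (l 16109488)) (l 2))) (b (a (b (l 16322464) (l 16244544)) (b (l 16375328) (l 16301368))) (a (b (l 16167200) (l 16091536)) (b (l 16227976) (l 16156048))))))), by decide +kernel⟩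

theorem s2_pm_012_b : ∃ t, chk3 f_pm_012_b t 1 1 1 = true := ex3_a k0_pm_012_b k1_pm_012_b

theorem c_pm_012_b : CertB 0 536870912 1239849684 370763052 697932185 42949674 3 eng mog cd0q0 cd1q2b pd1 false true false .pnp 0 1 2
    ndB0q0 ndB1q2b pcB1 cut_pm_012_b Ext.none :=
  certB0 (fam := false) (s1 := true) (s2 := false) (a := 0) (b := 1) (c := 2) (cn := .pnp) (n1 := ndB0q0) (n2 := ndB1q2b) (pc := pcB1) (cut := cut_pm_012_b) (xt := Ext.none) (P1 := 0) (W1 := 536870912) (P2 := 1239849684) (W2 := 370763052) (P3 := 697932185) (W3 := 42949674) (N0 := 3) (En := eng) (mo := mog) (C1 := cd0q0) (C2 := cd1q2b) (C3 := pd1)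
    rfl s2_pm_012_b

noncomputable def cut_pm_022_a : Cut := Cut.of [[⟨0, 0, 0, 67108864⟩, ⟨1, 1, 0, 67108864⟩, ⟨2, 1, 0, 67108864⟩]]

noncomputable def f_pm_022_a : ℕ → ℕ → ℕ → ℕ → Bool := onCell 1073741824 536870912 0 536870912 697932185 42949674
    (rowB 3 eng mog cd0q0 cd1q2a pd2 2 false true false .pp 0 2 2 (qsf 0 536870912 0 536870912 2) ndB0q0 ndB1q2a pcB2 cut_pm_022_a Ext.none)

def k0_pm_022_a : ∃ t, chk3 f_pm_022_a t 2 2 1 = true :=
  ⟨(a (b (a (b (a (l 16468448) (l 16465352)) (a (b (l 16419144) (l 16449872)) (b (l 16456848) (l 16451000)))) (b (a (l 16481648) (l 16491800)) (a (l 16453600) (l 16454304)))) (a (b (a (b (a (l 16440504) (l 16443592)) (a (b (l 16435960) (l 16434256)) (l 16440696))) (b (l 16448088) (a (l 16446120) (l 16451496)))) (a (a (b (b (a (l 16431736) (l 16435536)) (a (l 16433120) (l 16437552))) (a (b (c (l 16441376) (l 16431520)) (c (l 16446256) (l 16436576))) (b (l 16441584) (l 16447200)))) (b (b (l 16441104) (l 16444072)) (a (b (l 16446576)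 (l 16452824)) (l 16454888)))) (b (a (b (l 16448336) (l 16452520)) (b (l 16455456) (l 16460824))) (a (b (l 16458704) (l 16466464)) (b (l 16468160) (l 16477064)))))) (b (a (b (l 16454416) (a (l 16456904) (l 16462336))) (b (a (l 16459536) (l 16463240)) (a (l 16467872) (l 16473600)))) (a (b (a (b (l 16462528) (l 16468960)) (b (l 16469544) (l 16477032))) (a (b (l 16477400) (l 16487384)) (a (l 16489600) (l 16515400)))) (b (a (b (l 16476640) (l 16485184)) (b (l 16483904) (l 16493464))) (a (a (l 16520272) (l 16525168)) (c (a (l 16529976) (l 16513568)) (l 16533008)))))))) (a (b (a (b (b (l 16449640) (l 16449672)) (l 16456512)) (b (l 1) (l 1))) (a (a (b (b (l 16467216) (l 16479504)) (b (b (l 16491264) (l 16501800)) (a (l 97743627879) (l 1)))) (b (l 543883283015) (l 1))) (l 1))) (l 1))), by decide +kernel⟩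

def k1_pm_022_a : ∃ t, chk3 f_pm_022_a t 4 6 1 = true :=
  ⟨(a (a (b (b (a (a (b (c (l 16452776) (l 16443352)) (c (l 16461048) (l 16451968))) (b (l 16454496) (l 16463576))) (b (a (l 16460744) (l 16466880)) (a (l 16470456) (l 16477208)))) (a (b (a (l 16466896) (l 16474568)) (a (l 16479160) (l 16487464))) (b (a (l 16482072) (l 16489424)) (l 16499592)))) (b (a (b (a (l 16493328) (l 16502264)) (l 16514552)) (b (l 16536296) (l 16533248))) (a (b (l 16533352) (l 16552984)) (b (l 16553144) (l 16594896))))) (a (b (b (a (l 16478344) (l 16505576)) (b (a (l 16496664) (l 16503760)) (l 16536176))) (b (b (l 16532000) (l 16572024)) (a (b (l 16567392) (l 16588968)) (l 16587688)))) (b (b (b (l 16487632) (l 16520904)) (b (l 16535112) (l 16551160))) (b (b (l 16569056) (a (l 16563944) (l 16572424))) (a (l 16597112) (l 16613248)))))) (b (a (b (a (b (l 16499008) (l 16533368)) (b (l 16531224) (a (l 16521632) (l 16527808)))) (b (a (a (l 16524288) (l 16531000)) (a (l 16537712) (l 16544432)))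 (a (c (l 16566312) (l 16565264)) (a (l 16555680) (l 16562960))))) (a (b (b (c (l 16542584) (l 16521704)) (a (l 16523536) (l 16540240))) (a (b (l 16551192) (l 123513462919)) (b (l 155188836327) (l 437046045911)))) (b (a (b (l 16530120) (l 144988276807)) (b (l 137472071111) (l 1))) (l 1)))) (a (b (a (b (a (l 16559888) (l 16567720)) (a (l 16580848) (l 16585904))) (a (b (l 16575544) (l 215855257543)) (b (l 176663687767) (l 275984795735)))) (a (a (b (l 16596400) (l 16608016)) (b (b (l 16592808) (l 16598120)) (l 237867036871))) (b (a (b (l 16601800) (l 274374240631)) (l 1)) (l 1)))) (b (a (b (a (l 412886875783) (l 1)) (l 1)) (l 1)) (l 1))))), by decide +kernel⟩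

def k2_pm_022_a : ∃ t, chk3 f_pm_022_a t 4 7 1 = true :=
  ⟨(a (b (b (b (a (a (l 16616808) (a (l 16591496) (l 16602248))) (a (l 16618040) (a (l 16621576) (l 16621120)))) (b (a (a (l 16592888) (l 16615736)) (a (l 16631392) (a (l 16631344) (l 236793353639)))) (a (l 6) (a (l 6) (a (l 6) (l 299070372935)))))) (a (l 6) (a (l 6) (a (l 6) (a (l 6) (l 1)))))) (a (l 6) (a (l 6) (l 1)))) (b (a (b (a (b (a (b (l 16616984) (l 265784361239)) (l 423624385879)) (a (b (l 420403182231) (l 1)) (l 1))) (l 1)) (l 1)) (l 1)) (l 1))), by decide +kernel⟩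

def k3_pm_022_a : ∃ t, chk3 f_pm_022_a t 5 3 1 = true :=
  ⟨(b (l 1) (l 1)), by decide +kernel⟩

def k4_pm_022_a : ∃ t, chk3 f_pm_022_a t 3 1 1 = true :=
  ⟨(l 1), by decide +kernel⟩

theorem s5_pm_022_a : ∃ t, chk3 f_pm_022_a t 4 3 1 = true := ex3_b k1_pm_022_a k2_pm_022_a

theorem s6_pm_022_a : ∃ t, chk3 f_pm_022_a t 2 3 1 = true := ex3_a s5_pm_022_a k3_pm_022_a

theorem s7_pm_022_a : ∃ t, chk3 f_pm_022_a t 2 1 1 = true := ex3_b k0_pm_022_a s6_pm_022_a

theorem s8_pm_022_a : ∃ t, chk3 f_pm_022_a t 1 1 1 = true := ex3_a s7_pm_022_a k4_pm_022_a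

theorem c_pm_022_a : CertB 0 536870912 0 536870912 697932185 42949674 3 eng mog cd0q0 cd1q2a pd2 false true false .pp 0 2 2
    ndB0q0 ndB1q2a pcB2 cut_pm_022_a Ext.none :=
  certB2 (fam := false) (s1 := true) (s2 := false) (a := 0) (b := 2) (c := 2) (cn := .pp) (n1 := ndB0q0) (n2 := ndB1q2a) (pc := pcB2) (cut := cut_pm_022_a) (xt := Ext.none) (P1 := 0) (W1 := 536870912) (P2 := 0) (W2 := 536870912) (P3 := 697932185) (W3 := 42949674) (N0 := 3) (En := eng) (mo := mog) (C1 := cd0q0) (C2 := cd1q2a) (C3 := pd2)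
    rfl (fun _ => rfl) s8_pm_022_a

noncomputable def cut_pm_022_b : Cut := Cut.of [[⟨0, 0, 0, 67108864⟩, ⟨1, 1, 0, 67108864⟩, ⟨2, 1, 0, 67108864⟩]]

noncomputable def f_pm_022_b : ℕ → ℕ → ℕ → ℕ → Bool := onCell 0 536870912 1073741824 536870912 697932185 42949674
    (rowB 3 eng mog cd0q0 cd1q2b pd2 1 false true false .pp 0 2 2 (qsf 0 536870912 1239849684 370763052 2) ndB0q0 ndB1q2b pcB2 cut_pm_022_b Ext.none)

def k0_pm_022_b : ∃ t, chk3 f_pm_022_b t 1 1 1 = true :=
  ⟨(b (a (a (b (a (b (l 1) (a (b (l 1) (l 166463010119)) (b (l 167536756183) (l 16454240)))) (b (a (l 202433415143) (b (l 16548016) (l 16466680))) (a (b (l 16461208) (l 16385776)) (b (l 16413208) (l 16322016))))) (b (a (a (b (b (l 16466424) (l 16427528)) (b (l 16390056) (l 16363120))) (b (l 16399328) (b (l 16324632) (l 16300024)))) (b (a (l 16356328) (l 16255592)) (a (b (l 16263816) (l 16241728)) (l 16240872)))) (a (a (l 16411208) (l 16307088)) (b (l 16232136) (l 16150400))))) (b (a (a (b (b (l 16469680)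 (l 16417872)) (l 16358552)) (b (l 16448280) (l 16240744))) (b (a (l 16343656) (l 16247968)) (a (l 16193560) (l 16155032)))) (b (a (b (l 16221016) (a (l 16151264) (l 16111752))) (a (b (l 16120824) (l 16082496)) (l 16224024))) (a (b (l 16109440) (l 16084736)) (a (l 16069424) (l 16061584)))))) (a (b (a (b (a (l 16204024) (l 16169168)) (a (l 16124616) (l 16103120))) (b (a (l 16143936) (l 16126376)) (a (l 16090696) (l 16082432)))) (a (b (b (l 16066192) (l 16086888)) (l 16104304)) (b (a (l 16050144) (l 16050640)) (l 16081888)))) (b (a (b (l 16131784) (l 16077216)) (b (l 16140352) (l 16101072))) (b (a (l 16055200) (l 2)) (l 2))))) (a (b (a (b (a (a (l 16155048) (l 16127464)) (l 16125008)) (a (b (l 16066800) (l 16029152)) (l 16040288))) (b (a (l 16033032) (l 16037168)) (a (l 15989864) (l 15982888)))) (a (b (a (l 16032400) (l 15997640)) (a (l 15963208) (l 15996120))) (b (a (l 16009240) (l 2)) (l 2)))) (b (a (a (b (l 16073896) (l 2)) (l 2)) (l 2)) (l 2)))), by decide +kernel⟩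

theorem c_pm_022_b : CertB 0 536870912 1239849684 370763052 697932185 42949674 3 eng mog cd0q0 cd1q2b pd2 false true false .pp 0 2 2
    ndB0q0 ndB1q2b pcB2 cut_pm_022_b Ext.none :=
  certB1 (fam := false) (s1 := true) (s2 := false) (a := 0) (b := 2) (c := 2) (cn := .pp) (n1 := ndB0q0) (n2 := ndB1q2b) (pc := pcB2) (cut := cut_pm_022_b) (xt := Ext.none) (P1 := 0) (W1 := 536870912) (P2 := 1239849684) (W2 := 370763052) (P3 := 697932185) (W3 := 42949674) (N0 := 3) (En := eng) (mo := mog) (C1 := cd0q0) (C2 := cd1q2b) (C3 := pd2)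
    rfl (fun _ => rfl) k0_pm_022_b

noncomputable def f_pm_023 : ℕ → ℕ → ℕ → ℕ → Bool := onCell 0 536870912 1073741824 536870912 697932185 42949674
    (rowB 3 eng mog cd0q0 cd1q3 pd2 1 false true false .up 0 2 3 (qsf 0 536870912 1610612736 536870912 2) ndB0q0 ndB1q3 pcB2 Cut.none Ext.none)

def k0_pm_023 : ∃ t, chk3 f_pm_023 t 1 1 1 = true :=
  ⟨(b (a (a (l 1) (b (l 1) (b (l 1) (a (l 1) (l 332355725143))))) (a (b (a (l 1) (a (l 1) (l 139619107063))) (a (b (l 259878135959) (l 16104480)) (b (a (l 16050424) (l 16050648)) (l 16080968)))) (b (a (b (l 16237976) (l 16077544)) (b (l 16161832) (l 16099496))) (b (a (l 16054072) (l 16089600)) (a (l 16101520) (l 16153272)))))) (a (b (a (b (l 1) (a (l 1) (l 16038904))) (b (a (l 16034504) (l 16037520)) (a (l 15989312) (l 15980488)))) (a (b (a (l 16030888) (l 15997184)) (a (l 15962664) (l 15998048))) (b (a (l 16011176) (l 16026776)) (a (l 16043624) (l 16099256))))) (b (a (a (b (l 16072696) (l 16061656)) (b (l 16117072) (l 16139744)))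 (a (b (l 16152968) (l 16235688)) (b (l 16240792) (l 16362928)))) (a (a (b (l 16070640) (l 16260480)) (l 16194328)) (b (l 16444448) (l 16543264)))))), by decide +kernel⟩

theorem c_pm_023 : CertB 0 536870912 1610612736 536870912 697932185 42949674 3 eng mog cd0q0 cd1q3 pd2 false true false .up 0 2 3
    ndB0q0 ndB1q3 pcB2 Cut.none Ext.none :=
  certB1 (fam := false) (s1 := true) (s2 := false) (a := 0) (b := 2) (c := 3) (cn := .up) (n1 := ndB0q0) (n2 := ndB1q3) (pc := pcB2) (cut := Cut.none) (xt := Ext.none) (P1 := 0) (W1 := 536870912) (P2 := 1610612736) (W2 := 536870912) (P3 := 697932185) (W3 := 42949674) (N0 := 3) (En := eng) (mo := mog) (C1 := cd0q0) (C2 := cd1q3) (C3 := pd2)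
    rfl (fun _ => rfl) k0_pm_023

noncomputable def f_pm_033 : ℕ → ℕ → ℕ → ℕ → Bool := onCell 1610612736 536870912 1610612736 536870912 697932185 42949674
    (rowB 3 eng mog cd0q0 cd1q3 pd3 2 false true false .pnn 0 3 3 (qsf 0 536870912 1610612736 536870912 3) ndB0q0 ndB1q3 pcB3 Cut.none Ext.none)

def k0_pm_033 : ∃ t, chk3 f_pm_033 t 1 1 1 = true :=
  ⟨(a (b (a (b (a (b (l 403222262151) (l 15957160)) (b (l 518112649223) (l 420402209415))) (a (b (l 16007824) (l 16111824)) (b (l 15949864) (l 16048776)))) (l 4)) (a (b (a (b (l 16280728) (l 16415376)) (b (l 16206520) (l 16325640))) (a (b (l 16518184) (l 16585824)) (a (l 16508216) (l 16494344)))) (a (a (b (l 938684667751) (l 16467776)) (b (l 4) (l 16442152))) (l 4)))) (l 4)), by decide +kernel⟩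

theorem c_pm_033 : CertB 0 536870912 1610612736 536870912 697932185 42949674 3 eng mog cd0q0 cd1q3 pd3 false true false .pnn 0 3 3
    ndB0q0 ndB1q3 pcB3 Cut.none Ext.none :=
  certB2 (fam := false) (s1 := true) (s2 := false) (a := 0) (b := 3) (c := 3) (cn := .pnn) (n1 := ndB0q0) (n2 := ndB1q3) (pc := pcB3) (cut := Cut.none) (xt := Ext.none) (P1 := 0) (W1 := 536870912) (P2 := 1610612736) (W2 := 536870912) (P3 := 697932185) (W3 := 42949674) (N0 := 3) (En := eng) (mo := mog) (C1 := cd0q0) (C2 := cd1q3) (C3 := pd3)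
    rfl (fun _ => rfl) k0_pm_033

noncomputable def f_pm_101 : ℕ → ℕ → ℕ → ℕ → Bool := onCell 0 536870912 536870912 536870912 697932185 42949674
    (rowB 3 eng mog cd0q1 cd1q1 pd0 2 false true false .npn 1 0 1 (qsf 536870912 536870912 536870912 536870912 0) ndB0q1 ndB1q1 pcB0 Cut.none Ext.none)

def k0_pm_101 : ∃ t, chk3 f_pm_101 t 2 2 1 = true :=
  ⟨(b (l 4) (b (a (a (a (b (b (a (l 16681208) (l 4)) (a (l 16664720) (l 16670416))) (a (l 16656272) (l 16656464))) (b (a (l 50700723959) (l 4)) (a (l 16720352) (b (l 16665736) (l 16654584))))) (b (l 4) (a (a (l 35131440023) (l 47479467223)) (a (l 64122482711) (l 4))))) (l 4)) (a (a (a (b (a (l 16660808) (l 16657800)) (a (l 16678152) (l 16672312))) (b (a (l 16655168) (l 16652192)) (a (l 16667904) (l 16662544)))) (a (b (a (l 16649368) (l 16646384)) (a (l 16657472) (l 16651776))) (b (b (a (l 16647776) (l 16651064)) (l 16640296)) (a (l 16645928) (l 16639424))))) (a (a (b (b (a (l 16656960) (l 4)) (a (l 16638048) (l 16640520)))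 (a (l 16632728) (l 16626808))) (b (b (l 4) (a (l 56069326871) (l 4))) (a (b (l 16625608) (l 16619560)) (b (l 16627032) (l 16612688))))) (b (l 4) (a (a (b (l 47479339175) (l 16609152)) (b (l 4) (l 33520664983))) (a (b (l 4) (l 16614824)) (l 4)))))))), by decide +kernel⟩

def k1_pm_101 : ∃ t, chk3 f_pm_101 t 4 3 1 = true :=
  ⟨(b (b (a (a (a (b (l 16710720) (l 16825584)) (b (l 16701096) (l 16739464))) (b (l 16688208) (a (l 16730832) (l 16719344)))) (b (a (a (l 16678160) (l 16670744)) (a (l 16663536) (l 16655400))) (a (l 16703920) (b (l 16679184) (l 16694368))))) (a (a (b (b (l 16778560) (a (l 16763304) (l 16765288))) (b (a (b (b (l 16768360) (l 16769376)) (l 16767128)) (b (l 16771856) (l 16768680))) (a (l 16760688) (l 16765680)))) (b (b (l 16750304) (a (l 16765424) (l 16761128))) (b (b (l 16772232) (a (l 16774944) (l 16779496))) (a (l 16769800) (l 16773368))))) (a (b (b (l 16728520) (l 16748064)) (b (l 16766880) (a (l 16775384) (l 16796696)))) (b (l 16715264) (b (l 16743832)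 (a (l 16773088) (l 16763360))))))) (b (a (b (b (a (a (l 16752432) (l 16758784)) (l 16808784)) (a (a (l 16743840) (l 16752440)) (l 16761528))) (a (a (b (l 16738792) (l 16736512)) (b (l 16745376) (l 16742160))) (a (a (l 16749208) (l 16752952)) (l 16842424)))) (a (a (b (l 16772488) (l 16765296)) (b (l 16777296) (l 16771064))) (a (b (b (l 16778296) (l 16779376)) (l 16818536)) (b (l 16840536) (l 16886536))))) (a (b (b (a (a (l 16738472) (l 16741768)) (a (l 16747296) (l 16753808))) (b (a (a (l 16736088) (l 16741424)) (a (l 16747320) (l 16754528))) (a (l 16730240) (l 16742048)))) (a (b (a (l 16715056) (l 16720048)) (a (l 16699496) (l 16704976))) (b (l 16749176) (a (l 16710216) (l 16715768))))) (b (b (a (a (l 16762592) (l 16769232)) (a (l 16774712) (l 16779376))) (a (a (b (l 16761624) (l 16753392)) (b (l 16769512) (l 16764464))) (b (l 16778344) (a (l 16775064) (l 16782880))))) (a (b (a (l 16739608) (l 16748984)) (a (l 16721664) (l 16730144))) (b (a (l 16760792) (l 16770360))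 (a (l 16739824) (l 16752032)))))))), by decide +kernel⟩

def k2_pm_101 : ∃ t, chk3 f_pm_101 t 5 3 1 = true :=
  ⟨(b (b (a (a (b (a (l 16646728) (l 16636872)) (l 16646120)) (b (a (l 16624648) (l 16610304)) (b (l 16630144) (l 16642200)))) (a (b (a (l 16598216) (l 16588536)) (l 16592872)) (b (b (a (l 16588760) (l 16589776)) (a (l 16575736) (l 16568408))) (b (l 16562368) (l 16556120))))) (a (a (b (l 16675160) (a (l 16739592) (l 16726352))) (b (b (l 16652992) (l 16666352)) (b (l 16681624) (l 16700048)))) (a (b (l 16602560) (l 16619864)) (b (l 16549856) (l 16554400))))) (b (a (a (b (b (a (l 16761408) (l 16753256)) (a (l 16775200) (l 16765504))) (b (a (l 16781304) (l 16776400)) (a (l 16785312) (l 16783752)))) (b (b (b (l 16716496) (l 16719984)) (l 16705240)) (a (l 16737856) (l 16717688)))) (b (a (b (l 16643296) (l 16645880)) (b (l 16563984) (l 16572744))) (a (a (l 16676528) (l 16636096)) (a (l 16597416) (l 16556816))))) (a (b (a (a (b (l 16786048) (l 16788624)) (b (l 16789088)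 (l 16791112))) (a (b (l 16769208) (l 16794912)) (b (l 16733936) (l 16743024)))) (a (a (b (l 16777448) (l 16761960)) (b (b (l 16786128) (l 16779704)) (l 16769048))) (b (b (a (a (l 16777664) (l 16767792)) (l 16750208)) (l 16757016)) (a (l 16757904) (l 16738760))))) (b (a (b (l 16670392) (l 16664344)) (a (l 16611168) (l 16566888))) (a (b (a (b (l 16717208) (l 16718600)) (b (l 16675408) (l 16679232))) (a (l 16714944) (l 16683152))) (b (b (l 16604712) (a (l 16634160) (l 16588016))) (a (l 16644456) (l 16596824)))))))), by decide +kernel⟩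

def k3_pm_101 : ∃ t, chk3 f_pm_101 t 3 2 1 = true :=
  ⟨(l 4), by decide +kernel⟩

def k4_pm_101 : ∃ t, chk3 f_pm_101 t 6 6 1 = true :=
  ⟨(a (b (a (b (a (b (l 16595024) (l 16564816)) (b (l 4) (l 16566200))) (a (l 16518568) (l 16530048))) (b (a (b (l 1) (l 16549880)) (l 1)) (a (b (l 16536880) (l 16511456)) (b (l 16581568) (l 16505136))))) (a (b (l 16526872) (l 16491416)) (b (a (l 16478304) (l 16485736)) (a (l 16449264) (l 16427504))))) (b (b (l 1) (a (b (l 1) (a (l 16510680) (l 1))) (l 1))) (a (b (a (l 16470584) (l 85932277111)) (a (l 16426080) (l 16433320))) (b (a (b (l 1) (l 16479856)) (l 1)) (a (b (l 16452256) (l 16428768)) (b (l 16459072) (l 16429520))))))), by decide +kernel⟩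

def k5_pm_101 : ∃ t, chk3 f_pm_101 t 6 7 1 = true :=
  ⟨(a (a (b (b (a (l 16514680) (l 16472760)) (b (l 16491408) (l 16495728))) (b (b (l 16498208) (a (l 16526120) (l 16480480))) (b (a (l 16539248) (l 16489440)) (a (l 16547960) (l 16495936))))) (b (b (l 16416888) (a (b (l 16431752) (l 16434264)) (b (l 16393704) (l 16408120)))) (a (a (b (l 16444168) (b (l 16450464) (l 16456848))) (b (l 16434904) (b (l 16428552) (l 16457272)))) (b (a (l 16445528) (c (l 16468056) (l 16424976))) (b (a (l 16482216) (a (l 16503200) (l 16507480))) (a (l 16496016) (a (l 16523368) (b (l 16537352) (l 16530128))))))))) (a (b (b (a (l 16394112) (l 16398544)) (a (b (l 16381056) (l 16381480)) (b (l 16381672) (l 16368536)))) (b (a (b (l 16395720) (l 16416200)) (b (l 16359368) (l 16352216))) (a (b (b (l 16436512) (l 16450848)) (a (l 16491224) (b (l 16434352) (l 16435120)))) (b (c (l 16368008) (l 16327912)) (a (l 16395912) (l 16366328)))))) (b (b (a (b (l 16408856) (l 16392840)) (b (l 16404240) (l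 16382592))) (a (b (l 16380104) (a (l 16368672) (l 16362816))) (b (l 16364600) (l 16349904)))) (b (a (a (l 16333232) (l 16331928)) (a (l 16333432) (l 16330920))) (a (a (b (l 16299464) (a (l 16291760) (l 16296256))) (b (l 16304472) (l 16292256))) (b (a (l 16320416) (l 16326888)) (a (l 16318784) (a (l 16334944) (l 16330616))))))))), by decide +kernel⟩

def k6_pm_101 : ∃ t, chk3 f_pm_101 t 7 3 1 = true :=
  ⟨(b (a (b (l 1) (a (b (l 1) (a (b (l 1) (l 16436296)) (l 1))) (l 1))) (l 1)) (a (b (b (a (a (b (l 16405144) (l 16378232)) (b (l 16412696) (l 16380440))) (b (l 1) (a (l 16388520) (l 1)))) (a (b (a (l 16354688) (l 16352112)) (a (l 16336400) (l 16328400))) (a (b (l 16355504) (l 16326584)) (b (l 16364072) (l 16331264))))) (b (a (a (l 16315240) (b (l 16306840) (l 16293360))) (b (a (l 16301152) (l 16302808)) (a (l 16283592) (l 16280072)))) (a (b (l 16293480) (a (l 16308064) (l 16279840))) (a (b (l 16269096) (l 16259856)) (l 16254424))))) (b (b (l 1) (a (b (l 1) (a (l 16340744)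 (l 1))) (l 1))) (b (a (b (a (l 16309624) (l 16320448)) (a (l 16282432) (l 16289496))) (b (l 1) (a (l 16321672) (l 1)))) (a (b (a (l 16260056) (l 16263752)) (a (l 16242144) (l 16242056))) (b (a (l 16271824) (l 16283816)) (a (l 16246800) (l 16255448)))))))), by decide +kernel⟩

theorem s7_pm_101 : ∃ t, chk3 f_pm_101 t 6 3 1 = true := ex3_b k4_pm_101 k5_pm_101

theorem s8_pm_101 : ∃ t, chk3 f_pm_101 t 3 3 1 = true := ex3_a s7_pm_101 k6_pm_101

theorem s9_pm_101 : ∃ t, chk3 f_pm_101 t 3 1 1 = true := ex3_b k3_pm_101 s8_pm_101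

theorem s10_pm_101 : ∃ t, chk3 f_pm_101 t 2 3 1 = true := ex3_a k1_pm_101 k2_pm_101

theorem s11_pm_101 : ∃ t, chk3 f_pm_101 t 2 1 1 = true := ex3_b k0_pm_101 s10_pm_101

theorem s12_pm_101 : ∃ t, chk3 f_pm_101 t 1 1 1 = true := ex3_a s11_pm_101 s9_pm_101

theorem c_pm_101 : CertB 536870912 536870912 536870912 536870912 697932185 42949674 3 eng mog cd0q1 cd1q1 pd0 false true false .npn 1 0 1
    ndB0q1 ndB1q1 pcB0 Cut.none Ext.none :=
  certB2 (fam := false) (s1 := true) (s2 := false) (a := 1) (b := 0) (c := 1) (cn := .npn) (n1 := ndB0q1) (n2 := ndB1q1) (pc := pcB0) (cut := Cut.none) (xt := Ext.none) (P1 := 536870912) (W1 := 536870912) (P2 := 536870912) (W2 := 536870912) (P3 := 697932185) (W3 := 42949674) (N0 := 3) (En := eng) (mo := mog) (C1 := cd0q1) (C2 := cd1q1) (C3 := pd0)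
    rfl (fun _ => rfl) s12_pm_101

end Pool.Agent.Strip051.G.I6500_6900.Tab.C.BB01

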