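import Pool.Agent.Strip051.G.I6500_6900.Tab

/-! # Certificates B22 (generated) -/

set_option linter.all false
set_option maxRecDepth 100000

namespace Pool.Agent.Strip051.G.I6500_6900.Tab.C.BB01

open Pool.Agent.Strip051.PB Pool.Agent.Strip051.PB.T
open Pool.Agent.Strip051.G.I6500_6900.Tab

noncomputable def cut_pm_102_b : Cut := Cut.of [[⟨0, 1, 0, 67108864⟩, ⟨1, 0, 0, 67108864⟩, ⟨2, 1, 0, 67108864⟩], [⟨0, 0, 1, 20971520⟩, ⟨1, 1, 2, 20971520⟩, ⟨2, 1, 0, 33554432⟩]]

noncomputable def f_pm_102_b : ℕ → ℕ → ℕ → ℕ → Bool := onCell 536870912 536870912 0 536870912 697932185 42949674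
    (rowB 3 eng mog cd0q1 cd1q2b pd0 1 false true false .npp 1 0 2 (qsf 536870912 536870912 1239849684 370763052 0) ndB0q1 ndB1q2b pcB0 cut_pm_102_b Ext.none)

def k0_pm_102_b : ∃ t, chk3 f_pm_102_b t 1 1 1 = true :=
  ⟨(a (a (l 1) (b (l 1) (l 3))) (l 3)), by decide +kernel⟩

theorem c_pm_102_b : CertB 536870912 536870912 1239849684 370763052 697932185 42949674 3 eng mog cd0q1 cd1q2b pd0 false true false .npp 1 0 2
    ndB0q1 ndB1q2b pcB0 cut_pm_102_b Ext.none :=
  certB1 (fam := false) (s1 := true) (s2 := false) (a := 1) (b := 0) (c := 2) (cn := .npp) (n1 := ndB0q1) (n2 := ndB1q2b) (pc := pcB0) (cut := cut_pm_102_b) (xt := Ext.none) (P1 := 536870912) (W1 := 536870912) (P2 := 1239849684) (W2 := 370763052) (P3 := 697932185) (W3 := 42949674) (N0 := 3) (En := eng) (mo := mog) (C1 := cd0q1) (C2 := cd1q2b) (C3 := pd0)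
    rfl (fun _ => rfl) k0_pm_102_b

noncomputable def f_pm_112_a : ℕ → ℕ → ℕ → ℕ → Bool := onCell 536870912 536870912 0 536870912 697932185 42949674
    (rowB 3 eng mog cd0q1 cd1q2a pd1 0 false true false .dn 1 1 2 (qsf 536870912 536870912 0 536870912 1) ndB0q1 ndB1q2a pcB1 Cut.none Ext.none)

def k0_pm_112_a : ∃ t, chk3 f_pm_112_a t 4 2 1 = true :=
  ⟨(a (b (b (a (a (l 16709720) (b (l 16689808) (l 16669272))) (b (a (l 16701664) (l 16734248)) (a (l 16680752) (l 16691968)))) (a (b (a (b (l 16642392) (l 16633232)) (l 16669480)) (a (l 16618728) (l 16629568))) (b (a (l 16659944) (l 16670584)) (a (b (l 16644240) (l 16634720)) (b (l 16654456) (l 16644360)))))) (b (a (b (l 16626920) (l 16588488)) (b (l 16624792) (l 16605336))) (a (b (l 16570208) (l 16546056)) (b (l 16584456) (l 16556264))))) (b (b (a (b (a (b (a (l 16727456) (b (l 16735744) (l 16730536))) (l 16719376)) (b (a (b (l 16741472) (l 16736032)) (l 16744416)) (a (l 16728048) (b (l 16736216) (l 16730944))))) (a (l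 16703080) (l 16735072))) (b (a (b (a (l 16750040) (l 16766216)) (a (b (l 16741872) (l 16736296)) (l 16744720))) (b (a (c (l 16772368) (l 16771632)) (b (a (l 16773952) (c (l 16777096) (l 16776736))) (c (l 16775392) (l 16774800)))) (a (l 16750368) (l 16769256)))) (a (b (a (l 16728168) (b (l 16736264) (l 16730880))) (l 16719352)) (b (a (b (l 16741928) (l 16736128)) (l 16744712)) (a (l 16727760) (b (l 16746360) (l 16730296))))))) (a (b (a (l 16681080) (l 16691472)) (a (l 16658944) (l 16668744))) (b (a (l 16722840) (b (l 16718432) (l 16706280))) (a (l 16699352) (b (l 16694016) (l 16682352)))))) (b (a (b (a (b (l 16643512) (l 16632880)) (b (l 16652168) (l 16641552))) (l 16642024)) (b (a (b (l 16661408) (l 16649712)) (l 16685640)) (a (b (l 16638648) (l 16626832)) (b (a (l 16644544) (l 16648760)) (l 16634704))))) (a (b (l 16618520) (l 16565264)) (b (a (l 16607240) (l 16614024)) (l 16595448)))))), by decide +kernel⟩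

def k1_pm_112_a : ∃ t, chk3 f_pm_112_a t 160 256 1 = true :=
  ⟨(b (b (a (a (l 16775840) (b (a (a (l 16776208) (a (l 16776280) (a (l 107541952711) (b (l 140827949303) (l 16776312))))) (a (a (b (l 167671494775) (a (l 118816241863) (l 146196658375))) (l 171966462215)) (l 3))) (a (l 16776160) (a (a (l 16776280) (b (a (l 125795563751) (l 151565367495)) (l 16776296))) (a (a (b (l 3) (l 131164272871)) (l 162839656631)) (l 3)))))) (l 3)) (a (a (l 16775560) (a (l 16775984) (b (a (l 16776208) (a (l 103783856295) (b (a (l 136532981975) (l 161765914759)) (l 110226307255)))) (l 16776160)))) (a (a (c (a (a (l 135996111415) (l 153175980359)) (l 170892720407)) (a (b (a (a (l 151565367479) (l 166597752967)) (l 3)) (a (l 108615694487) (b (l 151565367463) (l 117742500023)))) (l 164987140167))) (l 3)) (l 3)))) (a (c (l 16775528) (l 16775344)) (b (a (a (a (l 16776168) (c (l 120963725879) (b (a (c (l 113984403735) (l 114521274535)) (b (l 159081560135) (l 126332434615))) (l 16776160))))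 (a (b (l 169282107575) (c (l 136532982295) (a (a (l 108615694471) (a (l 119889983639) (l 127943047335))) (b (l 166597752839) (l 134385498279))))) (l 3))) (l 3)) (a (a (l 16776008) (c (a (l 16776240) (c (l 127406176871) (l 126332435015))) (a (l 16776104) (b (a (b (l 138143594663) (l 16776200)) (c (l 152102238455) (l 149954754695))) (l 102710114407))))) (b (l 3) (a (a (c (l 144586045943) (a (b (l 145659787367) (l 111836919879)) (l 155860334631))) (l 3)) (l 3))))))), by decide +kernel⟩

def k2_pm_112_a : ∃ t, chk3 f_pm_112_a t 160 257 1 = true :=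
  ⟨(a (l 16774504) (a (c (l 16775576) (l 16775392)) (b (b (a (a (c (l 16776240) (c (l 16776144) (l 102710114407))) (b (a (b (l 155860334711) (a (l 16776248) (l 129553660007))) (l 163913398407)) (c (l 16776280) (c (l 110763178231) (c (l 110226307223) (l 110226307159)))))) (a (a (b (l 3) (b (l 163913398327) (a (l 113447532583) (l 140291078199)))) (l 170892720215)) (l 3))) (a (l 16776024) (a (a (l 16776152) (b (a (l 110763178039) (b (l 145659787303) (l 16776232))) (l 16776152))) (b (a (a (b (l 171429590999) (l 125795563591)) (l 159618430999)) (l 3)) (a (l 16776200) (b (a (l 131164272711) (l 156397205527)) (l 16776216))))))) (c (l 16775864) (l 16776360))))), by decide +kernel⟩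

def k3_pm_112_a : ∃ t, chk3 f_pm_112_a t 160 129 1 = true :=
  ⟨(a (l 16772504) (l 16776568)), by decide +kernel⟩

def k4_pm_112_a : ∃ t, chk3 f_pm_112_a t 161 128 1 = true :=
  ⟨(a (a (b (l 3) (a (b (c (l 171966462007) (a (a (b (l 3) (b (l 3) (l 152102238263))) (l 3)) (l 3))) (b (a (b (a (l 106468210711) (b (l 149954754615) (l 114521274407))) (l 16776136)) (c (a (l 137606723991) (l 154786592935)) (b (l 160692172743) (a (l 111300048919) (a (l 131164272663) (l 146196658199)))))) (c (l 16776104) (l 16775960)))) (b (l 3) (b (c (l 173577074775) (l 167671494503)) (a (b (c (l 132774885767) (a (l 116131887159) (c (l 144049174663) (l 142438561815)))) (l 16776136)) (c (l 150491625591) (b (l 168208365447) (a (c (l 123648079975) (l 122574338103)) (l 148344141799))))))))) (l 3)) (l 3)), by decide +kernel⟩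

def k5_pm_112_a : ∃ t, chk3 f_pm_112_a t 161 129 1 = true :=
  ⟨(a (b (a (a (l 16775392) (c (l 16775768) (c (l 16775640) (l 76940310407)))) (b (a (b (a (b (a (b (l 144586045415) (l 16776176)) (l 155860334551)) (c (l 16776200) (l 104320726967))) (a (b (l 3) (a (l 127406176263) (l 143512303591))) (l 166060881879))) (c (l 16776112) (c (l 101099501703) (c (l 100562630679) (l 100562630615))))) (b (l 3) (c (a (l 134385498487) (l 162302785591)) (a (b (a (l 139754207239) (l 164450269015)) (c (l 112373790791) (l 111300048839))) (c (l 158544689015) (c (l 156934076183) (l 155860334295))))))) (a (l 16775696) (c (l 81772148967) (a (l 16775808) (a (l 16775896) (b (b (l 125258692551) (l 16776000)) (l 16775840)))))))) (l 16777296)) (b (a (b (l 3) (a (c (b (a (l 140827949399) (l 168208365575)) (l 110226307415)) (a (b (b (l 155323463463) (a (l 16776048) (l 130627401671))) (l 16775928)) (b (l 162839656199) (a (l 103246985015) (b (l 135996110775) (l 16776000)))))) (a (b (l 3) (b (l 166060881799)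 (a (l 114521274247) (l 142975432615)))) (l 171966461703)))) (l 3)) (a (b (a (l 16775720) (a (l 16775896) (b (b (a (l 120426854279) (l 148881012599)) (l 16776048)) (l 16775904)))) (l 16775320)) (a (b (b (a (a (b (l 3) (l 128479917943)) (l 161765914439)) (l 3)) (a (l 100025759543) (b (a (l 133848627063) (l 160155301623)) (l 107005081399)))) (l 16775736)) (a (c (b (l 165524010871) (l 16775984)) (b (c (l 161765914279) (b (l 3) (l 153175979607))) (l 100025759527))) (b (l 3) (b (b (l 152639108935) (a (l 16776032) (l 125258692391))) (l 16775912)))))))), by decide +kernel⟩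

def k6_pm_112_a : ∃ t, chk3 f_pm_112_a t 80 65 1 = true :=
  ⟨(a (c (l 16774544) (l 16768880)) (b (a (l 16772704) (c (l 16774240) (l 16776624))) (l 16775928))), by decide +kernel⟩

def k7_pm_112_a : ∃ t, chk3 f_pm_112_a t 81 32 1 = true :=
  ⟨(b (a (b (l 3) (b (l 3) (b (l 3) (a (a (a (b (c (l 167671494487) (l 162302785095)) (a (c (l 112373790823) (l 110226306887)) (b (l 160692172535) (a (l 16776032) (l 136532981527))))) (l 170892719703)) (l 3)) (l 3))))) (l 3)) (a (b (b (b (a (a (a (l 16775752) (b (a (c (l 118279370839) (c (l 116668757975) (l 115058145095))) (c (l 148881012551) (a (l 139754207015) (l 155323463207)))) (l 16775872))) (b (l 3) (a (a (b (l 139217336103) (l 16775968)) (c (l 155323463463) (l 151028495863))) (l 3)))) (l 3)) (a (a (l 16775384) (a (c (l 16775848) (l 16776016)) (b (a (a (l 123648079607) (l 139754206999)) (l 158544688743)) (a (l 16775824) (l 107541952135))))) (b (l 3) (a (a (a (a (l 130627401447) (l 146733528743)) (l 164450268727)) (l 3)) (l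 3))))) (a (c (l 16774936) (l 16774728)) (a (b (a (c (l 83919632295) (c (l 101636372231) (l 101099501159))) (b (c (l 153712850599) (c (l 151028495799) (l 148881012007))) (c (l 113447532551) (l 110763177687)))) (l 16775440)) (a (b (c (l 164450268743) (l 159618430215)) (a (l 16775736) (b (l 129016788663) (l 16775744)))) (b (l 3) (b (l 160692172199) (c (l 122574338039) (l 119353112247)))))))) (a (l 16772904) (c (l 16775728) (b (l 16776112) (l 16773544))))) (b (a (a (a (b (l 3) (l 170892719255)) (l 3)) (l 3)) (l 3)) (a (a (b (b (a (a (l 102710113735) (b (l 141364819495) (l 16775752))) (a (b (l 167671493991) (l 115595015719)) (l 157470946615))) (l 16775480)) (l 16774672)) (b (b (l 3) (a (a (l 115058144791) (a (l 126869304871) (l 135996110391))) (c (l 155323463047) (l 151028495399)))) (c (l 16775352) (l 37211862119)))) (b (l 3) (b (a (a (b (l 147807270087) (l 107541951863)) (l 159081559143)) (l 3)) (a (c (l 37211862679) (l 78550922535)) (a (a (l 130627401175) (l 147270399063))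 (l 165524009975))))))))), by decide +kernel⟩

def k8_pm_112_a : ∃ t, chk3 f_pm_112_a t 40 33 1 = true :=
  ⟨(b (a (c (l 16773056) (l 16775160)) (a (c (l 16774920) (l 16779792)) (b (a (l 16773112) (a (l 16774152) (a (l 16774632) (b (a (l 16775360) (b (l 116131886423) (l 16775248))) (l 16774360))))) (l 16776368)))) (a (l 16769672) (a (l 16763744) (l 16772088)))), by decide +kernel⟩

def k9_pm_112_a : ∃ t, chk3 f_pm_112_a t 40 17 1 = true :=
  ⟨(a (b (c (l 16771816) (l 16750104)) (b (l 16741624) (a (l 16734192) (l 16736952)))) (b (c (a (l 16755256) (l 16758288)) (l 16771888)) (c (l 16765728) (l 16744072)))), by decide +kernel⟩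

def k10_pm_112_a : ∃ t, chk3 f_pm_112_a t 41 16 1 = true :=
  ⟨(b (l 3) (a (b (a (b (a (a (b (a (b (a (l 138143593799) (l 154786591735)) (l 16775432)) (b (l 171429589879) (a (l 16775568) (l 124184950055)))) (l 16774816)) (a (b (c (l 162839655383) (l 158007816791)) (l 16775216)) (b (l 3) (b (a (l 95730791591) (l 132238013591)) (l 16775232))))) (b (l 3) (a (b (l 161765913287) (a (l 16775440) (c (l 108615693831) (l 129553658967)))) (l 169282105735)))) (a (l 16773320) (b (a (l 16774880) (b (a (l 41506829319) (a (l 108615693287) (l 152639107751))) (l 16775144))) (l 16774048)))) (b (l 3) (a (b (a (b (l 170892718503) (a (a (l 16775400) (l 97341404039)) (l 144586043959))) (l 3)) (a (l 16774928) (b (a (c (l 98952017191) (l 97878274871)) (l 150491623879)) (l 16775168)))) (a (a (b (l 3) (b (l 3) (a (l 96804532935) (l 113984402071)))) (l 171429588743)) (l 3))))) (a (c (l 16775376) (l 16775024)) (b (a (l 16776152) (a (c (l 18958250471) (l 33453764615)) (b (a (b (l 109689434743)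 (l 16775088)) (b (l 163376525495) (l 43117441575))) (l 16774504)))) (c (l 16771760) (l 16771440))))) (b (l 3) (a (b (a (a (b (a (b (l 3) (l 115595014583)) (l 3)) (a (l 16774888) (a (l 16775040) (b (l 103783854471) (l 16774944))))) (b (l 3) (b (l 155323461607) (a (l 16775088) (a (l 16775176) (l 110763176231)))))) (b (l 3) (c (l 168208363095) (l 163376524375)))) (a (c (l 16773848) (l 16773576)) (b (a (a (l 16774904) (b (a (l 47949279431) (l 117205626903)) (l 16774912))) (b (l 164987137703) (a (l 16775056) (l 115595014119)))) (l 16774344)))) (b (l 3) (a (b (l 3) (a (b (a (l 45801795623) (l 121500593895)) (l 16774816)) (a (b (l 3) (l 47949279191)) (l 161765911927)))) (l 1))))))), by decide +kernel⟩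

def k11_pm_112_a : ∃ t, chk3 f_pm_112_a t 41 17 1 = true :=
  ⟨(a (b (a (c (l 16771880) (l 16771360)) (b (c (l 16777984) (l 16767096)) (l 16771784))) (b (c (l 16764352) (l 16753272)) (l 16757832))) (a (b (a (b (l 16774912) (l 16763720)) (b (b (l 16772560) (l 16769792)) (l 16775824))) (b (l 16766224) (l 16752040))) (a (b (b (b (c (c (l 16774080) (l 16773944)) (l 16775040)) (l 16771328)) (l 16772208)) (b (l 16760808) (l 16754456))) (l 1)))), by decide +kernel⟩

def k12_pm_112_a : ∃ t, chk3 f_pm_112_a t 20 9 1 = true :=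
  ⟨(b (a (b (a (b (l 16729800) (l 16723512)) (b (a (l 16733688) (l 16736552)) (a (l 16727616) (l 16730504)))) (a (l 16714208) (l 16719616))) (b (a (b (l 16741032) (a (l 16743560) (l 16736072))) (a (l 16752848) (l 37077603239))) (a (b (a (l 16726872) (b (l 16731216) (l 16728064))) (l 16721904)) (a (b (b (l 16734112) (l 16730784)) (l 16726040)) (l 1))))) (a (b (a (l 16701696) (l 16706968)) (l 16713304)) (b (a (l 16712368) (l 40298759895)) (a (l 16700176) (l 1))))), by decide +kernel⟩

def k13_pm_112_a : ∃ t, chk3 f_pm_112_a t 21 4 1 = true :=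
  ⟨(b (l 1) (l 1)), by decide +kernel⟩

def k14_pm_112_a : ∃ t, chk3 f_pm_112_a t 10 5 1 = true :=
  ⟨(a (a (b (b (b (l 16680216) (l 16667872)) (b (l 16655456) (a (l 16640608) (l 16644824)))) (b (b (l 16629720) (l 16612928)) (l 16582824))) (b (b (b (l 41372463111) (l 41909323927)) (b (l 1) (l 1))) (l 1))) (l 1)), by decide +kernel⟩

def k15_pm_112_a : ∃ t, chk3 f_pm_112_a t 11 2 1 = true :=
  ⟨(l 1), by decide +kernel⟩

def k16_pm_112_a : ∃ t, chk3 f_pm_112_a t 2 3 1 = true :=
  ⟨(a (b (b (a (a (b (l 16517592) (l 16483752)) (b (l 16522616) (l 16482344))) (a (b (l 16526376) (l 16479776)) (b (l 16509744) (l 16478016)))) (a (a (l 16420536) (l 16428480)) (b (a (l 16423128) (l 16440568)) (l 43519468215)))) (b (a (a (b (l 16371256) (l 16348456)) (b (l 16365632) (l 16339512))) (b (a (l 16359768) (l 1)) (l 1))) (a (b (a (b (l 16331336) (a (l 16324592) (l 16317664))) (b (l 16319904) (l 1))) (a (a (b (l 16314816) (l 29560533095)) (l 193306169255)) (l 1))) (l 1)))) (b (l 1) (l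 1))), by decide +kernel⟩

def k17_pm_112_a : ∃ t, chk3 f_pm_112_a t 3 1 1 = true :=
  ⟨(l 1), by decide +kernel⟩

theorem s18_pm_112_a : ∃ t, chk3 f_pm_112_a t 41 8 1 = true := ex3_b k10_pm_112_a k11_pm_112_a

theorem s19_pm_112_a : ∃ t, chk3 f_pm_112_a t 161 64 1 = true := ex3_b k4_pm_112_a k5_pm_112_a

theorem s20_pm_112_a : ∃ t, chk3 f_pm_112_a t 160 128 1 = true := ex3_b k1_pm_112_a k2_pm_112_a

theorem s21_pm_112_a : ∃ t, chk3 f_pm_112_a t 160 64 1 = true := ex3_b s20_pm_112_a k3_pm_112_a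

theorem s22_pm_112_a : ∃ t, chk3 f_pm_112_a t 80 64 1 = true := ex3_a s21_pm_112_a s19_pm_112_a

theorem s23_pm_112_a : ∃ t, chk3 f_pm_112_a t 80 32 1 = true := ex3_b s22_pm_112_a k6_pm_112_a

theorem s24_pm_112_a : ∃ t, chk3 f_pm_112_a t 40 32 1 = true := ex3_a s23_pm_112_a k7_pm_112_a

theorem s25_pm_112_a : ∃ t, chk3 f_pm_112_a t 40 16 1 = true := ex3_b s24_pm_112_a k8_pm_112_a

theorem s26_pm_112_a : ∃ t, chk3 f_pm_112_a t 40 8 1 = true := ex3_b s25_pm_112_a k9_pm_112_a

theorem s27_pm_112_a : ∃ t, chk3 f_pm_112_a t 20 8 1 = true := ex3_a s26_pm_112_a s18_pm_112_a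

theorem s28_pm_112_a : ∃ t, chk3 f_pm_112_a t 20 4 1 = true := ex3_b s27_pm_112_a k12_pm_112_a

theorem s29_pm_112_a : ∃ t, chk3 f_pm_112_a t 10 4 1 = true := ex3_a s28_pm_112_a k13_pm_112_a

theorem s30_pm_112_a : ∃ t, chk3 f_pm_112_a t 10 2 1 = true := ex3_b s29_pm_112_a k14_pm_112_a

theorem s31_pm_112_a : ∃ t, chk3 f_pm_112_a t 5 2 1 = true := ex3_a s30_pm_112_a k15_pm_112_a

theorem s32_pm_112_a : ∃ t, chk3 f_pm_112_a t 2 2 1 = true := ex3_a k0_pm_112_a s31_pm_112_a

theorem s33_pm_112_a : ∃ t, chk3 f_pm_112_a t 2 1 1 = true := ex3_b s32_pm_112_a k16_pm_112_a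

theorem s34_pm_112_a : ∃ t, chk3 f_pm_112_a t 1 1 1 = true := ex3_a s33_pm_112_a k17_pm_112_a

theorem c_pm_112_a : CertB 536870912 536870912 0 536870912 697932185 42949674 3 eng mog cd0q1 cd1q2a pd1 false true false .dn 1 1 2
    ndB0q1 ndB1q2a pcB1 Cut.none Ext.none :=
  certB0 (fam := false) (s1 := true) (s2 := false) (a := 1) (b := 1) (c := 2) (cn := .dn) (n1 := ndB0q1) (n2 := ndB1q2a) (pc := pcB1) (cut := Cut.none) (xt := Ext.none) (P1 := 536870912) (W1 := 536870912) (P2 := 0) (W2 := 536870912) (P3 := 697932185) (W3 := 42949674) (N0 := 3) (En := eng) (mo := mog) (C1 := cd0q1) (C2 := cd1q2a) (C3 := pd1)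
    rfl s34_pm_112_a

noncomputable def f_pm_112_b : ℕ → ℕ → ℕ → ℕ → Bool := onCell 536870912 536870912 1239849684 370763052 697932185 42949674
    (rowB 3 eng mog cd0q1 cd1q2b pd1 0 false true false .dn 1 1 2 (qsf 536870912 536870912 1239849684 370763052 1) ndB0q1 ndB1q2b pcB1 Cut.none Ext.none)

def k0_pm_112_b : ∃ t, chk3 f_pm_112_b t 4 2 1 = true :=
  ⟨(b (a (b (b (a (a (l 16676912) (l 16690096)) (a (l 16703112) (l 16736832))) (a (l 16660008) (l 16689328))) (a (l 16620584) (l 16654584))) (b (a (b (a (b (a (l 16729376) (l 16735112)) (l 16724576)) (b (a (l 16741168) (l 16746968)) (l 16736440))) (a (l 16710304) (b (l 16727720) (l 16718936)))) (b (a (b (a (l 16752712) (b (l 16759944) (l 16756696))) (l 16748256)) (b (a (b (b (l 16771648) (l 16764840)) (l 16762144)) (b (b (a (l 16770712) (c (l 16776256) (l 16775864))) (l 16775448)) (l 16767176))) (a (l 16756264) (l 16761008)))) (a (l 16735696) (b (l 16750456) (l 16742080))))) (a (b (a (l 16689792) (l 16704848)) (l 16675672))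 (b (a (l 16717056) (l 16729200)) (a (l 16698592) (l 16711504)))))) (a (a (b (l 16562400) (l 16497928)) (b (l 16602928) (l 16546224))) (b (a (l 16641072) (b (a (l 16678272) (l 16692448)) (l 16666088))) (a (l 16591264) (l 16632552))))), by decide +kernel⟩

def k1_pm_112_b : ∃ t, chk3 f_pm_112_b t 5 2 1 = true :=
  ⟨(b (a (b (a (b (a (a (b (b (a (a (b (a (c (l 16775040) (l 16776072)) (b (b (a (a (l 16775992) (c (l 110763178551) (a (l 16775992) (b (a (l 110226307255) (l 242833422583)) (l 16775896))))) (b (l 286856837143) (c (l 151028496647) (l 146733529223)))) (a (l 16775512) (a (l 16775648) (l 225653552775)))) (l 16774824))) (l 16773016)) (a (b (b (l 3) (b (l 246054645911) (l 138143592903))) (c (l 16773832) (l 109689433831))) (b (l 3) (l 235854095591)))) (l 3)) (a (b (l 72645338279) (l 16769248)) (a (b (l 238538446727) (l 16770288)) (l 258402668439)))) (a (l 16764040) (b (l 117742492039) (l 16763616)))) (b (l 3) (a (b (l 253033952439) (l 137069837655)) (l 3)))) (l 3))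 (a (a (b (l 16756712) (l 16748600)) (b (a (l 16758920) (l 215989859191)) (l 16751768))) (a (b (l 3) (l 219211075575)) (l 3)))) (l 3)) (a (a (b (l 16759288) (l 16722120)) (b (a (b (l 16746168) (l 16739016)) (l 220821647927)) (l 16750080))) (b (l 3) (a (a (l 202031179079) (l 3)) (l 3))))) (l 3)) (a (b (a (a (b (l 16705448) (l 16687304)) (b (l 16714456) (l 16699272))) (b (a (l 114521221911) (l 232095882119)) (a (l 16706248) (l 134922287783)))) (a (a (l 16660344) (l 16757776)) (a (l 16706552) (b (l 16697120) (l 16686104))))) (b (l 3) (a (a (b (l 210084170695) (l 16687712)) (l 3)) (l 3))))), by decide +kernel⟩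

def k2_pm_112_b : ∃ t, chk3 f_pm_112_b t 2 3 1 = true :=
  ⟨(a (a (b (a (b (b (l 16447824) (l 16413328)) (l 16359800)) (b (l 16484216) (l 16524456))) (a (b (l 16290192) (l 16222064)) (b (l 16354760) (l 16288912)))) (b (a (b (l 16537472) (l 16478936)) (b (l 16586552) (l 16537168))) (b (a (l 16418168) (l 16483368)) (a (l 16359032) (l 16428760))))) (b (a (b (a (a (l 16619888) (l 16640336)) (a (l 16676152) (l 16667632))) (a (l 16590104) (a (l 16625000) (l 16642016)))) (b (a (b (a (l 16679712) (l 16699520)) (a (l 16670352) (l 16673760))) (b (l 3) (l 217063537927))) (a (a (l 16655712) (l 16664408)) (b (l 118279335463) (l 77477170375))))) (a (b (a (l 16547176) (b (l 16611984) (l 16596440))) (a (l 16500416) (l 16571056))) (b (a (a (b (l 16641392) (l 16632776)) (l 16652120)) (a (l 16662544) (b (l 16665456) (l 16667728)))) (a (b (l 16635352) (l 16627728)) (a (b (l 16661160) (l 16660616)) (l 16672944))))))), by decide +kernel⟩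

def k3_pm_112_b : ∃ t, chk3 f_pm_112_b t 3 1 1 = true :=
  ⟨(b (l 3) (a (b (l 3) (a (a (a (b (l 135995987591) (l 16677784)) (b (l 3) (l 160155183479))) (l 3)) (l 3))) (l 3))), by decide +kernel⟩

theorem s4_pm_112_b : ∃ t, chk3 f_pm_112_b t 2 2 1 = true := ex3_a k0_pm_112_b k1_pm_112_b

theorem s5_pm_112_b : ∃ t, chk3 f_pm_112_b t 2 1 1 = true := ex3_b s4_pm_112_b k2_pm_112_b

theorem s6_pm_112_b : ∃ t, chk3 f_pm_112_b t 1 1 1 = true := ex3_a s5_pm_112_b k3_pm_112_b

theorem c_pm_112_b : CertB 536870912 536870912 1239849684 370763052 697932185 42949674 3 eng mog cd0q1 cd1q2b pd1 false true false .dn 1 1 2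
    ndB0q1 ndB1q2b pcB1 Cut.none Ext.none :=
  certB0 (fam := false) (s1 := true) (s2 := false) (a := 1) (b := 1) (c := 2) (cn := .dn) (n1 := ndB0q1) (n2 := ndB1q2b) (pc := pcB1) (cut := Cut.none) (xt := Ext.none) (P1 := 536870912) (W1 := 536870912) (P2 := 1239849684) (W2 := 370763052) (P3 := 697932185) (W3 := 42949674) (N0 := 3) (En := eng) (mo := mog) (C1 := cd0q1) (C2 := cd1q2b) (C3 := pd1)
    rfl s6_pm_112_b

noncomputable def cut_pm_113 : Cut := Cut.of [[⟨0, 1, 0, 67108864⟩, ⟨1, 1, 0, 67108864⟩, ⟨2, 2, 0, 16777216⟩]]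

noncomputable def f_pm_113 : ℕ → ℕ → ℕ → ℕ → Bool := onCell 536870912 536870912 536870912 536870912 697932185 42949674
    (rowB 3 eng mog cd0q1 cd1q3 pd1 1 false true false .nn 1 1 3 (qsf 536870912 536870912 1610612736 536870912 1) ndB0q1 ndB1q3 pcB1 cut_pm_113 Ext.none)

def k0_pm_113 : ∃ t, chk3 f_pm_113 t 1 2 1 = true :=
  ⟨(a (b (l 1) (a (l 1) (a (l 1) (a (l 1) (b (l 1) (l 78953545943)))))) (a (b (l 3) (a (a (b (l 1) (b (l 16672136) (l 16689048))) (b (l 3) (b (l 3) (l 207936822199)))) (l 3))) (l 3))), by decide +kernel⟩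

def k1_pm_113 : ∃ t, chk3 f_pm_113 t 2 3 1 = true :=
  ⟨(b (a (a (l 1) (b (l 1) (b (l 1) (l 16429744)))) (b (a (a (l 1) (l 16593440)) (b (a (l 16635992) (l 16670240)) (l 16691208))) (a (a (l 16495584) (l 16540632)) (a (l 16600744) (l 16675376))))) (a (a (b (l 92911546999) (l 36002971847)) (b (b (l 16387728) (l 16345720)) (l 16285152))) (a (a (b (l 16428024) (l 16367368)) (b (l 16492008) (l 16449992))) (b (a (l 16577000) (l 16656832)) (b (l 16570848) (l 16530824)))))), by decide +kernel⟩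

def k2_pm_113 : ∃ t, chk3 f_pm_113 t 3 3 1 = true :=
  ⟨(b (a (b (a (b (a (l 16709168) (l 91972748215)) (a (l 16730784) (l 16795048))) (b (a (l 250886431175) (l 3)) (a (b (l 16834056) (l 16883160)) (a (l 227801071367) (l 3))))) (a (b (a (l 16753168) (l 16850296)) (a (l 16770424) (l 16824544))) (b (a (l 16965312) (a (l 16916560) (l 176261543239))) (a (l 16897480) (b (l 16950688) (l 16947520)))))) (b (l 3) (a (a (b (l 3) (b (l 375440833575) (a (l 16953040) (l 228874922087)))) (l 3)) (l 3)))) (a (b (a (a (l 16692264) (l 16739088)) (b (a (l 16830408) (b (l 16906808) (l 16870952))) (a (l 16773072) (l 16824144)))) (a (a (l 16582968) (l 16646560)) (a (l 16700384) (b (l 16769504) (l 16722336))))) (b (a (b (a (b (a (l 16954496) (l 16915048)) (l 16927992)) (a (b (l 244981024759) (l 16876792)) (l 387788828823))) (a (b (l 16890864) (l 16858560)) (b (a (l 16922832) (l 209010710375)) (a (l 16887416) (l 16899944))))) (b (l 3) (a (a (b (l 3) (l 218137467527)) (l 3)) (l 3)))) (a (a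 (b (b (l 16829096) (l 16801032)) (l 16763776)) (b (b (l 16861832) (l 16831904)) (b (l 16804552) (l 16778280)))) (a (b (a (b (l 16874640) (l 16843064)) (b (l 340544058327) (b (l 16824448) (l 16840112)))) (b (a (l 16814152) (l 16818056)) (l 16789616))) (b (a (b (l 3) (a (l 357187000695) (l 3))) (l 3)) (a (a (b (l 16819584) (l 16791512)) (b (b (l 266992645623) (l 97878330807)) (l 16812600))) (b (a (b (l 3) (a (l 279340667607) (l 3))) (l 3)) (a (b (a (l 16798600) (b (l 289004337543) (l 16789840))) (l 16789784)) (a (b (b (l 3) (l 439865066903)) (b (a (l 16787928) (l 6)) (l 6))) (b (l 3) (l 6)))))))))))), by decide +kernel⟩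

theorem s3_pm_113 : ∃ t, chk3 f_pm_113 t 1 3 1 = true := ex3_a k1_pm_113 k2_pm_113

theorem s4_pm_113 : ∃ t, chk3 f_pm_113 t 1 1 1 = true := ex3_b k0_pm_113 s3_pm_113

theorem c_pm_113 : CertB 536870912 536870912 1610612736 536870912 697932185 42949674 3 eng mog cd0q1 cd1q3 pd1 false true false .nn 1 1 3
    ndB0q1 ndB1q3 pcB1 cut_pm_113 Ext.none :=
  certB1 (fam := false) (s1 := true) (s2 := false) (a := 1) (b := 1) (c := 3) (cn := .nn) (n1 := ndB0q1) (n2 := ndB1q3) (pc := pcB1) (cut := cut_pm_113) (xt := Ext.none) (P1 := 536870912) (W1 := 536870912) (P2 := 1610612736) (W2 := 536870912) (P3 := 697932185) (W3 := 42949674) (N0 := 3) (En := eng) (mo := mog) (C1 := cd0q1) (C2 := cd1q3) (C3 := pd1)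
    rfl (fun _ => rfl) s4_pm_113

noncomputable def cut_pm_123 : Cut := Cut.of [[⟨0, 1, 0, 67108864⟩, ⟨1, 1, 0, 67108864⟩, ⟨2, 2, 0, 16777216⟩]]

noncomputable def f_pm_123 : ℕ → ℕ → ℕ → ℕ → Bool := onCell 536870912 536870912 1073741824 536870912 697932185 42949674
    (rowB 3 eng mog cd0q1 cd1q3 pd2 1 false true false .npn 1 2 3 (qsf 536870912 536870912 1610612736 536870912 2) ndB0q1 ndB1q3 pcB2 cut_pm_123 Ext.none)

def k0_pm_123 : ∃ t, chk3 f_pm_123 t 1 1 1 = true :=
  ⟨(a (b (b (a (a (b (l 16159272) (l 16151584)) (b (l 16232104) (l 16234928))) (a (b (l 16364168) (l 16334424)) (b (l 16460760) (l 16414232)))) (a (b (a (l 16153928) (l 16243384)) (a (l 16241480) (l 16330952))) (a (b (b (l 16321136) (l 16325976)) (l 16401368)) (b (b (b (l 16394104) (l 16388352)) (l 16391808)) (l 16466440))))) (a (b (a (b (l 16355120) (l 16456392)) (b (l 16432424) (l 16524112))) (a (l 16607000) (l 16660288))) (b (a (b (l 16498712) (l 16585752)) (b (l 16563040) (l 16642368))) (a (b (l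 16667888) (l 2)) (l 2))))) (b (a (b (a (b (a (l 16512064) (l 16554688)) (a (l 16459776) (l 16501792))) (b (a (l 16606984) (l 16651240)) (a (l 16552688) (l 16599456)))) (a (b (b (a (l 16476744) (l 16480600)) (l 16713576)) (a (l 16510152) (l 16550712))) (b (b (a (l 16537624) (l 16739416)) (l 16605560)) (a (l 16597272) (l 2))))) (b (b (a (a (l 16693808) (b (l 16740512) (l 16711928))) (b (a (a (l 16753176) (l 16759456)) (a (b (l 16769224) (l 16758576)) (b (a (l 16771040) (b (l 6) (l 712528389671))) (l 714139039319)))) (a (l 16732472) (l 727560936919)))) (a (a (l 16667256) (l 16672984)) (a (l 468252250247) (l 2)))) (a (b (b (b (l 16729040) (l 2)) (l 2)) (l 2)) (l 2)))) (a (b (a (b (l 16619176) (l 2)) (l 2)) (l 2)) (l 2)))), by decide +kernel⟩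

theorem c_pm_123 : CertB 536870912 536870912 1610612736 536870912 697932185 42949674 3 eng mog cd0q1 cd1q3 pd2 false true false .npn 1 2 3
    ndB0q1 ndB1q3 pcB2 cut_pm_123 Ext.none :=
  certB1 (fam := false) (s1 := true) (s2 := false) (a := 1) (b := 2) (c := 3) (cn := .npn) (n1 := ndB0q1) (n2 := ndB1q3) (pc := pcB2) (cut := cut_pm_123) (xt := Ext.none) (P1 := 536870912) (W1 := 536870912) (P2 := 1610612736) (W2 := 536870912) (P3 := 697932185) (W3 := 42949674) (N0 := 3) (En := eng) (mo := mog) (C1 := cd0q1) (C2 := cd1q3) (C3 := pd2)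
    rfl (fun _ => rfl) k0_pm_123

noncomputable def f_pm_133 : ℕ → ℕ → ℕ → ℕ → Bool := onCell 536870912 536870912 1610612736 536870912 697932185 42949674
    (rowB 3 eng mog cd0q1 cd1q3 pd3 0 false true false .dn 1 3 3 (qsf 536870912 536870912 1610612736 536870912 3) ndB0q1 ndB1q3 pcB3 Cut.none Ext.none)

def k0_pm_133 : ∃ t, chk3 f_pm_133 t 1 1 1 = true :=
  ⟨(a (b (l 1) (a (b (l 1) (a (b (l 1) (l 16687456)) (l 1))) (l 1))) (l 1)), by decide +kernel⟩

theorem c_pm_133 : CertB 536870912 536870912 1610612736 536870912 697932185 42949674 3 eng mog cd0q1 cd1q3 pd3 false true false .dn 1 3 3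
    ndB0q1 ndB1q3 pcB3 Cut.none Ext.none :=
  certB0 (fam := false) (s1 := true) (s2 := false) (a := 1) (b := 3) (c := 3) (cn := .dn) (n1 := ndB0q1) (n2 := ndB1q3) (pc := pcB3) (cut := Cut.none) (xt := Ext.none) (P1 := 536870912) (W1 := 536870912) (P2 := 1610612736) (W2 := 536870912) (P3 := 697932185) (W3 := 42949674) (N0 := 3) (En := eng) (mo := mog) (C1 := cd0q1) (C2 := cd1q3) (C3 := pd3)
    rfl k0_pm_133

noncomputable def cut_pm_202_a : Cut := Cut.of [[⟨0, 1, 0, 67108864⟩, ⟨1, 0, 0, 67108864⟩, ⟨2, 1, 0, 67108864⟩]]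

noncomputable def f_pm_202_a : ℕ → ℕ → ℕ → ℕ → Bool := onCell 0 536870912 0 536870912 697932185 42949674
    (rowB 3 eng mog cd0q2 cd1q2a pd0 0 false true false .pp 2 0 2 (qsf 0 536870912 0 536870912 0) ndB0q2 ndB1q2a pcB0 cut_pm_202_a Ext.none)

def k0_pm_202_a : ∃ t, chk3 f_pm_202_a t 1 1 1 = true :=
  ⟨(a (l 3) (b (l 3) (a (l 3) (b (l 3) (b (l 3) (a (l 3) (l 6))))))), by decide +kernel⟩

theorem c_pm_202_a : CertB 0 536870912 0 536870912 697932185 42949674 3 eng mog cd0q2 cd1q2a pd0 false true false .pp 2 0 2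
    ndB0q2 ndB1q2a pcB0 cut_pm_202_a Ext.none :=
  certB0 (fam := false) (s1 := true) (s2 := false) (a := 2) (b := 0) (c := 2) (cn := .pp) (n1 := ndB0q2) (n2 := ndB1q2a) (pc := pcB0) (cut := cut_pm_202_a) (xt := Ext.none) (P1 := 0) (W1 := 536870912) (P2 := 0) (W2 := 536870912) (P3 := 697932185) (W3 := 42949674) (N0 := 3) (En := eng) (mo := mog) (C1 := cd0q2) (C2 := cd1q2a) (C3 := pd0)
    rfl k0_pm_202_a

noncomputable def cut_pm_202_b : Cut := Cut.of [[⟨0, 1, 0, 67108864⟩, ⟨1, 0, 0, 67108864⟩, ⟨2, 1, 0, 67108864⟩]]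

noncomputable def f_pm_202_b : ℕ → ℕ → ℕ → ℕ → Bool := onCell 0 536870912 1239849684 370763052 697932185 42949674
    (rowB 3 eng mog cd0q2 cd1q2b pd0 0 false true false .pp 2 0 2 (qsf 0 536870912 1239849684 370763052 0) ndB0q2 ndB1q2b pcB0 cut_pm_202_b Ext.none)

def k0_pm_202_b : ∃ t, chk3 f_pm_202_b t 1 1 1 = true :=
  ⟨(l 3), by decide +kernel⟩

theorem c_pm_202_b : CertB 0 536870912 1239849684 370763052 697932185 42949674 3 eng mog cd0q2 cd1q2b pd0 false true false .pp 2 0 2
    ndB0q2 ndB1q2b pcB0 cut_pm_202_b Ext.none :=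
  certB0 (fam := false) (s1 := true) (s2 := false) (a := 2) (b := 0) (c := 2) (cn := .pp) (n1 := ndB0q2) (n2 := ndB1q2b) (pc := pcB0) (cut := cut_pm_202_b) (xt := Ext.none) (P1 := 0) (W1 := 536870912) (P2 := 1239849684) (W2 := 370763052) (P3 := 697932185) (W3 := 42949674) (N0 := 3) (En := eng) (mo := mog) (C1 := cd0q2) (C2 := cd1q2b) (C3 := pd0)
    rfl k0_pm_202_b

noncomputable def f_pm_203 : ℕ → ℕ → ℕ → ℕ → Bool := onCell 0 536870912 0 536870912 697932185 42949674
    (rowB 3 eng mog cd0q2 cd1q3 pd0 1 false true false .up 2 0 3 (qsf 0 536870912 1610612736 536870912 0) ndB0q2 ndB1q3 pcB0 Cut.none Ext.none)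

def k0_pm_203 : ∃ t, chk3 f_pm_203 t 1 1 1 = true :=
  ⟨(l 3), by decide +kernel⟩

theorem c_pm_203 : CertB 0 536870912 1610612736 536870912 697932185 42949674 3 eng mog cd0q2 cd1q3 pd0 false true false .up 2 0 3
    ndB0q2 ndB1q3 pcB0 Cut.none Ext.none :=
  certB1 (fam := false) (s1 := true) (s2 := false) (a := 2) (b := 0) (c := 3) (cn := .up) (n1 := ndB0q2) (n2 := ndB1q3) (pc := pcB0) (cut := Cut.none) (xt := Ext.none) (P1 := 0) (W1 := 536870912) (P2 := 1610612736) (W2 := 536870912) (P3 := 697932185) (W3 := 42949674) (N0 := 3) (En := eng) (mo := mog) (C1 := cd0q2) (C2 := cd1q3) (C3 := pd0)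
    rfl (fun _ => rfl) k0_pm_203

noncomputable def cut_pm_213 : Cut := Cut.of [[⟨0, 1, 0, 67108864⟩, ⟨1, 1, 0, 67108864⟩, ⟨2, 2, 0, 16777216⟩]]

noncomputable def f_pm_213 : ℕ → ℕ → ℕ → ℕ → Bool := onCell 0 536870912 1610612736 536870912 697932185 42949674
    (rowB 3 eng mog cd0q2 cd1q3 pd1 0 false true false .pnn 2 1 3 (qsf 0 536870912 1610612736 536870912 1) ndB0q2 ndB1q3 pcB1 cut_pm_213 Ext.none)

def k0_pm_213 : ∃ t, chk3 f_pm_213 t 1 1 1 = true :=
  ⟨(b (l 3) (a (l 3) (b (l 3) (a (l 3) (b (l 3) (b (l 3) (a (l 3) (b (l 3) (b (l 3) (l 6)))))))))), by decide +kernel⟩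

theorem c_pm_213 : CertB 0 536870912 1610612736 536870912 697932185 42949674 3 eng mog cd0q2 cd1q3 pd1 false true false .pnn 2 1 3
    ndB0q2 ndB1q3 pcB1 cut_pm_213 Ext.none :=
  certB0 (fam := false) (s1 := true) (s2 := false) (a := 2) (b := 1) (c := 3) (cn := .pnn) (n1 := ndB0q2) (n2 := ndB1q3) (pc := pcB1) (cut := cut_pm_213) (xt := Ext.none) (P1 := 0) (W1 := 536870912) (P2 := 1610612736) (W2 := 536870912) (P3 := 697932185) (W3 := 42949674) (N0 := 3) (En := eng) (mo := mog) (C1 := cd0q2) (C2 := cd1q3) (C3 := pd1)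
    rfl k0_pm_213

noncomputable def f_mm_001 : ℕ → ℕ → ℕ → ℕ → Bool := onCell 0 536870912 0 536870912 697932185 42949674
    (rowB 3 eng mog cd0q0 cd1q1 pd0 1 false false false .up 0 0 1 (qsf 0 536870912 536870912 536870912 0) ndB0q0 ndB1q1 pcB0 Cut.none Ext.none)

def k0_mm_001 : ∃ t, chk3 f_mm_001 t 1 1 1 = true :=
  ⟨(l 3), by decide +kernel⟩

theorem c_mm_001 : CertB 0 536870912 536870912 536870912 697932185 42949674 3 eng mog cd0q0 cd1q1 pd0 false false false .up 0 0 1
    ndB0q0 ndB1q1 pcB0 Cut.none Ext.none :=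
  certB1 (fam := false) (s1 := false) (s2 := false) (a := 0) (b := 0) (c := 1) (cn := .up) (n1 := ndB0q0) (n2 := ndB1q1) (pc := pcB0) (cut := Cut.none) (xt := Ext.none) (P1 := 0) (W1 := 536870912) (P2 := 536870912) (W2 := 536870912) (P3 := 697932185) (W3 := 42949674) (N0 := 3) (En := eng) (mo := mog) (C1 := cd0q0) (C2 := cd1q1) (C3 := pd0)
    rfl (fun _ => rfl) k0_mm_001

noncomputable def f_mm_011 : ℕ → ℕ → ℕ → ℕ → Bool := onCell 0 536870912 536870912 536870912 697932185 42949674
    (rowB 3 eng mog cd0q0 cd1q1 pd1 1 false false false .pnn 0 1 1 (qsf 0 536870912 536870912 536870912 1) ndB0q0 ndB1q1 pcB1 Cut.none Ext.none)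

def k0_mm_011 : ∃ t, chk3 f_mm_011 t 1 1 1 = true :=
  ⟨(l 5), by decide +kernel⟩

theorem c_mm_011 : CertB 0 536870912 536870912 536870912 697932185 42949674 3 eng mog cd0q0 cd1q1 pd1 false false false .pnn 0 1 1
    ndB0q0 ndB1q1 pcB1 Cut.none Ext.none :=
  certB1 (fam := false) (s1 := false) (s2 := false) (a := 0) (b := 1) (c := 1) (cn := .pnn) (n1 := ndB0q0) (n2 := ndB1q1) (pc := pcB1) (cut := Cut.none) (xt := Ext.none) (P1 := 0) (W1 := 536870912) (P2 := 536870912) (W2 := 536870912) (P3 := 697932185) (W3 := 42949674) (N0 := 3) (En := eng) (mo := mog) (C1 := cd0q0) (C2 := cd1q1) (C3 := pd1)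
    rfl (fun _ => rfl) k0_mm_011

noncomputable def f_mm_012_a : ℕ → ℕ → ℕ → ℕ → Bool := onCell 0 536870912 0 536870912 697932185 42949674
    (rowB 3 eng mog cd0q0 cd1q2a pd1 0 false false false .pnp 0 1 2 (qsf 0 536870912 0 536870912 1) ndB0q0 ndB1q2a pcB1 Cut.none Ext.none)

def k0_mm_012_a : ∃ t, chk3 f_mm_012_a t 1 1 1 = true :=
  ⟨(l 5), by decide +kernel⟩

theorem c_mm_012_a : CertB 0 536870912 0 536870912 697932185 42949674 3 eng mog cd0q0 cd1q2a pd1 false false false .pnp 0 1 2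
    ndB0q0 ndB1q2a pcB1 Cut.none Ext.none :=
  certB0 (fam := false) (s1 := false) (s2 := false) (a := 0) (b := 1) (c := 2) (cn := .pnp) (n1 := ndB0q0) (n2 := ndB1q2a) (pc := pcB1) (cut := Cut.none) (xt := Ext.none) (P1 := 0) (W1 := 536870912) (P2 := 0) (W2 := 536870912) (P3 := 697932185) (W3 := 42949674) (N0 := 3) (En := eng) (mo := mog) (C1 := cd0q0) (C2 := cd1q2a) (C3 := pd1)
    rfl k0_mm_012_a

noncomputable def f_mm_012_b : ℕ → ℕ → ℕ → ℕ → Bool := onCell 0 536870912 1239849684 370763052 697932185 42949674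
    (rowB 3 eng mog cd0q0 cd1q2b pd1 0 false false false .pnp 0 1 2 (qsf 0 536870912 1239849684 370763052 1) ndB0q0 ndB1q2b pcB1 Cut.none Ext.none)

def k0_mm_012_b : ∃ t, chk3 f_mm_012_b t 1 1 1 = true :=
  ⟨(l 5), by decide +kernel⟩

theorem c_mm_012_b : CertB 0 536870912 1239849684 370763052 697932185 42949674 3 eng mog cd0q0 cd1q2b pd1 false false false .pnp 0 1 2
    ndB0q0 ndB1q2b pcB1 Cut.none Ext.none :=
  certB0 (fam := false) (s1 := false) (s2 := false) (a := 0) (b := 1) (c := 2) (cn := .pnp) (n1 := ndB0q0) (n2 := ndB1q2b) (pc := pcB1) (cut := Cut.none) (xt := Ext.none) (P1 := 0) (W1 := 536870912) (P2 := 1239849684) (W2 := 370763052) (P3 := 697932185) (W3 := 42949674) (N0 := 3) (En := eng) (mo := mog) (C1 := cd0q0) (C2 := cd1q2b) (C3 := pd1)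
    rfl k0_mm_012_b

noncomputable def f_mm_022_a : ℕ → ℕ → ℕ → ℕ → Bool := onCell 0 536870912 0 536870912 697932185 42949674
    (rowB 3 eng mog cd0q0 cd1q2a pd2 0 false false false .pp 0 2 2 (qsf 0 536870912 0 536870912 2) ndB0q0 ndB1q2a pcB2 Cut.none Ext.none)

def k0_mm_022_a : ∃ t, chk3 f_mm_022_a t 1 1 1 = true :=
  ⟨(l 5), by decide +kernel⟩

theorem c_mm_022_a : CertB 0 536870912 0 536870912 697932185 42949674 3 eng mog cd0q0 cd1q2a pd2 false false false .pp 0 2 2
    ndB0q0 ndB1q2a pcB2 Cut.none Ext.none :=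
  certB0 (fam := false) (s1 := false) (s2 := false) (a := 0) (b := 2) (c := 2) (cn := .pp) (n1 := ndB0q0) (n2 := ndB1q2a) (pc := pcB2) (cut := Cut.none) (xt := Ext.none) (P1 := 0) (W1 := 536870912) (P2 := 0) (W2 := 536870912) (P3 := 697932185) (W3 := 42949674) (N0 := 3) (En := eng) (mo := mog) (C1 := cd0q0) (C2 := cd1q2a) (C3 := pd2)
    rfl k0_mm_022_a

noncomputable def f_mm_022_b : ℕ → ℕ → ℕ → ℕ → Bool := onCell 0 536870912 1239849684 370763052 697932185 42949674
    (rowB 3 eng mog cd0q0 cd1q2b pd2 0 false false false .pp 0 2 2 (qsf 0 536870912 1239849684 370763052 2) ndB0q0 ndB1q2b pcB2 Cut.none Ext.none)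

def k0_mm_022_b : ∃ t, chk3 f_mm_022_b t 1 1 1 = true :=
  ⟨(l 5), by decide +kernel⟩

theorem c_mm_022_b : CertB 0 536870912 1239849684 370763052 697932185 42949674 3 eng mog cd0q0 cd1q2b pd2 false false false .pp 0 2 2
    ndB0q0 ndB1q2b pcB2 Cut.none Ext.none :=
  certB0 (fam := false) (s1 := false) (s2 := false) (a := 0) (b := 2) (c := 2) (cn := .pp) (n1 := ndB0q0) (n2 := ndB1q2b) (pc := pcB2) (cut := Cut.none) (xt := Ext.none) (P1 := 0) (W1 := 536870912) (P2 := 1239849684) (W2 := 370763052) (P3 := 697932185) (W3 := 42949674) (N0 := 3) (En := eng) (mo := mog) (C1 := cd0q0) (C2 := cd1q2b) (C3 := pd2)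
    rfl k0_mm_022_b

noncomputable def f_mm_023 : ℕ → ℕ → ℕ → ℕ → Bool := onCell 0 536870912 1610612736 536870912 697932185 42949674
    (rowB 3 eng mog cd0q0 cd1q3 pd2 0 false false false .up 0 2 3 (qsf 0 536870912 1610612736 536870912 2) ndB0q0 ndB1q3 pcB2 Cut.none Ext.none)

def k0_mm_023 : ∃ t, chk3 f_mm_023 t 1 1 1 = true :=
  ⟨(l 5), by decide +kernel⟩

theorem c_mm_023 : CertB 0 536870912 1610612736 536870912 697932185 42949674 3 eng mog cd0q0 cd1q3 pd2 false false false .up 0 2 3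
    ndB0q0 ndB1q3 pcB2 Cut.none Ext.none :=
  certB0 (fam := false) (s1 := false) (s2 := false) (a := 0) (b := 2) (c := 3) (cn := .up) (n1 := ndB0q0) (n2 := ndB1q3) (pc := pcB2) (cut := Cut.none) (xt := Ext.none) (P1 := 0) (W1 := 536870912) (P2 := 1610612736) (W2 := 536870912) (P3 := 697932185) (W3 := 42949674) (N0 := 3) (En := eng) (mo := mog) (C1 := cd0q0) (C2 := cd1q3) (C3 := pd2)
    rfl k0_mm_023

noncomputable def f_mm_033 : ℕ → ℕ → ℕ → ℕ → Bool := onCell 0 536870912 1610612736 536870912 697932185 42949674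
    (rowB 3 eng mog cd0q0 cd1q3 pd3 0 false false false .pnn 0 3 3 (qsf 0 536870912 1610612736 536870912 3) ndB0q0 ndB1q3 pcB3 Cut.none Ext.none)

def k0_mm_033 : ∃ t, chk3 f_mm_033 t 1 1 1 = true :=
  ⟨(l 5), by decide +kernel⟩

theorem c_mm_033 : CertB 0 536870912 1610612736 536870912 697932185 42949674 3 eng mog cd0q0 cd1q3 pd3 false false false .pnn 0 3 3
    ndB0q0 ndB1q3 pcB3 Cut.none Ext.none :=
  certB0 (fam := false) (s1 := false) (s2 := false) (a := 0) (b := 3) (c := 3) (cn := .pnn) (n1 := ndB0q0) (n2 := ndB1q3) (pc := pcB3) (cut := Cut.none) (xt := Ext.none) (P1 := 0) (W1 := 536870912) (P2 := 1610612736) (W2 := 536870912) (P3 := 697932185) (W3 := 42949674) (N0 := 3) (En := eng) (mo := mog) (C1 := cd0q0) (C2 := cd1q3) (C3 := pd3)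
    rfl k0_mm_033

noncomputable def f_mm_101 : ℕ → ℕ → ℕ → ℕ → Bool := onCell 536870912 536870912 536870912 536870912 697932185 42949674
    (rowB 3 eng mog cd0q1 cd1q1 pd0 0 false false false .npn 1 0 1 (qsf 536870912 536870912 536870912 536870912 0) ndB0q1 ndB1q1 pcB0 Cut.none Ext.none)

def k0_mm_101 : ∃ t, chk3 f_mm_101 t 1 1 1 = true :=
  ⟨(l 3), by decide +kernel⟩

theorem c_mm_101 : CertB 536870912 536870912 536870912 536870912 697932185 42949674 3 eng mog cd0q1 cd1q1 pd0 false false false .npn 1 0 1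
    ndB0q1 ndB1q1 pcB0 Cut.none Ext.none :=
  certB0 (fam := false) (s1 := false) (s2 := false) (a := 1) (b := 0) (c := 1) (cn := .npn) (n1 := ndB0q1) (n2 := ndB1q1) (pc := pcB0) (cut := Cut.none) (xt := Ext.none) (P1 := 536870912) (W1 := 536870912) (P2 := 536870912) (W2 := 536870912) (P3 := 697932185) (W3 := 42949674) (N0 := 3) (En := eng) (mo := mog) (C1 := cd0q1) (C2 := cd1q1) (C3 := pd0)
    rfl k0_mm_101

noncomputable def f_mm_102_a : ℕ → ℕ → ℕ → ℕ → Bool := onCell 536870912 536870912 0 536870912 697932185 42949674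
    (rowB 3 eng mog cd0q1 cd1q2a pd0 0 false false false .npp 1 0 2 (qsf 536870912 536870912 0 536870912 0) ndB0q1 ndB1q2a pcB0 Cut.none Ext.none)

def k0_mm_102_a : ∃ t, chk3 f_mm_102_a t 1 1 1 = true :=
  ⟨(a (l 5) (l 3)), by decide +kernel⟩

theorem c_mm_102_a : CertB 536870912 536870912 0 536870912 697932185 42949674 3 eng mog cd0q1 cd1q2a pd0 false false false .npp 1 0 2
    ndB0q1 ndB1q2a pcB0 Cut.none Ext.none :=
  certB0 (fam := false) (s1 := false) (s2 := false) (a := 1) (b := 0) (c := 2) (cn := .npp) (n1 := ndB0q1) (n2 := ndB1q2a) (pc := pcB0) (cut := Cut.none) (xt := Ext.none) (P1 := 536870912) (W1 := 536870912) (P2 := 0) (W2 := 536870912) (P3 := 697932185) (W3 := 42949674) (N0 := 3) (En := eng) (mo := mog) (C1 := cd0q1) (C2 := cd1q2a) (C3 := pd0)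
    rfl k0_mm_102_a

noncomputable def f_mm_102_b : ℕ → ℕ → ℕ → ℕ → Bool := onCell 536870912 536870912 1239849684 370763052 697932185 42949674
    (rowB 3 eng mog cd0q1 cd1q2b pd0 0 false false false .npp 1 0 2 (qsf 536870912 536870912 1239849684 370763052 0) ndB0q1 ndB1q2b pcB0 Cut.none Ext.none)

def k0_mm_102_b : ∃ t, chk3 f_mm_102_b t 1 1 1 = true :=
  ⟨(l 5), by decide +kernel⟩

theorem c_mm_102_b : CertB 536870912 536870912 1239849684 370763052 697932185 42949674 3 eng mog cd0q1 cd1q2b pd0 false false false .npp 1 0 2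
    ndB0q1 ndB1q2b pcB0 Cut.none Ext.none :=
  certB0 (fam := false) (s1 := false) (s2 := false) (a := 1) (b := 0) (c := 2) (cn := .npp) (n1 := ndB0q1) (n2 := ndB1q2b) (pc := pcB0) (cut := Cut.none) (xt := Ext.none) (P1 := 536870912) (W1 := 536870912) (P2 := 1239849684) (W2 := 370763052) (P3 := 697932185) (W3 := 42949674) (N0 := 3) (En := eng) (mo := mog) (C1 := cd0q1) (C2 := cd1q2b) (C3 := pd0)
    rfl k0_mm_102_b

noncomputable def f_mm_112_a : ℕ → ℕ → ℕ → ℕ → Bool := onCell 536870912 536870912 0 536870912 697932185 42949674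
    (rowB 3 eng mog cd0q1 cd1q2a pd1 2 false false false .dn 1 1 2 (qsf 536870912 536870912 0 536870912 1) ndB0q1 ndB1q2a pcB1 Cut.none Ext.none)

def k0_mm_112_a : ∃ t, chk3 f_mm_112_a t 1 1 1 = true :=
  ⟨(l 5), by decide +kernel⟩

theorem c_mm_112_a : CertB 536870912 536870912 0 536870912 697932185 42949674 3 eng mog cd0q1 cd1q2a pd1 false false false .dn 1 1 2
    ndB0q1 ndB1q2a pcB1 Cut.none Ext.none :=
  certB2 (fam := false) (s1 := false) (s2 := false) (a := 1) (b := 1) (c := 2) (cn := .dn) (n1 := ndB0q1) (n2 := ndB1q2a) (pc := pcB1) (cut := Cut.none) (xt := Ext.none) (P1 := 536870912) (W1 := 536870912) (P2 := 0) (W2 := 536870912) (P3 := 697932185) (W3 := 42949674) (N0 := 3) (En := eng) (mo := mog) (C1 := cd0q1) (C2 := cd1q2a) (C3 := pd1)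
    rfl (fun _ => rfl) k0_mm_112_a

noncomputable def f_mm_112_b : ℕ → ℕ → ℕ → ℕ → Bool := onCell 536870912 536870912 1239849684 370763052 697932185 42949674
    (rowB 3 eng mog cd0q1 cd1q2b pd1 0 false false false .dn 1 1 2 (qsf 536870912 536870912 1239849684 370763052 1) ndB0q1 ndB1q2b pcB1 Cut.none Ext.none)

def k0_mm_112_b : ∃ t, chk3 f_mm_112_b t 1 1 1 = true :=
  ⟨(l 5), by decide +kernel⟩

theorem c_mm_112_b : CertB 536870912 536870912 1239849684 370763052 697932185 42949674 3 eng mog cd0q1 cd1q2b pd1 false false false .dn 1 1 2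
    ndB0q1 ndB1q2b pcB1 Cut.none Ext.none :=
  certB0 (fam := false) (s1 := false) (s2 := false) (a := 1) (b := 1) (c := 2) (cn := .dn) (n1 := ndB0q1) (n2 := ndB1q2b) (pc := pcB1) (cut := Cut.none) (xt := Ext.none) (P1 := 536870912) (W1 := 536870912) (P2 := 1239849684) (W2 := 370763052) (P3 := 697932185) (W3 := 42949674) (N0 := 3) (En := eng) (mo := mog) (C1 := cd0q1) (C2 := cd1q2b) (C3 := pd1)
    rfl k0_mm_112_b

noncomputable def f_mm_113 : ℕ → ℕ → ℕ → ℕ → Bool := onCell 536870912 536870912 1610612736 536870912 697932185 42949674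
    (rowB 3 eng mog cd0q1 cd1q3 pd1 0 false false false .nn 1 1 3 (qsf 536870912 536870912 1610612736 536870912 1) ndB0q1 ndB1q3 pcB1 Cut.none Ext.none)

def k0_mm_113 : ∃ t, chk3 f_mm_113 t 1 1 1 = true :=
  ⟨(l 5), by decide +kernel⟩

theorem c_mm_113 : CertB 536870912 536870912 1610612736 536870912 697932185 42949674 3 eng mog cd0q1 cd1q3 pd1 false false false .nn 1 1 3
    ndB0q1 ndB1q3 pcB1 Cut.none Ext.none :=
  certB0 (fam := false) (s1 := false) (s2 := false) (a := 1) (b := 1) (c := 3) (cn := .nn) (n1 := ndB0q1) (n2 := ndB1q3) (pc := pcB1) (cut := Cut.none) (xt := Ext.none) (P1 := 536870912) (W1 := 536870912) (P2 := 1610612736) (W2 := 536870912) (P3 := 697932185) (W3 := 42949674) (N0 := 3) (En := eng) (mo := mog) (C1 := cd0q1) (C2 := cd1q3) (C3 := pd1)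
    rfl k0_mm_113

noncomputable def f_mm_123 : ℕ → ℕ → ℕ → ℕ → Bool := onCell 536870912 536870912 1610612736 536870912 697932185 42949674
    (rowB 3 eng mog cd0q1 cd1q3 pd2 0 false false false .npn 1 2 3 (qsf 536870912 536870912 1610612736 536870912 2) ndB0q1 ndB1q3 pcB2 Cut.none Ext.none)

def k0_mm_123 : ∃ t, chk3 f_mm_123 t 1 1 1 = true :=
  ⟨(l 5), by decide +kernel⟩

theorem c_mm_123 : CertB 536870912 536870912 1610612736 536870912 697932185 42949674 3 eng mog cd0q1 cd1q3 pd2 false false false .npn 1 2 3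
    ndB0q1 ndB1q3 pcB2 Cut.none Ext.none :=
  certB0 (fam := false) (s1 := false) (s2 := false) (a := 1) (b := 2) (c := 3) (cn := .npn) (n1 := ndB0q1) (n2 := ndB1q3) (pc := pcB2) (cut := Cut.none) (xt := Ext.none) (P1 := 536870912) (W1 := 536870912) (P2 := 1610612736) (W2 := 536870912) (P3 := 697932185) (W3 := 42949674) (N0 := 3) (En := eng) (mo := mog) (C1 := cd0q1) (C2 := cd1q3) (C3 := pd2)
    rfl k0_mm_123

noncomputable def f_mm_133 : ℕ → ℕ → ℕ → ℕ → Bool := onCell 536870912 536870912 1610612736 536870912 697932185 42949674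
    (rowB 3 eng mog cd0q1 cd1q3 pd3 0 false false false .dn 1 3 3 (qsf 536870912 536870912 1610612736 536870912 3) ndB0q1 ndB1q3 pcB3 Cut.none Ext.none)

def k0_mm_133 : ∃ t, chk3 f_mm_133 t 1 1 1 = true :=
  ⟨(l 5), by decide +kernel⟩

theorem c_mm_133 : CertB 536870912 536870912 1610612736 536870912 697932185 42949674 3 eng mog cd0q1 cd1q3 pd3 false false false .dn 1 3 3
    ndB0q1 ndB1q3 pcB3 Cut.none Ext.none :=
  certB0 (fam := false) (s1 := false) (s2 := false) (a := 1) (b := 3) (c := 3) (cn := .dn) (n1 := ndB0q1) (n2 := ndB1q3) (pc := pcB3) (cut := Cut.none) (xt := Ext.none) (P1 := 536870912) (W1 := 536870912) (P2 := 1610612736) (W2 := 536870912) (P3 := 697932185) (W3 := 42949674) (N0 := 3) (En := eng) (mo := mog) (C1 := cd0q1) (C2 := cd1q3) (C3 := pd3)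
    rfl k0_mm_133

noncomputable def f_mm_202_a : ℕ → ℕ → ℕ → ℕ → Bool := onCell 0 536870912 0 536870912 697932185 42949674
    (rowB 3 eng mog cd0q2 cd1q2a pd0 0 false false false .pp 2 0 2 (qsf 0 536870912 0 536870912 0) ndB0q2 ndB1q2a pcB0 Cut.none Ext.none)

def k0_mm_202_a : ∃ t, chk3 f_mm_202_a t 1 1 1 = true :=
  ⟨(l 3), by decide +kernel⟩

theorem c_mm_202_a : CertB 0 536870912 0 536870912 697932185 42949674 3 eng mog cd0q2 cd1q2a pd0 false false false .pp 2 0 2
    ndB0q2 ndB1q2a pcB0 Cut.none Ext.none :=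
  certB0 (fam := false) (s1 := false) (s2 := false) (a := 2) (b := 0) (c := 2) (cn := .pp) (n1 := ndB0q2) (n2 := ndB1q2a) (pc := pcB0) (cut := Cut.none) (xt := Ext.none) (P1 := 0) (W1 := 536870912) (P2 := 0) (W2 := 536870912) (P3 := 697932185) (W3 := 42949674) (N0 := 3) (En := eng) (mo := mog) (C1 := cd0q2) (C2 := cd1q2a) (C3 := pd0)
    rfl k0_mm_202_a

noncomputable def f_mm_202_b : ℕ → ℕ → ℕ → ℕ → Bool := onCell 0 536870912 1239849684 370763052 697932185 42949674
    (rowB 3 eng mog cd0q2 cd1q2b pd0 0 false false false .pp 2 0 2 (qsf 0 536870912 1239849684 370763052 0) ndB0q2 ndB1q2b pcB0 Cut.none Ext.none)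

def k0_mm_202_b : ∃ t, chk3 f_mm_202_b t 1 1 1 = true :=
  ⟨(l 3), by decide +kernel⟩

theorem c_mm_202_b : CertB 0 536870912 1239849684 370763052 697932185 42949674 3 eng mog cd0q2 cd1q2b pd0 false false false .pp 2 0 2
    ndB0q2 ndB1q2b pcB0 Cut.none Ext.none :=
  certB0 (fam := false) (s1 := false) (s2 := false) (a := 2) (b := 0) (c := 2) (cn := .pp) (n1 := ndB0q2) (n2 := ndB1q2b) (pc := pcB0) (cut := Cut.none) (xt := Ext.none) (P1 := 0) (W1 := 536870912) (P2 := 1239849684) (W2 := 370763052) (P3 := 697932185) (W3 := 42949674) (N0 := 3) (En := eng) (mo := mog) (C1 := cd0q2) (C2 := cd1q2b) (C3 := pd0)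
    rfl k0_mm_202_b

noncomputable def f_mm_203 : ℕ → ℕ → ℕ → ℕ → Bool := onCell 0 536870912 0 536870912 697932185 42949674
    (rowB 3 eng mog cd0q2 cd1q3 pd0 1 false false false .up 2 0 3 (qsf 0 536870912 1610612736 536870912 0) ndB0q2 ndB1q3 pcB0 Cut.none Ext.none)

def k0_mm_203 : ∃ t, chk3 f_mm_203 t 1 1 1 = true :=
  ⟨(l 3), by decide +kernel⟩

theorem c_mm_203 : CertB 0 536870912 1610612736 536870912 697932185 42949674 3 eng mog cd0q2 cd1q3 pd0 false false false .up 2 0 3
    ndB0q2 ndB1q3 pcB0 Cut.none Ext.none :=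
  certB1 (fam := false) (s1 := false) (s2 := false) (a := 2) (b := 0) (c := 3) (cn := .up) (n1 := ndB0q2) (n2 := ndB1q3) (pc := pcB0) (cut := Cut.none) (xt := Ext.none) (P1 := 0) (W1 := 536870912) (P2 := 1610612736) (W2 := 536870912) (P3 := 697932185) (W3 := 42949674) (N0 := 3) (En := eng) (mo := mog) (C1 := cd0q2) (C2 := cd1q3) (C3 := pd0)
    rfl (fun _ => rfl) k0_mm_203

noncomputable def f_mm_213 : ℕ → ℕ → ℕ → ℕ → Bool := onCell 0 536870912 1610612736 536870912 697932185 42949674
    (rowB 3 eng mog cd0q2 cd1q3 pd1 0 false false false .pnn 2 1 3 (qsf 0 536870912 1610612736 536870912 1) ndB0q2 ndB1q3 pcB1 Cut.none Ext.none)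

def k0_mm_213 : ∃ t, chk3 f_mm_213 t 1 1 1 = true :=
  ⟨(a (l 3) (l 5)), by decide +kernel⟩

theorem c_mm_213 : CertB 0 536870912 1610612736 536870912 697932185 42949674 3 eng mog cd0q2 cd1q3 pd1 false false false .pnn 2 1 3
    ndB0q2 ndB1q3 pcB1 Cut.none Ext.none :=
  certB0 (fam := false) (s1 := false) (s2 := false) (a := 2) (b := 1) (c := 3) (cn := .pnn) (n1 := ndB0q2) (n2 := ndB1q3) (pc := pcB1) (cut := Cut.none) (xt := Ext.none) (P1 := 0) (W1 := 536870912) (P2 := 1610612736) (W2 := 536870912) (P3 := 697932185) (W3 := 42949674) (N0 := 3) (En := eng) (mo := mog) (C1 := cd0q2) (C2 := cd1q3) (C3 := pd1)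
    rfl k0_mm_213

end Pool.Agent.Strip051.G.I6500_6900.Tab.C.BB01

namespace Pool.Agent.Strip051.G.I6500_6900.Tab.C.BB02

open Pool.Agent.Strip051.PB Pool.Agent.Strip051.PB.T
open Pool.Agent.Strip051.G.I6500_6900.Tab

noncomputable def f_pp_001 : ℕ → ℕ → ℕ → ℕ → Bool := onCell 0 536870912 536870912 536870912 697932185 42949674
    (rowB 3 eng mog cd0q0 cd2q1 pd0 0 false true true .up 0 0 1 (qsf 0 536870912 536870912 536870912 0) ndB0q0 ndB2q1 pcB0 Cut.none Ext.none)

def k0_pp_001 : ∃ t, chk3 f_pp_001 t 1 1 1 = true :=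
  ⟨(l 3), by decide +kernel⟩

theorem c_pp_001 : CertB 0 536870912 536870912 536870912 697932185 42949674 3 eng mog cd0q0 cd2q1 pd0 false true true .up 0 0 1
    ndB0q0 ndB2q1 pcB0 Cut.none Ext.none :=
  certB0 (fam := false) (s1 := true) (s2 := true) (a := 0) (b := 0) (c := 1) (cn := .up) (n1 := ndB0q0) (n2 := ndB2q1) (pc := pcB0) (cut := Cut.none) (xt := Ext.none) (P1 := 0) (W1 := 536870912) (P2 := 536870912) (W2 := 536870912) (P3 := 697932185) (W3 := 42949674) (N0 := 3) (En := eng) (mo := mog) (C1 := cd0q0) (C2 := cd2q1) (C3 := pd0)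
    rfl k0_pp_001

noncomputable def f_pp_011 : ℕ → ℕ → ℕ → ℕ → Bool := onCell 0 536870912 536870912 536870912 697932185 42949674
    (rowB 3 eng mog cd0q0 cd2q1 pd1 0 false true true .pnn 0 1 1 (qsf 0 536870912 536870912 536870912 1) ndB0q0 ndB2q1 pcB1 Cut.none Ext.none)

def k0_pp_011 : ∃ t, chk3 f_pp_011 t 1 1 1 = true :=
  ⟨(l 3), by decide +kernel⟩

theorem c_pp_011 : CertB 0 536870912 536870912 536870912 697932185 42949674 3 eng mog cd0q0 cd2q1 pd1 false true true .pnn 0 1 1
    ndB0q0 ndB2q1 pcB1 Cut.none Ext.none :=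
  certB0 (fam := false) (s1 := true) (s2 := true) (a := 0) (b := 1) (c := 1) (cn := .pnn) (n1 := ndB0q0) (n2 := ndB2q1) (pc := pcB1) (cut := Cut.none) (xt := Ext.none) (P1 := 0) (W1 := 536870912) (P2 := 536870912) (W2 := 536870912) (P3 := 697932185) (W3 := 42949674) (N0 := 3) (En := eng) (mo := mog) (C1 := cd0q0) (C2 := cd2q1) (C3 := pd1)
    rfl k0_pp_011

noncomputable def cut_pp_012_a : Cut := Cut.of [[⟨0, 0, 0, 67108864⟩, ⟨1, 1, 0, 67108864⟩, ⟨2, 1, 0, 67108864⟩]]

noncomputable def f_pp_012_a : ℕ → ℕ → ℕ → ℕ → Bool := onCell 536870912 536870912 0 536870912 697932185 42949674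
    (rowB 3 eng mog cd0q0 cd2q2a pd1 2 false true true .pnp 0 1 2 (qsf 0 536870912 0 536870912 1) ndB0q0 ndB2q2a pcB1 cut_pp_012_a Ext.none)

def k0_pp_012_a : ∃ t, chk3 f_pp_012_a t 4 1 1 = true :=
  ⟨(l 3), by decide +kernel⟩

def k1_pp_012_a : ∃ t, chk3 f_pp_012_a t 10 2 1 = true :=
  ⟨(l 3), by decide +kernel⟩

def k2_pp_012_a : ∃ t, chk3 f_pp_012_a t 22 4 1 = true :=
  ⟨(l 3), by decide +kernel⟩

def k3_pp_012_a : ∃ t, chk3 f_pp_012_a t 46 32 1 = true :=
  ⟨(a (b (a (b (a (l 3) (a (l 3) (c (c (l 134922345063) (l 135996084967)) (l 137069824039)))) (l 3)) (b (a (a (b (c (b (a (b (l 53854837159) (l 99488865047)) (l 16762408)) (a (l 3) (b (l 79087770007) (l 124184924151)))) (b (l 16760680) (l 107005053479))) (l 3)) (c (b (c (l 37211838903) (l 16761480)) (b (c (a (l 112910635751) (l 61907900679)) (l 85530219879)) (l 130627375127))) (b (l 16760056) (l 100562601991)))) (b (c (l 16760688) (l 16758736)) (c (c (a (b (l 16762264) (a (l 76403415271) (l 16762472))) (l 16761624))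 (l 40969933927)) (l 32380001639)))) (a (l 3) (b (c (a (b (c (a (l 3) (l 94657026055)) (l 110763149735)) (l 3)) (b (l 39359321463) (a (l 112373763031) (l 59760416039)))) (a (l 119353081975) (l 60297283463))) (c (l 132774858855) (l 134922339047)))))) (l 3)) (b (a (b (c (l 16763792) (l 16756560)) (a (c (b (l 16760712) (a (c (b (a (l 75329672567) (l 16762040)) (l 108078796183)) (l 80161510183)) (l 33990611735))) (b (l 16758872) (a (l 81235248775) (l 16759384)))) (c (l 16759432) (l 16757592)))) (c (l 16766480) (l 16753968))) (a (b (a (b (a (l 3) (c (a (l 119889955255) (b (l 59223544295) (l 125258664039))) (l 96267634343))) (l 3)) (c (b (c (a (b (l 16761392) (l 59223544583)) (l 16760760)) (l 16762896)) (a (b (l 107541924855) (l 3)) (c (b (l 16761384) (l 81772122647)) (l 61371026711)))) (b (l 16759008) (a (l 109152536599) (l 16759496))))) (a (l 3) (c (b (l 130090502647) (l 3)) (l 133311725623)))) (b (c (c (l 16764312) (l 16758152)) (l 16756856)) (a (c (b (a (b (l 56539188983)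 (l 105931309975)) (l 16760320)) (a (l 3) (c (b (l 80161509047) (l 123648050775)) (l 93046410151)))) (b (l 49022998135) (l 110763145383))) (c (c (b (l 16759480) (a (l 47412382727) (l 16759896))) (l 16759064)) (l 16757888))))))), by decide +kernel⟩

def k4_pp_012_a : ∃ t, chk3 f_pp_012_a t 46 33 1 = true :=
  ⟨(a (l 3) (b (a (l 3) (b (a (l 3) (c (b (a (c (l 111300019351) (l 112373759655)) (b (l 16760128) (l 76403411863))) (l 126869275543)) (b (l 70497834135) (l 129016756439)))) (l 3))) (l 3))), by decide +kernel⟩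

def k5_pp_012_a : ∃ t, chk3 f_pp_012_a t 46 17 1 = true :=
  ⟨(l 3), by decide +kernel⟩

def k6_pp_012_a : ∃ t, chk3 f_pp_012_a t 47 8 1 = true :=
  ⟨(b (a (b (c (b (l 16761336) (a (l 16761304) (l 16752640))) (a (l 16762832) (l 16759256))) (b (a (b (a (b (l 16763552) (a (c (a (l 86067088231) (l 58686670983)) (l 16758904)) (l 27011285495))) (l 16762280)) (a (a (l 3) (b (b (a (l 96267633159) (l 16760552)) (l 119889950647)) (l 3))) (c (b (c (l 37211833831) (l 16758736)) (a (l 105931307847) (c (l 57076057367) (l 16759176)))) (b (l 16757744) (l 74255925047))))) (c (c (l 16761768) (l 16755736)) (l 16765112))) (a (b (a (l 3) (c (l 123648049047) (l 125258659495))) (l 3)) (b (b (a (a (b (l 46338637655) (l 87140827239)) (l 16758080)) (l 16756792)) (c (a (a (l 3) (c (l 87140824999) (l 81772117815))) (l 30769381383)) (a (l 90898923479) (l 16757144)))) (a (l 3) (c (b (a (l 99488855319) (l 50633604887)) (l 115594983223)) (l 92509531303))))))) (a (b (l 16756760) (b (l 16762352)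 (b (l 16759896) (a (a (b (l 16757336) (b (l 16760632) (l 78550891623))) (l 16762176)) (l 16760888))))) (b (l 16763688) (c (b (l 16749280) (l 16763288)) (l 16759936))))) (b (a (l 3) (b (b (a (a (a (l 3) (b (b (l 57076054583) (l 95730760487)) (l 3))) (c (b (l 16760120) (a (l 92509531895) (l 43654281047))) (l 47412378183))) (c (l 16760656) (l 16754416))) (b (a (a (l 3) (c (l 109152530727) (l 110763141975))) (a (a (b (l 16757336) (l 71034697351)) (l 16756712)) (l 16755432))) (a (l 3) (a (a (l 116131851191) (b (l 48486118343) (l 88214566087))) (l 18958217927))))) (a (l 3) (b (a (l 3) (c (b (c (a (l 86067079735) (l 37748698967)) (l 57612924263)) (a (l 3) (l 97341368519))) (l 71034698023))) (l 3))))) (l 3))), by decide +kernel⟩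

def k7_pp_012_a : ∃ t, chk3 f_pp_012_a t 23 9 1 = true :=
  ⟨(l 3), by decide +kernel⟩

def k8_pp_012_a : ∃ t, chk3 f_pp_012_a t 11 5 1 = true :=
  ⟨(l 3), by decide +kernel⟩

def k9_pp_012_a : ∃ t, chk3 f_pp_012_a t 5 3 1 = true :=
  ⟨(l 3), by decide +kernel⟩

def k10_pp_012_a : ∃ t, chk3 f_pp_012_a t 48 8 1 = true :=
  ⟨(b (b (a (l 16758272) (l 16729912)) (a (c (b (l 16744064) (l 16758128)) (l 16754456)) (c (l 16759760) (l 16736472)))) (b (a (b (c (a (l 16758144) (l 16749472)) (l 16760520)) (c (a (b (a (a (a (b (l 16756528) (l 61907890087)) (l 16759160)) (l 16755920)) (l 16754664)) (b (a (a (l 108615657607) (a (l 76403404423) (l 50633600007))) (l 16755944)) (a (l 3) (a (b (l 56002308967) (l 101099463783)) (l 29158762679))))) (c (l 16758432) (l 16752816))) (a (b (l 16760072) (a (l 92509529335) (l 35601216263))) (l 16752272)))) (c (b (l 16754728) (a (l 16754832) (l 16746120))) (b (l 16742640) (l 16757264)))) (a (b (a (b (a (l 3) (a (l 3) (b (a (l 109152527159) (b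 (l 61907888023) (l 3))) (l 3)))) (l 3)) (b (b (a (a (a (b (l 16756240) (l 73182177127)) (l 16757360)) (l 16755408)) (l 16754120)) (a (c (a (c (l 96267625239) (l 97341366887)) (b (l 16757512) (a (l 90898916679) (l 47412372487)))) (l 64055373895)) (l 16757024))) (a (c (l 108615657591) (l 110226270007)) (c (b (a (b (a (l 57076048839) (l 16756104)) (l 85530206135)) (l 16755720)) (c (a (l 3) (b (l 60297274695) (l 98951979175))) (l 86603948327))) (l 54391698535))))) (l 3)) (a (b (c (b (l 16757488) (c (a (b (l 16754552) (a (l 27548148567) (l 16755088))) (l 16753384)) (l 16759304))) (l 16758016)) (b (b (a (c (a (l 86603947959) (a (l 46875501575) (l 16755800))) (l 56539180167)) (l 16754672)) (a (l 100025721511) (a (b (l 31306244487) (l 68887208887)) (l 16755272)))) (a (l 3) (a (l 3) (b (b (l 48486113799) (l 83382723415)) (l 3)))))) (b (b (l 16753680) (l 16755720)) (a (b (l 16753448) (c (b (l 16755056) (a (l 70497822167) (l 30232502599))) (l 16758016))) (c (l 16758128) (l 16752568)))))))),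 by decide +kernel⟩

def k11_pp_012_a : ∃ t, chk3 f_pp_012_a t 49 8 1 = true :=
  ⟨(b (a (b (l 16722208) (l 16750976)) (l 16738936)) (a (a (b (l 16750992) (c (b (l 16756776) (l 16755528)) (l 16758040))) (b (l 16756944) (b (l 16741992) (l 16751480)))) (b (l 16750760) (c (b (l 16736720) (l 16751264)) (l 16752904))))), by decide +kernel⟩

def k12_pp_012_a : ∃ t, chk3 f_pp_012_a t 24 9 1 = true :=
  ⟨(b (a (a (l 3) (b (b (a (l 3) (b (c (a (b (l 90362044455) (l 3)) (a (b (l 39359308407) (l 94120140423)) (b (l 16754936) (l 50633597735)))) (a (l 94657012455) (l 43654279255))) (l 3))) (l 3)) (l 3))) (a (a (b (b (c (b (c (l 16755952) (l 16753256)) (a (a (b (l 59223532407) (l 3)) (b (l 16755224) (l 68350337799))) (c (b (l 16753944) (l 16756872)) (l 16754424)))) (b (l 16753080) (a (l 51707343191) (l 16754352)))) (b (a (l 3) (b (a (l 79624626519) (a (l 52244209271) (l 16755312))) (l 91972656999))) (l 3))) (l 3)) (b (b (c (l 16755968) (l 16750288)) (b (a (a (b (l 16754632) (a (l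 64055369223) (l 40969919543))) (l 16754216)) (l 16752776)) (c (a (b (c (l 71034689991) (l 65129113735)) (l 3)) (b (l 16754376) (a (l 67276595111) (l 16756224)))) (a (l 72108437223) (l 16757432))))) (b (b (a (l 3) (c (l 83919592919) (l 86603947639))) (l 3)) (l 3)))) (b (a (c (c (b (l 16747072) (l 16756328)) (l 16759312)) (l 16758848)) (c (b (l 16742848) (l 16757480)) (l 16754408))) (b (a (a (b (c (a (b (l 38822435895) (l 86067075239)) (b (l 16754080) (l 49022983239))) (l 44191148615)) (l 3)) (c (b (l 16753136) (b (a (l 57076046903) (l 16754184)) (l 73719043559))) (b (l 16752968) (l 52244212391)))) (c (a (c (b (l 16751200) (b (l 16752720) (l 16756336))) (l 16757368)) (l 16750120)) (l 16755992))) (a (l 3) (c (b (a (a (l 78550881735) (b (l 36138080071) (l 81772106439))) (a (b (l 16753248) (l 47412369127)) (l 16752736))) (a (l 3) (a (l 3) (b (l 54391690807) (l 3))))) (b (a (l 61371017175) (l 16753008)) (l 71034696951)))))))) (l 3)), by decide +kernel⟩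

def k13_pp_012_a : ∃ t, chk3 f_pp_012_a t 50 8 1 = true :=
  ⟨(b (a (l 16730368) (b (l 16696800) (l 16704512))) (a (b (l 16721072) (a (l 16741920) (l 16726904))) (b (l 16712136) (l 16741008)))), by decide +kernel⟩

def k14_pp_012_a : ∃ t, chk3 f_pp_012_a t 50 9 1 = true :=
  ⟨(b (a (b (c (a (l 16751168) (l 16736288)) (a (l 16739256) (l 16734424))) (b (c (a (l 16752160) (l 16742488)) (a (l 16746056) (l 16741168))) (a (a (b (l 16750960) (c (b (l 16752712) (a (l 61907883351) (l 25400659815))) (l 28085018183))) (c (l 16755264) (l 16749432))) (c (c (l 16752104) (l 16746456)) (l 16745712))))) (a (b (l 16751664) (c (b (l 16737944) (l 16742096)) (l 16748920))) (b (l 16726000) (c (l 16745904) (l 16733424))))) (b (a (a (b (b (b (a (a (l 3) (l 70497817367)) (a (b (l 16752832) (l 42580528711)) (l 16751944))) (a (l 3) (a (l 77477138663) (b (l 27011271303) (l 59223526615))))) (l 3)) (l 3)) (a (b (c (b (l 16750960) (b (c (a (l 50096721559) (l 16752032)) (l 33453724071)) (c (a (l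 3) (l 54391688695)) (l 60297270695)))) (b (l 16750416) (l 48486111959))) (l 3)) (b (b (l 16748344) (a (b (l 16750600) (b (l 16751440) (l 31843108151))) (l 16752584))) (b (b (a (l 61371009799) (a (l 38822430039) (l 16751368))) (l 69424074951)) (l 3))))) (c (a (b (c (b (l 16745464) (l 16752768)) (l 16756552)) (b (a (a (b (l 16750752) (l 37211817559)) (l 16750152)) (l 16748392)) (a (a (l 76403393351) (b (l 45801752007) (l 3))) (a (b (l 16750656) (l 52244202775)) (l 16750032))))) (b (l 16746856) (a (l 16747144) (l 16744768)))) (a (b (l 16745248) (b (l 18421337335) (a (l 58686657191) (l 16754984)))) (b (l 16740144) (l 16744760))))) (b (a (l 3) (b (a (a (l 3) (c (l 69424070135) (l 66202848615))) (a (a (b (l 28085009639) (l 64592232855)) (b (l 16748888) (l 33453718679))) (l 16747584))) (a (l 3) (a (l 71034686599) (c (a (l 46875493415) (l 30769364439)) (l 42580525863)))))) (l 3)))), by decide +kernel⟩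

def k15_pp_012_a : ∃ t, chk3 f_pp_012_a t 51 4 1 = true :=
  ⟨(b (b (a (b (l 16688768) (l 16695744)) (b (l 16678968) (l 16686096))) (a (b (l 16703200) (l 16710840)) (l 16718152))) (b (a (b (a (l 16721352) (l 16716440)) (a (c (l 16730816) (l 16728440)) (l 16724680))) (b (l 16708840) (l 16737976))) (a (b (a (a (b (l 16737256) (l 16741688)) (b (l 16734808) (l 16739200))) (b (l 16731000) (l 16735376))) (a (b (c (a (l 16752040) (l 16744376)) (a (l 16745528) (l 16742912))) (a (b (a (l 57612910567) (a (l 43117394423) (l 33990587975))) (l 3)) (a (b (l 16747704) (l 62981618551)) (b (l 16746456) (a (l 51707328471) (l 40969909335)))))) (c (b (l 16740680) (a (b (l 16745224) (l 23790039879)) (l 16743848))) (b (l 16738920) (l 17347589415))))) (b (b (l 16744256) (a (l 16730216) (l 16725064))) (a (c (b (l 16735696) (l 16740088)) (l 16746360)) (c (l 16743360) (l 16730496))))))), by decide +kernel⟩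

def k16_pp_012_a : ∃ t, chk3 f_pp_012_a t 12 5 1 = true :=
  ⟨(a (l 3) (b (a (l 3) (b (a (b (a (l 3) (b (a (b (l 52781071943) (l 3)) (b (a (l 33990586519) (l 16745856)) (l 56002296311))) (l 3))) (l 3)) (b (a (a (b (c (b (l 16744680) (l 31843102839)) (l 26474392487)) (l 61907878071)) (b (l 16742448) (b (c (l 35064327495) (l 16744856)) (l 3)))) (b (c (l 16739480) (l 16737464)) (a (b (l 16743272) (l 37748681447)) (a (l 16747712) (l 16741192))))) (b (a (l 3) (b (a (l 3) (l 42043647719)) (l 3))) (l 3)))) (l 3))) (l 3))), by decide +kernel⟩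

def k17_pp_012_a : ∃ t, chk3 f_pp_012_a t 13 4 1 = true :=
  ⟨(a (b (a (b (a (l 16673320) (l 16664064)) (a (b (l 16683640) (l 16691224)) (b (l 16674840) (l 16681792)))) (b (l 16651328) (a (b (l 16665816) (l 16673232)) (l 16661064)))) (a (b (a (l 16724016) (l 16693640)) (a (b (l 16736360) (a (l 16747616) (l 16721696))) (b (l 16705848) (l 16735504)))) (b (a (l 16684616) (b (l 16672208) (l 16680032))) (a (b (l 16696784) (l 16705400)) (b (l 16688144) (l 16696672)))))) (b (a (b (l 16635720) (l 16669928)) (b (l 16620968) (l 16633568))) (a (b (a (b (l 16664080) (l 16671608)) (l 16659880)) (a (l 16704944) (b (l 16671264) (l 16679704)))) (b (l 16647672) (a (b (l 16663264) (l 16671200)) (b (l 16655056) (l 16663112))))))), by decide +kernel⟩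

def k18_pp_012_a : ∃ t, chk3 f_pp_012_a t 26 5 1 = true :=
  ⟨(b (a (b (a (b (a (c (b (l 16734512) (l 16738984)) (l 16745032)) (c (l 16742400) (l 16729432))) (a (b (a (b (l 16747960) (l 45801742999)) (a (l 22716290967) (l 16740768))) (b (l 49559843095) (l 3))) (b (c (l 16738656) (l 16736560)) (c (b (l 20031937159) (l 38285551463)) (b (l 16740112) (l 42043644935)))))) (b (a (l 16746864) (l 16721176)) (a (c (b (l 16733912) (l 16738512)) (l 16744512)) (c (l 16742072) (l 16729208))))) (a (l 3) (b (b (a (a (l 45264866407) (l 22716290519)) (l 14126352119)) (a (l 3) (b (l 39359283735) (l 66739701719)))) (l 3)))) (b (a (b (l 16735320) (a (l 16746840) (l 16721360))) (b (l 16705520) (l 16714712))) (a (a (b (b (l 16733048) (c (l 16738800) (l 16736904))) (b (b (l 62444733495) (l 75866503175)) (l 3))) (b (l 16730968) (b (c (l 16739112) (l 49022957511)) (l 73182147239)))) (a (b (l 16726464) (b (l 16733800) (c (l 16739456) (l 50633571495)))) (b (l 16721992) (a (l 16732904) (l 16730640)))))))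 (a (l 3) (b (a (l 3) (b (a (b (l 76940244423) (l 3)) (b (c (l 37211802807) (l 52781056135)) (l 81772083527))) (l 3))) (l 3)))), by decide +kernel⟩

def k19_pp_012_a : ∃ t, chk3 f_pp_012_a t 27 10 1 = true :=
  ⟨(a (b (a (c (l 16703064) (l 16699704)) (b (l 16688312) (l 16697240))) (b (a (l 16725832) (l 16706504)) (a (a (l 16727264) (l 16722800)) (c (l 16717200) (l 16714784))))) (b (a (b (l 16679744) (l 16688488)) (b (l 16671304) (l 16679840))) (a (c (l 16724672) (b (l 16695888) (l 16705496))) (c (l 16694872) (l 16712520))))), by decide +kernel⟩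

def k20_pp_012_a : ∃ t, chk3 f_pp_012_a t 27 22 1 = true :=
  ⟨(b (a (a (a (b (l 16734728) (a (l 64592210551) (a (l 57076018327) (l 16738088)))) (c (l 16733528) (l 16742320))) (c (l 16737304) (a (l 16727224) (l 16722536)))) (c (a (a (l 16720000) (l 16715416)) (l 16708552)) (a (a (l 16717792) (l 16713016)) (l 16705840)))) (a (b (a (a (l 82845826359) (c (l 59223512423) (b (l 53317923383) (l 73182151223)))) (a (c (l 16736488) (l 16734992)) (a (l 16732328) (l 16729984)))) (a (l 3) (a (c (l 60834126183) (b (a (l 72645275671) (l 16737752)) (l 83382691479))) (c (l 16736936) (b (l 16734168) (l 36138050935)))))) (a (c (c (l 16748816) (l 16727048)) (a (c (l 16728528) (l 16727504)) (l 16733632))) (c (c (l 16718576) (l 16717568)) (a (l 16718240) (l 16713336)))))), by decide +kernel⟩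

def k21_pp_012_a : ∃ t, chk3 f_pp_012_a t 27 23 1 = true :=
  ⟨(a (a (l 3) (a (l 3) (b (b (c (b (l 43117381271) (l 76403380807)) (b (a (l 78550856439) (l 16738216)) (l 88214530615))) (l 3)) (l 3)))) (b (a (a (c (c (b (l 16737592) (l 69960933847)) (b (l 16736992) (l 82308950983))) (a (b (b (l 16735792) (l 55465403719)) (l 90898885751)) (b (l 16734640) (b (l 46875469527) (l 90898883799))))) (c (c (l 16745896) (l 35064317255)) (c (b (l 16731376) (l 33990571751)) (b (l 16730408) (a (b (l 16735672) (l 59760371431)) (l 16734456)))))) (c (c (c (l 16749456) (l 16749080)) (l 16748448)) (a (c (l 16729016) (b (l 16725344) (l 16730608))) (l 16733952)))) (b (a (a (l 3) (c (c (l 69424063239) (l 86067047959)) (a (l 95730724551) (b (a (l 71034660247) (l 47412337735)) (l 90362013351))))) (a (c (c (l 16738144) (l 47412346775)) (a (b (l 16736336) (a (l 83919559047) (l 61370981623))) (c (l 16735536) (l 16739872)))) (c (l 16733008) (c (l 16731736) (l 16730736))))) (a (l 3) (a (a (l 3)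 (b (c (l 16740416) (a (l 87140784647) (l 69960916343))) (l 3))) (c (c (l 16738376) (l 52781056295)) (b (a (l 49559819383) (l 16733936)) (c (l 62444730151) (a (b (l 68350303671) (l 90898880359)) (l 53317915863)))))))))), by decide +kernel⟩

def k22_pp_012_a : ∃ t, chk3 f_pp_012_a t 6 3 1 = true :=
  ⟨(a (l 3) (b (a (l 3) (b (a (l 3) (b (a (l 3) (a (l 3) (a (l 3) (b (b (c (l 80161475831) (b (c (l 78550855607) (b (l 77477105271) (l 94120106023))) (l 3))) (l 3)) (l 3))))) (l 3))) (l 3))) (l 3))), by decide +kernel⟩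

def k23_pp_012_a : ∃ t, chk3 f_pp_012_a t 14 2 1 = true :=
  ⟨(b (a (b (a (l 16654840) (l 16646280)) (a (b (l 16632256) (c (l 16649696) (l 16644448))) (b (l 16617552) (l 16652848)))) (b (a (l 16628144) (l 16595888)) (a (b (l 16603840) (l 16617704)) (b (l 16591816) (l 16605256))))) (a (b (a (b (a (b (l 16663136) (l 16671448)) (b (l 16655184) (l 16663304))) (a (b (l 16680008) (l 16688872)) (b (l 16671656) (l 16680216)))) (a (b (l 16651464) (b (l 16663744) (l 16672128))) (b (l 16643768) (b (l 16656272) (l 16664672))))) (b (b (a (a (c (l 16699504) (l 16696376)) (l 16689120)) (a (l 16680776) (l 16673184))) (a (a (c (l 16708792) (l 16706032)) (c (l 16699808) (l 16696664))) (a (l 16689776) (l 16681992)))) (a (a (b (c (c (l 16739880) (l 16717864)) (a (l 16718472) (l 16713552))) (c (c (c (l 16739408) (l 16749488)) (a (l 16730288) (l 16725456))) (a (c (l 16739824) (b (l 16725600) (l 16741408))) (l 16734312)))) (c (b (l 16730168) (a (l 16721248) (l 16716664))) (b (l 16706424)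 (a (l 16718944) (l 16714192))))) (a (a (b (l 16701224) (c (l 16712224) (l 16709608))) (b (l 16697040) (l 16706704))) (b (l 16691160) (c (l 16702040) (l 16699216))))))) (b (a (b (l 16632968) (a (l 16653200) (l 16646176))) (b (l 16620104) (l 16646904))) (a (a (b (b (l 16666144) (l 16674848)) (b (l 16683904) (l 16693336))) (b (l 16684800) (b (l 16677240) (l 16686600)))) (b (a (l 16657304) (l 16609200)) (a (l 16675816) (l 16669840))))))), by decide +kernel⟩

def k24_pp_012_a : ∃ t, chk3 f_pp_012_a t 15 2 1 = true :=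
  ⟨(b (a (b (a (l 16586352) (l 16557696)) (a (b (l 16581584) (l 16594616)) (b (l 16573144) (l 16585720)))) (b (a (l 16550968) (l 16544352)) (a (l 16592984) (l 16585864)))) (a (b (a (b (l 16609136) (l 16625000)) (b (l 16599544) (l 16614832))) (a (b (l 16642272) (a (l 16663760) (l 16657680))) (b (l 16631232) (a (l 16651648) (l 16645688))))) (b (a (a (l 16621528) (l 16617072)) (b (l 16580416) (l 16592192))) (a (b (a (l 16623232) (l 16616176)) (a (l 16638248) (l 16630880))) (b (a (l 16608960) (l 16601880)) (a (l 16623656) (l 16616504))))))), by decide +kernel⟩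

def k25_pp_012_a : ∃ t, chk3 f_pp_012_a t 56 12 1 = true :=
  ⟨(a (b (a (b (a (b (c (l 36674927991) (a (b (l 60297237863) (l 97878203495)) (b (l 16736088) (l 84456428343)))) (l 3)) (b (c (l 16737160) (a (b (l 16734816) (l 61907850887)) (l 16734904))) (c (l 83382701655) (b (c (l 93046365255) (l 92509492599)) (l 3))))) (l 3)) (b (b (c (l 16738792) (c (l 16732248) (l 16741712))) (c (c (l 16749512) (l 54928541191)) (a (b (c (l 16737480) (l 58149755271)) (l 97878202983)) (b (l 16734536) (c (l 16737680) (l 58686626583)))))) (a (l 3) (b (c (l 54928544023) (b (l 102710041623) (l 3))) (l 3))))) (l 3)) (b (b (c (c (a (l 16742264) (l 16727144)) (a (l 16730952) (l 16726232))) (a (b (l 16726800) (c (l 16732656) (l 16731640))) (l 16724632))) (b (c (c (a (l 16744712) (l 16734816)) (a (l 35064318343) (l 16734056))) (a (a (b (l 60297239895) (l 107541880327)) (b (l 16735008) (l 61370982231))) (l 16732696))) (a (a (l 3) (c (l 55465416007) (l 114521205367))) (c (c (a (l 16741176) (l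 16738872)) (a (l 16745768) (l 16738192))) (a (b (l 62981595559) (l 117205557943)) (l 51170437159)))))) (b (a (l 3) (b (a (l 3) (c (l 54391675463) (l 123111141351))) (l 3))) (l 3)))), by decide +kernel⟩

def k26_pp_012_a : ∃ t, chk3 f_pp_012_a t 57 12 1 = true :=
  ⟨(b (a (a (b (c (l 16732656) (l 16719944)) (b (c (l 16729832) (l 16727928)) (c (a (l 16736224) (l 16733936)) (l 16733392)))) (b (a (l 16728296) (l 16715688)) (c (a (l 16739616) (l 16726992)) (l 16726136)))) (b (c (a (l 16713752) (l 16709840)) (l 16730304)) (c (a (l 16734368) (l 16719912)) (a (l 16721888) (l 16717872))))) (b (a (a (b (c (a (c (l 16741824) (l 16741192)) (a (l 16742440) (l 16743936))) (a (l 80161463767) (l 16742992))) (l 3)) (b (c (c (a (l 16742600) (l 16735192)) (l 16735576)) (l 16734352)) (c (a (b (l 16741048) (l 3)) (b (l 16738872) (l 16741584))) (a (l 44727994375) (l 16738848))))) (c (a (b (a (l 16732744) (l 16730680)) (a (c (b (l 16737048) (l 22179410487)) (l 16737784)) (l 16736024))) (b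 (l 16727688) (l 16733008))) (a (b (l 16730040) (l 16746112)) (l 16739256)))) (a (l 3) (b (c (b (a (a (a (l 16742704) (l 16741648)) (l 16745328)) (l 16737056)) (a (a (l 3) (l 16742840)) (a (l 16746032) (l 16738800)))) (a (a (l 40969900615) (l 16740256)) (l 16737184))) (a (l 3) (b (c (a (l 16743568) (l 16741560)) (l 16741496)) (a (l 3) (l 2315191367)))))))), by decide +kernel⟩

def k27_pp_012_a : ∃ t, chk3 f_pp_012_a t 28 13 1 = true :=
  ⟨(l 3), by decide +kernel⟩

def k28_pp_012_a : ∃ t, chk3 f_pp_012_a t 29 12 1 = true :=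
  ⟨(a (b (a (b (c (l 16704304) (l 16701848)) (c (l 16727408) (l 16712256))) (b (l 16696344) (c (l 16728368) (l 16705424)))) (a (b (a (c (l 16737016) (l 16724920)) (c (l 16722880) (l 16721296))) (b (a (c (l 16745048) (l 16733312)) (l 16735528)) (a (c (c (a (l 16746440) (l 16739280)) (l 16745064)) (l 16739024)) (c (l 16741520) (l 16735264))))) (b (c (l 16717640) (l 16726584)) (a (l 16733384) (l 16725920))))) (b (a (b (l 16690064) (l 16700016)) (l 16704688)) (a (c (b (l 16710960) (l 16721224)) (l 16728000)) (c (c (l 16720216) (l 16709232)) (l 16718712))))), by decide +kernel⟩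

def k29_pp_012_a : ∃ t, chk3 f_pp_012_a t 29 13 1 = true :=
  ⟨(a (b (b (b (a (a (a (b (l 16744816) (l 3)) (b (l 16745472) (l 16745720))) (a (b (l 16740936) (l 16743760)) (c (l 16746048) (l 16740016)))) (a (l 16737656) (l 16734008))) (a (a (l 3) (a (b (l 16747928) (l 3)) (b (l 16745968) (l 16747520)))) (a (a (a (l 16744632) (l 16743672)) (l 16742264)) (l 16744712)))) (a (l 3) (a (b (c (a (l 16747408) (c (l 16748104) (l 16747968))) (l 16751264)) (l 3)) (c (a (b (l 16746104) (l 16751024)) (b (l 16744208) (l 16748992))) (b (l 16744728) (l 16753088)))))) (l 3)) (b (a (c (a (b (l 16733464) (b (l 16741112) (c (l 16748400) (l 16746088)))) (b (l 16729904) (l 16745976))) (b (l 16741424) (b (l 16739120) (l 16749864)))) (c (b (l 16734248) (c (l 16738432) (l 16743984))) (b (l 16723840) (l 16734120)))) (a (b (a (b (c (b (l 16749560) (l 16751984)) (l 16755288)) (l 3)) (c (a (b (l 16749072) (l 16752616)) (b (l 16745744) (a (l 16751144) (l 16751472)))) (b (l 16747336) (l 35064336071))))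 (l 3)) (b (c (a (b (l 16742712) (b (l 16746432) (l 11442008647))) (a (l 16745800) (l 16742832))) (b (l 16741312) (l 16750744))) (b (c (a (b (c (l 16753952) (l 16751464)) (l 16753856)) (b (l 16747480) (a (l 16750984) (l 16749040)))) (a (l 52244205047) (l 16749112))) (a (l 3) (a (b (l 16753600) (l 3)) (b (l 16753688) (l 16754216))))))))), by decide +kernel⟩

def k30_pp_012_a : ∃ t, chk3 f_pp_012_a t 14 7 1 = true :=
  ⟨(l 3), by decide +kernel⟩

def k31_pp_012_a : ∃ t, chk3 f_pp_012_a t 15 6 1 = true :=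
  ⟨(a (b (b (a (a (l 16682792) (l 16676648)) (a (l 16669384) (l 16661752))) (a (b (l 16714936) (a (l 16706944) (l 16698984))) (a (l 16707648) (b (l 16674520) (l 16683592))))) (b (a (a (b (l 16716160) (c (l 16725352) (l 16726136))) (b (l 16708264) (l 16728368))) (a (b (l 16700544) (l 16710248)) (b (l 16692992) (l 16702712)))) (a (c (a (b (b (l 16732792) (l 16740432)) (b (a (b (l 16743560) (l 16746112)) (l 16746208)) (a (b (l 16753936) (a (l 16752240) (l 16750336))) (c (l 16748704) (l 16751464))))) (b (l 16732800) (b (l 16735208) (l 16745000)))) (a (b (l 16741120) (a (b (l 16745248) (l 16750304)) (l 16749208))) (b (l 16728208) (b (l 16735752) (l 16740872))))) (a (a (b (l 16722144) (l 16737600)) (b (l 16718384) (l 16733848))) (b (l 16723240) (c (l 16727904) (l 16723400))))))) (b (a (a (b (l 16654256) (b (l 16667144) (l 16676104))) (b (l 16646928) (b (l 16659816) (l 16668864)))) (a (b (l 16639680) (l 16646560)) (b (l 16632488) (a (l 16651600) (l 16647960))))) (b (a (a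 (b (l 16685544) (l 16695272)) (b (l 16678120) (l 16687856))) (a (b (l 16670888) (l 16680440)) (b (l 16663560) (l 16673240)))) (a (b (a (l 16705296) (l 16697872)) (a (l 16715536) (l 16708112))) (b (a (l 16690496) (l 16683088)) (a (l 16700744) (l 16693416))))))), by decide +kernel⟩

def k32_pp_012_a : ∃ t, chk3 f_pp_012_a t 60 14 1 = true :=
  ⟨(b (a (b (a (b (a (b (l 16754880) (l 3)) (b (a (l 16753512) (l 16755208)) (l 16755584))) (l 3)) (b (c (b (l 16752704) (a (l 16753672) (l 16751784))) (l 16752984)) (b (c (a (l 16756256) (l 16754424)) (l 54928551415)) (l 93583258615)))) (l 3)) (b (a (b (c (l 16749560) (l 16747936)) (c (b (l 16753232) (a (l 16755208) (l 16753336))) (l 16755800))) (b (l 16746584) (c (l 16751760) (l 16749464)))) (a (b (b (c (a (l 16757824) (l 16756016)) (l 16757096)) (l 97878242967)) (l 3)) (b (c (b (a (l 16754152) (l 16752256)) (l 16755920)) (l 16754800)) (b (c (l 16758536) (l 16758704)) (l 51170474855)))))) (l 3)), by decide +kernel⟩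

def k33_pp_012_a : ∃ t, chk3 f_pp_012_a t 61 28 1 = true :=
  ⟨(a (a (b (b (l 16740200) (l 16745528)) (b (c (l 16750792) (l 16751120)) (c (b (l 16754856) (a (l 56539173047) (l 16756376))) (l 16758920)))) (b (b (l 16736456) (l 16741792)) (b (l 16747208) (l 16757720)))) (b (a (l 16738008) (l 16731672)) (b (a (l 16743496) (l 16739680)) (c (l 16751960) (l 16751832))))), by decide +kernel⟩

def k34_pp_012_a : ∃ t, chk3 f_pp_012_a t 122 29 1 = true :=
  ⟨(b (a (b (a (l 75866529543) (c (a (l 84456463319) (b (l 16760960) (l 16760680))) (l 37211831639))) (l 3)) (b (c (b (l 16757312) (a (b (l 16760080) (a (l 16760400) (l 16759528))) (l 16760472))) (b (l 16756224) (l 11442026759))) (a (a (l 3) (b (b (l 16760736) (l 3)) (l 3))) (b (c (a (b (l 16762448) (l 16761000)) (b (l 16758912) (l 19495093463))) (l 61907886199)) (c (c (b (l 12515771831) (l 3)) (l 13589514967)) (l 16273872215)))))) (l 3)), by decide +kernel⟩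

def k35_pp_012_a : ∃ t, chk3 f_pp_012_a t 123 29 1 = true :=
  ⟨(b (a (b (c (l 16756776) (l 16753784)) (c (b (a (c (l 16761384) (l 16758168)) (l 16756272)) (b (a (c (a (l 20568836039) (l 16759512)) (l 16761320)) (l 16758136)) (a (a (l 8757676855) (a (l 27011287607) (l 16760544))) (l 16760696)))) (b (l 16757392) (a (b (l 16761408) (l 15736998839)) (l 16758912))))) (b (l 16755192) (a (b (l 16754536) (l 16758312)) (l 16756560)))) (a (b (b (b (c (a (a (l 3) (a (l 3) (l 8757678263))) (a (a (l 25400675511) (l 16762176)) (l 16760176))) (a (l 16762400) (l 37211833511))) (a (l 3) (b (c (a (l 8757678599) (l 16762424)) (l 16761616)) (a (l 3) (a (l 13052645863) (l 16762528)))))) (b (a (l 3) (a (l 3) (a (l 3) (b (a (l 16762240) (l 16763344)) (l 3))))) (l 3))) (l 3)) (b (b (a (c (c (a (l 16762480) (l 16758920)) (l 16761896)) (l 16759552)) (l 16759120)) (c (b (a (a (a (a (l 16810742471) (l 28085031031)) (l 16762840)) (l 16760840)) (l 16759448)) (a (c (a (a (l 3) (l 8757678775))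 (a (l 20568839223) (l 16761856))) (a (l 16762952) (l 16762104))) (c (l 16763312) (l 16760736)))) (a (c (b (l 16762664) (l 15200131143)) (l 68887212551)) (l 16760216)))) (b (a (a (l 3) (a (l 3) (c (b (b (l 16764104) (l 3)) (l 3)) (l 16763688)))) (b (a (c (a (a (l 17884485495) (l 27548161479)) (l 16763520)) (l 16762504)) (c (l 16761520) (l 16761616))) (c (c (a (a (l 3) (l 11442034727)) (a (l 20568840599) (l 16762544))) (a (l 16763640) (l 16762792))) (l 62444765591)))) (b (b (a (l 3) (a (l 3) (a (l 3) (l 19495099719)))) (l 3)) (l 3)))))), by decide +kernel⟩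

def k36_pp_012_a : ∃ t, chk3 f_pp_012_a t 30 15 1 = true :=
  ⟨(l 3), by decide +kernel⟩

def k37_pp_012_a : ∃ t, chk3 f_pp_012_a t 31 7 1 = true :=
  ⟨(b (a (b (b (a (a (l 16727952) (l 16724232)) (l 16718488)) (a (b (l 16733552) (l 16738552)) (l 16733176))) (a (b (b (l 16751824) (a (l 16756424) (l 16747312))) (a (a (b (c (l 16758928) (l 16757184)) (a (b (b (l 16760648) (l 16763216)) (a (b (b (l 16763072) (l 22179454455)) (l 3)) (b (l 16763920) (b (l 22716325735) (l 3))))) (b (c (l 16760304) (l 16760440)) (b (l 16763560) (a (b (l 16763424) (l 23790067911)) (l 16764600)))))) (b (l 16757848) (c (b (l 16758912) (b (l 16760824) (l 16763088))) (l 16762632)))) (b (l 16757720) (c (c (l 16760632) (l 16760072)) (l 16760256))))) (a (b (l 16740456) (b (l 16748528) (l 16759120))) (b (l 16736280) (b (l 16744256) (l 6)))))) (b (b (a (l 16710600) (l 16702752)) (a (l 16719792) (l 16711576))) (a (b (a (l 16732080) (l 16727840)) (a (l 16747864) (l 6))) (b (a (l 16723576) (l 6)) (l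 6))))) (a (b (b (a (b (b (a (a (c (a (l 3) (a (l 3) (b (l 16810747127) (l 3)))) (l 43654290471)) (a (a (b (a (l 21642584503) (l 16765296)) (l 3)) (b (l 16764952) (c (l 17884489687) (l 16764896)))) (b (l 16764272) (a (a (l 21105714311) (l 16765656)) (l 16764008))))) (c (a (a (l 16763296) (l 16761720)) (l 16760344)) (l 16763704))) (b (a (a (l 3) (a (l 3) (a (l 16765640) (a (l 16766656) (l 16766456))))) (a (a (c (l 13052651559) (l 16764640)) (l 6)) (l 6))) (a (l 3) (l 6)))) (a (l 3) (l 6))) (l 6)) (l 6)) (l 3)) (l 6))), by decide +kernel⟩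

theorem s38_pp_012_a : ∃ t, chk3 f_pp_012_a t 61 29 1 = true := ex3_a k34_pp_012_a k35_pp_012_a

theorem s39_pp_012_a : ∃ t, chk3 f_pp_012_a t 61 14 1 = true := ex3_b k33_pp_012_a s38_pp_012_a

theorem s40_pp_012_a : ∃ t, chk3 f_pp_012_a t 30 14 1 = true := ex3_a k32_pp_012_a s39_pp_012_a

theorem s41_pp_012_a : ∃ t, chk3 f_pp_012_a t 30 7 1 = true := ex3_b s40_pp_012_a k36_pp_012_a

theorem s42_pp_012_a : ∃ t, chk3 f_pp_012_a t 15 7 1 = true := ex3_a s41_pp_012_a k37_pp_012_a

theorem s43_pp_012_a : ∃ t, chk3 f_pp_012_a t 15 3 1 = true := ex3_b k31_pp_012_a s42_pp_012_a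

theorem s44_pp_012_a : ∃ t, chk3 f_pp_012_a t 29 6 1 = true := ex3_b k28_pp_012_a k29_pp_012_a

theorem s45_pp_012_a : ∃ t, chk3 f_pp_012_a t 28 12 1 = true := ex3_a k25_pp_012_a k26_pp_012_a

theorem s46_pp_012_a : ∃ t, chk3 f_pp_012_a t 28 6 1 = true := ex3_b s45_pp_012_a k27_pp_012_a

theorem s47_pp_012_a : ∃ t, chk3 f_pp_012_a t 14 6 1 = true := ex3_a s46_pp_012_a s44_pp_012_a

theorem s48_pp_012_a : ∃ t, chk3 f_pp_012_a t 14 3 1 = true := ex3_b s47_pp_012_a k30_pp_012_a

theorem s49_pp_012_a : ∃ t, chk3 f_pp_012_a t 7 3 1 = true := ex3_a s48_pp_012_a s43_pp_012_a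

theorem s50_pp_012_a : ∃ t, chk3 f_pp_012_a t 7 2 1 = true := ex3_a k23_pp_012_a k24_pp_012_a

theorem s51_pp_012_a : ∃ t, chk3 f_pp_012_a t 7 1 1 = true := ex3_b s50_pp_012_a s49_pp_012_a

theorem s52_pp_012_a : ∃ t, chk3 f_pp_012_a t 27 11 1 = true := ex3_b k20_pp_012_a k21_pp_012_a

theorem s53_pp_012_a : ∃ t, chk3 f_pp_012_a t 27 5 1 = true := ex3_b k19_pp_012_a s52_pp_012_a

theorem s54_pp_012_a : ∃ t, chk3 f_pp_012_a t 13 5 1 = true := ex3_a k18_pp_012_a s53_pp_012_a

theorem s55_pp_012_a : ∃ t, chk3 f_pp_012_a t 13 2 1 = true := ex3_b k17_pp_012_a s54_pp_012_a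

theorem s56_pp_012_a : ∃ t, chk3 f_pp_012_a t 50 4 1 = true := ex3_b k13_pp_012_a k14_pp_012_a

theorem s57_pp_012_a : ∃ t, chk3 f_pp_012_a t 25 4 1 = true := ex3_a s56_pp_012_a k15_pp_012_a

theorem s58_pp_012_a : ∃ t, chk3 f_pp_012_a t 24 8 1 = true := ex3_a k10_pp_012_a k11_pp_012_a

theorem s59_pp_012_a : ∃ t, chk3 f_pp_012_a t 24 4 1 = true := ex3_b s58_pp_012_a k12_pp_012_a

theorem s60_pp_012_a : ∃ t, chk3 f_pp_012_a t 12 4 1 = true := ex3_a s59_pp_012_a s57_pp_012_a

theorem s61_pp_012_a : ∃ t, chk3 f_pp_012_a t 12 2 1 = true := ex3_b s60_pp_012_a k16_pp_012_a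

theorem s62_pp_012_a : ∃ t, chk3 f_pp_012_a t 6 2 1 = true := ex3_a s61_pp_012_a s55_pp_012_a

theorem s63_pp_012_a : ∃ t, chk3 f_pp_012_a t 6 1 1 = true := ex3_b s62_pp_012_a k22_pp_012_a

theorem s64_pp_012_a : ∃ t, chk3 f_pp_012_a t 3 1 1 = true := ex3_a s63_pp_012_a s51_pp_012_a

theorem s65_pp_012_a : ∃ t, chk3 f_pp_012_a t 46 16 1 = true := ex3_b k3_pp_012_a k4_pp_012_a

theorem s66_pp_012_a : ∃ t, chk3 f_pp_012_a t 46 8 1 = true := ex3_b s65_pp_012_a k5_pp_012_a

theorem s67_pp_012_a : ∃ t, chk3 f_pp_012_a t 23 8 1 = true := ex3_a s66_pp_012_a k6_pp_012_a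

theorem s68_pp_012_a : ∃ t, chk3 f_pp_012_a t 23 4 1 = true := ex3_b s67_pp_012_a k7_pp_012_a

theorem s69_pp_012_a : ∃ t, chk3 f_pp_012_a t 11 4 1 = true := ex3_a k2_pp_012_a s68_pp_012_a

theorem s70_pp_012_a : ∃ t, chk3 f_pp_012_a t 11 2 1 = true := ex3_b s69_pp_012_a k8_pp_012_a

theorem s71_pp_012_a : ∃ t, chk3 f_pp_012_a t 5 2 1 = true := ex3_a k1_pp_012_a s70_pp_012_a

theorem s72_pp_012_a : ∃ t, chk3 f_pp_012_a t 5 1 1 = true := ex3_b s71_pp_012_a k9_pp_012_a

theorem s73_pp_012_a : ∃ t, chk3 f_pp_012_a t 2 1 1 = true := ex3_a k0_pp_012_a s72_pp_012_a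

theorem s74_pp_012_a : ∃ t, chk3 f_pp_012_a t 1 1 1 = true := ex3_a s73_pp_012_a s64_pp_012_a

theorem c_pp_012_a : CertB 0 536870912 0 536870912 697932185 42949674 3 eng mog cd0q0 cd2q2a pd1 false true true .pnp 0 1 2
    ndB0q0 ndB2q2a pcB1 cut_pp_012_a Ext.none :=
  certB2 (fam := false) (s1 := true) (s2 := true) (a := 0) (b := 1) (c := 2) (cn := .pnp) (n1 := ndB0q0) (n2 := ndB2q2a) (pc := pcB1) (cut := cut_pp_012_a) (xt := Ext.none) (P1 := 0) (W1 := 536870912) (P2 := 0) (W2 := 536870912) (P3 := 697932185) (W3 := 42949674) (N0 := 3) (En := eng) (mo := mog) (C1 := cd0q0) (C2 := cd2q2a) (C3 := pd1)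
    rfl (fun _ => rfl) s74_pp_012_a

noncomputable def cut_pp_012_b : Cut := Cut.of [[⟨0, 0, 0, 67108864⟩, ⟨1, 1, 0, 67108864⟩, ⟨2, 1, 0, 67108864⟩]]

noncomputable def f_pp_012_b : ℕ → ℕ → ℕ → ℕ → Bool := onCell 536870912 536870912 1239849684 370763052 697932185 42949674
    (rowB 3 eng mog cd0q0 cd2q2b pd1 2 false true true .pnp 0 1 2 (qsf 0 536870912 1239849684 370763052 1) ndB0q0 ndB2q2b pcB1 cut_pp_012_b Ext.none)

def k0_pp_012_b : ∃ t, chk3 f_pp_012_b t 2 1 1 = true :=
  ⟨(b (a (l 2) (a (l 3) (b (a (l 3) (b (a (b (a (a (b (b (b (a (l 3) (c (a (l 3) (c (l 131701118983) (l 126869280407))) (l 136532950727))) (l 3)) (l 3)) (l 3)) (b (b (c (a (b (a (c (b (l 16763584) (l 16761528)) (l 16760960)) (l 16760592)) (l 84456477431)) (l 16763816)) (b (b (l 16763920) (l 16763208)) (l 58686669351))) (a (l 117742471767) (l 16759888))) (l 117742471463))) (b (a (b (c (l 16761208) (l 16754008)) (l 16751976)) (b (l 16761904) (l 16748336))) (b (l 16757608) (l 16765008)))) (a (l 3)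 (b (a (l 16740824) (l 16737816)) (l 108615639623)))) (b (b (a (c (l 16756200) (l 16764280)) (l 16758232)) (a (l 16738200) (l 16730728))) (a (b (l 16732192) (l 16726480)) (l 16742520)))) (a (l 3) (b (b (l 16748424) (l 47949222631)) (a (l 16706504) (l 16700696)))))) (a (l 2) (b (a (l 2) (b (l 90898879111) (l 2))) (l 2)))))) (l 2)), by decide +kernel⟩

def k1_pp_012_b : ∃ t, chk3 f_pp_012_b t 6 1 1 = true :=
  ⟨(b (a (b (a (b (b (b (a (a (l 16729912) (l 16722376)) (l 16731376)) (a (l 16740256) (l 16703112))) (a (c (l 16753680) (l 16749512)) (l 16734760))) (b (a (l 16740128) (l 16701472)) (a (l 16709432) (l 16690864)))) (b (b (a (a (l 16714640) (b (l 16689144) (l 16681304))) (a (l 16708048) (l 16687176))) (a (l 16695728) (a (l 16660800) (l 16649688)))) (a (b (l 16661312) (l 16649616)) (b (l 16682656) (l 16627696))))) (a (b (a (b (l 16680432) (l 16673936)) (b (l 16661424) (l 16655360))) (l 2)) (b (a (b (l 16639912) (l 16632656)) (b (l 16616800) (l 16608056))) (a (b (l 16628472)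 (l 2)) (b (l 16602416) (l 16599288)))))) (b (a (b (b (a (b (l 16656216) (l 16646280)) (b (l 16638616) (l 16627168))) (a (b (l 16637440) (l 16629240)) (b (l 16616808) (l 16607624)))) (b (a (l 16617928) (l 16616088)) (a (l 16604304) (l 16580272)))) (b (a (b (b (l 16622744) (l 16609960)) (b (l 16598000) (l 16587264))) (b (b (l 16607976) (l 16594056)) (b (l 16580960) (l 16568728)))) (b (a (b (l 16577584) (l 16568920)) (l 16552552)) (a (l 16556928) (l 16534512))))) (a (b (a (b (l 16591888) (l 16581464)) (b (l 16566872) (l 16555608))) (a (b (l 16574496) (l 16570120)) (b (l 16547616) (l 16541600)))) (b (b (l 16551824) (l 16517744)) (b (l 16507312) (l 16499456)))))) (a (l 2) (b (a (b (a (l 16568224) (b (l 16538168) (l 2))) (l 2)) (b (a (l 16529112) (l 16478152)) (a (l 2) (l 16478240)))) (l 2)))), by decide +kernel⟩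

def k2_pp_012_b : ∃ t, chk3 f_pp_012_b t 7 1 1 = true :=
  ⟨(b (a (b (b (a (b (a (l 16586464) (l 16593328)) (a (b (l 16565128) (l 16551872)) (l 16543168))) (b (a (l 16559360) (l 16547544)) (a (l 16528472) (l 16514512)))) (a (b (a (l 16554840) (l 16516256)) (a (l 16513296) (l 16492960))) (b (a (l 16499816) (l 16484616)) (a (l 16474472) (l 16457192))))) (a (b (b (a (l 16496024) (l 16473944)) (a (l 16481408) (l 16457896))) (b (l 16456664) (l 16445992))) (b (b (a (l 16452776) (l 16433320)) (a (l 16435104) (l 16413240))) (b (a (l 16420312) (l 16397008)) (l 16395448))))) (b (b (a (b (a (l 16537024) (l 16528664)) (a (l 16501824) (l 16490528))) (b (a (l 16521088) (l 16514560)) (a (l 16480704) (l 16472888)))) (a (b (a (l 16469952) (l 16456616)) (a (l 16441176) (l 16425824))) (b (a (l 16444120) (l 16433552)) (a (l 16411544) (l 16398456))))) (a (b (b (a (l 16415104) (l 16398024)) (a (l 16392736) (l 16373680))) (b (a (l 16374592) (l 16353080)) (a (l 16359448) (l 16336400))))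 (b (a (b (l 16382200) (l 16355712)) (b (l 16366984) (l 16338840))) (a (b (l 16332976) (l 16314256)) (b (l 16313712) (l 16292752))))))) (a (b (b (a (b (l 16437960) (l 16432872)) (b (l 16384560) (l 16376376))) (a (b (l 16430728) (l 16431608)) (b (l 16371416) (l 16369616)))) (a (l 2) (b (b (l 16370856) (l 16375200)) (l 2)))) (b (b (a (b (a (l 16346648) (l 16322440)) (l 16323448)) (a (b (l 16298968) (l 16286080)) (b (l 16275736) (l 16261736)))) (a (b (l 16315184) (l 16310472)) (b (l 16263000) (l 16254760)))) (b (a (b (l 16308832) (l 16310640)) (b (l 16249776) (l 16248464))) (a (b (l 16315720) (l 2)) (b (l 16250888) (l 16256640))))))), by decide +kernel⟩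

theorem s3_pp_012_b : ∃ t, chk3 f_pp_012_b t 3 1 1 = true := ex3_a k1_pp_012_b k2_pp_012_b

theorem s4_pp_012_b : ∃ t, chk3 f_pp_012_b t 1 1 1 = true := ex3_a k0_pp_012_b s3_pp_012_b

theorem c_pp_012_b : CertB 0 536870912 1239849684 370763052 697932185 42949674 3 eng mog cd0q0 cd2q2b pd1 false true true .pnp 0 1 2
    ndB0q0 ndB2q2b pcB1 cut_pp_012_b Ext.none :=
  certB2 (fam := false) (s1 := true) (s2 := true) (a := 0) (b := 1) (c := 2) (cn := .pnp) (n1 := ndB0q0) (n2 := ndB2q2b) (pc := pcB1) (cut := cut_pp_012_b) (xt := Ext.none) (P1 := 0) (W1 := 536870912) (P2 := 1239849684) (W2 := 370763052) (P3 := 697932185) (W3 := 42949674) (N0 := 3) (En := eng) (mo := mog) (C1 := cd0q0) (C2 := cd2q2b) (C3 := pd1)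
    rfl (fun _ => rfl) s4_pp_012_b

noncomputable def cut_pp_022_a : Cut := Cut.of [[⟨0, 0, 0, 67108864⟩, ⟨1, 1, 0, 67108864⟩, ⟨2, 1, 0, 67108864⟩]]

noncomputable def f_pp_022_a : ℕ → ℕ → ℕ → ℕ → Bool := onCell 1073741824 536870912 0 536870912 697932185 42949674
    (rowB 3 eng mog cd0q0 cd2q2a pd2 2 false true true .pp 0 2 2 (qsf 0 536870912 0 536870912 2) ndB0q0 ndB2q2a pcB2 cut_pp_022_a Ext.none)

def k0_pp_022_a : ∃ t, chk3 f_pp_022_a t 8 1 1 = true :=
  ⟨(b (b (a (b (l 16539592) (a (l 16539248) (l 16535384))) (b (l 16510168) (b (l 16520656) (l 16528472)))) (a (a (b (l 16597784) (b (l 16588920) (a (l 16605736) (l 16604672)))) (b (l 16582760) (b (l 16579232) (l 16592512)))) (b (b (l 16536288) (l 16545472)) (a (a (l 16573864) (l 16565744)) (b (l 16568944) (l 16558832)))))) (b (a (a (b (b (a (l 16628088) (l 16620184)) (a (b (l 16635968) (l 16644976)) (l 16636656))) (b (a (b (l 16654096) (l 16663304)) (l 16654216)) (a (b (l 16672616) (l 16682080)) (l 16672784))))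 (b (b (l 16606888) (a (l 16627144) (l 16617520))) (b (a (l 16643920) (l 16654536)) (a (l 16661760) (b (l 16646256) (l 16654992)))))) (b (a (b (a (l 16593408) (l 16584280)) (a (l 16607768) (l 16597984))) (b (l 16591584) (a (l 16588176) (l 16578384)))) (a (b (a (l 16623152) (l 16612600)) (a (l 16660360) (l 16648976))) (b (a (l 16602040) (l 16591376)) (a (l 16637416) (b (l 16601344) (l 16607920))))))) (a (b (b (a (a (b (l 16691544) (a (l 16701224) (l 16700856))) (b (l 16687368) (l 16697440))) (a (b (l 16654760) (l 16685328)) (b (l 16663968) (l 16673040)))) (l 6)) (l 6)) (b (b (a (b (a (l 16651992) (l 16639760)) (a (l 16660464) (l 16668528))) (b (a (l 16627256) (l 16614416)) (a (b (l 16632640) (l 6)) (b (l 16619192) (l 16622072))))) (a (l 6) (a (l 6) (a (l 6) (l 1))))) (a (l 6) (l 1)))))), by decide +kernel⟩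

def k1_pp_022_a : ∃ t, chk3 f_pp_022_a t 9 1 1 = true :=
  ⟨(b (b (a (b (l 16493008) (a (l 16507640) (l 16496160))) (b (l 16472880) (b (l 16477592) (l 16482088)))) (a (b (b (l 16509920) (a (l 16523880) (l 16509872))) (b (a (l 16532440) (l 16517176)) (a (l 16542000) (l 16525376)))) (b (c (b (l 16489800) (l 16510088)) (b (l 16480328) (l 16484016))) (b (a (l 16502136) (l 16486880)) (a (l 16508616) (l 16491240)))))) (b (b (a (b (a (l 16552432) (l 16534176)) (a (a (l 16568528) (l 16558576)) (a (l 16548472) (l 16538152)))) (b (a (a (l 16520200) (l 16510592)) (a (l 16500672) (l 16490368))) (a (a (l 16527552) (l 16516584)) (l 1)))) (a (b (a (a (l 16580536) (l 16569480)) (a (l 16558160) (l 16546472))) (a (b (a (l 16589600) (l 16577536)) (a (l 16595464) (l 16582616))) (b (a (l 16565096) (l 1)) (l 1)))) (b (a (a (l 16534376) (l 1)) (l 1)) (l 1)))) (b (a (b (a (b (a (l 16601152) (l 16587424)) (a (l 16627432) (l 1))) (l 1)) (l 1)) (l 1)) (l 1)))), by decide +kernel⟩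

def k2_pp_022_a : ∃ t, chk3 f_pp_022_a t 5 1 1 = true :=
  ⟨(b (a (b (b (a (c (l 16459120) (l 16447696)) (l 1)) (a (b (l 16456880) (a (l 16466344) (a (l 16458152) (a (l 16453864) (l 1))))) (l 1))) (a (a (b (b (l 16467968) (l 16469184)) (b (l 16470872) (l 16472632))) (b (a (b (l 16458952) (l 16458368)) (l 1)) (l 1))) (l 1))) (l 1)) (b (l 1) (l 1))), by decide +kernel⟩

def k3_pp_022_a : ∃ t, chk3 f_pp_022_a t 3 1 1 = true :=
  ⟨(l 1), by decide +kernel⟩

theorem s4_pp_022_a : ∃ t, chk3 f_pp_022_a t 4 1 1 = true := ex3_a k0_pp_022_a k1_pp_022_a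

theorem s5_pp_022_a : ∃ t, chk3 f_pp_022_a t 2 1 1 = true := ex3_a s4_pp_022_a k2_pp_022_a

theorem s6_pp_022_a : ∃ t, chk3 f_pp_022_a t 1 1 1 = true := ex3_a s5_pp_022_a k3_pp_022_a

theorem c_pp_022_a : CertB 0 536870912 0 536870912 697932185 42949674 3 eng mog cd0q0 cd2q2a pd2 false true true .pp 0 2 2
    ndB0q0 ndB2q2a pcB2 cut_pp_022_a Ext.none :=
  certB2 (fam := false) (s1 := true) (s2 := true) (a := 0) (b := 2) (c := 2) (cn := .pp) (n1 := ndB0q0) (n2 := ndB2q2a) (pc := pcB2) (cut := cut_pp_022_a) (xt := Ext.none) (P1 := 0) (W1 := 536870912) (P2 := 0) (W2 := 536870912) (P3 := 697932185) (W3 := 42949674) (N0 := 3) (En := eng) (mo := mog) (C1 := cd0q0) (C2 := cd2q2a) (C3 := pd2)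
    rfl (fun _ => rfl) s6_pp_022_a

noncomputable def cut_pp_022_b : Cut := Cut.of [[⟨0, 0, 0, 67108864⟩, ⟨1, 1, 0, 67108864⟩, ⟨2, 1, 0, 67108864⟩]]

noncomputable def f_pp_022_b : ℕ → ℕ → ℕ → ℕ → Bool := onCell 0 536870912 1073741824 536870912 697932185 42949674
    (rowB 3 eng mog cd0q0 cd2q2b pd2 1 false true true .pp 0 2 2 (qsf 0 536870912 1239849684 370763052 2) ndB0q0 ndB2q2b pcB2 cut_pp_022_b Ext.none)

def k0_pp_022_b : ∃ t, chk3 f_pp_022_b t 2 2 1 = true :=
  ⟨(a (b (a (b (l 1) (a (b (l 1) (c (a (l 1) (l 135861424647)) (l 218539481143))) (b (a (l 1) (l 109554788823)) (c (l 16514496) (l 16491208))))) (b (a (b (l 1) (a (l 1) (l 93448701399))) (b (a (l 1) (l 51035958791)) (l 16575424))) (a (b (c (l 16528656) (l 16485744)) (l 16463920)) (b (l 16455376) (l 16368504))))) (b (b (a (a (c (a (l 16509256) (l 16444448)) (l 80563567447)) (l 16470928)) (a (l 16354536) (l 16304240))) (b (a (a (l 16469304) (l 16356728)) (l 16364360)) (a (a (l 16367656) (l 16327200)) (l 16280248))))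 (a (b (a (b (l 16326056) (l 16287360)) (l 16273976)) (a (l 16234616) (l 16212168))) (a (l 16214784) (l 16187456))))) (b (a (b (a (b (l 16593696) (l 16465336)) (b (l 16533640) (l 16431288))) (b (a (l 16380640) (l 16351512)) (b (l 16309984) (l 16280384)))) (a (b (b (a (l 16406208) (l 16378984)) (l 16359336)) (b (l 16285488) (l 16234080))) (b (b (b (l 16354168) (l 16329856)) (l 16293856)) (l 16329320)))) (b (a (b (l 16236680) (b (l 16215128) (l 16178200))) (b (l 16233120) (b (l 16136552) (l 16128016)))) (a (l 16227960) (l 16116944))))), by decide +kernel⟩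

def k1_pp_022_b : ∃ t, chk3 f_pp_022_b t 3 2 1 = true :=
  ⟨(b (a (a (b (b (a (a (l 16309288) (l 16289592)) (a (l 16271624) (l 16318528))) (a (l 16256600) (l 16226768))) (a (l 16300784) (b (l 16191832) (l 16158488)))) (b (b (a (c (l 16310920) (l 16223080)) (a (l 16219664) (l 16210440))) (a (l 16204920) (l 16188288))) (a (l 16245640) (l 16151160)))) (a (b (b (a (l 16198648) (l 16188472)) (a (l 16174864) (l 16167968))) (a (l 16141920) (l 16139808))) (b (a (b (l 16186504) (l 16168984)) (l 16249096)) (a (l 16146184) (l 2))))) (a (a (b (b (l 16175344) (a (l 16110880) (l 16104584))) (l 16330168)) (b (b (l 16118488) (a (l 16105712) (l 16105152))) (l 16137176))) (b (a (b (l 16112544) (l 2)) (l 2)) (l 2)))), by decide +kernel⟩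

def k2_pp_022_b : ∃ t, chk3 f_pp_022_b t 1 3 1 = true :=
  ⟨(a (b (a (b (a (a (b (l 16173808) (l 16122720)) (l 16136864)) (l 16351648)) (a (b (l 16079720) (l 16050144)) (l 16111752))) (a (b (l 16100336) (l 16078912)) (b (l 16070680) (l 16085272)))) (a (b (a (l 16025224) (l 16060160)) (a (l 16026136) (l 16084096))) (b (a (l 16100712) (l 2)) (l 2)))) (b (a (a (b (l 16107696) (l 2)) (l 2)) (l 2)) (l 2))), by decide +kernel⟩

theorem s3_pp_022_b : ∃ t, chk3 f_pp_022_b t 1 2 1 = true := ex3_a k0_pp_022_b k1_pp_022_b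

theorem s4_pp_022_b : ∃ t, chk3 f_pp_022_b t 1 1 1 = true := ex3_b s3_pp_022_b k2_pp_022_b

theorem c_pp_022_b : CertB 0 536870912 1239849684 370763052 697932185 42949674 3 eng mog cd0q0 cd2q2b pd2 false true true .pp 0 2 2
    ndB0q0 ndB2q2b pcB2 cut_pp_022_b Ext.none :=
  certB1 (fam := false) (s1 := true) (s2 := true) (a := 0) (b := 2) (c := 2) (cn := .pp) (n1 := ndB0q0) (n2 := ndB2q2b) (pc := pcB2) (cut := cut_pp_022_b) (xt := Ext.none) (P1 := 0) (W1 := 536870912) (P2 := 1239849684) (W2 := 370763052) (P3 := 697932185) (W3 := 42949674) (N0 := 3) (En := eng) (mo := mog) (C1 := cd0q0) (C2 := cd2q2b) (C3 := pd2)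
    rfl (fun _ => rfl) s4_pp_022_b

noncomputable def f_pp_023 : ℕ → ℕ → ℕ → ℕ → Bool := onCell 0 536870912 1073741824 536870912 697932185 42949674
    (rowB 3 eng mog cd0q0 cd2q3 pd2 1 false true true .up 0 2 3 (qsf 0 536870912 1610612736 536870912 2) ndB0q0 ndB2q3 pcB2 Cut.none Ext.none)

def k0_pp_023 : ∃ t, chk3 f_pp_023 t 1 1 1 = true :=
  ⟨(b (a (a (l 1) (b (l 1) (b (l 1) (a (l 1) (l 16217688))))) (b (a (a (l 1) (b (l 1) (l 245382815527))) (a (b (l 235182210887) (l 151967140823)) (b (a (l 209412255783) (l 16183104)) (l 16196288)))) (a (a (b (b (l 1) (l 359736012887)) (l 16097048)) (b (b (l 16137184) (l 132639740135)) (l 16138200))) (b (a (b (l 16112480) (l 16107200)) (b (l 16142384) (l 16145928))) (a (l 16159064) (l 16214496)))))) (a (b (a (b (l 1) (a (l 1) (l 16094136))) (a (b (l 16104400) (l 16081864)) (b (l 16075280) (l 16083584)))) (a (b (a (l 16030088) (l 16063048)) (a (l 16030120) (l 16082704))) (b (a (l 16099448) (l 16134480)) (a (l 16140096) (l 16199936)))))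 (b (b (a (a (l 16109320) (l 16168248)) (l 16292376)) (a (a (l 16070088) (l 16177576)) (l 16362808))) (a (a (b (l 16141960) (l 16312384)) (b (l 16312632) (l 16438992))) (b (l 16475160) (l 16560792)))))), by decide +kernel⟩

theorem c_pp_023 : CertB 0 536870912 1610612736 536870912 697932185 42949674 3 eng mog cd0q0 cd2q3 pd2 false true true .up 0 2 3
    ndB0q0 ndB2q3 pcB2 Cut.none Ext.none :=
  certB1 (fam := false) (s1 := true) (s2 := true) (a := 0) (b := 2) (c := 3) (cn := .up) (n1 := ndB0q0) (n2 := ndB2q3) (pc := pcB2) (cut := Cut.none) (xt := Ext.none) (P1 := 0) (W1 := 536870912) (P2 := 1610612736) (W2 := 536870912) (P3 := 697932185) (W3 := 42949674) (N0 := 3) (En := eng) (mo := mog) (C1 := cd0q0) (C2 := cd2q3) (C3 := pd2)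
    rfl (fun _ => rfl) k0_pp_023

noncomputable def f_pp_033 : ℕ → ℕ → ℕ → ℕ → Bool := onCell 0 536870912 1610612736 536870912 697932185 42949674
    (rowB 3 eng mog cd0q0 cd2q3 pd3 1 false true true .pnn 0 3 3 (qsf 0 536870912 1610612736 536870912 3) ndB0q0 ndB2q3 pcB3 Cut.none Ext.none)

def k0_pp_033 : ∃ t, chk3 f_pp_033 t 1 1 1 = true :=
  ⟨(a (b (b (a (b (a (l 16018288) (l 16072136)) (a (l 15981152) (l 16028880))) (b (l 16175872) (l 16219568))) (b (a (a (l 15994320) (l 16098576)) (a (l 16213344) (l 16337608))) (b (a (l 16104552) (l 16319880)) (l 4)))) (a (l 4) (b (l 4) (a (b (l 4) (l 2)) (l 2))))) (b (a (b (b (a (l 16380048) (l 16488336)) (a (l 16410888) (l 16509656))) (b (l 16629856) (l 4))) (b (b (l 16593336) (l 16611856)) (a (b (l 16615312) (l 2)) (l 2)))) (a (b (a (b (l 4) (l 2)) (l 2)) (l 2)) (l 2)))), by decide +kernel⟩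

theorem c_pp_033 : CertB 0 536870912 1610612736 536870912 697932185 42949674 3 eng mog cd0q0 cd2q3 pd3 false true true .pnn 0 3 3
    ndB0q0 ndB2q3 pcB3 Cut.none Ext.none :=
  certB1 (fam := false) (s1 := true) (s2 := true) (a := 0) (b := 3) (c := 3) (cn := .pnn) (n1 := ndB0q0) (n2 := ndB2q3) (pc := pcB3) (cut := Cut.none) (xt := Ext.none) (P1 := 0) (W1 := 536870912) (P2 := 1610612736) (W2 := 536870912) (P3 := 697932185) (W3 := 42949674) (N0 := 3) (En := eng) (mo := mog) (C1 := cd0q0) (C2 := cd2q3) (C3 := pd3)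
    rfl (fun _ => rfl) k0_pp_033

noncomputable def f_pp_101 : ℕ → ℕ → ℕ → ℕ → Bool := onCell 536870912 536870912 536870912 536870912 697932185 42949674
    (rowB 3 eng mog cd0q1 cd2q1 pd0 0 false true true .npn 1 0 1 (qsf 536870912 536870912 536870912 536870912 0) ndB0q1 ndB2q1 pcB0 Cut.none Ext.none)

def k0_pp_101 : ∃ t, chk3 f_pp_101 t 1 1 1 = true :=
  ⟨(l 3), by decide +kernel⟩

theorem c_pp_101 : CertB 536870912 536870912 536870912 536870912 697932185 42949674 3 eng mog cd0q1 cd2q1 pd0 false true true .npn 1 0 1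
    ndB0q1 ndB2q1 pcB0 Cut.none Ext.none :=
  certB0 (fam := false) (s1 := true) (s2 := true) (a := 1) (b := 0) (c := 1) (cn := .npn) (n1 := ndB0q1) (n2 := ndB2q1) (pc := pcB0) (cut := Cut.none) (xt := Ext.none) (P1 := 536870912) (W1 := 536870912) (P2 := 536870912) (W2 := 536870912) (P3 := 697932185) (W3 := 42949674) (N0 := 3) (En := eng) (mo := mog) (C1 := cd0q1) (C2 := cd2q1) (C3 := pd0)
    rfl k0_pp_101

noncomputable def f_pp_102_a : ℕ → ℕ → ℕ → ℕ → Bool := onCell 536870912 536870912 0 536870912 697932185 42949674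
    (rowB 3 eng mog cd0q1 cd2q2a pd0 0 false true true .npp 1 0 2 (qsf 536870912 536870912 0 536870912 0) ndB0q1 ndB2q2a pcB0 Cut.none Ext.none)

def k0_pp_102_a : ∃ t, chk3 f_pp_102_a t 1 1 1 = true :=
  ⟨(a (l 3) (l 3)), by decide +kernel⟩

theorem c_pp_102_a : CertB 536870912 536870912 0 536870912 697932185 42949674 3 eng mog cd0q1 cd2q2a pd0 false true true .npp 1 0 2
    ndB0q1 ndB2q2a pcB0 Cut.none Ext.none :=
  certB0 (fam := false) (s1 := true) (s2 := true) (a := 1) (b := 0) (c := 2) (cn := .npp) (n1 := ndB0q1) (n2 := ndB2q2a) (pc := pcB0) (cut := Cut.none) (xt := Ext.none) (P1 := 536870912) (W1 := 536870912) (P2 := 0) (W2 := 536870912) (P3 := 697932185) (W3 := 42949674) (N0 := 3) (En := eng) (mo := mog) (C1 := cd0q1) (C2 := cd2q2a) (C3 := pd0)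
    rfl k0_pp_102_a

noncomputable def f_pp_102_b : ℕ → ℕ → ℕ → ℕ → Bool := onCell 536870912 536870912 0 536870912 697932185 42949674
    (rowB 3 eng mog cd0q1 cd2q2b pd0 1 false true true .npp 1 0 2 (qsf 536870912 536870912 1239849684 370763052 0) ndB0q1 ndB2q2b pcB0 Cut.none Ext.none)

def k0_pp_102_b : ∃ t, chk3 f_pp_102_b t 1 1 1 = true :=
  ⟨(l 3), by decide +kernel⟩

theorem c_pp_102_b : CertB 536870912 536870912 1239849684 370763052 697932185 42949674 3 eng mog cd0q1 cd2q2b pd0 false true true .npp 1 0 2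
    ndB0q1 ndB2q2b pcB0 Cut.none Ext.none :=
  certB1 (fam := false) (s1 := true) (s2 := true) (a := 1) (b := 0) (c := 2) (cn := .npp) (n1 := ndB0q1) (n2 := ndB2q2b) (pc := pcB0) (cut := Cut.none) (xt := Ext.none) (P1 := 536870912) (W1 := 536870912) (P2 := 1239849684) (W2 := 370763052) (P3 := 697932185) (W3 := 42949674) (N0 := 3) (En := eng) (mo := mog) (C1 := cd0q1) (C2 := cd2q2b) (C3 := pd0)
    rfl (fun _ => rfl) k0_pp_102_b

noncomputable def f_pp_112_a : ℕ → ℕ → ℕ → ℕ → Bool := onCell 536870912 536870912 0 536870912 697932185 42949674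
    (rowB 3 eng mog cd0q1 cd2q2a pd1 0 false true true .dn 1 1 2 (qsf 536870912 536870912 0 536870912 1) ndB0q1 ndB2q2a pcB1 Cut.none Ext.none)

def k0_pp_112_a : ∃ t, chk3 f_pp_112_a t 1 1 1 = true :=
  ⟨(a (l 3) (l 1)), by decide +kernel⟩

theorem c_pp_112_a : CertB 536870912 536870912 0 536870912 697932185 42949674 3 eng mog cd0q1 cd2q2a pd1 false true true .dn 1 1 2
    ndB0q1 ndB2q2a pcB1 Cut.none Ext.none :=
  certB0 (fam := false) (s1 := true) (s2 := true) (a := 1) (b := 1) (c := 2) (cn := .dn) (n1 := ndB0q1) (n2 := ndB2q2a) (pc := pcB1) (cut := Cut.none) (xt := Ext.none) (P1 := 536870912) (W1 := 536870912) (P2 := 0) (W2 := 536870912) (P3 := 697932185) (W3 := 42949674) (N0 := 3) (En := eng) (mo := mog) (C1 := cd0q1) (C2 := cd2q2a) (C3 := pd1)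
    rfl k0_pp_112_a

noncomputable def f_pp_112_b : ℕ → ℕ → ℕ → ℕ → Bool := onCell 536870912 536870912 536870912 536870912 697932185 42949674
    (rowB 3 eng mog cd0q1 cd2q2b pd1 1 false true true .dn 1 1 2 (qsf 536870912 536870912 1239849684 370763052 1) ndB0q1 ndB2q2b pcB1 Cut.none Ext.none)

def k0_pp_112_b : ∃ t, chk3 f_pp_112_b t 1 1 1 = true :=
  ⟨(b (a (b (l 3) (a (b (l 3) (a (l 3) (l 3))) (l 3))) (l 3)) (a (b (a (b (a (b (a (b (l 74255865927) (l 16652936)) (b (l 3) (l 16650304))) (a (b (l 16627384) (l 16598960)) (b (l 16627112) (l 16599312)))) (b (l 109689351607) (b (a (l 16630488) (l 16636392)) (l 16609328)))) (b (a (a (l 16553048) (l 16554624)) (a (l 16562240) (l 16576480))) (a (a (l 16492584) (l 16496296)) (a (l 16506752) (l 16525200))))) (b (a (b (l 3) (a (l 45264846487) (l 3))) (l 3)) (a (b (a (l 16598016) (l 16628360)) (b (l 16646168) (l 16562840))) (b (a (l 59223553879) (l 2)) (l 2))))) (a (b (a (a (b (l 16431936) (l 16373128)) (l 16452304)) (b (a (l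 16453336) (l 16475664)) (l 16412640))) (a (a (l 16288224) (l 16302608)) (b (l 16364864) (l 2)))) (b (a (b (a (l 16509264) (l 2)) (l 2)) (l 2)) (l 2)))) (b (b (l 3) (l 2)) (l 2)))), by decide +kernel⟩

theorem c_pp_112_b : CertB 536870912 536870912 1239849684 370763052 697932185 42949674 3 eng mog cd0q1 cd2q2b pd1 false true true .dn 1 1 2
    ndB0q1 ndB2q2b pcB1 Cut.none Ext.none :=
  certB1 (fam := false) (s1 := true) (s2 := true) (a := 1) (b := 1) (c := 2) (cn := .dn) (n1 := ndB0q1) (n2 := ndB2q2b) (pc := pcB1) (cut := Cut.none) (xt := Ext.none) (P1 := 536870912) (W1 := 536870912) (P2 := 1239849684) (W2 := 370763052) (P3 := 697932185) (W3 := 42949674) (N0 := 3) (En := eng) (mo := mog) (C1 := cd0q1) (C2 := cd2q2b) (C3 := pd1)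
    rfl (fun _ => rfl) k0_pp_112_b

noncomputable def cut_pp_113 : Cut := Cut.of [[⟨0, 1, 0, 67108864⟩, ⟨1, 1, 0, 67108864⟩, ⟨2, 2, 0, 16777216⟩]]

noncomputable def f_pp_113 : ℕ → ℕ → ℕ → ℕ → Bool := onCell 536870912 536870912 536870912 536870912 697932185 42949674
    (rowB 3 eng mog cd0q1 cd2q3 pd1 1 false true true .nn 1 1 3 (qsf 536870912 536870912 1610612736 536870912 1) ndB0q1 ndB2q3 pcB1 cut_pp_113 Ext.none)

def k0_pp_113 : ∃ t, chk3 f_pp_113 t 1 2 1 = true :=
  ⟨(a (a (l 1) (l 3)) (l 3)), by decide +kernel⟩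

def k1_pp_113 : ∃ t, chk3 f_pp_113 t 2 3 1 = true :=
  ⟨(b (a (b (l 1) (a (l 1) (b (l 1) (a (l 1) (l 16514768))))) (b (a (a (l 1) (l 3)) (l 3)) (a (b (a (l 16588504) (l 16622840)) (a (l 16546448) (l 16592256))) (b (a (l 16666576) (l 3)) (b (a (l 16657552) (l 16725976)) (a (l 16649520) (l 16729720))))))) (a (b (a (a (l 1) (l 69289351703)) (b (l 63383789959) (l 16407840))) (a (a (l 16281232) (l 16298352)) (b (l 16364712) (l 16325240)))) (b (a (b (a (l 16506648) (l 16562856)) (l 16503160)) (b (a (l 16638016) (l 16734176)) (b (l 16685656) (l 16667728)))) (a (b (l 16476472) (l 16455816)) (b (l 16617488) (l 16600672)))))), by decide +kernel⟩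

def k2_pp_113 : ∃ t, chk3 f_pp_113 t 3 3 1 = true :=
  ⟨(b (a (b (l 3) (a (b (l 3) (a (b (l 3) (l 16824512)) (l 3))) (l 3))) (l 3)) (a (b (a (b (a (b (l 16803672) (l 16775024)) (b (l 153175986359) (l 96804480311))) (a (a (l 16730520) (l 16748088)) (b (l 16798304) (l 16773760)))) (b (a (b (l 3) (l 212231835847)) (l 3)) (a (b (l 16880904) (l 16831512)) (b (a (l 204715699303) (l 3)) (a (l 16867736) (l 95731118759)))))) (a (b (a (l 16675016) (b (l 16750816) (l 16728640))) (a (l 16655640) (l 16696960))) (b (a (b (l 16805568) (l 16781064)) (b (a (l 16839104) (l 16859832)) (l 16822144))) (a (l 16745240) (b (l 16796032) (l 16770288)))))) (b (a (b (l 3) (a (b (l 3) (a (l 70498155783) (l 3))) (l 3))) (l 3)) (a (b (a (b (a (l 16902152) (l 98952254743)) (l 16859832)) (b (a (l 363629625511) (l 3)) (a (l 16879432) (b (l 268066452263) (l 16834576))))) (a (b (l 16829944) (l 16802016)) (b (a (l 16846672) (l 16850760)) (l 16817664)))) (b (a (b (l 3) (a (b (l 3) (l 474224945479)) (l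 3))) (l 3)) (a (b (a (b (l 229411715207) (l 16842592)) (b (l 538649402391) (a (l 16819912) (l 240685961543)))) (a (l 16817392) (b (l 16822512) (l 16805328)))) (b (a (b (l 3) (a (l 560661075927) (l 3))) (l 3)) (a (b (a (c (l 227801067863) (l 243370310727)) (b (l 560661055271) (a (l 16787400) (b (l 562808535847) (l 16786496))))) (a (l 16800744) (b (l 16801424) (l 16792520)))) (b (a (b (l 3) (a (l 575156554183) (l 3))) (l 3)) (a (b (a (c (l 245517791447) (l 250886495447)) (b (l 574619673335) (a (l 16782080) (c (l 267529493255) (l 397452270023))))) (c (l 16788104) (l 16783304))) (b (b (l 3) (l 6)) (l 6)))))))))))), by decide +kernel⟩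

theorem s3_pp_113 : ∃ t, chk3 f_pp_113 t 1 3 1 = true := ex3_a k1_pp_113 k2_pp_113

theorem s4_pp_113 : ∃ t, chk3 f_pp_113 t 1 1 1 = true := ex3_b k0_pp_113 s3_pp_113

theorem c_pp_113 : CertB 536870912 536870912 1610612736 536870912 697932185 42949674 3 eng mog cd0q1 cd2q3 pd1 false true true .nn 1 1 3
    ndB0q1 ndB2q3 pcB1 cut_pp_113 Ext.none :=
  certB1 (fam := false) (s1 := true) (s2 := true) (a := 1) (b := 1) (c := 3) (cn := .nn) (n1 := ndB0q1) (n2 := ndB2q3) (pc := pcB1) (cut := cut_pp_113) (xt := Ext.none) (P1 := 536870912) (W1 := 536870912) (P2 := 1610612736) (W2 := 536870912) (P3 := 697932185) (W3 := 42949674) (N0 := 3) (En := eng) (mo := mog) (C1 := cd0q1) (C2 := cd2q3) (C3 := pd1)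
    rfl (fun _ => rfl) s4_pp_113

noncomputable def cut_pp_123 : Cut := Cut.of [[⟨0, 1, 0, 67108864⟩, ⟨1, 1, 0, 67108864⟩, ⟨2, 2, 0, 16777216⟩]]

noncomputable def f_pp_123 : ℕ → ℕ → ℕ → ℕ → Bool := onCell 536870912 536870912 1073741824 536870912 697932185 42949674
    (rowB 3 eng mog cd0q1 cd2q3 pd2 1 false true true .npn 1 2 3 (qsf 536870912 536870912 1610612736 536870912 2) ndB0q1 ndB2q3 pcB2 cut_pp_123 Ext.none)

def k0_pp_123 : ∃ t, chk3 f_pp_123 t 1 1 1 = true :=
  ⟨(a (b (b (a (a (b (a (l 16201304) (l 16228968)) (l 16206656)) (b (l 16292144) (l 16298952))) (a (b (l 16438136) (l 16412968)) (b (a (l 16521792) (l 16565000)) (l 16477704)))) (a (b (a (b (l 16205856) (l 16217832)) (b (l 16302816) (l 16311040))) (a (l 16306272) (l 16389880))) (a (b (b (b (l 16393992) (l 16385984)) (l 16384168)) (l 16445336)) (b (b (b (l 16468136) (l 16456984)) (l 16445912)) (l 16493288))))) (a (b (a (b (l 16414864) (l 16498384)) (b (l 16478496) (l 16546984))) (b (l 16598864) (l 16664232)))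 (b (a (b (l 16523808) (l 16583456)) (b (l 16560512) (l 16614976))) (a (b (l 16650464) (l 2)) (l 2))))) (b (a (b (a (b (a (l 16616280) (l 16736608)) (a (l 16538256) (l 16567432))) (b (a (l 16675712) (b (l 16728880) (l 16689192))) (a (l 16602984) (l 16631072)))) (b (a (b (b (l 16520696) (l 16697656)) (l 16495704)) (b (b (l 16577792) (l 16734696)) (l 16590144))) (a (a (l 16518296) (l 16537928)) (a (l 16561224) (l 2))))) (b (b (a (a (b (l 16759296) (l 16717216)) (b (b (l 16786088) (l 16765232)) (l 16732744))) (b (a (b (l 16785832) (l 16765312)) (b (a (l 16778552) (b (a (b (l 16780448) (l 6)) (l 6)) (l 373225942743))) (l 362488536615))) (a (l 16731584) (l 371078464791)))) (a (a (b (l 16675928) (l 16641592)) (l 16676456)) (a (b (l 237934055735) (l 2)) (l 2)))) (a (b (b (b (l 108548696967) (l 2)) (l 2)) (l 2)) (l 2)))) (a (b (a (b (l 16753808) (l 2)) (l 2)) (l 2)) (l 2)))), by decide +kernel⟩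

theorem c_pp_123 : CertB 536870912 536870912 1610612736 536870912 697932185 42949674 3 eng mog cd0q1 cd2q3 pd2 false true true .npn 1 2 3
    ndB0q1 ndB2q3 pcB2 cut_pp_123 Ext.none :=
  certB1 (fam := false) (s1 := true) (s2 := true) (a := 1) (b := 2) (c := 3) (cn := .npn) (n1 := ndB0q1) (n2 := ndB2q3) (pc := pcB2) (cut := cut_pp_123) (xt := Ext.none) (P1 := 536870912) (W1 := 536870912) (P2 := 1610612736) (W2 := 536870912) (P3 := 697932185) (W3 := 42949674) (N0 := 3) (En := eng) (mo := mog) (C1 := cd0q1) (C2 := cd2q3) (C3 := pd2)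
    rfl (fun _ => rfl) k0_pp_123

noncomputable def f_pp_133 : ℕ → ℕ → ℕ → ℕ → Bool := onCell 536870912 536870912 1610612736 536870912 697932185 42949674
    (rowB 3 eng mog cd0q1 cd2q3 pd3 0 false true true .dn 1 3 3 (qsf 536870912 536870912 1610612736 536870912 3) ndB0q1 ndB2q3 pcB3 Cut.none Ext.none)

def k0_pp_133 : ∃ t, chk3 f_pp_133 t 1 1 1 = true :=
  ⟨(a (b (l 1) (a (b (l 1) (a (b (l 1) (l 16695984)) (l 1))) (l 1))) (l 1)), by decide +kernel⟩

theorem c_pp_133 : CertB 536870912 536870912 1610612736 536870912 697932185 42949674 3 eng mog cd0q1 cd2q3 pd3 false true true .dn 1 3 3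
    ndB0q1 ndB2q3 pcB3 Cut.none Ext.none :=
  certB0 (fam := false) (s1 := true) (s2 := true) (a := 1) (b := 3) (c := 3) (cn := .dn) (n1 := ndB0q1) (n2 := ndB2q3) (pc := pcB3) (cut := Cut.none) (xt := Ext.none) (P1 := 536870912) (W1 := 536870912) (P2 := 1610612736) (W2 := 536870912) (P3 := 697932185) (W3 := 42949674) (N0 := 3) (En := eng) (mo := mog) (C1 := cd0q1) (C2 := cd2q3) (C3 := pd3)
    rfl k0_pp_133

noncomputable def f_pp_202_a : ℕ → ℕ → ℕ → ℕ → Bool := onCell 0 536870912 0 536870912 697932185 42949674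
    (rowB 3 eng mog cd0q2 cd2q2a pd0 0 false true true .pp 2 0 2 (qsf 0 536870912 0 536870912 0) ndB0q2 ndB2q2a pcB0 Cut.none Ext.none)

def k0_pp_202_a : ∃ t, chk3 f_pp_202_a t 1 1 1 = true :=
  ⟨(l 3), by decide +kernel⟩

theorem c_pp_202_a : CertB 0 536870912 0 536870912 697932185 42949674 3 eng mog cd0q2 cd2q2a pd0 false true true .pp 2 0 2
    ndB0q2 ndB2q2a pcB0 Cut.none Ext.none :=
  certB0 (fam := false) (s1 := true) (s2 := true) (a := 2) (b := 0) (c := 2) (cn := .pp) (n1 := ndB0q2) (n2 := ndB2q2a) (pc := pcB0) (cut := Cut.none) (xt := Ext.none) (P1 := 0) (W1 := 536870912) (P2 := 0) (W2 := 536870912) (P3 := 697932185) (W3 := 42949674) (N0 := 3) (En := eng) (mo := mog) (C1 := cd0q2) (C2 := cd2q2a) (C3 := pd0)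
    rfl k0_pp_202_a

noncomputable def f_pp_202_b : ℕ → ℕ → ℕ → ℕ → Bool := onCell 0 536870912 1239849684 370763052 697932185 42949674
    (rowB 3 eng mog cd0q2 cd2q2b pd0 0 false true true .pp 2 0 2 (qsf 0 536870912 1239849684 370763052 0) ndB0q2 ndB2q2b pcB0 Cut.none Ext.none)

def k0_pp_202_b : ∃ t, chk3 f_pp_202_b t 1 1 1 = true :=
  ⟨(l 3), by decide +kernel⟩

theorem c_pp_202_b : CertB 0 536870912 1239849684 370763052 697932185 42949674 3 eng mog cd0q2 cd2q2b pd0 false true true .pp 2 0 2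
    ndB0q2 ndB2q2b pcB0 Cut.none Ext.none :=
  certB0 (fam := false) (s1 := true) (s2 := true) (a := 2) (b := 0) (c := 2) (cn := .pp) (n1 := ndB0q2) (n2 := ndB2q2b) (pc := pcB0) (cut := Cut.none) (xt := Ext.none) (P1 := 0) (W1 := 536870912) (P2 := 1239849684) (W2 := 370763052) (P3 := 697932185) (W3 := 42949674) (N0 := 3) (En := eng) (mo := mog) (C1 := cd0q2) (C2 := cd2q2b) (C3 := pd0)
    rfl k0_pp_202_b

noncomputable def f_pp_203 : ℕ → ℕ → ℕ → ℕ → Bool := onCell 0 536870912 0 536870912 697932185 42949674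
    (rowB 3 eng mog cd0q2 cd2q3 pd0 1 false true true .up 2 0 3 (qsf 0 536870912 1610612736 536870912 0) ndB0q2 ndB2q3 pcB0 Cut.none Ext.none)

def k0_pp_203 : ∃ t, chk3 f_pp_203 t 1 1 1 = true :=
  ⟨(l 3), by decide +kernel⟩

theorem c_pp_203 : CertB 0 536870912 1610612736 536870912 697932185 42949674 3 eng mog cd0q2 cd2q3 pd0 false true true .up 2 0 3
    ndB0q2 ndB2q3 pcB0 Cut.none Ext.none :=
  certB1 (fam := false) (s1 := true) (s2 := true) (a := 2) (b := 0) (c := 3) (cn := .up) (n1 := ndB0q2) (n2 := ndB2q3) (pc := pcB0) (cut := Cut.none) (xt := Ext.none) (P1 := 0) (W1 := 536870912) (P2 := 1610612736) (W2 := 536870912) (P3 := 697932185) (W3 := 42949674) (N0 := 3) (En := eng) (mo := mog) (C1 := cd0q2) (C2 := cd2q3) (C3 := pd0)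
    rfl (fun _ => rfl) k0_pp_203

noncomputable def cut_pp_213 : Cut := Cut.of [[⟨0, 1, 0, 67108864⟩, ⟨1, 1, 0, 67108864⟩, ⟨2, 2, 0, 16777216⟩]]

noncomputable def f_pp_213 : ℕ → ℕ → ℕ → ℕ → Bool := onCell 0 536870912 1610612736 536870912 697932185 42949674
    (rowB 3 eng mog cd0q2 cd2q3 pd1 0 false true true .pnn 2 1 3 (qsf 0 536870912 1610612736 536870912 1) ndB0q2 ndB2q3 pcB1 cut_pp_213 Ext.none)

def k0_pp_213 : ∃ t, chk3 f_pp_213 t 1 1 1 = true :=
  ⟨(b (l 3) (a (l 3) (b (l 3) (a (l 3) (b (l 3) (a (l 3) (b (l 3) (b (l 3) (b (l 3) (l 6)))))))))), by decide +kernel⟩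

theorem c_pp_213 : CertB 0 536870912 1610612736 536870912 697932185 42949674 3 eng mog cd0q2 cd2q3 pd1 false true true .pnn 2 1 3
    ndB0q2 ndB2q3 pcB1 cut_pp_213 Ext.none :=
  certB0 (fam := false) (s1 := true) (s2 := true) (a := 2) (b := 1) (c := 3) (cn := .pnn) (n1 := ndB0q2) (n2 := ndB2q3) (pc := pcB1) (cut := cut_pp_213) (xt := Ext.none) (P1 := 0) (W1 := 536870912) (P2 := 1610612736) (W2 := 536870912) (P3 := 697932185) (W3 := 42949674) (N0 := 3) (En := eng) (mo := mog) (C1 := cd0q2) (C2 := cd2q3) (C3 := pd1)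
    rfl k0_pp_213

noncomputable def f_pm_001 : ℕ → ℕ → ℕ → ℕ → Bool := onCell 0 536870912 536870912 536870912 697932185 42949674
    (rowB 3 eng mog cd0q0 cd2q1 pd0 0 false true false .up 0 0 1 (qsf 0 536870912 536870912 536870912 0) ndB0q0 ndB2q1 pcB0 Cut.none Ext.none)

def k0_pm_001 : ∃ t, chk3 f_pm_001 t 1 1 1 = true :=
  ⟨(a (l 4) (b (l 4) (l 4))), by decide +kernel⟩

theorem c_pm_001 : CertB 0 536870912 536870912 536870912 697932185 42949674 3 eng mog cd0q0 cd2q1 pd0 false true false .up 0 0 1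
    ndB0q0 ndB2q1 pcB0 Cut.none Ext.none :=
  certB0 (fam := false) (s1 := true) (s2 := false) (a := 0) (b := 0) (c := 1) (cn := .up) (n1 := ndB0q0) (n2 := ndB2q1) (pc := pcB0) (cut := Cut.none) (xt := Ext.none) (P1 := 0) (W1 := 536870912) (P2 := 536870912) (W2 := 536870912) (P3 := 697932185) (W3 := 42949674) (N0 := 3) (En := eng) (mo := mog) (C1 := cd0q0) (C2 := cd2q1) (C3 := pd0)
    rfl k0_pm_001

noncomputable def f_pm_011 : ℕ → ℕ → ℕ → ℕ → Bool := onCell 0 536870912 536870912 536870912 697932185 42949674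
    (rowB 3 eng mog cd0q0 cd2q1 pd1 0 false true false .pnn 0 1 1 (qsf 0 536870912 536870912 536870912 1) ndB0q0 ndB2q1 pcB1 Cut.none Ext.none)

def k0_pm_011 : ∃ t, chk3 f_pm_011 t 1 1 1 = true :=
  ⟨(a (l 4) (b (l 4) (l 4))), by decide +kernel⟩

theorem c_pm_011 : CertB 0 536870912 536870912 536870912 697932185 42949674 3 eng mog cd0q0 cd2q1 pd1 false true false .pnn 0 1 1
    ndB0q0 ndB2q1 pcB1 Cut.none Ext.none :=
  certB0 (fam := false) (s1 := true) (s2 := false) (a := 0) (b := 1) (c := 1) (cn := .pnn) (n1 := ndB0q0) (n2 := ndB2q1) (pc := pcB1) (cut := Cut.none) (xt := Ext.none) (P1 := 0) (W1 := 536870912) (P2 := 536870912) (W2 := 536870912) (P3 := 697932185) (W3 := 42949674) (N0 := 3) (En := eng) (mo := mog) (C1 := cd0q0) (C2 := cd2q1) (C3 := pd1)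
    rfl k0_pm_011

noncomputable def cut_pm_012_a : Cut := Cut.of [[⟨0, 0, 0, 67108864⟩, ⟨1, 1, 0, 67108864⟩, ⟨2, 1, 0, 67108864⟩]]

noncomputable def f_pm_012_a : ℕ → ℕ → ℕ → ℕ → Bool := onCell 0 536870912 0 536870912 697932185 42949674
    (rowB 3 eng mog cd0q0 cd2q2a pd1 0 false true false .pnp 0 1 2 (qsf 0 536870912 0 536870912 1) ndB0q0 ndB2q2a pcB1 cut_pm_012_a Ext.none)

def k0_pm_012_a : ∃ t, chk3 f_pm_012_a t 2 2 1 = true :=
  ⟨(a (a (l 2) (b (l 2) (a (l 2) (b (l 2) (a (l 2) (b (l 2) (a (l 2) (l 16404976)))))))) (a (b (a (a (l 2) (b (b (l 16415680) (l 16401576)) (b (l 16391736) (a (l 16384888) (l 16387312))))) (b (b (l 16422360) (a (l 16406408) (l 16410304))) (b (a (l 16396440) (l 16400200)) (a (l 16390472) (l 16393848))))) (a (b (a (a (l 2) (b (l 16381704) (l 16385728))) (b (a (l 16384056) (l 16386152)) (l 16388480))) (a (b (a (l 16392576) (l 16394176)) (b (l 16402712) (l 16410352))) (b (l 16396080) (l 16407872)))) (b (a (b (l 16388816) (l 16391272)) (b (l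 16391528) (l 16393072))) (b (a (l 16397728) (l 16398400)) (a (l 16408160) (l 16407464)))))) (b (a (a (b (l 16462424) (b (l 16403168) (l 16396416))) (b (b (l 16430520) (l 16416704)) (b (l 16406232) (l 16399064)))) (b (b (a (l 16433448) (l 16436328)) (a (l 16420624) (l 16425320))) (a (b (l 16409944) (l 16402336)) (b (l 16414320) (l 16406280))))) (a (b (a (b (l 16393416) (l 16394048)) (b (l 16395376) (l 16395088))) (a (b (l 16398232) (l 16405928)) (b (l 16398136) (l 16404472)))) (b (a (b (l 16397968) (l 16396760)) (b (l 16401224) (l 16399120))) (b (a (l 16398688) (l 16399936)) (a (l 16403688) (l 16403624)))))))), by decide +kernel⟩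

def k1_pm_012_a : ∃ t, chk3 f_pm_012_a t 4 3 1 = true :=
  ⟨(b (a (l 2) (a (b (l 2) (a (b (l 2) (a (l 2) (b (l 16506984) (l 16526728)))) (b (a (l 16478920) (l 16478184)) (b (l 16504896) (l 16523776))))) (b (a (b (a (l 2) (l 16422448)) (a (l 16447240) (l 16447160))) (b (a (l 16423104) (l 16423584)) (l 16446712))) (b (a (b (l 16468784) (l 16484576)) (l 16474152)) (a (b (l 16501360) (l 16518896)) (l 16505088)))))) (a (a (b (l 2) (l 6)) (a (b (b (l 2) (l 6)) (l 6)) (a (b (b (l 2) (l 6)) (l 6)) (b (b (b (l 2) (l 16573616)) (b (l 16596112) (l 16619376))) (b (b (l 16643616) (l 16668264)) (b (l 16684528) (b (l 16691648) (b (l 16695128) (l 16697424))))))))) (b (a (b (a (b (a (l 16549120) (l 16546840)) (l 16569576)) (b (l 16543032) (l 16563320))) (a (b (l 16591160) (l 16613504)) (b (l 16583696) (l 16604792)))) (b (a (l 16546816) (l 16539744)) (a (l 16585432) (l 16575776)))) (b (a (a (b (l 16636768) (l 16660432)) (b (l 16626744) (l 16645256))) (a (l 16625728) (l 16611200)))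 (a (b (a (b (l 16668720) (l 16673320)) (b (l 16651816) (l 16656120))) (b (a (l 16698808) (l 16660328)) (a (a (b (l 16685752) (l 16687976)) (l 16677736)) (b (l 16663424) (l 16686432))))) (b (a (l 16637792) (l 16622376)) (a (b (l 16643672) (l 16668472)) (b (l 16627808) (l 16631344))))))))), by decide +kernel⟩

def k2_pm_012_a : ∃ t, chk3 f_pm_012_a t 5 3 1 = true :=
  ⟨(b (a (b (a (b (a (l 16423976) (l 16423696)) (a (l 16445496) (l 16443392))) (b (a (l 16422392) (l 16420104)) (a (l 16440280) (l 16436192)))) (a (b (a (l 16470896) (l 16466752)) (a (l 16499872) (l 16493472))) (b (l 16458688) (l 16482040)))) (b (a (b (a (l 16416992) (l 16413976)) (a (l 16431288) (l 16426504))) (b (a (l 16411648) (l 16410072)) (a (l 16422424) (l 16419128)))) (a (b (l 16487304) (l 16485280)) (b (l 16433104) (a (l 16451520) (l 16444656)))))) (b (a (b (a (a (l 16532072) (l 16523296)) (b (l 16500992) (l 16514648))) (a (l 16559864) (l 16535456))) (a (b (a (l 16490904) (l 16479504)) (a (l 16514888)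 (l 16522664))) (b (a (l 16511288) (l 16462064)) (a (l 16491048) (l 16482496))))) (a (b (a (b (l 16585432) (l 16594048)) (l 16564736)) (a (b (a (l 16607696) (l 16593936)) (a (l 16614352) (l 16600008))) (a (b (l 16581160) (l 16586640)) (b (l 16569040) (b (l 16572208) (l 16573816)))))) (a (a (b (l 16541008) (b (l 16556160) (l 16558624))) (b (l 16527024) (b (l 16542336) (l 16544256)))) (b (l 16508760) (b (l 16521032) (a (l 16529600) (l 16514648)))))))), by decide +kernel⟩

def k3_pm_012_a : ∃ t, chk3 f_pm_012_a t 3 2 1 = true :=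
  ⟨(a (b (a (a (b (a (b (l 16440184) (l 16430184)) (b (l 16444256) (l 16434216))) (a (b (l 16419264) (l 16410784)) (b (l 16424224) (l 16415304)))) (b (a (b (l 16448744) (l 16438232)) (b (l 16453592) (l 16442480))) (b (a (l 16429072) (l 16432776)) (a (l 16419528) (l 16423440))))) (a (b (a (b (l 16459344) (l 16447560)) (b (l 16469864) (l 16457880))) (a (b (l 16458320) (l 16429264)) (b (l 16447944) (l 16439912)))) (b (a (b (l 16482944) (l 16470672)) (b (l 16497000) (l 16484440))) (b (l 16466920) (a (l 16451400) (l 16464016)))))) (a (a (b (a (b (l 16405056) (l 16402072)) (b (l 16408912) (l 16405056))) (a (b (l 16401808) (l 16404200)) (l 16446392))) (b (a (l 16410256) (b (l 16415784) (l 16410816))) (a (b (l 16405392) (l 16405864)) (b (l 16408832) (l 16409904))))) (a (b (a (b (l 16422112) (l 16417776)) (l 16430040)) (a (l 16415992) (l 16423432))) (b (a (l 16440896) (l 16453008)) (a (l 16431736) (l 16440800)))))) (b (a (b (a (b (l 16517952) (l 16504944)) (b (l 16543768) (l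 16530144))) (a (l 16488304) (l 16511760))) (b (a (l 16602792) (b (l 16591032) (l 16576168))) (a (l 16533480) (l 16554432)))) (a (b (a (b (l 16473504) (l 16464920)) (l 16551944)) (a (l 16453792) (l 16468456))) (b (a (l 16506744) (l 16524888)) (a (l 16481736) (l 16514560)))))), by decide +kernel⟩

def k4_pm_012_a : ∃ t, chk3 f_pm_012_a t 3 3 1 = true :=
  ⟨(a (b (a (b (a (a (b (l 16409152) (l 16416520)) (b (l 16408416) (l 16415344))) (b (a (l 16409736) (l 16413512)) (l 16417736))) (a (b (a (l 16426824) (l 16425768)) (l 16460520)) (b (l 16425608) (l 16434424)))) (b (a (b (l 16419984) (l 16422296)) (a (l 16428216) (l 16433528))) (a (b (l 16425520) (l 16429064)) (a (l 16427288) (l 16427448))))) (a (b (a (b (l 16475312) (a (l 16474432) (l 16466176))) (b (l 16443472) (a (l 16457456) (l 16448424)))) (a (b (l 16485192) (b (l 16492080) (a (l 16499512) (l 16484592)))) (b (l 16460872) (b (l 16463816) (a (l 16469968) (l 16455480)))))) (b (a (b (l 16432184) (a (l 16439456) (l 16430960)))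 (b (l 16422552) (l 16418440))) (a (b (l 16436480) (b (l 16435576) (a (l 16440856) (l 16426056)))) (b (l 16433128) (a (b (l 16414472) (l 16411560)) (l 16462736))))))) (b (a (b (a (l 16440688) (l 16447496)) (a (l 16426512) (l 16422520))) (b (a (l 16452584) (l 16456544)) (a (l 16416336) (l 16408496)))) (b (a (a (b (l 16411224) (l 16399072)) (l 16444512)) (a (l 16431992) (l 16398152))) (a (b (a (l 16389320) (l 16369904)) (a (b (l 16383784) (l 16400536)) (b (l 16362744) (a (l 16362832) (l 16352256))))) (a (b (l 16373240) (b (l 16343288) (a (l 16342040) (l 16332056)))) (b (b (l 16338400) (l 16331432)) (b (l 16324584) (a (l 16322112) (l 16312472))))))))), by decide +kernel⟩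

theorem s5_pm_012_a : ∃ t, chk3 f_pm_012_a t 3 1 1 = true := ex3_b k3_pm_012_a k4_pm_012_a

theorem s6_pm_012_a : ∃ t, chk3 f_pm_012_a t 2 3 1 = true := ex3_a k1_pm_012_a k2_pm_012_a

theorem s7_pm_012_a : ∃ t, chk3 f_pm_012_a t 2 1 1 = true := ex3_b k0_pm_012_a s6_pm_012_a

theorem s8_pm_012_a : ∃ t, chk3 f_pm_012_a t 1 1 1 = true := ex3_a s7_pm_012_a s5_pm_012_a

theorem c_pm_012_a : CertB 0 536870912 0 536870912 697932185 42949674 3 eng mog cd0q0 cd2q2a pd1 false true false .pnp 0 1 2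
    ndB0q0 ndB2q2a pcB1 cut_pm_012_a Ext.none :=
  certB0 (fam := false) (s1 := true) (s2 := false) (a := 0) (b := 1) (c := 2) (cn := .pnp) (n1 := ndB0q0) (n2 := ndB2q2a) (pc := pcB1) (cut := cut_pm_012_a) (xt := Ext.none) (P1 := 0) (W1 := 536870912) (P2 := 0) (W2 := 536870912) (P3 := 697932185) (W3 := 42949674) (N0 := 3) (En := eng) (mo := mog) (C1 := cd0q0) (C2 := cd2q2a) (C3 := pd1)
    rfl s8_pm_012_a

noncomputable def cut_pm_012_b : Cut := Cut.of [[⟨0, 0, 0, 67108864⟩, ⟨1, 1, 0, 67108864⟩, ⟨2, 1, 0, 67108864⟩]]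

noncomputable def f_pm_012_b : ℕ → ℕ → ℕ → ℕ → Bool := onCell 0 536870912 1239849684 370763052 697932185 42949674
    (rowB 3 eng mog cd0q0 cd2q2b pd1 0 false true false .pnp 0 1 2 (qsf 0 536870912 1239849684 370763052 1) ndB0q0 ndB2q2b pcB1 cut_pm_012_b Ext.none)

def k0_pm_012_b : ∃ t, chk3 f_pm_012_b t 2 1 1 = true :=
  ⟨(a (l 2) (b (b (b (a (a (a (l 2) (l 16442936)) (b (a (l 16397736) (l 16402768)) (a (l 2) (l 16342336)))) (a (a (b (l 16407064) (l 16349336)) (l 16447168)) (a (b (l 16414800) (l 16364040)) (b (l 16418184) (l 16370320))))) (a (l 2) (a (a (l 16257320) (l 16331520)) (b (l 16314416) (l 16258192))))) (a (l 2) (a (l 2) (b (a (l 2) (l 16178088)) (l 2))))) (l 2))), by decide +kernel⟩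

def k1_pm_012_b : ∃ t, chk3 f_pm_012_b t 3 1 1 = true :=
  ⟨(a (b (a (b (a (b (b (a (l 16422584) (l 16427776)) (l 16421464)) (a (l 16303744) (l 16313952))) (b (a (b (l 16433416) (l 16390200)) (b (l 16439440) (l 16397776))) (a (l 16323264) (l 16333168)))) (b (a (b (l 16232568) (l 16177456)) (a (l 16229624) (l 16243776))) (a (l 2) (a (l 16125976) (l 16148072))))) (b (a (b (b (a (l 16446256) (b (l 16466016) (l 16445368))) (a (l 16406104) (l 16415880))) (b (l 16370328) (l 16328856))) (b (a (b (l 16469016) (l 16427944)) (b (l 16484296) (l 16443336))) (a (l 16369280) (l 16384248)))) (a (b (l 16265024) (l 16176896)) (b (l 16297384) (l 16215040))))) (a (l 2) (b (a (b (a (l 16069240) (l 16095704)) (l 2)) (b (l 16130544) (l 16081832))) (l 2)))) (b (b (a (b (a (b (l 16507104) (l 16469160)) (b (l 16535440) (l 16501896))) (a (b (l 16429408) (l 16390064)) (l 16447088))) (a (b (b (l 16562048) (l 16532824)) (l 16484336)) (b (b (l 16587608) (l 16562512)) (l 16520128)))) (a (b (a (l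 16332976) (l 16392096)) (a (l 16254912) (l 16296264))) (b (a (l 16413048) (l 16456696)) (a (l 16339584) (l 16386768))))) (a (b (a (b (l 16174776) (l 16093760)) (b (l 16220560) (l 16143680))) (b (a (l 2) (l 16066360)) (l 2))) (b (a (b (l 16268216) (l 16196120)) (b (l 16317632) (l 16250480))) (a (b (l 16123560) (l 16051560)) (b (l 16183000) (l 16116032))))))), by decide +kernel⟩

theorem s2_pm_012_b : ∃ t, chk3 f_pm_012_b t 1 1 1 = true := ex3_a k0_pm_012_b k1_pm_012_b

theorem c_pm_012_b : CertB 0 536870912 1239849684 370763052 697932185 42949674 3 eng mog cd0q0 cd2q2b pd1 false true false .pnp 0 1 2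
    ndB0q0 ndB2q2b pcB1 cut_pm_012_b Ext.none :=
  certB0 (fam := false) (s1 := true) (s2 := false) (a := 0) (b := 1) (c := 2) (cn := .pnp) (n1 := ndB0q0) (n2 := ndB2q2b) (pc := pcB1) (cut := cut_pm_012_b) (xt := Ext.none) (P1 := 0) (W1 := 536870912) (P2 := 1239849684) (W2 := 370763052) (P3 := 697932185) (W3 := 42949674) (N0 := 3) (En := eng) (mo := mog) (C1 := cd0q0) (C2 := cd2q2b) (C3 := pd1)
    rfl s2_pm_012_b

noncomputable def cut_pm_022_a : Cut := Cut.of [[⟨0, 0, 0, 67108864⟩, ⟨1, 1, 0, 67108864⟩, ⟨2, 1, 0, 67108864⟩]]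

noncomputable def f_pm_022_a : ℕ → ℕ → ℕ → ℕ → Bool := onCell 1073741824 536870912 0 536870912 697932185 42949674
    (rowB 3 eng mog cd0q0 cd2q2a pd2 2 false true false .pp 0 2 2 (qsf 0 536870912 0 536870912 2) ndB0q0 ndB2q2a pcB2 cut_pm_022_a Ext.none)

def k0_pm_022_a : ∃ t, chk3 f_pm_022_a t 4 2 1 = true :=
  ⟨(a (a (b (b (b (l 16422496) (l 16451528)) (a (b (l 16397584) (l 16391336)) (b (l 16403216) (l 16398904)))) (b (a (b (a (l 16387048) (l 16391944)) (a (l 16389240) (l 16395128))) (b (l 16399056) (l 16403688))) (a (b (a (l 16396232) (l 16403096)) (a (l 16408448) (l 16416336))) (b (l 16413152) (l 16427864))))) (b (b (l 16463192) (b (l 16411208) (l 16430704))) (b (a (b (l 16408200) (l 16414768)) (b (l 16417168) (l 16425576))) (a (b (l 16426136) (l 16442744)) (b (l 16438816) (l 16457200)))))) (b (a (b (l 16489560) (a (l 16419872) (l 16426152))) (a (b (l 16431144) (l 16432480)) (b (l 16434400) (l 16438880)))) (a (b (a (b (l 16426056) (l 16436216)) (b (l 16434840)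 (l 16446680))) (b (a (l 16451136) (l 16463232)) (a (l 16471232) (l 16484944)))) (b (a (b (l 16443616) (l 16457056)) (b (l 16452368) (l 16467384))) (a (b (l 16475232) (a (l 16495184) (l 16501992))) (b (a (l 16484184) (l 16490104)) (a (l 16508744) (l 16515440)))))))), by decide +kernel⟩

def k1_pm_022_a : ∃ t, chk3 f_pm_022_a t 4 3 1 = true :=
  ⟨(b (a (a (b (a (b (a (l 16426336) (l 16435224)) (a (l 16450432) (l 16460312))) (b (l 16448216) (a (l 16469976) (l 16479448)))) (a (b (a (l 16481272) (l 16492128)) (a (l 16519464) (l 16531232))) (b (a (l 16502760) (l 16513128)) (b (l 16537344) (l 16559360))))) (b (b (a (l 16465008) (l 16481152)) (a (l 16514296) (l 16532136))) (b (a (a (l 16523232) (l 16533168)) (b (l 16537720) (l 16557744))) (a (b (l 16558840) (l 16602648)) (b (l 16579624) (l 16603384)))))) (b (a (b (a (l 16496824) (l 16543664)) (a (a (l 16524176) (l 16532752)) (a (l 16541304) (l 16549832)))) (a (b (a (l 16523696) (l 16531328)) (a (l 16558352) (l 229277036551)))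 (b (b (l 16570968) (l 230887632167)) (l 1)))) (a (b (b (a (l 16556328) (l 16574760)) (a (l 16577256) (l 204580997911))) (a (a (l 16607192) (b (l 16602280) (l 198138534615))) (a (l 436509264039) (l 1)))) (a (b (l 459057787095) (l 1)) (l 1))))) (a (b (a (b (b (a (a (l 16552904) (l 16565328)) (l 16604312)) (b (a (l 16577848) (l 16602648)) (l 6))) (l 6)) (a (b (a (b (l 16600816) (l 16627520)) (b (l 16612264) (l 16639480))) (l 6)) (a (b (b (l 16623608) (l 16643832)) (l 6)) (b (b (l 16629216) (b (l 16639320) (l 313565918263))) (b (l 482143395095) (l 1)))))) (a (l 6) (a (l 6) (l 1)))) (b (a (b (a (b (a (l 202433531975) (l 454762914727)) (a (l 464426621255) (l 1))) (l 1)) (l 1)) (l 1)) (l 1)))), by decide +kernel⟩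

def k2_pm_022_a : ∃ t, chk3 f_pm_022_a t 5 1 1 = true :=
  ⟨(b (a (b (a (b (l 16439744) (a (b (l 16441472) (l 16449064)) (l 16451880))) (b (l 1) (l 1))) (a (b (a (b (l 16461096) (l 16477608)) (c (l 89690499735) (l 16532160))) (a (b (l 16540816) (l 191159163143)) (l 1))) (l 1))) (l 1)) (b (l 1) (l 1))), by decide +kernel⟩

def k3_pm_022_a : ∃ t, chk3 f_pm_022_a t 3 1 1 = true :=
  ⟨(l 1), by decide +kernel⟩

theorem s4_pm_022_a : ∃ t, chk3 f_pm_022_a t 4 1 1 = true := ex3_b k0_pm_022_a k1_pm_022_a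

theorem s5_pm_022_a : ∃ t, chk3 f_pm_022_a t 2 1 1 = true := ex3_a s4_pm_022_a k2_pm_022_a

theorem s6_pm_022_a : ∃ t, chk3 f_pm_022_a t 1 1 1 = true := ex3_a s5_pm_022_a k3_pm_022_a

theorem c_pm_022_a : CertB 0 536870912 0 536870912 697932185 42949674 3 eng mog cd0q0 cd2q2a pd2 false true false .pp 0 2 2
    ndB0q0 ndB2q2a pcB2 cut_pm_022_a Ext.none :=
  certB2 (fam := false) (s1 := true) (s2 := false) (a := 0) (b := 2) (c := 2) (cn := .pp) (n1 := ndB0q0) (n2 := ndB2q2a) (pc := pcB2) (cut := cut_pm_022_a) (xt := Ext.none) (P1 := 0) (W1 := 536870912) (P2 := 0) (W2 := 536870912) (P3 := 697932185) (W3 := 42949674) (N0 := 3) (En := eng) (mo := mog) (C1 := cd0q0) (C2 := cd2q2a) (C3 := pd2)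
    rfl (fun _ => rfl) s6_pm_022_a

noncomputable def cut_pm_022_b : Cut := Cut.of [[⟨0, 0, 0, 67108864⟩, ⟨1, 1, 0, 67108864⟩, ⟨2, 1, 0, 67108864⟩]]

noncomputable def f_pm_022_b : ℕ → ℕ → ℕ → ℕ → Bool := onCell 0 536870912 1073741824 536870912 697932185 42949674
    (rowB 3 eng mog cd0q0 cd2q2b pd2 1 false true false .pp 0 2 2 (qsf 0 536870912 1239849684 370763052 2) ndB0q0 ndB2q2b pcB2 cut_pm_022_b Ext.none)

def k0_pm_022_b : ∃ t, chk3 f_pm_022_b t 1 2 1 = true :=
  ⟨(a (a (b (a (b (l 1) (a (b (l 1) (l 192769776119)) (b (l 185790487351) (l 16473752)))) (b (a (b (l 1) (b (l 1) (l 16529552))) (b (b (l 1) (l 16549456)) (l 16448104))) (a (b (l 16470936) (l 16377872)) (b (l 16354136) (l 16287848))))) (b (a (b (a (l 16477776) (l 16402680)) (b (l 16430248) (l 16341640))) (b (a (l 16291120) (l 16227728)) (a (l 16339928) (l 16177784)))) (a (a (l 16374552) (l 16274984)) (b (l 16193136) (l 16135608))))) (b (b (a (a (b (a (l 16508568) (l 16406392)) (l 16352408)) (b (l 16371176)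 (l 16284120))) (a (b (l 16281504) (l 16223656)) (b (l 16223704) (l 16173976)))) (a (a (l 16380712) (l 16239192)) (a (l 16148656) (l 16109936)))) (b (a (b (l 16188856) (a (l 16127888) (l 16086632))) (b (l 16133056) (a (l 16055800) (l 16033760)))) (a (b (l 16087592) (l 16066440)) (a (l 16047008) (l 16038144)))))) (a (b (a (b (a (l 16219088) (l 16124720)) (a (l 16080352) (l 16060552))) (b (a (l 16103872) (l 16087920)) (a (l 16050664) (l 16046568)))) (a (b (b (l 16030464) (l 16078792)) (l 16038296)) (b (b (l 16020544) (l 16015024)) (l 16056864)))) (b (a (b (a (l 16077608) (l 16074504)) (a (l 16042904) (l 16048000))) (b (a (l 16080736) (l 16096720)) (a (l 16062152) (l 2)))) (b (a (b (l 16027056) (l 2)) (l 2)) (l 2))))), by decide +kernel⟩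

def k1_pm_022_b : ∃ t, chk3 f_pm_022_b t 1 3 1 = true :=
  ⟨(a (b (a (b (a (b (l 16170368) (l 16112816)) (l 16173296)) (a (b (a (l 16073664) (l 16050152)) (l 16020376)) (b (l 16012184) (l 15988072)))) (b (a (l 16023728) (l 16024608)) (a (l 15954256) (l 15985048)))) (a (b (a (b (l 15986840) (l 15961440)) (l 15965928)) (a (b (l 15942552) (l 15923792)) (l 15950728))) (b (a (l 15962152) (l 2)) (l 2)))) (b (a (a (b (l 16059224) (l 2)) (l 2)) (l 2)) (l 2))), by decide +kernel⟩

theorem s2_pm_022_b : ∃ t, chk3 f_pm_022_b t 1 1 1 = true := ex3_b k0_pm_022_b k1_pm_022_b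

theorem c_pm_022_b : CertB 0 536870912 1239849684 370763052 697932185 42949674 3 eng mog cd0q0 cd2q2b pd2 false true false .pp 0 2 2
    ndB0q0 ndB2q2b pcB2 cut_pm_022_b Ext.none :=
  certB1 (fam := false) (s1 := true) (s2 := false) (a := 0) (b := 2) (c := 2) (cn := .pp) (n1 := ndB0q0) (n2 := ndB2q2b) (pc := pcB2) (cut := cut_pm_022_b) (xt := Ext.none) (P1 := 0) (W1 := 536870912) (P2 := 1239849684) (W2 := 370763052) (P3 := 697932185) (W3 := 42949674) (N0 := 3) (En := eng) (mo := mog) (C1 := cd0q0) (C2 := cd2q2b) (C3 := pd2)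
    rfl (fun _ => rfl) s2_pm_022_b

noncomputable def f_pm_023 : ℕ → ℕ → ℕ → ℕ → Bool := onCell 0 536870912 1073741824 536870912 697932185 42949674
    (rowB 3 eng mog cd0q0 cd2q3 pd2 1 false true false .up 0 2 3 (qsf 0 536870912 1610612736 536870912 2) ndB0q0 ndB2q3 pcB2 Cut.none Ext.none)

def k0_pm_023 : ∃ t, chk3 f_pm_023 t 1 1 1 = true :=
  ⟨(b (a (a (l 1) (b (l 1) (b (l 1) (a (l 1) (l 348461659991))))) (a (b (a (l 1) (b (l 1) (a (l 1) (l 16048808)))) (a (b (l 270615446647) (l 16039384)) (b (a (l 16019168) (l 16020600)) (l 16056176)))) (b (a (b (l 117607266679) (a (l 16045520) (l 16049920))) (b (a (l 16085280) (l 16099712)) (l 16071856))) (b (a (b (l 16027112) (l 16024752)) (b (l 16060816) (l 16063288))) (a (l 16074752) (l 16122192)))))) (a (b (a (b (l 1) (a (l 1) (l 16145808))) (b (a (l 16027256) (l 16026776)) (a (l 15949480) (l 15983376)))) (a (b (a (l 333966146183) (l 15962072)) (a (l 359735869367) (l 15952464))) (b (a (l 15963968) (l 15970096)) (a (l 15991384)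 (l 16045496))))) (b (a (a (b (l 16058368) (l 16055048)) (b (l 16099408) (l 16125280))) (b (a (l 16130520) (l 16209224)) (a (l 16214944) (l 16342560)))) (a (a (b (l 16039032) (l 16235168)) (b (l 16243400) (l 16388984))) (b (l 16428472) (l 16535016)))))), by decide +kernel⟩

theorem c_pm_023 : CertB 0 536870912 1610612736 536870912 697932185 42949674 3 eng mog cd0q0 cd2q3 pd2 false true false .up 0 2 3
    ndB0q0 ndB2q3 pcB2 Cut.none Ext.none :=
  certB1 (fam := false) (s1 := true) (s2 := false) (a := 0) (b := 2) (c := 3) (cn := .up) (n1 := ndB0q0) (n2 := ndB2q3) (pc := pcB2) (cut := Cut.none) (xt := Ext.none) (P1 := 0) (W1 := 536870912) (P2 := 1610612736) (W2 := 536870912) (P3 := 697932185) (W3 := 42949674) (N0 := 3) (En := eng) (mo := mog) (C1 := cd0q0) (C2 := cd2q3) (C3 := pd2)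
    rfl (fun _ => rfl) k0_pm_023

noncomputable def f_pm_033 : ℕ → ℕ → ℕ → ℕ → Bool := onCell 1610612736 536870912 1610612736 536870912 697932185 42949674
    (rowB 3 eng mog cd0q0 cd2q3 pd3 2 false true false .pnn 0 3 3 (qsf 0 536870912 1610612736 536870912 3) ndB0q0 ndB2q3 pcB3 Cut.none Ext.none)

def k0_pm_033 : ∃ t, chk3 f_pm_033 t 1 1 1 = true :=
  ⟨(a (b (a (a (b (b (a (l 15888776) (l 15849696)) (l 16145808)) (b (l 16108904) (l 16080680))) (b (l 4) (b (l 4) (l 16045064)))) (l 4)) (a (b (a (b (l 16263104) (l 16404968)) (b (l 16205928) (l 16325416))) (a (b (l 16490920) (l 16583384)) (a (l 16506480) (l 16494480)))) (a (b (l 4) (a (l 16470304) (l 16445672))) (l 4)))) (l 4)), by decide +kernel⟩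

theorem c_pm_033 : CertB 0 536870912 1610612736 536870912 697932185 42949674 3 eng mog cd0q0 cd2q3 pd3 false true false .pnn 0 3 3
    ndB0q0 ndB2q3 pcB3 Cut.none Ext.none :=
  certB2 (fam := false) (s1 := true) (s2 := false) (a := 0) (b := 3) (c := 3) (cn := .pnn) (n1 := ndB0q0) (n2 := ndB2q3) (pc := pcB3) (cut := Cut.none) (xt := Ext.none) (P1 := 0) (W1 := 536870912) (P2 := 1610612736) (W2 := 536870912) (P3 := 697932185) (W3 := 42949674) (N0 := 3) (En := eng) (mo := mog) (C1 := cd0q0) (C2 := cd2q3) (C3 := pd3)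
    rfl (fun _ => rfl) k0_pm_033

noncomputable def f_pm_101 : ℕ → ℕ → ℕ → ℕ → Bool := onCell 536870912 536870912 536870912 536870912 697932185 42949674
    (rowB 3 eng mog cd0q1 cd2q1 pd0 0 false true false .npn 1 0 1 (qsf 536870912 536870912 536870912 536870912 0) ndB0q1 ndB2q1 pcB0 Cut.none Ext.none)

def k0_pm_101 : ∃ t, chk3 f_pm_101 t 2 1 1 = true :=
  ⟨(b (a (l 4) (b (l 4) (l 4))) (a (b (l 4) (a (b (l 4) (a (l 4) (b (l 4) (a (l 16035952) (l 16015840))))) (b (a (l 4) (b (l 4) (a (l 16020408) (l 16039976)))) (a (b (a (l 16025416) (l 15997640)) (l 16008056)) (b (a (l 15975168) (l 15957952)) (l 15959624)))))) (b (a (b (l 4) (a (l 4) (b (l 4) (a (l 16258296) (l 16263984))))) (b (a (b (l 4) (l 16372024)) (b (l 16402064) (l 16368440))) (a (b (l 16325536) (a (l 16275336) (l 16290808))) (b (l 16338576) (l 16312472))))) (a (b (a (b (l 16230680) (l 16160744)) (b (l 16198248) (l 16131944))) (a (b (l 15983072) (l 15958608)) (b (l 16051408) (l 15961576)))) (b (a (b (l 16241184)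 (l 16189296)) (b (a (l 16276504) (l 16298280)) (l 16251576))) (a (b (l 16123328) (l 16039232)) (b (l 16200480) (l 16133096)))))))), by decide +kernel⟩

def k1_pm_101 : ∃ t, chk3 f_pm_101 t 3 1 1 = true :=
  ⟨(b (a (b (l 1) (a (b (l 1) (a (b (l 1) (l 16475784)) (l 1))) (l 1))) (l 1)) (a (b (a (b (a (b (l 16399064) (l 16375928)) (b (l 16403384) (l 16380640))) (a (b (l 16357888) (l 16341232)) (b (l 16367248) (l 16358576)))) (b (a (b (l 1) (l 16382992)) (l 1)) (a (b (l 16368416) (l 16363088)) (b (l 16522848) (l 16369576))))) (b (a (a (b (l 16327016) (l 16396312)) (b (l 16351776) (l 16348536))) (a (b (l 16362552) (l 16364264)) (b (l 16372040) (l 16379296)))) (a (a (b (l 16283656) (l 16233336)) (b (a (l 16336688) (l 16356368)) (b (l 16330384) (l 16311736)))) (b (a (l 16370624) (a (l 16385320) (l 16396688))) (a (b (b (l 16378352) (l 16383136)) (a (l 16360032) (l 16380776))) (b (a (l 16394256) (l 16397120)) (l 16395520))))))) (b (a (b (l 1) (a (b (l 1) (l 196527766327)) (l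 1))) (l 1)) (b (a (a (b (a (l 16376896) (l 16380896)) (a (l 16387520) (l 16391328))) (b (a (l 148209229591) (l 1)) (a (l 16397672) (b (l 16404512) (l 16410904))))) (b (l 1) (a (a (a (a (l 16415272) (l 1)) (l 1)) (l 1)) (l 1)))) (a (a (b (b (a (l 16397000) (l 16403376)) (a (l 16404264) (b (l 16406920) (l 16407152)))) (b (l 16403736) (l 16401400))) (b (b (a (b (l 16408200) (l 16411840)) (b (a (l 16416224) (l 16418968)) (l 16417456))) (a (l 16411144) (l 16418600))) (b (l 16414256) (l 16412976)))) (a (b (b (a (b (l 117070736087) (l 16424976)) (l 240014236151)) (a (l 16425720) (l 16438680))) (b (a (l 16427144) (l 16435472)) (l 16432136))) (b (b (l 1) (a (l 16448256) (l 1))) (b (a (l 16446432) (l 16455928)) (l 16452040))))))))), by decide +kernel⟩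

theorem s2_pm_101 : ∃ t, chk3 f_pm_101 t 1 1 1 = true := ex3_a k0_pm_101 k1_pm_101

theorem c_pm_101 : CertB 536870912 536870912 536870912 536870912 697932185 42949674 3 eng mog cd0q1 cd2q1 pd0 false true false .npn 1 0 1
    ndB0q1 ndB2q1 pcB0 Cut.none Ext.none :=
  certB0 (fam := false) (s1 := true) (s2 := false) (a := 1) (b := 0) (c := 1) (cn := .npn) (n1 := ndB0q1) (n2 := ndB2q1) (pc := pcB0) (cut := Cut.none) (xt := Ext.none) (P1 := 536870912) (W1 := 536870912) (P2 := 536870912) (W2 := 536870912) (P3 := 697932185) (W3 := 42949674) (N0 := 3) (En := eng) (mo := mog) (C1 := cd0q1) (C2 := cd2q1) (C3 := pd0)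
    rfl s2_pm_101

end Pool.Agent.Strip051.G.I6500_6900.Tab.C.BB02

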