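import Pool.Agent.Strip051.G.I6500_6900.Tab
import Pool.Agent.Strip051.PB.ExtD2

/-! # Certificates B23 (generated) -/

set_option linter.all false
set_option maxRecDepth 100000

namespace Pool.Agent.Strip051.G.I6500_6900.Tab.C.BB02

open Pool.Agent.Strip051.PB Pool.Agent.Strip051.PB.T
open Pool.Agent.Strip051.G.I6500_6900.Tab

noncomputable def cut_pm_102_a : Cut := Cut.of [[⟨0, 1, 0, 67108864⟩, ⟨1, 0, 0, 67108864⟩, ⟨2, 1, 0, 67108864⟩], [⟨0, 0, 1, 20971520⟩, ⟨1, 1, 2, 20971520⟩, ⟨2, 1, 0, 33554432⟩]]

noncomputable def xt_pm_102_a : Ext := extD2 3 ⟨7, 3, 3, 10, 49, 25, 3, 4, 67, 200, 3, 16⟩ eng cd0q1 cd2q2a pd0 false true false .npp 1 0 2 rfl ndB0q1 ndB2q2a pcB0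

noncomputable def f_pm_102_a : ℕ → ℕ → ℕ → ℕ → Bool := onCell 536870912 536870912 0 536870912 697932185 42949674
    (rowB 3 eng mog cd0q1 cd2q2a pd0 0 false true false .npp 1 0 2 (qsf 536870912 536870912 0 536870912 0) ndB0q1 ndB2q2a pcB0 cut_pm_102_a xt_pm_102_a)

def k0_pm_102_a : ∃ t, chk3 f_pm_102_a t 4 2 1 = true :=
  ⟨(b (l 2) (a (l 2) (b (l 2) (l 177804563575)))), by decide +kernel⟩

def k1_pm_102_a : ∃ t, chk3 f_pm_102_a t 10 4 1 = true :=
  ⟨(a (a (l 2) (b (b (l 16736896) (l 16698760)) (b (l 16678992) (l 16656280)))) (b (b (a (l 16749800) (b (a (l 16742864) (b (l 16750136) (l 16746616))) (l 16737616))) (a (l 16711704) (l 16725272))) (b (a (l 16691944) (l 16706152)) (a (l 16668888) (l 16683576))))), by decide +kernel⟩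

def k2_pm_102_a : ∃ t, chk3 f_pm_102_a t 22 4 1 = true :=
  ⟨(b (a (b (b (a (l 16753768) (l 16758392)) (a (l 16746736) (l 16751560))) (b (l 16763480) (l 16734304))) (b (b (a (b (l 16763024) (l 16760680)) (b (c (a (l 16764904) (l 16764968)) (l 16762160)) (l 16763016))) (a (l 16756568) (l 16760128))) (b (a (l 16750128) (l 16755024)) (a (l 16743624) (l 16749032))))) (b (a (l 16720640) (l 16734592)) (a (l 16699128) (l 16715072)))), by decide +kernel⟩

def k3_pm_102_a : ∃ t, chk3 f_pm_102_a t 46 8 1 = true :=
  ⟨(b (b (a (b (a (c (b (a (l 16764424) (c (b (l 43117418135) (l 16764304)) (l 16763248))) (l 16764328)) (c (l 39359315607) (l 16762088))) (a (c (b (b (a (c (b (l 59760416375) (l 49559869127)) (l 57612930487)) (c (l 62444769111) (l 62981638039))) (c (a (l 16763688) (b (l 52781094119) (l 16763296))) (l 47412382423))) (l 16763432)) (b (c (b (l 59223539223) (l 16761584)) (l 42580537095)) (l 16761688))) (b (a (b (l 3) (c (c (l 60834156135) (l 61907896535)) (l 60834149335))) (l 3)) (c (b (a (c (l 48486126263) (l 16762152))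 (c (b (l 62981639335) (l 53854835079)) (l 60834154615))) (c (l 16763192) (l 16762296))) (c (b (l 50096733479) (l 16761424)) (l 31843117207)))))) (a (l 16763360) (c (b (l 16763480) (l 16763632)) (l 16761952)))) (b (a (a (b (l 3) (b (l 3) (a (c (b (l 61907897511) (l 51170479383)) (l 58686666007)) (c (l 64592250087) (l 64055374455))))) (l 3)) (l 3)) (a (c (b (a (b (c (a (l 16762832) (l 52244221447)) (l 49022993655)) (l 16762496)) (b (a (l 62981639783) (l 3)) (c (a (l 50096737239) (l 61371025911)) (l 53317960151)))) (a (l 16762872) (c (l 16762520) (l 16761696)))) (a (c (l 44191151399) (l 16760624)) (b (b (l 62444759559) (l 50096729079)) (l 16760528)))) (b (l 3) (a (a (c (b (c (l 59760412951) (l 60297281895)) (l 16761584)) (l 57076051127)) (c (b (l 66739732087) (l 53854831703)) (l 49022988391))) (c (c (l 66739731751) (l 66739730151)) (l 61371018775))))))) (a (b (a (l 16762456) (l 16762616)) (l 16761368)) (b (a (c (l 16762960) (l 16761400)) (a (c (l 16760816) (l 16760640)) (b (b (c (a (l 51707347543) (l 64055378151)) (l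 52244212151)) (c (l 16761144) (l 16759712))) (l 16760912)))) (a (l 16761944) (l 16761616))))) (a (b (l 16758624) (l 16753328)) (b (l 16765968) (l 16757416)))), by decide +kernel⟩

def k4_pm_102_a : ∃ t, chk3 f_pm_102_a t 47 8 1 = true :=
  ⟨(b (b (l 3) (a (b (a (a (c (b (b (l 3) (a (l 61907894151) (l 68887214119))) (b (c (l 53854830503) (l 16760192)) (l 16760944))) (b (l 56002304343) (l 16759408))) (b (l 3) (c (b (l 68350342503) (a (l 54391700471) (l 65665989127))) (l 52244207895)))) (l 3)) (b (a (c (a (l 16761408) (l 16760568)) (l 16759712)) (c (a (c (b (l 65665988247) (l 56539183351)) (l 61907890103)) (l 71034695063)) (a (l 47949244679) (l 71034692839)))) (a (l 16760832) (a (l 16759776) (c (b (c (l 62981633463) (l 61907890279)) (l 16759600)) (l 56002305639)))))) (b (l 3) (a (b (l 3) (c (a (b (l 3) (a (l 66202858311) (l 80161500135))) (l 3)) (l 66739724471))) (l 3))))) (b (a (b (a (l 16761120) (c (l 16760848) (l 16759672))) (l 16760824)) (b (a (c (b (a (b (c (l 59760407143) (l 16758752)) (l 16759440)) (a (b (l 72645307223)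 (l 61371019335)) (l 72645306615))) (a (l 16759992) (l 54928567431))) (b (a (l 16758280) (l 65665978039)) (l 16758624))) (b (l 3) (c (a (a (b (l 69960953175) (l 16758512)) (b (l 3) (l 67276598311))) (l 78550884791)) (l 59223527383)))) (a (c (l 16760424) (l 16759376)) (b (c (a (l 16758920) (b (a (l 62981630647) (l 74792789207)) (l 58149791719))) (l 43654270823)) (c (l 16759216) (l 16758448)))))) (a (l 16759768) (b (a (l 16760304) (l 16759616)) (l 16760160))))), by decide +kernel⟩

def k5_pm_102_a : ∃ t, chk3 f_pm_102_a t 23 9 1 = true :=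
  ⟨(a (b (b (a (l 16747768) (l 16752064)) (l 16743584)) (l 16730672)) (b (b (a (l 16756456) (l 16759136)) (a (l 16751504) (l 16755712))) (b (l 16769736) (l 16740648)))), by decide +kernel⟩

def k6_pm_102_a : ∃ t, chk3 f_pm_102_a t 5 5 1 = true :=
  ⟨(a (b (a (l 16608048) (b (l 16637184) (l 16612088))) (a (l 16536656) (l 16561832))) (b (a (b (l 16668984) (l 16653024)) (a (l 16684632) (l 16704400))) (a (l 16612016) (b (a (l 16655008) (l 16675936)) (l 16653704))))), by decide +kernel⟩

def k7_pm_102_a : ∃ t, chk3 f_pm_102_a t 4 6 1 = true :=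
  ⟨(a (l 2) (b (a (l 2) (l 16481288)) (a (l 16428056) (l 16468696)))), by decide +kernel⟩

def k8_pm_102_a : ∃ t, chk3 f_pm_102_a t 4 14 1 = true :=
  ⟨(a (a (l 2) (b (l 16389392) (l 16371152))) (b (a (l 16399944) (l 16426832)) (a (b (l 16389112) (l 16383728)) (b (l 16421240) (l 16420224))))), by decide +kernel⟩

def k9_pm_102_a : ∃ t, chk3 f_pm_102_a t 8 15 1 = true :=
  ⟨(b (a (a (l 2) (b (l 16355776) (l 16348448))) (b (a (l 16357112) (l 16362464)) (a (l 16350744) (b (l 16358568) (l 16356080))))) (a (a (a (b (l 2) (c (l 140660968329625647) (c (l 139935634228903983) (l 16323592)))) (b (b (l 16343808) (l 16340120)) (c (l 140958386223120431) (l 139790361243779119)))) (b (c (l 141071842092040239) (l 16333944)) (c (a (l 140730237560881199) (l 139977965452197935)) (l 584400197901709373678127)))) (a (b (c (b (l 16354200) (l 140280949640790063)) (l 16336136)) (c (a (b (l 140006209164984367) (l 139922577557536815)) (l 140178076582445103)) (a (l 585160261174373267153455) (l 585148155532728480653871)))) (b (c (l 140429315012100143)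 (l 139989991357022255)) (c (b (l 140123650775597103) (a (l 140020777710043183) (l 140095750673809455))) (b (l 139839976730247215) (l 585028251925222675046959))))))), by decide +kernel⟩

def k10_pm_102_a : ∃ t, chk3 f_pm_102_a t 9 30 1 = true :=
  ⟨(a (b (a (l 16372528) (l 16387728)) (a (c (c (l 16404632) (l 16374064)) (l 16359152)) (b (b (l 16386768) (l 16386416)) (c (l 16397800) (l 16373560))))) (b (a (l 16408520) (l 16435768)) (b (a (b (l 16409384) (l 16473128)) (c (l 16476296) (l 16423856))) (a (c (l 140876678933217327) (l 16395872)) (c (l 141195262498652207) (l 140975841139998767)))))), by decide +kernel⟩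

def k11_pm_102_a : ∃ t, chk3 f_pm_102_a t 9 31 1 = true :=
  ⟨(c (a (b (b (a (l 140396742011043887) (l 140590805855944751)) (a (l 140341354111828015) (l 140550879841533999))) (b (a (a (l 140240886226878511) (l 140337711989817391)) (a (l 140450892991938607) (l 140581734903578671))) (a (a (l 140185360889446447) (c (l 140361007908126767) (l 140216971855675439))) (a (c (l 140486146102001711) (l 140337643281072175)) (c (b (l 140634099164889135) (l 140627364659363887)) (l 140476113055023151)))))) (a (a (b (l 140766590321131567) (b (l 140731543395074095) (c (a (l 140752365412237359) (l 140840395080974383)) (l 140633824286834735)))) (b (l 140920453263425583) (b (l 140901692856287279) (c (b (l 140980033085947951) (a (l 140936533651865647) (l 141037894901989423))) (b (l 140814831424028719) (l 140810158503608367)))))) (b (a (l 141274770923929647) (a (l 141239449144901679) (l 141342940699787311))) (b (a (c (l 141171966620467247) (l 141013362027184175)) (c (l 141393105945329711) (l 141223506232279087))) (a (c (b (l 141187497231482927)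 (a (b (l 141142142369824815) (l 141148876881936431)) (a (l 141230240759103535) (l 141469040953507887)))) (b (l 141012056364122159) (a (l 140961203945324591) (l 141069299705151535)))) (b (c (l 141420318869553199) (l 141232989529063471)) (c (a (b (l 141374482971246639) (c (l 141434406371115055) (l 141336206214840367))) (b (l 141500858116489263) (c (b (l 141560987674492975) (l 141703786749591599)) (l 141462993676877871)))) (a (l 141183648938754095) (b (l 141300953109495855) (l 141307893780332591)))))))))) (a (a (b (l 140136570024378415) (b (l 140004697342001199) (a (l 139869800997306415) (l 139972055595827247)))) (b (l 140693197821411375) (b (l 140402583151067183) (a (l 140088878726889519) (l 140401552370384943))))) (b (b (a (l 140617675165876271) (l 140930967323967535)) (a (l 140558232818532399) (l 141250581613674543))) (b (a (a (l 140426291409272879) (l 140583796480868399)) (a (l 140760130693529647) (l 140956805876056111))) (a (a (b (l 140384303809724463) (l 140358190409416751)) (c (l 140632449893892143) (l 140443677450207279)))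 (a (b (l 140734567051821103) (c (l 140820122825850927) (l 140618637274873903))) (b (l 141301090459893807) (c (a (l 140981338751483951) (l 141096237740425263)) (l 141007452115550255))))))))), by decide +kernel⟩

def k12_pm_102_a : ∃ t, chk3 f_pm_102_a t 5 6 1 = true :=
  ⟨(a (b (a (l 16504648) (l 16540136)) (a (b (l 16488928) (l 16477280)) (b (l 16529912) (l 16528048)))) (b (a (l 16587912) (l 16643648)) (a (b (l 16582912) (l 16594600)) (b (l 16646128) (a (b (l 16637536) (l 16645952)) (l 16670608)))))), by decide +kernel⟩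

def k13_pm_102_a : ∃ t, chk3 f_pm_102_a t 5 14 1 = true :=
  ⟨(a (a (b (l 16472352) (a (l 16461304) (l 16495256))) (b (l 16534592) (a (l 16534344) (l 16579032)))) (a (a (b (l 16593632) (b (l 16615936) (a (l 16625328) (l 16634800)))) (b (b (l 16623408) (l 16632960)) (b (l 16619112) (l 16641400)))) (b (a (c (l 16642208) (l 16644416)) (b (l 16678800) (l 16678936))) (a (a (l 16630312) (b (l 16660312) (l 16637264))) (b (l 16679896) (l 16663224)))))), by decide +kernel⟩

def k14_pm_102_a : ∃ t, chk3 f_pm_102_a t 10 30 1 = true :=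
  ⟨(b (a (a (l 16470016) (l 16510888)) (a (l 16558320) (a (l 16598560) (b (l 16619360) (l 16628448))))) (b (a (a (a (l 16467520) (l 16488568)) (l 16523080)) (a (l 142304326372081711) (a (l 142682833335910447) (l 16633600)))) (a (a (a (l 141728319506169903) (l 141567722135453743)) (b (a (l 141776972988514351) (a (l 16515832) (l 142067450283606063))) (l 142080919266885679))) (b (a (a (l 142256566326788143) (l 142529795028107311)) (a (l 142739389480927279) (l 16633160))) (a (a (l 142282198700752943) (l 142563330143125551)) (a (l 142372702355079215) (l 142766739845349423))))))), by decide +kernel⟩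

def k15_pm_102_a : ∃ t, chk3 f_pm_102_a t 80 31 1 = true :=
  ⟨(b (c (a (l 141452204692013103) (l 141564354903474223)) (a (l 141150663542702127) (l 141247420587950127))) (b (c (a (l 141667090515787823) (l 141610809291948079)) (a (l 141118365399302191) (l 141225155489988655))) (a (c (b (c (l 141612596007567407) (l 141415164901064751)) (c (c (b (l 141685232514449455) (a (l 141667434167566383) (a (l 141720279456710703) (l 141755944872935471)))) (a (l 141555971148169263) (a (l 141606892291489839) (l 141641045878898735)))) (a (l 141399290702856239) (a (l 141448150261284911) (l 141660905768353839))))) (b (l 141290301536944175) (c (a (l 141186535151697967) (b (l 141246527266242607) (l 141249963243372591))) (a (l 140969175395532847) (l 141027793121181743))))) (b (b (l 141793053303685167) (c (l 141831536266706991) (l 141222887756562479))) (c (b (a (l 141631425147797551) (c (l 141983475067945007) (l 141584489732325423))) (a (c (b (l 141750859628707887) (a (l 141742132253999151) (b (l 141773880659034159) (c (a (l 141825282840674351)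 (l 141837240032313391)) (l 141719867137540143))))) (b (l 141531919322382383) (a (l 141521267802112047) (l 141731068371189807)))) (b (c (l 141988147994607663) (l 141584970770350127)) (c (c (b (l 141862803683131439) (l 141952139003117615)) (l 141750653469949999)) (l 141581259918884911))))) (b (a (l 141195399962394671) (l 141248863727403055)) (a (c (b (l 141309130725343279) (l 141309749202026543)) (l 141080775851065391)) (c (l 141535217814913071) (l 141123175778009135))))))))), by decide +kernel⟩

def k16_pm_102_a : ∃ t, chk3 f_pm_102_a t 81 31 1 = true :=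
  ⟨(b (b (l 141567309828292655) (c (l 141939082258120751) (l 141572257594015791))) (b (b (a (l 141533637293654063) (l 141830711618060335)) (a (c (l 141750241143259183) (l 141333113815433263)) (c (l 141861979037614127) (l 141429183666012207)))) (b (a (c (b (l 141763160410505263) (a (l 141743506637537327) (l 141787899429650479))) (b (l 141328578333098031) (l 141320194557886511))) (c (b (l 141858062029471791) (l 141852770630549551)) (l 141584008647114799))) (c (a (b (c (l 141872974165147695) (l 141649635811180591)) (c (a (b (l 141849128502591535) (c (a (l 141892834101542959) (l 141913381229789231)) (l 141790098458640431))) (b (l 141890635076026415) (b (l 141888504772427823) (c (c (l 14) (l 141915511533797423)) (l 141829474728083503))))) (b (l 141642901302624303) (a (l 141618849481343023) (c (l 141715262929944623) (l 141599126986489903)))))) (b (c (l 141959629445087279) (l 141730999690346543)) (c (c (b (l 142192382327013423) (l 14)) (b (l 141897232146415663) (a (b (l 141872905446801455) (l 141960797657530415)) (a (l 141903485621157935)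 (l 142015017336766511))))) (b (l 141903004540420143) (a (c (l 141755395113549871) (l 141637953499791407)) (c (l 141796489370026031) (l 141677810805407791))))))) (a (b (l 141487251605766191) (c (b (l 141412278683680815) (l 141585245606330415)) (l 141173066129866799))) (b (c (l 141498384205938735) (l 141261782991896623)) (c (a (l 141464093181837359) (l 141502232500224047)) (l 141242266659143727)))))))), by decide +kernel⟩

def k17_pm_102_a : ∃ t, chk3 f_pm_102_a t 41 62 1 = true :=
  ⟨(b (a (l 142004090874806319) (b (l 142031647436390447) (l 142033296708829231))) (a (b (l 141806659827531823) (c (l 142010962889424943) (l 141598714642956335))) (b (l 142029654580363311) (l 142020240014573615)))), by decide +kernel⟩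

def k18_pm_102_a : ∃ t, chk3 f_pm_102_a t 41 126 1 = true :=
  ⟨(a (b (c (l 142013230636482607) (l 141580847580610607)) (c (a (l 141957911449010223) (l 142058035749306415)) (a (l 141512884008157231) (l 141600638800199727)))) (b (c (l 142231827341279279) (l 141772849842700335)) (a (c (l 142163451450343471) (l 141693478834520111)) (b (l 142041886662705199) (c (l 142268111237775407) (l 141781371066597423)))))), by decide +kernel⟩

def k19_pm_102_a : ∃ t, chk3 f_pm_102_a t 41 127 2 = true :=
  ⟨(a (a (a (b (l 141923757865205807) (b (l 142091708266528815) (c (b (l 142021408269975599) (c (l 14) (b (l 141958942251221039) (c (l 14) (l 141926437931434031))))) (b (l 141785494249488431) (c (b (l 141840194966913071) (l 141836896431816751)) (l 141718630183911471)))))) (b (l 141970555839496239) (b (l 142136925692477487) (c (l 14) (b (l 141828512651722799) (c (a (l 141870775141269551) (l 141892627939819567)) (l 141760480354762799))))))) (c (b (l 142159259567538223) (l 14)) (b (l 141926025606430767) (b (l 141906577993334831) (b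 (a (l 141872630565781551) (l 141917847991681071)) (a (c (c (l 14) (l 141895307999658031)) (l 141803292598501423)) (c (l 14) (b (l 141849540816502831) (l 141844867891593263))))))))) (c (l 14) (b (a (l 142024088321851439) (a (b (l 142108200979202095) (a (l 142079407514091567) (l 142102634702487599))) (b (l 142156029745807407) (l 142135070302879791)))) (c (l 14) (a (a (b (l 141915442807046191) (b (l 141901905068752943) (a (l 141880808185757743) (c (l 14) (b (l 141874623430852655) (a (l 141863765751660591) (b (l 141876410138083375) (a (l 141870912578994223) (l 141876616296824879))))))))) (a (b (l 141951108223500335) (c (l 14) (b (a (l 141899499886182447) (l 141910907321876527)) (b (a (l 141891665864917039) (l 141902935861641263)) (l 141892009462956079))))) (b (b (l 141979764251181103) (l 141969662486954031)) (b (l 141959217125261359) (l 14))))) (b (b (l 142035220881457199) (l 142025325275676719)) (l 14))))))), by decide +kernel⟩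

def k20_pm_102_a : ∃ t, chk3 f_pm_102_a t 41 127 3 = true :=
  ⟨(a (b (a (b (l 141491649689288751) (l 141475638050406447)) (b (l 141577068018516015) (l 141559269672796207))) (a (b (c (l 141578579853754415) (l 141336549799952431)) (c (b (l 141565798030131247) (a (l 141536867125133359) (l 141576793150242863))) (b (l 141320813038469167) (l 141309749201715247)))) (b (c (l 141663104829423663) (l 141415508496908335)) (c (b (l 141648742457475119) (a (l 141617681248223279) (c (l 141722409754968111) (l 141596584363720751)))) (b (l 141398328626053167) (l 141566416464904239)))))) (b (a (b (l 141667227992571951) (l 141647505501028399)) (a (b (l 141737871630680111) (a (l 141704473960169519) (l 141725639563837487))) (b (l 141781439788892207) (l 141755257665126447)))) (a (b (a (l 141603937345650735) (a (l 141636922701971503) (b (l 141664960254132271) (c (l 141780202844962863) (l 141524085295677487))))) (a (b (l 141767008662143023) (a (c (l 141691692141461551) (l 141436124348383279)) (a (c (l 141707978661134383) (l 141451380075708463))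 (b (l 141864109285392431) (c (b (l 141852564442480687) (a (l 141891940701700143) (l 141717255793066031))) (l 141458320744792111)))))) (b (a (a (b (l 141616787892437039) (l 141880945560322095)) (b (l 141627576852725807) (l 141621254660128815))) (l 141640015081193519)) (b (a (a (c (l 141912900146036783) (l 141475225739182127)) (l 141614932467515439)) (l 141900942933278767)) (c (c (l 141807553206173743) (l 141678841596330031)) (l 141483884395954223)))))) (b (a (c (l 141997974874652719) (l 141560575345426479)) (c (l 141860261052907567) (l 141600363931566127))) (c (b (a (l 141800818693931055) (l 141844936607957039)) (a (c (b (l 141857580995903535) (l 141942724427071535)) (l 141725295972761647)) (c (c (l 14) (l 141868301236715567)) (l 141769826203729967)))) (b (l 141561606140002351) (a (l 141528689504583727) (l 141571226870300719)))))))), by decide +kernel⟩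

def k21_pm_102_a : ∃ t, chk3 f_pm_102_a t 21 62 1 = true :=
  ⟨(b (a (a (c (l 142492136764375087) (l 142069511872118831)) (b (l 142541546068901935) (a (l 142470558837850159) (l 142542508147310639)))) (a (c (l 142805566364844207) (l 142405687632248879)) (c (l 142823364708974767) (l 142493579866357807)))) (a (a (a (b (l 142208806296649775) (l 142194718805295151)) (b (l 142333738333372463) (c (l 142534742858825775) (l 142059547559460911)))) (b (c (l 142676648607236143) (l 142214510010351663)) (c (l 142620092468019247) (l 142155479972315183)))) (a (b (l 142569583634300975) (a (l 142499902073159727) (l 142543195353235503))) (b (l 142616175447556143) (b (l 142590474359603247) (l 142576799181979695)))))), by decide +kernel⟩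

def k22_pm_102_a : ∃ t, chk3 f_pm_102_a t 42 63 2 = true :=
  ⟨(c (c (c (a (l 14) (a (l 14) (b (l 142523885219152047) (b (b (l 142671563370021039) (l 142663248312434863)) (b (a (l 142643525819826351) (l 142671563371200687)) (a (a (l 14) (b (l 142647855148122287) (l 142646893075660975))) (b (l 142669982823514287) (a (l 142662217521676463) (l 142677404528722095))))))))) (l 14)) (l 14)) (c (l 14) (b (a (a (b (l 142227429289459759) (l 142188534061482031)) (l 142289276835266607)) (l 14)) (l 14)))), by decide +kernel⟩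

def k23_pm_102_a : ∃ t, chk3 f_pm_102_a t 43 63 2 = true :=
  ⟨(a (a (c (b (l 142506155588616367) (b (l 142478942672879791) (c (b (a (l 142679947148230831) (l 142707434943676591)) (a (b (l 142679740990390447) (b (l 142680290746630319) (a (l 142673281358987439) (l 142688537085509807)))) (b (l 142708740614652079) (a (b (l 142702624580501679) (l 142703655373078703)) (l 142718086465601711))))) (c (a (l 14) (b (l 142649504413089967) (b (l 142650603925602479) (a (l 142644762769522863) (l 142659881057075375))))) (l 14))))) (l 14)) (b (b (l 142660018489016495) (l 142460319687491759)) (b (b (l 142452691825393839) (l 142451386155991215)) (a (c (b (b (l 142695821348749487) (l 142697058300018863)) (b (c (l 142737534080450735) (l 142660499531481263)) (c (a (l 142732929875198127) (l 142747704565301423)) (b (l 142662423677550767) (a (l 142656307643318447) (l 142671494650347695)))))) (l 14)) (a (b (l 142279862344515759) (c (b (l 142720697804669103) (c (l 142762341816434863) (b (l 142684688791945391) (l 142686544218423471)))) (l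 14))) (b (l 142293743681224879) (c (b (l 142734991458320559) (c (l 142776979067551919) (l 142700494274511023))) (b (l 142580784921673903) (c (c (l 142642632463515823) (l 14)) (l 14)))))))))) (b (b (l 142530757161042095) (a (l 142501894977667247) (b (l 142722965540536495) (l 142723446577938607)))) (b (a (b (l 142320200682274991) (l 142322674584879279)) (b (l 142726745114443951) (l 142372633653018799))) (a (b (b (l 142416476672082095) (a (l 142315940076339375) (l 142343565310804143))) (c (a (b (l 142756225780367535) (c (l 142798694426034351) (a (l 142715268964614319) (l 142729906215747759)))) (b (l 142784263331791023) (c (l 142827350452879535) (a (l 142744543466864815) (l 142759043279012015))))) (c (a (b (l 142641464231182511) (c (a (l 142657613312098479) (l 142672525441171631)) (l 14))) (b (l 142670257696981167) (b (l 142674174708301999) (a (l 142669570502852783) (l 142684413912465583))))) (l 14)))) (b (b (l 142379093285863599) (a (l 142370778228342959) (l 142397647548448943))) (b (a (c (l 142811957285765295) (c (l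 142698707565330607) (l 142622291492028591))) (a (l 142447881486500015) (l 142444789112471727))) (c (a (a (l 142721041407787183) (l 142825288867233967)) (c (l 142883494275285167) (l 142809071066906799))) (a (c (a (l 142697608054161583) (l 142712245305278639)) (c (a (l 142640295999176879) (l 142655070689280175)) (l 14))) (c (a (l 142726745117425839) (l 142741107490603183)) (b (l 142656238919991471) (a (l 142652596776698031) (l 142667440197025967)))))))))))), by decide +kernel⟩

def k24_pm_102_a : ∃ t, chk3 f_pm_102_a t 21 63 3 = true :=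
  ⟨(a (b (a (a (b (a (l 141903897914540079) (l 141950970766901295)) (b (l 141891665849221167) (l 141865071408545839))) (b (l 142004709410439215) (l 141951108212064303))) (b (l 142104833711964207) (a (l 142026012459155503) (l 142103734205317167)))) (c (b (a (a (l 141955506265620527) (l 142038863009939503)) (a (l 142125793167720495) (l 14))) (a (b (a (a (l 141903554333065263) (l 141947878405570607)) (a (l 141993233270423599) (l 142039550208147503))) (a (b (a (l 141890016594853935) (l 141936196093575215)) (c (l 14) (a (b (l 141817586250481711) (l 141813463081533487)) (a (l 141850434168012847) (l 141874073673285679))))) (a (b (l 141983406384660527) (a (c (l 14) (l 141988079290531887)) (l 14))) (l 14)))) (l 14))) (b (a (a (l 141697120972652591) (l 141775461194170415)) (a (l 141857306109673519) (l 141942655719178287))) (a (a (b (l 141661867877269551) (c (b (l 141713476218159151) (a (l 141681933972504623) (l 141727288837324847))) (a (l 141552603887058991) (l 141595965886660655)))) (b (l 141927331235233839) (b (a (l 141712789022965807)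 (l 141758281326788655)) (a (c (l 141863834447986735) (l 141636441668173871)) (c (b (l 141822671492055087) (l 142000173900431407)) (l 141682552447385647)))))) (a (a (b (l 141813737955196975) (b (l 141804941861912623) (c (a (l 141857718433267759) (l 141882388730888239)) (l 141729831457914927)))) (b (l 141859436417482799) (b (l 141852633189417007) (b (l 142030135598022703) (c (l 14) (l 141777385346662447)))))) (c (b (l 142000380096151599) (l 14)) (b (l 141859298978201647) (b (l 142035014680821807) (a (a (l 141815318505963567) (l 141840332401049647)) (c (l 14) (l 141842256546644015))))))))))) (c (l 14) (a (a (b (l 142061952751042607) (b (l 142031647461638191) (b (a (l 142002785277952047) (l 14)) (l 14)))) (b (l 142138712424333359) (l 14))) (b (b (l 142263163423277103) (l 14)) (l 14))))), by decide +kernel⟩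

def k25_pm_102_a : ∃ t, chk3 f_pm_102_a t 22 30 1 = true :=
  ⟨(b (a (b (l 16634280) (l 16633640)) (l 16616912)) (a (b (l 16631960) (a (a (l 142768732707176495) (l 142764334658289839)) (l 142758287341240431))) (b (b (l 16612376) (a (l 16630608) (l 142661461610381423))) (a (l 16605760) (a (l 142620642235121775) (l 16639432)))))), by decide +kernel⟩

def k26_pm_102_a : ∃ t, chk3 f_pm_102_a t 22 62 1 = true :=
  ⟨(b (a (a (l 142696920842485807) (c (l 142669639238647919) (l 142561474723741871))) (a (b (l 142548692931362927) (a (l 142705716933722223) (l 142774505142943855))) (b (l 16598288) (c (l 16659336) (l 16590720))))) (a (a (a (l 142450286632140847) (l 142470009124438191)) (b (l 142498940026830959) (a (l 142666203233419439) (c (a (l 142830511534637231) (l 142856143904079983)) (l 142370022264389807))))) (a (b (a (l 142551372996427887) (l 142828106347905135)) (l 142645518700331119)) (a (c (b (l 143065257309732975) (l 143100785288347759)) (l 142636585164357807)) (b (c (l 16668984) (l 142912768757481647)) (c (l 143196099220013295)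 (l 142941768384577711))))))), by decide +kernel⟩

def k27_pm_102_a : ∃ t, chk3 f_pm_102_a t 44 126 1 = true :=
  ⟨(b (a (a (l 142430907738947631) (l 142461900227723439)) (a (a (l 142664141651165359) (b (l 142675686524387503) (l 142326935183343791))) (b (a (l 142701318893764783) (l 142744131135848559)) (l 142745780404977775)))) (a (a (a (l 142422386524536879) (l 142442109017604143)) (c (b (l 142796495392571567) (l 142804260695982255)) (l 142319169848524975))) (a (a (b (l 142315252871643311) (a (l 142322399699878063) (l 142519349723267247))) (b (l 142346107922268335) (l 142728806693798063))) (c (l 142921221266030703) (l 142451248706748591))))), by decide +kernel⟩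

def k28_pm_102_a : ∃ t, chk3 f_pm_102_a t 88 127 2 = true :=
  ⟨(b (a (b (l 142771550220845231) (l 142421080892440751)) (a (b (l 142804123258323119) (a (l 142810789050056879) (b (l 142818897949360303) (l 142466710633218223)))) (b (a (l 142820409777078447) (l 142834016235880623)) (b (a (l 142832435688669359) (l 142848859646591151)) (l 142850577634525359))))) (a (a (b (l 142443346004181167) (c (b (l 142866176962412719) (c (l 142911119509782703) (l 142837177337839791))) (b (l 142626826994958511) (c (b (l 142760486386286767) (l 142764746994942127)) (a (b (l 142677954278473903) (l 142682146167652527)) (l 142694515664732335)))))) (b (c (l 142880676773544111) (b (l 142728463101673647) (l 142736090965622959))) (b (a (l 142451935945228463) (a (a (l 142460319722864815) (c (l 142897719207772335) (b (l 142747360962314415) (l 142751896448942255)))) (c (b (l 142900605426139311) (l 142905278351737007)) (b (l 142752652362956975) (l 142757462727540911))))) (a (a (c (l 142891397015503023) (c (l 142780277599256751) (l 142705373354705071)))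 (b (c (l 142896001221083311) (c (l 142785019243806895) (l 142710183713374383))) (a (b (c (l 142897719208558767) (l 142749422547976367)) (a (c (l 142899162318012591) (a (l 142750453340504239) (b (l 142750728218411183) (a (l 142751690291347631) (l 142752171327766703))))) (c (l 142900880305225903) (b (a (l 142751621571772591) (l 142752583644594351)) (l 142753339559067823))))) (b (c (l 142901155183001775) (a (a (l 142751621571625135) (l 142752583644463279)) (l 142753889314767023))) (c (l 142903491645817007) (l 142755401143697583)))))) (b (a (a (c (l 142901155182739631) (b (l 142751827729727663) (l 142754232912019631))) (l 142831061302231215)) (l 142656376393334959)) (c (l 142911119508979887) (l 142763303884832943))))))) (b (a (a (a (b (l 142818623072813231) (b (l 142824807827325103) (l 142829480752922799))) (b (l 142825151424233647) (l 142834565994938543))) (b (l 142836421420433583) (l 142846179588587695))) (c (l 142937439071420591) (l 142791341434421423))) (c (a (b (l 142921152553517231) (l 142929879929290927)) (b (l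 142950014738907311) (l 142957711322300591))) (a (b (l 142774024124219567) (c (l 142819928744345775) (b (l 142743581390356655) (l 142747910718505135)))) (b (l 142804191979880623) (a (l 142714581782986927) (l 142819035390165167)))))))), by decide +kernel⟩

def k29_pm_102_a : ∃ t, chk3 f_pm_102_a t 89 127 2 = true :=
  ⟨(b (a (b (l 142876965916737711) (c (l 142967057169989807) (l 142822746239647919))) (b (l 142946510040023151) (c (l 143030622697586799) (l 142889404144255151)))) (a (b (c (l 142982725214765231) (a (l 142822952399421615) (l 142854151047495855))) (c (a (b (l 142978602046324911) (l 142985130398384303)) (l 143009663255642287)) (a (b (l 142833947518632111) (c (l 142876897200668847) (l 142803848382333103))) (b (l 142863428179427503) (c (l 142904866032664751) (l 142832366970241199)))))) (b (c (a (l 143027186724225199) (l 143056461226606703)) (a (l 142885143537090735) (l 142915723709776047))) (c (a (l 143036944892772527) (b (l 143062302383947887) (l 143065394761449583))) (a (b (l 142892496523296943) (c (l 142932422547734703)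 (l 142860541960700079))) (b (l 142921289989193903) (l 142924107488755887))))))), by decide +kernel⟩

def k30_pm_102_a : ∃ t, chk3 f_pm_102_a t 44 127 3 = true :=
  ⟨(a (c (a (c (c (a (l 14) (b (l 142618580635238575) (b (l 142637959533117615) (a (c (b (l 142652802943991983) (a (l 142658163064864943) (b (l 142663042148384943) (a (b (l 142664760135893167) (a (b (l 142665653489385647) (a (l 142666409403859119) (l 142667302757220527))) (b (l 142667508915585199) (l 142668745866477743)))) (b (a (l 142667508915437743) (l 142669364341637295)) (l 142670876170584239)))))) (l 14)) (b (a (b (l 142651565992804527) (a (l 142654314772725935) (l 142657956905631919))) (b (l 142658712819646639) (l 142663660623216815))) (b (a (a (b (l 142657819466940591) (l 142660293368725679)) (l 142662835989725359)) (l 142668539707310255)) (l 142669570500018351))))))) (l 14)) (l 14)) (b (b (a (l 142578998207660207) (l 142423692151570607)) (a (l 142412078559428783) (b (l 142617343683477679) (l 142627651607609519)))) (b (a (b (a (l 142416820248199343)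 (l 142612258442772655)) (a (a (b (l 142599820215795887) (l 142604630580412591)) (l 142610128139354287)) (l 142622428927901871))) (l 142642426298859695)) (c (a (b (l 142661805196492975) (b (l 142668677145936047) (a (l 142665584769302703) (l 142680428178899119)))) (b (l 142692935125008559) (a (l 142693278723145903) (l 142708053413281967)))) (a (l 14) (a (l 14) (b (l 142625658743996591) (c (l 142651978309271727) (l 14))))))))) (l 14)) (b (b (a (l 142581609546989743) (l 142658025619226799)) (a (l 142420737256915119) (l 142311885618790575))) (c (a (b (a (l 142675342934163631) (l 142707984691495087)) (a (c (b (l 142723652736614575) (a (l 142722759383908527) (l 142737396635058351))) (b (l 142649160809234607) (b (l 142654108612952239) (a (l 142649779285475503) (l 142664553975578799))))) (b (l 142717193103999151) (c (b (l 142758012481568943) (l 142760417663991983)) (b (l 142684139029627055) (a (l 142679191226728623) (l 142693828477862063))))))) (b (a (l 142740282851410095) (l 142772237413875887)) (a (b (l 142747498398662831)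 (c (l 142742962910920879) (a (l 142707366217040047) (l 142721934748696751)))) (b (l 142777528815370415) (b (l 142779521680949423) (a (l 142773543085686959) (l 142787630580908207))))))) (c (a (l 14) (b (a (l 142629781911273647) (l 142662835985547439)) (a (b (l 142636997458542767) (c (a (l 142651840869040303) (l 142666684278653103)) (l 14))) (b (l 142667921228611759) (b (l 142669776655220911) (a (l 142663454462525615) (l 142677954274689199))))))) (l 14))))), by decide +kernel⟩

def k31_pm_102_a : ∃ t, chk3 f_pm_102_a t 45 126 1 = true :=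
  ⟨(a (b (a (l 142461762821423215) (l 142548899134537839)) (a (a (l 142476674953183343) (l 142515845062295663)) (a (l 142554809012928623) (l 142593498085621871)))) (a (a (b (l 142973997830013039) (l 142631980999868527)) (b (l 142656857453133935) (c (l 143161602040889583) (a (l 142886998956802223) (l 142907477364654255))))) (a (b (l 142703517986062447) (c (b (l 143199810076147951) (l 143206475867603183)) (b (l 142941012474396847) (l 142947059790561455)))) (b (c (l 143236918598484207) (l 142985199103754415)) (c (b (l 143250044022505711) (l 143263719202111727)) (b (l 142997980930506927) (l 143012412024602799))))))), by decide +kernel⟩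

def k32_pm_102_a : ∃ t, chk3 f_pm_102_a t 90 127 1 = true :=
  ⟨(c (b (a (b (l 143014954651517039) (c (l 143093019993899247) (l 142954756378624175))) (b (l 143082299751235695) (c (l 143154317778387183) (l 143019009101168815)))) (a (b (c (l 143099823224291567) (a (l 142946029004505263) (l 142975990701801647))) (c (a (l 143090683533148399) (l 143117003097440495)) (a (b (l 142949739857674415) (l 142951320406393007)) (b (l 142977846128689327) (l 142978189726564527))))) (b (c (l 143156516802887919) (a (l 143005677521141935) (l 143035020743033007))) (a (c (l 143142979064283375) (b (l 143005677521764527) (l 143004715449303215))) (a (c (l 143162289240686831) (l 143025468734800047)) (b (c (l 143176239296823535) (l 143040312144281775)) (c (l 143178300881944815) (a (l 143035639219388591) (l 143047390252187823))))))))) (b (a (b (l 142733273460179119) (l 142381910778429615)) (b (l 142807421789339823) (l 142450698987290799))) (a (b (b (l 142386446265548975) (a (l 142372702368235695) (l 142404038455296175))) (c (a (b (l 142807215634645167)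 (c (l 142844392879341743) (b (l 142772099975495855) (l 142772443573190831)))) (b (l 142836558856470703) (c (l 142872155552874671) (l 142755538586796207)))) (a (b (c (l 142698501401247919) (l 142625177705431215)) (c (b (l 142699326035493039) (a (l 142692385367359663) (l 142706747740537007))) (a (l 14) (c (l 142651772148433071) (l 14))))) (b (c (l 142728806695911599) (l 142656101475500207)) (c (a (l 142721110113616047) (l 142735472486809775)) (b (l 142655689158918319) (a (c (l 142666203241234607) (l 14)) (l 142662286230093999)))))))) (a (b (l 142502788348772527) (b (a (l 142483065858097327) (l 142486570554065071)) (c (c (l 142899505909498031) (l 142828518676070575)) (c (b (l 142757394003689647) (l 142711145785098415)) (b (l 142685101100220591) (a (l 142676648603287727) (l 142690873537495215))))))) (b (l 142511584447496367) (a (b (l 142478667816878255) (c (l 142884593779703983) (c (l 142777941131002031) (b (l 142706953897722031) (l 142705098471702703))))) (b (c (l 142901773651624111) (b (l 142760829977231535) (a (l 142755469857276079)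 (l 142763853634961583)))) (c (a (b (l 142895726336852143) (c (l 142931323033043119) (l 142860954275037359))) (b (l 142906721455227055) (l 142910569746972847))) (a (b (l 142663798075211951) (a (c (l 142786462347739311) (b (l 142714513041637551) (c (l 142732448828653743) (l 142696371096436911)))) (b (l 142755950894088367) (l 142757875039961263)))) (b (c (l 142801030879346863) (l 142729700048732335)) (l 142769419903516847))))))))))), by decide +kernel⟩

def k33_pm_102_a : ∃ t, chk3 f_pm_102_a t 91 127 1 = true :=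
  ⟨(a (b (b (a (c (l 143131983942172783) (l 142862191222505647)) (a (l 142844118031958127) (c (l 143175895696031983) (c (l 142978121002123439) (l 142843018484285615))))) (c (a (l 143133289613295727) (a (l 143160983567696111) (l 143187578010370287))) (a (l 142501620128940207) (a (c (l 142960803691741359) (l 142824051906232495)) (c (l 142989940755546287) (l 142855044396236975)))))) (b (c (a (c (a (l 143192250937311471) (l 143213210381762799)) (a (l 143057904332996719) (l 143080100728275183))) (a (l 143173971552387311) (l 143202902457794799))) (a (a (a (l 142485745927717039) (b (l 142855181836124335) (l 142495297937014959))) (b (l 142511515736146095) (l 142517631771345071))) (a (l 142545875481591983) (a (l 142570202181189807) (l 142947540831158447))))) (c (a (a (c (l 143200565996552431) (b (l 143061683905642607) (l 143069311769624687))) (l 143161533325689071)) (a (l 143190189353189615) (c (l 143283304262975727) (l 143154249059451119)))) (a (c (b (a (l 142924313644335279) (l 142955237414994095)) (l 142948021869084847))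 (b (a (b (l 142782339177529519) (l 142785843871826095)) (l 142817248678756527)) (c (l 142844255438930095) (c (l 142791822468038831) (a (l 142739458216607919) (l 142773886681252015)))))) (a (c (l 142991040269779119) (c (l 142889404143780015) (b (l 142816424045035695) (b (l 142823089836081327) (c (l 142844805195235503) (l 142810445450248367)))))) (c (a (l 143014542335492271) (l 143031103732514991)) (a (b (l 142875866404028591) (c (l 142918472488517807) (c (l 142867757504856239) (l 142833741357334703)))) (b (l 142893458593366191) (c (l 142935789799899311) (b (l 142866383114797231) (c (l 142887686157041839) (l 142854013606953135)))))))))))) (b (c (a (b (l 143217608426012911) (l 143233001592897775)) (l 143286740232962287)) (a (b (c (l 143024163059826863) (l 142892015479980207)) (l 142614388811415727)) (c (l 143100235535106223) (l 142972829599973551)))) (c (c (c (l 143379923865256175) (l 143318488640323823)) (c (l 143256572379070703) (b (l 143185860022632687) (l 143202283981947119)))) (c (c (b (l 143122638091305135) (l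 143139336928624815)) (a (b (l 143024231781630127) (l 143041274216415407)) (l 143101884805169327))) (c (b (l 142994407522320559) (b (l 143007326787403951) (a (l 142980388748411055) (l 143051719578157231)))) (b (l 142929398884647087) (a (b (l 142905759381536943) (b (l 142912425172566191) (c (l 142933384617345199) (c (l 142908645595578543) (a (l 142873529941786799) (l 142910775904895151)))))) (b (l 142979426673868975) (c (l 143004165690966191) (a (a (l 142944517173969071) (l 142963071436030127)) (l 142990834109612207))))))))))), by decide +kernel⟩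

def k34_pm_102_a : ∃ t, chk3 f_pm_102_a t 23 30 1 = true :=
  ⟨(a (b (b (l 16621672) (b (l 16632872) (l 16634712))) (b (l 16639400) (l 16626280))) (b (l 16673288) (b (l 16704768) (l 16671336)))), by decide +kernel⟩

def k35_pm_102_a : ∃ t, chk3 f_pm_102_a t 23 62 1 = true :=
  ⟨(a (b (b (a (l 16621200) (b (l 16685136) (l 16645192))) (a (c (l 16679776) (l 16613624)) (a (l 16663464) (l 16696112)))) (c (a (b (a (l 16678352) (l 16688232)) (a (l 143298353819418863) (l 143414764633899247))) (c (l 143635972670439727) (l 143539765381169391))) (a (b (l 142920053054898287) (b (l 142937988843438191) (l 142950220913770607))) (l 143211011371876463)))) (b (a (b (l 16709064) (b (l 16670784) (l 16693320))) (b (l 16731536) (c (l 16744568) (l 143754101485404399)))) (a (c (b (l 16726256) (l 16729712)) (l 143500251699527919)) (c (l 16749408) (l 143792240805642479))))), by decide +kernel⟩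

def k36_pm_102_a : ∃ t, chk3 f_pm_102_a t 23 126 1 = true :=
  ⟨(a (a (b (a (c (a (l 143290932116832495) (l 143350168316510447)) (a (l 143046634326737007) (l 143114391742857327))) (c (l 143442870907453679) (l 143220563353337967))) (c (c (l 143466098099159279) (l 143353604291821807)) (c (a (l 143170604289179759) (l 143307287352885487)) (l 142941493542207663)))) (c (c (l 143690329791201583) (a (l 143531244169789679) (l 143660093211574511))) (c (a (l 143429745480745199) (l 143568009092235503)) (l 143219463872987247)))) (c (c (a (l 143930023368884527) (l 16760256)) (a (l 143854019609002287) (l 144113573117526319))) (c (a (a (l 143706891178885359) (l 143846323021201647)) (l 144055986180374831)) (a (l 143516744380530927) (l 143816704946995439))))), by decide +kernel⟩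

def k37_pm_102_a : ∃ t, chk3 f_pm_102_a t 23 127 1 = true :=
  ⟨(a (a (b (c (c (a (l 143436617440755951) (l 143555158559768815)) (a (l 143320550220218607) (l 143447887433613551))) (c (a (c (l 143232039515980015) (l 143172322278588591)) (l 143338554723270895)) (a (c (l 143111986565922991) (l 143051101097443503)) (c (l 143255129261441199) (l 143198779279163567))))) (c (c (a (c (l 143496059802353903) (l 143438953905144047)) (l 143585738735042799)) (a (c (l 143381298252136687) (l 143323230282301679)) (c (l 143506092844499183) (l 143452354202370287)))) (c (a (a (c (l 143231214884978927) (l 143170947891740847)) (a (l 143252036889510127) (l 143285984317112559))) (c (l 143398203243430127) (b (l 143335256189272303) (l 143351886307115247)))) (a (a (b (l 143070754874196143) (c (l 143118583640670383) (c (l 143072679021183151) (a (l 143023407141666991) (l 143060446951604399))))) (c (l 143181255813890223) (b (l 143113429676294319) (b (l 143126417660887215) (l 143135145036791983))))) (a (b (l 143215684276437167) (a (l 143214653485695151)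 (l 143251006095311023))) (c (l 143324192350879919) (l 143269629075341487))))))) (a (c (c (l 143689092845502767) (b (l 143575705683263727) (l 143606698175611119))) (c (b (l 143475581384196335) (c (l 143532481124843759) (l 143482453335245039))) (a (b (l 143336768013434991) (c (l 143396004216717551) (l 143343777403748527))) (b (l 143410160427434095) (c (l 143468022240952559) (l 143418131890553007)))))) (c (c (l 143807908842160431) (b (l 143703936249643247) (l 143734447705555183))) (c (b (l 143613226520281327) (c (l 143667308761940207) (l 143622022616940783))) (b (l 143520523926257903) (a (l 143471458222391535) (l 143589999332491503))))))) (a (a (c (c (l 143926793558163759) (l 143847491263267119)) (c (b (l 143751352692556015) (l 143782345185018095)) (b (l 143668476985131247) (c (l 143721184837091567) (l 143679815703085295))))) (c (c (l 144045678273986863) (l 143975996707193135)) (c (b (l 143889959901004015) (l 143920333918077167)) (b (l 143816979799654639) (l 143848453328683247))))) (c (c (l 144223730469454127) (a (l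 144104570870415663) (l 144233145033425199))) (c (a (l 144043754117742895) (l 144182498764685615)) (c (a (l 143997162300883183) (l 144143672249762095)) (l 143866732738953455)))))), by decide +kernel⟩

def k38_pm_102_a : ∃ t, chk3 f_pm_102_a t 24 8 1 = true :=
  ⟨(a (b (l 3) (b (a (b (l 3) (a (b (a (c (b (l 3) (a (l 73719047911) (l 3))) (l 76403399831)) (l 3)) (c (a (a (l 16758016) (b (l 71571564087) (l 16757712))) (b (l 82845851047) (a (l 65665983815) (l 79624625959)))) (a (l 61371014807) (l 74792786807)))) (l 3))) (l 3)) (a (b (a (b (a (l 16758320) (b (a (l 16757448) (b (l 69424079831) (l 16757064))) (l 16757648))) (l 16758688)) (a (b (c (a (b (l 77477142167) (l 62981628215)) (b (l 3) (b (l 80698367271) (l 71034691543)))) (l 73182173799)) (c (l 16756336) (l 16757280))) (b (l 3) (c (a (b (c (l 76940272455) (l 76403400167)) (l 16757152)) (b (l 88214559335) (l 69424078343))) (l 74792785831))))) (a (l 16759520) (c (b (l 16758200) (l 16759056)) (l 16758080)))) (b (a (b (l 3) (a (c (b (l 3) (a (l 85530204887) (l 3))) (l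 88214558183)) (l 3))) (l 3)) (a (b (a (c (b (a (l 66739723591) (l 82845850455)) (l 16757000)) (l 69424076967)) (c (b (l 3) (a (l 80161495895) (l 92509525959))) (l 84993333031))) (a (l 16757632) (a (l 16756984) (b (a (l 72108432407) (l 80161495799)) (l 16756784))))) (a (b (l 3) (b (l 90362041943) (a (l 71034690231) (l 86603946199)))) (l 3))))))) (l 3)), by decide +kernel⟩

def k39_pm_102_a : ∃ t, chk3 f_pm_102_a t 24 9 1 = true :=
  ⟨(a (b (a (b (b (l 16759768) (l 16759832)) (l 16758864)) (b (b (a (c (l 16758736) (l 16758136)) (b (a (c (c (l 63518496999) (l 16756912)) (l 16756760)) (c (b (a (l 83919591511) (l 3)) (a (l 16756464) (l 80698366087))) (l 80161494599))) (c (l 16756208) (l 16757232)))) (a (l 16759448) (l 16758528))) (l 16759840))) (b (a (l 16755488) (l 16759008)) (a (l 16750904) (l 16755712)))) (b (b (a (b (a (b (a (c (l 96804491719) (l 94657008167)) (l 3)) (a (c (b (a (l 77477140599) (l 91972654679)) (l 69960947735)) (l 78014011223)) (c (b (l 3) (l 91972654263)) (l 93046395671)))) (l 3)) (a (b (a (l 16757072)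 (b (a (l 16756144) (l 84993332535)) (l 16756416))) (l 16757528)) (b (a (a (b (l 3) (l 82308978055)) (l 98951975287)) (l 3)) (a (c (b (l 74255914455) (l 16756472)) (l 16756160)) (b (l 97341362599) (a (l 74255914183) (l 91972654023))))))) (l 3)) (a (a (b (l 16758592) (l 16759520)) (b (c (b (a (l 16757224) (l 68350334167)) (l 16757656)) (l 16756944)) (l 16758504))) (a (b (b (a (c (b (l 94120136983) (a (l 16755648) (l 83919589943))) (l 87140815863)) (l 106468166295)) (a (l 16756112) (c (b (a (l 80161493415) (l 99488845415)) (l 73182171543)) (l 80698364759)))) (c (b (l 16756576) (l 16757448)) (l 16756648))) (b (b (l 3) (a (c (b (l 3) (l 100025715623)) (l 101636327751)) (l 3))) (b (a (b (a (l 72108429255) (l 92509523079)) (l 16755128)) (c (b (l 3) (a (l 86067072135) (l 109689391111))) (l 98951972743))) (a (l 16755768) (c (b (a (l 16754784) (l 82308975559)) (l 16754976)) (l 16754520)))))))) (a (b (l 16759912) (l 16759248)) (b (b (a (l 16758200) (c (l 16756640) (l 16756112))) (l 16758552)) (l 16759528))))), by decide +kernel⟩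

def k40_pm_102_a : ∃ t, chk3 f_pm_102_a t 25 4 1 = true :=
  ⟨(b (l 3) (a (b (a (b (l 3) (b (l 3) (a (b (l 3) (a (c (b (l 106468164791) (a (l 78550878871) (l 100562585175))) (l 96804488503)) (l 3))) (l 3)))) (l 3)) (a (b (b (a (b (a (c (b (l 72108427799) (l 16754720)) (l 16754176)) (c (b (a (l 96804488519) (l 3)) (a (l 16753808) (l 92509520935))) (l 94657004919))) (c (a (l 16755392) (l 16754192)) (l 16754336))) (b (a (c (l 113984354871) (l 113984354151)) (l 3)) (a (c (b (a (l 84993327879) (l 107005033895)) (a (l 16753496) (l 83382714839))) (l 86067069639)) (b (l 3) (c (a (l 102710066279) (l 3)) (l 105394419223)))))) (a (l 16755824) (b (a (l 16753688) (c (b (a (l 79087747015) (l 98951969655)) (l 16752920)) (l 84993326567))) (l 16753928)))) (a (l 16757712) (b (l 16755104) (l 16756432)))) (b (b (l 3) (a (b (a (b (l 3) (c (a (l 95193872999) (l 3)) (l 99488838343))) (l 3)) (a (c (b (a (l 16752448) (l 91435776487)) (l 16752616)) (l 80698358279)) (a (b (l 110763127127) (l 84993325223)) (l 109689384343)))) (l 3))) (b (b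 (c (a (a (l 16753336) (b (l 75866519783) (l 16752280))) (a (b (l 108615642679) (a (l 16751272) (l 100562579399))) (l 3))) (a (l 74255907399) (l 102710065095))) (a (l 16753128) (a (l 70497810087) (c (b (l 103246932823) (l 82308968663)) (l 94120126775))))) (a (l 16754288) (b (c (l 16751944) (l 16750752)) (l 16752232))))))) (b (l 3) (a (b (l 3) (b (a (b (l 3) (a (l 115594960343) (l 3))) (l 3)) (a (b (a (b (c (l 94656997447) (l 96804479655)) (l 78014000519)) (b (l 3) (l 109689379943))) (a (l 16750256) (b (l 90362029799) (l 16749088)))) (b (l 3) (a (b (l 3) (l 104320669847)) (l 3)))))) (l 3))))), by decide +kernel⟩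

def k41_pm_102_a : ∃ t, chk3 f_pm_102_a t 12 5 1 = true :=
  ⟨(a (b (b (a (l 16742312) (b (a (l 16756144) (l 16758920)) (l 16789880))) (a (l 16712536) (l 16714624))) (b (a (l 16698856) (l 16718512)) (a (l 16689864) (l 16710080)))) (b (a (b (a (b (l 16758488) (l 16758256)) (b (a (l 16756240) (l 16754168)) (l 16757320))) (a (l 16751240) (b (l 16757496) (l 16753712)))) (b (a (b (b (a (c (l 16751592) (l 16750088)) (c (b (a (l 80161481863) (l 106468153239)) (l 74255901895)) (a (l 78550867543) (l 93583249511)))) (a (l 16752560) (l 16749944))) (l 16753720)) (b (b (a (b (l 3) (a (b (l 112373730423) (l 94120122647)) (l 3))) (l 3)) (a (b (a (l 16747344) (b (l 107005020295) (l 88214541767))) (l 16747568)) (b (a (l 123648015799) (l 3)) (a (b (l 102173183543) (l 16745576)) (l 119889918471))))) (b (a (l 16749000) (b (a (l 16746328) (b (l 95730731655) (l 16745096))) (l 16746600))) (l 16749480)))) (b (a (l 16756256) (l 16752184)) (a (l 16756760) (l 16754824))))) (a (b (l 16733136) (l 16726336)) (b (a (l 16747264) (b (l 16755616)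 (l 16750696))) (l 16734288))))), by decide +kernel⟩

def k42_pm_102_a : ∃ t, chk3 f_pm_102_a t 13 4 1 = true :=
  ⟨(l 3), by decide +kernel⟩

def k43_pm_102_a : ∃ t, chk3 f_pm_102_a t 26 5 1 = true :=
  ⟨(b (b (b (l 3) (a (a (b (a (b (a (l 115594950327) (l 3)) (a (l 84456442103) (l 112373724119))) (l 3)) (a (b (a (l 16745456) (l 79624603255)) (l 16745808)) (b (a (l 109689374183) (l 3)) (a (l 16743752) (l 106468142983))))) (b (l 3) (a (l 134385434983) (l 3)))) (l 3))) (a (a (b (b (a (l 16747368) (l 16744720)) (l 16748104)) (l 16750984)) (b (b (a (b (a (l 95730727143) (l 131164201655)) (a (l 16743320) (l 91435759575))) (b (l 3) (l 130627329079))) (a (l 16744368) (b (a (l 86603921191) (l 123648008631)) (l 78550858807)))) (a (l 16747640) (b (l 16744240) (l 16746496))))) (a (b (b (l 3) (a (b (l 3) (l 126332372263)) (l 3))) (b (a (b (a (l 16741904) (l 116131818439)) (l 16742528)) (b (l 3) (l 120963652887))) (a (l 16744320) (b (l 96267589623) (l 16742648))))) (b (l 3) (b (l 3) (a (b (l 130090455719) (l 105931267687)) (l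 3))))))) (a (b (b (a (l 16753664) (l 16750608)) (a (l 16754368) (l 16753520))) (a (l 16742232) (l 16752472))) (b (b (a (l 16746768) (b (a (b (l 88751396871) (l 16742832)) (b (l 110763103303) (l 108078748167))) (a (l 16744720) (b (l 80698333079) (l 16743080))))) (a (l 16751136) (l 16747400))) (b (a (l 16754400) (l 16751936)) (a (l 16754672) (l 16755816)))))), by decide +kernel⟩

def k44_pm_102_a : ∃ t, chk3 f_pm_102_a t 27 5 1 = true :=
  ⟨(b (l 3) (a (b (b (a (b (l 3) (a (b (l 112373716567) (l 111836845111)) (l 3))) (l 3)) (a (a (b (l 16742744) (l 16745432)) (b (a (l 113447458343) (a (l 103246912631) (l 95730718455))) (l 16743128))) (c (b (l 139217256487) (a (l 107005010407) (l 138143518327))) (b (a (l 104320647783) (l 3)) (a (b (l 105931265527) (l 119889910167)) (l 105931268887)))))) (b (a (a (l 16749408) (l 16747312)) (a (b (l 16743536) (l 16746432)) (b (c (l 111836849031) (b (a (l 117742425383) (l 96804459127)) (l 124184878071))) (l 16741280)))) (a (b (l 16752336) (l 16754624)) (a (l 16750792) (l 16748448)))))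 (b (l 3) (a (b (a (b (c (l 136532905959) (b (l 3) (a (l 100025684791) (l 3)))) (c (l 114521203895) (b (a (l 124721748087) (l 102710039495)) (l 129016716727)))) (b (l 3) (c (l 135459164375) (a (b (l 3) (c (l 104857524023) (l 116668682503))) (l 3))))) (a (c (l 16746528) (l 16744944)) (b (a (c (l 16742672) (b (l 16740472) (l 16742016))) (c (l 115058073111) (b (c (l 107005006359) (l 117205553463)) (l 16740520)))) (c (l 16745184) (l 16743656))))) (b (l 3) (b (b (l 3) (a (c (l 120426781639) (a (c (l 106468135735) (l 111299973447)) (l 100025681543))) (l 3))) (c (a (a (l 16742840) (l 118279298807)) (a (l 121500523255) (l 143512226535))) (a (a (l 16741368) (b (a (l 120426778743) (l 102173167959)) (l 16740584))) (b (a (l 100562552439) (l 3)) (a (b (l 106468135271) (l 126869229415)) (c (l 83919555047) (l 84456424215)))))))))))), by decide +kernel⟩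

def k45_pm_102_a : ∃ t, chk3 f_pm_102_a t 7 2 1 = true :=
  ⟨(a (b (l 3) (a (l 3) (l 3))) (l 3)), by decide +kernel⟩

def k46_pm_102_a : ∃ t, chk3 f_pm_102_a t 6 6 1 = true :=
  ⟨(a (b (a (a (l 16684160) (l 16710840)) (b (a (l 16725176) (l 16732136)) (a (l 16728048) (l 16738432)))) (a (a (a (l 16687160) (l 16703392)) (l 16723240)) (a (l 16742872) (l 16752800)))) (b (a (b (a (l 16737456) (l 16745312)) (a (l 16740952) (l 16745104))) (a (b (b (a (l 16757760) (b (l 16753936) (l 16756768))) (a (l 16756696) (l 16759984))) (l 16751736)) (b (b (c (a (l 16751696) (a (l 16747240) (b (a (l 16743032) (l 119353040631)) (l 16745800)))) (a (l 16749976) (b (a (l 16743912) (b (a (l 16740648) (b (l 109152489911) (l 130090454663))) (l 16741560))) (l 16745840)))) (a (a (l 16758480) (l 16756264)) (a (l 16753728) (l 16750720)))) (a (l 16761864) (b (b (l 16757808) (l 16761344)) (l 16764440)))))) (a (b (a (l 16750400) (l 16756224)) (l 16767264)) (a (b (b (l 16756760) (l 16763016)) (l 16775992)) (b (l 16762776) (b (l 16751736) (l 16782960))))))),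 by decide +kernel⟩

def k47_pm_102_a : ∃ t, chk3 f_pm_102_a t 6 14 1 = true :=
  ⟨(a (a (b (a (b (l 16670296) (l 16712192)) (b (l 16742568) (l 16747536))) (a (l 16699816) (l 16757736))) (b (a (b (l 16763824) (l 16774616)) (l 16778896)) (a (l 16785568) (l 16802240)))) (a (b (a (l 16785456) (l 16791600)) (b (a (l 16807144) (l 16812360)) (a (l 16818480) (l 16828168)))) (b (a (l 16796728) (l 16778200)) (a (b (l 16818576) (l 16835744)) (b (l 16820736) (l 16837192)))))), by decide +kernel⟩

def k48_pm_102_a : ∃ t, chk3 f_pm_102_a t 12 15 1 = true :=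
  ⟨(b (a (a (b (l 16736464) (l 16731280)) (b (l 16774880) (l 16770624))) (a (b (l 16804024) (l 16800608)) (b (l 16821992) (l 16819432)))) (b (a (a (b (b (l 16764288) (c (a (l 16765216) (l 16785368)) (l 16742104))) (a (a (l 16758312) (l 16769400)) (l 16785800))) (b (l 16785456) (b (a (l 16805448) (l 16824112)) (a (l 16808352) (l 16826880))))) (a (b (l 16837488) (b (c (l 16846896) (l 16823864)) (l 16828256))) (b (l 16856944) (b (l 16844568) (a (l 16866120) (l 16874896)))))) (b (a (a (a (c (l 16777216) (l 144137831117685039)) (c (l 16797600) (l 144429957660524847))) (a (c (l 16817016) (b (l 16808008) (l 16811480))) (a (l 16827336) (l 16835712)))) (a (c (l 16854504) (a (l 16845856) (l 16859728))) (a (l 16891216) (c (l 16877096) (l 16880384))))) (c (a (a (a (a (a (l 144350861520257327) (l 144412502901408047)) (l 144504724454818159)) (a (l 144627526180372847) (l 144749915588788591))) (a (b (l 16821944) (l 144759192750686575)) (l 16840480))) (a (a (l 16854472) (l 16881720)) (a (b (l 16873816) (l 16876696)) (b (l 16881080)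 (l 16883840))))) (a (a (a (b (l 144178513059627311) (c (l 144404531432669487) (l 144188889702875439))) (c (l 144488025638240559) (l 144586431919767855))) (a (a (c (l 144874778886324591) (l 144877390219346223)) (l 144923982049296751)) (a (l 145145121366491503) (b (l 16838776) (l 16842264))))) (a (a (b (l 16850744) (a (l 16850352) (l 16857760))) (b (l 16864408) (a (l 16864512) (l 16881136)))) (b (a (l 16875640) (l 16884664)) (c (a (l 16878088) (l 16907504)) (a (a (l 16876816) (l 16882040)) (a (l 16886712) (b (l 16890160) (l 16891680)))))))))))), by decide +kernel⟩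

def k49_pm_102_a : ∃ t, chk3 f_pm_102_a t 13 15 1 = true :=
  ⟨(a (b (a (b (l 16833472) (l 16852768)) (b (l 16843440) (l 16800656))) (b (a (b (l 16869968) (b (l 16879432) (c (l 16861656) (l 16888144)))) (b (l 16839472) (b (l 16891208) (a (l 16894664) (l 16900504))))) (b (c (a (l 16865520) (a (l 16895600) (l 16901424))) (a (a (l 16888424) (l 16896272)) (a (l 16903920) (b (l 16910256) (l 16912432))))) (a (c (a (b (l 16887248) (l 16889888)) (b (l 16893248) (l 16895760))) (a (b (l 16892504) (c (l 16893816) (b (l 16896232) (a (l 16895704) (l 16899712))))) (b (l 16900152) (c (l 16900904) (b (l 16904208) (a (l 16903656) (l 16907552))))))) (a (b (c (l 16899040) (l 16907576)) (c (l 16901424) (c (l 16918256) (a (b (l 16910048) (l 16911392)) (l 16919744))))) (a (b (l 16928840) (c (l 16905528) (c (l 16912760) (l 16928704)))) (a (b (l 16931176) (b (l 16932840) (c (l 16907440) (a (l 16928448) (l 16917928))))) (b (l 16932488) (b (l 16933048) (l 16932512)))))))))) (a (b (b (l 16851952) (l 16872888)) (b (a (b (l 16889168) (b (l 16899208)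 (l 16906072))) (b (l 16892416) (l 16902168))) (b (b (a (a (l 16910024) (l 16911272)) (a (l 16908728) (l 16905032))) (a (c (l 16905112) (a (l 16916928) (l 16915848))) (a (l 16907016) (l 16903672)))) (b (a (c (l 16894208) (a (c (l 16913816) (l 16919720)) (l 16914008))) (a (c (l 16900696) (b (l 16890368) (l 16889544))) (l 16902168))) (a (a (c (l 16904992) (l 16915272)) (a (l 16928872) (a (l 16927872) (l 16927168)))) (a (a (l 16928624) (l 16903360)) (l 16900720))))))) (a (b (b (l 16855760) (b (l 16871096) (l 16880512))) (b (l 16891288) (b (b (l 16898800) (l 16898056)) (c (l 16891576) (l 16879480))))) (b (b (b (l 16851808) (l 16859664)) (l 16869808)) (b (l 16882120) (b (l 16890272) (c (l 16883888) (l 16891880)))))))), by decide +kernel⟩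

def k50_pm_102_a : ∃ t, chk3 f_pm_102_a t 56 12 1 = true :=
  ⟨(b (a (b (a (b (a (b (c (l 139754131591) (l 87140779767)) (c (l 121500525015) (b (l 111836844615) (l 16739512)))) (b (l 3) (c (l 153175904711) (l 89825134487)))) (c (c (l 102710046359) (l 101099431959)) (b (a (l 16740864) (l 118279294311)) (l 16741864)))) (b (l 3) (a (b (c (l 153175905431) (l 92509489255)) (c (l 121500525159) (l 118816165335))) (b (l 3) (c (l 153175905719) (l 95193844087)))))) (c (a (l 16748200) (b (c (l 103246917527) (l 16742504)) (l 16746792))) (a (l 16746696) (b (b (a (l 16741216) (l 119353036359)) (l 16742304)) (l 16745328))))) (b (l 3) (a (b (a (b (c (l 153175906055) (l 97878198999)) (c (l 122574267479) (l 119889907527))) (b (l 3) (c (l 152102164631) (l 98951938535)))) (c (c (l 95193855063) (l 16743000)) (b (l 123111135431) (l 16742880)))) (b (l 3) (a (c (b (l 150491552359) (l 16741704)) (l 113447456823)) (b (l 3) (c (a (l 124184879287) (l 163376453847)) (l 109152490439)))))))) (b (a (a (l 16755496) (l 16752384)) (a (b (l 16746800)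 (l 16751128)) (b (c (c (b (l 16743192) (l 16745280)) (l 16743616)) (l 16742520)) (l 16747624)))) (a (b (l 16760160) (l 16763744)) (b (l 16753896) (a (l 16760064) (l 16756640)))))), by decide +kernel⟩

def k51_pm_102_a : ∃ t, chk3 f_pm_102_a t 57 12 1 = true :=
  ⟨(b (a (b (l 3) (l 3)) (l 3)) (a (b (a (a (b (c (b (a (l 122574267383) (b (l 185925031639) (l 133848555879))) (l 16742328)) (l 122037395831)) (l 16744952)) (c (b (b (l 183240675367) (b (a (l 132774814567) (l 178945710503)) (a (l 16741536) (l 131701073047)))) (b (l 16742720) (l 16744888))) (b (l 144049098039) (l 16742472)))) (b (a (a (b (l 3) (c (l 177871967959) (l 175724481399))) (l 3)) (l 3)) (b (a (c (b (a (c (b (l 146733458487) (l 115058076583)) (l 130627331927)) (l 171429518599)) (a (l 16741960) (c (l 128479848455) (l 127942976199)))) (l 137069783047)) (c (b (l 3) (l 171429518183)) (l 171966385127))) (a (c (l 16743144) (l 16741824)) (c (b (a (c (l 126869236199) (l 126332363959)) (l 164450197751)) (a (l 16742416) (c (l 125258623959) (l 16741304)))) (l 132774814871))))))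 (a (b (l 16748488) (l 16752816)) (b (c (b (a (l 16745288) (l 16743608)) (l 16746568)) (l 16744264)) (l 16749184)))) (b (a (b (l 3) (a (b (l 3) (c (b (l 3) (a (l 161765843735) (l 3))) (l 167134548135))) (l 3))) (l 3)) (b (a (b (a (c (b (a (c (l 121500528023) (l 16741584)) (l 160155234215)) (a (l 16742944) (l 118279303511))) (l 130627332775)) (a (b (l 3) (b (l 177335101319) (l 147270332071))) (l 3))) (c (a (l 16744136) (b (a (l 113984336839) (c (l 151565298743) (l 150491555911))) (a (l 16743520) (l 111299982839)))) (a (l 16742928) (l 125795496279)))) (b (l 3) (a (a (a (b (l 3) (a (l 135459173463) (l 149954687687))) (l 168208294551)) (l 3)) (l 3)))) (a (c (b (l 16745464) (l 16747536)) (l 16745360)) (b (a (a (b (l 108615629319) (l 16743656)) (b (b (l 165523943767) (l 134922303287)) (l 104857533671))) (a (b (l 3) (a (l 137606658279) (l 162839590375))) (l 3))) (a (l 16744864) (b (a (l 16743376) (a (l 135459175431) (l 161228978471))) (l 96804472023))))))))), by decide +kernel⟩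

def k52_pm_102_a : ∃ t, chk3 f_pm_102_a t 28 13 1 = true :=
  ⟨(b (a (a (l 16742640) (b (b (l 16741392) (l 16765472)) (l 16765624))) (b (a (a (b (l 16756880) (l 16760848)) (b (l 16753328) (l 16757152))) (a (b (l 16750072) (l 16754008)) (b (a (l 16747912) (b (l 16745600) (l 16747584))) (l 16751128)))) (a (l 16743648) (b (a (l 16757624) (l 16754792)) (l 16739024))))) (a (b (l 16770200) (l 16779080)) (b (a (l 16765240) (l 16765664)) (l 16750760)))), by decide +kernel⟩

def k53_pm_102_a : ∃ t, chk3 f_pm_102_a t 29 12 1 = true :=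
  ⟨(a (b (l 3) (b (l 3) (a (b (l 3) (a (b (l 3) (a (b (l 3) (c (a (l 144585981255) (l 3)) (l 152639041159))) (l 3))) (l 3))) (l 3)))) (l 3)), by decide +kernel⟩

def k54_pm_102_a : ∃ t, chk3 f_pm_102_a t 58 13 1 = true :=
  ⟨(b (b (a (b (a (b (a (c (b (a (l 16744600) (l 142975369335)) (l 16745296)) (l 112910599703)) (a (b (l 3) (l 140827886263)) (l 177335103847))) (a (l 16746360) (a (l 16745496) (b (l 127942985223) (l 16745424))))) (a (b (l 3) (a (b (l 175724493255) (l 126332373191)) (l 175724492871))) (l 3))) (a (b (l 16747688) (l 16749552)) (a (b (a (l 16746304) (b (l 123111148567) (l 16746248))) (l 16747880)) (a (b (b (l 175724496327) (l 120426794695)) (l 16747112)) (b (l 173577010967) (l 89288280487)))))) (b (l 3) (a (b (l 3) (a (b (l 171429528631) (l 123648018839)) (l 3))) (l 3)))) (a (a (b (l 16752256) (l 16755568)) (b (l 16750024) (l 16753408))) (b (a (a (b (l 82308959527) (l 16749392)) (b (b (l 177871981303) (c (l 120963662055) (l 122037399415))) (l 87140795831))) (b (l 3) (a (c (b (l 170892661495) (l 125795500455))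 (l 147270339287)) (l 3)))) (a (l 16751424) (a (b (c (l 98951954599) (l 16749016)) (l 16750896)) (a (b (b (l 134922305063) (l 16745104)) (l 16750272)) (b (l 168208308727) (l 102173179239)))))))) (b (a (a (l 16740576) (b (l 16756456) (l 16760328))) (a (b (l 16754600) (l 16757544)) (b (l 16752832) (l 16755864)))) (a (l 16747520) (b (a (l 16761728) (l 16758832)) (l 16765000))))), by decide +kernel⟩

def k55_pm_102_a : ∃ t, chk3 f_pm_102_a t 59 13 1 = true :=
  ⟨(b (b (l 3) (a (a (b (l 3) (a (b (l 3) (a (b (l 132237949671) (l 16744544)) (l 164987084135))) (l 3))) (l 3)) (l 3))) (b (a (b (a (a (b (c (l 99488825143) (l 16750648)) (l 16752384)) (b (a (b (l 130627337223) (l 16744936)) (l 162839601207)) (l 97341340631))) (a (b (l 3) (a (b (l 130090466695) (l 16745360)) (l 161765860183))) (l 3))) (a (l 16754272) (a (b (l 91435761255) (l 16753888)) (b (c (a (b (l 130627339911) (l 16750792)) (l 159081511239)) (l 125258628567)) (c (l 93583246135) (l 16753032)))))) (b (l 3) (a (a (b (l 3) (c (a (b (l 165523961431) (l 16746048))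 (l 159618383111)) (l 126869241655))) (l 3)) (l 3)))) (a (b (a (l 16757208) (l 16755736)) (a (l 16739336) (l 16758640))) (a (b (a (b (c (l 95730730679) (l 16753536)) (l 16755376)) (b (c (a (b (l 167134575511) (l 16751832)) (l 160155255079)) (l 128479855175)) (c (l 98415086215) (l 16754056)))) (l 16757208)) (b (a (b (l 3) (c (a (b (l 168208318775) (l 16752408)) (l 161228998023)) (l 164450220119))) (l 3)) (a (b (c (l 101099441975) (l 16754616)) (l 16756816)) (b (c (b (l 161765869847) (a (l 16753024) (l 170355804247))) (l 166060833991)) (b (l 103246927415) (l 16755824))))))))), by decide +kernel⟩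

def k56_pm_102_a : ∃ t, chk3 f_pm_102_a t 15 6 1 = true :=
  ⟨(a (b (l 3) (a (b (l 3) (b (l 3) (a (a (b (l 3) (b (l 3) (a (c (b (a (l 170892675815) (l 3)) (a (l 16753680) (l 171429547399))) (l 167134577063)) (l 3)))) (l 3)) (l 3)))) (l 3))) (l 3)), by decide +kernel⟩

def k57_pm_102_a : ∃ t, chk3 f_pm_102_a t 14 14 1 = true :=
  ⟨(a (b (a (b (l 16791984) (l 16803704)) (b (a (l 16787416) (l 16782776)) (a (l 16800656) (l 16795488)))) (a (b (l 16818552) (l 16832488)) (a (l 16836648) (l 16806592)))) (b (a (b (a (l 16754208) (l 16768560)) (a (l 16785672) (l 16777128))) (b (a (b (a (l 16764656) (l 16741024)) (l 16767744)) (b (a (l 16760104) (l 16758672)) (a (l 16742880) (l 16761688)))) (a (l 16770448) (b (a (l 16768112) (l 16744840)) (l 16770664))))) (a (b (a (l 16794576) (l 16787024)) (l 16777344)) (a (b (l 16758240) (l 16767776)) (b (l 16753552) (b (l 16759232) (l 16784632))))))), by decide +kernel⟩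

def k58_pm_102_a : ∃ t, chk3 f_pm_102_a t 60 14 1 = true :=
  ⟨(b (b (a (b (a (c (b (a (a (l 16756120) (l 16748288)) (b (a (l 171966418679) (l 3)) (a (l 16754376) (l 164450223351)))) (a (l 16758336) (a (l 16756816) (l 16748992)))) (b (a (l 16755856) (l 167134578407)) (l 16747184))) (b (l 3) (a (c (b (a (l 163913353175) (l 3)) (a (l 16755096) (l 163913353911))) (l 166060838007)) (l 3)))) (a (l 16760160) (a (a (l 16759032) (b (l 117742447831) (l 16759368))) (c (b (b (a (l 165523967399) (l 3)) (a (l 16755840) (l 166597709991))) (l 123111159047)) (b (l 165523968567) (l 16757928)))))) (b (l 3) (a (b (l 3) (a (c (b (a (l 168208323511) (l 3)) (a (l 16756600) (l 169818937031))) (l 166597711911)) (l 3))) (l 3)))) (a (a (b (l 16763464) (l 16747000)) (b (l 16761712) (l 16765592))) (b (a (b (a (l 126332386583) (b (c (l 169818939687) (l 161228992455)) (a (l 16757488) (l 137606676583)))) (a (l 16761032) (l 16753992))) (b (l 3) (a (b (l 173577035303) (l 134385452503)) (l 3)))) (a (l 16763520) (a (b (l 16759928) (l 16762520)) (b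 (c (l 159081523415) (l 142438520679)) (l 16760352))))))) (b (a (b (a (l 16772136) (l 16770464)) (l 16773320)) (b (a (l 16768224) (b (l 16763856) (l 16766216))) (a (l 16772856) (b (l 16768880) (l 16771584))))) (a (b (l 16776488) (l 16757904)) (b (l 16774456) (l 16775600))))), by decide +kernel⟩

def k59_pm_102_a : ∃ t, chk3 f_pm_102_a t 61 28 1 = true :=
  ⟨(b (l 3) (a (a (b (l 3) (a (b (l 3) (a (l 103783813495) (l 154786556519))) (l 3))) (l 3)) (l 3))), by decide +kernel⟩

def k60_pm_102_a : ∃ t, chk3 f_pm_102_a t 122 29 1 = true :=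
  ⟨(b (a (b (a (b (a (l 16761256) (a (l 16755288) (l 102710074343))) (l 16763272)) (b (c (c (b (l 151028455479) (l 152102207399)) (l 152639074743)) (l 153712816839)) (c (l 108078785863) (l 16756216)))) (b (l 16764960) (l 16767768))) (b (a (b (l 3) (c (a (b (l 151028462679) (l 16760528)) (b (l 3) (l 150491594999))) (l 153175947095))) (l 3)) (a (b (c (a (l 16762496) (l 112373754791)) (l 16756872)) (l 16764768)) (b (c (a (b (c (l 151028463863) (l 149954722119)) (l 117205594359)) (b (l 3) (a (l 140827917575) (l 147807238615)))) (c (l 152102206391) (l 152639077479))) (c (a (l 16763200) (b (c (l 120963691607) (l 16761504)) (l 16762864))) (l 16758864)))))) (a (b (b (l 16770256) (l 16772200)) (l 16774128)) (b (b (l 16766584) (l 16768976)) (b (l 16771040) (l 16772720))))), by decide +kernel⟩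

def k61_pm_102_a : ∃ t, chk3 f_pm_102_a t 123 58 1 = true :=
  ⟨(a (b (l 3) (a (b (l 3) (c (a (b (c (a (l 143512272727) (l 147807239223)) (l 149417852471)) (b (l 136532950439) (l 16762160))) (b (l 3) (a (b (l 147807240087) (l 148880983351)) (l 146196628471)))) (a (b (l 147807239911) (l 16761912)) (l 147807239543)))) (l 3))) (l 3)), by decide +kernel⟩

def k62_pm_102_a : ∃ t, chk3 f_pm_102_a t 123 59 1 = true :=
  ⟨(a (b (a (b (c (a (l 16758680) (a (l 16757880) (b (b (l 149954725543) (l 16762224)) (l 16763296)))) (l 111836886407)) (l 16766360)) (b (c (b (a (c (a (b (l 147270369783) (l 150491596551)) (l 146196627783)) (l 148344113255)) (l 3)) (b (a (a (l 16762392) (l 152102209959)) (c (l 145122886455) (l 144586015623))) (a (l 16762840) (a (l 153175952199) (l 145659758071))))) (a (b (l 146733499367) (l 16759960)) (l 146733499015))) (a (l 16764720) (b (c (c (a (l 16763088) (b (l 153175952279) (l 16762896))) (l 118279339159)) (l 115594984743)) (l 16759096))))) (a (l 16769568) (l 16762952))) (b (a (b (l 3) (b (c (a (a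 (b (l 145122887511) (a (l 16762488) (l 151565339719))) (b (l 3) (l 144586016935))) (l 3)) (l 146196629111)) (c (b (a (c (a (l 16763072) (l 154249694871)) (l 123648049559)) (a (l 144049146359) (l 3))) (a (l 16763544) (a (a (l 154249695063) (l 152102211479)) (l 143512275799)))) (a (l 115594985271) (c (l 145122888583) (l 144586017783)))))) (l 3)) (b (a (a (l 16765480) (b (a (l 16761224) (b (a (l 156934050711) (a (l 154249695959) (l 150491599335))) (l 16763640))) (l 16765088))) (a (a (b (c (b (l 142975405239) (a (l 154249695863) (l 148880986199))) (l 143512276935)) (l 16761584)) (b (c (b (l 3) (l 142975405591)) (l 140291050695)) (b (c (a (l 154249696263) (l 148344115639)) (l 121500567575)) (l 16763992)))) (b (l 3) (a (c (b (l 142438535031) (a (l 153712825783) (l 148344115991))) (l 145122890359)) (c (b (l 3) (l 142438535383)) (l 139754180471)))))) (a (l 16767824) (b (a (l 16765472) (a (l 16761944) (b (c (a (l 153712826215) (l 147807245431)) (l 121500568359)) (l 16764344)))) (l 16766456)))))), by decide +kernel⟩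

def k63_pm_102_a : ∃ t, chk3 f_pm_102_a t 31 14 1 = true :=
  ⟨(b (l 3) (a (a (b (l 3) (a (b (l 3) (a (b (l 3) (a (a (b (c (b (l 142438535735) (a (l 153712826647) (l 147807245783))) (l 144586020151)) (l 16762304)) (b (c (l 141901664663) (l 138680439351)) (b (b (a (l 153175956231) (l 140827924007)) (l 157470924423)) (l 16764704)))) (b (l 3) (a (b (l 139754181943) (a (l 156934053767) (a (l 153712827655) (l 143512279127)))) (c (l 141364794471) (l 138143569159)))))) (l 3))) (l 3))) (l 3)) (l 3))), by decide +kernel⟩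

def k64_pm_102_a : ∃ t, chk3 f_pm_102_a t 14 15 1 = true :=
  ⟨(a (b (b (a (b (a (l 16847120) (l 16836672)) (l 16847136)) (b (l 16800968) (l 16826464))) (a (l 16855032) (a (l 16818728) (l 16809824)))) (b (a (l 16846280) (c (l 16802808) (l 16808352))) (a (a (b (l 16880904) (c (l 16875664) (l 16882752))) (b (l 16855304) (l 16828008))) (b (a (b (l 16860360) (l 16862840)) (l 16809912)) (a (l 16818920) (l 16852504)))))) (b (a (b (l 16786248) (b (l 16772880) (l 16779424))) (b (l 16793744) (b (l 16780488) (a (l 16810640) (l 16803784))))) (a (a (b (l 16813256) (b (l 16822688) (l 16845120))) (b (l 16805696) (b (l 16815344) (l 16801960)))) (b (a (l 16798800) (b (l 16810488) (l 16816480))) (b (a (l 16829712) (l 16823120)) (a (b (l 16812368) (l 16831744)) (b (l 16795848) (l 16826080)))))))), by decide +kernel⟩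

def k65_pm_102_a : ∃ t, chk3 f_pm_102_a t 15 15 1 = true :=
  ⟨(a (b (a (a (b (b (l 16762120) (l 16787056)) (l 16774144)) (b (b (a (l 16778616) (l 16776752)) (a (l 16782648) (l 16780208))) (l 16768112))) (a (b (b (l 16774224) (a (l 16756344) (l 16775664))) (b (a (l 16782192) (b (l 16777920) (l 16780520))) (l 16785864))) (b (b (a (b (l 16771800) (l 16773192)) (b (a (l 16769552) (l 16768320)) (a (l 16771456) (l 16769936)))) (a (l 16773896) (b (l 16772520) (l 16773360)))) (b (a (b (l 16776048) (l 16756656)) (l 16775000)) (a (l 16760824) (l 6)))))) (a (b (a (b (l 16772560) (l 16810128)) (b (b (l 16796208) (l 16799056)) (a (l 16805424) (l 16802576)))) (b (a (l 16816680) (l 16789328)) (a (b (l 16794912) (l 16820536)) (l 6)))) (b (a (b (l 16791584) (l 6)) (l 6)) (l 6)))) (b (a (a (b (b (a (a (b (b (a (l 16766232) (a (l 16762672) (b (a (l 156934054199) (a (l 153175957095) (l 142975408567))) (l 16765064)))) (l 16767248)) (l 16768816)) (b (a (a (b (b (l 139754182679) (a (l 156934054647) (l 144586023095))) (c (l 16763008) (l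 16760456))) (b (c (l 141364795207) (l 137606698983)) (b (b (l 142975409319) (l 156934055255)) (l 16762808)))) (a (b (l 3) (b (l 3) (a (a (l 161229022455) (l 158544667783)) (l 144049151607)))) (l 3))) (b (a (l 16767008) (a (c (l 16763384) (l 16766072)) (c (b (l 148344120823) (l 16765776)) (l 113984377767)))) (l 16762816)))) (a (b (l 3) (b (b (l 3) (a (a (c (l 148344121191) (l 125258667831)) (l 3)) (l 3))) (l 6))) (l 3))) (a (a (b (l 16770360) (l 16761816)) (b (l 16769304) (l 6))) (l 6))) (l 6)) (l 6)) (l 6)) (l 6))), by decide +kernel⟩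

theorem s66_pm_102_a : ∃ t, chk3 f_pm_102_a t 7 15 1 = true := ex3_a k64_pm_102_a k65_pm_102_a

theorem s67_pm_102_a : ∃ t, chk3 f_pm_102_a t 123 29 1 = true := ex3_b k61_pm_102_a k62_pm_102_a

theorem s68_pm_102_a : ∃ t, chk3 f_pm_102_a t 61 29 1 = true := ex3_a k60_pm_102_a s67_pm_102_a

theorem s69_pm_102_a : ∃ t, chk3 f_pm_102_a t 61 14 1 = true := ex3_b k59_pm_102_a s68_pm_102_a

theorem s70_pm_102_a : ∃ t, chk3 f_pm_102_a t 30 14 1 = true := ex3_a k58_pm_102_a s69_pm_102_a

theorem s71_pm_102_a : ∃ t, chk3 f_pm_102_a t 15 14 1 = true := ex3_a s70_pm_102_a k63_pm_102_a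

theorem s72_pm_102_a : ∃ t, chk3 f_pm_102_a t 7 14 1 = true := ex3_a k57_pm_102_a s71_pm_102_a

theorem s73_pm_102_a : ∃ t, chk3 f_pm_102_a t 7 7 1 = true := ex3_b s72_pm_102_a s66_pm_102_a

theorem s74_pm_102_a : ∃ t, chk3 f_pm_102_a t 29 13 1 = true := ex3_a k54_pm_102_a k55_pm_102_a

theorem s75_pm_102_a : ∃ t, chk3 f_pm_102_a t 29 6 1 = true := ex3_b k53_pm_102_a s74_pm_102_a

theorem s76_pm_102_a : ∃ t, chk3 f_pm_102_a t 28 12 1 = true := ex3_a k50_pm_102_a k51_pm_102_a

theorem s77_pm_102_a : ∃ t, chk3 f_pm_102_a t 28 6 1 = true := ex3_b s76_pm_102_a k52_pm_102_a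

theorem s78_pm_102_a : ∃ t, chk3 f_pm_102_a t 14 6 1 = true := ex3_a s77_pm_102_a s75_pm_102_a

theorem s79_pm_102_a : ∃ t, chk3 f_pm_102_a t 7 6 1 = true := ex3_a s78_pm_102_a k56_pm_102_a

theorem s80_pm_102_a : ∃ t, chk3 f_pm_102_a t 7 3 1 = true := ex3_b s79_pm_102_a s73_pm_102_a

theorem s81_pm_102_a : ∃ t, chk3 f_pm_102_a t 6 15 1 = true := ex3_a k48_pm_102_a k49_pm_102_a

theorem s82_pm_102_a : ∃ t, chk3 f_pm_102_a t 6 7 1 = true := ex3_b k47_pm_102_a s81_pm_102_a

theorem s83_pm_102_a : ∃ t, chk3 f_pm_102_a t 6 3 1 = true := ex3_b k46_pm_102_a s82_pm_102_a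

theorem s84_pm_102_a : ∃ t, chk3 f_pm_102_a t 3 3 1 = true := ex3_a s83_pm_102_a s80_pm_102_a

theorem s85_pm_102_a : ∃ t, chk3 f_pm_102_a t 13 5 1 = true := ex3_a k43_pm_102_a k44_pm_102_a

theorem s86_pm_102_a : ∃ t, chk3 f_pm_102_a t 13 2 1 = true := ex3_b k42_pm_102_a s85_pm_102_a

theorem s87_pm_102_a : ∃ t, chk3 f_pm_102_a t 24 4 1 = true := ex3_b k38_pm_102_a k39_pm_102_a

theorem s88_pm_102_a : ∃ t, chk3 f_pm_102_a t 12 4 1 = true := ex3_a s87_pm_102_a k40_pm_102_a

theorem s89_pm_102_a : ∃ t, chk3 f_pm_102_a t 12 2 1 = true := ex3_b s88_pm_102_a k41_pm_102_a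

theorem s90_pm_102_a : ∃ t, chk3 f_pm_102_a t 6 2 1 = true := ex3_a s89_pm_102_a s86_pm_102_a

theorem s91_pm_102_a : ∃ t, chk3 f_pm_102_a t 3 2 1 = true := ex3_a s90_pm_102_a k45_pm_102_a

theorem s92_pm_102_a : ∃ t, chk3 f_pm_102_a t 3 1 1 = true := ex3_b s91_pm_102_a s84_pm_102_a

theorem s93_pm_102_a : ∃ t, chk3 f_pm_102_a t 23 63 1 = true := ex3_b k36_pm_102_a k37_pm_102_a

theorem s94_pm_102_a : ∃ t, chk3 f_pm_102_a t 23 31 1 = true := ex3_b k35_pm_102_a s93_pm_102_a

theorem s95_pm_102_a : ∃ t, chk3 f_pm_102_a t 23 15 1 = true := ex3_b k34_pm_102_a s94_pm_102_a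

theorem s96_pm_102_a : ∃ t, chk3 f_pm_102_a t 45 127 1 = true := ex3_a k32_pm_102_a k33_pm_102_a

theorem s97_pm_102_a : ∃ t, chk3 f_pm_102_a t 45 63 1 = true := ex3_b k31_pm_102_a s96_pm_102_a

theorem s98_pm_102_a : ∃ t, chk3 f_pm_102_a t 44 127 2 = true := ex3_a k28_pm_102_a k29_pm_102_a

theorem s99_pm_102_a : ∃ t, chk3 f_pm_102_a t 44 127 1 = true := ex3_c s98_pm_102_a k30_pm_102_a

theorem s100_pm_102_a : ∃ t, chk3 f_pm_102_a t 44 63 1 = true := ex3_b k27_pm_102_a s99_pm_102_a

theorem s101_pm_102_a : ∃ t, chk3 f_pm_102_a t 22 63 1 = true := ex3_a s100_pm_102_a s97_pm_102_a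

theorem s102_pm_102_a : ∃ t, chk3 f_pm_102_a t 22 31 1 = true := ex3_b k26_pm_102_a s101_pm_102_a

theorem s103_pm_102_a : ∃ t, chk3 f_pm_102_a t 22 15 1 = true := ex3_b k25_pm_102_a s102_pm_102_a

theorem s104_pm_102_a : ∃ t, chk3 f_pm_102_a t 11 15 1 = true := ex3_a s103_pm_102_a s95_pm_102_a

theorem s105_pm_102_a : ∃ t, chk3 f_pm_102_a t 21 63 2 = true := ex3_a k22_pm_102_a k23_pm_102_a

theorem s106_pm_102_a : ∃ t, chk3 f_pm_102_a t 21 63 1 = true := ex3_c s105_pm_102_a k24_pm_102_a

theorem s107_pm_102_a : ∃ t, chk3 f_pm_102_a t 21 31 1 = true := ex3_b k21_pm_102_a s106_pm_102_a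

theorem s108_pm_102_a : ∃ t, chk3 f_pm_102_a t 41 127 1 = true := ex3_c k19_pm_102_a k20_pm_102_a

theorem s109_pm_102_a : ∃ t, chk3 f_pm_102_a t 41 63 1 = true := ex3_b k18_pm_102_a s108_pm_102_a

theorem s110_pm_102_a : ∃ t, chk3 f_pm_102_a t 41 31 1 = true := ex3_b k17_pm_102_a s109_pm_102_a

theorem s111_pm_102_a : ∃ t, chk3 f_pm_102_a t 40 31 1 = true := ex3_a k15_pm_102_a k16_pm_102_a

theorem s112_pm_102_a : ∃ t, chk3 f_pm_102_a t 20 31 1 = true := ex3_a s111_pm_102_a s110_pm_102_a

theorem s113_pm_102_a : ∃ t, chk3 f_pm_102_a t 10 31 1 = true := ex3_a s112_pm_102_a s107_pm_102_a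

theorem s114_pm_102_a : ∃ t, chk3 f_pm_102_a t 10 15 1 = true := ex3_b k14_pm_102_a s113_pm_102_a

theorem s115_pm_102_a : ∃ t, chk3 f_pm_102_a t 5 15 1 = true := ex3_a s114_pm_102_a s104_pm_102_a

theorem s116_pm_102_a : ∃ t, chk3 f_pm_102_a t 5 7 1 = true := ex3_b k13_pm_102_a s115_pm_102_a

theorem s117_pm_102_a : ∃ t, chk3 f_pm_102_a t 5 3 1 = true := ex3_b k12_pm_102_a s116_pm_102_a

theorem s118_pm_102_a : ∃ t, chk3 f_pm_102_a t 9 15 1 = true := ex3_b k10_pm_102_a k11_pm_102_a

theorem s119_pm_102_a : ∃ t, chk3 f_pm_102_a t 4 15 1 = true := ex3_a k9_pm_102_a s118_pm_102_a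

theorem s120_pm_102_a : ∃ t, chk3 f_pm_102_a t 4 7 1 = true := ex3_b k8_pm_102_a s119_pm_102_a

theorem s121_pm_102_a : ∃ t, chk3 f_pm_102_a t 4 3 1 = true := ex3_b k7_pm_102_a s120_pm_102_a

theorem s122_pm_102_a : ∃ t, chk3 f_pm_102_a t 2 3 1 = true := ex3_a s121_pm_102_a s117_pm_102_a

theorem s123_pm_102_a : ∃ t, chk3 f_pm_102_a t 23 8 1 = true := ex3_a k3_pm_102_a k4_pm_102_a

theorem s124_pm_102_a : ∃ t, chk3 f_pm_102_a t 23 4 1 = true := ex3_b s123_pm_102_a k5_pm_102_a

theorem s125_pm_102_a : ∃ t, chk3 f_pm_102_a t 11 4 1 = true := ex3_a k2_pm_102_a s124_pm_102_a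

theorem s126_pm_102_a : ∃ t, chk3 f_pm_102_a t 5 4 1 = true := ex3_a k1_pm_102_a s125_pm_102_a

theorem s127_pm_102_a : ∃ t, chk3 f_pm_102_a t 5 2 1 = true := ex3_b s126_pm_102_a k6_pm_102_a

theorem s128_pm_102_a : ∃ t, chk3 f_pm_102_a t 2 2 1 = true := ex3_a k0_pm_102_a s127_pm_102_a

theorem s129_pm_102_a : ∃ t, chk3 f_pm_102_a t 2 1 1 = true := ex3_b s128_pm_102_a s122_pm_102_a

theorem s130_pm_102_a : ∃ t, chk3 f_pm_102_a t 1 1 1 = true := ex3_a s129_pm_102_a s92_pm_102_a

theorem c_pm_102_a : CertB 536870912 536870912 0 536870912 697932185 42949674 3 eng mog cd0q1 cd2q2a pd0 false true false .npp 1 0 2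
    ndB0q1 ndB2q2a pcB0 cut_pm_102_a xt_pm_102_a :=
  certB0 (fam := false) (s1 := true) (s2 := false) (a := 1) (b := 0) (c := 2) (cn := .npp) (n1 := ndB0q1) (n2 := ndB2q2a) (pc := pcB0) (cut := cut_pm_102_a) (xt := xt_pm_102_a) (P1 := 536870912) (W1 := 536870912) (P2 := 0) (W2 := 536870912) (P3 := 697932185) (W3 := 42949674) (N0 := 3) (En := eng) (mo := mog) (C1 := cd0q1) (C2 := cd2q2a) (C3 := pd0)
    rfl s130_pm_102_a

noncomputable def cut_pm_102_b : Cut := Cut.of [[⟨0, 1, 0, 67108864⟩, ⟨1, 0, 0, 67108864⟩, ⟨2, 1, 0, 67108864⟩], [⟨0, 0, 1, 20971520⟩, ⟨1, 1, 2, 20971520⟩, ⟨2, 1, 0, 33554432⟩]]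

noncomputable def f_pm_102_b : ℕ → ℕ → ℕ → ℕ → Bool := onCell 0 536870912 1239849684 370763052 697932185 42949674
    (rowB 3 eng mog cd0q1 cd2q2b pd0 2 false true false .npp 1 0 2 (qsf 536870912 536870912 1239849684 370763052 0) ndB0q1 ndB2q2b pcB0 cut_pm_102_b Ext.none)

def k0_pm_102_b : ∃ t, chk3 f_pm_102_b t 1 1 1 = true :=
  ⟨(a (l 3) (b (a (l 3) (b (a (a (l 3) (b (a (l 3) (b (a (l 3) (b (b (b (a (a (l 3) (c (b (a (c (a (l 3) (l 54928575815)) (l 16761424)) (l 16763728)) (l 57612926791)) (a (l 56002321735) (l 16761168)))) (a (c (c (l 16762832) (l 16761912)) (l 16760592)) (l 16762256))) (a (l 3) (a (c (l 54928570423) (l 16757480)) (l 16759264)))) (a (l 3) (a (l 3) (c (l 58686659879) (l 16753696))))) (l 3))) (l 3))) (l 3))) (b (a (a (b (b (a (c (a (b (l 16762568) (l 16759472)) (l 16760640)) (a (b (l 16760792) (l 16754936)) (l 16758744))) (b (l 16761920) (l 16757664))) (a (b (a (l 62444748887) (l 16751360)) (l 81235223239)) (a (l 16754888) (l 16750440)))) (a (l 3) (b (a (l 69424050375) (l 16749912)) (l 3)))) (b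 (a (b (l 16758512) (l 16750840)) (b (l 16755744) (l 16750296))) (a (b (l 16741080) (l 86067043815)) (b (l 16742024) (l 16732344))))) (a (b (b (a (l 16752048) (b (l 16747008) (l 16747768))) (l 16747584)) (a (l 16737808) (l 16737512))) (b (b (b (l 16738448) (l 16741320)) (a (l 16743400) (l 16740184))) (a (l 16736904) (l 16735296))))) (a (a (l 3) (b (a (l 3) (b (l 16731960) (l 3))) (l 3))) (a (b (a (b (l 16723816) (l 16713272)) (l 16720488)) (a (l 3) (l 108078704183))) (b (l 16722008) (a (l 16702784) (l 16705200))))))) (a (l 3) (b (a (l 3) (b (a (l 3) (a (l 116668601735) (l 96804408855))) (l 3))) (l 3))))) (a (l 3) (b (l 3) (l 3))))), by decide +kernel⟩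

theorem c_pm_102_b : CertB 536870912 536870912 1239849684 370763052 697932185 42949674 3 eng mog cd0q1 cd2q2b pd0 false true false .npp 1 0 2
    ndB0q1 ndB2q2b pcB0 cut_pm_102_b Ext.none :=
  certB2 (fam := false) (s1 := true) (s2 := false) (a := 1) (b := 0) (c := 2) (cn := .npp) (n1 := ndB0q1) (n2 := ndB2q2b) (pc := pcB0) (cut := cut_pm_102_b) (xt := Ext.none) (P1 := 536870912) (W1 := 536870912) (P2 := 1239849684) (W2 := 370763052) (P3 := 697932185) (W3 := 42949674) (N0 := 3) (En := eng) (mo := mog) (C1 := cd0q1) (C2 := cd2q2b) (C3 := pd0)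
    rfl (fun _ => rfl) k0_pm_102_b

noncomputable def f_pm_112_a : ℕ → ℕ → ℕ → ℕ → Bool := onCell 536870912 536870912 0 536870912 697932185 42949674
    (rowB 3 eng mog cd0q1 cd2q2a pd1 0 false true false .dn 1 1 2 (qsf 536870912 536870912 0 536870912 1) ndB0q1 ndB2q2a pcB1 Cut.none Ext.none)

def k0_pm_112_a : ∃ t, chk3 f_pm_112_a t 1 1 1 = true :=
  ⟨(a (b (a (b (a (b (a (b (l 16614272) (l 16598864)) (b (a (l 16631296) (l 16642640)) (l 16620856))) (a (l 16575496) (l 16595736))) (b (a (b (a (l 16652680) (l 16663616)) (a (l 16636760) (l 16647160))) (b (l 16721352) (a (l 16656688) (l 16667304)))) (a (l 16614920) (b (a (l 16638960) (l 16648536)) (l 16623432))))) (a (b (a (l 16542176) (l 16558312)) (a (l 16567072) (l 16513632))) (b (a (l 16573400) (l 16588320)) (a (l 16522480) (l 16531224))))) (a (b (a (b (b (a (l 16695224) (l 16726616)) (a (l 16677568) (l 16687824))) (b (a (l 16657784) (l 16668240)) (a (l 16637552) (l 16646800)))) (b (l 1) (l 1))) (a (b (l 16646448) (l 16563512)) (l 1))) (l 1))) (a (b (a (b (a (l 16458824)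 (l 16458784)) (a (l 16398288) (l 16384808))) (b (a (l 16436552) (l 16436832)) (a (l 16370504) (l 16364176)))) (b (a (a (l 16397328) (l 19360151335)) (a (l 215317923831) (l 1))) (a (b (a (b (l 16323472) (l 16315592)) (l 212633634039)) (a (a (b (l 16311536) (l 29560533079)) (l 227665907031)) (l 1))) (l 1)))) (b (l 1) (l 1)))) (l 1)), by decide +kernel⟩

theorem c_pm_112_a : CertB 536870912 536870912 0 536870912 697932185 42949674 3 eng mog cd0q1 cd2q2a pd1 false true false .dn 1 1 2
    ndB0q1 ndB2q2a pcB1 Cut.none Ext.none :=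
  certB0 (fam := false) (s1 := true) (s2 := false) (a := 1) (b := 1) (c := 2) (cn := .dn) (n1 := ndB0q1) (n2 := ndB2q2a) (pc := pcB1) (cut := Cut.none) (xt := Ext.none) (P1 := 536870912) (W1 := 536870912) (P2 := 0) (W2 := 536870912) (P3 := 697932185) (W3 := 42949674) (N0 := 3) (En := eng) (mo := mog) (C1 := cd0q1) (C2 := cd2q2a) (C3 := pd1)
    rfl k0_pm_112_a

noncomputable def f_pm_112_b : ℕ → ℕ → ℕ → ℕ → Bool := onCell 536870912 536870912 536870912 536870912 697932185 42949674
    (rowB 3 eng mog cd0q1 cd2q2b pd1 1 false true false .dn 1 1 2 (qsf 536870912 536870912 1239849684 370763052 1) ndB0q1 ndB2q2b pcB1 Cut.none Ext.none)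

def k0_pm_112_b : ∃ t, chk3 f_pm_112_b t 1 2 1 = true :=
  ⟨(a (a (b (a (b (l 1) (a (b (l 1) (a (l 1) (l 200823004391))) (a (b (l 1) (l 236793381735)) (b (l 227666582823) (l 208339246343))))) (b (b (a (l 1) (b (l 1) (a (l 1) (l 223371684631)))) (a (b (l 1) (l 238404003143)) (a (l 214244861575) (l 186864460967)))) (a (b (b (l 207265509799) (l 193306872119)) (l 16648760)) (b (l 16675192) (l 16654120))))) (a (b (a (b (l 223371612647) (l 16591448)) (b (l 16621160) (l 16590424))) (a (l 16536800) (l 16537136))) (b (a (l 16650768) (l 16614584)) (a (l 16543408) (l 16552672))))) (b (b (a (a (b (a (b (l 221224241191) (l 185253863223)) (b (l 167537153895) (l 16711136))) (a (l 16697376) (l 16700720))) (b (a (b (l 16720184) (l 16713720)) (l 16737680)) (l 16700688))) (a (b (a (l 16753856) (l 16705632)) (l 16755376)) (b (b (l 16696224) (l 16687880)) (l 16677264)))) (a (a (l 16691568) (l 16671816)) (a (b (l 16676504) (l 16660232)) (b (l 16665024) (l 16655640))))) (b (a (l 16731048) (a (l 16638144) (b (l 16648464) (l 16642392))))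 (a (a (l 16568000) (l 16587816)) (a (l 16611512) (l 16638160)))))) (a (b (a (b (a (b (a (b (l 16677888) (l 16671320)) (l 201494222743)) (a (l 16663160) (l 16651512))) (l 3)) (a (b (l 16651008) (l 16647664)) (b (l 170355669639) (l 123111014375)))) (l 3)) (a (b (a (b (l 16647832) (l 16652152)) (b (l 16634696) (l 16650536))) (a (b (l 16660760) (l 16672960)) (b (l 16673544) (l 16704240)))) (b (a (b (l 194514727175) (l 144585750967)) (l 3)) (a (b (l 16669784) (l 2)) (l 2))))) (b (l 3) (a (l 3) (l 2))))), by decide +kernel⟩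

def k1_pm_112_b : ∃ t, chk3 f_pm_112_b t 1 3 1 = true :=
  ⟨(a (a (b (a (b (a (l 16449888) (l 16454472)) (a (l 16374976) (l 16385936))) (b (b (l 16493168) (l 16454800)) (b (l 16457344) (l 16377928)))) (a (b (a (l 16262728) (l 16280184)) (a (l 16172760) (l 16198112))) (b (a (l 16306640) (l 16343712)) (b (l 16272696) (l 2))))) (b (a (b (a (l 16510024) (l 16544496)) (a (b (l 16464152) (l 16434888)) (b (l 16511776) (l 16491672)))) (b (a (l 16588512) (l 16640856)) (a (b (l 16573056) (l 2)) (l 2)))) (a (b (a (l 16394200) (l 2)) (l 2)) (l 2)))) (b (a (b (a (a (l 16700088) (l 2)) (l 2)) (l 2)) (l 2)) (l 2))), by decide +kernel⟩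

theorem s2_pm_112_b : ∃ t, chk3 f_pm_112_b t 1 1 1 = true := ex3_b k0_pm_112_b k1_pm_112_b

theorem c_pm_112_b : CertB 536870912 536870912 1239849684 370763052 697932185 42949674 3 eng mog cd0q1 cd2q2b pd1 false true false .dn 1 1 2
    ndB0q1 ndB2q2b pcB1 Cut.none Ext.none :=
  certB1 (fam := false) (s1 := true) (s2 := false) (a := 1) (b := 1) (c := 2) (cn := .dn) (n1 := ndB0q1) (n2 := ndB2q2b) (pc := pcB1) (cut := Cut.none) (xt := Ext.none) (P1 := 536870912) (W1 := 536870912) (P2 := 1239849684) (W2 := 370763052) (P3 := 697932185) (W3 := 42949674) (N0 := 3) (En := eng) (mo := mog) (C1 := cd0q1) (C2 := cd2q2b) (C3 := pd1)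
    rfl (fun _ => rfl) s2_pm_112_b

noncomputable def cut_pm_113 : Cut := Cut.of [[⟨0, 1, 0, 67108864⟩, ⟨1, 1, 0, 67108864⟩, ⟨2, 2, 0, 16777216⟩]]

noncomputable def f_pm_113 : ℕ → ℕ → ℕ → ℕ → Bool := onCell 536870912 536870912 536870912 536870912 697932185 42949674
    (rowB 3 eng mog cd0q1 cd2q3 pd1 1 false true false .nn 1 1 3 (qsf 536870912 536870912 1610612736 536870912 1) ndB0q1 ndB2q3 pcB1 cut_pm_113 Ext.none)

def k0_pm_113 : ∃ t, chk3 f_pm_113 t 1 2 1 = true :=
  ⟨(a (b (l 1) (a (l 1) (b (l 1) (a (l 1) (a (l 1) (l 16640672)))))) (a (b (a (l 1) (l 3)) (a (b (a (l 1) (b (l 1) (l 16644896))) (a (l 63921075575) (b (l 16671216) (l 16703848)))) (b (a (b (l 198272823687) (l 134922193671)) (l 3)) (a (b (l 16668200) (l 16723552)) (b (l 243906928903) (a (l 16730168) (l 262160714599))))))) (b (l 3) (a (l 3) (l 3))))), by decide +kernel⟩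

def k1_pm_113 : ∃ t, chk3 f_pm_113 t 2 3 1 = true :=
  ⟨(a (b (a (l 1) (b (l 1) (b (l 1) (l 98817243783)))) (a (b (a (l 1) (l 16290656)) (a (l 16179568) (l 16202288))) (b (a (l 16314800) (l 16348440)) (c (l 16289368) (l 16218328))))) (b (a (b (a (l 1) (l 16553720)) (a (b (l 16473784) (l 16441504)) (b (l 16517832) (l 16494120)))) (b (a (l 16594216) (l 16643336)) (a (b (l 16575152) (l 16562616)) (l 16647048)))) (a (b (a (l 16394352) (l 16459080)) (b (l 16386504) (l 16362072))) (b (a (l 16547848) (l 16601944)) (b (l 16535672) (l 16494312)))))), by decide +kernel⟩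

def k2_pm_113 : ∃ t, chk3 f_pm_113 t 3 6 1 = true :=
  ⟨(a (b (a (a (l 16700144) (b (l 16743240) (l 16788864))) (a (b (l 16792272) (l 16875112)) (b (a (l 16820544) (l 16770424)) (a (l 16936712) (l 16844256))))) (a (a (l 16741360) (l 16810160)) (b (a (l 16922576) (l 16895584)) (a (l 16849072) (l 16915480))))) (b (a (a (b (a (l 233169649815) (l 3)) (a (b (l 16851104) (l 16893208)) (b (l 254107648231) (l 190220044279)))) (l 3)) (l 3)) (a (a (b (b (l 114521293511) (l 16845352)) (a (l 16969352) (l 16849504))) (b (a (b (l 245517803559) (l 188072628087)) (l 3)) (a (b (l 16864368) (l 16937176)) (b (l 208473710759) (a (l 16880920) (l 202031313447)))))) (l 3)))), by decide +kernel⟩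

def k3_pm_113 : ∃ t, chk3 f_pm_113 t 3 7 1 = true :=
  ⟨(a (b (a (a (l 16655488) (l 16700288)) (a (l 16760320) (b (l 16845584) (l 16786160)))) (a (a (l 16568192) (l 16591152)) (a (l 16665952) (l 16713024)))) (b (a (a (b (a (l 16890448) (l 16919920)) (l 16839120)) (b (a (l 16882200) (b (l 162302895927) (l 16942744))) (b (l 16896456) (l 16863600)))) (a (b (a (b (a (l 206326286391) (l 3)) (l 214916214519)) (l 3)) (a (b (l 16894784) (l 16880712)) (b (l 342154741831) (b (l 211158129271) (l 16829200))))) (l 3))) (a (a (b (l 16783384) (l 16736568)) (b (a (l 16812952) (l 16742224)) (a (l 16763152) (l 16775000)))) (a (a (b (l 16835112) (b (l 16795704) (l 16772472))) (b (b (l 16836856) (l 16828880)) (b (l 16802704) (l 16778776)))) (b (a (a (b (l 239612263639) (l 16833216)) (b (l 3) (b (l 249812793095) (l 218674297719)))) (l 3)) (a (b (a (l 16827672) (c (l 16811104) (l 16806528))) (b (l 16810480) (l 16777736))) (a (b (b (l 327122174375) (a (l 16804128) (b (l 251423390103) (l 208473724839)))) (b (c (l 16793760) (l 16790856))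 (l 16780384))) (b (l 3) (a (b (b (l 329806521095) (a (l 16790536) (c (l 226190442183) (l 172503357015)))) (c (l 16787720) (l 16788832))) (b (l 3) (l 6))))))))))), by decide +kernel⟩

theorem s4_pm_113 : ∃ t, chk3 f_pm_113 t 3 3 1 = true := ex3_b k2_pm_113 k3_pm_113

theorem s5_pm_113 : ∃ t, chk3 f_pm_113 t 1 3 1 = true := ex3_a k1_pm_113 s4_pm_113

theorem s6_pm_113 : ∃ t, chk3 f_pm_113 t 1 1 1 = true := ex3_b k0_pm_113 s5_pm_113

theorem c_pm_113 : CertB 536870912 536870912 1610612736 536870912 697932185 42949674 3 eng mog cd0q1 cd2q3 pd1 false true false .nn 1 1 3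
    ndB0q1 ndB2q3 pcB1 cut_pm_113 Ext.none :=
  certB1 (fam := false) (s1 := true) (s2 := false) (a := 1) (b := 1) (c := 3) (cn := .nn) (n1 := ndB0q1) (n2 := ndB2q3) (pc := pcB1) (cut := cut_pm_113) (xt := Ext.none) (P1 := 536870912) (W1 := 536870912) (P2 := 1610612736) (W2 := 536870912) (P3 := 697932185) (W3 := 42949674) (N0 := 3) (En := eng) (mo := mog) (C1 := cd0q1) (C2 := cd2q3) (C3 := pd1)
    rfl (fun _ => rfl) s6_pm_113

noncomputable def cut_pm_123 : Cut := Cut.of [[⟨0, 1, 0, 67108864⟩, ⟨1, 1, 0, 67108864⟩, ⟨2, 2, 0, 16777216⟩]]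

noncomputable def f_pm_123 : ℕ → ℕ → ℕ → ℕ → Bool := onCell 536870912 536870912 1073741824 536870912 697932185 42949674
    (rowB 3 eng mog cd0q1 cd2q3 pd2 1 false true false .npn 1 2 3 (qsf 536870912 536870912 1610612736 536870912 2) ndB0q1 ndB2q3 pcB2 cut_pm_123 Ext.none)

def k0_pm_123 : ∃ t, chk3 f_pm_123 t 1 1 1 = true :=
  ⟨(a (b (a (b (a (b (a (l 16120832) (l 16147776)) (l 16124560)) (b (l 16206248) (l 16205208))) (a (b (b (l 16120944) (l 16128392)) (l 16208872)) (b (b (l 16205976) (l 16218304)) (l 16301552)))) (b (a (b (b (l 16338704) (l 16323832)) (l 16302064)) (b (a (l 16405800) (l 16445240)) (l 16383600))) (b (a (b (l 16290800) (l 16298312)) (b (l 16365856) (l 16371224))) (a (l 16378600) (l 16453976))))) (a (b (a (b (l 16325320) (l 16435248)) (b (l 16409720) (l 16512960))) (a (l 16605232) (l 16667952))) (b (a (b (l 16486392) (l 16586904)) (b (l 16564312) (l 16661040))) (a (b (l 16681560) (l 2)) (l 2))))) (b (a (b (a (b (a (l 16474816) (l 16516440)) (a (l 16427048) (l 16469264))) (b (a (l 16572608) (l 16622312))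 (a (l 16527784) (l 16583784)))) (a (b (b (a (l 16641544) (l 16500760)) (a (l 16417528) (l 16471304))) (a (l 16507024) (l 16557408))) (b (b (a (l 16525896) (b (l 16586568) (l 16595424))) (a (l 16541864) (l 16605976))) (a (l 16616144) (l 2))))) (b (b (a (a (l 16671560) (b (l 16722888) (l 16701584))) (a (b (a (l 16741536) (l 16773272)) (l 16774864)) (a (b (b (l 16764536) (l 16758672)) (l 783395486903)) (b (b (a (b (l 16771112) (l 6)) (b (l 6) (l 920834253607))) (l 918686745959)) (l 2))))) (a (a (b (l 16643552) (l 16642872)) (b (l 16684304) (l 16677368))) (a (a (l 562741621159) (l 2)) (l 2)))) (a (b (b (a (b (l 16648800) (l 2)) (l 2)) (l 2)) (l 2)) (l 2)))) (a (b (a (b (a (l 16615576) (l 2)) (l 2)) (l 2)) (l 2)) (l 2)))), by decide +kernel⟩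

theorem c_pm_123 : CertB 536870912 536870912 1610612736 536870912 697932185 42949674 3 eng mog cd0q1 cd2q3 pd2 false true false .npn 1 2 3
    ndB0q1 ndB2q3 pcB2 cut_pm_123 Ext.none :=
  certB1 (fam := false) (s1 := true) (s2 := false) (a := 1) (b := 2) (c := 3) (cn := .npn) (n1 := ndB0q1) (n2 := ndB2q3) (pc := pcB2) (cut := cut_pm_123) (xt := Ext.none) (P1 := 536870912) (W1 := 536870912) (P2 := 1610612736) (W2 := 536870912) (P3 := 697932185) (W3 := 42949674) (N0 := 3) (En := eng) (mo := mog) (C1 := cd0q1) (C2 := cd2q3) (C3 := pd2)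
    rfl (fun _ => rfl) k0_pm_123

noncomputable def f_pm_133 : ℕ → ℕ → ℕ → ℕ → Bool := onCell 536870912 536870912 1610612736 536870912 697932185 42949674
    (rowB 3 eng mog cd0q1 cd2q3 pd3 0 false true false .dn 1 3 3 (qsf 536870912 536870912 1610612736 536870912 3) ndB0q1 ndB2q3 pcB3 Cut.none Ext.none)

def k0_pm_133 : ∃ t, chk3 f_pm_133 t 1 1 1 = true :=
  ⟨(a (b (l 1) (a (b (l 1) (a (b (l 1) (l 16683552)) (l 1))) (l 1))) (l 1)), by decide +kernel⟩

theorem c_pm_133 : CertB 536870912 536870912 1610612736 536870912 697932185 42949674 3 eng mog cd0q1 cd2q3 pd3 false true false .dn 1 3 3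
    ndB0q1 ndB2q3 pcB3 Cut.none Ext.none :=
  certB0 (fam := false) (s1 := true) (s2 := false) (a := 1) (b := 3) (c := 3) (cn := .dn) (n1 := ndB0q1) (n2 := ndB2q3) (pc := pcB3) (cut := Cut.none) (xt := Ext.none) (P1 := 536870912) (W1 := 536870912) (P2 := 1610612736) (W2 := 536870912) (P3 := 697932185) (W3 := 42949674) (N0 := 3) (En := eng) (mo := mog) (C1 := cd0q1) (C2 := cd2q3) (C3 := pd3)
    rfl k0_pm_133

noncomputable def cut_pm_202_a : Cut := Cut.of [[⟨0, 1, 0, 67108864⟩, ⟨1, 0, 0, 67108864⟩, ⟨2, 1, 0, 67108864⟩]]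

noncomputable def f_pm_202_a : ℕ → ℕ → ℕ → ℕ → Bool := onCell 0 536870912 0 536870912 697932185 42949674
    (rowB 3 eng mog cd0q2 cd2q2a pd0 0 false true false .pp 2 0 2 (qsf 0 536870912 0 536870912 0) ndB0q2 ndB2q2a pcB0 cut_pm_202_a Ext.none)

def k0_pm_202_a : ∃ t, chk3 f_pm_202_a t 1 1 1 = true :=
  ⟨(a (l 3) (b (l 3) (a (l 3) (b (l 3) (b (l 3) (a (l 3) (l 6))))))), by decide +kernel⟩

theorem c_pm_202_a : CertB 0 536870912 0 536870912 697932185 42949674 3 eng mog cd0q2 cd2q2a pd0 false true false .pp 2 0 2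
    ndB0q2 ndB2q2a pcB0 cut_pm_202_a Ext.none :=
  certB0 (fam := false) (s1 := true) (s2 := false) (a := 2) (b := 0) (c := 2) (cn := .pp) (n1 := ndB0q2) (n2 := ndB2q2a) (pc := pcB0) (cut := cut_pm_202_a) (xt := Ext.none) (P1 := 0) (W1 := 536870912) (P2 := 0) (W2 := 536870912) (P3 := 697932185) (W3 := 42949674) (N0 := 3) (En := eng) (mo := mog) (C1 := cd0q2) (C2 := cd2q2a) (C3 := pd0)
    rfl k0_pm_202_a

noncomputable def cut_pm_202_b : Cut := Cut.of [[⟨0, 1, 0, 67108864⟩, ⟨1, 0, 0, 67108864⟩, ⟨2, 1, 0, 67108864⟩]]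

noncomputable def f_pm_202_b : ℕ → ℕ → ℕ → ℕ → Bool := onCell 0 536870912 1239849684 370763052 697932185 42949674
    (rowB 3 eng mog cd0q2 cd2q2b pd0 0 false true false .pp 2 0 2 (qsf 0 536870912 1239849684 370763052 0) ndB0q2 ndB2q2b pcB0 cut_pm_202_b Ext.none)

def k0_pm_202_b : ∃ t, chk3 f_pm_202_b t 1 1 1 = true :=
  ⟨(l 3), by decide +kernel⟩

theorem c_pm_202_b : CertB 0 536870912 1239849684 370763052 697932185 42949674 3 eng mog cd0q2 cd2q2b pd0 false true false .pp 2 0 2
    ndB0q2 ndB2q2b pcB0 cut_pm_202_b Ext.none :=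
  certB0 (fam := false) (s1 := true) (s2 := false) (a := 2) (b := 0) (c := 2) (cn := .pp) (n1 := ndB0q2) (n2 := ndB2q2b) (pc := pcB0) (cut := cut_pm_202_b) (xt := Ext.none) (P1 := 0) (W1 := 536870912) (P2 := 1239849684) (W2 := 370763052) (P3 := 697932185) (W3 := 42949674) (N0 := 3) (En := eng) (mo := mog) (C1 := cd0q2) (C2 := cd2q2b) (C3 := pd0)
    rfl k0_pm_202_b

noncomputable def f_pm_203 : ℕ → ℕ → ℕ → ℕ → Bool := onCell 0 536870912 0 536870912 697932185 42949674
    (rowB 3 eng mog cd0q2 cd2q3 pd0 1 false true false .up 2 0 3 (qsf 0 536870912 1610612736 536870912 0) ndB0q2 ndB2q3 pcB0 Cut.none Ext.none)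

def k0_pm_203 : ∃ t, chk3 f_pm_203 t 1 1 1 = true :=
  ⟨(l 3), by decide +kernel⟩

theorem c_pm_203 : CertB 0 536870912 1610612736 536870912 697932185 42949674 3 eng mog cd0q2 cd2q3 pd0 false true false .up 2 0 3
    ndB0q2 ndB2q3 pcB0 Cut.none Ext.none :=
  certB1 (fam := false) (s1 := true) (s2 := false) (a := 2) (b := 0) (c := 3) (cn := .up) (n1 := ndB0q2) (n2 := ndB2q3) (pc := pcB0) (cut := Cut.none) (xt := Ext.none) (P1 := 0) (W1 := 536870912) (P2 := 1610612736) (W2 := 536870912) (P3 := 697932185) (W3 := 42949674) (N0 := 3) (En := eng) (mo := mog) (C1 := cd0q2) (C2 := cd2q3) (C3 := pd0)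
    rfl (fun _ => rfl) k0_pm_203

noncomputable def cut_pm_213 : Cut := Cut.of [[⟨0, 1, 0, 67108864⟩, ⟨1, 1, 0, 67108864⟩, ⟨2, 2, 0, 16777216⟩]]

noncomputable def f_pm_213 : ℕ → ℕ → ℕ → ℕ → Bool := onCell 0 536870912 1610612736 536870912 697932185 42949674
    (rowB 3 eng mog cd0q2 cd2q3 pd1 0 false true false .pnn 2 1 3 (qsf 0 536870912 1610612736 536870912 1) ndB0q2 ndB2q3 pcB1 cut_pm_213 Ext.none)

def k0_pm_213 : ∃ t, chk3 f_pm_213 t 1 1 1 = true :=
  ⟨(b (l 3) (a (l 3) (b (l 3) (a (l 3) (b (l 3) (b (l 3) (b (l 3) (b (l 3) (a (l 3) (l 6)))))))))), by decide +kernel⟩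

theorem c_pm_213 : CertB 0 536870912 1610612736 536870912 697932185 42949674 3 eng mog cd0q2 cd2q3 pd1 false true false .pnn 2 1 3
    ndB0q2 ndB2q3 pcB1 cut_pm_213 Ext.none :=
  certB0 (fam := false) (s1 := true) (s2 := false) (a := 2) (b := 1) (c := 3) (cn := .pnn) (n1 := ndB0q2) (n2 := ndB2q3) (pc := pcB1) (cut := cut_pm_213) (xt := Ext.none) (P1 := 0) (W1 := 536870912) (P2 := 1610612736) (W2 := 536870912) (P3 := 697932185) (W3 := 42949674) (N0 := 3) (En := eng) (mo := mog) (C1 := cd0q2) (C2 := cd2q3) (C3 := pd1)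
    rfl k0_pm_213

noncomputable def f_mm_001 : ℕ → ℕ → ℕ → ℕ → Bool := onCell 0 536870912 536870912 536870912 697932185 42949674
    (rowB 3 eng mog cd0q0 cd2q1 pd0 0 false false false .up 0 0 1 (qsf 0 536870912 536870912 536870912 0) ndB0q0 ndB2q1 pcB0 Cut.none Ext.none)

def k0_mm_001 : ∃ t, chk3 f_mm_001 t 1 1 1 = true :=
  ⟨(l 3), by decide +kernel⟩

theorem c_mm_001 : CertB 0 536870912 536870912 536870912 697932185 42949674 3 eng mog cd0q0 cd2q1 pd0 false false false .up 0 0 1
    ndB0q0 ndB2q1 pcB0 Cut.none Ext.none :=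
  certB0 (fam := false) (s1 := false) (s2 := false) (a := 0) (b := 0) (c := 1) (cn := .up) (n1 := ndB0q0) (n2 := ndB2q1) (pc := pcB0) (cut := Cut.none) (xt := Ext.none) (P1 := 0) (W1 := 536870912) (P2 := 536870912) (W2 := 536870912) (P3 := 697932185) (W3 := 42949674) (N0 := 3) (En := eng) (mo := mog) (C1 := cd0q0) (C2 := cd2q1) (C3 := pd0)
    rfl k0_mm_001

noncomputable def f_mm_011 : ℕ → ℕ → ℕ → ℕ → Bool := onCell 0 536870912 536870912 536870912 697932185 42949674
    (rowB 3 eng mog cd0q0 cd2q1 pd1 0 false false false .pnn 0 1 1 (qsf 0 536870912 536870912 536870912 1) ndB0q0 ndB2q1 pcB1 Cut.none Ext.none)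

def k0_mm_011 : ∃ t, chk3 f_mm_011 t 1 1 1 = true :=
  ⟨(l 3), by decide +kernel⟩

theorem c_mm_011 : CertB 0 536870912 536870912 536870912 697932185 42949674 3 eng mog cd0q0 cd2q1 pd1 false false false .pnn 0 1 1
    ndB0q0 ndB2q1 pcB1 Cut.none Ext.none :=
  certB0 (fam := false) (s1 := false) (s2 := false) (a := 0) (b := 1) (c := 1) (cn := .pnn) (n1 := ndB0q0) (n2 := ndB2q1) (pc := pcB1) (cut := Cut.none) (xt := Ext.none) (P1 := 0) (W1 := 536870912) (P2 := 536870912) (W2 := 536870912) (P3 := 697932185) (W3 := 42949674) (N0 := 3) (En := eng) (mo := mog) (C1 := cd0q0) (C2 := cd2q1) (C3 := pd1)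
    rfl k0_mm_011

noncomputable def f_mm_012_a : ℕ → ℕ → ℕ → ℕ → Bool := onCell 0 536870912 0 536870912 697932185 42949674
    (rowB 3 eng mog cd0q0 cd2q2a pd1 0 false false false .pnp 0 1 2 (qsf 0 536870912 0 536870912 1) ndB0q0 ndB2q2a pcB1 Cut.none Ext.none)

def k0_mm_012_a : ∃ t, chk3 f_mm_012_a t 1 1 1 = true :=
  ⟨(l 5), by decide +kernel⟩

theorem c_mm_012_a : CertB 0 536870912 0 536870912 697932185 42949674 3 eng mog cd0q0 cd2q2a pd1 false false false .pnp 0 1 2
    ndB0q0 ndB2q2a pcB1 Cut.none Ext.none :=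
  certB0 (fam := false) (s1 := false) (s2 := false) (a := 0) (b := 1) (c := 2) (cn := .pnp) (n1 := ndB0q0) (n2 := ndB2q2a) (pc := pcB1) (cut := Cut.none) (xt := Ext.none) (P1 := 0) (W1 := 536870912) (P2 := 0) (W2 := 536870912) (P3 := 697932185) (W3 := 42949674) (N0 := 3) (En := eng) (mo := mog) (C1 := cd0q0) (C2 := cd2q2a) (C3 := pd1)
    rfl k0_mm_012_a

noncomputable def f_mm_012_b : ℕ → ℕ → ℕ → ℕ → Bool := onCell 0 536870912 1239849684 370763052 697932185 42949674
    (rowB 3 eng mog cd0q0 cd2q2b pd1 0 false false false .pnp 0 1 2 (qsf 0 536870912 1239849684 370763052 1) ndB0q0 ndB2q2b pcB1 Cut.none Ext.none)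

def k0_mm_012_b : ∃ t, chk3 f_mm_012_b t 1 1 1 = true :=
  ⟨(l 5), by decide +kernel⟩

theorem c_mm_012_b : CertB 0 536870912 1239849684 370763052 697932185 42949674 3 eng mog cd0q0 cd2q2b pd1 false false false .pnp 0 1 2
    ndB0q0 ndB2q2b pcB1 Cut.none Ext.none :=
  certB0 (fam := false) (s1 := false) (s2 := false) (a := 0) (b := 1) (c := 2) (cn := .pnp) (n1 := ndB0q0) (n2 := ndB2q2b) (pc := pcB1) (cut := Cut.none) (xt := Ext.none) (P1 := 0) (W1 := 536870912) (P2 := 1239849684) (W2 := 370763052) (P3 := 697932185) (W3 := 42949674) (N0 := 3) (En := eng) (mo := mog) (C1 := cd0q0) (C2 := cd2q2b) (C3 := pd1)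
    rfl k0_mm_012_b

noncomputable def f_mm_022_a : ℕ → ℕ → ℕ → ℕ → Bool := onCell 0 536870912 0 536870912 697932185 42949674
    (rowB 3 eng mog cd0q0 cd2q2a pd2 0 false false false .pp 0 2 2 (qsf 0 536870912 0 536870912 2) ndB0q0 ndB2q2a pcB2 Cut.none Ext.none)

def k0_mm_022_a : ∃ t, chk3 f_mm_022_a t 1 1 1 = true :=
  ⟨(l 5), by decide +kernel⟩

theorem c_mm_022_a : CertB 0 536870912 0 536870912 697932185 42949674 3 eng mog cd0q0 cd2q2a pd2 false false false .pp 0 2 2
    ndB0q0 ndB2q2a pcB2 Cut.none Ext.none :=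
  certB0 (fam := false) (s1 := false) (s2 := false) (a := 0) (b := 2) (c := 2) (cn := .pp) (n1 := ndB0q0) (n2 := ndB2q2a) (pc := pcB2) (cut := Cut.none) (xt := Ext.none) (P1 := 0) (W1 := 536870912) (P2 := 0) (W2 := 536870912) (P3 := 697932185) (W3 := 42949674) (N0 := 3) (En := eng) (mo := mog) (C1 := cd0q0) (C2 := cd2q2a) (C3 := pd2)
    rfl k0_mm_022_a

noncomputable def f_mm_022_b : ℕ → ℕ → ℕ → ℕ → Bool := onCell 0 536870912 1239849684 370763052 697932185 42949674
    (rowB 3 eng mog cd0q0 cd2q2b pd2 0 false false false .pp 0 2 2 (qsf 0 536870912 1239849684 370763052 2) ndB0q0 ndB2q2b pcB2 Cut.none Ext.none)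

def k0_mm_022_b : ∃ t, chk3 f_mm_022_b t 1 1 1 = true :=
  ⟨(l 5), by decide +kernel⟩

theorem c_mm_022_b : CertB 0 536870912 1239849684 370763052 697932185 42949674 3 eng mog cd0q0 cd2q2b pd2 false false false .pp 0 2 2
    ndB0q0 ndB2q2b pcB2 Cut.none Ext.none :=
  certB0 (fam := false) (s1 := false) (s2 := false) (a := 0) (b := 2) (c := 2) (cn := .pp) (n1 := ndB0q0) (n2 := ndB2q2b) (pc := pcB2) (cut := Cut.none) (xt := Ext.none) (P1 := 0) (W1 := 536870912) (P2 := 1239849684) (W2 := 370763052) (P3 := 697932185) (W3 := 42949674) (N0 := 3) (En := eng) (mo := mog) (C1 := cd0q0) (C2 := cd2q2b) (C3 := pd2)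
    rfl k0_mm_022_b

noncomputable def f_mm_023 : ℕ → ℕ → ℕ → ℕ → Bool := onCell 0 536870912 1610612736 536870912 697932185 42949674
    (rowB 3 eng mog cd0q0 cd2q3 pd2 0 false false false .up 0 2 3 (qsf 0 536870912 1610612736 536870912 2) ndB0q0 ndB2q3 pcB2 Cut.none Ext.none)

def k0_mm_023 : ∃ t, chk3 f_mm_023 t 1 1 1 = true :=
  ⟨(l 5), by decide +kernel⟩

theorem c_mm_023 : CertB 0 536870912 1610612736 536870912 697932185 42949674 3 eng mog cd0q0 cd2q3 pd2 false false false .up 0 2 3
    ndB0q0 ndB2q3 pcB2 Cut.none Ext.none :=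
  certB0 (fam := false) (s1 := false) (s2 := false) (a := 0) (b := 2) (c := 3) (cn := .up) (n1 := ndB0q0) (n2 := ndB2q3) (pc := pcB2) (cut := Cut.none) (xt := Ext.none) (P1 := 0) (W1 := 536870912) (P2 := 1610612736) (W2 := 536870912) (P3 := 697932185) (W3 := 42949674) (N0 := 3) (En := eng) (mo := mog) (C1 := cd0q0) (C2 := cd2q3) (C3 := pd2)
    rfl k0_mm_023

noncomputable def f_mm_033 : ℕ → ℕ → ℕ → ℕ → Bool := onCell 0 536870912 1610612736 536870912 697932185 42949674
    (rowB 3 eng mog cd0q0 cd2q3 pd3 0 false false false .pnn 0 3 3 (qsf 0 536870912 1610612736 536870912 3) ndB0q0 ndB2q3 pcB3 Cut.none Ext.none)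

def k0_mm_033 : ∃ t, chk3 f_mm_033 t 1 1 1 = true :=
  ⟨(l 5), by decide +kernel⟩

theorem c_mm_033 : CertB 0 536870912 1610612736 536870912 697932185 42949674 3 eng mog cd0q0 cd2q3 pd3 false false false .pnn 0 3 3
    ndB0q0 ndB2q3 pcB3 Cut.none Ext.none :=
  certB0 (fam := false) (s1 := false) (s2 := false) (a := 0) (b := 3) (c := 3) (cn := .pnn) (n1 := ndB0q0) (n2 := ndB2q3) (pc := pcB3) (cut := Cut.none) (xt := Ext.none) (P1 := 0) (W1 := 536870912) (P2 := 1610612736) (W2 := 536870912) (P3 := 697932185) (W3 := 42949674) (N0 := 3) (En := eng) (mo := mog) (C1 := cd0q0) (C2 := cd2q3) (C3 := pd3)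
    rfl k0_mm_033

noncomputable def f_mm_101 : ℕ → ℕ → ℕ → ℕ → Bool := onCell 536870912 536870912 536870912 536870912 697932185 42949674
    (rowB 3 eng mog cd0q1 cd2q1 pd0 0 false false false .npn 1 0 1 (qsf 536870912 536870912 536870912 536870912 0) ndB0q1 ndB2q1 pcB0 Cut.none Ext.none)

def k0_mm_101 : ∃ t, chk3 f_mm_101 t 1 1 1 = true :=
  ⟨(l 3), by decide +kernel⟩

theorem c_mm_101 : CertB 536870912 536870912 536870912 536870912 697932185 42949674 3 eng mog cd0q1 cd2q1 pd0 false false false .npn 1 0 1
    ndB0q1 ndB2q1 pcB0 Cut.none Ext.none :=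
  certB0 (fam := false) (s1 := false) (s2 := false) (a := 1) (b := 0) (c := 1) (cn := .npn) (n1 := ndB0q1) (n2 := ndB2q1) (pc := pcB0) (cut := Cut.none) (xt := Ext.none) (P1 := 536870912) (W1 := 536870912) (P2 := 536870912) (W2 := 536870912) (P3 := 697932185) (W3 := 42949674) (N0 := 3) (En := eng) (mo := mog) (C1 := cd0q1) (C2 := cd2q1) (C3 := pd0)
    rfl k0_mm_101

noncomputable def f_mm_102_a : ℕ → ℕ → ℕ → ℕ → Bool := onCell 536870912 536870912 0 536870912 697932185 42949674
    (rowB 3 eng mog cd0q1 cd2q2a pd0 0 false false false .npp 1 0 2 (qsf 536870912 536870912 0 536870912 0) ndB0q1 ndB2q2a pcB0 Cut.none Ext.none)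

def k0_mm_102_a : ∃ t, chk3 f_mm_102_a t 1 1 1 = true :=
  ⟨(a (l 3) (l 3)), by decide +kernel⟩

theorem c_mm_102_a : CertB 536870912 536870912 0 536870912 697932185 42949674 3 eng mog cd0q1 cd2q2a pd0 false false false .npp 1 0 2
    ndB0q1 ndB2q2a pcB0 Cut.none Ext.none :=
  certB0 (fam := false) (s1 := false) (s2 := false) (a := 1) (b := 0) (c := 2) (cn := .npp) (n1 := ndB0q1) (n2 := ndB2q2a) (pc := pcB0) (cut := Cut.none) (xt := Ext.none) (P1 := 536870912) (W1 := 536870912) (P2 := 0) (W2 := 536870912) (P3 := 697932185) (W3 := 42949674) (N0 := 3) (En := eng) (mo := mog) (C1 := cd0q1) (C2 := cd2q2a) (C3 := pd0)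
    rfl k0_mm_102_a

noncomputable def f_mm_102_b : ℕ → ℕ → ℕ → ℕ → Bool := onCell 536870912 536870912 1239849684 370763052 697932185 42949674
    (rowB 3 eng mog cd0q1 cd2q2b pd0 0 false false false .npp 1 0 2 (qsf 536870912 536870912 1239849684 370763052 0) ndB0q1 ndB2q2b pcB0 Cut.none Ext.none)

def k0_mm_102_b : ∃ t, chk3 f_mm_102_b t 1 1 1 = true :=
  ⟨(l 5), by decide +kernel⟩

theorem c_mm_102_b : CertB 536870912 536870912 1239849684 370763052 697932185 42949674 3 eng mog cd0q1 cd2q2b pd0 false false false .npp 1 0 2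
    ndB0q1 ndB2q2b pcB0 Cut.none Ext.none :=
  certB0 (fam := false) (s1 := false) (s2 := false) (a := 1) (b := 0) (c := 2) (cn := .npp) (n1 := ndB0q1) (n2 := ndB2q2b) (pc := pcB0) (cut := Cut.none) (xt := Ext.none) (P1 := 536870912) (W1 := 536870912) (P2 := 1239849684) (W2 := 370763052) (P3 := 697932185) (W3 := 42949674) (N0 := 3) (En := eng) (mo := mog) (C1 := cd0q1) (C2 := cd2q2b) (C3 := pd0)
    rfl k0_mm_102_b

noncomputable def f_mm_112_a : ℕ → ℕ → ℕ → ℕ → Bool := onCell 536870912 536870912 0 536870912 697932185 42949674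
    (rowB 3 eng mog cd0q1 cd2q2a pd1 2 false false false .dn 1 1 2 (qsf 536870912 536870912 0 536870912 1) ndB0q1 ndB2q2a pcB1 Cut.none Ext.none)

def k0_mm_112_a : ∃ t, chk3 f_mm_112_a t 1 1 1 = true :=
  ⟨(l 5), by decide +kernel⟩

theorem c_mm_112_a : CertB 536870912 536870912 0 536870912 697932185 42949674 3 eng mog cd0q1 cd2q2a pd1 false false false .dn 1 1 2
    ndB0q1 ndB2q2a pcB1 Cut.none Ext.none :=
  certB2 (fam := false) (s1 := false) (s2 := false) (a := 1) (b := 1) (c := 2) (cn := .dn) (n1 := ndB0q1) (n2 := ndB2q2a) (pc := pcB1) (cut := Cut.none) (xt := Ext.none) (P1 := 536870912) (W1 := 536870912) (P2 := 0) (W2 := 536870912) (P3 := 697932185) (W3 := 42949674) (N0 := 3) (En := eng) (mo := mog) (C1 := cd0q1) (C2 := cd2q2a) (C3 := pd1)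
    rfl (fun _ => rfl) k0_mm_112_a

noncomputable def f_mm_112_b : ℕ → ℕ → ℕ → ℕ → Bool := onCell 536870912 536870912 1239849684 370763052 697932185 42949674
    (rowB 3 eng mog cd0q1 cd2q2b pd1 0 false false false .dn 1 1 2 (qsf 536870912 536870912 1239849684 370763052 1) ndB0q1 ndB2q2b pcB1 Cut.none Ext.none)

def k0_mm_112_b : ∃ t, chk3 f_mm_112_b t 1 1 1 = true :=
  ⟨(l 5), by decide +kernel⟩

theorem c_mm_112_b : CertB 536870912 536870912 1239849684 370763052 697932185 42949674 3 eng mog cd0q1 cd2q2b pd1 false false false .dn 1 1 2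
    ndB0q1 ndB2q2b pcB1 Cut.none Ext.none :=
  certB0 (fam := false) (s1 := false) (s2 := false) (a := 1) (b := 1) (c := 2) (cn := .dn) (n1 := ndB0q1) (n2 := ndB2q2b) (pc := pcB1) (cut := Cut.none) (xt := Ext.none) (P1 := 536870912) (W1 := 536870912) (P2 := 1239849684) (W2 := 370763052) (P3 := 697932185) (W3 := 42949674) (N0 := 3) (En := eng) (mo := mog) (C1 := cd0q1) (C2 := cd2q2b) (C3 := pd1)
    rfl k0_mm_112_b

noncomputable def f_mm_113 : ℕ → ℕ → ℕ → ℕ → Bool := onCell 536870912 536870912 1610612736 536870912 697932185 42949674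
    (rowB 3 eng mog cd0q1 cd2q3 pd1 0 false false false .nn 1 1 3 (qsf 536870912 536870912 1610612736 536870912 1) ndB0q1 ndB2q3 pcB1 Cut.none Ext.none)

def k0_mm_113 : ∃ t, chk3 f_mm_113 t 1 1 1 = true :=
  ⟨(l 5), by decide +kernel⟩

theorem c_mm_113 : CertB 536870912 536870912 1610612736 536870912 697932185 42949674 3 eng mog cd0q1 cd2q3 pd1 false false false .nn 1 1 3
    ndB0q1 ndB2q3 pcB1 Cut.none Ext.none :=
  certB0 (fam := false) (s1 := false) (s2 := false) (a := 1) (b := 1) (c := 3) (cn := .nn) (n1 := ndB0q1) (n2 := ndB2q3) (pc := pcB1) (cut := Cut.none) (xt := Ext.none) (P1 := 536870912) (W1 := 536870912) (P2 := 1610612736) (W2 := 536870912) (P3 := 697932185) (W3 := 42949674) (N0 := 3) (En := eng) (mo := mog) (C1 := cd0q1) (C2 := cd2q3) (C3 := pd1)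
    rfl k0_mm_113

noncomputable def f_mm_123 : ℕ → ℕ → ℕ → ℕ → Bool := onCell 536870912 536870912 1610612736 536870912 697932185 42949674
    (rowB 3 eng mog cd0q1 cd2q3 pd2 0 false false false .npn 1 2 3 (qsf 536870912 536870912 1610612736 536870912 2) ndB0q1 ndB2q3 pcB2 Cut.none Ext.none)

def k0_mm_123 : ∃ t, chk3 f_mm_123 t 1 1 1 = true :=
  ⟨(l 5), by decide +kernel⟩

theorem c_mm_123 : CertB 536870912 536870912 1610612736 536870912 697932185 42949674 3 eng mog cd0q1 cd2q3 pd2 false false false .npn 1 2 3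
    ndB0q1 ndB2q3 pcB2 Cut.none Ext.none :=
  certB0 (fam := false) (s1 := false) (s2 := false) (a := 1) (b := 2) (c := 3) (cn := .npn) (n1 := ndB0q1) (n2 := ndB2q3) (pc := pcB2) (cut := Cut.none) (xt := Ext.none) (P1 := 536870912) (W1 := 536870912) (P2 := 1610612736) (W2 := 536870912) (P3 := 697932185) (W3 := 42949674) (N0 := 3) (En := eng) (mo := mog) (C1 := cd0q1) (C2 := cd2q3) (C3 := pd2)
    rfl k0_mm_123

noncomputable def f_mm_133 : ℕ → ℕ → ℕ → ℕ → Bool := onCell 536870912 536870912 1610612736 536870912 697932185 42949674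
    (rowB 3 eng mog cd0q1 cd2q3 pd3 0 false false false .dn 1 3 3 (qsf 536870912 536870912 1610612736 536870912 3) ndB0q1 ndB2q3 pcB3 Cut.none Ext.none)

def k0_mm_133 : ∃ t, chk3 f_mm_133 t 1 1 1 = true :=
  ⟨(l 5), by decide +kernel⟩

theorem c_mm_133 : CertB 536870912 536870912 1610612736 536870912 697932185 42949674 3 eng mog cd0q1 cd2q3 pd3 false false false .dn 1 3 3
    ndB0q1 ndB2q3 pcB3 Cut.none Ext.none :=
  certB0 (fam := false) (s1 := false) (s2 := false) (a := 1) (b := 3) (c := 3) (cn := .dn) (n1 := ndB0q1) (n2 := ndB2q3) (pc := pcB3) (cut := Cut.none) (xt := Ext.none) (P1 := 536870912) (W1 := 536870912) (P2 := 1610612736) (W2 := 536870912) (P3 := 697932185) (W3 := 42949674) (N0 := 3) (En := eng) (mo := mog) (C1 := cd0q1) (C2 := cd2q3) (C3 := pd3)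
    rfl k0_mm_133

noncomputable def f_mm_202_a : ℕ → ℕ → ℕ → ℕ → Bool := onCell 0 536870912 0 536870912 697932185 42949674
    (rowB 3 eng mog cd0q2 cd2q2a pd0 0 false false false .pp 2 0 2 (qsf 0 536870912 0 536870912 0) ndB0q2 ndB2q2a pcB0 Cut.none Ext.none)

def k0_mm_202_a : ∃ t, chk3 f_mm_202_a t 1 1 1 = true :=
  ⟨(l 3), by decide +kernel⟩

theorem c_mm_202_a : CertB 0 536870912 0 536870912 697932185 42949674 3 eng mog cd0q2 cd2q2a pd0 false false false .pp 2 0 2
    ndB0q2 ndB2q2a pcB0 Cut.none Ext.none :=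
  certB0 (fam := false) (s1 := false) (s2 := false) (a := 2) (b := 0) (c := 2) (cn := .pp) (n1 := ndB0q2) (n2 := ndB2q2a) (pc := pcB0) (cut := Cut.none) (xt := Ext.none) (P1 := 0) (W1 := 536870912) (P2 := 0) (W2 := 536870912) (P3 := 697932185) (W3 := 42949674) (N0 := 3) (En := eng) (mo := mog) (C1 := cd0q2) (C2 := cd2q2a) (C3 := pd0)
    rfl k0_mm_202_a

noncomputable def f_mm_202_b : ℕ → ℕ → ℕ → ℕ → Bool := onCell 0 536870912 1239849684 370763052 697932185 42949674
    (rowB 3 eng mog cd0q2 cd2q2b pd0 0 false false false .pp 2 0 2 (qsf 0 536870912 1239849684 370763052 0) ndB0q2 ndB2q2b pcB0 Cut.none Ext.none)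

def k0_mm_202_b : ∃ t, chk3 f_mm_202_b t 1 1 1 = true :=
  ⟨(l 3), by decide +kernel⟩

theorem c_mm_202_b : CertB 0 536870912 1239849684 370763052 697932185 42949674 3 eng mog cd0q2 cd2q2b pd0 false false false .pp 2 0 2
    ndB0q2 ndB2q2b pcB0 Cut.none Ext.none :=
  certB0 (fam := false) (s1 := false) (s2 := false) (a := 2) (b := 0) (c := 2) (cn := .pp) (n1 := ndB0q2) (n2 := ndB2q2b) (pc := pcB0) (cut := Cut.none) (xt := Ext.none) (P1 := 0) (W1 := 536870912) (P2 := 1239849684) (W2 := 370763052) (P3 := 697932185) (W3 := 42949674) (N0 := 3) (En := eng) (mo := mog) (C1 := cd0q2) (C2 := cd2q2b) (C3 := pd0)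
    rfl k0_mm_202_b

noncomputable def f_mm_203 : ℕ → ℕ → ℕ → ℕ → Bool := onCell 0 536870912 0 536870912 697932185 42949674
    (rowB 3 eng mog cd0q2 cd2q3 pd0 1 false false false .up 2 0 3 (qsf 0 536870912 1610612736 536870912 0) ndB0q2 ndB2q3 pcB0 Cut.none Ext.none)

def k0_mm_203 : ∃ t, chk3 f_mm_203 t 1 1 1 = true :=
  ⟨(l 3), by decide +kernel⟩

theorem c_mm_203 : CertB 0 536870912 1610612736 536870912 697932185 42949674 3 eng mog cd0q2 cd2q3 pd0 false false false .up 2 0 3
    ndB0q2 ndB2q3 pcB0 Cut.none Ext.none :=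
  certB1 (fam := false) (s1 := false) (s2 := false) (a := 2) (b := 0) (c := 3) (cn := .up) (n1 := ndB0q2) (n2 := ndB2q3) (pc := pcB0) (cut := Cut.none) (xt := Ext.none) (P1 := 0) (W1 := 536870912) (P2 := 1610612736) (W2 := 536870912) (P3 := 697932185) (W3 := 42949674) (N0 := 3) (En := eng) (mo := mog) (C1 := cd0q2) (C2 := cd2q3) (C3 := pd0)
    rfl (fun _ => rfl) k0_mm_203

noncomputable def f_mm_213 : ℕ → ℕ → ℕ → ℕ → Bool := onCell 0 536870912 1610612736 536870912 697932185 42949674
    (rowB 3 eng mog cd0q2 cd2q3 pd1 0 false false false .pnn 2 1 3 (qsf 0 536870912 1610612736 536870912 1) ndB0q2 ndB2q3 pcB1 Cut.none Ext.none)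

def k0_mm_213 : ∃ t, chk3 f_mm_213 t 1 1 1 = true :=
  ⟨(a (l 3) (l 5)), by decide +kernel⟩

theorem c_mm_213 : CertB 0 536870912 1610612736 536870912 697932185 42949674 3 eng mog cd0q2 cd2q3 pd1 false false false .pnn 2 1 3
    ndB0q2 ndB2q3 pcB1 Cut.none Ext.none :=
  certB0 (fam := false) (s1 := false) (s2 := false) (a := 2) (b := 1) (c := 3) (cn := .pnn) (n1 := ndB0q2) (n2 := ndB2q3) (pc := pcB1) (cut := Cut.none) (xt := Ext.none) (P1 := 0) (W1 := 536870912) (P2 := 1610612736) (W2 := 536870912) (P3 := 697932185) (W3 := 42949674) (N0 := 3) (En := eng) (mo := mog) (C1 := cd0q2) (C2 := cd2q3) (C3 := pd1)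
    rfl k0_mm_213

end Pool.Agent.Strip051.G.I6500_6900.Tab.C.BB02

namespace Pool.Agent.Strip051.G.I6500_6900.Tab.C.BB03

open Pool.Agent.Strip051.PB Pool.Agent.Strip051.PB.T
open Pool.Agent.Strip051.G.I6500_6900.Tab

noncomputable def f_pp_001 : ℕ → ℕ → ℕ → ℕ → Bool := onCell 0 536870912 536870912 536870912 697932185 42949674
    (rowB 3 eng mog cd0q0 cd3q1 pd0 0 false true true .up 0 0 1 (qsf 0 536870912 536870912 536870912 0) ndB0q0 ndB3q1 pcB0 Cut.none Ext.none)

def k0_pp_001 : ∃ t, chk3 f_pp_001 t 1 1 1 = true :=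
  ⟨(l 3), by decide +kernel⟩

theorem c_pp_001 : CertB 0 536870912 536870912 536870912 697932185 42949674 3 eng mog cd0q0 cd3q1 pd0 false true true .up 0 0 1
    ndB0q0 ndB3q1 pcB0 Cut.none Ext.none :=
  certB0 (fam := false) (s1 := true) (s2 := true) (a := 0) (b := 0) (c := 1) (cn := .up) (n1 := ndB0q0) (n2 := ndB3q1) (pc := pcB0) (cut := Cut.none) (xt := Ext.none) (P1 := 0) (W1 := 536870912) (P2 := 536870912) (W2 := 536870912) (P3 := 697932185) (W3 := 42949674) (N0 := 3) (En := eng) (mo := mog) (C1 := cd0q0) (C2 := cd3q1) (C3 := pd0)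
    rfl k0_pp_001

noncomputable def f_pp_011 : ℕ → ℕ → ℕ → ℕ → Bool := onCell 0 536870912 536870912 536870912 697932185 42949674
    (rowB 3 eng mog cd0q0 cd3q1 pd1 0 false true true .pnn 0 1 1 (qsf 0 536870912 536870912 536870912 1) ndB0q0 ndB3q1 pcB1 Cut.none Ext.none)

def k0_pp_011 : ∃ t, chk3 f_pp_011 t 1 1 1 = true :=
  ⟨(l 3), by decide +kernel⟩

theorem c_pp_011 : CertB 0 536870912 536870912 536870912 697932185 42949674 3 eng mog cd0q0 cd3q1 pd1 false true true .pnn 0 1 1
    ndB0q0 ndB3q1 pcB1 Cut.none Ext.none :=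
  certB0 (fam := false) (s1 := true) (s2 := true) (a := 0) (b := 1) (c := 1) (cn := .pnn) (n1 := ndB0q0) (n2 := ndB3q1) (pc := pcB1) (cut := Cut.none) (xt := Ext.none) (P1 := 0) (W1 := 536870912) (P2 := 536870912) (W2 := 536870912) (P3 := 697932185) (W3 := 42949674) (N0 := 3) (En := eng) (mo := mog) (C1 := cd0q0) (C2 := cd3q1) (C3 := pd1)
    rfl k0_pp_011

noncomputable def cut_pp_012_a : Cut := Cut.of [[⟨0, 0, 0, 67108864⟩, ⟨1, 1, 0, 67108864⟩, ⟨2, 1, 0, 67108864⟩]]

noncomputable def f_pp_012_a : ℕ → ℕ → ℕ → ℕ → Bool := onCell 536870912 536870912 0 536870912 697932185 42949674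
    (rowB 3 eng mog cd0q0 cd3q2a pd1 2 false true true .pnp 0 1 2 (qsf 0 536870912 0 536870912 1) ndB0q0 ndB3q2a pcB1 cut_pp_012_a Ext.none)

def k0_pp_012_a : ∃ t, chk3 f_pp_012_a t 2 1 1 = true :=
  ⟨(l 3), by decide +kernel⟩

def k1_pp_012_a : ∃ t, chk3 f_pp_012_a t 6 1 1 = true :=
  ⟨(b (a (l 3) (b (b (a (l 3) (a (a (l 3) (a (l 3) (b (b (c (a (l 40969823303) (l 30232401847)) (l 36137982455)) (l 3)) (l 3)))) (b (a (c (c (a (b (l 16699944) (l 16703312)) (l 20568725607)) (a (b (l 16698584) (l 16701984)) (l 22179336071))) (b (a (l 16701872) (l 16691672)) (a (l 33990496199) (c (l 16696032) (l 24326810951))))) (c (c (b (l 16687896) (l 16691400)) (a (l 16690664) (l 16685720))) (b (l 16684176) (a (l 16690336) (l 16685224))))) (b (a (a (l 3) (a (l 3) (c (l 24863687463) (l 31306133015)))) (c (c (l 13052531815) (a (l 16696232) (l 16691272))) (a (c (l 16694856) (l 33453614135)) (l 16689088)))) (a (l 3) (a (l 3) (a (c (l 24326811223) (l 31306127255)) (c (l 26474290695) (l 32916735863))))))))) (l 3)) (l 3))) (l 3)), by decide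 +kernel⟩

def k2_pp_012_a : ∃ t, chk3 f_pp_012_a t 28 4 1 = true :=
  ⟨(a (b (b (a (c (b (l 16677488) (l 16680816)) (b (l 16674248) (l 16677592))) (c (l 16669624) (l 16666120))) (a (c (c (b (l 16685216) (l 16689120)) (b (l 16683664) (l 17884355031))) (b (a (l 16683872) (l 16678696)) (a (l 31842989863) (l 16682640)))) (c (c (l 16677272) (l 16696552)) (a (l 16675512) (l 16670400))))) (b (a (a (c (c (l 16697808) (l 16273758327)) (b (l 27548029751) (l 3))) (c (c (l 16692896) (b (l 16689272) (l 16693536))) (b (l 27548020087) (l 22716189223)))) (c (c (b (l 16683136) (l 16687432)) (b (l 16681488) (a (l 16688448) (l 16683224)))) (a (b (l 16681512) (b (l 16684800) (l 16687016))) (b (l 16676200) (l 16680512))))) (a (l 3) (b (c (c (a (l 16694472) (l 16689416)) (a (l 16692920) (l 16687768))) (a (l 20031832951) (b (l 16683920) (l 16686208)))) (l 3))))) (b (b (a (c (l 16660472) (l 16656744)) (l 16649976)) (a (a (b (l 16665504) (l 16669056)) (l 16673072)) (a (l 16658048) (l 16653680)))) (b (a (c (a (b (l 16674776) (l 16678952))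 (l 16672016)) (b (l 16678984) (a (l 16675176) (l 16670056)))) (a (b (l 16663336) (l 16667304)) (l 16660800))) (a (c (b (a (c (l 16684288) (l 16682544)) (l 16678392)) (a (c (l 16689032) (l 16687272)) (c (l 16683984) (l 16682128)))) (b (a (c (l 16680664) (l 16678640)) (l 16674424)) (a (c (l 16695856) (l 29158626071)) (c (l 16680128) (l 16677976))))) (a (c (b (l 16673592) (l 16678184)) (b (l 16669448) (a (l 16675248) (l 16672784)))) (b (l 16666936) (l 16681944))))))), by decide +kernel⟩

def k3_pp_012_a : ∃ t, chk3 f_pp_012_a t 28 5 1 = true :=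
  ⟨(b (a (l 3) (b (a (a (l 3) (b (c (c (l 16688936) (l 16687072)) (c (l 20031824023) (l 23253045159))) (l 3))) (b (c (a (c (l 21642437703) (l 16682104)) (l 16678384)) (a (a (b (l 16678880) (l 16681408)) (l 16677664)) (l 16674064))) (a (a (l 3) (c (l 16273728471) (l 22179298087))) (c (c (l 20568697687) (l 16682544)) (a (l 29158615415) (l 16678072)))))) (a (l 3) (b (a (l 3) (a (l 3) (c (l 13052509879) (l 16683608)))) (l 3))))) (l 3)), by decide +kernel⟩

def k4_pp_012_a : ∃ t, chk3 f_pp_012_a t 29 2 1 = true :=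
  ⟨(b (a (b (b (a (l 16641944) (l 16634536)) (a (l 16647464) (l 16639776))) (b (a (b (l 16652440) (l 16656240)) (l 16646448)) (a (b (l 16676112) (a (l 16666976) (l 16662712))) (b (l 16652312) (l 16656664))))) (b (a (b (l 16627656) (l 16632648)) (l 16644568)) (a (b (l 16639128) (l 16647064)) (b (l 16632288) (l 16640104))))) (a (b (b (b (a (c (a (l 16673904) (l 16669624)) (l 16677768)) (l 16682344)) (a (a (c (b (l 16677704) (l 16680344)) (l 16674632)) (c (l 16674720) (l 16670256))) (a (l 16668440) (l 16664480)))) (a (a (a (b (c (l 24863665351) (l 16681280)) (l 3)) (b (c (l 30232369975) (l 16679008)) (c (b (l 16687704) (l 3)) (l 16684936)))) (b (c (c (l 16681128) (l 16679088)) (l 16675728)) (c (b (l 27548016823) (l 20568700983)) (l 21642430535)))) (a (b (l 16694824) (c (l 34527337223) (l 16677384))) (b (l 16669880) (l 16675640))))) (b (a (l 3) (a (b (c (b (l 16686256) (l 16689472)) (l 16694168)) (l 3)) (b (c (l 16694288) (l 16679624)) (c (l 28621776151) (l 16686368))))) (l 3))) (b (a (b (b (l 16653824) (l 16658848))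 (a (b (l 16666064) (l 16671824)) (l 16665320))) (b (a (l 16651048) (l 16647624)) (a (l 16661776) (l 16658328)))) (b (a (a (b (l 16677968) (c (l 16686416) (l 16682464))) (c (l 16690008) (l 16686024))) (c (a (l 16675936) (l 16672456)) (b (l 16666936) (l 16673624)))) (b (a (a (c (l 16703888) (l 16689688)) (c (l 16689560) (l 16685928))) (a (l 16690816) (l 16680792))) (a (a (l 3) (c (l 16707496) (l 16693656))) (a (c (l 16693232) (l 16689968)) (c (l 16689632) (l 16686440))))))))), by decide +kernel⟩

def k5_pp_012_a : ∃ t, chk3 f_pp_012_a t 15 2 1 = true :=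
  ⟨(a (b (a (b (b (l 16611536) (l 16616336)) (b (l 16643808) (a (l 16633528) (l 16627320)))) (b (l 16602512) (b (l 16610832) (l 16618528)))) (a (b (b (a (l 16642656) (l 16636368)) (a (l 16653360) (l 16646904))) (b (a (b (l 16662272) (l 16668752)) (l 16658928)) (a (c (b (l 16677216) (l 16684272)) (l 16695928)) (b (l 16668712) (l 16675704))))) (b (b (l 16627416) (a (l 16640616) (l 16634336))) (b (a (l 16652280) (l 16645648)) (a (l 16665264) (l 16658248)))))) (b (b (a (l 16592528) (l 16579056)) (a (l 16603616) (l 16593000))) (a (b (b (l 16615224) (l 16625096)) (b (l 16635872) (l 16655672))) (b (b (l 16603592) (l 16612688)) (b (l 16622480) (a (l 16637368) (l 16630552))))))), by decide +kernel⟩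

def k6_pp_012_a : ∃ t, chk3 f_pp_012_a t 14 3 1 = true :=
  ⟨(b (a (l 3) (b (a (l 3) (b (a (l 3) (a (b (c (l 16701056) (l 16698096)) (l 3)) (b (c (l 16697176) (l 16694288)) (c (l 16705264) (l 16702680))))) (l 3))) (l 3))) (l 3)), by decide +kernel⟩

def k7_pp_012_a : ∃ t, chk3 f_pp_012_a t 15 6 1 = true :=
  ⟨(a (b (b (a (b (a (c (l 16691640) (l 16688808)) (l 16683008)) (a (a (l 16700040) (l 16696232)) (l 16690624))) (a (b (l 16675720) (l 16683136)) (l 16682568))) (a (a (b (a (l 16708520) (l 16704392)) (c (l 60297219223) (l 21105639383))) (b (a (l 16700448) (l 16696608)) (a (l 16708840) (l 16704752)))) (a (b (l 16690832) (l 16709304)) (b (l 16683104) (l 16690864))))) (a (a (l 3) (b (b (a (l 3) (l 16713400)) (l 3)) (l 3))) (a (b (b (a (l 16709160) (l 16705096)) (a (l 16717984) (l 16713608))) (b (a (l 3) (b (l 16720248) (l 16725016))) (l 3))) (b (b (l 16698976) (a (l 16709440) (l 16705288))) (b (a (b (l 16715896) (l 16720432)) (l 16724440)) (a (b (l 16725192) (l 16730152)) (b (l 16720752) (c (l 16726072) (l 16730048)))))))))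 (b (a (b (c (l 16667640) (a (l 16663200) (l 16655768))) (a (b (l 16675416) (l 16682992)) (b (l 16667784) (l 16675192)))) (b (a (l 16629056) (l 16642768)) (a (b (l 16660184) (l 16667448)) (b (l 16652664) (l 16659736))))) (a (a (b (b (l 16690920) (l 16709640)) (b (c (l 16719048) (l 16717304)) (a (c (l 16730056) (l 16728616)) (l 16725168)))) (b (b (l 16682992) (l 16691088)) (b (l 16709992) (a (l 16710512) (l 16706336))))) (a (b (b (l 16675088) (l 16683024)) (b (l 16691288) (l 16700056))) (b (b (l 16667200) (l 16674944)) (b (l 16683024) (l 16691608))))))), by decide +kernel⟩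

def k8_pp_012_a : ∃ t, chk3 f_pp_012_a t 15 7 1 = true :=
  ⟨(a (b (a (l 3) (b (b (a (l 3) (a (l 3) (a (b (l 16731544) (l 3)) (b (l 16734392) (l 16734224))))) (l 3)) (l 3))) (l 3)) (b (a (b (a (b (a (a (b (l 16726928) (a (l 16732376) (l 16731208))) (b (l 16724800) (l 16734808))) (b (l 16721624) (l 16731608))) (a (b (a (l 3) (c (l 16737624) (l 16736632))) (l 3)) (a (b (l 25400623943) (b (l 16738600) (l 16738688))) (b (l 16730096) (c (l 16740776) (l 16739816)))))) (b (a (b (l 16717400) (l 16722104)) (l 16715528)) (a (b (l 16726880) (c (l 16732328) (l 16736520))) (b (l 16722576) (l 16727480))))) (a (a (l 3) (b (a (l 3) (b (b (l 16739024) (l 16741792)) (l 3))) (l 3))) (a (a (b (b (c (l 16738536) (l 16742912)) (b (l 16742144) (l 16744960))) (l 3)) (b (b (l 16735920) (c (l 16746832) (l 16746064))) (b (b (l 16747928) (l 16748168)) (l 3)))) (b (b (l 16732648) (c (l 16743576) (l 16742704))) (b (a (b (l 16742992) (l 16750944)) (l 16742112)) (l 6)))))) (a (b (b (l 16719616) (b (l 16716080) (l 16731416))) (b (a (c (l 16741896)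 (l 16740824)) (l 16736896)) (a (b (l 16743976) (l 6)) (l 6)))) (b (b (l 16711000) (a (l 16711928) (l 16707448))) (b (a (l 16721880) (l 6)) (l 6))))) (a (b (a (l 3) (l 6)) (l 3)) (l 6)))), by decide +kernel⟩

theorem s9_pp_012_a : ∃ t, chk3 f_pp_012_a t 15 3 1 = true := ex3_b k7_pp_012_a k8_pp_012_a

theorem s10_pp_012_a : ∃ t, chk3 f_pp_012_a t 7 3 1 = true := ex3_a k6_pp_012_a s9_pp_012_a

theorem s11_pp_012_a : ∃ t, chk3 f_pp_012_a t 28 2 1 = true := ex3_b k2_pp_012_a k3_pp_012_a

theorem s12_pp_012_a : ∃ t, chk3 f_pp_012_a t 14 2 1 = true := ex3_a s11_pp_012_a k4_pp_012_a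

theorem s13_pp_012_a : ∃ t, chk3 f_pp_012_a t 7 2 1 = true := ex3_a s12_pp_012_a k5_pp_012_a

theorem s14_pp_012_a : ∃ t, chk3 f_pp_012_a t 7 1 1 = true := ex3_b s13_pp_012_a s10_pp_012_a

theorem s15_pp_012_a : ∃ t, chk3 f_pp_012_a t 3 1 1 = true := ex3_a k1_pp_012_a s14_pp_012_a

theorem s16_pp_012_a : ∃ t, chk3 f_pp_012_a t 1 1 1 = true := ex3_a k0_pp_012_a s15_pp_012_a

theorem c_pp_012_a : CertB 0 536870912 0 536870912 697932185 42949674 3 eng mog cd0q0 cd3q2a pd1 false true true .pnp 0 1 2
    ndB0q0 ndB3q2a pcB1 cut_pp_012_a Ext.none :=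
  certB2 (fam := false) (s1 := true) (s2 := true) (a := 0) (b := 1) (c := 2) (cn := .pnp) (n1 := ndB0q0) (n2 := ndB3q2a) (pc := pcB1) (cut := cut_pp_012_a) (xt := Ext.none) (P1 := 0) (W1 := 536870912) (P2 := 0) (W2 := 536870912) (P3 := 697932185) (W3 := 42949674) (N0 := 3) (En := eng) (mo := mog) (C1 := cd0q0) (C2 := cd3q2a) (C3 := pd1)
    rfl (fun _ => rfl) s16_pp_012_a

noncomputable def cut_pp_012_b : Cut := Cut.of [[⟨0, 0, 0, 67108864⟩, ⟨1, 1, 0, 67108864⟩, ⟨2, 1, 0, 67108864⟩]]

noncomputable def f_pp_012_b : ℕ → ℕ → ℕ → ℕ → Bool := onCell 0 536870912 536870912 536870912 697932185 42949674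
    (rowB 3 eng mog cd0q0 cd3q2b pd1 1 false true true .pnp 0 1 2 (qsf 0 536870912 1239849684 370763052 1) ndB0q0 ndB3q2b pcB1 cut_pp_012_b Ext.none)

def k0_pp_012_b : ∃ t, chk3 f_pp_012_b t 1 2 1 = true :=
  ⟨(a (l 1) (l 3)), by decide +kernel⟩

def k1_pp_012_b : ∃ t, chk3 f_pp_012_b t 2 3 1 = true :=
  ⟨(b (l 1) (a (l 1) (b (a (l 1) (b (a (l 1) (b (l 1) (b (l 1) (a (l 1) (l 16692432))))) (b (a (l 1) (a (b (l 1) (l 16667648)) (a (l 16660104) (l 16649520)))) (a (a (l 1) (l 67142183031)) (a (l 16651328) (l 16640120)))))) (a (b (a (l 1) (a (l 1) (b (l 1) (l 127808523031)))) (a (b (l 1) (a (l 1) (l 228203315975))) (a (b (l 170758188087) (l 136935256887)) (b (l 16607384) (l 16553256))))) (b (b (a (a (l 98817524807) (b (l 16636744) (l 16597968))) (a (l 16604904) (l 16562288))) (a (a (l 16616768) (l 16592616)) (a (l 16548736) (l 16527104)))) (a (b (l 16601944) (l 16537256)) (b (l 16545440) (l 16491200)))))))), by decide +kernel⟩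

def k2_pp_012_b : ∃ t, chk3 f_pp_012_b t 6 6 1 = true :=
  ⟨(b (l 3) (b (l 3) (a (a (b (l 1) (a (l 1) (a (l 1) (a (l 1) (b (l 1) (b (l 1) (l 16684472))))))) (b (b (l 3) (b (a (l 1) (a (l 3) (l 3))) (a (a (l 1) (a (l 1) (c (l 95596431655) (l 104186382647)))) (a (c (b (a (l 41909351383) (l 16698368)) (l 16696008)) (a (l 40298735015) (l 16693040))) (c (c (l 16690184) (l 16688448)) (l 16691136)))))) (a (a (b (b (l 1) (c (l 30635054887) (l 48888671111))) (c (b (l 16688456) (l 16678944)) (l 16701496))) (b (b (c (a (l 45130577703) (l 16695792)) (l 41909349335)) (c (l 16699144) (l 16685544))) (c (l 16695392) (l 16670752)))) (a (b (c (c (l 16706120) (l 16704376)) (b (l 16685736) (l 16675944))) (c (l 16665328) (l 16661144))) (c (b (c (l 16676328) (l 16674368)) (l 16656416)) (b (b (l 16676296) (l 16666504)) (l 16651696))))))) (b (a (a (b (l 3) (a (b (l 3) (c (l 16680528) (l 16676600))) (c (l 44727886951) (l 40969777815)))) (l 3)) (l 3)) (a (a (c (b (c (a (l 16667776) (l 16659544)) (a (l 16665608) (l 16657224))) (a (l 16647776)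 (l 16639496))) (b (b (a (l 16667160) (l 16658448)) (l 16663456)) (a (l 16642560) (l 16633880)))) (b (b (c (l 16672120) (a (l 16650144) (l 16642216))) (c (l 16641904) (l 16636512))) (c (l 16627704) (l 16642680)))) (b (a (b (l 35064127703) (c (l 16627088) (l 16621648))) (c (l 16617256) (l 16633448))) (a (c (l 16612936) (l 16606904)) (c (l 16598848) (l 16593400))))))))), by decide +kernel⟩

def k3_pp_012_b : ∃ t, chk3 f_pp_012_b t 6 14 1 = true :=
  ⟨(a (b (a (b (a (a (l 1) (b (l 1) (l 41909327367))) (b (c (a (l 53720500215) (l 16674104)) (a (l 16701744) (l 16670688))) (c (l 16680896) (l 16677016)))) (a (b (c (l 16681664) (l 16678088)) (l 16661296)) (b (l 16659920) (l 16620392)))) (b (a (b (c (l 16680976) (l 16655840)) (c (l 16641040) (l 16636120))) (b (a (l 16643848) (l 16634696)) (a (l 16624528) (l 16615384)))) (a (b (l 16619576) (l 16601024)) (b (a (l 16605496) (l 16596360)) (a (l 16586968) (l 16577848)))))) (b (b (a (a (l 16622144) (l 16602224)) (a (l 16582888) (l 16574768))) (a (a (l 16604256) (l 16584368)) (a (l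 16565080) (l 16546544)))) (a (a (b (l 16586584) (l 16568752)) (b (l 16566712) (l 16549016))) (a (b (l 16547480) (l 16529928)) (b (l 16529032) (l 16511624)))))) (b (a (b (a (b (c (l 16624592) (l 16618360)) (c (l 16605664) (l 16598640))) (b (c (l 16608712) (l 16601904)) (c (l 16589784) (l 16582176)))) (a (b (c (l 16587000) (l 16579232)) (c (l 16568840) (l 16560400))) (b (c (l 16571144) (l 16562776)) (c (l 16553016) (l 16543960))))) (b (a (b (c (l 16593928) (l 16587072)) (c (l 16574976) (l 16567312))) (b (l 16576864) (l 16557480))) (a (b (l 16552312) (l 16533864)) (b (a (l 16541824) (l 16535056)) (l 16541312))))) (a (b (a (b (l 16546776) (l 16529120)) (c (l 16526632) (l 16537640))) (a (b (l 16511704) (l 16494432)) (b (l 16516800) (l 16478800)))) (b (a (b (a (l 16519536) (l 16512432)) (l 16498696)) (b (l 16503128) (l 16486560))) (a (b (l 16481920) (l 16465416)) (l 16461992)))))), by decide +kernel⟩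

def k4_pp_012_b : ∃ t, chk3 f_pp_012_b t 6 15 1 = true :=
  ⟨(a (b (a (a (b (l 16541840) (l 16506672)) (b (l 16522168) (l 16487048))) (a (b (l 16503176) (l 16468136)) (b (l 16485032) (l 16471048)))) (a (b (l 16504368) (a (l 16439160) (l 16419360))) (a (b (l 16433864) (l 16399792)) (b (l 16415656) (l 16381448))))) (b (a (a (b (b (l 16476912) (l 16459352)) (l 16433416)) (b (b (l 16461728) (l 16444544)) (l 16418872))) (b (a (l 16440216) (l 16428864)) (a (l 16406264) (l 16395152)))) (a (a (l 16403160) (b (l 16384944) (l 16351392))) (a (l 16376952) (l 16345240))))), by decide +kernel⟩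

def k5_pp_012_b : ∃ t, chk3 f_pp_012_b t 7 3 1 = true :=
  ⟨(a (b (b (l 3) (b (l 3) (b (l 3) (b (l 3) (a (a (l 16582808) (a (l 16572872) (l 16567248))) (a (l 16560728) (l 3))))))) (b (b (a (b (a (b (l 16584432) (l 16544520)) (b (l 16552112) (l 16534264))) (b (a (l 16526360) (l 16516640)) (l 16504176))) (b (a (b (l 16543632) (l 16525840)) (b (l 16536440) (l 16518704))) (b (a (l 16508192) (l 16501064)) (l 16508328)))) (b (a (a (l 16484120) (l 16474560)) (a (l 16466264) (l 16459368))) (a (a (l 16451488) (l 16442144)) (a (l 16434104) (l 16427552))))) (b (a (b (a (l 16418680) (l 16409696)) (l 16380680)) (a (b (l 16402088) (l 16369320)) (b (l 16417048) (l 16364032)))) (a (a (l 16356640) (l 16369496)) (c (l 16393584) (l 16305976)))))) (b (l 3) (a (b (b (b (c (b (l 16532440) (l 16515824)) (b (l 29695205495) (l 16525712))) (b (a (l 16495336) (l 16491096)) (a (l 16478360) (l 16474256)))) (b (a (l 16474928) (c (l 16458384) (l 16441408))) (c (a (l 16431344) (l 16429200)) (l 16411184)))) (b (b (c (a (l 16401936) (l 16400648))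 (l 16379560)) (c (l 16371488) (l 16347392))) (b (l 16371000) (l 16298872)))) (b (b (b (b (l 3) (a (l 16505744) (l 16504424))) (a (b (l 16488456) (l 16471896)) (b (l 16487680) (l 16471600)))) (b (c (a (l 16457584) (l 16458776)) (a (l 16438912) (l 16438296))) (c (a (l 16429336) (l 16431240)) (l 16407648)))) (b (b (c (c (l 16429344) (l 16396472)) (l 16377376)) (c (a (l 16373152) (l 16376752)) (l 16346824))) (c (a (l 16330776) (l 16335648)) (l 16301272))))))), by decide +kernel⟩

theorem s6_pp_012_b : ∃ t, chk3 f_pp_012_b t 6 7 1 = true := ex3_b k3_pp_012_b k4_pp_012_b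

theorem s7_pp_012_b : ∃ t, chk3 f_pp_012_b t 6 3 1 = true := ex3_b k2_pp_012_b s6_pp_012_b

theorem s8_pp_012_b : ∃ t, chk3 f_pp_012_b t 3 3 1 = true := ex3_a s7_pp_012_b k5_pp_012_b

theorem s9_pp_012_b : ∃ t, chk3 f_pp_012_b t 1 3 1 = true := ex3_a k1_pp_012_b s8_pp_012_b

theorem s10_pp_012_b : ∃ t, chk3 f_pp_012_b t 1 1 1 = true := ex3_b k0_pp_012_b s9_pp_012_b

theorem c_pp_012_b : CertB 0 536870912 1239849684 370763052 697932185 42949674 3 eng mog cd0q0 cd3q2b pd1 false true true .pnp 0 1 2
    ndB0q0 ndB3q2b pcB1 cut_pp_012_b Ext.none :=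
  certB1 (fam := false) (s1 := true) (s2 := true) (a := 0) (b := 1) (c := 2) (cn := .pnp) (n1 := ndB0q0) (n2 := ndB3q2b) (pc := pcB1) (cut := cut_pp_012_b) (xt := Ext.none) (P1 := 0) (W1 := 536870912) (P2 := 1239849684) (W2 := 370763052) (P3 := 697932185) (W3 := 42949674) (N0 := 3) (En := eng) (mo := mog) (C1 := cd0q0) (C2 := cd3q2b) (C3 := pd1)
    rfl (fun _ => rfl) s10_pp_012_b

noncomputable def cut_pp_022_a : Cut := Cut.of [[⟨0, 0, 0, 67108864⟩, ⟨1, 1, 0, 67108864⟩, ⟨2, 1, 0, 67108864⟩]]

noncomputable def f_pp_022_a : ℕ → ℕ → ℕ → ℕ → Bool := onCell 1073741824 536870912 0 536870912 697932185 42949674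
    (rowB 3 eng mog cd0q0 cd3q2a pd2 2 false true true .pp 0 2 2 (qsf 0 536870912 0 536870912 2) ndB0q0 ndB3q2a pcB2 cut_pp_022_a Ext.none)

def k0_pp_022_a : ∃ t, chk3 f_pp_022_a t 8 1 1 = true :=
  ⟨(b (b (a (a (b (l 16564432) (l 16575296)) (b (l 16549152) (l 16561696))) (b (a (l 16601304) (l 16516824)) (a (l 16576000) (l 16526936)))) (b (a (a (b (l 16586528) (l 16595832)) (l 16579296)) (a (l 16592264) (l 16541720))) (a (a (b (l 16606400) (a (l 16618224) (l 16618000))) (l 16601336)) (a (b (l 16575592) (l 16586600)) (b (l 16555160) (l 16565256)))))) (b (a (a (b (b (a (l 16631312) (l 16631080)) (a (b (l 16641824) (l 16649312)) (l 16645384))) (b (a (b (l 16657184) (l 16665328)) (l 16661024)) (a (b (l 16673808) (l 16682808)) (l 16677992)))) (b (b (l 16620080) (l 16633544)) (b (a (l 16653736) (l 16620968)) (a (l 16668912) (l 16677480))))) (b (a (b (l 16619280) (l 16631784)) (b (l 16576040) (l 16587488))) (a (b (a (l 16630008) (l 16617856)) (a (l 16643952) (l 16631168))) (b (a (l 16605624) (l 16593216)) (a (l 16639128)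 (b (l 16602024) (l 16607656))))))) (a (b (b (a (a (a (b (l 16692112) (l 16701664)) (b (l 16691968) (l 16701464))) (b (l 16691528) (l 16700928))) (a (b (l 16680568) (l 16688600)) (b (l 16667696) (l 16675304)))) (l 6)) (l 6)) (b (b (a (a (b (l 16654552) (l 16661688)) (b (l 16641096) (l 16647688))) (b (a (l 16627328) (l 16613168)) (a (a (l 16636944) (l 16629640)) (b (l 16617192) (l 16619696))))) (a (l 6) (a (l 6) (a (l 6) (l 1))))) (a (l 6) (l 1)))))), by decide +kernel⟩

def k1_pp_022_a : ∃ t, chk3 f_pp_022_a t 9 1 1 = true :=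
  ⟨(b (b (a (b (a (l 16500320) (l 16483744)) (a (l 16509040) (l 16490968))) (b (a (l 16467352) (l 16451224)) (a (l 16473008) (l 16455072)))) (a (b (a (l 16522216) (l 16502648)) (a (b (l 16534448) (l 16543592)) (b (l 16513528) (l 16521704)))) (b (a (l 16482944) (l 16483864)) (a (b (l 16492320) (l 16499216)) (b (l 16470304) (l 16475568)))))) (b (b (a (a (b (l 16553400) (l 16563696)) (b (l 16530296) (l 16570512))) (a (b (l 16506232) (a (l 16519752) (l 16506296))) (b (a (l 16487256) (l 16473936)) (l 1)))) (a (b (a (a (l 16580560) (l 16567616)) (a (l 16554328) (l 16540600))) (a (a (b (l 16588640) (l 16593688)) (b (l 16574880) (l 16579280))) (b (a (l 16560672) (l 1)) (l 1)))) (b (a (a (l 16526384) (l 1)) (l 1)) (l 1)))) (b (a (b (a (b (a (l 16609016) (l 16583384)) (a (l 16603048) (l 1))) (l 1)) (l 1)) (l 1)) (l 1)))), by decide +kernel⟩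

def k2_pp_022_a : ∃ t, chk3 f_pp_022_a t 5 1 1 = true :=
  ⟨(b (a (a (b (a (b (l 16434936) (l 16457608)) (a (b (l 16422288) (l 16422104)) (b (a (l 16415600) (a (l 16411960) (l 16409240))) (a (l 16414312) (a (l 16410016) (l 1)))))) (b (a (b (l 16440200) (l 16443408)) (a (l 16424968) (l 1))) (a (b (l 16446784) (l 16449992)) (l 1)))) (b (b (l 1) (l 1)) (l 1))) (l 1)) (b (l 1) (l 1))), by decide +kernel⟩

def k3_pp_022_a : ∃ t, chk3 f_pp_022_a t 3 1 1 = true :=
  ⟨(l 1), by decide +kernel⟩

theorem s4_pp_022_a : ∃ t, chk3 f_pp_022_a t 4 1 1 = true := ex3_a k0_pp_022_a k1_pp_022_a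

theorem s5_pp_022_a : ∃ t, chk3 f_pp_022_a t 2 1 1 = true := ex3_a s4_pp_022_a k2_pp_022_a

theorem s6_pp_022_a : ∃ t, chk3 f_pp_022_a t 1 1 1 = true := ex3_a s5_pp_022_a k3_pp_022_a

theorem c_pp_022_a : CertB 0 536870912 0 536870912 697932185 42949674 3 eng mog cd0q0 cd3q2a pd2 false true true .pp 0 2 2
    ndB0q0 ndB3q2a pcB2 cut_pp_022_a Ext.none :=
  certB2 (fam := false) (s1 := true) (s2 := true) (a := 0) (b := 2) (c := 2) (cn := .pp) (n1 := ndB0q0) (n2 := ndB3q2a) (pc := pcB2) (cut := cut_pp_022_a) (xt := Ext.none) (P1 := 0) (W1 := 536870912) (P2 := 0) (W2 := 536870912) (P3 := 697932185) (W3 := 42949674) (N0 := 3) (En := eng) (mo := mog) (C1 := cd0q0) (C2 := cd3q2a) (C3 := pd2)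
    rfl (fun _ => rfl) s6_pp_022_a

noncomputable def cut_pp_022_b : Cut := Cut.of [[⟨0, 0, 0, 67108864⟩, ⟨1, 1, 0, 67108864⟩, ⟨2, 1, 0, 67108864⟩]]

noncomputable def f_pp_022_b : ℕ → ℕ → ℕ → ℕ → Bool := onCell 0 536870912 1073741824 536870912 697932185 42949674
    (rowB 3 eng mog cd0q0 cd3q2b pd2 1 false true true .pp 0 2 2 (qsf 0 536870912 1239849684 370763052 2) ndB0q0 ndB3q2b pcB2 cut_pp_022_b Ext.none)

def k0_pp_022_b : ∃ t, chk3 f_pp_022_b t 2 4 1 = true :=
  ⟨(a (b (a (l 1) (b (a (l 1) (b (l 1) (a (l 1) (l 159483842327)))) (b (a (l 1) (a (b (l 1) (l 172905539239)) (b (l 16556808) (l 16518928)))) (a (a (l 1) (l 151430722631)) (a (l 150356950759) (l 16493928)))))) (a (a (b (l 1) (b (l 1) (a (l 1) (l 135324467047)))) (b (b (l 1) (a (l 1) (l 172368618231))) (b (a (l 158946809383) (l 16464344)) (a (l 16449080) (l 16431248))))) (a (b (b (a (l 162704979223) (l 16516792)) (a (l 16479976) (l 16462512))) (b (l 16480120) (l 16406048))) (b (b (l 16511624) (l 16437416)) (b (l 16405848) (l 16374936)))))) (a (b (b (a (b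 (a (l 97743752039) (l 16579072)) (l 106870459575)) (b (l 16543416) (l 16498208))) (a (b (l 16500736) (l 16468472)) (l 16452336))) (a (b (b (l 16457872) (l 16405984)) (b (l 16375656) (l 16346120))) (b (l 16392296) (l 16335848)))) (b (a (b (a (l 16474504) (l 16535208)) (l 16415816)) (b (a (l 16429376) (l 16450392)) (l 16395064))) (a (c (l 16395960) (l 16380824)) (b (l 16368248) (l 16278056)))))), by decide +kernel⟩

def k1_pp_022_b : ∃ t, chk3 f_pp_022_b t 2 5 1 = true :=
  ⟨(a (b (a (b (a (b (a (l 142303767415) (l 16433816)) (b (l 144988050487) (b (l 16405264) (a (l 16446872) (l 16388152))))) (b (l 16428352) (b (l 16383336) (b (l 16371400) (l 16363200))))) (b (a (a (l 16384768) (l 16368352)) (l 16343904)) (a (l 16338112) (l 16309416)))) (b (b (a (l 16374608) (l 16344608)) (a (b (l 16351440) (l 16377920)) (b (l 16322248) (l 16307824)))) (a (b (l 16313504) (l 16283136)) (l 16274128)))) (a (a (b (a (l 16283840) (l 16273720)) (a (l 16213320) (l 16208688))) (b (l 16258768) (l 16203248))) (a (b (l 16242632) (l 16197760))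 (l 16209736)))) (b (a (b (b (l 16306560) (a (l 16290696) (l 16266888))) (l 16323552)) (b (b (l 16315576) (a (l 16240600) (l 16219592))) (a (l 16204080) (l 16209768)))) (a (a (l 16198856) (l 16186544)) (l 16387808)))), by decide +kernel⟩

def k2_pp_022_b : ∃ t, chk3 f_pp_022_b t 2 3 1 = true :=
  ⟨(a (b (b (a (a (b (a (l 16156768) (l 16157936)) (a (l 16113424) (l 16118144))) (b (l 16159368) (l 16124216))) (a (l 16292592) (l 16150904))) (a (b (a (b (l 16090608) (l 16076432)) (l 16097144)) (a (l 16059080) (l 16077776))) (b (l 16117080) (l 16105016)))) (a (b (a (b (l 16042952) (l 16034480)) (l 16062640)) (a (l 16036176) (l 16068440))) (b (l 16099888) (l 16117304)))) (b (b (a (b (l 16163456) (l 16152056)) (l 16241872)) (a (l 16164112) (l 16172824))) (a (b (l 16153240) (l 2)) (l 2)))), by decide +kernel⟩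

def k3_pp_022_b : ∃ t, chk3 f_pp_022_b t 3 1 1 = true :=
  ⟨(b (b (a (a (b (a (b (a (l 16409040) (l 16368416)) (l 16337128)) (b (a (l 16350080) (l 16333752)) (l 16328392))) (a (b (l 16295672) (l 16253952)) (b (l 16272696) (l 16237664)))) (b (a (b (c (a (l 16327152) (l 16316016)) (l 16325792)) (c (l 16292648) (l 16278656))) (b (b (a (l 16302856) (l 16292992)) (c (l 16316696) (l 16276904))) (c (l 16319856) (l 16260856)))) (a (b (l 16257776) (l 16229336)) (b (l 16309312) (l 16222528))))) (a (b (b (a (c (b (l 16291336) (l 16281440)) (l 16265008)) (c (c (l 16283888) (l 16272560)) (l 16254448))) (a (c (l 16266328) (l 16247304)) (l 16251584))) (c (a (l 16235072) (l 16236184)) (l 16322568))) (b (b (a (c (b (l 16281560) (l 16275768)) (l 16251728)) (c (b (l 16290136) (l 16286464)) (l 16257320))) (a (l 16254560) (l 16266264))) (a (c (l 16246496) (l 16225496)) (l 2))))) (a (b (a (b (b (a (l 16222704) (l 16211368)) (a (l 16203648) (l 16195576))) (a (l 16177904) (l 16174720))) (b (b (a (l 16207736) (l 16204176)) (a (l 16195048)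 (l 16193640))) (a (l 16178800) (l 16180512)))) (a (a (l 16163800) (l 16174504)) (a (l 16191528) (l 2)))) (b (a (b (b (l 16201424) (l 2)) (l 2)) (l 2)) (l 2)))) (b (a (a (b (l 16143376) (l 2)) (l 2)) (l 2)) (l 2))), by decide +kernel⟩

theorem s4_pp_022_b : ∃ t, chk3 f_pp_022_b t 2 2 1 = true := ex3_b k0_pp_022_b k1_pp_022_b

theorem s5_pp_022_b : ∃ t, chk3 f_pp_022_b t 2 1 1 = true := ex3_b s4_pp_022_b k2_pp_022_b

theorem s6_pp_022_b : ∃ t, chk3 f_pp_022_b t 1 1 1 = true := ex3_a s5_pp_022_b k3_pp_022_b

theorem c_pp_022_b : CertB 0 536870912 1239849684 370763052 697932185 42949674 3 eng mog cd0q0 cd3q2b pd2 false true true .pp 0 2 2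
    ndB0q0 ndB3q2b pcB2 cut_pp_022_b Ext.none :=
  certB1 (fam := false) (s1 := true) (s2 := true) (a := 0) (b := 2) (c := 2) (cn := .pp) (n1 := ndB0q0) (n2 := ndB3q2b) (pc := pcB2) (cut := cut_pp_022_b) (xt := Ext.none) (P1 := 0) (W1 := 536870912) (P2 := 1239849684) (W2 := 370763052) (P3 := 697932185) (W3 := 42949674) (N0 := 3) (En := eng) (mo := mog) (C1 := cd0q0) (C2 := cd3q2b) (C3 := pd2)
    rfl (fun _ => rfl) s6_pp_022_b

noncomputable def f_pp_023 : ℕ → ℕ → ℕ → ℕ → Bool := onCell 0 536870912 1073741824 536870912 697932185 42949674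
    (rowB 3 eng mog cd0q0 cd3q3 pd2 1 false true true .up 0 2 3 (qsf 0 536870912 1610612736 536870912 2) ndB0q0 ndB3q3 pcB2 Cut.none Ext.none)

def k0_pp_023 : ∃ t, chk3 f_pp_023 t 1 1 1 = true :=
  ⟨(a (b (b (l 1) (a (l 1) (b (l 1) (a (l 1) (l 222297245431))))) (a (b (a (l 1) (b (l 1) (l 326450164887))) (a (b (l 364567634151) (l 256119639351)) (b (l 16111536) (l 16130696)))) (b (b (a (l 294237802663) (l 245382413687)) (a (l 251288395431) (l 16185424))) (a (b (l 16163992) (l 16193736)) (l 16400000))))) (b (b (a (a (l 1) (b (l 1) (b (l 1) (l 171294711511)))) (b (a (b (l 1) (l 217465496711)) (a (l 221760403223) (b (l 243772051847) (l 16247000)))) (a (a (l 176663224487) (l 16211800)) (a (l 16220392) (l 16239480))))) (a (b (a (b (l 1) (a (l 1) (l 16163904))) (b (a (l 132103070439) (l 144987880119)) (l 153040962071))) (a (a (l 16145944) (l 16158384)) (a (l 16177672) (l 16190208)))) (b (a (b (b (l 16187704) (l 16180288)) (l 16172072)) (b (b (l 16217768) (l 16215464)) (l 16214568))) (a (l 16206872) (l 16267864))))) (b (a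 (a (b (l 16143008) (l 16183408)) (b (l 16200040) (l 16203344))) (b (a (l 16259760) (l 16361200)) (a (l 16348840) (l 16461216)))) (a (a (l 16278632) (l 16306384)) (b (l 16376080) (l 16571488)))))), by decide +kernel⟩

theorem c_pp_023 : CertB 0 536870912 1610612736 536870912 697932185 42949674 3 eng mog cd0q0 cd3q3 pd2 false true true .up 0 2 3
    ndB0q0 ndB3q3 pcB2 Cut.none Ext.none :=
  certB1 (fam := false) (s1 := true) (s2 := true) (a := 0) (b := 2) (c := 3) (cn := .up) (n1 := ndB0q0) (n2 := ndB3q3) (pc := pcB2) (cut := Cut.none) (xt := Ext.none) (P1 := 0) (W1 := 536870912) (P2 := 1610612736) (W2 := 536870912) (P3 := 697932185) (W3 := 42949674) (N0 := 3) (En := eng) (mo := mog) (C1 := cd0q0) (C2 := cd3q3) (C3 := pd2)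
    rfl (fun _ => rfl) k0_pp_023

noncomputable def f_pp_033 : ℕ → ℕ → ℕ → ℕ → Bool := onCell 0 536870912 1610612736 536870912 697932185 42949674
    (rowB 3 eng mog cd0q0 cd3q3 pd3 1 false true true .pnn 0 3 3 (qsf 0 536870912 1610612736 536870912 3) ndB0q0 ndB3q3 pcB3 Cut.none Ext.none)

def k0_pp_033 : ∃ t, chk3 f_pp_033 t 1 1 1 = true :=
  ⟨(a (b (b (a (b (a (l 16078624) (l 16135160)) (a (l 16028728) (l 16071064))) (b (a (l 16190368) (l 16280632)) (a (l 16162352) (l 16288104)))) (a (b (a (l 16000952) (l 16092160)) (a (l 16056608) (l 16147208))) (b (a (l 16202880) (l 16329880)) (a (l 16256672) (l 16380216))))) (a (b (b (a (l 4) (l 4)) (l 4)) (l 4)) (b (l 4) (a (b (l 4) (l 2)) (l 2))))) (b (a (b (b (a (l 16402104) (l 16504768)) (a (l 16413168) (l 16511832))) (b (a (l 16451632) (l 16549000)) (a (l 16497936) (l 4)))) (b (b (l 16603192) (a (l 16576880) (l 16646256))) (a (b (l 16627544) (l 2)) (l 2)))) (a (b (a (b (l 4) (l 2)) (l 2)) (l 2)) (l 2)))), by decide +kernel⟩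

theorem c_pp_033 : CertB 0 536870912 1610612736 536870912 697932185 42949674 3 eng mog cd0q0 cd3q3 pd3 false true true .pnn 0 3 3
    ndB0q0 ndB3q3 pcB3 Cut.none Ext.none :=
  certB1 (fam := false) (s1 := true) (s2 := true) (a := 0) (b := 3) (c := 3) (cn := .pnn) (n1 := ndB0q0) (n2 := ndB3q3) (pc := pcB3) (cut := Cut.none) (xt := Ext.none) (P1 := 0) (W1 := 536870912) (P2 := 1610612736) (W2 := 536870912) (P3 := 697932185) (W3 := 42949674) (N0 := 3) (En := eng) (mo := mog) (C1 := cd0q0) (C2 := cd3q3) (C3 := pd3)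
    rfl (fun _ => rfl) k0_pp_033

noncomputable def f_pp_101 : ℕ → ℕ → ℕ → ℕ → Bool := onCell 536870912 536870912 536870912 536870912 697932185 42949674
    (rowB 3 eng mog cd0q1 cd3q1 pd0 0 false true true .npn 1 0 1 (qsf 536870912 536870912 536870912 536870912 0) ndB0q1 ndB3q1 pcB0 Cut.none Ext.none)

def k0_pp_101 : ∃ t, chk3 f_pp_101 t 1 1 1 = true :=
  ⟨(l 3), by decide +kernel⟩

theorem c_pp_101 : CertB 536870912 536870912 536870912 536870912 697932185 42949674 3 eng mog cd0q1 cd3q1 pd0 false true true .npn 1 0 1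
    ndB0q1 ndB3q1 pcB0 Cut.none Ext.none :=
  certB0 (fam := false) (s1 := true) (s2 := true) (a := 1) (b := 0) (c := 1) (cn := .npn) (n1 := ndB0q1) (n2 := ndB3q1) (pc := pcB0) (cut := Cut.none) (xt := Ext.none) (P1 := 536870912) (W1 := 536870912) (P2 := 536870912) (W2 := 536870912) (P3 := 697932185) (W3 := 42949674) (N0 := 3) (En := eng) (mo := mog) (C1 := cd0q1) (C2 := cd3q1) (C3 := pd0)
    rfl k0_pp_101

noncomputable def f_pp_102_a : ℕ → ℕ → ℕ → ℕ → Bool := onCell 536870912 536870912 0 536870912 697932185 42949674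
    (rowB 3 eng mog cd0q1 cd3q2a pd0 0 false true true .npp 1 0 2 (qsf 536870912 536870912 0 536870912 0) ndB0q1 ndB3q2a pcB0 Cut.none Ext.none)

def k0_pp_102_a : ∃ t, chk3 f_pp_102_a t 1 1 1 = true :=
  ⟨(l 3), by decide +kernel⟩

theorem c_pp_102_a : CertB 536870912 536870912 0 536870912 697932185 42949674 3 eng mog cd0q1 cd3q2a pd0 false true true .npp 1 0 2
    ndB0q1 ndB3q2a pcB0 Cut.none Ext.none :=
  certB0 (fam := false) (s1 := true) (s2 := true) (a := 1) (b := 0) (c := 2) (cn := .npp) (n1 := ndB0q1) (n2 := ndB3q2a) (pc := pcB0) (cut := Cut.none) (xt := Ext.none) (P1 := 536870912) (W1 := 536870912) (P2 := 0) (W2 := 536870912) (P3 := 697932185) (W3 := 42949674) (N0 := 3) (En := eng) (mo := mog) (C1 := cd0q1) (C2 := cd3q2a) (C3 := pd0)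
    rfl k0_pp_102_a

noncomputable def f_pp_102_b : ℕ → ℕ → ℕ → ℕ → Bool := onCell 536870912 536870912 0 536870912 697932185 42949674
    (rowB 3 eng mog cd0q1 cd3q2b pd0 1 false true true .npp 1 0 2 (qsf 536870912 536870912 1239849684 370763052 0) ndB0q1 ndB3q2b pcB0 Cut.none Ext.none)

def k0_pp_102_b : ∃ t, chk3 f_pp_102_b t 1 1 1 = true :=
  ⟨(l 3), by decide +kernel⟩

theorem c_pp_102_b : CertB 536870912 536870912 1239849684 370763052 697932185 42949674 3 eng mog cd0q1 cd3q2b pd0 false true true .npp 1 0 2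
    ndB0q1 ndB3q2b pcB0 Cut.none Ext.none :=
  certB1 (fam := false) (s1 := true) (s2 := true) (a := 1) (b := 0) (c := 2) (cn := .npp) (n1 := ndB0q1) (n2 := ndB3q2b) (pc := pcB0) (cut := Cut.none) (xt := Ext.none) (P1 := 536870912) (W1 := 536870912) (P2 := 1239849684) (W2 := 370763052) (P3 := 697932185) (W3 := 42949674) (N0 := 3) (En := eng) (mo := mog) (C1 := cd0q1) (C2 := cd3q2b) (C3 := pd0)
    rfl (fun _ => rfl) k0_pp_102_b

noncomputable def f_pp_112_a : ℕ → ℕ → ℕ → ℕ → Bool := onCell 536870912 536870912 0 536870912 697932185 42949674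
    (rowB 3 eng mog cd0q1 cd3q2a pd1 0 false true true .dn 1 1 2 (qsf 536870912 536870912 0 536870912 1) ndB0q1 ndB3q2a pcB1 Cut.none Ext.none)

def k0_pp_112_a : ∃ t, chk3 f_pp_112_a t 1 1 1 = true :=
  ⟨(l 3), by decide +kernel⟩

theorem c_pp_112_a : CertB 536870912 536870912 0 536870912 697932185 42949674 3 eng mog cd0q1 cd3q2a pd1 false true true .dn 1 1 2
    ndB0q1 ndB3q2a pcB1 Cut.none Ext.none :=
  certB0 (fam := false) (s1 := true) (s2 := true) (a := 1) (b := 1) (c := 2) (cn := .dn) (n1 := ndB0q1) (n2 := ndB3q2a) (pc := pcB1) (cut := Cut.none) (xt := Ext.none) (P1 := 536870912) (W1 := 536870912) (P2 := 0) (W2 := 536870912) (P3 := 697932185) (W3 := 42949674) (N0 := 3) (En := eng) (mo := mog) (C1 := cd0q1) (C2 := cd3q2a) (C3 := pd1)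
    rfl k0_pp_112_a

noncomputable def f_pp_112_b : ℕ → ℕ → ℕ → ℕ → Bool := onCell 536870912 536870912 536870912 536870912 697932185 42949674
    (rowB 3 eng mog cd0q1 cd3q2b pd1 1 false true true .dn 1 1 2 (qsf 536870912 536870912 1239849684 370763052 1) ndB0q1 ndB3q2b pcB1 Cut.none Ext.none)

def k0_pp_112_b : ∃ t, chk3 f_pp_112_b t 1 1 1 = true :=
  ⟨(b (l 3) (a (b (a (l 3) (l 3)) (a (b (b (b (a (a (a (a (l 18957745767) (l 3)) (l 3)) (l 3)) (l 3)) (b (a (a (a (l 16488712) (a (l 16490384) (l 16491888))) (a (l 14125862935) (l 3))) (l 3)) (a (a (a (l 16472904) (a (l 16474784) (l 16476456))) (c (a (l 16490776) (l 16497408)) (a (l 16468136) (l 16473328)))) (a (a (c (l 27010832407) (l 16480416)) (c (l 100025300679) (l 16489552))) (l 3))))) (b (a (a (c (a (l 16461376) (l 16465264)) (a (l 16439232) (l 16441632))) (c (a (l 16491568) (l 16477808)) (a (l 16445584) (l 16451352)))) (a (c (c (a (l 16493784) (b (l 16532432) (l 16500304))) (l 16485600)) (a (l 16459104) (c (l 16476624) (l 71034138711)))) (b (b (b (l 3) (l 2)) (l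 2)) (l 2)))) (a (a (c (a (l 16434576) (l 16439224)) (l 16410872)) (c (a (l 16445352) (c (l 16460496) (l 16446320))) (l 16420464))) (a (c (c (a (l 16492184) (c (l 15669395575) (l 16480488))) (l 16462120)) (l 16438008)) (l 2))))) (a (c (b (a (b (a (l 16408264) (l 16413744)) (c (a (l 16389120) (l 16396008)) (l 16377224))) (b (a (l 16420752) (l 16429848)) (c (b (l 16415104) (l 16445432)) (l 16392816)))) (b (a (l 16379544) (l 16376824)) (a (l 16332888) (l 2)))) (b (a (b (l 16382128) (l 16353424)) (b (l 16393440) (l 16366720))) (a (l 16310264) (l 16326240)))) (a (a (b (c (b (c (l 16449400) (l 16433008)) (l 2)) (l 16394800)) (l 2)) (l 2)) (l 2)))) (b (b (l 3) (l 2)) (l 2)))) (b (l 3) (l 2)))), by decide +kernel⟩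

theorem c_pp_112_b : CertB 536870912 536870912 1239849684 370763052 697932185 42949674 3 eng mog cd0q1 cd3q2b pd1 false true true .dn 1 1 2
    ndB0q1 ndB3q2b pcB1 Cut.none Ext.none :=
  certB1 (fam := false) (s1 := true) (s2 := true) (a := 1) (b := 1) (c := 2) (cn := .dn) (n1 := ndB0q1) (n2 := ndB3q2b) (pc := pcB1) (cut := Cut.none) (xt := Ext.none) (P1 := 536870912) (W1 := 536870912) (P2 := 1239849684) (W2 := 370763052) (P3 := 697932185) (W3 := 42949674) (N0 := 3) (En := eng) (mo := mog) (C1 := cd0q1) (C2 := cd3q2b) (C3 := pd1)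
    rfl (fun _ => rfl) k0_pp_112_b

end Pool.Agent.Strip051.G.I6500_6900.Tab.C.BB03

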