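import Pool.Agent.Strip051.G.I6500_6900.Tab
import Pool.Agent.Strip051.PB.ExtD2

/-! # Certificates B25 (generated) -/

set_option linter.all false
set_option maxRecDepth 100000

namespace Pool.Agent.Strip051.G.I6500_6900.Tab.C.BB04

open Pool.Agent.Strip051.PB Pool.Agent.Strip051.PB.T
open Pool.Agent.Strip051.G.I6500_6900.Tab

noncomputable def cut_pp_113 : Cut := Cut.of [[⟨0, 1, 0, 67108864⟩, ⟨1, 1, 0, 67108864⟩, ⟨2, 2, 0, 16777216⟩]]

noncomputable def xt_pp_113 : Ext := extD2 3 ⟨7, 3, 3, 10, 49, 25, 3, 4, 67, 200, 3, 16⟩ eng cd0q1 cd4q3 pd1 false true true .nn 1 1 3 rfl ndB0q1 ndB4q3 pcB1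

noncomputable def f_pp_113 : ℕ → ℕ → ℕ → ℕ → Bool := onCell 536870912 536870912 536870912 536870912 697932185 42949674
    (rowB 3 eng mog cd0q1 cd4q3 pd1 1 false true true .nn 1 1 3 (qsf 536870912 536870912 1610612736 536870912 1) ndB0q1 ndB4q3 pcB1 cut_pp_113 xt_pp_113)

def k0_pp_113 : ∃ t, chk3 f_pp_113 t 1 2 1 = true :=
  ⟨(l 3), by decide +kernel⟩

def k1_pp_113 : ∃ t, chk3 f_pp_113 t 1 6 1 = true :=
  ⟨(l 3), by decide +kernel⟩

def k2_pp_113 : ∃ t, chk3 f_pp_113 t 2 14 1 = true :=
  ⟨(l 3), by decide +kernel⟩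

def k3_pp_113 : ∃ t, chk3 f_pp_113 t 2 30 1 = true :=
  ⟨(l 3), by decide +kernel⟩

def k4_pp_113 : ∃ t, chk3 f_pp_113 t 4 31 1 = true :=
  ⟨(a (a (b (b (l 3) (b (a (l 1) (c (c (l 140960928937246735) (a (l 141088403530530831) (l 141083318296199183))) (a (c (l 141163376448815119) (l 38821633111)) (c (l 141164338527059983) (l 1956041976277752884268023823))))) (a (a (l 1) (c (l 140729756578906127) (l 16340016))) (c (l 140889254495010831) (c (l 141043460952047631) (a (l 16334616) (l 141093282543992847))))))) (c (a (a (c (l 140548199701348367) (l 55330445239)) (l 140822390404251663)) (b (l 140674025077014543) (l 140521811413352463))) (a (b (a (l 16328936) (l 16330488)) (l 16316680)) (c (b (a (l 16340328) (l 140851871035768847)) (l 140594791445266447)) (b (a (l 16325008) (l 16327304)) (l 16313256)))))) (b (b (l 3) (c (a (a (a (l 140945673201729551) (l 1414443209090164749388955663)) (l 141027311952953359)) (l 141398946901901327)) (a (a (a (c (l 141102009960529935) (l 1723928218911720718099791887)) (a (c (l 141280749322371087) (l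 1675571186127144965682184207)) (c (l 2884497005741211327908855823) (l 1907684943493018596016701455)))) (a (b (l 141613007986769935) (l 140759993109643279)) (l 1752942438582111453384458255))) (l 141260408362188815)))) (a (a (c (l 140995769669992463) (b (c (l 140673062964772879) (b (a (l 16332560) (l 16355160)) (l 16327184))) (l 140607916858933263))) (b (c (l 140710034107727887) (l 140661243205845007)) (l 140870700184633359))) (c (l 141371733958950927) (l 141034939724382223))))) (b (b (l 3) (c (a (a (l 140910145294958607) (l 141008689063362575)) (a (l 669744904208119495121092623) (a (l 1269372110736673268820033551) (l 1346743363192131306949640207)))) (a (a (l 140705429893595151) (l 140738209117110287)) (a (l 1008244133699861827417456655) (l 892187255017066814961434639))))) (c (a (a (l 140706392018649103) (l 141174028099338255)) (a (b (l 141038101031911439) (l 140921277907632143)) (b (l 141261576829632527) (l 141158497603452943)))) (a (a (l 140661174518169615) (l 140701031850409999)) (a (b (l 140687562886250511) (l 140554521962233871))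 (b (l 140846992125624335) (l 140727832538595343))))))), by decide +kernel⟩

def k5_pp_113 : ∃ t, chk3 f_pp_113 t 5 62 1 = true :=
  ⟨(b (l 3) (b (l 3) (a (a (a (a (a (l 141289408216498191) (l 141363281671225359)) (l 141487457836367887)) (c (l 1462800241875718036778713103) (l 141524772561797135))) (a (a (l 1733599625469487811974086671) (c (l 1849656504153000255881084943) (l 1549842900888023701594963983))) (a (l 3290696081133563259183824911) (l 3)))) (l 3)))), by decide +kernel⟩

def k6_pp_113 : ∃ t, chk3 f_pp_113 t 10 63 1 = true :=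
  ⟨(a (a (a (b (a (l 141211274162913295) (l 141287965116727311)) (l 141150801021861903)) (b (l 141416264408399887) (l 141326241885339663))) (b (c (l 141960454066847759) (l 141456877626376207)) (a (l 141525665850720271) (l 141733885910859791)))) (b (a (a (c (l 142309342926176271) (l 141772987288059919)) (b (l 142279793538744335) (l 142203995945664527))) (a (b (l 142463893057536015) (l 142375244919570447)) (b (l 1878670723823701328179953679) (l 142468840862973967)))) (a (a (l 141916954637352975) (l 142085935868280847)) (l 142318894931443727)))), by decide +kernel⟩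

def k7_pp_113 : ∃ t, chk3 f_pp_113 t 11 63 1 = true :=
  ⟨(a (a (b (a (b (b (l 1472471648433117549632487439) (l 142629988063313935)) (l 142557007966584847)) (b (a (l 1714256812356080630528999567) (b (l 1201672264839722570529210447) (c (l 142916136018755663) (l 142549242616037519)))) (b (a (l 142643800680366223) (l 142522442009051215)) (l 142464030487150671)))) (b (a (l 142461693993140239) (l 142434343669416015)) (a (l 142387545665601551) (l 16576816)))) (a (b (b (a (c (b (c (l 143098105227460815) (l 1017915540258444071609499791)) (l 142988222763155535)) (b (a (l 1027586946815067397869256847) (l 988901320587446199683727503)) (l 142640295939768463))) (c (c (l 143167786790486223) (l 1491814461547464744895021199)) (b (l 930872881246039450663157903) (l 142767701917024399)))) (c (l 143011381233057871) (l 142696164887330959))) (c (l 142963964788588623) (l 142679672256970895))) (a (b (b (c (a (l 1453128835319943464839757903) (l 1424114615649237101036323023)) (c (l 1433786022205926191898263695) (l 1424114615648676075119165583)))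 (c (l 143147926859071567) (a (l 142852501769765007) (l 142913318518341775)))) (b (a (l 142967675638284367) (l 143019558853083215)) (l 16633032))) (b (c (b (l 1375757582864709520991748303) (l 143229565613899983)) (b (b (l 795473189449441363852624015) (l 143006158526922895)) (l 142996056785502351))) (c (l 143179812706549967) (l 142975303503560847)))))) (a (b (b (a (b (l 3) (c (c (l 143415864152342735) (l 143314228025917647)) (c (l 143212248302485583) (l 143109924896161935)))) (b (l 3) (c (l 1482143054991095337104031951) (c (l 143382603923882191) (l 143309761265451087))))) (c (a (a (l 143303713945190607) (l 143373120631947471)) (l 143467609933988047)) (c (a (l 143196648980316239) (l 143364874297442511)) (l 143023407141175375)))) (c (a (c (l 16689152) (l 16681264)) (l 143413390259650767)) (c (a (l 143165381616173135) (l 16691880)) (l 143004715443929167)))) (a (c (b (c (l 1607871340231259900829974799) (l 1617542746788111307115741455)) (l 16711600)) (b (c (b (l 143537909977661647) (l 16710336)) (b (l 1124902506522027478447335631)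 (l 16707632))) (b (l 16708104) (l 16707168)))) (c (b (c (l 1540773773320988717940124943) (l 1560116743808576552603577615)) (l 16722832)) (b (c (l 1579460520188485841929350415) (l 1473073795124924687037312207)) (l 16723880)))))), by decide +kernel⟩

def k8_pp_113 : ∃ t, chk3 f_pp_113 t 3 14 1 = true :=
  ⟨(l 3), by decide +kernel⟩

def k9_pp_113 : ∃ t, chk3 f_pp_113 t 3 30 1 = true :=
  ⟨(l 3), by decide +kernel⟩

def k10_pp_113 : ∃ t, chk3 f_pp_113 t 3 62 1 = true :=
  ⟨(a (l 3) (l 3)), by decide +kernel⟩

def k11_pp_113 : ∃ t, chk3 f_pp_113 t 3 126 1 = true :=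
  ⟨(a (a (a (a (c (a (a (l 89288297463) (l 88751438775)) (b (l 134385485175) (l 16746512))) (a (a (l 2188758716925765368394128399) (l 2237116370270350390035651599)) (b (l 152102246487) (l 16754584)))) (b (l 3) (a (c (l 16755136) (l 110763216759)) (c (l 16785464) (b (l 126869370135) (l 16780056)))))) (b (l 3) (a (a (c (l 116668814199) (c (l 123648151383) (l 127406273703))) (c (c (l 16802616) (l 126332511063)) (b (c (l 147270499223) (l 151028625271)) (l 16809376)))) (a (c (c (l 130627463095) (l 134922453799)) (b (c (l 159081674199) (l 163913537127)) (l 16845864))) (c (c (l 139754270391) (l 142975542631)) (c (l 146733677175) (l 159081671063))))))) (b (l 3) (a (b (l 3) (a (a (c (l 16822544) (l 139754404199)) (c (l 16833400) (l 16870544))) (a (c (l 16842936) (l 16891456)) (c (l 16851200) (l 164987428231))))) (a (a (c (l 173577288855) (c (l 178409179591) (l 228874970263))) (l 3)) (l 3))))) (a (l 3) (l 3))), by decide +kernel⟩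

def k12_pp_113 : ∃ t, chk3 f_pp_113 t 6 127 1 = true :=
  ⟨(a (a (a (c (b (l 16739024) (l 16735912)) (a (l 16738552) (l 16751736))) (a (b (l 16778872) (l 16754984)) (c (l 16759016) (l 16776712)))) (a (a (c (l 16769232) (l 16832448)) (c (l 16780328) (b (l 16806768) (l 16803184)))) (c (b (a (l 16794352) (l 16806760)) (l 16817024)) (b (a (l 16821936) (l 16837384)) (l 16815080))))) (a (a (c (b (a (l 16818688) (l 16829232)) (l 16818840)) (b (a (l 16852080) (l 16865040)) (l 16853496))) (c (a (l 16856488) (l 16822280)) (b (a (l 16876304) (l 16906896)) (l 16895968)))) (a (c (b (c (l 16867552) (l 16857400)) (l 16838040)) (c (a (l 16879416) (l 16925912)) (a (b (l 16905328) (l 16897976)) (b (l 16890328) (l 16901416))))) (a (c (l 16857664) (b (l 16859792) (l 16891032))) (c (l 16881552) (l 180556538727)))))), by decide +kernel⟩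

def k13_pp_113 : ∃ t, chk3 f_pp_113 t 7 127 1 = true :=
  ⟨(a (a (a (b (c (b (l 177335231463) (l 16803872)) (l 240686049047)) (c (l 16839144) (l 16892336))) (b (b (l 3) (a (l 16821680) (l 241222865911))) (c (l 16862928) (l 16819048)))) (c (a (a (l 192904539415) (l 234243564407)) (a (l 251960272695) (l 258939575815))) (b (b (l 3) (a (a (l 16802992) (l 276656329591)) (c (l 292225584039) (l 538112516039)))) (a (l 16792232) (a (l 16796936) (l 16784792)))))) (a (b (l 3) (a (b (c (l 262160798327) (a (l 268066365175) (l 348060211127))) (a (l 16767728) (l 16769032))) (a (c (l 261087041911) (b (a (l 364703177047) (l 374903717143)) (l 16806744))) (b (c (l 1248392702343) (b (l 3) (l 858087529687))) (c (l 16783464) (a (l 16801560) (l 325511599431))))))) (b (l 3) (b (l 3) (a (a (c (b (a (l 16781952) (l 284709365575)) (l 16780976)) (b (a (l 349133902983) (c (l 359334444007) (l 368461242167))) (a (l 16795952) (l 16793056)))) (c (b (a (l 359871329479) (l 812453490343)) (c (l 248202144951) (a (l 16794848) (l 16791424)))) (b (a (c (l 377588049671)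 (l 385641106327)) (c (l 703468687287) (l 627233011895))) (a (c (l 16791896) (l 16788664)) (c (l 324437827831) (b (l 338396462519) (l 16786712))))))) (b (l 3) (a (a (a (c (c (l 16785512) (l 16788904)) (c (l 335712112599) (l 343228299751))) (l 6)) (l 6)) (l 6)))))))), by decide +kernel⟩

theorem s14_pp_113 : ∃ t, chk3 f_pp_113 t 3 127 1 = true := ex3_a k12_pp_113 k13_pp_113

theorem s15_pp_113 : ∃ t, chk3 f_pp_113 t 3 63 1 = true := ex3_b k11_pp_113 s14_pp_113

theorem s16_pp_113 : ∃ t, chk3 f_pp_113 t 3 31 1 = true := ex3_b k10_pp_113 s15_pp_113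

theorem s17_pp_113 : ∃ t, chk3 f_pp_113 t 3 15 1 = true := ex3_b k9_pp_113 s16_pp_113

theorem s18_pp_113 : ∃ t, chk3 f_pp_113 t 3 7 1 = true := ex3_b k8_pp_113 s17_pp_113

theorem s19_pp_113 : ∃ t, chk3 f_pp_113 t 5 63 1 = true := ex3_a k6_pp_113 k7_pp_113

theorem s20_pp_113 : ∃ t, chk3 f_pp_113 t 5 31 1 = true := ex3_b k5_pp_113 s19_pp_113

theorem s21_pp_113 : ∃ t, chk3 f_pp_113 t 2 31 1 = true := ex3_a k4_pp_113 s20_pp_113

theorem s22_pp_113 : ∃ t, chk3 f_pp_113 t 2 15 1 = true := ex3_b k3_pp_113 s21_pp_113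

theorem s23_pp_113 : ∃ t, chk3 f_pp_113 t 2 7 1 = true := ex3_b k2_pp_113 s22_pp_113

theorem s24_pp_113 : ∃ t, chk3 f_pp_113 t 1 7 1 = true := ex3_a s23_pp_113 s18_pp_113

theorem s25_pp_113 : ∃ t, chk3 f_pp_113 t 1 3 1 = true := ex3_b k1_pp_113 s24_pp_113

theorem s26_pp_113 : ∃ t, chk3 f_pp_113 t 1 1 1 = true := ex3_b k0_pp_113 s25_pp_113

theorem c_pp_113 : CertB 536870912 536870912 1610612736 536870912 697932185 42949674 3 eng mog cd0q1 cd4q3 pd1 false true true .nn 1 1 3
    ndB0q1 ndB4q3 pcB1 cut_pp_113 xt_pp_113 :=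
  certB1 (fam := false) (s1 := true) (s2 := true) (a := 1) (b := 1) (c := 3) (cn := .nn) (n1 := ndB0q1) (n2 := ndB4q3) (pc := pcB1) (cut := cut_pp_113) (xt := xt_pp_113) (P1 := 536870912) (W1 := 536870912) (P2 := 1610612736) (W2 := 536870912) (P3 := 697932185) (W3 := 42949674) (N0 := 3) (En := eng) (mo := mog) (C1 := cd0q1) (C2 := cd4q3) (C3 := pd1)
    rfl (fun _ => rfl) s26_pp_113

noncomputable def cut_pp_123 : Cut := Cut.of [[⟨0, 1, 0, 67108864⟩, ⟨1, 1, 0, 67108864⟩, ⟨2, 2, 0, 16777216⟩]]

noncomputable def xt_pp_123 : Ext := extD2 3 ⟨7, 3, 3, 10, 49, 25, 3, 4, 67, 200, 3, 16⟩ eng cd0q1 cd4q3 pd2 false true true .npn 1 2 3 rfl ndB0q1 ndB4q3 pcB2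

noncomputable def f_pp_123 : ℕ → ℕ → ℕ → ℕ → Bool := onCell 1073741824 536870912 1610612736 536870912 697932185 42949674
    (rowB 3 eng mog cd0q1 cd4q3 pd2 2 false true true .npn 1 2 3 (qsf 536870912 536870912 1610612736 536870912 2) ndB0q1 ndB4q3 pcB2 cut_pp_123 xt_pp_123)

def k0_pp_123 : ∃ t, chk3 f_pp_123 t 8 2 1 = true :=
  ⟨(b (b (b (c (a (a (b (l 140510197783134223) (l 140561393808900111)) (l 16376696)) (l 16367696)) (a (a (a (b (l 16307096) (l 140475425677852687)) (l 16309040)) (l 16307872)) (l 16304448))) (b (a (a (a (a (b (l 140767346061983759) (l 140950895794929679)) (c (l 16375512) (l 16319024))) (l 16377152)) (l 16332176)) (l 16324160)) (a (a (a (b (l 141124618643193871) (l 140942718202069007)) (l 16346064)) (l 16342232)) (l 16333288)))) (a (a (a (c (b (b (l 140535898966900751) (l 140643994746077199)) (b (l 140811120564862991) (l 141044010933125135))) (b (b (l 140319363810803727) (l 140359839619088399)) (b (l 140461338331709455) (l 140630663177994255)))) (b (b (l 16360296) (l 16378264)) (a (l 16415048) (l 16411424))))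 (b (a (l 16364640) (l 16360552)) (l 16402896))) (b (a (l 16354984) (l 16346880)) (l 16384304)))) (b (a (a (b (b (a (a (b (l 141055624530034703) (l 141228728931368975)) (l 16467152)) (l 16459168)) (a (l 141850434094399503) (l 16496432))) (a (b (l 141806522419757071) (l 142073360202547215)) (b (l 16527104) (l 16556032)))) (b (a (l 16465608) (l 16454960)) (l 16518392))) (b (l 16432224) (l 16475736))) (a (b (a (b (a (b (l 142251962154041359) (l 16566504)) (l 16582424)) (b (l 142457708295864335) (a (c (l 16658360) (l 16639336)) (l 16634408)))) (c (l 16595952) (l 16567472))) (a (b (a (b (b (l 16662496) (l 16671272)) (a (l 16687032) (l 16680472))) (l 16662032)) (a (b (l 16699128) (l 16712936)) (l 16693856))) (a (l 16665472) (l 16651864)))) (b (a (l 16552200) (l 16524568)) (a (l 16629384) (l 16601544)))))), by decide +kernel⟩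

def k1_pp_123 : ∃ t, chk3 f_pp_123 t 8 3 1 = true :=
  ⟨(b (b (a (b (a (b (a (b (l 16725320) (l 16736368)) (l 16720184)) (a (b (l 16746152) (l 16756528)) (l 16740544))) (a (l 16720464) (l 16708488))) (a (a (b (b (l 16766816) (l 16757584)) (b (l 16769984) (l 16803984))) (b (l 16739728) (l 16781448))) (b (l 16742792) (l 16762240)))) (b (a (l 16690744) (l 16665064)) (a (l 16728928) (l 16708000)))) (a (b (b (a (a (b (l 16816568) (l 16828312)) (l 16805712)) (l 16781784)) (a (a (c (l 16824600) (l 16863096)) (l 16827536)) (l 16802496))) (b (a (c (b (l 16827400) (l 16831888)) (b (l 16930584) (l 16891848))) (l 16819488)) (a (a (c (l 16842568) (l 16878040)) (l 16783040)) (l 16803680)))) (b (a (b (l 16753408) (l 16769992)) (l 16734672)) (b (a (l 16786072) (l 16753352)) (l 16630408))))) (b (a (a (b (b (a (a (l 16761032) (l 16817048)) (l 16785552)) (a (a (l 16825240) (l 16860912)) (l 16850848))) (a (b (l 16798024) (a (l 16787864) (l 16849864))) (a (l 16807488) (l 16843176)))) (b (a (l 16709496) (l 16821328)) (b (l 16829920) (l 16825808))))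 (a (b (l 16798776) (l 16800272)) (b (l 16767080) (l 16768888)))) (a (a (b (a (b (b (l 16795496) (l 16785792)) (b (l 16766288) (b (l 16770448) (l 16767712)))) (b (l 16831552) (l 16816664))) (b (a (a (b (b (l 16771328) (l 16772968)) (a (c (l 16774816) (l 16774952)) (l 16794856))) (l 16758792)) (l 16799288)) (b (b (a (a (a (c (l 16790272) (l 16776240)) (l 16790008)) (l 16791440)) (l 16787080)) (l 6)) (l 6)))) (b (a (l 16816256) (l 16806632)) (b (l 16788392) (l 16769104)))) (b (a (l 16788760) (l 16762400)) (a (b (l 16769768) (l 16752736)) (l 16740696)))))), by decide +kernel⟩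

def k2_pp_123 : ∃ t, chk3 f_pp_123 t 9 1 1 = true :=
  ⟨(b (b (b (a (b (l 1) (l 16313304)) (l 1)) (a (b (l 16332128) (l 16361640)) (b (l 16311352) (l 16335952)))) (b (a (b (l 16399496) (l 16432144)) (b (l 16370408) (l 16394888))) (a (b (l 16486040) (l 16561736)) (b (l 16438552) (l 16509880))))) (b (b (a (b (l 16623576) (l 16672768)) (b (l 16571232) (l 16619152))) (a (b (l 16550256) (a (l 16729304) (l 16698584))) (b (l 16654656) (l 16661112)))) (b (a (b (l 16592336) (l 16616096)) (b (l 16600448) (l 16656456))) (a (b (l 16718704) (l 16702872)) (b (l 16653720) (a (l 16662080) (l 16633408))))))), by decide +kernel⟩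

def k3_pp_123 : ∃ t, chk3 f_pp_123 t 5 1 1 = true :=
  ⟨(b (b (a (b (l 1) (a (a (l 16303504) (l 1)) (l 1))) (l 1)) (a (b (a (a (l 16358336) (l 16408408)) (l 16406064)) (a (a (l 16442352) (l 16425608)) (l 16439136))) (b (a (l 16310768) (l 1)) (a (l 16379016) (l 16368072))))) (b (a (b (a (a (l 16559872) (l 16539360)) (l 16508208)) (a (a (l 16624144) (b (l 16594856) (l 16611464))) (b (l 16561856) (l 16577048)))) (b (a (l 16498080) (l 16492984)) (b (l 16547944) (l 16566688)))) (a (b (a (a (b (l 16620272) (l 16613640)) (b (l 16604232) (l 16590136))) (b (l 16574504) (l 16559064))) (b (a (a (l 16607992) (l 16582832)) (l 16552168)) (a (a (l 16605168) (l 16580896)) (l 16543744)))) (b (a (l 16561992) (l 16562832)) (a (b (l 16542680) (l 16538008)) (b (l 16552176) (l 16541168))))))), by decide +kernel⟩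

def k4_pp_123 : ∃ t, chk3 f_pp_123 t 3 1 1 = true :=
  ⟨(b (a (b (l 1) (a (b (l 1) (b (l 1) (l 16380864))) (l 1))) (l 1)) (a (b (a (b (a (l 16481768) (l 16473448)) (a (l 16557288) (l 16559008))) (b (a (l 16462392) (l 1)) (a (l 16554744) (l 16550488)))) (a (a (b (l 16567520) (l 16561576)) (b (l 16574360) (l 16573088))) (a (l 16835072) (l 16613088)))) (b (b (l 1) (a (l 16411184) (l 1))) (a (b (l 16593632) (l 16510488)) (b (l 16526592) (l 16628880)))))), by decide +kernel⟩

theorem s5_pp_123 : ∃ t, chk3 f_pp_123 t 8 1 1 = true := ex3_b k0_pp_123 k1_pp_123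

theorem s6_pp_123 : ∃ t, chk3 f_pp_123 t 4 1 1 = true := ex3_a s5_pp_123 k2_pp_123

theorem s7_pp_123 : ∃ t, chk3 f_pp_123 t 2 1 1 = true := ex3_a s6_pp_123 k3_pp_123

theorem s8_pp_123 : ∃ t, chk3 f_pp_123 t 1 1 1 = true := ex3_a s7_pp_123 k4_pp_123

theorem c_pp_123 : CertB 536870912 536870912 1610612736 536870912 697932185 42949674 3 eng mog cd0q1 cd4q3 pd2 false true true .npn 1 2 3
    ndB0q1 ndB4q3 pcB2 cut_pp_123 xt_pp_123 :=
  certB2 (fam := false) (s1 := true) (s2 := true) (a := 1) (b := 2) (c := 3) (cn := .npn) (n1 := ndB0q1) (n2 := ndB4q3) (pc := pcB2) (cut := cut_pp_123) (xt := xt_pp_123) (P1 := 536870912) (W1 := 536870912) (P2 := 1610612736) (W2 := 536870912) (P3 := 697932185) (W3 := 42949674) (N0 := 3) (En := eng) (mo := mog) (C1 := cd0q1) (C2 := cd4q3) (C3 := pd2)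
    rfl (fun _ => rfl) s8_pp_123

noncomputable def f_pp_133 : ℕ → ℕ → ℕ → ℕ → Bool := onCell 536870912 536870912 1610612736 536870912 697932185 42949674
    (rowB 3 eng mog cd0q1 cd4q3 pd3 0 false true true .dn 1 3 3 (qsf 536870912 536870912 1610612736 536870912 3) ndB0q1 ndB4q3 pcB3 Cut.none Ext.none)

def k0_pp_133 : ∃ t, chk3 f_pp_133 t 1 1 1 = true :=
  ⟨(a (b (l 1) (a (b (l 1) (b (l 1) (a (l 16731584) (l 1)))) (l 1))) (l 1)), by decide +kernel⟩

theorem c_pp_133 : CertB 536870912 536870912 1610612736 536870912 697932185 42949674 3 eng mog cd0q1 cd4q3 pd3 false true true .dn 1 3 3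
    ndB0q1 ndB4q3 pcB3 Cut.none Ext.none :=
  certB0 (fam := false) (s1 := true) (s2 := true) (a := 1) (b := 3) (c := 3) (cn := .dn) (n1 := ndB0q1) (n2 := ndB4q3) (pc := pcB3) (cut := Cut.none) (xt := Ext.none) (P1 := 536870912) (W1 := 536870912) (P2 := 1610612736) (W2 := 536870912) (P3 := 697932185) (W3 := 42949674) (N0 := 3) (En := eng) (mo := mog) (C1 := cd0q1) (C2 := cd4q3) (C3 := pd3)
    rfl k0_pp_133

noncomputable def f_pp_202_a : ℕ → ℕ → ℕ → ℕ → Bool := onCell 0 536870912 0 536870912 697932185 42949674
    (rowB 3 eng mog cd0q2 cd4q2a pd0 0 false true true .pp 2 0 2 (qsf 0 536870912 0 536870912 0) ndB0q2 ndB4q2a pcB0 Cut.none Ext.none)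

def k0_pp_202_a : ∃ t, chk3 f_pp_202_a t 1 1 1 = true :=
  ⟨(l 3), by decide +kernel⟩

theorem c_pp_202_a : CertB 0 536870912 0 536870912 697932185 42949674 3 eng mog cd0q2 cd4q2a pd0 false true true .pp 2 0 2
    ndB0q2 ndB4q2a pcB0 Cut.none Ext.none :=
  certB0 (fam := false) (s1 := true) (s2 := true) (a := 2) (b := 0) (c := 2) (cn := .pp) (n1 := ndB0q2) (n2 := ndB4q2a) (pc := pcB0) (cut := Cut.none) (xt := Ext.none) (P1 := 0) (W1 := 536870912) (P2 := 0) (W2 := 536870912) (P3 := 697932185) (W3 := 42949674) (N0 := 3) (En := eng) (mo := mog) (C1 := cd0q2) (C2 := cd4q2a) (C3 := pd0)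
    rfl k0_pp_202_a

noncomputable def f_pp_202_b : ℕ → ℕ → ℕ → ℕ → Bool := onCell 0 536870912 1239849684 370763052 697932185 42949674
    (rowB 3 eng mog cd0q2 cd4q2b pd0 0 false true true .pp 2 0 2 (qsf 0 536870912 1239849684 370763052 0) ndB0q2 ndB4q2b pcB0 Cut.none Ext.none)

def k0_pp_202_b : ∃ t, chk3 f_pp_202_b t 1 1 1 = true :=
  ⟨(l 3), by decide +kernel⟩

theorem c_pp_202_b : CertB 0 536870912 1239849684 370763052 697932185 42949674 3 eng mog cd0q2 cd4q2b pd0 false true true .pp 2 0 2
    ndB0q2 ndB4q2b pcB0 Cut.none Ext.none :=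
  certB0 (fam := false) (s1 := true) (s2 := true) (a := 2) (b := 0) (c := 2) (cn := .pp) (n1 := ndB0q2) (n2 := ndB4q2b) (pc := pcB0) (cut := Cut.none) (xt := Ext.none) (P1 := 0) (W1 := 536870912) (P2 := 1239849684) (W2 := 370763052) (P3 := 697932185) (W3 := 42949674) (N0 := 3) (En := eng) (mo := mog) (C1 := cd0q2) (C2 := cd4q2b) (C3 := pd0)
    rfl k0_pp_202_b

noncomputable def f_pp_203 : ℕ → ℕ → ℕ → ℕ → Bool := onCell 0 536870912 0 536870912 697932185 42949674
    (rowB 3 eng mog cd0q2 cd4q3 pd0 1 false true true .up 2 0 3 (qsf 0 536870912 1610612736 536870912 0) ndB0q2 ndB4q3 pcB0 Cut.none Ext.none)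

def k0_pp_203 : ∃ t, chk3 f_pp_203 t 1 1 1 = true :=
  ⟨(l 3), by decide +kernel⟩

theorem c_pp_203 : CertB 0 536870912 1610612736 536870912 697932185 42949674 3 eng mog cd0q2 cd4q3 pd0 false true true .up 2 0 3
    ndB0q2 ndB4q3 pcB0 Cut.none Ext.none :=
  certB1 (fam := false) (s1 := true) (s2 := true) (a := 2) (b := 0) (c := 3) (cn := .up) (n1 := ndB0q2) (n2 := ndB4q3) (pc := pcB0) (cut := Cut.none) (xt := Ext.none) (P1 := 0) (W1 := 536870912) (P2 := 1610612736) (W2 := 536870912) (P3 := 697932185) (W3 := 42949674) (N0 := 3) (En := eng) (mo := mog) (C1 := cd0q2) (C2 := cd4q3) (C3 := pd0)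
    rfl (fun _ => rfl) k0_pp_203

noncomputable def cut_pp_213 : Cut := Cut.of [[⟨0, 1, 0, 67108864⟩, ⟨1, 1, 0, 67108864⟩, ⟨2, 2, 0, 16777216⟩]]

noncomputable def f_pp_213 : ℕ → ℕ → ℕ → ℕ → Bool := onCell 0 536870912 1610612736 536870912 697932185 42949674
    (rowB 3 eng mog cd0q2 cd4q3 pd1 0 false true true .pnn 2 1 3 (qsf 0 536870912 1610612736 536870912 1) ndB0q2 ndB4q3 pcB1 cut_pp_213 Ext.none)

def k0_pp_213 : ∃ t, chk3 f_pp_213 t 1 1 1 = true :=
  ⟨(b (l 3) (a (l 3) (b (l 3) (a (l 3) (b (l 3) (a (l 3) (b (l 3) (b (l 3) (b (l 3) (l 6)))))))))), by decide +kernel⟩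

theorem c_pp_213 : CertB 0 536870912 1610612736 536870912 697932185 42949674 3 eng mog cd0q2 cd4q3 pd1 false true true .pnn 2 1 3
    ndB0q2 ndB4q3 pcB1 cut_pp_213 Ext.none :=
  certB0 (fam := false) (s1 := true) (s2 := true) (a := 2) (b := 1) (c := 3) (cn := .pnn) (n1 := ndB0q2) (n2 := ndB4q3) (pc := pcB1) (cut := cut_pp_213) (xt := Ext.none) (P1 := 0) (W1 := 536870912) (P2 := 1610612736) (W2 := 536870912) (P3 := 697932185) (W3 := 42949674) (N0 := 3) (En := eng) (mo := mog) (C1 := cd0q2) (C2 := cd4q3) (C3 := pd1)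
    rfl k0_pp_213

noncomputable def f_pm_001 : ℕ → ℕ → ℕ → ℕ → Bool := onCell 0 536870912 536870912 536870912 697932185 42949674
    (rowB 3 eng mog cd0q0 cd4q1 pd0 0 false true false .up 0 0 1 (qsf 0 536870912 536870912 536870912 0) ndB0q0 ndB4q1 pcB0 Cut.none Ext.none)

def k0_pm_001 : ∃ t, chk3 f_pm_001 t 1 1 1 = true :=
  ⟨(l 4), by decide +kernel⟩

theorem c_pm_001 : CertB 0 536870912 536870912 536870912 697932185 42949674 3 eng mog cd0q0 cd4q1 pd0 false true false .up 0 0 1
    ndB0q0 ndB4q1 pcB0 Cut.none Ext.none :=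
  certB0 (fam := false) (s1 := true) (s2 := false) (a := 0) (b := 0) (c := 1) (cn := .up) (n1 := ndB0q0) (n2 := ndB4q1) (pc := pcB0) (cut := Cut.none) (xt := Ext.none) (P1 := 0) (W1 := 536870912) (P2 := 536870912) (W2 := 536870912) (P3 := 697932185) (W3 := 42949674) (N0 := 3) (En := eng) (mo := mog) (C1 := cd0q0) (C2 := cd4q1) (C3 := pd0)
    rfl k0_pm_001

noncomputable def f_pm_011 : ℕ → ℕ → ℕ → ℕ → Bool := onCell 0 536870912 536870912 536870912 697932185 42949674
    (rowB 3 eng mog cd0q0 cd4q1 pd1 0 false true false .pnn 0 1 1 (qsf 0 536870912 536870912 536870912 1) ndB0q0 ndB4q1 pcB1 Cut.none Ext.none)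

def k0_pm_011 : ∃ t, chk3 f_pm_011 t 1 1 1 = true :=
  ⟨(l 4), by decide +kernel⟩

theorem c_pm_011 : CertB 0 536870912 536870912 536870912 697932185 42949674 3 eng mog cd0q0 cd4q1 pd1 false true false .pnn 0 1 1
    ndB0q0 ndB4q1 pcB1 Cut.none Ext.none :=
  certB0 (fam := false) (s1 := true) (s2 := false) (a := 0) (b := 1) (c := 1) (cn := .pnn) (n1 := ndB0q0) (n2 := ndB4q1) (pc := pcB1) (cut := Cut.none) (xt := Ext.none) (P1 := 0) (W1 := 536870912) (P2 := 536870912) (W2 := 536870912) (P3 := 697932185) (W3 := 42949674) (N0 := 3) (En := eng) (mo := mog) (C1 := cd0q0) (C2 := cd4q1) (C3 := pd1)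
    rfl k0_pm_011

noncomputable def cut_pm_012_a : Cut := Cut.of [[⟨0, 0, 0, 67108864⟩, ⟨1, 1, 0, 67108864⟩, ⟨2, 1, 0, 67108864⟩]]

noncomputable def f_pm_012_a : ℕ → ℕ → ℕ → ℕ → Bool := onCell 0 536870912 0 536870912 697932185 42949674
    (rowB 3 eng mog cd0q0 cd4q2a pd1 0 false true false .pnp 0 1 2 (qsf 0 536870912 0 536870912 1) ndB0q0 ndB4q2a pcB1 cut_pm_012_a Ext.none)

def k0_pm_012_a : ∃ t, chk3 f_pm_012_a t 4 1 1 = true :=
  ⟨(b (a (l 2) (b (l 2) (a (l 2) (b (l 2) (a (l 2) (b (l 2) (a (l 2) (l 16316056)))))))) (b (a (l 2) (b (a (l 2) (a (b (a (l 2) (l 16348312)) (a (l 16385736) (l 16384944))) (b (a (l 16348160) (l 16347816)) (l 16383392)))) (a (a (b (l 2) (a (l 2) (b (l 16464712) (l 16488792)))) (b (a (b (l 2) (l 16440088)) (b (l 16417000) (l 16438576))) (a (b (l 16462928) (l 16486504)) (l 16472568)))) (b (a (a (l 16426400) (l 16424704)) (l 16421784)) (a (b (l 16457536) (l 16479840)) (l 16463048)))))) (a (a (b (l 2) (l 6)) (a (b (b (l 2) (l 6)) (l 6)) (a (b (b (l 2) (l 6)) (l 6)) (b (b (b (l 2) (a (l 16545824)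 (l 16544480))) (b (l 16572480) (l 16600464))) (b (b (l 16629096) (l 16658208)) (b (l 16686472) (b (l 16692600) (b (l 16695608) (l 16697584))))))))) (b (a (a (b (a (b (l 16516208) (l 16542304)) (b (l 16513616) (l 16539168))) (a (b (l 16569056) (l 16596464)) (l 16560552))) (b (b (l 16509320) (l 16534056)) (b (l 16559400) (l 16585352)))) (b (a (l 16514776) (l 16506944)) (a (l 16584200) (l 16553160)))) (b (a (a (b (l 16643064) (l 16650272)) (b (l 16611864) (l 16638784))) (b (l 16594976) (l 16620000))) (a (b (a (b (l 16670304) (l 16674440)) (l 16654568)) (b (a (l 16678496) (l 16660600)) (a (a (b (l 16686128) (l 16688096)) (l 16677920)) (b (l 16663552) (l 16686472))))) (b (a (l 16637592) (l 16621424)) (a (b (l 16643552) (l 16668424)) (b (l 16627312) (l 16631176)))))))))), by decide +kernel⟩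

def k1_pm_012_a : ∃ t, chk3 f_pm_012_a t 5 1 1 = true :=
  ⟨(b (a (b (a (a (l 2) (b (b (l 16206992) (l 16211672)) (b (l 16220120) (l 16232224)))) (b (a (b (l 16212376) (l 16216480)) (l 16218576)) (a (b (l 16224192) (l 16235424)) (l 16232520)))) (a (b (a (b (l 16244648) (l 16307000)) (b (l 16247976) (l 16267240))) (a (b (l 16289000) (l 16316344)) (b (l 16289888) (l 16315808)))) (b (a (b (l 16250160) (l 16268264)) (l 16259928)) (a (l 16302152) (l 16300080))))) (b (a (b (a (l 16221480) (l 16224272)) (a (l 16234000) (l 16235408))) (b (l 16229384) (l 16238496))) (a (b (a (l 16259416) (l 16258864)) (a (l 16297048) (l 16294008))) (b (l 16259104) (l 16290600))))) (b (a (a (b (a (b (l 16346936) (l 16380624)) (b (l 16344848) (l 16376864))) (b (a (l 16417208) (l 16411664)) (a (l 16456536) (l 16449064)))) (b (b (l 16339640) (l 16369168)) (b (l 16401296) (l 16435832)))) (a (b (a (l 16345944) (l 16339928)) (b (l 16384568) (l 16415368))) (b (l 16332144) (b (l 16368648) (l 16396104))))) (a (b (a (b (a (l 16498352) (l 16488808)) (a (l 16542328)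 (l 16530560))) (b (l 16472512) (l 16531952))) (b (a (l 16601984) (l 16550704)) (a (b (l 16603912) (a (l 16613768) (l 16599184))) (b (l 16592456) (a (l 16585576) (b (l 16570280) (l 16573168))))))) (b (a (b (l 16448064) (a (l 16489360) (l 16475360))) (b (l 16468336) (l 16500952))) (a (b (a (l 16526312) (l 16511792)) (b (l 16544304) (a (l 16557128) (l 16542552)))) (b (l 16492680) (b (l 16515032) (a (l 16527688) (l 16512536))))))))), by decide +kernel⟩

def k2_pm_012_a : ∃ t, chk3 f_pm_012_a t 3 1 1 = true :=
  ⟨(a (b (a (b (a (b (l 16237576) (l 16244112)) (b (l 16245456) (l 16249456))) (a (b (l 16261056) (l 16287872)) (b (l 16263168) (a (l 16286496) (l 16287480))))) (b (a (b (l 16255352) (l 16258552)) (l 16298056)) (a (b (l 16270944) (l 16292592)) (b (l 16286072) (l 16302360))))) (b (a (b (a (a (l 16325888) (l 16322824)) (l 16342288)) (a (a (l 16373440) (l 16369424)) (l 16363840))) (a (b (l 16321824) (l 16356472)) (b (l 16324880) (l 16351184)))) (a (b (a (b (l 16411920) (l 16440304)) (b (l 16397840) (l 16420800))) (a (b (l 16467960)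 (b (l 16484872) (a (l 16497200) (l 16482080)))) (b (l 16442440) (b (l 16455440) (a (l 16467264) (l 16452576)))))) (b (a (l 16429544) (l 16377088)) (a (b (l 16416792) (a (l 16456728) (l 16483776))) (b (l 16391312) (a (l 16469168) (l 16455464)))))))) (b (a (b (a (l 16298032) (l 16315768)) (a (l 16307552) (l 16316656))) (b (a (l 16331160) (l 16345280)) (a (l 16323912) (l 16330264)))) (b (a (b (a (l 16327592) (l 16327136)) (a (l 16344912) (l 16335384))) (b (a (l 16324688) (l 16320696)) (a (l 16323528) (l 16309936)))) (a (b (a (l 16359184) (l 16337264)) (b (a (l 16365928) (l 16344520)) (a (b (l 16372096) (l 16375656)) (a (l 16357144) (l 16346488))))) (b (a (l 16312936) (l 16295592)) (a (b (l 16324768) (a (l 16336208) (l 16326160))) (b (l 16305864) (b (l 16310056) (a (l 16317320) (l 16307536)))))))))), by decide +kernel⟩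

theorem s3_pm_012_a : ∃ t, chk3 f_pm_012_a t 2 1 1 = true := ex3_a k0_pm_012_a k1_pm_012_a

theorem s4_pm_012_a : ∃ t, chk3 f_pm_012_a t 1 1 1 = true := ex3_a s3_pm_012_a k2_pm_012_a

theorem c_pm_012_a : CertB 0 536870912 0 536870912 697932185 42949674 3 eng mog cd0q0 cd4q2a pd1 false true false .pnp 0 1 2
    ndB0q0 ndB4q2a pcB1 cut_pm_012_a Ext.none :=
  certB0 (fam := false) (s1 := true) (s2 := false) (a := 0) (b := 1) (c := 2) (cn := .pnp) (n1 := ndB0q0) (n2 := ndB4q2a) (pc := pcB1) (cut := cut_pm_012_a) (xt := Ext.none) (P1 := 0) (W1 := 536870912) (P2 := 0) (W2 := 536870912) (P3 := 697932185) (W3 := 42949674) (N0 := 3) (En := eng) (mo := mog) (C1 := cd0q0) (C2 := cd4q2a) (C3 := pd1)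
    rfl s4_pm_012_a

noncomputable def cut_pm_012_b : Cut := Cut.of [[⟨0, 0, 0, 67108864⟩, ⟨1, 1, 0, 67108864⟩, ⟨2, 1, 0, 67108864⟩]]

noncomputable def f_pm_012_b : ℕ → ℕ → ℕ → ℕ → Bool := onCell 0 536870912 536870912 536870912 697932185 42949674
    (rowB 3 eng mog cd0q0 cd4q2b pd1 1 false true false .pnp 0 1 2 (qsf 0 536870912 1239849684 370763052 1) ndB0q0 ndB4q2b pcB1 cut_pm_012_b Ext.none)

def k0_pm_012_b : ∃ t, chk3 f_pm_012_b t 2 1 1 = true :=
  ⟨(b (l 1) (a (l 1) (b (l 1) (a (b (l 1) (a (b (l 1) (b (l 1) (a (l 1) (c (l 16270216) (l 16245392))))) (b (b (l 1) (a (l 1) (l 16262952))) (b (a (l 16261024) (l 16210760)) (a (c (l 16219992) (l 16191776)) (c (l 16172408) (l 16140528))))))) (b (a (b (l 1) (a (l 1) (l 16287312))) (b (a (l 1) (l 16287976)) (a (l 16244288) (l 16205216)))) (a (b (a (b (l 16263856) (l 16214456)) (b (l 16218016) (l 16169472))) (a (b (l 16163120) (c (l 16127752) (l 16091912))) (b (l 16119128) (c (l 16086896) (l 16047000))))) (b (a (l 16184112) (l 16115448)) (b (a (l 16079360) (l 16043872)) (a (c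 (l 16050336) (l 16006448)) (c (l 16018088) (l 15970312))))))))))), by decide +kernel⟩

def k1_pm_012_b : ∃ t, chk3 f_pm_012_b t 3 1 1 = true :=
  ⟨(b (a (l 1) (b (l 1) (a (b (l 1) (a (b (l 1) (l 16342040)) (l 16337784))) (b (a (l 25802551783) (l 16362912)) (a (l 16324048) (l 16317976)))))) (a (b (a (b (l 1) (a (b (l 1) (l 38150588311)) (b (b (l 1) (l 16291544)) (l 16242936)))) (b (a (b (l 1) (l 16316840)) (b (l 16329352) (l 16275944))) (a (b (l 16253840) (l 16191080)) (b (l 16214344) (l 16154736))))) (a (b (a (b (a (l 16251240) (l 16217768)) (a (l 16170032) (l 16138232))) (b (a (l 16186824) (l 16159192)) (a (l 16109416) (l 16083888)))) (a (b (a (l 16082312) (l 16052568)) (a (b (l 16012616) (c (l 15990120) (l 15938592))) (b (l 15984776) (l 15938040)))) (b (a (l 16026312) (l 16003496)) (a (b (l 15960616) (l 15915488)) (b (l 15940192) (l 15896760)))))) (b (a (b (l 16124424) (l 16073784)) (b (l 16092184) (l 16025352))) (a (b (a (l 15984568) (l 15969792)) (b (l 15917144) (a (l 15882008) (l 15871304)))) (b (l 15996736) (a (l 15883592)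 (l 15878872))))))) (b (a (b (a (l 16274640) (l 16253608)) (a (b (l 16187712) (l 16131504)) (b (l 16170416) (l 16117864)))) (b (a (l 16241384) (l 16238168)) (a (b (l 16162512) (l 16114136)) (l 16143200)))) (a (b (a (b (l 16072896) (l 16010592)) (l 16035568)) (a (b (l 15945256) (a (b (l 15894560) (l 15859144)) (l 15878056))) (b (l 15947232) (a (l 15882336) (l 15889984))))) (b (a (b (l 16065240) (l 16014352)) (b (l 16078536) (l 16034672))) (a (b (a (l 15956856) (l 15967488)) (a (l 15900984) (l 15915416))) (b (a (l 15981480) (l 15998632)) (a (l 15933400) (l 15954648))))))))), by decide +kernel⟩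

theorem s2_pm_012_b : ∃ t, chk3 f_pm_012_b t 1 1 1 = true := ex3_a k0_pm_012_b k1_pm_012_b

theorem c_pm_012_b : CertB 0 536870912 1239849684 370763052 697932185 42949674 3 eng mog cd0q0 cd4q2b pd1 false true false .pnp 0 1 2
    ndB0q0 ndB4q2b pcB1 cut_pm_012_b Ext.none :=
  certB1 (fam := false) (s1 := true) (s2 := false) (a := 0) (b := 1) (c := 2) (cn := .pnp) (n1 := ndB0q0) (n2 := ndB4q2b) (pc := pcB1) (cut := cut_pm_012_b) (xt := Ext.none) (P1 := 0) (W1 := 536870912) (P2 := 1239849684) (W2 := 370763052) (P3 := 697932185) (W3 := 42949674) (N0 := 3) (En := eng) (mo := mog) (C1 := cd0q0) (C2 := cd4q2b) (C3 := pd1)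
    rfl (fun _ => rfl) s2_pm_012_b

noncomputable def cut_pm_022_a : Cut := Cut.of [[⟨0, 0, 0, 67108864⟩, ⟨1, 1, 0, 67108864⟩, ⟨2, 1, 0, 67108864⟩]]

noncomputable def f_pm_022_a : ℕ → ℕ → ℕ → ℕ → Bool := onCell 1073741824 536870912 0 536870912 697932185 42949674
    (rowB 3 eng mog cd0q0 cd4q2a pd2 2 false true false .pp 0 2 2 (qsf 0 536870912 0 536870912 2) ndB0q0 ndB4q2a pcB2 cut_pm_022_a Ext.none)

def k0_pm_022_a : ∃ t, chk3 f_pm_022_a t 1 1 1 = true :=
  ⟨(a (a (b (a (b (a (b (a (c (l 16236488) (l 16211584)) (l 16252000)) (a (b (l 16233960) (l 16245376)) (l 16268360))) (b (a (l 16278656) (l 16304480)) (a (l 16295680) (l 16322120)))) (a (b (a (b (l 16260536) (l 16279640)) (b (l 16289544) (l 16308928))) (a (b (l 16302880) (l 16351480)) (b (l 16332488) (l 16360448)))) (b (a (l 16327384) (l 16354440)) (a (b (l 16360960) (l 16389216)) (b (l 16388488) (l 16417064)))))) (b (a (b (a (l 16329608) (l 16354176)) (a (l 16347824) (l 16373224))) (b (a (l 16378856) (l 16404848)) (a (l 16400176) (l 4)))) (a (b (a (l 16380864) (l 16408648))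 (a (b (l 16416200) (l 16446664)) (l 4))) (l 4)))) (a (b (a (b (a (b (a (l 16355080) (l 16370536)) (a (l 16392392) (l 16407984))) (b (l 16393088) (l 16451792))) (a (b (a (l 16435072) (l 16450768)) (a (b (l 16470640) (l 16496400)) (l 16499344))) (b (a (l 16466136) (l 16481120)) (a (l 16514688) (l 16529768))))) (b (a (b (l 16422152) (l 16460024)) (b (l 16451056) (l 16511872))) (a (b (a (l 16495824) (l 16511544)) (b (l 16561856) (l 16609952))) (l 4)))) (a (b (b (a (a (b (l 16523720) (l 16552640)) (b (l 16539464) (l 16568336))) (a (b (l 16554784) (l 16583752)) (b (l 16570512) (l 16600656)))) (l 6)) (l 6)) (l 4))) (b (l 4) (l 4)))) (b (l 4) (l 4))) (l 1)), by decide +kernel⟩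

theorem c_pm_022_a : CertB 0 536870912 0 536870912 697932185 42949674 3 eng mog cd0q0 cd4q2a pd2 false true false .pp 0 2 2
    ndB0q0 ndB4q2a pcB2 cut_pm_022_a Ext.none :=
  certB2 (fam := false) (s1 := true) (s2 := false) (a := 0) (b := 2) (c := 2) (cn := .pp) (n1 := ndB0q0) (n2 := ndB4q2a) (pc := pcB2) (cut := cut_pm_022_a) (xt := Ext.none) (P1 := 0) (W1 := 536870912) (P2 := 0) (W2 := 536870912) (P3 := 697932185) (W3 := 42949674) (N0 := 3) (En := eng) (mo := mog) (C1 := cd0q0) (C2 := cd4q2a) (C3 := pd2)
    rfl (fun _ => rfl) k0_pm_022_a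

noncomputable def cut_pm_022_b : Cut := Cut.of [[⟨0, 0, 0, 67108864⟩, ⟨1, 1, 0, 67108864⟩, ⟨2, 1, 0, 67108864⟩]]

noncomputable def f_pm_022_b : ℕ → ℕ → ℕ → ℕ → Bool := onCell 1073741824 536870912 1239849684 370763052 697932185 42949674
    (rowB 3 eng mog cd0q0 cd4q2b pd2 2 false true false .pp 0 2 2 (qsf 0 536870912 1239849684 370763052 2) ndB0q0 ndB4q2b pcB2 cut_pm_022_b Ext.none)

def k0_pm_022_b : ∃ t, chk3 f_pm_022_b t 2 2 1 = true :=
  ⟨(a (b (a (b (a (a (b (a (c (l 16192720) (l 16163936)) (l 16192648)) (a (b (l 16127872) (l 16095800)) (l 16126000))) (b (a (l 16206456) (l 16219856)) (a (l 16139840) (l 16153288)))) (a (b (l 16239480) (l 16172832)) (b (l 16264896) (l 16197912)))) (a (a (b (a (b (l 16065424) (l 16036832)) (l 16085760)) (a (c (l 16020336) (l 15975552)) (c (l 16032240) (l 15989160)))) (b (a (l 16078376) (l 16091664)) (a (l 16023440) (l 16036216)))) (b (a (l 16111168) (l 16136024)) (a (l 16054912) (l 16079176))))) (b (a (b (a (l 16289536) (l 16313800)) (a (l 16222296) (l 16246176))) (a (b (l 16337504) (l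 16269720)) (b (l 16362096) (l 16293408)))) (a (b (l 16213720) (l 16198216)) (a (l 16177024) (l 16199608))))) (a (b (a (b (a (c (a (l 15978376) (l 15989080)) (a (l 15928352) (l 15940720))) (a (l 15976368) (l 15987928))) (a (b (l 15951264) (l 15913624)) (l 15963488))) (b (a (l 16005296) (l 16028424)) (a (l 15963480) (l 15984512)))) (a (b (a (a (l 15887312) (l 15896552)) (l 15910488)) (a (a (l 15886248) (l 15873192)) (l 15885272))) (a (b (l 15929208) (l 15901816)) (b (l 15948272) (l 15918752))))) (b (a (b (a (l 16051136) (l 16073488)) (l 16016400)) (a (l 16071160) (l 16092344))) (a (b (a (l 15967656) (l 15987360)) (l 15945096)) (a (l 15989120) (l 16008152)))))) (a (b (a (b (l 4) (a (l 16264960) (l 4))) (l 4)) (b (a (a (l 16113224) (l 16134904)) (l 4)) (a (a (l 16026936) (l 16045400)) (a (l 16064536) (l 4))))) (l 4))), by decide +kernel⟩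

def k1_pm_022_b : ∃ t, chk3 f_pm_022_b t 2 3 1 = true :=
  ⟨(a (b (a (b (a (b (a (a (l 15850872) (l 15857304)) (l 15867304)) (a (a (l 15843288) (l 15848408)) (l 15856416))) (a (b (l 15881240) (l 15867664)) (b (l 15895824) (l 15879736)))) (a (b (a (b (l 15843344) (l 15843480)) (l 15851456)) (a (l 15846136) (l 15851824))) (b (a (l 15860624) (l 15870200)) (a (l 15858600) (l 15866320))))) (b (a (b (l 15919096) (l 15899368)) (a (l 15931968) (l 15948112))) (a (b (l 15886392) (l 15879512)) (b (l 15911488) (l 15900104))))) (a (b (a (b (a (l 15855248) (l 15857280)) (a (l 15870736) (l 15869192))) (b (a (l 15861256) (l 15867200)) (l 15870840))) (a (b (a (l 15893184) (l 15887520)) (a (l 15921944) (l 15912416))) (b (l 15883496) (l 15902304)))) (b (a (b (l 15877688) (l 15880328)) (b (l 15894864) (l 15895176))) (a (b (l 15887664) (l 15898168)) (a (l 15898264) (l 15904256)))))) (b (a (a (b (l 16035072) (l 15931168)) (b (a (l 15995880) (l 16012080)) (a (l 15951368) (l 15964992)))) (a (b (l 16035768) (l 15984704)) (l 4))) (a (b (a (l 15912408)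 (l 15933928)) (a (l 15975096) (l 15930424))) (b (a (l 15957560) (l 15976416)) (a (l 15953368) (l 15967560)))))), by decide +kernel⟩

def k2_pm_022_b : ∃ t, chk3 f_pm_022_b t 3 1 1 = true :=
  ⟨(a (b (l 4) (a (b (l 4) (a (b (l 4) (l 15979320)) (l 4))) (l 4))) (l 4)), by decide +kernel⟩

theorem s3_pm_022_b : ∃ t, chk3 f_pm_022_b t 2 1 1 = true := ex3_b k0_pm_022_b k1_pm_022_b

theorem s4_pm_022_b : ∃ t, chk3 f_pm_022_b t 1 1 1 = true := ex3_a s3_pm_022_b k2_pm_022_b

theorem c_pm_022_b : CertB 0 536870912 1239849684 370763052 697932185 42949674 3 eng mog cd0q0 cd4q2b pd2 false true false .pp 0 2 2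
    ndB0q0 ndB4q2b pcB2 cut_pm_022_b Ext.none :=
  certB2 (fam := false) (s1 := true) (s2 := false) (a := 0) (b := 2) (c := 2) (cn := .pp) (n1 := ndB0q0) (n2 := ndB4q2b) (pc := pcB2) (cut := cut_pm_022_b) (xt := Ext.none) (P1 := 0) (W1 := 536870912) (P2 := 1239849684) (W2 := 370763052) (P3 := 697932185) (W3 := 42949674) (N0 := 3) (En := eng) (mo := mog) (C1 := cd0q0) (C2 := cd4q2b) (C3 := pd2)
    rfl (fun _ => rfl) s4_pm_022_b

noncomputable def f_pm_023 : ℕ → ℕ → ℕ → ℕ → Bool := onCell 0 536870912 1073741824 536870912 697932185 42949674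
    (rowB 3 eng mog cd0q0 cd4q3 pd2 1 false true false .up 0 2 3 (qsf 0 536870912 1610612736 536870912 2) ndB0q0 ndB4q3 pcB2 Cut.none Ext.none)

def k0_pm_023 : ∃ t, chk3 f_pm_023 t 1 1 1 = true :=
  ⟨(b (a (b (l 1) (a (l 1) (b (l 1) (a (l 1) (l 298532658807))))) (a (b (a (l 1) (b (l 1) (a (l 1) (l 291015855383)))) (b (a (b (l 1) (l 432213270327)) (b (l 15915184) (l 15937544))) (a (l 269541473191) (l 15985240)))) (b (a (a (b (l 1) (l 204042733815)) (b (l 255045410023) (l 15909792))) (a (b (b (l 245918542279) (l 15907816)) (l 15931008)) (b (b (b (l 135323238967) (l 15927424)) (l 15937816)) (l 15959688)))) (b (a (b (l 15929912) (l 15952176)) (b (l 15969224) (l 15993208))) (a (l 16007592) (b (l 16039440) (l 16080320))))))) (a (b (a (l 4) (b (a (l 4) (l 227665735239)) (l 4))) (l 4)) (b (a (b (a (l 16006352) (l 16045400)) (a (l 16235880) (l 16089072))) (b (a (l 16079176) (l 16141568)) (a (l 16156496) (b (l 16245240) (l 16323848))))) (a (b (a (l 16005248) (l 16177584)) (a (l 16174488) (l 16343768))) (a (b (l 16323248) (l 16460984))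 (b (l 16438544) (l 16558040))))))), by decide +kernel⟩

theorem c_pm_023 : CertB 0 536870912 1610612736 536870912 697932185 42949674 3 eng mog cd0q0 cd4q3 pd2 false true false .up 0 2 3
    ndB0q0 ndB4q3 pcB2 Cut.none Ext.none :=
  certB1 (fam := false) (s1 := true) (s2 := false) (a := 0) (b := 2) (c := 3) (cn := .up) (n1 := ndB0q0) (n2 := ndB4q3) (pc := pcB2) (cut := Cut.none) (xt := Ext.none) (P1 := 0) (W1 := 536870912) (P2 := 1610612736) (W2 := 536870912) (P3 := 697932185) (W3 := 42949674) (N0 := 3) (En := eng) (mo := mog) (C1 := cd0q0) (C2 := cd4q3) (C3 := pd2)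
    rfl (fun _ => rfl) k0_pm_023

noncomputable def f_pm_033 : ℕ → ℕ → ℕ → ℕ → Bool := onCell 1610612736 536870912 1610612736 536870912 697932185 42949674
    (rowB 3 eng mog cd0q0 cd4q3 pd3 2 false true false .pnn 0 3 3 (qsf 0 536870912 1610612736 536870912 3) ndB0q0 ndB4q3 pcB3 Cut.none Ext.none)

def k0_pm_033 : ∃ t, chk3 f_pm_033 t 1 1 1 = true :=
  ⟨(a (b (l 4) (a (b (a (b (l 4) (a (l 16396576) (l 16390800))) (l 4)) (a (b (l 16329992) (l 16576624)) (a (l 16505888) (l 16605896)))) (b (l 4) (a (b (l 4) (l 16509840)) (l 4))))) (l 4)), by decide +kernel⟩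

theorem c_pm_033 : CertB 0 536870912 1610612736 536870912 697932185 42949674 3 eng mog cd0q0 cd4q3 pd3 false true false .pnn 0 3 3
    ndB0q0 ndB4q3 pcB3 Cut.none Ext.none :=
  certB2 (fam := false) (s1 := true) (s2 := false) (a := 0) (b := 3) (c := 3) (cn := .pnn) (n1 := ndB0q0) (n2 := ndB4q3) (pc := pcB3) (cut := Cut.none) (xt := Ext.none) (P1 := 0) (W1 := 536870912) (P2 := 1610612736) (W2 := 536870912) (P3 := 697932185) (W3 := 42949674) (N0 := 3) (En := eng) (mo := mog) (C1 := cd0q0) (C2 := cd4q3) (C3 := pd3)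
    rfl (fun _ => rfl) k0_pm_033

noncomputable def f_pm_101 : ℕ → ℕ → ℕ → ℕ → Bool := onCell 536870912 536870912 536870912 536870912 697932185 42949674
    (rowB 3 eng mog cd0q1 cd4q1 pd0 0 false true false .npn 1 0 1 (qsf 536870912 536870912 536870912 536870912 0) ndB0q1 ndB4q1 pcB0 Cut.none Ext.none)

def k0_pm_101 : ∃ t, chk3 f_pm_101 t 1 1 1 = true :=
  ⟨(l 4), by decide +kernel⟩

theorem c_pm_101 : CertB 536870912 536870912 536870912 536870912 697932185 42949674 3 eng mog cd0q1 cd4q1 pd0 false true false .npn 1 0 1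
    ndB0q1 ndB4q1 pcB0 Cut.none Ext.none :=
  certB0 (fam := false) (s1 := true) (s2 := false) (a := 1) (b := 0) (c := 1) (cn := .npn) (n1 := ndB0q1) (n2 := ndB4q1) (pc := pcB0) (cut := Cut.none) (xt := Ext.none) (P1 := 536870912) (W1 := 536870912) (P2 := 536870912) (W2 := 536870912) (P3 := 697932185) (W3 := 42949674) (N0 := 3) (En := eng) (mo := mog) (C1 := cd0q1) (C2 := cd4q1) (C3 := pd0)
    rfl k0_pm_101

noncomputable def cut_pm_102_a : Cut := Cut.of [[⟨0, 1, 0, 67108864⟩, ⟨1, 0, 0, 67108864⟩, ⟨2, 1, 0, 67108864⟩], [⟨0, 0, 1, 20971520⟩, ⟨1, 1, 2, 20971520⟩, ⟨2, 1, 0, 33554432⟩]]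

noncomputable def xt_pm_102_a : Ext := extD2 3 ⟨7, 3, 3, 10, 49, 25, 3, 4, 67, 200, 3, 16⟩ eng cd0q1 cd4q2a pd0 false true false .npp 1 0 2 rfl ndB0q1 ndB4q2a pcB0

noncomputable def f_pm_102_a : ℕ → ℕ → ℕ → ℕ → Bool := onCell 536870912 536870912 0 536870912 697932185 42949674
    (rowB 3 eng mog cd0q1 cd4q2a pd0 0 false true false .npp 1 0 2 (qsf 536870912 536870912 0 536870912 0) ndB0q1 ndB4q2a pcB0 cut_pm_102_a xt_pm_102_a)

def k0_pm_102_a : ∃ t, chk3 f_pm_102_a t 2 2 1 = true :=
  ⟨(a (a (l 2) (b (l 2) (l 16341048))) (a (b (l 16465240) (a (l 16340944) (l 16347672))) (b (l 16456880) (a (l 16390960) (l 16463976))))), by decide +kernel⟩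

def k1_pm_102_a : ∃ t, chk3 f_pm_102_a t 4 6 1 = true :=
  ⟨(a (l 2) (b (l 16289296) (a (l 16299344) (l 16313536)))), by decide +kernel⟩

def k2_pm_102_a : ∃ t, chk3 f_pm_102_a t 8 7 1 = true :=
  ⟨(b (a (l 2) (b (l 16307896) (l 16314112))) (b (a (a (l 2) (l 16320840)) (a (l 16320856) (l 16345872))) (a (a (c (b (l 16333744) (b (l 140036445710893103) (l 140724602555252783))) (b (l 16320600) (a (c (l 139868151692329007) (l 16318568)) (l 139721573036916783)))) (c (b (l 16332408) (b (l 139933916251242543) (l 139911444988395567))) (b (l 16318056) (l 584332463512831217607215)))) (a (a (b (c (l 16334424) (l 16318632)) (c (l 140073416799076399) (l 585087627047427573621295))) (b (l 584875201501271700171311) (c (l 139925601212514351) (l 585072350870476886827567)))) (b (c (l 140008064581746735) (l 16324744)) (c (b (l 140012737520779311) (a (l 139983806625103919) (l 140058092393906223))) (b (l 585047851397149493013039) (l 584987611224275816653359)))))))), by decide +kernel⟩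

def k3_pm_102_a : ∃ t, chk3 f_pm_102_a t 9 7 1 = true :=
  ⟨(b (a (b (l 16312888) (l 16324800)) (b (l 16336928) (l 16356120))) (b (a (b (l 16335664) (a (l 16337496) (l 16352896))) (b (l 16374008) (a (l 16374792) (l 16404096)))) (c (a (b (a (l 140142205028352047) (l 140335031921393711)) (a (b (l 140172235458658351) (a (l 140147084134039599) (l 140251881357443119))) (b (a (l 140332626750881839) (l 140461200919101487)) (a (c (l 140446632395489327) (l 140297648538370095)) (c (l 140590256132685871) (l 140435362397831215)))))) (a (b (l 140956118608740399) (b (a (l 140608672947683375) (l 140776348506996783)) (b (a (l 140657326353203247) (l 140835447274979375)) (a (c (l 140955156595638319) (l 140607710883266607)) (c (a (l 140915642926874671) (l 141016798018502703)) (l 140788924181282863)))))) (b (b (l 16456576) (l 140976734538137647)) (b (a (l 140965876864794671) (l 141178701130448943)) (a (b (l 141216496816652335) (a (c (l 141304251612938287) (l 140939626025533487)) (c (a (l 141208800278134831) (l 141267280565534767)) (l 141047515626848303))))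 (b (c (l 141355035353727023) (l 141166950099222575)) (b (c (l 141584146101813295) (l 141207082284892207)) (c (a (c (l 141423548691611695) (l 141325279815876655)) (c (b (l 141544563716227119) (l 141743369167077423)) (l 141451929838927919))) (a (l 141175059003703343) (l 141296761222938671)))))))))) (a (a (b (l 16335104) (a (l 139836678198525999) (l 139933847554801711))) (b (l 140093551626190895) (b (l 140101316943970351) (a (l 140048540387016751) (l 140180344367513647))))) (a (b (l 140338674046484527) (b (l 140376607220039727) (a (b (l 140321494196797487) (l 140337162245767215)) (a (l 140452748425429039) (l 140541259128864815))))) (b (l 140651004130820143) (b (a (l 140630250858954799) (l 140824245981151279)) (a (b (l 140669214817517615) (c (l 140798270028185647) (l 140596715757813807))) (a (c (l 140938595226304559) (l 140735872723025967)) (c (l 141321362735087663) (l 140843487445106735))))))))))), by decide +kernel⟩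

def k4_pm_102_a : ∃ t, chk3 f_pm_102_a t 5 6 1 = true :=
  ⟨(a (b (a (l 16312272) (l 16343576)) (a (l 16346040) (l 16394192))) (b (a (l 16415136) (l 16493208)) (a (l 16467576) (b (l 16526760) (l 16549896))))), by decide +kernel⟩

def k5_pm_102_a : ∃ t, chk3 f_pm_102_a t 10 14 1 = true :=
  ⟨(a (b (l 16381504) (l 16412632)) (b (b (l 16437080) (l 16459528)) (b (l 16482840) (l 16506768)))), by decide +kernel⟩

def k6_pm_102_a : ∃ t, chk3 f_pm_102_a t 10 30 1 = true :=
  ⟨(b (a (l 16461368) (a (l 16508416) (a (l 16545264) (l 16567608)))) (a (a (l 16462560) (a (l 16475064) (l 16499088))) (a (a (l 16521512) (l 141947259907080239)) (a (b (l 16561664) (l 16569464)) (l 16578280))))), by decide +kernel⟩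

def k7_pm_102_a : ∃ t, chk3 f_pm_102_a t 40 31 1 = true :=
  ⟨(a (b (c (l 141244809273147439) (l 140931036057157679)) (b (a (c (l 141354554309738543) (l 140983675200028719)) (l 141285147616722991)) (a (c (b (l 141447737944850479) (c (b (l 141600913697030191) (a (a (l 141587032360943663) (l 141801505855307823)) (a (l 141836346637582383) (a (l 141862597483429935) (l 141700007205322799))))) (a (l 141376888149065775) (a (l 141425678988001327) (l 141458183307575343))))) (b (l 141042292932771887) (a (l 141235875706126383) (a (l 141100979382616111) (l 141310573792968751))))) (b (c (l 141577480345534511) (l 141154030826602543)) (c (b (a (l 141597683878019119) (l 141930423598252079)) (a (a (c (l 141906646677684271) (l 141507111586562095)) (b (l 141642007951228975) (c (b (l 141765428161691695) (c (a (l 141822465341554735) (l 141834353813717039)) (l 141717049638420527))) (l 141545182185488431)))) (b (c (l 141790716934438959) (l 141567584739311663)) (c (c (b (l 141854145027276847) (l 141859161550503983)) (l 141744812313247791)) (l 141575350042722351)))))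 (b (a (l 141161040217571375) (l 141214091665621039)) (a (c (l 141477562161217583) (l 141069230976827439)) (c (l 141343284314128431) (l 141111424745275439))))))))) (b (b (l 16491784) (l 141892215483351087)) (b (b (a (l 141374689113587759) (l 141487870117330991)) (a (l 141789617329405999) (l 141527040231047215))) (b (a (c (b (l 141682483728760879) (l 141706398113333295)) (l 141432413449306159)) (c (l 141779378213748783) (l 141327616264863791))) (c (a (b (l 141905547162550319) (c (b (l 141851258807320623) (a (c (a (l 141886786786345007) (l 141907196475605039)) (l 141783913704489007)) (c (a (l 141927881042821167) (l 142038863002517551)) (l 141824045888094255)))) (b (l 141624278320726063) (a (l 141612664727207983) (l 141830986513612847))))) (b (l 142076108922290223) (c (b (l 142114591861162031) (c (l 14) (a (b (l 141862803681673263) (l 141867339168481327)) (a (l 141896476233105455) (l 141917779275726895))))) (b (l 141702481103241263) (a (c (l 141748660603486255) (l 141631218989727791)) (c (l 141789411262496815) (l 141670801417388079)))))))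 (a (b (l 141270510369177647) (c (b (l 141393586982404143) (l 141398740945256495)) (l 141160559182741551))) (b (l 141340947849297967) (c (a (l 141450761600761903) (l 141488351163220015)) (l 141228797639114799))))))))), by decide +kernel⟩

def k8_pm_102_a : ∃ t, chk3 f_pm_102_a t 41 62 1 = true :=
  ⟨(b (a (l 141472683099766831) (l 141673756334751791)) (a (b (l 141544976009855023) (l 141584833318387759)) (l 141741857357561903))), by decide +kernel⟩

def k9_pm_102_a : ∃ t, chk3 f_pm_102_a t 41 126 1 = true :=
  ⟨(a (b (l 141617543799865391) (c (l 141869813063368751) (l 141420181417902127))) (b (l 141789892287119407) (a (l 141775529916153903) (b (l 141859298976563247) (l 142054256136880175))))), by decide +kernel⟩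

def k10_pm_102_a : ∃ t, chk3 f_pm_102_a t 41 127 1 = true :=
  ⟨(b (a (c (a (l 141863422153048111) (l 141951795420201007)) (a (l 141401352280588335) (l 141479280185196591))) (a (c (l 142044566734749743) (l 141561331259228207)) (a (b (l 141865964770246703) (c (l 142125449577660463) (l 141629844594016303))) (b (l 141910495001264175) (l 141923276828295215))))) (c (a (a (b (c (l 142006839737237551) (l 141773124740399151)) (c (b (l 142201865616408623) (a (a (c (l 14) (l 142029379710828591)) (l 14)) (l 14))) (b (l 141784669616193583) (a (c (l 141921283947872303) (l 141711277198442543)) (c (b (l 141871943372652591) (l 141966089057042479)) (l 141752783771844655)))))) (c (l 14) (b (l 141859230264328239) (b (l 141870981298536495) (c (a (a (l 141906784155402287) (l 141928911831924783)) (l 14)) (a (l 141795321137594415) (l 141928980529709103))))))) (c (l 14) (c (l 14) (a (b (a (l 141865277578919983) (a (l 141899362447081519) (l 141922177318486063))) (a (b (l 141876272698769455) (b (l 141881701539184687) (a (l 141874073675907119) (a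 (l 141890978670985263) (b (l 141991515267711023) (a (c (l 14) (l 141868713555296303)) (l 141906096959356975))))))) (c (l 14) (a (b (l 141878952758624303) (b (l 141884175440576559) (l 141887680135036975))) (l 141904997446533167))))) (b (l 141978389863153711) (l 14)))))) (a (a (b (l 141415233620869167) (c (a (l 141526902798532655) (l 141746598974717999)) (l 141300815667445807))) (b (l 141493505122877487) (c (b (l 141624896794329135) (a (l 141609778506842159) (l 141831536267722799))) (b (l 141374963999424559) (l 141378399975014447))))) (a (b (a (l 141554940349087791) (a (l 141586551315578927) (b (l 141605449175531567) (l 141609984662896687)))) (a (a (c (l 141860673332035631) (l 141426160021782575)) (b (l 141572395101487151) (b (l 141755944825290799) (c (a (l 141700831834374191) (b (l 141711002319110191) (a (l 141889810397495343) (l 141715125488844847)))) (a (l 141443889651531823) (l 141454060136398895)))))) (b (a (c (b (l 141719592254537775) (l 141722409754116143)) (l 141464986534510639)) (l 141614451430785071)) (c (a (b (l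 141905341002219567) (l 141728044753289263)) (l 141928636910305327)) (b (l 141477837080281135) (l 141479692507054127)))))) (b (a (l 141819029317271599) (l 141680903178567727)) (c (b (l 141797520158965807) (a (c (b (l 141844799170674735) (l 141848441304137775)) (l 141716912194928687)) (c (a (l 141881083062714415) (l 141904378970554415)) (l 141761648584359983)))) (b (l 141536935842988079) (a (l 141520443165753391) (l 141563117970440239))))))))), by decide +kernel⟩

def k11_pm_102_a : ∃ t, chk3 f_pm_102_a t 21 62 1 = true :=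
  ⟨(b (a (a (l 16538688) (l 142046078545182767)) (a (l 16576248) (l 16585512))) (a (a (a (l 141881838963638319) (l 141974610278367279)) (b (l 142083461953290287) (l 142106001949671471))) (a (l 142246533311021103) (l 142339923096158255)))), by decide +kernel⟩

def k12_pm_102_a : ∃ t, chk3 f_pm_102_a t 21 126 1 = true :=
  ⟨(b (a (a (a (l 141928774381158447) (l 142013024478937135)) (l 142134795419648047)) (a (l 142291956898119727) (l 142395173569708079))) (a (a (a (b (l 141949115353071663) (l 141961484863160367)) (l 142039000449876015)) (c (l 142378268583231535) (l 141913243776630831))) (a (a (l 142301852507619375) (l 142357446573850671)) (a (l 142232308416184367) (l 142286665531670575))))), by decide +kernel⟩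

def k13_pm_102_a : ∃ t, chk3 f_pm_102_a t 21 127 2 = true :=
  ⟨(a (c (a (l 14) (a (l 14) (c (c (b (l 142583877300093103) (b (l 142617481132327087) (b (l 142635554359034031) (a (a (l 14) (l 142640364724027567)) (a (l 142655826609012911) (l 142671151055044783)))))) (l 14)) (l 14)))) (l 14)) (b (a (a (l 142323018148511919) (l 142380124043608239)) (a (b (l 142603943386120367) (l 142449943045013679)) (b (l 142658437940674735) (l 142685925737889967)))) (a (a (c (b (a (l 142602981318623407) (l 142632461979320495)) (a (b (l 142622154057187503) (c (b (l 142671151054340271) (a (l 142670257701388463) (l 142685513427927215))) (l 14))) (b (l 142652253193306287) (c (a (l 142697264460316847) (l 142712314028392623)) (c (a (l 142638852893311151) (l 142654108619849903)) (l 14)))))) (l 14)) (a (b (l 142403900989210799) (c (b (l 142682214890438831) (c (b (l 142731280607101103) (l 142738427434352815)) (b (l 142653971180191919) (a (l 142653490144182447) (l 142668745870721199))))) (l 14))) (b (l 142253474059862191) (c (b (l 142711832990138543)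 (a (c (l 142757050415644847) (l 142680222025154735)) (c (l 142771825105748143) (l 142695271593214127)))) (a (l 14) (a (l 14) (b (l 142568346693746863) (c (l 142621810457804975) (l 14))))))))) (b (a (b (l 142290307705438383) (l 142394555155005615)) (b (l 142347138722676911) (l 142361982133141679))) (a (b (c (a (l 142741107492389039) (l 142769969677713583)) (a (l 142587244553191599) (l 142617274969800879))) (c (a (c (l 142793746622709935) (a (l 142710183722303663) (l 142725027131900079))) (c (l 142822677527511215) (b (l 142743306515726511) (l 142750934379413679)))) (c (a (b (l 142636997464637615) (a (l 142636928734838959) (l 142652047033139375))) (b (l 142666959161786543) (a (l 142667096601198767) (l 142682077449781423)))) (l 14)))) (b (a (a (l 142355453782589615) (l 142369884875243695)) (l 142436474051985583)) (c (a (c (l 142851264834879663) (l 142776223151112367)) (c (l 142879439825322159) (l 142804947897467055))) (a (c (a (l 142693072567779503) (l 142707847257882799)) (c (a (l 142635691793301679) (l 142650672641867951))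 (l 14))) (c (b (l 142725783044243631) (l 142733823216844975)) (b (l 142649916726853807) (a (l 142650466483224751) (l 142665378612314287)))))))))))), by decide +kernel⟩

def k14_pm_102_a : ∃ t, chk3 f_pm_102_a t 21 127 3 = true :=
  ⟨(a (b (a (a (l 141727976028340271) (l 141812982040363055)) (a (l 141901905063313455) (l 141994882536177711))) (a (a (b (c (l 141876685012844591) (l 141614039112024111)) (c (b (l 142068962112569391) (c (l 14) (a (l 141897507000139823) (a (l 141842531426598959) (l 141866239651364911))))) (b (l 141622766488829999) (a (l 141787006035509295) (c (l 141719523534913583) (l 141583665098424367)))))) (b (c (l 141969525046738991) (l 141701519025635375)) (c (a (b (l 141960041757868079) (a (c (l 14) (l 141890291473580079)) (l 14))) (l 14)) (b (l 141712857743048751) (a (c (l 141766184070037551) (l 141628882524258351)) (c (b (l 141811538934612015) (l 141816349299425327)) (l 141675268181409839))))))) (c (l 14) (a (b (l 141793122108669999) (b (l 141987460793172015) (c (c (l 14) (a (l 141827894173696047) (l 141877578366402607)))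 (a (l 141722753350402095) (l 141771338031251503))))) (b (l 141889123239067695) (c (l 14) (b (l 141834972280078383) (a (b (l 141818273444085807) (l 141913999676801071)) (a (l 141859230261461039) (l 141885000070922287)))))))))) (a (a (b (l 142091914458988591) (a (b (l 142106139395719215) (l 14)) (l 14))) (l 14)) (l 14))), by decide +kernel⟩

def k15_pm_102_a : ∃ t, chk3 f_pm_102_a t 11 14 1 = true :=
  ⟨(b (a (l 16528864) (l 16566896)) (a (a (a (l 16556136) (l 16569112)) (l 16573560)) (b (l 16558744) (a (l 16557032) (l 16583856))))), by decide +kernel⟩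

def k16_pm_102_a : ∃ t, chk3 f_pm_102_a t 22 30 1 = true :=
  ⟨(b (b (l 16578784) (l 16581472)) (a (b (l 16582472) (l 16566624)) (a (l 16569592) (a (l 16573736) (l 142348169448046703))))), by decide +kernel⟩

def k17_pm_102_a : ∃ t, chk3 f_pm_102_a t 22 62 1 = true :=
  ⟨(a (b (b (l 16571720) (l 142236981327806511)) (a (l 142249900596707375) (a (l 142494404505731247) (b (l 142512615168311407) (l 142384247198351471))))) (b (a (l 142455234359246959) (l 16617984)) (a (b (l 142425547608244335) (l 142670876155494511)) (b (l 16628872) (a (l 142783644837920879) (l 142864458956505199)))))), by decide +kernel⟩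

def k18_pm_102_a : ∃ t, chk3 f_pm_102_a t 22 126 1 = true :=
  ⟨(a (b (a (l 142314771798966319) (a (l 142386171347550383) (l 142446575778463855))) (a (a (l 142339235940450351) (l 142390225801003183)) (a (a (b (l 142593910333210799) (l 142264812766478511)) (l 142281236723515567)) (c (l 142838551718527087) (l 142544501018984623))))) (a (a (b (l 142698501393432687) (l 142400121440010351)) (b (l 142769832223490159) (l 142466435747233903))) (a (a (b (l 142822471352467567) (l 142875660240207983)) (c (l 143020383485935855) (b (l 142718017726529711) (l 142769282468610223)))) (b (c (l 143050963656376559) (l 142780896058130607)) (c (a (l 143082505905225967) (l 143134045521903855)) (a (l 142811751112392879) (l 142870300116779183))))))), by decide +kernel⟩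

def k19_pm_102_a : ∃ t, chk3 f_pm_102_a t 22 254 1 = true :=
  ⟨(a (a (a (c (b (l 142711489385939119) (l 142740282853490863)) (l 142240211157467183)) (b (a (l 142599957651898543) (a (l 142259452648128687) (l 142274021179769007))) (b (a (l 142262132709572783) (l 142291338470883503)) (a (a (l 142631018863132847) (l 142284810055925935)) (l 142308174768095407))))) (a (a (l 142405206669164719) (l 142437367390093487)) (c (b (l 142884731217707119) (l 142914349319143535)) (l 142428021520908463)))) (b (a (a (l 142443414720626799) (l 142505880736350319)) (a (a (l 142912150291202159) (c (l 143080925359538415) (a (l 142795945632678063) (l 142815736845615279)))) (c (l 143161258442522863) (a (l 142862534817661103) (l 142932972294078639))))) (a (c (a (l 142972898323873903) (l 143030210377842799)) (a (l 142686819085336751) (l 142749216381501615))) (a (c (a (l 143072404144210031) (a (l 143098586269761775) (l 143124630956523759))) (a (l 142795258439254191) (a (l 142824189344415919) (l 142853670005637295)))) (c (l 143201390626210031) (l 142581059857399983)))))),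 by decide +kernel⟩

def k20_pm_102_a : ∃ t, chk3 f_pm_102_a t 88 255 1 = true :=
  ⟨(c (a (a (b (l 142396341877096623) (b (l 142419775224135855) (a (c (l 142863428183425199) (c (l 142751552852787375) (l 142676030132863151))) (c (l 142877378239676591) (c (l 142765915225964719) (l 142690736103473327)))))) (b (l 142423829651144879) (a (b (l 142801030884769967) (a (c (l 142887754882498735) (b (l 142735060174389423) (l 142743375233007791))) (b (c (l 142890572381307055) (l 142742207001231535)) (a (b (c (l 142895039148425391) (l 142746673768349871)) (a (c (l 142898268964634799) (a (l 142749559987110063) (a (l 142750247171260591) (b (l 142749628706554031) (l 142751759010807983))))) (c (l 142899986951848111) (b (l 142750728218378415) (l 142752858522648751))))) (b (a (c (l 142897650489000111) (l 142749422547910831)) (l 142645518714273967)) (c (l 142902598292422831) (l 142754507790319791))))))) (a (b (c (l 142885280979992751) (b (l 142732861149806767) (l 142741107488948399))) (c (b (l 142897581769162927) (l 142905759388811439)) (b (b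 (l 142747360962773167) (l 142751552851837103)) (l 142757875045154991)))) (b (b (l 142634248716845231) (l 142822677523988655)) (c (l 142908645607112879) (l 142760967421919407))))))) (b (a (a (b (l 142796632835653807) (a (l 142448912286498991) (l 142816424049377455))) (l 142459014050922671)) (l 142841506662416559)) (c (a (b (l 142910019995992239) (l 142926100357284015)) (l 142945960289140911)) (a (b (l 142762685408231599) (c (l 142816080452862127) (b (l 142737740233654447) (l 142745917853286575)))) (b (l 142791959910531247) (c (l 142844461601783983) (l 142770794308042927))))))) (c (a (c (c (b (l 142600713569550511) (a (l 14) (a (b (l 142631980938363055) (a (l 142644968922710191) (b (l 142648061299474607) (a (b (l 142652596786086063) (a (b (l 142654795809915055) (c (a (l 142665928367423663) (l 142666890440261807)) (l 14))) (b (l 142656651236114607) (l 142658781540401327)))) (b (a (l 142655345565647023) (l 142657200991846575)) (l 142660499527549103)))))) (b (a (l 142654108611805359) (b (l 142645999713861807) (l 142654452211466415)))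 (a (b (b (l 142653352700002479) (l 142657613308543151)) (l 142664004221354159)) (l 142667165317628079)))))) (l 14)) (l 14)) (b (a (a (a (l 142395585882980527) (l 142403076307271855)) (l 142594872411881647)) (l 142618511916089519)) (a (b (l 142612533321941167) (c (b (l 142662835989217455) (a (l 142663660623544495) (l 142678366594187439))) (l 14))) (b (l 142643044775018671) (a (c (l 142689086834213039) (l 14)) (b (l 142662423671586991) (c (l 142707641096454319) (l 142632736841433263)))))))) (l 14))), by decide +kernel⟩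

def k21_pm_102_a : ∃ t, chk3 f_pm_102_a t 89 255 1 = true :=
  ⟨(c (a (b (c (l 142957505161609391) (l 142812713194913967)) (c (a (l 142973448084717743) (l 143000592282845359)) (a (b (l 142820959534874799) (c (l 142872499153256623) (l 142799381615427759))) (a (l 142759730486657199) (l 142863840496402607))))) (b (c (l 143013648984129647) (l 142871262199562415)) (b (c (l 143034058673553519) (l 142891946766958767)) (c (a (l 143034196113326255) (l 143060309519122543)) (a (l 142891603170345135) (l 142918816087965871)))))) (b (a (l 142410223175844015) (l 142427334336676015)) (b (a (a (l 142418057198944431) (l 142403351236313263)) (a (l 142388370395725999) (l 142417988495491247))) (c (a (b (a (l 142684620066521263) (l 142713894568788143)) (a (c (l 142729356454936751) (a (l 142647511542284463) (l 142662217512894639))) (c (l 142757943762337967) (a (l 142676786044551343) (l 142691285856714927))))) (a (c (l 142782820217110703) (a (l 142702280974713007) (l 142716643347906735))) (c (l 142810926488076463) (b (l 142734854012256431) (l 142741382364119215)))))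 (c (a (l 14) (a (c (a (l 142646686907236527) (l 142661324158369967)) (l 14)) (b (l 142661392877338799) (a (l 142660636963405999) (l 142675068056076463))))) (l 14)))))), by decide +kernel⟩

def k22_pm_102_a : ∃ t, chk3 f_pm_102_a t 90 255 1 = true :=
  ⟨(a (a (c (b (l 142984855516512367) (c (l 143080100731535599) (b (l 142933384618819759) (l 142945754127614127)))) (b (l 142337861586141359) (b (l 142447331717284015) (a (c (l 142795670760833199) (c (l 142686338052047023) (l 14))) (c (l 142809552097607855) (c (l 142700631705747631) (c (l 142645656113741999) (l 14)))))))) (c (b (l 143012549470601327) (c (l 143105870539899119) (l 142966576132374703))) (b (l 142367892002865327) (b (l 142431251364888751) (c (c (l 142866108237676719) (l 142794365089890479)) (c (a (l 142714925359431855) (l 142729081574162607)) (b (l 142646068430209199) (a (l 142599614053351599) (l 142658987694538927))))))))) (c (b (c (l 143122019618357487) (l 142984374478536879)) (a (c (l 143131365470290159) (l 142993170574606511)) (a (c (l 143150263329751279) (l 143012824348459183))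 (b (c (l 143157959912177903) (l 143021139406274735)) (c (l 143172116127744239) (a (l 143029179587248303) (l 143040861900554415))))))) (b (b (l 142586832262332591) (l 142418125949747375)) (a (b (l 142459907391799471) (c (c (l 142893114996834479) (l 142821990324437167)) (b (l 142621260711248047) (c (l 142752858517536943) (a (l 142673281348239535) (l 142687437562953903)))))) (a (b (l 142796357953683631) (c (l 142877927989084335) (c (l 142771069181903023) (l 142698982436913327)))) (a (b (l 142806940754985135) (c (b (l 142885624571674799) (c (l 142927955777994927) (l 142857518300479663))) (b (l 142743306507616431) (b (c (l 142783919726477487) (l 142712107859427503)) (a (a (l 142656857396265135) (l 142659881053831343)) (l 142756088333205679)))))) (b (l 142454341121245359) (c (b (l 142896550970556591) (l 142907202491908271)) (b (l 142754782662426799) (l 142765846490005679)))))))))), by decide +kernel⟩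

def k23_pm_102_a : ∃ t, chk3 f_pm_102_a t 91 255 1 = true :=
  ⟨(a (b (c (a (a (b (l 143081612556779631) (l 143094050785050735)) (l 143109169072570607)) (a (l 143136244551778543) (l 143165244176662767))) (a (b (l 142454066241913007) (a (l 142456265266249903) (l 142843362083930287))) (a (l 142864733845094575) (c (l 142965476617765039) (l 142829274588217519))))) (c (a (b (c (l 143191632462348527) (l 143056942260617327)) (c (l 143211629834698991) (l 143077695547408495))) (a (l 143177613686325487) (c (l 143271072193544431) (l 143141398514614511)))) (a (b (a (a (l 142488288544948399) (l 142841300499939503)) (l 142685650889998511)) (c (l 142941287358955695) (c (l 142837246050844847) (a (l 142750041017942191) (a (l 142775673387843759) (l 142792715821449391)))))) (a (c (l 142977502530060463) (b (l 142829549467369647) (b (l 142846798059978927) (c (l 142892496521281711) (c (l 142841231781707951) (l 142806803317244079)))))) (c (a (l 143001073315266735) (l 143017634712273071)) (c (a (l 142900124384166063) (l 142917441695563951)) (c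 (a (l 142849134522548399) (l 142866864150872239)) (b (l 142812300875448495) (a (l 142826594530279599) (l 142844599036559535)))))))))) (a (c (c (l 143295192733466863) (l 143167924236566767)) (b (l 142589993393176751) (b (c (l 143049176957321391) (l 142917647853060271)) (c (l 142981075960938671) (c (l 142973448079818927) (c (l 142924038766461103) (b (l 142885143534895279) (c (l 142905072187408559) (a (l 142869887808766127) (l 142907133771890863)))))))))) (c (c (l 143354566372327663) (l 143231627203150063)) (b (l 142660430869577903) (c (c (l 143159471738634415) (l 143096799563350191)) (c (l 143033508912791727) (b (l 142958123631706287) (b (l 142975372224331951) (c (l 143002860020777135) (a (l 142952419909959855) (l 142989528439423151))))))))))), by decide +kernel⟩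

def k24_pm_102_a : ∃ t, chk3 f_pm_102_a t 23 30 1 = true :=
  ⟨(b (a (l 16574064) (l 16634184)) (a (a (a (l 16607680) (l 16616816)) (l 16630608)) (a (l 16652744) (l 16675432)))), by decide +kernel⟩

def k25_pm_102_a : ∃ t, chk3 f_pm_102_a t 23 31 1 = true :=
  ⟨(b (a (b (a (l 142682764649562223) (l 142911669265825903)) (c (a (a (l 143057285843648751) (l 143163663612297455)) (l 16681512)) (a (b (l 16631144) (l 142708603182940271)) (l 16658120)))) (a (c (l 16695328) (l 143160296375517423)) (b (l 16699440) (l 16716176)))) (b (a (c (a (a (b (l 143149507403186415) (l 143225236284178671)) (l 143310517168341231)) (c (l 143548492761317679) (l 143446444315705583))) (a (b (l 142782751515672687) (c (l 143106763880071279) (l 142983343674949807))) (c (l 143342265566445807) (l 143055636606566511)))) (c (a (c (l 16725232) (l 143706685019996463)) (l 16741776)) (a (l 143398409417834735) (l 143689848768135407)))) (c (c (a (a (b (l 143423629455294703) (a (l 143443283233112303) (l 143561618193662191))) (a (l 143641332799127855) (l 143760492393234735)))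 (a (a (l 143879720706687279) (l 143998880300482863)) (l 144177413532369199))) (a (b (a (a (l 143244477743562991) (l 143372295993409775)) (l 143564779282186479)) (a (a (c (l 143356215637885167) (l 143297460473168111)) (c (l 143481078949740783) (l 143426790551699695))) (a (l 143581615561343215) (l 143709502530289903)))) (a (a (l 143798013229662511) (l 143926793551561007)) (a (l 144055711312232751) (l 144184629072691503))))) (c (a (a (a (b (l 143122500647436399) (c (l 143238155552653551) (b (l 143156516797186223) (l 143200222394482863)))) (b (l 143259252430651631) (a (l 143310379734958319) (l 143378618187514095)))) (a (b (l 143396760127996143) (c (l 143506505157230831) (l 143455858892226799))) (b (l 143534886300516591) (c (l 143641470233313519) (l 143595565612908783))))) (a (a (b (l 143673562228703471) (l 143756369217421551)) (l 143853538571780335)) (a (l 143992420657971503) (l 144131508902363439)))) (a (a (b (l 142890778560004271) (a (c (a (b (l 143060034633318575) (l 143104771022995631)) (l 143153699298017455)) (b (l 143034264823808175)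 (b (l 143068418411610287) (a (a (l 143036326406045871) (l 143073022618550447)) (l 143128066929229999))))) (a (b (l 143174040264949935) (c (l 143247363962650799) (l 143190326785589423))) (c (l 143296841993470127) (l 143241591523066031))))) (b (a (l 143290863392358511) (l 143438541573570799)) (a (c (l 143404662871441647) (a (l 143315877290442927) (l 143390300496740527))) (c (l 143549179956216047) (l 143502244543758575))))) (a (b (a (l 143586906949402863) (l 143735890800361711)) (a (c (l 143694246796656879) (l 143652259187245295)) (l 143821377849262319))) (c (l 143837114640842991) (l 143851889320820975)))))))), by decide +kernel⟩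

def k26_pm_102_a : ∃ t, chk3 f_pm_102_a t 3 2 1 = true :=
  ⟨(a (a (b (a (l 16540824) (a (l 16584752) (l 16618480))) (a (b (l 16529176) (l 16536360)) (b (l 16643168) (a (l 16573136) (l 16588712))))) (b (a (l 16655864) (l 16676456)) (a (b (l 16647960) (a (l 16606448) (l 16623912))) (b (l 16671984) (l 16665400))))) (a (a (b (b (l 16667088) (l 16668176)) (b (l 16674280) (l 16685360))) (b (a (b (l 16652016) (l 16654784)) (b (l 16643488) (l 16646056))) (a (b (l 16663104) (l 16677776)) (b (l 16654464) (a (l 16672776) (l 16668896)))))) (a (b (a (b (a (l 16637776) (l 16633696)) (l 16637656)) (a (b (b (l 16629080) (l 16628376)) (b (l 16629264) (l 16631592))) (b (b (l 16625288) (l 16624368)) (b (l 16624944) (l 16626992))))) (a (b (l 16645968) (b (l 16656760) (l 16666640))) (a (b (l 16638248) (b (l 16648656) (l 16658624))) (b (b (a (l 16631392) (l 16629464)) (l 16656528)) (b (l 16642752) (l 16651880)))))) (b (a (a (b (a (b (l 109152270423) (l 91972397975)) (l 3)) (a (b (l 16622824) (l 16624736)) (b (l 88214296903) (c (l 93583025799)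 (l 107004782759))))) (b (l 3) (l 3))) (l 3)) (a (a (b (b (a (l 16628056) (l 16627000)) (l 16642720)) (a (b (l 16638968) (l 16647280)) (b (l 16637952) (l 16645784)))) (b (a (b (c (l 101636091495) (l 124184653815)) (c (l 90898685207) (l 107004796391))) (l 3)) (b (a (l 16637088) (a (l 116131611895) (l 3))) (a (l 16644864) (b (l 115057879495) (l 106467952583)))))) (a (b (l 3) (l 3)) (l 3))))))), by decide +kernel⟩

def k27_pm_102_a : ∃ t, chk3 f_pm_102_a t 6 6 1 = true :=
  ⟨(a (a (b (l 16554856) (a (l 16548064) (l 16591096))) (b (b (l 16586704) (l 16575720)) (a (l 16615952) (l 16637992)))) (a (b (l 16626496) (l 16662744)) (b (a (l 16651504) (l 16665240)) (b (l 16679840) (l 16704272))))), by decide +kernel⟩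

def k28_pm_102_a : ∃ t, chk3 f_pm_102_a t 12 7 1 = true :=
  ⟨(b (a (b (b (l 16605816) (l 16623840)) (l 16660088)) (b (l 16677392) (l 16724944))) (a (b (b (a (l 16680384) (l 16722584)) (a (l 16710096) (l 16753064))) (b (a (c (l 16749096) (l 16713640)) (c (l 16788376) (l 16758200))) (a (b (a (c (l 16762808) (l 143982731226612015)) (a (l 16772296) (l 16783120))) (c (a (b (l 16775320) (c (l 144450710940926319) (l 144415114239213871))) (l 144507198377083247)) (c (a (l 144159958800482607) (l 144438066568298799)) (a (l 144211498395664687) (l 144556538936623407))))) (a (c (b (l 16802968) (b (l 16814936) (l 144736377879626095))) (b (l 16794464) (a (l 144791697024909615) (l 144963564457525615)))) (b (l 16817128) (c (l 16835880) (a (l 145094956116705647) (a (l 16833392) (l 16837640))))))))) (b (b (a (l 16756328) (l 16779296)) (a (l 16766888) (l 16810600))) (b (a (c (l 16818952) (l 16793480)) (b (l 16831648) (l 16825048))) (b (a (c (l 16840936) (l 16817312)) (a (l 16856384) (l 16864904))) (a (c (a (l 16849936) (l 16882496)) (a (b (l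 16843328) (a (l 16847880) (l 16855304))) (b (l 16857104) (a (l 16862080) (l 16878720))))) (c (a (l 16891824) (b (l 16874584) (l 16881680))) (b (a (l 16868456) (l 16877584)) (c (a (l 16875752) (l 16884232)) (a (a (l 16874376) (l 16879616)) (a (l 16884304) (l 16899016)))))))))))), by decide +kernel⟩

def k29_pm_102_a : ∃ t, chk3 f_pm_102_a t 13 7 1 = true :=
  ⟨(b (a (b (l 16713032) (l 16760160)) (a (b (l 16734664) (l 16781272)) (l 16830120))) (b (b (a (l 16802544) (a (l 16823064) (l 16831160))) (a (a (l 16826368) (l 16861736)) (a (l 16854360) (a (l 16859328) (l 16833840))))) (b (a (a (b (l 16848288) (l 16840992)) (b (l 16863960) (l 16918720))) (a (a (b (l 16875240) (b (l 16884272) (l 16890344))) (b (l 16880296) (l 16846736))) (a (b (l 16876984) (l 16882712)) (b (l 16868352) (l 16874968))))) (a (b (a (a (l 16893272) (l 16900488)) (a (l 16886536) (l 16914280))) (b (a (c (l 16904856) (a (l 16885544) (l 16893312))) (c (a (l 16892872) (l 16898440)) (a (l 16900856) (a (l 16906360) (l 16909760))))) (a (c (a (l 16887768) (l 16893680))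 (b (a (l 16912120) (l 16909240)) (a (c (l 16893392) (a (l 16894528) (l 16898536))) (c (l 16900472) (a (l 16902496) (l 16906408)))))) (a (c (l 16899384) (c (l 16916072) (a (l 16916296) (l 16922728)))) (c (a (l 16903512) (a (l 16905056) (l 16904816))) (a (c (l 16910608) (l 16926464)) (a (b (l 16914072) (a (l 16927360) (l 16916848))) (l 16928216)))))))) (a (a (a (b (l 16929168) (b (l 16925840) (l 16928832))) (a (b (l 16919488) (l 16925480)) (b (l 16897840) (b (l 16901824) (c (l 16899952) (l 16930696)))))) (a (b (c (l 16891024) (l 16901072)) (b (c (l 16895080) (l 16925784)) (c (l 16897760) (l 16928224)))) (b (b (l 16891504) (l 16860536)) (l 16918568)))) (a (b (a (l 16847272) (l 16885432)) (l 16912968)) (b (l 16879408) (l 16904928)))))))), by decide +kernel⟩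

def k30_pm_102_a : ∃ t, chk3 f_pm_102_a t 7 6 1 = true :=
  ⟨(a (a (b (a (l 16689960) (l 16701752)) (b (l 16738208) (a (l 16716288) (l 16718672)))) (b (a (l 16700512) (b (l 16687848) (l 16702632))) (a (b (l 16721904) (l 16726880)) (b (l 16739712) (l 16733824))))) (a (a (b (b (a (l 16682480) (l 16677288)) (a (l 16697240) (l 16690840))) (b (l 16707856) (l 16722264))) (b (a (b (l 16670344) (l 16683032)) (b (l 16662944) (l 16675680))) (b (a (l 16696944) (l 16690128)) (a (l 16712584) (a (l 16707208) (l 16704568)))))) (b (a (a (a (b (l 16658104) (l 16670904)) (b (b (l 16652696) (l 16658336)) (l 16668408))) (a (b (l 16654464) (b (l 16663016) (l 16669520))) (b (b (l 16650728) (l 16655928)) (b (l 16661688) (l 16668104))))) (a (a (b (a (b (l 135458982967) (l 16654776)) (l 3)) (b (a (l 16660520) (l 149954516535)) (a (l 16666760) (l 137606521991)))) (l 3)) (l 3))) (a (a (b (l 16684424) (b (l 16696584) (l 16704984))) (a (b (b (l 16677136) (l 16685416)) (l 16697776)) (b (b (l 16675304) (l 16683200)) (b (l 16691632) (l 16699600))))) (a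 (b (a (b (a (l 16673720) (l 16672496)) (b (l 16678768) (l 16682688))) (a (b (c (l 149954544007) (l 151028282855)) (b (a (l 16676888) (l 152102036455)) (l 137606526327))) (l 3))) (b (a (l 16688552) (a (b (l 16684112) (l 16688088)) (b (l 151028308359) (l 144585865687)))) (a (l 16696560) (a (l 16694248) (a (b (l 16691032) (l 16695232)) (b (l 144585866999) (l 133311588039))))))) (l 3)))))), by decide +kernel⟩

def k31_pm_102_a : ∃ t, chk3 f_pm_102_a t 14 7 1 = true :=
  ⟨(b (a (b (a (l 16749264) (l 16802088)) (a (b (l 16781680) (l 16761512)) (b (l 16773896) (l 16788936)))) (a (b (b (l 16737112) (l 16747624)) (l 16746624)) (b (l 16737592) (b (l 16749016) (l 16762504))))) (a (b (a (b (l 16781192) (l 16840768)) (b (l 16804704) (l 16821696))) (a (a (b (l 16862736) (b (l 16870920) (l 16875352))) (b (l 16853040) (b (l 16862040) (l 16866360)))) (b (a (l 16790872) (l 16792408)) (a (b (l 16853120) (l 16857336)) (l 16873192))))) (b (a (b (l 16788960) (l 16805504)) (b (l 16776672) (l 16792624))) (a (b (b (l 16818616) (l 16785304)) (b (b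 (l 16791560) (l 16835392)) (a (l 16841720) (l 16835144)))) (b (a (l 16812944) (l 16806688)) (b (a (l 16804336) (l 16777240)) (c (l 16825240) (l 16806576)))))))), by decide +kernel⟩

def k32_pm_102_a : ∃ t, chk3 f_pm_102_a t 15 7 1 = true :=
  ⟨(a (b (a (b (l 16738600) (b (l 16745424) (l 16752080))) (a (b (l 16729496) (l 16748600)) (b (b (l 16718560) (l 16727824)) (l 16742752)))) (b (a (b (l 16723960) (l 16760056)) (b (a (l 16758112) (l 16756728)) (a (l 16751960) (b (l 16763480) (l 16770680))))) (a (b (a (l 16800576) (l 16794528)) (b (a (l 16771096) (l 16785976)) (a (l 16818144) (l 6)))) (b (a (l 16746584) (l 6)) (l 6))))) (b (a (a (b (b (l 16713248) (a (l 16722912) (l 16720560))) (b (a (l 16732880) (l 16729656)) (a (l 16743280) (l 16740384)))) (a (b (l 16713968) (b (l 16727336) (l 16758120))) (b (b (l 16707480) (l 16715848)) (b (l 16724976) (l 16734784))))) (a (b (a (a (b (l 16705568) (l 16714232)) (b (l 16704176) (l 16712832))) (b (a (l 16702744) (b (l 95730633975) (l 16703560))) (b (l 16708664) (l 16713224)))) (b (a (a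 (l 16723224) (l 16722192)) (a (b (l 16718384) (l 16723216)) (l 16719704))) (a (b (l 16729872) (l 6)) (l 6)))) (a (b (a (b (a (b (l 141901528711) (l 129553508407)) (l 3)) (b (a (l 16707096) (l 140827804775)) (b (l 120426726311) (l 114521145479)))) (l 3)) (b (a (b (c (l 16716920) (l 76403316055)) (l 6)) (l 6)) (l 6))) (l 3)))) (b (a (a (b (l 16753080) (l 6)) (l 6)) (l 6)) (l 6)))), by decide +kernel⟩

theorem s33_pm_102_a : ∃ t, chk3 f_pm_102_a t 7 7 1 = true := ex3_a k31_pm_102_a k32_pm_102_a

theorem s34_pm_102_a : ∃ t, chk3 f_pm_102_a t 7 3 1 = true := ex3_b k30_pm_102_a s33_pm_102_a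

theorem s35_pm_102_a : ∃ t, chk3 f_pm_102_a t 6 7 1 = true := ex3_a k28_pm_102_a k29_pm_102_a

theorem s36_pm_102_a : ∃ t, chk3 f_pm_102_a t 6 3 1 = true := ex3_b k27_pm_102_a s35_pm_102_a

theorem s37_pm_102_a : ∃ t, chk3 f_pm_102_a t 3 3 1 = true := ex3_a s36_pm_102_a s34_pm_102_a

theorem s38_pm_102_a : ∃ t, chk3 f_pm_102_a t 3 1 1 = true := ex3_b k26_pm_102_a s37_pm_102_a

theorem s39_pm_102_a : ∃ t, chk3 f_pm_102_a t 23 15 1 = true := ex3_b k24_pm_102_a k25_pm_102_a

theorem s40_pm_102_a : ∃ t, chk3 f_pm_102_a t 45 255 1 = true := ex3_a k22_pm_102_a k23_pm_102_a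

theorem s41_pm_102_a : ∃ t, chk3 f_pm_102_a t 44 255 1 = true := ex3_a k20_pm_102_a k21_pm_102_a

theorem s42_pm_102_a : ∃ t, chk3 f_pm_102_a t 22 255 1 = true := ex3_a s41_pm_102_a s40_pm_102_a

theorem s43_pm_102_a : ∃ t, chk3 f_pm_102_a t 22 127 1 = true := ex3_b k19_pm_102_a s42_pm_102_a

theorem s44_pm_102_a : ∃ t, chk3 f_pm_102_a t 22 63 1 = true := ex3_b k18_pm_102_a s43_pm_102_a

theorem s45_pm_102_a : ∃ t, chk3 f_pm_102_a t 22 31 1 = true := ex3_b k17_pm_102_a s44_pm_102_a

theorem s46_pm_102_a : ∃ t, chk3 f_pm_102_a t 22 15 1 = true := ex3_b k16_pm_102_a s45_pm_102_a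

theorem s47_pm_102_a : ∃ t, chk3 f_pm_102_a t 11 15 1 = true := ex3_a s46_pm_102_a s39_pm_102_a

theorem s48_pm_102_a : ∃ t, chk3 f_pm_102_a t 11 7 1 = true := ex3_b k15_pm_102_a s47_pm_102_a

theorem s49_pm_102_a : ∃ t, chk3 f_pm_102_a t 21 127 1 = true := ex3_c k13_pm_102_a k14_pm_102_a

theorem s50_pm_102_a : ∃ t, chk3 f_pm_102_a t 21 63 1 = true := ex3_b k12_pm_102_a s49_pm_102_a

theorem s51_pm_102_a : ∃ t, chk3 f_pm_102_a t 21 31 1 = true := ex3_b k11_pm_102_a s50_pm_102_a

theorem s52_pm_102_a : ∃ t, chk3 f_pm_102_a t 41 63 1 = true := ex3_b k9_pm_102_a k10_pm_102_a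

theorem s53_pm_102_a : ∃ t, chk3 f_pm_102_a t 41 31 1 = true := ex3_b k8_pm_102_a s52_pm_102_a

theorem s54_pm_102_a : ∃ t, chk3 f_pm_102_a t 20 31 1 = true := ex3_a k7_pm_102_a s53_pm_102_a

theorem s55_pm_102_a : ∃ t, chk3 f_pm_102_a t 10 31 1 = true := ex3_a s54_pm_102_a s51_pm_102_a

theorem s56_pm_102_a : ∃ t, chk3 f_pm_102_a t 10 15 1 = true := ex3_b k6_pm_102_a s55_pm_102_a

theorem s57_pm_102_a : ∃ t, chk3 f_pm_102_a t 10 7 1 = true := ex3_b k5_pm_102_a s56_pm_102_a

theorem s58_pm_102_a : ∃ t, chk3 f_pm_102_a t 5 7 1 = true := ex3_a s57_pm_102_a s48_pm_102_a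

theorem s59_pm_102_a : ∃ t, chk3 f_pm_102_a t 5 3 1 = true := ex3_b k4_pm_102_a s58_pm_102_a

theorem s60_pm_102_a : ∃ t, chk3 f_pm_102_a t 4 7 1 = true := ex3_a k2_pm_102_a k3_pm_102_a

theorem s61_pm_102_a : ∃ t, chk3 f_pm_102_a t 4 3 1 = true := ex3_b k1_pm_102_a s60_pm_102_a

theorem s62_pm_102_a : ∃ t, chk3 f_pm_102_a t 2 3 1 = true := ex3_a s61_pm_102_a s59_pm_102_a

theorem s63_pm_102_a : ∃ t, chk3 f_pm_102_a t 2 1 1 = true := ex3_b k0_pm_102_a s62_pm_102_a

theorem s64_pm_102_a : ∃ t, chk3 f_pm_102_a t 1 1 1 = true := ex3_a s63_pm_102_a s38_pm_102_a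

theorem c_pm_102_a : CertB 536870912 536870912 0 536870912 697932185 42949674 3 eng mog cd0q1 cd4q2a pd0 false true false .npp 1 0 2
    ndB0q1 ndB4q2a pcB0 cut_pm_102_a xt_pm_102_a :=
  certB0 (fam := false) (s1 := true) (s2 := false) (a := 1) (b := 0) (c := 2) (cn := .npp) (n1 := ndB0q1) (n2 := ndB4q2a) (pc := pcB0) (cut := cut_pm_102_a) (xt := xt_pm_102_a) (P1 := 536870912) (W1 := 536870912) (P2 := 0) (W2 := 536870912) (P3 := 697932185) (W3 := 42949674) (N0 := 3) (En := eng) (mo := mog) (C1 := cd0q1) (C2 := cd4q2a) (C3 := pd0)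
    rfl s64_pm_102_a

noncomputable def cut_pm_102_b : Cut := Cut.of [[⟨0, 1, 0, 67108864⟩, ⟨1, 0, 0, 67108864⟩, ⟨2, 1, 0, 67108864⟩], [⟨0, 0, 1, 20971520⟩, ⟨1, 1, 2, 20971520⟩, ⟨2, 1, 0, 33554432⟩]]

noncomputable def f_pm_102_b : ℕ → ℕ → ℕ → ℕ → Bool := onCell 536870912 536870912 0 536870912 697932185 42949674
    (rowB 3 eng mog cd0q1 cd4q2b pd0 1 false true false .npp 1 0 2 (qsf 536870912 536870912 1239849684 370763052 0) ndB0q1 ndB4q2b pcB0 cut_pm_102_b Ext.none)

def k0_pm_102_b : ∃ t, chk3 f_pm_102_b t 2 1 1 = true :=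
  ⟨(b (l 1) (b (l 1) (a (l 1) (a (b (l 1) (a (l 222834440327) (l 16431520))) (b (a (l 205117854103) (l 137472022791)) (a (l 16517056) (l 16574000))))))), by decide +kernel⟩

def k1_pm_102_b : ∃ t, chk3 f_pm_102_b t 3 2 1 = true :=
  ⟨(a (l 1) (b (l 1) (a (b (l 1) (a (b (l 1) (a (l 1) (l 16689592))) (b (a (l 1) (b (l 1) (l 16662136))) (a (l 16660192) (l 16632288))))) (a (b (a (l 1) (a (l 1) (b (l 1) (b (l 1) (b (l 1) (l 96804263303)))))) (a (a (b (l 16650824) (l 16611968)) (b (b (l 16646472) (l 16627992)) (l 16598784))) (b (b (a (l 16632616) (b (l 16624216) (l 16614352))) (a (l 16613856) (b (l 16604680) (l 16595048)))) (a (b (l 16594528) (l 16575984)) (b (a (l 16584256) (l 16577568)) (a (l 16566104) (l 16559672))))))) (a (a (a (b (l 3) (b (b (l 3) (b (l 16594360) (l 16584800))) (b (l 97877879303) (l 104320301223)))) (l 3)) (l 3)) (l 3)))))), by decide +kernel⟩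

def k2_pm_102_b : ∃ t, chk3 f_pm_102_b t 6 3 1 = true :=
  ⟨(b (b (a (l 1) (a (b (l 1) (l 194380345639)) (b (l 16699064) (l 16679048)))) (a (a (b (l 1) (l 16576832)) (b (l 194917440999) (l 16628560))) (a (l 16662432) (l 16679824)))) (a (b (a (l 81637695831) (l 16635464)) (a (l 16606104) (l 16614752))) (b (a (l 16625264) (l 16591688)) (a (l 16595528) (l 16562048))))), by decide +kernel⟩

def k3_pm_102_b : ∃ t, chk3 f_pm_102_b t 14 3 1 = true :=
  ⟨(b (a (b (a (l 16704752) (b (l 16652344) (l 16617912))) (b (l 16643576) (l 16574616))) (b (a (b (l 16622968) (l 16589128)) (b (l 16595368) (l 16562048))) (a (l 16650536) (b (l 16532736) (l 16507416))))) (a (b (a (l 16556000) (l 16528712)) (l 16640120)) (b (a (l 16501984) (l 16497632)) (a (l 16474232) (l 16448248))))), by decide +kernel⟩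

def k4_pm_102_b : ∃ t, chk3 f_pm_102_b t 30 3 1 = true :=
  ⟨(b (b (b (a (a (l 16575520) (l 16562632)) (b (a (l 16558360) (l 16545760)) (a (l 16541520) (l 16529288)))) (a (a (l 16542648) (l 16551008)) (a (a (l 16520704) (l 16535560)) (b (l 16513376) (b (l 16501912) (l 16494512)))))) (a (b (a (l 16513800) (a (l 16504560) (l 16498368))) (a (l 16488888) (a (l 16479784) (l 16473760)))) (b (a (b (l 16495896) (l 16482776)) (b (a (l 16486928) (l 16481088)) (c (l 16477688) (l 16464024)))) (a (b (l 16470624) (l 16459256)) (b (a (l 16461896) (l 16456200)) (a (l 16450560) (l 16444864))))))) (b (a (b (a (l 16467552) (a (l 16458416) (l 16452368))) (a (l 16449584) (a (l 16440264) (l 16434016)))) (b (a (b (l 16448504) (l 16438392)) (b (l 16457752) (l 16426416))) (a (c (l 16432432) (l 16416264)) (b (l 16437712) (l 16407776))))) (a (a (l 16428792) (b (l 16422096) (l 16410376))) (b (a (l 16408992) (b (l 16399672) (l 16392576))) (a (l 16397104) (b (l 16386600) (l 16381656))))))), by decide +kernel⟩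

def k5_pm_102_b : ∃ t, chk3 f_pm_102_b t 31 3 1 = true :=
  ⟨(a (a (a (b (b (b (b (l 129016331719) (l 127405682679)) (b (b (l 16508528) (l 128479383383)) (b (l 120963178439) (c (l 16491488) (l 16479976))))) (b (b (b (l 120963163287) (l 123110633479)) (c (b (l 16472088) (l 16466112)) (l 16455648))) (b (b (c (l 16460288) (l 16446432)) (l 16447776)) (b (l 16442104) (l 16436488))))) (b (b (b (c (l 16434912) (l 16421056)) (c (l 16424280) (l 16410440))) (b (c (l 16414240) (l 16400456)) (c (l 16404760) (l 16391320)))) (b (b (c (l 16396200) (l 16383136)) (l 16382856)) (b (l 16376848) (l 16371912))))) (b (b (l 3) (a (b (l 3) (b (b (l 137069234615) (l 137606093367)) (b (l 138679825143) (l 139753554375)))) (l 3))) (b (b (a (b (b (l 141364155623) (l 143511627623)) (b (l 146195970759) (b (l 16412000) (l 150490922439)))) (l 3)) (b (c (c (b (l 143511592647) (l 146195934839)) (l 148343426903)) (l 152638386055)) (c (a (l 16399800) (b (l 147806535655) (l 152101492919))) (l 159617684567)))) (b (b (c (a (l 16391120) (b (l 156933321287) (l 161765149895)))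 (l 153175212999)) (c (a (l 16383600) (b (l 166596979143) (l 120426072471))) (l 16370016))) (b (c (a (l 16377432) (b (l 16375424) (l 16372680))) (l 16364024)) (c (b (l 16371840) (l 16369480)) (l 16359168))))))) (b (l 3) (b (l 3) (a (a (b (b (l 3) (b (l 3) (b (l 3) (l 153175166967)))) (c (b (c (b (l 154248918615) (l 159617621975)) (l 160691376295)) (b (c (a (l 174650011671) (l 3)) (l 167133809655)) (c (a (l 16367232) (l 159617610103)) (l 173039384455)))) (b (l 155322659719) (l 158543861127)))) (l 3)) (l 3))))) (l 3)), by decide +kernel⟩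

theorem s6_pm_102_b : ∃ t, chk3 f_pm_102_b t 15 3 1 = true := ex3_a k4_pm_102_b k5_pm_102_b

theorem s7_pm_102_b : ∃ t, chk3 f_pm_102_b t 7 3 1 = true := ex3_a k3_pm_102_b s6_pm_102_b

theorem s8_pm_102_b : ∃ t, chk3 f_pm_102_b t 3 3 1 = true := ex3_a k2_pm_102_b s7_pm_102_b

theorem s9_pm_102_b : ∃ t, chk3 f_pm_102_b t 3 1 1 = true := ex3_b k1_pm_102_b s8_pm_102_b

theorem s10_pm_102_b : ∃ t, chk3 f_pm_102_b t 1 1 1 = true := ex3_a k0_pm_102_b s9_pm_102_b

theorem c_pm_102_b : CertB 536870912 536870912 1239849684 370763052 697932185 42949674 3 eng mog cd0q1 cd4q2b pd0 false true false .npp 1 0 2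
    ndB0q1 ndB4q2b pcB0 cut_pm_102_b Ext.none :=
  certB1 (fam := false) (s1 := true) (s2 := false) (a := 1) (b := 0) (c := 2) (cn := .npp) (n1 := ndB0q1) (n2 := ndB4q2b) (pc := pcB0) (cut := cut_pm_102_b) (xt := Ext.none) (P1 := 536870912) (W1 := 536870912) (P2 := 1239849684) (W2 := 370763052) (P3 := 697932185) (W3 := 42949674) (N0 := 3) (En := eng) (mo := mog) (C1 := cd0q1) (C2 := cd4q2b) (C3 := pd0)
    rfl (fun _ => rfl) s10_pm_102_b

noncomputable def f_pm_112_a : ℕ → ℕ → ℕ → ℕ → Bool := onCell 536870912 536870912 0 536870912 697932185 42949674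
    (rowB 3 eng mog cd0q1 cd4q2a pd1 0 false true false .dn 1 1 2 (qsf 536870912 536870912 0 536870912 1) ndB0q1 ndB4q2a pcB1 Cut.none Ext.none)

def k0_pm_112_a : ∃ t, chk3 f_pm_112_a t 1 1 1 = true :=
  ⟨(a (a (b (a (b (l 16386328) (a (l 16335272) (l 16338368))) (b (l 16387864) (l 16341584))) (b (a (b (l 16290168) (a (l 16293936) (l 16275064))) (b (l 16293600) (l 16289240))) (a (b (a (l 16280264) (l 16267352)) (a (b (l 16288896) (a (b (l 16296376) (l 16319408)) (l 273299904951))) (l 267394268295))) (b (a (l 16253952) (l 1)) (l 1))))) (b (a (b (l 16413888) (a (l 16348536) (l 1))) (l 1)) (b (l 1) (l 1)))) (l 1)), by decide +kernel⟩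

theorem c_pm_112_a : CertB 536870912 536870912 0 536870912 697932185 42949674 3 eng mog cd0q1 cd4q2a pd1 false true false .dn 1 1 2
    ndB0q1 ndB4q2a pcB1 Cut.none Ext.none :=
  certB0 (fam := false) (s1 := true) (s2 := false) (a := 1) (b := 1) (c := 2) (cn := .dn) (n1 := ndB0q1) (n2 := ndB4q2a) (pc := pcB1) (cut := Cut.none) (xt := Ext.none) (P1 := 536870912) (W1 := 536870912) (P2 := 0) (W2 := 536870912) (P3 := 697932185) (W3 := 42949674) (N0 := 3) (En := eng) (mo := mog) (C1 := cd0q1) (C2 := cd4q2a) (C3 := pd1)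
    rfl k0_pm_112_a

noncomputable def xt_pm_112_b : Ext := extD2 3 ⟨7, 3, 3, 10, 49, 25, 3, 4, 67, 200, 3, 16⟩ eng cd0q1 cd4q2b pd1 false true false .dn 1 1 2 rfl ndB0q1 ndB4q2b pcB1

noncomputable def f_pm_112_b : ℕ → ℕ → ℕ → ℕ → Bool := onCell 536870912 536870912 1239849684 370763052 697932185 42949674
    (rowB 3 eng mog cd0q1 cd4q2b pd1 0 false true false .dn 1 1 2 (qsf 536870912 536870912 1239849684 370763052 1) ndB0q1 ndB4q2b pcB1 Cut.none xt_pm_112_b)

def k0_pm_112_b : ∃ t, chk3 f_pm_112_b t 2 1 1 = true :=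
  ⟨(a (b (a (b (a (l 16352096) (l 16380208)) (a (l 16261208) (l 16310776))) (b (b (l 16418040) (l 16416728)) (b (l 16396592) (l 16363680)))) (a (b (b (a (l 16171968) (l 16232624)) (a (l 16119600) (l 16182616))) (a (b (l 16069368) (b (l 16030840) (l 16004744))) (b (l 16141368) (l 16100984)))) (b (b (l 16324448) (a (l 16248120) (l 16315752))) (b (a (l 16210184) (b (l 16287296) (l 16271864))) (a (l 16180280) (l 16255984)))))) (b (a (b (b (l 16458600) (l 16477344)) (b (l 16474776) (l 16457872))) (b (a (l 16507072) (l 168074030455)) (a (l 16523040) (l 16550688)))) (a (a (b (l 16395144) (b (l 16352528) (b (l 16333936) (l 16326864)))) (b (l 16472440) (b (l 16423960) (a (l 16388240) (l 16427416))))) (b (b (l 16524832) (l 16516680)) (a (b (l 16486000) (l 16482464)) (l 16603912)))))), by decide +kernel⟩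

def k1_pm_112_b : ∃ t, chk3 f_pm_112_b t 3 1 1 = true :=
  ⟨(a (b (b (l 1) (a (a (l 16574608) (l 16583896)) (a (l 16574240) (l 1)))) (a (b (a (l 16571912) (l 16585368)) (a (l 16585080) (l 16608552))) (b (a (l 16574952) (b (l 16551304) (l 16550856))) (a (l 16601272) (b (l 16559008) (l 16583496)))))) (b (l 1) (b (a (b (l 1) (a (l 16510400) (l 354904766775))) (l 1)) (b (a (a (l 16510648) (l 16458608)) (b (l 1) (a (a (l 32782029047) (a (l 16402744) (l 1))) (l 1)))) (a (a (l 16525840) (l 16460488)) (a (b (a (l 16416264) (a (l 16396736) (a (l 16386728) (l 16379992)))) (a (l 16415232) (a (l 16393328) (b (l 16379760) (l 16378176))))) (a (a (b (b (l 1) (a (l 16371800) (c (c (l 12917654743) (l 16367736)) (l 16358480)))) (c (a (l 16373688) (b (b (l 16368112) (l 16366800)) (a (l 16366888) (l 16363104)))) (a (l 16361488) (b (l 16356024) (l 16354024))))) (a (b (b (l 1) (b (l 1) (c (a (b (l 1) (c (l 145658970903) (l 16361432))) (l 1)) (l 134921521207)))) (b (a (c (c (a (l 16364632) (b (l 149417065111) (l 141019271719616543))) (l 151564547319))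 (b (l 16351904) (l 16350696))) (l 3)) (a (c (b (c (l 140967388513746975) (l 16357824)) (c (l 140914268355624991) (l 16356696))) (b (l 16349608) (l 16348640))) (l 3)))) (l 3))) (l 3)))))))), by decide +kernel⟩

theorem s2_pm_112_b : ∃ t, chk3 f_pm_112_b t 1 1 1 = true := ex3_a k0_pm_112_b k1_pm_112_b

theorem c_pm_112_b : CertB 536870912 536870912 1239849684 370763052 697932185 42949674 3 eng mog cd0q1 cd4q2b pd1 false true false .dn 1 1 2
    ndB0q1 ndB4q2b pcB1 Cut.none xt_pm_112_b :=
  certB0 (fam := false) (s1 := true) (s2 := false) (a := 1) (b := 1) (c := 2) (cn := .dn) (n1 := ndB0q1) (n2 := ndB4q2b) (pc := pcB1) (cut := Cut.none) (xt := xt_pm_112_b) (P1 := 536870912) (W1 := 536870912) (P2 := 1239849684) (W2 := 370763052) (P3 := 697932185) (W3 := 42949674) (N0 := 3) (En := eng) (mo := mog) (C1 := cd0q1) (C2 := cd4q2b) (C3 := pd1)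
    rfl s2_pm_112_b

noncomputable def cut_pm_113 : Cut := Cut.of [[⟨0, 1, 0, 67108864⟩, ⟨1, 1, 0, 67108864⟩, ⟨2, 2, 0, 16777216⟩]]

noncomputable def xt_pm_113 : Ext := extD2 3 ⟨7, 3, 3, 10, 49, 25, 3, 4, 67, 200, 3, 16⟩ eng cd0q1 cd4q3 pd1 false true false .nn 1 1 3 rfl ndB0q1 ndB4q3 pcB1

noncomputable def f_pm_113 : ℕ → ℕ → ℕ → ℕ → Bool := onCell 536870912 536870912 1610612736 536870912 697932185 42949674
    (rowB 3 eng mog cd0q1 cd4q3 pd1 2 false true false .nn 1 1 3 (qsf 536870912 536870912 1610612736 536870912 1) ndB0q1 ndB4q3 pcB1 cut_pm_113 xt_pm_113)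

def k0_pm_113 : ∃ t, chk3 f_pm_113 t 16 8 1 = true :=
  ⟨(b (a (l 3) (b (a (b (b (a (l 3) (a (l 3) (c (c (l 2923182631969141763797975071) (l 3048910917209443216641064991)) (b (c (l 3193982015563101548235800607) (l 131700296167)) (l 2536326369692581648967647263))))) (l 3)) (l 3)) (b (a (c (c (l 2971539664753944290514485279) (a (b (l 3464781399156421210846396447) (l 2371912458224768605516398623)) (b (l 141006696087765023) (l 3029568104095595405953810463)))) (b (c (b (l 141282742192521247) (a (l 3029568104095509231698001951) (l 141117678007173151))) (b (l 16346480) (a (b (l 126331581671) (l 137605854999)) (l 16345384)))) (b (a (l 2575011995920255348836941855) (c (l 3126282169664675167629361183) (a (l 152638241255) (l 125794719223)))) (c (l 2604026215590968241015701535) (l 166060010279))))) (b (c (l 140939900785655839) (l 16359472)) (c (a (l 3116610763107627223682170911) (l 140916261277286431)) (b (c (l 141444851441139743) (l 16347592)) (a (c (l 3145624982778501812722630687) (b (l 3426095772929123750051119135) (l 3232667641790791328433176607)))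 (l 140953438444765215)))))) (a (l 3) (a (c (l 2749097313944607674833322015) (c (l 2710411687717046674857541663) (l 2671726061489433929133719583))) (b (c (l 2923182631969219622956384287) (b (c (l 3164967795892314026725883935) (b (l 3484124212270620727757979679) (l 3290696081132294147295526943))) (l 2729754500830945337950175263))) (l 3)))))) (l 3))) (l 3)), by decide +kernel⟩

def k1_pm_113 : ∃ t, chk3 f_pm_113 t 17 8 1 = true :=
  ⟨(b (a (b (a (b (a (a (c (l 140963815169949727) (l 16361928)) (l 141478042987413535)) (l 16388032)) (a (b (b (c (l 140909389332971551) (c (l 141064420421304351) (l 16348872))) (c (l 3087596543436936871512096799) (a (c (l 2971539664754183434214932511) (b (l 3532481245055200259750445087) (l 3339053113916881788186214431))) (l 141659668510277663)))) (c (a (l 2768440127058471909485379615) (l 2981211071310759000583602207)) (b (a (l 2758768720501701523385827359) (c (l 2961868258197276227704193055) (a (l 3135953576221622575008088095) (l 141172447400280095)))) (a (l 3) (l 2807125753286293012567457823)))))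 (c (b (l 140964571087028255) (a (l 3068253730323122458490667039) (l 140922858356523039))) (b (l 16362576) (c (b (l 140934197016641567) (a (l 2942525445083466693763923999) (l 141031435074306079))) (a (a (b (l 16347736) (l 3184310609006209047667834911)) (l 3754923595864203723374788639)) (a (l 141099536043294751) (l 16351624)))))))) (b (l 16399824) (b (l 16412352) (a (l 141533018567507999) (l 16389760))))) (a (b (b (a (l 3) (a (c (l 2932854038526103602289197087) (c (l 2913511225412347669487616031) (l 2952196851640102870622437407))) (c (l 2990882477867740561574707231) (b (a (c (l 141102697164423199) (l 3213324828676943792626843679)) (l 2903839818855888651394056223)) (a (l 3) (l 3948351727002432447311347743)))))) (l 3)) (l 3)) (b (a (b (c (l 141268586044997663) (b (l 141026555980316703) (a (b (l 141585451476533279) (a (l 4132108451583816293291212831) (l 141222200321556511))) (l 140931242064248863)))) (c (l 3097267949993916508392079391) (b (a (l 3271353268018642599451885599) (c (l 140757313080344607) (l 3358395927030188501726117919)))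 (l 4238493923709719973502992415)))) (b (l 141258209384955935) (b (l 141220482383298591) (c (l 140894477216153631) (l 3203653422119868635741044767))))) (a (l 3) (b (a (l 3387410146701381674435346463) (a (l 3010225290981681624567971871) (l 2903839818855654936495079455))) (l 3)))))) (a (b (a (l 16406328) (l 16415320)) (c (b (l 141042155408703519) (a (b (l 140913168922935327) (l 3184310609006205062074908703)) (b (l 140983537686036511) (l 140919353682313247)))) (b (l 140864996521426975) (a (b (l 140964433579376671) (l 3155296389335294051550789663)) (l 140976184620515359))))) (b (a (l 16423680) (l 16431576)) (b (l 16411056) (c (l 141066688275841055) (l 140859155376848927)))))) (a (l 3) (b (a (a (l 3) (b (c (l 3281024674575377251444998175) (l 3116610763107657528921915423)) (l 3))) (a (b (b (c (l 140928149782233119) (l 140765971740983327)) (c (l 2836139972956837610870734879) (l 3010225290981574216047656991))) (l 3)) (b (c (l 140973642089496607) (l 140785625522880543)) (b (c (l 2855482786070718750514823199) (l 2787782940172054600439300127))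 (l 3))))) (l 3)))), by decide +kernel⟩

def k2_pm_113 : ∃ t, chk3 f_pm_113 t 8 9 1 = true :=
  ⟨(l 3), by decide +kernel⟩

def k3_pm_113 : ∃ t, chk3 f_pm_113 t 9 8 1 = true :=
  ⟨(a (b (a (b (l 16452360) (a (b (l 16429576) (l 16418072)) (l 16442576))) (b (l 16490032) (l 16470024))) (a (b (a (b (c (l 141102216261189663) (l 140864103191986207)) (a (b (l 2149470107415648662431514655) (c (l 2855482786070753247700172831) (l 2826468566399789529367527455))) (c (l 141007108490919967) (l 140786518889299999)))) (c (l 141219589157470239) (l 140935571473547295))) (a (b (b (a (l 3) (c (l 2855482786070780048304783391) (l 2826468566399819903383273503))) (l 3)) (l 3)) (b (a (b (l 140873655228071967) (c (l 2855482786070809872566173727) (l 2836139972956758308545724447))) (c (l 141052738241789983) (l 140799438166147103))) (a (l 3445438586042436992032178207) (b (c (l 2855482786070839215792422943) (l 2642711841818433720958304287)) (l 3484124212270381377929199647)))))) (b (a (b (l 16446768) (l 16435208)) (l 16461832)) (b (a (l 141056655241396255)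 (l 16445456)) (a (a (b (l 140907877545279519) (c (l 2855482786070869040055189535) (l 2642711841818450213641584671))) (l 140965533202104351)) (l 141114860659015711)))))) (b (a (l 16520064) (l 16557840)) (a (b (l 16492184) (a (b (l 16468568) (l 16456904)) (l 16485760))) (b (l 16536792) (l 16519056))))), by decide +kernel⟩

def k4_pm_113 : ∃ t, chk3 f_pm_113 t 9 9 1 = true :=
  ⟨(a (b (a (l 3) (b (a (b (a (l 3339053113916379036611493919) (b (c (l 2855482786070901406938988575) (l 2642711841818468630470082591)) (l 3339053113916706347490000927))) (l 3)) (b (a (b (l 140955568882122783) (c (l 2700740281160263301042552863) (l 2304212612326391565576503327))) (l 141022089352675359)) (a (l 3358395927030255984379789343) (b (a (l 3000553884424735110632226847) (l 140936327433076767)) (l 3329381707359875007300288543))))) (l 3))) (l 3)) (b (a (b (a (b (l 141187222291283999) (a (b (l 141017553872437279) (a (l 2990882477867858690454306847) (l 140968488159625247))) (l 141093282754199583))) (b (l 16469512) (l 141273740138168351))) (a (b (a (b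 (l 3329381707359923248384032799) (l 3)) (b (a (l 2865154192627985840966516767) (l 141004497177493535)) (l 3319710300803058235641954335))) (l 3)) (b (a (b (l 141094588430581791) (a (l 2855482786071121240545181727) (l 141044423206158367))) (l 141179388284616735)) (a (b (l 3319710300803112730199293983) (l 3)) (b (a (l 2855482786071173467366047775) (l 141088472404082719)) (l 3319710300803168461707853855)))))) (b (a (b (l 16495112) (l 16483400)) (l 16514712)) (a (b (l 141375719869939743) (a (b (l 141187359751471135) (a (l 2845811379514315670178562079) (l 141136782210252831))) (l 141281917772677151))) (b (l 16498696) (l 141494467156918303))))) (a (l 3) (b (a (b (a (b (l 3358395927030899198755323935) (l 3)) (b (a (l 2845811379514376280780963871) (l 141189421344161823)) (a (l 3) (l 3145624982778816067087876127)))) (l 3)) (b (a (b (l 141297242224869407) (a (l 2845811379514444175650619423) (l 141246664683749407))) (l 141401902010712095)) (c (a (l 3474452805713789800152072223) (b (l 2120455887745720409503186975) (l 3261681861461697528792940575)))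 (a (l 3203653422119699517265903647) (b (l 2091441668074560222165467167) (l 3145624982778478723152805919)))))) (l 3))))), by decide +kernel⟩

def k5_pm_113 : ∃ t, chk3 f_pm_113 t 4 5 1 = true :=
  ⟨(a (l 2) (b (l 3) (l 2))), by decide +kernel⟩

def k6_pm_113 : ∃ t, chk3 f_pm_113 t 5 4 1 = true :=
  ⟨(a (b (a (b (a (l 16594496) (l 16624160)) (a (l 16574360) (l 16616744))) (b (l 16654424) (a (l 16655664) (l 16684752)))) (a (b (a (b (l 16551416) (a (b (l 16527264) (l 16515512)) (l 16549600))) (b (l 16603792) (l 16589920))) (a (a (b (b (a (l 16496312) (l 16511248)) (a (b (l 141425472801521695) (a (c (l 2217169953314947643222949919) (l 2178484327086820600864964639)) (l 141375651174809631))) (l 141545731910352927))) (b (a (a (l 3687223749965855270909657119) (c (l 3503467025384705552249667615) (l 3203653422119829603270180895))) (b (c (l 2062427448404363757004587039) (l 2033413228733174638763687967)) (c (l 3184310609006512032179044383) (l 3193982015563190059132354591)))) (l 3))) (a (b (l 141796145728225311) (b (a (c (l 1956041976278365106494095391)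 (l 1927027756607168703987482655)) (l 141585039464415263)) (b (c (l 3174639202449681241743900703) (l 3184310609006352121869844511)) (l 3)))) (b (l 16536016) (b (l 141718767591489567) (b (c (l 1994727602506118246097322015) (l 1936699163164162771897221151)) (c (l 3174639202449773119704629279) (l 3174639202449522224787144735))))))) (b (a (b (l 16565840) (l 16554352)) (l 16591200)) (a (b (l 16542640) (a (b (l 141769620018348063) (a (l 2091441668075403410343428127) (l 141726120584265759))) (l 141913381192531999))) (b (l 16576632) (l 16565144)))))) (b (a (l 16649992) (l 16696136)) (a (b (l 16635256) (a (l 16607496) (l 16640296))) (b (l 16695424) (l 16688080)))))) (b (a (b (l 16662408) (l 16709168)) (b (l 16632792) (l 16702072))) (a (b (a (l 16735488) (l 16761784)) (l 16776680)) (b (l 16776416) (a (l 16836832) (l 16857256)))))), by decide +kernel⟩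

def k7_pm_113 : ∃ t, chk3 f_pm_113 t 10 10 1 = true :=
  ⟨(a (b (a (l 3) (b (a (b (a (b (a (l 3358395927031017946141147167) (b (l 2226841359872276100220436511) (l 3348724520474638573939884063))) (l 3)) (b (a (l 2062427448404753259084709919) (l 141827756712640543)) (a (l 3348724520474197807226945567) (b (l 141940044370001951) (l 3319710300803987185729503263))))) (l 3)) (b (a (b (l 141975778493710367) (a (l 2014070415620255365835866143) (l 141935371436671007))) (l 142130878383833119)) (a (b (a (l 3377738740145051711779553311) (b (l 141866858107633695) (l 3290696081133316487461470239))) (l 3)) (b (a (l 1907684943494216308191952927) (l 142049102195343391)) (a (l 3377738740145557555871498271) (b (l 141980039110377503) (l 3261681861462570403798859807))))))) (l 3))) (l 3)) (b (a (b (a (b (l 16589856) (a (c (l 1762613845140535299243442207) (l 141889741690961951)) (l 142372564835762207))) (l 16622256)) (a (b (a (b (a (l 3358395927031710775997972511) (b (l 142099748464738335) (l 3222996235234889900677070879))) (l 3)) (b (a (l 142185579108319263)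 (l 142295667731071007)) (a (l 3329381707360946412972326943) (b (l 142226192329179167) (l 3184310609007210497066942495))))) (l 3)) (b (a (b (l 16597624) (l 1781956658254337067871830047)) (l 16615168)) (a (b (a (b (l 3164967795893368321359478815) (l 3)) (b (l 142359095825760287) (l 3126282169665707678188044319))) (l 3)) (b (l 1762613845140510010491043871) (a (b (l 3106939356551884743945863199) (l 3)) (b (l 142457639576993823) (l 3097267949994978774382116895)))))))) (b (a (l 16662312) (l 16697688)) (a (b (l 16646456) (a (b (l 16626240) (l 142601057153073183)) (l 16642728))) (l 16681544)))) (a (b (a (l 3) (b (a (l 3) (l 3899994694219063890417893407)) (l 3))) (l 3)) (b (a (b (a (b (a (b (l 3077925136881155702701867039) (l 3793609222093106265438355487)) (b (l 142553709426573343) (l 3068253730324250970088931359))) (l 3822623441763849531612266527)) (b (l 142701250172076063) (a (b (l 3058582323767345962597990431) (l 3890323287662369576887599135)) (b (l 142654177323597855) (l 3039239510653523234515058719))))) (c (l 3948351727003904900073275551)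 (l 3967694540117288167004799007))) (b (a (b (l 16648608) (l 142782270452957215)) (l 16662848)) (b (a (a (b (c (l 3058582323767489930003628191) (l 3929008913889820556819234847)) (l 3929008913889869760085590047)) (b (l 142704273832099871) (c (l 3058582323767529856026263711) (l 3938680320446748654055555103)))) (l 142827625315647519)) (a (l 3909666100776217043984056351) (a (b (c (l 3048910917210643883836997791) (l 3948351727003677713371480095)) (l 4006380166345228979579731999)) (b (l 142750384609099807) (c (l 3039239510653753307442217119) (l 3967694540117521263463612447)))))))) (a (l 3) (b (a (l 3) (b (l 3958023133560846466322907167) (l 3))) (l 3))))))), by decide +kernel⟩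

def k8_pm_113 : ∃ t, chk3 f_pm_113 t 10 11 1 = true :=
  ⟨(l 3), by decide +kernel⟩

def k9_pm_113 : ∃ t, chk3 f_pm_113 t 11 10 1 = true :=
  ⟨(a (b (a (b (l 16749240) (a (l 16703864) (l 16762848))) (b (l 16816688) (l 16818464))) (a (b (a (b (l 16692544) (a (b (l 16658384) (l 142871537069064223)) (l 16669944))) (l 16714984)) (a (b (b (a (a (b (c (l 3029568104096860944340304031) (l 3977365946674449085828825119)) (l 4083751418800588473951535135)) (b (l 142795120996302879) (c (l 3019896697539966863250882719) (l 3987037353231376633316065311)))) (l 142914074432684191)) (a (a (l 3) (b (l 4132108451585185185815527455) (l 3))) (a (b (c (l 3010225290983071064174149791) (l 3996708759788211134632427679)) (c (l 4161122671256153233435672735) (l 4170794077812683238668943519))) (b (l 142838414274248863) (c (l 3048910917210843032897306783) (l 4016051572902085539770466463)))))) (a (l 3) (a (l 3) (b (c (l 4054737199130312500263665823) (l 4122437045028370475685707935)) (l 3))))) (b (c (l 143121813486026847) (l 142442933711224991)) (a (b (a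 (b (c (l 3048910917210864954410156191) (l 4035394386015942833759436959)) (c (l 4248165330268439725529153695) (l 4248165330268055721021030559))) (c (l 2903839818857046781291937951) (b (l 142705648217718943) (l 4035394386015889851044298911)))) (a (l 3) (b (c (l 4286850956496123252286128287) (l 4286850956495713890290778271)) (l 3)))) (b (l 142995369587998815) (a (b (c (l 2952196851641557318916522143) (l 4103094231914509264661610655)) (c (l 4325536582723806435445653663) (l 4335207989280324139891277983))) (b (l 142921221258166367) (c (l 2942525445084661244959211615) (l 4199808297483879503603335327))))))))) (b (a (l 16755600) (l 16791408)) (a (b (l 16705160) (a (l 142756913026629727) (l 16682944))) (l 16726664))))) (b (l 16803176) (a (b (l 16847704) (a (l 16766128) (l 16801048))) (a (l 16872032) (l 16913936))))), by decide +kernel⟩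

def k10_pm_113 : ∃ t, chk3 f_pm_113 t 22 11 1 = true :=
  ⟨(b (a (b (a (l 3) (b (a (l 3) (b (a (l 3) (b (c (l 4373893615508407820233883743) (a (l 4074080012243621962514727071) (l 4518964713861827008009568415))) (l 3))) (l 3))) (l 3))) (l 3)) (b (a (b (a (b (a (b (c (l 2932854038527764827403436127) (l 4141779858142216774526468255)) (c (a (l 4132108451585430926722875487) (l 4151451264699550179322118239)) (b (a (l 4180465484369766092182225055) (l 4741407064671036836179296415)) (l 4103094231914435391281414303)))) (b (l 142960803683647583) (c (l 2913511225413958385837424735) (a (l 4896149569581750327355408543) (l 142734785279869087))))) (a (l 3) (b (c (a (l 4180465484370272486087671903) (l 4170794077813429807139078239)) (a (l 4132108451585257616142139551) (b (l 4828449723683532441647431839) (l 4257836736825214578286968991)))) (l 3)))) (b (l 143076596023967839) (a (b (c (l 2913511225414005321289597023) (l 4180465484369979947180146847)) (c (a (l 4228822517154917439029608543) (l 4209479704041153740955140191)) (a (l 4180465484369911296461045919)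 (b (l 4905820976138933717461794975) (l 4335207989280619152640360607))))) (b (l 16614952) (c (l 143156585469263967) (l 4199808297483878610296914079)))))) (a (l 3) (b (b (a (l 3) (c (a (l 4286850956496481624392319071) (l 4238493923711958579789447263)) (a (l 4238493923711478368045170847) (l 4664035812215856287361908895)))) (l 3)) (l 3)))) (b (b (l 16687936) (a (l 142990834135253087) (l 16687360))) (b (a (a (b (c (l 143203246045839455) (l 4257836736825624696117919903)) (c (a (l 4335207989281125271663951967) (l 4257836736825847141139890399)) (a (l 4296522363053158689326809247) (l 4161122671256378495827493023)))) (b (l 16646240) (c (l 143249013226127583) (l 142783369929883807)))) (l 16637016)) (a (a (l 3) (b (c (a (l 4383565022065768231740670175) (l 4248165330269007485882663135)) (a (l 4364222208951653858144026783) (c (l 4325536582724179719644250271) (l 4770421284342037319430684831)))) (l 3))) (a (b (c (l 143291138274017503) (l 143021620389216415)) (c (a (l 4441593461407334753565196511) (l 4383565022065874403322937567)) (a (l 4431922054850155142994509983)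 (l 4199808297484188947469451423)))) (b (l 16677240) (l 142845011328254047))))))) (a (l 3) (b (a (l 3) (b (a (l 3) (b (c (a (l 4518964713862720292619485407) (l 4422250648293585211718287583)) (a (l 4499621900748638629500371103) (l 4219151110598082456621760671))) (c (l 4170794077813737876629913823) (l 4170794077813504161643020447)))) (l 3))) (l 3))))) (l 3)), by decide +kernel⟩

def k11_pm_113 : ∃ t, chk3 f_pm_113 t 23 22 1 = true :=
  ⟨(a (b (a (b (l 16719816) (c (l 16693128) (l 16648016))) (l 16726040)) (a (b (a (b (a (b (l 142891465704538207) (c (a (l 4586664559761186049496940767) (l 4451264867964377337448415455)) (a (l 4576993153204037843733659743) (l 4412579241736479131005747295)))) (b (l 16686968) (l 142936683215978591))) (c (b (a (l 4151451264699940849640538335) (a (l 4664035812216564991481217247) (l 4489950494192082579565543647))) (l 4219151110598370528787644639)) (b (a (l 4190136890927390111654428767) (a (l 4528636120419511500628754527) (l 4441593461407282114416132191))) (l 4219151110598164851353288799)))) (b (l 16698320)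 (c (a (b (l 143444932496195807) (b (l 4509293307305947913726722271) (l 4654364405659705338837008607))) (l 143505405648437471)) (a (b (l 143236093965467743) (a (l 4586664559761071081788784735) (l 4480279087635003368174534751))) (l 143307287358439519))))) (a (l 3) (b (c (b (a (l 4267508143382968271452520671) (l 4315865176167692045620183263)) (l 4277179549939941998421328095)) (a (l 4257836736825906583519658079) (b (a (l 4635021592545713835709382751) (l 4518964713862724553213411423)) (l 4335207989281265871735865439)))) (l 3)))) (b (a (l 16690792) (l 16729408)) (a (b (b (c (l 16709320) (l 16650856)) (a (c (l 4335207989281563014783369439) (a (l 4673707218773435845368627295) (l 4557650340090466628972675167))) (l 16659024))) (c (b (a (l 4393236428622985156989944031) (l 4354550802395434121385017567)) (l 4325536582724591349415379167)) (a (l 4354550802395169620091109471) (b (c (l 4915492382696495270998376671) (l 4886478163025666036746600543)) (l 4460936274521303441841504351))))) (b (l 16716248) (a (b (l 16705296) (c (l 4373893615509303716158669023)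 (l 4286850956496903493313757407))) (l 16669800))))))) (b (b (l 16810912) (l 16752120)) (a (a (b (l 16747032) (l 16708144)) (l 16755392)) (l 16781648)))), by decide +kernel⟩

def k12_pm_113 : ∃ t, chk3 f_pm_113 t 23 23 1 = true :=
  ⟨(a (b (a (l 3) (b (a (l 3) (b (c (a (l 4451264867964557588694089951) (b (l 239075196647) (l 244443900519))) (a (l 4460936274521343299147989215) (b (l 4306193769610784358084067551) (l 247128233671)))) (l 3))) (l 3))) (l 3)) (b (a (b (a (b (a (b (l 16713680) (c (l 240148945207) (l 4315865176167746059152736479))) (l 16719984)) (c (a (l 244443905831) (b (l 240685813175) (l 247128267927))) (a (l 4422250648293820094952931551) (b (l 238001443287) (l 249812606631))))) (b (l 16732776) (a (b (l 16721704) (a (l 238538326615) (l 16719256))) (l 16727880)))) (a (l 3) (b (c (a (l 247128272807) (b (l 243907068055) (l 249812634711))) (a (l 248738873447) (b (l 182703759991) (l 249812624263)))) (l 3)))) (b (a (l 16724160) (l 16762120)) (a (b (a (c (l 184314406455) (l 3291298638265316635117006047)) (l 16735432))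 (c (c (l 238001487559) (l 4345482050967669130606816543)) (a (l 249275761431) (b (l 181093166807) (l 232632771943))))) (b (l 16747976) (a (c (l 182166931063) (l 176798213575)) (l 16742656)))))) (a (l 3) (b (a (l 3) (b (c (c (l 4422853660540529341984468319) (l 4374496840181688792730135839)) (a (l 232095908551) (l 188609376583))) (l 3))) (l 3))))), by decide +kernel⟩

def k13_pm_113 : ∃ t, chk3 f_pm_113 t 2 3 1 = true :=
  ⟨(a (l 2) (b (a (l 2) (b (a (l 2) (l 3)) (l 2))) (l 2))), by decide +kernel⟩

def k14_pm_113 : ∃ t, chk3 f_pm_113 t 6 2 1 = true :=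
  ⟨(b (a (b (a (b (l 16575816) (l 16655232)) (b (l 16505120) (a (l 16600424) (l 16561256)))) (a (b (l 16748496) (l 16856832)) (b (a (l 16698664) (l 16654744)) (l 16780536)))) (b (a (b (a (l 16441904) (l 16463056)) (a (l 16518216) (l 16474048))) (b (b (l 16326504) (l 16399544)) (b (l 16391160) (l 16428952)))) (a (b (a (l 16609200) (l 16563696)) (a (l 16696320) (l 16643048))) (b (b (l 16471960) (l 16518880)) (b (l 16570480) (l 16591016)))))) (a (b (a (b (a (l 16962520) (l 16960496)) (l 16833568)) (b (l 16852176) (a (l 16990424) (l 16911632)))) (a (b (a (b (l 16874712) (a (l 16819288) (l 16852960))) (a (l 16890096) (l 16951528))) (a (b (a (a (b (l 16779248) (l 16759880)) (l 16786448)) (l 16812312)) (a (b (c (a (b (l 179482587959) (a (l 250886402871) (l 3620127475771665084514168095))) (b (l 16761368) (l 16751000))) (b (l 16733624) (a (a (l 234243407783) (l 190220017927)) (l 16753928)))) (a (l 3) (b (a (b (l 239075265047) (l 3)) (b (l 16748736) (l 197736208935))) (l 3)))) (b (l 16781688) (a (b (l 16758384) (a (l 3610456655043121719908817951)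 (b (l 16754856) (l 195588733383)))) (b (l 16774688) (l 16764400)))))) (a (b (l 16849704) (b (l 16815688) (l 16794368))) (b (l 16883176) (l 16839848))))) (b (a (l 17014664) (l 17006480)) (a (b (l 16937992) (a (l 16856240) (l 16910120))) (b (l 17020104) (l 16966600)))))) (b (a (b (l 16702264) (l 16770864)) (b (b (l 16608008) (l 16635368)) (l 16694448))) (a (b (a (l 16925368) (l 16855888)) (a (l 16982400) (l 16910184))) (b (l 16767520) (a (l 16842832) (l 16782400))))))), by decide +kernel⟩

def k15_pm_113 : ∃ t, chk3 f_pm_113 t 7 2 1 = true :=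
  ⟨(b (a (b (b (a (l 16448680) (l 16176720)) (a (b (l 16305128) (l 16381800)) (c (l 16272120) (l 16189168)))) (a (b (b (l 16377664) (l 16419752)) (b (l 16468080) (l 16516744))) (a (b (l 16367120) (l 16411544)) (b (l 16275424) (l 16357584))))) (b (b (a (a (l 16112160) (l 16068240)) (a (b (l 16013320) (l 16033976)) (b (l 15967800) (l 15987976)))) (a (l 16139504) (c (l 16090072) (l 16000448)))) (b (a (c (l 16243288) (l 16154968)) (c (l 16144904) (l 16053664))) (a (a (l 16303408) (l 16248440)) (c (l 16211584) (l 16117712)))))) (a (b (b (a (b (l 16532368) (l 16547240)) (c (l 16492880) (l 16435208))) (a (b (l 16577792) (l 16618760)) (a (l 16536696) (l 16502032)))) (a (b (l 16657544) (l 16702008)) (b (b (l 16557408) (l 16573848)) (l 16598512)))) (b (b (b (a (l 16343808) (l 16225944)) (a (l 16387632) (l 16294368))) (a (l 16424736) (a (l 16380784) (l 16335440)))) (b (a (b (l 16486408) (l 16490832)) (b (l 16410864) (l 16420048))) (a (b (l 16499504) (l 16517512)) (b (l 16427680) (l 16434312))))))), by decide +kernel⟩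

def k16_pm_113 : ∃ t, chk3 f_pm_113 t 24 12 1 = true :=
  ⟨(b (a (b (a (l 3) (b (a (b (l 3) (l 3)) (b (b (a (l 197199376663) (l 16760696)) (l 201494317975)) (l 237464663895))) (l 3))) (l 3)) (b (a (b (a (b (l 16770240) (a (b (l 161229043351) (l 208473644871)) (b (l 16766424) (l 161229038039)))) (b (l 16786872) (l 16776208))) (a (b (l 239612157751) (l 3)) (b (c (l 3001158341140479061373197343) (a (l 167134612215) (l 146196683191))) (l 214379235447)))) (b (l 16807168) (a (b (l 16782448) (c (l 3049516005149588000622533663) (a (l 168208367719) (l 151028537095)))) (b (l 16799712) (l 16788888))))) (a (l 3) (b (a (b (b (l 214379248263) (l 3)) (l 3)) (b (a (b (l 161765962167) (l 182167004103)) (b (l 16785136) (l 164450324759))) (b (l 215453022999) (l 3)))) (l 3))))) (l 3)), by decide +kernel⟩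

def k17_pm_113 : ∃ t, chk3 f_pm_113 t 25 12 1 = true :=
  ⟨(b (a (b (a (b (l 16842328) (l 16820424)) (l 16866224)) (a (b (a (b (l 16795512) (a (b (l 166597817207) (l 182167016567)) (b (l 16791800) (l 169282180359)))) (b (l 16813056) (l 16823248))) (a (b (c (l 220284832359) (l 186462025479)) (l 3)) (b (a (b (l 171966543287) (l 182703900407)) (c (l 16786176) (l 164450360055))) (a (l 3) (b (l 183240798935) (l 3)))))) (b (l 16854824) (a (b (l 16830128) (a (b (l 175187786407) (l 183777676567)) (b (l 16805576) (l 176261537175)))) (b (l 16826688) (l 16816120)))))) (a (b (l 16839872) (b (l 16868832) (a (l 16838744) (l 16856592)))) (b (l 16939312) (b (l 16905752) (l 16884144))))) (a (b (a (l 3) (b (a (b (a (l 3) (b (l 183777704327) (l 3))) (l 3)) (b (b (a (l 177872158279) (l 16812632)) (a (l 184314603111) (l 179482779927))) (a (l 3) (b (l 185388351911) (l 3))))) (l 3))) (l 3)) (b (a (b (a (b (l 16823160) (a (b (l 181093401943) (l 186998971671)) (b (l 16819768) (l 182704025831)))) (b (l 16840920) (l 16830504))) (a (b (a (l 3) (b (c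 (l 194515106983) (l 185925202279)) (l 3))) (l 3)) (b (c (l 186998944615) (b (l 16837368) (l 185388389959))) (a (l 3) (b (l 199883880295) (l 3)))))) (b (a (l 16853696) (l 16871808)) (a (b (l 16838008) (c (l 189146434503) (a (l 177872136327) (l 16847768)))) (b (l 16855968) (l 16845464))))) (a (l 3) (b (a (b (a (l 203105077175) (b (l 193441436535) (l 202568194759))) (l 3)) (c (b (l 191830796311) (l 206863143751)) (b (a (l 189683391719) (l 16855992)) (a (l 202568232071) (l 190220214855))))) (l 3)))))), by decide +kernel⟩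

def k18_pm_113 : ∃ t, chk3 f_pm_113 t 13 12 1 = true :=
  ⟨(a (a (b (b (l 16998392) (l 16782560)) (b (b (l 16853424) (a (l 16772304) (l 16912064))) (b (a (a (b (l 16873600) (c (l 193978287063) (l 185388405591))) (b (l 16869968) (l 16880360))) (l 16785304)) (b (c (a (a (l 209010639639) (l 196662648311)) (l 16856800)) (a (a (l 202568243831) (l 194515265543)) (l 16893168))) (a (a (l 3) (c (l 211695005719) (l 205252644039))) (a (c (l 199347008871) (l 194515257031)) (l 16892728))))))) (b (l 16959760) (b (l 16850056) (a (c (l 16830808) (l 16891520)) (l 16925712))))) (b (a (l 16891728) (l 16831600)) (a (b (l 16924672) (l 16841024)) (l 16875288)))), by decide +kernel⟩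

def k19_pm_113 : ∃ t, chk3 f_pm_113 t 6 26 1 = true :=
  ⟨(b (b (a (l 3) (a (a (a (l 3) (a (b (c (l 213842500199) (l 206863249111)) (l 3)) (c (b (l 16843728) (l 216526864935)) (b (l 199883987927) (l 207937003431))))) (a (c (b (l 16866864) (l 204715758759)) (a (b (l 16897376) (l 206326460295)) (l 16866792))) (l 16849032))) (a (l 16876456) (l 16899016)))) (a (l 2) (a (a (l 3) (a (a (b (c (l 219748099927) (l 209547648791)) (l 3)) (b (c (l 16853304) (l 213305802919)) (c (l 222432463351) (l 211158272359)))) (c (a (l 16868128) (l 16877656)) (c (l 170355955831) (l 167671649927))))) (a (a (l 16878832) (l 16952224)) (l 16907992))))) (a (l 2) (a (a (l 3) (a (l 3) (b (c (a (l 227264281319) (b (l 16861608) (l 228874930135))) (a (b (l 212768895127) (l 3)) (b (a (l 16919408) (l 16906448)) (l 214916429959)))) (l 3)))) (a (a (c (b (a (l 16891600) (l 16884928)) (a (l 232633025527) (b (l 16868664) (l 224043105319)))) (c (b (l 16846168) (a (l 225116892599) (l 209010833575))) (b (l 16869504) (a (b (l 216527011127) (l 217063864455)) (l 181630310951)))))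 (b (l 16886536) (a (c (l 16898192) (l 16836848)) (l 16849968)))) (a (l 16790952) (l 16844248)))))), by decide +kernel⟩

def k20_pm_113 : ∃ t, chk3 f_pm_113 t 6 27 1 = true :=
  ⟨(a (l 2) (a (l 3) (a (b (a (b (c (l 261624041767) (a (l 3) (b (l 218137616759) (l 3)))) (l 3)) (b (c (a (b (l 228874958007) (l 233706770007)) (b (l 16874888) (l 238001810119))) (c (a (l 212768937815) (l 185388364487)) (a (b (l 185388423207) (l 277730290855)) (l 181093450823)))) (c (l 264845266311) (c (l 232096197815) (l 282562106215))))) (l 3)) (b (b (a (b (l 16854968) (c (l 16790336) (l 16845688))) (l 16837832)) (c (a (a (l 220285077047) (b (l 16879664) (l 246054888343))) (l 16810232)) (a (a (b (l 173577199527) (l 279340840775)) (b (l 16901936) (l 211158219527))) (a (l 16877312) (l 16903184))))) (a (b (c (l 268603388999) (a (l 3) (b (l 279877754375) (l 3)))) (l 3)) (b (a (c (l 225653792375) (b (l 213842580279) (l 278804013335))) (b (l 16839520) (c (l 260013550871) (l 210084477015)))) (c (l 272361511671) (a (l 3) (l 274509013639))))))))), by decide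 +kernel⟩

def k21_pm_113 : ∃ t, chk3 f_pm_113 t 6 7 1 = true :=
  ⟨(a (l 2) (b (a (l 2) (l 3)) (l 2))), by decide +kernel⟩

def k22_pm_113 : ∃ t, chk3 f_pm_113 t 7 6 1 = true :=
  ⟨(a (b (a (b (a (l 16773296) (l 16718912)) (a (l 16818504) (l 16766400))) (b (l 16643952) (b (l 16677272) (l 16701560)))) (a (b (a (b (l 16848416) (l 16678408)) (l 16807928)) (a (b (b (l 16711920) (a (l 16841400) (l 16877144))) (a (c (b (l 16854896) (a (b (l 200420676871) (l 241759851783)) (l 202568151287))) (b (a (l 16882104) (l 16887792)) (a (l 184851465175) (l 189683304039)))) (b (l 16846880) (a (l 16802656) (l 16851560))))) (b (c (l 16861072) (l 16850928)) (a (b (l 16863424) (l 16853120)) (l 16845440))))) (b (a (l 16527984) (l 16712232)) (a (b (l 16789136) (l 16812704)) (b (l 16745480) (l 16769720)))))) (b (a (a (b (l 16568848) (l 16615504)) (b (l 16520520) (l 16568144))) (b (b (l 16445552) (a (l 16484088) (l 16440792))) (a (l 16520760) (l 16473136)))) (a (b (b (l 16628848) (l 16654456)) (b (l 16679824) (a (l 16728944) (l 16687144)))) (b (b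 (l 16535680) (l 16562136)) (a (l 16734728) (l 16648232)))))), by decide +kernel⟩

def k23_pm_113 : ∃ t, chk3 f_pm_113 t 14 7 1 = true :=
  ⟨(b (a (b (a (b (a (b (a (l 3) (c (l 242833585975) (l 244444243559))) (l 3)) (b (a (b (l 228874875719) (a (l 3) (l 225653626999))) (c (l 211158098551) (l 199346953671))) (a (l 3) (b (l 222432384919) (l 3))))) (l 3)) (b (a (b (a (l 16786264) (l 16836272)) (a (b (l 221895530135) (l 224579878759)) (b (l 16823056) (l 217600544039)))) (b (l 16860392) (a (l 16771176) (l 16843272)))) (a (b (a (l 3) (b (l 227801113687) (l 3))) (l 3)) (b (a (b (l 222432364903) (l 222969267047)) (b (l 16808488) (l 225116703575))) (a (l 3) (b (l 213305573511) (l 3))))))) (l 3)) (b (a (a (b (l 16696384) (b (a (l 16757480) (l 16830496)) (c (l 221895504023) (a (b (l 219748013607) (l 207936868935)) (b (l 16842752) (l 221358616327)))))) (b (l 16822616) (b (l 16836104) (a (l 16745040) (l 16818816))))) (b (l 16792520) (c (l 16829176) (l 16856680)))) (a (b (b (a (b (a (l 3) (l 213305542807)) (l 3)) (c (l 213305579911) (c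 (a (l 129016954471) (l 16841712)) (a (l 174650962583) (l 16827400))))) (a (l 3) (b (a (l 3) (a (l 210084316471) (l 221358596039))) (l 3)))) (l 3)) (a (b (c (b (l 16847344) (a (l 215453075863) (l 16849296))) (b (l 16819240) (a (b (l 16832336) (l 216526764631)) (l 16845824)))) (b (a (b (l 252497151639) (l 3)) (b (b (l 229948513943) (l 217063622247)) (l 245517797943))) (l 3))) (b (c (l 16833136) (l 16826072)) (b (c (a (l 192904502535) (l 16838208)) (b (l 16839032) (c (l 78551060503) (l 148344268407)))) (b (a (l 240685949335) (a (l 217600481111) (b (l 16767616) (l 227801032023)))) (a (l 3) (l 235317230167))))))))) (a (l 2) (b (l 3) (l 2)))), by decide +kernel⟩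

def k24_pm_113 : ∃ t, chk3 f_pm_113 t 15 14 1 = true :=
  ⟨(a (b (a (b (l 16752784) (l 16816472)) (l 16727000)) (a (b (c (l 16808704) (l 16840416)) (a (c (b (l 16825688) (a (l 171429667031) (l 16827816))) (b (l 16801832) (a (a (b (l 16816672) (l 214379271783)) (l 159618543927)) (l 16807616)))) (c (l 16812912) (l 16810040)))) (b (l 16779616) (c (l 16790544) (a (l 16771536) (l 16754584)))))) (b (a (l 16667696) (l 16651000)) (a (b (l 16724672) (l 16744864)) (l 16703320)))), by decide +kernel⟩

def k25_pm_113 : ∃ t, chk3 f_pm_113 t 30 15 1 = true :=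
  ⟨(a (a (b (b (b (a (a (l 3) (b (l 204178702343) (l 3))) (c (l 227801070583) (a (b (l 161766025479) (l 3)) (b (l 16813248) (b (l 149417989799) (l 3)))))) (l 3)) (l 2)) (l 2)) (b (b (b (c (c (l 153712925143) (l 99488996375)) (a (b (l 16806304) (l 182167101479)) (l 16799960))) (a (a (l 3) (b (b (l 217600476311) (l 3)) (l 3))) (b (c (l 145122993879) (l 168208450167)) (a (l 3) (b (l 221895438871) (l 3)))))) (l 3)) (l 2))) (b (c (b (a (b (l 16806608) (c (l 138143664999) (l 89288440887))) (l 16795064)) (b (a (b (a (l 228874850103) (c (l 16816624) (l 83382844983))) (a (l 3) (l 225653594535))) (a (c (l 128479985991) (l 89288417111)) (l 16800376))) (a (l 3) (b (a (l 223506070551) (c (l 120426920919) (l 88214662791))) (a (l 3) (b (a (l 169819019495) (a (l 236390987255) (l 16783744))) (l 235317276695))))))) (b (a (b (l 16786920) (b (l 16794584) (c (l 154249819415) (l 151028574135)))) (l 16796344)) (b (a (b (a (a (l 3) (b (l 159081640183) (l 3))) (l 168208446343)) (a (l 3) (a (l 3) (b (l 162839728935) (l 3))))) (b (l 16787952) (c (l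 156934158503) (a (l 152102301751) (l 16785392))))) (a (l 3) (a (b (a (a (l 3) (b (l 152639162855) (l 3))) (c (b (l 16802240) (l 152639167207)) (l 159081604263))) (l 3)) (a (b (l 163376588775) (a (l 3) (b (l 145122963511) (l 3)))) (b (l 16792096) (a (b (l 161765970007) (l 3)) (l 175187749335))))))))) (l 3))), by decide +kernel⟩

def k26_pm_113 : ∃ t, chk3 f_pm_113 t 31 30 1 = true :=
  ⟨(a (b (b (l 16758920) (l 16809216)) (a (b (l 16803400) (b (c (l 16794368) (l 16781960)) (a (c (a (c (l 16807600) (l 88751523415)) (l 16799192)) (b (l 16789848) (a (l 160692209799) (l 16790432)))) (l 16809736)))) (b (l 16767976) (l 16796944)))) (b (l 16727344) (b (l 16747144) (l 16808080)))), by decide +kernel⟩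

def k27_pm_113 : ∃ t, chk3 f_pm_113 t 62 62 1 = true :=
  ⟨(b (b (a (a (b (a (a (l 3) (c (l 135996159143) (l 149954795495))) (c (c (l 16803592) (l 16810216)) (l 163913432311))) (a (l 3) (a (l 3) (c (l 135996156119) (l 152639147079))))) (c (b (l 16796296) (c (l 112373847735) (l 171966520311))) (b (l 16787008) (a (l 167134675895) (l 16787632))))) (c (l 16786904) (l 16776584))) (a (a (l 3) (b (c (a (l 182167018759) (c (l 16803416) (l 16801336))) (a (a (l 3) (l 155323498759)) (a (l 177872072439) (l 16794520)))) (b (c (l 217063622087) (a (l 3) (l 158544743079))) (l 3)))) (a (c (c (l 120426903399) (c (l 108078860967) (l 180556438919))) (b (l 16784312) (a (b (l 16788264) (l 166597779847)) (l 16784968)))) (l 16782424)))) (a (l 3) (b (b (a (a (a (l 3) (c (b (a (l 228874792423) (l 245517793591)) (l 3)) (l 162302825527))) (c (c (l 104857644807) (l 175724600007)) (b (l 16786936) (l 170355884039)))) (c (l 16788936) (l 16781736))) (a (b (a (l 3) (a (l 3) (c (c (l 16795776) (l 16793168)) (l 171966487047)))) (l 3)) (a (c (c (l 108615736647)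 (l 179482692663)) (c (l 173577109991) (l 177872069543))) (l 16796240)))) (a (l 3) (b (a (c (a (l 239612214263) (c (l 168745263975) (b (l 16791456) (c (l 49023061543) (l 151028528311))))) (a (b (l 156934103543) (l 3)) (b (l 163913420743) (l 142975458503)))) (c (c (l 112373828871) (l 183240785351)) (b (l 16784376) (a (l 166060903095) (l 16784720))))) (b (a (l 3) (c (c (l 151565393047) (a (b (l 16793808) (l 3)) (l 16792392))) (a (l 146196693143) (l 168745261623)))) (a (l 2) (c (l 214379271575) (a (l 3) (l 148881046407)))))))))), by decide +kernel⟩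

def k28_pm_113 : ∃ t, chk3 f_pm_113 t 63 62 1 = true :=
  ⟨(a (b (l 16790960) (b (c (l 16779880) (l 16771656)) (a (a (b (l 16794728) (c (c (l 116131921479) (l 186462007255)) (a (c (l 175187716039) (l 178945808887)) (l 16782816)))) (c (l 16784544) (l 16778640))) (l 16776456)))) (b (l 16756496) (l 16785312))), by decide +kernel⟩

def k29_pm_113 : ∃ t, chk3 f_pm_113 t 31 63 1 = true :=
  ⟨(a (l 3) (b (b (b (b (b (a (a (a (c (a (c (l 120963754615) (l 154249753703)) (l 16788824)) (a (l 146733550071) (l 185388255415))) (l 16784032)) (l 16778720)) (l 16768432)) (l 6)) (l 6)) (l 6)) (l 6)) (l 6))), by decide +kernel⟩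

theorem s30_pm_113 : ∃ t, chk3 f_pm_113 t 31 62 1 = true := ex3_a k27_pm_113 k28_pm_113

theorem s31_pm_113 : ∃ t, chk3 f_pm_113 t 31 31 1 = true := ex3_b s30_pm_113 k29_pm_113

theorem s32_pm_113 : ∃ t, chk3 f_pm_113 t 31 15 1 = true := ex3_b k26_pm_113 s31_pm_113

theorem s33_pm_113 : ∃ t, chk3 f_pm_113 t 15 15 1 = true := ex3_a k25_pm_113 s32_pm_113

theorem s34_pm_113 : ∃ t, chk3 f_pm_113 t 15 7 1 = true := ex3_b k24_pm_113 s33_pm_113

theorem s35_pm_113 : ∃ t, chk3 f_pm_113 t 7 7 1 = true := ex3_a k23_pm_113 s34_pm_113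

theorem s36_pm_113 : ∃ t, chk3 f_pm_113 t 7 3 1 = true := ex3_b k22_pm_113 s35_pm_113

theorem s37_pm_113 : ∃ t, chk3 f_pm_113 t 6 13 1 = true := ex3_b k19_pm_113 k20_pm_113

theorem s38_pm_113 : ∃ t, chk3 f_pm_113 t 12 12 1 = true := ex3_a k16_pm_113 k17_pm_113

theorem s39_pm_113 : ∃ t, chk3 f_pm_113 t 6 12 1 = true := ex3_a s38_pm_113 k18_pm_113

theorem s40_pm_113 : ∃ t, chk3 f_pm_113 t 6 6 1 = true := ex3_b s39_pm_113 s37_pm_113

theorem s41_pm_113 : ∃ t, chk3 f_pm_113 t 6 3 1 = true := ex3_b s40_pm_113 k21_pm_113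

theorem s42_pm_113 : ∃ t, chk3 f_pm_113 t 3 3 1 = true := ex3_a s41_pm_113 s36_pm_113

theorem s43_pm_113 : ∃ t, chk3 f_pm_113 t 3 2 1 = true := ex3_a k14_pm_113 k15_pm_113

theorem s44_pm_113 : ∃ t, chk3 f_pm_113 t 3 1 1 = true := ex3_b s43_pm_113 s42_pm_113

theorem s45_pm_113 : ∃ t, chk3 f_pm_113 t 23 11 1 = true := ex3_b k11_pm_113 k12_pm_113

theorem s46_pm_113 : ∃ t, chk3 f_pm_113 t 11 11 1 = true := ex3_a k10_pm_113 s45_pm_113

theorem s47_pm_113 : ∃ t, chk3 f_pm_113 t 11 5 1 = true := ex3_b k9_pm_113 s46_pm_113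

theorem s48_pm_113 : ∃ t, chk3 f_pm_113 t 10 5 1 = true := ex3_b k7_pm_113 k8_pm_113

theorem s49_pm_113 : ∃ t, chk3 f_pm_113 t 5 5 1 = true := ex3_a s48_pm_113 s47_pm_113

theorem s50_pm_113 : ∃ t, chk3 f_pm_113 t 5 2 1 = true := ex3_b k6_pm_113 s49_pm_113

theorem s51_pm_113 : ∃ t, chk3 f_pm_113 t 9 4 1 = true := ex3_b k3_pm_113 k4_pm_113

theorem s52_pm_113 : ∃ t, chk3 f_pm_113 t 8 8 1 = true := ex3_a k0_pm_113 k1_pm_113

theorem s53_pm_113 : ∃ t, chk3 f_pm_113 t 8 4 1 = true := ex3_b s52_pm_113 k2_pm_113

theorem s54_pm_113 : ∃ t, chk3 f_pm_113 t 4 4 1 = true := ex3_a s53_pm_113 s51_pm_113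

theorem s55_pm_113 : ∃ t, chk3 f_pm_113 t 4 2 1 = true := ex3_b s54_pm_113 k5_pm_113

theorem s56_pm_113 : ∃ t, chk3 f_pm_113 t 2 2 1 = true := ex3_a s55_pm_113 s50_pm_113

theorem s57_pm_113 : ∃ t, chk3 f_pm_113 t 2 1 1 = true := ex3_b s56_pm_113 k13_pm_113

theorem s58_pm_113 : ∃ t, chk3 f_pm_113 t 1 1 1 = true := ex3_a s57_pm_113 s44_pm_113

theorem c_pm_113 : CertB 536870912 536870912 1610612736 536870912 697932185 42949674 3 eng mog cd0q1 cd4q3 pd1 false true false .nn 1 1 3
    ndB0q1 ndB4q3 pcB1 cut_pm_113 xt_pm_113 :=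
  certB2 (fam := false) (s1 := true) (s2 := false) (a := 1) (b := 1) (c := 3) (cn := .nn) (n1 := ndB0q1) (n2 := ndB4q3) (pc := pcB1) (cut := cut_pm_113) (xt := xt_pm_113) (P1 := 536870912) (W1 := 536870912) (P2 := 1610612736) (W2 := 536870912) (P3 := 697932185) (W3 := 42949674) (N0 := 3) (En := eng) (mo := mog) (C1 := cd0q1) (C2 := cd4q3) (C3 := pd1)
    rfl (fun _ => rfl) s58_pm_113

noncomputable def cut_pm_123 : Cut := Cut.of [[⟨0, 1, 0, 67108864⟩, ⟨1, 1, 0, 67108864⟩, ⟨2, 2, 0, 16777216⟩]]

noncomputable def f_pm_123 : ℕ → ℕ → ℕ → ℕ → Bool := onCell 536870912 536870912 1073741824 536870912 697932185 42949674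
    (rowB 3 eng mog cd0q1 cd4q3 pd2 1 false true false .npn 1 2 3 (qsf 536870912 536870912 1610612736 536870912 2) ndB0q1 ndB4q3 pcB2 cut_pm_123 Ext.none)

def k0_pm_123 : ∃ t, chk3 f_pm_123 t 2 1 1 = true :=
  ⟨(b (b (a (a (b (a (b (a (l 15951456) (l 15971256)) (l 15973640)) (b (b (l 16001224) (l 16006328)) (l 16013952))) (a (b (l 15986272) (l 15999392)) (c (l 16073504) (l 15995800)))) (a (b (b (l 16054440) (l 16061840)) (b (l 16078272) (l 16100200))) (b (b (a (l 16098656) (l 16132360)) (l 16130272)) (b (l 16151056) (l 16148048))))) (a (b (a (b (c (l 16250360) (l 16156456)) (c (l 16260512) (l 16177568))) (a (b (b (l 16291096) (l 16291768)) (l 16264104)) (b (l 16322160) (l 16278104)))) (a (b (a (l 16195432) (l 16211832)) (l 16179256)) (b (l 16213720) (l 16212504)))) (b (a (b (a (l 16339784) (l 16350392)) (l 16277264)) (b (b (l 16378032) (l 16353400)) (b (l 16332520) (l 16315456)))) (a (b (l 16266152) (l 16248992)) (b (l 16297200) (l 16288192)))))) (a (a (b (b (a (l 16019456) (l 16065576)) (a (l 16049024) (l 16078608))) (b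 (l 16100864) (l 16153848))) (b (b (a (l 16104416) (l 16135184)) (b (l 16118144) (l 16133936))) (b (l 16154288) (l 16236664)))) (a (b (b (a (l 16208904) (l 16204496)) (a (b (l 16166184) (l 16185256)) (b (l 16207544) (l 16231520)))) (b (a (l 16234656) (l 16288176)) (l 16337456))) (b (b (a (l 16248264) (l 16297408)) (b (a (l 16258456) (l 16311624)) (l 16314928))) (b (l 16374688) (l 16453736)))))) (a (b (a (b (b (l 16213792) (l 16279008)) (l 16555760)) (b (b (l 16304112) (l 16372528)) (b (l 16439968) (l 16515896)))) (b (a (l 16535008) (l 16619360)) (a (l 16648576) (l 409196820039)))) (b (a (b (l 16470168) (l 16590320)) (b (a (l 16537232) (l 16598080)) (a (l 16678240) (l 2)))) (a (b (a (l 16694648) (l 2)) (l 2)) (l 2))))), by decide +kernel⟩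

def k1_pm_123 : ∃ t, chk3 f_pm_123 t 3 1 1 = true :=
  ⟨(b (a (b (a (b (a (b (a (l 16378352) (l 16388248)) (a (l 16341264) (l 16354312))) (b (b (l 16426832) (l 16407640)) (b (l 16392880) (l 16384368)))) (a (b (a (l 16320080) (l 16339144)) (l 16332192)) (b (l 16382008) (l 16388600)))) (b (a (b (c (l 16515576) (l 16426080)) (l 16452536)) (b (b (l 16536032) (l 16527040)) (l 16520784))) (a (a (l 16435232) (l 16473368)) (b (l 16525152) (l 16549000))))) (b (a (b (a (l 16346472) (b (l 16398744) (l 16410384))) (a (l 16376592) (l 16443304))) (b (a (b (l 16479216) (l 16501224)) (b (l 16578648) (b (l 16596224) (l 16610696)))) (a (l 16543208) (l 16876352)))) (a (a (b (l 16456240) (l 16541176)) (b (l 16531192) (l 16617808))) (a (b (l 16628016) (l 2)) (l 2))))) (b (b (a (a (b (l 16603328) (l 16598200)) (b (l 16709432) (a (l 16653192) (l 16686856)))) (a (b (a (l 16706360) (b (l 16729040) (l 16733496))) (a (l 16719048) (b (l 16742072) (l 875199917047)))) (b (a (b (b (l 16749392) (l 16752208)) (b (l 16756208) (l 629850079575))) (a (b (b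 (a (l 16761760) (l 6)) (l 6)) (a (l 1233293028247) (l 2))) (b (a (l 6) (b (l 6) (l 2))) (l 2)))) (a (b (l 1178532072503) (l 2)) (l 2))))) (a (a (b (l 16611840) (l 16644120)) (b (l 16685704) (l 805407438055))) (b (a (a (l 910633963399) (l 2)) (l 2)) (l 2)))) (a (b (b (a (b (l 16675760) (l 2)) (l 2)) (l 2)) (l 2)) (l 2)))) (a (b (a (b (a (l 16658336) (l 2)) (l 2)) (l 2)) (l 2)) (l 2))), by decide +kernel⟩

theorem s2_pm_123 : ∃ t, chk3 f_pm_123 t 1 1 1 = true := ex3_a k0_pm_123 k1_pm_123

theorem c_pm_123 : CertB 536870912 536870912 1610612736 536870912 697932185 42949674 3 eng mog cd0q1 cd4q3 pd2 false true false .npn 1 2 3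
    ndB0q1 ndB4q3 pcB2 cut_pm_123 Ext.none :=
  certB1 (fam := false) (s1 := true) (s2 := false) (a := 1) (b := 2) (c := 3) (cn := .npn) (n1 := ndB0q1) (n2 := ndB4q3) (pc := pcB2) (cut := cut_pm_123) (xt := Ext.none) (P1 := 536870912) (W1 := 536870912) (P2 := 1610612736) (W2 := 536870912) (P3 := 697932185) (W3 := 42949674) (N0 := 3) (En := eng) (mo := mog) (C1 := cd0q1) (C2 := cd4q3) (C3 := pd2)
    rfl (fun _ => rfl) s2_pm_123

noncomputable def f_pm_133 : ℕ → ℕ → ℕ → ℕ → Bool := onCell 536870912 536870912 1610612736 536870912 697932185 42949674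
    (rowB 3 eng mog cd0q1 cd4q3 pd3 0 false true false .dn 1 3 3 (qsf 536870912 536870912 1610612736 536870912 3) ndB0q1 ndB4q3 pcB3 Cut.none Ext.none)

def k0_pm_133 : ∃ t, chk3 f_pm_133 t 1 1 1 = true :=
  ⟨(a (b (l 1) (a (b (l 1) (a (b (l 1) (l 16672440)) (l 1))) (l 1))) (l 1)), by decide +kernel⟩

theorem c_pm_133 : CertB 536870912 536870912 1610612736 536870912 697932185 42949674 3 eng mog cd0q1 cd4q3 pd3 false true false .dn 1 3 3
    ndB0q1 ndB4q3 pcB3 Cut.none Ext.none :=
  certB0 (fam := false) (s1 := true) (s2 := false) (a := 1) (b := 3) (c := 3) (cn := .dn) (n1 := ndB0q1) (n2 := ndB4q3) (pc := pcB3) (cut := Cut.none) (xt := Ext.none) (P1 := 536870912) (W1 := 536870912) (P2 := 1610612736) (W2 := 536870912) (P3 := 697932185) (W3 := 42949674) (N0 := 3) (En := eng) (mo := mog) (C1 := cd0q1) (C2 := cd4q3) (C3 := pd3)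
    rfl k0_pm_133

noncomputable def cut_pm_202_a : Cut := Cut.of [[⟨0, 1, 0, 67108864⟩, ⟨1, 0, 0, 67108864⟩, ⟨2, 1, 0, 67108864⟩]]

noncomputable def f_pm_202_a : ℕ → ℕ → ℕ → ℕ → Bool := onCell 0 536870912 0 536870912 697932185 42949674
    (rowB 3 eng mog cd0q2 cd4q2a pd0 0 false true false .pp 2 0 2 (qsf 0 536870912 0 536870912 0) ndB0q2 ndB4q2a pcB0 cut_pm_202_a Ext.none)

def k0_pm_202_a : ∃ t, chk3 f_pm_202_a t 1 1 1 = true :=
  ⟨(a (l 3) (b (l 3) (a (l 3) (b (l 3) (a (l 3) (b (l 3) (l 6))))))), by decide +kernel⟩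

theorem c_pm_202_a : CertB 0 536870912 0 536870912 697932185 42949674 3 eng mog cd0q2 cd4q2a pd0 false true false .pp 2 0 2
    ndB0q2 ndB4q2a pcB0 cut_pm_202_a Ext.none :=
  certB0 (fam := false) (s1 := true) (s2 := false) (a := 2) (b := 0) (c := 2) (cn := .pp) (n1 := ndB0q2) (n2 := ndB4q2a) (pc := pcB0) (cut := cut_pm_202_a) (xt := Ext.none) (P1 := 0) (W1 := 536870912) (P2 := 0) (W2 := 536870912) (P3 := 697932185) (W3 := 42949674) (N0 := 3) (En := eng) (mo := mog) (C1 := cd0q2) (C2 := cd4q2a) (C3 := pd0)
    rfl k0_pm_202_a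

noncomputable def cut_pm_202_b : Cut := Cut.of [[⟨0, 1, 0, 67108864⟩, ⟨1, 0, 0, 67108864⟩, ⟨2, 1, 0, 67108864⟩]]

noncomputable def f_pm_202_b : ℕ → ℕ → ℕ → ℕ → Bool := onCell 0 536870912 1239849684 370763052 697932185 42949674
    (rowB 3 eng mog cd0q2 cd4q2b pd0 0 false true false .pp 2 0 2 (qsf 0 536870912 1239849684 370763052 0) ndB0q2 ndB4q2b pcB0 cut_pm_202_b Ext.none)

def k0_pm_202_b : ∃ t, chk3 f_pm_202_b t 1 1 1 = true :=
  ⟨(a (l 3) (l 3)), by decide +kernel⟩

theorem c_pm_202_b : CertB 0 536870912 1239849684 370763052 697932185 42949674 3 eng mog cd0q2 cd4q2b pd0 false true false .pp 2 0 2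
    ndB0q2 ndB4q2b pcB0 cut_pm_202_b Ext.none :=
  certB0 (fam := false) (s1 := true) (s2 := false) (a := 2) (b := 0) (c := 2) (cn := .pp) (n1 := ndB0q2) (n2 := ndB4q2b) (pc := pcB0) (cut := cut_pm_202_b) (xt := Ext.none) (P1 := 0) (W1 := 536870912) (P2 := 1239849684) (W2 := 370763052) (P3 := 697932185) (W3 := 42949674) (N0 := 3) (En := eng) (mo := mog) (C1 := cd0q2) (C2 := cd4q2b) (C3 := pd0)
    rfl k0_pm_202_b

noncomputable def f_pm_203 : ℕ → ℕ → ℕ → ℕ → Bool := onCell 0 536870912 0 536870912 697932185 42949674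
    (rowB 3 eng mog cd0q2 cd4q3 pd0 1 false true false .up 2 0 3 (qsf 0 536870912 1610612736 536870912 0) ndB0q2 ndB4q3 pcB0 Cut.none Ext.none)

def k0_pm_203 : ∃ t, chk3 f_pm_203 t 1 1 1 = true :=
  ⟨(a (l 3) (b (l 1) (l 3))), by decide +kernel⟩

theorem c_pm_203 : CertB 0 536870912 1610612736 536870912 697932185 42949674 3 eng mog cd0q2 cd4q3 pd0 false true false .up 2 0 3
    ndB0q2 ndB4q3 pcB0 Cut.none Ext.none :=
  certB1 (fam := false) (s1 := true) (s2 := false) (a := 2) (b := 0) (c := 3) (cn := .up) (n1 := ndB0q2) (n2 := ndB4q3) (pc := pcB0) (cut := Cut.none) (xt := Ext.none) (P1 := 0) (W1 := 536870912) (P2 := 1610612736) (W2 := 536870912) (P3 := 697932185) (W3 := 42949674) (N0 := 3) (En := eng) (mo := mog) (C1 := cd0q2) (C2 := cd4q3) (C3 := pd0)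
    rfl (fun _ => rfl) k0_pm_203

noncomputable def cut_pm_213 : Cut := Cut.of [[⟨0, 1, 0, 67108864⟩, ⟨1, 1, 0, 67108864⟩, ⟨2, 2, 0, 16777216⟩]]

noncomputable def f_pm_213 : ℕ → ℕ → ℕ → ℕ → Bool := onCell 0 536870912 1610612736 536870912 697932185 42949674
    (rowB 3 eng mog cd0q2 cd4q3 pd1 0 false true false .pnn 2 1 3 (qsf 0 536870912 1610612736 536870912 1) ndB0q2 ndB4q3 pcB1 cut_pm_213 Ext.none)

def k0_pm_213 : ∃ t, chk3 f_pm_213 t 1 1 1 = true :=
  ⟨(a (l 3) (a (l 3) (a (b (l 3) (l 3)) (b (l 3) (b (l 3) (b (l 3) (a (l 3) (b (l 3) (b (l 3) (b (l 3) (l 6))))))))))), by decide +kernel⟩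

theorem c_pm_213 : CertB 0 536870912 1610612736 536870912 697932185 42949674 3 eng mog cd0q2 cd4q3 pd1 false true false .pnn 2 1 3
    ndB0q2 ndB4q3 pcB1 cut_pm_213 Ext.none :=
  certB0 (fam := false) (s1 := true) (s2 := false) (a := 2) (b := 1) (c := 3) (cn := .pnn) (n1 := ndB0q2) (n2 := ndB4q3) (pc := pcB1) (cut := cut_pm_213) (xt := Ext.none) (P1 := 0) (W1 := 536870912) (P2 := 1610612736) (W2 := 536870912) (P3 := 697932185) (W3 := 42949674) (N0 := 3) (En := eng) (mo := mog) (C1 := cd0q2) (C2 := cd4q3) (C3 := pd1)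
    rfl k0_pm_213

noncomputable def f_mm_001 : ℕ → ℕ → ℕ → ℕ → Bool := onCell 0 536870912 0 536870912 697932185 42949674
    (rowB 3 eng mog cd0q0 cd4q1 pd0 1 false false false .up 0 0 1 (qsf 0 536870912 536870912 536870912 0) ndB0q0 ndB4q1 pcB0 Cut.none Ext.none)

def k0_mm_001 : ∃ t, chk3 f_mm_001 t 1 1 1 = true :=
  ⟨(l 3), by decide +kernel⟩

theorem c_mm_001 : CertB 0 536870912 536870912 536870912 697932185 42949674 3 eng mog cd0q0 cd4q1 pd0 false false false .up 0 0 1
    ndB0q0 ndB4q1 pcB0 Cut.none Ext.none :=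
  certB1 (fam := false) (s1 := false) (s2 := false) (a := 0) (b := 0) (c := 1) (cn := .up) (n1 := ndB0q0) (n2 := ndB4q1) (pc := pcB0) (cut := Cut.none) (xt := Ext.none) (P1 := 0) (W1 := 536870912) (P2 := 536870912) (W2 := 536870912) (P3 := 697932185) (W3 := 42949674) (N0 := 3) (En := eng) (mo := mog) (C1 := cd0q0) (C2 := cd4q1) (C3 := pd0)
    rfl (fun _ => rfl) k0_mm_001

noncomputable def f_mm_011 : ℕ → ℕ → ℕ → ℕ → Bool := onCell 0 536870912 536870912 536870912 697932185 42949674
    (rowB 3 eng mog cd0q0 cd4q1 pd1 1 false false false .pnn 0 1 1 (qsf 0 536870912 536870912 536870912 1) ndB0q0 ndB4q1 pcB1 Cut.none Ext.none)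

def k0_mm_011 : ∃ t, chk3 f_mm_011 t 1 1 1 = true :=
  ⟨(l 5), by decide +kernel⟩

theorem c_mm_011 : CertB 0 536870912 536870912 536870912 697932185 42949674 3 eng mog cd0q0 cd4q1 pd1 false false false .pnn 0 1 1
    ndB0q0 ndB4q1 pcB1 Cut.none Ext.none :=
  certB1 (fam := false) (s1 := false) (s2 := false) (a := 0) (b := 1) (c := 1) (cn := .pnn) (n1 := ndB0q0) (n2 := ndB4q1) (pc := pcB1) (cut := Cut.none) (xt := Ext.none) (P1 := 0) (W1 := 536870912) (P2 := 536870912) (W2 := 536870912) (P3 := 697932185) (W3 := 42949674) (N0 := 3) (En := eng) (mo := mog) (C1 := cd0q0) (C2 := cd4q1) (C3 := pd1)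
    rfl (fun _ => rfl) k0_mm_011

noncomputable def f_mm_012_a : ℕ → ℕ → ℕ → ℕ → Bool := onCell 0 536870912 0 536870912 697932185 42949674
    (rowB 3 eng mog cd0q0 cd4q2a pd1 0 false false false .pnp 0 1 2 (qsf 0 536870912 0 536870912 1) ndB0q0 ndB4q2a pcB1 Cut.none Ext.none)

def k0_mm_012_a : ∃ t, chk3 f_mm_012_a t 1 1 1 = true :=
  ⟨(l 5), by decide +kernel⟩

theorem c_mm_012_a : CertB 0 536870912 0 536870912 697932185 42949674 3 eng mog cd0q0 cd4q2a pd1 false false false .pnp 0 1 2
    ndB0q0 ndB4q2a pcB1 Cut.none Ext.none :=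
  certB0 (fam := false) (s1 := false) (s2 := false) (a := 0) (b := 1) (c := 2) (cn := .pnp) (n1 := ndB0q0) (n2 := ndB4q2a) (pc := pcB1) (cut := Cut.none) (xt := Ext.none) (P1 := 0) (W1 := 536870912) (P2 := 0) (W2 := 536870912) (P3 := 697932185) (W3 := 42949674) (N0 := 3) (En := eng) (mo := mog) (C1 := cd0q0) (C2 := cd4q2a) (C3 := pd1)
    rfl k0_mm_012_a

noncomputable def f_mm_012_b : ℕ → ℕ → ℕ → ℕ → Bool := onCell 0 536870912 1239849684 370763052 697932185 42949674
    (rowB 3 eng mog cd0q0 cd4q2b pd1 0 false false false .pnp 0 1 2 (qsf 0 536870912 1239849684 370763052 1) ndB0q0 ndB4q2b pcB1 Cut.none Ext.none)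

def k0_mm_012_b : ∃ t, chk3 f_mm_012_b t 1 1 1 = true :=
  ⟨(l 5), by decide +kernel⟩

theorem c_mm_012_b : CertB 0 536870912 1239849684 370763052 697932185 42949674 3 eng mog cd0q0 cd4q2b pd1 false false false .pnp 0 1 2
    ndB0q0 ndB4q2b pcB1 Cut.none Ext.none :=
  certB0 (fam := false) (s1 := false) (s2 := false) (a := 0) (b := 1) (c := 2) (cn := .pnp) (n1 := ndB0q0) (n2 := ndB4q2b) (pc := pcB1) (cut := Cut.none) (xt := Ext.none) (P1 := 0) (W1 := 536870912) (P2 := 1239849684) (W2 := 370763052) (P3 := 697932185) (W3 := 42949674) (N0 := 3) (En := eng) (mo := mog) (C1 := cd0q0) (C2 := cd4q2b) (C3 := pd1)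
    rfl k0_mm_012_b

noncomputable def f_mm_022_a : ℕ → ℕ → ℕ → ℕ → Bool := onCell 0 536870912 0 536870912 697932185 42949674
    (rowB 3 eng mog cd0q0 cd4q2a pd2 0 false false false .pp 0 2 2 (qsf 0 536870912 0 536870912 2) ndB0q0 ndB4q2a pcB2 Cut.none Ext.none)

def k0_mm_022_a : ∃ t, chk3 f_mm_022_a t 1 1 1 = true :=
  ⟨(l 5), by decide +kernel⟩

theorem c_mm_022_a : CertB 0 536870912 0 536870912 697932185 42949674 3 eng mog cd0q0 cd4q2a pd2 false false false .pp 0 2 2
    ndB0q0 ndB4q2a pcB2 Cut.none Ext.none :=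
  certB0 (fam := false) (s1 := false) (s2 := false) (a := 0) (b := 2) (c := 2) (cn := .pp) (n1 := ndB0q0) (n2 := ndB4q2a) (pc := pcB2) (cut := Cut.none) (xt := Ext.none) (P1 := 0) (W1 := 536870912) (P2 := 0) (W2 := 536870912) (P3 := 697932185) (W3 := 42949674) (N0 := 3) (En := eng) (mo := mog) (C1 := cd0q0) (C2 := cd4q2a) (C3 := pd2)
    rfl k0_mm_022_a

noncomputable def f_mm_022_b : ℕ → ℕ → ℕ → ℕ → Bool := onCell 0 536870912 1239849684 370763052 697932185 42949674
    (rowB 3 eng mog cd0q0 cd4q2b pd2 0 false false false .pp 0 2 2 (qsf 0 536870912 1239849684 370763052 2) ndB0q0 ndB4q2b pcB2 Cut.none Ext.none)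

def k0_mm_022_b : ∃ t, chk3 f_mm_022_b t 1 1 1 = true :=
  ⟨(l 5), by decide +kernel⟩

theorem c_mm_022_b : CertB 0 536870912 1239849684 370763052 697932185 42949674 3 eng mog cd0q0 cd4q2b pd2 false false false .pp 0 2 2
    ndB0q0 ndB4q2b pcB2 Cut.none Ext.none :=
  certB0 (fam := false) (s1 := false) (s2 := false) (a := 0) (b := 2) (c := 2) (cn := .pp) (n1 := ndB0q0) (n2 := ndB4q2b) (pc := pcB2) (cut := Cut.none) (xt := Ext.none) (P1 := 0) (W1 := 536870912) (P2 := 1239849684) (W2 := 370763052) (P3 := 697932185) (W3 := 42949674) (N0 := 3) (En := eng) (mo := mog) (C1 := cd0q0) (C2 := cd4q2b) (C3 := pd2)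
    rfl k0_mm_022_b

noncomputable def f_mm_023 : ℕ → ℕ → ℕ → ℕ → Bool := onCell 0 536870912 1610612736 536870912 697932185 42949674
    (rowB 3 eng mog cd0q0 cd4q3 pd2 0 false false false .up 0 2 3 (qsf 0 536870912 1610612736 536870912 2) ndB0q0 ndB4q3 pcB2 Cut.none Ext.none)

def k0_mm_023 : ∃ t, chk3 f_mm_023 t 1 1 1 = true :=
  ⟨(l 5), by decide +kernel⟩

theorem c_mm_023 : CertB 0 536870912 1610612736 536870912 697932185 42949674 3 eng mog cd0q0 cd4q3 pd2 false false false .up 0 2 3
    ndB0q0 ndB4q3 pcB2 Cut.none Ext.none :=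
  certB0 (fam := false) (s1 := false) (s2 := false) (a := 0) (b := 2) (c := 3) (cn := .up) (n1 := ndB0q0) (n2 := ndB4q3) (pc := pcB2) (cut := Cut.none) (xt := Ext.none) (P1 := 0) (W1 := 536870912) (P2 := 1610612736) (W2 := 536870912) (P3 := 697932185) (W3 := 42949674) (N0 := 3) (En := eng) (mo := mog) (C1 := cd0q0) (C2 := cd4q3) (C3 := pd2)
    rfl k0_mm_023

noncomputable def f_mm_033 : ℕ → ℕ → ℕ → ℕ → Bool := onCell 0 536870912 1610612736 536870912 697932185 42949674
    (rowB 3 eng mog cd0q0 cd4q3 pd3 0 false false false .pnn 0 3 3 (qsf 0 536870912 1610612736 536870912 3) ndB0q0 ndB4q3 pcB3 Cut.none Ext.none)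

def k0_mm_033 : ∃ t, chk3 f_mm_033 t 1 1 1 = true :=
  ⟨(l 5), by decide +kernel⟩

theorem c_mm_033 : CertB 0 536870912 1610612736 536870912 697932185 42949674 3 eng mog cd0q0 cd4q3 pd3 false false false .pnn 0 3 3
    ndB0q0 ndB4q3 pcB3 Cut.none Ext.none :=
  certB0 (fam := false) (s1 := false) (s2 := false) (a := 0) (b := 3) (c := 3) (cn := .pnn) (n1 := ndB0q0) (n2 := ndB4q3) (pc := pcB3) (cut := Cut.none) (xt := Ext.none) (P1 := 0) (W1 := 536870912) (P2 := 1610612736) (W2 := 536870912) (P3 := 697932185) (W3 := 42949674) (N0 := 3) (En := eng) (mo := mog) (C1 := cd0q0) (C2 := cd4q3) (C3 := pd3)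
    rfl k0_mm_033

noncomputable def f_mm_101 : ℕ → ℕ → ℕ → ℕ → Bool := onCell 0 536870912 536870912 536870912 697932185 42949674
    (rowB 3 eng mog cd0q1 cd4q1 pd0 2 false false false .npn 1 0 1 (qsf 536870912 536870912 536870912 536870912 0) ndB0q1 ndB4q1 pcB0 Cut.none Ext.none)

def k0_mm_101 : ∃ t, chk3 f_mm_101 t 1 1 1 = true :=
  ⟨(a (l 3) (l 3)), by decide +kernel⟩

theorem c_mm_101 : CertB 536870912 536870912 536870912 536870912 697932185 42949674 3 eng mog cd0q1 cd4q1 pd0 false false false .npn 1 0 1
    ndB0q1 ndB4q1 pcB0 Cut.none Ext.none :=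
  certB2 (fam := false) (s1 := false) (s2 := false) (a := 1) (b := 0) (c := 1) (cn := .npn) (n1 := ndB0q1) (n2 := ndB4q1) (pc := pcB0) (cut := Cut.none) (xt := Ext.none) (P1 := 536870912) (W1 := 536870912) (P2 := 536870912) (W2 := 536870912) (P3 := 697932185) (W3 := 42949674) (N0 := 3) (En := eng) (mo := mog) (C1 := cd0q1) (C2 := cd4q1) (C3 := pd0)
    rfl (fun _ => rfl) k0_mm_101

noncomputable def f_mm_102_a : ℕ → ℕ → ℕ → ℕ → Bool := onCell 536870912 536870912 0 536870912 697932185 42949674
    (rowB 3 eng mog cd0q1 cd4q2a pd0 0 false false false .npp 1 0 2 (qsf 536870912 536870912 0 536870912 0) ndB0q1 ndB4q2a pcB0 Cut.none Ext.none)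

def k0_mm_102_a : ∃ t, chk3 f_mm_102_a t 1 1 1 = true :=
  ⟨(l 3), by decide +kernel⟩

theorem c_mm_102_a : CertB 536870912 536870912 0 536870912 697932185 42949674 3 eng mog cd0q1 cd4q2a pd0 false false false .npp 1 0 2
    ndB0q1 ndB4q2a pcB0 Cut.none Ext.none :=
  certB0 (fam := false) (s1 := false) (s2 := false) (a := 1) (b := 0) (c := 2) (cn := .npp) (n1 := ndB0q1) (n2 := ndB4q2a) (pc := pcB0) (cut := Cut.none) (xt := Ext.none) (P1 := 536870912) (W1 := 536870912) (P2 := 0) (W2 := 536870912) (P3 := 697932185) (W3 := 42949674) (N0 := 3) (En := eng) (mo := mog) (C1 := cd0q1) (C2 := cd4q2a) (C3 := pd0)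
    rfl k0_mm_102_a

noncomputable def f_mm_102_b : ℕ → ℕ → ℕ → ℕ → Bool := onCell 536870912 536870912 1239849684 370763052 697932185 42949674
    (rowB 3 eng mog cd0q1 cd4q2b pd0 0 false false false .npp 1 0 2 (qsf 536870912 536870912 1239849684 370763052 0) ndB0q1 ndB4q2b pcB0 Cut.none Ext.none)

def k0_mm_102_b : ∃ t, chk3 f_mm_102_b t 1 1 1 = true :=
  ⟨(l 5), by decide +kernel⟩

theorem c_mm_102_b : CertB 536870912 536870912 1239849684 370763052 697932185 42949674 3 eng mog cd0q1 cd4q2b pd0 false false false .npp 1 0 2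
    ndB0q1 ndB4q2b pcB0 Cut.none Ext.none :=
  certB0 (fam := false) (s1 := false) (s2 := false) (a := 1) (b := 0) (c := 2) (cn := .npp) (n1 := ndB0q1) (n2 := ndB4q2b) (pc := pcB0) (cut := Cut.none) (xt := Ext.none) (P1 := 536870912) (W1 := 536870912) (P2 := 1239849684) (W2 := 370763052) (P3 := 697932185) (W3 := 42949674) (N0 := 3) (En := eng) (mo := mog) (C1 := cd0q1) (C2 := cd4q2b) (C3 := pd0)
    rfl k0_mm_102_b

noncomputable def f_mm_112_a : ℕ → ℕ → ℕ → ℕ → Bool := onCell 536870912 536870912 0 536870912 697932185 42949674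
    (rowB 3 eng mog cd0q1 cd4q2a pd1 0 false false false .dn 1 1 2 (qsf 536870912 536870912 0 536870912 1) ndB0q1 ndB4q2a pcB1 Cut.none Ext.none)

def k0_mm_112_a : ∃ t, chk3 f_mm_112_a t 1 1 1 = true :=
  ⟨(l 3), by decide +kernel⟩

theorem c_mm_112_a : CertB 536870912 536870912 0 536870912 697932185 42949674 3 eng mog cd0q1 cd4q2a pd1 false false false .dn 1 1 2
    ndB0q1 ndB4q2a pcB1 Cut.none Ext.none :=
  certB0 (fam := false) (s1 := false) (s2 := false) (a := 1) (b := 1) (c := 2) (cn := .dn) (n1 := ndB0q1) (n2 := ndB4q2a) (pc := pcB1) (cut := Cut.none) (xt := Ext.none) (P1 := 536870912) (W1 := 536870912) (P2 := 0) (W2 := 536870912) (P3 := 697932185) (W3 := 42949674) (N0 := 3) (En := eng) (mo := mog) (C1 := cd0q1) (C2 := cd4q2a) (C3 := pd1)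
    rfl k0_mm_112_a

noncomputable def f_mm_112_b : ℕ → ℕ → ℕ → ℕ → Bool := onCell 536870912 536870912 1239849684 370763052 697932185 42949674
    (rowB 3 eng mog cd0q1 cd4q2b pd1 0 false false false .dn 1 1 2 (qsf 536870912 536870912 1239849684 370763052 1) ndB0q1 ndB4q2b pcB1 Cut.none Ext.none)

def k0_mm_112_b : ∃ t, chk3 f_mm_112_b t 1 1 1 = true :=
  ⟨(l 5), by decide +kernel⟩

theorem c_mm_112_b : CertB 536870912 536870912 1239849684 370763052 697932185 42949674 3 eng mog cd0q1 cd4q2b pd1 false false false .dn 1 1 2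
    ndB0q1 ndB4q2b pcB1 Cut.none Ext.none :=
  certB0 (fam := false) (s1 := false) (s2 := false) (a := 1) (b := 1) (c := 2) (cn := .dn) (n1 := ndB0q1) (n2 := ndB4q2b) (pc := pcB1) (cut := Cut.none) (xt := Ext.none) (P1 := 536870912) (W1 := 536870912) (P2 := 1239849684) (W2 := 370763052) (P3 := 697932185) (W3 := 42949674) (N0 := 3) (En := eng) (mo := mog) (C1 := cd0q1) (C2 := cd4q2b) (C3 := pd1)
    rfl k0_mm_112_b

noncomputable def f_mm_113 : ℕ → ℕ → ℕ → ℕ → Bool := onCell 536870912 536870912 1610612736 536870912 697932185 42949674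
    (rowB 3 eng mog cd0q1 cd4q3 pd1 0 false false false .nn 1 1 3 (qsf 536870912 536870912 1610612736 536870912 1) ndB0q1 ndB4q3 pcB1 Cut.none Ext.none)

def k0_mm_113 : ∃ t, chk3 f_mm_113 t 1 1 1 = true :=
  ⟨(l 5), by decide +kernel⟩

theorem c_mm_113 : CertB 536870912 536870912 1610612736 536870912 697932185 42949674 3 eng mog cd0q1 cd4q3 pd1 false false false .nn 1 1 3
    ndB0q1 ndB4q3 pcB1 Cut.none Ext.none :=
  certB0 (fam := false) (s1 := false) (s2 := false) (a := 1) (b := 1) (c := 3) (cn := .nn) (n1 := ndB0q1) (n2 := ndB4q3) (pc := pcB1) (cut := Cut.none) (xt := Ext.none) (P1 := 536870912) (W1 := 536870912) (P2 := 1610612736) (W2 := 536870912) (P3 := 697932185) (W3 := 42949674) (N0 := 3) (En := eng) (mo := mog) (C1 := cd0q1) (C2 := cd4q3) (C3 := pd1)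
    rfl k0_mm_113

noncomputable def f_mm_123 : ℕ → ℕ → ℕ → ℕ → Bool := onCell 536870912 536870912 1610612736 536870912 697932185 42949674
    (rowB 3 eng mog cd0q1 cd4q3 pd2 0 false false false .npn 1 2 3 (qsf 536870912 536870912 1610612736 536870912 2) ndB0q1 ndB4q3 pcB2 Cut.none Ext.none)

def k0_mm_123 : ∃ t, chk3 f_mm_123 t 1 1 1 = true :=
  ⟨(l 5), by decide +kernel⟩

theorem c_mm_123 : CertB 536870912 536870912 1610612736 536870912 697932185 42949674 3 eng mog cd0q1 cd4q3 pd2 false false false .npn 1 2 3
    ndB0q1 ndB4q3 pcB2 Cut.none Ext.none :=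
  certB0 (fam := false) (s1 := false) (s2 := false) (a := 1) (b := 2) (c := 3) (cn := .npn) (n1 := ndB0q1) (n2 := ndB4q3) (pc := pcB2) (cut := Cut.none) (xt := Ext.none) (P1 := 536870912) (W1 := 536870912) (P2 := 1610612736) (W2 := 536870912) (P3 := 697932185) (W3 := 42949674) (N0 := 3) (En := eng) (mo := mog) (C1 := cd0q1) (C2 := cd4q3) (C3 := pd2)
    rfl k0_mm_123

noncomputable def f_mm_133 : ℕ → ℕ → ℕ → ℕ → Bool := onCell 536870912 536870912 1610612736 536870912 697932185 42949674
    (rowB 3 eng mog cd0q1 cd4q3 pd3 0 false false false .dn 1 3 3 (qsf 536870912 536870912 1610612736 536870912 3) ndB0q1 ndB4q3 pcB3 Cut.none Ext.none)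

def k0_mm_133 : ∃ t, chk3 f_mm_133 t 1 1 1 = true :=
  ⟨(l 5), by decide +kernel⟩

theorem c_mm_133 : CertB 536870912 536870912 1610612736 536870912 697932185 42949674 3 eng mog cd0q1 cd4q3 pd3 false false false .dn 1 3 3
    ndB0q1 ndB4q3 pcB3 Cut.none Ext.none :=
  certB0 (fam := false) (s1 := false) (s2 := false) (a := 1) (b := 3) (c := 3) (cn := .dn) (n1 := ndB0q1) (n2 := ndB4q3) (pc := pcB3) (cut := Cut.none) (xt := Ext.none) (P1 := 536870912) (W1 := 536870912) (P2 := 1610612736) (W2 := 536870912) (P3 := 697932185) (W3 := 42949674) (N0 := 3) (En := eng) (mo := mog) (C1 := cd0q1) (C2 := cd4q3) (C3 := pd3)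
    rfl k0_mm_133

noncomputable def f_mm_202_a : ℕ → ℕ → ℕ → ℕ → Bool := onCell 0 536870912 0 536870912 697932185 42949674
    (rowB 3 eng mog cd0q2 cd4q2a pd0 0 false false false .pp 2 0 2 (qsf 0 536870912 0 536870912 0) ndB0q2 ndB4q2a pcB0 Cut.none Ext.none)

def k0_mm_202_a : ∃ t, chk3 f_mm_202_a t 1 1 1 = true :=
  ⟨(l 3), by decide +kernel⟩

theorem c_mm_202_a : CertB 0 536870912 0 536870912 697932185 42949674 3 eng mog cd0q2 cd4q2a pd0 false false false .pp 2 0 2
    ndB0q2 ndB4q2a pcB0 Cut.none Ext.none :=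
  certB0 (fam := false) (s1 := false) (s2 := false) (a := 2) (b := 0) (c := 2) (cn := .pp) (n1 := ndB0q2) (n2 := ndB4q2a) (pc := pcB0) (cut := Cut.none) (xt := Ext.none) (P1 := 0) (W1 := 536870912) (P2 := 0) (W2 := 536870912) (P3 := 697932185) (W3 := 42949674) (N0 := 3) (En := eng) (mo := mog) (C1 := cd0q2) (C2 := cd4q2a) (C3 := pd0)
    rfl k0_mm_202_a

noncomputable def f_mm_202_b : ℕ → ℕ → ℕ → ℕ → Bool := onCell 0 536870912 1239849684 370763052 697932185 42949674
    (rowB 3 eng mog cd0q2 cd4q2b pd0 0 false false false .pp 2 0 2 (qsf 0 536870912 1239849684 370763052 0) ndB0q2 ndB4q2b pcB0 Cut.none Ext.none)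

def k0_mm_202_b : ∃ t, chk3 f_mm_202_b t 1 1 1 = true :=
  ⟨(l 3), by decide +kernel⟩

theorem c_mm_202_b : CertB 0 536870912 1239849684 370763052 697932185 42949674 3 eng mog cd0q2 cd4q2b pd0 false false false .pp 2 0 2
    ndB0q2 ndB4q2b pcB0 Cut.none Ext.none :=
  certB0 (fam := false) (s1 := false) (s2 := false) (a := 2) (b := 0) (c := 2) (cn := .pp) (n1 := ndB0q2) (n2 := ndB4q2b) (pc := pcB0) (cut := Cut.none) (xt := Ext.none) (P1 := 0) (W1 := 536870912) (P2 := 1239849684) (W2 := 370763052) (P3 := 697932185) (W3 := 42949674) (N0 := 3) (En := eng) (mo := mog) (C1 := cd0q2) (C2 := cd4q2b) (C3 := pd0)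
    rfl k0_mm_202_b

noncomputable def f_mm_203 : ℕ → ℕ → ℕ → ℕ → Bool := onCell 0 536870912 0 536870912 697932185 42949674
    (rowB 3 eng mog cd0q2 cd4q3 pd0 1 false false false .up 2 0 3 (qsf 0 536870912 1610612736 536870912 0) ndB0q2 ndB4q3 pcB0 Cut.none Ext.none)

def k0_mm_203 : ∃ t, chk3 f_mm_203 t 1 1 1 = true :=
  ⟨(l 3), by decide +kernel⟩

theorem c_mm_203 : CertB 0 536870912 1610612736 536870912 697932185 42949674 3 eng mog cd0q2 cd4q3 pd0 false false false .up 2 0 3
    ndB0q2 ndB4q3 pcB0 Cut.none Ext.none :=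
  certB1 (fam := false) (s1 := false) (s2 := false) (a := 2) (b := 0) (c := 3) (cn := .up) (n1 := ndB0q2) (n2 := ndB4q3) (pc := pcB0) (cut := Cut.none) (xt := Ext.none) (P1 := 0) (W1 := 536870912) (P2 := 1610612736) (W2 := 536870912) (P3 := 697932185) (W3 := 42949674) (N0 := 3) (En := eng) (mo := mog) (C1 := cd0q2) (C2 := cd4q3) (C3 := pd0)
    rfl (fun _ => rfl) k0_mm_203

noncomputable def f_mm_213 : ℕ → ℕ → ℕ → ℕ → Bool := onCell 0 536870912 1610612736 536870912 697932185 42949674
    (rowB 3 eng mog cd0q2 cd4q3 pd1 0 false false false .pnn 2 1 3 (qsf 0 536870912 1610612736 536870912 1) ndB0q2 ndB4q3 pcB1 Cut.none Ext.none)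

def k0_mm_213 : ∃ t, chk3 f_mm_213 t 1 1 1 = true :=
  ⟨(b (l 3) (a (l 3) (l 5))), by decide +kernel⟩

theorem c_mm_213 : CertB 0 536870912 1610612736 536870912 697932185 42949674 3 eng mog cd0q2 cd4q3 pd1 false false false .pnn 2 1 3
    ndB0q2 ndB4q3 pcB1 Cut.none Ext.none :=
  certB0 (fam := false) (s1 := false) (s2 := false) (a := 2) (b := 1) (c := 3) (cn := .pnn) (n1 := ndB0q2) (n2 := ndB4q3) (pc := pcB1) (cut := Cut.none) (xt := Ext.none) (P1 := 0) (W1 := 536870912) (P2 := 1610612736) (W2 := 536870912) (P3 := 697932185) (W3 := 42949674) (N0 := 3) (En := eng) (mo := mog) (C1 := cd0q2) (C2 := cd4q3) (C3 := pd1)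
    rfl k0_mm_213

end Pool.Agent.Strip051.G.I6500_6900.Tab.C.BB04

namespace Pool.Agent.Strip051.G.I6500_6900.Tab.C.BB05

open Pool.Agent.Strip051.PB Pool.Agent.Strip051.PB.T
open Pool.Agent.Strip051.G.I6500_6900.Tab

noncomputable def f_pp_001 : ℕ → ℕ → ℕ → ℕ → Bool := onCell 0 536870912 0 536870912 697932185 42949674
    (rowB 3 eng mog cd0q0 cd5q1 pd0 1 false true true .up 0 0 1 (qsf 0 536870912 536870912 536870912 0) ndB0q0 ndB5q1 pcB0 Cut.none Ext.none)

def k0_pp_001 : ∃ t, chk3 f_pp_001 t 1 1 1 = true :=
  ⟨(l 3), by decide +kernel⟩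

theorem c_pp_001 : CertB 0 536870912 536870912 536870912 697932185 42949674 3 eng mog cd0q0 cd5q1 pd0 false true true .up 0 0 1
    ndB0q0 ndB5q1 pcB0 Cut.none Ext.none :=
  certB1 (fam := false) (s1 := true) (s2 := true) (a := 0) (b := 0) (c := 1) (cn := .up) (n1 := ndB0q0) (n2 := ndB5q1) (pc := pcB0) (cut := Cut.none) (xt := Ext.none) (P1 := 0) (W1 := 536870912) (P2 := 536870912) (W2 := 536870912) (P3 := 697932185) (W3 := 42949674) (N0 := 3) (En := eng) (mo := mog) (C1 := cd0q0) (C2 := cd5q1) (C3 := pd0)
    rfl (fun _ => rfl) k0_pp_001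

noncomputable def cut_pp_011 : Cut := Cut.of [[⟨0, 0, 0, 67108864⟩, ⟨1, 1, 0, 67108864⟩, ⟨2, 1, 0, 67108864⟩]]

noncomputable def f_pp_011 : ℕ → ℕ → ℕ → ℕ → Bool := onCell 0 536870912 536870912 536870912 697932185 42949674
    (rowB 3 eng mog cd0q0 cd5q1 pd1 1 false true true .pnn 0 1 1 (qsf 0 536870912 536870912 536870912 1) ndB0q0 ndB5q1 pcB1 cut_pp_011 Ext.none)

def k0_pp_011 : ∃ t, chk3 f_pp_011 t 1 1 1 = true :=
  ⟨(b (l 3) (a (b (l 3) (a (b (l 3) (a (b (l 3) (a (l 6) (l 3))) (l 3))) (l 3))) (l 3))), by decide +kernel⟩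

theorem c_pp_011 : CertB 0 536870912 536870912 536870912 697932185 42949674 3 eng mog cd0q0 cd5q1 pd1 false true true .pnn 0 1 1
    ndB0q0 ndB5q1 pcB1 cut_pp_011 Ext.none :=
  certB1 (fam := false) (s1 := true) (s2 := true) (a := 0) (b := 1) (c := 1) (cn := .pnn) (n1 := ndB0q0) (n2 := ndB5q1) (pc := pcB1) (cut := cut_pp_011) (xt := Ext.none) (P1 := 0) (W1 := 536870912) (P2 := 536870912) (W2 := 536870912) (P3 := 697932185) (W3 := 42949674) (N0 := 3) (En := eng) (mo := mog) (C1 := cd0q0) (C2 := cd5q1) (C3 := pd1)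
    rfl (fun _ => rfl) k0_pp_011

noncomputable def f_pp_012 : ℕ → ℕ → ℕ → ℕ → Bool := onCell 0 536870912 536870912 536870912 697932185 42949674
    (rowB 3 eng mog cd0q0 cd5q2 pd1 1 false true true .pnp 0 1 2 (qsf 0 536870912 1073741824 536870912 1) ndB0q0 ndB5q2 pcB1 Cut.none Ext.none)

def k0_pp_012 : ∃ t, chk3 f_pp_012 t 1 1 1 = true :=
  ⟨(l 3), by decide +kernel⟩

theorem c_pp_012 : CertB 0 536870912 1073741824 536870912 697932185 42949674 3 eng mog cd0q0 cd5q2 pd1 false true true .pnp 0 1 2
    ndB0q0 ndB5q2 pcB1 Cut.none Ext.none :=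
  certB1 (fam := false) (s1 := true) (s2 := true) (a := 0) (b := 1) (c := 2) (cn := .pnp) (n1 := ndB0q0) (n2 := ndB5q2) (pc := pcB1) (cut := Cut.none) (xt := Ext.none) (P1 := 0) (W1 := 536870912) (P2 := 1073741824) (W2 := 536870912) (P3 := 697932185) (W3 := 42949674) (N0 := 3) (En := eng) (mo := mog) (C1 := cd0q0) (C2 := cd5q2) (C3 := pd1)
    rfl (fun _ => rfl) k0_pp_012

end Pool.Agent.Strip051.G.I6500_6900.Tab.C.BB05

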