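import Pool.Agent.Strip051.G.I6500_6900.Tab

/-! # Certificates B26 (generated) -/

set_option linter.all false
set_option maxRecDepth 100000

namespace Pool.Agent.Strip051.G.I6500_6900.Tab.C.BB05

open Pool.Agent.Strip051.PB Pool.Agent.Strip051.PB.T
open Pool.Agent.Strip051.G.I6500_6900.Tab

noncomputable def f_pp_022 : ℕ → ℕ → ℕ → ℕ → Bool := onCell 0 536870912 1073741824 536870912 697932185 42949674
    (rowB 3 eng mog cd0q0 cd5q2 pd2 1 false true true .pp 0 2 2 (qsf 0 536870912 1073741824 536870912 2) ndB0q0 ndB5q2 pcB2 Cut.none Ext.none)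

def k0_pp_022 : ∃ t, chk3 f_pp_022 t 1 4 1 = true :=
  ⟨(b (l 3) (b (a (l 3) (a (l 3) (a (l 3) (b (l 3) (l 2))))) (a (b (a (l 3) (a (l 3) (a (l 3) (b (l 3) (l 716353079015))))) (b (a (a (l 3) (a (l 3) (l 3))) (a (a (b (l 3) (a (l 16514672) (l 16448728))) (b (a (l 3) (l 16516848)) (a (l 16510400) (l 16510928)))) (a (b (a (l 16517936) (l 16519544)) (a (l 16513080) (l 16515776))) (b (l 16521672) (l 16519152))))) (b (a (a (l 3) (a (a (c (l 16463112) (l 16512432)) (l 16514576)) (a (l 16515296) (a (l 16511184) (l 16508928))))) (a (a (c (l 16508400) (l 16500824)) (a (l 16503760) (l 16505144))) (a (a (l 16508040) (l 16511272)) (l 16515136)))) (a (a (c (a (l 88213865767) (a (l 16495864) (l 16517032))) (a (l 16470592) (a (l 16505088) (l 16504200)))) (a (a (l 16507368) (l 16511104)) (a (l 16505120) (c (l 16504400) (l 16496200))))) (a (a (a (l 16497816) (l 16496440)) (l 16497432)) (a (l 16503512) (l 16510200))))))) (a (a (b (a (b (l 3) (l 16527152)) (l 16527744)) (b (a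 (l 16522888) (l 16525184)) (a (l 16516696) (l 16520920)))) (b (a (l 16525216) (l 16519640)) (b (a (l 16526208) (l 16524032)) (l 16501888)))) (a (b (a (l 16491512) (l 16484040)) (b (l 16576840) (l 16514816))) (l 2)))))), by decide +kernel⟩

def k1_pp_022 : ∃ t, chk3 f_pp_022 t 2 40 1 = true :=
  ⟨(a (b (b (a (a (a (l 16504824) (l 16504384)) (a (c (l 16511992) (l 16500184)) (l 16393544))) (a (a (l 16505664) (l 16500296)) (a (l 16453248) (l 16491584)))) (a (a (a (l 16474744) (l 16497712)) (a (c (l 16475928) (l 16495576)) (l 16495944))) (a (b (l 16379896) (l 16364184)) (a (l 16485544) (l 16482528))))) (a (a (a (l 16464192) (c (l 16479688) (l 16489152))) (a (b (l 16526400) (l 16479912)) (l 16487064))) (a (a (l 16480048) (l 16474928)) (b (l 16474648) (l 16465568))))) (a (b (a (a (l 16485032) (l 16484488)) (a (l 16485560) (l 16488248))) (a (b (l 16472400) (l 16464552)) (b (l 16476152) (l 16469536)))) (b (a (a (l 16492432) (l 16496960)) (l 16502736)) (a (a (l 16480400)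 (l 16486168)) (l 16493816))))), by decide +kernel⟩

def k2_pp_022 : ∃ t, chk3 f_pp_022 t 2 41 1 = true :=
  ⟨(a (b (b (a (a (a (l 16473408) (l 16473680)) (l 16431600)) (a (a (l 16463920) (l 16459896)) (l 16456624))) (a (a (a (l 16464688) (l 16468528)) (a (l 16465472) (l 16458368))) (a (a (l 16453328) (l 16450072)) (l 16447840)))) (a (a (c (b (l 16502600) (b (l 16456168) (l 16513392))) (b (l 16503864) (b (l 16464136) (a (l 16436264) (l 16437032))))) (a (b (l 16453408) (b (l 16444160) (c (l 16443768) (l 16430016)))) (b (l 16447104) (b (l 16438528) (c (l 16438936) (l 16424800)))))) (b (a (a (l 16442848) (l 16440352)) (l 16439216)) (b (a (l 16454656) (l 16432856)) (a (a (c (l 16436160) (l 16421568)) (c (l 16435136) (l 16420048))) (c (l 16457128) (a (l 16419928) (l 16421104)))))))) (b (a (a (b (l 16456896) (l 16449408)) (b (l 16463064) (l 16456848))) (a (l 16472616) (l 16485896))) (b (a (a (l 16442168) (l 16450984)) (a (l 16465720) (l 16481096))) (a (a (b (l 16437008)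 (c (l 16462760) (a (l 16423480) (l 16427344)))) (b (l 16447024) (a (c (l 16449552) (l 16432952)) (a (a (l 16466768) (l 16447712)) (l 16450800))))) (b (a (l 16463024) (l 16479704)) (a (a (l 16457584) (l 16466864)) (l 16500544))))))), by decide +kernel⟩

def k3_pp_022 : ∃ t, chk3 f_pp_022 t 2 21 1 = true :=
  ⟨(a (a (a (a (c (b (l 16426888) (l 16382080)) (b (l 16411552) (l 16364960))) (b (l 16354032) (l 16370944))) (a (b (c (l 16418968) (l 16403536)) (l 16369064)) (l 16430232))) (a (a (l 16388368) (l 16390008)) (b (l 16410344) (l 16379872)))) (a (a (b (l 16418296) (l 16392512)) (b (l 16432000) (l 16410584))) (a (l 16442568) (l 16464032)))), by decide +kernel⟩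

def k4_pp_022 : ∃ t, chk3 f_pp_022 t 2 11 1 = true :=
  ⟨(a (a (b (a (a (l 16306680) (l 16308256)) (a (l 16310920) (l 16314936))) (a (a (l 16229112) (l 16236720)) (l 16249576))) (a (b (l 16344600) (b (l 16282672) (l 16259256))) (b (b (l 16352144) (l 16327232)) (l 16316000)))) (a (a (b (b (l 16369248) (l 16348448)) (l 16321584)) (b (l 16382240) (l 16351944))) (a (l 16544808) (l 16429472)))), by decide +kernel⟩

def k5_pp_022 : ∃ t, chk3 f_pp_022 t 3 5 1 = true :=
  ⟨(a (b (b (b (b (a (a (l 16508936) (l 16515552)) (l 16646840)) (a (a (l 16502144) (l 16510928)) (l 16582616))) (b (a (a (l 16496736) (l 16508048)) (l 16604480)) (a (b (l 16523424) (b (a (l 16493744) (l 16508120)) (a (l 16494232) (l 16508664)))) (b (l 16648184) (b (l 16586624) (a (l 16522312) (l 16528440))))))) (a (a (l 16482128) (l 16500352)) (a (l 16517816) (l 16527128)))) (a (a (l 16456848) (l 16484136)) (a (l 16510424) (l 2)))) (b (b (b (a (l 16600608) (l 2)) (l 2)) (l 2)) (l 2))), by decide +kernel⟩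

def k6_pp_022 : ∃ t, chk3 f_pp_022 t 1 3 1 = true :=
  ⟨(a (a (b (a (b (a (b (b (l 16186312) (l 16160208)) (a (l 16119824) (l 16137192))) (b (b (l 16211056) (l 16189728)) (l 16163112))) (a (b (a (l 16085536) (l 16106112)) (a (l 16062152) (l 16085800))) (b (l 16136400) (l 16120408)))) (b (b (a (b (l 16238896) (l 16221256)) (l 16261280)) (a (l 16198776) (l 16235712))) (a (b (l 16177464) (l 16166792)) (l 16278080)))) (b (a (a (b (b (l 16065296) (l 16063280)) (b (l 16064624) (a (l 16054184) (l 16084688)))) (b (b (l 16115976) (l 16116856)) (l 16145560))) (b (a (l 16167632) (l 16219384)) (a (l 16181368) (l 16235760)))) (a (b (a (a (b (l 16062160) (l 16074232)) (l 16226488)) (a (l 16131744) (l 16161528))) (a (a (b (l 16090096) (l 16106384)) (l 16130144)) (l 16174872))) (a (b (l 16203816) (l 2)) (l 2))))) (b (b (a (b (a (l 16294072) (l 16330240)) (l 16335776)) (b (l 16494056) (l 16380264))) (a (a (l 16260072) (l 16307776)) (a (l 16358872) (l 2)))) (b (a (b (a (l 16270544)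 (l 2)) (l 2)) (l 2)) (l 2)))) (b (a (b (a (a (l 16442536) (l 2)) (l 2)) (l 2)) (l 2)) (l 2))), by decide +kernel⟩

theorem s7_pp_022 : ∃ t, chk3 f_pp_022 t 2 20 1 = true := ex3_b k1_pp_022 k2_pp_022

theorem s8_pp_022 : ∃ t, chk3 f_pp_022 t 2 10 1 = true := ex3_b s7_pp_022 k3_pp_022

theorem s9_pp_022 : ∃ t, chk3 f_pp_022 t 2 5 1 = true := ex3_b s8_pp_022 k4_pp_022

theorem s10_pp_022 : ∃ t, chk3 f_pp_022 t 1 5 1 = true := ex3_a s9_pp_022 k5_pp_022

theorem s11_pp_022 : ∃ t, chk3 f_pp_022 t 1 2 1 = true := ex3_b k0_pp_022 s10_pp_022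

theorem s12_pp_022 : ∃ t, chk3 f_pp_022 t 1 1 1 = true := ex3_b s11_pp_022 k6_pp_022

theorem c_pp_022 : CertB 0 536870912 1073741824 536870912 697932185 42949674 3 eng mog cd0q0 cd5q2 pd2 false true true .pp 0 2 2
    ndB0q0 ndB5q2 pcB2 Cut.none Ext.none :=
  certB1 (fam := false) (s1 := true) (s2 := true) (a := 0) (b := 2) (c := 2) (cn := .pp) (n1 := ndB0q0) (n2 := ndB5q2) (pc := pcB2) (cut := Cut.none) (xt := Ext.none) (P1 := 0) (W1 := 536870912) (P2 := 1073741824) (W2 := 536870912) (P3 := 697932185) (W3 := 42949674) (N0 := 3) (En := eng) (mo := mog) (C1 := cd0q0) (C2 := cd5q2) (C3 := pd2)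
    rfl (fun _ => rfl) s12_pp_022

noncomputable def f_pp_023 : ℕ → ℕ → ℕ → ℕ → Bool := onCell 1073741824 536870912 0 1230186008 697932185 42949674
    (rowB 3 eng mog cd0q0 cd5q3 pd2 2 false true true .up 0 2 3 (qsf 0 536870912 0 1230186008 2) ndB0q0 ndB5q3 pcB2 Cut.none Ext.none)

def k0_pp_023 : ∃ t, chk3 f_pp_023 t 2 1 1 = true :=
  ⟨(b (l 2) (b (a (l 2) (b (l 2) (a (l 2) (b (l 2) (l 271219869463))))) (a (b (l 2) (a (l 3) (a (a (l 3) (b (b (l 2) (a (l 3) (l 16523280))) (b (l 132237614471) (a (l 3) (l 16480352))))) (b (b (a (b (l 2) (l 16555416)) (b (l 16571304) (l 16546304))) (a (a (l 16520880) (l 16517528)) (l 16509752))) (a (b (a (l 16477848) (l 16486744)) (a (b (l 16504600) (l 16511008)) (b (l 16510768) (l 16515864)))) (b (l 16499592) (a (l 16516816) (l 16517344)))))))) (b (b (a (a (l 2) (b (l 2) (b (l 2) (l 16626352)))) (b (l 16550232) (b (a (l 16549984) (l 16529632)) (a (l 16603000) (l 16568272))))) (b (a (a (l 2) (l 16597696)) (a (l 16571536) (l 16528648)))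 (a (a (a (b (l 2) (l 16568824)) (a (l 16561816) (a (l 16558608) (b (l 16558240) (l 16560192))))) (l 16565536)) (b (l 16506240) (l 16499208))))) (b (a (a (a (b (b (l 16562176) (l 16535688)) (l 16496368)) (b (a (l 16542000) (a (l 16537752) (b (l 16552472) (l 16523136)))) (a (l 16484888) (a (l 16489752) (l 16504136))))) (b (b (l 16536944) (l 16503000)) (l 16519744))) (b (b (l 16503504) (l 16525288)) (l 16533256))) (a (a (a (b (l 16509400) (l 16519104)) (a (b (l 16518976) (l 16520872)) (a (b (l 16523200) (l 16522816)) (b (a (l 16525464) (l 16529080)) (a (l 16523200) (l 16524664)))))) (b (l 16532280) (l 16517808))) (b (a (l 16526248) (l 16506208)) (a (l 16495568) (l 16464120))))))))), by decide +kernel⟩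

def k1_pp_023 : ∃ t, chk3 f_pp_023 t 3 1 1 = true :=
  ⟨(b (a (l 2) (b (a (l 2) (l 16648072)) (a (l 269073275351) (l 16681640)))) (b (a (b (a (l 2) (b (l 16639616) (l 16618080))) (a (b (l 16608952) (l 16560072)) (b (l 16576448) (a (l 16538024) (l 16533400))))) (b (a (b (l 16618480) (l 16590160)) (l 16734824)) (a (b (l 16558536) (a (l 16528208) (l 16519744))) (b (l 16532232) (l 16610568))))) (b (b (a (b (a (l 16532560) (l 16539288)) (a (b (l 16529304) (l 16498688)) (b (l 16526808) (l 16472648)))) (b (a (l 16517312) (l 16472648)) (a (b (l 16492104) (l 16440424)) (b (l 16437632) (l 16370104))))) (a (b (a (a (l 16485856) (l 16495752)) (a (l 16490872) (l 16472640))) (a (b (l 16533240) (l 16524120)) (b (l 16491544) (l 16474696)))) (b (a (a (l 16444288) (l 16410112)) (b (l 16352456) (l 16349200))) (a (b (l 16421768) (l 16397280)) (b (l 16342464) (l 16311560)))))) (b (a (b (a (b (l 16514208) (l 16512456)) (b (l 16462168) (l 16447336))) (a (l 16705304) (l 16418744)))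 (b (a (b (l 16372576) (l 16358280)) (b (l 16285848) (l 16270576))) (a (a (l 16351592) (l 16307256)) (l 16247480)))) (a (a (b (a (l 16474440) (l 16434096)) (a (l 16424008) (l 16377400))) (b (a (l 16391136) (l 16346768)) (a (l 16333152) (l 16290240)))) (a (b (a (l 16304760) (l 16264752)) (a (l 16251272) (b (l 16231472) (l 16207128)))) (b (a (l 16229576) (l 16198464)) (a (b (l 16200776) (l 16180072)) (b (l 16173200) (l 16155240)))))))))), by decide +kernel⟩

theorem s2_pp_023 : ∃ t, chk3 f_pp_023 t 1 1 1 = true := ex3_a k0_pp_023 k1_pp_023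

theorem c_pp_023 : CertB 0 536870912 0 1230186008 697932185 42949674 3 eng mog cd0q0 cd5q3 pd2 false true true .up 0 2 3
    ndB0q0 ndB5q3 pcB2 Cut.none Ext.none :=
  certB2 (fam := false) (s1 := true) (s2 := true) (a := 0) (b := 2) (c := 3) (cn := .up) (n1 := ndB0q0) (n2 := ndB5q3) (pc := pcB2) (cut := Cut.none) (xt := Ext.none) (P1 := 0) (W1 := 536870912) (P2 := 0) (W2 := 1230186008) (P3 := 697932185) (W3 := 42949674) (N0 := 3) (En := eng) (mo := mog) (C1 := cd0q0) (C2 := cd5q3) (C3 := pd2)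
    rfl (fun _ => rfl) s2_pp_023

noncomputable def f_pp_033 : ℕ → ℕ → ℕ → ℕ → Bool := onCell 1610612736 536870912 0 1230186008 697932185 42949674
    (rowB 3 eng mog cd0q0 cd5q3 pd3 2 false true true .pnn 0 3 3 (qsf 0 536870912 0 1230186008 3) ndB0q0 ndB5q3 pcB3 Cut.none Ext.none)

def k0_pp_033 : ∃ t, chk3 f_pp_033 t 1 2 1 = true :=
  ⟨(b (a (a (a (l 16630664) (l 16329160)) (a (a (l 16551840) (l 16529264)) (l 16611160))) (l 4)) (a (a (a (b (l 16627872) (l 16609032)) (a (l 16550240) (l 16642352))) (a (b (l 16503432) (a (l 16451848) (l 16404936))) (b (l 16424000) (l 16358704)))) (a (a (b (l 16548328) (a (l 16285512) (l 16256968))) (a (b (l 4) (l 16231200)) (l 4))) (l 4)))), by decide +kernel⟩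

def k1_pp_033 : ∃ t, chk3 f_pp_033 t 1 6 1 = true :=
  ⟨(b (a (a (a (a (l 16579864) (l 16516448)) (b (l 16444936) (l 16384008))) (a (a (b (l 16360400) (l 16292520)) (b (l 16308880) (l 16238088))) (a (b (l 16260976) (a (l 16204224) (l 16184872))) (l 16186000)))) (a (a (b (l 16172312) (l 16112416)) (a (b (l 16147848) (l 16095656)) (b (l 4) (l 16087648)))) (l 4))) (a (a (a (b (a (l 16535488) (l 16457048)) (l 16513808)) (b (a (l 16370744) (l 16289920)) (a (l 16325760) (l 16235312)))) (a (a (b (a (l 16239992) (l 16227640)) (a (l 16182624) (l 16182064))) (b (l 16177152) (a (l 16142344) (l 16103560)))) (a (a (b (l 16148048) (a (l 16087024) (l 16104032))) (b (l 16143200) (a (l 16118592) (l 16114280)))) (b (l 16109632) (l 16080192))))) (a (a (b (a (l 16077072) (l 16058664)) (a (l 396780182119) (l 475163192951))) (a (b (l 16051144) (l 1)) (l 1))) (l 1)))), by decide +kernel⟩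

def k2_pp_033 : ∃ t, chk3 f_pp_033 t 1 7 1 = true :=
  ⟨(a (b (a (b (b (a (l 16414648) (l 16248768)) (a (b (l 16367344) (a (l 16322784) (l 16238632))) (b (a (l 16250480) (l 16159192)) (b (l 16120504) (l 16069640))))) (b (a (b (l 16256304) (l 16256112)) (b (l 16075840) (l 16091448))) (a (b (l 16255296) (l 16218592)) (b (l 16106352) (l 16068624))))) (a (b (b (a (a (l 16148696) (l 16156856)) (a (l 16111088) (l 16063128))) (a (b (a (l 16099432) (b (l 16137464) (l 16081016))) (a (l 15981176) (b (l 16017160) (l 15958792)))) (b (a (b (l 16088200) (l 16029512)) (b (l 16014496) (l 15973624))) (a (b (l 15963616) (l 15902696)) (b (l 15903296) (b (l 15847104) (l 15829176))))))) (a (b (a (b (l 15951088) (l 15976344)) (b (l 15956016) (l 15976736))) (a (b (l 16000888) (l 15962200)) (b (l 112238039031) (l 15955952)))) (b (a (b (l 15898672) (l 15917152)) (b (c (l 15912120) (l 201895051303)) (c (l 15911336) (l 216390553223)))) (b (a (l 194915916759) (l 1)) (l 1))))) (b (a (b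 (a (a (l 16065904) (l 16076944)) (a (l 16106792) (l 16107112))) (a (b (a (b (a (l 16008024) (l 16023392)) (l 15952408)) (c (b (l 16086832) (l 16039448)) (l 15986296))) (a (c (l 154113662983) (b (l 15804944) (l 15723000))) (b (l 15924336) (l 1)))) (b (a (b (l 16071120) (l 16012832)) (l 281889168391)) (l 1)))) (b (l 16067568) (l 1))) (l 1)))) (a (b (b (a (b (l 16188448) (l 16179480)) (b (l 115459306471) (l 16042224))) (a (a (l 16189680) (l 16134800)) (a (l 16073344) (l 15999448)))) (a (b (a (l 16160064) (l 16112576)) (a (b (l 16135680) (l 214243741895)) (l 220686259127))) (b (a (l 218538765559) (l 1)) (l 1)))) (a (b (b (a (b (a (l 15935360) (l 1)) (l 1)) (l 1)) (l 1)) (l 1)) (l 1)))) (l 1)), by decide +kernel⟩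

theorem s3_pp_033 : ∃ t, chk3 f_pp_033 t 1 3 1 = true := ex3_b k1_pp_033 k2_pp_033

theorem s4_pp_033 : ∃ t, chk3 f_pp_033 t 1 1 1 = true := ex3_b k0_pp_033 s3_pp_033

theorem c_pp_033 : CertB 0 536870912 0 1230186008 697932185 42949674 3 eng mog cd0q0 cd5q3 pd3 false true true .pnn 0 3 3
    ndB0q0 ndB5q3 pcB3 Cut.none Ext.none :=
  certB2 (fam := false) (s1 := true) (s2 := true) (a := 0) (b := 3) (c := 3) (cn := .pnn) (n1 := ndB0q0) (n2 := ndB5q3) (pc := pcB3) (cut := Cut.none) (xt := Ext.none) (P1 := 0) (W1 := 536870912) (P2 := 0) (W2 := 1230186008) (P3 := 697932185) (W3 := 42949674) (N0 := 3) (En := eng) (mo := mog) (C1 := cd0q0) (C2 := cd5q3) (C3 := pd3)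
    rfl (fun _ => rfl) s4_pp_033

noncomputable def f_pp_101 : ℕ → ℕ → ℕ → ℕ → Bool := onCell 536870912 536870912 536870912 536870912 697932185 42949674
    (rowB 3 eng mog cd0q1 cd5q1 pd0 0 false true true .npn 1 0 1 (qsf 536870912 536870912 536870912 536870912 0) ndB0q1 ndB5q1 pcB0 Cut.none Ext.none)

def k0_pp_101 : ∃ t, chk3 f_pp_101 t 1 1 1 = true :=
  ⟨(a (l 3) (l 5)), by decide +kernel⟩

theorem c_pp_101 : CertB 536870912 536870912 536870912 536870912 697932185 42949674 3 eng mog cd0q1 cd5q1 pd0 false true true .npn 1 0 1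
    ndB0q1 ndB5q1 pcB0 Cut.none Ext.none :=
  certB0 (fam := false) (s1 := true) (s2 := true) (a := 1) (b := 0) (c := 1) (cn := .npn) (n1 := ndB0q1) (n2 := ndB5q1) (pc := pcB0) (cut := Cut.none) (xt := Ext.none) (P1 := 536870912) (W1 := 536870912) (P2 := 536870912) (W2 := 536870912) (P3 := 697932185) (W3 := 42949674) (N0 := 3) (En := eng) (mo := mog) (C1 := cd0q1) (C2 := cd5q1) (C3 := pd0)
    rfl k0_pp_101

noncomputable def f_pp_102 : ℕ → ℕ → ℕ → ℕ → Bool := onCell 536870912 536870912 1073741824 536870912 697932185 42949674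
    (rowB 3 eng mog cd0q1 cd5q2 pd0 0 false true true .npp 1 0 2 (qsf 536870912 536870912 1073741824 536870912 0) ndB0q1 ndB5q2 pcB0 Cut.none Ext.none)

def k0_pp_102 : ∃ t, chk3 f_pp_102 t 1 1 1 = true :=
  ⟨(l 3), by decide +kernel⟩

theorem c_pp_102 : CertB 536870912 536870912 1073741824 536870912 697932185 42949674 3 eng mog cd0q1 cd5q2 pd0 false true true .npp 1 0 2
    ndB0q1 ndB5q2 pcB0 Cut.none Ext.none :=
  certB0 (fam := false) (s1 := true) (s2 := true) (a := 1) (b := 0) (c := 2) (cn := .npp) (n1 := ndB0q1) (n2 := ndB5q2) (pc := pcB0) (cut := Cut.none) (xt := Ext.none) (P1 := 536870912) (W1 := 536870912) (P2 := 1073741824) (W2 := 536870912) (P3 := 697932185) (W3 := 42949674) (N0 := 3) (En := eng) (mo := mog) (C1 := cd0q1) (C2 := cd5q2) (C3 := pd0)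
    rfl k0_pp_102

noncomputable def f_pp_112 : ℕ → ℕ → ℕ → ℕ → Bool := onCell 536870912 536870912 1073741824 536870912 697932185 42949674
    (rowB 3 eng mog cd0q1 cd5q2 pd1 0 false true true .dn 1 1 2 (qsf 536870912 536870912 1073741824 536870912 1) ndB0q1 ndB5q2 pcB1 Cut.none Ext.none)

def k0_pp_112 : ∃ t, chk3 f_pp_112 t 1 1 1 = true :=
  ⟨(l 3), by decide +kernel⟩

theorem c_pp_112 : CertB 536870912 536870912 1073741824 536870912 697932185 42949674 3 eng mog cd0q1 cd5q2 pd1 false true true .dn 1 1 2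
    ndB0q1 ndB5q2 pcB1 Cut.none Ext.none :=
  certB0 (fam := false) (s1 := true) (s2 := true) (a := 1) (b := 1) (c := 2) (cn := .dn) (n1 := ndB0q1) (n2 := ndB5q2) (pc := pcB1) (cut := Cut.none) (xt := Ext.none) (P1 := 536870912) (W1 := 536870912) (P2 := 1073741824) (W2 := 536870912) (P3 := 697932185) (W3 := 42949674) (N0 := 3) (En := eng) (mo := mog) (C1 := cd0q1) (C2 := cd5q2) (C3 := pd1)
    rfl k0_pp_112

noncomputable def cut_pp_113 : Cut := Cut.of [[⟨0, 1, 0, 67108864⟩, ⟨1, 1, 0, 67108864⟩, ⟨2, 2, 0, 16777216⟩]]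

noncomputable def f_pp_113 : ℕ → ℕ → ℕ → ℕ → Bool := onCell 536870912 536870912 0 1230186008 697932185 42949674
    (rowB 3 eng mog cd0q1 cd5q3 pd1 2 false true true .nn 1 1 3 (qsf 536870912 536870912 0 1230186008 1) ndB0q1 ndB5q3 pcB1 cut_pp_113 Ext.none)

def k0_pp_113 : ∃ t, chk3 f_pp_113 t 1 1 1 = true :=
  ⟨(b (a (l 2) (a (l 2) (a (l 3) (a (l 3) (b (b (l 6) (l 3)) (l 3)))))) (b (a (l 3) (b (l 3) (l 3))) (a (b (l 3) (l 3)) (l 3)))), by decide +kernel⟩

theorem c_pp_113 : CertB 536870912 536870912 0 1230186008 697932185 42949674 3 eng mog cd0q1 cd5q3 pd1 false true true .nn 1 1 3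
    ndB0q1 ndB5q3 pcB1 cut_pp_113 Ext.none :=
  certB2 (fam := false) (s1 := true) (s2 := true) (a := 1) (b := 1) (c := 3) (cn := .nn) (n1 := ndB0q1) (n2 := ndB5q3) (pc := pcB1) (cut := cut_pp_113) (xt := Ext.none) (P1 := 536870912) (W1 := 536870912) (P2 := 0) (W2 := 1230186008) (P3 := 697932185) (W3 := 42949674) (N0 := 3) (En := eng) (mo := mog) (C1 := cd0q1) (C2 := cd5q3) (C3 := pd1)
    rfl (fun _ => rfl) k0_pp_113

noncomputable def cut_pp_123 : Cut := Cut.of [[⟨0, 1, 0, 67108864⟩, ⟨1, 1, 0, 67108864⟩, ⟨2, 2, 0, 16777216⟩]]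

noncomputable def f_pp_123 : ℕ → ℕ → ℕ → ℕ → Bool := onCell 1073741824 536870912 0 1230186008 697932185 42949674
    (rowB 3 eng mog cd0q1 cd5q3 pd2 2 false true true .npn 1 2 3 (qsf 536870912 536870912 0 1230186008 2) ndB0q1 ndB5q3 pcB2 cut_pp_123 Ext.none)

def k0_pp_123 : ∃ t, chk3 f_pp_123 t 8 4 1 = true :=
  ⟨(a (b (l 6) (b (l 6) (a (l 3) (a (a (l 3) (b (a (b (b (a (l 243370298263) (c (l 16790992) (l 16789160))) (l 243370294791)) (c (l 330880283095) (l 350207630823))) (a (b (b (l 16790512) (l 16791424)) (b (l 195051917543) (l 241759688263))) (a (b (l 16790696) (l 186461982983)) (b (l 16790592) (l 16793256))))) (b (c (l 381883023751) (l 353428859351)) (l 3)))) (a (b (b (a (l 16791216) (l 16792024)) (a (a (l 16793536) (l 16792976)) (l 16793824))) (a (b (a (l 190220079831) (l 16795920)) (l 238538461095)) (a (b (l 16796224) (l 16787808)) (b (l 16795560) (l 16799072))))) (b (l 16791760) (a (c (l 16798448) (b (l 16795400) (l 16795992))) (l 16798592)))))))) (b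 (a (l 6) (b (l 16732744) (l 16740344))) (b (a (l 6) (l 16751264)) (a (a (a (l 16792240) (l 16787984)) (l 16781200)) (l 16766520))))), by decide +kernel⟩

def k1_pp_123 : ∃ t, chk3 f_pp_123 t 8 5 1 = true :=
  ⟨(b (a (a (l 3) (a (l 3) (b (a (b (a (l 3) (b (a (l 236390984951) (l 16779832)) (l 296520523495))) (l 3)) (b (b (a (a (l 16801824) (l 16802376)) (l 16801008)) (a (b (l 16803616) (l 16783776)) (c (l 16806264) (l 16819112)))) (b (a (l 240149084583) (a (l 16807976) (l 16808848))) (l 307257976087)))) (l 3)))) (a (a (b (a (b (a (l 16803920) (l 16804344)) (a (b (l 16809328) (l 16812312)) (a (l 16812272) (l 16809792)))) (b (l 16802536) (l 16811448))) (a (b (a (l 297594278823) (b (l 16816904) (l 16799056))) (l 383493654439)) (a (b (c (l 16816328) (l 16816864)) (b (l 16826104) (l 16830520))) (b (l 16818696) (a (l 16826600) (l 16825424)))))) (b (l 16800624) (b (l 16813864) (a (a (l 16823640) (l 16824056)) (l 16819216))))) (b (l 16805432) (a (l 16827920) (l 16794168)))))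 (a (l 3) (a (b (a (a (l 3) (b (l 295446814359) (l 3))) (a (b (a (a (l 16831240) (l 16829648)) (a (l 16828168) (l 16826984))) (b (a (l 16834944) (l 16831784)) (l 317458527223))) (b (l 16803112) (a (l 177872078711) (l 16827640))))) (a (l 3) (a (l 3) (b (b (b (l 16832816) (l 16792712)) (l 346986397495)) (l 350744497703))))) (a (b (b (l 16816016) (c (l 16838120) (l 16829280))) (b (a (b (l 16828504) (l 16831744)) (b (l 16826176) (l 16829408))) (a (b (c (l 16827704) (l 16823840)) (b (l 345375785031) (l 16777864))) (b (l 16832360) (l 16813656))))) (b (b (l 16803968) (l 16811360)) (b (l 16860104) (a (l 16830760) (l 16825864)))))))), by decide +kernel⟩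

def k2_pp_123 : ∃ t, chk3 f_pp_123 t 9 2 1 = true :=
  ⟨(b (a (b (l 16707480) (b (l 16720152) (l 16731728))) (b (l 16659664) (a (l 16687880) (l 16662752)))) (b (a (a (b (l 16758544) (l 16793976)) (b (l 16730648) (l 16744336))) (b (l 16691344) (l 16600400))) (a (a (b (b (l 16722208) (l 16729984)) (a (b (l 16807968) (l 16816960)) (l 16799640))) (b (l 16740304) (a (l 16784464) (l 16770568)))) (a (b (l 16734096) (l 16750776)) (b (l 16707208) (l 16729424)))))), by decide +kernel⟩

def k3_pp_123 : ∃ t, chk3 f_pp_123 t 5 2 1 = true :=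
  ⟨(b (a (a (a (b (l 16618888) (l 16638480)) (b (l 16597272) (a (l 16620976) (l 16613696)))) (b (l 16561008) (l 16586552))) (b (a (l 16548288) (l 16552296)) (l 16826760))) (b (a (a (a (l 16659576) (a (l 16642400) (b (l 16630440) (l 16643592)))) (b (l 16605560) (l 16622568))) (a (l 16580760) (l 16604840))) (a (a (a (b (l 16683448) (l 16709176)) (a (l 16555776) (l 16806208))) (b (l 16646912) (l 16680288))) (l 16832240)))), by decide +kernel⟩

def k4_pp_123 : ∃ t, chk3 f_pp_123 t 3 2 1 = true :=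
  ⟨(a (b (a (b (l 16576160) (l 16611992)) (l 16605856)) (a (a (b (l 16606208) (l 16632272)) (l 16619440)) (b (l 16495072) (l 16485008)))) (b (a (l 16629600) (l 16648192)) (a (b (l 16642440) (l 16507912)) (l 475164537239)))), by decide +kernel⟩

def k5_pp_123 : ∃ t, chk3 f_pp_123 t 4 6 1 = true :=
  ⟨(a (a (l 3) (a (b (l 3) (l 3)) (b (b (a (b (a (l 387251705495) (b (a (l 16818368) (l 16836368)) (a (l 16800536) (l 16818472)))) (a (l 3) (b (l 349133874455) (b (l 347523269143) (l 348060124823))))) (b (a (a (l 16814672) (l 16834592)) (l 16832240)) (a (b (a (l 16817632) (l 16836464)) (a (b (l 16839968) (l 16838480)) (l 16815648))) (b (l 16834520) (l 16834784))))) (a (b (l 3) (l 3)) (b (a (b (a (l 353428816455) (l 16828208)) (l 348597043735)) (b (l 16804680) (a (l 16816888) (l 16815952)))) (a (b (l 349133909911) (l 3)) (b (l 163913442327) (l 16779944)))))) (b (a (l 3) (b (a (l 3) (l 386714773671)) (l 3))) (l 3))))) (b (a (b (a (a (b (l 16821528) (a (b (l 16830936)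 (l 16832456)) (l 16826176))) (b (l 16809664) (l 16817504))) (b (l 16791160) (l 16740376))) (a (b (a (a (l 16820096) (l 16818112)) (l 16769768)) (a (a (l 16782256) (l 16804088)) (l 16800080))) (b (l 16801528) (l 16791664)))) (b (a (b (l 16768648) (l 16785552)) (l 16676720)) (a (l 16740672) (l 16766400)))) (a (b (a (a (b (a (a (l 16766904) (l 16787536)) (l 16786392)) (a (l 326585169975) (c (l 16745688) (l 16738832)))) (b (l 16785544) (a (l 16739376) (l 16759624)))) (a (b (l 16778848) (l 16754504)) (l 16758808))) (a (a (b (b (l 358260536679) (l 356113002215)) (b (l 494088867303) (l 3))) (b (a (b (l 16736600) (l 16697760)) (l 16726224)) (a (b (l 363092259255) (l 360944718359)) (b (l 16694560) (l 16672232))))) (b (a (l 16721000) (l 16712160)) (a (b (l 16691080) (l 16668848)) (l 16672400))))) (b (a (a (l 16749464) (l 16738784)) (l 16724856)) (a (b (l 16696936) (l 16658648)) (b (l 16678864) (l 16643208))))))), by decide +kernel⟩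

def k6_pp_123 : ∃ t, chk3 f_pp_123 t 5 6 1 = true :=
  ⟨(b (b (a (a (a (l 16748984) (l 16744664)) (l 16672896)) (l 16619000)) (a (a (a (l 16751040) (a (l 16739880) (l 16740424))) (l 16716904)) (l 16679784))) (a (a (a (b (l 16707928) (l 16646808)) (a (b (l 16698384) (l 16638656)) (b (a (l 16695464) (a (l 16696656) (l 16700112))) (a (l 16636944) (b (l 16659616) (l 16624840)))))) (b (l 16684368) (l 16631904))) (b (a (l 16658352) (l 16638784)) (a (l 16612192) (l 16590304))))), by decide +kernel⟩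

def k7_pp_123 : ∃ t, chk3 f_pp_123 t 3 6 1 = true :=
  ⟨(a (b (a (b (l 16654616) (l 16649824)) (b (l 16639576) (l 16617808))) (a (b (l 16608840) (l 16496584)) (b (l 16575704) (l 1)))) (b (a (l 16603208) (l 1)) (l 1))), by decide +kernel⟩

def k8_pp_123 : ∃ t, chk3 f_pp_123 t 8 7 1 = true :=
  ⟨(l 3), by decide +kernel⟩

def k9_pp_123 : ∃ t, chk3 f_pp_123 t 9 14 1 = true :=
  ⟨(b (a (a (a (l 3) (b (b (a (l 357186556823) (b (l 16654744) (l 16642168))) (c (l 356112866567) (a (l 539722691063) (l 359870837479)))) (a (l 3) (b (b (b (b (l 16608336) (l 16607288)) (l 288467033255)) (c (l 16668760) (l 301352050151))) (b (b (l 317995127159) (l 327658836087)) (b (b (l 336248798087) (l 341080662615)) (l 346986226103))))))) (b (a (a (a (b (l 16647056) (l 16622408)) (l 16633648)) (l 16632680)) (l 16628312)) (b (a (b (a (b (b (l 16607648) (l 16606640)) (l 16621544)) (b (l 16605760) (l 16620112))) (a (b (l 16642848) (l 16660496)) (l 16649712))) (b (a (l 16611000) (l 16608264))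 (l 16645496))) (b (a (a (c (l 16695880) (l 16671496)) (c (l 16692976) (l 16669408))) (l 16677216)) (b (a (a (c (l 16712640) (l 16695480)) (l 16702488)) (l 16697272)) (a (a (l 16704672) (l 16701984)) (l 16696888))))))) (b (a (l 16616728) (l 16601856)) (b (b (a (a (l 16602608) (l 16594656)) (l 16584000)) (a (a (l 16637584) (l 16628928)) (l 16617800))) (a (b (a (l 16668848) (l 16659648)) (a (a (l 16690656) (l 16685760)) (l 16678560))) (b (l 16647904) (l 16666240)))))) (a (b (a (l 3) (a (b (b (a (l 16686816) (l 16684824)) (a (l 16664464) (l 16663232))) (b (a (l 16643000) (l 16642288)) (l 16621296))) (b (l 16670512) (l 16628912)))) (a (l 3) (b (a (b (l 16598656) (l 16582072)) (l 16588848)) (a (l 16591752) (l 16590376))))) (b (a (a (b (l 16663368) (l 16625024)) (b (l 16655104) (l 16618664))) (b (l 16644336) (l 16609840))) (a (b (a (l 16586544) (l 16581824)) (l 16586584)) (b (l 16574408) (l 16577152)))))), by decide +kernel⟩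

def k10_pp_123 : ∃ t, chk3 f_pp_123 t 9 15 1 = true :=
  ⟨(a (a (l 3) (b (b (b (a (l 141901412119) (l 16583680)) (l 143512018663)) (a (l 3) (l 16523232))) (l 1))) (b (b (a (b (a (l 16582536) (l 16578592)) (l 16555400)) (b (l 16571288) (l 16546272))) (a (a (l 16520824) (l 1)) (l 1))) (l 1))), by decide +kernel⟩

def k11_pp_123 : ∃ t, chk3 f_pp_123 t 5 7 1 = true :=
  ⟨(b (b (a (a (a (b (l 16589880) (b (b (l 16571320) (l 16605224)) (b (l 16635064) (l 16652808)))) (b (a (l 16581904) (a (l 16580072) (l 16584360))) (a (b (l 16580384) (l 16635496)) (b (a (l 16577832) (a (l 16578376) (l 16580744))) (a (l 16633008) (a (l 16633552) (l 16635936))))))) (b (l 16576792) (b (l 16569488) (l 16626336)))) (b (l 16550064) (a (b (l 16549936) (l 16602920)) (l 1)))) (a (a (a (b (b (l 16632944) (l 16600848)) (b (l 16566136) (l 16568808))) (b (a (l 16609288) (a (l 16607040) (a (l 16607528) (l 16609792)))) (a (l 16561776) (a (l 16558568) (b (l 16558232) (l 1)))))) (b (l 16597600)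 (b (l 16542032) (l 1)))) (l 1))) (b (a (a (a (b (b (l 16562144) (l 1)) (l 1)) (l 1)) (l 1)) (l 1)) (l 1))), by decide +kernel⟩

def k12_pp_123 : ∃ t, chk3 f_pp_123 t 3 7 1 = true :=
  ⟨(l 1), by decide +kernel⟩

theorem s13_pp_123 : ∃ t, chk3 f_pp_123 t 9 7 1 = true := ex3_b k9_pp_123 k10_pp_123

theorem s14_pp_123 : ∃ t, chk3 f_pp_123 t 4 7 1 = true := ex3_a k8_pp_123 s13_pp_123

theorem s15_pp_123 : ∃ t, chk3 f_pp_123 t 2 7 1 = true := ex3_a s14_pp_123 k11_pp_123

theorem s16_pp_123 : ∃ t, chk3 f_pp_123 t 1 7 1 = true := ex3_a s15_pp_123 k12_pp_123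

theorem s17_pp_123 : ∃ t, chk3 f_pp_123 t 2 6 1 = true := ex3_a k5_pp_123 k6_pp_123

theorem s18_pp_123 : ∃ t, chk3 f_pp_123 t 1 6 1 = true := ex3_a s17_pp_123 k7_pp_123

theorem s19_pp_123 : ∃ t, chk3 f_pp_123 t 1 3 1 = true := ex3_b s18_pp_123 s16_pp_123

theorem s20_pp_123 : ∃ t, chk3 f_pp_123 t 8 2 1 = true := ex3_b k0_pp_123 k1_pp_123

theorem s21_pp_123 : ∃ t, chk3 f_pp_123 t 4 2 1 = true := ex3_a s20_pp_123 k2_pp_123

theorem s22_pp_123 : ∃ t, chk3 f_pp_123 t 2 2 1 = true := ex3_a s21_pp_123 k3_pp_123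

theorem s23_pp_123 : ∃ t, chk3 f_pp_123 t 1 2 1 = true := ex3_a s22_pp_123 k4_pp_123

theorem s24_pp_123 : ∃ t, chk3 f_pp_123 t 1 1 1 = true := ex3_b s23_pp_123 s19_pp_123

theorem c_pp_123 : CertB 536870912 536870912 0 1230186008 697932185 42949674 3 eng mog cd0q1 cd5q3 pd2 false true true .npn 1 2 3
    ndB0q1 ndB5q3 pcB2 cut_pp_123 Ext.none :=
  certB2 (fam := false) (s1 := true) (s2 := true) (a := 1) (b := 2) (c := 3) (cn := .npn) (n1 := ndB0q1) (n2 := ndB5q3) (pc := pcB2) (cut := cut_pp_123) (xt := Ext.none) (P1 := 536870912) (W1 := 536870912) (P2 := 0) (W2 := 1230186008) (P3 := 697932185) (W3 := 42949674) (N0 := 3) (En := eng) (mo := mog) (C1 := cd0q1) (C2 := cd5q3) (C3 := pd2)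
    rfl (fun _ => rfl) s24_pp_123

noncomputable def f_pp_133 : ℕ → ℕ → ℕ → ℕ → Bool := onCell 536870912 536870912 0 1230186008 697932185 42949674
    (rowB 3 eng mog cd0q1 cd5q3 pd3 0 false true true .dn 1 3 3 (qsf 536870912 536870912 0 1230186008 3) ndB0q1 ndB5q3 pcB3 Cut.none Ext.none)

def k0_pp_133 : ∃ t, chk3 f_pp_133 t 1 1 1 = true :=
  ⟨(b (b (a (a (a (l 770443685015) (l 1)) (l 1)) (l 1)) (l 1)) (l 1)), by decide +kernel⟩

theorem c_pp_133 : CertB 536870912 536870912 0 1230186008 697932185 42949674 3 eng mog cd0q1 cd5q3 pd3 false true true .dn 1 3 3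
    ndB0q1 ndB5q3 pcB3 Cut.none Ext.none :=
  certB0 (fam := false) (s1 := true) (s2 := true) (a := 1) (b := 3) (c := 3) (cn := .dn) (n1 := ndB0q1) (n2 := ndB5q3) (pc := pcB3) (cut := Cut.none) (xt := Ext.none) (P1 := 536870912) (W1 := 536870912) (P2 := 0) (W2 := 1230186008) (P3 := 697932185) (W3 := 42949674) (N0 := 3) (En := eng) (mo := mog) (C1 := cd0q1) (C2 := cd5q3) (C3 := pd3)
    rfl k0_pp_133

noncomputable def f_pp_202 : ℕ → ℕ → ℕ → ℕ → Bool := onCell 0 536870912 1073741824 536870912 697932185 42949674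
    (rowB 3 eng mog cd0q2 cd5q2 pd0 0 false true true .pp 2 0 2 (qsf 0 536870912 1073741824 536870912 0) ndB0q2 ndB5q2 pcB0 Cut.none Ext.none)

def k0_pp_202 : ∃ t, chk3 f_pp_202 t 1 1 1 = true :=
  ⟨(l 3), by decide +kernel⟩

theorem c_pp_202 : CertB 0 536870912 1073741824 536870912 697932185 42949674 3 eng mog cd0q2 cd5q2 pd0 false true true .pp 2 0 2
    ndB0q2 ndB5q2 pcB0 Cut.none Ext.none :=
  certB0 (fam := false) (s1 := true) (s2 := true) (a := 2) (b := 0) (c := 2) (cn := .pp) (n1 := ndB0q2) (n2 := ndB5q2) (pc := pcB0) (cut := Cut.none) (xt := Ext.none) (P1 := 0) (W1 := 536870912) (P2 := 1073741824) (W2 := 536870912) (P3 := 697932185) (W3 := 42949674) (N0 := 3) (En := eng) (mo := mog) (C1 := cd0q2) (C2 := cd5q2) (C3 := pd0)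
    rfl k0_pp_202

noncomputable def f_pp_203 : ℕ → ℕ → ℕ → ℕ → Bool := onCell 0 536870912 0 1230186008 697932185 42949674
    (rowB 3 eng mog cd0q2 cd5q3 pd0 0 false true true .up 2 0 3 (qsf 0 536870912 0 1230186008 0) ndB0q2 ndB5q3 pcB0 Cut.none Ext.none)

def k0_pp_203 : ∃ t, chk3 f_pp_203 t 1 1 1 = true :=
  ⟨(b (l 2) (l 3)), by decide +kernel⟩

theorem c_pp_203 : CertB 0 536870912 0 1230186008 697932185 42949674 3 eng mog cd0q2 cd5q3 pd0 false true true .up 2 0 3
    ndB0q2 ndB5q3 pcB0 Cut.none Ext.none :=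
  certB0 (fam := false) (s1 := true) (s2 := true) (a := 2) (b := 0) (c := 3) (cn := .up) (n1 := ndB0q2) (n2 := ndB5q3) (pc := pcB0) (cut := Cut.none) (xt := Ext.none) (P1 := 0) (W1 := 536870912) (P2 := 0) (W2 := 1230186008) (P3 := 697932185) (W3 := 42949674) (N0 := 3) (En := eng) (mo := mog) (C1 := cd0q2) (C2 := cd5q3) (C3 := pd0)
    rfl k0_pp_203

noncomputable def cut_pp_213 : Cut := Cut.of [[⟨0, 1, 0, 67108864⟩, ⟨1, 1, 0, 67108864⟩, ⟨2, 2, 0, 16777216⟩]]

noncomputable def f_pp_213 : ℕ → ℕ → ℕ → ℕ → Bool := onCell 0 536870912 0 1230186008 697932185 42949674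
    (rowB 3 eng mog cd0q2 cd5q3 pd1 0 false true true .pnn 2 1 3 (qsf 0 536870912 0 1230186008 1) ndB0q2 ndB5q3 pcB1 cut_pp_213 Ext.none)

def k0_pp_213 : ∃ t, chk3 f_pp_213 t 1 1 1 = true :=
  ⟨(b (a (l 3) (b (a (l 3) (a (l 3) (b (l 6) (l 3)))) (l 3))) (l 3)), by decide +kernel⟩

theorem c_pp_213 : CertB 0 536870912 0 1230186008 697932185 42949674 3 eng mog cd0q2 cd5q3 pd1 false true true .pnn 2 1 3
    ndB0q2 ndB5q3 pcB1 cut_pp_213 Ext.none :=
  certB0 (fam := false) (s1 := true) (s2 := true) (a := 2) (b := 1) (c := 3) (cn := .pnn) (n1 := ndB0q2) (n2 := ndB5q3) (pc := pcB1) (cut := cut_pp_213) (xt := Ext.none) (P1 := 0) (W1 := 536870912) (P2 := 0) (W2 := 1230186008) (P3 := 697932185) (W3 := 42949674) (N0 := 3) (En := eng) (mo := mog) (C1 := cd0q2) (C2 := cd5q3) (C3 := pd1)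
    rfl k0_pp_213

noncomputable def f_pm_001 : ℕ → ℕ → ℕ → ℕ → Bool := onCell 0 536870912 536870912 536870912 697932185 42949674
    (rowB 3 eng mog cd0q0 cd5q1 pd0 0 false true false .up 0 0 1 (qsf 0 536870912 536870912 536870912 0) ndB0q0 ndB5q1 pcB0 Cut.none Ext.none)

def k0_pm_001 : ∃ t, chk3 f_pm_001 t 1 1 1 = true :=
  ⟨(l 4), by decide +kernel⟩

theorem c_pm_001 : CertB 0 536870912 536870912 536870912 697932185 42949674 3 eng mog cd0q0 cd5q1 pd0 false true false .up 0 0 1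
    ndB0q0 ndB5q1 pcB0 Cut.none Ext.none :=
  certB0 (fam := false) (s1 := true) (s2 := false) (a := 0) (b := 0) (c := 1) (cn := .up) (n1 := ndB0q0) (n2 := ndB5q1) (pc := pcB0) (cut := Cut.none) (xt := Ext.none) (P1 := 0) (W1 := 536870912) (P2 := 536870912) (W2 := 536870912) (P3 := 697932185) (W3 := 42949674) (N0 := 3) (En := eng) (mo := mog) (C1 := cd0q0) (C2 := cd5q1) (C3 := pd0)
    rfl k0_pm_001

noncomputable def f_pm_011 : ℕ → ℕ → ℕ → ℕ → Bool := onCell 0 536870912 536870912 536870912 697932185 42949674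
    (rowB 3 eng mog cd0q0 cd5q1 pd1 0 false true false .pnn 0 1 1 (qsf 0 536870912 536870912 536870912 1) ndB0q0 ndB5q1 pcB1 Cut.none Ext.none)

def k0_pm_011 : ∃ t, chk3 f_pm_011 t 1 1 1 = true :=
  ⟨(l 4), by decide +kernel⟩

theorem c_pm_011 : CertB 0 536870912 536870912 536870912 697932185 42949674 3 eng mog cd0q0 cd5q1 pd1 false true false .pnn 0 1 1
    ndB0q0 ndB5q1 pcB1 Cut.none Ext.none :=
  certB0 (fam := false) (s1 := true) (s2 := false) (a := 0) (b := 1) (c := 1) (cn := .pnn) (n1 := ndB0q0) (n2 := ndB5q1) (pc := pcB1) (cut := Cut.none) (xt := Ext.none) (P1 := 0) (W1 := 536870912) (P2 := 536870912) (W2 := 536870912) (P3 := 697932185) (W3 := 42949674) (N0 := 3) (En := eng) (mo := mog) (C1 := cd0q0) (C2 := cd5q1) (C3 := pd1)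
    rfl k0_pm_011

noncomputable def f_pm_012 : ℕ → ℕ → ℕ → ℕ → Bool := onCell 0 536870912 1073741824 536870912 697932185 42949674
    (rowB 3 eng mog cd0q0 cd5q2 pd1 0 false true false .pnp 0 1 2 (qsf 0 536870912 1073741824 536870912 1) ndB0q0 ndB5q2 pcB1 Cut.none Ext.none)

def k0_pm_012 : ∃ t, chk3 f_pm_012 t 1 1 1 = true :=
  ⟨(a (l 4) (b (l 4) (l 4))), by decide +kernel⟩

theorem c_pm_012 : CertB 0 536870912 1073741824 536870912 697932185 42949674 3 eng mog cd0q0 cd5q2 pd1 false true false .pnp 0 1 2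
    ndB0q0 ndB5q2 pcB1 Cut.none Ext.none :=
  certB0 (fam := false) (s1 := true) (s2 := false) (a := 0) (b := 1) (c := 2) (cn := .pnp) (n1 := ndB0q0) (n2 := ndB5q2) (pc := pcB1) (cut := Cut.none) (xt := Ext.none) (P1 := 0) (W1 := 536870912) (P2 := 1073741824) (W2 := 536870912) (P3 := 697932185) (W3 := 42949674) (N0 := 3) (En := eng) (mo := mog) (C1 := cd0q0) (C2 := cd5q2) (C3 := pd1)
    rfl k0_pm_012

noncomputable def f_pm_022 : ℕ → ℕ → ℕ → ℕ → Bool := onCell 1073741824 536870912 1073741824 536870912 697932185 42949674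
    (rowB 3 eng mog cd0q0 cd5q2 pd2 2 false true false .pp 0 2 2 (qsf 0 536870912 1073741824 536870912 2) ndB0q0 ndB5q2 pcB2 Cut.none Ext.none)

def k0_pm_022 : ∃ t, chk3 f_pm_022 t 1 1 1 = true :=
  ⟨(a (l 4) (l 4)), by decide +kernel⟩

theorem c_pm_022 : CertB 0 536870912 1073741824 536870912 697932185 42949674 3 eng mog cd0q0 cd5q2 pd2 false true false .pp 0 2 2
    ndB0q0 ndB5q2 pcB2 Cut.none Ext.none :=
  certB2 (fam := false) (s1 := true) (s2 := false) (a := 0) (b := 2) (c := 2) (cn := .pp) (n1 := ndB0q0) (n2 := ndB5q2) (pc := pcB2) (cut := Cut.none) (xt := Ext.none) (P1 := 0) (W1 := 536870912) (P2 := 1073741824) (W2 := 536870912) (P3 := 697932185) (W3 := 42949674) (N0 := 3) (En := eng) (mo := mog) (C1 := cd0q0) (C2 := cd5q2) (C3 := pd2)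
    rfl (fun _ => rfl) k0_pm_022

noncomputable def f_pm_023 : ℕ → ℕ → ℕ → ℕ → Bool := onCell 0 536870912 0 1230186008 697932185 42949674
    (rowB 3 eng mog cd0q0 cd5q3 pd2 0 false true false .up 0 2 3 (qsf 0 536870912 0 1230186008 2) ndB0q0 ndB5q3 pcB2 Cut.none Ext.none)

def k0_pm_023 : ∃ t, chk3 f_pm_023 t 1 1 1 = true :=
  ⟨(a (b (l 2) (l 4)) (a (b (l 2) (b (l 4) (l 4))) (a (b (b (l 2) (b (a (l 2) (l 16522920)) (a (l 4) (l 16467448)))) (b (b (b (l 4) (l 4)) (l 4)) (l 4))) (b (b (l 16608864) (b (l 16545168) (a (l 16466296) (l 16466760)))) (b (b (b (l 16505584) (a (l 16311152) (l 16294160))) (b (a (l 16227976) (l 16210528)) (a (l 4) (l 16119256)))) (b (b (b (l 16070704) (b (l 16025992) (l 15944888))) (b (a (l 4) (l 15909328)) (l 4))) (l 4))))))), by decide +kernel⟩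

theorem c_pm_023 : CertB 0 536870912 0 1230186008 697932185 42949674 3 eng mog cd0q0 cd5q3 pd2 false true false .up 0 2 3
    ndB0q0 ndB5q3 pcB2 Cut.none Ext.none :=
  certB0 (fam := false) (s1 := true) (s2 := false) (a := 0) (b := 2) (c := 3) (cn := .up) (n1 := ndB0q0) (n2 := ndB5q3) (pc := pcB2) (cut := Cut.none) (xt := Ext.none) (P1 := 0) (W1 := 536870912) (P2 := 0) (W2 := 1230186008) (P3 := 697932185) (W3 := 42949674) (N0 := 3) (En := eng) (mo := mog) (C1 := cd0q0) (C2 := cd5q3) (C3 := pd2)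
    rfl k0_pm_023

noncomputable def f_pm_033 : ℕ → ℕ → ℕ → ℕ → Bool := onCell 1610612736 536870912 0 1230186008 697932185 42949674
    (rowB 3 eng mog cd0q0 cd5q3 pd3 2 false true false .pnn 0 3 3 (qsf 0 536870912 0 1230186008 3) ndB0q0 ndB5q3 pcB3 Cut.none Ext.none)

def k0_pm_033 : ∃ t, chk3 f_pm_033 t 1 1 1 = true :=
  ⟨(b (a (a (b (a (l 16590288) (l 16556696)) (a (b (l 16523984) (a (l 16471088) (l 4))) (b (a (l 16511480) (l 4)) (l 4)))) (b (a (a (l 16536992) (l 16517648)) (l 4)) (l 4))) (l 4)) (b (l 4) (l 4))), by decide +kernel⟩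

theorem c_pm_033 : CertB 0 536870912 0 1230186008 697932185 42949674 3 eng mog cd0q0 cd5q3 pd3 false true false .pnn 0 3 3
    ndB0q0 ndB5q3 pcB3 Cut.none Ext.none :=
  certB2 (fam := false) (s1 := true) (s2 := false) (a := 0) (b := 3) (c := 3) (cn := .pnn) (n1 := ndB0q0) (n2 := ndB5q3) (pc := pcB3) (cut := Cut.none) (xt := Ext.none) (P1 := 0) (W1 := 536870912) (P2 := 0) (W2 := 1230186008) (P3 := 697932185) (W3 := 42949674) (N0 := 3) (En := eng) (mo := mog) (C1 := cd0q0) (C2 := cd5q3) (C3 := pd3)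
    rfl (fun _ => rfl) k0_pm_033

noncomputable def f_pm_101 : ℕ → ℕ → ℕ → ℕ → Bool := onCell 536870912 536870912 536870912 536870912 697932185 42949674
    (rowB 3 eng mog cd0q1 cd5q1 pd0 0 false true false .npn 1 0 1 (qsf 536870912 536870912 536870912 536870912 0) ndB0q1 ndB5q1 pcB0 Cut.none Ext.none)

def k0_pm_101 : ∃ t, chk3 f_pm_101 t 1 1 1 = true :=
  ⟨(l 4), by decide +kernel⟩

theorem c_pm_101 : CertB 536870912 536870912 536870912 536870912 697932185 42949674 3 eng mog cd0q1 cd5q1 pd0 false true false .npn 1 0 1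
    ndB0q1 ndB5q1 pcB0 Cut.none Ext.none :=
  certB0 (fam := false) (s1 := true) (s2 := false) (a := 1) (b := 0) (c := 1) (cn := .npn) (n1 := ndB0q1) (n2 := ndB5q1) (pc := pcB0) (cut := Cut.none) (xt := Ext.none) (P1 := 536870912) (W1 := 536870912) (P2 := 536870912) (W2 := 536870912) (P3 := 697932185) (W3 := 42949674) (N0 := 3) (En := eng) (mo := mog) (C1 := cd0q1) (C2 := cd5q1) (C3 := pd0)
    rfl k0_pm_101

noncomputable def f_pm_102 : ℕ → ℕ → ℕ → ℕ → Bool := onCell 536870912 536870912 0 536870912 697932185 42949674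
    (rowB 3 eng mog cd0q1 cd5q2 pd0 1 false true false .npp 1 0 2 (qsf 536870912 536870912 1073741824 536870912 0) ndB0q1 ndB5q2 pcB0 Cut.none Ext.none)

def k0_pm_102 : ∃ t, chk3 f_pm_102 t 2 1 1 = true :=
  ⟨(b (b (l 1) (a (l 1) (a (l 1) (b (l 1) (a (l 1) (b (l 1) (l 16158096))))))) (b (b (a (l 1) (a (a (l 1) (l 240550428615)) (b (l 207264280007) (l 163240730935)))) (a (a (l 1) (b (l 1) (a (l 1) (l 219075490007)))) (a (b (l 206190570967) (a (l 15918120) (l 15863360))) (b (b (l 15931048) (l 15950088)) (b (a (l 15918032) (l 15962808)) (l 15938200)))))) (a (b (a (a (l 1) (b (l 1) (l 194916392247))) (a (b (l 15973808) (l 15951776)) (b (l 15927744) (l 15894080)))) (a (a (l 4) (b (l 16042432) (l 15945312))) (b (a (l 15920576) (l 15856504)) (l 15870288)))) (b (a (a (b (l 15872504) (l 15829840)) (l 15777872)) (b (l 15869888) (a (l 15812232) (l 15883976)))) (a (a (l 15769176) (b (l 15712072) (l 15697344))) (a (b (l 15788744) (l 15811136)) (b (l 15901816) (l 15975840)))))))),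 by decide +kernel⟩

def k1_pm_102 : ∃ t, chk3 f_pm_102 t 3 2 1 = true :=
  ⟨(a (b (a (l 1) (a (l 1) (b (l 1) (b (l 1) (a (l 1) (l 16409360)))))) (a (b (b (l 1) (a (l 1) (a (l 1) (l 301754693607)))) (a (b (l 16408984) (l 16266208)) (b (a (l 16279704) (l 16264512)) (l 16368848)))) (b (b (a (a (l 1) (l 260415519911)) (l 201896710775)) (a (b (l 16381616) (l 16315168)) (l 16310336))) (a (b (l 16248664) (l 16178776)) (b (l 16242032) (l 16193728)))))) (b (a (a (b (l 1) (b (b (l 1) (l 16412968)) (l 183642933271))) (b (b (l 1) (a (l 1) (b (l 1) (l 16417280)))) (b (b (l 16401032) (l 16379680)) (l 16398744)))) (b (b (b (a (l 1) (c (l 275984840551) (b (l 291017074007) (l 288869564007)))) (a (a (l 1) (a (l 1) (b (l 1) (l 16429040)))) (a (b (l 97206315431) (l 16421344)) (l 16428696)))) (a (b (a (b (l 1) (l 16421792)) (b (l 16420696) (l 16410176))) (a (l 16404728) (l 16398744))) (a (b (l 16413400) (l 16419784)) (l 16434768)))) (a (b (a (l 16380448) (l 16394784)) (l 16393232))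 (b (a (l 16430184) (b (l 16431368) (l 16424456))) (a (b (l 16431224) (l 16424832)) (l 16411152)))))) (b (a (b (a (l 16341088) (l 16366144)) (a (l 16298864) (l 16501120))) (b (a (a (l 16395512) (b (l 16422832) (l 16418056))) (b (l 16411912) (l 16406800))) (a (a (l 16387240) (l 16399464)) (a (l 16395128) (l 16385144))))) (a (a (b (l 16257512) (l 16235280)) (b (l 16425576) (a (l 16288056) (l 16332416)))) (a (b (l 16376168) (l 16381408)) (b (l 16411808) (l 16403392))))))), by decide +kernel⟩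

def k2_pm_102 : ∃ t, chk3 f_pm_102 t 3 3 1 = true :=
  ⟨(b (b (a (b (a (a (l 16162976) (l 16114680)) (a (l 16127592) (l 16161136))) (a (a (b (l 16047184) (l 16025072)) (b (l 16076576) (l 16077280))) (b (a (l 16103304) (b (l 16146656) (l 16153896))) (a (l 16122728) (b (l 16177696) (l 16202096)))))) (b (a (a (l 16433296) (l 16335424)) (a (l 16402016) (a (l 16415200) (l 16411840)))) (a (b (a (l 16349672) (l 16365912)) (a (l 16310560) (l 16401512))) (a (b (l 16417064) (l 16430320)) (b (l 16421088) (l 16425240)))))) (a (b (a (a (b (l 16018456) (l 16011624)) (b (l 16068768) (l 16048656))) (a (b (l 16115448) (l 16095496)) (b (l 16202152) (l 16205632)))) (a (b (a (l 16000712) (l 16034200)) (a (l 15995424) (l 16053088))) (b (a (l 16099272) (l 16236976)) (a (l 16154704) (l 16302792))))) (b (a (a (l 16346096) (l 16422896)) (a (l 16446488) (b (l 16431112) (l 16435936)))) (a (b (l 16421216) (l 16447024)) (a (l 16713664) (l 16440000)))))) (a (a (b (a (b (l 15980248) (l 15992936))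 (b (l 16077088) (l 16126848))) (a (l 16081408) (l 16238008))) (b (a (l 16238064) (l 16377616)) (a (l 16366992) (l 16453176)))) (a (b (a (l 16452848) (l 16478456)) (a (l 16496912) (l 16508544))) (b (a (l 16473800) (l 16448864)) (a (l 16496496) (l 16467088)))))), by decide +kernel⟩

theorem s3_pm_102 : ∃ t, chk3 f_pm_102 t 3 1 1 = true := ex3_b k1_pm_102 k2_pm_102

theorem s4_pm_102 : ∃ t, chk3 f_pm_102 t 1 1 1 = true := ex3_a k0_pm_102 s3_pm_102

theorem c_pm_102 : CertB 536870912 536870912 1073741824 536870912 697932185 42949674 3 eng mog cd0q1 cd5q2 pd0 false true false .npp 1 0 2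
    ndB0q1 ndB5q2 pcB0 Cut.none Ext.none :=
  certB1 (fam := false) (s1 := true) (s2 := false) (a := 1) (b := 0) (c := 2) (cn := .npp) (n1 := ndB0q1) (n2 := ndB5q2) (pc := pcB0) (cut := Cut.none) (xt := Ext.none) (P1 := 536870912) (W1 := 536870912) (P2 := 1073741824) (W2 := 536870912) (P3 := 697932185) (W3 := 42949674) (N0 := 3) (En := eng) (mo := mog) (C1 := cd0q1) (C2 := cd5q2) (C3 := pd0)
    rfl (fun _ => rfl) s4_pm_102

noncomputable def f_pm_112 : ℕ → ℕ → ℕ → ℕ → Bool := onCell 536870912 536870912 1073741824 536870912 697932185 42949674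
    (rowB 3 eng mog cd0q1 cd5q2 pd1 0 false true false .dn 1 1 2 (qsf 536870912 536870912 1073741824 536870912 1) ndB0q1 ndB5q2 pcB1 Cut.none Ext.none)

def k0_pm_112 : ∃ t, chk3 f_pm_112 t 1 1 1 = true :=
  ⟨(a (b (a (b (a (a (l 4) (a (b (l 189010434167) (l 15856464)) (b (l 149818979815) (l 15840304)))) (b (a (l 195452997079) (l 1)) (a (l 15863016) (l 15794360)))) (a (a (l 4) (a (b (l 15817336) (l 15880680)) (b (l 15802232) (l 15881200)))) (b (b (l 15759648) (l 15765384)) (b (l 15850088) (l 15913688))))) (b (a (b (l 1) (a (l 15757272) (l 1))) (l 1)) (a (b (b (l 15707488) (l 15729656)) (a (l 15893384) (l 15907336))) (b (a (l 15730488) (l 1)) (l 15970280))))) (a (b (a (a (l 4) (b (l 16037464) (b (l 15897208) (l 15879664)))) (b (a (l 15945144) (l 15980176)) (a (l 15949152) (l 16003072)))) (a (b (a (l 4) (b (l 15863512) (l 15836376))) (a (b (l 4) (l 15711320)) (b (l 15815312) (b (l 15798176) (l 15783152))))) (b (a (b (l 15925888) (l 15902128)) (l 15990648)) (a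 (b (l 15889984) (l 15876856)) (l 15966808))))) (b (a (b (a (l 16013488) (l 16052392)) (l 16090656)) (b (l 16119024) (l 16204336))) (a (b (l 16100984) (a (l 16055720) (l 16146528))) (b (l 16253760) (l 16286296)))))) (b (a (b (l 1) (a (b (l 1) (l 322692002839)) (l 1))) (l 1)) (a (b (a (b (a (l 16190608) (l 16245872)) (l 16327896)) (b (l 16321088) (l 16426696))) (a (b (l 16396560) (l 16450984)) (b (l 16498400) (l 16568984)))) (b (a (b (l 1) (l 374769166679)) (l 1)) (a (b (l 16520272) (l 16579968)) (b (a (l 16495696) (l 1)) (a (l 16534208) (l 16494936)))))))), by decide +kernel⟩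

theorem c_pm_112 : CertB 536870912 536870912 1073741824 536870912 697932185 42949674 3 eng mog cd0q1 cd5q2 pd1 false true false .dn 1 1 2
    ndB0q1 ndB5q2 pcB1 Cut.none Ext.none :=
  certB0 (fam := false) (s1 := true) (s2 := false) (a := 1) (b := 1) (c := 2) (cn := .dn) (n1 := ndB0q1) (n2 := ndB5q2) (pc := pcB1) (cut := Cut.none) (xt := Ext.none) (P1 := 536870912) (W1 := 536870912) (P2 := 1073741824) (W2 := 536870912) (P3 := 697932185) (W3 := 42949674) (N0 := 3) (En := eng) (mo := mog) (C1 := cd0q1) (C2 := cd5q2) (C3 := pd1)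
    rfl k0_pm_112

noncomputable def cut_pm_113 : Cut := Cut.of [[⟨0, 1, 0, 67108864⟩, ⟨1, 1, 0, 67108864⟩, ⟨2, 2, 0, 16777216⟩]]

noncomputable def f_pm_113 : ℕ → ℕ → ℕ → ℕ → Bool := onCell 536870912 536870912 0 1230186008 697932185 42949674
    (rowB 3 eng mog cd0q1 cd5q3 pd1 0 false true false .nn 1 1 3 (qsf 536870912 536870912 0 1230186008 1) ndB0q1 ndB5q3 pcB1 cut_pm_113 Ext.none)

def k0_pm_113 : ∃ t, chk3 f_pm_113 t 1 2 1 = true :=
  ⟨(a (l 2) (a (l 2) (a (b (l 2) (b (a (l 2) (b (l 2) (l 16667112))) (a (l 16601112) (b (l 16666304) (l 16666368))))) (b (a (l 2) (b (l 6) (b (l 6) (a (l 16747600) (l 16773424))))) (b (a (b (l 16715888) (l 16719648)) (a (l 16694752) (b (l 16780528) (l 16790864)))) (a (l 16729704) (b (l 16786192) (l 16799552)))))))), by decide +kernel⟩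

def k1_pm_113 : ∃ t, chk3 f_pm_113 t 1 6 1 = true :=
  ⟨(a (a (l 2) (b (l 2) (a (l 2) (b (l 2) (a (l 2) (l 147739386743)))))) (a (b (a (l 2) (b (a (l 2) (l 16509456)) (a (l 16443008) (l 16524520)))) (b (a (a (l 16289488) (l 16388984)) (b (l 16513360) (l 16535680))) (a (a (l 16335624) (l 16432048)) (b (l 16665128) (l 16564368))))) (a (b (a (b (l 16589840) (l 16609264)) (b (l 16666328) (l 16691624))) (a (b (l 16654112) (l 16709288)) (b (l 16743000) (l 16808712)))) (b (a (b (l 16738632) (l 16646552)) (b (l 16815576) (l 16860176))) (a (b (l 16835728) (l 16915624)) (b (l 16939040) (l 16844928))))))), by decide +kernel⟩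

def k2_pm_113 : ∃ t, chk3 f_pm_113 t 2 7 1 = true :=
  ⟨(a (b (l 2) (a (b (l 2) (a (b (l 2) (a (l 4) (l 178876780791))) (b (l 210015192583) (a (l 165991972743) (l 15810656))))) (b (b (b (a (l 2) (l 130558516903)) (l 148275140663)) (c (l 150422733735) (l 159549315719))) (b (l 145054148919) (l 15937088))))) (b (b (b (a (l 2) (a (l 16187984) (l 16290104))) (a (b (l 2) (b (l 2) (a (l 2) (l 155791346487)))) (b (a (b (a (l 2) (l 16225272)) (l 113379204743)) (c (a (l 16287352) (l 16332424)) (l 16224936))) (b (a (l 16078096) (l 16210072)) (b (b (l 16105520) (l 16092960)) (l 16093272)))))) (b (a (a (l 2) (b (l 15948896) (l 15998576))) (b (a (l 16080112) (l 16192656)) (l 16118176))) (b (a (b (l 117673793303) (l 124116350407)) (l 16142472)) (a (a (l 15889992) (l 16024072)) (l 16210624))))) (b (b (b (a (a (l 15890864) (l 16019176)) (l 16208432)) (a (l 15988816) (l 16243032))) (a (a (l 15973912) (l 16091912)) (l 16275120))) (a (b (l 16087720) (l 16134912)) (b (l 16307456)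 (l 16335920)))))), by decide +kernel⟩

def k3_pm_113 : ∃ t, chk3 f_pm_113 t 3 7 1 = true :=
  ⟨(b (b (a (b (a (a (l 16376144) (l 16468168)) (a (l 16569344) (l 16658392))) (a (b (a (b (l 16384560) (l 16345928)) (l 16436768)) (b (a (l 16303432) (l 16400888)) (a (c (l 16321848) (l 16214080)) (l 16368720)))) (b (a (l 16560760) (l 16653232)) (a (b (l 16506528) (l 16475912)) (b (l 16602480) (l 16553600)))))) (a (b (a (l 16759176) (l 16872952)) (b (a (l 16760688) (l 16881000)) (a (l 16575696) (l 16735504)))) (b (a (l 16996888) (l 16980384)) (b (a (l 17009080) (c (l 16987280) (l 16840024))) (a (l 16940320) (a (l 17043832) (l 16898792))))))) (a (a (b (a (a (l 16262240) (l 16306336)) (l 16401592)) (b (a (l 16361512) (l 16453664)) (a (l 16347456) (l 16440912)))) (b (a (b (l 16491504) (l 16522952)) (b (l 16593808) (l 16630680))) (b (a (l 16560552) (l 16673144)) (l 16611032)))) (a (b (a (l 16730368) (l 16831536)) (a (l 16791952) (l 16924032))) (b (a (l 16980528) (l 16858168))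 (a (l 17038200) (l 16901976)))))) (b (a (b (a (b (a (l 16345152) (l 16441248)) (l 16433120)) (b (l 16614016) (l 16648448))) (a (l 16485976) (l 16703280))) (a (b (b (l 16860624) (l 16902840)) (l 16834856)) (b (a (l 16905696) (l 16808224)) (l 16718128)))) (a (a (l 16525368) (l 16670656)) (a (b (l 16723664) (l 16632064)) (a (l 16599200) (l 16528560)))))), by decide +kernel⟩

theorem s4_pm_113 : ∃ t, chk3 f_pm_113 t 1 7 1 = true := ex3_a k2_pm_113 k3_pm_113

theorem s5_pm_113 : ∃ t, chk3 f_pm_113 t 1 3 1 = true := ex3_b k1_pm_113 s4_pm_113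

theorem s6_pm_113 : ∃ t, chk3 f_pm_113 t 1 1 1 = true := ex3_b k0_pm_113 s5_pm_113

theorem c_pm_113 : CertB 536870912 536870912 0 1230186008 697932185 42949674 3 eng mog cd0q1 cd5q3 pd1 false true false .nn 1 1 3
    ndB0q1 ndB5q3 pcB1 cut_pm_113 Ext.none :=
  certB0 (fam := false) (s1 := true) (s2 := false) (a := 1) (b := 1) (c := 3) (cn := .nn) (n1 := ndB0q1) (n2 := ndB5q3) (pc := pcB1) (cut := cut_pm_113) (xt := Ext.none) (P1 := 536870912) (W1 := 536870912) (P2 := 0) (W2 := 1230186008) (P3 := 697932185) (W3 := 42949674) (N0 := 3) (En := eng) (mo := mog) (C1 := cd0q1) (C2 := cd5q3) (C3 := pd1)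
    rfl s6_pm_113

noncomputable def cut_pm_123 : Cut := Cut.of [[⟨0, 1, 0, 67108864⟩, ⟨1, 1, 0, 67108864⟩, ⟨2, 2, 0, 16777216⟩]]

noncomputable def f_pm_123 : ℕ → ℕ → ℕ → ℕ → Bool := onCell 1073741824 536870912 0 1230186008 697932185 42949674
    (rowB 3 eng mog cd0q1 cd5q3 pd2 2 false true false .npn 1 2 3 (qsf 536870912 536870912 0 1230186008 2) ndB0q1 ndB5q3 pcB2 cut_pm_123 Ext.none)

def k0_pm_123 : ∃ t, chk3 f_pm_123 t 1 2 1 = true :=
  ⟨(a (a (a (b (a (b (l 6) (b (l 6) (a (l 16730928) (l 16709416)))) (b (a (l 6) (l 16715584)) (l 16686224))) (b (a (b (a (l 16707848) (l 16681400)) (l 16661736)) (b (l 16637008) (l 16592992))) (a (b (l 16616936) (l 16563864)) (b (l 16544624) (l 16483984))))) (b (b (a (l 16746616) (l 16630720)) (a (b (l 16647880) (l 16613080)) (b (l 16588080) (l 16548864)))) (b (a (b (l 16569496) (l 16526424)) (l 16486272)) (a (b (l 16475392) (l 16411784)) (b (l 16414784) (l 16356896)))))) (b (a (b (a (a (l 16585984) (l 16559792)) (l 16521272))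 (a (a (l 16520512) (l 16682184)) (l 16569296))) (b (a (l 16516168) (l 16530736)) (l 16651496))) (a (b (a (l 16432824) (b (l 16416520) (l 16378888))) (a (b (l 16367144) (l 16310408)) (b (l 16336208) (l 16287224)))) (b (a (l 16412040) (l 16434176)) (a (b (l 16353064) (l 16302256)) (l 16345968)))))) (a (b (a (b (l 16556680) (l 16516496)) (l 16680144)) (a (b (a (l 16445240) (l 16456424)) (a (l 16363832) (l 16380600))) (b (l 16738080) (a (l 16401720) (l 16429760))))) (b (a (l 16593232) (l 16617920)) (a (b (l 16532608) (l 16435872)) (b (l 16547528) (l 169683628135)))))), by decide +kernel⟩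

def k1_pm_123 : ∃ t, chk3 f_pm_123 t 1 6 1 = true :=
  ⟨(a (a (b (a (b (a (l 16489128) (l 16488928)) (a (b (l 16432904) (l 16409424)) (b (l 16353736) (l 16369712)))) (b (a (b (l 16357648) (l 16320816)) (b (l 16303856) (l 16268312))) (a (a (l 16395720) (l 16264696)) (l 16231792)))) (a (b (a (b (l 16503312) (l 16339664)) (a (l 16529640) (l 16368392))) (a (b (l 16363072) (l 16265384)) (b (l 16235024) (l 16218712)))) (b (a (l 16225752) (l 16178912)) (a (a (l 16172280) (l 16147704)) (b (l 16133712) (l 16102872)))))) (b (a (b (a (l 16271264) (l 16226576)) (a (l 16193424) (l 16173288))) (b (l 16377808) (l 16344824))) (a (a (b (l 16145840) (l 16093744)) (b (l 16130816) (l 16085984))) (b (l 16131864) (l 16101384))))) (a (b (a (b (l 16294288) (l 16244800)) (a (l 16306104) (l 16326008))) (a (b (l 16188440) (l 127807784727)) (a (l 141229746775) (l 1)))) (b (a (a (l 16343608) (l 1)) (l 1)) (l 1)))), by decide +kernel⟩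

def k2_pm_123 : ∃ t, chk3 f_pm_123 t 1 7 1 = true :=
  ⟨(a (b (a (b (a (b (a (a (l 16241960) (l 16206272)) (a (l 16171624) (l 16141640))) (b (b (a (c (l 16212144) (l 16132544)) (l 16117352)) (a (a (l 16131408) (l 16096112)) (l 16051592))) (a (b (l 16036616) (l 15945416)) (b (l 15977344) (l 15911520))))) (a (b (l 16105360) (b (l 16039120) (a (l 15915336) (l 15903024)))) (b (l 16071632) (b (l 16010416) (l 15893392))))) (a (a (b (b (l 15950272) (l 15937864)) (b (l 15927760) (l 15859480))) (b (b (l 15899096) (l 15895296)) (b (l 15891568) (l 15837416)))) (b (a (l 15875016) (l 15869096)) (a (a (l 15852640) (l 15850688)) (l 15854624))))) (b (b (a (a (l 16052488) (l 16044680)) (l 16052232)) (a (b (a (l 15994504) (l 15994544)) (a (l 15893704) (l 15906592))) (b (l 16013872) (l 15940200)))) (a (b (a (l 15877160) (l 15894808)) (a (l 15871768) (l 4))) (l 1)))) (a (b (b (a (a (b (l 15809832) (l 15794024)) (b (l 15797992) (l 15786584))) (a (a (l 15793672) (l 15798432)) (l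 15815592))) (a (a (l 15767824) (l 15768792)) (a (l 15786848) (l 4)))) (a (a (b (a (l 15730752) (l 15735168)) (a (l 15705032) (l 4))) (b (l 15751384) (l 4))) (l 4))) (b (l 4) (l 1)))) (l 1)), by decide +kernel⟩

theorem s3_pm_123 : ∃ t, chk3 f_pm_123 t 1 3 1 = true := ex3_b k1_pm_123 k2_pm_123

theorem s4_pm_123 : ∃ t, chk3 f_pm_123 t 1 1 1 = true := ex3_b k0_pm_123 s3_pm_123

theorem c_pm_123 : CertB 536870912 536870912 0 1230186008 697932185 42949674 3 eng mog cd0q1 cd5q3 pd2 false true false .npn 1 2 3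
    ndB0q1 ndB5q3 pcB2 cut_pm_123 Ext.none :=
  certB2 (fam := false) (s1 := true) (s2 := false) (a := 1) (b := 2) (c := 3) (cn := .npn) (n1 := ndB0q1) (n2 := ndB5q3) (pc := pcB2) (cut := cut_pm_123) (xt := Ext.none) (P1 := 536870912) (W1 := 536870912) (P2 := 0) (W2 := 1230186008) (P3 := 697932185) (W3 := 42949674) (N0 := 3) (En := eng) (mo := mog) (C1 := cd0q1) (C2 := cd5q3) (C3 := pd2)
    rfl (fun _ => rfl) s4_pm_123

noncomputable def f_pm_133 : ℕ → ℕ → ℕ → ℕ → Bool := onCell 536870912 536870912 0 1230186008 697932185 42949674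
    (rowB 3 eng mog cd0q1 cd5q3 pd3 0 false true false .dn 1 3 3 (qsf 536870912 536870912 0 1230186008 3) ndB0q1 ndB5q3 pcB3 Cut.none Ext.none)

def k0_pm_133 : ∃ t, chk3 f_pm_133 t 1 1 1 = true :=
  ⟨(b (b (a (a (a (l 16658688) (l 1)) (l 1)) (l 1)) (l 1)) (l 1)), by decide +kernel⟩

theorem c_pm_133 : CertB 536870912 536870912 0 1230186008 697932185 42949674 3 eng mog cd0q1 cd5q3 pd3 false true false .dn 1 3 3
    ndB0q1 ndB5q3 pcB3 Cut.none Ext.none :=
  certB0 (fam := false) (s1 := true) (s2 := false) (a := 1) (b := 3) (c := 3) (cn := .dn) (n1 := ndB0q1) (n2 := ndB5q3) (pc := pcB3) (cut := Cut.none) (xt := Ext.none) (P1 := 536870912) (W1 := 536870912) (P2 := 0) (W2 := 1230186008) (P3 := 697932185) (W3 := 42949674) (N0 := 3) (En := eng) (mo := mog) (C1 := cd0q1) (C2 := cd5q3) (C3 := pd3)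
    rfl k0_pm_133

noncomputable def f_pm_202 : ℕ → ℕ → ℕ → ℕ → Bool := onCell 0 536870912 1073741824 536870912 697932185 42949674
    (rowB 3 eng mog cd0q2 cd5q2 pd0 0 false true false .pp 2 0 2 (qsf 0 536870912 1073741824 536870912 0) ndB0q2 ndB5q2 pcB0 Cut.none Ext.none)

def k0_pm_202 : ∃ t, chk3 f_pm_202 t 2 1 1 = true :=
  ⟨(a (l 3) (b (a (b (l 1) (l 3)) (a (b (l 1) (l 3)) (b (b (l 1) (b (l 1) (b (l 1) (a (a (a (l 1) (a (l 1) (l 16507344))) (l 16513712)) (l 16528424))))) (b (a (a (b (b (c (l 209547039559) (b (l 131163638935) (l 16505608))) (l 3)) (l 3)) (b (b (b (b (l 16509624) (l 16511808)) (l 80697721943)) (b (l 124721103223) (b (l 125794838439) (l 16462480)))) (b (c (l 316921089351) (l 460802513239)) (l 3)))) (b (b (b (a (l 16519280) (l 16521672)) (c (a (l 16511760) (l 16511632)) (l 16582616))) (a (b (c (l 16511216) (l 16516648)) (a (l 16421872) (l 16505256))) (b (a (l 16406152) (l 16405072)) (c (b (l 16502112) (l 16499528)) (l 16509856))))) (b (b (a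 (a (c (l 16496640) (l 16505744)) (c (l 16496632) (l 16505512))) (b (l 16500624) (l 16498224))) (c (a (l 16513528) (l 16492144)) (a (l 16437664) (l 16499648)))) (a (c (l 16497808) (l 16505512)) (c (l 16518264) (l 16504440)))))) (a (l 3) (b (b (b (a (l 120963067927) (l 16507032)) (l 119352514423)) (l 133847956791)) (b (a (l 3) (l 161765228455)) (l 3)))))))) (b (l 3) (l 3)))), by decide +kernel⟩

def k1_pm_202 : ∃ t, chk3 f_pm_202 t 3 4 1 = true :=
  ⟨(a (b (l 1) (a (b (l 1) (a (b (l 16532544) (l 16502968)) (b (l 16524328) (l 16515608)))) (b (a (b (l 1) (l 16522272)) (b (l 16516144) (l 16505824))) (a (b (l 16512888) (l 16503904)) (l 16491064))))) (b (a (b (l 1) (a (b (l 1) (l 16510112)) (b (b (l 16504928) (l 16500440)) (l 16490896)))) (b (b (a (l 1) (a (a (l 16465136) (l 16457936)) (l 16446464))) (a (a (b (l 1) (l 16486672)) (b (b (l 1) (l 16474256)) (l 16472464))) (a (b (l 16458816) (l 16457048)) (l 16442104)))) (a (b (l 16475760) (l 16468432)) (b (l 16445376)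 (l 16442008))))) (a (b (a (b (l 16498616) (l 16487600)) (l 16473592)) (a (l 16472344) (l 16452808))) (b (a (l 16451752) (b (l 16432816) (l 16424032))) (a (l 16431440) (l 16410360)))))), by decide +kernel⟩

def k2_pm_202 : ∃ t, chk3 f_pm_202 t 6 5 1 = true :=
  ⟨(b (a (b (a (b (a (c (l 16512872) (l 16522752)) (l 16513352)) (a (b (c (b (a (l 16507072) (l 16506280)) (l 16503992)) (l 16514624)) (c (a (l 16500088) (l 16499392)) (l 16507584))) (b (c (l 16503864) (l 16511608)) (a (l 16501928) (l 16500808))))) (b (l 16507248) (b (l 16501280) (a (l 16541040) (l 16495752))))) (a (a (a (b (b (b (l 16499632) (l 16497024)) (l 16493560)) (b (l 16496184) (l 16501272))) (b (b (l 16497160) (l 16492336)) (b (l 16494664) (l 16499648)))) (a (b (b (l 16496008) (l 16491040)) (b (l 16493304) (l 16498272))) (b (b (l 16495048) (l 16489736)) (l 16494472)))) (b (b (a (l 16493288) (l 16490304)) (a (l 16488000) (l 16485144))) (a (b (l 16489888) (l 16494768)) (l 16489600))))) (b (a (l 16554208)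 (l 16473832)) (a (b (a (b (l 16485560) (l 16480960)) (l 16540520)) (a (l 16485472) (l 16479728))) (b (l 16462824) (a (l 16472808) (l 16464768)))))) (a (a (b (a (b (a (c (l 16505352) (l 16511840)) (l 16506432)) (c (l 16511752) (l 16517896))) (b (b (l 16502080) (l 16506080)) (l 16511336))) (b (a (a (l 16517600) (l 16518560)) (l 16516632)) (a (a (l 138142898663) (l 16518192)) (a (l 16520872) (l 16519504))))) (b (b (a (l 16501184) (l 16497920)) (a (l 16508376) (l 16505072))) (b (a (l 16513648) (l 16510512)) (a (l 16517336) (l 16514184))))) (b (a (b (a (l 16493968) (l 16488400)) (l 16498064)) (b (l 16478000) (l 16485160))) (a (b (l 16503584) (l 16507344)) (b (l 16532208) (a (l 16497112) (l 16489152))))))), by decide +kernel⟩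

def k3_pm_202 : ∃ t, chk3 f_pm_202 t 7 5 1 = true :=
  ⟨(b (a (b (a (l 16454960) (l 16435720)) (a (l 16447696) (l 16429224))) (b (a (l 16415392) (l 16396248)) (a (b (l 16406272) (l 16413000)) (b (l 16386600) (l 16389512))))) (a (b (a (b (l 16463776) (l 16470896)) (b (l 16446184) (l 16454568))) (a (b (l 16475024) (l 16476792)) (l 16457048))) (b (a (l 16426456) (l 16400080)) (a (l 16434552) (l 16411280))))), by decide +kernel⟩

def k4_pm_202 : ∃ t, chk3 f_pm_202 t 3 3 1 = true :=
  ⟨(a (b (a (b (a (b (a (a (b (l 314236726327) (l 3)) (b (l 16514352) (l 213304982023))) (b (a (l 16519360) (l 16521952)) (a (l 16516272) (l 16519984)))) (b (a (a (l 3) (l 16512736)) (a (l 16515032) (l 16517864))) (a (l 182166488151) (l 166597225751)))) (b (a (a (l 16610072) (l 16519680)) (l 16517112)) (a (b (l 16593336) (l 16518792)) (l 16518648)))) (a (a (l 3) (b (b (a (l 16519032) (l 16518800)) (l 16521744)) (l 142438212471))) (b (b (a (l 16518664) (l 16518120)) (a (l 16519784) (l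 16517704))) (a (l 16521480) (l 16517184))))) (b (a (b (a (l 16512768) (l 16506864)) (a (l 16514360) (l 16508432))) (b (l 16495360) (l 16496872))) (a (b (l 16511952) (l 16510928)) (b (l 16497208) (l 16496912))))) (b (a (a (l 3) (b (a (l 16523928) (l 16516496)) (a (l 16527544) (l 16515832)))) (a (b (a (l 16511280) (l 16506224)) (a (l 16508352) (l 16502488))) (l 16494696))) (a (a (l 3) (a (l 3) (b (l 16556736) (l 16513448)))) (b (a (a (l 16501024) (l 16496360)) (l 16487944)) (a (a (l 16493112) (l 16486104)) (a (l 16481968) (l 16478216))))))) (b (b (b (a (a (l 16478376) (l 16459968)) (a (l 16438440) (l 16416360))) (a (a (l 16479904) (l 16461992)) (a (l 16442200) (l 16422048)))) (a (a (b (l 16480552) (l 16480440)) (l 16463648)) (b (a (l 16444872) (l 16427240)) (a (l 16446744) (l 16430632))))) (a (b (a (l 16479264) (l 16464552)) (a (l 16474832) (l 16463600))) (b (a (l 16449672) (l 16436976)) (l 16450368))))), by decide +kernel⟩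

theorem s5_pm_202 : ∃ t, chk3 f_pm_202 t 3 5 1 = true := ex3_a k2_pm_202 k3_pm_202

theorem s6_pm_202 : ∃ t, chk3 f_pm_202 t 3 2 1 = true := ex3_b k1_pm_202 s5_pm_202

theorem s7_pm_202 : ∃ t, chk3 f_pm_202 t 3 1 1 = true := ex3_b s6_pm_202 k4_pm_202

theorem s8_pm_202 : ∃ t, chk3 f_pm_202 t 1 1 1 = true := ex3_a k0_pm_202 s7_pm_202

theorem c_pm_202 : CertB 0 536870912 1073741824 536870912 697932185 42949674 3 eng mog cd0q2 cd5q2 pd0 false true false .pp 2 0 2
    ndB0q2 ndB5q2 pcB0 Cut.none Ext.none :=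
  certB0 (fam := false) (s1 := true) (s2 := false) (a := 2) (b := 0) (c := 2) (cn := .pp) (n1 := ndB0q2) (n2 := ndB5q2) (pc := pcB0) (cut := Cut.none) (xt := Ext.none) (P1 := 0) (W1 := 536870912) (P2 := 1073741824) (W2 := 536870912) (P3 := 697932185) (W3 := 42949674) (N0 := 3) (En := eng) (mo := mog) (C1 := cd0q2) (C2 := cd5q2) (C3 := pd0)
    rfl s8_pm_202

noncomputable def f_pm_203 : ℕ → ℕ → ℕ → ℕ → Bool := onCell 0 536870912 0 1230186008 697932185 42949674
    (rowB 3 eng mog cd0q2 cd5q3 pd0 0 false true false .up 2 0 3 (qsf 0 536870912 0 1230186008 0) ndB0q2 ndB5q3 pcB0 Cut.none Ext.none)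

def k0_pm_203 : ∃ t, chk3 f_pm_203 t 1 1 1 = true :=
  ⟨(b (l 2) (b (l 2) (a (l 3) (b (l 2) (b (a (a (l 3) (b (l 2) (a (a (l 3) (l 161228690199)) (a (l 16519728) (l 16518496))))) (a (b (l 2) (a (b (l 2) (l 16507152)) (l 2))) (l 2))) (a (a (b (l 3) (a (l 3) (a (l 3) (b (l 3) (l 16517784))))) (b (a (b (l 159618037047) (l 164449825415)) (a (l 16480800) (l 16479640))) (a (a (b (l 16494864) (l 16502624)) (l 16497168)) (a (l 16558048) (l 16451656))))) (a (b (l 16478776) (l 16450000)) (a (l 16457928) (l 16460112))))))))), by decide +kernel⟩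

theorem c_pm_203 : CertB 0 536870912 0 1230186008 697932185 42949674 3 eng mog cd0q2 cd5q3 pd0 false true false .up 2 0 3
    ndB0q2 ndB5q3 pcB0 Cut.none Ext.none :=
  certB0 (fam := false) (s1 := true) (s2 := false) (a := 2) (b := 0) (c := 3) (cn := .up) (n1 := ndB0q2) (n2 := ndB5q3) (pc := pcB0) (cut := Cut.none) (xt := Ext.none) (P1 := 0) (W1 := 536870912) (P2 := 0) (W2 := 1230186008) (P3 := 697932185) (W3 := 42949674) (N0 := 3) (En := eng) (mo := mog) (C1 := cd0q2) (C2 := cd5q3) (C3 := pd0)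
    rfl k0_pm_203

noncomputable def cut_pm_213 : Cut := Cut.of [[⟨0, 1, 0, 67108864⟩, ⟨1, 1, 0, 67108864⟩, ⟨2, 2, 0, 16777216⟩]]

noncomputable def f_pm_213 : ℕ → ℕ → ℕ → ℕ → Bool := onCell 0 536870912 0 1230186008 697932185 42949674
    (rowB 3 eng mog cd0q2 cd5q3 pd1 0 false true false .pnn 2 1 3 (qsf 0 536870912 0 1230186008 1) ndB0q2 ndB5q3 pcB1 cut_pm_213 Ext.none)

def k0_pm_213 : ∃ t, chk3 f_pm_213 t 1 2 1 = true :=
  ⟨(a (l 3) (a (l 3) (b (a (l 3) (b (l 6) (a (a (l 3) (b (l 6) (b (a (l 3) (a (b (l 3) (l 370608735703)) (b (l 341080808727) (l 268066364599)))) (a (b (l 3) (l 384567369671)) (a (b (l 279340656807) (l 16776848)) (l 16777480)))))) (a (b (l 6) (b (a (b (a (l 255718330119) (l 16789192)) (l 16791368)) (l 16788752)) (a (l 16794408) (l 16792536)))) (b (l 6) (l 16788336)))))) (b (b (a (l 3) (a (a (b (l 3) (b (l 405505352039) (l 284709375239))) (b (a (b (l 271824482135) (l 261087048663)) (l 16780048)) (a (b (l 16786120) (l 16810208)) (l 16806672))))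 (a (b (l 16798072) (l 16803576)) (l 16797328)))) (a (l 3) (a (a (b (a (l 397452328919) (l 249275890711)) (a (b (l 257328986919) (l 252497154775)) (l 16784760))) (b (a (l 16815560) (l 16813344)) (l 16822528))) (a (b (l 16810016) (l 16817592)) (l 16809928))))) (a (a (l 3) (b (a (l 3) (c (b (l 311016115847) (a (l 297057475047) (l 266455818327))) (b (a (l 3) (l 279877588951)) (a (l 297594371031) (l 261623990903))))) (a (b (l 3) (a (l 3) (b (l 225653570327) (l 200420638055)))) (a (b (c (l 238538475911) (l 238538507159)) (c (l 16835824) (l 16833248))) (b (b (l 16799048) (l 16845856)) (l 16833440)))))) (a (b (a (a (b (b (l 16812568) (l 16837432)) (l 16822584)) (b (l 16837704) (l 16850864))) (b (l 16832344) (l 16843984))) (a (b (a (l 16852728) (l 16861872)) (l 16848488)) (b (l 16856696) (l 16870112)))) (b (a (l 16831880) (l 16825560)) (a (l 16853608) (l 16844336))))))))), by decide +kernel⟩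

def k1_pm_213 : ∃ t, chk3 f_pm_213 t 2 3 1 = true :=
  ⟨(b (l 3) (l 3)), by decide +kernel⟩

def k2_pm_213 : ∃ t, chk3 f_pm_213 t 3 6 1 = true :=
  ⟨(b (a (l 3) (a (b (b (a (l 3) (a (c (l 159618433287) (a (l 195051978791) (l 16815392))) (a (l 16825000) (l 16867168)))) (a (l 3) (a (a (b (l 147807282519) (l 136532971127)) (b (l 16832400) (l 16835992))) (b (l 16871040) (l 16875800))))) (a (a (l 3) (b (a (l 3) (b (l 208473783415) (a (l 16818072) (l 16821808)))) (b (a (l 243907223623) (l 16812920)) (a (l 16779456) (l 16807856))))) (a (b (b (a (l 16796240) (l 16850960)) (a (l 16830880) (l 16843376))) (b (l 16768040) (l 16825512))) (b (l 16824864) (l 16811792))))) (b (a (b (a (l 16883016) (l 16883440)) (a (l 16896992) (l 16898696))) (b (l 16866176) (l 16878024))) (a (b (a (l 16892848) (l 16918416)) (a (l 16881104) (l 16906544))) (l 16927664))))) (a (a (l 3) (b (l 3) (a (l 3) (b (l 3) (a (l 3) (b (l 120426639831) (l 106467929527))))))) (a (b (a (b (a (l 242296572263)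 (b (l 148344191095) (l 16792600))) (a (a (l 3) (l 147270367271)) (l 16779960))) (b (a (l 16817992) (l 16843424)) (a (l 16803960) (l 16830832)))) (a (b (a (b (l 16721208) (l 16726216)) (l 16756512)) (a (b (l 16708880) (l 16690096)) (l 16724920))) (b (a (l 16781936) (l 16809752)) (a (l 16753000) (l 16780216))))) (b (a (b (a (l 16870296) (l 16897336)) (l 16848480)) (l 16937096)) (a (l 16821224) (l 16908240)))))), by decide +kernel⟩

def k3_pm_213 : ∃ t, chk3 f_pm_213 t 3 14 1 = true :=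
  ⟨(a (a (l 3) (a (b (l 3) (b (l 3) (b (l 3) (l 169281752679)))) (b (b (a (l 3) (b (l 92509227287) (c (l 16651200) (l 81771758951)))) (b (a (l 3) (b (b (c (l 16639080) (l 73181761255)) (c (l 16649904) (l 16604648))) (c (l 16676240) (c (l 16650408) (l 16608896))))) (b (a (l 3) (c (l 16707800) (c (l 16687488) (l 16672360)))) (b (c (l 93046266951) (a (l 107004923527) (l 16705136))) (a (l 102173102871) (l 16716176)))))) (b (b (a (b (l 95193762871) (l 87677530407)) (b (l 16698120) (l 16675488))) (a (l 110226049639) (l 16642472))) (b (b (l 16603592) (l 16586616)) (l 16595528)))))) (b (b (a (a (b (l 16620600) (l 16599368)) (a (l 16717072) (l 16747056))) (b (l 16800608) (l 16762960))) (a (a (b (b (b (a (l 16635920) (l 16663408)) (l 16602848)) (c (l 16715096) (l 16631616))) (b (c (l 16749464) (l 16670320)) (b (b (l 16749208) (l 16755808)) (l 16751232)))) (b (b (b (a (l 16693328) (l 16725528)) (l 16703160)) (a (l 16748336) (l 16782248))) (b (a (l 16779928) (l 16822616))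 (c (l 16837128) (l 16797312))))) (b (a (c (l 16805904) (l 16689120)) (a (l 16782808) (l 16821688))) (b (b (l 16852648) (l 16861040)) (a (l 16899688) (l 17016368)))))) (a (b (a (b (b (c (l 16745128) (l 16715280)) (l 16705880)) (a (l 16657672) (l 16677328))) (b (l 16776224) (l 16715128))) (a (b (b (l 16629504) (l 16609536)) (l 16614480)) (b (l 16657016) (l 16647008)))) (b (b (a (l 16865416) (l 16996000)) (l 16819872)) (b (b (l 16775928) (l 16741936)) (l 16736728)))))), by decide +kernel⟩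

def k4_pm_213 : ∃ t, chk3 f_pm_213 t 3 15 1 = true :=
  ⟨(b (a (a (l 3) (b (a (b (b (l 167671214903) (l 145659510119)) (l 144585725367)) (b (b (l 16594168) (l 16580584)) (l 16561728))) (a (a (l 3) (l 146196338359)) (a (l 16528008) (l 16532024))))) (b (a (a (b (l 16601288) (l 16570680)) (l 16651720)) (b (l 16704168) (l 16648784))) (a (a (b (l 16545080) (l 16524632)) (l 16545264)) (l 16578400)))) (a (l 1) (a (b (l 16500816) (l 1)) (a (l 16482160) (l 16487224))))), by decide +kernel⟩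

theorem s5_pm_213 : ∃ t, chk3 f_pm_213 t 3 7 1 = true := ex3_b k3_pm_213 k4_pm_213

theorem s6_pm_213 : ∃ t, chk3 f_pm_213 t 3 3 1 = true := ex3_b k2_pm_213 s5_pm_213

theorem s7_pm_213 : ∃ t, chk3 f_pm_213 t 1 3 1 = true := ex3_a k1_pm_213 s6_pm_213

theorem s8_pm_213 : ∃ t, chk3 f_pm_213 t 1 1 1 = true := ex3_b k0_pm_213 s7_pm_213

theorem c_pm_213 : CertB 0 536870912 0 1230186008 697932185 42949674 3 eng mog cd0q2 cd5q3 pd1 false true false .pnn 2 1 3
    ndB0q2 ndB5q3 pcB1 cut_pm_213 Ext.none :=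
  certB0 (fam := false) (s1 := true) (s2 := false) (a := 2) (b := 1) (c := 3) (cn := .pnn) (n1 := ndB0q2) (n2 := ndB5q3) (pc := pcB1) (cut := cut_pm_213) (xt := Ext.none) (P1 := 0) (W1 := 536870912) (P2 := 0) (W2 := 1230186008) (P3 := 697932185) (W3 := 42949674) (N0 := 3) (En := eng) (mo := mog) (C1 := cd0q2) (C2 := cd5q3) (C3 := pd1)
    rfl s8_pm_213

noncomputable def f_mm_001 : ℕ → ℕ → ℕ → ℕ → Bool := onCell 0 536870912 0 536870912 697932185 42949674
    (rowB 3 eng mog cd0q0 cd5q1 pd0 1 false false false .up 0 0 1 (qsf 0 536870912 536870912 536870912 0) ndB0q0 ndB5q1 pcB0 Cut.none Ext.none)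

def k0_mm_001 : ∃ t, chk3 f_mm_001 t 1 1 1 = true :=
  ⟨(l 3), by decide +kernel⟩

theorem c_mm_001 : CertB 0 536870912 536870912 536870912 697932185 42949674 3 eng mog cd0q0 cd5q1 pd0 false false false .up 0 0 1
    ndB0q0 ndB5q1 pcB0 Cut.none Ext.none :=
  certB1 (fam := false) (s1 := false) (s2 := false) (a := 0) (b := 0) (c := 1) (cn := .up) (n1 := ndB0q0) (n2 := ndB5q1) (pc := pcB0) (cut := Cut.none) (xt := Ext.none) (P1 := 0) (W1 := 536870912) (P2 := 536870912) (W2 := 536870912) (P3 := 697932185) (W3 := 42949674) (N0 := 3) (En := eng) (mo := mog) (C1 := cd0q0) (C2 := cd5q1) (C3 := pd0)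
    rfl (fun _ => rfl) k0_mm_001

noncomputable def f_mm_011 : ℕ → ℕ → ℕ → ℕ → Bool := onCell 0 536870912 536870912 536870912 697932185 42949674
    (rowB 3 eng mog cd0q0 cd5q1 pd1 1 false false false .pnn 0 1 1 (qsf 0 536870912 536870912 536870912 1) ndB0q0 ndB5q1 pcB1 Cut.none Ext.none)

def k0_mm_011 : ∃ t, chk3 f_mm_011 t 1 1 1 = true :=
  ⟨(l 5), by decide +kernel⟩

theorem c_mm_011 : CertB 0 536870912 536870912 536870912 697932185 42949674 3 eng mog cd0q0 cd5q1 pd1 false false false .pnn 0 1 1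
    ndB0q0 ndB5q1 pcB1 Cut.none Ext.none :=
  certB1 (fam := false) (s1 := false) (s2 := false) (a := 0) (b := 1) (c := 1) (cn := .pnn) (n1 := ndB0q0) (n2 := ndB5q1) (pc := pcB1) (cut := Cut.none) (xt := Ext.none) (P1 := 0) (W1 := 536870912) (P2 := 536870912) (W2 := 536870912) (P3 := 697932185) (W3 := 42949674) (N0 := 3) (En := eng) (mo := mog) (C1 := cd0q0) (C2 := cd5q1) (C3 := pd1)
    rfl (fun _ => rfl) k0_mm_011

noncomputable def f_mm_012 : ℕ → ℕ → ℕ → ℕ → Bool := onCell 0 536870912 1073741824 536870912 697932185 42949674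
    (rowB 3 eng mog cd0q0 cd5q2 pd1 0 false false false .pnp 0 1 2 (qsf 0 536870912 1073741824 536870912 1) ndB0q0 ndB5q2 pcB1 Cut.none Ext.none)

def k0_mm_012 : ∃ t, chk3 f_mm_012 t 1 1 1 = true :=
  ⟨(l 5), by decide +kernel⟩

theorem c_mm_012 : CertB 0 536870912 1073741824 536870912 697932185 42949674 3 eng mog cd0q0 cd5q2 pd1 false false false .pnp 0 1 2
    ndB0q0 ndB5q2 pcB1 Cut.none Ext.none :=
  certB0 (fam := false) (s1 := false) (s2 := false) (a := 0) (b := 1) (c := 2) (cn := .pnp) (n1 := ndB0q0) (n2 := ndB5q2) (pc := pcB1) (cut := Cut.none) (xt := Ext.none) (P1 := 0) (W1 := 536870912) (P2 := 1073741824) (W2 := 536870912) (P3 := 697932185) (W3 := 42949674) (N0 := 3) (En := eng) (mo := mog) (C1 := cd0q0) (C2 := cd5q2) (C3 := pd1)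
    rfl k0_mm_012

noncomputable def f_mm_022 : ℕ → ℕ → ℕ → ℕ → Bool := onCell 0 536870912 1073741824 536870912 697932185 42949674
    (rowB 3 eng mog cd0q0 cd5q2 pd2 0 false false false .pp 0 2 2 (qsf 0 536870912 1073741824 536870912 2) ndB0q0 ndB5q2 pcB2 Cut.none Ext.none)

def k0_mm_022 : ∃ t, chk3 f_mm_022 t 1 1 1 = true :=
  ⟨(l 5), by decide +kernel⟩

theorem c_mm_022 : CertB 0 536870912 1073741824 536870912 697932185 42949674 3 eng mog cd0q0 cd5q2 pd2 false false false .pp 0 2 2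
    ndB0q0 ndB5q2 pcB2 Cut.none Ext.none :=
  certB0 (fam := false) (s1 := false) (s2 := false) (a := 0) (b := 2) (c := 2) (cn := .pp) (n1 := ndB0q0) (n2 := ndB5q2) (pc := pcB2) (cut := Cut.none) (xt := Ext.none) (P1 := 0) (W1 := 536870912) (P2 := 1073741824) (W2 := 536870912) (P3 := 697932185) (W3 := 42949674) (N0 := 3) (En := eng) (mo := mog) (C1 := cd0q0) (C2 := cd5q2) (C3 := pd2)
    rfl k0_mm_022

noncomputable def f_mm_023 : ℕ → ℕ → ℕ → ℕ → Bool := onCell 0 536870912 0 1230186008 697932185 42949674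
    (rowB 3 eng mog cd0q0 cd5q3 pd2 0 false false false .up 0 2 3 (qsf 0 536870912 0 1230186008 2) ndB0q0 ndB5q3 pcB2 Cut.none Ext.none)

def k0_mm_023 : ∃ t, chk3 f_mm_023 t 1 1 1 = true :=
  ⟨(l 5), by decide +kernel⟩

theorem c_mm_023 : CertB 0 536870912 0 1230186008 697932185 42949674 3 eng mog cd0q0 cd5q3 pd2 false false false .up 0 2 3
    ndB0q0 ndB5q3 pcB2 Cut.none Ext.none :=
  certB0 (fam := false) (s1 := false) (s2 := false) (a := 0) (b := 2) (c := 3) (cn := .up) (n1 := ndB0q0) (n2 := ndB5q3) (pc := pcB2) (cut := Cut.none) (xt := Ext.none) (P1 := 0) (W1 := 536870912) (P2 := 0) (W2 := 1230186008) (P3 := 697932185) (W3 := 42949674) (N0 := 3) (En := eng) (mo := mog) (C1 := cd0q0) (C2 := cd5q3) (C3 := pd2)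
    rfl k0_mm_023

noncomputable def f_mm_033 : ℕ → ℕ → ℕ → ℕ → Bool := onCell 0 536870912 0 1230186008 697932185 42949674
    (rowB 3 eng mog cd0q0 cd5q3 pd3 0 false false false .pnn 0 3 3 (qsf 0 536870912 0 1230186008 3) ndB0q0 ndB5q3 pcB3 Cut.none Ext.none)

def k0_mm_033 : ∃ t, chk3 f_mm_033 t 1 1 1 = true :=
  ⟨(l 5), by decide +kernel⟩

theorem c_mm_033 : CertB 0 536870912 0 1230186008 697932185 42949674 3 eng mog cd0q0 cd5q3 pd3 false false false .pnn 0 3 3
    ndB0q0 ndB5q3 pcB3 Cut.none Ext.none :=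
  certB0 (fam := false) (s1 := false) (s2 := false) (a := 0) (b := 3) (c := 3) (cn := .pnn) (n1 := ndB0q0) (n2 := ndB5q3) (pc := pcB3) (cut := Cut.none) (xt := Ext.none) (P1 := 0) (W1 := 536870912) (P2 := 0) (W2 := 1230186008) (P3 := 697932185) (W3 := 42949674) (N0 := 3) (En := eng) (mo := mog) (C1 := cd0q0) (C2 := cd5q3) (C3 := pd3)
    rfl k0_mm_033

noncomputable def cut_mm_101 : Cut := Cut.of [[⟨0, 1, 0, 67108864⟩, ⟨1, 0, 0, 67108864⟩, ⟨2, 1, 0, 67108864⟩]]

noncomputable def f_mm_101 : ℕ → ℕ → ℕ → ℕ → Bool := onCell 536870912 536870912 0 536870912 697932185 42949674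
    (rowB 3 eng mog cd0q1 cd5q1 pd0 1 false false false .npn 1 0 1 (qsf 536870912 536870912 536870912 536870912 0) ndB0q1 ndB5q1 pcB0 cut_mm_101 Ext.none)

def k0_mm_101 : ∃ t, chk3 f_mm_101 t 1 1 1 = true :=
  ⟨(a (l 3) (b (a (l 3) (b (a (l 3) (b (a (l 3) (b (l 6) (l 3))) (l 3))) (l 3))) (l 3))), by decide +kernel⟩

theorem c_mm_101 : CertB 536870912 536870912 536870912 536870912 697932185 42949674 3 eng mog cd0q1 cd5q1 pd0 false false false .npn 1 0 1
    ndB0q1 ndB5q1 pcB0 cut_mm_101 Ext.none :=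
  certB1 (fam := false) (s1 := false) (s2 := false) (a := 1) (b := 0) (c := 1) (cn := .npn) (n1 := ndB0q1) (n2 := ndB5q1) (pc := pcB0) (cut := cut_mm_101) (xt := Ext.none) (P1 := 536870912) (W1 := 536870912) (P2 := 536870912) (W2 := 536870912) (P3 := 697932185) (W3 := 42949674) (N0 := 3) (En := eng) (mo := mog) (C1 := cd0q1) (C2 := cd5q1) (C3 := pd0)
    rfl (fun _ => rfl) k0_mm_101

noncomputable def f_mm_102 : ℕ → ℕ → ℕ → ℕ → Bool := onCell 536870912 536870912 1073741824 536870912 697932185 42949674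
    (rowB 3 eng mog cd0q1 cd5q2 pd0 0 false false false .npp 1 0 2 (qsf 536870912 536870912 1073741824 536870912 0) ndB0q1 ndB5q2 pcB0 Cut.none Ext.none)

def k0_mm_102 : ∃ t, chk3 f_mm_102 t 1 1 1 = true :=
  ⟨(l 3), by decide +kernel⟩

theorem c_mm_102 : CertB 536870912 536870912 1073741824 536870912 697932185 42949674 3 eng mog cd0q1 cd5q2 pd0 false false false .npp 1 0 2
    ndB0q1 ndB5q2 pcB0 Cut.none Ext.none :=
  certB0 (fam := false) (s1 := false) (s2 := false) (a := 1) (b := 0) (c := 2) (cn := .npp) (n1 := ndB0q1) (n2 := ndB5q2) (pc := pcB0) (cut := Cut.none) (xt := Ext.none) (P1 := 536870912) (W1 := 536870912) (P2 := 1073741824) (W2 := 536870912) (P3 := 697932185) (W3 := 42949674) (N0 := 3) (En := eng) (mo := mog) (C1 := cd0q1) (C2 := cd5q2) (C3 := pd0)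
    rfl k0_mm_102

noncomputable def f_mm_112 : ℕ → ℕ → ℕ → ℕ → Bool := onCell 536870912 536870912 1073741824 536870912 697932185 42949674
    (rowB 3 eng mog cd0q1 cd5q2 pd1 0 false false false .dn 1 1 2 (qsf 536870912 536870912 1073741824 536870912 1) ndB0q1 ndB5q2 pcB1 Cut.none Ext.none)

def k0_mm_112 : ∃ t, chk3 f_mm_112 t 1 1 1 = true :=
  ⟨(l 3), by decide +kernel⟩

theorem c_mm_112 : CertB 536870912 536870912 1073741824 536870912 697932185 42949674 3 eng mog cd0q1 cd5q2 pd1 false false false .dn 1 1 2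
    ndB0q1 ndB5q2 pcB1 Cut.none Ext.none :=
  certB0 (fam := false) (s1 := false) (s2 := false) (a := 1) (b := 1) (c := 2) (cn := .dn) (n1 := ndB0q1) (n2 := ndB5q2) (pc := pcB1) (cut := Cut.none) (xt := Ext.none) (P1 := 536870912) (W1 := 536870912) (P2 := 1073741824) (W2 := 536870912) (P3 := 697932185) (W3 := 42949674) (N0 := 3) (En := eng) (mo := mog) (C1 := cd0q1) (C2 := cd5q2) (C3 := pd1)
    rfl k0_mm_112

noncomputable def f_mm_113 : ℕ → ℕ → ℕ → ℕ → Bool := onCell 536870912 536870912 0 1230186008 697932185 42949674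
    (rowB 3 eng mog cd0q1 cd5q3 pd1 0 false false false .nn 1 1 3 (qsf 536870912 536870912 0 1230186008 1) ndB0q1 ndB5q3 pcB1 Cut.none Ext.none)

def k0_mm_113 : ∃ t, chk3 f_mm_113 t 1 1 1 = true :=
  ⟨(b (l 5) (b (l 5) (l 5))), by decide +kernel⟩

theorem c_mm_113 : CertB 536870912 536870912 0 1230186008 697932185 42949674 3 eng mog cd0q1 cd5q3 pd1 false false false .nn 1 1 3
    ndB0q1 ndB5q3 pcB1 Cut.none Ext.none :=
  certB0 (fam := false) (s1 := false) (s2 := false) (a := 1) (b := 1) (c := 3) (cn := .nn) (n1 := ndB0q1) (n2 := ndB5q3) (pc := pcB1) (cut := Cut.none) (xt := Ext.none) (P1 := 536870912) (W1 := 536870912) (P2 := 0) (W2 := 1230186008) (P3 := 697932185) (W3 := 42949674) (N0 := 3) (En := eng) (mo := mog) (C1 := cd0q1) (C2 := cd5q3) (C3 := pd1)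
    rfl k0_mm_113

noncomputable def f_mm_123 : ℕ → ℕ → ℕ → ℕ → Bool := onCell 1073741824 536870912 0 1230186008 697932185 42949674
    (rowB 3 eng mog cd0q1 cd5q3 pd2 2 false false false .npn 1 2 3 (qsf 536870912 536870912 0 1230186008 2) ndB0q1 ndB5q3 pcB2 Cut.none Ext.none)

def k0_mm_123 : ∃ t, chk3 f_mm_123 t 1 1 1 = true :=
  ⟨(b (l 5) (l 5)), by decide +kernel⟩

theorem c_mm_123 : CertB 536870912 536870912 0 1230186008 697932185 42949674 3 eng mog cd0q1 cd5q3 pd2 false false false .npn 1 2 3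
    ndB0q1 ndB5q3 pcB2 Cut.none Ext.none :=
  certB2 (fam := false) (s1 := false) (s2 := false) (a := 1) (b := 2) (c := 3) (cn := .npn) (n1 := ndB0q1) (n2 := ndB5q3) (pc := pcB2) (cut := Cut.none) (xt := Ext.none) (P1 := 536870912) (W1 := 536870912) (P2 := 0) (W2 := 1230186008) (P3 := 697932185) (W3 := 42949674) (N0 := 3) (En := eng) (mo := mog) (C1 := cd0q1) (C2 := cd5q3) (C3 := pd2)
    rfl (fun _ => rfl) k0_mm_123

noncomputable def f_mm_133 : ℕ → ℕ → ℕ → ℕ → Bool := onCell 1610612736 536870912 0 1230186008 697932185 42949674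
    (rowB 3 eng mog cd0q1 cd5q3 pd3 2 false false false .dn 1 3 3 (qsf 536870912 536870912 0 1230186008 3) ndB0q1 ndB5q3 pcB3 Cut.none Ext.none)

def k0_mm_133 : ∃ t, chk3 f_mm_133 t 1 1 1 = true :=
  ⟨(l 5), by decide +kernel⟩

theorem c_mm_133 : CertB 536870912 536870912 0 1230186008 697932185 42949674 3 eng mog cd0q1 cd5q3 pd3 false false false .dn 1 3 3
    ndB0q1 ndB5q3 pcB3 Cut.none Ext.none :=
  certB2 (fam := false) (s1 := false) (s2 := false) (a := 1) (b := 3) (c := 3) (cn := .dn) (n1 := ndB0q1) (n2 := ndB5q3) (pc := pcB3) (cut := Cut.none) (xt := Ext.none) (P1 := 536870912) (W1 := 536870912) (P2 := 0) (W2 := 1230186008) (P3 := 697932185) (W3 := 42949674) (N0 := 3) (En := eng) (mo := mog) (C1 := cd0q1) (C2 := cd5q3) (C3 := pd3)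
    rfl (fun _ => rfl) k0_mm_133

noncomputable def f_mm_202 : ℕ → ℕ → ℕ → ℕ → Bool := onCell 0 536870912 1073741824 536870912 697932185 42949674
    (rowB 3 eng mog cd0q2 cd5q2 pd0 0 false false false .pp 2 0 2 (qsf 0 536870912 1073741824 536870912 0) ndB0q2 ndB5q2 pcB0 Cut.none Ext.none)

def k0_mm_202 : ∃ t, chk3 f_mm_202 t 1 1 1 = true :=
  ⟨(l 3), by decide +kernel⟩

theorem c_mm_202 : CertB 0 536870912 1073741824 536870912 697932185 42949674 3 eng mog cd0q2 cd5q2 pd0 false false false .pp 2 0 2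
    ndB0q2 ndB5q2 pcB0 Cut.none Ext.none :=
  certB0 (fam := false) (s1 := false) (s2 := false) (a := 2) (b := 0) (c := 2) (cn := .pp) (n1 := ndB0q2) (n2 := ndB5q2) (pc := pcB0) (cut := Cut.none) (xt := Ext.none) (P1 := 0) (W1 := 536870912) (P2 := 1073741824) (W2 := 536870912) (P3 := 697932185) (W3 := 42949674) (N0 := 3) (En := eng) (mo := mog) (C1 := cd0q2) (C2 := cd5q2) (C3 := pd0)
    rfl k0_mm_202

noncomputable def f_mm_203 : ℕ → ℕ → ℕ → ℕ → Bool := onCell 0 536870912 0 1230186008 697932185 42949674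
    (rowB 3 eng mog cd0q2 cd5q3 pd0 0 false false false .up 2 0 3 (qsf 0 536870912 0 1230186008 0) ndB0q2 ndB5q3 pcB0 Cut.none Ext.none)

def k0_mm_203 : ∃ t, chk3 f_mm_203 t 1 1 1 = true :=
  ⟨(b (l 2) (l 3)), by decide +kernel⟩

theorem c_mm_203 : CertB 0 536870912 0 1230186008 697932185 42949674 3 eng mog cd0q2 cd5q3 pd0 false false false .up 2 0 3
    ndB0q2 ndB5q3 pcB0 Cut.none Ext.none :=
  certB0 (fam := false) (s1 := false) (s2 := false) (a := 2) (b := 0) (c := 3) (cn := .up) (n1 := ndB0q2) (n2 := ndB5q3) (pc := pcB0) (cut := Cut.none) (xt := Ext.none) (P1 := 0) (W1 := 536870912) (P2 := 0) (W2 := 1230186008) (P3 := 697932185) (W3 := 42949674) (N0 := 3) (En := eng) (mo := mog) (C1 := cd0q2) (C2 := cd5q3) (C3 := pd0)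
    rfl k0_mm_203

noncomputable def f_mm_213 : ℕ → ℕ → ℕ → ℕ → Bool := onCell 0 536870912 0 1230186008 697932185 42949674
    (rowB 3 eng mog cd0q2 cd5q3 pd1 0 false false false .pnn 2 1 3 (qsf 0 536870912 0 1230186008 1) ndB0q2 ndB5q3 pcB1 Cut.none Ext.none)

def k0_mm_213 : ∃ t, chk3 f_mm_213 t 1 1 1 = true :=
  ⟨(b (a (l 3) (l 5)) (l 3)), by decide +kernel⟩

theorem c_mm_213 : CertB 0 536870912 0 1230186008 697932185 42949674 3 eng mog cd0q2 cd5q3 pd1 false false false .pnn 2 1 3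
    ndB0q2 ndB5q3 pcB1 Cut.none Ext.none :=
  certB0 (fam := false) (s1 := false) (s2 := false) (a := 2) (b := 1) (c := 3) (cn := .pnn) (n1 := ndB0q2) (n2 := ndB5q3) (pc := pcB1) (cut := Cut.none) (xt := Ext.none) (P1 := 0) (W1 := 536870912) (P2 := 0) (W2 := 1230186008) (P3 := 697932185) (W3 := 42949674) (N0 := 3) (En := eng) (mo := mog) (C1 := cd0q2) (C2 := cd5q3) (C3 := pd1)
    rfl k0_mm_213

end Pool.Agent.Strip051.G.I6500_6900.Tab.C.BB05

namespace Pool.Agent.Strip051.G.I6500_6900.Tab.C.BB06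

open Pool.Agent.Strip051.PB Pool.Agent.Strip051.PB.T
open Pool.Agent.Strip051.G.I6500_6900.Tab

noncomputable def f_pp_001 : ℕ → ℕ → ℕ → ℕ → Bool := onCell 0 536870912 0 536870912 697932185 42949674
    (rowB 3 eng mog cd0q0 cd6q1 pd0 1 false true true .up 0 0 1 (qsf 0 536870912 536870912 536870912 0) ndB0q0 ndB6q1 pcB0 Cut.none Ext.none)

def k0_pp_001 : ∃ t, chk3 f_pp_001 t 1 1 1 = true :=
  ⟨(l 3), by decide +kernel⟩

theorem c_pp_001 : CertB 0 536870912 536870912 536870912 697932185 42949674 3 eng mog cd0q0 cd6q1 pd0 false true true .up 0 0 1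
    ndB0q0 ndB6q1 pcB0 Cut.none Ext.none :=
  certB1 (fam := false) (s1 := true) (s2 := true) (a := 0) (b := 0) (c := 1) (cn := .up) (n1 := ndB0q0) (n2 := ndB6q1) (pc := pcB0) (cut := Cut.none) (xt := Ext.none) (P1 := 0) (W1 := 536870912) (P2 := 536870912) (W2 := 536870912) (P3 := 697932185) (W3 := 42949674) (N0 := 3) (En := eng) (mo := mog) (C1 := cd0q0) (C2 := cd6q1) (C3 := pd0)
    rfl (fun _ => rfl) k0_pp_001

noncomputable def cut_pp_011 : Cut := Cut.of [[⟨0, 0, 0, 67108864⟩, ⟨1, 1, 0, 67108864⟩, ⟨2, 1, 0, 67108864⟩]]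

noncomputable def f_pp_011 : ℕ → ℕ → ℕ → ℕ → Bool := onCell 0 536870912 536870912 536870912 697932185 42949674
    (rowB 3 eng mog cd0q0 cd6q1 pd1 1 false true true .pnn 0 1 1 (qsf 0 536870912 536870912 536870912 1) ndB0q0 ndB6q1 pcB1 cut_pp_011 Ext.none)

def k0_pp_011 : ∃ t, chk3 f_pp_011 t 1 1 1 = true :=
  ⟨(b (l 3) (a (b (l 3) (a (b (l 3) (a (b (l 3) (a (l 6) (l 3))) (l 3))) (l 3))) (l 3))), by decide +kernel⟩

theorem c_pp_011 : CertB 0 536870912 536870912 536870912 697932185 42949674 3 eng mog cd0q0 cd6q1 pd1 false true true .pnn 0 1 1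
    ndB0q0 ndB6q1 pcB1 cut_pp_011 Ext.none :=
  certB1 (fam := false) (s1 := true) (s2 := true) (a := 0) (b := 1) (c := 1) (cn := .pnn) (n1 := ndB0q0) (n2 := ndB6q1) (pc := pcB1) (cut := cut_pp_011) (xt := Ext.none) (P1 := 0) (W1 := 536870912) (P2 := 536870912) (W2 := 536870912) (P3 := 697932185) (W3 := 42949674) (N0 := 3) (En := eng) (mo := mog) (C1 := cd0q0) (C2 := cd6q1) (C3 := pd1)
    rfl (fun _ => rfl) k0_pp_011

noncomputable def f_pp_012 : ℕ → ℕ → ℕ → ℕ → Bool := onCell 0 536870912 536870912 536870912 697932185 42949674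
    (rowB 3 eng mog cd0q0 cd6q2 pd1 1 false true true .pnp 0 1 2 (qsf 0 536870912 1073741824 536870912 1) ndB0q0 ndB6q2 pcB1 Cut.none Ext.none)

def k0_pp_012 : ∃ t, chk3 f_pp_012 t 1 1 1 = true :=
  ⟨(l 3), by decide +kernel⟩

theorem c_pp_012 : CertB 0 536870912 1073741824 536870912 697932185 42949674 3 eng mog cd0q0 cd6q2 pd1 false true true .pnp 0 1 2
    ndB0q0 ndB6q2 pcB1 Cut.none Ext.none :=
  certB1 (fam := false) (s1 := true) (s2 := true) (a := 0) (b := 1) (c := 2) (cn := .pnp) (n1 := ndB0q0) (n2 := ndB6q2) (pc := pcB1) (cut := Cut.none) (xt := Ext.none) (P1 := 0) (W1 := 536870912) (P2 := 1073741824) (W2 := 536870912) (P3 := 697932185) (W3 := 42949674) (N0 := 3) (En := eng) (mo := mog) (C1 := cd0q0) (C2 := cd6q2) (C3 := pd1)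
    rfl (fun _ => rfl) k0_pp_012

noncomputable def f_pp_022 : ℕ → ℕ → ℕ → ℕ → Bool := onCell 0 536870912 1073741824 536870912 697932185 42949674
    (rowB 3 eng mog cd0q0 cd6q2 pd2 1 false true true .pp 0 2 2 (qsf 0 536870912 1073741824 536870912 2) ndB0q0 ndB6q2 pcB2 Cut.none Ext.none)

def k0_pp_022 : ∃ t, chk3 f_pp_022 t 1 4 1 = true :=
  ⟨(a (l 3) (l 3)), by decide +kernel⟩

def k1_pp_022 : ∃ t, chk3 f_pp_022 t 2 20 1 = true :=
  ⟨(b (l 3) (b (l 3) (a (b (l 3) (a (b (b (l 3) (b (a (a (l 16426624) (l 3)) (l 3)) (a (a (l 16383576) (l 16450064)) (a (l 16461248) (l 3))))) (b (b (b (a (a (l 16424656) (l 16449600)) (a (l 16460776) (l 16470640))) (b (a (a (l 16445160) (l 16449344)) (a (l 16460520) (l 16470384))) (a (a (l 16444816) (l 16449136)) (a (l 16460312) (l 16470184))))) (a (a (l 16444088) (l 16448720)) (a (l 16459872) (l 16469720)))) (a (a (l 16400472) (l 16447736)) (a (l 16458832) (l 16468616))))) (b (l 3) (b (b (b (a (l 3445804750631) (l 3)) (b (a (a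 (l 16476040) (l 16479696)) (l 3)) (a (a (l 16475744) (l 16479416)) (l 16486776)))) (a (a (l 16475008) (l 16478704)) (l 16486112))) (a (a (l 16473232) (l 16477016)) (l 16484536)))))) (b (l 3) (a (b (b (l 3) (b (l 3) (a (l 3) (a (l 16513488) (c (l 16524544) (l 16519792)))))) (b (b (b (a (a (l 3) (l 16504216)) (a (l 16512784) (l 16521944))) (b (a (a (l 16496400) (l 16503856)) (a (l 16512448) (l 16521624))) (a (a (l 16496152) (l 16503624)) (a (l 16512240) (l 16521424))))) (a (a (l 16495544) (l 16503040)) (a (l 16511688) (l 16520880)))) (a (a (l 16494072) (l 16501640)) (a (l 16510360) (l 16519568))))) (b (b (a (l 3) (l 16557856)) (a (a (c (l 16555848) (l 16529320)) (l 16542328)) (c (l 16559864) (l 16552384)))) (b (b (b (a (a (l 16531392) (l 16541312)) (l 16555472)) (b (a (a (l 16531096) (l 16541056)) (l 16555264)) (a (l 16535680) (l 16555176)))) (a (l 16535184) (l 16554760))) (a (l 16533984) (l 16553712))))))))), by decide +kernel⟩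

def k2_pp_022 : ∃ t, chk3 f_pp_022 t 2 21 1 = true :=
  ⟨(a (a (a (b (a (a (l 16425592) (l 16428312)) (b (l 16441736) (l 16430656))) (c (l 16405896) (l 16402728))) (b (a (l 16446680) (l 16450016)) (l 16452272))) (a (a (b (l 16453408) (l 16417392)) (b (l 16458064) (l 16423648))) (a (a (l 16466352) (l 16469792)) (b (l 16470240) (l 16438920))))) (a (a (a (b (l 16498568) (l 16447776)) (b (l 16485976) (c (l 16482320) (l 16452152)))) (b (a (b (c (l 16504840) (l 16498920)) (l 16488144)) (c (l 16528912) (l 16500600))) (a (l 16466960) (l 16477752)))) (a (a (b (l 16515240) (l 16490128)) (l 16535352)) (b (l 16541936) (l 16520896))))), by decide +kernel⟩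

def k3_pp_022 : ∃ t, chk3 f_pp_022 t 2 11 1 = true :=
  ⟨(a (a (a (b (a (l 16343624) (l 16347904)) (l 16293600)) (b (a (l 16352944) (l 16359088)) (l 16289504))) (a (b (a (l 16366568) (l 16375184)) (a (l 16304984) (l 16358304))) (b (a (l 16384672) (b (l 16409208) (l 16380728))) (a (b (l 16341936) (l 16314888)) (l 16340104))))) (a (a (b (a (b (l 16419080) (l 16391200)) (b (l 16429072) (l 16402432))) (l 16359840)) (b (b (l 16446112) (l 16422224)) (l 16390720))) (a (b (l 16463264) (l 16426752)) (b (l 16492648) (l 16462152))))), by decide +kernel⟩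

def k4_pp_022 : ∃ t, chk3 f_pp_022 t 3 5 1 = true :=
  ⟨(b (b (b (a (l 3) (a (l 3) (l 2))) (a (b (a (l 3) (a (l 3) (b (l 3) (l 104790317943)))) (b (a (a (b (l 3) (l 16575984)) (b (l 16594264) (l 16592608))) (a (b (l 16609776) (l 16608376)) (b (l 16617608) (l 16616456)))) (a (b (b (a (l 16574408) (l 16591024)) (a (l 16573168) (l 16590152))) (a (b (b (b (l 16572456) (l 16572352)) (l 16571944)) (l 16571016)) (l 16588904))) (b (b (a (l 16607152) (l 16615712)) (a (l 16606696) (l 16615432))) (a (l 16605744) (l 16614680)))))) (l 2))) (a (a (a (l 16551304) (l 16571520)) (a (l 16591160) (l 16602352))) (l 2))) (a (a (a (b (l 16518320) (l 16493184)) (b (l 16543904) (l 16524240))) (a (b (l 16568792) (l 2)) (l 2))) (l 2))), by decide +kernel⟩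

def k5_pp_022 : ∃ t, chk3 f_pp_022 t 1 3 1 = true :=
  ⟨(a (a (b (a (b (a (b (l 16207168) (l 16170296)) (b (a (l 16224456) (l 16236752)) (l 16178512))) (a (b (l 16099656) (l 16061976)) (l 16142440))) (b (a (b (b (l 16269376) (l 16244376)) (l 16211960)) (b (l 16286368) (l 16249640))) (a (l 16167144) (l 16215104)))) (b (a (a (l 16031080) (l 16089200)) (a (l 16147472) (l 16205224))) (a (a (l 16033600) (l 16100832)) (a (l 16166848) (l 2))))) (b (b (b (a (a (l 16319648) (l 16357208)) (a (l 16399384) (l 16440520))) (a (l 16374088) (l 16402952))) (a (a (l 16263792) (l 16315048)) (a (l 16369624) (l 2)))) (a (b (l 16292160) (l 2)) (l 2)))) (b (a (b (a (b (l 16602800) (l 2)) (l 2)) (l 2)) (l 2)) (l 2))), by decide +kernel⟩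

theorem s6_pp_022 : ∃ t, chk3 f_pp_022 t 2 10 1 = true := ex3_b k1_pp_022 k2_pp_022

theorem s7_pp_022 : ∃ t, chk3 f_pp_022 t 2 5 1 = true := ex3_b s6_pp_022 k3_pp_022

theorem s8_pp_022 : ∃ t, chk3 f_pp_022 t 1 5 1 = true := ex3_a s7_pp_022 k4_pp_022

theorem s9_pp_022 : ∃ t, chk3 f_pp_022 t 1 2 1 = true := ex3_b k0_pp_022 s8_pp_022

theorem s10_pp_022 : ∃ t, chk3 f_pp_022 t 1 1 1 = true := ex3_b s9_pp_022 k5_pp_022

theorem c_pp_022 : CertB 0 536870912 1073741824 536870912 697932185 42949674 3 eng mog cd0q0 cd6q2 pd2 false true true .pp 0 2 2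
    ndB0q0 ndB6q2 pcB2 Cut.none Ext.none :=
  certB1 (fam := false) (s1 := true) (s2 := true) (a := 0) (b := 2) (c := 2) (cn := .pp) (n1 := ndB0q0) (n2 := ndB6q2) (pc := pcB2) (cut := Cut.none) (xt := Ext.none) (P1 := 0) (W1 := 536870912) (P2 := 1073741824) (W2 := 536870912) (P3 := 697932185) (W3 := 42949674) (N0 := 3) (En := eng) (mo := mog) (C1 := cd0q0) (C2 := cd6q2) (C3 := pd2)
    rfl (fun _ => rfl) s10_pp_022

noncomputable def f_pp_023 : ℕ → ℕ → ℕ → ℕ → Bool := onCell 1073741824 536870912 0 1230186008 697932185 42949674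
    (rowB 3 eng mog cd0q0 cd6q3 pd2 2 false true true .up 0 2 3 (qsf 0 536870912 0 1230186008 2) ndB0q0 ndB6q3 pcB2 Cut.none Ext.none)

def k0_pp_023 : ∃ t, chk3 f_pp_023 t 2 1 1 = true :=
  ⟨(b (l 2) (a (b (l 2) (b (l 2) (l 3))) (b (a (l 2) (b (l 2) (b (l 2) (l 218070424247)))) (b (b (a (a (l 2) (l 489726712135)) (a (l 16660672) (l 16646008))) (b (a (a (l 2) (l 16655112)) (l 16630112)) (a (a (a (a (l 3) (l 117742351047)) (a (a (l 16665608) (l 16661400)) (a (l 16657800) (a (l 16654936) (l 16652560))))) (l 16625712)) (l 16622784)))) (a (a (a (b (a (l 3) (b (l 164449993975) (l 3))) (l 3)) (a (b (a (b (l 16639408) (l 16624064)) (b (l 16633464) (l 16624984))) (b (a (l 681456710023) (l 16693600)) (a (l 3) (a (l 16624552) (l 16623680))))) (b (a (b (l 16628432) (a (l 16626288) (l 16628048))) (b (a (l 16624552) (l 16621472)) (a (l 16629952) (l 16630272)))) (a (b (a (l 16629616) (l 16629600)) (a (l 16622728) (l 16621624))) (b (a (l 16629880) (l 16629352)) (a (a (l 16620888)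 (l 16620600)) (l 16619752))))))) (b (b (l 16621600) (l 16624152)) (b (a (l 16624792) (l 16612496)) (b (l 16608256) (l 16597424))))) (b (a (b (l 16617328) (l 16608464)) (b (l 16605832) (l 16586104))) (b (a (l 16591800) (l 16556240)) (a (l 16562800) (l 16517192))))))))), by decide +kernel⟩

def k1_pp_023 : ∃ t, chk3 f_pp_023 t 3 1 1 = true :=
  ⟨(b (a (l 2) (b (a (l 2) (l 16658856)) (b (l 245987866071) (a (l 16622528) (l 16681824))))) (b (a (b (a (l 2) (b (l 16690096) (l 16683696))) (a (b (l 16687904) (l 16663168)) (b (l 16659936) (l 16717416)))) (b (a (l 16688232) (b (l 16662192) (l 16638680))) (b (a (l 16644760) (a (l 16622704) (l 16597792))) (a (a (l 16608192) (l 16588496)) (a (l 16568568) (l 16542808)))))) (b (a (a (b (l 16750512) (a (l 16621664) (l 16596152))) (b (a (l 16611920) (l 16581952)) (a (l 16558072) (l 16517592)))) (a (b (a (l 16548912) (l 16513304)) (a (l 16472264) (l 16414712))) (b (a (l 16473840) (l 16434056)) (a (l 16360592) (l 16310328)))))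 (a (b (a (b (a (l 16586248) (l 16550192)) (l 16657936)) (b (l 16482288) (l 16430592))) (a (b (a (l 16512600) (l 16461736)) (a (l 16464464) (l 16406416))) (b (l 16374712) (l 16321248)))) (b (a (a (l 16367672) (l 16309016)) (b (l 16247720) (l 16194952))) (a (b (l 16259672) (l 16203016)) (b (l 16144600) (l 16096296)))))))), by decide +kernel⟩

theorem s2_pp_023 : ∃ t, chk3 f_pp_023 t 1 1 1 = true := ex3_a k0_pp_023 k1_pp_023

theorem c_pp_023 : CertB 0 536870912 0 1230186008 697932185 42949674 3 eng mog cd0q0 cd6q3 pd2 false true true .up 0 2 3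
    ndB0q0 ndB6q3 pcB2 Cut.none Ext.none :=
  certB2 (fam := false) (s1 := true) (s2 := true) (a := 0) (b := 2) (c := 3) (cn := .up) (n1 := ndB0q0) (n2 := ndB6q3) (pc := pcB2) (cut := Cut.none) (xt := Ext.none) (P1 := 0) (W1 := 536870912) (P2 := 0) (W2 := 1230186008) (P3 := 697932185) (W3 := 42949674) (N0 := 3) (En := eng) (mo := mog) (C1 := cd0q0) (C2 := cd6q3) (C3 := pd2)
    rfl (fun _ => rfl) s2_pp_023

noncomputable def f_pp_033 : ℕ → ℕ → ℕ → ℕ → Bool := onCell 1610612736 536870912 0 1230186008 697932185 42949674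
    (rowB 3 eng mog cd0q0 cd6q3 pd3 2 false true true .pnn 0 3 3 (qsf 0 536870912 0 1230186008 3) ndB0q0 ndB6q3 pcB3 Cut.none Ext.none)

def k0_pp_033 : ∃ t, chk3 f_pp_033 t 1 2 1 = true :=
  ⟨(b (a (a (a (l 16651752) (l 16830144)) (a (a (l 16561232) (l 16537056)) (l 16681584))) (a (a (l 66269764215) (l 4)) (l 4))) (b (a (a (a (l 16677048) (l 16593776)) (a (a (l 16543104) (l 16506704)) (l 16441864))) (a (a (l 16537896) (a (l 16331544) (l 4))) (l 4))) (a (a (a (l 16673208) (a (l 16586096) (l 16528928))) (a (a (a (l 16492192) (l 16476792)) (l 16476816)) (a (a (l 16506144) (l 16386608)) (l 16351232)))) (a (a (a (l 16310224) (l 16281872)) (a (l 16262496) (l 16222744))) (a (a (l 16196376) (l 4)) (l 4)))))), by decide +kernel⟩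

def k1_pp_033 : ∃ t, chk3 f_pp_033 t 1 3 1 = true :=
  ⟨(b (a (a (b (a (b (l 16624656) (l 16580904)) (b (l 16501752) (l 16443168))) (a (b (l 16526872) (a (l 16482784) (l 16412800))) (b (l 16375144) (l 16301880)))) (a (b (a (a (b (l 16414416) (l 16350056)) (b (l 16405960) (l 16338944))) (b (l 16346528) (a (l 16295744) (l 16247672)))) (a (b (a (l 16281504) (l 16267168)) (l 16174736)) (b (a (l 16227424) (l 16180864)) (a (l 16154072) (l 16114088))))) (a (b (a (b (l 16311112) (a (l 16224720) (l 16244128))) (b (l 16315104) (l 16471216))) (a (b (a (l 16154448) (l 16176288)) (a (l 16089648) (l 16104520))) (b (a (l 16202504) (l 16204144)) (a (l 16125048) (l 16124504))))) (b (b (l 16275128) (l 16220464)) (b (l 16163592) (l 16085520)))))) (a (a (b (b (a (l 16228136) (l 16194480)) (a (l 16166416) (l 16126984))) (a (b (l 16103488) (l 16210944)) (b (l 16052208) (l 109554076647)))) (b (a (b (l 16176912) (l 16101160)) (b (l 16172256) (l 16096072))) (a (b (l 228202674071) (l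 1)) (l 1)))) (a (b (a (b (l 16269520) (l 1)) (l 1)) (l 1)) (l 1)))) (a (a (b (a (b (a (l 16385736) (l 16321152)) (l 16246152)) (b (a (l 16250480) (l 16178328)) (l 16121608))) (b (a (b (l 16164752) (l 16111416)) (l 16020024)) (a (b (l 16056800) (l 15998896)) (b (l 15931944) (l 1))))) (a (b (a (b (l 16112280) (l 16020528)) (b (l 16059024) (l 15968904))) (b (a (l 15915472) (l 1)) (l 1))) (b (b (a (a (l 16021976) (a (l 16032344) (l 16025168))) (l 77878741751)) (l 1)) (l 1)))) (l 1))), by decide +kernel⟩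

theorem s2_pp_033 : ∃ t, chk3 f_pp_033 t 1 1 1 = true := ex3_b k0_pp_033 k1_pp_033

theorem c_pp_033 : CertB 0 536870912 0 1230186008 697932185 42949674 3 eng mog cd0q0 cd6q3 pd3 false true true .pnn 0 3 3
    ndB0q0 ndB6q3 pcB3 Cut.none Ext.none :=
  certB2 (fam := false) (s1 := true) (s2 := true) (a := 0) (b := 3) (c := 3) (cn := .pnn) (n1 := ndB0q0) (n2 := ndB6q3) (pc := pcB3) (cut := Cut.none) (xt := Ext.none) (P1 := 0) (W1 := 536870912) (P2 := 0) (W2 := 1230186008) (P3 := 697932185) (W3 := 42949674) (N0 := 3) (En := eng) (mo := mog) (C1 := cd0q0) (C2 := cd6q3) (C3 := pd3)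
    rfl (fun _ => rfl) s2_pp_033

noncomputable def f_pp_101 : ℕ → ℕ → ℕ → ℕ → Bool := onCell 536870912 536870912 536870912 536870912 697932185 42949674
    (rowB 3 eng mog cd0q1 cd6q1 pd0 0 false true true .npn 1 0 1 (qsf 536870912 536870912 536870912 536870912 0) ndB0q1 ndB6q1 pcB0 Cut.none Ext.none)

def k0_pp_101 : ∃ t, chk3 f_pp_101 t 1 1 1 = true :=
  ⟨(a (l 3) (l 5)), by decide +kernel⟩

theorem c_pp_101 : CertB 536870912 536870912 536870912 536870912 697932185 42949674 3 eng mog cd0q1 cd6q1 pd0 false true true .npn 1 0 1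
    ndB0q1 ndB6q1 pcB0 Cut.none Ext.none :=
  certB0 (fam := false) (s1 := true) (s2 := true) (a := 1) (b := 0) (c := 1) (cn := .npn) (n1 := ndB0q1) (n2 := ndB6q1) (pc := pcB0) (cut := Cut.none) (xt := Ext.none) (P1 := 536870912) (W1 := 536870912) (P2 := 536870912) (W2 := 536870912) (P3 := 697932185) (W3 := 42949674) (N0 := 3) (En := eng) (mo := mog) (C1 := cd0q1) (C2 := cd6q1) (C3 := pd0)
    rfl k0_pp_101

noncomputable def f_pp_102 : ℕ → ℕ → ℕ → ℕ → Bool := onCell 536870912 536870912 1073741824 536870912 697932185 42949674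
    (rowB 3 eng mog cd0q1 cd6q2 pd0 0 false true true .npp 1 0 2 (qsf 536870912 536870912 1073741824 536870912 0) ndB0q1 ndB6q2 pcB0 Cut.none Ext.none)

def k0_pp_102 : ∃ t, chk3 f_pp_102 t 1 1 1 = true :=
  ⟨(l 3), by decide +kernel⟩

theorem c_pp_102 : CertB 536870912 536870912 1073741824 536870912 697932185 42949674 3 eng mog cd0q1 cd6q2 pd0 false true true .npp 1 0 2
    ndB0q1 ndB6q2 pcB0 Cut.none Ext.none :=
  certB0 (fam := false) (s1 := true) (s2 := true) (a := 1) (b := 0) (c := 2) (cn := .npp) (n1 := ndB0q1) (n2 := ndB6q2) (pc := pcB0) (cut := Cut.none) (xt := Ext.none) (P1 := 536870912) (W1 := 536870912) (P2 := 1073741824) (W2 := 536870912) (P3 := 697932185) (W3 := 42949674) (N0 := 3) (En := eng) (mo := mog) (C1 := cd0q1) (C2 := cd6q2) (C3 := pd0)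
    rfl k0_pp_102

noncomputable def f_pp_112 : ℕ → ℕ → ℕ → ℕ → Bool := onCell 536870912 536870912 1073741824 536870912 697932185 42949674
    (rowB 3 eng mog cd0q1 cd6q2 pd1 0 false true true .dn 1 1 2 (qsf 536870912 536870912 1073741824 536870912 1) ndB0q1 ndB6q2 pcB1 Cut.none Ext.none)

def k0_pp_112 : ∃ t, chk3 f_pp_112 t 1 1 1 = true :=
  ⟨(l 3), by decide +kernel⟩

theorem c_pp_112 : CertB 536870912 536870912 1073741824 536870912 697932185 42949674 3 eng mog cd0q1 cd6q2 pd1 false true true .dn 1 1 2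
    ndB0q1 ndB6q2 pcB1 Cut.none Ext.none :=
  certB0 (fam := false) (s1 := true) (s2 := true) (a := 1) (b := 1) (c := 2) (cn := .dn) (n1 := ndB0q1) (n2 := ndB6q2) (pc := pcB1) (cut := Cut.none) (xt := Ext.none) (P1 := 536870912) (W1 := 536870912) (P2 := 1073741824) (W2 := 536870912) (P3 := 697932185) (W3 := 42949674) (N0 := 3) (En := eng) (mo := mog) (C1 := cd0q1) (C2 := cd6q2) (C3 := pd1)
    rfl k0_pp_112

noncomputable def cut_pp_113 : Cut := Cut.of [[⟨0, 1, 0, 67108864⟩, ⟨1, 1, 0, 67108864⟩, ⟨2, 2, 0, 16777216⟩]]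

noncomputable def f_pp_113 : ℕ → ℕ → ℕ → ℕ → Bool := onCell 536870912 536870912 0 1230186008 697932185 42949674
    (rowB 3 eng mog cd0q1 cd6q3 pd1 2 false true true .nn 1 1 3 (qsf 536870912 536870912 0 1230186008 1) ndB0q1 ndB6q3 pcB1 cut_pp_113 Ext.none)

def k0_pp_113 : ∃ t, chk3 f_pp_113 t 1 1 1 = true :=
  ⟨(b (a (l 2) (a (l 2) (b (a (l 2) (a (l 2) (b (l 6) (l 3)))) (l 3)))) (b (a (b (l 2) (l 3)) (l 3)) (a (a (b (l 2) (l 3)) (l 3)) (l 3)))), by decide +kernel⟩

theorem c_pp_113 : CertB 536870912 536870912 0 1230186008 697932185 42949674 3 eng mog cd0q1 cd6q3 pd1 false true true .nn 1 1 3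
    ndB0q1 ndB6q3 pcB1 cut_pp_113 Ext.none :=
  certB2 (fam := false) (s1 := true) (s2 := true) (a := 1) (b := 1) (c := 3) (cn := .nn) (n1 := ndB0q1) (n2 := ndB6q3) (pc := pcB1) (cut := cut_pp_113) (xt := Ext.none) (P1 := 536870912) (W1 := 536870912) (P2 := 0) (W2 := 1230186008) (P3 := 697932185) (W3 := 42949674) (N0 := 3) (En := eng) (mo := mog) (C1 := cd0q1) (C2 := cd6q3) (C3 := pd1)
    rfl (fun _ => rfl) k0_pp_113

noncomputable def cut_pp_123 : Cut := Cut.of [[⟨0, 1, 0, 67108864⟩, ⟨1, 1, 0, 67108864⟩, ⟨2, 2, 0, 16777216⟩]]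

noncomputable def f_pp_123 : ℕ → ℕ → ℕ → ℕ → Bool := onCell 1073741824 536870912 0 1230186008 697932185 42949674
    (rowB 3 eng mog cd0q1 cd6q3 pd2 2 false true true .npn 1 2 3 (qsf 536870912 536870912 0 1230186008 2) ndB0q1 ndB6q3 pcB2 cut_pp_123 Ext.none)

def k0_pp_123 : ∃ t, chk3 f_pp_123 t 8 4 1 = true :=
  ⟨(a (b (l 6) (b (l 6) (l 3))) (b (a (l 6) (b (l 16736944) (l 16752688))) (a (b (l 6) (a (b (a (l 3) (b (l 3) (l 3))) (l 3)) (b (a (b (a (a (b (b (l 227801049671) (l 324974687927)) (l 3)) (b (b (l 16784632) (l 16784888)) (b (l 319069112183) (l 3)))) (a (b (b (l 16784512) (l 16784976)) (b (l 16785320) (l 306721075399))) (b (l 16785152) (b (l 16785272) (l 16785728))))) (a (l 3) (a (l 3) (b (b (l 16783304) (l 397452266279)) (l 3))))) (b (a (a (b (l 16784320) (l 16790872)) (l 16785424)) (l 16784136)) (a (a (b (b (l 16786120) (l 16786448)) (b (l 383493624711) (l 3))) (b (b (l 16785984) (l 16786536)) (b (l 16786944) (l 332490882535)))) (b (l 16786704) (a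 (l 16787200) (l 16787056)))))) (a (l 3) (b (a (l 3) (a (b (b (l 16787680) (l 414095268343)) (l 3)) (b (l 16788064) (l 404431590775)))) (l 3)))))) (b (b (l 16765272) (a (l 16779512) (l 16771264))) (a (b (a (b (a (l 16784112) (l 16785144)) (a (l 16787112) (l 16785688))) (b (l 16785672) (l 16808952))) (a (b (a (a (b (l 16788008) (l 349133885335)) (b (l 16788120) (l 16789152))) (a (b (l 16788080) (l 16789072)) (l 16789288))) (a (b (a (l 428590782903) (l 363629396919)) (l 3)) (a (b (l 16790176) (l 408726562631)) (b (l 16790264) (l 16785952))))) (b (a (l 16788208) (l 16787768)) (a (b (l 16790968) (a (l 16791568) (l 16791632))) (l 16791856))))) (b (l 16780784) (a (b (l 16789536) (a (l 16790832) (l 16790640))) (l 16787440)))))))), by decide +kernel⟩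

def k1_pp_123 : ∃ t, chk3 f_pp_123 t 8 5 1 = true :=
  ⟨(b (a (l 3) (a (l 3) (b (a (b (a (b (a (l 3) (a (l 3) (b (l 435570109815) (l 3)))) (l 3)) (b (a (a (b (l 359334434279) (l 3)) (b (l 16792832) (l 381346143303))) (a (b (l 16793104) (l 16794120)) (b (l 16793384) (l 16794616)))) (a (l 3) (b (a (l 439328212535) (l 16795456)) (l 3))))) (l 3)) (b (a (b (a (a (b (l 16793696) (l 16794896)) (l 16794984)) (l 16794552)) (a (a (b (l 16796168) (l 375440571063)) (b (l 16796688) (l 16797784))) (b (l 16805320) (a (l 16797832) (l 16797016))))) (b (l 16793568) (l 16805952))) (a (b (a (a (l 3) (b (l 402820990711) (l 3))) (a (b (l 16799472) (l 3)) (b (l 16798360) (l 16800104)))) (l 3)) (b (a (a (b (l 16797608) (l 16798912)) (b (l 16797272) (l 16798192))) (b (l 16796824) (l 16797704))) (a (a (b (l 319606013783) (l 3)) (b (l 16799328) (l 333564660423))) (b (l 16798264) (l 16788648))))))) (a (l 3) (b (a (l 3) (b (a (l 3) (a (l 3) (a (l 372219370471) (l 337322761383)))) (l 3)))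 (l 3)))))) (l 3)), by decide +kernel⟩

def k2_pp_123 : ∃ t, chk3 f_pp_123 t 9 4 1 = true :=
  ⟨(a (b (b (l 16709496) (l 16727168)) (a (b (l 16752632) (a (b (l 16772232) (l 16780992)) (l 16767272))) (b (l 16734152) (l 16748176)))) (b (l 16776488) (a (a (l 16767256) (l 16736296)) (l 16759544)))), by decide +kernel⟩

def k3_pp_123 : ∃ t, chk3 f_pp_123 t 18 10 1 = true :=
  ⟨(a (b (a (b (a (b (l 16791712) (l 16795128)) (l 16787192)) (a (b (l 16795464) (a (b (l 16797544) (l 16798160)) (l 16795840))) (b (l 16794040) (l 16795456)))) (b (l 16779528) (a (l 16789168) (l 16782928)))) (a (b (a (b (a (b (l 16798192) (l 355039486503)) (b (l 16797560) (l 16797296))) (a (b (l 387251753399) (l 3)) (b (l 16797544) (l 369535013175)))) (b (a (b (l 16796384) (l 16796744)) (l 16795528)) (a (b (l 16796704) (l 16796448)) (b (l 16795880) (l 16796144))))) (a (l 3) (b (a (b (l 357723851559) (l 3)) (b (l 16795680) (l 16795808))) (a (l 3) (b (l 387788618455) (l 3)))))) (b (a (a (l 16798256)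 (l 16793064)) (b (l 16789176) (l 16791152))) (a (b (b (a (l 16795448) (l 16794248)) (a (l 16795144) (l 16794656))) (a (b (l 16794976) (l 294373078551)) (b (l 16794824) (l 16794504)))) (b (l 16792408) (a (b (l 16793872) (l 16794400)) (l 16770600))))))) (b (b (l 16796272) (a (l 16774288) (l 16762128))) (a (b (l 16801264) (a (l 16789840) (l 16785688))) (b (l 16769728) (l 16734736))))), by decide +kernel⟩

def k4_pp_123 : ∃ t, chk3 f_pp_123 t 18 11 1 = true :=
  ⟨(a (b (a (l 3) (b (a (b (a (l 3) (b (l 16794736) (l 415705902263))) (l 3)) (b (a (b (l 16794272) (l 16794352)) (b (l 16793872) (l 16794168))) (a (b (l 394231066151) (l 453286863367)) (b (l 16794352) (l 16798848))))) (a (l 3) (b (a (l 3) (b (l 428590803623) (l 3))) (l 3))))) (l 3)) (b (a (b (a (b (a (b (l 16792656) (l 16793352)) (l 16791664)) (a (b (l 16794192) (l 16794536)) (l 16793392))) (b (l 16789816) (l 16769744))) (a (b (a (b (l 16794984) (l 378124938615)) (l 16794808)) (a (b (l 466708634439) (l 3))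 (l 402284095479))) (b (a (l 16794288) (l 16793296)) (a (l 16795144) (l 16794792))))) (b (a (l 16787368) (l 16782688)) (a (b (l 16791200) (a (l 16793624) (l 16792152))) (l 16788096)))) (a (b (a (l 3) (b (a (l 426443314503) (l 323364103463)) (a (l 3) (l 458655568343)))) (l 3)) (b (a (b (a (l 16794528) (l 16793352)) (a (l 350207607511) (l 16793360))) (b (l 16768416) (a (l 16792296) (l 16790336)))) (a (b (a (l 491941562263) (l 371145568871)) (a (l 3) (l 511805782887))) (b (a (l 16791496) (l 16790576)) (a (b (l 352355076967) (l 455434333591)) (l 16790048)))))))), by decide +kernel⟩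

def k5_pp_123 : ∃ t, chk3 f_pp_123 t 19 5 1 = true :=
  ⟨(b (a (b (a (l 16746320) (l 16735512)) (a (b (l 16758536) (l 16766400)) (l 16751600))) (b (l 16721400) (a (l 16741552) (l 16731232)))) (a (b (a (b (l 16773864) (a (l 16782856) (l 16776880))) (l 16764032)) (a (b (a (l 16786112) (l 16780376)) (a (b (a (l 16788720) (l 16786520)) (a (l 16789432) (l 16788128))) (l 16783856))) (b (l 16771544) (a (l 16778976) (l 16774064))))) (b (b (l 16745528) (l 16749896)) (b (l 16755224) (a (l 16767256) (l 16760224)))))), by decide +kernel⟩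

def k6_pp_123 : ∃ t, chk3 f_pp_123 t 5 2 1 = true :=
  ⟨(b (a (a (a (b (l 16632568) (l 16676192)) (b (a (l 16614312) (l 16605520)) (l 16747976))) (b (l 16577552) (a (l 16640496) (l 16626032)))) (b (a (l 16563648) (l 16565384)) (a (l 16618360) (l 16617352)))) (a (a (a (b (b (l 16705336) (l 16696248)) (b (a (l 16733376) (l 16724504)) (a (l 16749192) (l 16745184)))) (b (b (l 16696432) (a (l 16707424) (a (l 16704480) (a (l 16704600) (l 16706144))))) (a (b (l 16719664) (l 16740992)) (a (l 16728080) (a (l 16729320) (l 16837024)))))) (b (b (l 16648176) (l 16588504)) (b (a (l 16721480) (l 16714832)) (l 16738208)))) (b (a (b (l 16655408) (l 16679280)) (l 16663744)) (a (l 16734456) (l 16701984))))), by decide +kernel⟩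

def k7_pp_123 : ∃ t, chk3 f_pp_123 t 3 2 1 = true :=
  ⟨(a (b (a (b (l 16587744) (l 16646336)) (b (l 16606944) (l 16662320))) (a (b (a (l 16661072) (l 16660448)) (l 16690288)) (b (l 16666792) (l 16684128)))) (b (a (l 16655728) (l 16658992)) (a (a (l 16682168) (l 16683032)) (a (l 16704408) (l 16728136))))), by decide +kernel⟩

def k8_pp_123 : ∃ t, chk3 f_pp_123 t 8 3 1 = true :=
  ⟨(l 3), by decide +kernel⟩

def k9_pp_123 : ∃ t, chk3 f_pp_123 t 9 6 1 = true :=
  ⟨(b (a (a (l 3) (b (a (l 3) (b (a (l 3) (b (a (l 3) (b (l 374903654263) (l 475298557767))) (l 3))) (l 3))) (l 3))) (a (b (a (b (a (b (a (l 306184179719) (l 16789784)) (a (b (l 393157311559) (l 494625914759)) (l 321753446807))) (a (b (l 16789064) (l 16791992)) (b (l 16787656) (l 16791936)))) (a (b (a (l 3) (b (l 435033246423) (l 3))) (l 3)) (b (b (l 16774104) (a (l 359334458887) (l 16798040))) (a (b (l 460803062071) (l 3)) (a (a (l 451676244055) (l 415705892615)) (l 299204906151)))))) (b (a (a (a (l 16788632)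 (l 16787944)) (l 16786728)) (l 16784672)) (b (a (b (l 16795552) (l 16778048)) (l 16795536)) (a (a (l 16803232) (l 16783216)) (a (l 16804200) (l 16803176)))))) (a (a (l 3) (b (a (l 3) (b (b (l 547776163271) (l 3)) (l 3))) (l 3))) (a (b (b (a (a (b (l 316921653527) (b (l 558513585447) (l 3))) (b (l 16807584) (a (b (l 16809504) (l 16810520)) (l 16810088)))) (b (l 16808232) (l 16810560))) (a (l 440401990071) (c (l 16803624) (l 16798552)))) (a (l 3) (a (l 3) (l 16802104)))) (b (b (a (b (l 16809224) (l 16811464)) (l 16810448)) (a (l 16811944) (l 16812784))) (a (b (l 16811824) (l 3)) (b (l 16811952) (l 16810568))))))) (b (a (b (a (l 16780888) (l 16777808)) (a (l 16796856) (l 16793240))) (b (l 16772952) (l 16788296))) (a (b (a (b (l 16808456) (l 16812072)) (l 16806640)) (a (a (l 16790792) (b (l 16812536) (l 16810880))) (l 16788288))) (b (a (l 16802064) (l 16797568)) (l 16803016)))))) (a (l 3) (b (a (l 3) (a (b (a (l 444696919111) (l 16785872)) (l 435570085015)) (a (b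 (l 16803336) (l 16796104)) (l 16774320)))) (a (l 3) (a (l 3) (b (l 16783624) (l 16772056))))))), by decide +kernel⟩

def k10_pp_123 : ∃ t, chk3 f_pp_123 t 9 7 1 = true :=
  ⟨(a (l 3) (b (b (l 3) (l 3)) (l 3))), by decide +kernel⟩

def k11_pp_123 : ∃ t, chk3 f_pp_123 t 5 3 1 = true :=
  ⟨(b (a (a (a (b (b (a (l 16775128) (l 16769904)) (a (b (l 16791672) (l 16792680)) (l 16784936))) (a (b (b (l 16789360) (l 16783832)) (a (l 16773424) (l 16768480))) (b (b (l 16779576) (l 16772224)) (b (l 16764632) (l 16753552))))) (b (a (b (l 16745912) (l 16777888)) (b (a (l 16764504) (b (l 16761256) (l 16834176))) (a (l 16775456) (a (l 16775752) (l 16776528))))) (a (b (l 16768672) (a (l 16753304) (l 16749744))) (b (a (l 16763968) (a (l 16763944) (l 16766528))) (a (l 16746424) (a (l 16745048) (l 16745688))))))) (b (b (l 16732496) (l 16761336)) (b (l 16753264) (l 16733008)))) (b (a (b (l 16733376) (l 16738088)) (l 16762024)) (b (a (l 16730744) (l 16713304)) (a (l 16710280) (l 16691656)))))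 (a (a (a (b (b (a (a (l 16731912) (l 16728960)) (b (l 16732512) (l 16711720))) (a (b (l 199346764215) (l 3)) (b (l 16692680) (l 117205483511)))) (b (a (l 3) (l 1)) (l 1))) (b (a (b (l 16717192) (a (b (l 16686072) (l 16665576)) (l 16672064))) (b (a (l 16710160) (a (l 16708232) (l 16707944))) (a (b (l 16680664) (l 16657768)) (a (l 16666288) (l 16643416))))) (l 1))) (b (b (b (l 16705432) (l 16682456)) (b (l 16654992) (l 16625400))) (l 1))) (b (b (a (l 16660528) (l 16645976)) (l 1)) (l 1)))), by decide +kernel⟩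

def k12_pp_123 : ∃ t, chk3 f_pp_123 t 3 3 1 = true :=
  ⟨(b (a (b (a (b (l 16705704) (l 16706112)) (b (l 16690064) (l 16683496))) (a (b (l 16687816) (l 16767752)) (b (l 16659336) (l 1)))) (b (a (l 466574657959) (l 1)) (l 1))) (l 1)), by decide +kernel⟩

theorem s13_pp_123 : ∃ t, chk3 f_pp_123 t 9 3 1 = true := ex3_b k9_pp_123 k10_pp_123

theorem s14_pp_123 : ∃ t, chk3 f_pp_123 t 4 3 1 = true := ex3_a k8_pp_123 s13_pp_123

theorem s15_pp_123 : ∃ t, chk3 f_pp_123 t 2 3 1 = true := ex3_a s14_pp_123 k11_pp_123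

theorem s16_pp_123 : ∃ t, chk3 f_pp_123 t 1 3 1 = true := ex3_a s15_pp_123 k12_pp_123

theorem s17_pp_123 : ∃ t, chk3 f_pp_123 t 18 5 1 = true := ex3_b k3_pp_123 k4_pp_123

theorem s18_pp_123 : ∃ t, chk3 f_pp_123 t 9 5 1 = true := ex3_a s17_pp_123 k5_pp_123

theorem s19_pp_123 : ∃ t, chk3 f_pp_123 t 9 2 1 = true := ex3_b k2_pp_123 s18_pp_123

theorem s20_pp_123 : ∃ t, chk3 f_pp_123 t 8 2 1 = true := ex3_b k0_pp_123 k1_pp_123

theorem s21_pp_123 : ∃ t, chk3 f_pp_123 t 4 2 1 = true := ex3_a s20_pp_123 s19_pp_123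

theorem s22_pp_123 : ∃ t, chk3 f_pp_123 t 2 2 1 = true := ex3_a s21_pp_123 k6_pp_123

theorem s23_pp_123 : ∃ t, chk3 f_pp_123 t 1 2 1 = true := ex3_a s22_pp_123 k7_pp_123

theorem s24_pp_123 : ∃ t, chk3 f_pp_123 t 1 1 1 = true := ex3_b s23_pp_123 s16_pp_123

theorem c_pp_123 : CertB 536870912 536870912 0 1230186008 697932185 42949674 3 eng mog cd0q1 cd6q3 pd2 false true true .npn 1 2 3
    ndB0q1 ndB6q3 pcB2 cut_pp_123 Ext.none :=
  certB2 (fam := false) (s1 := true) (s2 := true) (a := 1) (b := 2) (c := 3) (cn := .npn) (n1 := ndB0q1) (n2 := ndB6q3) (pc := pcB2) (cut := cut_pp_123) (xt := Ext.none) (P1 := 536870912) (W1 := 536870912) (P2 := 0) (W2 := 1230186008) (P3 := 697932185) (W3 := 42949674) (N0 := 3) (En := eng) (mo := mog) (C1 := cd0q1) (C2 := cd6q3) (C3 := pd2)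
    rfl (fun _ => rfl) s24_pp_123

noncomputable def f_pp_133 : ℕ → ℕ → ℕ → ℕ → Bool := onCell 1610612736 536870912 0 1230186008 697932185 42949674
    (rowB 3 eng mog cd0q1 cd6q3 pd3 2 false true true .dn 1 3 3 (qsf 536870912 536870912 0 1230186008 3) ndB0q1 ndB6q3 pcB3 Cut.none Ext.none)

def k0_pp_133 : ∃ t, chk3 f_pp_133 t 1 1 1 = true :=
  ⟨(b (b (a (a (a (l 16651064) (l 1)) (l 1)) (l 1)) (l 1)) (l 1)), by decide +kernel⟩

theorem c_pp_133 : CertB 536870912 536870912 0 1230186008 697932185 42949674 3 eng mog cd0q1 cd6q3 pd3 false true true .dn 1 3 3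
    ndB0q1 ndB6q3 pcB3 Cut.none Ext.none :=
  certB2 (fam := false) (s1 := true) (s2 := true) (a := 1) (b := 3) (c := 3) (cn := .dn) (n1 := ndB0q1) (n2 := ndB6q3) (pc := pcB3) (cut := Cut.none) (xt := Ext.none) (P1 := 536870912) (W1 := 536870912) (P2 := 0) (W2 := 1230186008) (P3 := 697932185) (W3 := 42949674) (N0 := 3) (En := eng) (mo := mog) (C1 := cd0q1) (C2 := cd6q3) (C3 := pd3)
    rfl (fun _ => rfl) k0_pp_133

noncomputable def f_pp_202 : ℕ → ℕ → ℕ → ℕ → Bool := onCell 0 536870912 1073741824 536870912 697932185 42949674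
    (rowB 3 eng mog cd0q2 cd6q2 pd0 0 false true true .pp 2 0 2 (qsf 0 536870912 1073741824 536870912 0) ndB0q2 ndB6q2 pcB0 Cut.none Ext.none)

def k0_pp_202 : ∃ t, chk3 f_pp_202 t 1 1 1 = true :=
  ⟨(l 5), by decide +kernel⟩

theorem c_pp_202 : CertB 0 536870912 1073741824 536870912 697932185 42949674 3 eng mog cd0q2 cd6q2 pd0 false true true .pp 2 0 2
    ndB0q2 ndB6q2 pcB0 Cut.none Ext.none :=
  certB0 (fam := false) (s1 := true) (s2 := true) (a := 2) (b := 0) (c := 2) (cn := .pp) (n1 := ndB0q2) (n2 := ndB6q2) (pc := pcB0) (cut := Cut.none) (xt := Ext.none) (P1 := 0) (W1 := 536870912) (P2 := 1073741824) (W2 := 536870912) (P3 := 697932185) (W3 := 42949674) (N0 := 3) (En := eng) (mo := mog) (C1 := cd0q2) (C2 := cd6q2) (C3 := pd0)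
    rfl k0_pp_202

noncomputable def f_pp_203 : ℕ → ℕ → ℕ → ℕ → Bool := onCell 0 536870912 0 1230186008 697932185 42949674
    (rowB 3 eng mog cd0q2 cd6q3 pd0 0 false true true .up 2 0 3 (qsf 0 536870912 0 1230186008 0) ndB0q2 ndB6q3 pcB0 Cut.none Ext.none)

def k0_pp_203 : ∃ t, chk3 f_pp_203 t 1 1 1 = true :=
  ⟨(b (l 2) (b (l 2) (l 3))), by decide +kernel⟩

theorem c_pp_203 : CertB 0 536870912 0 1230186008 697932185 42949674 3 eng mog cd0q2 cd6q3 pd0 false true true .up 2 0 3
    ndB0q2 ndB6q3 pcB0 Cut.none Ext.none :=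
  certB0 (fam := false) (s1 := true) (s2 := true) (a := 2) (b := 0) (c := 3) (cn := .up) (n1 := ndB0q2) (n2 := ndB6q3) (pc := pcB0) (cut := Cut.none) (xt := Ext.none) (P1 := 0) (W1 := 536870912) (P2 := 0) (W2 := 1230186008) (P3 := 697932185) (W3 := 42949674) (N0 := 3) (En := eng) (mo := mog) (C1 := cd0q2) (C2 := cd6q3) (C3 := pd0)
    rfl k0_pp_203

noncomputable def cut_pp_213 : Cut := Cut.of [[⟨0, 1, 0, 67108864⟩, ⟨1, 1, 0, 67108864⟩, ⟨2, 2, 0, 16777216⟩]]

noncomputable def f_pp_213 : ℕ → ℕ → ℕ → ℕ → Bool := onCell 0 536870912 0 1230186008 697932185 42949674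
    (rowB 3 eng mog cd0q2 cd6q3 pd1 0 false true true .pnn 2 1 3 (qsf 0 536870912 0 1230186008 1) ndB0q2 ndB6q3 pcB1 cut_pp_213 Ext.none)

def k0_pp_213 : ∃ t, chk3 f_pp_213 t 1 1 1 = true :=
  ⟨(b (a (l 3) (b (a (l 3) (a (l 3) (b (l 6) (l 3)))) (l 3))) (b (l 3) (l 3))), by decide +kernel⟩

theorem c_pp_213 : CertB 0 536870912 0 1230186008 697932185 42949674 3 eng mog cd0q2 cd6q3 pd1 false true true .pnn 2 1 3
    ndB0q2 ndB6q3 pcB1 cut_pp_213 Ext.none :=
  certB0 (fam := false) (s1 := true) (s2 := true) (a := 2) (b := 1) (c := 3) (cn := .pnn) (n1 := ndB0q2) (n2 := ndB6q3) (pc := pcB1) (cut := cut_pp_213) (xt := Ext.none) (P1 := 0) (W1 := 536870912) (P2 := 0) (W2 := 1230186008) (P3 := 697932185) (W3 := 42949674) (N0 := 3) (En := eng) (mo := mog) (C1 := cd0q2) (C2 := cd6q3) (C3 := pd1)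
    rfl k0_pp_213

noncomputable def f_pm_001 : ℕ → ℕ → ℕ → ℕ → Bool := onCell 0 536870912 536870912 536870912 697932185 42949674
    (rowB 3 eng mog cd0q0 cd6q1 pd0 0 false true false .up 0 0 1 (qsf 0 536870912 536870912 536870912 0) ndB0q0 ndB6q1 pcB0 Cut.none Ext.none)

def k0_pm_001 : ∃ t, chk3 f_pm_001 t 1 1 1 = true :=
  ⟨(l 4), by decide +kernel⟩

theorem c_pm_001 : CertB 0 536870912 536870912 536870912 697932185 42949674 3 eng mog cd0q0 cd6q1 pd0 false true false .up 0 0 1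
    ndB0q0 ndB6q1 pcB0 Cut.none Ext.none :=
  certB0 (fam := false) (s1 := true) (s2 := false) (a := 0) (b := 0) (c := 1) (cn := .up) (n1 := ndB0q0) (n2 := ndB6q1) (pc := pcB0) (cut := Cut.none) (xt := Ext.none) (P1 := 0) (W1 := 536870912) (P2 := 536870912) (W2 := 536870912) (P3 := 697932185) (W3 := 42949674) (N0 := 3) (En := eng) (mo := mog) (C1 := cd0q0) (C2 := cd6q1) (C3 := pd0)
    rfl k0_pm_001

noncomputable def f_pm_011 : ℕ → ℕ → ℕ → ℕ → Bool := onCell 0 536870912 536870912 536870912 697932185 42949674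
    (rowB 3 eng mog cd0q0 cd6q1 pd1 0 false true false .pnn 0 1 1 (qsf 0 536870912 536870912 536870912 1) ndB0q0 ndB6q1 pcB1 Cut.none Ext.none)

def k0_pm_011 : ∃ t, chk3 f_pm_011 t 1 1 1 = true :=
  ⟨(l 4), by decide +kernel⟩

theorem c_pm_011 : CertB 0 536870912 536870912 536870912 697932185 42949674 3 eng mog cd0q0 cd6q1 pd1 false true false .pnn 0 1 1
    ndB0q0 ndB6q1 pcB1 Cut.none Ext.none :=
  certB0 (fam := false) (s1 := true) (s2 := false) (a := 0) (b := 1) (c := 1) (cn := .pnn) (n1 := ndB0q0) (n2 := ndB6q1) (pc := pcB1) (cut := Cut.none) (xt := Ext.none) (P1 := 0) (W1 := 536870912) (P2 := 536870912) (W2 := 536870912) (P3 := 697932185) (W3 := 42949674) (N0 := 3) (En := eng) (mo := mog) (C1 := cd0q0) (C2 := cd6q1) (C3 := pd1)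
    rfl k0_pm_011

noncomputable def f_pm_012 : ℕ → ℕ → ℕ → ℕ → Bool := onCell 0 536870912 1073741824 536870912 697932185 42949674
    (rowB 3 eng mog cd0q0 cd6q2 pd1 0 false true false .pnp 0 1 2 (qsf 0 536870912 1073741824 536870912 1) ndB0q0 ndB6q2 pcB1 Cut.none Ext.none)

def k0_pm_012 : ∃ t, chk3 f_pm_012 t 1 1 1 = true :=
  ⟨(l 4), by decide +kernel⟩

theorem c_pm_012 : CertB 0 536870912 1073741824 536870912 697932185 42949674 3 eng mog cd0q0 cd6q2 pd1 false true false .pnp 0 1 2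
    ndB0q0 ndB6q2 pcB1 Cut.none Ext.none :=
  certB0 (fam := false) (s1 := true) (s2 := false) (a := 0) (b := 1) (c := 2) (cn := .pnp) (n1 := ndB0q0) (n2 := ndB6q2) (pc := pcB1) (cut := Cut.none) (xt := Ext.none) (P1 := 0) (W1 := 536870912) (P2 := 1073741824) (W2 := 536870912) (P3 := 697932185) (W3 := 42949674) (N0 := 3) (En := eng) (mo := mog) (C1 := cd0q0) (C2 := cd6q2) (C3 := pd1)
    rfl k0_pm_012

noncomputable def f_pm_022 : ℕ → ℕ → ℕ → ℕ → Bool := onCell 0 536870912 1073741824 536870912 697932185 42949674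
    (rowB 3 eng mog cd0q0 cd6q2 pd2 0 false true false .pp 0 2 2 (qsf 0 536870912 1073741824 536870912 2) ndB0q0 ndB6q2 pcB2 Cut.none Ext.none)

def k0_pm_022 : ∃ t, chk3 f_pm_022 t 1 1 1 = true :=
  ⟨(l 4), by decide +kernel⟩

theorem c_pm_022 : CertB 0 536870912 1073741824 536870912 697932185 42949674 3 eng mog cd0q0 cd6q2 pd2 false true false .pp 0 2 2
    ndB0q0 ndB6q2 pcB2 Cut.none Ext.none :=
  certB0 (fam := false) (s1 := true) (s2 := false) (a := 0) (b := 2) (c := 2) (cn := .pp) (n1 := ndB0q0) (n2 := ndB6q2) (pc := pcB2) (cut := Cut.none) (xt := Ext.none) (P1 := 0) (W1 := 536870912) (P2 := 1073741824) (W2 := 536870912) (P3 := 697932185) (W3 := 42949674) (N0 := 3) (En := eng) (mo := mog) (C1 := cd0q0) (C2 := cd6q2) (C3 := pd2)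
    rfl k0_pm_022

noncomputable def f_pm_023 : ℕ → ℕ → ℕ → ℕ → Bool := onCell 0 536870912 0 1230186008 697932185 42949674
    (rowB 3 eng mog cd0q0 cd6q3 pd2 0 false true false .up 0 2 3 (qsf 0 536870912 0 1230186008 2) ndB0q0 ndB6q3 pcB2 Cut.none Ext.none)

def k0_pm_023 : ∃ t, chk3 f_pm_023 t 1 1 1 = true :=
  ⟨(b (a (l 2) (a (l 2) (b (a (l 2) (l 16700464)) (a (b (a (l 2) (l 16512400)) (l 4)) (b (a (l 16519968) (l 16525856)) (a (l 4) (l 16496136))))))) (b (l 4) (l 4))), by decide +kernel⟩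

theorem c_pm_023 : CertB 0 536870912 0 1230186008 697932185 42949674 3 eng mog cd0q0 cd6q3 pd2 false true false .up 0 2 3
    ndB0q0 ndB6q3 pcB2 Cut.none Ext.none :=
  certB0 (fam := false) (s1 := true) (s2 := false) (a := 0) (b := 2) (c := 3) (cn := .up) (n1 := ndB0q0) (n2 := ndB6q3) (pc := pcB2) (cut := Cut.none) (xt := Ext.none) (P1 := 0) (W1 := 536870912) (P2 := 0) (W2 := 1230186008) (P3 := 697932185) (W3 := 42949674) (N0 := 3) (En := eng) (mo := mog) (C1 := cd0q0) (C2 := cd6q3) (C3 := pd2)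
    rfl k0_pm_023

noncomputable def f_pm_033 : ℕ → ℕ → ℕ → ℕ → Bool := onCell 1610612736 536870912 0 1230186008 697932185 42949674
    (rowB 3 eng mog cd0q0 cd6q3 pd3 2 false true false .pnn 0 3 3 (qsf 0 536870912 0 1230186008 3) ndB0q0 ndB6q3 pcB3 Cut.none Ext.none)

def k0_pm_033 : ∃ t, chk3 f_pm_033 t 1 1 1 = true :=
  ⟨(b (a (a (b (a (l 16592712) (l 16570592)) (a (b (l 16514848) (l 4)) (l 4))) (b (a (a (l 16534448) (l 16518440)) (l 4)) (l 4))) (l 4)) (l 4)), by decide +kernel⟩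

theorem c_pm_033 : CertB 0 536870912 0 1230186008 697932185 42949674 3 eng mog cd0q0 cd6q3 pd3 false true false .pnn 0 3 3
    ndB0q0 ndB6q3 pcB3 Cut.none Ext.none :=
  certB2 (fam := false) (s1 := true) (s2 := false) (a := 0) (b := 3) (c := 3) (cn := .pnn) (n1 := ndB0q0) (n2 := ndB6q3) (pc := pcB3) (cut := Cut.none) (xt := Ext.none) (P1 := 0) (W1 := 536870912) (P2 := 0) (W2 := 1230186008) (P3 := 697932185) (W3 := 42949674) (N0 := 3) (En := eng) (mo := mog) (C1 := cd0q0) (C2 := cd6q3) (C3 := pd3)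
    rfl (fun _ => rfl) k0_pm_033

noncomputable def f_pm_101 : ℕ → ℕ → ℕ → ℕ → Bool := onCell 536870912 536870912 536870912 536870912 697932185 42949674
    (rowB 3 eng mog cd0q1 cd6q1 pd0 0 false true false .npn 1 0 1 (qsf 536870912 536870912 536870912 536870912 0) ndB0q1 ndB6q1 pcB0 Cut.none Ext.none)

def k0_pm_101 : ∃ t, chk3 f_pm_101 t 1 1 1 = true :=
  ⟨(l 4), by decide +kernel⟩

theorem c_pm_101 : CertB 536870912 536870912 536870912 536870912 697932185 42949674 3 eng mog cd0q1 cd6q1 pd0 false true false .npn 1 0 1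
    ndB0q1 ndB6q1 pcB0 Cut.none Ext.none :=
  certB0 (fam := false) (s1 := true) (s2 := false) (a := 1) (b := 0) (c := 1) (cn := .npn) (n1 := ndB0q1) (n2 := ndB6q1) (pc := pcB0) (cut := Cut.none) (xt := Ext.none) (P1 := 536870912) (W1 := 536870912) (P2 := 536870912) (W2 := 536870912) (P3 := 697932185) (W3 := 42949674) (N0 := 3) (En := eng) (mo := mog) (C1 := cd0q1) (C2 := cd6q1) (C3 := pd0)
    rfl k0_pm_101

noncomputable def f_pm_102 : ℕ → ℕ → ℕ → ℕ → Bool := onCell 536870912 536870912 0 536870912 697932185 42949674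
    (rowB 3 eng mog cd0q1 cd6q2 pd0 1 false true false .npp 1 0 2 (qsf 536870912 536870912 1073741824 536870912 0) ndB0q1 ndB6q2 pcB0 Cut.none Ext.none)

def k0_pm_102 : ∃ t, chk3 f_pm_102 t 2 1 1 = true :=
  ⟨(l 4), by decide +kernel⟩

def k1_pm_102 : ∃ t, chk3 f_pm_102 t 6 1 1 = true :=
  ⟨(a (b (l 4) (b (l 4) (a (l 4) (l 4)))) (b (b (l 4) (b (l 4) (a (l 4) (b (l 15746688) (l 15766488))))) (b (b (a (l 4) (b (l 15787592) (l 15813952))) (b (a (l 4) (l 15868144)) (a (l 15817168) (l 15947160)))) (b (b (l 15956544) (l 16028520)) (b (l 16096552) (l 16169848)))))), by decide +kernel⟩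

def k2_pm_102 : ∃ t, chk3 f_pm_102 t 7 1 1 = true :=
  ⟨(b (b (a (b (a (l 1) (b (l 1) (a (l 1) (l 15770152)))) (a (a (l 4) (b (l 15685320) (l 15722456))) (b (a (l 15730992) (l 15789072)) (l 15801912)))) (b (a (b (a (l 1) (b (l 1) (l 15918752))) (a (l 54255994983) (b (l 15856288) (l 15873880)))) (b (a (b (c (l 16013224) (l 15822720)) (l 15999880)) (b (c (l 15985552) (l 15881080)) (a (l 15938136) (l 15970320)))) (a (b (l 15912920) (l 15936488)) (b (l 15978392) (l 15999576))))) (a (b (a (l 15846232) (l 15906456)) (a (l 15889632) (l 15954472))) (b (a (l 15974008) (b (l 16020328) (l 16041032))) (a (l 16020448) (b (l 16061864) (l 16082896))))))) (a (b (b (a (a (l 15726048) (l 15761216)) (l 15843968)) (a (a (l 15755648) (l 15799560)) (l 15883072))) (a (b (l 15809576) (l 15839656)) (b (l 15915400) (l 15950168)))) (b (a (b (l 16178872) (a (l 15977064) (l 16045816))) (b (a (l 16066208) (b (l 16104200) (l 16125848))) (b (a (l 16098400) (l 16292160)) (a (l 16113152) (a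 (l 16151320) (l 16174632)))))) (a (b (a (l 16008840) (l 16082480)) (b (l 16087808) (l 16122512))) (b (a (b (l 16133904) (l 16163088)) (b (l 16190536) (l 16218848))) (a (l 16209240) (l 16254560))))))) (b (b (a (a (b (l 15873080) (l 15930928)) (b (l 16009648) (l 16091144))) (b (a (l 16174344) (l 16282976)) (a (b (l 16222768) (l 16253368)) (b (l 16319760) (l 16348912))))) (b (a (l 16098280) (a (b (l 16286544) (l 16319080)) (b (l 16373632) (l 16394576)))) (a (a (l 16104064) (l 16256224)) (a (b (l 16348184) (l 16376032)) (b (l 16416440) (l 16440592)))))) (b (a (a (l 16216064) (b (l 16315792) (l 16374864))) (a (l 16508120) (l 16530784))) (a (a (l 16362096) (l 16466944)) (a (l 16531336) (l 16552368)))))), by decide +kernel⟩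

theorem s3_pm_102 : ∃ t, chk3 f_pm_102 t 3 1 1 = true := ex3_a k1_pm_102 k2_pm_102

theorem s4_pm_102 : ∃ t, chk3 f_pm_102 t 1 1 1 = true := ex3_a k0_pm_102 s3_pm_102

theorem c_pm_102 : CertB 536870912 536870912 1073741824 536870912 697932185 42949674 3 eng mog cd0q1 cd6q2 pd0 false true false .npp 1 0 2
    ndB0q1 ndB6q2 pcB0 Cut.none Ext.none :=
  certB1 (fam := false) (s1 := true) (s2 := false) (a := 1) (b := 0) (c := 2) (cn := .npp) (n1 := ndB0q1) (n2 := ndB6q2) (pc := pcB0) (cut := Cut.none) (xt := Ext.none) (P1 := 536870912) (W1 := 536870912) (P2 := 1073741824) (W2 := 536870912) (P3 := 697932185) (W3 := 42949674) (N0 := 3) (En := eng) (mo := mog) (C1 := cd0q1) (C2 := cd6q2) (C3 := pd0)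
    rfl (fun _ => rfl) s4_pm_102

noncomputable def f_pm_112 : ℕ → ℕ → ℕ → ℕ → Bool := onCell 536870912 536870912 1073741824 536870912 697932185 42949674
    (rowB 3 eng mog cd0q1 cd6q2 pd1 0 false true false .dn 1 1 2 (qsf 536870912 536870912 1073741824 536870912 1) ndB0q1 ndB6q2 pcB1 Cut.none Ext.none)

def k0_pm_112 : ∃ t, chk3 f_pm_112 t 1 1 1 = true :=
  ⟨(a (b (l 4) (a (l 4) (b (l 4) (a (l 4) (l 4))))) (b (a (a (l 4) (l 1)) (l 1)) (a (b (a (b (l 4) (a (l 4) (l 16060400))) (b (a (l 16018560) (l 1)) (l 16406800))) (a (b (l 16167016) (l 16263296)) (b (a (l 16287456) (l 16375832)) (l 16452440)))) (b (b (l 1) (a (l 346851722647) (l 1))) (a (b (a (l 16437728) (l 16482368)) (l 16578968)) (b (l 16512504) (l 16594416))))))), by decide +kernel⟩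

theorem c_pm_112 : CertB 536870912 536870912 1073741824 536870912 697932185 42949674 3 eng mog cd0q1 cd6q2 pd1 false true false .dn 1 1 2
    ndB0q1 ndB6q2 pcB1 Cut.none Ext.none :=
  certB0 (fam := false) (s1 := true) (s2 := false) (a := 1) (b := 1) (c := 2) (cn := .dn) (n1 := ndB0q1) (n2 := ndB6q2) (pc := pcB1) (cut := Cut.none) (xt := Ext.none) (P1 := 536870912) (W1 := 536870912) (P2 := 1073741824) (W2 := 536870912) (P3 := 697932185) (W3 := 42949674) (N0 := 3) (En := eng) (mo := mog) (C1 := cd0q1) (C2 := cd6q2) (C3 := pd1)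
    rfl k0_pm_112

noncomputable def cut_pm_113 : Cut := Cut.of [[⟨0, 1, 0, 67108864⟩, ⟨1, 1, 0, 67108864⟩, ⟨2, 2, 0, 16777216⟩]]

noncomputable def f_pm_113 : ℕ → ℕ → ℕ → ℕ → Bool := onCell 536870912 536870912 0 1230186008 697932185 42949674
    (rowB 3 eng mog cd0q1 cd6q3 pd1 0 false true false .nn 1 1 3 (qsf 536870912 536870912 0 1230186008 1) ndB0q1 ndB6q3 pcB1 cut_pm_113 Ext.none)

def k0_pm_113 : ∃ t, chk3 f_pm_113 t 1 1 1 = true :=
  ⟨(b (a (l 2) (a (l 2) (b (a (l 2) (a (l 2) (b (l 6) (b (l 6) (l 16749032))))) (a (b (a (l 2) (l 16660064)) (a (l 16595712) (l 16654784))) (b (a (b (l 16705392) (l 16705928)) (l 16756928)) (a (l 16709096) (l 16767832))))))) (b (a (a (l 2) (a (l 2) (b (l 2) (b (l 2) (a (l 2) (l 235249159383)))))) (a (b (a (l 2) (a (l 194447676983) (a (l 16576136) (l 16577792)))) (a (a (a (l 176730392535) (l 177804230663)) (l 177804391159)) (b (l 16418832) (l 16411872)))) (a (b (a (b (l 16581672) (l 16571856)) (l 16648008)) (b (a (l 16565936)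 (l 16648064)) (a (l 16559000) (l 16653000)))) (b (a (l 16774408) (l 16780016)) (b (a (l 16720408) (l 16800880)) (b (l 16713408) (l 16790768))))))) (a (a (l 4) (b (a (b (a (l 2) (l 236858834519)) (a (l 4) (l 171897600279))) (b (b (l 225048509735) (l 15996432)) (a (b (l 15941368) (l 15954856)) (l 16060704)))) (a (l 4) (b (b (l 16036584) (l 16052912)) (l 16139008))))) (a (b (a (a (b (l 16149760) (l 16161504)) (b (l 16252312) (l 16265464))) (b (l 16414272) (b (l 16423232) (l 16437232)))) (b (a (a (b (l 16172672) (l 16189816)) (l 16287784)) (l 16469904)) (a (a (l 16234112) (l 16340408)) (b (l 16493040) (l 16522520))))) (b (a (b (l 16620752) (l 16651856)) (b (l 16822592) (l 16870384))) (a (b (l 16681688) (l 16725928)) (b (l 16915864) (l 16737664)))))))), by decide +kernel⟩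

theorem c_pm_113 : CertB 536870912 536870912 0 1230186008 697932185 42949674 3 eng mog cd0q1 cd6q3 pd1 false true false .nn 1 1 3
    ndB0q1 ndB6q3 pcB1 cut_pm_113 Ext.none :=
  certB0 (fam := false) (s1 := true) (s2 := false) (a := 1) (b := 1) (c := 3) (cn := .nn) (n1 := ndB0q1) (n2 := ndB6q3) (pc := pcB1) (cut := cut_pm_113) (xt := Ext.none) (P1 := 536870912) (W1 := 536870912) (P2 := 0) (W2 := 1230186008) (P3 := 697932185) (W3 := 42949674) (N0 := 3) (En := eng) (mo := mog) (C1 := cd0q1) (C2 := cd6q3) (C3 := pd1)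
    rfl k0_pm_113

noncomputable def cut_pm_123 : Cut := Cut.of [[⟨0, 1, 0, 67108864⟩, ⟨1, 1, 0, 67108864⟩, ⟨2, 2, 0, 16777216⟩]]

noncomputable def f_pm_123 : ℕ → ℕ → ℕ → ℕ → Bool := onCell 1073741824 536870912 0 1230186008 697932185 42949674
    (rowB 3 eng mog cd0q1 cd6q3 pd2 2 false true false .npn 1 2 3 (qsf 536870912 536870912 0 1230186008 2) ndB0q1 ndB6q3 pcB2 cut_pm_123 Ext.none)

def k0_pm_123 : ∃ t, chk3 f_pm_123 t 1 2 1 = true :=
  ⟨(a (a (a (b (a (b (l 6) (b (l 6) (l 16703048))) (b (b (l 16729248) (l 16708288)) (l 16666392))) (b (a (b (l 16676680) (l 16648640)) (b (l 16616848) (l 16584712))) (a (b (l 16614480) (l 16566488)) (b (l 16542048) (l 16483072))))) (b (b (a (l 16674568) (l 16611552)) (a (b (l 16625896) (l 16588648)) (l 16674624))) (b (a (l 16539768) (l 16477040)) (b (a (l 16471392) (l 16407112)) (a (l 16491376) (l 16349288)))))) (b (a (b (a (a (l 16572984) (l 16691240)) (l 16635840)) (a (a (l 16503216) (l 16499736)) (l 16451184))) (b (a (l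 16509832) (l 16524728)) (l 16616312))) (a (a (b (l 16422568) (b (l 16358024) (l 16302648))) (b (b (l 16403936) (l 16365592)) (b (l 16327960) (l 16286464)))) (b (a (l 16583840) (l 16417008)) (a (l 16322112) (l 16337376)))))) (a (b (a (b (l 16549288) (l 16579784)) (b (l 16567248) (a (l 16509528) (l 16534776)))) (a (b (a (l 16432024) (l 16444248)) (a (l 16355512) (l 16374152))) (b (l 16473800) (a (l 16394904) (l 16417808))))) (b (a (l 16594464) (l 16616928)) (a (b (l 16515464) (a (l 16436072) (l 16451752))) (b (a (l 16528040) (l 16526888)) (a (l 16464104) (l 1))))))), by decide +kernel⟩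

def k1_pm_123 : ∃ t, chk3 f_pm_123 t 1 3 1 = true :=
  ⟨(b (a (a (b (a (b (a (b (l 16513680) (l 16466928)) (a (l 16422256) (l 16377432))) (a (a (l 16391104) (l 16345064)) (b (l 16310736) (l 16255640)))) (b (a (l 16324944) (l 16271456)) (a (l 16226976) (l 16195984)))) (a (a (b (b (l 16267232) (l 16198592)) (a (l 16106856) (l 16103328))) (b (c (l 16378680) (l 16275544)) (l 16263272))) (b (a (l 16136600) (l 16108832)) (a (l 16019656) (l 16048672))))) (b (a (a (b (l 16245128) (l 16174008)) (b (l 16231752) (l 16165816))) (a (l 16212760) (l 16227872))) (a (a (b (l 16094616) (l 16009632)) (b (l 16096128) (l 16028048))) (b (a (l 16114400) (l 16140944)) (l 4))))) (a (b (a (a (l 16273080) (l 16283432)) (a (l 16310760) (l 16331888))) (l 4)) (l 4))) (a (b (a (a (b (a (a (l 15952400) (l 15932336)) (l 15913616)) (a (c (l 15843384) (l 15717448)) (l 4))) (b (a (l 15907008) (l 4)) (l 4))) (l 4)) (l 4)) (l 1))), by decide +kernel⟩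

theorem s2_pm_123 : ∃ t, chk3 f_pm_123 t 1 1 1 = true := ex3_b k0_pm_123 k1_pm_123

theorem c_pm_123 : CertB 536870912 536870912 0 1230186008 697932185 42949674 3 eng mog cd0q1 cd6q3 pd2 false true false .npn 1 2 3
    ndB0q1 ndB6q3 pcB2 cut_pm_123 Ext.none :=
  certB2 (fam := false) (s1 := true) (s2 := false) (a := 1) (b := 2) (c := 3) (cn := .npn) (n1 := ndB0q1) (n2 := ndB6q3) (pc := pcB2) (cut := cut_pm_123) (xt := Ext.none) (P1 := 536870912) (W1 := 536870912) (P2 := 0) (W2 := 1230186008) (P3 := 697932185) (W3 := 42949674) (N0 := 3) (En := eng) (mo := mog) (C1 := cd0q1) (C2 := cd6q3) (C3 := pd2)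
    rfl (fun _ => rfl) s2_pm_123

noncomputable def f_pm_133 : ℕ → ℕ → ℕ → ℕ → Bool := onCell 1610612736 536870912 0 1230186008 697932185 42949674
    (rowB 3 eng mog cd0q1 cd6q3 pd3 2 false true false .dn 1 3 3 (qsf 536870912 536870912 0 1230186008 3) ndB0q1 ndB6q3 pcB3 Cut.none Ext.none)

def k0_pm_133 : ∃ t, chk3 f_pm_133 t 1 1 1 = true :=
  ⟨(b (b (a (a (a (l 16591688) (l 1)) (l 1)) (l 1)) (l 1)) (l 1)), by decide +kernel⟩

theorem c_pm_133 : CertB 536870912 536870912 0 1230186008 697932185 42949674 3 eng mog cd0q1 cd6q3 pd3 false true false .dn 1 3 3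
    ndB0q1 ndB6q3 pcB3 Cut.none Ext.none :=
  certB2 (fam := false) (s1 := true) (s2 := false) (a := 1) (b := 3) (c := 3) (cn := .dn) (n1 := ndB0q1) (n2 := ndB6q3) (pc := pcB3) (cut := Cut.none) (xt := Ext.none) (P1 := 536870912) (W1 := 536870912) (P2 := 0) (W2 := 1230186008) (P3 := 697932185) (W3 := 42949674) (N0 := 3) (En := eng) (mo := mog) (C1 := cd0q1) (C2 := cd6q3) (C3 := pd3)
    rfl (fun _ => rfl) k0_pm_133

noncomputable def f_pm_202 : ℕ → ℕ → ℕ → ℕ → Bool := onCell 0 536870912 0 536870912 697932185 42949674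
    (rowB 3 eng mog cd0q2 cd6q2 pd0 1 false true false .pp 2 0 2 (qsf 0 536870912 1073741824 536870912 0) ndB0q2 ndB6q2 pcB0 Cut.none Ext.none)

def k0_pm_202 : ∃ t, chk3 f_pm_202 t 4 8 1 = true :=
  ⟨(a (b (b (a (l 16430512) (l 16423584)) (a (b (l 16433952) (a (c (l 16484832) (l 16443712)) (l 16439368))) (b (l 16426368) (l 16434064)))) (a (b (a (b (a (b (l 16448576) (l 16451584)) (l 16437944)) (a (a (l 16456424) (l 16455560)) (a (l 16454712) (l 16453888)))) (b (l 16446072) (a (l 16452720) (l 16451200)))) (b (a (a (l 16461576) (l 16459952)) (a (l 16458296) (l 16456752))) (a (l 16500168) (a (l 16463696) (l 16462096))))) (b (b (l 16441272) (a (l 16449096) (l 16446224))) (a (a (b (l 16455312) (l 16460584)) (b (l 16453944) (l 16459216))) (b (l 16452168) (l 16483544)))))) (b (b (a (l 16417376) (l 16410856)) (a (b (l 16418776) (l 16426112)) (b (l 16410776) (l 16416080)))) (b (a (l 16437760) (l 16428784)) (a (c (l 16452080) (l 16450496)) (l 16443696))))), by decide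 +kernel⟩

def k1_pm_202 : ∃ t, chk3 f_pm_202 t 4 9 1 = true :=
  ⟨(b (a (a (a (b (a (b (l 16472232) (l 16476472)) (b (l 16470496) (l 16475408))) (a (l 16498544) (l 16478296))) (a (b (l 16523376) (l 16479216)) (b (l 16469720) (l 16478648)))) (b (a (b (l 16464984) (l 16469944)) (b (a (l 16462928) (l 16461696)) (l 16467080))) (a (l 16476808) (b (l 16471768) (l 16476296))))) (a (a (b (b (l 16480848) (l 16464672)) (b (l 16469136) (l 16473488))) (b (b (l 16457736) (l 16462272)) (b (l 16466744) (l 16471024)))) (b (c (l 16457848) (l 16455136)) (a (b (l 16464728) (l 16468664)) (l 16464744))))) (b (a (a (a (b (l 16480648) (l 16495352)) (b (l 16481056) (l 16483184))) (a (b (l 16481120) (l 16483544)) (l 16482344))) (a (a (l 16479912) (l 16477048)) (a (a (l 16475208) (l 16474128)) (a (l 16473008) (l 16472120))))) (a (a (a (b (a (l 16488448) (l 16487664)) (l 91435286759)) (b (l 16485320) (l 16510584))) (a (l 16487800) (a (l 16486504) (l 16486504)))) (a (a (l 16486512) (l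 16485016)) (a (l 16482144) (l 16480024)))))), by decide +kernel⟩

def k2_pm_202 : ∃ t, chk3 f_pm_202 t 5 4 1 = true :=
  ⟨(b (b (a (b (a (l 16404592) (a (b (l 16400272) (l 16399960)) (b (l 16397432) (a (l 16397848) (l 16396448))))) (a (b (l 16403832) (l 16405920)) (b (l 16398128) (l 16397856)))) (a (b (b (l 16388664) (l 16390208)) (a (b (a (l 16394536) (l 16392984)) (a (l 16394400) (l 16392776))) (b (l 16388064) (b (l 16389136) (l 16390072))))) (b (b (l 16371144) (l 16372728)) (c (l 16389304) (l 16361072))))) (a (b (a (l 16438920) (b (l 16401680) (l 16410240))) (a (l 16434472) (l 16423560))) (a (b (a (b (l 16394120) (l 16400256)) (b (a (l 16390992) (b (l 16388896) (l 16389040))) (l 16393128))) (l 16410824)) (b (a (b (l 16382840) (a (b (l 16386336) (l 16387744)) (l 16382264))) (l 16373088)) (a (b (a (l 16394952) (l 16388888)) (l 16401944)) (b (l 16420808) (a (l 16392512) (l 16385200)))))))) (a (b (a (b (l 16448784) (l 16460784)) (b (l 16439608) (l 16453608)))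 (a (b (c (l 16472128) (l 16469552)) (a (l 16478216) (l 16476960))) (b (l 16465472) (l 16475120)))) (b (a (b (l 16428448) (l 16444264)) (b (b (a (l 16411296) (l 16398592)) (l 16414328)) (l 16427272))) (a (l 16485392) (l 16450320))))), by decide +kernel⟩

def k3_pm_202 : ∃ t, chk3 f_pm_202 t 4 5 1 = true :=
  ⟨(b (a (b (b (a (a (a (l 102172698007) (l 101098919799)) (a (l 16496672) (b (l 16494568) (l 16499160)))) (a (b (l 16492744) (l 16494992)) (l 16492408))) (a (a (a (l 3) (l 103246456519)) (a (l 70497323079) (l 16504808))) (a (a (l 16504736) (l 16503328)) (l 16499896)))) (a (a (l 3) (b (a (l 102172730327) (l 16513232)) (b (l 101635867367) (l 16528504)))) (b (a (a (l 16513208) (l 16512880)) (a (l 16510856) (l 16508808))) (a (b (l 16519752) (l 16524216)) (b (l 16517728) (l 16522288)))))) (b (a (a (b (l 16490600) (l 16496496)) (l 16493088)) (b (a (l 16489472) (l 16486856)) (l 16568304))) (b (a (a (l 16505536) (l 16502104)) (l 16501184)) (a (a (l 16516800) (l 16513752))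 (a (l 16511048) (l 16509512)))))) (a (a (l 3) (a (b (b (b (l 16529432) (l 16535312)) (l 16544792)) (l 3)) (b (b (b (l 16526800) (l 16531448)) (l 16539336)) (b (l 16551632) (l 16563504))))) (a (a (b (b (b (l 16523952) (l 16528272)) (a (l 16536056) (l 16534384))) (b (l 16547064) (l 16558592))) (b (l 16528456) (b (l 16543008) (l 16554568)))) (b (a (l 16547256) (l 16523488)) (a (l 16546480) (l 16544120)))))), by decide +kernel⟩

def k4_pm_202 : ∃ t, chk3 f_pm_202 t 5 5 1 = true :=
  ⟨(b (a (b (a (b (a (l 16484992) (l 16483552)) (l 16490424)) (b (b (l 16480864) (l 16483832)) (b (l 16486832) (l 16495216)))) (b (a (a (l 16519552) (l 16496632)) (b (l 16493112) (l 16497312))) (a (c (l 16508816) (l 16506848)) (l 16504024)))) (b (a (b (l 16480064) (l 16487920)) (b (l 16469384) (l 16479768))) (a (b (a (b (l 16492296) (l 16496280)) (l 16494216)) (a (l 16502960) (l 16501944))) (b (l 16488512) (l 16496688))))) (a (b (a (l 16542896) (b (l 16513880) (l 16524792))) (a (a (l 16540560)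 (l 16538192)) (l 16538056))) (a (b (b (l 16511888) (l 16522408)) (l 16537632)) (b (b (a (l 16507592) (l 16502080)) (l 16514976)) (l 16531624))))), by decide +kernel⟩

def k5_pm_202 : ∃ t, chk3 f_pm_202 t 2 3 1 = true :=
  ⟨(b (a (b (a (b (a (l 3) (b (l 141901417431) (l 3))) (l 3)) (b (a (b (a (l 16569536) (l 16565904)) (l 111299773367)) (b (l 16559632) (l 16653704))) (a (b (l 142975182951) (a (l 3) (l 16597408))) (b (a (l 16583224) (l 16579104)) (a (l 16593176) (l 16589000)))))) (a (l 3) (b (a (a (l 3) (l 155323265415)) (a (l 140827747127) (b (l 16598448) (l 16606784)))) (a (l 3) (a (l 247665110823) (b (l 16613952) (l 2))))))) (b (a (a (b (l 16558952) (l 16578040)) (b (l 16547968) (l 16567376))) (b (a (l 16554688) (l 16549832)) (a (l 16566696) (l 16565712)))) (a (b (a (a (b (l 16593752) (l 16601912)) (l 16593624)) (l 16585672)) (a (a (b (l 16609712) (l 2)) (l 16608232)) (l 16601424))) (a (b (l 16573864) (l 16585816)) (l 16581392))))) (a (l 2) (b (a (l 2) (b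 (a (l 2) (l 16587488)) (l 2))) (l 2)))), by decide +kernel⟩

def k6_pm_202 : ∃ t, chk3 f_pm_202 t 6 4 1 = true :=
  ⟨(b (a (b (a (b (a (l 16353536) (l 16339384)) (a (l 16356968) (l 16342904))) (b (b (l 16316080) (l 16317760)) (l 16320456))) (a (b (a (l 16360576) (l 16346680)) (b (l 16420280) (a (l 16371288) (l 16353504)))) (b (l 16324408) (a (l 16336216) (l 16320688))))) (b (a (b (b (l 16281096) (l 16282656)) (l 16306264)) (b (a (l 16250704) (b (a (l 16232800) (l 16284888)) (a (l 16234992) (l 16223152)))) (a (l 16253936) (l 16231904)))) (a (b (l 16289352) (l 16293952)) (b (l 16310096) (l 16252032))))) (a (b (a (b (a (b (l 16383544) (l 16393944)) (l 16369600)) (a (l 16407752) (b (l 16387608) (l 16397304)))) (b (b (a (l 16343304) (l 16324688)) (l 16407104)) (l 16383672))) (a (b (l 16418248) (l 16434688)) (b (a (b (l 16390480) (l 16399688)) (l 16375424)) (a (l 16412672) (l 16396576))))) (b (a (b (a (l 16330168) (l 16289176)) (b (a (l 16320648) (l 16295696)) (l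 16320592))) (b (l 16257584) (a (l 16339280) (l 16252976)))) (a (b (l 16339976) (l 16363912)) (b (a (l 16298056) (l 16268840)) (l 16310296)))))), by decide +kernel⟩

def k7_pm_202 : ∃ t, chk3 f_pm_202 t 7 4 1 = true :=
  ⟨(b (a (b (a (b (a (b (l 16200328) (l 16204680)) (l 16173464)) (a (b (a (l 16339616) (l 16200744)) (a (l 16216064) (a (l 16207368) (l 16201720)))) (l 16181448))) (b (b (l 16126408) (l 16130472)) (l 16199920))) (a (b (a (b (l 16211784) (l 16215032)) (a (b (l 16195456) (l 16197448)) (l 16183824))) (a (l 16218920) (b (a (l 16200960) (l 16189144)) (l 16198032)))) (b (l 16167600) (a (b (l 16168872) (a (l 16181144) (l 16166944))) (l 16142456))))) (b (a (b (b (a (l 16078216) (l 16044432)) (l 16065896)) (a (l 16089696) (l 16056992))) (a (b (b (b (l 16008400) (l 16010776)) (l 16014672)) (l 16024016)) (b (a (b (b (l 15981112) (l 15983872)) (l 15988648)) (b (c (a (b (l 16016848) (l 16020744)) (l 16011880)) (l 15913728)) (l 15972656))) (a (l 16000000) (l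 15986304))))) (a (b (a (l 16100648) (l 16069288)) (l 16118744)) (a (b (l 16038400) (l 16054048)) (b (l 16010712) (l 16029176)))))) (a (b (a (b (l 16214128) (l 16221120)) (b (a (a (l 16185592) (b (l 16173072) (l 16176664))) (l 16154480)) (a (l 16188928) (a (b (l 16169984) (l 16174088)) (b (l 16156464) (l 16163544)))))) (a (b (a (l 16347016) (l 16218600)) (a (l 16266248) (l 16236792))) (b (a (l 16197616) (b (l 16256752) (l 16179176))) (a (b (l 16204904) (l 16214080)) (l 16187136))))) (a (b (b (l 16132384) (l 16167712)) (a (b (a (b (l 16156712) (l 16163312)) (l 16147024)) (a (l 16171240) (b (l 16158960) (l 16164888)))) (b (l 16128208) (l 16144576)))) (b (a (b (l 16070496) (l 16087544)) (b (l 16048032) (l 16067192))) (b (l 16221000) (l 16135040)))))), by decide +kernel⟩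

def k8_pm_202 : ∃ t, chk3 f_pm_202 t 3 5 1 = true :=
  ⟨(a (b (b (a (a (b (l 16449032) (l 16461624)) (b (l 16421200) (l 16436144))) (a (b (a (l 16396288) (l 16373960)) (a (l 16412304) (l 16393656))) (b (l 16335360) (l 16357784)))) (a (a (l 16476552) (l 16452384)) (a (l 16482992) (b (l 16374424) (l 16385600))))) (a (b (a (b (l 16490024) (l 16499024)) (l 16471848)) (a (b (l 16510072) (l 16522360)) (b (l 16487064) (l 16499800)))) (b (a (l 16441824) (l 16402320)) (l 16445680)))) (b (a (b (a (b (l 16279688) (l 16305744)) (b (a (l 16235832) (b (l 16199288) (l 16213536))) (l 16250656))) (b (a (l 16324960) (l 16274016)) (l 16315872))) (b (a (b (a (b (l 16176376) (l 16185936)) (a (b (l 16162640) (l 16169032)) (l 16156824))) (a (l 16208064) (b (a (l 16179928) (l 16232088)) (l 16188432)))) (b (l 16154336) (a (b (l 16155712) (a (a (l 16173808) (l 16168168)) (l 16161504))) (l 16146944)))) (a (b (a (l 16234944) (l 16209880)) (l 16242832)) (b (a (b (a (l 16185888) (l 16174688))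 (l 16192312)) (b (l 16162480) (l 16172720))) (a (l 16209512) (a (l 16197024) (l 16188424))))))) (a (b (a (l 16362216) (l 16316856)) (a (l 16386640) (l 16349904))) (b (a (l 16272480) (b (a (l 16232744) (l 16217000)) (l 16246816))) (a (l 16310288) (l 16279968)))))), by decide +kernel⟩

def k9_pm_202 : ∃ t, chk3 f_pm_202 t 3 3 1 = true :=
  ⟨(b (b (a (b (a (a (l 16538312) (l 16518560)) (a (l 16490928) (l 16453824))) (a (a (l 16554784) (l 16539816)) (a (l 16621000) (l 16630752)))) (b (a (l 16585048) (l 16564744)) (a (b (l 16422776) (l 16443352)) (b (a (l 16375144) (l 16354096)) (a (l 16401144) (l 16380536)))))) (a (b (a (a (l 16569016) (l 16553768)) (a (l 16534840) (l 16508024))) (a (l 16577592) (l 16782896))) (b (a (b (l 16458656) (l 16472760)) (b (l 16408112) (l 16425112))) (a (b (l 16484944) (l 16495448)) (b (l 16443704) (l 16459400)))))) (b (b (a (a (l 16587528) (l 16553960)) (a (l 16512144) (l 16481288))) (a (a (l 2) (l 16570328)) (a (l 16535512) (l 16506144))))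 (a (l 2) (a (a (l 16568928) (l 16561528)) (l 16557320))))), by decide +kernel⟩

theorem s10_pm_202 : ∃ t, chk3 f_pm_202 t 3 4 1 = true := ex3_a k6_pm_202 k7_pm_202

theorem s11_pm_202 : ∃ t, chk3 f_pm_202 t 3 2 1 = true := ex3_b s10_pm_202 k8_pm_202

theorem s12_pm_202 : ∃ t, chk3 f_pm_202 t 3 1 1 = true := ex3_b s11_pm_202 k9_pm_202

theorem s13_pm_202 : ∃ t, chk3 f_pm_202 t 2 5 1 = true := ex3_a k3_pm_202 k4_pm_202

theorem s14_pm_202 : ∃ t, chk3 f_pm_202 t 4 4 1 = true := ex3_b k0_pm_202 k1_pm_202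

theorem s15_pm_202 : ∃ t, chk3 f_pm_202 t 2 4 1 = true := ex3_a s14_pm_202 k2_pm_202

theorem s16_pm_202 : ∃ t, chk3 f_pm_202 t 2 2 1 = true := ex3_b s15_pm_202 s13_pm_202

theorem s17_pm_202 : ∃ t, chk3 f_pm_202 t 2 1 1 = true := ex3_b s16_pm_202 k5_pm_202

theorem s18_pm_202 : ∃ t, chk3 f_pm_202 t 1 1 1 = true := ex3_a s17_pm_202 s12_pm_202

theorem c_pm_202 : CertB 0 536870912 1073741824 536870912 697932185 42949674 3 eng mog cd0q2 cd6q2 pd0 false true false .pp 2 0 2
    ndB0q2 ndB6q2 pcB0 Cut.none Ext.none :=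
  certB1 (fam := false) (s1 := true) (s2 := false) (a := 2) (b := 0) (c := 2) (cn := .pp) (n1 := ndB0q2) (n2 := ndB6q2) (pc := pcB0) (cut := Cut.none) (xt := Ext.none) (P1 := 0) (W1 := 536870912) (P2 := 1073741824) (W2 := 536870912) (P3 := 697932185) (W3 := 42949674) (N0 := 3) (En := eng) (mo := mog) (C1 := cd0q2) (C2 := cd6q2) (C3 := pd0)
    rfl (fun _ => rfl) s18_pm_202

noncomputable def f_pm_203 : ℕ → ℕ → ℕ → ℕ → Bool := onCell 0 536870912 0 1230186008 697932185 42949674
    (rowB 3 eng mog cd0q2 cd6q3 pd0 0 false true false .up 2 0 3 (qsf 0 536870912 0 1230186008 0) ndB0q2 ndB6q3 pcB0 Cut.none Ext.none)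

def k0_pm_203 : ∃ t, chk3 f_pm_203 t 1 1 1 = true :=
  ⟨(b (l 2) (b (l 2) (a (b (a (l 3) (b (l 2) (b (l 2) (a (a (l 3) (a (l 131164117527) (l 16673656))) (a (a (l 16678256) (l 2)) (l 2)))))) (a (b (l 3) (a (l 3) (a (l 3) (b (a (l 3) (l 114521131207)) (a (b (l 3) (l 16623360)) (b (l 16626792) (l 16618680))))))) (b (a (b (a (a (l 3) (l 126869129879)) (a (l 16646144) (l 16652632))) (a (b (l 16643392) (l 16636560)) (b (l 16632632) (l 16628584)))) (a (b (a (l 16661240) (l 16664968)) (b (l 16647448) (l 16637720))) (l 16660320))) (a (b (a (a (b (l 16630624) (l 16627200)) (l 16621232)) (a (b (l 16607264) (l 16611440)) (l 16606384))) (b (a (a (l 16622504) (l 16618184)) (a (l 16611600) (l 16603328))) (a (a (l 16615312) (l 16611768)) (l 16605960)))) (b (a (l 16619816) (l 16628176)) (a (l 16591648) (l 16599264))))))) (b (l 2) (a (a (b (a (l 16661736) (l 16657600)) (a (b (l 16624440) (l 16599640)) (l 16607040))) (b (l 16658272) (b (l 16610576) (l 16581232)))) (b (a (l 16680488)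 (l 2)) (a (b (l 16610080) (l 16568416)) (l 16623144)))))))), by decide +kernel⟩

theorem c_pm_203 : CertB 0 536870912 0 1230186008 697932185 42949674 3 eng mog cd0q2 cd6q3 pd0 false true false .up 2 0 3
    ndB0q2 ndB6q3 pcB0 Cut.none Ext.none :=
  certB0 (fam := false) (s1 := true) (s2 := false) (a := 2) (b := 0) (c := 3) (cn := .up) (n1 := ndB0q2) (n2 := ndB6q3) (pc := pcB0) (cut := Cut.none) (xt := Ext.none) (P1 := 0) (W1 := 536870912) (P2 := 0) (W2 := 1230186008) (P3 := 697932185) (W3 := 42949674) (N0 := 3) (En := eng) (mo := mog) (C1 := cd0q2) (C2 := cd6q3) (C3 := pd0)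
    rfl k0_pm_203

noncomputable def cut_pm_213 : Cut := Cut.of [[⟨0, 1, 0, 67108864⟩, ⟨1, 1, 0, 67108864⟩, ⟨2, 2, 0, 16777216⟩]]

noncomputable def f_pm_213 : ℕ → ℕ → ℕ → ℕ → Bool := onCell 0 536870912 0 1230186008 697932185 42949674
    (rowB 3 eng mog cd0q2 cd6q3 pd1 0 false true false .pnn 2 1 3 (qsf 0 536870912 0 1230186008 1) ndB0q2 ndB6q3 pcB1 cut_pm_213 Ext.none)

def k0_pm_213 : ∃ t, chk3 f_pm_213 t 2 2 1 = true :=
  ⟨(l 3), by decide +kernel⟩

def k1_pm_213 : ∃ t, chk3 f_pm_213 t 3 4 1 = true :=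
  ⟨(a (l 3) (a (b (l 3) (a (l 3) (b (a (l 3) (l 6)) (a (b (l 3) (a (l 3) (b (l 304573604935) (l 233706646199)))) (b (a (b (l 3) (a (l 338396468615) (l 259476442439))) (b (a (b (l 314774143975) (l 275582567271)) (b (l 264308276007) (l 16785048))) (a (l 250886502647) (l 16785720)))) (a (b (l 234243514375) (l 16789560)) (l 16766840))))))) (b (l 6) (a (b (a (l 6) (l 6)) (a (b (a (l 16784448) (l 16783224)) (l 16786032)) (l 16782432))) (b (a (l 6) (l 6)) (a (l 16779272) (l 16775264))))))), by decide +kernel⟩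

def k2_pm_213 : ∃ t, chk3 f_pm_213 t 3 5 1 = true :=
  ⟨(a (a (l 3) (b (b (l 3) (a (l 3) (a (l 3) (a (l 3) (b (l 3) (b (l 3) (b (l 286320000023) (l 234780376887)))))))) (b (a (l 3) (a (b (l 3) (a (b (l 3) (l 216526785271)) (b (l 219747989431) (l 171429608519)))) (b (a (b (l 278266935287) (c (l 186998870407) (l 184314504951))) (b (c (l 240685968567) (l 183777634887)) (l 16801320))) (b (a (l 16800072) (l 16806576)) (l 16808792))))) (a (b (a (l 3) (a (l 3) (b (l 166060917975) (l 158007830727)))) (a (b (l 3) (a (l 3) (a (l 3) (l 154786590647)))) (b (a (l 155860340679) (l 16777504)) (a (b (l 146196665751) (l 16795928)) (l 16802752))))) (a (b (b (a (l 149417898439) (l 16803768)) (l 16805224)) (l 16791232)) (b (l 16817080) (l 16828528))))))) (b (a (b (a (a (l 3) (b (a (l 3) (b (l 3) (l 289541232231))) (a (b (l 3) (l 282025033287)) (b (l 250349643287) (l 16803592))))) (a (b (a (b (l 271287616359) (l 240149103431)) (b (l 252497116135) (l 16794496))) (a (l 16800056)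 (l 16798360))) (b (l 16791624) (l 16796136)))) (a (a (b (a (b (l 3) (l 296520548327)) (b (a (l 3) (l 269140139447)) (c (l 241222831527) (l 213842412455)))) (a (b (a (l 257328973655) (l 241759703367)) (c (l 16799960) (l 16798168))) (b (l 16780840) (l 16805680)))) (b (a (b (l 249812770647) (l 16804720)) (l 16808816)) (l 16792832))) (a (b (l 16805480) (l 16812768)) (l 16804888)))) (a (b (a (l 16791536) (l 16788008)) (a (l 16800632) (l 16795880))) (b (a (l 16783248) (l 16780224)) (l 16788624)))) (a (b (a (a (b (c (l 16778256) (l 16776992)) (l 16820072)) (a (l 16825088) (l 16827824))) (a (l 16823000) (l 16817120))) (a (b (l 16841768) (l 16854072)) (l 16833656))) (a (l 16815392) (l 16801168))))), by decide +kernel⟩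

def k3_pm_213 : ∃ t, chk3 f_pm_213 t 1 6 1 = true :=
  ⟨(a (b (l 3) (a (l 3) (a (l 3) (b (l 3) (a (l 3) (b (l 200957513447) (l 199346823975))))))) (b (a (a (b (a (l 3) (b (l 3) (a (l 3) (a (b (l 3) (a (l 3) (b (l 168745286071) (l 147807313063)))) (b (b (l 160155339527) (l 145122943911)) (b (l 113984448583) (l 16809464))))))) (a (b (l 3) (a (l 3) (l 316384809895))) (b (a (b (a (l 3) (b (l 3) (b (l 181630205799) (b (l 196662577239) (l 171429660567))))) (a (l 3) (b (a (l 335712160247) (l 140291141911)) (l 16803664)))) (b (a (a (b (a (l 171966524231) (l 95730841495)) (b (l 72108529511) (l 16813168))) (b (l 16809976) (l 16815832))) (l 16818744)) (a (l 16819872) (l 16827936)))) (a (b (l 140827997111) (l 16819992)) (l 16834080))))) (b (a (b (a (b (a (l 165524038391) (b (l 147270401815) (l 16773344))) (a (a (l 154249727319) (l 123648092439)) (l 16800120))) (b (l 16783464) (l 16812320))) (a (b (a (l 100562660775) (l 16809888)) (l 16817760)) (l 16807304))) (a (b (l 16803400)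 (l 16844528)) (b (l 16842016) (l 16859856)))) (a (b (a (a (l 16810328) (l 16817744)) (l 16851168)) (a (l 16851096) (l 16868656))) (b (b (l 16870168) (l 16879192)) (l 16892360))))) (a (b (a (b (l 16864608) (l 16869952)) (l 16848472)) (b (l 16866864) (l 16877616))) (b (a (l 16832640) (l 16818952)) (a (l 16784952) (l 16833464))))) (a (a (b (a (b (a (l 324437864567) (l 148881040167)) (l 141901677815)) (b (l 16815400) (l 16847264))) (a (b (l 16810192) (l 16802648)) (b (l 16852592) (l 16835824)))) (b (a (b (l 16872160) (l 16881984)) (l 16911984)) (l 16923064))) (a (b (b (l 16887992) (l 16902192)) (l 16935400)) (b (l 16868976) (l 16899712)))))), by decide +kernel⟩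

def k4_pm_213 : ∃ t, chk3 f_pm_213 t 1 7 1 = true :=
  ⟨(b (a (a (l 3) (b (a (l 3) (a (b (l 179482590503) (l 178945678247)) (b (l 16754552) (l 16736240)))) (a (a (l 3) (a (b (l 3) (l 134922220183)) (b (l 146733396263) (l 16676488)))) (b (a (l 155323343815) (a (l 16716216) (l 16719704))) (a (a (l 16686112) (l 16697240)) (b (l 16704928) (l 16698408))))))) (a (b (a (a (b (l 16776576) (l 16749392)) (l 16786664)) (b (l 16868888) (l 16819448))) (a (a (l 16717448) (l 16729304)) (a (l 16742056) (l 16763464)))) (b (a (b (l 16972232) (l 16947096)) (l 16945128)) (a (l 16832944) (l 16996112))))) (b (a (a (l 1) (a (l 1) (a (b (a (l 16681608) (l 16686048)) (l 1)) (l 16684560)))) (a (a (a (l 16683968) (l 16678632)) (l 16680032)) (a (l 16712096) (l 16814032)))) (a (l 1) (a (l 1) (a (a (l 16612952) (l 16618064)) (l 16653216)))))), by decide +kernel⟩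

theorem s5_pm_213 : ∃ t, chk3 f_pm_213 t 1 3 1 = true := ex3_b k3_pm_213 k4_pm_213

theorem s6_pm_213 : ∃ t, chk3 f_pm_213 t 3 2 1 = true := ex3_b k1_pm_213 k2_pm_213

theorem s7_pm_213 : ∃ t, chk3 f_pm_213 t 1 2 1 = true := ex3_a k0_pm_213 s6_pm_213

theorem s8_pm_213 : ∃ t, chk3 f_pm_213 t 1 1 1 = true := ex3_b s7_pm_213 s5_pm_213

theorem c_pm_213 : CertB 0 536870912 0 1230186008 697932185 42949674 3 eng mog cd0q2 cd6q3 pd1 false true false .pnn 2 1 3
    ndB0q2 ndB6q3 pcB1 cut_pm_213 Ext.none :=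
  certB0 (fam := false) (s1 := true) (s2 := false) (a := 2) (b := 1) (c := 3) (cn := .pnn) (n1 := ndB0q2) (n2 := ndB6q3) (pc := pcB1) (cut := cut_pm_213) (xt := Ext.none) (P1 := 0) (W1 := 536870912) (P2 := 0) (W2 := 1230186008) (P3 := 697932185) (W3 := 42949674) (N0 := 3) (En := eng) (mo := mog) (C1 := cd0q2) (C2 := cd6q3) (C3 := pd1)
    rfl s8_pm_213

noncomputable def f_mm_001 : ℕ → ℕ → ℕ → ℕ → Bool := onCell 0 536870912 0 536870912 697932185 42949674
    (rowB 3 eng mog cd0q0 cd6q1 pd0 1 false false false .up 0 0 1 (qsf 0 536870912 536870912 536870912 0) ndB0q0 ndB6q1 pcB0 Cut.none Ext.none)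

def k0_mm_001 : ∃ t, chk3 f_mm_001 t 1 1 1 = true :=
  ⟨(l 3), by decide +kernel⟩

theorem c_mm_001 : CertB 0 536870912 536870912 536870912 697932185 42949674 3 eng mog cd0q0 cd6q1 pd0 false false false .up 0 0 1
    ndB0q0 ndB6q1 pcB0 Cut.none Ext.none :=
  certB1 (fam := false) (s1 := false) (s2 := false) (a := 0) (b := 0) (c := 1) (cn := .up) (n1 := ndB0q0) (n2 := ndB6q1) (pc := pcB0) (cut := Cut.none) (xt := Ext.none) (P1 := 0) (W1 := 536870912) (P2 := 536870912) (W2 := 536870912) (P3 := 697932185) (W3 := 42949674) (N0 := 3) (En := eng) (mo := mog) (C1 := cd0q0) (C2 := cd6q1) (C3 := pd0)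
    rfl (fun _ => rfl) k0_mm_001

noncomputable def f_mm_011 : ℕ → ℕ → ℕ → ℕ → Bool := onCell 0 536870912 536870912 536870912 697932185 42949674
    (rowB 3 eng mog cd0q0 cd6q1 pd1 1 false false false .pnn 0 1 1 (qsf 0 536870912 536870912 536870912 1) ndB0q0 ndB6q1 pcB1 Cut.none Ext.none)

def k0_mm_011 : ∃ t, chk3 f_mm_011 t 1 1 1 = true :=
  ⟨(l 5), by decide +kernel⟩

theorem c_mm_011 : CertB 0 536870912 536870912 536870912 697932185 42949674 3 eng mog cd0q0 cd6q1 pd1 false false false .pnn 0 1 1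
    ndB0q0 ndB6q1 pcB1 Cut.none Ext.none :=
  certB1 (fam := false) (s1 := false) (s2 := false) (a := 0) (b := 1) (c := 1) (cn := .pnn) (n1 := ndB0q0) (n2 := ndB6q1) (pc := pcB1) (cut := Cut.none) (xt := Ext.none) (P1 := 0) (W1 := 536870912) (P2 := 536870912) (W2 := 536870912) (P3 := 697932185) (W3 := 42949674) (N0 := 3) (En := eng) (mo := mog) (C1 := cd0q0) (C2 := cd6q1) (C3 := pd1)
    rfl (fun _ => rfl) k0_mm_011

noncomputable def f_mm_012 : ℕ → ℕ → ℕ → ℕ → Bool := onCell 0 536870912 1073741824 536870912 697932185 42949674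
    (rowB 3 eng mog cd0q0 cd6q2 pd1 0 false false false .pnp 0 1 2 (qsf 0 536870912 1073741824 536870912 1) ndB0q0 ndB6q2 pcB1 Cut.none Ext.none)

def k0_mm_012 : ∃ t, chk3 f_mm_012 t 1 1 1 = true :=
  ⟨(l 5), by decide +kernel⟩

theorem c_mm_012 : CertB 0 536870912 1073741824 536870912 697932185 42949674 3 eng mog cd0q0 cd6q2 pd1 false false false .pnp 0 1 2
    ndB0q0 ndB6q2 pcB1 Cut.none Ext.none :=
  certB0 (fam := false) (s1 := false) (s2 := false) (a := 0) (b := 1) (c := 2) (cn := .pnp) (n1 := ndB0q0) (n2 := ndB6q2) (pc := pcB1) (cut := Cut.none) (xt := Ext.none) (P1 := 0) (W1 := 536870912) (P2 := 1073741824) (W2 := 536870912) (P3 := 697932185) (W3 := 42949674) (N0 := 3) (En := eng) (mo := mog) (C1 := cd0q0) (C2 := cd6q2) (C3 := pd1)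
    rfl k0_mm_012

noncomputable def f_mm_022 : ℕ → ℕ → ℕ → ℕ → Bool := onCell 0 536870912 1073741824 536870912 697932185 42949674
    (rowB 3 eng mog cd0q0 cd6q2 pd2 0 false false false .pp 0 2 2 (qsf 0 536870912 1073741824 536870912 2) ndB0q0 ndB6q2 pcB2 Cut.none Ext.none)

def k0_mm_022 : ∃ t, chk3 f_mm_022 t 1 1 1 = true :=
  ⟨(l 5), by decide +kernel⟩

theorem c_mm_022 : CertB 0 536870912 1073741824 536870912 697932185 42949674 3 eng mog cd0q0 cd6q2 pd2 false false false .pp 0 2 2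
    ndB0q0 ndB6q2 pcB2 Cut.none Ext.none :=
  certB0 (fam := false) (s1 := false) (s2 := false) (a := 0) (b := 2) (c := 2) (cn := .pp) (n1 := ndB0q0) (n2 := ndB6q2) (pc := pcB2) (cut := Cut.none) (xt := Ext.none) (P1 := 0) (W1 := 536870912) (P2 := 1073741824) (W2 := 536870912) (P3 := 697932185) (W3 := 42949674) (N0 := 3) (En := eng) (mo := mog) (C1 := cd0q0) (C2 := cd6q2) (C3 := pd2)
    rfl k0_mm_022

noncomputable def f_mm_023 : ℕ → ℕ → ℕ → ℕ → Bool := onCell 0 536870912 0 1230186008 697932185 42949674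
    (rowB 3 eng mog cd0q0 cd6q3 pd2 0 false false false .up 0 2 3 (qsf 0 536870912 0 1230186008 2) ndB0q0 ndB6q3 pcB2 Cut.none Ext.none)

def k0_mm_023 : ∃ t, chk3 f_mm_023 t 1 1 1 = true :=
  ⟨(l 5), by decide +kernel⟩

theorem c_mm_023 : CertB 0 536870912 0 1230186008 697932185 42949674 3 eng mog cd0q0 cd6q3 pd2 false false false .up 0 2 3
    ndB0q0 ndB6q3 pcB2 Cut.none Ext.none :=
  certB0 (fam := false) (s1 := false) (s2 := false) (a := 0) (b := 2) (c := 3) (cn := .up) (n1 := ndB0q0) (n2 := ndB6q3) (pc := pcB2) (cut := Cut.none) (xt := Ext.none) (P1 := 0) (W1 := 536870912) (P2 := 0) (W2 := 1230186008) (P3 := 697932185) (W3 := 42949674) (N0 := 3) (En := eng) (mo := mog) (C1 := cd0q0) (C2 := cd6q3) (C3 := pd2)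
    rfl k0_mm_023

noncomputable def f_mm_033 : ℕ → ℕ → ℕ → ℕ → Bool := onCell 0 536870912 0 1230186008 697932185 42949674
    (rowB 3 eng mog cd0q0 cd6q3 pd3 0 false false false .pnn 0 3 3 (qsf 0 536870912 0 1230186008 3) ndB0q0 ndB6q3 pcB3 Cut.none Ext.none)

def k0_mm_033 : ∃ t, chk3 f_mm_033 t 1 1 1 = true :=
  ⟨(l 5), by decide +kernel⟩

theorem c_mm_033 : CertB 0 536870912 0 1230186008 697932185 42949674 3 eng mog cd0q0 cd6q3 pd3 false false false .pnn 0 3 3
    ndB0q0 ndB6q3 pcB3 Cut.none Ext.none :=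
  certB0 (fam := false) (s1 := false) (s2 := false) (a := 0) (b := 3) (c := 3) (cn := .pnn) (n1 := ndB0q0) (n2 := ndB6q3) (pc := pcB3) (cut := Cut.none) (xt := Ext.none) (P1 := 0) (W1 := 536870912) (P2 := 0) (W2 := 1230186008) (P3 := 697932185) (W3 := 42949674) (N0 := 3) (En := eng) (mo := mog) (C1 := cd0q0) (C2 := cd6q3) (C3 := pd3)
    rfl k0_mm_033

noncomputable def cut_mm_101 : Cut := Cut.of [[⟨0, 1, 0, 67108864⟩, ⟨1, 0, 0, 67108864⟩, ⟨2, 1, 0, 67108864⟩]]

noncomputable def f_mm_101 : ℕ → ℕ → ℕ → ℕ → Bool := onCell 536870912 536870912 0 536870912 697932185 42949674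
    (rowB 3 eng mog cd0q1 cd6q1 pd0 1 false false false .npn 1 0 1 (qsf 536870912 536870912 536870912 536870912 0) ndB0q1 ndB6q1 pcB0 cut_mm_101 Ext.none)

def k0_mm_101 : ∃ t, chk3 f_mm_101 t 1 1 1 = true :=
  ⟨(a (l 3) (b (a (l 3) (b (a (l 3) (b (a (l 3) (b (l 6) (l 3))) (l 3))) (l 3))) (l 3))), by decide +kernel⟩

theorem c_mm_101 : CertB 536870912 536870912 536870912 536870912 697932185 42949674 3 eng mog cd0q1 cd6q1 pd0 false false false .npn 1 0 1
    ndB0q1 ndB6q1 pcB0 cut_mm_101 Ext.none :=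
  certB1 (fam := false) (s1 := false) (s2 := false) (a := 1) (b := 0) (c := 1) (cn := .npn) (n1 := ndB0q1) (n2 := ndB6q1) (pc := pcB0) (cut := cut_mm_101) (xt := Ext.none) (P1 := 536870912) (W1 := 536870912) (P2 := 536870912) (W2 := 536870912) (P3 := 697932185) (W3 := 42949674) (N0 := 3) (En := eng) (mo := mog) (C1 := cd0q1) (C2 := cd6q1) (C3 := pd0)
    rfl (fun _ => rfl) k0_mm_101

noncomputable def f_mm_102 : ℕ → ℕ → ℕ → ℕ → Bool := onCell 536870912 536870912 1073741824 536870912 697932185 42949674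
    (rowB 3 eng mog cd0q1 cd6q2 pd0 0 false false false .npp 1 0 2 (qsf 536870912 536870912 1073741824 536870912 0) ndB0q1 ndB6q2 pcB0 Cut.none Ext.none)

def k0_mm_102 : ∃ t, chk3 f_mm_102 t 1 1 1 = true :=
  ⟨(l 3), by decide +kernel⟩

theorem c_mm_102 : CertB 536870912 536870912 1073741824 536870912 697932185 42949674 3 eng mog cd0q1 cd6q2 pd0 false false false .npp 1 0 2
    ndB0q1 ndB6q2 pcB0 Cut.none Ext.none :=
  certB0 (fam := false) (s1 := false) (s2 := false) (a := 1) (b := 0) (c := 2) (cn := .npp) (n1 := ndB0q1) (n2 := ndB6q2) (pc := pcB0) (cut := Cut.none) (xt := Ext.none) (P1 := 536870912) (W1 := 536870912) (P2 := 1073741824) (W2 := 536870912) (P3 := 697932185) (W3 := 42949674) (N0 := 3) (En := eng) (mo := mog) (C1 := cd0q1) (C2 := cd6q2) (C3 := pd0)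
    rfl k0_mm_102

noncomputable def f_mm_112 : ℕ → ℕ → ℕ → ℕ → Bool := onCell 536870912 536870912 1073741824 536870912 697932185 42949674
    (rowB 3 eng mog cd0q1 cd6q2 pd1 0 false false false .dn 1 1 2 (qsf 536870912 536870912 1073741824 536870912 1) ndB0q1 ndB6q2 pcB1 Cut.none Ext.none)

def k0_mm_112 : ∃ t, chk3 f_mm_112 t 1 1 1 = true :=
  ⟨(l 3), by decide +kernel⟩

theorem c_mm_112 : CertB 536870912 536870912 1073741824 536870912 697932185 42949674 3 eng mog cd0q1 cd6q2 pd1 false false false .dn 1 1 2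
    ndB0q1 ndB6q2 pcB1 Cut.none Ext.none :=
  certB0 (fam := false) (s1 := false) (s2 := false) (a := 1) (b := 1) (c := 2) (cn := .dn) (n1 := ndB0q1) (n2 := ndB6q2) (pc := pcB1) (cut := Cut.none) (xt := Ext.none) (P1 := 536870912) (W1 := 536870912) (P2 := 1073741824) (W2 := 536870912) (P3 := 697932185) (W3 := 42949674) (N0 := 3) (En := eng) (mo := mog) (C1 := cd0q1) (C2 := cd6q2) (C3 := pd1)
    rfl k0_mm_112

noncomputable def f_mm_113 : ℕ → ℕ → ℕ → ℕ → Bool := onCell 536870912 536870912 0 1230186008 697932185 42949674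
    (rowB 3 eng mog cd0q1 cd6q3 pd1 0 false false false .nn 1 1 3 (qsf 536870912 536870912 0 1230186008 1) ndB0q1 ndB6q3 pcB1 Cut.none Ext.none)

def k0_mm_113 : ∃ t, chk3 f_mm_113 t 1 1 1 = true :=
  ⟨(b (l 5) (b (l 5) (a (l 5) (l 3)))), by decide +kernel⟩

theorem c_mm_113 : CertB 536870912 536870912 0 1230186008 697932185 42949674 3 eng mog cd0q1 cd6q3 pd1 false false false .nn 1 1 3
    ndB0q1 ndB6q3 pcB1 Cut.none Ext.none :=
  certB0 (fam := false) (s1 := false) (s2 := false) (a := 1) (b := 1) (c := 3) (cn := .nn) (n1 := ndB0q1) (n2 := ndB6q3) (pc := pcB1) (cut := Cut.none) (xt := Ext.none) (P1 := 536870912) (W1 := 536870912) (P2 := 0) (W2 := 1230186008) (P3 := 697932185) (W3 := 42949674) (N0 := 3) (En := eng) (mo := mog) (C1 := cd0q1) (C2 := cd6q3) (C3 := pd1)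
    rfl k0_mm_113

noncomputable def f_mm_123 : ℕ → ℕ → ℕ → ℕ → Bool := onCell 1073741824 536870912 0 1230186008 697932185 42949674
    (rowB 3 eng mog cd0q1 cd6q3 pd2 2 false false false .npn 1 2 3 (qsf 536870912 536870912 0 1230186008 2) ndB0q1 ndB6q3 pcB2 Cut.none Ext.none)

def k0_mm_123 : ∃ t, chk3 f_mm_123 t 1 1 1 = true :=
  ⟨(b (l 5) (l 5)), by decide +kernel⟩

theorem c_mm_123 : CertB 536870912 536870912 0 1230186008 697932185 42949674 3 eng mog cd0q1 cd6q3 pd2 false false false .npn 1 2 3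
    ndB0q1 ndB6q3 pcB2 Cut.none Ext.none :=
  certB2 (fam := false) (s1 := false) (s2 := false) (a := 1) (b := 2) (c := 3) (cn := .npn) (n1 := ndB0q1) (n2 := ndB6q3) (pc := pcB2) (cut := Cut.none) (xt := Ext.none) (P1 := 536870912) (W1 := 536870912) (P2 := 0) (W2 := 1230186008) (P3 := 697932185) (W3 := 42949674) (N0 := 3) (En := eng) (mo := mog) (C1 := cd0q1) (C2 := cd6q3) (C3 := pd2)
    rfl (fun _ => rfl) k0_mm_123

noncomputable def f_mm_133 : ℕ → ℕ → ℕ → ℕ → Bool := onCell 1610612736 536870912 0 1230186008 697932185 42949674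
    (rowB 3 eng mog cd0q1 cd6q3 pd3 2 false false false .dn 1 3 3 (qsf 536870912 536870912 0 1230186008 3) ndB0q1 ndB6q3 pcB3 Cut.none Ext.none)

def k0_mm_133 : ∃ t, chk3 f_mm_133 t 1 1 1 = true :=
  ⟨(l 5), by decide +kernel⟩

theorem c_mm_133 : CertB 536870912 536870912 0 1230186008 697932185 42949674 3 eng mog cd0q1 cd6q3 pd3 false false false .dn 1 3 3
    ndB0q1 ndB6q3 pcB3 Cut.none Ext.none :=
  certB2 (fam := false) (s1 := false) (s2 := false) (a := 1) (b := 3) (c := 3) (cn := .dn) (n1 := ndB0q1) (n2 := ndB6q3) (pc := pcB3) (cut := Cut.none) (xt := Ext.none) (P1 := 536870912) (W1 := 536870912) (P2 := 0) (W2 := 1230186008) (P3 := 697932185) (W3 := 42949674) (N0 := 3) (En := eng) (mo := mog) (C1 := cd0q1) (C2 := cd6q3) (C3 := pd3)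
    rfl (fun _ => rfl) k0_mm_133

end Pool.Agent.Strip051.G.I6500_6900.Tab.C.BB06

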