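import Pool.Agent.Strip051.G.I6500_6900.Tab

/-! # Certificates B27 (generated) -/

set_option linter.all false
set_option maxRecDepth 100000

namespace Pool.Agent.Strip051.G.I6500_6900.Tab.C.BB06

open Pool.Agent.Strip051.PB Pool.Agent.Strip051.PB.T
open Pool.Agent.Strip051.G.I6500_6900.Tab

noncomputable def f_mm_202 : ℕ → ℕ → ℕ → ℕ → Bool := onCell 0 536870912 0 536870912 697932185 42949674
    (rowB 3 eng mog cd0q2 cd6q2 pd0 1 false false false .pp 2 0 2 (qsf 0 536870912 1073741824 536870912 0) ndB0q2 ndB6q2 pcB0 Cut.none Ext.none)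

def k0_mm_202 : ∃ t, chk3 f_mm_202 t 1 1 1 = true :=
  ⟨(a (b (b (a (a (a (b (b (a (b (l 16436688) (a (b (l 16418000) (b (l 16444032) (l 16405312))) (b (b (l 16439176) (a (l 16442120) (l 16443120))) (c (l 16467936) (l 16427416))))) (b (b (l 16441952) (a (b (l 16440000) (l 16439560)) (b (l 16379616) (b (l 16441936) (l 16441512))))) (a (b (b (a (l 16440576) (l 16441560)) (l 16465320)) (c (l 16490704) (l 16429384))) (b (a (b (l 16442400) (l 16445840)) (b (l 16443432) (l 16446752))) (a (b (l 16449088) (l 16452336)) (b (l 16450136) (l 16453360))))))) (b (a (a (b (b (l 16450296) (l 16453328)) (l 16457736)) (b (a (l 16453168) (l 16454120)) (a (l 16459152) (l 16460104)))) (b (a (b (a (l 16453512) (l 16454496)) (l 16457088)) (a (l 16457056) (a (l 16457816) (l 16458336)))) (a (b (l 16460072) (l 16462992)) (l 16463616)))) (a (a (b (l 16487032) (l 16468856)) (b (l 16465248) (l 16470624))) (a (b (l 16467288) (l 16472728)) (l 102172697223))))) (b (a (a (b (l 16496064)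 (l 83919104855)) (b (b (l 16475832) (l 16477784)) (l 128479384439))) (b (l 88750977831) (l 3))) (b (a (b (l 86603439751) (l 98414611111)) (l 3)) (l 3)))) (b (a (b (b (b (a (b (l 16446216) (l 16445696)) (b (l 16448992) (l 16447952))) (c (b (b (l 16476912) (l 96267065527)) (l 98414541207)) (b (l 118815574199) (l 111299350615)))) (a (b (b (c (b (l 102172652247) (l 16445496)) (l 16487568)) (l 115057448311)) (c (l 101098935223) (l 115594286007))) (l 3))) (b (b (l 128479279255) (l 3)) (l 3))) (l 3)) (l 3))) (l 3)) (l 3)) (l 3)) (l 3)) (l 3)), by decide +kernel⟩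

theorem c_mm_202 : CertB 0 536870912 1073741824 536870912 697932185 42949674 3 eng mog cd0q2 cd6q2 pd0 false false false .pp 2 0 2
    ndB0q2 ndB6q2 pcB0 Cut.none Ext.none :=
  certB1 (fam := false) (s1 := false) (s2 := false) (a := 2) (b := 0) (c := 2) (cn := .pp) (n1 := ndB0q2) (n2 := ndB6q2) (pc := pcB0) (cut := Cut.none) (xt := Ext.none) (P1 := 0) (W1 := 536870912) (P2 := 1073741824) (W2 := 536870912) (P3 := 697932185) (W3 := 42949674) (N0 := 3) (En := eng) (mo := mog) (C1 := cd0q2) (C2 := cd6q2) (C3 := pd0)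
    rfl (fun _ => rfl) k0_mm_202

noncomputable def f_mm_203 : ℕ → ℕ → ℕ → ℕ → Bool := onCell 0 536870912 0 1230186008 697932185 42949674
    (rowB 3 eng mog cd0q2 cd6q3 pd0 0 false false false .up 2 0 3 (qsf 0 536870912 0 1230186008 0) ndB0q2 ndB6q3 pcB0 Cut.none Ext.none)

def k0_mm_203 : ∃ t, chk3 f_mm_203 t 1 1 1 = true :=
  ⟨(b (l 2) (b (l 2) (l 3))), by decide +kernel⟩

theorem c_mm_203 : CertB 0 536870912 0 1230186008 697932185 42949674 3 eng mog cd0q2 cd6q3 pd0 false false false .up 2 0 3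
    ndB0q2 ndB6q3 pcB0 Cut.none Ext.none :=
  certB0 (fam := false) (s1 := false) (s2 := false) (a := 2) (b := 0) (c := 3) (cn := .up) (n1 := ndB0q2) (n2 := ndB6q3) (pc := pcB0) (cut := Cut.none) (xt := Ext.none) (P1 := 0) (W1 := 536870912) (P2 := 0) (W2 := 1230186008) (P3 := 697932185) (W3 := 42949674) (N0 := 3) (En := eng) (mo := mog) (C1 := cd0q2) (C2 := cd6q3) (C3 := pd0)
    rfl k0_mm_203

noncomputable def f_mm_213 : ℕ → ℕ → ℕ → ℕ → Bool := onCell 0 536870912 0 1230186008 697932185 42949674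
    (rowB 3 eng mog cd0q2 cd6q3 pd1 0 false false false .pnn 2 1 3 (qsf 0 536870912 0 1230186008 1) ndB0q2 ndB6q3 pcB1 Cut.none Ext.none)

def k0_mm_213 : ∃ t, chk3 f_mm_213 t 1 1 1 = true :=
  ⟨(b (a (l 3) (b (l 5) (l 3))) (b (l 3) (l 3))), by decide +kernel⟩

theorem c_mm_213 : CertB 0 536870912 0 1230186008 697932185 42949674 3 eng mog cd0q2 cd6q3 pd1 false false false .pnn 2 1 3
    ndB0q2 ndB6q3 pcB1 Cut.none Ext.none :=
  certB0 (fam := false) (s1 := false) (s2 := false) (a := 2) (b := 1) (c := 3) (cn := .pnn) (n1 := ndB0q2) (n2 := ndB6q3) (pc := pcB1) (cut := Cut.none) (xt := Ext.none) (P1 := 0) (W1 := 536870912) (P2 := 0) (W2 := 1230186008) (P3 := 697932185) (W3 := 42949674) (N0 := 3) (En := eng) (mo := mog) (C1 := cd0q2) (C2 := cd6q3) (C3 := pd1)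
    rfl k0_mm_213

end Pool.Agent.Strip051.G.I6500_6900.Tab.C.BB06

namespace Pool.Agent.Strip051.G.I6500_6900.Tab.C.BB07

open Pool.Agent.Strip051.PB Pool.Agent.Strip051.PB.T
open Pool.Agent.Strip051.G.I6500_6900.Tab

noncomputable def cut_pp_001 : Cut := Cut.of [[⟨3, 0, 0, 1449551462⟩]]

noncomputable def f_pp_001 : ℕ → ℕ → ℕ → ℕ → Bool := onCell 0 536870912 536870912 536870912 697932185 42949674
    (rowB 3 eng mog cd0q0 cd7q1 pd0 0 false true true .up 0 0 1 (qsf 0 536870912 536870912 536870912 0) ndB0q0 ndB7q1 pcB0 cut_pp_001 Ext.none)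

def k0_pp_001 : ∃ t, chk3 f_pp_001 t 1 1 1 = true :=
  ⟨(l 6), by decide +kernel⟩

theorem c_pp_001 : CertB 0 536870912 536870912 536870912 697932185 42949674 3 eng mog cd0q0 cd7q1 pd0 false true true .up 0 0 1
    ndB0q0 ndB7q1 pcB0 cut_pp_001 Ext.none :=
  certB0 (fam := false) (s1 := true) (s2 := true) (a := 0) (b := 0) (c := 1) (cn := .up) (n1 := ndB0q0) (n2 := ndB7q1) (pc := pcB0) (cut := cut_pp_001) (xt := Ext.none) (P1 := 0) (W1 := 536870912) (P2 := 536870912) (W2 := 536870912) (P3 := 697932185) (W3 := 42949674) (N0 := 3) (En := eng) (mo := mog) (C1 := cd0q0) (C2 := cd7q1) (C3 := pd0)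
    rfl k0_pp_001

noncomputable def cut_pp_011 : Cut := Cut.of [[⟨3, 0, 0, 1449551462⟩], [⟨0, 0, 0, 67108864⟩, ⟨1, 1, 0, 67108864⟩, ⟨2, 1, 0, 67108864⟩]]

noncomputable def f_pp_011 : ℕ → ℕ → ℕ → ℕ → Bool := onCell 0 536870912 536870912 536870912 697932185 42949674
    (rowB 3 eng mog cd0q0 cd7q1 pd1 0 false true true .pnn 0 1 1 (qsf 0 536870912 536870912 536870912 1) ndB0q0 ndB7q1 pcB1 cut_pp_011 Ext.none)

def k0_pp_011 : ∃ t, chk3 f_pp_011 t 1 1 1 = true :=
  ⟨(l 6), by decide +kernel⟩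

theorem c_pp_011 : CertB 0 536870912 536870912 536870912 697932185 42949674 3 eng mog cd0q0 cd7q1 pd1 false true true .pnn 0 1 1
    ndB0q0 ndB7q1 pcB1 cut_pp_011 Ext.none :=
  certB0 (fam := false) (s1 := true) (s2 := true) (a := 0) (b := 1) (c := 1) (cn := .pnn) (n1 := ndB0q0) (n2 := ndB7q1) (pc := pcB1) (cut := cut_pp_011) (xt := Ext.none) (P1 := 0) (W1 := 536870912) (P2 := 536870912) (W2 := 536870912) (P3 := 697932185) (W3 := 42949674) (N0 := 3) (En := eng) (mo := mog) (C1 := cd0q0) (C2 := cd7q1) (C3 := pd1)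
    rfl k0_pp_011

noncomputable def cut_pp_012 : Cut := Cut.of [[⟨3, 0, 0, 1449551462⟩], [⟨0, 0, 0, 67108864⟩, ⟨1, 1, 0, 67108864⟩, ⟨2, 1, 0, 67108864⟩]]

noncomputable def f_pp_012 : ℕ → ℕ → ℕ → ℕ → Bool := onCell 0 536870912 536870912 536870912 697932185 42949674
    (rowB 3 eng mog cd0q0 cd7q2 pd1 1 false true true .pnp 0 1 2 (qsf 0 536870912 1073741824 536870912 1) ndB0q0 ndB7q2 pcB1 cut_pp_012 Ext.none)

def k0_pp_012 : ∃ t, chk3 f_pp_012 t 1 1 1 = true :=
  ⟨(l 6), by decide +kernel⟩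

theorem c_pp_012 : CertB 0 536870912 1073741824 536870912 697932185 42949674 3 eng mog cd0q0 cd7q2 pd1 false true true .pnp 0 1 2
    ndB0q0 ndB7q2 pcB1 cut_pp_012 Ext.none :=
  certB1 (fam := false) (s1 := true) (s2 := true) (a := 0) (b := 1) (c := 2) (cn := .pnp) (n1 := ndB0q0) (n2 := ndB7q2) (pc := pcB1) (cut := cut_pp_012) (xt := Ext.none) (P1 := 0) (W1 := 536870912) (P2 := 1073741824) (W2 := 536870912) (P3 := 697932185) (W3 := 42949674) (N0 := 3) (En := eng) (mo := mog) (C1 := cd0q0) (C2 := cd7q2) (C3 := pd1)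
    rfl (fun _ => rfl) k0_pp_012

noncomputable def cut_pp_022 : Cut := Cut.of [[⟨3, 0, 0, 1449551462⟩], [⟨0, 0, 0, 53687091⟩, ⟨1, 1, 0, 53687091⟩, ⟨2, 1, 0, 53687091⟩]]

noncomputable def f_pp_022 : ℕ → ℕ → ℕ → ℕ → Bool := onCell 0 536870912 1073741824 536870912 697932185 42949674
    (rowB 3 eng mog cd0q0 cd7q2 pd2 0 false true true .pp 0 2 2 (qsf 0 536870912 1073741824 536870912 2) ndB0q0 ndB7q2 pcB2 cut_pp_022 Ext.none)

def k0_pp_022 : ∃ t, chk3 f_pp_022 t 1 1 1 = true :=
  ⟨(a (b (l 6) (a (b (b (a (a (b (l 6) (l 16194008)) (l 6)) (l 6)) (a (b (a (l 16171992) (l 16215568)) (a (l 16073776) (l 16157896))) (b (l 6) (a (b (l 6) (l 16228496)) (l 6))))) (b (a (b (l 16131200) (l 16093640)) (a (b (l 16192312) (l 16151864)) (b (l 6) (l 16233216)))) (a (b (l 16002760) (l 15979512)) (b (a (l 16120128) (l 16199344)) (l 16215512))))) (b (l 6) (b (l 6) (a (b (a (l 16278592) (l 6)) (l 16434760)) (l 6)))))) (l 6)), by decide +kernel⟩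

theorem c_pp_022 : CertB 0 536870912 1073741824 536870912 697932185 42949674 3 eng mog cd0q0 cd7q2 pd2 false true true .pp 0 2 2
    ndB0q0 ndB7q2 pcB2 cut_pp_022 Ext.none :=
  certB0 (fam := false) (s1 := true) (s2 := true) (a := 0) (b := 2) (c := 2) (cn := .pp) (n1 := ndB0q0) (n2 := ndB7q2) (pc := pcB2) (cut := cut_pp_022) (xt := Ext.none) (P1 := 0) (W1 := 536870912) (P2 := 1073741824) (W2 := 536870912) (P3 := 697932185) (W3 := 42949674) (N0 := 3) (En := eng) (mo := mog) (C1 := cd0q0) (C2 := cd7q2) (C3 := pd2)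
    rfl k0_pp_022

noncomputable def cut_pp_023 : Cut := Cut.of [[⟨3, 0, 0, 1449551462⟩]]

noncomputable def f_pp_023 : ℕ → ℕ → ℕ → ℕ → Bool := onCell 1073741824 536870912 0 1230186008 697932185 42949674
    (rowB 3 eng mog cd0q0 cd7q3 pd2 2 false true true .up 0 2 3 (qsf 0 536870912 0 1230186008 2) ndB0q0 ndB7q3 pcB2 cut_pp_023 Ext.none)

def k0_pp_023 : ∃ t, chk3 f_pp_023 t 1 1 1 = true :=
  ⟨(a (b (l 2) (l 6)) (a (b (l 2) (a (b (b (l 2) (l 6)) (l 6)) (b (b (b (l 16708088) (l 16701824)) (b (l 16766696) (a (l 16659528) (l 16640800)))) (b (b (a (l 16623304) (l 16590832)) (b (l 16621128) (l 16521336))) (b (b (l 16561496) (l 16421416)) (b (a (l 16401784) (l 16326120)) (a (l 16343816) (l 16265392)))))))) (b (b (a (l 2) (b (l 16664744) (l 16740544))) (b (a (l 16712216) (l 16733032)) (a (b (l 16708728) (l 16708768)) (b (l 16725840) (l 16721168))))) (b (b (a (b (l 16701056) (l 16913848)) (b (l 16709568) (l 16819232))) (a (b (a (l 16658824) (l 16644784)) (a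 (l 16618120) (l 16588280))) (b (a (l 16625928) (l 16600624)) (a (l 16557072) (l 16520312))))) (b (a (b (a (l 16553416) (l 16510992)) (b (l 16464496) (l 16404504))) (b (l 16427504) (l 16309608))) (b (a (b (l 16340424) (l 16277104)) (b (l 16205496) (l 16133272))) (a (b (l 16213064) (a (l 16187032) (l 16110736))) (b (l 16063624) (l 15999448))))))))), by decide +kernel⟩

theorem c_pp_023 : CertB 0 536870912 0 1230186008 697932185 42949674 3 eng mog cd0q0 cd7q3 pd2 false true true .up 0 2 3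
    ndB0q0 ndB7q3 pcB2 cut_pp_023 Ext.none :=
  certB2 (fam := false) (s1 := true) (s2 := true) (a := 0) (b := 2) (c := 3) (cn := .up) (n1 := ndB0q0) (n2 := ndB7q3) (pc := pcB2) (cut := cut_pp_023) (xt := Ext.none) (P1 := 0) (W1 := 536870912) (P2 := 0) (W2 := 1230186008) (P3 := 697932185) (W3 := 42949674) (N0 := 3) (En := eng) (mo := mog) (C1 := cd0q0) (C2 := cd7q3) (C3 := pd2)
    rfl (fun _ => rfl) k0_pp_023

noncomputable def cut_pp_033 : Cut := Cut.of [[⟨3, 0, 0, 1449551462⟩]]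

noncomputable def f_pp_033 : ℕ → ℕ → ℕ → ℕ → Bool := onCell 1610612736 536870912 0 1230186008 697932185 42949674
    (rowB 3 eng mog cd0q0 cd7q3 pd3 2 false true true .pnn 0 3 3 (qsf 0 536870912 0 1230186008 3) ndB0q0 ndB7q3 pcB3 cut_pp_033 Ext.none)

def k0_pp_033 : ∃ t, chk3 f_pp_033 t 1 2 1 = true :=
  ⟨(b (a (b (a (a (l 16656792) (l 16596560)) (a (l 16552960) (l 16501192))) (a (a (l 16720056) (l 16696744)) (a (a (l 16590944) (l 16558968)) (l 16507232)))) (a (a (b (l 16418432) (l 16428432)) (a (l 16550752) (l 4))) (l 4))) (a (a (b (a (l 16772280) (l 16654624)) (a (b (l 16758136) (l 16730032)) (b (l 16633504) (l 16611752)))) (a (a (b (a (l 16592136) (l 16581776)) (a (l 16527272) (l 16533376))) (b (b (l 16548344) (l 16524744)) (b (l 16491624) (l 16460552)))) (a (b (a (l 16740064) (l 16499416)) (a (b (l 16604624) (l 16419568)) (b (l 16472928) (l 16435968)))) (b (l 16631800) (b (l 16427880) (l 16394240)))))) (a (a (b (b (l 16414344) (l 16577952)) (b (a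 (l 16370040) (l 16328296)) (l 16502848))) (b (a (l 16351920) (l 16319440)) (a (b (l 16298512) (l 16250752)) (b (l 16285160) (l 16231784))))) (a (b (a (l 16290080) (l 4)) (a (b (l 16276400) (l 16231224)) (b (l 16236576) (l 16209856)))) (a (b (l 4) (l 552473052519)) (l 4)))))), by decide +kernel⟩

def k1_pp_033 : ∃ t, chk3 f_pp_033 t 1 3 1 = true :=
  ⟨(b (a (a (b (a (b (l 16693216) (l 16643016)) (b (l 16584832) (l 16526936))) (a (b (l 16569400) (l 16459584)) (b (l 16446048) (l 16349688)))) (a (b (a (b (l 16486544) (l 16432184)) (b (l 16427280) (l 16378192))) (b (a (l 16356896) (l 16305848)) (l 16234416))) (a (b (a (b (l 16385560) (l 16341128)) (b (l 16386320) (l 16323288))) (b (b (l 16281568) (l 16234432)) (l 16156368))) (b (b (l 16345696) (l 16279328)) (b (l 16194648) (l 16101288)))))) (a (b (a (b (a (l 16290056) (l 16236952)) (a (l 16221944) (l 16168888))) (a (b (l 16191704) (l 16119752)) (b (l 16170280) (l 16075568)))) (a (b (a (l 16133360) (l 16075448))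 (a (l 16039416) (l 15970808))) (b (a (l 16014600) (l 1)) (l 1)))) (a (b (a (b (l 131566208391) (l 1)) (l 1)) (l 1)) (l 1)))) (a (b (a (a (b (l 16334984) (l 16187344)) (b (l 16218304) (l 16071000))) (b (a (l 16116600) (l 16011840)) (a (l 15955520) (l 1)))) (a (b (a (l 16033440) (l 15908008)) (a (b (l 15920280) (l 15843224)) (b (l 15772776) (l 1)))) (b (a (l 15807360) (l 1)) (l 1)))) (l 1))), by decide +kernel⟩

theorem s2_pp_033 : ∃ t, chk3 f_pp_033 t 1 1 1 = true := ex3_b k0_pp_033 k1_pp_033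

theorem c_pp_033 : CertB 0 536870912 0 1230186008 697932185 42949674 3 eng mog cd0q0 cd7q3 pd3 false true true .pnn 0 3 3
    ndB0q0 ndB7q3 pcB3 cut_pp_033 Ext.none :=
  certB2 (fam := false) (s1 := true) (s2 := true) (a := 0) (b := 3) (c := 3) (cn := .pnn) (n1 := ndB0q0) (n2 := ndB7q3) (pc := pcB3) (cut := cut_pp_033) (xt := Ext.none) (P1 := 0) (W1 := 536870912) (P2 := 0) (W2 := 1230186008) (P3 := 697932185) (W3 := 42949674) (N0 := 3) (En := eng) (mo := mog) (C1 := cd0q0) (C2 := cd7q3) (C3 := pd3)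
    rfl (fun _ => rfl) s2_pp_033

noncomputable def cut_pp_101 : Cut := Cut.of [[⟨3, 0, 0, 1449551462⟩]]

noncomputable def f_pp_101 : ℕ → ℕ → ℕ → ℕ → Bool := onCell 536870912 536870912 0 536870912 697932185 42949674
    (rowB 3 eng mog cd0q1 cd7q1 pd0 1 false true true .npn 1 0 1 (qsf 536870912 536870912 536870912 536870912 0) ndB0q1 ndB7q1 pcB0 cut_pp_101 Ext.none)

def k0_pp_101 : ∃ t, chk3 f_pp_101 t 1 1 1 = true :=
  ⟨(l 6), by decide +kernel⟩

theorem c_pp_101 : CertB 536870912 536870912 536870912 536870912 697932185 42949674 3 eng mog cd0q1 cd7q1 pd0 false true true .npn 1 0 1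
    ndB0q1 ndB7q1 pcB0 cut_pp_101 Ext.none :=
  certB1 (fam := false) (s1 := true) (s2 := true) (a := 1) (b := 0) (c := 1) (cn := .npn) (n1 := ndB0q1) (n2 := ndB7q1) (pc := pcB0) (cut := cut_pp_101) (xt := Ext.none) (P1 := 536870912) (W1 := 536870912) (P2 := 536870912) (W2 := 536870912) (P3 := 697932185) (W3 := 42949674) (N0 := 3) (En := eng) (mo := mog) (C1 := cd0q1) (C2 := cd7q1) (C3 := pd0)
    rfl (fun _ => rfl) k0_pp_101

noncomputable def cut_pp_102 : Cut := Cut.of [[⟨3, 0, 0, 1449551462⟩]]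

noncomputable def f_pp_102 : ℕ → ℕ → ℕ → ℕ → Bool := onCell 536870912 536870912 1073741824 536870912 697932185 42949674
    (rowB 3 eng mog cd0q1 cd7q2 pd0 0 false true true .npp 1 0 2 (qsf 536870912 536870912 1073741824 536870912 0) ndB0q1 ndB7q2 pcB0 cut_pp_102 Ext.none)

def k0_pp_102 : ∃ t, chk3 f_pp_102 t 1 1 1 = true :=
  ⟨(l 6), by decide +kernel⟩

theorem c_pp_102 : CertB 536870912 536870912 1073741824 536870912 697932185 42949674 3 eng mog cd0q1 cd7q2 pd0 false true true .npp 1 0 2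
    ndB0q1 ndB7q2 pcB0 cut_pp_102 Ext.none :=
  certB0 (fam := false) (s1 := true) (s2 := true) (a := 1) (b := 0) (c := 2) (cn := .npp) (n1 := ndB0q1) (n2 := ndB7q2) (pc := pcB0) (cut := cut_pp_102) (xt := Ext.none) (P1 := 536870912) (W1 := 536870912) (P2 := 1073741824) (W2 := 536870912) (P3 := 697932185) (W3 := 42949674) (N0 := 3) (En := eng) (mo := mog) (C1 := cd0q1) (C2 := cd7q2) (C3 := pd0)
    rfl k0_pp_102

noncomputable def cut_pp_112 : Cut := Cut.of [[⟨3, 0, 0, 1449551462⟩]]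

noncomputable def f_pp_112 : ℕ → ℕ → ℕ → ℕ → Bool := onCell 536870912 536870912 1073741824 536870912 697932185 42949674
    (rowB 3 eng mog cd0q1 cd7q2 pd1 0 false true true .dn 1 1 2 (qsf 536870912 536870912 1073741824 536870912 1) ndB0q1 ndB7q2 pcB1 cut_pp_112 Ext.none)

def k0_pp_112 : ∃ t, chk3 f_pp_112 t 1 1 1 = true :=
  ⟨(l 6), by decide +kernel⟩

theorem c_pp_112 : CertB 536870912 536870912 1073741824 536870912 697932185 42949674 3 eng mog cd0q1 cd7q2 pd1 false true true .dn 1 1 2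
    ndB0q1 ndB7q2 pcB1 cut_pp_112 Ext.none :=
  certB0 (fam := false) (s1 := true) (s2 := true) (a := 1) (b := 1) (c := 2) (cn := .dn) (n1 := ndB0q1) (n2 := ndB7q2) (pc := pcB1) (cut := cut_pp_112) (xt := Ext.none) (P1 := 536870912) (W1 := 536870912) (P2 := 1073741824) (W2 := 536870912) (P3 := 697932185) (W3 := 42949674) (N0 := 3) (En := eng) (mo := mog) (C1 := cd0q1) (C2 := cd7q2) (C3 := pd1)
    rfl k0_pp_112

noncomputable def cut_pp_113 : Cut := Cut.of [[⟨3, 0, 0, 1449551462⟩], [⟨0, 1, 0, 67108864⟩, ⟨1, 1, 0, 67108864⟩, ⟨2, 2, 0, 16777216⟩]]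

noncomputable def f_pp_113 : ℕ → ℕ → ℕ → ℕ → Bool := onCell 536870912 536870912 0 1230186008 697932185 42949674
    (rowB 3 eng mog cd0q1 cd7q3 pd1 0 false true true .nn 1 1 3 (qsf 536870912 536870912 0 1230186008 1) ndB0q1 ndB7q3 pcB1 cut_pp_113 Ext.none)

def k0_pp_113 : ∃ t, chk3 f_pp_113 t 1 1 1 = true :=
  ⟨(b (a (l 2) (a (l 2) (b (a (l 2) (l 6)) (l 6)))) (b (a (a (l 2) (l 6)) (l 6)) (l 6))), by decide +kernel⟩

theorem c_pp_113 : CertB 536870912 536870912 0 1230186008 697932185 42949674 3 eng mog cd0q1 cd7q3 pd1 false true true .nn 1 1 3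
    ndB0q1 ndB7q3 pcB1 cut_pp_113 Ext.none :=
  certB0 (fam := false) (s1 := true) (s2 := true) (a := 1) (b := 1) (c := 3) (cn := .nn) (n1 := ndB0q1) (n2 := ndB7q3) (pc := pcB1) (cut := cut_pp_113) (xt := Ext.none) (P1 := 536870912) (W1 := 536870912) (P2 := 0) (W2 := 1230186008) (P3 := 697932185) (W3 := 42949674) (N0 := 3) (En := eng) (mo := mog) (C1 := cd0q1) (C2 := cd7q3) (C3 := pd1)
    rfl k0_pp_113

noncomputable def cut_pp_123 : Cut := Cut.of [[⟨3, 0, 0, 1449551462⟩], [⟨0, 1, 0, 67108864⟩, ⟨1, 1, 0, 67108864⟩, ⟨2, 2, 0, 16777216⟩]]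

noncomputable def f_pp_123 : ℕ → ℕ → ℕ → ℕ → Bool := onCell 1073741824 536870912 0 1230186008 697932185 42949674
    (rowB 3 eng mog cd0q1 cd7q3 pd2 2 false true true .npn 1 2 3 (qsf 536870912 536870912 0 1230186008 2) ndB0q1 ndB7q3 pcB2 cut_pp_123 Ext.none)

def k0_pp_123 : ∃ t, chk3 f_pp_123 t 1 1 1 = true :=
  ⟨(a (b (a (a (l 6) (b (a (l 6) (b (b (l 16670136) (l 6)) (l 6))) (l 6))) (b (a (b (a (a (l 16650816) (c (l 16638200) (l 16650824))) (a (l 16607872) (l 16592640))) (a (l 6) (b (l 16683120) (l 6)))) (b (a (l 16584248) (l 16583680)) (a (l 16687256) (l 16686320)))) (a (l 6) (b (a (l 6) (b (l 16711568) (l 16721472))) (l 6))))) (l 6)) (b (b (a (a (b (a (l 16594584) (l 16605768)) (l 16942176)) (b (l 16748368) (l 16783080))) (a (b (l 16645024) (l 16720232)) (b (l 16664760) (l 16740448)))) (a (b (a (b (l 16703920) (l 16710488)) (l 16703424)) (a (b (l 16716296) (a (l 6) (l 16716536))) (b (l 16707336) (l 16710176)))) (b (a (l 16712216) (l 16733112)) (a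 (b (l 16708728) (l 16708736)) (b (l 16725872) (l 1)))))) (b (a (b (a (b (a (l 6) (l 16716624)) (l 6)) (b (l 16708080) (l 16701688))) (a (l 6) (b (l 16682272) (l 1)))) (b (a (b (l 16700864) (l 1)) (l 1)) (l 1))) (l 1)))), by decide +kernel⟩

theorem c_pp_123 : CertB 536870912 536870912 0 1230186008 697932185 42949674 3 eng mog cd0q1 cd7q3 pd2 false true true .npn 1 2 3
    ndB0q1 ndB7q3 pcB2 cut_pp_123 Ext.none :=
  certB2 (fam := false) (s1 := true) (s2 := true) (a := 1) (b := 2) (c := 3) (cn := .npn) (n1 := ndB0q1) (n2 := ndB7q3) (pc := pcB2) (cut := cut_pp_123) (xt := Ext.none) (P1 := 536870912) (W1 := 536870912) (P2 := 0) (W2 := 1230186008) (P3 := 697932185) (W3 := 42949674) (N0 := 3) (En := eng) (mo := mog) (C1 := cd0q1) (C2 := cd7q3) (C3 := pd2)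
    rfl (fun _ => rfl) k0_pp_123

noncomputable def cut_pp_133 : Cut := Cut.of [[⟨3, 0, 0, 1449551462⟩]]

noncomputable def f_pp_133 : ℕ → ℕ → ℕ → ℕ → Bool := onCell 536870912 536870912 0 1230186008 697932185 42949674
    (rowB 3 eng mog cd0q1 cd7q3 pd3 0 false true true .dn 1 3 3 (qsf 536870912 536870912 0 1230186008 3) ndB0q1 ndB7q3 pcB3 cut_pp_133 Ext.none)

def k0_pp_133 : ∃ t, chk3 f_pp_133 t 1 1 1 = true :=
  ⟨(b (b (a (a (a (b (l 16718096) (l 1)) (l 1)) (l 1)) (l 1)) (l 1)) (l 1)), by decide +kernel⟩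

theorem c_pp_133 : CertB 536870912 536870912 0 1230186008 697932185 42949674 3 eng mog cd0q1 cd7q3 pd3 false true true .dn 1 3 3
    ndB0q1 ndB7q3 pcB3 cut_pp_133 Ext.none :=
  certB0 (fam := false) (s1 := true) (s2 := true) (a := 1) (b := 3) (c := 3) (cn := .dn) (n1 := ndB0q1) (n2 := ndB7q3) (pc := pcB3) (cut := cut_pp_133) (xt := Ext.none) (P1 := 536870912) (W1 := 536870912) (P2 := 0) (W2 := 1230186008) (P3 := 697932185) (W3 := 42949674) (N0 := 3) (En := eng) (mo := mog) (C1 := cd0q1) (C2 := cd7q3) (C3 := pd3)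
    rfl k0_pp_133

noncomputable def cut_pp_202 : Cut := Cut.of [[⟨3, 0, 0, 1449551462⟩]]

noncomputable def f_pp_202 : ℕ → ℕ → ℕ → ℕ → Bool := onCell 0 536870912 1073741824 536870912 697932185 42949674
    (rowB 3 eng mog cd0q2 cd7q2 pd0 0 false true true .pp 2 0 2 (qsf 0 536870912 1073741824 536870912 0) ndB0q2 ndB7q2 pcB0 cut_pp_202 Ext.none)

def k0_pp_202 : ∃ t, chk3 f_pp_202 t 1 1 1 = true :=
  ⟨(l 5), by decide +kernel⟩

theorem c_pp_202 : CertB 0 536870912 1073741824 536870912 697932185 42949674 3 eng mog cd0q2 cd7q2 pd0 false true true .pp 2 0 2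
    ndB0q2 ndB7q2 pcB0 cut_pp_202 Ext.none :=
  certB0 (fam := false) (s1 := true) (s2 := true) (a := 2) (b := 0) (c := 2) (cn := .pp) (n1 := ndB0q2) (n2 := ndB7q2) (pc := pcB0) (cut := cut_pp_202) (xt := Ext.none) (P1 := 0) (W1 := 536870912) (P2 := 1073741824) (W2 := 536870912) (P3 := 697932185) (W3 := 42949674) (N0 := 3) (En := eng) (mo := mog) (C1 := cd0q2) (C2 := cd7q2) (C3 := pd0)
    rfl k0_pp_202

noncomputable def cut_pp_203 : Cut := Cut.of [[⟨3, 0, 0, 1449551462⟩]]

noncomputable def f_pp_203 : ℕ → ℕ → ℕ → ℕ → Bool := onCell 0 536870912 0 1230186008 697932185 42949674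
    (rowB 3 eng mog cd0q2 cd7q3 pd0 0 false true true .up 2 0 3 (qsf 0 536870912 0 1230186008 0) ndB0q2 ndB7q3 pcB0 cut_pp_203 Ext.none)

def k0_pp_203 : ∃ t, chk3 f_pp_203 t 1 1 1 = true :=
  ⟨(b (l 2) (a (l 5) (l 6))), by decide +kernel⟩

theorem c_pp_203 : CertB 0 536870912 0 1230186008 697932185 42949674 3 eng mog cd0q2 cd7q3 pd0 false true true .up 2 0 3
    ndB0q2 ndB7q3 pcB0 cut_pp_203 Ext.none :=
  certB0 (fam := false) (s1 := true) (s2 := true) (a := 2) (b := 0) (c := 3) (cn := .up) (n1 := ndB0q2) (n2 := ndB7q3) (pc := pcB0) (cut := cut_pp_203) (xt := Ext.none) (P1 := 0) (W1 := 536870912) (P2 := 0) (W2 := 1230186008) (P3 := 697932185) (W3 := 42949674) (N0 := 3) (En := eng) (mo := mog) (C1 := cd0q2) (C2 := cd7q3) (C3 := pd0)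
    rfl k0_pp_203

noncomputable def cut_pp_213 : Cut := Cut.of [[⟨3, 0, 0, 1449551462⟩], [⟨0, 1, 0, 67108864⟩, ⟨1, 1, 0, 67108864⟩, ⟨2, 2, 0, 16777216⟩]]

noncomputable def f_pp_213 : ℕ → ℕ → ℕ → ℕ → Bool := onCell 0 536870912 0 1230186008 697932185 42949674
    (rowB 3 eng mog cd0q2 cd7q3 pd1 0 false true true .pnn 2 1 3 (qsf 0 536870912 0 1230186008 1) ndB0q2 ndB7q3 pcB1 cut_pp_213 Ext.none)

def k0_pp_213 : ∃ t, chk3 f_pp_213 t 1 1 1 = true :=
  ⟨(b (l 6) (a (l 5) (l 6))), by decide +kernel⟩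

theorem c_pp_213 : CertB 0 536870912 0 1230186008 697932185 42949674 3 eng mog cd0q2 cd7q3 pd1 false true true .pnn 2 1 3
    ndB0q2 ndB7q3 pcB1 cut_pp_213 Ext.none :=
  certB0 (fam := false) (s1 := true) (s2 := true) (a := 2) (b := 1) (c := 3) (cn := .pnn) (n1 := ndB0q2) (n2 := ndB7q3) (pc := pcB1) (cut := cut_pp_213) (xt := Ext.none) (P1 := 0) (W1 := 536870912) (P2 := 0) (W2 := 1230186008) (P3 := 697932185) (W3 := 42949674) (N0 := 3) (En := eng) (mo := mog) (C1 := cd0q2) (C2 := cd7q3) (C3 := pd1)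
    rfl k0_pp_213

noncomputable def cut_pm_001 : Cut := Cut.of [[⟨3, 0, 0, 1449551462⟩]]

noncomputable def f_pm_001 : ℕ → ℕ → ℕ → ℕ → Bool := onCell 0 536870912 536870912 536870912 697932185 42949674
    (rowB 3 eng mog cd0q0 cd7q1 pd0 0 false true false .up 0 0 1 (qsf 0 536870912 536870912 536870912 0) ndB0q0 ndB7q1 pcB0 cut_pm_001 Ext.none)

def k0_pm_001 : ∃ t, chk3 f_pm_001 t 1 1 1 = true :=
  ⟨(l 4), by decide +kernel⟩

theorem c_pm_001 : CertB 0 536870912 536870912 536870912 697932185 42949674 3 eng mog cd0q0 cd7q1 pd0 false true false .up 0 0 1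
    ndB0q0 ndB7q1 pcB0 cut_pm_001 Ext.none :=
  certB0 (fam := false) (s1 := true) (s2 := false) (a := 0) (b := 0) (c := 1) (cn := .up) (n1 := ndB0q0) (n2 := ndB7q1) (pc := pcB0) (cut := cut_pm_001) (xt := Ext.none) (P1 := 0) (W1 := 536870912) (P2 := 536870912) (W2 := 536870912) (P3 := 697932185) (W3 := 42949674) (N0 := 3) (En := eng) (mo := mog) (C1 := cd0q0) (C2 := cd7q1) (C3 := pd0)
    rfl k0_pm_001

noncomputable def cut_pm_011 : Cut := Cut.of [[⟨3, 0, 0, 1449551462⟩]]

noncomputable def f_pm_011 : ℕ → ℕ → ℕ → ℕ → Bool := onCell 0 536870912 536870912 536870912 697932185 42949674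
    (rowB 3 eng mog cd0q0 cd7q1 pd1 0 false true false .pnn 0 1 1 (qsf 0 536870912 536870912 536870912 1) ndB0q0 ndB7q1 pcB1 cut_pm_011 Ext.none)

def k0_pm_011 : ∃ t, chk3 f_pm_011 t 1 1 1 = true :=
  ⟨(l 4), by decide +kernel⟩

theorem c_pm_011 : CertB 0 536870912 536870912 536870912 697932185 42949674 3 eng mog cd0q0 cd7q1 pd1 false true false .pnn 0 1 1
    ndB0q0 ndB7q1 pcB1 cut_pm_011 Ext.none :=
  certB0 (fam := false) (s1 := true) (s2 := false) (a := 0) (b := 1) (c := 1) (cn := .pnn) (n1 := ndB0q0) (n2 := ndB7q1) (pc := pcB1) (cut := cut_pm_011) (xt := Ext.none) (P1 := 0) (W1 := 536870912) (P2 := 536870912) (W2 := 536870912) (P3 := 697932185) (W3 := 42949674) (N0 := 3) (En := eng) (mo := mog) (C1 := cd0q0) (C2 := cd7q1) (C3 := pd1)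
    rfl k0_pm_011

noncomputable def cut_pm_012 : Cut := Cut.of [[⟨3, 0, 0, 1449551462⟩]]

noncomputable def f_pm_012 : ℕ → ℕ → ℕ → ℕ → Bool := onCell 0 536870912 1073741824 536870912 697932185 42949674
    (rowB 3 eng mog cd0q0 cd7q2 pd1 0 false true false .pnp 0 1 2 (qsf 0 536870912 1073741824 536870912 1) ndB0q0 ndB7q2 pcB1 cut_pm_012 Ext.none)

def k0_pm_012 : ∃ t, chk3 f_pm_012 t 1 1 1 = true :=
  ⟨(l 4), by decide +kernel⟩

theorem c_pm_012 : CertB 0 536870912 1073741824 536870912 697932185 42949674 3 eng mog cd0q0 cd7q2 pd1 false true false .pnp 0 1 2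
    ndB0q0 ndB7q2 pcB1 cut_pm_012 Ext.none :=
  certB0 (fam := false) (s1 := true) (s2 := false) (a := 0) (b := 1) (c := 2) (cn := .pnp) (n1 := ndB0q0) (n2 := ndB7q2) (pc := pcB1) (cut := cut_pm_012) (xt := Ext.none) (P1 := 0) (W1 := 536870912) (P2 := 1073741824) (W2 := 536870912) (P3 := 697932185) (W3 := 42949674) (N0 := 3) (En := eng) (mo := mog) (C1 := cd0q0) (C2 := cd7q2) (C3 := pd1)
    rfl k0_pm_012

noncomputable def cut_pm_022 : Cut := Cut.of [[⟨3, 0, 0, 1449551462⟩]]

noncomputable def f_pm_022 : ℕ → ℕ → ℕ → ℕ → Bool := onCell 0 536870912 1073741824 536870912 697932185 42949674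
    (rowB 3 eng mog cd0q0 cd7q2 pd2 0 false true false .pp 0 2 2 (qsf 0 536870912 1073741824 536870912 2) ndB0q0 ndB7q2 pcB2 cut_pm_022 Ext.none)

def k0_pm_022 : ∃ t, chk3 f_pm_022 t 1 1 1 = true :=
  ⟨(l 4), by decide +kernel⟩

theorem c_pm_022 : CertB 0 536870912 1073741824 536870912 697932185 42949674 3 eng mog cd0q0 cd7q2 pd2 false true false .pp 0 2 2
    ndB0q0 ndB7q2 pcB2 cut_pm_022 Ext.none :=
  certB0 (fam := false) (s1 := true) (s2 := false) (a := 0) (b := 2) (c := 2) (cn := .pp) (n1 := ndB0q0) (n2 := ndB7q2) (pc := pcB2) (cut := cut_pm_022) (xt := Ext.none) (P1 := 0) (W1 := 536870912) (P2 := 1073741824) (W2 := 536870912) (P3 := 697932185) (W3 := 42949674) (N0 := 3) (En := eng) (mo := mog) (C1 := cd0q0) (C2 := cd7q2) (C3 := pd2)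
    rfl k0_pm_022

noncomputable def cut_pm_023 : Cut := Cut.of [[⟨3, 0, 0, 1449551462⟩]]

noncomputable def f_pm_023 : ℕ → ℕ → ℕ → ℕ → Bool := onCell 0 536870912 0 1230186008 697932185 42949674
    (rowB 3 eng mog cd0q0 cd7q3 pd2 0 false true false .up 0 2 3 (qsf 0 536870912 0 1230186008 2) ndB0q0 ndB7q3 pcB2 cut_pm_023 Ext.none)

def k0_pm_023 : ∃ t, chk3 f_pm_023 t 1 1 1 = true :=
  ⟨(b (a (l 2) (a (l 2) (b (a (l 2) (b (l 16607256) (l 16565168))) (a (l 4) (l 4))))) (l 4)), by decide +kernel⟩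

theorem c_pm_023 : CertB 0 536870912 0 1230186008 697932185 42949674 3 eng mog cd0q0 cd7q3 pd2 false true false .up 0 2 3
    ndB0q0 ndB7q3 pcB2 cut_pm_023 Ext.none :=
  certB0 (fam := false) (s1 := true) (s2 := false) (a := 0) (b := 2) (c := 3) (cn := .up) (n1 := ndB0q0) (n2 := ndB7q3) (pc := pcB2) (cut := cut_pm_023) (xt := Ext.none) (P1 := 0) (W1 := 536870912) (P2 := 0) (W2 := 1230186008) (P3 := 697932185) (W3 := 42949674) (N0 := 3) (En := eng) (mo := mog) (C1 := cd0q0) (C2 := cd7q3) (C3 := pd2)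
    rfl k0_pm_023

noncomputable def cut_pm_033 : Cut := Cut.of [[⟨3, 0, 0, 1449551462⟩]]

noncomputable def f_pm_033 : ℕ → ℕ → ℕ → ℕ → Bool := onCell 1610612736 536870912 0 1230186008 697932185 42949674
    (rowB 3 eng mog cd0q0 cd7q3 pd3 2 false true false .pnn 0 3 3 (qsf 0 536870912 0 1230186008 3) ndB0q0 ndB7q3 pcB3 cut_pm_033 Ext.none)

def k0_pm_033 : ∃ t, chk3 f_pm_033 t 1 1 1 = true :=
  ⟨(b (b (a (a (a (l 16599216) (l 16573200)) (a (l 16526528) (l 4))) (l 4)) (l 4)) (l 4)), by decide +kernel⟩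

theorem c_pm_033 : CertB 0 536870912 0 1230186008 697932185 42949674 3 eng mog cd0q0 cd7q3 pd3 false true false .pnn 0 3 3
    ndB0q0 ndB7q3 pcB3 cut_pm_033 Ext.none :=
  certB2 (fam := false) (s1 := true) (s2 := false) (a := 0) (b := 3) (c := 3) (cn := .pnn) (n1 := ndB0q0) (n2 := ndB7q3) (pc := pcB3) (cut := cut_pm_033) (xt := Ext.none) (P1 := 0) (W1 := 536870912) (P2 := 0) (W2 := 1230186008) (P3 := 697932185) (W3 := 42949674) (N0 := 3) (En := eng) (mo := mog) (C1 := cd0q0) (C2 := cd7q3) (C3 := pd3)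
    rfl (fun _ => rfl) k0_pm_033

noncomputable def cut_pm_101 : Cut := Cut.of [[⟨3, 0, 0, 1449551462⟩]]

noncomputable def f_pm_101 : ℕ → ℕ → ℕ → ℕ → Bool := onCell 536870912 536870912 536870912 536870912 697932185 42949674
    (rowB 3 eng mog cd0q1 cd7q1 pd0 0 false true false .npn 1 0 1 (qsf 536870912 536870912 536870912 536870912 0) ndB0q1 ndB7q1 pcB0 cut_pm_101 Ext.none)

def k0_pm_101 : ∃ t, chk3 f_pm_101 t 1 1 1 = true :=
  ⟨(l 4), by decide +kernel⟩

theorem c_pm_101 : CertB 536870912 536870912 536870912 536870912 697932185 42949674 3 eng mog cd0q1 cd7q1 pd0 false true false .npn 1 0 1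
    ndB0q1 ndB7q1 pcB0 cut_pm_101 Ext.none :=
  certB0 (fam := false) (s1 := true) (s2 := false) (a := 1) (b := 0) (c := 1) (cn := .npn) (n1 := ndB0q1) (n2 := ndB7q1) (pc := pcB0) (cut := cut_pm_101) (xt := Ext.none) (P1 := 536870912) (W1 := 536870912) (P2 := 536870912) (W2 := 536870912) (P3 := 697932185) (W3 := 42949674) (N0 := 3) (En := eng) (mo := mog) (C1 := cd0q1) (C2 := cd7q1) (C3 := pd0)
    rfl k0_pm_101

noncomputable def cut_pm_102 : Cut := Cut.of [[⟨3, 0, 0, 1449551462⟩]]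

noncomputable def f_pm_102 : ℕ → ℕ → ℕ → ℕ → Bool := onCell 536870912 536870912 0 536870912 697932185 42949674
    (rowB 3 eng mog cd0q1 cd7q2 pd0 1 false true false .npp 1 0 2 (qsf 536870912 536870912 1073741824 536870912 0) ndB0q1 ndB7q2 pcB0 cut_pm_102 Ext.none)

def k0_pm_102 : ∃ t, chk3 f_pm_102 t 1 1 1 = true :=
  ⟨(a (l 4) (b (l 4) (a (l 4) (b (l 4) (b (l 4) (a (l 4) (a (l 4) (l 16581096)))))))), by decide +kernel⟩

theorem c_pm_102 : CertB 536870912 536870912 1073741824 536870912 697932185 42949674 3 eng mog cd0q1 cd7q2 pd0 false true false .npp 1 0 2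
    ndB0q1 ndB7q2 pcB0 cut_pm_102 Ext.none :=
  certB1 (fam := false) (s1 := true) (s2 := false) (a := 1) (b := 0) (c := 2) (cn := .npp) (n1 := ndB0q1) (n2 := ndB7q2) (pc := pcB0) (cut := cut_pm_102) (xt := Ext.none) (P1 := 536870912) (W1 := 536870912) (P2 := 1073741824) (W2 := 536870912) (P3 := 697932185) (W3 := 42949674) (N0 := 3) (En := eng) (mo := mog) (C1 := cd0q1) (C2 := cd7q2) (C3 := pd0)
    rfl (fun _ => rfl) k0_pm_102

noncomputable def cut_pm_112 : Cut := Cut.of [[⟨3, 0, 0, 1449551462⟩]]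

noncomputable def f_pm_112 : ℕ → ℕ → ℕ → ℕ → Bool := onCell 536870912 536870912 1073741824 536870912 697932185 42949674
    (rowB 3 eng mog cd0q1 cd7q2 pd1 0 false true false .dn 1 1 2 (qsf 536870912 536870912 1073741824 536870912 1) ndB0q1 ndB7q2 pcB1 cut_pm_112 Ext.none)

def k0_pm_112 : ∃ t, chk3 f_pm_112 t 1 1 1 = true :=
  ⟨(a (l 4) (b (l 4) (a (l 4) (b (l 4) (b (l 4) (a (l 4) (l 16559200))))))), by decide +kernel⟩

theorem c_pm_112 : CertB 536870912 536870912 1073741824 536870912 697932185 42949674 3 eng mog cd0q1 cd7q2 pd1 false true false .dn 1 1 2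
    ndB0q1 ndB7q2 pcB1 cut_pm_112 Ext.none :=
  certB0 (fam := false) (s1 := true) (s2 := false) (a := 1) (b := 1) (c := 2) (cn := .dn) (n1 := ndB0q1) (n2 := ndB7q2) (pc := pcB1) (cut := cut_pm_112) (xt := Ext.none) (P1 := 536870912) (W1 := 536870912) (P2 := 1073741824) (W2 := 536870912) (P3 := 697932185) (W3 := 42949674) (N0 := 3) (En := eng) (mo := mog) (C1 := cd0q1) (C2 := cd7q2) (C3 := pd1)
    rfl k0_pm_112

noncomputable def cut_pm_113 : Cut := Cut.of [[⟨3, 0, 0, 1449551462⟩], [⟨0, 1, 0, 67108864⟩, ⟨1, 1, 0, 67108864⟩, ⟨2, 2, 0, 16777216⟩]]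

noncomputable def f_pm_113 : ℕ → ℕ → ℕ → ℕ → Bool := onCell 536870912 536870912 0 1230186008 697932185 42949674
    (rowB 3 eng mog cd0q1 cd7q3 pd1 0 false true false .nn 1 1 3 (qsf 536870912 536870912 0 1230186008 1) ndB0q1 ndB7q3 pcB1 cut_pm_113 Ext.none)

def k0_pm_113 : ∃ t, chk3 f_pm_113 t 1 1 1 = true :=
  ⟨(b (a (l 2) (a (l 2) (b (a (l 2) (a (l 2) (b (l 6) (b (l 14) (l 16740808))))) (a (b (a (l 2) (l 16653824)) (b (a (l 2) (l 16629152)) (l 16732408))) (b (a (l 16693296) (b (l 16735712) (l 16728672))) (a (b (l 16674256) (l 16658168)) (l 16715784))))))) (a (b (b (l 2) (l 4)) (l 4)) (b (a (b (a (l 2) (b (l 16350696) (l 254577024903))) (a (b (a (l 425301402247) (l 16106176)) (b (l 72174684071) (l 4))) (b (l 16273712) (a (l 16200152) (l 16287088))))) (b (a (b (l 16529208) (l 16493536)) (b (a (l 16639544) (l 16694056)) (l 16641648))) (a (b (l 16452320) (a (l 16398408) (l 16481040))) (b (l 16615256) (l 16597984))))) (a (b (a (l 4) (b (l 16243320) (l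 16245584))) (l 4)) (b (a (b (b (l 16403088) (l 16436048)) (a (l 16384928) (l 16495056))) (b (l 16608232) (a (l 16565248) (l 16640992)))) (b (a (l 16445736) (a (l 16562792) (l 16649568))) (a (l 4) (l 16587112)))))))), by decide +kernel⟩

theorem c_pm_113 : CertB 536870912 536870912 0 1230186008 697932185 42949674 3 eng mog cd0q1 cd7q3 pd1 false true false .nn 1 1 3
    ndB0q1 ndB7q3 pcB1 cut_pm_113 Ext.none :=
  certB0 (fam := false) (s1 := true) (s2 := false) (a := 1) (b := 1) (c := 3) (cn := .nn) (n1 := ndB0q1) (n2 := ndB7q3) (pc := pcB1) (cut := cut_pm_113) (xt := Ext.none) (P1 := 536870912) (W1 := 536870912) (P2 := 0) (W2 := 1230186008) (P3 := 697932185) (W3 := 42949674) (N0 := 3) (En := eng) (mo := mog) (C1 := cd0q1) (C2 := cd7q3) (C3 := pd1)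
    rfl k0_pm_113

noncomputable def cut_pm_123 : Cut := Cut.of [[⟨3, 0, 0, 1449551462⟩], [⟨0, 1, 0, 67108864⟩, ⟨1, 1, 0, 67108864⟩, ⟨2, 2, 0, 16777216⟩]]

noncomputable def f_pm_123 : ℕ → ℕ → ℕ → ℕ → Bool := onCell 1073741824 536870912 0 1230186008 697932185 42949674
    (rowB 3 eng mog cd0q1 cd7q3 pd2 2 false true false .npn 1 2 3 (qsf 536870912 536870912 0 1230186008 2) ndB0q1 ndB7q3 pcB2 cut_pm_123 Ext.none)

def k0_pm_123 : ∃ t, chk3 f_pm_123 t 1 1 1 = true :=
  ⟨(b (a (a (b (a (b (a (l 6) (b (l 6) (l 16716920))) (a (b (l 14) (l 16688616)) (l 16652160))) (b (a (l 16663640) (l 16606320)) (a (b (l 16607768) (l 16582192)) (l 16539144)))) (a (b (b (l 16643776) (a (l 16642040) (l 16577104))) (a (b (l 16616416) (l 16507440)) (b (l 16517784) (l 16419392)))) (b (b (l 16712840) (a (l 16508600) (l 16443536))) (b (a (l 16438056) (l 16376024)) (a (l 16348384) (l 16304000)))))) (b (a (b (a (a (l 16559512) (b (l 16556000) (l 16510376))) (a (l 16505640) (l 16496528)))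 (a (l 16483760) (l 16464392))) (b (a (l 16503616) (l 16517816)) (b (l 16471056) (l 16567520)))) (a (b (a (b (l 16432896) (l 16388384)) (b (l 16394720) (l 16358488))) (a (b (l 16336608) (l 16277048)) (b (l 16318480) (l 16275712)))) (b (a (l 16389328) (l 16409288)) (b (l 16340880) (l 16296912)))))) (a (b (a (b (l 16540544) (a (l 16479872) (l 16492080))) (b (a (l 16547688) (l 16564592)) (a (l 16504616) (l 16527016)))) (a (b (l 16624096) (a (l 16351152) (l 16378312))) (b (a (l 16459280) (l 16480656)) (a (l 16407640) (l 16435624))))) (b (a (b (l 16597960) (l 16558136)) (b (l 16632768) (l 16572816))) (b (a (a (l 16500840) (l 16520552)) (a (l 16534432) (l 4))) (l 4))))) (b (a (a (b (a (b (a (l 16391000) (l 16311872)) (a (l 16249432) (l 16195016))) (b (a (l 16261736) (l 16229008)) (a (l 16161976) (l 16163552)))) (b (a (a (l 16217504) (l 16086080)) (a (l 4) (l 4))) (l 4))) (b (a (a (b (l 16224552) (l 16174344)) (b (l 16231936) (l 4))) (b (l 16263744) (l 4))) (l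 4))) (l 4)) (l 4))), by decide +kernel⟩

theorem c_pm_123 : CertB 536870912 536870912 0 1230186008 697932185 42949674 3 eng mog cd0q1 cd7q3 pd2 false true false .npn 1 2 3
    ndB0q1 ndB7q3 pcB2 cut_pm_123 Ext.none :=
  certB2 (fam := false) (s1 := true) (s2 := false) (a := 1) (b := 2) (c := 3) (cn := .npn) (n1 := ndB0q1) (n2 := ndB7q3) (pc := pcB2) (cut := cut_pm_123) (xt := Ext.none) (P1 := 536870912) (W1 := 536870912) (P2 := 0) (W2 := 1230186008) (P3 := 697932185) (W3 := 42949674) (N0 := 3) (En := eng) (mo := mog) (C1 := cd0q1) (C2 := cd7q3) (C3 := pd2)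
    rfl (fun _ => rfl) k0_pm_123

noncomputable def cut_pm_133 : Cut := Cut.of [[⟨3, 0, 0, 1449551462⟩]]

noncomputable def f_pm_133 : ℕ → ℕ → ℕ → ℕ → Bool := onCell 1610612736 536870912 0 1230186008 697932185 42949674
    (rowB 3 eng mog cd0q1 cd7q3 pd3 2 false true false .dn 1 3 3 (qsf 536870912 536870912 0 1230186008 3) ndB0q1 ndB7q3 pcB3 cut_pm_133 Ext.none)

def k0_pm_133 : ∃ t, chk3 f_pm_133 t 1 1 1 = true :=
  ⟨(b (b (a (a (a (l 16598104) (l 1)) (l 1)) (l 1)) (l 1)) (l 1)), by decide +kernel⟩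

theorem c_pm_133 : CertB 536870912 536870912 0 1230186008 697932185 42949674 3 eng mog cd0q1 cd7q3 pd3 false true false .dn 1 3 3
    ndB0q1 ndB7q3 pcB3 cut_pm_133 Ext.none :=
  certB2 (fam := false) (s1 := true) (s2 := false) (a := 1) (b := 3) (c := 3) (cn := .dn) (n1 := ndB0q1) (n2 := ndB7q3) (pc := pcB3) (cut := cut_pm_133) (xt := Ext.none) (P1 := 536870912) (W1 := 536870912) (P2 := 0) (W2 := 1230186008) (P3 := 697932185) (W3 := 42949674) (N0 := 3) (En := eng) (mo := mog) (C1 := cd0q1) (C2 := cd7q3) (C3 := pd3)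
    rfl (fun _ => rfl) k0_pm_133

noncomputable def cut_pm_202 : Cut := Cut.of [[⟨3, 0, 0, 1449551462⟩]]

noncomputable def f_pm_202 : ℕ → ℕ → ℕ → ℕ → Bool := onCell 0 536870912 0 536870912 697932185 42949674
    (rowB 3 eng mog cd0q2 cd7q2 pd0 1 false true false .pp 2 0 2 (qsf 0 536870912 1073741824 536870912 0) ndB0q2 ndB7q2 pcB0 cut_pm_202 Ext.none)

def k0_pm_202 : ∃ t, chk3 f_pm_202 t 2 1 1 = true :=
  ⟨(b (b (a (b (b (a (l 16245232) (l 16182056)) (a (l 16309752) (l 16256400))) (a (l 16421216) (b (l 16319080) (l 16384792)))) (b (a (b (l 16090944) (l 16168200)) (b (l 15974272) (l 16054528))) (a (b (l 16244728) (l 16319424)) (l 16174888)))) (a (b (a (b (l 16665472) (l 16515296)) (b (l 16442312) (l 16489128))) (a (b (l 16549472) (l 16581680)) (b (l 16525608) (l 16559784)))) (b (a (b (l 16383872) (l 16440192)) (b (l 16295632) (l 16410208))) (a (b (l 16482840) (l 16521440)) (b (l 16414992) (l 16458392)))))) (b (b (b (a (a (a (l 16615664) (l 16608976))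 (l 16593520)) (a (l 16555648) (l 16500344))) (a (a (b (l 16635992) (l 16649064)) (b (l 16742024) (l 16631392))) (a (b (l 16582512) (l 16602080)) (b (l 16532392) (l 16603104))))) (a (b (a (a (l 16667856) (l 16661936)) (b (l 16644136) (l 16654616))) (a (l 16689848) (l 16666520))) (b (a (b (l 16616384) (l 16629568)) (b (l 16577528) (l 16588360))) (a (b (l 16641560) (l 16652680)) (l 16843472))))) (a (l 2) (b (b (a (l 2) (l 16641272)) (l 2)) (l 2))))), by decide +kernel⟩

def k1_pm_202 : ∃ t, chk3 f_pm_202 t 3 1 1 = true :=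
  ⟨(b (b (a (b (a (b (l 15826176) (l 15904848)) (b (l 4) (l 15759976))) (a (l 16030136) (b (l 15831848) (l 15910952)))) (l 4)) (a (b (b (a (l 16161552) (l 15995896)) (a (l 16243216) (l 16085104))) (a (b (l 16312072) (l 16373336)) (l 16209904))) (a (a (b (l 15944712) (l 16117672)) (b (l 4) (l 16080728))) (l 4)))) (b (b (a (b (a (l 16421096) (l 16318488)) (a (b (l 16454192) (l 16484488)) (l 16381600))) (a (l 16264496) (l 4))) (a (b (a (b (l 16512264) (l 16530536)) (a (l 16463456) (l 16424360))) (a (b (l 16548152) (l 16574016)) (b (l 16487512) (l 16512872)))) (a (l 16411952) (b (l 16347096) (l 16422856))))) (a (b (b (a (l 16594632) (l 16549872)) (a (l 2) (l 16590608))) (l 2)) (b (a (b (l 16508792) (l 16564416)) (l 16541416)) (a (a (l 16649632) (l 16657304)) (b (l 16625528) (l 16682944))))))), by decide +kernel⟩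

theorem s2_pm_202 : ∃ t, chk3 f_pm_202 t 1 1 1 = true := ex3_a k0_pm_202 k1_pm_202

theorem c_pm_202 : CertB 0 536870912 1073741824 536870912 697932185 42949674 3 eng mog cd0q2 cd7q2 pd0 false true false .pp 2 0 2
    ndB0q2 ndB7q2 pcB0 cut_pm_202 Ext.none :=
  certB1 (fam := false) (s1 := true) (s2 := false) (a := 2) (b := 0) (c := 2) (cn := .pp) (n1 := ndB0q2) (n2 := ndB7q2) (pc := pcB0) (cut := cut_pm_202) (xt := Ext.none) (P1 := 0) (W1 := 536870912) (P2 := 1073741824) (W2 := 536870912) (P3 := 697932185) (W3 := 42949674) (N0 := 3) (En := eng) (mo := mog) (C1 := cd0q2) (C2 := cd7q2) (C3 := pd0)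
    rfl (fun _ => rfl) s2_pm_202

noncomputable def cut_pm_203 : Cut := Cut.of [[⟨3, 0, 0, 1449551462⟩]]

noncomputable def f_pm_203 : ℕ → ℕ → ℕ → ℕ → Bool := onCell 0 536870912 0 1230186008 697932185 42949674
    (rowB 3 eng mog cd0q2 cd7q3 pd0 0 false true false .up 2 0 3 (qsf 0 536870912 0 1230186008 0) ndB0q2 ndB7q3 pcB0 cut_pm_203 Ext.none)

def k0_pm_203 : ∃ t, chk3 f_pm_203 t 1 1 1 = true :=
  ⟨(b (l 2) (b (l 2) (a (b (b (l 2) (a (a (l 6) (b (l 2) (l 225049504423))) (a (l 16745664) (l 16736816)))) (b (a (a (a (b (l 6) (l 16737192)) (b (l 16744928) (l 16730320))) (b (l 16734184) (l 16718336))) (a (b (l 16720040) (l 16702608)) (b (l 16712848) (l 16688320)))) (a (b (a (l 16716072) (l 16700208)) (a (l 16693256) (l 16677256))) (b (a (l 16682136) (l 16664072)) (a (b (l 16665640) (l 16653648)) (a (l 16647248) (l 16634672))))))) (b (l 2) (a (b (a (l 16740480) (l 16728072)) (b (a (l 16651048) (l 16654984)) (a (l 16613216) (l 16605928)))) (b (a (l 16740184)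 (l 2)) (a (b (l 16707960) (l 16641104)) (b (a (l 16724576) (l 2)) (l 16682792))))))))), by decide +kernel⟩

theorem c_pm_203 : CertB 0 536870912 0 1230186008 697932185 42949674 3 eng mog cd0q2 cd7q3 pd0 false true false .up 2 0 3
    ndB0q2 ndB7q3 pcB0 cut_pm_203 Ext.none :=
  certB0 (fam := false) (s1 := true) (s2 := false) (a := 2) (b := 0) (c := 3) (cn := .up) (n1 := ndB0q2) (n2 := ndB7q3) (pc := pcB0) (cut := cut_pm_203) (xt := Ext.none) (P1 := 0) (W1 := 536870912) (P2 := 0) (W2 := 1230186008) (P3 := 697932185) (W3 := 42949674) (N0 := 3) (En := eng) (mo := mog) (C1 := cd0q2) (C2 := cd7q3) (C3 := pd0)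
    rfl k0_pm_203

noncomputable def cut_pm_213 : Cut := Cut.of [[⟨3, 0, 0, 1449551462⟩], [⟨0, 1, 0, 67108864⟩, ⟨1, 1, 0, 67108864⟩, ⟨2, 2, 0, 16777216⟩]]

noncomputable def f_pm_213 : ℕ → ℕ → ℕ → ℕ → Bool := onCell 0 536870912 0 1230186008 697932185 42949674
    (rowB 3 eng mog cd0q2 cd7q3 pd1 0 false true false .pnn 2 1 3 (qsf 0 536870912 0 1230186008 1) ndB0q2 ndB7q3 pcB1 cut_pm_213 Ext.none)

def k0_pm_213 : ∃ t, chk3 f_pm_213 t 1 1 1 = true :=
  ⟨(b (a (l 6) (b (a (l 6) (l 6)) (a (b (l 6) (a (l 6) (b (l 6) (l 16747736)))) (b (a (b (l 6) (l 16764496)) (b (a (l 6) (l 16760288)) (l 16756264))) (a (b (l 16754368) (l 16745528)) (b (l 16727512) (l 16733848))))))) (b (a (b (l 6) (a (l 6) (b (a (l 6) (a (l 6) (l 16712272))) (a (b (l 6) (l 16727952)) (b (l 16714560) (l 16711520)))))) (a (b (a (b (l 16736192) (b (l 16722936) (l 16717192))) (b (b (l 16739072) (l 16736248)) (l 16730208))) (b (a (l 16791208) (l 16715792)) (a (l 16699328) (l 16704872)))) (b (a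 (b (l 16734104) (l 16725048)) (b (l 16723672) (l 16687752))) (a (b (l 16715152) (l 16716752)) (b (l 16703888) (l 16697696)))))) (a (b (a (b (l 6) (a (l 6) (b (l 16727392) (l 16839064)))) (b (a (b (l 16724896) (l 16721232)) (l 16700784)) (a (l 16703064) (l 16681624)))) (a (l 1) (b (a (l 1) (l 1181149886167)) (l 1)))) (b (a (b (a (l 16688048) (l 16708496)) (a (l 16683176) (l 16678048))) (b (a (l 16710848) (l 16685248)) (l 16848272))) (a (b (a (l 16577096) (l 16688232)) (l 1)) (b (a (l 16669656) (l 16633264)) (a (l 16658280) (l 16648240)))))))), by decide +kernel⟩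

theorem c_pm_213 : CertB 0 536870912 0 1230186008 697932185 42949674 3 eng mog cd0q2 cd7q3 pd1 false true false .pnn 2 1 3
    ndB0q2 ndB7q3 pcB1 cut_pm_213 Ext.none :=
  certB0 (fam := false) (s1 := true) (s2 := false) (a := 2) (b := 1) (c := 3) (cn := .pnn) (n1 := ndB0q2) (n2 := ndB7q3) (pc := pcB1) (cut := cut_pm_213) (xt := Ext.none) (P1 := 0) (W1 := 536870912) (P2 := 0) (W2 := 1230186008) (P3 := 697932185) (W3 := 42949674) (N0 := 3) (En := eng) (mo := mog) (C1 := cd0q2) (C2 := cd7q3) (C3 := pd1)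
    rfl k0_pm_213

noncomputable def cut_mm_001 : Cut := Cut.of [[⟨3, 0, 0, 1449551462⟩]]

noncomputable def f_mm_001 : ℕ → ℕ → ℕ → ℕ → Bool := onCell 0 536870912 536870912 536870912 697932185 42949674
    (rowB 3 eng mog cd0q0 cd7q1 pd0 0 false false false .up 0 0 1 (qsf 0 536870912 536870912 536870912 0) ndB0q0 ndB7q1 pcB0 cut_mm_001 Ext.none)

def k0_mm_001 : ∃ t, chk3 f_mm_001 t 1 1 1 = true :=
  ⟨(l 6), by decide +kernel⟩

theorem c_mm_001 : CertB 0 536870912 536870912 536870912 697932185 42949674 3 eng mog cd0q0 cd7q1 pd0 false false false .up 0 0 1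
    ndB0q0 ndB7q1 pcB0 cut_mm_001 Ext.none :=
  certB0 (fam := false) (s1 := false) (s2 := false) (a := 0) (b := 0) (c := 1) (cn := .up) (n1 := ndB0q0) (n2 := ndB7q1) (pc := pcB0) (cut := cut_mm_001) (xt := Ext.none) (P1 := 0) (W1 := 536870912) (P2 := 536870912) (W2 := 536870912) (P3 := 697932185) (W3 := 42949674) (N0 := 3) (En := eng) (mo := mog) (C1 := cd0q0) (C2 := cd7q1) (C3 := pd0)
    rfl k0_mm_001

noncomputable def cut_mm_011 : Cut := Cut.of [[⟨3, 0, 0, 1449551462⟩]]

noncomputable def f_mm_011 : ℕ → ℕ → ℕ → ℕ → Bool := onCell 0 536870912 536870912 536870912 697932185 42949674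
    (rowB 3 eng mog cd0q0 cd7q1 pd1 0 false false false .pnn 0 1 1 (qsf 0 536870912 536870912 536870912 1) ndB0q0 ndB7q1 pcB1 cut_mm_011 Ext.none)

def k0_mm_011 : ∃ t, chk3 f_mm_011 t 1 1 1 = true :=
  ⟨(l 6), by decide +kernel⟩

theorem c_mm_011 : CertB 0 536870912 536870912 536870912 697932185 42949674 3 eng mog cd0q0 cd7q1 pd1 false false false .pnn 0 1 1
    ndB0q0 ndB7q1 pcB1 cut_mm_011 Ext.none :=
  certB0 (fam := false) (s1 := false) (s2 := false) (a := 0) (b := 1) (c := 1) (cn := .pnn) (n1 := ndB0q0) (n2 := ndB7q1) (pc := pcB1) (cut := cut_mm_011) (xt := Ext.none) (P1 := 0) (W1 := 536870912) (P2 := 536870912) (W2 := 536870912) (P3 := 697932185) (W3 := 42949674) (N0 := 3) (En := eng) (mo := mog) (C1 := cd0q0) (C2 := cd7q1) (C3 := pd1)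
    rfl k0_mm_011

noncomputable def cut_mm_012 : Cut := Cut.of [[⟨3, 0, 0, 1449551462⟩]]

noncomputable def f_mm_012 : ℕ → ℕ → ℕ → ℕ → Bool := onCell 0 536870912 1073741824 536870912 697932185 42949674
    (rowB 3 eng mog cd0q0 cd7q2 pd1 0 false false false .pnp 0 1 2 (qsf 0 536870912 1073741824 536870912 1) ndB0q0 ndB7q2 pcB1 cut_mm_012 Ext.none)

def k0_mm_012 : ∃ t, chk3 f_mm_012 t 1 1 1 = true :=
  ⟨(l 5), by decide +kernel⟩

theorem c_mm_012 : CertB 0 536870912 1073741824 536870912 697932185 42949674 3 eng mog cd0q0 cd7q2 pd1 false false false .pnp 0 1 2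
    ndB0q0 ndB7q2 pcB1 cut_mm_012 Ext.none :=
  certB0 (fam := false) (s1 := false) (s2 := false) (a := 0) (b := 1) (c := 2) (cn := .pnp) (n1 := ndB0q0) (n2 := ndB7q2) (pc := pcB1) (cut := cut_mm_012) (xt := Ext.none) (P1 := 0) (W1 := 536870912) (P2 := 1073741824) (W2 := 536870912) (P3 := 697932185) (W3 := 42949674) (N0 := 3) (En := eng) (mo := mog) (C1 := cd0q0) (C2 := cd7q2) (C3 := pd1)
    rfl k0_mm_012

noncomputable def cut_mm_022 : Cut := Cut.of [[⟨3, 0, 0, 1449551462⟩]]

noncomputable def f_mm_022 : ℕ → ℕ → ℕ → ℕ → Bool := onCell 0 536870912 1073741824 536870912 697932185 42949674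
    (rowB 3 eng mog cd0q0 cd7q2 pd2 0 false false false .pp 0 2 2 (qsf 0 536870912 1073741824 536870912 2) ndB0q0 ndB7q2 pcB2 cut_mm_022 Ext.none)

def k0_mm_022 : ∃ t, chk3 f_mm_022 t 1 1 1 = true :=
  ⟨(l 5), by decide +kernel⟩

theorem c_mm_022 : CertB 0 536870912 1073741824 536870912 697932185 42949674 3 eng mog cd0q0 cd7q2 pd2 false false false .pp 0 2 2
    ndB0q0 ndB7q2 pcB2 cut_mm_022 Ext.none :=
  certB0 (fam := false) (s1 := false) (s2 := false) (a := 0) (b := 2) (c := 2) (cn := .pp) (n1 := ndB0q0) (n2 := ndB7q2) (pc := pcB2) (cut := cut_mm_022) (xt := Ext.none) (P1 := 0) (W1 := 536870912) (P2 := 1073741824) (W2 := 536870912) (P3 := 697932185) (W3 := 42949674) (N0 := 3) (En := eng) (mo := mog) (C1 := cd0q0) (C2 := cd7q2) (C3 := pd2)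
    rfl k0_mm_022

noncomputable def cut_mm_023 : Cut := Cut.of [[⟨3, 0, 0, 1449551462⟩]]

noncomputable def f_mm_023 : ℕ → ℕ → ℕ → ℕ → Bool := onCell 0 536870912 0 1230186008 697932185 42949674
    (rowB 3 eng mog cd0q0 cd7q3 pd2 0 false false false .up 0 2 3 (qsf 0 536870912 0 1230186008 2) ndB0q0 ndB7q3 pcB2 cut_mm_023 Ext.none)

def k0_mm_023 : ∃ t, chk3 f_mm_023 t 1 1 1 = true :=
  ⟨(l 5), by decide +kernel⟩

theorem c_mm_023 : CertB 0 536870912 0 1230186008 697932185 42949674 3 eng mog cd0q0 cd7q3 pd2 false false false .up 0 2 3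
    ndB0q0 ndB7q3 pcB2 cut_mm_023 Ext.none :=
  certB0 (fam := false) (s1 := false) (s2 := false) (a := 0) (b := 2) (c := 3) (cn := .up) (n1 := ndB0q0) (n2 := ndB7q3) (pc := pcB2) (cut := cut_mm_023) (xt := Ext.none) (P1 := 0) (W1 := 536870912) (P2 := 0) (W2 := 1230186008) (P3 := 697932185) (W3 := 42949674) (N0 := 3) (En := eng) (mo := mog) (C1 := cd0q0) (C2 := cd7q3) (C3 := pd2)
    rfl k0_mm_023

noncomputable def cut_mm_033 : Cut := Cut.of [[⟨3, 0, 0, 1449551462⟩]]

noncomputable def f_mm_033 : ℕ → ℕ → ℕ → ℕ → Bool := onCell 0 536870912 0 1230186008 697932185 42949674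
    (rowB 3 eng mog cd0q0 cd7q3 pd3 0 false false false .pnn 0 3 3 (qsf 0 536870912 0 1230186008 3) ndB0q0 ndB7q3 pcB3 cut_mm_033 Ext.none)

def k0_mm_033 : ∃ t, chk3 f_mm_033 t 1 1 1 = true :=
  ⟨(l 5), by decide +kernel⟩

theorem c_mm_033 : CertB 0 536870912 0 1230186008 697932185 42949674 3 eng mog cd0q0 cd7q3 pd3 false false false .pnn 0 3 3
    ndB0q0 ndB7q3 pcB3 cut_mm_033 Ext.none :=
  certB0 (fam := false) (s1 := false) (s2 := false) (a := 0) (b := 3) (c := 3) (cn := .pnn) (n1 := ndB0q0) (n2 := ndB7q3) (pc := pcB3) (cut := cut_mm_033) (xt := Ext.none) (P1 := 0) (W1 := 536870912) (P2 := 0) (W2 := 1230186008) (P3 := 697932185) (W3 := 42949674) (N0 := 3) (En := eng) (mo := mog) (C1 := cd0q0) (C2 := cd7q3) (C3 := pd3)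
    rfl k0_mm_033

noncomputable def cut_mm_101 : Cut := Cut.of [[⟨3, 0, 0, 1449551462⟩], [⟨0, 1, 0, 67108864⟩, ⟨1, 0, 0, 67108864⟩, ⟨2, 1, 0, 67108864⟩]]

noncomputable def f_mm_101 : ℕ → ℕ → ℕ → ℕ → Bool := onCell 536870912 536870912 0 536870912 697932185 42949674
    (rowB 3 eng mog cd0q1 cd7q1 pd0 1 false false false .npn 1 0 1 (qsf 536870912 536870912 536870912 536870912 0) ndB0q1 ndB7q1 pcB0 cut_mm_101 Ext.none)

def k0_mm_101 : ∃ t, chk3 f_mm_101 t 1 1 1 = true :=
  ⟨(l 6), by decide +kernel⟩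

theorem c_mm_101 : CertB 536870912 536870912 536870912 536870912 697932185 42949674 3 eng mog cd0q1 cd7q1 pd0 false false false .npn 1 0 1
    ndB0q1 ndB7q1 pcB0 cut_mm_101 Ext.none :=
  certB1 (fam := false) (s1 := false) (s2 := false) (a := 1) (b := 0) (c := 1) (cn := .npn) (n1 := ndB0q1) (n2 := ndB7q1) (pc := pcB0) (cut := cut_mm_101) (xt := Ext.none) (P1 := 536870912) (W1 := 536870912) (P2 := 536870912) (W2 := 536870912) (P3 := 697932185) (W3 := 42949674) (N0 := 3) (En := eng) (mo := mog) (C1 := cd0q1) (C2 := cd7q1) (C3 := pd0)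
    rfl (fun _ => rfl) k0_mm_101

noncomputable def cut_mm_102 : Cut := Cut.of [[⟨3, 0, 0, 1449551462⟩], [⟨0, 1, 0, 67108864⟩, ⟨1, 0, 0, 67108864⟩, ⟨2, 1, 0, 67108864⟩]]

noncomputable def f_mm_102 : ℕ → ℕ → ℕ → ℕ → Bool := onCell 536870912 536870912 1073741824 536870912 697932185 42949674
    (rowB 3 eng mog cd0q1 cd7q2 pd0 0 false false false .npp 1 0 2 (qsf 536870912 536870912 1073741824 536870912 0) ndB0q1 ndB7q2 pcB0 cut_mm_102 Ext.none)

def k0_mm_102 : ∃ t, chk3 f_mm_102 t 1 1 1 = true :=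
  ⟨(l 6), by decide +kernel⟩

theorem c_mm_102 : CertB 536870912 536870912 1073741824 536870912 697932185 42949674 3 eng mog cd0q1 cd7q2 pd0 false false false .npp 1 0 2
    ndB0q1 ndB7q2 pcB0 cut_mm_102 Ext.none :=
  certB0 (fam := false) (s1 := false) (s2 := false) (a := 1) (b := 0) (c := 2) (cn := .npp) (n1 := ndB0q1) (n2 := ndB7q2) (pc := pcB0) (cut := cut_mm_102) (xt := Ext.none) (P1 := 536870912) (W1 := 536870912) (P2 := 1073741824) (W2 := 536870912) (P3 := 697932185) (W3 := 42949674) (N0 := 3) (En := eng) (mo := mog) (C1 := cd0q1) (C2 := cd7q2) (C3 := pd0)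
    rfl k0_mm_102

noncomputable def cut_mm_112 : Cut := Cut.of [[⟨3, 0, 0, 1449551462⟩]]

noncomputable def f_mm_112 : ℕ → ℕ → ℕ → ℕ → Bool := onCell 536870912 536870912 1073741824 536870912 697932185 42949674
    (rowB 3 eng mog cd0q1 cd7q2 pd1 0 false false false .dn 1 1 2 (qsf 536870912 536870912 1073741824 536870912 1) ndB0q1 ndB7q2 pcB1 cut_mm_112 Ext.none)

def k0_mm_112 : ∃ t, chk3 f_mm_112 t 1 1 1 = true :=
  ⟨(l 6), by decide +kernel⟩

theorem c_mm_112 : CertB 536870912 536870912 1073741824 536870912 697932185 42949674 3 eng mog cd0q1 cd7q2 pd1 false false false .dn 1 1 2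
    ndB0q1 ndB7q2 pcB1 cut_mm_112 Ext.none :=
  certB0 (fam := false) (s1 := false) (s2 := false) (a := 1) (b := 1) (c := 2) (cn := .dn) (n1 := ndB0q1) (n2 := ndB7q2) (pc := pcB1) (cut := cut_mm_112) (xt := Ext.none) (P1 := 536870912) (W1 := 536870912) (P2 := 1073741824) (W2 := 536870912) (P3 := 697932185) (W3 := 42949674) (N0 := 3) (En := eng) (mo := mog) (C1 := cd0q1) (C2 := cd7q2) (C3 := pd1)
    rfl k0_mm_112

noncomputable def cut_mm_113 : Cut := Cut.of [[⟨3, 0, 0, 1449551462⟩]]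

noncomputable def f_mm_113 : ℕ → ℕ → ℕ → ℕ → Bool := onCell 536870912 536870912 0 1230186008 697932185 42949674
    (rowB 3 eng mog cd0q1 cd7q3 pd1 0 false false false .nn 1 1 3 (qsf 536870912 536870912 0 1230186008 1) ndB0q1 ndB7q3 pcB1 cut_mm_113 Ext.none)

def k0_mm_113 : ∃ t, chk3 f_mm_113 t 1 1 1 = true :=
  ⟨(a (l 5) (b (l 5) (l 6))), by decide +kernel⟩

theorem c_mm_113 : CertB 536870912 536870912 0 1230186008 697932185 42949674 3 eng mog cd0q1 cd7q3 pd1 false false false .nn 1 1 3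
    ndB0q1 ndB7q3 pcB1 cut_mm_113 Ext.none :=
  certB0 (fam := false) (s1 := false) (s2 := false) (a := 1) (b := 1) (c := 3) (cn := .nn) (n1 := ndB0q1) (n2 := ndB7q3) (pc := pcB1) (cut := cut_mm_113) (xt := Ext.none) (P1 := 536870912) (W1 := 536870912) (P2 := 0) (W2 := 1230186008) (P3 := 697932185) (W3 := 42949674) (N0 := 3) (En := eng) (mo := mog) (C1 := cd0q1) (C2 := cd7q3) (C3 := pd1)
    rfl k0_mm_113

noncomputable def cut_mm_123 : Cut := Cut.of [[⟨3, 0, 0, 1449551462⟩]]

noncomputable def f_mm_123 : ℕ → ℕ → ℕ → ℕ → Bool := onCell 1073741824 536870912 0 1230186008 697932185 42949674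
    (rowB 3 eng mog cd0q1 cd7q3 pd2 2 false false false .npn 1 2 3 (qsf 536870912 536870912 0 1230186008 2) ndB0q1 ndB7q3 pcB2 cut_mm_123 Ext.none)

def k0_mm_123 : ∃ t, chk3 f_mm_123 t 1 1 1 = true :=
  ⟨(b (l 5) (l 5)), by decide +kernel⟩

theorem c_mm_123 : CertB 536870912 536870912 0 1230186008 697932185 42949674 3 eng mog cd0q1 cd7q3 pd2 false false false .npn 1 2 3
    ndB0q1 ndB7q3 pcB2 cut_mm_123 Ext.none :=
  certB2 (fam := false) (s1 := false) (s2 := false) (a := 1) (b := 2) (c := 3) (cn := .npn) (n1 := ndB0q1) (n2 := ndB7q3) (pc := pcB2) (cut := cut_mm_123) (xt := Ext.none) (P1 := 536870912) (W1 := 536870912) (P2 := 0) (W2 := 1230186008) (P3 := 697932185) (W3 := 42949674) (N0 := 3) (En := eng) (mo := mog) (C1 := cd0q1) (C2 := cd7q3) (C3 := pd2)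
    rfl (fun _ => rfl) k0_mm_123

noncomputable def cut_mm_133 : Cut := Cut.of [[⟨3, 0, 0, 1449551462⟩]]

noncomputable def f_mm_133 : ℕ → ℕ → ℕ → ℕ → Bool := onCell 1610612736 536870912 0 1230186008 697932185 42949674
    (rowB 3 eng mog cd0q1 cd7q3 pd3 2 false false false .dn 1 3 3 (qsf 536870912 536870912 0 1230186008 3) ndB0q1 ndB7q3 pcB3 cut_mm_133 Ext.none)

def k0_mm_133 : ∃ t, chk3 f_mm_133 t 1 1 1 = true :=
  ⟨(l 5), by decide +kernel⟩

theorem c_mm_133 : CertB 536870912 536870912 0 1230186008 697932185 42949674 3 eng mog cd0q1 cd7q3 pd3 false false false .dn 1 3 3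
    ndB0q1 ndB7q3 pcB3 cut_mm_133 Ext.none :=
  certB2 (fam := false) (s1 := false) (s2 := false) (a := 1) (b := 3) (c := 3) (cn := .dn) (n1 := ndB0q1) (n2 := ndB7q3) (pc := pcB3) (cut := cut_mm_133) (xt := Ext.none) (P1 := 536870912) (W1 := 536870912) (P2 := 0) (W2 := 1230186008) (P3 := 697932185) (W3 := 42949674) (N0 := 3) (En := eng) (mo := mog) (C1 := cd0q1) (C2 := cd7q3) (C3 := pd3)
    rfl (fun _ => rfl) k0_mm_133

noncomputable def cut_mm_202 : Cut := Cut.of [[⟨3, 0, 0, 1449551462⟩], [⟨0, 1, 0, 53687091⟩, ⟨1, 0, 0, 53687091⟩, ⟨2, 1, 0, 53687091⟩]]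

noncomputable def f_mm_202 : ℕ → ℕ → ℕ → ℕ → Bool := onCell 0 536870912 0 536870912 697932185 42949674
    (rowB 3 eng mog cd0q2 cd7q2 pd0 1 false false false .pp 2 0 2 (qsf 0 536870912 1073741824 536870912 0) ndB0q2 ndB7q2 pcB0 cut_mm_202 Ext.none)

def k0_mm_202 : ∃ t, chk3 f_mm_202 t 1 1 1 = true :=
  ⟨(a (a (b (b (b (b (l 16311904) (a (l 16350776) (l 16389416))) (a (b (l 16406968) (l 16476048)) (b (l 16436360) (l 16480632)))) (b (b (a (l 16496704) (l 16517488)) (a (l 16530912) (l 16608512))) (a (b (l 16559208) (a (l 16586200) (l 16596200))) (b (b (l 16569784) (l 16567888)) (a (l 16602432) (l 16615152)))))) (b (b (b (a (b (l 16615696) (l 16629144)) (a (l 16633952) (l 16646224))) (a (b (l 16643464) (l 16658248)) (l 16716304))) (a (b (a (l 16674976) (l 16682024)) (a (l 16700440) (l 6))) (l 6))) (l 2))) (b (b (b (a (b (l 16585920) (l 16424496)) (b (a (l 16404576) (l 16430480)) (l 16467584))) (a (l 16491432) (b (l 16511664) (a (l 16537552) (l 6))))) (b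 (a (b (l 16544816) (b (l 16567496) (a (l 16574560) (l 6)))) (b (a (l 16571216) (l 6)) (l 6))) (a (b (a (b (l 16590680) (l 16606600)) (l 6)) (l 6)) (l 6)))) (l 6))) (b (b (a (a (b (a (b (l 16460904) (l 16509864)) (l 6)) (l 6)) (l 6)) (l 6)) (l 6)) (l 6))), by decide +kernel⟩

theorem c_mm_202 : CertB 0 536870912 1073741824 536870912 697932185 42949674 3 eng mog cd0q2 cd7q2 pd0 false false false .pp 2 0 2
    ndB0q2 ndB7q2 pcB0 cut_mm_202 Ext.none :=
  certB1 (fam := false) (s1 := false) (s2 := false) (a := 2) (b := 0) (c := 2) (cn := .pp) (n1 := ndB0q2) (n2 := ndB7q2) (pc := pcB0) (cut := cut_mm_202) (xt := Ext.none) (P1 := 0) (W1 := 536870912) (P2 := 1073741824) (W2 := 536870912) (P3 := 697932185) (W3 := 42949674) (N0 := 3) (En := eng) (mo := mog) (C1 := cd0q2) (C2 := cd7q2) (C3 := pd0)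
    rfl (fun _ => rfl) k0_mm_202

noncomputable def cut_mm_203 : Cut := Cut.of [[⟨3, 0, 0, 1449551462⟩]]

noncomputable def f_mm_203 : ℕ → ℕ → ℕ → ℕ → Bool := onCell 0 536870912 0 1230186008 697932185 42949674
    (rowB 3 eng mog cd0q2 cd7q3 pd0 0 false false false .up 2 0 3 (qsf 0 536870912 0 1230186008 0) ndB0q2 ndB7q3 pcB0 cut_mm_203 Ext.none)

def k0_mm_203 : ∃ t, chk3 f_mm_203 t 1 1 1 = true :=
  ⟨(b (l 2) (b (l 2) (a (b (l 6) (b (l 6) (a (a (b (l 6) (a (l 16703448) (l 6))) (l 6)) (l 6)))) (l 3)))), by decide +kernel⟩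

theorem c_mm_203 : CertB 0 536870912 0 1230186008 697932185 42949674 3 eng mog cd0q2 cd7q3 pd0 false false false .up 2 0 3
    ndB0q2 ndB7q3 pcB0 cut_mm_203 Ext.none :=
  certB0 (fam := false) (s1 := false) (s2 := false) (a := 2) (b := 0) (c := 3) (cn := .up) (n1 := ndB0q2) (n2 := ndB7q3) (pc := pcB0) (cut := cut_mm_203) (xt := Ext.none) (P1 := 0) (W1 := 536870912) (P2 := 0) (W2 := 1230186008) (P3 := 697932185) (W3 := 42949674) (N0 := 3) (En := eng) (mo := mog) (C1 := cd0q2) (C2 := cd7q3) (C3 := pd0)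
    rfl k0_mm_203

noncomputable def cut_mm_213 : Cut := Cut.of [[⟨3, 0, 0, 1449551462⟩]]

noncomputable def f_mm_213 : ℕ → ℕ → ℕ → ℕ → Bool := onCell 0 536870912 0 1230186008 697932185 42949674
    (rowB 3 eng mog cd0q2 cd7q3 pd1 0 false false false .pnn 2 1 3 (qsf 0 536870912 0 1230186008 1) ndB0q2 ndB7q3 pcB1 cut_mm_213 Ext.none)

def k0_mm_213 : ∃ t, chk3 f_mm_213 t 1 1 1 = true :=
  ⟨(b (l 6) (b (l 6) (b (l 6) (a (b (l 6) (l 1)) (l 3))))), by decide +kernel⟩

theorem c_mm_213 : CertB 0 536870912 0 1230186008 697932185 42949674 3 eng mog cd0q2 cd7q3 pd1 false false false .pnn 2 1 3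
    ndB0q2 ndB7q3 pcB1 cut_mm_213 Ext.none :=
  certB0 (fam := false) (s1 := false) (s2 := false) (a := 2) (b := 1) (c := 3) (cn := .pnn) (n1 := ndB0q2) (n2 := ndB7q3) (pc := pcB1) (cut := cut_mm_213) (xt := Ext.none) (P1 := 0) (W1 := 536870912) (P2 := 0) (W2 := 1230186008) (P3 := 697932185) (W3 := 42949674) (N0 := 3) (En := eng) (mo := mog) (C1 := cd0q2) (C2 := cd7q3) (C3 := pd1)
    rfl k0_mm_213

end Pool.Agent.Strip051.G.I6500_6900.Tab.C.BB07

namespace Pool.Agent.Strip051.G.I6500_6900.Tab.C.BB10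

open Pool.Agent.Strip051.PB Pool.Agent.Strip051.PB.T
open Pool.Agent.Strip051.G.I6500_6900.Tab

noncomputable def f_pp_001 : ℕ → ℕ → ℕ → ℕ → Bool := onCell 0 536870912 0 536870912 697932185 42949674
    (rowB 3 eng mog cd1q0 cd0q1 pd0 1 false true true .up 0 0 1 (qsf 0 536870912 536870912 536870912 0) ndB1q0 ndB0q1 pcB0 Cut.none Ext.none)

def k0_pp_001 : ∃ t, chk3 f_pp_001 t 1 1 1 = true :=
  ⟨(l 3), by decide +kernel⟩

theorem c_pp_001 : CertB 0 536870912 536870912 536870912 697932185 42949674 3 eng mog cd1q0 cd0q1 pd0 false true true .up 0 0 1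
    ndB1q0 ndB0q1 pcB0 Cut.none Ext.none :=
  certB1 (fam := false) (s1 := true) (s2 := true) (a := 0) (b := 0) (c := 1) (cn := .up) (n1 := ndB1q0) (n2 := ndB0q1) (pc := pcB0) (cut := Cut.none) (xt := Ext.none) (P1 := 0) (W1 := 536870912) (P2 := 536870912) (W2 := 536870912) (P3 := 697932185) (W3 := 42949674) (N0 := 3) (En := eng) (mo := mog) (C1 := cd1q0) (C2 := cd0q1) (C3 := pd0)
    rfl (fun _ => rfl) k0_pp_001

noncomputable def cut_pp_011 : Cut := Cut.of [[⟨0, 0, 0, 67108864⟩, ⟨1, 1, 0, 67108864⟩, ⟨2, 1, 0, 67108864⟩]]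

noncomputable def f_pp_011 : ℕ → ℕ → ℕ → ℕ → Bool := onCell 0 536870912 536870912 536870912 697932185 42949674
    (rowB 3 eng mog cd1q0 cd0q1 pd1 0 false true true .pnn 0 1 1 (qsf 0 536870912 536870912 536870912 1) ndB1q0 ndB0q1 pcB1 cut_pp_011 Ext.none)

def k0_pp_011 : ∃ t, chk3 f_pp_011 t 1 1 1 = true :=
  ⟨(a (b (l 3) (b (l 3) (a (b (l 3) (a (b (l 3) (a (b (l 3) (l 6)) (l 3))) (l 3))) (l 3)))) (l 3)), by decide +kernel⟩

theorem c_pp_011 : CertB 0 536870912 536870912 536870912 697932185 42949674 3 eng mog cd1q0 cd0q1 pd1 false true true .pnn 0 1 1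
    ndB1q0 ndB0q1 pcB1 cut_pp_011 Ext.none :=
  certB0 (fam := false) (s1 := true) (s2 := true) (a := 0) (b := 1) (c := 1) (cn := .pnn) (n1 := ndB1q0) (n2 := ndB0q1) (pc := pcB1) (cut := cut_pp_011) (xt := Ext.none) (P1 := 0) (W1 := 536870912) (P2 := 536870912) (W2 := 536870912) (P3 := 697932185) (W3 := 42949674) (N0 := 3) (En := eng) (mo := mog) (C1 := cd1q0) (C2 := cd0q1) (C3 := pd1)
    rfl k0_pp_011

noncomputable def cut_pp_012 : Cut := Cut.of [[⟨0, 0, 0, 53687091⟩, ⟨1, 1, 0, 53687091⟩, ⟨2, 1, 0, 53687091⟩]]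

noncomputable def f_pp_012 : ℕ → ℕ → ℕ → ℕ → Bool := onCell 536870912 536870912 0 536870912 697932185 42949674
    (rowB 3 eng mog cd1q0 cd0q2 pd1 2 false true true .pnp 0 1 2 (qsf 0 536870912 0 536870912 1) ndB1q0 ndB0q2 pcB1 cut_pp_012 Ext.none)

def k0_pp_012 : ∃ t, chk3 f_pp_012 t 4 2 1 = true :=
  ⟨(b (l 2) (l 3)), by decide +kernel⟩

def k1_pp_012 : ∃ t, chk3 f_pp_012 t 5 4 1 = true :=
  ⟨(a (a (a (l 2) (b (b (l 16700608) (l 16721880)) (b (b (l 16734632) (l 16743128)) (b (l 16747144) (a (b (l 139150150599) (a (l 2) (b (l 16742368) (b (a (l 187535631191) (l 16730848)) (a (l 3) (l 188072501863)))))) (b (l 16745336) (a (b (l 16738520) (l 16736064)) (l 16740544)))))))) (b (l 16714392) (b (a (b (l 16725408) (l 16734256)) (l 16741168)) (a (b (l 16742560) (l 16746280)) (b (l 16734120) (l 16742072)))))) (b (b (l 16645448) (l 16667552)) (a (b (l 16702360) (a (b (l 16724232) (l 16734056)) (b (l 16713608) (l 16724008)))) (b (l 16677712) (l 16722896))))),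 by decide +kernel⟩

def k2_pp_012 : ∃ t, chk3 f_pp_012 t 10 5 1 = true :=
  ⟨(b (a (b (a (l 3) (b (a (l 3) (b (a (b (c (l 185925018823) (a (l 198809918343) (l 169282026551))) (l 3)) (b (l 16735072) (c (l 185388147319) (a (l 199346788791) (l 173040122471))))) (l 3))) (l 3))) (l 3)) (b (a (b (a (b (a (b (l 16737312) (l 115594934935)) (l 16739648)) (a (b (b (a (l 181093178695) (l 16730080)) (l 197199306327)) (l 3)) (b (l 116131804711) (b (a (l 181630049047) (l 16729792)) (l 190219983927))))) (b (l 16744256) (a (b (l 16736360) (l 116668674199)) (l 16738976)))) (a (l 3) (b (a (b (b (a (l 183240661191) (l 16734712)) (l 191293725175)) (l 3)) (b (l 116668672983) (b (a (l 184314402391) (l 16731752)) (l 191293724583)))) (l 3)))) (b (a (l 16745392) (l 16745456)) (a (b (a (b (l 16735688) (l 116131800823)) (l 16738528)) (a (b (a (l 190756853207) (b (l 16732040) (l 183777530471))) (l 3)) (b (l 118816152023) (a (l 189683110823) (l 174113851655))))) (b (l 16743744) (a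 (b (l 16735184) (l 118279282583)) (l 16738192)))))) (a (l 3) (b (a (l 3) (b (a (b (a (l 189683110583) (l 171966368583)) (l 3)) (b (l 119353025143) (a (l 190219981639) (l 171429499159)))) (l 3))) (l 3))))) (l 3)), by decide +kernel⟩

def k3_pp_012 : ∃ t, chk3 f_pp_012 t 11 5 1 = true :=
  ⟨(b (a (b (a (b (l 16742056) (a (l 16745296) (l 16745760))) (l 16738760)) (a (b (a (b (a (b (l 16734760) (l 119889896375)) (l 16738024)) (a (b (l 178945698807) (l 3)) (b (l 120426768167) (l 173576986423)))) (b (l 16744000) (a (l 98415062087) (l 16738072)))) (a (l 3) (b (a (l 182703802743) (b (l 120963641543) (l 173576991143))) (l 3)))) (b (a (l 16746144) (l 16746872)) (a (b (a (l 104857533111) (l 16738304)) (a (l 183240671143) (b (l 16735080) (l 175187609335)))) (b (l 16745328) (a (l 102710057575) (l 16738680))))))) (b (b (a (l 16723960) (l 16713536)) (a (l 16734760) (l 16724224))) (a (b (l 16743744) (a (l 16747984) (l 16748904))) (l 16741064)))) (a (b (a (l 3) (b (a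 (l 3) (b (a (l 183240677031) (l 133311681575)) (l 3))) (l 3))) (l 3)) (b (a (b (a (b (l 77477137671) (a (l 176798232871) (l 117742438855))) (b (l 16747704) (l 16740896))) (a (l 3) (b (l 154249661431) (l 3)))) (b (l 16752248) (a (b (l 16744736) (l 145122864103)) (b (l 16750648) (l 16748688))))) (a (l 3) (b (a (l 3) (b (l 140291034679) (l 3))) (l 3)))))), by decide +kernel⟩

def k4_pp_012 : ∃ t, chk3 f_pp_012 t 2 3 1 = true :=
  ⟨(l 3), by decide +kernel⟩

def k5_pp_012 : ∃ t, chk3 f_pp_012 t 6 2 1 = true :=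
  ⟨(b (a (b (a (b (l 16606968) (l 16628912)) (b (l 16581208) (l 16601808))) (a (l 16685080) (l 16700432))) (b (a (b (l 16554960) (l 16576880)) (l 16543376)) (a (b (l 16597800) (l 16621368)) (b (l 16574624) (l 16596032))))) (a (b (a (a (b (l 16707816) (b (l 16724904) (l 16737520))) (b (l 16694576) (b (l 16714008) (l 16725888)))) (b (l 16674832) (a (l 16760856) (l 16694104)))) (a (b (a (b (l 16748880) (a (l 16754832) (l 16756528))) (b (l 16739520) (l 16752152))) (a (b (b (a (l 16752832) (l 16750960)) (a (l 139217302279) (l 16757248))) (b (a (l 3) (l 138680441431)) (l 3))) (b (a (l 16756160) (l 16760056)) (a (b (l 83919640327) (b (l 114521256007) (l 146196647927))) (b (l 16757352) (l 88751486039)))))) (b (a (b (l 16727152) (l 16741376)) (b (l 16714512) (l 16727368))) (a (b (l 16754728) (a (b (l 16760912) (l 16759592)) (l 16762016))) (b (l 16741544) (l 16754824)))))) (b (a (b (l 16645552) (l 16712824)) (b (l 16619136) (l 16643344))) (a (b (a (b (l 16698088)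 (l 16712000)) (l 16689928)) (a (b (l 16725392) (l 16739888)) (b (l 16710864) (l 16724680)))) (b (a (l 16675736) (l 16662360)) (a (b (l 16696104) (l 16710392)) (l 16689264))))))), by decide +kernel⟩

def k6_pp_012 : ∃ t, chk3 f_pp_012 t 12 6 1 = true :=
  ⟨(b (a (b (a (l 3) (b (a (l 3) (b (b (l 122574325831) (l 142975432231)) (l 3))) (l 3))) (l 3)) (b (a (b (a (b (a (l 16770352) (l 16766216)) (a (l 142438554615) (l 118279382583))) (b (l 16760616) (l 87677750759))) (a (l 3) (b (a (l 147807263159) (l 129553651511)) (l 3)))) (b (a (b (l 16760952) (l 16760488)) (l 16761544)) (a (b (a (l 16771440) (l 16766336)) (a (l 140291068343) (l 142975416039))) (b (l 16760200) (l 16789736))))) (a (l 3) (b (a (l 3) (b (a (l 145122909319) (a (l 125795574023) (l 93046453767))) (l 146733526743))) (l 3))))) (l 3)), by decide +kernel⟩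

def k7_pp_012 : ∃ t, chk3 f_pp_012 t 13 6 1 = true :=
  ⟨(b (a (a (b (b (l 16753576) (b (l 16761528) (l 16779544))) (b (a (b (a (l 16771296) (l 16766616)) (b (a (l 111836929303) (l 16774128)) (a (l 135996123767) (a (l 131701151863) (l 115595021047))))) (b (l 16761328) (a (l 16782400) (l 16767584)))) (a (b (a (l 3) (b (l 133311770039) (l 3))) (l 3)) (b (a (b (a (l 130090539847) (l 118279376679)) (l 130090545751)) (b (l 16775120) (a (l 127406186535) (l 121500603447)))) (a (l 3) (b (l 126332450759) (l 3))))))) (b (b (l 16739272) (l 16753304)) (b (a (l 16761064) (l 16762912)) (a (b (a (l 16783728) (l 16769184)) (a (b (a (l 125258704343) (l 122574346951)) (l 126869323271)) (b (l 16776704) (a (l 120963739831) (l 108078843191))))) (a (b (l 16765856) (l 16775064)) (l 16787864)))))) (b (a (b (l 16724392) (l 16739096)) (a (l 16741744) (l 16734864))) (a (b (l 16753640) (a (l 16787640) (l 16764488))) (a (l 16771184) (l 16763696))))) (a (b (a (l 3) (b (a (b (a (l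 3) (b (l 129016808695) (l 3))) (l 3)) (b (a (b (a (l 117742516679) (l 16781840)) (l 130627423399)) (b (l 16778648) (a (l 100562658839) (l 16782856)))) (a (l 3) (l 133311762711)))) (l 3))) (l 3)) (b (a (b (a (b (l 16791064) (a (b (l 89288373927) (l 135459266103)) (b (l 16780944) (l 82845925719)))) (b (l 16769008) (l 16798576))) (b (a (a (l 3) (l 137069864071)) (a (l 126869311799) (l 16775152))) (a (l 3) (a (l 3) (l 170355868151))))) (a (b (a (l 16769384) (l 16769928)) (b (a (l 16781360) (l 16777160)) (c (l 155860334375) (l 143512308711)))) (a (c (l 16793080) (l 16792872)) (l 16791224)))) (a (l 3) (b (a (a (l 3) (b (l 199883770663) (l 3))) (b (c (l 153712845063) (l 16802728)) (c (l 174113986535) (l 183240783207)))) (l 3)))))), by decide +kernel⟩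

def k8_pp_012 : ∃ t, chk3 f_pp_012 t 6 7 1 = true :=
  ⟨(l 3), by decide +kernel⟩

def k9_pp_012 : ∃ t, chk3 f_pp_012 t 7 2 1 = true :=
  ⟨(b (a (b (a (l 16525144) (l 16510856)) (a (b (l 16553632) (l 16574592)) (l 16567712))) (b (a (l 16499960) (l 16490968)) (a (l 16552840) (b (l 16511520) (l 16527272))))) (a (b (a (b (l 16596320) (l 16619352)) (b (l 16598136) (l 16641096))) (a (b (a (l 16649912) (l 16638520)) (a (l 16676224) (l 16664272))) (b (a (l 16628136) (l 16617752)) (a (b (l 16646712) (l 16658984)) (l 16661968))))) (b (a (b (l 16559496) (l 16622320)) (b (l 16544872) (l 16564616))) (a (b (a (l 16607456) (l 16598384)) (b (l 16619656) (l 16630456))) (b (a (l 16590784) (l 16584232)) (a (l 16612072) (l 16604496))))))), by decide +kernel⟩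

def k10_pp_012 : ∃ t, chk3 f_pp_012 t 7 6 1 = true :=
  ⟨(a (a (b (b (a (b (l 16696648) (l 16710768)) (l 16648872)) (a (c (l 16743176) (l 16741080)) (l 16727792))) (b (a (a (b (l 16757168) (l 16750144)) (b (l 16749008) (l 16762240))) (a (b (l 16740536) (l 16753224)) (l 16759712))) (a (b (b (a (c (l 16777240) (l 16777256)) (l 16770416)) (a (a (l 190756945479) (l 16781080)) (l 16771880))) (b (a (a (l 241222846599) (b (l 132774922663) (l 202568146279))) (c (l 109689471991) (l 94120216727))) (a (l 3) (a (l 236927868103) (b (l 145659812199) (l 204715618903)))))) (b (a (l 16765248) (l 16756824)) (a (a (b (l 16769896) (l 135996131751)) (l 16789048)) (l 16787568)))))) (b (b (a (b (l 16671216) (l 16683496)) (b (l 16658256) (l 16669960))) (a (b (l 16696112) (l 16708960)) (l 16651664))) (b (a (b (l 16721328) (l 16733056)) (b (l 16706904) (l 16718816))) (a (b (l 16744800) (a (l 16760464) (l 16752888))) (b (l 16730104) (l 16757592)))))) (b (a (b (a (b (l 16646512)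 (l 16657664)) (l 16646888)) (a (b (l 16669248) (l 16681208)) (b (l 16657816) (l 16648344)))) (b (a (l 16648176) (l 16644280)) (a (b (l 16647856) (l 16658936)) (b (l 16638376) (l 16648184))))) (a (b (a (b (l 16693192) (l 16704992)) (l 16652512)) (a (b (l 16716536) (l 16727944)) (b (l 16682336) (l 16715048)))) (b (a (b (l 16669952) (l 16680720)) (a (l 16646792) (l 16640400))) (a (b (l 16691096) (l 16701352)) (b (l 16677520) (l 16664992))))))), by decide +kernel⟩

def k11_pp_012 : ∃ t, chk3 f_pp_012 t 28 14 1 = true :=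
  ⟨(b (a (l 3) (b (a (b (a (l 228874794279) (a (l 206326221527) (l 193441313383))) (l 3)) (b (a (l 142438573175) (l 16768368)) (a (b (l 209010571879) (l 3)) (b (l 16773480) (l 204715601607))))) (l 3))) (l 3)), by decide +kernel⟩

def k12_pp_012 : ∃ t, chk3 f_pp_012 t 29 14 1 = true :=
  ⟨(b (a (b (a (a (b (l 16765176) (l 16770896)) (l 16765048)) (l 16764680)) (a (b (a (b (l 189146331847) (l 241759689511)) (b (l 16772256) (a (l 219211104279) (l 166597757815)))) (a (l 3) (b (l 236927850663) (l 3)))) (b (a (l 16770336) (l 16767320)) (a (b (a (b (l 173040208135) (l 226727298871)) (l 162302790535)) (a (l 3) (l 225116688439))) (b (l 16772352) (a (b (l 167134628183) (l 214916139143)) (l 158544694727))))))) (b (a (l 16757904) (l 16750792)) (a (a (b (l 16767728) (l 16781432)) (l 16768344)) (a (l 16765624) (l 16762264))))) (a (b (a (l 3) (b (a (l 3) (b (a (l 3) (b (c (l 206863076391) (l 211158042599)) (l 3))) (l 3))) (l 3))) (l 3)) (b (a (b (a (b (a (b (l 161229048839)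 (a (l 213842399127) (l 193441302567))) (l 16778536)) (a (l 3) (b (a (l 206863077847) (l 175187695479)) (l 220821725159)))) (b (l 16773480) (a (b (l 16777288) (a (a (l 206326208103) (l 193978176199)) (l 169818987127))) (l 16776680)))) (a (l 3) (b (a (b (c (l 212768662583) (l 216526758295)) (l 3)) (a (b (a (l 197736274311) (l 178945794439)) (l 3)) (b (l 160692184455) (l 205252469367)))) (l 3)))) (b (a (l 16782920) (l 16771448)) (a (b (a (a (b (l 16778584) (a (l 189683211543) (l 166060895127))) (l 147807284055)) (l 16777624)) (a (a (l 3) (b (a (l 210084308967) (l 192904438871)) (l 3))) (a (b (c (l 163376541927) (l 180019535463)) (l 218674245975)) (b (l 16780392) (c (l 187535731415) (l 191830698391)))))) (b (l 16775304) (a (b (l 16779192) (c (l 146733545159) (l 150491641175))) (l 16778680)))))) (a (l 3) (b (a (l 3) (b (a (b (a (l 215989892455) (a (l 187535732743) (l 157470965223))) (l 3)) (b (l 134922387015) (a (l 213305538999) (l 146733549559)))) (l 3)))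 (l 3)))))), by decide +kernel⟩

def k13_pp_012 : ∃ t, chk3 f_pp_012 t 14 15 1 = true :=
  ⟨(l 3), by decide +kernel⟩

def k14_pp_012 : ∃ t, chk3 f_pp_012 t 15 14 1 = true :=
  ⟨(a (b (a (b (l 16750816) (a (l 16757064) (l 16750232))) (b (l 16726944) (l 16749616))) (a (b (a (b (l 16767480) (a (l 16784896) (l 16772920))) (l 16763928)) (a (b (a (b (a (l 16786656) (l 16779856)) (a (b (a (l 212231798343) (l 133848647879)) (l 229411661031)) (a (b (l 16783512) (l 188609474183)) (l 16786464)))) (b (l 16767064) (l 16786816))) (a (b (a (l 3) (b (l 198273159847) (l 3))) (l 3)) (b (a (b (c (l 98415171655) (l 111836943367)) (l 198810029607)) (l 85530268359)) (a (l 3) (b (c (l 194515060951) (l 195588803159)) (l 3)))))) (b (l 16784288) (b (a (a (l 16776168) (l 16778840)) (l 16775232)) (a (b (a (c (l 87677750903) (l 204715597287)) (l 16781264)) (a (a (l 197199415079) (a (l 202568116791) (l 143512323927))) (l 16785520))) (l 16788760)))))) (b (a (a (l 16737016) (l 16753520))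 (l 16767768)) (a (a (b (l 16766960) (l 16773008)) (l 16786416)) (b (l 16755608) (l 16761640)))))) (a (b (b (l 16712000) (a (l 16726736) (l 16718240))) (b (a (l 16738000) (l 16729392)) (a (l 16760224) (l 16751520)))) (b (b (a (l 16699320) (l 16691472)) (a (b (l 16707288) (l 16712584)) (b (l 16699032) (l 16704448)))) (b (a (l 16720920) (l 16712648)) (a (a (l 16734584) (l 16730312)) (a (l 16726064) (l 16721864))))))), by decide +kernel⟩

def k15_pp_012 : ∃ t, chk3 f_pp_012 t 60 30 1 = true :=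
  ⟨(b (a (l 3) (b (a (b (a (l 3) (b (a (l 208473697015) (l 140827969319)) (l 3))) (l 3)) (b (a (b (l 16787232) (a (a (l 207936830151) (l 192904443207)) (l 127406194519))) (l 16785528)) (a (a (l 3) (b (l 214916152295) (l 3))) (a (b (c (l 186998862071) (l 195588796679)) (l 3)) (b (l 131701159735) (l 207936829943)))))) (l 3))) (l 3)), by decide +kernel⟩

def k16_pp_012 : ∃ t, chk3 f_pp_012 t 61 30 1 = true :=
  ⟨(b (b (a (a (b (l 16787072) (a (a (b (l 16780880) (a (l 190220086439) (l 157470963079))) (l 123648094007)) (l 16778624))) (l 16784728)) (l 16778264)) (a (a (b (a (a (l 3) (b (a (l 207399956679) (l 196125666135)) (l 3))) (a (b (c (l 146733544423) (l 179482665799)) (l 215989891687)) (b (l 16780496) (b (l 156934090903) (l 209547438903))))) (l 3)) (b (a (b (l 16778664) (c (l 136532995639) (a (l 145659800791) (l 16779640)))) (l 16777080)) (a (b (a (c (l 206863084599) (l 210621180855)) (b (l 154786605335) (l 200957502679))) (l 3)) (b (c (l 137069864855)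 (l 137069864695)) (a (c (l 198810019367) (b (l 198273147239) (l 3))) (b (l 149954765463) (a (l 202031243607) (l 172503344247)))))))) (a (b (l 16773856) (a (b (l 16777184) (c (l 16778976) (l 16781376))) (l 16775664))) (l 16782240)))) (a (l 3) (b (a (b (a (a (b (b (a (l 195588791911) (l 164987150679)) (l 209010566039)) (l 3)) (b (c (l 153712862823) (b (l 16779440) (l 183240759431))) (c (l 206863082807) (l 208473695319)))) (b (l 16778176) (c (a (b (l 160692183543) (l 201494371959)) (l 149417893687)) (a (b (l 179482662327) (l 203104984407)) (l 152102248167))))) (a (l 3) (a (l 3) (b (a (l 212768661975) (b (l 178408923335) (l 3))) (l 3))))) (b (a (l 16781912) (l 16774424)) (a (a (b (b (l 153175989255) (a (l 206863080199) (l 170892729895))) (l 3)) (b (l 144049183063) (c (l 196662532759) (b (l 191293822263) (l 3))))) (a (b (l 16777480) (a (b (l 16779072) (l 182167019047)) (l 149417892087))) (l 16779808))))) (a (l 3) (b (a (l 3) (b (c (a (l 209547436007) (l 179482662327))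 (a (l 211158048455) (b (l 174650822711) (l 204178724887)))) (l 3))) (l 3)))))), by decide +kernel⟩

def k17_pp_012 : ∃ t, chk3 f_pp_012 t 30 31 1 = true :=
  ⟨(l 3), by decide +kernel⟩

def k18_pp_012 : ∃ t, chk3 f_pp_012 t 31 15 1 = true :=
  ⟨(b (a (a (b (b (l 16758832) (l 16770304)) (b (a (b (l 16772032) (l 16779648)) (l 16769248)) (a (b (a (b (c (l 135459249383) (a (l 147807279559) (l 16777360))) (a (c (l 200957500183) (l 203104983511)) (b (l 148881020791) (l 192367563783)))) (c (l 16782064) (b (l 16775632) (l 16780032)))) (a (l 3) (a (b (b (l 186998854103) (l 3)) (l 3)) (b (c (l 144586054919) (l 168745242727)) (l 6))))) (b (l 16779240) (l 6))))) (b (b (l 16750072) (a (l 16758464) (l 16754096))) (b (a (l 16764848) (l 6)) (l 6)))) (a (b (b (l 16741400) (l 6)) (l 6)) (l 6))) (a (a (a (l 3) (l 6)) (l 6)) (l 6))), by decide +kernel⟩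

theorem s19_pp_012 : ∃ t, chk3 f_pp_012 t 30 30 1 = true := ex3_a k15_pp_012 k16_pp_012

theorem s20_pp_012 : ∃ t, chk3 f_pp_012 t 30 15 1 = true := ex3_b s19_pp_012 k17_pp_012

theorem s21_pp_012 : ∃ t, chk3 f_pp_012 t 15 15 1 = true := ex3_a s20_pp_012 k18_pp_012

theorem s22_pp_012 : ∃ t, chk3 f_pp_012 t 15 7 1 = true := ex3_b k14_pp_012 s21_pp_012

theorem s23_pp_012 : ∃ t, chk3 f_pp_012 t 14 14 1 = true := ex3_a k11_pp_012 k12_pp_012

theorem s24_pp_012 : ∃ t, chk3 f_pp_012 t 14 7 1 = true := ex3_b s23_pp_012 k13_pp_012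

theorem s25_pp_012 : ∃ t, chk3 f_pp_012 t 7 7 1 = true := ex3_a s24_pp_012 s22_pp_012

theorem s26_pp_012 : ∃ t, chk3 f_pp_012 t 7 3 1 = true := ex3_b k10_pp_012 s25_pp_012

theorem s27_pp_012 : ∃ t, chk3 f_pp_012 t 7 1 1 = true := ex3_b k9_pp_012 s26_pp_012

theorem s28_pp_012 : ∃ t, chk3 f_pp_012 t 6 6 1 = true := ex3_a k6_pp_012 k7_pp_012

theorem s29_pp_012 : ∃ t, chk3 f_pp_012 t 6 3 1 = true := ex3_b s28_pp_012 k8_pp_012

theorem s30_pp_012 : ∃ t, chk3 f_pp_012 t 6 1 1 = true := ex3_b k5_pp_012 s29_pp_012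

theorem s31_pp_012 : ∃ t, chk3 f_pp_012 t 3 1 1 = true := ex3_a s30_pp_012 s27_pp_012

theorem s32_pp_012 : ∃ t, chk3 f_pp_012 t 5 5 1 = true := ex3_a k2_pp_012 k3_pp_012

theorem s33_pp_012 : ∃ t, chk3 f_pp_012 t 5 2 1 = true := ex3_b k1_pp_012 s32_pp_012

theorem s34_pp_012 : ∃ t, chk3 f_pp_012 t 2 2 1 = true := ex3_a k0_pp_012 s33_pp_012

theorem s35_pp_012 : ∃ t, chk3 f_pp_012 t 2 1 1 = true := ex3_b s34_pp_012 k4_pp_012

theorem s36_pp_012 : ∃ t, chk3 f_pp_012 t 1 1 1 = true := ex3_a s35_pp_012 s31_pp_012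

theorem c_pp_012 : CertB 0 536870912 0 536870912 697932185 42949674 3 eng mog cd1q0 cd0q2 pd1 false true true .pnp 0 1 2
    ndB1q0 ndB0q2 pcB1 cut_pp_012 Ext.none :=
  certB2 (fam := false) (s1 := true) (s2 := true) (a := 0) (b := 1) (c := 2) (cn := .pnp) (n1 := ndB1q0) (n2 := ndB0q2) (pc := pcB1) (cut := cut_pp_012) (xt := Ext.none) (P1 := 0) (W1 := 536870912) (P2 := 0) (W2 := 536870912) (P3 := 697932185) (W3 := 42949674) (N0 := 3) (En := eng) (mo := mog) (C1 := cd1q0) (C2 := cd0q2) (C3 := pd1)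
    rfl (fun _ => rfl) s36_pp_012

noncomputable def cut_pp_022 : Cut := Cut.of [[⟨0, 0, 0, 67108864⟩, ⟨1, 1, 0, 67108864⟩, ⟨2, 1, 0, 67108864⟩]]

noncomputable def f_pp_022 : ℕ → ℕ → ℕ → ℕ → Bool := onCell 1073741824 536870912 0 536870912 697932185 42949674
    (rowB 3 eng mog cd1q0 cd0q2 pd2 2 false true true .pp 0 2 2 (qsf 0 536870912 0 536870912 2) ndB1q0 ndB0q2 pcB2 cut_pp_022 Ext.none)

def k0_pp_022 : ∃ t, chk3 f_pp_022 t 2 2 1 = true :=
  ⟨(a (b (a (b (a (l 16482520) (l 16481696)) (a (l 16503448) (l 16500696))) (b (a (l 16475192) (l 16508808)) (a (l 16492080) (a (l 16484408) (l 16476640))))) (b (b (a (a (l 16522920) (l 16518432)) (a (l 16507936) (l 16491352))) (a (a (l 16539272) (l 16533176)) (a (l 16519376) (l 16499584)))) (a (a (b (l 16579432) (l 16621968)) (b (l 16550272) (l 16563904))) (a (b (l 16529464) (c (l 16544152) (l 16557288))) (b (c (l 16512624) (l 16502088)) (c (b (l 16520144) (l 16523552)) (b (l 16497808) (l 16532048)))))))) (a (b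 (a (b (b (l 16455520) (l 16460088)) (c (l 118144623255) (l 134787577895))) (b (l 1) (l 1))) (a (b (b (l 53183088391) (a (l 16484248) (l 16473840))) (a (b (l 16417680) (b (l 235719182903) (l 1))) (l 1))) (l 1))) (l 1))), by decide +kernel⟩

def k1_pp_022 : ∃ t, chk3 f_pp_022 t 2 3 1 = true :=
  ⟨(a (a (b (b (a (a (b (l 16623528) (b (l 16617984) (l 16628464))) (b (l 16599248) (l 16619176))) (a (b (l 16586424) (l 16604288)) (b (l 16572984) (b (l 16584808) (l 16592264))))) (a (b (a (b (l 16638288) (l 16647504)) (l 16639272)) (a (b (l 16656368) (a (l 16666344) (l 16665080))) (b (l 16653064) (l 16662776)))) (b (a (l 16601616) (a (l 16608936) (b (l 16595576) (l 16603600)))) (a (b (l 16637592) (l 16647168)) (a (b (l 16622352) (l 16630784)) (b (l 16611904) (l 16619536))))))) (a (b (b (a (a (b (l 16676728) (l 16688128)) (b (l 16675640) (l 16687208))) (b (l 16673568) (l 16685368))) (l 6)) (l 6)) (a (b (b (b (l 16655576) (a (l 16668992) (l 16656608))) (l 6)) (l 6))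 (b (a (b (b (l 16637976) (l 16643928)) (l 6)) (b (b (l 16625880) (l 16630936)) (b (l 16634880) (l 1)))) (l 1))))) (b (b (a (b (a (b (l 16555904) (l 16562704)) (b (l 16542288) (l 16526848))) (a (b (l 16569128) (l 16596248)) (b (l 16552896) (l 16578608)))) (a (b (b (l 16465408) (l 16553448)) (b (l 16557072) (l 48888386039))) (b (b (c (l 16520616) (l 16506432)) (l 16516632)) (l 1)))) (a (b (a (b (l 16602688) (l 16609600)) (b (a (l 16567456) (l 16557696)) (a (l 16573200) (l 16562624)))) (a (b (a (l 16601200) (l 16590264)) (a (l 16608016) (l 16596224))) (b (a (l 16579088) (l 1)) (l 1)))) (b (a (b (l 32245390839) (l 1)) (l 1)) (l 1)))) (b (a (b (a (b (a (l 16613480) (l 16600784)) (l 23655583031)) (l 1)) (l 1)) (l 1)) (l 1)))) (b (l 1) (l 1))), by decide +kernel⟩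

def k2_pp_022 : ∃ t, chk3 f_pp_022 t 3 1 1 = true :=
  ⟨(l 1), by decide +kernel⟩

theorem s3_pp_022 : ∃ t, chk3 f_pp_022 t 2 1 1 = true := ex3_b k0_pp_022 k1_pp_022

theorem s4_pp_022 : ∃ t, chk3 f_pp_022 t 1 1 1 = true := ex3_a s3_pp_022 k2_pp_022

theorem c_pp_022 : CertB 0 536870912 0 536870912 697932185 42949674 3 eng mog cd1q0 cd0q2 pd2 false true true .pp 0 2 2
    ndB1q0 ndB0q2 pcB2 cut_pp_022 Ext.none :=
  certB2 (fam := false) (s1 := true) (s2 := true) (a := 0) (b := 2) (c := 2) (cn := .pp) (n1 := ndB1q0) (n2 := ndB0q2) (pc := pcB2) (cut := cut_pp_022) (xt := Ext.none) (P1 := 0) (W1 := 536870912) (P2 := 0) (W2 := 536870912) (P3 := 697932185) (W3 := 42949674) (N0 := 3) (En := eng) (mo := mog) (C1 := cd1q0) (C2 := cd0q2) (C3 := pd2)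
    rfl (fun _ => rfl) s4_pp_022

noncomputable def f_pp_101 : ℕ → ℕ → ℕ → ℕ → Bool := onCell 536870912 536870912 536870912 536870912 697932185 42949674
    (rowB 3 eng mog cd1q1 cd0q1 pd0 0 false true true .npn 1 0 1 (qsf 536870912 536870912 536870912 536870912 0) ndB1q1 ndB0q1 pcB0 Cut.none Ext.none)

def k0_pp_101 : ∃ t, chk3 f_pp_101 t 1 1 1 = true :=
  ⟨(l 3), by decide +kernel⟩

theorem c_pp_101 : CertB 536870912 536870912 536870912 536870912 697932185 42949674 3 eng mog cd1q1 cd0q1 pd0 false true true .npn 1 0 1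
    ndB1q1 ndB0q1 pcB0 Cut.none Ext.none :=
  certB0 (fam := false) (s1 := true) (s2 := true) (a := 1) (b := 0) (c := 1) (cn := .npn) (n1 := ndB1q1) (n2 := ndB0q1) (pc := pcB0) (cut := Cut.none) (xt := Ext.none) (P1 := 536870912) (W1 := 536870912) (P2 := 536870912) (W2 := 536870912) (P3 := 697932185) (W3 := 42949674) (N0 := 3) (En := eng) (mo := mog) (C1 := cd1q1) (C2 := cd0q1) (C3 := pd0)
    rfl k0_pp_101

noncomputable def f_pp_102 : ℕ → ℕ → ℕ → ℕ → Bool := onCell 0 536870912 0 536870912 697932185 42949674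
    (rowB 3 eng mog cd1q1 cd0q2 pd0 2 false true true .npp 1 0 2 (qsf 536870912 536870912 0 536870912 0) ndB1q1 ndB0q2 pcB0 Cut.none Ext.none)

def k0_pp_102 : ∃ t, chk3 f_pp_102 t 1 1 1 = true :=
  ⟨(a (b (l 3) (l 3)) (a (l 3) (l 3))), by decide +kernel⟩

theorem c_pp_102 : CertB 536870912 536870912 0 536870912 697932185 42949674 3 eng mog cd1q1 cd0q2 pd0 false true true .npp 1 0 2
    ndB1q1 ndB0q2 pcB0 Cut.none Ext.none :=
  certB2 (fam := false) (s1 := true) (s2 := true) (a := 1) (b := 0) (c := 2) (cn := .npp) (n1 := ndB1q1) (n2 := ndB0q2) (pc := pcB0) (cut := Cut.none) (xt := Ext.none) (P1 := 536870912) (W1 := 536870912) (P2 := 0) (W2 := 536870912) (P3 := 697932185) (W3 := 42949674) (N0 := 3) (En := eng) (mo := mog) (C1 := cd1q1) (C2 := cd0q2) (C3 := pd0)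
    rfl (fun _ => rfl) k0_pp_102

noncomputable def f_pp_112 : ℕ → ℕ → ℕ → ℕ → Bool := onCell 536870912 536870912 0 536870912 697932185 42949674
    (rowB 3 eng mog cd1q1 cd0q2 pd1 2 false true true .dn 1 1 2 (qsf 536870912 536870912 0 536870912 1) ndB1q1 ndB0q2 pcB1 Cut.none Ext.none)

def k0_pp_112 : ∃ t, chk3 f_pp_112 t 1 1 1 = true :=
  ⟨(a (b (a (b (a (b (a (b (a (l 3) (b (a (l 156397111431) (l 124184873255)) (l 3))) (l 3)) (b (a (b (l 16734576) (a (l 162302694199) (l 138680390695))) (b (l 16734864) (a (l 16735824) (l 16736928)))) (b (a (l 3) (a (l 168745146775) (b (l 16735904) (l 162839570535)))) (l 3)))) (l 3)) (b (b (a (a (l 16734784) (b (l 16727176) (l 16733760))) (a (l 16724088) (l 16715208))) (a (a (b (a (l 117205550887) (l 16738592)) (b (a (l 166597667383) (l 126869229367)) (l 174113856359))) (b (l 16738248) (a (l 116668677959) (l 16739568)))) (a (l 16736944) (a (l 16732264) (l 16728040))))) (a (b (b (a (l 3) (b (a (l 171429504759) (l 128479838343))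 (l 183240680199))) (l 3)) (l 3)) (b (b (a (a (b (l 16739208) (l 129016705943)) (l 16739592)) (l 16738600)) (a (a (l 178945687719) (b (l 128479830167) (l 188072496007))) (a (b (l 16738272) (b (l 16735480) (l 141901600119))) (l 16738400)))) (b (a (l 3) (a (l 188609355415) (b (b (l 16734032) (l 146733438279)) (l 196662421959)))) (l 3)))))) (l 3)) (a (a (b (b (b (l 16697688) (a (b (l 16717976) (l 16725160)) (l 16711320))) (b (a (l 16740704) (b (l 16722712) (l 16730208))) (a (a (b (b (l 16735960) (a (l 166060808983) (l 109152468535))) (b (l 197199277591) (l 3))) (b (l 16735824) (b (b (a (l 122574239943) (l 16731408)) (a (l 191830583463) (l 123111108871))) (b (l 196125545831) (l 3))))) (a (b (l 16735176) (b (l 16732456) (b (a (b (l 103783757815) (l 138143493991)) (l 16729464)) (a (l 193441192199) (b (l 102173143383) (l 163376424935)))))) (l 1092565755047))))) (b (a (l 3) (a (l 3) (l 1))) (l 3))) (b (b (l 1) (l 1)) (l 1))) (l 1))) (l 3)) (l 1)), by decide +kernel⟩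

theorem c_pp_112 : CertB 536870912 536870912 0 536870912 697932185 42949674 3 eng mog cd1q1 cd0q2 pd1 false true true .dn 1 1 2
    ndB1q1 ndB0q2 pcB1 Cut.none Ext.none :=
  certB2 (fam := false) (s1 := true) (s2 := true) (a := 1) (b := 1) (c := 2) (cn := .dn) (n1 := ndB1q1) (n2 := ndB0q2) (pc := pcB1) (cut := Cut.none) (xt := Ext.none) (P1 := 536870912) (W1 := 536870912) (P2 := 0) (W2 := 536870912) (P3 := 697932185) (W3 := 42949674) (N0 := 3) (En := eng) (mo := mog) (C1 := cd1q1) (C2 := cd0q2) (C3 := pd1)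
    rfl (fun _ => rfl) k0_pp_112

noncomputable def f_pp_202_a : ℕ → ℕ → ℕ → ℕ → Bool := onCell 0 536870912 0 536870912 697932185 42949674
    (rowB 3 eng mog cd1q2a cd0q2 pd0 0 false true true .pp 2 0 2 (qsf 0 536870912 0 536870912 0) ndB1q2a ndB0q2 pcB0 Cut.none Ext.none)

def k0_pp_202_a : ∃ t, chk3 f_pp_202_a t 1 1 1 = true :=
  ⟨(l 3), by decide +kernel⟩

theorem c_pp_202_a : CertB 0 536870912 0 536870912 697932185 42949674 3 eng mog cd1q2a cd0q2 pd0 false true true .pp 2 0 2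
    ndB1q2a ndB0q2 pcB0 Cut.none Ext.none :=
  certB0 (fam := false) (s1 := true) (s2 := true) (a := 2) (b := 0) (c := 2) (cn := .pp) (n1 := ndB1q2a) (n2 := ndB0q2) (pc := pcB0) (cut := Cut.none) (xt := Ext.none) (P1 := 0) (W1 := 536870912) (P2 := 0) (W2 := 536870912) (P3 := 697932185) (W3 := 42949674) (N0 := 3) (En := eng) (mo := mog) (C1 := cd1q2a) (C2 := cd0q2) (C3 := pd0)
    rfl k0_pp_202_a

noncomputable def f_pp_202_b : ℕ → ℕ → ℕ → ℕ → Bool := onCell 1239849684 370763052 0 536870912 697932185 42949674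
    (rowB 3 eng mog cd1q2b cd0q2 pd0 0 false true true .pp 2 0 2 (qsf 1239849684 370763052 0 536870912 0) ndB1q2b ndB0q2 pcB0 Cut.none Ext.none)

def k0_pp_202_b : ∃ t, chk3 f_pp_202_b t 1 1 1 = true :=
  ⟨(l 3), by decide +kernel⟩

theorem c_pp_202_b : CertB 1239849684 370763052 0 536870912 697932185 42949674 3 eng mog cd1q2b cd0q2 pd0 false true true .pp 2 0 2
    ndB1q2b ndB0q2 pcB0 Cut.none Ext.none :=
  certB0 (fam := false) (s1 := true) (s2 := true) (a := 2) (b := 0) (c := 2) (cn := .pp) (n1 := ndB1q2b) (n2 := ndB0q2) (pc := pcB0) (cut := Cut.none) (xt := Ext.none) (P1 := 1239849684) (W1 := 370763052) (P2 := 0) (W2 := 536870912) (P3 := 697932185) (W3 := 42949674) (N0 := 3) (En := eng) (mo := mog) (C1 := cd1q2b) (C2 := cd0q2) (C3 := pd0)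
    rfl k0_pp_202_b

noncomputable def f_pm_001 : ℕ → ℕ → ℕ → ℕ → Bool := onCell 0 536870912 536870912 536870912 697932185 42949674
    (rowB 3 eng mog cd1q0 cd0q1 pd0 0 false true false .up 0 0 1 (qsf 0 536870912 536870912 536870912 0) ndB1q0 ndB0q1 pcB0 Cut.none Ext.none)

def k0_pm_001 : ∃ t, chk3 f_pm_001 t 1 1 1 = true :=
  ⟨(a (b (l 4) (b (l 4) (l 2))) (b (b (l 4) (a (l 4) (b (l 4) (a (l 4) (b (l 4) (a (l 4) (b (l 4) (l 35668306487)))))))) (a (b (b (l 4) (a (b (l 4) (l 2)) (b (a (b (l 4) (a (l 4) (l 16686200))) (b (a (l 4) (l 16673200)) (a (l 16663608) (l 16639816)))) (a (b (a (l 2) (l 16655848)) (l 2)) (b (l 16641744) (l 16616664)))))) (b (a (l 2) (b (a (l 2) (b (l 16570696) (l 2))) (l 2))) (l 2))) (b (b (a (b (a (l 4) (l 4)) (a (b (l 4) (a (l 16687752) (l 16669488))) (b (a (l 16684480) (l 16666344)) (l 16660680)))) (b (a (b (a (l 4) (l 16654352)) (a (l 16673904) (l 16654632))) (b (l 16659216) (l 16617208))) (a (b (a (l 16645992) (l 16623112))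 (a (l 16604088) (l 16576560))) (b (a (l 16597424) (l 16585640)) (l 16573192))))) (a (b (a (b (l 16690904) (l 16609344)) (b (l 16596200) (l 16572080))) (b (a (l 16585104) (l 16550152)) (a (l 16559744) (l 16525968)))) (b (a (b (l 16559808) (l 16541456)) (b (l 16536112) (l 16522000))) (a (b (l 16519904) (l 16496264)) (b (l 16502952) (l 16478776)))))) (b (a (b (a (b (l 16534592) (l 16531304)) (l 16571096)) (a (b (l 16489448) (l 2)) (b (l 16454592) (l 16437360)))) (b (a (l 16457472) (l 16479456)) (a (b (l 16423016) (l 16403168)) (b (l 16399872) (l 16378632))))) (a (b (a (l 2) (l 89220784087)) (l 2)) (b (b (l 16434904) (l 16460272)) (b (a (l 16354272) (l 16328600)) (l 16432280))))))))), by decide +kernel⟩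

theorem c_pm_001 : CertB 0 536870912 536870912 536870912 697932185 42949674 3 eng mog cd1q0 cd0q1 pd0 false true false .up 0 0 1
    ndB1q0 ndB0q1 pcB0 Cut.none Ext.none :=
  certB0 (fam := false) (s1 := true) (s2 := false) (a := 0) (b := 0) (c := 1) (cn := .up) (n1 := ndB1q0) (n2 := ndB0q1) (pc := pcB0) (cut := Cut.none) (xt := Ext.none) (P1 := 0) (W1 := 536870912) (P2 := 536870912) (W2 := 536870912) (P3 := 697932185) (W3 := 42949674) (N0 := 3) (En := eng) (mo := mog) (C1 := cd1q0) (C2 := cd0q1) (C3 := pd0)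
    rfl k0_pm_001

noncomputable def cut_pm_011 : Cut := Cut.of [[⟨0, 0, 0, 67108864⟩, ⟨1, 1, 0, 67108864⟩, ⟨2, 1, 0, 67108864⟩]]

noncomputable def f_pm_011 : ℕ → ℕ → ℕ → ℕ → Bool := onCell 0 536870912 536870912 536870912 697932185 42949674
    (rowB 3 eng mog cd1q0 cd0q1 pd1 0 false true false .pnn 0 1 1 (qsf 0 536870912 536870912 536870912 1) ndB1q0 ndB0q1 pcB1 cut_pm_011 Ext.none)

def k0_pm_011 : ∃ t, chk3 f_pm_011 t 1 2 1 = true :=
  ⟨(a (l 4) (a (l 4) (l 1))), by decide +kernel⟩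

def k1_pm_011 : ∃ t, chk3 f_pm_011 t 2 6 1 = true :=
  ⟨(l 4), by decide +kernel⟩

def k2_pm_011 : ∃ t, chk3 f_pm_011 t 4 7 1 = true :=
  ⟨(b (l 4) (a (b (l 4) (a (b (l 4) (l 6)) (b (b (l 4) (a (a (l 4) (b (l 4) (b (l 4) (a (l 6) (l 16762192))))) (a (b (a (l 4) (l 16763688)) (a (l 16760176) (l 16756352))) (b (a (l 16759344) (l 16755352)) (l 16750920))))) (a (b (a (l 6) (b (a (l 6) (l 16757584)) (l 6))) (l 6)) (b (b (a (l 16750672) (l 16740824)) (a (l 16740352) (b (l 16733176) (l 16727928)))) (b (b (a (l 16753552) (l 16723120)) (l 16722696)) (b (l 16717608) (l 16712440)))))))) (b (a (b (l 4) (a (l 4) (b (l 4) (a (b (l 4) (l 16755968)) (b (l 16755632) (l 16747856)))))) (b (a (l 4) (b (l 4) (b (l 4) (l 16771624)))) (a (b (b (l 4) (l 16766088)) (b (l 16763736) (l 16734120))) (b (c (l 16755256) (l 16754976)) (l 16720456))))) (a (b (a (b (a (b (l 4) (l 16767288)) (b (l 16756336) (l 16749104))) (a (l 16757688) (l 16735944))) (b (a (l 16755272) (l 16734856))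 (l 16742136))) (b (b (a (l 16726144) (a (l 16711512) (l 16701936))) (a (a (b (l 16723464) (l 16718488)) (l 16711496)) (l 16718536))) (b (a (l 16706296) (l 16687672)) (a (l 16696264) (l 16677888))))) (b (b (a (l 16720664) (l 16704360)) (a (a (l 16706656) (l 16698464)) (l 16686824))) (b (a (b (a (l 16692720) (l 16684984)) (l 16679520)) (l 16669736)) (a (l 16686280) (l 16651376)))))))), by decide +kernel⟩

def k3_pm_011 : ∃ t, chk3 f_pm_011 t 5 7 1 = true :=
  ⟨(b (a (b (l 4) (a (b (l 4) (b (l 4) (a (l 4) (l 16758600)))) (b (l 4) (b (a (l 147874227655) (l 16717432)) (a (l 16720760) (l 16681912)))))) (b (a (l 4) (b (l 4) (a (l 16750472) (l 16712808)))) (a (b (a (b (l 4) (l 16714504)) (l 16734912)) (a (l 16692440) (l 16674128))) (b (a (l 16682424) (l 16661168)) (l 16664320))))) (a (b (a (b (b (a (b (l 4) (l 16740544)) (l 16724704)) (a (l 16739672) (l 16710712))) (a (b (l 16715096) (l 16701536)) (l 16711552))) (b (a (l 16699880) (l 16682536)) (a (l 16673416)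 (l 16655112)))) (b (b (a (a (l 16688208) (l 16670280)) (l 16642400)) (a (a (l 16671720) (l 16655968)) (l 16628648))) (a (b (l 16647424) (l 16630472)) (a (l 16636576) (l 16598184))))) (b (b (a (l 16697320) (l 16616064)) (a (a (l 16635768) (l 16616576)) (l 16589320))) (b (a (l 16640872) (l 16564120)) (a (l 16571840) (l 16539912)))))), by decide +kernel⟩

def k4_pm_011 : ∃ t, chk3 f_pm_011 t 3 3 1 = true :=
  ⟨(b (a (b (l 4) (a (b (l 4) (a (b (l 4) (b (l 4) (l 16758080))) (b (l 15804097623) (b (l 16688384) (l 16672496))))) (b (a (b (l 4) (l 16759928)) (b (l 1) (l 16673664))) (a (b (l 16688584) (l 16637168)) (b (l 16622504) (l 16591976)))))) (b (l 1) (a (b (l 1) (b (l 1) (a (l 16551952) (l 1)))) (l 1)))) (a (b (a (a (b (b (a (l 16723512) (l 16680632)) (l 16701000)) (b (l 16629072) (l 16602000))) (b (b (l 16647896) (l 16615520)) (b (l 16586256) (l 16560704)))) (b (b (a (l 16604560) (l 16560304)) (l 16614192)) (b (l 16608816) (l 16590176)))) (b (a (b (a (l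 16576696) (l 16537072)) (a (l 16552576) (l 16514888))) (b (l 16563144) (l 16459264))) (a (b (l 16554104) (l 16512776)) (b (l 16441208) (l 16445784))))) (b (a (b (a (l 16551016) (l 16515648)) (b (l 16472792) (l 16471336))) (b (l 1) (a (l 16474736) (l 1)))) (a (b (a (l 16415712) (l 16383224)) (b (l 16375008) (l 16360808))) (b (l 16336848) (l 16413424)))))), by decide +kernel⟩

theorem s5_pm_011 : ∃ t, chk3 f_pm_011 t 2 7 1 = true := ex3_a k2_pm_011 k3_pm_011

theorem s6_pm_011 : ∃ t, chk3 f_pm_011 t 2 3 1 = true := ex3_b k1_pm_011 s5_pm_011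

theorem s7_pm_011 : ∃ t, chk3 f_pm_011 t 1 3 1 = true := ex3_a s6_pm_011 k4_pm_011

theorem s8_pm_011 : ∃ t, chk3 f_pm_011 t 1 1 1 = true := ex3_b k0_pm_011 s7_pm_011

theorem c_pm_011 : CertB 0 536870912 536870912 536870912 697932185 42949674 3 eng mog cd1q0 cd0q1 pd1 false true false .pnn 0 1 1
    ndB1q0 ndB0q1 pcB1 cut_pm_011 Ext.none :=
  certB0 (fam := false) (s1 := true) (s2 := false) (a := 0) (b := 1) (c := 1) (cn := .pnn) (n1 := ndB1q0) (n2 := ndB0q1) (pc := pcB1) (cut := cut_pm_011) (xt := Ext.none) (P1 := 0) (W1 := 536870912) (P2 := 536870912) (W2 := 536870912) (P3 := 697932185) (W3 := 42949674) (N0 := 3) (En := eng) (mo := mog) (C1 := cd1q0) (C2 := cd0q1) (C3 := pd1)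
    rfl s8_pm_011

noncomputable def cut_pm_012 : Cut := Cut.of [[⟨0, 0, 0, 53687091⟩, ⟨1, 1, 0, 53687091⟩, ⟨2, 1, 0, 53687091⟩]]

noncomputable def f_pm_012 : ℕ → ℕ → ℕ → ℕ → Bool := onCell 536870912 536870912 0 536870912 697932185 42949674
    (rowB 3 eng mog cd1q0 cd0q2 pd1 2 false true false .pnp 0 1 2 (qsf 0 536870912 0 536870912 1) ndB1q0 ndB0q2 pcB1 cut_pm_012 Ext.none)

def k0_pm_012 : ∃ t, chk3 f_pm_012 t 2 1 1 = true :=
  ⟨(b (a (b (l 2) (b (l 2) (a (l 2) (b (l 2) (l 16553920))))) (b (a (b (b (l 16673672) (l 16672696)) (a (l 16632952) (l 16608088))) (b (a (l 16626832) (l 16602904)) (l 16573224))) (b (a (l 16659376) (l 16534520)) (a (b (l 16545424) (l 16523448)) (b (l 16509144) (l 16493984)))))) (b (a (a (l 2) (a (b (l 2) (l 16437992)) (b (l 16525592) (l 16440240)))) (b (a (b (l 16499608) (l 16475568)) (b (l 16475776) (l 16460160))) (a (b (l 16453008) (l 16430816)) (a (l 16441736) (l 16441808))))) (a (b (a (l 16369984) (b (l 16393480) (l 16372272)))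 (a (l 16385016) (b (l 16357424) (l 16351840)))) (b (a (b (l 16414616) (l 16406312)) (b (l 16433088) (l 16542280))) (a (b (l 16404712) (l 16411216)) (b (l 16449024) (l 16490784))))))), by decide +kernel⟩

def k1_pm_012 : ∃ t, chk3 f_pm_012 t 3 2 1 = true :=
  ⟨(a (b (a (b (l 16584336) (l 16567832)) (b (a (l 16525744) (l 16507112)) (a (l 16491616) (l 16478120)))) (a (b (a (l 16503680) (l 16482552)) (b (a (l 16483272) (l 16465688)) (l 16462392))) (b (a (b (l 16470360) (l 16458968)) (l 16456792)) (a (b (l 16449224) (l 16441448)) (b (l 16444112) (l 16438888)))))) (b (a (b (a (l 16493080) (l 16482848)) (a (l 16469624) (l 16464728))) (b (a (l 16475792) (l 16470392)) (a (l 16461280) (l 16500488)))) (a (b (a (l 16495736) (b (l 16455920) (l 16447152))) (a (b (l 16442280) (l 16439656)) (b (l 16441216) (l 16440360)))) (b (a (l 16447576) (b (l 16446520) (l 16439080))) (a (b (l 16437968) (l 16439048)) (b (a (l 16435744) (l 16434672)) (a (l 16438648) (l 16438792)))))))),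 by decide +kernel⟩

def k2_pm_012 : ∃ t, chk3 f_pm_012 t 3 3 1 = true :=
  ⟨(b (a (a (b (b (l 16472976) (l 16445056)) (b (l 16442424) (l 16465328))) (b (a (b (l 16437040) (l 16437064)) (b (l 16437944) (l 16442112))) (b (a (l 16442352) (l 16452192)) (a (l 16453568) (l 16468736))))) (a (b (a (b (l 16442256) (l 16450112)) (b (l 16445400) (l 16456216))) (b (a (l 16463800) (l 16473736)) (a (l 16484320) (l 16499456)))) (b (a (b (a (l 16446800) (l 16448120)) (l 16462448)) (b (a (l 16449776) (l 16451768)) (a (l 16468000) (b (l 16466352) (l 16478016))))) (a (b (a (l 16481824) (l 16487672)) (a (l 16511752) (l 16520424))) (b (a (l 16493888) (b (l 16491576) (l 16507200))) (a (l 16528472) (l 16555072))))))) (a (a (b (b (l 16516040) (a (l 16461840) (l 16479616))) (b (l 16496336) (a (l 16515840) (l 16546632)))) (a (b (b (l 16471952) (l 16540688)) (b (l 16533184) (l 16576376))) (b (b (l 16491704) (l 16522400)) (b (l 16560968) (l 16605976))))) (b (a (b (a (l 16511440)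 (b (l 16523376) (l 16541672))) (a (l 16546848) (l 16572720))) (a (b (b (l 16544064) (a (l 16559200) (l 16570144))) (a (l 16592032) (l 16602456))) (b (a (b (l 16557608) (l 16578112)) (b (l 16563688) (l 16585192))) (a (b (l 16599408) (l 16622968)) (b (l 16607416) (l 16621456)))))) (a (b (a (l 16590816) (l 16657816)) (a (b (l 16623288) (l 16629952)) (b (l 16671120) (a (l 16662272) (l 16700912))))) (b (a (b (l 16633360) (l 16680792)) (a (b (l 16627728) (l 16676608)) (b (a (l 16656168) (l 6)) (l 6)))) (a (b (a (l 16674904) (l 16692256)) (a (b (l 16692088) (l 16703920)) (b (l 16710200) (a (l 16717864) (l 6))))) (b (a (a (l 16703784) (l 6)) (l 6)) (l 6)))))))), by decide +kernel⟩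

theorem s3_pm_012 : ∃ t, chk3 f_pm_012 t 3 1 1 = true := ex3_b k1_pm_012 k2_pm_012

theorem s4_pm_012 : ∃ t, chk3 f_pm_012 t 1 1 1 = true := ex3_a k0_pm_012 s3_pm_012

theorem c_pm_012 : CertB 0 536870912 0 536870912 697932185 42949674 3 eng mog cd1q0 cd0q2 pd1 false true false .pnp 0 1 2
    ndB1q0 ndB0q2 pcB1 cut_pm_012 Ext.none :=
  certB2 (fam := false) (s1 := true) (s2 := false) (a := 0) (b := 1) (c := 2) (cn := .pnp) (n1 := ndB1q0) (n2 := ndB0q2) (pc := pcB1) (cut := cut_pm_012) (xt := Ext.none) (P1 := 0) (W1 := 536870912) (P2 := 0) (W2 := 536870912) (P3 := 697932185) (W3 := 42949674) (N0 := 3) (En := eng) (mo := mog) (C1 := cd1q0) (C2 := cd0q2) (C3 := pd1)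
    rfl (fun _ => rfl) s4_pm_012

noncomputable def cut_pm_022 : Cut := Cut.of [[⟨0, 0, 0, 67108864⟩, ⟨1, 1, 0, 67108864⟩, ⟨2, 1, 0, 67108864⟩]]

noncomputable def f_pm_022 : ℕ → ℕ → ℕ → ℕ → Bool := onCell 0 536870912 0 536870912 697932185 42949674
    (rowB 3 eng mog cd1q0 cd0q2 pd2 0 false true false .pp 0 2 2 (qsf 0 536870912 0 536870912 2) ndB1q0 ndB0q2 pcB2 cut_pm_022 Ext.none)

def k0_pm_022 : ∃ t, chk3 f_pm_022 t 2 2 1 = true :=
  ⟨(a (b (a (b (b (a (l 16453336) (l 16460296)) (a (b (l 16452976) (l 16453816)) (l 16458928))) (a (l 16459368) (l 16460416))) (b (a (l 16466272) (l 16470736)) (a (l 16463680) (l 16465976)))) (a (b (a (b (l 16470888) (l 16481216)) (b (l 16465744) (l 16471744))) (b (a (b (l 16489488) (a (l 16499584) (l 16492136))) (b (l 16476672) (l 16480792))) (a (a (b (l 16508264) (l 16518824)) (b (l 16499688) (l 16509104))) (b (l 16507536) (a (l 16499200) (l 16489248)))))) (b (a (b (l 16461576) (l 16462896)) (b (l 16456824) (l 16452912)))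 (a (b (b (l 16464232) (l 16465904)) (b (l 16469216) (l 16495272))) (b (b (l 16450224) (l 16449136)) (a (b (l 16455736) (l 16458704)) (b (l 16443416) (l 16444744)))))))) (a (a (b (b (l 16469696) (l 16473736)) (a (b (l 68215575543) (b (l 16434120) (l 186863977783))) (b (l 903586729463) (l 1)))) (b (b (l 1) (l 1)) (l 1))) (l 1))), by decide +kernel⟩

def k1_pm_022 : ∃ t, chk3 f_pm_022 t 2 6 1 = true :=
  ⟨(a (a (b (a (b (b (a (c (l 16530304) (l 16531208)) (a (l 16522568) (l 16517056))) (a (a (l 16552744) (l 16540360)) (l 16531272))) (b (a (a (a (b (l 16548000) (l 16552568)) (l 16551472)) (l 16552960)) (l 16542960)) (a (a (a (b (l 16557376) (l 16562296)) (l 16560992)) (l 16562504)) (l 16555040)))) (b (a (b (l 16508712) (l 16518952)) (b (l 16497520) (l 16506480))) (a (b (l 16529392) (l 16561152)) (b (l 16515600) (l 16525016))))) (a (b (a (a (b (a (b (l 16567224) (l 16572184)) (b (l 16568336) (l 16573264))) (a (b (l 16577184) (l 16582264)) (b (l 16578240) (l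 16583288)))) (b (a (l 16571808) (l 16572664)) (a (l 16581696) (l 16582496)))) (b (a (l 16572112) (l 16564112)) (a (l 16583488) (l 16578024)))) (a (b (a (a (b (l 16587432) (l 16592824)) (l 16591104)) (b (l 16589680) (l 16594992))) (a (a (b (l 16598672) (l 16605000)) (l 16602720)) (a (l 16603496) (l 16604160)))) (b (a (l 16593576) (l 16592888)) (a (l 16604952) (l 16605608))))) (b (a (b (l 16572880) (l 16564760)) (b (l 16535312) (l 16546672))) (a (b (l 16578504) (l 16592216)) (b (l 16558856) (l 16570912)))))) (b (b (a (b (a (l 16486256) (l 16474936)) (a (l 16493864) (l 16481112))) (a (b (l 16462792) (l 16467424)) (b (l 16447120) (l 16449976)))) (a (a (b (l 16501584) (l 16509552)) (b (l 16487352) (l 16493784))) (a (b (l 16472056) (l 16476808)) (l 1)))) (b (a (b (a (l 16518328) (l 16500952)) (a (l 16528104) (l 16509032))) (b (a (l 16482224) (l 1)) (l 1))) (a (a (b (l 16538616) (l 16548896)) (b (l 16517752) (l 1))) (l 1))))) (l 1)), by decide +kernel⟩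

def k2_pm_022 : ∃ t, chk3 f_pm_022 t 2 7 1 = true :=
  ⟨(a (a (b (b (b (a (a (a (a (b (l 16611808) (l 16619104)) (l 16616272)) (l 16622544)) (a (l 16618264) (l 16618784))) (a (l 16605248) (l 16582192))) (a (b (a (a (a (l 16626880) (l 16627664)) (l 16628616)) (l 16629768)) (l 6)) (a (l 16617616) (l 16613664)))) (a (l 6) (a (l 6) (a (l 6) (a (l 6) (l 1)))))) (a (l 6) (a (l 6) (l 1)))) (b (a (b (a (b (l 16558304) (l 16566808)) (l 1)) (l 1)) (l 1)) (l 1))) (l 1)), by decide +kernel⟩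

def k3_pm_022 : ∃ t, chk3 f_pm_022 t 3 1 1 = true :=
  ⟨(l 1), by decide +kernel⟩

theorem s4_pm_022 : ∃ t, chk3 f_pm_022 t 2 3 1 = true := ex3_b k1_pm_022 k2_pm_022

theorem s5_pm_022 : ∃ t, chk3 f_pm_022 t 2 1 1 = true := ex3_b k0_pm_022 s4_pm_022

theorem s6_pm_022 : ∃ t, chk3 f_pm_022 t 1 1 1 = true := ex3_a s5_pm_022 k3_pm_022

theorem c_pm_022 : CertB 0 536870912 0 536870912 697932185 42949674 3 eng mog cd1q0 cd0q2 pd2 false true false .pp 0 2 2
    ndB1q0 ndB0q2 pcB2 cut_pm_022 Ext.none :=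
  certB0 (fam := false) (s1 := true) (s2 := false) (a := 0) (b := 2) (c := 2) (cn := .pp) (n1 := ndB1q0) (n2 := ndB0q2) (pc := pcB2) (cut := cut_pm_022) (xt := Ext.none) (P1 := 0) (W1 := 536870912) (P2 := 0) (W2 := 536870912) (P3 := 697932185) (W3 := 42949674) (N0 := 3) (En := eng) (mo := mog) (C1 := cd1q0) (C2 := cd0q2) (C3 := pd2)
    rfl s6_pm_022

noncomputable def f_pm_101 : ℕ → ℕ → ℕ → ℕ → Bool := onCell 0 536870912 536870912 536870912 697932185 42949674
    (rowB 3 eng mog cd1q1 cd0q1 pd0 2 false true false .npn 1 0 1 (qsf 536870912 536870912 536870912 536870912 0) ndB1q1 ndB0q1 pcB0 Cut.none Ext.none)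

def k0_pm_101 : ∃ t, chk3 f_pm_101 t 2 2 1 = true :=
  ⟨(b (l 4) (b (a (a (a (b (b (l 30299638535) (l 16669832)) (l 16679024)) (b (b (l 4) (l 16771736)) (b (l 16669312) (l 16659816)))) (b (l 4) (a (b (l 16748296) (l 16666496)) (b (l 4) (l 16743288))))) (l 4)) (a (a (b (a (l 16660584) (l 16658280)) (a (l 16678400) (l 16671720))) (b (a (l 16698768) (b (l 16662008) (l 16654856))) (a (l 16664656) (l 16657544)))) (a (a (b (b (l 16736056) (l 16655912)) (b (l 16650272) (l 16652144))) (b (b (l 4) (a (l 16660504) (l 16666152))) (b (l 16730840) (l 16641808)))) (a (b (a (l 62511897159) (l 4)) (b (a (l 16648528) (l 16652864)) (l 16633696))) (b (l 4) (b (a (l 16658776) (l 4)) (a (l 16633464) (l 16636608))))))))), by decide +kernel⟩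

def k1_pm_101 : ∃ t, chk3 f_pm_101 t 2 6 1 = true :=
  ⟨(a (b (a (a (b (l 16710208) (l 16783000)) (b (l 16700384) (l 16729960))) (a (b (l 16689840) (l 16717616)) (b (l 16678632) (l 16704584)))) (a (b (a (b (l 16755736) (l 16764136)) (l 16796272)) (b (a (b (a (l 16770088) (l 16772704)) (l 16766976)) (b (l 16770696) (a (l 16771880) (l 16775496)))) (a (l 16761912) (l 16769560)))) (b (a (l 16742032) (l 16728712)) (b (a (b (l 16760432) (l 16771376)) (l 16751832)) (a (a (l 16773144) (l 16767536)) (b (a (l 16765536) (l 16762528)) (l 16765200))))))) (b (a (b (a (l 16666456) (b (l 16643920) (l 16650976))) (a (l 16690400) (b (l 16659496) (l 16667440)))) (b (a (l 16604360) (b (l 16616600) (l 16605336))) (a (l 16623808) (l 16591512)))) (a (b (a (l 16714616) (l 16682136)) (a (b (l 16738472) (b (l 16753632) (a (l 16757688) (l 16754872)))) (b (l 16702696) (a (b (l 16732904) (l 16721728)) (l 16701928))))) (a (b (l 16626936) (a (l 16637312) (l 16624576))) (b (l 16578040)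 (l 16576656)))))), by decide +kernel⟩

def k2_pm_101 : ∃ t, chk3 f_pm_101 t 4 7 1 = true :=
  ⟨(b (b (a (a (b (l 16752440) (l 16744280)) (b (l 16760336) (l 16752368))) (a (b (l 16767288) (l 16761096)) (b (l 16764872) (l 16827248)))) (a (a (b (l 16739896) (l 16739768)) (b (l 16748264) (l 16748520))) (b (a (l 16756872) (a (l 16763840) (l 16766032))) (a (l 16756976) (l 16808144))))) (a (b (b (a (l 16742304) (l 16751464)) (a (b (l 16781424) (l 16731760)) (b (l 16751392) (l 16743880)))) (a (b (l 16718848) (l 16745064)) (b (l 16731200) (l 16715984)))) (a (b (b (l 16759976) (b (l 16804728) (l 16755600))) (b (l 16743528) (l 16728976))) (b (b (l 16768848) (b (a (l 16770720) (l 16775544)) (l 16767016))) (b (l 16755504) (l 16741832)))))), by decide +kernel⟩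

def k3_pm_101 : ∃ t, chk3 f_pm_101 t 5 7 1 = true :=
  ⟨(b (a (a (b (b (a (l 16759552) (l 16755936)) (a (l 16759936) (l 16755784))) (a (b (l 16763960) (l 16770736)) (b (l 16759272) (l 16767024)))) (b (a (b (l 16741632) (l 16759768)) (b (l 16682680) (l 16703760))) (a (b (l 16781528) (a (l 16752864) (l 16736184))) (a (l 16736976) (l 16697992))))) (b (b (a (b (l 16652240) (l 16651432)) (b (l 16580304) (l 16556464))) (a (b (l 16649664) (l 16648800)) (l 16554808))) (b (a (c (l 16658448) (l 16641432)) (c (l 16586792) (l 16561856))) (a (a (l 16672992) (l 16635328)) (a (l 16596656) (l 16556984)))))) (a (b (a (a (b (l 16775960) (b (l 16779832) (l 16775008))) (b (a (l 16778440) (l 16774488)) (b (l 16781672) (a (l 16779240) (l 16777736))))) (b (a (c (l 16755528) (l 16750272)) (l 16717696)) (a (b (l 16759728) (a (l 16766960) (l 16753320))) (b (l 16725256) (l 16728448))))) (a (a (l 16800160) (b (l 16769128) (l 16756528))) (b (a (l 16755032) (l 16728920)) (a (l 16746168)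 (l 16724848))))) (b (b (a (a (l 16681024) (l 16642888)) (a (l 16603360) (l 16562488))) (a (b (l 16669696) (a (l 16714152) (l 16697824))) (b (l 16589512) (a (l 16637384) (l 16574664))))) (a (b (b (l 16676704) (l 16678464)) (b (l 16680552) (l 16702952))) (b (b (l 16597632) (l 16600304)) (b (l 16603552) (l 16607184))))))), by decide +kernel⟩

def k4_pm_101 : ∃ t, chk3 f_pm_101 t 6 2 1 = true :=
  ⟨(b (l 1) (a (b (l 1) (b (l 1) (a (b (l 1) (l 197601960471)) (l 1)))) (l 1))), by decide +kernel⟩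

def k5_pm_101 : ∃ t, chk3 f_pm_101 t 6 3 1 = true :=
  ⟨(b (b (a (b (a (b (l 210486677991) (l 16594016)) (b (l 1) (l 131029938167))) (a (b (l 16575544) (l 16557776)) (b (l 154115053319) (l 16534024)))) (b (l 1) (a (b (l 1) (l 16555496)) (l 1)))) (a (b (a (l 16535600) (l 16519392)) (a (l 16517472) (b (l 16471304) (l 16455984)))) (b (a (l 16505424) (a (l 16522648) (l 1))) (a (l 16476152) (b (l 16469136) (l 16452480)))))) (a (a (a (b (b (b (l 16527928) (l 16520208)) (a (l 16526104) (l 16506112))) (b (b (l 16520288) (l 16591816)) (b (l 16534048) (l 16541144)))) (b (b (b (l 16491904) (l 16481272)) (l 16454976)) (b (b (l 16476848) (l 16482392)) (b (l 16486576) (l 16495072))))) (b (b (b (l 16441528) (a (a (l 16453584) (l 16436656)) (b (l 16415928) (l 16414744)))) (a (a (l 16445376) (a (l 16412336) (l 16412736))) (a (l 16433400) (a (l 16431200) (l 16428400))))) (a (b (a (c (l 16465472) (l 16424080)) (a (l 16414120) (l 16427888))) (b (a (l 16450168) (l 16451552))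 (a (l 16458800) (c (l 16475152) (l 16433656))))) (b (a (a (l 16462328) (l 16474744)) (b (l 16470552) (l 16506144))) (a (a (l 16476136) (l 16491328)) (a (l 16505728) (a (l 16515352) (l 16507784)))))))) (a (b (b (b (l 16429368) (a (a (l 16407288) (l 16411536)) (l 16418816))) (a (b (l 16406568) (l 16412856)) (l 16432224))) (b (a (a (l 16456840) (l 16414472)) (b (l 16368784) (l 16358824))) (a (b (a (l 16485080) (l 16428384)) (l 16448680)) (b (a (l 16376544) (l 16333048)) (l 16362272))))) (b (b (b (l 16433848) (l 16458936)) (a (a (l 16384696) (l 16384672)) (b (l 16390112) (l 16375944)))) (b (a (a (l 16348720) (l 16336096)) (a (l 16354128) (l 16363696))) (a (a (b (l 16298400) (l 16314280)) (l 16315648)) (b (a (l 16340936) (l 16358008)) (l 16349152)))))))), by decide +kernel⟩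

def k6_pm_101 : ∃ t, chk3 f_pm_101 t 7 1 1 = true :=
  ⟨(b (l 1) (b (b (l 1) (a (b (l 1) (a (l 121365836743) (l 1))) (l 1))) (b (a (b (a (l 16408984) (l 16408864)) (b (a (l 16374992) (l 16371448)) (l 16415664))) (b (l 1) (a (b (l 1) (l 16356080)) (l 1)))) (b (a (a (l 16342000) (l 16324208)) (a (l 16345904) (l 16338792))) (a (b (a (l 16330312) (l 16304352)) (l 16325408)) (a (a (l 16289376) (l 16290064)) (l 16381104))))))), by decide +kernel⟩

theorem s7_pm_101 : ∃ t, chk3 f_pm_101 t 6 1 1 = true := ex3_b k4_pm_101 k5_pm_101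

theorem s8_pm_101 : ∃ t, chk3 f_pm_101 t 3 1 1 = true := ex3_a s7_pm_101 k6_pm_101

theorem s9_pm_101 : ∃ t, chk3 f_pm_101 t 2 7 1 = true := ex3_a k2_pm_101 k3_pm_101

theorem s10_pm_101 : ∃ t, chk3 f_pm_101 t 2 3 1 = true := ex3_b k1_pm_101 s9_pm_101

theorem s11_pm_101 : ∃ t, chk3 f_pm_101 t 2 1 1 = true := ex3_b k0_pm_101 s10_pm_101

theorem s12_pm_101 : ∃ t, chk3 f_pm_101 t 1 1 1 = true := ex3_a s11_pm_101 s8_pm_101

theorem c_pm_101 : CertB 536870912 536870912 536870912 536870912 697932185 42949674 3 eng mog cd1q1 cd0q1 pd0 false true false .npn 1 0 1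
    ndB1q1 ndB0q1 pcB0 Cut.none Ext.none :=
  certB2 (fam := false) (s1 := true) (s2 := false) (a := 1) (b := 0) (c := 1) (cn := .npn) (n1 := ndB1q1) (n2 := ndB0q1) (pc := pcB0) (cut := Cut.none) (xt := Ext.none) (P1 := 536870912) (W1 := 536870912) (P2 := 536870912) (W2 := 536870912) (P3 := 697932185) (W3 := 42949674) (N0 := 3) (En := eng) (mo := mog) (C1 := cd1q1) (C2 := cd0q1) (C3 := pd0)
    rfl (fun _ => rfl) s12_pm_101

noncomputable def f_pm_102 : ℕ → ℕ → ℕ → ℕ → Bool := onCell 536870912 536870912 0 536870912 697932185 42949674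
    (rowB 3 eng mog cd1q1 cd0q2 pd0 0 false true false .npp 1 0 2 (qsf 536870912 536870912 0 536870912 0) ndB1q1 ndB0q2 pcB0 Cut.none Ext.none)

def k0_pm_102 : ∃ t, chk3 f_pm_102 t 2 2 1 = true :=
  ⟨(a (b (l 2) (b (l 2) (a (l 2) (b (l 2) (l 16620192))))) (b (a (a (a (l 2) (b (a (l 2) (b (b (l 164450170615) (l 16730336)) (l 16730312))) (b (l 16724408) (l 16710832)))) (b (b (a (b (l 3) (a (l 147270315159) (l 159081457911))) (l 180019407959)) (a (b (l 16729112) (l 16729160)) (b (a (l 144585956311) (l 160692066919)) (l 16727152)))) (b (a (b (l 16727264) (l 16724304)) (b (l 16727208) (l 16725400))) (a (l 16715824) (l 16719912))))) (b (a (b (l 3) (a (b (l 177335054743) (a (l 143512210327) (l 146733419207))) (b (l 3) (l 175187566759)))) (l 3)) (a (b (a (b (l 16725328) (l 16725472)) (b (a (l 133848529239) (l 147270299031)) (l 16723536))) (b (a (l 16723848) (l 16723568)) (a (l 16720536) (l 16743496)))) (a (b (b (l 166060757047) (a (l 16725672) (l 139754095767)))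 (b (l 16721800) (l 16721856))) (b (b (l 3) (l 171966333047)) (b (a (l 16718576) (l 146196543431)) (l 16719896))))))) (a (b (a (b (l 16689448) (l 16671640)) (b (l 16704432) (l 16687344))) (b (a (l 16650528) (l 16670120)) (l 16716232))) (b (a (b (l 16715704) (l 16704216)) (b (b (a (l 16721408) (a (l 16720640) (l 16720176))) (a (l 16718864) (l 16720608))) (l 16716096))) (b (a (b (l 16693408) (l 16686280)) (b (l 16710568) (l 16704808))) (a (l 16667056) (a (l 16686544) (l 16698912)))))))), by decide +kernel⟩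

def k1_pm_102 : ∃ t, chk3 f_pm_102 t 2 3 1 = true :=
  ⟨(a (a (b (l 2) (b (b (l 16362232) (l 16332272)) (b (l 16309096) (l 16413360)))) (b (a (b (l 2) (l 16430696)) (b (b (l 16567232) (l 16519768)) (l 16425088))) (b (b (l 16355680) (l 16421728)) (b (l 16403856) (a (l 16294328) (l 16322744)))))) (b (b (a (b (l 16654560) (a (l 16530480) (l 16545848))) (b (a (l 16627888) (l 16658864)) (a (l 16566928) (l 16596656)))) (a (b (l 16514776) (l 16417200)) (a (b (l 16517360) (l 16505328)) (b (a (l 16560944) (l 16566680)) (a (l 16553528) (l 16577288)))))) (b (a (b (l 16410296) (a (l 16385792) (b (l 16444808) (l 16450424)))) (b (a (l 16507736) (c (l 16542432) (l 16536928))) (a (b (l 16513488) (b (l 16511176) (l 16499096))) (b (l 16533456) (b (l 16545632) (l 16501000)))))) (a (b (b (a (l 16380488) (b (l 16444024) (l 16437984))) (a (l 16440648) (a (l 16414136) (l 16429000)))) (a (b (a (l 16362496) (l 16381976)) (a (a (l 16355288) (l 16359880)) (a (l 16354608) (b (l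 16354800) (l 16334584))))) (a (b (a (l 16381576) (l 16386448)) (b (l 16366416) (l 16364904))) (b (l 16416968) (a (l 16410624) (l 16445144)))))) (b (a (b (b (l 16487768) (l 16479808)) (a (l 16460200) (a (l 16484048) (l 16476296)))) (b (a (l 16489048) (l 16536016)) (a (b (l 16509384) (l 16505000)) (a (l 16524120) (l 16542760))))) (a (b (a (b (l 16462496) (l 16470344)) (b (l 16473328) (b (l 16471944) (l 16488696)))) (a (b (a (l 16470480) (l 16468264)) (a (l 16482936) (l 16483280))) (a (a (l 16459056) (l 16449248)) (b (l 16474224) (b (l 16465048) (l 16462944)))))) (a (b (b (b (l 16500296) (l 16497688)) (a (l 16486336) (l 16502920))) (b (a (l 16483080) (l 16505696)) (l 16497248))) (c (l 16554520) (l 16522344))))))))), by decide +kernel⟩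

def k2_pm_102 : ∃ t, chk3 f_pm_102 t 3 2 1 = true :=
  ⟨(a (b (a (b (l 3) (a (b (l 3) (a (b (l 171966328615) (a (l 16716352) (l 145659670455))) (b (l 3) (l 186998708471)))) (l 3))) (l 3)) (a (b (a (b (a (b (l 16717712) (a (l 16719480) (l 16718552))) (b (a (l 80698288199) (l 145659654695)) (a (l 16716600) (l 16713928)))) (b (a (l 16720216) (a (l 16718648) (l 16717072))) (a (l 16719544) (l 16720288)))) (a (b (b (l 180556251463) (a (b (l 163376394823) (l 16711800)) (b (l 171429450503) (l 154786459591)))) (b (a (l 16714736) (l 16712120)) (a (l 16718320) (l 16716536)))) (b (b (l 3) (a (l 170892574263) (l 3))) (b (a (b (l 155323327655) (l 16710200)) (l 159081415399)) (a (l 16713976) (l 16709488)))))) (a (b (b (l 16720120) (l 16719392)) (b (l 16716128) (l 16710728))) (b (a (b (l 16721192) (l 16723384)) (b (a (l 16718816) (l 16714688)) (l 16721576))) (a (l 16724816) (l 16726408))))) (b (a (b (l 3) (a (b (l 164450129943) (a (b (l 155323316183) (l 16706320)) (b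 (l 3) (l 154249578519)))) (l 3))) (l 3)) (a (b (b (a (a (l 16710456) (b (l 16704912) (l 16707736))) (a (b (l 150491473671) (l 16703784)) (l 146196501031))) (a (a (l 16715904) (l 16711944)) (a (l 16708272) (l 16704296)))) (b (a (l 16719680) (a (l 16714448) (l 16710592))) (a (l 16724120) (l 16718976)))) (b (a (b (l 3) (a (l 139217196327) (l 152102076343))) (l 3)) (a (b (a (l 16706848) (l 86066975031)) (a (l 16713720) (l 16709784))) (b (a (l 139217196439) (l 132774719623)) (a (l 16705872) (b (l 16699536) (l 16703480)))))))))) (b (l 3) (a (b (l 3) (a (b (l 3) (a (b (l 3) (a (l 139754069879) (l 122574169607))) (l 3))) (l 3))) (l 3)))), by decide +kernel⟩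

def k3_pm_102 : ∃ t, chk3 f_pm_102 t 6 3 1 = true :=
  ⟨(b (a (b (b (a (l 16756248) (a (l 16716376) (b (l 16727256) (l 16723448)))) (a (l 16638256) (l 16689512))) (b (a (b (l 16627880) (l 16601224)) (l 16668128)) (a (a (l 16600200) (b (l 16630768) (l 16620096))) (b (l 16663416) (l 16662392))))) (b (a (b (a (l 16727840) (l 16726456)) (b (l 16791592) (l 16722944))) (b (a (b (a (l 16720048) (l 16717096)) (l 16724464)) (b (a (l 16713424) (l 16709368)) (a (l 16720304) (l 16717320)))) (a (b (l 16729608) (l 16733176)) (l 16728224)))) (b (a (l 16695960) (a (l 16728296) (l 16738400))) (a (b (l 16692064) (l 16692592)) (l 16691712))))) (a (b (b (a (c (l 16585464) (l 16583752)) (l 16655344)) (b (l 16625984) (a (a (l 16573576) (l 16613112)) (l 16665256)))) (b (a (b (l 16592992) (l 16594648)) (b (l 16666264) (l 16668192))) (a (b (l 16598752) (a (l 16584528) (l 16624976))) (a (l 16722392) (l 16733264))))) (b (b (a (l 16694256) (b (l 16720056) (l 16725576))) (a (l 16600040)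 (a (l 16732440) (l 16748384)))) (b (a (l 16695728) (a (l 16746800) (l 16655536))) (a (b (l 16721960) (l 16790928)) (a (b (l 16749928) (l 16792200)) (b (l 16754832) (l 16748216)))))))), by decide +kernel⟩

def k4_pm_102 : ∃ t, chk3 f_pm_102 t 14 6 1 = true :=
  ⟨(b (a (b (a (b (a (l 16705248) (b (l 138143453175) (l 16703024))) (a (l 16713624) (l 16709536))) (b (a (l 127942908295) (l 3)) (a (l 87677548295) (b (l 106468014919) (l 16682384))))) (a (b (a (l 16721136) (l 16718192)) (l 16726920)) (b (a (l 16693416) (b (l 16707784) (l 16711976))) (a (l 16722032) (b (l 16716000) (l 16719672)))))) (b (a (b (l 3) (a (b (l 3) (l 130090374743)) (l 3))) (l 3)) (a (b (a (b (l 16703544) (l 16707616)) (b (l 138680298311) (l 127406036839))) (a (b (l 16711328) (l 16715192)) (b (l 16707736) (l 16710816)))) (b (a (b (l 3) (l 185924953079)) (l 3)) (a (b (l 166060754903) (l 16707904)) (b (l 3) (l 174650677511))))))) (a (b (b (a (l 16733512) (l 16727664)) (a (l 16740336) (l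 16735800))) (b (l 16723408) (l 16743216))) (b (a (b (a (l 16721224) (b (l 16714440) (l 16718592))) (l 16728256)) (b (a (b (l 16710352) (l 16713744)) (b (l 110762994599) (l 16709904))) (a (l 16720672) (b (l 16692024) (l 16717072))))) (a (b (l 16738256) (l 16746416)) (b (l 16726864) (l 16714464)))))), by decide +kernel⟩

def k5_pm_102 : ∃ t, chk3 f_pm_102 t 15 6 1 = true :=
  ⟨(b (a (l 3) (l 3)) (a (b (a (b (a (b (l 170892569751) (a (l 16708432) (l 156397050551))) (b (l 3) (a (l 182166861111) (l 3)))) (a (b (l 16709392) (l 16712024)) (b (a (l 16707920) (l 173576924391)) (a (l 16709440) (l 16708480))))) (b (l 3) (a (b (b (l 3) (l 183240599975)) (a (l 154786429831) (l 180556250727))) (l 3)))) (a (b (a (l 16717712) (b (a (l 16711960) (l 16709928)) (a (l 16715504) (l 16713032)))) (a (l 16725416) (l 16719432))) (b (a (b (a (l 16708792) (l 16707520)) (a (l 16711056) (l 16709176))) (b (a (l 157470781671) (l 183777474775)) (a (l 16707912) (l 141901532231)))) (a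 (b (a (l 16714208) (l 16712264)) (l 16716320)) (b (a (l 16689456) (l 16708608)) (b (l 16712032) (l 16713088))))))) (b (l 3) (a (b (a (b (l 3) (a (l 174113799767) (l 3))) (l 3)) (a (b (a (l 16706808) (l 162839503959)) (a (l 16710000) (b (l 16706880) (l 16708416)))) (b (a (l 184851220391) (l 3)) (a (l 164450135431) (l 177871899879))))) (l 3))))), by decide +kernel⟩

def k6_pm_102 : ∃ t, chk3 f_pm_102 t 7 14 1 = true :=
  ⟨(a (a (b (b (l 16737512) (l 16747024)) (b (l 16755536) (l 16765344))) (b (b (l 16747424) (l 16666736)) (b (l 16726216) (l 16751216)))) (a (b (a (b (a (l 16732536) (l 16726840)) (l 16736328)) (b (a (l 16678696) (a (l 16695608) (l 16714680))) (b (l 16722928) (l 16726072)))) (b (a (l 16743952) (l 16689544)) (b (l 16743888) (l 16747672)))) (b (a (b (a (b (a (l 16712256) (l 16710856)) (l 16712648)) (b (a (b (l 16707096) (l 16708352)) (b (l 16704424) (l 16705840))) (a (l 16710504) (l 16713336)))) (a (b (l 16714208) (l 16717608)) (b (l 16710064)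 (l 16691072)))) (b (a (b (a (b (l 16688144) (l 16703232)) (b (l 3) (l 137606547367))) (b (a (l 16704680) (l 16702048)) (a (l 16705672) (l 16703640)))) (b (l 3) (a (b (l 3) (a (l 16701784) (l 16700016))) (l 3)))) (a (b (a (l 16708232) (b (l 16704512) (l 16705792))) (a (l 16708760) (l 16706848))) (b (a (b (a (l 16703240) (l 16702128)) (a (l 16704032) (l 16703288))) (b (a (l 16700560) (l 3)) (a (l 16702376) (l 16701024)))) (a (a (l 16706648) (l 16705480)) (b (a (l 16703144) (l 16702496)) (a (l 16704272) (l 16703144)))))))) (a (b (a (l 16722576) (b (l 16715392) (l 16719152))) (b (l 16726472) (l 16730744))) (b (a (b (a (l 16711496) (l 16708744)) (l 16713552)) (b (a (l 16706480) (l 16706128)) (b (l 16686544) (l 16709408)))) (a (b (l 16717344) (l 16722280)) (b (l 16712184) (l 16716720)))))))), by decide +kernel⟩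

def k7_pm_102 : ∃ t, chk3 f_pm_102 t 7 15 1 = true :=
  ⟨(a (b (a (a (l 16657552) (l 16756208)) (b (l 16751744) (l 16740352))) (a (l 16783608) (l 16748752))) (b (a (b (b (l 16703752) (l 16736288)) (l 16727344)) (a (b (l 16735528) (l 16726688)) (b (b (b (l 16722760) (l 16724384)) (l 16722000)) (l 16716128)))) (a (b (l 16718168) (l 16711008)) (a (b (l 16710152) (l 16701336)) (b (l 16707648) (l 16698880)))))), by decide +kernel⟩

theorem s8_pm_102 : ∃ t, chk3 f_pm_102 t 7 7 1 = true := ex3_b k6_pm_102 k7_pm_102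

theorem s9_pm_102 : ∃ t, chk3 f_pm_102 t 7 6 1 = true := ex3_a k4_pm_102 k5_pm_102

theorem s10_pm_102 : ∃ t, chk3 f_pm_102 t 7 3 1 = true := ex3_b s9_pm_102 s8_pm_102

theorem s11_pm_102 : ∃ t, chk3 f_pm_102 t 3 3 1 = true := ex3_a k3_pm_102 s10_pm_102

theorem s12_pm_102 : ∃ t, chk3 f_pm_102 t 3 1 1 = true := ex3_b k2_pm_102 s11_pm_102

theorem s13_pm_102 : ∃ t, chk3 f_pm_102 t 2 1 1 = true := ex3_b k0_pm_102 k1_pm_102

theorem s14_pm_102 : ∃ t, chk3 f_pm_102 t 1 1 1 = true := ex3_a s13_pm_102 s12_pm_102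

theorem c_pm_102 : CertB 536870912 536870912 0 536870912 697932185 42949674 3 eng mog cd1q1 cd0q2 pd0 false true false .npp 1 0 2
    ndB1q1 ndB0q2 pcB0 Cut.none Ext.none :=
  certB0 (fam := false) (s1 := true) (s2 := false) (a := 1) (b := 0) (c := 2) (cn := .npp) (n1 := ndB1q1) (n2 := ndB0q2) (pc := pcB0) (cut := Cut.none) (xt := Ext.none) (P1 := 536870912) (W1 := 536870912) (P2 := 0) (W2 := 536870912) (P3 := 697932185) (W3 := 42949674) (N0 := 3) (En := eng) (mo := mog) (C1 := cd1q1) (C2 := cd0q2) (C3 := pd0)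
    rfl s14_pm_102

noncomputable def f_pm_112 : ℕ → ℕ → ℕ → ℕ → Bool := onCell 536870912 536870912 0 536870912 697932185 42949674
    (rowB 3 eng mog cd1q1 cd0q2 pd1 2 false true false .dn 1 1 2 (qsf 536870912 536870912 0 536870912 1) ndB1q1 ndB0q2 pcB1 Cut.none Ext.none)

def k0_pm_112 : ∃ t, chk3 f_pm_112 t 1 1 1 = true :=
  ⟨(a (b (a (b (a (b (b (a (a (b (a (l 151028398967) (l 119889904343)) (l 16729392)) (b (l 16732160) (l 16729392))) (a (b (l 16732440) (l 16727144)) (b (l 16729896) (l 16724440)))) (a (a (b (l 16725760) (l 16719664)) (b (l 16723760) (l 16718152))) (a (l 16718392) (l 16711976)))) (a (a (b (l 16709360) (l 16690552)) (l 16695848)) (b (l 16696680) (l 16674040)))) (b (a (a (b (l 16723112) (l 16704904)) (l 16706032)) (l 16691352)) (a (b (l 16680520) (l 16657896)) (b (l 16659264) (l 16638200))))) (b (a (a (b (l 16664600) (l 16641312)) (b (l 16652088) (l 16626600))) (a (l 16621824) (l 16602208))) (a (b (l 16630696) (l 16579672)) (b (l 16577936)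 (l 16551160))))) (a (a (b (b (l 16667072) (l 16647568)) (b (l 16579944) (b (l 16548224) (l 16524488)))) (b (b (l 1) (l 1)) (l 1))) (l 1))) (b (a (b (a (b (a (l 16547464) (l 16536912)) (l 16544848)) (b (l 16542016) (l 16488864))) (a (l 16562608) (b (l 16457024) (l 16423912)))) (l 1)) (a (b (a (b (l 16373272) (l 16340504)) (b (l 16396496) (l 1))) (a (b (l 16314416) (l 16295992)) (l 1))) (l 1)))) (l 1)), by decide +kernel⟩

theorem c_pm_112 : CertB 536870912 536870912 0 536870912 697932185 42949674 3 eng mog cd1q1 cd0q2 pd1 false true false .dn 1 1 2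
    ndB1q1 ndB0q2 pcB1 Cut.none Ext.none :=
  certB2 (fam := false) (s1 := true) (s2 := false) (a := 1) (b := 1) (c := 2) (cn := .dn) (n1 := ndB1q1) (n2 := ndB0q2) (pc := pcB1) (cut := Cut.none) (xt := Ext.none) (P1 := 536870912) (W1 := 536870912) (P2 := 0) (W2 := 536870912) (P3 := 697932185) (W3 := 42949674) (N0 := 3) (En := eng) (mo := mog) (C1 := cd1q1) (C2 := cd0q2) (C3 := pd1)
    rfl (fun _ => rfl) k0_pm_112

noncomputable def cut_pm_202_a : Cut := Cut.of [[⟨0, 1, 0, 67108864⟩, ⟨1, 0, 0, 67108864⟩, ⟨2, 1, 0, 67108864⟩]]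

noncomputable def f_pm_202_a : ℕ → ℕ → ℕ → ℕ → Bool := onCell 0 536870912 0 536870912 697932185 42949674
    (rowB 3 eng mog cd1q2a cd0q2 pd0 0 false true false .pp 2 0 2 (qsf 0 536870912 0 536870912 0) ndB1q2a ndB0q2 pcB0 cut_pm_202_a Ext.none)

def k0_pm_202_a : ∃ t, chk3 f_pm_202_a t 1 1 1 = true :=
  ⟨(a (l 3) (b (l 3) (b (l 3) (a (l 3) (b (l 3) (a (l 3) (l 6))))))), by decide +kernel⟩

theorem c_pm_202_a : CertB 0 536870912 0 536870912 697932185 42949674 3 eng mog cd1q2a cd0q2 pd0 false true false .pp 2 0 2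
    ndB1q2a ndB0q2 pcB0 cut_pm_202_a Ext.none :=
  certB0 (fam := false) (s1 := true) (s2 := false) (a := 2) (b := 0) (c := 2) (cn := .pp) (n1 := ndB1q2a) (n2 := ndB0q2) (pc := pcB0) (cut := cut_pm_202_a) (xt := Ext.none) (P1 := 0) (W1 := 536870912) (P2 := 0) (W2 := 536870912) (P3 := 697932185) (W3 := 42949674) (N0 := 3) (En := eng) (mo := mog) (C1 := cd1q2a) (C2 := cd0q2) (C3 := pd0)
    rfl k0_pm_202_a

noncomputable def cut_pm_202_b : Cut := Cut.of [[⟨0, 1, 0, 67108864⟩, ⟨1, 0, 0, 67108864⟩, ⟨2, 1, 0, 67108864⟩]]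

noncomputable def f_pm_202_b : ℕ → ℕ → ℕ → ℕ → Bool := onCell 1239849684 370763052 0 536870912 697932185 42949674
    (rowB 3 eng mog cd1q2b cd0q2 pd0 0 false true false .pp 2 0 2 (qsf 1239849684 370763052 0 536870912 0) ndB1q2b ndB0q2 pcB0 cut_pm_202_b Ext.none)

def k0_pm_202_b : ∃ t, chk3 f_pm_202_b t 1 1 1 = true :=
  ⟨(l 3), by decide +kernel⟩

theorem c_pm_202_b : CertB 1239849684 370763052 0 536870912 697932185 42949674 3 eng mog cd1q2b cd0q2 pd0 false true false .pp 2 0 2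
    ndB1q2b ndB0q2 pcB0 cut_pm_202_b Ext.none :=
  certB0 (fam := false) (s1 := true) (s2 := false) (a := 2) (b := 0) (c := 2) (cn := .pp) (n1 := ndB1q2b) (n2 := ndB0q2) (pc := pcB0) (cut := cut_pm_202_b) (xt := Ext.none) (P1 := 1239849684) (W1 := 370763052) (P2 := 0) (W2 := 536870912) (P3 := 697932185) (W3 := 42949674) (N0 := 3) (En := eng) (mo := mog) (C1 := cd1q2b) (C2 := cd0q2) (C3 := pd0)
    rfl k0_pm_202_b

noncomputable def f_mm_001 : ℕ → ℕ → ℕ → ℕ → Bool := onCell 0 536870912 0 536870912 697932185 42949674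
    (rowB 3 eng mog cd1q0 cd0q1 pd0 1 false false false .up 0 0 1 (qsf 0 536870912 536870912 536870912 0) ndB1q0 ndB0q1 pcB0 Cut.none Ext.none)

def k0_mm_001 : ∃ t, chk3 f_mm_001 t 1 1 1 = true :=
  ⟨(l 3), by decide +kernel⟩

theorem c_mm_001 : CertB 0 536870912 536870912 536870912 697932185 42949674 3 eng mog cd1q0 cd0q1 pd0 false false false .up 0 0 1
    ndB1q0 ndB0q1 pcB0 Cut.none Ext.none :=
  certB1 (fam := false) (s1 := false) (s2 := false) (a := 0) (b := 0) (c := 1) (cn := .up) (n1 := ndB1q0) (n2 := ndB0q1) (pc := pcB0) (cut := Cut.none) (xt := Ext.none) (P1 := 0) (W1 := 536870912) (P2 := 536870912) (W2 := 536870912) (P3 := 697932185) (W3 := 42949674) (N0 := 3) (En := eng) (mo := mog) (C1 := cd1q0) (C2 := cd0q1) (C3 := pd0)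
    rfl (fun _ => rfl) k0_mm_001

noncomputable def f_mm_011 : ℕ → ℕ → ℕ → ℕ → Bool := onCell 0 536870912 536870912 536870912 697932185 42949674
    (rowB 3 eng mog cd1q0 cd0q1 pd1 1 false false false .pnn 0 1 1 (qsf 0 536870912 536870912 536870912 1) ndB1q0 ndB0q1 pcB1 Cut.none Ext.none)

def k0_mm_011 : ∃ t, chk3 f_mm_011 t 1 1 1 = true :=
  ⟨(l 5), by decide +kernel⟩

theorem c_mm_011 : CertB 0 536870912 536870912 536870912 697932185 42949674 3 eng mog cd1q0 cd0q1 pd1 false false false .pnn 0 1 1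
    ndB1q0 ndB0q1 pcB1 Cut.none Ext.none :=
  certB1 (fam := false) (s1 := false) (s2 := false) (a := 0) (b := 1) (c := 1) (cn := .pnn) (n1 := ndB1q0) (n2 := ndB0q1) (pc := pcB1) (cut := Cut.none) (xt := Ext.none) (P1 := 0) (W1 := 536870912) (P2 := 536870912) (W2 := 536870912) (P3 := 697932185) (W3 := 42949674) (N0 := 3) (En := eng) (mo := mog) (C1 := cd1q0) (C2 := cd0q1) (C3 := pd1)
    rfl (fun _ => rfl) k0_mm_011

noncomputable def f_mm_012 : ℕ → ℕ → ℕ → ℕ → Bool := onCell 0 536870912 0 536870912 697932185 42949674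
    (rowB 3 eng mog cd1q0 cd0q2 pd1 0 false false false .pnp 0 1 2 (qsf 0 536870912 0 536870912 1) ndB1q0 ndB0q2 pcB1 Cut.none Ext.none)

def k0_mm_012 : ∃ t, chk3 f_mm_012 t 1 1 1 = true :=
  ⟨(l 5), by decide +kernel⟩

theorem c_mm_012 : CertB 0 536870912 0 536870912 697932185 42949674 3 eng mog cd1q0 cd0q2 pd1 false false false .pnp 0 1 2
    ndB1q0 ndB0q2 pcB1 Cut.none Ext.none :=
  certB0 (fam := false) (s1 := false) (s2 := false) (a := 0) (b := 1) (c := 2) (cn := .pnp) (n1 := ndB1q0) (n2 := ndB0q2) (pc := pcB1) (cut := Cut.none) (xt := Ext.none) (P1 := 0) (W1 := 536870912) (P2 := 0) (W2 := 536870912) (P3 := 697932185) (W3 := 42949674) (N0 := 3) (En := eng) (mo := mog) (C1 := cd1q0) (C2 := cd0q2) (C3 := pd1)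
    rfl k0_mm_012

noncomputable def f_mm_022 : ℕ → ℕ → ℕ → ℕ → Bool := onCell 0 536870912 0 536870912 697932185 42949674
    (rowB 3 eng mog cd1q0 cd0q2 pd2 0 false false false .pp 0 2 2 (qsf 0 536870912 0 536870912 2) ndB1q0 ndB0q2 pcB2 Cut.none Ext.none)

def k0_mm_022 : ∃ t, chk3 f_mm_022 t 1 1 1 = true :=
  ⟨(l 5), by decide +kernel⟩

theorem c_mm_022 : CertB 0 536870912 0 536870912 697932185 42949674 3 eng mog cd1q0 cd0q2 pd2 false false false .pp 0 2 2
    ndB1q0 ndB0q2 pcB2 Cut.none Ext.none :=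
  certB0 (fam := false) (s1 := false) (s2 := false) (a := 0) (b := 2) (c := 2) (cn := .pp) (n1 := ndB1q0) (n2 := ndB0q2) (pc := pcB2) (cut := Cut.none) (xt := Ext.none) (P1 := 0) (W1 := 536870912) (P2 := 0) (W2 := 536870912) (P3 := 697932185) (W3 := 42949674) (N0 := 3) (En := eng) (mo := mog) (C1 := cd1q0) (C2 := cd0q2) (C3 := pd2)
    rfl k0_mm_022

noncomputable def f_mm_101 : ℕ → ℕ → ℕ → ℕ → Bool := onCell 536870912 536870912 536870912 536870912 697932185 42949674
    (rowB 3 eng mog cd1q1 cd0q1 pd0 0 false false false .npn 1 0 1 (qsf 536870912 536870912 536870912 536870912 0) ndB1q1 ndB0q1 pcB0 Cut.none Ext.none)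

def k0_mm_101 : ∃ t, chk3 f_mm_101 t 1 1 1 = true :=
  ⟨(l 3), by decide +kernel⟩

theorem c_mm_101 : CertB 536870912 536870912 536870912 536870912 697932185 42949674 3 eng mog cd1q1 cd0q1 pd0 false false false .npn 1 0 1
    ndB1q1 ndB0q1 pcB0 Cut.none Ext.none :=
  certB0 (fam := false) (s1 := false) (s2 := false) (a := 1) (b := 0) (c := 1) (cn := .npn) (n1 := ndB1q1) (n2 := ndB0q1) (pc := pcB0) (cut := Cut.none) (xt := Ext.none) (P1 := 536870912) (W1 := 536870912) (P2 := 536870912) (W2 := 536870912) (P3 := 697932185) (W3 := 42949674) (N0 := 3) (En := eng) (mo := mog) (C1 := cd1q1) (C2 := cd0q1) (C3 := pd0)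
    rfl k0_mm_101

noncomputable def f_mm_102 : ℕ → ℕ → ℕ → ℕ → Bool := onCell 536870912 536870912 0 536870912 697932185 42949674
    (rowB 3 eng mog cd1q1 cd0q2 pd0 0 false false false .npp 1 0 2 (qsf 536870912 536870912 0 536870912 0) ndB1q1 ndB0q2 pcB0 Cut.none Ext.none)

def k0_mm_102 : ∃ t, chk3 f_mm_102 t 1 1 1 = true :=
  ⟨(l 5), by decide +kernel⟩

theorem c_mm_102 : CertB 536870912 536870912 0 536870912 697932185 42949674 3 eng mog cd1q1 cd0q2 pd0 false false false .npp 1 0 2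
    ndB1q1 ndB0q2 pcB0 Cut.none Ext.none :=
  certB0 (fam := false) (s1 := false) (s2 := false) (a := 1) (b := 0) (c := 2) (cn := .npp) (n1 := ndB1q1) (n2 := ndB0q2) (pc := pcB0) (cut := Cut.none) (xt := Ext.none) (P1 := 536870912) (W1 := 536870912) (P2 := 0) (W2 := 536870912) (P3 := 697932185) (W3 := 42949674) (N0 := 3) (En := eng) (mo := mog) (C1 := cd1q1) (C2 := cd0q2) (C3 := pd0)
    rfl k0_mm_102

noncomputable def f_mm_112 : ℕ → ℕ → ℕ → ℕ → Bool := onCell 536870912 536870912 0 536870912 697932185 42949674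
    (rowB 3 eng mog cd1q1 cd0q2 pd1 0 false false false .dn 1 1 2 (qsf 536870912 536870912 0 536870912 1) ndB1q1 ndB0q2 pcB1 Cut.none Ext.none)

def k0_mm_112 : ∃ t, chk3 f_mm_112 t 1 1 1 = true :=
  ⟨(l 5), by decide +kernel⟩

theorem c_mm_112 : CertB 536870912 536870912 0 536870912 697932185 42949674 3 eng mog cd1q1 cd0q2 pd1 false false false .dn 1 1 2
    ndB1q1 ndB0q2 pcB1 Cut.none Ext.none :=
  certB0 (fam := false) (s1 := false) (s2 := false) (a := 1) (b := 1) (c := 2) (cn := .dn) (n1 := ndB1q1) (n2 := ndB0q2) (pc := pcB1) (cut := Cut.none) (xt := Ext.none) (P1 := 536870912) (W1 := 536870912) (P2 := 0) (W2 := 536870912) (P3 := 697932185) (W3 := 42949674) (N0 := 3) (En := eng) (mo := mog) (C1 := cd1q1) (C2 := cd0q2) (C3 := pd1)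
    rfl k0_mm_112

noncomputable def f_mm_202_a : ℕ → ℕ → ℕ → ℕ → Bool := onCell 0 536870912 0 536870912 697932185 42949674
    (rowB 3 eng mog cd1q2a cd0q2 pd0 0 false false false .pp 2 0 2 (qsf 0 536870912 0 536870912 0) ndB1q2a ndB0q2 pcB0 Cut.none Ext.none)

def k0_mm_202_a : ∃ t, chk3 f_mm_202_a t 1 1 1 = true :=
  ⟨(l 3), by decide +kernel⟩

theorem c_mm_202_a : CertB 0 536870912 0 536870912 697932185 42949674 3 eng mog cd1q2a cd0q2 pd0 false false false .pp 2 0 2
    ndB1q2a ndB0q2 pcB0 Cut.none Ext.none :=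
  certB0 (fam := false) (s1 := false) (s2 := false) (a := 2) (b := 0) (c := 2) (cn := .pp) (n1 := ndB1q2a) (n2 := ndB0q2) (pc := pcB0) (cut := Cut.none) (xt := Ext.none) (P1 := 0) (W1 := 536870912) (P2 := 0) (W2 := 536870912) (P3 := 697932185) (W3 := 42949674) (N0 := 3) (En := eng) (mo := mog) (C1 := cd1q2a) (C2 := cd0q2) (C3 := pd0)
    rfl k0_mm_202_a

noncomputable def f_mm_202_b : ℕ → ℕ → ℕ → ℕ → Bool := onCell 1239849684 370763052 0 536870912 697932185 42949674
    (rowB 3 eng mog cd1q2b cd0q2 pd0 0 false false false .pp 2 0 2 (qsf 1239849684 370763052 0 536870912 0) ndB1q2b ndB0q2 pcB0 Cut.none Ext.none)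

def k0_mm_202_b : ∃ t, chk3 f_mm_202_b t 1 1 1 = true :=
  ⟨(l 3), by decide +kernel⟩

theorem c_mm_202_b : CertB 1239849684 370763052 0 536870912 697932185 42949674 3 eng mog cd1q2b cd0q2 pd0 false false false .pp 2 0 2
    ndB1q2b ndB0q2 pcB0 Cut.none Ext.none :=
  certB0 (fam := false) (s1 := false) (s2 := false) (a := 2) (b := 0) (c := 2) (cn := .pp) (n1 := ndB1q2b) (n2 := ndB0q2) (pc := pcB0) (cut := Cut.none) (xt := Ext.none) (P1 := 1239849684) (W1 := 370763052) (P2 := 0) (W2 := 536870912) (P3 := 697932185) (W3 := 42949674) (N0 := 3) (En := eng) (mo := mog) (C1 := cd1q2b) (C2 := cd0q2) (C3 := pd0)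
    rfl k0_mm_202_b

end Pool.Agent.Strip051.G.I6500_6900.Tab.C.BB10

namespace Pool.Agent.Strip051.G.I6500_6900.Tab.C.BB11

open Pool.Agent.Strip051.PB Pool.Agent.Strip051.PB.T
open Pool.Agent.Strip051.G.I6500_6900.Tab

noncomputable def f_pp_001 : ℕ → ℕ → ℕ → ℕ → Bool := onCell 0 536870912 0 536870912 697932185 42949674
    (rowB 3 eng mog cd1q0 cd1q1 pd0 1 false true true .up 0 0 1 (qsf 0 536870912 536870912 536870912 0) ndB1q0 ndB1q1 pcB0 Cut.none Ext.none)

def k0_pp_001 : ∃ t, chk3 f_pp_001 t 1 1 1 = true :=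
  ⟨(l 3), by decide +kernel⟩

theorem c_pp_001 : CertB 0 536870912 536870912 536870912 697932185 42949674 3 eng mog cd1q0 cd1q1 pd0 false true true .up 0 0 1
    ndB1q0 ndB1q1 pcB0 Cut.none Ext.none :=
  certB1 (fam := false) (s1 := true) (s2 := true) (a := 0) (b := 0) (c := 1) (cn := .up) (n1 := ndB1q0) (n2 := ndB1q1) (pc := pcB0) (cut := Cut.none) (xt := Ext.none) (P1 := 0) (W1 := 536870912) (P2 := 536870912) (W2 := 536870912) (P3 := 697932185) (W3 := 42949674) (N0 := 3) (En := eng) (mo := mog) (C1 := cd1q0) (C2 := cd1q1) (C3 := pd0)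
    rfl (fun _ => rfl) k0_pp_001

noncomputable def f_pp_011 : ℕ → ℕ → ℕ → ℕ → Bool := onCell 0 536870912 536870912 536870912 697932185 42949674
    (rowB 3 eng mog cd1q0 cd1q1 pd1 0 false true true .pnn 0 1 1 (qsf 0 536870912 536870912 536870912 1) ndB1q0 ndB1q1 pcB1 Cut.none Ext.none)

def k0_pp_011 : ∃ t, chk3 f_pp_011 t 1 1 1 = true :=
  ⟨(a (l 3) (l 3)), by decide +kernel⟩

theorem c_pp_011 : CertB 0 536870912 536870912 536870912 697932185 42949674 3 eng mog cd1q0 cd1q1 pd1 false true true .pnn 0 1 1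
    ndB1q0 ndB1q1 pcB1 Cut.none Ext.none :=
  certB0 (fam := false) (s1 := true) (s2 := true) (a := 0) (b := 1) (c := 1) (cn := .pnn) (n1 := ndB1q0) (n2 := ndB1q1) (pc := pcB1) (cut := Cut.none) (xt := Ext.none) (P1 := 0) (W1 := 536870912) (P2 := 536870912) (W2 := 536870912) (P3 := 697932185) (W3 := 42949674) (N0 := 3) (En := eng) (mo := mog) (C1 := cd1q0) (C2 := cd1q1) (C3 := pd1)
    rfl k0_pp_011

noncomputable def cut_pp_012_a : Cut := Cut.of [[⟨0, 0, 0, 53687091⟩, ⟨1, 1, 0, 53687091⟩, ⟨2, 1, 0, 53687091⟩]]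

noncomputable def f_pp_012_a : ℕ → ℕ → ℕ → ℕ → Bool := onCell 536870912 536870912 0 536870912 697932185 42949674
    (rowB 3 eng mog cd1q0 cd1q2a pd1 2 false true true .pnp 0 1 2 (qsf 0 536870912 0 536870912 1) ndB1q0 ndB1q2a pcB1 cut_pp_012_a Ext.none)

def k0_pp_012_a : ∃ t, chk3 f_pp_012_a t 2 1 1 = true :=
  ⟨(b (b (a (l 2) (a (a (a (l 2) (b (b (l 131634008567) (l 16743976)) (b (a (l 2) (b (l 16746608) (b (a (l 110226217351) (l 16742800)) (a (l 185925010999) (l 151565283735))))) (l 3)))) (b (b (a (l 16720248) (l 16708120)) (a (l 16735568) (b (l 16721856) (l 16729936)))) (b (a (b (l 16745032) (a (b (l 16745760) (l 88214507447)) (l 16746256))) (l 16741312)) (a (b (a (b (a (l 177871948279) (l 144585967239)) (l 3)) (b (l 78013954551) (a (l 169282016551) (l 115058048151)))) (l 3)) (b (a (b (l 16745736) (l 16742936)) (l 16746008)) (a (b (a (l 160155215095) (l 111299969911)) (l 3)) (b (l 16723016) (l 125258599063)))))))) (b (a (b (l 16690216) (a (l 16715824)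 (l 16703448))) (l 16675016)) (a (b (a (l 16732504) (b (l 16717968) (l 16726920))) (a (b (l 16743248) (a (l 16746144) (l 16746536))) (l 16739664))) (b (a (l 16732776) (l 16698904)) (a (l 16730296) (b (l 16714480) (l 16724456)))))))) (a (l 3) (a (l 3) (a (b (b (a (b (a (b (l 116668663623) (l 3)) (b (l 16746128) (l 117205561959))) (l 185925011463)) (b (l 16747976) (a (b (l 101636313655) (l 164450182631)) (b (l 16748480) (l 79624610791))))) (a (l 3) (b (l 180019441351) (l 3)))) (l 3)) (b (b (a (b (l 16743376) (l 16749520)) (l 16739520)) (a (b (a (b (l 16746544) (l 167134582375)) (l 16750544)) (l 163376454871)) (b (l 16751760) (a (l 80698373719) (l 16754568))))) (b (a (l 3) (b (l 144049117335) (l 3))) (l 3))))))) (l 3)), by decide +kernel⟩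

def k1_pp_012_a : ∃ t, chk3 f_pp_012_a t 6 1 1 = true :=
  ⟨(b (a (b (b (a (l 16648856) (l 16621808)) (a (b (l 16679576) (a (b (l 16702056) (l 16712888)) (l 16694648))) (b (l 16652416) (l 16674296)))) (a (b (a (b (l 16729056) (l 16750352)) (b (b (l 16711440) (l 16722744)) (l 16740672))) (b (a (b (a (l 70497816519) (l 16759352)) (l 127406135655)) (b (l 16757512) (a (l 16778024) (l 16762696)))) (a (l 3) (b (a (l 144049152199) (l 101636394455)) (l 3))))) (b (a (b (b (l 16698288) (l 16710088)) (l 16769576)) (b (l 16689952) (b (l 16707880) (l 16719560)))) (b (a (b (l 16746416) (l 16758440)) (b (l 16731808) (l 16744336))) (a (b (a (l 16782200) (l 16764680)) (a (l 144049145991) (l 86067152023))) (a (b (l 16760352) (l 16782944)) (l 16758696))))))) (b (a (b (b (l 16584952) (l 16603520)) (b (l 16623048) (l 16643848))) (b (l 16632920) (l 16669456))) (a (b (a (b (l 16673624) (l 16697448)) (l 16690768)) (a (b (l 16783920) (l 16768024)) (b (b (l 16699584) (l 16711736))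 (l 16731456)))) (b (b (l 16637104) (l 16659464)) (b (a (l 16690928) (l 16676280)) (a (l 16736848) (l 16743368))))))) (b (a (a (l 3) (b (b (a (l 3) (b (a (l 108078867831) (l 84456541175)) (l 3))) (l 3)) (l 3))) (a (b (b (a (b (l 16785632) (a (l 95730827191) (l 16786008))) (b (l 16751344) (l 16785080))) (a (l 177872019431) (b (a (l 86604024759) (l 16787744)) (l 155860324807)))) (l 3)) (b (a (b (l 16764008) (a (b (l 16766808) (l 129016755223)) (b (l 16759880) (l 16750472)))) (b (a (l 16731536) (l 16723952)) (c (l 16755776) (l 16754568)))) (b (a (b (a (l 3) (l 184851349047)) (l 3)) (b (a (c (l 145122885687) (l 16760528)) (l 16751096)) (a (l 183240783063) (c (l 16800400) (l 16800744))))) (l 3))))) (l 3))), by decide +kernel⟩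

def k2_pp_012_a : ∃ t, chk3 f_pp_012_a t 7 2 1 = true :=
  ⟨(a (b (a (b (l 16548944) (b (l 16573768) (l 16592304))) (b (l 16531264) (b (l 16554784) (l 16572280)))) (a (b (b (l 16612168) (l 16633656)) (a (b (l 16662952) (l 16687720)) (b (l 16650728) (l 16674792)))) (b (a (l 16648712) (b (l 16586840) (l 16607024))) (b (l 16644200) (a (l 16620552) (l 16649920)))))) (b (a (b (l 16517376) (l 16609312)) (b (l 16505552) (l 16531744))) (a (b (a (l 16650088) (l 16598968)) (b (l 16628168) (a (l 16617240) (l 16627856)))) (b (b (l 16556712) (l 16597008)) (b (a (l 16599456) (l 16592640)) (a (l 16618952) (l 16608048))))))), by decide +kernel⟩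

def k3_pp_012_a : ∃ t, chk3 f_pp_012_a t 14 3 1 = true :=
  ⟨(b (a (b (a (b (l 16712936) (l 16760384)) (b (l 16699752) (l 16724096))) (b (a (a (b (l 16743008) (l 16796176)) (l 16761680)) (c (l 16748672) (l 16747384))) (b (a (a (l 193441322231) (a (l 226190402039) (l 16793672))) (a (b (l 16766944) (l 16769112)) (l 16761056))) (a (l 3) (a (b (l 123648106519) (l 250886494087)) (c (l 16789288) (l 16788464))))))) (b (a (b (l 16665000) (l 16709144)) (b (l 16651208) (l 16694888))) (b (a (l 16731760) (l 16722616)) (a (b (l 16769656) (a (l 16764400) (l 16756696))) (b (l 16744200) (a (l 16749192) (l 16741968))))))) (b (a (b (a (l 3) (b (a (l 3) (l 258402685159)) (l 3))) (l 3)) (b (b (a (a (a (l 237464705351) (l 165524023047)) (a (l 16768016) (l 16766248))) (a (l 16761056) (l 16753888))) (a (a (l 3) (b (l 245517767239) (l 3))) (a (b (l 16768424) (a (l 199346871495) (l 133848634263))) (a (l 16777856) (l 16764088))))) (a (l 3) (b (a (b (l 218137367463) (l 3)) (b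 (a (l 144586060135) (l 16771528)) (a (l 3) (l 209010561799)))) (l 3))))) (l 3))), by decide +kernel⟩

def k4_pp_012_a : ∃ t, chk3 f_pp_012_a t 15 6 1 = true :=
  ⟨(a (b (b (a (l 16659632) (l 16648472)) (a (l 16681592) (l 16669520))) (a (b (l 16703760) (l 16736304)) (b (l 16690816) (b (l 16707152) (l 16718544))))) (b (b (a (l 16638808) (l 16625384)) (a (l 16658984) (l 16644480))) (a (b (l 16679544) (b (l 16694744) (l 16705336))) (b (a (l 16669568) (l 16662352)) (b (l 16680920) (l 16689840)))))), by decide +kernel⟩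

def k5_pp_012_a : ∃ t, chk3 f_pp_012_a t 15 7 1 = true :=
  ⟨(a (b (b (a (a (b (l 16746832) (l 16779832)) (l 16756560)) (a (l 16749696) (l 16742288))) (a (b (a (b (l 16769008) (l 60834193847)) (l 16765424)) (a (b (a (l 214379282343) (l 150491649911)) (l 3)) (b (l 16785672) (b (l 82845912759) (l 179482667559))))) (a (b (c (l 16736568) (l 16735816)) (a (b (l 16768312) (l 16774144)) (l 16787656))) (b (l 16727216) (b (l 16756920) (l 16762736)))))) (b (a (b (a (l 3) (b (l 233706640087) (l 3))) (l 3)) (a (b (b (a (b (l 16782944) (l 249812732919)) (l 60297322551)) (b (a (l 3) (l 243907148743)) (l 3))) (l 3)) (b (b (a (l 16770808) (l 16766264)) (a (b (l 16784496) (a (l 205789333991) (l 145659796647))) (b (l 16770552) (l 16773352)))) (b (a (b (l 224579800551) (l 3)) (b (a (l 148344153335) (l 16774752)) (a (l 3) (l 208473688791)))) (l 3))))) (l 3))) (b (a (a (b (l 16723800) (b (l 16739352) (l 16758792))) (b (l 16715456) (b (l 16730704) (l 16752688)))) (b (b (l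 16698552) (a (l 16711336) (b (l 16700976) (l 16705368)))) (b (a (l 16722184) (l 16713816)) (a (l 16744064) (a (l 16727168) (l 16722936)))))) (b (a (a (b (b (l 16759544) (a (l 16767568) (l 16763120))) (b (a (b (l 16772360) (a (l 133311765511) (l 16773944))) (l 16769624)) (a (b (a (l 3) (l 144049186535)) (l 3)) (b (l 16779536) (l 6))))) (b (b (l 16750744) (a (l 16758704) (l 16754304))) (b (a (l 16765208) (l 6)) (l 6)))) (a (b (b (l 16742040) (l 6)) (l 6)) (l 6))) (a (a (l 3) (l 6)) (l 6))))), by decide +kernel⟩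

theorem s6_pp_012_a : ∃ t, chk3 f_pp_012_a t 15 3 1 = true := ex3_b k4_pp_012_a k5_pp_012_a

theorem s7_pp_012_a : ∃ t, chk3 f_pp_012_a t 7 3 1 = true := ex3_a k3_pp_012_a s6_pp_012_a

theorem s8_pp_012_a : ∃ t, chk3 f_pp_012_a t 7 1 1 = true := ex3_b k2_pp_012_a s7_pp_012_a

theorem s9_pp_012_a : ∃ t, chk3 f_pp_012_a t 3 1 1 = true := ex3_a k1_pp_012_a s8_pp_012_a

theorem s10_pp_012_a : ∃ t, chk3 f_pp_012_a t 1 1 1 = true := ex3_a k0_pp_012_a s9_pp_012_a

theorem c_pp_012_a : CertB 0 536870912 0 536870912 697932185 42949674 3 eng mog cd1q0 cd1q2a pd1 false true true .pnp 0 1 2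
    ndB1q0 ndB1q2a pcB1 cut_pp_012_a Ext.none :=
  certB2 (fam := false) (s1 := true) (s2 := true) (a := 0) (b := 1) (c := 2) (cn := .pnp) (n1 := ndB1q0) (n2 := ndB1q2a) (pc := pcB1) (cut := cut_pp_012_a) (xt := Ext.none) (P1 := 0) (W1 := 536870912) (P2 := 0) (W2 := 536870912) (P3 := 697932185) (W3 := 42949674) (N0 := 3) (En := eng) (mo := mog) (C1 := cd1q0) (C2 := cd1q2a) (C3 := pd1)
    rfl (fun _ => rfl) s10_pp_012_a

noncomputable def cut_pp_012_b : Cut := Cut.of [[⟨0, 0, 0, 53687091⟩, ⟨1, 1, 0, 53687091⟩, ⟨2, 1, 0, 53687091⟩]]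

noncomputable def f_pp_012_b : ℕ → ℕ → ℕ → ℕ → Bool := onCell 536870912 536870912 1239849684 370763052 697932185 42949674
    (rowB 3 eng mog cd1q0 cd1q2b pd1 2 false true true .pnp 0 1 2 (qsf 0 536870912 1239849684 370763052 1) ndB1q0 ndB1q2b pcB1 cut_pp_012_b Ext.none)

def k0_pp_012_b : ∃ t, chk3 f_pp_012_b t 1 1 1 = true :=
  ⟨(b (a (a (l 2) (a (b (b (a (l 128949716087) (l 16695024)) (l 2)) (l 2)) (a (b (l 16680200) (l 2)) (b (l 16649880) (l 16606232))))) (a (a (b (a (l 16639160) (b (l 16581864) (l 16549208))) (a (l 16565480) (l 16522240))) (b (a (b (l 16552128) (l 16512328)) (b (l 16523496) (l 16476280))) (a (l 16476352) (l 16432000)))) (a (b (a (b (l 16498944) (l 16442832)) (b (l 16478512) (l 16412896))) (a (l 16387200) (l 16345328))) (b (a (b (l 16462248) (l 16387320)) (b (l 16491568) (l 16366840))) (a (l 16327208) (l 16333840)))))) (a (l 2) (a (a (l 2) (b (a (l 16470064) (l 16414576)) (l 2))) (a (b (a (l 16360504) (l 16305336)) (l 16351968))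 (b (a (l 16252736) (l 16202336)) (l 16225272)))))), by decide +kernel⟩

theorem c_pp_012_b : CertB 0 536870912 1239849684 370763052 697932185 42949674 3 eng mog cd1q0 cd1q2b pd1 false true true .pnp 0 1 2
    ndB1q0 ndB1q2b pcB1 cut_pp_012_b Ext.none :=
  certB2 (fam := false) (s1 := true) (s2 := true) (a := 0) (b := 1) (c := 2) (cn := .pnp) (n1 := ndB1q0) (n2 := ndB1q2b) (pc := pcB1) (cut := cut_pp_012_b) (xt := Ext.none) (P1 := 0) (W1 := 536870912) (P2 := 1239849684) (W2 := 370763052) (P3 := 697932185) (W3 := 42949674) (N0 := 3) (En := eng) (mo := mog) (C1 := cd1q0) (C2 := cd1q2b) (C3 := pd1)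
    rfl (fun _ => rfl) k0_pp_012_b

noncomputable def cut_pp_022_a : Cut := Cut.of [[⟨0, 0, 0, 67108864⟩, ⟨1, 1, 0, 67108864⟩, ⟨2, 1, 0, 67108864⟩]]

noncomputable def f_pp_022_a : ℕ → ℕ → ℕ → ℕ → Bool := onCell 1073741824 536870912 0 536870912 697932185 42949674
    (rowB 3 eng mog cd1q0 cd1q2a pd2 2 false true true .pp 0 2 2 (qsf 0 536870912 0 536870912 2) ndB1q0 ndB1q2a pcB2 cut_pp_022_a Ext.none)

def k0_pp_022_a : ∃ t, chk3 f_pp_022_a t 2 2 1 = true :=
  ⟨(a (b (b (a (a (l 16491168) (l 16489224)) (a (l 16481448) (l 16471696))) (a (a (l 16510392) (l 16506672)) (a (l 16496944) (a (l 16485976) (l 16477048))))) (a (b (a (b (l 16530240) (l 16546568)) (a (l 16534904) (l 16529760))) (a (b (l 16567656) (l 16609440)) (b (l 16550136) (l 16562928)))) (b (a (l 16514800) (c (l 16498264) (l 16489056))) (c (a (b (l 16530464) (l 16540096)) (b (l 16529872) (a (l 16520880) (l 16507712)))) (a (b (l 16523608) (l 16469304)) (b (b (l 16497000) (l 16498792)) (a (l 16509760)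 (l 16494240)))))))) (a (b (b (a (a (l 16462280) (l 16454680)) (l 1)) (a (a (l 16467976) (l 111702180615)) (l 1))) (a (b (c (l 16478824) (c (l 16469216) (l 16398480))) (a (b (b (l 16485376) (l 16423144)) (b (l 16486432) (l 1))) (l 1))) (l 1))) (l 1))), by decide +kernel⟩

def k1_pp_022_a : ∃ t, chk3 f_pp_022_a t 2 3 1 = true :=
  ⟨(a (a (b (b (a (a (b (l 16610200) (l 16629872)) (b (l 16599168) (l 16618344))) (b (a (l 16584872) (l 16570064)) (a (l 16602088) (b (l 16581176) (l 16588992))))) (a (a (b (l 16648024) (b (l 16660848) (l 16670656))) (b (l 16639072) (l 16660488))) (b (a (l 16620560) (a (l 16606080) (l 16596152))) (a (b (l 16635072) (l 16643656)) (b (l 16634600) (l 16641720)))))) (a (b (b (a (a (b (l 16680776) (l 16690312)) (l 16684784)) (b (l 16675568) (l 16685816))) (l 6)) (l 6)) (a (b (b (a (b (l 16658288) (l 16667384)) (b (l 16646344) (l 16654640))) (l 6)) (l 6)) (b (a (b (b (l 16634112) (l 16641584)) (l 6)) (b (b (l 16621584) (l 81637663207))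 (b (l 16632184) (l 1)))) (l 1))))) (b (b (a (b (a (l 16575704) (l 16559848)) (a (b (l 16564112) (l 16570688)) (b (l 16546384) (l 16551632)))) (b (a (b (l 16520648) (l 16524216)) (b (l 16504360) (l 16506512))) (a (b (l 16527968) (l 41909028119)) (l 1)))) (a (b (a (b (l 16577336) (l 16584272)) (b (l 83248143767) (a (l 16567912) (l 16556680)))) (a (b (a (l 16596872) (l 16585376)) (a (l 16602832) (l 16590528))) (b (a (l 16573616) (l 1)) (l 1)))) (b (a (b (l 16545976) (l 1)) (l 1)) (l 1)))) (b (a (a (b (b (a (l 16608728) (l 16595568)) (a (l 16614464) (l 1))) (l 1)) (l 1)) (l 1)) (l 1)))) (b (l 1) (l 1))), by decide +kernel⟩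

def k2_pp_022_a : ∃ t, chk3 f_pp_022_a t 3 1 1 = true :=
  ⟨(l 1), by decide +kernel⟩

theorem s3_pp_022_a : ∃ t, chk3 f_pp_022_a t 2 1 1 = true := ex3_b k0_pp_022_a k1_pp_022_a

theorem s4_pp_022_a : ∃ t, chk3 f_pp_022_a t 1 1 1 = true := ex3_a s3_pp_022_a k2_pp_022_a

theorem c_pp_022_a : CertB 0 536870912 0 536870912 697932185 42949674 3 eng mog cd1q0 cd1q2a pd2 false true true .pp 0 2 2
    ndB1q0 ndB1q2a pcB2 cut_pp_022_a Ext.none :=
  certB2 (fam := false) (s1 := true) (s2 := true) (a := 0) (b := 2) (c := 2) (cn := .pp) (n1 := ndB1q0) (n2 := ndB1q2a) (pc := pcB2) (cut := cut_pp_022_a) (xt := Ext.none) (P1 := 0) (W1 := 536870912) (P2 := 0) (W2 := 536870912) (P3 := 697932185) (W3 := 42949674) (N0 := 3) (En := eng) (mo := mog) (C1 := cd1q0) (C2 := cd1q2a) (C3 := pd2)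
    rfl (fun _ => rfl) s4_pp_022_a

noncomputable def cut_pp_022_b : Cut := Cut.of [[⟨0, 0, 0, 67108864⟩, ⟨1, 1, 0, 67108864⟩, ⟨2, 1, 0, 67108864⟩]]

noncomputable def f_pp_022_b : ℕ → ℕ → ℕ → ℕ → Bool := onCell 0 536870912 1073741824 536870912 697932185 42949674
    (rowB 3 eng mog cd1q0 cd1q2b pd2 1 false true true .pp 0 2 2 (qsf 0 536870912 1239849684 370763052 2) ndB1q0 ndB1q2b pcB2 cut_pp_022_b Ext.none)

def k0_pp_022_b : ∃ t, chk3 f_pp_022_b t 1 1 1 = true :=
  ⟨(b (a (b (a (b (a (l 1) (b (l 150893928519) (a (l 16537544) (l 16479328)))) (b (a (a (l 1) (l 151430676823)) (a (l 16472568) (l 16408096))) (a (a (l 168073650455) (l 16463688)) (l 16432408)))) (b (a (b (l 16446096) (l 16464640)) (l 16402048)) (a (l 16393096) (l 16196536)))) (a (b (a (b (b (a (l 16470120) (l 16408784)) (l 16498504)) (b (l 16473336) (l 16406280))) (b (l 16323120) (b (l 16316560) (l 16232848)))) (a (a (b (l 16315808) (l 16244168)) (l 16244544)) (l 16313096))) (b (a (b (l 16201896)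 (l 16174848)) (b (l 16127392) (l 16091040))) (a (l 16119232) (l 16079464))))) (b (a (b (a (l 16209584) (l 16156744)) (a (l 16135976) (l 16105904))) (b (l 16135400) (l 16110200))) (b (a (a (l 16074480) (l 16066360)) (l 16095648)) (a (l 16083400) (l 2))))) (b (a (a (b (a (a (l 16152376) (l 16131816)) (l 16096784)) (a (b (l 16071408) (l 16037464)) (l 16036152))) (b (l 16059496) (l 16008184))) (b (a (l 16098040) (l 2)) (l 2))) (a (a (b (a (l 16007136) (l 16025112)) (a (l 15995000) (l 16036664))) (b (l 16060984) (l 2))) (l 2)))), by decide +kernel⟩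

theorem c_pp_022_b : CertB 0 536870912 1239849684 370763052 697932185 42949674 3 eng mog cd1q0 cd1q2b pd2 false true true .pp 0 2 2
    ndB1q0 ndB1q2b pcB2 cut_pp_022_b Ext.none :=
  certB1 (fam := false) (s1 := true) (s2 := true) (a := 0) (b := 2) (c := 2) (cn := .pp) (n1 := ndB1q0) (n2 := ndB1q2b) (pc := pcB2) (cut := cut_pp_022_b) (xt := Ext.none) (P1 := 0) (W1 := 536870912) (P2 := 1239849684) (W2 := 370763052) (P3 := 697932185) (W3 := 42949674) (N0 := 3) (En := eng) (mo := mog) (C1 := cd1q0) (C2 := cd1q2b) (C3 := pd2)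
    rfl (fun _ => rfl) k0_pp_022_b

noncomputable def f_pp_023 : ℕ → ℕ → ℕ → ℕ → Bool := onCell 0 536870912 1073741824 536870912 697932185 42949674
    (rowB 3 eng mog cd1q0 cd1q3 pd2 1 false true true .up 0 2 3 (qsf 0 536870912 1610612736 536870912 2) ndB1q0 ndB1q3 pcB2 Cut.none Ext.none)

def k0_pp_023 : ∃ t, chk3 f_pp_023 t 1 1 1 = true :=
  ⟨(b (a (b (l 1) (a (l 1) (b (l 1) (l 316249485047)))) (b (a (b (l 1) (l 16326776)) (b (l 16134256) (l 16110608))) (a (b (l 204043583431) (l 16083672)) (b (l 16097944) (l 16159728))))) (b (a (a (b (l 1) (l 417717710567)) (b (l 16037264) (l 16007544))) (b (a (l 16100536) (l 16229624)) (a (l 16102480) (l 16332600)))) (a (a (b (l 385505656455) (l 422549682487)) (b (l 16057424) (l 16107248))) (b (l 16115704) (l 16462312))))), by decide +kernel⟩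

theorem c_pp_023 : CertB 0 536870912 1610612736 536870912 697932185 42949674 3 eng mog cd1q0 cd1q3 pd2 false true true .up 0 2 3
    ndB1q0 ndB1q3 pcB2 Cut.none Ext.none :=
  certB1 (fam := false) (s1 := true) (s2 := true) (a := 0) (b := 2) (c := 3) (cn := .up) (n1 := ndB1q0) (n2 := ndB1q3) (pc := pcB2) (cut := Cut.none) (xt := Ext.none) (P1 := 0) (W1 := 536870912) (P2 := 1610612736) (W2 := 536870912) (P3 := 697932185) (W3 := 42949674) (N0 := 3) (En := eng) (mo := mog) (C1 := cd1q0) (C2 := cd1q3) (C3 := pd2)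
    rfl (fun _ => rfl) k0_pp_023

noncomputable def f_pp_033 : ℕ → ℕ → ℕ → ℕ → Bool := onCell 0 536870912 1610612736 536870912 697932185 42949674
    (rowB 3 eng mog cd1q0 cd1q3 pd3 1 false true true .pnn 0 3 3 (qsf 0 536870912 1610612736 536870912 3) ndB1q0 ndB1q3 pcB3 Cut.none Ext.none)

def k0_pp_033 : ∃ t, chk3 f_pp_033 t 1 1 1 = true :=
  ⟨(a (b (b (b (a (l 15998904) (l 16127904)) (a (l 15974936) (l 16204944))) (b (a (l 16048016) (l 16282888)) (l 4))) (b (l 4) (a (l 4) (a (b (l 4) (l 2)) (l 2))))) (b (b (b (l 16516168) (l 16550704)) (a (b (l 16503752) (l 4)) (a (b (l 16625864) (l 2)) (l 2)))) (a (b (a (b (l 4) (l 2)) (l 2)) (l 2)) (l 2)))), by decide +kernel⟩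

theorem c_pp_033 : CertB 0 536870912 1610612736 536870912 697932185 42949674 3 eng mog cd1q0 cd1q3 pd3 false true true .pnn 0 3 3
    ndB1q0 ndB1q3 pcB3 Cut.none Ext.none :=
  certB1 (fam := false) (s1 := true) (s2 := true) (a := 0) (b := 3) (c := 3) (cn := .pnn) (n1 := ndB1q0) (n2 := ndB1q3) (pc := pcB3) (cut := Cut.none) (xt := Ext.none) (P1 := 0) (W1 := 536870912) (P2 := 1610612736) (W2 := 536870912) (P3 := 697932185) (W3 := 42949674) (N0 := 3) (En := eng) (mo := mog) (C1 := cd1q0) (C2 := cd1q3) (C3 := pd3)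
    rfl (fun _ => rfl) k0_pp_033

noncomputable def f_pp_101 : ℕ → ℕ → ℕ → ℕ → Bool := onCell 536870912 536870912 536870912 536870912 697932185 42949674
    (rowB 3 eng mog cd1q1 cd1q1 pd0 0 false true true .npn 1 0 1 (qsf 536870912 536870912 536870912 536870912 0) ndB1q1 ndB1q1 pcB0 Cut.none Ext.none)

def k0_pp_101 : ∃ t, chk3 f_pp_101 t 1 1 1 = true :=
  ⟨(l 3), by decide +kernel⟩

theorem c_pp_101 : CertB 536870912 536870912 536870912 536870912 697932185 42949674 3 eng mog cd1q1 cd1q1 pd0 false true true .npn 1 0 1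
    ndB1q1 ndB1q1 pcB0 Cut.none Ext.none :=
  certB0 (fam := false) (s1 := true) (s2 := true) (a := 1) (b := 0) (c := 1) (cn := .npn) (n1 := ndB1q1) (n2 := ndB1q1) (pc := pcB0) (cut := Cut.none) (xt := Ext.none) (P1 := 536870912) (W1 := 536870912) (P2 := 536870912) (W2 := 536870912) (P3 := 697932185) (W3 := 42949674) (N0 := 3) (En := eng) (mo := mog) (C1 := cd1q1) (C2 := cd1q1) (C3 := pd0)
    rfl k0_pp_101

noncomputable def f_pp_102_a : ℕ → ℕ → ℕ → ℕ → Bool := onCell 0 536870912 0 536870912 697932185 42949674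
    (rowB 3 eng mog cd1q1 cd1q2a pd0 2 false true true .npp 1 0 2 (qsf 536870912 536870912 0 536870912 0) ndB1q1 ndB1q2a pcB0 Cut.none Ext.none)

def k0_pp_102_a : ∃ t, chk3 f_pp_102_a t 1 1 1 = true :=
  ⟨(a (a (l 3) (l 3)) (l 3)), by decide +kernel⟩

theorem c_pp_102_a : CertB 536870912 536870912 0 536870912 697932185 42949674 3 eng mog cd1q1 cd1q2a pd0 false true true .npp 1 0 2
    ndB1q1 ndB1q2a pcB0 Cut.none Ext.none :=
  certB2 (fam := false) (s1 := true) (s2 := true) (a := 1) (b := 0) (c := 2) (cn := .npp) (n1 := ndB1q1) (n2 := ndB1q2a) (pc := pcB0) (cut := Cut.none) (xt := Ext.none) (P1 := 536870912) (W1 := 536870912) (P2 := 0) (W2 := 536870912) (P3 := 697932185) (W3 := 42949674) (N0 := 3) (En := eng) (mo := mog) (C1 := cd1q1) (C2 := cd1q2a) (C3 := pd0)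
    rfl (fun _ => rfl) k0_pp_102_a

noncomputable def f_pp_102_b : ℕ → ℕ → ℕ → ℕ → Bool := onCell 0 536870912 1239849684 370763052 697932185 42949674
    (rowB 3 eng mog cd1q1 cd1q2b pd0 2 false true true .npp 1 0 2 (qsf 536870912 536870912 1239849684 370763052 0) ndB1q1 ndB1q2b pcB0 Cut.none Ext.none)

def k0_pp_102_b : ∃ t, chk3 f_pp_102_b t 1 1 1 = true :=
  ⟨(a (l 3) (b (l 3) (l 3))), by decide +kernel⟩

theorem c_pp_102_b : CertB 536870912 536870912 1239849684 370763052 697932185 42949674 3 eng mog cd1q1 cd1q2b pd0 false true true .npp 1 0 2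
    ndB1q1 ndB1q2b pcB0 Cut.none Ext.none :=
  certB2 (fam := false) (s1 := true) (s2 := true) (a := 1) (b := 0) (c := 2) (cn := .npp) (n1 := ndB1q1) (n2 := ndB1q2b) (pc := pcB0) (cut := Cut.none) (xt := Ext.none) (P1 := 536870912) (W1 := 536870912) (P2 := 1239849684) (W2 := 370763052) (P3 := 697932185) (W3 := 42949674) (N0 := 3) (En := eng) (mo := mog) (C1 := cd1q1) (C2 := cd1q2b) (C3 := pd0)
    rfl (fun _ => rfl) k0_pp_102_b

noncomputable def f_pp_112_a : ℕ → ℕ → ℕ → ℕ → Bool := onCell 536870912 536870912 0 536870912 697932185 42949674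
    (rowB 3 eng mog cd1q1 cd1q2a pd1 0 false true true .dn 1 1 2 (qsf 536870912 536870912 0 536870912 1) ndB1q1 ndB1q2a pcB1 Cut.none Ext.none)

def k0_pp_112_a : ∃ t, chk3 f_pp_112_a t 1 1 1 = true :=
  ⟨(a (b (b (a (a (b (a (b (a (b (l 16716528) (l 16723472)) (l 16729600)) (a (l 16732872) (b (l 16736888) (a (l 16736816) (b (l 16736800) (l 143512214807)))))) (b (a (l 16736704) (b (l 16738600) (a (l 16738616) (l 130627318439)))) (a (b (a (l 16738088) (b (l 16737712) (l 146733445143))) (b (a (l 145122830071) (l 3)) (l 3))) (b (a (b (l 147270318151) (l 3)) (l 3)) (l 3))))) (a (b (a (b (a (l 16734544) (b (l 16735064) (b (l 111836833527) (l 162839564599)))) (b (a (b (l 106468122263) (l 164450174935)) (l 3)) (l 3))) (b (a (b (b (l 117742415975) (l 161765824855)) (l 3)) (l 3)) (l 3))) (l 3)) (l 3))) (a (b (b (a (b (a (l 16738520) (l 130627321783)) (a (l 160155216375) (l 3))) (b (a (l 159081474199) (l 3)) (l 3))) (l 3)) (l 3)) (l 3))) (l 3)) (l 3)) (l 3)) (l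 1)), by decide +kernel⟩

theorem c_pp_112_a : CertB 536870912 536870912 0 536870912 697932185 42949674 3 eng mog cd1q1 cd1q2a pd1 false true true .dn 1 1 2
    ndB1q1 ndB1q2a pcB1 Cut.none Ext.none :=
  certB0 (fam := false) (s1 := true) (s2 := true) (a := 1) (b := 1) (c := 2) (cn := .dn) (n1 := ndB1q1) (n2 := ndB1q2a) (pc := pcB1) (cut := Cut.none) (xt := Ext.none) (P1 := 536870912) (W1 := 536870912) (P2 := 0) (W2 := 536870912) (P3 := 697932185) (W3 := 42949674) (N0 := 3) (En := eng) (mo := mog) (C1 := cd1q1) (C2 := cd1q2a) (C3 := pd1)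
    rfl k0_pp_112_a

noncomputable def f_pp_112_b : ℕ → ℕ → ℕ → ℕ → Bool := onCell 536870912 536870912 1239849684 370763052 697932185 42949674
    (rowB 3 eng mog cd1q1 cd1q2b pd1 2 false true true .dn 1 1 2 (qsf 536870912 536870912 1239849684 370763052 1) ndB1q1 ndB1q2b pcB1 Cut.none Ext.none)

def k0_pp_112_b : ∃ t, chk3 f_pp_112_b t 1 1 1 = true :=
  ⟨(a (a (b (b (a (l 3) (a (b (a (b (a (l 173040130663) (l 16731296)) (l 3)) (b (l 16733584) (l 16721752))) (l 167134538567)) (b (a (l 16727392) (l 16722920)) (a (l 16705008) (l 16704664))))) (a (l 3) (a (l 3) (b (l 16680032) (l 3))))) (a (l 3) (l 3))) (a (b (b (a (b (a (l 16714576) (l 16704936)) (l 16695576)) (b (l 16685520) (l 16675056))) (a (a (l 16673056) (l 16672128)) (b (l 16664192) (l 16657088)))) (b (a (a (l 3) (l 156397201271)) (b (l 16648896) (l 111300086535))) (a (l 3) (b (l 137606750231) (l 3))))) (b (a (b (l 122440020087) (b (l 16638192) (l 16634824))) (b (l 139082942823) (l 16601664))) (b (a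 (a (l 16640688) (l 16631264)) (b (l 16607288) (l 16618320))) (a (b (l 100562689175) (l 144586089095)) (b (l 16635552) (l 16697136))))))) (a (b (b (l 1) (a (a (l 16561864) (l 16517928)) (a (l 136935171223) (l 1)))) (b (a (l 16550392) (a (l 16470888) (l 16416104))) (a (a (b (l 16609088) (l 16644304)) (b (l 16562184) (l 16606216))) (l 16489616)))) (b (l 1) (a (b (l 131566264839) (l 16358912)) (b (l 1) (l 16235600)))))), by decide +kernel⟩

theorem c_pp_112_b : CertB 536870912 536870912 1239849684 370763052 697932185 42949674 3 eng mog cd1q1 cd1q2b pd1 false true true .dn 1 1 2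
    ndB1q1 ndB1q2b pcB1 Cut.none Ext.none :=
  certB2 (fam := false) (s1 := true) (s2 := true) (a := 1) (b := 1) (c := 2) (cn := .dn) (n1 := ndB1q1) (n2 := ndB1q2b) (pc := pcB1) (cut := Cut.none) (xt := Ext.none) (P1 := 536870912) (W1 := 536870912) (P2 := 1239849684) (W2 := 370763052) (P3 := 697932185) (W3 := 42949674) (N0 := 3) (En := eng) (mo := mog) (C1 := cd1q1) (C2 := cd1q2b) (C3 := pd1)
    rfl (fun _ => rfl) k0_pp_112_b

noncomputable def f_pp_113 : ℕ → ℕ → ℕ → ℕ → Bool := onCell 536870912 536870912 536870912 536870912 697932185 42949674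
    (rowB 3 eng mog cd1q1 cd1q3 pd1 1 false true true .nn 1 1 3 (qsf 536870912 536870912 1610612736 536870912 1) ndB1q1 ndB1q3 pcB1 Cut.none Ext.none)

def k0_pp_113 : ∃ t, chk3 f_pp_113 t 1 1 1 = true :=
  ⟨(b (b (a (l 1) (l 3)) (a (b (l 1) (a (l 1) (b (l 1) (a (l 1) (l 16644544))))) (a (b (l 3) (a (b (l 153175776023) (l 152102098855)) (l 3))) (l 3)))) (b (a (b (a (l 1) (b (a (l 1) (l 16649568)) (a (l 16576328) (l 16657896)))) (a (l 104723072903) (l 16597008))) (b (a (b (a (l 16714928) (a (l 16755280) (l 3))) (a (l 16767648) (a (l 16857272) (l 189683036983)))) (a (l 3) (l 3))) (a (b (a (l 16829656) (l 16796584)) (a (l 16901864) (l 17037376))) (a (b (a (l 16834360) (l 3)) (a (l 16904840) (l 212231558807))) (b (l 3) (a (l 346986358599) (l 3))))))) (a (a (b (l 86469213703) (l 16283200)) (b (l 16588104) (l 16599776))) (b (a (b (a (l 16851208) (l 16954160)) (l 16844456)) (a (b (a (l 16967456) (l 16886800)) (l 16846336)) (b (a (l 228337632231) (l 374366760391))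 (a (l 16853312) (b (l 16785168) (l 16796400)))))) (b (a (l 16790928) (a (l 16875448) (a (l 16871712) (l 16806304)))) (a (l 16743864) (a (l 16815584) (a (l 16823984) (l 16809736))))))))), by decide +kernel⟩

theorem c_pp_113 : CertB 536870912 536870912 1610612736 536870912 697932185 42949674 3 eng mog cd1q1 cd1q3 pd1 false true true .nn 1 1 3
    ndB1q1 ndB1q3 pcB1 Cut.none Ext.none :=
  certB1 (fam := false) (s1 := true) (s2 := true) (a := 1) (b := 1) (c := 3) (cn := .nn) (n1 := ndB1q1) (n2 := ndB1q3) (pc := pcB1) (cut := Cut.none) (xt := Ext.none) (P1 := 536870912) (W1 := 536870912) (P2 := 1610612736) (W2 := 536870912) (P3 := 697932185) (W3 := 42949674) (N0 := 3) (En := eng) (mo := mog) (C1 := cd1q1) (C2 := cd1q3) (C3 := pd1)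
    rfl (fun _ => rfl) k0_pp_113

noncomputable def f_pp_123 : ℕ → ℕ → ℕ → ℕ → Bool := onCell 1073741824 536870912 1610612736 536870912 697932185 42949674
    (rowB 3 eng mog cd1q1 cd1q3 pd2 2 false true true .npn 1 2 3 (qsf 536870912 536870912 1610612736 536870912 2) ndB1q1 ndB1q3 pcB2 Cut.none Ext.none)

def k0_pp_123 : ∃ t, chk3 f_pp_123 t 1 1 1 = true :=
  ⟨(a (a (b (b (a (l 16196696) (l 16152352)) (a (l 16460264) (l 16299952))) (b (a (a (l 16664360) (l 16568672)) (l 16486384)) (a (b (l 16706736) (a (l 16755656) (l 16701552))) (b (l 16562952) (l 16599888))))) (b (a (b (l 181495149607) (l 16208456)) (b (l 1) (l 16230872))) (a (b (a (l 16402488) (l 16364200)) (a (b (l 16476376) (a (l 16536808) (l 16511248))) (l 16699904))) (b (l 16377248) (l 16636848))))) (a (b (a (b (l 1) (l 16286944)) (l 1)) (b (a (l 16395272) (l 16419672)) (a (l 16515008) (l 16534672)))) (b (l 1) (b (l 16504160) (l 138546408071))))), by decide +kernel⟩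

theorem c_pp_123 : CertB 536870912 536870912 1610612736 536870912 697932185 42949674 3 eng mog cd1q1 cd1q3 pd2 false true true .npn 1 2 3
    ndB1q1 ndB1q3 pcB2 Cut.none Ext.none :=
  certB2 (fam := false) (s1 := true) (s2 := true) (a := 1) (b := 2) (c := 3) (cn := .npn) (n1 := ndB1q1) (n2 := ndB1q3) (pc := pcB2) (cut := Cut.none) (xt := Ext.none) (P1 := 536870912) (W1 := 536870912) (P2 := 1610612736) (W2 := 536870912) (P3 := 697932185) (W3 := 42949674) (N0 := 3) (En := eng) (mo := mog) (C1 := cd1q1) (C2 := cd1q3) (C3 := pd2)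
    rfl (fun _ => rfl) k0_pp_123

noncomputable def f_pp_133 : ℕ → ℕ → ℕ → ℕ → Bool := onCell 1610612736 536870912 1610612736 536870912 697932185 42949674
    (rowB 3 eng mog cd1q1 cd1q3 pd3 2 false true true .dn 1 3 3 (qsf 536870912 536870912 1610612736 536870912 3) ndB1q1 ndB1q3 pcB3 Cut.none Ext.none)

def k0_pp_133 : ∃ t, chk3 f_pp_133 t 1 1 1 = true :=
  ⟨(a (b (l 1) (a (b (l 1) (l 16606208)) (l 1))) (l 1)), by decide +kernel⟩

theorem c_pp_133 : CertB 536870912 536870912 1610612736 536870912 697932185 42949674 3 eng mog cd1q1 cd1q3 pd3 false true true .dn 1 3 3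
    ndB1q1 ndB1q3 pcB3 Cut.none Ext.none :=
  certB2 (fam := false) (s1 := true) (s2 := true) (a := 1) (b := 3) (c := 3) (cn := .dn) (n1 := ndB1q1) (n2 := ndB1q3) (pc := pcB3) (cut := Cut.none) (xt := Ext.none) (P1 := 536870912) (W1 := 536870912) (P2 := 1610612736) (W2 := 536870912) (P3 := 697932185) (W3 := 42949674) (N0 := 3) (En := eng) (mo := mog) (C1 := cd1q1) (C2 := cd1q3) (C3 := pd3)
    rfl (fun _ => rfl) k0_pp_133

noncomputable def f_pp_202_aa : ℕ → ℕ → ℕ → ℕ → Bool := onCell 0 536870912 0 536870912 697932185 42949674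
    (rowB 3 eng mog cd1q2a cd1q2a pd0 0 false true true .pp 2 0 2 (qsf 0 536870912 0 536870912 0) ndB1q2a ndB1q2a pcB0 Cut.none Ext.none)

def k0_pp_202_aa : ∃ t, chk3 f_pp_202_aa t 1 1 1 = true :=
  ⟨(l 3), by decide +kernel⟩

theorem c_pp_202_aa : CertB 0 536870912 0 536870912 697932185 42949674 3 eng mog cd1q2a cd1q2a pd0 false true true .pp 2 0 2
    ndB1q2a ndB1q2a pcB0 Cut.none Ext.none :=
  certB0 (fam := false) (s1 := true) (s2 := true) (a := 2) (b := 0) (c := 2) (cn := .pp) (n1 := ndB1q2a) (n2 := ndB1q2a) (pc := pcB0) (cut := Cut.none) (xt := Ext.none) (P1 := 0) (W1 := 536870912) (P2 := 0) (W2 := 536870912) (P3 := 697932185) (W3 := 42949674) (N0 := 3) (En := eng) (mo := mog) (C1 := cd1q2a) (C2 := cd1q2a) (C3 := pd0)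
    rfl k0_pp_202_aa

noncomputable def f_pp_202_ab : ℕ → ℕ → ℕ → ℕ → Bool := onCell 0 536870912 1239849684 370763052 697932185 42949674
    (rowB 3 eng mog cd1q2a cd1q2b pd0 0 false true true .pp 2 0 2 (qsf 0 536870912 1239849684 370763052 0) ndB1q2a ndB1q2b pcB0 Cut.none Ext.none)

def k0_pp_202_ab : ∃ t, chk3 f_pp_202_ab t 1 1 1 = true :=
  ⟨(l 3), by decide +kernel⟩

theorem c_pp_202_ab : CertB 0 536870912 1239849684 370763052 697932185 42949674 3 eng mog cd1q2a cd1q2b pd0 false true true .pp 2 0 2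
    ndB1q2a ndB1q2b pcB0 Cut.none Ext.none :=
  certB0 (fam := false) (s1 := true) (s2 := true) (a := 2) (b := 0) (c := 2) (cn := .pp) (n1 := ndB1q2a) (n2 := ndB1q2b) (pc := pcB0) (cut := Cut.none) (xt := Ext.none) (P1 := 0) (W1 := 536870912) (P2 := 1239849684) (W2 := 370763052) (P3 := 697932185) (W3 := 42949674) (N0 := 3) (En := eng) (mo := mog) (C1 := cd1q2a) (C2 := cd1q2b) (C3 := pd0)
    rfl k0_pp_202_ab

noncomputable def f_pp_202_ba : ℕ → ℕ → ℕ → ℕ → Bool := onCell 1239849684 370763052 0 536870912 697932185 42949674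
    (rowB 3 eng mog cd1q2b cd1q2a pd0 0 false true true .pp 2 0 2 (qsf 1239849684 370763052 0 536870912 0) ndB1q2b ndB1q2a pcB0 Cut.none Ext.none)

def k0_pp_202_ba : ∃ t, chk3 f_pp_202_ba t 1 1 1 = true :=
  ⟨(l 3), by decide +kernel⟩

theorem c_pp_202_ba : CertB 1239849684 370763052 0 536870912 697932185 42949674 3 eng mog cd1q2b cd1q2a pd0 false true true .pp 2 0 2
    ndB1q2b ndB1q2a pcB0 Cut.none Ext.none :=
  certB0 (fam := false) (s1 := true) (s2 := true) (a := 2) (b := 0) (c := 2) (cn := .pp) (n1 := ndB1q2b) (n2 := ndB1q2a) (pc := pcB0) (cut := Cut.none) (xt := Ext.none) (P1 := 1239849684) (W1 := 370763052) (P2 := 0) (W2 := 536870912) (P3 := 697932185) (W3 := 42949674) (N0 := 3) (En := eng) (mo := mog) (C1 := cd1q2b) (C2 := cd1q2a) (C3 := pd0)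
    rfl k0_pp_202_ba

noncomputable def f_pp_202_bb : ℕ → ℕ → ℕ → ℕ → Bool := onCell 1239849684 370763052 1239849684 370763052 697932185 42949674
    (rowB 3 eng mog cd1q2b cd1q2b pd0 0 false true true .pp 2 0 2 (qsf 1239849684 370763052 1239849684 370763052 0) ndB1q2b ndB1q2b pcB0 Cut.none Ext.none)

def k0_pp_202_bb : ∃ t, chk3 f_pp_202_bb t 1 1 1 = true :=
  ⟨(l 3), by decide +kernel⟩

theorem c_pp_202_bb : CertB 1239849684 370763052 1239849684 370763052 697932185 42949674 3 eng mog cd1q2b cd1q2b pd0 false true true .pp 2 0 2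
    ndB1q2b ndB1q2b pcB0 Cut.none Ext.none :=
  certB0 (fam := false) (s1 := true) (s2 := true) (a := 2) (b := 0) (c := 2) (cn := .pp) (n1 := ndB1q2b) (n2 := ndB1q2b) (pc := pcB0) (cut := Cut.none) (xt := Ext.none) (P1 := 1239849684) (W1 := 370763052) (P2 := 1239849684) (W2 := 370763052) (P3 := 697932185) (W3 := 42949674) (N0 := 3) (En := eng) (mo := mog) (C1 := cd1q2b) (C2 := cd1q2b) (C3 := pd0)
    rfl k0_pp_202_bb

noncomputable def f_pp_203_a : ℕ → ℕ → ℕ → ℕ → Bool := onCell 0 536870912 0 536870912 697932185 42949674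
    (rowB 3 eng mog cd1q2a cd1q3 pd0 1 false true true .up 2 0 3 (qsf 0 536870912 1610612736 536870912 0) ndB1q2a ndB1q3 pcB0 Cut.none Ext.none)

def k0_pp_203_a : ∃ t, chk3 f_pp_203_a t 1 1 1 = true :=
  ⟨(l 3), by decide +kernel⟩

theorem c_pp_203_a : CertB 0 536870912 1610612736 536870912 697932185 42949674 3 eng mog cd1q2a cd1q3 pd0 false true true .up 2 0 3
    ndB1q2a ndB1q3 pcB0 Cut.none Ext.none :=
  certB1 (fam := false) (s1 := true) (s2 := true) (a := 2) (b := 0) (c := 3) (cn := .up) (n1 := ndB1q2a) (n2 := ndB1q3) (pc := pcB0) (cut := Cut.none) (xt := Ext.none) (P1 := 0) (W1 := 536870912) (P2 := 1610612736) (W2 := 536870912) (P3 := 697932185) (W3 := 42949674) (N0 := 3) (En := eng) (mo := mog) (C1 := cd1q2a) (C2 := cd1q3) (C3 := pd0)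
    rfl (fun _ => rfl) k0_pp_203_a

noncomputable def f_pp_203_b : ℕ → ℕ → ℕ → ℕ → Bool := onCell 1239849684 370763052 1610612736 536870912 697932185 42949674
    (rowB 3 eng mog cd1q2b cd1q3 pd0 0 false true true .up 2 0 3 (qsf 1239849684 370763052 1610612736 536870912 0) ndB1q2b ndB1q3 pcB0 Cut.none Ext.none)

def k0_pp_203_b : ∃ t, chk3 f_pp_203_b t 1 1 1 = true :=
  ⟨(l 3), by decide +kernel⟩

theorem c_pp_203_b : CertB 1239849684 370763052 1610612736 536870912 697932185 42949674 3 eng mog cd1q2b cd1q3 pd0 false true true .up 2 0 3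
    ndB1q2b ndB1q3 pcB0 Cut.none Ext.none :=
  certB0 (fam := false) (s1 := true) (s2 := true) (a := 2) (b := 0) (c := 3) (cn := .up) (n1 := ndB1q2b) (n2 := ndB1q3) (pc := pcB0) (cut := Cut.none) (xt := Ext.none) (P1 := 1239849684) (W1 := 370763052) (P2 := 1610612736) (W2 := 536870912) (P3 := 697932185) (W3 := 42949674) (N0 := 3) (En := eng) (mo := mog) (C1 := cd1q2b) (C2 := cd1q3) (C3 := pd0)
    rfl k0_pp_203_b

noncomputable def cut_pp_213_a : Cut := Cut.of [[⟨0, 1, 0, 67108864⟩, ⟨1, 1, 0, 67108864⟩, ⟨2, 2, 0, 16777216⟩]]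

noncomputable def f_pp_213_a : ℕ → ℕ → ℕ → ℕ → Bool := onCell 0 536870912 1610612736 536870912 697932185 42949674
    (rowB 3 eng mog cd1q2a cd1q3 pd1 0 false true true .pnn 2 1 3 (qsf 0 536870912 1610612736 536870912 1) ndB1q2a ndB1q3 pcB1 cut_pp_213_a Ext.none)

def k0_pp_213_a : ∃ t, chk3 f_pp_213_a t 1 1 1 = true :=
  ⟨(b (l 3) (a (l 3) (b (l 3) (a (l 3) (b (l 3) (a (l 3) (b (l 3) (b (l 3) (b (l 3) (l 6)))))))))), by decide +kernel⟩

theorem c_pp_213_a : CertB 0 536870912 1610612736 536870912 697932185 42949674 3 eng mog cd1q2a cd1q3 pd1 false true true .pnn 2 1 3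
    ndB1q2a ndB1q3 pcB1 cut_pp_213_a Ext.none :=
  certB0 (fam := false) (s1 := true) (s2 := true) (a := 2) (b := 1) (c := 3) (cn := .pnn) (n1 := ndB1q2a) (n2 := ndB1q3) (pc := pcB1) (cut := cut_pp_213_a) (xt := Ext.none) (P1 := 0) (W1 := 536870912) (P2 := 1610612736) (W2 := 536870912) (P3 := 697932185) (W3 := 42949674) (N0 := 3) (En := eng) (mo := mog) (C1 := cd1q2a) (C2 := cd1q3) (C3 := pd1)
    rfl k0_pp_213_a

noncomputable def cut_pp_213_b : Cut := Cut.of [[⟨0, 1, 0, 67108864⟩, ⟨1, 1, 0, 67108864⟩, ⟨2, 2, 0, 16777216⟩]]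

noncomputable def f_pp_213_b : ℕ → ℕ → ℕ → ℕ → Bool := onCell 1239849684 370763052 1610612736 536870912 697932185 42949674
    (rowB 3 eng mog cd1q2b cd1q3 pd1 0 false true true .pnn 2 1 3 (qsf 1239849684 370763052 1610612736 536870912 1) ndB1q2b ndB1q3 pcB1 cut_pp_213_b Ext.none)

def k0_pp_213_b : ∃ t, chk3 f_pp_213_b t 1 1 1 = true :=
  ⟨(l 3), by decide +kernel⟩

theorem c_pp_213_b : CertB 1239849684 370763052 1610612736 536870912 697932185 42949674 3 eng mog cd1q2b cd1q3 pd1 false true true .pnn 2 1 3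
    ndB1q2b ndB1q3 pcB1 cut_pp_213_b Ext.none :=
  certB0 (fam := false) (s1 := true) (s2 := true) (a := 2) (b := 1) (c := 3) (cn := .pnn) (n1 := ndB1q2b) (n2 := ndB1q3) (pc := pcB1) (cut := cut_pp_213_b) (xt := Ext.none) (P1 := 1239849684) (W1 := 370763052) (P2 := 1610612736) (W2 := 536870912) (P3 := 697932185) (W3 := 42949674) (N0 := 3) (En := eng) (mo := mog) (C1 := cd1q2b) (C2 := cd1q3) (C3 := pd1)
    rfl k0_pp_213_b

noncomputable def f_pp_303 : ℕ → ℕ → ℕ → ℕ → Bool := onCell 1610612736 536870912 1610612736 536870912 697932185 42949674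
    (rowB 3 eng mog cd1q3 cd1q3 pd0 0 false true true .npn 3 0 3 (qsf 1610612736 536870912 1610612736 536870912 0) ndB1q3 ndB1q3 pcB0 Cut.none Ext.none)

def k0_pp_303 : ∃ t, chk3 f_pp_303 t 1 1 1 = true :=
  ⟨(l 3), by decide +kernel⟩

theorem c_pp_303 : CertB 1610612736 536870912 1610612736 536870912 697932185 42949674 3 eng mog cd1q3 cd1q3 pd0 false true true .npn 3 0 3
    ndB1q3 ndB1q3 pcB0 Cut.none Ext.none :=
  certB0 (fam := false) (s1 := true) (s2 := true) (a := 3) (b := 0) (c := 3) (cn := .npn) (n1 := ndB1q3) (n2 := ndB1q3) (pc := pcB0) (cut := Cut.none) (xt := Ext.none) (P1 := 1610612736) (W1 := 536870912) (P2 := 1610612736) (W2 := 536870912) (P3 := 697932185) (W3 := 42949674) (N0 := 3) (En := eng) (mo := mog) (C1 := cd1q3) (C2 := cd1q3) (C3 := pd0)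
    rfl k0_pp_303

noncomputable def f_pp_313 : ℕ → ℕ → ℕ → ℕ → Bool := onCell 1610612736 536870912 1610612736 536870912 697932185 42949674
    (rowB 3 eng mog cd1q3 cd1q3 pd1 0 false true true .dn 3 1 3 (qsf 1610612736 536870912 1610612736 536870912 1) ndB1q3 ndB1q3 pcB1 Cut.none Ext.none)

def k0_pp_313 : ∃ t, chk3 f_pp_313 t 1 1 1 = true :=
  ⟨(l 3), by decide +kernel⟩

theorem c_pp_313 : CertB 1610612736 536870912 1610612736 536870912 697932185 42949674 3 eng mog cd1q3 cd1q3 pd1 false true true .dn 3 1 3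
    ndB1q3 ndB1q3 pcB1 Cut.none Ext.none :=
  certB0 (fam := false) (s1 := true) (s2 := true) (a := 3) (b := 1) (c := 3) (cn := .dn) (n1 := ndB1q3) (n2 := ndB1q3) (pc := pcB1) (cut := Cut.none) (xt := Ext.none) (P1 := 1610612736) (W1 := 536870912) (P2 := 1610612736) (W2 := 536870912) (P3 := 697932185) (W3 := 42949674) (N0 := 3) (En := eng) (mo := mog) (C1 := cd1q3) (C2 := cd1q3) (C3 := pd1)
    rfl k0_pp_313

noncomputable def f_pm_001 : ℕ → ℕ → ℕ → ℕ → Bool := onCell 0 536870912 0 536870912 697932185 42949674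
    (rowB 3 eng mog cd1q0 cd1q1 pd0 1 false true false .up 0 0 1 (qsf 0 536870912 536870912 536870912 0) ndB1q0 ndB1q1 pcB0 Cut.none Ext.none)

def k0_pm_001 : ∃ t, chk3 f_pm_001 t 1 1 1 = true :=
  ⟨(a (l 4) (a (l 4) (b (l 4) (b (b (l 4) (a (l 4) (b (l 4) (a (l 4) (l 16524648))))) (b (a (l 4) (b (a (l 4) (l 16393712)) (a (l 16461840) (l 16316688)))) (a (a (l 4) (b (l 16487416) (b (l 16403496) (l 16378264)))) (b (a (l 16395184) (l 16281152)) (a (l 16313424) (b (l 16258024) (l 16248136)))))))))), by decide +kernel⟩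

theorem c_pm_001 : CertB 0 536870912 536870912 536870912 697932185 42949674 3 eng mog cd1q0 cd1q1 pd0 false true false .up 0 0 1
    ndB1q0 ndB1q1 pcB0 Cut.none Ext.none :=
  certB1 (fam := false) (s1 := true) (s2 := false) (a := 0) (b := 0) (c := 1) (cn := .up) (n1 := ndB1q0) (n2 := ndB1q1) (pc := pcB0) (cut := Cut.none) (xt := Ext.none) (P1 := 0) (W1 := 536870912) (P2 := 536870912) (W2 := 536870912) (P3 := 697932185) (W3 := 42949674) (N0 := 3) (En := eng) (mo := mog) (C1 := cd1q0) (C2 := cd1q1) (C3 := pd0)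
    rfl (fun _ => rfl) k0_pm_001

noncomputable def f_pm_011 : ℕ → ℕ → ℕ → ℕ → Bool := onCell 0 536870912 536870912 536870912 697932185 42949674
    (rowB 3 eng mog cd1q0 cd1q1 pd1 0 false true false .pnn 0 1 1 (qsf 0 536870912 536870912 536870912 1) ndB1q0 ndB1q1 pcB1 Cut.none Ext.none)

def k0_pm_011 : ∃ t, chk3 f_pm_011 t 1 1 1 = true :=
  ⟨(b (l 4) (a (b (l 4) (a (l 4) (b (l 4) (a (l 4) (a (l 4) (b (l 4) (b (l 4) (l 16541600)))))))) (b (a (l 4) (a (l 4) (l 1))) (a (b (a (l 4) (b (l 4) (a (l 4) (l 16448232)))) (a (b (a (l 4) (l 4)) (a (a (l 16505016) (l 16486224)) (b (l 16449664) (l 16426408)))) (b (a (a (l 16456320) (l 16436200)) (l 16426904)) (a (l 16402960) (l 16367088))))) (b (a (b (a (l 4) (l 16457112)) (a (l 16486912) (l 16362848))) (b (l 1) (a (l 16324896) (l 1)))) (a (b (a (l 16364448) (l 16319896)) (l 16401816)) (b (l 16350240) (l 16339264)))))))), by decide +kernel⟩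

theorem c_pm_011 : CertB 0 536870912 536870912 536870912 697932185 42949674 3 eng mog cd1q0 cd1q1 pd1 false true false .pnn 0 1 1
    ndB1q0 ndB1q1 pcB1 Cut.none Ext.none :=
  certB0 (fam := false) (s1 := true) (s2 := false) (a := 0) (b := 1) (c := 1) (cn := .pnn) (n1 := ndB1q0) (n2 := ndB1q1) (pc := pcB1) (cut := Cut.none) (xt := Ext.none) (P1 := 0) (W1 := 536870912) (P2 := 536870912) (W2 := 536870912) (P3 := 697932185) (W3 := 42949674) (N0 := 3) (En := eng) (mo := mog) (C1 := cd1q0) (C2 := cd1q1) (C3 := pd1)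
    rfl k0_pm_011

noncomputable def cut_pm_012_a : Cut := Cut.of [[⟨0, 0, 0, 67108864⟩, ⟨1, 1, 0, 67108864⟩, ⟨2, 1, 0, 67108864⟩]]

noncomputable def f_pm_012_a : ℕ → ℕ → ℕ → ℕ → Bool := onCell 536870912 536870912 0 536870912 697932185 42949674
    (rowB 3 eng mog cd1q0 cd1q2a pd1 2 false true false .pnp 0 1 2 (qsf 0 536870912 0 536870912 1) ndB1q0 ndB1q2a pcB1 cut_pm_012_a Ext.none)

def k0_pm_012_a : ∃ t, chk3 f_pm_012_a t 2 1 1 = true :=
  ⟨(b (a (b (l 2) (b (l 2) (a (l 2) (b (l 2) (l 16534944))))) (b (a (b (a (l 16643312) (l 16619664)) (l 16590712)) (b (l 16582104) (l 16545192))) (a (b (l 16552816) (b (l 16525160) (l 16505896))) (b (l 16595192) (a (l 16491688) (l 16474568)))))) (a (a (b (l 2) (b (l 16345224) (l 16319616))) (b (b (l 16492496) (l 16473000)) (b (l 16378200) (l 16414632)))) (b (a (b (l 16473816) (l 16485432)) (b (l 16454200) (a (l 16432992) (l 16432936)))) (b (a (b (l 16408872) (l 16402152)) (b (l 16448152) (l 16433080))) (a (b (l 16402280)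 (l 16410616)) (b (l 16446600) (l 16469168))))))), by decide +kernel⟩

def k1_pm_012_a : ∃ t, chk3 f_pm_012_a t 3 2 1 = true :=
  ⟨(a (b (a (b (l 16532496) (l 16499200)) (a (b (l 16496136) (l 16466144)) (b (l 16480352) (l 16454504)))) (a (b (a (l 16481312) (l 16461568)) (a (l 16457560) (l 16440960))) (b (a (b (l 16448016) (l 16437480)) (l 16435584)) (a (b (l 16429200) (l 16423664)) (l 16422432))))) (b (a (b (a (l 16469528) (l 16462424)) (a (l 16448176) (l 16444744))) (a (b (l 16458360) (l 16441024)) (b (l 16454512) (l 16434576)))) (a (b (a (l 16430416) (l 16426904)) (a (l 16442680) (b (l 16420152) (l 16422136)))) (b (a (l 16442808) (b (l 16418768) (l 16413240))) (a (b (l 16416224) (l 16420432)) (b (a (l 16413376) (l 16411840)) (a (l 16419656) (l 16419504)))))))), by decide +kernel⟩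

def k2_pm_012_a : ∃ t, chk3 f_pm_012_a t 3 3 1 = true :=
  ⟨(a (b (a (b (a (l 16439160) (l 16429920)) (a (l 16433304) (l 16434824))) (b (a (l 16443952) (l 16425744)) (a (a (l 16436728) (l 16440208)) (b (l 16441528) (l 16460312))))) (b (a (b (a (l 16441648) (l 16452976)) (a (l 16457592) (l 16475408))) (b (a (l 16486984) (l 16485720)) (a (l 16515456) (l 16518008)))) (a (b (l 16493928) (a (l 16515168) (l 16546384))) (a (a (l 16588048) (l 16622696)) (b (l 16558496) (l 16606216)))))) (b (a (b (a (b (l 16426600) (l 16436816)) (b (l 16429344) (l 16442496))) (a (b (l 16452944) (l 16475528)) (b (l 16462576) (l 16490216)))) (a (b (b (l 16430840) (l 16448184)) (b (l 16473160) (l 16506280))) (b (b (a (l 16432712) (l 16434352)) (a (l 16453264) (l 16457016))) (b (a (l 16481984) (l 16486968)) (a (l 16518256) (l 16523576)))))) (b (a (b (a (l 16505304) (l 16588616)) (a (l 16542264) (l 16567880))) (a (b (b (l 16535680) (l 16557840)) (a (l 16524064) (b (l 16585480) (l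 16609064)))) (b (a (b (l 16548872) (l 16571064)) (b (l 16554696) (l 16577928))) (a (l 16637272) (b (l 16601400) (l 16612488)))))) (a (b (a (l 16588248) (l 16660376)) (a (b (l 16623928) (l 16630184)) (b (l 16651032) (a (l 16662568) (l 16716984))))) (b (a (b (l 16630120) (l 16678400)) (a (b (l 16645336) (l 6)) (l 6))) (a (b (a (l 16675984) (l 16693088)) (a (b (l 16692688) (l 16704120)) (l 6))) (l 6))))))), by decide +kernel⟩

theorem s3_pm_012_a : ∃ t, chk3 f_pm_012_a t 3 1 1 = true := ex3_b k1_pm_012_a k2_pm_012_a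

theorem s4_pm_012_a : ∃ t, chk3 f_pm_012_a t 1 1 1 = true := ex3_a k0_pm_012_a s3_pm_012_a

theorem c_pm_012_a : CertB 0 536870912 0 536870912 697932185 42949674 3 eng mog cd1q0 cd1q2a pd1 false true false .pnp 0 1 2
    ndB1q0 ndB1q2a pcB1 cut_pm_012_a Ext.none :=
  certB2 (fam := false) (s1 := true) (s2 := false) (a := 0) (b := 1) (c := 2) (cn := .pnp) (n1 := ndB1q0) (n2 := ndB1q2a) (pc := pcB1) (cut := cut_pm_012_a) (xt := Ext.none) (P1 := 0) (W1 := 536870912) (P2 := 0) (W2 := 536870912) (P3 := 697932185) (W3 := 42949674) (N0 := 3) (En := eng) (mo := mog) (C1 := cd1q0) (C2 := cd1q2a) (C3 := pd1)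
    rfl (fun _ => rfl) s4_pm_012_a

noncomputable def cut_pm_012_b : Cut := Cut.of [[⟨0, 0, 0, 67108864⟩, ⟨1, 1, 0, 67108864⟩, ⟨2, 1, 0, 67108864⟩]]

noncomputable def f_pm_012_b : ℕ → ℕ → ℕ → ℕ → Bool := onCell 536870912 536870912 1239849684 370763052 697932185 42949674
    (rowB 3 eng mog cd1q0 cd1q2b pd1 2 false true false .pnp 0 1 2 (qsf 0 536870912 1239849684 370763052 1) ndB1q0 ndB1q2b pcB1 cut_pm_012_b Ext.none)

def k0_pm_012_b : ∃ t, chk3 f_pm_012_b t 1 1 1 = true :=
  ⟨(a (a (l 2) (b (a (b (b (l 16705392) (l 2)) (l 2)) (b (b (l 16652344) (l 16571400)) (b (l 16563360) (l 2)))) (l 2))) (a (b (a (b (b (l 16572808) (l 16500704)) (a (l 16502248) (l 16457104))) (b (a (b (l 16487248) (l 16446280)) (b (l 16464512) (l 16414808))) (a (l 16411504) (l 16369328)))) (a (l 2) (b (a (l 16412088) (l 16358032)) (l 2)))) (b (a (b (a (b (l 16446216) (l 16386848)) (b (l 16431792) (l 16362120))) (a (l 16329584) (l 16291840))) (b (a (b (l 16421200) (l 16341360)) (b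 (l 16413808) (l 16325184))) (a (l 16256416) (l 16245160)))) (a (b (l 16363800) (l 16307496)) (b (a (l 16203944) (l 16155352)) (l 16184408)))))), by decide +kernel⟩

theorem c_pm_012_b : CertB 0 536870912 1239849684 370763052 697932185 42949674 3 eng mog cd1q0 cd1q2b pd1 false true false .pnp 0 1 2
    ndB1q0 ndB1q2b pcB1 cut_pm_012_b Ext.none :=
  certB2 (fam := false) (s1 := true) (s2 := false) (a := 0) (b := 1) (c := 2) (cn := .pnp) (n1 := ndB1q0) (n2 := ndB1q2b) (pc := pcB1) (cut := cut_pm_012_b) (xt := Ext.none) (P1 := 0) (W1 := 536870912) (P2 := 1239849684) (W2 := 370763052) (P3 := 697932185) (W3 := 42949674) (N0 := 3) (En := eng) (mo := mog) (C1 := cd1q0) (C2 := cd1q2b) (C3 := pd1)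
    rfl (fun _ => rfl) k0_pm_012_b

noncomputable def cut_pm_022_a : Cut := Cut.of [[⟨0, 0, 0, 67108864⟩, ⟨1, 1, 0, 67108864⟩, ⟨2, 1, 0, 67108864⟩]]

noncomputable def f_pm_022_a : ℕ → ℕ → ℕ → ℕ → Bool := onCell 1073741824 536870912 0 536870912 697932185 42949674
    (rowB 3 eng mog cd1q0 cd1q2a pd2 2 false true false .pp 0 2 2 (qsf 0 536870912 0 536870912 2) ndB1q0 ndB1q2a pcB2 cut_pm_022_a Ext.none)

def k0_pm_022_a : ∃ t, chk3 f_pm_022_a t 2 2 1 = true :=
  ⟨(a (b (a (b (b (l 16462272) (l 16456392)) (a (l 16438112) (l 16360912))) (b (a (l 16456600) (l 16452520)) (a (l 16448064) (l 16409744)))) (a (b (a (b (l 16425952) (l 16422992)) (b (l 16439600) (l 16440848))) (a (b (a (l 16418616) (l 16431552)) (a (l 16427736) (l 16442600))) (b (a (l 16442280) (l 16451360)) (a (l 16454760) (l 16466224))))) (b (a (b (l 16449184) (l 16454712)) (b (l 16459120) (l 16489824))) (a (b (a (l 16460480) (l 16469664)) (a (l 16477664) (l 16489040))) (b (a (l 16499840) (b (l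 16483016) (l 16492808))) (a (b (l 16494120) (l 16506544)) (c (l 16532000) (l 16511720)))))))) (a (b (a (b (l 16449272) (l 16456128)) (b (l 1) (l 1))) (a (a (b (b (l 16466720) (l 16479288)) (b (b (l 16491280) (l 16522944)) (a (l 164852488983) (l 1)))) (b (l 601865338167) (l 1))) (l 1))) (l 1))), by decide +kernel⟩

def k1_pm_022_a : ∃ t, chk3 f_pm_022_a t 2 3 1 = true :=
  ⟨(a (b (a (b (a (b (a (a (l 16439512) (l 16448512)) (l 16459992)) (a (b (l 16460512) (l 16473648)) (l 16484264))) (b (a (l 16474096) (l 16488000)) (a (l 16500904) (l 16538192)))) (a (b (a (l 16496800) (l 16516496)) (a (l 16555424) (l 16609248))) (b (a (l 16556640) (b (l 16544032) (l 16564808))) (a (a (l 16594120) (l 16583824)) (a (l 16594328) (l 16604240)))))) (b (a (b (a (l 16522696) (c (l 16537016) (l 16535584))) (a (b (l 16524424) (l 16563072)) (b (a (l 16535808) (l 16543296)) (l 16547792)))) (b (a (c (a (l 16567376) (l 16531560)) (l 16534016)) (a (b (l 16529992) (l 206728431591))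 (b (l 200285966727) (l 1)))) (a (a (b (l 16550688) (c (l 172368644983) (l 175589860407))) (b (l 175589843351) (l 511134231527))) (l 1)))) (a (b (a (b (l 16561696) (l 16583560)) (a (b (l 16574648) (l 165926220567)) (b (l 225518942471) (l 326450679991)))) (a (b (a (l 16597432) (b (l 16593328) (l 16598416))) (a (l 16577072) (l 303365289287))) (b (a (l 307123360487) (l 1)) (l 1)))) (b (a (b (a (l 483216965047) (l 1)) (l 1)) (l 1)) (l 1))))) (a (b (a (b (a (b (l 16567024) (l 16612928)) (b (l 16612352) (l 16617616))) (l 6)) (b (a (b (l 16614896) (a (l 16636256) (l 16636632))) (b (a (l 16622896) (l 16600744)) (a (b (l 16632160) (l 6)) (b (l 303902214695) (l 365105494935))))) (a (l 6) (a (l 6) (a (l 6) (l 1)))))) (a (l 6) (a (l 6) (l 1)))) (b (a (b (a (b (a (l 308197158983) (l 488048894711)) (a (l 492343890375) (l 1))) (l 1)) (l 1)) (l 1)) (l 1)))) (b (l 1) (l 1))), by decide +kernel⟩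

def k2_pm_022_a : ∃ t, chk3 f_pm_022_a t 3 1 1 = true :=
  ⟨(l 1), by decide +kernel⟩

theorem s3_pm_022_a : ∃ t, chk3 f_pm_022_a t 2 1 1 = true := ex3_b k0_pm_022_a k1_pm_022_a

theorem s4_pm_022_a : ∃ t, chk3 f_pm_022_a t 1 1 1 = true := ex3_a s3_pm_022_a k2_pm_022_a

theorem c_pm_022_a : CertB 0 536870912 0 536870912 697932185 42949674 3 eng mog cd1q0 cd1q2a pd2 false true false .pp 0 2 2
    ndB1q0 ndB1q2a pcB2 cut_pm_022_a Ext.none :=
  certB2 (fam := false) (s1 := true) (s2 := false) (a := 0) (b := 2) (c := 2) (cn := .pp) (n1 := ndB1q0) (n2 := ndB1q2a) (pc := pcB2) (cut := cut_pm_022_a) (xt := Ext.none) (P1 := 0) (W1 := 536870912) (P2 := 0) (W2 := 536870912) (P3 := 697932185) (W3 := 42949674) (N0 := 3) (En := eng) (mo := mog) (C1 := cd1q0) (C2 := cd1q2a) (C3 := pd2)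
    rfl (fun _ => rfl) s4_pm_022_a

noncomputable def cut_pm_022_b : Cut := Cut.of [[⟨0, 0, 0, 67108864⟩, ⟨1, 1, 0, 67108864⟩, ⟨2, 1, 0, 67108864⟩]]

noncomputable def f_pm_022_b : ℕ → ℕ → ℕ → ℕ → Bool := onCell 0 536870912 1073741824 536870912 697932185 42949674
    (rowB 3 eng mog cd1q0 cd1q2b pd2 1 false true false .pp 0 2 2 (qsf 0 536870912 1239849684 370763052 2) ndB1q0 ndB1q2b pcB2 cut_pm_022_b Ext.none)

def k0_pm_022_b : ∃ t, chk3 f_pm_022_b t 1 1 1 = true :=
  ⟨(b (a (b (a (a (b (l 1) (b (l 232498170935) (a (l 202433366631) (l 16452016)))) (b (a (l 220150152247) (b (l 16538160) (l 16461912))) (b (l 16505912) (l 16412000)))) (a (b (a (l 16424216) (l 16375904)) (l 16343672)) (b (l 16306392) (l 16162768)))) (a (b (b (a (b (l 36003405927) (l 16476040)) (l 16406272)) (a (b (l 16418696) (l 16372088)) (a (l 16291968) (l 16194768)))) (a (a (l 16411328) (l 16265536)) (b (l 16187424) (l 16148176)))) (b (a (b (l 16173120) (l 16126360)) (b (l 16094608) (l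 16060216))) (a (l 16096088) (l 16053544))))) (b (a (a (b (l 16172384) (l 16099912)) (b (l 16118824) (l 16070808))) (b (l 16102872) (l 16082096))) (a (b (a (l 16041384) (l 16034776)) (l 16056160)) (b (l 16072384) (l 2))))) (b (a (a (b (a (b (l 16170224) (l 16114976)) (l 16080744)) (a (b (l 16066808) (l 16028960)) (l 16016216))) (b (l 16134432) (l 16067112))) (b (a (l 16084952) (l 2)) (l 2))) (a (b (a (a (l 15989864) (l 15992904)) (l 16003480)) (a (a (l 15961920) (l 15989296)) (l 2))) (l 2)))), by decide +kernel⟩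

theorem c_pm_022_b : CertB 0 536870912 1239849684 370763052 697932185 42949674 3 eng mog cd1q0 cd1q2b pd2 false true false .pp 0 2 2
    ndB1q0 ndB1q2b pcB2 cut_pm_022_b Ext.none :=
  certB1 (fam := false) (s1 := true) (s2 := false) (a := 0) (b := 2) (c := 2) (cn := .pp) (n1 := ndB1q0) (n2 := ndB1q2b) (pc := pcB2) (cut := cut_pm_022_b) (xt := Ext.none) (P1 := 0) (W1 := 536870912) (P2 := 1239849684) (W2 := 370763052) (P3 := 697932185) (W3 := 42949674) (N0 := 3) (En := eng) (mo := mog) (C1 := cd1q0) (C2 := cd1q2b) (C3 := pd2)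
    rfl (fun _ => rfl) k0_pm_022_b

noncomputable def f_pm_023 : ℕ → ℕ → ℕ → ℕ → Bool := onCell 0 536870912 1073741824 536870912 697932185 42949674
    (rowB 3 eng mog cd1q0 cd1q3 pd2 1 false true false .up 0 2 3 (qsf 0 536870912 1610612736 536870912 2) ndB1q0 ndB1q3 pcB2 Cut.none Ext.none)

def k0_pm_023 : ∃ t, chk3 f_pm_023 t 1 1 1 = true :=
  ⟨(b (a (b (l 1) (a (l 1) (b (l 1) (l 446708797815)))) (b (a (a (l 1) (l 150356547479)) (b (l 16103992) (l 16081704))) (a (b (a (l 16041504) (l 16034960)) (l 16055936)) (b (l 16070192) (l 16129680))))) (b (a (a (b (l 1) (l 389263651607)) (b (l 16114368) (l 16046864))) (b (a (l 16082824) (l 16200576)) (a (l 16092584) (l 16311784)))) (a (b (a (l 368862803975) (l 16007520)) (a (l 418254899287) (l 16055144))) (b (a (l 16158608) (l 16445792)) (l 16449824))))), by decide +kernel⟩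

theorem c_pm_023 : CertB 0 536870912 1610612736 536870912 697932185 42949674 3 eng mog cd1q0 cd1q3 pd2 false true false .up 0 2 3
    ndB1q0 ndB1q3 pcB2 Cut.none Ext.none :=
  certB1 (fam := false) (s1 := true) (s2 := false) (a := 0) (b := 2) (c := 3) (cn := .up) (n1 := ndB1q0) (n2 := ndB1q3) (pc := pcB2) (cut := Cut.none) (xt := Ext.none) (P1 := 0) (W1 := 536870912) (P2 := 1610612736) (W2 := 536870912) (P3 := 697932185) (W3 := 42949674) (N0 := 3) (En := eng) (mo := mog) (C1 := cd1q0) (C2 := cd1q3) (C3 := pd2)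
    rfl (fun _ => rfl) k0_pm_023

noncomputable def f_pm_033 : ℕ → ℕ → ℕ → ℕ → Bool := onCell 0 536870912 1610612736 536870912 697932185 42949674
    (rowB 3 eng mog cd1q0 cd1q3 pd3 1 false true false .pnn 0 3 3 (qsf 0 536870912 1610612736 536870912 3) ndB1q0 ndB1q3 pcB3 Cut.none Ext.none)

def k0_pm_033 : ∃ t, chk3 f_pm_033 t 1 1 1 = true :=
  ⟨(a (b (b (b (a (l 15954256) (l 16096208)) (a (l 15948712) (l 16199608))) (l 4)) (b (l 4) (a (l 4) (a (b (l 4) (l 2)) (l 2))))) (b (b (b (l 16511456) (a (l 16452848) (l 16625176))) (a (b (l 16504656) (l 4)) (a (b (l 16625696) (l 2)) (l 2)))) (a (b (a (b (l 4) (l 2)) (l 2)) (l 2)) (l 2)))), by decide +kernel⟩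

theorem c_pm_033 : CertB 0 536870912 1610612736 536870912 697932185 42949674 3 eng mog cd1q0 cd1q3 pd3 false true false .pnn 0 3 3
    ndB1q0 ndB1q3 pcB3 Cut.none Ext.none :=
  certB1 (fam := false) (s1 := true) (s2 := false) (a := 0) (b := 3) (c := 3) (cn := .pnn) (n1 := ndB1q0) (n2 := ndB1q3) (pc := pcB3) (cut := Cut.none) (xt := Ext.none) (P1 := 0) (W1 := 536870912) (P2 := 1610612736) (W2 := 536870912) (P3 := 697932185) (W3 := 42949674) (N0 := 3) (En := eng) (mo := mog) (C1 := cd1q0) (C2 := cd1q3) (C3 := pd3)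
    rfl (fun _ => rfl) k0_pm_033

end Pool.Agent.Strip051.G.I6500_6900.Tab.C.BB11

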