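import Pool.Agent.Strip051.G.I6500_6900.CrnB
import Pool.Agent.Strip051.G.I6500_6900.CG_1
import Pool.Agent.Strip051.G.I6500_6900.CG_2
import Pool.Agent.Strip051.G.I6500_6900.CW_1
import Pool.Agent.Strip051.G.I6500_6900.CW_2

/-! # Aligned corners: the alternatives (generated) -/

set_option linter.all false

namespace Pool.Agent.Strip051.G.I6500_6900.Tab

open Pool.Agent.Strip051.PB Pool.Agent.StripNear Pool.Agent.Strip051.LC

theorem altB_B022R_21 {κ x : ℝ} (hκ : κ * h0 = ken x) (hx : ((697932185 : ℕ) : ℝ) / S ≤ x) (hx' : x ≤ (((697932185 : ℕ) : ℝ) + (42949674 : ℕ)) / S) :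
    AltEB 3 κ (eng.v x) (3 / 40) (tnt (h0 * x) (3 / 10)) PP tK tL tC pcB (scP esg pd) [⟨0, 0, 0, 67108864⟩, ⟨1, 1, 0, 67108864⟩, ⟨2, 1, 0, 67108864⟩] 0 2 2 2 1 (sgb true) (sgb false) x := by
  have X : XR 67108864 x := XR.of hx hx' (by norm_num) (by norm_num) (by norm_num) (by norm_num)
  have hen : 0 < eng.v x := en_pos X.x0.le
  refine CornW.altB (C := cB022R) (j := (2 : Fin 8)) (k := (1 : Fin 8)) (Ef := esg) (pd := pd) (o := 3 / 40)
    (cornW_of (C := cB022R) (C0 := c0B) (En := eng) (mo := mog) (j := (2 : Fin 8)) (k := (1 : Fin 8)) (lo := 7) (hi := 7) (W := 67108864) (N0 := 3) cB022R_q (sideB hx hx') gokB (pinU hx hx') dokB X (by norm_num) (by norm_num) (l := (7 : Fin 8)) rfl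
      (gatB20 x) (gatB12 x) (gatB72 x) (datB20 x) (datB12 x) (datB72 x) ?_)
    (cornS_of (C := cB022R) (C0 := c0B) (j := (2 : Fin 8)) (k := (1 : Fin 8)) (lo := 7) (hi := 7) (W := 67108864) (N0 := 3) cB022R_q (sideB hx hx') gokB X (by norm_num) (by norm_num) (l := (7 : Fin 8)) rfl
      (gatB20 x) (gatB12 x) (gatB72 x) ?_)
    (thU (pinU hx hx')) rfl hκ (fun j q y => tC_eq j q y x) (esg_rng X.x0.le (by linarith [X.b, X.p0])).1 (mo_v x) le_rfl le_rfl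
  · intro ρ a B hρ hd i h1 h2
    fin_cases i
    · exact absurd h1 (by norm_num)
    · exact absurd h1 (by norm_num)
    · exact absurd h1 (by norm_num)
    · exact absurd h1 (by norm_num)
    · exact absurd h1 (by norm_num)
    · exact absurd h1 (by norm_num)
    · exact corW_cert (G1 := gB2q0) (G2 := gB1q2) (Ga := gB6q2) (Gb := gB7q2) (D1 := dB2q0) (D2 := dB1q2) (Da := dB6q2) (Db := dB7q2) cB022R_ok B hρ hen (gatB20 x) (gatB12 x) (fun h => absurd h (by decide)) (fun _ => gatB72 x) (datB20 x) (datB12 x) (fun h => absurd h (by decide)) (fun _ => datB72 x) hd hx hx' CW.B022R_216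
  · intro ρ a B hρ hd i h1 h2
    fin_cases i
    · exact absurd h1 (by norm_num)
    · exact absurd h1 (by norm_num)
    · exact absurd h1 (by norm_num)
    · exact absurd h1 (by norm_num)
    · exact absurd h1 (by norm_num)
    · exact absurd h1 (by norm_num)
    · exact corT_cert (G1 := gB2q0) (G2 := gB1q2) (Ga := gB6q2) (Gb := gB7q2) cB022R_ok B hρ (gatB20 x) (gatB12 x) (fun h => absurd h (by decide)) (fun _ => gatB72 x) hd hx hx' CG.B022R_216

theorem altB_B022R_22 {κ x : ℝ} (hκ : κ * h0 = ken x) (hx : ((697932185 : ℕ) : ℝ) / S ≤ x) (hx' : x ≤ (((697932185 : ℕ) : ℝ) + (42949674 : ℕ)) / S) :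
    AltEB 3 κ (eng.v x) (3 / 40) (tnt (h0 * x) (3 / 10)) PP tK tL tC pcB (scP esg pd) [⟨0, 0, 0, 67108864⟩, ⟨1, 1, 0, 67108864⟩, ⟨2, 1, 0, 67108864⟩] 0 2 2 2 2 (sgb true) (sgb false) x := by
  have X : XR 67108864 x := XR.of hx hx' (by norm_num) (by norm_num) (by norm_num) (by norm_num)
  have hen : 0 < eng.v x := en_pos X.x0.le
  refine CornW.altB (C := cB022R) (j := (2 : Fin 8)) (k := (2 : Fin 8)) (Ef := esg) (pd := pd) (o := 3 / 40)
    (cornW_of (C := cB022R) (C0 := c0B) (En := eng) (mo := mog) (j := (2 : Fin 8)) (k := (2 : Fin 8)) (lo := 7) (hi := 7) (W := 67108864) (N0 := 3) cB022R_q (sideB hx hx') gokB (pinU hx hx') dokB X (by norm_num) (by norm_num) (l := (7 : Fin 8)) rfl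
      (gatB20 x) (gatB22 x) (gatB72 x) (datB20 x) (datB22 x) (datB72 x) ?_)
    (cornS_of (C := cB022R) (C0 := c0B) (j := (2 : Fin 8)) (k := (2 : Fin 8)) (lo := 7) (hi := 7) (W := 67108864) (N0 := 3) cB022R_q (sideB hx hx') gokB X (by norm_num) (by norm_num) (l := (7 : Fin 8)) rfl
      (gatB20 x) (gatB22 x) (gatB72 x) ?_)
    (thU (pinU hx hx')) rfl hκ (fun j q y => tC_eq j q y x) (esg_rng X.x0.le (by linarith [X.b, X.p0])).1 (mo_v x) le_rfl le_rfl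
  · intro ρ a B hρ hd i h1 h2
    fin_cases i
    · exact absurd h1 (by norm_num)
    · exact absurd h1 (by norm_num)
    · exact absurd h1 (by norm_num)
    · exact absurd h1 (by norm_num)
    · exact absurd h1 (by norm_num)
    · exact absurd h1 (by norm_num)
    · exact corW_cert (G1 := gB2q0) (G2 := gB2q2) (Ga := gB6q2) (Gb := gB7q2) (D1 := dB2q0) (D2 := dB2q2) (Da := dB6q2) (Db := dB7q2) cB022R_ok B hρ hen (gatB20 x) (gatB22 x) (fun h => absurd h (by decide)) (fun _ => gatB72 x) (datB20 x) (datB22 x) (fun h => absurd h (by decide)) (fun _ => datB72 x) hd hx hx' CW.B022R_226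
  · intro ρ a B hρ hd i h1 h2
    fin_cases i
    · exact absurd h1 (by norm_num)
    · exact absurd h1 (by norm_num)
    · exact absurd h1 (by norm_num)
    · exact absurd h1 (by norm_num)
    · exact absurd h1 (by norm_num)
    · exact absurd h1 (by norm_num)
    · exact corT_cert (G1 := gB2q0) (G2 := gB2q2) (Ga := gB6q2) (Gb := gB7q2) cB022R_ok B hρ (gatB20 x) (gatB22 x) (fun h => absurd h (by decide)) (fun _ => gatB72 x) hd hx hx' CG.B022R_226

theorem altB_B022R_23 {κ x : ℝ} (hκ : κ * h0 = ken x) (hx : ((697932185 : ℕ) : ℝ) / S ≤ x) (hx' : x ≤ (((697932185 : ℕ) : ℝ) + (42949674 : ℕ)) / S) :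
    AltEB 3 κ (eng.v x) (3 / 40) (tnt (h0 * x) (3 / 10)) PP tK tL tC pcB (scP esg pd) [⟨0, 0, 0, 67108864⟩, ⟨1, 1, 0, 67108864⟩, ⟨2, 1, 0, 67108864⟩] 0 2 2 2 3 (sgb true) (sgb false) x := by
  have X : XR 67108864 x := XR.of hx hx' (by norm_num) (by norm_num) (by norm_num) (by norm_num)
  have hen : 0 < eng.v x := en_pos X.x0.le
  refine CornW.altB (C := cB022R) (j := (2 : Fin 8)) (k := (3 : Fin 8)) (Ef := esg) (pd := pd) (o := 3 / 40)
    (cornW_of (C := cB022R) (C0 := c0B) (En := eng) (mo := mog) (j := (2 : Fin 8)) (k := (3 : Fin 8)) (lo := 7) (hi := 7) (W := 67108864) (N0 := 3) cB022R_q (sideB hx hx') gokB (pinU hx hx') dokB X (by norm_num) (by norm_num) (l := (7 : Fin 8)) rfl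
      (gatB20 x) (gatB32 x) (gatB72 x) (datB20 x) (datB32 x) (datB72 x) ?_)
    (cornS_of (C := cB022R) (C0 := c0B) (j := (2 : Fin 8)) (k := (3 : Fin 8)) (lo := 7) (hi := 7) (W := 67108864) (N0 := 3) cB022R_q (sideB hx hx') gokB X (by norm_num) (by norm_num) (l := (7 : Fin 8)) rfl
      (gatB20 x) (gatB32 x) (gatB72 x) ?_)
    (thU (pinU hx hx')) rfl hκ (fun j q y => tC_eq j q y x) (esg_rng X.x0.le (by linarith [X.b, X.p0])).1 (mo_v x) le_rfl le_rfl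
  · intro ρ a B hρ hd i h1 h2
    fin_cases i
    · exact absurd h1 (by norm_num)
    · exact absurd h1 (by norm_num)
    · exact absurd h1 (by norm_num)
    · exact absurd h1 (by norm_num)
    · exact absurd h1 (by norm_num)
    · exact absurd h1 (by norm_num)
    · exact corW_cert (G1 := gB2q0) (G2 := gB3q2) (Ga := gB6q2) (Gb := gB7q2) (D1 := dB2q0) (D2 := dB3q2) (Da := dB6q2) (Db := dB7q2) cB022R_ok B hρ hen (gatB20 x) (gatB32 x) (fun h => absurd h (by decide)) (fun _ => gatB72 x) (datB20 x) (datB32 x) (fun h => absurd h (by decide)) (fun _ => datB72 x) hd hx hx' CW.B022R_236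
  · intro ρ a B hρ hd i h1 h2
    fin_cases i
    · exact absurd h1 (by norm_num)
    · exact absurd h1 (by norm_num)
    · exact absurd h1 (by norm_num)
    · exact absurd h1 (by norm_num)
    · exact absurd h1 (by norm_num)
    · exact absurd h1 (by norm_num)
    · exact corT_cert (G1 := gB2q0) (G2 := gB3q2) (Ga := gB6q2) (Gb := gB7q2) cB022R_ok B hρ (gatB20 x) (gatB32 x) (fun h => absurd h (by decide)) (fun _ => gatB72 x) hd hx hx' CG.B022R_236

theorem altB_B022R_24 {κ x : ℝ} (hκ : κ * h0 = ken x) (hx : ((697932185 : ℕ) : ℝ) / S ≤ x) (hx' : x ≤ (((697932185 : ℕ) : ℝ) + (42949674 : ℕ)) / S) :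
    AltEB 3 κ (eng.v x) (3 / 40) (tnt (h0 * x) (3 / 10)) PP tK tL tC pcB (scP esg pd) [⟨0, 0, 0, 67108864⟩, ⟨1, 1, 0, 67108864⟩, ⟨2, 1, 0, 67108864⟩] 0 2 2 2 4 (sgb true) (sgb false) x := by
  have X : XR 67108864 x := XR.of hx hx' (by norm_num) (by norm_num) (by norm_num) (by norm_num)
  have hen : 0 < eng.v x := en_pos X.x0.le
  refine CornW.altB (C := cB022R) (j := (2 : Fin 8)) (k := (4 : Fin 8)) (Ef := esg) (pd := pd) (o := 3 / 40)
    (cornW_of (C := cB022R) (C0 := c0B) (En := eng) (mo := mog) (j := (2 : Fin 8)) (k := (4 : Fin 8)) (lo := 7) (hi := 7) (W := 67108864) (N0 := 3) cB022R_q (sideB hx hx') gokB (pinU hx hx') dokB X (by norm_num) (by norm_num) (l := (7 : Fin 8)) rfl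
      (gatB20 x) (gatB42 x) (gatB72 x) (datB20 x) (datB42 x) (datB72 x) ?_)
    (cornS_of (C := cB022R) (C0 := c0B) (j := (2 : Fin 8)) (k := (4 : Fin 8)) (lo := 7) (hi := 7) (W := 67108864) (N0 := 3) cB022R_q (sideB hx hx') gokB X (by norm_num) (by norm_num) (l := (7 : Fin 8)) rfl
      (gatB20 x) (gatB42 x) (gatB72 x) ?_)
    (thU (pinU hx hx')) rfl hκ (fun j q y => tC_eq j q y x) (esg_rng X.x0.le (by linarith [X.b, X.p0])).1 (mo_v x) le_rfl le_rfl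
  · intro ρ a B hρ hd i h1 h2
    fin_cases i
    · exact absurd h1 (by norm_num)
    · exact absurd h1 (by norm_num)
    · exact absurd h1 (by norm_num)
    · exact absurd h1 (by norm_num)
    · exact absurd h1 (by norm_num)
    · exact absurd h1 (by norm_num)
    · exact corW_cert (G1 := gB2q0) (G2 := gB4q2) (Ga := gB6q2) (Gb := gB7q2) (D1 := dB2q0) (D2 := dB4q2) (Da := dB6q2) (Db := dB7q2) cB022R_ok B hρ hen (gatB20 x) (gatB42 x) (fun h => absurd h (by decide)) (fun _ => gatB72 x) (datB20 x) (datB42 x) (fun h => absurd h (by decide)) (fun _ => datB72 x) hd hx hx' CW.B022R_246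
  · intro ρ a B hρ hd i h1 h2
    fin_cases i
    · exact absurd h1 (by norm_num)
    · exact absurd h1 (by norm_num)
    · exact absurd h1 (by norm_num)
    · exact absurd h1 (by norm_num)
    · exact absurd h1 (by norm_num)
    · exact absurd h1 (by norm_num)
    · exact corT_cert (G1 := gB2q0) (G2 := gB4q2) (Ga := gB6q2) (Gb := gB7q2) cB022R_ok B hρ (gatB20 x) (gatB42 x) (fun h => absurd h (by decide)) (fun _ => gatB72 x) hd hx hx' CG.B022R_246

theorem altB_B022R_30 {κ x : ℝ} (hκ : κ * h0 = ken x) (hx : ((697932185 : ℕ) : ℝ) / S ≤ x) (hx' : x ≤ (((697932185 : ℕ) : ℝ) + (42949674 : ℕ)) / S) :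
    AltEB 3 κ (eng.v x) (3 / 40) (tnt (h0 * x) (3 / 10)) PP tK tL tC pcB (scP esg pd) [⟨0, 0, 0, 67108864⟩, ⟨1, 1, 0, 67108864⟩, ⟨2, 1, 0, 67108864⟩] 0 2 2 3 0 (sgb true) (sgb false) x := by
  have X : XR 67108864 x := XR.of hx hx' (by norm_num) (by norm_num) (by norm_num) (by norm_num)
  have hen : 0 < eng.v x := en_pos X.x0.le
  refine CornW.altB (C := cB022R) (j := (3 : Fin 8)) (k := (0 : Fin 8)) (Ef := esg) (pd := pd) (o := 3 / 40)
    (cornW_of (C := cB022R) (C0 := c0B) (En := eng) (mo := mog) (j := (3 : Fin 8)) (k := (0 : Fin 8)) (lo := 7) (hi := 7) (W := 67108864) (N0 := 3) cB022R_q (sideB hx hx') gokB (pinU hx hx') dokB X (by norm_num) (by norm_num) (l := (7 : Fin 8)) rfl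
      (gatB30 x) (gatB02 x) (gatB72 x) (datB30 x) (datB02 x) (datB72 x) ?_)
    (cornS_of (C := cB022R) (C0 := c0B) (j := (3 : Fin 8)) (k := (0 : Fin 8)) (lo := 7) (hi := 7) (W := 67108864) (N0 := 3) cB022R_q (sideB hx hx') gokB X (by norm_num) (by norm_num) (l := (7 : Fin 8)) rfl
      (gatB30 x) (gatB02 x) (gatB72 x) ?_)
    (thU (pinU hx hx')) rfl hκ (fun j q y => tC_eq j q y x) (esg_rng X.x0.le (by linarith [X.b, X.p0])).1 (mo_v x) le_rfl le_rfl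
  · intro ρ a B hρ hd i h1 h2
    fin_cases i
    · exact absurd h1 (by norm_num)
    · exact absurd h1 (by norm_num)
    · exact absurd h1 (by norm_num)
    · exact absurd h1 (by norm_num)
    · exact absurd h1 (by norm_num)
    · exact absurd h1 (by norm_num)
    · exact corW_cert (G1 := gB3q0) (G2 := gB0q2) (Ga := gB6q2) (Gb := gB7q2) (D1 := dB3q0) (D2 := dB0q2) (Da := dB6q2) (Db := dB7q2) cB022R_ok B hρ hen (gatB30 x) (gatB02 x) (fun h => absurd h (by decide)) (fun _ => gatB72 x) (datB30 x) (datB02 x) (fun h => absurd h (by decide)) (fun _ => datB72 x) hd hx hx' CW.B022R_306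
  · intro ρ a B hρ hd i h1 h2
    fin_cases i
    · exact absurd h1 (by norm_num)
    · exact absurd h1 (by norm_num)
    · exact absurd h1 (by norm_num)
    · exact absurd h1 (by norm_num)
    · exact absurd h1 (by norm_num)
    · exact absurd h1 (by norm_num)
    · exact corT_cert (G1 := gB3q0) (G2 := gB0q2) (Ga := gB6q2) (Gb := gB7q2) cB022R_ok B hρ (gatB30 x) (gatB02 x) (fun h => absurd h (by decide)) (fun _ => gatB72 x) hd hx hx' CG.B022R_306

theorem altB_B022R_31 {κ x : ℝ} (hκ : κ * h0 = ken x) (hx : ((697932185 : ℕ) : ℝ) / S ≤ x) (hx' : x ≤ (((697932185 : ℕ) : ℝ) + (42949674 : ℕ)) / S) :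
    AltEB 3 κ (eng.v x) (3 / 40) (tnt (h0 * x) (3 / 10)) PP tK tL tC pcB (scP esg pd) [⟨0, 0, 0, 67108864⟩, ⟨1, 1, 0, 67108864⟩, ⟨2, 1, 0, 67108864⟩] 0 2 2 3 1 (sgb true) (sgb false) x := by
  have X : XR 67108864 x := XR.of hx hx' (by norm_num) (by norm_num) (by norm_num) (by norm_num)
  have hen : 0 < eng.v x := en_pos X.x0.le
  refine CornW.altB (C := cB022R) (j := (3 : Fin 8)) (k := (1 : Fin 8)) (Ef := esg) (pd := pd) (o := 3 / 40)
    (cornW_of (C := cB022R) (C0 := c0B) (En := eng) (mo := mog) (j := (3 : Fin 8)) (k := (1 : Fin 8)) (lo := 7) (hi := 7) (W := 67108864) (N0 := 3) cB022R_q (sideB hx hx') gokB (pinU hx hx') dokB X (by norm_num) (by norm_num) (l := (7 : Fin 8)) rfl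
      (gatB30 x) (gatB12 x) (gatB72 x) (datB30 x) (datB12 x) (datB72 x) ?_)
    (cornS_of (C := cB022R) (C0 := c0B) (j := (3 : Fin 8)) (k := (1 : Fin 8)) (lo := 7) (hi := 7) (W := 67108864) (N0 := 3) cB022R_q (sideB hx hx') gokB X (by norm_num) (by norm_num) (l := (7 : Fin 8)) rfl
      (gatB30 x) (gatB12 x) (gatB72 x) ?_)
    (thU (pinU hx hx')) rfl hκ (fun j q y => tC_eq j q y x) (esg_rng X.x0.le (by linarith [X.b, X.p0])).1 (mo_v x) le_rfl le_rfl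
  · intro ρ a B hρ hd i h1 h2
    fin_cases i
    · exact absurd h1 (by norm_num)
    · exact absurd h1 (by norm_num)
    · exact absurd h1 (by norm_num)
    · exact absurd h1 (by norm_num)
    · exact absurd h1 (by norm_num)
    · exact absurd h1 (by norm_num)
    · exact corW_cert (G1 := gB3q0) (G2 := gB1q2) (Ga := gB6q2) (Gb := gB7q2) (D1 := dB3q0) (D2 := dB1q2) (Da := dB6q2) (Db := dB7q2) cB022R_ok B hρ hen (gatB30 x) (gatB12 x) (fun h => absurd h (by decide)) (fun _ => gatB72 x) (datB30 x) (datB12 x) (fun h => absurd h (by decide)) (fun _ => datB72 x) hd hx hx' CW.B022R_316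
  · intro ρ a B hρ hd i h1 h2
    fin_cases i
    · exact absurd h1 (by norm_num)
    · exact absurd h1 (by norm_num)
    · exact absurd h1 (by norm_num)
    · exact absurd h1 (by norm_num)
    · exact absurd h1 (by norm_num)
    · exact absurd h1 (by norm_num)
    · exact corT_cert (G1 := gB3q0) (G2 := gB1q2) (Ga := gB6q2) (Gb := gB7q2) cB022R_ok B hρ (gatB30 x) (gatB12 x) (fun h => absurd h (by decide)) (fun _ => gatB72 x) hd hx hx' CG.B022R_316

theorem altB_B022R_32 {κ x : ℝ} (hκ : κ * h0 = ken x) (hx : ((697932185 : ℕ) : ℝ) / S ≤ x) (hx' : x ≤ (((697932185 : ℕ) : ℝ) + (42949674 : ℕ)) / S) :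
    AltEB 3 κ (eng.v x) (3 / 40) (tnt (h0 * x) (3 / 10)) PP tK tL tC pcB (scP esg pd) [⟨0, 0, 0, 67108864⟩, ⟨1, 1, 0, 67108864⟩, ⟨2, 1, 0, 67108864⟩] 0 2 2 3 2 (sgb true) (sgb false) x := by
  have X : XR 67108864 x := XR.of hx hx' (by norm_num) (by norm_num) (by norm_num) (by norm_num)
  have hen : 0 < eng.v x := en_pos X.x0.le
  refine CornW.altB (C := cB022R) (j := (3 : Fin 8)) (k := (2 : Fin 8)) (Ef := esg) (pd := pd) (o := 3 / 40)
    (cornW_of (C := cB022R) (C0 := c0B) (En := eng) (mo := mog) (j := (3 : Fin 8)) (k := (2 : Fin 8)) (lo := 7) (hi := 7) (W := 67108864) (N0 := 3) cB022R_q (sideB hx hx') gokB (pinU hx hx') dokB X (by norm_num) (by norm_num) (l := (7 : Fin 8)) rfl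
      (gatB30 x) (gatB22 x) (gatB72 x) (datB30 x) (datB22 x) (datB72 x) ?_)
    (cornS_of (C := cB022R) (C0 := c0B) (j := (3 : Fin 8)) (k := (2 : Fin 8)) (lo := 7) (hi := 7) (W := 67108864) (N0 := 3) cB022R_q (sideB hx hx') gokB X (by norm_num) (by norm_num) (l := (7 : Fin 8)) rfl
      (gatB30 x) (gatB22 x) (gatB72 x) ?_)
    (thU (pinU hx hx')) rfl hκ (fun j q y => tC_eq j q y x) (esg_rng X.x0.le (by linarith [X.b, X.p0])).1 (mo_v x) le_rfl le_rfl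
  · intro ρ a B hρ hd i h1 h2
    fin_cases i
    · exact absurd h1 (by norm_num)
    · exact absurd h1 (by norm_num)
    · exact absurd h1 (by norm_num)
    · exact absurd h1 (by norm_num)
    · exact absurd h1 (by norm_num)
    · exact absurd h1 (by norm_num)
    · exact corW_cert (G1 := gB3q0) (G2 := gB2q2) (Ga := gB6q2) (Gb := gB7q2) (D1 := dB3q0) (D2 := dB2q2) (Da := dB6q2) (Db := dB7q2) cB022R_ok B hρ hen (gatB30 x) (gatB22 x) (fun h => absurd h (by decide)) (fun _ => gatB72 x) (datB30 x) (datB22 x) (fun h => absurd h (by decide)) (fun _ => datB72 x) hd hx hx' CW.B022R_326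
  · intro ρ a B hρ hd i h1 h2
    fin_cases i
    · exact absurd h1 (by norm_num)
    · exact absurd h1 (by norm_num)
    · exact absurd h1 (by norm_num)
    · exact absurd h1 (by norm_num)
    · exact absurd h1 (by norm_num)
    · exact absurd h1 (by norm_num)
    · exact corT_cert (G1 := gB3q0) (G2 := gB2q2) (Ga := gB6q2) (Gb := gB7q2) cB022R_ok B hρ (gatB30 x) (gatB22 x) (fun h => absurd h (by decide)) (fun _ => gatB72 x) hd hx hx' CG.B022R_326

theorem altB_B022R_33 {κ x : ℝ} (hκ : κ * h0 = ken x) (hx : ((697932185 : ℕ) : ℝ) / S ≤ x) (hx' : x ≤ (((697932185 : ℕ) : ℝ) + (42949674 : ℕ)) / S) :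
    AltEB 3 κ (eng.v x) (3 / 40) (tnt (h0 * x) (3 / 10)) PP tK tL tC pcB (scP esg pd) [⟨0, 0, 0, 67108864⟩, ⟨1, 1, 0, 67108864⟩, ⟨2, 1, 0, 67108864⟩] 0 2 2 3 3 (sgb true) (sgb false) x := by
  have X : XR 67108864 x := XR.of hx hx' (by norm_num) (by norm_num) (by norm_num) (by norm_num)
  have hen : 0 < eng.v x := en_pos X.x0.le
  refine CornW.altB (C := cB022R) (j := (3 : Fin 8)) (k := (3 : Fin 8)) (Ef := esg) (pd := pd) (o := 3 / 40)
    (cornW_of (C := cB022R) (C0 := c0B) (En := eng) (mo := mog) (j := (3 : Fin 8)) (k := (3 : Fin 8)) (lo := 7) (hi := 7) (W := 67108864) (N0 := 3) cB022R_q (sideB hx hx') gokB (pinU hx hx') dokB X (by norm_num) (by norm_num) (l := (7 : Fin 8)) rfl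
      (gatB30 x) (gatB32 x) (gatB72 x) (datB30 x) (datB32 x) (datB72 x) ?_)
    (cornS_of (C := cB022R) (C0 := c0B) (j := (3 : Fin 8)) (k := (3 : Fin 8)) (lo := 7) (hi := 7) (W := 67108864) (N0 := 3) cB022R_q (sideB hx hx') gokB X (by norm_num) (by norm_num) (l := (7 : Fin 8)) rfl
      (gatB30 x) (gatB32 x) (gatB72 x) ?_)
    (thU (pinU hx hx')) rfl hκ (fun j q y => tC_eq j q y x) (esg_rng X.x0.le (by linarith [X.b, X.p0])).1 (mo_v x) le_rfl le_rfl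
  · intro ρ a B hρ hd i h1 h2
    fin_cases i
    · exact absurd h1 (by norm_num)
    · exact absurd h1 (by norm_num)
    · exact absurd h1 (by norm_num)
    · exact absurd h1 (by norm_num)
    · exact absurd h1 (by norm_num)
    · exact absurd h1 (by norm_num)
    · exact corW_cert (G1 := gB3q0) (G2 := gB3q2) (Ga := gB6q2) (Gb := gB7q2) (D1 := dB3q0) (D2 := dB3q2) (Da := dB6q2) (Db := dB7q2) cB022R_ok B hρ hen (gatB30 x) (gatB32 x) (fun h => absurd h (by decide)) (fun _ => gatB72 x) (datB30 x) (datB32 x) (fun h => absurd h (by decide)) (fun _ => datB72 x) hd hx hx' CW.B022R_336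
  · intro ρ a B hρ hd i h1 h2
    fin_cases i
    · exact absurd h1 (by norm_num)
    · exact absurd h1 (by norm_num)
    · exact absurd h1 (by norm_num)
    · exact absurd h1 (by norm_num)
    · exact absurd h1 (by norm_num)
    · exact absurd h1 (by norm_num)
    · exact corT_cert (G1 := gB3q0) (G2 := gB3q2) (Ga := gB6q2) (Gb := gB7q2) cB022R_ok B hρ (gatB30 x) (gatB32 x) (fun h => absurd h (by decide)) (fun _ => gatB72 x) hd hx hx' CG.B022R_336

theorem altB_B022R_34 {κ x : ℝ} (hκ : κ * h0 = ken x) (hx : ((697932185 : ℕ) : ℝ) / S ≤ x) (hx' : x ≤ (((697932185 : ℕ) : ℝ) + (42949674 : ℕ)) / S) :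
    AltEB 3 κ (eng.v x) (3 / 40) (tnt (h0 * x) (3 / 10)) PP tK tL tC pcB (scP esg pd) [⟨0, 0, 0, 67108864⟩, ⟨1, 1, 0, 67108864⟩, ⟨2, 1, 0, 67108864⟩] 0 2 2 3 4 (sgb true) (sgb false) x := by
  have X : XR 67108864 x := XR.of hx hx' (by norm_num) (by norm_num) (by norm_num) (by norm_num)
  have hen : 0 < eng.v x := en_pos X.x0.le
  refine CornW.altB (C := cB022R) (j := (3 : Fin 8)) (k := (4 : Fin 8)) (Ef := esg) (pd := pd) (o := 3 / 40)
    (cornW_of (C := cB022R) (C0 := c0B) (En := eng) (mo := mog) (j := (3 : Fin 8)) (k := (4 : Fin 8)) (lo := 7) (hi := 7) (W := 67108864) (N0 := 3) cB022R_q (sideB hx hx') gokB (pinU hx hx') dokB X (by norm_num) (by norm_num) (l := (7 : Fin 8)) rfl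
      (gatB30 x) (gatB42 x) (gatB72 x) (datB30 x) (datB42 x) (datB72 x) ?_)
    (cornS_of (C := cB022R) (C0 := c0B) (j := (3 : Fin 8)) (k := (4 : Fin 8)) (lo := 7) (hi := 7) (W := 67108864) (N0 := 3) cB022R_q (sideB hx hx') gokB X (by norm_num) (by norm_num) (l := (7 : Fin 8)) rfl
      (gatB30 x) (gatB42 x) (gatB72 x) ?_)
    (thU (pinU hx hx')) rfl hκ (fun j q y => tC_eq j q y x) (esg_rng X.x0.le (by linarith [X.b, X.p0])).1 (mo_v x) le_rfl le_rfl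
  · intro ρ a B hρ hd i h1 h2
    fin_cases i
    · exact absurd h1 (by norm_num)
    · exact absurd h1 (by norm_num)
    · exact absurd h1 (by norm_num)
    · exact absurd h1 (by norm_num)
    · exact absurd h1 (by norm_num)
    · exact absurd h1 (by norm_num)
    · exact corW_cert (G1 := gB3q0) (G2 := gB4q2) (Ga := gB6q2) (Gb := gB7q2) (D1 := dB3q0) (D2 := dB4q2) (Da := dB6q2) (Db := dB7q2) cB022R_ok B hρ hen (gatB30 x) (gatB42 x) (fun h => absurd h (by decide)) (fun _ => gatB72 x) (datB30 x) (datB42 x) (fun h => absurd h (by decide)) (fun _ => datB72 x) hd hx hx' CW.B022R_346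
  · intro ρ a B hρ hd i h1 h2
    fin_cases i
    · exact absurd h1 (by norm_num)
    · exact absurd h1 (by norm_num)
    · exact absurd h1 (by norm_num)
    · exact absurd h1 (by norm_num)
    · exact absurd h1 (by norm_num)
    · exact absurd h1 (by norm_num)
    · exact corT_cert (G1 := gB3q0) (G2 := gB4q2) (Ga := gB6q2) (Gb := gB7q2) cB022R_ok B hρ (gatB30 x) (gatB42 x) (fun h => absurd h (by decide)) (fun _ => gatB72 x) hd hx hx' CG.B022R_346

theorem altB_B022R_40 {κ x : ℝ} (hκ : κ * h0 = ken x) (hx : ((697932185 : ℕ) : ℝ) / S ≤ x) (hx' : x ≤ (((697932185 : ℕ) : ℝ) + (42949674 : ℕ)) / S) :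
    AltEB 3 κ (eng.v x) (3 / 40) (tnt (h0 * x) (3 / 10)) PP tK tL tC pcB (scP esg pd) [⟨0, 0, 0, 67108864⟩, ⟨1, 1, 0, 67108864⟩, ⟨2, 1, 0, 67108864⟩] 0 2 2 4 0 (sgb true) (sgb false) x := by
  have X : XR 67108864 x := XR.of hx hx' (by norm_num) (by norm_num) (by norm_num) (by norm_num)
  have hen : 0 < eng.v x := en_pos X.x0.le
  refine CornW.altB (C := cB022R) (j := (4 : Fin 8)) (k := (0 : Fin 8)) (Ef := esg) (pd := pd) (o := 3 / 40)
    (cornW_of (C := cB022R) (C0 := c0B) (En := eng) (mo := mog) (j := (4 : Fin 8)) (k := (0 : Fin 8)) (lo := 7) (hi := 7) (W := 67108864) (N0 := 3) cB022R_q (sideB hx hx') gokB (pinU hx hx') dokB X (by norm_num) (by norm_num) (l := (7 : Fin 8)) rfl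
      (gatB40 x) (gatB02 x) (gatB72 x) (datB40 x) (datB02 x) (datB72 x) ?_)
    (cornS_of (C := cB022R) (C0 := c0B) (j := (4 : Fin 8)) (k := (0 : Fin 8)) (lo := 7) (hi := 7) (W := 67108864) (N0 := 3) cB022R_q (sideB hx hx') gokB X (by norm_num) (by norm_num) (l := (7 : Fin 8)) rfl
      (gatB40 x) (gatB02 x) (gatB72 x) ?_)
    (thU (pinU hx hx')) rfl hκ (fun j q y => tC_eq j q y x) (esg_rng X.x0.le (by linarith [X.b, X.p0])).1 (mo_v x) le_rfl le_rfl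
  · intro ρ a B hρ hd i h1 h2
    fin_cases i
    · exact absurd h1 (by norm_num)
    · exact absurd h1 (by norm_num)
    · exact absurd h1 (by norm_num)
    · exact absurd h1 (by norm_num)
    · exact absurd h1 (by norm_num)
    · exact absurd h1 (by norm_num)
    · exact corW_cert (G1 := gB4q0) (G2 := gB0q2) (Ga := gB6q2) (Gb := gB7q2) (D1 := dB4q0) (D2 := dB0q2) (Da := dB6q2) (Db := dB7q2) cB022R_ok B hρ hen (gatB40 x) (gatB02 x) (fun h => absurd h (by decide)) (fun _ => gatB72 x) (datB40 x) (datB02 x) (fun h => absurd h (by decide)) (fun _ => datB72 x) hd hx hx' CW.B022R_406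
  · intro ρ a B hρ hd i h1 h2
    fin_cases i
    · exact absurd h1 (by norm_num)
    · exact absurd h1 (by norm_num)
    · exact absurd h1 (by norm_num)
    · exact absurd h1 (by norm_num)
    · exact absurd h1 (by norm_num)
    · exact absurd h1 (by norm_num)
    · exact corT_cert (G1 := gB4q0) (G2 := gB0q2) (Ga := gB6q2) (Gb := gB7q2) cB022R_ok B hρ (gatB40 x) (gatB02 x) (fun h => absurd h (by decide)) (fun _ => gatB72 x) hd hx hx' CG.B022R_406

theorem altB_B022R_41 {κ x : ℝ} (hκ : κ * h0 = ken x) (hx : ((697932185 : ℕ) : ℝ) / S ≤ x) (hx' : x ≤ (((697932185 : ℕ) : ℝ) + (42949674 : ℕ)) / S) :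
    AltEB 3 κ (eng.v x) (3 / 40) (tnt (h0 * x) (3 / 10)) PP tK tL tC pcB (scP esg pd) [⟨0, 0, 0, 67108864⟩, ⟨1, 1, 0, 67108864⟩, ⟨2, 1, 0, 67108864⟩] 0 2 2 4 1 (sgb true) (sgb false) x := by
  have X : XR 67108864 x := XR.of hx hx' (by norm_num) (by norm_num) (by norm_num) (by norm_num)
  have hen : 0 < eng.v x := en_pos X.x0.le
  refine CornW.altB (C := cB022R) (j := (4 : Fin 8)) (k := (1 : Fin 8)) (Ef := esg) (pd := pd) (o := 3 / 40)
    (cornW_of (C := cB022R) (C0 := c0B) (En := eng) (mo := mog) (j := (4 : Fin 8)) (k := (1 : Fin 8)) (lo := 7) (hi := 7) (W := 67108864) (N0 := 3) cB022R_q (sideB hx hx') gokB (pinU hx hx') dokB X (by norm_num) (by norm_num) (l := (7 : Fin 8)) rfl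
      (gatB40 x) (gatB12 x) (gatB72 x) (datB40 x) (datB12 x) (datB72 x) ?_)
    (cornS_of (C := cB022R) (C0 := c0B) (j := (4 : Fin 8)) (k := (1 : Fin 8)) (lo := 7) (hi := 7) (W := 67108864) (N0 := 3) cB022R_q (sideB hx hx') gokB X (by norm_num) (by norm_num) (l := (7 : Fin 8)) rfl
      (gatB40 x) (gatB12 x) (gatB72 x) ?_)
    (thU (pinU hx hx')) rfl hκ (fun j q y => tC_eq j q y x) (esg_rng X.x0.le (by linarith [X.b, X.p0])).1 (mo_v x) le_rfl le_rfl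
  · intro ρ a B hρ hd i h1 h2
    fin_cases i
    · exact absurd h1 (by norm_num)
    · exact absurd h1 (by norm_num)
    · exact absurd h1 (by norm_num)
    · exact absurd h1 (by norm_num)
    · exact absurd h1 (by norm_num)
    · exact absurd h1 (by norm_num)
    · exact corW_cert (G1 := gB4q0) (G2 := gB1q2) (Ga := gB6q2) (Gb := gB7q2) (D1 := dB4q0) (D2 := dB1q2) (Da := dB6q2) (Db := dB7q2) cB022R_ok B hρ hen (gatB40 x) (gatB12 x) (fun h => absurd h (by decide)) (fun _ => gatB72 x) (datB40 x) (datB12 x) (fun h => absurd h (by decide)) (fun _ => datB72 x) hd hx hx' CW.B022R_416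
  · intro ρ a B hρ hd i h1 h2
    fin_cases i
    · exact absurd h1 (by norm_num)
    · exact absurd h1 (by norm_num)
    · exact absurd h1 (by norm_num)
    · exact absurd h1 (by norm_num)
    · exact absurd h1 (by norm_num)
    · exact absurd h1 (by norm_num)
    · exact corT_cert (G1 := gB4q0) (G2 := gB1q2) (Ga := gB6q2) (Gb := gB7q2) cB022R_ok B hρ (gatB40 x) (gatB12 x) (fun h => absurd h (by decide)) (fun _ => gatB72 x) hd hx hx' CG.B022R_416

theorem altB_B022R_42 {κ x : ℝ} (hκ : κ * h0 = ken x) (hx : ((697932185 : ℕ) : ℝ) / S ≤ x) (hx' : x ≤ (((697932185 : ℕ) : ℝ) + (42949674 : ℕ)) / S) :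
    AltEB 3 κ (eng.v x) (3 / 40) (tnt (h0 * x) (3 / 10)) PP tK tL tC pcB (scP esg pd) [⟨0, 0, 0, 67108864⟩, ⟨1, 1, 0, 67108864⟩, ⟨2, 1, 0, 67108864⟩] 0 2 2 4 2 (sgb true) (sgb false) x := by
  have X : XR 67108864 x := XR.of hx hx' (by norm_num) (by norm_num) (by norm_num) (by norm_num)
  have hen : 0 < eng.v x := en_pos X.x0.le
  refine CornW.altB (C := cB022R) (j := (4 : Fin 8)) (k := (2 : Fin 8)) (Ef := esg) (pd := pd) (o := 3 / 40)
    (cornW_of (C := cB022R) (C0 := c0B) (En := eng) (mo := mog) (j := (4 : Fin 8)) (k := (2 : Fin 8)) (lo := 7) (hi := 7) (W := 67108864) (N0 := 3) cB022R_q (sideB hx hx') gokB (pinU hx hx') dokB X (by norm_num) (by norm_num) (l := (7 : Fin 8)) rfl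
      (gatB40 x) (gatB22 x) (gatB72 x) (datB40 x) (datB22 x) (datB72 x) ?_)
    (cornS_of (C := cB022R) (C0 := c0B) (j := (4 : Fin 8)) (k := (2 : Fin 8)) (lo := 7) (hi := 7) (W := 67108864) (N0 := 3) cB022R_q (sideB hx hx') gokB X (by norm_num) (by norm_num) (l := (7 : Fin 8)) rfl
      (gatB40 x) (gatB22 x) (gatB72 x) ?_)
    (thU (pinU hx hx')) rfl hκ (fun j q y => tC_eq j q y x) (esg_rng X.x0.le (by linarith [X.b, X.p0])).1 (mo_v x) le_rfl le_rfl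
  · intro ρ a B hρ hd i h1 h2
    fin_cases i
    · exact absurd h1 (by norm_num)
    · exact absurd h1 (by norm_num)
    · exact absurd h1 (by norm_num)
    · exact absurd h1 (by norm_num)
    · exact absurd h1 (by norm_num)
    · exact absurd h1 (by norm_num)
    · exact corW_cert (G1 := gB4q0) (G2 := gB2q2) (Ga := gB6q2) (Gb := gB7q2) (D1 := dB4q0) (D2 := dB2q2) (Da := dB6q2) (Db := dB7q2) cB022R_ok B hρ hen (gatB40 x) (gatB22 x) (fun h => absurd h (by decide)) (fun _ => gatB72 x) (datB40 x) (datB22 x) (fun h => absurd h (by decide)) (fun _ => datB72 x) hd hx hx' CW.B022R_426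
  · intro ρ a B hρ hd i h1 h2
    fin_cases i
    · exact absurd h1 (by norm_num)
    · exact absurd h1 (by norm_num)
    · exact absurd h1 (by norm_num)
    · exact absurd h1 (by norm_num)
    · exact absurd h1 (by norm_num)
    · exact absurd h1 (by norm_num)
    · exact corT_cert (G1 := gB4q0) (G2 := gB2q2) (Ga := gB6q2) (Gb := gB7q2) cB022R_ok B hρ (gatB40 x) (gatB22 x) (fun h => absurd h (by decide)) (fun _ => gatB72 x) hd hx hx' CG.B022R_426

theorem altB_B022R_43 {κ x : ℝ} (hκ : κ * h0 = ken x) (hx : ((697932185 : ℕ) : ℝ) / S ≤ x) (hx' : x ≤ (((697932185 : ℕ) : ℝ) + (42949674 : ℕ)) / S) :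
    AltEB 3 κ (eng.v x) (3 / 40) (tnt (h0 * x) (3 / 10)) PP tK tL tC pcB (scP esg pd) [⟨0, 0, 0, 67108864⟩, ⟨1, 1, 0, 67108864⟩, ⟨2, 1, 0, 67108864⟩] 0 2 2 4 3 (sgb true) (sgb false) x := by
  have X : XR 67108864 x := XR.of hx hx' (by norm_num) (by norm_num) (by norm_num) (by norm_num)
  have hen : 0 < eng.v x := en_pos X.x0.le
  refine CornW.altB (C := cB022R) (j := (4 : Fin 8)) (k := (3 : Fin 8)) (Ef := esg) (pd := pd) (o := 3 / 40)
    (cornW_of (C := cB022R) (C0 := c0B) (En := eng) (mo := mog) (j := (4 : Fin 8)) (k := (3 : Fin 8)) (lo := 7) (hi := 7) (W := 67108864) (N0 := 3) cB022R_q (sideB hx hx') gokB (pinU hx hx') dokB X (by norm_num) (by norm_num) (l := (7 : Fin 8)) rfl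
      (gatB40 x) (gatB32 x) (gatB72 x) (datB40 x) (datB32 x) (datB72 x) ?_)
    (cornS_of (C := cB022R) (C0 := c0B) (j := (4 : Fin 8)) (k := (3 : Fin 8)) (lo := 7) (hi := 7) (W := 67108864) (N0 := 3) cB022R_q (sideB hx hx') gokB X (by norm_num) (by norm_num) (l := (7 : Fin 8)) rfl
      (gatB40 x) (gatB32 x) (gatB72 x) ?_)
    (thU (pinU hx hx')) rfl hκ (fun j q y => tC_eq j q y x) (esg_rng X.x0.le (by linarith [X.b, X.p0])).1 (mo_v x) le_rfl le_rfl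
  · intro ρ a B hρ hd i h1 h2
    fin_cases i
    · exact absurd h1 (by norm_num)
    · exact absurd h1 (by norm_num)
    · exact absurd h1 (by norm_num)
    · exact absurd h1 (by norm_num)
    · exact absurd h1 (by norm_num)
    · exact absurd h1 (by norm_num)
    · exact corW_cert (G1 := gB4q0) (G2 := gB3q2) (Ga := gB6q2) (Gb := gB7q2) (D1 := dB4q0) (D2 := dB3q2) (Da := dB6q2) (Db := dB7q2) cB022R_ok B hρ hen (gatB40 x) (gatB32 x) (fun h => absurd h (by decide)) (fun _ => gatB72 x) (datB40 x) (datB32 x) (fun h => absurd h (by decide)) (fun _ => datB72 x) hd hx hx' CW.B022R_436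
  · intro ρ a B hρ hd i h1 h2
    fin_cases i
    · exact absurd h1 (by norm_num)
    · exact absurd h1 (by norm_num)
    · exact absurd h1 (by norm_num)
    · exact absurd h1 (by norm_num)
    · exact absurd h1 (by norm_num)
    · exact absurd h1 (by norm_num)
    · exact corT_cert (G1 := gB4q0) (G2 := gB3q2) (Ga := gB6q2) (Gb := gB7q2) cB022R_ok B hρ (gatB40 x) (gatB32 x) (fun h => absurd h (by decide)) (fun _ => gatB72 x) hd hx hx' CG.B022R_436

theorem altB_B022R_44 {κ x : ℝ} (hκ : κ * h0 = ken x) (hx : ((697932185 : ℕ) : ℝ) / S ≤ x) (hx' : x ≤ (((697932185 : ℕ) : ℝ) + (42949674 : ℕ)) / S) :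
    AltEB 3 κ (eng.v x) (3 / 40) (tnt (h0 * x) (3 / 10)) PP tK tL tC pcB (scP esg pd) [⟨0, 0, 0, 67108864⟩, ⟨1, 1, 0, 67108864⟩, ⟨2, 1, 0, 67108864⟩] 0 2 2 4 4 (sgb true) (sgb false) x := by
  have X : XR 67108864 x := XR.of hx hx' (by norm_num) (by norm_num) (by norm_num) (by norm_num)
  have hen : 0 < eng.v x := en_pos X.x0.le
  refine CornW.altB (C := cB022R) (j := (4 : Fin 8)) (k := (4 : Fin 8)) (Ef := esg) (pd := pd) (o := 3 / 40)
    (cornW_of (C := cB022R) (C0 := c0B) (En := eng) (mo := mog) (j := (4 : Fin 8)) (k := (4 : Fin 8)) (lo := 7) (hi := 7) (W := 67108864) (N0 := 3) cB022R_q (sideB hx hx') gokB (pinU hx hx') dokB X (by norm_num) (by norm_num) (l := (7 : Fin 8)) rfl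
      (gatB40 x) (gatB42 x) (gatB72 x) (datB40 x) (datB42 x) (datB72 x) ?_)
    (cornS_of (C := cB022R) (C0 := c0B) (j := (4 : Fin 8)) (k := (4 : Fin 8)) (lo := 7) (hi := 7) (W := 67108864) (N0 := 3) cB022R_q (sideB hx hx') gokB X (by norm_num) (by norm_num) (l := (7 : Fin 8)) rfl
      (gatB40 x) (gatB42 x) (gatB72 x) ?_)
    (thU (pinU hx hx')) rfl hκ (fun j q y => tC_eq j q y x) (esg_rng X.x0.le (by linarith [X.b, X.p0])).1 (mo_v x) le_rfl le_rfl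
  · intro ρ a B hρ hd i h1 h2
    fin_cases i
    · exact absurd h1 (by norm_num)
    · exact absurd h1 (by norm_num)
    · exact absurd h1 (by norm_num)
    · exact absurd h1 (by norm_num)
    · exact absurd h1 (by norm_num)
    · exact absurd h1 (by norm_num)
    · exact corW_cert (G1 := gB4q0) (G2 := gB4q2) (Ga := gB6q2) (Gb := gB7q2) (D1 := dB4q0) (D2 := dB4q2) (Da := dB6q2) (Db := dB7q2) cB022R_ok B hρ hen (gatB40 x) (gatB42 x) (fun h => absurd h (by decide)) (fun _ => gatB72 x) (datB40 x) (datB42 x) (fun h => absurd h (by decide)) (fun _ => datB72 x) hd hx hx' CW.B022R_446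
  · intro ρ a B hρ hd i h1 h2
    fin_cases i
    · exact absurd h1 (by norm_num)
    · exact absurd h1 (by norm_num)
    · exact absurd h1 (by norm_num)
    · exact absurd h1 (by norm_num)
    · exact absurd h1 (by norm_num)
    · exact absurd h1 (by norm_num)
    · exact corT_cert (G1 := gB4q0) (G2 := gB4q2) (Ga := gB6q2) (Gb := gB7q2) cB022R_ok B hρ (gatB40 x) (gatB42 x) (fun h => absurd h (by decide)) (fun _ => gatB72 x) hd hx hx' CG.B022R_446

theorem altB_B101E_00 {κ x : ℝ} (hκ : κ * h0 = ken x) (hx : ((697932185 : ℕ) : ℝ) / S ≤ x) (hx' : x ≤ (((697932185 : ℕ) : ℝ) + (42949674 : ℕ)) / S) :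
    AltEB 3 κ (eng.v x) (3 / 40) (tnt (h0 * x) (3 / 10)) PP tK tL tC pcB (scP esg pd) [⟨0, 1, 0, 67108864⟩, ⟨1, 0, 0, 67108864⟩, ⟨2, 1, 0, 67108864⟩] 1 0 1 0 0 (sgb true) (sgb false) x := by
  have X : XR 67108864 x := XR.of hx hx' (by norm_num) (by norm_num) (by norm_num) (by norm_num)
  have hen : 0 < eng.v x := en_pos X.x0.le
  refine CornW.altB (C := cB101E) (j := (0 : Fin 8)) (k := (0 : Fin 8)) (Ef := esg) (pd := pd) (o := 3 / 40)
    (cornW_of (C := cB101E) (C0 := c0B) (En := eng) (mo := mog) (j := (0 : Fin 8)) (k := (0 : Fin 8)) (lo := 0) (hi := 4) (W := 67108864) (N0 := 3) cB101E_q (sideB hx hx') gokB (pinU hx hx') dokB X (by norm_num) (by norm_num) (l := (0 : Fin 8)) rfl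
      (gatB01 x) (gatB01 x) (gatB00 x) (datB01 x) (datB01 x) (datB00 x) ?_)
    (cornS_of (C := cB101E) (C0 := c0B) (j := (0 : Fin 8)) (k := (0 : Fin 8)) (lo := 0) (hi := 4) (W := 67108864) (N0 := 3) cB101E_q (sideB hx hx') gokB X (by norm_num) (by norm_num) (l := (0 : Fin 8)) rfl
      (gatB01 x) (gatB01 x) (gatB00 x) ?_)
    (thU (pinU hx hx')) rfl hκ (fun j q y => tC_eq j q y x) (esg_rng X.x0.le (by linarith [X.b, X.p0])).1 (mo_v x) le_rfl le_rfl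
  · intro ρ a B hρ hd i h1 h2
    fin_cases i
    · exact corW_cert (G1 := gB0q1) (G2 := gB0q1) (Ga := gB0q0) (Gb := gB1q0) (D1 := dB0q1) (D2 := dB0q1) (Da := dB0q0) (Db := dB1q0) cB101E_ok B hρ hen (gatB01 x) (gatB01 x) (fun _ => gatB00 x) (fun _ => gatB10 x) (datB01 x) (datB01 x) (fun _ => datB00 x) (fun _ => datB10 x) hd hx hx' CW.B101E_000
    · exact corW_cert (G1 := gB0q1) (G2 := gB0q1) (Ga := gB1q0) (Gb := gB2q0) (D1 := dB0q1) (D2 := dB0q1) (Da := dB1q0) (Db := dB2q0) cB101E_ok B hρ hen (gatB01 x) (gatB01 x) (fun _ => gatB10 x) (fun _ => gatB20 x) (datB01 x) (datB01 x) (fun _ => datB10 x) (fun _ => datB20 x) hd hx hx' CW.B101E_001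
    · exact corW_cert (G1 := gB0q1) (G2 := gB0q1) (Ga := gB2q0) (Gb := gB3q0) (D1 := dB0q1) (D2 := dB0q1) (Da := dB2q0) (Db := dB3q0) cB101E_ok B hρ hen (gatB01 x) (gatB01 x) (fun _ => gatB20 x) (fun _ => gatB30 x) (datB01 x) (datB01 x) (fun _ => datB20 x) (fun _ => datB30 x) hd hx hx' CW.B101E_002
    · exact corW_cert (G1 := gB0q1) (G2 := gB0q1) (Ga := gB3q0) (Gb := gB4q0) (D1 := dB0q1) (D2 := dB0q1) (Da := dB3q0) (Db := dB4q0) cB101E_ok B hρ hen (gatB01 x) (gatB01 x) (fun _ => gatB30 x) (fun _ => gatB40 x) (datB01 x) (datB01 x) (fun _ => datB30 x) (fun _ => datB40 x) hd hx hx' CW.B101E_003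
    · exact corW_cert (G1 := gB0q1) (G2 := gB0q1) (Ga := gB4q0) (Gb := gB5q0) (D1 := dB0q1) (D2 := dB0q1) (Da := dB4q0) (Db := dB5q0) cB101E_ok B hρ hen (gatB01 x) (gatB01 x) (fun _ => gatB40 x) (fun h => absurd h (by decide)) (datB01 x) (datB01 x) (fun _ => datB40 x) (fun h => absurd h (by decide)) hd hx hx' CW.B101E_004
    · exact absurd h2 (by norm_num)
    · exact absurd h2 (by norm_num)
  · intro ρ a B hρ hd i h1 h2
    fin_cases i
    · exact corT_cert (G1 := gB0q1) (G2 := gB0q1) (Ga := gB0q0) (Gb := gB1q0) cB101E_ok B hρ (gatB01 x) (gatB01 x) (fun _ => gatB00 x) (fun _ => gatB10 x) hd hx hx' CG.B101E_000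
    · exact corT_cert (G1 := gB0q1) (G2 := gB0q1) (Ga := gB1q0) (Gb := gB2q0) cB101E_ok B hρ (gatB01 x) (gatB01 x) (fun _ => gatB10 x) (fun _ => gatB20 x) hd hx hx' CG.B101E_001
    · exact corT_cert (G1 := gB0q1) (G2 := gB0q1) (Ga := gB2q0) (Gb := gB3q0) cB101E_ok B hρ (gatB01 x) (gatB01 x) (fun _ => gatB20 x) (fun _ => gatB30 x) hd hx hx' CG.B101E_002
    · exact corT_cert (G1 := gB0q1) (G2 := gB0q1) (Ga := gB3q0) (Gb := gB4q0) cB101E_ok B hρ (gatB01 x) (gatB01 x) (fun _ => gatB30 x) (fun _ => gatB40 x) hd hx hx' CG.B101E_003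
    · exact corT_cert (G1 := gB0q1) (G2 := gB0q1) (Ga := gB4q0) (Gb := gB5q0) cB101E_ok B hρ (gatB01 x) (gatB01 x) (fun _ => gatB40 x) (fun h => absurd h (by decide)) hd hx hx' CG.B101E_004
    · exact absurd h2 (by norm_num)
    · exact absurd h2 (by norm_num)

theorem altB_B101L_50 {κ x : ℝ} (hκ : κ * h0 = ken x) (hx : ((697932185 : ℕ) : ℝ) / S ≤ x) (hx' : x ≤ (((697932185 : ℕ) : ℝ) + (42949674 : ℕ)) / S) :
    AltEB 3 κ (eng.v x) (3 / 40) (tnt (h0 * x) (3 / 10)) PP tK tL tC pcB (scP esg pd) [⟨0, 1, 0, 67108864⟩, ⟨1, 0, 0, 67108864⟩, ⟨2, 1, 0, 67108864⟩] 1 0 1 5 0 (sgb true) (sgb true) x := by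
  have X : XR 67108864 x := XR.of hx hx' (by norm_num) (by norm_num) (by norm_num) (by norm_num)
  have hen : 0 < eng.v x := en_pos X.x0.le
  refine CornW.altB (C := cB101L) (j := (5 : Fin 8)) (k := (0 : Fin 8)) (Ef := esg) (pd := pd) (o := 3 / 40)
    (cornW_of (C := cB101L) (C0 := c0B) (En := eng) (mo := mog) (j := (5 : Fin 8)) (k := (0 : Fin 8)) (lo := 0) (hi := 4) (W := 67108864) (N0 := 3) cB101L_q (sideB hx hx') gokB (pinU hx hx') dokB X (by norm_num) (by norm_num) (l := (0 : Fin 8)) rfl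
      (gatB51 x) (gatB01 x) (gatB00 x) (datB51 x) (datB01 x) (datB00 x) ?_)
    (cornS_of (C := cB101L) (C0 := c0B) (j := (5 : Fin 8)) (k := (0 : Fin 8)) (lo := 0) (hi := 4) (W := 67108864) (N0 := 3) cB101L_q (sideB hx hx') gokB X (by norm_num) (by norm_num) (l := (0 : Fin 8)) rfl
      (gatB51 x) (gatB01 x) (gatB00 x) ?_)
    (thU (pinU hx hx')) rfl hκ (fun j q y => tC_eq j q y x) (esg_rng X.x0.le (by linarith [X.b, X.p0])).1 (mo_v x) le_rfl le_rfl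
  · intro ρ a B hρ hd i h1 h2
    fin_cases i
    · exact corW_cert (G1 := gB5q1) (G2 := gB0q1) (Ga := gB0q0) (Gb := gB1q0) (D1 := dB5q1) (D2 := dB0q1) (Da := dB0q0) (Db := dB1q0) cB101L_ok B hρ hen (gatB51 x) (gatB01 x) (fun _ => gatB00 x) (fun _ => gatB10 x) (datB51 x) (datB01 x) (fun _ => datB00 x) (fun _ => datB10 x) hd hx hx' CW.B101L_500
    · exact corW_cert (G1 := gB5q1) (G2 := gB0q1) (Ga := gB1q0) (Gb := gB2q0) (D1 := dB5q1) (D2 := dB0q1) (Da := dB1q0) (Db := dB2q0) cB101L_ok B hρ hen (gatB51 x) (gatB01 x) (fun _ => gatB10 x) (fun _ => gatB20 x) (datB51 x) (datB01 x) (fun _ => datB10 x) (fun _ => datB20 x) hd hx hx' CW.B101L_501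
    · exact corW_cert (G1 := gB5q1) (G2 := gB0q1) (Ga := gB2q0) (Gb := gB3q0) (D1 := dB5q1) (D2 := dB0q1) (Da := dB2q0) (Db := dB3q0) cB101L_ok B hρ hen (gatB51 x) (gatB01 x) (fun _ => gatB20 x) (fun _ => gatB30 x) (datB51 x) (datB01 x) (fun _ => datB20 x) (fun _ => datB30 x) hd hx hx' CW.B101L_502
    · exact corW_cert (G1 := gB5q1) (G2 := gB0q1) (Ga := gB3q0) (Gb := gB4q0) (D1 := dB5q1) (D2 := dB0q1) (Da := dB3q0) (Db := dB4q0) cB101L_ok B hρ hen (gatB51 x) (gatB01 x) (fun _ => gatB30 x) (fun _ => gatB40 x) (datB51 x) (datB01 x) (fun _ => datB30 x) (fun _ => datB40 x) hd hx hx' CW.B101L_503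
    · exact corW_cert (G1 := gB5q1) (G2 := gB0q1) (Ga := gB4q0) (Gb := gB5q0) (D1 := dB5q1) (D2 := dB0q1) (Da := dB4q0) (Db := dB5q0) cB101L_ok B hρ hen (gatB51 x) (gatB01 x) (fun _ => gatB40 x) (fun h => absurd h (by decide)) (datB51 x) (datB01 x) (fun _ => datB40 x) (fun h => absurd h (by decide)) hd hx hx' CW.B101L_504
    · exact absurd h2 (by norm_num)
    · exact absurd h2 (by norm_num)
  · intro ρ a B hρ hd i h1 h2
    fin_cases i
    · exact corT_cert (G1 := gB5q1) (G2 := gB0q1) (Ga := gB0q0) (Gb := gB1q0) cB101L_ok B hρ (gatB51 x) (gatB01 x) (fun _ => gatB00 x) (fun _ => gatB10 x) hd hx hx' CG.B101L_500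
    · exact corT_cert (G1 := gB5q1) (G2 := gB0q1) (Ga := gB1q0) (Gb := gB2q0) cB101L_ok B hρ (gatB51 x) (gatB01 x) (fun _ => gatB10 x) (fun _ => gatB20 x) hd hx hx' CG.B101L_501
    · exact corT_cert (G1 := gB5q1) (G2 := gB0q1) (Ga := gB2q0) (Gb := gB3q0) cB101L_ok B hρ (gatB51 x) (gatB01 x) (fun _ => gatB20 x) (fun _ => gatB30 x) hd hx hx' CG.B101L_502
    · exact corT_cert (G1 := gB5q1) (G2 := gB0q1) (Ga := gB3q0) (Gb := gB4q0) cB101L_ok B hρ (gatB51 x) (gatB01 x) (fun _ => gatB30 x) (fun _ => gatB40 x) hd hx hx' CG.B101L_503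
    · exact corT_cert (G1 := gB5q1) (G2 := gB0q1) (Ga := gB4q0) (Gb := gB5q0) cB101L_ok B hρ (gatB51 x) (gatB01 x) (fun _ => gatB40 x) (fun h => absurd h (by decide)) hd hx hx' CG.B101L_504
    · exact absurd h2 (by norm_num)
    · exact absurd h2 (by norm_num)

theorem altB_B101L_60 {κ x : ℝ} (hκ : κ * h0 = ken x) (hx : ((697932185 : ℕ) : ℝ) / S ≤ x) (hx' : x ≤ (((697932185 : ℕ) : ℝ) + (42949674 : ℕ)) / S) :
    AltEB 3 κ (eng.v x) (3 / 40) (tnt (h0 * x) (3 / 10)) PP tK tL tC pcB (scP esg pd) [⟨0, 1, 0, 67108864⟩, ⟨1, 0, 0, 67108864⟩, ⟨2, 1, 0, 67108864⟩] 1 0 1 6 0 (sgb true) (sgb true) x := by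
  have X : XR 67108864 x := XR.of hx hx' (by norm_num) (by norm_num) (by norm_num) (by norm_num)
  have hen : 0 < eng.v x := en_pos X.x0.le
  refine CornW.altB (C := cB101L) (j := (6 : Fin 8)) (k := (0 : Fin 8)) (Ef := esg) (pd := pd) (o := 3 / 40)
    (cornW_of (C := cB101L) (C0 := c0B) (En := eng) (mo := mog) (j := (6 : Fin 8)) (k := (0 : Fin 8)) (lo := 0) (hi := 4) (W := 67108864) (N0 := 3) cB101L_q (sideB hx hx') gokB (pinU hx hx') dokB X (by norm_num) (by norm_num) (l := (0 : Fin 8)) rfl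
      (gatB61 x) (gatB01 x) (gatB00 x) (datB61 x) (datB01 x) (datB00 x) ?_)
    (cornS_of (C := cB101L) (C0 := c0B) (j := (6 : Fin 8)) (k := (0 : Fin 8)) (lo := 0) (hi := 4) (W := 67108864) (N0 := 3) cB101L_q (sideB hx hx') gokB X (by norm_num) (by norm_num) (l := (0 : Fin 8)) rfl
      (gatB61 x) (gatB01 x) (gatB00 x) ?_)
    (thU (pinU hx hx')) rfl hκ (fun j q y => tC_eq j q y x) (esg_rng X.x0.le (by linarith [X.b, X.p0])).1 (mo_v x) le_rfl le_rfl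
  · intro ρ a B hρ hd i h1 h2
    fin_cases i
    · exact corW_cert (G1 := gB6q1) (G2 := gB0q1) (Ga := gB0q0) (Gb := gB1q0) (D1 := dB6q1) (D2 := dB0q1) (Da := dB0q0) (Db := dB1q0) cB101L_ok B hρ hen (gatB61 x) (gatB01 x) (fun _ => gatB00 x) (fun _ => gatB10 x) (datB61 x) (datB01 x) (fun _ => datB00 x) (fun _ => datB10 x) hd hx hx' CW.B101L_600
    · exact corW_cert (G1 := gB6q1) (G2 := gB0q1) (Ga := gB1q0) (Gb := gB2q0) (D1 := dB6q1) (D2 := dB0q1) (Da := dB1q0) (Db := dB2q0) cB101L_ok B hρ hen (gatB61 x) (gatB01 x) (fun _ => gatB10 x) (fun _ => gatB20 x) (datB61 x) (datB01 x) (fun _ => datB10 x) (fun _ => datB20 x) hd hx hx' CW.B101L_601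
    · exact corW_cert (G1 := gB6q1) (G2 := gB0q1) (Ga := gB2q0) (Gb := gB3q0) (D1 := dB6q1) (D2 := dB0q1) (Da := dB2q0) (Db := dB3q0) cB101L_ok B hρ hen (gatB61 x) (gatB01 x) (fun _ => gatB20 x) (fun _ => gatB30 x) (datB61 x) (datB01 x) (fun _ => datB20 x) (fun _ => datB30 x) hd hx hx' CW.B101L_602
    · exact corW_cert (G1 := gB6q1) (G2 := gB0q1) (Ga := gB3q0) (Gb := gB4q0) (D1 := dB6q1) (D2 := dB0q1) (Da := dB3q0) (Db := dB4q0) cB101L_ok B hρ hen (gatB61 x) (gatB01 x) (fun _ => gatB30 x) (fun _ => gatB40 x) (datB61 x) (datB01 x) (fun _ => datB30 x) (fun _ => datB40 x) hd hx hx' CW.B101L_603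
    · exact corW_cert (G1 := gB6q1) (G2 := gB0q1) (Ga := gB4q0) (Gb := gB5q0) (D1 := dB6q1) (D2 := dB0q1) (Da := dB4q0) (Db := dB5q0) cB101L_ok B hρ hen (gatB61 x) (gatB01 x) (fun _ => gatB40 x) (fun h => absurd h (by decide)) (datB61 x) (datB01 x) (fun _ => datB40 x) (fun h => absurd h (by decide)) hd hx hx' CW.B101L_604
    · exact absurd h2 (by norm_num)
    · exact absurd h2 (by norm_num)
  · intro ρ a B hρ hd i h1 h2
    fin_cases i
    · exact corT_cert (G1 := gB6q1) (G2 := gB0q1) (Ga := gB0q0) (Gb := gB1q0) cB101L_ok B hρ (gatB61 x) (gatB01 x) (fun _ => gatB00 x) (fun _ => gatB10 x) hd hx hx' CG.B101L_600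
    · exact corT_cert (G1 := gB6q1) (G2 := gB0q1) (Ga := gB1q0) (Gb := gB2q0) cB101L_ok B hρ (gatB61 x) (gatB01 x) (fun _ => gatB10 x) (fun _ => gatB20 x) hd hx hx' CG.B101L_601
    · exact corT_cert (G1 := gB6q1) (G2 := gB0q1) (Ga := gB2q0) (Gb := gB3q0) cB101L_ok B hρ (gatB61 x) (gatB01 x) (fun _ => gatB20 x) (fun _ => gatB30 x) hd hx hx' CG.B101L_602
    · exact corT_cert (G1 := gB6q1) (G2 := gB0q1) (Ga := gB3q0) (Gb := gB4q0) cB101L_ok B hρ (gatB61 x) (gatB01 x) (fun _ => gatB30 x) (fun _ => gatB40 x) hd hx hx' CG.B101L_603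
    · exact corT_cert (G1 := gB6q1) (G2 := gB0q1) (Ga := gB4q0) (Gb := gB5q0) cB101L_ok B hρ (gatB61 x) (gatB01 x) (fun _ => gatB40 x) (fun h => absurd h (by decide)) hd hx hx' CG.B101L_604
    · exact absurd h2 (by norm_num)
    · exact absurd h2 (by norm_num)

theorem altB_B101L_70 {κ x : ℝ} (hκ : κ * h0 = ken x) (hx : ((697932185 : ℕ) : ℝ) / S ≤ x) (hx' : x ≤ (((697932185 : ℕ) : ℝ) + (42949674 : ℕ)) / S) :
    AltEB 3 κ (eng.v x) (3 / 40) (tnt (h0 * x) (3 / 10)) PP tK tL tC pcB (scP esg pd) [⟨0, 1, 0, 53687091⟩, ⟨1, 0, 0, 53687091⟩, ⟨2, 1, 0, 53687091⟩] 1 0 1 7 0 (sgb true) (sgb true) x := by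
  have X : XR 53687091 x := XR.of hx hx' (by norm_num) (by norm_num) (by norm_num) (by norm_num)
  have hen : 0 < eng.v x := en_pos X.x0.le
  refine CornW.altB (C := cB101L) (j := (7 : Fin 8)) (k := (0 : Fin 8)) (Ef := esg) (pd := pd) (o := 3 / 40)
    (cornW_of (C := cB101L) (C0 := c0B) (En := eng) (mo := mog) (j := (7 : Fin 8)) (k := (0 : Fin 8)) (lo := 0) (hi := 4) (W := 53687091) (N0 := 3) cB101L_q (sideB hx hx') gokB (pinU hx hx') dokB X (by norm_num) (by norm_num) (l := (0 : Fin 8)) rfl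
      (gatB71 x) (gatB01 x) (gatB00 x) (datB71 x) (datB01 x) (datB00 x) ?_)
    (cornS_of (C := cB101L) (C0 := c0B) (j := (7 : Fin 8)) (k := (0 : Fin 8)) (lo := 0) (hi := 4) (W := 53687091) (N0 := 3) cB101L_q (sideB hx hx') gokB X (by norm_num) (by norm_num) (l := (0 : Fin 8)) rfl
      (gatB71 x) (gatB01 x) (gatB00 x) ?_)
    (thU (pinU hx hx')) rfl hκ (fun j q y => tC_eq j q y x) (esg_rng X.x0.le (by linarith [X.b, X.p0])).1 (mo_v x) le_rfl le_rfl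
  · intro ρ a B hρ hd i h1 h2
    fin_cases i
    · exact corW_cert (G1 := gB7q1) (G2 := gB0q1) (Ga := gB0q0) (Gb := gB1q0) (D1 := dB7q1) (D2 := dB0q1) (Da := dB0q0) (Db := dB1q0) cB101L_ok B hρ hen (gatB71 x) (gatB01 x) (fun _ => gatB00 x) (fun _ => gatB10 x) (datB71 x) (datB01 x) (fun _ => datB00 x) (fun _ => datB10 x) hd hx hx' CW.B101L_700
    · exact corW_cert (G1 := gB7q1) (G2 := gB0q1) (Ga := gB1q0) (Gb := gB2q0) (D1 := dB7q1) (D2 := dB0q1) (Da := dB1q0) (Db := dB2q0) cB101L_ok B hρ hen (gatB71 x) (gatB01 x) (fun _ => gatB10 x) (fun _ => gatB20 x) (datB71 x) (datB01 x) (fun _ => datB10 x) (fun _ => datB20 x) hd hx hx' CW.B101L_701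
    · exact corW_cert (G1 := gB7q1) (G2 := gB0q1) (Ga := gB2q0) (Gb := gB3q0) (D1 := dB7q1) (D2 := dB0q1) (Da := dB2q0) (Db := dB3q0) cB101L_ok B hρ hen (gatB71 x) (gatB01 x) (fun _ => gatB20 x) (fun _ => gatB30 x) (datB71 x) (datB01 x) (fun _ => datB20 x) (fun _ => datB30 x) hd hx hx' CW.B101L_702
    · exact corW_cert (G1 := gB7q1) (G2 := gB0q1) (Ga := gB3q0) (Gb := gB4q0) (D1 := dB7q1) (D2 := dB0q1) (Da := dB3q0) (Db := dB4q0) cB101L_ok B hρ hen (gatB71 x) (gatB01 x) (fun _ => gatB30 x) (fun _ => gatB40 x) (datB71 x) (datB01 x) (fun _ => datB30 x) (fun _ => datB40 x) hd hx hx' CW.B101L_703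
    · exact corW_cert (G1 := gB7q1) (G2 := gB0q1) (Ga := gB4q0) (Gb := gB5q0) (D1 := dB7q1) (D2 := dB0q1) (Da := dB4q0) (Db := dB5q0) cB101L_ok B hρ hen (gatB71 x) (gatB01 x) (fun _ => gatB40 x) (fun h => absurd h (by decide)) (datB71 x) (datB01 x) (fun _ => datB40 x) (fun h => absurd h (by decide)) hd hx hx' CW.B101L_704
    · exact absurd h2 (by norm_num)
    · exact absurd h2 (by norm_num)
  · intro ρ a B hρ hd i h1 h2
    fin_cases i
    · exact corX_cert (G1 := gB7q1) (G2 := gB0q1) (Ga := gB0q0) (Gb := gB1q0) (GT := gB0q0) cB101L_ok tB101L_ok B hρ (gatB71 x) (gatB01 x) (fun _ => gatB00 x) (fun _ => gatB10 x) rfl (tgh_B101L (kodd x) (gpt1 x) (gpu1 x) (gpu0 x) (gatB71 x) (gatB01 x) (gatB00 x) B (le_sixteenth hd (by norm_num))) hd hx hx' CG.B101L_700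
    · exact corT_cert (G1 := gB7q1) (G2 := gB0q1) (Ga := gB1q0) (Gb := gB2q0) cB101L_ok B hρ (gatB71 x) (gatB01 x) (fun _ => gatB10 x) (fun _ => gatB20 x) hd hx hx' CG.B101L_701
    · exact corT_cert (G1 := gB7q1) (G2 := gB0q1) (Ga := gB2q0) (Gb := gB3q0) cB101L_ok B hρ (gatB71 x) (gatB01 x) (fun _ => gatB20 x) (fun _ => gatB30 x) hd hx hx' CG.B101L_702
    · exact corT_cert (G1 := gB7q1) (G2 := gB0q1) (Ga := gB3q0) (Gb := gB4q0) cB101L_ok B hρ (gatB71 x) (gatB01 x) (fun _ => gatB30 x) (fun _ => gatB40 x) hd hx hx' CG.B101L_703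
    · exact corT_cert (G1 := gB7q1) (G2 := gB0q1) (Ga := gB4q0) (Gb := gB5q0) cB101L_ok B hρ (gatB71 x) (gatB01 x) (fun _ => gatB40 x) (fun h => absurd h (by decide)) hd hx hx' CG.B101L_704
    · exact absurd h2 (by norm_num)
    · exact absurd h2 (by norm_num)

theorem altB_B101R_05 {κ x : ℝ} (hκ : κ * h0 = ken x) (hx : ((697932185 : ℕ) : ℝ) / S ≤ x) (hx' : x ≤ (((697932185 : ℕ) : ℝ) + (42949674 : ℕ)) / S) :
    AltEB 3 κ (eng.v x) (3 / 40) (tnt (h0 * x) (3 / 10)) PP tK tL tC pcB (scP esg pd) [⟨0, 1, 0, 67108864⟩, ⟨1, 0, 0, 67108864⟩, ⟨2, 1, 0, 67108864⟩] 1 0 1 0 5 (sgb false) (sgb false) x := by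
  have X : XR 67108864 x := XR.of hx hx' (by norm_num) (by norm_num) (by norm_num) (by norm_num)
  have hen : 0 < eng.v x := en_pos X.x0.le
  refine CornW.altB (C := cB101R) (j := (0 : Fin 8)) (k := (5 : Fin 8)) (Ef := esg) (pd := pd) (o := 3 / 40)
    (cornW_of (C := cB101R) (C0 := c0B) (En := eng) (mo := mog) (j := (0 : Fin 8)) (k := (5 : Fin 8)) (lo := 0) (hi := 4) (W := 67108864) (N0 := 3) cB101R_q (sideB hx hx') gokB (pinU hx hx') dokB X (by norm_num) (by norm_num) (l := (0 : Fin 8)) rfl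
      (gatB01 x) (gatB51 x) (gatB00 x) (datB01 x) (datB51 x) (datB00 x) ?_)
    (cornS_of (C := cB101R) (C0 := c0B) (j := (0 : Fin 8)) (k := (5 : Fin 8)) (lo := 0) (hi := 4) (W := 67108864) (N0 := 3) cB101R_q (sideB hx hx') gokB X (by norm_num) (by norm_num) (l := (0 : Fin 8)) rfl
      (gatB01 x) (gatB51 x) (gatB00 x) ?_)
    (thU (pinU hx hx')) rfl hκ (fun j q y => tC_eq j q y x) (esg_rng X.x0.le (by linarith [X.b, X.p0])).1 (mo_v x) le_rfl le_rfl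
  · intro ρ a B hρ hd i h1 h2
    fin_cases i
    · exact corW_cert (G1 := gB0q1) (G2 := gB5q1) (Ga := gB0q0) (Gb := gB1q0) (D1 := dB0q1) (D2 := dB5q1) (Da := dB0q0) (Db := dB1q0) cB101R_ok B hρ hen (gatB01 x) (gatB51 x) (fun _ => gatB00 x) (fun _ => gatB10 x) (datB01 x) (datB51 x) (fun _ => datB00 x) (fun _ => datB10 x) hd hx hx' CW.B101R_050
    · exact corW_cert (G1 := gB0q1) (G2 := gB5q1) (Ga := gB1q0) (Gb := gB2q0) (D1 := dB0q1) (D2 := dB5q1) (Da := dB1q0) (Db := dB2q0) cB101R_ok B hρ hen (gatB01 x) (gatB51 x) (fun _ => gatB10 x) (fun _ => gatB20 x) (datB01 x) (datB51 x) (fun _ => datB10 x) (fun _ => datB20 x) hd hx hx' CW.B101R_051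
    · exact corW_cert (G1 := gB0q1) (G2 := gB5q1) (Ga := gB2q0) (Gb := gB3q0) (D1 := dB0q1) (D2 := dB5q1) (Da := dB2q0) (Db := dB3q0) cB101R_ok B hρ hen (gatB01 x) (gatB51 x) (fun _ => gatB20 x) (fun _ => gatB30 x) (datB01 x) (datB51 x) (fun _ => datB20 x) (fun _ => datB30 x) hd hx hx' CW.B101R_052
    · exact corW_cert (G1 := gB0q1) (G2 := gB5q1) (Ga := gB3q0) (Gb := gB4q0) (D1 := dB0q1) (D2 := dB5q1) (Da := dB3q0) (Db := dB4q0) cB101R_ok B hρ hen (gatB01 x) (gatB51 x) (fun _ => gatB30 x) (fun _ => gatB40 x) (datB01 x) (datB51 x) (fun _ => datB30 x) (fun _ => datB40 x) hd hx hx' CW.B101R_053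
    · exact corW_cert (G1 := gB0q1) (G2 := gB5q1) (Ga := gB4q0) (Gb := gB5q0) (D1 := dB0q1) (D2 := dB5q1) (Da := dB4q0) (Db := dB5q0) cB101R_ok B hρ hen (gatB01 x) (gatB51 x) (fun _ => gatB40 x) (fun h => absurd h (by decide)) (datB01 x) (datB51 x) (fun _ => datB40 x) (fun h => absurd h (by decide)) hd hx hx' CW.B101R_054
    · exact absurd h2 (by norm_num)
    · exact absurd h2 (by norm_num)
  · intro ρ a B hρ hd i h1 h2
    fin_cases i
    · exact corT_cert (G1 := gB0q1) (G2 := gB5q1) (Ga := gB0q0) (Gb := gB1q0) cB101R_ok B hρ (gatB01 x) (gatB51 x) (fun _ => gatB00 x) (fun _ => gatB10 x) hd hx hx' CG.B101R_050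
    · exact corT_cert (G1 := gB0q1) (G2 := gB5q1) (Ga := gB1q0) (Gb := gB2q0) cB101R_ok B hρ (gatB01 x) (gatB51 x) (fun _ => gatB10 x) (fun _ => gatB20 x) hd hx hx' CG.B101R_051
    · exact corT_cert (G1 := gB0q1) (G2 := gB5q1) (Ga := gB2q0) (Gb := gB3q0) cB101R_ok B hρ (gatB01 x) (gatB51 x) (fun _ => gatB20 x) (fun _ => gatB30 x) hd hx hx' CG.B101R_052
    · exact corT_cert (G1 := gB0q1) (G2 := gB5q1) (Ga := gB3q0) (Gb := gB4q0) cB101R_ok B hρ (gatB01 x) (gatB51 x) (fun _ => gatB30 x) (fun _ => gatB40 x) hd hx hx' CG.B101R_053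
    · exact corT_cert (G1 := gB0q1) (G2 := gB5q1) (Ga := gB4q0) (Gb := gB5q0) cB101R_ok B hρ (gatB01 x) (gatB51 x) (fun _ => gatB40 x) (fun h => absurd h (by decide)) hd hx hx' CG.B101R_054
    · exact absurd h2 (by norm_num)
    · exact absurd h2 (by norm_num)

theorem altB_B101R_06 {κ x : ℝ} (hκ : κ * h0 = ken x) (hx : ((697932185 : ℕ) : ℝ) / S ≤ x) (hx' : x ≤ (((697932185 : ℕ) : ℝ) + (42949674 : ℕ)) / S) :
    AltEB 3 κ (eng.v x) (3 / 40) (tnt (h0 * x) (3 / 10)) PP tK tL tC pcB (scP esg pd) [⟨0, 1, 0, 67108864⟩, ⟨1, 0, 0, 67108864⟩, ⟨2, 1, 0, 67108864⟩] 1 0 1 0 6 (sgb false) (sgb false) x := by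
  have X : XR 67108864 x := XR.of hx hx' (by norm_num) (by norm_num) (by norm_num) (by norm_num)
  have hen : 0 < eng.v x := en_pos X.x0.le
  refine CornW.altB (C := cB101R) (j := (0 : Fin 8)) (k := (6 : Fin 8)) (Ef := esg) (pd := pd) (o := 3 / 40)
    (cornW_of (C := cB101R) (C0 := c0B) (En := eng) (mo := mog) (j := (0 : Fin 8)) (k := (6 : Fin 8)) (lo := 0) (hi := 4) (W := 67108864) (N0 := 3) cB101R_q (sideB hx hx') gokB (pinU hx hx') dokB X (by norm_num) (by norm_num) (l := (0 : Fin 8)) rfl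
      (gatB01 x) (gatB61 x) (gatB00 x) (datB01 x) (datB61 x) (datB00 x) ?_)
    (cornS_of (C := cB101R) (C0 := c0B) (j := (0 : Fin 8)) (k := (6 : Fin 8)) (lo := 0) (hi := 4) (W := 67108864) (N0 := 3) cB101R_q (sideB hx hx') gokB X (by norm_num) (by norm_num) (l := (0 : Fin 8)) rfl
      (gatB01 x) (gatB61 x) (gatB00 x) ?_)
    (thU (pinU hx hx')) rfl hκ (fun j q y => tC_eq j q y x) (esg_rng X.x0.le (by linarith [X.b, X.p0])).1 (mo_v x) le_rfl le_rfl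
  · intro ρ a B hρ hd i h1 h2
    fin_cases i
    · exact corW_cert (G1 := gB0q1) (G2 := gB6q1) (Ga := gB0q0) (Gb := gB1q0) (D1 := dB0q1) (D2 := dB6q1) (Da := dB0q0) (Db := dB1q0) cB101R_ok B hρ hen (gatB01 x) (gatB61 x) (fun _ => gatB00 x) (fun _ => gatB10 x) (datB01 x) (datB61 x) (fun _ => datB00 x) (fun _ => datB10 x) hd hx hx' CW.B101R_060
    · exact corW_cert (G1 := gB0q1) (G2 := gB6q1) (Ga := gB1q0) (Gb := gB2q0) (D1 := dB0q1) (D2 := dB6q1) (Da := dB1q0) (Db := dB2q0) cB101R_ok B hρ hen (gatB01 x) (gatB61 x) (fun _ => gatB10 x) (fun _ => gatB20 x) (datB01 x) (datB61 x) (fun _ => datB10 x) (fun _ => datB20 x) hd hx hx' CW.B101R_061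
    · exact corW_cert (G1 := gB0q1) (G2 := gB6q1) (Ga := gB2q0) (Gb := gB3q0) (D1 := dB0q1) (D2 := dB6q1) (Da := dB2q0) (Db := dB3q0) cB101R_ok B hρ hen (gatB01 x) (gatB61 x) (fun _ => gatB20 x) (fun _ => gatB30 x) (datB01 x) (datB61 x) (fun _ => datB20 x) (fun _ => datB30 x) hd hx hx' CW.B101R_062
    · exact corW_cert (G1 := gB0q1) (G2 := gB6q1) (Ga := gB3q0) (Gb := gB4q0) (D1 := dB0q1) (D2 := dB6q1) (Da := dB3q0) (Db := dB4q0) cB101R_ok B hρ hen (gatB01 x) (gatB61 x) (fun _ => gatB30 x) (fun _ => gatB40 x) (datB01 x) (datB61 x) (fun _ => datB30 x) (fun _ => datB40 x) hd hx hx' CW.B101R_063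
    · exact corW_cert (G1 := gB0q1) (G2 := gB6q1) (Ga := gB4q0) (Gb := gB5q0) (D1 := dB0q1) (D2 := dB6q1) (Da := dB4q0) (Db := dB5q0) cB101R_ok B hρ hen (gatB01 x) (gatB61 x) (fun _ => gatB40 x) (fun h => absurd h (by decide)) (datB01 x) (datB61 x) (fun _ => datB40 x) (fun h => absurd h (by decide)) hd hx hx' CW.B101R_064
    · exact absurd h2 (by norm_num)
    · exact absurd h2 (by norm_num)
  · intro ρ a B hρ hd i h1 h2
    fin_cases i
    · exact corT_cert (G1 := gB0q1) (G2 := gB6q1) (Ga := gB0q0) (Gb := gB1q0) cB101R_ok B hρ (gatB01 x) (gatB61 x) (fun _ => gatB00 x) (fun _ => gatB10 x) hd hx hx' CG.B101R_060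
    · exact corT_cert (G1 := gB0q1) (G2 := gB6q1) (Ga := gB1q0) (Gb := gB2q0) cB101R_ok B hρ (gatB01 x) (gatB61 x) (fun _ => gatB10 x) (fun _ => gatB20 x) hd hx hx' CG.B101R_061
    · exact corT_cert (G1 := gB0q1) (G2 := gB6q1) (Ga := gB2q0) (Gb := gB3q0) cB101R_ok B hρ (gatB01 x) (gatB61 x) (fun _ => gatB20 x) (fun _ => gatB30 x) hd hx hx' CG.B101R_062
    · exact corT_cert (G1 := gB0q1) (G2 := gB6q1) (Ga := gB3q0) (Gb := gB4q0) cB101R_ok B hρ (gatB01 x) (gatB61 x) (fun _ => gatB30 x) (fun _ => gatB40 x) hd hx hx' CG.B101R_063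
    · exact corT_cert (G1 := gB0q1) (G2 := gB6q1) (Ga := gB4q0) (Gb := gB5q0) cB101R_ok B hρ (gatB01 x) (gatB61 x) (fun _ => gatB40 x) (fun h => absurd h (by decide)) hd hx hx' CG.B101R_064
    · exact absurd h2 (by norm_num)
    · exact absurd h2 (by norm_num)

theorem altB_B101R_07 {κ x : ℝ} (hκ : κ * h0 = ken x) (hx : ((697932185 : ℕ) : ℝ) / S ≤ x) (hx' : x ≤ (((697932185 : ℕ) : ℝ) + (42949674 : ℕ)) / S) :
    AltEB 3 κ (eng.v x) (3 / 40) (tnt (h0 * x) (3 / 10)) PP tK tL tC pcB (scP esg pd) [⟨0, 1, 0, 67108864⟩, ⟨1, 0, 0, 67108864⟩, ⟨2, 1, 0, 67108864⟩] 1 0 1 0 7 (sgb false) (sgb false) x := by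
  have X : XR 67108864 x := XR.of hx hx' (by norm_num) (by norm_num) (by norm_num) (by norm_num)
  have hen : 0 < eng.v x := en_pos X.x0.le
  refine CornW.altB (C := cB101R) (j := (0 : Fin 8)) (k := (7 : Fin 8)) (Ef := esg) (pd := pd) (o := 3 / 40)
    (cornW_of (C := cB101R) (C0 := c0B) (En := eng) (mo := mog) (j := (0 : Fin 8)) (k := (7 : Fin 8)) (lo := 0) (hi := 4) (W := 67108864) (N0 := 3) cB101R_q (sideB hx hx') gokB (pinU hx hx') dokB X (by norm_num) (by norm_num) (l := (0 : Fin 8)) rfl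
      (gatB01 x) (gatB71 x) (gatB00 x) (datB01 x) (datB71 x) (datB00 x) ?_)
    (cornS_of (C := cB101R) (C0 := c0B) (j := (0 : Fin 8)) (k := (7 : Fin 8)) (lo := 0) (hi := 4) (W := 67108864) (N0 := 3) cB101R_q (sideB hx hx') gokB X (by norm_num) (by norm_num) (l := (0 : Fin 8)) rfl
      (gatB01 x) (gatB71 x) (gatB00 x) ?_)
    (thU (pinU hx hx')) rfl hκ (fun j q y => tC_eq j q y x) (esg_rng X.x0.le (by linarith [X.b, X.p0])).1 (mo_v x) le_rfl le_rfl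
  · intro ρ a B hρ hd i h1 h2
    fin_cases i
    · exact corW_cert (G1 := gB0q1) (G2 := gB7q1) (Ga := gB0q0) (Gb := gB1q0) (D1 := dB0q1) (D2 := dB7q1) (Da := dB0q0) (Db := dB1q0) cB101R_ok B hρ hen (gatB01 x) (gatB71 x) (fun _ => gatB00 x) (fun _ => gatB10 x) (datB01 x) (datB71 x) (fun _ => datB00 x) (fun _ => datB10 x) hd hx hx' CW.B101R_070
    · exact corW_cert (G1 := gB0q1) (G2 := gB7q1) (Ga := gB1q0) (Gb := gB2q0) (D1 := dB0q1) (D2 := dB7q1) (Da := dB1q0) (Db := dB2q0) cB101R_ok B hρ hen (gatB01 x) (gatB71 x) (fun _ => gatB10 x) (fun _ => gatB20 x) (datB01 x) (datB71 x) (fun _ => datB10 x) (fun _ => datB20 x) hd hx hx' CW.B101R_071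
    · exact corW_cert (G1 := gB0q1) (G2 := gB7q1) (Ga := gB2q0) (Gb := gB3q0) (D1 := dB0q1) (D2 := dB7q1) (Da := dB2q0) (Db := dB3q0) cB101R_ok B hρ hen (gatB01 x) (gatB71 x) (fun _ => gatB20 x) (fun _ => gatB30 x) (datB01 x) (datB71 x) (fun _ => datB20 x) (fun _ => datB30 x) hd hx hx' CW.B101R_072
    · exact corW_cert (G1 := gB0q1) (G2 := gB7q1) (Ga := gB3q0) (Gb := gB4q0) (D1 := dB0q1) (D2 := dB7q1) (Da := dB3q0) (Db := dB4q0) cB101R_ok B hρ hen (gatB01 x) (gatB71 x) (fun _ => gatB30 x) (fun _ => gatB40 x) (datB01 x) (datB71 x) (fun _ => datB30 x) (fun _ => datB40 x) hd hx hx' CW.B101R_073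
    · exact corW_cert (G1 := gB0q1) (G2 := gB7q1) (Ga := gB4q0) (Gb := gB5q0) (D1 := dB0q1) (D2 := dB7q1) (Da := dB4q0) (Db := dB5q0) cB101R_ok B hρ hen (gatB01 x) (gatB71 x) (fun _ => gatB40 x) (fun h => absurd h (by decide)) (datB01 x) (datB71 x) (fun _ => datB40 x) (fun h => absurd h (by decide)) hd hx hx' CW.B101R_074
    · exact absurd h2 (by norm_num)
    · exact absurd h2 (by norm_num)
  · intro ρ a B hρ hd i h1 h2
    fin_cases i
    · exact corT_cert (G1 := gB0q1) (G2 := gB7q1) (Ga := gB0q0) (Gb := gB1q0) cB101R_ok B hρ (gatB01 x) (gatB71 x) (fun _ => gatB00 x) (fun _ => gatB10 x) hd hx hx' CG.B101R_070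
    · exact corT_cert (G1 := gB0q1) (G2 := gB7q1) (Ga := gB1q0) (Gb := gB2q0) cB101R_ok B hρ (gatB01 x) (gatB71 x) (fun _ => gatB10 x) (fun _ => gatB20 x) hd hx hx' CG.B101R_071
    · exact corT_cert (G1 := gB0q1) (G2 := gB7q1) (Ga := gB2q0) (Gb := gB3q0) cB101R_ok B hρ (gatB01 x) (gatB71 x) (fun _ => gatB20 x) (fun _ => gatB30 x) hd hx hx' CG.B101R_072
    · exact corT_cert (G1 := gB0q1) (G2 := gB7q1) (Ga := gB3q0) (Gb := gB4q0) cB101R_ok B hρ (gatB01 x) (gatB71 x) (fun _ => gatB30 x) (fun _ => gatB40 x) hd hx hx' CG.B101R_073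
    · exact corT_cert (G1 := gB0q1) (G2 := gB7q1) (Ga := gB4q0) (Gb := gB5q0) cB101R_ok B hρ (gatB01 x) (gatB71 x) (fun _ => gatB40 x) (fun h => absurd h (by decide)) hd hx hx' CG.B101R_074
    · exact absurd h2 (by norm_num)
    · exact absurd h2 (by norm_num)

theorem altB_B102E_00 {κ x : ℝ} (hκ : κ * h0 = ken x) (hx : ((697932185 : ℕ) : ℝ) / S ≤ x) (hx' : x ≤ (((697932185 : ℕ) : ℝ) + (42949674 : ℕ)) / S) :
    AltEB 3 κ (eng.v x) (3 / 40) (tnt (h0 * x) (3 / 10)) PP tK tL tC pcB (scP esg pd) [⟨0, 1, 0, 33554432⟩, ⟨1, 0, 0, 33554432⟩, ⟨2, 1, 0, 33554432⟩] 1 0 2 0 0 (sgb true) (sgb false) x := by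
  have X : XR 33554432 x := XR.of hx hx' (by norm_num) (by norm_num) (by norm_num) (by norm_num)
  have hen : 0 < eng.v x := en_pos X.x0.le
  refine CornW.altB (C := cB102E) (j := (0 : Fin 8)) (k := (0 : Fin 8)) (Ef := esg) (pd := pd) (o := 3 / 40)
    (cornW_of (C := cB102E) (C0 := c0B) (En := eng) (mo := mog) (j := (0 : Fin 8)) (k := (0 : Fin 8)) (lo := 0) (hi := 4) (W := 33554432) (N0 := 3) cB102E_q (sideB hx hx') gokB (pinU hx hx') dokB X (by norm_num) (by norm_num) (l := (0 : Fin 8)) rfl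
      (gatB01 x) (gatB02 x) (gatB00 x) (datB01 x) (datB02 x) (datB00 x) ?_)
    (cornS_of (C := cB102E) (C0 := c0B) (j := (0 : Fin 8)) (k := (0 : Fin 8)) (lo := 0) (hi := 4) (W := 33554432) (N0 := 3) cB102E_q (sideB hx hx') gokB X (by norm_num) (by norm_num) (l := (0 : Fin 8)) rfl
      (gatB01 x) (gatB02 x) (gatB00 x) ?_)
    (thU (pinU hx hx')) rfl hκ (fun j q y => tC_eq j q y x) (esg_rng X.x0.le (by linarith [X.b, X.p0])).1 (mo_v x) le_rfl le_rfl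
  · intro ρ a B hρ hd i h1 h2
    fin_cases i
    · exact corW_cert (G1 := gB0q1) (G2 := gB0q2) (Ga := gB0q0) (Gb := gB1q0) (D1 := dB0q1) (D2 := dB0q2) (Da := dB0q0) (Db := dB1q0) cB102E_ok B hρ hen (gatB01 x) (gatB02 x) (fun _ => gatB00 x) (fun _ => gatB10 x) (datB01 x) (datB02 x) (fun _ => datB00 x) (fun _ => datB10 x) hd hx hx' CW.B102E_000
    · exact corW_cert (G1 := gB0q1) (G2 := gB0q2) (Ga := gB1q0) (Gb := gB2q0) (D1 := dB0q1) (D2 := dB0q2) (Da := dB1q0) (Db := dB2q0) cB102E_ok B hρ hen (gatB01 x) (gatB02 x) (fun _ => gatB10 x) (fun _ => gatB20 x) (datB01 x) (datB02 x) (fun _ => datB10 x) (fun _ => datB20 x) hd hx hx' CW.B102E_001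
    · exact corW_cert (G1 := gB0q1) (G2 := gB0q2) (Ga := gB2q0) (Gb := gB3q0) (D1 := dB0q1) (D2 := dB0q2) (Da := dB2q0) (Db := dB3q0) cB102E_ok B hρ hen (gatB01 x) (gatB02 x) (fun _ => gatB20 x) (fun _ => gatB30 x) (datB01 x) (datB02 x) (fun _ => datB20 x) (fun _ => datB30 x) hd hx hx' CW.B102E_002
    · exact corW_cert (G1 := gB0q1) (G2 := gB0q2) (Ga := gB3q0) (Gb := gB4q0) (D1 := dB0q1) (D2 := dB0q2) (Da := dB3q0) (Db := dB4q0) cB102E_ok B hρ hen (gatB01 x) (gatB02 x) (fun _ => gatB30 x) (fun _ => gatB40 x) (datB01 x) (datB02 x) (fun _ => datB30 x) (fun _ => datB40 x) hd hx hx' CW.B102E_003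
    · exact corW_cert (G1 := gB0q1) (G2 := gB0q2) (Ga := gB4q0) (Gb := gB5q0) (D1 := dB0q1) (D2 := dB0q2) (Da := dB4q0) (Db := dB5q0) cB102E_ok B hρ hen (gatB01 x) (gatB02 x) (fun _ => gatB40 x) (fun h => absurd h (by decide)) (datB01 x) (datB02 x) (fun _ => datB40 x) (fun h => absurd h (by decide)) hd hx hx' CW.B102E_004
    · exact absurd h2 (by norm_num)
    · exact absurd h2 (by norm_num)
  · intro ρ a B hρ hd i h1 h2
    fin_cases i
    · exact corX_cert (G1 := gB0q1) (G2 := gB0q2) (Ga := gB0q0) (Gb := gB1q0) (GT := gB0q0) cB102E_ok tB102E_ok B hρ (gatB01 x) (gatB02 x) (fun _ => gatB00 x) (fun _ => gatB10 x) rfl (tgh_B102E (kodd x) (gpu1 x) (gpu2 x) (gpu0 x) (gatB01 x) (gatB02 x) (gatB00 x) B (le_sixteenth hd (by norm_num))) hd hx hx' CG.B102E_000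
    · exact corT_cert (G1 := gB0q1) (G2 := gB0q2) (Ga := gB1q0) (Gb := gB2q0) cB102E_ok B hρ (gatB01 x) (gatB02 x) (fun _ => gatB10 x) (fun _ => gatB20 x) hd hx hx' CG.B102E_001
    · exact corT_cert (G1 := gB0q1) (G2 := gB0q2) (Ga := gB2q0) (Gb := gB3q0) cB102E_ok B hρ (gatB01 x) (gatB02 x) (fun _ => gatB20 x) (fun _ => gatB30 x) hd hx hx' CG.B102E_002
    · exact corT_cert (G1 := gB0q1) (G2 := gB0q2) (Ga := gB3q0) (Gb := gB4q0) cB102E_ok B hρ (gatB01 x) (gatB02 x) (fun _ => gatB30 x) (fun _ => gatB40 x) hd hx hx' CG.B102E_003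
    · exact corT_cert (G1 := gB0q1) (G2 := gB0q2) (Ga := gB4q0) (Gb := gB5q0) cB102E_ok B hρ (gatB01 x) (gatB02 x) (fun _ => gatB40 x) (fun h => absurd h (by decide)) hd hx hx' CG.B102E_004
    · exact absurd h2 (by norm_num)
    · exact absurd h2 (by norm_num)

theorem altB_B102E_01 {κ x : ℝ} (hκ : κ * h0 = ken x) (hx : ((697932185 : ℕ) : ℝ) / S ≤ x) (hx' : x ≤ (((697932185 : ℕ) : ℝ) + (42949674 : ℕ)) / S) :
    AltEB 3 κ (eng.v x) (3 / 40) (tnt (h0 * x) (3 / 10)) PP tK tL tC pcB (scP esg pd) [⟨0, 1, 0, 67108864⟩, ⟨1, 0, 0, 67108864⟩, ⟨2, 1, 0, 67108864⟩] 1 0 2 0 1 (sgb true) (sgb false) x := by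
  have X : XR 67108864 x := XR.of hx hx' (by norm_num) (by norm_num) (by norm_num) (by norm_num)
  have hen : 0 < eng.v x := en_pos X.x0.le
  refine CornW.altB (C := cB102E) (j := (0 : Fin 8)) (k := (1 : Fin 8)) (Ef := esg) (pd := pd) (o := 3 / 40)
    (cornW_of (C := cB102E) (C0 := c0B) (En := eng) (mo := mog) (j := (0 : Fin 8)) (k := (1 : Fin 8)) (lo := 0) (hi := 4) (W := 67108864) (N0 := 3) cB102E_q (sideB hx hx') gokB (pinU hx hx') dokB X (by norm_num) (by norm_num) (l := (0 : Fin 8)) rfl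
      (gatB01 x) (gatB12 x) (gatB00 x) (datB01 x) (datB12 x) (datB00 x) ?_)
    (cornS_of (C := cB102E) (C0 := c0B) (j := (0 : Fin 8)) (k := (1 : Fin 8)) (lo := 0) (hi := 4) (W := 67108864) (N0 := 3) cB102E_q (sideB hx hx') gokB X (by norm_num) (by norm_num) (l := (0 : Fin 8)) rfl
      (gatB01 x) (gatB12 x) (gatB00 x) ?_)
    (thU (pinU hx hx')) rfl hκ (fun j q y => tC_eq j q y x) (esg_rng X.x0.le (by linarith [X.b, X.p0])).1 (mo_v x) le_rfl le_rfl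
  · intro ρ a B hρ hd i h1 h2
    fin_cases i
    · exact corW_cert (G1 := gB0q1) (G2 := gB1q2) (Ga := gB0q0) (Gb := gB1q0) (D1 := dB0q1) (D2 := dB1q2) (Da := dB0q0) (Db := dB1q0) cB102E_ok B hρ hen (gatB01 x) (gatB12 x) (fun _ => gatB00 x) (fun _ => gatB10 x) (datB01 x) (datB12 x) (fun _ => datB00 x) (fun _ => datB10 x) hd hx hx' CW.B102E_010
    · exact corW_cert (G1 := gB0q1) (G2 := gB1q2) (Ga := gB1q0) (Gb := gB2q0) (D1 := dB0q1) (D2 := dB1q2) (Da := dB1q0) (Db := dB2q0) cB102E_ok B hρ hen (gatB01 x) (gatB12 x) (fun _ => gatB10 x) (fun _ => gatB20 x) (datB01 x) (datB12 x) (fun _ => datB10 x) (fun _ => datB20 x) hd hx hx' CW.B102E_011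
    · exact corW_cert (G1 := gB0q1) (G2 := gB1q2) (Ga := gB2q0) (Gb := gB3q0) (D1 := dB0q1) (D2 := dB1q2) (Da := dB2q0) (Db := dB3q0) cB102E_ok B hρ hen (gatB01 x) (gatB12 x) (fun _ => gatB20 x) (fun _ => gatB30 x) (datB01 x) (datB12 x) (fun _ => datB20 x) (fun _ => datB30 x) hd hx hx' CW.B102E_012
    · exact corW_cert (G1 := gB0q1) (G2 := gB1q2) (Ga := gB3q0) (Gb := gB4q0) (D1 := dB0q1) (D2 := dB1q2) (Da := dB3q0) (Db := dB4q0) cB102E_ok B hρ hen (gatB01 x) (gatB12 x) (fun _ => gatB30 x) (fun _ => gatB40 x) (datB01 x) (datB12 x) (fun _ => datB30 x) (fun _ => datB40 x) hd hx hx' CW.B102E_013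
    · exact corW_cert (G1 := gB0q1) (G2 := gB1q2) (Ga := gB4q0) (Gb := gB5q0) (D1 := dB0q1) (D2 := dB1q2) (Da := dB4q0) (Db := dB5q0) cB102E_ok B hρ hen (gatB01 x) (gatB12 x) (fun _ => gatB40 x) (fun h => absurd h (by decide)) (datB01 x) (datB12 x) (fun _ => datB40 x) (fun h => absurd h (by decide)) hd hx hx' CW.B102E_014
    · exact absurd h2 (by norm_num)
    · exact absurd h2 (by norm_num)
  · intro ρ a B hρ hd i h1 h2
    fin_cases i
    · exact corT_cert (G1 := gB0q1) (G2 := gB1q2) (Ga := gB0q0) (Gb := gB1q0) cB102E_ok B hρ (gatB01 x) (gatB12 x) (fun _ => gatB00 x) (fun _ => gatB10 x) hd hx hx' CG.B102E_010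
    · exact corT_cert (G1 := gB0q1) (G2 := gB1q2) (Ga := gB1q0) (Gb := gB2q0) cB102E_ok B hρ (gatB01 x) (gatB12 x) (fun _ => gatB10 x) (fun _ => gatB20 x) hd hx hx' CG.B102E_011
    · exact corT_cert (G1 := gB0q1) (G2 := gB1q2) (Ga := gB2q0) (Gb := gB3q0) cB102E_ok B hρ (gatB01 x) (gatB12 x) (fun _ => gatB20 x) (fun _ => gatB30 x) hd hx hx' CG.B102E_012
    · exact corT_cert (G1 := gB0q1) (G2 := gB1q2) (Ga := gB3q0) (Gb := gB4q0) cB102E_ok B hρ (gatB01 x) (gatB12 x) (fun _ => gatB30 x) (fun _ => gatB40 x) hd hx hx' CG.B102E_013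
    · exact corT_cert (G1 := gB0q1) (G2 := gB1q2) (Ga := gB4q0) (Gb := gB5q0) cB102E_ok B hρ (gatB01 x) (gatB12 x) (fun _ => gatB40 x) (fun h => absurd h (by decide)) hd hx hx' CG.B102E_014
    · exact absurd h2 (by norm_num)
    · exact absurd h2 (by norm_num)

theorem altB_B102E_02 {κ x : ℝ} (hκ : κ * h0 = ken x) (hx : ((697932185 : ℕ) : ℝ) / S ≤ x) (hx' : x ≤ (((697932185 : ℕ) : ℝ) + (42949674 : ℕ)) / S) :
    AltEB 3 κ (eng.v x) (3 / 40) (tnt (h0 * x) (3 / 10)) PP tK tL tC pcB (scP esg pd) [⟨0, 1, 0, 67108864⟩, ⟨1, 0, 0, 67108864⟩, ⟨2, 1, 0, 67108864⟩] 1 0 2 0 2 (sgb true) (sgb false) x := by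
  have X : XR 67108864 x := XR.of hx hx' (by norm_num) (by norm_num) (by norm_num) (by norm_num)
  have hen : 0 < eng.v x := en_pos X.x0.le
  refine CornW.altB (C := cB102E) (j := (0 : Fin 8)) (k := (2 : Fin 8)) (Ef := esg) (pd := pd) (o := 3 / 40)
    (cornW_of (C := cB102E) (C0 := c0B) (En := eng) (mo := mog) (j := (0 : Fin 8)) (k := (2 : Fin 8)) (lo := 0) (hi := 4) (W := 67108864) (N0 := 3) cB102E_q (sideB hx hx') gokB (pinU hx hx') dokB X (by norm_num) (by norm_num) (l := (0 : Fin 8)) rfl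
      (gatB01 x) (gatB22 x) (gatB00 x) (datB01 x) (datB22 x) (datB00 x) ?_)
    (cornS_of (C := cB102E) (C0 := c0B) (j := (0 : Fin 8)) (k := (2 : Fin 8)) (lo := 0) (hi := 4) (W := 67108864) (N0 := 3) cB102E_q (sideB hx hx') gokB X (by norm_num) (by norm_num) (l := (0 : Fin 8)) rfl
      (gatB01 x) (gatB22 x) (gatB00 x) ?_)
    (thU (pinU hx hx')) rfl hκ (fun j q y => tC_eq j q y x) (esg_rng X.x0.le (by linarith [X.b, X.p0])).1 (mo_v x) le_rfl le_rfl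
  · intro ρ a B hρ hd i h1 h2
    fin_cases i
    · exact corW_cert (G1 := gB0q1) (G2 := gB2q2) (Ga := gB0q0) (Gb := gB1q0) (D1 := dB0q1) (D2 := dB2q2) (Da := dB0q0) (Db := dB1q0) cB102E_ok B hρ hen (gatB01 x) (gatB22 x) (fun _ => gatB00 x) (fun _ => gatB10 x) (datB01 x) (datB22 x) (fun _ => datB00 x) (fun _ => datB10 x) hd hx hx' CW.B102E_020
    · exact corW_cert (G1 := gB0q1) (G2 := gB2q2) (Ga := gB1q0) (Gb := gB2q0) (D1 := dB0q1) (D2 := dB2q2) (Da := dB1q0) (Db := dB2q0) cB102E_ok B hρ hen (gatB01 x) (gatB22 x) (fun _ => gatB10 x) (fun _ => gatB20 x) (datB01 x) (datB22 x) (fun _ => datB10 x) (fun _ => datB20 x) hd hx hx' CW.B102E_021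
    · exact corW_cert (G1 := gB0q1) (G2 := gB2q2) (Ga := gB2q0) (Gb := gB3q0) (D1 := dB0q1) (D2 := dB2q2) (Da := dB2q0) (Db := dB3q0) cB102E_ok B hρ hen (gatB01 x) (gatB22 x) (fun _ => gatB20 x) (fun _ => gatB30 x) (datB01 x) (datB22 x) (fun _ => datB20 x) (fun _ => datB30 x) hd hx hx' CW.B102E_022
    · exact corW_cert (G1 := gB0q1) (G2 := gB2q2) (Ga := gB3q0) (Gb := gB4q0) (D1 := dB0q1) (D2 := dB2q2) (Da := dB3q0) (Db := dB4q0) cB102E_ok B hρ hen (gatB01 x) (gatB22 x) (fun _ => gatB30 x) (fun _ => gatB40 x) (datB01 x) (datB22 x) (fun _ => datB30 x) (fun _ => datB40 x) hd hx hx' CW.B102E_023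
    · exact corW_cert (G1 := gB0q1) (G2 := gB2q2) (Ga := gB4q0) (Gb := gB5q0) (D1 := dB0q1) (D2 := dB2q2) (Da := dB4q0) (Db := dB5q0) cB102E_ok B hρ hen (gatB01 x) (gatB22 x) (fun _ => gatB40 x) (fun h => absurd h (by decide)) (datB01 x) (datB22 x) (fun _ => datB40 x) (fun h => absurd h (by decide)) hd hx hx' CW.B102E_024
    · exact absurd h2 (by norm_num)
    · exact absurd h2 (by norm_num)
  · intro ρ a B hρ hd i h1 h2
    fin_cases i
    · exact corT_cert (G1 := gB0q1) (G2 := gB2q2) (Ga := gB0q0) (Gb := gB1q0) cB102E_ok B hρ (gatB01 x) (gatB22 x) (fun _ => gatB00 x) (fun _ => gatB10 x) hd hx hx' CG.B102E_020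
    · exact corT_cert (G1 := gB0q1) (G2 := gB2q2) (Ga := gB1q0) (Gb := gB2q0) cB102E_ok B hρ (gatB01 x) (gatB22 x) (fun _ => gatB10 x) (fun _ => gatB20 x) hd hx hx' CG.B102E_021
    · exact corT_cert (G1 := gB0q1) (G2 := gB2q2) (Ga := gB2q0) (Gb := gB3q0) cB102E_ok B hρ (gatB01 x) (gatB22 x) (fun _ => gatB20 x) (fun _ => gatB30 x) hd hx hx' CG.B102E_022
    · exact corT_cert (G1 := gB0q1) (G2 := gB2q2) (Ga := gB3q0) (Gb := gB4q0) cB102E_ok B hρ (gatB01 x) (gatB22 x) (fun _ => gatB30 x) (fun _ => gatB40 x) hd hx hx' CG.B102E_023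
    · exact corT_cert (G1 := gB0q1) (G2 := gB2q2) (Ga := gB4q0) (Gb := gB5q0) cB102E_ok B hρ (gatB01 x) (gatB22 x) (fun _ => gatB40 x) (fun h => absurd h (by decide)) hd hx hx' CG.B102E_024
    · exact absurd h2 (by norm_num)
    · exact absurd h2 (by norm_num)

theorem altB_B102E_03 {κ x : ℝ} (hκ : κ * h0 = ken x) (hx : ((697932185 : ℕ) : ℝ) / S ≤ x) (hx' : x ≤ (((697932185 : ℕ) : ℝ) + (42949674 : ℕ)) / S) :
    AltEB 3 κ (eng.v x) (3 / 40) (tnt (h0 * x) (3 / 10)) PP tK tL tC pcB (scP esg pd) [⟨0, 1, 0, 67108864⟩, ⟨1, 0, 0, 67108864⟩, ⟨2, 1, 0, 67108864⟩] 1 0 2 0 3 (sgb true) (sgb false) x := by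
  have X : XR 67108864 x := XR.of hx hx' (by norm_num) (by norm_num) (by norm_num) (by norm_num)
  have hen : 0 < eng.v x := en_pos X.x0.le
  refine CornW.altB (C := cB102E) (j := (0 : Fin 8)) (k := (3 : Fin 8)) (Ef := esg) (pd := pd) (o := 3 / 40)
    (cornW_of (C := cB102E) (C0 := c0B) (En := eng) (mo := mog) (j := (0 : Fin 8)) (k := (3 : Fin 8)) (lo := 0) (hi := 4) (W := 67108864) (N0 := 3) cB102E_q (sideB hx hx') gokB (pinU hx hx') dokB X (by norm_num) (by norm_num) (l := (0 : Fin 8)) rfl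
      (gatB01 x) (gatB32 x) (gatB00 x) (datB01 x) (datB32 x) (datB00 x) ?_)
    (cornS_of (C := cB102E) (C0 := c0B) (j := (0 : Fin 8)) (k := (3 : Fin 8)) (lo := 0) (hi := 4) (W := 67108864) (N0 := 3) cB102E_q (sideB hx hx') gokB X (by norm_num) (by norm_num) (l := (0 : Fin 8)) rfl
      (gatB01 x) (gatB32 x) (gatB00 x) ?_)
    (thU (pinU hx hx')) rfl hκ (fun j q y => tC_eq j q y x) (esg_rng X.x0.le (by linarith [X.b, X.p0])).1 (mo_v x) le_rfl le_rfl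
  · intro ρ a B hρ hd i h1 h2
    fin_cases i
    · exact corW_cert (G1 := gB0q1) (G2 := gB3q2) (Ga := gB0q0) (Gb := gB1q0) (D1 := dB0q1) (D2 := dB3q2) (Da := dB0q0) (Db := dB1q0) cB102E_ok B hρ hen (gatB01 x) (gatB32 x) (fun _ => gatB00 x) (fun _ => gatB10 x) (datB01 x) (datB32 x) (fun _ => datB00 x) (fun _ => datB10 x) hd hx hx' CW.B102E_030
    · exact corW_cert (G1 := gB0q1) (G2 := gB3q2) (Ga := gB1q0) (Gb := gB2q0) (D1 := dB0q1) (D2 := dB3q2) (Da := dB1q0) (Db := dB2q0) cB102E_ok B hρ hen (gatB01 x) (gatB32 x) (fun _ => gatB10 x) (fun _ => gatB20 x) (datB01 x) (datB32 x) (fun _ => datB10 x) (fun _ => datB20 x) hd hx hx' CW.B102E_031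
    · exact corW_cert (G1 := gB0q1) (G2 := gB3q2) (Ga := gB2q0) (Gb := gB3q0) (D1 := dB0q1) (D2 := dB3q2) (Da := dB2q0) (Db := dB3q0) cB102E_ok B hρ hen (gatB01 x) (gatB32 x) (fun _ => gatB20 x) (fun _ => gatB30 x) (datB01 x) (datB32 x) (fun _ => datB20 x) (fun _ => datB30 x) hd hx hx' CW.B102E_032
    · exact corW_cert (G1 := gB0q1) (G2 := gB3q2) (Ga := gB3q0) (Gb := gB4q0) (D1 := dB0q1) (D2 := dB3q2) (Da := dB3q0) (Db := dB4q0) cB102E_ok B hρ hen (gatB01 x) (gatB32 x) (fun _ => gatB30 x) (fun _ => gatB40 x) (datB01 x) (datB32 x) (fun _ => datB30 x) (fun _ => datB40 x) hd hx hx' CW.B102E_033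
    · exact corW_cert (G1 := gB0q1) (G2 := gB3q2) (Ga := gB4q0) (Gb := gB5q0) (D1 := dB0q1) (D2 := dB3q2) (Da := dB4q0) (Db := dB5q0) cB102E_ok B hρ hen (gatB01 x) (gatB32 x) (fun _ => gatB40 x) (fun h => absurd h (by decide)) (datB01 x) (datB32 x) (fun _ => datB40 x) (fun h => absurd h (by decide)) hd hx hx' CW.B102E_034
    · exact absurd h2 (by norm_num)
    · exact absurd h2 (by norm_num)
  · intro ρ a B hρ hd i h1 h2
    fin_cases i
    · exact corT_cert (G1 := gB0q1) (G2 := gB3q2) (Ga := gB0q0) (Gb := gB1q0) cB102E_ok B hρ (gatB01 x) (gatB32 x) (fun _ => gatB00 x) (fun _ => gatB10 x) hd hx hx' CG.B102E_030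
    · exact corT_cert (G1 := gB0q1) (G2 := gB3q2) (Ga := gB1q0) (Gb := gB2q0) cB102E_ok B hρ (gatB01 x) (gatB32 x) (fun _ => gatB10 x) (fun _ => gatB20 x) hd hx hx' CG.B102E_031
    · exact corT_cert (G1 := gB0q1) (G2 := gB3q2) (Ga := gB2q0) (Gb := gB3q0) cB102E_ok B hρ (gatB01 x) (gatB32 x) (fun _ => gatB20 x) (fun _ => gatB30 x) hd hx hx' CG.B102E_032
    · exact corT_cert (G1 := gB0q1) (G2 := gB3q2) (Ga := gB3q0) (Gb := gB4q0) cB102E_ok B hρ (gatB01 x) (gatB32 x) (fun _ => gatB30 x) (fun _ => gatB40 x) hd hx hx' CG.B102E_033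
    · exact corT_cert (G1 := gB0q1) (G2 := gB3q2) (Ga := gB4q0) (Gb := gB5q0) cB102E_ok B hρ (gatB01 x) (gatB32 x) (fun _ => gatB40 x) (fun h => absurd h (by decide)) hd hx hx' CG.B102E_034
    · exact absurd h2 (by norm_num)
    · exact absurd h2 (by norm_num)

theorem altB_B102E_04 {κ x : ℝ} (hκ : κ * h0 = ken x) (hx : ((697932185 : ℕ) : ℝ) / S ≤ x) (hx' : x ≤ (((697932185 : ℕ) : ℝ) + (42949674 : ℕ)) / S) :
    AltEB 3 κ (eng.v x) (3 / 40) (tnt (h0 * x) (3 / 10)) PP tK tL tC pcB (scP esg pd) [⟨0, 1, 0, 67108864⟩, ⟨1, 0, 0, 67108864⟩, ⟨2, 1, 0, 67108864⟩] 1 0 2 0 4 (sgb true) (sgb false) x := by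
  have X : XR 67108864 x := XR.of hx hx' (by norm_num) (by norm_num) (by norm_num) (by norm_num)
  have hen : 0 < eng.v x := en_pos X.x0.le
  refine CornW.altB (C := cB102E) (j := (0 : Fin 8)) (k := (4 : Fin 8)) (Ef := esg) (pd := pd) (o := 3 / 40)
    (cornW_of (C := cB102E) (C0 := c0B) (En := eng) (mo := mog) (j := (0 : Fin 8)) (k := (4 : Fin 8)) (lo := 0) (hi := 4) (W := 67108864) (N0 := 3) cB102E_q (sideB hx hx') gokB (pinU hx hx') dokB X (by norm_num) (by norm_num) (l := (0 : Fin 8)) rfl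
      (gatB01 x) (gatB42 x) (gatB00 x) (datB01 x) (datB42 x) (datB00 x) ?_)
    (cornS_of (C := cB102E) (C0 := c0B) (j := (0 : Fin 8)) (k := (4 : Fin 8)) (lo := 0) (hi := 4) (W := 67108864) (N0 := 3) cB102E_q (sideB hx hx') gokB X (by norm_num) (by norm_num) (l := (0 : Fin 8)) rfl
      (gatB01 x) (gatB42 x) (gatB00 x) ?_)
    (thU (pinU hx hx')) rfl hκ (fun j q y => tC_eq j q y x) (esg_rng X.x0.le (by linarith [X.b, X.p0])).1 (mo_v x) le_rfl le_rfl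
  · intro ρ a B hρ hd i h1 h2
    fin_cases i
    · exact corW_cert (G1 := gB0q1) (G2 := gB4q2) (Ga := gB0q0) (Gb := gB1q0) (D1 := dB0q1) (D2 := dB4q2) (Da := dB0q0) (Db := dB1q0) cB102E_ok B hρ hen (gatB01 x) (gatB42 x) (fun _ => gatB00 x) (fun _ => gatB10 x) (datB01 x) (datB42 x) (fun _ => datB00 x) (fun _ => datB10 x) hd hx hx' CW.B102E_040
    · exact corW_cert (G1 := gB0q1) (G2 := gB4q2) (Ga := gB1q0) (Gb := gB2q0) (D1 := dB0q1) (D2 := dB4q2) (Da := dB1q0) (Db := dB2q0) cB102E_ok B hρ hen (gatB01 x) (gatB42 x) (fun _ => gatB10 x) (fun _ => gatB20 x) (datB01 x) (datB42 x) (fun _ => datB10 x) (fun _ => datB20 x) hd hx hx' CW.B102E_041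
    · exact corW_cert (G1 := gB0q1) (G2 := gB4q2) (Ga := gB2q0) (Gb := gB3q0) (D1 := dB0q1) (D2 := dB4q2) (Da := dB2q0) (Db := dB3q0) cB102E_ok B hρ hen (gatB01 x) (gatB42 x) (fun _ => gatB20 x) (fun _ => gatB30 x) (datB01 x) (datB42 x) (fun _ => datB20 x) (fun _ => datB30 x) hd hx hx' CW.B102E_042
    · exact corW_cert (G1 := gB0q1) (G2 := gB4q2) (Ga := gB3q0) (Gb := gB4q0) (D1 := dB0q1) (D2 := dB4q2) (Da := dB3q0) (Db := dB4q0) cB102E_ok B hρ hen (gatB01 x) (gatB42 x) (fun _ => gatB30 x) (fun _ => gatB40 x) (datB01 x) (datB42 x) (fun _ => datB30 x) (fun _ => datB40 x) hd hx hx' CW.B102E_043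
    · exact corW_cert (G1 := gB0q1) (G2 := gB4q2) (Ga := gB4q0) (Gb := gB5q0) (D1 := dB0q1) (D2 := dB4q2) (Da := dB4q0) (Db := dB5q0) cB102E_ok B hρ hen (gatB01 x) (gatB42 x) (fun _ => gatB40 x) (fun h => absurd h (by decide)) (datB01 x) (datB42 x) (fun _ => datB40 x) (fun h => absurd h (by decide)) hd hx hx' CW.B102E_044
    · exact absurd h2 (by norm_num)
    · exact absurd h2 (by norm_num)
  · intro ρ a B hρ hd i h1 h2
    fin_cases i
    · exact corT_cert (G1 := gB0q1) (G2 := gB4q2) (Ga := gB0q0) (Gb := gB1q0) cB102E_ok B hρ (gatB01 x) (gatB42 x) (fun _ => gatB00 x) (fun _ => gatB10 x) hd hx hx' CG.B102E_040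
    · exact corT_cert (G1 := gB0q1) (G2 := gB4q2) (Ga := gB1q0) (Gb := gB2q0) cB102E_ok B hρ (gatB01 x) (gatB42 x) (fun _ => gatB10 x) (fun _ => gatB20 x) hd hx hx' CG.B102E_041
    · exact corT_cert (G1 := gB0q1) (G2 := gB4q2) (Ga := gB2q0) (Gb := gB3q0) cB102E_ok B hρ (gatB01 x) (gatB42 x) (fun _ => gatB20 x) (fun _ => gatB30 x) hd hx hx' CG.B102E_042
    · exact corT_cert (G1 := gB0q1) (G2 := gB4q2) (Ga := gB3q0) (Gb := gB4q0) cB102E_ok B hρ (gatB01 x) (gatB42 x) (fun _ => gatB30 x) (fun _ => gatB40 x) hd hx hx' CG.B102E_043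
    · exact corT_cert (G1 := gB0q1) (G2 := gB4q2) (Ga := gB4q0) (Gb := gB5q0) cB102E_ok B hρ (gatB01 x) (gatB42 x) (fun _ => gatB40 x) (fun h => absurd h (by decide)) hd hx hx' CG.B102E_044
    · exact absurd h2 (by norm_num)
    · exact absurd h2 (by norm_num)

theorem altB_B102L_50 {κ x : ℝ} (hκ : κ * h0 = ken x) (hx : ((697932185 : ℕ) : ℝ) / S ≤ x) (hx' : x ≤ (((697932185 : ℕ) : ℝ) + (42949674 : ℕ)) / S) :
    AltEB 3 κ (eng.v x) (3 / 40) (tnt (h0 * x) (3 / 10)) PP tK tL tC pcB (scP esg pd) [⟨0, 1, 0, 67108864⟩, ⟨1, 0, 0, 67108864⟩, ⟨2, 1, 0, 67108864⟩] 1 0 2 5 0 (sgb true) (sgb true) x := by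
  have X : XR 67108864 x := XR.of hx hx' (by norm_num) (by norm_num) (by norm_num) (by norm_num)
  have hen : 0 < eng.v x := en_pos X.x0.le
  refine CornW.altB (C := cB102L) (j := (5 : Fin 8)) (k := (0 : Fin 8)) (Ef := esg) (pd := pd) (o := 3 / 40)
    (cornW_of (C := cB102L) (C0 := c0B) (En := eng) (mo := mog) (j := (5 : Fin 8)) (k := (0 : Fin 8)) (lo := 0) (hi := 4) (W := 67108864) (N0 := 3) cB102L_q (sideB hx hx') gokB (pinU hx hx') dokB X (by norm_num) (by norm_num) (l := (0 : Fin 8)) rfl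
      (gatB51 x) (gatB02 x) (gatB00 x) (datB51 x) (datB02 x) (datB00 x) ?_)
    (cornS_of (C := cB102L) (C0 := c0B) (j := (5 : Fin 8)) (k := (0 : Fin 8)) (lo := 0) (hi := 4) (W := 67108864) (N0 := 3) cB102L_q (sideB hx hx') gokB X (by norm_num) (by norm_num) (l := (0 : Fin 8)) rfl
      (gatB51 x) (gatB02 x) (gatB00 x) ?_)
    (thU (pinU hx hx')) rfl hκ (fun j q y => tC_eq j q y x) (esg_rng X.x0.le (by linarith [X.b, X.p0])).1 (mo_v x) le_rfl le_rfl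
  · intro ρ a B hρ hd i h1 h2
    fin_cases i
    · exact corW_cert (G1 := gB5q1) (G2 := gB0q2) (Ga := gB0q0) (Gb := gB1q0) (D1 := dB5q1) (D2 := dB0q2) (Da := dB0q0) (Db := dB1q0) cB102L_ok B hρ hen (gatB51 x) (gatB02 x) (fun _ => gatB00 x) (fun _ => gatB10 x) (datB51 x) (datB02 x) (fun _ => datB00 x) (fun _ => datB10 x) hd hx hx' CW.B102L_500
    · exact corW_cert (G1 := gB5q1) (G2 := gB0q2) (Ga := gB1q0) (Gb := gB2q0) (D1 := dB5q1) (D2 := dB0q2) (Da := dB1q0) (Db := dB2q0) cB102L_ok B hρ hen (gatB51 x) (gatB02 x) (fun _ => gatB10 x) (fun _ => gatB20 x) (datB51 x) (datB02 x) (fun _ => datB10 x) (fun _ => datB20 x) hd hx hx' CW.B102L_501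
    · exact corW_cert (G1 := gB5q1) (G2 := gB0q2) (Ga := gB2q0) (Gb := gB3q0) (D1 := dB5q1) (D2 := dB0q2) (Da := dB2q0) (Db := dB3q0) cB102L_ok B hρ hen (gatB51 x) (gatB02 x) (fun _ => gatB20 x) (fun _ => gatB30 x) (datB51 x) (datB02 x) (fun _ => datB20 x) (fun _ => datB30 x) hd hx hx' CW.B102L_502
    · exact corW_cert (G1 := gB5q1) (G2 := gB0q2) (Ga := gB3q0) (Gb := gB4q0) (D1 := dB5q1) (D2 := dB0q2) (Da := dB3q0) (Db := dB4q0) cB102L_ok B hρ hen (gatB51 x) (gatB02 x) (fun _ => gatB30 x) (fun _ => gatB40 x) (datB51 x) (datB02 x) (fun _ => datB30 x) (fun _ => datB40 x) hd hx hx' CW.B102L_503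
    · exact corW_cert (G1 := gB5q1) (G2 := gB0q2) (Ga := gB4q0) (Gb := gB5q0) (D1 := dB5q1) (D2 := dB0q2) (Da := dB4q0) (Db := dB5q0) cB102L_ok B hρ hen (gatB51 x) (gatB02 x) (fun _ => gatB40 x) (fun h => absurd h (by decide)) (datB51 x) (datB02 x) (fun _ => datB40 x) (fun h => absurd h (by decide)) hd hx hx' CW.B102L_504
    · exact absurd h2 (by norm_num)
    · exact absurd h2 (by norm_num)
  · intro ρ a B hρ hd i h1 h2
    fin_cases i
    · exact corT_cert (G1 := gB5q1) (G2 := gB0q2) (Ga := gB0q0) (Gb := gB1q0) cB102L_ok B hρ (gatB51 x) (gatB02 x) (fun _ => gatB00 x) (fun _ => gatB10 x) hd hx hx' CG.B102L_500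
    · exact corT_cert (G1 := gB5q1) (G2 := gB0q2) (Ga := gB1q0) (Gb := gB2q0) cB102L_ok B hρ (gatB51 x) (gatB02 x) (fun _ => gatB10 x) (fun _ => gatB20 x) hd hx hx' CG.B102L_501
    · exact corT_cert (G1 := gB5q1) (G2 := gB0q2) (Ga := gB2q0) (Gb := gB3q0) cB102L_ok B hρ (gatB51 x) (gatB02 x) (fun _ => gatB20 x) (fun _ => gatB30 x) hd hx hx' CG.B102L_502
    · exact corT_cert (G1 := gB5q1) (G2 := gB0q2) (Ga := gB3q0) (Gb := gB4q0) cB102L_ok B hρ (gatB51 x) (gatB02 x) (fun _ => gatB30 x) (fun _ => gatB40 x) hd hx hx' CG.B102L_503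
    · exact corT_cert (G1 := gB5q1) (G2 := gB0q2) (Ga := gB4q0) (Gb := gB5q0) cB102L_ok B hρ (gatB51 x) (gatB02 x) (fun _ => gatB40 x) (fun h => absurd h (by decide)) hd hx hx' CG.B102L_504
    · exact absurd h2 (by norm_num)
    · exact absurd h2 (by norm_num)

theorem altB_B102L_51 {κ x : ℝ} (hκ : κ * h0 = ken x) (hx : ((697932185 : ℕ) : ℝ) / S ≤ x) (hx' : x ≤ (((697932185 : ℕ) : ℝ) + (42949674 : ℕ)) / S) :
    AltEB 3 κ (eng.v x) (3 / 40) (tnt (h0 * x) (3 / 10)) PP tK tL tC pcB (scP esg pd) [⟨0, 1, 0, 67108864⟩, ⟨1, 0, 0, 67108864⟩, ⟨2, 1, 0, 67108864⟩] 1 0 2 5 1 (sgb true) (sgb true) x := by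
  have X : XR 67108864 x := XR.of hx hx' (by norm_num) (by norm_num) (by norm_num) (by norm_num)
  have hen : 0 < eng.v x := en_pos X.x0.le
  refine CornW.altB (C := cB102L) (j := (5 : Fin 8)) (k := (1 : Fin 8)) (Ef := esg) (pd := pd) (o := 3 / 40)
    (cornW_of (C := cB102L) (C0 := c0B) (En := eng) (mo := mog) (j := (5 : Fin 8)) (k := (1 : Fin 8)) (lo := 0) (hi := 4) (W := 67108864) (N0 := 3) cB102L_q (sideB hx hx') gokB (pinU hx hx') dokB X (by norm_num) (by norm_num) (l := (0 : Fin 8)) rfl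
      (gatB51 x) (gatB12 x) (gatB00 x) (datB51 x) (datB12 x) (datB00 x) ?_)
    (cornS_of (C := cB102L) (C0 := c0B) (j := (5 : Fin 8)) (k := (1 : Fin 8)) (lo := 0) (hi := 4) (W := 67108864) (N0 := 3) cB102L_q (sideB hx hx') gokB X (by norm_num) (by norm_num) (l := (0 : Fin 8)) rfl
      (gatB51 x) (gatB12 x) (gatB00 x) ?_)
    (thU (pinU hx hx')) rfl hκ (fun j q y => tC_eq j q y x) (esg_rng X.x0.le (by linarith [X.b, X.p0])).1 (mo_v x) le_rfl le_rfl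
  · intro ρ a B hρ hd i h1 h2
    fin_cases i
    · exact corW_cert (G1 := gB5q1) (G2 := gB1q2) (Ga := gB0q0) (Gb := gB1q0) (D1 := dB5q1) (D2 := dB1q2) (Da := dB0q0) (Db := dB1q0) cB102L_ok B hρ hen (gatB51 x) (gatB12 x) (fun _ => gatB00 x) (fun _ => gatB10 x) (datB51 x) (datB12 x) (fun _ => datB00 x) (fun _ => datB10 x) hd hx hx' CW.B102L_510
    · exact corW_cert (G1 := gB5q1) (G2 := gB1q2) (Ga := gB1q0) (Gb := gB2q0) (D1 := dB5q1) (D2 := dB1q2) (Da := dB1q0) (Db := dB2q0) cB102L_ok B hρ hen (gatB51 x) (gatB12 x) (fun _ => gatB10 x) (fun _ => gatB20 x) (datB51 x) (datB12 x) (fun _ => datB10 x) (fun _ => datB20 x) hd hx hx' CW.B102L_511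
    · exact corW_cert (G1 := gB5q1) (G2 := gB1q2) (Ga := gB2q0) (Gb := gB3q0) (D1 := dB5q1) (D2 := dB1q2) (Da := dB2q0) (Db := dB3q0) cB102L_ok B hρ hen (gatB51 x) (gatB12 x) (fun _ => gatB20 x) (fun _ => gatB30 x) (datB51 x) (datB12 x) (fun _ => datB20 x) (fun _ => datB30 x) hd hx hx' CW.B102L_512
    · exact corW_cert (G1 := gB5q1) (G2 := gB1q2) (Ga := gB3q0) (Gb := gB4q0) (D1 := dB5q1) (D2 := dB1q2) (Da := dB3q0) (Db := dB4q0) cB102L_ok B hρ hen (gatB51 x) (gatB12 x) (fun _ => gatB30 x) (fun _ => gatB40 x) (datB51 x) (datB12 x) (fun _ => datB30 x) (fun _ => datB40 x) hd hx hx' CW.B102L_513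
    · exact corW_cert (G1 := gB5q1) (G2 := gB1q2) (Ga := gB4q0) (Gb := gB5q0) (D1 := dB5q1) (D2 := dB1q2) (Da := dB4q0) (Db := dB5q0) cB102L_ok B hρ hen (gatB51 x) (gatB12 x) (fun _ => gatB40 x) (fun h => absurd h (by decide)) (datB51 x) (datB12 x) (fun _ => datB40 x) (fun h => absurd h (by decide)) hd hx hx' CW.B102L_514
    · exact absurd h2 (by norm_num)
    · exact absurd h2 (by norm_num)
  · intro ρ a B hρ hd i h1 h2
    fin_cases i
    · exact corT_cert (G1 := gB5q1) (G2 := gB1q2) (Ga := gB0q0) (Gb := gB1q0) cB102L_ok B hρ (gatB51 x) (gatB12 x) (fun _ => gatB00 x) (fun _ => gatB10 x) hd hx hx' CG.B102L_510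
    · exact corT_cert (G1 := gB5q1) (G2 := gB1q2) (Ga := gB1q0) (Gb := gB2q0) cB102L_ok B hρ (gatB51 x) (gatB12 x) (fun _ => gatB10 x) (fun _ => gatB20 x) hd hx hx' CG.B102L_511
    · exact corT_cert (G1 := gB5q1) (G2 := gB1q2) (Ga := gB2q0) (Gb := gB3q0) cB102L_ok B hρ (gatB51 x) (gatB12 x) (fun _ => gatB20 x) (fun _ => gatB30 x) hd hx hx' CG.B102L_512
    · exact corT_cert (G1 := gB5q1) (G2 := gB1q2) (Ga := gB3q0) (Gb := gB4q0) cB102L_ok B hρ (gatB51 x) (gatB12 x) (fun _ => gatB30 x) (fun _ => gatB40 x) hd hx hx' CG.B102L_513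
    · exact corT_cert (G1 := gB5q1) (G2 := gB1q2) (Ga := gB4q0) (Gb := gB5q0) cB102L_ok B hρ (gatB51 x) (gatB12 x) (fun _ => gatB40 x) (fun h => absurd h (by decide)) hd hx hx' CG.B102L_514
    · exact absurd h2 (by norm_num)
    · exact absurd h2 (by norm_num)

theorem altB_B102L_52 {κ x : ℝ} (hκ : κ * h0 = ken x) (hx : ((697932185 : ℕ) : ℝ) / S ≤ x) (hx' : x ≤ (((697932185 : ℕ) : ℝ) + (42949674 : ℕ)) / S) :
    AltEB 3 κ (eng.v x) (3 / 40) (tnt (h0 * x) (3 / 10)) PP tK tL tC pcB (scP esg pd) [⟨0, 1, 0, 67108864⟩, ⟨1, 0, 0, 67108864⟩, ⟨2, 1, 0, 67108864⟩] 1 0 2 5 2 (sgb true) (sgb true) x := by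
  have X : XR 67108864 x := XR.of hx hx' (by norm_num) (by norm_num) (by norm_num) (by norm_num)
  have hen : 0 < eng.v x := en_pos X.x0.le
  refine CornW.altB (C := cB102L) (j := (5 : Fin 8)) (k := (2 : Fin 8)) (Ef := esg) (pd := pd) (o := 3 / 40)
    (cornW_of (C := cB102L) (C0 := c0B) (En := eng) (mo := mog) (j := (5 : Fin 8)) (k := (2 : Fin 8)) (lo := 0) (hi := 4) (W := 67108864) (N0 := 3) cB102L_q (sideB hx hx') gokB (pinU hx hx') dokB X (by norm_num) (by norm_num) (l := (0 : Fin 8)) rfl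
      (gatB51 x) (gatB22 x) (gatB00 x) (datB51 x) (datB22 x) (datB00 x) ?_)
    (cornS_of (C := cB102L) (C0 := c0B) (j := (5 : Fin 8)) (k := (2 : Fin 8)) (lo := 0) (hi := 4) (W := 67108864) (N0 := 3) cB102L_q (sideB hx hx') gokB X (by norm_num) (by norm_num) (l := (0 : Fin 8)) rfl
      (gatB51 x) (gatB22 x) (gatB00 x) ?_)
    (thU (pinU hx hx')) rfl hκ (fun j q y => tC_eq j q y x) (esg_rng X.x0.le (by linarith [X.b, X.p0])).1 (mo_v x) le_rfl le_rfl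
  · intro ρ a B hρ hd i h1 h2
    fin_cases i
    · exact corW_cert (G1 := gB5q1) (G2 := gB2q2) (Ga := gB0q0) (Gb := gB1q0) (D1 := dB5q1) (D2 := dB2q2) (Da := dB0q0) (Db := dB1q0) cB102L_ok B hρ hen (gatB51 x) (gatB22 x) (fun _ => gatB00 x) (fun _ => gatB10 x) (datB51 x) (datB22 x) (fun _ => datB00 x) (fun _ => datB10 x) hd hx hx' CW.B102L_520
    · exact corW_cert (G1 := gB5q1) (G2 := gB2q2) (Ga := gB1q0) (Gb := gB2q0) (D1 := dB5q1) (D2 := dB2q2) (Da := dB1q0) (Db := dB2q0) cB102L_ok B hρ hen (gatB51 x) (gatB22 x) (fun _ => gatB10 x) (fun _ => gatB20 x) (datB51 x) (datB22 x) (fun _ => datB10 x) (fun _ => datB20 x) hd hx hx' CW.B102L_521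
    · exact corW_cert (G1 := gB5q1) (G2 := gB2q2) (Ga := gB2q0) (Gb := gB3q0) (D1 := dB5q1) (D2 := dB2q2) (Da := dB2q0) (Db := dB3q0) cB102L_ok B hρ hen (gatB51 x) (gatB22 x) (fun _ => gatB20 x) (fun _ => gatB30 x) (datB51 x) (datB22 x) (fun _ => datB20 x) (fun _ => datB30 x) hd hx hx' CW.B102L_522
    · exact corW_cert (G1 := gB5q1) (G2 := gB2q2) (Ga := gB3q0) (Gb := gB4q0) (D1 := dB5q1) (D2 := dB2q2) (Da := dB3q0) (Db := dB4q0) cB102L_ok B hρ hen (gatB51 x) (gatB22 x) (fun _ => gatB30 x) (fun _ => gatB40 x) (datB51 x) (datB22 x) (fun _ => datB30 x) (fun _ => datB40 x) hd hx hx' CW.B102L_523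
    · exact corW_cert (G1 := gB5q1) (G2 := gB2q2) (Ga := gB4q0) (Gb := gB5q0) (D1 := dB5q1) (D2 := dB2q2) (Da := dB4q0) (Db := dB5q0) cB102L_ok B hρ hen (gatB51 x) (gatB22 x) (fun _ => gatB40 x) (fun h => absurd h (by decide)) (datB51 x) (datB22 x) (fun _ => datB40 x) (fun h => absurd h (by decide)) hd hx hx' CW.B102L_524
    · exact absurd h2 (by norm_num)
    · exact absurd h2 (by norm_num)
  · intro ρ a B hρ hd i h1 h2
    fin_cases i
    · exact corT_cert (G1 := gB5q1) (G2 := gB2q2) (Ga := gB0q0) (Gb := gB1q0) cB102L_ok B hρ (gatB51 x) (gatB22 x) (fun _ => gatB00 x) (fun _ => gatB10 x) hd hx hx' CG.B102L_520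
    · exact corT_cert (G1 := gB5q1) (G2 := gB2q2) (Ga := gB1q0) (Gb := gB2q0) cB102L_ok B hρ (gatB51 x) (gatB22 x) (fun _ => gatB10 x) (fun _ => gatB20 x) hd hx hx' CG.B102L_521
    · exact corT_cert (G1 := gB5q1) (G2 := gB2q2) (Ga := gB2q0) (Gb := gB3q0) cB102L_ok B hρ (gatB51 x) (gatB22 x) (fun _ => gatB20 x) (fun _ => gatB30 x) hd hx hx' CG.B102L_522
    · exact corT_cert (G1 := gB5q1) (G2 := gB2q2) (Ga := gB3q0) (Gb := gB4q0) cB102L_ok B hρ (gatB51 x) (gatB22 x) (fun _ => gatB30 x) (fun _ => gatB40 x) hd hx hx' CG.B102L_523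
    · exact corT_cert (G1 := gB5q1) (G2 := gB2q2) (Ga := gB4q0) (Gb := gB5q0) cB102L_ok B hρ (gatB51 x) (gatB22 x) (fun _ => gatB40 x) (fun h => absurd h (by decide)) hd hx hx' CG.B102L_524
    · exact absurd h2 (by norm_num)
    · exact absurd h2 (by norm_num)

theorem altB_B102L_53 {κ x : ℝ} (hκ : κ * h0 = ken x) (hx : ((697932185 : ℕ) : ℝ) / S ≤ x) (hx' : x ≤ (((697932185 : ℕ) : ℝ) + (42949674 : ℕ)) / S) :
    AltEB 3 κ (eng.v x) (3 / 40) (tnt (h0 * x) (3 / 10)) PP tK tL tC pcB (scP esg pd) [⟨0, 1, 0, 67108864⟩, ⟨1, 0, 0, 67108864⟩, ⟨2, 1, 0, 67108864⟩] 1 0 2 5 3 (sgb true) (sgb true) x := by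
  have X : XR 67108864 x := XR.of hx hx' (by norm_num) (by norm_num) (by norm_num) (by norm_num)
  have hen : 0 < eng.v x := en_pos X.x0.le
  refine CornW.altB (C := cB102L) (j := (5 : Fin 8)) (k := (3 : Fin 8)) (Ef := esg) (pd := pd) (o := 3 / 40)
    (cornW_of (C := cB102L) (C0 := c0B) (En := eng) (mo := mog) (j := (5 : Fin 8)) (k := (3 : Fin 8)) (lo := 0) (hi := 4) (W := 67108864) (N0 := 3) cB102L_q (sideB hx hx') gokB (pinU hx hx') dokB X (by norm_num) (by norm_num) (l := (0 : Fin 8)) rfl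
      (gatB51 x) (gatB32 x) (gatB00 x) (datB51 x) (datB32 x) (datB00 x) ?_)
    (cornS_of (C := cB102L) (C0 := c0B) (j := (5 : Fin 8)) (k := (3 : Fin 8)) (lo := 0) (hi := 4) (W := 67108864) (N0 := 3) cB102L_q (sideB hx hx') gokB X (by norm_num) (by norm_num) (l := (0 : Fin 8)) rfl
      (gatB51 x) (gatB32 x) (gatB00 x) ?_)
    (thU (pinU hx hx')) rfl hκ (fun j q y => tC_eq j q y x) (esg_rng X.x0.le (by linarith [X.b, X.p0])).1 (mo_v x) le_rfl le_rfl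
  · intro ρ a B hρ hd i h1 h2
    fin_cases i
    · exact corW_cert (G1 := gB5q1) (G2 := gB3q2) (Ga := gB0q0) (Gb := gB1q0) (D1 := dB5q1) (D2 := dB3q2) (Da := dB0q0) (Db := dB1q0) cB102L_ok B hρ hen (gatB51 x) (gatB32 x) (fun _ => gatB00 x) (fun _ => gatB10 x) (datB51 x) (datB32 x) (fun _ => datB00 x) (fun _ => datB10 x) hd hx hx' CW.B102L_530
    · exact corW_cert (G1 := gB5q1) (G2 := gB3q2) (Ga := gB1q0) (Gb := gB2q0) (D1 := dB5q1) (D2 := dB3q2) (Da := dB1q0) (Db := dB2q0) cB102L_ok B hρ hen (gatB51 x) (gatB32 x) (fun _ => gatB10 x) (fun _ => gatB20 x) (datB51 x) (datB32 x) (fun _ => datB10 x) (fun _ => datB20 x) hd hx hx' CW.B102L_531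
    · exact corW_cert (G1 := gB5q1) (G2 := gB3q2) (Ga := gB2q0) (Gb := gB3q0) (D1 := dB5q1) (D2 := dB3q2) (Da := dB2q0) (Db := dB3q0) cB102L_ok B hρ hen (gatB51 x) (gatB32 x) (fun _ => gatB20 x) (fun _ => gatB30 x) (datB51 x) (datB32 x) (fun _ => datB20 x) (fun _ => datB30 x) hd hx hx' CW.B102L_532
    · exact corW_cert (G1 := gB5q1) (G2 := gB3q2) (Ga := gB3q0) (Gb := gB4q0) (D1 := dB5q1) (D2 := dB3q2) (Da := dB3q0) (Db := dB4q0) cB102L_ok B hρ hen (gatB51 x) (gatB32 x) (fun _ => gatB30 x) (fun _ => gatB40 x) (datB51 x) (datB32 x) (fun _ => datB30 x) (fun _ => datB40 x) hd hx hx' CW.B102L_533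
    · exact corW_cert (G1 := gB5q1) (G2 := gB3q2) (Ga := gB4q0) (Gb := gB5q0) (D1 := dB5q1) (D2 := dB3q2) (Da := dB4q0) (Db := dB5q0) cB102L_ok B hρ hen (gatB51 x) (gatB32 x) (fun _ => gatB40 x) (fun h => absurd h (by decide)) (datB51 x) (datB32 x) (fun _ => datB40 x) (fun h => absurd h (by decide)) hd hx hx' CW.B102L_534
    · exact absurd h2 (by norm_num)
    · exact absurd h2 (by norm_num)
  · intro ρ a B hρ hd i h1 h2
    fin_cases i
    · exact corT_cert (G1 := gB5q1) (G2 := gB3q2) (Ga := gB0q0) (Gb := gB1q0) cB102L_ok B hρ (gatB51 x) (gatB32 x) (fun _ => gatB00 x) (fun _ => gatB10 x) hd hx hx' CG.B102L_530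
    · exact corT_cert (G1 := gB5q1) (G2 := gB3q2) (Ga := gB1q0) (Gb := gB2q0) cB102L_ok B hρ (gatB51 x) (gatB32 x) (fun _ => gatB10 x) (fun _ => gatB20 x) hd hx hx' CG.B102L_531
    · exact corT_cert (G1 := gB5q1) (G2 := gB3q2) (Ga := gB2q0) (Gb := gB3q0) cB102L_ok B hρ (gatB51 x) (gatB32 x) (fun _ => gatB20 x) (fun _ => gatB30 x) hd hx hx' CG.B102L_532
    · exact corT_cert (G1 := gB5q1) (G2 := gB3q2) (Ga := gB3q0) (Gb := gB4q0) cB102L_ok B hρ (gatB51 x) (gatB32 x) (fun _ => gatB30 x) (fun _ => gatB40 x) hd hx hx' CG.B102L_533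
    · exact corT_cert (G1 := gB5q1) (G2 := gB3q2) (Ga := gB4q0) (Gb := gB5q0) cB102L_ok B hρ (gatB51 x) (gatB32 x) (fun _ => gatB40 x) (fun h => absurd h (by decide)) hd hx hx' CG.B102L_534
    · exact absurd h2 (by norm_num)
    · exact absurd h2 (by norm_num)

theorem altB_B102L_54 {κ x : ℝ} (hκ : κ * h0 = ken x) (hx : ((697932185 : ℕ) : ℝ) / S ≤ x) (hx' : x ≤ (((697932185 : ℕ) : ℝ) + (42949674 : ℕ)) / S) :
    AltEB 3 κ (eng.v x) (3 / 40) (tnt (h0 * x) (3 / 10)) PP tK tL tC pcB (scP esg pd) [⟨0, 1, 0, 67108864⟩, ⟨1, 0, 0, 67108864⟩, ⟨2, 1, 0, 67108864⟩] 1 0 2 5 4 (sgb true) (sgb true) x := by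
  have X : XR 67108864 x := XR.of hx hx' (by norm_num) (by norm_num) (by norm_num) (by norm_num)
  have hen : 0 < eng.v x := en_pos X.x0.le
  refine CornW.altB (C := cB102L) (j := (5 : Fin 8)) (k := (4 : Fin 8)) (Ef := esg) (pd := pd) (o := 3 / 40)
    (cornW_of (C := cB102L) (C0 := c0B) (En := eng) (mo := mog) (j := (5 : Fin 8)) (k := (4 : Fin 8)) (lo := 0) (hi := 4) (W := 67108864) (N0 := 3) cB102L_q (sideB hx hx') gokB (pinU hx hx') dokB X (by norm_num) (by norm_num) (l := (0 : Fin 8)) rfl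
      (gatB51 x) (gatB42 x) (gatB00 x) (datB51 x) (datB42 x) (datB00 x) ?_)
    (cornS_of (C := cB102L) (C0 := c0B) (j := (5 : Fin 8)) (k := (4 : Fin 8)) (lo := 0) (hi := 4) (W := 67108864) (N0 := 3) cB102L_q (sideB hx hx') gokB X (by norm_num) (by norm_num) (l := (0 : Fin 8)) rfl
      (gatB51 x) (gatB42 x) (gatB00 x) ?_)
    (thU (pinU hx hx')) rfl hκ (fun j q y => tC_eq j q y x) (esg_rng X.x0.le (by linarith [X.b, X.p0])).1 (mo_v x) le_rfl le_rfl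
  · intro ρ a B hρ hd i h1 h2
    fin_cases i
    · exact corW_cert (G1 := gB5q1) (G2 := gB4q2) (Ga := gB0q0) (Gb := gB1q0) (D1 := dB5q1) (D2 := dB4q2) (Da := dB0q0) (Db := dB1q0) cB102L_ok B hρ hen (gatB51 x) (gatB42 x) (fun _ => gatB00 x) (fun _ => gatB10 x) (datB51 x) (datB42 x) (fun _ => datB00 x) (fun _ => datB10 x) hd hx hx' CW.B102L_540
    · exact corW_cert (G1 := gB5q1) (G2 := gB4q2) (Ga := gB1q0) (Gb := gB2q0) (D1 := dB5q1) (D2 := dB4q2) (Da := dB1q0) (Db := dB2q0) cB102L_ok B hρ hen (gatB51 x) (gatB42 x) (fun _ => gatB10 x) (fun _ => gatB20 x) (datB51 x) (datB42 x) (fun _ => datB10 x) (fun _ => datB20 x) hd hx hx' CW.B102L_541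
    · exact corW_cert (G1 := gB5q1) (G2 := gB4q2) (Ga := gB2q0) (Gb := gB3q0) (D1 := dB5q1) (D2 := dB4q2) (Da := dB2q0) (Db := dB3q0) cB102L_ok B hρ hen (gatB51 x) (gatB42 x) (fun _ => gatB20 x) (fun _ => gatB30 x) (datB51 x) (datB42 x) (fun _ => datB20 x) (fun _ => datB30 x) hd hx hx' CW.B102L_542
    · exact corW_cert (G1 := gB5q1) (G2 := gB4q2) (Ga := gB3q0) (Gb := gB4q0) (D1 := dB5q1) (D2 := dB4q2) (Da := dB3q0) (Db := dB4q0) cB102L_ok B hρ hen (gatB51 x) (gatB42 x) (fun _ => gatB30 x) (fun _ => gatB40 x) (datB51 x) (datB42 x) (fun _ => datB30 x) (fun _ => datB40 x) hd hx hx' CW.B102L_543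
    · exact corW_cert (G1 := gB5q1) (G2 := gB4q2) (Ga := gB4q0) (Gb := gB5q0) (D1 := dB5q1) (D2 := dB4q2) (Da := dB4q0) (Db := dB5q0) cB102L_ok B hρ hen (gatB51 x) (gatB42 x) (fun _ => gatB40 x) (fun h => absurd h (by decide)) (datB51 x) (datB42 x) (fun _ => datB40 x) (fun h => absurd h (by decide)) hd hx hx' CW.B102L_544
    · exact absurd h2 (by norm_num)
    · exact absurd h2 (by norm_num)
  · intro ρ a B hρ hd i h1 h2
    fin_cases i
    · exact corT_cert (G1 := gB5q1) (G2 := gB4q2) (Ga := gB0q0) (Gb := gB1q0) cB102L_ok B hρ (gatB51 x) (gatB42 x) (fun _ => gatB00 x) (fun _ => gatB10 x) hd hx hx' CG.B102L_540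
    · exact corT_cert (G1 := gB5q1) (G2 := gB4q2) (Ga := gB1q0) (Gb := gB2q0) cB102L_ok B hρ (gatB51 x) (gatB42 x) (fun _ => gatB10 x) (fun _ => gatB20 x) hd hx hx' CG.B102L_541
    · exact corT_cert (G1 := gB5q1) (G2 := gB4q2) (Ga := gB2q0) (Gb := gB3q0) cB102L_ok B hρ (gatB51 x) (gatB42 x) (fun _ => gatB20 x) (fun _ => gatB30 x) hd hx hx' CG.B102L_542
    · exact corT_cert (G1 := gB5q1) (G2 := gB4q2) (Ga := gB3q0) (Gb := gB4q0) cB102L_ok B hρ (gatB51 x) (gatB42 x) (fun _ => gatB30 x) (fun _ => gatB40 x) hd hx hx' CG.B102L_543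
    · exact corT_cert (G1 := gB5q1) (G2 := gB4q2) (Ga := gB4q0) (Gb := gB5q0) cB102L_ok B hρ (gatB51 x) (gatB42 x) (fun _ => gatB40 x) (fun h => absurd h (by decide)) hd hx hx' CG.B102L_544
    · exact absurd h2 (by norm_num)
    · exact absurd h2 (by norm_num)

theorem altB_B102L_60 {κ x : ℝ} (hκ : κ * h0 = ken x) (hx : ((697932185 : ℕ) : ℝ) / S ≤ x) (hx' : x ≤ (((697932185 : ℕ) : ℝ) + (42949674 : ℕ)) / S) :
    AltEB 3 κ (eng.v x) (3 / 40) (tnt (h0 * x) (3 / 10)) PP tK tL tC pcB (scP esg pd) [⟨0, 1, 0, 67108864⟩, ⟨1, 0, 0, 67108864⟩, ⟨2, 1, 0, 67108864⟩] 1 0 2 6 0 (sgb true) (sgb true) x := by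
  have X : XR 67108864 x := XR.of hx hx' (by norm_num) (by norm_num) (by norm_num) (by norm_num)
  have hen : 0 < eng.v x := en_pos X.x0.le
  refine CornW.altB (C := cB102L) (j := (6 : Fin 8)) (k := (0 : Fin 8)) (Ef := esg) (pd := pd) (o := 3 / 40)
    (cornW_of (C := cB102L) (C0 := c0B) (En := eng) (mo := mog) (j := (6 : Fin 8)) (k := (0 : Fin 8)) (lo := 0) (hi := 4) (W := 67108864) (N0 := 3) cB102L_q (sideB hx hx') gokB (pinU hx hx') dokB X (by norm_num) (by norm_num) (l := (0 : Fin 8)) rfl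
      (gatB61 x) (gatB02 x) (gatB00 x) (datB61 x) (datB02 x) (datB00 x) ?_)
    (cornS_of (C := cB102L) (C0 := c0B) (j := (6 : Fin 8)) (k := (0 : Fin 8)) (lo := 0) (hi := 4) (W := 67108864) (N0 := 3) cB102L_q (sideB hx hx') gokB X (by norm_num) (by norm_num) (l := (0 : Fin 8)) rfl
      (gatB61 x) (gatB02 x) (gatB00 x) ?_)
    (thU (pinU hx hx')) rfl hκ (fun j q y => tC_eq j q y x) (esg_rng X.x0.le (by linarith [X.b, X.p0])).1 (mo_v x) le_rfl le_rfl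
  · intro ρ a B hρ hd i h1 h2
    fin_cases i
    · exact corW_cert (G1 := gB6q1) (G2 := gB0q2) (Ga := gB0q0) (Gb := gB1q0) (D1 := dB6q1) (D2 := dB0q2) (Da := dB0q0) (Db := dB1q0) cB102L_ok B hρ hen (gatB61 x) (gatB02 x) (fun _ => gatB00 x) (fun _ => gatB10 x) (datB61 x) (datB02 x) (fun _ => datB00 x) (fun _ => datB10 x) hd hx hx' CW.B102L_600
    · exact corW_cert (G1 := gB6q1) (G2 := gB0q2) (Ga := gB1q0) (Gb := gB2q0) (D1 := dB6q1) (D2 := dB0q2) (Da := dB1q0) (Db := dB2q0) cB102L_ok B hρ hen (gatB61 x) (gatB02 x) (fun _ => gatB10 x) (fun _ => gatB20 x) (datB61 x) (datB02 x) (fun _ => datB10 x) (fun _ => datB20 x) hd hx hx' CW.B102L_601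
    · exact corW_cert (G1 := gB6q1) (G2 := gB0q2) (Ga := gB2q0) (Gb := gB3q0) (D1 := dB6q1) (D2 := dB0q2) (Da := dB2q0) (Db := dB3q0) cB102L_ok B hρ hen (gatB61 x) (gatB02 x) (fun _ => gatB20 x) (fun _ => gatB30 x) (datB61 x) (datB02 x) (fun _ => datB20 x) (fun _ => datB30 x) hd hx hx' CW.B102L_602
    · exact corW_cert (G1 := gB6q1) (G2 := gB0q2) (Ga := gB3q0) (Gb := gB4q0) (D1 := dB6q1) (D2 := dB0q2) (Da := dB3q0) (Db := dB4q0) cB102L_ok B hρ hen (gatB61 x) (gatB02 x) (fun _ => gatB30 x) (fun _ => gatB40 x) (datB61 x) (datB02 x) (fun _ => datB30 x) (fun _ => datB40 x) hd hx hx' CW.B102L_603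
    · exact corW_cert (G1 := gB6q1) (G2 := gB0q2) (Ga := gB4q0) (Gb := gB5q0) (D1 := dB6q1) (D2 := dB0q2) (Da := dB4q0) (Db := dB5q0) cB102L_ok B hρ hen (gatB61 x) (gatB02 x) (fun _ => gatB40 x) (fun h => absurd h (by decide)) (datB61 x) (datB02 x) (fun _ => datB40 x) (fun h => absurd h (by decide)) hd hx hx' CW.B102L_604
    · exact absurd h2 (by norm_num)
    · exact absurd h2 (by norm_num)
  · intro ρ a B hρ hd i h1 h2
    fin_cases i
    · exact corT_cert (G1 := gB6q1) (G2 := gB0q2) (Ga := gB0q0) (Gb := gB1q0) cB102L_ok B hρ (gatB61 x) (gatB02 x) (fun _ => gatB00 x) (fun _ => gatB10 x) hd hx hx' CG.B102L_600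
    · exact corT_cert (G1 := gB6q1) (G2 := gB0q2) (Ga := gB1q0) (Gb := gB2q0) cB102L_ok B hρ (gatB61 x) (gatB02 x) (fun _ => gatB10 x) (fun _ => gatB20 x) hd hx hx' CG.B102L_601
    · exact corT_cert (G1 := gB6q1) (G2 := gB0q2) (Ga := gB2q0) (Gb := gB3q0) cB102L_ok B hρ (gatB61 x) (gatB02 x) (fun _ => gatB20 x) (fun _ => gatB30 x) hd hx hx' CG.B102L_602
    · exact corT_cert (G1 := gB6q1) (G2 := gB0q2) (Ga := gB3q0) (Gb := gB4q0) cB102L_ok B hρ (gatB61 x) (gatB02 x) (fun _ => gatB30 x) (fun _ => gatB40 x) hd hx hx' CG.B102L_603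
    · exact corT_cert (G1 := gB6q1) (G2 := gB0q2) (Ga := gB4q0) (Gb := gB5q0) cB102L_ok B hρ (gatB61 x) (gatB02 x) (fun _ => gatB40 x) (fun h => absurd h (by decide)) hd hx hx' CG.B102L_604
    · exact absurd h2 (by norm_num)
    · exact absurd h2 (by norm_num)

theorem altB_B102L_61 {κ x : ℝ} (hκ : κ * h0 = ken x) (hx : ((697932185 : ℕ) : ℝ) / S ≤ x) (hx' : x ≤ (((697932185 : ℕ) : ℝ) + (42949674 : ℕ)) / S) :
    AltEB 3 κ (eng.v x) (3 / 40) (tnt (h0 * x) (3 / 10)) PP tK tL tC pcB (scP esg pd) [⟨0, 1, 0, 67108864⟩, ⟨1, 0, 0, 67108864⟩, ⟨2, 1, 0, 67108864⟩] 1 0 2 6 1 (sgb true) (sgb true) x := by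
  have X : XR 67108864 x := XR.of hx hx' (by norm_num) (by norm_num) (by norm_num) (by norm_num)
  have hen : 0 < eng.v x := en_pos X.x0.le
  refine CornW.altB (C := cB102L) (j := (6 : Fin 8)) (k := (1 : Fin 8)) (Ef := esg) (pd := pd) (o := 3 / 40)
    (cornW_of (C := cB102L) (C0 := c0B) (En := eng) (mo := mog) (j := (6 : Fin 8)) (k := (1 : Fin 8)) (lo := 0) (hi := 4) (W := 67108864) (N0 := 3) cB102L_q (sideB hx hx') gokB (pinU hx hx') dokB X (by norm_num) (by norm_num) (l := (0 : Fin 8)) rfl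
      (gatB61 x) (gatB12 x) (gatB00 x) (datB61 x) (datB12 x) (datB00 x) ?_)
    (cornS_of (C := cB102L) (C0 := c0B) (j := (6 : Fin 8)) (k := (1 : Fin 8)) (lo := 0) (hi := 4) (W := 67108864) (N0 := 3) cB102L_q (sideB hx hx') gokB X (by norm_num) (by norm_num) (l := (0 : Fin 8)) rfl
      (gatB61 x) (gatB12 x) (gatB00 x) ?_)
    (thU (pinU hx hx')) rfl hκ (fun j q y => tC_eq j q y x) (esg_rng X.x0.le (by linarith [X.b, X.p0])).1 (mo_v x) le_rfl le_rfl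
  · intro ρ a B hρ hd i h1 h2
    fin_cases i
    · exact corW_cert (G1 := gB6q1) (G2 := gB1q2) (Ga := gB0q0) (Gb := gB1q0) (D1 := dB6q1) (D2 := dB1q2) (Da := dB0q0) (Db := dB1q0) cB102L_ok B hρ hen (gatB61 x) (gatB12 x) (fun _ => gatB00 x) (fun _ => gatB10 x) (datB61 x) (datB12 x) (fun _ => datB00 x) (fun _ => datB10 x) hd hx hx' CW.B102L_610
    · exact corW_cert (G1 := gB6q1) (G2 := gB1q2) (Ga := gB1q0) (Gb := gB2q0) (D1 := dB6q1) (D2 := dB1q2) (Da := dB1q0) (Db := dB2q0) cB102L_ok B hρ hen (gatB61 x) (gatB12 x) (fun _ => gatB10 x) (fun _ => gatB20 x) (datB61 x) (datB12 x) (fun _ => datB10 x) (fun _ => datB20 x) hd hx hx' CW.B102L_611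
    · exact corW_cert (G1 := gB6q1) (G2 := gB1q2) (Ga := gB2q0) (Gb := gB3q0) (D1 := dB6q1) (D2 := dB1q2) (Da := dB2q0) (Db := dB3q0) cB102L_ok B hρ hen (gatB61 x) (gatB12 x) (fun _ => gatB20 x) (fun _ => gatB30 x) (datB61 x) (datB12 x) (fun _ => datB20 x) (fun _ => datB30 x) hd hx hx' CW.B102L_612
    · exact corW_cert (G1 := gB6q1) (G2 := gB1q2) (Ga := gB3q0) (Gb := gB4q0) (D1 := dB6q1) (D2 := dB1q2) (Da := dB3q0) (Db := dB4q0) cB102L_ok B hρ hen (gatB61 x) (gatB12 x) (fun _ => gatB30 x) (fun _ => gatB40 x) (datB61 x) (datB12 x) (fun _ => datB30 x) (fun _ => datB40 x) hd hx hx' CW.B102L_613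
    · exact corW_cert (G1 := gB6q1) (G2 := gB1q2) (Ga := gB4q0) (Gb := gB5q0) (D1 := dB6q1) (D2 := dB1q2) (Da := dB4q0) (Db := dB5q0) cB102L_ok B hρ hen (gatB61 x) (gatB12 x) (fun _ => gatB40 x) (fun h => absurd h (by decide)) (datB61 x) (datB12 x) (fun _ => datB40 x) (fun h => absurd h (by decide)) hd hx hx' CW.B102L_614
    · exact absurd h2 (by norm_num)
    · exact absurd h2 (by norm_num)
  · intro ρ a B hρ hd i h1 h2
    fin_cases i
    · exact corT_cert (G1 := gB6q1) (G2 := gB1q2) (Ga := gB0q0) (Gb := gB1q0) cB102L_ok B hρ (gatB61 x) (gatB12 x) (fun _ => gatB00 x) (fun _ => gatB10 x) hd hx hx' CG.B102L_610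
    · exact corT_cert (G1 := gB6q1) (G2 := gB1q2) (Ga := gB1q0) (Gb := gB2q0) cB102L_ok B hρ (gatB61 x) (gatB12 x) (fun _ => gatB10 x) (fun _ => gatB20 x) hd hx hx' CG.B102L_611
    · exact corT_cert (G1 := gB6q1) (G2 := gB1q2) (Ga := gB2q0) (Gb := gB3q0) cB102L_ok B hρ (gatB61 x) (gatB12 x) (fun _ => gatB20 x) (fun _ => gatB30 x) hd hx hx' CG.B102L_612
    · exact corT_cert (G1 := gB6q1) (G2 := gB1q2) (Ga := gB3q0) (Gb := gB4q0) cB102L_ok B hρ (gatB61 x) (gatB12 x) (fun _ => gatB30 x) (fun _ => gatB40 x) hd hx hx' CG.B102L_613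
    · exact corT_cert (G1 := gB6q1) (G2 := gB1q2) (Ga := gB4q0) (Gb := gB5q0) cB102L_ok B hρ (gatB61 x) (gatB12 x) (fun _ => gatB40 x) (fun h => absurd h (by decide)) hd hx hx' CG.B102L_614
    · exact absurd h2 (by norm_num)
    · exact absurd h2 (by norm_num)

theorem altB_B102L_62 {κ x : ℝ} (hκ : κ * h0 = ken x) (hx : ((697932185 : ℕ) : ℝ) / S ≤ x) (hx' : x ≤ (((697932185 : ℕ) : ℝ) + (42949674 : ℕ)) / S) :
    AltEB 3 κ (eng.v x) (3 / 40) (tnt (h0 * x) (3 / 10)) PP tK tL tC pcB (scP esg pd) [⟨0, 1, 0, 67108864⟩, ⟨1, 0, 0, 67108864⟩, ⟨2, 1, 0, 67108864⟩] 1 0 2 6 2 (sgb true) (sgb true) x := by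
  have X : XR 67108864 x := XR.of hx hx' (by norm_num) (by norm_num) (by norm_num) (by norm_num)
  have hen : 0 < eng.v x := en_pos X.x0.le
  refine CornW.altB (C := cB102L) (j := (6 : Fin 8)) (k := (2 : Fin 8)) (Ef := esg) (pd := pd) (o := 3 / 40)
    (cornW_of (C := cB102L) (C0 := c0B) (En := eng) (mo := mog) (j := (6 : Fin 8)) (k := (2 : Fin 8)) (lo := 0) (hi := 4) (W := 67108864) (N0 := 3) cB102L_q (sideB hx hx') gokB (pinU hx hx') dokB X (by norm_num) (by norm_num) (l := (0 : Fin 8)) rfl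
      (gatB61 x) (gatB22 x) (gatB00 x) (datB61 x) (datB22 x) (datB00 x) ?_)
    (cornS_of (C := cB102L) (C0 := c0B) (j := (6 : Fin 8)) (k := (2 : Fin 8)) (lo := 0) (hi := 4) (W := 67108864) (N0 := 3) cB102L_q (sideB hx hx') gokB X (by norm_num) (by norm_num) (l := (0 : Fin 8)) rfl
      (gatB61 x) (gatB22 x) (gatB00 x) ?_)
    (thU (pinU hx hx')) rfl hκ (fun j q y => tC_eq j q y x) (esg_rng X.x0.le (by linarith [X.b, X.p0])).1 (mo_v x) le_rfl le_rfl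
  · intro ρ a B hρ hd i h1 h2
    fin_cases i
    · exact corW_cert (G1 := gB6q1) (G2 := gB2q2) (Ga := gB0q0) (Gb := gB1q0) (D1 := dB6q1) (D2 := dB2q2) (Da := dB0q0) (Db := dB1q0) cB102L_ok B hρ hen (gatB61 x) (gatB22 x) (fun _ => gatB00 x) (fun _ => gatB10 x) (datB61 x) (datB22 x) (fun _ => datB00 x) (fun _ => datB10 x) hd hx hx' CW.B102L_620
    · exact corW_cert (G1 := gB6q1) (G2 := gB2q2) (Ga := gB1q0) (Gb := gB2q0) (D1 := dB6q1) (D2 := dB2q2) (Da := dB1q0) (Db := dB2q0) cB102L_ok B hρ hen (gatB61 x) (gatB22 x) (fun _ => gatB10 x) (fun _ => gatB20 x) (datB61 x) (datB22 x) (fun _ => datB10 x) (fun _ => datB20 x) hd hx hx' CW.B102L_621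
    · exact corW_cert (G1 := gB6q1) (G2 := gB2q2) (Ga := gB2q0) (Gb := gB3q0) (D1 := dB6q1) (D2 := dB2q2) (Da := dB2q0) (Db := dB3q0) cB102L_ok B hρ hen (gatB61 x) (gatB22 x) (fun _ => gatB20 x) (fun _ => gatB30 x) (datB61 x) (datB22 x) (fun _ => datB20 x) (fun _ => datB30 x) hd hx hx' CW.B102L_622
    · exact corW_cert (G1 := gB6q1) (G2 := gB2q2) (Ga := gB3q0) (Gb := gB4q0) (D1 := dB6q1) (D2 := dB2q2) (Da := dB3q0) (Db := dB4q0) cB102L_ok B hρ hen (gatB61 x) (gatB22 x) (fun _ => gatB30 x) (fun _ => gatB40 x) (datB61 x) (datB22 x) (fun _ => datB30 x) (fun _ => datB40 x) hd hx hx' CW.B102L_623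
    · exact corW_cert (G1 := gB6q1) (G2 := gB2q2) (Ga := gB4q0) (Gb := gB5q0) (D1 := dB6q1) (D2 := dB2q2) (Da := dB4q0) (Db := dB5q0) cB102L_ok B hρ hen (gatB61 x) (gatB22 x) (fun _ => gatB40 x) (fun h => absurd h (by decide)) (datB61 x) (datB22 x) (fun _ => datB40 x) (fun h => absurd h (by decide)) hd hx hx' CW.B102L_624
    · exact absurd h2 (by norm_num)
    · exact absurd h2 (by norm_num)
  · intro ρ a B hρ hd i h1 h2
    fin_cases i
    · exact corT_cert (G1 := gB6q1) (G2 := gB2q2) (Ga := gB0q0) (Gb := gB1q0) cB102L_ok B hρ (gatB61 x) (gatB22 x) (fun _ => gatB00 x) (fun _ => gatB10 x) hd hx hx' CG.B102L_620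
    · exact corT_cert (G1 := gB6q1) (G2 := gB2q2) (Ga := gB1q0) (Gb := gB2q0) cB102L_ok B hρ (gatB61 x) (gatB22 x) (fun _ => gatB10 x) (fun _ => gatB20 x) hd hx hx' CG.B102L_621
    · exact corT_cert (G1 := gB6q1) (G2 := gB2q2) (Ga := gB2q0) (Gb := gB3q0) cB102L_ok B hρ (gatB61 x) (gatB22 x) (fun _ => gatB20 x) (fun _ => gatB30 x) hd hx hx' CG.B102L_622
    · exact corT_cert (G1 := gB6q1) (G2 := gB2q2) (Ga := gB3q0) (Gb := gB4q0) cB102L_ok B hρ (gatB61 x) (gatB22 x) (fun _ => gatB30 x) (fun _ => gatB40 x) hd hx hx' CG.B102L_623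
    · exact corT_cert (G1 := gB6q1) (G2 := gB2q2) (Ga := gB4q0) (Gb := gB5q0) cB102L_ok B hρ (gatB61 x) (gatB22 x) (fun _ => gatB40 x) (fun h => absurd h (by decide)) hd hx hx' CG.B102L_624
    · exact absurd h2 (by norm_num)
    · exact absurd h2 (by norm_num)

theorem altB_B102L_63 {κ x : ℝ} (hκ : κ * h0 = ken x) (hx : ((697932185 : ℕ) : ℝ) / S ≤ x) (hx' : x ≤ (((697932185 : ℕ) : ℝ) + (42949674 : ℕ)) / S) :
    AltEB 3 κ (eng.v x) (3 / 40) (tnt (h0 * x) (3 / 10)) PP tK tL tC pcB (scP esg pd) [⟨0, 1, 0, 67108864⟩, ⟨1, 0, 0, 67108864⟩, ⟨2, 1, 0, 67108864⟩] 1 0 2 6 3 (sgb true) (sgb true) x := by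
  have X : XR 67108864 x := XR.of hx hx' (by norm_num) (by norm_num) (by norm_num) (by norm_num)
  have hen : 0 < eng.v x := en_pos X.x0.le
  refine CornW.altB (C := cB102L) (j := (6 : Fin 8)) (k := (3 : Fin 8)) (Ef := esg) (pd := pd) (o := 3 / 40)
    (cornW_of (C := cB102L) (C0 := c0B) (En := eng) (mo := mog) (j := (6 : Fin 8)) (k := (3 : Fin 8)) (lo := 0) (hi := 4) (W := 67108864) (N0 := 3) cB102L_q (sideB hx hx') gokB (pinU hx hx') dokB X (by norm_num) (by norm_num) (l := (0 : Fin 8)) rfl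
      (gatB61 x) (gatB32 x) (gatB00 x) (datB61 x) (datB32 x) (datB00 x) ?_)
    (cornS_of (C := cB102L) (C0 := c0B) (j := (6 : Fin 8)) (k := (3 : Fin 8)) (lo := 0) (hi := 4) (W := 67108864) (N0 := 3) cB102L_q (sideB hx hx') gokB X (by norm_num) (by norm_num) (l := (0 : Fin 8)) rfl
      (gatB61 x) (gatB32 x) (gatB00 x) ?_)
    (thU (pinU hx hx')) rfl hκ (fun j q y => tC_eq j q y x) (esg_rng X.x0.le (by linarith [X.b, X.p0])).1 (mo_v x) le_rfl le_rfl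
  · intro ρ a B hρ hd i h1 h2
    fin_cases i
    · exact corW_cert (G1 := gB6q1) (G2 := gB3q2) (Ga := gB0q0) (Gb := gB1q0) (D1 := dB6q1) (D2 := dB3q2) (Da := dB0q0) (Db := dB1q0) cB102L_ok B hρ hen (gatB61 x) (gatB32 x) (fun _ => gatB00 x) (fun _ => gatB10 x) (datB61 x) (datB32 x) (fun _ => datB00 x) (fun _ => datB10 x) hd hx hx' CW.B102L_630
    · exact corW_cert (G1 := gB6q1) (G2 := gB3q2) (Ga := gB1q0) (Gb := gB2q0) (D1 := dB6q1) (D2 := dB3q2) (Da := dB1q0) (Db := dB2q0) cB102L_ok B hρ hen (gatB61 x) (gatB32 x) (fun _ => gatB10 x) (fun _ => gatB20 x) (datB61 x) (datB32 x) (fun _ => datB10 x) (fun _ => datB20 x) hd hx hx' CW.B102L_631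
    · exact corW_cert (G1 := gB6q1) (G2 := gB3q2) (Ga := gB2q0) (Gb := gB3q0) (D1 := dB6q1) (D2 := dB3q2) (Da := dB2q0) (Db := dB3q0) cB102L_ok B hρ hen (gatB61 x) (gatB32 x) (fun _ => gatB20 x) (fun _ => gatB30 x) (datB61 x) (datB32 x) (fun _ => datB20 x) (fun _ => datB30 x) hd hx hx' CW.B102L_632
    · exact corW_cert (G1 := gB6q1) (G2 := gB3q2) (Ga := gB3q0) (Gb := gB4q0) (D1 := dB6q1) (D2 := dB3q2) (Da := dB3q0) (Db := dB4q0) cB102L_ok B hρ hen (gatB61 x) (gatB32 x) (fun _ => gatB30 x) (fun _ => gatB40 x) (datB61 x) (datB32 x) (fun _ => datB30 x) (fun _ => datB40 x) hd hx hx' CW.B102L_633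
    · exact corW_cert (G1 := gB6q1) (G2 := gB3q2) (Ga := gB4q0) (Gb := gB5q0) (D1 := dB6q1) (D2 := dB3q2) (Da := dB4q0) (Db := dB5q0) cB102L_ok B hρ hen (gatB61 x) (gatB32 x) (fun _ => gatB40 x) (fun h => absurd h (by decide)) (datB61 x) (datB32 x) (fun _ => datB40 x) (fun h => absurd h (by decide)) hd hx hx' CW.B102L_634
    · exact absurd h2 (by norm_num)
    · exact absurd h2 (by norm_num)
  · intro ρ a B hρ hd i h1 h2
    fin_cases i
    · exact corT_cert (G1 := gB6q1) (G2 := gB3q2) (Ga := gB0q0) (Gb := gB1q0) cB102L_ok B hρ (gatB61 x) (gatB32 x) (fun _ => gatB00 x) (fun _ => gatB10 x) hd hx hx' CG.B102L_630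
    · exact corT_cert (G1 := gB6q1) (G2 := gB3q2) (Ga := gB1q0) (Gb := gB2q0) cB102L_ok B hρ (gatB61 x) (gatB32 x) (fun _ => gatB10 x) (fun _ => gatB20 x) hd hx hx' CG.B102L_631
    · exact corT_cert (G1 := gB6q1) (G2 := gB3q2) (Ga := gB2q0) (Gb := gB3q0) cB102L_ok B hρ (gatB61 x) (gatB32 x) (fun _ => gatB20 x) (fun _ => gatB30 x) hd hx hx' CG.B102L_632
    · exact corT_cert (G1 := gB6q1) (G2 := gB3q2) (Ga := gB3q0) (Gb := gB4q0) cB102L_ok B hρ (gatB61 x) (gatB32 x) (fun _ => gatB30 x) (fun _ => gatB40 x) hd hx hx' CG.B102L_633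
    · exact corT_cert (G1 := gB6q1) (G2 := gB3q2) (Ga := gB4q0) (Gb := gB5q0) cB102L_ok B hρ (gatB61 x) (gatB32 x) (fun _ => gatB40 x) (fun h => absurd h (by decide)) hd hx hx' CG.B102L_634
    · exact absurd h2 (by norm_num)
    · exact absurd h2 (by norm_num)

theorem altB_B102L_64 {κ x : ℝ} (hκ : κ * h0 = ken x) (hx : ((697932185 : ℕ) : ℝ) / S ≤ x) (hx' : x ≤ (((697932185 : ℕ) : ℝ) + (42949674 : ℕ)) / S) :
    AltEB 3 κ (eng.v x) (3 / 40) (tnt (h0 * x) (3 / 10)) PP tK tL tC pcB (scP esg pd) [⟨0, 1, 0, 67108864⟩, ⟨1, 0, 0, 67108864⟩, ⟨2, 1, 0, 67108864⟩] 1 0 2 6 4 (sgb true) (sgb true) x := by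
  have X : XR 67108864 x := XR.of hx hx' (by norm_num) (by norm_num) (by norm_num) (by norm_num)
  have hen : 0 < eng.v x := en_pos X.x0.le
  refine CornW.altB (C := cB102L) (j := (6 : Fin 8)) (k := (4 : Fin 8)) (Ef := esg) (pd := pd) (o := 3 / 40)
    (cornW_of (C := cB102L) (C0 := c0B) (En := eng) (mo := mog) (j := (6 : Fin 8)) (k := (4 : Fin 8)) (lo := 0) (hi := 4) (W := 67108864) (N0 := 3) cB102L_q (sideB hx hx') gokB (pinU hx hx') dokB X (by norm_num) (by norm_num) (l := (0 : Fin 8)) rfl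
      (gatB61 x) (gatB42 x) (gatB00 x) (datB61 x) (datB42 x) (datB00 x) ?_)
    (cornS_of (C := cB102L) (C0 := c0B) (j := (6 : Fin 8)) (k := (4 : Fin 8)) (lo := 0) (hi := 4) (W := 67108864) (N0 := 3) cB102L_q (sideB hx hx') gokB X (by norm_num) (by norm_num) (l := (0 : Fin 8)) rfl
      (gatB61 x) (gatB42 x) (gatB00 x) ?_)
    (thU (pinU hx hx')) rfl hκ (fun j q y => tC_eq j q y x) (esg_rng X.x0.le (by linarith [X.b, X.p0])).1 (mo_v x) le_rfl le_rfl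
  · intro ρ a B hρ hd i h1 h2
    fin_cases i
    · exact corW_cert (G1 := gB6q1) (G2 := gB4q2) (Ga := gB0q0) (Gb := gB1q0) (D1 := dB6q1) (D2 := dB4q2) (Da := dB0q0) (Db := dB1q0) cB102L_ok B hρ hen (gatB61 x) (gatB42 x) (fun _ => gatB00 x) (fun _ => gatB10 x) (datB61 x) (datB42 x) (fun _ => datB00 x) (fun _ => datB10 x) hd hx hx' CW.B102L_640
    · exact corW_cert (G1 := gB6q1) (G2 := gB4q2) (Ga := gB1q0) (Gb := gB2q0) (D1 := dB6q1) (D2 := dB4q2) (Da := dB1q0) (Db := dB2q0) cB102L_ok B hρ hen (gatB61 x) (gatB42 x) (fun _ => gatB10 x) (fun _ => gatB20 x) (datB61 x) (datB42 x) (fun _ => datB10 x) (fun _ => datB20 x) hd hx hx' CW.B102L_641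
    · exact corW_cert (G1 := gB6q1) (G2 := gB4q2) (Ga := gB2q0) (Gb := gB3q0) (D1 := dB6q1) (D2 := dB4q2) (Da := dB2q0) (Db := dB3q0) cB102L_ok B hρ hen (gatB61 x) (gatB42 x) (fun _ => gatB20 x) (fun _ => gatB30 x) (datB61 x) (datB42 x) (fun _ => datB20 x) (fun _ => datB30 x) hd hx hx' CW.B102L_642
    · exact corW_cert (G1 := gB6q1) (G2 := gB4q2) (Ga := gB3q0) (Gb := gB4q0) (D1 := dB6q1) (D2 := dB4q2) (Da := dB3q0) (Db := dB4q0) cB102L_ok B hρ hen (gatB61 x) (gatB42 x) (fun _ => gatB30 x) (fun _ => gatB40 x) (datB61 x) (datB42 x) (fun _ => datB30 x) (fun _ => datB40 x) hd hx hx' CW.B102L_643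
    · exact corW_cert (G1 := gB6q1) (G2 := gB4q2) (Ga := gB4q0) (Gb := gB5q0) (D1 := dB6q1) (D2 := dB4q2) (Da := dB4q0) (Db := dB5q0) cB102L_ok B hρ hen (gatB61 x) (gatB42 x) (fun _ => gatB40 x) (fun h => absurd h (by decide)) (datB61 x) (datB42 x) (fun _ => datB40 x) (fun h => absurd h (by decide)) hd hx hx' CW.B102L_644
    · exact absurd h2 (by norm_num)
    · exact absurd h2 (by norm_num)
  · intro ρ a B hρ hd i h1 h2
    fin_cases i
    · exact corT_cert (G1 := gB6q1) (G2 := gB4q2) (Ga := gB0q0) (Gb := gB1q0) cB102L_ok B hρ (gatB61 x) (gatB42 x) (fun _ => gatB00 x) (fun _ => gatB10 x) hd hx hx' CG.B102L_640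
    · exact corT_cert (G1 := gB6q1) (G2 := gB4q2) (Ga := gB1q0) (Gb := gB2q0) cB102L_ok B hρ (gatB61 x) (gatB42 x) (fun _ => gatB10 x) (fun _ => gatB20 x) hd hx hx' CG.B102L_641
    · exact corT_cert (G1 := gB6q1) (G2 := gB4q2) (Ga := gB2q0) (Gb := gB3q0) cB102L_ok B hρ (gatB61 x) (gatB42 x) (fun _ => gatB20 x) (fun _ => gatB30 x) hd hx hx' CG.B102L_642
    · exact corT_cert (G1 := gB6q1) (G2 := gB4q2) (Ga := gB3q0) (Gb := gB4q0) cB102L_ok B hρ (gatB61 x) (gatB42 x) (fun _ => gatB30 x) (fun _ => gatB40 x) hd hx hx' CG.B102L_643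
    · exact corT_cert (G1 := gB6q1) (G2 := gB4q2) (Ga := gB4q0) (Gb := gB5q0) cB102L_ok B hρ (gatB61 x) (gatB42 x) (fun _ => gatB40 x) (fun h => absurd h (by decide)) hd hx hx' CG.B102L_644
    · exact absurd h2 (by norm_num)
    · exact absurd h2 (by norm_num)

theorem altB_B102L_70 {κ x : ℝ} (hκ : κ * h0 = ken x) (hx : ((697932185 : ℕ) : ℝ) / S ≤ x) (hx' : x ≤ (((697932185 : ℕ) : ℝ) + (42949674 : ℕ)) / S) :
    AltEB 3 κ (eng.v x) (3 / 40) (tnt (h0 * x) (3 / 10)) PP tK tL tC pcB (scP esg pd) [⟨0, 1, 0, 67108864⟩, ⟨1, 0, 0, 67108864⟩, ⟨2, 1, 0, 67108864⟩] 1 0 2 7 0 (sgb true) (sgb true) x := by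
  have X : XR 67108864 x := XR.of hx hx' (by norm_num) (by norm_num) (by norm_num) (by norm_num)
  have hen : 0 < eng.v x := en_pos X.x0.le
  refine CornW.altB (C := cB102L) (j := (7 : Fin 8)) (k := (0 : Fin 8)) (Ef := esg) (pd := pd) (o := 3 / 40)
    (cornW_of (C := cB102L) (C0 := c0B) (En := eng) (mo := mog) (j := (7 : Fin 8)) (k := (0 : Fin 8)) (lo := 0) (hi := 4) (W := 67108864) (N0 := 3) cB102L_q (sideB hx hx') gokB (pinU hx hx') dokB X (by norm_num) (by norm_num) (l := (0 : Fin 8)) rfl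
      (gatB71 x) (gatB02 x) (gatB00 x) (datB71 x) (datB02 x) (datB00 x) ?_)
    (cornS_of (C := cB102L) (C0 := c0B) (j := (7 : Fin 8)) (k := (0 : Fin 8)) (lo := 0) (hi := 4) (W := 67108864) (N0 := 3) cB102L_q (sideB hx hx') gokB X (by norm_num) (by norm_num) (l := (0 : Fin 8)) rfl
      (gatB71 x) (gatB02 x) (gatB00 x) ?_)
    (thU (pinU hx hx')) rfl hκ (fun j q y => tC_eq j q y x) (esg_rng X.x0.le (by linarith [X.b, X.p0])).1 (mo_v x) le_rfl le_rfl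
  · intro ρ a B hρ hd i h1 h2
    fin_cases i
    · exact corW_cert (G1 := gB7q1) (G2 := gB0q2) (Ga := gB0q0) (Gb := gB1q0) (D1 := dB7q1) (D2 := dB0q2) (Da := dB0q0) (Db := dB1q0) cB102L_ok B hρ hen (gatB71 x) (gatB02 x) (fun _ => gatB00 x) (fun _ => gatB10 x) (datB71 x) (datB02 x) (fun _ => datB00 x) (fun _ => datB10 x) hd hx hx' CW.B102L_700
    · exact corW_cert (G1 := gB7q1) (G2 := gB0q2) (Ga := gB1q0) (Gb := gB2q0) (D1 := dB7q1) (D2 := dB0q2) (Da := dB1q0) (Db := dB2q0) cB102L_ok B hρ hen (gatB71 x) (gatB02 x) (fun _ => gatB10 x) (fun _ => gatB20 x) (datB71 x) (datB02 x) (fun _ => datB10 x) (fun _ => datB20 x) hd hx hx' CW.B102L_701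
    · exact corW_cert (G1 := gB7q1) (G2 := gB0q2) (Ga := gB2q0) (Gb := gB3q0) (D1 := dB7q1) (D2 := dB0q2) (Da := dB2q0) (Db := dB3q0) cB102L_ok B hρ hen (gatB71 x) (gatB02 x) (fun _ => gatB20 x) (fun _ => gatB30 x) (datB71 x) (datB02 x) (fun _ => datB20 x) (fun _ => datB30 x) hd hx hx' CW.B102L_702
    · exact corW_cert (G1 := gB7q1) (G2 := gB0q2) (Ga := gB3q0) (Gb := gB4q0) (D1 := dB7q1) (D2 := dB0q2) (Da := dB3q0) (Db := dB4q0) cB102L_ok B hρ hen (gatB71 x) (gatB02 x) (fun _ => gatB30 x) (fun _ => gatB40 x) (datB71 x) (datB02 x) (fun _ => datB30 x) (fun _ => datB40 x) hd hx hx' CW.B102L_703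
    · exact corW_cert (G1 := gB7q1) (G2 := gB0q2) (Ga := gB4q0) (Gb := gB5q0) (D1 := dB7q1) (D2 := dB0q2) (Da := dB4q0) (Db := dB5q0) cB102L_ok B hρ hen (gatB71 x) (gatB02 x) (fun _ => gatB40 x) (fun h => absurd h (by decide)) (datB71 x) (datB02 x) (fun _ => datB40 x) (fun h => absurd h (by decide)) hd hx hx' CW.B102L_704
    · exact absurd h2 (by norm_num)
    · exact absurd h2 (by norm_num)
  · intro ρ a B hρ hd i h1 h2
    fin_cases i
    · exact corT_cert (G1 := gB7q1) (G2 := gB0q2) (Ga := gB0q0) (Gb := gB1q0) cB102L_ok B hρ (gatB71 x) (gatB02 x) (fun _ => gatB00 x) (fun _ => gatB10 x) hd hx hx' CG.B102L_700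
    · exact corT_cert (G1 := gB7q1) (G2 := gB0q2) (Ga := gB1q0) (Gb := gB2q0) cB102L_ok B hρ (gatB71 x) (gatB02 x) (fun _ => gatB10 x) (fun _ => gatB20 x) hd hx hx' CG.B102L_701
    · exact corT_cert (G1 := gB7q1) (G2 := gB0q2) (Ga := gB2q0) (Gb := gB3q0) cB102L_ok B hρ (gatB71 x) (gatB02 x) (fun _ => gatB20 x) (fun _ => gatB30 x) hd hx hx' CG.B102L_702
    · exact corT_cert (G1 := gB7q1) (G2 := gB0q2) (Ga := gB3q0) (Gb := gB4q0) cB102L_ok B hρ (gatB71 x) (gatB02 x) (fun _ => gatB30 x) (fun _ => gatB40 x) hd hx hx' CG.B102L_703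
    · exact corT_cert (G1 := gB7q1) (G2 := gB0q2) (Ga := gB4q0) (Gb := gB5q0) cB102L_ok B hρ (gatB71 x) (gatB02 x) (fun _ => gatB40 x) (fun h => absurd h (by decide)) hd hx hx' CG.B102L_704
    · exact absurd h2 (by norm_num)
    · exact absurd h2 (by norm_num)

theorem altB_B102L_71 {κ x : ℝ} (hκ : κ * h0 = ken x) (hx : ((697932185 : ℕ) : ℝ) / S ≤ x) (hx' : x ≤ (((697932185 : ℕ) : ℝ) + (42949674 : ℕ)) / S) :
    AltEB 3 κ (eng.v x) (3 / 40) (tnt (h0 * x) (3 / 10)) PP tK tL tC pcB (scP esg pd) [⟨0, 1, 0, 67108864⟩, ⟨1, 0, 0, 67108864⟩, ⟨2, 1, 0, 67108864⟩] 1 0 2 7 1 (sgb true) (sgb true) x := by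
  have X : XR 67108864 x := XR.of hx hx' (by norm_num) (by norm_num) (by norm_num) (by norm_num)
  have hen : 0 < eng.v x := en_pos X.x0.le
  refine CornW.altB (C := cB102L) (j := (7 : Fin 8)) (k := (1 : Fin 8)) (Ef := esg) (pd := pd) (o := 3 / 40)
    (cornW_of (C := cB102L) (C0 := c0B) (En := eng) (mo := mog) (j := (7 : Fin 8)) (k := (1 : Fin 8)) (lo := 0) (hi := 4) (W := 67108864) (N0 := 3) cB102L_q (sideB hx hx') gokB (pinU hx hx') dokB X (by norm_num) (by norm_num) (l := (0 : Fin 8)) rfl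
      (gatB71 x) (gatB12 x) (gatB00 x) (datB71 x) (datB12 x) (datB00 x) ?_)
    (cornS_of (C := cB102L) (C0 := c0B) (j := (7 : Fin 8)) (k := (1 : Fin 8)) (lo := 0) (hi := 4) (W := 67108864) (N0 := 3) cB102L_q (sideB hx hx') gokB X (by norm_num) (by norm_num) (l := (0 : Fin 8)) rfl
      (gatB71 x) (gatB12 x) (gatB00 x) ?_)
    (thU (pinU hx hx')) rfl hκ (fun j q y => tC_eq j q y x) (esg_rng X.x0.le (by linarith [X.b, X.p0])).1 (mo_v x) le_rfl le_rfl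
  · intro ρ a B hρ hd i h1 h2
    fin_cases i
    · exact corW_cert (G1 := gB7q1) (G2 := gB1q2) (Ga := gB0q0) (Gb := gB1q0) (D1 := dB7q1) (D2 := dB1q2) (Da := dB0q0) (Db := dB1q0) cB102L_ok B hρ hen (gatB71 x) (gatB12 x) (fun _ => gatB00 x) (fun _ => gatB10 x) (datB71 x) (datB12 x) (fun _ => datB00 x) (fun _ => datB10 x) hd hx hx' CW.B102L_710
    · exact corW_cert (G1 := gB7q1) (G2 := gB1q2) (Ga := gB1q0) (Gb := gB2q0) (D1 := dB7q1) (D2 := dB1q2) (Da := dB1q0) (Db := dB2q0) cB102L_ok B hρ hen (gatB71 x) (gatB12 x) (fun _ => gatB10 x) (fun _ => gatB20 x) (datB71 x) (datB12 x) (fun _ => datB10 x) (fun _ => datB20 x) hd hx hx' CW.B102L_711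
    · exact corW_cert (G1 := gB7q1) (G2 := gB1q2) (Ga := gB2q0) (Gb := gB3q0) (D1 := dB7q1) (D2 := dB1q2) (Da := dB2q0) (Db := dB3q0) cB102L_ok B hρ hen (gatB71 x) (gatB12 x) (fun _ => gatB20 x) (fun _ => gatB30 x) (datB71 x) (datB12 x) (fun _ => datB20 x) (fun _ => datB30 x) hd hx hx' CW.B102L_712
    · exact corW_cert (G1 := gB7q1) (G2 := gB1q2) (Ga := gB3q0) (Gb := gB4q0) (D1 := dB7q1) (D2 := dB1q2) (Da := dB3q0) (Db := dB4q0) cB102L_ok B hρ hen (gatB71 x) (gatB12 x) (fun _ => gatB30 x) (fun _ => gatB40 x) (datB71 x) (datB12 x) (fun _ => datB30 x) (fun _ => datB40 x) hd hx hx' CW.B102L_713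
    · exact corW_cert (G1 := gB7q1) (G2 := gB1q2) (Ga := gB4q0) (Gb := gB5q0) (D1 := dB7q1) (D2 := dB1q2) (Da := dB4q0) (Db := dB5q0) cB102L_ok B hρ hen (gatB71 x) (gatB12 x) (fun _ => gatB40 x) (fun h => absurd h (by decide)) (datB71 x) (datB12 x) (fun _ => datB40 x) (fun h => absurd h (by decide)) hd hx hx' CW.B102L_714
    · exact absurd h2 (by norm_num)
    · exact absurd h2 (by norm_num)
  · intro ρ a B hρ hd i h1 h2
    fin_cases i
    · exact corT_cert (G1 := gB7q1) (G2 := gB1q2) (Ga := gB0q0) (Gb := gB1q0) cB102L_ok B hρ (gatB71 x) (gatB12 x) (fun _ => gatB00 x) (fun _ => gatB10 x) hd hx hx' CG.B102L_710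
    · exact corT_cert (G1 := gB7q1) (G2 := gB1q2) (Ga := gB1q0) (Gb := gB2q0) cB102L_ok B hρ (gatB71 x) (gatB12 x) (fun _ => gatB10 x) (fun _ => gatB20 x) hd hx hx' CG.B102L_711
    · exact corT_cert (G1 := gB7q1) (G2 := gB1q2) (Ga := gB2q0) (Gb := gB3q0) cB102L_ok B hρ (gatB71 x) (gatB12 x) (fun _ => gatB20 x) (fun _ => gatB30 x) hd hx hx' CG.B102L_712
    · exact corT_cert (G1 := gB7q1) (G2 := gB1q2) (Ga := gB3q0) (Gb := gB4q0) cB102L_ok B hρ (gatB71 x) (gatB12 x) (fun _ => gatB30 x) (fun _ => gatB40 x) hd hx hx' CG.B102L_713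
    · exact corT_cert (G1 := gB7q1) (G2 := gB1q2) (Ga := gB4q0) (Gb := gB5q0) cB102L_ok B hρ (gatB71 x) (gatB12 x) (fun _ => gatB40 x) (fun h => absurd h (by decide)) hd hx hx' CG.B102L_714
    · exact absurd h2 (by norm_num)
    · exact absurd h2 (by norm_num)

theorem altB_B102L_72 {κ x : ℝ} (hκ : κ * h0 = ken x) (hx : ((697932185 : ℕ) : ℝ) / S ≤ x) (hx' : x ≤ (((697932185 : ℕ) : ℝ) + (42949674 : ℕ)) / S) :
    AltEB 3 κ (eng.v x) (3 / 40) (tnt (h0 * x) (3 / 10)) PP tK tL tC pcB (scP esg pd) [⟨0, 1, 0, 67108864⟩, ⟨1, 0, 0, 67108864⟩, ⟨2, 1, 0, 67108864⟩] 1 0 2 7 2 (sgb true) (sgb true) x := by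
  have X : XR 67108864 x := XR.of hx hx' (by norm_num) (by norm_num) (by norm_num) (by norm_num)
  have hen : 0 < eng.v x := en_pos X.x0.le
  refine CornW.altB (C := cB102L) (j := (7 : Fin 8)) (k := (2 : Fin 8)) (Ef := esg) (pd := pd) (o := 3 / 40)
    (cornW_of (C := cB102L) (C0 := c0B) (En := eng) (mo := mog) (j := (7 : Fin 8)) (k := (2 : Fin 8)) (lo := 0) (hi := 4) (W := 67108864) (N0 := 3) cB102L_q (sideB hx hx') gokB (pinU hx hx') dokB X (by norm_num) (by norm_num) (l := (0 : Fin 8)) rfl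
      (gatB71 x) (gatB22 x) (gatB00 x) (datB71 x) (datB22 x) (datB00 x) ?_)
    (cornS_of (C := cB102L) (C0 := c0B) (j := (7 : Fin 8)) (k := (2 : Fin 8)) (lo := 0) (hi := 4) (W := 67108864) (N0 := 3) cB102L_q (sideB hx hx') gokB X (by norm_num) (by norm_num) (l := (0 : Fin 8)) rfl
      (gatB71 x) (gatB22 x) (gatB00 x) ?_)
    (thU (pinU hx hx')) rfl hκ (fun j q y => tC_eq j q y x) (esg_rng X.x0.le (by linarith [X.b, X.p0])).1 (mo_v x) le_rfl le_rfl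
  · intro ρ a B hρ hd i h1 h2
    fin_cases i
    · exact corW_cert (G1 := gB7q1) (G2 := gB2q2) (Ga := gB0q0) (Gb := gB1q0) (D1 := dB7q1) (D2 := dB2q2) (Da := dB0q0) (Db := dB1q0) cB102L_ok B hρ hen (gatB71 x) (gatB22 x) (fun _ => gatB00 x) (fun _ => gatB10 x) (datB71 x) (datB22 x) (fun _ => datB00 x) (fun _ => datB10 x) hd hx hx' CW.B102L_720
    · exact corW_cert (G1 := gB7q1) (G2 := gB2q2) (Ga := gB1q0) (Gb := gB2q0) (D1 := dB7q1) (D2 := dB2q2) (Da := dB1q0) (Db := dB2q0) cB102L_ok B hρ hen (gatB71 x) (gatB22 x) (fun _ => gatB10 x) (fun _ => gatB20 x) (datB71 x) (datB22 x) (fun _ => datB10 x) (fun _ => datB20 x) hd hx hx' CW.B102L_721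
    · exact corW_cert (G1 := gB7q1) (G2 := gB2q2) (Ga := gB2q0) (Gb := gB3q0) (D1 := dB7q1) (D2 := dB2q2) (Da := dB2q0) (Db := dB3q0) cB102L_ok B hρ hen (gatB71 x) (gatB22 x) (fun _ => gatB20 x) (fun _ => gatB30 x) (datB71 x) (datB22 x) (fun _ => datB20 x) (fun _ => datB30 x) hd hx hx' CW.B102L_722
    · exact corW_cert (G1 := gB7q1) (G2 := gB2q2) (Ga := gB3q0) (Gb := gB4q0) (D1 := dB7q1) (D2 := dB2q2) (Da := dB3q0) (Db := dB4q0) cB102L_ok B hρ hen (gatB71 x) (gatB22 x) (fun _ => gatB30 x) (fun _ => gatB40 x) (datB71 x) (datB22 x) (fun _ => datB30 x) (fun _ => datB40 x) hd hx hx' CW.B102L_723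
    · exact corW_cert (G1 := gB7q1) (G2 := gB2q2) (Ga := gB4q0) (Gb := gB5q0) (D1 := dB7q1) (D2 := dB2q2) (Da := dB4q0) (Db := dB5q0) cB102L_ok B hρ hen (gatB71 x) (gatB22 x) (fun _ => gatB40 x) (fun h => absurd h (by decide)) (datB71 x) (datB22 x) (fun _ => datB40 x) (fun h => absurd h (by decide)) hd hx hx' CW.B102L_724
    · exact absurd h2 (by norm_num)
    · exact absurd h2 (by norm_num)
  · intro ρ a B hρ hd i h1 h2
    fin_cases i
    · exact corT_cert (G1 := gB7q1) (G2 := gB2q2) (Ga := gB0q0) (Gb := gB1q0) cB102L_ok B hρ (gatB71 x) (gatB22 x) (fun _ => gatB00 x) (fun _ => gatB10 x) hd hx hx' CG.B102L_720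
    · exact corT_cert (G1 := gB7q1) (G2 := gB2q2) (Ga := gB1q0) (Gb := gB2q0) cB102L_ok B hρ (gatB71 x) (gatB22 x) (fun _ => gatB10 x) (fun _ => gatB20 x) hd hx hx' CG.B102L_721
    · exact corT_cert (G1 := gB7q1) (G2 := gB2q2) (Ga := gB2q0) (Gb := gB3q0) cB102L_ok B hρ (gatB71 x) (gatB22 x) (fun _ => gatB20 x) (fun _ => gatB30 x) hd hx hx' CG.B102L_722
    · exact corT_cert (G1 := gB7q1) (G2 := gB2q2) (Ga := gB3q0) (Gb := gB4q0) cB102L_ok B hρ (gatB71 x) (gatB22 x) (fun _ => gatB30 x) (fun _ => gatB40 x) hd hx hx' CG.B102L_723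
    · exact corT_cert (G1 := gB7q1) (G2 := gB2q2) (Ga := gB4q0) (Gb := gB5q0) cB102L_ok B hρ (gatB71 x) (gatB22 x) (fun _ => gatB40 x) (fun h => absurd h (by decide)) hd hx hx' CG.B102L_724
    · exact absurd h2 (by norm_num)
    · exact absurd h2 (by norm_num)

theorem altB_B102L_73 {κ x : ℝ} (hκ : κ * h0 = ken x) (hx : ((697932185 : ℕ) : ℝ) / S ≤ x) (hx' : x ≤ (((697932185 : ℕ) : ℝ) + (42949674 : ℕ)) / S) :
    AltEB 3 κ (eng.v x) (3 / 40) (tnt (h0 * x) (3 / 10)) PP tK tL tC pcB (scP esg pd) [⟨0, 1, 0, 67108864⟩, ⟨1, 0, 0, 67108864⟩, ⟨2, 1, 0, 67108864⟩] 1 0 2 7 3 (sgb true) (sgb true) x := by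
  have X : XR 67108864 x := XR.of hx hx' (by norm_num) (by norm_num) (by norm_num) (by norm_num)
  have hen : 0 < eng.v x := en_pos X.x0.le
  refine CornW.altB (C := cB102L) (j := (7 : Fin 8)) (k := (3 : Fin 8)) (Ef := esg) (pd := pd) (o := 3 / 40)
    (cornW_of (C := cB102L) (C0 := c0B) (En := eng) (mo := mog) (j := (7 : Fin 8)) (k := (3 : Fin 8)) (lo := 0) (hi := 4) (W := 67108864) (N0 := 3) cB102L_q (sideB hx hx') gokB (pinU hx hx') dokB X (by norm_num) (by norm_num) (l := (0 : Fin 8)) rfl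
      (gatB71 x) (gatB32 x) (gatB00 x) (datB71 x) (datB32 x) (datB00 x) ?_)
    (cornS_of (C := cB102L) (C0 := c0B) (j := (7 : Fin 8)) (k := (3 : Fin 8)) (lo := 0) (hi := 4) (W := 67108864) (N0 := 3) cB102L_q (sideB hx hx') gokB X (by norm_num) (by norm_num) (l := (0 : Fin 8)) rfl
      (gatB71 x) (gatB32 x) (gatB00 x) ?_)
    (thU (pinU hx hx')) rfl hκ (fun j q y => tC_eq j q y x) (esg_rng X.x0.le (by linarith [X.b, X.p0])).1 (mo_v x) le_rfl le_rfl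
  · intro ρ a B hρ hd i h1 h2
    fin_cases i
    · exact corW_cert (G1 := gB7q1) (G2 := gB3q2) (Ga := gB0q0) (Gb := gB1q0) (D1 := dB7q1) (D2 := dB3q2) (Da := dB0q0) (Db := dB1q0) cB102L_ok B hρ hen (gatB71 x) (gatB32 x) (fun _ => gatB00 x) (fun _ => gatB10 x) (datB71 x) (datB32 x) (fun _ => datB00 x) (fun _ => datB10 x) hd hx hx' CW.B102L_730
    · exact corW_cert (G1 := gB7q1) (G2 := gB3q2) (Ga := gB1q0) (Gb := gB2q0) (D1 := dB7q1) (D2 := dB3q2) (Da := dB1q0) (Db := dB2q0) cB102L_ok B hρ hen (gatB71 x) (gatB32 x) (fun _ => gatB10 x) (fun _ => gatB20 x) (datB71 x) (datB32 x) (fun _ => datB10 x) (fun _ => datB20 x) hd hx hx' CW.B102L_731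
    · exact corW_cert (G1 := gB7q1) (G2 := gB3q2) (Ga := gB2q0) (Gb := gB3q0) (D1 := dB7q1) (D2 := dB3q2) (Da := dB2q0) (Db := dB3q0) cB102L_ok B hρ hen (gatB71 x) (gatB32 x) (fun _ => gatB20 x) (fun _ => gatB30 x) (datB71 x) (datB32 x) (fun _ => datB20 x) (fun _ => datB30 x) hd hx hx' CW.B102L_732
    · exact corW_cert (G1 := gB7q1) (G2 := gB3q2) (Ga := gB3q0) (Gb := gB4q0) (D1 := dB7q1) (D2 := dB3q2) (Da := dB3q0) (Db := dB4q0) cB102L_ok B hρ hen (gatB71 x) (gatB32 x) (fun _ => gatB30 x) (fun _ => gatB40 x) (datB71 x) (datB32 x) (fun _ => datB30 x) (fun _ => datB40 x) hd hx hx' CW.B102L_733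
    · exact corW_cert (G1 := gB7q1) (G2 := gB3q2) (Ga := gB4q0) (Gb := gB5q0) (D1 := dB7q1) (D2 := dB3q2) (Da := dB4q0) (Db := dB5q0) cB102L_ok B hρ hen (gatB71 x) (gatB32 x) (fun _ => gatB40 x) (fun h => absurd h (by decide)) (datB71 x) (datB32 x) (fun _ => datB40 x) (fun h => absurd h (by decide)) hd hx hx' CW.B102L_734
    · exact absurd h2 (by norm_num)
    · exact absurd h2 (by norm_num)
  · intro ρ a B hρ hd i h1 h2
    fin_cases i
    · exact corT_cert (G1 := gB7q1) (G2 := gB3q2) (Ga := gB0q0) (Gb := gB1q0) cB102L_ok B hρ (gatB71 x) (gatB32 x) (fun _ => gatB00 x) (fun _ => gatB10 x) hd hx hx' CG.B102L_730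
    · exact corT_cert (G1 := gB7q1) (G2 := gB3q2) (Ga := gB1q0) (Gb := gB2q0) cB102L_ok B hρ (gatB71 x) (gatB32 x) (fun _ => gatB10 x) (fun _ => gatB20 x) hd hx hx' CG.B102L_731
    · exact corT_cert (G1 := gB7q1) (G2 := gB3q2) (Ga := gB2q0) (Gb := gB3q0) cB102L_ok B hρ (gatB71 x) (gatB32 x) (fun _ => gatB20 x) (fun _ => gatB30 x) hd hx hx' CG.B102L_732
    · exact corT_cert (G1 := gB7q1) (G2 := gB3q2) (Ga := gB3q0) (Gb := gB4q0) cB102L_ok B hρ (gatB71 x) (gatB32 x) (fun _ => gatB30 x) (fun _ => gatB40 x) hd hx hx' CG.B102L_733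
    · exact corT_cert (G1 := gB7q1) (G2 := gB3q2) (Ga := gB4q0) (Gb := gB5q0) cB102L_ok B hρ (gatB71 x) (gatB32 x) (fun _ => gatB40 x) (fun h => absurd h (by decide)) hd hx hx' CG.B102L_734
    · exact absurd h2 (by norm_num)
    · exact absurd h2 (by norm_num)

theorem altB_B102L_74 {κ x : ℝ} (hκ : κ * h0 = ken x) (hx : ((697932185 : ℕ) : ℝ) / S ≤ x) (hx' : x ≤ (((697932185 : ℕ) : ℝ) + (42949674 : ℕ)) / S) :
    AltEB 3 κ (eng.v x) (3 / 40) (tnt (h0 * x) (3 / 10)) PP tK tL tC pcB (scP esg pd) [⟨0, 1, 0, 67108864⟩, ⟨1, 0, 0, 67108864⟩, ⟨2, 1, 0, 67108864⟩] 1 0 2 7 4 (sgb true) (sgb true) x := by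
  have X : XR 67108864 x := XR.of hx hx' (by norm_num) (by norm_num) (by norm_num) (by norm_num)
  have hen : 0 < eng.v x := en_pos X.x0.le
  refine CornW.altB (C := cB102L) (j := (7 : Fin 8)) (k := (4 : Fin 8)) (Ef := esg) (pd := pd) (o := 3 / 40)
    (cornW_of (C := cB102L) (C0 := c0B) (En := eng) (mo := mog) (j := (7 : Fin 8)) (k := (4 : Fin 8)) (lo := 0) (hi := 4) (W := 67108864) (N0 := 3) cB102L_q (sideB hx hx') gokB (pinU hx hx') dokB X (by norm_num) (by norm_num) (l := (0 : Fin 8)) rfl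
      (gatB71 x) (gatB42 x) (gatB00 x) (datB71 x) (datB42 x) (datB00 x) ?_)
    (cornS_of (C := cB102L) (C0 := c0B) (j := (7 : Fin 8)) (k := (4 : Fin 8)) (lo := 0) (hi := 4) (W := 67108864) (N0 := 3) cB102L_q (sideB hx hx') gokB X (by norm_num) (by norm_num) (l := (0 : Fin 8)) rfl
      (gatB71 x) (gatB42 x) (gatB00 x) ?_)
    (thU (pinU hx hx')) rfl hκ (fun j q y => tC_eq j q y x) (esg_rng X.x0.le (by linarith [X.b, X.p0])).1 (mo_v x) le_rfl le_rfl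
  · intro ρ a B hρ hd i h1 h2
    fin_cases i
    · exact corW_cert (G1 := gB7q1) (G2 := gB4q2) (Ga := gB0q0) (Gb := gB1q0) (D1 := dB7q1) (D2 := dB4q2) (Da := dB0q0) (Db := dB1q0) cB102L_ok B hρ hen (gatB71 x) (gatB42 x) (fun _ => gatB00 x) (fun _ => gatB10 x) (datB71 x) (datB42 x) (fun _ => datB00 x) (fun _ => datB10 x) hd hx hx' CW.B102L_740
    · exact corW_cert (G1 := gB7q1) (G2 := gB4q2) (Ga := gB1q0) (Gb := gB2q0) (D1 := dB7q1) (D2 := dB4q2) (Da := dB1q0) (Db := dB2q0) cB102L_ok B hρ hen (gatB71 x) (gatB42 x) (fun _ => gatB10 x) (fun _ => gatB20 x) (datB71 x) (datB42 x) (fun _ => datB10 x) (fun _ => datB20 x) hd hx hx' CW.B102L_741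
    · exact corW_cert (G1 := gB7q1) (G2 := gB4q2) (Ga := gB2q0) (Gb := gB3q0) (D1 := dB7q1) (D2 := dB4q2) (Da := dB2q0) (Db := dB3q0) cB102L_ok B hρ hen (gatB71 x) (gatB42 x) (fun _ => gatB20 x) (fun _ => gatB30 x) (datB71 x) (datB42 x) (fun _ => datB20 x) (fun _ => datB30 x) hd hx hx' CW.B102L_742
    · exact corW_cert (G1 := gB7q1) (G2 := gB4q2) (Ga := gB3q0) (Gb := gB4q0) (D1 := dB7q1) (D2 := dB4q2) (Da := dB3q0) (Db := dB4q0) cB102L_ok B hρ hen (gatB71 x) (gatB42 x) (fun _ => gatB30 x) (fun _ => gatB40 x) (datB71 x) (datB42 x) (fun _ => datB30 x) (fun _ => datB40 x) hd hx hx' CW.B102L_743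
    · exact corW_cert (G1 := gB7q1) (G2 := gB4q2) (Ga := gB4q0) (Gb := gB5q0) (D1 := dB7q1) (D2 := dB4q2) (Da := dB4q0) (Db := dB5q0) cB102L_ok B hρ hen (gatB71 x) (gatB42 x) (fun _ => gatB40 x) (fun h => absurd h (by decide)) (datB71 x) (datB42 x) (fun _ => datB40 x) (fun h => absurd h (by decide)) hd hx hx' CW.B102L_744
    · exact absurd h2 (by norm_num)
    · exact absurd h2 (by norm_num)
  · intro ρ a B hρ hd i h1 h2
    fin_cases i
    · exact corT_cert (G1 := gB7q1) (G2 := gB4q2) (Ga := gB0q0) (Gb := gB1q0) cB102L_ok B hρ (gatB71 x) (gatB42 x) (fun _ => gatB00 x) (fun _ => gatB10 x) hd hx hx' CG.B102L_740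
    · exact corT_cert (G1 := gB7q1) (G2 := gB4q2) (Ga := gB1q0) (Gb := gB2q0) cB102L_ok B hρ (gatB71 x) (gatB42 x) (fun _ => gatB10 x) (fun _ => gatB20 x) hd hx hx' CG.B102L_741
    · exact corT_cert (G1 := gB7q1) (G2 := gB4q2) (Ga := gB2q0) (Gb := gB3q0) cB102L_ok B hρ (gatB71 x) (gatB42 x) (fun _ => gatB20 x) (fun _ => gatB30 x) hd hx hx' CG.B102L_742
    · exact corT_cert (G1 := gB7q1) (G2 := gB4q2) (Ga := gB3q0) (Gb := gB4q0) cB102L_ok B hρ (gatB71 x) (gatB42 x) (fun _ => gatB30 x) (fun _ => gatB40 x) hd hx hx' CG.B102L_743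
    · exact corT_cert (G1 := gB7q1) (G2 := gB4q2) (Ga := gB4q0) (Gb := gB5q0) cB102L_ok B hρ (gatB71 x) (gatB42 x) (fun _ => gatB40 x) (fun h => absurd h (by decide)) hd hx hx' CG.B102L_744
    · exact absurd h2 (by norm_num)
    · exact absurd h2 (by norm_num)

theorem altB_B102R_07 {κ x : ℝ} (hκ : κ * h0 = ken x) (hx : ((697932185 : ℕ) : ℝ) / S ≤ x) (hx' : x ≤ (((697932185 : ℕ) : ℝ) + (42949674 : ℕ)) / S) :
    AltEB 3 κ (eng.v x) (3 / 40) (tnt (h0 * x) (3 / 10)) PP tK tL tC pcB (scP esg pd) [⟨0, 1, 0, 67108864⟩, ⟨1, 0, 0, 67108864⟩, ⟨2, 1, 0, 67108864⟩] 1 0 2 0 7 (sgb false) (sgb false) x := by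
  have X : XR 67108864 x := XR.of hx hx' (by norm_num) (by norm_num) (by norm_num) (by norm_num)
  have hen : 0 < eng.v x := en_pos X.x0.le
  refine CornW.altB (C := cB102R) (j := (0 : Fin 8)) (k := (7 : Fin 8)) (Ef := esg) (pd := pd) (o := 3 / 40)
    (cornW_of (C := cB102R) (C0 := c0B) (En := eng) (mo := mog) (j := (0 : Fin 8)) (k := (7 : Fin 8)) (lo := 0) (hi := 4) (W := 67108864) (N0 := 3) cB102R_q (sideB hx hx') gokB (pinU hx hx') dokB X (by norm_num) (by norm_num) (l := (0 : Fin 8)) rfl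
      (gatB01 x) (gatB72 x) (gatB00 x) (datB01 x) (datB72 x) (datB00 x) ?_)
    (cornS_of (C := cB102R) (C0 := c0B) (j := (0 : Fin 8)) (k := (7 : Fin 8)) (lo := 0) (hi := 4) (W := 67108864) (N0 := 3) cB102R_q (sideB hx hx') gokB X (by norm_num) (by norm_num) (l := (0 : Fin 8)) rfl
      (gatB01 x) (gatB72 x) (gatB00 x) ?_)
    (thU (pinU hx hx')) rfl hκ (fun j q y => tC_eq j q y x) (esg_rng X.x0.le (by linarith [X.b, X.p0])).1 (mo_v x) le_rfl le_rfl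
  · intro ρ a B hρ hd i h1 h2
    fin_cases i
    · exact corW_cert (G1 := gB0q1) (G2 := gB7q2) (Ga := gB0q0) (Gb := gB1q0) (D1 := dB0q1) (D2 := dB7q2) (Da := dB0q0) (Db := dB1q0) cB102R_ok B hρ hen (gatB01 x) (gatB72 x) (fun _ => gatB00 x) (fun _ => gatB10 x) (datB01 x) (datB72 x) (fun _ => datB00 x) (fun _ => datB10 x) hd hx hx' CW.B102R_070
    · exact corW_cert (G1 := gB0q1) (G2 := gB7q2) (Ga := gB1q0) (Gb := gB2q0) (D1 := dB0q1) (D2 := dB7q2) (Da := dB1q0) (Db := dB2q0) cB102R_ok B hρ hen (gatB01 x) (gatB72 x) (fun _ => gatB10 x) (fun _ => gatB20 x) (datB01 x) (datB72 x) (fun _ => datB10 x) (fun _ => datB20 x) hd hx hx' CW.B102R_071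
    · exact corW_cert (G1 := gB0q1) (G2 := gB7q2) (Ga := gB2q0) (Gb := gB3q0) (D1 := dB0q1) (D2 := dB7q2) (Da := dB2q0) (Db := dB3q0) cB102R_ok B hρ hen (gatB01 x) (gatB72 x) (fun _ => gatB20 x) (fun _ => gatB30 x) (datB01 x) (datB72 x) (fun _ => datB20 x) (fun _ => datB30 x) hd hx hx' CW.B102R_072
    · exact corW_cert (G1 := gB0q1) (G2 := gB7q2) (Ga := gB3q0) (Gb := gB4q0) (D1 := dB0q1) (D2 := dB7q2) (Da := dB3q0) (Db := dB4q0) cB102R_ok B hρ hen (gatB01 x) (gatB72 x) (fun _ => gatB30 x) (fun _ => gatB40 x) (datB01 x) (datB72 x) (fun _ => datB30 x) (fun _ => datB40 x) hd hx hx' CW.B102R_073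
    · exact corW_cert (G1 := gB0q1) (G2 := gB7q2) (Ga := gB4q0) (Gb := gB5q0) (D1 := dB0q1) (D2 := dB7q2) (Da := dB4q0) (Db := dB5q0) cB102R_ok B hρ hen (gatB01 x) (gatB72 x) (fun _ => gatB40 x) (fun h => absurd h (by decide)) (datB01 x) (datB72 x) (fun _ => datB40 x) (fun h => absurd h (by decide)) hd hx hx' CW.B102R_074
    · exact absurd h2 (by norm_num)
    · exact absurd h2 (by norm_num)
  · intro ρ a B hρ hd i h1 h2
    fin_cases i
    · exact corT_cert (G1 := gB0q1) (G2 := gB7q2) (Ga := gB0q0) (Gb := gB1q0) cB102R_ok B hρ (gatB01 x) (gatB72 x) (fun _ => gatB00 x) (fun _ => gatB10 x) hd hx hx' CG.B102R_070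
    · exact corT_cert (G1 := gB0q1) (G2 := gB7q2) (Ga := gB1q0) (Gb := gB2q0) cB102R_ok B hρ (gatB01 x) (gatB72 x) (fun _ => gatB10 x) (fun _ => gatB20 x) hd hx hx' CG.B102R_071
    · exact corT_cert (G1 := gB0q1) (G2 := gB7q2) (Ga := gB2q0) (Gb := gB3q0) cB102R_ok B hρ (gatB01 x) (gatB72 x) (fun _ => gatB20 x) (fun _ => gatB30 x) hd hx hx' CG.B102R_072
    · exact corT_cert (G1 := gB0q1) (G2 := gB7q2) (Ga := gB3q0) (Gb := gB4q0) cB102R_ok B hρ (gatB01 x) (gatB72 x) (fun _ => gatB30 x) (fun _ => gatB40 x) hd hx hx' CG.B102R_073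
    · exact corT_cert (G1 := gB0q1) (G2 := gB7q2) (Ga := gB4q0) (Gb := gB5q0) cB102R_ok B hρ (gatB01 x) (gatB72 x) (fun _ => gatB40 x) (fun h => absurd h (by decide)) hd hx hx' CG.B102R_074
    · exact absurd h2 (by norm_num)
    · exact absurd h2 (by norm_num)

theorem altB_B202E_00 {κ x : ℝ} (hκ : κ * h0 = ken x) (hx : ((697932185 : ℕ) : ℝ) / S ≤ x) (hx' : x ≤ (((697932185 : ℕ) : ℝ) + (42949674 : ℕ)) / S) :
    AltEB 3 κ (eng.v x) (3 / 40) (tnt (h0 * x) (3 / 10)) PP tK tL tC pcB (scP esg pd) [⟨0, 1, 0, 67108864⟩, ⟨1, 0, 0, 67108864⟩, ⟨2, 1, 0, 67108864⟩] 2 0 2 0 0 (sgb true) (sgb false) x := by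
  have X : XR 67108864 x := XR.of hx hx' (by norm_num) (by norm_num) (by norm_num) (by norm_num)
  have hen : 0 < eng.v x := en_pos X.x0.le
  refine CornW.altB (C := cB202E) (j := (0 : Fin 8)) (k := (0 : Fin 8)) (Ef := esg) (pd := pd) (o := 3 / 40)
    (cornW_of (C := cB202E) (C0 := c0B) (En := eng) (mo := mog) (j := (0 : Fin 8)) (k := (0 : Fin 8)) (lo := 0) (hi := 4) (W := 67108864) (N0 := 3) cB202E_q (sideB hx hx') gokB (pinU hx hx') dokB X (by norm_num) (by norm_num) (l := (0 : Fin 8)) rfl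
      (gatB02 x) (gatB02 x) (gatB00 x) (datB02 x) (datB02 x) (datB00 x) ?_)
    (cornS_of (C := cB202E) (C0 := c0B) (j := (0 : Fin 8)) (k := (0 : Fin 8)) (lo := 0) (hi := 4) (W := 67108864) (N0 := 3) cB202E_q (sideB hx hx') gokB X (by norm_num) (by norm_num) (l := (0 : Fin 8)) rfl
      (gatB02 x) (gatB02 x) (gatB00 x) ?_)
    (thU (pinU hx hx')) rfl hκ (fun j q y => tC_eq j q y x) (esg_rng X.x0.le (by linarith [X.b, X.p0])).1 (mo_v x) le_rfl le_rfl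
  · intro ρ a B hρ hd i h1 h2
    fin_cases i
    · exact corW_cert (G1 := gB0q2) (G2 := gB0q2) (Ga := gB0q0) (Gb := gB1q0) (D1 := dB0q2) (D2 := dB0q2) (Da := dB0q0) (Db := dB1q0) cB202E_ok B hρ hen (gatB02 x) (gatB02 x) (fun _ => gatB00 x) (fun _ => gatB10 x) (datB02 x) (datB02 x) (fun _ => datB00 x) (fun _ => datB10 x) hd hx hx' CW.B202E_000
    · exact corW_cert (G1 := gB0q2) (G2 := gB0q2) (Ga := gB1q0) (Gb := gB2q0) (D1 := dB0q2) (D2 := dB0q2) (Da := dB1q0) (Db := dB2q0) cB202E_ok B hρ hen (gatB02 x) (gatB02 x) (fun _ => gatB10 x) (fun _ => gatB20 x) (datB02 x) (datB02 x) (fun _ => datB10 x) (fun _ => datB20 x) hd hx hx' CW.B202E_001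
    · exact corW_cert (G1 := gB0q2) (G2 := gB0q2) (Ga := gB2q0) (Gb := gB3q0) (D1 := dB0q2) (D2 := dB0q2) (Da := dB2q0) (Db := dB3q0) cB202E_ok B hρ hen (gatB02 x) (gatB02 x) (fun _ => gatB20 x) (fun _ => gatB30 x) (datB02 x) (datB02 x) (fun _ => datB20 x) (fun _ => datB30 x) hd hx hx' CW.B202E_002
    · exact corW_cert (G1 := gB0q2) (G2 := gB0q2) (Ga := gB3q0) (Gb := gB4q0) (D1 := dB0q2) (D2 := dB0q2) (Da := dB3q0) (Db := dB4q0) cB202E_ok B hρ hen (gatB02 x) (gatB02 x) (fun _ => gatB30 x) (fun _ => gatB40 x) (datB02 x) (datB02 x) (fun _ => datB30 x) (fun _ => datB40 x) hd hx hx' CW.B202E_003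
    · exact corW_cert (G1 := gB0q2) (G2 := gB0q2) (Ga := gB4q0) (Gb := gB5q0) (D1 := dB0q2) (D2 := dB0q2) (Da := dB4q0) (Db := dB5q0) cB202E_ok B hρ hen (gatB02 x) (gatB02 x) (fun _ => gatB40 x) (fun h => absurd h (by decide)) (datB02 x) (datB02 x) (fun _ => datB40 x) (fun h => absurd h (by decide)) hd hx hx' CW.B202E_004
    · exact absurd h2 (by norm_num)
    · exact absurd h2 (by norm_num)
  · intro ρ a B hρ hd i h1 h2
    fin_cases i
    · exact corT_cert (G1 := gB0q2) (G2 := gB0q2) (Ga := gB0q0) (Gb := gB1q0) cB202E_ok B hρ (gatB02 x) (gatB02 x) (fun _ => gatB00 x) (fun _ => gatB10 x) hd hx hx' CG.B202E_000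
    · exact corT_cert (G1 := gB0q2) (G2 := gB0q2) (Ga := gB1q0) (Gb := gB2q0) cB202E_ok B hρ (gatB02 x) (gatB02 x) (fun _ => gatB10 x) (fun _ => gatB20 x) hd hx hx' CG.B202E_001
    · exact corT_cert (G1 := gB0q2) (G2 := gB0q2) (Ga := gB2q0) (Gb := gB3q0) cB202E_ok B hρ (gatB02 x) (gatB02 x) (fun _ => gatB20 x) (fun _ => gatB30 x) hd hx hx' CG.B202E_002
    · exact corT_cert (G1 := gB0q2) (G2 := gB0q2) (Ga := gB3q0) (Gb := gB4q0) cB202E_ok B hρ (gatB02 x) (gatB02 x) (fun _ => gatB30 x) (fun _ => gatB40 x) hd hx hx' CG.B202E_003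
    · exact corT_cert (G1 := gB0q2) (G2 := gB0q2) (Ga := gB4q0) (Gb := gB5q0) cB202E_ok B hρ (gatB02 x) (gatB02 x) (fun _ => gatB40 x) (fun h => absurd h (by decide)) hd hx hx' CG.B202E_004
    · exact absurd h2 (by norm_num)
    · exact absurd h2 (by norm_num)

theorem altB_B202E_01 {κ x : ℝ} (hκ : κ * h0 = ken x) (hx : ((697932185 : ℕ) : ℝ) / S ≤ x) (hx' : x ≤ (((697932185 : ℕ) : ℝ) + (42949674 : ℕ)) / S) :
    AltEB 3 κ (eng.v x) (3 / 40) (tnt (h0 * x) (3 / 10)) PP tK tL tC pcB (scP esg pd) [⟨0, 1, 0, 67108864⟩, ⟨1, 0, 0, 67108864⟩, ⟨2, 1, 0, 67108864⟩] 2 0 2 0 1 (sgb true) (sgb false) x := by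
  have X : XR 67108864 x := XR.of hx hx' (by norm_num) (by norm_num) (by norm_num) (by norm_num)
  have hen : 0 < eng.v x := en_pos X.x0.le
  refine CornW.altB (C := cB202E) (j := (0 : Fin 8)) (k := (1 : Fin 8)) (Ef := esg) (pd := pd) (o := 3 / 40)
    (cornW_of (C := cB202E) (C0 := c0B) (En := eng) (mo := mog) (j := (0 : Fin 8)) (k := (1 : Fin 8)) (lo := 0) (hi := 4) (W := 67108864) (N0 := 3) cB202E_q (sideB hx hx') gokB (pinU hx hx') dokB X (by norm_num) (by norm_num) (l := (0 : Fin 8)) rfl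
      (gatB02 x) (gatB12 x) (gatB00 x) (datB02 x) (datB12 x) (datB00 x) ?_)
    (cornS_of (C := cB202E) (C0 := c0B) (j := (0 : Fin 8)) (k := (1 : Fin 8)) (lo := 0) (hi := 4) (W := 67108864) (N0 := 3) cB202E_q (sideB hx hx') gokB X (by norm_num) (by norm_num) (l := (0 : Fin 8)) rfl
      (gatB02 x) (gatB12 x) (gatB00 x) ?_)
    (thU (pinU hx hx')) rfl hκ (fun j q y => tC_eq j q y x) (esg_rng X.x0.le (by linarith [X.b, X.p0])).1 (mo_v x) le_rfl le_rfl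
  · intro ρ a B hρ hd i h1 h2
    fin_cases i
    · exact corW_cert (G1 := gB0q2) (G2 := gB1q2) (Ga := gB0q0) (Gb := gB1q0) (D1 := dB0q2) (D2 := dB1q2) (Da := dB0q0) (Db := dB1q0) cB202E_ok B hρ hen (gatB02 x) (gatB12 x) (fun _ => gatB00 x) (fun _ => gatB10 x) (datB02 x) (datB12 x) (fun _ => datB00 x) (fun _ => datB10 x) hd hx hx' CW.B202E_010
    · exact corW_cert (G1 := gB0q2) (G2 := gB1q2) (Ga := gB1q0) (Gb := gB2q0) (D1 := dB0q2) (D2 := dB1q2) (Da := dB1q0) (Db := dB2q0) cB202E_ok B hρ hen (gatB02 x) (gatB12 x) (fun _ => gatB10 x) (fun _ => gatB20 x) (datB02 x) (datB12 x) (fun _ => datB10 x) (fun _ => datB20 x) hd hx hx' CW.B202E_011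
    · exact corW_cert (G1 := gB0q2) (G2 := gB1q2) (Ga := gB2q0) (Gb := gB3q0) (D1 := dB0q2) (D2 := dB1q2) (Da := dB2q0) (Db := dB3q0) cB202E_ok B hρ hen (gatB02 x) (gatB12 x) (fun _ => gatB20 x) (fun _ => gatB30 x) (datB02 x) (datB12 x) (fun _ => datB20 x) (fun _ => datB30 x) hd hx hx' CW.B202E_012
    · exact corW_cert (G1 := gB0q2) (G2 := gB1q2) (Ga := gB3q0) (Gb := gB4q0) (D1 := dB0q2) (D2 := dB1q2) (Da := dB3q0) (Db := dB4q0) cB202E_ok B hρ hen (gatB02 x) (gatB12 x) (fun _ => gatB30 x) (fun _ => gatB40 x) (datB02 x) (datB12 x) (fun _ => datB30 x) (fun _ => datB40 x) hd hx hx' CW.B202E_013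
    · exact corW_cert (G1 := gB0q2) (G2 := gB1q2) (Ga := gB4q0) (Gb := gB5q0) (D1 := dB0q2) (D2 := dB1q2) (Da := dB4q0) (Db := dB5q0) cB202E_ok B hρ hen (gatB02 x) (gatB12 x) (fun _ => gatB40 x) (fun h => absurd h (by decide)) (datB02 x) (datB12 x) (fun _ => datB40 x) (fun h => absurd h (by decide)) hd hx hx' CW.B202E_014
    · exact absurd h2 (by norm_num)
    · exact absurd h2 (by norm_num)
  · intro ρ a B hρ hd i h1 h2
    fin_cases i
    · exact corT_cert (G1 := gB0q2) (G2 := gB1q2) (Ga := gB0q0) (Gb := gB1q0) cB202E_ok B hρ (gatB02 x) (gatB12 x) (fun _ => gatB00 x) (fun _ => gatB10 x) hd hx hx' CG.B202E_010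
    · exact corT_cert (G1 := gB0q2) (G2 := gB1q2) (Ga := gB1q0) (Gb := gB2q0) cB202E_ok B hρ (gatB02 x) (gatB12 x) (fun _ => gatB10 x) (fun _ => gatB20 x) hd hx hx' CG.B202E_011
    · exact corT_cert (G1 := gB0q2) (G2 := gB1q2) (Ga := gB2q0) (Gb := gB3q0) cB202E_ok B hρ (gatB02 x) (gatB12 x) (fun _ => gatB20 x) (fun _ => gatB30 x) hd hx hx' CG.B202E_012
    · exact corT_cert (G1 := gB0q2) (G2 := gB1q2) (Ga := gB3q0) (Gb := gB4q0) cB202E_ok B hρ (gatB02 x) (gatB12 x) (fun _ => gatB30 x) (fun _ => gatB40 x) hd hx hx' CG.B202E_013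
    · exact corT_cert (G1 := gB0q2) (G2 := gB1q2) (Ga := gB4q0) (Gb := gB5q0) cB202E_ok B hρ (gatB02 x) (gatB12 x) (fun _ => gatB40 x) (fun h => absurd h (by decide)) hd hx hx' CG.B202E_014
    · exact absurd h2 (by norm_num)
    · exact absurd h2 (by norm_num)

theorem altB_B202E_02 {κ x : ℝ} (hκ : κ * h0 = ken x) (hx : ((697932185 : ℕ) : ℝ) / S ≤ x) (hx' : x ≤ (((697932185 : ℕ) : ℝ) + (42949674 : ℕ)) / S) :
    AltEB 3 κ (eng.v x) (3 / 40) (tnt (h0 * x) (3 / 10)) PP tK tL tC pcB (scP esg pd) [⟨0, 1, 0, 67108864⟩, ⟨1, 0, 0, 67108864⟩, ⟨2, 1, 0, 67108864⟩] 2 0 2 0 2 (sgb true) (sgb false) x := by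
  have X : XR 67108864 x := XR.of hx hx' (by norm_num) (by norm_num) (by norm_num) (by norm_num)
  have hen : 0 < eng.v x := en_pos X.x0.le
  refine CornW.altB (C := cB202E) (j := (0 : Fin 8)) (k := (2 : Fin 8)) (Ef := esg) (pd := pd) (o := 3 / 40)
    (cornW_of (C := cB202E) (C0 := c0B) (En := eng) (mo := mog) (j := (0 : Fin 8)) (k := (2 : Fin 8)) (lo := 0) (hi := 4) (W := 67108864) (N0 := 3) cB202E_q (sideB hx hx') gokB (pinU hx hx') dokB X (by norm_num) (by norm_num) (l := (0 : Fin 8)) rfl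
      (gatB02 x) (gatB22 x) (gatB00 x) (datB02 x) (datB22 x) (datB00 x) ?_)
    (cornS_of (C := cB202E) (C0 := c0B) (j := (0 : Fin 8)) (k := (2 : Fin 8)) (lo := 0) (hi := 4) (W := 67108864) (N0 := 3) cB202E_q (sideB hx hx') gokB X (by norm_num) (by norm_num) (l := (0 : Fin 8)) rfl
      (gatB02 x) (gatB22 x) (gatB00 x) ?_)
    (thU (pinU hx hx')) rfl hκ (fun j q y => tC_eq j q y x) (esg_rng X.x0.le (by linarith [X.b, X.p0])).1 (mo_v x) le_rfl le_rfl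
  · intro ρ a B hρ hd i h1 h2
    fin_cases i
    · exact corW_cert (G1 := gB0q2) (G2 := gB2q2) (Ga := gB0q0) (Gb := gB1q0) (D1 := dB0q2) (D2 := dB2q2) (Da := dB0q0) (Db := dB1q0) cB202E_ok B hρ hen (gatB02 x) (gatB22 x) (fun _ => gatB00 x) (fun _ => gatB10 x) (datB02 x) (datB22 x) (fun _ => datB00 x) (fun _ => datB10 x) hd hx hx' CW.B202E_020
    · exact corW_cert (G1 := gB0q2) (G2 := gB2q2) (Ga := gB1q0) (Gb := gB2q0) (D1 := dB0q2) (D2 := dB2q2) (Da := dB1q0) (Db := dB2q0) cB202E_ok B hρ hen (gatB02 x) (gatB22 x) (fun _ => gatB10 x) (fun _ => gatB20 x) (datB02 x) (datB22 x) (fun _ => datB10 x) (fun _ => datB20 x) hd hx hx' CW.B202E_021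
    · exact corW_cert (G1 := gB0q2) (G2 := gB2q2) (Ga := gB2q0) (Gb := gB3q0) (D1 := dB0q2) (D2 := dB2q2) (Da := dB2q0) (Db := dB3q0) cB202E_ok B hρ hen (gatB02 x) (gatB22 x) (fun _ => gatB20 x) (fun _ => gatB30 x) (datB02 x) (datB22 x) (fun _ => datB20 x) (fun _ => datB30 x) hd hx hx' CW.B202E_022
    · exact corW_cert (G1 := gB0q2) (G2 := gB2q2) (Ga := gB3q0) (Gb := gB4q0) (D1 := dB0q2) (D2 := dB2q2) (Da := dB3q0) (Db := dB4q0) cB202E_ok B hρ hen (gatB02 x) (gatB22 x) (fun _ => gatB30 x) (fun _ => gatB40 x) (datB02 x) (datB22 x) (fun _ => datB30 x) (fun _ => datB40 x) hd hx hx' CW.B202E_023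
    · exact corW_cert (G1 := gB0q2) (G2 := gB2q2) (Ga := gB4q0) (Gb := gB5q0) (D1 := dB0q2) (D2 := dB2q2) (Da := dB4q0) (Db := dB5q0) cB202E_ok B hρ hen (gatB02 x) (gatB22 x) (fun _ => gatB40 x) (fun h => absurd h (by decide)) (datB02 x) (datB22 x) (fun _ => datB40 x) (fun h => absurd h (by decide)) hd hx hx' CW.B202E_024
    · exact absurd h2 (by norm_num)
    · exact absurd h2 (by norm_num)
  · intro ρ a B hρ hd i h1 h2
    fin_cases i
    · exact corT_cert (G1 := gB0q2) (G2 := gB2q2) (Ga := gB0q0) (Gb := gB1q0) cB202E_ok B hρ (gatB02 x) (gatB22 x) (fun _ => gatB00 x) (fun _ => gatB10 x) hd hx hx' CG.B202E_020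
    · exact corT_cert (G1 := gB0q2) (G2 := gB2q2) (Ga := gB1q0) (Gb := gB2q0) cB202E_ok B hρ (gatB02 x) (gatB22 x) (fun _ => gatB10 x) (fun _ => gatB20 x) hd hx hx' CG.B202E_021
    · exact corT_cert (G1 := gB0q2) (G2 := gB2q2) (Ga := gB2q0) (Gb := gB3q0) cB202E_ok B hρ (gatB02 x) (gatB22 x) (fun _ => gatB20 x) (fun _ => gatB30 x) hd hx hx' CG.B202E_022
    · exact corT_cert (G1 := gB0q2) (G2 := gB2q2) (Ga := gB3q0) (Gb := gB4q0) cB202E_ok B hρ (gatB02 x) (gatB22 x) (fun _ => gatB30 x) (fun _ => gatB40 x) hd hx hx' CG.B202E_023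
    · exact corT_cert (G1 := gB0q2) (G2 := gB2q2) (Ga := gB4q0) (Gb := gB5q0) cB202E_ok B hρ (gatB02 x) (gatB22 x) (fun _ => gatB40 x) (fun h => absurd h (by decide)) hd hx hx' CG.B202E_024
    · exact absurd h2 (by norm_num)
    · exact absurd h2 (by norm_num)

theorem altB_B202E_03 {κ x : ℝ} (hκ : κ * h0 = ken x) (hx : ((697932185 : ℕ) : ℝ) / S ≤ x) (hx' : x ≤ (((697932185 : ℕ) : ℝ) + (42949674 : ℕ)) / S) :
    AltEB 3 κ (eng.v x) (3 / 40) (tnt (h0 * x) (3 / 10)) PP tK tL tC pcB (scP esg pd) [⟨0, 1, 0, 67108864⟩, ⟨1, 0, 0, 67108864⟩, ⟨2, 1, 0, 67108864⟩] 2 0 2 0 3 (sgb true) (sgb false) x := by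
  have X : XR 67108864 x := XR.of hx hx' (by norm_num) (by norm_num) (by norm_num) (by norm_num)
  have hen : 0 < eng.v x := en_pos X.x0.le
  refine CornW.altB (C := cB202E) (j := (0 : Fin 8)) (k := (3 : Fin 8)) (Ef := esg) (pd := pd) (o := 3 / 40)
    (cornW_of (C := cB202E) (C0 := c0B) (En := eng) (mo := mog) (j := (0 : Fin 8)) (k := (3 : Fin 8)) (lo := 0) (hi := 4) (W := 67108864) (N0 := 3) cB202E_q (sideB hx hx') gokB (pinU hx hx') dokB X (by norm_num) (by norm_num) (l := (0 : Fin 8)) rfl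
      (gatB02 x) (gatB32 x) (gatB00 x) (datB02 x) (datB32 x) (datB00 x) ?_)
    (cornS_of (C := cB202E) (C0 := c0B) (j := (0 : Fin 8)) (k := (3 : Fin 8)) (lo := 0) (hi := 4) (W := 67108864) (N0 := 3) cB202E_q (sideB hx hx') gokB X (by norm_num) (by norm_num) (l := (0 : Fin 8)) rfl
      (gatB02 x) (gatB32 x) (gatB00 x) ?_)
    (thU (pinU hx hx')) rfl hκ (fun j q y => tC_eq j q y x) (esg_rng X.x0.le (by linarith [X.b, X.p0])).1 (mo_v x) le_rfl le_rfl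
  · intro ρ a B hρ hd i h1 h2
    fin_cases i
    · exact corW_cert (G1 := gB0q2) (G2 := gB3q2) (Ga := gB0q0) (Gb := gB1q0) (D1 := dB0q2) (D2 := dB3q2) (Da := dB0q0) (Db := dB1q0) cB202E_ok B hρ hen (gatB02 x) (gatB32 x) (fun _ => gatB00 x) (fun _ => gatB10 x) (datB02 x) (datB32 x) (fun _ => datB00 x) (fun _ => datB10 x) hd hx hx' CW.B202E_030
    · exact corW_cert (G1 := gB0q2) (G2 := gB3q2) (Ga := gB1q0) (Gb := gB2q0) (D1 := dB0q2) (D2 := dB3q2) (Da := dB1q0) (Db := dB2q0) cB202E_ok B hρ hen (gatB02 x) (gatB32 x) (fun _ => gatB10 x) (fun _ => gatB20 x) (datB02 x) (datB32 x) (fun _ => datB10 x) (fun _ => datB20 x) hd hx hx' CW.B202E_031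
    · exact corW_cert (G1 := gB0q2) (G2 := gB3q2) (Ga := gB2q0) (Gb := gB3q0) (D1 := dB0q2) (D2 := dB3q2) (Da := dB2q0) (Db := dB3q0) cB202E_ok B hρ hen (gatB02 x) (gatB32 x) (fun _ => gatB20 x) (fun _ => gatB30 x) (datB02 x) (datB32 x) (fun _ => datB20 x) (fun _ => datB30 x) hd hx hx' CW.B202E_032
    · exact corW_cert (G1 := gB0q2) (G2 := gB3q2) (Ga := gB3q0) (Gb := gB4q0) (D1 := dB0q2) (D2 := dB3q2) (Da := dB3q0) (Db := dB4q0) cB202E_ok B hρ hen (gatB02 x) (gatB32 x) (fun _ => gatB30 x) (fun _ => gatB40 x) (datB02 x) (datB32 x) (fun _ => datB30 x) (fun _ => datB40 x) hd hx hx' CW.B202E_033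
    · exact corW_cert (G1 := gB0q2) (G2 := gB3q2) (Ga := gB4q0) (Gb := gB5q0) (D1 := dB0q2) (D2 := dB3q2) (Da := dB4q0) (Db := dB5q0) cB202E_ok B hρ hen (gatB02 x) (gatB32 x) (fun _ => gatB40 x) (fun h => absurd h (by decide)) (datB02 x) (datB32 x) (fun _ => datB40 x) (fun h => absurd h (by decide)) hd hx hx' CW.B202E_034
    · exact absurd h2 (by norm_num)
    · exact absurd h2 (by norm_num)
  · intro ρ a B hρ hd i h1 h2
    fin_cases i
    · exact corT_cert (G1 := gB0q2) (G2 := gB3q2) (Ga := gB0q0) (Gb := gB1q0) cB202E_ok B hρ (gatB02 x) (gatB32 x) (fun _ => gatB00 x) (fun _ => gatB10 x) hd hx hx' CG.B202E_030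
    · exact corT_cert (G1 := gB0q2) (G2 := gB3q2) (Ga := gB1q0) (Gb := gB2q0) cB202E_ok B hρ (gatB02 x) (gatB32 x) (fun _ => gatB10 x) (fun _ => gatB20 x) hd hx hx' CG.B202E_031
    · exact corT_cert (G1 := gB0q2) (G2 := gB3q2) (Ga := gB2q0) (Gb := gB3q0) cB202E_ok B hρ (gatB02 x) (gatB32 x) (fun _ => gatB20 x) (fun _ => gatB30 x) hd hx hx' CG.B202E_032
    · exact corT_cert (G1 := gB0q2) (G2 := gB3q2) (Ga := gB3q0) (Gb := gB4q0) cB202E_ok B hρ (gatB02 x) (gatB32 x) (fun _ => gatB30 x) (fun _ => gatB40 x) hd hx hx' CG.B202E_033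
    · exact corT_cert (G1 := gB0q2) (G2 := gB3q2) (Ga := gB4q0) (Gb := gB5q0) cB202E_ok B hρ (gatB02 x) (gatB32 x) (fun _ => gatB40 x) (fun h => absurd h (by decide)) hd hx hx' CG.B202E_034
    · exact absurd h2 (by norm_num)
    · exact absurd h2 (by norm_num)

theorem altB_B202E_04 {κ x : ℝ} (hκ : κ * h0 = ken x) (hx : ((697932185 : ℕ) : ℝ) / S ≤ x) (hx' : x ≤ (((697932185 : ℕ) : ℝ) + (42949674 : ℕ)) / S) :
    AltEB 3 κ (eng.v x) (3 / 40) (tnt (h0 * x) (3 / 10)) PP tK tL tC pcB (scP esg pd) [⟨0, 1, 0, 67108864⟩, ⟨1, 0, 0, 67108864⟩, ⟨2, 1, 0, 67108864⟩] 2 0 2 0 4 (sgb true) (sgb false) x := by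
  have X : XR 67108864 x := XR.of hx hx' (by norm_num) (by norm_num) (by norm_num) (by norm_num)
  have hen : 0 < eng.v x := en_pos X.x0.le
  refine CornW.altB (C := cB202E) (j := (0 : Fin 8)) (k := (4 : Fin 8)) (Ef := esg) (pd := pd) (o := 3 / 40)
    (cornW_of (C := cB202E) (C0 := c0B) (En := eng) (mo := mog) (j := (0 : Fin 8)) (k := (4 : Fin 8)) (lo := 0) (hi := 4) (W := 67108864) (N0 := 3) cB202E_q (sideB hx hx') gokB (pinU hx hx') dokB X (by norm_num) (by norm_num) (l := (0 : Fin 8)) rfl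
      (gatB02 x) (gatB42 x) (gatB00 x) (datB02 x) (datB42 x) (datB00 x) ?_)
    (cornS_of (C := cB202E) (C0 := c0B) (j := (0 : Fin 8)) (k := (4 : Fin 8)) (lo := 0) (hi := 4) (W := 67108864) (N0 := 3) cB202E_q (sideB hx hx') gokB X (by norm_num) (by norm_num) (l := (0 : Fin 8)) rfl
      (gatB02 x) (gatB42 x) (gatB00 x) ?_)
    (thU (pinU hx hx')) rfl hκ (fun j q y => tC_eq j q y x) (esg_rng X.x0.le (by linarith [X.b, X.p0])).1 (mo_v x) le_rfl le_rfl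
  · intro ρ a B hρ hd i h1 h2
    fin_cases i
    · exact corW_cert (G1 := gB0q2) (G2 := gB4q2) (Ga := gB0q0) (Gb := gB1q0) (D1 := dB0q2) (D2 := dB4q2) (Da := dB0q0) (Db := dB1q0) cB202E_ok B hρ hen (gatB02 x) (gatB42 x) (fun _ => gatB00 x) (fun _ => gatB10 x) (datB02 x) (datB42 x) (fun _ => datB00 x) (fun _ => datB10 x) hd hx hx' CW.B202E_040
    · exact corW_cert (G1 := gB0q2) (G2 := gB4q2) (Ga := gB1q0) (Gb := gB2q0) (D1 := dB0q2) (D2 := dB4q2) (Da := dB1q0) (Db := dB2q0) cB202E_ok B hρ hen (gatB02 x) (gatB42 x) (fun _ => gatB10 x) (fun _ => gatB20 x) (datB02 x) (datB42 x) (fun _ => datB10 x) (fun _ => datB20 x) hd hx hx' CW.B202E_041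
    · exact corW_cert (G1 := gB0q2) (G2 := gB4q2) (Ga := gB2q0) (Gb := gB3q0) (D1 := dB0q2) (D2 := dB4q2) (Da := dB2q0) (Db := dB3q0) cB202E_ok B hρ hen (gatB02 x) (gatB42 x) (fun _ => gatB20 x) (fun _ => gatB30 x) (datB02 x) (datB42 x) (fun _ => datB20 x) (fun _ => datB30 x) hd hx hx' CW.B202E_042
    · exact corW_cert (G1 := gB0q2) (G2 := gB4q2) (Ga := gB3q0) (Gb := gB4q0) (D1 := dB0q2) (D2 := dB4q2) (Da := dB3q0) (Db := dB4q0) cB202E_ok B hρ hen (gatB02 x) (gatB42 x) (fun _ => gatB30 x) (fun _ => gatB40 x) (datB02 x) (datB42 x) (fun _ => datB30 x) (fun _ => datB40 x) hd hx hx' CW.B202E_043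
    · exact corW_cert (G1 := gB0q2) (G2 := gB4q2) (Ga := gB4q0) (Gb := gB5q0) (D1 := dB0q2) (D2 := dB4q2) (Da := dB4q0) (Db := dB5q0) cB202E_ok B hρ hen (gatB02 x) (gatB42 x) (fun _ => gatB40 x) (fun h => absurd h (by decide)) (datB02 x) (datB42 x) (fun _ => datB40 x) (fun h => absurd h (by decide)) hd hx hx' CW.B202E_044
    · exact absurd h2 (by norm_num)
    · exact absurd h2 (by norm_num)
  · intro ρ a B hρ hd i h1 h2
    fin_cases i
    · exact corT_cert (G1 := gB0q2) (G2 := gB4q2) (Ga := gB0q0) (Gb := gB1q0) cB202E_ok B hρ (gatB02 x) (gatB42 x) (fun _ => gatB00 x) (fun _ => gatB10 x) hd hx hx' CG.B202E_040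
    · exact corT_cert (G1 := gB0q2) (G2 := gB4q2) (Ga := gB1q0) (Gb := gB2q0) cB202E_ok B hρ (gatB02 x) (gatB42 x) (fun _ => gatB10 x) (fun _ => gatB20 x) hd hx hx' CG.B202E_041
    · exact corT_cert (G1 := gB0q2) (G2 := gB4q2) (Ga := gB2q0) (Gb := gB3q0) cB202E_ok B hρ (gatB02 x) (gatB42 x) (fun _ => gatB20 x) (fun _ => gatB30 x) hd hx hx' CG.B202E_042
    · exact corT_cert (G1 := gB0q2) (G2 := gB4q2) (Ga := gB3q0) (Gb := gB4q0) cB202E_ok B hρ (gatB02 x) (gatB42 x) (fun _ => gatB30 x) (fun _ => gatB40 x) hd hx hx' CG.B202E_043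
    · exact corT_cert (G1 := gB0q2) (G2 := gB4q2) (Ga := gB4q0) (Gb := gB5q0) cB202E_ok B hρ (gatB02 x) (gatB42 x) (fun _ => gatB40 x) (fun h => absurd h (by decide)) hd hx hx' CG.B202E_044
    · exact absurd h2 (by norm_num)
    · exact absurd h2 (by norm_num)

theorem altB_B202E_10 {κ x : ℝ} (hκ : κ * h0 = ken x) (hx : ((697932185 : ℕ) : ℝ) / S ≤ x) (hx' : x ≤ (((697932185 : ℕ) : ℝ) + (42949674 : ℕ)) / S) :
    AltEB 3 κ (eng.v x) (3 / 40) (tnt (h0 * x) (3 / 10)) PP tK tL tC pcB (scP esg pd) [⟨0, 1, 0, 67108864⟩, ⟨1, 0, 0, 67108864⟩, ⟨2, 1, 0, 67108864⟩] 2 0 2 1 0 (sgb true) (sgb false) x := by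
  have X : XR 67108864 x := XR.of hx hx' (by norm_num) (by norm_num) (by norm_num) (by norm_num)
  have hen : 0 < eng.v x := en_pos X.x0.le
  refine CornW.altB (C := cB202E) (j := (1 : Fin 8)) (k := (0 : Fin 8)) (Ef := esg) (pd := pd) (o := 3 / 40)
    (cornW_of (C := cB202E) (C0 := c0B) (En := eng) (mo := mog) (j := (1 : Fin 8)) (k := (0 : Fin 8)) (lo := 0) (hi := 4) (W := 67108864) (N0 := 3) cB202E_q (sideB hx hx') gokB (pinU hx hx') dokB X (by norm_num) (by norm_num) (l := (0 : Fin 8)) rfl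
      (gatB12 x) (gatB02 x) (gatB00 x) (datB12 x) (datB02 x) (datB00 x) ?_)
    (cornS_of (C := cB202E) (C0 := c0B) (j := (1 : Fin 8)) (k := (0 : Fin 8)) (lo := 0) (hi := 4) (W := 67108864) (N0 := 3) cB202E_q (sideB hx hx') gokB X (by norm_num) (by norm_num) (l := (0 : Fin 8)) rfl
      (gatB12 x) (gatB02 x) (gatB00 x) ?_)
    (thU (pinU hx hx')) rfl hκ (fun j q y => tC_eq j q y x) (esg_rng X.x0.le (by linarith [X.b, X.p0])).1 (mo_v x) le_rfl le_rfl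
  · intro ρ a B hρ hd i h1 h2
    fin_cases i
    · exact corW_cert (G1 := gB1q2) (G2 := gB0q2) (Ga := gB0q0) (Gb := gB1q0) (D1 := dB1q2) (D2 := dB0q2) (Da := dB0q0) (Db := dB1q0) cB202E_ok B hρ hen (gatB12 x) (gatB02 x) (fun _ => gatB00 x) (fun _ => gatB10 x) (datB12 x) (datB02 x) (fun _ => datB00 x) (fun _ => datB10 x) hd hx hx' CW.B202E_100
    · exact corW_cert (G1 := gB1q2) (G2 := gB0q2) (Ga := gB1q0) (Gb := gB2q0) (D1 := dB1q2) (D2 := dB0q2) (Da := dB1q0) (Db := dB2q0) cB202E_ok B hρ hen (gatB12 x) (gatB02 x) (fun _ => gatB10 x) (fun _ => gatB20 x) (datB12 x) (datB02 x) (fun _ => datB10 x) (fun _ => datB20 x) hd hx hx' CW.B202E_101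
    · exact corW_cert (G1 := gB1q2) (G2 := gB0q2) (Ga := gB2q0) (Gb := gB3q0) (D1 := dB1q2) (D2 := dB0q2) (Da := dB2q0) (Db := dB3q0) cB202E_ok B hρ hen (gatB12 x) (gatB02 x) (fun _ => gatB20 x) (fun _ => gatB30 x) (datB12 x) (datB02 x) (fun _ => datB20 x) (fun _ => datB30 x) hd hx hx' CW.B202E_102
    · exact corW_cert (G1 := gB1q2) (G2 := gB0q2) (Ga := gB3q0) (Gb := gB4q0) (D1 := dB1q2) (D2 := dB0q2) (Da := dB3q0) (Db := dB4q0) cB202E_ok B hρ hen (gatB12 x) (gatB02 x) (fun _ => gatB30 x) (fun _ => gatB40 x) (datB12 x) (datB02 x) (fun _ => datB30 x) (fun _ => datB40 x) hd hx hx' CW.B202E_103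
    · exact corW_cert (G1 := gB1q2) (G2 := gB0q2) (Ga := gB4q0) (Gb := gB5q0) (D1 := dB1q2) (D2 := dB0q2) (Da := dB4q0) (Db := dB5q0) cB202E_ok B hρ hen (gatB12 x) (gatB02 x) (fun _ => gatB40 x) (fun h => absurd h (by decide)) (datB12 x) (datB02 x) (fun _ => datB40 x) (fun h => absurd h (by decide)) hd hx hx' CW.B202E_104
    · exact absurd h2 (by norm_num)
    · exact absurd h2 (by norm_num)
  · intro ρ a B hρ hd i h1 h2
    fin_cases i
    · exact corT_cert (G1 := gB1q2) (G2 := gB0q2) (Ga := gB0q0) (Gb := gB1q0) cB202E_ok B hρ (gatB12 x) (gatB02 x) (fun _ => gatB00 x) (fun _ => gatB10 x) hd hx hx' CG.B202E_100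
    · exact corT_cert (G1 := gB1q2) (G2 := gB0q2) (Ga := gB1q0) (Gb := gB2q0) cB202E_ok B hρ (gatB12 x) (gatB02 x) (fun _ => gatB10 x) (fun _ => gatB20 x) hd hx hx' CG.B202E_101
    · exact corT_cert (G1 := gB1q2) (G2 := gB0q2) (Ga := gB2q0) (Gb := gB3q0) cB202E_ok B hρ (gatB12 x) (gatB02 x) (fun _ => gatB20 x) (fun _ => gatB30 x) hd hx hx' CG.B202E_102
    · exact corT_cert (G1 := gB1q2) (G2 := gB0q2) (Ga := gB3q0) (Gb := gB4q0) cB202E_ok B hρ (gatB12 x) (gatB02 x) (fun _ => gatB30 x) (fun _ => gatB40 x) hd hx hx' CG.B202E_103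
    · exact corT_cert (G1 := gB1q2) (G2 := gB0q2) (Ga := gB4q0) (Gb := gB5q0) cB202E_ok B hρ (gatB12 x) (gatB02 x) (fun _ => gatB40 x) (fun h => absurd h (by decide)) hd hx hx' CG.B202E_104
    · exact absurd h2 (by norm_num)
    · exact absurd h2 (by norm_num)

theorem altB_B202E_11 {κ x : ℝ} (hκ : κ * h0 = ken x) (hx : ((697932185 : ℕ) : ℝ) / S ≤ x) (hx' : x ≤ (((697932185 : ℕ) : ℝ) + (42949674 : ℕ)) / S) :
    AltEB 3 κ (eng.v x) (3 / 40) (tnt (h0 * x) (3 / 10)) PP tK tL tC pcB (scP esg pd) [⟨0, 1, 0, 67108864⟩, ⟨1, 0, 0, 67108864⟩, ⟨2, 1, 0, 67108864⟩] 2 0 2 1 1 (sgb true) (sgb false) x := by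
  have X : XR 67108864 x := XR.of hx hx' (by norm_num) (by norm_num) (by norm_num) (by norm_num)
  have hen : 0 < eng.v x := en_pos X.x0.le
  refine CornW.altB (C := cB202E) (j := (1 : Fin 8)) (k := (1 : Fin 8)) (Ef := esg) (pd := pd) (o := 3 / 40)
    (cornW_of (C := cB202E) (C0 := c0B) (En := eng) (mo := mog) (j := (1 : Fin 8)) (k := (1 : Fin 8)) (lo := 0) (hi := 4) (W := 67108864) (N0 := 3) cB202E_q (sideB hx hx') gokB (pinU hx hx') dokB X (by norm_num) (by norm_num) (l := (0 : Fin 8)) rfl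
      (gatB12 x) (gatB12 x) (gatB00 x) (datB12 x) (datB12 x) (datB00 x) ?_)
    (cornS_of (C := cB202E) (C0 := c0B) (j := (1 : Fin 8)) (k := (1 : Fin 8)) (lo := 0) (hi := 4) (W := 67108864) (N0 := 3) cB202E_q (sideB hx hx') gokB X (by norm_num) (by norm_num) (l := (0 : Fin 8)) rfl
      (gatB12 x) (gatB12 x) (gatB00 x) ?_)
    (thU (pinU hx hx')) rfl hκ (fun j q y => tC_eq j q y x) (esg_rng X.x0.le (by linarith [X.b, X.p0])).1 (mo_v x) le_rfl le_rfl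
  · intro ρ a B hρ hd i h1 h2
    fin_cases i
    · exact corW_cert (G1 := gB1q2) (G2 := gB1q2) (Ga := gB0q0) (Gb := gB1q0) (D1 := dB1q2) (D2 := dB1q2) (Da := dB0q0) (Db := dB1q0) cB202E_ok B hρ hen (gatB12 x) (gatB12 x) (fun _ => gatB00 x) (fun _ => gatB10 x) (datB12 x) (datB12 x) (fun _ => datB00 x) (fun _ => datB10 x) hd hx hx' CW.B202E_110
    · exact corW_cert (G1 := gB1q2) (G2 := gB1q2) (Ga := gB1q0) (Gb := gB2q0) (D1 := dB1q2) (D2 := dB1q2) (Da := dB1q0) (Db := dB2q0) cB202E_ok B hρ hen (gatB12 x) (gatB12 x) (fun _ => gatB10 x) (fun _ => gatB20 x) (datB12 x) (datB12 x) (fun _ => datB10 x) (fun _ => datB20 x) hd hx hx' CW.B202E_111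
    · exact corW_cert (G1 := gB1q2) (G2 := gB1q2) (Ga := gB2q0) (Gb := gB3q0) (D1 := dB1q2) (D2 := dB1q2) (Da := dB2q0) (Db := dB3q0) cB202E_ok B hρ hen (gatB12 x) (gatB12 x) (fun _ => gatB20 x) (fun _ => gatB30 x) (datB12 x) (datB12 x) (fun _ => datB20 x) (fun _ => datB30 x) hd hx hx' CW.B202E_112
    · exact corW_cert (G1 := gB1q2) (G2 := gB1q2) (Ga := gB3q0) (Gb := gB4q0) (D1 := dB1q2) (D2 := dB1q2) (Da := dB3q0) (Db := dB4q0) cB202E_ok B hρ hen (gatB12 x) (gatB12 x) (fun _ => gatB30 x) (fun _ => gatB40 x) (datB12 x) (datB12 x) (fun _ => datB30 x) (fun _ => datB40 x) hd hx hx' CW.B202E_113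
    · exact corW_cert (G1 := gB1q2) (G2 := gB1q2) (Ga := gB4q0) (Gb := gB5q0) (D1 := dB1q2) (D2 := dB1q2) (Da := dB4q0) (Db := dB5q0) cB202E_ok B hρ hen (gatB12 x) (gatB12 x) (fun _ => gatB40 x) (fun h => absurd h (by decide)) (datB12 x) (datB12 x) (fun _ => datB40 x) (fun h => absurd h (by decide)) hd hx hx' CW.B202E_114
    · exact absurd h2 (by norm_num)
    · exact absurd h2 (by norm_num)
  · intro ρ a B hρ hd i h1 h2
    fin_cases i
    · exact corT_cert (G1 := gB1q2) (G2 := gB1q2) (Ga := gB0q0) (Gb := gB1q0) cB202E_ok B hρ (gatB12 x) (gatB12 x) (fun _ => gatB00 x) (fun _ => gatB10 x) hd hx hx' CG.B202E_110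
    · exact corT_cert (G1 := gB1q2) (G2 := gB1q2) (Ga := gB1q0) (Gb := gB2q0) cB202E_ok B hρ (gatB12 x) (gatB12 x) (fun _ => gatB10 x) (fun _ => gatB20 x) hd hx hx' CG.B202E_111
    · exact corT_cert (G1 := gB1q2) (G2 := gB1q2) (Ga := gB2q0) (Gb := gB3q0) cB202E_ok B hρ (gatB12 x) (gatB12 x) (fun _ => gatB20 x) (fun _ => gatB30 x) hd hx hx' CG.B202E_112
    · exact corT_cert (G1 := gB1q2) (G2 := gB1q2) (Ga := gB3q0) (Gb := gB4q0) cB202E_ok B hρ (gatB12 x) (gatB12 x) (fun _ => gatB30 x) (fun _ => gatB40 x) hd hx hx' CG.B202E_113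
    · exact corT_cert (G1 := gB1q2) (G2 := gB1q2) (Ga := gB4q0) (Gb := gB5q0) cB202E_ok B hρ (gatB12 x) (gatB12 x) (fun _ => gatB40 x) (fun h => absurd h (by decide)) hd hx hx' CG.B202E_114
    · exact absurd h2 (by norm_num)
    · exact absurd h2 (by norm_num)

theorem altB_B202E_12 {κ x : ℝ} (hκ : κ * h0 = ken x) (hx : ((697932185 : ℕ) : ℝ) / S ≤ x) (hx' : x ≤ (((697932185 : ℕ) : ℝ) + (42949674 : ℕ)) / S) :
    AltEB 3 κ (eng.v x) (3 / 40) (tnt (h0 * x) (3 / 10)) PP tK tL tC pcB (scP esg pd) [⟨0, 1, 0, 67108864⟩, ⟨1, 0, 0, 67108864⟩, ⟨2, 1, 0, 67108864⟩] 2 0 2 1 2 (sgb true) (sgb false) x := by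
  have X : XR 67108864 x := XR.of hx hx' (by norm_num) (by norm_num) (by norm_num) (by norm_num)
  have hen : 0 < eng.v x := en_pos X.x0.le
  refine CornW.altB (C := cB202E) (j := (1 : Fin 8)) (k := (2 : Fin 8)) (Ef := esg) (pd := pd) (o := 3 / 40)
    (cornW_of (C := cB202E) (C0 := c0B) (En := eng) (mo := mog) (j := (1 : Fin 8)) (k := (2 : Fin 8)) (lo := 0) (hi := 4) (W := 67108864) (N0 := 3) cB202E_q (sideB hx hx') gokB (pinU hx hx') dokB X (by norm_num) (by norm_num) (l := (0 : Fin 8)) rfl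
      (gatB12 x) (gatB22 x) (gatB00 x) (datB12 x) (datB22 x) (datB00 x) ?_)
    (cornS_of (C := cB202E) (C0 := c0B) (j := (1 : Fin 8)) (k := (2 : Fin 8)) (lo := 0) (hi := 4) (W := 67108864) (N0 := 3) cB202E_q (sideB hx hx') gokB X (by norm_num) (by norm_num) (l := (0 : Fin 8)) rfl
      (gatB12 x) (gatB22 x) (gatB00 x) ?_)
    (thU (pinU hx hx')) rfl hκ (fun j q y => tC_eq j q y x) (esg_rng X.x0.le (by linarith [X.b, X.p0])).1 (mo_v x) le_rfl le_rfl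
  · intro ρ a B hρ hd i h1 h2
    fin_cases i
    · exact corW_cert (G1 := gB1q2) (G2 := gB2q2) (Ga := gB0q0) (Gb := gB1q0) (D1 := dB1q2) (D2 := dB2q2) (Da := dB0q0) (Db := dB1q0) cB202E_ok B hρ hen (gatB12 x) (gatB22 x) (fun _ => gatB00 x) (fun _ => gatB10 x) (datB12 x) (datB22 x) (fun _ => datB00 x) (fun _ => datB10 x) hd hx hx' CW.B202E_120
    · exact corW_cert (G1 := gB1q2) (G2 := gB2q2) (Ga := gB1q0) (Gb := gB2q0) (D1 := dB1q2) (D2 := dB2q2) (Da := dB1q0) (Db := dB2q0) cB202E_ok B hρ hen (gatB12 x) (gatB22 x) (fun _ => gatB10 x) (fun _ => gatB20 x) (datB12 x) (datB22 x) (fun _ => datB10 x) (fun _ => datB20 x) hd hx hx' CW.B202E_121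
    · exact corW_cert (G1 := gB1q2) (G2 := gB2q2) (Ga := gB2q0) (Gb := gB3q0) (D1 := dB1q2) (D2 := dB2q2) (Da := dB2q0) (Db := dB3q0) cB202E_ok B hρ hen (gatB12 x) (gatB22 x) (fun _ => gatB20 x) (fun _ => gatB30 x) (datB12 x) (datB22 x) (fun _ => datB20 x) (fun _ => datB30 x) hd hx hx' CW.B202E_122
    · exact corW_cert (G1 := gB1q2) (G2 := gB2q2) (Ga := gB3q0) (Gb := gB4q0) (D1 := dB1q2) (D2 := dB2q2) (Da := dB3q0) (Db := dB4q0) cB202E_ok B hρ hen (gatB12 x) (gatB22 x) (fun _ => gatB30 x) (fun _ => gatB40 x) (datB12 x) (datB22 x) (fun _ => datB30 x) (fun _ => datB40 x) hd hx hx' CW.B202E_123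
    · exact corW_cert (G1 := gB1q2) (G2 := gB2q2) (Ga := gB4q0) (Gb := gB5q0) (D1 := dB1q2) (D2 := dB2q2) (Da := dB4q0) (Db := dB5q0) cB202E_ok B hρ hen (gatB12 x) (gatB22 x) (fun _ => gatB40 x) (fun h => absurd h (by decide)) (datB12 x) (datB22 x) (fun _ => datB40 x) (fun h => absurd h (by decide)) hd hx hx' CW.B202E_124
    · exact absurd h2 (by norm_num)
    · exact absurd h2 (by norm_num)
  · intro ρ a B hρ hd i h1 h2
    fin_cases i
    · exact corT_cert (G1 := gB1q2) (G2 := gB2q2) (Ga := gB0q0) (Gb := gB1q0) cB202E_ok B hρ (gatB12 x) (gatB22 x) (fun _ => gatB00 x) (fun _ => gatB10 x) hd hx hx' CG.B202E_120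
    · exact corT_cert (G1 := gB1q2) (G2 := gB2q2) (Ga := gB1q0) (Gb := gB2q0) cB202E_ok B hρ (gatB12 x) (gatB22 x) (fun _ => gatB10 x) (fun _ => gatB20 x) hd hx hx' CG.B202E_121
    · exact corT_cert (G1 := gB1q2) (G2 := gB2q2) (Ga := gB2q0) (Gb := gB3q0) cB202E_ok B hρ (gatB12 x) (gatB22 x) (fun _ => gatB20 x) (fun _ => gatB30 x) hd hx hx' CG.B202E_122
    · exact corT_cert (G1 := gB1q2) (G2 := gB2q2) (Ga := gB3q0) (Gb := gB4q0) cB202E_ok B hρ (gatB12 x) (gatB22 x) (fun _ => gatB30 x) (fun _ => gatB40 x) hd hx hx' CG.B202E_123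
    · exact corT_cert (G1 := gB1q2) (G2 := gB2q2) (Ga := gB4q0) (Gb := gB5q0) cB202E_ok B hρ (gatB12 x) (gatB22 x) (fun _ => gatB40 x) (fun h => absurd h (by decide)) hd hx hx' CG.B202E_124
    · exact absurd h2 (by norm_num)
    · exact absurd h2 (by norm_num)

theorem altB_B202E_13 {κ x : ℝ} (hκ : κ * h0 = ken x) (hx : ((697932185 : ℕ) : ℝ) / S ≤ x) (hx' : x ≤ (((697932185 : ℕ) : ℝ) + (42949674 : ℕ)) / S) :
    AltEB 3 κ (eng.v x) (3 / 40) (tnt (h0 * x) (3 / 10)) PP tK tL tC pcB (scP esg pd) [⟨0, 1, 0, 67108864⟩, ⟨1, 0, 0, 67108864⟩, ⟨2, 1, 0, 67108864⟩] 2 0 2 1 3 (sgb true) (sgb false) x := by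
  have X : XR 67108864 x := XR.of hx hx' (by norm_num) (by norm_num) (by norm_num) (by norm_num)
  have hen : 0 < eng.v x := en_pos X.x0.le
  refine CornW.altB (C := cB202E) (j := (1 : Fin 8)) (k := (3 : Fin 8)) (Ef := esg) (pd := pd) (o := 3 / 40)
    (cornW_of (C := cB202E) (C0 := c0B) (En := eng) (mo := mog) (j := (1 : Fin 8)) (k := (3 : Fin 8)) (lo := 0) (hi := 4) (W := 67108864) (N0 := 3) cB202E_q (sideB hx hx') gokB (pinU hx hx') dokB X (by norm_num) (by norm_num) (l := (0 : Fin 8)) rfl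
      (gatB12 x) (gatB32 x) (gatB00 x) (datB12 x) (datB32 x) (datB00 x) ?_)
    (cornS_of (C := cB202E) (C0 := c0B) (j := (1 : Fin 8)) (k := (3 : Fin 8)) (lo := 0) (hi := 4) (W := 67108864) (N0 := 3) cB202E_q (sideB hx hx') gokB X (by norm_num) (by norm_num) (l := (0 : Fin 8)) rfl
      (gatB12 x) (gatB32 x) (gatB00 x) ?_)
    (thU (pinU hx hx')) rfl hκ (fun j q y => tC_eq j q y x) (esg_rng X.x0.le (by linarith [X.b, X.p0])).1 (mo_v x) le_rfl le_rfl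
  · intro ρ a B hρ hd i h1 h2
    fin_cases i
    · exact corW_cert (G1 := gB1q2) (G2 := gB3q2) (Ga := gB0q0) (Gb := gB1q0) (D1 := dB1q2) (D2 := dB3q2) (Da := dB0q0) (Db := dB1q0) cB202E_ok B hρ hen (gatB12 x) (gatB32 x) (fun _ => gatB00 x) (fun _ => gatB10 x) (datB12 x) (datB32 x) (fun _ => datB00 x) (fun _ => datB10 x) hd hx hx' CW.B202E_130
    · exact corW_cert (G1 := gB1q2) (G2 := gB3q2) (Ga := gB1q0) (Gb := gB2q0) (D1 := dB1q2) (D2 := dB3q2) (Da := dB1q0) (Db := dB2q0) cB202E_ok B hρ hen (gatB12 x) (gatB32 x) (fun _ => gatB10 x) (fun _ => gatB20 x) (datB12 x) (datB32 x) (fun _ => datB10 x) (fun _ => datB20 x) hd hx hx' CW.B202E_131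
    · exact corW_cert (G1 := gB1q2) (G2 := gB3q2) (Ga := gB2q0) (Gb := gB3q0) (D1 := dB1q2) (D2 := dB3q2) (Da := dB2q0) (Db := dB3q0) cB202E_ok B hρ hen (gatB12 x) (gatB32 x) (fun _ => gatB20 x) (fun _ => gatB30 x) (datB12 x) (datB32 x) (fun _ => datB20 x) (fun _ => datB30 x) hd hx hx' CW.B202E_132
    · exact corW_cert (G1 := gB1q2) (G2 := gB3q2) (Ga := gB3q0) (Gb := gB4q0) (D1 := dB1q2) (D2 := dB3q2) (Da := dB3q0) (Db := dB4q0) cB202E_ok B hρ hen (gatB12 x) (gatB32 x) (fun _ => gatB30 x) (fun _ => gatB40 x) (datB12 x) (datB32 x) (fun _ => datB30 x) (fun _ => datB40 x) hd hx hx' CW.B202E_133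
    · exact corW_cert (G1 := gB1q2) (G2 := gB3q2) (Ga := gB4q0) (Gb := gB5q0) (D1 := dB1q2) (D2 := dB3q2) (Da := dB4q0) (Db := dB5q0) cB202E_ok B hρ hen (gatB12 x) (gatB32 x) (fun _ => gatB40 x) (fun h => absurd h (by decide)) (datB12 x) (datB32 x) (fun _ => datB40 x) (fun h => absurd h (by decide)) hd hx hx' CW.B202E_134
    · exact absurd h2 (by norm_num)
    · exact absurd h2 (by norm_num)
  · intro ρ a B hρ hd i h1 h2
    fin_cases i
    · exact corT_cert (G1 := gB1q2) (G2 := gB3q2) (Ga := gB0q0) (Gb := gB1q0) cB202E_ok B hρ (gatB12 x) (gatB32 x) (fun _ => gatB00 x) (fun _ => gatB10 x) hd hx hx' CG.B202E_130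
    · exact corT_cert (G1 := gB1q2) (G2 := gB3q2) (Ga := gB1q0) (Gb := gB2q0) cB202E_ok B hρ (gatB12 x) (gatB32 x) (fun _ => gatB10 x) (fun _ => gatB20 x) hd hx hx' CG.B202E_131
    · exact corT_cert (G1 := gB1q2) (G2 := gB3q2) (Ga := gB2q0) (Gb := gB3q0) cB202E_ok B hρ (gatB12 x) (gatB32 x) (fun _ => gatB20 x) (fun _ => gatB30 x) hd hx hx' CG.B202E_132
    · exact corT_cert (G1 := gB1q2) (G2 := gB3q2) (Ga := gB3q0) (Gb := gB4q0) cB202E_ok B hρ (gatB12 x) (gatB32 x) (fun _ => gatB30 x) (fun _ => gatB40 x) hd hx hx' CG.B202E_133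
    · exact corT_cert (G1 := gB1q2) (G2 := gB3q2) (Ga := gB4q0) (Gb := gB5q0) cB202E_ok B hρ (gatB12 x) (gatB32 x) (fun _ => gatB40 x) (fun h => absurd h (by decide)) hd hx hx' CG.B202E_134
    · exact absurd h2 (by norm_num)
    · exact absurd h2 (by norm_num)

theorem altB_B202E_14 {κ x : ℝ} (hκ : κ * h0 = ken x) (hx : ((697932185 : ℕ) : ℝ) / S ≤ x) (hx' : x ≤ (((697932185 : ℕ) : ℝ) + (42949674 : ℕ)) / S) :
    AltEB 3 κ (eng.v x) (3 / 40) (tnt (h0 * x) (3 / 10)) PP tK tL tC pcB (scP esg pd) [⟨0, 1, 0, 67108864⟩, ⟨1, 0, 0, 67108864⟩, ⟨2, 1, 0, 67108864⟩] 2 0 2 1 4 (sgb true) (sgb false) x := by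
  have X : XR 67108864 x := XR.of hx hx' (by norm_num) (by norm_num) (by norm_num) (by norm_num)
  have hen : 0 < eng.v x := en_pos X.x0.le
  refine CornW.altB (C := cB202E) (j := (1 : Fin 8)) (k := (4 : Fin 8)) (Ef := esg) (pd := pd) (o := 3 / 40)
    (cornW_of (C := cB202E) (C0 := c0B) (En := eng) (mo := mog) (j := (1 : Fin 8)) (k := (4 : Fin 8)) (lo := 0) (hi := 4) (W := 67108864) (N0 := 3) cB202E_q (sideB hx hx') gokB (pinU hx hx') dokB X (by norm_num) (by norm_num) (l := (0 : Fin 8)) rfl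
      (gatB12 x) (gatB42 x) (gatB00 x) (datB12 x) (datB42 x) (datB00 x) ?_)
    (cornS_of (C := cB202E) (C0 := c0B) (j := (1 : Fin 8)) (k := (4 : Fin 8)) (lo := 0) (hi := 4) (W := 67108864) (N0 := 3) cB202E_q (sideB hx hx') gokB X (by norm_num) (by norm_num) (l := (0 : Fin 8)) rfl
      (gatB12 x) (gatB42 x) (gatB00 x) ?_)
    (thU (pinU hx hx')) rfl hκ (fun j q y => tC_eq j q y x) (esg_rng X.x0.le (by linarith [X.b, X.p0])).1 (mo_v x) le_rfl le_rfl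
  · intro ρ a B hρ hd i h1 h2
    fin_cases i
    · exact corW_cert (G1 := gB1q2) (G2 := gB4q2) (Ga := gB0q0) (Gb := gB1q0) (D1 := dB1q2) (D2 := dB4q2) (Da := dB0q0) (Db := dB1q0) cB202E_ok B hρ hen (gatB12 x) (gatB42 x) (fun _ => gatB00 x) (fun _ => gatB10 x) (datB12 x) (datB42 x) (fun _ => datB00 x) (fun _ => datB10 x) hd hx hx' CW.B202E_140
    · exact corW_cert (G1 := gB1q2) (G2 := gB4q2) (Ga := gB1q0) (Gb := gB2q0) (D1 := dB1q2) (D2 := dB4q2) (Da := dB1q0) (Db := dB2q0) cB202E_ok B hρ hen (gatB12 x) (gatB42 x) (fun _ => gatB10 x) (fun _ => gatB20 x) (datB12 x) (datB42 x) (fun _ => datB10 x) (fun _ => datB20 x) hd hx hx' CW.B202E_141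
    · exact corW_cert (G1 := gB1q2) (G2 := gB4q2) (Ga := gB2q0) (Gb := gB3q0) (D1 := dB1q2) (D2 := dB4q2) (Da := dB2q0) (Db := dB3q0) cB202E_ok B hρ hen (gatB12 x) (gatB42 x) (fun _ => gatB20 x) (fun _ => gatB30 x) (datB12 x) (datB42 x) (fun _ => datB20 x) (fun _ => datB30 x) hd hx hx' CW.B202E_142
    · exact corW_cert (G1 := gB1q2) (G2 := gB4q2) (Ga := gB3q0) (Gb := gB4q0) (D1 := dB1q2) (D2 := dB4q2) (Da := dB3q0) (Db := dB4q0) cB202E_ok B hρ hen (gatB12 x) (gatB42 x) (fun _ => gatB30 x) (fun _ => gatB40 x) (datB12 x) (datB42 x) (fun _ => datB30 x) (fun _ => datB40 x) hd hx hx' CW.B202E_143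
    · exact corW_cert (G1 := gB1q2) (G2 := gB4q2) (Ga := gB4q0) (Gb := gB5q0) (D1 := dB1q2) (D2 := dB4q2) (Da := dB4q0) (Db := dB5q0) cB202E_ok B hρ hen (gatB12 x) (gatB42 x) (fun _ => gatB40 x) (fun h => absurd h (by decide)) (datB12 x) (datB42 x) (fun _ => datB40 x) (fun h => absurd h (by decide)) hd hx hx' CW.B202E_144
    · exact absurd h2 (by norm_num)
    · exact absurd h2 (by norm_num)
  · intro ρ a B hρ hd i h1 h2
    fin_cases i
    · exact corT_cert (G1 := gB1q2) (G2 := gB4q2) (Ga := gB0q0) (Gb := gB1q0) cB202E_ok B hρ (gatB12 x) (gatB42 x) (fun _ => gatB00 x) (fun _ => gatB10 x) hd hx hx' CG.B202E_140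
    · exact corT_cert (G1 := gB1q2) (G2 := gB4q2) (Ga := gB1q0) (Gb := gB2q0) cB202E_ok B hρ (gatB12 x) (gatB42 x) (fun _ => gatB10 x) (fun _ => gatB20 x) hd hx hx' CG.B202E_141
    · exact corT_cert (G1 := gB1q2) (G2 := gB4q2) (Ga := gB2q0) (Gb := gB3q0) cB202E_ok B hρ (gatB12 x) (gatB42 x) (fun _ => gatB20 x) (fun _ => gatB30 x) hd hx hx' CG.B202E_142
    · exact corT_cert (G1 := gB1q2) (G2 := gB4q2) (Ga := gB3q0) (Gb := gB4q0) cB202E_ok B hρ (gatB12 x) (gatB42 x) (fun _ => gatB30 x) (fun _ => gatB40 x) hd hx hx' CG.B202E_143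
    · exact corT_cert (G1 := gB1q2) (G2 := gB4q2) (Ga := gB4q0) (Gb := gB5q0) cB202E_ok B hρ (gatB12 x) (gatB42 x) (fun _ => gatB40 x) (fun h => absurd h (by decide)) hd hx hx' CG.B202E_144
    · exact absurd h2 (by norm_num)
    · exact absurd h2 (by norm_num)

theorem altB_B202E_20 {κ x : ℝ} (hκ : κ * h0 = ken x) (hx : ((697932185 : ℕ) : ℝ) / S ≤ x) (hx' : x ≤ (((697932185 : ℕ) : ℝ) + (42949674 : ℕ)) / S) :
    AltEB 3 κ (eng.v x) (3 / 40) (tnt (h0 * x) (3 / 10)) PP tK tL tC pcB (scP esg pd) [⟨0, 1, 0, 67108864⟩, ⟨1, 0, 0, 67108864⟩, ⟨2, 1, 0, 67108864⟩] 2 0 2 2 0 (sgb true) (sgb false) x := by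
  have X : XR 67108864 x := XR.of hx hx' (by norm_num) (by norm_num) (by norm_num) (by norm_num)
  have hen : 0 < eng.v x := en_pos X.x0.le
  refine CornW.altB (C := cB202E) (j := (2 : Fin 8)) (k := (0 : Fin 8)) (Ef := esg) (pd := pd) (o := 3 / 40)
    (cornW_of (C := cB202E) (C0 := c0B) (En := eng) (mo := mog) (j := (2 : Fin 8)) (k := (0 : Fin 8)) (lo := 0) (hi := 4) (W := 67108864) (N0 := 3) cB202E_q (sideB hx hx') gokB (pinU hx hx') dokB X (by norm_num) (by norm_num) (l := (0 : Fin 8)) rfl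
      (gatB22 x) (gatB02 x) (gatB00 x) (datB22 x) (datB02 x) (datB00 x) ?_)
    (cornS_of (C := cB202E) (C0 := c0B) (j := (2 : Fin 8)) (k := (0 : Fin 8)) (lo := 0) (hi := 4) (W := 67108864) (N0 := 3) cB202E_q (sideB hx hx') gokB X (by norm_num) (by norm_num) (l := (0 : Fin 8)) rfl
      (gatB22 x) (gatB02 x) (gatB00 x) ?_)
    (thU (pinU hx hx')) rfl hκ (fun j q y => tC_eq j q y x) (esg_rng X.x0.le (by linarith [X.b, X.p0])).1 (mo_v x) le_rfl le_rfl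
  · intro ρ a B hρ hd i h1 h2
    fin_cases i
    · exact corW_cert (G1 := gB2q2) (G2 := gB0q2) (Ga := gB0q0) (Gb := gB1q0) (D1 := dB2q2) (D2 := dB0q2) (Da := dB0q0) (Db := dB1q0) cB202E_ok B hρ hen (gatB22 x) (gatB02 x) (fun _ => gatB00 x) (fun _ => gatB10 x) (datB22 x) (datB02 x) (fun _ => datB00 x) (fun _ => datB10 x) hd hx hx' CW.B202E_200
    · exact corW_cert (G1 := gB2q2) (G2 := gB0q2) (Ga := gB1q0) (Gb := gB2q0) (D1 := dB2q2) (D2 := dB0q2) (Da := dB1q0) (Db := dB2q0) cB202E_ok B hρ hen (gatB22 x) (gatB02 x) (fun _ => gatB10 x) (fun _ => gatB20 x) (datB22 x) (datB02 x) (fun _ => datB10 x) (fun _ => datB20 x) hd hx hx' CW.B202E_201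
    · exact corW_cert (G1 := gB2q2) (G2 := gB0q2) (Ga := gB2q0) (Gb := gB3q0) (D1 := dB2q2) (D2 := dB0q2) (Da := dB2q0) (Db := dB3q0) cB202E_ok B hρ hen (gatB22 x) (gatB02 x) (fun _ => gatB20 x) (fun _ => gatB30 x) (datB22 x) (datB02 x) (fun _ => datB20 x) (fun _ => datB30 x) hd hx hx' CW.B202E_202
    · exact corW_cert (G1 := gB2q2) (G2 := gB0q2) (Ga := gB3q0) (Gb := gB4q0) (D1 := dB2q2) (D2 := dB0q2) (Da := dB3q0) (Db := dB4q0) cB202E_ok B hρ hen (gatB22 x) (gatB02 x) (fun _ => gatB30 x) (fun _ => gatB40 x) (datB22 x) (datB02 x) (fun _ => datB30 x) (fun _ => datB40 x) hd hx hx' CW.B202E_203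
    · exact corW_cert (G1 := gB2q2) (G2 := gB0q2) (Ga := gB4q0) (Gb := gB5q0) (D1 := dB2q2) (D2 := dB0q2) (Da := dB4q0) (Db := dB5q0) cB202E_ok B hρ hen (gatB22 x) (gatB02 x) (fun _ => gatB40 x) (fun h => absurd h (by decide)) (datB22 x) (datB02 x) (fun _ => datB40 x) (fun h => absurd h (by decide)) hd hx hx' CW.B202E_204
    · exact absurd h2 (by norm_num)
    · exact absurd h2 (by norm_num)
  · intro ρ a B hρ hd i h1 h2
    fin_cases i
    · exact corT_cert (G1 := gB2q2) (G2 := gB0q2) (Ga := gB0q0) (Gb := gB1q0) cB202E_ok B hρ (gatB22 x) (gatB02 x) (fun _ => gatB00 x) (fun _ => gatB10 x) hd hx hx' CG.B202E_200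
    · exact corT_cert (G1 := gB2q2) (G2 := gB0q2) (Ga := gB1q0) (Gb := gB2q0) cB202E_ok B hρ (gatB22 x) (gatB02 x) (fun _ => gatB10 x) (fun _ => gatB20 x) hd hx hx' CG.B202E_201
    · exact corT_cert (G1 := gB2q2) (G2 := gB0q2) (Ga := gB2q0) (Gb := gB3q0) cB202E_ok B hρ (gatB22 x) (gatB02 x) (fun _ => gatB20 x) (fun _ => gatB30 x) hd hx hx' CG.B202E_202
    · exact corT_cert (G1 := gB2q2) (G2 := gB0q2) (Ga := gB3q0) (Gb := gB4q0) cB202E_ok B hρ (gatB22 x) (gatB02 x) (fun _ => gatB30 x) (fun _ => gatB40 x) hd hx hx' CG.B202E_203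
    · exact corT_cert (G1 := gB2q2) (G2 := gB0q2) (Ga := gB4q0) (Gb := gB5q0) cB202E_ok B hρ (gatB22 x) (gatB02 x) (fun _ => gatB40 x) (fun h => absurd h (by decide)) hd hx hx' CG.B202E_204
    · exact absurd h2 (by norm_num)
    · exact absurd h2 (by norm_num)

theorem altB_B202E_21 {κ x : ℝ} (hκ : κ * h0 = ken x) (hx : ((697932185 : ℕ) : ℝ) / S ≤ x) (hx' : x ≤ (((697932185 : ℕ) : ℝ) + (42949674 : ℕ)) / S) :
    AltEB 3 κ (eng.v x) (3 / 40) (tnt (h0 * x) (3 / 10)) PP tK tL tC pcB (scP esg pd) [⟨0, 1, 0, 67108864⟩, ⟨1, 0, 0, 67108864⟩, ⟨2, 1, 0, 67108864⟩] 2 0 2 2 1 (sgb true) (sgb false) x := by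
  have X : XR 67108864 x := XR.of hx hx' (by norm_num) (by norm_num) (by norm_num) (by norm_num)
  have hen : 0 < eng.v x := en_pos X.x0.le
  refine CornW.altB (C := cB202E) (j := (2 : Fin 8)) (k := (1 : Fin 8)) (Ef := esg) (pd := pd) (o := 3 / 40)
    (cornW_of (C := cB202E) (C0 := c0B) (En := eng) (mo := mog) (j := (2 : Fin 8)) (k := (1 : Fin 8)) (lo := 0) (hi := 4) (W := 67108864) (N0 := 3) cB202E_q (sideB hx hx') gokB (pinU hx hx') dokB X (by norm_num) (by norm_num) (l := (0 : Fin 8)) rfl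
      (gatB22 x) (gatB12 x) (gatB00 x) (datB22 x) (datB12 x) (datB00 x) ?_)
    (cornS_of (C := cB202E) (C0 := c0B) (j := (2 : Fin 8)) (k := (1 : Fin 8)) (lo := 0) (hi := 4) (W := 67108864) (N0 := 3) cB202E_q (sideB hx hx') gokB X (by norm_num) (by norm_num) (l := (0 : Fin 8)) rfl
      (gatB22 x) (gatB12 x) (gatB00 x) ?_)
    (thU (pinU hx hx')) rfl hκ (fun j q y => tC_eq j q y x) (esg_rng X.x0.le (by linarith [X.b, X.p0])).1 (mo_v x) le_rfl le_rfl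
  · intro ρ a B hρ hd i h1 h2
    fin_cases i
    · exact corW_cert (G1 := gB2q2) (G2 := gB1q2) (Ga := gB0q0) (Gb := gB1q0) (D1 := dB2q2) (D2 := dB1q2) (Da := dB0q0) (Db := dB1q0) cB202E_ok B hρ hen (gatB22 x) (gatB12 x) (fun _ => gatB00 x) (fun _ => gatB10 x) (datB22 x) (datB12 x) (fun _ => datB00 x) (fun _ => datB10 x) hd hx hx' CW.B202E_210
    · exact corW_cert (G1 := gB2q2) (G2 := gB1q2) (Ga := gB1q0) (Gb := gB2q0) (D1 := dB2q2) (D2 := dB1q2) (Da := dB1q0) (Db := dB2q0) cB202E_ok B hρ hen (gatB22 x) (gatB12 x) (fun _ => gatB10 x) (fun _ => gatB20 x) (datB22 x) (datB12 x) (fun _ => datB10 x) (fun _ => datB20 x) hd hx hx' CW.B202E_211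
    · exact corW_cert (G1 := gB2q2) (G2 := gB1q2) (Ga := gB2q0) (Gb := gB3q0) (D1 := dB2q2) (D2 := dB1q2) (Da := dB2q0) (Db := dB3q0) cB202E_ok B hρ hen (gatB22 x) (gatB12 x) (fun _ => gatB20 x) (fun _ => gatB30 x) (datB22 x) (datB12 x) (fun _ => datB20 x) (fun _ => datB30 x) hd hx hx' CW.B202E_212
    · exact corW_cert (G1 := gB2q2) (G2 := gB1q2) (Ga := gB3q0) (Gb := gB4q0) (D1 := dB2q2) (D2 := dB1q2) (Da := dB3q0) (Db := dB4q0) cB202E_ok B hρ hen (gatB22 x) (gatB12 x) (fun _ => gatB30 x) (fun _ => gatB40 x) (datB22 x) (datB12 x) (fun _ => datB30 x) (fun _ => datB40 x) hd hx hx' CW.B202E_213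
    · exact corW_cert (G1 := gB2q2) (G2 := gB1q2) (Ga := gB4q0) (Gb := gB5q0) (D1 := dB2q2) (D2 := dB1q2) (Da := dB4q0) (Db := dB5q0) cB202E_ok B hρ hen (gatB22 x) (gatB12 x) (fun _ => gatB40 x) (fun h => absurd h (by decide)) (datB22 x) (datB12 x) (fun _ => datB40 x) (fun h => absurd h (by decide)) hd hx hx' CW.B202E_214
    · exact absurd h2 (by norm_num)
    · exact absurd h2 (by norm_num)
  · intro ρ a B hρ hd i h1 h2
    fin_cases i
    · exact corT_cert (G1 := gB2q2) (G2 := gB1q2) (Ga := gB0q0) (Gb := gB1q0) cB202E_ok B hρ (gatB22 x) (gatB12 x) (fun _ => gatB00 x) (fun _ => gatB10 x) hd hx hx' CG.B202E_210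
    · exact corT_cert (G1 := gB2q2) (G2 := gB1q2) (Ga := gB1q0) (Gb := gB2q0) cB202E_ok B hρ (gatB22 x) (gatB12 x) (fun _ => gatB10 x) (fun _ => gatB20 x) hd hx hx' CG.B202E_211
    · exact corT_cert (G1 := gB2q2) (G2 := gB1q2) (Ga := gB2q0) (Gb := gB3q0) cB202E_ok B hρ (gatB22 x) (gatB12 x) (fun _ => gatB20 x) (fun _ => gatB30 x) hd hx hx' CG.B202E_212
    · exact corT_cert (G1 := gB2q2) (G2 := gB1q2) (Ga := gB3q0) (Gb := gB4q0) cB202E_ok B hρ (gatB22 x) (gatB12 x) (fun _ => gatB30 x) (fun _ => gatB40 x) hd hx hx' CG.B202E_213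
    · exact corT_cert (G1 := gB2q2) (G2 := gB1q2) (Ga := gB4q0) (Gb := gB5q0) cB202E_ok B hρ (gatB22 x) (gatB12 x) (fun _ => gatB40 x) (fun h => absurd h (by decide)) hd hx hx' CG.B202E_214
    · exact absurd h2 (by norm_num)
    · exact absurd h2 (by norm_num)

theorem altB_B202E_22 {κ x : ℝ} (hκ : κ * h0 = ken x) (hx : ((697932185 : ℕ) : ℝ) / S ≤ x) (hx' : x ≤ (((697932185 : ℕ) : ℝ) + (42949674 : ℕ)) / S) :
    AltEB 3 κ (eng.v x) (3 / 40) (tnt (h0 * x) (3 / 10)) PP tK tL tC pcB (scP esg pd) [⟨0, 1, 0, 67108864⟩, ⟨1, 0, 0, 67108864⟩, ⟨2, 1, 0, 67108864⟩] 2 0 2 2 2 (sgb true) (sgb false) x := by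
  have X : XR 67108864 x := XR.of hx hx' (by norm_num) (by norm_num) (by norm_num) (by norm_num)
  have hen : 0 < eng.v x := en_pos X.x0.le
  refine CornW.altB (C := cB202E) (j := (2 : Fin 8)) (k := (2 : Fin 8)) (Ef := esg) (pd := pd) (o := 3 / 40)
    (cornW_of (C := cB202E) (C0 := c0B) (En := eng) (mo := mog) (j := (2 : Fin 8)) (k := (2 : Fin 8)) (lo := 0) (hi := 4) (W := 67108864) (N0 := 3) cB202E_q (sideB hx hx') gokB (pinU hx hx') dokB X (by norm_num) (by norm_num) (l := (0 : Fin 8)) rfl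
      (gatB22 x) (gatB22 x) (gatB00 x) (datB22 x) (datB22 x) (datB00 x) ?_)
    (cornS_of (C := cB202E) (C0 := c0B) (j := (2 : Fin 8)) (k := (2 : Fin 8)) (lo := 0) (hi := 4) (W := 67108864) (N0 := 3) cB202E_q (sideB hx hx') gokB X (by norm_num) (by norm_num) (l := (0 : Fin 8)) rfl
      (gatB22 x) (gatB22 x) (gatB00 x) ?_)
    (thU (pinU hx hx')) rfl hκ (fun j q y => tC_eq j q y x) (esg_rng X.x0.le (by linarith [X.b, X.p0])).1 (mo_v x) le_rfl le_rfl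
  · intro ρ a B hρ hd i h1 h2
    fin_cases i
    · exact corW_cert (G1 := gB2q2) (G2 := gB2q2) (Ga := gB0q0) (Gb := gB1q0) (D1 := dB2q2) (D2 := dB2q2) (Da := dB0q0) (Db := dB1q0) cB202E_ok B hρ hen (gatB22 x) (gatB22 x) (fun _ => gatB00 x) (fun _ => gatB10 x) (datB22 x) (datB22 x) (fun _ => datB00 x) (fun _ => datB10 x) hd hx hx' CW.B202E_220
    · exact corW_cert (G1 := gB2q2) (G2 := gB2q2) (Ga := gB1q0) (Gb := gB2q0) (D1 := dB2q2) (D2 := dB2q2) (Da := dB1q0) (Db := dB2q0) cB202E_ok B hρ hen (gatB22 x) (gatB22 x) (fun _ => gatB10 x) (fun _ => gatB20 x) (datB22 x) (datB22 x) (fun _ => datB10 x) (fun _ => datB20 x) hd hx hx' CW.B202E_221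
    · exact corW_cert (G1 := gB2q2) (G2 := gB2q2) (Ga := gB2q0) (Gb := gB3q0) (D1 := dB2q2) (D2 := dB2q2) (Da := dB2q0) (Db := dB3q0) cB202E_ok B hρ hen (gatB22 x) (gatB22 x) (fun _ => gatB20 x) (fun _ => gatB30 x) (datB22 x) (datB22 x) (fun _ => datB20 x) (fun _ => datB30 x) hd hx hx' CW.B202E_222
    · exact corW_cert (G1 := gB2q2) (G2 := gB2q2) (Ga := gB3q0) (Gb := gB4q0) (D1 := dB2q2) (D2 := dB2q2) (Da := dB3q0) (Db := dB4q0) cB202E_ok B hρ hen (gatB22 x) (gatB22 x) (fun _ => gatB30 x) (fun _ => gatB40 x) (datB22 x) (datB22 x) (fun _ => datB30 x) (fun _ => datB40 x) hd hx hx' CW.B202E_223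
    · exact corW_cert (G1 := gB2q2) (G2 := gB2q2) (Ga := gB4q0) (Gb := gB5q0) (D1 := dB2q2) (D2 := dB2q2) (Da := dB4q0) (Db := dB5q0) cB202E_ok B hρ hen (gatB22 x) (gatB22 x) (fun _ => gatB40 x) (fun h => absurd h (by decide)) (datB22 x) (datB22 x) (fun _ => datB40 x) (fun h => absurd h (by decide)) hd hx hx' CW.B202E_224
    · exact absurd h2 (by norm_num)
    · exact absurd h2 (by norm_num)
  · intro ρ a B hρ hd i h1 h2
    fin_cases i
    · exact corT_cert (G1 := gB2q2) (G2 := gB2q2) (Ga := gB0q0) (Gb := gB1q0) cB202E_ok B hρ (gatB22 x) (gatB22 x) (fun _ => gatB00 x) (fun _ => gatB10 x) hd hx hx' CG.B202E_220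
    · exact corT_cert (G1 := gB2q2) (G2 := gB2q2) (Ga := gB1q0) (Gb := gB2q0) cB202E_ok B hρ (gatB22 x) (gatB22 x) (fun _ => gatB10 x) (fun _ => gatB20 x) hd hx hx' CG.B202E_221
    · exact corT_cert (G1 := gB2q2) (G2 := gB2q2) (Ga := gB2q0) (Gb := gB3q0) cB202E_ok B hρ (gatB22 x) (gatB22 x) (fun _ => gatB20 x) (fun _ => gatB30 x) hd hx hx' CG.B202E_222
    · exact corT_cert (G1 := gB2q2) (G2 := gB2q2) (Ga := gB3q0) (Gb := gB4q0) cB202E_ok B hρ (gatB22 x) (gatB22 x) (fun _ => gatB30 x) (fun _ => gatB40 x) hd hx hx' CG.B202E_223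
    · exact corT_cert (G1 := gB2q2) (G2 := gB2q2) (Ga := gB4q0) (Gb := gB5q0) cB202E_ok B hρ (gatB22 x) (gatB22 x) (fun _ => gatB40 x) (fun h => absurd h (by decide)) hd hx hx' CG.B202E_224
    · exact absurd h2 (by norm_num)
    · exact absurd h2 (by norm_num)

theorem altB_B202E_23 {κ x : ℝ} (hκ : κ * h0 = ken x) (hx : ((697932185 : ℕ) : ℝ) / S ≤ x) (hx' : x ≤ (((697932185 : ℕ) : ℝ) + (42949674 : ℕ)) / S) :
    AltEB 3 κ (eng.v x) (3 / 40) (tnt (h0 * x) (3 / 10)) PP tK tL tC pcB (scP esg pd) [⟨0, 1, 0, 67108864⟩, ⟨1, 0, 0, 67108864⟩, ⟨2, 1, 0, 67108864⟩] 2 0 2 2 3 (sgb true) (sgb false) x := by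
  have X : XR 67108864 x := XR.of hx hx' (by norm_num) (by norm_num) (by norm_num) (by norm_num)
  have hen : 0 < eng.v x := en_pos X.x0.le
  refine CornW.altB (C := cB202E) (j := (2 : Fin 8)) (k := (3 : Fin 8)) (Ef := esg) (pd := pd) (o := 3 / 40)
    (cornW_of (C := cB202E) (C0 := c0B) (En := eng) (mo := mog) (j := (2 : Fin 8)) (k := (3 : Fin 8)) (lo := 0) (hi := 4) (W := 67108864) (N0 := 3) cB202E_q (sideB hx hx') gokB (pinU hx hx') dokB X (by norm_num) (by norm_num) (l := (0 : Fin 8)) rfl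
      (gatB22 x) (gatB32 x) (gatB00 x) (datB22 x) (datB32 x) (datB00 x) ?_)
    (cornS_of (C := cB202E) (C0 := c0B) (j := (2 : Fin 8)) (k := (3 : Fin 8)) (lo := 0) (hi := 4) (W := 67108864) (N0 := 3) cB202E_q (sideB hx hx') gokB X (by norm_num) (by norm_num) (l := (0 : Fin 8)) rfl
      (gatB22 x) (gatB32 x) (gatB00 x) ?_)
    (thU (pinU hx hx')) rfl hκ (fun j q y => tC_eq j q y x) (esg_rng X.x0.le (by linarith [X.b, X.p0])).1 (mo_v x) le_rfl le_rfl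
  · intro ρ a B hρ hd i h1 h2
    fin_cases i
    · exact corW_cert (G1 := gB2q2) (G2 := gB3q2) (Ga := gB0q0) (Gb := gB1q0) (D1 := dB2q2) (D2 := dB3q2) (Da := dB0q0) (Db := dB1q0) cB202E_ok B hρ hen (gatB22 x) (gatB32 x) (fun _ => gatB00 x) (fun _ => gatB10 x) (datB22 x) (datB32 x) (fun _ => datB00 x) (fun _ => datB10 x) hd hx hx' CW.B202E_230
    · exact corW_cert (G1 := gB2q2) (G2 := gB3q2) (Ga := gB1q0) (Gb := gB2q0) (D1 := dB2q2) (D2 := dB3q2) (Da := dB1q0) (Db := dB2q0) cB202E_ok B hρ hen (gatB22 x) (gatB32 x) (fun _ => gatB10 x) (fun _ => gatB20 x) (datB22 x) (datB32 x) (fun _ => datB10 x) (fun _ => datB20 x) hd hx hx' CW.B202E_231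
    · exact corW_cert (G1 := gB2q2) (G2 := gB3q2) (Ga := gB2q0) (Gb := gB3q0) (D1 := dB2q2) (D2 := dB3q2) (Da := dB2q0) (Db := dB3q0) cB202E_ok B hρ hen (gatB22 x) (gatB32 x) (fun _ => gatB20 x) (fun _ => gatB30 x) (datB22 x) (datB32 x) (fun _ => datB20 x) (fun _ => datB30 x) hd hx hx' CW.B202E_232
    · exact corW_cert (G1 := gB2q2) (G2 := gB3q2) (Ga := gB3q0) (Gb := gB4q0) (D1 := dB2q2) (D2 := dB3q2) (Da := dB3q0) (Db := dB4q0) cB202E_ok B hρ hen (gatB22 x) (gatB32 x) (fun _ => gatB30 x) (fun _ => gatB40 x) (datB22 x) (datB32 x) (fun _ => datB30 x) (fun _ => datB40 x) hd hx hx' CW.B202E_233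
    · exact corW_cert (G1 := gB2q2) (G2 := gB3q2) (Ga := gB4q0) (Gb := gB5q0) (D1 := dB2q2) (D2 := dB3q2) (Da := dB4q0) (Db := dB5q0) cB202E_ok B hρ hen (gatB22 x) (gatB32 x) (fun _ => gatB40 x) (fun h => absurd h (by decide)) (datB22 x) (datB32 x) (fun _ => datB40 x) (fun h => absurd h (by decide)) hd hx hx' CW.B202E_234
    · exact absurd h2 (by norm_num)
    · exact absurd h2 (by norm_num)
  · intro ρ a B hρ hd i h1 h2
    fin_cases i
    · exact corT_cert (G1 := gB2q2) (G2 := gB3q2) (Ga := gB0q0) (Gb := gB1q0) cB202E_ok B hρ (gatB22 x) (gatB32 x) (fun _ => gatB00 x) (fun _ => gatB10 x) hd hx hx' CG.B202E_230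
    · exact corT_cert (G1 := gB2q2) (G2 := gB3q2) (Ga := gB1q0) (Gb := gB2q0) cB202E_ok B hρ (gatB22 x) (gatB32 x) (fun _ => gatB10 x) (fun _ => gatB20 x) hd hx hx' CG.B202E_231
    · exact corT_cert (G1 := gB2q2) (G2 := gB3q2) (Ga := gB2q0) (Gb := gB3q0) cB202E_ok B hρ (gatB22 x) (gatB32 x) (fun _ => gatB20 x) (fun _ => gatB30 x) hd hx hx' CG.B202E_232
    · exact corT_cert (G1 := gB2q2) (G2 := gB3q2) (Ga := gB3q0) (Gb := gB4q0) cB202E_ok B hρ (gatB22 x) (gatB32 x) (fun _ => gatB30 x) (fun _ => gatB40 x) hd hx hx' CG.B202E_233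
    · exact corT_cert (G1 := gB2q2) (G2 := gB3q2) (Ga := gB4q0) (Gb := gB5q0) cB202E_ok B hρ (gatB22 x) (gatB32 x) (fun _ => gatB40 x) (fun h => absurd h (by decide)) hd hx hx' CG.B202E_234
    · exact absurd h2 (by norm_num)
    · exact absurd h2 (by norm_num)

theorem altB_B202E_24 {κ x : ℝ} (hκ : κ * h0 = ken x) (hx : ((697932185 : ℕ) : ℝ) / S ≤ x) (hx' : x ≤ (((697932185 : ℕ) : ℝ) + (42949674 : ℕ)) / S) :
    AltEB 3 κ (eng.v x) (3 / 40) (tnt (h0 * x) (3 / 10)) PP tK tL tC pcB (scP esg pd) [⟨0, 1, 0, 67108864⟩, ⟨1, 0, 0, 67108864⟩, ⟨2, 1, 0, 67108864⟩] 2 0 2 2 4 (sgb true) (sgb false) x := by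
  have X : XR 67108864 x := XR.of hx hx' (by norm_num) (by norm_num) (by norm_num) (by norm_num)
  have hen : 0 < eng.v x := en_pos X.x0.le
  refine CornW.altB (C := cB202E) (j := (2 : Fin 8)) (k := (4 : Fin 8)) (Ef := esg) (pd := pd) (o := 3 / 40)
    (cornW_of (C := cB202E) (C0 := c0B) (En := eng) (mo := mog) (j := (2 : Fin 8)) (k := (4 : Fin 8)) (lo := 0) (hi := 4) (W := 67108864) (N0 := 3) cB202E_q (sideB hx hx') gokB (pinU hx hx') dokB X (by norm_num) (by norm_num) (l := (0 : Fin 8)) rfl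
      (gatB22 x) (gatB42 x) (gatB00 x) (datB22 x) (datB42 x) (datB00 x) ?_)
    (cornS_of (C := cB202E) (C0 := c0B) (j := (2 : Fin 8)) (k := (4 : Fin 8)) (lo := 0) (hi := 4) (W := 67108864) (N0 := 3) cB202E_q (sideB hx hx') gokB X (by norm_num) (by norm_num) (l := (0 : Fin 8)) rfl
      (gatB22 x) (gatB42 x) (gatB00 x) ?_)
    (thU (pinU hx hx')) rfl hκ (fun j q y => tC_eq j q y x) (esg_rng X.x0.le (by linarith [X.b, X.p0])).1 (mo_v x) le_rfl le_rfl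
  · intro ρ a B hρ hd i h1 h2
    fin_cases i
    · exact corW_cert (G1 := gB2q2) (G2 := gB4q2) (Ga := gB0q0) (Gb := gB1q0) (D1 := dB2q2) (D2 := dB4q2) (Da := dB0q0) (Db := dB1q0) cB202E_ok B hρ hen (gatB22 x) (gatB42 x) (fun _ => gatB00 x) (fun _ => gatB10 x) (datB22 x) (datB42 x) (fun _ => datB00 x) (fun _ => datB10 x) hd hx hx' CW.B202E_240
    · exact corW_cert (G1 := gB2q2) (G2 := gB4q2) (Ga := gB1q0) (Gb := gB2q0) (D1 := dB2q2) (D2 := dB4q2) (Da := dB1q0) (Db := dB2q0) cB202E_ok B hρ hen (gatB22 x) (gatB42 x) (fun _ => gatB10 x) (fun _ => gatB20 x) (datB22 x) (datB42 x) (fun _ => datB10 x) (fun _ => datB20 x) hd hx hx' CW.B202E_241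
    · exact corW_cert (G1 := gB2q2) (G2 := gB4q2) (Ga := gB2q0) (Gb := gB3q0) (D1 := dB2q2) (D2 := dB4q2) (Da := dB2q0) (Db := dB3q0) cB202E_ok B hρ hen (gatB22 x) (gatB42 x) (fun _ => gatB20 x) (fun _ => gatB30 x) (datB22 x) (datB42 x) (fun _ => datB20 x) (fun _ => datB30 x) hd hx hx' CW.B202E_242
    · exact corW_cert (G1 := gB2q2) (G2 := gB4q2) (Ga := gB3q0) (Gb := gB4q0) (D1 := dB2q2) (D2 := dB4q2) (Da := dB3q0) (Db := dB4q0) cB202E_ok B hρ hen (gatB22 x) (gatB42 x) (fun _ => gatB30 x) (fun _ => gatB40 x) (datB22 x) (datB42 x) (fun _ => datB30 x) (fun _ => datB40 x) hd hx hx' CW.B202E_243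
    · exact corW_cert (G1 := gB2q2) (G2 := gB4q2) (Ga := gB4q0) (Gb := gB5q0) (D1 := dB2q2) (D2 := dB4q2) (Da := dB4q0) (Db := dB5q0) cB202E_ok B hρ hen (gatB22 x) (gatB42 x) (fun _ => gatB40 x) (fun h => absurd h (by decide)) (datB22 x) (datB42 x) (fun _ => datB40 x) (fun h => absurd h (by decide)) hd hx hx' CW.B202E_244
    · exact absurd h2 (by norm_num)
    · exact absurd h2 (by norm_num)
  · intro ρ a B hρ hd i h1 h2
    fin_cases i
    · exact corT_cert (G1 := gB2q2) (G2 := gB4q2) (Ga := gB0q0) (Gb := gB1q0) cB202E_ok B hρ (gatB22 x) (gatB42 x) (fun _ => gatB00 x) (fun _ => gatB10 x) hd hx hx' CG.B202E_240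
    · exact corT_cert (G1 := gB2q2) (G2 := gB4q2) (Ga := gB1q0) (Gb := gB2q0) cB202E_ok B hρ (gatB22 x) (gatB42 x) (fun _ => gatB10 x) (fun _ => gatB20 x) hd hx hx' CG.B202E_241
    · exact corT_cert (G1 := gB2q2) (G2 := gB4q2) (Ga := gB2q0) (Gb := gB3q0) cB202E_ok B hρ (gatB22 x) (gatB42 x) (fun _ => gatB20 x) (fun _ => gatB30 x) hd hx hx' CG.B202E_242
    · exact corT_cert (G1 := gB2q2) (G2 := gB4q2) (Ga := gB3q0) (Gb := gB4q0) cB202E_ok B hρ (gatB22 x) (gatB42 x) (fun _ => gatB30 x) (fun _ => gatB40 x) hd hx hx' CG.B202E_243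
    · exact corT_cert (G1 := gB2q2) (G2 := gB4q2) (Ga := gB4q0) (Gb := gB5q0) cB202E_ok B hρ (gatB22 x) (gatB42 x) (fun _ => gatB40 x) (fun h => absurd h (by decide)) hd hx hx' CG.B202E_244
    · exact absurd h2 (by norm_num)
    · exact absurd h2 (by norm_num)

theorem altB_B202E_30 {κ x : ℝ} (hκ : κ * h0 = ken x) (hx : ((697932185 : ℕ) : ℝ) / S ≤ x) (hx' : x ≤ (((697932185 : ℕ) : ℝ) + (42949674 : ℕ)) / S) :
    AltEB 3 κ (eng.v x) (3 / 40) (tnt (h0 * x) (3 / 10)) PP tK tL tC pcB (scP esg pd) [⟨0, 1, 0, 67108864⟩, ⟨1, 0, 0, 67108864⟩, ⟨2, 1, 0, 67108864⟩] 2 0 2 3 0 (sgb true) (sgb false) x := by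
  have X : XR 67108864 x := XR.of hx hx' (by norm_num) (by norm_num) (by norm_num) (by norm_num)
  have hen : 0 < eng.v x := en_pos X.x0.le
  refine CornW.altB (C := cB202E) (j := (3 : Fin 8)) (k := (0 : Fin 8)) (Ef := esg) (pd := pd) (o := 3 / 40)
    (cornW_of (C := cB202E) (C0 := c0B) (En := eng) (mo := mog) (j := (3 : Fin 8)) (k := (0 : Fin 8)) (lo := 0) (hi := 4) (W := 67108864) (N0 := 3) cB202E_q (sideB hx hx') gokB (pinU hx hx') dokB X (by norm_num) (by norm_num) (l := (0 : Fin 8)) rfl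
      (gatB32 x) (gatB02 x) (gatB00 x) (datB32 x) (datB02 x) (datB00 x) ?_)
    (cornS_of (C := cB202E) (C0 := c0B) (j := (3 : Fin 8)) (k := (0 : Fin 8)) (lo := 0) (hi := 4) (W := 67108864) (N0 := 3) cB202E_q (sideB hx hx') gokB X (by norm_num) (by norm_num) (l := (0 : Fin 8)) rfl
      (gatB32 x) (gatB02 x) (gatB00 x) ?_)
    (thU (pinU hx hx')) rfl hκ (fun j q y => tC_eq j q y x) (esg_rng X.x0.le (by linarith [X.b, X.p0])).1 (mo_v x) le_rfl le_rfl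
  · intro ρ a B hρ hd i h1 h2
    fin_cases i
    · exact corW_cert (G1 := gB3q2) (G2 := gB0q2) (Ga := gB0q0) (Gb := gB1q0) (D1 := dB3q2) (D2 := dB0q2) (Da := dB0q0) (Db := dB1q0) cB202E_ok B hρ hen (gatB32 x) (gatB02 x) (fun _ => gatB00 x) (fun _ => gatB10 x) (datB32 x) (datB02 x) (fun _ => datB00 x) (fun _ => datB10 x) hd hx hx' CW.B202E_300
    · exact corW_cert (G1 := gB3q2) (G2 := gB0q2) (Ga := gB1q0) (Gb := gB2q0) (D1 := dB3q2) (D2 := dB0q2) (Da := dB1q0) (Db := dB2q0) cB202E_ok B hρ hen (gatB32 x) (gatB02 x) (fun _ => gatB10 x) (fun _ => gatB20 x) (datB32 x) (datB02 x) (fun _ => datB10 x) (fun _ => datB20 x) hd hx hx' CW.B202E_301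
    · exact corW_cert (G1 := gB3q2) (G2 := gB0q2) (Ga := gB2q0) (Gb := gB3q0) (D1 := dB3q2) (D2 := dB0q2) (Da := dB2q0) (Db := dB3q0) cB202E_ok B hρ hen (gatB32 x) (gatB02 x) (fun _ => gatB20 x) (fun _ => gatB30 x) (datB32 x) (datB02 x) (fun _ => datB20 x) (fun _ => datB30 x) hd hx hx' CW.B202E_302
    · exact corW_cert (G1 := gB3q2) (G2 := gB0q2) (Ga := gB3q0) (Gb := gB4q0) (D1 := dB3q2) (D2 := dB0q2) (Da := dB3q0) (Db := dB4q0) cB202E_ok B hρ hen (gatB32 x) (gatB02 x) (fun _ => gatB30 x) (fun _ => gatB40 x) (datB32 x) (datB02 x) (fun _ => datB30 x) (fun _ => datB40 x) hd hx hx' CW.B202E_303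
    · exact corW_cert (G1 := gB3q2) (G2 := gB0q2) (Ga := gB4q0) (Gb := gB5q0) (D1 := dB3q2) (D2 := dB0q2) (Da := dB4q0) (Db := dB5q0) cB202E_ok B hρ hen (gatB32 x) (gatB02 x) (fun _ => gatB40 x) (fun h => absurd h (by decide)) (datB32 x) (datB02 x) (fun _ => datB40 x) (fun h => absurd h (by decide)) hd hx hx' CW.B202E_304
    · exact absurd h2 (by norm_num)
    · exact absurd h2 (by norm_num)
  · intro ρ a B hρ hd i h1 h2
    fin_cases i
    · exact corT_cert (G1 := gB3q2) (G2 := gB0q2) (Ga := gB0q0) (Gb := gB1q0) cB202E_ok B hρ (gatB32 x) (gatB02 x) (fun _ => gatB00 x) (fun _ => gatB10 x) hd hx hx' CG.B202E_300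
    · exact corT_cert (G1 := gB3q2) (G2 := gB0q2) (Ga := gB1q0) (Gb := gB2q0) cB202E_ok B hρ (gatB32 x) (gatB02 x) (fun _ => gatB10 x) (fun _ => gatB20 x) hd hx hx' CG.B202E_301
    · exact corT_cert (G1 := gB3q2) (G2 := gB0q2) (Ga := gB2q0) (Gb := gB3q0) cB202E_ok B hρ (gatB32 x) (gatB02 x) (fun _ => gatB20 x) (fun _ => gatB30 x) hd hx hx' CG.B202E_302
    · exact corT_cert (G1 := gB3q2) (G2 := gB0q2) (Ga := gB3q0) (Gb := gB4q0) cB202E_ok B hρ (gatB32 x) (gatB02 x) (fun _ => gatB30 x) (fun _ => gatB40 x) hd hx hx' CG.B202E_303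
    · exact corT_cert (G1 := gB3q2) (G2 := gB0q2) (Ga := gB4q0) (Gb := gB5q0) cB202E_ok B hρ (gatB32 x) (gatB02 x) (fun _ => gatB40 x) (fun h => absurd h (by decide)) hd hx hx' CG.B202E_304
    · exact absurd h2 (by norm_num)
    · exact absurd h2 (by norm_num)

theorem altB_B202E_31 {κ x : ℝ} (hκ : κ * h0 = ken x) (hx : ((697932185 : ℕ) : ℝ) / S ≤ x) (hx' : x ≤ (((697932185 : ℕ) : ℝ) + (42949674 : ℕ)) / S) :
    AltEB 3 κ (eng.v x) (3 / 40) (tnt (h0 * x) (3 / 10)) PP tK tL tC pcB (scP esg pd) [⟨0, 1, 0, 67108864⟩, ⟨1, 0, 0, 67108864⟩, ⟨2, 1, 0, 67108864⟩] 2 0 2 3 1 (sgb true) (sgb false) x := by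
  have X : XR 67108864 x := XR.of hx hx' (by norm_num) (by norm_num) (by norm_num) (by norm_num)
  have hen : 0 < eng.v x := en_pos X.x0.le
  refine CornW.altB (C := cB202E) (j := (3 : Fin 8)) (k := (1 : Fin 8)) (Ef := esg) (pd := pd) (o := 3 / 40)
    (cornW_of (C := cB202E) (C0 := c0B) (En := eng) (mo := mog) (j := (3 : Fin 8)) (k := (1 : Fin 8)) (lo := 0) (hi := 4) (W := 67108864) (N0 := 3) cB202E_q (sideB hx hx') gokB (pinU hx hx') dokB X (by norm_num) (by norm_num) (l := (0 : Fin 8)) rfl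
      (gatB32 x) (gatB12 x) (gatB00 x) (datB32 x) (datB12 x) (datB00 x) ?_)
    (cornS_of (C := cB202E) (C0 := c0B) (j := (3 : Fin 8)) (k := (1 : Fin 8)) (lo := 0) (hi := 4) (W := 67108864) (N0 := 3) cB202E_q (sideB hx hx') gokB X (by norm_num) (by norm_num) (l := (0 : Fin 8)) rfl
      (gatB32 x) (gatB12 x) (gatB00 x) ?_)
    (thU (pinU hx hx')) rfl hκ (fun j q y => tC_eq j q y x) (esg_rng X.x0.le (by linarith [X.b, X.p0])).1 (mo_v x) le_rfl le_rfl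
  · intro ρ a B hρ hd i h1 h2
    fin_cases i
    · exact corW_cert (G1 := gB3q2) (G2 := gB1q2) (Ga := gB0q0) (Gb := gB1q0) (D1 := dB3q2) (D2 := dB1q2) (Da := dB0q0) (Db := dB1q0) cB202E_ok B hρ hen (gatB32 x) (gatB12 x) (fun _ => gatB00 x) (fun _ => gatB10 x) (datB32 x) (datB12 x) (fun _ => datB00 x) (fun _ => datB10 x) hd hx hx' CW.B202E_310
    · exact corW_cert (G1 := gB3q2) (G2 := gB1q2) (Ga := gB1q0) (Gb := gB2q0) (D1 := dB3q2) (D2 := dB1q2) (Da := dB1q0) (Db := dB2q0) cB202E_ok B hρ hen (gatB32 x) (gatB12 x) (fun _ => gatB10 x) (fun _ => gatB20 x) (datB32 x) (datB12 x) (fun _ => datB10 x) (fun _ => datB20 x) hd hx hx' CW.B202E_311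
    · exact corW_cert (G1 := gB3q2) (G2 := gB1q2) (Ga := gB2q0) (Gb := gB3q0) (D1 := dB3q2) (D2 := dB1q2) (Da := dB2q0) (Db := dB3q0) cB202E_ok B hρ hen (gatB32 x) (gatB12 x) (fun _ => gatB20 x) (fun _ => gatB30 x) (datB32 x) (datB12 x) (fun _ => datB20 x) (fun _ => datB30 x) hd hx hx' CW.B202E_312
    · exact corW_cert (G1 := gB3q2) (G2 := gB1q2) (Ga := gB3q0) (Gb := gB4q0) (D1 := dB3q2) (D2 := dB1q2) (Da := dB3q0) (Db := dB4q0) cB202E_ok B hρ hen (gatB32 x) (gatB12 x) (fun _ => gatB30 x) (fun _ => gatB40 x) (datB32 x) (datB12 x) (fun _ => datB30 x) (fun _ => datB40 x) hd hx hx' CW.B202E_313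
    · exact corW_cert (G1 := gB3q2) (G2 := gB1q2) (Ga := gB4q0) (Gb := gB5q0) (D1 := dB3q2) (D2 := dB1q2) (Da := dB4q0) (Db := dB5q0) cB202E_ok B hρ hen (gatB32 x) (gatB12 x) (fun _ => gatB40 x) (fun h => absurd h (by decide)) (datB32 x) (datB12 x) (fun _ => datB40 x) (fun h => absurd h (by decide)) hd hx hx' CW.B202E_314
    · exact absurd h2 (by norm_num)
    · exact absurd h2 (by norm_num)
  · intro ρ a B hρ hd i h1 h2
    fin_cases i
    · exact corT_cert (G1 := gB3q2) (G2 := gB1q2) (Ga := gB0q0) (Gb := gB1q0) cB202E_ok B hρ (gatB32 x) (gatB12 x) (fun _ => gatB00 x) (fun _ => gatB10 x) hd hx hx' CG.B202E_310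
    · exact corT_cert (G1 := gB3q2) (G2 := gB1q2) (Ga := gB1q0) (Gb := gB2q0) cB202E_ok B hρ (gatB32 x) (gatB12 x) (fun _ => gatB10 x) (fun _ => gatB20 x) hd hx hx' CG.B202E_311
    · exact corT_cert (G1 := gB3q2) (G2 := gB1q2) (Ga := gB2q0) (Gb := gB3q0) cB202E_ok B hρ (gatB32 x) (gatB12 x) (fun _ => gatB20 x) (fun _ => gatB30 x) hd hx hx' CG.B202E_312
    · exact corT_cert (G1 := gB3q2) (G2 := gB1q2) (Ga := gB3q0) (Gb := gB4q0) cB202E_ok B hρ (gatB32 x) (gatB12 x) (fun _ => gatB30 x) (fun _ => gatB40 x) hd hx hx' CG.B202E_313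
    · exact corT_cert (G1 := gB3q2) (G2 := gB1q2) (Ga := gB4q0) (Gb := gB5q0) cB202E_ok B hρ (gatB32 x) (gatB12 x) (fun _ => gatB40 x) (fun h => absurd h (by decide)) hd hx hx' CG.B202E_314
    · exact absurd h2 (by norm_num)
    · exact absurd h2 (by norm_num)

theorem altB_B202E_32 {κ x : ℝ} (hκ : κ * h0 = ken x) (hx : ((697932185 : ℕ) : ℝ) / S ≤ x) (hx' : x ≤ (((697932185 : ℕ) : ℝ) + (42949674 : ℕ)) / S) :
    AltEB 3 κ (eng.v x) (3 / 40) (tnt (h0 * x) (3 / 10)) PP tK tL tC pcB (scP esg pd) [⟨0, 1, 0, 67108864⟩, ⟨1, 0, 0, 67108864⟩, ⟨2, 1, 0, 67108864⟩] 2 0 2 3 2 (sgb true) (sgb false) x := by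
  have X : XR 67108864 x := XR.of hx hx' (by norm_num) (by norm_num) (by norm_num) (by norm_num)
  have hen : 0 < eng.v x := en_pos X.x0.le
  refine CornW.altB (C := cB202E) (j := (3 : Fin 8)) (k := (2 : Fin 8)) (Ef := esg) (pd := pd) (o := 3 / 40)
    (cornW_of (C := cB202E) (C0 := c0B) (En := eng) (mo := mog) (j := (3 : Fin 8)) (k := (2 : Fin 8)) (lo := 0) (hi := 4) (W := 67108864) (N0 := 3) cB202E_q (sideB hx hx') gokB (pinU hx hx') dokB X (by norm_num) (by norm_num) (l := (0 : Fin 8)) rfl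
      (gatB32 x) (gatB22 x) (gatB00 x) (datB32 x) (datB22 x) (datB00 x) ?_)
    (cornS_of (C := cB202E) (C0 := c0B) (j := (3 : Fin 8)) (k := (2 : Fin 8)) (lo := 0) (hi := 4) (W := 67108864) (N0 := 3) cB202E_q (sideB hx hx') gokB X (by norm_num) (by norm_num) (l := (0 : Fin 8)) rfl
      (gatB32 x) (gatB22 x) (gatB00 x) ?_)
    (thU (pinU hx hx')) rfl hκ (fun j q y => tC_eq j q y x) (esg_rng X.x0.le (by linarith [X.b, X.p0])).1 (mo_v x) le_rfl le_rfl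
  · intro ρ a B hρ hd i h1 h2
    fin_cases i
    · exact corW_cert (G1 := gB3q2) (G2 := gB2q2) (Ga := gB0q0) (Gb := gB1q0) (D1 := dB3q2) (D2 := dB2q2) (Da := dB0q0) (Db := dB1q0) cB202E_ok B hρ hen (gatB32 x) (gatB22 x) (fun _ => gatB00 x) (fun _ => gatB10 x) (datB32 x) (datB22 x) (fun _ => datB00 x) (fun _ => datB10 x) hd hx hx' CW.B202E_320
    · exact corW_cert (G1 := gB3q2) (G2 := gB2q2) (Ga := gB1q0) (Gb := gB2q0) (D1 := dB3q2) (D2 := dB2q2) (Da := dB1q0) (Db := dB2q0) cB202E_ok B hρ hen (gatB32 x) (gatB22 x) (fun _ => gatB10 x) (fun _ => gatB20 x) (datB32 x) (datB22 x) (fun _ => datB10 x) (fun _ => datB20 x) hd hx hx' CW.B202E_321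
    · exact corW_cert (G1 := gB3q2) (G2 := gB2q2) (Ga := gB2q0) (Gb := gB3q0) (D1 := dB3q2) (D2 := dB2q2) (Da := dB2q0) (Db := dB3q0) cB202E_ok B hρ hen (gatB32 x) (gatB22 x) (fun _ => gatB20 x) (fun _ => gatB30 x) (datB32 x) (datB22 x) (fun _ => datB20 x) (fun _ => datB30 x) hd hx hx' CW.B202E_322
    · exact corW_cert (G1 := gB3q2) (G2 := gB2q2) (Ga := gB3q0) (Gb := gB4q0) (D1 := dB3q2) (D2 := dB2q2) (Da := dB3q0) (Db := dB4q0) cB202E_ok B hρ hen (gatB32 x) (gatB22 x) (fun _ => gatB30 x) (fun _ => gatB40 x) (datB32 x) (datB22 x) (fun _ => datB30 x) (fun _ => datB40 x) hd hx hx' CW.B202E_323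
    · exact corW_cert (G1 := gB3q2) (G2 := gB2q2) (Ga := gB4q0) (Gb := gB5q0) (D1 := dB3q2) (D2 := dB2q2) (Da := dB4q0) (Db := dB5q0) cB202E_ok B hρ hen (gatB32 x) (gatB22 x) (fun _ => gatB40 x) (fun h => absurd h (by decide)) (datB32 x) (datB22 x) (fun _ => datB40 x) (fun h => absurd h (by decide)) hd hx hx' CW.B202E_324
    · exact absurd h2 (by norm_num)
    · exact absurd h2 (by norm_num)
  · intro ρ a B hρ hd i h1 h2
    fin_cases i
    · exact corT_cert (G1 := gB3q2) (G2 := gB2q2) (Ga := gB0q0) (Gb := gB1q0) cB202E_ok B hρ (gatB32 x) (gatB22 x) (fun _ => gatB00 x) (fun _ => gatB10 x) hd hx hx' CG.B202E_320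
    · exact corT_cert (G1 := gB3q2) (G2 := gB2q2) (Ga := gB1q0) (Gb := gB2q0) cB202E_ok B hρ (gatB32 x) (gatB22 x) (fun _ => gatB10 x) (fun _ => gatB20 x) hd hx hx' CG.B202E_321
    · exact corT_cert (G1 := gB3q2) (G2 := gB2q2) (Ga := gB2q0) (Gb := gB3q0) cB202E_ok B hρ (gatB32 x) (gatB22 x) (fun _ => gatB20 x) (fun _ => gatB30 x) hd hx hx' CG.B202E_322
    · exact corT_cert (G1 := gB3q2) (G2 := gB2q2) (Ga := gB3q0) (Gb := gB4q0) cB202E_ok B hρ (gatB32 x) (gatB22 x) (fun _ => gatB30 x) (fun _ => gatB40 x) hd hx hx' CG.B202E_323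
    · exact corT_cert (G1 := gB3q2) (G2 := gB2q2) (Ga := gB4q0) (Gb := gB5q0) cB202E_ok B hρ (gatB32 x) (gatB22 x) (fun _ => gatB40 x) (fun h => absurd h (by decide)) hd hx hx' CG.B202E_324
    · exact absurd h2 (by norm_num)
    · exact absurd h2 (by norm_num)

end Pool.Agent.Strip051.G.I6500_6900.Tab
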