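import Pool.Agent.Strip051.G.I6500_6900.Tab
import Pool.Agent.Strip051.PB.ExtD2

/-! # Certificates B28 (generated) -/

set_option linter.all false
set_option maxRecDepth 100000

namespace Pool.Agent.Strip051.G.I6500_6900.Tab.C.BB11

open Pool.Agent.Strip051.PB Pool.Agent.Strip051.PB.T
open Pool.Agent.Strip051.G.I6500_6900.Tab

noncomputable def f_pm_101 : ℕ → ℕ → ℕ → ℕ → Bool := onCell 0 536870912 536870912 536870912 697932185 42949674
    (rowB 3 eng mog cd1q1 cd1q1 pd0 2 false true false .npn 1 0 1 (qsf 536870912 536870912 536870912 536870912 0) ndB1q1 ndB1q1 pcB0 Cut.none Ext.none)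

def k0_pm_101 : ∃ t, chk3 f_pm_101 t 1 2 1 = true :=
  ⟨(b (l 4) (a (a (b (l 4) (a (b (a (l 16548696) (l 16566792)) (a (l 16524992) (l 16530088))) (b (l 4) (a (l 16539072) (l 16550816))))) (l 4)) (l 4))), by decide +kernel⟩

def k1_pm_101 : ∃ t, chk3 f_pm_101 t 2 3 1 = true :=
  ⟨(a (b (a (a (b (l 16695664) (b (l 16542824) (l 16555224))) (b (l 16543688) (b (l 16536768) (l 16551824)))) (b (a (l 16579704) (b (l 16515064) (l 16508360))) (a (l 16534048) (l 16519136)))) (b (b (a (b (l 16567624) (a (b (l 16579416) (l 16577760)) (l 16578688))) (a (l 16568904) (l 16554008))) (a (a (l 16580360) (l 16578488)) (b (a (l 16574744) (l 16618560)) (l 16642576)))) (b (a (a (l 16589184) (l 16585456)) (a (l 16583936) (l 16583032))) (a (a (b (l 16596480) (b (l 16602488) (l 16602224))) (b (l 16594120) (l 16794000))) (a (a (l 16599560) (l 16596032)) (l 16594704)))))) (b (a (b (a (b (l 16516088) (l 16497816)) (b (a (l 16518016) (l 16521168)) (l 16484152))) (a (l 16502248) (b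 (l 16473096) (l 16478176)))) (b (b (l 4) (a (l 16473400) (l 16510320))) (a (b (l 16443672) (l 16433736)) (b (l 16417488) (l 16392032))))) (a (b (b (a (l 16535312) (l 16498808)) (a (b (l 16566952) (l 16571640)) (b (l 16522752) (l 16620360)))) (a (b (l 16623960) (a (l 16593136) (l 16591408))) (b (l 16674008) (a (l 16573920) (l 16544128))))) (b (b (a (l 16439320) (l 16382032)) (a (a (l 16545096) (l 16444632)) (l 16388120))) (b (a (l 16472872) (b (l 16389824) (l 16395688))) (a (l 16489744) (l 16405384))))))), by decide +kernel⟩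

def k2_pm_101 : ∃ t, chk3 f_pm_101 t 3 3 1 = true :=
  ⟨(a (a (b (b (a (b (l 4) (l 16466088)) (l 4)) (a (b (l 16396232) (l 16353104)) (b (l 16425232) (l 16316160)))) (a (b (b (l 16326888) (l 16314096)) (b (b (l 16312416) (l 16310496)) (l 16313528))) (b (l 16258872) (b (b (l 16232584) (a (l 16245872) (l 16208008))) (a (b (l 16245288) (l 16248456)) (l 16244904)))))) (b (b (l 4) (a (b (l 16407352) (l 16287424)) (b (l 4) (a (l 16330536) (l 16355856))))) (b (a (l 16270976) (b (l 16267888) (l 16233504))) (b (b (l 16220968) (a (l 16242824) (l 16199880))) (a (a (l 16204544) (l 16167368)) (a (l 16164640) (l 16176808))))))) (b (a (b (l 1) (b (l 1) (a (l 144988021063) (l 1)))) (l 1)) (a (b (a (b (l 16286032) (l 16240544)) (b (l 128881772295) (l 16259280))) (b (a (l 16200024) (l 16209512)) (a (l 16164112) (l 16166080)))) (b (b (l 1) (a (l 16286920) (l 1))) (b (l 98816952471) (a (l 16184576) (l 16211472))))))), by decide +kernel⟩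

theorem s3_pm_101 : ∃ t, chk3 f_pm_101 t 1 3 1 = true := ex3_a k1_pm_101 k2_pm_101

theorem s4_pm_101 : ∃ t, chk3 f_pm_101 t 1 1 1 = true := ex3_b k0_pm_101 s3_pm_101

theorem c_pm_101 : CertB 536870912 536870912 536870912 536870912 697932185 42949674 3 eng mog cd1q1 cd1q1 pd0 false true false .npn 1 0 1
    ndB1q1 ndB1q1 pcB0 Cut.none Ext.none :=
  certB2 (fam := false) (s1 := true) (s2 := false) (a := 1) (b := 0) (c := 1) (cn := .npn) (n1 := ndB1q1) (n2 := ndB1q1) (pc := pcB0) (cut := Cut.none) (xt := Ext.none) (P1 := 536870912) (W1 := 536870912) (P2 := 536870912) (W2 := 536870912) (P3 := 697932185) (W3 := 42949674) (N0 := 3) (En := eng) (mo := mog) (C1 := cd1q1) (C2 := cd1q1) (C3 := pd0)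
    rfl (fun _ => rfl) s4_pm_101

noncomputable def f_pm_102_a : ℕ → ℕ → ℕ → ℕ → Bool := onCell 536870912 536870912 0 536870912 697932185 42949674
    (rowB 3 eng mog cd1q1 cd1q2a pd0 0 false true false .npp 1 0 2 (qsf 536870912 536870912 0 536870912 0) ndB1q1 ndB1q2a pcB0 Cut.none Ext.none)

def k0_pm_102_a : ∃ t, chk3 f_pm_102_a t 2 2 1 = true :=
  ⟨(a (b (l 2) (b (l 2) (a (l 2) (a (l 2) (l 16600920))))) (b (a (a (a (l 2) (b (a (l 2) (b (l 16726800) (l 16717448))) (l 16695560))) (b (b (a (b (l 16727752) (l 16725392)) (l 16725768)) (a (l 16720096) (b (l 16722960) (l 16720040)))) (l 16705304))) (b (a (b (a (b (a (l 16723304) (l 148880913255)) (l 16723304)) (b (l 161228921863) (a (l 16720408) (l 150491522375)))) (a (b (l 16722736) (l 16720752)) (b (l 16720552) (l 16720272)))) (b (a (b (l 3) (l 164450140743)) (l 3)) (a (b (a (l 16717328) (l 139217220487)) (l 16717704)) (b (l 173576939319) (a (l 16714120) (l 147807148215)))))) (a (b (a (l 16716472) (b (l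 16718712) (l 16716568))) (l 16709600)) (b (a (b (l 16717840) (a (l 16717104) (l 16716392))) (b (l 16714736) (l 16715384))) (a (l 16714296) (b (a (l 16715432) (l 16714472)) (l 16714144))))))) (a (b (a (l 16682040) (b (l 16684560) (l 16669264))) (b (l 16640776) (l 16612912))) (b (a (b (l 16699272) (l 16688304)) (b (l 16710328) (l 16702976))) (b (a (l 16672800) (l 16695104)) (l 16724832)))))), by decide +kernel⟩

def k1_pm_102_a : ∃ t, chk3 f_pm_102_a t 2 3 1 = true :=
  ⟨(a (a (b (l 2) (b (b (l 16358400) (l 16325536)) (b (l 16304800) (l 16391040)))) (b (b (b (l 16608976) (l 16503648)) (l 16442728)) (b (b (l 16344096) (l 16350840)) (b (l 16377096) (a (l 16292600) (l 16320720)))))) (b (a (b (b (l 16617376) (l 16504032)) (b (l 16454152) (l 16401408))) (b (b (l 16668784) (a (l 16554400) (l 16583352))) (a (l 16498744) (b (a (l 16549400) (l 16576704)) (l 16553200))))) (b (a (b (l 16398656) (a (l 16377264) (b (l 16435520) (l 16436336)))) (b (a (l 16498480) (l 16538232))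 (a (b (l 16503968) (l 16490496)) (b (c (l 16515464) (l 16505008)) (b (l 16536584) (l 16492152)))))) (a (b (a (b (l 16372064) (l 16413696)) (a (b (l 16417496) (l 16405896)) (b (l 16439832) (l 16419416)))) (a (b (a (l 16359216) (l 16377904)) (a (l 16395840) (a (l 16353072) (b (l 16352168) (l 16333632))))) (a (b (b (l 16384992) (l 16372032)) (b (l 16363632) (l 16364016))) (b (l 16412112) (a (l 16409168) (l 16444016)))))) (b (a (b (b (l 16476648) (l 16470664)) (a (l 16453152) (a (l 16479192) (l 16472128)))) (b (a (l 16482656) (l 16527176)) (a (b (l 16503632) (l 16499736)) (a (l 16517080) (l 16535696))))) (a (b (a (b (l 16458648) (l 16468040)) (b (l 16470416) (b (l 16469504) (l 16486496)))) (a (a (b (l 16469160) (l 16482536)) (b (l 16467128) (l 16482816))) (b (l 16477680) (a (l 16445208) (a (l 16459832) (l 16467824)))))) (a (b (b (l 16621432) (a (l 16482992) (l 16499440))) (b (a (l 16480952) (l 16503592)) (l 16496520))) (l 16556576)))))))), by decide +kernel⟩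

def k2_pm_102_a : ∃ t, chk3 f_pm_102_a t 6 2 1 = true :=
  ⟨(a (b (a (b (b (l 3) (a (b (l 3) (l 176261286407)) (l 3))) (b (a (b (a (l 81772025223) (l 147807132535)) (l 16711552)) (b (l 3) (a (l 149954624151) (l 170355702631)))) (a (b (l 16712856) (a (l 16713944) (l 16712616))) (b (a (l 16709504) (l 16706488)) (l 16710088))))) (b (l 3) (b (l 3) (a (b (a (l 149417746855) (l 180019370487)) (a (l 16705952) (l 83382619783))) (b (l 3) (a (l 149417728679) (l 173040037591))))))) (b (a (b (a (b (l 16713472) (l 16713056)) (b (a (l 16712664) (l 16710880)) (l 16713120))) (l 16713208)) (b (a (b (l 16707512) (a (l 16711592) (l 16709480))) (b (a (l 16702848) (l 157470792167)) (l 16704544))) (a (b (l 16713152) (l 16715088)) (b (a (l 16710856) (l 16706512)) (l 16712464))))) (a (b (b (l 16711424) (l 16709136)) (l 16702568)) (b (a (l 16717592) (l 16717200)) (a (l 16716824) (l 16720888)))))) (b (l 3) (b (a (a (b (b (a (l 153712683559) (l 3)) (a (l 86066957559) (l 149954593863)))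 (b (a (l 16702024) (l 16697488)) (a (l 16706648) (l 16702208)))) (b (b (l 3) (a (l 159081383239) (l 3))) (b (a (b (l 140290913959) (l 16694472)) (l 147270225143)) (a (l 16698232) (l 16694200))))) (b (l 3) (a (b (a (l 144585860935) (l 3)) (a (l 139754043895) (l 145122734535))) (l 3)))) (a (b (a (b (l 16709128) (l 16713336)) (b (a (l 16703360) (l 16699360)) (l 16707048))) (l 16717288)) (b (a (b (a (l 16695480) (l 16691376)) (a (l 16701272) (l 16697336))) (b (a (l 151565200567) (l 140290889975)) (a (l 16693344) (l 101099338599)))) (a (b (l 16705656) (l 16711344)) (b (a (l 16699792) (l 16695864)) (a (l 16706400) (l 16702936))))))))), by decide +kernel⟩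

def k3_pm_102_a : ∃ t, chk3 f_pm_102_a t 7 2 1 = true :=
  ⟨(a (b (l 3) (b (l 3) (a (b (a (b (l 3) (a (l 137069679799) (l 3))) (l 3)) (a (b (a (l 16691616) (l 145122749383)) (a (l 16698880) (l 16694880))) (b (a (l 127942859895) (l 3)) (a (l 143512142519) (l 110226080247))))) (l 3)))) (l 3)), by decide +kernel⟩

def k4_pm_102_a : ∃ t, chk3 f_pm_102_a t 6 3 1 = true :=
  ⟨(b (b (a (a (b (l 16678760) (l 16625272)) (b (l 16712040) (l 16676504))) (a (b (a (l 16723456) (l 16722880)) (l 16718888)) (b (a (l 16719424) (l 16714424)) (a (l 16728632) (l 16726544))))) (a (b (a (a (l 16600600) (l 16602616)) (b (l 16659696) (l 16655400))) (a (b (l 16600768) (l 16591648)) (l 16651880))) (b (a (l 16687440) (l 16728496)) (a (l 16684464) (l 16665480))))) (a (b (a (b (l 16581000) (a (a (l 16532176) (l 16575112)) (l 16599496))) (b (l 16643336) (l 16651240))) (b (a (l 16585424) (l 16722120)) (a (a (l 16599624) (l 16619088)) (a (l 16656920) (l 16688848))))) (b (b (a (l 16684848)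 (l 16717336)) (a (l 16635608) (b (l 16730768) (l 16744896)))) (a (b (l 16709288) (a (l 16711944) (l 16753800))) (a (b (l 16739736) (b (l 16746752) (l 16770192))) (b (l 16711752) (a (l 16813328) (l 16748312)))))))), by decide +kernel⟩

def k5_pm_102_a : ∃ t, chk3 f_pm_102_a t 14 6 1 = true :=
  ⟨(b (a (b (a (b (a (l 16706320) (l 16702736)) (l 16711472)) (b (a (l 16698768) (l 16694784)) (a (l 16706920) (l 16702960)))) (a (b (l 16718424) (l 16724992)) (l 16715592))) (b (a (b (a (l 149417734327) (b (l 3) (l 139217137367))) (a (l 16698328) (b (l 16692832) (l 16696552)))) (b (l 3) (a (b (l 143512093991) (l 185924975623)) (l 3)))) (a (b (a (l 16705992) (b (l 16700024) (l 16703184))) (a (l 16713224) (b (l 16706736) (l 16710800)))) (b (a (b (l 16696832) (l 16699648)) (b (l 137069632855) (l 166060762359))) (a (b (l 16702424) (l 16706120)) (b (l 16699592) (l 16701872))))))) (a (b (b (l 16729784) (l 16736584)) (l 16741776)) (b (a (b (l 16719632) (l 16728960)) (b (a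 (l 16712808) (b (l 16705528) (l 16709888))) (l 16719496))) (a (l 16741504) (b (l 16728264) (l 16734976)))))), by decide +kernel⟩

def k6_pm_102_a : ∃ t, chk3 f_pm_102_a t 15 6 1 = true :=
  ⟨(b (a (b (l 3) (a (b (a (b (l 3) (l 177334993287)) (l 3)) (a (b (l 193978035335) (l 16698904)) (b (l 3) (l 191830537911)))) (l 3))) (l 3)) (a (b (a (b (a (b (l 16701456) (l 16704680)) (b (l 168208242583) (l 16701160))) (a (l 16710600) (b (l 16703800) (l 16707256)))) (b (a (b (a (l 153175770167) (l 3)) (a (l 16696760) (l 138143385687))) (b (l 3) (a (l 175724385031) (l 3)))) (a (b (a (l 16701576) (l 16699544)) (a (l 16703840) (l 16702120))) (b (a (l 140827745095) (l 188609291415)) (a (l 16701184) (l 16697848)))))) (a (b (a (l 16718432) (l 16712736)) (l 16681160)) (b (a (b (a (l 16706952) (l 16704960)) (l 16709352)) (b (a (l 16703120) (l 16701720)) (a (l 16706200) (l 16704704)))) (a (l 16692960) (l 16709784))))) (b (a (b (l 3) (a (b (l 3) (a (l 187535549671) (l 3))) (l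 3))) (l 3)) (a (b (a (b (a (l 16700320) (l 173040029207)) (a (l 16702944) (l 16701392))) (b (a (l 191830521591) (l 3)) (a (l 139217154663) (l 204715452599)))) (a (b (a (l 16706216) (l 16704696)) (l 16707448)) (b (a (l 16702280) (l 183777496247)) (a (l 16705496) (l 16702416))))) (b (l 3) (a (b (a (l 183240614007) (l 3)) (b (l 182703749303) (l 182166883271))) (a (l 169281955447) (l 3)))))))), by decide +kernel⟩

def k7_pm_102_a : ∃ t, chk3 f_pm_102_a t 7 7 1 = true :=
  ⟨(b (a (b (a (b (l 16736064) (l 16741472)) (b (l 16745888) (l 16686112))) (a (b (l 16752320) (l 16762304)) (b (l 16743952) (l 16748784)))) (a (b (a (b (l 16728960) (l 16734488)) (b (a (l 16720384) (l 16693864)) (l 16722936))) (b (a (l 16742960) (l 16710240)) (a (l 16745976) (l 16738872)))) (b (a (b (a (b (l 16708888) (l 16710392)) (b (l 16706016) (l 16705832))) (a (l 16714152) (b (l 16707472) (l 16710016)))) (b (a (b (a (l 16702584) (a (l 16700328) (l 16699512))) (a (l 16703160) (l 16702336)))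 (b (a (l 170892578103) (l 177871887847)) (a (b (l 16699112) (l 16699768)) (l 164450123943)))) (a (b (l 16702768) (l 16684048)) (b (a (l 16701520) (b (l 16698520) (l 16699840))) (a (l 16701256) (l 16699728)))))) (a (b (b (l 16716952) (l 16721200)) (b (l 16725592) (l 16729832))) (b (a (b (l 16708560) (l 16712496)) (b (a (l 16704928) (l 16702344)) (l 16707352))) (b (a (l 16717264) (l 16711448)) (a (l 16721464) (l 16715928)))))))) (a (b (a (a (l 16693224) (l 16750296)) (l 16739776)) (a (l 16760808) (l 16726128))) (a (b (b (l 16734440) (l 16723384)) (b (l 16716016) (l 16710288))) (b (a (b (l 16732096) (l 16723504)) (b (b (l 16717112) (l 16717568)) (l 16713000))) (a (b (l 16708256) (l 16700680)) (b (l 16705936) (l 16698280))))))), by decide +kernel⟩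

theorem s8_pm_102_a : ∃ t, chk3 f_pm_102_a t 7 6 1 = true := ex3_a k5_pm_102_a k6_pm_102_a

theorem s9_pm_102_a : ∃ t, chk3 f_pm_102_a t 7 3 1 = true := ex3_b s8_pm_102_a k7_pm_102_a

theorem s10_pm_102_a : ∃ t, chk3 f_pm_102_a t 3 3 1 = true := ex3_a k4_pm_102_a s9_pm_102_a

theorem s11_pm_102_a : ∃ t, chk3 f_pm_102_a t 3 2 1 = true := ex3_a k2_pm_102_a k3_pm_102_a

theorem s12_pm_102_a : ∃ t, chk3 f_pm_102_a t 3 1 1 = true := ex3_b s11_pm_102_a s10_pm_102_a

theorem s13_pm_102_a : ∃ t, chk3 f_pm_102_a t 2 1 1 = true := ex3_b k0_pm_102_a k1_pm_102_a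

theorem s14_pm_102_a : ∃ t, chk3 f_pm_102_a t 1 1 1 = true := ex3_a s13_pm_102_a s12_pm_102_a

theorem c_pm_102_a : CertB 536870912 536870912 0 536870912 697932185 42949674 3 eng mog cd1q1 cd1q2a pd0 false true false .npp 1 0 2
    ndB1q1 ndB1q2a pcB0 Cut.none Ext.none :=
  certB0 (fam := false) (s1 := true) (s2 := false) (a := 1) (b := 0) (c := 2) (cn := .npp) (n1 := ndB1q1) (n2 := ndB1q2a) (pc := pcB0) (cut := Cut.none) (xt := Ext.none) (P1 := 536870912) (W1 := 536870912) (P2 := 0) (W2 := 536870912) (P3 := 697932185) (W3 := 42949674) (N0 := 3) (En := eng) (mo := mog) (C1 := cd1q1) (C2 := cd1q2a) (C3 := pd0)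
    rfl s14_pm_102_a

noncomputable def f_pm_102_b : ℕ → ℕ → ℕ → ℕ → Bool := onCell 0 536870912 1239849684 370763052 697932185 42949674
    (rowB 3 eng mog cd1q1 cd1q2b pd0 2 false true false .npp 1 0 2 (qsf 536870912 536870912 1239849684 370763052 0) ndB1q1 ndB1q2b pcB0 Cut.none Ext.none)

def k0_pm_102_b : ∃ t, chk3 f_pm_102_b t 1 1 1 = true :=
  ⟨(a (l 3) (a (b (l 3) (l 3)) (b (a (l 3) (b (a (b (a (l 3) (b (a (l 3) (l 148880902951)) (l 3))) (l 3)) (b (a (b (a (l 16714632) (l 16716936)) (l 149417756231)) (b (l 16719368) (l 16699912))) (a (l 3) (l 153175823879)))) (l 3))) (l 3)))), by decide +kernel⟩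

theorem c_pm_102_b : CertB 536870912 536870912 1239849684 370763052 697932185 42949674 3 eng mog cd1q1 cd1q2b pd0 false true false .npp 1 0 2
    ndB1q1 ndB1q2b pcB0 Cut.none Ext.none :=
  certB2 (fam := false) (s1 := true) (s2 := false) (a := 1) (b := 0) (c := 2) (cn := .npp) (n1 := ndB1q1) (n2 := ndB1q2b) (pc := pcB0) (cut := Cut.none) (xt := Ext.none) (P1 := 536870912) (W1 := 536870912) (P2 := 1239849684) (W2 := 370763052) (P3 := 697932185) (W3 := 42949674) (N0 := 3) (En := eng) (mo := mog) (C1 := cd1q1) (C2 := cd1q2b) (C3 := pd0)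
    rfl (fun _ => rfl) k0_pm_102_b

noncomputable def f_pm_112_a : ℕ → ℕ → ℕ → ℕ → Bool := onCell 536870912 536870912 0 536870912 697932185 42949674
    (rowB 3 eng mog cd1q1 cd1q2a pd1 0 false true false .dn 1 1 2 (qsf 536870912 536870912 0 536870912 1) ndB1q1 ndB1q2a pcB1 Cut.none Ext.none)

def k0_pm_112_a : ∃ t, chk3 f_pm_112_a t 1 1 1 = true :=
  ⟨(a (b (a (b (a (b (a (l 16638664) (l 16681664)) (l 16613616)) (a (b (l 16681232) (l 16666976)) (b (l 16697576) (a (l 16657760) (l 16664232))))) (b (a (l 16579528) (l 16678928)) (a (b (l 16554568) (l 16533384)) (a (l 16566792) (l 16580072))))) (a (a (b (b (b (a (l 16713576) (l 16757824)) (l 16699648)) (b (l 16682848) (l 16663800))) (b (l 16700456) (l 16591792))) (b (b (l 1) (l 1)) (l 1))) (l 1))) (b (a (b (a (l 16580304) (b (l 16530256) (l 16494048))) (a (l 16513704) (l 16511472))) (l 1)) (a (b (a (b (l 16368168) (l 16326328)) (b (l 16348464) (l 1))) (a (l 19896869431) (l 1))) (l 1)))) (l 1)), by decide +kernel⟩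

theorem c_pm_112_a : CertB 536870912 536870912 0 536870912 697932185 42949674 3 eng mog cd1q1 cd1q2a pd1 false true false .dn 1 1 2
    ndB1q1 ndB1q2a pcB1 Cut.none Ext.none :=
  certB0 (fam := false) (s1 := true) (s2 := false) (a := 1) (b := 1) (c := 2) (cn := .dn) (n1 := ndB1q1) (n2 := ndB1q2a) (pc := pcB1) (cut := Cut.none) (xt := Ext.none) (P1 := 536870912) (W1 := 536870912) (P2 := 0) (W2 := 536870912) (P3 := 697932185) (W3 := 42949674) (N0 := 3) (En := eng) (mo := mog) (C1 := cd1q1) (C2 := cd1q2a) (C3 := pd1)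
    rfl k0_pm_112_a

noncomputable def f_pm_112_b : ℕ → ℕ → ℕ → ℕ → Bool := onCell 536870912 536870912 536870912 536870912 697932185 42949674
    (rowB 3 eng mog cd1q1 cd1q2b pd1 1 false true false .dn 1 1 2 (qsf 536870912 536870912 1239849684 370763052 1) ndB1q1 ndB1q2b pcB1 Cut.none Ext.none)

def k0_pm_112_b : ∃ t, chk3 f_pm_112_b t 1 1 1 = true :=
  ⟨(b (b (a (b (a (a (l 1) (b (a (l 1) (l 146062421623)) (a (l 16723320) (l 16712592)))) (b (a (a (b (l 16724456) (l 16714464)) (l 16700496)) (a (l 16677208) (l 177335054583))) (a (a (l 16699480) (l 16681400)) (a (l 16661248) (l 16636568))))) (a (a (b (l 111165705063) (l 140693656471)) (b (l 16693880) (l 16667344))) (b (a (l 16672080) (l 16637784)) (a (l 16651512) (l 16628392))))) (a (a (b (b (l 3) (a (l 16607504) (l 3))) (b (a (l 16602816) (l 3)) (a (l 16602536) (l 16578744)))) (l 3)) (l 3))) (a (a (b (a (l 127808765575) (l 16624576)) (a (l 16559944) (l 16562112))) (b (a (l 16621824) (b (l 16622256) (l 16618312)))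 (l 16598328))) (a (b (a (a (l 16611608) (b (l 16590408) (l 16611432))) (a (a (l 179482388487) (l 168208038535)) (l 3))) (a (b (l 16638736) (l 16670680)) (b (l 247061109111) (l 2)))) (b (l 3) (l 2))))) (b (a (a (b (a (l 16477600) (l 16495520)) (a (l 16387048) (l 16426712))) (b (l 16578888) (l 16564640))) (a (a (a (l 16745528) (l 2)) (l 2)) (l 2))) (a (a (b (l 16323992) (l 16251832)) (b (l 16564064) (l 2))) (l 2)))), by decide +kernel⟩

theorem c_pm_112_b : CertB 536870912 536870912 1239849684 370763052 697932185 42949674 3 eng mog cd1q1 cd1q2b pd1 false true false .dn 1 1 2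
    ndB1q1 ndB1q2b pcB1 Cut.none Ext.none :=
  certB1 (fam := false) (s1 := true) (s2 := false) (a := 1) (b := 1) (c := 2) (cn := .dn) (n1 := ndB1q1) (n2 := ndB1q2b) (pc := pcB1) (cut := Cut.none) (xt := Ext.none) (P1 := 536870912) (W1 := 536870912) (P2 := 1239849684) (W2 := 370763052) (P3 := 697932185) (W3 := 42949674) (N0 := 3) (En := eng) (mo := mog) (C1 := cd1q1) (C2 := cd1q2b) (C3 := pd1)
    rfl (fun _ => rfl) k0_pm_112_b

noncomputable def f_pm_113 : ℕ → ℕ → ℕ → ℕ → Bool := onCell 536870912 536870912 536870912 536870912 697932185 42949674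
    (rowB 3 eng mog cd1q1 cd1q3 pd1 1 false true false .nn 1 1 3 (qsf 536870912 536870912 1610612736 536870912 1) ndB1q1 ndB1q3 pcB1 Cut.none Ext.none)

def k0_pm_113 : ∃ t, chk3 f_pm_113 t 1 1 1 = true :=
  ⟨(b (b (a (l 1) (a (a (l 1) (l 3)) (l 3))) (a (a (l 1) (b (l 1) (l 16599632))) (a (b (a (a (l 1) (l 168610863591)) (b (l 234243283495) (l 180556186391))) (a (b (l 16638104) (l 16670672)) (b (a (l 16638256) (l 16627976)) (a (l 16701112) (l 16708536))))) (b (l 3) (a (b (l 3) (a (l 235853819175) (l 3))) (l 3)))))) (b (a (a (b (l 1) (l 127808445591)) (b (l 16580192) (l 16584920))) (b (a (b (a (l 16711808) (a (l 16782024) (l 16817496))) (a (l 16761704) (a (l 16882512) (l 16925136)))) (a (b (a (l 16765120) (l 312626500327)) (a (l 16831040) (b (l 16738152) (l 16770696)))) (l 3))) (a (b (a (l 16820000) (l 16945552)) (l 16927560)) (a (b (a (l 16910944) (l 16825376)) (a (l 16979064) (l 16887544))) (b (a (l 270750401655) (l 3)) (a (b (l 16796360) (l 16821688))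 (l 335175165159))))))) (a (a (b (l 16326096) (l 16251032)) (b (l 16559096) (l 16565808))) (a (b (a (l 16783520) (l 16875072)) (a (l 16690416) (l 16765584))) (b (a (b (a (l 16976232) (l 16937504)) (l 16913744)) (b (a (l 16857008) (b (l 347523343095) (l 16798184))) (a (l 16884912) (b (l 16811168) (l 16818216))))) (a (l 16819328) (b (a (l 16872208) (l 16821984)) (a (l 16808456) (l 16809672))))))))), by decide +kernel⟩

theorem c_pm_113 : CertB 536870912 536870912 1610612736 536870912 697932185 42949674 3 eng mog cd1q1 cd1q3 pd1 false true false .nn 1 1 3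
    ndB1q1 ndB1q3 pcB1 Cut.none Ext.none :=
  certB1 (fam := false) (s1 := true) (s2 := false) (a := 1) (b := 1) (c := 3) (cn := .nn) (n1 := ndB1q1) (n2 := ndB1q3) (pc := pcB1) (cut := Cut.none) (xt := Ext.none) (P1 := 536870912) (W1 := 536870912) (P2 := 1610612736) (W2 := 536870912) (P3 := 697932185) (W3 := 42949674) (N0 := 3) (En := eng) (mo := mog) (C1 := cd1q1) (C2 := cd1q3) (C3 := pd1)
    rfl (fun _ => rfl) k0_pm_113

noncomputable def f_pm_123 : ℕ → ℕ → ℕ → ℕ → Bool := onCell 1073741824 536870912 1610612736 536870912 697932185 42949674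
    (rowB 3 eng mog cd1q1 cd1q3 pd2 2 false true false .npn 1 2 3 (qsf 536870912 536870912 1610612736 536870912 2) ndB1q1 ndB1q3 pcB2 Cut.none Ext.none)

def k0_pm_123 : ∃ t, chk3 f_pm_123 t 1 1 1 = true :=
  ⟨(a (b (a (b (a (l 16170992) (l 16124200)) (a (l 16430544) (l 16271128))) (a (b (l 184716228999) (l 16200888)) (b (l 1) (l 16198440)))) (a (b (a (b (l 16555976) (l 16619320)) (l 16455504)) (a (b (l 16678944) (a (l 16746496) (l 16691208))) (b (l 16539304) (l 16590024)))) (b (a (a (l 16373080) (l 16335352)) (l 16347616)) (a (b (l 16463104) (a (a (l 16528480) (l 16504064)) (l 16481112))) (l 16666040))))) (a (b (a (b (l 1) (l 16259736)) (l 1)) (a (b (l 16364816) (l 16502336)) (b (l 16398736) (l 16606904)))) (b (l 1) (a (l 16624944) (l 16412504))))), by decide +kernel⟩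

theorem c_pm_123 : CertB 536870912 536870912 1610612736 536870912 697932185 42949674 3 eng mog cd1q1 cd1q3 pd2 false true false .npn 1 2 3
    ndB1q1 ndB1q3 pcB2 Cut.none Ext.none :=
  certB2 (fam := false) (s1 := true) (s2 := false) (a := 1) (b := 2) (c := 3) (cn := .npn) (n1 := ndB1q1) (n2 := ndB1q3) (pc := pcB2) (cut := Cut.none) (xt := Ext.none) (P1 := 536870912) (W1 := 536870912) (P2 := 1610612736) (W2 := 536870912) (P3 := 697932185) (W3 := 42949674) (N0 := 3) (En := eng) (mo := mog) (C1 := cd1q1) (C2 := cd1q3) (C3 := pd2)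
    rfl (fun _ => rfl) k0_pm_123

noncomputable def f_pm_133 : ℕ → ℕ → ℕ → ℕ → Bool := onCell 1610612736 536870912 1610612736 536870912 697932185 42949674
    (rowB 3 eng mog cd1q1 cd1q3 pd3 2 false true false .dn 1 3 3 (qsf 536870912 536870912 1610612736 536870912 3) ndB1q1 ndB1q3 pcB3 Cut.none Ext.none)

def k0_pm_133 : ∃ t, chk3 f_pm_133 t 1 1 1 = true :=
  ⟨(a (b (l 1) (a (a (l 16656024) (l 1)) (l 1))) (l 1)), by decide +kernel⟩

theorem c_pm_133 : CertB 536870912 536870912 1610612736 536870912 697932185 42949674 3 eng mog cd1q1 cd1q3 pd3 false true false .dn 1 3 3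
    ndB1q1 ndB1q3 pcB3 Cut.none Ext.none :=
  certB2 (fam := false) (s1 := true) (s2 := false) (a := 1) (b := 3) (c := 3) (cn := .dn) (n1 := ndB1q1) (n2 := ndB1q3) (pc := pcB3) (cut := Cut.none) (xt := Ext.none) (P1 := 536870912) (W1 := 536870912) (P2 := 1610612736) (W2 := 536870912) (P3 := 697932185) (W3 := 42949674) (N0 := 3) (En := eng) (mo := mog) (C1 := cd1q1) (C2 := cd1q3) (C3 := pd3)
    rfl (fun _ => rfl) k0_pm_133

noncomputable def cut_pm_202_aa : Cut := Cut.of [[⟨0, 1, 0, 67108864⟩, ⟨1, 0, 0, 67108864⟩, ⟨2, 1, 0, 67108864⟩]]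

noncomputable def f_pm_202_aa : ℕ → ℕ → ℕ → ℕ → Bool := onCell 0 536870912 0 536870912 697932185 42949674
    (rowB 3 eng mog cd1q2a cd1q2a pd0 0 false true false .pp 2 0 2 (qsf 0 536870912 0 536870912 0) ndB1q2a ndB1q2a pcB0 cut_pm_202_aa Ext.none)

def k0_pm_202_aa : ∃ t, chk3 f_pm_202_aa t 1 1 1 = true :=
  ⟨(a (l 3) (b (l 3) (a (l 3) (b (l 3) (b (l 3) (a (l 3) (l 6))))))), by decide +kernel⟩

theorem c_pm_202_aa : CertB 0 536870912 0 536870912 697932185 42949674 3 eng mog cd1q2a cd1q2a pd0 false true false .pp 2 0 2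
    ndB1q2a ndB1q2a pcB0 cut_pm_202_aa Ext.none :=
  certB0 (fam := false) (s1 := true) (s2 := false) (a := 2) (b := 0) (c := 2) (cn := .pp) (n1 := ndB1q2a) (n2 := ndB1q2a) (pc := pcB0) (cut := cut_pm_202_aa) (xt := Ext.none) (P1 := 0) (W1 := 536870912) (P2 := 0) (W2 := 536870912) (P3 := 697932185) (W3 := 42949674) (N0 := 3) (En := eng) (mo := mog) (C1 := cd1q2a) (C2 := cd1q2a) (C3 := pd0)
    rfl k0_pm_202_aa

noncomputable def cut_pm_202_ab : Cut := Cut.of [[⟨0, 1, 0, 67108864⟩, ⟨1, 0, 0, 67108864⟩, ⟨2, 1, 0, 67108864⟩]]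

noncomputable def f_pm_202_ab : ℕ → ℕ → ℕ → ℕ → Bool := onCell 0 536870912 1239849684 370763052 697932185 42949674
    (rowB 3 eng mog cd1q2a cd1q2b pd0 0 false true false .pp 2 0 2 (qsf 0 536870912 1239849684 370763052 0) ndB1q2a ndB1q2b pcB0 cut_pm_202_ab Ext.none)

def k0_pm_202_ab : ∃ t, chk3 f_pm_202_ab t 1 1 1 = true :=
  ⟨(l 3), by decide +kernel⟩

theorem c_pm_202_ab : CertB 0 536870912 1239849684 370763052 697932185 42949674 3 eng mog cd1q2a cd1q2b pd0 false true false .pp 2 0 2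
    ndB1q2a ndB1q2b pcB0 cut_pm_202_ab Ext.none :=
  certB0 (fam := false) (s1 := true) (s2 := false) (a := 2) (b := 0) (c := 2) (cn := .pp) (n1 := ndB1q2a) (n2 := ndB1q2b) (pc := pcB0) (cut := cut_pm_202_ab) (xt := Ext.none) (P1 := 0) (W1 := 536870912) (P2 := 1239849684) (W2 := 370763052) (P3 := 697932185) (W3 := 42949674) (N0 := 3) (En := eng) (mo := mog) (C1 := cd1q2a) (C2 := cd1q2b) (C3 := pd0)
    rfl k0_pm_202_ab

noncomputable def cut_pm_202_ba : Cut := Cut.of [[⟨0, 1, 0, 67108864⟩, ⟨1, 0, 0, 67108864⟩, ⟨2, 1, 0, 67108864⟩]]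

noncomputable def f_pm_202_ba : ℕ → ℕ → ℕ → ℕ → Bool := onCell 1239849684 370763052 0 536870912 697932185 42949674
    (rowB 3 eng mog cd1q2b cd1q2a pd0 0 false true false .pp 2 0 2 (qsf 1239849684 370763052 0 536870912 0) ndB1q2b ndB1q2a pcB0 cut_pm_202_ba Ext.none)

def k0_pm_202_ba : ∃ t, chk3 f_pm_202_ba t 1 1 1 = true :=
  ⟨(l 3), by decide +kernel⟩

theorem c_pm_202_ba : CertB 1239849684 370763052 0 536870912 697932185 42949674 3 eng mog cd1q2b cd1q2a pd0 false true false .pp 2 0 2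
    ndB1q2b ndB1q2a pcB0 cut_pm_202_ba Ext.none :=
  certB0 (fam := false) (s1 := true) (s2 := false) (a := 2) (b := 0) (c := 2) (cn := .pp) (n1 := ndB1q2b) (n2 := ndB1q2a) (pc := pcB0) (cut := cut_pm_202_ba) (xt := Ext.none) (P1 := 1239849684) (W1 := 370763052) (P2 := 0) (W2 := 536870912) (P3 := 697932185) (W3 := 42949674) (N0 := 3) (En := eng) (mo := mog) (C1 := cd1q2b) (C2 := cd1q2a) (C3 := pd0)
    rfl k0_pm_202_ba

noncomputable def cut_pm_202_bb : Cut := Cut.of [[⟨0, 1, 0, 67108864⟩, ⟨1, 0, 0, 67108864⟩, ⟨2, 1, 0, 67108864⟩]]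

noncomputable def f_pm_202_bb : ℕ → ℕ → ℕ → ℕ → Bool := onCell 1239849684 370763052 1239849684 370763052 697932185 42949674
    (rowB 3 eng mog cd1q2b cd1q2b pd0 0 false true false .pp 2 0 2 (qsf 1239849684 370763052 1239849684 370763052 0) ndB1q2b ndB1q2b pcB0 cut_pm_202_bb Ext.none)

def k0_pm_202_bb : ∃ t, chk3 f_pm_202_bb t 1 1 1 = true :=
  ⟨(l 3), by decide +kernel⟩

theorem c_pm_202_bb : CertB 1239849684 370763052 1239849684 370763052 697932185 42949674 3 eng mog cd1q2b cd1q2b pd0 false true false .pp 2 0 2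
    ndB1q2b ndB1q2b pcB0 cut_pm_202_bb Ext.none :=
  certB0 (fam := false) (s1 := true) (s2 := false) (a := 2) (b := 0) (c := 2) (cn := .pp) (n1 := ndB1q2b) (n2 := ndB1q2b) (pc := pcB0) (cut := cut_pm_202_bb) (xt := Ext.none) (P1 := 1239849684) (W1 := 370763052) (P2 := 1239849684) (W2 := 370763052) (P3 := 697932185) (W3 := 42949674) (N0 := 3) (En := eng) (mo := mog) (C1 := cd1q2b) (C2 := cd1q2b) (C3 := pd0)
    rfl k0_pm_202_bb

noncomputable def f_pm_203_a : ℕ → ℕ → ℕ → ℕ → Bool := onCell 0 536870912 0 536870912 697932185 42949674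
    (rowB 3 eng mog cd1q2a cd1q3 pd0 1 false true false .up 2 0 3 (qsf 0 536870912 1610612736 536870912 0) ndB1q2a ndB1q3 pcB0 Cut.none Ext.none)

def k0_pm_203_a : ∃ t, chk3 f_pm_203_a t 1 1 1 = true :=
  ⟨(l 3), by decide +kernel⟩

theorem c_pm_203_a : CertB 0 536870912 1610612736 536870912 697932185 42949674 3 eng mog cd1q2a cd1q3 pd0 false true false .up 2 0 3
    ndB1q2a ndB1q3 pcB0 Cut.none Ext.none :=
  certB1 (fam := false) (s1 := true) (s2 := false) (a := 2) (b := 0) (c := 3) (cn := .up) (n1 := ndB1q2a) (n2 := ndB1q3) (pc := pcB0) (cut := Cut.none) (xt := Ext.none) (P1 := 0) (W1 := 536870912) (P2 := 1610612736) (W2 := 536870912) (P3 := 697932185) (W3 := 42949674) (N0 := 3) (En := eng) (mo := mog) (C1 := cd1q2a) (C2 := cd1q3) (C3 := pd0)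
    rfl (fun _ => rfl) k0_pm_203_a

noncomputable def f_pm_203_b : ℕ → ℕ → ℕ → ℕ → Bool := onCell 1239849684 370763052 1610612736 536870912 697932185 42949674
    (rowB 3 eng mog cd1q2b cd1q3 pd0 0 false true false .up 2 0 3 (qsf 1239849684 370763052 1610612736 536870912 0) ndB1q2b ndB1q3 pcB0 Cut.none Ext.none)

def k0_pm_203_b : ∃ t, chk3 f_pm_203_b t 1 1 1 = true :=
  ⟨(l 3), by decide +kernel⟩

theorem c_pm_203_b : CertB 1239849684 370763052 1610612736 536870912 697932185 42949674 3 eng mog cd1q2b cd1q3 pd0 false true false .up 2 0 3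
    ndB1q2b ndB1q3 pcB0 Cut.none Ext.none :=
  certB0 (fam := false) (s1 := true) (s2 := false) (a := 2) (b := 0) (c := 3) (cn := .up) (n1 := ndB1q2b) (n2 := ndB1q3) (pc := pcB0) (cut := Cut.none) (xt := Ext.none) (P1 := 1239849684) (W1 := 370763052) (P2 := 1610612736) (W2 := 536870912) (P3 := 697932185) (W3 := 42949674) (N0 := 3) (En := eng) (mo := mog) (C1 := cd1q2b) (C2 := cd1q3) (C3 := pd0)
    rfl k0_pm_203_b

noncomputable def cut_pm_213_a : Cut := Cut.of [[⟨0, 1, 0, 67108864⟩, ⟨1, 1, 0, 67108864⟩, ⟨2, 2, 0, 16777216⟩]]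

noncomputable def f_pm_213_a : ℕ → ℕ → ℕ → ℕ → Bool := onCell 0 536870912 1610612736 536870912 697932185 42949674
    (rowB 3 eng mog cd1q2a cd1q3 pd1 0 false true false .pnn 2 1 3 (qsf 0 536870912 1610612736 536870912 1) ndB1q2a ndB1q3 pcB1 cut_pm_213_a Ext.none)

def k0_pm_213_a : ∃ t, chk3 f_pm_213_a t 1 1 1 = true :=
  ⟨(b (l 3) (a (l 3) (b (l 3) (a (l 3) (b (l 3) (a (l 3) (b (l 3) (b (l 3) (b (l 3) (l 6)))))))))), by decide +kernel⟩

theorem c_pm_213_a : CertB 0 536870912 1610612736 536870912 697932185 42949674 3 eng mog cd1q2a cd1q3 pd1 false true false .pnn 2 1 3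
    ndB1q2a ndB1q3 pcB1 cut_pm_213_a Ext.none :=
  certB0 (fam := false) (s1 := true) (s2 := false) (a := 2) (b := 1) (c := 3) (cn := .pnn) (n1 := ndB1q2a) (n2 := ndB1q3) (pc := pcB1) (cut := cut_pm_213_a) (xt := Ext.none) (P1 := 0) (W1 := 536870912) (P2 := 1610612736) (W2 := 536870912) (P3 := 697932185) (W3 := 42949674) (N0 := 3) (En := eng) (mo := mog) (C1 := cd1q2a) (C2 := cd1q3) (C3 := pd1)
    rfl k0_pm_213_a

noncomputable def cut_pm_213_b : Cut := Cut.of [[⟨0, 1, 0, 67108864⟩, ⟨1, 1, 0, 67108864⟩, ⟨2, 2, 0, 16777216⟩]]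

noncomputable def f_pm_213_b : ℕ → ℕ → ℕ → ℕ → Bool := onCell 1239849684 370763052 1610612736 536870912 697932185 42949674
    (rowB 3 eng mog cd1q2b cd1q3 pd1 0 false true false .pnn 2 1 3 (qsf 1239849684 370763052 1610612736 536870912 1) ndB1q2b ndB1q3 pcB1 cut_pm_213_b Ext.none)

def k0_pm_213_b : ∃ t, chk3 f_pm_213_b t 1 1 1 = true :=
  ⟨(l 3), by decide +kernel⟩

theorem c_pm_213_b : CertB 1239849684 370763052 1610612736 536870912 697932185 42949674 3 eng mog cd1q2b cd1q3 pd1 false true false .pnn 2 1 3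
    ndB1q2b ndB1q3 pcB1 cut_pm_213_b Ext.none :=
  certB0 (fam := false) (s1 := true) (s2 := false) (a := 2) (b := 1) (c := 3) (cn := .pnn) (n1 := ndB1q2b) (n2 := ndB1q3) (pc := pcB1) (cut := cut_pm_213_b) (xt := Ext.none) (P1 := 1239849684) (W1 := 370763052) (P2 := 1610612736) (W2 := 536870912) (P3 := 697932185) (W3 := 42949674) (N0 := 3) (En := eng) (mo := mog) (C1 := cd1q2b) (C2 := cd1q3) (C3 := pd1)
    rfl k0_pm_213_b

noncomputable def f_pm_303 : ℕ → ℕ → ℕ → ℕ → Bool := onCell 1610612736 536870912 1610612736 536870912 697932185 42949674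
    (rowB 3 eng mog cd1q3 cd1q3 pd0 0 false true false .npn 3 0 3 (qsf 1610612736 536870912 1610612736 536870912 0) ndB1q3 ndB1q3 pcB0 Cut.none Ext.none)

def k0_pm_303 : ∃ t, chk3 f_pm_303 t 1 1 1 = true :=
  ⟨(l 3), by decide +kernel⟩

theorem c_pm_303 : CertB 1610612736 536870912 1610612736 536870912 697932185 42949674 3 eng mog cd1q3 cd1q3 pd0 false true false .npn 3 0 3
    ndB1q3 ndB1q3 pcB0 Cut.none Ext.none :=
  certB0 (fam := false) (s1 := true) (s2 := false) (a := 3) (b := 0) (c := 3) (cn := .npn) (n1 := ndB1q3) (n2 := ndB1q3) (pc := pcB0) (cut := Cut.none) (xt := Ext.none) (P1 := 1610612736) (W1 := 536870912) (P2 := 1610612736) (W2 := 536870912) (P3 := 697932185) (W3 := 42949674) (N0 := 3) (En := eng) (mo := mog) (C1 := cd1q3) (C2 := cd1q3) (C3 := pd0)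
    rfl k0_pm_303

noncomputable def f_pm_313 : ℕ → ℕ → ℕ → ℕ → Bool := onCell 1610612736 536870912 1610612736 536870912 697932185 42949674
    (rowB 3 eng mog cd1q3 cd1q3 pd1 0 false true false .dn 3 1 3 (qsf 1610612736 536870912 1610612736 536870912 1) ndB1q3 ndB1q3 pcB1 Cut.none Ext.none)

def k0_pm_313 : ∃ t, chk3 f_pm_313 t 1 1 1 = true :=
  ⟨(l 3), by decide +kernel⟩

theorem c_pm_313 : CertB 1610612736 536870912 1610612736 536870912 697932185 42949674 3 eng mog cd1q3 cd1q3 pd1 false true false .dn 3 1 3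
    ndB1q3 ndB1q3 pcB1 Cut.none Ext.none :=
  certB0 (fam := false) (s1 := true) (s2 := false) (a := 3) (b := 1) (c := 3) (cn := .dn) (n1 := ndB1q3) (n2 := ndB1q3) (pc := pcB1) (cut := Cut.none) (xt := Ext.none) (P1 := 1610612736) (W1 := 536870912) (P2 := 1610612736) (W2 := 536870912) (P3 := 697932185) (W3 := 42949674) (N0 := 3) (En := eng) (mo := mog) (C1 := cd1q3) (C2 := cd1q3) (C3 := pd1)
    rfl k0_pm_313

noncomputable def f_mm_001 : ℕ → ℕ → ℕ → ℕ → Bool := onCell 0 536870912 0 536870912 697932185 42949674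
    (rowB 3 eng mog cd1q0 cd1q1 pd0 1 false false false .up 0 0 1 (qsf 0 536870912 536870912 536870912 0) ndB1q0 ndB1q1 pcB0 Cut.none Ext.none)

def k0_mm_001 : ∃ t, chk3 f_mm_001 t 1 1 1 = true :=
  ⟨(l 3), by decide +kernel⟩

theorem c_mm_001 : CertB 0 536870912 536870912 536870912 697932185 42949674 3 eng mog cd1q0 cd1q1 pd0 false false false .up 0 0 1
    ndB1q0 ndB1q1 pcB0 Cut.none Ext.none :=
  certB1 (fam := false) (s1 := false) (s2 := false) (a := 0) (b := 0) (c := 1) (cn := .up) (n1 := ndB1q0) (n2 := ndB1q1) (pc := pcB0) (cut := Cut.none) (xt := Ext.none) (P1 := 0) (W1 := 536870912) (P2 := 536870912) (W2 := 536870912) (P3 := 697932185) (W3 := 42949674) (N0 := 3) (En := eng) (mo := mog) (C1 := cd1q0) (C2 := cd1q1) (C3 := pd0)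
    rfl (fun _ => rfl) k0_mm_001

noncomputable def f_mm_011 : ℕ → ℕ → ℕ → ℕ → Bool := onCell 0 536870912 536870912 536870912 697932185 42949674
    (rowB 3 eng mog cd1q0 cd1q1 pd1 1 false false false .pnn 0 1 1 (qsf 0 536870912 536870912 536870912 1) ndB1q0 ndB1q1 pcB1 Cut.none Ext.none)

def k0_mm_011 : ∃ t, chk3 f_mm_011 t 1 1 1 = true :=
  ⟨(l 5), by decide +kernel⟩

theorem c_mm_011 : CertB 0 536870912 536870912 536870912 697932185 42949674 3 eng mog cd1q0 cd1q1 pd1 false false false .pnn 0 1 1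
    ndB1q0 ndB1q1 pcB1 Cut.none Ext.none :=
  certB1 (fam := false) (s1 := false) (s2 := false) (a := 0) (b := 1) (c := 1) (cn := .pnn) (n1 := ndB1q0) (n2 := ndB1q1) (pc := pcB1) (cut := Cut.none) (xt := Ext.none) (P1 := 0) (W1 := 536870912) (P2 := 536870912) (W2 := 536870912) (P3 := 697932185) (W3 := 42949674) (N0 := 3) (En := eng) (mo := mog) (C1 := cd1q0) (C2 := cd1q1) (C3 := pd1)
    rfl (fun _ => rfl) k0_mm_011

noncomputable def f_mm_012_a : ℕ → ℕ → ℕ → ℕ → Bool := onCell 0 536870912 0 536870912 697932185 42949674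
    (rowB 3 eng mog cd1q0 cd1q2a pd1 0 false false false .pnp 0 1 2 (qsf 0 536870912 0 536870912 1) ndB1q0 ndB1q2a pcB1 Cut.none Ext.none)

def k0_mm_012_a : ∃ t, chk3 f_mm_012_a t 1 1 1 = true :=
  ⟨(l 5), by decide +kernel⟩

theorem c_mm_012_a : CertB 0 536870912 0 536870912 697932185 42949674 3 eng mog cd1q0 cd1q2a pd1 false false false .pnp 0 1 2
    ndB1q0 ndB1q2a pcB1 Cut.none Ext.none :=
  certB0 (fam := false) (s1 := false) (s2 := false) (a := 0) (b := 1) (c := 2) (cn := .pnp) (n1 := ndB1q0) (n2 := ndB1q2a) (pc := pcB1) (cut := Cut.none) (xt := Ext.none) (P1 := 0) (W1 := 536870912) (P2 := 0) (W2 := 536870912) (P3 := 697932185) (W3 := 42949674) (N0 := 3) (En := eng) (mo := mog) (C1 := cd1q0) (C2 := cd1q2a) (C3 := pd1)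
    rfl k0_mm_012_a

noncomputable def f_mm_012_b : ℕ → ℕ → ℕ → ℕ → Bool := onCell 0 536870912 1239849684 370763052 697932185 42949674
    (rowB 3 eng mog cd1q0 cd1q2b pd1 0 false false false .pnp 0 1 2 (qsf 0 536870912 1239849684 370763052 1) ndB1q0 ndB1q2b pcB1 Cut.none Ext.none)

def k0_mm_012_b : ∃ t, chk3 f_mm_012_b t 1 1 1 = true :=
  ⟨(l 5), by decide +kernel⟩

theorem c_mm_012_b : CertB 0 536870912 1239849684 370763052 697932185 42949674 3 eng mog cd1q0 cd1q2b pd1 false false false .pnp 0 1 2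
    ndB1q0 ndB1q2b pcB1 Cut.none Ext.none :=
  certB0 (fam := false) (s1 := false) (s2 := false) (a := 0) (b := 1) (c := 2) (cn := .pnp) (n1 := ndB1q0) (n2 := ndB1q2b) (pc := pcB1) (cut := Cut.none) (xt := Ext.none) (P1 := 0) (W1 := 536870912) (P2 := 1239849684) (W2 := 370763052) (P3 := 697932185) (W3 := 42949674) (N0 := 3) (En := eng) (mo := mog) (C1 := cd1q0) (C2 := cd1q2b) (C3 := pd1)
    rfl k0_mm_012_b

noncomputable def f_mm_022_a : ℕ → ℕ → ℕ → ℕ → Bool := onCell 0 536870912 0 536870912 697932185 42949674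
    (rowB 3 eng mog cd1q0 cd1q2a pd2 0 false false false .pp 0 2 2 (qsf 0 536870912 0 536870912 2) ndB1q0 ndB1q2a pcB2 Cut.none Ext.none)

def k0_mm_022_a : ∃ t, chk3 f_mm_022_a t 1 1 1 = true :=
  ⟨(l 5), by decide +kernel⟩

theorem c_mm_022_a : CertB 0 536870912 0 536870912 697932185 42949674 3 eng mog cd1q0 cd1q2a pd2 false false false .pp 0 2 2
    ndB1q0 ndB1q2a pcB2 Cut.none Ext.none :=
  certB0 (fam := false) (s1 := false) (s2 := false) (a := 0) (b := 2) (c := 2) (cn := .pp) (n1 := ndB1q0) (n2 := ndB1q2a) (pc := pcB2) (cut := Cut.none) (xt := Ext.none) (P1 := 0) (W1 := 536870912) (P2 := 0) (W2 := 536870912) (P3 := 697932185) (W3 := 42949674) (N0 := 3) (En := eng) (mo := mog) (C1 := cd1q0) (C2 := cd1q2a) (C3 := pd2)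
    rfl k0_mm_022_a

noncomputable def f_mm_022_b : ℕ → ℕ → ℕ → ℕ → Bool := onCell 0 536870912 1239849684 370763052 697932185 42949674
    (rowB 3 eng mog cd1q0 cd1q2b pd2 0 false false false .pp 0 2 2 (qsf 0 536870912 1239849684 370763052 2) ndB1q0 ndB1q2b pcB2 Cut.none Ext.none)

def k0_mm_022_b : ∃ t, chk3 f_mm_022_b t 1 1 1 = true :=
  ⟨(l 5), by decide +kernel⟩

theorem c_mm_022_b : CertB 0 536870912 1239849684 370763052 697932185 42949674 3 eng mog cd1q0 cd1q2b pd2 false false false .pp 0 2 2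
    ndB1q0 ndB1q2b pcB2 Cut.none Ext.none :=
  certB0 (fam := false) (s1 := false) (s2 := false) (a := 0) (b := 2) (c := 2) (cn := .pp) (n1 := ndB1q0) (n2 := ndB1q2b) (pc := pcB2) (cut := Cut.none) (xt := Ext.none) (P1 := 0) (W1 := 536870912) (P2 := 1239849684) (W2 := 370763052) (P3 := 697932185) (W3 := 42949674) (N0 := 3) (En := eng) (mo := mog) (C1 := cd1q0) (C2 := cd1q2b) (C3 := pd2)
    rfl k0_mm_022_b

noncomputable def f_mm_023 : ℕ → ℕ → ℕ → ℕ → Bool := onCell 0 536870912 1610612736 536870912 697932185 42949674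
    (rowB 3 eng mog cd1q0 cd1q3 pd2 0 false false false .up 0 2 3 (qsf 0 536870912 1610612736 536870912 2) ndB1q0 ndB1q3 pcB2 Cut.none Ext.none)

def k0_mm_023 : ∃ t, chk3 f_mm_023 t 1 1 1 = true :=
  ⟨(l 5), by decide +kernel⟩

theorem c_mm_023 : CertB 0 536870912 1610612736 536870912 697932185 42949674 3 eng mog cd1q0 cd1q3 pd2 false false false .up 0 2 3
    ndB1q0 ndB1q3 pcB2 Cut.none Ext.none :=
  certB0 (fam := false) (s1 := false) (s2 := false) (a := 0) (b := 2) (c := 3) (cn := .up) (n1 := ndB1q0) (n2 := ndB1q3) (pc := pcB2) (cut := Cut.none) (xt := Ext.none) (P1 := 0) (W1 := 536870912) (P2 := 1610612736) (W2 := 536870912) (P3 := 697932185) (W3 := 42949674) (N0 := 3) (En := eng) (mo := mog) (C1 := cd1q0) (C2 := cd1q3) (C3 := pd2)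
    rfl k0_mm_023

noncomputable def f_mm_033 : ℕ → ℕ → ℕ → ℕ → Bool := onCell 0 536870912 1610612736 536870912 697932185 42949674
    (rowB 3 eng mog cd1q0 cd1q3 pd3 0 false false false .pnn 0 3 3 (qsf 0 536870912 1610612736 536870912 3) ndB1q0 ndB1q3 pcB3 Cut.none Ext.none)

def k0_mm_033 : ∃ t, chk3 f_mm_033 t 1 1 1 = true :=
  ⟨(l 5), by decide +kernel⟩

theorem c_mm_033 : CertB 0 536870912 1610612736 536870912 697932185 42949674 3 eng mog cd1q0 cd1q3 pd3 false false false .pnn 0 3 3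
    ndB1q0 ndB1q3 pcB3 Cut.none Ext.none :=
  certB0 (fam := false) (s1 := false) (s2 := false) (a := 0) (b := 3) (c := 3) (cn := .pnn) (n1 := ndB1q0) (n2 := ndB1q3) (pc := pcB3) (cut := Cut.none) (xt := Ext.none) (P1 := 0) (W1 := 536870912) (P2 := 1610612736) (W2 := 536870912) (P3 := 697932185) (W3 := 42949674) (N0 := 3) (En := eng) (mo := mog) (C1 := cd1q0) (C2 := cd1q3) (C3 := pd3)
    rfl k0_mm_033

noncomputable def f_mm_101 : ℕ → ℕ → ℕ → ℕ → Bool := onCell 536870912 536870912 536870912 536870912 697932185 42949674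
    (rowB 3 eng mog cd1q1 cd1q1 pd0 0 false false false .npn 1 0 1 (qsf 536870912 536870912 536870912 536870912 0) ndB1q1 ndB1q1 pcB0 Cut.none Ext.none)

def k0_mm_101 : ∃ t, chk3 f_mm_101 t 1 1 1 = true :=
  ⟨(l 3), by decide +kernel⟩

theorem c_mm_101 : CertB 536870912 536870912 536870912 536870912 697932185 42949674 3 eng mog cd1q1 cd1q1 pd0 false false false .npn 1 0 1
    ndB1q1 ndB1q1 pcB0 Cut.none Ext.none :=
  certB0 (fam := false) (s1 := false) (s2 := false) (a := 1) (b := 0) (c := 1) (cn := .npn) (n1 := ndB1q1) (n2 := ndB1q1) (pc := pcB0) (cut := Cut.none) (xt := Ext.none) (P1 := 536870912) (W1 := 536870912) (P2 := 536870912) (W2 := 536870912) (P3 := 697932185) (W3 := 42949674) (N0 := 3) (En := eng) (mo := mog) (C1 := cd1q1) (C2 := cd1q1) (C3 := pd0)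
    rfl k0_mm_101

noncomputable def f_mm_102_a : ℕ → ℕ → ℕ → ℕ → Bool := onCell 536870912 536870912 0 536870912 697932185 42949674
    (rowB 3 eng mog cd1q1 cd1q2a pd0 0 false false false .npp 1 0 2 (qsf 536870912 536870912 0 536870912 0) ndB1q1 ndB1q2a pcB0 Cut.none Ext.none)

def k0_mm_102_a : ∃ t, chk3 f_mm_102_a t 1 1 1 = true :=
  ⟨(l 5), by decide +kernel⟩

theorem c_mm_102_a : CertB 536870912 536870912 0 536870912 697932185 42949674 3 eng mog cd1q1 cd1q2a pd0 false false false .npp 1 0 2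
    ndB1q1 ndB1q2a pcB0 Cut.none Ext.none :=
  certB0 (fam := false) (s1 := false) (s2 := false) (a := 1) (b := 0) (c := 2) (cn := .npp) (n1 := ndB1q1) (n2 := ndB1q2a) (pc := pcB0) (cut := Cut.none) (xt := Ext.none) (P1 := 536870912) (W1 := 536870912) (P2 := 0) (W2 := 536870912) (P3 := 697932185) (W3 := 42949674) (N0 := 3) (En := eng) (mo := mog) (C1 := cd1q1) (C2 := cd1q2a) (C3 := pd0)
    rfl k0_mm_102_a

noncomputable def f_mm_102_b : ℕ → ℕ → ℕ → ℕ → Bool := onCell 536870912 536870912 1239849684 370763052 697932185 42949674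
    (rowB 3 eng mog cd1q1 cd1q2b pd0 0 false false false .npp 1 0 2 (qsf 536870912 536870912 1239849684 370763052 0) ndB1q1 ndB1q2b pcB0 Cut.none Ext.none)

def k0_mm_102_b : ∃ t, chk3 f_mm_102_b t 1 1 1 = true :=
  ⟨(l 5), by decide +kernel⟩

theorem c_mm_102_b : CertB 536870912 536870912 1239849684 370763052 697932185 42949674 3 eng mog cd1q1 cd1q2b pd0 false false false .npp 1 0 2
    ndB1q1 ndB1q2b pcB0 Cut.none Ext.none :=
  certB0 (fam := false) (s1 := false) (s2 := false) (a := 1) (b := 0) (c := 2) (cn := .npp) (n1 := ndB1q1) (n2 := ndB1q2b) (pc := pcB0) (cut := Cut.none) (xt := Ext.none) (P1 := 536870912) (W1 := 536870912) (P2 := 1239849684) (W2 := 370763052) (P3 := 697932185) (W3 := 42949674) (N0 := 3) (En := eng) (mo := mog) (C1 := cd1q1) (C2 := cd1q2b) (C3 := pd0)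
    rfl k0_mm_102_b

noncomputable def f_mm_112_a : ℕ → ℕ → ℕ → ℕ → Bool := onCell 536870912 536870912 0 536870912 697932185 42949674
    (rowB 3 eng mog cd1q1 cd1q2a pd1 0 false false false .dn 1 1 2 (qsf 536870912 536870912 0 536870912 1) ndB1q1 ndB1q2a pcB1 Cut.none Ext.none)

def k0_mm_112_a : ∃ t, chk3 f_mm_112_a t 1 1 1 = true :=
  ⟨(l 5), by decide +kernel⟩

theorem c_mm_112_a : CertB 536870912 536870912 0 536870912 697932185 42949674 3 eng mog cd1q1 cd1q2a pd1 false false false .dn 1 1 2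
    ndB1q1 ndB1q2a pcB1 Cut.none Ext.none :=
  certB0 (fam := false) (s1 := false) (s2 := false) (a := 1) (b := 1) (c := 2) (cn := .dn) (n1 := ndB1q1) (n2 := ndB1q2a) (pc := pcB1) (cut := Cut.none) (xt := Ext.none) (P1 := 536870912) (W1 := 536870912) (P2 := 0) (W2 := 536870912) (P3 := 697932185) (W3 := 42949674) (N0 := 3) (En := eng) (mo := mog) (C1 := cd1q1) (C2 := cd1q2a) (C3 := pd1)
    rfl k0_mm_112_a

noncomputable def f_mm_112_b : ℕ → ℕ → ℕ → ℕ → Bool := onCell 536870912 536870912 1239849684 370763052 697932185 42949674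
    (rowB 3 eng mog cd1q1 cd1q2b pd1 0 false false false .dn 1 1 2 (qsf 536870912 536870912 1239849684 370763052 1) ndB1q1 ndB1q2b pcB1 Cut.none Ext.none)

def k0_mm_112_b : ∃ t, chk3 f_mm_112_b t 1 1 1 = true :=
  ⟨(l 5), by decide +kernel⟩

theorem c_mm_112_b : CertB 536870912 536870912 1239849684 370763052 697932185 42949674 3 eng mog cd1q1 cd1q2b pd1 false false false .dn 1 1 2
    ndB1q1 ndB1q2b pcB1 Cut.none Ext.none :=
  certB0 (fam := false) (s1 := false) (s2 := false) (a := 1) (b := 1) (c := 2) (cn := .dn) (n1 := ndB1q1) (n2 := ndB1q2b) (pc := pcB1) (cut := Cut.none) (xt := Ext.none) (P1 := 536870912) (W1 := 536870912) (P2 := 1239849684) (W2 := 370763052) (P3 := 697932185) (W3 := 42949674) (N0 := 3) (En := eng) (mo := mog) (C1 := cd1q1) (C2 := cd1q2b) (C3 := pd1)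
    rfl k0_mm_112_b

noncomputable def f_mm_113 : ℕ → ℕ → ℕ → ℕ → Bool := onCell 536870912 536870912 1610612736 536870912 697932185 42949674
    (rowB 3 eng mog cd1q1 cd1q3 pd1 0 false false false .nn 1 1 3 (qsf 536870912 536870912 1610612736 536870912 1) ndB1q1 ndB1q3 pcB1 Cut.none Ext.none)

def k0_mm_113 : ∃ t, chk3 f_mm_113 t 1 1 1 = true :=
  ⟨(l 5), by decide +kernel⟩

theorem c_mm_113 : CertB 536870912 536870912 1610612736 536870912 697932185 42949674 3 eng mog cd1q1 cd1q3 pd1 false false false .nn 1 1 3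
    ndB1q1 ndB1q3 pcB1 Cut.none Ext.none :=
  certB0 (fam := false) (s1 := false) (s2 := false) (a := 1) (b := 1) (c := 3) (cn := .nn) (n1 := ndB1q1) (n2 := ndB1q3) (pc := pcB1) (cut := Cut.none) (xt := Ext.none) (P1 := 536870912) (W1 := 536870912) (P2 := 1610612736) (W2 := 536870912) (P3 := 697932185) (W3 := 42949674) (N0 := 3) (En := eng) (mo := mog) (C1 := cd1q1) (C2 := cd1q3) (C3 := pd1)
    rfl k0_mm_113

noncomputable def f_mm_123 : ℕ → ℕ → ℕ → ℕ → Bool := onCell 536870912 536870912 1610612736 536870912 697932185 42949674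
    (rowB 3 eng mog cd1q1 cd1q3 pd2 0 false false false .npn 1 2 3 (qsf 536870912 536870912 1610612736 536870912 2) ndB1q1 ndB1q3 pcB2 Cut.none Ext.none)

def k0_mm_123 : ∃ t, chk3 f_mm_123 t 1 1 1 = true :=
  ⟨(l 5), by decide +kernel⟩

theorem c_mm_123 : CertB 536870912 536870912 1610612736 536870912 697932185 42949674 3 eng mog cd1q1 cd1q3 pd2 false false false .npn 1 2 3
    ndB1q1 ndB1q3 pcB2 Cut.none Ext.none :=
  certB0 (fam := false) (s1 := false) (s2 := false) (a := 1) (b := 2) (c := 3) (cn := .npn) (n1 := ndB1q1) (n2 := ndB1q3) (pc := pcB2) (cut := Cut.none) (xt := Ext.none) (P1 := 536870912) (W1 := 536870912) (P2 := 1610612736) (W2 := 536870912) (P3 := 697932185) (W3 := 42949674) (N0 := 3) (En := eng) (mo := mog) (C1 := cd1q1) (C2 := cd1q3) (C3 := pd2)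
    rfl k0_mm_123

noncomputable def f_mm_133 : ℕ → ℕ → ℕ → ℕ → Bool := onCell 536870912 536870912 1610612736 536870912 697932185 42949674
    (rowB 3 eng mog cd1q1 cd1q3 pd3 0 false false false .dn 1 3 3 (qsf 536870912 536870912 1610612736 536870912 3) ndB1q1 ndB1q3 pcB3 Cut.none Ext.none)

def k0_mm_133 : ∃ t, chk3 f_mm_133 t 1 1 1 = true :=
  ⟨(l 5), by decide +kernel⟩

theorem c_mm_133 : CertB 536870912 536870912 1610612736 536870912 697932185 42949674 3 eng mog cd1q1 cd1q3 pd3 false false false .dn 1 3 3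
    ndB1q1 ndB1q3 pcB3 Cut.none Ext.none :=
  certB0 (fam := false) (s1 := false) (s2 := false) (a := 1) (b := 3) (c := 3) (cn := .dn) (n1 := ndB1q1) (n2 := ndB1q3) (pc := pcB3) (cut := Cut.none) (xt := Ext.none) (P1 := 536870912) (W1 := 536870912) (P2 := 1610612736) (W2 := 536870912) (P3 := 697932185) (W3 := 42949674) (N0 := 3) (En := eng) (mo := mog) (C1 := cd1q1) (C2 := cd1q3) (C3 := pd3)
    rfl k0_mm_133

noncomputable def f_mm_202_aa : ℕ → ℕ → ℕ → ℕ → Bool := onCell 0 536870912 0 536870912 697932185 42949674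
    (rowB 3 eng mog cd1q2a cd1q2a pd0 0 false false false .pp 2 0 2 (qsf 0 536870912 0 536870912 0) ndB1q2a ndB1q2a pcB0 Cut.none Ext.none)

def k0_mm_202_aa : ∃ t, chk3 f_mm_202_aa t 1 1 1 = true :=
  ⟨(l 3), by decide +kernel⟩

theorem c_mm_202_aa : CertB 0 536870912 0 536870912 697932185 42949674 3 eng mog cd1q2a cd1q2a pd0 false false false .pp 2 0 2
    ndB1q2a ndB1q2a pcB0 Cut.none Ext.none :=
  certB0 (fam := false) (s1 := false) (s2 := false) (a := 2) (b := 0) (c := 2) (cn := .pp) (n1 := ndB1q2a) (n2 := ndB1q2a) (pc := pcB0) (cut := Cut.none) (xt := Ext.none) (P1 := 0) (W1 := 536870912) (P2 := 0) (W2 := 536870912) (P3 := 697932185) (W3 := 42949674) (N0 := 3) (En := eng) (mo := mog) (C1 := cd1q2a) (C2 := cd1q2a) (C3 := pd0)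
    rfl k0_mm_202_aa

noncomputable def f_mm_202_ab : ℕ → ℕ → ℕ → ℕ → Bool := onCell 0 536870912 1239849684 370763052 697932185 42949674
    (rowB 3 eng mog cd1q2a cd1q2b pd0 0 false false false .pp 2 0 2 (qsf 0 536870912 1239849684 370763052 0) ndB1q2a ndB1q2b pcB0 Cut.none Ext.none)

def k0_mm_202_ab : ∃ t, chk3 f_mm_202_ab t 1 1 1 = true :=
  ⟨(l 3), by decide +kernel⟩

theorem c_mm_202_ab : CertB 0 536870912 1239849684 370763052 697932185 42949674 3 eng mog cd1q2a cd1q2b pd0 false false false .pp 2 0 2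
    ndB1q2a ndB1q2b pcB0 Cut.none Ext.none :=
  certB0 (fam := false) (s1 := false) (s2 := false) (a := 2) (b := 0) (c := 2) (cn := .pp) (n1 := ndB1q2a) (n2 := ndB1q2b) (pc := pcB0) (cut := Cut.none) (xt := Ext.none) (P1 := 0) (W1 := 536870912) (P2 := 1239849684) (W2 := 370763052) (P3 := 697932185) (W3 := 42949674) (N0 := 3) (En := eng) (mo := mog) (C1 := cd1q2a) (C2 := cd1q2b) (C3 := pd0)
    rfl k0_mm_202_ab

noncomputable def f_mm_202_ba : ℕ → ℕ → ℕ → ℕ → Bool := onCell 1239849684 370763052 0 536870912 697932185 42949674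
    (rowB 3 eng mog cd1q2b cd1q2a pd0 0 false false false .pp 2 0 2 (qsf 1239849684 370763052 0 536870912 0) ndB1q2b ndB1q2a pcB0 Cut.none Ext.none)

def k0_mm_202_ba : ∃ t, chk3 f_mm_202_ba t 1 1 1 = true :=
  ⟨(l 3), by decide +kernel⟩

theorem c_mm_202_ba : CertB 1239849684 370763052 0 536870912 697932185 42949674 3 eng mog cd1q2b cd1q2a pd0 false false false .pp 2 0 2
    ndB1q2b ndB1q2a pcB0 Cut.none Ext.none :=
  certB0 (fam := false) (s1 := false) (s2 := false) (a := 2) (b := 0) (c := 2) (cn := .pp) (n1 := ndB1q2b) (n2 := ndB1q2a) (pc := pcB0) (cut := Cut.none) (xt := Ext.none) (P1 := 1239849684) (W1 := 370763052) (P2 := 0) (W2 := 536870912) (P3 := 697932185) (W3 := 42949674) (N0 := 3) (En := eng) (mo := mog) (C1 := cd1q2b) (C2 := cd1q2a) (C3 := pd0)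
    rfl k0_mm_202_ba

noncomputable def f_mm_202_bb : ℕ → ℕ → ℕ → ℕ → Bool := onCell 1239849684 370763052 1239849684 370763052 697932185 42949674
    (rowB 3 eng mog cd1q2b cd1q2b pd0 0 false false false .pp 2 0 2 (qsf 1239849684 370763052 1239849684 370763052 0) ndB1q2b ndB1q2b pcB0 Cut.none Ext.none)

def k0_mm_202_bb : ∃ t, chk3 f_mm_202_bb t 1 1 1 = true :=
  ⟨(l 3), by decide +kernel⟩

theorem c_mm_202_bb : CertB 1239849684 370763052 1239849684 370763052 697932185 42949674 3 eng mog cd1q2b cd1q2b pd0 false false false .pp 2 0 2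
    ndB1q2b ndB1q2b pcB0 Cut.none Ext.none :=
  certB0 (fam := false) (s1 := false) (s2 := false) (a := 2) (b := 0) (c := 2) (cn := .pp) (n1 := ndB1q2b) (n2 := ndB1q2b) (pc := pcB0) (cut := Cut.none) (xt := Ext.none) (P1 := 1239849684) (W1 := 370763052) (P2 := 1239849684) (W2 := 370763052) (P3 := 697932185) (W3 := 42949674) (N0 := 3) (En := eng) (mo := mog) (C1 := cd1q2b) (C2 := cd1q2b) (C3 := pd0)
    rfl k0_mm_202_bb

noncomputable def f_mm_203_a : ℕ → ℕ → ℕ → ℕ → Bool := onCell 0 536870912 0 536870912 697932185 42949674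
    (rowB 3 eng mog cd1q2a cd1q3 pd0 1 false false false .up 2 0 3 (qsf 0 536870912 1610612736 536870912 0) ndB1q2a ndB1q3 pcB0 Cut.none Ext.none)

def k0_mm_203_a : ∃ t, chk3 f_mm_203_a t 1 1 1 = true :=
  ⟨(l 3), by decide +kernel⟩

theorem c_mm_203_a : CertB 0 536870912 1610612736 536870912 697932185 42949674 3 eng mog cd1q2a cd1q3 pd0 false false false .up 2 0 3
    ndB1q2a ndB1q3 pcB0 Cut.none Ext.none :=
  certB1 (fam := false) (s1 := false) (s2 := false) (a := 2) (b := 0) (c := 3) (cn := .up) (n1 := ndB1q2a) (n2 := ndB1q3) (pc := pcB0) (cut := Cut.none) (xt := Ext.none) (P1 := 0) (W1 := 536870912) (P2 := 1610612736) (W2 := 536870912) (P3 := 697932185) (W3 := 42949674) (N0 := 3) (En := eng) (mo := mog) (C1 := cd1q2a) (C2 := cd1q3) (C3 := pd0)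
    rfl (fun _ => rfl) k0_mm_203_a

noncomputable def f_mm_203_b : ℕ → ℕ → ℕ → ℕ → Bool := onCell 1239849684 370763052 1610612736 536870912 697932185 42949674
    (rowB 3 eng mog cd1q2b cd1q3 pd0 0 false false false .up 2 0 3 (qsf 1239849684 370763052 1610612736 536870912 0) ndB1q2b ndB1q3 pcB0 Cut.none Ext.none)

def k0_mm_203_b : ∃ t, chk3 f_mm_203_b t 1 1 1 = true :=
  ⟨(l 3), by decide +kernel⟩

theorem c_mm_203_b : CertB 1239849684 370763052 1610612736 536870912 697932185 42949674 3 eng mog cd1q2b cd1q3 pd0 false false false .up 2 0 3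
    ndB1q2b ndB1q3 pcB0 Cut.none Ext.none :=
  certB0 (fam := false) (s1 := false) (s2 := false) (a := 2) (b := 0) (c := 3) (cn := .up) (n1 := ndB1q2b) (n2 := ndB1q3) (pc := pcB0) (cut := Cut.none) (xt := Ext.none) (P1 := 1239849684) (W1 := 370763052) (P2 := 1610612736) (W2 := 536870912) (P3 := 697932185) (W3 := 42949674) (N0 := 3) (En := eng) (mo := mog) (C1 := cd1q2b) (C2 := cd1q3) (C3 := pd0)
    rfl k0_mm_203_b

noncomputable def f_mm_213_a : ℕ → ℕ → ℕ → ℕ → Bool := onCell 0 536870912 1610612736 536870912 697932185 42949674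
    (rowB 3 eng mog cd1q2a cd1q3 pd1 0 false false false .pnn 2 1 3 (qsf 0 536870912 1610612736 536870912 1) ndB1q2a ndB1q3 pcB1 Cut.none Ext.none)

def k0_mm_213_a : ∃ t, chk3 f_mm_213_a t 1 1 1 = true :=
  ⟨(a (l 3) (l 5)), by decide +kernel⟩

theorem c_mm_213_a : CertB 0 536870912 1610612736 536870912 697932185 42949674 3 eng mog cd1q2a cd1q3 pd1 false false false .pnn 2 1 3
    ndB1q2a ndB1q3 pcB1 Cut.none Ext.none :=
  certB0 (fam := false) (s1 := false) (s2 := false) (a := 2) (b := 1) (c := 3) (cn := .pnn) (n1 := ndB1q2a) (n2 := ndB1q3) (pc := pcB1) (cut := Cut.none) (xt := Ext.none) (P1 := 0) (W1 := 536870912) (P2 := 1610612736) (W2 := 536870912) (P3 := 697932185) (W3 := 42949674) (N0 := 3) (En := eng) (mo := mog) (C1 := cd1q2a) (C2 := cd1q3) (C3 := pd1)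
    rfl k0_mm_213_a

noncomputable def f_mm_213_b : ℕ → ℕ → ℕ → ℕ → Bool := onCell 1239849684 370763052 1610612736 536870912 697932185 42949674
    (rowB 3 eng mog cd1q2b cd1q3 pd1 0 false false false .pnn 2 1 3 (qsf 1239849684 370763052 1610612736 536870912 1) ndB1q2b ndB1q3 pcB1 Cut.none Ext.none)

def k0_mm_213_b : ∃ t, chk3 f_mm_213_b t 1 1 1 = true :=
  ⟨(l 3), by decide +kernel⟩

theorem c_mm_213_b : CertB 1239849684 370763052 1610612736 536870912 697932185 42949674 3 eng mog cd1q2b cd1q3 pd1 false false false .pnn 2 1 3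
    ndB1q2b ndB1q3 pcB1 Cut.none Ext.none :=
  certB0 (fam := false) (s1 := false) (s2 := false) (a := 2) (b := 1) (c := 3) (cn := .pnn) (n1 := ndB1q2b) (n2 := ndB1q3) (pc := pcB1) (cut := Cut.none) (xt := Ext.none) (P1 := 1239849684) (W1 := 370763052) (P2 := 1610612736) (W2 := 536870912) (P3 := 697932185) (W3 := 42949674) (N0 := 3) (En := eng) (mo := mog) (C1 := cd1q2b) (C2 := cd1q3) (C3 := pd1)
    rfl k0_mm_213_b

noncomputable def f_mm_303 : ℕ → ℕ → ℕ → ℕ → Bool := onCell 1610612736 536870912 1610612736 536870912 697932185 42949674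
    (rowB 3 eng mog cd1q3 cd1q3 pd0 0 false false false .npn 3 0 3 (qsf 1610612736 536870912 1610612736 536870912 0) ndB1q3 ndB1q3 pcB0 Cut.none Ext.none)

def k0_mm_303 : ∃ t, chk3 f_mm_303 t 1 1 1 = true :=
  ⟨(l 3), by decide +kernel⟩

theorem c_mm_303 : CertB 1610612736 536870912 1610612736 536870912 697932185 42949674 3 eng mog cd1q3 cd1q3 pd0 false false false .npn 3 0 3
    ndB1q3 ndB1q3 pcB0 Cut.none Ext.none :=
  certB0 (fam := false) (s1 := false) (s2 := false) (a := 3) (b := 0) (c := 3) (cn := .npn) (n1 := ndB1q3) (n2 := ndB1q3) (pc := pcB0) (cut := Cut.none) (xt := Ext.none) (P1 := 1610612736) (W1 := 536870912) (P2 := 1610612736) (W2 := 536870912) (P3 := 697932185) (W3 := 42949674) (N0 := 3) (En := eng) (mo := mog) (C1 := cd1q3) (C2 := cd1q3) (C3 := pd0)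
    rfl k0_mm_303

noncomputable def f_mm_313 : ℕ → ℕ → ℕ → ℕ → Bool := onCell 1610612736 536870912 1610612736 536870912 697932185 42949674
    (rowB 3 eng mog cd1q3 cd1q3 pd1 0 false false false .dn 3 1 3 (qsf 1610612736 536870912 1610612736 536870912 1) ndB1q3 ndB1q3 pcB1 Cut.none Ext.none)

def k0_mm_313 : ∃ t, chk3 f_mm_313 t 1 1 1 = true :=
  ⟨(l 3), by decide +kernel⟩

theorem c_mm_313 : CertB 1610612736 536870912 1610612736 536870912 697932185 42949674 3 eng mog cd1q3 cd1q3 pd1 false false false .dn 3 1 3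
    ndB1q3 ndB1q3 pcB1 Cut.none Ext.none :=
  certB0 (fam := false) (s1 := false) (s2 := false) (a := 3) (b := 1) (c := 3) (cn := .dn) (n1 := ndB1q3) (n2 := ndB1q3) (pc := pcB1) (cut := Cut.none) (xt := Ext.none) (P1 := 1610612736) (W1 := 536870912) (P2 := 1610612736) (W2 := 536870912) (P3 := 697932185) (W3 := 42949674) (N0 := 3) (En := eng) (mo := mog) (C1 := cd1q3) (C2 := cd1q3) (C3 := pd1)
    rfl k0_mm_313

end Pool.Agent.Strip051.G.I6500_6900.Tab.C.BB11

namespace Pool.Agent.Strip051.G.I6500_6900.Tab.C.BB12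

open Pool.Agent.Strip051.PB Pool.Agent.Strip051.PB.T
open Pool.Agent.Strip051.G.I6500_6900.Tab

noncomputable def f_pp_001 : ℕ → ℕ → ℕ → ℕ → Bool := onCell 0 536870912 536870912 536870912 697932185 42949674
    (rowB 3 eng mog cd1q0 cd2q1 pd0 0 false true true .up 0 0 1 (qsf 0 536870912 536870912 536870912 0) ndB1q0 ndB2q1 pcB0 Cut.none Ext.none)

def k0_pp_001 : ∃ t, chk3 f_pp_001 t 1 1 1 = true :=
  ⟨(l 3), by decide +kernel⟩

theorem c_pp_001 : CertB 0 536870912 536870912 536870912 697932185 42949674 3 eng mog cd1q0 cd2q1 pd0 false true true .up 0 0 1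
    ndB1q0 ndB2q1 pcB0 Cut.none Ext.none :=
  certB0 (fam := false) (s1 := true) (s2 := true) (a := 0) (b := 0) (c := 1) (cn := .up) (n1 := ndB1q0) (n2 := ndB2q1) (pc := pcB0) (cut := Cut.none) (xt := Ext.none) (P1 := 0) (W1 := 536870912) (P2 := 536870912) (W2 := 536870912) (P3 := 697932185) (W3 := 42949674) (N0 := 3) (En := eng) (mo := mog) (C1 := cd1q0) (C2 := cd2q1) (C3 := pd0)
    rfl k0_pp_001

noncomputable def f_pp_011 : ℕ → ℕ → ℕ → ℕ → Bool := onCell 0 536870912 536870912 536870912 697932185 42949674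
    (rowB 3 eng mog cd1q0 cd2q1 pd1 0 false true true .pnn 0 1 1 (qsf 0 536870912 536870912 536870912 1) ndB1q0 ndB2q1 pcB1 Cut.none Ext.none)

def k0_pp_011 : ∃ t, chk3 f_pp_011 t 1 1 1 = true :=
  ⟨(l 3), by decide +kernel⟩

theorem c_pp_011 : CertB 0 536870912 536870912 536870912 697932185 42949674 3 eng mog cd1q0 cd2q1 pd1 false true true .pnn 0 1 1
    ndB1q0 ndB2q1 pcB1 Cut.none Ext.none :=
  certB0 (fam := false) (s1 := true) (s2 := true) (a := 0) (b := 1) (c := 1) (cn := .pnn) (n1 := ndB1q0) (n2 := ndB2q1) (pc := pcB1) (cut := Cut.none) (xt := Ext.none) (P1 := 0) (W1 := 536870912) (P2 := 536870912) (W2 := 536870912) (P3 := 697932185) (W3 := 42949674) (N0 := 3) (En := eng) (mo := mog) (C1 := cd1q0) (C2 := cd2q1) (C3 := pd1)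
    rfl k0_pp_011

noncomputable def cut_pp_012_a : Cut := Cut.of [[⟨0, 0, 0, 67108864⟩, ⟨1, 1, 0, 67108864⟩, ⟨2, 1, 0, 67108864⟩]]

noncomputable def f_pp_012_a : ℕ → ℕ → ℕ → ℕ → Bool := onCell 536870912 536870912 0 536870912 697932185 42949674
    (rowB 3 eng mog cd1q0 cd2q2a pd1 2 false true true .pnp 0 1 2 (qsf 0 536870912 0 536870912 1) ndB1q0 ndB2q2a pcB1 cut_pp_012_a Ext.none)

def k0_pp_012_a : ∃ t, chk3 f_pp_012_a t 2 1 1 = true :=
  ⟨(a (l 3) (b (b (a (a (l 3) (b (b (a (l 3) (b (a (l 156934012391) (l 84993318167)) (l 165523940327))) (l 3)) (l 3))) (a (b (b (a (b (l 16745896) (a (l 123648027287) (l 16747528))) (l 16741352)) (a (b (l 155323422535) (l 3)) (b (l 56539182823) (a (l 158007759175) (l 16748736))))) (l 3)) (a (b (b (l 16731968) (l 16744072)) (b (b (l 93583262167) (l 147270342551)) (l 3))) (b (l 16749016) (b (l 28621900487) (l 113984341559)))))) (l 3)) (l 3))), by decide +kernel⟩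

def k1_pp_012_a : ∃ t, chk3 f_pp_012_a t 6 1 1 = true :=
  ⟨(b (a (b (a (b (b (a (l 16749920) (l 16695664)) (a (l 16723712) (l 16731096))) (a (b (l 16739392) (b (l 16750008) (l 16753304))) (b (l 16727672) (l 16744776)))) (b (b (l 16673800) (a (l 16717960) (l 16681800))) (a (b (l 16713592) (l 16731280)) (b (l 16718552) (l 16715144))))) (a (b (a (l 139217260919) (b (a (l 69960907783) (l 16755848)) (l 3))) (l 3)) (b (a (b (a (l 16752016) (l 16745360)) (a (l 88751401927) (l 16757224))) (b (l 16733200) (a (l 16754040) (l 16746944)))) (a (l 3) (b (b (l 74792834263) (l 3)) (l 3)))))) (b (a (b (l 16690856) (b (l 16735656) (a (l 16696800) (l 16680032)))) (b (l 16639752) (a (l 16655608) (l 16640504)))) (a (b (a (b (l 16715128) (l 16733776)) (l 16749272)) (a (b (a (l 16754128) (l 16748048)) (l 125258690647)) (b (l 16736576) (b (l 16751008) (l 16758040))))) (b (a (b (l 16681184) (l 16700240)) (b (l 16665800) (l 16683872))) (a (b (l 16720384) (a (l 16745504) (l 16737640)))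 (b (l 16703904) (l 16746000))))))) (a (l 3) (b (a (l 3) (b (a (b (a (l 16762008) (l 16758536)) (l 3)) (a (b (l 16772472) (l 3)) (b (l 16743152) (l 113447429127)))) (l 3))) (l 3)))), by decide +kernel⟩

def k2_pp_012_a : ∃ t, chk3 f_pp_012_a t 7 2 1 = true :=
  ⟨(a (b (b (a (l 16613760) (b (l 16565816) (l 16576112))) (a (a (l 16626368) (l 16613248)) (a (l 16601176) (l 16590432)))) (a (b (a (l 16681080) (l 16645808)) (a (b (l 16687888) (l 16708352)) (b (l 16673536) (l 16693224)))) (b (b (l 16638880) (a (l 16641216) (l 16628632))) (a (l 16669560) (b (l 16646104) (l 16664456)))))) (b (a (b (b (l 16547600) (l 16557608)) (b (l 16568408) (l 16580968))) (b (l 16535512) (b (l 16550992) (l 16562416)))) (a (b (b (l 16594728) (l 16630752)) (a (b (l 16632440) (l 16650304)) (b (l 16620144) (l 16637456)))) (b (a (l 16586872) (l 16578376)) (a (l 16618000) (l 16608600)))))), by decide +kernel⟩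

def k3_pp_012_a : ∃ t, chk3 f_pp_012_a t 7 3 1 = true :=
  ⟨(a (b (a (b (a (a (b (l 16734464) (b (l 16751816) (l 16763384))) (c (l 16759560) (l 16757568))) (b (a (l 16717856) (l 16710096)) (a (b (l 16734360) (l 16745384)) (l 16730856)))) (b (a (b (a (l 3) (l 16745144)) (l 3)) (a (l 90361988855) (l 16773168))) (a (l 3) (l 3)))) (b (b (a (l 16698408) (l 16704552)) (a (l 16739160) (l 16723976))) (a (b (a (l 16743320) (l 16735072)) (b (a (l 16759672) (l 16751320)) (a (l 3) (l 16762680)))) (b (a (l 16727336) (l 16719968)) (a (l 16764976) (b (l 16736088) (l 16747360))))))) (a (l 3) (b (b (a (l 3) (b (a (l 79624671399) (l 16769496)) (a (l 3) (l 212768605111)))) (l 3)) (l 3)))) (b (a (b (a (a (l 16682952) (l 16675960)) (b (l 16656024) (l 16675608))) (a (b (b (l 16704072) (l 16714576)) (l 16741584)) (b (l 16696312) (l 16717752)))) (a (b (l 16643712) (b (l 16684016) (l 16704608))) (b (b (l 16634120) (l 16652952)) (b (l 16671760) (b (l 16685384) (l 16694448))))))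 (a (b (a (b (a (b (l 16751752) (l 16763888)) (l 16761344)) (b (a (l 133848647719) (l 33453775703)) (l 3))) (b (a (l 16764888) (l 16736440)) (a (b (l 16761224) (b (l 16769616) (l 100025765655))) (b (l 16752240) (l 16763168))))) (b (a (l 3) (b (a (l 3) (b (l 16782208) (l 130627416231))) (l 3))) (l 3))) (b (a (b (a (l 16728400) (l 16719960)) (a (b (l 16722432) (l 16754232)) (a (l 16742408) (l 16738104)))) (b (a (l 16711640) (l 16703464)) (a (b (l 16726256) (a (l 16739064) (l 6))) (b (l 16717816) (l 6))))) (a (b (a (b (b (l 16751984) (a (l 16759952) (l 6))) (l 6)) (l 6)) (l 6)) (l 6)))))), by decide +kernel⟩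

theorem s4_pp_012_a : ∃ t, chk3 f_pp_012_a t 7 1 1 = true := ex3_b k2_pp_012_a k3_pp_012_a

theorem s5_pp_012_a : ∃ t, chk3 f_pp_012_a t 3 1 1 = true := ex3_a k1_pp_012_a s4_pp_012_a

theorem s6_pp_012_a : ∃ t, chk3 f_pp_012_a t 1 1 1 = true := ex3_a k0_pp_012_a s5_pp_012_a

theorem c_pp_012_a : CertB 0 536870912 0 536870912 697932185 42949674 3 eng mog cd1q0 cd2q2a pd1 false true true .pnp 0 1 2
    ndB1q0 ndB2q2a pcB1 cut_pp_012_a Ext.none :=
  certB2 (fam := false) (s1 := true) (s2 := true) (a := 0) (b := 1) (c := 2) (cn := .pnp) (n1 := ndB1q0) (n2 := ndB2q2a) (pc := pcB1) (cut := cut_pp_012_a) (xt := Ext.none) (P1 := 0) (W1 := 536870912) (P2 := 0) (W2 := 536870912) (P3 := 697932185) (W3 := 42949674) (N0 := 3) (En := eng) (mo := mog) (C1 := cd1q0) (C2 := cd2q2a) (C3 := pd1)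
    rfl (fun _ => rfl) s6_pp_012_a

noncomputable def cut_pp_012_b : Cut := Cut.of [[⟨0, 0, 0, 67108864⟩, ⟨1, 1, 0, 67108864⟩, ⟨2, 1, 0, 67108864⟩]]

noncomputable def f_pp_012_b : ℕ → ℕ → ℕ → ℕ → Bool := onCell 536870912 536870912 1239849684 370763052 697932185 42949674
    (rowB 3 eng mog cd1q0 cd2q2b pd1 2 false true true .pnp 0 1 2 (qsf 0 536870912 1239849684 370763052 1) ndB1q0 ndB2q2b pcB1 cut_pp_012_b Ext.none)

def k0_pp_012_b : ∃ t, chk3 f_pp_012_b t 1 1 1 = true :=
  ⟨(b (a (a (l 2) (a (a (l 3) (b (b (a (l 3) (b (a (l 134385439159) (l 16743728)) (l 16735248))) (l 2)) (l 2))) (b (a (b (a (b (l 16738768) (l 16728656)) (l 16723240)) (a (l 16715056) (l 16703616))) (b (b (l 16733072) (l 16698408)) (l 16682104))) (a (l 2) (b (l 16668064) (l 2)))))) (a (a (b (a (b (a (l 16705544) (l 16669760)) (a (l 16657768) (l 16641688))) (b (l 16688520) (l 16614208))) (a (b (l 16631344) (l 2)) (b (l 16592488) (l 16581360)))) (b (b (a (l 16653440) (l 16641504)) (a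 (l 16572936) (l 16532936))) (a (l 16640704) (l 16571008)))) (a (b (a (b (l 16591512) (l 16496096)) (b (l 16566792) (l 16463120))) (b (a (l 16455848) (l 16415296)) (l 16425552))) (b (a (b (b (l 16523128) (l 16485456)) (l 16433904)) (b (b (l 16506528) (l 16466456)) (l 16409512))) (a (b (l 16377952) (l 16336824)) (b (l 16344624) (l 16295016))))))) (a (l 2) (b (a (a (l 2) (a (l 16526720) (l 16466520))) (a (a (l 16409600) (l 16354336)) (a (l 16301064) (l 16249160)))) (a (l 2) (a (l 16393632) (a (l 16298776) (l 16236120))))))), by decide +kernel⟩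

theorem c_pp_012_b : CertB 0 536870912 1239849684 370763052 697932185 42949674 3 eng mog cd1q0 cd2q2b pd1 false true true .pnp 0 1 2
    ndB1q0 ndB2q2b pcB1 cut_pp_012_b Ext.none :=
  certB2 (fam := false) (s1 := true) (s2 := true) (a := 0) (b := 1) (c := 2) (cn := .pnp) (n1 := ndB1q0) (n2 := ndB2q2b) (pc := pcB1) (cut := cut_pp_012_b) (xt := Ext.none) (P1 := 0) (W1 := 536870912) (P2 := 1239849684) (W2 := 370763052) (P3 := 697932185) (W3 := 42949674) (N0 := 3) (En := eng) (mo := mog) (C1 := cd1q0) (C2 := cd2q2b) (C3 := pd1)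
    rfl (fun _ => rfl) k0_pp_012_b

noncomputable def cut_pp_022_a : Cut := Cut.of [[⟨0, 0, 0, 67108864⟩, ⟨1, 1, 0, 67108864⟩, ⟨2, 1, 0, 67108864⟩]]

noncomputable def f_pp_022_a : ℕ → ℕ → ℕ → ℕ → Bool := onCell 1073741824 536870912 0 536870912 697932185 42949674
    (rowB 3 eng mog cd1q0 cd2q2a pd2 2 false true true .pp 0 2 2 (qsf 0 536870912 0 536870912 2) ndB1q0 ndB2q2a pcB2 cut_pp_022_a Ext.none)

def k0_pp_022_a : ∃ t, chk3 f_pp_022_a t 2 2 1 = true :=
  ⟨(a (b (b (a (a (l 16509816) (l 16505624)) (a (l 16493576) (l 16474304))) (a (a (l 16526976) (l 16521096)) (a (l 16503216) (c (l 16485144) (l 16477096))))) (a (a (b (l 16575840) (a (l 16588672) (l 16586920))) (b (l 16542016) (a (l 16570864) (l 16555800)))) (a (b (l 16537088) (a (l 16519240) (b (l 16519944) (l 16527856)))) (a (b (l 16496480) (b (l 16504144) (l 16510096))) (b (b (l 16481448) (l 16484320)) (b (l 16487792) (l 16491600))))))) (a (b (b (a (c (l 16459392) (l 16448120)) (l 1)) (a (a (l 16464824)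 (b (l 16451544) (a (l 16458248) (b (l 16451328) (l 1))))) (l 1))) (a (a (b (b (l 16468648) (l 16469488)) (b (l 16470784) (l 16472208))) (b (a (b (l 16458888) (l 16458032)) (l 1)) (l 1))) (l 1))) (l 1))), by decide +kernel⟩

def k1_pp_022_a : ∃ t, chk3 f_pp_022_a t 2 3 1 = true :=
  ⟨(a (a (b (a (a (b (b (l 16616288) (l 16635184)) (b (l 16653632) (l 16672304))) (b (l 16637048) (b (l 16641392) (l 16659160)))) (b (a (l 16619416) (b (l 16573520) (l 16586208))) (a (b (a (l 16626096) (l 16615528)) (a (l 16642144) (l 16630384))) (b (l 16620168) (a (l 16618336) (l 16605984)))))) (b (b (a (a (a (b (l 16686920) (l 16696720)) (l 16691280)) (a (l 16683280) (l 16670920))) (a (b (l 16668800) (a (l 16662120) (l 16648648))) (b (a (l 16628344) (l 16614944)) (a (b (l 16633304) (l 6)) (b (l 16619344) (l 37077332839)))))) (a (l 6) (a (l 6) (a (l 6) (a (l 6) (l 1)))))) (a (l 6) (a (l 6) (l 1))))) (b (b (a (a (b (l 16555208) (l 16565816)) (b (l 16536120) (a (l 16549928) (l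 16539024)))) (b (a (l 16516192) (l 130492664087)) (a (b (l 16520688) (l 16523584)) (l 1)))) (a (b (a (a (l 16582264) (l 16570640)) (a (l 16558744) (l 16557032))) (a (b (l 16584304) (a (l 16595960) (l 16582624))) (b (l 38150964743) (l 1)))) (b (a (b (l 16526344) (l 1)) (l 1)) (l 1)))) (b (a (b (a (b (a (l 64457714439) (l 16587088)) (a (l 81637595015) (l 1))) (l 1)) (l 1)) (l 1)) (l 1)))) (b (l 1) (l 1))), by decide +kernel⟩

def k2_pp_022_a : ∃ t, chk3 f_pp_022_a t 3 1 1 = true :=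
  ⟨(l 1), by decide +kernel⟩

theorem s3_pp_022_a : ∃ t, chk3 f_pp_022_a t 2 1 1 = true := ex3_b k0_pp_022_a k1_pp_022_a

theorem s4_pp_022_a : ∃ t, chk3 f_pp_022_a t 1 1 1 = true := ex3_a s3_pp_022_a k2_pp_022_a

theorem c_pp_022_a : CertB 0 536870912 0 536870912 697932185 42949674 3 eng mog cd1q0 cd2q2a pd2 false true true .pp 0 2 2
    ndB1q0 ndB2q2a pcB2 cut_pp_022_a Ext.none :=
  certB2 (fam := false) (s1 := true) (s2 := true) (a := 0) (b := 2) (c := 2) (cn := .pp) (n1 := ndB1q0) (n2 := ndB2q2a) (pc := pcB2) (cut := cut_pp_022_a) (xt := Ext.none) (P1 := 0) (W1 := 536870912) (P2 := 0) (W2 := 536870912) (P3 := 697932185) (W3 := 42949674) (N0 := 3) (En := eng) (mo := mog) (C1 := cd1q0) (C2 := cd2q2a) (C3 := pd2)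
    rfl (fun _ => rfl) s4_pp_022_a

noncomputable def cut_pp_022_b : Cut := Cut.of [[⟨0, 0, 0, 67108864⟩, ⟨1, 1, 0, 67108864⟩, ⟨2, 1, 0, 67108864⟩]]

noncomputable def f_pp_022_b : ℕ → ℕ → ℕ → ℕ → Bool := onCell 1073741824 536870912 1239849684 370763052 697932185 42949674
    (rowB 3 eng mog cd1q0 cd2q2b pd2 2 false true true .pp 0 2 2 (qsf 0 536870912 1239849684 370763052 2) ndB1q0 ndB2q2b pcB2 cut_pp_022_b Ext.none)

def k0_pp_022_b : ∃ t, chk3 f_pp_022_b t 1 1 1 = true :=
  ⟨(a (a (b (b (b (a (a (l 16461200) (l 16478624)) (a (l 16533880) (l 16522880))) (a (a (l 16382544) (l 16379264)) (a (l 16372480) (l 16362608)))) (a (a (b (l 16313168) (l 16256976)) (l 16447272)) (b (l 16298816) (l 16281296)))) (a (b (b (l 16234000) (l 16185368)) (l 16232304)) (b (b (l 16192952) (l 16160920)) (l 16136240)))) (b (a (b (b (a (b (l 16439920) (l 16406872)) (a (b (l 111702134935) (l 16396816)) (b (l 281889810935) (l 16357112)))) (a (l 16350240) (a (l 16340344) (l 16337448))))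 (a (l 16269936) (b (l 16418408) (l 16209600)))) (b (a (b (c (l 573410846295) (l 298532940919)) (a (l 244845584295) (l 16315064))) (b (l 1) (l 293164027527))) (a (b (l 16261240) (l 16214888)) (b (l 16247200) (l 16193832))))) (a (b (a (l 16151304) (a (l 16136984) (l 16139720))) (a (l 16108384) (l 16093848))) (b (b (l 16166712) (l 16130104)) (l 16108144))))) (b (a (b (l 1) (a (b (a (l 311417656711) (l 347924609959)) (a (l 16163368) (l 16124112))) (b (l 1) (a (l 372620569799) (l 1))))) (l 1)) (a (a (b (a (l 16133008) (l 16109536)) (l 16084064)) (b (a (l 199748379527) (l 379600063111)) (a (l 16073872) (l 16062704)))) (a (b (b (l 1) (l 411275422743)) (l 299606335223)) (b (l 1) (b (l 453150983479) (l 335576794839))))))), by decide +kernel⟩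

theorem c_pp_022_b : CertB 0 536870912 1239849684 370763052 697932185 42949674 3 eng mog cd1q0 cd2q2b pd2 false true true .pp 0 2 2
    ndB1q0 ndB2q2b pcB2 cut_pp_022_b Ext.none :=
  certB2 (fam := false) (s1 := true) (s2 := true) (a := 0) (b := 2) (c := 2) (cn := .pp) (n1 := ndB1q0) (n2 := ndB2q2b) (pc := pcB2) (cut := cut_pp_022_b) (xt := Ext.none) (P1 := 0) (W1 := 536870912) (P2 := 1239849684) (W2 := 370763052) (P3 := 697932185) (W3 := 42949674) (N0 := 3) (En := eng) (mo := mog) (C1 := cd1q0) (C2 := cd2q2b) (C3 := pd2)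
    rfl (fun _ => rfl) k0_pp_022_b

noncomputable def f_pp_023 : ℕ → ℕ → ℕ → ℕ → Bool := onCell 0 536870912 1073741824 536870912 697932185 42949674
    (rowB 3 eng mog cd1q0 cd2q3 pd2 1 false true true .up 0 2 3 (qsf 0 536870912 1610612736 536870912 2) ndB1q0 ndB2q3 pcB2 Cut.none Ext.none)

def k0_pp_023 : ∃ t, chk3 f_pp_023 t 1 1 1 = true :=
  ⟨(b (a (b (l 1) (a (l 1) (b (l 1) (l 289406161479)))) (b (a (b (l 1) (l 242698458871)) (b (l 177200232775) (l 16139184))) (b (a (a (l 310343944183) (l 16096024)) (l 16335272)) (a (l 16111368) (l 16189664))))) (b (a (a (b (l 1) (l 444561009319)) (b (l 16185280) (l 16069944))) (a (b (l 16124216) (l 16115640)) (b (l 16262912) (l 16361656)))) (a (a (b (l 422549834343) (a (l 16029000) (l 16075864))) (b (l 16104600) (l 16156080))) (a (b (l 16211176) (l 16360712)) (l 16710712))))), by decide +kernel⟩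

theorem c_pp_023 : CertB 0 536870912 1610612736 536870912 697932185 42949674 3 eng mog cd1q0 cd2q3 pd2 false true true .up 0 2 3
    ndB1q0 ndB2q3 pcB2 Cut.none Ext.none :=
  certB1 (fam := false) (s1 := true) (s2 := true) (a := 0) (b := 2) (c := 3) (cn := .up) (n1 := ndB1q0) (n2 := ndB2q3) (pc := pcB2) (cut := Cut.none) (xt := Ext.none) (P1 := 0) (W1 := 536870912) (P2 := 1610612736) (W2 := 536870912) (P3 := 697932185) (W3 := 42949674) (N0 := 3) (En := eng) (mo := mog) (C1 := cd1q0) (C2 := cd2q3) (C3 := pd2)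
    rfl (fun _ => rfl) k0_pp_023

noncomputable def f_pp_033 : ℕ → ℕ → ℕ → ℕ → Bool := onCell 1610612736 536870912 1610612736 536870912 697932185 42949674
    (rowB 3 eng mog cd1q0 cd2q3 pd3 2 false true true .pnn 0 3 3 (qsf 0 536870912 1610612736 536870912 3) ndB1q0 ndB2q3 pcB3 Cut.none Ext.none)

def k0_pp_033 : ∃ t, chk3 f_pp_033 t 1 1 1 = true :=
  ⟨(a (b (a (b (a (b (l 451540472423) (l 16042680)) (l 523480996919)) (a (l 16125112) (l 16030920))) (b (a (b (l 1) (l 562672623783)) (l 1)) (a (l 454225052375) (l 562672816439)))) (a (b (a (l 16363936) (l 16283336)) (a (l 16560224) (l 16502648))) (a (b (l 16220768) (l 16450736)) (b (l 16342616) (l 4))))) (b (a (b (l 1) (a (b (l 1) (l 4)) (l 1))) (l 1)) (a (l 4) (b (a (b (l 1) (l 4)) (l 1)) (l 4))))), by decide +kernel⟩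

theorem c_pp_033 : CertB 0 536870912 1610612736 536870912 697932185 42949674 3 eng mog cd1q0 cd2q3 pd3 false true true .pnn 0 3 3
    ndB1q0 ndB2q3 pcB3 Cut.none Ext.none :=
  certB2 (fam := false) (s1 := true) (s2 := true) (a := 0) (b := 3) (c := 3) (cn := .pnn) (n1 := ndB1q0) (n2 := ndB2q3) (pc := pcB3) (cut := Cut.none) (xt := Ext.none) (P1 := 0) (W1 := 536870912) (P2 := 1610612736) (W2 := 536870912) (P3 := 697932185) (W3 := 42949674) (N0 := 3) (En := eng) (mo := mog) (C1 := cd1q0) (C2 := cd2q3) (C3 := pd3)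
    rfl (fun _ => rfl) k0_pp_033

noncomputable def f_pp_101 : ℕ → ℕ → ℕ → ℕ → Bool := onCell 536870912 536870912 536870912 536870912 697932185 42949674
    (rowB 3 eng mog cd1q1 cd2q1 pd0 0 false true true .npn 1 0 1 (qsf 536870912 536870912 536870912 536870912 0) ndB1q1 ndB2q1 pcB0 Cut.none Ext.none)

def k0_pp_101 : ∃ t, chk3 f_pp_101 t 1 1 1 = true :=
  ⟨(l 3), by decide +kernel⟩

theorem c_pp_101 : CertB 536870912 536870912 536870912 536870912 697932185 42949674 3 eng mog cd1q1 cd2q1 pd0 false true true .npn 1 0 1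
    ndB1q1 ndB2q1 pcB0 Cut.none Ext.none :=
  certB0 (fam := false) (s1 := true) (s2 := true) (a := 1) (b := 0) (c := 1) (cn := .npn) (n1 := ndB1q1) (n2 := ndB2q1) (pc := pcB0) (cut := Cut.none) (xt := Ext.none) (P1 := 536870912) (W1 := 536870912) (P2 := 536870912) (W2 := 536870912) (P3 := 697932185) (W3 := 42949674) (N0 := 3) (En := eng) (mo := mog) (C1 := cd1q1) (C2 := cd2q1) (C3 := pd0)
    rfl k0_pp_101

noncomputable def f_pp_102_a : ℕ → ℕ → ℕ → ℕ → Bool := onCell 0 536870912 0 536870912 697932185 42949674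
    (rowB 3 eng mog cd1q1 cd2q2a pd0 2 false true true .npp 1 0 2 (qsf 536870912 536870912 0 536870912 0) ndB1q1 ndB2q2a pcB0 Cut.none Ext.none)

def k0_pp_102_a : ∃ t, chk3 f_pp_102_a t 1 1 1 = true :=
  ⟨(a (l 3) (l 3)), by decide +kernel⟩

theorem c_pp_102_a : CertB 536870912 536870912 0 536870912 697932185 42949674 3 eng mog cd1q1 cd2q2a pd0 false true true .npp 1 0 2
    ndB1q1 ndB2q2a pcB0 Cut.none Ext.none :=
  certB2 (fam := false) (s1 := true) (s2 := true) (a := 1) (b := 0) (c := 2) (cn := .npp) (n1 := ndB1q1) (n2 := ndB2q2a) (pc := pcB0) (cut := Cut.none) (xt := Ext.none) (P1 := 536870912) (W1 := 536870912) (P2 := 0) (W2 := 536870912) (P3 := 697932185) (W3 := 42949674) (N0 := 3) (En := eng) (mo := mog) (C1 := cd1q1) (C2 := cd2q2a) (C3 := pd0)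
    rfl (fun _ => rfl) k0_pp_102_a

noncomputable def f_pp_102_b : ℕ → ℕ → ℕ → ℕ → Bool := onCell 536870912 536870912 0 536870912 697932185 42949674
    (rowB 3 eng mog cd1q1 cd2q2b pd0 1 false true true .npp 1 0 2 (qsf 536870912 536870912 1239849684 370763052 0) ndB1q1 ndB2q2b pcB0 Cut.none Ext.none)

def k0_pp_102_b : ∃ t, chk3 f_pp_102_b t 1 1 1 = true :=
  ⟨(l 3), by decide +kernel⟩

theorem c_pp_102_b : CertB 536870912 536870912 1239849684 370763052 697932185 42949674 3 eng mog cd1q1 cd2q2b pd0 false true true .npp 1 0 2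
    ndB1q1 ndB2q2b pcB0 Cut.none Ext.none :=
  certB1 (fam := false) (s1 := true) (s2 := true) (a := 1) (b := 0) (c := 2) (cn := .npp) (n1 := ndB1q1) (n2 := ndB2q2b) (pc := pcB0) (cut := Cut.none) (xt := Ext.none) (P1 := 536870912) (W1 := 536870912) (P2 := 1239849684) (W2 := 370763052) (P3 := 697932185) (W3 := 42949674) (N0 := 3) (En := eng) (mo := mog) (C1 := cd1q1) (C2 := cd2q2b) (C3 := pd0)
    rfl (fun _ => rfl) k0_pp_102_b

noncomputable def f_pp_112_a : ℕ → ℕ → ℕ → ℕ → Bool := onCell 536870912 536870912 0 536870912 697932185 42949674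
    (rowB 3 eng mog cd1q1 cd2q2a pd1 0 false true true .dn 1 1 2 (qsf 536870912 536870912 0 536870912 1) ndB1q1 ndB2q2a pcB1 Cut.none Ext.none)

def k0_pp_112_a : ∃ t, chk3 f_pp_112_a t 1 1 1 = true :=
  ⟨(a (b (a (l 3) (l 3)) (l 3)) (l 1)), by decide +kernel⟩

theorem c_pp_112_a : CertB 536870912 536870912 0 536870912 697932185 42949674 3 eng mog cd1q1 cd2q2a pd1 false true true .dn 1 1 2
    ndB1q1 ndB2q2a pcB1 Cut.none Ext.none :=
  certB0 (fam := false) (s1 := true) (s2 := true) (a := 1) (b := 1) (c := 2) (cn := .dn) (n1 := ndB1q1) (n2 := ndB2q2a) (pc := pcB1) (cut := Cut.none) (xt := Ext.none) (P1 := 536870912) (W1 := 536870912) (P2 := 0) (W2 := 536870912) (P3 := 697932185) (W3 := 42949674) (N0 := 3) (En := eng) (mo := mog) (C1 := cd1q1) (C2 := cd2q2a) (C3 := pd1)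
    rfl k0_pp_112_a

noncomputable def f_pp_112_b : ℕ → ℕ → ℕ → ℕ → Bool := onCell 536870912 536870912 536870912 536870912 697932185 42949674
    (rowB 3 eng mog cd1q1 cd2q2b pd1 1 false true true .dn 1 1 2 (qsf 536870912 536870912 1239849684 370763052 1) ndB1q1 ndB2q2b pcB1 Cut.none Ext.none)

def k0_pp_112_b : ∃ t, chk3 f_pp_112_b t 1 1 1 = true :=
  ⟨(a (b (b (l 3) (b (a (b (l 3) (a (b (l 3) (l 252497070007)) (l 3))) (l 3)) (a (b (a (b (l 16766616) (l 16688784)) (l 16697704)) (a (l 16724656) (l 16654152))) (b (l 3) (a (l 120426788023) (l 3)))))) (b (b (a (b (a (l 16621608) (l 16625040)) (a (l 16577440) (l 16587808))) (b (a (l 16642944) (l 195051944295)) (a (l 16623080) (l 103247157303)))) (a (b (a (l 16523984) (l 16544056)) (l 16479984)) (b (a (l 16594984) (l 16689736)) (a (l 16568432) (l 2))))) (b (a (a (l 16391672) (l 16433240)) (a (l 16530304) (l 2))) (a (b (l 16338744) (l 16295784)) (l 2))))) (b (l 3) (b (b (a (b (l 3) (l 2)) (l 2)) (l 2)) (l 2)))),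 by decide +kernel⟩

theorem c_pp_112_b : CertB 536870912 536870912 1239849684 370763052 697932185 42949674 3 eng mog cd1q1 cd2q2b pd1 false true true .dn 1 1 2
    ndB1q1 ndB2q2b pcB1 Cut.none Ext.none :=
  certB1 (fam := false) (s1 := true) (s2 := true) (a := 1) (b := 1) (c := 2) (cn := .dn) (n1 := ndB1q1) (n2 := ndB2q2b) (pc := pcB1) (cut := Cut.none) (xt := Ext.none) (P1 := 536870912) (W1 := 536870912) (P2 := 1239849684) (W2 := 370763052) (P3 := 697932185) (W3 := 42949674) (N0 := 3) (En := eng) (mo := mog) (C1 := cd1q1) (C2 := cd2q2b) (C3 := pd1)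
    rfl (fun _ => rfl) k0_pp_112_b

noncomputable def f_pp_113 : ℕ → ℕ → ℕ → ℕ → Bool := onCell 536870912 536870912 536870912 536870912 697932185 42949674
    (rowB 3 eng mog cd1q1 cd2q3 pd1 1 false true true .nn 1 1 3 (qsf 536870912 536870912 1610612736 536870912 1) ndB1q1 ndB2q3 pcB1 Cut.none Ext.none)

def k0_pp_113 : ∃ t, chk3 f_pp_113 t 1 1 1 = true :=
  ⟨(a (b (a (l 1) (a (l 1) (l 3))) (b (b (a (l 1) (b (a (l 1) (l 223505956519)) (a (l 16616440) (l 16682784)))) (a (b (l 1) (l 16509152)) (b (a (l 16588832) (l 16689664)) (a (l 16564512) (l 16699848))))) (b (a (l 95059293223) (b (a (l 16541896) (l 16717048)) (l 16617664))) (a (b (l 16334432) (l 16295632)) (l 16591432))))) (b (l 3) (b (b (a (b (l 3) (a (l 201494413287) (l 3))) (l 3)) (a (b (a (l 16833528) (l 211157899751)) (a (l 16911224) (l 145122828583))) (a (b (l 3) (a (l 227264001175) (l 3))) (l 3)))) (b (a (b (a (l 16893912) (l 17000464)) (a (l 16837304) (l 16925552))) (a (b (b (l 395841711223)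 (l 16762376)) (a (l 16965376) (l 16887016))) (b (a (l 389399184871) (l 3)) (a (b (l 16812504) (l 16829024)) (b (l 3) (l 387251656327)))))) (a (a (l 16762328) (b (l 16862960) (l 16805696))) (a (b (b (l 16928400) (l 16890912)) (l 16841248)) (b (a (l 16846496) (b (l 16785168) (l 16793456))) (a (l 16839016) (l 16801048))))))))), by decide +kernel⟩

theorem c_pp_113 : CertB 536870912 536870912 1610612736 536870912 697932185 42949674 3 eng mog cd1q1 cd2q3 pd1 false true true .nn 1 1 3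
    ndB1q1 ndB2q3 pcB1 Cut.none Ext.none :=
  certB1 (fam := false) (s1 := true) (s2 := true) (a := 1) (b := 1) (c := 3) (cn := .nn) (n1 := ndB1q1) (n2 := ndB2q3) (pc := pcB1) (cut := Cut.none) (xt := Ext.none) (P1 := 536870912) (W1 := 536870912) (P2 := 1610612736) (W2 := 536870912) (P3 := 697932185) (W3 := 42949674) (N0 := 3) (En := eng) (mo := mog) (C1 := cd1q1) (C2 := cd2q3) (C3 := pd1)
    rfl (fun _ => rfl) k0_pp_113

noncomputable def f_pp_123 : ℕ → ℕ → ℕ → ℕ → Bool := onCell 1073741824 536870912 1610612736 536870912 697932185 42949674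
    (rowB 3 eng mog cd1q1 cd2q3 pd2 2 false true true .npn 1 2 3 (qsf 536870912 536870912 1610612736 536870912 2) ndB1q1 ndB2q3 pcB2 Cut.none Ext.none)

def k0_pp_123 : ∃ t, chk3 f_pp_123 t 1 1 1 = true :=
  ⟨(a (a (b (b (a (b (l 16200064) (l 16258344)) (l 16180376)) (a (a (l 16534704) (l 16445656)) (l 16329344))) (b (a (b (l 16627480) (l 16689616)) (a (l 16552864) (l 16487904))) (a (b (l 16732864) (a (l 16764968) (l 16712104))) (b (l 16588928) (l 16615344))))) (b (a (b (l 166999694535) (l 16342320)) (b (l 1) (l 16262032))) (b (a (a (l 16432792) (l 16393904)) (l 16407696)) (a (a (b (l 16645384) (a (l 16546456) (l 16518976))) (b (l 16463456) (l 16494176))) (l 16649976))))) (a (b (b (l 1) (a (l 16320152) (l 1))) (b (a (l 16426088) (l 16447720)) (a (l 16528072) (l 16546840)))) (b (l 1) (a (l 16606360) (l 16456576))))), by decide +kernel⟩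

theorem c_pp_123 : CertB 536870912 536870912 1610612736 536870912 697932185 42949674 3 eng mog cd1q1 cd2q3 pd2 false true true .npn 1 2 3
    ndB1q1 ndB2q3 pcB2 Cut.none Ext.none :=
  certB2 (fam := false) (s1 := true) (s2 := true) (a := 1) (b := 2) (c := 3) (cn := .npn) (n1 := ndB1q1) (n2 := ndB2q3) (pc := pcB2) (cut := Cut.none) (xt := Ext.none) (P1 := 536870912) (W1 := 536870912) (P2 := 1610612736) (W2 := 536870912) (P3 := 697932185) (W3 := 42949674) (N0 := 3) (En := eng) (mo := mog) (C1 := cd1q1) (C2 := cd2q3) (C3 := pd2)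
    rfl (fun _ => rfl) k0_pp_123

noncomputable def f_pp_133 : ℕ → ℕ → ℕ → ℕ → Bool := onCell 1610612736 536870912 1610612736 536870912 697932185 42949674
    (rowB 3 eng mog cd1q1 cd2q3 pd3 2 false true true .dn 1 3 3 (qsf 536870912 536870912 1610612736 536870912 3) ndB1q1 ndB2q3 pcB3 Cut.none Ext.none)

def k0_pp_133 : ∃ t, chk3 f_pp_133 t 1 1 1 = true :=
  ⟨(a (b (l 1) (a (b (l 1) (l 16609744)) (l 1))) (l 1)), by decide +kernel⟩

theorem c_pp_133 : CertB 536870912 536870912 1610612736 536870912 697932185 42949674 3 eng mog cd1q1 cd2q3 pd3 false true true .dn 1 3 3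
    ndB1q1 ndB2q3 pcB3 Cut.none Ext.none :=
  certB2 (fam := false) (s1 := true) (s2 := true) (a := 1) (b := 3) (c := 3) (cn := .dn) (n1 := ndB1q1) (n2 := ndB2q3) (pc := pcB3) (cut := Cut.none) (xt := Ext.none) (P1 := 536870912) (W1 := 536870912) (P2 := 1610612736) (W2 := 536870912) (P3 := 697932185) (W3 := 42949674) (N0 := 3) (En := eng) (mo := mog) (C1 := cd1q1) (C2 := cd2q3) (C3 := pd3)
    rfl (fun _ => rfl) k0_pp_133

noncomputable def f_pp_202_aa : ℕ → ℕ → ℕ → ℕ → Bool := onCell 0 536870912 0 536870912 697932185 42949674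
    (rowB 3 eng mog cd1q2a cd2q2a pd0 0 false true true .pp 2 0 2 (qsf 0 536870912 0 536870912 0) ndB1q2a ndB2q2a pcB0 Cut.none Ext.none)

def k0_pp_202_aa : ∃ t, chk3 f_pp_202_aa t 1 1 1 = true :=
  ⟨(l 3), by decide +kernel⟩

theorem c_pp_202_aa : CertB 0 536870912 0 536870912 697932185 42949674 3 eng mog cd1q2a cd2q2a pd0 false true true .pp 2 0 2
    ndB1q2a ndB2q2a pcB0 Cut.none Ext.none :=
  certB0 (fam := false) (s1 := true) (s2 := true) (a := 2) (b := 0) (c := 2) (cn := .pp) (n1 := ndB1q2a) (n2 := ndB2q2a) (pc := pcB0) (cut := Cut.none) (xt := Ext.none) (P1 := 0) (W1 := 536870912) (P2 := 0) (W2 := 536870912) (P3 := 697932185) (W3 := 42949674) (N0 := 3) (En := eng) (mo := mog) (C1 := cd1q2a) (C2 := cd2q2a) (C3 := pd0)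
    rfl k0_pp_202_aa

noncomputable def f_pp_202_ab : ℕ → ℕ → ℕ → ℕ → Bool := onCell 0 536870912 1239849684 370763052 697932185 42949674
    (rowB 3 eng mog cd1q2a cd2q2b pd0 0 false true true .pp 2 0 2 (qsf 0 536870912 1239849684 370763052 0) ndB1q2a ndB2q2b pcB0 Cut.none Ext.none)

def k0_pp_202_ab : ∃ t, chk3 f_pp_202_ab t 1 1 1 = true :=
  ⟨(l 3), by decide +kernel⟩

theorem c_pp_202_ab : CertB 0 536870912 1239849684 370763052 697932185 42949674 3 eng mog cd1q2a cd2q2b pd0 false true true .pp 2 0 2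
    ndB1q2a ndB2q2b pcB0 Cut.none Ext.none :=
  certB0 (fam := false) (s1 := true) (s2 := true) (a := 2) (b := 0) (c := 2) (cn := .pp) (n1 := ndB1q2a) (n2 := ndB2q2b) (pc := pcB0) (cut := Cut.none) (xt := Ext.none) (P1 := 0) (W1 := 536870912) (P2 := 1239849684) (W2 := 370763052) (P3 := 697932185) (W3 := 42949674) (N0 := 3) (En := eng) (mo := mog) (C1 := cd1q2a) (C2 := cd2q2b) (C3 := pd0)
    rfl k0_pp_202_ab

noncomputable def f_pp_202_ba : ℕ → ℕ → ℕ → ℕ → Bool := onCell 1239849684 370763052 0 536870912 697932185 42949674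
    (rowB 3 eng mog cd1q2b cd2q2a pd0 0 false true true .pp 2 0 2 (qsf 1239849684 370763052 0 536870912 0) ndB1q2b ndB2q2a pcB0 Cut.none Ext.none)

def k0_pp_202_ba : ∃ t, chk3 f_pp_202_ba t 1 1 1 = true :=
  ⟨(l 3), by decide +kernel⟩

theorem c_pp_202_ba : CertB 1239849684 370763052 0 536870912 697932185 42949674 3 eng mog cd1q2b cd2q2a pd0 false true true .pp 2 0 2
    ndB1q2b ndB2q2a pcB0 Cut.none Ext.none :=
  certB0 (fam := false) (s1 := true) (s2 := true) (a := 2) (b := 0) (c := 2) (cn := .pp) (n1 := ndB1q2b) (n2 := ndB2q2a) (pc := pcB0) (cut := Cut.none) (xt := Ext.none) (P1 := 1239849684) (W1 := 370763052) (P2 := 0) (W2 := 536870912) (P3 := 697932185) (W3 := 42949674) (N0 := 3) (En := eng) (mo := mog) (C1 := cd1q2b) (C2 := cd2q2a) (C3 := pd0)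
    rfl k0_pp_202_ba

noncomputable def f_pp_202_bb : ℕ → ℕ → ℕ → ℕ → Bool := onCell 1239849684 370763052 1239849684 370763052 697932185 42949674
    (rowB 3 eng mog cd1q2b cd2q2b pd0 0 false true true .pp 2 0 2 (qsf 1239849684 370763052 1239849684 370763052 0) ndB1q2b ndB2q2b pcB0 Cut.none Ext.none)

def k0_pp_202_bb : ∃ t, chk3 f_pp_202_bb t 1 1 1 = true :=
  ⟨(l 3), by decide +kernel⟩

theorem c_pp_202_bb : CertB 1239849684 370763052 1239849684 370763052 697932185 42949674 3 eng mog cd1q2b cd2q2b pd0 false true true .pp 2 0 2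
    ndB1q2b ndB2q2b pcB0 Cut.none Ext.none :=
  certB0 (fam := false) (s1 := true) (s2 := true) (a := 2) (b := 0) (c := 2) (cn := .pp) (n1 := ndB1q2b) (n2 := ndB2q2b) (pc := pcB0) (cut := Cut.none) (xt := Ext.none) (P1 := 1239849684) (W1 := 370763052) (P2 := 1239849684) (W2 := 370763052) (P3 := 697932185) (W3 := 42949674) (N0 := 3) (En := eng) (mo := mog) (C1 := cd1q2b) (C2 := cd2q2b) (C3 := pd0)
    rfl k0_pp_202_bb

noncomputable def f_pp_203_a : ℕ → ℕ → ℕ → ℕ → Bool := onCell 0 536870912 0 536870912 697932185 42949674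
    (rowB 3 eng mog cd1q2a cd2q3 pd0 1 false true true .up 2 0 3 (qsf 0 536870912 1610612736 536870912 0) ndB1q2a ndB2q3 pcB0 Cut.none Ext.none)

def k0_pp_203_a : ∃ t, chk3 f_pp_203_a t 1 1 1 = true :=
  ⟨(l 3), by decide +kernel⟩

theorem c_pp_203_a : CertB 0 536870912 1610612736 536870912 697932185 42949674 3 eng mog cd1q2a cd2q3 pd0 false true true .up 2 0 3
    ndB1q2a ndB2q3 pcB0 Cut.none Ext.none :=
  certB1 (fam := false) (s1 := true) (s2 := true) (a := 2) (b := 0) (c := 3) (cn := .up) (n1 := ndB1q2a) (n2 := ndB2q3) (pc := pcB0) (cut := Cut.none) (xt := Ext.none) (P1 := 0) (W1 := 536870912) (P2 := 1610612736) (W2 := 536870912) (P3 := 697932185) (W3 := 42949674) (N0 := 3) (En := eng) (mo := mog) (C1 := cd1q2a) (C2 := cd2q3) (C3 := pd0)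
    rfl (fun _ => rfl) k0_pp_203_a

noncomputable def f_pp_203_b : ℕ → ℕ → ℕ → ℕ → Bool := onCell 1239849684 370763052 1610612736 536870912 697932185 42949674
    (rowB 3 eng mog cd1q2b cd2q3 pd0 0 false true true .up 2 0 3 (qsf 1239849684 370763052 1610612736 536870912 0) ndB1q2b ndB2q3 pcB0 Cut.none Ext.none)

def k0_pp_203_b : ∃ t, chk3 f_pp_203_b t 1 1 1 = true :=
  ⟨(l 3), by decide +kernel⟩

theorem c_pp_203_b : CertB 1239849684 370763052 1610612736 536870912 697932185 42949674 3 eng mog cd1q2b cd2q3 pd0 false true true .up 2 0 3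
    ndB1q2b ndB2q3 pcB0 Cut.none Ext.none :=
  certB0 (fam := false) (s1 := true) (s2 := true) (a := 2) (b := 0) (c := 3) (cn := .up) (n1 := ndB1q2b) (n2 := ndB2q3) (pc := pcB0) (cut := Cut.none) (xt := Ext.none) (P1 := 1239849684) (W1 := 370763052) (P2 := 1610612736) (W2 := 536870912) (P3 := 697932185) (W3 := 42949674) (N0 := 3) (En := eng) (mo := mog) (C1 := cd1q2b) (C2 := cd2q3) (C3 := pd0)
    rfl k0_pp_203_b

noncomputable def cut_pp_213_a : Cut := Cut.of [[⟨0, 1, 0, 67108864⟩, ⟨1, 1, 0, 67108864⟩, ⟨2, 2, 0, 16777216⟩]]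

noncomputable def f_pp_213_a : ℕ → ℕ → ℕ → ℕ → Bool := onCell 0 536870912 1610612736 536870912 697932185 42949674
    (rowB 3 eng mog cd1q2a cd2q3 pd1 0 false true true .pnn 2 1 3 (qsf 0 536870912 1610612736 536870912 1) ndB1q2a ndB2q3 pcB1 cut_pp_213_a Ext.none)

def k0_pp_213_a : ∃ t, chk3 f_pp_213_a t 1 1 1 = true :=
  ⟨(b (l 3) (a (l 3) (b (l 3) (a (l 3) (b (l 3) (a (l 3) (b (l 3) (b (l 3) (b (l 3) (l 6)))))))))), by decide +kernel⟩

theorem c_pp_213_a : CertB 0 536870912 1610612736 536870912 697932185 42949674 3 eng mog cd1q2a cd2q3 pd1 false true true .pnn 2 1 3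
    ndB1q2a ndB2q3 pcB1 cut_pp_213_a Ext.none :=
  certB0 (fam := false) (s1 := true) (s2 := true) (a := 2) (b := 1) (c := 3) (cn := .pnn) (n1 := ndB1q2a) (n2 := ndB2q3) (pc := pcB1) (cut := cut_pp_213_a) (xt := Ext.none) (P1 := 0) (W1 := 536870912) (P2 := 1610612736) (W2 := 536870912) (P3 := 697932185) (W3 := 42949674) (N0 := 3) (En := eng) (mo := mog) (C1 := cd1q2a) (C2 := cd2q3) (C3 := pd1)
    rfl k0_pp_213_a

noncomputable def cut_pp_213_b : Cut := Cut.of [[⟨0, 1, 0, 67108864⟩, ⟨1, 1, 0, 67108864⟩, ⟨2, 2, 0, 16777216⟩]]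

noncomputable def f_pp_213_b : ℕ → ℕ → ℕ → ℕ → Bool := onCell 1239849684 370763052 1610612736 536870912 697932185 42949674
    (rowB 3 eng mog cd1q2b cd2q3 pd1 0 false true true .pnn 2 1 3 (qsf 1239849684 370763052 1610612736 536870912 1) ndB1q2b ndB2q3 pcB1 cut_pp_213_b Ext.none)

def k0_pp_213_b : ∃ t, chk3 f_pp_213_b t 1 1 1 = true :=
  ⟨(l 3), by decide +kernel⟩

theorem c_pp_213_b : CertB 1239849684 370763052 1610612736 536870912 697932185 42949674 3 eng mog cd1q2b cd2q3 pd1 false true true .pnn 2 1 3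
    ndB1q2b ndB2q3 pcB1 cut_pp_213_b Ext.none :=
  certB0 (fam := false) (s1 := true) (s2 := true) (a := 2) (b := 1) (c := 3) (cn := .pnn) (n1 := ndB1q2b) (n2 := ndB2q3) (pc := pcB1) (cut := cut_pp_213_b) (xt := Ext.none) (P1 := 1239849684) (W1 := 370763052) (P2 := 1610612736) (W2 := 536870912) (P3 := 697932185) (W3 := 42949674) (N0 := 3) (En := eng) (mo := mog) (C1 := cd1q2b) (C2 := cd2q3) (C3 := pd1)
    rfl k0_pp_213_b

noncomputable def f_pp_303 : ℕ → ℕ → ℕ → ℕ → Bool := onCell 1610612736 536870912 1610612736 536870912 697932185 42949674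
    (rowB 3 eng mog cd1q3 cd2q3 pd0 0 false true true .npn 3 0 3 (qsf 1610612736 536870912 1610612736 536870912 0) ndB1q3 ndB2q3 pcB0 Cut.none Ext.none)

def k0_pp_303 : ∃ t, chk3 f_pp_303 t 1 1 1 = true :=
  ⟨(l 3), by decide +kernel⟩

theorem c_pp_303 : CertB 1610612736 536870912 1610612736 536870912 697932185 42949674 3 eng mog cd1q3 cd2q3 pd0 false true true .npn 3 0 3
    ndB1q3 ndB2q3 pcB0 Cut.none Ext.none :=
  certB0 (fam := false) (s1 := true) (s2 := true) (a := 3) (b := 0) (c := 3) (cn := .npn) (n1 := ndB1q3) (n2 := ndB2q3) (pc := pcB0) (cut := Cut.none) (xt := Ext.none) (P1 := 1610612736) (W1 := 536870912) (P2 := 1610612736) (W2 := 536870912) (P3 := 697932185) (W3 := 42949674) (N0 := 3) (En := eng) (mo := mog) (C1 := cd1q3) (C2 := cd2q3) (C3 := pd0)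
    rfl k0_pp_303

noncomputable def f_pp_313 : ℕ → ℕ → ℕ → ℕ → Bool := onCell 1610612736 536870912 1610612736 536870912 697932185 42949674
    (rowB 3 eng mog cd1q3 cd2q3 pd1 0 false true true .dn 3 1 3 (qsf 1610612736 536870912 1610612736 536870912 1) ndB1q3 ndB2q3 pcB1 Cut.none Ext.none)

def k0_pp_313 : ∃ t, chk3 f_pp_313 t 1 1 1 = true :=
  ⟨(l 3), by decide +kernel⟩

theorem c_pp_313 : CertB 1610612736 536870912 1610612736 536870912 697932185 42949674 3 eng mog cd1q3 cd2q3 pd1 false true true .dn 3 1 3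
    ndB1q3 ndB2q3 pcB1 Cut.none Ext.none :=
  certB0 (fam := false) (s1 := true) (s2 := true) (a := 3) (b := 1) (c := 3) (cn := .dn) (n1 := ndB1q3) (n2 := ndB2q3) (pc := pcB1) (cut := Cut.none) (xt := Ext.none) (P1 := 1610612736) (W1 := 536870912) (P2 := 1610612736) (W2 := 536870912) (P3 := 697932185) (W3 := 42949674) (N0 := 3) (En := eng) (mo := mog) (C1 := cd1q3) (C2 := cd2q3) (C3 := pd1)
    rfl k0_pp_313

noncomputable def f_pm_001 : ℕ → ℕ → ℕ → ℕ → Bool := onCell 0 536870912 536870912 536870912 697932185 42949674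
    (rowB 3 eng mog cd1q0 cd2q1 pd0 0 false true false .up 0 0 1 (qsf 0 536870912 536870912 536870912 0) ndB1q0 ndB2q1 pcB0 Cut.none Ext.none)

def k0_pm_001 : ∃ t, chk3 f_pm_001 t 1 1 1 = true :=
  ⟨(l 4), by decide +kernel⟩

theorem c_pm_001 : CertB 0 536870912 536870912 536870912 697932185 42949674 3 eng mog cd1q0 cd2q1 pd0 false true false .up 0 0 1
    ndB1q0 ndB2q1 pcB0 Cut.none Ext.none :=
  certB0 (fam := false) (s1 := true) (s2 := false) (a := 0) (b := 0) (c := 1) (cn := .up) (n1 := ndB1q0) (n2 := ndB2q1) (pc := pcB0) (cut := Cut.none) (xt := Ext.none) (P1 := 0) (W1 := 536870912) (P2 := 536870912) (W2 := 536870912) (P3 := 697932185) (W3 := 42949674) (N0 := 3) (En := eng) (mo := mog) (C1 := cd1q0) (C2 := cd2q1) (C3 := pd0)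
    rfl k0_pm_001

noncomputable def f_pm_011 : ℕ → ℕ → ℕ → ℕ → Bool := onCell 0 536870912 536870912 536870912 697932185 42949674
    (rowB 3 eng mog cd1q0 cd2q1 pd1 0 false true false .pnn 0 1 1 (qsf 0 536870912 536870912 536870912 1) ndB1q0 ndB2q1 pcB1 Cut.none Ext.none)

def k0_pm_011 : ∃ t, chk3 f_pm_011 t 1 1 1 = true :=
  ⟨(l 4), by decide +kernel⟩

theorem c_pm_011 : CertB 0 536870912 536870912 536870912 697932185 42949674 3 eng mog cd1q0 cd2q1 pd1 false true false .pnn 0 1 1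
    ndB1q0 ndB2q1 pcB1 Cut.none Ext.none :=
  certB0 (fam := false) (s1 := true) (s2 := false) (a := 0) (b := 1) (c := 1) (cn := .pnn) (n1 := ndB1q0) (n2 := ndB2q1) (pc := pcB1) (cut := Cut.none) (xt := Ext.none) (P1 := 0) (W1 := 536870912) (P2 := 536870912) (W2 := 536870912) (P3 := 697932185) (W3 := 42949674) (N0 := 3) (En := eng) (mo := mog) (C1 := cd1q0) (C2 := cd2q1) (C3 := pd1)
    rfl k0_pm_011

noncomputable def cut_pm_012_a : Cut := Cut.of [[⟨0, 0, 0, 67108864⟩, ⟨1, 1, 0, 67108864⟩, ⟨2, 1, 0, 67108864⟩]]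

noncomputable def xt_pm_012_a : Ext := extD2 3 ⟨7, 3, 3, 10, 49, 25, 3, 4, 67, 200, 3, 16⟩ eng cd1q0 cd2q2a pd1 false true false .pnp 0 1 2 rfl ndB1q0 ndB2q2a pcB1

noncomputable def f_pm_012_a : ℕ → ℕ → ℕ → ℕ → Bool := onCell 536870912 536870912 0 536870912 697932185 42949674
    (rowB 3 eng mog cd1q0 cd2q2a pd1 2 false true false .pnp 0 1 2 (qsf 0 536870912 0 536870912 1) ndB1q0 ndB2q2a pcB1 cut_pm_012_a xt_pm_012_a)

def k0_pm_012_a : ∃ t, chk3 f_pm_012_a t 2 1 1 = true :=
  ⟨(b (a (b (l 2) (a (l 2) (b (l 2) (l 16495640)))) (b (a (b (l 16565208) (l 16532984)) (b (l 16518584) (l 16489448))) (a (b (l 16501144) (l 16467024)) (b (l 16462512) (l 16437840))))) (a (b (a (l 2) (b (l 16451000) (l 16407360))) (b (a (l 16337496) (l 16370056)) (a (l 16294840) (l 16392360)))) (b (a (b (l 16436040) (l 16410688)) (b (l 16419720) (l 16453552))) (b (a (l 16354840) (a (l 16414512) (l 16426544))) (a (a (l 16391328) (l 16416872)) (b (l 16526744) (l 16467960))))))), by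 decide +kernel⟩

def k1_pm_012_a : ∃ t, chk3 f_pm_012_a t 3 2 1 = true :=
  ⟨(a (a (b (b (l 16470472) (a (l 16457376) (l 16434560))) (b (l 16423064) (l 16407840))) (b (b (a (l 16436496) (l 16425664)) (a (l 16412496) (l 16401800))) (a (b (l 16394592) (l 16386984)) (b (l 16386880) (l 16384104))))) (a (b (b (a (l 16418000) (l 16410328)) (a (l 16394472) (l 16388304))) (a (b (l 16382448) (l 16384528)) (b (l 16379080) (l 16385048)))) (b (a (b (l 16402992) (l 16381304)) (b (l 16393480) (b (l 16375696) (l 16368968)))) (a (b (l 16373888) (l 16383488)) (b (a (l 16369208) (l 16366384)) (a (l 16382432) (l 16382064))))))), by decide +kernel⟩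

def k2_pm_012_a : ∃ t, chk3 f_pm_012_a t 3 3 1 = true :=
  ⟨(a (b (b (a (a (l 16406952) (l 16399144)) (a (l 16393560) (l 16397408))) (a (a (l 16412640) (l 16414608)) (a (a (l 16416880) (l 16420528)) (b (l 16420304) (l 16443368))))) (a (b (b (l 16435256) (l 16458456)) (b (l 16489648) (b (l 16518472) (l 16537544)))) (b (a (b (l 16453584) (l 16486008)) (b (l 16472800) (l 16509040))) (b (a (l 16526000) (l 595126405104094530973503)) (a (l 16574144) (l 16606832)))))) (b (a (b (a (l 16404152) (l 16409504)) (a (b (l 16432136) (l 16458536)) (b (l 16442056) (l 16473032)))) (b (a (b (l 16403416) (l 16424688)) (a (l 16418056) (b (l 16408128) (l 16434288)))) (a (b (l 16452832) (l 16530696)) (b (a (l 16461728) (l 16466728)) (a (l 16500280) (l 16505200)))))) (a (b (a (b (l 16491648) (l 16532648)) (b (l 16511152) (l 16557528))) (b (a (l 16582584) (l 16654160)) (a (b (l 16625240) (l 16635856)) (b (l 16652848) (b (a (l 16658160) (l 16675752)) (l 16697968)))))) (b (a (b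 (a (l 16526600) (l 16536408)) (a (l 16575992) (l 16585800))) (b (a (l 16543880) (a (l 16548216) (l 16551024))) (a (l 16614872) (a (l 16599800) (l 16624632))))) (b (a (a (l 16631600) (l 16663088)) (a (b (l 16636728) (l 6)) (l 6))) (a (b (a (l 16677688) (l 16689848)) (a (b (l 16693768) (l 16704472)) (l 6))) (l 6))))))), by decide +kernel⟩

theorem s3_pm_012_a : ∃ t, chk3 f_pm_012_a t 3 1 1 = true := ex3_b k1_pm_012_a k2_pm_012_a

theorem s4_pm_012_a : ∃ t, chk3 f_pm_012_a t 1 1 1 = true := ex3_a k0_pm_012_a s3_pm_012_a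

theorem c_pm_012_a : CertB 0 536870912 0 536870912 697932185 42949674 3 eng mog cd1q0 cd2q2a pd1 false true false .pnp 0 1 2
    ndB1q0 ndB2q2a pcB1 cut_pm_012_a xt_pm_012_a :=
  certB2 (fam := false) (s1 := true) (s2 := false) (a := 0) (b := 1) (c := 2) (cn := .pnp) (n1 := ndB1q0) (n2 := ndB2q2a) (pc := pcB1) (cut := cut_pm_012_a) (xt := xt_pm_012_a) (P1 := 0) (W1 := 536870912) (P2 := 0) (W2 := 536870912) (P3 := 697932185) (W3 := 42949674) (N0 := 3) (En := eng) (mo := mog) (C1 := cd1q0) (C2 := cd2q2a) (C3 := pd1)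
    rfl (fun _ => rfl) s4_pm_012_a

noncomputable def cut_pm_012_b : Cut := Cut.of [[⟨0, 0, 0, 67108864⟩, ⟨1, 1, 0, 67108864⟩, ⟨2, 1, 0, 67108864⟩]]

noncomputable def f_pm_012_b : ℕ → ℕ → ℕ → ℕ → Bool := onCell 536870912 536870912 1239849684 370763052 697932185 42949674
    (rowB 3 eng mog cd1q0 cd2q2b pd1 2 false true false .pnp 0 1 2 (qsf 0 536870912 1239849684 370763052 1) ndB1q0 ndB2q2b pcB1 cut_pm_012_b Ext.none)

def k0_pm_012_b : ∃ t, chk3 f_pm_012_b t 1 1 1 = true :=
  ⟨(a (a (l 2) (b (b (a (b (l 16575720) (l 2)) (b (l 16521024) (l 16505280))) (a (l 2) (l 16504552))) (l 2))) (a (b (a (b (b (l 16506936) (l 16435024)) (b (l 16419304) (l 16416400))) (b (b (a (l 16423000) (l 16405648)) (l 16430264)) (a (l 16347160) (l 16308528)))) (a (l 2) (b (a (l 16352144) (l 16300792)) (l 2)))) (b (a (b (a (b (l 16393088) (l 16331400)) (b (l 16381552) (l 16309648))) (b (l 16272584) (l 16243312))) (b (a (b (l 16369096) (l 16286344)) (b (l 16398128) (l 16263416)))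 (b (a (l 16225128) (l 16190280)) (a (l 16184480) (l 16140344))))) (a (b (l 16311384) (l 16261312)) (b (b (l 16136008) (l 16126088)) (l 16142488)))))), by decide +kernel⟩

theorem c_pm_012_b : CertB 0 536870912 1239849684 370763052 697932185 42949674 3 eng mog cd1q0 cd2q2b pd1 false true false .pnp 0 1 2
    ndB1q0 ndB2q2b pcB1 cut_pm_012_b Ext.none :=
  certB2 (fam := false) (s1 := true) (s2 := false) (a := 0) (b := 1) (c := 2) (cn := .pnp) (n1 := ndB1q0) (n2 := ndB2q2b) (pc := pcB1) (cut := cut_pm_012_b) (xt := Ext.none) (P1 := 0) (W1 := 536870912) (P2 := 1239849684) (W2 := 370763052) (P3 := 697932185) (W3 := 42949674) (N0 := 3) (En := eng) (mo := mog) (C1 := cd1q0) (C2 := cd2q2b) (C3 := pd1)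
    rfl (fun _ => rfl) k0_pm_012_b

noncomputable def cut_pm_022_a : Cut := Cut.of [[⟨0, 0, 0, 67108864⟩, ⟨1, 1, 0, 67108864⟩, ⟨2, 1, 0, 67108864⟩]]

noncomputable def f_pm_022_a : ℕ → ℕ → ℕ → ℕ → Bool := onCell 1073741824 536870912 0 536870912 697932185 42949674
    (rowB 3 eng mog cd1q0 cd2q2a pd2 2 false true false .pp 0 2 2 (qsf 0 536870912 0 536870912 2) ndB1q0 ndB2q2a pcB2 cut_pm_022_a Ext.none)

def k0_pm_022_a : ∃ t, chk3 f_pm_022_a t 2 2 1 = true :=
  ⟨(a (a (b (a (b (l 16398200) (b (l 16382864) (l 16378160))) (b (l 16411448) (l 16464176))) (a (b (a (l 16372992) (l 16388176)) (a (b (l 16383784) (l 16398464)) (b (l 16402096) (l 16418152)))) (b (a (l 16402248) (l 16414200)) (a (l 16447408) (l 16441408))))) (b (b (a (l 16420840) (l 16429800)) (a (l 16417424) (b (l 16430128) (l 16435656)))) (a (b (b (l 16425184) (l 16436520)) (a (l 16477160) (l 16512736))) (b (a (l 16447608) (l 16500464)) (a (b (l 16473184) (l 16518120)) (b (l 16486384) (l 16511816)))))))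 (a (b (a (b (l 16439136) (a (l 16444528) (l 16451848))) (b (l 1) (l 1))) (a (b (a (b (l 16460592) (l 16477392)) (b (l 16469896) (l 176126737303))) (a (b (l 95596113335) (l 256120537127)) (l 1))) (l 1))) (l 1))), by decide +kernel⟩

def k1_pm_022_a : ∃ t, chk3 f_pm_022_a t 2 3 1 = true :=
  ⟨(a (b (a (a (b (a (b (l 16419072) (l 16445304)) (b (l 16439384) (l 16466360))) (b (a (l 16477392) (l 16500216)) (a (l 16516696) (l 16541640)))) (b (b (a (l 16457568) (l 16475384)) (a (l 16486536) (l 16506248))) (a (b (l 16522400) (l 16607736)) (b (l 16564944) (b (l 16576952) (l 16601480)))))) (b (a (a (b (l 16492864) (l 16525504)) (b (l 16510016) (l 16544288))) (a (b (l 16526760) (a (l 16558040) (l 294238416471))) (b (b (l 177200550919) (l 420939813511)) (l 1)))) (a (a (b (a (l 16580744) (l 16570112)) (b (l 16599192) (a (l 16615936) (l 253973107511)))) (b (b (l 16574192) (l 235719428439)) (b (l 461205311991) (l 1)))) (a (b (l 535830327271) (l 1)) (l 1))))) (a (b (a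 (b (a (a (l 16557320) (l 16571080)) (b (l 16577808) (l 16625744))) (l 6)) (b (a (b (l 16603400) (l 16631304)) (b (l 16628112) (a (l 16644496) (b (l 16618520) (l 380674778471))))) (a (l 6) (a (l 6) (a (l 6) (l 1)))))) (a (l 6) (a (l 6) (l 1)))) (b (a (b (a (b (a (l 257731233351) (l 519187423543)) (l 541736050359)) (l 1)) (l 1)) (l 1)) (l 1)))) (b (l 1) (l 1))), by decide +kernel⟩

def k2_pm_022_a : ∃ t, chk3 f_pm_022_a t 3 1 1 = true :=
  ⟨(l 1), by decide +kernel⟩

theorem s3_pm_022_a : ∃ t, chk3 f_pm_022_a t 2 1 1 = true := ex3_b k0_pm_022_a k1_pm_022_a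

theorem s4_pm_022_a : ∃ t, chk3 f_pm_022_a t 1 1 1 = true := ex3_a s3_pm_022_a k2_pm_022_a

theorem c_pm_022_a : CertB 0 536870912 0 536870912 697932185 42949674 3 eng mog cd1q0 cd2q2a pd2 false true false .pp 0 2 2
    ndB1q0 ndB2q2a pcB2 cut_pm_022_a Ext.none :=
  certB2 (fam := false) (s1 := true) (s2 := false) (a := 0) (b := 2) (c := 2) (cn := .pp) (n1 := ndB1q0) (n2 := ndB2q2a) (pc := pcB2) (cut := cut_pm_022_a) (xt := Ext.none) (P1 := 0) (W1 := 536870912) (P2 := 0) (W2 := 536870912) (P3 := 697932185) (W3 := 42949674) (N0 := 3) (En := eng) (mo := mog) (C1 := cd1q0) (C2 := cd2q2a) (C3 := pd2)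
    rfl (fun _ => rfl) s4_pm_022_a

noncomputable def cut_pm_022_b : Cut := Cut.of [[⟨0, 0, 0, 67108864⟩, ⟨1, 1, 0, 67108864⟩, ⟨2, 1, 0, 67108864⟩]]

noncomputable def f_pm_022_b : ℕ → ℕ → ℕ → ℕ → Bool := onCell 1073741824 536870912 1239849684 370763052 697932185 42949674
    (rowB 3 eng mog cd1q0 cd2q2b pd2 2 false true false .pp 0 2 2 (qsf 0 536870912 1239849684 370763052 2) ndB1q0 ndB2q2b pcB2 cut_pm_022_b Ext.none)

def k0_pm_022_b : ∃ t, chk3 f_pm_022_b t 1 1 1 = true :=
  ⟨(a (a (b (b (a (a (b (l 16356448) (l 16258648)) (b (l 16365160) (l 16265656))) (b (a (l 16414576) (l 16400048)) (a (l 16272624) (l 16279560)))) (a (b (l 16201560) (l 16119416)) (b (l 16190544) (l 16121960)))) (a (b (b (l 16079240) (l 16058712)) (b (l 16057992) (l 16068640))) (b (b (l 16071328) (l 16039456)) (l 16065296)))) (b (b (a (a (b (l 16385464) (l 16286048)) (a (a (l 16422472) (l 16455720)) (a (l 29024009591) (l 92911682119)))) (b (a (l 415570856023) (l 1)) (a (l 16317368)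 (l 390874538023)))) (a (a (l 16202992) (b (l 16375680) (l 16134176))) (a (a (l 16186536) (l 16195560)) (l 16371096)))) (a (b (a (l 16049040) (l 16178520)) (a (l 16005944) (l 16002824))) (b (a (l 16073136) (l 16084056)) (a (l 16021200) (l 16029848)))))) (b (a (b (l 1) (a (a (b (l 373694598567) (l 16160000)) (b (l 360809591223) (l 385505503095))) (a (b (l 1) (l 351145967399)) (l 1)))) (l 1)) (a (a (b (a (l 16081544) (l 16069912)) (l 16020872)) (b (a (b (l 16070000) (l 16035496)) (l 344166463687)) (a (l 15980128) (l 15985200)))) (a (a (b (l 389263408023) (l 15977112)) (b (l 426844296871) (l 15961184))) (b (l 1) (b (l 433287161255) (l 249140375335))))))), by decide +kernel⟩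

theorem c_pm_022_b : CertB 0 536870912 1239849684 370763052 697932185 42949674 3 eng mog cd1q0 cd2q2b pd2 false true false .pp 0 2 2
    ndB1q0 ndB2q2b pcB2 cut_pm_022_b Ext.none :=
  certB2 (fam := false) (s1 := true) (s2 := false) (a := 0) (b := 2) (c := 2) (cn := .pp) (n1 := ndB1q0) (n2 := ndB2q2b) (pc := pcB2) (cut := cut_pm_022_b) (xt := Ext.none) (P1 := 0) (W1 := 536870912) (P2 := 1239849684) (W2 := 370763052) (P3 := 697932185) (W3 := 42949674) (N0 := 3) (En := eng) (mo := mog) (C1 := cd1q0) (C2 := cd2q2b) (C3 := pd2)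
    rfl (fun _ => rfl) k0_pm_022_b

noncomputable def f_pm_023 : ℕ → ℕ → ℕ → ℕ → Bool := onCell 0 536870912 1073741824 536870912 697932185 42949674
    (rowB 3 eng mog cd1q0 cd2q3 pd2 1 false true false .up 0 2 3 (qsf 0 536870912 1610612736 536870912 2) ndB1q0 ndB2q3 pcB2 Cut.none Ext.none)

def k0_pm_023 : ∃ t, chk3 f_pm_023 t 1 1 1 = true :=
  ⟨(b (a (b (l 1) (a (l 1) (b (l 1) (l 300143441495)))) (b (a (b (l 1) (l 155188263335)) (b (a (l 16061568) (l 16083952)) (l 73583916791))) (a (b (a (l 254509291911) (l 16005344)) (l 16138424)) (b (a (l 16023944) (l 16066488)) (l 16105584))))) (b (a (a (b (l 1) (l 357588447399)) (b (l 197063779559) (l 278131514663))) (b (a (l 16067152) (l 16177104)) (a (l 16081640) (l 16293112)))) (a (b (a (l 422012450455) (l 15954392)) (a (a (l 413422957911) (l 15945352)) (l 16000600))) (b (a (l 16133056) (l 16430984)) (a (l 16300576) (l 16534224)))))), by decide +kernel⟩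

theorem c_pm_023 : CertB 0 536870912 1610612736 536870912 697932185 42949674 3 eng mog cd1q0 cd2q3 pd2 false true false .up 0 2 3
    ndB1q0 ndB2q3 pcB2 Cut.none Ext.none :=
  certB1 (fam := false) (s1 := true) (s2 := false) (a := 0) (b := 2) (c := 3) (cn := .up) (n1 := ndB1q0) (n2 := ndB2q3) (pc := pcB2) (cut := Cut.none) (xt := Ext.none) (P1 := 0) (W1 := 536870912) (P2 := 1610612736) (W2 := 536870912) (P3 := 697932185) (W3 := 42949674) (N0 := 3) (En := eng) (mo := mog) (C1 := cd1q0) (C2 := cd2q3) (C3 := pd2)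
    rfl (fun _ => rfl) k0_pm_023

noncomputable def f_pm_033 : ℕ → ℕ → ℕ → ℕ → Bool := onCell 0 536870912 1610612736 536870912 697932185 42949674
    (rowB 3 eng mog cd1q0 cd2q3 pd3 1 false true false .pnn 0 3 3 (qsf 0 536870912 1610612736 536870912 3) ndB1q0 ndB2q3 pcB3 Cut.none Ext.none)

def k0_pm_033 : ∃ t, chk3 f_pm_033 t 1 1 1 = true :=
  ⟨(a (b (b (b (a (b (l 15915688) (l 15911664)) (l 16067376)) (a (l 4) (l 16202056))) (l 4)) (a (l 4) (b (l 4) (a (b (l 4) (l 2)) (l 2))))) (b (a (b (b (l 16391776) (l 16453280)) (b (l 16505648) (l 16537632))) (b (b (l 16590296) (l 16628560)) (a (b (l 16628080) (l 2)) (l 2)))) (a (b (a (b (l 4) (l 2)) (l 2)) (l 2)) (l 2)))), by decide +kernel⟩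

theorem c_pm_033 : CertB 0 536870912 1610612736 536870912 697932185 42949674 3 eng mog cd1q0 cd2q3 pd3 false true false .pnn 0 3 3
    ndB1q0 ndB2q3 pcB3 Cut.none Ext.none :=
  certB1 (fam := false) (s1 := true) (s2 := false) (a := 0) (b := 3) (c := 3) (cn := .pnn) (n1 := ndB1q0) (n2 := ndB2q3) (pc := pcB3) (cut := Cut.none) (xt := Ext.none) (P1 := 0) (W1 := 536870912) (P2 := 1610612736) (W2 := 536870912) (P3 := 697932185) (W3 := 42949674) (N0 := 3) (En := eng) (mo := mog) (C1 := cd1q0) (C2 := cd2q3) (C3 := pd3)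
    rfl (fun _ => rfl) k0_pm_033

noncomputable def f_pm_101 : ℕ → ℕ → ℕ → ℕ → Bool := onCell 0 536870912 536870912 536870912 697932185 42949674
    (rowB 3 eng mog cd1q1 cd2q1 pd0 2 false true false .npn 1 0 1 (qsf 536870912 536870912 536870912 536870912 0) ndB1q1 ndB2q1 pcB0 Cut.none Ext.none)

def k0_pm_101 : ∃ t, chk3 f_pm_101 t 1 1 1 = true :=
  ⟨(b (l 4) (b (a (a (a (b (a (l 16464840) (l 4)) (a (b (l 16235352) (l 16211304)) (b (l 16248296) (l 16210096)))) (b (l 4) (b (l 4) (a (l 16206944) (l 16204336))))) (l 4)) (l 4)) (b (a (a (a (a (a (l 16216816) (l 16211016)) (l 16202008)) (a (l 16185576) (b (l 16166104) (l 16161864)))) (a (a (b (l 16145712) (l 16129976)) (b (l 16131000) (l 16087128))) (b (l 4) (a (l 16049520) (l 16021816))))) (l 4)) (a (a (a (b (a (l 16259160) (l 16224880)) (a (a (b (l 16292608) (l 16302712)) (b (l 16271792) (l 16287760))) (b (l 16248392) (b (l 16262280) (l 16270880))))) (b (l 16184472) (a (l 16224056) (l 16189256)))) (a (a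 (l 16147712) (b (l 16090016) (l 16105432))) (a (l 16028672) (l 15978552)))) (a (a (a (b (l 15911536) (l 15869112)) (l 15914744)) (a (l 15882832) (l 16051288))) (a (a (l 15937416) (l 4)) (l 4))))))), by decide +kernel⟩

theorem c_pm_101 : CertB 536870912 536870912 536870912 536870912 697932185 42949674 3 eng mog cd1q1 cd2q1 pd0 false true false .npn 1 0 1
    ndB1q1 ndB2q1 pcB0 Cut.none Ext.none :=
  certB2 (fam := false) (s1 := true) (s2 := false) (a := 1) (b := 0) (c := 1) (cn := .npn) (n1 := ndB1q1) (n2 := ndB2q1) (pc := pcB0) (cut := Cut.none) (xt := Ext.none) (P1 := 536870912) (W1 := 536870912) (P2 := 536870912) (W2 := 536870912) (P3 := 697932185) (W3 := 42949674) (N0 := 3) (En := eng) (mo := mog) (C1 := cd1q1) (C2 := cd2q1) (C3 := pd0)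
    rfl (fun _ => rfl) k0_pm_101

noncomputable def f_pm_102_a : ℕ → ℕ → ℕ → ℕ → Bool := onCell 536870912 536870912 0 536870912 697932185 42949674
    (rowB 3 eng mog cd1q1 cd2q2a pd0 0 false true false .npp 1 0 2 (qsf 536870912 536870912 0 536870912 0) ndB1q1 ndB2q2a pcB0 Cut.none Ext.none)

def k0_pm_102_a : ∃ t, chk3 f_pm_102_a t 2 1 1 = true :=
  ⟨(b (a (b (l 2) (a (l 2) (b (l 2) (l 16643872)))) (b (a (b (a (l 16671944) (l 16767856)) (l 16692760)) (a (b (b (l 16700624) (l 16690984)) (l 16698416)) (b (b (l 16705776) (l 16700368)) (b (l 16693144) (l 16686696))))) (a (b (l 16616712) (a (l 16560440) (l 16580792))) (b (a (l 16648824) (l 16671048)) (a (l 16606880) (l 16636992)))))) (a (b (a (l 2) (b (l 16478720) (l 16397064))) (b (a (b (l 16349592) (l 16312752)) (b (l 16320336) (l 16311784))) (a (b (l 16297896) (l 16367512)) (b (l 16304312) (a (l 16289288) (l 16316792)))))) (b (b (a (l 16575384) (b (l 16593216) (l 16517176))) (a (l 16382352) (a (l 16464120)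 (b (l 16529312) (l 16526504))))) (b (b (a (a (l 16352688) (l 16402200)) (b (l 16497328) (a (l 16484568) (l 16508160)))) (a (a (l 16355232) (l 16431776)) (a (b (l 16476992) (l 16463936)) (b (l 16501440) (b (l 16478792) (l 16475832)))))) (a (b (a (b (l 16357496) (l 16382008)) (a (a (l 16392152) (l 16418184)) (b (l 16415656) (l 16401560)))) (a (b (a (l 16352696) (l 16369808)) (a (l 16372408) (a (l 16349960) (b (l 16346768) (l 16331688))))) (a (b (a (l 16365544) (l 16369128)) (b (l 16357944) (l 16362216))) (b (l 16402448) (a (l 16406224) (l 16441720)))))) (a (b (b (l 16455624) (a (l 16440336) (a (l 16470768) (l 16465072)))) (b (a (b (l 16451112) (l 16463336)) (b (l 16485728) (l 16483848))) (a (a (b (l 16466400) (l 16481704)) (b (l 16464728) (l 16481856))) (b (l 16474128) (a (l 16443920) (b (l 16461760) (l 16461808))))))) (b (b (a (l 16472240) (l 16511880)) (a (a (l 16491832) (l 16491872)) (a (l 16504304) (l 16522888)))) (a (b (b (l 16591752) (a (l 16476216)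 (l 16492392))) (b (a (l 16476576) (l 16499248)) (l 16495032))) (l 16530120))))))))), by decide +kernel⟩

def k1_pm_102_a : ∃ t, chk3 f_pm_102_a t 6 2 1 = true :=
  ⟨(a (b (a (b (b (a (b (l 16705176) (l 16704352)) (b (l 16701600) (l 16701272))) (a (l 16702352) (l 16701600))) (b (l 16700056) (l 16696344))) (b (a (a (b (l 16697696) (l 16699024)) (b (l 80698256503) (l 16717488))) (a (b (a (l 90898796087) (l 154249559479)) (l 16693416)) (b (l 151028313255) (l 16688432)))) (a (l 16699752) (b (b (l 16693648) (l 16695320)) (l 16697312))))) (b (a (b (l 16693032) (l 16686088)) (b (l 16699320) (l 16700224))) (a (l 16668320) (l 16694808)))) (b (a (b (a (b (b (l 3) (l 160691974359)) (b (a (l 158544501463) (l 154786393543)) (a (l 16684160) (l 16679016)))) (b (l 3) (b (l 3) (a (l 148880811703) (l 3))))) (a (b (b (l 16684000) (l 16686400)) (b (l 16689000) (l 16691024))) (a (b (l 92509376103) (l 16683560)) (b (b (l 146196457319) (l 16674664)) (l 16699912))))) (b (l 3)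 (b (a (b (l 142438338311) (a (l 139753997303) (l 143512082215))) (l 3)) (a (b (a (l 16673248) (l 16668936)) (l 16674320)) (b (l 136532752775) (a (l 16667960) (l 143512083031))))))) (b (a (b (l 16690952) (l 16695640)) (a (b (b (l 16677656) (l 16681416)) (l 16686744)) (b (b (l 16669400) (l 16673024)) (b (l 16677416) (l 16681464))))) (b (a (l 16700896) (l 16691160)) (a (l 16703528) (a (l 16702448) (l 16697208))))))), by decide +kernel⟩

def k2_pm_102_a : ∃ t, chk3 f_pm_102_a t 7 2 1 = true :=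
  ⟨(a (b (a (a (b (l 3) (l 3)) (l 3)) (l 3)) (a (b (b (a (b (a (l 147270180615) (l 125795326583)) (a (l 16666920) (l 145659573415))) (a (b (l 3) (l 129016551479)) (l 3))) (a (b (a (l 16671200) (l 16666976)) (l 16673768)) (a (b (l 144048957319) (l 16667584)) (b (l 132237784567) (l 16663136))))) (b (a (b (l 16678856) (l 16683560)) (b (a (l 16673000) (l 16668864)) (a (l 16678480) (l 16674808)))) (a (l 16691480) (l 16684928)))) (b (a (b (l 3) (a (b (l 3) (l 136532756231)) (l 3))) (l 3)) (a (b (a (b (l 16664424) (l 16670640)) (b (l 141364603175) (l 16666368))) (a (b (l 16677072) (l 16682696)) (b (l 16672624) (l 16678840)))) (b (b (l 3) (a (l 142975218183) (l 3))) (b (a (l 16668400) (l 134922149671)) (a (l 16674128) (l 16670616)))))))) (b (l 3) (a (b (l 3) (a (b (l 3) (b (a (l 147807022615) (l 3)) (a (l 123647857111) (b (l 3) (l 140827707495))))) (l 3))) (l 3)))), by decide +kernel⟩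

def k3_pm_102_a : ∃ t, chk3 f_pm_102_a t 6 3 1 = true :=
  ⟨(b (a (b (b (a (l 16629512) (l 16672728)) (a (l 16566464) (a (l 16622584) (l 16644384)))) (a (b (l 16574792) (l 16540296)) (b (l 16624424) (l 16615728)))) (b (a (l 16697864) (b (l 16708224) (l 16713744))) (b (a (l 16662464) (l 16706776)) (a (l 16658152) (l 16693432))))) (a (b (a (b (b (l 16552328) (a (l 16531568) (l 16570336))) (b (l 16535448) (l 16561288))) (b (l 16619400) (l 16613264))) (b (a (l 16570752) (l 16645336)) (a (b (l 16587008) (l 16600992)) (b (l 16661504) (l 16759024))))) (b (b (b (l 16681152) (l 16689656)) (a (l 16685440) (l 16641888))) (a (b (l 16696328) (a (l 16707328) (l 16728416))) (b (a (l 16727496) (l 16721224)) (a (b (l 16740456) (l 16747112)) (b (l 16746136) (l 16745296)))))))), by decide +kernel⟩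

def k4_pm_102_a : ∃ t, chk3 f_pm_102_a t 7 6 1 = true :=
  ⟨(a (b (a (b (a (l 16702992) (l 16696496)) (a (l 16714384) (l 16710688))) (b (a (l 16689800) (b (a (l 16680400) (l 16654984)) (l 16684728))) (a (l 16641504) (l 16696728)))) (a (b (l 16725768) (l 16732256)) (b (a (l 16720544) (b (l 16710328) (l 16717848))) (a (l 16736856) (l 16727888))))) (b (a (b (a (b (a (l 16672648) (a (l 16671208) (l 154786407175))) (a (l 16636248) (a (l 16675304) (l 16674536)))) (b (a (b (l 3) (l 139217083431)) (l 3)) (a (a (l 16673720) (l 164986965975)) (b (l 3) (l 137606469863))))) (a (b (a (l 16685592) (b (l 16657768) (l 16682424))) (l 16691336)) (b (a (b (l 16676216) (l 16678160)) (b (l 177871876711) (l 16676712))) (a (b (l 16660472) (l 16684920)) (b (l 16678392) (l 16680968)))))) (a (b (l 3) (a (b (a (l 137069598455) (l 3)) (b (l 182703720999) (a (l 16679536) (l 16677360)))) (b (l 3) (a (b (l 3) (l 16656520)) (l 3))))) (l 3))) (a (b (a (a (l 16706472) (l 16658096)) (b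 (a (l 16690768) (b (l 16684432) (l 16687696))) (l 16695312))) (a (l 16716472) (b (l 16660184) (l 16708104)))) (b (a (a (b (a (b (l 16681680) (l 16684936)) (b (l 16680888) (l 16683384))) (b (l 16688632) (l 16690368))) (b (a (b (l 16678224) (l 16682376)) (l 188072447703)) (a (l 16708736) (b (l 16684048) (l 16687248))))) (a (b (a (l 207936663223) (l 3)) (b (l 178945637031) (a (l 16684856) (l 16681168)))) (b (l 3) (l 162839475495)))) (a (b (a (l 16694104) (l 16691288)) (a (l 16700464) (l 16695288))) (a (b (b (l 16708144) (l 16690080)) (a (l 16692232) (l 16690832))) (b (a (b (l 16682720) (l 16686232)) (l 190756793143)) (b (a (l 16689448) (l 16686728)) (l 16690448))))))))), by decide +kernel⟩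

def k5_pm_102_a : ∃ t, chk3 f_pm_102_a t 7 7 1 = true :=
  ⟨(b (a (a (b (l 16729744) (b (l 16746096) (l 16749392))) (b (b (l 16743696) (l 16744696)) (b (l 16740264) (l 16741512)))) (a (b (b (l 16719816) (a (l 16733576) (l 16722128))) (b (l 16694072) (l 16741048))) (a (b (b (l 16703536) (l 16667968)) (b (l 16718856) (l 16726880))) (b (a (b (b (l 16694584) (l 16697360)) (l 16702176)) (b (b (l 16690904) (l 16671760)) (b (l 16695680) (l 16698792)))) (b (b (l 16684152) (l 16709800)) (b (l 16713784) (l 16716232))))))) (a (b (a (a (l 16745512) (l 16740384)) (l 16730688)) (a (l 16736320) (l 16722960))) (a (b (a (l 16722392) (l 16720968)) (b (l 16711776) (l 16708808))) (b (a (l 16720768) (b (l 16712416) (l 16707912))) (a (b (l 16704512) (l 16699336)) (b (l 16702544) (l 16697064))))))), by decide +kernel⟩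

theorem s6_pm_102_a : ∃ t, chk3 f_pm_102_a t 7 3 1 = true := ex3_b k4_pm_102_a k5_pm_102_a

theorem s7_pm_102_a : ∃ t, chk3 f_pm_102_a t 3 3 1 = true := ex3_a k3_pm_102_a s6_pm_102_a

theorem s8_pm_102_a : ∃ t, chk3 f_pm_102_a t 3 2 1 = true := ex3_a k1_pm_102_a k2_pm_102_a

theorem s9_pm_102_a : ∃ t, chk3 f_pm_102_a t 3 1 1 = true := ex3_b s8_pm_102_a s7_pm_102_a

theorem s10_pm_102_a : ∃ t, chk3 f_pm_102_a t 1 1 1 = true := ex3_a k0_pm_102_a s9_pm_102_a

theorem c_pm_102_a : CertB 536870912 536870912 0 536870912 697932185 42949674 3 eng mog cd1q1 cd2q2a pd0 false true false .npp 1 0 2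
    ndB1q1 ndB2q2a pcB0 Cut.none Ext.none :=
  certB0 (fam := false) (s1 := true) (s2 := false) (a := 1) (b := 0) (c := 2) (cn := .npp) (n1 := ndB1q1) (n2 := ndB2q2a) (pc := pcB0) (cut := Cut.none) (xt := Ext.none) (P1 := 536870912) (W1 := 536870912) (P2 := 0) (W2 := 536870912) (P3 := 697932185) (W3 := 42949674) (N0 := 3) (En := eng) (mo := mog) (C1 := cd1q1) (C2 := cd2q2a) (C3 := pd0)
    rfl s10_pm_102_a

noncomputable def f_pm_102_b : ℕ → ℕ → ℕ → ℕ → Bool := onCell 536870912 536870912 0 536870912 697932185 42949674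
    (rowB 3 eng mog cd1q1 cd2q2b pd0 1 false true false .npp 1 0 2 (qsf 536870912 536870912 1239849684 370763052 0) ndB1q1 ndB2q2b pcB0 Cut.none Ext.none)

def k0_pm_102_b : ∃ t, chk3 f_pm_102_b t 1 1 1 = true :=
  ⟨(a (b (l 1) (b (l 1) (a (l 1) (b (a (l 1) (a (b (l 1) (l 108481407991)) (b (b (l 1) (l 99354662951)) (l 16748664)))) (a (b (a (l 1) (l 141767350439)) (a (l 165389604263) (l 16694872))) (b (a (l 16703664) (l 16680200)) (l 16669960))))))) (a (b (l 1) (a (b (b (l 1) (b (a (l 1) (a (l 1) (l 3))) (a (b (l 1) (a (l 1) (l 16714824))) (b (a (a (l 1) (l 253033857415)) (l 3)) (a (b (l 16697184) (l 16690112)) (l 302425910455)))))) (b (a (b (b (l 16730880) (l 16694984)) (a (l 16703784) (l 16665312))) (b (a (l 16714688) (b (l 149417688871) (l 16643800))) (a (l 16646592) (l 16646296)))) (a (b (a (l 16658080) (l 16641208)) (l 16630048)) (b (l 16613848) (l 16596400))))) (b (l 3) (a (b (b (l 3) (a (l 159081318567) (l 3))) (b (a (l 16579416) (l 226190071239))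 (l 139217027927))) (l 3))))) (l 3))), by decide +kernel⟩

theorem c_pm_102_b : CertB 536870912 536870912 1239849684 370763052 697932185 42949674 3 eng mog cd1q1 cd2q2b pd0 false true false .npp 1 0 2
    ndB1q1 ndB2q2b pcB0 Cut.none Ext.none :=
  certB1 (fam := false) (s1 := true) (s2 := false) (a := 1) (b := 0) (c := 2) (cn := .npp) (n1 := ndB1q1) (n2 := ndB2q2b) (pc := pcB0) (cut := Cut.none) (xt := Ext.none) (P1 := 536870912) (W1 := 536870912) (P2 := 1239849684) (W2 := 370763052) (P3 := 697932185) (W3 := 42949674) (N0 := 3) (En := eng) (mo := mog) (C1 := cd1q1) (C2 := cd2q2b) (C3 := pd0)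
    rfl (fun _ => rfl) k0_pm_102_b

noncomputable def f_pm_112_a : ℕ → ℕ → ℕ → ℕ → Bool := onCell 536870912 536870912 0 536870912 697932185 42949674
    (rowB 3 eng mog cd1q1 cd2q2a pd1 0 false true false .dn 1 1 2 (qsf 536870912 536870912 0 536870912 1) ndB1q1 ndB2q2a pcB1 Cut.none Ext.none)

def k0_pm_112_a : ∃ t, chk3 f_pm_112_a t 1 1 1 = true :=
  ⟨(a (b (a (b (a (b (l 16585672) (l 16556184)) (b (l 16627128) (l 16595696))) (a (b (l 16525328) (l 16492656)) (b (l 16559296) (l 16519424)))) (a (b (b (a (l 16692496) (l 1)) (l 91301524535)) (b (l 16587216) (l 113850044583))) (l 1))) (a (b (b (a (l 16454096) (l 16467552)) (a (l 16405024) (l 16401208))) (b (a (b (l 16357136) (l 16321104)) (l 69288956071)) (a (l 16319744) (l 1)))) (b (l 1) (l 1)))) (l 1)), by decide +kernel⟩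

theorem c_pm_112_a : CertB 536870912 536870912 0 536870912 697932185 42949674 3 eng mog cd1q1 cd2q2a pd1 false true false .dn 1 1 2
    ndB1q1 ndB2q2a pcB1 Cut.none Ext.none :=
  certB0 (fam := false) (s1 := true) (s2 := false) (a := 1) (b := 1) (c := 2) (cn := .dn) (n1 := ndB1q1) (n2 := ndB2q2a) (pc := pcB1) (cut := Cut.none) (xt := Ext.none) (P1 := 536870912) (W1 := 536870912) (P2 := 0) (W2 := 536870912) (P3 := 697932185) (W3 := 42949674) (N0 := 3) (En := eng) (mo := mog) (C1 := cd1q1) (C2 := cd2q2a) (C3 := pd1)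
    rfl k0_pm_112_a

noncomputable def f_pm_112_b : ℕ → ℕ → ℕ → ℕ → Bool := onCell 536870912 536870912 536870912 536870912 697932185 42949674
    (rowB 3 eng mog cd1q1 cd2q2b pd1 1 false true false .dn 1 1 2 (qsf 536870912 536870912 1239849684 370763052 1) ndB1q1 ndB2q2b pcB1 Cut.none Ext.none)

def k0_pm_112_b : ∃ t, chk3 f_pm_112_b t 1 1 1 = true :=
  ⟨(b (a (b (a (b (a (l 1) (a (l 245383319639) (l 260415791655))) (a (b (l 274374306935) (l 250752066935)) (l 183643309639))) (b (a (b (l 143377981367) (l 16643824)) (l 16632384)) (a (l 16615960) (l 16607224)))) (a (b (a (l 160557791623) (l 16566712)) (a (l 16497176) (l 16505520))) (b (a (l 16576144) (l 16589472)) (a (l 16534280) (l 16583120))))) (b (a (b (a (a (l 16604536) (b (l 16582712) (l 16576744))) (a (b (l 16543440) (l 16540128)) (b (l 202030817351) (l 156933632759)))) (a (a (l 16593016) (l 16577408)) (a (b (l 16543624) (l 16555144)) (b (l 16503344) (l 16519760))))) (b (l 3) (a (a (b (l 197735717415)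 (l 162302295623)) (l 3)) (l 3)))) (a (b (a (l 16601592) (a (l 16590888) (b (l 16548880) (l 16594752)))) (a (l 16645944) (a (l 16684880) (l 2)))) (b (a (b (a (l 16512048) (l 2)) (l 2)) (l 2)) (l 2))))) (b (a (a (b (a (l 16415088) (l 16438792)) (a (l 16328840) (l 16371664))) (b (a (l 16494888) (l 16590712)) (a (l 16460272) (l 16612032)))) (b (a (a (l 16725016) (l 2)) (l 2)) (l 2))) (a (a (b (a (l 16253168) (l 16316208)) (l 16321496)) (b (l 16534968) (l 2))) (l 2)))), by decide +kernel⟩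

theorem c_pm_112_b : CertB 536870912 536870912 1239849684 370763052 697932185 42949674 3 eng mog cd1q1 cd2q2b pd1 false true false .dn 1 1 2
    ndB1q1 ndB2q2b pcB1 Cut.none Ext.none :=
  certB1 (fam := false) (s1 := true) (s2 := false) (a := 1) (b := 1) (c := 2) (cn := .dn) (n1 := ndB1q1) (n2 := ndB2q2b) (pc := pcB1) (cut := Cut.none) (xt := Ext.none) (P1 := 536870912) (W1 := 536870912) (P2 := 1239849684) (W2 := 370763052) (P3 := 697932185) (W3 := 42949674) (N0 := 3) (En := eng) (mo := mog) (C1 := cd1q1) (C2 := cd2q2b) (C3 := pd1)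
    rfl (fun _ => rfl) k0_pm_112_b

noncomputable def f_pm_113 : ℕ → ℕ → ℕ → ℕ → Bool := onCell 536870912 536870912 536870912 536870912 697932185 42949674
    (rowB 3 eng mog cd1q1 cd2q3 pd1 1 false true false .nn 1 1 3 (qsf 536870912 536870912 1610612736 536870912 1) ndB1q1 ndB2q3 pcB1 Cut.none Ext.none)

def k0_pm_113 : ∃ t, chk3 f_pm_113 t 1 1 1 = true :=
  ⟨(b (a (b (l 1) (a (l 1) (b (l 1) (l 74658510263)))) (b (a (b (l 1) (a (l 1) (a (l 1) (b (l 1) (l 16509952))))) (b (l 3) (a (a (b (l 257328289271) (l 136532426263)) (l 3)) (l 3)))) (a (a (l 109018228519) (b (a (l 16584896) (b (l 16542808) (l 16592680))) (a (l 16684808) (l 16700384)))) (b (a (b (a (l 16509480) (l 3)) (a (l 16568288) (l 264307862791))) (l 3)) (a (b (a (l 16653288) (l 222431950231)) (a (l 16768008) (l 16719688))) (a (b (l 3) (l 276119191047)) (l 3))))))) (b (a (a (b (l 1) (l 147135809351)) (b (l 60699798327) (a (l 16465992) (l 16610224)))) (b (a (a (l 16724536) (l 16888952)) (a (b (a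 (l 16867624) (l 16775792)) (a (l 16926912) (l 16836608))) (b (a (l 248201748471) (l 3)) (a (b (l 245517472615) (l 16766184)) (l 304036671303))))) (a (a (l 16836984) (l 16966080)) (a (a (l 17030560) (b (l 16900576) (l 16952568))) (b (a (l 16814088) (l 297594258375)) (a (l 16864328) (b (l 316384873319) (l 16775696)))))))) (a (a (a (l 77879088551) (l 73047314199)) (b (l 16526928) (l 16531736))) (a (b (a (l 16743688) (l 16832624)) (b (l 16717352) (l 16673952))) (b (a (b (l 16949168) (l 16878176)) (a (b (l 16899936) (l 16917504)) (b (b (l 16814784) (l 16828928)) (l 16839128)))) (a (l 16792512) (a (b (l 16849376) (l 16793016)) (b (l 16838656) (l 16801320))))))))), by decide +kernel⟩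

theorem c_pm_113 : CertB 536870912 536870912 1610612736 536870912 697932185 42949674 3 eng mog cd1q1 cd2q3 pd1 false true false .nn 1 1 3
    ndB1q1 ndB2q3 pcB1 Cut.none Ext.none :=
  certB1 (fam := false) (s1 := true) (s2 := false) (a := 1) (b := 1) (c := 3) (cn := .nn) (n1 := ndB1q1) (n2 := ndB2q3) (pc := pcB1) (cut := Cut.none) (xt := Ext.none) (P1 := 536870912) (W1 := 536870912) (P2 := 1610612736) (W2 := 536870912) (P3 := 697932185) (W3 := 42949674) (N0 := 3) (En := eng) (mo := mog) (C1 := cd1q1) (C2 := cd2q3) (C3 := pd1)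
    rfl (fun _ => rfl) k0_pm_113

noncomputable def f_pm_123 : ℕ → ℕ → ℕ → ℕ → Bool := onCell 1073741824 536870912 1610612736 536870912 697932185 42949674
    (rowB 3 eng mog cd1q1 cd2q3 pd2 2 false true false .npn 1 2 3 (qsf 536870912 536870912 1610612736 536870912 2) ndB1q1 ndB2q3 pcB2 Cut.none Ext.none)

def k0_pm_123 : ∃ t, chk3 f_pm_123 t 1 1 1 = true :=
  ⟨(a (a (b (b (a (b (l 16117312) (l 16182200)) (b (l 16082512) (l 16112160))) (a (l 16400008) (l 16241008))) (b (a (a (l 16576168) (l 16524928)) (l 16403664)) (a (b (l 16657824) (a (l 16737232) (l 16680784))) (b (l 16517144) (l 16708832))))) (b (b (a (b (l 1) (l 16086968)) (l 1)) (a (b (l 16118720) (l 16194392)) (l 16174256))) (a (b (a (l 16343240) (l 16306120)) (b (l 16464952) (a (a (l 16520616) (l 16496992)) (l 16474376)))) (b (l 16316824) (l 16695208))))) (a (b (a (b (l 1) (l 16237568)) (l 1)) (a (b (l 16341152) (l 16593264)) (b (l 16379872) (b (l 16478736) (l 16548008))))) (b (l 1) (a (b (l 16441808)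 (l 16563624)) (l 16548200))))), by decide +kernel⟩

theorem c_pm_123 : CertB 536870912 536870912 1610612736 536870912 697932185 42949674 3 eng mog cd1q1 cd2q3 pd2 false true false .npn 1 2 3
    ndB1q1 ndB2q3 pcB2 Cut.none Ext.none :=
  certB2 (fam := false) (s1 := true) (s2 := false) (a := 1) (b := 2) (c := 3) (cn := .npn) (n1 := ndB1q1) (n2 := ndB2q3) (pc := pcB2) (cut := Cut.none) (xt := Ext.none) (P1 := 536870912) (W1 := 536870912) (P2 := 1610612736) (W2 := 536870912) (P3 := 697932185) (W3 := 42949674) (N0 := 3) (En := eng) (mo := mog) (C1 := cd1q1) (C2 := cd2q3) (C3 := pd2)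
    rfl (fun _ => rfl) k0_pm_123

noncomputable def f_pm_133 : ℕ → ℕ → ℕ → ℕ → Bool := onCell 1610612736 536870912 1610612736 536870912 697932185 42949674
    (rowB 3 eng mog cd1q1 cd2q3 pd3 2 false true false .dn 1 3 3 (qsf 536870912 536870912 1610612736 536870912 3) ndB1q1 ndB2q3 pcB3 Cut.none Ext.none)

def k0_pm_133 : ∃ t, chk3 f_pm_133 t 1 1 1 = true :=
  ⟨(a (b (l 1) (a (a (l 330746113687) (l 1)) (l 1))) (l 1)), by decide +kernel⟩

theorem c_pm_133 : CertB 536870912 536870912 1610612736 536870912 697932185 42949674 3 eng mog cd1q1 cd2q3 pd3 false true false .dn 1 3 3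
    ndB1q1 ndB2q3 pcB3 Cut.none Ext.none :=
  certB2 (fam := false) (s1 := true) (s2 := false) (a := 1) (b := 3) (c := 3) (cn := .dn) (n1 := ndB1q1) (n2 := ndB2q3) (pc := pcB3) (cut := Cut.none) (xt := Ext.none) (P1 := 536870912) (W1 := 536870912) (P2 := 1610612736) (W2 := 536870912) (P3 := 697932185) (W3 := 42949674) (N0 := 3) (En := eng) (mo := mog) (C1 := cd1q1) (C2 := cd2q3) (C3 := pd3)
    rfl (fun _ => rfl) k0_pm_133

noncomputable def cut_pm_202_aa : Cut := Cut.of [[⟨0, 1, 0, 67108864⟩, ⟨1, 0, 0, 67108864⟩, ⟨2, 1, 0, 67108864⟩]]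

noncomputable def f_pm_202_aa : ℕ → ℕ → ℕ → ℕ → Bool := onCell 0 536870912 0 536870912 697932185 42949674
    (rowB 3 eng mog cd1q2a cd2q2a pd0 0 false true false .pp 2 0 2 (qsf 0 536870912 0 536870912 0) ndB1q2a ndB2q2a pcB0 cut_pm_202_aa Ext.none)

def k0_pm_202_aa : ∃ t, chk3 f_pm_202_aa t 1 1 1 = true :=
  ⟨(a (l 3) (b (l 3) (a (l 3) (b (l 3) (b (l 3) (a (l 3) (l 6))))))), by decide +kernel⟩

theorem c_pm_202_aa : CertB 0 536870912 0 536870912 697932185 42949674 3 eng mog cd1q2a cd2q2a pd0 false true false .pp 2 0 2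
    ndB1q2a ndB2q2a pcB0 cut_pm_202_aa Ext.none :=
  certB0 (fam := false) (s1 := true) (s2 := false) (a := 2) (b := 0) (c := 2) (cn := .pp) (n1 := ndB1q2a) (n2 := ndB2q2a) (pc := pcB0) (cut := cut_pm_202_aa) (xt := Ext.none) (P1 := 0) (W1 := 536870912) (P2 := 0) (W2 := 536870912) (P3 := 697932185) (W3 := 42949674) (N0 := 3) (En := eng) (mo := mog) (C1 := cd1q2a) (C2 := cd2q2a) (C3 := pd0)
    rfl k0_pm_202_aa

noncomputable def cut_pm_202_ab : Cut := Cut.of [[⟨0, 1, 0, 67108864⟩, ⟨1, 0, 0, 67108864⟩, ⟨2, 1, 0, 67108864⟩]]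

noncomputable def f_pm_202_ab : ℕ → ℕ → ℕ → ℕ → Bool := onCell 0 536870912 1239849684 370763052 697932185 42949674
    (rowB 3 eng mog cd1q2a cd2q2b pd0 0 false true false .pp 2 0 2 (qsf 0 536870912 1239849684 370763052 0) ndB1q2a ndB2q2b pcB0 cut_pm_202_ab Ext.none)

def k0_pm_202_ab : ∃ t, chk3 f_pm_202_ab t 1 1 1 = true :=
  ⟨(l 3), by decide +kernel⟩

theorem c_pm_202_ab : CertB 0 536870912 1239849684 370763052 697932185 42949674 3 eng mog cd1q2a cd2q2b pd0 false true false .pp 2 0 2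
    ndB1q2a ndB2q2b pcB0 cut_pm_202_ab Ext.none :=
  certB0 (fam := false) (s1 := true) (s2 := false) (a := 2) (b := 0) (c := 2) (cn := .pp) (n1 := ndB1q2a) (n2 := ndB2q2b) (pc := pcB0) (cut := cut_pm_202_ab) (xt := Ext.none) (P1 := 0) (W1 := 536870912) (P2 := 1239849684) (W2 := 370763052) (P3 := 697932185) (W3 := 42949674) (N0 := 3) (En := eng) (mo := mog) (C1 := cd1q2a) (C2 := cd2q2b) (C3 := pd0)
    rfl k0_pm_202_ab

noncomputable def cut_pm_202_ba : Cut := Cut.of [[⟨0, 1, 0, 67108864⟩, ⟨1, 0, 0, 67108864⟩, ⟨2, 1, 0, 67108864⟩]]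

noncomputable def f_pm_202_ba : ℕ → ℕ → ℕ → ℕ → Bool := onCell 1239849684 370763052 0 536870912 697932185 42949674
    (rowB 3 eng mog cd1q2b cd2q2a pd0 0 false true false .pp 2 0 2 (qsf 1239849684 370763052 0 536870912 0) ndB1q2b ndB2q2a pcB0 cut_pm_202_ba Ext.none)

def k0_pm_202_ba : ∃ t, chk3 f_pm_202_ba t 1 1 1 = true :=
  ⟨(l 3), by decide +kernel⟩

theorem c_pm_202_ba : CertB 1239849684 370763052 0 536870912 697932185 42949674 3 eng mog cd1q2b cd2q2a pd0 false true false .pp 2 0 2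
    ndB1q2b ndB2q2a pcB0 cut_pm_202_ba Ext.none :=
  certB0 (fam := false) (s1 := true) (s2 := false) (a := 2) (b := 0) (c := 2) (cn := .pp) (n1 := ndB1q2b) (n2 := ndB2q2a) (pc := pcB0) (cut := cut_pm_202_ba) (xt := Ext.none) (P1 := 1239849684) (W1 := 370763052) (P2 := 0) (W2 := 536870912) (P3 := 697932185) (W3 := 42949674) (N0 := 3) (En := eng) (mo := mog) (C1 := cd1q2b) (C2 := cd2q2a) (C3 := pd0)
    rfl k0_pm_202_ba

noncomputable def cut_pm_202_bb : Cut := Cut.of [[⟨0, 1, 0, 67108864⟩, ⟨1, 0, 0, 67108864⟩, ⟨2, 1, 0, 67108864⟩]]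

noncomputable def f_pm_202_bb : ℕ → ℕ → ℕ → ℕ → Bool := onCell 1239849684 370763052 1239849684 370763052 697932185 42949674
    (rowB 3 eng mog cd1q2b cd2q2b pd0 0 false true false .pp 2 0 2 (qsf 1239849684 370763052 1239849684 370763052 0) ndB1q2b ndB2q2b pcB0 cut_pm_202_bb Ext.none)

def k0_pm_202_bb : ∃ t, chk3 f_pm_202_bb t 1 1 1 = true :=
  ⟨(l 3), by decide +kernel⟩

theorem c_pm_202_bb : CertB 1239849684 370763052 1239849684 370763052 697932185 42949674 3 eng mog cd1q2b cd2q2b pd0 false true false .pp 2 0 2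
    ndB1q2b ndB2q2b pcB0 cut_pm_202_bb Ext.none :=
  certB0 (fam := false) (s1 := true) (s2 := false) (a := 2) (b := 0) (c := 2) (cn := .pp) (n1 := ndB1q2b) (n2 := ndB2q2b) (pc := pcB0) (cut := cut_pm_202_bb) (xt := Ext.none) (P1 := 1239849684) (W1 := 370763052) (P2 := 1239849684) (W2 := 370763052) (P3 := 697932185) (W3 := 42949674) (N0 := 3) (En := eng) (mo := mog) (C1 := cd1q2b) (C2 := cd2q2b) (C3 := pd0)
    rfl k0_pm_202_bb

noncomputable def f_pm_203_a : ℕ → ℕ → ℕ → ℕ → Bool := onCell 0 536870912 0 536870912 697932185 42949674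
    (rowB 3 eng mog cd1q2a cd2q3 pd0 1 false true false .up 2 0 3 (qsf 0 536870912 1610612736 536870912 0) ndB1q2a ndB2q3 pcB0 Cut.none Ext.none)

def k0_pm_203_a : ∃ t, chk3 f_pm_203_a t 1 1 1 = true :=
  ⟨(l 3), by decide +kernel⟩

theorem c_pm_203_a : CertB 0 536870912 1610612736 536870912 697932185 42949674 3 eng mog cd1q2a cd2q3 pd0 false true false .up 2 0 3
    ndB1q2a ndB2q3 pcB0 Cut.none Ext.none :=
  certB1 (fam := false) (s1 := true) (s2 := false) (a := 2) (b := 0) (c := 3) (cn := .up) (n1 := ndB1q2a) (n2 := ndB2q3) (pc := pcB0) (cut := Cut.none) (xt := Ext.none) (P1 := 0) (W1 := 536870912) (P2 := 1610612736) (W2 := 536870912) (P3 := 697932185) (W3 := 42949674) (N0 := 3) (En := eng) (mo := mog) (C1 := cd1q2a) (C2 := cd2q3) (C3 := pd0)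
    rfl (fun _ => rfl) k0_pm_203_a

noncomputable def f_pm_203_b : ℕ → ℕ → ℕ → ℕ → Bool := onCell 1239849684 370763052 1610612736 536870912 697932185 42949674
    (rowB 3 eng mog cd1q2b cd2q3 pd0 0 false true false .up 2 0 3 (qsf 1239849684 370763052 1610612736 536870912 0) ndB1q2b ndB2q3 pcB0 Cut.none Ext.none)

def k0_pm_203_b : ∃ t, chk3 f_pm_203_b t 1 1 1 = true :=
  ⟨(l 3), by decide +kernel⟩

theorem c_pm_203_b : CertB 1239849684 370763052 1610612736 536870912 697932185 42949674 3 eng mog cd1q2b cd2q3 pd0 false true false .up 2 0 3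
    ndB1q2b ndB2q3 pcB0 Cut.none Ext.none :=
  certB0 (fam := false) (s1 := true) (s2 := false) (a := 2) (b := 0) (c := 3) (cn := .up) (n1 := ndB1q2b) (n2 := ndB2q3) (pc := pcB0) (cut := Cut.none) (xt := Ext.none) (P1 := 1239849684) (W1 := 370763052) (P2 := 1610612736) (W2 := 536870912) (P3 := 697932185) (W3 := 42949674) (N0 := 3) (En := eng) (mo := mog) (C1 := cd1q2b) (C2 := cd2q3) (C3 := pd0)
    rfl k0_pm_203_b

noncomputable def cut_pm_213_a : Cut := Cut.of [[⟨0, 1, 0, 67108864⟩, ⟨1, 1, 0, 67108864⟩, ⟨2, 2, 0, 16777216⟩]]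

noncomputable def f_pm_213_a : ℕ → ℕ → ℕ → ℕ → Bool := onCell 0 536870912 1610612736 536870912 697932185 42949674
    (rowB 3 eng mog cd1q2a cd2q3 pd1 0 false true false .pnn 2 1 3 (qsf 0 536870912 1610612736 536870912 1) ndB1q2a ndB2q3 pcB1 cut_pm_213_a Ext.none)

def k0_pm_213_a : ∃ t, chk3 f_pm_213_a t 1 1 1 = true :=
  ⟨(b (l 3) (a (l 3) (b (l 3) (a (l 3) (b (l 3) (b (l 3) (a (l 3) (b (l 3) (b (l 3) (l 6)))))))))), by decide +kernel⟩

theorem c_pm_213_a : CertB 0 536870912 1610612736 536870912 697932185 42949674 3 eng mog cd1q2a cd2q3 pd1 false true false .pnn 2 1 3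
    ndB1q2a ndB2q3 pcB1 cut_pm_213_a Ext.none :=
  certB0 (fam := false) (s1 := true) (s2 := false) (a := 2) (b := 1) (c := 3) (cn := .pnn) (n1 := ndB1q2a) (n2 := ndB2q3) (pc := pcB1) (cut := cut_pm_213_a) (xt := Ext.none) (P1 := 0) (W1 := 536870912) (P2 := 1610612736) (W2 := 536870912) (P3 := 697932185) (W3 := 42949674) (N0 := 3) (En := eng) (mo := mog) (C1 := cd1q2a) (C2 := cd2q3) (C3 := pd1)
    rfl k0_pm_213_a

noncomputable def cut_pm_213_b : Cut := Cut.of [[⟨0, 1, 0, 67108864⟩, ⟨1, 1, 0, 67108864⟩, ⟨2, 2, 0, 16777216⟩]]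

noncomputable def f_pm_213_b : ℕ → ℕ → ℕ → ℕ → Bool := onCell 1239849684 370763052 1610612736 536870912 697932185 42949674
    (rowB 3 eng mog cd1q2b cd2q3 pd1 0 false true false .pnn 2 1 3 (qsf 1239849684 370763052 1610612736 536870912 1) ndB1q2b ndB2q3 pcB1 cut_pm_213_b Ext.none)

def k0_pm_213_b : ∃ t, chk3 f_pm_213_b t 1 1 1 = true :=
  ⟨(l 3), by decide +kernel⟩

theorem c_pm_213_b : CertB 1239849684 370763052 1610612736 536870912 697932185 42949674 3 eng mog cd1q2b cd2q3 pd1 false true false .pnn 2 1 3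
    ndB1q2b ndB2q3 pcB1 cut_pm_213_b Ext.none :=
  certB0 (fam := false) (s1 := true) (s2 := false) (a := 2) (b := 1) (c := 3) (cn := .pnn) (n1 := ndB1q2b) (n2 := ndB2q3) (pc := pcB1) (cut := cut_pm_213_b) (xt := Ext.none) (P1 := 1239849684) (W1 := 370763052) (P2 := 1610612736) (W2 := 536870912) (P3 := 697932185) (W3 := 42949674) (N0 := 3) (En := eng) (mo := mog) (C1 := cd1q2b) (C2 := cd2q3) (C3 := pd1)
    rfl k0_pm_213_b

noncomputable def f_pm_303 : ℕ → ℕ → ℕ → ℕ → Bool := onCell 1610612736 536870912 1610612736 536870912 697932185 42949674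
    (rowB 3 eng mog cd1q3 cd2q3 pd0 0 false true false .npn 3 0 3 (qsf 1610612736 536870912 1610612736 536870912 0) ndB1q3 ndB2q3 pcB0 Cut.none Ext.none)

def k0_pm_303 : ∃ t, chk3 f_pm_303 t 1 1 1 = true :=
  ⟨(l 3), by decide +kernel⟩

theorem c_pm_303 : CertB 1610612736 536870912 1610612736 536870912 697932185 42949674 3 eng mog cd1q3 cd2q3 pd0 false true false .npn 3 0 3
    ndB1q3 ndB2q3 pcB0 Cut.none Ext.none :=
  certB0 (fam := false) (s1 := true) (s2 := false) (a := 3) (b := 0) (c := 3) (cn := .npn) (n1 := ndB1q3) (n2 := ndB2q3) (pc := pcB0) (cut := Cut.none) (xt := Ext.none) (P1 := 1610612736) (W1 := 536870912) (P2 := 1610612736) (W2 := 536870912) (P3 := 697932185) (W3 := 42949674) (N0 := 3) (En := eng) (mo := mog) (C1 := cd1q3) (C2 := cd2q3) (C3 := pd0)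
    rfl k0_pm_303

noncomputable def f_pm_313 : ℕ → ℕ → ℕ → ℕ → Bool := onCell 1610612736 536870912 1610612736 536870912 697932185 42949674
    (rowB 3 eng mog cd1q3 cd2q3 pd1 0 false true false .dn 3 1 3 (qsf 1610612736 536870912 1610612736 536870912 1) ndB1q3 ndB2q3 pcB1 Cut.none Ext.none)

def k0_pm_313 : ∃ t, chk3 f_pm_313 t 1 1 1 = true :=
  ⟨(l 3), by decide +kernel⟩

theorem c_pm_313 : CertB 1610612736 536870912 1610612736 536870912 697932185 42949674 3 eng mog cd1q3 cd2q3 pd1 false true false .dn 3 1 3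
    ndB1q3 ndB2q3 pcB1 Cut.none Ext.none :=
  certB0 (fam := false) (s1 := true) (s2 := false) (a := 3) (b := 1) (c := 3) (cn := .dn) (n1 := ndB1q3) (n2 := ndB2q3) (pc := pcB1) (cut := Cut.none) (xt := Ext.none) (P1 := 1610612736) (W1 := 536870912) (P2 := 1610612736) (W2 := 536870912) (P3 := 697932185) (W3 := 42949674) (N0 := 3) (En := eng) (mo := mog) (C1 := cd1q3) (C2 := cd2q3) (C3 := pd1)
    rfl k0_pm_313

noncomputable def f_mm_001 : ℕ → ℕ → ℕ → ℕ → Bool := onCell 0 536870912 536870912 536870912 697932185 42949674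
    (rowB 3 eng mog cd1q0 cd2q1 pd0 0 false false false .up 0 0 1 (qsf 0 536870912 536870912 536870912 0) ndB1q0 ndB2q1 pcB0 Cut.none Ext.none)

def k0_mm_001 : ∃ t, chk3 f_mm_001 t 1 1 1 = true :=
  ⟨(l 3), by decide +kernel⟩

theorem c_mm_001 : CertB 0 536870912 536870912 536870912 697932185 42949674 3 eng mog cd1q0 cd2q1 pd0 false false false .up 0 0 1
    ndB1q0 ndB2q1 pcB0 Cut.none Ext.none :=
  certB0 (fam := false) (s1 := false) (s2 := false) (a := 0) (b := 0) (c := 1) (cn := .up) (n1 := ndB1q0) (n2 := ndB2q1) (pc := pcB0) (cut := Cut.none) (xt := Ext.none) (P1 := 0) (W1 := 536870912) (P2 := 536870912) (W2 := 536870912) (P3 := 697932185) (W3 := 42949674) (N0 := 3) (En := eng) (mo := mog) (C1 := cd1q0) (C2 := cd2q1) (C3 := pd0)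
    rfl k0_mm_001

noncomputable def f_mm_011 : ℕ → ℕ → ℕ → ℕ → Bool := onCell 0 536870912 536870912 536870912 697932185 42949674
    (rowB 3 eng mog cd1q0 cd2q1 pd1 0 false false false .pnn 0 1 1 (qsf 0 536870912 536870912 536870912 1) ndB1q0 ndB2q1 pcB1 Cut.none Ext.none)

def k0_mm_011 : ∃ t, chk3 f_mm_011 t 1 1 1 = true :=
  ⟨(l 3), by decide +kernel⟩

theorem c_mm_011 : CertB 0 536870912 536870912 536870912 697932185 42949674 3 eng mog cd1q0 cd2q1 pd1 false false false .pnn 0 1 1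
    ndB1q0 ndB2q1 pcB1 Cut.none Ext.none :=
  certB0 (fam := false) (s1 := false) (s2 := false) (a := 0) (b := 1) (c := 1) (cn := .pnn) (n1 := ndB1q0) (n2 := ndB2q1) (pc := pcB1) (cut := Cut.none) (xt := Ext.none) (P1 := 0) (W1 := 536870912) (P2 := 536870912) (W2 := 536870912) (P3 := 697932185) (W3 := 42949674) (N0 := 3) (En := eng) (mo := mog) (C1 := cd1q0) (C2 := cd2q1) (C3 := pd1)
    rfl k0_mm_011

noncomputable def f_mm_012_a : ℕ → ℕ → ℕ → ℕ → Bool := onCell 0 536870912 0 536870912 697932185 42949674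
    (rowB 3 eng mog cd1q0 cd2q2a pd1 0 false false false .pnp 0 1 2 (qsf 0 536870912 0 536870912 1) ndB1q0 ndB2q2a pcB1 Cut.none Ext.none)

def k0_mm_012_a : ∃ t, chk3 f_mm_012_a t 1 1 1 = true :=
  ⟨(l 5), by decide +kernel⟩

theorem c_mm_012_a : CertB 0 536870912 0 536870912 697932185 42949674 3 eng mog cd1q0 cd2q2a pd1 false false false .pnp 0 1 2
    ndB1q0 ndB2q2a pcB1 Cut.none Ext.none :=
  certB0 (fam := false) (s1 := false) (s2 := false) (a := 0) (b := 1) (c := 2) (cn := .pnp) (n1 := ndB1q0) (n2 := ndB2q2a) (pc := pcB1) (cut := Cut.none) (xt := Ext.none) (P1 := 0) (W1 := 536870912) (P2 := 0) (W2 := 536870912) (P3 := 697932185) (W3 := 42949674) (N0 := 3) (En := eng) (mo := mog) (C1 := cd1q0) (C2 := cd2q2a) (C3 := pd1)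
    rfl k0_mm_012_a

noncomputable def f_mm_012_b : ℕ → ℕ → ℕ → ℕ → Bool := onCell 0 536870912 1239849684 370763052 697932185 42949674
    (rowB 3 eng mog cd1q0 cd2q2b pd1 0 false false false .pnp 0 1 2 (qsf 0 536870912 1239849684 370763052 1) ndB1q0 ndB2q2b pcB1 Cut.none Ext.none)

def k0_mm_012_b : ∃ t, chk3 f_mm_012_b t 1 1 1 = true :=
  ⟨(l 5), by decide +kernel⟩

theorem c_mm_012_b : CertB 0 536870912 1239849684 370763052 697932185 42949674 3 eng mog cd1q0 cd2q2b pd1 false false false .pnp 0 1 2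
    ndB1q0 ndB2q2b pcB1 Cut.none Ext.none :=
  certB0 (fam := false) (s1 := false) (s2 := false) (a := 0) (b := 1) (c := 2) (cn := .pnp) (n1 := ndB1q0) (n2 := ndB2q2b) (pc := pcB1) (cut := Cut.none) (xt := Ext.none) (P1 := 0) (W1 := 536870912) (P2 := 1239849684) (W2 := 370763052) (P3 := 697932185) (W3 := 42949674) (N0 := 3) (En := eng) (mo := mog) (C1 := cd1q0) (C2 := cd2q2b) (C3 := pd1)
    rfl k0_mm_012_b

noncomputable def f_mm_022_a : ℕ → ℕ → ℕ → ℕ → Bool := onCell 0 536870912 0 536870912 697932185 42949674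
    (rowB 3 eng mog cd1q0 cd2q2a pd2 0 false false false .pp 0 2 2 (qsf 0 536870912 0 536870912 2) ndB1q0 ndB2q2a pcB2 Cut.none Ext.none)

def k0_mm_022_a : ∃ t, chk3 f_mm_022_a t 1 1 1 = true :=
  ⟨(l 5), by decide +kernel⟩

theorem c_mm_022_a : CertB 0 536870912 0 536870912 697932185 42949674 3 eng mog cd1q0 cd2q2a pd2 false false false .pp 0 2 2
    ndB1q0 ndB2q2a pcB2 Cut.none Ext.none :=
  certB0 (fam := false) (s1 := false) (s2 := false) (a := 0) (b := 2) (c := 2) (cn := .pp) (n1 := ndB1q0) (n2 := ndB2q2a) (pc := pcB2) (cut := Cut.none) (xt := Ext.none) (P1 := 0) (W1 := 536870912) (P2 := 0) (W2 := 536870912) (P3 := 697932185) (W3 := 42949674) (N0 := 3) (En := eng) (mo := mog) (C1 := cd1q0) (C2 := cd2q2a) (C3 := pd2)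
    rfl k0_mm_022_a

noncomputable def f_mm_022_b : ℕ → ℕ → ℕ → ℕ → Bool := onCell 0 536870912 1239849684 370763052 697932185 42949674
    (rowB 3 eng mog cd1q0 cd2q2b pd2 0 false false false .pp 0 2 2 (qsf 0 536870912 1239849684 370763052 2) ndB1q0 ndB2q2b pcB2 Cut.none Ext.none)

def k0_mm_022_b : ∃ t, chk3 f_mm_022_b t 1 1 1 = true :=
  ⟨(l 5), by decide +kernel⟩

theorem c_mm_022_b : CertB 0 536870912 1239849684 370763052 697932185 42949674 3 eng mog cd1q0 cd2q2b pd2 false false false .pp 0 2 2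
    ndB1q0 ndB2q2b pcB2 Cut.none Ext.none :=
  certB0 (fam := false) (s1 := false) (s2 := false) (a := 0) (b := 2) (c := 2) (cn := .pp) (n1 := ndB1q0) (n2 := ndB2q2b) (pc := pcB2) (cut := Cut.none) (xt := Ext.none) (P1 := 0) (W1 := 536870912) (P2 := 1239849684) (W2 := 370763052) (P3 := 697932185) (W3 := 42949674) (N0 := 3) (En := eng) (mo := mog) (C1 := cd1q0) (C2 := cd2q2b) (C3 := pd2)
    rfl k0_mm_022_b

noncomputable def f_mm_023 : ℕ → ℕ → ℕ → ℕ → Bool := onCell 0 536870912 1610612736 536870912 697932185 42949674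
    (rowB 3 eng mog cd1q0 cd2q3 pd2 0 false false false .up 0 2 3 (qsf 0 536870912 1610612736 536870912 2) ndB1q0 ndB2q3 pcB2 Cut.none Ext.none)

def k0_mm_023 : ∃ t, chk3 f_mm_023 t 1 1 1 = true :=
  ⟨(l 5), by decide +kernel⟩

theorem c_mm_023 : CertB 0 536870912 1610612736 536870912 697932185 42949674 3 eng mog cd1q0 cd2q3 pd2 false false false .up 0 2 3
    ndB1q0 ndB2q3 pcB2 Cut.none Ext.none :=
  certB0 (fam := false) (s1 := false) (s2 := false) (a := 0) (b := 2) (c := 3) (cn := .up) (n1 := ndB1q0) (n2 := ndB2q3) (pc := pcB2) (cut := Cut.none) (xt := Ext.none) (P1 := 0) (W1 := 536870912) (P2 := 1610612736) (W2 := 536870912) (P3 := 697932185) (W3 := 42949674) (N0 := 3) (En := eng) (mo := mog) (C1 := cd1q0) (C2 := cd2q3) (C3 := pd2)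
    rfl k0_mm_023

noncomputable def f_mm_033 : ℕ → ℕ → ℕ → ℕ → Bool := onCell 0 536870912 1610612736 536870912 697932185 42949674
    (rowB 3 eng mog cd1q0 cd2q3 pd3 0 false false false .pnn 0 3 3 (qsf 0 536870912 1610612736 536870912 3) ndB1q0 ndB2q3 pcB3 Cut.none Ext.none)

def k0_mm_033 : ∃ t, chk3 f_mm_033 t 1 1 1 = true :=
  ⟨(l 5), by decide +kernel⟩

theorem c_mm_033 : CertB 0 536870912 1610612736 536870912 697932185 42949674 3 eng mog cd1q0 cd2q3 pd3 false false false .pnn 0 3 3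
    ndB1q0 ndB2q3 pcB3 Cut.none Ext.none :=
  certB0 (fam := false) (s1 := false) (s2 := false) (a := 0) (b := 3) (c := 3) (cn := .pnn) (n1 := ndB1q0) (n2 := ndB2q3) (pc := pcB3) (cut := Cut.none) (xt := Ext.none) (P1 := 0) (W1 := 536870912) (P2 := 1610612736) (W2 := 536870912) (P3 := 697932185) (W3 := 42949674) (N0 := 3) (En := eng) (mo := mog) (C1 := cd1q0) (C2 := cd2q3) (C3 := pd3)
    rfl k0_mm_033

noncomputable def f_mm_101 : ℕ → ℕ → ℕ → ℕ → Bool := onCell 536870912 536870912 536870912 536870912 697932185 42949674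
    (rowB 3 eng mog cd1q1 cd2q1 pd0 0 false false false .npn 1 0 1 (qsf 536870912 536870912 536870912 536870912 0) ndB1q1 ndB2q1 pcB0 Cut.none Ext.none)

def k0_mm_101 : ∃ t, chk3 f_mm_101 t 1 1 1 = true :=
  ⟨(l 3), by decide +kernel⟩

theorem c_mm_101 : CertB 536870912 536870912 536870912 536870912 697932185 42949674 3 eng mog cd1q1 cd2q1 pd0 false false false .npn 1 0 1
    ndB1q1 ndB2q1 pcB0 Cut.none Ext.none :=
  certB0 (fam := false) (s1 := false) (s2 := false) (a := 1) (b := 0) (c := 1) (cn := .npn) (n1 := ndB1q1) (n2 := ndB2q1) (pc := pcB0) (cut := Cut.none) (xt := Ext.none) (P1 := 536870912) (W1 := 536870912) (P2 := 536870912) (W2 := 536870912) (P3 := 697932185) (W3 := 42949674) (N0 := 3) (En := eng) (mo := mog) (C1 := cd1q1) (C2 := cd2q1) (C3 := pd0)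
    rfl k0_mm_101

noncomputable def f_mm_102_a : ℕ → ℕ → ℕ → ℕ → Bool := onCell 536870912 536870912 0 536870912 697932185 42949674
    (rowB 3 eng mog cd1q1 cd2q2a pd0 0 false false false .npp 1 0 2 (qsf 536870912 536870912 0 536870912 0) ndB1q1 ndB2q2a pcB0 Cut.none Ext.none)

def k0_mm_102_a : ∃ t, chk3 f_mm_102_a t 1 1 1 = true :=
  ⟨(l 5), by decide +kernel⟩

theorem c_mm_102_a : CertB 536870912 536870912 0 536870912 697932185 42949674 3 eng mog cd1q1 cd2q2a pd0 false false false .npp 1 0 2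
    ndB1q1 ndB2q2a pcB0 Cut.none Ext.none :=
  certB0 (fam := false) (s1 := false) (s2 := false) (a := 1) (b := 0) (c := 2) (cn := .npp) (n1 := ndB1q1) (n2 := ndB2q2a) (pc := pcB0) (cut := Cut.none) (xt := Ext.none) (P1 := 536870912) (W1 := 536870912) (P2 := 0) (W2 := 536870912) (P3 := 697932185) (W3 := 42949674) (N0 := 3) (En := eng) (mo := mog) (C1 := cd1q1) (C2 := cd2q2a) (C3 := pd0)
    rfl k0_mm_102_a

noncomputable def f_mm_102_b : ℕ → ℕ → ℕ → ℕ → Bool := onCell 536870912 536870912 1239849684 370763052 697932185 42949674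
    (rowB 3 eng mog cd1q1 cd2q2b pd0 0 false false false .npp 1 0 2 (qsf 536870912 536870912 1239849684 370763052 0) ndB1q1 ndB2q2b pcB0 Cut.none Ext.none)

def k0_mm_102_b : ∃ t, chk3 f_mm_102_b t 1 1 1 = true :=
  ⟨(l 5), by decide +kernel⟩

theorem c_mm_102_b : CertB 536870912 536870912 1239849684 370763052 697932185 42949674 3 eng mog cd1q1 cd2q2b pd0 false false false .npp 1 0 2
    ndB1q1 ndB2q2b pcB0 Cut.none Ext.none :=
  certB0 (fam := false) (s1 := false) (s2 := false) (a := 1) (b := 0) (c := 2) (cn := .npp) (n1 := ndB1q1) (n2 := ndB2q2b) (pc := pcB0) (cut := Cut.none) (xt := Ext.none) (P1 := 536870912) (W1 := 536870912) (P2 := 1239849684) (W2 := 370763052) (P3 := 697932185) (W3 := 42949674) (N0 := 3) (En := eng) (mo := mog) (C1 := cd1q1) (C2 := cd2q2b) (C3 := pd0)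
    rfl k0_mm_102_b

noncomputable def f_mm_112_a : ℕ → ℕ → ℕ → ℕ → Bool := onCell 536870912 536870912 0 536870912 697932185 42949674
    (rowB 3 eng mog cd1q1 cd2q2a pd1 0 false false false .dn 1 1 2 (qsf 536870912 536870912 0 536870912 1) ndB1q1 ndB2q2a pcB1 Cut.none Ext.none)

def k0_mm_112_a : ∃ t, chk3 f_mm_112_a t 1 1 1 = true :=
  ⟨(l 5), by decide +kernel⟩

theorem c_mm_112_a : CertB 536870912 536870912 0 536870912 697932185 42949674 3 eng mog cd1q1 cd2q2a pd1 false false false .dn 1 1 2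
    ndB1q1 ndB2q2a pcB1 Cut.none Ext.none :=
  certB0 (fam := false) (s1 := false) (s2 := false) (a := 1) (b := 1) (c := 2) (cn := .dn) (n1 := ndB1q1) (n2 := ndB2q2a) (pc := pcB1) (cut := Cut.none) (xt := Ext.none) (P1 := 536870912) (W1 := 536870912) (P2 := 0) (W2 := 536870912) (P3 := 697932185) (W3 := 42949674) (N0 := 3) (En := eng) (mo := mog) (C1 := cd1q1) (C2 := cd2q2a) (C3 := pd1)
    rfl k0_mm_112_a

noncomputable def f_mm_112_b : ℕ → ℕ → ℕ → ℕ → Bool := onCell 536870912 536870912 1239849684 370763052 697932185 42949674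
    (rowB 3 eng mog cd1q1 cd2q2b pd1 0 false false false .dn 1 1 2 (qsf 536870912 536870912 1239849684 370763052 1) ndB1q1 ndB2q2b pcB1 Cut.none Ext.none)

def k0_mm_112_b : ∃ t, chk3 f_mm_112_b t 1 1 1 = true :=
  ⟨(l 5), by decide +kernel⟩

theorem c_mm_112_b : CertB 536870912 536870912 1239849684 370763052 697932185 42949674 3 eng mog cd1q1 cd2q2b pd1 false false false .dn 1 1 2
    ndB1q1 ndB2q2b pcB1 Cut.none Ext.none :=
  certB0 (fam := false) (s1 := false) (s2 := false) (a := 1) (b := 1) (c := 2) (cn := .dn) (n1 := ndB1q1) (n2 := ndB2q2b) (pc := pcB1) (cut := Cut.none) (xt := Ext.none) (P1 := 536870912) (W1 := 536870912) (P2 := 1239849684) (W2 := 370763052) (P3 := 697932185) (W3 := 42949674) (N0 := 3) (En := eng) (mo := mog) (C1 := cd1q1) (C2 := cd2q2b) (C3 := pd1)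
    rfl k0_mm_112_b

noncomputable def f_mm_113 : ℕ → ℕ → ℕ → ℕ → Bool := onCell 536870912 536870912 1610612736 536870912 697932185 42949674
    (rowB 3 eng mog cd1q1 cd2q3 pd1 0 false false false .nn 1 1 3 (qsf 536870912 536870912 1610612736 536870912 1) ndB1q1 ndB2q3 pcB1 Cut.none Ext.none)

def k0_mm_113 : ∃ t, chk3 f_mm_113 t 1 1 1 = true :=
  ⟨(l 5), by decide +kernel⟩

theorem c_mm_113 : CertB 536870912 536870912 1610612736 536870912 697932185 42949674 3 eng mog cd1q1 cd2q3 pd1 false false false .nn 1 1 3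
    ndB1q1 ndB2q3 pcB1 Cut.none Ext.none :=
  certB0 (fam := false) (s1 := false) (s2 := false) (a := 1) (b := 1) (c := 3) (cn := .nn) (n1 := ndB1q1) (n2 := ndB2q3) (pc := pcB1) (cut := Cut.none) (xt := Ext.none) (P1 := 536870912) (W1 := 536870912) (P2 := 1610612736) (W2 := 536870912) (P3 := 697932185) (W3 := 42949674) (N0 := 3) (En := eng) (mo := mog) (C1 := cd1q1) (C2 := cd2q3) (C3 := pd1)
    rfl k0_mm_113

noncomputable def f_mm_123 : ℕ → ℕ → ℕ → ℕ → Bool := onCell 536870912 536870912 1610612736 536870912 697932185 42949674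
    (rowB 3 eng mog cd1q1 cd2q3 pd2 0 false false false .npn 1 2 3 (qsf 536870912 536870912 1610612736 536870912 2) ndB1q1 ndB2q3 pcB2 Cut.none Ext.none)

def k0_mm_123 : ∃ t, chk3 f_mm_123 t 1 1 1 = true :=
  ⟨(l 5), by decide +kernel⟩

theorem c_mm_123 : CertB 536870912 536870912 1610612736 536870912 697932185 42949674 3 eng mog cd1q1 cd2q3 pd2 false false false .npn 1 2 3
    ndB1q1 ndB2q3 pcB2 Cut.none Ext.none :=
  certB0 (fam := false) (s1 := false) (s2 := false) (a := 1) (b := 2) (c := 3) (cn := .npn) (n1 := ndB1q1) (n2 := ndB2q3) (pc := pcB2) (cut := Cut.none) (xt := Ext.none) (P1 := 536870912) (W1 := 536870912) (P2 := 1610612736) (W2 := 536870912) (P3 := 697932185) (W3 := 42949674) (N0 := 3) (En := eng) (mo := mog) (C1 := cd1q1) (C2 := cd2q3) (C3 := pd2)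
    rfl k0_mm_123

noncomputable def f_mm_133 : ℕ → ℕ → ℕ → ℕ → Bool := onCell 536870912 536870912 1610612736 536870912 697932185 42949674
    (rowB 3 eng mog cd1q1 cd2q3 pd3 0 false false false .dn 1 3 3 (qsf 536870912 536870912 1610612736 536870912 3) ndB1q1 ndB2q3 pcB3 Cut.none Ext.none)

def k0_mm_133 : ∃ t, chk3 f_mm_133 t 1 1 1 = true :=
  ⟨(l 5), by decide +kernel⟩

theorem c_mm_133 : CertB 536870912 536870912 1610612736 536870912 697932185 42949674 3 eng mog cd1q1 cd2q3 pd3 false false false .dn 1 3 3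
    ndB1q1 ndB2q3 pcB3 Cut.none Ext.none :=
  certB0 (fam := false) (s1 := false) (s2 := false) (a := 1) (b := 3) (c := 3) (cn := .dn) (n1 := ndB1q1) (n2 := ndB2q3) (pc := pcB3) (cut := Cut.none) (xt := Ext.none) (P1 := 536870912) (W1 := 536870912) (P2 := 1610612736) (W2 := 536870912) (P3 := 697932185) (W3 := 42949674) (N0 := 3) (En := eng) (mo := mog) (C1 := cd1q1) (C2 := cd2q3) (C3 := pd3)
    rfl k0_mm_133

noncomputable def f_mm_202_aa : ℕ → ℕ → ℕ → ℕ → Bool := onCell 0 536870912 0 536870912 697932185 42949674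
    (rowB 3 eng mog cd1q2a cd2q2a pd0 0 false false false .pp 2 0 2 (qsf 0 536870912 0 536870912 0) ndB1q2a ndB2q2a pcB0 Cut.none Ext.none)

def k0_mm_202_aa : ∃ t, chk3 f_mm_202_aa t 1 1 1 = true :=
  ⟨(l 3), by decide +kernel⟩

theorem c_mm_202_aa : CertB 0 536870912 0 536870912 697932185 42949674 3 eng mog cd1q2a cd2q2a pd0 false false false .pp 2 0 2
    ndB1q2a ndB2q2a pcB0 Cut.none Ext.none :=
  certB0 (fam := false) (s1 := false) (s2 := false) (a := 2) (b := 0) (c := 2) (cn := .pp) (n1 := ndB1q2a) (n2 := ndB2q2a) (pc := pcB0) (cut := Cut.none) (xt := Ext.none) (P1 := 0) (W1 := 536870912) (P2 := 0) (W2 := 536870912) (P3 := 697932185) (W3 := 42949674) (N0 := 3) (En := eng) (mo := mog) (C1 := cd1q2a) (C2 := cd2q2a) (C3 := pd0)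
    rfl k0_mm_202_aa

noncomputable def f_mm_202_ab : ℕ → ℕ → ℕ → ℕ → Bool := onCell 0 536870912 1239849684 370763052 697932185 42949674
    (rowB 3 eng mog cd1q2a cd2q2b pd0 0 false false false .pp 2 0 2 (qsf 0 536870912 1239849684 370763052 0) ndB1q2a ndB2q2b pcB0 Cut.none Ext.none)

def k0_mm_202_ab : ∃ t, chk3 f_mm_202_ab t 1 1 1 = true :=
  ⟨(l 3), by decide +kernel⟩

theorem c_mm_202_ab : CertB 0 536870912 1239849684 370763052 697932185 42949674 3 eng mog cd1q2a cd2q2b pd0 false false false .pp 2 0 2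
    ndB1q2a ndB2q2b pcB0 Cut.none Ext.none :=
  certB0 (fam := false) (s1 := false) (s2 := false) (a := 2) (b := 0) (c := 2) (cn := .pp) (n1 := ndB1q2a) (n2 := ndB2q2b) (pc := pcB0) (cut := Cut.none) (xt := Ext.none) (P1 := 0) (W1 := 536870912) (P2 := 1239849684) (W2 := 370763052) (P3 := 697932185) (W3 := 42949674) (N0 := 3) (En := eng) (mo := mog) (C1 := cd1q2a) (C2 := cd2q2b) (C3 := pd0)
    rfl k0_mm_202_ab

noncomputable def f_mm_202_ba : ℕ → ℕ → ℕ → ℕ → Bool := onCell 1239849684 370763052 0 536870912 697932185 42949674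
    (rowB 3 eng mog cd1q2b cd2q2a pd0 0 false false false .pp 2 0 2 (qsf 1239849684 370763052 0 536870912 0) ndB1q2b ndB2q2a pcB0 Cut.none Ext.none)

def k0_mm_202_ba : ∃ t, chk3 f_mm_202_ba t 1 1 1 = true :=
  ⟨(l 3), by decide +kernel⟩

theorem c_mm_202_ba : CertB 1239849684 370763052 0 536870912 697932185 42949674 3 eng mog cd1q2b cd2q2a pd0 false false false .pp 2 0 2
    ndB1q2b ndB2q2a pcB0 Cut.none Ext.none :=
  certB0 (fam := false) (s1 := false) (s2 := false) (a := 2) (b := 0) (c := 2) (cn := .pp) (n1 := ndB1q2b) (n2 := ndB2q2a) (pc := pcB0) (cut := Cut.none) (xt := Ext.none) (P1 := 1239849684) (W1 := 370763052) (P2 := 0) (W2 := 536870912) (P3 := 697932185) (W3 := 42949674) (N0 := 3) (En := eng) (mo := mog) (C1 := cd1q2b) (C2 := cd2q2a) (C3 := pd0)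
    rfl k0_mm_202_ba

noncomputable def f_mm_202_bb : ℕ → ℕ → ℕ → ℕ → Bool := onCell 1239849684 370763052 1239849684 370763052 697932185 42949674
    (rowB 3 eng mog cd1q2b cd2q2b pd0 0 false false false .pp 2 0 2 (qsf 1239849684 370763052 1239849684 370763052 0) ndB1q2b ndB2q2b pcB0 Cut.none Ext.none)

def k0_mm_202_bb : ∃ t, chk3 f_mm_202_bb t 1 1 1 = true :=
  ⟨(l 3), by decide +kernel⟩

theorem c_mm_202_bb : CertB 1239849684 370763052 1239849684 370763052 697932185 42949674 3 eng mog cd1q2b cd2q2b pd0 false false false .pp 2 0 2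
    ndB1q2b ndB2q2b pcB0 Cut.none Ext.none :=
  certB0 (fam := false) (s1 := false) (s2 := false) (a := 2) (b := 0) (c := 2) (cn := .pp) (n1 := ndB1q2b) (n2 := ndB2q2b) (pc := pcB0) (cut := Cut.none) (xt := Ext.none) (P1 := 1239849684) (W1 := 370763052) (P2 := 1239849684) (W2 := 370763052) (P3 := 697932185) (W3 := 42949674) (N0 := 3) (En := eng) (mo := mog) (C1 := cd1q2b) (C2 := cd2q2b) (C3 := pd0)
    rfl k0_mm_202_bb

noncomputable def f_mm_203_a : ℕ → ℕ → ℕ → ℕ → Bool := onCell 0 536870912 0 536870912 697932185 42949674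
    (rowB 3 eng mog cd1q2a cd2q3 pd0 1 false false false .up 2 0 3 (qsf 0 536870912 1610612736 536870912 0) ndB1q2a ndB2q3 pcB0 Cut.none Ext.none)

def k0_mm_203_a : ∃ t, chk3 f_mm_203_a t 1 1 1 = true :=
  ⟨(l 3), by decide +kernel⟩

theorem c_mm_203_a : CertB 0 536870912 1610612736 536870912 697932185 42949674 3 eng mog cd1q2a cd2q3 pd0 false false false .up 2 0 3
    ndB1q2a ndB2q3 pcB0 Cut.none Ext.none :=
  certB1 (fam := false) (s1 := false) (s2 := false) (a := 2) (b := 0) (c := 3) (cn := .up) (n1 := ndB1q2a) (n2 := ndB2q3) (pc := pcB0) (cut := Cut.none) (xt := Ext.none) (P1 := 0) (W1 := 536870912) (P2 := 1610612736) (W2 := 536870912) (P3 := 697932185) (W3 := 42949674) (N0 := 3) (En := eng) (mo := mog) (C1 := cd1q2a) (C2 := cd2q3) (C3 := pd0)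
    rfl (fun _ => rfl) k0_mm_203_a

noncomputable def f_mm_203_b : ℕ → ℕ → ℕ → ℕ → Bool := onCell 1239849684 370763052 1610612736 536870912 697932185 42949674
    (rowB 3 eng mog cd1q2b cd2q3 pd0 0 false false false .up 2 0 3 (qsf 1239849684 370763052 1610612736 536870912 0) ndB1q2b ndB2q3 pcB0 Cut.none Ext.none)

def k0_mm_203_b : ∃ t, chk3 f_mm_203_b t 1 1 1 = true :=
  ⟨(l 3), by decide +kernel⟩

theorem c_mm_203_b : CertB 1239849684 370763052 1610612736 536870912 697932185 42949674 3 eng mog cd1q2b cd2q3 pd0 false false false .up 2 0 3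
    ndB1q2b ndB2q3 pcB0 Cut.none Ext.none :=
  certB0 (fam := false) (s1 := false) (s2 := false) (a := 2) (b := 0) (c := 3) (cn := .up) (n1 := ndB1q2b) (n2 := ndB2q3) (pc := pcB0) (cut := Cut.none) (xt := Ext.none) (P1 := 1239849684) (W1 := 370763052) (P2 := 1610612736) (W2 := 536870912) (P3 := 697932185) (W3 := 42949674) (N0 := 3) (En := eng) (mo := mog) (C1 := cd1q2b) (C2 := cd2q3) (C3 := pd0)
    rfl k0_mm_203_b

noncomputable def f_mm_213_a : ℕ → ℕ → ℕ → ℕ → Bool := onCell 0 536870912 1610612736 536870912 697932185 42949674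
    (rowB 3 eng mog cd1q2a cd2q3 pd1 0 false false false .pnn 2 1 3 (qsf 0 536870912 1610612736 536870912 1) ndB1q2a ndB2q3 pcB1 Cut.none Ext.none)

def k0_mm_213_a : ∃ t, chk3 f_mm_213_a t 1 1 1 = true :=
  ⟨(a (l 3) (l 5)), by decide +kernel⟩

theorem c_mm_213_a : CertB 0 536870912 1610612736 536870912 697932185 42949674 3 eng mog cd1q2a cd2q3 pd1 false false false .pnn 2 1 3
    ndB1q2a ndB2q3 pcB1 Cut.none Ext.none :=
  certB0 (fam := false) (s1 := false) (s2 := false) (a := 2) (b := 1) (c := 3) (cn := .pnn) (n1 := ndB1q2a) (n2 := ndB2q3) (pc := pcB1) (cut := Cut.none) (xt := Ext.none) (P1 := 0) (W1 := 536870912) (P2 := 1610612736) (W2 := 536870912) (P3 := 697932185) (W3 := 42949674) (N0 := 3) (En := eng) (mo := mog) (C1 := cd1q2a) (C2 := cd2q3) (C3 := pd1)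
    rfl k0_mm_213_a

noncomputable def f_mm_213_b : ℕ → ℕ → ℕ → ℕ → Bool := onCell 1239849684 370763052 1610612736 536870912 697932185 42949674
    (rowB 3 eng mog cd1q2b cd2q3 pd1 0 false false false .pnn 2 1 3 (qsf 1239849684 370763052 1610612736 536870912 1) ndB1q2b ndB2q3 pcB1 Cut.none Ext.none)

def k0_mm_213_b : ∃ t, chk3 f_mm_213_b t 1 1 1 = true :=
  ⟨(l 3), by decide +kernel⟩

theorem c_mm_213_b : CertB 1239849684 370763052 1610612736 536870912 697932185 42949674 3 eng mog cd1q2b cd2q3 pd1 false false false .pnn 2 1 3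
    ndB1q2b ndB2q3 pcB1 Cut.none Ext.none :=
  certB0 (fam := false) (s1 := false) (s2 := false) (a := 2) (b := 1) (c := 3) (cn := .pnn) (n1 := ndB1q2b) (n2 := ndB2q3) (pc := pcB1) (cut := Cut.none) (xt := Ext.none) (P1 := 1239849684) (W1 := 370763052) (P2 := 1610612736) (W2 := 536870912) (P3 := 697932185) (W3 := 42949674) (N0 := 3) (En := eng) (mo := mog) (C1 := cd1q2b) (C2 := cd2q3) (C3 := pd1)
    rfl k0_mm_213_b

noncomputable def f_mm_303 : ℕ → ℕ → ℕ → ℕ → Bool := onCell 1610612736 536870912 1610612736 536870912 697932185 42949674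
    (rowB 3 eng mog cd1q3 cd2q3 pd0 0 false false false .npn 3 0 3 (qsf 1610612736 536870912 1610612736 536870912 0) ndB1q3 ndB2q3 pcB0 Cut.none Ext.none)

def k0_mm_303 : ∃ t, chk3 f_mm_303 t 1 1 1 = true :=
  ⟨(l 3), by decide +kernel⟩

theorem c_mm_303 : CertB 1610612736 536870912 1610612736 536870912 697932185 42949674 3 eng mog cd1q3 cd2q3 pd0 false false false .npn 3 0 3
    ndB1q3 ndB2q3 pcB0 Cut.none Ext.none :=
  certB0 (fam := false) (s1 := false) (s2 := false) (a := 3) (b := 0) (c := 3) (cn := .npn) (n1 := ndB1q3) (n2 := ndB2q3) (pc := pcB0) (cut := Cut.none) (xt := Ext.none) (P1 := 1610612736) (W1 := 536870912) (P2 := 1610612736) (W2 := 536870912) (P3 := 697932185) (W3 := 42949674) (N0 := 3) (En := eng) (mo := mog) (C1 := cd1q3) (C2 := cd2q3) (C3 := pd0)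
    rfl k0_mm_303

noncomputable def f_mm_313 : ℕ → ℕ → ℕ → ℕ → Bool := onCell 1610612736 536870912 1610612736 536870912 697932185 42949674
    (rowB 3 eng mog cd1q3 cd2q3 pd1 0 false false false .dn 3 1 3 (qsf 1610612736 536870912 1610612736 536870912 1) ndB1q3 ndB2q3 pcB1 Cut.none Ext.none)

def k0_mm_313 : ∃ t, chk3 f_mm_313 t 1 1 1 = true :=
  ⟨(l 3), by decide +kernel⟩

theorem c_mm_313 : CertB 1610612736 536870912 1610612736 536870912 697932185 42949674 3 eng mog cd1q3 cd2q3 pd1 false false false .dn 3 1 3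
    ndB1q3 ndB2q3 pcB1 Cut.none Ext.none :=
  certB0 (fam := false) (s1 := false) (s2 := false) (a := 3) (b := 1) (c := 3) (cn := .dn) (n1 := ndB1q3) (n2 := ndB2q3) (pc := pcB1) (cut := Cut.none) (xt := Ext.none) (P1 := 1610612736) (W1 := 536870912) (P2 := 1610612736) (W2 := 536870912) (P3 := 697932185) (W3 := 42949674) (N0 := 3) (En := eng) (mo := mog) (C1 := cd1q3) (C2 := cd2q3) (C3 := pd1)
    rfl k0_mm_313

end Pool.Agent.Strip051.G.I6500_6900.Tab.C.BB12

namespace Pool.Agent.Strip051.G.I6500_6900.Tab.C.BB13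

open Pool.Agent.Strip051.PB Pool.Agent.Strip051.PB.T
open Pool.Agent.Strip051.G.I6500_6900.Tab

noncomputable def f_pp_001 : ℕ → ℕ → ℕ → ℕ → Bool := onCell 0 536870912 536870912 536870912 697932185 42949674
    (rowB 3 eng mog cd1q0 cd3q1 pd0 0 false true true .up 0 0 1 (qsf 0 536870912 536870912 536870912 0) ndB1q0 ndB3q1 pcB0 Cut.none Ext.none)

def k0_pp_001 : ∃ t, chk3 f_pp_001 t 1 1 1 = true :=
  ⟨(l 3), by decide +kernel⟩

theorem c_pp_001 : CertB 0 536870912 536870912 536870912 697932185 42949674 3 eng mog cd1q0 cd3q1 pd0 false true true .up 0 0 1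
    ndB1q0 ndB3q1 pcB0 Cut.none Ext.none :=
  certB0 (fam := false) (s1 := true) (s2 := true) (a := 0) (b := 0) (c := 1) (cn := .up) (n1 := ndB1q0) (n2 := ndB3q1) (pc := pcB0) (cut := Cut.none) (xt := Ext.none) (P1 := 0) (W1 := 536870912) (P2 := 536870912) (W2 := 536870912) (P3 := 697932185) (W3 := 42949674) (N0 := 3) (En := eng) (mo := mog) (C1 := cd1q0) (C2 := cd3q1) (C3 := pd0)
    rfl k0_pp_001

noncomputable def f_pp_011 : ℕ → ℕ → ℕ → ℕ → Bool := onCell 0 536870912 536870912 536870912 697932185 42949674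
    (rowB 3 eng mog cd1q0 cd3q1 pd1 0 false true true .pnn 0 1 1 (qsf 0 536870912 536870912 536870912 1) ndB1q0 ndB3q1 pcB1 Cut.none Ext.none)

def k0_pp_011 : ∃ t, chk3 f_pp_011 t 1 1 1 = true :=
  ⟨(l 3), by decide +kernel⟩

theorem c_pp_011 : CertB 0 536870912 536870912 536870912 697932185 42949674 3 eng mog cd1q0 cd3q1 pd1 false true true .pnn 0 1 1
    ndB1q0 ndB3q1 pcB1 Cut.none Ext.none :=
  certB0 (fam := false) (s1 := true) (s2 := true) (a := 0) (b := 1) (c := 1) (cn := .pnn) (n1 := ndB1q0) (n2 := ndB3q1) (pc := pcB1) (cut := Cut.none) (xt := Ext.none) (P1 := 0) (W1 := 536870912) (P2 := 536870912) (W2 := 536870912) (P3 := 697932185) (W3 := 42949674) (N0 := 3) (En := eng) (mo := mog) (C1 := cd1q0) (C2 := cd3q1) (C3 := pd1)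
    rfl k0_pp_011

noncomputable def cut_pp_012_a : Cut := Cut.of [[⟨0, 0, 0, 67108864⟩, ⟨1, 1, 0, 67108864⟩, ⟨2, 1, 0, 67108864⟩]]

noncomputable def f_pp_012_a : ℕ → ℕ → ℕ → ℕ → Bool := onCell 536870912 536870912 0 536870912 697932185 42949674
    (rowB 3 eng mog cd1q0 cd3q2a pd1 2 false true true .pnp 0 1 2 (qsf 0 536870912 0 536870912 1) ndB1q0 ndB3q2a pcB1 cut_pp_012_a Ext.none)

def k0_pp_012_a : ∃ t, chk3 f_pp_012_a t 2 1 1 = true :=
  ⟨(l 3), by decide +kernel⟩

def k1_pp_012_a : ∃ t, chk3 f_pp_012_a t 6 1 1 = true :=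
  ⟨(a (l 3) (b (b (a (b (a (l 35601222455) (b (l 16714224) (l 16721080))) (l 3)) (a (b (c (l 16702424) (l 16697680)) (b (l 16712576) (l 3))) (b (b (l 16677624) (l 16685448)) (c (l 16743832) (a (l 16702024) (l 16692488)))))) (a (l 3) (b (a (l 3) (b (l 16714816) (l 3))) (l 3)))) (l 3))), by decide +kernel⟩

def k2_pp_012_a : ∃ t, chk3 f_pp_012_a t 14 1 1 = true :=
  ⟨(b (a (b (b (a (l 16663544) (l 16647120)) (a (b (l 16675384) (l 16685144)) (l 16709584))) (b (a (a (l 16727984) (l 16718328)) (a (l 16687720) (l 16678752))) (a (l 3) (a (l 16740296) (l 3388912967))))) (b (a (b (l 16632472) (l 16646816)) (b (l 16618840) (l 16633136))) (b (a (l 16708648) (b (l 16646616) (l 16657336))) (a (a (b (l 16689152) (l 16703600)) (l 16709144)) (b (l 16669192) (l 16682144)))))) (b (a (l 3) (a (b (b (a (l 16718944) (l 16709544)) (l 3)) (l 3)) (b (a (b (l 16700704) (l 16716880)) (b (l 16692424) (l 16708352))) (b (a (l 3) (l 16726488)) (l 3))))) (l 3))), by decide +kernel⟩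

def k3_pp_012_a : ∃ t, chk3 f_pp_012_a t 15 1 1 = true :=
  ⟨(b (b (a (a (a (l 16616536) (l 16609784)) (l 16599768)) (b (l 16576400) (l 16586680))) (a (a (b (l 16637352) (l 16680960)) (b (l 16622504) (l 16666064))) (b (a (l 16608904) (l 16596968)) (a (b (l 16624744) (l 16637576)) (b (l 16612224) (l 16624528)))))) (b (a (b (a (b (l 16680472) (l 16696344)) (b (l 16665392) (l 16681264))) (a (b (a (l 16718136) (l 16710232)) (a (l 3) (l 16751352))) (b (a (l 16702744) (l 16695504)) (a (l 16722648) (l 16715464))))) (b (a (b (l 16651472) (l 16667352)) (b (l 16597024) (l 16612672))) (a (b (a (l 16688584) (l 16682000)) (a (b (l 16703240) (l 16713568)) (b (l 16696224) (l 16705440)))) (b (a (l 16675224) (l 16667768)) (a (l 16692448) (l 16683752)))))) (a (b (a (l 3) (b (b (a (l 16739368) (l 16731632)) (a (l 3) (l 46875437095))) (a (l 3) (b (l 16763376) (l 3))))) (l 3)) (b (a (b (a (b (l 16723336) (l 16732752)) (l 16740112)) (a (b (l 16742992) (a (l 16756584) (l 16751560)))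 (b (l 16733888) (a (l 16746832) (l 16742336))))) (b (a (l 16710232) (l 16722336)) (a (b (l 16724936) (l 16746088)) (a (l 16744576) (l 6))))) (a (a (l 3) (b (l 6) (l 3))) (l 6)))))), by decide +kernel⟩

theorem s4_pp_012_a : ∃ t, chk3 f_pp_012_a t 7 1 1 = true := ex3_a k2_pp_012_a k3_pp_012_a

theorem s5_pp_012_a : ∃ t, chk3 f_pp_012_a t 3 1 1 = true := ex3_a k1_pp_012_a s4_pp_012_a

theorem s6_pp_012_a : ∃ t, chk3 f_pp_012_a t 1 1 1 = true := ex3_a k0_pp_012_a s5_pp_012_a

theorem c_pp_012_a : CertB 0 536870912 0 536870912 697932185 42949674 3 eng mog cd1q0 cd3q2a pd1 false true true .pnp 0 1 2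
    ndB1q0 ndB3q2a pcB1 cut_pp_012_a Ext.none :=
  certB2 (fam := false) (s1 := true) (s2 := true) (a := 0) (b := 1) (c := 2) (cn := .pnp) (n1 := ndB1q0) (n2 := ndB3q2a) (pc := pcB1) (cut := cut_pp_012_a) (xt := Ext.none) (P1 := 0) (W1 := 536870912) (P2 := 0) (W2 := 536870912) (P3 := 697932185) (W3 := 42949674) (N0 := 3) (En := eng) (mo := mog) (C1 := cd1q0) (C2 := cd3q2a) (C3 := pd1)
    rfl (fun _ => rfl) s6_pp_012_a

noncomputable def cut_pp_012_b : Cut := Cut.of [[⟨0, 0, 0, 67108864⟩, ⟨1, 1, 0, 67108864⟩, ⟨2, 1, 0, 67108864⟩]]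

noncomputable def f_pp_012_b : ℕ → ℕ → ℕ → ℕ → Bool := onCell 536870912 536870912 1239849684 370763052 697932185 42949674
    (rowB 3 eng mog cd1q0 cd3q2b pd1 2 false true true .pnp 0 1 2 (qsf 0 536870912 1239849684 370763052 1) ndB1q0 ndB3q2b pcB1 cut_pp_012_b Ext.none)

def k0_pp_012_b : ∃ t, chk3 f_pp_012_b t 1 1 1 = true :=
  ⟨(a (l 3) (a (a (b (l 3) (l 2)) (b (a (b (b (a (b (l 16717448) (l 16695816)) (b (l 16698760) (l 16676208))) (a (l 3) (l 16645608))) (b (b (l 16628688) (l 16613856)) (l 16602208))) (b (b (a (b (l 16679376) (l 16655416)) (b (l 16660472) (l 16634952))) (a (l 16623240) (l 16600848))) (b (a (l 16586608) (l 16562024)) (l 16593480)))) (b (a (l 36137994423) (a (l 16555576) (l 16525264))) (l 2)))) (a (b (b (a (b (a (l 16670656) (l 16632872)) (a (l 16579168) (l 16559448))) (b (a (l 16596104) (l 16602272)) (a (l 16540960) (l 16523216)))) (a (b (a (l 16537936) (l 16515672)) (l 16497864)) (b (b (l 16495536) (l 16474200)) (l 16449816)))) (a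 (b (b (l 16481992) (l 16478000)) (l 2)) (b (b (l 16428048) (l 16418952)) (b (l 16423496) (l 2))))) (b (b (a (b (a (l 16651936) (l 16556032)) (l 16541824)) (b (b (l 16556624) (l 16523864)) (l 16495872))) (b (a (l 16488352) (l 16457040)) (a (l 16404392) (l 16364432)))) (b (a (l 16472000) (b (l 16328448) (l 16306816))) (a (l 16449528) (l 16302536))))))), by decide +kernel⟩

theorem c_pp_012_b : CertB 0 536870912 1239849684 370763052 697932185 42949674 3 eng mog cd1q0 cd3q2b pd1 false true true .pnp 0 1 2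
    ndB1q0 ndB3q2b pcB1 cut_pp_012_b Ext.none :=
  certB2 (fam := false) (s1 := true) (s2 := true) (a := 0) (b := 1) (c := 2) (cn := .pnp) (n1 := ndB1q0) (n2 := ndB3q2b) (pc := pcB1) (cut := cut_pp_012_b) (xt := Ext.none) (P1 := 0) (W1 := 536870912) (P2 := 1239849684) (W2 := 370763052) (P3 := 697932185) (W3 := 42949674) (N0 := 3) (En := eng) (mo := mog) (C1 := cd1q0) (C2 := cd3q2b) (C3 := pd1)
    rfl (fun _ => rfl) k0_pp_012_b

noncomputable def cut_pp_022_a : Cut := Cut.of [[⟨0, 0, 0, 67108864⟩, ⟨1, 1, 0, 67108864⟩, ⟨2, 1, 0, 67108864⟩]]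

noncomputable def f_pp_022_a : ℕ → ℕ → ℕ → ℕ → Bool := onCell 1073741824 536870912 0 536870912 697932185 42949674
    (rowB 3 eng mog cd1q0 cd3q2a pd2 2 false true true .pp 0 2 2 (qsf 0 536870912 0 536870912 2) ndB1q0 ndB3q2a pcB2 cut_pp_022_a Ext.none)

def k0_pp_022_a : ∃ t, chk3 f_pp_022_a t 2 2 1 = true :=
  ⟨(a (a (b (a (b (l 16551936) (l 16563488)) (b (l 16526008) (l 16536776))) (b (a (l 16602008) (l 16573408)) (a (a (l 16603816) (l 16602344)) (a (l 16582200) (l 16562584))))) (b (a (b (a (l 16501440) (l 16486072)) (a (l 16510624) (l 16493576))) (b (a (l 16470136) (l 16453592)) (a (l 16475800) (l 16457232)))) (a (b (a (l 16524592) (l 16505496)) (b (l 16526888) (l 16577408))) (b (a (l 16485496) (l 16464512)) (a (b (l 16494352) (l 16500696)) (b (l 16471224) (l 16475920))))))) (a (a (b (a (b (l 16436360) (l 16437760)) (a (b (l 16422880) (l 16422408)) (b (a (l 16415800) (a (l 16411992) (l 16409160))) (a (l 16414264) (a (l 16409808) (l 1)))))) (a (b (b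 (l 16440888) (l 16443712)) (b (l 16446696) (l 16449576))) (a (b (l 16424768) (l 1)) (l 1)))) (b (b (l 1) (l 1)) (l 1))) (l 1))), by decide +kernel⟩

def k1_pp_022_a : ∃ t, chk3 f_pp_022_a t 2 3 1 = true :=
  ⟨(a (a (b (a (a (b (b (l 16625136) (l 16640584)) (b (l 16656432) (a (l 16673632) (l 16673176)))) (b (l 16628296) (b (l 16650488) (l 16665680)))) (b (a (l 16607136) (b (l 16578960) (l 16590440))) (a (b (l 16584960) (a (l 16646704) (l 16633552))) (b (l 16601912) (a (l 16620048) (l 16606184)))))) (a (b (b (a (a (l 16713392) (l 16692120)) (a (l 16687336) (l 16673912))) (l 6)) (l 6)) (b (b (a (b (l 16670752) (a (l 16663344) (l 16648776))) (b (a (l 16628416) (l 16613696)) (a (b (l 16632520) (l 6)) (b (l 16617344) (l 16619624))))) (a (l 6) (a (l 6) (a (l 6) (l 1))))) (a (l 6) (l 1))))) (b (b (a (b (a (l 16556192) (l 16532240)) (a (l 16565976) (l 16540240))) (a (b (l 16507040) (l 84858695911)) (b (l 81100482327) (l 1)))) (a (b (a (a (l 16582288) (l 16568768))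 (a (l 16554912) (l 98280506423))) (a (b (a (l 16589632) (l 16575312)) (a (l 16594176) (l 16579280))) (b (a (l 16560624) (l 1)) (l 1)))) (b (a (a (l 16526072) (l 1)) (l 1)) (l 1)))) (a (b (b (a (b (a (l 82711332007) (l 16583048)) (a (l 16602728) (l 1))) (l 1)) (l 1)) (l 1)) (l 1)))) (b (l 1) (l 1))), by decide +kernel⟩

def k2_pp_022_a : ∃ t, chk3 f_pp_022_a t 3 1 1 = true :=
  ⟨(l 1), by decide +kernel⟩

theorem s3_pp_022_a : ∃ t, chk3 f_pp_022_a t 2 1 1 = true := ex3_b k0_pp_022_a k1_pp_022_a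

theorem s4_pp_022_a : ∃ t, chk3 f_pp_022_a t 1 1 1 = true := ex3_a s3_pp_022_a k2_pp_022_a

theorem c_pp_022_a : CertB 0 536870912 0 536870912 697932185 42949674 3 eng mog cd1q0 cd3q2a pd2 false true true .pp 0 2 2
    ndB1q0 ndB3q2a pcB2 cut_pp_022_a Ext.none :=
  certB2 (fam := false) (s1 := true) (s2 := true) (a := 0) (b := 2) (c := 2) (cn := .pp) (n1 := ndB1q0) (n2 := ndB3q2a) (pc := pcB2) (cut := cut_pp_022_a) (xt := Ext.none) (P1 := 0) (W1 := 536870912) (P2 := 0) (W2 := 536870912) (P3 := 697932185) (W3 := 42949674) (N0 := 3) (En := eng) (mo := mog) (C1 := cd1q0) (C2 := cd3q2a) (C3 := pd2)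
    rfl (fun _ => rfl) s4_pp_022_a

noncomputable def cut_pp_022_b : Cut := Cut.of [[⟨0, 0, 0, 67108864⟩, ⟨1, 1, 0, 67108864⟩, ⟨2, 1, 0, 67108864⟩]]

noncomputable def f_pp_022_b : ℕ → ℕ → ℕ → ℕ → Bool := onCell 1073741824 536870912 1239849684 370763052 697932185 42949674
    (rowB 3 eng mog cd1q0 cd3q2b pd2 2 false true true .pp 0 2 2 (qsf 0 536870912 1239849684 370763052 2) ndB1q0 ndB3q2b pcB2 cut_pp_022_b Ext.none)

def k0_pp_022_b : ∃ t, chk3 f_pp_022_b t 2 1 1 = true :=
  ⟨(a (b (b (a (b (b (a (l 16531048) (l 16511048)) (l 16591096)) (a (l 16449000) (l 16445512))) (b (a (b (l 16493096) (l 16455064)) (b (l 16469704) (l 16423824))) (a (l 16422480) (l 16390744)))) (b (a (a (l 16386600) (l 16383824)) (l 16405472)) (a (a (l 16329840) (l 16325936)) (l 16351168)))) (b (a (a (b (l 16287896) (l 16260928)) (l 16390936)) (a (l 16315936) (b (l 16252856) (l 16220728)))) (a (b (l 16243072) (l 16243208)) (b (l 16211920) (l 16205144))))) (b (a (b (a (a (b (b (l 16425400)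 (l 16401832)) (l 16366680)) (a (b (l 16422856) (l 16355512)) (b (a (l 16416736) (b (a (l 16403480) (l 16401024)) (l 16380160))) (a (l 16350176) (l 16346416))))) (b (a (b (l 197064486951) (l 16370280)) (b (l 266857642343) (l 16346096))) (a (l 16337440) (l 16317840)))) (a (b (a (l 16325944) (l 16309960)) (l 16343328)) (b (a (l 16294208) (l 16278808)) (l 16253008)))) (b (b (a (b (l 1) (l 258804375431)) (l 1)) (a (b (l 241624561431) (l 16272512)) (b (l 275447221719) (l 273299807591)))) (b (a (l 16252344) (b (l 16210864) (l 16205160))) (a (l 16229992) (l 16198184))))) (a (a (b (a (l 16218104) (l 16311064)) (a (l 16177856) (l 16164880))) (b (l 16380008) (l 16190496))) (b (b (a (l 16206064) (l 16187776)) (l 16174744)) (a (l 16150504) (l 16132968)))))), by decide +kernel⟩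

def k1_pp_022_b : ∃ t, chk3 f_pp_022_b t 3 1 1 = true :=
  ⟨(b (a (b (l 1) (a (b (a (b (l 278131442727) (l 258267355959)) (b (l 1) (l 286184400039))) (a (l 16180584) (b (l 276520875047) (l 16117136)))) (a (a (b (l 1) (l 323765312631)) (l 1)) (l 1)))) (l 1)) (a (b (a (b (a (l 16159360) (l 16125336)) (l 16170384)) (b (a (a (l 16095984) (l 334502870343)) (l 355977498871)) (a (l 16102960) (l 16069224)))) (a (b (l 16152064) (l 16146520)) (a (l 16129360) (l 16105920)))) (b (a (b (l 1) (a (l 389263475319) (l 421475652823))) (l 1)) (a (b (a (l 16063376) (l 302827418871)) (l 16081024)) (b (l 434897408455) (l 300680070071)))))), by decide +kernel⟩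

theorem s2_pp_022_b : ∃ t, chk3 f_pp_022_b t 1 1 1 = true := ex3_a k0_pp_022_b k1_pp_022_b

theorem c_pp_022_b : CertB 0 536870912 1239849684 370763052 697932185 42949674 3 eng mog cd1q0 cd3q2b pd2 false true true .pp 0 2 2
    ndB1q0 ndB3q2b pcB2 cut_pp_022_b Ext.none :=
  certB2 (fam := false) (s1 := true) (s2 := true) (a := 0) (b := 2) (c := 2) (cn := .pp) (n1 := ndB1q0) (n2 := ndB3q2b) (pc := pcB2) (cut := cut_pp_022_b) (xt := Ext.none) (P1 := 0) (W1 := 536870912) (P2 := 1239849684) (W2 := 370763052) (P3 := 697932185) (W3 := 42949674) (N0 := 3) (En := eng) (mo := mog) (C1 := cd1q0) (C2 := cd3q2b) (C3 := pd2)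
    rfl (fun _ => rfl) s2_pp_022_b

noncomputable def f_pp_023 : ℕ → ℕ → ℕ → ℕ → Bool := onCell 1073741824 536870912 1610612736 536870912 697932185 42949674
    (rowB 3 eng mog cd1q0 cd3q3 pd2 2 false true true .up 0 2 3 (qsf 0 536870912 1610612736 536870912 2) ndB1q0 ndB3q3 pcB2 Cut.none Ext.none)

def k0_pp_023 : ∃ t, chk3 f_pp_023 t 1 1 1 = true :=
  ⟨(a (a (b (b (a (b (l 16242240) (l 16294728)) (b (l 16198864) (l 16235176))) (a (l 2) (l 16354296))) (l 2)) (b (a (b (a (a (l 16176776) (l 16162216)) (b (l 16137392) (l 16160032))) (a (a (l 16296600) (l 16274424)) (l 16250192))) (b (b (l 16148272) (l 16181848)) (l 16271304))) (a (l 2) (b (l 16425488) (l 2))))) (a (b (b (a (b (l 16141144) (l 16150544)) (b (l 16159448) (l 16163944))) (a (l 16271576) (l 16196224))) (b (a (l 16458216) (l 16460584)) (a (l 2) (l 16545104)))) (b (b (a (b (l 16135400) (l 16179992)) (b (l 16100016) (l 16160016))) (a (l 16200328) (l 16248616))) (b (a (l 16458248) (l 16444872)) (a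 (l 16585408) (l 16603544)))))), by decide +kernel⟩

theorem c_pp_023 : CertB 0 536870912 1610612736 536870912 697932185 42949674 3 eng mog cd1q0 cd3q3 pd2 false true true .up 0 2 3
    ndB1q0 ndB3q3 pcB2 Cut.none Ext.none :=
  certB2 (fam := false) (s1 := true) (s2 := true) (a := 0) (b := 2) (c := 3) (cn := .up) (n1 := ndB1q0) (n2 := ndB3q3) (pc := pcB2) (cut := Cut.none) (xt := Ext.none) (P1 := 0) (W1 := 536870912) (P2 := 1610612736) (W2 := 536870912) (P3 := 697932185) (W3 := 42949674) (N0 := 3) (En := eng) (mo := mog) (C1 := cd1q0) (C2 := cd3q3) (C3 := pd2)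
    rfl (fun _ => rfl) k0_pp_023

noncomputable def f_pp_033 : ℕ → ℕ → ℕ → ℕ → Bool := onCell 1610612736 536870912 1610612736 536870912 697932185 42949674
    (rowB 3 eng mog cd1q0 cd3q3 pd3 2 false true true .pnn 0 3 3 (qsf 0 536870912 1610612736 536870912 3) ndB1q0 ndB3q3 pcB3 Cut.none Ext.none)

def k0_pp_033 : ∃ t, chk3 f_pp_033 t 1 1 1 = true :=
  ⟨(a (b (a (b (a (b (l 454761877575) (l 16107408)) (b (l 518112330263) (l 445098140407))) (a (b (l 16158448) (l 16211976)) (b (l 16044744) (l 16104816)))) (b (a (b (l 1) (l 544955832359)) (l 1)) (a (b (l 15973944) (l 16044896)) (l 547103613319)))) (a (a (b (l 16389568) (l 16567864)) (b (l 16287520) (l 16504872))) (a (b (l 16356728) (l 16636384)) (b (b (l 16101640) (l 16203656)) (l 16532784))))) (b (a (b (l 1) (a (b (l 1) (l 582536941751)) (l 1))) (l 1)) (b (a (a (a (l 16121256) (l 4)) (l 4)) (a (b (l 1) (l 4)) (l 1))) (l 4)))), by decide +kernel⟩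

theorem c_pp_033 : CertB 0 536870912 1610612736 536870912 697932185 42949674 3 eng mog cd1q0 cd3q3 pd3 false true true .pnn 0 3 3
    ndB1q0 ndB3q3 pcB3 Cut.none Ext.none :=
  certB2 (fam := false) (s1 := true) (s2 := true) (a := 0) (b := 3) (c := 3) (cn := .pnn) (n1 := ndB1q0) (n2 := ndB3q3) (pc := pcB3) (cut := Cut.none) (xt := Ext.none) (P1 := 0) (W1 := 536870912) (P2 := 1610612736) (W2 := 536870912) (P3 := 697932185) (W3 := 42949674) (N0 := 3) (En := eng) (mo := mog) (C1 := cd1q0) (C2 := cd3q3) (C3 := pd3)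
    rfl (fun _ => rfl) k0_pp_033

noncomputable def f_pp_101 : ℕ → ℕ → ℕ → ℕ → Bool := onCell 536870912 536870912 536870912 536870912 697932185 42949674
    (rowB 3 eng mog cd1q1 cd3q1 pd0 0 false true true .npn 1 0 1 (qsf 536870912 536870912 536870912 536870912 0) ndB1q1 ndB3q1 pcB0 Cut.none Ext.none)

def k0_pp_101 : ∃ t, chk3 f_pp_101 t 1 1 1 = true :=
  ⟨(l 3), by decide +kernel⟩

theorem c_pp_101 : CertB 536870912 536870912 536870912 536870912 697932185 42949674 3 eng mog cd1q1 cd3q1 pd0 false true true .npn 1 0 1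
    ndB1q1 ndB3q1 pcB0 Cut.none Ext.none :=
  certB0 (fam := false) (s1 := true) (s2 := true) (a := 1) (b := 0) (c := 1) (cn := .npn) (n1 := ndB1q1) (n2 := ndB3q1) (pc := pcB0) (cut := Cut.none) (xt := Ext.none) (P1 := 536870912) (W1 := 536870912) (P2 := 536870912) (W2 := 536870912) (P3 := 697932185) (W3 := 42949674) (N0 := 3) (En := eng) (mo := mog) (C1 := cd1q1) (C2 := cd3q1) (C3 := pd0)
    rfl k0_pp_101

noncomputable def f_pp_102_a : ℕ → ℕ → ℕ → ℕ → Bool := onCell 536870912 536870912 0 536870912 697932185 42949674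
    (rowB 3 eng mog cd1q1 cd3q2a pd0 0 false true true .npp 1 0 2 (qsf 536870912 536870912 0 536870912 0) ndB1q1 ndB3q2a pcB0 Cut.none Ext.none)

def k0_pp_102_a : ∃ t, chk3 f_pp_102_a t 1 1 1 = true :=
  ⟨(l 3), by decide +kernel⟩

theorem c_pp_102_a : CertB 536870912 536870912 0 536870912 697932185 42949674 3 eng mog cd1q1 cd3q2a pd0 false true true .npp 1 0 2
    ndB1q1 ndB3q2a pcB0 Cut.none Ext.none :=
  certB0 (fam := false) (s1 := true) (s2 := true) (a := 1) (b := 0) (c := 2) (cn := .npp) (n1 := ndB1q1) (n2 := ndB3q2a) (pc := pcB0) (cut := Cut.none) (xt := Ext.none) (P1 := 536870912) (W1 := 536870912) (P2 := 0) (W2 := 536870912) (P3 := 697932185) (W3 := 42949674) (N0 := 3) (En := eng) (mo := mog) (C1 := cd1q1) (C2 := cd3q2a) (C3 := pd0)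
    rfl k0_pp_102_a

noncomputable def f_pp_102_b : ℕ → ℕ → ℕ → ℕ → Bool := onCell 536870912 536870912 0 536870912 697932185 42949674
    (rowB 3 eng mog cd1q1 cd3q2b pd0 1 false true true .npp 1 0 2 (qsf 536870912 536870912 1239849684 370763052 0) ndB1q1 ndB3q2b pcB0 Cut.none Ext.none)

def k0_pp_102_b : ∃ t, chk3 f_pp_102_b t 1 1 1 = true :=
  ⟨(l 3), by decide +kernel⟩

theorem c_pp_102_b : CertB 536870912 536870912 1239849684 370763052 697932185 42949674 3 eng mog cd1q1 cd3q2b pd0 false true true .npp 1 0 2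
    ndB1q1 ndB3q2b pcB0 Cut.none Ext.none :=
  certB1 (fam := false) (s1 := true) (s2 := true) (a := 1) (b := 0) (c := 2) (cn := .npp) (n1 := ndB1q1) (n2 := ndB3q2b) (pc := pcB0) (cut := Cut.none) (xt := Ext.none) (P1 := 536870912) (W1 := 536870912) (P2 := 1239849684) (W2 := 370763052) (P3 := 697932185) (W3 := 42949674) (N0 := 3) (En := eng) (mo := mog) (C1 := cd1q1) (C2 := cd3q2b) (C3 := pd0)
    rfl (fun _ => rfl) k0_pp_102_b

noncomputable def f_pp_112_a : ℕ → ℕ → ℕ → ℕ → Bool := onCell 536870912 536870912 0 536870912 697932185 42949674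
    (rowB 3 eng mog cd1q1 cd3q2a pd1 0 false true true .dn 1 1 2 (qsf 536870912 536870912 0 536870912 1) ndB1q1 ndB3q2a pcB1 Cut.none Ext.none)

def k0_pp_112_a : ∃ t, chk3 f_pp_112_a t 1 1 1 = true :=
  ⟨(l 3), by decide +kernel⟩

theorem c_pp_112_a : CertB 536870912 536870912 0 536870912 697932185 42949674 3 eng mog cd1q1 cd3q2a pd1 false true true .dn 1 1 2
    ndB1q1 ndB3q2a pcB1 Cut.none Ext.none :=
  certB0 (fam := false) (s1 := true) (s2 := true) (a := 1) (b := 1) (c := 2) (cn := .dn) (n1 := ndB1q1) (n2 := ndB3q2a) (pc := pcB1) (cut := Cut.none) (xt := Ext.none) (P1 := 536870912) (W1 := 536870912) (P2 := 0) (W2 := 536870912) (P3 := 697932185) (W3 := 42949674) (N0 := 3) (En := eng) (mo := mog) (C1 := cd1q1) (C2 := cd3q2a) (C3 := pd1)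
    rfl k0_pp_112_a

noncomputable def f_pp_112_b : ℕ → ℕ → ℕ → ℕ → Bool := onCell 536870912 536870912 1239849684 370763052 697932185 42949674
    (rowB 3 eng mog cd1q1 cd3q2b pd1 2 false true true .dn 1 1 2 (qsf 536870912 536870912 1239849684 370763052 1) ndB1q1 ndB3q2b pcB1 Cut.none Ext.none)

def k0_pp_112_b : ∃ t, chk3 f_pp_112_b t 1 1 1 = true :=
  ⟨(a (l 3) (b (a (a (l 3) (b (l 1) (a (b (l 1) (l 16600576)) (l 1)))) (l 1)) (a (a (l 3) (a (b (b (l 3) (l 3)) (l 3)) (b (a (l 16578096) (l 31708593351)) (b (l 16601176) (l 61370972823))))) (b (a (b (l 1) (a (l 16481744) (l 16425232))) (l 1)) (a (a (b (l 16491888) (l 16518688)) (b (l 16429512) (l 16449192))) (b (l 44593132039) (l 16413312))))))), by decide +kernel⟩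

theorem c_pp_112_b : CertB 536870912 536870912 1239849684 370763052 697932185 42949674 3 eng mog cd1q1 cd3q2b pd1 false true true .dn 1 1 2
    ndB1q1 ndB3q2b pcB1 Cut.none Ext.none :=
  certB2 (fam := false) (s1 := true) (s2 := true) (a := 1) (b := 1) (c := 2) (cn := .dn) (n1 := ndB1q1) (n2 := ndB3q2b) (pc := pcB1) (cut := Cut.none) (xt := Ext.none) (P1 := 536870912) (W1 := 536870912) (P2 := 1239849684) (W2 := 370763052) (P3 := 697932185) (W3 := 42949674) (N0 := 3) (En := eng) (mo := mog) (C1 := cd1q1) (C2 := cd3q2b) (C3 := pd1)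
    rfl (fun _ => rfl) k0_pp_112_b

noncomputable def f_pp_113 : ℕ → ℕ → ℕ → ℕ → Bool := onCell 536870912 536870912 536870912 536870912 697932185 42949674
    (rowB 3 eng mog cd1q1 cd3q3 pd1 1 false true true .nn 1 1 3 (qsf 536870912 536870912 1610612736 536870912 1) ndB1q1 ndB3q3 pcB1 Cut.none Ext.none)

def k0_pp_113 : ∃ t, chk3 f_pp_113 t 1 1 1 = true :=
  ⟨(b (b (l 3) (l 3)) (b (a (b (l 3) (a (b (l 1) (a (l 1) (l 124587214967))) (b (l 3) (a (l 105931184119) (l 3))))) (a (l 3) (l 3))) (a (b (a (b (a (l 1) (l 42445887127)) (a (l 161094334647) (l 16453520))) (b (a (a (l 16555152) (l 16617432)) (a (l 16699976) (l 16806024))) (a (l 16566776) (l 16778056)))) (a (a (l 81637402007) (l 16422136)) (b (a (l 16556840) (l 16755496)) (l 16602304)))) (b (a (b (a (b (l 3) (l 16937272)) (l 219210972279)) (a (a (l 16870608) (l 16912920)) (b (l 16956432) (l 16968400)))) (b (l 3) (a (a (l 205252307303) (b (l 3) (l 16772376))) (b (l 3) (a (l 504289570023) (l 3)))))) (a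 (b (a (l 16822888) (l 16919064)) (a (l 16797520) (l 16857288))) (b (a (b (l 16867368) (l 16907040)) (a (b (l 16800592) (l 16816568)) (b (l 461339806775) (l 16771720)))) (a (l 16877592) (a (l 16836024) (l 16788344))))))))), by decide +kernel⟩

theorem c_pp_113 : CertB 536870912 536870912 1610612736 536870912 697932185 42949674 3 eng mog cd1q1 cd3q3 pd1 false true true .nn 1 1 3
    ndB1q1 ndB3q3 pcB1 Cut.none Ext.none :=
  certB1 (fam := false) (s1 := true) (s2 := true) (a := 1) (b := 1) (c := 3) (cn := .nn) (n1 := ndB1q1) (n2 := ndB3q3) (pc := pcB1) (cut := Cut.none) (xt := Ext.none) (P1 := 536870912) (W1 := 536870912) (P2 := 1610612736) (W2 := 536870912) (P3 := 697932185) (W3 := 42949674) (N0 := 3) (En := eng) (mo := mog) (C1 := cd1q1) (C2 := cd3q3) (C3 := pd1)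
    rfl (fun _ => rfl) k0_pp_113

noncomputable def f_pp_123 : ℕ → ℕ → ℕ → ℕ → Bool := onCell 1073741824 536870912 1610612736 536870912 697932185 42949674
    (rowB 3 eng mog cd1q1 cd3q3 pd2 2 false true true .npn 1 2 3 (qsf 536870912 536870912 1610612736 536870912 2) ndB1q1 ndB3q3 pcB2 Cut.none Ext.none)

def k0_pp_123 : ∃ t, chk3 f_pp_123 t 1 1 1 = true :=
  ⟨(a (b (a (b (a (b (l 16257184) (l 16314656)) (b (l 16234696) (l 16254320))) (a (b (l 16451328) (l 16615088)) (b (l 16328168) (l 16470920)))) (a (b (a (l 134787545479) (l 1)) (a (b (l 16264744) (l 16368432)) (l 16270960))) (b (l 1) (l 16309336)))) (a (b (a (b (l 16698160) (l 16749368)) (b (l 16559776) (l 16613272))) (a (b (l 16773384) (a (l 16778912) (l 16727992))) (b (l 16637336) (l 16633096)))) (b (a (a (b (l 16462576) (l 16518016)) (l 16443288)) (l 16456496)) (a (b (a (l 16540760) (l 16494696)) (a (l 16697488) (l 16505480))) (b (l 16515920) (l 16531184)))))) (a (b (b (l 1) (a (l 16370272) (l 1)))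 (b (a (l 16475048) (l 16492616)) (a (l 16548288) (l 16565352)))) (b (l 1) (b (l 16695992) (a (l 16596816) (l 16626472)))))), by decide +kernel⟩

theorem c_pp_123 : CertB 536870912 536870912 1610612736 536870912 697932185 42949674 3 eng mog cd1q1 cd3q3 pd2 false true true .npn 1 2 3
    ndB1q1 ndB3q3 pcB2 Cut.none Ext.none :=
  certB2 (fam := false) (s1 := true) (s2 := true) (a := 1) (b := 2) (c := 3) (cn := .npn) (n1 := ndB1q1) (n2 := ndB3q3) (pc := pcB2) (cut := Cut.none) (xt := Ext.none) (P1 := 536870912) (W1 := 536870912) (P2 := 1610612736) (W2 := 536870912) (P3 := 697932185) (W3 := 42949674) (N0 := 3) (En := eng) (mo := mog) (C1 := cd1q1) (C2 := cd3q3) (C3 := pd2)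
    rfl (fun _ => rfl) k0_pp_123

noncomputable def f_pp_133 : ℕ → ℕ → ℕ → ℕ → Bool := onCell 1610612736 536870912 1610612736 536870912 697932185 42949674
    (rowB 3 eng mog cd1q1 cd3q3 pd3 2 false true true .dn 1 3 3 (qsf 536870912 536870912 1610612736 536870912 3) ndB1q1 ndB3q3 pcB3 Cut.none Ext.none)

def k0_pp_133 : ∃ t, chk3 f_pp_133 t 1 1 1 = true :=
  ⟨(a (b (l 1) (a (a (l 344704841559) (l 1)) (l 1))) (l 1)), by decide +kernel⟩

theorem c_pp_133 : CertB 536870912 536870912 1610612736 536870912 697932185 42949674 3 eng mog cd1q1 cd3q3 pd3 false true true .dn 1 3 3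
    ndB1q1 ndB3q3 pcB3 Cut.none Ext.none :=
  certB2 (fam := false) (s1 := true) (s2 := true) (a := 1) (b := 3) (c := 3) (cn := .dn) (n1 := ndB1q1) (n2 := ndB3q3) (pc := pcB3) (cut := Cut.none) (xt := Ext.none) (P1 := 536870912) (W1 := 536870912) (P2 := 1610612736) (W2 := 536870912) (P3 := 697932185) (W3 := 42949674) (N0 := 3) (En := eng) (mo := mog) (C1 := cd1q1) (C2 := cd3q3) (C3 := pd3)
    rfl (fun _ => rfl) k0_pp_133

noncomputable def f_pp_202_aa : ℕ → ℕ → ℕ → ℕ → Bool := onCell 0 536870912 0 536870912 697932185 42949674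
    (rowB 3 eng mog cd1q2a cd3q2a pd0 0 false true true .pp 2 0 2 (qsf 0 536870912 0 536870912 0) ndB1q2a ndB3q2a pcB0 Cut.none Ext.none)

def k0_pp_202_aa : ∃ t, chk3 f_pp_202_aa t 1 1 1 = true :=
  ⟨(l 3), by decide +kernel⟩

theorem c_pp_202_aa : CertB 0 536870912 0 536870912 697932185 42949674 3 eng mog cd1q2a cd3q2a pd0 false true true .pp 2 0 2
    ndB1q2a ndB3q2a pcB0 Cut.none Ext.none :=
  certB0 (fam := false) (s1 := true) (s2 := true) (a := 2) (b := 0) (c := 2) (cn := .pp) (n1 := ndB1q2a) (n2 := ndB3q2a) (pc := pcB0) (cut := Cut.none) (xt := Ext.none) (P1 := 0) (W1 := 536870912) (P2 := 0) (W2 := 536870912) (P3 := 697932185) (W3 := 42949674) (N0 := 3) (En := eng) (mo := mog) (C1 := cd1q2a) (C2 := cd3q2a) (C3 := pd0)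
    rfl k0_pp_202_aa

noncomputable def f_pp_202_ab : ℕ → ℕ → ℕ → ℕ → Bool := onCell 0 536870912 1239849684 370763052 697932185 42949674
    (rowB 3 eng mog cd1q2a cd3q2b pd0 0 false true true .pp 2 0 2 (qsf 0 536870912 1239849684 370763052 0) ndB1q2a ndB3q2b pcB0 Cut.none Ext.none)

def k0_pp_202_ab : ∃ t, chk3 f_pp_202_ab t 1 1 1 = true :=
  ⟨(l 3), by decide +kernel⟩

theorem c_pp_202_ab : CertB 0 536870912 1239849684 370763052 697932185 42949674 3 eng mog cd1q2a cd3q2b pd0 false true true .pp 2 0 2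
    ndB1q2a ndB3q2b pcB0 Cut.none Ext.none :=
  certB0 (fam := false) (s1 := true) (s2 := true) (a := 2) (b := 0) (c := 2) (cn := .pp) (n1 := ndB1q2a) (n2 := ndB3q2b) (pc := pcB0) (cut := Cut.none) (xt := Ext.none) (P1 := 0) (W1 := 536870912) (P2 := 1239849684) (W2 := 370763052) (P3 := 697932185) (W3 := 42949674) (N0 := 3) (En := eng) (mo := mog) (C1 := cd1q2a) (C2 := cd3q2b) (C3 := pd0)
    rfl k0_pp_202_ab

noncomputable def f_pp_202_ba : ℕ → ℕ → ℕ → ℕ → Bool := onCell 1239849684 370763052 0 536870912 697932185 42949674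
    (rowB 3 eng mog cd1q2b cd3q2a pd0 0 false true true .pp 2 0 2 (qsf 1239849684 370763052 0 536870912 0) ndB1q2b ndB3q2a pcB0 Cut.none Ext.none)

def k0_pp_202_ba : ∃ t, chk3 f_pp_202_ba t 1 1 1 = true :=
  ⟨(l 3), by decide +kernel⟩

theorem c_pp_202_ba : CertB 1239849684 370763052 0 536870912 697932185 42949674 3 eng mog cd1q2b cd3q2a pd0 false true true .pp 2 0 2
    ndB1q2b ndB3q2a pcB0 Cut.none Ext.none :=
  certB0 (fam := false) (s1 := true) (s2 := true) (a := 2) (b := 0) (c := 2) (cn := .pp) (n1 := ndB1q2b) (n2 := ndB3q2a) (pc := pcB0) (cut := Cut.none) (xt := Ext.none) (P1 := 1239849684) (W1 := 370763052) (P2 := 0) (W2 := 536870912) (P3 := 697932185) (W3 := 42949674) (N0 := 3) (En := eng) (mo := mog) (C1 := cd1q2b) (C2 := cd3q2a) (C3 := pd0)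
    rfl k0_pp_202_ba

noncomputable def f_pp_202_bb : ℕ → ℕ → ℕ → ℕ → Bool := onCell 1239849684 370763052 1239849684 370763052 697932185 42949674
    (rowB 3 eng mog cd1q2b cd3q2b pd0 0 false true true .pp 2 0 2 (qsf 1239849684 370763052 1239849684 370763052 0) ndB1q2b ndB3q2b pcB0 Cut.none Ext.none)

def k0_pp_202_bb : ∃ t, chk3 f_pp_202_bb t 1 1 1 = true :=
  ⟨(l 3), by decide +kernel⟩

theorem c_pp_202_bb : CertB 1239849684 370763052 1239849684 370763052 697932185 42949674 3 eng mog cd1q2b cd3q2b pd0 false true true .pp 2 0 2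
    ndB1q2b ndB3q2b pcB0 Cut.none Ext.none :=
  certB0 (fam := false) (s1 := true) (s2 := true) (a := 2) (b := 0) (c := 2) (cn := .pp) (n1 := ndB1q2b) (n2 := ndB3q2b) (pc := pcB0) (cut := Cut.none) (xt := Ext.none) (P1 := 1239849684) (W1 := 370763052) (P2 := 1239849684) (W2 := 370763052) (P3 := 697932185) (W3 := 42949674) (N0 := 3) (En := eng) (mo := mog) (C1 := cd1q2b) (C2 := cd3q2b) (C3 := pd0)
    rfl k0_pp_202_bb

noncomputable def f_pp_203_a : ℕ → ℕ → ℕ → ℕ → Bool := onCell 0 536870912 0 536870912 697932185 42949674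
    (rowB 3 eng mog cd1q2a cd3q3 pd0 1 false true true .up 2 0 3 (qsf 0 536870912 1610612736 536870912 0) ndB1q2a ndB3q3 pcB0 Cut.none Ext.none)

def k0_pp_203_a : ∃ t, chk3 f_pp_203_a t 1 1 1 = true :=
  ⟨(l 3), by decide +kernel⟩

theorem c_pp_203_a : CertB 0 536870912 1610612736 536870912 697932185 42949674 3 eng mog cd1q2a cd3q3 pd0 false true true .up 2 0 3
    ndB1q2a ndB3q3 pcB0 Cut.none Ext.none :=
  certB1 (fam := false) (s1 := true) (s2 := true) (a := 2) (b := 0) (c := 3) (cn := .up) (n1 := ndB1q2a) (n2 := ndB3q3) (pc := pcB0) (cut := Cut.none) (xt := Ext.none) (P1 := 0) (W1 := 536870912) (P2 := 1610612736) (W2 := 536870912) (P3 := 697932185) (W3 := 42949674) (N0 := 3) (En := eng) (mo := mog) (C1 := cd1q2a) (C2 := cd3q3) (C3 := pd0)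
    rfl (fun _ => rfl) k0_pp_203_a

noncomputable def f_pp_203_b : ℕ → ℕ → ℕ → ℕ → Bool := onCell 1239849684 370763052 1610612736 536870912 697932185 42949674
    (rowB 3 eng mog cd1q2b cd3q3 pd0 0 false true true .up 2 0 3 (qsf 1239849684 370763052 1610612736 536870912 0) ndB1q2b ndB3q3 pcB0 Cut.none Ext.none)

def k0_pp_203_b : ∃ t, chk3 f_pp_203_b t 1 1 1 = true :=
  ⟨(l 3), by decide +kernel⟩

theorem c_pp_203_b : CertB 1239849684 370763052 1610612736 536870912 697932185 42949674 3 eng mog cd1q2b cd3q3 pd0 false true true .up 2 0 3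
    ndB1q2b ndB3q3 pcB0 Cut.none Ext.none :=
  certB0 (fam := false) (s1 := true) (s2 := true) (a := 2) (b := 0) (c := 3) (cn := .up) (n1 := ndB1q2b) (n2 := ndB3q3) (pc := pcB0) (cut := Cut.none) (xt := Ext.none) (P1 := 1239849684) (W1 := 370763052) (P2 := 1610612736) (W2 := 536870912) (P3 := 697932185) (W3 := 42949674) (N0 := 3) (En := eng) (mo := mog) (C1 := cd1q2b) (C2 := cd3q3) (C3 := pd0)
    rfl k0_pp_203_b

noncomputable def cut_pp_213_a : Cut := Cut.of [[⟨0, 1, 0, 67108864⟩, ⟨1, 1, 0, 67108864⟩, ⟨2, 2, 0, 16777216⟩]]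

noncomputable def f_pp_213_a : ℕ → ℕ → ℕ → ℕ → Bool := onCell 0 536870912 1610612736 536870912 697932185 42949674
    (rowB 3 eng mog cd1q2a cd3q3 pd1 0 false true true .pnn 2 1 3 (qsf 0 536870912 1610612736 536870912 1) ndB1q2a ndB3q3 pcB1 cut_pp_213_a Ext.none)

def k0_pp_213_a : ∃ t, chk3 f_pp_213_a t 1 1 1 = true :=
  ⟨(b (l 3) (a (l 3) (b (l 3) (a (l 3) (b (l 3) (a (l 3) (b (l 3) (b (l 3) (b (l 3) (l 6)))))))))), by decide +kernel⟩

theorem c_pp_213_a : CertB 0 536870912 1610612736 536870912 697932185 42949674 3 eng mog cd1q2a cd3q3 pd1 false true true .pnn 2 1 3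
    ndB1q2a ndB3q3 pcB1 cut_pp_213_a Ext.none :=
  certB0 (fam := false) (s1 := true) (s2 := true) (a := 2) (b := 1) (c := 3) (cn := .pnn) (n1 := ndB1q2a) (n2 := ndB3q3) (pc := pcB1) (cut := cut_pp_213_a) (xt := Ext.none) (P1 := 0) (W1 := 536870912) (P2 := 1610612736) (W2 := 536870912) (P3 := 697932185) (W3 := 42949674) (N0 := 3) (En := eng) (mo := mog) (C1 := cd1q2a) (C2 := cd3q3) (C3 := pd1)
    rfl k0_pp_213_a

noncomputable def cut_pp_213_b : Cut := Cut.of [[⟨0, 1, 0, 67108864⟩, ⟨1, 1, 0, 67108864⟩, ⟨2, 2, 0, 16777216⟩]]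

noncomputable def f_pp_213_b : ℕ → ℕ → ℕ → ℕ → Bool := onCell 1239849684 370763052 1610612736 536870912 697932185 42949674
    (rowB 3 eng mog cd1q2b cd3q3 pd1 0 false true true .pnn 2 1 3 (qsf 1239849684 370763052 1610612736 536870912 1) ndB1q2b ndB3q3 pcB1 cut_pp_213_b Ext.none)

def k0_pp_213_b : ∃ t, chk3 f_pp_213_b t 1 1 1 = true :=
  ⟨(l 3), by decide +kernel⟩

theorem c_pp_213_b : CertB 1239849684 370763052 1610612736 536870912 697932185 42949674 3 eng mog cd1q2b cd3q3 pd1 false true true .pnn 2 1 3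
    ndB1q2b ndB3q3 pcB1 cut_pp_213_b Ext.none :=
  certB0 (fam := false) (s1 := true) (s2 := true) (a := 2) (b := 1) (c := 3) (cn := .pnn) (n1 := ndB1q2b) (n2 := ndB3q3) (pc := pcB1) (cut := cut_pp_213_b) (xt := Ext.none) (P1 := 1239849684) (W1 := 370763052) (P2 := 1610612736) (W2 := 536870912) (P3 := 697932185) (W3 := 42949674) (N0 := 3) (En := eng) (mo := mog) (C1 := cd1q2b) (C2 := cd3q3) (C3 := pd1)
    rfl k0_pp_213_b

noncomputable def f_pp_303 : ℕ → ℕ → ℕ → ℕ → Bool := onCell 1610612736 536870912 1610612736 536870912 697932185 42949674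
    (rowB 3 eng mog cd1q3 cd3q3 pd0 0 false true true .npn 3 0 3 (qsf 1610612736 536870912 1610612736 536870912 0) ndB1q3 ndB3q3 pcB0 Cut.none Ext.none)

def k0_pp_303 : ∃ t, chk3 f_pp_303 t 1 1 1 = true :=
  ⟨(l 3), by decide +kernel⟩

theorem c_pp_303 : CertB 1610612736 536870912 1610612736 536870912 697932185 42949674 3 eng mog cd1q3 cd3q3 pd0 false true true .npn 3 0 3
    ndB1q3 ndB3q3 pcB0 Cut.none Ext.none :=
  certB0 (fam := false) (s1 := true) (s2 := true) (a := 3) (b := 0) (c := 3) (cn := .npn) (n1 := ndB1q3) (n2 := ndB3q3) (pc := pcB0) (cut := Cut.none) (xt := Ext.none) (P1 := 1610612736) (W1 := 536870912) (P2 := 1610612736) (W2 := 536870912) (P3 := 697932185) (W3 := 42949674) (N0 := 3) (En := eng) (mo := mog) (C1 := cd1q3) (C2 := cd3q3) (C3 := pd0)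
    rfl k0_pp_303

noncomputable def f_pp_313 : ℕ → ℕ → ℕ → ℕ → Bool := onCell 1610612736 536870912 1610612736 536870912 697932185 42949674
    (rowB 3 eng mog cd1q3 cd3q3 pd1 0 false true true .dn 3 1 3 (qsf 1610612736 536870912 1610612736 536870912 1) ndB1q3 ndB3q3 pcB1 Cut.none Ext.none)

def k0_pp_313 : ∃ t, chk3 f_pp_313 t 1 1 1 = true :=
  ⟨(l 3), by decide +kernel⟩

theorem c_pp_313 : CertB 1610612736 536870912 1610612736 536870912 697932185 42949674 3 eng mog cd1q3 cd3q3 pd1 false true true .dn 3 1 3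
    ndB1q3 ndB3q3 pcB1 Cut.none Ext.none :=
  certB0 (fam := false) (s1 := true) (s2 := true) (a := 3) (b := 1) (c := 3) (cn := .dn) (n1 := ndB1q3) (n2 := ndB3q3) (pc := pcB1) (cut := Cut.none) (xt := Ext.none) (P1 := 1610612736) (W1 := 536870912) (P2 := 1610612736) (W2 := 536870912) (P3 := 697932185) (W3 := 42949674) (N0 := 3) (En := eng) (mo := mog) (C1 := cd1q3) (C2 := cd3q3) (C3 := pd1)
    rfl k0_pp_313

noncomputable def f_pm_001 : ℕ → ℕ → ℕ → ℕ → Bool := onCell 0 536870912 536870912 536870912 697932185 42949674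
    (rowB 3 eng mog cd1q0 cd3q1 pd0 0 false true false .up 0 0 1 (qsf 0 536870912 536870912 536870912 0) ndB1q0 ndB3q1 pcB0 Cut.none Ext.none)

def k0_pm_001 : ∃ t, chk3 f_pm_001 t 1 1 1 = true :=
  ⟨(l 4), by decide +kernel⟩

theorem c_pm_001 : CertB 0 536870912 536870912 536870912 697932185 42949674 3 eng mog cd1q0 cd3q1 pd0 false true false .up 0 0 1
    ndB1q0 ndB3q1 pcB0 Cut.none Ext.none :=
  certB0 (fam := false) (s1 := true) (s2 := false) (a := 0) (b := 0) (c := 1) (cn := .up) (n1 := ndB1q0) (n2 := ndB3q1) (pc := pcB0) (cut := Cut.none) (xt := Ext.none) (P1 := 0) (W1 := 536870912) (P2 := 536870912) (W2 := 536870912) (P3 := 697932185) (W3 := 42949674) (N0 := 3) (En := eng) (mo := mog) (C1 := cd1q0) (C2 := cd3q1) (C3 := pd0)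
    rfl k0_pm_001

noncomputable def f_pm_011 : ℕ → ℕ → ℕ → ℕ → Bool := onCell 0 536870912 536870912 536870912 697932185 42949674
    (rowB 3 eng mog cd1q0 cd3q1 pd1 0 false true false .pnn 0 1 1 (qsf 0 536870912 536870912 536870912 1) ndB1q0 ndB3q1 pcB1 Cut.none Ext.none)

def k0_pm_011 : ∃ t, chk3 f_pm_011 t 1 1 1 = true :=
  ⟨(l 4), by decide +kernel⟩

theorem c_pm_011 : CertB 0 536870912 536870912 536870912 697932185 42949674 3 eng mog cd1q0 cd3q1 pd1 false true false .pnn 0 1 1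
    ndB1q0 ndB3q1 pcB1 Cut.none Ext.none :=
  certB0 (fam := false) (s1 := true) (s2 := false) (a := 0) (b := 1) (c := 1) (cn := .pnn) (n1 := ndB1q0) (n2 := ndB3q1) (pc := pcB1) (cut := Cut.none) (xt := Ext.none) (P1 := 0) (W1 := 536870912) (P2 := 536870912) (W2 := 536870912) (P3 := 697932185) (W3 := 42949674) (N0 := 3) (En := eng) (mo := mog) (C1 := cd1q0) (C2 := cd3q1) (C3 := pd1)
    rfl k0_pm_011

noncomputable def cut_pm_012_a : Cut := Cut.of [[⟨0, 0, 0, 67108864⟩, ⟨1, 1, 0, 67108864⟩, ⟨2, 1, 0, 67108864⟩]]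

noncomputable def f_pm_012_a : ℕ → ℕ → ℕ → ℕ → Bool := onCell 536870912 536870912 0 536870912 697932185 42949674
    (rowB 3 eng mog cd1q0 cd3q2a pd1 2 false true false .pnp 0 1 2 (qsf 0 536870912 0 536870912 1) ndB1q0 ndB3q2a pcB1 cut_pm_012_a Ext.none)

def k0_pm_012_a : ∃ t, chk3 f_pm_012_a t 2 1 1 = true :=
  ⟨(b (a (a (l 2) (b (l 2) (l 16432648))) (a (b (l 16451360) (l 16405312)) (b (l 16409032) (l 16376584)))) (b (a (a (l 2) (b (l 16386320) (l 16360968))) (a (b (l 16377208) (l 16369224)) (b (l 16366400) (l 16374800)))) (a (b (a (l 16309528) (l 16344664)) (a (l 16285568) (l 16364112))) (a (b (l 16478656) (a (l 16384592) (l 16410480))) (b (b (l 16391152) (l 16409288)) (b (l 16496656) (l 16465128))))))), by decide +kernel⟩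

def k1_pm_012_a : ∃ t, chk3 f_pm_012_a t 3 1 1 = true :=
  ⟨(b (a (a (b (l 16406664) (b (l 16346800) (l 16345376))) (b (a (l 16331592) (l 16320128)) (a (l 16387688) (l 16320776)))) (b (a (a (l 16374920) (b (l 16307232) (l 16301448))) (a (b (l 16298416) (l 16294288)) (b (a (l 16289664) (l 16283880)) (a (l 16287168) (l 16282560))))) (a (a (b (l 16310976) (l 16328664)) (b (l 16308624) (l 16330760))) (a (b (l 16304272) (l 16330272)) (b (a (l 16300040) (l 16297448)) (b (l 16320152) (l 16340928))))))) (a (b (a (b (l 16376144) (l 16464952)) (b (a (l 16349224) (l 16355064)) (a (l 16388976) (l 16402960)))) (a (b (a (l 16420928) (l 16436304)) (b (l 16481512) (b (l 16514640) (l 16536744)))) (b (a (a (l 16448360) (l 16457888)) (l 16579712)) (a (a (l 16559248) (l 16572912)) (b (l 16567120) (l 16604888)))))) (b (a (b (a (l 16363672) (l 16370664)) (a (l 16417728) (l 16452120))) (a (b (l 16397360) (b (l 16424688) (l 16466048))) (b (a (l 16381240) (l 16384880)) (a (b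 (l 16434320) (l 16478096)) (b (l 16439752) (l 16483360)))))) (a (b (a (b (l 16473528) (l 16520352)) (b (l 16493672) (l 16545592))) (b (a (l 16575632) (b (l 16589768) (l 16621544))) (a (b (l 16622832) (l 16638472)) (b (l 16653352) (b (l 16667256) (l 16698096)))))) (b (a (b (a (l 16509528) (l 16519552)) (a (l 16564256) (l 16574160))) (a (b (l 16527224) (l 16624288)) (b (a (l 16531680) (l 16534576)) (a (l 16588296) (b (l 16576816) (l 6)))))) (b (a (a (l 16624856) (b (l 16619048) (l 16651736))) (a (b (l 16628776) (l 6)) (l 6))) (a (b (a (l 16674520) (l 16686688)) (a (b (l 16694400) (l 16704712)) (l 6))) (l 6)))))))), by decide +kernel⟩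

theorem s2_pm_012_a : ∃ t, chk3 f_pm_012_a t 1 1 1 = true := ex3_a k0_pm_012_a k1_pm_012_a

theorem c_pm_012_a : CertB 0 536870912 0 536870912 697932185 42949674 3 eng mog cd1q0 cd3q2a pd1 false true false .pnp 0 1 2
    ndB1q0 ndB3q2a pcB1 cut_pm_012_a Ext.none :=
  certB2 (fam := false) (s1 := true) (s2 := false) (a := 0) (b := 1) (c := 2) (cn := .pnp) (n1 := ndB1q0) (n2 := ndB3q2a) (pc := pcB1) (cut := cut_pm_012_a) (xt := Ext.none) (P1 := 0) (W1 := 536870912) (P2 := 0) (W2 := 536870912) (P3 := 697932185) (W3 := 42949674) (N0 := 3) (En := eng) (mo := mog) (C1 := cd1q0) (C2 := cd3q2a) (C3 := pd1)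
    rfl (fun _ => rfl) s2_pm_012_a

noncomputable def cut_pm_012_b : Cut := Cut.of [[⟨0, 0, 0, 67108864⟩, ⟨1, 1, 0, 67108864⟩, ⟨2, 1, 0, 67108864⟩]]

noncomputable def f_pm_012_b : ℕ → ℕ → ℕ → ℕ → Bool := onCell 536870912 536870912 1239849684 370763052 697932185 42949674
    (rowB 3 eng mog cd1q0 cd3q2b pd1 2 false true false .pnp 0 1 2 (qsf 0 536870912 1239849684 370763052 1) ndB1q0 ndB3q2b pcB1 cut_pm_012_b Ext.none)

def k0_pm_012_b : ∃ t, chk3 f_pm_012_b t 1 1 1 = true :=
  ⟨(a (a (l 2) (b (b (a (b (l 16474880) (l 2)) (b (l 16419880) (l 16412056))) (a (l 2) (b (l 16418680) (l 2)))) (l 2))) (b (a (b (a (b (l 16362120) (l 16336416)) (b (a (l 16317584) (l 16297928)) (a (l 16276776) (l 16245920)))) (a (b (l 16327736) (l 16328336)) (b (l 16236280) (l 16224848)))) (b (a (b (a (l 16281152) (l 16349112)) (a (l 16216648) (l 16187224))) (b (a (b (l 16276312) (l 16224216)) (a (b (l 16265600) (l 16209816)) (b (l 16257680) (l 16199128)))) (a (l 16157864) (b (l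 16152224) (l 16106064))))) (a (b (a (l 16176760) (l 16135960)) (l 16131528)) (b (a (l 16093816) (b (l 16067064) (l 16035840))) (a (l 16056032) (l 16003120)))))) (a (b (a (l 2) (a (l 16261824) (l 16208016))) (l 2)) (b (a (b (l 16123264) (l 16131464)) (b (a (l 16038016) (l 15977696)) (l 16005192))) (a (b (l 16154496) (l 2)) (b (l 16018848) (l 16049448))))))), by decide +kernel⟩

theorem c_pm_012_b : CertB 0 536870912 1239849684 370763052 697932185 42949674 3 eng mog cd1q0 cd3q2b pd1 false true false .pnp 0 1 2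
    ndB1q0 ndB3q2b pcB1 cut_pm_012_b Ext.none :=
  certB2 (fam := false) (s1 := true) (s2 := false) (a := 0) (b := 1) (c := 2) (cn := .pnp) (n1 := ndB1q0) (n2 := ndB3q2b) (pc := pcB1) (cut := cut_pm_012_b) (xt := Ext.none) (P1 := 0) (W1 := 536870912) (P2 := 1239849684) (W2 := 370763052) (P3 := 697932185) (W3 := 42949674) (N0 := 3) (En := eng) (mo := mog) (C1 := cd1q0) (C2 := cd3q2b) (C3 := pd1)
    rfl (fun _ => rfl) k0_pm_012_b

noncomputable def cut_pm_022_a : Cut := Cut.of [[⟨0, 0, 0, 67108864⟩, ⟨1, 1, 0, 67108864⟩, ⟨2, 1, 0, 67108864⟩]]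

noncomputable def f_pm_022_a : ℕ → ℕ → ℕ → ℕ → Bool := onCell 1073741824 536870912 0 536870912 697932185 42949674
    (rowB 3 eng mog cd1q0 cd3q2a pd2 2 false true false .pp 0 2 2 (qsf 0 536870912 0 536870912 2) ndB1q0 ndB3q2a pcB2 cut_pm_022_a Ext.none)

def k0_pm_022_a : ∃ t, chk3 f_pm_022_a t 1 1 1 = true :=
  ⟨(a (b (a (a (b (a (b (a (l 16289888) (l 16309200)) (a (l 16289856) (l 16311648))) (b (a (l 16327968) (l 16345664)) (a (l 16332760) (l 16352032)))) (b (a (a (l 16306536) (l 16330952)) (a (l 16353896) (l 16374392))) (a (a (l 16342176) (l 16368624)) (a (l 16392400) (l 16414392))))) (b (a (b (l 16368536) (l 16377864)) (b (l 16419280) (l 16474400))) (a (b (l 16445232) (a (l 16435912) (l 16457024))) (b (a (l 16431608) (l 16449808)) (a (b (l 16463704) (l 16491456)) (l 16497488)))))) (a (a (b (b (a (l 16419760) (l 16433168)) (a (l 16435480) (l 16450368))) (b (a (l 16467144) (l 204044022711)) (a (b (l 16501536) (l 571800473159)) (l 1)))) (b (b (l 1)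 (l 1)) (l 1))) (l 1))) (a (a (b (a (b (a (b (l 16382040) (l 16415456)) (l 16446360)) (a (b (l 16453880) (l 16498568)) (b (l 16481424) (l 16527392)))) (a (b (l 16450304) (b (l 16508120) (l 16576216))) (b (l 16495520) (b (l 16534024) (a (l 16575544) (l 16588792)))))) (b (a (b (a (a (l 16542648) (l 16557960)) (a (l 16572984) (l 16587728))) (l 6)) (b (a (a (l 16623184) (l 16616424)) (a (l 16630384) (b (l 16629320) (l 281890463463)))) (a (l 6) (a (l 6) (l 696891740807))))) (a (l 6) (a (l 6) (l 1))))) (b (b (a (a (l 16561104) (b (l 16502400) (l 16540000))) (a (b (l 16524320) (l 238403848743)) (b (l 484290525575) (l 1)))) (a (a (b (l 16559152) (a (l 16601816) (l 229814007543))) (b (b (l 16571808) (l 229276977575)) (l 562673929159))) (a (b (l 608844771959) (l 1)) (l 1)))) (b (a (b (a (b (l 463889728743) (l 693133634679)) (l 1)) (l 1)) (l 1)) (l 1)))) (b (l 1) (l 1)))) (l 1)), by decide +kernel⟩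

theorem c_pm_022_a : CertB 0 536870912 0 536870912 697932185 42949674 3 eng mog cd1q0 cd3q2a pd2 false true false .pp 0 2 2
    ndB1q0 ndB3q2a pcB2 cut_pm_022_a Ext.none :=
  certB2 (fam := false) (s1 := true) (s2 := false) (a := 0) (b := 2) (c := 2) (cn := .pp) (n1 := ndB1q0) (n2 := ndB3q2a) (pc := pcB2) (cut := cut_pm_022_a) (xt := Ext.none) (P1 := 0) (W1 := 536870912) (P2 := 0) (W2 := 536870912) (P3 := 697932185) (W3 := 42949674) (N0 := 3) (En := eng) (mo := mog) (C1 := cd1q0) (C2 := cd3q2a) (C3 := pd2)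
    rfl (fun _ => rfl) k0_pm_022_a

noncomputable def cut_pm_022_b : Cut := Cut.of [[⟨0, 0, 0, 67108864⟩, ⟨1, 1, 0, 67108864⟩, ⟨2, 1, 0, 67108864⟩]]

noncomputable def f_pm_022_b : ℕ → ℕ → ℕ → ℕ → Bool := onCell 1073741824 536870912 1239849684 370763052 697932185 42949674
    (rowB 3 eng mog cd1q0 cd3q2b pd2 2 false true false .pp 0 2 2 (qsf 0 536870912 1239849684 370763052 2) ndB1q0 ndB3q2b pcB2 cut_pm_022_b Ext.none)

def k0_pm_022_b : ∃ t, chk3 f_pm_022_b t 1 1 1 = true :=
  ⟨(a (a (b (a (b (b (a (a (b (l 16262056) (l 16201216)) (l 16332064)) (b (l 16405024) (l 16242448))) (a (b (l 16154376) (l 16104600)) (l 16158992))) (b (a (b (l 16060680) (l 16024272)) (l 16151824)) (a (l 15984992) (l 16004736)))) (b (b (b (a (l 16378104) (l 16364088)) (a (l 16273768) (l 16302256))) (a (l 16188312) (l 16321616))) (b (a (l 16093688) (l 16119456)) (a (l 16025872) (l 16047992))))) (b (a (b (a (l 15951584) (l 15963824)) (l 16065576)) (b (l 16071048) (l 15956400))) (a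 (a (l 15951400) (l 15943304)) (a (l 15941056) (l 15943728))))) (b (b (a (a (b (b (l 16432624) (l 16328752)) (l 16306232)) (b (a (b (l 16429936) (l 16347312)) (b (l 150356863159) (l 16361464))) (a (l 16261872) (l 16276480)))) (b (a (b (l 1) (l 219076365943)) (l 1)) (a (b (l 16323960) (l 16270760)) (l 311418057607)))) (a (a (b (l 16144608) (l 16070504)) (b (a (l 16162288) (l 16176816)) (l 16093840))) (b (a (l 16198288) (l 16218264)) (a (l 16120928) (l 16140424))))) (a (b (a (l 15993120) (b (l 16034616) (l 15991496))) (a (l 15950024) (l 15960920))) (b (a (l 16036960) (l 16054384)) (a (l 15982384) (l 15995392)))))) (b (a (b (l 1) (a (b (a (l 169147106327) (l 553009502407)) (a (l 16150352) (l 16139104))) (a (b (l 1) (l 556230444855)) (l 1)))) (l 1)) (a (a (b (a (l 16061944) (l 16055944)) (a (l 15999768) (l 15990864))) (b (a (b (l 16086544) (l 16017800)) (b (l 334502784103) (l 16005448))) (a (l 15964328) (l 15952816)))) (a (b (l 4) (a (l 682596659047) (l 4)))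 (b (l 1) (l 4)))))), by decide +kernel⟩

theorem c_pm_022_b : CertB 0 536870912 1239849684 370763052 697932185 42949674 3 eng mog cd1q0 cd3q2b pd2 false true false .pp 0 2 2
    ndB1q0 ndB3q2b pcB2 cut_pm_022_b Ext.none :=
  certB2 (fam := false) (s1 := true) (s2 := false) (a := 0) (b := 2) (c := 2) (cn := .pp) (n1 := ndB1q0) (n2 := ndB3q2b) (pc := pcB2) (cut := cut_pm_022_b) (xt := Ext.none) (P1 := 0) (W1 := 536870912) (P2 := 1239849684) (W2 := 370763052) (P3 := 697932185) (W3 := 42949674) (N0 := 3) (En := eng) (mo := mog) (C1 := cd1q0) (C2 := cd3q2b) (C3 := pd2)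
    rfl (fun _ => rfl) k0_pm_022_b

noncomputable def f_pm_023 : ℕ → ℕ → ℕ → ℕ → Bool := onCell 1073741824 536870912 1610612736 536870912 697932185 42949674
    (rowB 3 eng mog cd1q0 cd3q3 pd2 2 false true false .up 0 2 3 (qsf 0 536870912 1610612736 536870912 2) ndB1q0 ndB3q3 pcB2 Cut.none Ext.none)

def k0_pm_023 : ∃ t, chk3 f_pm_023 t 1 1 1 = true :=
  ⟨(a (a (b (b (a (b (l 16020384) (l 16099536)) (b (l 15978904) (l 16033136))) (a (l 2) (b (l 16107144) (l 2)))) (l 2)) (b (b (a (a (l 15984368) (l 15983224)) (b (l 15997920) (l 16026808))) (a (a (l 16097912) (l 16079712)) (l 16099264))) (b (a (l 2) (l 431743934327)) (l 2)))) (a (b (a (b (b (l 16008448) (l 16041504)) (l 16114736)) (b (a (l 16000688) (l 15955096)) (l 16094048))) (b (a (l 16290720) (l 16322936)) (a (l 2) (l 425301336599)))) (b (a (b (b (l 16086440) (l 15872240)) (l 15989568)) (b (l 4) (l 348126123591))) (b (a (l 16349920) (l 16349120)) (a (l 16543144) (l 16565032)))))), by decide +kernel⟩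

theorem c_pm_023 : CertB 0 536870912 1610612736 536870912 697932185 42949674 3 eng mog cd1q0 cd3q3 pd2 false true false .up 0 2 3
    ndB1q0 ndB3q3 pcB2 Cut.none Ext.none :=
  certB2 (fam := false) (s1 := true) (s2 := false) (a := 0) (b := 2) (c := 3) (cn := .up) (n1 := ndB1q0) (n2 := ndB3q3) (pc := pcB2) (cut := Cut.none) (xt := Ext.none) (P1 := 0) (W1 := 536870912) (P2 := 1610612736) (W2 := 536870912) (P3 := 697932185) (W3 := 42949674) (N0 := 3) (En := eng) (mo := mog) (C1 := cd1q0) (C2 := cd3q3) (C3 := pd2)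
    rfl (fun _ => rfl) k0_pm_023

noncomputable def f_pm_033 : ℕ → ℕ → ℕ → ℕ → Bool := onCell 0 536870912 1610612736 536870912 697932185 42949674
    (rowB 3 eng mog cd1q0 cd3q3 pd3 1 false true false .pnn 0 3 3 (qsf 0 536870912 1610612736 536870912 3) ndB1q0 ndB3q3 pcB3 Cut.none Ext.none)

def k0_pm_033 : ∃ t, chk3 f_pm_033 t 1 1 1 = true :=
  ⟨(a (b (b (b (l 4) (l 4)) (l 4)) (a (l 4) (b (l 4) (a (b (l 4) (l 2)) (l 2))))) (b (a (b (b (l 16381912) (l 147873237015)) (b (l 16486216) (l 16615728))) (b (b (l 16587936) (l 16635320)) (a (b (l 16635752) (l 2)) (l 2)))) (a (b (a (b (l 4) (l 2)) (l 2)) (l 2)) (l 2)))), by decide +kernel⟩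

theorem c_pm_033 : CertB 0 536870912 1610612736 536870912 697932185 42949674 3 eng mog cd1q0 cd3q3 pd3 false true false .pnn 0 3 3
    ndB1q0 ndB3q3 pcB3 Cut.none Ext.none :=
  certB1 (fam := false) (s1 := true) (s2 := false) (a := 0) (b := 3) (c := 3) (cn := .pnn) (n1 := ndB1q0) (n2 := ndB3q3) (pc := pcB3) (cut := Cut.none) (xt := Ext.none) (P1 := 0) (W1 := 536870912) (P2 := 1610612736) (W2 := 536870912) (P3 := 697932185) (W3 := 42949674) (N0 := 3) (En := eng) (mo := mog) (C1 := cd1q0) (C2 := cd3q3) (C3 := pd3)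
    rfl (fun _ => rfl) k0_pm_033

noncomputable def f_pm_101 : ℕ → ℕ → ℕ → ℕ → Bool := onCell 536870912 536870912 536870912 536870912 697932185 42949674
    (rowB 3 eng mog cd1q1 cd3q1 pd0 0 false true false .npn 1 0 1 (qsf 536870912 536870912 536870912 536870912 0) ndB1q1 ndB3q1 pcB0 Cut.none Ext.none)

def k0_pm_101 : ∃ t, chk3 f_pm_101 t 1 1 1 = true :=
  ⟨(a (l 4) (b (l 4) (a (l 4) (a (l 4) (b (l 1) (b (l 4) (a (l 4) (b (a (l 4) (l 1)) (a (b (l 15772400) (l 15722144)) (b (l 15818040) (l 15756176))))))))))), by decide +kernel⟩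

theorem c_pm_101 : CertB 536870912 536870912 536870912 536870912 697932185 42949674 3 eng mog cd1q1 cd3q1 pd0 false true false .npn 1 0 1
    ndB1q1 ndB3q1 pcB0 Cut.none Ext.none :=
  certB0 (fam := false) (s1 := true) (s2 := false) (a := 1) (b := 0) (c := 1) (cn := .npn) (n1 := ndB1q1) (n2 := ndB3q1) (pc := pcB0) (cut := Cut.none) (xt := Ext.none) (P1 := 536870912) (W1 := 536870912) (P2 := 536870912) (W2 := 536870912) (P3 := 697932185) (W3 := 42949674) (N0 := 3) (En := eng) (mo := mog) (C1 := cd1q1) (C2 := cd3q1) (C3 := pd0)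
    rfl k0_pm_101

noncomputable def f_pm_102_a : ℕ → ℕ → ℕ → ℕ → Bool := onCell 536870912 536870912 0 536870912 697932185 42949674
    (rowB 3 eng mog cd1q1 cd3q2a pd0 0 false true false .npp 1 0 2 (qsf 536870912 536870912 0 536870912 0) ndB1q1 ndB3q2a pcB0 Cut.none Ext.none)

def k0_pm_102_a : ∃ t, chk3 f_pm_102_a t 2 1 1 = true :=
  ⟨(b (a (b (l 2) (a (l 2) (l 16535320))) (b (a (b (l 16583904) (l 16557264)) (b (l 16627552) (l 16603848))) (a (l 16629096) (b (l 16576840) (l 16534504))))) (a (b (a (l 2) (b (l 16404904) (l 16341608))) (b (a (l 16298648) (l 16319200)) (a (b (l 16282384) (l 16341184)) (b (l 16284248) (l 16419040))))) (b (a (b (l 16422360) (l 16322056)) (b (l 16461536) (b (l 16436528) (a (l 16414696) (l 16474272))))) (a (b (a (l 16308264) (b (l 16343568) (l 16404168))) (a (b (b (l 16329376) (l 16361560)) (b (a (l 16340616) (l 16355352)) (a (l 16347088) (a (l 16344632) (l 16334856))))) (b (a (a (l 16363680) (l 16365472)) (b (l 16373264) (l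 16370472))) (a (b (b (l 16350640) (l 16346536)) (b (l 16348408) (l 16359208))) (b (l 16385672) (c (l 16439032) (l 16400952))))))) (b (a (b (l 16421320) (a (l 16403872) (l 16429104))) (b (b (l 16465656) (l 16460800)) (a (l 16455496) (b (l 16473928) (l 16477696))))) (a (b (b (l 16422912) (a (l 16416784) (a (l 16453776) (l 16450128)))) (a (b (c (l 16463560) (l 16427256)) (a (b (l 16461256) (l 16480144)) (b (l 16460136) (l 16480104)))) (b (b (l 16474504) (l 16474872)) (b (l 16467808) (b (l 16441984) (a (l 16459304) (l 16460512))))))) (b (a (b (l 16450368) (a (l 16474880) (l 16471096))) (b (l 16482752) (a (l 16480816) (l 16499336)))) (a (b (b (l 16575944) (a (l 16464240) (l 16480016))) (b (a (l 16469016) (l 16491736)) (l 16492488))) (l 16520344))))))))), by decide +kernel⟩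

def k1_pm_102_a : ∃ t, chk3 f_pm_102_a t 6 2 1 = true :=
  ⟨(b (a (a (l 16652680) (l 16670168)) (a (b (l 16671568) (l 16669120)) (b (a (l 16662464) (l 16654824)) (l 16662040)))) (a (a (b (l 16624520) (l 16592480)) (b (l 16653744) (b (l 16640488) (l 16622240)))) (b (a (l 16667952) (l 16666936)) (a (a (l 16656640) (l 16666744)) (l 16673304))))), by decide +kernel⟩

def k2_pm_102_a : ∃ t, chk3 f_pm_102_a t 7 2 1 = true :=
  ⟨(a (b (a (b (a (l 16647344) (b (a (l 16640960) (l 16637352)) (l 16639904))) (a (l 16651432) (l 16643560))) (b (a (a (b (l 16633368) (l 16634288)) (b (l 16629344) (l 16630768))) (b (a (l 16625352) (l 142438278535)) (a (l 16626832) (l 16623056)))) (a (l 16636408) (b (a (l 16629568) (l 16625992)) (a (l 16632768) (l 16629712)))))) (a (b (a (l 16659792) (l 16653792)) (l 16670520)) (b (a (l 16646000) (b (l 16635784) (l 16641536))) (b (a (l 16656768) (l 16650144)) (l 16663064))))) (b (a (b (a (a (b (l 151028178567) (l 134922082503)) (b (l 3)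 (l 148880711895))) (l 3)) (a (b (a (l 16622296) (l 130627107895)) (a (l 16626248) (l 16621992))) (b (a (b (l 3) (l 16626592)) (l 3)) (a (b (l 16618144) (l 16619960)) (b (l 154786283431) (l 16617504)))))) (l 3)) (a (b (a (b (a (l 16630504) (l 16626824)) (l 16634608)) (b (a (b (l 16621920) (l 16624016)) (b (l 16619632) (l 16621456))) (a (b (l 16626880) (l 16630336)) (b (l 16623304) (l 16626312))))) (a (b (l 16642416) (l 16653624)) (b (l 16634936) (a (l 16648368) (l 16643528))))) (b (a (b (a (b (l 141901372503) (l 16619688)) (l 3)) (a (b (l 16621864) (l 16623632)) (b (l 127942726919) (l 16622536)))) (b (l 3) (a (l 3) (l 3)))) (a (b (a (b (l 16626248) (l 16630392)) (b (l 16624824) (l 16626880))) (a (l 16637856) (b (l 16630768) (l 16635288)))) (b (a (b (l 122037146343) (a (l 16626576) (l 16625968))) (b (l 3) (a (l 16624200) (l 3)))) (a (b (a (l 16628808) (l 16628688)) (a (l 16632528) (l 16631344))) (b (a (l 16628064) (l 16626272)) (a (l 16631128) (l 16630408)))))))))),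 by decide +kernel⟩

def k3_pm_102_a : ∃ t, chk3 f_pm_102_a t 6 3 1 = true :=
  ⟨(b (b (a (a (l 16522096) (b (l 16593040) (l 16556488))) (a (l 16633016) (l 16719336))) (a (b (a (l 16506816) (l 16549832)) (b (l 16505680) (a (l 16495328) (l 16556488)))) (a (l 16601536) (l 16625408)))) (a (b (a (b (a (l 16569304) (l 16516480)) (a (b (l 16494768) (l 16501896)) (l 16533744))) (b (l 16569272) (l 16589192))) (b (a (l 16543440) (l 16619192)) (a (b (l 16573000) (l 16596256)) (b (l 16648216) (l 16712624))))) (b (b (a (l 16624328) (l 16668472)) (l 16602184)) (a (b (l 16671512) (b (l 16699264) (l 16720376))) (b (b (l 16705312) (l 16760624)) (a (b (l 16728672) (l 16743288)) (b (l 16735128) (l 16741696)))))))), by decide +kernel⟩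

def k4_pm_102_a : ∃ t, chk3 f_pm_102_a t 7 3 1 = true :=
  ⟨(b (a (a (b (b (l 16683160) (l 16693944)) (b (l 16700512) (l 16694280))) (b (a (l 16683752) (l 16679016)) (b (l 16725848) (l 16719648)))) (b (a (a (l 16671736) (b (a (l 16660216) (l 16654528)) (l 16667360))) (a (b (a (l 16648344) (l 16643344)) (a (l 16659416) (l 16653936))) (b (a (b (a (l 16637312) (l 16635816)) (l 16641584)) (b (a (l 16634520) (l 16634024)) (a (l 16639408) (l 16638320)))) (a (l 16627792) (l 16625224))))) (a (b (a (l 16690808) (l 16678488)) (a (l 16704720) (l 16693032))) (a (b (l 16667568) (l 16638664)) (b (a (b (l 16657232) (l 16662632)) (b (l 16652560) (l 16658264))) (b (l 16666440) (l 16673040))))))) (a (b (b (a (l 16704176) (l 16727904)) (a (a (l 16712376) (l 16717704)) (l 16713280))) (b (a (a (l 16724104) (l 16720048)) (l 16711640)) (a (l 16729488) (l 16716648)))) (b (a (b (a (l 16719104) (l 16707480)) (l 16720760)) (b (a (b (l 16692240) (l 16700368)) (b (l 16681544) (l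 16689536))) (a (l 16688416) (b (l 16738528) (l 16696528))))) (a (b (l 16703560) (b (l 16703088) (l 16705928))) (b (a (l 16706992) (b (l 16696384) (l 16696288))) (a (b (l 16696608) (l 16696648)) (b (l 16695264) (l 16694576)))))))), by decide +kernel⟩

theorem s5_pm_102_a : ∃ t, chk3 f_pm_102_a t 3 3 1 = true := ex3_a k3_pm_102_a k4_pm_102_a

theorem s6_pm_102_a : ∃ t, chk3 f_pm_102_a t 3 2 1 = true := ex3_a k1_pm_102_a k2_pm_102_a

theorem s7_pm_102_a : ∃ t, chk3 f_pm_102_a t 3 1 1 = true := ex3_b s6_pm_102_a s5_pm_102_a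

theorem s8_pm_102_a : ∃ t, chk3 f_pm_102_a t 1 1 1 = true := ex3_a k0_pm_102_a s7_pm_102_a

theorem c_pm_102_a : CertB 536870912 536870912 0 536870912 697932185 42949674 3 eng mog cd1q1 cd3q2a pd0 false true false .npp 1 0 2
    ndB1q1 ndB3q2a pcB0 Cut.none Ext.none :=
  certB0 (fam := false) (s1 := true) (s2 := false) (a := 1) (b := 0) (c := 2) (cn := .npp) (n1 := ndB1q1) (n2 := ndB3q2a) (pc := pcB0) (cut := Cut.none) (xt := Ext.none) (P1 := 536870912) (W1 := 536870912) (P2 := 0) (W2 := 536870912) (P3 := 697932185) (W3 := 42949674) (N0 := 3) (En := eng) (mo := mog) (C1 := cd1q1) (C2 := cd3q2a) (C3 := pd0)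
    rfl s8_pm_102_a

noncomputable def f_pm_102_b : ℕ → ℕ → ℕ → ℕ → Bool := onCell 536870912 536870912 0 536870912 697932185 42949674
    (rowB 3 eng mog cd1q1 cd3q2b pd0 1 false true false .npp 1 0 2 (qsf 536870912 536870912 1239849684 370763052 0) ndB1q1 ndB3q2b pcB0 Cut.none Ext.none)

def k0_pm_102_b : ∃ t, chk3 f_pm_102_b t 2 1 1 = true :=
  ⟨(b (l 1) (b (l 1) (a (l 1) (b (a (l 1) (b (l 274374281175) (l 179348127015))) (a (b (l 299070236263) (l 211560266551)) (b (l 16632016) (l 16618616))))))), by decide +kernel⟩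

def k1_pm_102_b : ∃ t, chk3 f_pm_102_b t 3 2 1 = true :=
  ⟨(b (l 1) (a (l 1) (a (b (l 1) (a (a (l 1) (b (l 1) (l 69289772439))) (b (a (l 1) (a (l 1) (l 3))) (a (b (l 228203323351) (l 16628872)) (b (b (l 146733271895) (l 135995827351)) (a (l 16606072) (l 16590880))))))) (l 3)))), by decide +kernel⟩

def k2_pm_102_b : ∃ t, chk3 f_pm_102_b t 3 3 1 = true :=
  ⟨(b (a (a (b (l 1) (b (a (l 1) (l 178274532247)) (a (l 206191777911) (l 16675832)))) (b (a (b (l 1) (a (l 1) (l 16697264))) (b (b (l 1) (l 16688608)) (l 16656592))) (b (a (l 16670840) (l 16617792)) (a (l 16635536) (l 16583432))))) (a (b (a (a (b (l 16655488) (l 16613248)) (b (l 16646928) (l 16584408))) (a (b (b (l 16606856) (l 16585664)) (b (l 16565296) (l 16545864))) (b (a (b (l 16584704) (l 16563992)) (b (l 16569976) (l 16549672))) (b (a (l 16543912) (l 16529888)) (a (l 16524648) (l 16510808)))))) (b (a (a (l 16575592) (l 16547416)) (a (b (l 16527648) (l 16510632)) (b (a (l 16506552) (l 16492808))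 (a (l 16489768) (l 16476328))))) (a (l 16549648) (a (a (l 16494464) (l 16481184)) (b (a (l 16474776) (l 16461976)) (l 16455672)))))) (a (a (a (b (l 3) (b (b (l 127942473047) (l 143511699671)) (b (l 151564721159) (l 16436936)))) (l 3)) (l 3)) (l 3)))) (a (a (b (b (l 114923837303) (l 16632408)) (l 16746400)) (b (a (l 16632264) (l 16583408)) (a (l 16550344) (l 16509952)))) (a (b (a (b (l 16501912) (l 16482920)) (a (b (a (l 16470312) (l 16457800)) (a (l 16452776) (l 16440568))) (b (a (l 16445312) (l 16432864)) (l 16422032)))) (a (l 16467040) (a (b (l 16435560) (l 16431560)) (b (l 16411704) (l 16409056))))) (a (b (a (b (b (l 153175321911) (l 153175303223)) (a (l 16403400) (b (l 139216630119) (l 124184233975)))) (l 3)) (a (b (b (a (l 16395224) (l 16383152)) (l 16386480)) (b (l 16385776) (l 16386888))) (a (b (c (l 155322674775) (l 215989099047)) (b (l 123110456407) (l 116668008999))) (l 3)))) (l 3))))), by decide +kernel⟩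

theorem s3_pm_102_b : ∃ t, chk3 f_pm_102_b t 3 1 1 = true := ex3_b k1_pm_102_b k2_pm_102_b

theorem s4_pm_102_b : ∃ t, chk3 f_pm_102_b t 1 1 1 = true := ex3_a k0_pm_102_b s3_pm_102_b

theorem c_pm_102_b : CertB 536870912 536870912 1239849684 370763052 697932185 42949674 3 eng mog cd1q1 cd3q2b pd0 false true false .npp 1 0 2
    ndB1q1 ndB3q2b pcB0 Cut.none Ext.none :=
  certB1 (fam := false) (s1 := true) (s2 := false) (a := 1) (b := 0) (c := 2) (cn := .npp) (n1 := ndB1q1) (n2 := ndB3q2b) (pc := pcB0) (cut := Cut.none) (xt := Ext.none) (P1 := 536870912) (W1 := 536870912) (P2 := 1239849684) (W2 := 370763052) (P3 := 697932185) (W3 := 42949674) (N0 := 3) (En := eng) (mo := mog) (C1 := cd1q1) (C2 := cd3q2b) (C3 := pd0)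
    rfl (fun _ => rfl) s4_pm_102_b

noncomputable def f_pm_112_a : ℕ → ℕ → ℕ → ℕ → Bool := onCell 536870912 536870912 0 536870912 697932185 42949674
    (rowB 3 eng mog cd1q1 cd3q2a pd1 2 false true false .dn 1 1 2 (qsf 536870912 536870912 0 536870912 1) ndB1q1 ndB3q2a pcB1 Cut.none Ext.none)

def k0_pm_112_a : ∃ t, chk3 f_pm_112_a t 1 1 1 = true :=
  ⟨(a (b (a (b (a (l 16525552) (l 16489416)) (a (l 16456216) (l 16431216))) (a (b (l 16445904) (l 16399608)) (l 1))) (a (b (a (b (l 16393888) (l 16351888)) (b (l 16386072) (l 16361736))) (a (b (l 16315752) (l 16293496)) (b (l 16347040) (l 1)))) (b (l 1) (l 1)))) (l 1)), by decide +kernel⟩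

theorem c_pm_112_a : CertB 536870912 536870912 0 536870912 697932185 42949674 3 eng mog cd1q1 cd3q2a pd1 false true false .dn 1 1 2
    ndB1q1 ndB3q2a pcB1 Cut.none Ext.none :=
  certB2 (fam := false) (s1 := true) (s2 := false) (a := 1) (b := 1) (c := 2) (cn := .dn) (n1 := ndB1q1) (n2 := ndB3q2a) (pc := pcB1) (cut := Cut.none) (xt := Ext.none) (P1 := 536870912) (W1 := 536870912) (P2 := 0) (W2 := 536870912) (P3 := 697932185) (W3 := 42949674) (N0 := 3) (En := eng) (mo := mog) (C1 := cd1q1) (C2 := cd3q2a) (C3 := pd1)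
    rfl (fun _ => rfl) k0_pm_112_a

noncomputable def f_pm_112_b : ℕ → ℕ → ℕ → ℕ → Bool := onCell 536870912 536870912 1239849684 370763052 697932185 42949674
    (rowB 3 eng mog cd1q1 cd3q2b pd1 0 false true false .dn 1 1 2 (qsf 536870912 536870912 1239849684 370763052 1) ndB1q1 ndB3q2b pcB1 Cut.none Ext.none)

def k0_pm_112_b : ∃ t, chk3 f_pm_112_b t 1 1 1 = true :=
  ⟨(a (b (a (b (a (b (l 16480048) (l 16442288)) (b (l 16530232) (l 16507904))) (a (b (l 16395888) (l 16336800)) (b (l 16475952) (l 16432496)))) (b (a (l 64994807095) (l 264173976839)) (a (l 16523600) (l 16564184)))) (a (a (b (b (l 16274944) (l 16217464)) (l 16135840)) (b (b (l 16384904) (l 16335472)) (b (a (l 16256648) (l 16319456)) (l 16251120)))) (a (b (l 16463144) (b (l 16416800) (l 16389488))) (b (l 16536272) (l 16522704))))) (a (b (b (l 1) (a (l 136398788535) (a (l 300681174391) (l 1)))) (a (b (l 16560944) (l 16588432)) (b (a (l 16537304) (l 16505144)) (a (l 16578640) (l 16542624)))))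 (b (l 1) (b (b (l 1) (a (a (l 16468632) (a (a (l 16442648) (l 1)) (l 1))) (l 1))) (a (a (b (l 16480424) (l 16510848)) (a (b (l 16442152) (l 16464728)) (b (b (l 16415096) (l 16419400)) (a (l 16440752) (l 16425232))))) (a (b (b (l 1) (b (a (l 16411344) (l 1)) (a (l 16392512) (a (l 309807329927) (l 1))))) (a (b (c (l 16413856) (l 16380160)) (c (l 16425400) (l 16388808))) (a (b (b (l 101098763559) (l 16376280)) (c (l 16399528) (l 16365360))) (a (b (a (l 177334425895) (l 3)) (b (l 126868560375) (l 16394112))) (l 3))))) (l 3))))))), by decide +kernel⟩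

theorem c_pm_112_b : CertB 536870912 536870912 1239849684 370763052 697932185 42949674 3 eng mog cd1q1 cd3q2b pd1 false true false .dn 1 1 2
    ndB1q1 ndB3q2b pcB1 Cut.none Ext.none :=
  certB0 (fam := false) (s1 := true) (s2 := false) (a := 1) (b := 1) (c := 2) (cn := .dn) (n1 := ndB1q1) (n2 := ndB3q2b) (pc := pcB1) (cut := Cut.none) (xt := Ext.none) (P1 := 536870912) (W1 := 536870912) (P2 := 1239849684) (W2 := 370763052) (P3 := 697932185) (W3 := 42949674) (N0 := 3) (En := eng) (mo := mog) (C1 := cd1q1) (C2 := cd3q2b) (C3 := pd1)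
    rfl k0_pm_112_b

noncomputable def f_pm_113 : ℕ → ℕ → ℕ → ℕ → Bool := onCell 536870912 536870912 536870912 536870912 697932185 42949674
    (rowB 3 eng mog cd1q1 cd3q3 pd1 1 false true false .nn 1 1 3 (qsf 536870912 536870912 1610612736 536870912 1) ndB1q1 ndB3q3 pcB1 Cut.none Ext.none)

def k0_pm_113 : ∃ t, chk3 f_pm_113 t 1 1 1 = true :=
  ⟨(b (a (a (l 1) (b (l 1) (a (l 1) (l 16644784)))) (b (a (a (l 1) (b (l 1) (l 102575743303))) (a (b (a (l 1) (b (l 1) (l 110628437431))) (a (l 16489056) (b (l 16436160) (l 16476128)))) (a (b (b (a (l 1) (b (l 1) (l 125794810327))) (a (l 16379360) (b (l 16351520) (l 16360928)))) (b (a (l 16405128) (l 16381944)) (l 16436816))) (a (b (l 3) (b (l 288466738263) (l 156396538583))) (l 3))))) (a (a (l 16680152) (b (l 16595488) (l 16720592))) (b (a (a (l 16591920) (l 16575184)) (a (b (l 16503736) (l 16600136)) (b (a (l 16467632) (l 3)) (a (l 16566640) (l 238001105271))))) (a (l 16797704) (a (b (l 16720704) (l 16779968))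 (b (a (l 16656640) (l 228874291671)) (a (l 16715664) (l 234779957463))))))))) (b (a (a (b (l 1) (a (l 1) (l 135861369447))) (b (a (l 16441680) (l 16544344)) (a (l 16406408) (l 16560088)))) (a (a (b (l 16700408) (l 16780592)) (b (l 16916456) (l 16883896))) (b (a (l 16941416) (a (b (l 16828880) (l 16871016)) (b (a (l 16761552) (l 178945439879)) (b (l 16769664) (l 16792656))))) (a (l 16989384) (a (b (l 16917176) (l 16952656)) (b (l 16702504) (a (l 16881832) (l 16837856)))))))) (b (a (a (a (l 16188392) (l 16264448)) (a (l 16387368) (l 16594568))) (a (a (l 16679800) (l 16768032)) (a (l 16849728) (a (l 16901344) (b (l 16876064) (l 16877160)))))) (a (a (a (l 16107440) (l 16208728)) (a (l 16368672) (l 16520504))) (a (a (l 16593168) (l 16676872)) (a (l 16751320) (a (l 16791568) (b (l 16836472) (l 16789104))))))))), by decide +kernel⟩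

theorem c_pm_113 : CertB 536870912 536870912 1610612736 536870912 697932185 42949674 3 eng mog cd1q1 cd3q3 pd1 false true false .nn 1 1 3
    ndB1q1 ndB3q3 pcB1 Cut.none Ext.none :=
  certB1 (fam := false) (s1 := true) (s2 := false) (a := 1) (b := 1) (c := 3) (cn := .nn) (n1 := ndB1q1) (n2 := ndB3q3) (pc := pcB1) (cut := Cut.none) (xt := Ext.none) (P1 := 536870912) (W1 := 536870912) (P2 := 1610612736) (W2 := 536870912) (P3 := 697932185) (W3 := 42949674) (N0 := 3) (En := eng) (mo := mog) (C1 := cd1q1) (C2 := cd3q3) (C3 := pd1)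
    rfl (fun _ => rfl) k0_pm_113

noncomputable def f_pm_123 : ℕ → ℕ → ℕ → ℕ → Bool := onCell 1073741824 536870912 1610612736 536870912 697932185 42949674
    (rowB 3 eng mog cd1q1 cd3q3 pd2 2 false true false .npn 1 2 3 (qsf 536870912 536870912 1610612736 536870912 2) ndB1q1 ndB3q3 pcB2 Cut.none Ext.none)

def k0_pm_123 : ∃ t, chk3 f_pm_123 t 1 1 1 = true :=
  ⟨(a (b (a (b (a (b (l 16034752) (l 16119248)) (b (l 16010368) (l 16051256))) (a (b (l 16259784) (l 16393776)) (b (l 16130224) (l 16251000)))) (a (b (b (l 1) (l 16043704)) (b (l 16077728) (l 16148536))) (b (l 1) (l 16136904)))) (a (b (a (b (l 16471008) (l 16542656)) (b (l 16335672) (l 16410168))) (a (b (a (l 16655760) (l 16581120)) (a (l 16723464) (l 16665488))) (b (l 16484912) (a (l 16607224) (l 16550096))))) (b (a (b (l 16236208) (l 16525352)) (b (l 16232592) (l 16314240))) (a (b (l 16603688) (b (l 16454744) (a (l 16757864) (l 16489040)))) (b (l 16398968) (l 16490336)))))) (a (b (a (b (l 1) (l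 16206104)) (l 1)) (b (a (l 16305936) (l 16351896)) (a (b (l 16423896) (l 16517792)) (b (l 16461592) (l 16540160))))) (b (l 1) (b (a (l 16414760) (l 1)) (a (l 16553776) (l 16586576)))))), by decide +kernel⟩

theorem c_pm_123 : CertB 536870912 536870912 1610612736 536870912 697932185 42949674 3 eng mog cd1q1 cd3q3 pd2 false true false .npn 1 2 3
    ndB1q1 ndB3q3 pcB2 Cut.none Ext.none :=
  certB2 (fam := false) (s1 := true) (s2 := false) (a := 1) (b := 2) (c := 3) (cn := .npn) (n1 := ndB1q1) (n2 := ndB3q3) (pc := pcB2) (cut := Cut.none) (xt := Ext.none) (P1 := 536870912) (W1 := 536870912) (P2 := 1610612736) (W2 := 536870912) (P3 := 697932185) (W3 := 42949674) (N0 := 3) (En := eng) (mo := mog) (C1 := cd1q1) (C2 := cd3q3) (C3 := pd2)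
    rfl (fun _ => rfl) k0_pm_123

noncomputable def f_pm_133 : ℕ → ℕ → ℕ → ℕ → Bool := onCell 1610612736 536870912 1610612736 536870912 697932185 42949674
    (rowB 3 eng mog cd1q1 cd3q3 pd3 2 false true false .dn 1 3 3 (qsf 536870912 536870912 1610612736 536870912 3) ndB1q1 ndB3q3 pcB3 Cut.none Ext.none)

def k0_pm_133 : ∃ t, chk3 f_pm_133 t 1 1 1 = true :=
  ⟨(a (b (l 1) (a (a (a (l 350610313367) (l 1)) (l 1)) (l 1))) (l 1)), by decide +kernel⟩

theorem c_pm_133 : CertB 536870912 536870912 1610612736 536870912 697932185 42949674 3 eng mog cd1q1 cd3q3 pd3 false true false .dn 1 3 3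
    ndB1q1 ndB3q3 pcB3 Cut.none Ext.none :=
  certB2 (fam := false) (s1 := true) (s2 := false) (a := 1) (b := 3) (c := 3) (cn := .dn) (n1 := ndB1q1) (n2 := ndB3q3) (pc := pcB3) (cut := Cut.none) (xt := Ext.none) (P1 := 536870912) (W1 := 536870912) (P2 := 1610612736) (W2 := 536870912) (P3 := 697932185) (W3 := 42949674) (N0 := 3) (En := eng) (mo := mog) (C1 := cd1q1) (C2 := cd3q3) (C3 := pd3)
    rfl (fun _ => rfl) k0_pm_133

noncomputable def cut_pm_202_aa : Cut := Cut.of [[⟨0, 1, 0, 67108864⟩, ⟨1, 0, 0, 67108864⟩, ⟨2, 1, 0, 67108864⟩]]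

noncomputable def f_pm_202_aa : ℕ → ℕ → ℕ → ℕ → Bool := onCell 0 536870912 0 536870912 697932185 42949674
    (rowB 3 eng mog cd1q2a cd3q2a pd0 0 false true false .pp 2 0 2 (qsf 0 536870912 0 536870912 0) ndB1q2a ndB3q2a pcB0 cut_pm_202_aa Ext.none)

def k0_pm_202_aa : ∃ t, chk3 f_pm_202_aa t 1 1 1 = true :=
  ⟨(a (l 3) (b (l 3) (a (l 3) (b (l 3) (a (l 3) (b (l 3) (l 6))))))), by decide +kernel⟩

theorem c_pm_202_aa : CertB 0 536870912 0 536870912 697932185 42949674 3 eng mog cd1q2a cd3q2a pd0 false true false .pp 2 0 2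
    ndB1q2a ndB3q2a pcB0 cut_pm_202_aa Ext.none :=
  certB0 (fam := false) (s1 := true) (s2 := false) (a := 2) (b := 0) (c := 2) (cn := .pp) (n1 := ndB1q2a) (n2 := ndB3q2a) (pc := pcB0) (cut := cut_pm_202_aa) (xt := Ext.none) (P1 := 0) (W1 := 536870912) (P2 := 0) (W2 := 536870912) (P3 := 697932185) (W3 := 42949674) (N0 := 3) (En := eng) (mo := mog) (C1 := cd1q2a) (C2 := cd3q2a) (C3 := pd0)
    rfl k0_pm_202_aa

noncomputable def cut_pm_202_ab : Cut := Cut.of [[⟨0, 1, 0, 67108864⟩, ⟨1, 0, 0, 67108864⟩, ⟨2, 1, 0, 67108864⟩]]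

noncomputable def f_pm_202_ab : ℕ → ℕ → ℕ → ℕ → Bool := onCell 0 536870912 1239849684 370763052 697932185 42949674
    (rowB 3 eng mog cd1q2a cd3q2b pd0 0 false true false .pp 2 0 2 (qsf 0 536870912 1239849684 370763052 0) ndB1q2a ndB3q2b pcB0 cut_pm_202_ab Ext.none)

def k0_pm_202_ab : ∃ t, chk3 f_pm_202_ab t 1 1 1 = true :=
  ⟨(l 3), by decide +kernel⟩

theorem c_pm_202_ab : CertB 0 536870912 1239849684 370763052 697932185 42949674 3 eng mog cd1q2a cd3q2b pd0 false true false .pp 2 0 2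
    ndB1q2a ndB3q2b pcB0 cut_pm_202_ab Ext.none :=
  certB0 (fam := false) (s1 := true) (s2 := false) (a := 2) (b := 0) (c := 2) (cn := .pp) (n1 := ndB1q2a) (n2 := ndB3q2b) (pc := pcB0) (cut := cut_pm_202_ab) (xt := Ext.none) (P1 := 0) (W1 := 536870912) (P2 := 1239849684) (W2 := 370763052) (P3 := 697932185) (W3 := 42949674) (N0 := 3) (En := eng) (mo := mog) (C1 := cd1q2a) (C2 := cd3q2b) (C3 := pd0)
    rfl k0_pm_202_ab

noncomputable def cut_pm_202_ba : Cut := Cut.of [[⟨0, 1, 0, 67108864⟩, ⟨1, 0, 0, 67108864⟩, ⟨2, 1, 0, 67108864⟩]]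

noncomputable def f_pm_202_ba : ℕ → ℕ → ℕ → ℕ → Bool := onCell 1239849684 370763052 0 536870912 697932185 42949674
    (rowB 3 eng mog cd1q2b cd3q2a pd0 0 false true false .pp 2 0 2 (qsf 1239849684 370763052 0 536870912 0) ndB1q2b ndB3q2a pcB0 cut_pm_202_ba Ext.none)

def k0_pm_202_ba : ∃ t, chk3 f_pm_202_ba t 1 1 1 = true :=
  ⟨(l 3), by decide +kernel⟩

theorem c_pm_202_ba : CertB 1239849684 370763052 0 536870912 697932185 42949674 3 eng mog cd1q2b cd3q2a pd0 false true false .pp 2 0 2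
    ndB1q2b ndB3q2a pcB0 cut_pm_202_ba Ext.none :=
  certB0 (fam := false) (s1 := true) (s2 := false) (a := 2) (b := 0) (c := 2) (cn := .pp) (n1 := ndB1q2b) (n2 := ndB3q2a) (pc := pcB0) (cut := cut_pm_202_ba) (xt := Ext.none) (P1 := 1239849684) (W1 := 370763052) (P2 := 0) (W2 := 536870912) (P3 := 697932185) (W3 := 42949674) (N0 := 3) (En := eng) (mo := mog) (C1 := cd1q2b) (C2 := cd3q2a) (C3 := pd0)
    rfl k0_pm_202_ba

noncomputable def cut_pm_202_bb : Cut := Cut.of [[⟨0, 1, 0, 67108864⟩, ⟨1, 0, 0, 67108864⟩, ⟨2, 1, 0, 67108864⟩]]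

noncomputable def f_pm_202_bb : ℕ → ℕ → ℕ → ℕ → Bool := onCell 1239849684 370763052 1239849684 370763052 697932185 42949674
    (rowB 3 eng mog cd1q2b cd3q2b pd0 0 false true false .pp 2 0 2 (qsf 1239849684 370763052 1239849684 370763052 0) ndB1q2b ndB3q2b pcB0 cut_pm_202_bb Ext.none)

def k0_pm_202_bb : ∃ t, chk3 f_pm_202_bb t 1 1 1 = true :=
  ⟨(l 3), by decide +kernel⟩

theorem c_pm_202_bb : CertB 1239849684 370763052 1239849684 370763052 697932185 42949674 3 eng mog cd1q2b cd3q2b pd0 false true false .pp 2 0 2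
    ndB1q2b ndB3q2b pcB0 cut_pm_202_bb Ext.none :=
  certB0 (fam := false) (s1 := true) (s2 := false) (a := 2) (b := 0) (c := 2) (cn := .pp) (n1 := ndB1q2b) (n2 := ndB3q2b) (pc := pcB0) (cut := cut_pm_202_bb) (xt := Ext.none) (P1 := 1239849684) (W1 := 370763052) (P2 := 1239849684) (W2 := 370763052) (P3 := 697932185) (W3 := 42949674) (N0 := 3) (En := eng) (mo := mog) (C1 := cd1q2b) (C2 := cd3q2b) (C3 := pd0)
    rfl k0_pm_202_bb

noncomputable def f_pm_203_a : ℕ → ℕ → ℕ → ℕ → Bool := onCell 0 536870912 0 536870912 697932185 42949674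
    (rowB 3 eng mog cd1q2a cd3q3 pd0 1 false true false .up 2 0 3 (qsf 0 536870912 1610612736 536870912 0) ndB1q2a ndB3q3 pcB0 Cut.none Ext.none)

def k0_pm_203_a : ∃ t, chk3 f_pm_203_a t 1 1 1 = true :=
  ⟨(l 3), by decide +kernel⟩

theorem c_pm_203_a : CertB 0 536870912 1610612736 536870912 697932185 42949674 3 eng mog cd1q2a cd3q3 pd0 false true false .up 2 0 3
    ndB1q2a ndB3q3 pcB0 Cut.none Ext.none :=
  certB1 (fam := false) (s1 := true) (s2 := false) (a := 2) (b := 0) (c := 3) (cn := .up) (n1 := ndB1q2a) (n2 := ndB3q3) (pc := pcB0) (cut := Cut.none) (xt := Ext.none) (P1 := 0) (W1 := 536870912) (P2 := 1610612736) (W2 := 536870912) (P3 := 697932185) (W3 := 42949674) (N0 := 3) (En := eng) (mo := mog) (C1 := cd1q2a) (C2 := cd3q3) (C3 := pd0)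
    rfl (fun _ => rfl) k0_pm_203_a

noncomputable def f_pm_203_b : ℕ → ℕ → ℕ → ℕ → Bool := onCell 1239849684 370763052 1610612736 536870912 697932185 42949674
    (rowB 3 eng mog cd1q2b cd3q3 pd0 0 false true false .up 2 0 3 (qsf 1239849684 370763052 1610612736 536870912 0) ndB1q2b ndB3q3 pcB0 Cut.none Ext.none)

def k0_pm_203_b : ∃ t, chk3 f_pm_203_b t 1 1 1 = true :=
  ⟨(l 3), by decide +kernel⟩

theorem c_pm_203_b : CertB 1239849684 370763052 1610612736 536870912 697932185 42949674 3 eng mog cd1q2b cd3q3 pd0 false true false .up 2 0 3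
    ndB1q2b ndB3q3 pcB0 Cut.none Ext.none :=
  certB0 (fam := false) (s1 := true) (s2 := false) (a := 2) (b := 0) (c := 3) (cn := .up) (n1 := ndB1q2b) (n2 := ndB3q3) (pc := pcB0) (cut := Cut.none) (xt := Ext.none) (P1 := 1239849684) (W1 := 370763052) (P2 := 1610612736) (W2 := 536870912) (P3 := 697932185) (W3 := 42949674) (N0 := 3) (En := eng) (mo := mog) (C1 := cd1q2b) (C2 := cd3q3) (C3 := pd0)
    rfl k0_pm_203_b

noncomputable def cut_pm_213_a : Cut := Cut.of [[⟨0, 1, 0, 67108864⟩, ⟨1, 1, 0, 67108864⟩, ⟨2, 2, 0, 16777216⟩]]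

noncomputable def f_pm_213_a : ℕ → ℕ → ℕ → ℕ → Bool := onCell 0 536870912 1610612736 536870912 697932185 42949674
    (rowB 3 eng mog cd1q2a cd3q3 pd1 0 false true false .pnn 2 1 3 (qsf 0 536870912 1610612736 536870912 1) ndB1q2a ndB3q3 pcB1 cut_pm_213_a Ext.none)

def k0_pm_213_a : ∃ t, chk3 f_pm_213_a t 1 1 1 = true :=
  ⟨(b (l 3) (a (l 3) (b (l 3) (a (l 3) (b (l 3) (b (l 3) (b (l 3) (b (l 3) (a (l 3) (l 6)))))))))), by decide +kernel⟩

theorem c_pm_213_a : CertB 0 536870912 1610612736 536870912 697932185 42949674 3 eng mog cd1q2a cd3q3 pd1 false true false .pnn 2 1 3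
    ndB1q2a ndB3q3 pcB1 cut_pm_213_a Ext.none :=
  certB0 (fam := false) (s1 := true) (s2 := false) (a := 2) (b := 1) (c := 3) (cn := .pnn) (n1 := ndB1q2a) (n2 := ndB3q3) (pc := pcB1) (cut := cut_pm_213_a) (xt := Ext.none) (P1 := 0) (W1 := 536870912) (P2 := 1610612736) (W2 := 536870912) (P3 := 697932185) (W3 := 42949674) (N0 := 3) (En := eng) (mo := mog) (C1 := cd1q2a) (C2 := cd3q3) (C3 := pd1)
    rfl k0_pm_213_a

noncomputable def cut_pm_213_b : Cut := Cut.of [[⟨0, 1, 0, 67108864⟩, ⟨1, 1, 0, 67108864⟩, ⟨2, 2, 0, 16777216⟩]]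

noncomputable def f_pm_213_b : ℕ → ℕ → ℕ → ℕ → Bool := onCell 1239849684 370763052 1610612736 536870912 697932185 42949674
    (rowB 3 eng mog cd1q2b cd3q3 pd1 0 false true false .pnn 2 1 3 (qsf 1239849684 370763052 1610612736 536870912 1) ndB1q2b ndB3q3 pcB1 cut_pm_213_b Ext.none)

def k0_pm_213_b : ∃ t, chk3 f_pm_213_b t 1 1 1 = true :=
  ⟨(l 3), by decide +kernel⟩

theorem c_pm_213_b : CertB 1239849684 370763052 1610612736 536870912 697932185 42949674 3 eng mog cd1q2b cd3q3 pd1 false true false .pnn 2 1 3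
    ndB1q2b ndB3q3 pcB1 cut_pm_213_b Ext.none :=
  certB0 (fam := false) (s1 := true) (s2 := false) (a := 2) (b := 1) (c := 3) (cn := .pnn) (n1 := ndB1q2b) (n2 := ndB3q3) (pc := pcB1) (cut := cut_pm_213_b) (xt := Ext.none) (P1 := 1239849684) (W1 := 370763052) (P2 := 1610612736) (W2 := 536870912) (P3 := 697932185) (W3 := 42949674) (N0 := 3) (En := eng) (mo := mog) (C1 := cd1q2b) (C2 := cd3q3) (C3 := pd1)
    rfl k0_pm_213_b

noncomputable def f_pm_303 : ℕ → ℕ → ℕ → ℕ → Bool := onCell 1610612736 536870912 1610612736 536870912 697932185 42949674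
    (rowB 3 eng mog cd1q3 cd3q3 pd0 0 false true false .npn 3 0 3 (qsf 1610612736 536870912 1610612736 536870912 0) ndB1q3 ndB3q3 pcB0 Cut.none Ext.none)

def k0_pm_303 : ∃ t, chk3 f_pm_303 t 1 1 1 = true :=
  ⟨(l 3), by decide +kernel⟩

theorem c_pm_303 : CertB 1610612736 536870912 1610612736 536870912 697932185 42949674 3 eng mog cd1q3 cd3q3 pd0 false true false .npn 3 0 3
    ndB1q3 ndB3q3 pcB0 Cut.none Ext.none :=
  certB0 (fam := false) (s1 := true) (s2 := false) (a := 3) (b := 0) (c := 3) (cn := .npn) (n1 := ndB1q3) (n2 := ndB3q3) (pc := pcB0) (cut := Cut.none) (xt := Ext.none) (P1 := 1610612736) (W1 := 536870912) (P2 := 1610612736) (W2 := 536870912) (P3 := 697932185) (W3 := 42949674) (N0 := 3) (En := eng) (mo := mog) (C1 := cd1q3) (C2 := cd3q3) (C3 := pd0)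
    rfl k0_pm_303

noncomputable def f_pm_313 : ℕ → ℕ → ℕ → ℕ → Bool := onCell 1610612736 536870912 1610612736 536870912 697932185 42949674
    (rowB 3 eng mog cd1q3 cd3q3 pd1 0 false true false .dn 3 1 3 (qsf 1610612736 536870912 1610612736 536870912 1) ndB1q3 ndB3q3 pcB1 Cut.none Ext.none)

def k0_pm_313 : ∃ t, chk3 f_pm_313 t 1 1 1 = true :=
  ⟨(l 3), by decide +kernel⟩

theorem c_pm_313 : CertB 1610612736 536870912 1610612736 536870912 697932185 42949674 3 eng mog cd1q3 cd3q3 pd1 false true false .dn 3 1 3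
    ndB1q3 ndB3q3 pcB1 Cut.none Ext.none :=
  certB0 (fam := false) (s1 := true) (s2 := false) (a := 3) (b := 1) (c := 3) (cn := .dn) (n1 := ndB1q3) (n2 := ndB3q3) (pc := pcB1) (cut := Cut.none) (xt := Ext.none) (P1 := 1610612736) (W1 := 536870912) (P2 := 1610612736) (W2 := 536870912) (P3 := 697932185) (W3 := 42949674) (N0 := 3) (En := eng) (mo := mog) (C1 := cd1q3) (C2 := cd3q3) (C3 := pd1)
    rfl k0_pm_313

noncomputable def f_mm_001 : ℕ → ℕ → ℕ → ℕ → Bool := onCell 0 536870912 536870912 536870912 697932185 42949674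
    (rowB 3 eng mog cd1q0 cd3q1 pd0 0 false false false .up 0 0 1 (qsf 0 536870912 536870912 536870912 0) ndB1q0 ndB3q1 pcB0 Cut.none Ext.none)

def k0_mm_001 : ∃ t, chk3 f_mm_001 t 1 1 1 = true :=
  ⟨(l 3), by decide +kernel⟩

theorem c_mm_001 : CertB 0 536870912 536870912 536870912 697932185 42949674 3 eng mog cd1q0 cd3q1 pd0 false false false .up 0 0 1
    ndB1q0 ndB3q1 pcB0 Cut.none Ext.none :=
  certB0 (fam := false) (s1 := false) (s2 := false) (a := 0) (b := 0) (c := 1) (cn := .up) (n1 := ndB1q0) (n2 := ndB3q1) (pc := pcB0) (cut := Cut.none) (xt := Ext.none) (P1 := 0) (W1 := 536870912) (P2 := 536870912) (W2 := 536870912) (P3 := 697932185) (W3 := 42949674) (N0 := 3) (En := eng) (mo := mog) (C1 := cd1q0) (C2 := cd3q1) (C3 := pd0)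
    rfl k0_mm_001

noncomputable def f_mm_011 : ℕ → ℕ → ℕ → ℕ → Bool := onCell 0 536870912 536870912 536870912 697932185 42949674
    (rowB 3 eng mog cd1q0 cd3q1 pd1 0 false false false .pnn 0 1 1 (qsf 0 536870912 536870912 536870912 1) ndB1q0 ndB3q1 pcB1 Cut.none Ext.none)

def k0_mm_011 : ∃ t, chk3 f_mm_011 t 1 1 1 = true :=
  ⟨(l 3), by decide +kernel⟩

theorem c_mm_011 : CertB 0 536870912 536870912 536870912 697932185 42949674 3 eng mog cd1q0 cd3q1 pd1 false false false .pnn 0 1 1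
    ndB1q0 ndB3q1 pcB1 Cut.none Ext.none :=
  certB0 (fam := false) (s1 := false) (s2 := false) (a := 0) (b := 1) (c := 1) (cn := .pnn) (n1 := ndB1q0) (n2 := ndB3q1) (pc := pcB1) (cut := Cut.none) (xt := Ext.none) (P1 := 0) (W1 := 536870912) (P2 := 536870912) (W2 := 536870912) (P3 := 697932185) (W3 := 42949674) (N0 := 3) (En := eng) (mo := mog) (C1 := cd1q0) (C2 := cd3q1) (C3 := pd1)
    rfl k0_mm_011

noncomputable def f_mm_012_a : ℕ → ℕ → ℕ → ℕ → Bool := onCell 0 536870912 0 536870912 697932185 42949674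
    (rowB 3 eng mog cd1q0 cd3q2a pd1 0 false false false .pnp 0 1 2 (qsf 0 536870912 0 536870912 1) ndB1q0 ndB3q2a pcB1 Cut.none Ext.none)

def k0_mm_012_a : ∃ t, chk3 f_mm_012_a t 1 1 1 = true :=
  ⟨(l 5), by decide +kernel⟩

theorem c_mm_012_a : CertB 0 536870912 0 536870912 697932185 42949674 3 eng mog cd1q0 cd3q2a pd1 false false false .pnp 0 1 2
    ndB1q0 ndB3q2a pcB1 Cut.none Ext.none :=
  certB0 (fam := false) (s1 := false) (s2 := false) (a := 0) (b := 1) (c := 2) (cn := .pnp) (n1 := ndB1q0) (n2 := ndB3q2a) (pc := pcB1) (cut := Cut.none) (xt := Ext.none) (P1 := 0) (W1 := 536870912) (P2 := 0) (W2 := 536870912) (P3 := 697932185) (W3 := 42949674) (N0 := 3) (En := eng) (mo := mog) (C1 := cd1q0) (C2 := cd3q2a) (C3 := pd1)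
    rfl k0_mm_012_a

noncomputable def f_mm_012_b : ℕ → ℕ → ℕ → ℕ → Bool := onCell 0 536870912 1239849684 370763052 697932185 42949674
    (rowB 3 eng mog cd1q0 cd3q2b pd1 0 false false false .pnp 0 1 2 (qsf 0 536870912 1239849684 370763052 1) ndB1q0 ndB3q2b pcB1 Cut.none Ext.none)

def k0_mm_012_b : ∃ t, chk3 f_mm_012_b t 1 1 1 = true :=
  ⟨(l 5), by decide +kernel⟩

theorem c_mm_012_b : CertB 0 536870912 1239849684 370763052 697932185 42949674 3 eng mog cd1q0 cd3q2b pd1 false false false .pnp 0 1 2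
    ndB1q0 ndB3q2b pcB1 Cut.none Ext.none :=
  certB0 (fam := false) (s1 := false) (s2 := false) (a := 0) (b := 1) (c := 2) (cn := .pnp) (n1 := ndB1q0) (n2 := ndB3q2b) (pc := pcB1) (cut := Cut.none) (xt := Ext.none) (P1 := 0) (W1 := 536870912) (P2 := 1239849684) (W2 := 370763052) (P3 := 697932185) (W3 := 42949674) (N0 := 3) (En := eng) (mo := mog) (C1 := cd1q0) (C2 := cd3q2b) (C3 := pd1)
    rfl k0_mm_012_b

noncomputable def f_mm_022_a : ℕ → ℕ → ℕ → ℕ → Bool := onCell 0 536870912 0 536870912 697932185 42949674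
    (rowB 3 eng mog cd1q0 cd3q2a pd2 0 false false false .pp 0 2 2 (qsf 0 536870912 0 536870912 2) ndB1q0 ndB3q2a pcB2 Cut.none Ext.none)

def k0_mm_022_a : ∃ t, chk3 f_mm_022_a t 1 1 1 = true :=
  ⟨(l 5), by decide +kernel⟩

theorem c_mm_022_a : CertB 0 536870912 0 536870912 697932185 42949674 3 eng mog cd1q0 cd3q2a pd2 false false false .pp 0 2 2
    ndB1q0 ndB3q2a pcB2 Cut.none Ext.none :=
  certB0 (fam := false) (s1 := false) (s2 := false) (a := 0) (b := 2) (c := 2) (cn := .pp) (n1 := ndB1q0) (n2 := ndB3q2a) (pc := pcB2) (cut := Cut.none) (xt := Ext.none) (P1 := 0) (W1 := 536870912) (P2 := 0) (W2 := 536870912) (P3 := 697932185) (W3 := 42949674) (N0 := 3) (En := eng) (mo := mog) (C1 := cd1q0) (C2 := cd3q2a) (C3 := pd2)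
    rfl k0_mm_022_a

noncomputable def f_mm_022_b : ℕ → ℕ → ℕ → ℕ → Bool := onCell 0 536870912 1239849684 370763052 697932185 42949674
    (rowB 3 eng mog cd1q0 cd3q2b pd2 0 false false false .pp 0 2 2 (qsf 0 536870912 1239849684 370763052 2) ndB1q0 ndB3q2b pcB2 Cut.none Ext.none)

def k0_mm_022_b : ∃ t, chk3 f_mm_022_b t 1 1 1 = true :=
  ⟨(l 5), by decide +kernel⟩

theorem c_mm_022_b : CertB 0 536870912 1239849684 370763052 697932185 42949674 3 eng mog cd1q0 cd3q2b pd2 false false false .pp 0 2 2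
    ndB1q0 ndB3q2b pcB2 Cut.none Ext.none :=
  certB0 (fam := false) (s1 := false) (s2 := false) (a := 0) (b := 2) (c := 2) (cn := .pp) (n1 := ndB1q0) (n2 := ndB3q2b) (pc := pcB2) (cut := Cut.none) (xt := Ext.none) (P1 := 0) (W1 := 536870912) (P2 := 1239849684) (W2 := 370763052) (P3 := 697932185) (W3 := 42949674) (N0 := 3) (En := eng) (mo := mog) (C1 := cd1q0) (C2 := cd3q2b) (C3 := pd2)
    rfl k0_mm_022_b

noncomputable def f_mm_023 : ℕ → ℕ → ℕ → ℕ → Bool := onCell 0 536870912 1610612736 536870912 697932185 42949674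
    (rowB 3 eng mog cd1q0 cd3q3 pd2 0 false false false .up 0 2 3 (qsf 0 536870912 1610612736 536870912 2) ndB1q0 ndB3q3 pcB2 Cut.none Ext.none)

def k0_mm_023 : ∃ t, chk3 f_mm_023 t 1 1 1 = true :=
  ⟨(l 5), by decide +kernel⟩

theorem c_mm_023 : CertB 0 536870912 1610612736 536870912 697932185 42949674 3 eng mog cd1q0 cd3q3 pd2 false false false .up 0 2 3
    ndB1q0 ndB3q3 pcB2 Cut.none Ext.none :=
  certB0 (fam := false) (s1 := false) (s2 := false) (a := 0) (b := 2) (c := 3) (cn := .up) (n1 := ndB1q0) (n2 := ndB3q3) (pc := pcB2) (cut := Cut.none) (xt := Ext.none) (P1 := 0) (W1 := 536870912) (P2 := 1610612736) (W2 := 536870912) (P3 := 697932185) (W3 := 42949674) (N0 := 3) (En := eng) (mo := mog) (C1 := cd1q0) (C2 := cd3q3) (C3 := pd2)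
    rfl k0_mm_023

noncomputable def f_mm_033 : ℕ → ℕ → ℕ → ℕ → Bool := onCell 0 536870912 1610612736 536870912 697932185 42949674
    (rowB 3 eng mog cd1q0 cd3q3 pd3 0 false false false .pnn 0 3 3 (qsf 0 536870912 1610612736 536870912 3) ndB1q0 ndB3q3 pcB3 Cut.none Ext.none)

def k0_mm_033 : ∃ t, chk3 f_mm_033 t 1 1 1 = true :=
  ⟨(l 5), by decide +kernel⟩

theorem c_mm_033 : CertB 0 536870912 1610612736 536870912 697932185 42949674 3 eng mog cd1q0 cd3q3 pd3 false false false .pnn 0 3 3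
    ndB1q0 ndB3q3 pcB3 Cut.none Ext.none :=
  certB0 (fam := false) (s1 := false) (s2 := false) (a := 0) (b := 3) (c := 3) (cn := .pnn) (n1 := ndB1q0) (n2 := ndB3q3) (pc := pcB3) (cut := Cut.none) (xt := Ext.none) (P1 := 0) (W1 := 536870912) (P2 := 1610612736) (W2 := 536870912) (P3 := 697932185) (W3 := 42949674) (N0 := 3) (En := eng) (mo := mog) (C1 := cd1q0) (C2 := cd3q3) (C3 := pd3)
    rfl k0_mm_033

noncomputable def f_mm_101 : ℕ → ℕ → ℕ → ℕ → Bool := onCell 536870912 536870912 536870912 536870912 697932185 42949674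
    (rowB 3 eng mog cd1q1 cd3q1 pd0 0 false false false .npn 1 0 1 (qsf 536870912 536870912 536870912 536870912 0) ndB1q1 ndB3q1 pcB0 Cut.none Ext.none)

def k0_mm_101 : ∃ t, chk3 f_mm_101 t 1 1 1 = true :=
  ⟨(l 3), by decide +kernel⟩

theorem c_mm_101 : CertB 536870912 536870912 536870912 536870912 697932185 42949674 3 eng mog cd1q1 cd3q1 pd0 false false false .npn 1 0 1
    ndB1q1 ndB3q1 pcB0 Cut.none Ext.none :=
  certB0 (fam := false) (s1 := false) (s2 := false) (a := 1) (b := 0) (c := 1) (cn := .npn) (n1 := ndB1q1) (n2 := ndB3q1) (pc := pcB0) (cut := Cut.none) (xt := Ext.none) (P1 := 536870912) (W1 := 536870912) (P2 := 536870912) (W2 := 536870912) (P3 := 697932185) (W3 := 42949674) (N0 := 3) (En := eng) (mo := mog) (C1 := cd1q1) (C2 := cd3q1) (C3 := pd0)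
    rfl k0_mm_101

noncomputable def f_mm_102_a : ℕ → ℕ → ℕ → ℕ → Bool := onCell 536870912 536870912 0 536870912 697932185 42949674
    (rowB 3 eng mog cd1q1 cd3q2a pd0 0 false false false .npp 1 0 2 (qsf 536870912 536870912 0 536870912 0) ndB1q1 ndB3q2a pcB0 Cut.none Ext.none)

def k0_mm_102_a : ∃ t, chk3 f_mm_102_a t 1 1 1 = true :=
  ⟨(l 3), by decide +kernel⟩

theorem c_mm_102_a : CertB 536870912 536870912 0 536870912 697932185 42949674 3 eng mog cd1q1 cd3q2a pd0 false false false .npp 1 0 2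
    ndB1q1 ndB3q2a pcB0 Cut.none Ext.none :=
  certB0 (fam := false) (s1 := false) (s2 := false) (a := 1) (b := 0) (c := 2) (cn := .npp) (n1 := ndB1q1) (n2 := ndB3q2a) (pc := pcB0) (cut := Cut.none) (xt := Ext.none) (P1 := 536870912) (W1 := 536870912) (P2 := 0) (W2 := 536870912) (P3 := 697932185) (W3 := 42949674) (N0 := 3) (En := eng) (mo := mog) (C1 := cd1q1) (C2 := cd3q2a) (C3 := pd0)
    rfl k0_mm_102_a

noncomputable def f_mm_102_b : ℕ → ℕ → ℕ → ℕ → Bool := onCell 536870912 536870912 1239849684 370763052 697932185 42949674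
    (rowB 3 eng mog cd1q1 cd3q2b pd0 0 false false false .npp 1 0 2 (qsf 536870912 536870912 1239849684 370763052 0) ndB1q1 ndB3q2b pcB0 Cut.none Ext.none)

def k0_mm_102_b : ∃ t, chk3 f_mm_102_b t 1 1 1 = true :=
  ⟨(l 5), by decide +kernel⟩

theorem c_mm_102_b : CertB 536870912 536870912 1239849684 370763052 697932185 42949674 3 eng mog cd1q1 cd3q2b pd0 false false false .npp 1 0 2
    ndB1q1 ndB3q2b pcB0 Cut.none Ext.none :=
  certB0 (fam := false) (s1 := false) (s2 := false) (a := 1) (b := 0) (c := 2) (cn := .npp) (n1 := ndB1q1) (n2 := ndB3q2b) (pc := pcB0) (cut := Cut.none) (xt := Ext.none) (P1 := 536870912) (W1 := 536870912) (P2 := 1239849684) (W2 := 370763052) (P3 := 697932185) (W3 := 42949674) (N0 := 3) (En := eng) (mo := mog) (C1 := cd1q1) (C2 := cd3q2b) (C3 := pd0)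
    rfl k0_mm_102_b

noncomputable def f_mm_112_a : ℕ → ℕ → ℕ → ℕ → Bool := onCell 536870912 536870912 0 536870912 697932185 42949674
    (rowB 3 eng mog cd1q1 cd3q2a pd1 0 false false false .dn 1 1 2 (qsf 536870912 536870912 0 536870912 1) ndB1q1 ndB3q2a pcB1 Cut.none Ext.none)

def k0_mm_112_a : ∃ t, chk3 f_mm_112_a t 1 1 1 = true :=
  ⟨(l 3), by decide +kernel⟩

theorem c_mm_112_a : CertB 536870912 536870912 0 536870912 697932185 42949674 3 eng mog cd1q1 cd3q2a pd1 false false false .dn 1 1 2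
    ndB1q1 ndB3q2a pcB1 Cut.none Ext.none :=
  certB0 (fam := false) (s1 := false) (s2 := false) (a := 1) (b := 1) (c := 2) (cn := .dn) (n1 := ndB1q1) (n2 := ndB3q2a) (pc := pcB1) (cut := Cut.none) (xt := Ext.none) (P1 := 536870912) (W1 := 536870912) (P2 := 0) (W2 := 536870912) (P3 := 697932185) (W3 := 42949674) (N0 := 3) (En := eng) (mo := mog) (C1 := cd1q1) (C2 := cd3q2a) (C3 := pd1)
    rfl k0_mm_112_a

noncomputable def f_mm_112_b : ℕ → ℕ → ℕ → ℕ → Bool := onCell 536870912 536870912 1239849684 370763052 697932185 42949674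
    (rowB 3 eng mog cd1q1 cd3q2b pd1 0 false false false .dn 1 1 2 (qsf 536870912 536870912 1239849684 370763052 1) ndB1q1 ndB3q2b pcB1 Cut.none Ext.none)

def k0_mm_112_b : ∃ t, chk3 f_mm_112_b t 1 1 1 = true :=
  ⟨(l 5), by decide +kernel⟩

theorem c_mm_112_b : CertB 536870912 536870912 1239849684 370763052 697932185 42949674 3 eng mog cd1q1 cd3q2b pd1 false false false .dn 1 1 2
    ndB1q1 ndB3q2b pcB1 Cut.none Ext.none :=
  certB0 (fam := false) (s1 := false) (s2 := false) (a := 1) (b := 1) (c := 2) (cn := .dn) (n1 := ndB1q1) (n2 := ndB3q2b) (pc := pcB1) (cut := Cut.none) (xt := Ext.none) (P1 := 536870912) (W1 := 536870912) (P2 := 1239849684) (W2 := 370763052) (P3 := 697932185) (W3 := 42949674) (N0 := 3) (En := eng) (mo := mog) (C1 := cd1q1) (C2 := cd3q2b) (C3 := pd1)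
    rfl k0_mm_112_b

noncomputable def f_mm_113 : ℕ → ℕ → ℕ → ℕ → Bool := onCell 536870912 536870912 1610612736 536870912 697932185 42949674
    (rowB 3 eng mog cd1q1 cd3q3 pd1 0 false false false .nn 1 1 3 (qsf 536870912 536870912 1610612736 536870912 1) ndB1q1 ndB3q3 pcB1 Cut.none Ext.none)

def k0_mm_113 : ∃ t, chk3 f_mm_113 t 1 1 1 = true :=
  ⟨(l 5), by decide +kernel⟩

theorem c_mm_113 : CertB 536870912 536870912 1610612736 536870912 697932185 42949674 3 eng mog cd1q1 cd3q3 pd1 false false false .nn 1 1 3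
    ndB1q1 ndB3q3 pcB1 Cut.none Ext.none :=
  certB0 (fam := false) (s1 := false) (s2 := false) (a := 1) (b := 1) (c := 3) (cn := .nn) (n1 := ndB1q1) (n2 := ndB3q3) (pc := pcB1) (cut := Cut.none) (xt := Ext.none) (P1 := 536870912) (W1 := 536870912) (P2 := 1610612736) (W2 := 536870912) (P3 := 697932185) (W3 := 42949674) (N0 := 3) (En := eng) (mo := mog) (C1 := cd1q1) (C2 := cd3q3) (C3 := pd1)
    rfl k0_mm_113

noncomputable def f_mm_123 : ℕ → ℕ → ℕ → ℕ → Bool := onCell 536870912 536870912 1610612736 536870912 697932185 42949674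
    (rowB 3 eng mog cd1q1 cd3q3 pd2 0 false false false .npn 1 2 3 (qsf 536870912 536870912 1610612736 536870912 2) ndB1q1 ndB3q3 pcB2 Cut.none Ext.none)

def k0_mm_123 : ∃ t, chk3 f_mm_123 t 1 1 1 = true :=
  ⟨(l 5), by decide +kernel⟩

theorem c_mm_123 : CertB 536870912 536870912 1610612736 536870912 697932185 42949674 3 eng mog cd1q1 cd3q3 pd2 false false false .npn 1 2 3
    ndB1q1 ndB3q3 pcB2 Cut.none Ext.none :=
  certB0 (fam := false) (s1 := false) (s2 := false) (a := 1) (b := 2) (c := 3) (cn := .npn) (n1 := ndB1q1) (n2 := ndB3q3) (pc := pcB2) (cut := Cut.none) (xt := Ext.none) (P1 := 536870912) (W1 := 536870912) (P2 := 1610612736) (W2 := 536870912) (P3 := 697932185) (W3 := 42949674) (N0 := 3) (En := eng) (mo := mog) (C1 := cd1q1) (C2 := cd3q3) (C3 := pd2)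
    rfl k0_mm_123

noncomputable def f_mm_133 : ℕ → ℕ → ℕ → ℕ → Bool := onCell 536870912 536870912 1610612736 536870912 697932185 42949674
    (rowB 3 eng mog cd1q1 cd3q3 pd3 0 false false false .dn 1 3 3 (qsf 536870912 536870912 1610612736 536870912 3) ndB1q1 ndB3q3 pcB3 Cut.none Ext.none)

def k0_mm_133 : ∃ t, chk3 f_mm_133 t 1 1 1 = true :=
  ⟨(l 5), by decide +kernel⟩

theorem c_mm_133 : CertB 536870912 536870912 1610612736 536870912 697932185 42949674 3 eng mog cd1q1 cd3q3 pd3 false false false .dn 1 3 3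
    ndB1q1 ndB3q3 pcB3 Cut.none Ext.none :=
  certB0 (fam := false) (s1 := false) (s2 := false) (a := 1) (b := 3) (c := 3) (cn := .dn) (n1 := ndB1q1) (n2 := ndB3q3) (pc := pcB3) (cut := Cut.none) (xt := Ext.none) (P1 := 536870912) (W1 := 536870912) (P2 := 1610612736) (W2 := 536870912) (P3 := 697932185) (W3 := 42949674) (N0 := 3) (En := eng) (mo := mog) (C1 := cd1q1) (C2 := cd3q3) (C3 := pd3)
    rfl k0_mm_133

noncomputable def f_mm_202_aa : ℕ → ℕ → ℕ → ℕ → Bool := onCell 0 536870912 0 536870912 697932185 42949674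
    (rowB 3 eng mog cd1q2a cd3q2a pd0 0 false false false .pp 2 0 2 (qsf 0 536870912 0 536870912 0) ndB1q2a ndB3q2a pcB0 Cut.none Ext.none)

def k0_mm_202_aa : ∃ t, chk3 f_mm_202_aa t 1 1 1 = true :=
  ⟨(l 3), by decide +kernel⟩

theorem c_mm_202_aa : CertB 0 536870912 0 536870912 697932185 42949674 3 eng mog cd1q2a cd3q2a pd0 false false false .pp 2 0 2
    ndB1q2a ndB3q2a pcB0 Cut.none Ext.none :=
  certB0 (fam := false) (s1 := false) (s2 := false) (a := 2) (b := 0) (c := 2) (cn := .pp) (n1 := ndB1q2a) (n2 := ndB3q2a) (pc := pcB0) (cut := Cut.none) (xt := Ext.none) (P1 := 0) (W1 := 536870912) (P2 := 0) (W2 := 536870912) (P3 := 697932185) (W3 := 42949674) (N0 := 3) (En := eng) (mo := mog) (C1 := cd1q2a) (C2 := cd3q2a) (C3 := pd0)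
    rfl k0_mm_202_aa

noncomputable def f_mm_202_ab : ℕ → ℕ → ℕ → ℕ → Bool := onCell 0 536870912 1239849684 370763052 697932185 42949674
    (rowB 3 eng mog cd1q2a cd3q2b pd0 0 false false false .pp 2 0 2 (qsf 0 536870912 1239849684 370763052 0) ndB1q2a ndB3q2b pcB0 Cut.none Ext.none)

def k0_mm_202_ab : ∃ t, chk3 f_mm_202_ab t 1 1 1 = true :=
  ⟨(l 3), by decide +kernel⟩

theorem c_mm_202_ab : CertB 0 536870912 1239849684 370763052 697932185 42949674 3 eng mog cd1q2a cd3q2b pd0 false false false .pp 2 0 2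
    ndB1q2a ndB3q2b pcB0 Cut.none Ext.none :=
  certB0 (fam := false) (s1 := false) (s2 := false) (a := 2) (b := 0) (c := 2) (cn := .pp) (n1 := ndB1q2a) (n2 := ndB3q2b) (pc := pcB0) (cut := Cut.none) (xt := Ext.none) (P1 := 0) (W1 := 536870912) (P2 := 1239849684) (W2 := 370763052) (P3 := 697932185) (W3 := 42949674) (N0 := 3) (En := eng) (mo := mog) (C1 := cd1q2a) (C2 := cd3q2b) (C3 := pd0)
    rfl k0_mm_202_ab

noncomputable def f_mm_202_ba : ℕ → ℕ → ℕ → ℕ → Bool := onCell 1239849684 370763052 0 536870912 697932185 42949674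
    (rowB 3 eng mog cd1q2b cd3q2a pd0 0 false false false .pp 2 0 2 (qsf 1239849684 370763052 0 536870912 0) ndB1q2b ndB3q2a pcB0 Cut.none Ext.none)

def k0_mm_202_ba : ∃ t, chk3 f_mm_202_ba t 1 1 1 = true :=
  ⟨(l 3), by decide +kernel⟩

theorem c_mm_202_ba : CertB 1239849684 370763052 0 536870912 697932185 42949674 3 eng mog cd1q2b cd3q2a pd0 false false false .pp 2 0 2
    ndB1q2b ndB3q2a pcB0 Cut.none Ext.none :=
  certB0 (fam := false) (s1 := false) (s2 := false) (a := 2) (b := 0) (c := 2) (cn := .pp) (n1 := ndB1q2b) (n2 := ndB3q2a) (pc := pcB0) (cut := Cut.none) (xt := Ext.none) (P1 := 1239849684) (W1 := 370763052) (P2 := 0) (W2 := 536870912) (P3 := 697932185) (W3 := 42949674) (N0 := 3) (En := eng) (mo := mog) (C1 := cd1q2b) (C2 := cd3q2a) (C3 := pd0)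
    rfl k0_mm_202_ba

noncomputable def f_mm_202_bb : ℕ → ℕ → ℕ → ℕ → Bool := onCell 1239849684 370763052 1239849684 370763052 697932185 42949674
    (rowB 3 eng mog cd1q2b cd3q2b pd0 0 false false false .pp 2 0 2 (qsf 1239849684 370763052 1239849684 370763052 0) ndB1q2b ndB3q2b pcB0 Cut.none Ext.none)

def k0_mm_202_bb : ∃ t, chk3 f_mm_202_bb t 1 1 1 = true :=
  ⟨(l 3), by decide +kernel⟩

theorem c_mm_202_bb : CertB 1239849684 370763052 1239849684 370763052 697932185 42949674 3 eng mog cd1q2b cd3q2b pd0 false false false .pp 2 0 2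
    ndB1q2b ndB3q2b pcB0 Cut.none Ext.none :=
  certB0 (fam := false) (s1 := false) (s2 := false) (a := 2) (b := 0) (c := 2) (cn := .pp) (n1 := ndB1q2b) (n2 := ndB3q2b) (pc := pcB0) (cut := Cut.none) (xt := Ext.none) (P1 := 1239849684) (W1 := 370763052) (P2 := 1239849684) (W2 := 370763052) (P3 := 697932185) (W3 := 42949674) (N0 := 3) (En := eng) (mo := mog) (C1 := cd1q2b) (C2 := cd3q2b) (C3 := pd0)
    rfl k0_mm_202_bb

noncomputable def f_mm_203_a : ℕ → ℕ → ℕ → ℕ → Bool := onCell 0 536870912 0 536870912 697932185 42949674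
    (rowB 3 eng mog cd1q2a cd3q3 pd0 1 false false false .up 2 0 3 (qsf 0 536870912 1610612736 536870912 0) ndB1q2a ndB3q3 pcB0 Cut.none Ext.none)

def k0_mm_203_a : ∃ t, chk3 f_mm_203_a t 1 1 1 = true :=
  ⟨(l 3), by decide +kernel⟩

theorem c_mm_203_a : CertB 0 536870912 1610612736 536870912 697932185 42949674 3 eng mog cd1q2a cd3q3 pd0 false false false .up 2 0 3
    ndB1q2a ndB3q3 pcB0 Cut.none Ext.none :=
  certB1 (fam := false) (s1 := false) (s2 := false) (a := 2) (b := 0) (c := 3) (cn := .up) (n1 := ndB1q2a) (n2 := ndB3q3) (pc := pcB0) (cut := Cut.none) (xt := Ext.none) (P1 := 0) (W1 := 536870912) (P2 := 1610612736) (W2 := 536870912) (P3 := 697932185) (W3 := 42949674) (N0 := 3) (En := eng) (mo := mog) (C1 := cd1q2a) (C2 := cd3q3) (C3 := pd0)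
    rfl (fun _ => rfl) k0_mm_203_a

noncomputable def f_mm_203_b : ℕ → ℕ → ℕ → ℕ → Bool := onCell 1239849684 370763052 1610612736 536870912 697932185 42949674
    (rowB 3 eng mog cd1q2b cd3q3 pd0 0 false false false .up 2 0 3 (qsf 1239849684 370763052 1610612736 536870912 0) ndB1q2b ndB3q3 pcB0 Cut.none Ext.none)

def k0_mm_203_b : ∃ t, chk3 f_mm_203_b t 1 1 1 = true :=
  ⟨(l 3), by decide +kernel⟩

theorem c_mm_203_b : CertB 1239849684 370763052 1610612736 536870912 697932185 42949674 3 eng mog cd1q2b cd3q3 pd0 false false false .up 2 0 3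
    ndB1q2b ndB3q3 pcB0 Cut.none Ext.none :=
  certB0 (fam := false) (s1 := false) (s2 := false) (a := 2) (b := 0) (c := 3) (cn := .up) (n1 := ndB1q2b) (n2 := ndB3q3) (pc := pcB0) (cut := Cut.none) (xt := Ext.none) (P1 := 1239849684) (W1 := 370763052) (P2 := 1610612736) (W2 := 536870912) (P3 := 697932185) (W3 := 42949674) (N0 := 3) (En := eng) (mo := mog) (C1 := cd1q2b) (C2 := cd3q3) (C3 := pd0)
    rfl k0_mm_203_b

noncomputable def f_mm_213_a : ℕ → ℕ → ℕ → ℕ → Bool := onCell 0 536870912 1610612736 536870912 697932185 42949674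
    (rowB 3 eng mog cd1q2a cd3q3 pd1 0 false false false .pnn 2 1 3 (qsf 0 536870912 1610612736 536870912 1) ndB1q2a ndB3q3 pcB1 Cut.none Ext.none)

def k0_mm_213_a : ∃ t, chk3 f_mm_213_a t 1 1 1 = true :=
  ⟨(a (l 3) (l 5)), by decide +kernel⟩

theorem c_mm_213_a : CertB 0 536870912 1610612736 536870912 697932185 42949674 3 eng mog cd1q2a cd3q3 pd1 false false false .pnn 2 1 3
    ndB1q2a ndB3q3 pcB1 Cut.none Ext.none :=
  certB0 (fam := false) (s1 := false) (s2 := false) (a := 2) (b := 1) (c := 3) (cn := .pnn) (n1 := ndB1q2a) (n2 := ndB3q3) (pc := pcB1) (cut := Cut.none) (xt := Ext.none) (P1 := 0) (W1 := 536870912) (P2 := 1610612736) (W2 := 536870912) (P3 := 697932185) (W3 := 42949674) (N0 := 3) (En := eng) (mo := mog) (C1 := cd1q2a) (C2 := cd3q3) (C3 := pd1)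
    rfl k0_mm_213_a

noncomputable def f_mm_213_b : ℕ → ℕ → ℕ → ℕ → Bool := onCell 1239849684 370763052 1610612736 536870912 697932185 42949674
    (rowB 3 eng mog cd1q2b cd3q3 pd1 0 false false false .pnn 2 1 3 (qsf 1239849684 370763052 1610612736 536870912 1) ndB1q2b ndB3q3 pcB1 Cut.none Ext.none)

def k0_mm_213_b : ∃ t, chk3 f_mm_213_b t 1 1 1 = true :=
  ⟨(l 3), by decide +kernel⟩

theorem c_mm_213_b : CertB 1239849684 370763052 1610612736 536870912 697932185 42949674 3 eng mog cd1q2b cd3q3 pd1 false false false .pnn 2 1 3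
    ndB1q2b ndB3q3 pcB1 Cut.none Ext.none :=
  certB0 (fam := false) (s1 := false) (s2 := false) (a := 2) (b := 1) (c := 3) (cn := .pnn) (n1 := ndB1q2b) (n2 := ndB3q3) (pc := pcB1) (cut := Cut.none) (xt := Ext.none) (P1 := 1239849684) (W1 := 370763052) (P2 := 1610612736) (W2 := 536870912) (P3 := 697932185) (W3 := 42949674) (N0 := 3) (En := eng) (mo := mog) (C1 := cd1q2b) (C2 := cd3q3) (C3 := pd1)
    rfl k0_mm_213_b

noncomputable def f_mm_303 : ℕ → ℕ → ℕ → ℕ → Bool := onCell 1610612736 536870912 1610612736 536870912 697932185 42949674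
    (rowB 3 eng mog cd1q3 cd3q3 pd0 0 false false false .npn 3 0 3 (qsf 1610612736 536870912 1610612736 536870912 0) ndB1q3 ndB3q3 pcB0 Cut.none Ext.none)

def k0_mm_303 : ∃ t, chk3 f_mm_303 t 1 1 1 = true :=
  ⟨(l 3), by decide +kernel⟩

theorem c_mm_303 : CertB 1610612736 536870912 1610612736 536870912 697932185 42949674 3 eng mog cd1q3 cd3q3 pd0 false false false .npn 3 0 3
    ndB1q3 ndB3q3 pcB0 Cut.none Ext.none :=
  certB0 (fam := false) (s1 := false) (s2 := false) (a := 3) (b := 0) (c := 3) (cn := .npn) (n1 := ndB1q3) (n2 := ndB3q3) (pc := pcB0) (cut := Cut.none) (xt := Ext.none) (P1 := 1610612736) (W1 := 536870912) (P2 := 1610612736) (W2 := 536870912) (P3 := 697932185) (W3 := 42949674) (N0 := 3) (En := eng) (mo := mog) (C1 := cd1q3) (C2 := cd3q3) (C3 := pd0)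
    rfl k0_mm_303

noncomputable def f_mm_313 : ℕ → ℕ → ℕ → ℕ → Bool := onCell 1610612736 536870912 1610612736 536870912 697932185 42949674
    (rowB 3 eng mog cd1q3 cd3q3 pd1 0 false false false .dn 3 1 3 (qsf 1610612736 536870912 1610612736 536870912 1) ndB1q3 ndB3q3 pcB1 Cut.none Ext.none)

def k0_mm_313 : ∃ t, chk3 f_mm_313 t 1 1 1 = true :=
  ⟨(l 3), by decide +kernel⟩

theorem c_mm_313 : CertB 1610612736 536870912 1610612736 536870912 697932185 42949674 3 eng mog cd1q3 cd3q3 pd1 false false false .dn 3 1 3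
    ndB1q3 ndB3q3 pcB1 Cut.none Ext.none :=
  certB0 (fam := false) (s1 := false) (s2 := false) (a := 3) (b := 1) (c := 3) (cn := .dn) (n1 := ndB1q3) (n2 := ndB3q3) (pc := pcB1) (cut := Cut.none) (xt := Ext.none) (P1 := 1610612736) (W1 := 536870912) (P2 := 1610612736) (W2 := 536870912) (P3 := 697932185) (W3 := 42949674) (N0 := 3) (En := eng) (mo := mog) (C1 := cd1q3) (C2 := cd3q3) (C3 := pd1)
    rfl k0_mm_313

end Pool.Agent.Strip051.G.I6500_6900.Tab.C.BB13

namespace Pool.Agent.Strip051.G.I6500_6900.Tab.C.BB14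

open Pool.Agent.Strip051.PB Pool.Agent.Strip051.PB.T
open Pool.Agent.Strip051.G.I6500_6900.Tab

noncomputable def f_pp_001 : ℕ → ℕ → ℕ → ℕ → Bool := onCell 0 536870912 0 536870912 697932185 42949674
    (rowB 3 eng mog cd1q0 cd4q1 pd0 1 false true true .up 0 0 1 (qsf 0 536870912 536870912 536870912 0) ndB1q0 ndB4q1 pcB0 Cut.none Ext.none)

def k0_pp_001 : ∃ t, chk3 f_pp_001 t 1 1 1 = true :=
  ⟨(l 3), by decide +kernel⟩

theorem c_pp_001 : CertB 0 536870912 536870912 536870912 697932185 42949674 3 eng mog cd1q0 cd4q1 pd0 false true true .up 0 0 1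
    ndB1q0 ndB4q1 pcB0 Cut.none Ext.none :=
  certB1 (fam := false) (s1 := true) (s2 := true) (a := 0) (b := 0) (c := 1) (cn := .up) (n1 := ndB1q0) (n2 := ndB4q1) (pc := pcB0) (cut := Cut.none) (xt := Ext.none) (P1 := 0) (W1 := 536870912) (P2 := 536870912) (W2 := 536870912) (P3 := 697932185) (W3 := 42949674) (N0 := 3) (En := eng) (mo := mog) (C1 := cd1q0) (C2 := cd4q1) (C3 := pd0)
    rfl (fun _ => rfl) k0_pp_001

noncomputable def f_pp_011 : ℕ → ℕ → ℕ → ℕ → Bool := onCell 0 536870912 536870912 536870912 697932185 42949674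
    (rowB 3 eng mog cd1q0 cd4q1 pd1 0 false true true .pnn 0 1 1 (qsf 0 536870912 536870912 536870912 1) ndB1q0 ndB4q1 pcB1 Cut.none Ext.none)

def k0_pp_011 : ∃ t, chk3 f_pp_011 t 1 1 1 = true :=
  ⟨(a (l 3) (l 3)), by decide +kernel⟩

theorem c_pp_011 : CertB 0 536870912 536870912 536870912 697932185 42949674 3 eng mog cd1q0 cd4q1 pd1 false true true .pnn 0 1 1
    ndB1q0 ndB4q1 pcB1 Cut.none Ext.none :=
  certB0 (fam := false) (s1 := true) (s2 := true) (a := 0) (b := 1) (c := 1) (cn := .pnn) (n1 := ndB1q0) (n2 := ndB4q1) (pc := pcB1) (cut := Cut.none) (xt := Ext.none) (P1 := 0) (W1 := 536870912) (P2 := 536870912) (W2 := 536870912) (P3 := 697932185) (W3 := 42949674) (N0 := 3) (En := eng) (mo := mog) (C1 := cd1q0) (C2 := cd4q1) (C3 := pd1)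
    rfl k0_pp_011

noncomputable def cut_pp_012_a : Cut := Cut.of [[⟨0, 0, 0, 67108864⟩, ⟨1, 1, 0, 67108864⟩, ⟨2, 1, 0, 67108864⟩]]

noncomputable def f_pp_012_a : ℕ → ℕ → ℕ → ℕ → Bool := onCell 536870912 536870912 0 536870912 697932185 42949674
    (rowB 3 eng mog cd1q0 cd4q2a pd1 2 false true true .pnp 0 1 2 (qsf 0 536870912 0 536870912 1) ndB1q0 ndB4q2a pcB1 cut_pp_012_a Ext.none)

def k0_pp_012_a : ∃ t, chk3 f_pp_012_a t 1 1 1 = true :=
  ⟨(a (l 3) (a (l 3) (a (l 3) (a (b (b (a (b (l 16641392) (l 3)) (b (l 16623248) (l 16627144))) (a (l 3) (b (l 38822281463) (b (l 16648784) (l 3))))) (l 3)) (b (b (a (b (l 16607032) (l 16610064)) (b (l 16591992) (l 16594304))) (a (b (l 16619464) (b (l 16630584) (l 16661576))) (b (l 16603360) (a (l 16623640) (l 16615736))))) (b (a (a (b (b (l 16656960) (l 16671504)) (l 3)) (b (b (l 16648592) (l 16662960)) (b (l 16680016) (b (l 16694072) (l 16703320))))) (b (b (l 16636816) (a (l 16655256) (l 16647584))) (a (b (l 16671928)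 (l 16688848)) (b (l 16663128) (l 16679080))))) (b (a (b (a (l 3) (b (l 16712544) (l 3))) (l 3)) (b (a (b (l 16702024) (l 16711680)) (a (l 16699560) (l 16694680))) (a (a (b (l 16724656) (l 3)) (b (l 16719408) (l 6))) (a (b (l 16714576) (l 6)) (l 6))))) (a (l 3) (l 6))))))))), by decide +kernel⟩

theorem c_pp_012_a : CertB 0 536870912 0 536870912 697932185 42949674 3 eng mog cd1q0 cd4q2a pd1 false true true .pnp 0 1 2
    ndB1q0 ndB4q2a pcB1 cut_pp_012_a Ext.none :=
  certB2 (fam := false) (s1 := true) (s2 := true) (a := 0) (b := 1) (c := 2) (cn := .pnp) (n1 := ndB1q0) (n2 := ndB4q2a) (pc := pcB1) (cut := cut_pp_012_a) (xt := Ext.none) (P1 := 0) (W1 := 536870912) (P2 := 0) (W2 := 536870912) (P3 := 697932185) (W3 := 42949674) (N0 := 3) (En := eng) (mo := mog) (C1 := cd1q0) (C2 := cd4q2a) (C3 := pd1)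
    rfl (fun _ => rfl) k0_pp_012_a

noncomputable def cut_pp_012_b : Cut := Cut.of [[⟨0, 0, 0, 67108864⟩, ⟨1, 1, 0, 67108864⟩, ⟨2, 1, 0, 67108864⟩]]

noncomputable def f_pp_012_b : ℕ → ℕ → ℕ → ℕ → Bool := onCell 536870912 536870912 1239849684 370763052 697932185 42949674
    (rowB 3 eng mog cd1q0 cd4q2b pd1 2 false true true .pnp 0 1 2 (qsf 0 536870912 1239849684 370763052 1) ndB1q0 ndB4q2b pcB1 cut_pp_012_b Ext.none)

def k0_pp_012_b : ∃ t, chk3 f_pp_012_b t 1 1 1 = true :=
  ⟨(a (l 3) (a (l 3) (a (b (l 3) (l 3)) (b (a (a (a (l 3) (b (b (l 16629872) (l 16558072)) (b (l 16514304) (l 16478192)))) (b (b (b (l 16610192) (l 16583544)) (l 16544800)) (b (l 16583192) (l 16461496)))) (b (a (b (b (l 16594584) (l 16568544)) (l 16528672)) (b (l 16608688) (l 16513832))) (b (a (l 16480688) (l 16463432)) (a (l 16440320) (l 16420208))))) (b (a (b (a (l 16455360) (l 16430824)) (a (l 16432752) (l 16406496))) (b (l 16396368) (l 16369328))) (a (b (l 16402208) (l 16392120))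 (b (l 16348776) (l 16335544)))))))), by decide +kernel⟩

theorem c_pp_012_b : CertB 0 536870912 1239849684 370763052 697932185 42949674 3 eng mog cd1q0 cd4q2b pd1 false true true .pnp 0 1 2
    ndB1q0 ndB4q2b pcB1 cut_pp_012_b Ext.none :=
  certB2 (fam := false) (s1 := true) (s2 := true) (a := 0) (b := 1) (c := 2) (cn := .pnp) (n1 := ndB1q0) (n2 := ndB4q2b) (pc := pcB1) (cut := cut_pp_012_b) (xt := Ext.none) (P1 := 0) (W1 := 536870912) (P2 := 1239849684) (W2 := 370763052) (P3 := 697932185) (W3 := 42949674) (N0 := 3) (En := eng) (mo := mog) (C1 := cd1q0) (C2 := cd4q2b) (C3 := pd1)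
    rfl (fun _ => rfl) k0_pp_012_b

noncomputable def cut_pp_022_a : Cut := Cut.of [[⟨0, 0, 0, 67108864⟩, ⟨1, 1, 0, 67108864⟩, ⟨2, 1, 0, 67108864⟩]]

noncomputable def f_pp_022_a : ℕ → ℕ → ℕ → ℕ → Bool := onCell 1073741824 536870912 0 536870912 697932185 42949674
    (rowB 3 eng mog cd1q0 cd4q2a pd2 2 false true true .pp 0 2 2 (qsf 0 536870912 0 536870912 2) ndB1q0 ndB4q2a pcB2 cut_pp_022_a Ext.none)

def k0_pp_022_a : ∃ t, chk3 f_pp_022_a t 2 2 1 = true :=
  ⟨(a (a (a (b (a (b (l 16581168) (l 16583704)) (l 16585608)) (b (a (l 16593256) (l 16596128)) (a (l 16610304) (l 16612720)))) (b (b (l 16511280) (l 16562920)) (b (l 16617152) (a (l 16602280) (l 16578160))))) (b (a (b (l 16506440) (l 16515424)) (a (l 16515776) (b (l 16443728) (l 16450520)))) (a (b (l 16589384) (a (l 16552536) (l 16525376))) (b (a (l 16486744) (a (l 16465544) (l 16450840))) (a (b (l 16494096) (l 16499096)) (b (a (l 16471864) (l 16456424)) (a (l 16476016) (l 125660754823)))))))) (a (a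 (a (b (b (l 16415800) (a (l 16429096) (l 16414096))) (b (a (b (l 16433968) (l 16437264)) (b (l 16418392) (l 112775779783))) (b (a (l 16461408) (l 81100401847)) (a (l 75731729255) (l 1))))) (b (a (b (l 16414392) (b (l 16397088) (l 132103099799))) (a (b (c (l 16391960) (l 16370088)) (b (l 16384624) (l 96669595703))) (b (b (a (l 16373456) (a (a (a (l 16370560) (a (l 16369832) (l 16369144))) (l 16368536)) (l 1))) (a (l 16375536) (l 1))) (a (c (l 110628237575) (l 16367280)) (l 1))))) (a (b (b (l 121902555687) (l 83784725127)) (l 1)) (l 1)))) (b (b (l 1) (l 1)) (l 1))) (l 1))), by decide +kernel⟩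

def k1_pp_022_a : ∃ t, chk3 f_pp_022_a t 2 3 1 = true :=
  ⟨(a (a (a (b (a (b (b (l 16627896) (l 16662448)) (b (l 16655992) (a (l 16672176) (l 16672176)))) (b (l 16634984) (b (l 16655216) (l 16671560)))) (b (b (a (a (l 16711664) (l 16690744)) (a (l 16690456) (l 16679120))) (l 6)) (l 6))) (b (b (a (l 16621216) (b (l 16590576) (l 16599224))) (a (b (l 16636224) (a (l 16653648) (l 16639104))) (b (l 16607904) (a (l 16624144) (l 16608768))))) (b (b (a (a (b (l 16661536) (l 16666760)) (b (l 16646336) (l 16651096))) (a (b (l 16630720) (a (l 16639072) (l 16630928))) (b (l 16614680) (a (l 16622672) (l 16614296))))) (a (l 6) (a (l 6) (a (l 6) (l 1))))) (a (l 6) (l 1))))) (b (b (a (a (b (l 16563328) (l 16570688)) (b (l 16534496) (a (l 16548240) (l 16532728)))) (a (b (a (l 16511816) (l 16496112)) (a (l 138545767543) (l 91301096247))) (b (a (l 115460245735) (l 58551898023)) (l 1)))) (a (a (b (a (l 16585576) (l 16570168)) (a (b (l 16591136) (l 16594712)) (b (l 16575104)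 (l 91838107991)))) (b (a (b (l 16552832) (l 16555792)) (l 114923488615)) (a (b (l 16579616) (l 1)) (l 1)))) (a (b (a (l 59625752839) (l 1)) (l 1)) (l 1)))) (b (a (b (a (b (a (l 93985630199) (l 16581232)) (a (l 16601496) (l 1))) (l 1)) (l 1)) (l 1)) (l 1)))) (b (l 1) (l 1))), by decide +kernel⟩

def k2_pp_022_a : ∃ t, chk3 f_pp_022_a t 3 1 1 = true :=
  ⟨(l 1), by decide +kernel⟩

theorem s3_pp_022_a : ∃ t, chk3 f_pp_022_a t 2 1 1 = true := ex3_b k0_pp_022_a k1_pp_022_a

theorem s4_pp_022_a : ∃ t, chk3 f_pp_022_a t 1 1 1 = true := ex3_a s3_pp_022_a k2_pp_022_a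

theorem c_pp_022_a : CertB 0 536870912 0 536870912 697932185 42949674 3 eng mog cd1q0 cd4q2a pd2 false true true .pp 0 2 2
    ndB1q0 ndB4q2a pcB2 cut_pp_022_a Ext.none :=
  certB2 (fam := false) (s1 := true) (s2 := true) (a := 0) (b := 2) (c := 2) (cn := .pp) (n1 := ndB1q0) (n2 := ndB4q2a) (pc := pcB2) (cut := cut_pp_022_a) (xt := Ext.none) (P1 := 0) (W1 := 536870912) (P2 := 0) (W2 := 536870912) (P3 := 697932185) (W3 := 42949674) (N0 := 3) (En := eng) (mo := mog) (C1 := cd1q0) (C2 := cd4q2a) (C3 := pd2)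
    rfl (fun _ => rfl) s4_pp_022_a

end Pool.Agent.Strip051.G.I6500_6900.Tab.C.BB14

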