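import Pool.Agent.Strip051.G.I6500_6900.Tab

/-! # Certificates B29 (generated) -/

set_option linter.all false
set_option maxRecDepth 100000

namespace Pool.Agent.Strip051.G.I6500_6900.Tab.C.BB14

open Pool.Agent.Strip051.PB Pool.Agent.Strip051.PB.T
open Pool.Agent.Strip051.G.I6500_6900.Tab

noncomputable def cut_pp_022_b : Cut := Cut.of [[⟨0, 0, 0, 67108864⟩, ⟨1, 1, 0, 67108864⟩, ⟨2, 1, 0, 67108864⟩]]

noncomputable def f_pp_022_b : ℕ → ℕ → ℕ → ℕ → Bool := onCell 0 536870912 1073741824 536870912 697932185 42949674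
    (rowB 3 eng mog cd1q0 cd4q2b pd2 1 false true true .pp 0 2 2 (qsf 0 536870912 1239849684 370763052 2) ndB1q0 ndB4q2b pcB2 cut_pp_022_b Ext.none)

def k0_pp_022_b : ∃ t, chk3 f_pp_022_b t 2 4 1 = true :=
  ⟨(a (a (b (l 1) (b (a (l 1) (b (l 1) (l 109017916919))) (a (a (l 1) (b (l 1) (l 16491832))) (b (l 125660830103) (l 16476664))))) (a (b (b (l 1) (b (l 1) (l 66605207895))) (b (b (l 16519976) (l 16483256)) (b (l 16448048) (l 16414304)))) (b (b (b (l 1) (l 16625576)) (b (l 16566464) (l 16529720))) (b (b (l 16494416) (l 16460536)) (l 16433272))))) (b (a (b (b (a (l 16589784) (l 16551176)) (l 16574440)) (a (l 16523376) (l 16497192))) (b (a (l 16505640) (l 16572496)) (l 16535264))) (a (b (a (l 16458640) (l 16438184)) (a (l 16399040) (l 16383976))) (b (l 16405472) (l 16358120))))), by decide +kernel⟩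

def k1_pp_022_b : ∃ t, chk3 f_pp_022_b t 2 5 1 = true :=
  ⟨(a (b (a (b (b (a (a (c (l 171294734119) (l 165389130471)) (l 16433352)) (l 16420496)) (a (b (a (l 183105849175) (l 16385056)) (b (a (l 190085142327) (l 16371328)) (b (a (a (l 16371552) (l 16368608)) (l 16364072)) (a (b (a (b (b (l 16368320) (b (l 16367560) (l 16366848))) (l 16366152)) (l 16384984)) (l 16363152)) (l 16358720))))) (b (l 16373968) (b (l 16361240) (b (l 16354624) (l 16349848)))))) (a (a (c (b (b (l 16365288) (l 16390576)) (l 16321376)) (b (b (l 16340800) (l 16323352)) (l 16294288))) (b (l 16360984) (l 16305248))) (b (l 16332312) (l 16300296)))) (b (b (a (l 16381944) (l 16367208)) (b (a (l 16358552) (l 16345792)) (b (l 16362440) (a (l 16338936) (l 16328568))))) (a (b (l 16320976) (l 16292536)) (l 16383480)))) (a (a (c (b (a (b (l 16286496) (l 16254592)) (l 16269968)) (a (b (l 16225640) (l 16199608)) (l 16215960))) (b (a (b (l 16256720) (l 16222048)) (l 16239832)) (a (b (l 16190224)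 (l 16161224)) (l 16180032)))) (b (a (l 16255008) (l 16254568)) (l 16203920))) (a (b (l 16253600) (l 16210264)) (l 16235424)))) (b (b (a (b (l 16352552) (b (l 16333992) (b (l 16325160) (l 16320096)))) (b (l 16324392) (b (l 16308440) (l 16300928)))) (a (b (l 16305336) (l 16285424)) (l 16277376))) (a (b (l 16261608) (l 16236296)) (a (l 16252088) (l 16254128))))), by decide +kernel⟩

def k2_pp_022_b : ∃ t, chk3 f_pp_022_b t 3 2 1 = true :=
  ⟨(b (a (b (a (b (a (l 16432112) (l 16400600)) (l 16387344)) (b (a (l 16373632) (l 16350600)) (l 16339504))) (a (b (l 16353768) (l 16315088)) (b (l 16334016) (l 16282368)))) (b (a (b (l 16343240) (l 16304760)) (b (l 16297608) (l 16285104))) (a (b (l 16283704) (l 16259360)) (l 16303608)))) (a (b (b (b (l 16393968) (a (l 16266592) (l 16243296))) (a (l 16240744) (l 16217072))) (a (l 16245104) (l 16193784))) (b (b (b (l 16236360) (l 2)) (l 2)) (l 2)))), by decide +kernel⟩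

def k3_pp_022_b : ∃ t, chk3 f_pp_022_b t 1 3 1 = true :=
  ⟨(a (b (a (a (b (a (b (a (b (l 16176872) (l 16134240)) (l 16152552)) (a (b (l 16115408) (l 16099096)) (l 16117624))) (b (l 16163440) (l 16132688))) (a (b (a (b (l 16085288) (l 16073968)) (l 16092488)) (a (b (l 16065136) (l 16058800)) (l 16077088))) (b (l 16111288) (l 16099304)))) (b (a (b (l 16176176) (l 16150928)) (l 16179624)) (a (l 16150576) (l 16157008)))) (a (b (l 16358528) (l 16204920)) (b (l 16245616) (l 16260408)))) (a (a (b (a (b (a (b (l 16055024) (l 16053864)) (l 16071640)) (a (b (l 16055288) (l 16059296)) (l 16076288))) (b (l 16096944) (l 16104272))) (a (b (a (b (l 16065880) (l 16075048)) (l 16090984)) (a (b (l 16086632) (l 16100592)) (l 16115392))) (b (l 16120928) (l 16146512)))) (b (a (l 16133008) (l 16167936)) (a (l 16172168) (l 2)))) (b (a (l 16228376) (l 2)) (l 2)))) (b (a (b (a (l 16269488) (l 2)) (l 2)) (l 2)) (l 2))), by decide +kernel⟩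

theorem s4_pp_022_b : ∃ t, chk3 f_pp_022_b t 2 2 1 = true := ex3_b k0_pp_022_b k1_pp_022_b

theorem s5_pp_022_b : ∃ t, chk3 f_pp_022_b t 1 2 1 = true := ex3_a s4_pp_022_b k2_pp_022_b

theorem s6_pp_022_b : ∃ t, chk3 f_pp_022_b t 1 1 1 = true := ex3_b s5_pp_022_b k3_pp_022_b

theorem c_pp_022_b : CertB 0 536870912 1239849684 370763052 697932185 42949674 3 eng mog cd1q0 cd4q2b pd2 false true true .pp 0 2 2
    ndB1q0 ndB4q2b pcB2 cut_pp_022_b Ext.none :=
  certB1 (fam := false) (s1 := true) (s2 := true) (a := 0) (b := 2) (c := 2) (cn := .pp) (n1 := ndB1q0) (n2 := ndB4q2b) (pc := pcB2) (cut := cut_pp_022_b) (xt := Ext.none) (P1 := 0) (W1 := 536870912) (P2 := 1239849684) (W2 := 370763052) (P3 := 697932185) (W3 := 42949674) (N0 := 3) (En := eng) (mo := mog) (C1 := cd1q0) (C2 := cd4q2b) (C3 := pd2)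
    rfl (fun _ => rfl) s6_pp_022_b

noncomputable def f_pp_023 : ℕ → ℕ → ℕ → ℕ → Bool := onCell 1073741824 536870912 1610612736 536870912 697932185 42949674
    (rowB 3 eng mog cd1q0 cd4q3 pd2 2 false true true .up 0 2 3 (qsf 0 536870912 1610612736 536870912 2) ndB1q0 ndB4q3 pcB2 Cut.none Ext.none)

def k0_pp_023 : ∃ t, chk3 f_pp_023 t 1 1 1 = true :=
  ⟨(a (a (b (b (a (b (l 16333024) (l 16362392)) (b (l 16285872) (l 16320120))) (a (l 2) (b (l 16379640) (l 2)))) (l 2)) (b (b (a (a (a (l 16270944) (l 16473032)) (l 16245936)) (b (l 16204120) (l 16252992))) (a (a (b (l 16336480) (l 2)) (b (l 16305056) (l 16370688))) (b (l 16303072) (l 16367088)))) (b (a (l 2) (b (l 16470880) (l 2))) (l 2)))) (b (a (b (a (b (l 16254128) (l 16217184)) (b (l 16229416) (l 16262232))) (a (b (l 16266288) (l 16350520)) (b (l 16248512) (l 16322224)))) (b (b (a (a (l 16193920) (l 16168912)) (b (a (l 16130488) (l 16112224)) (l 16152816))) (a (l 16242664) (l 16203152))) (b (a (l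 16288128) (l 16269808)) (l 16317912)))) (a (b (b (a (l 16475400) (l 16459304)) (l 257798750167)) (l 475231465351)) (b (b (l 16422912) (l 16535120)) (b (l 16596472) (l 16621440)))))), by decide +kernel⟩

theorem c_pp_023 : CertB 0 536870912 1610612736 536870912 697932185 42949674 3 eng mog cd1q0 cd4q3 pd2 false true true .up 0 2 3
    ndB1q0 ndB4q3 pcB2 Cut.none Ext.none :=
  certB2 (fam := false) (s1 := true) (s2 := true) (a := 0) (b := 2) (c := 3) (cn := .up) (n1 := ndB1q0) (n2 := ndB4q3) (pc := pcB2) (cut := Cut.none) (xt := Ext.none) (P1 := 0) (W1 := 536870912) (P2 := 1610612736) (W2 := 536870912) (P3 := 697932185) (W3 := 42949674) (N0 := 3) (En := eng) (mo := mog) (C1 := cd1q0) (C2 := cd4q3) (C3 := pd2)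
    rfl (fun _ => rfl) k0_pp_023

noncomputable def f_pp_033 : ℕ → ℕ → ℕ → ℕ → Bool := onCell 0 536870912 1610612736 536870912 697932185 42949674
    (rowB 3 eng mog cd1q0 cd4q3 pd3 1 false true true .pnn 0 3 3 (qsf 0 536870912 1610612736 536870912 3) ndB1q0 ndB4q3 pcB3 Cut.none Ext.none)

def k0_pp_033 : ∃ t, chk3 f_pp_033 t 1 1 1 = true :=
  ⟨(a (b (b (a (b (a (b (a (l 16128704) (l 16159112)) (l 16113928)) (l 16185656)) (a (b (l 16074968) (l 16042104)) (b (l 16130336) (l 16099336)))) (b (a (l 16250032) (l 16301872)) (a (l 16180672) (l 16279656)))) (b (a (b (a (a (l 16012400) (l 16051664)) (l 16095560)) (a (l 16036496) (l 16092832))) (a (l 16185224) (l 16311744))) (a (a (b (l 16039096) (l 16046640)) (b (l 16103616) (l 16125968))) (a (l 16279736) (l 16365272))))) (a (b (b (a (b (l 16064376) (l 16083656)) (b (l 16154728) (l 4))) (l 4)) (l 4)) (b (b (l 4) (l 4)) (a (b (l 4) (l 2)) (l 2))))) (b (a (b (b (a (l 16396536) (l 16505528)) (a (l 16402696) (l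 16508640))) (b (l 16507472) (l 16550328))) (b (b (a (l 16582064) (l 16623232)) (l 16705360)) (a (b (l 16648624) (l 2)) (l 2)))) (a (b (a (b (l 4) (l 2)) (l 2)) (l 2)) (l 2)))), by decide +kernel⟩

theorem c_pp_033 : CertB 0 536870912 1610612736 536870912 697932185 42949674 3 eng mog cd1q0 cd4q3 pd3 false true true .pnn 0 3 3
    ndB1q0 ndB4q3 pcB3 Cut.none Ext.none :=
  certB1 (fam := false) (s1 := true) (s2 := true) (a := 0) (b := 3) (c := 3) (cn := .pnn) (n1 := ndB1q0) (n2 := ndB4q3) (pc := pcB3) (cut := Cut.none) (xt := Ext.none) (P1 := 0) (W1 := 536870912) (P2 := 1610612736) (W2 := 536870912) (P3 := 697932185) (W3 := 42949674) (N0 := 3) (En := eng) (mo := mog) (C1 := cd1q0) (C2 := cd4q3) (C3 := pd3)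
    rfl (fun _ => rfl) k0_pp_033

noncomputable def f_pp_101 : ℕ → ℕ → ℕ → ℕ → Bool := onCell 536870912 536870912 536870912 536870912 697932185 42949674
    (rowB 3 eng mog cd1q1 cd4q1 pd0 0 false true true .npn 1 0 1 (qsf 536870912 536870912 536870912 536870912 0) ndB1q1 ndB4q1 pcB0 Cut.none Ext.none)

def k0_pp_101 : ∃ t, chk3 f_pp_101 t 1 1 1 = true :=
  ⟨(l 3), by decide +kernel⟩

theorem c_pp_101 : CertB 536870912 536870912 536870912 536870912 697932185 42949674 3 eng mog cd1q1 cd4q1 pd0 false true true .npn 1 0 1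
    ndB1q1 ndB4q1 pcB0 Cut.none Ext.none :=
  certB0 (fam := false) (s1 := true) (s2 := true) (a := 1) (b := 0) (c := 1) (cn := .npn) (n1 := ndB1q1) (n2 := ndB4q1) (pc := pcB0) (cut := Cut.none) (xt := Ext.none) (P1 := 536870912) (W1 := 536870912) (P2 := 536870912) (W2 := 536870912) (P3 := 697932185) (W3 := 42949674) (N0 := 3) (En := eng) (mo := mog) (C1 := cd1q1) (C2 := cd4q1) (C3 := pd0)
    rfl k0_pp_101

noncomputable def f_pp_102_a : ℕ → ℕ → ℕ → ℕ → Bool := onCell 536870912 536870912 0 536870912 697932185 42949674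
    (rowB 3 eng mog cd1q1 cd4q2a pd0 0 false true true .npp 1 0 2 (qsf 536870912 536870912 0 536870912 0) ndB1q1 ndB4q2a pcB0 Cut.none Ext.none)

def k0_pp_102_a : ∃ t, chk3 f_pp_102_a t 1 1 1 = true :=
  ⟨(l 3), by decide +kernel⟩

theorem c_pp_102_a : CertB 536870912 536870912 0 536870912 697932185 42949674 3 eng mog cd1q1 cd4q2a pd0 false true true .npp 1 0 2
    ndB1q1 ndB4q2a pcB0 Cut.none Ext.none :=
  certB0 (fam := false) (s1 := true) (s2 := true) (a := 1) (b := 0) (c := 2) (cn := .npp) (n1 := ndB1q1) (n2 := ndB4q2a) (pc := pcB0) (cut := Cut.none) (xt := Ext.none) (P1 := 536870912) (W1 := 536870912) (P2 := 0) (W2 := 536870912) (P3 := 697932185) (W3 := 42949674) (N0 := 3) (En := eng) (mo := mog) (C1 := cd1q1) (C2 := cd4q2a) (C3 := pd0)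
    rfl k0_pp_102_a

noncomputable def f_pp_102_b : ℕ → ℕ → ℕ → ℕ → Bool := onCell 536870912 536870912 0 536870912 697932185 42949674
    (rowB 3 eng mog cd1q1 cd4q2b pd0 1 false true true .npp 1 0 2 (qsf 536870912 536870912 1239849684 370763052 0) ndB1q1 ndB4q2b pcB0 Cut.none Ext.none)

def k0_pp_102_b : ∃ t, chk3 f_pp_102_b t 1 1 1 = true :=
  ⟨(l 3), by decide +kernel⟩

theorem c_pp_102_b : CertB 536870912 536870912 1239849684 370763052 697932185 42949674 3 eng mog cd1q1 cd4q2b pd0 false true true .npp 1 0 2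
    ndB1q1 ndB4q2b pcB0 Cut.none Ext.none :=
  certB1 (fam := false) (s1 := true) (s2 := true) (a := 1) (b := 0) (c := 2) (cn := .npp) (n1 := ndB1q1) (n2 := ndB4q2b) (pc := pcB0) (cut := Cut.none) (xt := Ext.none) (P1 := 536870912) (W1 := 536870912) (P2 := 1239849684) (W2 := 370763052) (P3 := 697932185) (W3 := 42949674) (N0 := 3) (En := eng) (mo := mog) (C1 := cd1q1) (C2 := cd4q2b) (C3 := pd0)
    rfl (fun _ => rfl) k0_pp_102_b

noncomputable def f_pp_112_a : ℕ → ℕ → ℕ → ℕ → Bool := onCell 536870912 536870912 0 536870912 697932185 42949674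
    (rowB 3 eng mog cd1q1 cd4q2a pd1 0 false true true .dn 1 1 2 (qsf 536870912 536870912 0 536870912 1) ndB1q1 ndB4q2a pcB1 Cut.none Ext.none)

def k0_pp_112_a : ∃ t, chk3 f_pp_112_a t 1 1 1 = true :=
  ⟨(l 3), by decide +kernel⟩

theorem c_pp_112_a : CertB 536870912 536870912 0 536870912 697932185 42949674 3 eng mog cd1q1 cd4q2a pd1 false true true .dn 1 1 2
    ndB1q1 ndB4q2a pcB1 Cut.none Ext.none :=
  certB0 (fam := false) (s1 := true) (s2 := true) (a := 1) (b := 1) (c := 2) (cn := .dn) (n1 := ndB1q1) (n2 := ndB4q2a) (pc := pcB1) (cut := Cut.none) (xt := Ext.none) (P1 := 536870912) (W1 := 536870912) (P2 := 0) (W2 := 536870912) (P3 := 697932185) (W3 := 42949674) (N0 := 3) (En := eng) (mo := mog) (C1 := cd1q1) (C2 := cd4q2a) (C3 := pd1)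
    rfl k0_pp_112_a

noncomputable def f_pp_112_b : ℕ → ℕ → ℕ → ℕ → Bool := onCell 536870912 536870912 1239849684 370763052 697932185 42949674
    (rowB 3 eng mog cd1q1 cd4q2b pd1 2 false true true .dn 1 1 2 (qsf 536870912 536870912 1239849684 370763052 1) ndB1q1 ndB4q2b pcB1 Cut.none Ext.none)

def k0_pp_112_b : ∃ t, chk3 f_pp_112_b t 1 1 1 = true :=
  ⟨(a (l 3) (a (l 3) (b (l 1) (a (l 3) (b (l 1) (a (b (a (l 16425464) (l 16399672)) (a (l 16416256) (l 16387344))) (b (l 1) (l 16347456)))))))), by decide +kernel⟩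

theorem c_pp_112_b : CertB 536870912 536870912 1239849684 370763052 697932185 42949674 3 eng mog cd1q1 cd4q2b pd1 false true true .dn 1 1 2
    ndB1q1 ndB4q2b pcB1 Cut.none Ext.none :=
  certB2 (fam := false) (s1 := true) (s2 := true) (a := 1) (b := 1) (c := 2) (cn := .dn) (n1 := ndB1q1) (n2 := ndB4q2b) (pc := pcB1) (cut := Cut.none) (xt := Ext.none) (P1 := 536870912) (W1 := 536870912) (P2 := 1239849684) (W2 := 370763052) (P3 := 697932185) (W3 := 42949674) (N0 := 3) (En := eng) (mo := mog) (C1 := cd1q1) (C2 := cd4q2b) (C3 := pd1)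
    rfl (fun _ => rfl) k0_pp_112_b

noncomputable def f_pp_113 : ℕ → ℕ → ℕ → ℕ → Bool := onCell 536870912 536870912 536870912 536870912 697932185 42949674
    (rowB 3 eng mog cd1q1 cd4q3 pd1 1 false true true .nn 1 1 3 (qsf 536870912 536870912 1610612736 536870912 1) ndB1q1 ndB4q3 pcB1 Cut.none Ext.none)

def k0_pp_113 : ∃ t, chk3 f_pp_113 t 1 1 1 = true :=
  ⟨(b (l 3) (b (a (l 3) (l 3)) (a (b (a (l 3) (l 3)) (a (b (a (b (l 16416336) (l 16393704)) (a (l 16442496) (l 16489584))) (a (l 16403456) (l 16435720))) (a (b (b (l 16603984) (l 16602736)) (c (l 16635272) (l 16560640))) (b (a (b (l 16771848) (l 16754232)) (b (l 149954650567) (l 16790208))) (a (b (l 16724664) (l 16704552)) (l 16710208)))))) (b (a (l 3) (l 3)) (a (b (a (a (b (l 173577046007) (l 16848552)) (b (l 176798469159) (l 16899504))) (a (a (l 177872243527) (l 208473727287)) (a (l 217600404711) (l 226190213527)))) (a (a (l 16808984) (l 16872080)) (a (l 16912456) (l 16746584)))) (b (b (a (l 3)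 (l 3)) (a (a (c (l 16886400) (l 16816544)) (l 339470134055)) (a (l 16608496) (l 267529102103)))) (a (b (a (l 16887120) (l 16837792)) (l 16885192)) (a (l 16597960) (b (l 16767464) (l 16783984)))))))))), by decide +kernel⟩

theorem c_pp_113 : CertB 536870912 536870912 1610612736 536870912 697932185 42949674 3 eng mog cd1q1 cd4q3 pd1 false true true .nn 1 1 3
    ndB1q1 ndB4q3 pcB1 Cut.none Ext.none :=
  certB1 (fam := false) (s1 := true) (s2 := true) (a := 1) (b := 1) (c := 3) (cn := .nn) (n1 := ndB1q1) (n2 := ndB4q3) (pc := pcB1) (cut := Cut.none) (xt := Ext.none) (P1 := 536870912) (W1 := 536870912) (P2 := 1610612736) (W2 := 536870912) (P3 := 697932185) (W3 := 42949674) (N0 := 3) (En := eng) (mo := mog) (C1 := cd1q1) (C2 := cd4q3) (C3 := pd1)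
    rfl (fun _ => rfl) k0_pp_113

noncomputable def f_pp_123 : ℕ → ℕ → ℕ → ℕ → Bool := onCell 1073741824 536870912 1610612736 536870912 697932185 42949674
    (rowB 3 eng mog cd1q1 cd4q3 pd2 2 false true true .npn 1 2 3 (qsf 536870912 536870912 1610612736 536870912 2) ndB1q1 ndB4q3 pcB2 Cut.none Ext.none)

def k0_pp_123 : ∃ t, chk3 f_pp_123 t 1 1 1 = true :=
  ⟨(a (a (b (b (a (b (a (l 16329376) (l 16324560)) (a (l 16397360) (l 16368392))) (b (l 16323960) (l 16339664))) (a (b (a (l 16545288) (l 16475584)) (b (l 16620192) (l 16692552))) (b (l 16402656) (l 16528640)))) (b (a (b (a (l 16737624) (l 16739728)) (b (l 16819504) (l 16833200))) (b (l 16646688) (l 16704296))) (a (b (a (l 16848768) (l 16790472)) (a (l 16793088) (l 16744232))) (b (l 16693632) (l 16651296))))) (b (b (a (a (a (l 16319856) (l 1)) (l 1)) (l 1)) (a (b (a (l 16356376) (l 16333896)) (a (l 16441296) (l 16392752))) (b (l 16363408) (l 16393784)))) (b (a (a (b (l 16559120) (l 16615248)) (b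 (l 16505688) (l 16561328))) (b (l 16494416) (l 16554248))) (a (b (a (l 16600280) (l 16549328)) (a (a (l 16581064) (l 16552128)) (l 16520760))) (b (l 16556360) (l 16539376)))))) (b (a (b (l 1) (a (l 177737562839) (l 1))) (l 1)) (a (b (a (b (l 16499776) (l 16562240)) (l 233571437063)) (b (a (l 16576592) (l 16588656)) (l 16579632))) (b (l 358663449687) (a (l 16401624) (l 16640432)))))), by decide +kernel⟩

theorem c_pp_123 : CertB 536870912 536870912 1610612736 536870912 697932185 42949674 3 eng mog cd1q1 cd4q3 pd2 false true true .npn 1 2 3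
    ndB1q1 ndB4q3 pcB2 Cut.none Ext.none :=
  certB2 (fam := false) (s1 := true) (s2 := true) (a := 1) (b := 2) (c := 3) (cn := .npn) (n1 := ndB1q1) (n2 := ndB4q3) (pc := pcB2) (cut := Cut.none) (xt := Ext.none) (P1 := 536870912) (W1 := 536870912) (P2 := 1610612736) (W2 := 536870912) (P3 := 697932185) (W3 := 42949674) (N0 := 3) (En := eng) (mo := mog) (C1 := cd1q1) (C2 := cd4q3) (C3 := pd2)
    rfl (fun _ => rfl) k0_pp_123

noncomputable def f_pp_133 : ℕ → ℕ → ℕ → ℕ → Bool := onCell 1610612736 536870912 1610612736 536870912 697932185 42949674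
    (rowB 3 eng mog cd1q1 cd4q3 pd3 2 false true true .dn 1 3 3 (qsf 536870912 536870912 1610612736 536870912 3) ndB1q1 ndB4q3 pcB3 Cut.none Ext.none)

def k0_pp_133 : ∃ t, chk3 f_pp_133 t 1 1 1 = true :=
  ⟨(a (b (l 1) (a (b (l 1) (a (l 16634480) (l 1))) (l 1))) (l 1)), by decide +kernel⟩

theorem c_pp_133 : CertB 536870912 536870912 1610612736 536870912 697932185 42949674 3 eng mog cd1q1 cd4q3 pd3 false true true .dn 1 3 3
    ndB1q1 ndB4q3 pcB3 Cut.none Ext.none :=
  certB2 (fam := false) (s1 := true) (s2 := true) (a := 1) (b := 3) (c := 3) (cn := .dn) (n1 := ndB1q1) (n2 := ndB4q3) (pc := pcB3) (cut := Cut.none) (xt := Ext.none) (P1 := 536870912) (W1 := 536870912) (P2 := 1610612736) (W2 := 536870912) (P3 := 697932185) (W3 := 42949674) (N0 := 3) (En := eng) (mo := mog) (C1 := cd1q1) (C2 := cd4q3) (C3 := pd3)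
    rfl (fun _ => rfl) k0_pp_133

noncomputable def f_pp_202_aa : ℕ → ℕ → ℕ → ℕ → Bool := onCell 0 536870912 0 536870912 697932185 42949674
    (rowB 3 eng mog cd1q2a cd4q2a pd0 0 false true true .pp 2 0 2 (qsf 0 536870912 0 536870912 0) ndB1q2a ndB4q2a pcB0 Cut.none Ext.none)

def k0_pp_202_aa : ∃ t, chk3 f_pp_202_aa t 1 1 1 = true :=
  ⟨(l 3), by decide +kernel⟩

theorem c_pp_202_aa : CertB 0 536870912 0 536870912 697932185 42949674 3 eng mog cd1q2a cd4q2a pd0 false true true .pp 2 0 2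
    ndB1q2a ndB4q2a pcB0 Cut.none Ext.none :=
  certB0 (fam := false) (s1 := true) (s2 := true) (a := 2) (b := 0) (c := 2) (cn := .pp) (n1 := ndB1q2a) (n2 := ndB4q2a) (pc := pcB0) (cut := Cut.none) (xt := Ext.none) (P1 := 0) (W1 := 536870912) (P2 := 0) (W2 := 536870912) (P3 := 697932185) (W3 := 42949674) (N0 := 3) (En := eng) (mo := mog) (C1 := cd1q2a) (C2 := cd4q2a) (C3 := pd0)
    rfl k0_pp_202_aa

noncomputable def f_pp_202_ab : ℕ → ℕ → ℕ → ℕ → Bool := onCell 0 536870912 1239849684 370763052 697932185 42949674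
    (rowB 3 eng mog cd1q2a cd4q2b pd0 0 false true true .pp 2 0 2 (qsf 0 536870912 1239849684 370763052 0) ndB1q2a ndB4q2b pcB0 Cut.none Ext.none)

def k0_pp_202_ab : ∃ t, chk3 f_pp_202_ab t 1 1 1 = true :=
  ⟨(l 3), by decide +kernel⟩

theorem c_pp_202_ab : CertB 0 536870912 1239849684 370763052 697932185 42949674 3 eng mog cd1q2a cd4q2b pd0 false true true .pp 2 0 2
    ndB1q2a ndB4q2b pcB0 Cut.none Ext.none :=
  certB0 (fam := false) (s1 := true) (s2 := true) (a := 2) (b := 0) (c := 2) (cn := .pp) (n1 := ndB1q2a) (n2 := ndB4q2b) (pc := pcB0) (cut := Cut.none) (xt := Ext.none) (P1 := 0) (W1 := 536870912) (P2 := 1239849684) (W2 := 370763052) (P3 := 697932185) (W3 := 42949674) (N0 := 3) (En := eng) (mo := mog) (C1 := cd1q2a) (C2 := cd4q2b) (C3 := pd0)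
    rfl k0_pp_202_ab

noncomputable def f_pp_202_ba : ℕ → ℕ → ℕ → ℕ → Bool := onCell 1239849684 370763052 0 536870912 697932185 42949674
    (rowB 3 eng mog cd1q2b cd4q2a pd0 0 false true true .pp 2 0 2 (qsf 1239849684 370763052 0 536870912 0) ndB1q2b ndB4q2a pcB0 Cut.none Ext.none)

def k0_pp_202_ba : ∃ t, chk3 f_pp_202_ba t 1 1 1 = true :=
  ⟨(l 3), by decide +kernel⟩

theorem c_pp_202_ba : CertB 1239849684 370763052 0 536870912 697932185 42949674 3 eng mog cd1q2b cd4q2a pd0 false true true .pp 2 0 2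
    ndB1q2b ndB4q2a pcB0 Cut.none Ext.none :=
  certB0 (fam := false) (s1 := true) (s2 := true) (a := 2) (b := 0) (c := 2) (cn := .pp) (n1 := ndB1q2b) (n2 := ndB4q2a) (pc := pcB0) (cut := Cut.none) (xt := Ext.none) (P1 := 1239849684) (W1 := 370763052) (P2 := 0) (W2 := 536870912) (P3 := 697932185) (W3 := 42949674) (N0 := 3) (En := eng) (mo := mog) (C1 := cd1q2b) (C2 := cd4q2a) (C3 := pd0)
    rfl k0_pp_202_ba

noncomputable def f_pp_202_bb : ℕ → ℕ → ℕ → ℕ → Bool := onCell 1239849684 370763052 1239849684 370763052 697932185 42949674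
    (rowB 3 eng mog cd1q2b cd4q2b pd0 0 false true true .pp 2 0 2 (qsf 1239849684 370763052 1239849684 370763052 0) ndB1q2b ndB4q2b pcB0 Cut.none Ext.none)

def k0_pp_202_bb : ∃ t, chk3 f_pp_202_bb t 1 1 1 = true :=
  ⟨(l 3), by decide +kernel⟩

theorem c_pp_202_bb : CertB 1239849684 370763052 1239849684 370763052 697932185 42949674 3 eng mog cd1q2b cd4q2b pd0 false true true .pp 2 0 2
    ndB1q2b ndB4q2b pcB0 Cut.none Ext.none :=
  certB0 (fam := false) (s1 := true) (s2 := true) (a := 2) (b := 0) (c := 2) (cn := .pp) (n1 := ndB1q2b) (n2 := ndB4q2b) (pc := pcB0) (cut := Cut.none) (xt := Ext.none) (P1 := 1239849684) (W1 := 370763052) (P2 := 1239849684) (W2 := 370763052) (P3 := 697932185) (W3 := 42949674) (N0 := 3) (En := eng) (mo := mog) (C1 := cd1q2b) (C2 := cd4q2b) (C3 := pd0)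
    rfl k0_pp_202_bb

noncomputable def f_pp_203_a : ℕ → ℕ → ℕ → ℕ → Bool := onCell 0 536870912 0 536870912 697932185 42949674
    (rowB 3 eng mog cd1q2a cd4q3 pd0 1 false true true .up 2 0 3 (qsf 0 536870912 1610612736 536870912 0) ndB1q2a ndB4q3 pcB0 Cut.none Ext.none)

def k0_pp_203_a : ∃ t, chk3 f_pp_203_a t 1 1 1 = true :=
  ⟨(l 3), by decide +kernel⟩

theorem c_pp_203_a : CertB 0 536870912 1610612736 536870912 697932185 42949674 3 eng mog cd1q2a cd4q3 pd0 false true true .up 2 0 3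
    ndB1q2a ndB4q3 pcB0 Cut.none Ext.none :=
  certB1 (fam := false) (s1 := true) (s2 := true) (a := 2) (b := 0) (c := 3) (cn := .up) (n1 := ndB1q2a) (n2 := ndB4q3) (pc := pcB0) (cut := Cut.none) (xt := Ext.none) (P1 := 0) (W1 := 536870912) (P2 := 1610612736) (W2 := 536870912) (P3 := 697932185) (W3 := 42949674) (N0 := 3) (En := eng) (mo := mog) (C1 := cd1q2a) (C2 := cd4q3) (C3 := pd0)
    rfl (fun _ => rfl) k0_pp_203_a

noncomputable def f_pp_203_b : ℕ → ℕ → ℕ → ℕ → Bool := onCell 1239849684 370763052 1610612736 536870912 697932185 42949674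
    (rowB 3 eng mog cd1q2b cd4q3 pd0 0 false true true .up 2 0 3 (qsf 1239849684 370763052 1610612736 536870912 0) ndB1q2b ndB4q3 pcB0 Cut.none Ext.none)

def k0_pp_203_b : ∃ t, chk3 f_pp_203_b t 1 1 1 = true :=
  ⟨(l 3), by decide +kernel⟩

theorem c_pp_203_b : CertB 1239849684 370763052 1610612736 536870912 697932185 42949674 3 eng mog cd1q2b cd4q3 pd0 false true true .up 2 0 3
    ndB1q2b ndB4q3 pcB0 Cut.none Ext.none :=
  certB0 (fam := false) (s1 := true) (s2 := true) (a := 2) (b := 0) (c := 3) (cn := .up) (n1 := ndB1q2b) (n2 := ndB4q3) (pc := pcB0) (cut := Cut.none) (xt := Ext.none) (P1 := 1239849684) (W1 := 370763052) (P2 := 1610612736) (W2 := 536870912) (P3 := 697932185) (W3 := 42949674) (N0 := 3) (En := eng) (mo := mog) (C1 := cd1q2b) (C2 := cd4q3) (C3 := pd0)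
    rfl k0_pp_203_b

noncomputable def cut_pp_213_a : Cut := Cut.of [[⟨0, 1, 0, 67108864⟩, ⟨1, 1, 0, 67108864⟩, ⟨2, 2, 0, 16777216⟩]]

noncomputable def f_pp_213_a : ℕ → ℕ → ℕ → ℕ → Bool := onCell 0 536870912 1610612736 536870912 697932185 42949674
    (rowB 3 eng mog cd1q2a cd4q3 pd1 0 false true true .pnn 2 1 3 (qsf 0 536870912 1610612736 536870912 1) ndB1q2a ndB4q3 pcB1 cut_pp_213_a Ext.none)

def k0_pp_213_a : ∃ t, chk3 f_pp_213_a t 1 1 1 = true :=
  ⟨(b (l 3) (a (l 3) (b (l 3) (a (l 3) (b (l 3) (a (l 3) (b (l 3) (b (l 3) (b (l 3) (l 6)))))))))), by decide +kernel⟩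

theorem c_pp_213_a : CertB 0 536870912 1610612736 536870912 697932185 42949674 3 eng mog cd1q2a cd4q3 pd1 false true true .pnn 2 1 3
    ndB1q2a ndB4q3 pcB1 cut_pp_213_a Ext.none :=
  certB0 (fam := false) (s1 := true) (s2 := true) (a := 2) (b := 1) (c := 3) (cn := .pnn) (n1 := ndB1q2a) (n2 := ndB4q3) (pc := pcB1) (cut := cut_pp_213_a) (xt := Ext.none) (P1 := 0) (W1 := 536870912) (P2 := 1610612736) (W2 := 536870912) (P3 := 697932185) (W3 := 42949674) (N0 := 3) (En := eng) (mo := mog) (C1 := cd1q2a) (C2 := cd4q3) (C3 := pd1)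
    rfl k0_pp_213_a

noncomputable def cut_pp_213_b : Cut := Cut.of [[⟨0, 1, 0, 67108864⟩, ⟨1, 1, 0, 67108864⟩, ⟨2, 2, 0, 16777216⟩]]

noncomputable def f_pp_213_b : ℕ → ℕ → ℕ → ℕ → Bool := onCell 1239849684 370763052 1610612736 536870912 697932185 42949674
    (rowB 3 eng mog cd1q2b cd4q3 pd1 0 false true true .pnn 2 1 3 (qsf 1239849684 370763052 1610612736 536870912 1) ndB1q2b ndB4q3 pcB1 cut_pp_213_b Ext.none)

def k0_pp_213_b : ∃ t, chk3 f_pp_213_b t 1 1 1 = true :=
  ⟨(l 3), by decide +kernel⟩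

theorem c_pp_213_b : CertB 1239849684 370763052 1610612736 536870912 697932185 42949674 3 eng mog cd1q2b cd4q3 pd1 false true true .pnn 2 1 3
    ndB1q2b ndB4q3 pcB1 cut_pp_213_b Ext.none :=
  certB0 (fam := false) (s1 := true) (s2 := true) (a := 2) (b := 1) (c := 3) (cn := .pnn) (n1 := ndB1q2b) (n2 := ndB4q3) (pc := pcB1) (cut := cut_pp_213_b) (xt := Ext.none) (P1 := 1239849684) (W1 := 370763052) (P2 := 1610612736) (W2 := 536870912) (P3 := 697932185) (W3 := 42949674) (N0 := 3) (En := eng) (mo := mog) (C1 := cd1q2b) (C2 := cd4q3) (C3 := pd1)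
    rfl k0_pp_213_b

noncomputable def f_pp_303 : ℕ → ℕ → ℕ → ℕ → Bool := onCell 1610612736 536870912 1610612736 536870912 697932185 42949674
    (rowB 3 eng mog cd1q3 cd4q3 pd0 0 false true true .npn 3 0 3 (qsf 1610612736 536870912 1610612736 536870912 0) ndB1q3 ndB4q3 pcB0 Cut.none Ext.none)

def k0_pp_303 : ∃ t, chk3 f_pp_303 t 1 1 1 = true :=
  ⟨(l 3), by decide +kernel⟩

theorem c_pp_303 : CertB 1610612736 536870912 1610612736 536870912 697932185 42949674 3 eng mog cd1q3 cd4q3 pd0 false true true .npn 3 0 3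
    ndB1q3 ndB4q3 pcB0 Cut.none Ext.none :=
  certB0 (fam := false) (s1 := true) (s2 := true) (a := 3) (b := 0) (c := 3) (cn := .npn) (n1 := ndB1q3) (n2 := ndB4q3) (pc := pcB0) (cut := Cut.none) (xt := Ext.none) (P1 := 1610612736) (W1 := 536870912) (P2 := 1610612736) (W2 := 536870912) (P3 := 697932185) (W3 := 42949674) (N0 := 3) (En := eng) (mo := mog) (C1 := cd1q3) (C2 := cd4q3) (C3 := pd0)
    rfl k0_pp_303

noncomputable def f_pp_313 : ℕ → ℕ → ℕ → ℕ → Bool := onCell 1610612736 536870912 1610612736 536870912 697932185 42949674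
    (rowB 3 eng mog cd1q3 cd4q3 pd1 0 false true true .dn 3 1 3 (qsf 1610612736 536870912 1610612736 536870912 1) ndB1q3 ndB4q3 pcB1 Cut.none Ext.none)

def k0_pp_313 : ∃ t, chk3 f_pp_313 t 1 1 1 = true :=
  ⟨(l 3), by decide +kernel⟩

theorem c_pp_313 : CertB 1610612736 536870912 1610612736 536870912 697932185 42949674 3 eng mog cd1q3 cd4q3 pd1 false true true .dn 3 1 3
    ndB1q3 ndB4q3 pcB1 Cut.none Ext.none :=
  certB0 (fam := false) (s1 := true) (s2 := true) (a := 3) (b := 1) (c := 3) (cn := .dn) (n1 := ndB1q3) (n2 := ndB4q3) (pc := pcB1) (cut := Cut.none) (xt := Ext.none) (P1 := 1610612736) (W1 := 536870912) (P2 := 1610612736) (W2 := 536870912) (P3 := 697932185) (W3 := 42949674) (N0 := 3) (En := eng) (mo := mog) (C1 := cd1q3) (C2 := cd4q3) (C3 := pd1)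
    rfl k0_pp_313

noncomputable def f_pm_001 : ℕ → ℕ → ℕ → ℕ → Bool := onCell 0 536870912 536870912 536870912 697932185 42949674
    (rowB 3 eng mog cd1q0 cd4q1 pd0 0 false true false .up 0 0 1 (qsf 0 536870912 536870912 536870912 0) ndB1q0 ndB4q1 pcB0 Cut.none Ext.none)

def k0_pm_001 : ∃ t, chk3 f_pm_001 t 1 1 1 = true :=
  ⟨(l 4), by decide +kernel⟩

theorem c_pm_001 : CertB 0 536870912 536870912 536870912 697932185 42949674 3 eng mog cd1q0 cd4q1 pd0 false true false .up 0 0 1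
    ndB1q0 ndB4q1 pcB0 Cut.none Ext.none :=
  certB0 (fam := false) (s1 := true) (s2 := false) (a := 0) (b := 0) (c := 1) (cn := .up) (n1 := ndB1q0) (n2 := ndB4q1) (pc := pcB0) (cut := Cut.none) (xt := Ext.none) (P1 := 0) (W1 := 536870912) (P2 := 536870912) (W2 := 536870912) (P3 := 697932185) (W3 := 42949674) (N0 := 3) (En := eng) (mo := mog) (C1 := cd1q0) (C2 := cd4q1) (C3 := pd0)
    rfl k0_pm_001

noncomputable def f_pm_011 : ℕ → ℕ → ℕ → ℕ → Bool := onCell 0 536870912 536870912 536870912 697932185 42949674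
    (rowB 3 eng mog cd1q0 cd4q1 pd1 0 false true false .pnn 0 1 1 (qsf 0 536870912 536870912 536870912 1) ndB1q0 ndB4q1 pcB1 Cut.none Ext.none)

def k0_pm_011 : ∃ t, chk3 f_pm_011 t 1 1 1 = true :=
  ⟨(l 4), by decide +kernel⟩

theorem c_pm_011 : CertB 0 536870912 536870912 536870912 697932185 42949674 3 eng mog cd1q0 cd4q1 pd1 false true false .pnn 0 1 1
    ndB1q0 ndB4q1 pcB1 Cut.none Ext.none :=
  certB0 (fam := false) (s1 := true) (s2 := false) (a := 0) (b := 1) (c := 1) (cn := .pnn) (n1 := ndB1q0) (n2 := ndB4q1) (pc := pcB1) (cut := Cut.none) (xt := Ext.none) (P1 := 0) (W1 := 536870912) (P2 := 536870912) (W2 := 536870912) (P3 := 697932185) (W3 := 42949674) (N0 := 3) (En := eng) (mo := mog) (C1 := cd1q0) (C2 := cd4q1) (C3 := pd1)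
    rfl k0_pm_011

noncomputable def cut_pm_012_a : Cut := Cut.of [[⟨0, 0, 0, 67108864⟩, ⟨1, 1, 0, 67108864⟩, ⟨2, 1, 0, 67108864⟩]]

noncomputable def f_pm_012_a : ℕ → ℕ → ℕ → ℕ → Bool := onCell 536870912 536870912 0 536870912 697932185 42949674
    (rowB 3 eng mog cd1q0 cd4q2a pd1 2 false true false .pnp 0 1 2 (qsf 0 536870912 0 536870912 1) ndB1q0 ndB4q2a pcB1 cut_pm_012_a Ext.none)

def k0_pm_012_a : ∃ t, chk3 f_pm_012_a t 2 1 1 = true :=
  ⟨(b (a (a (l 2) (b (l 2) (l 16328520))) (a (b (l 16328880) (l 16311560)) (b (l 16295312) (l 16292072)))) (a (b (a (l 2) (l 16311144)) (a (b (l 16277112) (l 16275280)) (b (l 16316160) (l 16334352)))) (b (a (b (l 16311712) (l 16323840)) (b (l 16308384) (l 16335072))) (a (b (l 16369736) (l 16463464)) (b (b (l 16365080) (l 16391520)) (b (l 16465576) (l 16461944))))))), by decide +kernel⟩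

def k1_pm_012_a : ∃ t, chk3 f_pm_012_a t 3 1 1 = true :=
  ⟨(b (a (a (b (l 16259472) (a (l 16275856) (l 16264816))) (b (a (l 16232392) (l 16223800)) (a (l 16255168) (l 16254368)))) (a (b (a (l 16218488) (l 16214312)) (a (l 16319704) (b (l 16240744) (l 16277752)))) (b (a (b (l 16202760) (l 16214288)) (b (l 16193560) (a (l 16209400) (l 16206208)))) (a (b (l 16239544) (l 16280464)) (b (a (l 16237560) (l 16236408)) (a (l 16282360) (l 16283856))))))) (a (b (a (b (l 16303944) (l 16367464)) (b (a (l 16302856) (l 16311192)) (a (l 16358160) (l 16374144)))) (a (a (b (l 16401304) (l 16484384)) (b (l 16418160) (a (l 16505936) (l 16519984)))) (b (b (a (l 16413672) (l 16435192)) (a (l 16459144) (l 16483720))) (b (a (l 16552928) (l 16539168)) (a (l 16569560) (l 16602784)))))) (b (a (b (a (l 16322184) (l 16331632)) (a (l 16390752) (l 16426872))) (a (b (a (l 16337752) (l 16342088)) (b (l 16398024) (l 16445208))) (b (a (l 16346632) (b (l 16331600) (l 16370896))) (a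 (b (l 16408920) (l 16458216)) (b (l 16415152) (l 16464088)))))) (a (b (a (b (l 16455992) (l 16508616)) (b (l 16477224) (l 16534592))) (b (a (b (l 16552952) (l 16585288)) (b (l 16582504) (l 16616600))) (a (b (l 16619832) (l 16640808)) (b (l 16652216) (b (l 16667192) (l 16698096)))))) (b (a (b (a (l 16493816) (l 16504304)) (a (l 16553752) (l 16563952))) (a (b (l 16512408) (a (l 16570328) (l 16574480))) (b (a (l 16517176) (l 16520264)) (a (l 16599544) (b (l 16566024) (l 6)))))) (a (a (b (b (l 16602112) (l 16635952)) (b (l 16671872) (b (l 16694624) (l 16704800)))) (b (b (l 16612296) (l 16647152)) (b (l 16684120) (l 6)))) (b (a (b (l 16643176) (l 6)) (l 6)) (l 6)))))))), by decide +kernel⟩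

theorem s2_pm_012_a : ∃ t, chk3 f_pm_012_a t 1 1 1 = true := ex3_a k0_pm_012_a k1_pm_012_a

theorem c_pm_012_a : CertB 0 536870912 0 536870912 697932185 42949674 3 eng mog cd1q0 cd4q2a pd1 false true false .pnp 0 1 2
    ndB1q0 ndB4q2a pcB1 cut_pm_012_a Ext.none :=
  certB2 (fam := false) (s1 := true) (s2 := false) (a := 0) (b := 1) (c := 2) (cn := .pnp) (n1 := ndB1q0) (n2 := ndB4q2a) (pc := pcB1) (cut := cut_pm_012_a) (xt := Ext.none) (P1 := 0) (W1 := 536870912) (P2 := 0) (W2 := 536870912) (P3 := 697932185) (W3 := 42949674) (N0 := 3) (En := eng) (mo := mog) (C1 := cd1q0) (C2 := cd4q2a) (C3 := pd1)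
    rfl (fun _ => rfl) s2_pm_012_a

noncomputable def cut_pm_012_b : Cut := Cut.of [[⟨0, 0, 0, 67108864⟩, ⟨1, 1, 0, 67108864⟩, ⟨2, 1, 0, 67108864⟩]]

noncomputable def f_pm_012_b : ℕ → ℕ → ℕ → ℕ → Bool := onCell 536870912 536870912 1239849684 370763052 697932185 42949674
    (rowB 3 eng mog cd1q0 cd4q2b pd1 2 false true false .pnp 0 1 2 (qsf 0 536870912 1239849684 370763052 1) ndB1q0 ndB4q2b pcB1 cut_pm_012_b Ext.none)

def k0_pm_012_b : ∃ t, chk3 f_pm_012_b t 1 1 1 = true :=
  ⟨(a (a (l 2) (b (b (a (l 16409616) (b (l 16293728) (l 16285488))) (a (l 2) (l 16304160))) (l 2))) (b (a (b (a (b (l 16241800) (l 16212224)) (b (a (l 16201248) (l 16183200)) (a (l 16155064) (l 16124200)))) (a (l 16247008) (b (l 16130840) (l 16101888)))) (b (a (b (a (l 16168008) (l 16153856)) (a (l 16095264) (l 16066464))) (a (b (b (l 16169712) (l 16111848)) (b (l 16060568) (l 16016808))) (b (a (b (l 16160424) (l 16098584)) (b (l 16153376) (l 16088592))) (a (l 16016504) (b (l 16029536)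 (l 15976448)))))) (a (b (a (l 16049664) (l 16008424)) (l 16001984)) (b (a (l 15965752) (b (l 15941136) (l 15905688))) (a (l 15923336) (a (l 15881952) (l 15853408))))))) (a (b (a (l 2) (b (l 16114168) (l 16146936))) (l 2)) (b (a (b (l 15999560) (l 16019760)) (b (a (l 15906976) (l 15841312)) (a (l 15915872) (l 15842304)))) (a (b (l 16062680) (l 2)) (b (l 15910112) (l 15964528))))))), by decide +kernel⟩

theorem c_pm_012_b : CertB 0 536870912 1239849684 370763052 697932185 42949674 3 eng mog cd1q0 cd4q2b pd1 false true false .pnp 0 1 2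
    ndB1q0 ndB4q2b pcB1 cut_pm_012_b Ext.none :=
  certB2 (fam := false) (s1 := true) (s2 := false) (a := 0) (b := 1) (c := 2) (cn := .pnp) (n1 := ndB1q0) (n2 := ndB4q2b) (pc := pcB1) (cut := cut_pm_012_b) (xt := Ext.none) (P1 := 0) (W1 := 536870912) (P2 := 1239849684) (W2 := 370763052) (P3 := 697932185) (W3 := 42949674) (N0 := 3) (En := eng) (mo := mog) (C1 := cd1q0) (C2 := cd4q2b) (C3 := pd1)
    rfl (fun _ => rfl) k0_pm_012_b

noncomputable def cut_pm_022_a : Cut := Cut.of [[⟨0, 0, 0, 67108864⟩, ⟨1, 1, 0, 67108864⟩, ⟨2, 1, 0, 67108864⟩]]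

noncomputable def f_pm_022_a : ℕ → ℕ → ℕ → ℕ → Bool := onCell 1073741824 536870912 0 536870912 697932185 42949674
    (rowB 3 eng mog cd1q0 cd4q2a pd2 2 false true false .pp 0 2 2 (qsf 0 536870912 0 536870912 2) ndB1q0 ndB4q2a pcB2 cut_pm_022_a Ext.none)

def k0_pm_022_a : ∃ t, chk3 f_pm_022_a t 1 1 1 = true :=
  ⟨(a (b (a (a (b (a (b (a (l 16204000) (l 16235992)) (a (l 16220352) (l 16253192))) (b (l 16281696) (a (l 16284904) (l 16314368)))) (a (b (a (l 16252320) (l 16286120)) (a (l 16301896) (l 16336048))) (b (a (l 16318064) (l 16347448)) (a (l 16367360) (l 16398656))))) (b (a (b (l 16336448) (l 16398656)) (a (l 16369160) (l 4))) (a (b (a (l 16377400) (l 4)) (l 4)) (l 4)))) (l 4)) (a (a (b (a (b (a (b (l 16351112) (l 16390128)) (b (l 16384240) (l 16422416))) (a (b (l 16433616) (a (l 16474464) (l 16491120))) (b (l 16466752) (a (l 16508408) (l 4))))) (b (a (b (l 16415840) (l 16455968)) (l 4)) (l 4))) (a (b (a (b (a (l 16530184) (l 16568576)) (l 6))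 (l 4)) (l 6)) (l 4))) (b (l 4) (l 4))) (b (l 1) (l 1)))) (l 1)), by decide +kernel⟩

theorem c_pm_022_a : CertB 0 536870912 0 536870912 697932185 42949674 3 eng mog cd1q0 cd4q2a pd2 false true false .pp 0 2 2
    ndB1q0 ndB4q2a pcB2 cut_pm_022_a Ext.none :=
  certB2 (fam := false) (s1 := true) (s2 := false) (a := 0) (b := 2) (c := 2) (cn := .pp) (n1 := ndB1q0) (n2 := ndB4q2a) (pc := pcB2) (cut := cut_pm_022_a) (xt := Ext.none) (P1 := 0) (W1 := 536870912) (P2 := 0) (W2 := 536870912) (P3 := 697932185) (W3 := 42949674) (N0 := 3) (En := eng) (mo := mog) (C1 := cd1q0) (C2 := cd4q2a) (C3 := pd2)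
    rfl (fun _ => rfl) k0_pm_022_a

noncomputable def cut_pm_022_b : Cut := Cut.of [[⟨0, 0, 0, 67108864⟩, ⟨1, 1, 0, 67108864⟩, ⟨2, 1, 0, 67108864⟩]]

noncomputable def f_pm_022_b : ℕ → ℕ → ℕ → ℕ → Bool := onCell 1073741824 536870912 1239849684 370763052 697932185 42949674
    (rowB 3 eng mog cd1q0 cd4q2b pd2 2 false true false .pp 0 2 2 (qsf 0 536870912 1239849684 370763052 2) ndB1q0 ndB4q2b pcB2 cut_pm_022_b Ext.none)

def k0_pm_022_b : ∃ t, chk3 f_pm_022_b t 1 1 1 = true :=
  ⟨(a (a (b (a (b (a (b (a (b (l 16164280) (l 16096888)) (l 16202336)) (a (b (l 16036192) (l 15981160)) (l 16120248))) (b (a (l 16190088) (l 16218904)) (a (l 16063920) (l 16090784)))) (a (b (a (l 15911680) (l 15937488)) (a (l 15847024) (l 15868048))) (b (b (l 15998352) (l 15953576)) (l 15899928)))) (b (a (b (a (l 16267408) (l 16272792)) (l 16151288)) (b (a (l 16299304) (l 4)) (a (l 16169248) (l 16196216)))) (a (b (l 16023960) (l 15942760)) (b (l 16072464) (l 15985944))))) (b (a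 (b (a (l 15820456) (l 15852840)) (a (l 15811000) (l 15832608))) (a (b (l 15887480) (l 15858168)) (b (l 15924000) (l 15887048)))) (a (b (a (l 15827688) (l 15837504)) (l 15867136)) (b (l 15862488) (l 15875064))))) (b (a (b (l 4) (a (b (l 4) (l 16031112)) (l 4))) (l 4)) (a (b (a (b (l 15961928) (l 15917696)) (b (l 16001656) (l 15949920))) (a (l 15895352) (l 15918416))) (b (l 4) (a (l 15943864) (l 15965448)))))) (b (a (b (l 1) (l 4)) (l 1)) (a (l 4) (a (l 4) (b (l 1) (l 4)))))), by decide +kernel⟩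

theorem c_pm_022_b : CertB 0 536870912 1239849684 370763052 697932185 42949674 3 eng mog cd1q0 cd4q2b pd2 false true false .pp 0 2 2
    ndB1q0 ndB4q2b pcB2 cut_pm_022_b Ext.none :=
  certB2 (fam := false) (s1 := true) (s2 := false) (a := 0) (b := 2) (c := 2) (cn := .pp) (n1 := ndB1q0) (n2 := ndB4q2b) (pc := pcB2) (cut := cut_pm_022_b) (xt := Ext.none) (P1 := 0) (W1 := 536870912) (P2 := 1239849684) (W2 := 370763052) (P3 := 697932185) (W3 := 42949674) (N0 := 3) (En := eng) (mo := mog) (C1 := cd1q0) (C2 := cd4q2b) (C3 := pd2)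
    rfl (fun _ => rfl) k0_pm_022_b

noncomputable def f_pm_023 : ℕ → ℕ → ℕ → ℕ → Bool := onCell 0 536870912 1073741824 536870912 697932185 42949674
    (rowB 3 eng mog cd1q0 cd4q3 pd2 1 false true false .up 0 2 3 (qsf 0 536870912 1610612736 536870912 2) ndB1q0 ndB4q3 pcB2 Cut.none Ext.none)

def k0_pm_023 : ∃ t, chk3 f_pm_023 t 1 1 1 = true :=
  ⟨(b (b (a (l 1) (a (b (l 1) (a (l 1) (l 329133731607))) (b (a (l 303900651223) (l 183641571399)) (a (l 15885408) (l 15932592))))) (a (b (l 1) (a (l 1) (a (l 1) (l 311417423383)))) (a (b (a (l 335039726119) (l 183642001447)) (a (l 15952608) (l 15974304))) (b (a (l 15938192) (l 15986152)) (a (l 16012328) (l 16071712)))))) (b (a (b (l 4) (l 4)) (a (b (a (l 15997096) (l 16037048)) (a (l 16018656) (l 16084072))) (b (a (l 16091640) (l 16153776)) (a (l 16163712) (l 16291208))))) (a (l 4) (a (a (l 4) (b (l 16166544) (l 16333472))) (b (a (l 16322688) (l 16438344)) (l 16510880)))))), by decide +kernel⟩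

theorem c_pm_023 : CertB 0 536870912 1610612736 536870912 697932185 42949674 3 eng mog cd1q0 cd4q3 pd2 false true false .up 0 2 3
    ndB1q0 ndB4q3 pcB2 Cut.none Ext.none :=
  certB1 (fam := false) (s1 := true) (s2 := false) (a := 0) (b := 2) (c := 3) (cn := .up) (n1 := ndB1q0) (n2 := ndB4q3) (pc := pcB2) (cut := Cut.none) (xt := Ext.none) (P1 := 0) (W1 := 536870912) (P2 := 1610612736) (W2 := 536870912) (P3 := 697932185) (W3 := 42949674) (N0 := 3) (En := eng) (mo := mog) (C1 := cd1q0) (C2 := cd4q3) (C3 := pd2)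
    rfl (fun _ => rfl) k0_pm_023

noncomputable def f_pm_033 : ℕ → ℕ → ℕ → ℕ → Bool := onCell 0 536870912 1610612736 536870912 697932185 42949674
    (rowB 3 eng mog cd1q0 cd4q3 pd3 1 false true false .pnn 0 3 3 (qsf 0 536870912 1610612736 536870912 3) ndB1q0 ndB4q3 pcB3 Cut.none Ext.none)

def k0_pm_033 : ∃ t, chk3 f_pm_033 t 1 1 1 = true :=
  ⟨(a (b (l 4) (a (l 4) (b (l 4) (a (b (l 4) (l 2)) (l 2))))) (b (a (b (b (a (l 4) (l 16439888)) (l 16694936)) (b (l 115661087015) (l 20635986935))) (b (b (l 16585680) (l 16906176)) (a (b (l 16643232) (l 2)) (l 2)))) (a (b (a (b (l 16513760) (l 2)) (l 2)) (l 2)) (l 2)))), by decide +kernel⟩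

theorem c_pm_033 : CertB 0 536870912 1610612736 536870912 697932185 42949674 3 eng mog cd1q0 cd4q3 pd3 false true false .pnn 0 3 3
    ndB1q0 ndB4q3 pcB3 Cut.none Ext.none :=
  certB1 (fam := false) (s1 := true) (s2 := false) (a := 0) (b := 3) (c := 3) (cn := .pnn) (n1 := ndB1q0) (n2 := ndB4q3) (pc := pcB3) (cut := Cut.none) (xt := Ext.none) (P1 := 0) (W1 := 536870912) (P2 := 1610612736) (W2 := 536870912) (P3 := 697932185) (W3 := 42949674) (N0 := 3) (En := eng) (mo := mog) (C1 := cd1q0) (C2 := cd4q3) (C3 := pd3)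
    rfl (fun _ => rfl) k0_pm_033

noncomputable def f_pm_101 : ℕ → ℕ → ℕ → ℕ → Bool := onCell 536870912 536870912 536870912 536870912 697932185 42949674
    (rowB 3 eng mog cd1q1 cd4q1 pd0 0 false true false .npn 1 0 1 (qsf 536870912 536870912 536870912 536870912 0) ndB1q1 ndB4q1 pcB0 Cut.none Ext.none)

def k0_pm_101 : ∃ t, chk3 f_pm_101 t 1 1 1 = true :=
  ⟨(l 4), by decide +kernel⟩

theorem c_pm_101 : CertB 536870912 536870912 536870912 536870912 697932185 42949674 3 eng mog cd1q1 cd4q1 pd0 false true false .npn 1 0 1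
    ndB1q1 ndB4q1 pcB0 Cut.none Ext.none :=
  certB0 (fam := false) (s1 := true) (s2 := false) (a := 1) (b := 0) (c := 1) (cn := .npn) (n1 := ndB1q1) (n2 := ndB4q1) (pc := pcB0) (cut := Cut.none) (xt := Ext.none) (P1 := 536870912) (W1 := 536870912) (P2 := 536870912) (W2 := 536870912) (P3 := 697932185) (W3 := 42949674) (N0 := 3) (En := eng) (mo := mog) (C1 := cd1q1) (C2 := cd4q1) (C3 := pd0)
    rfl k0_pm_101

noncomputable def f_pm_102_a : ℕ → ℕ → ℕ → ℕ → Bool := onCell 0 536870912 0 536870912 697932185 42949674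
    (rowB 3 eng mog cd1q1 cd4q2a pd0 2 false true false .npp 1 0 2 (qsf 536870912 536870912 0 536870912 0) ndB1q1 ndB4q2a pcB0 Cut.none Ext.none)

def k0_pm_102_a : ∃ t, chk3 f_pm_102_a t 2 1 1 = true :=
  ⟨(a (b (a (l 2) (b (l 2) (a (l 2) (b (l 2) (a (l 2) (b (l 2) (l 16592496))))))) (b (a (l 2) (a (b (l 2) (b (a (l 2) (a (l 16624976) (l 16630072))) (a (b (l 16635256) (l 16647952)) (l 16651632)))) (b (a (b (l 16597976) (l 16615816)) (b (l 16607376) (l 16627464))) (b (l 255651052647) (a (l 16663408) (l 16675520)))))) (a (b (a (l 2) (b (a (l 2) (b (l 2) (l 16658352))) (a (a (l 16660184) (l 16664752)) (l 16672480)))) (b (a (a (l 2) (b (l 16667184) (l 16676968))) (a (l 16683064) (l 16693208))) (a (a (b (l 16677400) (l 16688560)) (b (l 16687792) (l 16692072))) (a (l 16692296) (l 16697728))))) (b (a (a (b (b (l 16659000) (l 16667744)) (l 16683288)) (l 16684576)) (b (l 16689408) (l 16684680))) (a (b (l 16686160) (l 16706784)) (b (l 16692552) (l 16718920)))))))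 (b (a (b (a (a (l 2) (b (l 16573600) (a (l 16573208) (l 16578008)))) (a (b (l 16581248) (l 16583112)) (l 16587216))) (a (b (a (b (l 16573000) (l 16580360)) (l 16586056)) (a (l 16595984) (l 16607312))) (b (a (l 16595080) (l 16600896)) (a (l 16618528) (l 16624960))))) (b (a (b (l 16594152) (l 16597848)) (l 16652952)) (a (b (l 16611624) (l 16631800)) (l 16627136)))) (b (a (a (b (a (l 16630216) (l 16642480)) (a (l 16695816) (l 16707640))) (b (a (l 16653264) (l 16656760)) (b (l 16682192) (l 16679344)))) (b (a (l 16653728) (l 16626032)) (a (l 16626640) (l 16571544)))) (a (a (b (a (l 16681072) (l 16678640)) (b (l 16701440) (a (l 16727824) (l 16732944)))) (b (l 16661720) (b (l 16686608) (l 16778072)))) (b (a (l 16619160) (l 16570256)) (a (b (l 16642920) (a (l 16682024) (l 16654576))) (b (l 16586504) (b (l 16597248) (l 16604792))))))))), by decide +kernel⟩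

def k1_pm_102_a : ∃ t, chk3 f_pm_102_a t 3 1 1 = true :=
  ⟨(a (a (b (b (a (l 16616952) (l 16608912)) (a (l 16614424) (l 16582008))) (b (a (b (l 16569664) (l 16517312)) (b (l 16499328) (a (l 16472520) (l 16450048)))) (a (b (l 16508016) (b (l 16509888) (l 16517088))) (a (b (l 16454208) (a (l 16457280) (b (l 16444992) (l 16450744)))) (b (l 16444248) (a (l 16458944) (l 16466488))))))) (b (b (l 16798200) (a (l 16592496) (b (l 16537728) (l 16483864)))) (b (a (b (l 16452728) (l 16420248)) (b (l 16415656) (l 16376624))) (a (b (l 16401032) (a (b (l 16423728) (l 16435264)) (l 16366360))) (a (b (l 16349128) (b (l 16324848) (l 16326280))) (b (l 16335264) (l 16343456))))))) (b (a (b (l 16515424) (l 16444744)) (b (l 16448192) (l 16387112))) (b (a (l 16297872) (l 16297968)) (a (b (l 16267480) (b (l 16285792) (l 16295720))) (b (l 16236400) (l 16411536)))))), by decide +kernel⟩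

theorem s2_pm_102_a : ∃ t, chk3 f_pm_102_a t 1 1 1 = true := ex3_a k0_pm_102_a k1_pm_102_a

theorem c_pm_102_a : CertB 536870912 536870912 0 536870912 697932185 42949674 3 eng mog cd1q1 cd4q2a pd0 false true false .npp 1 0 2
    ndB1q1 ndB4q2a pcB0 Cut.none Ext.none :=
  certB2 (fam := false) (s1 := true) (s2 := false) (a := 1) (b := 0) (c := 2) (cn := .npp) (n1 := ndB1q1) (n2 := ndB4q2a) (pc := pcB0) (cut := Cut.none) (xt := Ext.none) (P1 := 536870912) (W1 := 536870912) (P2 := 0) (W2 := 536870912) (P3 := 697932185) (W3 := 42949674) (N0 := 3) (En := eng) (mo := mog) (C1 := cd1q1) (C2 := cd4q2a) (C3 := pd0)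
    rfl (fun _ => rfl) s2_pm_102_a

noncomputable def f_pm_102_b : ℕ → ℕ → ℕ → ℕ → Bool := onCell 536870912 536870912 1239849684 370763052 697932185 42949674
    (rowB 3 eng mog cd1q1 cd4q2b pd0 0 false true false .npp 1 0 2 (qsf 536870912 536870912 1239849684 370763052 0) ndB1q1 ndB4q2b pcB0 Cut.none Ext.none)

def k0_pm_102_b : ∃ t, chk3 f_pm_102_b t 1 1 1 = true :=
  ⟨(a (b (a (l 2) (b (a (l 16656952) (b (l 16510504) (l 16515200))) (a (l 2) (l 16520744)))) (l 2)) (b (a (b (a (b (l 16573728) (l 16559240)) (b (a (l 16601328) (b (l 16609088) (l 16593272))) (a (l 16573664) (l 16567704)))) (a (l 16585240) (b (l 16543928) (l 16525400)))) (a (b (b (a (b (l 16607392) (l 16584272)) (l 16601384)) (a (b (l 16562648) (l 16543272)) (l 16533000))) (a (l 16502960) (b (l 16493120) (l 16462552)))) (b (b (a (l 16586008) (a (l 16597904) (b (l 16566704) (l 16536824)))) (a (l 16513016) (a (l 16501216) (l 16495600)))) (a (b (l 16469208) (l 16433664)) (b (a (l 16453768)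 (l 16446504)) (l 16409496)))))) (a (b (a (l 2) (l 16686112)) (l 2)) (b (a (a (l 16472368) (l 16435448)) (a (b (l 16407520) (l 16390672)) (b (l 16377776) (l 16354088)))) (a (a (l 2) (l 16432104)) (a (b (l 16382536) (l 16383224)) (b (l 16337832) (l 16329512)))))))), by decide +kernel⟩

theorem c_pm_102_b : CertB 536870912 536870912 1239849684 370763052 697932185 42949674 3 eng mog cd1q1 cd4q2b pd0 false true false .npp 1 0 2
    ndB1q1 ndB4q2b pcB0 Cut.none Ext.none :=
  certB0 (fam := false) (s1 := true) (s2 := false) (a := 1) (b := 0) (c := 2) (cn := .npp) (n1 := ndB1q1) (n2 := ndB4q2b) (pc := pcB0) (cut := Cut.none) (xt := Ext.none) (P1 := 536870912) (W1 := 536870912) (P2 := 1239849684) (W2 := 370763052) (P3 := 697932185) (W3 := 42949674) (N0 := 3) (En := eng) (mo := mog) (C1 := cd1q1) (C2 := cd4q2b) (C3 := pd0)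
    rfl k0_pm_102_b

noncomputable def f_pm_112_a : ℕ → ℕ → ℕ → ℕ → Bool := onCell 536870912 536870912 0 536870912 697932185 42949674
    (rowB 3 eng mog cd1q1 cd4q2a pd1 2 false true false .dn 1 1 2 (qsf 536870912 536870912 0 536870912 1) ndB1q1 ndB4q2a pcB1 Cut.none Ext.none)

def k0_pm_112_a : ∃ t, chk3 f_pm_112_a t 1 1 1 = true :=
  ⟨(a (b (a (b (l 16457336) (a (l 16345496) (l 16328760))) (a (b (l 16325544) (l 16307904)) (l 1))) (a (b (a (l 16303880) (l 16312272)) (a (b (l 16283592) (l 16283400)) (l 243772026967))) (b (l 1) (l 1)))) (l 1)), by decide +kernel⟩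

theorem c_pm_112_a : CertB 536870912 536870912 0 536870912 697932185 42949674 3 eng mog cd1q1 cd4q2a pd1 false true false .dn 1 1 2
    ndB1q1 ndB4q2a pcB1 Cut.none Ext.none :=
  certB2 (fam := false) (s1 := true) (s2 := false) (a := 1) (b := 1) (c := 2) (cn := .dn) (n1 := ndB1q1) (n2 := ndB4q2a) (pc := pcB1) (cut := Cut.none) (xt := Ext.none) (P1 := 536870912) (W1 := 536870912) (P2 := 0) (W2 := 536870912) (P3 := 697932185) (W3 := 42949674) (N0 := 3) (En := eng) (mo := mog) (C1 := cd1q1) (C2 := cd4q2a) (C3 := pd1)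
    rfl (fun _ => rfl) k0_pm_112_a

noncomputable def f_pm_112_b : ℕ → ℕ → ℕ → ℕ → Bool := onCell 536870912 536870912 1239849684 370763052 697932185 42949674
    (rowB 3 eng mog cd1q1 cd4q2b pd1 0 false true false .dn 1 1 2 (qsf 536870912 536870912 1239849684 370763052 1) ndB1q1 ndB4q2b pcB1 Cut.none Ext.none)

def k0_pm_112_b : ∃ t, chk3 f_pm_112_b t 1 1 1 = true :=
  ⟨(b (b (a (a (a (l 16396608) (l 16390304)) (a (l 16438648) (l 16475272))) (l 1)) (a (a (a (l 16247688) (l 16341680)) (a (l 16423192) (l 16484976))) (a (a (l 16517736) (l 214245000487)) (l 1)))) (a (a (b (a (b (l 16165384) (l 16115320)) (l 16265784)) (a (l 16050792) (b (l 16213216) (l 16189968)))) (b (a (l 16382088) (l 16473176)) (a (b (l 16354720) (l 16344832)) (l 16479440)))) (a (a (b (l 16523656) (l 16557232)) (b (l 16511248) (l 16551160))) (a (b (l 280279989495) (a (l 16494632) (l 16444408))) (b (l 1) (a (b (l 16395784) (l 16397768)) (b (l 1) (l 16344072)))))))), by decide +kernel⟩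

theorem c_pm_112_b : CertB 536870912 536870912 1239849684 370763052 697932185 42949674 3 eng mog cd1q1 cd4q2b pd1 false true false .dn 1 1 2
    ndB1q1 ndB4q2b pcB1 Cut.none Ext.none :=
  certB0 (fam := false) (s1 := true) (s2 := false) (a := 1) (b := 1) (c := 2) (cn := .dn) (n1 := ndB1q1) (n2 := ndB4q2b) (pc := pcB1) (cut := Cut.none) (xt := Ext.none) (P1 := 536870912) (W1 := 536870912) (P2 := 1239849684) (W2 := 370763052) (P3 := 697932185) (W3 := 42949674) (N0 := 3) (En := eng) (mo := mog) (C1 := cd1q1) (C2 := cd4q2b) (C3 := pd1)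
    rfl k0_pm_112_b

noncomputable def f_pm_113 : ℕ → ℕ → ℕ → ℕ → Bool := onCell 536870912 536870912 536870912 536870912 697932185 42949674
    (rowB 3 eng mog cd1q1 cd4q3 pd1 1 false true false .nn 1 1 3 (qsf 536870912 536870912 1610612736 536870912 1) ndB1q1 ndB4q3 pcB1 Cut.none Ext.none)

def k0_pm_113 : ∃ t, chk3 f_pm_113 t 1 1 1 = true :=
  ⟨(b (a (b (l 1) (a (l 1) (b (l 1) (l 16446024)))) (b (a (a (l 1) (b (l 1) (l 16527888))) (a (b (l 16448072) (l 16511456)) (a (b (l 16402960) (l 16481816)) (b (l 16363224) (l 16447896))))) (a (a (b (l 16546160) (l 16593544)) (l 16661968)) (a (b (l 16645384) (a (l 16847040) (l 16908592))) (b (a (l 16652728) (l 16625488)) (a (l 16818824) (a (l 16803392) (l 16736496)))))))) (a (b (a (a (l 1) (b (l 1) (l 16227328))) (b (a (l 16370024) (l 16488632)) (a (l 16331280) (l 16501360)))) (a (a (b (l 16086040) (l 15999160)) (a (l 16110256) (l 16171400))) (a (b (l 16308728) (l 16288008)) (b (l 16540840) (a (l 16454480) (l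 16504712)))))) (b (a (b (a (l 16665568) (l 16928856)) (a (l 16708952) (a (l 16791184) (l 16825464)))) (a (b (b (l 17015312) (l 17038560)) (b (l 16951784) (l 16872184))) (b (a (l 16970880) (a (l 16903296) (l 16859816))) (a (l 16966248) (b (l 16934104) (l 16951144)))))) (a (b (a (a (l 16617768) (l 16652824)) (a (l 16691704) (l 16725256))) (a (a (l 16532216) (l 16552192)) (c (l 16649352) (l 16381048)))) (a (b (a (l 16758928) (l 16794656)) (a (l 16610720) (l 16718640))) (b (a (l 16833888) (b (l 16901048) (l 16850888))) (a (l 16759008) (b (l 16809712) (l 16777248))))))))), by decide +kernel⟩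

theorem c_pm_113 : CertB 536870912 536870912 1610612736 536870912 697932185 42949674 3 eng mog cd1q1 cd4q3 pd1 false true false .nn 1 1 3
    ndB1q1 ndB4q3 pcB1 Cut.none Ext.none :=
  certB1 (fam := false) (s1 := true) (s2 := false) (a := 1) (b := 1) (c := 3) (cn := .nn) (n1 := ndB1q1) (n2 := ndB4q3) (pc := pcB1) (cut := Cut.none) (xt := Ext.none) (P1 := 536870912) (W1 := 536870912) (P2 := 1610612736) (W2 := 536870912) (P3 := 697932185) (W3 := 42949674) (N0 := 3) (En := eng) (mo := mog) (C1 := cd1q1) (C2 := cd4q3) (C3 := pd1)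
    rfl (fun _ => rfl) k0_pm_113

noncomputable def f_pm_123 : ℕ → ℕ → ℕ → ℕ → Bool := onCell 1073741824 536870912 1610612736 536870912 697932185 42949674
    (rowB 3 eng mog cd1q1 cd4q3 pd2 2 false true false .npn 1 2 3 (qsf 536870912 536870912 1610612736 536870912 2) ndB1q1 ndB4q3 pcB2 Cut.none Ext.none)

def k0_pm_123 : ∃ t, chk3 f_pm_123 t 1 1 1 = true :=
  ⟨(a (b (a (b (a (b (l 15934552) (l 16024184)) (b (l 15937144) (l 15982400))) (a (b (l 16183344) (b (l 16337584) (l 16372880))) (b (l 16071048) (l 16209976)))) (b (a (b (l 1) (l 15999976)) (l 1)) (a (b (l 16040472) (l 16123056)) (b (l 16091288) (l 16132632))))) (a (b (b (a (b (l 16397312) (l 16424400)) (l 16276232)) (a (b (l 16455232) (l 16498080)) (b (l 16325448) (l 16366560)))) (a (b (b (l 16551808) (l 16601440)) (a (l 16709592) (l 16651112))) (b (l 16447600) (b (l 16529648) (l 16596952))))) (b (a (b (l 16184744) (a (l 16273896) (l 16244544))) (b (l 16188080) (l 16266032))) (a (a (b (l 16373312)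 (a (l 16498456) (l 16497344))) (b (l 16344624) (l 16454464))) (b (l 16365416) (l 16480368)))))) (b (a (b (l 1) (a (l 251824887207) (l 1))) (l 1)) (a (b (a (b (l 16226096) (l 16303424)) (b (l 16282304) (l 16356824))) (b (a (l 16399320) (l 16441280)) (a (l 16506736) (l 16533928)))) (a (b (l 188473961943) (l 16554552)) (b (l 1) (l 16578224)))))), by decide +kernel⟩

theorem c_pm_123 : CertB 536870912 536870912 1610612736 536870912 697932185 42949674 3 eng mog cd1q1 cd4q3 pd2 false true false .npn 1 2 3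
    ndB1q1 ndB4q3 pcB2 Cut.none Ext.none :=
  certB2 (fam := false) (s1 := true) (s2 := false) (a := 1) (b := 2) (c := 3) (cn := .npn) (n1 := ndB1q1) (n2 := ndB4q3) (pc := pcB2) (cut := Cut.none) (xt := Ext.none) (P1 := 536870912) (W1 := 536870912) (P2 := 1610612736) (W2 := 536870912) (P3 := 697932185) (W3 := 42949674) (N0 := 3) (En := eng) (mo := mog) (C1 := cd1q1) (C2 := cd4q3) (C3 := pd2)
    rfl (fun _ => rfl) k0_pm_123

noncomputable def f_pm_133 : ℕ → ℕ → ℕ → ℕ → Bool := onCell 1610612736 536870912 1610612736 536870912 697932185 42949674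
    (rowB 3 eng mog cd1q1 cd4q3 pd3 2 false true false .dn 1 3 3 (qsf 536870912 536870912 1610612736 536870912 3) ndB1q1 ndB4q3 pcB3 Cut.none Ext.none)

def k0_pm_133 : ∃ t, chk3 f_pm_133 t 1 1 1 = true :=
  ⟨(a (b (l 1) (a (b (l 1) (a (l 16590168) (l 1))) (l 1))) (l 1)), by decide +kernel⟩

theorem c_pm_133 : CertB 536870912 536870912 1610612736 536870912 697932185 42949674 3 eng mog cd1q1 cd4q3 pd3 false true false .dn 1 3 3
    ndB1q1 ndB4q3 pcB3 Cut.none Ext.none :=
  certB2 (fam := false) (s1 := true) (s2 := false) (a := 1) (b := 3) (c := 3) (cn := .dn) (n1 := ndB1q1) (n2 := ndB4q3) (pc := pcB3) (cut := Cut.none) (xt := Ext.none) (P1 := 536870912) (W1 := 536870912) (P2 := 1610612736) (W2 := 536870912) (P3 := 697932185) (W3 := 42949674) (N0 := 3) (En := eng) (mo := mog) (C1 := cd1q1) (C2 := cd4q3) (C3 := pd3)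
    rfl (fun _ => rfl) k0_pm_133

noncomputable def cut_pm_202_aa : Cut := Cut.of [[⟨0, 1, 0, 67108864⟩, ⟨1, 0, 0, 67108864⟩, ⟨2, 1, 0, 67108864⟩]]

noncomputable def f_pm_202_aa : ℕ → ℕ → ℕ → ℕ → Bool := onCell 0 536870912 0 536870912 697932185 42949674
    (rowB 3 eng mog cd1q2a cd4q2a pd0 0 false true false .pp 2 0 2 (qsf 0 536870912 0 536870912 0) ndB1q2a ndB4q2a pcB0 cut_pm_202_aa Ext.none)

def k0_pm_202_aa : ∃ t, chk3 f_pm_202_aa t 1 1 1 = true :=
  ⟨(a (l 3) (b (l 3) (a (l 3) (b (l 3) (a (l 3) (b (l 3) (l 6))))))), by decide +kernel⟩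

theorem c_pm_202_aa : CertB 0 536870912 0 536870912 697932185 42949674 3 eng mog cd1q2a cd4q2a pd0 false true false .pp 2 0 2
    ndB1q2a ndB4q2a pcB0 cut_pm_202_aa Ext.none :=
  certB0 (fam := false) (s1 := true) (s2 := false) (a := 2) (b := 0) (c := 2) (cn := .pp) (n1 := ndB1q2a) (n2 := ndB4q2a) (pc := pcB0) (cut := cut_pm_202_aa) (xt := Ext.none) (P1 := 0) (W1 := 536870912) (P2 := 0) (W2 := 536870912) (P3 := 697932185) (W3 := 42949674) (N0 := 3) (En := eng) (mo := mog) (C1 := cd1q2a) (C2 := cd4q2a) (C3 := pd0)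
    rfl k0_pm_202_aa

noncomputable def cut_pm_202_ab : Cut := Cut.of [[⟨0, 1, 0, 67108864⟩, ⟨1, 0, 0, 67108864⟩, ⟨2, 1, 0, 67108864⟩]]

noncomputable def f_pm_202_ab : ℕ → ℕ → ℕ → ℕ → Bool := onCell 0 536870912 1239849684 370763052 697932185 42949674
    (rowB 3 eng mog cd1q2a cd4q2b pd0 0 false true false .pp 2 0 2 (qsf 0 536870912 1239849684 370763052 0) ndB1q2a ndB4q2b pcB0 cut_pm_202_ab Ext.none)

def k0_pm_202_ab : ∃ t, chk3 f_pm_202_ab t 1 1 1 = true :=
  ⟨(b (l 3) (l 3)), by decide +kernel⟩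

theorem c_pm_202_ab : CertB 0 536870912 1239849684 370763052 697932185 42949674 3 eng mog cd1q2a cd4q2b pd0 false true false .pp 2 0 2
    ndB1q2a ndB4q2b pcB0 cut_pm_202_ab Ext.none :=
  certB0 (fam := false) (s1 := true) (s2 := false) (a := 2) (b := 0) (c := 2) (cn := .pp) (n1 := ndB1q2a) (n2 := ndB4q2b) (pc := pcB0) (cut := cut_pm_202_ab) (xt := Ext.none) (P1 := 0) (W1 := 536870912) (P2 := 1239849684) (W2 := 370763052) (P3 := 697932185) (W3 := 42949674) (N0 := 3) (En := eng) (mo := mog) (C1 := cd1q2a) (C2 := cd4q2b) (C3 := pd0)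
    rfl k0_pm_202_ab

noncomputable def cut_pm_202_ba : Cut := Cut.of [[⟨0, 1, 0, 67108864⟩, ⟨1, 0, 0, 67108864⟩, ⟨2, 1, 0, 67108864⟩]]

noncomputable def f_pm_202_ba : ℕ → ℕ → ℕ → ℕ → Bool := onCell 1239849684 370763052 0 536870912 697932185 42949674
    (rowB 3 eng mog cd1q2b cd4q2a pd0 0 false true false .pp 2 0 2 (qsf 1239849684 370763052 0 536870912 0) ndB1q2b ndB4q2a pcB0 cut_pm_202_ba Ext.none)

def k0_pm_202_ba : ∃ t, chk3 f_pm_202_ba t 1 1 1 = true :=
  ⟨(l 3), by decide +kernel⟩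

theorem c_pm_202_ba : CertB 1239849684 370763052 0 536870912 697932185 42949674 3 eng mog cd1q2b cd4q2a pd0 false true false .pp 2 0 2
    ndB1q2b ndB4q2a pcB0 cut_pm_202_ba Ext.none :=
  certB0 (fam := false) (s1 := true) (s2 := false) (a := 2) (b := 0) (c := 2) (cn := .pp) (n1 := ndB1q2b) (n2 := ndB4q2a) (pc := pcB0) (cut := cut_pm_202_ba) (xt := Ext.none) (P1 := 1239849684) (W1 := 370763052) (P2 := 0) (W2 := 536870912) (P3 := 697932185) (W3 := 42949674) (N0 := 3) (En := eng) (mo := mog) (C1 := cd1q2b) (C2 := cd4q2a) (C3 := pd0)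
    rfl k0_pm_202_ba

noncomputable def cut_pm_202_bb : Cut := Cut.of [[⟨0, 1, 0, 67108864⟩, ⟨1, 0, 0, 67108864⟩, ⟨2, 1, 0, 67108864⟩]]

noncomputable def f_pm_202_bb : ℕ → ℕ → ℕ → ℕ → Bool := onCell 1239849684 370763052 1239849684 370763052 697932185 42949674
    (rowB 3 eng mog cd1q2b cd4q2b pd0 0 false true false .pp 2 0 2 (qsf 1239849684 370763052 1239849684 370763052 0) ndB1q2b ndB4q2b pcB0 cut_pm_202_bb Ext.none)

def k0_pm_202_bb : ∃ t, chk3 f_pm_202_bb t 1 1 1 = true :=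
  ⟨(l 3), by decide +kernel⟩

theorem c_pm_202_bb : CertB 1239849684 370763052 1239849684 370763052 697932185 42949674 3 eng mog cd1q2b cd4q2b pd0 false true false .pp 2 0 2
    ndB1q2b ndB4q2b pcB0 cut_pm_202_bb Ext.none :=
  certB0 (fam := false) (s1 := true) (s2 := false) (a := 2) (b := 0) (c := 2) (cn := .pp) (n1 := ndB1q2b) (n2 := ndB4q2b) (pc := pcB0) (cut := cut_pm_202_bb) (xt := Ext.none) (P1 := 1239849684) (W1 := 370763052) (P2 := 1239849684) (W2 := 370763052) (P3 := 697932185) (W3 := 42949674) (N0 := 3) (En := eng) (mo := mog) (C1 := cd1q2b) (C2 := cd4q2b) (C3 := pd0)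
    rfl k0_pm_202_bb

noncomputable def f_pm_203_a : ℕ → ℕ → ℕ → ℕ → Bool := onCell 0 536870912 0 536870912 697932185 42949674
    (rowB 3 eng mog cd1q2a cd4q3 pd0 1 false true false .up 2 0 3 (qsf 0 536870912 1610612736 536870912 0) ndB1q2a ndB4q3 pcB0 Cut.none Ext.none)

def k0_pm_203_a : ∃ t, chk3 f_pm_203_a t 1 1 1 = true :=
  ⟨(a (l 3) (b (l 1) (l 3))), by decide +kernel⟩

theorem c_pm_203_a : CertB 0 536870912 1610612736 536870912 697932185 42949674 3 eng mog cd1q2a cd4q3 pd0 false true false .up 2 0 3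
    ndB1q2a ndB4q3 pcB0 Cut.none Ext.none :=
  certB1 (fam := false) (s1 := true) (s2 := false) (a := 2) (b := 0) (c := 3) (cn := .up) (n1 := ndB1q2a) (n2 := ndB4q3) (pc := pcB0) (cut := Cut.none) (xt := Ext.none) (P1 := 0) (W1 := 536870912) (P2 := 1610612736) (W2 := 536870912) (P3 := 697932185) (W3 := 42949674) (N0 := 3) (En := eng) (mo := mog) (C1 := cd1q2a) (C2 := cd4q3) (C3 := pd0)
    rfl (fun _ => rfl) k0_pm_203_a

noncomputable def f_pm_203_b : ℕ → ℕ → ℕ → ℕ → Bool := onCell 1239849684 370763052 1610612736 536870912 697932185 42949674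
    (rowB 3 eng mog cd1q2b cd4q3 pd0 0 false true false .up 2 0 3 (qsf 1239849684 370763052 1610612736 536870912 0) ndB1q2b ndB4q3 pcB0 Cut.none Ext.none)

def k0_pm_203_b : ∃ t, chk3 f_pm_203_b t 1 1 1 = true :=
  ⟨(l 3), by decide +kernel⟩

theorem c_pm_203_b : CertB 1239849684 370763052 1610612736 536870912 697932185 42949674 3 eng mog cd1q2b cd4q3 pd0 false true false .up 2 0 3
    ndB1q2b ndB4q3 pcB0 Cut.none Ext.none :=
  certB0 (fam := false) (s1 := true) (s2 := false) (a := 2) (b := 0) (c := 3) (cn := .up) (n1 := ndB1q2b) (n2 := ndB4q3) (pc := pcB0) (cut := Cut.none) (xt := Ext.none) (P1 := 1239849684) (W1 := 370763052) (P2 := 1610612736) (W2 := 536870912) (P3 := 697932185) (W3 := 42949674) (N0 := 3) (En := eng) (mo := mog) (C1 := cd1q2b) (C2 := cd4q3) (C3 := pd0)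
    rfl k0_pm_203_b

noncomputable def cut_pm_213_a : Cut := Cut.of [[⟨0, 1, 0, 67108864⟩, ⟨1, 1, 0, 67108864⟩, ⟨2, 2, 0, 16777216⟩]]

noncomputable def f_pm_213_a : ℕ → ℕ → ℕ → ℕ → Bool := onCell 0 536870912 1610612736 536870912 697932185 42949674
    (rowB 3 eng mog cd1q2a cd4q3 pd1 0 false true false .pnn 2 1 3 (qsf 0 536870912 1610612736 536870912 1) ndB1q2a ndB4q3 pcB1 cut_pm_213_a Ext.none)

def k0_pm_213_a : ∃ t, chk3 f_pm_213_a t 1 1 1 = true :=
  ⟨(a (l 3) (a (l 3) (a (b (l 3) (l 3)) (b (l 3) (b (l 3) (b (l 3) (a (l 3) (b (l 3) (b (l 3) (b (l 3) (l 6))))))))))), by decide +kernel⟩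

theorem c_pm_213_a : CertB 0 536870912 1610612736 536870912 697932185 42949674 3 eng mog cd1q2a cd4q3 pd1 false true false .pnn 2 1 3
    ndB1q2a ndB4q3 pcB1 cut_pm_213_a Ext.none :=
  certB0 (fam := false) (s1 := true) (s2 := false) (a := 2) (b := 1) (c := 3) (cn := .pnn) (n1 := ndB1q2a) (n2 := ndB4q3) (pc := pcB1) (cut := cut_pm_213_a) (xt := Ext.none) (P1 := 0) (W1 := 536870912) (P2 := 1610612736) (W2 := 536870912) (P3 := 697932185) (W3 := 42949674) (N0 := 3) (En := eng) (mo := mog) (C1 := cd1q2a) (C2 := cd4q3) (C3 := pd1)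
    rfl k0_pm_213_a

noncomputable def cut_pm_213_b : Cut := Cut.of [[⟨0, 1, 0, 67108864⟩, ⟨1, 1, 0, 67108864⟩, ⟨2, 2, 0, 16777216⟩]]

noncomputable def f_pm_213_b : ℕ → ℕ → ℕ → ℕ → Bool := onCell 1239849684 370763052 1610612736 536870912 697932185 42949674
    (rowB 3 eng mog cd1q2b cd4q3 pd1 0 false true false .pnn 2 1 3 (qsf 1239849684 370763052 1610612736 536870912 1) ndB1q2b ndB4q3 pcB1 cut_pm_213_b Ext.none)

def k0_pm_213_b : ∃ t, chk3 f_pm_213_b t 1 1 1 = true :=
  ⟨(l 3), by decide +kernel⟩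

theorem c_pm_213_b : CertB 1239849684 370763052 1610612736 536870912 697932185 42949674 3 eng mog cd1q2b cd4q3 pd1 false true false .pnn 2 1 3
    ndB1q2b ndB4q3 pcB1 cut_pm_213_b Ext.none :=
  certB0 (fam := false) (s1 := true) (s2 := false) (a := 2) (b := 1) (c := 3) (cn := .pnn) (n1 := ndB1q2b) (n2 := ndB4q3) (pc := pcB1) (cut := cut_pm_213_b) (xt := Ext.none) (P1 := 1239849684) (W1 := 370763052) (P2 := 1610612736) (W2 := 536870912) (P3 := 697932185) (W3 := 42949674) (N0 := 3) (En := eng) (mo := mog) (C1 := cd1q2b) (C2 := cd4q3) (C3 := pd1)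
    rfl k0_pm_213_b

noncomputable def f_pm_303 : ℕ → ℕ → ℕ → ℕ → Bool := onCell 1610612736 536870912 1610612736 536870912 697932185 42949674
    (rowB 3 eng mog cd1q3 cd4q3 pd0 0 false true false .npn 3 0 3 (qsf 1610612736 536870912 1610612736 536870912 0) ndB1q3 ndB4q3 pcB0 Cut.none Ext.none)

def k0_pm_303 : ∃ t, chk3 f_pm_303 t 1 1 1 = true :=
  ⟨(l 3), by decide +kernel⟩

theorem c_pm_303 : CertB 1610612736 536870912 1610612736 536870912 697932185 42949674 3 eng mog cd1q3 cd4q3 pd0 false true false .npn 3 0 3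
    ndB1q3 ndB4q3 pcB0 Cut.none Ext.none :=
  certB0 (fam := false) (s1 := true) (s2 := false) (a := 3) (b := 0) (c := 3) (cn := .npn) (n1 := ndB1q3) (n2 := ndB4q3) (pc := pcB0) (cut := Cut.none) (xt := Ext.none) (P1 := 1610612736) (W1 := 536870912) (P2 := 1610612736) (W2 := 536870912) (P3 := 697932185) (W3 := 42949674) (N0 := 3) (En := eng) (mo := mog) (C1 := cd1q3) (C2 := cd4q3) (C3 := pd0)
    rfl k0_pm_303

noncomputable def f_pm_313 : ℕ → ℕ → ℕ → ℕ → Bool := onCell 1610612736 536870912 1610612736 536870912 697932185 42949674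
    (rowB 3 eng mog cd1q3 cd4q3 pd1 0 false true false .dn 3 1 3 (qsf 1610612736 536870912 1610612736 536870912 1) ndB1q3 ndB4q3 pcB1 Cut.none Ext.none)

def k0_pm_313 : ∃ t, chk3 f_pm_313 t 1 1 1 = true :=
  ⟨(l 3), by decide +kernel⟩

theorem c_pm_313 : CertB 1610612736 536870912 1610612736 536870912 697932185 42949674 3 eng mog cd1q3 cd4q3 pd1 false true false .dn 3 1 3
    ndB1q3 ndB4q3 pcB1 Cut.none Ext.none :=
  certB0 (fam := false) (s1 := true) (s2 := false) (a := 3) (b := 1) (c := 3) (cn := .dn) (n1 := ndB1q3) (n2 := ndB4q3) (pc := pcB1) (cut := Cut.none) (xt := Ext.none) (P1 := 1610612736) (W1 := 536870912) (P2 := 1610612736) (W2 := 536870912) (P3 := 697932185) (W3 := 42949674) (N0 := 3) (En := eng) (mo := mog) (C1 := cd1q3) (C2 := cd4q3) (C3 := pd1)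
    rfl k0_pm_313

noncomputable def f_mm_001 : ℕ → ℕ → ℕ → ℕ → Bool := onCell 0 536870912 0 536870912 697932185 42949674
    (rowB 3 eng mog cd1q0 cd4q1 pd0 1 false false false .up 0 0 1 (qsf 0 536870912 536870912 536870912 0) ndB1q0 ndB4q1 pcB0 Cut.none Ext.none)

def k0_mm_001 : ∃ t, chk3 f_mm_001 t 1 1 1 = true :=
  ⟨(l 3), by decide +kernel⟩

theorem c_mm_001 : CertB 0 536870912 536870912 536870912 697932185 42949674 3 eng mog cd1q0 cd4q1 pd0 false false false .up 0 0 1
    ndB1q0 ndB4q1 pcB0 Cut.none Ext.none :=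
  certB1 (fam := false) (s1 := false) (s2 := false) (a := 0) (b := 0) (c := 1) (cn := .up) (n1 := ndB1q0) (n2 := ndB4q1) (pc := pcB0) (cut := Cut.none) (xt := Ext.none) (P1 := 0) (W1 := 536870912) (P2 := 536870912) (W2 := 536870912) (P3 := 697932185) (W3 := 42949674) (N0 := 3) (En := eng) (mo := mog) (C1 := cd1q0) (C2 := cd4q1) (C3 := pd0)
    rfl (fun _ => rfl) k0_mm_001

noncomputable def f_mm_011 : ℕ → ℕ → ℕ → ℕ → Bool := onCell 0 536870912 536870912 536870912 697932185 42949674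
    (rowB 3 eng mog cd1q0 cd4q1 pd1 1 false false false .pnn 0 1 1 (qsf 0 536870912 536870912 536870912 1) ndB1q0 ndB4q1 pcB1 Cut.none Ext.none)

def k0_mm_011 : ∃ t, chk3 f_mm_011 t 1 1 1 = true :=
  ⟨(l 5), by decide +kernel⟩

theorem c_mm_011 : CertB 0 536870912 536870912 536870912 697932185 42949674 3 eng mog cd1q0 cd4q1 pd1 false false false .pnn 0 1 1
    ndB1q0 ndB4q1 pcB1 Cut.none Ext.none :=
  certB1 (fam := false) (s1 := false) (s2 := false) (a := 0) (b := 1) (c := 1) (cn := .pnn) (n1 := ndB1q0) (n2 := ndB4q1) (pc := pcB1) (cut := Cut.none) (xt := Ext.none) (P1 := 0) (W1 := 536870912) (P2 := 536870912) (W2 := 536870912) (P3 := 697932185) (W3 := 42949674) (N0 := 3) (En := eng) (mo := mog) (C1 := cd1q0) (C2 := cd4q1) (C3 := pd1)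
    rfl (fun _ => rfl) k0_mm_011

noncomputable def f_mm_012_a : ℕ → ℕ → ℕ → ℕ → Bool := onCell 0 536870912 0 536870912 697932185 42949674
    (rowB 3 eng mog cd1q0 cd4q2a pd1 0 false false false .pnp 0 1 2 (qsf 0 536870912 0 536870912 1) ndB1q0 ndB4q2a pcB1 Cut.none Ext.none)

def k0_mm_012_a : ∃ t, chk3 f_mm_012_a t 1 1 1 = true :=
  ⟨(l 5), by decide +kernel⟩

theorem c_mm_012_a : CertB 0 536870912 0 536870912 697932185 42949674 3 eng mog cd1q0 cd4q2a pd1 false false false .pnp 0 1 2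
    ndB1q0 ndB4q2a pcB1 Cut.none Ext.none :=
  certB0 (fam := false) (s1 := false) (s2 := false) (a := 0) (b := 1) (c := 2) (cn := .pnp) (n1 := ndB1q0) (n2 := ndB4q2a) (pc := pcB1) (cut := Cut.none) (xt := Ext.none) (P1 := 0) (W1 := 536870912) (P2 := 0) (W2 := 536870912) (P3 := 697932185) (W3 := 42949674) (N0 := 3) (En := eng) (mo := mog) (C1 := cd1q0) (C2 := cd4q2a) (C3 := pd1)
    rfl k0_mm_012_a

noncomputable def f_mm_012_b : ℕ → ℕ → ℕ → ℕ → Bool := onCell 0 536870912 1239849684 370763052 697932185 42949674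
    (rowB 3 eng mog cd1q0 cd4q2b pd1 0 false false false .pnp 0 1 2 (qsf 0 536870912 1239849684 370763052 1) ndB1q0 ndB4q2b pcB1 Cut.none Ext.none)

def k0_mm_012_b : ∃ t, chk3 f_mm_012_b t 1 1 1 = true :=
  ⟨(l 5), by decide +kernel⟩

theorem c_mm_012_b : CertB 0 536870912 1239849684 370763052 697932185 42949674 3 eng mog cd1q0 cd4q2b pd1 false false false .pnp 0 1 2
    ndB1q0 ndB4q2b pcB1 Cut.none Ext.none :=
  certB0 (fam := false) (s1 := false) (s2 := false) (a := 0) (b := 1) (c := 2) (cn := .pnp) (n1 := ndB1q0) (n2 := ndB4q2b) (pc := pcB1) (cut := Cut.none) (xt := Ext.none) (P1 := 0) (W1 := 536870912) (P2 := 1239849684) (W2 := 370763052) (P3 := 697932185) (W3 := 42949674) (N0 := 3) (En := eng) (mo := mog) (C1 := cd1q0) (C2 := cd4q2b) (C3 := pd1)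
    rfl k0_mm_012_b

noncomputable def f_mm_022_a : ℕ → ℕ → ℕ → ℕ → Bool := onCell 0 536870912 0 536870912 697932185 42949674
    (rowB 3 eng mog cd1q0 cd4q2a pd2 0 false false false .pp 0 2 2 (qsf 0 536870912 0 536870912 2) ndB1q0 ndB4q2a pcB2 Cut.none Ext.none)

def k0_mm_022_a : ∃ t, chk3 f_mm_022_a t 1 1 1 = true :=
  ⟨(l 5), by decide +kernel⟩

theorem c_mm_022_a : CertB 0 536870912 0 536870912 697932185 42949674 3 eng mog cd1q0 cd4q2a pd2 false false false .pp 0 2 2
    ndB1q0 ndB4q2a pcB2 Cut.none Ext.none :=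
  certB0 (fam := false) (s1 := false) (s2 := false) (a := 0) (b := 2) (c := 2) (cn := .pp) (n1 := ndB1q0) (n2 := ndB4q2a) (pc := pcB2) (cut := Cut.none) (xt := Ext.none) (P1 := 0) (W1 := 536870912) (P2 := 0) (W2 := 536870912) (P3 := 697932185) (W3 := 42949674) (N0 := 3) (En := eng) (mo := mog) (C1 := cd1q0) (C2 := cd4q2a) (C3 := pd2)
    rfl k0_mm_022_a

noncomputable def f_mm_022_b : ℕ → ℕ → ℕ → ℕ → Bool := onCell 0 536870912 1239849684 370763052 697932185 42949674
    (rowB 3 eng mog cd1q0 cd4q2b pd2 0 false false false .pp 0 2 2 (qsf 0 536870912 1239849684 370763052 2) ndB1q0 ndB4q2b pcB2 Cut.none Ext.none)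

def k0_mm_022_b : ∃ t, chk3 f_mm_022_b t 1 1 1 = true :=
  ⟨(l 5), by decide +kernel⟩

theorem c_mm_022_b : CertB 0 536870912 1239849684 370763052 697932185 42949674 3 eng mog cd1q0 cd4q2b pd2 false false false .pp 0 2 2
    ndB1q0 ndB4q2b pcB2 Cut.none Ext.none :=
  certB0 (fam := false) (s1 := false) (s2 := false) (a := 0) (b := 2) (c := 2) (cn := .pp) (n1 := ndB1q0) (n2 := ndB4q2b) (pc := pcB2) (cut := Cut.none) (xt := Ext.none) (P1 := 0) (W1 := 536870912) (P2 := 1239849684) (W2 := 370763052) (P3 := 697932185) (W3 := 42949674) (N0 := 3) (En := eng) (mo := mog) (C1 := cd1q0) (C2 := cd4q2b) (C3 := pd2)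
    rfl k0_mm_022_b

noncomputable def f_mm_023 : ℕ → ℕ → ℕ → ℕ → Bool := onCell 0 536870912 1610612736 536870912 697932185 42949674
    (rowB 3 eng mog cd1q0 cd4q3 pd2 0 false false false .up 0 2 3 (qsf 0 536870912 1610612736 536870912 2) ndB1q0 ndB4q3 pcB2 Cut.none Ext.none)

def k0_mm_023 : ∃ t, chk3 f_mm_023 t 1 1 1 = true :=
  ⟨(l 5), by decide +kernel⟩

theorem c_mm_023 : CertB 0 536870912 1610612736 536870912 697932185 42949674 3 eng mog cd1q0 cd4q3 pd2 false false false .up 0 2 3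
    ndB1q0 ndB4q3 pcB2 Cut.none Ext.none :=
  certB0 (fam := false) (s1 := false) (s2 := false) (a := 0) (b := 2) (c := 3) (cn := .up) (n1 := ndB1q0) (n2 := ndB4q3) (pc := pcB2) (cut := Cut.none) (xt := Ext.none) (P1 := 0) (W1 := 536870912) (P2 := 1610612736) (W2 := 536870912) (P3 := 697932185) (W3 := 42949674) (N0 := 3) (En := eng) (mo := mog) (C1 := cd1q0) (C2 := cd4q3) (C3 := pd2)
    rfl k0_mm_023

noncomputable def f_mm_033 : ℕ → ℕ → ℕ → ℕ → Bool := onCell 0 536870912 1610612736 536870912 697932185 42949674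
    (rowB 3 eng mog cd1q0 cd4q3 pd3 0 false false false .pnn 0 3 3 (qsf 0 536870912 1610612736 536870912 3) ndB1q0 ndB4q3 pcB3 Cut.none Ext.none)

def k0_mm_033 : ∃ t, chk3 f_mm_033 t 1 1 1 = true :=
  ⟨(l 5), by decide +kernel⟩

theorem c_mm_033 : CertB 0 536870912 1610612736 536870912 697932185 42949674 3 eng mog cd1q0 cd4q3 pd3 false false false .pnn 0 3 3
    ndB1q0 ndB4q3 pcB3 Cut.none Ext.none :=
  certB0 (fam := false) (s1 := false) (s2 := false) (a := 0) (b := 3) (c := 3) (cn := .pnn) (n1 := ndB1q0) (n2 := ndB4q3) (pc := pcB3) (cut := Cut.none) (xt := Ext.none) (P1 := 0) (W1 := 536870912) (P2 := 1610612736) (W2 := 536870912) (P3 := 697932185) (W3 := 42949674) (N0 := 3) (En := eng) (mo := mog) (C1 := cd1q0) (C2 := cd4q3) (C3 := pd3)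
    rfl k0_mm_033

noncomputable def f_mm_101 : ℕ → ℕ → ℕ → ℕ → Bool := onCell 536870912 536870912 536870912 536870912 697932185 42949674
    (rowB 3 eng mog cd1q1 cd4q1 pd0 0 false false false .npn 1 0 1 (qsf 536870912 536870912 536870912 536870912 0) ndB1q1 ndB4q1 pcB0 Cut.none Ext.none)

def k0_mm_101 : ∃ t, chk3 f_mm_101 t 1 1 1 = true :=
  ⟨(l 3), by decide +kernel⟩

theorem c_mm_101 : CertB 536870912 536870912 536870912 536870912 697932185 42949674 3 eng mog cd1q1 cd4q1 pd0 false false false .npn 1 0 1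
    ndB1q1 ndB4q1 pcB0 Cut.none Ext.none :=
  certB0 (fam := false) (s1 := false) (s2 := false) (a := 1) (b := 0) (c := 1) (cn := .npn) (n1 := ndB1q1) (n2 := ndB4q1) (pc := pcB0) (cut := Cut.none) (xt := Ext.none) (P1 := 536870912) (W1 := 536870912) (P2 := 536870912) (W2 := 536870912) (P3 := 697932185) (W3 := 42949674) (N0 := 3) (En := eng) (mo := mog) (C1 := cd1q1) (C2 := cd4q1) (C3 := pd0)
    rfl k0_mm_101

noncomputable def f_mm_102_a : ℕ → ℕ → ℕ → ℕ → Bool := onCell 536870912 536870912 0 536870912 697932185 42949674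
    (rowB 3 eng mog cd1q1 cd4q2a pd0 0 false false false .npp 1 0 2 (qsf 536870912 536870912 0 536870912 0) ndB1q1 ndB4q2a pcB0 Cut.none Ext.none)

def k0_mm_102_a : ∃ t, chk3 f_mm_102_a t 1 1 1 = true :=
  ⟨(l 3), by decide +kernel⟩

theorem c_mm_102_a : CertB 536870912 536870912 0 536870912 697932185 42949674 3 eng mog cd1q1 cd4q2a pd0 false false false .npp 1 0 2
    ndB1q1 ndB4q2a pcB0 Cut.none Ext.none :=
  certB0 (fam := false) (s1 := false) (s2 := false) (a := 1) (b := 0) (c := 2) (cn := .npp) (n1 := ndB1q1) (n2 := ndB4q2a) (pc := pcB0) (cut := Cut.none) (xt := Ext.none) (P1 := 536870912) (W1 := 536870912) (P2 := 0) (W2 := 536870912) (P3 := 697932185) (W3 := 42949674) (N0 := 3) (En := eng) (mo := mog) (C1 := cd1q1) (C2 := cd4q2a) (C3 := pd0)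
    rfl k0_mm_102_a

noncomputable def f_mm_102_b : ℕ → ℕ → ℕ → ℕ → Bool := onCell 536870912 536870912 1239849684 370763052 697932185 42949674
    (rowB 3 eng mog cd1q1 cd4q2b pd0 0 false false false .npp 1 0 2 (qsf 536870912 536870912 1239849684 370763052 0) ndB1q1 ndB4q2b pcB0 Cut.none Ext.none)

def k0_mm_102_b : ∃ t, chk3 f_mm_102_b t 1 1 1 = true :=
  ⟨(l 5), by decide +kernel⟩

theorem c_mm_102_b : CertB 536870912 536870912 1239849684 370763052 697932185 42949674 3 eng mog cd1q1 cd4q2b pd0 false false false .npp 1 0 2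
    ndB1q1 ndB4q2b pcB0 Cut.none Ext.none :=
  certB0 (fam := false) (s1 := false) (s2 := false) (a := 1) (b := 0) (c := 2) (cn := .npp) (n1 := ndB1q1) (n2 := ndB4q2b) (pc := pcB0) (cut := Cut.none) (xt := Ext.none) (P1 := 536870912) (W1 := 536870912) (P2 := 1239849684) (W2 := 370763052) (P3 := 697932185) (W3 := 42949674) (N0 := 3) (En := eng) (mo := mog) (C1 := cd1q1) (C2 := cd4q2b) (C3 := pd0)
    rfl k0_mm_102_b

noncomputable def f_mm_112_a : ℕ → ℕ → ℕ → ℕ → Bool := onCell 536870912 536870912 0 536870912 697932185 42949674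
    (rowB 3 eng mog cd1q1 cd4q2a pd1 0 false false false .dn 1 1 2 (qsf 536870912 536870912 0 536870912 1) ndB1q1 ndB4q2a pcB1 Cut.none Ext.none)

def k0_mm_112_a : ∃ t, chk3 f_mm_112_a t 1 1 1 = true :=
  ⟨(l 3), by decide +kernel⟩

theorem c_mm_112_a : CertB 536870912 536870912 0 536870912 697932185 42949674 3 eng mog cd1q1 cd4q2a pd1 false false false .dn 1 1 2
    ndB1q1 ndB4q2a pcB1 Cut.none Ext.none :=
  certB0 (fam := false) (s1 := false) (s2 := false) (a := 1) (b := 1) (c := 2) (cn := .dn) (n1 := ndB1q1) (n2 := ndB4q2a) (pc := pcB1) (cut := Cut.none) (xt := Ext.none) (P1 := 536870912) (W1 := 536870912) (P2 := 0) (W2 := 536870912) (P3 := 697932185) (W3 := 42949674) (N0 := 3) (En := eng) (mo := mog) (C1 := cd1q1) (C2 := cd4q2a) (C3 := pd1)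
    rfl k0_mm_112_a

noncomputable def f_mm_112_b : ℕ → ℕ → ℕ → ℕ → Bool := onCell 536870912 536870912 1239849684 370763052 697932185 42949674
    (rowB 3 eng mog cd1q1 cd4q2b pd1 0 false false false .dn 1 1 2 (qsf 536870912 536870912 1239849684 370763052 1) ndB1q1 ndB4q2b pcB1 Cut.none Ext.none)

def k0_mm_112_b : ∃ t, chk3 f_mm_112_b t 1 1 1 = true :=
  ⟨(l 5), by decide +kernel⟩

theorem c_mm_112_b : CertB 536870912 536870912 1239849684 370763052 697932185 42949674 3 eng mog cd1q1 cd4q2b pd1 false false false .dn 1 1 2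
    ndB1q1 ndB4q2b pcB1 Cut.none Ext.none :=
  certB0 (fam := false) (s1 := false) (s2 := false) (a := 1) (b := 1) (c := 2) (cn := .dn) (n1 := ndB1q1) (n2 := ndB4q2b) (pc := pcB1) (cut := Cut.none) (xt := Ext.none) (P1 := 536870912) (W1 := 536870912) (P2 := 1239849684) (W2 := 370763052) (P3 := 697932185) (W3 := 42949674) (N0 := 3) (En := eng) (mo := mog) (C1 := cd1q1) (C2 := cd4q2b) (C3 := pd1)
    rfl k0_mm_112_b

noncomputable def f_mm_113 : ℕ → ℕ → ℕ → ℕ → Bool := onCell 536870912 536870912 1610612736 536870912 697932185 42949674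
    (rowB 3 eng mog cd1q1 cd4q3 pd1 0 false false false .nn 1 1 3 (qsf 536870912 536870912 1610612736 536870912 1) ndB1q1 ndB4q3 pcB1 Cut.none Ext.none)

def k0_mm_113 : ∃ t, chk3 f_mm_113 t 1 1 1 = true :=
  ⟨(l 5), by decide +kernel⟩

theorem c_mm_113 : CertB 536870912 536870912 1610612736 536870912 697932185 42949674 3 eng mog cd1q1 cd4q3 pd1 false false false .nn 1 1 3
    ndB1q1 ndB4q3 pcB1 Cut.none Ext.none :=
  certB0 (fam := false) (s1 := false) (s2 := false) (a := 1) (b := 1) (c := 3) (cn := .nn) (n1 := ndB1q1) (n2 := ndB4q3) (pc := pcB1) (cut := Cut.none) (xt := Ext.none) (P1 := 536870912) (W1 := 536870912) (P2 := 1610612736) (W2 := 536870912) (P3 := 697932185) (W3 := 42949674) (N0 := 3) (En := eng) (mo := mog) (C1 := cd1q1) (C2 := cd4q3) (C3 := pd1)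
    rfl k0_mm_113

noncomputable def f_mm_123 : ℕ → ℕ → ℕ → ℕ → Bool := onCell 536870912 536870912 1610612736 536870912 697932185 42949674
    (rowB 3 eng mog cd1q1 cd4q3 pd2 0 false false false .npn 1 2 3 (qsf 536870912 536870912 1610612736 536870912 2) ndB1q1 ndB4q3 pcB2 Cut.none Ext.none)

def k0_mm_123 : ∃ t, chk3 f_mm_123 t 1 1 1 = true :=
  ⟨(l 5), by decide +kernel⟩

theorem c_mm_123 : CertB 536870912 536870912 1610612736 536870912 697932185 42949674 3 eng mog cd1q1 cd4q3 pd2 false false false .npn 1 2 3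
    ndB1q1 ndB4q3 pcB2 Cut.none Ext.none :=
  certB0 (fam := false) (s1 := false) (s2 := false) (a := 1) (b := 2) (c := 3) (cn := .npn) (n1 := ndB1q1) (n2 := ndB4q3) (pc := pcB2) (cut := Cut.none) (xt := Ext.none) (P1 := 536870912) (W1 := 536870912) (P2 := 1610612736) (W2 := 536870912) (P3 := 697932185) (W3 := 42949674) (N0 := 3) (En := eng) (mo := mog) (C1 := cd1q1) (C2 := cd4q3) (C3 := pd2)
    rfl k0_mm_123

noncomputable def f_mm_133 : ℕ → ℕ → ℕ → ℕ → Bool := onCell 536870912 536870912 1610612736 536870912 697932185 42949674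
    (rowB 3 eng mog cd1q1 cd4q3 pd3 0 false false false .dn 1 3 3 (qsf 536870912 536870912 1610612736 536870912 3) ndB1q1 ndB4q3 pcB3 Cut.none Ext.none)

def k0_mm_133 : ∃ t, chk3 f_mm_133 t 1 1 1 = true :=
  ⟨(l 5), by decide +kernel⟩

theorem c_mm_133 : CertB 536870912 536870912 1610612736 536870912 697932185 42949674 3 eng mog cd1q1 cd4q3 pd3 false false false .dn 1 3 3
    ndB1q1 ndB4q3 pcB3 Cut.none Ext.none :=
  certB0 (fam := false) (s1 := false) (s2 := false) (a := 1) (b := 3) (c := 3) (cn := .dn) (n1 := ndB1q1) (n2 := ndB4q3) (pc := pcB3) (cut := Cut.none) (xt := Ext.none) (P1 := 536870912) (W1 := 536870912) (P2 := 1610612736) (W2 := 536870912) (P3 := 697932185) (W3 := 42949674) (N0 := 3) (En := eng) (mo := mog) (C1 := cd1q1) (C2 := cd4q3) (C3 := pd3)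
    rfl k0_mm_133

noncomputable def f_mm_202_aa : ℕ → ℕ → ℕ → ℕ → Bool := onCell 0 536870912 0 536870912 697932185 42949674
    (rowB 3 eng mog cd1q2a cd4q2a pd0 0 false false false .pp 2 0 2 (qsf 0 536870912 0 536870912 0) ndB1q2a ndB4q2a pcB0 Cut.none Ext.none)

def k0_mm_202_aa : ∃ t, chk3 f_mm_202_aa t 1 1 1 = true :=
  ⟨(l 3), by decide +kernel⟩

theorem c_mm_202_aa : CertB 0 536870912 0 536870912 697932185 42949674 3 eng mog cd1q2a cd4q2a pd0 false false false .pp 2 0 2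
    ndB1q2a ndB4q2a pcB0 Cut.none Ext.none :=
  certB0 (fam := false) (s1 := false) (s2 := false) (a := 2) (b := 0) (c := 2) (cn := .pp) (n1 := ndB1q2a) (n2 := ndB4q2a) (pc := pcB0) (cut := Cut.none) (xt := Ext.none) (P1 := 0) (W1 := 536870912) (P2 := 0) (W2 := 536870912) (P3 := 697932185) (W3 := 42949674) (N0 := 3) (En := eng) (mo := mog) (C1 := cd1q2a) (C2 := cd4q2a) (C3 := pd0)
    rfl k0_mm_202_aa

noncomputable def f_mm_202_ab : ℕ → ℕ → ℕ → ℕ → Bool := onCell 0 536870912 1239849684 370763052 697932185 42949674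
    (rowB 3 eng mog cd1q2a cd4q2b pd0 0 false false false .pp 2 0 2 (qsf 0 536870912 1239849684 370763052 0) ndB1q2a ndB4q2b pcB0 Cut.none Ext.none)

def k0_mm_202_ab : ∃ t, chk3 f_mm_202_ab t 1 1 1 = true :=
  ⟨(l 3), by decide +kernel⟩

theorem c_mm_202_ab : CertB 0 536870912 1239849684 370763052 697932185 42949674 3 eng mog cd1q2a cd4q2b pd0 false false false .pp 2 0 2
    ndB1q2a ndB4q2b pcB0 Cut.none Ext.none :=
  certB0 (fam := false) (s1 := false) (s2 := false) (a := 2) (b := 0) (c := 2) (cn := .pp) (n1 := ndB1q2a) (n2 := ndB4q2b) (pc := pcB0) (cut := Cut.none) (xt := Ext.none) (P1 := 0) (W1 := 536870912) (P2 := 1239849684) (W2 := 370763052) (P3 := 697932185) (W3 := 42949674) (N0 := 3) (En := eng) (mo := mog) (C1 := cd1q2a) (C2 := cd4q2b) (C3 := pd0)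
    rfl k0_mm_202_ab

noncomputable def f_mm_202_ba : ℕ → ℕ → ℕ → ℕ → Bool := onCell 1239849684 370763052 0 536870912 697932185 42949674
    (rowB 3 eng mog cd1q2b cd4q2a pd0 0 false false false .pp 2 0 2 (qsf 1239849684 370763052 0 536870912 0) ndB1q2b ndB4q2a pcB0 Cut.none Ext.none)

def k0_mm_202_ba : ∃ t, chk3 f_mm_202_ba t 1 1 1 = true :=
  ⟨(l 3), by decide +kernel⟩

theorem c_mm_202_ba : CertB 1239849684 370763052 0 536870912 697932185 42949674 3 eng mog cd1q2b cd4q2a pd0 false false false .pp 2 0 2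
    ndB1q2b ndB4q2a pcB0 Cut.none Ext.none :=
  certB0 (fam := false) (s1 := false) (s2 := false) (a := 2) (b := 0) (c := 2) (cn := .pp) (n1 := ndB1q2b) (n2 := ndB4q2a) (pc := pcB0) (cut := Cut.none) (xt := Ext.none) (P1 := 1239849684) (W1 := 370763052) (P2 := 0) (W2 := 536870912) (P3 := 697932185) (W3 := 42949674) (N0 := 3) (En := eng) (mo := mog) (C1 := cd1q2b) (C2 := cd4q2a) (C3 := pd0)
    rfl k0_mm_202_ba

noncomputable def f_mm_202_bb : ℕ → ℕ → ℕ → ℕ → Bool := onCell 1239849684 370763052 1239849684 370763052 697932185 42949674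
    (rowB 3 eng mog cd1q2b cd4q2b pd0 0 false false false .pp 2 0 2 (qsf 1239849684 370763052 1239849684 370763052 0) ndB1q2b ndB4q2b pcB0 Cut.none Ext.none)

def k0_mm_202_bb : ∃ t, chk3 f_mm_202_bb t 1 1 1 = true :=
  ⟨(l 3), by decide +kernel⟩

theorem c_mm_202_bb : CertB 1239849684 370763052 1239849684 370763052 697932185 42949674 3 eng mog cd1q2b cd4q2b pd0 false false false .pp 2 0 2
    ndB1q2b ndB4q2b pcB0 Cut.none Ext.none :=
  certB0 (fam := false) (s1 := false) (s2 := false) (a := 2) (b := 0) (c := 2) (cn := .pp) (n1 := ndB1q2b) (n2 := ndB4q2b) (pc := pcB0) (cut := Cut.none) (xt := Ext.none) (P1 := 1239849684) (W1 := 370763052) (P2 := 1239849684) (W2 := 370763052) (P3 := 697932185) (W3 := 42949674) (N0 := 3) (En := eng) (mo := mog) (C1 := cd1q2b) (C2 := cd4q2b) (C3 := pd0)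
    rfl k0_mm_202_bb

noncomputable def f_mm_203_a : ℕ → ℕ → ℕ → ℕ → Bool := onCell 0 536870912 0 536870912 697932185 42949674
    (rowB 3 eng mog cd1q2a cd4q3 pd0 1 false false false .up 2 0 3 (qsf 0 536870912 1610612736 536870912 0) ndB1q2a ndB4q3 pcB0 Cut.none Ext.none)

def k0_mm_203_a : ∃ t, chk3 f_mm_203_a t 1 1 1 = true :=
  ⟨(l 3), by decide +kernel⟩

theorem c_mm_203_a : CertB 0 536870912 1610612736 536870912 697932185 42949674 3 eng mog cd1q2a cd4q3 pd0 false false false .up 2 0 3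
    ndB1q2a ndB4q3 pcB0 Cut.none Ext.none :=
  certB1 (fam := false) (s1 := false) (s2 := false) (a := 2) (b := 0) (c := 3) (cn := .up) (n1 := ndB1q2a) (n2 := ndB4q3) (pc := pcB0) (cut := Cut.none) (xt := Ext.none) (P1 := 0) (W1 := 536870912) (P2 := 1610612736) (W2 := 536870912) (P3 := 697932185) (W3 := 42949674) (N0 := 3) (En := eng) (mo := mog) (C1 := cd1q2a) (C2 := cd4q3) (C3 := pd0)
    rfl (fun _ => rfl) k0_mm_203_a

noncomputable def f_mm_203_b : ℕ → ℕ → ℕ → ℕ → Bool := onCell 1239849684 370763052 1610612736 536870912 697932185 42949674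
    (rowB 3 eng mog cd1q2b cd4q3 pd0 0 false false false .up 2 0 3 (qsf 1239849684 370763052 1610612736 536870912 0) ndB1q2b ndB4q3 pcB0 Cut.none Ext.none)

def k0_mm_203_b : ∃ t, chk3 f_mm_203_b t 1 1 1 = true :=
  ⟨(l 3), by decide +kernel⟩

theorem c_mm_203_b : CertB 1239849684 370763052 1610612736 536870912 697932185 42949674 3 eng mog cd1q2b cd4q3 pd0 false false false .up 2 0 3
    ndB1q2b ndB4q3 pcB0 Cut.none Ext.none :=
  certB0 (fam := false) (s1 := false) (s2 := false) (a := 2) (b := 0) (c := 3) (cn := .up) (n1 := ndB1q2b) (n2 := ndB4q3) (pc := pcB0) (cut := Cut.none) (xt := Ext.none) (P1 := 1239849684) (W1 := 370763052) (P2 := 1610612736) (W2 := 536870912) (P3 := 697932185) (W3 := 42949674) (N0 := 3) (En := eng) (mo := mog) (C1 := cd1q2b) (C2 := cd4q3) (C3 := pd0)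
    rfl k0_mm_203_b

noncomputable def f_mm_213_a : ℕ → ℕ → ℕ → ℕ → Bool := onCell 0 536870912 1610612736 536870912 697932185 42949674
    (rowB 3 eng mog cd1q2a cd4q3 pd1 0 false false false .pnn 2 1 3 (qsf 0 536870912 1610612736 536870912 1) ndB1q2a ndB4q3 pcB1 Cut.none Ext.none)

def k0_mm_213_a : ∃ t, chk3 f_mm_213_a t 1 1 1 = true :=
  ⟨(b (l 3) (a (l 3) (l 5))), by decide +kernel⟩

theorem c_mm_213_a : CertB 0 536870912 1610612736 536870912 697932185 42949674 3 eng mog cd1q2a cd4q3 pd1 false false false .pnn 2 1 3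
    ndB1q2a ndB4q3 pcB1 Cut.none Ext.none :=
  certB0 (fam := false) (s1 := false) (s2 := false) (a := 2) (b := 1) (c := 3) (cn := .pnn) (n1 := ndB1q2a) (n2 := ndB4q3) (pc := pcB1) (cut := Cut.none) (xt := Ext.none) (P1 := 0) (W1 := 536870912) (P2 := 1610612736) (W2 := 536870912) (P3 := 697932185) (W3 := 42949674) (N0 := 3) (En := eng) (mo := mog) (C1 := cd1q2a) (C2 := cd4q3) (C3 := pd1)
    rfl k0_mm_213_a

noncomputable def f_mm_213_b : ℕ → ℕ → ℕ → ℕ → Bool := onCell 1239849684 370763052 1610612736 536870912 697932185 42949674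
    (rowB 3 eng mog cd1q2b cd4q3 pd1 0 false false false .pnn 2 1 3 (qsf 1239849684 370763052 1610612736 536870912 1) ndB1q2b ndB4q3 pcB1 Cut.none Ext.none)

def k0_mm_213_b : ∃ t, chk3 f_mm_213_b t 1 1 1 = true :=
  ⟨(l 3), by decide +kernel⟩

theorem c_mm_213_b : CertB 1239849684 370763052 1610612736 536870912 697932185 42949674 3 eng mog cd1q2b cd4q3 pd1 false false false .pnn 2 1 3
    ndB1q2b ndB4q3 pcB1 Cut.none Ext.none :=
  certB0 (fam := false) (s1 := false) (s2 := false) (a := 2) (b := 1) (c := 3) (cn := .pnn) (n1 := ndB1q2b) (n2 := ndB4q3) (pc := pcB1) (cut := Cut.none) (xt := Ext.none) (P1 := 1239849684) (W1 := 370763052) (P2 := 1610612736) (W2 := 536870912) (P3 := 697932185) (W3 := 42949674) (N0 := 3) (En := eng) (mo := mog) (C1 := cd1q2b) (C2 := cd4q3) (C3 := pd1)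
    rfl k0_mm_213_b

noncomputable def f_mm_303 : ℕ → ℕ → ℕ → ℕ → Bool := onCell 1610612736 536870912 1610612736 536870912 697932185 42949674
    (rowB 3 eng mog cd1q3 cd4q3 pd0 0 false false false .npn 3 0 3 (qsf 1610612736 536870912 1610612736 536870912 0) ndB1q3 ndB4q3 pcB0 Cut.none Ext.none)

def k0_mm_303 : ∃ t, chk3 f_mm_303 t 1 1 1 = true :=
  ⟨(l 3), by decide +kernel⟩

theorem c_mm_303 : CertB 1610612736 536870912 1610612736 536870912 697932185 42949674 3 eng mog cd1q3 cd4q3 pd0 false false false .npn 3 0 3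
    ndB1q3 ndB4q3 pcB0 Cut.none Ext.none :=
  certB0 (fam := false) (s1 := false) (s2 := false) (a := 3) (b := 0) (c := 3) (cn := .npn) (n1 := ndB1q3) (n2 := ndB4q3) (pc := pcB0) (cut := Cut.none) (xt := Ext.none) (P1 := 1610612736) (W1 := 536870912) (P2 := 1610612736) (W2 := 536870912) (P3 := 697932185) (W3 := 42949674) (N0 := 3) (En := eng) (mo := mog) (C1 := cd1q3) (C2 := cd4q3) (C3 := pd0)
    rfl k0_mm_303

noncomputable def f_mm_313 : ℕ → ℕ → ℕ → ℕ → Bool := onCell 1610612736 536870912 1610612736 536870912 697932185 42949674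
    (rowB 3 eng mog cd1q3 cd4q3 pd1 0 false false false .dn 3 1 3 (qsf 1610612736 536870912 1610612736 536870912 1) ndB1q3 ndB4q3 pcB1 Cut.none Ext.none)

def k0_mm_313 : ∃ t, chk3 f_mm_313 t 1 1 1 = true :=
  ⟨(l 3), by decide +kernel⟩

theorem c_mm_313 : CertB 1610612736 536870912 1610612736 536870912 697932185 42949674 3 eng mog cd1q3 cd4q3 pd1 false false false .dn 3 1 3
    ndB1q3 ndB4q3 pcB1 Cut.none Ext.none :=
  certB0 (fam := false) (s1 := false) (s2 := false) (a := 3) (b := 1) (c := 3) (cn := .dn) (n1 := ndB1q3) (n2 := ndB4q3) (pc := pcB1) (cut := Cut.none) (xt := Ext.none) (P1 := 1610612736) (W1 := 536870912) (P2 := 1610612736) (W2 := 536870912) (P3 := 697932185) (W3 := 42949674) (N0 := 3) (En := eng) (mo := mog) (C1 := cd1q3) (C2 := cd4q3) (C3 := pd1)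
    rfl k0_mm_313

end Pool.Agent.Strip051.G.I6500_6900.Tab.C.BB14

namespace Pool.Agent.Strip051.G.I6500_6900.Tab.C.BB15

open Pool.Agent.Strip051.PB Pool.Agent.Strip051.PB.T
open Pool.Agent.Strip051.G.I6500_6900.Tab

noncomputable def f_pp_001 : ℕ → ℕ → ℕ → ℕ → Bool := onCell 0 536870912 0 536870912 697932185 42949674
    (rowB 3 eng mog cd1q0 cd5q1 pd0 1 false true true .up 0 0 1 (qsf 0 536870912 536870912 536870912 0) ndB1q0 ndB5q1 pcB0 Cut.none Ext.none)

def k0_pp_001 : ∃ t, chk3 f_pp_001 t 1 1 1 = true :=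
  ⟨(l 3), by decide +kernel⟩

theorem c_pp_001 : CertB 0 536870912 536870912 536870912 697932185 42949674 3 eng mog cd1q0 cd5q1 pd0 false true true .up 0 0 1
    ndB1q0 ndB5q1 pcB0 Cut.none Ext.none :=
  certB1 (fam := false) (s1 := true) (s2 := true) (a := 0) (b := 0) (c := 1) (cn := .up) (n1 := ndB1q0) (n2 := ndB5q1) (pc := pcB0) (cut := Cut.none) (xt := Ext.none) (P1 := 0) (W1 := 536870912) (P2 := 536870912) (W2 := 536870912) (P3 := 697932185) (W3 := 42949674) (N0 := 3) (En := eng) (mo := mog) (C1 := cd1q0) (C2 := cd5q1) (C3 := pd0)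
    rfl (fun _ => rfl) k0_pp_001

noncomputable def cut_pp_011 : Cut := Cut.of [[⟨0, 0, 0, 67108864⟩, ⟨1, 1, 0, 67108864⟩, ⟨2, 1, 0, 67108864⟩]]

noncomputable def f_pp_011 : ℕ → ℕ → ℕ → ℕ → Bool := onCell 0 536870912 536870912 536870912 697932185 42949674
    (rowB 3 eng mog cd1q0 cd5q1 pd1 1 false true true .pnn 0 1 1 (qsf 0 536870912 536870912 536870912 1) ndB1q0 ndB5q1 pcB1 cut_pp_011 Ext.none)

def k0_pp_011 : ∃ t, chk3 f_pp_011 t 1 1 1 = true :=
  ⟨(b (l 3) (b (l 3) (a (b (l 3) (a (a (b (l 3) (a (l 6) (l 3))) (l 3)) (l 2))) (l 2)))), by decide +kernel⟩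

theorem c_pp_011 : CertB 0 536870912 536870912 536870912 697932185 42949674 3 eng mog cd1q0 cd5q1 pd1 false true true .pnn 0 1 1
    ndB1q0 ndB5q1 pcB1 cut_pp_011 Ext.none :=
  certB1 (fam := false) (s1 := true) (s2 := true) (a := 0) (b := 1) (c := 1) (cn := .pnn) (n1 := ndB1q0) (n2 := ndB5q1) (pc := pcB1) (cut := cut_pp_011) (xt := Ext.none) (P1 := 0) (W1 := 536870912) (P2 := 536870912) (W2 := 536870912) (P3 := 697932185) (W3 := 42949674) (N0 := 3) (En := eng) (mo := mog) (C1 := cd1q0) (C2 := cd5q1) (C3 := pd1)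
    rfl (fun _ => rfl) k0_pp_011

noncomputable def f_pp_012 : ℕ → ℕ → ℕ → ℕ → Bool := onCell 0 536870912 536870912 536870912 697932185 42949674
    (rowB 3 eng mog cd1q0 cd5q2 pd1 1 false true true .pnp 0 1 2 (qsf 0 536870912 1073741824 536870912 1) ndB1q0 ndB5q2 pcB1 Cut.none Ext.none)

def k0_pp_012 : ∃ t, chk3 f_pp_012 t 1 1 1 = true :=
  ⟨(l 3), by decide +kernel⟩

theorem c_pp_012 : CertB 0 536870912 1073741824 536870912 697932185 42949674 3 eng mog cd1q0 cd5q2 pd1 false true true .pnp 0 1 2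
    ndB1q0 ndB5q2 pcB1 Cut.none Ext.none :=
  certB1 (fam := false) (s1 := true) (s2 := true) (a := 0) (b := 1) (c := 2) (cn := .pnp) (n1 := ndB1q0) (n2 := ndB5q2) (pc := pcB1) (cut := Cut.none) (xt := Ext.none) (P1 := 0) (W1 := 536870912) (P2 := 1073741824) (W2 := 536870912) (P3 := 697932185) (W3 := 42949674) (N0 := 3) (En := eng) (mo := mog) (C1 := cd1q0) (C2 := cd5q2) (C3 := pd1)
    rfl (fun _ => rfl) k0_pp_012

noncomputable def f_pp_022 : ℕ → ℕ → ℕ → ℕ → Bool := onCell 0 536870912 1073741824 536870912 697932185 42949674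
    (rowB 3 eng mog cd1q0 cd5q2 pd2 1 false true true .pp 0 2 2 (qsf 0 536870912 1073741824 536870912 2) ndB1q0 ndB5q2 pcB2 Cut.none Ext.none)

def k0_pp_022 : ∃ t, chk3 f_pp_022 t 1 4 1 = true :=
  ⟨(b (a (l 3) (l 3)) (a (b (l 3) (a (b (l 3) (b (a (l 3) (a (a (l 3) (l 559049962727)) (c (l 16517448) (l 16522744)))) (b (a (a (l 3) (a (l 16398552) (c (l 16516320) (l 16502616)))) (a (a (l 16400456) (l 16511408)) (a (l 16513024) (l 16509592)))) (a (a (a (l 16514040) (l 16509832)) (a (b (l 16415528) (l 16381464)) (c (l 16494104) (l 16501728)))) (a (a (l 16504680) (l 16509888)) (a (l 16502872) (l 16500296))))))) (b (b (a (l 3) (l 256254843559)) (a (a (l 3) (l 16525872)) (a (l 16518808) (l 16516640)))) (a (b (a (c (l 16520056) (l 16515656)) (b (l 16516128) (l 16509408))) (a (b (l 16527000) (l 16497816)) (l 16499064))) (a (b (a (l 16509352) (l 16528688)) (l 16497112)) (b (l 16571144) (l 16499360))))))) (b (b (a (l 3) (a (l 3) (l 16467968))) (a (a (l 704541994711)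 (l 16506232)) (a (l 16482920) (l 2)))) (a (b (a (a (l 16515664) (l 16509800)) (l 16494304)) (a (b (l 16507936) (l 16502832)) (l 16499216))) (a (a (l 16481808) (l 16467840)) (l 2)))))), by decide +kernel⟩

def k1_pp_022 : ∃ t, chk3 f_pp_022 t 2 10 1 = true :=
  ⟨(b (b (a (a (b (a (a (b (l 16504920) (l 16453928)) (b (l 16503528) (l 16496608))) (b (a (c (l 16510600) (l 16498384)) (l 16495960)) (a (c (l 16421632) (l 16493304)) (l 16492928)))) (a (a (l 16464360) (l 16567200)) (a (a (l 16478864) (l 16481624)) (l 16486840)))) (b (a (b (l 16503224) (l 16492544)) (l 16487272)) (a (a (l 16480280) (l 16473664)) (b (l 16473336) (l 16464216))))) (a (b (a (l 16485464) (l 16484920)) (a (l 16469552) (l 16471528))) (b (a (l 16485392) (l 16490344)) (l 16478240)))) (a (b (a (b (a (a (l 16473512) (l 16472808)) (l 16474680)) (a (a (l 16464800) (l 16467576)) (l 16462800))) (a (b (l 16461200) (l 16450952)) (l 16450808))) (a (b (a (a (l 16456352) (l 16461088)) (l 16451032))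 (b (a (c (l 16455712) (l 16464480)) (l 16442024)) (a (c (l 16513584) (a (l 16436328) (l 16437512))) (c (l 16441800) (l 16449120))))) (b (a (l 16440768) (l 16437768)) (b (a (l 16433080) (l 16431392)) (a (c (l 16434560) (l 16419920)) (c (l 16434544) (l 16419008))))))) (b (a (a (l 16454360) (l 16459040)) (l 16469776)) (b (a (l 16467960) (l 16464336)) (a (b (a (l 16438560) (l 16446808)) (b (b (b (l 16441240) (a (l 16436680) (l 16445760))) (l 16440624)) (l 16439416))) (b (l 16462336) (a (c (l 16461592) (l 16467312)) (l 16467944)))))))) (a (a (a (a (c (b (l 16426880) (l 16382024)) (b (l 16411584) (l 16364944))) (b (l 16417280) (l 16371152))) (b (a (l 16412560) (l 16409192)) (l 16369272))) (a (l 16450920) (l 16414144))) (a (a (b (l 16420072) (l 16394288)) (l 16420544)) (l 16464352)))), by decide +kernel⟩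

def k2_pp_022 : ∃ t, chk3 f_pp_022 t 2 11 1 = true :=
  ⟨(a (a (b (a (b (l 16328176) (l 16287344)) (l 16313112)) (a (a (l 16228960) (l 16236648)) (l 16249816))) (a (b (l 16322464) (l 16269248)) (b (l 16337488) (l 16292720)))) (a (b (a (l 16359936) (l 16381552)) (l 16337200)) (b (l 16415392) (l 16394624)))), by decide +kernel⟩

def k3_pp_022 : ∃ t, chk3 f_pp_022 t 3 5 1 = true :=
  ⟨(b (b (b (a (a (l 16495392) (l 16497672)) (a (l 16486272) (l 2))) (a (b (a (l 16490216) (l 16500288)) (b (a (l 16488888) (l 16500752)) (a (b (l 16487952) (l 16488528)) (b (l 16502392) (l 16505424))))) (l 2))) (a (a (l 16479440) (l 16504736)) (l 2))) (a (a (l 16460616) (l 16544792)) (l 2))), by decide +kernel⟩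

def k4_pp_022 : ∃ t, chk3 f_pp_022 t 1 3 1 = true :=
  ⟨(a (b (a (b (a (b (a (b (l 16186152) (l 16160096)) (b (l 16211304) (l 16189936))) (a (a (l 16119664) (l 16137088)) (l 16163168))) (b (a (l 16228048) (l 16258560)) (a (l 16196872) (l 16232888)))) (a (a (b (a (l 16085352) (l 16105928)) (a (l 16061952) (l 16085608))) (b (l 16136360) (l 16120424))) (a (l 16294744) (l 16212728)))) (b (a (b (l 16312552) (l 16294720)) (l 16564680)) (a (b (l 16286128) (l 16286952)) (l 16435992)))) (a (b (a (a (b (b (l 16065136) (l 16063168)) (b (l 16064576) (l 16069592))) (b (l 16116256) (l 16125280))) (b (a (l 16166440) (l 16217568)) (a (l 16179792) (l 16232104)))) (b (a (a (a (b (l 16062120) (l 16074256)) (l 16100808)) (l 16146264)) (l 16226944)) (a (a (a (b (l 16089888) (l 16106008)) (l 16129568)) (l 16173752)) (l 2)))) (b (a (b (l 16295952) (l 2)) (l 2)) (l 2)))) (b (a (b (a (l 16471736) (l 2)) (l 2)) (l 2)) (l 2))), by decide +kernel⟩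

theorem s5_pp_022 : ∃ t, chk3 f_pp_022 t 2 5 1 = true := ex3_b k1_pp_022 k2_pp_022

theorem s6_pp_022 : ∃ t, chk3 f_pp_022 t 1 5 1 = true := ex3_a s5_pp_022 k3_pp_022

theorem s7_pp_022 : ∃ t, chk3 f_pp_022 t 1 2 1 = true := ex3_b k0_pp_022 s6_pp_022

theorem s8_pp_022 : ∃ t, chk3 f_pp_022 t 1 1 1 = true := ex3_b s7_pp_022 k4_pp_022

theorem c_pp_022 : CertB 0 536870912 1073741824 536870912 697932185 42949674 3 eng mog cd1q0 cd5q2 pd2 false true true .pp 0 2 2
    ndB1q0 ndB5q2 pcB2 Cut.none Ext.none :=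
  certB1 (fam := false) (s1 := true) (s2 := true) (a := 0) (b := 2) (c := 2) (cn := .pp) (n1 := ndB1q0) (n2 := ndB5q2) (pc := pcB2) (cut := Cut.none) (xt := Ext.none) (P1 := 0) (W1 := 536870912) (P2 := 1073741824) (W2 := 536870912) (P3 := 697932185) (W3 := 42949674) (N0 := 3) (En := eng) (mo := mog) (C1 := cd1q0) (C2 := cd5q2) (C3 := pd2)
    rfl (fun _ => rfl) s8_pp_022

noncomputable def f_pp_023 : ℕ → ℕ → ℕ → ℕ → Bool := onCell 1073741824 536870912 0 1230186008 697932185 42949674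
    (rowB 3 eng mog cd1q0 cd5q3 pd2 2 false true true .up 0 2 3 (qsf 0 536870912 0 1230186008 2) ndB1q0 ndB5q3 pcB2 Cut.none Ext.none)

def k0_pp_023 : ∃ t, chk3 f_pp_023 t 1 2 1 = true :=
  ⟨(a (l 2) (a (l 2) (b (l 16828896) (a (l 16612992) (l 16641808))))), by decide +kernel⟩

def k1_pp_023 : ∃ t, chk3 f_pp_023 t 1 3 1 = true :=
  ⟨(b (a (a (l 2) (a (l 2) (b (l 2) (l 16600504)))) (a (b (l 167066719495) (a (l 16575408) (l 16547096))) (b (a (l 16606912) (l 16583664)) (a (l 16525184) (l 16501472))))) (a (a (b (l 2) (a (b (l 2) (l 3)) (b (a (b (l 2) (a (l 16521504) (l 16520352))) (b (a (l 16559592) (l 16552248)) (a (l 16516544) (l 16509424)))) (a (a (l 16470752) (l 16550496)) (a (l 16462584) (l 16470832)))))) (b (b (a (b (l 2) (a (l 2) (b (l 2) (l 16614640)))) (b (l 16531064) (b (l 16524176) (l 16579840)))) (b (a (a (l 2) (l 16594768)) (l 16556608)) (a (a (a (l 16560440) (a (l 16556080) (a (l 16555824) (a (l 16557800) (l 16561328))))) (l 16552256)) (l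 16502704)))) (b (a (a (a (b (l 16544296) (l 16501176)) (b (a (l 16539328) (a (l 16538392) (b (l 16554336) (l 16530368)))) (a (l 16493656) (a (l 16490560) (l 16492072))))) (b (l 16532360) (l 16473344))) (b (l 16472568) (l 16509440))) (a (a (a (l 16487368) (a (l 16495696) (a (l 16499832) (a (l 16503568) (l 16508336))))) (l 16509656)) (b (l 16502088) (l 16469568)))))) (b (b (b (a (l 16491072) (l 16479696)) (a (b (l 16483592) (l 16347000)) (b (a (l 16471936) (l 16423528)) (a (l 16414560) (l 16358096))))) (a (b (a (l 16460104) (l 16444608)) (a (l 16482600) (l 16456240))) (b (a (l 16406856) (l 16340392)) (a (l 16392048) (l 16320344))))) (b (a (b (a (l 16486344) (l 16432224)) (a (l 16480528) (l 16404520))) (b (a (l 16353648) (l 16275168)) (a (l 16322248) (l 16245768)))) (a (a (b (l 16445088) (l 16394256)) (b (l 16362800) (l 16310848))) (a (b (l 16282272) (a (l 16252440) (l 16217528))) (b (l 16211800) (a (l 16188648) (b (l 16172104) (l 16154648)))))))))), by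 decide +kernel⟩

theorem s2_pp_023 : ∃ t, chk3 f_pp_023 t 1 1 1 = true := ex3_b k0_pp_023 k1_pp_023

theorem c_pp_023 : CertB 0 536870912 0 1230186008 697932185 42949674 3 eng mog cd1q0 cd5q3 pd2 false true true .up 0 2 3
    ndB1q0 ndB5q3 pcB2 Cut.none Ext.none :=
  certB2 (fam := false) (s1 := true) (s2 := true) (a := 0) (b := 2) (c := 3) (cn := .up) (n1 := ndB1q0) (n2 := ndB5q3) (pc := pcB2) (cut := Cut.none) (xt := Ext.none) (P1 := 0) (W1 := 536870912) (P2 := 0) (W2 := 1230186008) (P3 := 697932185) (W3 := 42949674) (N0 := 3) (En := eng) (mo := mog) (C1 := cd1q0) (C2 := cd5q3) (C3 := pd2)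
    rfl (fun _ => rfl) s2_pp_023

noncomputable def f_pp_033 : ℕ → ℕ → ℕ → ℕ → Bool := onCell 1610612736 536870912 0 1230186008 697932185 42949674
    (rowB 3 eng mog cd1q0 cd5q3 pd3 2 false true true .pnn 0 3 3 (qsf 0 536870912 0 1230186008 3) ndB1q0 ndB5q3 pcB3 Cut.none Ext.none)

def k0_pp_033 : ∃ t, chk3 f_pp_033 t 1 2 1 = true :=
  ⟨(b (a (a (a (l 16631112) (l 16581288)) (a (l 16539576) (l 16479344))) (l 4)) (a (a (a (l 16657104) (l 16538432)) (a (b (l 16497520) (l 16422904)) (l 16616736))) (a (a (a (l 16324656) (l 16285768)) (a (l 16312200) (l 4))) (l 4)))), by decide +kernel⟩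

def k1_pp_033 : ∃ t, chk3 f_pp_033 t 1 6 1 = true :=
  ⟨(a (a (b (a (l 16536336) (l 16406584)) (a (b (l 16488184) (l 16448440)) (b (l 16323896) (l 16282744)))) (a (b (a (l 16448144) (l 16273680)) (a (a (l 16211032) (l 16349448)) (b (l 16180536) (a (l 16141944) (l 16104696))))) (a (b (b (l 16263096) (l 16197664)) (a (b (l 16148952) (a (l 16088920) (l 16103984))) (b (l 16139112) (a (l 16116736) (l 16112168))))) (b (l 16189816) (b (l 16108968) (l 16079616)))))) (b (a (a (b (l 16176336) (l 16114424)) (a (l 16289104) (b (l 4) (l 16089392)))) (a (l 4) (l 1))) (a (a (b (l 184716236071) (a (l 476773907879) (l 542272149255))) (a (l 631392754103) (l 1))) (l 1)))), by decide +kernel⟩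

def k2_pp_033 : ∃ t, chk3 f_pp_033 t 1 7 1 = true :=
  ⟨(a (b (a (b (b (a (l 16413216) (l 16249096)) (b (a (l 16367736) (l 16202552)) (a (l 16283496) (b (l 16117056) (l 16066720))))) (b (a (l 16259112) (b (l 16072984) (l 16088936))) (a (b (l 16256336) (l 16218776)) (b (l 16104688) (l 16067560))))) (a (b (b (a (a (l 16145272) (l 16153928)) (a (l 16110896) (l 16064736))) (a (b (a (l 16095536) (l 16107880)) (a (l 15978024) (b (l 16016032) (l 15958056)))) (b (a (l 16059080) (b (l 16015480) (l 15974320))) (a (b (l 15962880) (l 15902352)) (b (l 15903712) (b (l 15847344) (l 15829320))))))) (a (b (a (l 15962312) (b (l 15955264) (l 15976128))) (a (b (l 15999736) (l 15961832)) (b (l 186326223911) (l 15956920)))) (b (a (b (l 15898648) (l 15917016)) (b (c (l 15911680) (l 279741331975)) (l 280278279767))) (b (a (l 268467234615) (l 1)) (l 1))))) (b (a (b (a (a (l 16046424) (l 16076912)) (a (l 16105848) (l 16106384))) (a (a (b (c (b (l 16059712) (l 16010256)) (l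 15933984)) (b (l 226591171399) (a (l 15803936) (l 15822096)))) (b (c (b (l 16086600) (l 16039336)) (l 15986176)) (b (l 15924472) (l 1)))) (b (a (b (l 16070952) (l 16013280)) (l 369936002951)) (l 1)))) (b (l 16068928) (l 1))) (l 1)))) (a (b (b (a (b (l 16188920) (l 16179008)) (b (l 16040992) (l 16042064))) (a (l 16162768) (l 175589005623))) (a (b (a (l 16160088) (l 159483050135)) (a (b (l 16135624) (l 289405679703)) (l 291016209943))) (b (l 289405484919) (l 1)))) (b (a (b (a (b (a (l 15936448) (l 1)) (l 1)) (l 1)) (l 1)) (l 1)) (l 1)))) (l 1)), by decide +kernel⟩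

theorem s3_pp_033 : ∃ t, chk3 f_pp_033 t 1 3 1 = true := ex3_b k1_pp_033 k2_pp_033

theorem s4_pp_033 : ∃ t, chk3 f_pp_033 t 1 1 1 = true := ex3_b k0_pp_033 s3_pp_033

theorem c_pp_033 : CertB 0 536870912 0 1230186008 697932185 42949674 3 eng mog cd1q0 cd5q3 pd3 false true true .pnn 0 3 3
    ndB1q0 ndB5q3 pcB3 Cut.none Ext.none :=
  certB2 (fam := false) (s1 := true) (s2 := true) (a := 0) (b := 3) (c := 3) (cn := .pnn) (n1 := ndB1q0) (n2 := ndB5q3) (pc := pcB3) (cut := Cut.none) (xt := Ext.none) (P1 := 0) (W1 := 536870912) (P2 := 0) (W2 := 1230186008) (P3 := 697932185) (W3 := 42949674) (N0 := 3) (En := eng) (mo := mog) (C1 := cd1q0) (C2 := cd5q3) (C3 := pd3)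
    rfl (fun _ => rfl) s4_pp_033

noncomputable def f_pp_101 : ℕ → ℕ → ℕ → ℕ → Bool := onCell 536870912 536870912 0 536870912 697932185 42949674
    (rowB 3 eng mog cd1q1 cd5q1 pd0 1 false true true .npn 1 0 1 (qsf 536870912 536870912 536870912 536870912 0) ndB1q1 ndB5q1 pcB0 Cut.none Ext.none)

def k0_pp_101 : ∃ t, chk3 f_pp_101 t 1 1 1 = true :=
  ⟨(l 3), by decide +kernel⟩

theorem c_pp_101 : CertB 536870912 536870912 536870912 536870912 697932185 42949674 3 eng mog cd1q1 cd5q1 pd0 false true true .npn 1 0 1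
    ndB1q1 ndB5q1 pcB0 Cut.none Ext.none :=
  certB1 (fam := false) (s1 := true) (s2 := true) (a := 1) (b := 0) (c := 1) (cn := .npn) (n1 := ndB1q1) (n2 := ndB5q1) (pc := pcB0) (cut := Cut.none) (xt := Ext.none) (P1 := 536870912) (W1 := 536870912) (P2 := 536870912) (W2 := 536870912) (P3 := 697932185) (W3 := 42949674) (N0 := 3) (En := eng) (mo := mog) (C1 := cd1q1) (C2 := cd5q1) (C3 := pd0)
    rfl (fun _ => rfl) k0_pp_101

noncomputable def f_pp_102 : ℕ → ℕ → ℕ → ℕ → Bool := onCell 536870912 536870912 1073741824 536870912 697932185 42949674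
    (rowB 3 eng mog cd1q1 cd5q2 pd0 0 false true true .npp 1 0 2 (qsf 536870912 536870912 1073741824 536870912 0) ndB1q1 ndB5q2 pcB0 Cut.none Ext.none)

def k0_pp_102 : ∃ t, chk3 f_pp_102 t 1 1 1 = true :=
  ⟨(l 3), by decide +kernel⟩

theorem c_pp_102 : CertB 536870912 536870912 1073741824 536870912 697932185 42949674 3 eng mog cd1q1 cd5q2 pd0 false true true .npp 1 0 2
    ndB1q1 ndB5q2 pcB0 Cut.none Ext.none :=
  certB0 (fam := false) (s1 := true) (s2 := true) (a := 1) (b := 0) (c := 2) (cn := .npp) (n1 := ndB1q1) (n2 := ndB5q2) (pc := pcB0) (cut := Cut.none) (xt := Ext.none) (P1 := 536870912) (W1 := 536870912) (P2 := 1073741824) (W2 := 536870912) (P3 := 697932185) (W3 := 42949674) (N0 := 3) (En := eng) (mo := mog) (C1 := cd1q1) (C2 := cd5q2) (C3 := pd0)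
    rfl k0_pp_102

noncomputable def f_pp_112 : ℕ → ℕ → ℕ → ℕ → Bool := onCell 536870912 536870912 1073741824 536870912 697932185 42949674
    (rowB 3 eng mog cd1q1 cd5q2 pd1 0 false true true .dn 1 1 2 (qsf 536870912 536870912 1073741824 536870912 1) ndB1q1 ndB5q2 pcB1 Cut.none Ext.none)

def k0_pp_112 : ∃ t, chk3 f_pp_112 t 1 1 1 = true :=
  ⟨(l 3), by decide +kernel⟩

theorem c_pp_112 : CertB 536870912 536870912 1073741824 536870912 697932185 42949674 3 eng mog cd1q1 cd5q2 pd1 false true true .dn 1 1 2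
    ndB1q1 ndB5q2 pcB1 Cut.none Ext.none :=
  certB0 (fam := false) (s1 := true) (s2 := true) (a := 1) (b := 1) (c := 2) (cn := .dn) (n1 := ndB1q1) (n2 := ndB5q2) (pc := pcB1) (cut := Cut.none) (xt := Ext.none) (P1 := 536870912) (W1 := 536870912) (P2 := 1073741824) (W2 := 536870912) (P3 := 697932185) (W3 := 42949674) (N0 := 3) (En := eng) (mo := mog) (C1 := cd1q1) (C2 := cd5q2) (C3 := pd1)
    rfl k0_pp_112

noncomputable def f_pp_113 : ℕ → ℕ → ℕ → ℕ → Bool := onCell 536870912 536870912 0 1230186008 697932185 42949674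
    (rowB 3 eng mog cd1q1 cd5q3 pd1 2 false true true .nn 1 1 3 (qsf 536870912 536870912 0 1230186008 1) ndB1q1 ndB5q3 pcB1 Cut.none Ext.none)

def k0_pp_113 : ∃ t, chk3 f_pp_113 t 1 1 1 = true :=
  ⟨(a (b (l 2) (b (l 3) (l 3))) (b (a (l 2) (b (a (l 2) (a (l 2) (a (b (l 2) (l 502678875671)) (b (l 16764760) (l 225116783959))))) (a (l 3) (a (l 3) (a (l 3) (b (b (l 16694288) (l 420537595015)) (l 3))))))) (b (a (l 3) (l 3)) (l 3)))), by decide +kernel⟩

theorem c_pp_113 : CertB 536870912 536870912 0 1230186008 697932185 42949674 3 eng mog cd1q1 cd5q3 pd1 false true true .nn 1 1 3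
    ndB1q1 ndB5q3 pcB1 Cut.none Ext.none :=
  certB2 (fam := false) (s1 := true) (s2 := true) (a := 1) (b := 1) (c := 3) (cn := .nn) (n1 := ndB1q1) (n2 := ndB5q3) (pc := pcB1) (cut := Cut.none) (xt := Ext.none) (P1 := 536870912) (W1 := 536870912) (P2 := 0) (W2 := 1230186008) (P3 := 697932185) (W3 := 42949674) (N0 := 3) (En := eng) (mo := mog) (C1 := cd1q1) (C2 := cd5q3) (C3 := pd1)
    rfl (fun _ => rfl) k0_pp_113

noncomputable def f_pp_123 : ℕ → ℕ → ℕ → ℕ → Bool := onCell 1073741824 536870912 0 1230186008 697932185 42949674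
    (rowB 3 eng mog cd1q1 cd5q3 pd2 2 false true true .npn 1 2 3 (qsf 536870912 536870912 0 1230186008 2) ndB1q1 ndB5q3 pcB2 Cut.none Ext.none)

def k0_pp_123 : ∃ t, chk3 f_pp_123 t 1 2 1 = true :=
  ⟨(a (a (a (b (a (b (l 16759616) (l 16786328)) (l 16749360)) (a (b (a (l 16811440) (l 16819448)) (b (l 184314314343) (l 256255020103))) (b (l 16786600) (l 16839040)))) (b (b (l 16653440) (l 16674072)) (b (l 16708472) (l 17011592)))) (b (c (a (a (l 16715152) (l 16650576)) (l 16687024)) (a (a (l 16707240) (l 16681280)) (l 16673520))) (a (a (b (l 16634016) (l 16794272)) (l 16824176)) (l 16854856)))) (a (b (a (l 16582312) (l 16602232)) (b (l 16611600) (l 16731960))) (b (l 16818912) (b (l 16660632) (l 16657088))))), by decide +kernel⟩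

def k1_pp_123 : ∃ t, chk3 f_pp_123 t 1 6 1 = true :=
  ⟨(a (a (a (a (b (a (l 3) (b (l 259476316247) (l 466171712007))) (b (l 3) (l 3))) (b (a (b (l 16894392) (l 16804640)) (b (l 16869568) (l 16869296))) (b (a (b (l 16866432) (l 16805168)) (l 16773968)) (a (a (l 3) (l 273434915143)) (a (b (l 16804544) (l 16766848)) (l 16775432)))))) (b (a (b (l 16830016) (l 16837528)) (l 16788656)) (a (b (a (l 16817264) (l 16793456)) (a (b (l 16776368) (l 16739872)) (l 16737104))) (b (l 16739944) (a (l 16712640) (l 16691264)))))) (a (b (a (a (l 16753456) (l 16740472)) (l 16706656)) (a (a (l 16701296) (b (l 16714944) (l 16663080))) (l 16659016))) (b (l 16676288) (l 16623168)))) (a (a (b (l 16652576) (l 16597736)) (l 266858581847)) (b (l 16651344) (l 1)))), by decide +kernel⟩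

def k2_pp_123 : ∃ t, chk3 f_pp_123 t 4 7 1 = true :=
  ⟨(b (a (a (l 3) (a (b (l 3) (l 3)) (a (b (b (l 274508524855) (b (b (l 282561562791) (l 276119253639)) (b (l 270750624215) (b (l 265918859735) (l 16795360))))) (l 3)) (b (b (l 16668872) (b (b (b (l 16683976) (l 16698936)) (a (l 16733736) (l 16726960))) (b (a (l 16762216) (l 16754352)) (b (c (l 16793320) (l 16758840)) (l 16774248))))) (b (b (a (l 16739632) (l 16731728)) (l 16713208)) (b (l 16627152) (l 16620736))))))) (b (a (b (a (l 16696656) (l 16674584)) (b (a (b (l 16677592) (l 16707720)) (b (l 16652608) (l 16679504))) (a (b (a (l 16743904) (l 16727880)) (a (l 16760072) (l 16743904))) (b (l 16705032) (l 16720304))))) (b (l 16642920) (b (a (l 16642360) (l 16621720)) (a (l 16686984) (l 16665016))))) (a (b (a (b (a (l 16724152) (l 16710800)) (a (l 16669184) (l 16662584))) (l 16668528)) (a (b (a (l 16619976) (l 16616176)) (l 16611328)) (a (l 16608848) (l 16602464)))) (b (a (l 16648624) (l 16632112))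 (a (l 16593896) (l 16585136)))))) (a (b (l 3) (l 3)) (b (a (b (a (b (l 16599472) (l 16571328)) (b (l 16593568) (l 16569480))) (a (l 16537504) (l 16539376))) (b (a (l 16575832) (l 16571568)) (a (l 16540704) (l 1)))) (a (a (l 16562064) (l 1)) (l 1))))), by decide +kernel⟩

def k3_pp_123 : ∃ t, chk3 f_pp_123 t 5 7 1 = true :=
  ⟨(b (b (a (b (a (a (l 16613264) (a (l 16602576) (l 16602232))) (l 16582088)) (a (a (b (l 16606128) (l 16648648)) (a (b (l 16598400) (l 16640840)) (a (b (l 16596424) (l 16639464)) (b (l 16598968) (a (l 16640432) (l 16642016)))))) (b (l 16585696) (l 16630704)))) (b (l 16554440) (b (l 16561912) (l 16611176)))) (a (a (a (b (l 16620120) (l 16578760)) (b (a (l 16615056) (a (l 16615304) (a (l 16617520) (l 16621368)))) (a (l 16577184) (a (l 16578840) (a (l 16581936) (l 16586304)))))) (b (l 16614688) (l 16585784))) (l 1))) (b (a (a (a (b (l 16568784) (l 1)) (l 1)) (l 1)) (l 1)) (l 1))), by decide +kernel⟩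

def k4_pp_123 : ∃ t, chk3 f_pp_123 t 3 7 1 = true :=
  ⟨(l 1), by decide +kernel⟩

theorem s5_pp_123 : ∃ t, chk3 f_pp_123 t 2 7 1 = true := ex3_a k2_pp_123 k3_pp_123

theorem s6_pp_123 : ∃ t, chk3 f_pp_123 t 1 7 1 = true := ex3_a s5_pp_123 k4_pp_123

theorem s7_pp_123 : ∃ t, chk3 f_pp_123 t 1 3 1 = true := ex3_b k1_pp_123 s6_pp_123

theorem s8_pp_123 : ∃ t, chk3 f_pp_123 t 1 1 1 = true := ex3_b k0_pp_123 s7_pp_123

theorem c_pp_123 : CertB 536870912 536870912 0 1230186008 697932185 42949674 3 eng mog cd1q1 cd5q3 pd2 false true true .npn 1 2 3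
    ndB1q1 ndB5q3 pcB2 Cut.none Ext.none :=
  certB2 (fam := false) (s1 := true) (s2 := true) (a := 1) (b := 2) (c := 3) (cn := .npn) (n1 := ndB1q1) (n2 := ndB5q3) (pc := pcB2) (cut := Cut.none) (xt := Ext.none) (P1 := 536870912) (W1 := 536870912) (P2 := 0) (W2 := 1230186008) (P3 := 697932185) (W3 := 42949674) (N0 := 3) (En := eng) (mo := mog) (C1 := cd1q1) (C2 := cd5q3) (C3 := pd2)
    rfl (fun _ => rfl) s8_pp_123

noncomputable def f_pp_133 : ℕ → ℕ → ℕ → ℕ → Bool := onCell 536870912 536870912 0 1230186008 697932185 42949674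
    (rowB 3 eng mog cd1q1 cd5q3 pd3 0 false true true .dn 1 3 3 (qsf 536870912 536870912 0 1230186008 3) ndB1q1 ndB5q3 pcB3 Cut.none Ext.none)

def k0_pp_133 : ∃ t, chk3 f_pp_133 t 1 1 1 = true :=
  ⟨(b (b (a (a (a (l 16747320) (l 1)) (l 1)) (l 1)) (l 1)) (l 1)), by decide +kernel⟩

theorem c_pp_133 : CertB 536870912 536870912 0 1230186008 697932185 42949674 3 eng mog cd1q1 cd5q3 pd3 false true true .dn 1 3 3
    ndB1q1 ndB5q3 pcB3 Cut.none Ext.none :=
  certB0 (fam := false) (s1 := true) (s2 := true) (a := 1) (b := 3) (c := 3) (cn := .dn) (n1 := ndB1q1) (n2 := ndB5q3) (pc := pcB3) (cut := Cut.none) (xt := Ext.none) (P1 := 536870912) (W1 := 536870912) (P2 := 0) (W2 := 1230186008) (P3 := 697932185) (W3 := 42949674) (N0 := 3) (En := eng) (mo := mog) (C1 := cd1q1) (C2 := cd5q3) (C3 := pd3)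
    rfl k0_pp_133

noncomputable def f_pp_202_a : ℕ → ℕ → ℕ → ℕ → Bool := onCell 0 536870912 1073741824 536870912 697932185 42949674
    (rowB 3 eng mog cd1q2a cd5q2 pd0 0 false true true .pp 2 0 2 (qsf 0 536870912 1073741824 536870912 0) ndB1q2a ndB5q2 pcB0 Cut.none Ext.none)

def k0_pp_202_a : ∃ t, chk3 f_pp_202_a t 1 1 1 = true :=
  ⟨(l 3), by decide +kernel⟩

theorem c_pp_202_a : CertB 0 536870912 1073741824 536870912 697932185 42949674 3 eng mog cd1q2a cd5q2 pd0 false true true .pp 2 0 2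
    ndB1q2a ndB5q2 pcB0 Cut.none Ext.none :=
  certB0 (fam := false) (s1 := true) (s2 := true) (a := 2) (b := 0) (c := 2) (cn := .pp) (n1 := ndB1q2a) (n2 := ndB5q2) (pc := pcB0) (cut := Cut.none) (xt := Ext.none) (P1 := 0) (W1 := 536870912) (P2 := 1073741824) (W2 := 536870912) (P3 := 697932185) (W3 := 42949674) (N0 := 3) (En := eng) (mo := mog) (C1 := cd1q2a) (C2 := cd5q2) (C3 := pd0)
    rfl k0_pp_202_a

noncomputable def f_pp_202_b : ℕ → ℕ → ℕ → ℕ → Bool := onCell 1239849684 370763052 1073741824 536870912 697932185 42949674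
    (rowB 3 eng mog cd1q2b cd5q2 pd0 0 false true true .pp 2 0 2 (qsf 1239849684 370763052 1073741824 536870912 0) ndB1q2b ndB5q2 pcB0 Cut.none Ext.none)

def k0_pp_202_b : ∃ t, chk3 f_pp_202_b t 1 1 1 = true :=
  ⟨(l 3), by decide +kernel⟩

theorem c_pp_202_b : CertB 1239849684 370763052 1073741824 536870912 697932185 42949674 3 eng mog cd1q2b cd5q2 pd0 false true true .pp 2 0 2
    ndB1q2b ndB5q2 pcB0 Cut.none Ext.none :=
  certB0 (fam := false) (s1 := true) (s2 := true) (a := 2) (b := 0) (c := 2) (cn := .pp) (n1 := ndB1q2b) (n2 := ndB5q2) (pc := pcB0) (cut := Cut.none) (xt := Ext.none) (P1 := 1239849684) (W1 := 370763052) (P2 := 1073741824) (W2 := 536870912) (P3 := 697932185) (W3 := 42949674) (N0 := 3) (En := eng) (mo := mog) (C1 := cd1q2b) (C2 := cd5q2) (C3 := pd0)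
    rfl k0_pp_202_b

noncomputable def f_pp_203_a : ℕ → ℕ → ℕ → ℕ → Bool := onCell 0 536870912 0 1230186008 697932185 42949674
    (rowB 3 eng mog cd1q2a cd5q3 pd0 0 false true true .up 2 0 3 (qsf 0 536870912 0 1230186008 0) ndB1q2a ndB5q3 pcB0 Cut.none Ext.none)

def k0_pp_203_a : ∃ t, chk3 f_pp_203_a t 1 1 1 = true :=
  ⟨(b (l 2) (l 3)), by decide +kernel⟩

theorem c_pp_203_a : CertB 0 536870912 0 1230186008 697932185 42949674 3 eng mog cd1q2a cd5q3 pd0 false true true .up 2 0 3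
    ndB1q2a ndB5q3 pcB0 Cut.none Ext.none :=
  certB0 (fam := false) (s1 := true) (s2 := true) (a := 2) (b := 0) (c := 3) (cn := .up) (n1 := ndB1q2a) (n2 := ndB5q3) (pc := pcB0) (cut := Cut.none) (xt := Ext.none) (P1 := 0) (W1 := 536870912) (P2 := 0) (W2 := 1230186008) (P3 := 697932185) (W3 := 42949674) (N0 := 3) (En := eng) (mo := mog) (C1 := cd1q2a) (C2 := cd5q3) (C3 := pd0)
    rfl k0_pp_203_a

noncomputable def f_pp_203_b : ℕ → ℕ → ℕ → ℕ → Bool := onCell 1239849684 370763052 0 1230186008 697932185 42949674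
    (rowB 3 eng mog cd1q2b cd5q3 pd0 0 false true true .up 2 0 3 (qsf 1239849684 370763052 0 1230186008 0) ndB1q2b ndB5q3 pcB0 Cut.none Ext.none)

def k0_pp_203_b : ∃ t, chk3 f_pp_203_b t 1 1 1 = true :=
  ⟨(b (l 3) (l 3)), by decide +kernel⟩

theorem c_pp_203_b : CertB 1239849684 370763052 0 1230186008 697932185 42949674 3 eng mog cd1q2b cd5q3 pd0 false true true .up 2 0 3
    ndB1q2b ndB5q3 pcB0 Cut.none Ext.none :=
  certB0 (fam := false) (s1 := true) (s2 := true) (a := 2) (b := 0) (c := 3) (cn := .up) (n1 := ndB1q2b) (n2 := ndB5q3) (pc := pcB0) (cut := Cut.none) (xt := Ext.none) (P1 := 1239849684) (W1 := 370763052) (P2 := 0) (W2 := 1230186008) (P3 := 697932185) (W3 := 42949674) (N0 := 3) (En := eng) (mo := mog) (C1 := cd1q2b) (C2 := cd5q3) (C3 := pd0)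
    rfl k0_pp_203_b

noncomputable def cut_pp_213_a : Cut := Cut.of [[⟨0, 1, 0, 67108864⟩, ⟨1, 1, 0, 67108864⟩, ⟨2, 2, 0, 16777216⟩]]

noncomputable def f_pp_213_a : ℕ → ℕ → ℕ → ℕ → Bool := onCell 0 536870912 0 1230186008 697932185 42949674
    (rowB 3 eng mog cd1q2a cd5q3 pd1 0 false true true .pnn 2 1 3 (qsf 0 536870912 0 1230186008 1) ndB1q2a ndB5q3 pcB1 cut_pp_213_a Ext.none)

def k0_pp_213_a : ∃ t, chk3 f_pp_213_a t 1 1 1 = true :=
  ⟨(b (a (l 3) (b (a (l 3) (a (l 3) (b (l 6) (l 3)))) (l 3))) (l 3)), by decide +kernel⟩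

theorem c_pp_213_a : CertB 0 536870912 0 1230186008 697932185 42949674 3 eng mog cd1q2a cd5q3 pd1 false true true .pnn 2 1 3
    ndB1q2a ndB5q3 pcB1 cut_pp_213_a Ext.none :=
  certB0 (fam := false) (s1 := true) (s2 := true) (a := 2) (b := 1) (c := 3) (cn := .pnn) (n1 := ndB1q2a) (n2 := ndB5q3) (pc := pcB1) (cut := cut_pp_213_a) (xt := Ext.none) (P1 := 0) (W1 := 536870912) (P2 := 0) (W2 := 1230186008) (P3 := 697932185) (W3 := 42949674) (N0 := 3) (En := eng) (mo := mog) (C1 := cd1q2a) (C2 := cd5q3) (C3 := pd1)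
    rfl k0_pp_213_a

noncomputable def cut_pp_213_b : Cut := Cut.of [[⟨0, 1, 0, 67108864⟩, ⟨1, 1, 0, 67108864⟩, ⟨2, 2, 0, 16777216⟩]]

noncomputable def f_pp_213_b : ℕ → ℕ → ℕ → ℕ → Bool := onCell 1239849684 370763052 0 1230186008 697932185 42949674
    (rowB 3 eng mog cd1q2b cd5q3 pd1 0 false true true .pnn 2 1 3 (qsf 1239849684 370763052 0 1230186008 1) ndB1q2b ndB5q3 pcB1 cut_pp_213_b Ext.none)

def k0_pp_213_b : ∃ t, chk3 f_pp_213_b t 1 1 1 = true :=
  ⟨(b (l 3) (l 3)), by decide +kernel⟩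

theorem c_pp_213_b : CertB 1239849684 370763052 0 1230186008 697932185 42949674 3 eng mog cd1q2b cd5q3 pd1 false true true .pnn 2 1 3
    ndB1q2b ndB5q3 pcB1 cut_pp_213_b Ext.none :=
  certB0 (fam := false) (s1 := true) (s2 := true) (a := 2) (b := 1) (c := 3) (cn := .pnn) (n1 := ndB1q2b) (n2 := ndB5q3) (pc := pcB1) (cut := cut_pp_213_b) (xt := Ext.none) (P1 := 1239849684) (W1 := 370763052) (P2 := 0) (W2 := 1230186008) (P3 := 697932185) (W3 := 42949674) (N0 := 3) (En := eng) (mo := mog) (C1 := cd1q2b) (C2 := cd5q3) (C3 := pd1)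
    rfl k0_pp_213_b

noncomputable def f_pp_303 : ℕ → ℕ → ℕ → ℕ → Bool := onCell 1610612736 536870912 0 1230186008 697932185 42949674
    (rowB 3 eng mog cd1q3 cd5q3 pd0 0 false true true .npn 3 0 3 (qsf 1610612736 536870912 0 1230186008 0) ndB1q3 ndB5q3 pcB0 Cut.none Ext.none)

def k0_pp_303 : ∃ t, chk3 f_pp_303 t 1 1 1 = true :=
  ⟨(b (l 3) (l 3)), by decide +kernel⟩

theorem c_pp_303 : CertB 1610612736 536870912 0 1230186008 697932185 42949674 3 eng mog cd1q3 cd5q3 pd0 false true true .npn 3 0 3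
    ndB1q3 ndB5q3 pcB0 Cut.none Ext.none :=
  certB0 (fam := false) (s1 := true) (s2 := true) (a := 3) (b := 0) (c := 3) (cn := .npn) (n1 := ndB1q3) (n2 := ndB5q3) (pc := pcB0) (cut := Cut.none) (xt := Ext.none) (P1 := 1610612736) (W1 := 536870912) (P2 := 0) (W2 := 1230186008) (P3 := 697932185) (W3 := 42949674) (N0 := 3) (En := eng) (mo := mog) (C1 := cd1q3) (C2 := cd5q3) (C3 := pd0)
    rfl k0_pp_303

noncomputable def f_pp_313 : ℕ → ℕ → ℕ → ℕ → Bool := onCell 1610612736 536870912 0 1230186008 697932185 42949674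
    (rowB 3 eng mog cd1q3 cd5q3 pd1 0 false true true .dn 3 1 3 (qsf 1610612736 536870912 0 1230186008 1) ndB1q3 ndB5q3 pcB1 Cut.none Ext.none)

def k0_pp_313 : ∃ t, chk3 f_pp_313 t 1 1 1 = true :=
  ⟨(b (l 3) (l 1)), by decide +kernel⟩

theorem c_pp_313 : CertB 1610612736 536870912 0 1230186008 697932185 42949674 3 eng mog cd1q3 cd5q3 pd1 false true true .dn 3 1 3
    ndB1q3 ndB5q3 pcB1 Cut.none Ext.none :=
  certB0 (fam := false) (s1 := true) (s2 := true) (a := 3) (b := 1) (c := 3) (cn := .dn) (n1 := ndB1q3) (n2 := ndB5q3) (pc := pcB1) (cut := Cut.none) (xt := Ext.none) (P1 := 1610612736) (W1 := 536870912) (P2 := 0) (W2 := 1230186008) (P3 := 697932185) (W3 := 42949674) (N0 := 3) (En := eng) (mo := mog) (C1 := cd1q3) (C2 := cd5q3) (C3 := pd1)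
    rfl k0_pp_313

noncomputable def f_pm_001 : ℕ → ℕ → ℕ → ℕ → Bool := onCell 0 536870912 536870912 536870912 697932185 42949674
    (rowB 3 eng mog cd1q0 cd5q1 pd0 0 false true false .up 0 0 1 (qsf 0 536870912 536870912 536870912 0) ndB1q0 ndB5q1 pcB0 Cut.none Ext.none)

def k0_pm_001 : ∃ t, chk3 f_pm_001 t 1 1 1 = true :=
  ⟨(l 4), by decide +kernel⟩

theorem c_pm_001 : CertB 0 536870912 536870912 536870912 697932185 42949674 3 eng mog cd1q0 cd5q1 pd0 false true false .up 0 0 1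
    ndB1q0 ndB5q1 pcB0 Cut.none Ext.none :=
  certB0 (fam := false) (s1 := true) (s2 := false) (a := 0) (b := 0) (c := 1) (cn := .up) (n1 := ndB1q0) (n2 := ndB5q1) (pc := pcB0) (cut := Cut.none) (xt := Ext.none) (P1 := 0) (W1 := 536870912) (P2 := 536870912) (W2 := 536870912) (P3 := 697932185) (W3 := 42949674) (N0 := 3) (En := eng) (mo := mog) (C1 := cd1q0) (C2 := cd5q1) (C3 := pd0)
    rfl k0_pm_001

noncomputable def f_pm_011 : ℕ → ℕ → ℕ → ℕ → Bool := onCell 0 536870912 536870912 536870912 697932185 42949674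
    (rowB 3 eng mog cd1q0 cd5q1 pd1 0 false true false .pnn 0 1 1 (qsf 0 536870912 536870912 536870912 1) ndB1q0 ndB5q1 pcB1 Cut.none Ext.none)

def k0_pm_011 : ∃ t, chk3 f_pm_011 t 1 1 1 = true :=
  ⟨(l 4), by decide +kernel⟩

theorem c_pm_011 : CertB 0 536870912 536870912 536870912 697932185 42949674 3 eng mog cd1q0 cd5q1 pd1 false true false .pnn 0 1 1
    ndB1q0 ndB5q1 pcB1 Cut.none Ext.none :=
  certB0 (fam := false) (s1 := true) (s2 := false) (a := 0) (b := 1) (c := 1) (cn := .pnn) (n1 := ndB1q0) (n2 := ndB5q1) (pc := pcB1) (cut := Cut.none) (xt := Ext.none) (P1 := 0) (W1 := 536870912) (P2 := 536870912) (W2 := 536870912) (P3 := 697932185) (W3 := 42949674) (N0 := 3) (En := eng) (mo := mog) (C1 := cd1q0) (C2 := cd5q1) (C3 := pd1)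
    rfl k0_pm_011

noncomputable def f_pm_012 : ℕ → ℕ → ℕ → ℕ → Bool := onCell 0 536870912 1073741824 536870912 697932185 42949674
    (rowB 3 eng mog cd1q0 cd5q2 pd1 0 false true false .pnp 0 1 2 (qsf 0 536870912 1073741824 536870912 1) ndB1q0 ndB5q2 pcB1 Cut.none Ext.none)

def k0_pm_012 : ∃ t, chk3 f_pm_012 t 1 1 1 = true :=
  ⟨(b (l 4) (l 4)), by decide +kernel⟩

theorem c_pm_012 : CertB 0 536870912 1073741824 536870912 697932185 42949674 3 eng mog cd1q0 cd5q2 pd1 false true false .pnp 0 1 2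
    ndB1q0 ndB5q2 pcB1 Cut.none Ext.none :=
  certB0 (fam := false) (s1 := true) (s2 := false) (a := 0) (b := 1) (c := 2) (cn := .pnp) (n1 := ndB1q0) (n2 := ndB5q2) (pc := pcB1) (cut := Cut.none) (xt := Ext.none) (P1 := 0) (W1 := 536870912) (P2 := 1073741824) (W2 := 536870912) (P3 := 697932185) (W3 := 42949674) (N0 := 3) (En := eng) (mo := mog) (C1 := cd1q0) (C2 := cd5q2) (C3 := pd1)
    rfl k0_pm_012

noncomputable def f_pm_022 : ℕ → ℕ → ℕ → ℕ → Bool := onCell 0 536870912 1073741824 536870912 697932185 42949674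
    (rowB 3 eng mog cd1q0 cd5q2 pd2 0 false true false .pp 0 2 2 (qsf 0 536870912 1073741824 536870912 2) ndB1q0 ndB5q2 pcB2 Cut.none Ext.none)

def k0_pm_022 : ∃ t, chk3 f_pm_022 t 1 1 1 = true :=
  ⟨(b (l 4) (l 4)), by decide +kernel⟩

theorem c_pm_022 : CertB 0 536870912 1073741824 536870912 697932185 42949674 3 eng mog cd1q0 cd5q2 pd2 false true false .pp 0 2 2
    ndB1q0 ndB5q2 pcB2 Cut.none Ext.none :=
  certB0 (fam := false) (s1 := true) (s2 := false) (a := 0) (b := 2) (c := 2) (cn := .pp) (n1 := ndB1q0) (n2 := ndB5q2) (pc := pcB2) (cut := Cut.none) (xt := Ext.none) (P1 := 0) (W1 := 536870912) (P2 := 1073741824) (W2 := 536870912) (P3 := 697932185) (W3 := 42949674) (N0 := 3) (En := eng) (mo := mog) (C1 := cd1q0) (C2 := cd5q2) (C3 := pd2)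
    rfl k0_pm_022

noncomputable def f_pm_023 : ℕ → ℕ → ℕ → ℕ → Bool := onCell 0 536870912 0 1230186008 697932185 42949674
    (rowB 3 eng mog cd1q0 cd5q3 pd2 0 false true false .up 0 2 3 (qsf 0 536870912 0 1230186008 2) ndB1q0 ndB5q3 pcB2 Cut.none Ext.none)

def k0_pm_023 : ∃ t, chk3 f_pm_023 t 1 1 1 = true :=
  ⟨(a (b (l 2) (l 4)) (a (b (l 2) (l 4)) (b (b (a (l 2) (l 16605928)) (a (b (l 16419800) (l 4)) (b (l 16565160) (l 16531984)))) (b (b (a (l 4) (a (l 4) (b (l 16374832) (l 16304152)))) (l 4)) (l 4))))), by decide +kernel⟩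

theorem c_pm_023 : CertB 0 536870912 0 1230186008 697932185 42949674 3 eng mog cd1q0 cd5q3 pd2 false true false .up 0 2 3
    ndB1q0 ndB5q3 pcB2 Cut.none Ext.none :=
  certB0 (fam := false) (s1 := true) (s2 := false) (a := 0) (b := 2) (c := 3) (cn := .up) (n1 := ndB1q0) (n2 := ndB5q3) (pc := pcB2) (cut := Cut.none) (xt := Ext.none) (P1 := 0) (W1 := 536870912) (P2 := 0) (W2 := 1230186008) (P3 := 697932185) (W3 := 42949674) (N0 := 3) (En := eng) (mo := mog) (C1 := cd1q0) (C2 := cd5q3) (C3 := pd2)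
    rfl k0_pm_023

noncomputable def f_pm_033 : ℕ → ℕ → ℕ → ℕ → Bool := onCell 0 536870912 0 1230186008 697932185 42949674
    (rowB 3 eng mog cd1q0 cd5q3 pd3 0 false true false .pnn 0 3 3 (qsf 0 536870912 0 1230186008 3) ndB1q0 ndB5q3 pcB3 Cut.none Ext.none)

def k0_pm_033 : ∃ t, chk3 f_pm_033 t 1 1 1 = true :=
  ⟨(a (b (l 4) (l 4)) (a (b (b (a (l 4) (l 16534384)) (l 4)) (l 4)) (b (b (a (l 16564448) (l 16600560)) (a (b (a (l 4) (l 16527320)) (l 4)) (b (l 16400120) (l 655552832279)))) (b (a (l 4) (l 1)) (l 1))))), by decide +kernel⟩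

theorem c_pm_033 : CertB 0 536870912 0 1230186008 697932185 42949674 3 eng mog cd1q0 cd5q3 pd3 false true false .pnn 0 3 3
    ndB1q0 ndB5q3 pcB3 Cut.none Ext.none :=
  certB0 (fam := false) (s1 := true) (s2 := false) (a := 0) (b := 3) (c := 3) (cn := .pnn) (n1 := ndB1q0) (n2 := ndB5q3) (pc := pcB3) (cut := Cut.none) (xt := Ext.none) (P1 := 0) (W1 := 536870912) (P2 := 0) (W2 := 1230186008) (P3 := 697932185) (W3 := 42949674) (N0 := 3) (En := eng) (mo := mog) (C1 := cd1q0) (C2 := cd5q3) (C3 := pd3)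
    rfl k0_pm_033

noncomputable def f_pm_101 : ℕ → ℕ → ℕ → ℕ → Bool := onCell 536870912 536870912 536870912 536870912 697932185 42949674
    (rowB 3 eng mog cd1q1 cd5q1 pd0 0 false true false .npn 1 0 1 (qsf 536870912 536870912 536870912 536870912 0) ndB1q1 ndB5q1 pcB0 Cut.none Ext.none)

def k0_pm_101 : ∃ t, chk3 f_pm_101 t 1 1 1 = true :=
  ⟨(l 4), by decide +kernel⟩

theorem c_pm_101 : CertB 536870912 536870912 536870912 536870912 697932185 42949674 3 eng mog cd1q1 cd5q1 pd0 false true false .npn 1 0 1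
    ndB1q1 ndB5q1 pcB0 Cut.none Ext.none :=
  certB0 (fam := false) (s1 := true) (s2 := false) (a := 1) (b := 0) (c := 1) (cn := .npn) (n1 := ndB1q1) (n2 := ndB5q1) (pc := pcB0) (cut := Cut.none) (xt := Ext.none) (P1 := 536870912) (W1 := 536870912) (P2 := 536870912) (W2 := 536870912) (P3 := 697932185) (W3 := 42949674) (N0 := 3) (En := eng) (mo := mog) (C1 := cd1q1) (C2 := cd5q1) (C3 := pd0)
    rfl k0_pm_101

noncomputable def f_pm_102 : ℕ → ℕ → ℕ → ℕ → Bool := onCell 536870912 536870912 0 536870912 697932185 42949674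
    (rowB 3 eng mog cd1q1 cd5q2 pd0 1 false true false .npp 1 0 2 (qsf 536870912 536870912 1073741824 536870912 0) ndB1q1 ndB5q2 pcB0 Cut.none Ext.none)

def k0_pm_102 : ∃ t, chk3 f_pm_102 t 2 1 1 = true :=
  ⟨(a (b (l 1) (a (l 4) (a (l 4) (b (b (l 1) (l 218538574215)) (b (l 15854288) (l 15824712)))))) (b (b (l 1) (b (l 1) (a (l 1) (l 263635413991)))) (b (b (a (l 230886449063) (b (l 15812176) (l 15774872))) (b (a (l 15778592) (l 15793080)) (a (l 15800096) (l 15798800)))) (b (a (l 15866072) (b (l 15806160) (l 15816024))) (a (b (l 15791480) (l 15790320)) (b (l 15906000) (l 15944536))))))), by decide +kernel⟩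

def k1_pm_102 : ∃ t, chk3 f_pm_102 t 3 2 1 = true :=
  ⟨(b (a (a (l 1) (b (l 1) (a (l 1) (b (l 1) (l 16162896))))) (a (b (a (l 1) (b (l 1) (a (l 1) (l 208875267175)))) (a (b (b (l 1) (l 16195344)) (l 16179024)) (b (a (l 16211176) (l 16219928)) (l 16242912)))) (b (a (b (a (l 1) (b (l 1) (a (l 1) (l 16269568)))) (a (b (b (l 1) (l 16254944)) (l 16240728)) (b (l 16264392) (l 16248256)))) (b (a (b (a (l 1) (l 16283800)) (l 16279312)) (l 214780759399)) (a (b (l 16268136) (l 16285104)) (l 16295576)))) (a (b (b (l 16237168) (l 16246512)) (l 16274360)) (b (l 16297992) (l 16300728)))))) (a (b (a (b (l 1) (l 332355707495)) (b (l 16156656) (l 16209552))) (a (b (l 15996336) (l 15948256)) (a (l 16025544) (a (l 16059600) (l 16085968))))) (a (b (b (a (l 16172472) (l 16211016)) (a (l 16157384) (l 16233464))) (b (l 16207328) (l 16194560))) (b (b (a (l 16292912) (l 16304016)) (a (l 16290512) (l 16384664))) (a (b (l 16280832) (l 16297096)) (b (l 16306544) (l 16323776))))))),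 by decide +kernel⟩

def k2_pm_102 : ∃ t, chk3 f_pm_102 t 3 3 1 = true :=
  ⟨(b (b (b (a (a (l 15913184) (l 16064688)) (a (l 16216264) (l 16337104))) (a (a (l 15889896) (a (l 15983960) (b (l 16066152) (l 16089096)))) (a (b (l 16244136) (a (l 16233792) (l 16341040))) (b (l 16355544) (l 16376464))))) (a (b (a (l 15893944) (a (l 16006336) (l 16146616))) (a (a (l 15867040) (l 15951264)) (b (l 16135736) (l 16185136)))) (b (a (b (l 16322344) (l 16327640)) (b (l 16384272) (l 16389792))) (a (b (l 16341640) (l 16377744)) (b (l 16398360) (l 16408320)))))) (a (a (b (b (l 16078616) (l 16032752)) (a (l 16101384) (l 16225856))) (b (b (l 16241440) (l 16300984)) (l 16366312))) (b (a (a (l 16391280) (l 16426712)) (a (l 16429768) (l 16409192))) (a (l 16509784) (a (l 16464928) (l 16441296)))))), by decide +kernel⟩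

theorem s3_pm_102 : ∃ t, chk3 f_pm_102 t 3 1 1 = true := ex3_b k1_pm_102 k2_pm_102

theorem s4_pm_102 : ∃ t, chk3 f_pm_102 t 1 1 1 = true := ex3_a k0_pm_102 s3_pm_102

theorem c_pm_102 : CertB 536870912 536870912 1073741824 536870912 697932185 42949674 3 eng mog cd1q1 cd5q2 pd0 false true false .npp 1 0 2
    ndB1q1 ndB5q2 pcB0 Cut.none Ext.none :=
  certB1 (fam := false) (s1 := true) (s2 := false) (a := 1) (b := 0) (c := 2) (cn := .npp) (n1 := ndB1q1) (n2 := ndB5q2) (pc := pcB0) (cut := Cut.none) (xt := Ext.none) (P1 := 536870912) (W1 := 536870912) (P2 := 1073741824) (W2 := 536870912) (P3 := 697932185) (W3 := 42949674) (N0 := 3) (En := eng) (mo := mog) (C1 := cd1q1) (C2 := cd5q2) (C3 := pd0)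
    rfl (fun _ => rfl) s4_pm_102

noncomputable def f_pm_112 : ℕ → ℕ → ℕ → ℕ → Bool := onCell 536870912 536870912 1073741824 536870912 697932185 42949674
    (rowB 3 eng mog cd1q1 cd5q2 pd1 2 false true false .dn 1 1 2 (qsf 536870912 536870912 1073741824 536870912 1) ndB1q1 ndB5q2 pcB1 Cut.none Ext.none)

def k0_pm_112 : ∃ t, chk3 f_pm_112 t 1 1 1 = true :=
  ⟨(a (b (a (b (a (b (l 4) (l 71100337495)) (l 4)) (a (b (a (l 15788264) (l 15795432)) (l 16073784)) (b (l 78079530551) (l 15914376)))) (b (l 4) (a (b (l 4) (l 48551391671)) (l 4)))) (a (b (a (b (l 16156536) (l 16346384)) (b (l 16076016) (l 16244144))) (a (b (l 16479768) (l 16534944)) (b (l 16414320) (l 16554936)))) (b (a (b (l 15998136) (l 16126128)) (b (l 15944456) (l 16027168))) (b (a (l 16291328) (l 16155992)) (a (l 16493312) (l 16343904)))))) (b (l 4) (a (b (a (l 74858706135) (l 4)) (a (b (l 16011800) (l 16171736)) (b (l 15886576) (l 15999632)))) (b (l 4) (a (b (l 4) (l 15849840)) (l 4)))))),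 by decide +kernel⟩

theorem c_pm_112 : CertB 536870912 536870912 1073741824 536870912 697932185 42949674 3 eng mog cd1q1 cd5q2 pd1 false true false .dn 1 1 2
    ndB1q1 ndB5q2 pcB1 Cut.none Ext.none :=
  certB2 (fam := false) (s1 := true) (s2 := false) (a := 1) (b := 1) (c := 2) (cn := .dn) (n1 := ndB1q1) (n2 := ndB5q2) (pc := pcB1) (cut := Cut.none) (xt := Ext.none) (P1 := 536870912) (W1 := 536870912) (P2 := 1073741824) (W2 := 536870912) (P3 := 697932185) (W3 := 42949674) (N0 := 3) (En := eng) (mo := mog) (C1 := cd1q1) (C2 := cd5q2) (C3 := pd1)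
    rfl (fun _ => rfl) k0_pm_112

noncomputable def f_pm_113 : ℕ → ℕ → ℕ → ℕ → Bool := onCell 536870912 536870912 0 1230186008 697932185 42949674
    (rowB 3 eng mog cd1q1 cd5q3 pd1 0 false true false .nn 1 1 3 (qsf 536870912 536870912 0 1230186008 1) ndB1q1 ndB5q3 pcB1 Cut.none Ext.none)

def k0_pm_113 : ∃ t, chk3 f_pm_113 t 1 1 1 = true :=
  ⟨(b (a (l 2) (a (l 2) (b (a (l 2) (a (l 2) (b (a (l 2) (l 16765152)) (l 16759440)))) (a (b (l 16649304) (l 16644696)) (b (a (l 16720952) (l 16776224)) (a (l 16733496) (l 16798264))))))) (b (a (a (l 2) (b (l 2) (a (l 2) (b (l 2) (l 16218808))))) (a (b (a (l 2) (b (l 16504368) (l 16514816))) (a (l 16386368) (b (l 16550976) (l 16594520)))) (b (a (b (l 16638512) (l 16659696)) (b (l 16779424) (l 16815872))) (a (b (l 16705416) (l 16677640)) (b (l 16874632) (l 16962600)))))) (b (a (a (l 2) (b (b (l 169213512455) (a (b (l 2) (l 15916328)) (b (l 16258544) (l 16167008)))) (a (b (l 15936744) (l 15989112)) (b (l 16191000)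 (l 16248760))))) (b (a (b (l 16546376) (b (a (l 16444248) (l 16625680)) (a (l 16368136) (l 16558912)))) (b (a (l 16816584) (l 17051440)) (a (b (l 16821824) (l 16721160)) (b (l 17066744) (l 16997408))))) (a (b (a (l 16387912) (l 16581552)) (a (l 16437728) (l 16636680))) (a (b (l 16753736) (l 16862632)) (b (l 17041528) (l 17065640)))))) (a (b (a (a (l 2) (b (l 241154056183) (l 15796856))) (b (a (l 15985952) (l 16258264)) (a (l 16037328) (l 16290600)))) (a (a (l 4) (b (l 15862856) (l 78616841095))) (a (l 16098192) (l 16316776)))) (b (a (b (a (l 16450024) (l 16658456)) (a (l 16522880) (l 16737248))) (b (a (l 16889352) (l 16915872)) (a (l 16848152) (l 16750824)))) (a (a (l 16517752) (l 16654496)) (a (l 16668944) (l 16567840)))))))), by decide +kernel⟩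

theorem c_pm_113 : CertB 536870912 536870912 0 1230186008 697932185 42949674 3 eng mog cd1q1 cd5q3 pd1 false true false .nn 1 1 3
    ndB1q1 ndB5q3 pcB1 Cut.none Ext.none :=
  certB0 (fam := false) (s1 := true) (s2 := false) (a := 1) (b := 1) (c := 3) (cn := .nn) (n1 := ndB1q1) (n2 := ndB5q3) (pc := pcB1) (cut := Cut.none) (xt := Ext.none) (P1 := 536870912) (W1 := 536870912) (P2 := 0) (W2 := 1230186008) (P3 := 697932185) (W3 := 42949674) (N0 := 3) (En := eng) (mo := mog) (C1 := cd1q1) (C2 := cd5q3) (C3 := pd1)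
    rfl k0_pm_113

noncomputable def f_pm_123 : ℕ → ℕ → ℕ → ℕ → Bool := onCell 1073741824 536870912 0 1230186008 697932185 42949674
    (rowB 3 eng mog cd1q1 cd5q3 pd2 2 false true false .npn 1 2 3 (qsf 536870912 536870912 0 1230186008 2) ndB1q1 ndB5q3 pcB2 Cut.none Ext.none)

def k0_pm_123 : ∃ t, chk3 f_pm_123 t 1 1 1 = true :=
  ⟨(a (b (b (a (a (b (l 16722608) (l 16692832)) (a (l 16630800) (l 16578656))) (a (a (b (a (l 16559208) (l 16535432)) (l 16509480)) (l 16660144)) (l 16512536))) (a (b (a (l 16645656) (l 16528008)) (a (l 16573848) (l 16585280))) (a (b (l 16455408) (a (l 16363488) (l 16336008))) (b (l 16435520) (l 16355752))))) (b (a (b (a (b (l 16520328) (l 16581648)) (b (l 16344568) (l 16276032))) (a (b (l 16343520) (l 16274288)) (l 16175920))) (a (b (a (l 16246408) (l 16227384)) (l 16144088)) (b (l 16245848) (l 16154848)))) (b (b (a (b (a (l 16218408) (l 16122048)) (a (b (l 16148160) (l 16007128)) (b (l 16058528) (l 15928768)))) (b (a (l 16081224)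 (l 16101584)) (a (b (l 16024824) (l 15936032)) (l 4)))) (a (b (a (l 15949568) (l 15892064)) (a (l 15887576) (l 15872456))) (a (b (l 15927808) (l 4)) (l 1)))) (a (b (b (a (a (l 15801680) (l 15797112)) (l 15835136)) (a (l 15775920) (l 4))) (l 4)) (l 4))))) (b (a (b (a (l 16534880) (l 16370864)) (a (b (l 16464128) (l 16387488)) (l 16463480))) (a (b (l 16602320) (l 16506624)) (a (l 16877736) (l 16608128)))) (b (a (a (b (l 16284744) (l 16201776)) (b (l 16338992) (l 16416032))) (a (b (l 16402928) (l 1)) (l 1))) (l 1)))), by decide +kernel⟩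

theorem c_pm_123 : CertB 536870912 536870912 0 1230186008 697932185 42949674 3 eng mog cd1q1 cd5q3 pd2 false true false .npn 1 2 3
    ndB1q1 ndB5q3 pcB2 Cut.none Ext.none :=
  certB2 (fam := false) (s1 := true) (s2 := false) (a := 1) (b := 2) (c := 3) (cn := .npn) (n1 := ndB1q1) (n2 := ndB5q3) (pc := pcB2) (cut := Cut.none) (xt := Ext.none) (P1 := 536870912) (W1 := 536870912) (P2 := 0) (W2 := 1230186008) (P3 := 697932185) (W3 := 42949674) (N0 := 3) (En := eng) (mo := mog) (C1 := cd1q1) (C2 := cd5q3) (C3 := pd2)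
    rfl (fun _ => rfl) k0_pm_123

noncomputable def f_pm_133 : ℕ → ℕ → ℕ → ℕ → Bool := onCell 1610612736 536870912 0 1230186008 697932185 42949674
    (rowB 3 eng mog cd1q1 cd5q3 pd3 2 false true false .dn 1 3 3 (qsf 536870912 536870912 0 1230186008 3) ndB1q1 ndB5q3 pcB3 Cut.none Ext.none)

def k0_pm_133 : ∃ t, chk3 f_pm_133 t 1 1 1 = true :=
  ⟨(b (a (a (a (l 65531992183) (l 1)) (l 1)) (l 1)) (l 1)), by decide +kernel⟩

theorem c_pm_133 : CertB 536870912 536870912 0 1230186008 697932185 42949674 3 eng mog cd1q1 cd5q3 pd3 false true false .dn 1 3 3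
    ndB1q1 ndB5q3 pcB3 Cut.none Ext.none :=
  certB2 (fam := false) (s1 := true) (s2 := false) (a := 1) (b := 3) (c := 3) (cn := .dn) (n1 := ndB1q1) (n2 := ndB5q3) (pc := pcB3) (cut := Cut.none) (xt := Ext.none) (P1 := 536870912) (W1 := 536870912) (P2 := 0) (W2 := 1230186008) (P3 := 697932185) (W3 := 42949674) (N0 := 3) (En := eng) (mo := mog) (C1 := cd1q1) (C2 := cd5q3) (C3 := pd3)
    rfl (fun _ => rfl) k0_pm_133

noncomputable def f_pm_202_a : ℕ → ℕ → ℕ → ℕ → Bool := onCell 0 536870912 0 536870912 697932185 42949674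
    (rowB 3 eng mog cd1q2a cd5q2 pd0 1 false true false .pp 2 0 2 (qsf 0 536870912 1073741824 536870912 0) ndB1q2a ndB5q2 pcB0 Cut.none Ext.none)

def k0_pm_202_a : ∃ t, chk3 f_pm_202_a t 2 4 1 = true :=
  ⟨(a (l 3) (a (l 3) (b (b (b (b (a (a (c (l 132237587879) (a (l 3) (l 108615146439))) (a (l 16497096) (l 16507384))) (l 16514536)) (a (a (l 120426154343) (a (l 16501040) (l 16505632))) (l 16510664))) (a (a (b (l 124721074727) (l 129016037847)) (b (a (l 16577696) (l 16503272)) (a (l 16402112) (c (l 16493296) (l 16503136))))) (a (b (a (l 16504848) (l 16505984)) (c (l 16496824) (l 16505016))) (b (l 16506592) (l 16502328))))) (a (a (l 3) (b (b (a (a (l 16491520) (l 16492152)) (a (l 16492824) (l 16493112))) (c (a (l 16487352) (l 16487032)) (l 16516512))) (a (l 120963039351) (b (l 16494584) (l 16499216))))) (a (b (b (a (c (l 16490344) (l 16499112)) (b (l 16496456) (l 16493888))) (c (a (l 16528680) (l 16487472)) (l 16505328))) (a (b (l 16492976) (l 16498032))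 (b (l 16491144) (l 16496152)))) (b (b (b (l 16498968) (l 16496144)) (c (l 16488768) (l 16495832))) (b (a (l 16489752) (l 16488896)) (a (l 16494360) (l 16492400))))))) (a (b (a (l 3) (b (l 141364096247) (l 214378518503))) (l 3)) (b (a (a (b (l 16504224) (l 16503688)) (b (l 16502952) (l 16508144))) (b (a (l 16501112) (b (l 16497152) (l 16501400))) (a (l 16508536) (l 16506992)))) (b (a (b (l 167670862247) (l 189145818215)) (l 16509272)) (a (a (l 16496200) (l 16415512)) (a (l 16504424) (l 16508624))))))))), by decide +kernel⟩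

def k1_pm_202_a : ∃ t, chk3 f_pm_202_a t 3 4 1 = true :=
  ⟨(a (b (a (b (b (l 16512624) (l 16504328)) (a (b (b (l 16499272) (a (c (l 16491096) (l 16497584)) (l 16495104))) (b (a (a (l 16488784) (l 16489240)) (l 16511272)) (a (a (l 16490280) (l 16488352)) (l 16528256)))) (b (l 16494216) (c (l 16528784) (l 16573144))))) (b (b (l 16503592) (l 16494032)) (b (l 16485096) (l 16476784)))) (a (b (a (a (b (b (l 16494000) (l 16498472)) (a (l 16505280) (l 16503312))) (b (b (l 16489312) (l 16493792)) (b (l 16498008) (l 16501872)))) (b (a (b (l 16484224) (l 16488208)) (b (l 16481208) (l 16481368))) (a (l 16494744) (l 16508600)))) (a (b (a (l 16510552) (l 16528144)) (a (l 16514920) (l 16511864))) (b (a (l 16501912) (l 16496176)) (a (l 16507656) (l 16502240))))) (b (a (b (l 16473696) (b (a (l 16477760) (l 16467632)) (l 16520280))) (l 16460848)) (a (b (a (l 16489200) (l 16480240)) (a (l 16496016) (l 16488112))) (b (a (l 16470360) (l 16455800)) (a (l 16478608) (l 16468600)))))))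 (b (a (b (a (l 16486568) (b (l 16484264) (l 16474544))) (a (l 16465968) (l 16457680))) (b (a (b (b (l 16472440) (l 16470296)) (l 16465496)) (a (b (l 16455208) (l 16450752)) (b (l 16444392) (l 16439848)))) (a (b (l 16452992) (l 16444264)) (b (l 16442408) (l 16435056))))) (a (b (l 16486328) (a (l 16444632) (l 16425208))) (b (a (l 16429168) (b (l 16423984) (l 16416848))) (a (l 16412880) (l 16404440)))))), by decide +kernel⟩

def k2_pm_202_a : ∃ t, chk3 f_pm_202_a t 1 5 1 = true :=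
  ⟨(a (a (l 3) (a (l 3) (a (l 3) (b (b (a (a (l 3) (b (l 16497352) (l 16497176))) (b (a (l 16501808) (l 16506752)) (a (l 16500104) (l 16505008)))) (a (l 3) (b (a (l 16500456) (l 16503904)) (l 163912880551)))) (a (l 3) (b (b (l 164986638679) (l 158544189127)) (l 3))))))) (a (a (b (b (a (a (b (l 16512048) (l 16550024)) (b (l 16515192) (l 16514584))) (a (l 16554944) (l 16508680))) (a (a (a (b (l 16508056) (l 16507568)) (b (l 16510352) (l 16510248))) (b (l 16512752) (l 16511064))) (a (l 16515584) (l 16512024)))) (a (a (b (b (l 16509848) (l 16512480)) (l 118278932471)) (b (b (l 16512112) (l 16512464)) (b (l 16514984) (l 16517480)))) (b (a (l 16514496) (l 16513272)) (a (l 16514152) (l 16512936))))) (b (b (a (b (l 16497704) (l 16501608)) (b (a (l 16485432) (l 16476696)) (l 16486816))) (a (l 16504704) (b (l 16489904) (l 16491024)))) (a (b (a (l 16509056) (l 16503240)) (l 16506928)) (b (l 16492496) (l 16493568))))) (b (a (b (a (b (l 16523584) (l 16467328)) (l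 16435640)) (a (b (l 16471912) (l 16473256)) (b (l 16451120) (l 16452880)))) (b (a (b (l 16405192) (l 16410232)) (l 16476200)) (a (l 16422848) (l 16496928)))) (a (b (a (l 16475056) (l 16454904)) (a (l 16476416) (l 16458152))) (b (a (b (l 16430808) (l 16432640)) (l 16402984)) (a (l 16435416) (l 16412176))))))), by decide +kernel⟩

def k3_pm_202_a : ∃ t, chk3 f_pm_202_a t 1 3 1 = true :=
  ⟨(a (b (l 3) (l 3)) (b (b (a (a (b (a (a (l 16525480) (l 16521024)) (a (l 16516584) (l 16511656))) (a (a (l 3) (l 16526312)) (a (l 16518656) (l 16509440)))) (a (b (l 16506480) (l 16504832)) (b (l 16493472) (l 16492984)))) (b (a (a (l 16477272) (l 16459720)) (a (l 16439728) (l 16417232))) (a (l 16469744) (a (l 16442664) (l 16423096))))) (a (a (b (a (a (l 3) (l 16532032)) (a (l 16520568) (l 16507240))) (a (l 3) (a (l 16521200) (l 16505288)))) (a (b (l 16500848) (a (l 16497584) (l 16495112))) (l 16491008))) (a (a (b (l 16476760) (l 16475968)) (l 16461912)) (b (l 16436456)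 (l 16439272))))) (a (b (b (a (a (l 3) (a (l 16520768) (l 16503616))) (a (a (l 16487424) (l 16486680)) (l 16483872))) (a (l 2) (a (a (l 16477872) (l 16476920)) (l 16476960)))) (l 2)) (b (a (a (l 16473736) (l 16461792)) (b (l 16442760) (l 16446136))) (a (a (l 16463896) (l 16461904)) (a (l 16453944) (l 16448448))))))), by decide +kernel⟩

theorem s4_pm_202_a : ∃ t, chk3 f_pm_202_a t 1 4 1 = true := ex3_a k0_pm_202_a k1_pm_202_a

theorem s5_pm_202_a : ∃ t, chk3 f_pm_202_a t 1 2 1 = true := ex3_b s4_pm_202_a k2_pm_202_a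

theorem s6_pm_202_a : ∃ t, chk3 f_pm_202_a t 1 1 1 = true := ex3_b s5_pm_202_a k3_pm_202_a

theorem c_pm_202_a : CertB 0 536870912 1073741824 536870912 697932185 42949674 3 eng mog cd1q2a cd5q2 pd0 false true false .pp 2 0 2
    ndB1q2a ndB5q2 pcB0 Cut.none Ext.none :=
  certB1 (fam := false) (s1 := true) (s2 := false) (a := 2) (b := 0) (c := 2) (cn := .pp) (n1 := ndB1q2a) (n2 := ndB5q2) (pc := pcB0) (cut := Cut.none) (xt := Ext.none) (P1 := 0) (W1 := 536870912) (P2 := 1073741824) (W2 := 536870912) (P3 := 697932185) (W3 := 42949674) (N0 := 3) (En := eng) (mo := mog) (C1 := cd1q2a) (C2 := cd5q2) (C3 := pd0)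
    rfl (fun _ => rfl) s6_pm_202_a

noncomputable def f_pm_202_b : ℕ → ℕ → ℕ → ℕ → Bool := onCell 1239849684 370763052 1073741824 536870912 697932185 42949674
    (rowB 3 eng mog cd1q2b cd5q2 pd0 0 false true false .pp 2 0 2 (qsf 1239849684 370763052 1073741824 536870912 0) ndB1q2b ndB5q2 pcB0 Cut.none Ext.none)

def k0_pm_202_b : ∃ t, chk3 f_pm_202_b t 1 1 1 = true :=
  ⟨(l 3), by decide +kernel⟩

theorem c_pm_202_b : CertB 1239849684 370763052 1073741824 536870912 697932185 42949674 3 eng mog cd1q2b cd5q2 pd0 false true false .pp 2 0 2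
    ndB1q2b ndB5q2 pcB0 Cut.none Ext.none :=
  certB0 (fam := false) (s1 := true) (s2 := false) (a := 2) (b := 0) (c := 2) (cn := .pp) (n1 := ndB1q2b) (n2 := ndB5q2) (pc := pcB0) (cut := Cut.none) (xt := Ext.none) (P1 := 1239849684) (W1 := 370763052) (P2 := 1073741824) (W2 := 536870912) (P3 := 697932185) (W3 := 42949674) (N0 := 3) (En := eng) (mo := mog) (C1 := cd1q2b) (C2 := cd5q2) (C3 := pd0)
    rfl k0_pm_202_b

noncomputable def f_pm_203_a : ℕ → ℕ → ℕ → ℕ → Bool := onCell 0 536870912 0 1230186008 697932185 42949674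
    (rowB 3 eng mog cd1q2a cd5q3 pd0 0 false true false .up 2 0 3 (qsf 0 536870912 0 1230186008 0) ndB1q2a ndB5q3 pcB0 Cut.none Ext.none)

def k0_pm_203_a : ∃ t, chk3 f_pm_203_a t 1 1 1 = true :=
  ⟨(b (l 2) (b (l 2) (a (l 3) (b (l 2) (a (a (a (l 3) (b (b (l 3) (l 174113652679)) (b (b (l 16494184) (l 16505416)) (b (l 192367151031) (a (l 16522912) (l 16510456)))))) (b (b (l 2) (a (a (l 16523872) (l 16522984)) (a (l 16521592) (l 16520296)))) (b (a (b (l 16492144) (l 16474264)) (a (l 16483536) (l 16482928))) (a (a (l 16490792) (l 16464368)) (b (l 16460496) (l 16449544)))))) (b (b (l 2) (a (l 16523152) (l 2))) (a (b (l 16480280) (l 16450896)) (b (l 16482112) (l 16437896))))))))), by decide +kernel⟩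

theorem c_pm_203_a : CertB 0 536870912 0 1230186008 697932185 42949674 3 eng mog cd1q2a cd5q3 pd0 false true false .up 2 0 3
    ndB1q2a ndB5q3 pcB0 Cut.none Ext.none :=
  certB0 (fam := false) (s1 := true) (s2 := false) (a := 2) (b := 0) (c := 3) (cn := .up) (n1 := ndB1q2a) (n2 := ndB5q3) (pc := pcB0) (cut := Cut.none) (xt := Ext.none) (P1 := 0) (W1 := 536870912) (P2 := 0) (W2 := 1230186008) (P3 := 697932185) (W3 := 42949674) (N0 := 3) (En := eng) (mo := mog) (C1 := cd1q2a) (C2 := cd5q3) (C3 := pd0)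
    rfl k0_pm_203_a

noncomputable def f_pm_203_b : ℕ → ℕ → ℕ → ℕ → Bool := onCell 1239849684 370763052 0 1230186008 697932185 42949674
    (rowB 3 eng mog cd1q2b cd5q3 pd0 0 false true false .up 2 0 3 (qsf 1239849684 370763052 0 1230186008 0) ndB1q2b ndB5q3 pcB0 Cut.none Ext.none)

def k0_pm_203_b : ∃ t, chk3 f_pm_203_b t 1 1 1 = true :=
  ⟨(b (l 3) (l 3)), by decide +kernel⟩

theorem c_pm_203_b : CertB 1239849684 370763052 0 1230186008 697932185 42949674 3 eng mog cd1q2b cd5q3 pd0 false true false .up 2 0 3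
    ndB1q2b ndB5q3 pcB0 Cut.none Ext.none :=
  certB0 (fam := false) (s1 := true) (s2 := false) (a := 2) (b := 0) (c := 3) (cn := .up) (n1 := ndB1q2b) (n2 := ndB5q3) (pc := pcB0) (cut := Cut.none) (xt := Ext.none) (P1 := 1239849684) (W1 := 370763052) (P2 := 0) (W2 := 1230186008) (P3 := 697932185) (W3 := 42949674) (N0 := 3) (En := eng) (mo := mog) (C1 := cd1q2b) (C2 := cd5q3) (C3 := pd0)
    rfl k0_pm_203_b

noncomputable def cut_pm_213_a : Cut := Cut.of [[⟨0, 1, 0, 67108864⟩, ⟨1, 1, 0, 67108864⟩, ⟨2, 2, 0, 16777216⟩]]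

noncomputable def f_pm_213_a : ℕ → ℕ → ℕ → ℕ → Bool := onCell 0 536870912 0 1230186008 697932185 42949674
    (rowB 3 eng mog cd1q2a cd5q3 pd1 0 false true false .pnn 2 1 3 (qsf 0 536870912 0 1230186008 1) ndB1q2a ndB5q3 pcB1 cut_pm_213_a Ext.none)

def k0_pm_213_a : ∃ t, chk3 f_pm_213_a t 2 1 1 = true :=
  ⟨(b (l 3) (b (l 3) (l 3))), by decide +kernel⟩

def k1_pm_213_a : ∃ t, chk3 f_pm_213_a t 3 2 1 = true :=
  ⟨(b (a (l 3) (a (l 3) (b (l 6) (a (a (l 3) (b (l 6) (b (a (l 3) (b (l 272361353479) (l 244980921159))) (a (a (l 396915417847) (l 313163523575)) (l 231022280359))))) (b (a (l 6) (l 6)) (a (b (a (l 16790152) (l 16788424)) (l 16793056)) (l 16788240))))))) (a (l 3) (b (a (a (l 3) (b (l 3) (a (l 3) (b (l 3) (a (l 3) (l 312626669063)))))) (a (b (a (a (l 3) (b (l 388862365639) (l 246054666967))) (b (a (b (l 243370306183) (l 16804368)) (l 16800792)) (a (l 16808856) (l 16806480)))) (a (b (b (l 249275896039) (l 236390996263)) (a (l 239612235223) (l 16827408)))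 (b (l 16793464) (l 16822584)))) (b (a (l 16800664) (l 16797240)) (a (l 16813688) (l 16809840))))) (a (a (l 3) (a (b (l 3) (b (a (l 3) (b (l 298668010183) (l 225116693319))) (c (l 195588770071) (l 213842418279)))) (c (b (b (l 238001585783) (a (l 232632895047) (l 16830744))) (b (l 205252464759) (l 16844016))) (b (b (l 256792121111) (l 251423423735)) (b (a (l 16845336) (l 16854552)) (l 16863096)))))) (b (a (a (b (a (l 16836496) (l 16838352)) (l 16827936)) (b (l 16832384) (l 16843904))) (a (l 16831552) (l 16825472))) (a (a (b (l 16859064) (l 16871544)) (b (l 16856424) (l 16869600))) (a (l 16853128) (l 16844176)))))))), by decide +kernel⟩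

def k2_pm_213_a : ∃ t, chk3 f_pm_213_a t 3 6 1 = true :=
  ⟨(b (a (l 3) (a (b (a (a (l 3) (a (l 3) (b (l 186461969735) (b (l 16815936) (l 16776008))))) (b (a (b (l 186461971191) (l 16784896)) (l 16865880)) (a (a (l 16764504) (l 16860264)) (l 16877936)))) (a (a (b (l 3) (l 279340578679)) (b (b (l 155860282295) (a (l 16817144) (l 16825728))) (b (l 16815448) (l 16810976)))) (b (a (b (l 16850976) (l 16843872)) (l 16871976)) (a (b (l 16838208) (l 16833120)) (l 16859864))))) (b (a (b (a (l 16885472) (l 16882696)) (a (l 16899792) (l 16898248))) (b (l 16865688) (l 16877592))) (a (b (l 16804368) (a (l 16884568) (l 16910448))) (l 16927080))))) (a (a (l 3) (a (l 3) (b (b (l 3) (l 211694880535)) (b (a (l 3) (l 101099423559)) (a (l 3) (l 16691664)))))) (a (b (a (b (a (l 200420553687) (l 16802704)) (a (l 16770224) (l 16788296))) (b (a (l 16825648) (l 16850392)) (l 16742144))) (a (b (a (l 16744184) (l 16765064)) (l 16660104)) (b (l 16740968) (b (l 16781944) (l 16765088)))))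 (a (b (b (l 16885656) (l 16874864)) (l 16846576)) (b (l 16938504) (l 16909832)))))), by decide +kernel⟩

def k3_pm_213_a : ∃ t, chk3 f_pm_213_a t 3 7 1 = true :=
  ⟨(b (a (a (l 3) (a (b (l 3) (b (b (c (l 285246067511) (l 515563629175)) (l 118816009063)) (b (l 113447286919) (l 147806987479)))) (b (b (a (b (l 16648120) (l 16624008)) (l 16649800)) (b (b (b (c (l 16643864) (l 68349938583)) (c (l 16654720) (l 16587936))) (a (c (l 16671120) (l 16635648)) (l 16673032))) (b (b (l 59223314615) (l 57612742087)) (b (c (l 16726368) (l 16705640)) (l 16716680))))) (b (b (b (l 16699056) (l 16676920)) (l 16644688)) (b (l 16602360) (l 16601848)))))) (b (b (a (a (b (l 16694904) (l 16674064)) (l 16652928)) (l 16816712)) (a (a (b (b (b (l 16661968) (l 16679000)) (b (l 16702576) (l 16719288))) (b (c (l 16761488) (l 16721728)) (b (b (l 16759048) (l 16765328)) (l 16760216)))) (b (b (l 16725696) (l 16774520)) (b (l 16808040) (l 16826048)))) (b (b (l 16743920) (l 16855880))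 (b (c (l 16927888) (l 16917552)) (a (l 16925136) (l 17018272)))))) (a (b (a (b (a (l 16714160) (l 16735584)) (l 16673824)) (c (l 16774400) (l 16725288))) (a (b (l 16623864) (l 16618152)) (b (l 16661784) (l 16651016)))) (b (b (l 16930960) (l 16843520)) (b (l 16761608) (l 16738464)))))) (b (a (b (a (l 3) (a (b (l 143512019399) (l 16562408)) (b (l 16593360) (l 16568600)))) (a (a (l 1) (l 170892440215)) (a (a (l 16568296) (l 16531296)) (l 16557680)))) (b (a (a (b (l 16605248) (l 16576216)) (l 16612896)) (b (l 16705456) (l 16649704))) (a (l 16542920) (l 16578912)))) (a (l 1) (a (b (l 16503136) (l 1)) (b (l 16508328) (l 16463072)))))), by decide +kernel⟩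

theorem s4_pm_213_a : ∃ t, chk3 f_pm_213_a t 3 3 1 = true := ex3_b k2_pm_213_a k3_pm_213_a

theorem s5_pm_213_a : ∃ t, chk3 f_pm_213_a t 3 1 1 = true := ex3_b k1_pm_213_a s4_pm_213_a

theorem s6_pm_213_a : ∃ t, chk3 f_pm_213_a t 1 1 1 = true := ex3_a k0_pm_213_a s5_pm_213_a

theorem c_pm_213_a : CertB 0 536870912 0 1230186008 697932185 42949674 3 eng mog cd1q2a cd5q3 pd1 false true false .pnn 2 1 3
    ndB1q2a ndB5q3 pcB1 cut_pm_213_a Ext.none :=
  certB0 (fam := false) (s1 := true) (s2 := false) (a := 2) (b := 1) (c := 3) (cn := .pnn) (n1 := ndB1q2a) (n2 := ndB5q3) (pc := pcB1) (cut := cut_pm_213_a) (xt := Ext.none) (P1 := 0) (W1 := 536870912) (P2 := 0) (W2 := 1230186008) (P3 := 697932185) (W3 := 42949674) (N0 := 3) (En := eng) (mo := mog) (C1 := cd1q2a) (C2 := cd5q3) (C3 := pd1)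
    rfl s6_pm_213_a

noncomputable def cut_pm_213_b : Cut := Cut.of [[⟨0, 1, 0, 67108864⟩, ⟨1, 1, 0, 67108864⟩, ⟨2, 2, 0, 16777216⟩]]

noncomputable def f_pm_213_b : ℕ → ℕ → ℕ → ℕ → Bool := onCell 1239849684 370763052 0 1230186008 697932185 42949674
    (rowB 3 eng mog cd1q2b cd5q3 pd1 0 false true false .pnn 2 1 3 (qsf 1239849684 370763052 0 1230186008 1) ndB1q2b ndB5q3 pcB1 cut_pm_213_b Ext.none)

def k0_pm_213_b : ∃ t, chk3 f_pm_213_b t 1 1 1 = true :=
  ⟨(b (l 3) (l 3)), by decide +kernel⟩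

theorem c_pm_213_b : CertB 1239849684 370763052 0 1230186008 697932185 42949674 3 eng mog cd1q2b cd5q3 pd1 false true false .pnn 2 1 3
    ndB1q2b ndB5q3 pcB1 cut_pm_213_b Ext.none :=
  certB0 (fam := false) (s1 := true) (s2 := false) (a := 2) (b := 1) (c := 3) (cn := .pnn) (n1 := ndB1q2b) (n2 := ndB5q3) (pc := pcB1) (cut := cut_pm_213_b) (xt := Ext.none) (P1 := 1239849684) (W1 := 370763052) (P2 := 0) (W2 := 1230186008) (P3 := 697932185) (W3 := 42949674) (N0 := 3) (En := eng) (mo := mog) (C1 := cd1q2b) (C2 := cd5q3) (C3 := pd1)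
    rfl k0_pm_213_b

noncomputable def f_pm_303 : ℕ → ℕ → ℕ → ℕ → Bool := onCell 1610612736 536870912 0 1230186008 697932185 42949674
    (rowB 3 eng mog cd1q3 cd5q3 pd0 0 false true false .npn 3 0 3 (qsf 1610612736 536870912 0 1230186008 0) ndB1q3 ndB5q3 pcB0 Cut.none Ext.none)

def k0_pm_303 : ∃ t, chk3 f_pm_303 t 1 1 1 = true :=
  ⟨(b (l 3) (l 3)), by decide +kernel⟩

theorem c_pm_303 : CertB 1610612736 536870912 0 1230186008 697932185 42949674 3 eng mog cd1q3 cd5q3 pd0 false true false .npn 3 0 3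
    ndB1q3 ndB5q3 pcB0 Cut.none Ext.none :=
  certB0 (fam := false) (s1 := true) (s2 := false) (a := 3) (b := 0) (c := 3) (cn := .npn) (n1 := ndB1q3) (n2 := ndB5q3) (pc := pcB0) (cut := Cut.none) (xt := Ext.none) (P1 := 1610612736) (W1 := 536870912) (P2 := 0) (W2 := 1230186008) (P3 := 697932185) (W3 := 42949674) (N0 := 3) (En := eng) (mo := mog) (C1 := cd1q3) (C2 := cd5q3) (C3 := pd0)
    rfl k0_pm_303

noncomputable def f_pm_313 : ℕ → ℕ → ℕ → ℕ → Bool := onCell 1610612736 536870912 0 1230186008 697932185 42949674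
    (rowB 3 eng mog cd1q3 cd5q3 pd1 0 false true false .dn 3 1 3 (qsf 1610612736 536870912 0 1230186008 1) ndB1q3 ndB5q3 pcB1 Cut.none Ext.none)

def k0_pm_313 : ∃ t, chk3 f_pm_313 t 1 1 1 = true :=
  ⟨(b (l 3) (l 1)), by decide +kernel⟩

theorem c_pm_313 : CertB 1610612736 536870912 0 1230186008 697932185 42949674 3 eng mog cd1q3 cd5q3 pd1 false true false .dn 3 1 3
    ndB1q3 ndB5q3 pcB1 Cut.none Ext.none :=
  certB0 (fam := false) (s1 := true) (s2 := false) (a := 3) (b := 1) (c := 3) (cn := .dn) (n1 := ndB1q3) (n2 := ndB5q3) (pc := pcB1) (cut := Cut.none) (xt := Ext.none) (P1 := 1610612736) (W1 := 536870912) (P2 := 0) (W2 := 1230186008) (P3 := 697932185) (W3 := 42949674) (N0 := 3) (En := eng) (mo := mog) (C1 := cd1q3) (C2 := cd5q3) (C3 := pd1)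
    rfl k0_pm_313

noncomputable def f_mm_001 : ℕ → ℕ → ℕ → ℕ → Bool := onCell 0 536870912 0 536870912 697932185 42949674
    (rowB 3 eng mog cd1q0 cd5q1 pd0 1 false false false .up 0 0 1 (qsf 0 536870912 536870912 536870912 0) ndB1q0 ndB5q1 pcB0 Cut.none Ext.none)

def k0_mm_001 : ∃ t, chk3 f_mm_001 t 1 1 1 = true :=
  ⟨(l 3), by decide +kernel⟩

theorem c_mm_001 : CertB 0 536870912 536870912 536870912 697932185 42949674 3 eng mog cd1q0 cd5q1 pd0 false false false .up 0 0 1
    ndB1q0 ndB5q1 pcB0 Cut.none Ext.none :=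
  certB1 (fam := false) (s1 := false) (s2 := false) (a := 0) (b := 0) (c := 1) (cn := .up) (n1 := ndB1q0) (n2 := ndB5q1) (pc := pcB0) (cut := Cut.none) (xt := Ext.none) (P1 := 0) (W1 := 536870912) (P2 := 536870912) (W2 := 536870912) (P3 := 697932185) (W3 := 42949674) (N0 := 3) (En := eng) (mo := mog) (C1 := cd1q0) (C2 := cd5q1) (C3 := pd0)
    rfl (fun _ => rfl) k0_mm_001

noncomputable def f_mm_011 : ℕ → ℕ → ℕ → ℕ → Bool := onCell 0 536870912 536870912 536870912 697932185 42949674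
    (rowB 3 eng mog cd1q0 cd5q1 pd1 1 false false false .pnn 0 1 1 (qsf 0 536870912 536870912 536870912 1) ndB1q0 ndB5q1 pcB1 Cut.none Ext.none)

def k0_mm_011 : ∃ t, chk3 f_mm_011 t 1 1 1 = true :=
  ⟨(l 5), by decide +kernel⟩

theorem c_mm_011 : CertB 0 536870912 536870912 536870912 697932185 42949674 3 eng mog cd1q0 cd5q1 pd1 false false false .pnn 0 1 1
    ndB1q0 ndB5q1 pcB1 Cut.none Ext.none :=
  certB1 (fam := false) (s1 := false) (s2 := false) (a := 0) (b := 1) (c := 1) (cn := .pnn) (n1 := ndB1q0) (n2 := ndB5q1) (pc := pcB1) (cut := Cut.none) (xt := Ext.none) (P1 := 0) (W1 := 536870912) (P2 := 536870912) (W2 := 536870912) (P3 := 697932185) (W3 := 42949674) (N0 := 3) (En := eng) (mo := mog) (C1 := cd1q0) (C2 := cd5q1) (C3 := pd1)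
    rfl (fun _ => rfl) k0_mm_011

noncomputable def f_mm_012 : ℕ → ℕ → ℕ → ℕ → Bool := onCell 0 536870912 1073741824 536870912 697932185 42949674
    (rowB 3 eng mog cd1q0 cd5q2 pd1 0 false false false .pnp 0 1 2 (qsf 0 536870912 1073741824 536870912 1) ndB1q0 ndB5q2 pcB1 Cut.none Ext.none)

def k0_mm_012 : ∃ t, chk3 f_mm_012 t 1 1 1 = true :=
  ⟨(l 5), by decide +kernel⟩

theorem c_mm_012 : CertB 0 536870912 1073741824 536870912 697932185 42949674 3 eng mog cd1q0 cd5q2 pd1 false false false .pnp 0 1 2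
    ndB1q0 ndB5q2 pcB1 Cut.none Ext.none :=
  certB0 (fam := false) (s1 := false) (s2 := false) (a := 0) (b := 1) (c := 2) (cn := .pnp) (n1 := ndB1q0) (n2 := ndB5q2) (pc := pcB1) (cut := Cut.none) (xt := Ext.none) (P1 := 0) (W1 := 536870912) (P2 := 1073741824) (W2 := 536870912) (P3 := 697932185) (W3 := 42949674) (N0 := 3) (En := eng) (mo := mog) (C1 := cd1q0) (C2 := cd5q2) (C3 := pd1)
    rfl k0_mm_012

noncomputable def f_mm_022 : ℕ → ℕ → ℕ → ℕ → Bool := onCell 0 536870912 1073741824 536870912 697932185 42949674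
    (rowB 3 eng mog cd1q0 cd5q2 pd2 0 false false false .pp 0 2 2 (qsf 0 536870912 1073741824 536870912 2) ndB1q0 ndB5q2 pcB2 Cut.none Ext.none)

def k0_mm_022 : ∃ t, chk3 f_mm_022 t 1 1 1 = true :=
  ⟨(l 5), by decide +kernel⟩

theorem c_mm_022 : CertB 0 536870912 1073741824 536870912 697932185 42949674 3 eng mog cd1q0 cd5q2 pd2 false false false .pp 0 2 2
    ndB1q0 ndB5q2 pcB2 Cut.none Ext.none :=
  certB0 (fam := false) (s1 := false) (s2 := false) (a := 0) (b := 2) (c := 2) (cn := .pp) (n1 := ndB1q0) (n2 := ndB5q2) (pc := pcB2) (cut := Cut.none) (xt := Ext.none) (P1 := 0) (W1 := 536870912) (P2 := 1073741824) (W2 := 536870912) (P3 := 697932185) (W3 := 42949674) (N0 := 3) (En := eng) (mo := mog) (C1 := cd1q0) (C2 := cd5q2) (C3 := pd2)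
    rfl k0_mm_022

noncomputable def f_mm_023 : ℕ → ℕ → ℕ → ℕ → Bool := onCell 0 536870912 0 1230186008 697932185 42949674
    (rowB 3 eng mog cd1q0 cd5q3 pd2 0 false false false .up 0 2 3 (qsf 0 536870912 0 1230186008 2) ndB1q0 ndB5q3 pcB2 Cut.none Ext.none)

def k0_mm_023 : ∃ t, chk3 f_mm_023 t 1 1 1 = true :=
  ⟨(l 5), by decide +kernel⟩

theorem c_mm_023 : CertB 0 536870912 0 1230186008 697932185 42949674 3 eng mog cd1q0 cd5q3 pd2 false false false .up 0 2 3
    ndB1q0 ndB5q3 pcB2 Cut.none Ext.none :=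
  certB0 (fam := false) (s1 := false) (s2 := false) (a := 0) (b := 2) (c := 3) (cn := .up) (n1 := ndB1q0) (n2 := ndB5q3) (pc := pcB2) (cut := Cut.none) (xt := Ext.none) (P1 := 0) (W1 := 536870912) (P2 := 0) (W2 := 1230186008) (P3 := 697932185) (W3 := 42949674) (N0 := 3) (En := eng) (mo := mog) (C1 := cd1q0) (C2 := cd5q3) (C3 := pd2)
    rfl k0_mm_023

noncomputable def f_mm_033 : ℕ → ℕ → ℕ → ℕ → Bool := onCell 0 536870912 0 1230186008 697932185 42949674
    (rowB 3 eng mog cd1q0 cd5q3 pd3 0 false false false .pnn 0 3 3 (qsf 0 536870912 0 1230186008 3) ndB1q0 ndB5q3 pcB3 Cut.none Ext.none)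

def k0_mm_033 : ∃ t, chk3 f_mm_033 t 1 1 1 = true :=
  ⟨(l 5), by decide +kernel⟩

theorem c_mm_033 : CertB 0 536870912 0 1230186008 697932185 42949674 3 eng mog cd1q0 cd5q3 pd3 false false false .pnn 0 3 3
    ndB1q0 ndB5q3 pcB3 Cut.none Ext.none :=
  certB0 (fam := false) (s1 := false) (s2 := false) (a := 0) (b := 3) (c := 3) (cn := .pnn) (n1 := ndB1q0) (n2 := ndB5q3) (pc := pcB3) (cut := Cut.none) (xt := Ext.none) (P1 := 0) (W1 := 536870912) (P2 := 0) (W2 := 1230186008) (P3 := 697932185) (W3 := 42949674) (N0 := 3) (En := eng) (mo := mog) (C1 := cd1q0) (C2 := cd5q3) (C3 := pd3)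
    rfl k0_mm_033

noncomputable def f_mm_101 : ℕ → ℕ → ℕ → ℕ → Bool := onCell 536870912 536870912 0 536870912 697932185 42949674
    (rowB 3 eng mog cd1q1 cd5q1 pd0 1 false false false .npn 1 0 1 (qsf 536870912 536870912 536870912 536870912 0) ndB1q1 ndB5q1 pcB0 Cut.none Ext.none)

def k0_mm_101 : ∃ t, chk3 f_mm_101 t 1 1 1 = true :=
  ⟨(l 3), by decide +kernel⟩

theorem c_mm_101 : CertB 536870912 536870912 536870912 536870912 697932185 42949674 3 eng mog cd1q1 cd5q1 pd0 false false false .npn 1 0 1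
    ndB1q1 ndB5q1 pcB0 Cut.none Ext.none :=
  certB1 (fam := false) (s1 := false) (s2 := false) (a := 1) (b := 0) (c := 1) (cn := .npn) (n1 := ndB1q1) (n2 := ndB5q1) (pc := pcB0) (cut := Cut.none) (xt := Ext.none) (P1 := 536870912) (W1 := 536870912) (P2 := 536870912) (W2 := 536870912) (P3 := 697932185) (W3 := 42949674) (N0 := 3) (En := eng) (mo := mog) (C1 := cd1q1) (C2 := cd5q1) (C3 := pd0)
    rfl (fun _ => rfl) k0_mm_101

noncomputable def f_mm_102 : ℕ → ℕ → ℕ → ℕ → Bool := onCell 536870912 536870912 1073741824 536870912 697932185 42949674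
    (rowB 3 eng mog cd1q1 cd5q2 pd0 0 false false false .npp 1 0 2 (qsf 536870912 536870912 1073741824 536870912 0) ndB1q1 ndB5q2 pcB0 Cut.none Ext.none)

def k0_mm_102 : ∃ t, chk3 f_mm_102 t 1 1 1 = true :=
  ⟨(l 3), by decide +kernel⟩

theorem c_mm_102 : CertB 536870912 536870912 1073741824 536870912 697932185 42949674 3 eng mog cd1q1 cd5q2 pd0 false false false .npp 1 0 2
    ndB1q1 ndB5q2 pcB0 Cut.none Ext.none :=
  certB0 (fam := false) (s1 := false) (s2 := false) (a := 1) (b := 0) (c := 2) (cn := .npp) (n1 := ndB1q1) (n2 := ndB5q2) (pc := pcB0) (cut := Cut.none) (xt := Ext.none) (P1 := 536870912) (W1 := 536870912) (P2 := 1073741824) (W2 := 536870912) (P3 := 697932185) (W3 := 42949674) (N0 := 3) (En := eng) (mo := mog) (C1 := cd1q1) (C2 := cd5q2) (C3 := pd0)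
    rfl k0_mm_102

noncomputable def f_mm_112 : ℕ → ℕ → ℕ → ℕ → Bool := onCell 536870912 536870912 1073741824 536870912 697932185 42949674
    (rowB 3 eng mog cd1q1 cd5q2 pd1 0 false false false .dn 1 1 2 (qsf 536870912 536870912 1073741824 536870912 1) ndB1q1 ndB5q2 pcB1 Cut.none Ext.none)

def k0_mm_112 : ∃ t, chk3 f_mm_112 t 1 1 1 = true :=
  ⟨(l 3), by decide +kernel⟩

theorem c_mm_112 : CertB 536870912 536870912 1073741824 536870912 697932185 42949674 3 eng mog cd1q1 cd5q2 pd1 false false false .dn 1 1 2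
    ndB1q1 ndB5q2 pcB1 Cut.none Ext.none :=
  certB0 (fam := false) (s1 := false) (s2 := false) (a := 1) (b := 1) (c := 2) (cn := .dn) (n1 := ndB1q1) (n2 := ndB5q2) (pc := pcB1) (cut := Cut.none) (xt := Ext.none) (P1 := 536870912) (W1 := 536870912) (P2 := 1073741824) (W2 := 536870912) (P3 := 697932185) (W3 := 42949674) (N0 := 3) (En := eng) (mo := mog) (C1 := cd1q1) (C2 := cd5q2) (C3 := pd1)
    rfl k0_mm_112

noncomputable def f_mm_113 : ℕ → ℕ → ℕ → ℕ → Bool := onCell 536870912 536870912 0 1230186008 697932185 42949674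
    (rowB 3 eng mog cd1q1 cd5q3 pd1 0 false false false .nn 1 1 3 (qsf 536870912 536870912 0 1230186008 1) ndB1q1 ndB5q3 pcB1 Cut.none Ext.none)

def k0_mm_113 : ∃ t, chk3 f_mm_113 t 1 1 1 = true :=
  ⟨(b (l 5) (l 5)), by decide +kernel⟩

theorem c_mm_113 : CertB 536870912 536870912 0 1230186008 697932185 42949674 3 eng mog cd1q1 cd5q3 pd1 false false false .nn 1 1 3
    ndB1q1 ndB5q3 pcB1 Cut.none Ext.none :=
  certB0 (fam := false) (s1 := false) (s2 := false) (a := 1) (b := 1) (c := 3) (cn := .nn) (n1 := ndB1q1) (n2 := ndB5q3) (pc := pcB1) (cut := Cut.none) (xt := Ext.none) (P1 := 536870912) (W1 := 536870912) (P2 := 0) (W2 := 1230186008) (P3 := 697932185) (W3 := 42949674) (N0 := 3) (En := eng) (mo := mog) (C1 := cd1q1) (C2 := cd5q3) (C3 := pd1)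
    rfl k0_mm_113

noncomputable def f_mm_123 : ℕ → ℕ → ℕ → ℕ → Bool := onCell 536870912 536870912 0 1230186008 697932185 42949674
    (rowB 3 eng mog cd1q1 cd5q3 pd2 0 false false false .npn 1 2 3 (qsf 536870912 536870912 0 1230186008 2) ndB1q1 ndB5q3 pcB2 Cut.none Ext.none)

def k0_mm_123 : ∃ t, chk3 f_mm_123 t 1 1 1 = true :=
  ⟨(b (l 5) (l 5)), by decide +kernel⟩

theorem c_mm_123 : CertB 536870912 536870912 0 1230186008 697932185 42949674 3 eng mog cd1q1 cd5q3 pd2 false false false .npn 1 2 3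
    ndB1q1 ndB5q3 pcB2 Cut.none Ext.none :=
  certB0 (fam := false) (s1 := false) (s2 := false) (a := 1) (b := 2) (c := 3) (cn := .npn) (n1 := ndB1q1) (n2 := ndB5q3) (pc := pcB2) (cut := Cut.none) (xt := Ext.none) (P1 := 536870912) (W1 := 536870912) (P2 := 0) (W2 := 1230186008) (P3 := 697932185) (W3 := 42949674) (N0 := 3) (En := eng) (mo := mog) (C1 := cd1q1) (C2 := cd5q3) (C3 := pd2)
    rfl k0_mm_123

noncomputable def f_mm_133 : ℕ → ℕ → ℕ → ℕ → Bool := onCell 536870912 536870912 0 1230186008 697932185 42949674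
    (rowB 3 eng mog cd1q1 cd5q3 pd3 0 false false false .dn 1 3 3 (qsf 536870912 536870912 0 1230186008 3) ndB1q1 ndB5q3 pcB3 Cut.none Ext.none)

def k0_mm_133 : ∃ t, chk3 f_mm_133 t 1 1 1 = true :=
  ⟨(b (l 5) (l 1)), by decide +kernel⟩

theorem c_mm_133 : CertB 536870912 536870912 0 1230186008 697932185 42949674 3 eng mog cd1q1 cd5q3 pd3 false false false .dn 1 3 3
    ndB1q1 ndB5q3 pcB3 Cut.none Ext.none :=
  certB0 (fam := false) (s1 := false) (s2 := false) (a := 1) (b := 3) (c := 3) (cn := .dn) (n1 := ndB1q1) (n2 := ndB5q3) (pc := pcB3) (cut := Cut.none) (xt := Ext.none) (P1 := 536870912) (W1 := 536870912) (P2 := 0) (W2 := 1230186008) (P3 := 697932185) (W3 := 42949674) (N0 := 3) (En := eng) (mo := mog) (C1 := cd1q1) (C2 := cd5q3) (C3 := pd3)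
    rfl k0_mm_133

noncomputable def f_mm_202_a : ℕ → ℕ → ℕ → ℕ → Bool := onCell 0 536870912 1073741824 536870912 697932185 42949674
    (rowB 3 eng mog cd1q2a cd5q2 pd0 0 false false false .pp 2 0 2 (qsf 0 536870912 1073741824 536870912 0) ndB1q2a ndB5q2 pcB0 Cut.none Ext.none)

def k0_mm_202_a : ∃ t, chk3 f_mm_202_a t 1 1 1 = true :=
  ⟨(l 3), by decide +kernel⟩

theorem c_mm_202_a : CertB 0 536870912 1073741824 536870912 697932185 42949674 3 eng mog cd1q2a cd5q2 pd0 false false false .pp 2 0 2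
    ndB1q2a ndB5q2 pcB0 Cut.none Ext.none :=
  certB0 (fam := false) (s1 := false) (s2 := false) (a := 2) (b := 0) (c := 2) (cn := .pp) (n1 := ndB1q2a) (n2 := ndB5q2) (pc := pcB0) (cut := Cut.none) (xt := Ext.none) (P1 := 0) (W1 := 536870912) (P2 := 1073741824) (W2 := 536870912) (P3 := 697932185) (W3 := 42949674) (N0 := 3) (En := eng) (mo := mog) (C1 := cd1q2a) (C2 := cd5q2) (C3 := pd0)
    rfl k0_mm_202_a

noncomputable def f_mm_202_b : ℕ → ℕ → ℕ → ℕ → Bool := onCell 1239849684 370763052 1073741824 536870912 697932185 42949674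
    (rowB 3 eng mog cd1q2b cd5q2 pd0 0 false false false .pp 2 0 2 (qsf 1239849684 370763052 1073741824 536870912 0) ndB1q2b ndB5q2 pcB0 Cut.none Ext.none)

def k0_mm_202_b : ∃ t, chk3 f_mm_202_b t 1 1 1 = true :=
  ⟨(l 3), by decide +kernel⟩

theorem c_mm_202_b : CertB 1239849684 370763052 1073741824 536870912 697932185 42949674 3 eng mog cd1q2b cd5q2 pd0 false false false .pp 2 0 2
    ndB1q2b ndB5q2 pcB0 Cut.none Ext.none :=
  certB0 (fam := false) (s1 := false) (s2 := false) (a := 2) (b := 0) (c := 2) (cn := .pp) (n1 := ndB1q2b) (n2 := ndB5q2) (pc := pcB0) (cut := Cut.none) (xt := Ext.none) (P1 := 1239849684) (W1 := 370763052) (P2 := 1073741824) (W2 := 536870912) (P3 := 697932185) (W3 := 42949674) (N0 := 3) (En := eng) (mo := mog) (C1 := cd1q2b) (C2 := cd5q2) (C3 := pd0)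
    rfl k0_mm_202_b

noncomputable def f_mm_203_a : ℕ → ℕ → ℕ → ℕ → Bool := onCell 0 536870912 0 1230186008 697932185 42949674
    (rowB 3 eng mog cd1q2a cd5q3 pd0 0 false false false .up 2 0 3 (qsf 0 536870912 0 1230186008 0) ndB1q2a ndB5q3 pcB0 Cut.none Ext.none)

def k0_mm_203_a : ∃ t, chk3 f_mm_203_a t 1 1 1 = true :=
  ⟨(b (l 2) (l 3)), by decide +kernel⟩

theorem c_mm_203_a : CertB 0 536870912 0 1230186008 697932185 42949674 3 eng mog cd1q2a cd5q3 pd0 false false false .up 2 0 3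
    ndB1q2a ndB5q3 pcB0 Cut.none Ext.none :=
  certB0 (fam := false) (s1 := false) (s2 := false) (a := 2) (b := 0) (c := 3) (cn := .up) (n1 := ndB1q2a) (n2 := ndB5q3) (pc := pcB0) (cut := Cut.none) (xt := Ext.none) (P1 := 0) (W1 := 536870912) (P2 := 0) (W2 := 1230186008) (P3 := 697932185) (W3 := 42949674) (N0 := 3) (En := eng) (mo := mog) (C1 := cd1q2a) (C2 := cd5q3) (C3 := pd0)
    rfl k0_mm_203_a

noncomputable def f_mm_203_b : ℕ → ℕ → ℕ → ℕ → Bool := onCell 1239849684 370763052 0 1230186008 697932185 42949674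
    (rowB 3 eng mog cd1q2b cd5q3 pd0 0 false false false .up 2 0 3 (qsf 1239849684 370763052 0 1230186008 0) ndB1q2b ndB5q3 pcB0 Cut.none Ext.none)

def k0_mm_203_b : ∃ t, chk3 f_mm_203_b t 1 1 1 = true :=
  ⟨(b (l 3) (l 3)), by decide +kernel⟩

theorem c_mm_203_b : CertB 1239849684 370763052 0 1230186008 697932185 42949674 3 eng mog cd1q2b cd5q3 pd0 false false false .up 2 0 3
    ndB1q2b ndB5q3 pcB0 Cut.none Ext.none :=
  certB0 (fam := false) (s1 := false) (s2 := false) (a := 2) (b := 0) (c := 3) (cn := .up) (n1 := ndB1q2b) (n2 := ndB5q3) (pc := pcB0) (cut := Cut.none) (xt := Ext.none) (P1 := 1239849684) (W1 := 370763052) (P2 := 0) (W2 := 1230186008) (P3 := 697932185) (W3 := 42949674) (N0 := 3) (En := eng) (mo := mog) (C1 := cd1q2b) (C2 := cd5q3) (C3 := pd0)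
    rfl k0_mm_203_b

noncomputable def f_mm_213_a : ℕ → ℕ → ℕ → ℕ → Bool := onCell 0 536870912 0 1230186008 697932185 42949674
    (rowB 3 eng mog cd1q2a cd5q3 pd1 0 false false false .pnn 2 1 3 (qsf 0 536870912 0 1230186008 1) ndB1q2a ndB5q3 pcB1 Cut.none Ext.none)

def k0_mm_213_a : ∃ t, chk3 f_mm_213_a t 1 1 1 = true :=
  ⟨(b (a (l 3) (l 5)) (l 3)), by decide +kernel⟩

theorem c_mm_213_a : CertB 0 536870912 0 1230186008 697932185 42949674 3 eng mog cd1q2a cd5q3 pd1 false false false .pnn 2 1 3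
    ndB1q2a ndB5q3 pcB1 Cut.none Ext.none :=
  certB0 (fam := false) (s1 := false) (s2 := false) (a := 2) (b := 1) (c := 3) (cn := .pnn) (n1 := ndB1q2a) (n2 := ndB5q3) (pc := pcB1) (cut := Cut.none) (xt := Ext.none) (P1 := 0) (W1 := 536870912) (P2 := 0) (W2 := 1230186008) (P3 := 697932185) (W3 := 42949674) (N0 := 3) (En := eng) (mo := mog) (C1 := cd1q2a) (C2 := cd5q3) (C3 := pd1)
    rfl k0_mm_213_a

noncomputable def f_mm_213_b : ℕ → ℕ → ℕ → ℕ → Bool := onCell 1239849684 370763052 0 1230186008 697932185 42949674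
    (rowB 3 eng mog cd1q2b cd5q3 pd1 0 false false false .pnn 2 1 3 (qsf 1239849684 370763052 0 1230186008 1) ndB1q2b ndB5q3 pcB1 Cut.none Ext.none)

def k0_mm_213_b : ∃ t, chk3 f_mm_213_b t 1 1 1 = true :=
  ⟨(b (l 3) (l 3)), by decide +kernel⟩

theorem c_mm_213_b : CertB 1239849684 370763052 0 1230186008 697932185 42949674 3 eng mog cd1q2b cd5q3 pd1 false false false .pnn 2 1 3
    ndB1q2b ndB5q3 pcB1 Cut.none Ext.none :=
  certB0 (fam := false) (s1 := false) (s2 := false) (a := 2) (b := 1) (c := 3) (cn := .pnn) (n1 := ndB1q2b) (n2 := ndB5q3) (pc := pcB1) (cut := Cut.none) (xt := Ext.none) (P1 := 1239849684) (W1 := 370763052) (P2 := 0) (W2 := 1230186008) (P3 := 697932185) (W3 := 42949674) (N0 := 3) (En := eng) (mo := mog) (C1 := cd1q2b) (C2 := cd5q3) (C3 := pd1)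
    rfl k0_mm_213_b

noncomputable def f_mm_303 : ℕ → ℕ → ℕ → ℕ → Bool := onCell 1610612736 536870912 0 1230186008 697932185 42949674
    (rowB 3 eng mog cd1q3 cd5q3 pd0 0 false false false .npn 3 0 3 (qsf 1610612736 536870912 0 1230186008 0) ndB1q3 ndB5q3 pcB0 Cut.none Ext.none)

def k0_mm_303 : ∃ t, chk3 f_mm_303 t 1 1 1 = true :=
  ⟨(b (l 3) (l 3)), by decide +kernel⟩

theorem c_mm_303 : CertB 1610612736 536870912 0 1230186008 697932185 42949674 3 eng mog cd1q3 cd5q3 pd0 false false false .npn 3 0 3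
    ndB1q3 ndB5q3 pcB0 Cut.none Ext.none :=
  certB0 (fam := false) (s1 := false) (s2 := false) (a := 3) (b := 0) (c := 3) (cn := .npn) (n1 := ndB1q3) (n2 := ndB5q3) (pc := pcB0) (cut := Cut.none) (xt := Ext.none) (P1 := 1610612736) (W1 := 536870912) (P2 := 0) (W2 := 1230186008) (P3 := 697932185) (W3 := 42949674) (N0 := 3) (En := eng) (mo := mog) (C1 := cd1q3) (C2 := cd5q3) (C3 := pd0)
    rfl k0_mm_303

noncomputable def f_mm_313 : ℕ → ℕ → ℕ → ℕ → Bool := onCell 1610612736 536870912 0 1230186008 697932185 42949674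
    (rowB 3 eng mog cd1q3 cd5q3 pd1 0 false false false .dn 3 1 3 (qsf 1610612736 536870912 0 1230186008 1) ndB1q3 ndB5q3 pcB1 Cut.none Ext.none)

def k0_mm_313 : ∃ t, chk3 f_mm_313 t 1 1 1 = true :=
  ⟨(b (l 3) (l 1)), by decide +kernel⟩

theorem c_mm_313 : CertB 1610612736 536870912 0 1230186008 697932185 42949674 3 eng mog cd1q3 cd5q3 pd1 false false false .dn 3 1 3
    ndB1q3 ndB5q3 pcB1 Cut.none Ext.none :=
  certB0 (fam := false) (s1 := false) (s2 := false) (a := 3) (b := 1) (c := 3) (cn := .dn) (n1 := ndB1q3) (n2 := ndB5q3) (pc := pcB1) (cut := Cut.none) (xt := Ext.none) (P1 := 1610612736) (W1 := 536870912) (P2 := 0) (W2 := 1230186008) (P3 := 697932185) (W3 := 42949674) (N0 := 3) (En := eng) (mo := mog) (C1 := cd1q3) (C2 := cd5q3) (C3 := pd1)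
    rfl k0_mm_313

end Pool.Agent.Strip051.G.I6500_6900.Tab.C.BB15

namespace Pool.Agent.Strip051.G.I6500_6900.Tab.C.BB16

open Pool.Agent.Strip051.PB Pool.Agent.Strip051.PB.T
open Pool.Agent.Strip051.G.I6500_6900.Tab

noncomputable def f_pp_001 : ℕ → ℕ → ℕ → ℕ → Bool := onCell 0 536870912 0 536870912 697932185 42949674
    (rowB 3 eng mog cd1q0 cd6q1 pd0 1 false true true .up 0 0 1 (qsf 0 536870912 536870912 536870912 0) ndB1q0 ndB6q1 pcB0 Cut.none Ext.none)

def k0_pp_001 : ∃ t, chk3 f_pp_001 t 1 1 1 = true :=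
  ⟨(l 3), by decide +kernel⟩

theorem c_pp_001 : CertB 0 536870912 536870912 536870912 697932185 42949674 3 eng mog cd1q0 cd6q1 pd0 false true true .up 0 0 1
    ndB1q0 ndB6q1 pcB0 Cut.none Ext.none :=
  certB1 (fam := false) (s1 := true) (s2 := true) (a := 0) (b := 0) (c := 1) (cn := .up) (n1 := ndB1q0) (n2 := ndB6q1) (pc := pcB0) (cut := Cut.none) (xt := Ext.none) (P1 := 0) (W1 := 536870912) (P2 := 536870912) (W2 := 536870912) (P3 := 697932185) (W3 := 42949674) (N0 := 3) (En := eng) (mo := mog) (C1 := cd1q0) (C2 := cd6q1) (C3 := pd0)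
    rfl (fun _ => rfl) k0_pp_001

noncomputable def cut_pp_011 : Cut := Cut.of [[⟨0, 0, 0, 67108864⟩, ⟨1, 1, 0, 67108864⟩, ⟨2, 1, 0, 67108864⟩]]

noncomputable def f_pp_011 : ℕ → ℕ → ℕ → ℕ → Bool := onCell 0 536870912 536870912 536870912 697932185 42949674
    (rowB 3 eng mog cd1q0 cd6q1 pd1 1 false true true .pnn 0 1 1 (qsf 0 536870912 536870912 536870912 1) ndB1q0 ndB6q1 pcB1 cut_pp_011 Ext.none)

def k0_pp_011 : ∃ t, chk3 f_pp_011 t 1 1 1 = true :=
  ⟨(b (l 3) (b (l 3) (a (b (l 3) (a (a (b (l 3) (a (l 6) (l 3))) (l 3)) (l 2))) (l 2)))), by decide +kernel⟩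

theorem c_pp_011 : CertB 0 536870912 536870912 536870912 697932185 42949674 3 eng mog cd1q0 cd6q1 pd1 false true true .pnn 0 1 1
    ndB1q0 ndB6q1 pcB1 cut_pp_011 Ext.none :=
  certB1 (fam := false) (s1 := true) (s2 := true) (a := 0) (b := 1) (c := 1) (cn := .pnn) (n1 := ndB1q0) (n2 := ndB6q1) (pc := pcB1) (cut := cut_pp_011) (xt := Ext.none) (P1 := 0) (W1 := 536870912) (P2 := 536870912) (W2 := 536870912) (P3 := 697932185) (W3 := 42949674) (N0 := 3) (En := eng) (mo := mog) (C1 := cd1q0) (C2 := cd6q1) (C3 := pd1)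
    rfl (fun _ => rfl) k0_pp_011

noncomputable def f_pp_012 : ℕ → ℕ → ℕ → ℕ → Bool := onCell 0 536870912 536870912 536870912 697932185 42949674
    (rowB 3 eng mog cd1q0 cd6q2 pd1 1 false true true .pnp 0 1 2 (qsf 0 536870912 1073741824 536870912 1) ndB1q0 ndB6q2 pcB1 Cut.none Ext.none)

def k0_pp_012 : ∃ t, chk3 f_pp_012 t 1 1 1 = true :=
  ⟨(l 3), by decide +kernel⟩

theorem c_pp_012 : CertB 0 536870912 1073741824 536870912 697932185 42949674 3 eng mog cd1q0 cd6q2 pd1 false true true .pnp 0 1 2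
    ndB1q0 ndB6q2 pcB1 Cut.none Ext.none :=
  certB1 (fam := false) (s1 := true) (s2 := true) (a := 0) (b := 1) (c := 2) (cn := .pnp) (n1 := ndB1q0) (n2 := ndB6q2) (pc := pcB1) (cut := Cut.none) (xt := Ext.none) (P1 := 0) (W1 := 536870912) (P2 := 1073741824) (W2 := 536870912) (P3 := 697932185) (W3 := 42949674) (N0 := 3) (En := eng) (mo := mog) (C1 := cd1q0) (C2 := cd6q2) (C3 := pd1)
    rfl (fun _ => rfl) k0_pp_012

noncomputable def f_pp_022 : ℕ → ℕ → ℕ → ℕ → Bool := onCell 1073741824 536870912 1073741824 536870912 697932185 42949674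
    (rowB 3 eng mog cd1q0 cd6q2 pd2 2 false true true .pp 0 2 2 (qsf 0 536870912 1073741824 536870912 2) ndB1q0 ndB6q2 pcB2 Cut.none Ext.none)

def k0_pp_022 : ∃ t, chk3 f_pp_022 t 4 1 1 = true :=
  ⟨(l 3), by decide +kernel⟩

def k1_pp_022 : ∃ t, chk3 f_pp_022 t 5 2 1 = true :=
  ⟨(b (a (a (a (l 3) (l 1)) (l 1)) (l 1)) (a (a (a (l 3) (a (l 3) (a (b (l 3) (l 3)) (b (a (a (b (l 4349358268423) (l 3)) (a (b (l 16445232) (b (l 7036934157335) (l 3))) (b (l 16443784) (b (b (l 16446816) (l 16444528)) (l 16450864))))) (a (a (a (b (l 16442768) (b (l 16402960) (l 16450152))) (a (b (l 16442304) (b (l 16402560) (l 16449776))) (b (l 16442048) (b (l 16402256) (l 16449488))))) (b (l 16441200) (b (l 16401608) (l 16448848)))) (b (l 16439104) (b (l 16421056) (l 16447344))))) (a (a (l 3) (a (l 3) (b (l 592872503303) (l 3)))) (a (a (a (b (l 16402608) (l 3)) (a (b (l 16402248) (l 16477064)) (b (l 16464904) (l 16476752)))) (b (l 16464280) (l 16475992))) (b (l 16462784) (l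 16474144)))))))) (b (b (b (l 1) (l 16402232)) (b (a (b (l 16425728) (a (l 16431808) (l 16394368))) (l 16391064)) (a (c (l 16429168) (l 16431536)) (l 16396768)))) (b (b (a (l 16440768) (l 16405480)) (l 16428864)) (b (l 16431520) (l 16434864))))) (b (b (l 1) (a (l 16422896) (l 1))) (b (a (b (l 16340088) (l 16343672)) (l 16253216)) (a (l 16350776) (b (l 16261808) (l 16268848))))))), by decide +kernel⟩

def k2_pp_022 : ∃ t, chk3 f_pp_022 t 5 3 1 = true :=
  ⟨(a (a (a (l 3) (a (b (l 3) (a (b (l 3) (l 16601376)) (b (l 1378315235223) (l 16597008)))) (b (a (b (l 3) (b (l 3) (a (l 3) (l 16514208)))) (b (a (a (l 3) (b (l 3) (a (l 16503920) (l 16502696)))) (a (a (a (b (l 16486512) (l 16501784)) (b (c (l 16487960) (l 16482968)) (c (l 16502920) (l 16498592)))) (b (l 16484912) (l 16500328))) (b (l 16483016) (l 16498536)))) (a (a (b (l 763060861863) (l 16532392)) (b (b (l 16514272) (l 16520832)) (c (l 16532912) (l 16527072)))) (a (a (a (b (l 16516192) (l 16529120))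 (a (b (l 16515816) (l 16528816)) (b (l 16515608) (l 16528664)))) (b (l 16514944) (l 16528064))) (b (l 16513328) (l 16526552)))))) (a (b (b (a (l 16555536) (l 16552128)) (a (l 16572224) (l 16569248))) (a (l 16593952) (l 16592200))) (b (a (a (b (l 16549456) (l 16567080)) (b (l 16547736) (l 16565856))) (b (l 16545152) (l 16563704))) (a (a (l 16590848) (l 16590056)) (l 16588424))))))) (b (b (b (a (l 16462056) (l 16442992)) (l 16500232)) (b (b (l 16472312) (l 16480904)) (l 16482344))) (b (b (l 16511616) (l 16533264)) (l 16606200)))) (b (b (a (b (l 16383656) (b (l 16373352) (l 16382720))) (b (l 16281000) (l 16299352))) (b (a (b (l 16393944) (l 16405760)) (b (l 16314600) (l 16326304))) (a (l 16422456) (l 16346616)))) (b (b (l 16453584) (l 16439648)) (b (l 16469224) (l 16499888))))), by decide +kernel⟩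

def k3_pp_022 : ∃ t, chk3 f_pp_022 t 3 1 1 = true :=
  ⟨(b (a (b (l 1) (a (b (l 1) (b (l 1) (l 16259248))) (l 1))) (l 1)) (b (a (b (a (b (a (l 16196424) (l 16109576)) (a (l 16218760) (l 16135384))) (b (l 1) (l 16007120))) (a (b (b (l 16197392) (l 16210824)) (l 16253840)) (b (a (l 16082288) (l 15998488)) (l 16079352)))) (a (b (l 1) (b (l 1) (l 15918744))) (l 1))) (a (b (a (b (l 16267344) (l 16305728)) (b (l 16121912) (l 16167248))) (a (b (l 16345488) (l 16386136)) (l 16242624))) (b (a (b (l 15973144) (l 16031152)) (l 15855576)) (a (l 16119736) (l 15999136)))))), by decide +kernel⟩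

theorem s4_pp_022 : ∃ t, chk3 f_pp_022 t 5 1 1 = true := ex3_b k1_pp_022 k2_pp_022

theorem s5_pp_022 : ∃ t, chk3 f_pp_022 t 2 1 1 = true := ex3_a k0_pp_022 s4_pp_022

theorem s6_pp_022 : ∃ t, chk3 f_pp_022 t 1 1 1 = true := ex3_a s5_pp_022 k3_pp_022

theorem c_pp_022 : CertB 0 536870912 1073741824 536870912 697932185 42949674 3 eng mog cd1q0 cd6q2 pd2 false true true .pp 0 2 2
    ndB1q0 ndB6q2 pcB2 Cut.none Ext.none :=
  certB2 (fam := false) (s1 := true) (s2 := true) (a := 0) (b := 2) (c := 2) (cn := .pp) (n1 := ndB1q0) (n2 := ndB6q2) (pc := pcB2) (cut := Cut.none) (xt := Ext.none) (P1 := 0) (W1 := 536870912) (P2 := 1073741824) (W2 := 536870912) (P3 := 697932185) (W3 := 42949674) (N0 := 3) (En := eng) (mo := mog) (C1 := cd1q0) (C2 := cd6q2) (C3 := pd2)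
    rfl (fun _ => rfl) s6_pp_022

noncomputable def f_pp_023 : ℕ → ℕ → ℕ → ℕ → Bool := onCell 1073741824 536870912 0 1230186008 697932185 42949674
    (rowB 3 eng mog cd1q0 cd6q3 pd2 2 false true true .up 0 2 3 (qsf 0 536870912 0 1230186008 2) ndB1q0 ndB6q3 pcB2 Cut.none Ext.none)

def k0_pp_023 : ∃ t, chk3 f_pp_023 t 1 1 1 = true :=
  ⟨(a (b (l 2) (a (b (l 2) (b (l 2) (l 3))) (a (b (l 2) (a (b (b (l 2) (a (a (l 16691296) (l 16686632)) (a (l 16680352) (a (l 16676536) (b (l 2) (l 16666768)))))) (a (a (b (l 16654968) (l 3)) (b (l 16646128) (l 795273402535))) (a (b (l 16638232) (a (l 16616784) (l 16615360))) (b (a (l 16632360) (a (l 16629368) (l 16627680))) (a (a (l 16615312) (l 16615664)) (a (l 16615896) (b (l 16615840) (l 16610176)))))))) (b (l 16684584) (b (l 16602392) (l 16603432))))) (b (b (l 2) (l 16711648)) (b (b (l 16666912) (l 16618808)) (b (l 16604912) (b (l 16570656) (l 16535256)))))))) (b (a (l 2) (b (a (l 2) (l 16667640)) (b (l 16689792) (l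 16683008)))) (b (a (a (b (l 2) (l 16675544)) (b (l 16674032) (l 16642984))) (b (l 16655112) (a (l 16654904) (b (l 16596568) (l 16547744))))) (a (b (a (l 16732568) (b (l 16593744) (l 16536944))) (b (a (l 16550776) (l 16453680)) (a (l 16503944) (l 16349344)))) (b (a (b (l 16533512) (l 16442792)) (b (l 16463040) (l 16345472))) (b (a (l 16340304) (l 16225528)) (a (l 16234552) (l 16122192)))))))), by decide +kernel⟩

theorem c_pp_023 : CertB 0 536870912 0 1230186008 697932185 42949674 3 eng mog cd1q0 cd6q3 pd2 false true true .up 0 2 3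
    ndB1q0 ndB6q3 pcB2 Cut.none Ext.none :=
  certB2 (fam := false) (s1 := true) (s2 := true) (a := 0) (b := 2) (c := 3) (cn := .up) (n1 := ndB1q0) (n2 := ndB6q3) (pc := pcB2) (cut := Cut.none) (xt := Ext.none) (P1 := 0) (W1 := 536870912) (P2 := 0) (W2 := 1230186008) (P3 := 697932185) (W3 := 42949674) (N0 := 3) (En := eng) (mo := mog) (C1 := cd1q0) (C2 := cd6q3) (C3 := pd2)
    rfl (fun _ => rfl) k0_pp_023

noncomputable def f_pp_033 : ℕ → ℕ → ℕ → ℕ → Bool := onCell 1610612736 536870912 0 1230186008 697932185 42949674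
    (rowB 3 eng mog cd1q0 cd6q3 pd3 2 false true true .pnn 0 3 3 (qsf 0 536870912 0 1230186008 3) ndB1q0 ndB6q3 pcB3 Cut.none Ext.none)

def k0_pp_033 : ∃ t, chk3 f_pp_033 t 1 1 1 = true :=
  ⟨(a (b (b (a (a (l 16660440) (l 16607584)) (a (l 16550904) (l 16486832))) (b (a (l 16811720) (a (a (l 16540408) (l 16503376)) (l 16446584))) (a (a (l 16669728) (l 16552136)) (a (a (l 16479952) (l 16432576)) (a (b (l 16413680) (l 16620736)) (l 16352272)))))) (b (a (b (a (l 16602872) (l 16465592)) (a (l 16485128) (l 16337040))) (a (b (a (a (l 16377168) (l 16367784)) (a (l 16329984) (l 16375216))) (a (a (l 16241376) (l 16228688)) (b (l 16244360) (l 16130712)))) (a (b (a (b (l 16314008) (l 16260592)) (b (l 16314616) (l 16259528))) (a (b (a (l 16149496) (l 16172824)) (a (l 16084720) (l 16102528))) (a (a (l 16157128) (l 16400048)) (l 16164176)))) (b (l 16247728) (b (l 16162536) (l 16086368)))))) (a (b (a (b (l 16355440) (l 16251392)) (b (l 16215168) (l 16122912))) (b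 (a (l 16140704) (l 16020968)) (a (l 16029320) (l 217464570423)))) (b (b (a (a (l 16109592) (l 16056984)) (a (a (l 16021064) (l 139619039959)) (l 15979872))) (a (a (l 16020448) (l 15970624)) (l 1))) (b (a (l 122975582679) (l 1)) (l 1)))))) (b (a (a (b (l 16406728) (a (l 16601440) (l 16318856))) (b (l 4) (a (l 16514968) (b (l 4) (l 16223008))))) (a (b (l 4) (a (b (l 4) (l 16196736)) (l 4))) (l 4))) (b (b (a (a (b (l 16213680) (a (l 16165416) (l 16127936))) (a (b (l 16178840) (l 16101672)) (b (l 16172968) (l 16096792)))) (a (a (b (l 16186976) (l 1)) (l 1)) (l 1))) (a (a (b (l 170220736007) (a (l 16022784) (l 164851790695))) (a (b (l 301753991911) (l 1)) (l 1))) (l 1))) (l 1)))), by decide +kernel⟩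

theorem c_pp_033 : CertB 0 536870912 0 1230186008 697932185 42949674 3 eng mog cd1q0 cd6q3 pd3 false true true .pnn 0 3 3
    ndB1q0 ndB6q3 pcB3 Cut.none Ext.none :=
  certB2 (fam := false) (s1 := true) (s2 := true) (a := 0) (b := 3) (c := 3) (cn := .pnn) (n1 := ndB1q0) (n2 := ndB6q3) (pc := pcB3) (cut := Cut.none) (xt := Ext.none) (P1 := 0) (W1 := 536870912) (P2 := 0) (W2 := 1230186008) (P3 := 697932185) (W3 := 42949674) (N0 := 3) (En := eng) (mo := mog) (C1 := cd1q0) (C2 := cd6q3) (C3 := pd3)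
    rfl (fun _ => rfl) k0_pp_033

noncomputable def f_pp_101 : ℕ → ℕ → ℕ → ℕ → Bool := onCell 536870912 536870912 0 536870912 697932185 42949674
    (rowB 3 eng mog cd1q1 cd6q1 pd0 1 false true true .npn 1 0 1 (qsf 536870912 536870912 536870912 536870912 0) ndB1q1 ndB6q1 pcB0 Cut.none Ext.none)

def k0_pp_101 : ∃ t, chk3 f_pp_101 t 1 1 1 = true :=
  ⟨(l 3), by decide +kernel⟩

theorem c_pp_101 : CertB 536870912 536870912 536870912 536870912 697932185 42949674 3 eng mog cd1q1 cd6q1 pd0 false true true .npn 1 0 1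
    ndB1q1 ndB6q1 pcB0 Cut.none Ext.none :=
  certB1 (fam := false) (s1 := true) (s2 := true) (a := 1) (b := 0) (c := 1) (cn := .npn) (n1 := ndB1q1) (n2 := ndB6q1) (pc := pcB0) (cut := Cut.none) (xt := Ext.none) (P1 := 536870912) (W1 := 536870912) (P2 := 536870912) (W2 := 536870912) (P3 := 697932185) (W3 := 42949674) (N0 := 3) (En := eng) (mo := mog) (C1 := cd1q1) (C2 := cd6q1) (C3 := pd0)
    rfl (fun _ => rfl) k0_pp_101

noncomputable def f_pp_102 : ℕ → ℕ → ℕ → ℕ → Bool := onCell 536870912 536870912 1073741824 536870912 697932185 42949674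
    (rowB 3 eng mog cd1q1 cd6q2 pd0 0 false true true .npp 1 0 2 (qsf 536870912 536870912 1073741824 536870912 0) ndB1q1 ndB6q2 pcB0 Cut.none Ext.none)

def k0_pp_102 : ∃ t, chk3 f_pp_102 t 1 1 1 = true :=
  ⟨(l 3), by decide +kernel⟩

theorem c_pp_102 : CertB 536870912 536870912 1073741824 536870912 697932185 42949674 3 eng mog cd1q1 cd6q2 pd0 false true true .npp 1 0 2
    ndB1q1 ndB6q2 pcB0 Cut.none Ext.none :=
  certB0 (fam := false) (s1 := true) (s2 := true) (a := 1) (b := 0) (c := 2) (cn := .npp) (n1 := ndB1q1) (n2 := ndB6q2) (pc := pcB0) (cut := Cut.none) (xt := Ext.none) (P1 := 536870912) (W1 := 536870912) (P2 := 1073741824) (W2 := 536870912) (P3 := 697932185) (W3 := 42949674) (N0 := 3) (En := eng) (mo := mog) (C1 := cd1q1) (C2 := cd6q2) (C3 := pd0)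
    rfl k0_pp_102

noncomputable def f_pp_112 : ℕ → ℕ → ℕ → ℕ → Bool := onCell 536870912 536870912 1073741824 536870912 697932185 42949674
    (rowB 3 eng mog cd1q1 cd6q2 pd1 0 false true true .dn 1 1 2 (qsf 536870912 536870912 1073741824 536870912 1) ndB1q1 ndB6q2 pcB1 Cut.none Ext.none)

def k0_pp_112 : ∃ t, chk3 f_pp_112 t 1 1 1 = true :=
  ⟨(l 3), by decide +kernel⟩

theorem c_pp_112 : CertB 536870912 536870912 1073741824 536870912 697932185 42949674 3 eng mog cd1q1 cd6q2 pd1 false true true .dn 1 1 2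
    ndB1q1 ndB6q2 pcB1 Cut.none Ext.none :=
  certB0 (fam := false) (s1 := true) (s2 := true) (a := 1) (b := 1) (c := 2) (cn := .dn) (n1 := ndB1q1) (n2 := ndB6q2) (pc := pcB1) (cut := Cut.none) (xt := Ext.none) (P1 := 536870912) (W1 := 536870912) (P2 := 1073741824) (W2 := 536870912) (P3 := 697932185) (W3 := 42949674) (N0 := 3) (En := eng) (mo := mog) (C1 := cd1q1) (C2 := cd6q2) (C3 := pd1)
    rfl k0_pp_112

noncomputable def f_pp_113 : ℕ → ℕ → ℕ → ℕ → Bool := onCell 536870912 536870912 0 1230186008 697932185 42949674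
    (rowB 3 eng mog cd1q1 cd6q3 pd1 2 false true true .nn 1 1 3 (qsf 536870912 536870912 0 1230186008 1) ndB1q1 ndB6q3 pcB1 Cut.none Ext.none)

def k0_pp_113 : ∃ t, chk3 f_pp_113 t 1 1 1 = true :=
  ⟨(a (b (l 2) (b (l 3) (b (l 3) (l 3)))) (b (a (l 2) (b (a (l 2) (a (l 2) (b (a (l 2) (b (l 16762464) (l 16759752))) (a (l 3) (b (l 386714671223) (l 3)))))) (l 3))) (b (l 3) (l 3)))), by decide +kernel⟩

theorem c_pp_113 : CertB 536870912 536870912 0 1230186008 697932185 42949674 3 eng mog cd1q1 cd6q3 pd1 false true true .nn 1 1 3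
    ndB1q1 ndB6q3 pcB1 Cut.none Ext.none :=
  certB2 (fam := false) (s1 := true) (s2 := true) (a := 1) (b := 1) (c := 3) (cn := .nn) (n1 := ndB1q1) (n2 := ndB6q3) (pc := pcB1) (cut := Cut.none) (xt := Ext.none) (P1 := 536870912) (W1 := 536870912) (P2 := 0) (W2 := 1230186008) (P3 := 697932185) (W3 := 42949674) (N0 := 3) (En := eng) (mo := mog) (C1 := cd1q1) (C2 := cd6q3) (C3 := pd1)
    rfl (fun _ => rfl) k0_pp_113

noncomputable def f_pp_123 : ℕ → ℕ → ℕ → ℕ → Bool := onCell 1073741824 536870912 0 1230186008 697932185 42949674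
    (rowB 3 eng mog cd1q1 cd6q3 pd2 2 false true true .npn 1 2 3 (qsf 536870912 536870912 0 1230186008 2) ndB1q1 ndB6q3 pcB2 Cut.none Ext.none)

def k0_pp_123 : ∃ t, chk3 f_pp_123 t 4 1 1 = true :=
  ⟨(b (a (b (a (b (l 16765112) (a (b (l 16777984) (l 332490741799)) (l 16854648))) (b (l 16728272) (l 16766792))) (a (b (a (l 3) (l 389936176519)) (l 3)) (b (a (l 251960435159) (l 16803200)) (a (l 542944323223) (b (l 346449727831) (l 534891419927)))))) (b (b (l 16664248) (l 16744824)) (a (b (l 16839216) (a (b (l 16823904) (b (l 16838488) (l 348060356983))) (b (l 16804072) (l 16822752)))) (b (l 16728800) (b (l 16765736) (a (l 16803064) (l 16782352))))))) (a (b (l 3) (l 3)) (b (a (b (a (b (a (l 554755670135) (l 362555898135)) (l 378661966103)) (b (b (l 16841464) (a (l 16857448) (l 16854552))) (a (a (l 196662773079) (l 198810264183)) (l 206326449751)))) (a (l 3) (a (l 3) (l 391546951111)))) (b (a (a (b (l 16839856) (a (l 16865408) (l 16862536))) (b (l 16829104)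 (l 16856568))) (b (l 16857816) (b (l 16838576) (l 16844024)))) (a (b (a (l 16867448) (l 16859816)) (l 408726602823)) (b (l 16845216) (a (l 16829448) (l 16814728)))))) (a (l 3) (b (a (b (l 3) (l 3)) (b (l 16757480) (l 16711120))) (l 3)))))), by decide +kernel⟩

def k1_pp_123 : ∃ t, chk3 f_pp_123 t 5 1 1 = true :=
  ⟨(b (b (a (a (b (l 16592536) (l 16644304)) (l 16568880)) (b (l 16557784) (l 16597424))) (a (b (a (a (l 16691304) (l 16679560)) (l 16654128)) (a (a (l 16772624) (a (l 16739488) (b (l 16721576) (a (l 16755944) (l 16760320))))) (l 16720544))) (l 16728432))) (b (a (a (a (b (b (l 16799648) (l 16825680)) (a (l 16827232) (b (l 16821296) (l 16790128)))) (b (a (l 16800528) (a (l 16797152) (a (l 16797632) (l 16800488)))) (a (b (l 16814784) (l 16780824)) (a (l 16798624) (a (l 16795760) (l 16794456)))))) (b (l 16804848) (l 16775800))) (b (l 16742632) (l 16735960))) (a (a (a (b (b (a (l 16747240) (l 16738680)) (a (l 16705640) (l 16701768))) (b (a (l 16682288)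 (l 1)) (l 1))) (b (a (l 39225036535) (a (l 16708936) (a (l 16709232) (l 16710360)))) (l 1))) (b (l 16703304) (l 1))) (b (l 16704992) (l 1))))), by decide +kernel⟩

def k2_pp_123 : ∃ t, chk3 f_pp_123 t 3 1 1 = true :=
  ⟨(b (a (b (a (l 16580904) (l 16630056)) (b (l 16654408) (l 16675344))) (b (a (l 16641592) (l 16679000)) (b (l 16701840) (l 16702744)))) (b (a (b (a (l 16705680) (l 16686776)) (a (l 16695072) (l 16681488))) (b (l 16700184) (l 1))) (l 1))), by decide +kernel⟩

theorem s3_pp_123 : ∃ t, chk3 f_pp_123 t 2 1 1 = true := ex3_a k0_pp_123 k1_pp_123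

theorem s4_pp_123 : ∃ t, chk3 f_pp_123 t 1 1 1 = true := ex3_a s3_pp_123 k2_pp_123

theorem c_pp_123 : CertB 536870912 536870912 0 1230186008 697932185 42949674 3 eng mog cd1q1 cd6q3 pd2 false true true .npn 1 2 3
    ndB1q1 ndB6q3 pcB2 Cut.none Ext.none :=
  certB2 (fam := false) (s1 := true) (s2 := true) (a := 1) (b := 2) (c := 3) (cn := .npn) (n1 := ndB1q1) (n2 := ndB6q3) (pc := pcB2) (cut := Cut.none) (xt := Ext.none) (P1 := 536870912) (W1 := 536870912) (P2 := 0) (W2 := 1230186008) (P3 := 697932185) (W3 := 42949674) (N0 := 3) (En := eng) (mo := mog) (C1 := cd1q1) (C2 := cd6q3) (C3 := pd2)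
    rfl (fun _ => rfl) s4_pp_123

noncomputable def f_pp_133 : ℕ → ℕ → ℕ → ℕ → Bool := onCell 536870912 536870912 0 1230186008 697932185 42949674
    (rowB 3 eng mog cd1q1 cd6q3 pd3 0 false true true .dn 1 3 3 (qsf 536870912 536870912 0 1230186008 3) ndB1q1 ndB6q3 pcB3 Cut.none Ext.none)

def k0_pp_133 : ∃ t, chk3 f_pp_133 t 1 1 1 = true :=
  ⟨(b (b (a (a (a (l 1084513223175) (l 1)) (l 1)) (l 1)) (l 1)) (l 1)), by decide +kernel⟩

theorem c_pp_133 : CertB 536870912 536870912 0 1230186008 697932185 42949674 3 eng mog cd1q1 cd6q3 pd3 false true true .dn 1 3 3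
    ndB1q1 ndB6q3 pcB3 Cut.none Ext.none :=
  certB0 (fam := false) (s1 := true) (s2 := true) (a := 1) (b := 3) (c := 3) (cn := .dn) (n1 := ndB1q1) (n2 := ndB6q3) (pc := pcB3) (cut := Cut.none) (xt := Ext.none) (P1 := 536870912) (W1 := 536870912) (P2 := 0) (W2 := 1230186008) (P3 := 697932185) (W3 := 42949674) (N0 := 3) (En := eng) (mo := mog) (C1 := cd1q1) (C2 := cd6q3) (C3 := pd3)
    rfl k0_pp_133

noncomputable def f_pp_202_a : ℕ → ℕ → ℕ → ℕ → Bool := onCell 0 536870912 1073741824 536870912 697932185 42949674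
    (rowB 3 eng mog cd1q2a cd6q2 pd0 0 false true true .pp 2 0 2 (qsf 0 536870912 1073741824 536870912 0) ndB1q2a ndB6q2 pcB0 Cut.none Ext.none)

def k0_pp_202_a : ∃ t, chk3 f_pp_202_a t 1 1 1 = true :=
  ⟨(l 5), by decide +kernel⟩

theorem c_pp_202_a : CertB 0 536870912 1073741824 536870912 697932185 42949674 3 eng mog cd1q2a cd6q2 pd0 false true true .pp 2 0 2
    ndB1q2a ndB6q2 pcB0 Cut.none Ext.none :=
  certB0 (fam := false) (s1 := true) (s2 := true) (a := 2) (b := 0) (c := 2) (cn := .pp) (n1 := ndB1q2a) (n2 := ndB6q2) (pc := pcB0) (cut := Cut.none) (xt := Ext.none) (P1 := 0) (W1 := 536870912) (P2 := 1073741824) (W2 := 536870912) (P3 := 697932185) (W3 := 42949674) (N0 := 3) (En := eng) (mo := mog) (C1 := cd1q2a) (C2 := cd6q2) (C3 := pd0)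
    rfl k0_pp_202_a

noncomputable def f_pp_202_b : ℕ → ℕ → ℕ → ℕ → Bool := onCell 1239849684 370763052 1073741824 536870912 697932185 42949674
    (rowB 3 eng mog cd1q2b cd6q2 pd0 0 false true true .pp 2 0 2 (qsf 1239849684 370763052 1073741824 536870912 0) ndB1q2b ndB6q2 pcB0 Cut.none Ext.none)

def k0_pp_202_b : ∃ t, chk3 f_pp_202_b t 1 1 1 = true :=
  ⟨(l 5), by decide +kernel⟩

theorem c_pp_202_b : CertB 1239849684 370763052 1073741824 536870912 697932185 42949674 3 eng mog cd1q2b cd6q2 pd0 false true true .pp 2 0 2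
    ndB1q2b ndB6q2 pcB0 Cut.none Ext.none :=
  certB0 (fam := false) (s1 := true) (s2 := true) (a := 2) (b := 0) (c := 2) (cn := .pp) (n1 := ndB1q2b) (n2 := ndB6q2) (pc := pcB0) (cut := Cut.none) (xt := Ext.none) (P1 := 1239849684) (W1 := 370763052) (P2 := 1073741824) (W2 := 536870912) (P3 := 697932185) (W3 := 42949674) (N0 := 3) (En := eng) (mo := mog) (C1 := cd1q2b) (C2 := cd6q2) (C3 := pd0)
    rfl k0_pp_202_b

noncomputable def f_pp_203_a : ℕ → ℕ → ℕ → ℕ → Bool := onCell 0 536870912 0 1230186008 697932185 42949674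
    (rowB 3 eng mog cd1q2a cd6q3 pd0 0 false true true .up 2 0 3 (qsf 0 536870912 0 1230186008 0) ndB1q2a ndB6q3 pcB0 Cut.none Ext.none)

def k0_pp_203_a : ∃ t, chk3 f_pp_203_a t 1 1 1 = true :=
  ⟨(b (l 2) (l 3)), by decide +kernel⟩

theorem c_pp_203_a : CertB 0 536870912 0 1230186008 697932185 42949674 3 eng mog cd1q2a cd6q3 pd0 false true true .up 2 0 3
    ndB1q2a ndB6q3 pcB0 Cut.none Ext.none :=
  certB0 (fam := false) (s1 := true) (s2 := true) (a := 2) (b := 0) (c := 3) (cn := .up) (n1 := ndB1q2a) (n2 := ndB6q3) (pc := pcB0) (cut := Cut.none) (xt := Ext.none) (P1 := 0) (W1 := 536870912) (P2 := 0) (W2 := 1230186008) (P3 := 697932185) (W3 := 42949674) (N0 := 3) (En := eng) (mo := mog) (C1 := cd1q2a) (C2 := cd6q3) (C3 := pd0)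
    rfl k0_pp_203_a

noncomputable def f_pp_203_b : ℕ → ℕ → ℕ → ℕ → Bool := onCell 1239849684 370763052 0 1230186008 697932185 42949674
    (rowB 3 eng mog cd1q2b cd6q3 pd0 0 false true true .up 2 0 3 (qsf 1239849684 370763052 0 1230186008 0) ndB1q2b ndB6q3 pcB0 Cut.none Ext.none)

def k0_pp_203_b : ∃ t, chk3 f_pp_203_b t 1 1 1 = true :=
  ⟨(b (l 3) (l 3)), by decide +kernel⟩

theorem c_pp_203_b : CertB 1239849684 370763052 0 1230186008 697932185 42949674 3 eng mog cd1q2b cd6q3 pd0 false true true .up 2 0 3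
    ndB1q2b ndB6q3 pcB0 Cut.none Ext.none :=
  certB0 (fam := false) (s1 := true) (s2 := true) (a := 2) (b := 0) (c := 3) (cn := .up) (n1 := ndB1q2b) (n2 := ndB6q3) (pc := pcB0) (cut := Cut.none) (xt := Ext.none) (P1 := 1239849684) (W1 := 370763052) (P2 := 0) (W2 := 1230186008) (P3 := 697932185) (W3 := 42949674) (N0 := 3) (En := eng) (mo := mog) (C1 := cd1q2b) (C2 := cd6q3) (C3 := pd0)
    rfl k0_pp_203_b

noncomputable def cut_pp_213_a : Cut := Cut.of [[⟨0, 1, 0, 67108864⟩, ⟨1, 1, 0, 67108864⟩, ⟨2, 2, 0, 16777216⟩]]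

noncomputable def f_pp_213_a : ℕ → ℕ → ℕ → ℕ → Bool := onCell 0 536870912 0 1230186008 697932185 42949674
    (rowB 3 eng mog cd1q2a cd6q3 pd1 0 false true true .pnn 2 1 3 (qsf 0 536870912 0 1230186008 1) ndB1q2a ndB6q3 pcB1 cut_pp_213_a Ext.none)

def k0_pp_213_a : ∃ t, chk3 f_pp_213_a t 1 1 1 = true :=
  ⟨(b (a (l 3) (b (a (l 3) (a (l 3) (b (l 6) (l 3)))) (l 3))) (l 3)), by decide +kernel⟩

theorem c_pp_213_a : CertB 0 536870912 0 1230186008 697932185 42949674 3 eng mog cd1q2a cd6q3 pd1 false true true .pnn 2 1 3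
    ndB1q2a ndB6q3 pcB1 cut_pp_213_a Ext.none :=
  certB0 (fam := false) (s1 := true) (s2 := true) (a := 2) (b := 1) (c := 3) (cn := .pnn) (n1 := ndB1q2a) (n2 := ndB6q3) (pc := pcB1) (cut := cut_pp_213_a) (xt := Ext.none) (P1 := 0) (W1 := 536870912) (P2 := 0) (W2 := 1230186008) (P3 := 697932185) (W3 := 42949674) (N0 := 3) (En := eng) (mo := mog) (C1 := cd1q2a) (C2 := cd6q3) (C3 := pd1)
    rfl k0_pp_213_a

noncomputable def cut_pp_213_b : Cut := Cut.of [[⟨0, 1, 0, 67108864⟩, ⟨1, 1, 0, 67108864⟩, ⟨2, 2, 0, 16777216⟩]]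

noncomputable def f_pp_213_b : ℕ → ℕ → ℕ → ℕ → Bool := onCell 1239849684 370763052 0 1230186008 697932185 42949674
    (rowB 3 eng mog cd1q2b cd6q3 pd1 0 false true true .pnn 2 1 3 (qsf 1239849684 370763052 0 1230186008 1) ndB1q2b ndB6q3 pcB1 cut_pp_213_b Ext.none)

def k0_pp_213_b : ∃ t, chk3 f_pp_213_b t 1 1 1 = true :=
  ⟨(b (l 3) (l 3)), by decide +kernel⟩

theorem c_pp_213_b : CertB 1239849684 370763052 0 1230186008 697932185 42949674 3 eng mog cd1q2b cd6q3 pd1 false true true .pnn 2 1 3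
    ndB1q2b ndB6q3 pcB1 cut_pp_213_b Ext.none :=
  certB0 (fam := false) (s1 := true) (s2 := true) (a := 2) (b := 1) (c := 3) (cn := .pnn) (n1 := ndB1q2b) (n2 := ndB6q3) (pc := pcB1) (cut := cut_pp_213_b) (xt := Ext.none) (P1 := 1239849684) (W1 := 370763052) (P2 := 0) (W2 := 1230186008) (P3 := 697932185) (W3 := 42949674) (N0 := 3) (En := eng) (mo := mog) (C1 := cd1q2b) (C2 := cd6q3) (C3 := pd1)
    rfl k0_pp_213_b

noncomputable def f_pp_303 : ℕ → ℕ → ℕ → ℕ → Bool := onCell 1610612736 536870912 0 1230186008 697932185 42949674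
    (rowB 3 eng mog cd1q3 cd6q3 pd0 0 false true true .npn 3 0 3 (qsf 1610612736 536870912 0 1230186008 0) ndB1q3 ndB6q3 pcB0 Cut.none Ext.none)

def k0_pp_303 : ∃ t, chk3 f_pp_303 t 1 1 1 = true :=
  ⟨(b (l 3) (l 5)), by decide +kernel⟩

theorem c_pp_303 : CertB 1610612736 536870912 0 1230186008 697932185 42949674 3 eng mog cd1q3 cd6q3 pd0 false true true .npn 3 0 3
    ndB1q3 ndB6q3 pcB0 Cut.none Ext.none :=
  certB0 (fam := false) (s1 := true) (s2 := true) (a := 3) (b := 0) (c := 3) (cn := .npn) (n1 := ndB1q3) (n2 := ndB6q3) (pc := pcB0) (cut := Cut.none) (xt := Ext.none) (P1 := 1610612736) (W1 := 536870912) (P2 := 0) (W2 := 1230186008) (P3 := 697932185) (W3 := 42949674) (N0 := 3) (En := eng) (mo := mog) (C1 := cd1q3) (C2 := cd6q3) (C3 := pd0)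
    rfl k0_pp_303

noncomputable def f_pp_313 : ℕ → ℕ → ℕ → ℕ → Bool := onCell 1610612736 536870912 0 1230186008 697932185 42949674
    (rowB 3 eng mog cd1q3 cd6q3 pd1 0 false true true .dn 3 1 3 (qsf 1610612736 536870912 0 1230186008 1) ndB1q3 ndB6q3 pcB1 Cut.none Ext.none)

def k0_pp_313 : ∃ t, chk3 f_pp_313 t 1 1 1 = true :=
  ⟨(b (l 3) (l 1)), by decide +kernel⟩

theorem c_pp_313 : CertB 1610612736 536870912 0 1230186008 697932185 42949674 3 eng mog cd1q3 cd6q3 pd1 false true true .dn 3 1 3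
    ndB1q3 ndB6q3 pcB1 Cut.none Ext.none :=
  certB0 (fam := false) (s1 := true) (s2 := true) (a := 3) (b := 1) (c := 3) (cn := .dn) (n1 := ndB1q3) (n2 := ndB6q3) (pc := pcB1) (cut := Cut.none) (xt := Ext.none) (P1 := 1610612736) (W1 := 536870912) (P2 := 0) (W2 := 1230186008) (P3 := 697932185) (W3 := 42949674) (N0 := 3) (En := eng) (mo := mog) (C1 := cd1q3) (C2 := cd6q3) (C3 := pd1)
    rfl k0_pp_313

noncomputable def f_pm_001 : ℕ → ℕ → ℕ → ℕ → Bool := onCell 0 536870912 536870912 536870912 697932185 42949674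
    (rowB 3 eng mog cd1q0 cd6q1 pd0 0 false true false .up 0 0 1 (qsf 0 536870912 536870912 536870912 0) ndB1q0 ndB6q1 pcB0 Cut.none Ext.none)

def k0_pm_001 : ∃ t, chk3 f_pm_001 t 1 1 1 = true :=
  ⟨(l 4), by decide +kernel⟩

theorem c_pm_001 : CertB 0 536870912 536870912 536870912 697932185 42949674 3 eng mog cd1q0 cd6q1 pd0 false true false .up 0 0 1
    ndB1q0 ndB6q1 pcB0 Cut.none Ext.none :=
  certB0 (fam := false) (s1 := true) (s2 := false) (a := 0) (b := 0) (c := 1) (cn := .up) (n1 := ndB1q0) (n2 := ndB6q1) (pc := pcB0) (cut := Cut.none) (xt := Ext.none) (P1 := 0) (W1 := 536870912) (P2 := 536870912) (W2 := 536870912) (P3 := 697932185) (W3 := 42949674) (N0 := 3) (En := eng) (mo := mog) (C1 := cd1q0) (C2 := cd6q1) (C3 := pd0)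
    rfl k0_pm_001

noncomputable def f_pm_011 : ℕ → ℕ → ℕ → ℕ → Bool := onCell 0 536870912 536870912 536870912 697932185 42949674
    (rowB 3 eng mog cd1q0 cd6q1 pd1 0 false true false .pnn 0 1 1 (qsf 0 536870912 536870912 536870912 1) ndB1q0 ndB6q1 pcB1 Cut.none Ext.none)

def k0_pm_011 : ∃ t, chk3 f_pm_011 t 1 1 1 = true :=
  ⟨(l 4), by decide +kernel⟩

theorem c_pm_011 : CertB 0 536870912 536870912 536870912 697932185 42949674 3 eng mog cd1q0 cd6q1 pd1 false true false .pnn 0 1 1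
    ndB1q0 ndB6q1 pcB1 Cut.none Ext.none :=
  certB0 (fam := false) (s1 := true) (s2 := false) (a := 0) (b := 1) (c := 1) (cn := .pnn) (n1 := ndB1q0) (n2 := ndB6q1) (pc := pcB1) (cut := Cut.none) (xt := Ext.none) (P1 := 0) (W1 := 536870912) (P2 := 536870912) (W2 := 536870912) (P3 := 697932185) (W3 := 42949674) (N0 := 3) (En := eng) (mo := mog) (C1 := cd1q0) (C2 := cd6q1) (C3 := pd1)
    rfl k0_pm_011

noncomputable def f_pm_012 : ℕ → ℕ → ℕ → ℕ → Bool := onCell 0 536870912 1073741824 536870912 697932185 42949674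
    (rowB 3 eng mog cd1q0 cd6q2 pd1 0 false true false .pnp 0 1 2 (qsf 0 536870912 1073741824 536870912 1) ndB1q0 ndB6q2 pcB1 Cut.none Ext.none)

def k0_pm_012 : ∃ t, chk3 f_pm_012 t 1 1 1 = true :=
  ⟨(l 4), by decide +kernel⟩

theorem c_pm_012 : CertB 0 536870912 1073741824 536870912 697932185 42949674 3 eng mog cd1q0 cd6q2 pd1 false true false .pnp 0 1 2
    ndB1q0 ndB6q2 pcB1 Cut.none Ext.none :=
  certB0 (fam := false) (s1 := true) (s2 := false) (a := 0) (b := 1) (c := 2) (cn := .pnp) (n1 := ndB1q0) (n2 := ndB6q2) (pc := pcB1) (cut := Cut.none) (xt := Ext.none) (P1 := 0) (W1 := 536870912) (P2 := 1073741824) (W2 := 536870912) (P3 := 697932185) (W3 := 42949674) (N0 := 3) (En := eng) (mo := mog) (C1 := cd1q0) (C2 := cd6q2) (C3 := pd1)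
    rfl k0_pm_012

noncomputable def f_pm_022 : ℕ → ℕ → ℕ → ℕ → Bool := onCell 0 536870912 1073741824 536870912 697932185 42949674
    (rowB 3 eng mog cd1q0 cd6q2 pd2 0 false true false .pp 0 2 2 (qsf 0 536870912 1073741824 536870912 2) ndB1q0 ndB6q2 pcB2 Cut.none Ext.none)

def k0_pm_022 : ∃ t, chk3 f_pm_022 t 1 1 1 = true :=
  ⟨(l 4), by decide +kernel⟩

theorem c_pm_022 : CertB 0 536870912 1073741824 536870912 697932185 42949674 3 eng mog cd1q0 cd6q2 pd2 false true false .pp 0 2 2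
    ndB1q0 ndB6q2 pcB2 Cut.none Ext.none :=
  certB0 (fam := false) (s1 := true) (s2 := false) (a := 0) (b := 2) (c := 2) (cn := .pp) (n1 := ndB1q0) (n2 := ndB6q2) (pc := pcB2) (cut := Cut.none) (xt := Ext.none) (P1 := 0) (W1 := 536870912) (P2 := 1073741824) (W2 := 536870912) (P3 := 697932185) (W3 := 42949674) (N0 := 3) (En := eng) (mo := mog) (C1 := cd1q0) (C2 := cd6q2) (C3 := pd2)
    rfl k0_pm_022

noncomputable def f_pm_023 : ℕ → ℕ → ℕ → ℕ → Bool := onCell 0 536870912 0 1230186008 697932185 42949674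
    (rowB 3 eng mog cd1q0 cd6q3 pd2 0 false true false .up 0 2 3 (qsf 0 536870912 0 1230186008 2) ndB1q0 ndB6q3 pcB2 Cut.none Ext.none)

def k0_pm_023 : ∃ t, chk3 f_pm_023 t 1 1 1 = true :=
  ⟨(a (b (l 2) (l 4)) (b (a (l 2) (b (a (l 2) (a (l 2) (l 16597984))) (a (l 4) (b (l 16535624) (l 4))))) (l 4))), by decide +kernel⟩

theorem c_pm_023 : CertB 0 536870912 0 1230186008 697932185 42949674 3 eng mog cd1q0 cd6q3 pd2 false true false .up 0 2 3
    ndB1q0 ndB6q3 pcB2 Cut.none Ext.none :=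
  certB0 (fam := false) (s1 := true) (s2 := false) (a := 0) (b := 2) (c := 3) (cn := .up) (n1 := ndB1q0) (n2 := ndB6q3) (pc := pcB2) (cut := Cut.none) (xt := Ext.none) (P1 := 0) (W1 := 536870912) (P2 := 0) (W2 := 1230186008) (P3 := 697932185) (W3 := 42949674) (N0 := 3) (En := eng) (mo := mog) (C1 := cd1q0) (C2 := cd6q3) (C3 := pd2)
    rfl k0_pm_023

noncomputable def f_pm_033 : ℕ → ℕ → ℕ → ℕ → Bool := onCell 0 536870912 0 1230186008 697932185 42949674
    (rowB 3 eng mog cd1q0 cd6q3 pd3 0 false true false .pnn 0 3 3 (qsf 0 536870912 0 1230186008 3) ndB1q0 ndB6q3 pcB3 Cut.none Ext.none)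

def k0_pm_033 : ∃ t, chk3 f_pm_033 t 1 1 1 = true :=
  ⟨(a (b (l 4) (l 4)) (b (a (b (a (l 4) (l 16542008)) (l 4)) (b (a (l 16585200) (l 16843960)) (b (a (l 4) (l 16535776)) (l 4)))) (l 4))), by decide +kernel⟩

theorem c_pm_033 : CertB 0 536870912 0 1230186008 697932185 42949674 3 eng mog cd1q0 cd6q3 pd3 false true false .pnn 0 3 3
    ndB1q0 ndB6q3 pcB3 Cut.none Ext.none :=
  certB0 (fam := false) (s1 := true) (s2 := false) (a := 0) (b := 3) (c := 3) (cn := .pnn) (n1 := ndB1q0) (n2 := ndB6q3) (pc := pcB3) (cut := Cut.none) (xt := Ext.none) (P1 := 0) (W1 := 536870912) (P2 := 0) (W2 := 1230186008) (P3 := 697932185) (W3 := 42949674) (N0 := 3) (En := eng) (mo := mog) (C1 := cd1q0) (C2 := cd6q3) (C3 := pd3)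
    rfl k0_pm_033

noncomputable def f_pm_101 : ℕ → ℕ → ℕ → ℕ → Bool := onCell 536870912 536870912 536870912 536870912 697932185 42949674
    (rowB 3 eng mog cd1q1 cd6q1 pd0 0 false true false .npn 1 0 1 (qsf 536870912 536870912 536870912 536870912 0) ndB1q1 ndB6q1 pcB0 Cut.none Ext.none)

def k0_pm_101 : ∃ t, chk3 f_pm_101 t 1 1 1 = true :=
  ⟨(l 4), by decide +kernel⟩

theorem c_pm_101 : CertB 536870912 536870912 536870912 536870912 697932185 42949674 3 eng mog cd1q1 cd6q1 pd0 false true false .npn 1 0 1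
    ndB1q1 ndB6q1 pcB0 Cut.none Ext.none :=
  certB0 (fam := false) (s1 := true) (s2 := false) (a := 1) (b := 0) (c := 1) (cn := .npn) (n1 := ndB1q1) (n2 := ndB6q1) (pc := pcB0) (cut := Cut.none) (xt := Ext.none) (P1 := 536870912) (W1 := 536870912) (P2 := 536870912) (W2 := 536870912) (P3 := 697932185) (W3 := 42949674) (N0 := 3) (En := eng) (mo := mog) (C1 := cd1q1) (C2 := cd6q1) (C3 := pd0)
    rfl k0_pm_101

noncomputable def f_pm_102 : ℕ → ℕ → ℕ → ℕ → Bool := onCell 536870912 536870912 0 536870912 697932185 42949674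
    (rowB 3 eng mog cd1q1 cd6q2 pd0 1 false true false .npp 1 0 2 (qsf 536870912 536870912 1073741824 536870912 0) ndB1q1 ndB6q2 pcB0 Cut.none Ext.none)

def k0_pm_102 : ∃ t, chk3 f_pm_102 t 1 1 1 = true :=
  ⟨(a (l 4) (a (b (l 4) (b (l 4) (b (l 4) (a (l 4) (l 16132440))))) (b (b (a (l 4) (b (a (b (l 4) (l 15710000)) (b (a (l 15710872) (l 15759736)) (l 15783712))) (a (b (l 15746016) (l 15785480)) (b (l 15835800) (l 15888904))))) (b (a (l 4) (b (a (l 15829184) (l 15943072)) (a (l 15876072) (l 15998848)))) (a (b (l 15793680) (l 15828544)) (b (a (l 15928080) (l 16065000)) (l 16076896))))) (b (b (a (a (l 4) (l 15984368)) (l 16185448)) (a (b (l 16047088) (l 16128008)) (a (l 16268032) (b (l 16323888) (l 16379528))))) (b (a (l 16240064) (a (l 16395944) (l 16449640))) (a (l 16377784) (a (l 16497152) (l 16532592)))))))), by decide +kernel⟩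

theorem c_pm_102 : CertB 536870912 536870912 1073741824 536870912 697932185 42949674 3 eng mog cd1q1 cd6q2 pd0 false true false .npp 1 0 2
    ndB1q1 ndB6q2 pcB0 Cut.none Ext.none :=
  certB1 (fam := false) (s1 := true) (s2 := false) (a := 1) (b := 0) (c := 2) (cn := .npp) (n1 := ndB1q1) (n2 := ndB6q2) (pc := pcB0) (cut := Cut.none) (xt := Ext.none) (P1 := 536870912) (W1 := 536870912) (P2 := 1073741824) (W2 := 536870912) (P3 := 697932185) (W3 := 42949674) (N0 := 3) (En := eng) (mo := mog) (C1 := cd1q1) (C2 := cd6q2) (C3 := pd0)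
    rfl (fun _ => rfl) k0_pm_102

noncomputable def f_pm_112 : ℕ → ℕ → ℕ → ℕ → Bool := onCell 536870912 536870912 1073741824 536870912 697932185 42949674
    (rowB 3 eng mog cd1q1 cd6q2 pd1 2 false true false .dn 1 1 2 (qsf 536870912 536870912 1073741824 536870912 1) ndB1q1 ndB6q2 pcB1 Cut.none Ext.none)

def k0_pm_112 : ∃ t, chk3 f_pm_112 t 1 1 1 = true :=
  ⟨(a (b (l 4) (a (b (a (l 36204044887) (l 4)) (a (b (l 16387352) (l 16576224)) (l 16397424))) (b (l 4) (a (l 16243440) (l 4))))) (l 4)), by decide +kernel⟩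

theorem c_pm_112 : CertB 536870912 536870912 1073741824 536870912 697932185 42949674 3 eng mog cd1q1 cd6q2 pd1 false true false .dn 1 1 2
    ndB1q1 ndB6q2 pcB1 Cut.none Ext.none :=
  certB2 (fam := false) (s1 := true) (s2 := false) (a := 1) (b := 1) (c := 2) (cn := .dn) (n1 := ndB1q1) (n2 := ndB6q2) (pc := pcB1) (cut := Cut.none) (xt := Ext.none) (P1 := 536870912) (W1 := 536870912) (P2 := 1073741824) (W2 := 536870912) (P3 := 697932185) (W3 := 42949674) (N0 := 3) (En := eng) (mo := mog) (C1 := cd1q1) (C2 := cd6q2) (C3 := pd1)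
    rfl (fun _ => rfl) k0_pm_112

noncomputable def f_pm_113 : ℕ → ℕ → ℕ → ℕ → Bool := onCell 536870912 536870912 0 1230186008 697932185 42949674
    (rowB 3 eng mog cd1q1 cd6q3 pd1 0 false true false .nn 1 1 3 (qsf 536870912 536870912 0 1230186008 1) ndB1q1 ndB6q3 pcB1 Cut.none Ext.none)

def k0_pm_113 : ∃ t, chk3 f_pm_113 t 1 1 1 = true :=
  ⟨(b (a (l 2) (a (l 2) (b (a (l 2) (a (l 2) (b (b (l 16790672) (l 16748112)) (l 16750456)))) (b (a (l 16643232) (l 16731792)) (a (b (l 16637200) (l 16627536)) (l 16737536)))))) (b (a (a (l 2) (b (l 2) (a (l 2) (b (l 2) (l 261018895175))))) (a (b (a (l 2) (l 16442872)) (a (b (l 16239392) (l 16221520)) (a (l 16363216) (l 16465784)))) (b (a (b (l 16614016) (l 16599136)) (b (l 16738280) (l 16737944))) (a (l 16593016) (a (l 16657008) (l 16596352)))))) (a (b (a (l 2) (a (l 4) (b (l 16015448) (l 16078840)))) (l 4)) (b (a (a (b (l 16222488) (b (l 16240832) (l 16259496))) (b (l 16424584) (l 16440368))) (a (b (l 16603568)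 (l 16649096)) (a (l 16745920) (l 16888312)))) (a (b (a (l 16297584) (b (l 16470248) (l 16501528))) (a (l 16338760) (l 16546960))) (b (a (l 16683896) (l 16914184)) (a (l 16718168) (l 16745776)))))))), by decide +kernel⟩

theorem c_pm_113 : CertB 536870912 536870912 0 1230186008 697932185 42949674 3 eng mog cd1q1 cd6q3 pd1 false true false .nn 1 1 3
    ndB1q1 ndB6q3 pcB1 Cut.none Ext.none :=
  certB0 (fam := false) (s1 := true) (s2 := false) (a := 1) (b := 1) (c := 3) (cn := .nn) (n1 := ndB1q1) (n2 := ndB6q3) (pc := pcB1) (cut := Cut.none) (xt := Ext.none) (P1 := 536870912) (W1 := 536870912) (P2 := 0) (W2 := 1230186008) (P3 := 697932185) (W3 := 42949674) (N0 := 3) (En := eng) (mo := mog) (C1 := cd1q1) (C2 := cd6q3) (C3 := pd1)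
    rfl k0_pm_113

noncomputable def f_pm_123 : ℕ → ℕ → ℕ → ℕ → Bool := onCell 1073741824 536870912 0 1230186008 697932185 42949674
    (rowB 3 eng mog cd1q1 cd6q3 pd2 2 false true false .npn 1 2 3 (qsf 536870912 536870912 0 1230186008 2) ndB1q1 ndB6q3 pcB2 Cut.none Ext.none)

def k0_pm_123 : ∃ t, chk3 f_pm_123 t 1 1 1 = true :=
  ⟨(a (b (a (b (a (b (l 16716224) (l 16679192)) (b (l 16620400) (l 16573720))) (b (a (l 16639072) (l 16518016)) (a (b (l 16589408) (l 16536992)) (a (l 16457984) (l 16398344))))) (b (a (b (a (a (l 16554152) (l 16531464)) (l 16506120)) (l 16483232)) (b (l 16525728) (l 16480400))) (b (a (a (l 16439608) (l 16407360)) (l 16426880)) (a (l 16344952) (l 16350888))))) (b (a (b (a (a (l 16432744) (l 16354768)) (l 16342184)) (a (a (l 16192264) (l 16143728)) (a (l 16114608) (l 16101624)))) (a (b (a (l 16236568) (l 16229160)) (a (l 16101912) (l 16111984))) (b (l 16248528) (l 4)))) (a (b (a (a (l 15943880) (l 15925224)) (l 4)) (l 4)) (l 4))))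 (b (a (a (b (b (l 16550288) (l 16505928)) (b (l 16453832) (l 16382472))) (b (l 16562832) (a (l 16447376) (l 16468848)))) (a (b (l 16605264) (l 16774488)) (b (l 16613432) (l 16592920)))) (b (a (b (a (l 16296296) (l 4)) (l 4)) (l 4)) (l 1)))), by decide +kernel⟩

theorem c_pm_123 : CertB 536870912 536870912 0 1230186008 697932185 42949674 3 eng mog cd1q1 cd6q3 pd2 false true false .npn 1 2 3
    ndB1q1 ndB6q3 pcB2 Cut.none Ext.none :=
  certB2 (fam := false) (s1 := true) (s2 := false) (a := 1) (b := 2) (c := 3) (cn := .npn) (n1 := ndB1q1) (n2 := ndB6q3) (pc := pcB2) (cut := Cut.none) (xt := Ext.none) (P1 := 536870912) (W1 := 536870912) (P2 := 0) (W2 := 1230186008) (P3 := 697932185) (W3 := 42949674) (N0 := 3) (En := eng) (mo := mog) (C1 := cd1q1) (C2 := cd6q3) (C3 := pd2)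
    rfl (fun _ => rfl) k0_pm_123

noncomputable def f_pm_133 : ℕ → ℕ → ℕ → ℕ → Bool := onCell 1610612736 536870912 0 1230186008 697932185 42949674
    (rowB 3 eng mog cd1q1 cd6q3 pd3 2 false true false .dn 1 3 3 (qsf 536870912 536870912 0 1230186008 3) ndB1q1 ndB6q3 pcB3 Cut.none Ext.none)

def k0_pm_133 : ∃ t, chk3 f_pm_133 t 1 1 1 = true :=
  ⟨(b (a (a (a (l 16730464) (l 1)) (l 1)) (l 1)) (l 1)), by decide +kernel⟩

theorem c_pm_133 : CertB 536870912 536870912 0 1230186008 697932185 42949674 3 eng mog cd1q1 cd6q3 pd3 false true false .dn 1 3 3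
    ndB1q1 ndB6q3 pcB3 Cut.none Ext.none :=
  certB2 (fam := false) (s1 := true) (s2 := false) (a := 1) (b := 3) (c := 3) (cn := .dn) (n1 := ndB1q1) (n2 := ndB6q3) (pc := pcB3) (cut := Cut.none) (xt := Ext.none) (P1 := 536870912) (W1 := 536870912) (P2 := 0) (W2 := 1230186008) (P3 := 697932185) (W3 := 42949674) (N0 := 3) (En := eng) (mo := mog) (C1 := cd1q1) (C2 := cd6q3) (C3 := pd3)
    rfl (fun _ => rfl) k0_pm_133

noncomputable def f_pm_202_a : ℕ → ℕ → ℕ → ℕ → Bool := onCell 0 536870912 0 536870912 697932185 42949674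
    (rowB 3 eng mog cd1q2a cd6q2 pd0 1 false true false .pp 2 0 2 (qsf 0 536870912 1073741824 536870912 0) ndB1q2a ndB6q2 pcB0 Cut.none Ext.none)

def k0_pm_202_a : ∃ t, chk3 f_pm_202_a t 2 4 1 = true :=
  ⟨(a (b (b (a (b (a (l 16416264) (l 16408840)) (a (l 16424376) (l 16416248))) (b (a (l 16402288) (l 16396536)) (a (l 16428880) (b (l 16396504) (l 16402048))))) (a (b (a (l 16439136) (l 16431976)) (a (b (l 16448352) (a (l 16454800) (l 16452176))) (l 16445248))) (b (a (l 16424168) (l 16415400)) (l 16456416)))) (a (b (a (a (b (b (l 16459784) (l 16464440)) (b (l 16469056) (l 16473536))) (b (b (l 16456672) (l 16461392)) (b (l 16465784) (l 16470064)))) (b (b (l 16453424) (a (l 16458832) (l 16456936))) (a (b (l 16463032) (l 16467144)) (b (l 16460976) (l 16464744))))) (a (b (a (l 16478424) (l 16476416)) (a (l 16482456) (l 16481256))) (b (a (l 16473128) (l 16470664)) (a (l 16480656) (l 16477944))))) (b (b (a (l 16451008) (l 16445208)) (a (l 16460624) (l 16456680)))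 (a (b (a (b (l 16466552) (l 16470272)) (b (l 16465496) (l 16468504))) (a (l 16475688) (l 16473848))) (b (l 16465736) (a (l 16472272) (l 16472224))))))) (b (b (a (b (a (a (b (l 16392816) (l 16392672)) (b (l 16390176) (l 16389872))) (l 16383440)) (a (l 16413488) (a (b (l 16471008) (l 16387072)) (b (l 16382568) (l 16405136))))) (b (a (l 16370968) (l 16352360)) (a (l 16374200) (l 16355960)))) (a (b (a (l 16405744) (b (a (l 16392528) (l 16428560)) (l 16398976))) (l 16418256)) (a (b (a (b (l 16381096) (l 16388280)) (l 16375640)) (a (l 16402840) (b (l 16388832) (l 16398592)))) (b (l 16360128) (b (l 16368112) (l 16379520)))))) (a (b (b (l 16434360) (l 16448488)) (b (l 16460552) (c (l 16473848) (l 16468088)))) (b (a (l 16425512) (b (a (l 16401936) (l 16389512)) (l 16434976))) (a (l 16454984) (l 16438896)))))), by decide +kernel⟩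

def k1_pm_202_a : ∃ t, chk3 f_pm_202_a t 2 5 1 = true :=
  ⟨(a (b (a (b (a (b (a (l 16488760) (l 16485664)) (a (l 16496424) (l 16492040))) (b (a (l 16484640) (l 16484248)) (l 16530080))) (a (b (a (l 16506736) (l 16501360)) (a (b (l 16514648) (l 16519192)) (l 16512904))) (b (a (l 16497160) (l 16495096)) (l 16507776)))) (b (a (b (a (l 16482376) (l 16480400)) (l 16487832)) (b (a (l 16478624) (l 16477784)) (l 16484320))) (a (b (l 16493896) (l 16503704)) (b (c (l 16491616) (l 16491344)) (l 16501160))))) (a (b (a (b (a (l 16526128) (l 16510792)) (a (l 16536464) (l 16531800))) (b (l 16518416) (l 16527952))) (a (b (a (l 16548912) (l 16543912)) (l 112910322727)) (b (l 16538096) (l 16570384)))) (b (a (b (l 16513136) (l 16523528)) (l 16515584)) (a (b (l 16534520) (l 16544920)) (l 16574096))))) (b (b (a (a (b (a (l 16477544) (l 16478008)) (c (l 16463864) (l 16482808))) (b (l 16477208) (l 16483944))) (b (l 16466152) (l 16476440))) (a (b (a (l 16489936) (l 16468624))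 (a (l 16499016) (l 16498712))) (b (l 16485248) (a (l 16496944) (l 16488944))))) (a (b (a (b (l 16509232) (l 16519824)) (b (l 16508400) (l 16518912))) (a (l 16532120) (l 16533368))) (b (a (b (l 16505816) (l 16517048)) (b (l 16497632) (l 16507272))) (a (l 16532432) (l 16525432)))))), by decide +kernel⟩

def k2_pm_202_a : ∃ t, chk3 f_pm_202_a t 2 3 1 = true :=
  ⟨(b (a (b (a (b (a (b (l 116131591927) (l 146733258167)) (b (a (l 16562992) (l 16559296)) (a (l 16573568) (l 16570528)))) (a (a (l 3) (l 152638881367)) (a (l 98951804599) (l 16586336)))) (a (b (b (l 16555448) (l 16564592)) (b (l 16574920) (a (l 16588344) (l 16584624)))) (b (l 16555144) (l 16575032)))) (a (a (l 3) (a (b (l 16633208) (l 3)) (b (l 144585844551) (l 260549977431)))) (b (a (a (l 16602456) (l 16598616)) (b (l 16589208) (l 16638352))) (a (a (l 212164520983) (l 16633848)) (a (l 16672664) (l 16606616)))))) (b (a (b (a (l 16546472) (l 16548136)) (l 16624536)) (b (a (l 16549584) (l 16545104))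 (a (l 16563216) (l 16559784)))) (a (b (a (l 16586600) (l 16574608)) (a (l 16602552) (l 16592112))) (b (a (l 16573168) (l 16572544)) (l 16574240))))) (a (l 2) (b (a (l 2) (b (l 1118939584647) (l 2))) (l 2)))), by decide +kernel⟩

def k3_pm_202_a : ∃ t, chk3 f_pm_202_a t 6 1 1 = true :=
  ⟨(b (b (b (b (a (b (a (l 16328752) (l 16299848)) (a (l 16332520) (l 16303592))) (a (b (l 16265608) (l 16269160)) (b (a (b (a (l 16240208) (l 16230136)) (l 16236448)) (b (l 16211760) (l 16363064))) (a (l 16239536) (b (a (l 16223136) (l 16213128)) (l 16219520)))))) (a (b (a (l 16336592) (l 16307816)) (a (b (l 16340160) (l 16346528)) (l 16312472))) (a (b (l 16273392) (l 16278256)) (b (l 16233984) (l 16239040))))) (a (b (b (a (l 16363584) (b (l 16318944) (l 16328592))) (a (l 16450736) (l 16347712))) (a (b (a (l 16413640) (l 16400104)) (l 16423560)) (b (l 16371656) (l 16394016)))) (b (a (b (l 16284376) (l 16363312)) (b (l 16244864) (a (l 16262960) (l 16241624)))) (a (b (l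 16325768) (l 16350472)) (b (l 16313952) (l 16298944)))))) (b (a (b (a (l 16445952) (b (l 16411040) (l 16426528))) (l 16456784)) (b (b (l 16349808) (a (l 16393392) (l 16347808))) (b (a (l 16405288) (l 16364408)) (l 16544352)))) (a (b (l 16476584) (a (l 16509800) (l 16486728))) (b (a (l 16433160) (l 16395192)) (l 16438944))))) (b (b (b (a (a (l 16533512) (l 16512720)) (l 16466968)) (a (b (l 16540512) (l 16549352)) (b (l 16488896) (l 16502048)))) (a (a (l 16571248) (l 16557224)) (b (b (l 16513456) (l 16522200)) (b (l 16529168) (l 16538416))))) (b (b (a (l 16585224) (l 16551480)) (l 439797640631)) (l 2)))), by decide +kernel⟩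

def k4_pm_202_a : ∃ t, chk3 f_pm_202_a t 7 4 1 = true :=
  ⟨(b (a (b (a (b (b (l 16170904) (l 16174768)) (a (b (l 16192704) (l 16197776)) (l 16166472))) (b (b (l 16114360) (l 16118496)) (l 16125168))) (a (b (a (b (a (l 16206048) (l 16194800)) (l 16202456)) (l 16175784)) (a (l 16207792) (a (l 16210736) (l 16220944)))) (b (l 16135024) (l 16145768)))) (b (a (b (b (a (l 16068944) (l 16037776)) (l 16058000)) (a (l 16080568) (l 16050464))) (b (a (b (b (l 16004512) (l 16006904)) (l 16010824)) (a (b (b (l 15979144) (l 15981904)) (l 15986696)) (b (c (a (b (l 16015888) (l 16019800)) (l 16011552)) (l 15913008)) (l 15971984)))) (a (l 16020224) (a (l 15998088) (l 15985656))))) (a (b (l 16077376) (l 16090320)) (a (b (l 16034712) (l 16050472)) (b (l 16009448) (l 16027952)))))) (a (b (a (b (a (l 16214000) (l 16190696)) (l 16210384)) (b (a (a (b (l 16174152) (l 16177600)) (l 16164312)) (l 16144128)) (a (b (l 16176136) (l 16181264)) (b (l 16153560) (l 16160960)))))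 (a (b (a (l 16231872) (l 16207888)) (a (l 16256408) (l 16226448))) (b (a (l 16188448) (a (l 16173024) (b (l 16161104) (l 16166152)))) (a (l 16201304) (l 16179864))))) (b (a (b (l 16104160) (l 16118744)) (b (a (l 16067040) (l 16046856)) (l 16116320))) (a (b (l 16155360) (a (a (l 16185688) (l 16155584)) (l 16139072))) (b (l 16092976) (l 16111960)))))), by decide +kernel⟩

def k5_pm_202_a : ∃ t, chk3 f_pm_202_a t 7 5 1 = true :=
  ⟨(b (a (a (b (b (l 16270152) (l 16296776)) (l 16324600)) (b (b (a (l 16227328) (l 16199816)) (l 16243352)) (l 16276360))) (b (a (b (a (b (l 16169224) (l 16179968)) (a (b (l 16157088) (l 16164592)) (l 16151496))) (a (l 16202320) (b (a (l 16174808) (l 16165760)) (l 16246888)))) (b (l 16131344) (a (b (l 16152856) (l 16164360)) (l 16145992)))) (a (b (l 16217736) (l 16238576)) (b (a (b (a (l 16183664) (l 16172256)) (l 16190512)) (b (l 16161568) (l 16171840))) (a (l 16207472) (a (l 16196072) (l 16188016))))))) (a (b (a (l 16355672)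 (l 16310968)) (l 16552088)) (b (a (l 16268552) (b (a (l 16230960) (l 16216472)) (l 16245664))) (l 16417216)))), by decide +kernel⟩

def k6_pm_202_a : ∃ t, chk3 f_pm_202_a t 7 3 1 = true :=
  ⟨(b (b (b (a (l 16454888) (l 16331512)) (a (b (l 16418896) (l 16440264)) (b (a (l 16372624) (l 16353304)) (a (l 16398888) (l 16379728))))) (b (a (l 16462936) (b (l 16406672) (l 16423696))) (a (b (l 16482752) (l 16493280)) (b (l 16442408) (l 16458248))))) (b (a (b (l 16510808) (l 16534368)) (b (l 16480288) (l 16508736))) (a (b (l 16555488) (l 2)) (l 16556160)))), by decide +kernel⟩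

theorem s7_pm_202_a : ∃ t, chk3 f_pm_202_a t 7 2 1 = true := ex3_b k4_pm_202_a k5_pm_202_a

theorem s8_pm_202_a : ∃ t, chk3 f_pm_202_a t 7 1 1 = true := ex3_b s7_pm_202_a k6_pm_202_a

theorem s9_pm_202_a : ∃ t, chk3 f_pm_202_a t 3 1 1 = true := ex3_a k3_pm_202_a s8_pm_202_a

theorem s10_pm_202_a : ∃ t, chk3 f_pm_202_a t 2 2 1 = true := ex3_b k0_pm_202_a k1_pm_202_a

theorem s11_pm_202_a : ∃ t, chk3 f_pm_202_a t 2 1 1 = true := ex3_b s10_pm_202_a k2_pm_202_a

theorem s12_pm_202_a : ∃ t, chk3 f_pm_202_a t 1 1 1 = true := ex3_a s11_pm_202_a s9_pm_202_a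

theorem c_pm_202_a : CertB 0 536870912 1073741824 536870912 697932185 42949674 3 eng mog cd1q2a cd6q2 pd0 false true false .pp 2 0 2
    ndB1q2a ndB6q2 pcB0 Cut.none Ext.none :=
  certB1 (fam := false) (s1 := true) (s2 := false) (a := 2) (b := 0) (c := 2) (cn := .pp) (n1 := ndB1q2a) (n2 := ndB6q2) (pc := pcB0) (cut := Cut.none) (xt := Ext.none) (P1 := 0) (W1 := 536870912) (P2 := 1073741824) (W2 := 536870912) (P3 := 697932185) (W3 := 42949674) (N0 := 3) (En := eng) (mo := mog) (C1 := cd1q2a) (C2 := cd6q2) (C3 := pd0)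
    rfl (fun _ => rfl) s12_pm_202_a

noncomputable def f_pm_202_b : ℕ → ℕ → ℕ → ℕ → Bool := onCell 1239849684 370763052 0 536870912 697932185 42949674
    (rowB 3 eng mog cd1q2b cd6q2 pd0 1 false true false .pp 2 0 2 (qsf 1239849684 370763052 1073741824 536870912 0) ndB1q2b ndB6q2 pcB0 Cut.none Ext.none)

def k0_pm_202_b : ∃ t, chk3 f_pm_202_b t 1 2 1 = true :=
  ⟨(b (a (b (a (b (b (a (a (b (l 16466296) (l 16450024)) (l 16381744)) (l 16327048)) (a (a (a (l 16423408) (l 16412248)) (l 16392312)) (l 16314496))) (a (a (b (a (l 16436576) (l 16423168)) (b (l 16478880) (l 16441776))) (b (l 16390096) (l 16471608))) (b (a (l 16336856) (l 16287128)) (a (l 16405712) (b (l 16299488) (l 16300808)))))) (b (a (b (l 16218312) (a (l 16237800) (l 16194240))) (b (a (l 16146024) (l 16231304)) (a (l 16197032) (l 16128392)))) (a (a (b (l 16242176) (l 16261112)) (b (l 16210136) (l 16223704))) (a (b (l 16176824) (l 16197288)) (l 16161552))))) (a (a (a (b (b (b (l 16444416)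 (l 16447312)) (l 16450904)) (b (l 16455592) (l 16462736))) (b (b (l 16470304) (l 16422552)) (b (l 16412576) (l 16421240)))) (b (a (b (b (l 16350344) (l 16354784)) (l 16424568)) (b (l 16333568) (b (l 16319032) (l 16323152)))) (a (b (l 16369536) (c (l 16451544) (l 16375856))) (b (l 16354504) (l 16348992))))) (a (a (b (b (l 16292904) (a (l 16294352) (l 16277952))) (l 64054769591)) (b (b (l 16243064) (l 16258536)) (l 3))) (l 3)))) (b (a (b (a (b (l 54927592679) (l 3)) (l 3)) (l 3)) (l 3)) (l 3))) (a (a (a (b (b (a (b (l 16470504) (a (l 16489960) (l 16472040))) (b (a (l 16442440) (l 16423928)) (a (l 16454024) (l 16434696)))) (a (b (a (l 16500496) (l 16482696)) (a (l 16510176) (l 16491752))) (b (a (l 16463440) (l 16445176)) (l 16543808)))) (b (b (a (l 16532736) (l 16482936)) (a (l 16525240) (l 3))) (b (a (l 16539152) (l 3)) (l 3)))) (b (b (a (b (a (l 16405208) (l 16386120)) (l 16411256)) (b (l 16366680) (l 3))) (b (a (l 16427520) (l 3)) (l 3))) (l 3))) (l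 3)) (l 3))), by decide +kernel⟩

def k1_pm_202_b : ∃ t, chk3 f_pm_202_b t 1 3 1 = true :=
  ⟨(b (a (b (l 3) (l 3)) (l 2)) (l 2)), by decide +kernel⟩

theorem s2_pm_202_b : ∃ t, chk3 f_pm_202_b t 1 1 1 = true := ex3_b k0_pm_202_b k1_pm_202_b

theorem c_pm_202_b : CertB 1239849684 370763052 1073741824 536870912 697932185 42949674 3 eng mog cd1q2b cd6q2 pd0 false true false .pp 2 0 2
    ndB1q2b ndB6q2 pcB0 Cut.none Ext.none :=
  certB1 (fam := false) (s1 := true) (s2 := false) (a := 2) (b := 0) (c := 2) (cn := .pp) (n1 := ndB1q2b) (n2 := ndB6q2) (pc := pcB0) (cut := Cut.none) (xt := Ext.none) (P1 := 1239849684) (W1 := 370763052) (P2 := 1073741824) (W2 := 536870912) (P3 := 697932185) (W3 := 42949674) (N0 := 3) (En := eng) (mo := mog) (C1 := cd1q2b) (C2 := cd6q2) (C3 := pd0)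
    rfl (fun _ => rfl) s2_pm_202_b

noncomputable def f_pm_203_a : ℕ → ℕ → ℕ → ℕ → Bool := onCell 0 536870912 0 1230186008 697932185 42949674
    (rowB 3 eng mog cd1q2a cd6q3 pd0 0 false true false .up 2 0 3 (qsf 0 536870912 0 1230186008 0) ndB1q2a ndB6q3 pcB0 Cut.none Ext.none)

def k0_pm_203_a : ∃ t, chk3 f_pm_203_a t 1 1 1 = true :=
  ⟨(b (l 2) (b (l 2) (a (b (a (l 3) (b (l 2) (b (l 2) (a (a (l 151565231815) (l 16677584)) (a (a (l 16683840) (l 2)) (l 2)))))) (b (a (a (l 3) (a (l 3) (a (b (l 3) (l 16630208)) (b (l 16637760) (l 16619088))))) (a (b (a (b (l 16650496) (l 16638728)) (a (l 16656568) (l 16660696))) (a (b (l 16627936) (l 16617832)) (b (l 16642280) (l 16632280)))) (a (l 16658648) (l 16663056)))) (a (a (b (l 3) (a (l 3) (l 3))) (a (b (a (l 3) (l 164987008103)) (b (l 170892506599) (a (l 16617232) (l 16614040)))) (b (b (l 16624888) (l 16622560)) (a (b (l 16619304) (l 16611376)) (l 16591600))))) (a (a (b (b (l 16605232) (l 16609256)) (a (l 16609296)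 (l 16605248))) (b (l 16612776) (l 16595064))) (b (a (l 16624800) (l 16626160)) (l 16589688)))))) (b (l 2) (a (b (a (b (l 16673440) (l 16647440)) (l 16659688)) (a (l 16609408) (l 16594808))) (b (a (l 16681144) (l 2)) (a (l 16586232) (l 16623248)))))))), by decide +kernel⟩

theorem c_pm_203_a : CertB 0 536870912 0 1230186008 697932185 42949674 3 eng mog cd1q2a cd6q3 pd0 false true false .up 2 0 3
    ndB1q2a ndB6q3 pcB0 Cut.none Ext.none :=
  certB0 (fam := false) (s1 := true) (s2 := false) (a := 2) (b := 0) (c := 3) (cn := .up) (n1 := ndB1q2a) (n2 := ndB6q3) (pc := pcB0) (cut := Cut.none) (xt := Ext.none) (P1 := 0) (W1 := 536870912) (P2 := 0) (W2 := 1230186008) (P3 := 697932185) (W3 := 42949674) (N0 := 3) (En := eng) (mo := mog) (C1 := cd1q2a) (C2 := cd6q3) (C3 := pd0)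
    rfl k0_pm_203_a

noncomputable def f_pm_203_b : ℕ → ℕ → ℕ → ℕ → Bool := onCell 1239849684 370763052 0 1230186008 697932185 42949674
    (rowB 3 eng mog cd1q2b cd6q3 pd0 0 false true false .up 2 0 3 (qsf 1239849684 370763052 0 1230186008 0) ndB1q2b ndB6q3 pcB0 Cut.none Ext.none)

def k0_pm_203_b : ∃ t, chk3 f_pm_203_b t 1 1 1 = true :=
  ⟨(b (l 3) (b (l 3) (a (l 3) (l 3)))), by decide +kernel⟩

theorem c_pm_203_b : CertB 1239849684 370763052 0 1230186008 697932185 42949674 3 eng mog cd1q2b cd6q3 pd0 false true false .up 2 0 3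
    ndB1q2b ndB6q3 pcB0 Cut.none Ext.none :=
  certB0 (fam := false) (s1 := true) (s2 := false) (a := 2) (b := 0) (c := 3) (cn := .up) (n1 := ndB1q2b) (n2 := ndB6q3) (pc := pcB0) (cut := Cut.none) (xt := Ext.none) (P1 := 1239849684) (W1 := 370763052) (P2 := 0) (W2 := 1230186008) (P3 := 697932185) (W3 := 42949674) (N0 := 3) (En := eng) (mo := mog) (C1 := cd1q2b) (C2 := cd6q3) (C3 := pd0)
    rfl k0_pm_203_b

noncomputable def cut_pm_213_a : Cut := Cut.of [[⟨0, 1, 0, 67108864⟩, ⟨1, 1, 0, 67108864⟩, ⟨2, 2, 0, 16777216⟩]]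

noncomputable def f_pm_213_a : ℕ → ℕ → ℕ → ℕ → Bool := onCell 0 536870912 0 1230186008 697932185 42949674
    (rowB 3 eng mog cd1q2a cd6q3 pd1 0 false true false .pnn 2 1 3 (qsf 0 536870912 0 1230186008 1) ndB1q2a ndB6q3 pcB1 cut_pm_213_a Ext.none)

def k0_pm_213_a : ∃ t, chk3 f_pm_213_a t 1 2 1 = true :=
  ⟨(a (l 3) (b (a (l 3) (a (b (l 3) (a (l 3) (b (a (l 3) (l 6)) (a (b (a (l 3) (l 336248982423)) (a (l 327659057351) (b (l 248739022391) (l 16790176)))) (b (a (b (l 326585304839) (l 237464735031)) (b (l 16784696) (l 16785520))) (a (l 16788320) (l 16787368))))))) (b (l 6) (a (b (a (l 6) (l 6)) (a (b (l 16783960) (l 16786216)) (l 16782304))) (b (a (l 6) (l 6)) (a (l 16778832) (l 16775168))))))) (a (b (a (l 3) (b (l 3) (a (l 3) (a (l 3) (b (l 318532229351) (a (b (l 3) (l 246591527399)) (b (l 250886498039) (l 16799392)))))))) (a (b (l 3) (a (l 3) (b (l 3) (a (l 3) (l 238538456887))))) (b (a (b (l 3) (a (l 3) (l 241222823815))) (b (a (a (l 265918902615)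 (l 237464709479)) (b (l 218674234823) (l 16805888))) (a (b (l 16777936) (l 16803600)) (l 16814104)))) (a (b (a (l 231559162887) (b (l 16775960) (l 16800272))) (a (b (l 149417870295) (l 135459225719)) (l 16785888))) (b (l 16776936) (l 16830312)))))) (b (a (b (a (a (b (l 3) (a (l 3) (l 299204906599))) (b (a (l 334101509367) (l 294373068167)) (a (l 279340679927) (l 16802336)))) (a (b (a (l 237464735911) (l 16793024)) (l 16798784)) (l 16793616))) (a (a (b (b (l 262160781639) (l 228874788951)) (a (l 16782080) (l 16808424))) (b (l 16807864) (l 16816280))) (b (l 16803392) (l 16809392)))) (b (a (a (l 16791808) (l 16787736)) (l 16781672)) (a (l 16798496) (l 16788384)))) (a (b (a (a (b (l 16815272) (l 16826952)) (l 16827560)) (b (l 16815848) (l 16822480))) (a (b (l 16840808) (l 16850344)) (l 16831592))) (b (l 16801704) (l 16813904))))))), by decide +kernel⟩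

def k1_pm_213_a : ∃ t, chk3 f_pm_213_a t 1 3 1 = true :=
  ⟨(b (a (b (l 3) (a (l 3) (a (l 3) (b (a (l 3) (b (l 313700445703) (l 168745210135))) (a (b (l 268603238887) (l 193978120359)) (b (l 16797624) (l 16786240))))))) (b (a (a (b (a (l 3) (b (a (l 3) (b (l 148344125831) (l 16775856))) (a (a (l 156934071399) (l 103783842007)) (l 16791760)))) (a (b (b (l 183240805575) (l 170355908487)) (a (l 295446847959) (l 16800912))) (b (b (l 89288367799) (l 16812856)) (l 16843920)))) (b (a (b (a (l 16763680) (l 16820312)) (l 16834880)) (b (l 16908336) (l 16863800))) (a (b (a (l 16850528) (l 16866744)) (l 16874096)) (a (l 16882304) (l 16877736))))) (a (b (a (l 16860736) (l 16845864)) (l 16866968)) (b (l 16823544) (a (l 16826216) (l 16832680))))) (a (b (a (a (b (l 16802224) (l 16828984)) (b (l 16857864) (l 16864816))) (a (a (l 16884288) (l 16903448)) (l 16902336))) (a (a (b (l 16837848) (l 16813520)) (a (l 16853968) (l 16877968))) (l 16933320))) (a (b (l 16889440)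 (l 16931496)) (b (l 16867560) (l 16898968)))))) (b (a (a (l 3) (b (a (a (l 3) (b (l 191293758487) (l 16716976))) (a (b (l 16747512) (l 16729576)) (b (l 16766624) (l 16743160)))) (a (b (a (l 174650688823) (l 16699496)) (a (l 151028296567) (l 16688200))) (a (b (l 16715448) (a (l 16699160) (l 16703232))) (b (l 16723360) (l 16707536)))))) (a (b (a (a (b (l 16784816) (l 16759144)) (l 16795080)) (l 16850560)) (a (a (l 16722784) (l 16733480)) (a (l 16744696) (l 16769400)))) (b (a (l 16974840) (l 16944392)) (b (l 16977216) (l 16883056))))) (a (b (a (l 1) (a (l 1) (a (l 16686544) (l 16687920)))) (l 1)) (a (b (a (b (l 16692376) (l 16671136)) (l 16681752)) (l 1)) (b (a (l 16714272) (l 16815008)) (a (l 16613616) (l 16653256))))))), by decide +kernel⟩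

theorem s2_pm_213_a : ∃ t, chk3 f_pm_213_a t 1 1 1 = true := ex3_b k0_pm_213_a k1_pm_213_a

theorem c_pm_213_a : CertB 0 536870912 0 1230186008 697932185 42949674 3 eng mog cd1q2a cd6q3 pd1 false true false .pnn 2 1 3
    ndB1q2a ndB6q3 pcB1 cut_pm_213_a Ext.none :=
  certB0 (fam := false) (s1 := true) (s2 := false) (a := 2) (b := 1) (c := 3) (cn := .pnn) (n1 := ndB1q2a) (n2 := ndB6q3) (pc := pcB1) (cut := cut_pm_213_a) (xt := Ext.none) (P1 := 0) (W1 := 536870912) (P2 := 0) (W2 := 1230186008) (P3 := 697932185) (W3 := 42949674) (N0 := 3) (En := eng) (mo := mog) (C1 := cd1q2a) (C2 := cd6q3) (C3 := pd1)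
    rfl s2_pm_213_a

noncomputable def cut_pm_213_b : Cut := Cut.of [[⟨0, 1, 0, 67108864⟩, ⟨1, 1, 0, 67108864⟩, ⟨2, 2, 0, 16777216⟩]]

noncomputable def f_pm_213_b : ℕ → ℕ → ℕ → ℕ → Bool := onCell 1239849684 370763052 0 1230186008 697932185 42949674
    (rowB 3 eng mog cd1q2b cd6q3 pd1 0 false true false .pnn 2 1 3 (qsf 1239849684 370763052 0 1230186008 1) ndB1q2b ndB6q3 pcB1 cut_pm_213_b Ext.none)

def k0_pm_213_b : ∃ t, chk3 f_pm_213_b t 1 1 1 = true :=
  ⟨(b (l 3) (b (l 3) (a (l 3) (l 1)))), by decide +kernel⟩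

theorem c_pm_213_b : CertB 1239849684 370763052 0 1230186008 697932185 42949674 3 eng mog cd1q2b cd6q3 pd1 false true false .pnn 2 1 3
    ndB1q2b ndB6q3 pcB1 cut_pm_213_b Ext.none :=
  certB0 (fam := false) (s1 := true) (s2 := false) (a := 2) (b := 1) (c := 3) (cn := .pnn) (n1 := ndB1q2b) (n2 := ndB6q3) (pc := pcB1) (cut := cut_pm_213_b) (xt := Ext.none) (P1 := 1239849684) (W1 := 370763052) (P2 := 0) (W2 := 1230186008) (P3 := 697932185) (W3 := 42949674) (N0 := 3) (En := eng) (mo := mog) (C1 := cd1q2b) (C2 := cd6q3) (C3 := pd1)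
    rfl k0_pm_213_b

noncomputable def f_pm_303 : ℕ → ℕ → ℕ → ℕ → Bool := onCell 1610612736 536870912 0 1230186008 697932185 42949674
    (rowB 3 eng mog cd1q3 cd6q3 pd0 0 false true false .npn 3 0 3 (qsf 1610612736 536870912 0 1230186008 0) ndB1q3 ndB6q3 pcB0 Cut.none Ext.none)

def k0_pm_303 : ∃ t, chk3 f_pm_303 t 1 1 1 = true :=
  ⟨(b (l 3) (b (l 3) (l 3))), by decide +kernel⟩

theorem c_pm_303 : CertB 1610612736 536870912 0 1230186008 697932185 42949674 3 eng mog cd1q3 cd6q3 pd0 false true false .npn 3 0 3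
    ndB1q3 ndB6q3 pcB0 Cut.none Ext.none :=
  certB0 (fam := false) (s1 := true) (s2 := false) (a := 3) (b := 0) (c := 3) (cn := .npn) (n1 := ndB1q3) (n2 := ndB6q3) (pc := pcB0) (cut := Cut.none) (xt := Ext.none) (P1 := 1610612736) (W1 := 536870912) (P2 := 0) (W2 := 1230186008) (P3 := 697932185) (W3 := 42949674) (N0 := 3) (En := eng) (mo := mog) (C1 := cd1q3) (C2 := cd6q3) (C3 := pd0)
    rfl k0_pm_303

noncomputable def f_pm_313 : ℕ → ℕ → ℕ → ℕ → Bool := onCell 1610612736 536870912 0 1230186008 697932185 42949674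
    (rowB 3 eng mog cd1q3 cd6q3 pd1 0 false true false .dn 3 1 3 (qsf 1610612736 536870912 0 1230186008 1) ndB1q3 ndB6q3 pcB1 Cut.none Ext.none)

def k0_pm_313 : ∃ t, chk3 f_pm_313 t 1 1 1 = true :=
  ⟨(b (l 3) (l 1)), by decide +kernel⟩

theorem c_pm_313 : CertB 1610612736 536870912 0 1230186008 697932185 42949674 3 eng mog cd1q3 cd6q3 pd1 false true false .dn 3 1 3
    ndB1q3 ndB6q3 pcB1 Cut.none Ext.none :=
  certB0 (fam := false) (s1 := true) (s2 := false) (a := 3) (b := 1) (c := 3) (cn := .dn) (n1 := ndB1q3) (n2 := ndB6q3) (pc := pcB1) (cut := Cut.none) (xt := Ext.none) (P1 := 1610612736) (W1 := 536870912) (P2 := 0) (W2 := 1230186008) (P3 := 697932185) (W3 := 42949674) (N0 := 3) (En := eng) (mo := mog) (C1 := cd1q3) (C2 := cd6q3) (C3 := pd1)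
    rfl k0_pm_313

noncomputable def f_mm_001 : ℕ → ℕ → ℕ → ℕ → Bool := onCell 0 536870912 0 536870912 697932185 42949674
    (rowB 3 eng mog cd1q0 cd6q1 pd0 1 false false false .up 0 0 1 (qsf 0 536870912 536870912 536870912 0) ndB1q0 ndB6q1 pcB0 Cut.none Ext.none)

def k0_mm_001 : ∃ t, chk3 f_mm_001 t 1 1 1 = true :=
  ⟨(l 3), by decide +kernel⟩

theorem c_mm_001 : CertB 0 536870912 536870912 536870912 697932185 42949674 3 eng mog cd1q0 cd6q1 pd0 false false false .up 0 0 1
    ndB1q0 ndB6q1 pcB0 Cut.none Ext.none :=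
  certB1 (fam := false) (s1 := false) (s2 := false) (a := 0) (b := 0) (c := 1) (cn := .up) (n1 := ndB1q0) (n2 := ndB6q1) (pc := pcB0) (cut := Cut.none) (xt := Ext.none) (P1 := 0) (W1 := 536870912) (P2 := 536870912) (W2 := 536870912) (P3 := 697932185) (W3 := 42949674) (N0 := 3) (En := eng) (mo := mog) (C1 := cd1q0) (C2 := cd6q1) (C3 := pd0)
    rfl (fun _ => rfl) k0_mm_001

noncomputable def f_mm_011 : ℕ → ℕ → ℕ → ℕ → Bool := onCell 0 536870912 536870912 536870912 697932185 42949674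
    (rowB 3 eng mog cd1q0 cd6q1 pd1 1 false false false .pnn 0 1 1 (qsf 0 536870912 536870912 536870912 1) ndB1q0 ndB6q1 pcB1 Cut.none Ext.none)

def k0_mm_011 : ∃ t, chk3 f_mm_011 t 1 1 1 = true :=
  ⟨(l 5), by decide +kernel⟩

theorem c_mm_011 : CertB 0 536870912 536870912 536870912 697932185 42949674 3 eng mog cd1q0 cd6q1 pd1 false false false .pnn 0 1 1
    ndB1q0 ndB6q1 pcB1 Cut.none Ext.none :=
  certB1 (fam := false) (s1 := false) (s2 := false) (a := 0) (b := 1) (c := 1) (cn := .pnn) (n1 := ndB1q0) (n2 := ndB6q1) (pc := pcB1) (cut := Cut.none) (xt := Ext.none) (P1 := 0) (W1 := 536870912) (P2 := 536870912) (W2 := 536870912) (P3 := 697932185) (W3 := 42949674) (N0 := 3) (En := eng) (mo := mog) (C1 := cd1q0) (C2 := cd6q1) (C3 := pd1)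
    rfl (fun _ => rfl) k0_mm_011

noncomputable def f_mm_012 : ℕ → ℕ → ℕ → ℕ → Bool := onCell 0 536870912 1073741824 536870912 697932185 42949674
    (rowB 3 eng mog cd1q0 cd6q2 pd1 0 false false false .pnp 0 1 2 (qsf 0 536870912 1073741824 536870912 1) ndB1q0 ndB6q2 pcB1 Cut.none Ext.none)

def k0_mm_012 : ∃ t, chk3 f_mm_012 t 1 1 1 = true :=
  ⟨(l 5), by decide +kernel⟩

theorem c_mm_012 : CertB 0 536870912 1073741824 536870912 697932185 42949674 3 eng mog cd1q0 cd6q2 pd1 false false false .pnp 0 1 2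
    ndB1q0 ndB6q2 pcB1 Cut.none Ext.none :=
  certB0 (fam := false) (s1 := false) (s2 := false) (a := 0) (b := 1) (c := 2) (cn := .pnp) (n1 := ndB1q0) (n2 := ndB6q2) (pc := pcB1) (cut := Cut.none) (xt := Ext.none) (P1 := 0) (W1 := 536870912) (P2 := 1073741824) (W2 := 536870912) (P3 := 697932185) (W3 := 42949674) (N0 := 3) (En := eng) (mo := mog) (C1 := cd1q0) (C2 := cd6q2) (C3 := pd1)
    rfl k0_mm_012

noncomputable def f_mm_022 : ℕ → ℕ → ℕ → ℕ → Bool := onCell 0 536870912 1073741824 536870912 697932185 42949674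
    (rowB 3 eng mog cd1q0 cd6q2 pd2 0 false false false .pp 0 2 2 (qsf 0 536870912 1073741824 536870912 2) ndB1q0 ndB6q2 pcB2 Cut.none Ext.none)

def k0_mm_022 : ∃ t, chk3 f_mm_022 t 1 1 1 = true :=
  ⟨(l 5), by decide +kernel⟩

theorem c_mm_022 : CertB 0 536870912 1073741824 536870912 697932185 42949674 3 eng mog cd1q0 cd6q2 pd2 false false false .pp 0 2 2
    ndB1q0 ndB6q2 pcB2 Cut.none Ext.none :=
  certB0 (fam := false) (s1 := false) (s2 := false) (a := 0) (b := 2) (c := 2) (cn := .pp) (n1 := ndB1q0) (n2 := ndB6q2) (pc := pcB2) (cut := Cut.none) (xt := Ext.none) (P1 := 0) (W1 := 536870912) (P2 := 1073741824) (W2 := 536870912) (P3 := 697932185) (W3 := 42949674) (N0 := 3) (En := eng) (mo := mog) (C1 := cd1q0) (C2 := cd6q2) (C3 := pd2)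
    rfl k0_mm_022

noncomputable def f_mm_023 : ℕ → ℕ → ℕ → ℕ → Bool := onCell 0 536870912 0 1230186008 697932185 42949674
    (rowB 3 eng mog cd1q0 cd6q3 pd2 0 false false false .up 0 2 3 (qsf 0 536870912 0 1230186008 2) ndB1q0 ndB6q3 pcB2 Cut.none Ext.none)

def k0_mm_023 : ∃ t, chk3 f_mm_023 t 1 1 1 = true :=
  ⟨(l 5), by decide +kernel⟩

theorem c_mm_023 : CertB 0 536870912 0 1230186008 697932185 42949674 3 eng mog cd1q0 cd6q3 pd2 false false false .up 0 2 3
    ndB1q0 ndB6q3 pcB2 Cut.none Ext.none :=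
  certB0 (fam := false) (s1 := false) (s2 := false) (a := 0) (b := 2) (c := 3) (cn := .up) (n1 := ndB1q0) (n2 := ndB6q3) (pc := pcB2) (cut := Cut.none) (xt := Ext.none) (P1 := 0) (W1 := 536870912) (P2 := 0) (W2 := 1230186008) (P3 := 697932185) (W3 := 42949674) (N0 := 3) (En := eng) (mo := mog) (C1 := cd1q0) (C2 := cd6q3) (C3 := pd2)
    rfl k0_mm_023

noncomputable def f_mm_033 : ℕ → ℕ → ℕ → ℕ → Bool := onCell 0 536870912 0 1230186008 697932185 42949674
    (rowB 3 eng mog cd1q0 cd6q3 pd3 0 false false false .pnn 0 3 3 (qsf 0 536870912 0 1230186008 3) ndB1q0 ndB6q3 pcB3 Cut.none Ext.none)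

def k0_mm_033 : ∃ t, chk3 f_mm_033 t 1 1 1 = true :=
  ⟨(l 5), by decide +kernel⟩

theorem c_mm_033 : CertB 0 536870912 0 1230186008 697932185 42949674 3 eng mog cd1q0 cd6q3 pd3 false false false .pnn 0 3 3
    ndB1q0 ndB6q3 pcB3 Cut.none Ext.none :=
  certB0 (fam := false) (s1 := false) (s2 := false) (a := 0) (b := 3) (c := 3) (cn := .pnn) (n1 := ndB1q0) (n2 := ndB6q3) (pc := pcB3) (cut := Cut.none) (xt := Ext.none) (P1 := 0) (W1 := 536870912) (P2 := 0) (W2 := 1230186008) (P3 := 697932185) (W3 := 42949674) (N0 := 3) (En := eng) (mo := mog) (C1 := cd1q0) (C2 := cd6q3) (C3 := pd3)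
    rfl k0_mm_033

noncomputable def f_mm_101 : ℕ → ℕ → ℕ → ℕ → Bool := onCell 536870912 536870912 0 536870912 697932185 42949674
    (rowB 3 eng mog cd1q1 cd6q1 pd0 1 false false false .npn 1 0 1 (qsf 536870912 536870912 536870912 536870912 0) ndB1q1 ndB6q1 pcB0 Cut.none Ext.none)

def k0_mm_101 : ∃ t, chk3 f_mm_101 t 1 1 1 = true :=
  ⟨(l 3), by decide +kernel⟩

theorem c_mm_101 : CertB 536870912 536870912 536870912 536870912 697932185 42949674 3 eng mog cd1q1 cd6q1 pd0 false false false .npn 1 0 1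
    ndB1q1 ndB6q1 pcB0 Cut.none Ext.none :=
  certB1 (fam := false) (s1 := false) (s2 := false) (a := 1) (b := 0) (c := 1) (cn := .npn) (n1 := ndB1q1) (n2 := ndB6q1) (pc := pcB0) (cut := Cut.none) (xt := Ext.none) (P1 := 536870912) (W1 := 536870912) (P2 := 536870912) (W2 := 536870912) (P3 := 697932185) (W3 := 42949674) (N0 := 3) (En := eng) (mo := mog) (C1 := cd1q1) (C2 := cd6q1) (C3 := pd0)
    rfl (fun _ => rfl) k0_mm_101

noncomputable def f_mm_102 : ℕ → ℕ → ℕ → ℕ → Bool := onCell 536870912 536870912 1073741824 536870912 697932185 42949674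
    (rowB 3 eng mog cd1q1 cd6q2 pd0 0 false false false .npp 1 0 2 (qsf 536870912 536870912 1073741824 536870912 0) ndB1q1 ndB6q2 pcB0 Cut.none Ext.none)

def k0_mm_102 : ∃ t, chk3 f_mm_102 t 1 1 1 = true :=
  ⟨(l 3), by decide +kernel⟩

theorem c_mm_102 : CertB 536870912 536870912 1073741824 536870912 697932185 42949674 3 eng mog cd1q1 cd6q2 pd0 false false false .npp 1 0 2
    ndB1q1 ndB6q2 pcB0 Cut.none Ext.none :=
  certB0 (fam := false) (s1 := false) (s2 := false) (a := 1) (b := 0) (c := 2) (cn := .npp) (n1 := ndB1q1) (n2 := ndB6q2) (pc := pcB0) (cut := Cut.none) (xt := Ext.none) (P1 := 536870912) (W1 := 536870912) (P2 := 1073741824) (W2 := 536870912) (P3 := 697932185) (W3 := 42949674) (N0 := 3) (En := eng) (mo := mog) (C1 := cd1q1) (C2 := cd6q2) (C3 := pd0)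
    rfl k0_mm_102

noncomputable def f_mm_112 : ℕ → ℕ → ℕ → ℕ → Bool := onCell 536870912 536870912 1073741824 536870912 697932185 42949674
    (rowB 3 eng mog cd1q1 cd6q2 pd1 0 false false false .dn 1 1 2 (qsf 536870912 536870912 1073741824 536870912 1) ndB1q1 ndB6q2 pcB1 Cut.none Ext.none)

def k0_mm_112 : ∃ t, chk3 f_mm_112 t 1 1 1 = true :=
  ⟨(l 3), by decide +kernel⟩

theorem c_mm_112 : CertB 536870912 536870912 1073741824 536870912 697932185 42949674 3 eng mog cd1q1 cd6q2 pd1 false false false .dn 1 1 2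
    ndB1q1 ndB6q2 pcB1 Cut.none Ext.none :=
  certB0 (fam := false) (s1 := false) (s2 := false) (a := 1) (b := 1) (c := 2) (cn := .dn) (n1 := ndB1q1) (n2 := ndB6q2) (pc := pcB1) (cut := Cut.none) (xt := Ext.none) (P1 := 536870912) (W1 := 536870912) (P2 := 1073741824) (W2 := 536870912) (P3 := 697932185) (W3 := 42949674) (N0 := 3) (En := eng) (mo := mog) (C1 := cd1q1) (C2 := cd6q2) (C3 := pd1)
    rfl k0_mm_112

noncomputable def f_mm_113 : ℕ → ℕ → ℕ → ℕ → Bool := onCell 536870912 536870912 0 1230186008 697932185 42949674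
    (rowB 3 eng mog cd1q1 cd6q3 pd1 0 false false false .nn 1 1 3 (qsf 536870912 536870912 0 1230186008 1) ndB1q1 ndB6q3 pcB1 Cut.none Ext.none)

def k0_mm_113 : ∃ t, chk3 f_mm_113 t 1 1 1 = true :=
  ⟨(b (l 5) (b (l 5) (a (l 5) (l 3)))), by decide +kernel⟩

theorem c_mm_113 : CertB 536870912 536870912 0 1230186008 697932185 42949674 3 eng mog cd1q1 cd6q3 pd1 false false false .nn 1 1 3
    ndB1q1 ndB6q3 pcB1 Cut.none Ext.none :=
  certB0 (fam := false) (s1 := false) (s2 := false) (a := 1) (b := 1) (c := 3) (cn := .nn) (n1 := ndB1q1) (n2 := ndB6q3) (pc := pcB1) (cut := Cut.none) (xt := Ext.none) (P1 := 536870912) (W1 := 536870912) (P2 := 0) (W2 := 1230186008) (P3 := 697932185) (W3 := 42949674) (N0 := 3) (En := eng) (mo := mog) (C1 := cd1q1) (C2 := cd6q3) (C3 := pd1)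
    rfl k0_mm_113

noncomputable def f_mm_123 : ℕ → ℕ → ℕ → ℕ → Bool := onCell 1073741824 536870912 0 1230186008 697932185 42949674
    (rowB 3 eng mog cd1q1 cd6q3 pd2 2 false false false .npn 1 2 3 (qsf 536870912 536870912 0 1230186008 2) ndB1q1 ndB6q3 pcB2 Cut.none Ext.none)

def k0_mm_123 : ∃ t, chk3 f_mm_123 t 1 1 1 = true :=
  ⟨(b (l 5) (l 5)), by decide +kernel⟩

theorem c_mm_123 : CertB 536870912 536870912 0 1230186008 697932185 42949674 3 eng mog cd1q1 cd6q3 pd2 false false false .npn 1 2 3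
    ndB1q1 ndB6q3 pcB2 Cut.none Ext.none :=
  certB2 (fam := false) (s1 := false) (s2 := false) (a := 1) (b := 2) (c := 3) (cn := .npn) (n1 := ndB1q1) (n2 := ndB6q3) (pc := pcB2) (cut := Cut.none) (xt := Ext.none) (P1 := 536870912) (W1 := 536870912) (P2 := 0) (W2 := 1230186008) (P3 := 697932185) (W3 := 42949674) (N0 := 3) (En := eng) (mo := mog) (C1 := cd1q1) (C2 := cd6q3) (C3 := pd2)
    rfl (fun _ => rfl) k0_mm_123

noncomputable def f_mm_133 : ℕ → ℕ → ℕ → ℕ → Bool := onCell 536870912 536870912 0 1230186008 697932185 42949674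
    (rowB 3 eng mog cd1q1 cd6q3 pd3 0 false false false .dn 1 3 3 (qsf 536870912 536870912 0 1230186008 3) ndB1q1 ndB6q3 pcB3 Cut.none Ext.none)

def k0_mm_133 : ∃ t, chk3 f_mm_133 t 1 1 1 = true :=
  ⟨(b (l 5) (l 1)), by decide +kernel⟩

theorem c_mm_133 : CertB 536870912 536870912 0 1230186008 697932185 42949674 3 eng mog cd1q1 cd6q3 pd3 false false false .dn 1 3 3
    ndB1q1 ndB6q3 pcB3 Cut.none Ext.none :=
  certB0 (fam := false) (s1 := false) (s2 := false) (a := 1) (b := 3) (c := 3) (cn := .dn) (n1 := ndB1q1) (n2 := ndB6q3) (pc := pcB3) (cut := Cut.none) (xt := Ext.none) (P1 := 536870912) (W1 := 536870912) (P2 := 0) (W2 := 1230186008) (P3 := 697932185) (W3 := 42949674) (N0 := 3) (En := eng) (mo := mog) (C1 := cd1q1) (C2 := cd6q3) (C3 := pd3)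
    rfl k0_mm_133

noncomputable def f_mm_202_a : ℕ → ℕ → ℕ → ℕ → Bool := onCell 0 536870912 0 536870912 697932185 42949674
    (rowB 3 eng mog cd1q2a cd6q2 pd0 1 false false false .pp 2 0 2 (qsf 0 536870912 1073741824 536870912 0) ndB1q2a ndB6q2 pcB0 Cut.none Ext.none)

def k0_mm_202_a : ∃ t, chk3 f_mm_202_a t 1 1 1 = true :=
  ⟨(a (b (b (l 3) (l 3)) (l 3)) (l 3)), by decide +kernel⟩

theorem c_mm_202_a : CertB 0 536870912 1073741824 536870912 697932185 42949674 3 eng mog cd1q2a cd6q2 pd0 false false false .pp 2 0 2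
    ndB1q2a ndB6q2 pcB0 Cut.none Ext.none :=
  certB1 (fam := false) (s1 := false) (s2 := false) (a := 2) (b := 0) (c := 2) (cn := .pp) (n1 := ndB1q2a) (n2 := ndB6q2) (pc := pcB0) (cut := Cut.none) (xt := Ext.none) (P1 := 0) (W1 := 536870912) (P2 := 1073741824) (W2 := 536870912) (P3 := 697932185) (W3 := 42949674) (N0 := 3) (En := eng) (mo := mog) (C1 := cd1q2a) (C2 := cd6q2) (C3 := pd0)
    rfl (fun _ => rfl) k0_mm_202_a

noncomputable def f_mm_202_b : ℕ → ℕ → ℕ → ℕ → Bool := onCell 1239849684 370763052 0 536870912 697932185 42949674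
    (rowB 3 eng mog cd1q2b cd6q2 pd0 1 false false false .pp 2 0 2 (qsf 1239849684 370763052 1073741824 536870912 0) ndB1q2b ndB6q2 pcB0 Cut.none Ext.none)

def k0_mm_202_b : ∃ t, chk3 f_mm_202_b t 1 1 1 = true :=
  ⟨(b (b (a (b (a (l 3) (l 3)) (l 3)) (l 3)) (l 3)) (b (l 3) (l 2))), by decide +kernel⟩

theorem c_mm_202_b : CertB 1239849684 370763052 1073741824 536870912 697932185 42949674 3 eng mog cd1q2b cd6q2 pd0 false false false .pp 2 0 2
    ndB1q2b ndB6q2 pcB0 Cut.none Ext.none :=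
  certB1 (fam := false) (s1 := false) (s2 := false) (a := 2) (b := 0) (c := 2) (cn := .pp) (n1 := ndB1q2b) (n2 := ndB6q2) (pc := pcB0) (cut := Cut.none) (xt := Ext.none) (P1 := 1239849684) (W1 := 370763052) (P2 := 1073741824) (W2 := 536870912) (P3 := 697932185) (W3 := 42949674) (N0 := 3) (En := eng) (mo := mog) (C1 := cd1q2b) (C2 := cd6q2) (C3 := pd0)
    rfl (fun _ => rfl) k0_mm_202_b

noncomputable def f_mm_203_a : ℕ → ℕ → ℕ → ℕ → Bool := onCell 0 536870912 0 1230186008 697932185 42949674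
    (rowB 3 eng mog cd1q2a cd6q3 pd0 0 false false false .up 2 0 3 (qsf 0 536870912 0 1230186008 0) ndB1q2a ndB6q3 pcB0 Cut.none Ext.none)

def k0_mm_203_a : ∃ t, chk3 f_mm_203_a t 1 1 1 = true :=
  ⟨(b (l 2) (l 3)), by decide +kernel⟩

theorem c_mm_203_a : CertB 0 536870912 0 1230186008 697932185 42949674 3 eng mog cd1q2a cd6q3 pd0 false false false .up 2 0 3
    ndB1q2a ndB6q3 pcB0 Cut.none Ext.none :=
  certB0 (fam := false) (s1 := false) (s2 := false) (a := 2) (b := 0) (c := 3) (cn := .up) (n1 := ndB1q2a) (n2 := ndB6q3) (pc := pcB0) (cut := Cut.none) (xt := Ext.none) (P1 := 0) (W1 := 536870912) (P2 := 0) (W2 := 1230186008) (P3 := 697932185) (W3 := 42949674) (N0 := 3) (En := eng) (mo := mog) (C1 := cd1q2a) (C2 := cd6q3) (C3 := pd0)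
    rfl k0_mm_203_a

noncomputable def f_mm_203_b : ℕ → ℕ → ℕ → ℕ → Bool := onCell 1239849684 370763052 0 1230186008 697932185 42949674
    (rowB 3 eng mog cd1q2b cd6q3 pd0 0 false false false .up 2 0 3 (qsf 1239849684 370763052 0 1230186008 0) ndB1q2b ndB6q3 pcB0 Cut.none Ext.none)

def k0_mm_203_b : ∃ t, chk3 f_mm_203_b t 1 1 1 = true :=
  ⟨(b (l 3) (l 3)), by decide +kernel⟩

theorem c_mm_203_b : CertB 1239849684 370763052 0 1230186008 697932185 42949674 3 eng mog cd1q2b cd6q3 pd0 false false false .up 2 0 3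
    ndB1q2b ndB6q3 pcB0 Cut.none Ext.none :=
  certB0 (fam := false) (s1 := false) (s2 := false) (a := 2) (b := 0) (c := 3) (cn := .up) (n1 := ndB1q2b) (n2 := ndB6q3) (pc := pcB0) (cut := Cut.none) (xt := Ext.none) (P1 := 1239849684) (W1 := 370763052) (P2 := 0) (W2 := 1230186008) (P3 := 697932185) (W3 := 42949674) (N0 := 3) (En := eng) (mo := mog) (C1 := cd1q2b) (C2 := cd6q3) (C3 := pd0)
    rfl k0_mm_203_b

noncomputable def f_mm_213_a : ℕ → ℕ → ℕ → ℕ → Bool := onCell 0 536870912 0 1230186008 697932185 42949674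
    (rowB 3 eng mog cd1q2a cd6q3 pd1 0 false false false .pnn 2 1 3 (qsf 0 536870912 0 1230186008 1) ndB1q2a ndB6q3 pcB1 Cut.none Ext.none)

def k0_mm_213_a : ∃ t, chk3 f_mm_213_a t 1 1 1 = true :=
  ⟨(b (a (l 3) (l 5)) (l 3)), by decide +kernel⟩

theorem c_mm_213_a : CertB 0 536870912 0 1230186008 697932185 42949674 3 eng mog cd1q2a cd6q3 pd1 false false false .pnn 2 1 3
    ndB1q2a ndB6q3 pcB1 Cut.none Ext.none :=
  certB0 (fam := false) (s1 := false) (s2 := false) (a := 2) (b := 1) (c := 3) (cn := .pnn) (n1 := ndB1q2a) (n2 := ndB6q3) (pc := pcB1) (cut := Cut.none) (xt := Ext.none) (P1 := 0) (W1 := 536870912) (P2 := 0) (W2 := 1230186008) (P3 := 697932185) (W3 := 42949674) (N0 := 3) (En := eng) (mo := mog) (C1 := cd1q2a) (C2 := cd6q3) (C3 := pd1)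
    rfl k0_mm_213_a

noncomputable def f_mm_213_b : ℕ → ℕ → ℕ → ℕ → Bool := onCell 1239849684 370763052 0 1230186008 697932185 42949674
    (rowB 3 eng mog cd1q2b cd6q3 pd1 0 false false false .pnn 2 1 3 (qsf 1239849684 370763052 0 1230186008 1) ndB1q2b ndB6q3 pcB1 Cut.none Ext.none)

def k0_mm_213_b : ∃ t, chk3 f_mm_213_b t 1 1 1 = true :=
  ⟨(b (l 3) (l 3)), by decide +kernel⟩

theorem c_mm_213_b : CertB 1239849684 370763052 0 1230186008 697932185 42949674 3 eng mog cd1q2b cd6q3 pd1 false false false .pnn 2 1 3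
    ndB1q2b ndB6q3 pcB1 Cut.none Ext.none :=
  certB0 (fam := false) (s1 := false) (s2 := false) (a := 2) (b := 1) (c := 3) (cn := .pnn) (n1 := ndB1q2b) (n2 := ndB6q3) (pc := pcB1) (cut := Cut.none) (xt := Ext.none) (P1 := 1239849684) (W1 := 370763052) (P2 := 0) (W2 := 1230186008) (P3 := 697932185) (W3 := 42949674) (N0 := 3) (En := eng) (mo := mog) (C1 := cd1q2b) (C2 := cd6q3) (C3 := pd1)
    rfl k0_mm_213_b

noncomputable def f_mm_303 : ℕ → ℕ → ℕ → ℕ → Bool := onCell 0 536870912 0 1230186008 697932185 42949674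
    (rowB 3 eng mog cd1q3 cd6q3 pd0 2 false false false .npn 3 0 3 (qsf 1610612736 536870912 0 1230186008 0) ndB1q3 ndB6q3 pcB0 Cut.none Ext.none)

def k0_mm_303 : ∃ t, chk3 f_mm_303 t 1 1 1 = true :=
  ⟨(b (l 3) (l 3)), by decide +kernel⟩

theorem c_mm_303 : CertB 1610612736 536870912 0 1230186008 697932185 42949674 3 eng mog cd1q3 cd6q3 pd0 false false false .npn 3 0 3
    ndB1q3 ndB6q3 pcB0 Cut.none Ext.none :=
  certB2 (fam := false) (s1 := false) (s2 := false) (a := 3) (b := 0) (c := 3) (cn := .npn) (n1 := ndB1q3) (n2 := ndB6q3) (pc := pcB0) (cut := Cut.none) (xt := Ext.none) (P1 := 1610612736) (W1 := 536870912) (P2 := 0) (W2 := 1230186008) (P3 := 697932185) (W3 := 42949674) (N0 := 3) (En := eng) (mo := mog) (C1 := cd1q3) (C2 := cd6q3) (C3 := pd0)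
    rfl (fun _ => rfl) k0_mm_303

noncomputable def f_mm_313 : ℕ → ℕ → ℕ → ℕ → Bool := onCell 1610612736 536870912 0 1230186008 697932185 42949674
    (rowB 3 eng mog cd1q3 cd6q3 pd1 0 false false false .dn 3 1 3 (qsf 1610612736 536870912 0 1230186008 1) ndB1q3 ndB6q3 pcB1 Cut.none Ext.none)

def k0_mm_313 : ∃ t, chk3 f_mm_313 t 1 1 1 = true :=
  ⟨(b (l 3) (l 1)), by decide +kernel⟩

theorem c_mm_313 : CertB 1610612736 536870912 0 1230186008 697932185 42949674 3 eng mog cd1q3 cd6q3 pd1 false false false .dn 3 1 3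
    ndB1q3 ndB6q3 pcB1 Cut.none Ext.none :=
  certB0 (fam := false) (s1 := false) (s2 := false) (a := 3) (b := 1) (c := 3) (cn := .dn) (n1 := ndB1q3) (n2 := ndB6q3) (pc := pcB1) (cut := Cut.none) (xt := Ext.none) (P1 := 1610612736) (W1 := 536870912) (P2 := 0) (W2 := 1230186008) (P3 := 697932185) (W3 := 42949674) (N0 := 3) (En := eng) (mo := mog) (C1 := cd1q3) (C2 := cd6q3) (C3 := pd1)
    rfl k0_mm_313

end Pool.Agent.Strip051.G.I6500_6900.Tab.C.BB16

namespace Pool.Agent.Strip051.G.I6500_6900.Tab.C.BB17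

open Pool.Agent.Strip051.PB Pool.Agent.Strip051.PB.T
open Pool.Agent.Strip051.G.I6500_6900.Tab

noncomputable def f_pp_001 : ℕ → ℕ → ℕ → ℕ → Bool := onCell 0 536870912 0 536870912 697932185 42949674
    (rowB 3 eng mog cd1q0 cd7q1 pd0 1 false true true .up 0 0 1 (qsf 0 536870912 536870912 536870912 0) ndB1q0 ndB7q1 pcB0 Cut.none Ext.none)

def k0_pp_001 : ∃ t, chk3 f_pp_001 t 1 1 1 = true :=
  ⟨(l 3), by decide +kernel⟩

theorem c_pp_001 : CertB 0 536870912 536870912 536870912 697932185 42949674 3 eng mog cd1q0 cd7q1 pd0 false true true .up 0 0 1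
    ndB1q0 ndB7q1 pcB0 Cut.none Ext.none :=
  certB1 (fam := false) (s1 := true) (s2 := true) (a := 0) (b := 0) (c := 1) (cn := .up) (n1 := ndB1q0) (n2 := ndB7q1) (pc := pcB0) (cut := Cut.none) (xt := Ext.none) (P1 := 0) (W1 := 536870912) (P2 := 536870912) (W2 := 536870912) (P3 := 697932185) (W3 := 42949674) (N0 := 3) (En := eng) (mo := mog) (C1 := cd1q0) (C2 := cd7q1) (C3 := pd0)
    rfl (fun _ => rfl) k0_pp_001

noncomputable def cut_pp_011 : Cut := Cut.of [[⟨0, 0, 0, 67108864⟩, ⟨1, 1, 0, 67108864⟩, ⟨2, 1, 0, 67108864⟩]]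

noncomputable def f_pp_011 : ℕ → ℕ → ℕ → ℕ → Bool := onCell 0 536870912 536870912 536870912 697932185 42949674
    (rowB 3 eng mog cd1q0 cd7q1 pd1 1 false true true .pnn 0 1 1 (qsf 0 536870912 536870912 536870912 1) ndB1q0 ndB7q1 pcB1 cut_pp_011 Ext.none)

def k0_pp_011 : ∃ t, chk3 f_pp_011 t 1 1 1 = true :=
  ⟨(b (l 3) (b (l 3) (a (b (l 3) (a (a (b (l 3) (a (l 6) (l 3))) (l 3)) (l 2))) (l 2)))), by decide +kernel⟩

theorem c_pp_011 : CertB 0 536870912 536870912 536870912 697932185 42949674 3 eng mog cd1q0 cd7q1 pd1 false true true .pnn 0 1 1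
    ndB1q0 ndB7q1 pcB1 cut_pp_011 Ext.none :=
  certB1 (fam := false) (s1 := true) (s2 := true) (a := 0) (b := 1) (c := 1) (cn := .pnn) (n1 := ndB1q0) (n2 := ndB7q1) (pc := pcB1) (cut := cut_pp_011) (xt := Ext.none) (P1 := 0) (W1 := 536870912) (P2 := 536870912) (W2 := 536870912) (P3 := 697932185) (W3 := 42949674) (N0 := 3) (En := eng) (mo := mog) (C1 := cd1q0) (C2 := cd7q1) (C3 := pd1)
    rfl (fun _ => rfl) k0_pp_011

noncomputable def cut_pp_012 : Cut := Cut.of [[⟨0, 0, 0, 67108864⟩, ⟨1, 1, 0, 67108864⟩, ⟨2, 1, 0, 67108864⟩]]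

noncomputable def f_pp_012 : ℕ → ℕ → ℕ → ℕ → Bool := onCell 0 536870912 536870912 536870912 697932185 42949674
    (rowB 3 eng mog cd1q0 cd7q2 pd1 1 false true true .pnp 0 1 2 (qsf 0 536870912 1073741824 536870912 1) ndB1q0 ndB7q2 pcB1 cut_pp_012 Ext.none)

def k0_pp_012 : ∃ t, chk3 f_pp_012 t 1 1 1 = true :=
  ⟨(b (l 3) (a (b (l 3) (b (l 3) (a (a (a (b (l 3) (l 6)) (l 3)) (l 3)) (l 3)))) (l 3))), by decide +kernel⟩

theorem c_pp_012 : CertB 0 536870912 1073741824 536870912 697932185 42949674 3 eng mog cd1q0 cd7q2 pd1 false true true .pnp 0 1 2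
    ndB1q0 ndB7q2 pcB1 cut_pp_012 Ext.none :=
  certB1 (fam := false) (s1 := true) (s2 := true) (a := 0) (b := 1) (c := 2) (cn := .pnp) (n1 := ndB1q0) (n2 := ndB7q2) (pc := pcB1) (cut := cut_pp_012) (xt := Ext.none) (P1 := 0) (W1 := 536870912) (P2 := 1073741824) (W2 := 536870912) (P3 := 697932185) (W3 := 42949674) (N0 := 3) (En := eng) (mo := mog) (C1 := cd1q0) (C2 := cd7q2) (C3 := pd1)
    rfl (fun _ => rfl) k0_pp_012

noncomputable def cut_pp_022 : Cut := Cut.of [[⟨0, 0, 0, 67108864⟩, ⟨1, 1, 0, 67108864⟩, ⟨2, 1, 0, 67108864⟩]]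

noncomputable def f_pp_022 : ℕ → ℕ → ℕ → ℕ → Bool := onCell 0 536870912 1073741824 536870912 697932185 42949674
    (rowB 3 eng mog cd1q0 cd7q2 pd2 1 false true true .pp 0 2 2 (qsf 0 536870912 1073741824 536870912 2) ndB1q0 ndB7q2 pcB2 cut_pp_022 Ext.none)

def k0_pp_022 : ∃ t, chk3 f_pp_022 t 2 8 1 = true :=
  ⟨(a (a (b (a (b (l 6) (a (l 6) (b (l 6) (a (l 6) (b (l 6) (l 16741888)))))) (b (l 3) (a (a (b (a (l 6) (b (l 3) (l 249275854087))) (b (a (l 16756376) (l 16762344)) (l 16753816))) (b (l 3) (b (l 146196635671) (b (l 16758984) (l 16755336))))) (b (l 3) (a (b (l 3) (l 154786567783)) (l 3)))))) (a (a (b (a (l 6) (b (l 6) (l 16697240))) (a (l 16672704) (b (l 16680480) (l 16663752)))) (b (b (a (l 16723272) (b (l 16733672) (l 16725416))) (a (l 16706712) (l 16713312))) (b (l 16694136) (l 16677576)))) (b (a (b (a (b (l 16740640) (l 16731952)) (b (l 16749016) (l 16739568))) (a (l 16719648) (l 16726352))) (b (b (a (l 16761120) (l 159081534183)) (a (l 16747816)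 (l 16754520))) (a (l 16734056) (b (l 16746704) (l 16737624))))) (a (b (a (l 16703584) (l 16710008)) (l 16690792)) (b (a (l 16716776) (l 16724312)) (a (l 16700440) (l 16707216))))))) (b (l 3) (b (a (b (a (b (l 3) (l 160692148855)) (l 3)) (a (a (b (l 16753328) (l 16745632)) (l 16761576)) (b (l 3) (l 16767096)))) (l 3)) (a (a (b (a (l 16743432) (b (l 16744568) (l 16736456))) (b (l 16723192) (l 16692824))) (b (b (l 16754608) (a (l 16743504) (l 16750400))) (a (b (l 16735528) (l 16725592)) (b (l 16742440) (l 16733432))))) (b (a (b (l 3) (l 111836892071)) (l 3)) (a (b (l 16751776) (a (l 16740576) (l 16746608))) (b (l 3) (l 222432280663)))))))) (l 3)), by decide +kernel⟩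

def k1_pp_022 : ∃ t, chk3 f_pp_022 t 4 9 1 = true :=
  ⟨(b (a (a (b (a (a (l 16629448) (l 16639152)) (b (l 16661024) (l 16644432))) (a (l 16601640) (b (l 16627784) (l 16611192)))) (b (a (b (l 16674224) (l 16657784)) (b (l 16686968) (l 16670448))) (a (l 16633104) (l 16645696)))) (b (a (a (b (l 16700176) (l 16683040)) (b (l 16714728) (l 16696240))) (a (b (b (a (l 16730968) (l 16737536)) (a (l 16721056) (l 16727808))) (l 16710096)) (b (b (l 16745936) (l 16736640)) (b (l 16727992) (l 16719104))))) (a (a (l 16658216) (b (l 16679000) (l 16662328))) (b (a (l 16691800) (l 16662400)) (a (l 16674336) (l 16686120)))))) (a (a (b (a (l 16569128) (l 16586304)) (a (l 16536856) (l 16553296))) (b (a (l 16599744) (l 16612472)) (a (l 16566304) (l 16578776)))) (a (b (a (l 16625112) (l 16637536)) (a (l 16591504) (l 16604136))) (b (a (l 16670568) (b (l 16669248) (l 16653072))) (l 16669728))))), by decide +kernel⟩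

def k2_pp_022 : ∃ t, chk3 f_pp_022 t 5 9 1 = true :=
  ⟨(b (a (b (a (b (a (b (l 3) (l 360408039687)) (l 3)) (a (b (l 182703751735) (a (l 16728136) (l 16735312))) (b (l 3) (l 79624676295)))) (l 3)) (a (b (b (a (a (l 16718784) (l 16725424)) (l 16755928)) (a (a (l 16709232) (l 16715784)) (l 16746376))) (a (l 16698472) (b (a (l 16712672) (l 16719216)) (l 16728272)))) (b (a (b (l 212231797751) (l 16759112)) (l 3)) (a (b (l 16729352) (l 16740768)) (l 260550099559))))) (b (l 3) (a (b (l 3) (a (b (l 3) (l 370608650391)) (l 3))) (l 3)))) (a (b (a (b (l 16687400) (l 16671216)) (b (a (b (l 16710600) (l 16701912)) (b (l 16724208) (l 16714600))) (a (l 16689432) (l 16702008)))) (a (b (l 16655376) (l 16639432)) (b (l 16679120) (l 16662704)))) (b (a (b (a (l 165523964983) (l 290614912871)) (a (l 16744616) (l 16756184))) (a (b (l 3) (l 274508768599)) (l 3))) (a (b (a (l 16696016) (l 16726792)) (l 16682880)) (b (a (b (l 16722656) (l 16712304)) (l 241222797399)) (b (a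 (l 16702968) (l 16714656)) (l 16700240))))))), by decide +kernel⟩

def k3_pp_022 : ∃ t, chk3 f_pp_022 t 2 5 1 = true :=
  ⟨(b (a (a (b (b (a (a (l 16505320) (l 16519704)) (b (l 16547168) (l 16530096))) (b (a (l 16486760) (l 16512480)) (b (a (l 16472592) (l 16498768)) (a (b (l 16464416) (l 16457648)) (b (l 16491056) (l 16484760)))))) (a (a (l 16415096) (l 16429048)) (l 16512424))) (b (b (a (a (l 16577952) (l 16569664)) (l 16650880)) (b (a (l 16536928) (l 16560088)) (b (a (l 16523760) (l 16546152)) (b (a (l 16516464) (l 16539144)) (a (l 16510568) (l 16534312)))))) (a (l 16538224) (l 16558264)))) (b (b (a (a (l 16633968) (b (l 16644760) (l 16626992))) (a (b (l 16687064) (l 16649088)) (b (l 16687928) (l 16673280)))) (b (a (a (l 16585120) (l 16608856)) (a (l 16631808) (l 16690720))) (a (b (a (l 16570728) (l 16594856)) (b (a (l 16563184) (l 16587160)) (a (c (l 16592568) (l 16578128)) (l 16597024)))) (b (a (l 16618448) (l 16644176)) (b (a (l 16569128) (l 16637384))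 (a (l 16605216) (l 16631880))))))) (a (a (l 16593304) (l 16566232)) (a (l 16613024) (b (l 16614744) (l 16607432)))))) (b (a (a (a (l 16378944) (l 16384960)) (a (l 16424568) (l 16476472))) (a (a (l 16452584) (l 16482504)) (a (l 16512944) (l 16547664)))) (a (a (a (l 16295664) (l 16315688)) (a (l 16354736) (l 16358056))) (a (a (l 16391688) (l 16552744)) (a (l 16588736) (l 16650560)))))), by decide +kernel⟩

def k4_pp_022 : ∃ t, chk3 f_pp_022 t 2 3 1 = true :=
  ⟨(a (b (b (b (a (a (l 16228520) (l 16247392)) (a (l 16290200) (l 16299008))) (a (a (l 16161096) (l 16185688)) (a (l 16214792) (l 16251872)))) (a (a (b (l 16100704) (l 16048928)) (b (l 16132840) (l 16089264))) (a (b (l 16169880) (l 16133552)) (b (l 16213840) (l 16182256))))) (a (b (a (b (l 16007048) (l 15975408)) (b (l 16055136) (l 16028088))) (a (b (l 15950552) (l 15930632)) (b (l 16006088) (l 15988000)))) (b (b (a (l 16104072) (l 16156128)) (a (l 16080136) (l 16134080))) (a (l 16052752) (l 2)))))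 (b (b (a (b (a (l 16527488) (l 16506016)) (a (l 16298296) (l 16344832))) (b (a (b (l 16431304) (l 16413192)) (l 16508632)) (a (l 16389744) (l 16436640)))) (a (b (a (l 16265216) (l 16315064)) (a (l 16237136) (l 16288896))) (b (l 16492384) (l 2)))) (b (a (b (l 16241232) (l 2)) (l 2)) (l 2)))), by decide +kernel⟩

def k5_pp_022 : ∃ t, chk3 f_pp_022 t 3 1 1 = true :=
  ⟨(b (b (b (l 3) (a (b (l 3) (a (b (l 3) (b (a (b (l 3) (l 356649991159)) (l 3)) (a (b (l 273434987703) (a (l 16716968) (l 16728464))) (b (l 3) (l 362555587895))))) (l 3))) (l 3))) (b (b (b (a (a (b (a (b (l 16734896) (l 16726816)) (b (l 103783862935) (a (l 16721888) (l 16733120)))) (a (b (l 16698944) (l 16691632)) (b (l 16719680) (l 16712464)))) (b (a (b (l 3) (l 401210267607)) (l 3)) (a (b (l 16739432) (l 16731896)) (b (l 3) (l 16793256))))) (l 3)) (a (b (a (a (b (l 16684576) (l 16676744)) (l 16723792)) (b (a (l 16724736) (l 16745560)) (a (l 16717744) (l 16738904)))) (b (a (a (l 16668536)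 (l 16691440)) (a (l 16709496) (b (l 16733696) (l 16729704)))) (a (b (a (l 16662744) (l 16685720)) (a (l 16657984) (l 16681864))) (b (a (l 16702640) (l 16725488)) (a (l 16699416) (l 16722416)))))) (l 2))) (a (a (a (b (l 16642504) (l 16533120)) (b (l 16667904) (l 16644736))) (a (b (l 16686824) (l 16666184)) (l 16695008))) (l 2))) (a (a (b (a (b (l 16593536) (l 16571888)) (l 16613560)) (a (l 16605632) (l 16576808))) (a (b (l 16637416) (l 2)) (l 2))) (l 2)))) (a (a (b (b (b (l 16528624) (l 2)) (l 2)) (l 2)) (l 2)) (l 2))), by decide +kernel⟩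

theorem s6_pp_022 : ∃ t, chk3 f_pp_022 t 2 9 1 = true := ex3_a k1_pp_022 k2_pp_022

theorem s7_pp_022 : ∃ t, chk3 f_pp_022 t 2 4 1 = true := ex3_b k0_pp_022 s6_pp_022

theorem s8_pp_022 : ∃ t, chk3 f_pp_022 t 2 2 1 = true := ex3_b s7_pp_022 k3_pp_022

theorem s9_pp_022 : ∃ t, chk3 f_pp_022 t 2 1 1 = true := ex3_b s8_pp_022 k4_pp_022

theorem s10_pp_022 : ∃ t, chk3 f_pp_022 t 1 1 1 = true := ex3_a s9_pp_022 k5_pp_022

theorem c_pp_022 : CertB 0 536870912 1073741824 536870912 697932185 42949674 3 eng mog cd1q0 cd7q2 pd2 false true true .pp 0 2 2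
    ndB1q0 ndB7q2 pcB2 cut_pp_022 Ext.none :=
  certB1 (fam := false) (s1 := true) (s2 := true) (a := 0) (b := 2) (c := 2) (cn := .pp) (n1 := ndB1q0) (n2 := ndB7q2) (pc := pcB2) (cut := cut_pp_022) (xt := Ext.none) (P1 := 0) (W1 := 536870912) (P2 := 1073741824) (W2 := 536870912) (P3 := 697932185) (W3 := 42949674) (N0 := 3) (En := eng) (mo := mog) (C1 := cd1q0) (C2 := cd7q2) (C3 := pd2)
    rfl (fun _ => rfl) s10_pp_022

noncomputable def f_pp_023 : ℕ → ℕ → ℕ → ℕ → Bool := onCell 1073741824 536870912 0 1230186008 697932185 42949674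
    (rowB 3 eng mog cd1q0 cd7q3 pd2 2 false true true .up 0 2 3 (qsf 0 536870912 0 1230186008 2) ndB1q0 ndB7q3 pcB2 Cut.none Ext.none)

def k0_pp_023 : ∃ t, chk3 f_pp_023 t 1 1 1 = true :=
  ⟨(b (a (l 2) (a (l 2) (b (b (l 16691672) (l 16935760)) (b (l 16725712) (a (l 16711992) (l 16724752)))))) (a (a (b (l 2) (l 3)) (a (b (l 2) (a (a (b (l 3) (a (l 3) (b (l 3) (b (l 3) (l 373829879991))))) (b (a (l 3) (b (l 2) (a (l 3) (b (l 2) (a (l 16790080) (l 16768328)))))) (a (b (l 3) (b (a (l 3) (l 16758832)) (a (l 16753288) (l 16745640)))) (b (a (b (l 16787680) (l 16782824)) (b (a (l 16807016) (l 16763512)) (a (c (l 16760224) (l 16756520)) (l 16755672)))) (a (b (l 16753088) (a (l 16739392) (l 16734344))) (a (b (a (l 16748336) (l 16746304)) (l 16729208)) (b (l 16743360) (l 16724480)))))))) (b (b (l 16763224) (l 16754664)) (b (b (l 16741792) (l 16728552)) (b (l 16710112) (l 16683856)))))) (b (b (l 2) (l 491337734103)) (b (b (l 16718832) (l 16695744)) (b (b (l 16671072)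 (l 16649912)) (b (l 16625352) (l 16617312))))))) (b (a (b (a (l 2) (l 16713904)) (b (l 16713928) (l 16749104))) (b (a (b (l 16708664) (l 16695296)) (b (l 16714000) (l 16683752))) (b (a (l 16661568) (l 16615264)) (l 16572184)))) (b (a (b (l 16642464) (a (l 16626656) (l 16538176))) (b (l 16484712) (l 16503448))) (a (b (b (l 16528552) (l 16589472)) (a (b (l 16502792) (l 16455216)) (b (l 16361464) (l 16305136)))) (b (b (l 16277152) (l 16210112)) (b (l 16143024) (a (l 16150928) (l 16000000))))))))), by decide +kernel⟩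

theorem c_pp_023 : CertB 0 536870912 0 1230186008 697932185 42949674 3 eng mog cd1q0 cd7q3 pd2 false true true .up 0 2 3
    ndB1q0 ndB7q3 pcB2 Cut.none Ext.none :=
  certB2 (fam := false) (s1 := true) (s2 := true) (a := 0) (b := 2) (c := 3) (cn := .up) (n1 := ndB1q0) (n2 := ndB7q3) (pc := pcB2) (cut := Cut.none) (xt := Ext.none) (P1 := 0) (W1 := 536870912) (P2 := 0) (W2 := 1230186008) (P3 := 697932185) (W3 := 42949674) (N0 := 3) (En := eng) (mo := mog) (C1 := cd1q0) (C2 := cd7q3) (C3 := pd2)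
    rfl (fun _ => rfl) k0_pp_023

end Pool.Agent.Strip051.G.I6500_6900.Tab.C.BB17

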