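import Pool.Agent.Strip051.G.I6500_6900.Tab
import Pool.Agent.Strip051.PB.ExtD2

/-! # Certificates B30 (generated) -/

set_option linter.all false
set_option maxRecDepth 100000

namespace Pool.Agent.Strip051.G.I6500_6900.Tab.C.BB17

open Pool.Agent.Strip051.PB Pool.Agent.Strip051.PB.T
open Pool.Agent.Strip051.G.I6500_6900.Tab

noncomputable def f_pp_033 : ℕ → ℕ → ℕ → ℕ → Bool := onCell 1610612736 536870912 0 1230186008 697932185 42949674
    (rowB 3 eng mog cd1q0 cd7q3 pd3 2 false true true .pnn 0 3 3 (qsf 0 536870912 0 1230186008 3) ndB1q0 ndB7q3 pcB3 Cut.none Ext.none)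

def k0_pp_033 : ∃ t, chk3 f_pp_033 t 1 1 1 = true :=
  ⟨(b (b (a (a (a (b (l 16662464) (l 16716184)) (l 16809680)) (a (b (l 16555616) (a (l 16589904) (l 16557808))) (l 16479736))) (a (b (l 4) (a (l 16426840) (l 16456952))) (l 4))) (a (a (b (a (l 16774664) (l 16653184)) (a (l 16754840) (l 16619376))) (a (a (b (l 16583504) (a (l 16539728) (l 16528896))) (b (l 16539248) (b (l 16487968) (l 16450584)))) (a (b (a (l 16508784) (l 16493144)) (a (b (l 16454016) (l 16411360)) (b (l 16462088) (l 16434016)))) (b (l 16462840) (b (l 16422944) (l 16395096)))))) (a (a (b (a (l 16420928) (l 16390264)) (b (l 16357104) (l 16310288))) (b (a (l 16353792) (l 16319712)) (a (b (l 16300152) (l 16252320)) (b (l 16287424) (l 16233480))))) (a (b (a (l 16289856) (l 4)) (a (b (l 16277664) (l 16231728)) (l 642667438471))) (a (b (l 4) (l 641056766743)) (l 4)))))) (b (a (a (a (b (l 16672632) (l 16519792)) (b (l 16551040) (l 16402952))) (b (a (a (b (l 16477608) (l 16426912)) (l 16566912))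 (a (b (a (l 16381384) (l 16391312)) (l 16312264)) (b (l 16350808) (l 16281312)))) (b (a (a (l 16356784) (l 16309088)) (a (a (l 16273840) (l 16243536)) (l 16194824))) (a (l 16238088) (l 16130800))))) (b (a (a (b (l 16305984) (l 16196696)) (a (b (l 16193728) (l 16120192)) (b (l 16171392) (l 16076856)))) (a (a (b (l 16313968) (l 1)) (l 1)) (l 1))) (a (a (b (a (l 16134048) (l 16075808)) (a (l 16040576) (l 15978568))) (b (a (l 16016840) (l 1)) (l 1))) (l 1)))) (a (b (a (b (l 16284848) (l 16136816)) (b (l 16067328) (l 15900296))) (a (b (l 16080056) (a (l 15882288) (l 326986104295))) (b (a (l 15780536) (l 1)) (l 1)))) (l 1)))), by decide +kernel⟩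

theorem c_pp_033 : CertB 0 536870912 0 1230186008 697932185 42949674 3 eng mog cd1q0 cd7q3 pd3 false true true .pnn 0 3 3
    ndB1q0 ndB7q3 pcB3 Cut.none Ext.none :=
  certB2 (fam := false) (s1 := true) (s2 := true) (a := 0) (b := 3) (c := 3) (cn := .pnn) (n1 := ndB1q0) (n2 := ndB7q3) (pc := pcB3) (cut := Cut.none) (xt := Ext.none) (P1 := 0) (W1 := 536870912) (P2 := 0) (W2 := 1230186008) (P3 := 697932185) (W3 := 42949674) (N0 := 3) (En := eng) (mo := mog) (C1 := cd1q0) (C2 := cd7q3) (C3 := pd3)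
    rfl (fun _ => rfl) k0_pp_033

noncomputable def f_pp_101 : ℕ → ℕ → ℕ → ℕ → Bool := onCell 536870912 536870912 0 536870912 697932185 42949674
    (rowB 3 eng mog cd1q1 cd7q1 pd0 1 false true true .npn 1 0 1 (qsf 536870912 536870912 536870912 536870912 0) ndB1q1 ndB7q1 pcB0 Cut.none Ext.none)

def k0_pp_101 : ∃ t, chk3 f_pp_101 t 1 1 1 = true :=
  ⟨(l 3), by decide +kernel⟩

theorem c_pp_101 : CertB 536870912 536870912 536870912 536870912 697932185 42949674 3 eng mog cd1q1 cd7q1 pd0 false true true .npn 1 0 1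
    ndB1q1 ndB7q1 pcB0 Cut.none Ext.none :=
  certB1 (fam := false) (s1 := true) (s2 := true) (a := 1) (b := 0) (c := 1) (cn := .npn) (n1 := ndB1q1) (n2 := ndB7q1) (pc := pcB0) (cut := Cut.none) (xt := Ext.none) (P1 := 536870912) (W1 := 536870912) (P2 := 536870912) (W2 := 536870912) (P3 := 697932185) (W3 := 42949674) (N0 := 3) (En := eng) (mo := mog) (C1 := cd1q1) (C2 := cd7q1) (C3 := pd0)
    rfl (fun _ => rfl) k0_pp_101

noncomputable def f_pp_102 : ℕ → ℕ → ℕ → ℕ → Bool := onCell 536870912 536870912 0 536870912 697932185 42949674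
    (rowB 3 eng mog cd1q1 cd7q2 pd0 1 false true true .npp 1 0 2 (qsf 536870912 536870912 1073741824 536870912 0) ndB1q1 ndB7q2 pcB0 Cut.none Ext.none)

def k0_pp_102 : ∃ t, chk3 f_pp_102 t 1 1 1 = true :=
  ⟨(l 3), by decide +kernel⟩

theorem c_pp_102 : CertB 536870912 536870912 1073741824 536870912 697932185 42949674 3 eng mog cd1q1 cd7q2 pd0 false true true .npp 1 0 2
    ndB1q1 ndB7q2 pcB0 Cut.none Ext.none :=
  certB1 (fam := false) (s1 := true) (s2 := true) (a := 1) (b := 0) (c := 2) (cn := .npp) (n1 := ndB1q1) (n2 := ndB7q2) (pc := pcB0) (cut := Cut.none) (xt := Ext.none) (P1 := 536870912) (W1 := 536870912) (P2 := 1073741824) (W2 := 536870912) (P3 := 697932185) (W3 := 42949674) (N0 := 3) (En := eng) (mo := mog) (C1 := cd1q1) (C2 := cd7q2) (C3 := pd0)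
    rfl (fun _ => rfl) k0_pp_102

noncomputable def f_pp_112 : ℕ → ℕ → ℕ → ℕ → Bool := onCell 536870912 536870912 1073741824 536870912 697932185 42949674
    (rowB 3 eng mog cd1q1 cd7q2 pd1 0 false true true .dn 1 1 2 (qsf 536870912 536870912 1073741824 536870912 1) ndB1q1 ndB7q2 pcB1 Cut.none Ext.none)

def k0_pp_112 : ∃ t, chk3 f_pp_112 t 1 1 1 = true :=
  ⟨(a (l 3) (l 3)), by decide +kernel⟩

theorem c_pp_112 : CertB 536870912 536870912 1073741824 536870912 697932185 42949674 3 eng mog cd1q1 cd7q2 pd1 false true true .dn 1 1 2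
    ndB1q1 ndB7q2 pcB1 Cut.none Ext.none :=
  certB0 (fam := false) (s1 := true) (s2 := true) (a := 1) (b := 1) (c := 2) (cn := .dn) (n1 := ndB1q1) (n2 := ndB7q2) (pc := pcB1) (cut := Cut.none) (xt := Ext.none) (P1 := 536870912) (W1 := 536870912) (P2 := 1073741824) (W2 := 536870912) (P3 := 697932185) (W3 := 42949674) (N0 := 3) (En := eng) (mo := mog) (C1 := cd1q1) (C2 := cd7q2) (C3 := pd1)
    rfl k0_pp_112

noncomputable def f_pp_113 : ℕ → ℕ → ℕ → ℕ → Bool := onCell 536870912 536870912 0 1230186008 697932185 42949674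
    (rowB 3 eng mog cd1q1 cd7q3 pd1 2 false true true .nn 1 1 3 (qsf 536870912 536870912 0 1230186008 1) ndB1q1 ndB7q3 pcB1 Cut.none Ext.none)

def k0_pp_113 : ∃ t, chk3 f_pp_113 t 1 1 1 = true :=
  ⟨(b (a (l 2) (a (l 2) (b (a (l 2) (b (a (l 2) (a (l 2) (a (l 2) (b (l 16767512) (l 282024799159))))) (l 3))) (l 3)))) (a (b (a (l 2) (b (l 2) (a (l 2) (l 3)))) (a (b (l 2) (l 3)) (l 3))) (b (l 3) (l 3)))), by decide +kernel⟩

theorem c_pp_113 : CertB 536870912 536870912 0 1230186008 697932185 42949674 3 eng mog cd1q1 cd7q3 pd1 false true true .nn 1 1 3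
    ndB1q1 ndB7q3 pcB1 Cut.none Ext.none :=
  certB2 (fam := false) (s1 := true) (s2 := true) (a := 1) (b := 1) (c := 3) (cn := .nn) (n1 := ndB1q1) (n2 := ndB7q3) (pc := pcB1) (cut := Cut.none) (xt := Ext.none) (P1 := 536870912) (W1 := 536870912) (P2 := 0) (W2 := 1230186008) (P3 := 697932185) (W3 := 42949674) (N0 := 3) (En := eng) (mo := mog) (C1 := cd1q1) (C2 := cd7q3) (C3 := pd1)
    rfl (fun _ => rfl) k0_pp_113

noncomputable def f_pp_123 : ℕ → ℕ → ℕ → ℕ → Bool := onCell 1073741824 536870912 0 1230186008 697932185 42949674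
    (rowB 3 eng mog cd1q1 cd7q3 pd2 2 false true true .npn 1 2 3 (qsf 536870912 536870912 0 1230186008 2) ndB1q1 ndB7q3 pcB2 Cut.none Ext.none)

def k0_pp_123 : ∃ t, chk3 f_pp_123 t 4 1 1 = true :=
  ⟨(b (a (b (b (a (b (l 16761336) (a (l 247128541127) (l 16774648))) (l 16736976)) (a (b (a (l 443086231575) (l 297057493815)) (l 3)) (b (a (l 16779640) (l 16766064)) (a (l 428053979511) (b (l 16780280) (l 342154665351)))))) (b (a (l 3) (b (a (l 3) (l 518785044375)) (l 3))) (l 3))) (b (b (a (l 16699216) (l 16655472)) (a (b (l 16744056) (a (l 16774952) (l 16760568))) (b (l 16710952) (l 16741104)))) (a (b (b (a (b (l 16777664) (l 443086327159)) (b (l 16777448) (l 16774296))) (a (l 531669936071) (a (l 517711364487) (b (l 16769832) (l 16763560))))) (b (a (l 3) (l 556365993543)) (l 3))) (b (b (a (l 16768352) (l 16759720)) (a (b (l 16774992) (l 16790896)) (l 16856960))) (b (a (a (l 552607935735) (b (l 16763384) (l 16758704))) (b (l 16771680) (a (l 16761768) (l 16766368))))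 (a (l 509121348743) (b (a (l 16757456) (l 16756408)) (a (l 16752288) (l 16731320))))))))) (b (a (l 3) (a (l 3) (b (a (l 3) (b (l 472614187015) (l 3))) (l 3)))) (l 3))), by decide +kernel⟩

def k1_pp_123 : ∃ t, chk3 f_pp_123 t 5 1 1 = true :=
  ⟨(b (b (a (b (a (l 16654496) (l 16565296)) (a (a (l 16700984) (l 16693280)) (l 16667472))) (b (l 16593920) (l 16662160))) (a (a (a (b (b (l 16745808) (l 16786520)) (b (a (l 16773920) (l 16780936)) (a (b (l 16760128) (l 16708856)) (l 16760536)))) (b (a (b (l 16738368) (l 16758256)) (b (a (l 16736136) (b (l 16729632) (l 16745504))) (a (l 16756536) (l 16758944)))) (a (b (l 16777784) (l 16762848)) (b (a (l 16776168) (l 16793568)) (a (l 16762376) (a (l 16763232) (l 16762184))))))) (b (b (l 16726544) (l 16751240)) (b (l 16766920) (l 16764696)))) (b (b (l 16711160) (l 16733472)) (b (l 16746816) (l 16753792))))) (a (b (a (a (b (b (a (a (l 341617532967) (l 333564457607)) (b (l 16754680) (l 16751984))) (a (a (l 3) (l 16745200))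 (b (l 16750672) (l 16749560)))) (b (a (l 3) (l 424832510647)) (l 3))) (b (a (b (l 16757824) (l 16797496)) (b (a (l 16759008) (a (l 16758608) (l 16757760))) (a (l 16756584) (a (l 16757128) (l 16757296))))) (a (b (l 272361371751) (l 508584586327)) (b (a (l 16756624) (a (l 16756816) (l 16757848))) (a (l 16799648) (a (a (l 16759752) (l 16760192)) (l 16802968))))))) (b (l 16852248) (b (l 16771808) (l 16777648)))) (a (a (b (l 3) (b (l 3) (l 1))) (b (a (l 3) (a (l 3) (a (b (l 648707942423) (b (l 3) (l 16797360))) (b (l 16785256) (b (l 16762808) (l 16757864)))))) (l 1))) (b (b (l 16772800) (l 16766912)) (l 1)))) (b (b (b (l 16755136) (l 16760976)) (b (l 16759944) (l 16744000))) (b (b (l 16729080) (l 1)) (l 1))))), by decide +kernel⟩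

def k2_pp_123 : ∃ t, chk3 f_pp_123 t 3 1 1 = true :=
  ⟨(b (b (a (a (b (l 16600752) (l 16672936)) (b (l 16619616) (l 16694856))) (b (l 16661936) (l 16932592))) (a (b (l 16707208) (a (b (l 16725912) (l 16730984)) (l 16714704))) (b (l 16724568) (a (l 16712864) (l 16720312))))) (b (a (b (a (b (l 16731096) (l 16735768)) (l 16719520)) (b (l 16727168) (l 16715976))) (b (a (l 16716672) (l 1)) (l 1))) (l 1))), by decide +kernel⟩

theorem s3_pp_123 : ∃ t, chk3 f_pp_123 t 2 1 1 = true := ex3_a k0_pp_123 k1_pp_123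

theorem s4_pp_123 : ∃ t, chk3 f_pp_123 t 1 1 1 = true := ex3_a s3_pp_123 k2_pp_123

theorem c_pp_123 : CertB 536870912 536870912 0 1230186008 697932185 42949674 3 eng mog cd1q1 cd7q3 pd2 false true true .npn 1 2 3
    ndB1q1 ndB7q3 pcB2 Cut.none Ext.none :=
  certB2 (fam := false) (s1 := true) (s2 := true) (a := 1) (b := 2) (c := 3) (cn := .npn) (n1 := ndB1q1) (n2 := ndB7q3) (pc := pcB2) (cut := Cut.none) (xt := Ext.none) (P1 := 536870912) (W1 := 536870912) (P2 := 0) (W2 := 1230186008) (P3 := 697932185) (W3 := 42949674) (N0 := 3) (En := eng) (mo := mog) (C1 := cd1q1) (C2 := cd7q3) (C3 := pd2)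
    rfl (fun _ => rfl) s4_pp_123

noncomputable def f_pp_133 : ℕ → ℕ → ℕ → ℕ → Bool := onCell 1610612736 536870912 0 1230186008 697932185 42949674
    (rowB 3 eng mog cd1q1 cd7q3 pd3 2 false true true .dn 1 3 3 (qsf 536870912 536870912 0 1230186008 3) ndB1q1 ndB7q3 pcB3 Cut.none Ext.none)

def k0_pp_133 : ∃ t, chk3 f_pp_133 t 1 1 1 = true :=
  ⟨(b (b (a (a (a (l 1831837452103) (l 1)) (l 1)) (l 1)) (l 1)) (l 1)), by decide +kernel⟩

theorem c_pp_133 : CertB 536870912 536870912 0 1230186008 697932185 42949674 3 eng mog cd1q1 cd7q3 pd3 false true true .dn 1 3 3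
    ndB1q1 ndB7q3 pcB3 Cut.none Ext.none :=
  certB2 (fam := false) (s1 := true) (s2 := true) (a := 1) (b := 3) (c := 3) (cn := .dn) (n1 := ndB1q1) (n2 := ndB7q3) (pc := pcB3) (cut := Cut.none) (xt := Ext.none) (P1 := 536870912) (W1 := 536870912) (P2 := 0) (W2 := 1230186008) (P3 := 697932185) (W3 := 42949674) (N0 := 3) (En := eng) (mo := mog) (C1 := cd1q1) (C2 := cd7q3) (C3 := pd3)
    rfl (fun _ => rfl) k0_pp_133

noncomputable def f_pp_202_a : ℕ → ℕ → ℕ → ℕ → Bool := onCell 0 536870912 1073741824 536870912 697932185 42949674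
    (rowB 3 eng mog cd1q2a cd7q2 pd0 0 false true true .pp 2 0 2 (qsf 0 536870912 1073741824 536870912 0) ndB1q2a ndB7q2 pcB0 Cut.none Ext.none)

def k0_pp_202_a : ∃ t, chk3 f_pp_202_a t 1 1 1 = true :=
  ⟨(l 5), by decide +kernel⟩

theorem c_pp_202_a : CertB 0 536870912 1073741824 536870912 697932185 42949674 3 eng mog cd1q2a cd7q2 pd0 false true true .pp 2 0 2
    ndB1q2a ndB7q2 pcB0 Cut.none Ext.none :=
  certB0 (fam := false) (s1 := true) (s2 := true) (a := 2) (b := 0) (c := 2) (cn := .pp) (n1 := ndB1q2a) (n2 := ndB7q2) (pc := pcB0) (cut := Cut.none) (xt := Ext.none) (P1 := 0) (W1 := 536870912) (P2 := 1073741824) (W2 := 536870912) (P3 := 697932185) (W3 := 42949674) (N0 := 3) (En := eng) (mo := mog) (C1 := cd1q2a) (C2 := cd7q2) (C3 := pd0)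
    rfl k0_pp_202_a

noncomputable def f_pp_202_b : ℕ → ℕ → ℕ → ℕ → Bool := onCell 1239849684 370763052 1073741824 536870912 697932185 42949674
    (rowB 3 eng mog cd1q2b cd7q2 pd0 0 false true true .pp 2 0 2 (qsf 1239849684 370763052 1073741824 536870912 0) ndB1q2b ndB7q2 pcB0 Cut.none Ext.none)

def k0_pp_202_b : ∃ t, chk3 f_pp_202_b t 1 1 1 = true :=
  ⟨(l 5), by decide +kernel⟩

theorem c_pp_202_b : CertB 1239849684 370763052 1073741824 536870912 697932185 42949674 3 eng mog cd1q2b cd7q2 pd0 false true true .pp 2 0 2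
    ndB1q2b ndB7q2 pcB0 Cut.none Ext.none :=
  certB0 (fam := false) (s1 := true) (s2 := true) (a := 2) (b := 0) (c := 2) (cn := .pp) (n1 := ndB1q2b) (n2 := ndB7q2) (pc := pcB0) (cut := Cut.none) (xt := Ext.none) (P1 := 1239849684) (W1 := 370763052) (P2 := 1073741824) (W2 := 536870912) (P3 := 697932185) (W3 := 42949674) (N0 := 3) (En := eng) (mo := mog) (C1 := cd1q2b) (C2 := cd7q2) (C3 := pd0)
    rfl k0_pp_202_b

noncomputable def f_pp_203_a : ℕ → ℕ → ℕ → ℕ → Bool := onCell 0 536870912 0 1230186008 697932185 42949674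
    (rowB 3 eng mog cd1q2a cd7q3 pd0 0 false true true .up 2 0 3 (qsf 0 536870912 0 1230186008 0) ndB1q2a ndB7q3 pcB0 Cut.none Ext.none)

def k0_pp_203_a : ∃ t, chk3 f_pp_203_a t 1 1 1 = true :=
  ⟨(b (l 2) (a (l 5) (l 3))), by decide +kernel⟩

theorem c_pp_203_a : CertB 0 536870912 0 1230186008 697932185 42949674 3 eng mog cd1q2a cd7q3 pd0 false true true .up 2 0 3
    ndB1q2a ndB7q3 pcB0 Cut.none Ext.none :=
  certB0 (fam := false) (s1 := true) (s2 := true) (a := 2) (b := 0) (c := 3) (cn := .up) (n1 := ndB1q2a) (n2 := ndB7q3) (pc := pcB0) (cut := Cut.none) (xt := Ext.none) (P1 := 0) (W1 := 536870912) (P2 := 0) (W2 := 1230186008) (P3 := 697932185) (W3 := 42949674) (N0 := 3) (En := eng) (mo := mog) (C1 := cd1q2a) (C2 := cd7q3) (C3 := pd0)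
    rfl k0_pp_203_a

noncomputable def f_pp_203_b : ℕ → ℕ → ℕ → ℕ → Bool := onCell 1239849684 370763052 0 1230186008 697932185 42949674
    (rowB 3 eng mog cd1q2b cd7q3 pd0 0 false true true .up 2 0 3 (qsf 1239849684 370763052 0 1230186008 0) ndB1q2b ndB7q3 pcB0 Cut.none Ext.none)

def k0_pp_203_b : ∃ t, chk3 f_pp_203_b t 1 1 1 = true :=
  ⟨(b (l 3) (l 5)), by decide +kernel⟩

theorem c_pp_203_b : CertB 1239849684 370763052 0 1230186008 697932185 42949674 3 eng mog cd1q2b cd7q3 pd0 false true true .up 2 0 3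
    ndB1q2b ndB7q3 pcB0 Cut.none Ext.none :=
  certB0 (fam := false) (s1 := true) (s2 := true) (a := 2) (b := 0) (c := 3) (cn := .up) (n1 := ndB1q2b) (n2 := ndB7q3) (pc := pcB0) (cut := Cut.none) (xt := Ext.none) (P1 := 1239849684) (W1 := 370763052) (P2 := 0) (W2 := 1230186008) (P3 := 697932185) (W3 := 42949674) (N0 := 3) (En := eng) (mo := mog) (C1 := cd1q2b) (C2 := cd7q3) (C3 := pd0)
    rfl k0_pp_203_b

noncomputable def cut_pp_213_a : Cut := Cut.of [[⟨0, 1, 0, 67108864⟩, ⟨1, 1, 0, 67108864⟩, ⟨2, 2, 0, 16777216⟩]]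

noncomputable def f_pp_213_a : ℕ → ℕ → ℕ → ℕ → Bool := onCell 0 536870912 0 1230186008 697932185 42949674
    (rowB 3 eng mog cd1q2a cd7q3 pd1 0 false true true .pnn 2 1 3 (qsf 0 536870912 0 1230186008 1) ndB1q2a ndB7q3 pcB1 cut_pp_213_a Ext.none)

def k0_pp_213_a : ∃ t, chk3 f_pp_213_a t 1 1 1 = true :=
  ⟨(a (b (l 3) (l 5)) (b (b (a (l 3) (b (a (l 3) (l 6)) (l 3))) (l 3)) (l 3))), by decide +kernel⟩

theorem c_pp_213_a : CertB 0 536870912 0 1230186008 697932185 42949674 3 eng mog cd1q2a cd7q3 pd1 false true true .pnn 2 1 3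
    ndB1q2a ndB7q3 pcB1 cut_pp_213_a Ext.none :=
  certB0 (fam := false) (s1 := true) (s2 := true) (a := 2) (b := 1) (c := 3) (cn := .pnn) (n1 := ndB1q2a) (n2 := ndB7q3) (pc := pcB1) (cut := cut_pp_213_a) (xt := Ext.none) (P1 := 0) (W1 := 536870912) (P2 := 0) (W2 := 1230186008) (P3 := 697932185) (W3 := 42949674) (N0 := 3) (En := eng) (mo := mog) (C1 := cd1q2a) (C2 := cd7q3) (C3 := pd1)
    rfl k0_pp_213_a

noncomputable def cut_pp_213_b : Cut := Cut.of [[⟨0, 1, 0, 67108864⟩, ⟨1, 1, 0, 67108864⟩, ⟨2, 2, 0, 16777216⟩]]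

noncomputable def f_pp_213_b : ℕ → ℕ → ℕ → ℕ → Bool := onCell 1239849684 370763052 0 1230186008 697932185 42949674
    (rowB 3 eng mog cd1q2b cd7q3 pd1 0 false true true .pnn 2 1 3 (qsf 1239849684 370763052 0 1230186008 1) ndB1q2b ndB7q3 pcB1 cut_pp_213_b Ext.none)

def k0_pp_213_b : ∃ t, chk3 f_pp_213_b t 1 1 1 = true :=
  ⟨(b (l 3) (l 5)), by decide +kernel⟩

theorem c_pp_213_b : CertB 1239849684 370763052 0 1230186008 697932185 42949674 3 eng mog cd1q2b cd7q3 pd1 false true true .pnn 2 1 3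
    ndB1q2b ndB7q3 pcB1 cut_pp_213_b Ext.none :=
  certB0 (fam := false) (s1 := true) (s2 := true) (a := 2) (b := 1) (c := 3) (cn := .pnn) (n1 := ndB1q2b) (n2 := ndB7q3) (pc := pcB1) (cut := cut_pp_213_b) (xt := Ext.none) (P1 := 1239849684) (W1 := 370763052) (P2 := 0) (W2 := 1230186008) (P3 := 697932185) (W3 := 42949674) (N0 := 3) (En := eng) (mo := mog) (C1 := cd1q2b) (C2 := cd7q3) (C3 := pd1)
    rfl k0_pp_213_b

noncomputable def f_pp_303 : ℕ → ℕ → ℕ → ℕ → Bool := onCell 1610612736 536870912 0 1230186008 697932185 42949674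
    (rowB 3 eng mog cd1q3 cd7q3 pd0 0 false true true .npn 3 0 3 (qsf 1610612736 536870912 0 1230186008 0) ndB1q3 ndB7q3 pcB0 Cut.none Ext.none)

def k0_pp_303 : ∃ t, chk3 f_pp_303 t 1 1 1 = true :=
  ⟨(b (l 3) (l 5)), by decide +kernel⟩

theorem c_pp_303 : CertB 1610612736 536870912 0 1230186008 697932185 42949674 3 eng mog cd1q3 cd7q3 pd0 false true true .npn 3 0 3
    ndB1q3 ndB7q3 pcB0 Cut.none Ext.none :=
  certB0 (fam := false) (s1 := true) (s2 := true) (a := 3) (b := 0) (c := 3) (cn := .npn) (n1 := ndB1q3) (n2 := ndB7q3) (pc := pcB0) (cut := Cut.none) (xt := Ext.none) (P1 := 1610612736) (W1 := 536870912) (P2 := 0) (W2 := 1230186008) (P3 := 697932185) (W3 := 42949674) (N0 := 3) (En := eng) (mo := mog) (C1 := cd1q3) (C2 := cd7q3) (C3 := pd0)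
    rfl k0_pp_303

noncomputable def f_pp_313 : ℕ → ℕ → ℕ → ℕ → Bool := onCell 1610612736 536870912 0 1230186008 697932185 42949674
    (rowB 3 eng mog cd1q3 cd7q3 pd1 0 false true true .dn 3 1 3 (qsf 1610612736 536870912 0 1230186008 1) ndB1q3 ndB7q3 pcB1 Cut.none Ext.none)

def k0_pp_313 : ∃ t, chk3 f_pp_313 t 1 1 1 = true :=
  ⟨(b (l 3) (l 1)), by decide +kernel⟩

theorem c_pp_313 : CertB 1610612736 536870912 0 1230186008 697932185 42949674 3 eng mog cd1q3 cd7q3 pd1 false true true .dn 3 1 3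
    ndB1q3 ndB7q3 pcB1 Cut.none Ext.none :=
  certB0 (fam := false) (s1 := true) (s2 := true) (a := 3) (b := 1) (c := 3) (cn := .dn) (n1 := ndB1q3) (n2 := ndB7q3) (pc := pcB1) (cut := Cut.none) (xt := Ext.none) (P1 := 1610612736) (W1 := 536870912) (P2 := 0) (W2 := 1230186008) (P3 := 697932185) (W3 := 42949674) (N0 := 3) (En := eng) (mo := mog) (C1 := cd1q3) (C2 := cd7q3) (C3 := pd1)
    rfl k0_pp_313

noncomputable def f_pm_001 : ℕ → ℕ → ℕ → ℕ → Bool := onCell 0 536870912 536870912 536870912 697932185 42949674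
    (rowB 3 eng mog cd1q0 cd7q1 pd0 0 false true false .up 0 0 1 (qsf 0 536870912 536870912 536870912 0) ndB1q0 ndB7q1 pcB0 Cut.none Ext.none)

def k0_pm_001 : ∃ t, chk3 f_pm_001 t 1 1 1 = true :=
  ⟨(l 4), by decide +kernel⟩

theorem c_pm_001 : CertB 0 536870912 536870912 536870912 697932185 42949674 3 eng mog cd1q0 cd7q1 pd0 false true false .up 0 0 1
    ndB1q0 ndB7q1 pcB0 Cut.none Ext.none :=
  certB0 (fam := false) (s1 := true) (s2 := false) (a := 0) (b := 0) (c := 1) (cn := .up) (n1 := ndB1q0) (n2 := ndB7q1) (pc := pcB0) (cut := Cut.none) (xt := Ext.none) (P1 := 0) (W1 := 536870912) (P2 := 536870912) (W2 := 536870912) (P3 := 697932185) (W3 := 42949674) (N0 := 3) (En := eng) (mo := mog) (C1 := cd1q0) (C2 := cd7q1) (C3 := pd0)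
    rfl k0_pm_001

noncomputable def f_pm_011 : ℕ → ℕ → ℕ → ℕ → Bool := onCell 0 536870912 536870912 536870912 697932185 42949674
    (rowB 3 eng mog cd1q0 cd7q1 pd1 0 false true false .pnn 0 1 1 (qsf 0 536870912 536870912 536870912 1) ndB1q0 ndB7q1 pcB1 Cut.none Ext.none)

def k0_pm_011 : ∃ t, chk3 f_pm_011 t 1 1 1 = true :=
  ⟨(l 4), by decide +kernel⟩

theorem c_pm_011 : CertB 0 536870912 536870912 536870912 697932185 42949674 3 eng mog cd1q0 cd7q1 pd1 false true false .pnn 0 1 1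
    ndB1q0 ndB7q1 pcB1 Cut.none Ext.none :=
  certB0 (fam := false) (s1 := true) (s2 := false) (a := 0) (b := 1) (c := 1) (cn := .pnn) (n1 := ndB1q0) (n2 := ndB7q1) (pc := pcB1) (cut := Cut.none) (xt := Ext.none) (P1 := 0) (W1 := 536870912) (P2 := 536870912) (W2 := 536870912) (P3 := 697932185) (W3 := 42949674) (N0 := 3) (En := eng) (mo := mog) (C1 := cd1q0) (C2 := cd7q1) (C3 := pd1)
    rfl k0_pm_011

noncomputable def f_pm_012 : ℕ → ℕ → ℕ → ℕ → Bool := onCell 0 536870912 1073741824 536870912 697932185 42949674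
    (rowB 3 eng mog cd1q0 cd7q2 pd1 0 false true false .pnp 0 1 2 (qsf 0 536870912 1073741824 536870912 1) ndB1q0 ndB7q2 pcB1 Cut.none Ext.none)

def k0_pm_012 : ∃ t, chk3 f_pm_012 t 1 1 1 = true :=
  ⟨(l 4), by decide +kernel⟩

theorem c_pm_012 : CertB 0 536870912 1073741824 536870912 697932185 42949674 3 eng mog cd1q0 cd7q2 pd1 false true false .pnp 0 1 2
    ndB1q0 ndB7q2 pcB1 Cut.none Ext.none :=
  certB0 (fam := false) (s1 := true) (s2 := false) (a := 0) (b := 1) (c := 2) (cn := .pnp) (n1 := ndB1q0) (n2 := ndB7q2) (pc := pcB1) (cut := Cut.none) (xt := Ext.none) (P1 := 0) (W1 := 536870912) (P2 := 1073741824) (W2 := 536870912) (P3 := 697932185) (W3 := 42949674) (N0 := 3) (En := eng) (mo := mog) (C1 := cd1q0) (C2 := cd7q2) (C3 := pd1)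
    rfl k0_pm_012

noncomputable def f_pm_022 : ℕ → ℕ → ℕ → ℕ → Bool := onCell 0 536870912 1073741824 536870912 697932185 42949674
    (rowB 3 eng mog cd1q0 cd7q2 pd2 0 false true false .pp 0 2 2 (qsf 0 536870912 1073741824 536870912 2) ndB1q0 ndB7q2 pcB2 Cut.none Ext.none)

def k0_pm_022 : ∃ t, chk3 f_pm_022 t 1 1 1 = true :=
  ⟨(l 4), by decide +kernel⟩

theorem c_pm_022 : CertB 0 536870912 1073741824 536870912 697932185 42949674 3 eng mog cd1q0 cd7q2 pd2 false true false .pp 0 2 2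
    ndB1q0 ndB7q2 pcB2 Cut.none Ext.none :=
  certB0 (fam := false) (s1 := true) (s2 := false) (a := 0) (b := 2) (c := 2) (cn := .pp) (n1 := ndB1q0) (n2 := ndB7q2) (pc := pcB2) (cut := Cut.none) (xt := Ext.none) (P1 := 0) (W1 := 536870912) (P2 := 1073741824) (W2 := 536870912) (P3 := 697932185) (W3 := 42949674) (N0 := 3) (En := eng) (mo := mog) (C1 := cd1q0) (C2 := cd7q2) (C3 := pd2)
    rfl k0_pm_022

noncomputable def f_pm_023 : ℕ → ℕ → ℕ → ℕ → Bool := onCell 0 536870912 0 1230186008 697932185 42949674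
    (rowB 3 eng mog cd1q0 cd7q3 pd2 0 false true false .up 0 2 3 (qsf 0 536870912 0 1230186008 2) ndB1q0 ndB7q3 pcB2 Cut.none Ext.none)

def k0_pm_023 : ∃ t, chk3 f_pm_023 t 1 1 1 = true :=
  ⟨(b (b (a (l 2) (a (l 2) (a (l 2) (b (l 16604752) (l 16574736))))) (l 4)) (l 4)), by decide +kernel⟩

theorem c_pm_023 : CertB 0 536870912 0 1230186008 697932185 42949674 3 eng mog cd1q0 cd7q3 pd2 false true false .up 0 2 3
    ndB1q0 ndB7q3 pcB2 Cut.none Ext.none :=
  certB0 (fam := false) (s1 := true) (s2 := false) (a := 0) (b := 2) (c := 3) (cn := .up) (n1 := ndB1q0) (n2 := ndB7q3) (pc := pcB2) (cut := Cut.none) (xt := Ext.none) (P1 := 0) (W1 := 536870912) (P2 := 0) (W2 := 1230186008) (P3 := 697932185) (W3 := 42949674) (N0 := 3) (En := eng) (mo := mog) (C1 := cd1q0) (C2 := cd7q3) (C3 := pd2)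
    rfl k0_pm_023

noncomputable def f_pm_033 : ℕ → ℕ → ℕ → ℕ → Bool := onCell 0 536870912 0 1230186008 697932185 42949674
    (rowB 3 eng mog cd1q0 cd7q3 pd3 0 false true false .pnn 0 3 3 (qsf 0 536870912 0 1230186008 3) ndB1q0 ndB7q3 pcB3 Cut.none Ext.none)

def k0_pm_033 : ∃ t, chk3 f_pm_033 t 1 1 1 = true :=
  ⟨(b (b (a (l 4) (a (a (l 4) (l 16541080)) (a (l 16588888) (b (l 16598088) (l 16574472))))) (l 4)) (l 4)), by decide +kernel⟩

theorem c_pm_033 : CertB 0 536870912 0 1230186008 697932185 42949674 3 eng mog cd1q0 cd7q3 pd3 false true false .pnn 0 3 3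
    ndB1q0 ndB7q3 pcB3 Cut.none Ext.none :=
  certB0 (fam := false) (s1 := true) (s2 := false) (a := 0) (b := 3) (c := 3) (cn := .pnn) (n1 := ndB1q0) (n2 := ndB7q3) (pc := pcB3) (cut := Cut.none) (xt := Ext.none) (P1 := 0) (W1 := 536870912) (P2 := 0) (W2 := 1230186008) (P3 := 697932185) (W3 := 42949674) (N0 := 3) (En := eng) (mo := mog) (C1 := cd1q0) (C2 := cd7q3) (C3 := pd3)
    rfl k0_pm_033

noncomputable def f_pm_101 : ℕ → ℕ → ℕ → ℕ → Bool := onCell 536870912 536870912 536870912 536870912 697932185 42949674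
    (rowB 3 eng mog cd1q1 cd7q1 pd0 0 false true false .npn 1 0 1 (qsf 536870912 536870912 536870912 536870912 0) ndB1q1 ndB7q1 pcB0 Cut.none Ext.none)

def k0_pm_101 : ∃ t, chk3 f_pm_101 t 1 1 1 = true :=
  ⟨(l 4), by decide +kernel⟩

theorem c_pm_101 : CertB 536870912 536870912 536870912 536870912 697932185 42949674 3 eng mog cd1q1 cd7q1 pd0 false true false .npn 1 0 1
    ndB1q1 ndB7q1 pcB0 Cut.none Ext.none :=
  certB0 (fam := false) (s1 := true) (s2 := false) (a := 1) (b := 0) (c := 1) (cn := .npn) (n1 := ndB1q1) (n2 := ndB7q1) (pc := pcB0) (cut := Cut.none) (xt := Ext.none) (P1 := 536870912) (W1 := 536870912) (P2 := 536870912) (W2 := 536870912) (P3 := 697932185) (W3 := 42949674) (N0 := 3) (En := eng) (mo := mog) (C1 := cd1q1) (C2 := cd7q1) (C3 := pd0)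
    rfl k0_pm_101

noncomputable def f_pm_102 : ℕ → ℕ → ℕ → ℕ → Bool := onCell 536870912 536870912 1073741824 536870912 697932185 42949674
    (rowB 3 eng mog cd1q1 cd7q2 pd0 0 false true false .npp 1 0 2 (qsf 536870912 536870912 1073741824 536870912 0) ndB1q1 ndB7q2 pcB0 Cut.none Ext.none)

def k0_pm_102 : ∃ t, chk3 f_pm_102 t 1 1 1 = true :=
  ⟨(a (l 4) (l 4)), by decide +kernel⟩

theorem c_pm_102 : CertB 536870912 536870912 1073741824 536870912 697932185 42949674 3 eng mog cd1q1 cd7q2 pd0 false true false .npp 1 0 2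
    ndB1q1 ndB7q2 pcB0 Cut.none Ext.none :=
  certB0 (fam := false) (s1 := true) (s2 := false) (a := 1) (b := 0) (c := 2) (cn := .npp) (n1 := ndB1q1) (n2 := ndB7q2) (pc := pcB0) (cut := Cut.none) (xt := Ext.none) (P1 := 536870912) (W1 := 536870912) (P2 := 1073741824) (W2 := 536870912) (P3 := 697932185) (W3 := 42949674) (N0 := 3) (En := eng) (mo := mog) (C1 := cd1q1) (C2 := cd7q2) (C3 := pd0)
    rfl k0_pm_102

noncomputable def f_pm_112 : ℕ → ℕ → ℕ → ℕ → Bool := onCell 536870912 536870912 1073741824 536870912 697932185 42949674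
    (rowB 3 eng mog cd1q1 cd7q2 pd1 0 false true false .dn 1 1 2 (qsf 536870912 536870912 1073741824 536870912 1) ndB1q1 ndB7q2 pcB1 Cut.none Ext.none)

def k0_pm_112 : ∃ t, chk3 f_pm_112 t 1 1 1 = true :=
  ⟨(b (l 4) (l 4)), by decide +kernel⟩

theorem c_pm_112 : CertB 536870912 536870912 1073741824 536870912 697932185 42949674 3 eng mog cd1q1 cd7q2 pd1 false true false .dn 1 1 2
    ndB1q1 ndB7q2 pcB1 Cut.none Ext.none :=
  certB0 (fam := false) (s1 := true) (s2 := false) (a := 1) (b := 1) (c := 2) (cn := .dn) (n1 := ndB1q1) (n2 := ndB7q2) (pc := pcB1) (cut := Cut.none) (xt := Ext.none) (P1 := 536870912) (W1 := 536870912) (P2 := 1073741824) (W2 := 536870912) (P3 := 697932185) (W3 := 42949674) (N0 := 3) (En := eng) (mo := mog) (C1 := cd1q1) (C2 := cd7q2) (C3 := pd1)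
    rfl k0_pm_112

noncomputable def f_pm_113 : ℕ → ℕ → ℕ → ℕ → Bool := onCell 536870912 536870912 0 1230186008 697932185 42949674
    (rowB 3 eng mog cd1q1 cd7q3 pd1 0 false true false .nn 1 1 3 (qsf 536870912 536870912 0 1230186008 1) ndB1q1 ndB7q3 pcB1 Cut.none Ext.none)

def k0_pm_113 : ∃ t, chk3 f_pm_113 t 1 1 1 = true :=
  ⟨(b (a (l 2) (a (l 2) (b (a (l 2) (a (l 2) (b (b (l 16832464) (l 16745400)) (l 16735280)))) (b (a (l 16622104) (l 16709144)) (a (l 16554816) (l 16677000)))))) (b (b (a (l 2) (a (a (l 2) (b (l 16337096) (l 16308720))) (a (b (l 16500848) (l 16463160)) (l 16624688)))) (a (l 4) (a (b (a (l 4) (l 16288792)) (l 35666795159)) (a (b (l 16568920) (l 16436216)) (b (l 16585632) (l 16591376)))))) (a (l 4) (a (l 4) (b (b (a (l 16461056) (l 16600952)) (a (l 16485336) (l 16624088))) (b (l 21709815159) (l 4))))))), by decide +kernel⟩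

theorem c_pm_113 : CertB 536870912 536870912 0 1230186008 697932185 42949674 3 eng mog cd1q1 cd7q3 pd1 false true false .nn 1 1 3
    ndB1q1 ndB7q3 pcB1 Cut.none Ext.none :=
  certB0 (fam := false) (s1 := true) (s2 := false) (a := 1) (b := 1) (c := 3) (cn := .nn) (n1 := ndB1q1) (n2 := ndB7q3) (pc := pcB1) (cut := Cut.none) (xt := Ext.none) (P1 := 536870912) (W1 := 536870912) (P2 := 0) (W2 := 1230186008) (P3 := 697932185) (W3 := 42949674) (N0 := 3) (En := eng) (mo := mog) (C1 := cd1q1) (C2 := cd7q3) (C3 := pd1)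
    rfl k0_pm_113

noncomputable def f_pm_123 : ℕ → ℕ → ℕ → ℕ → Bool := onCell 1073741824 536870912 0 1230186008 697932185 42949674
    (rowB 3 eng mog cd1q1 cd7q3 pd2 2 false true false .npn 1 2 3 (qsf 536870912 536870912 0 1230186008 2) ndB1q1 ndB7q3 pcB2 Cut.none Ext.none)

def k0_pm_123 : ∃ t, chk3 f_pm_123 t 1 1 1 = true :=
  ⟨(b (a (a (b (a (b (a (l 16733160) (l 16688352)) (l 16672232)) (b (l 16614584) (l 16570784))) (b (a (l 16750296) (b (l 16527552) (l 16478160))) (a (b (l 16537296) (l 16446208)) (l 16398784)))) (b (a (b (b (a (l 16738824) (l 16511360)) (l 16510584)) (a (l 16494592) (l 16457592))) (b (l 16519552) (l 16474648))) (b (a (l 16648976) (l 16421592)) (a (a (l 16333664) (l 16329320)) (l 16351400))))) (a (b (b (a (l 16540136) (l 16565696)) (a (l 16501392) (l 16531568))) (a (b (l 16451856) (l 16398336)) (b (l 16492856) (l 4)))) (b (a (b (l 16606712) (l 16566456)) (l 16628928)) (a (b (l 16535408) (l 4)) (l 4))))) (a (b (a (a (b (a (l 16324584)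 (l 16277528)) (a (l 16149920) (l 4))) (b (b (l 16270328) (l 16219296)) (l 4))) (b (a (a (l 16251760) (l 16265304)) (l 4)) (l 4))) (l 4)) (l 4))), by decide +kernel⟩

theorem c_pm_123 : CertB 536870912 536870912 0 1230186008 697932185 42949674 3 eng mog cd1q1 cd7q3 pd2 false true false .npn 1 2 3
    ndB1q1 ndB7q3 pcB2 Cut.none Ext.none :=
  certB2 (fam := false) (s1 := true) (s2 := false) (a := 1) (b := 2) (c := 3) (cn := .npn) (n1 := ndB1q1) (n2 := ndB7q3) (pc := pcB2) (cut := Cut.none) (xt := Ext.none) (P1 := 536870912) (W1 := 536870912) (P2 := 0) (W2 := 1230186008) (P3 := 697932185) (W3 := 42949674) (N0 := 3) (En := eng) (mo := mog) (C1 := cd1q1) (C2 := cd7q3) (C3 := pd2)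
    rfl (fun _ => rfl) k0_pm_123

noncomputable def f_pm_133 : ℕ → ℕ → ℕ → ℕ → Bool := onCell 1610612736 536870912 0 1230186008 697932185 42949674
    (rowB 3 eng mog cd1q1 cd7q3 pd3 2 false true false .dn 1 3 3 (qsf 536870912 536870912 0 1230186008 3) ndB1q1 ndB7q3 pcB3 Cut.none Ext.none)

def k0_pm_133 : ∃ t, chk3 f_pm_133 t 1 1 1 = true :=
  ⟨(b (a (a (b (a (l 16645008) (l 1)) (l 1)) (l 1)) (l 1)) (l 1)), by decide +kernel⟩

theorem c_pm_133 : CertB 536870912 536870912 0 1230186008 697932185 42949674 3 eng mog cd1q1 cd7q3 pd3 false true false .dn 1 3 3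
    ndB1q1 ndB7q3 pcB3 Cut.none Ext.none :=
  certB2 (fam := false) (s1 := true) (s2 := false) (a := 1) (b := 3) (c := 3) (cn := .dn) (n1 := ndB1q1) (n2 := ndB7q3) (pc := pcB3) (cut := Cut.none) (xt := Ext.none) (P1 := 536870912) (W1 := 536870912) (P2 := 0) (W2 := 1230186008) (P3 := 697932185) (W3 := 42949674) (N0 := 3) (En := eng) (mo := mog) (C1 := cd1q1) (C2 := cd7q3) (C3 := pd3)
    rfl (fun _ => rfl) k0_pm_133

noncomputable def f_pm_202_a : ℕ → ℕ → ℕ → ℕ → Bool := onCell 0 536870912 0 536870912 697932185 42949674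
    (rowB 3 eng mog cd1q2a cd7q2 pd0 1 false true false .pp 2 0 2 (qsf 0 536870912 1073741824 536870912 0) ndB1q2a ndB7q2 pcB0 Cut.none Ext.none)

def k0_pm_202_a : ∃ t, chk3 f_pm_202_a t 1 1 1 = true :=
  ⟨(a (b (b (b (a (a (b (l 16209232) (l 16275472)) (l 16176064)) (b (l 16120824) (l 16075224))) (a (b (a (l 16338272) (l 16289144)) (a (l 16400960) (l 16353752))) (b (l 16155096) (l 16236400)))) (b (a (b (l 16436856) (a (l 16498880) (l 16467544))) (a (b (l 16361952) (l 16418424)) (l 16555768))) (a (b (a (l 16534512) (l 16507744)) (a (l 16568392) (l 16542624))) (a (b (l 16464336) (l 16503504)) (b (l 16397784) (l 16441200)))))) (b (b (b (a (a (l 16601280) (l 16577256)) (a (l 16542096) (l 16483568))) (a (a (b (l 16624152) (l 16638248)) (b (l 16602312) (l 16617912))) (a (b (l 16568488) (l 16591704)) (b (l 16516344) (l 16548552))))) (b (a (a (b (l 16650072) (l 16659456)) (l 16846128)) (a (l 16612352) (b (l 16567248) (l 16577016)))) (a (b (l 16659192) (l 2))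 (b (a (l 16631648) (l 16590264)) (l 636292518247))))) (a (l 2) (b (b (l 845134972215) (l 2)) (l 2))))) (b (b (a (b (a (b (l 15802984) (l 15877528)) (l 4)) (a (l 16000480) (b (l 15823648) (l 15899240)))) (l 4)) (a (a (b (l 16195312) (l 16320136)) (b (a (l 16059544) (l 15990040)) (l 16195728))) (b (l 4) (a (l 16136496) (l 4))))) (b (b (a (a (b (l 16407128) (b (l 16441448) (l 16468192))) (l 16339672)) (a (l 16259776) (l 4))) (a (b (a (l 16654696) (l 16437304)) (a (b (l 16538984) (l 16564728)) (b (l 16482320) (l 16507488)))) (a (l 16407984) (b (l 16347496) (l 16422512))))) (a (b (b (a (l 16587712) (l 16540432)) (a (l 2) (l 16587552))) (l 2)) (b (a (b (l 16506056) (l 16562488)) (l 16540272)) (a (b (l 16621184) (l 2)) (a (l 16666752) (l 16614688)))))))), by decide +kernel⟩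

theorem c_pm_202_a : CertB 0 536870912 1073741824 536870912 697932185 42949674 3 eng mog cd1q2a cd7q2 pd0 false true false .pp 2 0 2
    ndB1q2a ndB7q2 pcB0 Cut.none Ext.none :=
  certB1 (fam := false) (s1 := true) (s2 := false) (a := 2) (b := 0) (c := 2) (cn := .pp) (n1 := ndB1q2a) (n2 := ndB7q2) (pc := pcB0) (cut := Cut.none) (xt := Ext.none) (P1 := 0) (W1 := 536870912) (P2 := 1073741824) (W2 := 536870912) (P3 := 697932185) (W3 := 42949674) (N0 := 3) (En := eng) (mo := mog) (C1 := cd1q2a) (C2 := cd7q2) (C3 := pd0)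
    rfl (fun _ => rfl) k0_pm_202_a

noncomputable def f_pm_202_b : ℕ → ℕ → ℕ → ℕ → Bool := onCell 0 536870912 1073741824 536870912 697932185 42949674
    (rowB 3 eng mog cd1q2b cd7q2 pd0 2 false true false .pp 2 0 2 (qsf 1239849684 370763052 1073741824 536870912 0) ndB1q2b ndB7q2 pcB0 Cut.none Ext.none)

def k0_pm_202_b : ∃ t, chk3 f_pm_202_b t 1 1 1 = true :=
  ⟨(a (b (a (b (l 1) (a (b (a (l 361347063623) (l 373695153655)) (a (l 16278400) (l 16314456))) (b (l 1) (l 362421097143)))) (l 1)) (b (a (a (b (l 16326448) (l 16286992)) (b (l 277058708583) (l 16379808))) (a (b (a (l 16463544) (l 306586734679)) (a (l 16456248) (l 16506312))) (b (l 1) (b (l 16547560) (l 16560384))))) (a (a (b (l 16152592) (l 16072576)) (b (l 16275808) (l 16183264))) (b (a (l 16397288) (l 248067138023)) (a (l 16307304) (b (l 16461048) (l 16431936))))))) (a (b (l 1) (b (l 1) (a (a (b (l 393559884791) (l 16571424)) (b (b (l 1) (l 16697416)) (b (l 16638400) (l 16617464)))) (b (l 1)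 (a (l 355442040775) (l 420940326423)))))) (l 1))), by decide +kernel⟩

theorem c_pm_202_b : CertB 1239849684 370763052 1073741824 536870912 697932185 42949674 3 eng mog cd1q2b cd7q2 pd0 false true false .pp 2 0 2
    ndB1q2b ndB7q2 pcB0 Cut.none Ext.none :=
  certB2 (fam := false) (s1 := true) (s2 := false) (a := 2) (b := 0) (c := 2) (cn := .pp) (n1 := ndB1q2b) (n2 := ndB7q2) (pc := pcB0) (cut := Cut.none) (xt := Ext.none) (P1 := 1239849684) (W1 := 370763052) (P2 := 1073741824) (W2 := 536870912) (P3 := 697932185) (W3 := 42949674) (N0 := 3) (En := eng) (mo := mog) (C1 := cd1q2b) (C2 := cd7q2) (C3 := pd0)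
    rfl (fun _ => rfl) k0_pm_202_b

noncomputable def f_pm_203_a : ℕ → ℕ → ℕ → ℕ → Bool := onCell 0 536870912 0 1230186008 697932185 42949674
    (rowB 3 eng mog cd1q2a cd7q3 pd0 0 false true false .up 2 0 3 (qsf 0 536870912 0 1230186008 0) ndB1q2a ndB7q3 pcB0 Cut.none Ext.none)

def k0_pm_203_a : ∃ t, chk3 f_pm_203_a t 1 1 1 = true :=
  ⟨(b (l 2) (b (l 2) (a (b (b (l 2) (a (a (b (l 2) (l 16751088)) (l 260483344375)) (a (l 16738944) (l 16733272)))) (b (a (a (b (l 16739560) (l 16722736)) (b (l 16725160) (l 16708392))) (b (l 16714328) (l 16927976))) (a (b (a (l 16703960) (l 16689064)) (a (l 16679672) (a (l 16668904) (l 16661624)))) (b (a (l 16673560) (l 16657944)) (a (l 16819048) (a (l 16638608) (l 16625536))))))) (b (l 2) (a (b (a (l 16697200) (l 16726784)) (b (a (l 16644464) (l 16652520)) (a (l 16605456) (l 16603112)))) (b (a (l 16743928) (l 2)) (b (a (l 16706928) (a (l 16725968) (l 2))) (a (l 16639632) (l 16681904))))))))), by decide +kernel⟩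

theorem c_pm_203_a : CertB 0 536870912 0 1230186008 697932185 42949674 3 eng mog cd1q2a cd7q3 pd0 false true false .up 2 0 3
    ndB1q2a ndB7q3 pcB0 Cut.none Ext.none :=
  certB0 (fam := false) (s1 := true) (s2 := false) (a := 2) (b := 0) (c := 3) (cn := .up) (n1 := ndB1q2a) (n2 := ndB7q3) (pc := pcB0) (cut := Cut.none) (xt := Ext.none) (P1 := 0) (W1 := 536870912) (P2 := 0) (W2 := 1230186008) (P3 := 697932185) (W3 := 42949674) (N0 := 3) (En := eng) (mo := mog) (C1 := cd1q2a) (C2 := cd7q3) (C3 := pd0)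
    rfl k0_pm_203_a

noncomputable def f_pm_203_b : ℕ → ℕ → ℕ → ℕ → Bool := onCell 0 536870912 0 1230186008 697932185 42949674
    (rowB 3 eng mog cd1q2b cd7q3 pd0 2 false true false .up 2 0 3 (qsf 1239849684 370763052 0 1230186008 0) ndB1q2b ndB7q3 pcB0 Cut.none Ext.none)

def k0_pm_203_b : ∃ t, chk3 f_pm_203_b t 1 1 1 = true :=
  ⟨(b (l 3) (b (a (l 3) (a (l 3) (b (l 3) (a (l 3) (b (l 3) (a (l 3) (l 198273279079))))))) (a (a (b (l 2) (b (a (l 2) (l 16290624)) (a (l 16003424) (l 16106512)))) (b (b (l 3) (a (a (l 16221120) (l 16276400)) (l 16366872))) (b (a (b (l 16218160) (l 16218440)) (l 16354144)) (a (a (l 16197552) (l 16260184)) (b (l 16377064) (l 16407848)))))) (a (b (a (b (l 132237783047) (l 16587256)) (a (b (l 16571456) (l 16557368)) (b (l 16605704) (l 16599192)))) (b (b (l 16540744) (l 16548240)) (a (b (l 16508648) (l 16524256)) (b (l 16636320) (l 229277177447))))) (b (a (b (a (l 16633984) (a (l 16743656) (l 131701149591))) (b (b (l 16652728) (l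 16656408)) (l 16653352))) (b (b (b (l 16694720) (l 16698952)) (b (l 16704200) (l 16704368))) (l 16742344))) (b (a (l 16621816) (l 474627353303)) (a (l 435436230007) (l 1)))))))), by decide +kernel⟩

theorem c_pm_203_b : CertB 1239849684 370763052 0 1230186008 697932185 42949674 3 eng mog cd1q2b cd7q3 pd0 false true false .up 2 0 3
    ndB1q2b ndB7q3 pcB0 Cut.none Ext.none :=
  certB2 (fam := false) (s1 := true) (s2 := false) (a := 2) (b := 0) (c := 3) (cn := .up) (n1 := ndB1q2b) (n2 := ndB7q3) (pc := pcB0) (cut := Cut.none) (xt := Ext.none) (P1 := 1239849684) (W1 := 370763052) (P2 := 0) (W2 := 1230186008) (P3 := 697932185) (W3 := 42949674) (N0 := 3) (En := eng) (mo := mog) (C1 := cd1q2b) (C2 := cd7q3) (C3 := pd0)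
    rfl (fun _ => rfl) k0_pm_203_b

noncomputable def cut_pm_213_a : Cut := Cut.of [[⟨0, 1, 0, 67108864⟩, ⟨1, 1, 0, 67108864⟩, ⟨2, 2, 0, 16777216⟩]]

noncomputable def f_pm_213_a : ℕ → ℕ → ℕ → ℕ → Bool := onCell 0 536870912 0 1230186008 697932185 42949674
    (rowB 3 eng mog cd1q2a cd7q3 pd1 0 false true false .pnn 2 1 3 (qsf 0 536870912 0 1230186008 1) ndB1q2a ndB7q3 pcB1 cut_pm_213_a Ext.none)

def k0_pm_213_a : ∃ t, chk3 f_pm_213_a t 2 2 1 = true :=
  ⟨(b (l 3) (a (l 3) (b (a (l 3) (b (l 3) (a (l 3) (b (l 3) (l 3))))) (b (a (l 3) (a (b (l 3) (a (l 3) (b (l 298667988679) (a (l 302426088887) (l 262697614823))))) (b (a (b (l 3) (l 304573570599)) (b (l 289541185607) (a (l 250886459735) (l 16773184)))) (a (b (a (l 287393732071) (l 16774896)) (l 16771072)) (b (l 16769784) (l 16765488)))))) (a (b (a (l 3) (a (l 3) (b (l 3) (l 280951252135)))) (a (l 357186947879) (a (b (l 287930572823) (l 270213856007)) (b (a (l 287393704919) (l 16773512)) (l 16769736)))))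 (a (b (a (b (a (l 280951250999) (l 287393704551)) (a (l 256792086407) (l 16771920))) (b (l 16772768) (l 16765544))) (a (l 16763488) (l 16756752))) (b (b (l 16762624) (l 16756640)) (l 16728176)))))))), by decide +kernel⟩

def k1_pm_213_a : ∃ t, chk3 f_pm_213_a t 3 4 1 = true :=
  ⟨(a (b (l 3) (a (l 3) (b (l 3) (a (b (l 3) (a (l 3) (b (l 3) (a (l 3) (l 314237251095))))) (b (a (l 3) (b (a (l 3) (l 300815478327)) (a (b (l 306184187095) (l 278803770759)) (l 272898191735)))) (a (b (a (l 322827185303) (b (l 291688673079) (l 272898188967))) (a (b (l 305110452647) (l 16775704)) (l 16774472))) (b (a (l 261087031799) (l 16773728)) (l 16773336)))))))) (a (a (b (l 3) (b (b (a (l 3) (b (l 3) (a (l 3) (b (l 3) (l 314774122519))))) (a (b (l 3) (a (l 344838894199) (b (l 305110447799) (l 267529484759)))) (b (a (b (l 342154538615) (l 286319966567)) (b (l 280951269095) (l 16777336))) (a (l 246054655671) (l 16776984))))) (b (a (b (a (b (l 288467447927) (l 16775120)) (l 16775152))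 (l 16774456)) (l 16776312)) (a (l 16774056) (l 16775680))))) (b (l 6) (b (a (a (b (b (l 363092502247) (b (l 292225546535) (l 16776920))) (l 16776256)) (b (l 6) (l 16775304))) (l 6)) (b (l 16774336) (l 16772424))))) (b (l 6) (b (b (l 6) (a (l 16771440) (l 16765752))) (a (b (l 16770072) (l 16767544)) (l 16764056)))))), by decide +kernel⟩

def k2_pm_213_a : ∃ t, chk3 f_pm_213_a t 3 5 1 = true :=
  ⟨(a (b (a (b (a (l 3) (b (l 3) (a (b (l 3) (l 319605955127)) (b (c (l 309405420695) (l 308868540135)) (a (b (l 303499831623) (l 262160766487)) (l 250349604391)))))) (a (b (a (l 3) (b (l 3) (l 298131129079))) (a (b (l 313700373367) (a (l 289541185271) (l 240685925303))) (b (a (l 269676970247) (l 16772952)) (l 16770208)))) (b (a (b (a (l 301352345575) (l 263234522231)) (a (l 243370284599) (l 16772016))) (b (l 16771864) (l 16768976))) (a (l 16767424) (l 16765064))))) (b (a (b (a (b (l 351281340327) (a (l 312626637079) (b (l 305647316583) (l 261623896055)))) (b (a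 (b (l 322290314599) (l 303499839879)) (b (l 269676971111) (l 16775240))) (a (l 16774984) (l 16773656)))) (a (b (a (c (l 259476425063) (l 222432335639)) (l 16773528)) (l 16771728)) (l 16771472))) (b (a (b (l 16774064) (l 16773072)) (l 16772488)) (l 16770344))) (a (b (a (l 16768248) (l 16766800)) (l 16762976)) (b (l 16767432) (l 16762024))))) (a (b (b (a (a (b (l 16772496) (l 16767752)) (l 16764720)) (l 16759296)) (a (l 16780160) (l 16754904))) (a (b (l 16752880) (l 16742856)) (l 16743160))) (b (b (a (l 16758144) (l 16756264)) (l 16748880)) (l 16739528)))) (b (a (b (a (b (l 16773192) (l 16770512)) (l 16768168)) (l 16761808)) (b (l 16763408) (l 16756056))) (a (b (l 16751400) (l 16742384)) (b (l 16748320) (l 16733336))))), by decide +kernel⟩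

def k3_pm_213_a : ∃ t, chk3 f_pm_213_a t 2 12 1 = true :=
  ⟨(a (b (a (l 3) (a (l 3) (b (l 3) (a (b (l 3) (l 351818231607)) (b (l 334101492503) (b (l 289541210759) (l 254644557943))))))) (a (a (l 3) (b (l 3) (a (l 3) (b (l 3) (a (l 3) (b (l 360945018951) (a (l 311016025671) (l 275582547031)))))))) (b (a (a (l 3) (b (l 3) (a (b (l 3) (l 312089766823)) (b (l 307257929095) (l 16776704))))) (a (b (a (b (l 349670728983) (l 272898191335)) (b (l 273971933159) (l 16776360))) (a (l 16775808) (l 16772776))) (b (l 16772320) (l 16767944)))) (a (a (b (a (l 363092501639) (b (l 349133859351) (l 267529483815))) (a (b (l 299204877511) (l 16777584)) (l 16775656))) (b (a (b (l 265918864247) (l 16775976)) (l 16774312)) (l 16771496))) (b (l 16766840) (l 16762064)))))) (b (a (b (a (a (b (l 3) (a (l 334101471191) (l 290078059143))) (b (a (l 293836154071) (l 270750706711)) (l 242296528567))) (a (b (l 16772016) (l 16765656)) (l 16760536))) (a (a (b (a (l 273971933319) (l 16774128))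 (l 16770240)) (l 16765664)) (l 16753400))) (b (a (a (l 16752064) (l 16746816)) (l 16742160)) (a (l 16742600) (l 16732704)))) (a (b (a (l 16758864) (l 16747456)) (a (l 16752280) (l 16737600))) (l 16724864)))), by decide +kernel⟩

def k4_pm_213_a : ∃ t, chk3 f_pm_213_a t 2 13 1 = true :=
  ⟨(a (b (a (b (a (a (l 3) (b (l 3) (b (l 3) (l 384030469207)))) (a (b (a (l 3) (b (l 3) (a (l 3) (l 306721059367)))) (a (b (l 355576312055) (b (l 297057389223) (l 263771386471))) (b (b (l 294373029559) (l 16776672)) (l 16776944)))) (b (a (b (a (l 352355085863) (l 305110446823)) (a (l 271287579511) (l 16777744))) (b (l 249275861111) (l 16775856))) (l 16773824)))) (a (a (b (l 3) (a (b (l 3) (a (l 379735504583) (b (l 364703119495) (a (b (l 362555635943) (l 331953994071)) (l 285246219047))))) (b (a (l 368461215511) (b (l 344302019319) (l 294373029799))) (a (b (b (l 327122150455) (l 280414381047)) (l 16777664)) (l 16777280))))) (b (a (b (l 380809244951) (a (c (l 349133862647)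 (l 343765153319)) (b (l 304573566343) (l 16771048)))) (b (a (b (l 367924343751) (l 308868544039)) (b (l 298131125751) (l 16776760))) (l 16777760))) (a (b (b (l 262697642039) (l 16777224)) (l 16775336)) (l 16774016)))) (b (a (b (l 16775880) (l 16773528)) (l 16769352)) (l 16767656)))) (a (b (b (l 16769888) (l 16765496)) (l 16758624)) (b (l 16756080) (l 16749536)))) (a (b (a (a (b (a (b (a (b (b (l 344302022727) (a (l 341617670759) (l 16776576))) (l 16777480)) (l 16777256)) (l 16775472)) (l 16774360)) (l 16771408)) (l 16769048)) (l 16760808)) (a (l 16762720) (l 16757784))) (a (b (l 16754296) (l 16746368)) (l 16739160)))) (b (a (l 16732536) (l 16709400)) (a (b (l 16720752) (l 16718632)) (l 16720880)))), by decide +kernel⟩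

def k5_pm_213_a : ∃ t, chk3 f_pm_213_a t 3 6 1 = true :=
  ⟨(b (a (b (a (l 16728840) (l 16669504)) (a (l 16716120) (l 16719296))) (a (b (l 16729880) (l 16720960)) (b (l 16723048) (l 16708192)))) (a (b (a (l 16724936) (l 16709176)) (a (l 16694448) (l 16700176))) (b (a (l 16710944) (l 16703040)) (a (l 16712104) (l 16696952))))), by decide +kernel⟩

def k6_pm_213_a : ∃ t, chk3 f_pm_213_a t 1 7 1 = true :=
  ⟨(b (a (a (b (a (b (a (b (l 16761200) (l 16756464)) (l 16749296)) (l 16745840)) (b (l 16731944) (l 16728168))) (a (b (l 16732992) (l 16723920)) (l 16730400))) (b (a (l 16727528) (l 16686792)) (a (l 16685816) (l 16676368)))) (a (b (a (l 16686792) (l 16701656)) (b (l 16685728) (l 16660424))) (b (l 16749120) (l 16719664)))) (a (a (l 1) (b (b (l 16875696) (l 1)) (l 1))) (a (b (a (l 16648688) (l 16692000)) (l 1)) (b (a (l 16671784) (l 16676480)) (a (l 16661048) (l 16649896)))))), by decide +kernel⟩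

theorem s7_pm_213_a : ∃ t, chk3 f_pm_213_a t 2 6 1 = true := ex3_b k3_pm_213_a k4_pm_213_a

theorem s8_pm_213_a : ∃ t, chk3 f_pm_213_a t 1 6 1 = true := ex3_a s7_pm_213_a k5_pm_213_a

theorem s9_pm_213_a : ∃ t, chk3 f_pm_213_a t 1 3 1 = true := ex3_b s8_pm_213_a k6_pm_213_a

theorem s10_pm_213_a : ∃ t, chk3 f_pm_213_a t 3 2 1 = true := ex3_b k1_pm_213_a k2_pm_213_a

theorem s11_pm_213_a : ∃ t, chk3 f_pm_213_a t 1 2 1 = true := ex3_a k0_pm_213_a s10_pm_213_a

theorem s12_pm_213_a : ∃ t, chk3 f_pm_213_a t 1 1 1 = true := ex3_b s11_pm_213_a s9_pm_213_a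

theorem c_pm_213_a : CertB 0 536870912 0 1230186008 697932185 42949674 3 eng mog cd1q2a cd7q3 pd1 false true false .pnn 2 1 3
    ndB1q2a ndB7q3 pcB1 cut_pm_213_a Ext.none :=
  certB0 (fam := false) (s1 := true) (s2 := false) (a := 2) (b := 1) (c := 3) (cn := .pnn) (n1 := ndB1q2a) (n2 := ndB7q3) (pc := pcB1) (cut := cut_pm_213_a) (xt := Ext.none) (P1 := 0) (W1 := 536870912) (P2 := 0) (W2 := 1230186008) (P3 := 697932185) (W3 := 42949674) (N0 := 3) (En := eng) (mo := mog) (C1 := cd1q2a) (C2 := cd7q3) (C3 := pd1)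
    rfl s12_pm_213_a

noncomputable def cut_pm_213_b : Cut := Cut.of [[⟨0, 1, 0, 67108864⟩, ⟨1, 1, 0, 67108864⟩, ⟨2, 2, 0, 16777216⟩]]

noncomputable def f_pm_213_b : ℕ → ℕ → ℕ → ℕ → Bool := onCell 1239849684 370763052 0 1230186008 697932185 42949674
    (rowB 3 eng mog cd1q2b cd7q3 pd1 0 false true false .pnn 2 1 3 (qsf 1239849684 370763052 0 1230186008 1) ndB1q2b ndB7q3 pcB1 cut_pm_213_b Ext.none)

def k0_pm_213_b : ∃ t, chk3 f_pm_213_b t 1 1 1 = true :=
  ⟨(b (l 3) (b (a (b (l 3) (a (b (l 3) (a (a (b (a (b (b (b (l 3) (a (b (l 295446770087) (l 16774920)) (l 3))) (l 16773560)) (l 16777056)) (b (l 345912619575) (l 16766872))) (l 16776768)) (b (l 337322681495) (l 16755360))) (b (l 3) (a (l 270213641751) (l 16727344))))) (b (l 3) (a (b (l 3) (b (l 3) (l 16700848))) (l 1))))) (l 3)) (a (b (a (b (a (b (a (l 16774624) (l 16759880)) (l 16769456)) (b (l 16730768) (l 16725600))) (a (l 16754008) (l 1))) (l 1)) (l 1)) (l 1)))), by decide +kernel⟩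

theorem c_pm_213_b : CertB 1239849684 370763052 0 1230186008 697932185 42949674 3 eng mog cd1q2b cd7q3 pd1 false true false .pnn 2 1 3
    ndB1q2b ndB7q3 pcB1 cut_pm_213_b Ext.none :=
  certB0 (fam := false) (s1 := true) (s2 := false) (a := 2) (b := 1) (c := 3) (cn := .pnn) (n1 := ndB1q2b) (n2 := ndB7q3) (pc := pcB1) (cut := cut_pm_213_b) (xt := Ext.none) (P1 := 1239849684) (W1 := 370763052) (P2 := 0) (W2 := 1230186008) (P3 := 697932185) (W3 := 42949674) (N0 := 3) (En := eng) (mo := mog) (C1 := cd1q2b) (C2 := cd7q3) (C3 := pd1)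
    rfl k0_pm_213_b

noncomputable def f_pm_303 : ℕ → ℕ → ℕ → ℕ → Bool := onCell 0 536870912 0 1230186008 697932185 42949674
    (rowB 3 eng mog cd1q3 cd7q3 pd0 2 false true false .npn 3 0 3 (qsf 1610612736 536870912 0 1230186008 0) ndB1q3 ndB7q3 pcB0 Cut.none Ext.none)

def k0_pm_303 : ∃ t, chk3 f_pm_303 t 1 1 1 = true :=
  ⟨(b (l 3) (b (a (l 3) (a (l 3) (b (l 3) (l 1)))) (a (a (b (b (l 3) (a (b (l 16036400) (l 15991312)) (l 16131712))) (b (a (l 15969128) (a (l 16056888) (l 16125584))) (a (l 16004048) (l 16110432)))) (b (b (l 3) (a (a (l 16220912) (l 16278520)) (l 1))) (b (a (b (l 16221960) (l 1)) (l 1)) (l 1)))) (l 1)))), by decide +kernel⟩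

theorem c_pm_303 : CertB 1610612736 536870912 0 1230186008 697932185 42949674 3 eng mog cd1q3 cd7q3 pd0 false true false .npn 3 0 3
    ndB1q3 ndB7q3 pcB0 Cut.none Ext.none :=
  certB2 (fam := false) (s1 := true) (s2 := false) (a := 3) (b := 0) (c := 3) (cn := .npn) (n1 := ndB1q3) (n2 := ndB7q3) (pc := pcB0) (cut := Cut.none) (xt := Ext.none) (P1 := 1610612736) (W1 := 536870912) (P2 := 0) (W2 := 1230186008) (P3 := 697932185) (W3 := 42949674) (N0 := 3) (En := eng) (mo := mog) (C1 := cd1q3) (C2 := cd7q3) (C3 := pd0)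
    rfl (fun _ => rfl) k0_pm_303

noncomputable def f_pm_313 : ℕ → ℕ → ℕ → ℕ → Bool := onCell 1610612736 536870912 0 1230186008 697932185 42949674
    (rowB 3 eng mog cd1q3 cd7q3 pd1 0 false true false .dn 3 1 3 (qsf 1610612736 536870912 0 1230186008 1) ndB1q3 ndB7q3 pcB1 Cut.none Ext.none)

def k0_pm_313 : ∃ t, chk3 f_pm_313 t 1 1 1 = true :=
  ⟨(b (l 3) (l 1)), by decide +kernel⟩

theorem c_pm_313 : CertB 1610612736 536870912 0 1230186008 697932185 42949674 3 eng mog cd1q3 cd7q3 pd1 false true false .dn 3 1 3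
    ndB1q3 ndB7q3 pcB1 Cut.none Ext.none :=
  certB0 (fam := false) (s1 := true) (s2 := false) (a := 3) (b := 1) (c := 3) (cn := .dn) (n1 := ndB1q3) (n2 := ndB7q3) (pc := pcB1) (cut := Cut.none) (xt := Ext.none) (P1 := 1610612736) (W1 := 536870912) (P2 := 0) (W2 := 1230186008) (P3 := 697932185) (W3 := 42949674) (N0 := 3) (En := eng) (mo := mog) (C1 := cd1q3) (C2 := cd7q3) (C3 := pd1)
    rfl k0_pm_313

noncomputable def f_mm_001 : ℕ → ℕ → ℕ → ℕ → Bool := onCell 0 536870912 0 536870912 697932185 42949674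
    (rowB 3 eng mog cd1q0 cd7q1 pd0 1 false false false .up 0 0 1 (qsf 0 536870912 536870912 536870912 0) ndB1q0 ndB7q1 pcB0 Cut.none Ext.none)

def k0_mm_001 : ∃ t, chk3 f_mm_001 t 1 1 1 = true :=
  ⟨(l 3), by decide +kernel⟩

theorem c_mm_001 : CertB 0 536870912 536870912 536870912 697932185 42949674 3 eng mog cd1q0 cd7q1 pd0 false false false .up 0 0 1
    ndB1q0 ndB7q1 pcB0 Cut.none Ext.none :=
  certB1 (fam := false) (s1 := false) (s2 := false) (a := 0) (b := 0) (c := 1) (cn := .up) (n1 := ndB1q0) (n2 := ndB7q1) (pc := pcB0) (cut := Cut.none) (xt := Ext.none) (P1 := 0) (W1 := 536870912) (P2 := 536870912) (W2 := 536870912) (P3 := 697932185) (W3 := 42949674) (N0 := 3) (En := eng) (mo := mog) (C1 := cd1q0) (C2 := cd7q1) (C3 := pd0)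
    rfl (fun _ => rfl) k0_mm_001

noncomputable def f_mm_011 : ℕ → ℕ → ℕ → ℕ → Bool := onCell 0 536870912 536870912 536870912 697932185 42949674
    (rowB 3 eng mog cd1q0 cd7q1 pd1 1 false false false .pnn 0 1 1 (qsf 0 536870912 536870912 536870912 1) ndB1q0 ndB7q1 pcB1 Cut.none Ext.none)

def k0_mm_011 : ∃ t, chk3 f_mm_011 t 1 1 1 = true :=
  ⟨(l 5), by decide +kernel⟩

theorem c_mm_011 : CertB 0 536870912 536870912 536870912 697932185 42949674 3 eng mog cd1q0 cd7q1 pd1 false false false .pnn 0 1 1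
    ndB1q0 ndB7q1 pcB1 Cut.none Ext.none :=
  certB1 (fam := false) (s1 := false) (s2 := false) (a := 0) (b := 1) (c := 1) (cn := .pnn) (n1 := ndB1q0) (n2 := ndB7q1) (pc := pcB1) (cut := Cut.none) (xt := Ext.none) (P1 := 0) (W1 := 536870912) (P2 := 536870912) (W2 := 536870912) (P3 := 697932185) (W3 := 42949674) (N0 := 3) (En := eng) (mo := mog) (C1 := cd1q0) (C2 := cd7q1) (C3 := pd1)
    rfl (fun _ => rfl) k0_mm_011

noncomputable def f_mm_012 : ℕ → ℕ → ℕ → ℕ → Bool := onCell 0 536870912 1073741824 536870912 697932185 42949674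
    (rowB 3 eng mog cd1q0 cd7q2 pd1 0 false false false .pnp 0 1 2 (qsf 0 536870912 1073741824 536870912 1) ndB1q0 ndB7q2 pcB1 Cut.none Ext.none)

def k0_mm_012 : ∃ t, chk3 f_mm_012 t 1 1 1 = true :=
  ⟨(l 5), by decide +kernel⟩

theorem c_mm_012 : CertB 0 536870912 1073741824 536870912 697932185 42949674 3 eng mog cd1q0 cd7q2 pd1 false false false .pnp 0 1 2
    ndB1q0 ndB7q2 pcB1 Cut.none Ext.none :=
  certB0 (fam := false) (s1 := false) (s2 := false) (a := 0) (b := 1) (c := 2) (cn := .pnp) (n1 := ndB1q0) (n2 := ndB7q2) (pc := pcB1) (cut := Cut.none) (xt := Ext.none) (P1 := 0) (W1 := 536870912) (P2 := 1073741824) (W2 := 536870912) (P3 := 697932185) (W3 := 42949674) (N0 := 3) (En := eng) (mo := mog) (C1 := cd1q0) (C2 := cd7q2) (C3 := pd1)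
    rfl k0_mm_012

noncomputable def f_mm_022 : ℕ → ℕ → ℕ → ℕ → Bool := onCell 0 536870912 1073741824 536870912 697932185 42949674
    (rowB 3 eng mog cd1q0 cd7q2 pd2 0 false false false .pp 0 2 2 (qsf 0 536870912 1073741824 536870912 2) ndB1q0 ndB7q2 pcB2 Cut.none Ext.none)

def k0_mm_022 : ∃ t, chk3 f_mm_022 t 1 1 1 = true :=
  ⟨(l 5), by decide +kernel⟩

theorem c_mm_022 : CertB 0 536870912 1073741824 536870912 697932185 42949674 3 eng mog cd1q0 cd7q2 pd2 false false false .pp 0 2 2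
    ndB1q0 ndB7q2 pcB2 Cut.none Ext.none :=
  certB0 (fam := false) (s1 := false) (s2 := false) (a := 0) (b := 2) (c := 2) (cn := .pp) (n1 := ndB1q0) (n2 := ndB7q2) (pc := pcB2) (cut := Cut.none) (xt := Ext.none) (P1 := 0) (W1 := 536870912) (P2 := 1073741824) (W2 := 536870912) (P3 := 697932185) (W3 := 42949674) (N0 := 3) (En := eng) (mo := mog) (C1 := cd1q0) (C2 := cd7q2) (C3 := pd2)
    rfl k0_mm_022

noncomputable def f_mm_023 : ℕ → ℕ → ℕ → ℕ → Bool := onCell 0 536870912 0 1230186008 697932185 42949674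
    (rowB 3 eng mog cd1q0 cd7q3 pd2 0 false false false .up 0 2 3 (qsf 0 536870912 0 1230186008 2) ndB1q0 ndB7q3 pcB2 Cut.none Ext.none)

def k0_mm_023 : ∃ t, chk3 f_mm_023 t 1 1 1 = true :=
  ⟨(l 5), by decide +kernel⟩

theorem c_mm_023 : CertB 0 536870912 0 1230186008 697932185 42949674 3 eng mog cd1q0 cd7q3 pd2 false false false .up 0 2 3
    ndB1q0 ndB7q3 pcB2 Cut.none Ext.none :=
  certB0 (fam := false) (s1 := false) (s2 := false) (a := 0) (b := 2) (c := 3) (cn := .up) (n1 := ndB1q0) (n2 := ndB7q3) (pc := pcB2) (cut := Cut.none) (xt := Ext.none) (P1 := 0) (W1 := 536870912) (P2 := 0) (W2 := 1230186008) (P3 := 697932185) (W3 := 42949674) (N0 := 3) (En := eng) (mo := mog) (C1 := cd1q0) (C2 := cd7q3) (C3 := pd2)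
    rfl k0_mm_023

noncomputable def f_mm_033 : ℕ → ℕ → ℕ → ℕ → Bool := onCell 0 536870912 0 1230186008 697932185 42949674
    (rowB 3 eng mog cd1q0 cd7q3 pd3 0 false false false .pnn 0 3 3 (qsf 0 536870912 0 1230186008 3) ndB1q0 ndB7q3 pcB3 Cut.none Ext.none)

def k0_mm_033 : ∃ t, chk3 f_mm_033 t 1 1 1 = true :=
  ⟨(l 5), by decide +kernel⟩

theorem c_mm_033 : CertB 0 536870912 0 1230186008 697932185 42949674 3 eng mog cd1q0 cd7q3 pd3 false false false .pnn 0 3 3
    ndB1q0 ndB7q3 pcB3 Cut.none Ext.none :=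
  certB0 (fam := false) (s1 := false) (s2 := false) (a := 0) (b := 3) (c := 3) (cn := .pnn) (n1 := ndB1q0) (n2 := ndB7q3) (pc := pcB3) (cut := Cut.none) (xt := Ext.none) (P1 := 0) (W1 := 536870912) (P2 := 0) (W2 := 1230186008) (P3 := 697932185) (W3 := 42949674) (N0 := 3) (En := eng) (mo := mog) (C1 := cd1q0) (C2 := cd7q3) (C3 := pd3)
    rfl k0_mm_033

noncomputable def f_mm_101 : ℕ → ℕ → ℕ → ℕ → Bool := onCell 536870912 536870912 0 536870912 697932185 42949674
    (rowB 3 eng mog cd1q1 cd7q1 pd0 1 false false false .npn 1 0 1 (qsf 536870912 536870912 536870912 536870912 0) ndB1q1 ndB7q1 pcB0 Cut.none Ext.none)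

def k0_mm_101 : ∃ t, chk3 f_mm_101 t 1 1 1 = true :=
  ⟨(l 3), by decide +kernel⟩

theorem c_mm_101 : CertB 536870912 536870912 536870912 536870912 697932185 42949674 3 eng mog cd1q1 cd7q1 pd0 false false false .npn 1 0 1
    ndB1q1 ndB7q1 pcB0 Cut.none Ext.none :=
  certB1 (fam := false) (s1 := false) (s2 := false) (a := 1) (b := 0) (c := 1) (cn := .npn) (n1 := ndB1q1) (n2 := ndB7q1) (pc := pcB0) (cut := Cut.none) (xt := Ext.none) (P1 := 536870912) (W1 := 536870912) (P2 := 536870912) (W2 := 536870912) (P3 := 697932185) (W3 := 42949674) (N0 := 3) (En := eng) (mo := mog) (C1 := cd1q1) (C2 := cd7q1) (C3 := pd0)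
    rfl (fun _ => rfl) k0_mm_101

noncomputable def f_mm_102 : ℕ → ℕ → ℕ → ℕ → Bool := onCell 536870912 536870912 0 536870912 697932185 42949674
    (rowB 3 eng mog cd1q1 cd7q2 pd0 1 false false false .npp 1 0 2 (qsf 536870912 536870912 1073741824 536870912 0) ndB1q1 ndB7q2 pcB0 Cut.none Ext.none)

def k0_mm_102 : ∃ t, chk3 f_mm_102 t 1 1 1 = true :=
  ⟨(l 3), by decide +kernel⟩

theorem c_mm_102 : CertB 536870912 536870912 1073741824 536870912 697932185 42949674 3 eng mog cd1q1 cd7q2 pd0 false false false .npp 1 0 2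
    ndB1q1 ndB7q2 pcB0 Cut.none Ext.none :=
  certB1 (fam := false) (s1 := false) (s2 := false) (a := 1) (b := 0) (c := 2) (cn := .npp) (n1 := ndB1q1) (n2 := ndB7q2) (pc := pcB0) (cut := Cut.none) (xt := Ext.none) (P1 := 536870912) (W1 := 536870912) (P2 := 1073741824) (W2 := 536870912) (P3 := 697932185) (W3 := 42949674) (N0 := 3) (En := eng) (mo := mog) (C1 := cd1q1) (C2 := cd7q2) (C3 := pd0)
    rfl (fun _ => rfl) k0_mm_102

noncomputable def f_mm_112 : ℕ → ℕ → ℕ → ℕ → Bool := onCell 536870912 536870912 1073741824 536870912 697932185 42949674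
    (rowB 3 eng mog cd1q1 cd7q2 pd1 0 false false false .dn 1 1 2 (qsf 536870912 536870912 1073741824 536870912 1) ndB1q1 ndB7q2 pcB1 Cut.none Ext.none)

def k0_mm_112 : ∃ t, chk3 f_mm_112 t 1 1 1 = true :=
  ⟨(a (l 3) (l 3)), by decide +kernel⟩

theorem c_mm_112 : CertB 536870912 536870912 1073741824 536870912 697932185 42949674 3 eng mog cd1q1 cd7q2 pd1 false false false .dn 1 1 2
    ndB1q1 ndB7q2 pcB1 Cut.none Ext.none :=
  certB0 (fam := false) (s1 := false) (s2 := false) (a := 1) (b := 1) (c := 2) (cn := .dn) (n1 := ndB1q1) (n2 := ndB7q2) (pc := pcB1) (cut := Cut.none) (xt := Ext.none) (P1 := 536870912) (W1 := 536870912) (P2 := 1073741824) (W2 := 536870912) (P3 := 697932185) (W3 := 42949674) (N0 := 3) (En := eng) (mo := mog) (C1 := cd1q1) (C2 := cd7q2) (C3 := pd1)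
    rfl k0_mm_112

noncomputable def f_mm_113 : ℕ → ℕ → ℕ → ℕ → Bool := onCell 536870912 536870912 0 1230186008 697932185 42949674
    (rowB 3 eng mog cd1q1 cd7q3 pd1 0 false false false .nn 1 1 3 (qsf 536870912 536870912 0 1230186008 1) ndB1q1 ndB7q3 pcB1 Cut.none Ext.none)

def k0_mm_113 : ∃ t, chk3 f_mm_113 t 1 1 1 = true :=
  ⟨(b (l 5) (b (l 5) (a (l 5) (l 3)))), by decide +kernel⟩

theorem c_mm_113 : CertB 536870912 536870912 0 1230186008 697932185 42949674 3 eng mog cd1q1 cd7q3 pd1 false false false .nn 1 1 3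
    ndB1q1 ndB7q3 pcB1 Cut.none Ext.none :=
  certB0 (fam := false) (s1 := false) (s2 := false) (a := 1) (b := 1) (c := 3) (cn := .nn) (n1 := ndB1q1) (n2 := ndB7q3) (pc := pcB1) (cut := Cut.none) (xt := Ext.none) (P1 := 536870912) (W1 := 536870912) (P2 := 0) (W2 := 1230186008) (P3 := 697932185) (W3 := 42949674) (N0 := 3) (En := eng) (mo := mog) (C1 := cd1q1) (C2 := cd7q3) (C3 := pd1)
    rfl k0_mm_113

noncomputable def f_mm_123 : ℕ → ℕ → ℕ → ℕ → Bool := onCell 1073741824 536870912 0 1230186008 697932185 42949674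
    (rowB 3 eng mog cd1q1 cd7q3 pd2 2 false false false .npn 1 2 3 (qsf 536870912 536870912 0 1230186008 2) ndB1q1 ndB7q3 pcB2 Cut.none Ext.none)

def k0_mm_123 : ∃ t, chk3 f_mm_123 t 1 1 1 = true :=
  ⟨(b (l 5) (l 5)), by decide +kernel⟩

theorem c_mm_123 : CertB 536870912 536870912 0 1230186008 697932185 42949674 3 eng mog cd1q1 cd7q3 pd2 false false false .npn 1 2 3
    ndB1q1 ndB7q3 pcB2 Cut.none Ext.none :=
  certB2 (fam := false) (s1 := false) (s2 := false) (a := 1) (b := 2) (c := 3) (cn := .npn) (n1 := ndB1q1) (n2 := ndB7q3) (pc := pcB2) (cut := Cut.none) (xt := Ext.none) (P1 := 536870912) (W1 := 536870912) (P2 := 0) (W2 := 1230186008) (P3 := 697932185) (W3 := 42949674) (N0 := 3) (En := eng) (mo := mog) (C1 := cd1q1) (C2 := cd7q3) (C3 := pd2)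
    rfl (fun _ => rfl) k0_mm_123

noncomputable def f_mm_133 : ℕ → ℕ → ℕ → ℕ → Bool := onCell 536870912 536870912 0 1230186008 697932185 42949674
    (rowB 3 eng mog cd1q1 cd7q3 pd3 0 false false false .dn 1 3 3 (qsf 536870912 536870912 0 1230186008 3) ndB1q1 ndB7q3 pcB3 Cut.none Ext.none)

def k0_mm_133 : ∃ t, chk3 f_mm_133 t 1 1 1 = true :=
  ⟨(b (l 5) (l 1)), by decide +kernel⟩

theorem c_mm_133 : CertB 536870912 536870912 0 1230186008 697932185 42949674 3 eng mog cd1q1 cd7q3 pd3 false false false .dn 1 3 3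
    ndB1q1 ndB7q3 pcB3 Cut.none Ext.none :=
  certB0 (fam := false) (s1 := false) (s2 := false) (a := 1) (b := 3) (c := 3) (cn := .dn) (n1 := ndB1q1) (n2 := ndB7q3) (pc := pcB3) (cut := Cut.none) (xt := Ext.none) (P1 := 536870912) (W1 := 536870912) (P2 := 0) (W2 := 1230186008) (P3 := 697932185) (W3 := 42949674) (N0 := 3) (En := eng) (mo := mog) (C1 := cd1q1) (C2 := cd7q3) (C3 := pd3)
    rfl k0_mm_133

noncomputable def cut_mm_202_a : Cut := Cut.of [[⟨0, 1, 0, 67108864⟩, ⟨1, 0, 0, 67108864⟩, ⟨2, 1, 0, 67108864⟩]]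

noncomputable def f_mm_202_a : ℕ → ℕ → ℕ → ℕ → Bool := onCell 0 536870912 0 536870912 697932185 42949674
    (rowB 3 eng mog cd1q2a cd7q2 pd0 1 false false false .pp 2 0 2 (qsf 0 536870912 1073741824 536870912 0) ndB1q2a ndB7q2 pcB0 cut_mm_202_a Ext.none)

def k0_mm_202_a : ∃ t, chk3 f_mm_202_a t 2 2 1 = true :=
  ⟨(b (b (a (b (a (l 16320784) (l 16357504)) (a (l 16378576) (l 16407368))) (b (a (l 16557312) (l 16430400)) (a (l 16438256) (l 16477688)))) (a (b (a (l 16427528) (l 16452952)) (l 16482640)) (b (a (l 16481304) (l 16521272)) (a (l 16519448) (a (l 16545032) (b (l 16518784) (l 16577632))))))) (b (a (b (l 16621560) (a (l 16536632) (b (l 16545184) (l 16563728)))) (b (a (b (l 16543712) (l 16577672)) (b (l 16624224) (a (l 16585968) (l 16610664)))) (a (b (l 16613992) (a (l 16581608) (l 16598608))) (a (l 16609760) (b (l 16626536) (l 16643272)))))) (a (b (a (l 16568896) (b (l 16573840) (l 16594152))) (a (a (l 16596880) (l 16601960)) (a (l 16612720) (l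 16624240)))) (a (b (a (l 16606888) (l 16682848)) (a (l 16635056) (a (l 16649848) (l 16659016)))) (b (a (b (l 16634000) (l 16650264)) (b (l 16659872) (l 16675256))) (a (l 16673512) (b (a (l 16684016) (l 16697536)) (a (l 16699376) (l 16713664))))))))), by decide +kernel⟩

def k1_mm_202_a : ∃ t, chk3 f_mm_202_a t 2 3 1 = true :=
  ⟨(b (b (a (a (b (b (l 16622608) (l 16638424)) (l 16659360)) (b (a (l 16643248) (l 16654320)) (a (l 16671488) (l 16684720)))) (a (b (a (l 16669336) (l 16684840)) (a (l 16697256) (b (a (l 16701832) (l 16710144)) (a (l 16714952) (l 16724328))))) (b (a (b (a (l 16690880) (l 16701888)) (a (l 16705424) (l 16717216))) (b (a (l 16715184) (l 16755480)) (a (l 16751040) (b (a (l 16736784) (l 167671451991)) (a (l 167134581879) (l 235317180423)))))) (a (b (a (l 16720104) (l 16752272)) (a (l 16754584) (b (l 173577026871) (a (l 190220025719) (l 231022216759))))) (b (a (b (l 159081516839) (a (l 16757528) (l 232095955399))) (b (a (l 233706567495)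 (l 3)) (l 3))) (a (b (a (l 229411602247) (l 3)) (l 3)) (l 3))))))) (b (a (a (a (l 16684536) (l 16691128)) (a (l 16701112) (l 16711136))) (a (a (b (a (l 16713320) (l 16719896)) (a (l 16725840) (l 16733624))) (b (a (l 16728672) (l 16738112)) (a (l 16741896) (b (l 16759416) (a (l 16753064) (l 265918835927)))))) (a (b (a (b (a (l 16742128) (l 16752776)) (a (l 16749624) (l 254644540311))) (b (a (l 240685894839) (l 3)) (l 3))) (a (b (a (l 256792027415) (l 3)) (l 3)) (l 3))) (l 3)))) (a (b (a (l 16708696) (a (l 16720992) (b (l 16727400) (l 16733712)))) (l 2)) (a (a (b (a (l 16739768) (l 16746992)) (l 346382408407)) (b (a (b (l 16762112) (a (l 16755344) (l 271287548167))) (b (a (l 276656256327) (l 3)) (l 3))) (a (b (a (l 277193129015) (l 3)) (l 2)) (l 3)))) (l 3))))) (a (l 2) (a (l 2) (l 3)))), by decide +kernel⟩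

def k2_mm_202_a : ∃ t, chk3 f_mm_202_a t 6 4 1 = true :=
  ⟨(b (b (a (b (l 16474392) (l 16500208)) (b (a (l 16528968) (l 16571072)) (l 16608152))) (a (l 16536400) (b (a (l 16581240) (l 16625888)) (a (l 16605376) (b (l 16640728) (l 16650776)))))) (a (b (b (l 16611688) (a (l 16488040) (l 16604792))) (b (a (l 16589408) (a (l 16612376) (l 16629344))) (a (l 16605440) (l 16664376)))) (b (a (b (b (l 16620576) (l 16628192)) (b (l 16635704) (l 16644096))) (b (b (l 16667880) (a (l 16656728) (l 16676056))) (a (b (l 16665088) (l 16673664)) (b (l 16684664) (l 16693136))))) (a (b (a (l 16647264) (b (l 16662136) (l 16670640))) (a (l 16664256) (l 16641176))) (b (a (l 16686296) (l 16706544)) (a (b (l 16699176) (l 16707368)) (b (a (l 16713864) (l 16703008)) (a (l 16721936) (l 16731992))))))))), by decide +kernel⟩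

def k3_mm_202_a : ∃ t, chk3 f_mm_202_a t 14 8 1 = true :=
  ⟨(b (b (a (b (l 16609256) (l 16623816)) (a (l 16651840) (a (l 16669656) (l 6)))) (a (l 16688032) (b (a (l 16674056) (l 16698920)) (a (l 16687488) (a (l 16725632) (l 16735368)))))) (a (b (a (l 16657912) (b (l 16675928) (l 16706160))) (a (b (l 16671960) (l 16679664)) (b (l 16691800) (a (l 16695656) (l 16706336))))) (b (a (b (l 16718128) (a (l 16699216) (l 16709080))) (b (b (l 16728464) (l 16740352)) (a (b (l 16717064) (l 16721184)) (a (l 16705896) (l 16711176))))) (a (b (a (l 16707624) (l 16696368)) (b (l 16697664) (l 16702256))) (b (a (b (l 16725256) (l 16729904)) (a (l 16735760) (l 16720312))) (a (l 16757280) (b (l 16745504) (l 16749872)))))))), by decide +kernel⟩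

def k4_mm_202_a : ∃ t, chk3 f_mm_202_a t 15 8 1 = true :=
  ⟨(b (a (b (l 6) (a (b (l 6) (b (a (l 16722592) (l 6)) (a (l 16726352) (a (l 16734520) (l 16739880))))) (l 6))) (l 6)) (a (b (a (b (a (b (l 16730312) (l 16713144)) (b (l 16741064) (l 16724592))) (a (l 16740744) (a (b (l 16747168) (l 16751760)) (b (l 16752992) (l 16757280))))) (b (a (b (a (l 16749352) (l 6)) (a (l 16753920) (l 16764424))) (b (l 6) (a (l 16771400) (l 6)))) (a (a (b (l 16768672) (l 16762856)) (b (l 16769056) (b (l 96804525191) (a (l 16770640) (l 222432316471))))) (a (b (a (c (l 80161529015) (l 98415139495)) (b (l 71571594999) (c (l 226727285767) (l 224579802247)))) (a (b (l 200957481079) (l 3)) (l 3))) (b (b (b (l 6) (l 3)) (l 3)) (l 3)))))) (a (b (a (b (a (l 16744648) (l 16739968)) (a (l 16738768) (l 16754832))) (b (b (l 16768296) (l 16770712)) (a (l 16760776) (a (l 16770064) (b (l 16766232) (l 177872030503)))))) (a (b (l 16767048) (a (l 16758344) (l 110226292535))) (a (b (b (l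 16764176) (l 159081545575)) (a (b (l 168208350231) (l 265381985415)) (l 264308246791))) (b (a (b (l 191293801431) (l 247665247271)) (b (l 240149055767) (l 3))) (l 3))))) (a (b (b (a (b (l 16771520) (a (l 16766832) (l 141364812295))) (a (b (c (l 223506057111) (l 225653540583)) (l 3)) (l 3))) (a (a (b (l 150491616055) (l 3)) (l 3)) (l 3))) (l 3)) (l 3)))) (b (b (l 6) (l 3)) (l 3)))), by decide +kernel⟩

def k5_mm_202_a : ∃ t, chk3 f_mm_202_a t 7 9 1 = true :=
  ⟨(a (b (a (b (a (b (l 16710248) (l 16675576)) (b (l 16709384) (l 16718512))) (a (b (l 16684296) (l 16714504)) (a (l 16757368) (b (l 16733344) (l 16742008))))) (b (a (b (b (l 16706896) (l 16754160)) (a (l 16755816) (b (l 16742240) (l 16746592)))) (b (a (b (l 16743736) (l 16748096)) (b (l 16754520) (l 16766824))) (a (b (l 16752664) (l 16767504)) (a (b (l 16765872) (b (l 16768400) (a (l 16767224) (l 116131872103)))) (b (a (l 89288327511) (l 197199376727)) (l 3)))))) (a (b (a (l 16764064) (l 16763680))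 (a (l 16762272) (a (c (l 82845872999) (l 81235260375)) (b (l 86603969463) (l 177335150439))))) (a (b (a (b (l 16758704) (l 88751454871)) (b (b (l 16768040) (l 89288326439)) (l 209010532583))) (a (b (a (l 167671473447) (l 3)) (l 3)) (l 3))) (b (a (b (a (l 169282089943) (l 3)) (l 3)) (l 3)) (l 3)))))) (a (b (a (b (l 16744888) (a (l 16726480) (l 16737080))) (b (a (l 16739952) (l 16760624)) (a (l 16747984) (a (l 16763536) (b (l 16758368) (l 232632847463)))))) (a (b (b (l 16737608) (l 16741728)) (b (l 16756344) (a (l 16744632) (a (l 16742272) (l 167134598231))))) (b (a (a (l 16763808) (b (l 16756840) (l 234780327895))) (a (b (l 255718294919) (l 3)) (l 3))) (a (a (b (l 147807249687) (l 3)) (l 3)) (l 3))))) (b (a (b (a (b (l 16765976) (a (l 16764464) (b (l 108615675911) (l 213305500327)))) (b (a (l 179482632455) (l 3)) (l 3))) (a (b (a (l 212768625559) (l 3)) (l 3)) (l 3))) (l 3)) (l 3)))) (b (a (b (a (a (b (a (b (l 16768064) (a (l 90362071079) (l 219211086327)))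 (b (a (b (l 16765640) (l 127943035767)) (l 235317215623)) (l 3))) (l 3)) (l 3)) (l 3)) (l 3)) (l 3)) (l 3))), by decide +kernel⟩

def k6_mm_202_a : ∃ t, chk3 f_mm_202_a t 6 10 1 = true :=
  ⟨(a (b (a (b (l 16622576) (l 16639224)) (b (a (l 16646328) (l 16663320)) (l 16671664))) (a (b (l 16655856) (l 16672880)) (b (b (l 16684408) (a (l 16684456) (l 16701648))) (a (b (l 16693064) (l 16701448)) (b (l 16668320) (l 16718752)))))) (b (a (b (a (l 16681144) (b (l 16695832) (l 16704136))) (a (b (l 16693752) (l 16702224)) (b (l 16733520) (a (l 16716160) (l 16726024))))) (b (a (b (a (l 16710712) (l 16720392)) (a (l 16718992) (l 16728824))) (a (b (l 16730168) (l 16759736)) (b (b (l 16738304) (l 16742568)) (a (l 16767400) (b (l 16749488) (l 114521248215)))))) (a (b (l 16753488) (a (l 16757248) (a (l 16764720) (l 16754504)))) (a (b (a (l 16765880) (l 141901649847)) (b (a (l 16761872) (a (l 148880985271) (l 275582510615))) (l 259476384215))) (b (a (b (l 16763376) (a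 (l 148344115879) (l 3))) (l 264845094583)) (l 3)))))) (a (b (a (a (b (l 16706224) (l 16714872)) (l 16761632)) (b (l 16729784) (a (l 16712584) (l 16753872)))) (a (b (l 16728096) (l 16754968)) (b (a (l 16752648) (a (l 134922334023) (b (l 135459202327) (l 3)))) (a (a (l 127406141191) (b (l 122574304407) (l 234243446055))) (l 275045640615))))) (b (a (b (a (l 16755760) (b (l 176798266407) (l 254644543639))) (a (a (l 149954723751) (b (l 177872007287) (l 3))) (l 3))) (l 3)) (l 3))))), by decide +kernel⟩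

def k7_mm_202_a : ∃ t, chk3 f_mm_202_a t 6 11 1 = true :=
  ⟨(a (b (a (b (a (l 16681368) (l 16696872)) (a (l 16696544) (l 16733632))) (b (a (l 16745168) (b (l 16727000) (l 16756232))) (a (b (l 16725624) (l 16754904)) (b (a (l 16739048) (b (l 16756520) (l 175187654791))) (a (a (l 16755672) (l 174650782327)) (b (l 258939506455) (l 3))))))) (a (b (a (l 16733728) (b (l 16724928) (l 16754168))) (a (b (l 16724920) (l 16732912)) (b (b (l 16760264) (a (l 16739096) (l 170355810903))) (a (l 154249689015) (a (l 232632825383) (l 3)))))) (b (a (b (a (l 16737848) (l 160692138199)) (a (l 161229006167) (a (l 246591472007) (l 3)))) (b (a (a (l 250349570007) (l 3)) (l 3)) (l 3))) (a (b (a (a (l 232632826791) (l 3)) (l 3)) (l 3)) (l 3))))) (b (a (b (a (b (a (l 16740456) (b (l 16756808) (l 228337859191))) (a (a (l 16757072) (l 228337857863)) (l 268066314455))) (b (a (l 272898154679) (l 3)) (l 3))) (a (b (a (b (l 260550120807) (l 3)) (l 3)) (l 3)) (l 3))) (l 3)) (l 3))),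 by decide +kernel⟩

def k8_mm_202_a : ∃ t, chk3 f_mm_202_a t 7 5 1 = true :=
  ⟨(b (a (b (a (b (a (b (a (b (a (l 16746200) (l 16751568)) (l 133311724583)) (a (b (a (l 253033917079) (l 300815433575)) (l 270750679383)) (l 273435040247))) (a (a (b (l 110226282535) (l 249812712167)) (l 267529455655)) (l 3))) (l 3)) (l 3)) (l 3)) (l 3)) (l 3)) (l 3)), by decide +kernel⟩

def k9_mm_202_a : ∃ t, chk3 f_mm_202_a t 3 3 1 = true :=
  ⟨(b (a (b (a (b (a (b (a (b (a (l 16736696) (l 156934043287)) (a (l 161229007927) (l 243907116343))) (b (a (a (l 233706565863) (l 3)) (l 3)) (l 3))) (a (b (a (l 241759631879) (l 3)) (l 3)) (l 3))) (l 3)) (l 3)) (l 3)) (l 3)) (l 3)) (l 3)), by decide +kernel⟩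

theorem s10_mm_202_a : ∃ t, chk3 f_mm_202_a t 6 5 1 = true := ex3_b k6_mm_202_a k7_mm_202_a

theorem s11_mm_202_a : ∃ t, chk3 f_mm_202_a t 3 5 1 = true := ex3_a s10_mm_202_a k8_mm_202_a

theorem s12_mm_202_a : ∃ t, chk3 f_mm_202_a t 7 8 1 = true := ex3_a k3_mm_202_a k4_mm_202_a

theorem s13_mm_202_a : ∃ t, chk3 f_mm_202_a t 7 4 1 = true := ex3_b s12_mm_202_a k5_mm_202_a

theorem s14_mm_202_a : ∃ t, chk3 f_mm_202_a t 3 4 1 = true := ex3_a k2_mm_202_a s13_mm_202_a

theorem s15_mm_202_a : ∃ t, chk3 f_mm_202_a t 3 2 1 = true := ex3_b s14_mm_202_a s11_mm_202_a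

theorem s16_mm_202_a : ∃ t, chk3 f_mm_202_a t 3 1 1 = true := ex3_b s15_mm_202_a k9_mm_202_a

theorem s17_mm_202_a : ∃ t, chk3 f_mm_202_a t 2 1 1 = true := ex3_b k0_mm_202_a k1_mm_202_a

theorem s18_mm_202_a : ∃ t, chk3 f_mm_202_a t 1 1 1 = true := ex3_a s17_mm_202_a s16_mm_202_a

theorem c_mm_202_a : CertB 0 536870912 1073741824 536870912 697932185 42949674 3 eng mog cd1q2a cd7q2 pd0 false false false .pp 2 0 2
    ndB1q2a ndB7q2 pcB0 cut_mm_202_a Ext.none :=
  certB1 (fam := false) (s1 := false) (s2 := false) (a := 2) (b := 0) (c := 2) (cn := .pp) (n1 := ndB1q2a) (n2 := ndB7q2) (pc := pcB0) (cut := cut_mm_202_a) (xt := Ext.none) (P1 := 0) (W1 := 536870912) (P2 := 1073741824) (W2 := 536870912) (P3 := 697932185) (W3 := 42949674) (N0 := 3) (En := eng) (mo := mog) (C1 := cd1q2a) (C2 := cd7q2) (C3 := pd0)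
    rfl (fun _ => rfl) s18_mm_202_a

noncomputable def cut_mm_202_b : Cut := Cut.of [[⟨0, 1, 0, 67108864⟩, ⟨1, 0, 0, 67108864⟩, ⟨2, 1, 0, 67108864⟩]]

noncomputable def f_mm_202_b : ℕ → ℕ → ℕ → ℕ → Bool := onCell 0 536870912 1073741824 536870912 697932185 42949674
    (rowB 3 eng mog cd1q2b cd7q2 pd0 2 false false false .pp 2 0 2 (qsf 1239849684 370763052 1073741824 536870912 0) ndB1q2b ndB7q2 pcB0 cut_mm_202_b Ext.none)

def k0_mm_202_b : ∃ t, chk3 f_mm_202_b t 1 1 1 = true :=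
  ⟨(a (b (a (b (l 1) (b (a (a (l 339872227015) (l 342556637863)) (l 1)) (a (a (l 16311888) (l 16363664)) (a (l 16415392) (l 324840337015))))) (l 1)) (a (b (a (b (a (l 16288680) (l 16341176)) (l 16227656)) (b (a (l 16398880) (l 16454496)) (l 16350992))) (a (b (l 16104992) (l 16023696)) (b (l 16233384) (b (l 16157664) (l 16125112))))) (b (a (b (a (l 226592533351) (l 260952413015)) (a (l 16446720) (l 16514424))) (b (l 1) (b (l 295312221527) (a (l 16561528) (l 16616560))))) (a (b (a (l 16325904) (b (l 16430664) (l 16382456))) (a (l 16427848) (l 16341872))) (b (a (b (l 16516784) (l 16468096)) (l 16573368)) (b (l 16469064) (l 16437656))))))) (a (b (l 1) (b (l 1) (a (b (a (l 186327497815) (l 481069629383)) (b (l 16617344) (l 16573024))) (b (l 1) (b (l 337187892807) (l 344704409095)))))) (l 1))), by decide +kernel⟩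

theorem c_mm_202_b : CertB 1239849684 370763052 1073741824 536870912 697932185 42949674 3 eng mog cd1q2b cd7q2 pd0 false false false .pp 2 0 2
    ndB1q2b ndB7q2 pcB0 cut_mm_202_b Ext.none :=
  certB2 (fam := false) (s1 := false) (s2 := false) (a := 2) (b := 0) (c := 2) (cn := .pp) (n1 := ndB1q2b) (n2 := ndB7q2) (pc := pcB0) (cut := cut_mm_202_b) (xt := Ext.none) (P1 := 1239849684) (W1 := 370763052) (P2 := 1073741824) (W2 := 536870912) (P3 := 697932185) (W3 := 42949674) (N0 := 3) (En := eng) (mo := mog) (C1 := cd1q2b) (C2 := cd7q2) (C3 := pd0)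
    rfl (fun _ => rfl) k0_mm_202_b

noncomputable def f_mm_203_a : ℕ → ℕ → ℕ → ℕ → Bool := onCell 0 536870912 0 1230186008 697932185 42949674
    (rowB 3 eng mog cd1q2a cd7q3 pd0 0 false false false .up 2 0 3 (qsf 0 536870912 0 1230186008 0) ndB1q2a ndB7q3 pcB0 Cut.none Ext.none)

def k0_mm_203_a : ∃ t, chk3 f_mm_203_a t 1 2 1 = true :=
  ⟨(l 2), by decide +kernel⟩

def k1_mm_203_a : ∃ t, chk3 f_mm_203_a t 2 6 1 = true :=
  ⟨(l 2), by decide +kernel⟩

def k2_mm_203_a : ∃ t, chk3 f_mm_203_a t 2 14 1 = true :=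
  ⟨(a (b (l 2) (a (b (l 2) (a (b (a (l 16772864) (a (b (l 450535350135) (l 16772672)) (b (a (b (l 2) (a (l 372689076807) (l 284172479127))) (l 3)) (a (l 16772048) (b (l 291688665735) (l 16771504)))))) (b (l 16771448) (l 16769888))) (b (a (a (b (l 3) (a (b (l 3) (l 289541187031)) (l 3))) (l 3)) (l 3)) (a (a (b (a (b (l 200957492535) (l 16770880)) (b (l 321216570503) (l 237464714711))) (l 16770512)) (b (b (l 3) (l 321216561351)) (a (b (l 234243489255) (l 16769528)) (b (l 317458473383) (l 246054648103))))) (a (b (l 3) (a (l 314237249447) (l 3))) (l 3)))))) (l 3))) (l 3)), by decide +kernel⟩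

def k3_mm_203_a : ∃ t, chk3 f_mm_203_a t 2 30 1 = true :=
  ⟨(a (a (b (a (b (a (l 16766360) (l 16767920)) (l 16783544)) (b (a (b (l 16769568) (l 16768336)) (b (a (a (b (l 292762396007) (l 16768120)) (b (l 320679698071) (l 291151793239))) (l 3)) (a (l 16773344) (b (l 315310975719) (a (l 16767016) (l 287393695847)))))) (a (l 16765664) (b (a (l 16767408) (l 190220069447)) (l 16766200))))) (a (b (l 16756584) (l 16750040)) (b (a (l 16761208) (l 16763232)) (a (l 16754352) (l 16758184))))) (b (a (b (l 3) (a (a (b (a (b (l 314774111927) (l 16771968)) (l 313700372455)) (b (l 196662512999) (l 16765968))) (b (l 3) (b (l 313163501111) (l 284172460999)))) (l 3))) (l 3)) (a (b (a (b (a (l 16765320) (a (l 16765224) (l 228337904119))) (l 16764048)) (a (b (a (l 285246207671) (l 314774113287)) (b (l 228874773687) (l 16764088))) (b (l 3) (a (l 311016011079) (l 3))))) (a (l 16760696) (a (l 16762448) (b (b (l 251423333127) (l 16763264)) (l 16762432))))) (b (l 3) (a (b (a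 (a (l 310479139959) (l 3)) (l 3)) (a (a (l 16762688) (l 287930555127)) (l 306721045799))) (l 3)))))) (l 3)), by decide +kernel⟩

def k4_mm_203_a : ∃ t, chk3 f_mm_203_a t 2 31 1 = true :=
  ⟨(a (b (a (b (a (l 16741832) (a (l 16746936) (l 16750272))) (l 16735992)) (a (b (a (l 16754872) (l 16758216)) (a (l 16745736) (l 16751280))) (b (a (a (l 16760632) (b (a (l 243907147383) (l 287930553943)) (l 16760760))) (b (a (l 303499819303) (l 3)) (a (a (l 239075307111) (l 294909874615)) (l 299741722039)))) (a (l 16755704) (b (a (l 16759888) (a (l 234780338183) (l 292762390087))) (l 16758184)))))) (a (a (l 16713992) (l 16722416)) (a (b (a (l 16735720) (l 16740576)) (l 16725976)) (b (a (l 16768112) (l 16752624)) (a (l 16734496) (l 16741888)))))) (a (b (a (b (l 3) (a (b (l 288467438407) (a (l 276119389511) (l 291151786487))) (l 3))) (l 3)) (a (b (a (b (a (l 16758376) (l 273971905559)) (l 16766832)) (b (l 3) (a (l 289541161895) (l 3)))) (a (l 16749336) (b (a (l 16757200)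 (l 283635581847)) (a (l 16752512) (l 16761856))))) (b (l 3) (a (b (l 3) (a (l 276656259959) (l 3))) (l 3))))) (l 3))), by decide +kernel⟩

def k5_mm_203_a : ∃ t, chk3 f_mm_203_a t 3 3 1 = true :=
  ⟨(l 3), by decide +kernel⟩

theorem s6_mm_203_a : ∃ t, chk3 f_mm_203_a t 2 15 1 = true := ex3_b k3_mm_203_a k4_mm_203_a

theorem s7_mm_203_a : ∃ t, chk3 f_mm_203_a t 2 7 1 = true := ex3_b k2_mm_203_a s6_mm_203_a

theorem s8_mm_203_a : ∃ t, chk3 f_mm_203_a t 2 3 1 = true := ex3_b k1_mm_203_a s7_mm_203_a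

theorem s9_mm_203_a : ∃ t, chk3 f_mm_203_a t 1 3 1 = true := ex3_a s8_mm_203_a k5_mm_203_a

theorem s10_mm_203_a : ∃ t, chk3 f_mm_203_a t 1 1 1 = true := ex3_b k0_mm_203_a s9_mm_203_a

theorem c_mm_203_a : CertB 0 536870912 0 1230186008 697932185 42949674 3 eng mog cd1q2a cd7q3 pd0 false false false .up 2 0 3
    ndB1q2a ndB7q3 pcB0 Cut.none Ext.none :=
  certB0 (fam := false) (s1 := false) (s2 := false) (a := 2) (b := 0) (c := 3) (cn := .up) (n1 := ndB1q2a) (n2 := ndB7q3) (pc := pcB0) (cut := Cut.none) (xt := Ext.none) (P1 := 0) (W1 := 536870912) (P2 := 0) (W2 := 1230186008) (P3 := 697932185) (W3 := 42949674) (N0 := 3) (En := eng) (mo := mog) (C1 := cd1q2a) (C2 := cd7q3) (C3 := pd0)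
    rfl s10_mm_203_a

noncomputable def f_mm_203_b : ℕ → ℕ → ℕ → ℕ → Bool := onCell 0 536870912 0 1230186008 697932185 42949674
    (rowB 3 eng mog cd1q2b cd7q3 pd0 2 false false false .up 2 0 3 (qsf 1239849684 370763052 0 1230186008 0) ndB1q2b ndB7q3 pcB0 Cut.none Ext.none)

def k0_mm_203_b : ∃ t, chk3 f_mm_203_b t 1 1 1 = true :=
  ⟨(b (l 3) (b (l 3) (b (a (l 3) (b (l 3) (b (a (l 3) (a (l 3) (b (l 3) (a (l 16712792) (l 16787656))))) (a (a (l 3) (a (l 16576592) (l 124721710263))) (a (b (a (l 16649096) (l 16683776)) (a (l 16653664) (l 16691640))) (a (b (l 16719496) (l 16725080)) (a (l 16748888) (l 15602672215)))))))) (a (a (b (a (l 2) (l 37211006519)) (a (l 105863150423) (b (l 16082408) (l 16094880)))) (b (a (l 16230424) (a (l 16334480) (l 16403736))) (a (a (l 16302976) (l 16271712)) (b (l 16382192) (l 16405864))))) (a (b (b (a (l 16641152) (a (l 16577208) (b (l 16621016) (l 16626952)))) (a (l 16553160) (b (l 16609504) (l 16616720)))) (a (b (l 16520784)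 (l 16545160)) (b (l 16624240) (l 16676104)))) (b (a (b (b (a (l 16661448) (l 16698152)) (a (l 16667520) (l 16709984))) (l 16719120)) (b (a (b (l 16746520) (l 16759904)) (l 452078798807)) (l 508987062247))) (a (b (l 354904829495) (l 454763105767)) (l 1)))))))), by decide +kernel⟩

theorem c_mm_203_b : CertB 1239849684 370763052 0 1230186008 697932185 42949674 3 eng mog cd1q2b cd7q3 pd0 false false false .up 2 0 3
    ndB1q2b ndB7q3 pcB0 Cut.none Ext.none :=
  certB2 (fam := false) (s1 := false) (s2 := false) (a := 2) (b := 0) (c := 3) (cn := .up) (n1 := ndB1q2b) (n2 := ndB7q3) (pc := pcB0) (cut := Cut.none) (xt := Ext.none) (P1 := 1239849684) (W1 := 370763052) (P2 := 0) (W2 := 1230186008) (P3 := 697932185) (W3 := 42949674) (N0 := 3) (En := eng) (mo := mog) (C1 := cd1q2b) (C2 := cd7q3) (C3 := pd0)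
    rfl (fun _ => rfl) k0_mm_203_b

noncomputable def f_mm_213_a : ℕ → ℕ → ℕ → ℕ → Bool := onCell 0 536870912 0 1230186008 697932185 42949674
    (rowB 3 eng mog cd1q2a cd7q3 pd1 0 false false false .pnn 2 1 3 (qsf 0 536870912 0 1230186008 1) ndB1q2a ndB7q3 pcB1 Cut.none Ext.none)

def k0_mm_213_a : ∃ t, chk3 f_mm_213_a t 1 1 1 = true :=
  ⟨(a (b (l 3) (b (l 3) (b (a (b (l 3) (a (b (a (b (a (a (b (a (b (l 3) (l 335712090615)) (l 3)) (a (b (a (b (l 243907163575) (l 16775560)) (b (l 3) (l 242296548215))) (b (l 16773208) (l 16776208))) (b (l 3) (b (l 289541188951) (a (l 16775048) (l 283098740039)))))) (l 3)) (l 3)) (a (a (b (b (a (l 16776240) (b (l 209010549927) (l 16775824))) (l 16776064)) (l 16775336)) (b (a (b (a (b (l 277193159927) (l 220284847863)) (l 325511531943)) (a (l 16775440) (l 226727300599))) (b (l 3) (b (l 327659025927) (l 282024992359)))) (a (l 16775832) (b (b (l 241222806935) (l 16774592)) (l 16775448))))) (a (b (l 3) (a (b (l 324974665639)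 (a (l 16773960) (l 280951249047))) (b (l 3) (l 323900918327)))) (l 3)))) (l 3)) (b (b (a (a (l 16774592) (a (a (l 16775264) (b (a (l 239075319463) (l 282561866791)) (l 16774424))) (a (b (l 325511541319) (a (l 240149061415) (l 285783091959))) (l 3)))) (l 3)) (a (l 1) (a (l 1) (l 3)))) (l 1))) (l 3))) (l 3)) (b (a (l 1) (l 3)) (l 1))))) (b (b (l 5) (l 3)) (l 3))), by decide +kernel⟩

theorem c_mm_213_a : CertB 0 536870912 0 1230186008 697932185 42949674 3 eng mog cd1q2a cd7q3 pd1 false false false .pnn 2 1 3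
    ndB1q2a ndB7q3 pcB1 Cut.none Ext.none :=
  certB0 (fam := false) (s1 := false) (s2 := false) (a := 2) (b := 1) (c := 3) (cn := .pnn) (n1 := ndB1q2a) (n2 := ndB7q3) (pc := pcB1) (cut := Cut.none) (xt := Ext.none) (P1 := 0) (W1 := 536870912) (P2 := 0) (W2 := 1230186008) (P3 := 697932185) (W3 := 42949674) (N0 := 3) (En := eng) (mo := mog) (C1 := cd1q2a) (C2 := cd7q3) (C3 := pd1)
    rfl k0_mm_213_a

noncomputable def f_mm_213_b : ℕ → ℕ → ℕ → ℕ → Bool := onCell 1239849684 370763052 0 1230186008 697932185 42949674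
    (rowB 3 eng mog cd1q2b cd7q3 pd1 0 false false false .pnn 2 1 3 (qsf 1239849684 370763052 0 1230186008 1) ndB1q2b ndB7q3 pcB1 Cut.none Ext.none)

def k0_mm_213_b : ∃ t, chk3 f_mm_213_b t 1 1 1 = true :=
  ⟨(b (l 3) (b (l 3) (a (b (a (b (l 3) (a (b (b (a (a (b (a (a (b (l 3) (l 336785831447)) (l 3)) (l 3)) (a (b (a (l 16778080) (l 16771968)) (l 16771760)) (l 226190428919))) (l 331953966183)) (l 3)) (a (b (a (l 16769024) (l 16758312)) (l 16761320)) (l 1))) (a (b (l 16766968) (l 1)) (l 1))) (l 1))) (l 1)) (l 1)) (l 1)))), by decide +kernel⟩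

theorem c_mm_213_b : CertB 1239849684 370763052 0 1230186008 697932185 42949674 3 eng mog cd1q2b cd7q3 pd1 false false false .pnn 2 1 3
    ndB1q2b ndB7q3 pcB1 Cut.none Ext.none :=
  certB0 (fam := false) (s1 := false) (s2 := false) (a := 2) (b := 1) (c := 3) (cn := .pnn) (n1 := ndB1q2b) (n2 := ndB7q3) (pc := pcB1) (cut := Cut.none) (xt := Ext.none) (P1 := 1239849684) (W1 := 370763052) (P2 := 0) (W2 := 1230186008) (P3 := 697932185) (W3 := 42949674) (N0 := 3) (En := eng) (mo := mog) (C1 := cd1q2b) (C2 := cd7q3) (C3 := pd1)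
    rfl k0_mm_213_b

noncomputable def f_mm_303 : ℕ → ℕ → ℕ → ℕ → Bool := onCell 0 536870912 0 1230186008 697932185 42949674
    (rowB 3 eng mog cd1q3 cd7q3 pd0 2 false false false .npn 3 0 3 (qsf 1610612736 536870912 0 1230186008 0) ndB1q3 ndB7q3 pcB0 Cut.none Ext.none)

def k0_mm_303 : ∃ t, chk3 f_mm_303 t 1 1 1 = true :=
  ⟨(b (l 3) (b (l 3) (a (b (l 3) (a (b (a (b (l 15982416) (l 15947088)) (l 16242448)) (a (a (l 15932224) (l 15981592)) (b (l 16079168) (l 1)))) (b (a (l 16225624) (l 1)) (l 1)))) (l 1)))), by decide +kernel⟩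

theorem c_mm_303 : CertB 1610612736 536870912 0 1230186008 697932185 42949674 3 eng mog cd1q3 cd7q3 pd0 false false false .npn 3 0 3
    ndB1q3 ndB7q3 pcB0 Cut.none Ext.none :=
  certB2 (fam := false) (s1 := false) (s2 := false) (a := 3) (b := 0) (c := 3) (cn := .npn) (n1 := ndB1q3) (n2 := ndB7q3) (pc := pcB0) (cut := Cut.none) (xt := Ext.none) (P1 := 1610612736) (W1 := 536870912) (P2 := 0) (W2 := 1230186008) (P3 := 697932185) (W3 := 42949674) (N0 := 3) (En := eng) (mo := mog) (C1 := cd1q3) (C2 := cd7q3) (C3 := pd0)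
    rfl (fun _ => rfl) k0_mm_303

noncomputable def f_mm_313 : ℕ → ℕ → ℕ → ℕ → Bool := onCell 1610612736 536870912 0 1230186008 697932185 42949674
    (rowB 3 eng mog cd1q3 cd7q3 pd1 0 false false false .dn 3 1 3 (qsf 1610612736 536870912 0 1230186008 1) ndB1q3 ndB7q3 pcB1 Cut.none Ext.none)

def k0_mm_313 : ∃ t, chk3 f_mm_313 t 1 1 1 = true :=
  ⟨(b (l 3) (l 1)), by decide +kernel⟩

theorem c_mm_313 : CertB 1610612736 536870912 0 1230186008 697932185 42949674 3 eng mog cd1q3 cd7q3 pd1 false false false .dn 3 1 3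
    ndB1q3 ndB7q3 pcB1 Cut.none Ext.none :=
  certB0 (fam := false) (s1 := false) (s2 := false) (a := 3) (b := 1) (c := 3) (cn := .dn) (n1 := ndB1q3) (n2 := ndB7q3) (pc := pcB1) (cut := Cut.none) (xt := Ext.none) (P1 := 1610612736) (W1 := 536870912) (P2 := 0) (W2 := 1230186008) (P3 := 697932185) (W3 := 42949674) (N0 := 3) (En := eng) (mo := mog) (C1 := cd1q3) (C2 := cd7q3) (C3 := pd1)
    rfl k0_mm_313

end Pool.Agent.Strip051.G.I6500_6900.Tab.C.BB17

namespace Pool.Agent.Strip051.G.I6500_6900.Tab.C.BB20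

open Pool.Agent.Strip051.PB Pool.Agent.Strip051.PB.T
open Pool.Agent.Strip051.G.I6500_6900.Tab

noncomputable def f_pp_001 : ℕ → ℕ → ℕ → ℕ → Bool := onCell 0 536870912 0 536870912 697932185 42949674
    (rowB 3 eng mog cd2q0 cd0q1 pd0 1 false true true .up 0 0 1 (qsf 0 536870912 536870912 536870912 0) ndB2q0 ndB0q1 pcB0 Cut.none Ext.none)

def k0_pp_001 : ∃ t, chk3 f_pp_001 t 1 1 1 = true :=
  ⟨(l 3), by decide +kernel⟩

theorem c_pp_001 : CertB 0 536870912 536870912 536870912 697932185 42949674 3 eng mog cd2q0 cd0q1 pd0 false true true .up 0 0 1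
    ndB2q0 ndB0q1 pcB0 Cut.none Ext.none :=
  certB1 (fam := false) (s1 := true) (s2 := true) (a := 0) (b := 0) (c := 1) (cn := .up) (n1 := ndB2q0) (n2 := ndB0q1) (pc := pcB0) (cut := Cut.none) (xt := Ext.none) (P1 := 0) (W1 := 536870912) (P2 := 536870912) (W2 := 536870912) (P3 := 697932185) (W3 := 42949674) (N0 := 3) (En := eng) (mo := mog) (C1 := cd2q0) (C2 := cd0q1) (C3 := pd0)
    rfl (fun _ => rfl) k0_pp_001

noncomputable def cut_pp_011 : Cut := Cut.of [[⟨0, 0, 0, 67108864⟩, ⟨1, 1, 0, 67108864⟩, ⟨2, 1, 0, 67108864⟩]]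

noncomputable def f_pp_011 : ℕ → ℕ → ℕ → ℕ → Bool := onCell 0 536870912 536870912 536870912 697932185 42949674
    (rowB 3 eng mog cd2q0 cd0q1 pd1 0 false true true .pnn 0 1 1 (qsf 0 536870912 536870912 536870912 1) ndB2q0 ndB0q1 pcB1 cut_pp_011 Ext.none)

def k0_pp_011 : ∃ t, chk3 f_pp_011 t 1 1 1 = true :=
  ⟨(a (b (l 3) (b (l 3) (a (b (l 3) (a (b (l 3) (a (b (l 3) (l 6)) (l 3))) (l 3))) (l 3)))) (l 3)), by decide +kernel⟩

theorem c_pp_011 : CertB 0 536870912 536870912 536870912 697932185 42949674 3 eng mog cd2q0 cd0q1 pd1 false true true .pnn 0 1 1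
    ndB2q0 ndB0q1 pcB1 cut_pp_011 Ext.none :=
  certB0 (fam := false) (s1 := true) (s2 := true) (a := 0) (b := 1) (c := 1) (cn := .pnn) (n1 := ndB2q0) (n2 := ndB0q1) (pc := pcB1) (cut := cut_pp_011) (xt := Ext.none) (P1 := 0) (W1 := 536870912) (P2 := 536870912) (W2 := 536870912) (P3 := 697932185) (W3 := 42949674) (N0 := 3) (En := eng) (mo := mog) (C1 := cd2q0) (C2 := cd0q1) (C3 := pd1)
    rfl k0_pp_011

noncomputable def cut_pp_012 : Cut := Cut.of [[⟨0, 0, 0, 44739242⟩, ⟨1, 1, 0, 44739242⟩, ⟨2, 1, 0, 44739242⟩]]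

noncomputable def f_pp_012 : ℕ → ℕ → ℕ → ℕ → Bool := onCell 536870912 536870912 0 536870912 697932185 42949674
    (rowB 3 eng mog cd2q0 cd0q2 pd1 2 false true true .pnp 0 1 2 (qsf 0 536870912 0 536870912 1) ndB2q0 ndB0q2 pcB1 cut_pp_012 Ext.none)

def k0_pp_012 : ∃ t, chk3 f_pp_012 t 2 1 1 = true :=
  ⟨(b (a (b (l 2) (b (l 2) (b (l 2) (l 3)))) (b (a (b (l 16705528) (l 16677464)) (b (l 16587672) (b (l 16617784) (l 16639440)))) (a (b (a (b (l 16678976) (b (l 114454041799) (l 16675704))) (b (l 16673528) (b (l 16681928) (l 16704976)))) (a (b (a (b (l 16658328) (a (l 140290836311) (l 16653744))) (b (l 16670720) (l 16649552))) (b (a (l 198272864951) (b (l 122037231399) (l 171966195623))) (l 3))) (b (a (l 16675248) (l 16663088)) (a (b (l 16630288) (b (l 151565144743) (l 181093013111))) (b (l 16657784) (l 103246774871)))))) (b (b (l 16660032) (l 16699928)) (a (b (b (l 16690808) (a (l 16688936) (l 16694192))) (a (l 16660528) (l 16680616))) (b (b (l 16689632)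 (l 16698328)) (b (a (l 16698176) (l 16703176)) (l 16693912)))))))) (a (l 3) (b (b (a (a (l 3) (b (b (a (l 3) (l 170892476743)) (l 3)) (l 3))) (a (b (b (a (l 109152373223) (l 16659176)) (a (l 177334950967) (l 112910492695))) (l 3)) (a (b (l 16680464) (l 147807116279)) (b (l 16674608) (a (l 107541853175) (l 95730700631)))))) (l 3)) (l 3)))), by decide +kernel⟩

def k1_pp_012 : ∃ t, chk3 f_pp_012 t 6 1 1 = true :=
  ⟨(b (b (b (a (l 16548800) (a (l 16519096) (l 16504224))) (a (a (l 16625048) (l 16628136)) (a (l 16586952) (l 16547800)))) (a (b (a (l 16652040) (l 16656968)) (a (b (l 16688288) (a (l 16728360) (l 16708520))) (b (l 16676384) (l 16703264)))) (b (a (b (l 16602960) (l 16629568)) (b (l 16584624) (l 16609712))) (b (a (l 16657064) (l 16636608)) (a (l 16685592) (l 16664696)))))) (b (a (b (a (b (a (l 16680968) (l 16706352)) (a (b (l 16703200) (l 16725920)) (l 16738088))) (b (a (l 16719392) (l 16723240)) (a (l 16716832) (l 16715416)))) (a (b (a (l 172503282039)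 (b (l 82308960839) (l 174113936279))) (l 3)) (b (a (b (l 16752032) (a (l 110763183575) (l 130627412215))) (b (l 16743152) (a (l 16770928) (l 16764056)))) (a (l 3) (b (b (l 152102222231) (l 178408927735)) (l 3)))))) (a (b (b (a (l 16717888) (l 16708824)) (a (l 16727480) (l 16732536))) (b (a (l 16764288) (l 16735672)) (b (a (l 113447558215) (l 16765544)) (a (l 167671539559) (a (l 16796808) (l 16787120)))))) (b (b (l 16693632) (a (l 16727464) (l 16718040))) (b (a (l 16734704) (l 16744600)) (a (b (l 16756240) (l 16779104)) (b (l 16749072) (l 16768520))))))) (a (l 3) (b (b (a (b (a (l 3) (l 215989947511)) (l 3)) (a (b (b (l 187535718887) (l 218674256279)) (l 3)) (a (b (l 194515034039) (l 219211151303)) (b (l 16789872) (l 212768688759))))) (l 3)) (l 3))))), by decide +kernel⟩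

def k2_pp_012 : ∃ t, chk3 f_pp_012 t 7 2 1 = true :=
  ⟨(b (a (b (l 16508072) (a (l 16532144) (l 16519384))) (b (a (l 16477736) (l 16478128)) (a (l 16511000) (l 16507712)))) (a (b (a (b (l 16566440) (l 16591328)) (b (l 16551272) (l 16575496))) (a (b (l 16617472) (l 16644584)) (b (l 16601088) (l 16627200)))) (b (a (b (l 16540624) (l 16563728)) (l 16575944)) (a (b (l 16589304) (l 16614208)) (b (l 16577840) (l 16599440)))))), by decide +kernel⟩

def k3_pp_012 : ∃ t, chk3 f_pp_012 t 7 6 1 = true :=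
  ⟨(a (b (a (b (l 16672680) (l 16702080)) (b (l 16632864) (l 16681880))) (a (b (l 16732464) (a (b (l 16753912) (l 16759304)) (l 16714232))) (b (l 16710680) (a (l 16745632) (l 16689096))))) (b (a (b (l 16637824) (l 16661416)) (b (l 16618624) (l 16638120))) (a (b (l 16642648) (a (l 16714488) (l 16698808))) (b (l 16658056) (a (l 16684000) (l 16670344)))))), by decide +kernel⟩

def k4_pp_012 : ∃ t, chk3 f_pp_012 t 14 7 1 = true :=
  ⟨(b (a (b (b (a (l 16759536) (l 16749640)) (a (a (l 101636481223) (l 16802160)) (l 16790472))) (a (b (a (l 197199511863) (l 186462065895)) (l 3)) (a (b (l 115058246183) (l 3)) (b (l 16803088) (l 207936900119))))) (b (a (b (l 16764888) (l 16770880)) (l 16712968)) (b (a (a (l 16790840) (l 16780112)) (a (l 16770712) (l 16763392))) (a (a (l 159081658743) (b (l 16791552) (l 241759690039))) (a (l 16806480) (l 16776376)))))) (a (l 3) (b (b (a (b (l 3) (l 3)) (a (b (l 168745306231) (l 3)) (b (l 84456554375) (a (l 218674276663) (l 175187746583)))))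 (l 3)) (l 3)))), by decide +kernel⟩

def k5_pp_012 : ∃ t, chk3 f_pp_012 t 15 7 1 = true :=
  ⟨(b (a (b (a (l 16696520) (b (l 16715744) (l 16728096))) (a (b (l 16756784) (l 16785448)) (b (l 16740480) (l 16753408)))) (a (b (b (l 16700144) (l 16712064)) (b (l 16724592) (l 16716424))) (b (b (l 16685528) (l 16697056)) (b (a (l 16713224) (l 16705592)) (a (l 16725784) (l 16718256)))))) (a (b (a (a (b (b (l 16779088) (l 100562678551)) (a (l 3) (b (l 208473718295) (l 3)))) (b (l 16795496) (a (b (l 167671542135) (l 3)) (b (l 16794752) (l 210084330695))))) (b (a (l 16766768) (l 16762624)) (a (b (l 16777976) (b (a (l 16796704) (l 16781968)) (a (l 203641874967) (l 166060917367)))) (b (l 16770040) (a (l 16779912) (l 16775888)))))) (b (a (l 3) (b (a (l 3) (b (a (l 163913433815) (l 16781952)) (a (l 3) (l 193441324023)))) (l 3))) (l 3))) (b (a (b (a (l 16754728) (l 16746824)) (a (b (l 16765016) (l 16770168)) (l 16771280))) (b (a (l 16739016) (a (l 16733232) (l 16729408)))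 (a (a (l 16754896) (l 6)) (l 6)))) (a (b (b (a (a (a (l 152639134343) (l 16779016)) (l 16776104)) (l 16781120)) (a (b (a (b (l 165524040759) (l 3)) (c (l 92509591575) (l 117205653447))) (a (l 3) (l 6))) (l 6))) (l 6)) (l 6))))), by decide +kernel⟩

theorem s6_pp_012 : ∃ t, chk3 f_pp_012 t 7 7 1 = true := ex3_a k4_pp_012 k5_pp_012

theorem s7_pp_012 : ∃ t, chk3 f_pp_012 t 7 3 1 = true := ex3_b k3_pp_012 s6_pp_012

theorem s8_pp_012 : ∃ t, chk3 f_pp_012 t 7 1 1 = true := ex3_b k2_pp_012 s7_pp_012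

theorem s9_pp_012 : ∃ t, chk3 f_pp_012 t 3 1 1 = true := ex3_a k1_pp_012 s8_pp_012

theorem s10_pp_012 : ∃ t, chk3 f_pp_012 t 1 1 1 = true := ex3_a k0_pp_012 s9_pp_012

theorem c_pp_012 : CertB 0 536870912 0 536870912 697932185 42949674 3 eng mog cd2q0 cd0q2 pd1 false true true .pnp 0 1 2
    ndB2q0 ndB0q2 pcB1 cut_pp_012 Ext.none :=
  certB2 (fam := false) (s1 := true) (s2 := true) (a := 0) (b := 1) (c := 2) (cn := .pnp) (n1 := ndB2q0) (n2 := ndB0q2) (pc := pcB1) (cut := cut_pp_012) (xt := Ext.none) (P1 := 0) (W1 := 536870912) (P2 := 0) (W2 := 536870912) (P3 := 697932185) (W3 := 42949674) (N0 := 3) (En := eng) (mo := mog) (C1 := cd2q0) (C2 := cd0q2) (C3 := pd1)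
    rfl (fun _ => rfl) s10_pp_012

noncomputable def cut_pp_022 : Cut := Cut.of [[⟨0, 0, 0, 67108864⟩, ⟨1, 1, 0, 67108864⟩, ⟨2, 1, 0, 67108864⟩]]

noncomputable def f_pp_022 : ℕ → ℕ → ℕ → ℕ → Bool := onCell 0 536870912 0 536870912 697932185 42949674
    (rowB 3 eng mog cd2q0 cd0q2 pd2 0 false true true .pp 0 2 2 (qsf 0 536870912 0 536870912 2) ndB2q0 ndB0q2 pcB2 cut_pp_022 Ext.none)

def k0_pp_022 : ∃ t, chk3 f_pp_022 t 4 2 1 = true :=
  ⟨(b (b (a (a (b (l 16454680) (l 16460032)) (l 16463264)) (l 16501616)) (c (a (a (l 16510336) (l 16476840)) (l 16488072)) (a (a (l 16464896) (l 16483480)) (l 16491040)))) (b (a (b (a (c (l 16483152) (l 16476392)) (l 16496880)) (a (c (l 16496832) (l 16486784)) (l 16512136))) (a (b (l 16504688) (l 16520680)) (l 16519584))) (b (a (a (c (l 16509824) (l 16498648)) (l 16528136)) (a (l 16539936) (l 16547528))) (a (a (a (b (l 16509920) (l 16453424)) (c (l 16531880) (l 16521440))) (a (l 16540408) (l 16552616))) (a (l 16559280)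 (l 16566728)))))), by decide +kernel⟩

def k1_pp_022 : ∃ t, chk3 f_pp_022 t 4 3 1 = true :=
  ⟨(b (b (b (a (a (c (b (l 16537088) (l 16472752)) (a (b (l 16516952) (l 16525720)) (l 16476016))) (a (l 16560136) (l 16575136))) (a (l 16582272) (l 16588176))) (a (a (a (b (a (l 16536776) (l 16546304)) (a (l 16546656) (l 16556832))) (c (l 16570040) (l 16581784))) (a (l 16583856) (l 16601000))) (a (l 16606208) (b (l 16604344) (l 110628694663))))) (a (a (b (a (a (b (l 16558152) (l 16571568)) (b (l 16568976) (l 16583024))) (c (l 16595688) (b (l 16580192) (l 16595616)))) (a (b (c (l 16618072) (l 16609136)) (c (l 16634104) (l 16626240))) (b (l 16595336) (l 16634032)))) (a (b (l 16612376) (l 16647704)) (b (l 16626784) (l 16649504)))) (a (b (a (l 16628784) (l 157336410727)) (a (b (l 16644768) (l 16655520)) (b (l 16645240) (l 1)))) (b (a (l 200823042711) (l 1)) (l 1))))) (a (b (a (b (a (a (b (l 16619768) (l 16658208)) (b (l 16654048) (b (l 16646512) (l 6)))) (b (l 16652256)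 (l 16671152))) (l 6)) (b (a (b (l 16666536) (l 16679936)) (b (l 16667128) (l 112239423319))) (a (l 6) (a (l 6) (a (l 6) (l 1)))))) (a (l 6) (a (l 6) (l 1)))) (b (a (b (a (b (l 160557791287) (l 301217997335)) (l 1)) (l 1)) (l 1)) (l 1)))), by decide +kernel⟩

def k2_pp_022 : ∃ t, chk3 f_pp_022 t 5 1 1 = true :=
  ⟨(b (a (a (b (b (l 16474752) (l 16496056)) (b (b (l 16516232) (l 16533320)) (b (l 16553496) (l 342556632519)))) (b (l 1218193129895) (l 1))) (l 1)) (b (l 1) (l 1))), by decide +kernel⟩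

def k3_pp_022 : ∃ t, chk3 f_pp_022 t 3 1 1 = true :=
  ⟨(l 1), by decide +kernel⟩

theorem s4_pp_022 : ∃ t, chk3 f_pp_022 t 4 1 1 = true := ex3_b k0_pp_022 k1_pp_022

theorem s5_pp_022 : ∃ t, chk3 f_pp_022 t 2 1 1 = true := ex3_a s4_pp_022 k2_pp_022

theorem s6_pp_022 : ∃ t, chk3 f_pp_022 t 1 1 1 = true := ex3_a s5_pp_022 k3_pp_022

theorem c_pp_022 : CertB 0 536870912 0 536870912 697932185 42949674 3 eng mog cd2q0 cd0q2 pd2 false true true .pp 0 2 2
    ndB2q0 ndB0q2 pcB2 cut_pp_022 Ext.none :=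
  certB0 (fam := false) (s1 := true) (s2 := true) (a := 0) (b := 2) (c := 2) (cn := .pp) (n1 := ndB2q0) (n2 := ndB0q2) (pc := pcB2) (cut := cut_pp_022) (xt := Ext.none) (P1 := 0) (W1 := 536870912) (P2 := 0) (W2 := 536870912) (P3 := 697932185) (W3 := 42949674) (N0 := 3) (En := eng) (mo := mog) (C1 := cd2q0) (C2 := cd0q2) (C3 := pd2)
    rfl s6_pp_022

noncomputable def f_pp_101 : ℕ → ℕ → ℕ → ℕ → Bool := onCell 536870912 536870912 536870912 536870912 697932185 42949674
    (rowB 3 eng mog cd2q1 cd0q1 pd0 0 false true true .npn 1 0 1 (qsf 536870912 536870912 536870912 536870912 0) ndB2q1 ndB0q1 pcB0 Cut.none Ext.none)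

def k0_pp_101 : ∃ t, chk3 f_pp_101 t 1 1 1 = true :=
  ⟨(l 3), by decide +kernel⟩

theorem c_pp_101 : CertB 536870912 536870912 536870912 536870912 697932185 42949674 3 eng mog cd2q1 cd0q1 pd0 false true true .npn 1 0 1
    ndB2q1 ndB0q1 pcB0 Cut.none Ext.none :=
  certB0 (fam := false) (s1 := true) (s2 := true) (a := 1) (b := 0) (c := 1) (cn := .npn) (n1 := ndB2q1) (n2 := ndB0q1) (pc := pcB0) (cut := Cut.none) (xt := Ext.none) (P1 := 536870912) (W1 := 536870912) (P2 := 536870912) (W2 := 536870912) (P3 := 697932185) (W3 := 42949674) (N0 := 3) (En := eng) (mo := mog) (C1 := cd2q1) (C2 := cd0q1) (C3 := pd0)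
    rfl k0_pp_101

noncomputable def f_pp_102 : ℕ → ℕ → ℕ → ℕ → Bool := onCell 0 536870912 0 536870912 697932185 42949674
    (rowB 3 eng mog cd2q1 cd0q2 pd0 2 false true true .npp 1 0 2 (qsf 536870912 536870912 0 536870912 0) ndB2q1 ndB0q2 pcB0 Cut.none Ext.none)

def k0_pp_102 : ∃ t, chk3 f_pp_102 t 1 1 1 = true :=
  ⟨(b (a (a (l 3) (l 3)) (a (b (a (l 3) (b (a (l 3) (b (b (a (l 201493984103) (l 186461672743)) (l 3)) (l 3))) (l 3))) (l 3)) (b (a (b (a (b (a (b (l 16603528) (l 185387935143)) (b (l 16609848) (l 16609880))) (a (l 3) (b (l 180019190775) (l 3)))) (a (b (b (l 16615144) (l 16615872)) (b (l 16615896) (l 181629814951))) (b (b (l 16620648) (l 16620944)) (l 152101982247)))) (a (l 3) (b (a (l 3) (l 188072272791)) (l 3)))) (b (a (b (a (l 16626048) (l 16630032)) (b (a (l 16626936) (l 16631608)) (l 16629880))) (b (l 16635488) (a (l 16636920) (l 16641904)))) (a (b (a (l 166597450039) (l 158007569783)) (l 3)) (a (b (l 16636792) (l 185924813863)) (b (l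 16642104) (a (l 175187405159) (l 168744984727))))))) (l 3)))) (l 3)), by decide +kernel⟩

theorem c_pp_102 : CertB 536870912 536870912 0 536870912 697932185 42949674 3 eng mog cd2q1 cd0q2 pd0 false true true .npp 1 0 2
    ndB2q1 ndB0q2 pcB0 Cut.none Ext.none :=
  certB2 (fam := false) (s1 := true) (s2 := true) (a := 1) (b := 0) (c := 2) (cn := .npp) (n1 := ndB2q1) (n2 := ndB0q2) (pc := pcB0) (cut := Cut.none) (xt := Ext.none) (P1 := 536870912) (W1 := 536870912) (P2 := 0) (W2 := 536870912) (P3 := 697932185) (W3 := 42949674) (N0 := 3) (En := eng) (mo := mog) (C1 := cd2q1) (C2 := cd0q2) (C3 := pd0)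
    rfl (fun _ => rfl) k0_pp_102

noncomputable def f_pp_112 : ℕ → ℕ → ℕ → ℕ → Bool := onCell 536870912 536870912 0 536870912 697932185 42949674
    (rowB 3 eng mog cd2q1 cd0q2 pd1 2 false true true .dn 1 1 2 (qsf 536870912 536870912 0 536870912 1) ndB2q1 ndB0q2 pcB1 Cut.none Ext.none)

def k0_pp_112 : ∃ t, chk3 f_pp_112 t 1 1 1 = true :=
  ⟨(a (b (a (b (a (b (a (b (l 16628504) (a (l 16636240) (l 16639696))) (l 16637160)) (a (b (a (l 16641920) (l 16646592)) (b (l 16645520) (a (l 132774649911) (l 16645816)))) (b (l 16651848) (b (l 16653408) (l 16652896))))) (b (b (l 16622648) (l 16637776)) (a (b (l 16652080) (l 16700704)) (l 16652208)))) (a (b (a (b (b (a (l 185387952023) (l 158007577895)) (l 3)) (l 3)) (b (b (a (l 16646856) (l 16652056)) (a (l 164449996519) (l 105394216999))) (b (a (l 3) (l 169281828967)) (l 3)))) (l 3)) (b (a (b (a (l 16654408) (l 16657976)) (b (a (l 109689173031) (l 16649784)) (a (l 172503045511) (b (l 16641976) (l 152101957447)))))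 (b (b (l 16660392) (l 16659552)) (a (b (l 16654928) (l 16646488)) (l 16655856)))) (a (l 3) (b (b (a (b (a (l 143512014727) (l 16638688)) (l 151028203287)) (a (l 80161245063) (l 16644016))) (a (l 3) (b (a (l 161765617159) (l 124721523015)) (l 3)))) (l 3)))))) (a (b (b (l 43520050631) (l 53183667607)) (a (b (b (l 16656816) (a (l 16657760) (l 947073675191))) (a (a (b (b (l 16647720) (b (l 16636936) (b (l 98951718215) (l 158007513527)))) (l 3)) (b (l 502007545287) (l 1))) (l 1))) (l 1))) (l 1))) (a (l 3) (b (l 1) (l 1)))) (l 1)), by decide +kernel⟩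

theorem c_pp_112 : CertB 536870912 536870912 0 536870912 697932185 42949674 3 eng mog cd2q1 cd0q2 pd1 false true true .dn 1 1 2
    ndB2q1 ndB0q2 pcB1 Cut.none Ext.none :=
  certB2 (fam := false) (s1 := true) (s2 := true) (a := 1) (b := 1) (c := 2) (cn := .dn) (n1 := ndB2q1) (n2 := ndB0q2) (pc := pcB1) (cut := Cut.none) (xt := Ext.none) (P1 := 536870912) (W1 := 536870912) (P2 := 0) (W2 := 536870912) (P3 := 697932185) (W3 := 42949674) (N0 := 3) (En := eng) (mo := mog) (C1 := cd2q1) (C2 := cd0q2) (C3 := pd1)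
    rfl (fun _ => rfl) k0_pp_112

noncomputable def f_pp_202_a : ℕ → ℕ → ℕ → ℕ → Bool := onCell 0 536870912 0 536870912 697932185 42949674
    (rowB 3 eng mog cd2q2a cd0q2 pd0 0 false true true .pp 2 0 2 (qsf 0 536870912 0 536870912 0) ndB2q2a ndB0q2 pcB0 Cut.none Ext.none)

def k0_pp_202_a : ∃ t, chk3 f_pp_202_a t 1 1 1 = true :=
  ⟨(l 3), by decide +kernel⟩

theorem c_pp_202_a : CertB 0 536870912 0 536870912 697932185 42949674 3 eng mog cd2q2a cd0q2 pd0 false true true .pp 2 0 2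
    ndB2q2a ndB0q2 pcB0 Cut.none Ext.none :=
  certB0 (fam := false) (s1 := true) (s2 := true) (a := 2) (b := 0) (c := 2) (cn := .pp) (n1 := ndB2q2a) (n2 := ndB0q2) (pc := pcB0) (cut := Cut.none) (xt := Ext.none) (P1 := 0) (W1 := 536870912) (P2 := 0) (W2 := 536870912) (P3 := 697932185) (W3 := 42949674) (N0 := 3) (En := eng) (mo := mog) (C1 := cd2q2a) (C2 := cd0q2) (C3 := pd0)
    rfl k0_pp_202_a

noncomputable def f_pp_202_b : ℕ → ℕ → ℕ → ℕ → Bool := onCell 1239849684 370763052 0 536870912 697932185 42949674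
    (rowB 3 eng mog cd2q2b cd0q2 pd0 0 false true true .pp 2 0 2 (qsf 1239849684 370763052 0 536870912 0) ndB2q2b ndB0q2 pcB0 Cut.none Ext.none)

def k0_pp_202_b : ∃ t, chk3 f_pp_202_b t 1 1 1 = true :=
  ⟨(l 3), by decide +kernel⟩

theorem c_pp_202_b : CertB 1239849684 370763052 0 536870912 697932185 42949674 3 eng mog cd2q2b cd0q2 pd0 false true true .pp 2 0 2
    ndB2q2b ndB0q2 pcB0 Cut.none Ext.none :=
  certB0 (fam := false) (s1 := true) (s2 := true) (a := 2) (b := 0) (c := 2) (cn := .pp) (n1 := ndB2q2b) (n2 := ndB0q2) (pc := pcB0) (cut := Cut.none) (xt := Ext.none) (P1 := 1239849684) (W1 := 370763052) (P2 := 0) (W2 := 536870912) (P3 := 697932185) (W3 := 42949674) (N0 := 3) (En := eng) (mo := mog) (C1 := cd2q2b) (C2 := cd0q2) (C3 := pd0)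
    rfl k0_pp_202_b

noncomputable def f_pm_001 : ℕ → ℕ → ℕ → ℕ → Bool := onCell 0 536870912 536870912 536870912 697932185 42949674
    (rowB 3 eng mog cd2q0 cd0q1 pd0 0 false true false .up 0 0 1 (qsf 0 536870912 536870912 536870912 0) ndB2q0 ndB0q1 pcB0 Cut.none Ext.none)

def k0_pm_001 : ∃ t, chk3 f_pm_001 t 1 1 1 = true :=
  ⟨(b (l 4) (b (a (l 4) (a (l 4) (b (l 4) (l 4)))) (a (l 2) (a (b (b (l 4) (l 2)) (l 2)) (b (a (b (a (l 4) (l 98481702887)) (a (b (l 16532016) (l 2)) (l 16420848))) (b (a (l 16435824) (l 16402680)) (a (l 16427144) (l 16349848)))) (b (a (a (l 2) (l 16379960)) (l 16384280)) (a (l 2) (b (l 16310424) (l 16297440))))))))), by decide +kernel⟩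

theorem c_pm_001 : CertB 0 536870912 536870912 536870912 697932185 42949674 3 eng mog cd2q0 cd0q1 pd0 false true false .up 0 0 1
    ndB2q0 ndB0q1 pcB0 Cut.none Ext.none :=
  certB0 (fam := false) (s1 := true) (s2 := false) (a := 0) (b := 0) (c := 1) (cn := .up) (n1 := ndB2q0) (n2 := ndB0q1) (pc := pcB0) (cut := Cut.none) (xt := Ext.none) (P1 := 0) (W1 := 536870912) (P2 := 536870912) (W2 := 536870912) (P3 := 697932185) (W3 := 42949674) (N0 := 3) (En := eng) (mo := mog) (C1 := cd2q0) (C2 := cd0q1) (C3 := pd0)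
    rfl k0_pm_001

noncomputable def cut_pm_011 : Cut := Cut.of [[⟨0, 0, 0, 67108864⟩, ⟨1, 1, 0, 67108864⟩, ⟨2, 1, 0, 67108864⟩]]

noncomputable def f_pm_011 : ℕ → ℕ → ℕ → ℕ → Bool := onCell 0 536870912 536870912 536870912 697932185 42949674
    (rowB 3 eng mog cd2q0 cd0q1 pd1 0 false true false .pnn 0 1 1 (qsf 0 536870912 536870912 536870912 1) ndB2q0 ndB0q1 pcB1 cut_pm_011 Ext.none)

def k0_pm_011 : ∃ t, chk3 f_pm_011 t 1 1 1 = true :=
  ⟨(b (l 4) (b (a (l 4) (a (l 4) (b (l 1) (l 4)))) (b (a (l 4) (a (a (l 4) (b (l 4) (a (l 16531752) (l 16514856)))) (a (b (a (l 4) (l 16450576)) (a (l 16520288) (l 16421608))) (b (l 1) (l 16349056))))) (a (a (b (l 4) (a (b (l 4) (a (l 6) (b (l 4) (a (l 6) (a (l 16742728) (l 16718000)))))) (b (l 4) (b (a (a (l 16741128) (l 16702032)) (l 16676568)) (a (a (l 16704944) (l 16687936)) (l 16663368)))))) (a (b (l 4) (a (b (b (l 4) (l 16658376)) (l 16637472)) (b (l 16670976) (l 16601864)))) (b (b (l 4) (a (l 16616360) (l 16471744)))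 (b (a (l 73248733303) (l 16550360)) (l 16597240))))) (a (a (a (b (b (l 16452904) (l 16540592)) (b (l 16516144) (l 16493752))) (b (b (l 16531128) (l 16506304)) (l 16514512))) (b (b (l 16561160) (l 16476720)) (a (l 16441568) (l 16411664)))) (b (a (l 16399848) (l 16420192)) (a (a (l 16382640) (l 16354392)) (l 16439120)))))))), by decide +kernel⟩

theorem c_pm_011 : CertB 0 536870912 536870912 536870912 697932185 42949674 3 eng mog cd2q0 cd0q1 pd1 false true false .pnn 0 1 1
    ndB2q0 ndB0q1 pcB1 cut_pm_011 Ext.none :=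
  certB0 (fam := false) (s1 := true) (s2 := false) (a := 0) (b := 1) (c := 1) (cn := .pnn) (n1 := ndB2q0) (n2 := ndB0q1) (pc := pcB1) (cut := cut_pm_011) (xt := Ext.none) (P1 := 0) (W1 := 536870912) (P2 := 536870912) (W2 := 536870912) (P3 := 697932185) (W3 := 42949674) (N0 := 3) (En := eng) (mo := mog) (C1 := cd2q0) (C2 := cd0q1) (C3 := pd1)
    rfl k0_pm_011

noncomputable def cut_pm_012 : Cut := Cut.of [[⟨0, 0, 0, 67108864⟩, ⟨1, 1, 0, 67108864⟩, ⟨2, 1, 0, 67108864⟩]]

noncomputable def xt_pm_012 : Ext := extD2 3 ⟨7, 3, 3, 10, 49, 25, 3, 4, 67, 200, 3, 16⟩ eng cd2q0 cd0q2 pd1 false true false .pnp 0 1 2 rfl ndB2q0 ndB0q2 pcB1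

noncomputable def f_pm_012 : ℕ → ℕ → ℕ → ℕ → Bool := onCell 536870912 536870912 0 536870912 697932185 42949674
    (rowB 3 eng mog cd2q0 cd0q2 pd1 2 false true false .pnp 0 1 2 (qsf 0 536870912 0 536870912 1) ndB2q0 ndB0q2 pcB1 cut_pm_012 xt_pm_012)

def k0_pm_012 : ∃ t, chk3 f_pm_012 t 2 1 1 = true :=
  ⟨(b (b (a (l 2) (a (l 16585104) (b (l 16546296) (l 16508720)))) (a (b (l 2) (a (l 2) (l 16501576))) (b (a (l 16507432) (l 16474824)) (a (l 16471088) (l 16443376))))) (b (a (a (l 2) (b (l 16457288) (l 16407536))) (b (a (l 16436424) (l 16418936)) (a (l 16402848) (l 16402248)))) (a (b (a (l 16353768) (l 16367184)) (b (l 16547576) (a (l 16309176) (l 16352592)))) (b (a (l 16383296) (l 16404568)) (a (b (l 16387016) (l 16398880)) (b (l 16426208) (c (l 16581016) (l 141439834704281663)))))))), by decide +kernel⟩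

def k1_pm_012 : ∃ t, chk3 f_pm_012 t 3 1 1 = true :=
  ⟨(b (a (b (a (b (l 16508072) (l 16471312)) (b (l 16473424) (l 16546528))) (a (b (l 16441424) (l 16417232)) (b (l 16415240) (a (l 16399424) (l 16398024))))) (b (a (b (l 16457000) (l 16454280)) (a (b (l 16453528) (l 16432832)) (b (l 16456712) (l 16434600)))) (a (b (l 16410536) (b (l 16401056) (l 16401408))) (b (a (l 16412656) (l 16414936)) (a (l 16493632) (b (l 16408952) (l 16412968))))))) (b (a (b (a (l 16404256) (a (l 16395872) (l 16400512))) (a (l 16552632) (b (l 16410776) (l 16512096)))) (a (b (a (l 16408872) (l 16419664)) (a (l 16528160) (b (l 16449896) (l 16478864)))) (b (a (b (l 16422264) (l 16439320)) (b (l 16425232) (l 16444552))) (a (b (l 16462456) (l 16493368)) (b (l 16471392) (a (l 16503656) (l 16510888))))))) (a (b (a (l 16557248) (a (l 16497800) (l 16476256))) (a (b (a (l 16459648) (l 16503872)) (a (l 16536640) (l 16526232))) (b (a (l 16509408) (l 16543144)) (b (a (l 16546488) (l 16582968))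 (a (l 16574216) (l 16610896)))))) (b (a (a (l 16509184) (b (l 16512968) (l 16552840))) (a (b (l 16531104) (l 16554336)) (b (a (l 16545160) (l 16554840)) (a (l 16592632) (b (l 16590992) (l 16617896)))))) (a (b (a (l 16573808) (l 16643280)) (b (a (l 16614312) (l 16643344)) (a (l 16642728) (b (l 16666168) (l 16682624))))) (b (a (a (l 16621416) (l 16697952)) (a (b (l 16633624) (l 6)) (l 6))) (a (b (b (l 16665600) (a (l 16652616) (l 6))) (a (b (l 16689944) (l 16707840)) (l 6))) (l 6)))))))), by decide +kernel⟩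

theorem s2_pm_012 : ∃ t, chk3 f_pm_012 t 1 1 1 = true := ex3_a k0_pm_012 k1_pm_012

theorem c_pm_012 : CertB 0 536870912 0 536870912 697932185 42949674 3 eng mog cd2q0 cd0q2 pd1 false true false .pnp 0 1 2
    ndB2q0 ndB0q2 pcB1 cut_pm_012 xt_pm_012 :=
  certB2 (fam := false) (s1 := true) (s2 := false) (a := 0) (b := 1) (c := 2) (cn := .pnp) (n1 := ndB2q0) (n2 := ndB0q2) (pc := pcB1) (cut := cut_pm_012) (xt := xt_pm_012) (P1 := 0) (W1 := 536870912) (P2 := 0) (W2 := 536870912) (P3 := 697932185) (W3 := 42949674) (N0 := 3) (En := eng) (mo := mog) (C1 := cd2q0) (C2 := cd0q2) (C3 := pd1)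
    rfl (fun _ => rfl) s2_pm_012

noncomputable def cut_pm_022 : Cut := Cut.of [[⟨0, 0, 0, 67108864⟩, ⟨1, 1, 0, 67108864⟩, ⟨2, 1, 0, 67108864⟩]]

noncomputable def f_pm_022 : ℕ → ℕ → ℕ → ℕ → Bool := onCell 0 536870912 0 536870912 697932185 42949674
    (rowB 3 eng mog cd2q0 cd0q2 pd2 0 false true false .pp 0 2 2 (qsf 0 536870912 0 536870912 2) ndB2q0 ndB0q2 pcB2 cut_pm_022 Ext.none)

def k0_pm_022 : ∃ t, chk3 f_pm_022 t 4 2 1 = true :=
  ⟨(b (a (b (b (a (l 16452032) (l 16456032)) (a (b (l 16451672) (l 16452304)) (l 16454536))) (a (l 16457864) (l 16454280))) (b (b (l 16460848) (l 16457088)) (l 16447248))) (a (b (a (b (l 16469280) (l 16479512)) (l 16462296)) (a (b (a (l 16505784) (l 16507232)) (a (b (l 16507376) (l 16517904)) (b (l 16496544) (l 16505848)))) (b (l 16492344) (a (l 16489136) (l 16476168))))) (b (b (l 16461976) (l 16501920)) (b (a (l 16449448) (l 16425336)) (a (l 16455416) (l 16425336)))))), by decide +kernel⟩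

def k1_pm_022 : ∃ t, chk3 f_pm_022 t 4 3 1 = true :=
  ⟨(b (a (b (a (b (a (a (b (l 16532904) (a (l 16541816) (l 16543416))) (b (l 16526512) (l 16538784))) (b (l 16516432) (l 16527760))) (a (a (b (a (b (l 16548192) (l 16552768)) (l 16552080)) (a (b (l 16557584) (l 16562512)) (l 16561640))) (b (l 16551320) (l 16563848))) (b (l 16539288) (l 16551208)))) (b (a (l 16528008) (l 16491352)) (a (l 16548640) (l 16509072)))) (a (a (b (a (b (a (b (l 16567448) (l 16572416)) (b (l 16569024) (l 16573976))) (a (b (l 16577424) (l 16582512)) (l 16581536))) (b (l 16573696) (l 16583656))) (b (a (a (b (l 16587688) (l 16593096)) (l 16591912)) (l 16593992)) (a (a (b (l 16598952) (l 16605288)) (l 16603584)) (l 16605624)))) (b (b (l 16564104) (l 16578176)) (b (l 16593184) (l 16608216)))) (b (a (a (l 16513896) (l 16545264)) (l 16528816)) (a (l 16576928) (l 16572664))))) (b (b (a (l 16508168) (l 16429728)) (a (l 16521184) (l 16456744))) (b (a (a (l 16505848) (l 16481616)) (a (l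 16456056) (l 1))) (a (a (l 16524984) (l 16496744)) (l 1))))) (a (b (b (a (a (a (a (b (b (l 16612112) (l 16619416)) (b (l 16627200) (l 6))) (b (l 16617200) (l 16632760))) (b (l 16619200) (l 16634720))) (b (l 16622488) (l 16636504))) (a (l 16623208) (b (l 16568016) (l 16577840)))) (a (l 6) (a (l 6) (b (l 16586968) (l 16595496))))) (a (l 6) (a (l 6) (l 1)))) (b (b (a (a (b (l 16538216) (l 16545808)) (l 1)) (l 1)) (l 1)) (l 1)))), by decide +kernel⟩

def k2_pm_022 : ∃ t, chk3 f_pm_022 t 5 1 1 = true :=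
  ⟨(b (a (b (b (a (l 16459968) (l 1)) (l 54793789415)) (a (b (l 16415064) (b (l 16398936) (l 16392304))) (l 1))) (l 1)) (b (l 1) (l 1))), by decide +kernel⟩

def k3_pm_022 : ∃ t, chk3 f_pm_022 t 3 1 1 = true :=
  ⟨(l 1), by decide +kernel⟩

theorem s4_pm_022 : ∃ t, chk3 f_pm_022 t 4 1 1 = true := ex3_b k0_pm_022 k1_pm_022

theorem s5_pm_022 : ∃ t, chk3 f_pm_022 t 2 1 1 = true := ex3_a s4_pm_022 k2_pm_022

theorem s6_pm_022 : ∃ t, chk3 f_pm_022 t 1 1 1 = true := ex3_a s5_pm_022 k3_pm_022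

theorem c_pm_022 : CertB 0 536870912 0 536870912 697932185 42949674 3 eng mog cd2q0 cd0q2 pd2 false true false .pp 0 2 2
    ndB2q0 ndB0q2 pcB2 cut_pm_022 Ext.none :=
  certB0 (fam := false) (s1 := true) (s2 := false) (a := 0) (b := 2) (c := 2) (cn := .pp) (n1 := ndB2q0) (n2 := ndB0q2) (pc := pcB2) (cut := cut_pm_022) (xt := Ext.none) (P1 := 0) (W1 := 536870912) (P2 := 0) (W2 := 536870912) (P3 := 697932185) (W3 := 42949674) (N0 := 3) (En := eng) (mo := mog) (C1 := cd2q0) (C2 := cd0q2) (C3 := pd2)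
    rfl s6_pm_022

noncomputable def f_pm_101 : ℕ → ℕ → ℕ → ℕ → Bool := onCell 0 536870912 536870912 536870912 697932185 42949674
    (rowB 3 eng mog cd2q1 cd0q1 pd0 2 false true false .npn 1 0 1 (qsf 536870912 536870912 536870912 536870912 0) ndB2q1 ndB0q1 pcB0 Cut.none Ext.none)

def k0_pm_101 : ∃ t, chk3 f_pm_101 t 1 2 1 = true :=
  ⟨(a (b (l 4) (a (b (l 4) (l 4)) (l 4))) (l 4)), by decide +kernel⟩

def k1_pm_101 : ∃ t, chk3 f_pm_101 t 1 6 1 = true :=
  ⟨(b (a (a (a (b (a (l 16407736) (l 16429880)) (a (l 16383672) (l 16393808))) (b (a (l 16451552) (l 4)) (a (l 16403456) (l 16414192)))) (a (b (l 4) (a (l 16425304) (l 16436056))) (l 4))) (l 4)) (a (a (a (b (a (l 16368640) (l 16372200)) (a (l 16367640) (l 16365840))) (b (l 16562848) (a (l 16361976) (l 16356040)))) (a (a (b (l 16371832) (l 16347784)) (b (l 16367816) (l 16332968))) (b (a (l 16364336) (l 16398264)) (a (l 16311904) (l 16296976))))) (a (a (b (a (l 16431024) (l 4)) (a (l 16342768) (l 16378440)))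 (b (l 4) (a (l 16409008) (l 16499968)))) (l 4)))), by decide +kernel⟩

def k2_pm_101 : ∃ t, chk3 f_pm_101 t 2 7 1 = true :=
  ⟨(a (b (a (b (a (b (l 16372184) (l 16378448)) (b (l 16367152) (l 16371368))) (a (b (l 16389536) (l 16405952)) (b (l 16380480) (l 16394984)))) (b (a (b (l 16359856) (l 16362048)) (l 16371464)) (a (b (l 16369280) (l 16382040)) (b (l 16356368) (l 16367680))))) (a (b (b (a (b (a (l 16419616) (b (l 16415728) (l 16417360))) (l 16423056)) (b (a (l 16412368) (l 16406008)) (a (l 16416248) (l 16409720)))) (a (a (l 16431168) (l 16427008)) (l 16419384))) (a (b (l 16441448) (l 16451312)) (b (l 16428568) (l 16438504)))) (b (b (a (b (l 16394192) (a (l 16403472) (l 16398016))) (b (l 16378920) (a (l 16434208) (l 16385024)))) (a (l 16407008) (a (l 16396864) (l 16388944)))) (a (b (l 16414832) (l 16423568)) (b (l 16400200) (l 16407976)))))) (b (a (b (a (l 16338056) (b (l 16317896) (l 16312648))) (a (b (l 16341824) (l 16352144)) (b (l 16313320) (l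 16320312)))) (b (a (l 16278440) (l 16242048)) (a (l 16285496) (l 16211472)))) (a (b (b (a (l 16367280) (c (l 16354584) (l 16310408))) (a (b (a (l 16380344) (l 16437168)) (l 16381048)) (b (a (c (l 16402528) (l 16340328)) (l 16328096)) (l 16387792)))) (a (a (b (l 16388960) (l 16396024)) (b (l 16381240) (l 16387400))) (a (b (l 16363384) (l 16366112)) (a (l 16339280) (l 16321152))))) (b (b (a (l 16268024) (l 16202112)) (b (a (l 16274496) (l 16200920)) (a (l 16336936) (l 16201536)))) (a (a (l 16356280) (l 16254864)) (a (l 16214936) (l 16173632))))))), by decide +kernel⟩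

def k3_pm_101 : ∃ t, chk3 f_pm_101 t 3 7 1 = true :=
  ⟨(a (a (b (b (a (l 16234432) (l 16281936)) (a (l 16158056) (l 16195896))) (a (b (b (l 16135000) (l 16126664)) (b (l 16111840) (l 16103208))) (b (l 16186904) (a (b (l 16124512) (l 16130952)) (b (a (l 16138208) (l 16146400)) (l 16154000)))))) (b (b (a (l 16317392) (l 16350024)) (a (l 16230688) (l 16263064))) (b (a (l 16172832) (l 16198744)) (a (b (a (l 16151096) (l 16154344)) (b (l 16149336) (l 16170584))) (b (l 16274776) (l 16145200)))))) (a (b (b (a (l 16380928) (l 16409176)) (l 16526752)) (b (l 16360872) (l 16196120))) (b (b (l 1) (a (l 16363128) (l 1))) (b (l 16464424) (l 16250528))))), by decide +kernel⟩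

theorem s4_pm_101 : ∃ t, chk3 f_pm_101 t 1 7 1 = true := ex3_a k2_pm_101 k3_pm_101

theorem s5_pm_101 : ∃ t, chk3 f_pm_101 t 1 3 1 = true := ex3_b k1_pm_101 s4_pm_101

theorem s6_pm_101 : ∃ t, chk3 f_pm_101 t 1 1 1 = true := ex3_b k0_pm_101 s5_pm_101

theorem c_pm_101 : CertB 536870912 536870912 536870912 536870912 697932185 42949674 3 eng mog cd2q1 cd0q1 pd0 false true false .npn 1 0 1
    ndB2q1 ndB0q1 pcB0 Cut.none Ext.none :=
  certB2 (fam := false) (s1 := true) (s2 := false) (a := 1) (b := 0) (c := 1) (cn := .npn) (n1 := ndB2q1) (n2 := ndB0q1) (pc := pcB0) (cut := Cut.none) (xt := Ext.none) (P1 := 536870912) (W1 := 536870912) (P2 := 536870912) (W2 := 536870912) (P3 := 697932185) (W3 := 42949674) (N0 := 3) (En := eng) (mo := mog) (C1 := cd2q1) (C2 := cd0q1) (C3 := pd0)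
    rfl (fun _ => rfl) s6_pm_101

noncomputable def f_pm_102 : ℕ → ℕ → ℕ → ℕ → Bool := onCell 0 536870912 0 536870912 697932185 42949674
    (rowB 3 eng mog cd2q1 cd0q2 pd0 2 false true false .npp 1 0 2 (qsf 536870912 536870912 0 536870912 0) ndB2q1 ndB0q2 pcB0 Cut.none Ext.none)

def k0_pm_102 : ∃ t, chk3 f_pm_102 t 2 2 1 = true :=
  ⟨(a (b (l 2) (a (l 2) (b (l 2) (a (l 2) (a (l 2) (b (l 2) (b (l 1040556197575) (l 91368454135)))))))) (b (a (l 3) (b (l 3) (a (b (l 3) (a (l 3) (b (l 3) (l 116131540535)))) (b (a (l 3) (b (l 3) (l 165523639815))) (a (b (l 131700784551) (l 103783506391)) (b (l 103246623943) (a (l 16571880) (l 16573968)))))))) (a (b (a (b (l 3) (a (b (l 3) (l 118279038855)) (b (l 134921996695) (l 133311418759)))) (b (a (l 3) (b (l 3) (a (b (l 3) (l 16572152)) (b (l 16570304) (l 16572560))))) (a (b (l 130090149447) (a (a (l 16597680) (l 16577752)) (l 16579224))) (b (a (b (l 16574112) (l 16575160)) (b (l 16574000) (l 16576312))) (l 16581616)))))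 (a (b (a (a (b (l 16577920) (l 16584560)) (b (l 118279070807) (l 16589416))) (b (a (l 16624288) (l 16584224)) (l 16589920))) (b (a (b (l 16591768) (l 16594568)) (l 16597264)) (a (l 16598192) (l 16601992)))) (b (a (b (l 16586952) (l 16593504)) (b (l 16586944) (l 16594312))) (a (l 16603176) (l 16602672))))) (b (a (b (a (a (l 115594687207) (b (l 16588016) (l 16593968))) (b (b (l 16569216) (l 16572008)) (b (l 16574632) (l 16577000)))) (b (a (b (a (l 16575216) (l 16576920)) (l 16578528)) (l 16580144)) (a (l 16582664) (l 16584680)))) (b (b (a (a (l 16573080) (l 16574816)) (l 16577688)) (l 16579504)) (a (l 16584616) (l 16588152)))) (b (a (b (a (l 16588656) (l 16590784)) (l 16595544)) (l 16597360)) (a (a (l 16603768) (l 16605168)) (b (l 16606136) (l 16611376)))))))), by decide +kernel⟩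

def k1_pm_102 : ∃ t, chk3 f_pm_102 t 2 3 1 = true :=
  ⟨(a (a (b (l 2) (b (a (l 2) (b (a (l 2) (l 16556888)) (l 16546416))) (b (a (b (a (l 2) (l 16525880)) (l 16513112)) (b (a (l 16536536) (l 16547576)) (l 16531800))) (a (b (l 16497904) (a (l 16476720) (l 16467016))) (b (l 16498368) (l 16454912)))))) (b (b (a (l 2) (b (b (a (l 2) (l 16597824)) (a (l 16597336) (l 16601192))) (b (l 16604632) (a (l 16606424) (l 16611832))))) (a (b (a (l 2) (l 16600160)) (l 16601952)) (b (l 16607216) (l 16599328)))) (b (a (b (l 16573136) (l 16568368)) (l 16588888)) (b (b (a (l 16554576) (l 16535784)) (a (l 16518792) (l 16483408))) (a (l 16537936) (l 16438848)))))) (b (b (a (a (b (b (l 16603680) (l 16567632)) (a (l 16614672) (l 16621608))) (b (b (l 16610848) (l 16616960)) (a (l 16626592) (l 16625808)))) (b (a (b (l 16613656) (l 16617712)) (l 16615608)) (a (l 16623376) (l 16615160)))) (a (a (b (l 16643920) (l 16617504)) (b (l 16630360) (l 16618544))) (a (b (l 16620536) (l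 16595616)) (b (l 16601304) (l 16562616))))) (b (b (a (a (l 16605520) (l 16588664)) (l 16670304)) (a (a (l 16566776) (l 16516192)) (l 16516760))) (a (a (a (b (l 16488720) (l 16427240)) (b (l 16520840) (l 16418432))) (a (b (l 16453840) (l 16394808)) (b (l 16422232) (l 16360400)))) (b (a (l 16413792) (l 16297840)) (a (l 16305120) (l 16224792))))))), by decide +kernel⟩

def k2_pm_102 : ∃ t, chk3 f_pm_102 t 6 2 1 = true :=
  ⟨(b (a (b (b (l 3) (a (a (l 3) (c (l 195051538151) (l 189145915431))) (a (b (l 3) (l 174113544631)) (b (l 169281705207) (l 16577920))))) (a (b (a (a (l 163376157911) (l 161228680823)) (b (a (l 16569624) (l 16572280)) (a (l 16573064) (l 16575208)))) (a (b (a (l 16572048) (l 16574128)) (l 16619640)) (b (l 16577576) (l 16580800)))) (b (a (b (l 16575840) (l 16578704)) (b (l 16580408) (l 16583440))) (l 16585704)))) (b (a (b (a (b (l 3) (l 166597356231)) (b (l 177334782471) (l 171429205927))) (a (b (l 168744845255) (l 16583112)) (b (l 16586808)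 (l 16589256)))) (b (a (b (l 169818635319) (l 16591352)) (b (l 16597120) (l 16598032))) (b (a (l 16593136) (l 16599384)) (l 16597392)))) (a (b (a (b (l 16586008) (l 16588256)) (l 16592176)) (l 16593976)) (b (l 16599216) (l 16601648))))) (b (a (b (a (l 16584080) (l 16592544)) (a (l 16593808) (l 16599432))) (b (a (l 16599728) (l 16603080)) (l 16624864))) (a (b (a (l 16602848) (l 16606480)) (a (l 16674024) (b (l 16610120) (l 16607912)))) (a (b (l 16606136) (l 16605640)) (b (l 16602224) (l 16598648)))))), by decide +kernel⟩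

def k3_pm_102 : ∃ t, chk3 f_pm_102 t 6 3 1 = true :=
  ⟨(a (b (a (b (b (l 16610344) (l 16599336)) (l 16573304)) (b (b (l 16598872) (a (l 16583232) (l 16572032))) (a (l 16675216) (b (l 16542288) (l 16498104))))) (a (b (l 16420448) (b (l 16278656) (l 16171648))) (b (a (a (l 16400720) (l 16397408)) (a (l 16397712) (l 16394744))) (a (a (l 16312608) (b (l 16354960) (l 16183320))) (b (a (l 16258888) (l 16242280)) (a (l 16173296) (l 16164000))))))) (b (a (b (b (l 16593136) (l 16655744)) (a (l 16514368) (l 16506600))) (b (b (l 16587352) (a (l 16573056) (l 16560632))) (a (l 16500112) (l 16494040)))) (b (a (a (l 16448840) (l 16373512)) (a (l 16428016) (l 16364864))) (a (a (b (l 16255232) (l 16177664)) (b (l 16267432) (l 16194992))) (a (a (l 16342536) (l 16257920)) (b (l 16264736) (l 16200856))))))), by decide +kernel⟩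

def k4_pm_102 : ∃ t, chk3 f_pm_102 t 7 1 1 = true :=
  ⟨(b (b (b (a (b (a (b (a (l 16603704) (l 16609632)) (l 16607168)) (a (l 16614776) (l 16618904))) (l 16611152)) (b (l 16627368) (l 16641920))) (a (b (a (l 16606176) (l 16611672)) (l 16607944)) (a (l 16611520) (l 16609792)))) (b (a (l 16621512) (l 16588032)) (a (b (l 16589824) (l 16577360)) (b (l 16569824) (l 16549608))))) (b (b (a (b (l 16557296) (l 16529504)) (l 16510744)) (a (l 16634128) (l 16479040))) (b (a (l 16376800) (l 16352840)) (a (b (l 16275064) (l 16227328)) (b (l 16298776) (l 16268392)))))), by decide +kernel⟩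

theorem s5_pm_102 : ∃ t, chk3 f_pm_102 t 6 1 1 = true := ex3_b k2_pm_102 k3_pm_102

theorem s6_pm_102 : ∃ t, chk3 f_pm_102 t 3 1 1 = true := ex3_a s5_pm_102 k4_pm_102

theorem s7_pm_102 : ∃ t, chk3 f_pm_102 t 2 1 1 = true := ex3_b k0_pm_102 k1_pm_102

theorem s8_pm_102 : ∃ t, chk3 f_pm_102 t 1 1 1 = true := ex3_a s7_pm_102 s6_pm_102

theorem c_pm_102 : CertB 536870912 536870912 0 536870912 697932185 42949674 3 eng mog cd2q1 cd0q2 pd0 false true false .npp 1 0 2
    ndB2q1 ndB0q2 pcB0 Cut.none Ext.none :=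
  certB2 (fam := false) (s1 := true) (s2 := false) (a := 1) (b := 0) (c := 2) (cn := .npp) (n1 := ndB2q1) (n2 := ndB0q2) (pc := pcB0) (cut := Cut.none) (xt := Ext.none) (P1 := 536870912) (W1 := 536870912) (P2 := 0) (W2 := 536870912) (P3 := 697932185) (W3 := 42949674) (N0 := 3) (En := eng) (mo := mog) (C1 := cd2q1) (C2 := cd0q2) (C3 := pd0)
    rfl (fun _ => rfl) s8_pm_102

noncomputable def f_pm_112 : ℕ → ℕ → ℕ → ℕ → Bool := onCell 536870912 536870912 0 536870912 697932185 42949674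
    (rowB 3 eng mog cd2q1 cd0q2 pd1 0 false true false .dn 1 1 2 (qsf 536870912 536870912 0 536870912 1) ndB2q1 ndB0q2 pcB1 Cut.none Ext.none)

def k0_pm_112 : ∃ t, chk3 f_pm_112 t 1 1 1 = true :=
  ⟨(a (b (a (b (a (l 16716400) (b (l 16611040) (l 16578472))) (b (a (l 16519232) (l 16543880)) (a (l 16487904) (l 16510552)))) (a (b (b (a (l 16610864) (l 1)) (l 16582480)) (b (l 162168423911) (l 155189188903))) (l 1))) (a (b (b (a (l 16452048) (l 16467832)) (a (l 16403752) (l 16408112))) (b (a (l 16348032) (l 16337704)) (b (l 16378488) (l 16342800)))) (b (l 1) (l 1)))) (l 1)), by decide +kernel⟩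

theorem c_pm_112 : CertB 536870912 536870912 0 536870912 697932185 42949674 3 eng mog cd2q1 cd0q2 pd1 false true false .dn 1 1 2
    ndB2q1 ndB0q2 pcB1 Cut.none Ext.none :=
  certB0 (fam := false) (s1 := true) (s2 := false) (a := 1) (b := 1) (c := 2) (cn := .dn) (n1 := ndB2q1) (n2 := ndB0q2) (pc := pcB1) (cut := Cut.none) (xt := Ext.none) (P1 := 536870912) (W1 := 536870912) (P2 := 0) (W2 := 536870912) (P3 := 697932185) (W3 := 42949674) (N0 := 3) (En := eng) (mo := mog) (C1 := cd2q1) (C2 := cd0q2) (C3 := pd1)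
    rfl k0_pm_112

noncomputable def cut_pm_202_a : Cut := Cut.of [[⟨0, 1, 0, 67108864⟩, ⟨1, 0, 0, 67108864⟩, ⟨2, 1, 0, 67108864⟩]]

noncomputable def f_pm_202_a : ℕ → ℕ → ℕ → ℕ → Bool := onCell 0 536870912 0 536870912 697932185 42949674
    (rowB 3 eng mog cd2q2a cd0q2 pd0 0 false true false .pp 2 0 2 (qsf 0 536870912 0 536870912 0) ndB2q2a ndB0q2 pcB0 cut_pm_202_a Ext.none)

def k0_pm_202_a : ∃ t, chk3 f_pm_202_a t 1 1 1 = true :=
  ⟨(a (l 3) (b (l 3) (b (l 3) (a (l 3) (b (l 3) (a (l 3) (l 6))))))), by decide +kernel⟩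

theorem c_pm_202_a : CertB 0 536870912 0 536870912 697932185 42949674 3 eng mog cd2q2a cd0q2 pd0 false true false .pp 2 0 2
    ndB2q2a ndB0q2 pcB0 cut_pm_202_a Ext.none :=
  certB0 (fam := false) (s1 := true) (s2 := false) (a := 2) (b := 0) (c := 2) (cn := .pp) (n1 := ndB2q2a) (n2 := ndB0q2) (pc := pcB0) (cut := cut_pm_202_a) (xt := Ext.none) (P1 := 0) (W1 := 536870912) (P2 := 0) (W2 := 536870912) (P3 := 697932185) (W3 := 42949674) (N0 := 3) (En := eng) (mo := mog) (C1 := cd2q2a) (C2 := cd0q2) (C3 := pd0)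
    rfl k0_pm_202_a

noncomputable def cut_pm_202_b : Cut := Cut.of [[⟨0, 1, 0, 67108864⟩, ⟨1, 0, 0, 67108864⟩, ⟨2, 1, 0, 67108864⟩]]

noncomputable def f_pm_202_b : ℕ → ℕ → ℕ → ℕ → Bool := onCell 1239849684 370763052 0 536870912 697932185 42949674
    (rowB 3 eng mog cd2q2b cd0q2 pd0 0 false true false .pp 2 0 2 (qsf 1239849684 370763052 0 536870912 0) ndB2q2b ndB0q2 pcB0 cut_pm_202_b Ext.none)

def k0_pm_202_b : ∃ t, chk3 f_pm_202_b t 1 1 1 = true :=
  ⟨(l 3), by decide +kernel⟩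

theorem c_pm_202_b : CertB 1239849684 370763052 0 536870912 697932185 42949674 3 eng mog cd2q2b cd0q2 pd0 false true false .pp 2 0 2
    ndB2q2b ndB0q2 pcB0 cut_pm_202_b Ext.none :=
  certB0 (fam := false) (s1 := true) (s2 := false) (a := 2) (b := 0) (c := 2) (cn := .pp) (n1 := ndB2q2b) (n2 := ndB0q2) (pc := pcB0) (cut := cut_pm_202_b) (xt := Ext.none) (P1 := 1239849684) (W1 := 370763052) (P2 := 0) (W2 := 536870912) (P3 := 697932185) (W3 := 42949674) (N0 := 3) (En := eng) (mo := mog) (C1 := cd2q2b) (C2 := cd0q2) (C3 := pd0)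
    rfl k0_pm_202_b

noncomputable def f_mm_001 : ℕ → ℕ → ℕ → ℕ → Bool := onCell 0 536870912 536870912 536870912 697932185 42949674
    (rowB 3 eng mog cd2q0 cd0q1 pd0 0 false false false .up 0 0 1 (qsf 0 536870912 536870912 536870912 0) ndB2q0 ndB0q1 pcB0 Cut.none Ext.none)

def k0_mm_001 : ∃ t, chk3 f_mm_001 t 1 1 1 = true :=
  ⟨(l 5), by decide +kernel⟩

theorem c_mm_001 : CertB 0 536870912 536870912 536870912 697932185 42949674 3 eng mog cd2q0 cd0q1 pd0 false false false .up 0 0 1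
    ndB2q0 ndB0q1 pcB0 Cut.none Ext.none :=
  certB0 (fam := false) (s1 := false) (s2 := false) (a := 0) (b := 0) (c := 1) (cn := .up) (n1 := ndB2q0) (n2 := ndB0q1) (pc := pcB0) (cut := Cut.none) (xt := Ext.none) (P1 := 0) (W1 := 536870912) (P2 := 536870912) (W2 := 536870912) (P3 := 697932185) (W3 := 42949674) (N0 := 3) (En := eng) (mo := mog) (C1 := cd2q0) (C2 := cd0q1) (C3 := pd0)
    rfl k0_mm_001

noncomputable def f_mm_011 : ℕ → ℕ → ℕ → ℕ → Bool := onCell 0 536870912 536870912 536870912 697932185 42949674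
    (rowB 3 eng mog cd2q0 cd0q1 pd1 0 false false false .pnn 0 1 1 (qsf 0 536870912 536870912 536870912 1) ndB2q0 ndB0q1 pcB1 Cut.none Ext.none)

def k0_mm_011 : ∃ t, chk3 f_mm_011 t 1 1 1 = true :=
  ⟨(l 5), by decide +kernel⟩

theorem c_mm_011 : CertB 0 536870912 536870912 536870912 697932185 42949674 3 eng mog cd2q0 cd0q1 pd1 false false false .pnn 0 1 1
    ndB2q0 ndB0q1 pcB1 Cut.none Ext.none :=
  certB0 (fam := false) (s1 := false) (s2 := false) (a := 0) (b := 1) (c := 1) (cn := .pnn) (n1 := ndB2q0) (n2 := ndB0q1) (pc := pcB1) (cut := Cut.none) (xt := Ext.none) (P1 := 0) (W1 := 536870912) (P2 := 536870912) (W2 := 536870912) (P3 := 697932185) (W3 := 42949674) (N0 := 3) (En := eng) (mo := mog) (C1 := cd2q0) (C2 := cd0q1) (C3 := pd1)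
    rfl k0_mm_011

noncomputable def f_mm_012 : ℕ → ℕ → ℕ → ℕ → Bool := onCell 0 536870912 0 536870912 697932185 42949674
    (rowB 3 eng mog cd2q0 cd0q2 pd1 0 false false false .pnp 0 1 2 (qsf 0 536870912 0 536870912 1) ndB2q0 ndB0q2 pcB1 Cut.none Ext.none)

def k0_mm_012 : ∃ t, chk3 f_mm_012 t 1 1 1 = true :=
  ⟨(l 5), by decide +kernel⟩

theorem c_mm_012 : CertB 0 536870912 0 536870912 697932185 42949674 3 eng mog cd2q0 cd0q2 pd1 false false false .pnp 0 1 2
    ndB2q0 ndB0q2 pcB1 Cut.none Ext.none :=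
  certB0 (fam := false) (s1 := false) (s2 := false) (a := 0) (b := 1) (c := 2) (cn := .pnp) (n1 := ndB2q0) (n2 := ndB0q2) (pc := pcB1) (cut := Cut.none) (xt := Ext.none) (P1 := 0) (W1 := 536870912) (P2 := 0) (W2 := 536870912) (P3 := 697932185) (W3 := 42949674) (N0 := 3) (En := eng) (mo := mog) (C1 := cd2q0) (C2 := cd0q2) (C3 := pd1)
    rfl k0_mm_012

noncomputable def f_mm_022 : ℕ → ℕ → ℕ → ℕ → Bool := onCell 0 536870912 0 536870912 697932185 42949674
    (rowB 3 eng mog cd2q0 cd0q2 pd2 0 false false false .pp 0 2 2 (qsf 0 536870912 0 536870912 2) ndB2q0 ndB0q2 pcB2 Cut.none Ext.none)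

def k0_mm_022 : ∃ t, chk3 f_mm_022 t 1 1 1 = true :=
  ⟨(l 5), by decide +kernel⟩

theorem c_mm_022 : CertB 0 536870912 0 536870912 697932185 42949674 3 eng mog cd2q0 cd0q2 pd2 false false false .pp 0 2 2
    ndB2q0 ndB0q2 pcB2 Cut.none Ext.none :=
  certB0 (fam := false) (s1 := false) (s2 := false) (a := 0) (b := 2) (c := 2) (cn := .pp) (n1 := ndB2q0) (n2 := ndB0q2) (pc := pcB2) (cut := Cut.none) (xt := Ext.none) (P1 := 0) (W1 := 536870912) (P2 := 0) (W2 := 536870912) (P3 := 697932185) (W3 := 42949674) (N0 := 3) (En := eng) (mo := mog) (C1 := cd2q0) (C2 := cd0q2) (C3 := pd2)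
    rfl k0_mm_022

noncomputable def f_mm_101 : ℕ → ℕ → ℕ → ℕ → Bool := onCell 536870912 536870912 536870912 536870912 697932185 42949674
    (rowB 3 eng mog cd2q1 cd0q1 pd0 0 false false false .npn 1 0 1 (qsf 536870912 536870912 536870912 536870912 0) ndB2q1 ndB0q1 pcB0 Cut.none Ext.none)

def k0_mm_101 : ∃ t, chk3 f_mm_101 t 1 1 1 = true :=
  ⟨(l 3), by decide +kernel⟩

theorem c_mm_101 : CertB 536870912 536870912 536870912 536870912 697932185 42949674 3 eng mog cd2q1 cd0q1 pd0 false false false .npn 1 0 1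
    ndB2q1 ndB0q1 pcB0 Cut.none Ext.none :=
  certB0 (fam := false) (s1 := false) (s2 := false) (a := 1) (b := 0) (c := 1) (cn := .npn) (n1 := ndB2q1) (n2 := ndB0q1) (pc := pcB0) (cut := Cut.none) (xt := Ext.none) (P1 := 536870912) (W1 := 536870912) (P2 := 536870912) (W2 := 536870912) (P3 := 697932185) (W3 := 42949674) (N0 := 3) (En := eng) (mo := mog) (C1 := cd2q1) (C2 := cd0q1) (C3 := pd0)
    rfl k0_mm_101

noncomputable def f_mm_102 : ℕ → ℕ → ℕ → ℕ → Bool := onCell 536870912 536870912 0 536870912 697932185 42949674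
    (rowB 3 eng mog cd2q1 cd0q2 pd0 0 false false false .npp 1 0 2 (qsf 536870912 536870912 0 536870912 0) ndB2q1 ndB0q2 pcB0 Cut.none Ext.none)

def k0_mm_102 : ∃ t, chk3 f_mm_102 t 1 1 1 = true :=
  ⟨(l 5), by decide +kernel⟩

theorem c_mm_102 : CertB 536870912 536870912 0 536870912 697932185 42949674 3 eng mog cd2q1 cd0q2 pd0 false false false .npp 1 0 2
    ndB2q1 ndB0q2 pcB0 Cut.none Ext.none :=
  certB0 (fam := false) (s1 := false) (s2 := false) (a := 1) (b := 0) (c := 2) (cn := .npp) (n1 := ndB2q1) (n2 := ndB0q2) (pc := pcB0) (cut := Cut.none) (xt := Ext.none) (P1 := 536870912) (W1 := 536870912) (P2 := 0) (W2 := 536870912) (P3 := 697932185) (W3 := 42949674) (N0 := 3) (En := eng) (mo := mog) (C1 := cd2q1) (C2 := cd0q2) (C3 := pd0)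
    rfl k0_mm_102

noncomputable def f_mm_112 : ℕ → ℕ → ℕ → ℕ → Bool := onCell 536870912 536870912 0 536870912 697932185 42949674
    (rowB 3 eng mog cd2q1 cd0q2 pd1 0 false false false .dn 1 1 2 (qsf 536870912 536870912 0 536870912 1) ndB2q1 ndB0q2 pcB1 Cut.none Ext.none)

def k0_mm_112 : ∃ t, chk3 f_mm_112 t 1 1 1 = true :=
  ⟨(l 5), by decide +kernel⟩

theorem c_mm_112 : CertB 536870912 536870912 0 536870912 697932185 42949674 3 eng mog cd2q1 cd0q2 pd1 false false false .dn 1 1 2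
    ndB2q1 ndB0q2 pcB1 Cut.none Ext.none :=
  certB0 (fam := false) (s1 := false) (s2 := false) (a := 1) (b := 1) (c := 2) (cn := .dn) (n1 := ndB2q1) (n2 := ndB0q2) (pc := pcB1) (cut := Cut.none) (xt := Ext.none) (P1 := 536870912) (W1 := 536870912) (P2 := 0) (W2 := 536870912) (P3 := 697932185) (W3 := 42949674) (N0 := 3) (En := eng) (mo := mog) (C1 := cd2q1) (C2 := cd0q2) (C3 := pd1)
    rfl k0_mm_112

noncomputable def f_mm_202_a : ℕ → ℕ → ℕ → ℕ → Bool := onCell 0 536870912 0 536870912 697932185 42949674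
    (rowB 3 eng mog cd2q2a cd0q2 pd0 0 false false false .pp 2 0 2 (qsf 0 536870912 0 536870912 0) ndB2q2a ndB0q2 pcB0 Cut.none Ext.none)

def k0_mm_202_a : ∃ t, chk3 f_mm_202_a t 1 1 1 = true :=
  ⟨(l 3), by decide +kernel⟩

theorem c_mm_202_a : CertB 0 536870912 0 536870912 697932185 42949674 3 eng mog cd2q2a cd0q2 pd0 false false false .pp 2 0 2
    ndB2q2a ndB0q2 pcB0 Cut.none Ext.none :=
  certB0 (fam := false) (s1 := false) (s2 := false) (a := 2) (b := 0) (c := 2) (cn := .pp) (n1 := ndB2q2a) (n2 := ndB0q2) (pc := pcB0) (cut := Cut.none) (xt := Ext.none) (P1 := 0) (W1 := 536870912) (P2 := 0) (W2 := 536870912) (P3 := 697932185) (W3 := 42949674) (N0 := 3) (En := eng) (mo := mog) (C1 := cd2q2a) (C2 := cd0q2) (C3 := pd0)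
    rfl k0_mm_202_a

noncomputable def f_mm_202_b : ℕ → ℕ → ℕ → ℕ → Bool := onCell 1239849684 370763052 0 536870912 697932185 42949674
    (rowB 3 eng mog cd2q2b cd0q2 pd0 0 false false false .pp 2 0 2 (qsf 1239849684 370763052 0 536870912 0) ndB2q2b ndB0q2 pcB0 Cut.none Ext.none)

def k0_mm_202_b : ∃ t, chk3 f_mm_202_b t 1 1 1 = true :=
  ⟨(l 3), by decide +kernel⟩

theorem c_mm_202_b : CertB 1239849684 370763052 0 536870912 697932185 42949674 3 eng mog cd2q2b cd0q2 pd0 false false false .pp 2 0 2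
    ndB2q2b ndB0q2 pcB0 Cut.none Ext.none :=
  certB0 (fam := false) (s1 := false) (s2 := false) (a := 2) (b := 0) (c := 2) (cn := .pp) (n1 := ndB2q2b) (n2 := ndB0q2) (pc := pcB0) (cut := Cut.none) (xt := Ext.none) (P1 := 1239849684) (W1 := 370763052) (P2 := 0) (W2 := 536870912) (P3 := 697932185) (W3 := 42949674) (N0 := 3) (En := eng) (mo := mog) (C1 := cd2q2b) (C2 := cd0q2) (C3 := pd0)
    rfl k0_mm_202_b

end Pool.Agent.Strip051.G.I6500_6900.Tab.C.BB20

namespace Pool.Agent.Strip051.G.I6500_6900.Tab.C.BB21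

open Pool.Agent.Strip051.PB Pool.Agent.Strip051.PB.T
open Pool.Agent.Strip051.G.I6500_6900.Tab

noncomputable def f_pp_001 : ℕ → ℕ → ℕ → ℕ → Bool := onCell 0 536870912 0 536870912 697932185 42949674
    (rowB 3 eng mog cd2q0 cd1q1 pd0 1 false true true .up 0 0 1 (qsf 0 536870912 536870912 536870912 0) ndB2q0 ndB1q1 pcB0 Cut.none Ext.none)

def k0_pp_001 : ∃ t, chk3 f_pp_001 t 1 1 1 = true :=
  ⟨(l 3), by decide +kernel⟩

theorem c_pp_001 : CertB 0 536870912 536870912 536870912 697932185 42949674 3 eng mog cd2q0 cd1q1 pd0 false true true .up 0 0 1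
    ndB2q0 ndB1q1 pcB0 Cut.none Ext.none :=
  certB1 (fam := false) (s1 := true) (s2 := true) (a := 0) (b := 0) (c := 1) (cn := .up) (n1 := ndB2q0) (n2 := ndB1q1) (pc := pcB0) (cut := Cut.none) (xt := Ext.none) (P1 := 0) (W1 := 536870912) (P2 := 536870912) (W2 := 536870912) (P3 := 697932185) (W3 := 42949674) (N0 := 3) (En := eng) (mo := mog) (C1 := cd2q0) (C2 := cd1q1) (C3 := pd0)
    rfl (fun _ => rfl) k0_pp_001

noncomputable def f_pp_011 : ℕ → ℕ → ℕ → ℕ → Bool := onCell 0 536870912 536870912 536870912 697932185 42949674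
    (rowB 3 eng mog cd2q0 cd1q1 pd1 0 false true true .pnn 0 1 1 (qsf 0 536870912 536870912 536870912 1) ndB2q0 ndB1q1 pcB1 Cut.none Ext.none)

def k0_pp_011 : ∃ t, chk3 f_pp_011 t 1 1 1 = true :=
  ⟨(a (b (l 3) (l 3)) (l 3)), by decide +kernel⟩

theorem c_pp_011 : CertB 0 536870912 536870912 536870912 697932185 42949674 3 eng mog cd2q0 cd1q1 pd1 false true true .pnn 0 1 1
    ndB2q0 ndB1q1 pcB1 Cut.none Ext.none :=
  certB0 (fam := false) (s1 := true) (s2 := true) (a := 0) (b := 1) (c := 1) (cn := .pnn) (n1 := ndB2q0) (n2 := ndB1q1) (pc := pcB1) (cut := Cut.none) (xt := Ext.none) (P1 := 0) (W1 := 536870912) (P2 := 536870912) (W2 := 536870912) (P3 := 697932185) (W3 := 42949674) (N0 := 3) (En := eng) (mo := mog) (C1 := cd2q0) (C2 := cd1q1) (C3 := pd1)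
    rfl k0_pp_011

noncomputable def cut_pp_012_a : Cut := Cut.of [[⟨0, 0, 0, 53687091⟩, ⟨1, 1, 0, 53687091⟩, ⟨2, 1, 0, 53687091⟩]]

noncomputable def f_pp_012_a : ℕ → ℕ → ℕ → ℕ → Bool := onCell 536870912 536870912 0 536870912 697932185 42949674
    (rowB 3 eng mog cd2q0 cd1q2a pd1 2 false true true .pnp 0 1 2 (qsf 0 536870912 0 536870912 1) ndB2q0 ndB1q2a pcB1 cut_pp_012_a Ext.none)

def k0_pp_012_a : ∃ t, chk3 f_pp_012_a t 2 1 1 = true :=
  ⟨(a (b (b (l 2) (b (l 2) (l 3))) (l 3)) (b (b (a (b (l 16644448) (a (b (l 16670768) (l 103716671255)) (l 16668080))) (b (l 16761456) (l 16672376))) (a (b (a (b (a (l 16677680) (l 16680928)) (a (b (l 16665096) (l 161161674711)) (l 16670088))) (b (a (l 16682736) (l 16683488)) (l 16683456))) (a (b (a (l 196125369863) (b (l 105931093575) (l 196125376743))) (l 3)) (b (a (b (l 16658536) (l 16656632)) (l 16665280)) (a (l 3) (l 171966203159))))) (b (a (b (l 16680704) (a (l 16689560) (l 16691608))) (b (l 16672576) (l 16690864)))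 (a (b (l 16709024) (a (l 105394274663) (l 16656960))) (b (a (l 16699552) (l 16702824)) (l 16683520)))))) (b (a (l 3) (b (a (b (l 178945568759) (l 3)) (b (a (l 110226160615) (l 16690632)) (l 155860199527))) (l 3))) (l 3)))), by decide +kernel⟩

def k1_pp_012_a : ∃ t, chk3 f_pp_012_a t 6 1 1 = true :=
  ⟨(b (a (b (b (a (l 16589376) (l 16568872)) (a (l 16628608) (l 16714192))) (b (a (l 16671472) (l 16656472)) (a (b (a (l 16703896) (l 16701520)) (a (l 16708552) (l 16715280))) (b (l 16693216) (a (l 16717480) (l 16714464)))))) (b (b (a (l 16548504) (l 16530952)) (a (b (l 16579784) (l 16600552)) (l 16633944))) (b (a (l 16635840) (l 16614736)) (a (b (l 16673208) (l 16699392)) (b (l 16651104) (l 16677304)))))) (a (b (a (b (b (a (l 16695880) (l 16700536)) (a (l 125258563655) (l 98415110199))) (l 3)) (b (a (b (l 16712984) (l 113447495975)) (b (l 16728616) (l 16728400))) (b (a (b (l 166597748295) (l 3)) (b (l 16758360) (l 185925072487))) (l 3)))) (l 3)) (b (a (b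 (b (l 16724216) (l 16773272)) (b (a (l 16776920) (l 16745936)) (b (a (l 151028528759) (l 16776200)) (l 213842398727)))) (b (b (l 16704848) (a (l 16735272) (l 16726696))) (b (a (l 16740440) (l 16749280)) (a (b (l 16766200) (l 200957460599)) (b (l 16756800) (l 16778016)))))) (b (a (l 3) (b (a (l 258402724743) (b (a (l 232096015927) (l 16797808)) (l 221358677175))) (l 3))) (l 3))))), by decide +kernel⟩

def k2_pp_012_a : ∃ t, chk3 f_pp_012_a t 7 2 1 = true :=
  ⟨(b (b (a (l 16530080) (a (l 16495176) (l 16492720))) (a (a (l 16552456) (l 16536760)) (a (l 16525688) (l 16519840)))) (a (b (a (b (l 16583464) (l 16606144)) (b (l 16566824) (l 16588848))) (a (b (l 16630256) (l 16655592)) (b (l 16612328) (l 16636560)))) (a (b (l 16565208) (b (l 16599392) (l 16622056))) (b (l 16555936) (b (l 16587032) (l 16606048)))))), by decide +kernel⟩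

def k3_pp_012_a : ∃ t, chk3 f_pp_012_a t 7 3 1 = true :=
  ⟨(a (b (a (b (b (l 16682312) (l 16689432)) (b (l 16738232) (a (b (l 16752472) (l 16766632)) (l 16760272)))) (b (b (l 16662096) (l 16688904)) (b (l 16716024) (a (l 16749656) (l 16735200))))) (b (a (b (b (a (l 16766576) (l 16776000)) (a (c (l 144586158167) (l 135459363927)) (l 16825152))) (a (l 3) (a (l 214916217015) (l 214379339719)))) (b (a (l 16789072) (b (l 16751944) (l 16762232))) (b (a (a (l 16772216) (l 16782192)) (a (l 16772568) (l 16764624))) (a (a (l 180556499527) (l 258402674071)) (a (l 183240731687) (l 16778040)))))) (a (l 3) (b (a (l 3) (b (b (a (l 210084365911) (l 198273189495)) (l 3)) (l 3))) (l 3))))) (b (a (b (b (l 16644912) (l 16667464)) (b (l 16689240) (a (l 16718664) (l 16702656)))) (b (b (l 16624792) (l 16643432)) (b (l 16661960) (a (l 16687816) (l 16673984))))) (b (a (b (a (l 16740816) (b (l 16719224) (l 16729608))) (a (b (l 16758248) (l 16786728)) (b (l 16741888) (l 16754632))))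 (a (b (b (l 16703272) (l 16713912)) (b (l 16725888) (l 16738576))) (b (b (l 16688744) (l 16677408)) (a (l 16741704) (b (l 16707112) (l 16719344)))))) (a (b (a (b (b (l 16796688) (a (l 186462028295) (l 16778688))) (b (a (l 3) (b (l 16796728) (l 176261476935))) (l 3))) (b (a (l 16767272) (l 16763128)) (a (b (l 16799440) (b (l 118279408903) (l 220821741719))) (a (l 97341437959) (l 16793472))))) (a (l 3) (a (l 3) (b (b (a (l 228874805527) (l 214379292199)) (l 3)) (l 3))))) (b (a (b (a (l 16755232) (l 16747296)) (a (b (l 16765384) (l 16770736)) (l 16782200))) (a (b (l 16739448) (l 6)) (l 6))) (a (b (a (b (c (l 84456530855) (l 82845923671)) (l 6)) (l 6)) (l 6)) (l 6))))))), by decide +kernel⟩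

theorem s4_pp_012_a : ∃ t, chk3 f_pp_012_a t 7 1 1 = true := ex3_b k2_pp_012_a k3_pp_012_a

theorem s5_pp_012_a : ∃ t, chk3 f_pp_012_a t 3 1 1 = true := ex3_a k1_pp_012_a s4_pp_012_a

theorem s6_pp_012_a : ∃ t, chk3 f_pp_012_a t 1 1 1 = true := ex3_a k0_pp_012_a s5_pp_012_a

theorem c_pp_012_a : CertB 0 536870912 0 536870912 697932185 42949674 3 eng mog cd2q0 cd1q2a pd1 false true true .pnp 0 1 2
    ndB2q0 ndB1q2a pcB1 cut_pp_012_a Ext.none :=
  certB2 (fam := false) (s1 := true) (s2 := true) (a := 0) (b := 1) (c := 2) (cn := .pnp) (n1 := ndB2q0) (n2 := ndB1q2a) (pc := pcB1) (cut := cut_pp_012_a) (xt := Ext.none) (P1 := 0) (W1 := 536870912) (P2 := 0) (W2 := 536870912) (P3 := 697932185) (W3 := 42949674) (N0 := 3) (En := eng) (mo := mog) (C1 := cd2q0) (C2 := cd1q2a) (C3 := pd1)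
    rfl (fun _ => rfl) s6_pp_012_a

noncomputable def cut_pp_012_b : Cut := Cut.of [[⟨0, 0, 0, 53687091⟩, ⟨1, 1, 0, 53687091⟩, ⟨2, 1, 0, 53687091⟩]]

noncomputable def f_pp_012_b : ℕ → ℕ → ℕ → ℕ → Bool := onCell 536870912 536870912 1239849684 370763052 697932185 42949674
    (rowB 3 eng mog cd2q0 cd1q2b pd1 2 false true true .pnp 0 1 2 (qsf 0 536870912 1239849684 370763052 1) ndB2q0 ndB1q2b pcB1 cut_pp_012_b Ext.none)

def k0_pp_012_b : ∃ t, chk3 f_pp_012_b t 1 1 1 = true :=
  ⟨(a (a (l 2) (b (a (b (l 16692928) (l 2)) (b (l 16755648) (l 16539464))) (l 2))) (a (b (a (b (b (l 16535728) (l 16498272)) (l 16468536)) (b (a (l 16474584) (l 16450816)) (l 16390752))) (b (a (l 2) (l 16379688)) (l 2))) (b (b (a (a (l 16429232) (l 16430800)) (a (l 16456616) (b (l 16429928) (l 16338664)))) (a (l 16339120) (a (l 16266704) (l 16235672)))) (a (b (l 16283360) (l 16314544)) (b (l 16187312) (l 16196624)))))), by decide +kernel⟩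

theorem c_pp_012_b : CertB 0 536870912 1239849684 370763052 697932185 42949674 3 eng mog cd2q0 cd1q2b pd1 false true true .pnp 0 1 2
    ndB2q0 ndB1q2b pcB1 cut_pp_012_b Ext.none :=
  certB2 (fam := false) (s1 := true) (s2 := true) (a := 0) (b := 1) (c := 2) (cn := .pnp) (n1 := ndB2q0) (n2 := ndB1q2b) (pc := pcB1) (cut := cut_pp_012_b) (xt := Ext.none) (P1 := 0) (W1 := 536870912) (P2 := 1239849684) (W2 := 370763052) (P3 := 697932185) (W3 := 42949674) (N0 := 3) (En := eng) (mo := mog) (C1 := cd2q0) (C2 := cd1q2b) (C3 := pd1)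
    rfl (fun _ => rfl) k0_pp_012_b

noncomputable def cut_pp_022_a : Cut := Cut.of [[⟨0, 0, 0, 67108864⟩, ⟨1, 1, 0, 67108864⟩, ⟨2, 1, 0, 67108864⟩]]

noncomputable def f_pp_022_a : ℕ → ℕ → ℕ → ℕ → Bool := onCell 0 536870912 0 536870912 697932185 42949674
    (rowB 3 eng mog cd2q0 cd1q2a pd2 0 false true true .pp 0 2 2 (qsf 0 536870912 0 536870912 2) ndB2q0 ndB1q2a pcB2 cut_pp_022_a Ext.none)

def k0_pp_022_a : ∃ t, chk3 f_pp_022_a t 4 1 1 = true :=
  ⟨(b (b (b (a (a (a (l 16456200) (l 16462888)) (l 16468216)) (l 16477176)) (a (a (b (l 16465000) (l 16418808)) (l 16546688)) (a (l 16491568) (l 16498056)))) (a (b (a (c (l 16468576) (a (l 16472112) (l 16484768))) (c (l 16505072) (l 16503272))) (b (a (a (b (l 16492136) (l 16496808)) (l 16507952)) (l 16527256)) (a (a (a (l 16521688) (l 16446064)) (l 16520952)) (l 16543600)))) (a (b (l 16518920) (a (l 16596304) (l 16579424))) (b (l 16526568) (b (l 16553120) (l 16573944)))))) (b (a (a (b (a (b (c (l 16546488)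 (l 16533768)) (a (b (l 16528648) (l 16539688)) (l 16565720))) (b (c (l 16542728) (l 16532512)) (b (l 16553976) (l 16566432)))) (a (b (b (a (l 16552072) (l 16563592)) (a (l 16566144) (l 16578232))) (b (a (l 16581688) (l 16594344)) (a (l 16597584) (l 16610800)))) (b (b (l 16580224) (l 16616656)) (a (b (l 16606616) (l 16623608)) (l 16627192))))) (a (b (b (l 16555384) (l 16579680)) (b (l 16609464) (l 16644720))) (b (b (l 16571904) (l 16598128)) (b (l 16629792) (l 16654464))))) (b (a (b (l 16590688) (l 16613272)) (b (l 16595712) (l 179884971143))) (a (b (a (l 16634032) (l 16635080)) (a (l 198675536343) (b (l 16649432) (l 1)))) (b (a (l 241088352055) (l 1)) (l 1))))) (a (b (a (b (b (a (a (l 16615232) (l 16628984)) (l 16627832)) (b (a (a (l 16629784) (l 16643928)) (l 16664328)) (l 6))) (l 6)) (b (a (b (l 16670936) (l 16682336)) (b (l 16671312) (b (l 16679168) (l 16684720)))) (a (l 6) (a (l 6) (a (l 6) (l 1)))))) (a (l 6) (a (l 6) (l 1)))) (b (a (b (a (b (l 16691816)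 (l 342557063095)) (l 1)) (l 1)) (l 1)) (l 1))))), by decide +kernel⟩

def k1_pp_022_a : ∃ t, chk3 f_pp_022_a t 5 1 1 = true :=
  ⟨(b (a (b (b (l 16482584) (a (l 16503200) (l 1))) (a (a (b (l 16510280) (l 16589312)) (b (l 16533904) (l 1))) (l 1))) (l 1)) (b (l 1) (l 1))), by decide +kernel⟩

def k2_pp_022_a : ∃ t, chk3 f_pp_022_a t 3 1 1 = true :=
  ⟨(l 1), by decide +kernel⟩

theorem s3_pp_022_a : ∃ t, chk3 f_pp_022_a t 2 1 1 = true := ex3_a k0_pp_022_a k1_pp_022_a

theorem s4_pp_022_a : ∃ t, chk3 f_pp_022_a t 1 1 1 = true := ex3_a s3_pp_022_a k2_pp_022_a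

theorem c_pp_022_a : CertB 0 536870912 0 536870912 697932185 42949674 3 eng mog cd2q0 cd1q2a pd2 false true true .pp 0 2 2
    ndB2q0 ndB1q2a pcB2 cut_pp_022_a Ext.none :=
  certB0 (fam := false) (s1 := true) (s2 := true) (a := 0) (b := 2) (c := 2) (cn := .pp) (n1 := ndB2q0) (n2 := ndB1q2a) (pc := pcB2) (cut := cut_pp_022_a) (xt := Ext.none) (P1 := 0) (W1 := 536870912) (P2 := 0) (W2 := 536870912) (P3 := 697932185) (W3 := 42949674) (N0 := 3) (En := eng) (mo := mog) (C1 := cd2q0) (C2 := cd1q2a) (C3 := pd2)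
    rfl s4_pp_022_a

noncomputable def cut_pp_022_b : Cut := Cut.of [[⟨0, 0, 0, 67108864⟩, ⟨1, 1, 0, 67108864⟩, ⟨2, 1, 0, 67108864⟩]]

noncomputable def f_pp_022_b : ℕ → ℕ → ℕ → ℕ → Bool := onCell 0 536870912 1073741824 536870912 697932185 42949674
    (rowB 3 eng mog cd2q0 cd1q2b pd2 1 false true true .pp 0 2 2 (qsf 0 536870912 1239849684 370763052 2) ndB2q0 ndB1q2b pcB2 cut_pp_022_b Ext.none)

def k0_pp_022_b : ∃ t, chk3 f_pp_022_b t 1 1 1 = true :=
  ⟨(b (a (b (a (a (b (l 1) (b (l 231961378311) (a (l 229813826903) (l 16459464)))) (b (b (l 160557630023) (l 16566952)) (b (l 16452048) (l 16361160)))) (a (b (l 16581024) (a (l 16324312) (l 16247248))) (b (l 16276216) (l 16176656)))) (a (b (b (a (a (a (l 16488016) (l 16436328)) (l 16386864)) (l 16378104)) (a (b (a (l 16419192) (l 16334456)) (l 16445856)) (l 16272576))) (a (a (b (l 16316216) (l 16244408)) (l 16244776)) (l 16222960))) (b (a (b (l 16186024) (l 16178392)) (l 16090416)) (a (l 16098696) (l 16062088)))))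 (b (a (a (l 16230272) (l 16103600)) (l 16107336)) (b (a (l 16045656) (l 16094032)) (a (l 16065328) (l 2))))) (b (a (a (b (a (a (l 16194208) (l 16130536)) (l 16090568)) (a (b (l 16133416) (l 16036136)) (l 16029816))) (b (l 16128608) (l 15983376))) (b (l 16388664) (l 2))) (a (a (b (a (l 16005032) (l 16015832)) (a (l 15991520) (l 16023384))) (b (l 16028440) (l 2))) (l 2)))), by decide +kernel⟩

theorem c_pp_022_b : CertB 0 536870912 1239849684 370763052 697932185 42949674 3 eng mog cd2q0 cd1q2b pd2 false true true .pp 0 2 2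
    ndB2q0 ndB1q2b pcB2 cut_pp_022_b Ext.none :=
  certB1 (fam := false) (s1 := true) (s2 := true) (a := 0) (b := 2) (c := 2) (cn := .pp) (n1 := ndB2q0) (n2 := ndB1q2b) (pc := pcB2) (cut := cut_pp_022_b) (xt := Ext.none) (P1 := 0) (W1 := 536870912) (P2 := 1239849684) (W2 := 370763052) (P3 := 697932185) (W3 := 42949674) (N0 := 3) (En := eng) (mo := mog) (C1 := cd2q0) (C2 := cd1q2b) (C3 := pd2)
    rfl (fun _ => rfl) k0_pp_022_b

noncomputable def f_pp_023 : ℕ → ℕ → ℕ → ℕ → Bool := onCell 0 536870912 1073741824 536870912 697932185 42949674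
    (rowB 3 eng mog cd2q0 cd1q3 pd2 1 false true true .up 0 2 3 (qsf 0 536870912 1610612736 536870912 2) ndB2q0 ndB1q3 pcB2 Cut.none Ext.none)

def k0_pp_023 : ∃ t, chk3 f_pp_023 t 1 1 1 = true :=
  ⟨(b (a (b (l 1) (a (l 1) (b (l 1) (l 360809774487)))) (b (a (l 153577825911) (l 16106968)) (b (a (l 16045352) (l 16096040)) (a (l 16065560) (l 16164752))))) (b (a (a (b (l 1) (l 526702558455)) (b (l 16127464) (l 15982712))) (b (l 16413864) (a (l 16108408) (l 16347240)))) (a (a (b (l 475163025783) (l 512207028215)) (b (l 16024704) (l 16066208))) (b (l 16340704) (l 16451112))))), by decide +kernel⟩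

theorem c_pp_023 : CertB 0 536870912 1610612736 536870912 697932185 42949674 3 eng mog cd2q0 cd1q3 pd2 false true true .up 0 2 3
    ndB2q0 ndB1q3 pcB2 Cut.none Ext.none :=
  certB1 (fam := false) (s1 := true) (s2 := true) (a := 0) (b := 2) (c := 3) (cn := .up) (n1 := ndB2q0) (n2 := ndB1q3) (pc := pcB2) (cut := Cut.none) (xt := Ext.none) (P1 := 0) (W1 := 536870912) (P2 := 1610612736) (W2 := 536870912) (P3 := 697932185) (W3 := 42949674) (N0 := 3) (En := eng) (mo := mog) (C1 := cd2q0) (C2 := cd1q3) (C3 := pd2)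
    rfl (fun _ => rfl) k0_pp_023

noncomputable def f_pp_033 : ℕ → ℕ → ℕ → ℕ → Bool := onCell 0 536870912 1610612736 536870912 697932185 42949674
    (rowB 3 eng mog cd2q0 cd1q3 pd3 1 false true true .pnn 0 3 3 (qsf 0 536870912 1610612736 536870912 3) ndB2q0 ndB1q3 pcB3 Cut.none Ext.none)

def k0_pp_033 : ∃ t, chk3 f_pp_033 t 1 1 1 = true :=
  ⟨(a (b (b (b (a (l 15989152) (l 16092496)) (a (l 15967136) (l 16187184))) (b (a (l 16046920) (l 4)) (l 4))) (b (l 4) (a (l 4) (a (b (l 4) (l 2)) (l 2))))) (b (b (b (l 16509144) (a (l 16451656) (l 16641896))) (a (l 4) (a (b (l 4) (l 2)) (l 2)))) (a (b (a (b (l 4) (l 2)) (l 2)) (l 2)) (l 2)))), by decide +kernel⟩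

theorem c_pp_033 : CertB 0 536870912 1610612736 536870912 697932185 42949674 3 eng mog cd2q0 cd1q3 pd3 false true true .pnn 0 3 3
    ndB2q0 ndB1q3 pcB3 Cut.none Ext.none :=
  certB1 (fam := false) (s1 := true) (s2 := true) (a := 0) (b := 3) (c := 3) (cn := .pnn) (n1 := ndB2q0) (n2 := ndB1q3) (pc := pcB3) (cut := Cut.none) (xt := Ext.none) (P1 := 0) (W1 := 536870912) (P2 := 1610612736) (W2 := 536870912) (P3 := 697932185) (W3 := 42949674) (N0 := 3) (En := eng) (mo := mog) (C1 := cd2q0) (C2 := cd1q3) (C3 := pd3)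
    rfl (fun _ => rfl) k0_pp_033

noncomputable def f_pp_101 : ℕ → ℕ → ℕ → ℕ → Bool := onCell 536870912 536870912 536870912 536870912 697932185 42949674
    (rowB 3 eng mog cd2q1 cd1q1 pd0 0 false true true .npn 1 0 1 (qsf 536870912 536870912 536870912 536870912 0) ndB2q1 ndB1q1 pcB0 Cut.none Ext.none)

def k0_pp_101 : ∃ t, chk3 f_pp_101 t 1 1 1 = true :=
  ⟨(l 3), by decide +kernel⟩

theorem c_pp_101 : CertB 536870912 536870912 536870912 536870912 697932185 42949674 3 eng mog cd2q1 cd1q1 pd0 false true true .npn 1 0 1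
    ndB2q1 ndB1q1 pcB0 Cut.none Ext.none :=
  certB0 (fam := false) (s1 := true) (s2 := true) (a := 1) (b := 0) (c := 1) (cn := .npn) (n1 := ndB2q1) (n2 := ndB1q1) (pc := pcB0) (cut := Cut.none) (xt := Ext.none) (P1 := 536870912) (W1 := 536870912) (P2 := 536870912) (W2 := 536870912) (P3 := 697932185) (W3 := 42949674) (N0 := 3) (En := eng) (mo := mog) (C1 := cd2q1) (C2 := cd1q1) (C3 := pd0)
    rfl k0_pp_101

noncomputable def f_pp_102_a : ℕ → ℕ → ℕ → ℕ → Bool := onCell 0 536870912 0 536870912 697932185 42949674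
    (rowB 3 eng mog cd2q1 cd1q2a pd0 2 false true true .npp 1 0 2 (qsf 536870912 536870912 0 536870912 0) ndB2q1 ndB1q2a pcB0 Cut.none Ext.none)

def k0_pp_102_a : ∃ t, chk3 f_pp_102_a t 1 1 1 = true :=
  ⟨(b (a (l 3) (b (a (l 3) (a (b (a (l 3) (b (a (l 193440966903) (l 153712534023)) (l 3))) (l 3)) (b (a (b (a (l 150491366999) (l 16630128)) (a (l 3) (l 175187386295))) (b (a (l 16635088) (l 16640072)) (a (l 161228798071) (l 16638000)))) (a (l 3) (b (a (l 3) (l 180556107079)) (l 3)))))) (l 3))) (l 3)), by decide +kernel⟩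

theorem c_pp_102_a : CertB 536870912 536870912 0 536870912 697932185 42949674 3 eng mog cd2q1 cd1q2a pd0 false true true .npp 1 0 2
    ndB2q1 ndB1q2a pcB0 Cut.none Ext.none :=
  certB2 (fam := false) (s1 := true) (s2 := true) (a := 1) (b := 0) (c := 2) (cn := .npp) (n1 := ndB2q1) (n2 := ndB1q2a) (pc := pcB0) (cut := Cut.none) (xt := Ext.none) (P1 := 536870912) (W1 := 536870912) (P2 := 0) (W2 := 536870912) (P3 := 697932185) (W3 := 42949674) (N0 := 3) (En := eng) (mo := mog) (C1 := cd2q1) (C2 := cd1q2a) (C3 := pd0)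
    rfl (fun _ => rfl) k0_pp_102_a

noncomputable def f_pp_102_b : ℕ → ℕ → ℕ → ℕ → Bool := onCell 0 536870912 1239849684 370763052 697932185 42949674
    (rowB 3 eng mog cd2q1 cd1q2b pd0 2 false true true .npp 1 0 2 (qsf 536870912 536870912 1239849684 370763052 0) ndB2q1 ndB1q2b pcB0 Cut.none Ext.none)

def k0_pp_102_b : ∃ t, chk3 f_pp_102_b t 1 1 1 = true :=
  ⟨(a (l 3) (a (b (l 3) (l 3)) (b (a (b (a (l 3) (b (a (l 172502999831) (l 34527217351)) (l 3))) (l 3)) (b (a (b (a (l 16600440) (l 16606944)) (a (l 16544752) (l 16554936))) (b (a (l 16612912) (l 16619072)) (l 16568640))) (a (b (a (l 3) (l 16497288)) (l 3)) (b (a (l 16510080) (l 16522296)) (a (l 3) (l 16467176)))))) (a (l 3) (b (l 3) (l 3)))))), by decide +kernel⟩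

theorem c_pp_102_b : CertB 536870912 536870912 1239849684 370763052 697932185 42949674 3 eng mog cd2q1 cd1q2b pd0 false true true .npp 1 0 2
    ndB2q1 ndB1q2b pcB0 Cut.none Ext.none :=
  certB2 (fam := false) (s1 := true) (s2 := true) (a := 1) (b := 0) (c := 2) (cn := .npp) (n1 := ndB2q1) (n2 := ndB1q2b) (pc := pcB0) (cut := Cut.none) (xt := Ext.none) (P1 := 536870912) (W1 := 536870912) (P2 := 1239849684) (W2 := 370763052) (P3 := 697932185) (W3 := 42949674) (N0 := 3) (En := eng) (mo := mog) (C1 := cd2q1) (C2 := cd1q2b) (C3 := pd0)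
    rfl (fun _ => rfl) k0_pp_102_b

noncomputable def f_pp_112_a : ℕ → ℕ → ℕ → ℕ → Bool := onCell 536870912 536870912 0 536870912 697932185 42949674
    (rowB 3 eng mog cd2q1 cd1q2a pd1 0 false true true .dn 1 1 2 (qsf 536870912 536870912 0 536870912 1) ndB2q1 ndB1q2a pcB1 Cut.none Ext.none)

def k0_pp_112_a : ∃ t, chk3 f_pp_112_a t 1 1 1 = true :=
  ⟨(a (b (a (b (a (b (l 16640584) (a (b (l 16651472) (b (l 16658072) (l 16659632))) (b (l 16658720) (a (l 16659808) (l 16658480))))) (b (b (l 16646696) (a (l 16654320) (l 16692400))) (a (b (b (l 16656704) (l 16656504)) (a (l 16654912) (b (l 16652144) (l 16646928)))) (b (a (l 16652016) (l 16647368)) (b (a (l 16646776) (l 158007581191)) (a (l 158544418119) (l 3))))))) (a (b (a (b (a (l 16659768) (l 16658104)) (b (a (l 16652792) (l 89288072407)) (a (b (l 16644352) (l 130627122807)) (l 151028210183)))) (b (b (a (l 16656872) (l 16651976)) (a (l 16649800) (l 140290811991))) (b (a (l 140827674391) (l 3)) (l 3))))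 (l 3)) (b (a (b (b (a (l 137606475463) (l 167671221095)) (l 3)) (l 3)) (l 3)) (l 3)))) (b (a (b (a (b (l 16682304) (a (l 16644344) (l 16640184))) (l 1)) (a (b (a (b (l 16643480) (l 154786359031)) (b (l 136532750087) (l 183240465527))) (l 3)) (l 1))) (l 1)) (l 3))) (l 3)) (l 1)), by decide +kernel⟩

theorem c_pp_112_a : CertB 536870912 536870912 0 536870912 697932185 42949674 3 eng mog cd2q1 cd1q2a pd1 false true true .dn 1 1 2
    ndB2q1 ndB1q2a pcB1 Cut.none Ext.none :=
  certB0 (fam := false) (s1 := true) (s2 := true) (a := 1) (b := 1) (c := 2) (cn := .dn) (n1 := ndB2q1) (n2 := ndB1q2a) (pc := pcB1) (cut := Cut.none) (xt := Ext.none) (P1 := 536870912) (W1 := 536870912) (P2 := 0) (W2 := 536870912) (P3 := 697932185) (W3 := 42949674) (N0 := 3) (En := eng) (mo := mog) (C1 := cd2q1) (C2 := cd1q2a) (C3 := pd1)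
    rfl k0_pp_112_a

noncomputable def f_pp_112_b : ℕ → ℕ → ℕ → ℕ → Bool := onCell 536870912 536870912 536870912 536870912 697932185 42949674
    (rowB 3 eng mog cd2q1 cd1q2b pd1 1 false true true .dn 1 1 2 (qsf 536870912 536870912 1239849684 370763052 1) ndB2q1 ndB1q2b pcB1 Cut.none Ext.none)

def k0_pp_112_b : ∃ t, chk3 f_pp_112_b t 1 1 1 = true :=
  ⟨(b (b (a (a (b (a (l 1) (l 202433849879)) (a (l 155726077063) (l 16619152))) (b (a (l 16614312) (b (l 16565608) (l 16553920))) (a (l 16581624) (l 16541888)))) (a (b (b (a (l 16499568) (a (l 16442456) (l 3))) (a (l 16493128) (a (l 16440928) (l 16403848)))) (a (b (l 16492872) (l 16499704)) (b (l 16431008) (l 16450256)))) (b (l 3) (a (b (l 173576404887) (l 134921917879)) (l 3))))) (a (a (b (a (l 16595840) (l 16572400)) (l 16546624)) (b (l 16546416) (l 16541128))) (b (a (b (a (l 16514672) (l 16483216)) (a (l 16539216) (l 16531328))) (a (b (l 199816200199) (l 2)) (l 2))) (a (b (l 16669640) (l 16657328)) (l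 2))))) (b (a (a (b (l 16461256) (l 16394952)) (b (l 16550768) (l 16576744))) (b (a (l 16799816) (l 2)) (l 2))) (a (a (l 16311368) (l 16666480)) (l 2)))), by decide +kernel⟩

theorem c_pp_112_b : CertB 536870912 536870912 1239849684 370763052 697932185 42949674 3 eng mog cd2q1 cd1q2b pd1 false true true .dn 1 1 2
    ndB2q1 ndB1q2b pcB1 Cut.none Ext.none :=
  certB1 (fam := false) (s1 := true) (s2 := true) (a := 1) (b := 1) (c := 2) (cn := .dn) (n1 := ndB2q1) (n2 := ndB1q2b) (pc := pcB1) (cut := Cut.none) (xt := Ext.none) (P1 := 536870912) (W1 := 536870912) (P2 := 1239849684) (W2 := 370763052) (P3 := 697932185) (W3 := 42949674) (N0 := 3) (En := eng) (mo := mog) (C1 := cd2q1) (C2 := cd1q2b) (C3 := pd1)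
    rfl (fun _ => rfl) k0_pp_112_b

noncomputable def f_pp_113 : ℕ → ℕ → ℕ → ℕ → Bool := onCell 536870912 536870912 536870912 536870912 697932185 42949674
    (rowB 3 eng mog cd2q1 cd1q3 pd1 1 false true true .nn 1 1 3 (qsf 536870912 536870912 1610612736 536870912 1) ndB2q1 ndB1q3 pcB1 Cut.none Ext.none)

def k0_pp_113 : ∃ t, chk3 f_pp_113 t 1 1 1 = true :=
  ⟨(b (b (a (l 1) (a (b (l 1) (a (l 1) (b (l 1) (l 16453040)))) (b (l 3) (a (b (l 181092566679) (l 119889330519)) (l 3))))) (a (a (l 1) (l 227129942711)) (b (a (a (l 240551580727) (a (l 16512264) (l 16498336))) (a (b (l 116131327719) (l 16502536)) (b (l 193977448823) (a (l 16464856) (l 3))))) (a (b (l 16585760) (l 16656512)) (a (b (l 16608104) (l 16728472)) (b (l 149417196039) (l 16582648))))))) (b (a (a (l 192770018231) (b (l 16549968) (l 16577280))) (b (a (l 16798696) (b (a (l 16789816) (b (l 16643856) (l 16671288))) (a (l 16848312) (a (l 16741808) (l 16679752))))) (a (l 17082952) (b (a (l 16906992)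 (l 16755856)) (l 16877864))))) (a (a (l 16310632) (l 16673824)) (a (b (l 16992128) (l 16871256)) (b (l 16922824) (l 16886280)))))), by decide +kernel⟩

theorem c_pp_113 : CertB 536870912 536870912 1610612736 536870912 697932185 42949674 3 eng mog cd2q1 cd1q3 pd1 false true true .nn 1 1 3
    ndB2q1 ndB1q3 pcB1 Cut.none Ext.none :=
  certB1 (fam := false) (s1 := true) (s2 := true) (a := 1) (b := 1) (c := 3) (cn := .nn) (n1 := ndB2q1) (n2 := ndB1q3) (pc := pcB1) (cut := Cut.none) (xt := Ext.none) (P1 := 536870912) (W1 := 536870912) (P2 := 1610612736) (W2 := 536870912) (P3 := 697932185) (W3 := 42949674) (N0 := 3) (En := eng) (mo := mog) (C1 := cd2q1) (C2 := cd1q3) (C3 := pd1)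
    rfl (fun _ => rfl) k0_pp_113

noncomputable def f_pp_123 : ℕ → ℕ → ℕ → ℕ → Bool := onCell 1073741824 536870912 1610612736 536870912 697932185 42949674
    (rowB 3 eng mog cd2q1 cd1q3 pd2 2 false true true .npn 1 2 3 (qsf 536870912 536870912 1610612736 536870912 2) ndB2q1 ndB1q3 pcB2 Cut.none Ext.none)

def k0_pp_123 : ∃ t, chk3 f_pp_123 t 1 1 1 = true :=
  ⟨(a (a (b (b (l 16184592) (l 16466872)) (b (l 16801120) (a (l 16740144) (l 16617544)))) (b (a (b (l 16139352) (l 16252392)) (l 287795748887)) (b (a (l 16449544) (l 16420408)) (a (l 16500968) (l 16700248))))) (a (b (a (l 301217681991) (l 1)) (b (a (l 16427768) (l 16454352)) (l 16708416))) (b (l 1) (a (l 16550624) (l 16582544))))), by decide +kernel⟩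

theorem c_pp_123 : CertB 536870912 536870912 1610612736 536870912 697932185 42949674 3 eng mog cd2q1 cd1q3 pd2 false true true .npn 1 2 3
    ndB2q1 ndB1q3 pcB2 Cut.none Ext.none :=
  certB2 (fam := false) (s1 := true) (s2 := true) (a := 1) (b := 2) (c := 3) (cn := .npn) (n1 := ndB2q1) (n2 := ndB1q3) (pc := pcB2) (cut := Cut.none) (xt := Ext.none) (P1 := 536870912) (W1 := 536870912) (P2 := 1610612736) (W2 := 536870912) (P3 := 697932185) (W3 := 42949674) (N0 := 3) (En := eng) (mo := mog) (C1 := cd2q1) (C2 := cd1q3) (C3 := pd2)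
    rfl (fun _ => rfl) k0_pp_123

noncomputable def f_pp_133 : ℕ → ℕ → ℕ → ℕ → Bool := onCell 1610612736 536870912 1610612736 536870912 697932185 42949674
    (rowB 3 eng mog cd2q1 cd1q3 pd3 2 false true true .dn 1 3 3 (qsf 536870912 536870912 1610612736 536870912 3) ndB2q1 ndB1q3 pcB3 Cut.none Ext.none)

def k0_pp_133 : ∃ t, chk3 f_pp_133 t 1 1 1 = true :=
  ⟨(a (b (l 1) (a (a (l 16591704) (l 1)) (l 1))) (l 1)), by decide +kernel⟩

theorem c_pp_133 : CertB 536870912 536870912 1610612736 536870912 697932185 42949674 3 eng mog cd2q1 cd1q3 pd3 false true true .dn 1 3 3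
    ndB2q1 ndB1q3 pcB3 Cut.none Ext.none :=
  certB2 (fam := false) (s1 := true) (s2 := true) (a := 1) (b := 3) (c := 3) (cn := .dn) (n1 := ndB2q1) (n2 := ndB1q3) (pc := pcB3) (cut := Cut.none) (xt := Ext.none) (P1 := 536870912) (W1 := 536870912) (P2 := 1610612736) (W2 := 536870912) (P3 := 697932185) (W3 := 42949674) (N0 := 3) (En := eng) (mo := mog) (C1 := cd2q1) (C2 := cd1q3) (C3 := pd3)
    rfl (fun _ => rfl) k0_pp_133

noncomputable def f_pp_202_aa : ℕ → ℕ → ℕ → ℕ → Bool := onCell 0 536870912 0 536870912 697932185 42949674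
    (rowB 3 eng mog cd2q2a cd1q2a pd0 0 false true true .pp 2 0 2 (qsf 0 536870912 0 536870912 0) ndB2q2a ndB1q2a pcB0 Cut.none Ext.none)

def k0_pp_202_aa : ∃ t, chk3 f_pp_202_aa t 1 1 1 = true :=
  ⟨(l 3), by decide +kernel⟩

theorem c_pp_202_aa : CertB 0 536870912 0 536870912 697932185 42949674 3 eng mog cd2q2a cd1q2a pd0 false true true .pp 2 0 2
    ndB2q2a ndB1q2a pcB0 Cut.none Ext.none :=
  certB0 (fam := false) (s1 := true) (s2 := true) (a := 2) (b := 0) (c := 2) (cn := .pp) (n1 := ndB2q2a) (n2 := ndB1q2a) (pc := pcB0) (cut := Cut.none) (xt := Ext.none) (P1 := 0) (W1 := 536870912) (P2 := 0) (W2 := 536870912) (P3 := 697932185) (W3 := 42949674) (N0 := 3) (En := eng) (mo := mog) (C1 := cd2q2a) (C2 := cd1q2a) (C3 := pd0)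
    rfl k0_pp_202_aa

noncomputable def f_pp_202_ab : ℕ → ℕ → ℕ → ℕ → Bool := onCell 0 536870912 1239849684 370763052 697932185 42949674
    (rowB 3 eng mog cd2q2a cd1q2b pd0 0 false true true .pp 2 0 2 (qsf 0 536870912 1239849684 370763052 0) ndB2q2a ndB1q2b pcB0 Cut.none Ext.none)

def k0_pp_202_ab : ∃ t, chk3 f_pp_202_ab t 1 1 1 = true :=
  ⟨(l 3), by decide +kernel⟩

theorem c_pp_202_ab : CertB 0 536870912 1239849684 370763052 697932185 42949674 3 eng mog cd2q2a cd1q2b pd0 false true true .pp 2 0 2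
    ndB2q2a ndB1q2b pcB0 Cut.none Ext.none :=
  certB0 (fam := false) (s1 := true) (s2 := true) (a := 2) (b := 0) (c := 2) (cn := .pp) (n1 := ndB2q2a) (n2 := ndB1q2b) (pc := pcB0) (cut := Cut.none) (xt := Ext.none) (P1 := 0) (W1 := 536870912) (P2 := 1239849684) (W2 := 370763052) (P3 := 697932185) (W3 := 42949674) (N0 := 3) (En := eng) (mo := mog) (C1 := cd2q2a) (C2 := cd1q2b) (C3 := pd0)
    rfl k0_pp_202_ab

noncomputable def f_pp_202_ba : ℕ → ℕ → ℕ → ℕ → Bool := onCell 1239849684 370763052 0 536870912 697932185 42949674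
    (rowB 3 eng mog cd2q2b cd1q2a pd0 0 false true true .pp 2 0 2 (qsf 1239849684 370763052 0 536870912 0) ndB2q2b ndB1q2a pcB0 Cut.none Ext.none)

def k0_pp_202_ba : ∃ t, chk3 f_pp_202_ba t 1 1 1 = true :=
  ⟨(l 3), by decide +kernel⟩

theorem c_pp_202_ba : CertB 1239849684 370763052 0 536870912 697932185 42949674 3 eng mog cd2q2b cd1q2a pd0 false true true .pp 2 0 2
    ndB2q2b ndB1q2a pcB0 Cut.none Ext.none :=
  certB0 (fam := false) (s1 := true) (s2 := true) (a := 2) (b := 0) (c := 2) (cn := .pp) (n1 := ndB2q2b) (n2 := ndB1q2a) (pc := pcB0) (cut := Cut.none) (xt := Ext.none) (P1 := 1239849684) (W1 := 370763052) (P2 := 0) (W2 := 536870912) (P3 := 697932185) (W3 := 42949674) (N0 := 3) (En := eng) (mo := mog) (C1 := cd2q2b) (C2 := cd1q2a) (C3 := pd0)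
    rfl k0_pp_202_ba

noncomputable def f_pp_202_bb : ℕ → ℕ → ℕ → ℕ → Bool := onCell 1239849684 370763052 1239849684 370763052 697932185 42949674
    (rowB 3 eng mog cd2q2b cd1q2b pd0 0 false true true .pp 2 0 2 (qsf 1239849684 370763052 1239849684 370763052 0) ndB2q2b ndB1q2b pcB0 Cut.none Ext.none)

def k0_pp_202_bb : ∃ t, chk3 f_pp_202_bb t 1 1 1 = true :=
  ⟨(l 3), by decide +kernel⟩

theorem c_pp_202_bb : CertB 1239849684 370763052 1239849684 370763052 697932185 42949674 3 eng mog cd2q2b cd1q2b pd0 false true true .pp 2 0 2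
    ndB2q2b ndB1q2b pcB0 Cut.none Ext.none :=
  certB0 (fam := false) (s1 := true) (s2 := true) (a := 2) (b := 0) (c := 2) (cn := .pp) (n1 := ndB2q2b) (n2 := ndB1q2b) (pc := pcB0) (cut := Cut.none) (xt := Ext.none) (P1 := 1239849684) (W1 := 370763052) (P2 := 1239849684) (W2 := 370763052) (P3 := 697932185) (W3 := 42949674) (N0 := 3) (En := eng) (mo := mog) (C1 := cd2q2b) (C2 := cd1q2b) (C3 := pd0)
    rfl k0_pp_202_bb

noncomputable def f_pp_203_a : ℕ → ℕ → ℕ → ℕ → Bool := onCell 0 536870912 0 536870912 697932185 42949674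
    (rowB 3 eng mog cd2q2a cd1q3 pd0 1 false true true .up 2 0 3 (qsf 0 536870912 1610612736 536870912 0) ndB2q2a ndB1q3 pcB0 Cut.none Ext.none)

def k0_pp_203_a : ∃ t, chk3 f_pp_203_a t 1 1 1 = true :=
  ⟨(l 3), by decide +kernel⟩

theorem c_pp_203_a : CertB 0 536870912 1610612736 536870912 697932185 42949674 3 eng mog cd2q2a cd1q3 pd0 false true true .up 2 0 3
    ndB2q2a ndB1q3 pcB0 Cut.none Ext.none :=
  certB1 (fam := false) (s1 := true) (s2 := true) (a := 2) (b := 0) (c := 3) (cn := .up) (n1 := ndB2q2a) (n2 := ndB1q3) (pc := pcB0) (cut := Cut.none) (xt := Ext.none) (P1 := 0) (W1 := 536870912) (P2 := 1610612736) (W2 := 536870912) (P3 := 697932185) (W3 := 42949674) (N0 := 3) (En := eng) (mo := mog) (C1 := cd2q2a) (C2 := cd1q3) (C3 := pd0)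
    rfl (fun _ => rfl) k0_pp_203_a

noncomputable def f_pp_203_b : ℕ → ℕ → ℕ → ℕ → Bool := onCell 1239849684 370763052 1610612736 536870912 697932185 42949674
    (rowB 3 eng mog cd2q2b cd1q3 pd0 0 false true true .up 2 0 3 (qsf 1239849684 370763052 1610612736 536870912 0) ndB2q2b ndB1q3 pcB0 Cut.none Ext.none)

def k0_pp_203_b : ∃ t, chk3 f_pp_203_b t 1 1 1 = true :=
  ⟨(l 3), by decide +kernel⟩

theorem c_pp_203_b : CertB 1239849684 370763052 1610612736 536870912 697932185 42949674 3 eng mog cd2q2b cd1q3 pd0 false true true .up 2 0 3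
    ndB2q2b ndB1q3 pcB0 Cut.none Ext.none :=
  certB0 (fam := false) (s1 := true) (s2 := true) (a := 2) (b := 0) (c := 3) (cn := .up) (n1 := ndB2q2b) (n2 := ndB1q3) (pc := pcB0) (cut := Cut.none) (xt := Ext.none) (P1 := 1239849684) (W1 := 370763052) (P2 := 1610612736) (W2 := 536870912) (P3 := 697932185) (W3 := 42949674) (N0 := 3) (En := eng) (mo := mog) (C1 := cd2q2b) (C2 := cd1q3) (C3 := pd0)
    rfl k0_pp_203_b

noncomputable def cut_pp_213_a : Cut := Cut.of [[⟨0, 1, 0, 67108864⟩, ⟨1, 1, 0, 67108864⟩, ⟨2, 2, 0, 16777216⟩]]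

noncomputable def f_pp_213_a : ℕ → ℕ → ℕ → ℕ → Bool := onCell 0 536870912 1610612736 536870912 697932185 42949674
    (rowB 3 eng mog cd2q2a cd1q3 pd1 0 false true true .pnn 2 1 3 (qsf 0 536870912 1610612736 536870912 1) ndB2q2a ndB1q3 pcB1 cut_pp_213_a Ext.none)

def k0_pp_213_a : ∃ t, chk3 f_pp_213_a t 1 1 1 = true :=
  ⟨(b (l 3) (a (l 3) (b (l 3) (a (l 3) (b (l 3) (a (l 3) (b (l 3) (b (l 3) (b (l 3) (l 6)))))))))), by decide +kernel⟩

theorem c_pp_213_a : CertB 0 536870912 1610612736 536870912 697932185 42949674 3 eng mog cd2q2a cd1q3 pd1 false true true .pnn 2 1 3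
    ndB2q2a ndB1q3 pcB1 cut_pp_213_a Ext.none :=
  certB0 (fam := false) (s1 := true) (s2 := true) (a := 2) (b := 1) (c := 3) (cn := .pnn) (n1 := ndB2q2a) (n2 := ndB1q3) (pc := pcB1) (cut := cut_pp_213_a) (xt := Ext.none) (P1 := 0) (W1 := 536870912) (P2 := 1610612736) (W2 := 536870912) (P3 := 697932185) (W3 := 42949674) (N0 := 3) (En := eng) (mo := mog) (C1 := cd2q2a) (C2 := cd1q3) (C3 := pd1)
    rfl k0_pp_213_a

noncomputable def cut_pp_213_b : Cut := Cut.of [[⟨0, 1, 0, 67108864⟩, ⟨1, 1, 0, 67108864⟩, ⟨2, 2, 0, 16777216⟩]]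

noncomputable def f_pp_213_b : ℕ → ℕ → ℕ → ℕ → Bool := onCell 1239849684 370763052 1610612736 536870912 697932185 42949674
    (rowB 3 eng mog cd2q2b cd1q3 pd1 0 false true true .pnn 2 1 3 (qsf 1239849684 370763052 1610612736 536870912 1) ndB2q2b ndB1q3 pcB1 cut_pp_213_b Ext.none)

def k0_pp_213_b : ∃ t, chk3 f_pp_213_b t 1 1 1 = true :=
  ⟨(l 3), by decide +kernel⟩

theorem c_pp_213_b : CertB 1239849684 370763052 1610612736 536870912 697932185 42949674 3 eng mog cd2q2b cd1q3 pd1 false true true .pnn 2 1 3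
    ndB2q2b ndB1q3 pcB1 cut_pp_213_b Ext.none :=
  certB0 (fam := false) (s1 := true) (s2 := true) (a := 2) (b := 1) (c := 3) (cn := .pnn) (n1 := ndB2q2b) (n2 := ndB1q3) (pc := pcB1) (cut := cut_pp_213_b) (xt := Ext.none) (P1 := 1239849684) (W1 := 370763052) (P2 := 1610612736) (W2 := 536870912) (P3 := 697932185) (W3 := 42949674) (N0 := 3) (En := eng) (mo := mog) (C1 := cd2q2b) (C2 := cd1q3) (C3 := pd1)
    rfl k0_pp_213_b

noncomputable def f_pp_303 : ℕ → ℕ → ℕ → ℕ → Bool := onCell 1610612736 536870912 1610612736 536870912 697932185 42949674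
    (rowB 3 eng mog cd2q3 cd1q3 pd0 0 false true true .npn 3 0 3 (qsf 1610612736 536870912 1610612736 536870912 0) ndB2q3 ndB1q3 pcB0 Cut.none Ext.none)

def k0_pp_303 : ∃ t, chk3 f_pp_303 t 1 1 1 = true :=
  ⟨(l 3), by decide +kernel⟩

theorem c_pp_303 : CertB 1610612736 536870912 1610612736 536870912 697932185 42949674 3 eng mog cd2q3 cd1q3 pd0 false true true .npn 3 0 3
    ndB2q3 ndB1q3 pcB0 Cut.none Ext.none :=
  certB0 (fam := false) (s1 := true) (s2 := true) (a := 3) (b := 0) (c := 3) (cn := .npn) (n1 := ndB2q3) (n2 := ndB1q3) (pc := pcB0) (cut := Cut.none) (xt := Ext.none) (P1 := 1610612736) (W1 := 536870912) (P2 := 1610612736) (W2 := 536870912) (P3 := 697932185) (W3 := 42949674) (N0 := 3) (En := eng) (mo := mog) (C1 := cd2q3) (C2 := cd1q3) (C3 := pd0)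
    rfl k0_pp_303

noncomputable def f_pp_313 : ℕ → ℕ → ℕ → ℕ → Bool := onCell 1610612736 536870912 1610612736 536870912 697932185 42949674
    (rowB 3 eng mog cd2q3 cd1q3 pd1 0 false true true .dn 3 1 3 (qsf 1610612736 536870912 1610612736 536870912 1) ndB2q3 ndB1q3 pcB1 Cut.none Ext.none)

def k0_pp_313 : ∃ t, chk3 f_pp_313 t 1 1 1 = true :=
  ⟨(l 3), by decide +kernel⟩

theorem c_pp_313 : CertB 1610612736 536870912 1610612736 536870912 697932185 42949674 3 eng mog cd2q3 cd1q3 pd1 false true true .dn 3 1 3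
    ndB2q3 ndB1q3 pcB1 Cut.none Ext.none :=
  certB0 (fam := false) (s1 := true) (s2 := true) (a := 3) (b := 1) (c := 3) (cn := .dn) (n1 := ndB2q3) (n2 := ndB1q3) (pc := pcB1) (cut := Cut.none) (xt := Ext.none) (P1 := 1610612736) (W1 := 536870912) (P2 := 1610612736) (W2 := 536870912) (P3 := 697932185) (W3 := 42949674) (N0 := 3) (En := eng) (mo := mog) (C1 := cd2q3) (C2 := cd1q3) (C3 := pd1)
    rfl k0_pp_313

noncomputable def f_pm_001 : ℕ → ℕ → ℕ → ℕ → Bool := onCell 0 536870912 0 536870912 697932185 42949674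
    (rowB 3 eng mog cd2q0 cd1q1 pd0 1 false true false .up 0 0 1 (qsf 0 536870912 536870912 536870912 0) ndB2q0 ndB1q1 pcB0 Cut.none Ext.none)

def k0_pm_001 : ∃ t, chk3 f_pm_001 t 1 1 1 = true :=
  ⟨(b (l 4) (a (l 4) (b (l 4) (a (l 4) (b (l 4) (a (l 4) (b (l 4) (a (l 4) (l 16248344))))))))), by decide +kernel⟩

theorem c_pm_001 : CertB 0 536870912 536870912 536870912 697932185 42949674 3 eng mog cd2q0 cd1q1 pd0 false true false .up 0 0 1
    ndB2q0 ndB1q1 pcB0 Cut.none Ext.none :=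
  certB1 (fam := false) (s1 := true) (s2 := false) (a := 0) (b := 0) (c := 1) (cn := .up) (n1 := ndB2q0) (n2 := ndB1q1) (pc := pcB0) (cut := Cut.none) (xt := Ext.none) (P1 := 0) (W1 := 536870912) (P2 := 536870912) (W2 := 536870912) (P3 := 697932185) (W3 := 42949674) (N0 := 3) (En := eng) (mo := mog) (C1 := cd2q0) (C2 := cd1q1) (C3 := pd0)
    rfl (fun _ => rfl) k0_pm_001

noncomputable def f_pm_011 : ℕ → ℕ → ℕ → ℕ → Bool := onCell 0 536870912 536870912 536870912 697932185 42949674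
    (rowB 3 eng mog cd2q0 cd1q1 pd1 0 false true false .pnn 0 1 1 (qsf 0 536870912 536870912 536870912 1) ndB2q0 ndB1q1 pcB1 Cut.none Ext.none)

def k0_pm_011 : ∃ t, chk3 f_pm_011 t 1 1 1 = true :=
  ⟨(b (l 4) (a (l 4) (b (l 4) (a (l 4) (b (l 4) (b (l 4) (a (a (l 4) (l 16297208)) (a (l 16266520) (l 16236632))))))))), by decide +kernel⟩

theorem c_pm_011 : CertB 0 536870912 536870912 536870912 697932185 42949674 3 eng mog cd2q0 cd1q1 pd1 false true false .pnn 0 1 1
    ndB2q0 ndB1q1 pcB1 Cut.none Ext.none :=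
  certB0 (fam := false) (s1 := true) (s2 := false) (a := 0) (b := 1) (c := 1) (cn := .pnn) (n1 := ndB2q0) (n2 := ndB1q1) (pc := pcB1) (cut := Cut.none) (xt := Ext.none) (P1 := 0) (W1 := 536870912) (P2 := 536870912) (W2 := 536870912) (P3 := 697932185) (W3 := 42949674) (N0 := 3) (En := eng) (mo := mog) (C1 := cd2q0) (C2 := cd1q1) (C3 := pd1)
    rfl k0_pm_011

noncomputable def cut_pm_012_a : Cut := Cut.of [[⟨0, 0, 0, 67108864⟩, ⟨1, 1, 0, 67108864⟩, ⟨2, 1, 0, 67108864⟩]]

noncomputable def f_pm_012_a : ℕ → ℕ → ℕ → ℕ → Bool := onCell 536870912 536870912 0 536870912 697932185 42949674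
    (rowB 3 eng mog cd2q0 cd1q2a pd1 2 false true false .pnp 0 1 2 (qsf 0 536870912 0 536870912 1) ndB2q0 ndB1q2a pcB1 cut_pm_012_a Ext.none)

def k0_pm_012_a : ∃ t, chk3 f_pm_012_a t 2 1 1 = true :=
  ⟨(b (a (b (l 2) (b (l 2) (l 16520576))) (a (b (l 16533816) (l 16468440)) (b (l 16602088) (l 16458616)))) (a (a (b (l 2) (b (l 16348432) (l 16313808))) (b (b (l 16441120) (l 16397696)) (b (l 16464736) (b (l 16350400) (l 16351840))))) (b (b (a (l 16420952) (l 16404072)) (a (l 16393368) (l 16393112))) (b (a (b (l 16378696) (l 16377664)) (l 16399352)) (b (a (l 16384240) (l 16423664)) (a (l 16398144) (l 16597136))))))), by decide +kernel⟩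

def k1_pm_012_a : ∃ t, chk3 f_pm_012_a t 3 1 1 = true :=
  ⟨(b (a (b (a (b (l 16477776) (l 16446008)) (b (l 16444264) (l 16415624))) (a (b (l 16417632) (l 16398544)) (b (l 16391256) (l 16379528)))) (b (a (b (l 16432936) (l 16405328)) (a (l 16565256) (b (l 16433880) (l 16404160)))) (a (b (l 16385672) (a (l 16380200) (l 16383528))) (a (b (l 16386784) (l 16388840)) (b (l 16388064) (b (l 16386344) (l 16393816))))))) (a (b (b (a (l 16389688) (l 16383728)) (a (l 16396936) (a (l 16403072) (l 16416976)))) (b (a (l 16551936) (a (l 16492368) (l 16473272))) (a (b (a (l 16457224) (l 16501760)) (a (l 16514976) (l 16525256))) (b (a (l 16507240) (l 16540832)) (b (l 16657360) (c (l 16712832) (l 16716912))))))) (b (a (a (b (l 16394488) (l 16434992)) (b (l 16405200) (a (l 16449744) (l 16478960)))) (b (a (l 16435736) (a (l 16418016) (l 16419216))) (a (b (l 16450864) (l 16484072)) (b (l 16459352) (a (l 16493992) (l 16500816)))))) (b (a (a (l 16524296) (b (l 16505704) (l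 16547952))) (b (a (l 16523384) (a (l 16537056) (l 16546464))) (a (l 16549176) (a (l 16587240) (a (l 16595960) (l 16601848)))))) (a (b (a (l 16571216) (l 16640560)) (a (b (l 16613360) (l 16642312)) (b (l 16642272) (c (l 16732656) (l 16737672))))) (b (a (a (l 16618600) (l 16695064)) (a (b (l 16630256) (l 6)) (l 6))) (a (b (b (l 16663768) (a (l 16651632) (l 6))) (a (b (l 16689496) (l 16686408)) (l 6))) (l 6)))))))), by decide +kernel⟩

theorem s2_pm_012_a : ∃ t, chk3 f_pm_012_a t 1 1 1 = true := ex3_a k0_pm_012_a k1_pm_012_a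

theorem c_pm_012_a : CertB 0 536870912 0 536870912 697932185 42949674 3 eng mog cd2q0 cd1q2a pd1 false true false .pnp 0 1 2
    ndB2q0 ndB1q2a pcB1 cut_pm_012_a Ext.none :=
  certB2 (fam := false) (s1 := true) (s2 := false) (a := 0) (b := 1) (c := 2) (cn := .pnp) (n1 := ndB2q0) (n2 := ndB1q2a) (pc := pcB1) (cut := cut_pm_012_a) (xt := Ext.none) (P1 := 0) (W1 := 536870912) (P2 := 0) (W2 := 536870912) (P3 := 697932185) (W3 := 42949674) (N0 := 3) (En := eng) (mo := mog) (C1 := cd2q0) (C2 := cd1q2a) (C3 := pd1)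
    rfl (fun _ => rfl) s2_pm_012_a

noncomputable def cut_pm_012_b : Cut := Cut.of [[⟨0, 0, 0, 67108864⟩, ⟨1, 1, 0, 67108864⟩, ⟨2, 1, 0, 67108864⟩]]

noncomputable def f_pm_012_b : ℕ → ℕ → ℕ → ℕ → Bool := onCell 536870912 536870912 1239849684 370763052 697932185 42949674
    (rowB 3 eng mog cd2q0 cd1q2b pd1 2 false true false .pnp 0 1 2 (qsf 0 536870912 1239849684 370763052 1) ndB2q0 ndB1q2b pcB1 cut_pm_012_b Ext.none)

def k0_pm_012_b : ∃ t, chk3 f_pm_012_b t 1 1 1 = true :=
  ⟨(a (a (l 2) (b (b (a (l 16552360) (l 16502856)) (a (l 2) (l 16480760))) (l 2))) (a (b (b (a (l 16513296) (a (l 16409344) (l 16390448))) (a (l 16405080) (l 16327024))) (a (l 2) (b (l 16321048) (l 2)))) (b (a (b (b (l 16404888) (l 16334136)) (l 16262552)) (b (a (l 16349920) (b (l 16393856) (l 16296088))) (a (l 16216800) (l 16187392)))) (a (b (l 16230496) (l 16270200)) (b (l 16138424) (l 16155576)))))), by decide +kernel⟩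

theorem c_pm_012_b : CertB 0 536870912 1239849684 370763052 697932185 42949674 3 eng mog cd2q0 cd1q2b pd1 false true false .pnp 0 1 2
    ndB2q0 ndB1q2b pcB1 cut_pm_012_b Ext.none :=
  certB2 (fam := false) (s1 := true) (s2 := false) (a := 0) (b := 1) (c := 2) (cn := .pnp) (n1 := ndB2q0) (n2 := ndB1q2b) (pc := pcB1) (cut := cut_pm_012_b) (xt := Ext.none) (P1 := 0) (W1 := 536870912) (P2 := 1239849684) (W2 := 370763052) (P3 := 697932185) (W3 := 42949674) (N0 := 3) (En := eng) (mo := mog) (C1 := cd2q0) (C2 := cd1q2b) (C3 := pd1)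
    rfl (fun _ => rfl) k0_pm_012_b

noncomputable def cut_pm_022_a : Cut := Cut.of [[⟨0, 0, 0, 67108864⟩, ⟨1, 1, 0, 67108864⟩, ⟨2, 1, 0, 67108864⟩]]

noncomputable def f_pm_022_a : ℕ → ℕ → ℕ → ℕ → Bool := onCell 0 536870912 0 536870912 697932185 42949674
    (rowB 3 eng mog cd2q0 cd1q2a pd2 0 false true false .pp 0 2 2 (qsf 0 536870912 0 536870912 2) ndB2q0 ndB1q2a pcB2 cut_pm_022_a Ext.none)

def k0_pm_022_a : ∃ t, chk3 f_pm_022_a t 2 2 1 = true :=
  ⟨(a (b (a (b (a (l 16447840) (l 16446472)) (a (l 16453592) (l 16381568))) (b (l 16443312) (a (l 16433824) (l 16422024)))) (a (b (a (b (l 16463392) (l 16472728)) (b (l 16448216) (l 16453296))) (a (b (a (b (l 16486160) (l 16494152)) (l 16500048)) (a (a (l 16522256) (l 16526344)) (l 16516224))) (b (l 16502840) (l 16536456)))) (b (a (l 16452424) (l 16410032)) (a (b (l 16434288) (l 16441968)) (b (l 16405176) (l 16407304)))))) (a (a (b (b (l 16439488) (l 16409200)) (b (l 16386712) (b (l 16373384) (l 16369304))))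 (b (l 2124968042039) (l 1))) (l 1))), by decide +kernel⟩

def k1_pm_022_a : ∃ t, chk3 f_pm_022_a t 2 3 1 = true :=
  ⟨(a (b (a (a (b (a (b (b (l 16545688) (a (l 16540560) (l 16532696))) (a (b (l 16553744) (l 16565368)) (b (l 16545272) (l 16558712)))) (b (c (l 16536784) (l 16535328)) (b (l 16532024) (l 16565496)))) (a (b (a (b (l 16575064) (a (l 16584288) (l 16585848))) (l 16559592)) (a (b (b (l 16592768) (l 16598680)) (l 16613544)) (b (l 16598592) (l 16611080)))) (b (b (l 16557760) (l 16571984)) (b (l 16586872) (l 16601192))))) (b (b (a (l 16498344) (l 16480792)) (a (l 16519080) (l 16498824))) (b (a (l 16563880) (l 16519696)) (a (l 16610984) (l 16542560))))) (b (a (b (l 16452744) (l 16487352)) (b (l 16412096) (l 16440168))) (a (b (a (l 16495224) (l 16469424)) (a (l 16514576) (l 16485000))) (b (a (l 16442224) (l 1)) (l 1))))) (a (b (b (a (a (b (a (a (l 16620752) (l 16622224)) (l 16624224)) (a (a (l 16655704) (l 16636184)) (l 16638152))) (b (l 16616208)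 (l 16631816))) (a (b (l 16588664) (l 16602448)) (b (l 16559472) (l 16571296)))) (a (l 6) (a (l 6) (b (l 16580920) (l 16590048))))) (a (l 6) (a (l 6) (l 1)))) (b (a (b (a (b (l 16528568) (l 16538272)) (l 1)) (l 1)) (l 1)) (l 1)))) (b (l 1) (l 1))), by decide +kernel⟩

def k2_pm_022_a : ∃ t, chk3 f_pm_022_a t 3 1 1 = true :=
  ⟨(l 1), by decide +kernel⟩

theorem s3_pm_022_a : ∃ t, chk3 f_pm_022_a t 2 1 1 = true := ex3_b k0_pm_022_a k1_pm_022_a

theorem s4_pm_022_a : ∃ t, chk3 f_pm_022_a t 1 1 1 = true := ex3_a s3_pm_022_a k2_pm_022_a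

theorem c_pm_022_a : CertB 0 536870912 0 536870912 697932185 42949674 3 eng mog cd2q0 cd1q2a pd2 false true false .pp 0 2 2
    ndB2q0 ndB1q2a pcB2 cut_pm_022_a Ext.none :=
  certB0 (fam := false) (s1 := true) (s2 := false) (a := 0) (b := 2) (c := 2) (cn := .pp) (n1 := ndB2q0) (n2 := ndB1q2a) (pc := pcB2) (cut := cut_pm_022_a) (xt := Ext.none) (P1 := 0) (W1 := 536870912) (P2 := 0) (W2 := 536870912) (P3 := 697932185) (W3 := 42949674) (N0 := 3) (En := eng) (mo := mog) (C1 := cd2q0) (C2 := cd1q2a) (C3 := pd2)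
    rfl s4_pm_022_a

noncomputable def cut_pm_022_b : Cut := Cut.of [[⟨0, 0, 0, 67108864⟩, ⟨1, 1, 0, 67108864⟩, ⟨2, 1, 0, 67108864⟩]]

noncomputable def f_pm_022_b : ℕ → ℕ → ℕ → ℕ → Bool := onCell 0 536870912 1073741824 536870912 697932185 42949674
    (rowB 3 eng mog cd2q0 cd1q2b pd2 1 false true false .pp 0 2 2 (qsf 0 536870912 1239849684 370763052 2) ndB2q0 ndB1q2b pcB2 cut_pm_022_b Ext.none)

def k0_pm_022_b : ∃ t, chk3 f_pm_022_b t 1 1 1 = true :=
  ⟨(b (a (b (a (a (b (l 1) (b (l 274911037591) (a (l 258267978759) (l 16447376)))) (b (b (l 214244676951) (l 16599208)) (a (l 16568424) (l 16422656)))) (a (b (a (l 16413576) (l 16423336)) (l 16388048)) (b (l 16236352) (l 16135600)))) (a (b (b (a (b (a (l 16485320) (l 16411152)) (l 16510072)) (l 16292568)) (a (b (l 16437504) (l 16391104)) (l 16341208))) (a (a (l 16432440) (l 16242320)) (l 16184584))) (b (a (b (l 16156072) (l 16111128)) (l 16058792)) (a (l 16078640) (l 16039560))))) (b (a (b (l 16124952)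 (l 16048096)) (b (l 16079040) (l 16064800))) (b (a (l 16013864) (l 16070608)) (a (l 16043064) (l 2))))) (b (a (a (b (a (a (l 16217656) (l 16126376)) (l 16075880)) (a (b (l 16065872) (l 16027600)) (l 16009808))) (b (l 16077880) (l 16005664))) (b (a (l 16079416) (l 2)) (l 2))) (a (b (a (a (l 16071592) (l 15983176)) (l 15969224)) (a (a (l 15958368) (l 15975344)) (l 2))) (l 2)))), by decide +kernel⟩

theorem c_pm_022_b : CertB 0 536870912 1239849684 370763052 697932185 42949674 3 eng mog cd2q0 cd1q2b pd2 false true false .pp 0 2 2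
    ndB2q0 ndB1q2b pcB2 cut_pm_022_b Ext.none :=
  certB1 (fam := false) (s1 := true) (s2 := false) (a := 0) (b := 2) (c := 2) (cn := .pp) (n1 := ndB2q0) (n2 := ndB1q2b) (pc := pcB2) (cut := cut_pm_022_b) (xt := Ext.none) (P1 := 0) (W1 := 536870912) (P2 := 1239849684) (W2 := 370763052) (P3 := 697932185) (W3 := 42949674) (N0 := 3) (En := eng) (mo := mog) (C1 := cd2q0) (C2 := cd1q2b) (C3 := pd2)
    rfl (fun _ => rfl) k0_pm_022_b

noncomputable def f_pm_023 : ℕ → ℕ → ℕ → ℕ → Bool := onCell 0 536870912 1073741824 536870912 697932185 42949674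
    (rowB 3 eng mog cd2q0 cd1q3 pd2 1 false true false .up 0 2 3 (qsf 0 536870912 1610612736 536870912 2) ndB2q0 ndB1q3 pcB2 Cut.none Ext.none)

def k0_pm_023 : ∃ t, chk3 f_pm_023 t 1 1 1 = true :=
  ⟨(b (a (b (l 1) (a (l 1) (b (l 1) (l 443487568055)))) (b (a (l 179884405735) (l 206727951655)) (b (a (l 16014096) (l 16068672)) (a (l 16042872) (l 16141848))))) (b (a (a (b (l 1) (l 503617188807)) (b (l 16057752) (l 15983968))) (b (a (l 16077544) (l 16227240)) (a (l 16097208) (l 16328248)))) (a (b (a (l 512744082567) (l 15973440)) (a (l 504691100247) (l 16012400))) (b (l 16322480) (l 16438288))))), by decide +kernel⟩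

theorem c_pm_023 : CertB 0 536870912 1610612736 536870912 697932185 42949674 3 eng mog cd2q0 cd1q3 pd2 false true false .up 0 2 3
    ndB2q0 ndB1q3 pcB2 Cut.none Ext.none :=
  certB1 (fam := false) (s1 := true) (s2 := false) (a := 0) (b := 2) (c := 3) (cn := .up) (n1 := ndB2q0) (n2 := ndB1q3) (pc := pcB2) (cut := Cut.none) (xt := Ext.none) (P1 := 0) (W1 := 536870912) (P2 := 1610612736) (W2 := 536870912) (P3 := 697932185) (W3 := 42949674) (N0 := 3) (En := eng) (mo := mog) (C1 := cd2q0) (C2 := cd1q3) (C3 := pd2)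
    rfl (fun _ => rfl) k0_pm_023

noncomputable def f_pm_033 : ℕ → ℕ → ℕ → ℕ → Bool := onCell 0 536870912 1610612736 536870912 697932185 42949674
    (rowB 3 eng mog cd2q0 cd1q3 pd3 1 false true false .pnn 0 3 3 (qsf 0 536870912 1610612736 536870912 3) ndB2q0 ndB1q3 pcB3 Cut.none Ext.none)

def k0_pm_033 : ∃ t, chk3 f_pm_033 t 1 1 1 = true :=
  ⟨(a (b (b (b (a (l 16070088) (l 16061336)) (a (b (l 15936320) (l 15958040)) (l 16187520))) (l 4)) (b (l 4) (a (l 4) (a (b (l 4) (l 2)) (l 2))))) (b (b (b (l 16504376) (a (l 16452880) (l 16642576))) (a (l 4) (a (b (l 4) (l 2)) (l 2)))) (a (b (a (b (l 4) (l 2)) (l 2)) (l 2)) (l 2)))), by decide +kernel⟩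

theorem c_pm_033 : CertB 0 536870912 1610612736 536870912 697932185 42949674 3 eng mog cd2q0 cd1q3 pd3 false true false .pnn 0 3 3
    ndB2q0 ndB1q3 pcB3 Cut.none Ext.none :=
  certB1 (fam := false) (s1 := true) (s2 := false) (a := 0) (b := 3) (c := 3) (cn := .pnn) (n1 := ndB2q0) (n2 := ndB1q3) (pc := pcB3) (cut := Cut.none) (xt := Ext.none) (P1 := 0) (W1 := 536870912) (P2 := 1610612736) (W2 := 536870912) (P3 := 697932185) (W3 := 42949674) (N0 := 3) (En := eng) (mo := mog) (C1 := cd2q0) (C2 := cd1q3) (C3 := pd3)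
    rfl (fun _ => rfl) k0_pm_033

noncomputable def f_pm_101 : ℕ → ℕ → ℕ → ℕ → Bool := onCell 0 536870912 536870912 536870912 697932185 42949674
    (rowB 3 eng mog cd2q1 cd1q1 pd0 2 false true false .npn 1 0 1 (qsf 536870912 536870912 536870912 536870912 0) ndB2q1 ndB1q1 pcB0 Cut.none Ext.none)

def k0_pm_101 : ∃ t, chk3 f_pm_101 t 1 1 1 = true :=
  ⟨(b (l 4) (b (a (a (a (b (a (l 16468320) (l 4)) (b (a (l 16235984) (l 16252384)) (l 16298936))) (b (l 4) (b (a (l 16267888) (l 4)) (a (l 16214304) (l 16213720))))) (a (b (l 4) (b (l 4) (a (l 16213352) (l 16213080)))) (l 4))) (l 4)) (b (a (a (a (b (l 16334408) (a (l 16223144) (l 16210560))) (b (l 16189008) (l 16373424))) (a (a (l 16156912) (b (l 16144224) (l 16117560))) (b (a (l 16138048) (l 16169904)) (l 16130368)))) (a (a (b (l 4) (a (l 16138520) (l 16166376))) (a (l 16263760) (l 16228904))) (l 4))) (a (a (a (b (b (l 16235328) (a (l 16261432) (l 16239856))) (a (b (l 16393568) (b (l 16295968) (l 16302528)))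 (b (l 16258072) (b (l 16273896) (l 16274440))))) (b (a (l 16209312) (l 16182848)) (a (b (l 16229056) (b (l 16240856) (l 16246944))) (l 16315376)))) (a (a (b (l 16153920) (l 16174064)) (b (l 16112360) (l 16124392))) (a (b (l 16054008) (l 16047784)) (l 16132984)))) (a (a (a (l 16076216) (l 16099696)) (a (l 16119496) (l 16308256))) (a (a (l 16270008) (l 16295808)) (a (l 16386768) (b (l 4) (l 16222448))))))))), by decide +kernel⟩

theorem c_pm_101 : CertB 536870912 536870912 536870912 536870912 697932185 42949674 3 eng mog cd2q1 cd1q1 pd0 false true false .npn 1 0 1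
    ndB2q1 ndB1q1 pcB0 Cut.none Ext.none :=
  certB2 (fam := false) (s1 := true) (s2 := false) (a := 1) (b := 0) (c := 1) (cn := .npn) (n1 := ndB2q1) (n2 := ndB1q1) (pc := pcB0) (cut := Cut.none) (xt := Ext.none) (P1 := 536870912) (W1 := 536870912) (P2 := 536870912) (W2 := 536870912) (P3 := 697932185) (W3 := 42949674) (N0 := 3) (En := eng) (mo := mog) (C1 := cd2q1) (C2 := cd1q1) (C3 := pd0)
    rfl (fun _ => rfl) k0_pm_101

noncomputable def f_pm_102_a : ℕ → ℕ → ℕ → ℕ → Bool := onCell 0 536870912 0 536870912 697932185 42949674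
    (rowB 3 eng mog cd2q1 cd1q2a pd0 2 false true false .npp 1 0 2 (qsf 536870912 536870912 0 536870912 0) ndB2q1 ndB1q2a pcB0 Cut.none Ext.none)

def k0_pm_102_a : ∃ t, chk3 f_pm_102_a t 2 2 1 = true :=
  ⟨(a (b (l 2) (a (l 2) (b (l 2) (a (l 2) (b (l 2) (a (l 2) (b (l 16588912) (l 16590456)))))))) (b (a (b (l 3) (a (l 3) (b (l 3) (a (l 3) (b (l 3) (a (b (l 3) (l 16562968)) (l 99488356903))))))) (b (a (l 3) (b (l 3) (a (l 169818530695) (b (l 194514670711) (l 126868925495))))) (a (b (a (l 3) (l 118815889719)) (a (b (l 125795223831) (a (b (l 16561976) (l 16563440)) (l 16584904))) (a (a (l 16604904) (l 16585128)) (l 16586312)))) (b (a (a (l 16558912) (l 103246636807)) (a (b (l 16561824) (l 16564928)) (l 16607424))) (a (b (l 16618304) (l 16568504)) (l 16570016)))))) (a (b (a (b (a (l 3) (b (l 3) (l 131700783479))) (a (b (l 16588880) (b (l 16593560) (l 16574680))) (b (a (l 16611832) (l 16571584)) (l 16599216)))) (b (a (b (l 133848225735) (a (l 16585672) (l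 16567904))) (b (a (l 97877852695) (b (l 16564104) (l 16565872))) (l 16570248))) (a (b (l 16574152) (l 16579488)) (b (l 16574408) (l 16580416))))) (a (b (b (a (a (l 16576624) (l 16580984)) (l 16583392)) (a (l 16585632) (l 16589240))) (a (l 16591776) (l 16595272))) (b (a (b (l 16586688) (l 16591432)) (l 16588504)) (a (l 16598672) (l 16599104))))) (b (a (a (b (b (b (l 16566064) (l 16567928)) (l 16571176)) (l 16578688)) (b (l 16571240) (l 16580664))) (b (a (l 16573512) (l 16577080)) (l 16584184))) (b (a (l 16590008) (l 16594072)) (a (b (l 16598112) (l 16603504)) (l 16604032))))))), by decide +kernel⟩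

def k1_pm_102_a : ∃ t, chk3 f_pm_102_a t 2 3 1 = true :=
  ⟨(a (a (b (l 2) (b (a (l 2) (b (l 16567216) (l 16540496))) (b (a (b (a (l 2) (l 16521200)) (l 16508032)) (b (a (l 16532080) (l 16543192)) (l 16526600))) (a (b (l 16494976) (a (l 16475704) (l 16465952))) (b (l 16495352) (l 16453768)))))) (b (b (a (l 2) (b (b (a (l 2) (l 16594248)) (l 16597360)) (b (l 16600896) (l 16601656)))) (a (b (l 16603872) (l 16571752)) (b (l 16596000) (l 16590544)))) (b (a (b (l 16565632) (l 16562384)) (l 16582072)) (b (a (b (l 16549872) (l 16513416)) (b (l 16530192) (l 16477192))) (a (l 16493560) (l 16436216)))))) (b (a (b (a (b (b (l 16601488) (l 16606680)) (l 16593008)) (b (l 16610840) (b (l 16619808) (l 16621768)))) (a (a (l 16607256) (l 16615792)) (b (l 16619144) (l 16608120)))) (b (b (a (l 16610496) (l 16607840)) (a (l 16617336) (l 16606832))) (a (l 16598728) (l 16571528)))) (b (a (a (b (l 16597200) (l 16559496)) (b (l 16578864) (l 16508392))) (a (b (l 16536064) (l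 16450256)) (l 16660384))) (a (a (b (a (l 16480832) (l 16470344)) (c (l 16437400) (l 16403520))) (a (b (l 16444848) (l 16392056)) (b (l 16412632) (l 16357592)))) (a (b (l 16361816) (l 16302224)) (b (l 16286696) (l 16221832))))))), by decide +kernel⟩

def k2_pm_102_a : ∃ t, chk3 f_pm_102_a t 6 1 1 = true :=
  ⟨(b (a (b (b (a (b (a (l 3) (b (l 3) (l 178945373047))) (a (a (l 138143217847) (l 125795193463)) (b (l 16567800) (l 16569424)))) (b (a (b (l 175724148967) (l 16571208)) (b (l 16575000) (l 16575888))) (a (b (l 16572360) (l 16574184)) (b (l 16577464) (l 16578712))))) (b (a (b (a (l 16567208) (l 16571464)) (l 16571544)) (l 16579344)) (a (l 16575272) (l 16584320)))) (b (a (b (l 16583000) (l 16590488)) (l 16592848)) (a (b (l 16598512) (l 16602456)) (b (a (l 16600456) (l 16600344)) (l 16596176))))) (b (b (a (b (a (b (l 16580312) (l 16581656)) (b (l 16586552) (l 16586976))) (l 16585712)) (b (l 16594792) (l 16594568))) (b (a (l 16587968) (l 16595904)) (a (l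 16591536) (l 16595824)))) (b (a (l 16596424) (l 16637448)) (a (b (l 16599344) (l 16592888)) (l 16613712))))) (a (a (b (b (b (l 16599368) (l 16588408)) (l 16538720)) (b (l 16454136) (b (l 16276280) (l 16171656)))) (b (b (b (l 16584592) (l 16669576)) (a (l 16515400) (l 16555024))) (b (a (a (l 16392952) (l 16390536)) (a (l 16391632) (l 16368232))) (a (a (l 16227712) (l 16329880)) (a (l 16234728) (b (l 16243784) (l 16165056))))))) (b (a (b (b (l 16580848) (l 16559368)) (a (l 16504120) (l 16492720))) (b (b (l 16577640) (l 16555400)) (a (l 16484736) (l 16481088)))) (b (a (a (b (l 16416536) (l 16340040)) (l 16387744)) (a (a (l 16357864) (l 16357912)) (l 16379872))) (a (a (b (l 16254176) (l 16177968)) (b (l 16264280) (l 16194464))) (a (a (l 16235448) (l 16234856)) (l 16230424))))))), by decide +kernel⟩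

def k3_pm_102_a : ∃ t, chk3 f_pm_102_a t 7 1 1 = true :=
  ⟨(b (b (b (a (a (l 16623368) (l 16608584)) (a (l 16612464) (l 16613216))) (a (l 16599056) (l 16594720))) (b (a (a (l 16590936) (l 16584264)) (l 16573128)) (a (l 16570992) (l 16542728)))) (b (b (a (l 16572584) (l 16493952)) (a (l 16454520) (l 16426256))) (b (a (l 16454840) (l 16347208)) (a (a (l 16240280) (l 16256912)) (l 16281104))))), by decide +kernel⟩

theorem s4_pm_102_a : ∃ t, chk3 f_pm_102_a t 3 1 1 = true := ex3_a k2_pm_102_a k3_pm_102_a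

theorem s5_pm_102_a : ∃ t, chk3 f_pm_102_a t 2 1 1 = true := ex3_b k0_pm_102_a k1_pm_102_a

theorem s6_pm_102_a : ∃ t, chk3 f_pm_102_a t 1 1 1 = true := ex3_a s5_pm_102_a s4_pm_102_a

theorem c_pm_102_a : CertB 536870912 536870912 0 536870912 697932185 42949674 3 eng mog cd2q1 cd1q2a pd0 false true false .npp 1 0 2
    ndB2q1 ndB1q2a pcB0 Cut.none Ext.none :=
  certB2 (fam := false) (s1 := true) (s2 := false) (a := 1) (b := 0) (c := 2) (cn := .npp) (n1 := ndB2q1) (n2 := ndB1q2a) (pc := pcB0) (cut := Cut.none) (xt := Ext.none) (P1 := 536870912) (W1 := 536870912) (P2 := 0) (W2 := 536870912) (P3 := 697932185) (W3 := 42949674) (N0 := 3) (En := eng) (mo := mog) (C1 := cd2q1) (C2 := cd1q2a) (C3 := pd0)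
    rfl (fun _ => rfl) s6_pm_102_a

noncomputable def f_pm_102_b : ℕ → ℕ → ℕ → ℕ → Bool := onCell 536870912 536870912 0 536870912 697932185 42949674
    (rowB 3 eng mog cd2q1 cd1q2b pd0 1 false true false .npp 1 0 2 (qsf 536870912 536870912 1239849684 370763052 0) ndB2q1 ndB1q2b pcB0 Cut.none Ext.none)

def k0_pm_102_b : ∃ t, chk3 f_pm_102_b t 1 1 1 = true :=
  ⟨(a (b (l 1) (b (l 1) (a (l 1) (b (a (l 1) (b (l 16663728) (l 16629232))) (a (l 16772864) (l 16587360)))))) (a (b (l 1) (a (b (b (l 1) (b (a (l 1) (l 16632392)) (l 16637216))) (b (b (l 16581312) (l 16551832)) (l 16518080))) (b (b (b (a (l 1) (a (l 1) (l 3))) (a (b (l 1) (l 16612936)) (a (b (l 16595232) (l 16571856)) (b (l 3) (l 150491208343))))) (b (a (b (l 16590720) (l 16570416)) (b (l 148343706023) (l 16537984))) (a (a (l 16555960) (l 16530736)) (b (l 16499872) (l 16484592))))) (b (a (b (l 16512456) (l 16486888)) (b (l 16463912) (l 16440464))) (a (l 16459200) (b (l 16423064) (l 16412128)))))))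 (b (l 3) (a (b (b (l 3) (b (l 3) (a (b (l 345912040919) (l 149417270407)) (l 3)))) (b (b (a (l 155322882231) (l 3)) (a (l 16392120) (l 155322708903))) (b (a (l 16376872) (l 16329096)) (a (l 16368576) (l 16323064))))) (a (b (l 3) (b (l 3) (l 3))) (l 3)))))), by decide +kernel⟩

theorem c_pm_102_b : CertB 536870912 536870912 1239849684 370763052 697932185 42949674 3 eng mog cd2q1 cd1q2b pd0 false true false .npp 1 0 2
    ndB2q1 ndB1q2b pcB0 Cut.none Ext.none :=
  certB1 (fam := false) (s1 := true) (s2 := false) (a := 1) (b := 0) (c := 2) (cn := .npp) (n1 := ndB2q1) (n2 := ndB1q2b) (pc := pcB0) (cut := Cut.none) (xt := Ext.none) (P1 := 536870912) (W1 := 536870912) (P2 := 1239849684) (W2 := 370763052) (P3 := 697932185) (W3 := 42949674) (N0 := 3) (En := eng) (mo := mog) (C1 := cd2q1) (C2 := cd1q2b) (C3 := pd0)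
    rfl (fun _ => rfl) k0_pm_102_b

noncomputable def f_pm_112_a : ℕ → ℕ → ℕ → ℕ → Bool := onCell 536870912 536870912 0 536870912 697932185 42949674
    (rowB 3 eng mog cd2q1 cd1q2a pd1 2 false true false .dn 1 1 2 (qsf 536870912 536870912 0 536870912 1) ndB2q1 ndB1q2a pcB1 Cut.none Ext.none)

def k0_pm_112_a : ∃ t, chk3 f_pm_112_a t 1 1 1 = true :=
  ⟨(a (b (a (a (b (l 16575448) (b (l 16529664) (l 16494120))) (b (l 16555424) (l 16594840))) (a (b (l 16600344) (l 16470840)) (l 1))) (a (b (b (l 16692288) (a (l 16396016) (l 16386552))) (a (b (l 16343784) (l 16310536)) (b (l 125124056183) (l 1)))) (b (l 1) (l 1)))) (l 1)), by decide +kernel⟩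

theorem c_pm_112_a : CertB 536870912 536870912 0 536870912 697932185 42949674 3 eng mog cd2q1 cd1q2a pd1 false true false .dn 1 1 2
    ndB2q1 ndB1q2a pcB1 Cut.none Ext.none :=
  certB2 (fam := false) (s1 := true) (s2 := false) (a := 1) (b := 1) (c := 2) (cn := .dn) (n1 := ndB2q1) (n2 := ndB1q2a) (pc := pcB1) (cut := Cut.none) (xt := Ext.none) (P1 := 536870912) (W1 := 536870912) (P2 := 0) (W2 := 536870912) (P3 := 697932185) (W3 := 42949674) (N0 := 3) (En := eng) (mo := mog) (C1 := cd2q1) (C2 := cd1q2a) (C3 := pd1)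
    rfl (fun _ => rfl) k0_pm_112_a

noncomputable def f_pm_112_b : ℕ → ℕ → ℕ → ℕ → Bool := onCell 536870912 536870912 536870912 536870912 697932185 42949674
    (rowB 3 eng mog cd2q1 cd1q2b pd1 1 false true false .dn 1 1 2 (qsf 536870912 536870912 1239849684 370763052 1) ndB2q1 ndB1q2b pcB1 Cut.none Ext.none)

def k0_pm_112_b : ∃ t, chk3 f_pm_112_b t 1 1 1 = true :=
  ⟨(b (b (a (a (b (a (l 1) (l 16621432)) (l 148746798215)) (b (a (l 16582216) (l 16538104)) (l 16534552))) (b (a (a (l 16488760) (a (l 16444392) (l 16410608))) (a (a (b (l 16370640) (l 16377976)) (b (l 16326736) (l 16337816))) (a (b (l 16282520) (l 16294304)) (l 3)))) (a (l 16472656) (a (a (l 16410288) (l 16378424)) (b (l 301821247127) (l 2)))))) (a (a (b (l 16530560) (l 16468512)) (b (l 16514264) (l 16506504))) (a (b (l 16523352) (l 16628768)) (a (a (l 16601032) (l 2)) (l 2))))) (b (a (a (b (l 16403456) (l 16340632)) (l 16610344)) (b (a (l 16809432) (l 2)) (l 2))) (a (a (l 16274968) (l 16651704))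 (l 2)))), by decide +kernel⟩

theorem c_pm_112_b : CertB 536870912 536870912 1239849684 370763052 697932185 42949674 3 eng mog cd2q1 cd1q2b pd1 false true false .dn 1 1 2
    ndB2q1 ndB1q2b pcB1 Cut.none Ext.none :=
  certB1 (fam := false) (s1 := true) (s2 := false) (a := 1) (b := 1) (c := 2) (cn := .dn) (n1 := ndB2q1) (n2 := ndB1q2b) (pc := pcB1) (cut := Cut.none) (xt := Ext.none) (P1 := 536870912) (W1 := 536870912) (P2 := 1239849684) (W2 := 370763052) (P3 := 697932185) (W3 := 42949674) (N0 := 3) (En := eng) (mo := mog) (C1 := cd2q1) (C2 := cd1q2b) (C3 := pd1)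
    rfl (fun _ => rfl) k0_pm_112_b

noncomputable def f_pm_113 : ℕ → ℕ → ℕ → ℕ → Bool := onCell 536870912 536870912 536870912 536870912 697932185 42949674
    (rowB 3 eng mog cd2q1 cd1q3 pd1 1 false true false .nn 1 1 3 (qsf 536870912 536870912 1610612736 536870912 1) ndB2q1 ndB1q3 pcB1 Cut.none Ext.none)

def k0_pm_113 : ∃ t, chk3 f_pm_113 t 1 1 1 = true :=
  ⟨(b (b (a (l 1) (b (a (l 1) (a (a (l 1) (b (l 1) (l 16335680))) (a (a (l 167536497559) (l 224042085463)) (l 3)))) (a (l 16469384) (a (a (l 16408792) (l 16378408)) (b (l 152101375127) (l 152101448247)))))) (a (a (l 1) (l 180422107143)) (a (b (l 16522008) (l 16629096)) (b (a (a (l 16515592) (l 16500840)) (b (a (l 16436032) (l 16395392)) (a (l 16536256) (l 16507616)))) (a (l 16739696) (b (l 16618160) (l 16671656))))))) (b (a (a (l 206728555511) (l 180422036775)) (a (b (l 16810040) (l 17084672)) (a (l 16966960) (b (b (l 16721520) (l 16785608)) (l 16847368))))) (a (a (l 16275704) (l 16644280)) (a (l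 16887176) (b (l 16965760) (l 16861792)))))), by decide +kernel⟩

theorem c_pm_113 : CertB 536870912 536870912 1610612736 536870912 697932185 42949674 3 eng mog cd2q1 cd1q3 pd1 false true false .nn 1 1 3
    ndB2q1 ndB1q3 pcB1 Cut.none Ext.none :=
  certB1 (fam := false) (s1 := true) (s2 := false) (a := 1) (b := 1) (c := 3) (cn := .nn) (n1 := ndB2q1) (n2 := ndB1q3) (pc := pcB1) (cut := Cut.none) (xt := Ext.none) (P1 := 536870912) (W1 := 536870912) (P2 := 1610612736) (W2 := 536870912) (P3 := 697932185) (W3 := 42949674) (N0 := 3) (En := eng) (mo := mog) (C1 := cd2q1) (C2 := cd1q3) (C3 := pd1)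
    rfl (fun _ => rfl) k0_pm_113

noncomputable def f_pm_123 : ℕ → ℕ → ℕ → ℕ → Bool := onCell 1073741824 536870912 1610612736 536870912 697932185 42949674
    (rowB 3 eng mog cd2q1 cd1q3 pd2 2 false true false .npn 1 2 3 (qsf 536870912 536870912 1610612736 536870912 2) ndB2q1 ndB1q3 pcB2 Cut.none Ext.none)

def k0_pm_123 : ∃ t, chk3 f_pm_123 t 1 1 1 = true :=
  ⟨(a (b (a (b (a (l 16189352) (l 16128656)) (a (l 16567008) (l 16341416))) (a (b (l 16109768) (l 16227096)) (l 302291215799))) (a (b (a (l 16696992) (l 16543416)) (a (l 16726064) (l 16602808))) (b (a (l 16418800) (l 16393520)) (a (l 16613256) (l 16500208))))) (a (b (a (l 324839959447) (l 1)) (b (a (l 16405352) (l 16435056)) (a (l 16518616) (l 16545288)))) (b (l 1) (a (l 16536968) (l 16570088))))), by decide +kernel⟩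

theorem c_pm_123 : CertB 536870912 536870912 1610612736 536870912 697932185 42949674 3 eng mog cd2q1 cd1q3 pd2 false true false .npn 1 2 3
    ndB2q1 ndB1q3 pcB2 Cut.none Ext.none :=
  certB2 (fam := false) (s1 := true) (s2 := false) (a := 1) (b := 2) (c := 3) (cn := .npn) (n1 := ndB2q1) (n2 := ndB1q3) (pc := pcB2) (cut := Cut.none) (xt := Ext.none) (P1 := 536870912) (W1 := 536870912) (P2 := 1610612736) (W2 := 536870912) (P3 := 697932185) (W3 := 42949674) (N0 := 3) (En := eng) (mo := mog) (C1 := cd2q1) (C2 := cd1q3) (C3 := pd2)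
    rfl (fun _ => rfl) k0_pm_123

noncomputable def f_pm_133 : ℕ → ℕ → ℕ → ℕ → Bool := onCell 1610612736 536870912 1610612736 536870912 697932185 42949674
    (rowB 3 eng mog cd2q1 cd1q3 pd3 2 false true false .dn 1 3 3 (qsf 536870912 536870912 1610612736 536870912 3) ndB2q1 ndB1q3 pcB3 Cut.none Ext.none)

def k0_pm_133 : ∃ t, chk3 f_pm_133 t 1 1 1 = true :=
  ⟨(a (b (l 1) (a (a (l 16582504) (l 1)) (l 1))) (l 1)), by decide +kernel⟩

theorem c_pm_133 : CertB 536870912 536870912 1610612736 536870912 697932185 42949674 3 eng mog cd2q1 cd1q3 pd3 false true false .dn 1 3 3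
    ndB2q1 ndB1q3 pcB3 Cut.none Ext.none :=
  certB2 (fam := false) (s1 := true) (s2 := false) (a := 1) (b := 3) (c := 3) (cn := .dn) (n1 := ndB2q1) (n2 := ndB1q3) (pc := pcB3) (cut := Cut.none) (xt := Ext.none) (P1 := 536870912) (W1 := 536870912) (P2 := 1610612736) (W2 := 536870912) (P3 := 697932185) (W3 := 42949674) (N0 := 3) (En := eng) (mo := mog) (C1 := cd2q1) (C2 := cd1q3) (C3 := pd3)
    rfl (fun _ => rfl) k0_pm_133

noncomputable def cut_pm_202_aa : Cut := Cut.of [[⟨0, 1, 0, 67108864⟩, ⟨1, 0, 0, 67108864⟩, ⟨2, 1, 0, 67108864⟩]]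

noncomputable def f_pm_202_aa : ℕ → ℕ → ℕ → ℕ → Bool := onCell 0 536870912 0 536870912 697932185 42949674
    (rowB 3 eng mog cd2q2a cd1q2a pd0 0 false true false .pp 2 0 2 (qsf 0 536870912 0 536870912 0) ndB2q2a ndB1q2a pcB0 cut_pm_202_aa Ext.none)

def k0_pm_202_aa : ∃ t, chk3 f_pm_202_aa t 1 1 1 = true :=
  ⟨(a (l 3) (b (l 3) (b (l 3) (a (l 3) (b (l 3) (a (l 3) (l 6))))))), by decide +kernel⟩

theorem c_pm_202_aa : CertB 0 536870912 0 536870912 697932185 42949674 3 eng mog cd2q2a cd1q2a pd0 false true false .pp 2 0 2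
    ndB2q2a ndB1q2a pcB0 cut_pm_202_aa Ext.none :=
  certB0 (fam := false) (s1 := true) (s2 := false) (a := 2) (b := 0) (c := 2) (cn := .pp) (n1 := ndB2q2a) (n2 := ndB1q2a) (pc := pcB0) (cut := cut_pm_202_aa) (xt := Ext.none) (P1 := 0) (W1 := 536870912) (P2 := 0) (W2 := 536870912) (P3 := 697932185) (W3 := 42949674) (N0 := 3) (En := eng) (mo := mog) (C1 := cd2q2a) (C2 := cd1q2a) (C3 := pd0)
    rfl k0_pm_202_aa

noncomputable def cut_pm_202_ab : Cut := Cut.of [[⟨0, 1, 0, 67108864⟩, ⟨1, 0, 0, 67108864⟩, ⟨2, 1, 0, 67108864⟩]]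

noncomputable def f_pm_202_ab : ℕ → ℕ → ℕ → ℕ → Bool := onCell 0 536870912 1239849684 370763052 697932185 42949674
    (rowB 3 eng mog cd2q2a cd1q2b pd0 0 false true false .pp 2 0 2 (qsf 0 536870912 1239849684 370763052 0) ndB2q2a ndB1q2b pcB0 cut_pm_202_ab Ext.none)

def k0_pm_202_ab : ∃ t, chk3 f_pm_202_ab t 1 1 1 = true :=
  ⟨(l 3), by decide +kernel⟩

theorem c_pm_202_ab : CertB 0 536870912 1239849684 370763052 697932185 42949674 3 eng mog cd2q2a cd1q2b pd0 false true false .pp 2 0 2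
    ndB2q2a ndB1q2b pcB0 cut_pm_202_ab Ext.none :=
  certB0 (fam := false) (s1 := true) (s2 := false) (a := 2) (b := 0) (c := 2) (cn := .pp) (n1 := ndB2q2a) (n2 := ndB1q2b) (pc := pcB0) (cut := cut_pm_202_ab) (xt := Ext.none) (P1 := 0) (W1 := 536870912) (P2 := 1239849684) (W2 := 370763052) (P3 := 697932185) (W3 := 42949674) (N0 := 3) (En := eng) (mo := mog) (C1 := cd2q2a) (C2 := cd1q2b) (C3 := pd0)
    rfl k0_pm_202_ab

noncomputable def cut_pm_202_ba : Cut := Cut.of [[⟨0, 1, 0, 67108864⟩, ⟨1, 0, 0, 67108864⟩, ⟨2, 1, 0, 67108864⟩]]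

noncomputable def f_pm_202_ba : ℕ → ℕ → ℕ → ℕ → Bool := onCell 1239849684 370763052 0 536870912 697932185 42949674
    (rowB 3 eng mog cd2q2b cd1q2a pd0 0 false true false .pp 2 0 2 (qsf 1239849684 370763052 0 536870912 0) ndB2q2b ndB1q2a pcB0 cut_pm_202_ba Ext.none)

def k0_pm_202_ba : ∃ t, chk3 f_pm_202_ba t 1 1 1 = true :=
  ⟨(l 3), by decide +kernel⟩

theorem c_pm_202_ba : CertB 1239849684 370763052 0 536870912 697932185 42949674 3 eng mog cd2q2b cd1q2a pd0 false true false .pp 2 0 2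
    ndB2q2b ndB1q2a pcB0 cut_pm_202_ba Ext.none :=
  certB0 (fam := false) (s1 := true) (s2 := false) (a := 2) (b := 0) (c := 2) (cn := .pp) (n1 := ndB2q2b) (n2 := ndB1q2a) (pc := pcB0) (cut := cut_pm_202_ba) (xt := Ext.none) (P1 := 1239849684) (W1 := 370763052) (P2 := 0) (W2 := 536870912) (P3 := 697932185) (W3 := 42949674) (N0 := 3) (En := eng) (mo := mog) (C1 := cd2q2b) (C2 := cd1q2a) (C3 := pd0)
    rfl k0_pm_202_ba

noncomputable def cut_pm_202_bb : Cut := Cut.of [[⟨0, 1, 0, 67108864⟩, ⟨1, 0, 0, 67108864⟩, ⟨2, 1, 0, 67108864⟩]]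

noncomputable def f_pm_202_bb : ℕ → ℕ → ℕ → ℕ → Bool := onCell 1239849684 370763052 1239849684 370763052 697932185 42949674
    (rowB 3 eng mog cd2q2b cd1q2b pd0 0 false true false .pp 2 0 2 (qsf 1239849684 370763052 1239849684 370763052 0) ndB2q2b ndB1q2b pcB0 cut_pm_202_bb Ext.none)

def k0_pm_202_bb : ∃ t, chk3 f_pm_202_bb t 1 1 1 = true :=
  ⟨(l 3), by decide +kernel⟩

theorem c_pm_202_bb : CertB 1239849684 370763052 1239849684 370763052 697932185 42949674 3 eng mog cd2q2b cd1q2b pd0 false true false .pp 2 0 2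
    ndB2q2b ndB1q2b pcB0 cut_pm_202_bb Ext.none :=
  certB0 (fam := false) (s1 := true) (s2 := false) (a := 2) (b := 0) (c := 2) (cn := .pp) (n1 := ndB2q2b) (n2 := ndB1q2b) (pc := pcB0) (cut := cut_pm_202_bb) (xt := Ext.none) (P1 := 1239849684) (W1 := 370763052) (P2 := 1239849684) (W2 := 370763052) (P3 := 697932185) (W3 := 42949674) (N0 := 3) (En := eng) (mo := mog) (C1 := cd2q2b) (C2 := cd1q2b) (C3 := pd0)
    rfl k0_pm_202_bb

noncomputable def f_pm_203_a : ℕ → ℕ → ℕ → ℕ → Bool := onCell 0 536870912 0 536870912 697932185 42949674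
    (rowB 3 eng mog cd2q2a cd1q3 pd0 1 false true false .up 2 0 3 (qsf 0 536870912 1610612736 536870912 0) ndB2q2a ndB1q3 pcB0 Cut.none Ext.none)

def k0_pm_203_a : ∃ t, chk3 f_pm_203_a t 1 1 1 = true :=
  ⟨(l 3), by decide +kernel⟩

theorem c_pm_203_a : CertB 0 536870912 1610612736 536870912 697932185 42949674 3 eng mog cd2q2a cd1q3 pd0 false true false .up 2 0 3
    ndB2q2a ndB1q3 pcB0 Cut.none Ext.none :=
  certB1 (fam := false) (s1 := true) (s2 := false) (a := 2) (b := 0) (c := 3) (cn := .up) (n1 := ndB2q2a) (n2 := ndB1q3) (pc := pcB0) (cut := Cut.none) (xt := Ext.none) (P1 := 0) (W1 := 536870912) (P2 := 1610612736) (W2 := 536870912) (P3 := 697932185) (W3 := 42949674) (N0 := 3) (En := eng) (mo := mog) (C1 := cd2q2a) (C2 := cd1q3) (C3 := pd0)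
    rfl (fun _ => rfl) k0_pm_203_a

noncomputable def f_pm_203_b : ℕ → ℕ → ℕ → ℕ → Bool := onCell 1239849684 370763052 1610612736 536870912 697932185 42949674
    (rowB 3 eng mog cd2q2b cd1q3 pd0 0 false true false .up 2 0 3 (qsf 1239849684 370763052 1610612736 536870912 0) ndB2q2b ndB1q3 pcB0 Cut.none Ext.none)

def k0_pm_203_b : ∃ t, chk3 f_pm_203_b t 1 1 1 = true :=
  ⟨(l 3), by decide +kernel⟩

theorem c_pm_203_b : CertB 1239849684 370763052 1610612736 536870912 697932185 42949674 3 eng mog cd2q2b cd1q3 pd0 false true false .up 2 0 3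
    ndB2q2b ndB1q3 pcB0 Cut.none Ext.none :=
  certB0 (fam := false) (s1 := true) (s2 := false) (a := 2) (b := 0) (c := 3) (cn := .up) (n1 := ndB2q2b) (n2 := ndB1q3) (pc := pcB0) (cut := Cut.none) (xt := Ext.none) (P1 := 1239849684) (W1 := 370763052) (P2 := 1610612736) (W2 := 536870912) (P3 := 697932185) (W3 := 42949674) (N0 := 3) (En := eng) (mo := mog) (C1 := cd2q2b) (C2 := cd1q3) (C3 := pd0)
    rfl k0_pm_203_b

noncomputable def cut_pm_213_a : Cut := Cut.of [[⟨0, 1, 0, 67108864⟩, ⟨1, 1, 0, 67108864⟩, ⟨2, 2, 0, 16777216⟩]]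

noncomputable def f_pm_213_a : ℕ → ℕ → ℕ → ℕ → Bool := onCell 0 536870912 1610612736 536870912 697932185 42949674
    (rowB 3 eng mog cd2q2a cd1q3 pd1 0 false true false .pnn 2 1 3 (qsf 0 536870912 1610612736 536870912 1) ndB2q2a ndB1q3 pcB1 cut_pm_213_a Ext.none)

def k0_pm_213_a : ∃ t, chk3 f_pm_213_a t 1 1 1 = true :=
  ⟨(b (l 3) (a (l 3) (b (l 3) (a (l 3) (b (l 3) (a (l 3) (b (l 3) (b (l 3) (b (l 3) (l 6)))))))))), by decide +kernel⟩

theorem c_pm_213_a : CertB 0 536870912 1610612736 536870912 697932185 42949674 3 eng mog cd2q2a cd1q3 pd1 false true false .pnn 2 1 3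
    ndB2q2a ndB1q3 pcB1 cut_pm_213_a Ext.none :=
  certB0 (fam := false) (s1 := true) (s2 := false) (a := 2) (b := 1) (c := 3) (cn := .pnn) (n1 := ndB2q2a) (n2 := ndB1q3) (pc := pcB1) (cut := cut_pm_213_a) (xt := Ext.none) (P1 := 0) (W1 := 536870912) (P2 := 1610612736) (W2 := 536870912) (P3 := 697932185) (W3 := 42949674) (N0 := 3) (En := eng) (mo := mog) (C1 := cd2q2a) (C2 := cd1q3) (C3 := pd1)
    rfl k0_pm_213_a

noncomputable def cut_pm_213_b : Cut := Cut.of [[⟨0, 1, 0, 67108864⟩, ⟨1, 1, 0, 67108864⟩, ⟨2, 2, 0, 16777216⟩]]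

noncomputable def f_pm_213_b : ℕ → ℕ → ℕ → ℕ → Bool := onCell 1239849684 370763052 1610612736 536870912 697932185 42949674
    (rowB 3 eng mog cd2q2b cd1q3 pd1 0 false true false .pnn 2 1 3 (qsf 1239849684 370763052 1610612736 536870912 1) ndB2q2b ndB1q3 pcB1 cut_pm_213_b Ext.none)

def k0_pm_213_b : ∃ t, chk3 f_pm_213_b t 1 1 1 = true :=
  ⟨(l 3), by decide +kernel⟩

theorem c_pm_213_b : CertB 1239849684 370763052 1610612736 536870912 697932185 42949674 3 eng mog cd2q2b cd1q3 pd1 false true false .pnn 2 1 3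
    ndB2q2b ndB1q3 pcB1 cut_pm_213_b Ext.none :=
  certB0 (fam := false) (s1 := true) (s2 := false) (a := 2) (b := 1) (c := 3) (cn := .pnn) (n1 := ndB2q2b) (n2 := ndB1q3) (pc := pcB1) (cut := cut_pm_213_b) (xt := Ext.none) (P1 := 1239849684) (W1 := 370763052) (P2 := 1610612736) (W2 := 536870912) (P3 := 697932185) (W3 := 42949674) (N0 := 3) (En := eng) (mo := mog) (C1 := cd2q2b) (C2 := cd1q3) (C3 := pd1)
    rfl k0_pm_213_b

noncomputable def f_pm_303 : ℕ → ℕ → ℕ → ℕ → Bool := onCell 1610612736 536870912 1610612736 536870912 697932185 42949674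
    (rowB 3 eng mog cd2q3 cd1q3 pd0 0 false true false .npn 3 0 3 (qsf 1610612736 536870912 1610612736 536870912 0) ndB2q3 ndB1q3 pcB0 Cut.none Ext.none)

def k0_pm_303 : ∃ t, chk3 f_pm_303 t 1 1 1 = true :=
  ⟨(l 3), by decide +kernel⟩

theorem c_pm_303 : CertB 1610612736 536870912 1610612736 536870912 697932185 42949674 3 eng mog cd2q3 cd1q3 pd0 false true false .npn 3 0 3
    ndB2q3 ndB1q3 pcB0 Cut.none Ext.none :=
  certB0 (fam := false) (s1 := true) (s2 := false) (a := 3) (b := 0) (c := 3) (cn := .npn) (n1 := ndB2q3) (n2 := ndB1q3) (pc := pcB0) (cut := Cut.none) (xt := Ext.none) (P1 := 1610612736) (W1 := 536870912) (P2 := 1610612736) (W2 := 536870912) (P3 := 697932185) (W3 := 42949674) (N0 := 3) (En := eng) (mo := mog) (C1 := cd2q3) (C2 := cd1q3) (C3 := pd0)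
    rfl k0_pm_303

noncomputable def f_pm_313 : ℕ → ℕ → ℕ → ℕ → Bool := onCell 1610612736 536870912 1610612736 536870912 697932185 42949674
    (rowB 3 eng mog cd2q3 cd1q3 pd1 0 false true false .dn 3 1 3 (qsf 1610612736 536870912 1610612736 536870912 1) ndB2q3 ndB1q3 pcB1 Cut.none Ext.none)

def k0_pm_313 : ∃ t, chk3 f_pm_313 t 1 1 1 = true :=
  ⟨(l 3), by decide +kernel⟩

theorem c_pm_313 : CertB 1610612736 536870912 1610612736 536870912 697932185 42949674 3 eng mog cd2q3 cd1q3 pd1 false true false .dn 3 1 3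
    ndB2q3 ndB1q3 pcB1 Cut.none Ext.none :=
  certB0 (fam := false) (s1 := true) (s2 := false) (a := 3) (b := 1) (c := 3) (cn := .dn) (n1 := ndB2q3) (n2 := ndB1q3) (pc := pcB1) (cut := Cut.none) (xt := Ext.none) (P1 := 1610612736) (W1 := 536870912) (P2 := 1610612736) (W2 := 536870912) (P3 := 697932185) (W3 := 42949674) (N0 := 3) (En := eng) (mo := mog) (C1 := cd2q3) (C2 := cd1q3) (C3 := pd1)
    rfl k0_pm_313

noncomputable def f_mm_001 : ℕ → ℕ → ℕ → ℕ → Bool := onCell 0 536870912 0 536870912 697932185 42949674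
    (rowB 3 eng mog cd2q0 cd1q1 pd0 1 false false false .up 0 0 1 (qsf 0 536870912 536870912 536870912 0) ndB2q0 ndB1q1 pcB0 Cut.none Ext.none)

def k0_mm_001 : ∃ t, chk3 f_mm_001 t 1 1 1 = true :=
  ⟨(l 3), by decide +kernel⟩

theorem c_mm_001 : CertB 0 536870912 536870912 536870912 697932185 42949674 3 eng mog cd2q0 cd1q1 pd0 false false false .up 0 0 1
    ndB2q0 ndB1q1 pcB0 Cut.none Ext.none :=
  certB1 (fam := false) (s1 := false) (s2 := false) (a := 0) (b := 0) (c := 1) (cn := .up) (n1 := ndB2q0) (n2 := ndB1q1) (pc := pcB0) (cut := Cut.none) (xt := Ext.none) (P1 := 0) (W1 := 536870912) (P2 := 536870912) (W2 := 536870912) (P3 := 697932185) (W3 := 42949674) (N0 := 3) (En := eng) (mo := mog) (C1 := cd2q0) (C2 := cd1q1) (C3 := pd0)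
    rfl (fun _ => rfl) k0_mm_001

noncomputable def f_mm_011 : ℕ → ℕ → ℕ → ℕ → Bool := onCell 0 536870912 536870912 536870912 697932185 42949674
    (rowB 3 eng mog cd2q0 cd1q1 pd1 1 false false false .pnn 0 1 1 (qsf 0 536870912 536870912 536870912 1) ndB2q0 ndB1q1 pcB1 Cut.none Ext.none)

def k0_mm_011 : ∃ t, chk3 f_mm_011 t 1 1 1 = true :=
  ⟨(l 5), by decide +kernel⟩

theorem c_mm_011 : CertB 0 536870912 536870912 536870912 697932185 42949674 3 eng mog cd2q0 cd1q1 pd1 false false false .pnn 0 1 1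
    ndB2q0 ndB1q1 pcB1 Cut.none Ext.none :=
  certB1 (fam := false) (s1 := false) (s2 := false) (a := 0) (b := 1) (c := 1) (cn := .pnn) (n1 := ndB2q0) (n2 := ndB1q1) (pc := pcB1) (cut := Cut.none) (xt := Ext.none) (P1 := 0) (W1 := 536870912) (P2 := 536870912) (W2 := 536870912) (P3 := 697932185) (W3 := 42949674) (N0 := 3) (En := eng) (mo := mog) (C1 := cd2q0) (C2 := cd1q1) (C3 := pd1)
    rfl (fun _ => rfl) k0_mm_011

noncomputable def f_mm_012_a : ℕ → ℕ → ℕ → ℕ → Bool := onCell 0 536870912 0 536870912 697932185 42949674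
    (rowB 3 eng mog cd2q0 cd1q2a pd1 0 false false false .pnp 0 1 2 (qsf 0 536870912 0 536870912 1) ndB2q0 ndB1q2a pcB1 Cut.none Ext.none)

def k0_mm_012_a : ∃ t, chk3 f_mm_012_a t 1 1 1 = true :=
  ⟨(l 5), by decide +kernel⟩

theorem c_mm_012_a : CertB 0 536870912 0 536870912 697932185 42949674 3 eng mog cd2q0 cd1q2a pd1 false false false .pnp 0 1 2
    ndB2q0 ndB1q2a pcB1 Cut.none Ext.none :=
  certB0 (fam := false) (s1 := false) (s2 := false) (a := 0) (b := 1) (c := 2) (cn := .pnp) (n1 := ndB2q0) (n2 := ndB1q2a) (pc := pcB1) (cut := Cut.none) (xt := Ext.none) (P1 := 0) (W1 := 536870912) (P2 := 0) (W2 := 536870912) (P3 := 697932185) (W3 := 42949674) (N0 := 3) (En := eng) (mo := mog) (C1 := cd2q0) (C2 := cd1q2a) (C3 := pd1)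
    rfl k0_mm_012_a

noncomputable def f_mm_012_b : ℕ → ℕ → ℕ → ℕ → Bool := onCell 0 536870912 1239849684 370763052 697932185 42949674
    (rowB 3 eng mog cd2q0 cd1q2b pd1 0 false false false .pnp 0 1 2 (qsf 0 536870912 1239849684 370763052 1) ndB2q0 ndB1q2b pcB1 Cut.none Ext.none)

def k0_mm_012_b : ∃ t, chk3 f_mm_012_b t 1 1 1 = true :=
  ⟨(l 5), by decide +kernel⟩

theorem c_mm_012_b : CertB 0 536870912 1239849684 370763052 697932185 42949674 3 eng mog cd2q0 cd1q2b pd1 false false false .pnp 0 1 2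
    ndB2q0 ndB1q2b pcB1 Cut.none Ext.none :=
  certB0 (fam := false) (s1 := false) (s2 := false) (a := 0) (b := 1) (c := 2) (cn := .pnp) (n1 := ndB2q0) (n2 := ndB1q2b) (pc := pcB1) (cut := Cut.none) (xt := Ext.none) (P1 := 0) (W1 := 536870912) (P2 := 1239849684) (W2 := 370763052) (P3 := 697932185) (W3 := 42949674) (N0 := 3) (En := eng) (mo := mog) (C1 := cd2q0) (C2 := cd1q2b) (C3 := pd1)
    rfl k0_mm_012_b

noncomputable def f_mm_022_a : ℕ → ℕ → ℕ → ℕ → Bool := onCell 0 536870912 0 536870912 697932185 42949674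
    (rowB 3 eng mog cd2q0 cd1q2a pd2 0 false false false .pp 0 2 2 (qsf 0 536870912 0 536870912 2) ndB2q0 ndB1q2a pcB2 Cut.none Ext.none)

def k0_mm_022_a : ∃ t, chk3 f_mm_022_a t 1 1 1 = true :=
  ⟨(l 5), by decide +kernel⟩

theorem c_mm_022_a : CertB 0 536870912 0 536870912 697932185 42949674 3 eng mog cd2q0 cd1q2a pd2 false false false .pp 0 2 2
    ndB2q0 ndB1q2a pcB2 Cut.none Ext.none :=
  certB0 (fam := false) (s1 := false) (s2 := false) (a := 0) (b := 2) (c := 2) (cn := .pp) (n1 := ndB2q0) (n2 := ndB1q2a) (pc := pcB2) (cut := Cut.none) (xt := Ext.none) (P1 := 0) (W1 := 536870912) (P2 := 0) (W2 := 536870912) (P3 := 697932185) (W3 := 42949674) (N0 := 3) (En := eng) (mo := mog) (C1 := cd2q0) (C2 := cd1q2a) (C3 := pd2)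
    rfl k0_mm_022_a

noncomputable def f_mm_022_b : ℕ → ℕ → ℕ → ℕ → Bool := onCell 0 536870912 1239849684 370763052 697932185 42949674
    (rowB 3 eng mog cd2q0 cd1q2b pd2 0 false false false .pp 0 2 2 (qsf 0 536870912 1239849684 370763052 2) ndB2q0 ndB1q2b pcB2 Cut.none Ext.none)

def k0_mm_022_b : ∃ t, chk3 f_mm_022_b t 1 1 1 = true :=
  ⟨(l 5), by decide +kernel⟩

theorem c_mm_022_b : CertB 0 536870912 1239849684 370763052 697932185 42949674 3 eng mog cd2q0 cd1q2b pd2 false false false .pp 0 2 2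
    ndB2q0 ndB1q2b pcB2 Cut.none Ext.none :=
  certB0 (fam := false) (s1 := false) (s2 := false) (a := 0) (b := 2) (c := 2) (cn := .pp) (n1 := ndB2q0) (n2 := ndB1q2b) (pc := pcB2) (cut := Cut.none) (xt := Ext.none) (P1 := 0) (W1 := 536870912) (P2 := 1239849684) (W2 := 370763052) (P3 := 697932185) (W3 := 42949674) (N0 := 3) (En := eng) (mo := mog) (C1 := cd2q0) (C2 := cd1q2b) (C3 := pd2)
    rfl k0_mm_022_b

noncomputable def f_mm_023 : ℕ → ℕ → ℕ → ℕ → Bool := onCell 0 536870912 1610612736 536870912 697932185 42949674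
    (rowB 3 eng mog cd2q0 cd1q3 pd2 0 false false false .up 0 2 3 (qsf 0 536870912 1610612736 536870912 2) ndB2q0 ndB1q3 pcB2 Cut.none Ext.none)

def k0_mm_023 : ∃ t, chk3 f_mm_023 t 1 1 1 = true :=
  ⟨(l 5), by decide +kernel⟩

theorem c_mm_023 : CertB 0 536870912 1610612736 536870912 697932185 42949674 3 eng mog cd2q0 cd1q3 pd2 false false false .up 0 2 3
    ndB2q0 ndB1q3 pcB2 Cut.none Ext.none :=
  certB0 (fam := false) (s1 := false) (s2 := false) (a := 0) (b := 2) (c := 3) (cn := .up) (n1 := ndB2q0) (n2 := ndB1q3) (pc := pcB2) (cut := Cut.none) (xt := Ext.none) (P1 := 0) (W1 := 536870912) (P2 := 1610612736) (W2 := 536870912) (P3 := 697932185) (W3 := 42949674) (N0 := 3) (En := eng) (mo := mog) (C1 := cd2q0) (C2 := cd1q3) (C3 := pd2)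
    rfl k0_mm_023

noncomputable def f_mm_033 : ℕ → ℕ → ℕ → ℕ → Bool := onCell 0 536870912 1610612736 536870912 697932185 42949674
    (rowB 3 eng mog cd2q0 cd1q3 pd3 0 false false false .pnn 0 3 3 (qsf 0 536870912 1610612736 536870912 3) ndB2q0 ndB1q3 pcB3 Cut.none Ext.none)

def k0_mm_033 : ∃ t, chk3 f_mm_033 t 1 1 1 = true :=
  ⟨(l 5), by decide +kernel⟩

theorem c_mm_033 : CertB 0 536870912 1610612736 536870912 697932185 42949674 3 eng mog cd2q0 cd1q3 pd3 false false false .pnn 0 3 3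
    ndB2q0 ndB1q3 pcB3 Cut.none Ext.none :=
  certB0 (fam := false) (s1 := false) (s2 := false) (a := 0) (b := 3) (c := 3) (cn := .pnn) (n1 := ndB2q0) (n2 := ndB1q3) (pc := pcB3) (cut := Cut.none) (xt := Ext.none) (P1 := 0) (W1 := 536870912) (P2 := 1610612736) (W2 := 536870912) (P3 := 697932185) (W3 := 42949674) (N0 := 3) (En := eng) (mo := mog) (C1 := cd2q0) (C2 := cd1q3) (C3 := pd3)
    rfl k0_mm_033

noncomputable def f_mm_101 : ℕ → ℕ → ℕ → ℕ → Bool := onCell 536870912 536870912 536870912 536870912 697932185 42949674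
    (rowB 3 eng mog cd2q1 cd1q1 pd0 0 false false false .npn 1 0 1 (qsf 536870912 536870912 536870912 536870912 0) ndB2q1 ndB1q1 pcB0 Cut.none Ext.none)

def k0_mm_101 : ∃ t, chk3 f_mm_101 t 1 1 1 = true :=
  ⟨(l 3), by decide +kernel⟩

theorem c_mm_101 : CertB 536870912 536870912 536870912 536870912 697932185 42949674 3 eng mog cd2q1 cd1q1 pd0 false false false .npn 1 0 1
    ndB2q1 ndB1q1 pcB0 Cut.none Ext.none :=
  certB0 (fam := false) (s1 := false) (s2 := false) (a := 1) (b := 0) (c := 1) (cn := .npn) (n1 := ndB2q1) (n2 := ndB1q1) (pc := pcB0) (cut := Cut.none) (xt := Ext.none) (P1 := 536870912) (W1 := 536870912) (P2 := 536870912) (W2 := 536870912) (P3 := 697932185) (W3 := 42949674) (N0 := 3) (En := eng) (mo := mog) (C1 := cd2q1) (C2 := cd1q1) (C3 := pd0)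
    rfl k0_mm_101

noncomputable def f_mm_102_a : ℕ → ℕ → ℕ → ℕ → Bool := onCell 536870912 536870912 0 536870912 697932185 42949674
    (rowB 3 eng mog cd2q1 cd1q2a pd0 0 false false false .npp 1 0 2 (qsf 536870912 536870912 0 536870912 0) ndB2q1 ndB1q2a pcB0 Cut.none Ext.none)

def k0_mm_102_a : ∃ t, chk3 f_mm_102_a t 1 1 1 = true :=
  ⟨(l 5), by decide +kernel⟩

theorem c_mm_102_a : CertB 536870912 536870912 0 536870912 697932185 42949674 3 eng mog cd2q1 cd1q2a pd0 false false false .npp 1 0 2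
    ndB2q1 ndB1q2a pcB0 Cut.none Ext.none :=
  certB0 (fam := false) (s1 := false) (s2 := false) (a := 1) (b := 0) (c := 2) (cn := .npp) (n1 := ndB2q1) (n2 := ndB1q2a) (pc := pcB0) (cut := Cut.none) (xt := Ext.none) (P1 := 536870912) (W1 := 536870912) (P2 := 0) (W2 := 536870912) (P3 := 697932185) (W3 := 42949674) (N0 := 3) (En := eng) (mo := mog) (C1 := cd2q1) (C2 := cd1q2a) (C3 := pd0)
    rfl k0_mm_102_a

noncomputable def f_mm_102_b : ℕ → ℕ → ℕ → ℕ → Bool := onCell 536870912 536870912 1239849684 370763052 697932185 42949674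
    (rowB 3 eng mog cd2q1 cd1q2b pd0 0 false false false .npp 1 0 2 (qsf 536870912 536870912 1239849684 370763052 0) ndB2q1 ndB1q2b pcB0 Cut.none Ext.none)

def k0_mm_102_b : ∃ t, chk3 f_mm_102_b t 1 1 1 = true :=
  ⟨(l 5), by decide +kernel⟩

theorem c_mm_102_b : CertB 536870912 536870912 1239849684 370763052 697932185 42949674 3 eng mog cd2q1 cd1q2b pd0 false false false .npp 1 0 2
    ndB2q1 ndB1q2b pcB0 Cut.none Ext.none :=
  certB0 (fam := false) (s1 := false) (s2 := false) (a := 1) (b := 0) (c := 2) (cn := .npp) (n1 := ndB2q1) (n2 := ndB1q2b) (pc := pcB0) (cut := Cut.none) (xt := Ext.none) (P1 := 536870912) (W1 := 536870912) (P2 := 1239849684) (W2 := 370763052) (P3 := 697932185) (W3 := 42949674) (N0 := 3) (En := eng) (mo := mog) (C1 := cd2q1) (C2 := cd1q2b) (C3 := pd0)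
    rfl k0_mm_102_b

noncomputable def f_mm_112_a : ℕ → ℕ → ℕ → ℕ → Bool := onCell 536870912 536870912 0 536870912 697932185 42949674
    (rowB 3 eng mog cd2q1 cd1q2a pd1 0 false false false .dn 1 1 2 (qsf 536870912 536870912 0 536870912 1) ndB2q1 ndB1q2a pcB1 Cut.none Ext.none)

def k0_mm_112_a : ∃ t, chk3 f_mm_112_a t 1 1 1 = true :=
  ⟨(l 5), by decide +kernel⟩

theorem c_mm_112_a : CertB 536870912 536870912 0 536870912 697932185 42949674 3 eng mog cd2q1 cd1q2a pd1 false false false .dn 1 1 2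
    ndB2q1 ndB1q2a pcB1 Cut.none Ext.none :=
  certB0 (fam := false) (s1 := false) (s2 := false) (a := 1) (b := 1) (c := 2) (cn := .dn) (n1 := ndB2q1) (n2 := ndB1q2a) (pc := pcB1) (cut := Cut.none) (xt := Ext.none) (P1 := 536870912) (W1 := 536870912) (P2 := 0) (W2 := 536870912) (P3 := 697932185) (W3 := 42949674) (N0 := 3) (En := eng) (mo := mog) (C1 := cd2q1) (C2 := cd1q2a) (C3 := pd1)
    rfl k0_mm_112_a

noncomputable def f_mm_112_b : ℕ → ℕ → ℕ → ℕ → Bool := onCell 536870912 536870912 1239849684 370763052 697932185 42949674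
    (rowB 3 eng mog cd2q1 cd1q2b pd1 0 false false false .dn 1 1 2 (qsf 536870912 536870912 1239849684 370763052 1) ndB2q1 ndB1q2b pcB1 Cut.none Ext.none)

def k0_mm_112_b : ∃ t, chk3 f_mm_112_b t 1 1 1 = true :=
  ⟨(l 5), by decide +kernel⟩

theorem c_mm_112_b : CertB 536870912 536870912 1239849684 370763052 697932185 42949674 3 eng mog cd2q1 cd1q2b pd1 false false false .dn 1 1 2
    ndB2q1 ndB1q2b pcB1 Cut.none Ext.none :=
  certB0 (fam := false) (s1 := false) (s2 := false) (a := 1) (b := 1) (c := 2) (cn := .dn) (n1 := ndB2q1) (n2 := ndB1q2b) (pc := pcB1) (cut := Cut.none) (xt := Ext.none) (P1 := 536870912) (W1 := 536870912) (P2 := 1239849684) (W2 := 370763052) (P3 := 697932185) (W3 := 42949674) (N0 := 3) (En := eng) (mo := mog) (C1 := cd2q1) (C2 := cd1q2b) (C3 := pd1)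
    rfl k0_mm_112_b

noncomputable def f_mm_113 : ℕ → ℕ → ℕ → ℕ → Bool := onCell 536870912 536870912 1610612736 536870912 697932185 42949674
    (rowB 3 eng mog cd2q1 cd1q3 pd1 0 false false false .nn 1 1 3 (qsf 536870912 536870912 1610612736 536870912 1) ndB2q1 ndB1q3 pcB1 Cut.none Ext.none)

def k0_mm_113 : ∃ t, chk3 f_mm_113 t 1 1 1 = true :=
  ⟨(l 5), by decide +kernel⟩

theorem c_mm_113 : CertB 536870912 536870912 1610612736 536870912 697932185 42949674 3 eng mog cd2q1 cd1q3 pd1 false false false .nn 1 1 3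
    ndB2q1 ndB1q3 pcB1 Cut.none Ext.none :=
  certB0 (fam := false) (s1 := false) (s2 := false) (a := 1) (b := 1) (c := 3) (cn := .nn) (n1 := ndB2q1) (n2 := ndB1q3) (pc := pcB1) (cut := Cut.none) (xt := Ext.none) (P1 := 536870912) (W1 := 536870912) (P2 := 1610612736) (W2 := 536870912) (P3 := 697932185) (W3 := 42949674) (N0 := 3) (En := eng) (mo := mog) (C1 := cd2q1) (C2 := cd1q3) (C3 := pd1)
    rfl k0_mm_113

noncomputable def f_mm_123 : ℕ → ℕ → ℕ → ℕ → Bool := onCell 536870912 536870912 1610612736 536870912 697932185 42949674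
    (rowB 3 eng mog cd2q1 cd1q3 pd2 0 false false false .npn 1 2 3 (qsf 536870912 536870912 1610612736 536870912 2) ndB2q1 ndB1q3 pcB2 Cut.none Ext.none)

def k0_mm_123 : ∃ t, chk3 f_mm_123 t 1 1 1 = true :=
  ⟨(l 5), by decide +kernel⟩

theorem c_mm_123 : CertB 536870912 536870912 1610612736 536870912 697932185 42949674 3 eng mog cd2q1 cd1q3 pd2 false false false .npn 1 2 3
    ndB2q1 ndB1q3 pcB2 Cut.none Ext.none :=
  certB0 (fam := false) (s1 := false) (s2 := false) (a := 1) (b := 2) (c := 3) (cn := .npn) (n1 := ndB2q1) (n2 := ndB1q3) (pc := pcB2) (cut := Cut.none) (xt := Ext.none) (P1 := 536870912) (W1 := 536870912) (P2 := 1610612736) (W2 := 536870912) (P3 := 697932185) (W3 := 42949674) (N0 := 3) (En := eng) (mo := mog) (C1 := cd2q1) (C2 := cd1q3) (C3 := pd2)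
    rfl k0_mm_123

noncomputable def f_mm_133 : ℕ → ℕ → ℕ → ℕ → Bool := onCell 536870912 536870912 1610612736 536870912 697932185 42949674
    (rowB 3 eng mog cd2q1 cd1q3 pd3 0 false false false .dn 1 3 3 (qsf 536870912 536870912 1610612736 536870912 3) ndB2q1 ndB1q3 pcB3 Cut.none Ext.none)

def k0_mm_133 : ∃ t, chk3 f_mm_133 t 1 1 1 = true :=
  ⟨(l 5), by decide +kernel⟩

theorem c_mm_133 : CertB 536870912 536870912 1610612736 536870912 697932185 42949674 3 eng mog cd2q1 cd1q3 pd3 false false false .dn 1 3 3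
    ndB2q1 ndB1q3 pcB3 Cut.none Ext.none :=
  certB0 (fam := false) (s1 := false) (s2 := false) (a := 1) (b := 3) (c := 3) (cn := .dn) (n1 := ndB2q1) (n2 := ndB1q3) (pc := pcB3) (cut := Cut.none) (xt := Ext.none) (P1 := 536870912) (W1 := 536870912) (P2 := 1610612736) (W2 := 536870912) (P3 := 697932185) (W3 := 42949674) (N0 := 3) (En := eng) (mo := mog) (C1 := cd2q1) (C2 := cd1q3) (C3 := pd3)
    rfl k0_mm_133

noncomputable def f_mm_202_aa : ℕ → ℕ → ℕ → ℕ → Bool := onCell 0 536870912 0 536870912 697932185 42949674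
    (rowB 3 eng mog cd2q2a cd1q2a pd0 0 false false false .pp 2 0 2 (qsf 0 536870912 0 536870912 0) ndB2q2a ndB1q2a pcB0 Cut.none Ext.none)

def k0_mm_202_aa : ∃ t, chk3 f_mm_202_aa t 1 1 1 = true :=
  ⟨(l 3), by decide +kernel⟩

theorem c_mm_202_aa : CertB 0 536870912 0 536870912 697932185 42949674 3 eng mog cd2q2a cd1q2a pd0 false false false .pp 2 0 2
    ndB2q2a ndB1q2a pcB0 Cut.none Ext.none :=
  certB0 (fam := false) (s1 := false) (s2 := false) (a := 2) (b := 0) (c := 2) (cn := .pp) (n1 := ndB2q2a) (n2 := ndB1q2a) (pc := pcB0) (cut := Cut.none) (xt := Ext.none) (P1 := 0) (W1 := 536870912) (P2 := 0) (W2 := 536870912) (P3 := 697932185) (W3 := 42949674) (N0 := 3) (En := eng) (mo := mog) (C1 := cd2q2a) (C2 := cd1q2a) (C3 := pd0)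
    rfl k0_mm_202_aa

noncomputable def f_mm_202_ab : ℕ → ℕ → ℕ → ℕ → Bool := onCell 0 536870912 1239849684 370763052 697932185 42949674
    (rowB 3 eng mog cd2q2a cd1q2b pd0 0 false false false .pp 2 0 2 (qsf 0 536870912 1239849684 370763052 0) ndB2q2a ndB1q2b pcB0 Cut.none Ext.none)

def k0_mm_202_ab : ∃ t, chk3 f_mm_202_ab t 1 1 1 = true :=
  ⟨(l 3), by decide +kernel⟩

theorem c_mm_202_ab : CertB 0 536870912 1239849684 370763052 697932185 42949674 3 eng mog cd2q2a cd1q2b pd0 false false false .pp 2 0 2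
    ndB2q2a ndB1q2b pcB0 Cut.none Ext.none :=
  certB0 (fam := false) (s1 := false) (s2 := false) (a := 2) (b := 0) (c := 2) (cn := .pp) (n1 := ndB2q2a) (n2 := ndB1q2b) (pc := pcB0) (cut := Cut.none) (xt := Ext.none) (P1 := 0) (W1 := 536870912) (P2 := 1239849684) (W2 := 370763052) (P3 := 697932185) (W3 := 42949674) (N0 := 3) (En := eng) (mo := mog) (C1 := cd2q2a) (C2 := cd1q2b) (C3 := pd0)
    rfl k0_mm_202_ab

noncomputable def f_mm_202_ba : ℕ → ℕ → ℕ → ℕ → Bool := onCell 1239849684 370763052 0 536870912 697932185 42949674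
    (rowB 3 eng mog cd2q2b cd1q2a pd0 0 false false false .pp 2 0 2 (qsf 1239849684 370763052 0 536870912 0) ndB2q2b ndB1q2a pcB0 Cut.none Ext.none)

def k0_mm_202_ba : ∃ t, chk3 f_mm_202_ba t 1 1 1 = true :=
  ⟨(l 3), by decide +kernel⟩

theorem c_mm_202_ba : CertB 1239849684 370763052 0 536870912 697932185 42949674 3 eng mog cd2q2b cd1q2a pd0 false false false .pp 2 0 2
    ndB2q2b ndB1q2a pcB0 Cut.none Ext.none :=
  certB0 (fam := false) (s1 := false) (s2 := false) (a := 2) (b := 0) (c := 2) (cn := .pp) (n1 := ndB2q2b) (n2 := ndB1q2a) (pc := pcB0) (cut := Cut.none) (xt := Ext.none) (P1 := 1239849684) (W1 := 370763052) (P2 := 0) (W2 := 536870912) (P3 := 697932185) (W3 := 42949674) (N0 := 3) (En := eng) (mo := mog) (C1 := cd2q2b) (C2 := cd1q2a) (C3 := pd0)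
    rfl k0_mm_202_ba

noncomputable def f_mm_202_bb : ℕ → ℕ → ℕ → ℕ → Bool := onCell 1239849684 370763052 1239849684 370763052 697932185 42949674
    (rowB 3 eng mog cd2q2b cd1q2b pd0 0 false false false .pp 2 0 2 (qsf 1239849684 370763052 1239849684 370763052 0) ndB2q2b ndB1q2b pcB0 Cut.none Ext.none)

def k0_mm_202_bb : ∃ t, chk3 f_mm_202_bb t 1 1 1 = true :=
  ⟨(l 3), by decide +kernel⟩

theorem c_mm_202_bb : CertB 1239849684 370763052 1239849684 370763052 697932185 42949674 3 eng mog cd2q2b cd1q2b pd0 false false false .pp 2 0 2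
    ndB2q2b ndB1q2b pcB0 Cut.none Ext.none :=
  certB0 (fam := false) (s1 := false) (s2 := false) (a := 2) (b := 0) (c := 2) (cn := .pp) (n1 := ndB2q2b) (n2 := ndB1q2b) (pc := pcB0) (cut := Cut.none) (xt := Ext.none) (P1 := 1239849684) (W1 := 370763052) (P2 := 1239849684) (W2 := 370763052) (P3 := 697932185) (W3 := 42949674) (N0 := 3) (En := eng) (mo := mog) (C1 := cd2q2b) (C2 := cd1q2b) (C3 := pd0)
    rfl k0_mm_202_bb

noncomputable def f_mm_203_a : ℕ → ℕ → ℕ → ℕ → Bool := onCell 0 536870912 1610612736 536870912 697932185 42949674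
    (rowB 3 eng mog cd2q2a cd1q3 pd0 0 false false false .up 2 0 3 (qsf 0 536870912 1610612736 536870912 0) ndB2q2a ndB1q3 pcB0 Cut.none Ext.none)

def k0_mm_203_a : ∃ t, chk3 f_mm_203_a t 1 1 1 = true :=
  ⟨(l 5), by decide +kernel⟩

theorem c_mm_203_a : CertB 0 536870912 1610612736 536870912 697932185 42949674 3 eng mog cd2q2a cd1q3 pd0 false false false .up 2 0 3
    ndB2q2a ndB1q3 pcB0 Cut.none Ext.none :=
  certB0 (fam := false) (s1 := false) (s2 := false) (a := 2) (b := 0) (c := 3) (cn := .up) (n1 := ndB2q2a) (n2 := ndB1q3) (pc := pcB0) (cut := Cut.none) (xt := Ext.none) (P1 := 0) (W1 := 536870912) (P2 := 1610612736) (W2 := 536870912) (P3 := 697932185) (W3 := 42949674) (N0 := 3) (En := eng) (mo := mog) (C1 := cd2q2a) (C2 := cd1q3) (C3 := pd0)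
    rfl k0_mm_203_a

noncomputable def f_mm_203_b : ℕ → ℕ → ℕ → ℕ → Bool := onCell 1239849684 370763052 1610612736 536870912 697932185 42949674
    (rowB 3 eng mog cd2q2b cd1q3 pd0 0 false false false .up 2 0 3 (qsf 1239849684 370763052 1610612736 536870912 0) ndB2q2b ndB1q3 pcB0 Cut.none Ext.none)

def k0_mm_203_b : ∃ t, chk3 f_mm_203_b t 1 1 1 = true :=
  ⟨(l 3), by decide +kernel⟩

theorem c_mm_203_b : CertB 1239849684 370763052 1610612736 536870912 697932185 42949674 3 eng mog cd2q2b cd1q3 pd0 false false false .up 2 0 3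
    ndB2q2b ndB1q3 pcB0 Cut.none Ext.none :=
  certB0 (fam := false) (s1 := false) (s2 := false) (a := 2) (b := 0) (c := 3) (cn := .up) (n1 := ndB2q2b) (n2 := ndB1q3) (pc := pcB0) (cut := Cut.none) (xt := Ext.none) (P1 := 1239849684) (W1 := 370763052) (P2 := 1610612736) (W2 := 536870912) (P3 := 697932185) (W3 := 42949674) (N0 := 3) (En := eng) (mo := mog) (C1 := cd2q2b) (C2 := cd1q3) (C3 := pd0)
    rfl k0_mm_203_b

noncomputable def f_mm_213_a : ℕ → ℕ → ℕ → ℕ → Bool := onCell 0 536870912 1610612736 536870912 697932185 42949674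
    (rowB 3 eng mog cd2q2a cd1q3 pd1 0 false false false .pnn 2 1 3 (qsf 0 536870912 1610612736 536870912 1) ndB2q2a ndB1q3 pcB1 Cut.none Ext.none)

def k0_mm_213_a : ∃ t, chk3 f_mm_213_a t 1 1 1 = true :=
  ⟨(l 5), by decide +kernel⟩

theorem c_mm_213_a : CertB 0 536870912 1610612736 536870912 697932185 42949674 3 eng mog cd2q2a cd1q3 pd1 false false false .pnn 2 1 3
    ndB2q2a ndB1q3 pcB1 Cut.none Ext.none :=
  certB0 (fam := false) (s1 := false) (s2 := false) (a := 2) (b := 1) (c := 3) (cn := .pnn) (n1 := ndB2q2a) (n2 := ndB1q3) (pc := pcB1) (cut := Cut.none) (xt := Ext.none) (P1 := 0) (W1 := 536870912) (P2 := 1610612736) (W2 := 536870912) (P3 := 697932185) (W3 := 42949674) (N0 := 3) (En := eng) (mo := mog) (C1 := cd2q2a) (C2 := cd1q3) (C3 := pd1)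
    rfl k0_mm_213_a

noncomputable def f_mm_213_b : ℕ → ℕ → ℕ → ℕ → Bool := onCell 1239849684 370763052 1610612736 536870912 697932185 42949674
    (rowB 3 eng mog cd2q2b cd1q3 pd1 0 false false false .pnn 2 1 3 (qsf 1239849684 370763052 1610612736 536870912 1) ndB2q2b ndB1q3 pcB1 Cut.none Ext.none)

def k0_mm_213_b : ∃ t, chk3 f_mm_213_b t 1 1 1 = true :=
  ⟨(l 3), by decide +kernel⟩

theorem c_mm_213_b : CertB 1239849684 370763052 1610612736 536870912 697932185 42949674 3 eng mog cd2q2b cd1q3 pd1 false false false .pnn 2 1 3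
    ndB2q2b ndB1q3 pcB1 Cut.none Ext.none :=
  certB0 (fam := false) (s1 := false) (s2 := false) (a := 2) (b := 1) (c := 3) (cn := .pnn) (n1 := ndB2q2b) (n2 := ndB1q3) (pc := pcB1) (cut := Cut.none) (xt := Ext.none) (P1 := 1239849684) (W1 := 370763052) (P2 := 1610612736) (W2 := 536870912) (P3 := 697932185) (W3 := 42949674) (N0 := 3) (En := eng) (mo := mog) (C1 := cd2q2b) (C2 := cd1q3) (C3 := pd1)
    rfl k0_mm_213_b

noncomputable def f_mm_303 : ℕ → ℕ → ℕ → ℕ → Bool := onCell 1610612736 536870912 1610612736 536870912 697932185 42949674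
    (rowB 3 eng mog cd2q3 cd1q3 pd0 0 false false false .npn 3 0 3 (qsf 1610612736 536870912 1610612736 536870912 0) ndB2q3 ndB1q3 pcB0 Cut.none Ext.none)

def k0_mm_303 : ∃ t, chk3 f_mm_303 t 1 1 1 = true :=
  ⟨(l 3), by decide +kernel⟩

theorem c_mm_303 : CertB 1610612736 536870912 1610612736 536870912 697932185 42949674 3 eng mog cd2q3 cd1q3 pd0 false false false .npn 3 0 3
    ndB2q3 ndB1q3 pcB0 Cut.none Ext.none :=
  certB0 (fam := false) (s1 := false) (s2 := false) (a := 3) (b := 0) (c := 3) (cn := .npn) (n1 := ndB2q3) (n2 := ndB1q3) (pc := pcB0) (cut := Cut.none) (xt := Ext.none) (P1 := 1610612736) (W1 := 536870912) (P2 := 1610612736) (W2 := 536870912) (P3 := 697932185) (W3 := 42949674) (N0 := 3) (En := eng) (mo := mog) (C1 := cd2q3) (C2 := cd1q3) (C3 := pd0)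
    rfl k0_mm_303

noncomputable def f_mm_313 : ℕ → ℕ → ℕ → ℕ → Bool := onCell 1610612736 536870912 1610612736 536870912 697932185 42949674
    (rowB 3 eng mog cd2q3 cd1q3 pd1 0 false false false .dn 3 1 3 (qsf 1610612736 536870912 1610612736 536870912 1) ndB2q3 ndB1q3 pcB1 Cut.none Ext.none)

def k0_mm_313 : ∃ t, chk3 f_mm_313 t 1 1 1 = true :=
  ⟨(l 3), by decide +kernel⟩

theorem c_mm_313 : CertB 1610612736 536870912 1610612736 536870912 697932185 42949674 3 eng mog cd2q3 cd1q3 pd1 false false false .dn 3 1 3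
    ndB2q3 ndB1q3 pcB1 Cut.none Ext.none :=
  certB0 (fam := false) (s1 := false) (s2 := false) (a := 3) (b := 1) (c := 3) (cn := .dn) (n1 := ndB2q3) (n2 := ndB1q3) (pc := pcB1) (cut := Cut.none) (xt := Ext.none) (P1 := 1610612736) (W1 := 536870912) (P2 := 1610612736) (W2 := 536870912) (P3 := 697932185) (W3 := 42949674) (N0 := 3) (En := eng) (mo := mog) (C1 := cd2q3) (C2 := cd1q3) (C3 := pd1)
    rfl k0_mm_313

end Pool.Agent.Strip051.G.I6500_6900.Tab.C.BB21

namespace Pool.Agent.Strip051.G.I6500_6900.Tab.C.BB22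

open Pool.Agent.Strip051.PB Pool.Agent.Strip051.PB.T
open Pool.Agent.Strip051.G.I6500_6900.Tab

noncomputable def f_pp_001 : ℕ → ℕ → ℕ → ℕ → Bool := onCell 0 536870912 536870912 536870912 697932185 42949674
    (rowB 3 eng mog cd2q0 cd2q1 pd0 0 false true true .up 0 0 1 (qsf 0 536870912 536870912 536870912 0) ndB2q0 ndB2q1 pcB0 Cut.none Ext.none)

def k0_pp_001 : ∃ t, chk3 f_pp_001 t 1 1 1 = true :=
  ⟨(l 3), by decide +kernel⟩

theorem c_pp_001 : CertB 0 536870912 536870912 536870912 697932185 42949674 3 eng mog cd2q0 cd2q1 pd0 false true true .up 0 0 1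
    ndB2q0 ndB2q1 pcB0 Cut.none Ext.none :=
  certB0 (fam := false) (s1 := true) (s2 := true) (a := 0) (b := 0) (c := 1) (cn := .up) (n1 := ndB2q0) (n2 := ndB2q1) (pc := pcB0) (cut := Cut.none) (xt := Ext.none) (P1 := 0) (W1 := 536870912) (P2 := 536870912) (W2 := 536870912) (P3 := 697932185) (W3 := 42949674) (N0 := 3) (En := eng) (mo := mog) (C1 := cd2q0) (C2 := cd2q1) (C3 := pd0)
    rfl k0_pp_001

end Pool.Agent.Strip051.G.I6500_6900.Tab.C.BB22

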