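import Pool.Agent.Strip051.G.I6500_6900.AsmH
import Pool.Agent.Strip051.PB.GlueD2I
import Pool.Agent.Strip051.PB.MolR
import Pool.Agent.Strip051.PB.Link

/-! # Rows from certificates (generated) -/

set_option linter.all false
set_option maxRecDepth 100000

namespace Pool.Agent.Strip051.G.I6500_6900.Tab

open Pool.Agent.Strip051.PB Pool.Agent.StripNear Pool.Agent.Strip051.LC


theorem okD0 : DParOk (⟨7, 3, 3, 10, 49, 25, 3, 4, 67, 200, 3, 16⟩ : DPn).r :=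
  DPn.ok (by decide) (by decide) (by decide) (by decide) (by decide)

theorem dC0 {x : ℝ} (hx : ((697932185 : ℕ) : ℝ) / S ≤ x) (hx' : x ≤ (((697932185 : ℕ) : ℝ) + (42949674 : ℕ)) / S) :
    DC2 (⟨7, 3, 3, 10, 49, 25, 3, 4, 67, 200, 3, 16⟩ : DPn).r.th (⟨7, 3, 3, 10, 49, 25, 3, 4, 67, 200, 3, 16⟩ : DPn).r.K (5567 / 10000) (⟨7, 3, 3, 10, 49, 25, 3, 4, 67, 200, 3, 16⟩ : DPn).r.A x := by
  have h : (697932185 / 1073741824 : ℝ) ≤ x := by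
    rw [S_num] at hx
    norm_num at hx ⊢
    linarith
  have h' : x ≤ (740881859 / 1073741824 : ℝ) := by
    rw [S_num] at hx'
    norm_num at hx' ⊢
    linarith
  refine DC2.intv (xa := 697932185 / 1073741824) (xb := 740881859 / 1073741824) ?_ ?_ ?_ ?_ ?_ ?_ ?_ ?_ ?_ ?_ ?_ ?_ h h' <;> norm_num [DPn.r]

theorem dN0 {x : ℝ} (hx : ((697932185 : ℕ) : ℝ) / S ≤ x) (hx' : x ≤ (((697932185 : ℕ) : ℝ) + (42949674 : ℕ)) / S) :
    DN (⟨7, 3, 3, 10, 49, 25, 3, 4, 67, 200, 3, 16⟩ : DPn).r.th (4149 / 6250 / x) (24807 / 20000) (⟨7, 3, 3, 10, 49, 25, 3, 4, 67, 200, 3, 16⟩ : DPn).r.K1 (⟨7, 3, 3, 10, 49, 25, 3, 4, 67, 200, 3, 16⟩ : DPn).r.K2 (⟨7, 3, 3, 10, 49, 25, 3, 4, 67, 200, 3, 16⟩ : DPn).r.A x := by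
  have h : (697932185 / 1073741824 : ℝ) ≤ x := by
    rw [S_num] at hx
    norm_num at hx ⊢
    linarith
  have h' : x ≤ (740881859 / 1073741824 : ℝ) := by
    rw [S_num] at hx'
    norm_num at hx' ⊢
    linarith
  refine DN.intv (M := 4149 / 6250) (xa := 697932185 / 1073741824) (xb := 740881859 / 1073741824) ?_ ?_ ?_ ?_ ?_ ?_ ?_ ?_ ?_ ?_ ?_ ?_ ?_ h h' <;> norm_num [DPn.r]

theorem thD0 : (⟨7, 3, 3, 10, 49, 25, 3, 4, 67, 200, 3, 16⟩ : DPn).r.th = 3 / 10 := by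
  norm_num [DPn.r]

theorem xdA0 {κ x : ℝ} {j k : Fin 8} {a b c : ℕ} {s1 s2 : Bool} {cn : Con} {n1 n2 : Node}
    {c1 c2 : Fn2} (hκ : κ * h0 = ken x) (hx : ((697932185 : ℕ) : ℝ) / S ≤ x) (hx' : x ≤ (((697932185 : ℕ) : ℝ) + (42949674 : ℕ)) / S) (hc : con a b c = some cn) :
    ExtEA 3 κ (eng.v x) (3 / 40) (tnt (h0 * x) (3 / 10)) PP tK tL tC pcB (scP esg pd)
      (extD2 3 (⟨7, 3, 3, 10, 49, 25, 3, 4, 67, 200, 3, 16⟩ : DPn) eng c1 c2 (pd c) true s1 s2 cn a b c hc n1 n2 (pcB c)) n1 n2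
      (Fn2.sc esg c1) (Fn2.sc esg c2) a b c j k (sgb s1) (sgb s2) x := by
  have h := extD2_EA (D := (⟨7, 3, 3, 10, 49, 25, 3, 4, 67, 200, 3, 16⟩ : DPn)) (P := PP) (RK := tK) (RL := tL) (RC := tC) (pc := pcB) (pd := pd) (En := eng)
    (ef := esg) (o := 3 / 40) (s1 := s1) (s2 := s2) (n1 := n1) (n2 := n2) (c1 := c1) (c2 := c2) (j := j) (k := k) okD0 (dC0 hx hx') (dN0 hx hx') hκ (Mol.esn_pos' (hx1 hx) (hx2 hx')) (mun_nonneg 3 x) (esg_v x) hc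
  rw [thD0] at h
  exact h

theorem xdB0 {κ x : ℝ} {j k : Fin 8} {a b c : ℕ} {s1 s2 : Bool} {cn : Con} {n1 n2 : Node}
    {c1 c2 : Fn2} (hκ : κ * h0 = ken x) (hx : ((697932185 : ℕ) : ℝ) / S ≤ x) (hx' : x ≤ (((697932185 : ℕ) : ℝ) + (42949674 : ℕ)) / S) (hc : con a b c = some cn) :
    ExtEB 3 κ (eng.v x) (3 / 40) (tnt (h0 * x) (3 / 10)) PP tK tL tC pcB (scP esg pd)
      (extD2 3 (⟨7, 3, 3, 10, 49, 25, 3, 4, 67, 200, 3, 16⟩ : DPn) eng c1 c2 (pd b) false s1 s2 cn a b c hc n1 n2 (pcB b)) n1 n2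
      (Fn2.sc esg c1) (Fn2.sc esg c2) a b c j k (sgb s1) (sgb s2) x := by
  have h := extD2_EB (D := (⟨7, 3, 3, 10, 49, 25, 3, 4, 67, 200, 3, 16⟩ : DPn)) (P := PP) (RK := tK) (RL := tL) (RC := tC) (pc := pcB) (pd := pd) (En := eng)
    (ef := esg) (o := 3 / 40) (s1 := s1) (s2 := s2) (n1 := n1) (n2 := n2) (c1 := c1) (c2 := c2) (j := j) (k := k) okD0 (dC0 hx hx') (dN0 hx hx') hκ (Mol.esn_pos' (hx1 hx) (hx2 hx')) (mun_nonneg 3 x) (esg_v x) hc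
  rw [thD0] at h
  exact h

end Pool.Agent.Strip051.G.I6500_6900.Tab
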