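import Pool.Agent.Strip051.G.I6500_6900.Fact
import Pool.Agent.Strip051.G.I6500_6900.Prf
import Pool.Agent.Strip051.PB.CornV
import Pool.Agent.Strip051.PB.FactE

/-! # Aligned corners: the germs (generated) -/

set_option linter.all false

namespace Pool.Agent.Strip051.G.I6500_6900.Tab

open Pool.Agent.Strip051.PB Pool.Agent.StripNear Pool.Agent.Strip051.LC

theorem gatB00 (x : ℝ) : gB0q0.At ((0 : ℕ) : ℝ) (((2 : ℕ) : ℝ) / 2) (c0B.v x) x := by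
  obtain ⟨h1, h2, h3, -⟩ := corB00 x
  have e : cR gB0q0.cc ((0 : ℕ) : ℝ) = 0 := by
    show ((0 : ℕ) : ℝ) = 0
    norm_num
  refine Gn.At.of e ⟨?_, ?_, ?_⟩
  · exact h1.trans (by norm_num)
  · exact h2.trans (by simp only [c0B]; norm_num)
  · exact h3

theorem datB00 (x : ℝ) : (gB0q0.c dB0q0).At ((0 : ℕ) : ℝ) (((2 : ℕ) : ℝ) / 2) 0 x := by
  obtain ⟨h1, -, -, h4⟩ := corB00 x
  have e : cR gB0q0.cc ((0 : ℕ) : ℝ) = 0 := by
    show ((0 : ℕ) : ℝ) = 0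
    norm_num
  refine Gn.At.of (G := gB0q0.c dB0q0) e ⟨?_, ?_, ?_⟩
  · exact h1.trans (by norm_num)
  · exact h4.trans (by norm_num)
  · rfl

theorem gatB01 (x : ℝ) : gB0q1.At ((1 : ℕ) : ℝ) (((1 : ℕ) : ℝ) / 2) (c0B.v x) x := by
  obtain ⟨h1, h2, h3, -⟩ := corB01 x
  have e : cR gB0q1.cc ((1 : ℕ) : ℝ) = 1 := by
    show ((1 : ℕ) : ℝ) = 1
    norm_num
  refine Gn.At.of e ⟨?_, ?_, ?_⟩
  · exact h1.trans (by norm_num)
  · exact h2.trans (by simp only [c0B]; norm_num)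
  · exact h3

theorem datB01 (x : ℝ) : (gB0q1.c dB0q1).At ((1 : ℕ) : ℝ) (((1 : ℕ) : ℝ) / 2) 0 x := by
  obtain ⟨h1, -, -, h4⟩ := corB01 x
  have e : cR gB0q1.cc ((1 : ℕ) : ℝ) = 1 := by
    show ((1 : ℕ) : ℝ) = 1
    norm_num
  refine Gn.At.of (G := gB0q1.c dB0q1) e ⟨?_, ?_, ?_⟩
  · exact h1.trans (by norm_num)
  · exact h4.trans (by norm_num)
  · rfl

theorem gatB02 (x : ℝ) : gB0q2.At ((1 : ℕ) : ℝ) (((1 : ℕ) : ℝ) / 2) (c0B.v x) x := by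
  obtain ⟨h1, h2, h3, -⟩ := corB02 x
  have e : cR gB0q2.cc ((1 : ℕ) : ℝ) = 1 / 2 := by
    show c1n ((1 : ℕ) : ℝ) = 1 / 2
    rw [Nat.cast_one]
    exact c1n_one
  refine Gn.At.of e ⟨?_, ?_, ?_⟩
  · exact h1.trans (by norm_num)
  · exact h2.trans (by simp only [c0B]; norm_num)
  · exact h3

theorem datB02 (x : ℝ) : (gB0q2.c dB0q2).At ((1 : ℕ) : ℝ) (((1 : ℕ) : ℝ) / 2) 0 x := by
  obtain ⟨h1, -, -, h4⟩ := corB02 x
  have e : cR gB0q2.cc ((1 : ℕ) : ℝ) = 1 / 2 := by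
    show c1n ((1 : ℕ) : ℝ) = 1 / 2
    rw [Nat.cast_one]
    exact c1n_one
  refine Gn.At.of (G := gB0q2.c dB0q2) e ⟨?_, ?_, ?_⟩
  · exact h1.trans (by norm_num)
  · exact h4.trans (by norm_num)
  · rfl

theorem gatB10 (x : ℝ) : gB1q0.At ((0 : ℕ) : ℝ) (((2 : ℕ) : ℝ) / 2) (c0B.v x) x := by
  obtain ⟨h1, h2, h3, -⟩ := corB10 x
  have e : cR gB1q0.cc ((0 : ℕ) : ℝ) = 0 := by
    show ((0 : ℕ) : ℝ) = 0
    norm_num
  refine Gn.At.of e ⟨?_, ?_, ?_⟩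
  · exact h1.trans (by norm_num)
  · exact h2.trans (by simp only [c0B]; norm_num)
  · exact h3

theorem datB10 (x : ℝ) : (gB1q0.c dB1q0).At ((0 : ℕ) : ℝ) (((2 : ℕ) : ℝ) / 2) 0 x := by
  obtain ⟨h1, -, -, h4⟩ := corB10 x
  have e : cR gB1q0.cc ((0 : ℕ) : ℝ) = 0 := by
    show ((0 : ℕ) : ℝ) = 0
    norm_num
  refine Gn.At.of (G := gB1q0.c dB1q0) e ⟨?_, ?_, ?_⟩
  · exact h1.trans (by norm_num)
  · exact h4.trans (by norm_num)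
  · rfl

theorem gatB12 (x : ℝ) : gB1q2.At ((1 : ℕ) : ℝ) (((1 : ℕ) : ℝ) / 2) (c0B.v x) x := by
  obtain ⟨h1, h2, h3, -⟩ := corB12 x
  have e : cR gB1q2.cc ((1 : ℕ) : ℝ) = 1 := by
    show ((1 : ℕ) : ℝ) = 1
    norm_num
  refine Gn.At.of e ⟨?_, ?_, ?_⟩
  · exact h1.trans (by norm_num)
  · exact h2.trans (by simp only [c0B]; norm_num)
  · exact h3

theorem datB12 (x : ℝ) : (gB1q2.c dB1q2).At ((1 : ℕ) : ℝ) (((1 : ℕ) : ℝ) / 2) 0 x := by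
  obtain ⟨h1, -, -, h4⟩ := corB12 x
  have e : cR gB1q2.cc ((1 : ℕ) : ℝ) = 1 := by
    show ((1 : ℕ) : ℝ) = 1
    norm_num
  refine Gn.At.of (G := gB1q2.c dB1q2) e ⟨?_, ?_, ?_⟩
  · exact h1.trans (by norm_num)
  · exact h4.trans (by norm_num)
  · rfl

theorem gatB20 (x : ℝ) : gB2q0.At ((0 : ℕ) : ℝ) (((2 : ℕ) : ℝ) / 2) (c0B.v x) x := by
  obtain ⟨h1, h2, h3, -⟩ := corB20 x
  have e : cR gB2q0.cc ((0 : ℕ) : ℝ) = 0 := by
    show ((0 : ℕ) : ℝ) = 0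
    norm_num
  refine Gn.At.of e ⟨?_, ?_, ?_⟩
  · exact h1.trans (by norm_num)
  · exact h2.trans (by simp only [c0B]; norm_num)
  · exact h3

theorem datB20 (x : ℝ) : (gB2q0.c dB2q0).At ((0 : ℕ) : ℝ) (((2 : ℕ) : ℝ) / 2) 0 x := by
  obtain ⟨h1, -, -, h4⟩ := corB20 x
  have e : cR gB2q0.cc ((0 : ℕ) : ℝ) = 0 := by
    show ((0 : ℕ) : ℝ) = 0
    norm_num
  refine Gn.At.of (G := gB2q0.c dB2q0) e ⟨?_, ?_, ?_⟩
  · exact h1.trans (by norm_num)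
  · exact h4.trans (by norm_num)
  · rfl

theorem gatB22 (x : ℝ) : gB2q2.At ((1 : ℕ) : ℝ) (((1 : ℕ) : ℝ) / 2) (c0B.v x) x := by
  obtain ⟨h1, h2, h3, -⟩ := corB22 x
  have e : cR gB2q2.cc ((1 : ℕ) : ℝ) = 1 := by
    show ((1 : ℕ) : ℝ) = 1
    norm_num
  refine Gn.At.of e ⟨?_, ?_, ?_⟩
  · exact h1.trans (by norm_num)
  · exact h2.trans (by simp only [c0B]; norm_num)
  · exact h3

theorem datB22 (x : ℝ) : (gB2q2.c dB2q2).At ((1 : ℕ) : ℝ) (((1 : ℕ) : ℝ) / 2) 0 x := by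
  obtain ⟨h1, -, -, h4⟩ := corB22 x
  have e : cR gB2q2.cc ((1 : ℕ) : ℝ) = 1 := by
    show ((1 : ℕ) : ℝ) = 1
    norm_num
  refine Gn.At.of (G := gB2q2.c dB2q2) e ⟨?_, ?_, ?_⟩
  · exact h1.trans (by norm_num)
  · exact h4.trans (by norm_num)
  · rfl

theorem gatB30 (x : ℝ) : gB3q0.At ((0 : ℕ) : ℝ) (((2 : ℕ) : ℝ) / 2) (c0B.v x) x := by
  obtain ⟨h1, h2, h3, -⟩ := corB30 x
  have e : cR gB3q0.cc ((0 : ℕ) : ℝ) = 0 := by
    show ((0 : ℕ) : ℝ) = 0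
    norm_num
  refine Gn.At.of e ⟨?_, ?_, ?_⟩
  · exact h1.trans (by norm_num)
  · exact h2.trans (by simp only [c0B]; norm_num)
  · exact h3

theorem datB30 (x : ℝ) : (gB3q0.c dB3q0).At ((0 : ℕ) : ℝ) (((2 : ℕ) : ℝ) / 2) 0 x := by
  obtain ⟨h1, -, -, h4⟩ := corB30 x
  have e : cR gB3q0.cc ((0 : ℕ) : ℝ) = 0 := by
    show ((0 : ℕ) : ℝ) = 0
    norm_num
  refine Gn.At.of (G := gB3q0.c dB3q0) e ⟨?_, ?_, ?_⟩
  · exact h1.trans (by norm_num)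
  · exact h4.trans (by norm_num)
  · rfl

theorem gatB32 (x : ℝ) : gB3q2.At ((1 : ℕ) : ℝ) (((1 : ℕ) : ℝ) / 2) (c0B.v x) x := by
  obtain ⟨h1, h2, h3, -⟩ := corB32 x
  have e : cR gB3q2.cc ((1 : ℕ) : ℝ) = 1 := by
    show ((1 : ℕ) : ℝ) = 1
    norm_num
  refine Gn.At.of e ⟨?_, ?_, ?_⟩
  · exact h1.trans (by norm_num)
  · exact h2.trans (by simp only [c0B]; norm_num)
  · exact h3

theorem datB32 (x : ℝ) : (gB3q2.c dB3q2).At ((1 : ℕ) : ℝ) (((1 : ℕ) : ℝ) / 2) 0 x := by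
  obtain ⟨h1, -, -, h4⟩ := corB32 x
  have e : cR gB3q2.cc ((1 : ℕ) : ℝ) = 1 := by
    show ((1 : ℕ) : ℝ) = 1
    norm_num
  refine Gn.At.of (G := gB3q2.c dB3q2) e ⟨?_, ?_, ?_⟩
  · exact h1.trans (by norm_num)
  · exact h4.trans (by norm_num)
  · rfl

theorem gatB40 (x : ℝ) : gB4q0.At ((0 : ℕ) : ℝ) (((2 : ℕ) : ℝ) / 2) (c0B.v x) x := by
  obtain ⟨h1, h2, h3, -⟩ := corB40 x
  have e : cR gB4q0.cc ((0 : ℕ) : ℝ) = 0 := by
    show ((0 : ℕ) : ℝ) = 0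
    norm_num
  refine Gn.At.of e ⟨?_, ?_, ?_⟩
  · exact h1.trans (by norm_num)
  · exact h2.trans (by simp only [c0B]; norm_num)
  · exact h3

theorem datB40 (x : ℝ) : (gB4q0.c dB4q0).At ((0 : ℕ) : ℝ) (((2 : ℕ) : ℝ) / 2) 0 x := by
  obtain ⟨h1, -, -, h4⟩ := corB40 x
  have e : cR gB4q0.cc ((0 : ℕ) : ℝ) = 0 := by
    show ((0 : ℕ) : ℝ) = 0
    norm_num
  refine Gn.At.of (G := gB4q0.c dB4q0) e ⟨?_, ?_, ?_⟩
  · exact h1.trans (by norm_num)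
  · exact h4.trans (by norm_num)
  · rfl

theorem gatB42 (x : ℝ) : gB4q2.At ((1 : ℕ) : ℝ) (((1 : ℕ) : ℝ) / 2) (c0B.v x) x := by
  obtain ⟨h1, h2, h3, -⟩ := corB42 x
  have e : cR gB4q2.cc ((1 : ℕ) : ℝ) = 1 := by
    show ((1 : ℕ) : ℝ) = 1
    norm_num
  refine Gn.At.of e ⟨?_, ?_, ?_⟩
  · exact h1.trans (by norm_num)
  · exact h2.trans (by simp only [c0B]; norm_num)
  · exact h3

theorem datB42 (x : ℝ) : (gB4q2.c dB4q2).At ((1 : ℕ) : ℝ) (((1 : ℕ) : ℝ) / 2) 0 x := by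
  obtain ⟨h1, -, -, h4⟩ := corB42 x
  have e : cR gB4q2.cc ((1 : ℕ) : ℝ) = 1 := by
    show ((1 : ℕ) : ℝ) = 1
    norm_num
  refine Gn.At.of (G := gB4q2.c dB4q2) e ⟨?_, ?_, ?_⟩
  · exact h1.trans (by norm_num)
  · exact h4.trans (by norm_num)
  · rfl

theorem gatB51 (x : ℝ) : gB5q1.At ((1 : ℕ) : ℝ) (((3 : ℕ) : ℝ) / 2) (c0B.v x) x := by
  obtain ⟨h1, h2, h3, -⟩ := corB51 x
  have e : cR gB5q1.cc ((1 : ℕ) : ℝ) = 1 := by
    show ((1 : ℕ) : ℝ) = 1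
    norm_num
  refine Gn.At.of e ⟨?_, ?_, ?_⟩
  · exact h1.trans (by norm_num)
  · exact h2.trans (by simp only [c0B]; norm_num)
  · exact h3

theorem datB51 (x : ℝ) : (gB5q1.c dB5q1).At ((1 : ℕ) : ℝ) (((3 : ℕ) : ℝ) / 2) 0 x := by
  obtain ⟨h1, -, -, h4⟩ := corB51 x
  have e : cR gB5q1.cc ((1 : ℕ) : ℝ) = 1 := by
    show ((1 : ℕ) : ℝ) = 1
    norm_num
  refine Gn.At.of (G := gB5q1.c dB5q1) e ⟨?_, ?_, ?_⟩
  · exact h1.trans (by norm_num)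
  · exact h4.trans (by norm_num)
  · rfl

theorem gatB61 (x : ℝ) : gB6q1.At ((1 : ℕ) : ℝ) (((3 : ℕ) : ℝ) / 2) (c0B.v x) x := by
  obtain ⟨h1, h2, h3, -⟩ := corB61 x
  have e : cR gB6q1.cc ((1 : ℕ) : ℝ) = 1 := by
    show ((1 : ℕ) : ℝ) = 1
    norm_num
  refine Gn.At.of e ⟨?_, ?_, ?_⟩
  · exact h1.trans (by norm_num)
  · exact h2.trans (by simp only [c0B]; norm_num)
  · exact h3

theorem datB61 (x : ℝ) : (gB6q1.c dB6q1).At ((1 : ℕ) : ℝ) (((3 : ℕ) : ℝ) / 2) 0 x := by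
  obtain ⟨h1, -, -, h4⟩ := corB61 x
  have e : cR gB6q1.cc ((1 : ℕ) : ℝ) = 1 := by
    show ((1 : ℕ) : ℝ) = 1
    norm_num
  refine Gn.At.of (G := gB6q1.c dB6q1) e ⟨?_, ?_, ?_⟩
  · exact h1.trans (by norm_num)
  · exact h4.trans (by norm_num)
  · rfl

theorem gatB71 (x : ℝ) : gB7q1.At ((1 : ℕ) : ℝ) (((3 : ℕ) : ℝ) / 2) (c0B.v x) x := by
  obtain ⟨h1, h2, h3, -⟩ := corB71 x
  have e : cR gB7q1.cc ((1 : ℕ) : ℝ) = 1 := by
    show ((1 : ℕ) : ℝ) = 1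
    norm_num
  refine Gn.At.of e ⟨?_, ?_, ?_⟩
  · exact h1.trans (by norm_num)
  · exact h2.trans (by simp only [c0B]; norm_num)
  · exact h3

theorem datB71 (x : ℝ) : (gB7q1.c dB7q1).At ((1 : ℕ) : ℝ) (((3 : ℕ) : ℝ) / 2) 0 x := by
  obtain ⟨h1, -, -, h4⟩ := corB71 x
  have e : cR gB7q1.cc ((1 : ℕ) : ℝ) = 1 := by
    show ((1 : ℕ) : ℝ) = 1
    norm_num
  refine Gn.At.of (G := gB7q1.c dB7q1) e ⟨?_, ?_, ?_⟩
  · exact h1.trans (by norm_num)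
  · exact h4.trans (by norm_num)
  · rfl

theorem gatB72 (x : ℝ) : gB7q2.At ((1 : ℕ) : ℝ) (((3 : ℕ) : ℝ) / 2) (c0B.v x) x := by
  obtain ⟨h1, h2, h3, -⟩ := corB72 x
  have e : cR gB7q2.cc ((1 : ℕ) : ℝ) = 1 := by
    show ((1 : ℕ) : ℝ) = 1
    norm_num
  refine Gn.At.of e ⟨?_, ?_, ?_⟩
  · exact h1.trans (by norm_num)
  · exact h2.trans (by simp only [c0B]; norm_num)
  · exact h3

theorem datB72 (x : ℝ) : (gB7q2.c dB7q2).At ((1 : ℕ) : ℝ) (((3 : ℕ) : ℝ) / 2) 0 x := by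
  obtain ⟨h1, -, -, h4⟩ := corB72 x
  have e : cR gB7q2.cc ((1 : ℕ) : ℝ) = 1 := by
    show ((1 : ℕ) : ℝ) = 1
    norm_num
  refine Gn.At.of (G := gB7q2.c dB7q2) e ⟨?_, ?_, ?_⟩
  · exact h1.trans (by norm_num)
  · exact h4.trans (by norm_num)
  · rfl

theorem gokB {x : ℝ} : GnOk PP tK tL gB x := by
  refine GnOk.of fun j q y hq ho _ => ?_
  interval_cases q <;> fin_cases j
  · exact (atB00 ho).toAt
  · exact (atB10 ho).toAt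
  · exact (atB20 ho).toAt
  · exact (atB30 ho).toAt
  · exact (atB40 ho).toAt
  · exact (atB50 ho).toAt
  · exact (atB60 ho).toAt
  · exact (atB70 ho).toAt
  · exact (atB01 ho).toAt
  · exact (atB11 ho).toAt
  · exact (atB21 ho).toAt
  · exact (atB31 ho).toAt
  · exact (atB41 ho).toAt
  · exact (atB51 ho).toAt
  · exact (atB61 ho).toAt
  · exact (atB71 ho).toAt
  · exact (atB02 ho).toAt
  · exact (atB12 ho).toAt
  · exact (atB22 ho).toAt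
  · exact (atB32 ho).toAt
  · exact (atB42 ho).toAt
  · exact (atB52 ho).toAt
  · exact (atB62 ho).toAt
  · exact (atB72 ho).toAt

theorem dv00 {y x : ℝ} (ho : OnC (0 : Fin 8) 0 y) : (gB0q0.c dB0q0).kv y x = tU (0 : Fin 8) 0 y x := by
  have h := tbF_on (fn := nc) (crd := crd) (x := x) ho
  exact h.symm
theorem dv01 {y x : ℝ} (ho : OnC (0 : Fin 8) 1 y) : (gB0q1.c dB0q1).kv y x = tU (0 : Fin 8) 1 y x := by
  have h := tbF_on (fn := nc) (crd := crd) (x := x) ho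
  exact h.symm
theorem dv02 {y x : ℝ} (ho : OnC (0 : Fin 8) 2 y) : (gB0q2.c dB0q2).kv y x = tU (0 : Fin 8) 2 y x := by
  have h := tbF_on (fn := nc) (crd := crd) (x := x) ho
  exact h.symm
theorem dv10 {y x : ℝ} (ho : OnC (1 : Fin 8) 0 y) : (gB1q0.c dB1q0).kv y x = tU (1 : Fin 8) 0 y x := by
  have h := tbF_on (fn := nc) (crd := crd) (x := x) ho
  exact h.symm
theorem dv11 {y x : ℝ} (ho : OnC (1 : Fin 8) 1 y) : (gB1q1.c dB1q1).kv y x = tU (1 : Fin 8) 1 y x := by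
  have h := tbF_on (fn := nc) (crd := crd) (x := x) ho
  exact h.symm
theorem dv12 {y x : ℝ} (ho : OnC (1 : Fin 8) 2 y) : (gB1q2.c dB1q2).kv y x = tU (1 : Fin 8) 2 y x := by
  have h := tbF_on (fn := nc) (crd := crd) (x := x) ho
  exact h.symm
theorem dv20 {y x : ℝ} (ho : OnC (2 : Fin 8) 0 y) : (gB2q0.c dB2q0).kv y x = tU (2 : Fin 8) 0 y x := by
  have h := tbF_on (fn := nc) (crd := crd) (x := x) ho
  exact h.symm
theorem dv21 {y x : ℝ} (ho : OnC (2 : Fin 8) 1 y) : (gB2q1.c dB2q1).kv y x = tU (2 : Fin 8) 1 y x := by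
  have h := tbF_on (fn := nc) (crd := crd) (x := x) ho
  exact h.symm
theorem dv22 {y x : ℝ} (ho : OnC (2 : Fin 8) 2 y) : (gB2q2.c dB2q2).kv y x = tU (2 : Fin 8) 2 y x := by
  have h := tbF_on (fn := nc) (crd := crd) (x := x) ho
  exact h.symm
theorem dv30 {y x : ℝ} (ho : OnC (3 : Fin 8) 0 y) : (gB3q0.c dB3q0).kv y x = tU (3 : Fin 8) 0 y x := by
  have h := tbF_on (fn := nc) (crd := crd) (x := x) ho
  exact h.symm
theorem dv31 {y x : ℝ} (ho : OnC (3 : Fin 8) 1 y) : (gB3q1.c dB3q1).kv y x = tU (3 : Fin 8) 1 y x := by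
  have h := tbF_on (fn := nc) (crd := crd) (x := x) ho
  exact h.symm
theorem dv32 {y x : ℝ} (ho : OnC (3 : Fin 8) 2 y) : (gB3q2.c dB3q2).kv y x = tU (3 : Fin 8) 2 y x := by
  have h := tbF_on (fn := nc) (crd := crd) (x := x) ho
  exact h.symm
theorem dv40 {y x : ℝ} (ho : OnC (4 : Fin 8) 0 y) : (gB4q0.c dB4q0).kv y x = tU (4 : Fin 8) 0 y x := by
  have h := tbF_on (fn := nc) (crd := crd) (x := x) ho
  exact h.symm
theorem dv41 {y x : ℝ} (ho : OnC (4 : Fin 8) 1 y) : (gB4q1.c dB4q1).kv y x = tU (4 : Fin 8) 1 y x := by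
  have h := tbF_on (fn := nc) (crd := crd) (x := x) ho
  exact h.symm
theorem dv42 {y x : ℝ} (ho : OnC (4 : Fin 8) 2 y) : (gB4q2.c dB4q2).kv y x = tU (4 : Fin 8) 2 y x := by
  have h := tbF_on (fn := nc) (crd := crd) (x := x) ho
  exact h.symm
theorem dv50 {y x : ℝ} (ho : OnC (5 : Fin 8) 0 y) : (gB5q0.c dB5q0).kv y x = tU (5 : Fin 8) 0 y x := by
  have h := tbF_on (fn := nc) (crd := crd) (x := x) ho
  exact h.symm
theorem dv51 {y x : ℝ} (ho : OnC (5 : Fin 8) 1 y) : (gB5q1.c dB5q1).kv y x = tU (5 : Fin 8) 1 y x := by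
  have h := tbF_on (fn := nc) (crd := crd) (x := x) ho
  exact h.symm
theorem dv52 {y x : ℝ} (ho : OnC (5 : Fin 8) 2 y) : (gB5q2.c dB5q2).kv y x = tU (5 : Fin 8) 2 y x := by
  have h := tbF_on (fn := nc) (crd := crd) (x := x) ho
  exact h.symm
theorem dv60 {y x : ℝ} (ho : OnC (6 : Fin 8) 0 y) : (gB6q0.c dB6q0).kv y x = tU (6 : Fin 8) 0 y x := by
  have h := tbF_on (fn := nc) (crd := crd) (x := x) ho
  exact h.symm
theorem dv61 {y x : ℝ} (ho : OnC (6 : Fin 8) 1 y) : (gB6q1.c dB6q1).kv y x = tU (6 : Fin 8) 1 y x := by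
  have h := tbF_on (fn := nc) (crd := crd) (x := x) ho
  exact h.symm
theorem dv62 {y x : ℝ} (ho : OnC (6 : Fin 8) 2 y) : (gB6q2.c dB6q2).kv y x = tU (6 : Fin 8) 2 y x := by
  have h := tbF_on (fn := nc) (crd := crd) (x := x) ho
  exact h.symm
theorem dv70 {y x : ℝ} (ho : OnC (7 : Fin 8) 0 y) : (gB7q0.c dB7q0).kv y x = tU (7 : Fin 8) 0 y x := by
  have h := tbF_on (fn := nc) (crd := crd) (x := x) ho
  exact h.symm
theorem dv71 {y x : ℝ} (ho : OnC (7 : Fin 8) 1 y) : (gB7q1.c dB7q1).kv y x = tU (7 : Fin 8) 1 y x := by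
  have h := tbF_on (fn := nc) (crd := crd) (x := x) ho
  exact h.symm
theorem dv72 {y x : ℝ} (ho : OnC (7 : Fin 8) 2 y) : (gB7q2.c dB7q2).kv y x = tU (7 : Fin 8) 2 y x := by
  have h := tbF_on (fn := nc) (crd := crd) (x := x) ho
  exact h.symm
theorem dokB {x : ℝ} : GcOk tU gB dB x := by
  refine ⟨fun {j q y} hq ho _ => ?_⟩
  interval_cases q <;> fin_cases j
  · exact dv00 ho
  · exact dv10 ho
  · exact dv20 ho
  · exact dv30 ho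
  · exact dv40 ho
  · exact dv50 ho
  · exact dv60 ho
  · exact dv70 ho
  · exact dv01 ho
  · exact dv11 ho
  · exact dv21 ho
  · exact dv31 ho
  · exact dv41 ho
  · exact dv51 ho
  · exact dv61 ho
  · exact dv71 ho
  · exact dv02 ho
  · exact dv12 ho
  · exact dv22 ho
  · exact dv32 ho
  · exact dv42 ho
  · exact dv52 ho
  · exact dv62 ho
  · exact dv72 ho

theorem tC_eq (j : Fin 8) (q : ℕ) (y x : ℝ) : tC j q y x = esg.v x * tU j q y x := tbF_sc j q y x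

end Pool.Agent.Strip051.G.I6500_6900.Tab
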