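import Pool.Agent.Strip051.G.I6500_6900.Fact
import Pool.Agent.Strip051.G.I6500_6900.CrnB
import Pool.Agent.Strip051.PB.PairB

/-! # The corner (1, 1, 2), both vertices: the germs (generated) -/

set_option linter.all false

namespace Pool.Agent.Strip051.G.I6500_6900.Tab

open Pool.Agent.Strip051.PB Pool.Agent.StripNear Pool.Agent.Strip051.LC

theorem gatB03 {x : ℝ} (hx : ((697932185 : ℕ) : ℝ) / S ≤ x) (hx' : x ≤ (((697932185 : ℕ) : ℝ) + (42949674 : ℕ)) / S) (l : Bool) : gB0q3.At3 l (c0B.v x) x := gz_at3 l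
theorem datB03 {x : ℝ} (hx : ((697932185 : ℕ) : ℝ) / S ≤ x) (hx' : x ≤ (((697932185 : ℕ) : ℝ) + (42949674 : ℕ)) / S) (l : Bool) : (gB0q3.c dB0q3).At3 l 0 x := ⟨rfl, by
  show (0 : ℝ) = 0 * 0
  ring, rfl⟩
theorem dvt1 {y x : ℝ} (ho : OnC (1 : Fin 8) 3 y) : (gB1q3.c dB1q3).kv (c3r true y) x = tU (1 : Fin 8) 3 y x := by
  have h := tbF_on (fn := nc) (crd := crd) (x := x) ho
  exact h.symm
theorem gatB13 {x : ℝ} (hx : ((697932185 : ℕ) : ℝ) / S ≤ x) (hx' : x ≤ (((697932185 : ℕ) : ℝ) + (42949674 : ℕ)) / S) : gB1q3.At3 true (c0B.v x) x :=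
  at3_of rfl (atB13 ⟨InQ.two, fun h => absurd h (by decide)⟩).toAt ((sideB hx hx').pinK.top 1) ((sideB hx hx').pinL.top 1)
theorem datB13 {x : ℝ} (hx : ((697932185 : ℕ) : ℝ) / S ≤ x) (hx' : x ≤ (((697932185 : ℕ) : ℝ) + (42949674 : ℕ)) / S) : (gB1q3.c dB1q3).At3 true 0 x :=
  at3c_of rfl (atB13 (x := x) ⟨InQ.two, fun h => absurd h (by decide)⟩).toAt.X (dvt1 ⟨InQ.two, fun h => absurd h (by decide)⟩) ((pinU hx hx').top 1)
theorem dvt2 {y x : ℝ} (ho : OnC (2 : Fin 8) 3 y) : (gB2q3.c dB2q3).kv (c3r true y) x = tU (2 : Fin 8) 3 y x := by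
  have h := tbF_on (fn := nc) (crd := crd) (x := x) ho
  exact h.symm
theorem gatB23 {x : ℝ} (hx : ((697932185 : ℕ) : ℝ) / S ≤ x) (hx' : x ≤ (((697932185 : ℕ) : ℝ) + (42949674 : ℕ)) / S) : gB2q3.At3 true (c0B.v x) x :=
  at3_of rfl (atB23 ⟨InQ.two, fun h => absurd h (by decide)⟩).toAt ((sideB hx hx').pinK.top 2) ((sideB hx hx').pinL.top 2)
theorem datB23 {x : ℝ} (hx : ((697932185 : ℕ) : ℝ) / S ≤ x) (hx' : x ≤ (((697932185 : ℕ) : ℝ) + (42949674 : ℕ)) / S) : (gB2q3.c dB2q3).At3 true 0 x :=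
  at3c_of rfl (atB23 (x := x) ⟨InQ.two, fun h => absurd h (by decide)⟩).toAt.X (dvt2 ⟨InQ.two, fun h => absurd h (by decide)⟩) ((pinU hx hx').top 2)
theorem dvt3 {y x : ℝ} (ho : OnC (3 : Fin 8) 3 y) : (gB3q3.c dB3q3).kv (c3r true y) x = tU (3 : Fin 8) 3 y x := by
  have h := tbF_on (fn := nc) (crd := crd) (x := x) ho
  exact h.symm
theorem gatB33 {x : ℝ} (hx : ((697932185 : ℕ) : ℝ) / S ≤ x) (hx' : x ≤ (((697932185 : ℕ) : ℝ) + (42949674 : ℕ)) / S) : gB3q3.At3 true (c0B.v x) x :=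
  at3_of rfl (atB33 ⟨InQ.two, fun h => absurd h (by decide)⟩).toAt ((sideB hx hx').pinK.top 3) ((sideB hx hx').pinL.top 3)
theorem datB33 {x : ℝ} (hx : ((697932185 : ℕ) : ℝ) / S ≤ x) (hx' : x ≤ (((697932185 : ℕ) : ℝ) + (42949674 : ℕ)) / S) : (gB3q3.c dB3q3).At3 true 0 x :=
  at3c_of rfl (atB33 (x := x) ⟨InQ.two, fun h => absurd h (by decide)⟩).toAt.X (dvt3 ⟨InQ.two, fun h => absurd h (by decide)⟩) ((pinU hx hx').top 3)
theorem dvt4 {y x : ℝ} (ho : OnC (4 : Fin 8) 3 y) : (gB4q3.c dB4q3).kv (c3r true y) x = tU (4 : Fin 8) 3 y x := by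
  have h := tbF_on (fn := nc) (crd := crd) (x := x) ho
  exact h.symm
theorem gatB43 {x : ℝ} (hx : ((697932185 : ℕ) : ℝ) / S ≤ x) (hx' : x ≤ (((697932185 : ℕ) : ℝ) + (42949674 : ℕ)) / S) : gB4q3.At3 true (c0B.v x) x :=
  at3_of rfl (atB43 ⟨InQ.two, fun h => absurd h (by decide)⟩).toAt ((sideB hx hx').pinK.top 4) ((sideB hx hx').pinL.top 4)
theorem datB43 {x : ℝ} (hx : ((697932185 : ℕ) : ℝ) / S ≤ x) (hx' : x ≤ (((697932185 : ℕ) : ℝ) + (42949674 : ℕ)) / S) : (gB4q3.c dB4q3).At3 true 0 x :=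
  at3c_of rfl (atB43 (x := x) ⟨InQ.two, fun h => absurd h (by decide)⟩).toAt.X (dvt4 ⟨InQ.two, fun h => absurd h (by decide)⟩) ((pinU hx hx').top 4)
theorem dvt5 {y x : ℝ} (ho : OnC (5 : Fin 8) 3 y) : (gB5q3.c dB5q3).kv (c3r false y) x = tU (5 : Fin 8) 3 y x := by
  have h := tbF_on (fn := nc) (crd := crd) (x := x) ho
  exact h.symm
theorem gatB53 {x : ℝ} (hx : ((697932185 : ℕ) : ℝ) / S ≤ x) (hx' : x ≤ (((697932185 : ℕ) : ℝ) + (42949674 : ℕ)) / S) : gB5q3.At3 false (c0B.v x) x :=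
  at3_of rfl (atB53 ⟨InQ.two, fun h => absurd h (by decide)⟩).toAt ((sideB hx hx').pinK.top 5) ((sideB hx hx').pinL.top 5)
theorem datB53 {x : ℝ} (hx : ((697932185 : ℕ) : ℝ) / S ≤ x) (hx' : x ≤ (((697932185 : ℕ) : ℝ) + (42949674 : ℕ)) / S) : (gB5q3.c dB5q3).At3 false 0 x :=
  at3c_of rfl (atB53 (x := x) ⟨InQ.two, fun h => absurd h (by decide)⟩).toAt.X (dvt5 ⟨InQ.two, fun h => absurd h (by decide)⟩) ((pinU hx hx').top 5)
theorem dvt6 {y x : ℝ} (ho : OnC (6 : Fin 8) 3 y) : (gB6q3.c dB6q3).kv (c3r false y) x = tU (6 : Fin 8) 3 y x := by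
  have h := tbF_on (fn := nc) (crd := crd) (x := x) ho
  exact h.symm
theorem gatB63 {x : ℝ} (hx : ((697932185 : ℕ) : ℝ) / S ≤ x) (hx' : x ≤ (((697932185 : ℕ) : ℝ) + (42949674 : ℕ)) / S) : gB6q3.At3 false (c0B.v x) x :=
  at3_of rfl (atB63 ⟨InQ.two, fun h => absurd h (by decide)⟩).toAt ((sideB hx hx').pinK.top 6) ((sideB hx hx').pinL.top 6)
theorem datB63 {x : ℝ} (hx : ((697932185 : ℕ) : ℝ) / S ≤ x) (hx' : x ≤ (((697932185 : ℕ) : ℝ) + (42949674 : ℕ)) / S) : (gB6q3.c dB6q3).At3 false 0 x :=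
  at3c_of rfl (atB63 (x := x) ⟨InQ.two, fun h => absurd h (by decide)⟩).toAt.X (dvt6 ⟨InQ.two, fun h => absurd h (by decide)⟩) ((pinU hx hx').top 6)
theorem dvt7 {y x : ℝ} (ho : OnC (7 : Fin 8) 3 y) : (gB7q3.c dB7q3).kv (c3r false y) x = tU (7 : Fin 8) 3 y x := by
  have h := tbF_on (fn := nc) (crd := crd) (x := x) ho
  exact h.symm
theorem gatB73 {x : ℝ} (hx : ((697932185 : ℕ) : ℝ) / S ≤ x) (hx' : x ≤ (((697932185 : ℕ) : ℝ) + (42949674 : ℕ)) / S) : gB7q3.At3 false (c0B.v x) x :=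
  at3_of rfl (atB73 ⟨InQ.two, fun h => absurd h (by decide)⟩).toAt ((sideB hx hx').pinK.top 7) ((sideB hx hx').pinL.top 7)
theorem datB73 {x : ℝ} (hx : ((697932185 : ℕ) : ℝ) / S ≤ x) (hx' : x ≤ (((697932185 : ℕ) : ℝ) + (42949674 : ℕ)) / S) : (gB7q3.c dB7q3).At3 false 0 x :=
  at3c_of rfl (atB73 (x := x) ⟨InQ.two, fun h => absurd h (by decide)⟩).toAt.X (dvt7 ⟨InQ.two, fun h => absurd h (by decide)⟩) ((pinU hx hx').top 7)
theorem g3okB {x : ℝ} (hx : ((697932185 : ℕ) : ℝ) / S ≤ x) (hx' : x ≤ (((697932185 : ℕ) : ℝ) + (42949674 : ℕ)) / S) : Gn3 PP tK tL gB 4 x := by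
  refine Gn3.of (sideB hx hx').pinK (sideB hx hx').pinL (fun j => by fin_cases j <;> rfl) rfl (fun j y hj ho => ?_)
  fin_cases j
  · exact absurd rfl hj
  · exact (atB13 ho).toAt
  · exact (atB23 ho).toAt
  · exact (atB33 ho).toAt
  · exact (atB43 ho).toAt
  · exact (atB53 ho).toAt
  · exact (atB63 ho).toAt
  · exact (atB73 ho).toAt

theorem g3cB {x : ℝ} (hx : ((697932185 : ℕ) : ℝ) / S ≤ x) (hx' : x ≤ (((697932185 : ℕ) : ℝ) + (42949674 : ℕ)) / S) : Gc3 tU gB dB 4 x := by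
  refine Gc3.of (pinU hx hx') (fun y => rfl) (fun j y hj ho => ?_)
  fin_cases j
  · exact absurd rfl hj
  · exact dvt1 ho
  · exact dvt2 ho
  · exact dvt3 ho
  · exact dvt4 ho
  · exact dvt5 ho
  · exact dvt6 ho
  · exact dvt7 ho

theorem xr0 {x : ℝ} (hx : ((697932185 : ℕ) : ℝ) / S ≤ x) (hx' : x ≤ (((697932185 : ℕ) : ℝ) + (42949674 : ℕ)) / S) : 0 < x ∧ x < 1 := by
  have X : XR 1048576 x := XR.of hx hx' (by norm_num) (by norm_num) (by norm_num) (by norm_num)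
  exact ⟨X.x0, by linarith [X.b, X.p0]⟩

theorem thdB {x : ℝ} (hx : ((697932185 : ℕ) : ℝ) / S ≤ x) (hx' : x ≤ (((697932185 : ℕ) : ℝ) + (42949674 : ℕ)) / S) : ThrD PP tC tU pd esg 3 (mog.v x) (3 / 40) x :=
  ⟨thU (pinU hx hx'), fun j q y => tC_eq j q y x, (esg_rng (xr0 hx hx').1.le (xr0 hx hx').2.le).1, mo_v x⟩

/-- the statement at both vertices, family A -/
noncomputable abbrev VeA (κ x : ℝ) (a b : ℕ) (j k : Fin 8) : ℝ → ℝ → ℝ → ℝ → ℝ × ℝ × ℝ → ℝ × ℝ × ℝ → Prop :=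
  VEA 3 κ (eng.v x) (3 / 40) (tnt (h0 * x) (3 / 10)) PP tK tL tC pcB (scP esg pd) a b j k

/-- the statement at both vertices, family B -/
noncomputable abbrev VeB (κ x : ℝ) (a b : ℕ) (j k : Fin 8) (sn : Bool) : ℝ → ℝ → ℝ → ℝ → ℝ × ℝ × ℝ → ℝ × ℝ × ℝ → Prop :=
  VEB 3 κ (eng.v x) (3 / 40) (tnt (h0 * x) (3 / 10)) PP tK tL tC pcB (scP esg pd) a b j k sn


end Pool.Agent.Strip051.G.I6500_6900.Tab
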