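import Pool.Agent.Strip051.PB.DgE
import Pool.Agent.Strip051.PB.DgJ
import Pool.Agent.Strip051.G.I6500_6900.Fact

/-! # The corner (1, 1, 2): parameters of the degenerate charts (generated) -/

set_option linter.all false

namespace Pool.Agent.Strip051.G.I6500_6900.Tab.DG

open Pool.Agent.Strip051.PB Pool.Agent.Strip051.PB.Dg Pool.Agent.StripNear Pool.Agent.Strip051.LC

noncomputable def pFma : Fn1 := ⟨_, _, fun h1 => (enc_norm (enc_add (enc_scale 36884641 15000000 (enc_subr 67 100 h1)) (enc_rat _ 4960559 60000000)))⟩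
noncomputable def pFmb : Fn1 := ⟨_, _, fun h1 => (enc_norm (enc_subr 1212983 5000000 (enc_neg (enc_scale 889923 500000 (enc_subr 67 100 h1)))))⟩
noncomputable def pFmu : Fn1 := ⟨_, _, fun h1 => (mug3.enc h1)⟩
noncomputable def pFnx : Fn1 := ⟨_, _, fun h1 => (enc_norm (enc_add h1 (enc_pnc _ 3)))⟩
noncomputable def pFc0 : Fn1 := ⟨_, _, fun h1 => (enc_pnc _ 1)⟩
noncomputable def pFkc : Fn1 := ⟨_, _, fun h1 => (enc_norm (enc_add (enc_scale 2245299 10000000 (enc_subr 67 100 h1)) (enc_rat _ 6481839 25000000)))⟩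
noncomputable def pFjc : Fn1 := ⟨_, _, fun h1 => (enc_norm (enc_subr 75253629 20000000 (enc_scale 440711 40000 (enc_subr 67 100 h1))))⟩
noncomputable def pFca : Fn1 := ⟨_, _, fun h1 => (enc_norm (enc_sub (enc_rat _ 279629 200000) (enc_scale 817299 50000 (enc_subr 67 100 h1))))⟩
noncomputable def pFcb : Fn1 := ⟨_, _, fun h1 => (enc_norm (enc_subr 419427 250000 (enc_scale 393357 25000 (enc_subr 67 100 h1))))⟩
noncomputable def pFcc : Fn1 := ⟨_, _, fun h1 => (enc_norm (enc_sub (enc_rat _ 50798693 1000000) (enc_scale 5508983 50000 (enc_subr 67 100 h1))))⟩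
noncomputable def pFsv : Fn1 := ⟨_, _, fun h1 => (enc_norm (enc_subr 1 16 h1))⟩
noncomputable def pFx11 : Fn1 := ⟨_, _, fun h1 => (cv1m.enc h1)⟩
noncomputable def pFx01 : Fn1 := ⟨_, _, fun h1 => (c1g.enc h1)⟩
noncomputable def pFK11 : Fn2 := ⟨_, _, fun h1 h2 => (kf1q1.enc h1 h2)⟩
noncomputable def pFK01 : Fn2 := ⟨_, _, fun h1 h2 => (kf0q1.enc h1 h2)⟩
noncomputable def pFL11 : Fn2 := ⟨_, _, fun h1 h2 => (l1q1.enc h1 h2)⟩
noncomputable def pFL01 : Fn2 := ⟨_, _, fun h1 h2 => (l0q1.enc h1 h2)⟩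
noncomputable def kFc0 : Fn1 := ⟨_, _, fun h1 => (enc_norm (enc_add (enc_scale 3 2000000 (enc_subr 67 100 h1)) (enc_rat _ 1 5000000)))⟩
noncomputable def kFc0g : Fn1 := ⟨_, _, fun h1 => (enc_norm (enc_subr 23607579 500000 (enc_scale 2203701 20000 (enc_subr 67 100 h1))))⟩
noncomputable def kFc1 : Fn1 := ⟨_, _, fun h1 => (enc_norm (enc_neg (enc_scale 3 2000000 (enc_subr 67 100 h1))))⟩
noncomputable def kFc1g : Fn1 := ⟨_, _, fun h1 => (enc_norm (enc_sub (enc_rat _ 11035743 500000) (enc_scale 147 20000 (enc_subr 67 100 h1))))⟩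
noncomputable def kFa0 : Fn1 := ⟨_, _, fun h1 => (enc_norm (enc_sub (enc_rat _ 23 150000000) (enc_scale 33 10000000 (enc_subr 67 100 h1))))⟩
noncomputable def kFa0g : Fn1 := ⟨_, _, fun h1 => (enc_norm (enc_subr 119273 125000 (enc_scale 473007 100000 (enc_subr 67 100 h1))))⟩
noncomputable def kFa1 : Fn1 := ⟨_, _, fun h1 => (enc_norm (enc_add (enc_scale 19 7500000 (enc_subr 67 100 h1)) (enc_rat _ 37 300000000)))⟩
noncomputable def kFa1g : Fn1 := ⟨_, _, fun h1 => (enc_norm (enc_subr 995791 250000 (enc_scale 274601 20000 (enc_subr 67 100 h1))))⟩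
noncomputable def kFa2 : Fn1 := ⟨_, _, fun h1 => (enc_norm (enc_subr 1 2500000 (enc_scale 9 10000000 (enc_subr 67 100 h1))))⟩
noncomputable def kFa2g : Fn1 := ⟨_, _, fun h1 => (enc_norm (enc_sub (enc_rat _ 2146633 500000) (enc_scale 1168799 100000 (enc_subr 67 100 h1))))⟩
noncomputable def kFb0 : Fn1 := ⟨_, _, fun h1 => (enc_norm (enc_subr 3 20000000 (enc_neg (enc_scale 1 400000 (enc_subr 67 100 h1)))))⟩
noncomputable def kFb0g : Fn1 := ⟨_, _, fun h1 => (enc_norm (enc_sub (enc_rat _ 501543 200000) (enc_scale 1858067 100000 (enc_subr 67 100 h1))))⟩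
noncomputable def kFb1 : Fn1 := ⟨_, _, fun h1 => (enc_norm (enc_scale 1 2000000 (enc_subr 67 100 h1)))⟩
noncomputable def kFb1g : Fn1 := ⟨_, _, fun h1 => (enc_norm (enc_subr 879341 500000 (enc_scale 236121 20000 (enc_subr 67 100 h1))))⟩
noncomputable def kFd0 : Fn1 := ⟨_, _, fun h1 => (enc_norm (enc_sub (enc_rat _ 23 150000000) (enc_scale 33 10000000 (enc_subr 67 100 h1))))⟩
noncomputable def kFd0g : Fn1 := ⟨_, _, fun h1 => (enc_norm (enc_subr 119273 125000 (enc_scale 473007 100000 (enc_subr 67 100 h1))))⟩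
noncomputable def kFd1 : Fn1 := ⟨_, _, fun h1 => (enc_norm (enc_subr 3 10000000 (enc_neg (enc_scale 1 200000 (enc_subr 67 100 h1)))))⟩
noncomputable def kFd1g : Fn1 := ⟨_, _, fun h1 => (enc_norm (enc_sub (enc_rat _ 501543 100000) (enc_scale 1858067 50000 (enc_subr 67 100 h1))))⟩
noncomputable def kFd2 : Fn1 := ⟨_, _, fun h1 => (enc_norm (enc_add (enc_scale 19 7500000 (enc_subr 67 100 h1)) (enc_rat _ 37 300000000)))⟩
noncomputable def kFd2g : Fn1 := ⟨_, _, fun h1 => (enc_norm (enc_subr 995791 250000 (enc_scale 274601 20000 (enc_subr 67 100 h1))))⟩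
noncomputable def kFd3 : Fn1 := ⟨_, _, fun h1 => (enc_norm (enc_subr 1 2500000 (enc_scale 19 10000000 (enc_subr 67 100 h1))))⟩
noncomputable def kFd3g : Fn1 := ⟨_, _, fun h1 => (enc_norm (enc_add (enc_scale 1192411 100000 (enc_subr 67 100 h1)) (enc_rat _ 387951 500000)))⟩
noncomputable def kFe0 : Fn1 := ⟨_, _, fun h1 => (enc_norm (enc_sub (enc_rat _ 23 150000000) (enc_scale 33 10000000 (enc_subr 67 100 h1))))⟩
noncomputable def kFe0g : Fn1 := ⟨_, _, fun h1 => (enc_norm (enc_subr 119273 125000 (enc_scale 473007 100000 (enc_subr 67 100 h1))))⟩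
noncomputable def kFe1 : Fn1 := ⟨_, _, fun h1 => (enc_norm (enc_subr 3 20000000 (enc_neg (enc_scale 1 400000 (enc_subr 67 100 h1)))))⟩
noncomputable def kFe1g : Fn1 := ⟨_, _, fun h1 => (enc_norm (enc_sub (enc_rat _ 501543 200000) (enc_scale 1858067 100000 (enc_subr 67 100 h1))))⟩
noncomputable def kFe2 : Fn1 := ⟨_, _, fun h1 => (enc_norm (enc_add (enc_scale 19 7500000 (enc_subr 67 100 h1)) (enc_rat _ 37 300000000)))⟩
noncomputable def kFe2g : Fn1 := ⟨_, _, fun h1 => (enc_norm (enc_subr 995791 250000 (enc_scale 274601 20000 (enc_subr 67 100 h1))))⟩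
noncomputable def kFe3 : Fn1 := ⟨_, _, fun h1 => (enc_norm (enc_subr 1 2500000 (enc_scale 7 5000000 (enc_subr 67 100 h1))))⟩
noncomputable def kFe3g : Fn1 := ⟨_, _, fun h1 => (enc_norm (enc_add (enc_scale 5903 50000 (enc_subr 67 100 h1)) (enc_rat _ 316823 125000)))⟩
noncomputable def cFxs1 : Fn1 := ⟨_, _, fun h1 => (enc_norm (enc_add (enc_scale 9 10 (dgxi.enc h1)) (enc_scale 1 10 (dgws.enc h1))))⟩
noncomputable def cFsB1_3 : Fn2 := ⟨_, _, fun h1 h2 => (enc_mul h1 (dgxi.enc h1))⟩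
noncomputable def cFsB1_9 : Fn2 := ⟨_, _, fun h1 h2 => (enc_subr 67 100 h2)⟩
noncomputable def cFsB1_22 : Fn2 := ⟨_, _, fun h1 h2 => (enc_inv h1)⟩
noncomputable def cFsB1 : Fn2 := ⟨_, _, fun h1 h2 => (enc_norm (enc_case (enc_sub (enc_rat _ 1 20) (cFsB1_3.enc h1 h2)) (enc_case (enc_sub (enc_rat _ 1 10) (cFsB1_3.enc h1 h2)) (enc_subr 14430391 5000000 (enc_sub (enc_mul (enc_norm (enc_sub (enc_rat _ 120077 1000000) (enc_scale 6151 100000 (cFsB1_9.enc h1 h2)))) (cFsB1_22.enc h1 h2)) (enc_mul (enc_norm (enc_subr 981 50000 (enc_scale 17 1250 (cFsB1_9.enc h1 h2)))) (dgxi.enc h1)))) (enc_subr 14430391 5000000 (enc_sub (enc_mul (enc_norm (enc_add (enc_scale 3397 100000 (cFsB1_9.enc h1 h2)) (enc_rat _ 25889 1000000))) (cFsB1_22.enc h1 h2)) (enc_mul (enc_norm (enc_subr 1923 2000 (enc_scale 2421 2500 (cFsB1_9.enc h1 h2)))) (dgxi.enc h1))))) (enc_subr 14430391 5000000 (enc_neg (enc_mul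 (enc_norm (enc_subr 18491 12500 (enc_scale 289 1000 (cFsB1_9.enc h1 h2)))) (dgxi.enc h1))))))⟩
noncomputable def cFBs1 : Fn2 := ⟨_, _, fun h1 h2 => (cFsB1.enc h1 h2)⟩
noncomputable def cFsX1_3 : Fn2 := ⟨_, _, fun h1 h2 => (enc_mul h1 (dgxi.enc h1))⟩
noncomputable def cFsX1_9 : Fn2 := ⟨_, _, fun h1 h2 => (enc_subr 67 100 h2)⟩
noncomputable def cFsX1_19 : Fn2 := ⟨_, _, fun h1 h2 => (enc_scale 2033 125000 (cFsX1_9.enc h1 h2))⟩
noncomputable def cFsX1_25 : Fn2 := ⟨_, _, fun h1 h2 => (enc_inv h1)⟩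
noncomputable def cFsX1 : Fn2 := ⟨_, _, fun h1 h2 => (enc_norm (enc_case (enc_sub (enc_rat _ 1 20) (cFsX1_3.enc h1 h2)) (enc_case (enc_sub (enc_rat _ 1 10) (cFsX1_3.enc h1 h2)) (enc_sub (enc_mul (enc_norm (enc_add (enc_mul (enc_norm (enc_add (cFsX1_19.enc h1 h2) (enc_rat _ 164861 1875000))) (enc_norm (cFsX1_9.enc h1 h2))) (enc_rat _ 3667361 50000000))) (cFsX1_25.enc h1 h2)) (enc_mul (enc_norm (enc_sub (enc_rat _ 29827 25000) (enc_scale 2969 5000 (cFsX1_9.enc h1 h2)))) (dgxi.enc h1))) (enc_sub (enc_mul (enc_norm (enc_add (enc_mul (enc_norm (enc_subr 19403 3750000 (cFsX1_19.enc h1 h2))) (enc_norm (cFsX1_9.enc h1 h2))) (enc_rat _ 726861 50000000))) (cFsX1_25.enc h1 h2)) (enc_mul (enc_norm (enc_sub (enc_rat _ 30249 50000) (enc_scale 953 625 (cFsX1_9.enc h1 h2)))) (dgxi.enc h1)))) (enc_neg (enc_mul (enc_norm (enc_add (enc_mul (enc_norm (enc_subr 266497 187500 (enc_neg (enc_scale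 2033 6250 (cFsX1_9.enc h1 h2))))) (enc_norm (cFsX1_9.enc h1 h2))) (enc_rat _ 785589 2500000))) (dgxi.enc h1)))))⟩
noncomputable def cFsD1 : Fn2 := ⟨_, _, fun h1 h2 => (enc_norm (enc_neg (enc_mul (enc_norm (enc_add (enc_scale 12821 6250 (enc_subr 67 100 h2)) (enc_rat _ 1603 31250))) (dgxi.enc h1))))⟩
noncomputable def cFsDD1 : Fn2 := ⟨_, _, fun h1 h2 => (cFsD1.enc h1 h2)⟩
noncomputable def cFxs2 : Fn1 := ⟨_, _, fun h1 => (enc_norm (enc_add (enc_scale 7 10 (dgxi.enc h1)) (enc_scale 3 10 (dgws.enc h1))))⟩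
noncomputable def cFsB2_3 : Fn2 := ⟨_, _, fun h1 h2 => (enc_mul h1 (dgxi.enc h1))⟩
noncomputable def cFsB2_9 : Fn2 := ⟨_, _, fun h1 h2 => (enc_subr 67 100 h2)⟩
noncomputable def cFsB2_24 : Fn2 := ⟨_, _, fun h1 h2 => (enc_inv h1)⟩
noncomputable def cFsB2 : Fn2 := ⟨_, _, fun h1 h2 => (enc_norm (enc_case (enc_sub (enc_rat _ 1 20) (cFsB2_3.enc h1 h2)) (enc_case (enc_sub (enc_rat _ 1 10) (cFsB2_3.enc h1 h2)) (enc_sub (enc_mul (enc_norm (enc_sub (enc_rat _ 46901 1000000) (enc_scale 14207 100000 (cFsB2_9.enc h1 h2)))) (cFsB2_24.enc h1 h2)) (enc_mul (enc_norm (enc_sub (enc_rat _ 29609 25000) (enc_scale 3369 2500 (cFsB2_9.enc h1 h2)))) (dgxi.enc h1))) (enc_sub (enc_mul (enc_norm (enc_sub (enc_rat _ 10447 1000000) (enc_scale 1993 100000 (cFsB2_9.enc h1 h2)))) (cFsB2_24.enc h1 h2)) (enc_mul (enc_norm (enc_sub (enc_rat _ 40991 50000) (enc_scale 631 5000 (cFsB2_9.enc h1 h2))))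 (dgxi.enc h1)))) (enc_neg (enc_mul (enc_norm (enc_add (enc_scale 681 2500 (cFsB2_9.enc h1 h2)) (enc_rat _ 1909 3125))) (dgxi.enc h1)))))⟩
noncomputable def cFBs2 : Fn2 := ⟨_, _, fun h1 h2 => (cFsB2.enc h1 h2)⟩
noncomputable def cFsX2_3 : Fn2 := ⟨_, _, fun h1 h2 => (enc_mul h1 (dgxi.enc h1))⟩
noncomputable def cFsX2_9 : Fn2 := ⟨_, _, fun h1 h2 => (enc_subr 67 100 h2)⟩
noncomputable def cFsX2_24 : Fn2 := ⟨_, _, fun h1 h2 => (enc_inv h1)⟩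
noncomputable def cFsX2 : Fn2 := ⟨_, _, fun h1 h2 => (enc_norm (enc_case (enc_sub (enc_rat _ 1 20) (cFsX2_3.enc h1 h2)) (enc_case (enc_sub (enc_rat _ 1 10) (cFsX2_3.enc h1 h2)) (enc_sub (enc_mul (enc_norm (enc_sub (enc_rat _ 23933 500000) (enc_scale 241 10000 (cFsX2_9.enc h1 h2)))) (cFsX2_24.enc h1 h2)) (enc_mul (enc_norm (enc_sub (enc_rat _ 3911 5000) (enc_scale 11301 5000 (cFsX2_9.enc h1 h2)))) (dgxi.enc h1))) (enc_sub (enc_mul (enc_norm (enc_sub (enc_rat _ 2699 500000) (enc_scale 67 2500 (cFsX2_9.enc h1 h2)))) (cFsX2_24.enc h1 h2)) (enc_mul (enc_norm (enc_sub (enc_rat _ 4469 12500) (enc_scale 2859 1250 (cFsX2_9.enc h1 h2)))) (dgxi.enc h1)))) (enc_neg (enc_mul (enc_norm (enc_sub (enc_rat _ 6239 25000) (enc_scale 2189 1250 (cFsX2_9.enc h1 h2)))) (dgxi.enc h1)))))⟩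
noncomputable def cFsD2 : Fn2 := ⟨_, _, fun h1 h2 => (enc_norm (enc_neg (enc_mul (enc_norm (enc_add (enc_scale 466 125 (enc_subr 67 100 h2)) (enc_rat _ 11823 125000))) (dgxi.enc h1))))⟩
noncomputable def cFsDD2 : Fn2 := ⟨_, _, fun h1 h2 => (cFsD2.enc h1 h2)⟩
noncomputable def cFxs3 : Fn1 := ⟨_, _, fun h1 => (enc_norm (enc_add (enc_scale 2 5 (dgxi.enc h1)) (enc_scale 3 5 (dgws.enc h1))))⟩
noncomputable def cFsB3_3 : Fn2 := ⟨_, _, fun h1 h2 => (enc_mul h1 (dgxi.enc h1))⟩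
noncomputable def cFsB3_9 : Fn2 := ⟨_, _, fun h1 h2 => (enc_subr 67 100 h2)⟩
noncomputable def cFsB3_24 : Fn2 := ⟨_, _, fun h1 h2 => (enc_inv h1)⟩
noncomputable def cFsB3 : Fn2 := ⟨_, _, fun h1 h2 => (enc_norm (enc_case (enc_sub (enc_rat _ 1 20) (cFsB3_3.enc h1 h2)) (enc_case (enc_sub (enc_rat _ 1 10) (cFsB3_3.enc h1 h2)) (enc_sub (enc_mul (enc_norm (enc_sub (enc_rat _ 20511 1000000) (enc_scale 2173 20000 (cFsB3_9.enc h1 h2)))) (cFsB3_24.enc h1 h2)) (enc_mul (enc_norm (enc_sub (enc_rat _ 45759 50000) (enc_scale 109 125 (cFsB3_9.enc h1 h2)))) (dgxi.enc h1))) (enc_sub (enc_mul (enc_norm (enc_sub (enc_rat _ 4893 1000000) (enc_scale 2343 100000 (cFsB3_9.enc h1 h2)))) (cFsB3_24.enc h1 h2)) (enc_mul (enc_norm (enc_sub (enc_rat _ 759 1000) (enc_scale 99 5000 (cFsB3_9.enc h1 h2)))) (dgxi.enc h1)))) (enc_neg (enc_mul (enc_norm (enc_add (enc_scale 561 1250 (cFsB3_9.enc h1 h2))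 (enc_rat _ 33057 50000))) (dgxi.enc h1)))))⟩
noncomputable def cFBs3 : Fn2 := ⟨_, _, fun h1 h2 => (cFsB3.enc h1 h2)⟩
noncomputable def cFsX3_3 : Fn2 := ⟨_, _, fun h1 h2 => (enc_mul h1 (dgxi.enc h1))⟩
noncomputable def cFsX3_9 : Fn2 := ⟨_, _, fun h1 h2 => (enc_subr 67 100 h2)⟩
noncomputable def cFsX3_22 : Fn2 := ⟨_, _, fun h1 h2 => (enc_inv h1)⟩
noncomputable def cFsX3 : Fn2 := ⟨_, _, fun h1 h2 => (enc_norm (enc_case (enc_sub (enc_rat _ 1 20) (cFsX3_3.enc h1 h2)) (enc_case (enc_sub (enc_rat _ 1 10) (cFsX3_3.enc h1 h2)) (enc_sub (enc_mul (enc_norm (enc_add (enc_scale 5233 100000 (cFsX3_9.enc h1 h2)) (enc_rat _ 4453 500000))) (cFsX3_22.enc h1 h2)) (enc_mul (enc_norm (enc_sub (enc_rat _ 761 3125) (enc_scale 239 1250 (cFsX3_9.enc h1 h2)))) (dgxi.enc h1))) (enc_sub (enc_mul (enc_norm (enc_add (enc_scale 547 100000 (cFsX3_9.enc h1 h2)) (enc_rat _ 83 125000))) (cFsX3_22.enc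 h1 h2)) (enc_mul (enc_norm (enc_sub (enc_rat _ 1611 10000) (enc_scale 3299 5000 (cFsX3_9.enc h1 h2)))) (dgxi.enc h1)))) (enc_neg (enc_mul (enc_norm (enc_sub (enc_rat _ 7391 50000) (enc_scale 1923 2500 (cFsX3_9.enc h1 h2)))) (dgxi.enc h1)))))⟩
noncomputable def cFsD3 : Fn2 := ⟨_, _, fun h1 h2 => (enc_norm (enc_neg (enc_mul (enc_norm (enc_add (enc_scale 164233 25000 (enc_subr 67 100 h2)) (enc_rat _ 35001 250000))) (dgxi.enc h1))))⟩
noncomputable def cFsDD3 : Fn2 := ⟨_, _, fun h1 h2 => (cFsD3.enc h1 h2)⟩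
noncomputable def cFxs4 : Fn1 := ⟨_, _, fun h1 => (enc_norm (enc_add (enc_scale 1 10 (dgxi.enc h1)) (enc_scale 9 10 (dgws.enc h1))))⟩
noncomputable def cFsB4_3 : Fn2 := ⟨_, _, fun h1 h2 => (enc_mul h1 (dgxi.enc h1))⟩
noncomputable def cFsB4_9 : Fn2 := ⟨_, _, fun h1 h2 => (enc_subr 67 100 h2)⟩
noncomputable def cFsB4_22 : Fn2 := ⟨_, _, fun h1 h2 => (enc_inv h1)⟩
noncomputable def cFsB4 : Fn2 := ⟨_, _, fun h1 h2 => (enc_norm (enc_case (enc_sub (enc_rat _ 1 20) (cFsB4_3.enc h1 h2)) (enc_case (enc_sub (enc_rat _ 1 10) (cFsB4_3.enc h1 h2)) (enc_sub (enc_mul (enc_norm (enc_sub (enc_rat _ 3411 1000000) (enc_scale 99 6250 (cFsB4_9.enc h1 h2)))) (cFsB4_22.enc h1 h2)) (enc_mul (enc_norm (enc_add (enc_scale 4337 5000 (cFsB4_9.enc h1 h2)) (enc_rat _ 33163 50000))) (dgxi.enc h1))) (enc_sub (enc_mul (enc_norm (enc_add (enc_scale 463 50000 (cFsB4_9.enc h1 h2)) (enc_rat _ 1887 1000000)))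 (cFsB4_22.enc h1 h2)) (enc_mul (enc_norm (enc_add (enc_scale 699 625 (cFsB4_9.enc h1 h2)) (enc_rat _ 32401 50000))) (dgxi.enc h1)))) (enc_neg (enc_mul (enc_norm (enc_add (enc_scale 2333 2500 (cFsB4_9.enc h1 h2)) (enc_rat _ 15257 25000))) (dgxi.enc h1)))))⟩
noncomputable def cFBs4 : Fn2 := ⟨_, _, fun h1 h2 => (cFsB4.enc h1 h2)⟩
noncomputable def cFsX4_3 : Fn2 := ⟨_, _, fun h1 h2 => (enc_mul h1 (dgxi.enc h1))⟩
noncomputable def cFsX4_9 : Fn2 := ⟨_, _, fun h1 h2 => (enc_subr 67 100 h2)⟩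
noncomputable def cFsX4_20 : Fn2 := ⟨_, _, fun h1 h2 => (enc_inv h1)⟩
noncomputable def cFsX4 : Fn2 := ⟨_, _, fun h1 h2 => (enc_norm (enc_case (enc_sub (enc_rat _ 1 20) (cFsX4_3.enc h1 h2)) (enc_case (enc_sub (enc_rat _ 1 10) (cFsX4_3.enc h1 h2)) (enc_sub (enc_mul (enc_norm (enc_subr 1749 500000 (enc_scale 4101 50000 (cFsX4_9.enc h1 h2)))) (cFsX4_20.enc h1 h2)) (enc_mul (enc_norm (enc_subr 969 50000 (enc_scale 77 125 (cFsX4_9.enc h1 h2)))) (dgxi.enc h1))) (enc_sub (enc_mul (enc_norm (enc_subr 13 4000 (enc_scale 153 12500 (cFsX4_9.enc h1 h2)))) (cFsX4_20.enc h1 h2)) (enc_mul (enc_norm (enc_subr 169 10000 (enc_neg (enc_scale 409 5000 (cFsX4_9.enc h1 h2))))) (dgxi.enc h1)))) (enc_neg (enc_mul (enc_norm (enc_sub (enc_rat _ 481 10000) (enc_scale 1633 5000 (cFsX4_9.enc h1 h2)))) (dgxi.enc h1)))))⟩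
noncomputable def cFsD4 : Fn2 := ⟨_, _, fun h1 h2 => (enc_norm (enc_neg (enc_mul (enc_norm (enc_add (enc_scale 226479 25000 (enc_subr 67 100 h2)) (enc_rat _ 9131 50000))) (dgxi.enc h1))))⟩
noncomputable def cFsDD4 : Fn2 := ⟨_, _, fun h1 h2 => (cFsD4.enc h1 h2)⟩
noncomputable def nFsc4 : Fn1 := ⟨_, _, fun h1 => (enc_scale 9 10 h1)⟩
noncomputable def nFB4_3 : Fn2 := ⟨_, _, fun h1 h2 => (enc_subr 67 100 h2)⟩
noncomputable def nFB4 : Fn2 := ⟨_, _, fun h1 h2 => (enc_norm (enc_sub (enc_subr 556253 1000000 (enc_neg (enc_scale 1194501 100000 (nFB4_3.enc h1 h2)))) (enc_mul (dgw.enc h1) (enc_norm (enc_subr 641 1875 (enc_scale 69469 3750 (nFB4_3.enc h1 h2)))))))⟩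
noncomputable def nFX4_3 : Fn2 := ⟨_, _, fun h1 h2 => (enc_subr 67 100 h2)⟩
noncomputable def nFX4 : Fn2 := ⟨_, _, fun h1 h2 => (enc_norm (enc_sub (enc_add (enc_scale 5453 50000 (nFX4_3.enc h1 h2)) (enc_rat _ 457439 1000000)) (enc_mul (dgw.enc h1) (enc_norm (enc_subr 15583 37500 (enc_neg (enc_scale 44779 5000 (nFX4_3.enc h1 h2))))))))⟩
noncomputable def nFD4_3 : Fn2 := ⟨_, _, fun h1 h2 => (enc_subr 67 100 h2)⟩
noncomputable def nFD4 : Fn2 := ⟨_, _, fun h1 h2 => (enc_norm (enc_sub (enc_sub (enc_rat _ 362669 100000) (enc_scale 74999 5000 (nFD4_3.enc h1 h2))) (enc_mul (dgw.enc h1) (enc_norm (enc_subr 347749 500000 (enc_neg (enc_scale 1087259 25000 (nFD4_3.enc h1 h2))))))))⟩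
noncomputable def nFsc5 : Fn1 := ⟨_, _, fun h1 => (enc_norm (enc_add (enc_scale 7 10 h1) (enc_rat _ 3 10)))⟩
noncomputable def nFB5 : Fn2 := ⟨_, _, fun h1 h2 => (enc_norm (enc_subr 337491000 318315881 (enc_neg (enc_scale 2169475000 318315881 (enc_subr 67 100 h2)))))⟩
noncomputable def nFX5 : Fn2 := ⟨_, _, fun h1 h2 => (enc_norm (enc_sub (enc_rat _ 533074175 1909895286) (enc_scale 1079351950 954947643 (enc_subr 67 100 h2))))⟩
noncomputable def nFD5 : Fn2 := ⟨_, _, fun h1 h2 => (enc_norm (enc_add (enc_scale 208710192328 3144015147 (enc_subr 67 100 h2)) (enc_rat _ 34651835733 10480050490)))⟩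
noncomputable def nFsc6 : Fn1 := ⟨_, _, fun h1 => (enc_norm (enc_add (enc_scale 2 5 h1) (enc_rat _ 3 5)))⟩
noncomputable def nFB6 : Fn2 := ⟨_, _, fun h1 h2 => (enc_norm (enc_subr 472199000 658122329 (enc_scale 4900000 658122329 (enc_subr 67 100 h2))))⟩
noncomputable def nFX6 : Fn2 := ⟨_, _, fun h1 h2 => (enc_norm (enc_sub (enc_rat _ 714466175 1974366987) (enc_scale 2005373900 1974366987 (enc_subr 67 100 h2))))⟩
noncomputable def nFD6 : Fn2 := ⟨_, _, fun h1 h2 => (enc_norm (enc_add (enc_scale 41875625000 668292289 (enc_subr 67 100 h2)) (enc_rat _ 1060357000 668292289)))⟩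
noncomputable def l12F : List Knk := [⟨1, 20, kFc0, kFc0g⟩, ⟨1, 10, kFc1, kFc1g⟩]
noncomputable def laF : List Knk := [⟨3, 100, kFa0, kFa0g⟩, ⟨3, 50, kFa1, kFa1g⟩, ⟨1, 10, kFa2, kFa2g⟩]
noncomputable def lbF : List Knk := [⟨1, 20, kFb0, kFb0g⟩, ⟨1, 10, kFb1, kFb1g⟩]
noncomputable def l1F : List Knk := [⟨3, 100, kFe0, kFe0g⟩, ⟨1, 20, kFe1, kFe1g⟩, ⟨3, 50, kFe2, kFe2g⟩, ⟨1, 10, kFe3, kFe3g⟩]
noncomputable def l2F : List Knk := [⟨3, 100, kFd0, kFd0g⟩, ⟨1, 20, kFd1, kFd1g⟩, ⟨3, 50, kFd2, kFd2g⟩, ⟨1, 10, kFd3, kFd3g⟩]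
noncomputable def cvF1 : CvP := ⟨cFxs1, cFBs1, cFsX1⟩
noncomputable def cvF2 : CvP := ⟨cFxs2, cFBs2, cFsX2⟩
noncomputable def cvF3 : CvP := ⟨cFxs3, cFBs3, cFsX3⟩
noncomputable def cvF4 : CvP := ⟨cFxs4, cFBs4, cFsX4⟩
noncomputable def ndF4 : NdU := ⟨nFsc4, nFB4, nFX4, nFD4⟩
noncomputable def ndF5 : NdU := ⟨nFsc5, nFB5, nFX5, nFD5⟩
noncomputable def ndF6 : NdU := ⟨nFsc6, nFB6, nFX6, nFD6⟩
noncomputable def pF : Pm := ⟨pFma, pFmb, pFmu, pFnx, pFc0, pFkc, pFjc, pFkc, pFjc, pFkc, pFjc, pFca, pFcb, pFcc, pFcc, pFcc, pFsv, l12F, l12F, l12F, laF, lbF, l1F, l2F, cvF1, pFx11, pFx01, pFK11, pFK01, pFL11, pFL01⟩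
noncomputable def pNc0 : Fn1 := ⟨_, _, fun h1 => (eng.enc h1)⟩
noncomputable def pNkc : Fn1 := ⟨_, _, fun h1 => (enc_norm (enc_mul (pNc0.enc h1) (enc_norm (enc_add (enc_scale 2245299 10000000 (enc_subr 67 100 h1)) (enc_rat _ 6481839 25000000)))))⟩
noncomputable def pNjc : Fn1 := ⟨_, _, fun h1 => (enc_norm (enc_mul (pNc0.enc h1) (enc_norm (enc_subr 75253629 20000000 (enc_scale 440711 40000 (enc_subr 67 100 h1))))))⟩
noncomputable def pNcc : Fn1 := ⟨_, _, fun h1 => (enc_norm (enc_mul (pNc0.enc h1) (enc_norm (enc_sub (enc_rat _ 50798693 1000000) (enc_scale 5508983 50000 (enc_subr 67 100 h1))))))⟩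
noncomputable def pNK11 : Fn2 := ⟨_, _, fun h1 h2 => (enc_norm (enc_mul (pNc0.enc h2) (kf1q1.enc h1 h2)))⟩
noncomputable def pNK01 : Fn2 := ⟨_, _, fun h1 h2 => (enc_norm (enc_mul (pNc0.enc h2) (kf0q1.enc h1 h2)))⟩
noncomputable def kNc0 : Fn1 := ⟨_, _, fun h1 => (enc_norm (enc_mul (pNc0.enc h1) (enc_norm (enc_add (enc_scale 3 2000000 (enc_subr 67 100 h1)) (enc_rat _ 1 5000000)))))⟩
noncomputable def kNc0g : Fn1 := ⟨_, _, fun h1 => (enc_norm (enc_mul (pNc0.enc h1) (enc_norm (enc_subr 23607579 500000 (enc_scale 2203701 20000 (enc_subr 67 100 h1))))))⟩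
noncomputable def kNc1 : Fn1 := ⟨_, _, fun h1 => (enc_norm (enc_neg (enc_mul (pNc0.enc h1) (enc_norm (enc_scale 3 2000000 (enc_subr 67 100 h1))))))⟩
noncomputable def kNc1g : Fn1 := ⟨_, _, fun h1 => (enc_norm (enc_mul (pNc0.enc h1) (enc_norm (enc_sub (enc_rat _ 11035743 500000) (enc_scale 147 20000 (enc_subr 67 100 h1))))))⟩
noncomputable def cNBs1 : Fn2 := ⟨_, _, fun h1 h2 => (enc_norm (enc_mul (pNc0.enc h2) (cFsB1.enc h1 h2)))⟩
noncomputable def cNBs2 : Fn2 := ⟨_, _, fun h1 h2 => (enc_norm (enc_mul (pNc0.enc h2) (cFsB2.enc h1 h2)))⟩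
noncomputable def cNBs3 : Fn2 := ⟨_, _, fun h1 h2 => (enc_norm (enc_mul (pNc0.enc h2) (cFsB3.enc h1 h2)))⟩
noncomputable def cNBs4 : Fn2 := ⟨_, _, fun h1 h2 => (enc_norm (enc_mul (pNc0.enc h2) (cFsB4.enc h1 h2)))⟩
noncomputable def nNB4_4 : Fn2 := ⟨_, _, fun h1 h2 => (enc_subr 67 100 h2)⟩
noncomputable def nNB4 : Fn2 := ⟨_, _, fun h1 h2 => (enc_norm (enc_mul (pNc0.enc h2) (enc_norm (enc_sub (enc_subr 556253 1000000 (enc_neg (enc_scale 1194501 100000 (nNB4_4.enc h1 h2)))) (enc_mul (dgw.enc h1) (enc_norm (enc_subr 641 1875 (enc_scale 69469 3750 (nNB4_4.enc h1 h2)))))))))⟩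
noncomputable def nNB5 : Fn2 := ⟨_, _, fun h1 h2 => (enc_norm (enc_mul (pNc0.enc h2) (enc_norm (enc_subr 337491000 318315881 (enc_neg (enc_scale 2169475000 318315881 (enc_subr 67 100 h2)))))))⟩
noncomputable def nNB6 : Fn2 := ⟨_, _, fun h1 h2 => (enc_norm (enc_mul (pNc0.enc h2) (enc_norm (enc_subr 472199000 658122329 (enc_scale 4900000 658122329 (enc_subr 67 100 h2))))))⟩
noncomputable def umo : Fn1 := ⟨_, _, fun h1 => (mog.enc h1)⟩
noncomputable def us1 : Fn1 := ⟨_, _, fun h1 => (enc_norm (enc_subr 56173 22500 (enc_neg (enc_scale 4979 40 (enc_subr 67 100 h1)))))⟩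
noncomputable def us2 : Fn1 := ⟨_, _, fun h1 => (enc_norm (enc_add (enc_scale 5179 10000 (enc_subr 67 100 h1)) (enc_rat _ 607 50000)))⟩
noncomputable def us3 : Fn1 := ⟨_, _, fun h1 => (enc_norm (enc_subr 147663 140000 (enc_neg (enc_scale 108644 875 (enc_subr 67 100 h1)))))⟩
noncomputable def uC11 : Fn2 := ⟨_, _, fun h1 h2 => (kc1q1.enc h1 h2)⟩
noncomputable def uC01 : Fn2 := ⟨_, _, fun h1 h2 => (kc0q1.enc h1 h2)⟩
noncomputable def kNu1_0 : Fn1 := ⟨_, _, fun h1 => (enc_norm (enc_add (enc_scale 1315823 3000 (enc_subr 67 100 h1)) (enc_rat _ 673283 90000)))⟩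
noncomputable def kNu1_0g : Fn1 := ⟨_, _, fun h1 => (enc_pnc _ 0)⟩
noncomputable def kNu2_0 : Fn1 := ⟨_, _, fun h1 => (enc_norm (enc_subr 273 25000 (enc_neg (enc_scale 1841 5000 (enc_subr 67 100 h1)))))⟩
noncomputable def kNu2_0g : Fn1 := ⟨_, _, fun h1 => (enc_pnc _ 0)⟩
noncomputable def l12N : List Knk := [⟨1, 20, kNc0, kNc0g⟩, ⟨1, 10, kNc1, kNc1g⟩]
noncomputable def cvN1 : CvP := ⟨cFxs1, cNBs1, cFsX1⟩
noncomputable def cvN2 : CvP := ⟨cFxs2, cNBs2, cFsX2⟩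
noncomputable def cvN3 : CvP := ⟨cFxs3, cNBs3, cFsX3⟩
noncomputable def cvN4 : CvP := ⟨cFxs4, cNBs4, cFsX4⟩
noncomputable def ndN4 : NdU := ⟨nFsc4, nNB4, nFX4, nFD4⟩
noncomputable def ndN5 : NdU := ⟨nFsc5, nNB5, nFX5, nFD5⟩
noncomputable def ndN6 : NdU := ⟨nFsc6, nNB6, nFX6, nFD6⟩
noncomputable def pN : Pm := ⟨pFma, pFmb, pFmu, pFnx, pNc0, pNkc, pNjc, pNkc, pNjc, pNkc, pNjc, pFca, pFcb, pNcc, pNcc, pNcc, pFsv, l12N, l12N, l12N, laF, lbF, l1F, l2F, cvN1, pFx11, pFx01, pNK11, pNK01, pFL11, pFL01⟩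
noncomputable def ul1 : List Knk := [⟨9, 100, kNu1_0, kNu1_0g⟩]
noncomputable def ul2 : List Knk := [⟨1, 10, kNu2_0, kNu2_0g⟩]
noncomputable def ul3 : List Knk := []
noncomputable def qN : Pu := ⟨umo, us1, us2, us3, ul1, ul2, ul3, cFsDD1, uC11, uC01⟩

end Pool.Agent.Strip051.G.I6500_6900.Tab.DG
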