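import Pool.Agent.Strip051.PB.FlAsmX
import Pool.Agent.Strip051.G.I6500_6900.Tab

/-! # Slopes (generated) -/

set_option linter.all false

namespace Pool.Agent.Strip051.G.I6500_6900.Tab

open Pool.Agent.Strip051.PB

attribute [local irreducible] padd psub pneg pmul psq pinv psqrt psqrtg pabs pps pmax pmin pphi
  plam pcase phf pnat prat pscale pnorm pdc pnc pone ppos pnn

noncomputable def c1g_fs : Sl1 c1g := ⟨_, fun h1 => (pr_sqrtg (pr_csub (enc_pnc _ 1) (pr_scale 3 4 (pr_sq h1))))⟩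
noncomputable def kcg_6_fs : Sl2 kcg_6 := ⟨_, fun h1 h2 => (pr_addc h1 (enc_rat _ 1 4))⟩
noncomputable def kcg_9_fs : Sl2 kcg_9 := ⟨_, fun h1 h2 => (pr_addc h1 (enc_rat _ 2 5))⟩
noncomputable def kcg_12_fs : Sl2 kcg_12 := ⟨_, fun h1 h2 => (pr_addc h1 (enc_rat _ 9 20))⟩
noncomputable def kcg_13_fs : Sl2 kcg_13 := ⟨_, fun h1 h2 => (pr_scale 3056867 2500000 h1)⟩
noncomputable def kcg_16_fs : Sl2 kcg_16 := ⟨_, fun h1 h2 => (pr_scale 688599 125000 h1)⟩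
noncomputable def kcg_36_fs : Sl2 kcg_36 := ⟨_, fun h1 h2 => (pr_scale 233807 156250 h1)⟩
noncomputable def kcg_41_fs : Sl2 kcg_41 := ⟨_, fun h1 h2 => (pr_scale 1 12500 h1)⟩
noncomputable def kcg_59_fs : Sl2 kcg_59 := ⟨_, fun h1 h2 => (pr_addc h1 (enc_rat _ 7 20))⟩
noncomputable def kcg_60_fs : Sl2 kcg_60 := ⟨_, fun h1 h2 => (pr_scale 14791463 5000000 h1)⟩
noncomputable def kcg_65_fs : Sl2 kcg_65 := ⟨_, fun h1 h2 => (pr_scale 1 4000 h1)⟩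
noncomputable def kcg_84_fs : Sl2 kcg_84 := ⟨_, fun h1 h2 => (pr_addc h1 (enc_rat _ 3 10))⟩
noncomputable def kcg_85_fs : Sl2 kcg_85 := ⟨_, fun h1 h2 => (pr_scale 477581 200000 h1)⟩
noncomputable def kcg_90_fs : Sl2 kcg_90 := ⟨_, fun h1 h2 => (pr_scale 17 100000 h1)⟩
noncomputable def kcg_106_fs : Sl2 kcg_106 := ⟨_, fun h1 h2 => (pr_scale 3760737 5000000 h1)⟩
noncomputable def kcg_111_fs : Sl2 kcg_111 := ⟨_, fun h1 h2 => (pr_scale 3 31250 h1)⟩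
noncomputable def kcg_133_fs : Sl2 kcg_133 := ⟨_, fun h1 h2 => (pr_addc h1 (enc_rat _ 3 20))⟩
noncomputable def kcg_136_fs : Sl2 kcg_136 := ⟨_, fun h1 h2 => (pr_addc h1 (enc_rat _ 1 5))⟩
noncomputable def kcg_137_fs : Sl2 kcg_137 := ⟨_, fun h1 h2 => (pr_scale 3145841 2500000 h1)⟩
noncomputable def kcg_141_fs : Sl2 kcg_141 := ⟨_, fun h1 h2 => (pr_scale 3911 500000 h1)⟩
noncomputable def kcg_158_fs : Sl2 kcg_158 := ⟨_, fun h1 h2 => (pr_scale 360363 125000 h1)⟩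
noncomputable def kcg_161_fs : Sl2 kcg_161 := ⟨_, fun h1 h2 => (pr_scale 1 250000 h1)⟩
noncomputable def kcg_179_fs : Sl2 kcg_179 := ⟨_, fun h1 h2 => (pr_addc h1 (enc_rat _ 1 10))⟩
noncomputable def kcg_180_fs : Sl2 kcg_180 := ⟨_, fun h1 h2 => (pr_scale 10567199 5000000 h1)⟩
noncomputable def kcg_184_fs : Sl2 kcg_184 := ⟨_, fun h1 h2 => (pr_scale 499217 100000 h1)⟩
noncomputable def kcg_202_fs : Sl2 kcg_202 := ⟨_, fun h1 h2 => (pr_scale 12083379 5000000 h1)⟩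
noncomputable def kcg_206_fs : Sl2 kcg_206 := ⟨_, fun h1 h2 => (pr_scale 2499999 500000 h1)⟩
noncomputable def kcg_220_fs : Sl2 kcg_220 := ⟨_, fun h1 h2 => (pr_scale 14430391 5000000 h1)⟩
noncomputable def kcg_227_fs : Sl2 kcg_227 := ⟨_, fun h1 h2 => (pr_csub (enc_rat _ 1 4) h1)⟩
noncomputable def kcg_228_fs : Sl2 kcg_228 := ⟨_, fun h1 h2 => (pr_csub (enc_rat _ 2 5) h1)⟩
noncomputable def kcg_229_fs : Sl2 kcg_229 := ⟨_, fun h1 h2 => (pr_csub (enc_rat _ 9 20) h1)⟩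
noncomputable def kcg_249_fs : Sl2 kcg_249 := ⟨_, fun h1 h2 => (pr_csub (enc_rat _ 7 20) h1)⟩
noncomputable def kcg_258_fs : Sl2 kcg_258 := ⟨_, fun h1 h2 => (pr_csub (enc_rat _ 3 10) h1)⟩
noncomputable def kcg_278_fs : Sl2 kcg_278 := ⟨_, fun h1 h2 => (pr_csub (enc_rat _ 3 20) h1)⟩
noncomputable def kcg_279_fs : Sl2 kcg_279 := ⟨_, fun h1 h2 => (pr_csub (enc_rat _ 1 5) h1)⟩
noncomputable def kcg_300_fs : Sl2 kcg_300 := ⟨_, fun h1 h2 => (pr_csub (enc_rat _ 1 10) h1)⟩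
noncomputable def kcg_fs : Sl2 kcg := ⟨_, fun h1 h2 => (pr_norm (pr_case h1 (pr_case (kcg_6_fs.snd h1 h2) (pr_case (kcg_9_fs.snd h1 h2) (pr_case (kcg_12_fs.snd h1 h2) (pr_add (pr_add (pr_addc (kcg_13_fs.snd h1 h2) (enc_rat _ 137539 390625)) (pr_cmul (enc_norm (kcg_3.enc h1.l h2)) (pr_norm (pr_subr 29789259 10000000 (pr_neg (kcg_16_fs.snd h1 h2)))))) (pr_cmul (enc_norm (kcg_28.enc h1.l h2)) (pr_norm (pr_mul (pr_norm (pr_addc h1 (enc_rat _ 1 2))) (pr_norm (pr_csub (enc_neg (enc_rat _ 9 20)) h1)))))) (pr_add (pr_add (pr_subr 43575019 50000000 (pr_neg (kcg_36_fs.snd h1 h2))) (pr_cmul (enc_norm (kcg_3.enc h1.l h2)) (pr_norm (pr_subr 1000011 2000000 (pr_neg (kcg_41_fs.snd h1 h2)))))) (pr_cmul (enc_norm (kcg_51.enc h1.l h2)) (pr_norm (pr_mul (pr_norm (kcg_12_fs.snd h1 h2)) (pr_norm (pr_csub (enc_neg (enc_rat _ 2 5)) h1))))))) (pr_case (kcg_59_fs.snd h1 h2) (pr_add (pr_add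 (pr_subr 2912543 2000000 (pr_neg (kcg_60_fs.snd h1 h2))) (pr_cmul (enc_norm (kcg_3.enc h1.l h2)) (pr_norm (pr_subr 1000147 2000000 (pr_neg (kcg_65_fs.snd h1 h2)))))) (pr_cmul (enc_norm (kcg_77.enc h1.l h2)) (pr_norm (pr_mul (pr_norm (kcg_9_fs.snd h1 h2)) (pr_norm (pr_csub (enc_neg (enc_rat _ 7 20)) h1)))))) (pr_case (kcg_84_fs.snd h1 h2) (pr_add (pr_add (pr_subr 3926987 3125000 (pr_neg (kcg_85_fs.snd h1 h2))) (pr_cmul (enc_norm (kcg_3.enc h1.l h2)) (pr_norm (pr_subr 1000091 2000000 (pr_neg (kcg_90_fs.snd h1 h2)))))) (pr_cmul (enc_norm (kcg_101.enc h1.l h2)) (pr_norm (pr_mul (pr_norm (kcg_59_fs.snd h1 h2)) (pr_norm (pr_csub (enc_neg (enc_rat _ 3 10)) h1)))))) (pr_add (pr_add (pr_subr 9573857 12500000 (pr_neg (kcg_106_fs.snd h1 h2))) (pr_cmul (enc_norm (kcg_3.enc h1.l h2)) (pr_norm (pr_subr 5000233 10000000 (pr_neg (kcg_111_fs.snd h1 h2)))))) (pr_cmul (enc_norm (kcg_123.enc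 h1.l h2)) (pr_norm (pr_mul (pr_norm (kcg_84_fs.snd h1 h2)) (pr_norm (pr_csub (enc_neg (enc_rat _ 1 4)) h1))))))))) (pr_case (kcg_133_fs.snd h1 h2) (pr_case (kcg_136_fs.snd h1 h2) (pr_add (pr_add (pr_subr 26328761 100000000 (kcg_137_fs.snd h1 h2)) (pr_cmul (enc_norm (kcg_3.enc h1.l h2)) (pr_norm (pr_subr 2490219 5000000 (kcg_141_fs.snd h1 h2))))) (pr_cmul (enc_norm (kcg_153.enc h1.l h2)) (pr_norm (pr_mul (pr_norm (kcg_6_fs.snd h1 h2)) (pr_norm (pr_csub (enc_neg (enc_rat _ 1 5)) h1)))))) (pr_add (pr_add (pr_addc (kcg_158_fs.snd h1 h2) (enc_rat _ 6162591 100000000)) (pr_cmul (enc_norm (kcg_3.enc h1.l h2)) (pr_norm (pr_subr 499609 1000000 (pr_neg (kcg_161_fs.snd h1 h2)))))) (pr_cmul (enc_norm (kcg_171.enc h1.l h2)) (pr_norm (pr_mul (pr_norm (kcg_136_fs.snd h1 h2)) (pr_norm (pr_csub (enc_neg (enc_rat _ 3 20)) h1))))))) (pr_case (kcg_179_fs.snd h1 h2) (pr_add (pr_add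 (pr_subr 1344843 25000000 (kcg_180_fs.snd h1 h2)) (pr_cmul (enc_norm (kcg_3.enc h1.l h2)) (pr_norm (pr_addc (kcg_184_fs.snd h1 h2) (enc_rat _ 2492171 10000000))))) (pr_cmul (enc_norm (kcg_194.enc h1.l h2)) (pr_norm (pr_mul (pr_norm (kcg_133_fs.snd h1 h2)) (pr_norm (pr_csub (enc_neg (enc_rat _ 1 10)) h1)))))) (pr_case (pr_addc h1 (enc_rat _ 1 20)) (pr_add (pr_add (pr_subr 586753 25000000 (kcg_202_fs.snd h1 h2)) (pr_cmul (enc_norm (kcg_3.enc h1.l h2)) (pr_norm (pr_addc (kcg_206_fs.snd h1 h2) (enc_rat _ 2499999 10000000))))) (pr_cmul (enc_norm (kcg_215.enc h1.l h2)) (pr_norm (pr_mul (pr_norm (kcg_179_fs.snd h1 h2)) (pr_norm (pr_csub (enc_neg (enc_rat _ 1 20)) h1)))))) (kcg_220_fs.snd h1 h2))))) (pr_neg (pr_case (kcg_227_fs.snd h1 h2) (pr_case (kcg_228_fs.snd h1 h2) (pr_case (kcg_229_fs.snd h1 h2) (pr_add (pr_add (pr_csub (enc_rat _ 137539 390625) (kcg_13_fs.snd h1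 h2)) (pr_cmul (enc_norm (kcg_3.enc h1.l h2)) (pr_norm (pr_subr 29789259 10000000 (kcg_16_fs.snd h1 h2))))) (pr_cmul (enc_norm (kcg_28.enc h1.l h2)) (pr_norm (pr_mul (pr_norm (pr_csub (enc_rat _ 1 2) h1)) (pr_norm (pr_subr 9 20 h1)))))) (pr_add (pr_add (pr_subr 43575019 50000000 (kcg_36_fs.snd h1 h2)) (pr_cmul (enc_norm (kcg_3.enc h1.l h2)) (pr_norm (pr_subr 1000011 2000000 (kcg_41_fs.snd h1 h2))))) (pr_cmul (enc_norm (kcg_51.enc h1.l h2)) (pr_norm (pr_mul (pr_norm (kcg_229_fs.snd h1 h2)) (pr_norm (pr_subr 2 5 h1))))))) (pr_case (kcg_249_fs.snd h1 h2) (pr_add (pr_add (pr_subr 2912543 2000000 (kcg_60_fs.snd h1 h2)) (pr_cmul (enc_norm (kcg_3.enc h1.l h2)) (pr_norm (pr_subr 1000147 2000000 (kcg_65_fs.snd h1 h2))))) (pr_cmul (enc_norm (kcg_77.enc h1.l h2)) (pr_norm (pr_mul (pr_norm (kcg_228_fs.snd h1 h2)) (pr_norm (pr_subr 7 20 h1)))))) (pr_case (kcg_258_fs.snd h1 h2)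 (pr_add (pr_add (pr_subr 3926987 3125000 (kcg_85_fs.snd h1 h2)) (pr_cmul (enc_norm (kcg_3.enc h1.l h2)) (pr_norm (pr_subr 1000091 2000000 (kcg_90_fs.snd h1 h2))))) (pr_cmul (enc_norm (kcg_101.enc h1.l h2)) (pr_norm (pr_mul (pr_norm (kcg_249_fs.snd h1 h2)) (pr_norm (pr_subr 3 10 h1)))))) (pr_add (pr_add (pr_subr 9573857 12500000 (kcg_106_fs.snd h1 h2)) (pr_cmul (enc_norm (kcg_3.enc h1.l h2)) (pr_norm (pr_subr 5000233 10000000 (kcg_111_fs.snd h1 h2))))) (pr_cmul (enc_norm (kcg_123.enc h1.l h2)) (pr_norm (pr_mul (pr_norm (kcg_258_fs.snd h1 h2)) (pr_norm (pr_subr 1 4 h1))))))))) (pr_case (kcg_278_fs.snd h1 h2) (pr_case (kcg_279_fs.snd h1 h2) (pr_add (pr_add (pr_subr 26328761 100000000 (pr_neg (kcg_137_fs.snd h1 h2))) (pr_cmul (enc_norm (kcg_3.enc h1.l h2)) (pr_norm (pr_subr 2490219 5000000 (pr_neg (kcg_141_fs.snd h1 h2)))))) (pr_cmul (enc_norm (kcg_153.enc h1.l h2))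 (pr_norm (pr_mul (pr_norm (kcg_227_fs.snd h1 h2)) (pr_norm (pr_subr 1 5 h1)))))) (pr_add (pr_add (pr_csub (enc_rat _ 6162591 100000000) (kcg_158_fs.snd h1 h2)) (pr_cmul (enc_norm (kcg_3.enc h1.l h2)) (pr_norm (pr_subr 499609 1000000 (kcg_161_fs.snd h1 h2))))) (pr_cmul (enc_norm (kcg_171.enc h1.l h2)) (pr_norm (pr_mul (pr_norm (kcg_279_fs.snd h1 h2)) (pr_norm (pr_subr 3 20 h1))))))) (pr_case (kcg_300_fs.snd h1 h2) (pr_add (pr_add (pr_subr 1344843 25000000 (pr_neg (kcg_180_fs.snd h1 h2))) (pr_cmul (enc_norm (kcg_3.enc h1.l h2)) (pr_norm (pr_csub (enc_rat _ 2492171 10000000) (kcg_184_fs.snd h1 h2))))) (pr_cmul (enc_norm (kcg_194.enc h1.l h2)) (pr_norm (pr_mul (pr_norm (kcg_278_fs.snd h1 h2)) (pr_norm (pr_subr 1 10 h1)))))) (pr_case (pr_csub (enc_rat _ 1 20) h1) (pr_add (pr_add (pr_subr 586753 25000000 (pr_neg (kcg_202_fs.snd h1 h2))) (pr_cmul (enc_norm (kcg_3.enc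 h1.l h2)) (pr_norm (pr_csub (enc_rat _ 2499999 10000000) (kcg_206_fs.snd h1 h2))))) (pr_cmul (enc_norm (kcg_215.enc h1.l h2)) (pr_norm (pr_mul (pr_norm (kcg_300_fs.snd h1 h2)) (pr_norm (pr_subr 1 20 h1)))))) (pr_neg (kcg_220_fs.snd h1 h2)))))))))⟩
noncomputable def kf0q0_9_fs : Sl2 kf0q0_9 := ⟨_, fun h1 h2 => (pr_scale 3 2 h1)⟩
noncomputable def kf0q0_12_fs : Sl2 kf0q0_12 := ⟨_, fun h1 h2 => (pr_cadd (enc_pnc _ 1) (c1g_fs.snd h1))⟩
noncomputable def kf0q0_fs : Sl2 kf0q0 := ⟨_, fun h1 h2 => (pr_norm (pr_add (pr_mul (pr_norm (pr_mul (pr_norm (pr_sub (c1g_fs.snd h1) (kf0q0_9_fs.snd h1 h2))) (pr_norm (kf0q0_12_fs.snd h1 h2)))) (pr_nd (pr_inv (pr_sub (kf0q0_12_fs.snd h1 h2) (kf0q0_9_fs.snd h1 h2))))) (pr_mul h1 (kcg_fs.snd (pr_norm (pr_sub (pr_scale 3 4 h1) (pr_half (c1g_fs.snd h1)))) h2))))⟩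
noncomputable def txg_6_fs : Sl3 txg_6 := ⟨_, fun h1 h2 h3 => (pr_add h1 (pr_half h2))⟩
noncomputable def txg_26_fs : Sl3 txg_26 := ⟨_, fun h1 h2 h3 => (pr_addc h1 (enc_rat _ 1 4))⟩
noncomputable def txg_29_fs : Sl3 txg_29 := ⟨_, fun h1 h2 h3 => (pr_addc h1 (enc_rat _ 2 5))⟩
noncomputable def txg_32_fs : Sl3 txg_32 := ⟨_, fun h1 h2 h3 => (pr_addc h1 (enc_rat _ 47 100))⟩
noncomputable def txg_55_fs : Sl3 txg_55 := ⟨_, fun h1 h2 h3 => (pr_addc h1 (enc_rat _ 11 25))⟩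
noncomputable def txg_95_fs : Sl3 txg_95 := ⟨_, fun h1 h2 h3 => (pr_addc h1 (enc_rat _ 33 100))⟩
noncomputable def txg_98_fs : Sl3 txg_98 := ⟨_, fun h1 h2 h3 => (pr_addc h1 (enc_rat _ 9 25))⟩
noncomputable def txg_139_fs : Sl3 txg_139 := ⟨_, fun h1 h2 h3 => (pr_addc h1 (enc_rat _ 29 100))⟩
noncomputable def txg_183_fs : Sl3 txg_183 := ⟨_, fun h1 h2 h3 => (pr_addc h1 (enc_rat _ 1 10))⟩
noncomputable def txg_186_fs : Sl3 txg_186 := ⟨_, fun h1 h2 h3 => (pr_addc h1 (enc_rat _ 9 50))⟩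
noncomputable def txg_189_fs : Sl3 txg_189 := ⟨_, fun h1 h2 h3 => (pr_addc h1 (enc_rat _ 21 100))⟩
noncomputable def txg_226_fs : Sl3 txg_226 := ⟨_, fun h1 h2 h3 => (pr_addc h1 (enc_rat _ 7 50))⟩
noncomputable def txg_265_fs : Sl3 txg_265 := ⟨_, fun h1 h2 h3 => (pr_addc h1 (enc_rat _ 1 50))⟩
noncomputable def txg_268_fs : Sl3 txg_268 := ⟨_, fun h1 h2 h3 => (pr_addc h1 (enc_rat _ 3 50))⟩
noncomputable def txg_307_fs : Sl3 txg_307 := ⟨_, fun h1 h2 h3 => (pr_subr 1 100 h1)⟩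
noncomputable def txg_363_fs : Sl3 txg_363 := ⟨_, fun h1 h2 h3 => (pr_subr 1 7 h1)⟩
noncomputable def txg_365_fs : Sl3 txg_365 := ⟨_, fun h1 h2 h3 => (pr_subr 3 10 h1)⟩
noncomputable def txg_367_fs : Sl3 txg_367 := ⟨_, fun h1 h2 h3 => (pr_subr 1 5 h1)⟩
noncomputable def txg_369_fs : Sl3 txg_369 := ⟨_, fun h1 h2 h3 => (pr_subr 163 1000 h1)⟩
noncomputable def txg_419_fs : Sl3 txg_419 := ⟨_, fun h1 h2 h3 => (pr_subr 1 4 h1)⟩
noncomputable def txg_462_fs : Sl3 txg_462 := ⟨_, fun h1 h2 h3 => (pr_subr 2 5 h1)⟩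
noncomputable def txg_464_fs : Sl3 txg_464 := ⟨_, fun h1 h2 h3 => (pr_subr 7 20 h1)⟩
noncomputable def txg_506_fs : Sl3 txg_506 := ⟨_, fun h1 h2 h3 => (pr_subr 9 20 h1)⟩
noncomputable def txg_fs : Sl3 txg := ⟨_, fun h1 h2 h3 => (pr_case (pr_subr 47 914 h1) (pr_case (txg_26_fs.snd h1 h2 h3) (pr_case (txg_29_fs.snd h1 h2 h3) (pr_case (txg_32_fs.snd h1 h2 h3) (pr_add (pr_add (pr_addc (pr_scale 373861 3000000 h1) (enc_rat _ 373861 6000000)) (pr_cmul (enc_norm (txg_4.enc h1.l h2.l h3)) (pr_norm (pr_addc (pr_scale 590579 300000 h1) (enc_rat _ 590579 600000))))) (pr_cmul (enc_norm (enc_subr 279629 200000 (enc_scale 817299 50000 (txg_4.enc h1.l h2.l h3)))) (pr_norm (pr_mul (pr_norm (pr_addc h1 (enc_rat _ 1 2))) (pr_norm (pr_csub (enc_neg (enc_rat _ 47 100)) h1)))))) (pr_case (txg_55_fs.snd h1 h2 h3) (pr_add (pr_add (pr_addc (pr_scale 539651 3000000 h1) (enc_rat _ 1324259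 15000000)) (pr_cmul (enc_norm (txg_4.enc h1.l h2.l h3)) (pr_norm (pr_addc (pr_scale 338921 300000 h1) (enc_rat _ 553157 937500))))) (pr_cmul (enc_norm (enc_subr 443961 1000000 (enc_scale 1161591 100000 (txg_4.enc h1.l h2.l h3)))) (pr_norm (pr_mul (pr_norm (txg_32_fs.snd h1 h2 h3)) (pr_norm (pr_csub (enc_neg (enc_rat _ 11 25)) h1)))))) (pr_add (pr_add (pr_addc (pr_scale 103269 2000000 h1) (enc_rat _ 318543 10000000)) (pr_cmul (enc_norm (txg_4.enc h1.l h2.l h3)) (pr_norm (pr_addc (pr_scale 346331 400000 h1) (enc_rat _ 4739141 10000000))))) (pr_cmul (enc_norm (enc_sub (enc_rat _ 3539203 1000000) (enc_scale 105707 50000 (txg_4.enc h1.l h2.l h3)))) (pr_norm (pr_mul (pr_norm (txg_55_fs.snd h1 h2 h3)) (pr_norm (pr_csub (enc_neg (enc_rat _ 2 5)) h1)))))))) (pr_case (txg_95_fs.snd h1 h2 h3) (pr_case (txg_98_fs.snd h1 h2 h3) (pr_add (pr_add (pr_subr 127081 10000000 (pr_neg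 (pr_scale 119543 2000000 h1))) (pr_cmul (enc_norm (txg_4.enc h1.l h2.l h3)) (pr_norm (pr_addc (pr_scale 7093 12500 h1) (enc_rat _ 3545591 10000000))))) (pr_cmul (enc_norm (enc_subr 754063 1000000 (enc_scale 191477 20000 (txg_4.enc h1.l h2.l h3)))) (pr_norm (pr_mul (pr_norm (txg_29_fs.snd h1 h2 h3)) (pr_norm (pr_csub (enc_neg (enc_rat _ 9 25)) h1)))))) (pr_add (pr_add (pr_subr 23957 3125000 (pr_neg (pr_scale 137299 3000000 h1))) (pr_cmul (enc_norm (txg_4.enc h1.l h2.l h3)) (pr_norm (pr_addc (pr_scale 3101 25000 h1) (enc_rat _ 1949351 10000000))))) (pr_cmul (enc_norm (enc_add (enc_scale 201481 100000 (txg_4.enc h1.l h2.l h3)) (enc_rat _ 538591 1000000))) (pr_norm (pr_mul (pr_norm (txg_98_fs.snd h1 h2 h3)) (pr_norm (pr_csub (enc_neg (enc_rat _ 33 100)) h1))))))) (pr_case (txg_139_fs.snd h1 h2 h3) (pr_add (pr_add (pr_addc (pr_scale 12549 1000000 h1) (enc_rat _ 578891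 50000000)) (pr_cmul (enc_norm (txg_4.enc h1.l h2.l h3)) (pr_norm (pr_addc (pr_scale 234121 400000 h1) (enc_rat _ 13886069 40000000))))) (pr_cmul (enc_norm (enc_subr 465457 250000 (enc_neg (enc_scale 81517 6250 (txg_4.enc h1.l h2.l h3))))) (pr_norm (pr_mul (pr_norm (txg_95_fs.snd h1 h2 h3)) (pr_norm (pr_csub (enc_neg (enc_rat _ 29 100)) h1)))))) (pr_add (pr_add (pr_addc (pr_scale 639917 4000000 h1) (enc_rat _ 21733037 400000000)) (pr_cmul (enc_norm (txg_4.enc h1.l h2.l h3)) (pr_norm (pr_addc (pr_scale 614503 400000 h1) (enc_rat _ 24917147 40000000))))) (pr_cmul (enc_norm (enc_subr 1823933 1000000 (enc_neg (enc_scale 107311 10000 (txg_4.enc h1.l h2.l h3))))) (pr_norm (pr_mul (pr_norm (txg_139_fs.snd h1 h2 h3)) (pr_norm (pr_csub (enc_neg (enc_rat _ 1 4)) h1))))))))) (pr_case (txg_183_fs.snd h1 h2 h3) (pr_case (txg_186_fs.snd h1 h2 h3) (pr_case (txg_189_fs.snd h1 h2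 h3) (pr_add (pr_add (pr_addc (pr_scale 1485269 4000000 h1) (enc_rat _ 42866837 400000000)) (pr_cmul (enc_norm (txg_4.enc h1.l h2.l h3)) (pr_norm (pr_addc (pr_scale 132333 100000 h1) (enc_rat _ 712121 1250000))))) (pr_cmul (enc_norm (enc_subr 691903 200000 (enc_scale 401357 25000 (txg_4.enc h1.l h2.l h3)))) (pr_norm (pr_mul (pr_norm (txg_26_fs.snd h1 h2 h3)) (pr_norm (pr_csub (enc_neg (enc_rat _ 21 100)) h1)))))) (pr_add (pr_add (pr_addc (pr_scale 4753 9375 h1) (enc_rat _ 13565767 100000000)) (pr_cmul (enc_norm (txg_4.enc h1.l h2.l h3)) (pr_norm (pr_addc (pr_scale 105449 300000 h1) (enc_rat _ 1828059 5000000))))) (pr_cmul (enc_norm (enc_add (enc_scale 274719 25000 (txg_4.enc h1.l h2.l h3)) (enc_rat _ 45189 500000))) (pr_norm (pr_mul (pr_norm (txg_189_fs.snd h1 h2 h3)) (pr_norm (pr_csub (enc_neg (enc_rat _ 9 50)) h1))))))) (pr_case (txg_226_fs.snd h1 h2 h3) (pr_add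 (pr_add (pr_addc (pr_scale 441297 1000000 h1) (enc_rat _ 12383353 100000000)) (pr_cmul (enc_norm (txg_4.enc h1.l h2.l h3)) (pr_norm (pr_csub (enc_rat _ 22833 78125) (pr_scale 7 125 h1))))) (pr_cmul (enc_norm (enc_add (enc_scale 9729 5000 (txg_4.enc h1.l h2.l h3)) (enc_rat _ 1574453 1000000))) (pr_norm (pr_mul (pr_norm (txg_186_fs.snd h1 h2 h3)) (pr_norm (pr_csub (enc_neg (enc_rat _ 7 50)) h1)))))) (pr_add (pr_add (pr_addc (pr_scale 5713 15625 h1) (enc_rat _ 11324043 100000000)) (pr_cmul (enc_norm (txg_4.enc h1.l h2.l h3)) (pr_norm (pr_csub (enc_rat _ 2025693 10000000) (pr_scale 139333 200000 h1))))) (pr_cmul (enc_norm (enc_add (enc_scale 1407089 100000 (txg_4.enc h1.l h2.l h3)) (enc_rat _ 317173 1000000))) (pr_norm (pr_mul (pr_norm (txg_226_fs.snd h1 h2 h3)) (pr_norm (pr_csub (enc_neg (enc_rat _ 1 10)) h1)))))))) (pr_case (txg_265_fs.snd h1 h2 h3) (pr_case (txg_268_fs.snd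 h1 h2 h3) (pr_add (pr_add (pr_addc (pr_scale 1170913 4000000 h1) (enc_rat _ 21190011 200000000)) (pr_cmul (enc_norm (txg_4.enc h1.l h2.l h3)) (pr_norm (pr_csub (enc_rat _ 165169 5000000) (pr_scale 119601 50000 h1))))) (pr_cmul (enc_norm (enc_add (enc_scale 283129 10000 (txg_4.enc h1.l h2.l h3)) (enc_rat _ 1505427 1000000))) (pr_norm (pr_mul (pr_norm (txg_183_fs.snd h1 h2 h3)) (pr_norm (pr_csub (enc_neg (enc_rat _ 3 50)) h1)))))) (pr_add (pr_add (pr_addc (pr_scale 881051 4000000 h1) (enc_rat _ 812817 8000000)) (pr_cmul (enc_norm (txg_4.enc h1.l h2.l h3)) (pr_norm (pr_csub (enc_rat _ 575977 20000000) (pr_scale 985041 400000 h1))))) (pr_cmul (enc_norm (enc_sub (enc_rat _ 9569 31250) (enc_scale 106193 4000 (txg_4.enc h1.l h2.l h3)))) (pr_norm (pr_mul (pr_norm (txg_268_fs.snd h1 h2 h3)) (pr_norm (pr_csub (enc_neg (enc_rat _ 1 50)) h1))))))) (pr_case (txg_307_fs.snd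 h1 h2 h3) (pr_add (pr_add (pr_addc (pr_scale 199689 1000000 h1) (enc_rat _ 2023813 20000000)) (pr_cmul (enc_norm (txg_4.enc h1.l h2.l h3)) (pr_norm (pr_csub (enc_rat _ 334817 6000000) (pr_scale 333721 300000 h1))))) (pr_cmul (enc_norm (enc_add (enc_mul (enc_norm (enc_subr 120113 12500 (enc_scale 2033 2500 (txg_4.enc h1.l h2.l h3)))) (enc_norm (txg_4.enc h1.l h2.l h3))) (enc_rat _ 277511 1000000))) (pr_norm (pr_mul (pr_norm (txg_265_fs.snd h1 h2 h3)) (pr_norm (pr_csub (enc_rat _ 1 100) h1)))))) (pr_add (pr_add (pr_add (pr_addc (pr_scale 85265194596839057 451688696872500000 h1) (enc_rat _ 285974959563191113 2823054355453125000)) (pr_cmul (enc_norm (txg_4.enc h1.l h2.l h3)) (pr_norm (pr_addc (pr_scale 1706327422612403 90337739374500000 h1) (enc_rat _ 401911851573928657 9033773937450000000))))) (pr_cmul (txg_341.enc h1.l h2.l h3) (pr_norm (pr_subr 985832939 65891859500000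 (pr_scale 985832939 658918595000 h1))))) (pr_cmul (enc_norm (enc_add (enc_mul (enc_norm (enc_subr 127199 6250 (enc_neg (enc_scale 8203 5000 (txg_4.enc h1.l h2.l h3))))) (enc_norm (txg_4.enc h1.l h2.l h3))) (enc_rat _ 31309 500000))) (pr_norm (pr_mul (pr_norm (txg_307_fs.snd h1 h2 h3)) (pr_norm (pr_csub (enc_rat _ 47 914) h1)))))))))) (pr_case (txg_363_fs.snd h1 h2 h3) (pr_sub (pr_mul (pr_norm (pr_csub (enc_pnc _ 1) h2)) (pr_norm (pr_subn 1 (pr_nat 2 h2)))) (pr_mul (pr_norm (pr_nat 2 (pr_subc (pr_scale 4 3 (txg_6_fs.snd h1 h2 h3)) h3))) (pr_norm (pr_mul (pr_norm (pr_subn 1 (pr_add (pr_scale 2 3 (txg_6_fs.snd h1 h2 h3)) h2))) (kcg_fs.snd h1 h3))))) (pr_case (txg_365_fs.snd h1 h2 h3) (pr_case (txg_367_fs.snd h1 h2 h3) (pr_case (txg_369_fs.snd h1 h2 h3) (pr_add (pr_add (pr_add (pr_csub (enc_rat _ 3141210105923 24181500000000) (pr_scale 1010577913 12090750000 h1)) (pr_cmul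 (enc_norm (txg_4.enc h1.l h2.l h3)) (pr_norm (pr_addc (pr_scale 215144023 690900000 h1) (enc_rat _ 34958315561 690900000000))))) (pr_cmul (txg_341.enc h1.l h2.l h3) (pr_norm (pr_csub (enc_rat _ 376233503 329000000) (pr_scale 2308181 329000 h1))))) (pr_cmul (enc_norm (enc_add (enc_mul (enc_norm (enc_add (enc_scale 327037 2500 (txg_4.enc h1.l h2.l h3)) (enc_rat _ 13499 4000))) (enc_norm (txg_4.enc h1.l h2.l h3))) (enc_rat _ 2828017 1000000))) (pr_norm (pr_mul (pr_norm (txg_363_fs.snd h1 h2 h3)) (pr_norm (pr_csub (enc_rat _ 163 1000) h1)))))) (pr_add (pr_add (pr_csub (enc_rat _ 73770793 462500000) (pr_scale 981227 3700000 h1)) (pr_cmul (enc_norm (txg_4.enc h1.l h2.l h3)) (pr_norm (pr_addc (pr_scale 20599 370000 h1) (enc_rat _ 17072023 185000000))))) (pr_cmul (enc_norm (enc_add (enc_mul (enc_norm (enc_sub (enc_rat _ 253711 50000) (enc_scale 679799 10000 (txg_4.enc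 h1.l h2.l h3)))) (enc_norm (txg_4.enc h1.l h2.l h3))) (enc_rat _ 3368909 1000000))) (pr_norm (pr_mul (pr_norm (txg_369_fs.snd h1 h2 h3)) (pr_norm (pr_csub (enc_rat _ 1 5) h1))))))) (pr_case (txg_419_fs.snd h1 h2 h3) (pr_add (pr_add (pr_csub (enc_rat _ 897919 5000000) (pr_scale 1827967 5000000 h1)) (pr_cmul (enc_norm (txg_4.enc h1.l h2.l h3)) (pr_norm (pr_csub (enc_rat _ 1013427 5000000) (pr_scale 124087 250000 h1))))) (pr_cmul (enc_norm (enc_subr 242529 500000 (enc_scale 728551 100000 (txg_4.enc h1.l h2.l h3)))) (pr_norm (pr_mul (pr_norm (txg_367_fs.snd h1 h2 h3)) (pr_norm (pr_csub (enc_rat _ 1 4) h1)))))) (pr_add (pr_add (pr_csub (enc_rat _ 340149 2000000) (pr_scale 1637781 5000000 h1)) (pr_cmul (enc_norm (txg_4.enc h1.l h2.l h3)) (pr_norm (pr_csub (enc_rat _ 905357 5000000) (pr_scale 102473 250000 h1))))) (pr_cmul (enc_norm (enc_subr 68921 250000 (enc_neg (enc_scale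 901459 100000 (txg_4.enc h1.l h2.l h3))))) (pr_norm (pr_mul (pr_norm (txg_419_fs.snd h1 h2 h3)) (pr_norm (pr_csub (enc_rat _ 3 10) h1)))))))) (pr_case (txg_462_fs.snd h1 h2 h3) (pr_case (txg_464_fs.snd h1 h2 h3) (pr_add (pr_add (pr_csub (enc_rat _ 9095427 50000000) (pr_scale 367003 1000000 h1)) (pr_cmul (enc_norm (txg_4.enc h1.l h2.l h3)) (pr_norm (pr_subr 43789 5000000 (pr_scale 27859 125000 h1))))) (pr_cmul (enc_norm (enc_sub (enc_rat _ 532311 500000) (enc_scale 364071 100000 (txg_4.enc h1.l h2.l h3)))) (pr_norm (pr_mul (pr_norm (txg_365_fs.snd h1 h2 h3)) (pr_norm (pr_csub (enc_rat _ 7 20) h1)))))) (pr_add (pr_add (pr_csub (enc_rat _ 1842877 10000000) (pr_scale 1869003 5000000 h1)) (pr_cmul (enc_norm (txg_4.enc h1.l h2.l h3)) (pr_norm (pr_csub (enc_rat _ 21081 250000) (pr_scale 10769 250000 h1))))) (pr_cmul (enc_norm (enc_subr 37147 40000 (enc_scale 447983 50000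 (txg_4.enc h1.l h2.l h3)))) (pr_norm (pr_mul (pr_norm (txg_464_fs.snd h1 h2 h3)) (pr_norm (pr_csub (enc_rat _ 2 5) h1))))))) (pr_case (txg_506_fs.snd h1 h2 h3) (pr_add (pr_add (pr_csub (enc_rat _ 9115717 50000000) (pr_scale 115271 312500 h1)) (pr_cmul (enc_norm (txg_4.enc h1.l h2.l h3)) (pr_norm (pr_csub (enc_rat _ 258237 1250000) (pr_scale 17437 50000 h1))))) (pr_cmul (enc_norm (enc_sub (enc_rat _ 830007 1000000) (enc_scale 284639 100000 (txg_4.enc h1.l h2.l h3)))) (pr_norm (pr_mul (pr_norm (txg_462_fs.snd h1 h2 h3)) (pr_norm (pr_csub (enc_rat _ 9 20) h1)))))) (pr_add (pr_add (pr_csub (enc_rat _ 163241 1000000) (pr_scale 163241 500000 h1)) (pr_cmul (enc_norm (txg_4.enc h1.l h2.l h3)) (pr_norm (pr_csub (enc_rat _ 248283 500000) (pr_scale 248283 250000 h1))))) (pr_cmul (enc_norm (enc_subr 419427 250000 (enc_scale 393357 25000 (txg_4.enc h1.l h2.l h3)))) (pr_norm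 (pr_mul (pr_norm (txg_506_fs.snd h1 h2 h3)) (pr_norm (pr_csub (enc_rat _ 1 2) h1)))))))))))⟩
noncomputable def l0q0_fs : Sl2 l0q0 := ⟨_, fun h1 h2 => (pr_norm (txg_fs.snd (pr_norm (pr_sub (pr_scale 3 4 h1) (pr_half (c1g_fs.snd h1)))) (pr_nd (c1g_fs.snd h1)) h2))⟩
noncomputable def swg_fs : Sl1 swg := ⟨_, fun h1 => (pr_sqrt (pr_csub (enc_pnc _ 1) (pr_scale 3 4 (pr_sq (pr_norm (pr_subn 1 h1))))))⟩
noncomputable def cv1m_fs : Sl1 cv1m := ⟨_, fun h1 => (pr_norm (pr_add (pr_scale 9 10 (c1g_fs.snd h1)) (pr_scale 1 10 (pr_addc (swg_fs.snd h1) (enc_rat _ 1 2)))))⟩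
noncomputable def bf1q0_fs : Sl2 bf1q0 := ⟨_, fun h1 h2 => (pr_norm (pr_case (pr_subr 31 100 h1) (pr_case (pr_subr 1 10 h1) (pr_sub (pr_csub (enc_pnc _ 1) (pr_scale 110333 100000 h1)) (pr_cmul (enc_norm (bf1q0_3.enc h1.l h2)) (pr_nd (pr_scale 3671 10000 h1)))) (pr_case (pr_subr 21 100 h1) (pr_add (pr_csub (enc_rat _ 11671047 11000000) (pr_scale 188471 110000 h1)) (pr_cmul (enc_norm (bf1q0_3.enc h1.l h2)) (pr_norm (pr_subr 20941 1100000 (pr_neg (pr_scale 243 1375 h1)))))) (pr_add (pr_csub (enc_rat _ 11768691 10000000) (pr_scale 226511 100000 h1)) (pr_cmul (enc_norm (bf1q0_3.enc h1.l h2)) (pr_norm (pr_csub (enc_rat _ 20959 250000) (pr_scale 3333 5000 h1))))))) (pr_case (pr_subr 7 20 h1) (pr_add (pr_csub (enc_rat _ 2217549 2000000) (pr_scale 40909 20000 h1)) (pr_cmul (enc_norm (bf1q0_3.enc h1.l h2)) (pr_norm (pr_csub (enc_rat _ 2137 40000) (pr_scale 1137 2000 h1)))))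 (pr_case (pr_subr 43 100 h1) (pr_add (pr_csub (enc_rat _ 4216803 4000000) (pr_scale 75581 40000 h1)) (pr_cmul (enc_norm (bf1q0_3.enc h1.l h2)) (pr_norm (pr_subr 13677 160000 (pr_neg (pr_scale 1373 8000 h1)))))) (pr_add (pr_csub (enc_rat _ 3738943 3500000) (pr_scale 134557 70000 h1)) (pr_cmul (enc_norm (bf1q0_3.enc h1.l h2)) (pr_norm (pr_subr 46749 140000 (pr_scale 2843 7000 h1)))))))))⟩
noncomputable def kf1q0_fs : Sl2 kf1q0 := ⟨_, fun h1 h2 => (pr_norm (pr_mul (cv1m_fs.snd h1) (bf1q0_fs.snd h1 h2)))⟩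
noncomputable def bx1q0_fs : Sl2 bx1q0 := ⟨_, fun h1 h2 => (pr_norm (pr_case (pr_subr 31 100 h1) (pr_case (pr_subr 1 10 h1) (pr_add (pr_scale 501 4000 h1) (pr_cmul (enc_norm (bx1q0_3.enc h1.l h2)) (pr_nd (pr_scale 11671 10000 h1)))) (pr_case (pr_subr 21 100 h1) (pr_add (pr_addc (pr_scale 1831 27500 h1) (enc_rat _ 12907 2200000)) (pr_cmul (enc_norm (bx1q0_3.enc h1.l h2)) (pr_norm (pr_addc (pr_scale 271 1100 h1) (enc_rat _ 101281 1100000))))) (pr_add (pr_addc (pr_scale 6961 100000 h1) (enc_rat _ 52309 10000000)) (pr_cmul (enc_norm (bx1q0_3.enc h1.l h2)) (pr_norm (pr_subr 16567 1000000 (pr_scale 7637 10000 h1))))))) (pr_case (pr_subr 7 20 h1) (pr_add (pr_subr 123483 2000000 (pr_scale 5713 20000 h1)) (pr_cmul (enc_norm (bx1q0_3.enc h1.l h2)) (pr_norm (pr_subr 15453 200000 (pr_scale 1919 2000 h1))))) (pr_case (pr_subr 43 100 h1) (pr_add (pr_subr 580137 8000000 (pr_scale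 5063 16000 h1)) (pr_cmul (enc_norm (bx1q0_3.enc h1.l h2)) (pr_norm (pr_subr 2941 400000 (pr_scale 3039 4000 h1))))) (pr_add (pr_subr 114267 1750000 (pr_scale 839 2800 h1)) (pr_cmul (enc_norm (bx1q0_3.enc h1.l h2)) (pr_norm (pr_addc (pr_scale 2543 3500 h1) (enc_rat _ 121 17500)))))))))⟩
noncomputable def l1q0_fs : Sl2 l1q0 := ⟨_, fun h1 h2 => (pr_norm (pr_mul (cv1m_fs.snd h1) (bx1q0_fs.snd h1 h2)))⟩
noncomputable def cv2m_fs : Sl1 cv2m := ⟨_, fun h1 => (pr_norm (pr_add (pr_scale 7 10 (c1g_fs.snd h1)) (pr_scale 3 10 (pr_addc (swg_fs.snd h1) (enc_rat _ 1 2)))))⟩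
noncomputable def bf2q0_fs : Sl2 bf2q0 := ⟨_, fun h1 h2 => (pr_norm (pr_case (pr_subr 31 100 h1) (pr_case (pr_subr 4 25 h1) (pr_add (pr_csub (enc_pnc _ 1) (pr_scale 53819 40000 h1)) (pr_cmul (enc_norm (bf2q0_3.enc h1.l h2)) (pr_nd (pr_scale 4183 8000 h1)))) (pr_add (pr_csub (enc_rat _ 4347163 3750000) (pr_scale 43889 18750 h1)) (pr_cmul (enc_norm (bf2q0_3.enc h1.l h2)) (pr_norm (pr_csub (enc_rat _ 192049 750000) (pr_scale 16163 15000 h1)))))) (pr_case (pr_subr 7 20 h1) (pr_add (pr_csub (enc_rat _ 2317063 2000000) (pr_scale 46769 20000 h1)) (pr_cmul (enc_norm (bf2q0_3.enc h1.l h2)) (pr_norm (pr_csub (enc_rat _ 1083 12500) (pr_scale 531 1000 h1))))) (pr_add (pr_csub (enc_rat _ 3427319 3000000) (pr_scale 343871 150000 h1)) (pr_cmul (enc_norm (bf2q0_3.enc h1.l h2)) (pr_norm (pr_subr 919 3750 (pr_scale 6251 15000 h1))))))))⟩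
noncomputable def kf2q0_fs : Sl2 kf2q0 := ⟨_, fun h1 h2 => (pr_norm (pr_mul (cv2m_fs.snd h1) (bf2q0_fs.snd h1 h2)))⟩
noncomputable def bx2q0_fs : Sl2 bx2q0 := ⟨_, fun h1 h2 => (pr_norm (pr_case (pr_subr 31 100 h1) (pr_case (pr_subr 4 25 h1) (pr_add (pr_scale 33629 160000 h1) (pr_cmul (enc_norm (bx2q0_3.enc h1.l h2)) (pr_nd (pr_scale 6359 8000 h1)))) (pr_add (pr_addc (pr_scale 377 3750 h1) (enc_rat _ 52631 3000000)) (pr_cmul (enc_norm (bx2q0_3.enc h1.l h2)) (pr_norm (pr_addc (pr_scale 393 1250 h1) (enc_rat _ 19219 250000)))))) (pr_case (pr_subr 7 20 h1) (pr_add (pr_addc (pr_scale 2351 20000 h1) (enc_rat _ 24537 2000000)) (pr_cmul (enc_norm (bx2q0_3.enc h1.l h2)) (pr_norm (pr_subr 1433 200000 (pr_scale 1171 2000 h1))))) (pr_add (pr_addc (pr_scale 1313 10000 h1) (enc_rat _ 233 31250)) (pr_cmul (enc_norm (bx2q0_3.enc h1.l h2)) (pr_norm (pr_subr 19849 300000 (pr_scale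 11311 15000 h1))))))))⟩
noncomputable def l2q0_fs : Sl2 l2q0 := ⟨_, fun h1 h2 => (pr_norm (pr_mul (cv2m_fs.snd h1) (bx2q0_fs.snd h1 h2)))⟩
noncomputable def cv3m_fs : Sl1 cv3m := ⟨_, fun h1 => (pr_norm (pr_add (pr_scale 2 5 (c1g_fs.snd h1)) (pr_scale 3 5 (pr_addc (swg_fs.snd h1) (enc_rat _ 1 2)))))⟩
noncomputable def bf3q0_fs : Sl2 bf3q0 := ⟨_, fun h1 h2 => (pr_norm (pr_case (pr_subr 31 100 h1) (pr_case (pr_subr 4 25 h1) (pr_add (pr_csub (enc_pnc _ 1) (pr_scale 31367 20000 h1)) (pr_cmul (enc_norm (bf3q0_3.enc h1.l h2)) (pr_nd (pr_scale 28639 16000 h1)))) (pr_add (pr_csub (enc_rat _ 433271 375000) (pr_scale 38093 15000 h1)) (pr_cmul (enc_norm (bf3q0_3.enc h1.l h2)) (pr_norm (pr_csub (enc_rat _ 1044737 1500000) (pr_scale 38447 15000 h1)))))) (pr_case (pr_subr 7 20 h1) (pr_add (pr_csub (enc_rat _ 2312587 2000000) (pr_scale 50849 20000 h1)) (pr_cmul (enc_norm (bf3q0_3.enc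 h1.l h2)) (pr_norm (pr_subr 22001 80000 (pr_scale 2283 4000 h1))))) (pr_add (pr_csub (enc_rat _ 723293 600000) (pr_scale 402451 150000 h1)) (pr_cmul (enc_norm (bf3q0_3.enc h1.l h2)) (pr_norm (pr_subr 12677 20000 (pr_scale 399 250 h1))))))))⟩
noncomputable def kf3q0_fs : Sl2 kf3q0 := ⟨_, fun h1 h2 => (pr_norm (pr_mul (cv3m_fs.snd h1) (bf3q0_fs.snd h1 h2)))⟩
noncomputable def bx3q0_fs : Sl2 bx3q0 := ⟨_, fun h1 h2 => (pr_norm (pr_case (pr_subr 31 100 h1) (pr_case (pr_subr 4 25 h1) (pr_add (pr_scale 28859 80000 h1) (pr_cmul (enc_norm (bx3q0_3.enc h1.l h2)) (pr_nd (pr_scale 9889 16000 h1)))) (pr_add (pr_addc (pr_scale 4811 50000 h1) (enc_rat _ 105807 2500000)) (pr_cmul (enc_norm (bx3q0_3.enc h1.l h2)) (pr_norm (pr_addc (pr_scale 2663 15000 h1) (enc_rat _ 105727 1500000)))))) (pr_case (pr_subr 7 20 h1) (pr_add (pr_csub (enc_rat _ 162561 2000000) (pr_scale 589 20000 h1))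 (pr_cmul (enc_norm (bx3q0_3.enc h1.l h2)) (pr_norm (pr_csub (enc_rat _ 25213 80000) (pr_scale 2447 4000 h1))))) (pr_add (pr_csub (enc_rat _ 10969 125000) (pr_scale 2397 50000 h1)) (pr_cmul (enc_norm (bx3q0_3.enc h1.l h2)) (pr_norm (pr_subr 59509 300000 (pr_scale 1604 1875 h1))))))))⟩
noncomputable def l3q0_fs : Sl2 l3q0 := ⟨_, fun h1 h2 => (pr_norm (pr_mul (cv3m_fs.snd h1) (bx3q0_fs.snd h1 h2)))⟩
noncomputable def cv4m_fs : Sl1 cv4m := ⟨_, fun h1 => (pr_norm (pr_add (pr_scale 1 10 (c1g_fs.snd h1)) (pr_scale 9 10 (pr_addc (swg_fs.snd h1) (enc_rat _ 1 2)))))⟩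
noncomputable def bf4q0_fs : Sl2 bf4q0 := ⟨_, fun h1 h2 => (pr_norm (pr_case (pr_subr 31 100 h1) (pr_case (pr_subr 4 25 h1) (pr_add (pr_csub (enc_pnc _ 1) (pr_scale 71201 40000 h1)) (pr_cmul (enc_norm (bf4q0_3.enc h1.l h2)) (pr_nd (pr_scale 22747 8000 h1)))) (pr_add (pr_csub (enc_rat _ 906713 750000) (pr_scale 92579 30000 h1)) (pr_cmul (enc_norm (bf4q0_3.enc h1.l h2)) (pr_norm (pr_csub (enc_rat _ 852949 750000) (pr_scale 7996 1875 h1)))))) (pr_case (pr_subr 7 20 h1) (pr_add (pr_csub (enc_rat _ 577801 1000000) (pr_scale 21 20 h1)) (pr_cmul (enc_norm (bf4q0_3.enc h1.l h2)) (pr_norm (pr_subr 542771 400000 (pr_scale 121 32 h1))))) (pr_add (pr_csub (enc_rat _ 651861 500000) (pr_scale 156203 50000 h1)) (pr_cmul (enc_norm (bf4q0_3.enc h1.l h2)) (pr_norm (pr_subr 85039 100000 (pr_scale 1167 500 h1))))))))⟩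
noncomputable def kf4q0_fs : Sl2 kf4q0 := ⟨_, fun h1 h2 => (pr_norm (pr_mul (cv4m_fs.snd h1) (bf4q0_fs.snd h1 h2)))⟩
noncomputable def bx4q0_fs : Sl2 bx4q0 := ⟨_, fun h1 h2 => (pr_norm (pr_case (pr_subr 31 100 h1) (pr_case (pr_subr 4 25 h1) (pr_add (pr_scale 251 500 h1) (pr_cmul (enc_norm (bx4q0_3.enc h1.l h2)) (pr_nd (pr_scale 1759 4000 h1)))) (pr_add (pr_addc (pr_scale 1073 18750 h1) (enc_rat _ 16679 234375)) (pr_cmul (enc_norm (bx4q0_3.enc h1.l h2)) (pr_norm (pr_addc (pr_scale 229 1875 h1) (enc_rat _ 19057 375000)))))) (pr_case (pr_subr 7 20 h1) (pr_add (pr_csub (enc_rat _ 539973 4000000) (pr_scale 5947 40000 h1)) (pr_cmul (enc_norm (bx4q0_3.enc h1.l h2)) (pr_norm (pr_csub (enc_rat _ 49359 40000) (pr_scale 7389 2000 h1))))) (pr_add (pr_csub (enc_rat _ 401317 3000000) (pr_scale 10889 75000 h1)) (pr_cmul (enc_norm (bx4q0_3.enc h1.l h2)) (pr_norm (pr_subr 233911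 300000 (pr_scale 30883 15000 h1))))))))⟩
noncomputable def l4q0_fs : Sl2 l4q0 := ⟨_, fun h1 h2 => (pr_norm (pr_mul (cv4m_fs.snd h1) (bx4q0_fs.snd h1 h2)))⟩
noncomputable def kf0q1_10_fs : Sl2 kf0q1_10 := ⟨_, fun h1 h2 => (pr_scale 3 2 h1)⟩
noncomputable def kf0q1_fs : Sl2 kf0q1 := ⟨_, fun h1 h2 => (pr_norm (pr_add (pr_mul (pr_norm (pr_mul (pr_norm (pr_cadd (enc_pnc _ 1) (pr_nat 2 (c1g_fs.snd h1)))) (pr_norm (pr_sub (kf0q1_10_fs.snd h1 h2) (c1g_fs.snd h1))))) (pr_nd (pr_inv (pr_nat 2 (pr_sub (pr_cadd (enc_pnc _ 1) (kf0q1_10_fs.snd h1 h2)) (c1g_fs.snd h1)))))) (pr_mul (pr_norm (pr_subn 1 h1)) (kcg_fs.snd (pr_norm (pr_sub (pr_scale 3 4 h1) (pr_half (c1g_fs.snd h1)))) h2))))⟩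
noncomputable def l0q1_fs : Sl2 l0q1 := ⟨_, fun h1 h2 => (pr_norm (txg_fs.snd (pr_norm (pr_sub (pr_scale 3 4 h1) (pr_half (c1g_fs.snd h1)))) (pr_nd (c1g_fs.snd h1)) h2))⟩
noncomputable def cv4p_fs : Sl1 cv4p := ⟨_, fun h1 => (pr_norm (pr_add (pr_scale 1 10 (c1g_fs.snd h1)) (pr_scale 9 10 (pr_subr 1 2 (swg_fs.snd h1)))))⟩
noncomputable def kf4q2_fs : Sl2 kf4q2 := ⟨_, fun h1 h2 => (pr_norm (pr_mul (cv4p_fs.snd h1) (pr_norm (pr_case (pr_csub (enc_pnc _ 1) (pr_scale 3 4 (pr_sq h1))) (pr_case (pr_subr 127 100 h1) (pr_add (pr_csub (enc_rat _ 122388029 29000000) (pr_scale 35707 11600 h1)) (pr_cmul (enc_norm (kf4q2_4.enc h1.l h2)) (pr_norm (pr_subr 44535723 5800000 (pr_scale 73519 11600 h1))))) (pr_case (pr_subr 69 50 h1) (pr_add (pr_csub (enc_rat _ 5117067 1375000) (pr_scale 1477 550 h1)) (pr_cmul (enc_norm (kf4q2_4.enc h1.l h2)) (pr_norm (pr_subr 4780409 550000 (pr_scale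 78491 11000 h1))))) (pr_add (pr_csub (enc_rat _ 7933193 2000000) (pr_scale 343567 120000 h1)) (pr_cmul (enc_norm (kf4q2_4.enc h1.l h2)) (pr_norm (pr_subr 1837729 50000 (pr_scale 27471 1000 h1))))))) (pr_case (pr_subr 1 4 (c1g_fs.snd h1)) (pr_case (pr_subr 1 10 (c1g_fs.snd h1)) (pr_case (pr_subr 1 20 (c1g_fs.snd h1)) (pr_add (pr_addc (pr_scale 31421 50000 (c1g_fs.snd h1)) (enc_rat _ 665257 1000000)) (pr_cmul (enc_norm (kf4q2_4.enc h1.l h2)) (pr_norm (pr_subr 6579 20000 (pr_scale 2143 1250 (c1g_fs.snd h1)))))) (pr_add (pr_addc (pr_scale 1323 2000 (c1g_fs.snd h1)) (enc_rat _ 663603 1000000)) (pr_cmul (enc_norm (kf4q2_4.enc h1.l h2)) (pr_norm (pr_subr 29819 100000 (pr_scale 687 625 (c1g_fs.snd h1))))))) (pr_case (pr_subr 3 20 (c1g_fs.snd h1)) (pr_add (pr_addc (pr_scale 34687 50000 (c1g_fs.snd h1)) (enc_rat _ 660379 1000000)) (pr_cmul (enc_norm (kf4q2_4.enc h1.l h2))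 (pr_norm (pr_subr 22477 100000 (pr_scale 73 200 (c1g_fs.snd h1)))))) (pr_case (pr_subr 1 5 (c1g_fs.snd h1)) (pr_add (pr_addc (pr_scale 283 400 (c1g_fs.snd h1)) (enc_rat _ 131663 200000)) (pr_cmul (enc_norm (kf4q2_4.enc h1.l h2)) (pr_norm (pr_subr 1717 10000 (pr_scale 7 625 (c1g_fs.snd h1)))))) (pr_add (pr_addc (pr_scale 35413 50000 (c1g_fs.snd h1)) (enc_rat _ 658163 1000000)) (pr_cmul (enc_norm (kf4q2_4.enc h1.l h2)) (pr_norm (pr_subr 1547 10000 (pr_neg (pr_scale 369 5000 (c1g_fs.snd h1)))))))))) (pr_case (pr_subr 7 20 (c1g_fs.snd h1)) (pr_case (pr_subr 3 10 (c1g_fs.snd h1)) (pr_add (pr_addc (pr_scale 34839 50000 (c1g_fs.snd h1)) (enc_rat _ 661033 1000000)) (pr_cmul (enc_norm (kf4q2_4.enc h1.l h2)) (pr_norm (pr_subr 49 250 (pr_scale 457 5000 (c1g_fs.snd h1)))))) (pr_add (pr_addc (pr_scale 6771 10000 (c1g_fs.snd h1)) (enc_rat _ 666937 1000000)) (pr_cmul (enc_norm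 (kf4q2_4.enc h1.l h2)) (pr_norm (pr_subr 7609 25000 (pr_scale 2263 5000 (c1g_fs.snd h1))))))) (pr_case (pr_subr 2 5 (c1g_fs.snd h1)) (pr_add (pr_addc (pr_scale 33163 50000 (c1g_fs.snd h1)) (enc_rat _ 671781 1000000)) (pr_cmul (enc_norm (kf4q2_4.enc h1.l h2)) (pr_norm (pr_subr 22477 50000 (pr_scale 4337 5000 (c1g_fs.snd h1)))))) (pr_case (pr_subr 9 20 (c1g_fs.snd h1)) (pr_add (pr_addc (pr_scale 32401 50000 (c1g_fs.snd h1)) (enc_rat _ 677877 1000000)) (pr_cmul (enc_norm (kf4q2_4.enc h1.l h2)) (pr_norm (pr_subr 27497 50000 (pr_scale 699 625 (c1g_fs.snd h1)))))) (pr_add (pr_addc (pr_scale 15257 25000 (c1g_fs.snd h1)) (enc_rat _ 34743 50000)) (pr_cmul (enc_norm (kf4q2_4.enc h1.l h2)) (pr_norm (pr_subr 2333 5000 (pr_scale 2333 2500 (c1g_fs.snd h1))))))))))))))⟩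
noncomputable def l4q2_fs : Sl2 l4q2 := ⟨_, fun h1 h2 => (pr_norm (pr_mul (cv4p_fs.snd h1) (pr_norm (pr_case (pr_csub (enc_pnc _ 1) (pr_scale 3 4 (pr_sq h1))) (pr_case (pr_subr 127 100 h1) (pr_add (pr_subr 739937 5800000 (pr_scale 1309 14500 h1)) (pr_cmul (enc_norm (l4q2_4.enc h1.l h2)) (pr_norm (pr_subr 55316319 5800000 (pr_scale 91241 11600 h1))))) (pr_case (pr_subr 69 50 h1) (pr_add (pr_subr 1270987 1000000 (pr_scale 4953 5000 h1)) (pr_cmul (enc_norm (l4q2_4.enc h1.l h2)) (pr_norm (pr_subr 5573323 550000 (pr_scale 22921 2750 h1))))) (pr_add (pr_subr 22017 16000 (pr_scale 128009 120000 h1)) (pr_cmul (enc_norm (l4q2_4.enc h1.l h2)) (pr_norm (pr_csub (enc_rat _ 7047 2000) (pr_scale 1171 750 h1))))))) (pr_case (pr_subr 1 4 (c1g_fs.snd h1)) (pr_case (pr_subr 1 10 (c1g_fs.snd h1)) (pr_case (pr_subr 1 20 (c1g_fs.snd h1)) (pr_add (pr_subr 4727 200000 (pr_scale 403 2500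 (c1g_fs.snd h1))) (pr_cmul (enc_norm (l4q2_4.enc h1.l h2)) (pr_norm (pr_subr 44229 100000 (pr_neg (pr_scale 2843 5000 (c1g_fs.snd h1))))))) (pr_add (pr_subr 4651 200000 (pr_scale 96 625 (c1g_fs.snd h1))) (pr_cmul (enc_norm (l4q2_4.enc h1.l h2)) (pr_norm (pr_subr 46157 100000 (pr_neg (pr_scale 183 1000 (c1g_fs.snd h1)))))))) (pr_case (pr_subr 3 20 (c1g_fs.snd h1)) (pr_add (pr_subr 3439 200000 (pr_scale 93 1000 (c1g_fs.snd h1))) (pr_cmul (enc_norm (l4q2_4.enc h1.l h2)) (pr_norm (pr_subr 61287 100000 (pr_scale 133 100 (c1g_fs.snd h1)))))) (pr_case (pr_subr 1 5 (c1g_fs.snd h1)) (pr_add (pr_subr 9989 1000000 (pr_scale 281 6250 (c1g_fs.snd h1))) (pr_cmul (enc_norm (l4q2_4.enc h1.l h2)) (pr_norm (pr_subr 17931 25000 (pr_scale 10129 5000 (c1g_fs.snd h1)))))) (pr_add (pr_subr 4209 1000000 (pr_scale 803 50000 (c1g_fs.snd h1))) (pr_cmul (enc_norm (l4q2_4.enc h1.l h2)) (pr_norm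 (pr_subr 19147 25000 (pr_scale 2269 1000 (c1g_fs.snd h1))))))))) (pr_case (pr_subr 7 20 (c1g_fs.snd h1)) (pr_case (pr_subr 3 10 (c1g_fs.snd h1)) (pr_add (pr_subr 197 500000 (pr_scale 1 1250 (c1g_fs.snd h1))) (pr_cmul (enc_norm (l4q2_4.enc h1.l h2)) (pr_norm (pr_subr 36749 50000 (pr_scale 10727 5000 (c1g_fs.snd h1)))))) (pr_add (pr_csub (enc_rat _ 617 250000) (pr_scale 437 50000 (c1g_fs.snd h1))) (pr_cmul (enc_norm (l4q2_4.enc h1.l h2)) (pr_norm (pr_subr 14431 25000 (pr_scale 4049 2500 (c1g_fs.snd h1))))))) (pr_case (pr_subr 2 5 (c1g_fs.snd h1)) (pr_add (pr_csub (enc_rat _ 387 62500) (pr_scale 969 50000 (c1g_fs.snd h1))) (pr_cmul (enc_norm (l4q2_4.enc h1.l h2)) (pr_norm (pr_subr 11299 50000 (pr_scale 77 125 (c1g_fs.snd h1)))))) (pr_case (pr_subr 9 20 (c1g_fs.snd h1)) (pr_add (pr_csub (enc_rat _ 13 2500) (pr_scale 169 10000 (c1g_fs.snd h1))) (pr_cmul (enc_norm (l4q2_4.enc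 h1.l h2)) (pr_norm (pr_csub (enc_rat _ 2657 50000) (pr_scale 409 5000 (c1g_fs.snd h1)))))) (pr_add (pr_subr 481 20000 (pr_scale 481 10000 (c1g_fs.snd h1))) (pr_cmul (enc_norm (l4q2_4.enc h1.l h2)) (pr_norm (pr_csub (enc_rat _ 1633 10000) (pr_scale 1633 5000 (c1g_fs.snd h1))))))))))))))⟩
noncomputable def dlg : Fn2 := ⟨_, _, fun h1 h2 => (kcg.enc (enc_norm (enc_sub (enc_scale 3 4 h1) (enc_half (c1g.enc h1)))) h2)⟩
noncomputable def kq02 : Fn2 := ⟨_, _, fun h1 h2 => (enc_norm (enc_sub (enc_rat _ 19430391 5000000) (enc_scale 14430391 5000000 (yag.enc h1))))⟩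
noncomputable def lq02 : Fn2 := ⟨_, _, fun h1 h2 => (enc_norm (enc_add (enc_subr 3278224127 1875000000 (enc_scale 18851551 9375000 h2)) (enc_scale 2033 125000 (enc_sq h2))))⟩
noncomputable def cq02 : Fn2 := ⟨_, _, fun h1 h2 => (enc_norm (enc_sub (enc_rat _ 202813 250000) (enc_scale 6213 5000 h2)))⟩
noncomputable def pcE0 : Piece := ⟨Fn3.sc eng rsbq0, rlq0⟩
noncomputable def pcE1 : Piece := ⟨Fn3.sc eng rsbq1, rlq1⟩
noncomputable def pcE2 : Piece := ⟨Fn3.sc eng rsbq2, rlq2⟩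
noncomputable def pcE3 : Piece := ⟨Fn3.sc eng rsbq3, rlq3⟩

end Pool.Agent.Strip051.G.I6500_6900.Tab
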