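import Pool.Agent.Strip051.G.I6500_6900.Tab
import Pool.Agent.Strip051.PB.C12G
import Pool.Agent.Strip051.PB.PairB

/-! # Slopes of the tables near the lattice heights (generated) -/

set_option linter.all false

namespace Pool.Agent.Strip051.G.I6500_6900.Tab

open Pool.Agent.Strip051.PB

attribute [local irreducible] padd psub pneg pmul psq pinv psqrt psqrtg pabs pps pmax pmin pphi plam
  pcase phf pnat prat pscale pnorm pdc pnc pone ppos pnn Enc pbad pzero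

noncomputable def idf_s : Sl1 idf := ⟨fun _ _ D => D, fun h => h⟩

theorem cv1r_two {b : ℝ} (h : b = 2) : cv1r.v b = 0 := by
  have e : swg.v = swn := by funext y; simp [swg, swn]
  subst h
  simp only [cv1r, e, swn_two]
  push_cast
  ring
theorem cv2r_two {b : ℝ} (h : b = 2) : cv2r.v b = 0 := by
  have e : swg.v = swn := by funext y; simp [swg, swn]
  subst h
  simp only [cv2r, e, swn_two]
  push_cast
  ring
theorem cv3r_two {b : ℝ} (h : b = 2) : cv3r.v b = 0 := by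
  have e : swg.v = swn := by funext y; simp [swg, swn]
  subst h
  simp only [cv3r, e, swn_two]
  push_cast
  ring
theorem cv4r_two {b : ℝ} (h : b = 2) : cv4r.v b = 0 := by
  have e : swg.v = swn := by funext y; simp [swg, swn]
  subst h
  simp only [cv4r, e, swn_two]
  push_cast
  ring
noncomputable def c1g_s : Sl1 c1g := ⟨_, fun h1 => (pr_sqrtgz (pr_csub (enc_pnc _ 1) (pr_scale 3 4 (pr_sq h1))))⟩
noncomputable def kcg_6_s : Sl2 kcg_6 := ⟨_, fun h1 h2 => (pr_addc h1 (enc_rat _ 1 4))⟩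
noncomputable def kcg_9_s : Sl2 kcg_9 := ⟨_, fun h1 h2 => (pr_addc h1 (enc_rat _ 2 5))⟩
noncomputable def kcg_12_s : Sl2 kcg_12 := ⟨_, fun h1 h2 => (pr_addc h1 (enc_rat _ 9 20))⟩
noncomputable def kcg_13_s : Sl2 kcg_13 := ⟨_, fun h1 h2 => (pr_scale 3056867 2500000 h1)⟩
noncomputable def kcg_16_s : Sl2 kcg_16 := ⟨_, fun h1 h2 => (pr_scale 688599 125000 h1)⟩
noncomputable def kcg_36_s : Sl2 kcg_36 := ⟨_, fun h1 h2 => (pr_scale 233807 156250 h1)⟩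
noncomputable def kcg_41_s : Sl2 kcg_41 := ⟨_, fun h1 h2 => (pr_scale 1 12500 h1)⟩
noncomputable def kcg_59_s : Sl2 kcg_59 := ⟨_, fun h1 h2 => (pr_addc h1 (enc_rat _ 7 20))⟩
noncomputable def kcg_60_s : Sl2 kcg_60 := ⟨_, fun h1 h2 => (pr_scale 14791463 5000000 h1)⟩
noncomputable def kcg_65_s : Sl2 kcg_65 := ⟨_, fun h1 h2 => (pr_scale 1 4000 h1)⟩
noncomputable def kcg_84_s : Sl2 kcg_84 := ⟨_, fun h1 h2 => (pr_addc h1 (enc_rat _ 3 10))⟩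
noncomputable def kcg_85_s : Sl2 kcg_85 := ⟨_, fun h1 h2 => (pr_scale 477581 200000 h1)⟩
noncomputable def kcg_90_s : Sl2 kcg_90 := ⟨_, fun h1 h2 => (pr_scale 17 100000 h1)⟩
noncomputable def kcg_106_s : Sl2 kcg_106 := ⟨_, fun h1 h2 => (pr_scale 3760737 5000000 h1)⟩
noncomputable def kcg_111_s : Sl2 kcg_111 := ⟨_, fun h1 h2 => (pr_scale 3 31250 h1)⟩
noncomputable def kcg_133_s : Sl2 kcg_133 := ⟨_, fun h1 h2 => (pr_addc h1 (enc_rat _ 3 20))⟩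
noncomputable def kcg_136_s : Sl2 kcg_136 := ⟨_, fun h1 h2 => (pr_addc h1 (enc_rat _ 1 5))⟩
noncomputable def kcg_137_s : Sl2 kcg_137 := ⟨_, fun h1 h2 => (pr_scale 3145841 2500000 h1)⟩
noncomputable def kcg_141_s : Sl2 kcg_141 := ⟨_, fun h1 h2 => (pr_scale 3911 500000 h1)⟩
noncomputable def kcg_158_s : Sl2 kcg_158 := ⟨_, fun h1 h2 => (pr_scale 360363 125000 h1)⟩
noncomputable def kcg_161_s : Sl2 kcg_161 := ⟨_, fun h1 h2 => (pr_scale 1 250000 h1)⟩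
noncomputable def kcg_179_s : Sl2 kcg_179 := ⟨_, fun h1 h2 => (pr_addc h1 (enc_rat _ 1 10))⟩
noncomputable def kcg_180_s : Sl2 kcg_180 := ⟨_, fun h1 h2 => (pr_scale 10567199 5000000 h1)⟩
noncomputable def kcg_184_s : Sl2 kcg_184 := ⟨_, fun h1 h2 => (pr_scale 499217 100000 h1)⟩
noncomputable def kcg_202_s : Sl2 kcg_202 := ⟨_, fun h1 h2 => (pr_scale 12083379 5000000 h1)⟩
noncomputable def kcg_206_s : Sl2 kcg_206 := ⟨_, fun h1 h2 => (pr_scale 2499999 500000 h1)⟩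
noncomputable def kcg_220_s : Sl2 kcg_220 := ⟨_, fun h1 h2 => (pr_scale 14430391 5000000 h1)⟩
noncomputable def kcg_227_s : Sl2 kcg_227 := ⟨_, fun h1 h2 => (pr_csub (enc_rat _ 1 4) h1)⟩
noncomputable def kcg_228_s : Sl2 kcg_228 := ⟨_, fun h1 h2 => (pr_csub (enc_rat _ 2 5) h1)⟩
noncomputable def kcg_229_s : Sl2 kcg_229 := ⟨_, fun h1 h2 => (pr_csub (enc_rat _ 9 20) h1)⟩
noncomputable def kcg_249_s : Sl2 kcg_249 := ⟨_, fun h1 h2 => (pr_csub (enc_rat _ 7 20) h1)⟩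
noncomputable def kcg_258_s : Sl2 kcg_258 := ⟨_, fun h1 h2 => (pr_csub (enc_rat _ 3 10) h1)⟩
noncomputable def kcg_278_s : Sl2 kcg_278 := ⟨_, fun h1 h2 => (pr_csub (enc_rat _ 3 20) h1)⟩
noncomputable def kcg_279_s : Sl2 kcg_279 := ⟨_, fun h1 h2 => (pr_csub (enc_rat _ 1 5) h1)⟩
noncomputable def kcg_300_s : Sl2 kcg_300 := ⟨_, fun h1 h2 => (pr_csub (enc_rat _ 1 10) h1)⟩
noncomputable def kcg_s : Sl2 kcg := ⟨_, fun h1 h2 => (pr_norm (pr_case h1 (pr_case (kcg_6_s.snd h1 h2) (pr_case (kcg_9_s.snd h1 h2) (pr_case (kcg_12_s.snd h1 h2) (pr_add (pr_add (pr_addc (kcg_13_s.snd h1 h2) (enc_rat _ 137539 390625)) (pr_cmul (enc_norm (kcg_3.enc h1.l h2)) (pr_norm (pr_subr 29789259 10000000 (pr_neg (kcg_16_s.snd h1 h2)))))) (pr_cmul (enc_norm (kcg_28.enc h1.l h2)) (pr_norm (pr_mul (pr_norm (pr_addc h1 (enc_rat _ 1 2))) (pr_norm (pr_csub (enc_neg (enc_rat _ 9 20)) h1))))))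 (pr_add (pr_add (pr_subr 43575019 50000000 (pr_neg (kcg_36_s.snd h1 h2))) (pr_cmul (enc_norm (kcg_3.enc h1.l h2)) (pr_norm (pr_subr 1000011 2000000 (pr_neg (kcg_41_s.snd h1 h2)))))) (pr_cmul (enc_norm (kcg_51.enc h1.l h2)) (pr_norm (pr_mul (pr_norm (kcg_12_s.snd h1 h2)) (pr_norm (pr_csub (enc_neg (enc_rat _ 2 5)) h1))))))) (pr_case (kcg_59_s.snd h1 h2) (pr_add (pr_add (pr_subr 2912543 2000000 (pr_neg (kcg_60_s.snd h1 h2))) (pr_cmul (enc_norm (kcg_3.enc h1.l h2)) (pr_norm (pr_subr 1000147 2000000 (pr_neg (kcg_65_s.snd h1 h2)))))) (pr_cmul (enc_norm (kcg_77.enc h1.l h2)) (pr_norm (pr_mul (pr_norm (kcg_9_s.snd h1 h2)) (pr_norm (pr_csub (enc_neg (enc_rat _ 7 20)) h1)))))) (pr_case (kcg_84_s.snd h1 h2) (pr_add (pr_add (pr_subr 3926987 3125000 (pr_neg (kcg_85_s.snd h1 h2))) (pr_cmul (enc_norm (kcg_3.enc h1.l h2)) (pr_norm (pr_subr 1000091 2000000 (pr_neg (kcg_90_s.snd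 h1 h2)))))) (pr_cmul (enc_norm (kcg_101.enc h1.l h2)) (pr_norm (pr_mul (pr_norm (kcg_59_s.snd h1 h2)) (pr_norm (pr_csub (enc_neg (enc_rat _ 3 10)) h1)))))) (pr_add (pr_add (pr_subr 9573857 12500000 (pr_neg (kcg_106_s.snd h1 h2))) (pr_cmul (enc_norm (kcg_3.enc h1.l h2)) (pr_norm (pr_subr 5000233 10000000 (pr_neg (kcg_111_s.snd h1 h2)))))) (pr_cmul (enc_norm (kcg_123.enc h1.l h2)) (pr_norm (pr_mul (pr_norm (kcg_84_s.snd h1 h2)) (pr_norm (pr_csub (enc_neg (enc_rat _ 1 4)) h1))))))))) (pr_case (kcg_133_s.snd h1 h2) (pr_case (kcg_136_s.snd h1 h2) (pr_add (pr_add (pr_subr 26328761 100000000 (kcg_137_s.snd h1 h2)) (pr_cmul (enc_norm (kcg_3.enc h1.l h2)) (pr_norm (pr_subr 2490219 5000000 (kcg_141_s.snd h1 h2))))) (pr_cmul (enc_norm (kcg_153.enc h1.l h2)) (pr_norm (pr_mul (pr_norm (kcg_6_s.snd h1 h2)) (pr_norm (pr_csub (enc_neg (enc_rat _ 1 5)) h1)))))) (pr_add (pr_add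 (pr_addc (kcg_158_s.snd h1 h2) (enc_rat _ 6162591 100000000)) (pr_cmul (enc_norm (kcg_3.enc h1.l h2)) (pr_norm (pr_subr 499609 1000000 (pr_neg (kcg_161_s.snd h1 h2)))))) (pr_cmul (enc_norm (kcg_171.enc h1.l h2)) (pr_norm (pr_mul (pr_norm (kcg_136_s.snd h1 h2)) (pr_norm (pr_csub (enc_neg (enc_rat _ 3 20)) h1))))))) (pr_case (kcg_179_s.snd h1 h2) (pr_add (pr_add (pr_subr 1344843 25000000 (kcg_180_s.snd h1 h2)) (pr_cmul (enc_norm (kcg_3.enc h1.l h2)) (pr_norm (pr_addc (kcg_184_s.snd h1 h2) (enc_rat _ 2492171 10000000))))) (pr_cmul (enc_norm (kcg_194.enc h1.l h2)) (pr_norm (pr_mul (pr_norm (kcg_133_s.snd h1 h2)) (pr_norm (pr_csub (enc_neg (enc_rat _ 1 10)) h1)))))) (pr_case (pr_addc h1 (enc_rat _ 1 20)) (pr_add (pr_add (pr_subr 586753 25000000 (kcg_202_s.snd h1 h2)) (pr_cmul (enc_norm (kcg_3.enc h1.l h2)) (pr_norm (pr_addc (kcg_206_s.snd h1 h2) (enc_rat _ 2499999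 10000000))))) (pr_cmul (enc_norm (kcg_215.enc h1.l h2)) (pr_norm (pr_mul (pr_norm (kcg_179_s.snd h1 h2)) (pr_norm (pr_csub (enc_neg (enc_rat _ 1 20)) h1)))))) (kcg_220_s.snd h1 h2))))) (pr_neg (pr_case (kcg_227_s.snd h1 h2) (pr_case (kcg_228_s.snd h1 h2) (pr_case (kcg_229_s.snd h1 h2) (pr_add (pr_add (pr_csub (enc_rat _ 137539 390625) (kcg_13_s.snd h1 h2)) (pr_cmul (enc_norm (kcg_3.enc h1.l h2)) (pr_norm (pr_subr 29789259 10000000 (kcg_16_s.snd h1 h2))))) (pr_cmul (enc_norm (kcg_28.enc h1.l h2)) (pr_norm (pr_mul (pr_norm (pr_csub (enc_rat _ 1 2) h1)) (pr_norm (pr_subr 9 20 h1)))))) (pr_add (pr_add (pr_subr 43575019 50000000 (kcg_36_s.snd h1 h2)) (pr_cmul (enc_norm (kcg_3.enc h1.l h2)) (pr_norm (pr_subr 1000011 2000000 (kcg_41_s.snd h1 h2))))) (pr_cmul (enc_norm (kcg_51.enc h1.l h2)) (pr_norm (pr_mul (pr_norm (kcg_229_s.snd h1 h2)) (pr_norm (pr_subr 2 5 h1)))))))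 (pr_case (kcg_249_s.snd h1 h2) (pr_add (pr_add (pr_subr 2912543 2000000 (kcg_60_s.snd h1 h2)) (pr_cmul (enc_norm (kcg_3.enc h1.l h2)) (pr_norm (pr_subr 1000147 2000000 (kcg_65_s.snd h1 h2))))) (pr_cmul (enc_norm (kcg_77.enc h1.l h2)) (pr_norm (pr_mul (pr_norm (kcg_228_s.snd h1 h2)) (pr_norm (pr_subr 7 20 h1)))))) (pr_case (kcg_258_s.snd h1 h2) (pr_add (pr_add (pr_subr 3926987 3125000 (kcg_85_s.snd h1 h2)) (pr_cmul (enc_norm (kcg_3.enc h1.l h2)) (pr_norm (pr_subr 1000091 2000000 (kcg_90_s.snd h1 h2))))) (pr_cmul (enc_norm (kcg_101.enc h1.l h2)) (pr_norm (pr_mul (pr_norm (kcg_249_s.snd h1 h2)) (pr_norm (pr_subr 3 10 h1)))))) (pr_add (pr_add (pr_subr 9573857 12500000 (kcg_106_s.snd h1 h2)) (pr_cmul (enc_norm (kcg_3.enc h1.l h2)) (pr_norm (pr_subr 5000233 10000000 (kcg_111_s.snd h1 h2))))) (pr_cmul (enc_norm (kcg_123.enc h1.l h2)) (pr_norm (pr_mul (pr_norm (kcg_258_s.snd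 h1 h2)) (pr_norm (pr_subr 1 4 h1))))))))) (pr_case (kcg_278_s.snd h1 h2) (pr_case (kcg_279_s.snd h1 h2) (pr_add (pr_add (pr_subr 26328761 100000000 (pr_neg (kcg_137_s.snd h1 h2))) (pr_cmul (enc_norm (kcg_3.enc h1.l h2)) (pr_norm (pr_subr 2490219 5000000 (pr_neg (kcg_141_s.snd h1 h2)))))) (pr_cmul (enc_norm (kcg_153.enc h1.l h2)) (pr_norm (pr_mul (pr_norm (kcg_227_s.snd h1 h2)) (pr_norm (pr_subr 1 5 h1)))))) (pr_add (pr_add (pr_csub (enc_rat _ 6162591 100000000) (kcg_158_s.snd h1 h2)) (pr_cmul (enc_norm (kcg_3.enc h1.l h2)) (pr_norm (pr_subr 499609 1000000 (kcg_161_s.snd h1 h2))))) (pr_cmul (enc_norm (kcg_171.enc h1.l h2)) (pr_norm (pr_mul (pr_norm (kcg_279_s.snd h1 h2)) (pr_norm (pr_subr 3 20 h1))))))) (pr_case (kcg_300_s.snd h1 h2) (pr_add (pr_add (pr_subr 1344843 25000000 (pr_neg (kcg_180_s.snd h1 h2))) (pr_cmul (enc_norm (kcg_3.enc h1.l h2)) (pr_norm (pr_csub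 (enc_rat _ 2492171 10000000) (kcg_184_s.snd h1 h2))))) (pr_cmul (enc_norm (kcg_194.enc h1.l h2)) (pr_norm (pr_mul (pr_norm (kcg_278_s.snd h1 h2)) (pr_norm (pr_subr 1 10 h1)))))) (pr_case (pr_csub (enc_rat _ 1 20) h1) (pr_add (pr_add (pr_subr 586753 25000000 (pr_neg (kcg_202_s.snd h1 h2))) (pr_cmul (enc_norm (kcg_3.enc h1.l h2)) (pr_norm (pr_csub (enc_rat _ 2499999 10000000) (kcg_206_s.snd h1 h2))))) (pr_cmul (enc_norm (kcg_215.enc h1.l h2)) (pr_norm (pr_mul (pr_norm (kcg_300_s.snd h1 h2)) (pr_norm (pr_subr 1 20 h1)))))) (pr_neg (kcg_220_s.snd h1 h2)))))))))⟩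
noncomputable def kf0q0_9_s : Sl2 kf0q0_9 := ⟨_, fun h1 h2 => (pr_scale 3 2 h1)⟩
noncomputable def kf0q0_12_s : Sl2 kf0q0_12 := ⟨_, fun h1 h2 => (pr_cadd (enc_pnc _ 1) (c1g_s.snd h1))⟩
noncomputable def kf0q0_s : Sl2 kf0q0 := ⟨_, fun h1 h2 => (pr_norm (pr_add (pr_mul (pr_norm (pr_mul (pr_norm (pr_sub (c1g_s.snd h1) (kf0q0_9_s.snd h1 h2))) (pr_norm (kf0q0_12_s.snd h1 h2)))) (pr_nd (pr_inv (pr_sub (kf0q0_12_s.snd h1 h2) (kf0q0_9_s.snd h1 h2))))) (pr_mul h1 (kcg_s.snd (pr_norm (pr_sub (pr_scale 3 4 h1) (pr_half (c1g_s.snd h1)))) h2))))⟩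
noncomputable def txg_6_s : Sl3 txg_6 := ⟨_, fun h1 h2 h3 => (pr_add h1 (pr_half h2))⟩
noncomputable def txg_26_s : Sl3 txg_26 := ⟨_, fun h1 h2 h3 => (pr_addc h1 (enc_rat _ 1 4))⟩
noncomputable def txg_29_s : Sl3 txg_29 := ⟨_, fun h1 h2 h3 => (pr_addc h1 (enc_rat _ 2 5))⟩
noncomputable def txg_32_s : Sl3 txg_32 := ⟨_, fun h1 h2 h3 => (pr_addc h1 (enc_rat _ 47 100))⟩
noncomputable def txg_55_s : Sl3 txg_55 := ⟨_, fun h1 h2 h3 => (pr_addc h1 (enc_rat _ 11 25))⟩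
noncomputable def txg_95_s : Sl3 txg_95 := ⟨_, fun h1 h2 h3 => (pr_addc h1 (enc_rat _ 33 100))⟩
noncomputable def txg_98_s : Sl3 txg_98 := ⟨_, fun h1 h2 h3 => (pr_addc h1 (enc_rat _ 9 25))⟩
noncomputable def txg_139_s : Sl3 txg_139 := ⟨_, fun h1 h2 h3 => (pr_addc h1 (enc_rat _ 29 100))⟩
noncomputable def txg_183_s : Sl3 txg_183 := ⟨_, fun h1 h2 h3 => (pr_addc h1 (enc_rat _ 1 10))⟩
noncomputable def txg_186_s : Sl3 txg_186 := ⟨_, fun h1 h2 h3 => (pr_addc h1 (enc_rat _ 9 50))⟩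
noncomputable def txg_189_s : Sl3 txg_189 := ⟨_, fun h1 h2 h3 => (pr_addc h1 (enc_rat _ 21 100))⟩
noncomputable def txg_226_s : Sl3 txg_226 := ⟨_, fun h1 h2 h3 => (pr_addc h1 (enc_rat _ 7 50))⟩
noncomputable def txg_265_s : Sl3 txg_265 := ⟨_, fun h1 h2 h3 => (pr_addc h1 (enc_rat _ 1 50))⟩
noncomputable def txg_268_s : Sl3 txg_268 := ⟨_, fun h1 h2 h3 => (pr_addc h1 (enc_rat _ 3 50))⟩
noncomputable def txg_307_s : Sl3 txg_307 := ⟨_, fun h1 h2 h3 => (pr_subr 1 100 h1)⟩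
noncomputable def txg_363_s : Sl3 txg_363 := ⟨_, fun h1 h2 h3 => (pr_subr 1 7 h1)⟩
noncomputable def txg_365_s : Sl3 txg_365 := ⟨_, fun h1 h2 h3 => (pr_subr 3 10 h1)⟩
noncomputable def txg_367_s : Sl3 txg_367 := ⟨_, fun h1 h2 h3 => (pr_subr 1 5 h1)⟩
noncomputable def txg_369_s : Sl3 txg_369 := ⟨_, fun h1 h2 h3 => (pr_subr 163 1000 h1)⟩
noncomputable def txg_419_s : Sl3 txg_419 := ⟨_, fun h1 h2 h3 => (pr_subr 1 4 h1)⟩
noncomputable def txg_462_s : Sl3 txg_462 := ⟨_, fun h1 h2 h3 => (pr_subr 2 5 h1)⟩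
noncomputable def txg_464_s : Sl3 txg_464 := ⟨_, fun h1 h2 h3 => (pr_subr 7 20 h1)⟩
noncomputable def txg_506_s : Sl3 txg_506 := ⟨_, fun h1 h2 h3 => (pr_subr 9 20 h1)⟩
noncomputable def txg_s : Sl3 txg := ⟨_, fun h1 h2 h3 => (pr_case (pr_subr 47 914 h1) (pr_case (txg_26_s.snd h1 h2 h3) (pr_case (txg_29_s.snd h1 h2 h3) (pr_case (txg_32_s.snd h1 h2 h3) (pr_add (pr_add (pr_addc (pr_scale 373861 3000000 h1) (enc_rat _ 373861 6000000)) (pr_cmul (enc_norm (txg_4.enc h1.l h2.l h3)) (pr_norm (pr_addc (pr_scale 590579 300000 h1) (enc_rat _ 590579 600000))))) (pr_cmul (enc_norm (enc_subr 279629 200000 (enc_scale 817299 50000 (txg_4.enc h1.l h2.l h3)))) (pr_norm (pr_mul (pr_norm (pr_addc h1 (enc_rat _ 1 2))) (pr_norm (pr_csub (enc_neg (enc_rat _ 47 100)) h1)))))) (pr_case (txg_55_s.snd h1 h2 h3) (pr_add (pr_add (pr_addc (pr_scale 539651 3000000 h1) (enc_rat _ 1324259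 15000000)) (pr_cmul (enc_norm (txg_4.enc h1.l h2.l h3)) (pr_norm (pr_addc (pr_scale 338921 300000 h1) (enc_rat _ 553157 937500))))) (pr_cmul (enc_norm (enc_subr 443961 1000000 (enc_scale 1161591 100000 (txg_4.enc h1.l h2.l h3)))) (pr_norm (pr_mul (pr_norm (txg_32_s.snd h1 h2 h3)) (pr_norm (pr_csub (enc_neg (enc_rat _ 11 25)) h1)))))) (pr_add (pr_add (pr_addc (pr_scale 103269 2000000 h1) (enc_rat _ 318543 10000000)) (pr_cmul (enc_norm (txg_4.enc h1.l h2.l h3)) (pr_norm (pr_addc (pr_scale 346331 400000 h1) (enc_rat _ 4739141 10000000))))) (pr_cmul (enc_norm (enc_sub (enc_rat _ 3539203 1000000) (enc_scale 105707 50000 (txg_4.enc h1.l h2.l h3)))) (pr_norm (pr_mul (pr_norm (txg_55_s.snd h1 h2 h3)) (pr_norm (pr_csub (enc_neg (enc_rat _ 2 5)) h1)))))))) (pr_case (txg_95_s.snd h1 h2 h3) (pr_case (txg_98_s.snd h1 h2 h3) (pr_add (pr_add (pr_subr 127081 10000000 (pr_neg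 (pr_scale 119543 2000000 h1))) (pr_cmul (enc_norm (txg_4.enc h1.l h2.l h3)) (pr_norm (pr_addc (pr_scale 7093 12500 h1) (enc_rat _ 3545591 10000000))))) (pr_cmul (enc_norm (enc_subr 754063 1000000 (enc_scale 191477 20000 (txg_4.enc h1.l h2.l h3)))) (pr_norm (pr_mul (pr_norm (txg_29_s.snd h1 h2 h3)) (pr_norm (pr_csub (enc_neg (enc_rat _ 9 25)) h1)))))) (pr_add (pr_add (pr_subr 23957 3125000 (pr_neg (pr_scale 137299 3000000 h1))) (pr_cmul (enc_norm (txg_4.enc h1.l h2.l h3)) (pr_norm (pr_addc (pr_scale 3101 25000 h1) (enc_rat _ 1949351 10000000))))) (pr_cmul (enc_norm (enc_add (enc_scale 201481 100000 (txg_4.enc h1.l h2.l h3)) (enc_rat _ 538591 1000000))) (pr_norm (pr_mul (pr_norm (txg_98_s.snd h1 h2 h3)) (pr_norm (pr_csub (enc_neg (enc_rat _ 33 100)) h1))))))) (pr_case (txg_139_s.snd h1 h2 h3) (pr_add (pr_add (pr_addc (pr_scale 12549 1000000 h1) (enc_rat _ 578891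 50000000)) (pr_cmul (enc_norm (txg_4.enc h1.l h2.l h3)) (pr_norm (pr_addc (pr_scale 234121 400000 h1) (enc_rat _ 13886069 40000000))))) (pr_cmul (enc_norm (enc_subr 465457 250000 (enc_neg (enc_scale 81517 6250 (txg_4.enc h1.l h2.l h3))))) (pr_norm (pr_mul (pr_norm (txg_95_s.snd h1 h2 h3)) (pr_norm (pr_csub (enc_neg (enc_rat _ 29 100)) h1)))))) (pr_add (pr_add (pr_addc (pr_scale 639917 4000000 h1) (enc_rat _ 21733037 400000000)) (pr_cmul (enc_norm (txg_4.enc h1.l h2.l h3)) (pr_norm (pr_addc (pr_scale 614503 400000 h1) (enc_rat _ 24917147 40000000))))) (pr_cmul (enc_norm (enc_subr 1823933 1000000 (enc_neg (enc_scale 107311 10000 (txg_4.enc h1.l h2.l h3))))) (pr_norm (pr_mul (pr_norm (txg_139_s.snd h1 h2 h3)) (pr_norm (pr_csub (enc_neg (enc_rat _ 1 4)) h1))))))))) (pr_case (txg_183_s.snd h1 h2 h3) (pr_case (txg_186_s.snd h1 h2 h3) (pr_case (txg_189_s.snd h1 h2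 h3) (pr_add (pr_add (pr_addc (pr_scale 1485269 4000000 h1) (enc_rat _ 42866837 400000000)) (pr_cmul (enc_norm (txg_4.enc h1.l h2.l h3)) (pr_norm (pr_addc (pr_scale 132333 100000 h1) (enc_rat _ 712121 1250000))))) (pr_cmul (enc_norm (enc_subr 691903 200000 (enc_scale 401357 25000 (txg_4.enc h1.l h2.l h3)))) (pr_norm (pr_mul (pr_norm (txg_26_s.snd h1 h2 h3)) (pr_norm (pr_csub (enc_neg (enc_rat _ 21 100)) h1)))))) (pr_add (pr_add (pr_addc (pr_scale 4753 9375 h1) (enc_rat _ 13565767 100000000)) (pr_cmul (enc_norm (txg_4.enc h1.l h2.l h3)) (pr_norm (pr_addc (pr_scale 105449 300000 h1) (enc_rat _ 1828059 5000000))))) (pr_cmul (enc_norm (enc_add (enc_scale 274719 25000 (txg_4.enc h1.l h2.l h3)) (enc_rat _ 45189 500000))) (pr_norm (pr_mul (pr_norm (txg_189_s.snd h1 h2 h3)) (pr_norm (pr_csub (enc_neg (enc_rat _ 9 50)) h1))))))) (pr_case (txg_226_s.snd h1 h2 h3) (pr_add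 (pr_add (pr_addc (pr_scale 441297 1000000 h1) (enc_rat _ 12383353 100000000)) (pr_cmul (enc_norm (txg_4.enc h1.l h2.l h3)) (pr_norm (pr_csub (enc_rat _ 22833 78125) (pr_scale 7 125 h1))))) (pr_cmul (enc_norm (enc_add (enc_scale 9729 5000 (txg_4.enc h1.l h2.l h3)) (enc_rat _ 1574453 1000000))) (pr_norm (pr_mul (pr_norm (txg_186_s.snd h1 h2 h3)) (pr_norm (pr_csub (enc_neg (enc_rat _ 7 50)) h1)))))) (pr_add (pr_add (pr_addc (pr_scale 5713 15625 h1) (enc_rat _ 11324043 100000000)) (pr_cmul (enc_norm (txg_4.enc h1.l h2.l h3)) (pr_norm (pr_csub (enc_rat _ 2025693 10000000) (pr_scale 139333 200000 h1))))) (pr_cmul (enc_norm (enc_add (enc_scale 1407089 100000 (txg_4.enc h1.l h2.l h3)) (enc_rat _ 317173 1000000))) (pr_norm (pr_mul (pr_norm (txg_226_s.snd h1 h2 h3)) (pr_norm (pr_csub (enc_neg (enc_rat _ 1 10)) h1)))))))) (pr_case (txg_265_s.snd h1 h2 h3) (pr_case (txg_268_s.snd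 h1 h2 h3) (pr_add (pr_add (pr_addc (pr_scale 1170913 4000000 h1) (enc_rat _ 21190011 200000000)) (pr_cmul (enc_norm (txg_4.enc h1.l h2.l h3)) (pr_norm (pr_csub (enc_rat _ 165169 5000000) (pr_scale 119601 50000 h1))))) (pr_cmul (enc_norm (enc_add (enc_scale 283129 10000 (txg_4.enc h1.l h2.l h3)) (enc_rat _ 1505427 1000000))) (pr_norm (pr_mul (pr_norm (txg_183_s.snd h1 h2 h3)) (pr_norm (pr_csub (enc_neg (enc_rat _ 3 50)) h1)))))) (pr_add (pr_add (pr_addc (pr_scale 881051 4000000 h1) (enc_rat _ 812817 8000000)) (pr_cmul (enc_norm (txg_4.enc h1.l h2.l h3)) (pr_norm (pr_csub (enc_rat _ 575977 20000000) (pr_scale 985041 400000 h1))))) (pr_cmul (enc_norm (enc_sub (enc_rat _ 9569 31250) (enc_scale 106193 4000 (txg_4.enc h1.l h2.l h3)))) (pr_norm (pr_mul (pr_norm (txg_268_s.snd h1 h2 h3)) (pr_norm (pr_csub (enc_neg (enc_rat _ 1 50)) h1))))))) (pr_case (txg_307_s.snd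 h1 h2 h3) (pr_add (pr_add (pr_addc (pr_scale 199689 1000000 h1) (enc_rat _ 2023813 20000000)) (pr_cmul (enc_norm (txg_4.enc h1.l h2.l h3)) (pr_norm (pr_csub (enc_rat _ 334817 6000000) (pr_scale 333721 300000 h1))))) (pr_cmul (enc_norm (enc_add (enc_mul (enc_norm (enc_subr 120113 12500 (enc_scale 2033 2500 (txg_4.enc h1.l h2.l h3)))) (enc_norm (txg_4.enc h1.l h2.l h3))) (enc_rat _ 277511 1000000))) (pr_norm (pr_mul (pr_norm (txg_265_s.snd h1 h2 h3)) (pr_norm (pr_csub (enc_rat _ 1 100) h1)))))) (pr_add (pr_add (pr_add (pr_addc (pr_scale 85265194596839057 451688696872500000 h1) (enc_rat _ 285974959563191113 2823054355453125000)) (pr_cmul (enc_norm (txg_4.enc h1.l h2.l h3)) (pr_norm (pr_addc (pr_scale 1706327422612403 90337739374500000 h1) (enc_rat _ 401911851573928657 9033773937450000000))))) (pr_cmul (txg_341.enc h1.l h2.l h3) (pr_norm (pr_subr 985832939 65891859500000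 (pr_scale 985832939 658918595000 h1))))) (pr_cmul (enc_norm (enc_add (enc_mul (enc_norm (enc_subr 127199 6250 (enc_neg (enc_scale 8203 5000 (txg_4.enc h1.l h2.l h3))))) (enc_norm (txg_4.enc h1.l h2.l h3))) (enc_rat _ 31309 500000))) (pr_norm (pr_mul (pr_norm (txg_307_s.snd h1 h2 h3)) (pr_norm (pr_csub (enc_rat _ 47 914) h1)))))))))) (pr_case (txg_363_s.snd h1 h2 h3) (pr_sub (pr_mul (pr_norm (pr_csub (enc_pnc _ 1) h2)) (pr_norm (pr_subn 1 (pr_nat 2 h2)))) (pr_mul (pr_norm (pr_nat 2 (pr_subc (pr_scale 4 3 (txg_6_s.snd h1 h2 h3)) h3))) (pr_norm (pr_mul (pr_norm (pr_subn 1 (pr_add (pr_scale 2 3 (txg_6_s.snd h1 h2 h3)) h2))) (kcg_s.snd h1 h3))))) (pr_case (txg_365_s.snd h1 h2 h3) (pr_case (txg_367_s.snd h1 h2 h3) (pr_case (txg_369_s.snd h1 h2 h3) (pr_add (pr_add (pr_add (pr_csub (enc_rat _ 3141210105923 24181500000000) (pr_scale 1010577913 12090750000 h1)) (pr_cmul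 (enc_norm (txg_4.enc h1.l h2.l h3)) (pr_norm (pr_addc (pr_scale 215144023 690900000 h1) (enc_rat _ 34958315561 690900000000))))) (pr_cmul (txg_341.enc h1.l h2.l h3) (pr_norm (pr_csub (enc_rat _ 376233503 329000000) (pr_scale 2308181 329000 h1))))) (pr_cmul (enc_norm (enc_add (enc_mul (enc_norm (enc_add (enc_scale 327037 2500 (txg_4.enc h1.l h2.l h3)) (enc_rat _ 13499 4000))) (enc_norm (txg_4.enc h1.l h2.l h3))) (enc_rat _ 2828017 1000000))) (pr_norm (pr_mul (pr_norm (txg_363_s.snd h1 h2 h3)) (pr_norm (pr_csub (enc_rat _ 163 1000) h1)))))) (pr_add (pr_add (pr_csub (enc_rat _ 73770793 462500000) (pr_scale 981227 3700000 h1)) (pr_cmul (enc_norm (txg_4.enc h1.l h2.l h3)) (pr_norm (pr_addc (pr_scale 20599 370000 h1) (enc_rat _ 17072023 185000000))))) (pr_cmul (enc_norm (enc_add (enc_mul (enc_norm (enc_sub (enc_rat _ 253711 50000) (enc_scale 679799 10000 (txg_4.enc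 h1.l h2.l h3)))) (enc_norm (txg_4.enc h1.l h2.l h3))) (enc_rat _ 3368909 1000000))) (pr_norm (pr_mul (pr_norm (txg_369_s.snd h1 h2 h3)) (pr_norm (pr_csub (enc_rat _ 1 5) h1))))))) (pr_case (txg_419_s.snd h1 h2 h3) (pr_add (pr_add (pr_csub (enc_rat _ 897919 5000000) (pr_scale 1827967 5000000 h1)) (pr_cmul (enc_norm (txg_4.enc h1.l h2.l h3)) (pr_norm (pr_csub (enc_rat _ 1013427 5000000) (pr_scale 124087 250000 h1))))) (pr_cmul (enc_norm (enc_subr 242529 500000 (enc_scale 728551 100000 (txg_4.enc h1.l h2.l h3)))) (pr_norm (pr_mul (pr_norm (txg_367_s.snd h1 h2 h3)) (pr_norm (pr_csub (enc_rat _ 1 4) h1)))))) (pr_add (pr_add (pr_csub (enc_rat _ 340149 2000000) (pr_scale 1637781 5000000 h1)) (pr_cmul (enc_norm (txg_4.enc h1.l h2.l h3)) (pr_norm (pr_csub (enc_rat _ 905357 5000000) (pr_scale 102473 250000 h1))))) (pr_cmul (enc_norm (enc_subr 68921 250000 (enc_neg (enc_scale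 901459 100000 (txg_4.enc h1.l h2.l h3))))) (pr_norm (pr_mul (pr_norm (txg_419_s.snd h1 h2 h3)) (pr_norm (pr_csub (enc_rat _ 3 10) h1)))))))) (pr_case (txg_462_s.snd h1 h2 h3) (pr_case (txg_464_s.snd h1 h2 h3) (pr_add (pr_add (pr_csub (enc_rat _ 9095427 50000000) (pr_scale 367003 1000000 h1)) (pr_cmul (enc_norm (txg_4.enc h1.l h2.l h3)) (pr_norm (pr_subr 43789 5000000 (pr_scale 27859 125000 h1))))) (pr_cmul (enc_norm (enc_sub (enc_rat _ 532311 500000) (enc_scale 364071 100000 (txg_4.enc h1.l h2.l h3)))) (pr_norm (pr_mul (pr_norm (txg_365_s.snd h1 h2 h3)) (pr_norm (pr_csub (enc_rat _ 7 20) h1)))))) (pr_add (pr_add (pr_csub (enc_rat _ 1842877 10000000) (pr_scale 1869003 5000000 h1)) (pr_cmul (enc_norm (txg_4.enc h1.l h2.l h3)) (pr_norm (pr_csub (enc_rat _ 21081 250000) (pr_scale 10769 250000 h1))))) (pr_cmul (enc_norm (enc_subr 37147 40000 (enc_scale 447983 50000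 (txg_4.enc h1.l h2.l h3)))) (pr_norm (pr_mul (pr_norm (txg_464_s.snd h1 h2 h3)) (pr_norm (pr_csub (enc_rat _ 2 5) h1))))))) (pr_case (txg_506_s.snd h1 h2 h3) (pr_add (pr_add (pr_csub (enc_rat _ 9115717 50000000) (pr_scale 115271 312500 h1)) (pr_cmul (enc_norm (txg_4.enc h1.l h2.l h3)) (pr_norm (pr_csub (enc_rat _ 258237 1250000) (pr_scale 17437 50000 h1))))) (pr_cmul (enc_norm (enc_sub (enc_rat _ 830007 1000000) (enc_scale 284639 100000 (txg_4.enc h1.l h2.l h3)))) (pr_norm (pr_mul (pr_norm (txg_462_s.snd h1 h2 h3)) (pr_norm (pr_csub (enc_rat _ 9 20) h1)))))) (pr_add (pr_add (pr_csub (enc_rat _ 163241 1000000) (pr_scale 163241 500000 h1)) (pr_cmul (enc_norm (txg_4.enc h1.l h2.l h3)) (pr_norm (pr_csub (enc_rat _ 248283 500000) (pr_scale 248283 250000 h1))))) (pr_cmul (enc_norm (enc_subr 419427 250000 (enc_scale 393357 25000 (txg_4.enc h1.l h2.l h3)))) (pr_norm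 (pr_mul (pr_norm (txg_506_s.snd h1 h2 h3)) (pr_norm (pr_csub (enc_rat _ 1 2) h1)))))))))))⟩
noncomputable def l0q0_s : Sl2 l0q0 := ⟨_, fun h1 h2 => (pr_norm (txg_s.snd (pr_norm (pr_sub (pr_scale 3 4 h1) (pr_half (c1g_s.snd h1)))) (pr_nd (c1g_s.snd h1)) h2))⟩
noncomputable def kc0q0_8_s : Sl2 kc0q0_8 := ⟨_, fun h1 h2 => (pr_sub (pr_scale 3 4 h1) (pr_half (c1g_s.snd h1)))⟩
noncomputable def kc0q0_s : Sl2 kc0q0 := ⟨_, fun h1 h2 => (pr_norm (pr_case (pr_addc (kc0q0_8_s.snd h1 h2) (enc_rat _ 11 50)) (pr_case (pr_addc (kc0q0_8_s.snd h1 h2) (enc_rat _ 41 100)) (pr_add (pr_addc (pr_scale 41903 45000 (kc0q0_8_s.snd h1 h2)) (enc_rat _ 41903 90000)) (pr_cmul (enc_norm (kc0q0_3.enc h1.l h2)) (pr_norm (pr_addc (pr_scale 104887 2250 (kc0q0_8_s.snd h1 h2)) (enc_rat _ 104887 4500))))) (pr_case (pr_addc (kc0q0_8_s.snd h1 h2) (enc_rat _ 8 25)) (pr_add (pr_subr 573857 1800000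 (pr_neg (pr_scale 88379 90000 (kc0q0_8_s.snd h1 h2)))) (pr_cmul (enc_norm (kc0q0_3.enc h1.l h2)) (pr_norm (pr_addc (pr_scale 1573 40 (kc0q0_8_s.snd h1 h2)) (enc_rat _ 2031873 100000))))) (pr_add (pr_addc (pr_scale 483037 50000 (kc0q0_8_s.snd h1 h2)) (enc_rat _ 15434319 5000000)) (pr_cmul (enc_norm (kc0q0_3.enc h1.l h2)) (pr_norm (pr_addc (pr_scale 147627 1250 (kc0q0_8_s.snd h1 h2)) (enc_rat _ 22763621 500000))))))) (pr_case (pr_addc (kc0q0_8_s.snd h1 h2) (enc_rat _ 13 100)) (pr_add (pr_addc (pr_scale 44323 2250 (kc0q0_8_s.snd h1 h2)) (enc_rat _ 47657749 9000000)) (pr_cmul (enc_norm (kc0q0_3.enc h1.l h2)) (pr_norm (pr_csub (enc_rat _ 8050783 900000) (pr_scale 433619 9000 (kc0q0_8_s.snd h1 h2)))))) (pr_case (pr_addc (kc0q0_8_s.snd h1 h2) (enc_rat _ 1 25)) (pr_add (pr_addc (pr_scale 285481 90000 (kc0q0_8_s.snd h1 h2)) (enc_rat _ 14160521 4500000)) (pr_cmul (enc_norm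 (kc0q0_3.enc h1.l h2)) (pr_norm (pr_csub (enc_rat _ 1590719 150000) (pr_scale 26561 750 (kc0q0_8_s.snd h1 h2)))))) (pr_add (pr_csub (enc_rat _ 25680224141417 10445000000000) (pr_scale 5862652248583 417800000000 (kc0q0_8_s.snd h1 h2))) (pr_cmul (enc_norm (kc0q0_3.enc h1.l h2)) (pr_norm (pr_csub (enc_rat _ 35311698690639 5222500000000) (pr_scale 27469958359361 208900000000 (kc0q0_8_s.snd h1 h2))))))))))⟩
noncomputable def kf0q1_10_s : Sl2 kf0q1_10 := ⟨_, fun h1 h2 => (pr_scale 3 2 h1)⟩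
noncomputable def kf0q1_s : Sl2 kf0q1 := ⟨_, fun h1 h2 => (pr_norm (pr_add (pr_mul (pr_norm (pr_mul (pr_norm (pr_cadd (enc_pnc _ 1) (pr_nat 2 (c1g_s.snd h1)))) (pr_norm (pr_sub (kf0q1_10_s.snd h1 h2) (c1g_s.snd h1))))) (pr_nd (pr_inv (pr_nat 2 (pr_sub (pr_cadd (enc_pnc _ 1) (kf0q1_10_s.snd h1 h2)) (c1g_s.snd h1)))))) (pr_mul (pr_norm (pr_subn 1 h1)) (kcg_s.snd (pr_norm (pr_sub (pr_scale 3 4 h1) (pr_half (c1g_s.snd h1)))) h2))))⟩
noncomputable def l0q1_s : Sl2 l0q1 := ⟨_, fun h1 h2 => (pr_norm (txg_s.snd (pr_norm (pr_sub (pr_scale 3 4 h1) (pr_half (c1g_s.snd h1)))) (pr_nd (c1g_s.snd h1)) h2))⟩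
noncomputable def gsg_s : Sl1 gsg := ⟨_, fun h1 => (pr_sqrt (pr_csub (enc_pnc _ 1) (pr_scale 3 4 (pr_sq h1))))⟩
noncomputable def gug_s : Sl1 gug := ⟨_, fun h1 => (pr_norm (pr_add (pr_scale 3 4 h1) (pr_scale 3 2 (pr_csub (enc_pnc _ 1) (gsg_s.snd h1)))))⟩
noncomputable def kc0q1_9_s : Sl2 kc0q1_9 := ⟨_, fun h1 h2 => (pr_sub (pr_scale 3 4 h1) (pr_half (c1g_s.snd h1)))⟩
noncomputable def kc0q1_s : Sl2 kc0q1 := ⟨_, fun h1 h2 => (pr_norm (pr_case (pr_subr 47 914 (kc0q1_9_s.snd h1 h2)) (pr_case (pr_addc (kc0q1_9_s.snd h1 h2) (enc_rat _ 11 50)) (pr_case (pr_addc (kc0q1_9_s.snd h1 h2) (enc_rat _ 41 100)) (pr_add (pr_addc (pr_scale 41903 45000 (kc0q1_9_s.snd h1 h2)) (enc_rat _ 41903 90000)) (pr_cmul (enc_norm (kc0q1_3.enc h1.l h2)) (pr_norm (pr_addc (pr_scale 104887 2250 (kc0q1_9_s.snd h1 h2)) (enc_rat _ 104887 4500))))) (pr_case (pr_addc (kc0q1_9_s.snd h1 h2) (enc_rat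 _ 8 25)) (pr_add (pr_subr 573857 1800000 (pr_neg (pr_scale 88379 90000 (kc0q1_9_s.snd h1 h2)))) (pr_cmul (enc_norm (kc0q1_3.enc h1.l h2)) (pr_norm (pr_addc (pr_scale 1573 40 (kc0q1_9_s.snd h1 h2)) (enc_rat _ 2031873 100000))))) (pr_add (pr_addc (pr_scale 483037 50000 (kc0q1_9_s.snd h1 h2)) (enc_rat _ 15434319 5000000)) (pr_cmul (enc_norm (kc0q1_3.enc h1.l h2)) (pr_norm (pr_addc (pr_scale 147627 1250 (kc0q1_9_s.snd h1 h2)) (enc_rat _ 22763621 500000))))))) (pr_case (pr_addc (kc0q1_9_s.snd h1 h2) (enc_rat _ 13 100)) (pr_add (pr_addc (pr_scale 44323 2250 (kc0q1_9_s.snd h1 h2)) (enc_rat _ 47657749 9000000)) (pr_cmul (enc_norm (kc0q1_3.enc h1.l h2)) (pr_norm (pr_csub (enc_rat _ 8050783 900000) (pr_scale 433619 9000 (kc0q1_9_s.snd h1 h2)))))) (pr_case (pr_addc (kc0q1_9_s.snd h1 h2) (enc_rat _ 1 25)) (pr_add (pr_addc (pr_scale 285481 90000 (kc0q1_9_s.snd h1 h2))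 (enc_rat _ 14160521 4500000)) (pr_cmul (enc_norm (kc0q1_3.enc h1.l h2)) (pr_norm (pr_csub (enc_rat _ 1590719 150000) (pr_scale 26561 750 (kc0q1_9_s.snd h1 h2)))))) (pr_add (pr_csub (enc_rat _ 25680224141417 10445000000000) (pr_scale 5862652248583 417800000000 (kc0q1_9_s.snd h1 h2))) (pr_cmul (enc_norm (kc0q1_3.enc h1.l h2)) (pr_norm (pr_csub (enc_rat _ 35311698690639 5222500000000) (pr_scale 27469958359361 208900000000 (kc0q1_9_s.snd h1 h2))))))))) (pr_case (pr_subr 1 7 (kc0q1_9_s.snd h1 h2)) (pr_sub (pr_add (pr_cadd (enc_rat _ 3 4) (pr_scale 3 2 h1)) (pr_scale 3 4 (pr_mul (pr_norm (pr_mul h1 (pr_nd (pr_inv (c1g_s.snd h1))))) (gug_s.snd h1)))) (pr_mul (kcg_s.snd (pr_norm (kc0q1_9_s.snd h1 h2)) h2) (pr_norm (pr_add (gug_s.snd h1) (pr_nat 2 (c1g_s.snd h1)))))) (pr_case (pr_subr 8 25 (kc0q1_9_s.snd h1 h2)) (pr_case (pr_subr 23 100 (kc0q1_9_s.snd h1 h2)) (pr_add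 (pr_csub (enc_rat _ 614113095587 152500000000) (pr_scale 26501033069 1525000000 (kc0q1_9_s.snd h1 h2))) (pr_cmul (enc_norm (kc0q1_3.enc h1.l h2)) (pr_norm (pr_csub (enc_rat _ 12884474062133 610000000000) (pr_scale 953204263571 6100000000 (kc0q1_9_s.snd h1 h2)))))) (pr_add (pr_subr 4186669 9000000 (pr_scale 38761 18000 (kc0q1_9_s.snd h1 h2))) (pr_cmul (enc_norm (kc0q1_3.enc h1.l h2)) (pr_norm (pr_subr 86678017 900000 (pr_scale 3188759 9000 (kc0q1_9_s.snd h1 h2))))))) (pr_case (pr_subr 41 100 (kc0q1_9_s.snd h1 h2)) (pr_add (pr_csub (enc_rat _ 16370003 9000000) (pr_scale 448591 90000 (kc0q1_9_s.snd h1 h2))) (pr_cmul (enc_norm (kc0q1_3.enc h1.l h2)) (pr_norm (pr_csub (enc_rat _ 35277493 300000) (pr_scale 471199 1500 (kc0q1_9_s.snd h1 h2)))))) (pr_add (pr_subr 56173 45000 (pr_scale 56173 22500 (kc0q1_9_s.snd h1 h2))) (pr_cmul (enc_norm (kc0q1_3.enc h1.l h2)) (pr_norm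 (pr_subr 4979 80 (pr_scale 4979 40 (kc0q1_9_s.snd h1 h2)))))))))))⟩
noncomputable def yag_s : Sl1 yag := ⟨_, fun h1 => (pr_sqrt (pr_scale 4 3 (pr_csub (enc_pnc _ 1) (pr_sq h1))))⟩
noncomputable def kfc02_s : Sl2 kfc02 := ⟨_, fun h1 h2 => (pr_norm (pr_add h1 (pr_mul (pr_norm (pr_subn 1 (yag_s.snd h1))) (kcg_s.snd (pr_nd (pr_neg h1)) h2))))⟩
noncomputable def lc02_7_s : Sl2 lc02_7 := ⟨_, fun h1 h2 => (pr_scale 3 4 (yag_s.snd h1))⟩
noncomputable def lc02_8_s : Sl2 lc02_8 := ⟨_, fun h1 h2 => (pr_half h1)⟩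
noncomputable def lc02_s : Sl2 lc02 := ⟨_, fun h1 h2 => (pr_norm (pr_sub (txg_s.snd (pr_nd (pr_neg h1)) (pr_norm (pr_add (lc02_7_s.snd h1 h2) (lc02_8_s.snd h1 h2))) h2) (txg_s.snd h1 (pr_norm (pr_sub (lc02_7_s.snd h1 h2) (lc02_8_s.snd h1 h2))) h2)))⟩
noncomputable def kcc02_s : Sl2 kcc02 := ⟨_, fun h1 h2 => (pr_norm (pr_case (pr_subr 1 5 h1) (pr_case (pr_subr 1 10 h1) (pr_sub (pr_neg (pr_scale 2129 100000 h1)) (pr_cmul (enc_norm (kcc02_4.enc h1.l h2)) (pr_nd (pr_scale 6213 5000 h1)))) (pr_add (pr_subr 1119 500000 (pr_scale 109 100000 h1)) (pr_cmul (enc_norm (kcc02_4.enc h1.l h2)) (pr_norm (pr_subr 461 3125 (pr_scale 1163 5000 h1)))))) (pr_case (pr_subr 3 10 h1) (pr_add (pr_subr 847 250000 (pr_scale 171 25000 h1)) (pr_cmul (enc_norm (kcc02_4.enc h1.l h2)) (pr_norm (pr_subr 4237 25000 (pr_scale 214 625 h1))))) (pr_case (pr_subr 2 5 h1) (pr_add (pr_subr 851 500000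 (pr_scale 61 50000 h1)) (pr_cmul (enc_norm (kcc02_4.enc h1.l h2)) (pr_norm (pr_subr 11167 100000 (pr_scale 1497 10000 h1))))) (pr_add (pr_subr 607 100000 (pr_scale 607 50000 h1)) (pr_cmul (enc_norm (kcc02_4.enc h1.l h2)) (pr_norm (pr_subr 5179 20000 (pr_scale 5179 10000 h1)))))))))⟩
noncomputable def swg_s : Sl1 swg := ⟨_, fun h1 => (pr_sqrt (pr_csub (enc_pnc _ 1) (pr_scale 3 4 (pr_sq (pr_norm (pr_subn 1 h1))))))⟩
noncomputable def cv1m_s : Sl1 cv1m := ⟨_, fun h1 => (pr_norm (pr_add (pr_scale 9 10 (c1g_s.snd h1)) (pr_scale 1 10 (pr_addc (swg_s.snd h1) (enc_rat _ 1 2)))))⟩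
noncomputable def bf1q0_s : Sl2 bf1q0 := ⟨_, fun h1 h2 => (pr_norm (pr_case (pr_subr 31 100 h1) (pr_case (pr_subr 1 10 h1) (pr_sub (pr_csub (enc_pnc _ 1) (pr_scale 110333 100000 h1)) (pr_cmul (enc_norm (bf1q0_3.enc h1.l h2)) (pr_nd (pr_scale 3671 10000 h1)))) (pr_case (pr_subr 21 100 h1) (pr_add (pr_csub (enc_rat _ 11671047 11000000) (pr_scale 188471 110000 h1)) (pr_cmul (enc_norm (bf1q0_3.enc h1.l h2)) (pr_norm (pr_subr 20941 1100000 (pr_neg (pr_scale 243 1375 h1)))))) (pr_add (pr_csub (enc_rat _ 11768691 10000000) (pr_scale 226511 100000 h1)) (pr_cmul (enc_norm (bf1q0_3.enc h1.l h2)) (pr_norm (pr_csub (enc_rat _ 20959 250000) (pr_scale 3333 5000 h1))))))) (pr_case (pr_subr 7 20 h1) (pr_add (pr_csub (enc_rat _ 2217549 2000000) (pr_scale 40909 20000 h1)) (pr_cmul (enc_norm (bf1q0_3.enc h1.l h2)) (pr_norm (pr_csub (enc_rat _ 2137 40000) (pr_scale 1137 2000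 h1))))) (pr_case (pr_subr 43 100 h1) (pr_add (pr_csub (enc_rat _ 4216803 4000000) (pr_scale 75581 40000 h1)) (pr_cmul (enc_norm (bf1q0_3.enc h1.l h2)) (pr_norm (pr_subr 13677 160000 (pr_neg (pr_scale 1373 8000 h1)))))) (pr_add (pr_csub (enc_rat _ 3738943 3500000) (pr_scale 134557 70000 h1)) (pr_cmul (enc_norm (bf1q0_3.enc h1.l h2)) (pr_norm (pr_subr 46749 140000 (pr_scale 2843 7000 h1)))))))))⟩
noncomputable def kf1q0_s : Sl2 kf1q0 := ⟨_, fun h1 h2 => (pr_norm (pr_mul (cv1m_s.snd h1) (bf1q0_s.snd h1 h2)))⟩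
noncomputable def bx1q0_s : Sl2 bx1q0 := ⟨_, fun h1 h2 => (pr_norm (pr_case (pr_subr 31 100 h1) (pr_case (pr_subr 1 10 h1) (pr_add (pr_scale 501 4000 h1) (pr_cmul (enc_norm (bx1q0_3.enc h1.l h2)) (pr_nd (pr_scale 11671 10000 h1)))) (pr_case (pr_subr 21 100 h1) (pr_add (pr_addc (pr_scale 1831 27500 h1) (enc_rat _ 12907 2200000)) (pr_cmul (enc_norm (bx1q0_3.enc h1.l h2)) (pr_norm (pr_addc (pr_scale 271 1100 h1) (enc_rat _ 101281 1100000))))) (pr_add (pr_addc (pr_scale 6961 100000 h1) (enc_rat _ 52309 10000000)) (pr_cmul (enc_norm (bx1q0_3.enc h1.l h2)) (pr_norm (pr_subr 16567 1000000 (pr_scale 7637 10000 h1))))))) (pr_case (pr_subr 7 20 h1) (pr_add (pr_subr 123483 2000000 (pr_scale 5713 20000 h1)) (pr_cmul (enc_norm (bx1q0_3.enc h1.l h2)) (pr_norm (pr_subr 15453 200000 (pr_scale 1919 2000 h1))))) (pr_case (pr_subr 43 100 h1) (pr_add (pr_subr 580137 8000000 (pr_scale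 5063 16000 h1)) (pr_cmul (enc_norm (bx1q0_3.enc h1.l h2)) (pr_norm (pr_subr 2941 400000 (pr_scale 3039 4000 h1))))) (pr_add (pr_subr 114267 1750000 (pr_scale 839 2800 h1)) (pr_cmul (enc_norm (bx1q0_3.enc h1.l h2)) (pr_norm (pr_addc (pr_scale 2543 3500 h1) (enc_rat _ 121 17500)))))))))⟩
noncomputable def l1q0_s : Sl2 l1q0 := ⟨_, fun h1 h2 => (pr_norm (pr_mul (cv1m_s.snd h1) (bx1q0_s.snd h1 h2)))⟩
noncomputable def bd1q0_s : Sl2 bd1q0 := ⟨_, fun h1 h2 => (pr_norm (pr_add (pr_scale 248009 250000 h1) (pr_cmul (enc_norm (enc_subr 67 100 h2)) (pr_nd (pr_scale 1499993 50000 h1)))))⟩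
noncomputable def kc1q0_s : Sl2 kc1q0 := ⟨_, fun h1 h2 => (pr_norm (pr_mul (cv1m_s.snd h1) (bd1q0_s.snd h1 h2)))⟩
noncomputable def bf1q1_s : Sl2 bf1q1 := ⟨_, fun h1 h2 => (pr_norm (pr_case (pr_subr 7 10 h1) (pr_case (pr_subr 3 5 h1) (pr_add (pr_subr 951613 1000000 (pr_scale 22101 12500 h1)) (pr_cmul (enc_norm (bf1q1_3.enc h1.l h2)) (pr_norm (pr_subr 553 25000 (pr_neg (pr_scale 203 5000 h1)))))) (pr_add (pr_subr 914089 1000000 (pr_scale 85277 50000 h1)) (pr_cmul (enc_norm (bf1q1_3.enc h1.l h2)) (pr_norm (pr_csub (enc_rat _ 9403 50000) (pr_scale 3909 10000 h1)))))) (pr_case (pr_subr 4 5 h1) (pr_add (pr_subr 230477 250000 (pr_scale 171671 100000 h1)) (pr_cmul (enc_norm (bf1q1_3.enc h1.l h2)) (pr_norm (pr_subr 20137 50000 (pr_scale 4531 10000 h1))))) (pr_case (pr_subr 9 10 h1) (pr_add (pr_subr 375797 250000 (pr_scale 244331 100000 h1)) (pr_cmul (enc_norm (bf1q1_3.enc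 h1.l h2)) (pr_norm (pr_subr 9461 10000 (pr_scale 11323 10000 h1))))) (pr_add (pr_subr 777217 500000 (pr_scale 10001 4000 h1)) (pr_cmul (enc_norm (bf1q1_3.enc h1.l h2)) (pr_norm (pr_subr 85997 100000 (pr_scale 5183 5000 h1)))))))))⟩
noncomputable def kf1q1_s : Sl2 kf1q1 := ⟨_, fun h1 h2 => (pr_norm (pr_mul (cv1m_s.snd h1) (bf1q1_s.snd h1 h2)))⟩
noncomputable def bx1q1_s : Sl2 bx1q1 := ⟨_, fun h1 h2 => (pr_norm (pr_case (pr_subr 7 10 h1) (pr_case (pr_subr 3 5 h1) (pr_add (pr_subr 28149 1000000 (pr_scale 5437 25000 h1)) (pr_cmul (enc_norm (bx1q1_3.enc h1.l h2)) (pr_norm (pr_csub (enc_rat _ 102443 100000) (pr_scale 1819 1250 h1))))) (pr_add (pr_addc (pr_scale 11271 100000 h1) (enc_rat _ 34713 1000000)) (pr_cmul (enc_norm (bx1q1_3.enc h1.l h2)) (pr_norm (pr_csub (enc_rat _ 25259 100000) (pr_scale 211 1250 h1)))))) (pr_case (pr_subr 4 5 h1) (pr_add (pr_addc (pr_scale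 781 100000 h1) (enc_rat _ 108143 1000000)) (pr_cmul (enc_norm (bx1q1_3.enc h1.l h2)) (pr_norm (pr_csub (enc_rat _ 23481 100000) (pr_scale 717 5000 h1))))) (pr_case (pr_subr 9 10 h1) (pr_add (pr_addc (pr_scale 123 10000 h1) (enc_rat _ 104551 1000000)) (pr_cmul (enc_norm (bx1q1_3.enc h1.l h2)) (pr_norm (pr_csub (enc_rat _ 108273 100000) (pr_scale 12033 10000 h1))))) (pr_add (pr_csub (enc_rat _ 700297 1000000) (pr_scale 16241 25000 h1)) (pr_cmul (enc_norm (bx1q1_3.enc h1.l h2)) (pr_norm (pr_csub (enc_rat _ 43473 100000) (pr_scale 4833 10000 h1)))))))))⟩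
noncomputable def l1q1_s : Sl2 l1q1 := ⟨_, fun h1 h2 => (pr_norm (pr_mul (cv1m_s.snd h1) (bx1q1_s.snd h1 h2)))⟩
noncomputable def bd1q1_s : Sl2 bd1q1 := ⟨_, fun h1 h2 => (pr_norm (pr_add (pr_csub (enc_rat _ 6356139 1000000) (pr_scale 1776281 250000 h1)) (pr_cmul (enc_norm (enc_subr 67 100 h2)) (pr_norm (pr_csub (enc_rat _ 2928173 100000) (pr_scale 2021561 50000 h1))))))⟩
noncomputable def kc1q1_s : Sl2 kc1q1 := ⟨_, fun h1 h2 => (pr_norm (pr_mul (cv1m_s.snd h1) (bd1q1_s.snd h1 h2)))⟩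
noncomputable def cv1p_s : Sl1 cv1p := ⟨_, fun h1 => (pr_norm (pr_add (pr_scale 9 10 (c1g_s.snd h1)) (pr_scale 1 10 (pr_subr 1 2 (swg_s.snd h1)))))⟩
noncomputable def kf1q2_9_s : Sl2 kf1q2_9 := ⟨_, fun h1 h2 => (pr_csub (enc_pnc _ 1) (pr_scale 14430391 5000000 (pr_subn 1 h1)))⟩
noncomputable def kf1q2_s : Sl2 kf1q2 := ⟨_, fun h1 h2 => (pr_norm (pr_mul (cv1p_s.snd h1) (pr_norm (pr_case (pr_csub (enc_pnc _ 1) (pr_scale 3 4 (pr_sq h1))) (pr_add (kf1q2_9_s.snd h1 h2) (pr_case (pr_subr 127 100 h1) (pr_casec1 (pr_subr 231 200 h1) (enc_pnc _ 0) (pr_add (pr_subr 4033029 5750000 (pr_scale 17459 28750 h1)) (pr_cmul (enc_norm (kf1q2_4.enc h1.l h2)) (pr_norm (pr_subr 6532449 460000 (pr_scale 28279 2300 h1)))))) (pr_case (pr_subr 139 100 h1) (pr_add (pr_subr 8447827 12000000 (pr_scale 73117 120000 h1)) (pr_cmul (enc_norm (kf1q2_4.enc h1.l h2)) (pr_norm (pr_subr 3504053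 240000 (pr_scale 30263 2400 h1))))) (pr_add (pr_subr 1938083 2750000 (pr_scale 13417 22000 h1)) (pr_cmul (enc_norm (kf1q2_4.enc h1.l h2)) (pr_norm (pr_subr 4055947 275000 (pr_scale 69941 5500 h1)))))))) (pr_add (kf1q2_9_s.snd h1 h2) (pr_case (pr_subr 1 4 (c1g_s.snd h1)) (pr_case (pr_subr 1 10 (c1g_s.snd h1)) (pr_case (pr_subr 1 20 (c1g_s.snd h1)) (pr_sub (pr_scale 8861 25000 (c1g_s.snd h1)) (pr_cmul (enc_norm (kf1q2_4.enc h1.l h2)) (pr_nd (pr_scale 13503 1250 (c1g_s.snd h1))))) (pr_add (pr_subr 63 125000 (pr_scale 9113 25000 (c1g_s.snd h1))) (pr_cmul (enc_norm (kf1q2_4.enc h1.l h2)) (pr_norm (pr_subr 379 4000 (pr_neg (pr_scale 44537 5000 (c1g_s.snd h1)))))))) (pr_case (pr_subr 3 20 (c1g_s.snd h1)) (pr_add (pr_csub (enc_rat _ 821 15625) (pr_scale 4149 25000 (c1g_s.snd h1))) (pr_cmul (enc_norm (kf1q2_4.enc h1.l h2)) (pr_norm (pr_subr 39289 20000 (pr_scale 12237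 1250 (c1g_s.snd h1)))))) (pr_case (pr_subr 1 5 (c1g_s.snd h1)) (pr_add (pr_csub (enc_rat _ 13603 200000) (pr_scale 2691 10000 (c1g_s.snd h1))) (pr_cmul (enc_norm (kf1q2_4.enc h1.l h2)) (pr_norm (pr_subr 28693 12500 (pr_scale 59981 5000 (c1g_s.snd h1)))))) (pr_add (pr_subr 140133 1000000 (pr_scale 19291 25000 (c1g_s.snd h1))) (pr_cmul (enc_norm (kf1q2_4.enc h1.l h2)) (pr_norm (pr_csub (enc_rat _ 237 1000) (pr_scale 333 500 (c1g_s.snd h1))))))))) (pr_case (pr_subr 7 20 (c1g_s.snd h1)) (pr_case (pr_subr 3 10 (c1g_s.snd h1)) (pr_add (pr_subr 139983 1000000 (pr_scale 4819 6250 (c1g_s.snd h1))) (pr_cmul (enc_norm (kf1q2_4.enc h1.l h2)) (pr_norm (pr_csub (enc_rat _ 9219 20000) (pr_scale 7809 5000 (c1g_s.snd h1)))))) (pr_add (pr_subr 98817 1000000 (pr_scale 31691 50000 (c1g_s.snd h1))) (pr_cmul (enc_norm (kf1q2_4.enc h1.l h2)) (pr_norm (pr_csub (enc_rat _ 32817 100000)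 (pr_scale 1399 1250 (c1g_s.snd h1))))))) (pr_case (pr_subr 2 5 (c1g_s.snd h1)) (pr_add (pr_csub (enc_rat _ 129887 1000000) (pr_scale 981 50000 (c1g_s.snd h1))) (pr_cmul (enc_norm (kf1q2_4.enc h1.l h2)) (pr_norm (pr_subr 6831 100000 (pr_scale 17 1250 (c1g_s.snd h1)))))) (pr_case (pr_subr 9 20 (c1g_s.snd h1)) (pr_add (pr_csub (enc_rat _ 506639 1000000) (pr_scale 1923 2000 (c1g_s.snd h1))) (pr_cmul (enc_norm (kf1q2_4.enc h1.l h2)) (pr_norm (pr_subr 45023 100000 (pr_scale 2421 2500 (c1g_s.snd h1)))))) (pr_add (pr_csub (enc_rat _ 18491 25000) (pr_scale 18491 12500 (c1g_s.snd h1))) (pr_cmul (enc_norm (kf1q2_4.enc h1.l h2)) (pr_norm (pr_subr 289 2000 (pr_scale 289 1000 (c1g_s.snd h1)))))))))))))))⟩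
noncomputable def l1q2_s : Sl2 l1q2 := ⟨_, fun h1 h2 => (pr_norm (pr_mul (cv1p_s.snd h1) (pr_norm (pr_case (pr_csub (enc_pnc _ 1) (pr_scale 3 4 (pr_sq h1))) (pr_cadd (l1q2_12.enc h1.l h2) (pr_case (pr_subr 127 100 h1) (pr_casec1 (pr_subr 231 200 h1) (enc_pnc _ 0) (pr_add (pr_subr 2161929 1000000 (pr_scale 9359 5000 h1)) (pr_cmul (enc_norm (l1q2_4.enc h1.l h2)) (pr_norm (pr_csub (enc_rat _ 9990981 575000) (pr_scale 43251 2875 h1)))))) (pr_case (pr_subr 139 100 h1) (pr_add (pr_subr 2168787 1000000 (pr_scale 4693 2500 h1)) (pr_cmul (enc_norm (l1q2_4.enc h1.l h2)) (pr_norm (pr_csub (enc_rat _ 2571197 150000) (pr_scale 22289 1500 h1))))) (pr_add (pr_subr 23907531 11000000 (pr_scale 103429 55000 h1)) (pr_cmul (enc_norm (l1q2_4.enc h1.l h2)) (pr_norm (pr_csub (enc_rat _ 18754577 1100000) (pr_scale 162727 11000 h1)))))))) (pr_cadd (l1q2_12.enc h1.l h2) (pr_case (pr_subr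 1 4 (c1g_s.snd h1)) (pr_case (pr_subr 1 10 (c1g_s.snd h1)) (pr_case (pr_subr 1 20 (c1g_s.snd h1)) (pr_sub (pr_cmul (enc_norm (l1q2_4.enc h1.l h2)) (pr_nd (pr_scale 5633 2500 (c1g_s.snd h1)))) (pr_scale 7181 50000 (c1g_s.snd h1))) (pr_add (pr_subr 8687 1000000 (pr_scale 753 25000 (c1g_s.snd h1))) (pr_cmul (enc_norm (l1q2_4.enc h1.l h2)) (pr_norm (pr_csub (enc_rat _ 38541 50000) (pr_scale 8227 625 (c1g_s.snd h1))))))) (pr_case (pr_subr 3 20 (c1g_s.snd h1)) (pr_add (pr_subr 12111 200000 (pr_scale 343 625 (c1g_s.snd h1))) (pr_cmul (enc_norm (l1q2_4.enc h1.l h2)) (pr_norm (pr_csub (enc_rat _ 3901 12500) (pr_scale 42879 5000 (c1g_s.snd h1)))))) (pr_case (pr_subr 1 5 (c1g_s.snd h1)) (pr_add (pr_subr 13191 100000 (pr_scale 2049 2000 (c1g_s.snd h1))) (pr_cmul (enc_norm (l1q2_4.enc h1.l h2)) (pr_norm (pr_subr 24109 100000 (pr_neg (pr_scale 611 125 (c1g_s.snd h1)))))))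 (pr_add (pr_subr 100681 500000 (pr_scale 17147 12500 (c1g_s.snd h1))) (pr_cmul (enc_norm (l1q2_4.enc h1.l h2)) (pr_norm (pr_subr 23133 100000 (pr_neg (pr_scale 6171 1250 (c1g_s.snd h1)))))))))) (pr_case (pr_subr 7 20 (c1g_s.snd h1)) (pr_case (pr_subr 3 10 (c1g_s.snd h1)) (pr_add (pr_subr 221647 1000000 (pr_scale 14529 10000 (c1g_s.snd h1))) (pr_cmul (enc_norm (l1q2_4.enc h1.l h2)) (pr_norm (pr_subr 40463 100000 (pr_neg (pr_scale 10609 2500 (c1g_s.snd h1))))))) (pr_add (pr_subr 229717 1000000 (pr_scale 7399 5000 (c1g_s.snd h1))) (pr_cmul (enc_norm (l1q2_4.enc h1.l h2)) (pr_norm (pr_subr 61019 100000 (pr_neg (pr_scale 2224 625 (c1g_s.snd h1)))))))) (pr_case (pr_subr 2 5 (c1g_s.snd h1)) (pr_add (pr_subr 25873 200000 (pr_scale 29827 25000 (c1g_s.snd h1))) (pr_cmul (enc_norm (l1q2_4.enc h1.l h2)) (pr_norm (pr_subr 8239 5000 (pr_neg (pr_scale 2969 5000 (c1g_s.snd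 h1))))))) (pr_case (pr_subr 9 20 (c1g_s.snd h1)) (pr_add (pr_addc (pr_scale 30249 50000 (c1g_s.snd h1)) (enc_rat _ 847 8000)) (pr_cmul (enc_norm (l1q2_4.enc h1.l h2)) (pr_norm (pr_subr 6377 5000 (pr_neg (pr_scale 953 625 (c1g_s.snd h1))))))) (pr_add (pr_add (pr_addc (pr_scale 785589 2500000 (c1g_s.snd h1)) (enc_rat _ 11835499 50000000)) (pr_cmul (enc_norm (l1q2_4.enc h1.l h2)) (pr_norm (pr_subr 1652459 1250000 (pr_neg (pr_scale 266497 187500 (c1g_s.snd h1))))))) (pr_cmul (enc_sq (enc_norm (l1q2_4.enc h1.l h2))) (pr_norm (pr_csub (enc_rat _ 18297 125000) (pr_scale 2033 6250 (c1g_s.snd h1)))))))))))))))⟩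
noncomputable def kc1q2_s : Sl2 kc1q2 := ⟨_, fun h1 h2 => (pr_norm (pr_mul (cv1p_s.snd h1) (pr_norm (pr_case (pr_csub (enc_pnc _ 1) (pr_scale 3 4 (pr_sq h1))) (pr_cadd (kc1q2_11.enc h1.l h2) (pr_casec1 (pr_subr 231 200 h1) (enc_pnc _ 0) (pr_add (pr_subr 153832371 11500000 (pr_scale 665941 57500 h1)) (pr_cmul (enc_norm (kc1q2_4.enc h1.l h2)) (pr_norm (pr_csub (enc_rat _ 54094733 1150000) (pr_scale 702529 17250 h1))))))) (pr_cadd (kc1q2_11.enc h1.l h2) (pr_case (pr_subr 1 4 (c1g_s.snd h1)) (pr_add (pr_scale 4233 125000 (c1g_s.snd h1)) (pr_cmul (enc_norm (kc1q2_4.enc h1.l h2)) (pr_nd (pr_scale 9122 3125 (c1g_s.snd h1))))) (pr_add (pr_subr 2179 500000 (pr_scale 1603 31250 (c1g_s.snd h1))) (pr_cmul (enc_norm (kc1q2_4.enc h1.l h2)) (pr_norm (pr_addc (pr_scale 12821 6250 (c1g_s.snd h1)) (enc_rat _ 5423 25000)))))))))))⟩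
noncomputable def cv1r_s : Sl1 cv1r := ⟨_, fun h1 => (pr_norm (pr_scale 1 10 (pr_subr 1 2 (swg_s.snd h1))))⟩
noncomputable def bf1q3_s : Sl2 bf1q3 := ⟨_, fun h1 h2 => (pr_norm (pr_case (pr_subr 169 100 h1) (pr_case (pr_subr 79 50 h1) (pr_add (pr_csub (enc_rat _ 11483327 4000000) (pr_scale 138177 80000 h1)) (pr_cmul (enc_norm (bf1q3_3.enc h1.l h2)) (pr_norm (pr_csub (enc_rat _ 8669389 200000) (pr_scale 108609 4000 h1))))) (pr_case (pr_subr 33 20 h1) (pr_add (pr_csub (enc_rat _ 10046341 3500000) (pr_scale 24177 14000 h1)) (pr_cmul (enc_norm (bf1q3_3.enc h1.l h2)) (pr_norm (pr_csub (enc_rat _ 30316989 700000) (pr_scale 94951 3500 h1))))) (pr_add (pr_csub (enc_rat _ 5738527 2000000) (pr_scale 1381 800 h1)) (pr_cmul (enc_norm (bf1q3_3.enc h1.l h2)) (pr_norm (pr_csub (enc_rat _ 135066 3125) (pr_scale 1083 40 h1))))))) (pr_case (pr_subr 179 100 h1) (pr_add (pr_csub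 (enc_rat _ 28682833 10000000) (pr_scale 172567 100000 h1)) (pr_cmul (enc_norm (bf1q3_3.enc h1.l h2)) (pr_norm (pr_csub (enc_rat _ 673978 15625) (pr_scale 135119 5000 h1))))) (pr_case (pr_subr 19 10 h1) (pr_add (pr_csub (enc_rat _ 1434079 500000) (pr_scale 2157 1250 h1)) (pr_cmul (enc_norm (bf1q3_3.enc h1.l h2)) (pr_norm (pr_csub (enc_rat _ 47415151 1100000) (pr_scale 148539 5500 h1))))) (pr_add (pr_csub (enc_rat _ 2868101 1000000) (pr_scale 172557 100000 h1)) (pr_cmul (enc_norm (bf1q3_3.enc h1.l h2)) (pr_norm (pr_csub (enc_rat _ 53869 1250) (pr_scale 270021 10000 h1)))))))))⟩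
noncomputable def kf1q3_s : Sl2 kf1q3 := ⟨_, fun h1 h2 => (pr_norm (pr_mulz (fun ht => cv1r_two (enc_two h1.r ht)) (cv1r_s.snd h1) (bf1q3_s.snd h1 h2)))⟩
noncomputable def bx1q3_s : Sl2 bx1q3 := ⟨_, fun h1 h2 => (pr_norm (pr_case (pr_subr 169 100 h1) (pr_case (pr_subr 79 50 h1) (pr_add (pr_subr 157019 250000 (pr_scale 63 100 h1)) (pr_cmul (enc_norm (bx1q3_3.enc h1.l h2)) (pr_norm (pr_addc (pr_scale 4317 8000 h1) (enc_rat _ 92461 400000))))) (pr_case (pr_subr 33 20 h1) (pr_add (pr_subr 2199609 3500000 (pr_scale 44117 70000 h1)) (pr_cmul (enc_norm (bx1q3_3.enc h1.l h2)) (pr_norm (pr_addc (pr_scale 267 500 h1) (enc_rat _ 6001 25000))))) (pr_add (pr_subr 2516691 4000000 (pr_scale 25227 40000 h1)) (pr_cmul (enc_norm (bx1q3_3.enc h1.l h2)) (pr_norm (pr_addc (pr_scale 417 800 h1) (enc_rat _ 104431 400000))))))) (pr_case (pr_subr 179 100 h1) (pr_add (pr_subr 393703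 625000 (pr_scale 7889 12500 h1)) (pr_cmul (enc_norm (bx1q3_3.enc h1.l h2)) (pr_norm (pr_addc (pr_scale 1269 2500 h1) (enc_rat _ 142073 500000))))) (pr_case (pr_subr 19 10 h1) (pr_add (pr_subr 630247 1000000 (pr_scale 6313 10000 h1)) (pr_cmul (enc_norm (bx1q3_3.enc h1.l h2)) (pr_norm (pr_addc (pr_scale 5509 11000 h1) (enc_rat _ 162957 550000))))) (pr_add (pr_subr 315019 500000 (pr_scale 63119 100000 h1)) (pr_cmul (enc_norm (bx1q3_3.enc h1.l h2)) (pr_norm (pr_addc (pr_scale 4993 10000 h1) (enc_rat _ 29917 100000)))))))))⟩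
noncomputable def l1q3_s : Sl2 l1q3 := ⟨_, fun h1 h2 => (pr_norm (pr_mulz (fun ht => cv1r_two (enc_two h1.r ht)) (cv1r_s.snd h1) (bx1q3_s.snd h1 h2)))⟩
noncomputable def bd1q3_s : Sl2 bd1q3 := ⟨_, fun h1 h2 => (pr_norm (pr_add (pr_csub (enc_rat _ 506651 100000) (pr_scale 356051 500000 h1)) (pr_cmul (enc_norm (enc_subr 67 100 h2)) (pr_norm (pr_csub (enc_rat _ 1392163 20000) (pr_scale 1042187 25000 h1))))))⟩
noncomputable def kc1q3_s : Sl2 kc1q3 := ⟨_, fun h1 h2 => (pr_norm (pr_mulz (fun ht => cv1r_two (enc_two h1.r ht)) (cv1r_s.snd h1) (bd1q3_s.snd h1 h2)))⟩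
noncomputable def cv2m_s : Sl1 cv2m := ⟨_, fun h1 => (pr_norm (pr_add (pr_scale 7 10 (c1g_s.snd h1)) (pr_scale 3 10 (pr_addc (swg_s.snd h1) (enc_rat _ 1 2)))))⟩
noncomputable def bf2q0_s : Sl2 bf2q0 := ⟨_, fun h1 h2 => (pr_norm (pr_case (pr_subr 31 100 h1) (pr_case (pr_subr 4 25 h1) (pr_add (pr_csub (enc_pnc _ 1) (pr_scale 53819 40000 h1)) (pr_cmul (enc_norm (bf2q0_3.enc h1.l h2)) (pr_nd (pr_scale 4183 8000 h1)))) (pr_add (pr_csub (enc_rat _ 4347163 3750000) (pr_scale 43889 18750 h1)) (pr_cmul (enc_norm (bf2q0_3.enc h1.l h2)) (pr_norm (pr_csub (enc_rat _ 192049 750000) (pr_scale 16163 15000 h1)))))) (pr_case (pr_subr 7 20 h1) (pr_add (pr_csub (enc_rat _ 2317063 2000000) (pr_scale 46769 20000 h1)) (pr_cmul (enc_norm (bf2q0_3.enc h1.l h2)) (pr_norm (pr_csub (enc_rat _ 1083 12500) (pr_scale 531 1000 h1))))) (pr_add (pr_csub (enc_rat _ 3427319 3000000) (pr_scale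 343871 150000 h1)) (pr_cmul (enc_norm (bf2q0_3.enc h1.l h2)) (pr_norm (pr_subr 919 3750 (pr_scale 6251 15000 h1))))))))⟩
noncomputable def kf2q0_s : Sl2 kf2q0 := ⟨_, fun h1 h2 => (pr_norm (pr_mul (cv2m_s.snd h1) (bf2q0_s.snd h1 h2)))⟩
noncomputable def bx2q0_s : Sl2 bx2q0 := ⟨_, fun h1 h2 => (pr_norm (pr_case (pr_subr 31 100 h1) (pr_case (pr_subr 4 25 h1) (pr_add (pr_scale 33629 160000 h1) (pr_cmul (enc_norm (bx2q0_3.enc h1.l h2)) (pr_nd (pr_scale 6359 8000 h1)))) (pr_add (pr_addc (pr_scale 377 3750 h1) (enc_rat _ 52631 3000000)) (pr_cmul (enc_norm (bx2q0_3.enc h1.l h2)) (pr_norm (pr_addc (pr_scale 393 1250 h1) (enc_rat _ 19219 250000)))))) (pr_case (pr_subr 7 20 h1) (pr_add (pr_addc (pr_scale 2351 20000 h1) (enc_rat _ 24537 2000000)) (pr_cmul (enc_norm (bx2q0_3.enc h1.l h2)) (pr_norm (pr_subr 1433 200000 (pr_scale 1171 2000 h1))))) (pr_add (pr_addc (pr_scale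 1313 10000 h1) (enc_rat _ 233 31250)) (pr_cmul (enc_norm (bx2q0_3.enc h1.l h2)) (pr_norm (pr_subr 19849 300000 (pr_scale 11311 15000 h1))))))))⟩
noncomputable def l2q0_s : Sl2 l2q0 := ⟨_, fun h1 h2 => (pr_norm (pr_mul (cv2m_s.snd h1) (bx2q0_s.snd h1 h2)))⟩
noncomputable def bd2q0_s : Sl2 bd2q0 := ⟨_, fun h1 h2 => (pr_norm (pr_sub (pr_cmul (enc_norm (enc_subr 67 100 h2)) (pr_nd (pr_scale 1069679 50000 h1))) (pr_scale 16647 15625 h1)))⟩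
noncomputable def kc2q0_s : Sl2 kc2q0 := ⟨_, fun h1 h2 => (pr_norm (pr_mul (cv2m_s.snd h1) (bd2q0_s.snd h1 h2)))⟩
noncomputable def bf2q1_s : Sl2 bf2q1 := ⟨_, fun h1 h2 => (pr_norm (pr_case (pr_subr 67 100 h1) (pr_add (pr_subr 20849 27200 (pr_scale 282619 170000 h1)) (pr_cmul (enc_norm (bf2q1_3.enc h1.l h2)) (pr_norm (pr_subr 129923 340000 (pr_scale 8081 17000 h1))))) (pr_case (pr_subr 83 100 h1) (pr_add (pr_subr 11885209 16000000 (pr_scale 260339 160000 h1)) (pr_cmul (enc_norm (bf2q1_3.enc h1.l h2)) (pr_norm (pr_subr 47229 64000 (pr_scale 16103 16000 h1))))) (pr_add (pr_subr 1578077 2125000 (pr_scale 276569 170000 h1)) (pr_cmul (enc_norm (bf2q1_3.enc h1.l h2)) (pr_norm (pr_subr 1127743 1700000 (pr_scale 7791 8500 h1))))))))⟩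
noncomputable def kf2q1_s : Sl2 kf2q1 := ⟨_, fun h1 h2 => (pr_norm (pr_mul (cv2m_s.snd h1) (bf2q1_s.snd h1 h2)))⟩
noncomputable def bx2q1_s : Sl2 bx2q1 := ⟨_, fun h1 h2 => (pr_norm (pr_case (pr_subr 67 100 h1) (pr_add (pr_csub (enc_rat _ 1409077 17000000) (pr_scale 1097 42500 h1)) (pr_cmul (enc_norm (bx2q1_3.enc h1.l h2)) (pr_norm (pr_csub (enc_rat _ 831933 1700000) (pr_scale 4807 17000 h1))))) (pr_case (pr_subr 83 100 h1) (pr_add (pr_csub (enc_rat _ 1953251 16000000) (pr_scale 13489 160000 h1)) (pr_cmul (enc_norm (bx2q1_3.enc h1.l h2)) (pr_norm (pr_csub (enc_rat _ 766967 1600000) (pr_scale 857 3200 h1))))) (pr_add (pr_subr 493273 8500000 (pr_scale 11279 85000 h1)) (pr_cmul (enc_norm (bx2q1_3.enc h1.l h2)) (pr_norm (pr_csub (enc_rat _ 188069 68000) (pr_scale 25691 8500 h1))))))))⟩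
noncomputable def l2q1_s : Sl2 l2q1 := ⟨_, fun h1 h2 => (pr_norm (pr_mul (cv2m_s.snd h1) (bx2q1_s.snd h1 h2)))⟩
noncomputable def bd2q1_s : Sl2 bd2q1 := ⟨_, fun h1 h2 => (pr_norm (pr_add (pr_csub (enc_rat _ 4267657 1000000) (pr_scale 598683 125000 h1)) (pr_cmul (enc_norm (enc_subr 67 100 h2)) (pr_norm (pr_csub (enc_rat _ 985241 50000) (pr_scale 270453 10000 h1))))))⟩
noncomputable def kc2q1_s : Sl2 kc2q1 := ⟨_, fun h1 h2 => (pr_norm (pr_mul (cv2m_s.snd h1) (bd2q1_s.snd h1 h2)))⟩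
noncomputable def cv2p_s : Sl1 cv2p := ⟨_, fun h1 => (pr_norm (pr_add (pr_scale 7 10 (c1g_s.snd h1)) (pr_scale 3 10 (pr_subr 1 2 (swg_s.snd h1)))))⟩
noncomputable def kf2q2_s : Sl2 kf2q2 := ⟨_, fun h1 h2 => (pr_norm (pr_mul (cv2p_s.snd h1) (pr_norm (pr_case (pr_csub (enc_pnc _ 1) (pr_scale 3 4 (pr_sq h1))) (pr_case (pr_subr 127 100 h1) (pr_add (pr_csub (enc_rat _ 54308679 14500000) (pr_scale 80281 29000 h1)) (pr_cmul (enc_norm (kf2q2_4.enc h1.l h2)) (pr_norm (pr_subr 239931 9280 (pr_scale 246319 11600 h1))))) (pr_case (pr_subr 69 50 h1) (pr_add (pr_csub (enc_rat _ 27331397 11000000) (pr_scale 39063 22000 h1)) (pr_cmul (enc_norm (kf2q2_4.enc h1.l h2)) (pr_norm (pr_subr 19372251 1100000 (pr_scale 81089 5500 h1))))) (pr_add (pr_csub (enc_rat _ 4585201 2000000) (pr_scale 196369 120000 h1)) (pr_cmul (enc_norm (kf2q2_4.enc h1.l h2)) (pr_norm (pr_subr 3023117 200000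 (pr_scale 155221 12000 h1))))))) (pr_case (pr_subr 1 4 (c1g_s.snd h1)) (pr_case (pr_subr 1 10 (c1g_s.snd h1)) (pr_case (pr_subr 1 20 (c1g_s.snd h1)) (pr_add (pr_addc (pr_scale 5031 50000 (c1g_s.snd h1)) (enc_rat _ 17221 31250)) (pr_cmul (enc_norm (kf2q2_4.enc h1.l h2)) (pr_norm (pr_subr 8821 6250 (pr_scale 104811 5000 (c1g_s.snd h1)))))) (pr_add (pr_addc (pr_scale 14127 25000 (c1g_s.snd h1)) (enc_rat _ 527849 1000000)) (pr_cmul (enc_norm (kf2q2_4.enc h1.l h2)) (pr_norm (pr_subr 17579 20000 (pr_scale 5157 500 (c1g_s.snd h1))))))) (pr_case (pr_subr 3 20 (c1g_s.snd h1)) (pr_add (pr_addc (pr_scale 9481 10000 (c1g_s.snd h1)) (enc_rat _ 489547 1000000)) (pr_cmul (enc_norm (kf2q2_4.enc h1.l h2)) (pr_norm (pr_subr 2951 20000 (pr_nat 3 (c1g_s.snd h1)))))) (pr_case (pr_subr 1 5 (c1g_s.snd h1)) (pr_add (pr_addc (pr_scale 27833 25000 (c1g_s.snd h1)) (enc_rat _ 116191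 250000)) (pr_cmul (enc_norm (kf2q2_4.enc h1.l h2)) (pr_norm (pr_addc (pr_scale 32 625 (c1g_s.snd h1)) (enc_rat _ 29477 100000))))) (pr_add (pr_addc (pr_scale 59417 50000 (c1g_s.snd h1)) (enc_rat _ 2811 6250)) (pr_cmul (enc_norm (kf2q2_4.enc h1.l h2)) (pr_norm (pr_csub (enc_rat _ 11141 20000) (pr_scale 6301 5000 (c1g_s.snd h1))))))))) (pr_case (pr_subr 7 20 (c1g_s.snd h1)) (pr_case (pr_subr 3 10 (c1g_s.snd h1)) (pr_add (pr_addc (pr_scale 61103 50000 (c1g_s.snd h1)) (enc_rat _ 44133 100000)) (pr_cmul (enc_norm (kf2q2_4.enc h1.l h2)) (pr_norm (pr_csub (enc_rat _ 859 1250) (pr_scale 1113 625 (c1g_s.snd h1)))))) (pr_add (pr_addc (pr_scale 61299 50000 (c1g_s.snd h1)) (enc_rat _ 220077 500000)) (pr_cmul (enc_norm (kf2q2_4.enc h1.l h2)) (pr_norm (pr_csub (enc_rat _ 7103 10000) (pr_scale 9289 5000 (c1g_s.snd h1))))))) (pr_case (pr_subr 2 5 (c1g_s.snd h1)) (pr_add (pr_addc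 (pr_scale 29609 25000 (c1g_s.snd h1)) (enc_rat _ 454721 1000000)) (pr_cmul (enc_norm (kf2q2_4.enc h1.l h2)) (pr_norm (pr_csub (enc_rat _ 53173 100000) (pr_scale 3369 2500 (c1g_s.snd h1)))))) (pr_case (pr_subr 9 20 (c1g_s.snd h1)) (pr_add (pr_addc (pr_scale 40991 50000 (c1g_s.snd h1)) (enc_rat _ 600537 1000000)) (pr_cmul (enc_norm (kf2q2_4.enc h1.l h2)) (pr_norm (pr_csub (enc_rat _ 4317 100000) (pr_scale 631 5000 (c1g_s.snd h1)))))) (pr_add (pr_addc (pr_scale 1909 3125 (c1g_s.snd h1)) (enc_rat _ 4341 6250)) (pr_cmul (enc_norm (kf2q2_4.enc h1.l h2)) (pr_norm (pr_subr 681 5000 (pr_scale 681 2500 (c1g_s.snd h1))))))))))))))⟩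
noncomputable def l2q2_s : Sl2 l2q2 := ⟨_, fun h1 h2 => (pr_norm (pr_mul (cv2p_s.snd h1) (pr_norm (pr_case (pr_csub (enc_pnc _ 1) (pr_scale 3 4 (pr_sq h1))) (pr_case (pr_subr 127 100 h1) (pr_add (pr_subr 30110297 11600000 (pr_scale 221497 116000 h1)) (pr_cmul (enc_norm (l2q2_4.enc h1.l h2)) (pr_norm (pr_csub (enc_rat _ 35693817 5800000) (pr_scale 1847 464 h1))))) (pr_case (pr_subr 69 50 h1) (pr_add (pr_subr 28627257 11000000 (pr_scale 105313 55000 h1)) (pr_cmul (enc_norm (l2q2_4.enc h1.l h2)) (pr_norm (pr_csub (enc_rat _ 21185587 1100000) (pr_scale 157299 11000 h1))))) (pr_add (pr_subr 5208709 2000000 (pr_scale 229937 120000 h1)) (pr_cmul (enc_norm (l2q2_4.enc h1.l h2)) (pr_norm (pr_csub (enc_rat _ 4635629 200000) (pr_scale 205673 12000 h1))))))) (pr_case (pr_subr 1 4 (c1g_s.snd h1)) (pr_case (pr_subr 1 10 (c1g_s.snd h1)) (pr_case (pr_subr 1 20 (c1g_s.snd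 h1)) (pr_add (pr_subr 97909 250000 (pr_scale 4071 6250 (c1g_s.snd h1))) (pr_cmul (enc_norm (l2q2_4.enc h1.l h2)) (pr_norm (pr_csub (enc_rat _ 151963 100000) (pr_scale 20369 5000 (c1g_s.snd h1)))))) (pr_add (pr_subr 402819 1000000 (pr_scale 43751 50000 (c1g_s.snd h1))) (pr_cmul (enc_norm (l2q2_4.enc h1.l h2)) (pr_norm (pr_csub (enc_rat _ 78197 50000) (pr_scale 124 25 (c1g_s.snd h1))))))) (pr_case (pr_subr 3 20 (c1g_s.snd h1)) (pr_add (pr_subr 410859 1000000 (pr_scale 47771 50000 (c1g_s.snd h1))) (pr_cmul (enc_norm (l2q2_4.enc h1.l h2)) (pr_norm (pr_csub (enc_rat _ 4747 3125) (pr_scale 4511 1000 (c1g_s.snd h1)))))) (pr_case (pr_subr 1 5 (c1g_s.snd h1)) (pr_add (pr_subr 208707 500000 (pr_scale 12489 12500 (c1g_s.snd h1))) (pr_cmul (enc_norm (l2q2_4.enc h1.l h2)) (pr_norm (pr_csub (enc_rat _ 17419 12500) (pr_scale 18371 5000 (c1g_s.snd h1)))))) (pr_add (pr_subr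 210627 500000 (pr_scale 12729 12500 (c1g_s.snd h1))) (pr_cmul (enc_norm (l2q2_4.enc h1.l h2)) (pr_norm (pr_csub (enc_rat _ 29833 25000) (pr_scale 6683 2500 (c1g_s.snd h1))))))))) (pr_case (pr_subr 7 20 (c1g_s.snd h1)) (pr_case (pr_subr 3 10 (c1g_s.snd h1)) (pr_add (pr_subr 419689 1000000 (pr_scale 50603 50000 (c1g_s.snd h1))) (pr_cmul (enc_norm (l2q2_4.enc h1.l h2)) (pr_norm (pr_csub (enc_rat _ 105797 100000) (pr_scale 10659 5000 (c1g_s.snd h1)))))) (pr_add (pr_subr 395713 1000000 (pr_scale 46607 50000 (c1g_s.snd h1))) (pr_cmul (enc_norm (l2q2_4.enc h1.l h2)) (pr_norm (pr_csub (enc_rat _ 103943 100000) (pr_scale 207 100 (c1g_s.snd h1))))))) (pr_case (pr_subr 2 5 (c1g_s.snd h1)) (pr_add (pr_subr 171617 500000 (pr_scale 3911 5000 (c1g_s.snd h1))) (pr_cmul (enc_norm (l2q2_4.enc h1.l h2)) (pr_norm (pr_csub (enc_rat _ 553 500) (pr_scale 11301 5000 (c1g_s.snd h1))))))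 (pr_case (pr_subr 9 20 (c1g_s.snd h1)) (pr_add (pr_subr 86681 500000 (pr_scale 4469 12500 (c1g_s.snd h1))) (pr_cmul (enc_norm (l2q2_4.enc h1.l h2)) (pr_norm (pr_csub (enc_rat _ 698 625) (pr_scale 2859 1250 (c1g_s.snd h1)))))) (pr_add (pr_subr 6239 50000 (pr_scale 6239 25000 (c1g_s.snd h1))) (pr_cmul (enc_norm (l2q2_4.enc h1.l h2)) (pr_norm (pr_csub (enc_rat _ 2189 2500) (pr_scale 2189 1250 (c1g_s.snd h1))))))))))))))⟩
noncomputable def kc2q2_s : Sl2 kc2q2 := ⟨_, fun h1 h2 => (pr_norm (pr_mul (cv2p_s.snd h1) (pr_norm (pr_case (pr_csub (enc_pnc _ 1) (pr_scale 3 4 (pr_sq h1))) (pr_add (pr_subr 58925921 4325000 (pr_scale 2030779 173000 h1)) (pr_cmul (enc_norm (kc2q2_4.enc h1.l h2)) (pr_norm (pr_csub (enc_rat _ 799816589 17300000) (pr_scale 1412343 34600 h1))))) (pr_case (pr_subr 1 4 (c1g_s.snd h1)) (pr_add (pr_subr 34939 500000 (pr_scale 5779 31250 (c1g_s.snd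 h1))) (pr_cmul (enc_norm (kc2q2_4.enc h1.l h2)) (pr_norm (pr_subr 22571 25000 (pr_neg (pr_scale 729 6250 (c1g_s.snd h1))))))) (pr_add (pr_subr 11823 250000 (pr_scale 11823 125000 (c1g_s.snd h1))) (pr_cmul (enc_norm (kc2q2_4.enc h1.l h2)) (pr_norm (pr_subr 233 125 (pr_scale 466 125 (c1g_s.snd h1)))))))))))⟩
noncomputable def cv2r_s : Sl1 cv2r := ⟨_, fun h1 => (pr_norm (pr_scale 3 10 (pr_subr 1 2 (swg_s.snd h1))))⟩
noncomputable def bf2q3_s : Sl2 bf2q3 := ⟨_, fun h1 h2 => (pr_norm (pr_case (pr_subr 169 100 h1) (pr_case (pr_subr 33 20 h1) (pr_add (pr_csub (enc_rat _ 1484273 500000) (pr_scale 268463 150000 h1)) (pr_cmul (enc_norm (bf2q3_3.enc h1.l h2)) (pr_norm (pr_csub (enc_rat _ 1246469 25000) (pr_scale 467447 15000 h1))))) (pr_add (pr_csub (enc_rat _ 11770377 4000000) (pr_scale 70961 40000 h1)) (pr_cmul (enc_norm (bf2q3_3.enc h1.l h2)) (pr_norm (pr_csub (enc_rat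 _ 19433401 400000) (pr_scale 121561 4000 h1)))))) (pr_case (pr_subr 37 20 h1) (pr_add (pr_csub (enc_rat _ 23189403 8000000) (pr_scale 139843 80000 h1)) (pr_cmul (enc_norm (bf2q3_3.enc h1.l h2)) (pr_norm (pr_csub (enc_rat _ 14971073 320000) (pr_scale 469213 16000 h1))))) (pr_add (pr_csub (enc_rat _ 2158507 750000) (pr_scale 26053 15000 h1)) (pr_cmul (enc_norm (bf2q3_3.enc h1.l h2)) (pr_norm (pr_csub (enc_rat _ 13772119 300000) (pr_scale 108193 3750 h1))))))))⟩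
noncomputable def kf2q3_s : Sl2 kf2q3 := ⟨_, fun h1 h2 => (pr_norm (pr_mulz (fun ht => cv2r_two (enc_two h1.r ht)) (cv2r_s.snd h1) (bf2q3_s.snd h1 h2)))⟩
noncomputable def bx2q3_s : Sl2 bx2q3 := ⟨_, fun h1 h2 => (pr_norm (pr_case (pr_subr 169 100 h1) (pr_case (pr_subr 33 20 h1) (pr_add (pr_subr 165659 250000 (pr_scale 6053 9375 h1)) (pr_cmul (enc_norm (bx2q3_3.enc h1.l h2)) (pr_norm (pr_subr 39357 100000 (pr_scale 12587 15000 h1))))) (pr_add (pr_subr 663373 1000000 (pr_scale 6461 10000 h1)) (pr_cmul (enc_norm (bx2q3_3.enc h1.l h2)) (pr_norm (pr_subr 18037 80000 (pr_scale 2949 4000 h1)))))) (pr_case (pr_subr 37 20 h1) (pr_add (pr_subr 5321349 8000000 (pr_scale 51773 80000 h1)) (pr_cmul (enc_norm (bx2q3_3.enc h1.l h2)) (pr_norm (pr_subr 108761 1600000 (pr_scale 2061 3200 h1))))) (pr_add (pr_subr 401977 600000 (pr_scale 97463 150000 h1)) (pr_cmul (enc_norm (bx2q3_3.enc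 h1.l h2)) (pr_norm (pr_subr 34229 150000 (pr_scale 274 375 h1))))))))⟩
noncomputable def l2q3_s : Sl2 l2q3 := ⟨_, fun h1 h2 => (pr_norm (pr_mulz (fun ht => cv2r_two (enc_two h1.r ht)) (cv2r_s.snd h1) (bx2q3_s.snd h1 h2)))⟩
noncomputable def bd2q3_s : Sl2 bd2q3 := ⟨_, fun h1 h2 => (pr_norm (pr_add (pr_csub (enc_rat _ 2539401 500000) (pr_scale 179807 250000 h1)) (pr_cmul (enc_norm (enc_subr 67 100 h2)) (pr_norm (pr_csub (enc_rat _ 441379 6250) (pr_scale 2119019 50000 h1))))))⟩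
noncomputable def kc2q3_s : Sl2 kc2q3 := ⟨_, fun h1 h2 => (pr_norm (pr_mulz (fun ht => cv2r_two (enc_two h1.r ht)) (cv2r_s.snd h1) (bd2q3_s.snd h1 h2)))⟩
noncomputable def cv3m_s : Sl1 cv3m := ⟨_, fun h1 => (pr_norm (pr_add (pr_scale 2 5 (c1g_s.snd h1)) (pr_scale 3 5 (pr_addc (swg_s.snd h1) (enc_rat _ 1 2)))))⟩
noncomputable def bf3q0_s : Sl2 bf3q0 := ⟨_, fun h1 h2 => (pr_norm (pr_case (pr_subr 31 100 h1) (pr_case (pr_subr 4 25 h1) (pr_add (pr_csub (enc_pnc _ 1) (pr_scale 31367 20000 h1)) (pr_cmul (enc_norm (bf3q0_3.enc h1.l h2)) (pr_nd (pr_scale 28639 16000 h1)))) (pr_add (pr_csub (enc_rat _ 433271 375000) (pr_scale 38093 15000 h1)) (pr_cmul (enc_norm (bf3q0_3.enc h1.l h2)) (pr_norm (pr_csub (enc_rat _ 1044737 1500000) (pr_scale 38447 15000 h1)))))) (pr_case (pr_subr 7 20 h1) (pr_add (pr_csub (enc_rat _ 2312587 2000000) (pr_scale 50849 20000 h1)) (pr_cmul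 (enc_norm (bf3q0_3.enc h1.l h2)) (pr_norm (pr_subr 22001 80000 (pr_scale 2283 4000 h1))))) (pr_add (pr_csub (enc_rat _ 723293 600000) (pr_scale 402451 150000 h1)) (pr_cmul (enc_norm (bf3q0_3.enc h1.l h2)) (pr_norm (pr_subr 12677 20000 (pr_scale 399 250 h1))))))))⟩
noncomputable def kf3q0_s : Sl2 kf3q0 := ⟨_, fun h1 h2 => (pr_norm (pr_mul (cv3m_s.snd h1) (bf3q0_s.snd h1 h2)))⟩
noncomputable def bx3q0_s : Sl2 bx3q0 := ⟨_, fun h1 h2 => (pr_norm (pr_case (pr_subr 31 100 h1) (pr_case (pr_subr 4 25 h1) (pr_add (pr_scale 28859 80000 h1) (pr_cmul (enc_norm (bx3q0_3.enc h1.l h2)) (pr_nd (pr_scale 9889 16000 h1)))) (pr_add (pr_addc (pr_scale 4811 50000 h1) (enc_rat _ 105807 2500000)) (pr_cmul (enc_norm (bx3q0_3.enc h1.l h2)) (pr_norm (pr_addc (pr_scale 2663 15000 h1) (enc_rat _ 105727 1500000)))))) (pr_case (pr_subr 7 20 h1) (pr_add (pr_csub (enc_rat _ 162561 2000000)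 (pr_scale 589 20000 h1)) (pr_cmul (enc_norm (bx3q0_3.enc h1.l h2)) (pr_norm (pr_csub (enc_rat _ 25213 80000) (pr_scale 2447 4000 h1))))) (pr_add (pr_csub (enc_rat _ 10969 125000) (pr_scale 2397 50000 h1)) (pr_cmul (enc_norm (bx3q0_3.enc h1.l h2)) (pr_norm (pr_subr 59509 300000 (pr_scale 1604 1875 h1))))))))⟩
noncomputable def l3q0_s : Sl2 l3q0 := ⟨_, fun h1 h2 => (pr_norm (pr_mul (cv3m_s.snd h1) (bx3q0_s.snd h1 h2)))⟩
noncomputable def bd3q0_s : Sl2 bd3q0 := ⟨_, fun h1 h2 => (pr_norm (pr_sub (pr_cmul (enc_norm (enc_subr 67 100 h2)) (pr_nd (pr_scale 550333 50000 h1))) (pr_scale 179533 50000 h1)))⟩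
noncomputable def kc3q0_s : Sl2 kc3q0 := ⟨_, fun h1 h2 => (pr_norm (pr_mul (cv3m_s.snd h1) (bd3q0_s.snd h1 h2)))⟩
noncomputable def bf3q1_s : Sl2 bf3q1 := ⟨_, fun h1 h2 => (pr_norm (pr_case (pr_subr 67 100 h1) (pr_add (pr_subr 600197 1062500 (pr_scale 132691 85000 h1)) (pr_cmul (enc_norm (bf3q1_3.enc h1.l h2)) (pr_norm (pr_subr 652803 850000 (pr_scale 4461 4250 h1))))) (pr_case (pr_subr 83 100 h1) (pr_add (pr_subr 3890493 8000000 (pr_scale 115503 80000 h1)) (pr_cmul (enc_norm (bf3q1_3.enc h1.l h2)) (pr_norm (pr_subr 576067 800000 (pr_scale 313 320 h1))))) (pr_add (pr_addc (pr_scale 128079 170000 h1) (enc_rat _ 1473987 17000000)) (pr_cmul (enc_norm (bf3q1_3.enc h1.l h2)) (pr_norm (pr_subr 84331 106250 (pr_scale 2267 2125 h1))))))))⟩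
noncomputable def kf3q1_s : Sl2 kf3q1 := ⟨_, fun h1 h2 => (pr_norm (pr_mul (cv3m_s.snd h1) (bf3q1_s.snd h1 h2)))⟩
noncomputable def bx3q1_s : Sl2 bx3q1 := ⟨_, fun h1 h2 => (pr_norm (pr_case (pr_subr 67 100 h1) (pr_add (pr_csub (enc_rat _ 148793 850000) (pr_scale 9271 42500 h1)) (pr_cmul (enc_norm (bx3q1_3.enc h1.l h2)) (pr_norm (pr_addc (pr_scale 54 125 h1) (enc_rat _ 2313 20000))))) (pr_case (pr_subr 83 100 h1) (pr_add (pr_csub (enc_rat _ 1671333 8000000) (pr_scale 4299 16000 h1)) (pr_cmul (enc_norm (bx3q1_3.enc h1.l h2)) (pr_norm (pr_csub (enc_rat _ 459881 800000) (pr_scale 2027 8000 h1))))) (pr_add (pr_subr 457277 8500000 (pr_scale 2033 42500 h1)) (pr_cmul (enc_norm (bx3q1_3.enc h1.l h2)) (pr_norm (pr_csub (enc_rat _ 127267 340000) (pr_scale 1 85 h1))))))))⟩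
noncomputable def l3q1_s : Sl2 l3q1 := ⟨_, fun h1 h2 => (pr_norm (pr_mul (cv3m_s.snd h1) (bx3q1_s.snd h1 h2)))⟩
noncomputable def bd3q1_s : Sl2 bd3q1 := ⟨_, fun h1 h2 => (pr_norm (pr_add (pr_csub (enc_rat _ 475497 250000) (pr_scale 537089 250000 h1)) (pr_cmul (enc_norm (enc_subr 67 100 h2)) (pr_norm (pr_csub (enc_rat _ 91879 10000) (pr_scale 158829 12500 h1))))))⟩
noncomputable def kc3q1_s : Sl2 kc3q1 := ⟨_, fun h1 h2 => (pr_norm (pr_mul (cv3m_s.snd h1) (bd3q1_s.snd h1 h2)))⟩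
noncomputable def cv3p_s : Sl1 cv3p := ⟨_, fun h1 => (pr_norm (pr_add (pr_scale 2 5 (c1g_s.snd h1)) (pr_scale 3 5 (pr_subr 1 2 (swg_s.snd h1)))))⟩
noncomputable def kf3q2_s : Sl2 kf3q2 := ⟨_, fun h1 h2 => (pr_norm (pr_mul (cv3p_s.snd h1) (pr_norm (pr_case (pr_csub (enc_pnc _ 1) (pr_scale 3 4 (pr_sq h1))) (pr_case (pr_subr 127 100 h1) (pr_add (pr_csub (enc_rat _ 18784193 3625000) (pr_scale 232683 58000 h1)) (pr_cmul (enc_norm (kf3q2_4.enc h1.l h2)) (pr_norm (pr_subr 70832833 2900000 (pr_scale 29893 1450 h1))))) (pr_case (pr_subr 69 50 h1) (pr_add (pr_csub (enc_rat _ 10084053 11000000) (pr_scale 17969 27500 h1)) (pr_cmul (enc_norm (kf3q2_4.enc h1.l h2)) (pr_norm (pr_subr 395229 68750 (pr_scale 65011 11000 h1))))) (pr_add (pr_csub (enc_rat _ 1531 16000) (pr_scale 1403 24000 h1)) (pr_cmul (enc_norm (kf3q2_4.enc h1.l h2)) (pr_norm (pr_subr 93689 20000 (pr_scale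 30833 6000 h1))))))) (pr_case (pr_subr 1 4 (c1g_s.snd h1)) (pr_case (pr_subr 1 10 (c1g_s.snd h1)) (pr_case (pr_subr 1 20 (c1g_s.snd h1)) (pr_add (pr_addc (pr_scale 9099 12500 (c1g_s.snd h1)) (enc_rat _ 273827 500000)) (pr_cmul (enc_norm (kf3q2_4.enc h1.l h2)) (pr_norm (pr_subr 51523 100000 (pr_scale 1797 200 (c1g_s.snd h1)))))) (pr_add (pr_addc (pr_scale 5189 6250 (c1g_s.snd h1)) (enc_rat _ 271269 500000)) (pr_cmul (enc_norm (kf3q2_4.enc h1.l h2)) (pr_norm (pr_subr 39453 100000 (pr_scale 6571 1000 (c1g_s.snd h1))))))) (pr_case (pr_subr 3 20 (c1g_s.snd h1)) (pr_add (pr_addc (pr_scale 24781 25000 (c1g_s.snd h1)) (enc_rat _ 263219 500000)) (pr_cmul (enc_norm (kf3q2_4.enc h1.l h2)) (pr_norm (pr_addc (pr_scale 8359 5000 (c1g_s.snd h1)) (enc_rat _ 9539 100000))))) (pr_case (pr_subr 1 5 (c1g_s.snd h1)) (pr_add (pr_addc (pr_scale 52473 50000 (c1g_s.snd h1)) (enc_rat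 _ 103541 200000)) (pr_cmul (enc_norm (kf3q2_4.enc h1.l h2)) (pr_norm (pr_csub (enc_rat _ 3017 6250) (pr_scale 569 625 (c1g_s.snd h1)))))) (pr_add (pr_addc (pr_scale 53059 50000 (c1g_s.snd h1)) (enc_rat _ 515361 1000000)) (pr_cmul (enc_norm (kf3q2_4.enc h1.l h2)) (pr_norm (pr_csub (enc_rat _ 8579 12500) (pr_scale 4821 2500 (c1g_s.snd h1))))))))) (pr_case (pr_subr 7 20 (c1g_s.snd h1)) (pr_case (pr_subr 3 10 (c1g_s.snd h1)) (pr_add (pr_addc (pr_scale 52459 50000 (c1g_s.snd h1)) (enc_rat _ 518361 1000000)) (pr_cmul (enc_norm (kf3q2_4.enc h1.l h2)) (pr_norm (pr_csub (enc_rat _ 71207 100000) (pr_scale 10157 5000 (c1g_s.snd h1)))))) (pr_add (pr_addc (pr_scale 50119 50000 (c1g_s.snd h1)) (enc_rat _ 532401 1000000)) (pr_cmul (enc_norm (kf3q2_4.enc h1.l h2)) (pr_norm (pr_csub (enc_rat _ 11713 20000) (pr_scale 161 100 (c1g_s.snd h1))))))) (pr_case (pr_subr 2 5 (c1g_s.snd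 h1)) (pr_add (pr_addc (pr_scale 45759 50000 (c1g_s.snd h1)) (enc_rat _ 562921 1000000)) (pr_cmul (enc_norm (kf3q2_4.enc h1.l h2)) (pr_norm (pr_csub (enc_rat _ 6547 20000) (pr_scale 109 125 (c1g_s.snd h1)))))) (pr_case (pr_subr 9 20 (c1g_s.snd h1)) (pr_add (pr_addc (pr_scale 759 1000 (c1g_s.snd h1)) (enc_rat _ 625393 1000000)) (pr_cmul (enc_norm (kf3q2_4.enc h1.l h2)) (pr_norm (pr_subr 1353 100000 (pr_neg (pr_scale 99 5000 (c1g_s.snd h1))))))) (pr_add (pr_addc (pr_scale 33057 50000 (c1g_s.snd h1)) (enc_rat _ 66943 100000)) (pr_cmul (enc_norm (kf3q2_4.enc h1.l h2)) (pr_norm (pr_subr 561 2500 (pr_scale 561 1250 (c1g_s.snd h1))))))))))))))⟩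
noncomputable def l3q2_s : Sl2 l3q2 := ⟨_, fun h1 h2 => (pr_norm (pr_mul (cv3p_s.snd h1) (pr_norm (pr_case (pr_csub (enc_pnc _ 1) (pr_scale 3 4 (pr_sq h1))) (pr_case (pr_subr 127 100 h1) (pr_add (pr_subr 46830707 29000000 (pr_scale 35153 29000 h1)) (pr_cmul (enc_norm (l3q2_4.enc h1.l h2)) (pr_norm (pr_subr 5422111 580000 (pr_scale 49293 5800 h1))))) (pr_case (pr_subr 69 50 h1) (pr_add (pr_subr 356388 171875 (pr_scale 173067 110000 h1)) (pr_cmul (enc_norm (l3q2_4.enc h1.l h2)) (pr_norm (pr_csub (enc_rat _ 643041 22000) (pr_scale 4813 220 h1))))) (pr_add (pr_subr 49553 31250 (pr_scale 7319 6000 h1)) (pr_cmul (enc_norm (l3q2_4.enc h1.l h2)) (pr_norm (pr_csub (enc_rat _ 3406083 100000) (pr_scale 50757 2000 h1))))))) (pr_case (pr_subr 1 4 (c1g_s.snd h1)) (pr_case (pr_subr 1 10 (c1g_s.snd h1)) (pr_case (pr_subr 1 20 (c1g_s.snd h1)) (pr_add (pr_subr 213383 1000000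 (pr_scale 15941 25000 (c1g_s.snd h1))) (pr_cmul (enc_norm (l3q2_4.enc h1.l h2)) (pr_norm (pr_csub (enc_rat _ 43111 100000) (pr_scale 8239 5000 (c1g_s.snd h1)))))) (pr_add (pr_subr 42471 200000 (pr_scale 15427 25000 (c1g_s.snd h1))) (pr_cmul (enc_norm (l3q2_4.enc h1.l h2)) (pr_norm (pr_csub (enc_rat _ 20597 50000) (pr_scale 3161 2500 (c1g_s.snd h1))))))) (pr_case (pr_subr 3 20 (c1g_s.snd h1)) (pr_add (pr_subr 211599 1000000 (pr_scale 7619 12500 (c1g_s.snd h1))) (pr_cmul (enc_norm (l3q2_4.enc h1.l h2)) (pr_norm (pr_csub (enc_rat _ 2319 5000) (pr_scale 1783 1000 (c1g_s.snd h1)))))) (pr_case (pr_subr 1 5 (c1g_s.snd h1)) (pr_add (pr_subr 204273 1000000 (pr_scale 14017 25000 (c1g_s.snd h1))) (pr_cmul (enc_norm (l3q2_4.enc h1.l h2)) (pr_norm (pr_csub (enc_rat _ 41487 100000) (pr_scale 1821 1250 (c1g_s.snd h1)))))) (pr_add (pr_subr 191273 1000000 (pr_scale 1549 3125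 (c1g_s.snd h1))) (pr_cmul (enc_norm (l3q2_4.enc h1.l h2)) (pr_norm (pr_csub (enc_rat _ 28023 100000) (pr_scale 1959 2500 (c1g_s.snd h1))))))))) (pr_case (pr_subr 7 20 (c1g_s.snd h1)) (pr_case (pr_subr 3 10 (c1g_s.snd h1)) (pr_add (pr_subr 87889 500000 (pr_scale 4337 10000 (c1g_s.snd h1))) (pr_cmul (enc_norm (l3q2_4.enc h1.l h2)) (pr_norm (pr_csub (enc_rat _ 12813 100000) (pr_scale 219 1250 (c1g_s.snd h1)))))) (pr_add (pr_subr 19243 125000 (pr_scale 9023 25000 (c1g_s.snd h1))) (pr_cmul (enc_norm (l3q2_4.enc h1.l h2)) (pr_norm (pr_addc (pr_scale 68 625 (c1g_s.snd h1)) (enc_rat _ 4293 100000)))))) (pr_case (pr_subr 2 5 (c1g_s.snd h1)) (pr_add (pr_subr 56427 500000 (pr_scale 761 3125 (c1g_s.snd h1))) (pr_cmul (enc_norm (l3q2_4.enc h1.l h2)) (pr_norm (pr_csub (enc_rat _ 14793 100000) (pr_scale 239 1250 (c1g_s.snd h1)))))) (pr_case (pr_subr 9 20 (c1g_s.snd h1))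 (pr_add (pr_subr 39943 500000 (pr_scale 1611 10000 (c1g_s.snd h1))) (pr_cmul (enc_norm (l3q2_4.enc h1.l h2)) (pr_norm (pr_csub (enc_rat _ 33537 100000) (pr_scale 3299 5000 (c1g_s.snd h1)))))) (pr_add (pr_subr 7391 100000 (pr_scale 7391 50000 (c1g_s.snd h1))) (pr_cmul (enc_norm (l3q2_4.enc h1.l h2)) (pr_norm (pr_csub (enc_rat _ 1923 5000) (pr_scale 1923 2500 (c1g_s.snd h1))))))))))))))⟩
noncomputable def kc3q2_s : Sl2 kc3q2 := ⟨_, fun h1 h2 => (pr_norm (pr_mul (cv3p_s.snd h1) (pr_norm (pr_case (pr_csub (enc_pnc _ 1) (pr_scale 3 4 (pr_sq h1))) (pr_add (pr_subr 2480641923 173000000 (pr_scale 4230189 346000 h1)) (pr_cmul (enc_norm (kc3q2_4.enc h1.l h2)) (pr_norm (pr_csub (enc_rat _ 29401006 540625) (pr_scale 800221 17300 h1))))) (pr_case (pr_subr 1 4 (c1g_s.snd h1)) (pr_add (pr_subr 110831 500000 (pr_scale 186661 250000 (c1g_s.snd h1))) (pr_cmul (enc_norm (kc3q2_4.enc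 h1.l h2)) (pr_norm (pr_csub (enc_rat _ 24333 25000) (pr_scale 52313 5000 (c1g_s.snd h1)))))) (pr_add (pr_subr 35001 500000 (pr_scale 35001 250000 (c1g_s.snd h1))) (pr_cmul (enc_norm (kc3q2_4.enc h1.l h2)) (pr_norm (pr_subr 164233 50000 (pr_scale 164233 25000 (c1g_s.snd h1)))))))))))⟩
noncomputable def cv3r_s : Sl1 cv3r := ⟨_, fun h1 => (pr_norm (pr_scale 3 5 (pr_subr 1 2 (swg_s.snd h1))))⟩
noncomputable def bf3q3_s : Sl2 bf3q3 := ⟨_, fun h1 h2 => (pr_norm (pr_case (pr_subr 169 100 h1) (pr_case (pr_subr 33 20 h1) (pr_add (pr_csub (enc_rat _ 2993889 1000000) (pr_scale 271019 150000 h1)) (pr_cmul (enc_norm (bf3q3_3.enc h1.l h2)) (pr_norm (pr_csub (enc_rat _ 1010087 20000) (pr_scale 58937 1875 h1))))) (pr_add (pr_csub (enc_rat _ 613003 200000) (pr_scale 18499 10000 h1)) (pr_cmul (enc_norm (bf3q3_3.enc h1.l h2)) (pr_norm (pr_csub (enc_rat _ 23599871 400000) (pr_scale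 146327 4000 h1)))))) (pr_case (pr_subr 37 20 h1) (pr_add (pr_csub (enc_rat _ 1578053 500000) (pr_scale 9519 5000 h1)) (pr_cmul (enc_norm (bf3q3_3.enc h1.l h2)) (pr_norm (pr_csub (enc_rat _ 102298037 1600000) (pr_scale 126409 3200 h1))))) (pr_add (pr_csub (enc_rat _ 117997 50000) (pr_scale 9209 6250 h1)) (pr_cmul (enc_norm (bf3q3_3.enc h1.l h2)) (pr_norm (pr_csub (enc_rat _ 2681267 100000) (pr_scale 4859 250 h1))))))))⟩
noncomputable def kf3q3_s : Sl2 kf3q3 := ⟨_, fun h1 h2 => (pr_norm (pr_mulz (fun ht => cv3r_two (enc_two h1.r ht)) (cv3r_s.snd h1) (bf3q3_s.snd h1 h2)))⟩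
noncomputable def bx3q3_s : Sl2 bx3q3 := ⟨_, fun h1 h2 => (pr_norm (pr_case (pr_subr 169 100 h1) (pr_case (pr_subr 33 20 h1) (pr_add (pr_subr 386617 500000 (pr_scale 52957 75000 h1)) (pr_cmul (enc_norm (bx3q3_3.enc h1.l h2)) (pr_norm (pr_addc (pr_scale 338 1875 h1) (enc_rat _ 43769 100000))))) (pr_add (pr_subr 146861 200000 (pr_scale 273 400 h1)) (pr_cmul (enc_norm (bx3q3_3.enc h1.l h2)) (pr_norm (pr_subr 429803 400000 (pr_scale 4387 4000 h1)))))) (pr_case (pr_subr 37 20 h1) (pr_add (pr_subr 665353 1000000 (pr_scale 6417 10000 h1)) (pr_cmul (enc_norm (bx3q3_3.enc h1.l h2)) (pr_norm (pr_subr 3237339 1600000 (pr_scale 26531 16000 h1))))) (pr_add (pr_subr 1699541 3000000 (pr_scale 88241 150000 h1)) (pr_cmul (enc_norm (bx3q3_3.enc h1.l h2)) (pr_norm (pr_addc (pr_scale 3121 15000 h1) (enc_rat _ 24727 37500))))))))⟩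
noncomputable def l3q3_s : Sl2 l3q3 := ⟨_, fun h1 h2 => (pr_norm (pr_mulz (fun ht => cv3r_two (enc_two h1.r ht)) (cv3r_s.snd h1) (bx3q3_s.snd h1 h2)))⟩
noncomputable def bd3q3_s : Sl2 bd3q3 := ⟨_, fun h1 h2 => (pr_norm (pr_add (pr_csub (enc_rat _ 5103909 1000000) (pr_scale 367981 500000 h1)) (pr_cmul (enc_norm (enc_subr 67 100 h2)) (pr_norm (pr_csub (enc_rat _ 7120201 100000) (pr_scale 2142579 50000 h1))))))⟩
noncomputable def kc3q3_s : Sl2 kc3q3 := ⟨_, fun h1 h2 => (pr_norm (pr_mulz (fun ht => cv3r_two (enc_two h1.r ht)) (cv3r_s.snd h1) (bd3q3_s.snd h1 h2)))⟩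
noncomputable def cv4m_s : Sl1 cv4m := ⟨_, fun h1 => (pr_norm (pr_add (pr_scale 1 10 (c1g_s.snd h1)) (pr_scale 9 10 (pr_addc (swg_s.snd h1) (enc_rat _ 1 2)))))⟩
noncomputable def bf4q0_s : Sl2 bf4q0 := ⟨_, fun h1 h2 => (pr_norm (pr_case (pr_subr 31 100 h1) (pr_case (pr_subr 4 25 h1) (pr_add (pr_csub (enc_pnc _ 1) (pr_scale 71201 40000 h1)) (pr_cmul (enc_norm (bf4q0_3.enc h1.l h2)) (pr_nd (pr_scale 22747 8000 h1)))) (pr_add (pr_csub (enc_rat _ 906713 750000) (pr_scale 92579 30000 h1)) (pr_cmul (enc_norm (bf4q0_3.enc h1.l h2)) (pr_norm (pr_csub (enc_rat _ 852949 750000) (pr_scale 7996 1875 h1)))))) (pr_case (pr_subr 7 20 h1) (pr_add (pr_csub (enc_rat _ 577801 1000000) (pr_scale 21 20 h1)) (pr_cmul (enc_norm (bf4q0_3.enc h1.l h2)) (pr_norm (pr_subr 542771 400000 (pr_scale 121 32 h1))))) (pr_add (pr_csub (enc_rat _ 651861 500000) (pr_scale 156203 50000 h1)) (pr_cmul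 (enc_norm (bf4q0_3.enc h1.l h2)) (pr_norm (pr_subr 85039 100000 (pr_scale 1167 500 h1))))))))⟩
noncomputable def kf4q0_s : Sl2 kf4q0 := ⟨_, fun h1 h2 => (pr_norm (pr_mul (cv4m_s.snd h1) (bf4q0_s.snd h1 h2)))⟩
noncomputable def bx4q0_s : Sl2 bx4q0 := ⟨_, fun h1 h2 => (pr_norm (pr_case (pr_subr 31 100 h1) (pr_case (pr_subr 4 25 h1) (pr_add (pr_scale 251 500 h1) (pr_cmul (enc_norm (bx4q0_3.enc h1.l h2)) (pr_nd (pr_scale 1759 4000 h1)))) (pr_add (pr_addc (pr_scale 1073 18750 h1) (enc_rat _ 16679 234375)) (pr_cmul (enc_norm (bx4q0_3.enc h1.l h2)) (pr_norm (pr_addc (pr_scale 229 1875 h1) (enc_rat _ 19057 375000)))))) (pr_case (pr_subr 7 20 h1) (pr_add (pr_csub (enc_rat _ 539973 4000000) (pr_scale 5947 40000 h1)) (pr_cmul (enc_norm (bx4q0_3.enc h1.l h2)) (pr_norm (pr_csub (enc_rat _ 49359 40000) (pr_scale 7389 2000 h1))))) (pr_add (pr_csub (enc_rat _ 401317 3000000)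 (pr_scale 10889 75000 h1)) (pr_cmul (enc_norm (bx4q0_3.enc h1.l h2)) (pr_norm (pr_subr 233911 300000 (pr_scale 30883 15000 h1))))))))⟩
noncomputable def l4q0_s : Sl2 l4q0 := ⟨_, fun h1 h2 => (pr_norm (pr_mul (cv4m_s.snd h1) (bx4q0_s.snd h1 h2)))⟩
noncomputable def bd4q0_s : Sl2 bd4q0 := ⟨_, fun h1 h2 => (pr_norm (pr_sub (pr_cmul (enc_norm (enc_subr 67 100 h2)) (pr_nd (pr_scale 13959 5000 h1))) (pr_scale 137479 25000 h1)))⟩
noncomputable def kc4q0_s : Sl2 kc4q0 := ⟨_, fun h1 h2 => (pr_norm (pr_mul (cv4m_s.snd h1) (bd4q0_s.snd h1 h2)))⟩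
noncomputable def bf4q1_s : Sl2 bf4q1 := ⟨_, fun h1 h2 => (pr_norm (pr_case (pr_subr 67 100 h1) (pr_add (pr_subr 3628109 8500000 (pr_scale 255521 170000 h1)) (pr_cmul (enc_norm (bf4q1_3.enc h1.l h2)) (pr_norm (pr_subr 725113 850000 (pr_scale 1973 1700 h1))))) (pr_case (pr_subr 83 100 h1) (pr_add (pr_subr 5880437 16000000 (pr_scale 226327 160000 h1)) (pr_cmul (enc_norm (bf4q1_3.enc h1.l h2)) (pr_norm (pr_subr 162651 400000 (pr_scale 1977 4000 h1))))) (pr_add (pr_addc (pr_scale 79039 85000 h1) (enc_rat _ 295387 8500000)) (pr_cmul (enc_norm (bf4q1_3.enc h1.l h2)) (pr_norm (pr_subr 75167 170000 (pr_scale 913 1700 h1))))))))⟩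
noncomputable def kf4q1_s : Sl2 kf4q1 := ⟨_, fun h1 h2 => (pr_norm (pr_mul (cv4m_s.snd h1) (bf4q1_s.snd h1 h2)))⟩
noncomputable def bx4q1_s : Sl2 bx4q1 := ⟨_, fun h1 h2 => (pr_norm (pr_case (pr_subr 67 100 h1) (pr_add (pr_csub (enc_rat _ 583173 3400000) (pr_scale 37137 170000 h1)) (pr_cmul (enc_norm (bx4q1_3.enc h1.l h2)) (pr_norm (pr_subr 1221 17000 (pr_scale 2897 4250 h1))))) (pr_case (pr_subr 83 100 h1) (pr_add (pr_csub (enc_rat _ 1825809 16000000) (pr_scale 21243 160000 h1)) (pr_cmul (enc_norm (bx4q1_3.enc h1.l h2)) (pr_norm (pr_csub (enc_rat _ 1469723 1600000) (pr_scale 2549 3200 h1))))) (pr_add (pr_csub (enc_rat _ 145683 4250000) (pr_scale 6219 170000 h1)) (pr_cmul (enc_norm (bx4q1_3.enc h1.l h2)) (pr_norm (pr_csub (enc_rat _ 31342 53125) (pr_scale 6811 17000 h1))))))))⟩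
noncomputable def l4q1_s : Sl2 l4q1 := ⟨_, fun h1 h2 => (pr_norm (pr_mul (cv4m_s.snd h1) (bx4q1_s.snd h1 h2)))⟩
noncomputable def bd4q1_s : Sl2 bd4q1 := ⟨_, fun h1 h2 => (pr_norm (pr_add (pr_csub (enc_rat _ 248483 1000000) (pr_scale 152559 500000 h1)) (pr_cmul (enc_norm (enc_subr 67 100 h2)) (pr_norm (pr_csub (enc_rat _ 122929 100000) (pr_scale 27879 12500 h1))))))⟩
noncomputable def kc4q1_s : Sl2 kc4q1 := ⟨_, fun h1 h2 => (pr_norm (pr_mul (cv4m_s.snd h1) (bd4q1_s.snd h1 h2)))⟩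
noncomputable def cv4p_s : Sl1 cv4p := ⟨_, fun h1 => (pr_norm (pr_add (pr_scale 1 10 (c1g_s.snd h1)) (pr_scale 9 10 (pr_subr 1 2 (swg_s.snd h1)))))⟩
noncomputable def kf4q2_s : Sl2 kf4q2 := ⟨_, fun h1 h2 => (pr_norm (pr_mul (cv4p_s.snd h1) (pr_norm (pr_case (pr_csub (enc_pnc _ 1) (pr_scale 3 4 (pr_sq h1))) (pr_case (pr_subr 127 100 h1) (pr_add (pr_csub (enc_rat _ 122388029 29000000) (pr_scale 35707 11600 h1)) (pr_cmul (enc_norm (kf4q2_4.enc h1.l h2)) (pr_norm (pr_subr 44535723 5800000 (pr_scale 73519 11600 h1))))) (pr_case (pr_subr 69 50 h1) (pr_add (pr_csub (enc_rat _ 5117067 1375000) (pr_scale 1477 550 h1)) (pr_cmul (enc_norm (kf4q2_4.enc h1.l h2)) (pr_norm (pr_subr 4780409 550000 (pr_scale 78491 11000 h1))))) (pr_add (pr_csub (enc_rat _ 7933193 2000000) (pr_scale 343567 120000 h1)) (pr_cmul (enc_norm (kf4q2_4.enc h1.l h2)) (pr_norm (pr_subr 1837729 50000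 (pr_scale 27471 1000 h1))))))) (pr_case (pr_subr 1 4 (c1g_s.snd h1)) (pr_case (pr_subr 1 10 (c1g_s.snd h1)) (pr_case (pr_subr 1 20 (c1g_s.snd h1)) (pr_add (pr_addc (pr_scale 31421 50000 (c1g_s.snd h1)) (enc_rat _ 665257 1000000)) (pr_cmul (enc_norm (kf4q2_4.enc h1.l h2)) (pr_norm (pr_subr 6579 20000 (pr_scale 2143 1250 (c1g_s.snd h1)))))) (pr_add (pr_addc (pr_scale 1323 2000 (c1g_s.snd h1)) (enc_rat _ 663603 1000000)) (pr_cmul (enc_norm (kf4q2_4.enc h1.l h2)) (pr_norm (pr_subr 29819 100000 (pr_scale 687 625 (c1g_s.snd h1))))))) (pr_case (pr_subr 3 20 (c1g_s.snd h1)) (pr_add (pr_addc (pr_scale 34687 50000 (c1g_s.snd h1)) (enc_rat _ 660379 1000000)) (pr_cmul (enc_norm (kf4q2_4.enc h1.l h2)) (pr_norm (pr_subr 22477 100000 (pr_scale 73 200 (c1g_s.snd h1)))))) (pr_case (pr_subr 1 5 (c1g_s.snd h1)) (pr_add (pr_addc (pr_scale 283 400 (c1g_s.snd h1)) (enc_rat _ 131663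 200000)) (pr_cmul (enc_norm (kf4q2_4.enc h1.l h2)) (pr_norm (pr_subr 1717 10000 (pr_scale 7 625 (c1g_s.snd h1)))))) (pr_add (pr_addc (pr_scale 35413 50000 (c1g_s.snd h1)) (enc_rat _ 658163 1000000)) (pr_cmul (enc_norm (kf4q2_4.enc h1.l h2)) (pr_norm (pr_subr 1547 10000 (pr_neg (pr_scale 369 5000 (c1g_s.snd h1)))))))))) (pr_case (pr_subr 7 20 (c1g_s.snd h1)) (pr_case (pr_subr 3 10 (c1g_s.snd h1)) (pr_add (pr_addc (pr_scale 34839 50000 (c1g_s.snd h1)) (enc_rat _ 661033 1000000)) (pr_cmul (enc_norm (kf4q2_4.enc h1.l h2)) (pr_norm (pr_subr 49 250 (pr_scale 457 5000 (c1g_s.snd h1)))))) (pr_add (pr_addc (pr_scale 6771 10000 (c1g_s.snd h1)) (enc_rat _ 666937 1000000)) (pr_cmul (enc_norm (kf4q2_4.enc h1.l h2)) (pr_norm (pr_subr 7609 25000 (pr_scale 2263 5000 (c1g_s.snd h1))))))) (pr_case (pr_subr 2 5 (c1g_s.snd h1)) (pr_add (pr_addc (pr_scale 33163 50000 (c1g_s.snd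 h1)) (enc_rat _ 671781 1000000)) (pr_cmul (enc_norm (kf4q2_4.enc h1.l h2)) (pr_norm (pr_subr 22477 50000 (pr_scale 4337 5000 (c1g_s.snd h1)))))) (pr_case (pr_subr 9 20 (c1g_s.snd h1)) (pr_add (pr_addc (pr_scale 32401 50000 (c1g_s.snd h1)) (enc_rat _ 677877 1000000)) (pr_cmul (enc_norm (kf4q2_4.enc h1.l h2)) (pr_norm (pr_subr 27497 50000 (pr_scale 699 625 (c1g_s.snd h1)))))) (pr_add (pr_addc (pr_scale 15257 25000 (c1g_s.snd h1)) (enc_rat _ 34743 50000)) (pr_cmul (enc_norm (kf4q2_4.enc h1.l h2)) (pr_norm (pr_subr 2333 5000 (pr_scale 2333 2500 (c1g_s.snd h1))))))))))))))⟩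
noncomputable def l4q2_s : Sl2 l4q2 := ⟨_, fun h1 h2 => (pr_norm (pr_mul (cv4p_s.snd h1) (pr_norm (pr_case (pr_csub (enc_pnc _ 1) (pr_scale 3 4 (pr_sq h1))) (pr_case (pr_subr 127 100 h1) (pr_add (pr_subr 739937 5800000 (pr_scale 1309 14500 h1)) (pr_cmul (enc_norm (l4q2_4.enc h1.l h2)) (pr_norm (pr_subr 55316319 5800000 (pr_scale 91241 11600 h1))))) (pr_case (pr_subr 69 50 h1) (pr_add (pr_subr 1270987 1000000 (pr_scale 4953 5000 h1)) (pr_cmul (enc_norm (l4q2_4.enc h1.l h2)) (pr_norm (pr_subr 5573323 550000 (pr_scale 22921 2750 h1))))) (pr_add (pr_subr 22017 16000 (pr_scale 128009 120000 h1)) (pr_cmul (enc_norm (l4q2_4.enc h1.l h2)) (pr_norm (pr_csub (enc_rat _ 7047 2000) (pr_scale 1171 750 h1))))))) (pr_case (pr_subr 1 4 (c1g_s.snd h1)) (pr_case (pr_subr 1 10 (c1g_s.snd h1)) (pr_case (pr_subr 1 20 (c1g_s.snd h1)) (pr_add (pr_subr 4727 200000 (pr_scale 403 2500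 (c1g_s.snd h1))) (pr_cmul (enc_norm (l4q2_4.enc h1.l h2)) (pr_norm (pr_subr 44229 100000 (pr_neg (pr_scale 2843 5000 (c1g_s.snd h1))))))) (pr_add (pr_subr 4651 200000 (pr_scale 96 625 (c1g_s.snd h1))) (pr_cmul (enc_norm (l4q2_4.enc h1.l h2)) (pr_norm (pr_subr 46157 100000 (pr_neg (pr_scale 183 1000 (c1g_s.snd h1)))))))) (pr_case (pr_subr 3 20 (c1g_s.snd h1)) (pr_add (pr_subr 3439 200000 (pr_scale 93 1000 (c1g_s.snd h1))) (pr_cmul (enc_norm (l4q2_4.enc h1.l h2)) (pr_norm (pr_subr 61287 100000 (pr_scale 133 100 (c1g_s.snd h1)))))) (pr_case (pr_subr 1 5 (c1g_s.snd h1)) (pr_add (pr_subr 9989 1000000 (pr_scale 281 6250 (c1g_s.snd h1))) (pr_cmul (enc_norm (l4q2_4.enc h1.l h2)) (pr_norm (pr_subr 17931 25000 (pr_scale 10129 5000 (c1g_s.snd h1)))))) (pr_add (pr_subr 4209 1000000 (pr_scale 803 50000 (c1g_s.snd h1))) (pr_cmul (enc_norm (l4q2_4.enc h1.l h2)) (pr_norm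 (pr_subr 19147 25000 (pr_scale 2269 1000 (c1g_s.snd h1))))))))) (pr_case (pr_subr 7 20 (c1g_s.snd h1)) (pr_case (pr_subr 3 10 (c1g_s.snd h1)) (pr_add (pr_subr 197 500000 (pr_scale 1 1250 (c1g_s.snd h1))) (pr_cmul (enc_norm (l4q2_4.enc h1.l h2)) (pr_norm (pr_subr 36749 50000 (pr_scale 10727 5000 (c1g_s.snd h1)))))) (pr_add (pr_csub (enc_rat _ 617 250000) (pr_scale 437 50000 (c1g_s.snd h1))) (pr_cmul (enc_norm (l4q2_4.enc h1.l h2)) (pr_norm (pr_subr 14431 25000 (pr_scale 4049 2500 (c1g_s.snd h1))))))) (pr_case (pr_subr 2 5 (c1g_s.snd h1)) (pr_add (pr_csub (enc_rat _ 387 62500) (pr_scale 969 50000 (c1g_s.snd h1))) (pr_cmul (enc_norm (l4q2_4.enc h1.l h2)) (pr_norm (pr_subr 11299 50000 (pr_scale 77 125 (c1g_s.snd h1)))))) (pr_case (pr_subr 9 20 (c1g_s.snd h1)) (pr_add (pr_csub (enc_rat _ 13 2500) (pr_scale 169 10000 (c1g_s.snd h1))) (pr_cmul (enc_norm (l4q2_4.enc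 h1.l h2)) (pr_norm (pr_csub (enc_rat _ 2657 50000) (pr_scale 409 5000 (c1g_s.snd h1)))))) (pr_add (pr_subr 481 20000 (pr_scale 481 10000 (c1g_s.snd h1))) (pr_cmul (enc_norm (l4q2_4.enc h1.l h2)) (pr_norm (pr_csub (enc_rat _ 1633 10000) (pr_scale 1633 5000 (c1g_s.snd h1))))))))))))))⟩
noncomputable def kc4q2_s : Sl2 kc4q2 := ⟨_, fun h1 h2 => (pr_norm (pr_mul (cv4p_s.snd h1) (pr_norm (pr_case (pr_csub (enc_pnc _ 1) (pr_scale 3 4 (pr_sq h1))) (pr_add (pr_subr 13516321 692000 (pr_scale 5428107 346000 h1)) (pr_cmul (enc_norm (kc4q2_4.enc h1.l h2)) (pr_norm (pr_csub (enc_rat _ 1990441673 17300000) (pr_scale 1499961 17300 h1))))) (pr_case (pr_subr 1 4 (c1g_s.snd h1)) (pr_add (pr_subr 1416729 1000000 (pr_scale 685537 125000 (c1g_s.snd h1))) (pr_cmul (enc_norm (kc4q2_4.enc h1.l h2)) (pr_norm (pr_csub (enc_rat _ 93257 6250) (pr_scale 1718591 25000 (c1g_s.snd h1))))))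 (pr_add (pr_subr 9131 100000 (pr_scale 9131 50000 (c1g_s.snd h1))) (pr_cmul (enc_norm (kc4q2_4.enc h1.l h2)) (pr_norm (pr_subr 226479 50000 (pr_scale 226479 25000 (c1g_s.snd h1)))))))))))⟩
noncomputable def cv4r_s : Sl1 cv4r := ⟨_, fun h1 => (pr_norm (pr_scale 9 10 (pr_subr 1 2 (swg_s.snd h1))))⟩
noncomputable def bf4q3_s : Sl2 bf4q3 := ⟨_, fun h1 h2 => (pr_norm (pr_case (pr_subr 169 100 h1) (pr_case (pr_subr 33 20 h1) (pr_add (pr_csub (enc_rat _ 1404221 500000) (pr_scale 256211 150000 h1)) (pr_cmul (enc_norm (bf4q3_3.enc h1.l h2)) (pr_norm (pr_csub (enc_rat _ 2438681 100000) (pr_scale 74529 5000 h1))))) (pr_add (pr_subr 1498767 500000 (pr_scale 18107 10000 h1)) (pr_cmul (enc_norm (bf4q3_3.enc h1.l h2)) (pr_norm (pr_subr 12066229 400000 (pr_scale 581 32 h1)))))) (pr_case (pr_subr 37 20 h1) (pr_add (pr_csub (enc_rat _ 48456001 8000000) (pr_scale 283761 80000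 h1)) (pr_cmul (enc_norm (bf4q3_3.enc h1.l h2)) (pr_norm (pr_csub (enc_rat _ 129211889 800000) (pr_scale 762113 8000 h1))))) (pr_add (pr_csub (enc_rat _ 382441 3000000) (pr_scale 641 1875 h1)) (pr_cmul (enc_norm (bf4q3_3.enc h1.l h2)) (pr_norm (pr_subr 14698543 300000 (pr_scale 69469 3750 h1))))))))⟩
noncomputable def kf4q3_s : Sl2 kf4q3 := ⟨_, fun h1 h2 => (pr_norm (pr_mulz (fun ht => cv4r_two (enc_two h1.r ht)) (cv4r_s.snd h1) (bf4q3_s.snd h1 h2)))⟩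
noncomputable def bx4q3_s : Sl2 bx4q3 := ⟨_, fun h1 h2 => (pr_norm (pr_case (pr_subr 169 100 h1) (pr_case (pr_subr 33 20 h1) (pr_add (pr_subr 74671 62500 (pr_scale 47507 50000 h1)) (pr_cmul (enc_norm (bx4q3_3.enc h1.l h2)) (pr_norm (pr_csub (enc_rat _ 15957 2000) (pr_scale 12021 2500 h1))))) (pr_add (pr_subr 158827 160000 (pr_scale 33107 40000 h1)) (pr_cmul (enc_norm (bx4q3_3.enc h1.l h2)) (pr_norm (pr_subr 236739 400000 (pr_scale 1543 4000 h1)))))) (pr_case (pr_subr 37 20 h1) (pr_add (pr_subr 12712429 16000000 (pr_scale 113669 160000 h1)) (pr_cmul (enc_norm (bx4q3_3.enc h1.l h2)) (pr_norm (pr_subr 5858693 400000 (pr_scale 34809 4000 h1))))) (pr_add (pr_csub (enc_rat _ 3865597 3000000) (pr_scale 15583 37500 h1)) (pr_cmul (enc_norm (bx4q3_3.enc h1.l h2)) (pr_norm (pr_csub (enc_rat _ 901033 50000) (pr_scale 44779 5000 h1))))))))⟩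
noncomputable def l4q3_s : Sl2 l4q3 := ⟨_, fun h1 h2 => (pr_norm (pr_mulz (fun ht => cv4r_two (enc_two h1.r ht)) (cv4r_s.snd h1) (bx4q3_s.snd h1 h2)))⟩
noncomputable def bd4q3_s : Sl2 bd4q3 := ⟨_, fun h1 h2 => (pr_norm (pr_add (pr_csub (enc_rat _ 2508843 500000) (pr_scale 347749 500000 h1)) (pr_cmul (enc_norm (enc_subr 67 100 h2)) (pr_norm (pr_csub (enc_rat _ 1799523 25000) (pr_scale 1087259 25000 h1))))))⟩
noncomputable def kc4q3_s : Sl2 kc4q3 := ⟨_, fun h1 h2 => (pr_norm (pr_mulz (fun ht => cv4r_two (enc_two h1.r ht)) (cv4r_s.snd h1) (bd4q3_s.snd h1 h2)))⟩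
noncomputable def c3g_s : Sl1 c3g := ⟨_, fun h1 => (pr_sqrtg (pr_csub (enc_pnc _ 3) (pr_scale 3 4 (pr_sq h1))))⟩
noncomputable def cv5m_s : Sl1 cv5m := ⟨_, fun h1 => (pr_norm (pr_add (pr_scale 7 10 (pr_addc (swg_s.snd h1) (enc_rat _ 1 2))) (pr_scale 3 10 (c3g_s.snd h1))))⟩
noncomputable def esg_s : Sl1 esg := ⟨_, fun h1 => (pr_norm (pr_subn 1 (pr_add (pr_half h1) (gsg_s.snd h1))))⟩
noncomputable def kf5q0_42_s : Sl2 kf5q0_42 := ⟨_, fun h1 h2 => (pr_csub (enc_pnc _ 1) h1)⟩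
noncomputable def kf5q0_43_s : Sl2 kf5q0_43 := ⟨_, fun h1 h2 => (gsg_s.snd (pr_norm (kf5q0_42_s.snd h1 h2)))⟩
noncomputable def kf5q0_46_s : Sl2 kf5q0_46 := ⟨_, fun h1 h2 => (pr_sub (pr_scale 3 4 (kf5q0_42_s.snd h1 h2)) (pr_half (kf5q0_43_s.snd h1 h2)))⟩
noncomputable def kf5q0_64_s : Sl2 kf5q0_64 := ⟨_, fun h1 h2 => (pr_mul (cv4m_s.snd h1) (bf4q0_s.snd h1 h2))⟩
noncomputable def kf5q0_s : Sl2 kf5q0 := ⟨_, fun h1 h2 => (pr_norm (pr_case (pr_subr 29 100 h1) (pr_mul (cv5m_s.snd h1) (pr_norm (pr_case (pr_subr 3 20 h1) (pr_add (pr_csub (enc_rat _ 358941 500000) (pr_scale 13153 9375 h1)) (pr_cmul (enc_norm (kf5q0_4.enc h1.l h2)) (pr_norm (pr_subr 41669 100000 (pr_scale 30141 5000 h1))))) (pr_add (pr_csub (enc_rat _ 1795163143 2000000000) (pr_scale 260098381 100000000 h1)) (pr_cmul (enc_norm (kf5q0_4.enc h1.l h2)) (pr_norm (pr_csub (enc_rat _ 81508981 70000000)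 (pr_scale 15793727 3500000 h1)))))))) (pr_case (pr_subr 37 100 h1) (pr_add (kf5q0_64_s.snd h1 h2) (pr_mul (pr_norm (pr_mul (pr_norm (pr_sub (pr_mul h1 (pr_norm (pr_sub (pr_mul (pr_norm (pr_sub (kf5q0_46_s.snd h1 h2) (pr_csub (enc_rat _ 1 4) (pr_scale 3 8 (pr_mul (pr_norm (kf5q0_42_s.snd h1 h2)) (pr_nd (pr_inv (kf5q0_43_s.snd h1 h2)))))))) (pr_nd (pr_inv (esg_s.snd (pr_norm (kf5q0_42_s.snd h1 h2)))))) (kcg_s.snd (pr_norm (kf5q0_46_s.snd h1 h2)) h2)))) (kf5q0_64_s.snd h1 h2))) (pr_norm (pr_sub (cv5m_s.snd h1) (cv4m_s.snd h1))))) (pr_nd (pr_inv (pr_sub (pr_addc (swg_s.snd h1) (enc_rat _ 1 2)) (cv4m_s.snd h1)))))) (pr_mul (cv5m_s.snd h1) (pr_norm (pr_add (pr_csub (enc_rat _ 2698247629 2600000000) (pr_scale 3573228229 1300000000 h1)) (pr_cmul (enc_norm (kf5q0_4.enc h1.l h2)) (pr_norm (pr_subr 377430933 260000000 (pr_scale 498003333 130000000 h1))))))))))⟩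
noncomputable def qsg_s : Sl1 qsg := ⟨_, fun h1 => (pr_norm (pr_mul (pr_norm (pr_csub (enc_pnc _ 1) (gsg_s.snd h1))) (pr_norm (pr_subn 1 (pr_nat 2 (gsg_s.snd h1))))))⟩
noncomputable def l5q0_54_s : Sl2 l5q0_54 := ⟨_, fun h1 h2 => (pr_csub (enc_pnc _ 1) h1)⟩
noncomputable def l5q0_69_s : Sl2 l5q0_69 := ⟨_, fun h1 h2 => (pr_mul (cv4m_s.snd h1) (bx4q0_s.snd h1 h2))⟩
noncomputable def l5q0_s : Sl2 l5q0 := ⟨_, fun h1 h2 => (pr_norm (pr_case (pr_subr 29 100 h1) (pr_mul (cv5m_s.snd h1) (pr_norm (pr_case (pr_subr 3 20 h1) (pr_add (pr_addc (pr_scale 11161 37500 h1) (enc_rat _ 42107 500000)) (pr_cmul (enc_norm (l5q0_4.enc h1.l h2)) (pr_norm (pr_csub (enc_rat _ 2477 25000) (pr_scale 2689 7500 h1))))) (pr_add (pr_add (pr_csub (enc_rat _ 4316816753 28000000000) (pr_scale 236264251 1400000000 h1)) (pr_cmul (enc_norm (l5q0_4.enc h1.l h2)) (pr_norm (pr_csub (enc_rat _ 191674467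 2800000000) (pr_scale 21611489 140000000 h1))))) (pr_cmul (l5q0_30.enc h1.l h2) (pr_norm (pr_subr 735681 1400000 (pr_scale 245227 70000 h1)))))))) (pr_case (pr_subr 37 100 h1) (pr_add (l5q0_69_s.snd h1 h2) (pr_mul (pr_norm (pr_mul (pr_norm (pr_sub (pr_sub (qsg_s.snd (pr_norm (l5q0_54_s.snd h1 h2))) (pr_mul (pr_norm (pr_nat 2 (pr_subc (l5q0_54_s.snd h1 h2) h2))) (pr_norm (pr_mul (esg_s.snd (pr_norm (l5q0_54_s.snd h1 h2))) (kcg_s.snd (pr_norm (pr_sub (pr_scale 3 4 (l5q0_54_s.snd h1 h2)) (pr_half (gsg_s.snd (pr_norm (l5q0_54_s.snd h1 h2)))))) h2))))) (l5q0_69_s.snd h1 h2))) (pr_norm (pr_sub (cv5m_s.snd h1) (cv4m_s.snd h1))))) (pr_nd (pr_inv (pr_sub (pr_addc (swg_s.snd h1) (enc_rat _ 1 2)) (cv4m_s.snd h1)))))) (pr_mul (cv5m_s.snd h1) (pr_norm (pr_add (pr_add (pr_csub (enc_rat _ 466747383 2600000000) (pr_scale 310146783 1300000000 h1)) (pr_cmul (enc_norm (l5q0_4.enc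 h1.l h2)) (pr_norm (pr_csub (enc_rat _ 49129739 260000000) (pr_scale 7085139 130000000 h1))))) (pr_cmul (l5q0_30.enc h1.l h2) (pr_norm (pr_csub (enc_rat _ 97 26000) (pr_scale 97 13000 h1))))))))))⟩
noncomputable def kc5q0_29_s : Sl2 kc5q0_29 := ⟨_, fun h1 h2 => (pr_csub (enc_pnc _ 1) h1)⟩
noncomputable def kc5q0_30_s : Sl2 kc5q0_30 := ⟨_, fun h1 h2 => (gsg_s.snd (pr_norm (kc5q0_29_s.snd h1 h2)))⟩
noncomputable def kc5q0_34_s : Sl2 kc5q0_34 := ⟨_, fun h1 h2 => (esg_s.snd (pr_norm (kc5q0_29_s.snd h1 h2)))⟩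
noncomputable def kc5q0_38_s : Sl2 kc5q0_38 := ⟨_, fun h1 h2 => (gug_s.snd (pr_norm (kc5q0_29_s.snd h1 h2)))⟩
noncomputable def kc5q0_40_s : Sl2 kc5q0_40 := ⟨_, fun h1 h2 => (pr_mul (pr_norm (kc5q0_29_s.snd h1 h2)) (pr_nd (pr_inv (kc5q0_30_s.snd h1 h2))))⟩
noncomputable def kc5q0_41_s : Sl2 kc5q0_41 := ⟨_, fun h1 h2 => (pr_scale 3 4 (kc5q0_40_s.snd h1 h2))⟩
noncomputable def kc5q0_70_s : Sl2 kc5q0_70 := ⟨_, fun h1 h2 => (pr_mul (cv4m_s.snd h1) (bd4q0_s.snd h1 h2))⟩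
noncomputable def kc5q0_s : Sl2 kc5q0 := ⟨_, fun h1 h2 => (pr_norm (pr_case (pr_subr 29 100 h1) (pr_mul (cv5m_s.snd h1) (pr_norm (pr_add (pr_csub (enc_rat _ 616187 1000000) (pr_scale 4668020653 580000000 h1)) (pr_cmul (enc_norm (kc5q0_4.enc h1.l h2)) (pr_norm (pr_csub (enc_rat _ 21199 2500) (pr_scale 5485610699 290000000 h1))))))) (pr_case (pr_subr 37 100 h1) (pr_add (kc5q0_70_s.snd h1 h2) (pr_mul (pr_norm (pr_mul (pr_norm (pr_sub (pr_add (pr_sub (pr_neg (pr_add (pr_cadd (enc_rat _ 3 4) (pr_scale 3 2 (kc5q0_29_s.snd h1 h2))) (pr_scale 3 4 (pr_mul (pr_norm (kc5q0_40_s.snd h1 h2)) (kc5q0_38_s.snd h1 h2))))) (pr_mul (pr_norm (pr_sub (pr_mul (pr_norm (pr_mul (pr_norm (kc5q0_41_s.snd h1 h2)) (pr_norm (pr_subn 3 (pr_nat 4 (kc5q0_30_s.snd h1 h2)))))) (kc5q0_34_s.snd h1 h2)) (pr_mul (qsg_s.snd (pr_norm (kc5q0_29_s.snd h1 h2))) (pr_norm (pr_csub (enc_rat _ 1 2) (kc5q0_41_s.snd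 h1 h2)))))) (pr_nd (pr_inv (pr_mul (pr_nd (pr_nat 2 (kc5q0_34_s.snd h1 h2))) (kc5q0_34_s.snd h1 h2)))))) (pr_mul (kcg_s.snd (pr_norm (pr_sub (pr_scale 3 4 (kc5q0_29_s.snd h1 h2)) (pr_half (kc5q0_30_s.snd h1 h2)))) h2) (pr_norm (pr_cadd (enc_pnc _ 1) (pr_add (kc5q0_38_s.snd h1 h2) (pr_nat 2 (kc5q0_30_s.snd h1 h2))))))) (kc5q0_70_s.snd h1 h2))) (pr_norm (pr_sub (cv5m_s.snd h1) (cv4m_s.snd h1))))) (pr_nd (pr_inv (pr_sub (pr_addc (swg_s.snd h1) (enc_rat _ 1 2)) (cv4m_s.snd h1)))))) (pr_mul (cv5m_s.snd h1) (pr_norm (pr_add (pr_csub (enc_rat _ 1610034589 1300000000) (pr_scale 4140849889 650000000 h1)) (pr_cmul (enc_norm (kc5q0_4.enc h1.l h2)) (pr_norm (pr_subr 307064289 52000000 (pr_scale 233600769 26000000 h1))))))))))⟩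
noncomputable def bf5q1_s : Sl2 bf5q1 := ⟨_, fun h1 h2 => (pr_norm (pr_case (pr_subr 67 100 h1) (pr_add (pr_subr 527609 1700000 (pr_scale 238489 170000 h1)) (pr_cmul (enc_norm (bf5q1_3.enc h1.l h2)) (pr_norm (pr_subr 585143 850000 (pr_scale 15243 17000 h1))))) (pr_case (pr_subr 83 100 h1) (pr_add (pr_subr 4095453 16000000 (pr_scale 211471 160000 h1)) (pr_cmul (enc_norm (bf5q1_3.enc h1.l h2)) (pr_norm (pr_subr 13087 40000 (pr_scale 143 400 h1))))) (pr_add (pr_addc (pr_scale 1987 2125 h1) (enc_rat _ 138 2125)) (pr_cmul (enc_norm (bf5q1_3.enc h1.l h2)) (pr_norm (pr_subr 609 3400 (pr_scale 609 3400 h1))))))))⟩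
noncomputable def kf5q1_s : Sl2 kf5q1 := ⟨_, fun h1 h2 => (pr_norm (pr_mul (cv5m_s.snd h1) (bf5q1_s.snd h1 h2)))⟩
noncomputable def bx5q1_s : Sl2 bx5q1 := ⟨_, fun h1 h2 => (pr_norm (pr_case (pr_subr 67 100 h1) (pr_add (pr_csub (enc_rat _ 2523091 17000000) (pr_scale 30003 170000 h1)) (pr_cmul (enc_norm (bx5q1_3.enc h1.l h2)) (pr_norm (pr_addc (pr_scale 2803 8500 h1) (enc_rat _ 117313 1700000))))) (pr_case (pr_subr 83 100 h1) (pr_add (pr_csub (enc_rat _ 49523 500000) (pr_scale 257 2500 h1)) (pr_cmul (enc_norm (bx5q1_3.enc h1.l h2)) (pr_norm (pr_csub (enc_rat _ 922937 1600000) (pr_scale 6851 16000 h1))))) (pr_add (pr_csub (enc_rat _ 6861 85000) (pr_scale 6861 85000 h1)) (pr_cmul (enc_norm (bx5q1_3.enc h1.l h2)) (pr_norm (pr_csub (enc_rat _ 2768 2125) (pr_scale 2768 2125 h1))))))))⟩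
noncomputable def l5q1_s : Sl2 l5q1 := ⟨_, fun h1 h2 => (pr_norm (pr_mul (cv5m_s.snd h1) (bx5q1_s.snd h1 h2)))⟩
noncomputable def bd5q1_s : Sl2 bd5q1 := ⟨_, fun h1 h2 => (pr_norm (pr_add (pr_subr 40163 125000 (pr_scale 40163 125000 h1)) (pr_cmul (enc_norm (enc_subr 67 100 h2)) (pr_norm (pr_subr 92613 25000 (pr_scale 92613 25000 h1))))))⟩
noncomputable def kc5q1_s : Sl2 kc5q1 := ⟨_, fun h1 h2 => (pr_norm (pr_mul (cv5m_s.snd h1) (bd5q1_s.snd h1 h2)))⟩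
noncomputable def cv5p_s : Sl1 cv5p := ⟨_, fun h1 => (pr_norm (pr_add (pr_scale 7 10 (pr_subr 1 2 (swg_s.snd h1))) (pr_scale 3 10 (c3g_s.snd h1))))⟩
noncomputable def bf5q2_s : Sl2 bf5q2 := ⟨_, fun h1 h2 => (pr_norm (pr_case (pr_subr 117 100 h1) (pr_add (pr_subr 685961 4250000 (pr_scale 11531 10625 h1)) (pr_cmul (enc_norm (bf5q2_3.enc h1.l h2)) (pr_norm (pr_csub (enc_rat _ 18869431 1700000) (pr_scale 192393 17000 h1))))) (pr_case (pr_subr 133 100 h1) (pr_add (pr_csub (enc_rat _ 9955459 2000000) (pr_scale 66143 20000 h1)) (pr_cmul (enc_norm (bf5q2_3.enc h1.l h2)) (pr_norm (pr_subr 1349401 100000 (pr_scale 9703 1000 h1))))) (pr_add (pr_csub (enc_rat _ 16889953 3400000) (pr_scale 22437 6800 h1)) (pr_cmul (enc_norm (bf5q2_3.enc h1.l h2)) (pr_norm (pr_subr 10209667 850000 (pr_scale 146 17 h1))))))))⟩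
noncomputable def kf5q2_s : Sl2 kf5q2 := ⟨_, fun h1 h2 => (pr_norm (pr_mul (cv5p_s.snd h1) (bf5q2_s.snd h1 h2)))⟩
noncomputable def bx5q2_s : Sl2 bx5q2 := ⟨_, fun h1 h2 => (pr_norm (pr_case (pr_subr 117 100 h1) (pr_add (pr_csub (enc_rat _ 4264607 17000000) (pr_scale 27759 170000 h1)) (pr_cmul (enc_norm (bx5q2_3.enc h1.l h2)) (pr_norm (pr_csub (enc_rat _ 1746879 1700000) (pr_scale 20531 17000 h1))))) (pr_case (pr_subr 133 100 h1) (pr_add (pr_csub (enc_rat _ 4321561 16000000) (pr_scale 28757 160000 h1)) (pr_cmul (enc_norm (bx5q2_3.enc h1.l h2)) (pr_norm (pr_csub (enc_rat _ 2227449 1600000) (pr_scale 24309 16000 h1))))) (pr_add (pr_subr 2960063 3400000 (pr_scale 461 680 h1)) (pr_cmul (enc_norm (bx5q2_3.enc h1.l h2)) (pr_norm (pr_subr 445627 100000 (pr_scale 1439 500 h1))))))))⟩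
noncomputable def l5q2_s : Sl2 l5q2 := ⟨_, fun h1 h2 => (pr_norm (pr_mul (cv5p_s.snd h1) (bx5q2_s.snd h1 h2)))⟩
noncomputable def bd5q2_s : Sl2 bd5q2 := ⟨_, fun h1 h2 => (pr_norm (pr_add (pr_subr 2527369 1000000 (pr_scale 271467 125000 h1)) (pr_cmul (enc_norm (enc_subr 67 100 h2)) (pr_norm (pr_subr 4228521 100000 (pr_scale 119344 3125 h1))))))⟩
noncomputable def kc5q2_s : Sl2 kc5q2 := ⟨_, fun h1 h2 => (pr_norm (pr_mul (cv5p_s.snd h1) (bd5q2_s.snd h1 h2)))⟩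
noncomputable def ycg_s : Sl1 ycg := ⟨_, fun h1 => (pr_sqrtg (pr_scale 4 3 (pr_csub (enc_pnc _ 3) (pr_sq h1))))⟩
noncomputable def xc53_s : Sl1 xc53 := ⟨_, fun h1 => (pr_norm (pr_add (pr_scale 7 10 (pr_subr 1 2 (swg_s.snd (pr_nd (ycg_s.snd h1))))) (pr_scale 3 10 h1)))⟩
noncomputable def kfc53_6_s : Sl2 kfc53_6 := ⟨_, fun h1 h2 => (pr_subr 1 2 (swg_s.snd (pr_nd (ycg_s.snd h1))))⟩
noncomputable def kfc53_9_s : Sl2 kfc53_9 := ⟨_, fun h1 h2 => (pr_add (pr_scale 7 10 (kfc53_6_s.snd h1 h2)) (pr_scale 3 10 h1))⟩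
noncomputable def kfc53_47_s : Sl2 kfc53_47 := ⟨_, fun h1 h2 => (pr_subn 1 (ycg_s.snd h1))⟩
noncomputable def kfc53_48_s : Sl2 kfc53_48 := ⟨_, fun h1 h2 => (gsg_s.snd (pr_norm (kfc53_47_s.snd h1 h2)))⟩
noncomputable def kfc53_49_s : Sl2 kfc53_49 := ⟨_, fun h1 h2 => (pr_scale 3 4 (kfc53_47_s.snd h1 h2))⟩
noncomputable def kfc53_50_s : Sl2 kfc53_50 := ⟨_, fun h1 h2 => (pr_half (kfc53_48_s.snd h1 h2))⟩
noncomputable def kfc53_67_s : Sl2 kfc53_67 := ⟨_, fun h1 h2 => (cv4r_s.snd (pr_nd (ycg_s.snd h1)))⟩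
noncomputable def kfc53_69_s : Sl2 kfc53_69 := ⟨_, fun h1 h2 => (pr_mul (kfc53_67_s.snd h1 h2) (bf4q3_s.snd (pr_nd (ycg_s.snd h1)) h2))⟩
noncomputable def kfc53_s : Sl2 kfc53 := ⟨_, fun h1 h2 => (pr_norm (pr_case (pr_subr 163 100 (ycg_s.snd h1)) (pr_mul (pr_norm (kfc53_9_s.snd h1 h2)) (pr_norm (pr_add (pr_subr 268082150703725451 118323422500000000 (pr_scale 1000389371 473293690 h1)) (pr_cmul (enc_norm (kfc53_11.enc h1.l h2)) (pr_norm (pr_subr 2918386462927571 275170750000000 (pr_scale 33880673 3302049 h1))))))) (pr_case (pr_subr 171 100 (ycg_s.snd h1)) (pr_add (kfc53_69_s.snd h1 h2) (pr_mul (pr_norm (pr_mul (pr_norm (pr_sub (pr_mul (pr_norm (pr_subn 2 (ycg_s.snd h1))) (pr_norm (pr_add (pr_mul (pr_norm (pr_sub (pr_sub (kfc53_50_s.snd h1 h2) (kfc53_49_s.snd h1 h2)) (pr_csub (enc_rat _ 1 4) (pr_scale 3 8 (pr_mul (pr_norm (kfc53_47_s.snd h1 h2)) (pr_nd (pr_inv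 (kfc53_48_s.snd h1 h2)))))))) (pr_nd (pr_inv (esg_s.snd (pr_norm (kfc53_47_s.snd h1 h2)))))) (kcg_s.snd (pr_norm (pr_sub (kfc53_49_s.snd h1 h2) (kfc53_50_s.snd h1 h2))) h2)))) (kfc53_69_s.snd h1 h2))) (pr_norm (pr_sub (kfc53_9_s.snd h1 h2) (kfc53_67_s.snd h1 h2))))) (pr_nd (pr_inv (pr_sub (kfc53_6_s.snd h1 h2) (kfc53_67_s.snd h1 h2)))))) (pr_mul (pr_norm (kfc53_9_s.snd h1 h2)) (pr_norm (pr_case (pr_csub (enc_rat _ 318315881 500000000) h1) (pr_add (pr_subr 19058646192468753 25159450000000000 (pr_scale 598558069 654145700 h1)) (pr_cmul (enc_norm (kfc53_11.enc h1.l h2)) (pr_norm (pr_subr 214774198897583687 10063780000000000 (pr_scale 6988038051 261658280 h1))))) (pr_sub (pr_csub (enc_rat _ 1 2) (pr_scale 337491000 318315881 h1)) (pr_cmul (enc_norm (kfc53_11.enc h1.l h2)) (pr_nd (pr_scale 2169475000 318315881 h1))))))))))⟩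
noncomputable def lc53_6_s : Sl2 lc53_6 := ⟨_, fun h1 h2 => (pr_subr 1 2 (swg_s.snd (pr_nd (ycg_s.snd h1))))⟩
noncomputable def lc53_9_s : Sl2 lc53_9 := ⟨_, fun h1 h2 => (pr_add (pr_scale 7 10 (lc53_6_s.snd h1 h2)) (pr_scale 3 10 h1))⟩
noncomputable def lc53_60_s : Sl2 lc53_60 := ⟨_, fun h1 h2 => (pr_subn 1 (ycg_s.snd h1))⟩
noncomputable def lc53_73_s : Sl2 lc53_73 := ⟨_, fun h1 h2 => (cv4r_s.snd (pr_nd (ycg_s.snd h1)))⟩
noncomputable def lc53_75_s : Sl2 lc53_75 := ⟨_, fun h1 h2 => (pr_mul (lc53_73_s.snd h1 h2) (bx4q3_s.snd (pr_nd (ycg_s.snd h1)) h2))⟩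
noncomputable def lc53_s : Sl2 lc53 := ⟨_, fun h1 h2 => (pr_norm (pr_case (pr_subr 163 100 (ycg_s.snd h1)) (pr_mul (pr_norm (lc53_9_s.snd h1 h2)) (pr_norm (pr_add (pr_add (pr_csub (enc_rat _ 122043584774076859 118323422500000000) (pr_scale 1108909417 1419881070 h1)) (pr_cmul (enc_norm (lc53_11.enc h1.l h2)) (pr_norm (pr_csub (enc_rat _ 1037822311447211 369760695312500) (pr_scale 377839276 141988107 h1))))) (pr_cmul (lc53_26.enc h1.l h2) (pr_norm (pr_csub (enc_rat _ 1813936213 47329369000) (pr_scale 4750000 141988107 h1))))))) (pr_case (pr_subr 171 100 (ycg_s.snd h1)) (pr_add (lc53_75_s.snd h1 h2) (pr_mul (pr_norm (pr_mul (pr_norm (pr_sub (pr_sub (qsg_s.snd (pr_norm (lc53_60_s.snd h1 h2))) (pr_mul (pr_norm (pr_nat 2 (pr_subc (lc53_60_s.snd h1 h2) h2))) (pr_norm (pr_mul (esg_s.snd (pr_norm (lc53_60_s.snd h1 h2))) (kcg_s.snd (pr_norm (pr_sub (pr_scale 3 4 (lc53_60_s.snd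 h1 h2)) (pr_half (gsg_s.snd (pr_norm (lc53_60_s.snd h1 h2)))))) h2))))) (lc53_75_s.snd h1 h2))) (pr_norm (pr_sub (lc53_9_s.snd h1 h2) (lc53_73_s.snd h1 h2))))) (pr_nd (pr_inv (pr_sub (lc53_6_s.snd h1 h2) (lc53_73_s.snd h1 h2)))))) (pr_mul (pr_norm (lc53_9_s.snd h1 h2)) (pr_norm (pr_case (pr_csub (enc_rat _ 318315881 500000000) h1) (pr_add (pr_add (pr_csub (enc_rat _ 40395037576611341 100637800000000000) (pr_scale 7094661 201275600 h1)) (pr_cmul (enc_norm (lc53_11.enc h1.l h2)) (pr_norm (pr_subr 427863046544423 201275600000000 (pr_scale 80414895 26165828 h1))))) (pr_cmul (lc53_26.enc h1.l h2) (pr_norm (pr_subr 26584591546781 5031890000000 (pr_scale 54285650 6541457 h1))))) (pr_add (pr_addc (pr_scale 533074175 1909895286 h1) (enc_rat _ 24151033 120000000)) (pr_cmul (enc_norm (lc53_11.enc h1.l h2)) (pr_norm (pr_csub (enc_rat _ 16510739 30000000) (pr_scale 1079351950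 954947643 h1)))))))))))⟩
noncomputable def kcc53_6_s : Sl2 kcc53_6 := ⟨_, fun h1 h2 => (pr_subr 1 2 (swg_s.snd (pr_nd (ycg_s.snd h1))))⟩
noncomputable def kcc53_9_s : Sl2 kcc53_9 := ⟨_, fun h1 h2 => (pr_add (pr_scale 7 10 (kcc53_6_s.snd h1 h2)) (pr_scale 3 10 h1))⟩
noncomputable def kcc53_35_s : Sl2 kcc53_35 := ⟨_, fun h1 h2 => (pr_subn 1 (ycg_s.snd h1))⟩
noncomputable def kcc53_36_s : Sl2 kcc53_36 := ⟨_, fun h1 h2 => (gsg_s.snd (pr_norm (kcc53_35_s.snd h1 h2)))⟩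
noncomputable def kcc53_40_s : Sl2 kcc53_40 := ⟨_, fun h1 h2 => (esg_s.snd (pr_norm (kcc53_35_s.snd h1 h2)))⟩
noncomputable def kcc53_45_s : Sl2 kcc53_45 := ⟨_, fun h1 h2 => (gug_s.snd (pr_norm (kcc53_35_s.snd h1 h2)))⟩
noncomputable def kcc53_47_s : Sl2 kcc53_47 := ⟨_, fun h1 h2 => (pr_mul (pr_norm (kcc53_35_s.snd h1 h2)) (pr_nd (pr_inv (kcc53_36_s.snd h1 h2))))⟩
noncomputable def kcc53_48_s : Sl2 kcc53_48 := ⟨_, fun h1 h2 => (pr_scale 3 4 (kcc53_47_s.snd h1 h2))⟩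
noncomputable def kcc53_73_s : Sl2 kcc53_73 := ⟨_, fun h1 h2 => (cv4r_s.snd (pr_nd (ycg_s.snd h1)))⟩
noncomputable def kcc53_75_s : Sl2 kcc53_75 := ⟨_, fun h1 h2 => (pr_mul (kcc53_73_s.snd h1 h2) (bd4q3_s.snd (pr_nd (ycg_s.snd h1)) h2))⟩
noncomputable def kcc53_s : Sl2 kcc53 := ⟨_, fun h1 h2 => (pr_norm (pr_case (pr_subr 163 100 (ycg_s.snd h1)) (pr_mul (pr_norm (kcc53_9_s.snd h1 h2)) (pr_norm (pr_add (pr_subr 1616579290796717379 118323422500000000 (pr_scale 20696641177 1419881070 h1)) (pr_cmul (enc_norm (kcc53_11.enc h1.l h2)) (pr_norm (pr_subr 146532074950575087 1479042781250000 (pr_scale 13496652548 141988107 h1))))))) (pr_case (pr_subr 171 100 (ycg_s.snd h1)) (pr_add (kcc53_75_s.snd h1 h2) (pr_mul (pr_norm (pr_mul (pr_norm (pr_sub (pr_add (pr_sub (pr_add (pr_cadd (enc_rat _ 3 4) (pr_scale 3 2 (kcc53_35_s.snd h1 h2))) (pr_scale 3 4 (pr_mul (pr_norm (kcc53_47_s.snd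 h1 h2)) (kcc53_45_s.snd h1 h2)))) (pr_mul (pr_norm (pr_sub (pr_mul (pr_norm (pr_mul (pr_norm (kcc53_48_s.snd h1 h2)) (pr_norm (pr_subn 3 (pr_nat 4 (kcc53_36_s.snd h1 h2)))))) (kcc53_40_s.snd h1 h2)) (pr_mul (qsg_s.snd (pr_norm (kcc53_35_s.snd h1 h2))) (pr_norm (pr_csub (enc_rat _ 1 2) (kcc53_48_s.snd h1 h2)))))) (pr_nd (pr_inv (pr_mul (pr_nd (pr_nat 2 (kcc53_40_s.snd h1 h2))) (kcc53_40_s.snd h1 h2)))))) (pr_mul (kcg_s.snd (pr_norm (pr_sub (pr_scale 3 4 (kcc53_35_s.snd h1 h2)) (pr_half (kcc53_36_s.snd h1 h2)))) h2) (pr_norm (pr_csub (enc_pnc _ 1) (pr_add (kcc53_45_s.snd h1 h2) (pr_nat 2 (kcc53_36_s.snd h1 h2))))))) (kcc53_75_s.snd h1 h2))) (pr_norm (pr_sub (kcc53_9_s.snd h1 h2) (kcc53_73_s.snd h1 h2))))) (pr_nd (pr_inv (pr_sub (kcc53_6_s.snd h1 h2) (kcc53_73_s.snd h1 h2)))))) (pr_mul (pr_norm (kcc53_9_s.snd h1 h2)) (pr_norm (pr_add (pr_subr 147663 280000 (pr_scale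 34651835733 10480050490 h1)) (pr_cmul (enc_norm (kcc53_11.enc h1.l h2)) (pr_norm (pr_subr 54322 875 (pr_scale 208710192328 3144015147 h1))))))))))⟩
noncomputable def cv6m_s : Sl1 cv6m := ⟨_, fun h1 => (pr_norm (pr_add (pr_scale 2 5 (pr_addc (swg_s.snd h1) (enc_rat _ 1 2))) (pr_scale 3 5 (c3g_s.snd h1))))⟩
noncomputable def bf6q0_s : Sl2 bf6q0 := ⟨_, fun h1 h2 => (pr_norm (pr_case (pr_subr 31 100 h1) (pr_case (pr_subr 4 25 h1) (pr_add (pr_csub (enc_rat _ 200957 500000) (pr_scale 2493 3200 h1)) (pr_cmul (enc_norm (bf6q0_3.enc h1.l h2)) (pr_norm (pr_subr 2461 5000 (pr_scale 77629 16000 h1))))) (pr_add (pr_csub (enc_rat _ 182559 312500) (pr_scale 47957 25000 h1)) (pr_cmul (enc_norm (bf6q0_3.enc h1.l h2)) (pr_norm (pr_csub (enc_rat _ 318733 500000) (pr_scale 11043 5000 h1)))))) (pr_case (pr_subr 7 20 h1) (pr_add (pr_csub (enc_rat _ 43617 200000) (pr_scale 7373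 10000 h1)) (pr_cmul (enc_norm (bf6q0_3.enc h1.l h2)) (pr_norm (pr_subr 92551 200000 (pr_scale 2681 2000 h1))))) (pr_add (pr_csub (enc_rat _ 11368 15625) (pr_scale 54823 25000 h1)) (pr_cmul (enc_norm (bf6q0_3.enc h1.l h2)) (pr_norm (pr_subr 222053 300000 (pr_scale 31997 15000 h1))))))))⟩
noncomputable def kf6q0_s : Sl2 kf6q0 := ⟨_, fun h1 h2 => (pr_norm (pr_mul (cv6m_s.snd h1) (bf6q0_s.snd h1 h2)))⟩
noncomputable def bx6q0_s : Sl2 bx6q0 := ⟨_, fun h1 h2 => (pr_norm (pr_case (pr_subr 31 100 h1) (pr_case (pr_subr 4 25 h1) (pr_add (pr_csub (enc_rat _ 6283 40000) (pr_scale 1307 20000 h1)) (pr_cmul (enc_norm (bx6q0_3.enc h1.l h2)) (pr_norm (pr_csub (enc_rat _ 2587 25000) (pr_scale 519 640 h1))))) (pr_add (pr_csub (enc_rat _ 2589829 15000000) (pr_scale 24409 150000 h1)) (pr_cmul (enc_norm (bx6q0_3.enc h1.l h2)) (pr_norm (pr_subr 61529 300000 (pr_scale 3353 3000 h1))))))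 (pr_case (pr_subr 7 20 h1) (pr_add (pr_csub (enc_rat _ 1220099 4000000) (pr_scale 23589 40000 h1)) (pr_cmul (enc_norm (bx6q0_3.enc h1.l h2)) (pr_norm (pr_csub (enc_rat _ 124473 400000) (pr_scale 2191 4000 h1))))) (pr_add (pr_csub (enc_rat _ 564859 3000000) (pr_scale 9607 37500 h1)) (pr_cmul (enc_norm (bx6q0_3.enc h1.l h2)) (pr_norm (pr_subr 143 18750 (pr_scale 5447 15000 h1))))))))⟩
noncomputable def l6q0_s : Sl2 l6q0 := ⟨_, fun h1 h2 => (pr_norm (pr_mul (cv6m_s.snd h1) (bx6q0_s.snd h1 h2)))⟩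
noncomputable def bd6q0_s : Sl2 bd6q0 := ⟨_, fun h1 h2 => (pr_norm (pr_add (pr_csub (enc_rat _ 579853 1000000) (pr_scale 220399 62500 h1)) (pr_cmul (enc_norm (enc_subr 67 100 h2)) (pr_norm (pr_csub (enc_rat _ 374997 25000) (pr_scale 1953387 50000 h1))))))⟩
noncomputable def kc6q0_s : Sl2 kc6q0 := ⟨_, fun h1 h2 => (pr_norm (pr_mul (cv6m_s.snd h1) (bd6q0_s.snd h1 h2)))⟩
noncomputable def bf6q1_s : Sl2 bf6q1 := ⟨_, fun h1 h2 => (pr_norm (pr_case (pr_subr 67 100 h1) (pr_add (pr_subr 2071837 8500000 (pr_scale 226771 170000 h1)) (pr_cmul (enc_norm (bf6q1_3.enc h1.l h2)) (pr_norm (pr_subr 90039 170000 (pr_scale 2213 3400 h1))))) (pr_case (pr_subr 83 100 h1) (pr_add (pr_subr 18797 100000 (pr_scale 12507 10000 h1)) (pr_cmul (enc_norm (bf6q1_3.enc h1.l h2)) (pr_norm (pr_subr 19883 64000 (pr_scale 1037 3200 h1))))) (pr_add (pr_addc (pr_scale 8817 10000 h1) (enc_rat _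 1183 10000)) (pr_cmul (enc_norm (bf6q1_3.enc h1.l h2)) (pr_norm (pr_subr 417 1700 (pr_scale 417 1700 h1))))))))⟩
noncomputable def kf6q1_s : Sl2 kf6q1 := ⟨_, fun h1 h2 => (pr_norm (pr_mul (cv6m_s.snd h1) (bf6q1_s.snd h1 h2)))⟩
noncomputable def bx6q1_s : Sl2 bx6q1 := ⟨_, fun h1 h2 => (pr_norm (pr_case (pr_subr 67 100 h1) (pr_add (pr_csub (enc_rat _ 1142223 8500000) (pr_scale 12689 85000 h1)) (pr_cmul (enc_norm (bx6q1_3.enc h1.l h2)) (pr_norm (pr_addc (pr_scale 1523 17000 h1) (enc_rat _ 69643 425000))))) (pr_case (pr_subr 83 100 h1) (pr_add (pr_csub (enc_rat _ 326563 3200000) (pr_scale 3233 32000 h1)) (pr_cmul (enc_norm (bx6q1_3.enc h1.l h2)) (pr_norm (pr_csub (enc_rat _ 11423 32000) (pr_scale 1589 8000 h1))))) (pr_add (pr_csub (enc_rat _ 3639 34000) (pr_scale 3639 34000 h1)) (pr_cmul (enc_norm (bx6q1_3.enc h1.l h2)) (pr_norm (pr_csub (enc_rat _ 19211 17000)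 (pr_scale 19211 17000 h1))))))))⟩
noncomputable def l6q1_s : Sl2 l6q1 := ⟨_, fun h1 h2 => (pr_norm (pr_mul (cv6m_s.snd h1) (bx6q1_s.snd h1 h2)))⟩
noncomputable def bd6q1_s : Sl2 bd6q1 := ⟨_, fun h1 h2 => (pr_norm (pr_add (pr_subr 108159 250000 (pr_scale 108159 250000 h1)) (pr_cmul (enc_norm (enc_subr 67 100 h2)) (pr_norm (pr_subr 287967 50000 (pr_scale 287967 50000 h1))))))⟩
noncomputable def kc6q1_s : Sl2 kc6q1 := ⟨_, fun h1 h2 => (pr_norm (pr_mul (cv6m_s.snd h1) (bd6q1_s.snd h1 h2)))⟩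
noncomputable def cv6p_s : Sl1 cv6p := ⟨_, fun h1 => (pr_norm (pr_add (pr_scale 2 5 (pr_subr 1 2 (swg_s.snd h1))) (pr_scale 3 5 (c3g_s.snd h1))))⟩
noncomputable def bf6q2_s : Sl2 bf6q2 := ⟨_, fun h1 h2 => (pr_norm (pr_case (pr_subr 117 100 h1) (pr_add (pr_subr 3303613 17000000 (pr_scale 174971 170000 h1)) (pr_cmul (enc_norm (bf6q2_3.enc h1.l h2)) (pr_norm (pr_csub (enc_rat _ 7228491 1700000) (pr_scale 17573 4250 h1))))) (pr_case (pr_subr 133 100 h1) (pr_add (pr_csub (enc_rat _ 47514229 16000000) (pr_scale 268001 160000 h1)) (pr_cmul (enc_norm (bf6q2_3.enc h1.l h2)) (pr_norm (pr_csub (enc_rat _ 19401 5000) (pr_scale 3817 1000 h1))))) (pr_add (pr_csub (enc_rat _ 21351617 4250000) (pr_scale 547327 170000 h1)) (pr_cmul (enc_norm (bf6q2_3.enc h1.l h2)) (pr_norm (pr_subr 21188291 1700000 (pr_scale 72009 8500 h1))))))))⟩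
noncomputable def kf6q2_s : Sl2 kf6q2 := ⟨_, fun h1 h2 => (pr_norm (pr_mul (cv6p_s.snd h1) (bf6q2_s.snd h1 h2)))⟩
noncomputable def bx6q2_s : Sl2 bx6q2 := ⟨_, fun h1 h2 => (pr_norm (pr_case (pr_subr 117 100 h1) (pr_add (pr_csub (enc_rat _ 707119 2125000) (pr_scale 14429 42500 h1)) (pr_cmul (enc_norm (bx6q2_3.enc h1.l h2)) (pr_norm (pr_csub (enc_rat _ 2987573 850000) (pr_scale 25393 8500 h1))))) (pr_case (pr_subr 133 100 h1) (pr_add (pr_subr 1956301 8000000 (pr_scale 12313 80000 h1)) (pr_cmul (enc_norm (bx6q2_3.enc h1.l h2)) (pr_norm (pr_subr 61733 12800 (pr_scale 66221 16000 h1))))) (pr_add (pr_subr 11718173 17000000 (pr_scale 16603 34000 h1)) (pr_cmul (enc_norm (bx6q2_3.enc h1.l h2)) (pr_norm (pr_csub (enc_rat _ 1721069 340000) (pr_scale 13997 4250 h1))))))))⟩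
noncomputable def l6q2_s : Sl2 l6q2 := ⟨_, fun h1 h2 => (pr_norm (pr_mul (cv6p_s.snd h1) (bx6q2_s.snd h1 h2)))⟩
noncomputable def bd6q2_s : Sl2 bd6q2 := ⟨_, fun h1 h2 => (pr_norm (pr_add (pr_subr 1096629 1000000 (pr_scale 122047 125000 h1)) (pr_cmul (enc_norm (enc_subr 67 100 h2)) (pr_norm (pr_subr 237813 5000 (pr_scale 417077 10000 h1))))))⟩
noncomputable def kc6q2_s : Sl2 kc6q2 := ⟨_, fun h1 h2 => (pr_norm (pr_mul (cv6p_s.snd h1) (bd6q2_s.snd h1 h2)))⟩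
noncomputable def xc63_s : Sl1 xc63 := ⟨_, fun h1 => (pr_norm (pr_add (pr_scale 2 5 (pr_subr 1 2 (swg_s.snd (pr_nd (ycg_s.snd h1))))) (pr_scale 3 5 h1)))⟩
noncomputable def kfc63_s : Sl2 kfc63 := ⟨_, fun h1 h2 => (pr_norm (pr_mul (pr_norm (pr_add (pr_scale 2 5 (pr_subr 1 2 (swg_s.snd (pr_nd (ycg_s.snd h1))))) (pr_scale 3 5 h1))) (pr_norm (pr_case (pr_csub (enc_rat _ 926242409 1000000000) h1) (pr_case (pr_csub (enc_rat _ 489419299 500000000) h1) (pr_add (pr_csub (enc_rat _ 38386272989423 83402663000000) (pr_scale 46722000 83402663 h1)) (pr_cmul (enc_norm (kfc63_11.enc h1.l h2)) (pr_norm (pr_subr 2660852436029 1668053260000 (pr_scale 147575000 83402663 h1))))) (pr_add (pr_csub (enc_rat _ 19687951759307 52596189000000) (pr_scale 24847000 52596189 h1)) (pr_cmul (enc_norm (kfc63_11.enc h1.l h2)) (pr_norm (pr_subr 331814702057 876603150000 (pr_scale 9230000 17532063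 h1)))))) (pr_case (pr_csub (enc_rat _ 658122329 1000000000) h1) (pr_add (pr_csub (enc_rat _ 13474550757577 53624016000000) (pr_scale 2276125 6703002 h1)) (pr_cmul (enc_norm (kfc63_11.enc h1.l h2)) (pr_norm (pr_subr 6726913951309 26812008000000 (pr_scale 1302625 3351501 h1))))) (pr_add (pr_csub (enc_rat _ 1 2) (pr_scale 472199000 658122329 h1)) (pr_cmul (enc_norm (kfc63_11.enc h1.l h2)) (pr_nd (pr_scale 4900000 658122329 h1)))))))))⟩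
noncomputable def lc63_s : Sl2 lc63 := ⟨_, fun h1 h2 => (pr_norm (pr_mul (pr_norm (pr_add (pr_scale 2 5 (pr_subr 1 2 (swg_s.snd (pr_nd (ycg_s.snd h1))))) (pr_scale 3 5 h1))) (pr_norm (pr_case (pr_csub (enc_rat _ 926242409 1000000000) h1) (pr_case (pr_csub (enc_rat _ 489419299 500000000) h1) (pr_add (pr_csub (enc_rat _ 41710866272087 41701331500000) (pr_scale 70441000 83402663 h1)) (pr_cmul (enc_norm (lc63_11.enc h1.l h2)) (pr_norm (pr_subr 15088129965609 8340266300000 (pr_scale 136175000 83402663 h1))))) (pr_add (pr_csub (enc_rat _ 3324586476733 3287261812500) (pr_scale 45020000 52596189 h1)) (pr_cmul (enc_norm (lc63_11.enc h1.l h2)) (pr_norm (pr_subr 183019080701 146100525000 (pr_scale 6220000 5844021 h1)))))) (pr_case (pr_csub (enc_rat _ 658122329 1000000000) h1) (pr_add (pr_csub (enc_rat _ 131591546553649 134060040000000) (pr_scale 2761025 3351501 h1))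 (pr_cmul (enc_norm (lc63_11.enc h1.l h2)) (pr_norm (pr_csub (enc_rat _ 1655932405351 6703002000000) (pr_scale 1859500 3351501 h1))))) (pr_add (pr_addc (pr_scale 714466175 1974366987 h1) (enc_rat _ 24151033 120000000)) (pr_cmul (enc_norm (lc63_11.enc h1.l h2)) (pr_norm (pr_csub (enc_rat _ 16510739 30000000) (pr_scale 2005373900 1974366987 h1))))))))))⟩
noncomputable def kcc63_s : Sl2 kcc63 := ⟨_, fun h1 h2 => (pr_norm (pr_mul (pr_norm (pr_add (pr_scale 2 5 (pr_subr 1 2 (swg_s.snd (pr_nd (ycg_s.snd h1))))) (pr_scale 3 5 h1))) (pr_norm (pr_add (pr_subr 147663 280000 (pr_scale 1060357000 668292289 h1)) (pr_cmul (enc_norm (enc_subr 67 100 h2)) (pr_norm (pr_subr 54322 875 (pr_scale 41875625000 668292289 h1))))))))⟩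
noncomputable def kf7q0_s : Sl2 kf7q0 := ⟨_, fun h1 h2 => (pr_norm (pr_sub (pr_mul h1 (kcg_s.snd (pr_nd (pr_half h1)) h2)) (pr_mul (pr_norm (pr_mul (pr_nd (pr_sq h1)) (pr_norm (pr_addc (c3g_s.snd h1) (enc_rat _ 3 2))))) (pr_nd (pr_inv (pr_mul (pr_norm (pr_csub (enc_pnc _ 1) h1)) (pr_norm (pr_cadd (enc_pnc _ 1) h1))))))))⟩
noncomputable def l7q0_6_s : Sl2 l7q0_6 := ⟨_, fun h1 h2 => (pr_half h1)⟩
noncomputable def l7q0_7_s : Sl2 l7q0_7 := ⟨_, fun h1 h2 => (pr_half (c3g_s.snd h1))⟩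
noncomputable def l7q0_8_s : Sl2 l7q0_8 := ⟨_, fun h1 h2 => (pr_scale 1 4 h1)⟩
noncomputable def l7q0_s : Sl2 l7q0 := ⟨_, fun h1 h2 => (pr_norm (pr_add (txg_s.snd (pr_nd (l7q0_6_s.snd h1 h2)) (pr_norm (pr_sub (l7q0_7_s.snd h1 h2) (l7q0_8_s.snd h1 h2))) h2) (txg_s.snd (pr_nd (pr_neg (l7q0_6_s.snd h1 h2))) (pr_norm (pr_add (l7q0_7_s.snd h1 h2) (l7q0_8_s.snd h1 h2))) h2)))⟩
noncomputable def kc7q0_6_s : Sl2 kc7q0_6 := ⟨_, fun h1 h2 => (pr_half h1)⟩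
noncomputable def kc7q0_s : Sl2 kc7q0 := ⟨_, fun h1 h2 => (pr_norm (pr_case (pr_subr 1 4 (kc7q0_6_s.snd h1 h2)) (pr_case (pr_subr 13 100 (kc7q0_6_s.snd h1 h2)) (pr_add (pr_csub (enc_rat _ 1284983 1000000) (pr_scale 447767 260000 h1)) (pr_cmul (enc_norm (kc7q0_3.enc h1.l h2)) (pr_norm (pr_csub (enc_rat _ 7321 200) (pr_scale 317503 3250 h1))))) (pr_add (pr_csub (enc_rat _ 5598127 2400000) (pr_scale 1380311 240000 h1)) (pr_cmul (enc_norm (kc7q0_3.enc h1.l h2)) (pr_norm (pr_csub (enc_rat _ 906419 30000) (pr_scale 219337 3000 h1)))))) (pr_case (pr_subr 19 50 (kc7q0_6_s.snd h1 h2)) (pr_add (pr_subr 915523 650000 (pr_scale 450009 260000 h1)) (pr_cmul (enc_norm (kc7q0_3.enc h1.l h2)) (pr_norm (pr_subr 629953 65000 (pr_scale 21771 3250 h1))))) (pr_add (pr_subr 46543 120000 (pr_scale 46543 120000 h1)) (pr_cmul (enc_norm (kc7q0_3.enc h1.l h2)) (pr_norm (pr_subr 115013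 6000 (pr_scale 115013 6000 h1))))))))⟩
noncomputable def kf7q1_s : Sl2 kf7q1 := ⟨_, fun h1 h2 => (pr_norm (pr_add (pr_mul (pr_norm (pr_mul h1 (pr_norm (pr_addc (c3g_s.snd h1) (enc_rat _ 3 2))))) (pr_nd (pr_inv (pr_cadd (enc_pnc _ 1) h1)))) (pr_mul (pr_norm (pr_subn 1 h1)) (kcg_s.snd (pr_nd (pr_half h1)) h2))))⟩
noncomputable def l7q1_7_s : Sl2 l7q1_7 := ⟨_, fun h1 h2 => (pr_half h1)⟩
noncomputable def l7q1_8_s : Sl2 l7q1_8 := ⟨_, fun h1 h2 => (pr_half (c3g_s.snd h1))⟩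
noncomputable def l7q1_9_s : Sl2 l7q1_9 := ⟨_, fun h1 h2 => (pr_scale 1 4 h1)⟩
noncomputable def l7q1_s : Sl2 l7q1 := ⟨_, fun h1 h2 => (pr_norm (pr_add (txg_s.snd (pr_nd (l7q1_7_s.snd h1 h2)) (pr_norm (pr_sub (l7q1_8_s.snd h1 h2) (l7q1_9_s.snd h1 h2))) h2) (txg_s.snd (pr_nd (pr_neg (l7q1_7_s.snd h1 h2))) (pr_norm (pr_add (l7q1_8_s.snd h1 h2) (l7q1_9_s.snd h1 h2))) h2)))⟩
noncomputable def kc7q1_7_s : Sl2 kc7q1_7 := ⟨_, fun h1 h2 => (pr_half h1)⟩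
noncomputable def kc7q1_s : Sl2 kc7q1 := ⟨_, fun h1 h2 => (pr_norm (pr_case (pr_subr 1 4 (kc7q1_7_s.snd h1 h2)) (pr_case (pr_subr 13 100 (kc7q1_7_s.snd h1 h2)) (pr_add (pr_csub (enc_rat _ 1284983 1000000) (pr_scale 447767 260000 h1)) (pr_cmul (enc_norm (kc7q1_3.enc h1.l h2)) (pr_norm (pr_csub (enc_rat _ 7321 200) (pr_scale 317503 3250 h1))))) (pr_add (pr_csub (enc_rat _ 5598127 2400000) (pr_scale 1380311 240000 h1)) (pr_cmul (enc_norm (kc7q1_3.enc h1.l h2)) (pr_norm (pr_csub (enc_rat _ 906419 30000) (pr_scale 219337 3000 h1)))))) (pr_case (pr_subr 19 50 (kc7q1_7_s.snd h1 h2)) (pr_add (pr_subr 915523 650000 (pr_scale 450009 260000 h1)) (pr_cmul (enc_norm (kc7q1_3.enc h1.l h2)) (pr_norm (pr_subr 629953 65000 (pr_scale 21771 3250 h1))))) (pr_add (pr_subr 46543 120000 (pr_scale 46543 120000 h1)) (pr_cmul (enc_norm (kc7q1_3.enc h1.l h2)) (pr_norm (pr_subr 115013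 6000 (pr_scale 115013 6000 h1))))))))⟩
noncomputable def kf7q2_s : Sl2 kf7q2 := ⟨_, fun h1 h2 => (pr_norm (pr_add (pr_mul (pr_norm (pr_mul (pr_norm (pr_sub (pr_nat 2 (c3g_s.snd h1)) h1)) (pr_norm (pr_sub (pr_addc (c3g_s.snd h1) (enc_pnc _ 3)) (pr_scale 3 2 h1))))) (pr_nd (pr_inv (pr_nat 4 (pr_csub (enc_pnc _ 2) h1))))) (pr_mul (pr_norm (pr_subn 1 h1)) (kcg_s.snd (pr_norm (pr_sub (pr_scale 1 4 h1) (pr_half (c3g_s.snd h1)))) h2))))⟩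
noncomputable def l7q2_7_s : Sl2 l7q2_7 := ⟨_, fun h1 h2 => (pr_half (c3g_s.snd h1))⟩
noncomputable def l7q2_8_s : Sl2 l7q2_8 := ⟨_, fun h1 h2 => (pr_scale 1 4 h1)⟩
noncomputable def l7q2_9_s : Sl2 l7q2_9 := ⟨_, fun h1 h2 => (pr_sub (l7q2_7_s.snd h1 h2) (l7q2_8_s.snd h1 h2))⟩
noncomputable def l7q2_12_s : Sl2 l7q2_12 := ⟨_, fun h1 h2 => (pr_add (pr_scale 1 4 (c3g_s.snd h1)) (pr_scale 3 8 h1))⟩
noncomputable def l7q2_14_s : Sl2 l7q2_14 := ⟨_, fun h1 h2 => (pr_half (l7q2_9_s.snd h1 h2))⟩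
noncomputable def l7q2_s : Sl2 l7q2 := ⟨_, fun h1 h2 => (pr_norm (pr_sub (pr_nat 2 (txg_s.snd (pr_norm (pr_sub (l7q2_8_s.snd h1 h2) (l7q2_7_s.snd h1 h2))) (pr_norm (pr_add (l7q2_12_s.snd h1 h2) (l7q2_14_s.snd h1 h2))) h2)) (txg_s.snd (pr_norm (l7q2_9_s.snd h1 h2)) (pr_norm (pr_sub (l7q2_12_s.snd h1 h2) (l7q2_14_s.snd h1 h2))) h2)))⟩
noncomputable def kc7q2_9_s : Sl2 kc7q2_9 := ⟨_, fun h1 h2 => (pr_sub (pr_half (c3g_s.snd h1)) (pr_scale 1 4 h1))⟩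
noncomputable def kc7q2_s : Sl2 kc7q2 := ⟨_, fun h1 h2 => (pr_norm (pr_case (pr_addc (kc7q2_9_s.snd h1 h2) (enc_rat _ 7 100)) (pr_case (pr_addc (kc7q2_9_s.snd h1 h2) (enc_rat _ 9 25)) (pr_add (pr_subr 147663 280000 (pr_neg (pr_scale 147663 140000 (kc7q2_9_s.snd h1 h2)))) (pr_cmul (enc_norm (kc7q2_3.enc h1.l h2)) (pr_norm (pr_subr 54322 875 (pr_neg (pr_scale 108644 875 (kc7q2_9_s.snd h1 h2))))))) (pr_case (pr_addc (kc7q2_9_s.snd h1 h2) (enc_rat _ 21 100)) (pr_add (pr_subr 599631 5000000 (pr_scale 11557 150000 (kc7q2_9_s.snd h1 h2))) (pr_cmul (enc_norm (kc7q2_3.enc h1.l h2)) (pr_norm (pr_subr 342149 25000 (pr_scale 30809 3000 (kc7q2_9_s.snd h1 h2)))))) (pr_add (pr_subr 32503 200000 (pr_neg (pr_scale 8803 70000 (kc7q2_9_s.snd h1 h2)))) (pr_cmul (enc_norm (kc7q2_3.enc h1.l h2)) (pr_norm (pr_subr 2452061 200000 (pr_scale 34117 2000 (kc7q2_9_s.snd h1 h2))))))))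 (pr_case (pr_subr 21 100 (kc7q2_9_s.snd h1 h2)) (pr_case (pr_subr 7 100 (kc7q2_9_s.snd h1 h2)) (pr_add (pr_addc (pr_scale 81791 28000 (kc7q2_9_s.snd h1 h2)) (enc_rat _ 101531 2000000)) (pr_cmul (enc_norm (kc7q2_3.enc h1.l h2)) (pr_norm (pr_subr 714199 100000 (pr_scale 631241 7000 (kc7q2_9_s.snd h1 h2)))))) (pr_add (pr_csub (enc_rat _ 36391 125000) (pr_scale 7177 14000 (kc7q2_9_s.snd h1 h2))) (pr_cmul (enc_norm (kc7q2_3.enc h1.l h2)) (pr_norm (pr_subr 1623667 200000 (pr_scale 1457751 14000 (kc7q2_9_s.snd h1 h2))))))) (pr_case (pr_subr 9 25 (kc7q2_9_s.snd h1 h2)) (pr_add (pr_csub (enc_rat _ 145731 500000) (pr_scale 15427 30000 (kc7q2_9_s.snd h1 h2))) (pr_cmul (enc_norm (kc7q2_3.enc h1.l h2)) (pr_norm (pr_csub (enc_rat _ 12770387 500000) (pr_scale 140391 2500 (kc7q2_9_s.snd h1 h2)))))) (pr_add (pr_csub (enc_rat _ 53169 140000) (pr_scale 53169 70000 (kc7q2_9_s.snd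 h1 h2))) (pr_cmul (enc_norm (kc7q2_3.enc h1.l h2)) (pr_norm (pr_csub (enc_rat _ 532447 28000) (pr_scale 532447 14000 (kc7q2_9_s.snd h1 h2))))))))))⟩
noncomputable def kfc73_s : Sl2 kfc73 := ⟨_, fun h1 h2 => (pr_norm (pr_sub (pr_mul (pr_norm (pr_subn 2 (ycg_s.snd h1))) (kcg_s.snd (pr_norm (pr_sub (pr_scale 1 4 (ycg_s.snd h1)) (pr_half h1))) h2)) (pr_mul (pr_norm (pr_mul (pr_norm (pr_sub (pr_nat 2 h1) (ycg_s.snd h1))) (pr_norm (pr_sub (pr_addc h1 (enc_pnc _ 3)) (pr_scale 3 2 (ycg_s.snd h1)))))) (pr_nd (pr_inv (pr_nat 4 (pr_subn 1 (ycg_s.snd h1))))))))⟩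
noncomputable def lc73_7_s : Sl2 lc73_7 := ⟨_, fun h1 h2 => (pr_half h1)⟩
noncomputable def lc73_8_s : Sl2 lc73_8 := ⟨_, fun h1 h2 => (pr_scale 1 4 (ycg_s.snd h1))⟩
noncomputable def lc73_9_s : Sl2 lc73_9 := ⟨_, fun h1 h2 => (pr_sub (lc73_7_s.snd h1 h2) (lc73_8_s.snd h1 h2))⟩
noncomputable def lc73_12_s : Sl2 lc73_12 := ⟨_, fun h1 h2 => (pr_add (pr_scale 1 4 h1) (pr_scale 3 8 (ycg_s.snd h1)))⟩
noncomputable def lc73_14_s : Sl2 lc73_14 := ⟨_, fun h1 h2 => (pr_half (lc73_9_s.snd h1 h2))⟩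
noncomputable def lc73_s : Sl2 lc73 := ⟨_, fun h1 h2 => (pr_norm (pr_sub (pr_nat 2 (txg_s.snd (pr_norm (pr_sub (lc73_8_s.snd h1 h2) (lc73_7_s.snd h1 h2))) (pr_norm (pr_add (lc73_12_s.snd h1 h2) (lc73_14_s.snd h1 h2))) h2)) (txg_s.snd (pr_norm (lc73_9_s.snd h1 h2)) (pr_norm (pr_sub (lc73_12_s.snd h1 h2) (lc73_14_s.snd h1 h2))) h2)))⟩
noncomputable def kcc73_9_s : Sl2 kcc73_9 := ⟨_, fun h1 h2 => (pr_sub (pr_half h1) (pr_scale 1 4 (ycg_s.snd h1)))⟩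
noncomputable def kcc73_s : Sl2 kcc73 := ⟨_, fun h1 h2 => (pr_norm (pr_case (pr_addc (kcc73_9_s.snd h1 h2) (enc_rat _ 7 100)) (pr_case (pr_addc (kcc73_9_s.snd h1 h2) (enc_rat _ 9 25)) (pr_add (pr_subr 147663 280000 (pr_neg (pr_scale 147663 140000 (kcc73_9_s.snd h1 h2)))) (pr_cmul (enc_norm (kcc73_4.enc h1.l h2)) (pr_norm (pr_subr 54322 875 (pr_neg (pr_scale 108644 875 (kcc73_9_s.snd h1 h2))))))) (pr_case (pr_addc (kcc73_9_s.snd h1 h2) (enc_rat _ 21 100)) (pr_add (pr_subr 599631 5000000 (pr_scale 11557 150000 (kcc73_9_s.snd h1 h2))) (pr_cmul (enc_norm (kcc73_4.enc h1.l h2)) (pr_norm (pr_subr 342149 25000 (pr_scale 30809 3000 (kcc73_9_s.snd h1 h2)))))) (pr_add (pr_subr 32503 200000 (pr_neg (pr_scale 8803 70000 (kcc73_9_s.snd h1 h2)))) (pr_cmul (enc_norm (kcc73_4.enc h1.l h2)) (pr_norm (pr_subr 2452061 200000 (pr_scale 34117 2000 (kcc73_9_s.snd h1 h2))))))))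 (pr_case (pr_subr 21 100 (kcc73_9_s.snd h1 h2)) (pr_case (pr_subr 7 100 (kcc73_9_s.snd h1 h2)) (pr_add (pr_addc (pr_scale 81791 28000 (kcc73_9_s.snd h1 h2)) (enc_rat _ 101531 2000000)) (pr_cmul (enc_norm (kcc73_4.enc h1.l h2)) (pr_norm (pr_subr 714199 100000 (pr_scale 631241 7000 (kcc73_9_s.snd h1 h2)))))) (pr_add (pr_csub (enc_rat _ 36391 125000) (pr_scale 7177 14000 (kcc73_9_s.snd h1 h2))) (pr_cmul (enc_norm (kcc73_4.enc h1.l h2)) (pr_norm (pr_subr 1623667 200000 (pr_scale 1457751 14000 (kcc73_9_s.snd h1 h2))))))) (pr_case (pr_subr 9 25 (kcc73_9_s.snd h1 h2)) (pr_add (pr_csub (enc_rat _ 145731 500000) (pr_scale 15427 30000 (kcc73_9_s.snd h1 h2))) (pr_cmul (enc_norm (kcc73_4.enc h1.l h2)) (pr_norm (pr_csub (enc_rat _ 12770387 500000) (pr_scale 140391 2500 (kcc73_9_s.snd h1 h2)))))) (pr_add (pr_csub (enc_rat _ 53169 140000) (pr_scale 53169 70000 (kcc73_9_s.snd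 h1 h2))) (pr_cmul (enc_norm (kcc73_4.enc h1.l h2)) (pr_norm (pr_csub (enc_rat _ 532447 28000) (pr_scale 532447 14000 (kcc73_9_s.snd h1 h2))))))))))⟩
noncomputable def gB0q0 : Gn := ⟨ndB0q0, c1g_s, kf0q0_s, l0q0_s, false⟩
noncomputable def dB0q0 : CnW := ⟨cd0q0, kc0q0_s⟩
noncomputable def gB0q1 : Gn := ⟨ndB0q1, c1g_s, kf0q1_s, l0q1_s, false⟩
noncomputable def dB0q1 : CnW := ⟨cd0q1, kc0q1_s⟩
noncomputable def gB0q2 : Gn := ⟨ndB0q2, idf_s, kfc02_s, lc02_s, true⟩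
noncomputable def dB0q2 : CnW := ⟨cd0q2, kcc02_s⟩
noncomputable def gB1q0 : Gn := ⟨ndB1q0, cv1m_s, kf1q0_s, l1q0_s, false⟩
noncomputable def dB1q0 : CnW := ⟨cd1q0, kc1q0_s⟩
noncomputable def gB1q1 : Gn := ⟨ndB1q1, cv1m_s, kf1q1_s, l1q1_s, false⟩
noncomputable def dB1q1 : CnW := ⟨cd1q1, kc1q1_s⟩
noncomputable def gB1q2 : Gn := ⟨ndB1q2, cv1p_s, kf1q2_s, l1q2_s, false⟩
noncomputable def dB1q2 : CnW := ⟨cd1q2, kc1q2_s⟩
noncomputable def gB1q3 : Gn := ⟨ndB1q3, cv1r_s, kf1q3_s, l1q3_s, false⟩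
noncomputable def dB1q3 : CnW := ⟨cd1q3, kc1q3_s⟩
noncomputable def gB2q0 : Gn := ⟨ndB2q0, cv2m_s, kf2q0_s, l2q0_s, false⟩
noncomputable def dB2q0 : CnW := ⟨cd2q0, kc2q0_s⟩
noncomputable def gB2q1 : Gn := ⟨ndB2q1, cv2m_s, kf2q1_s, l2q1_s, false⟩
noncomputable def dB2q1 : CnW := ⟨cd2q1, kc2q1_s⟩
noncomputable def gB2q2 : Gn := ⟨ndB2q2, cv2p_s, kf2q2_s, l2q2_s, false⟩
noncomputable def dB2q2 : CnW := ⟨cd2q2, kc2q2_s⟩
noncomputable def gB2q3 : Gn := ⟨ndB2q3, cv2r_s, kf2q3_s, l2q3_s, false⟩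
noncomputable def dB2q3 : CnW := ⟨cd2q3, kc2q3_s⟩
noncomputable def gB3q0 : Gn := ⟨ndB3q0, cv3m_s, kf3q0_s, l3q0_s, false⟩
noncomputable def dB3q0 : CnW := ⟨cd3q0, kc3q0_s⟩
noncomputable def gB3q1 : Gn := ⟨ndB3q1, cv3m_s, kf3q1_s, l3q1_s, false⟩
noncomputable def dB3q1 : CnW := ⟨cd3q1, kc3q1_s⟩
noncomputable def gB3q2 : Gn := ⟨ndB3q2, cv3p_s, kf3q2_s, l3q2_s, false⟩
noncomputable def dB3q2 : CnW := ⟨cd3q2, kc3q2_s⟩
noncomputable def gB3q3 : Gn := ⟨ndB3q3, cv3r_s, kf3q3_s, l3q3_s, false⟩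
noncomputable def dB3q3 : CnW := ⟨cd3q3, kc3q3_s⟩
noncomputable def gB4q0 : Gn := ⟨ndB4q0, cv4m_s, kf4q0_s, l4q0_s, false⟩
noncomputable def dB4q0 : CnW := ⟨cd4q0, kc4q0_s⟩
noncomputable def gB4q1 : Gn := ⟨ndB4q1, cv4m_s, kf4q1_s, l4q1_s, false⟩
noncomputable def dB4q1 : CnW := ⟨cd4q1, kc4q1_s⟩
noncomputable def gB4q2 : Gn := ⟨ndB4q2, cv4p_s, kf4q2_s, l4q2_s, false⟩
noncomputable def dB4q2 : CnW := ⟨cd4q2, kc4q2_s⟩
noncomputable def gB4q3 : Gn := ⟨ndB4q3, cv4r_s, kf4q3_s, l4q3_s, false⟩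
noncomputable def dB4q3 : CnW := ⟨cd4q3, kc4q3_s⟩
noncomputable def gB5q0 : Gn := ⟨ndB5q0, cv5m_s, kf5q0_s, l5q0_s, false⟩
noncomputable def dB5q0 : CnW := ⟨cd5q0, kc5q0_s⟩
noncomputable def gB5q1 : Gn := ⟨ndB5q1, cv5m_s, kf5q1_s, l5q1_s, false⟩
noncomputable def dB5q1 : CnW := ⟨cd5q1, kc5q1_s⟩
noncomputable def gB5q2 : Gn := ⟨ndB5q2, cv5p_s, kf5q2_s, l5q2_s, false⟩
noncomputable def dB5q2 : CnW := ⟨cd5q2, kc5q2_s⟩
noncomputable def gB5q3 : Gn := ⟨ndB5q3, xc53_s, kfc53_s, lc53_s, false⟩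
noncomputable def dB5q3 : CnW := ⟨cd5q3, kcc53_s⟩
noncomputable def gB6q0 : Gn := ⟨ndB6q0, cv6m_s, kf6q0_s, l6q0_s, false⟩
noncomputable def dB6q0 : CnW := ⟨cd6q0, kc6q0_s⟩
noncomputable def gB6q1 : Gn := ⟨ndB6q1, cv6m_s, kf6q1_s, l6q1_s, false⟩
noncomputable def dB6q1 : CnW := ⟨cd6q1, kc6q1_s⟩
noncomputable def gB6q2 : Gn := ⟨ndB6q2, cv6p_s, kf6q2_s, l6q2_s, false⟩
noncomputable def dB6q2 : CnW := ⟨cd6q2, kc6q2_s⟩
noncomputable def gB6q3 : Gn := ⟨ndB6q3, xc63_s, kfc63_s, lc63_s, false⟩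
noncomputable def dB6q3 : CnW := ⟨cd6q3, kcc63_s⟩
noncomputable def gB7q0 : Gn := ⟨ndB7q0, c3g_s, kf7q0_s, l7q0_s, false⟩
noncomputable def dB7q0 : CnW := ⟨cd7q0, kc7q0_s⟩
noncomputable def gB7q1 : Gn := ⟨ndB7q1, c3g_s, kf7q1_s, l7q1_s, false⟩
noncomputable def dB7q1 : CnW := ⟨cd7q1, kc7q1_s⟩
noncomputable def gB7q2 : Gn := ⟨ndB7q2, c3g_s, kf7q2_s, l7q2_s, false⟩
noncomputable def dB7q2 : CnW := ⟨cd7q2, kc7q2_s⟩
noncomputable def gB7q3 : Gn := ⟨ndB7q3, idf_s, kfc73_s, lc73_s, false⟩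
noncomputable def dB7q3 : CnW := ⟨cd7q3, kcc73_s⟩
noncomputable def gB0q3 : Gn := gz
noncomputable def dB0q3 : CnW := ⟨fz2, fz2_s⟩
noncomputable def gB (j : Fin 8) (q : ℕ) : Gn :=
  match j, q with
  | 0, 0 => gB0q0
  | 0, 1 => gB0q1
  | 0, 2 => gB0q2
  | 0, 3 => gB0q3
  | 1, 0 => gB1q0
  | 1, 1 => gB1q1
  | 1, 2 => gB1q2
  | 1, 3 => gB1q3
  | 2, 0 => gB2q0
  | 2, 1 => gB2q1
  | 2, 2 => gB2q2
  | 2, 3 => gB2q3
  | 3, 0 => gB3q0
  | 3, 1 => gB3q1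
  | 3, 2 => gB3q2
  | 3, 3 => gB3q3
  | 4, 0 => gB4q0
  | 4, 1 => gB4q1
  | 4, 2 => gB4q2
  | 4, 3 => gB4q3
  | 5, 0 => gB5q0
  | 5, 1 => gB5q1
  | 5, 2 => gB5q2
  | 5, 3 => gB5q3
  | 6, 0 => gB6q0
  | 6, 1 => gB6q1
  | 6, 2 => gB6q2
  | 6, 3 => gB6q3
  | 7, 0 => gB7q0
  | 7, 1 => gB7q1
  | 7, 2 => gB7q2
  | 7, 3 => gB7q3
  | _, _ => gB0q0

noncomputable def dB (j : Fin 8) (q : ℕ) : CnW :=
  match j, q with
  | 0, 0 => dB0q0
  | 0, 1 => dB0q1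
  | 0, 2 => dB0q2
  | 0, 3 => dB0q3
  | 1, 0 => dB1q0
  | 1, 1 => dB1q1
  | 1, 2 => dB1q2
  | 1, 3 => dB1q3
  | 2, 0 => dB2q0
  | 2, 1 => dB2q1
  | 2, 2 => dB2q2
  | 2, 3 => dB2q3
  | 3, 0 => dB3q0
  | 3, 1 => dB3q1
  | 3, 2 => dB3q2
  | 3, 3 => dB3q3
  | 4, 0 => dB4q0
  | 4, 1 => dB4q1
  | 4, 2 => dB4q2
  | 4, 3 => dB4q3
  | 5, 0 => dB5q0
  | 5, 1 => dB5q1
  | 5, 2 => dB5q2
  | 5, 3 => dB5q3
  | 6, 0 => dB6q0
  | 6, 1 => dB6q1
  | 6, 2 => dB6q2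
  | 6, 3 => dB6q3
  | 7, 0 => dB7q0
  | 7, 1 => dB7q1
  | 7, 2 => dB7q2
  | 7, 3 => dB7q3
  | _, _ => dB0q0

noncomputable def c0B : Fn1 := ⟨fun _ => pone, fun _ => 1, fun _ => enc_one _⟩

end Pool.Agent.Strip051.G.I6500_6900.Tab
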