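import Pool.Agent.Strip051.PB.MolRw
import Pool.Agent.Strip051.G.I6500_6900.Tab

/-! # The tight charts of a table: data (generated) -/

set_option linter.all false

namespace Pool.Agent.Strip051.G.I6500_6900.Tab.Mo

open Pool.Agent.Strip051.PB Pool.Agent.Strip051.PB.Mol
open Pool.Agent.Strip051.G.I6500_6900.Tab

noncomputable def dq : Fn3 :=
  dqK2 (dqQ (lnF false 38248833 10000000 true 2499999 250000 67 100) (lnF true 187761 20000 false 2499999 25000 67 100)) (lnF true 1 10000000 false 1 500000 67 100) (lnF false 6355691 500000 true 5003913 25000 67 100) false 1 10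

noncomputable def mL : Fn2 :=
  exH2 (exQ (exC (lnF false 4960559 60000000 false 36884641 15000000 67 100)) (lnF false 279629 200000 true 817299 50000 67 100) false) (lnF false 23 150000000 true 33 10000000 67 100) (lnF true 119273 125000 false 473007 100000 67 100) false 3 100

noncomputable def mR : Fn2 :=
  exH2 (exQ (exC (lnF true 1212983 5000000 true 889923 500000 67 100)) (lnF true 419427 250000 false 393357 25000 67 100) true) (lnF true 3 20000000 true 1 400000 67 100) (lnF false 501543 200000 true 1858067 100000 67 100) true 1 20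

noncomputable def kp : Fn2 :=
  plA (cnF false 0 1) (lnF false 607 50000 false 5179 10000 67 100) false 1 2

noncomputable def kb : Fn2 :=
  plA (cnF false 0 1) (lnF false 56173 22500 false 4979 40 67 100) false 1 2

noncomputable def eK1 : Fn2 :=
  exH (exC (lnF true 18491 12500 false 289 1000 67 100)) (lnF false 25889 50000 false 3397 5000 67 100) true 1 20

noncomputable def rK1 : Fn2 :=
  ad2 (exC (cnF true 14430391 5000000)) (rwC eK1)

noncomputable def eX1 : Fn2 :=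
  exH (exC (lqF false 785589 2500000 true 266497 187500 true 2033 6250 67 100)) (lqF false 726861 2500000 true 19403 187500 false 2033 6250 67 100) true 1 20

noncomputable def rX1 : Fn2 :=
  rwC eX1

noncomputable def eD1 : Fn2 :=
  exC (lnF false 1603 31250 false 12821 6250 67 100)

noncomputable def rD1 : Fn2 :=
  tmF (rwC eD1) 0

noncomputable def sk1 : MolS :=
  stK 9 1 10 rK1 rX1 rD1

noncomputable def eK2 : Fn2 :=
  exH (exC (lnF false 1909 3125 false 681 2500 67 100)) (lnF false 10447 50000 true 1993 5000 67 100) true 1 20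

noncomputable def rK2 : Fn2 :=
  rwC eK2

noncomputable def eX2 : Fn2 :=
  exH (exC (lnF false 6239 25000 true 2189 1250 67 100)) (lnF false 2699 25000 true 67 125 67 100) true 1 20

noncomputable def rX2 : Fn2 :=
  rwC eX2

noncomputable def eD2 : Fn2 :=
  exC (lnF false 11823 125000 false 466 125 67 100)

noncomputable def rD2 : Fn2 :=
  tmF (rwC eD2) 0

noncomputable def sk2 : MolS :=
  stK 7 3 10 rK2 rX2 rD2

noncomputable def eK3 : Fn2 :=
  exH (exC (lnF false 33057 50000 false 561 1250 67 100)) (lnF false 4893 50000 true 2343 5000 67 100) true 1 20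

noncomputable def rK3 : Fn2 :=
  rwC eK3

noncomputable def eX3 : Fn2 :=
  exH (exC (lnF false 7391 50000 true 1923 2500 67 100)) (lnF false 83 6250 false 547 5000 67 100) true 1 20

noncomputable def rX3 : Fn2 :=
  rwC eX3

noncomputable def eD3 : Fn2 :=
  exC (lnF false 35001 250000 false 164233 25000 67 100)

noncomputable def rD3 : Fn2 :=
  tmF (rwC eD3) 0

noncomputable def sk3 : MolS :=
  stK 2 3 5 rK3 rX3 rD3

noncomputable def eK4 : Fn2 :=
  exH (exC (lnF false 15257 25000 false 2333 2500 67 100)) (lnF false 1887 50000 false 463 2500 67 100) true 1 20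

noncomputable def rK4 : Fn2 :=
  rwC eK4

noncomputable def eX4 : Fn2 :=
  exH (exC (lnF false 481 10000 true 1633 5000 67 100)) (lnF true 13 200 false 153 625 67 100) true 1 20

noncomputable def rX4 : Fn2 :=
  rwC eX4

noncomputable def eD4 : Fn2 :=
  exC (lnF false 9131 50000 false 226479 25000 67 100)

noncomputable def rD4 : Fn2 :=
  tmF (rwC eD4) 0

noncomputable def sk4 : MolS :=
  stK 1 9 10 rK4 rX4 rD4

noncomputable def sp : MolS :=
  stP kcg mL mR kp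

noncomputable def sm : MolS :=
  stM kcg mR kb

noncomputable def sK_Ap : Fn3 :=
  sl0 (slF (w3W false) cv4r (w3K false 2 kcg) kf4q3)

noncomputable def sX_Ap : Fn3 :=
  sl0 (slF (w3W false) cv4r (w3Q false kcg) l4q3)

noncomputable def sD_Ap : Fn3 :=
  sl0 (slF (w3W false) cv4r (w3D false 2 kcg) (tmF kc4q3 2))

noncomputable def T_Ap : MolT :=
  ⟨kcg, dq, sp, 3, sK_Ap, sX_Ap, sD_Ap, 7, 3, 1959, 1000⟩

noncomputable def sk_Ap : List Fn3 := [skP true 20971520, skM true 20971520]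

noncomputable def cx_Ap : List Fn3 :=
  [f3A sp.xs (tCC (w3W false) cv4r),
    f3A sp.xs (tCC cv5r (w3W false)),
    f3A sp.xs (tCX cv5r)]

noncomputable def c0_Ap : Cht := k0Ap (T_Ap.a true) sk_Ap cx_Ap

noncomputable def c2_Ap : Cht := k2Ap (T_Ap.a true) sk_Ap cx_Ap

noncomputable def sK_Apk1 : Fn3 :=
  sl0 (slF (w3W false) cv4r (w3K false 2 kcg) kf4q3)

noncomputable def sX_Apk1 : Fn3 :=
  sl0 (slF (w3W false) cv4r (w3Q false kcg) l4q3)

noncomputable def sD_Apk1 : Fn3 :=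
  sl0 (slF (w3W false) cv4r (w3D false 2 kcg) (tmF kc4q3 2))

noncomputable def T_Apk1 : MolT :=
  ⟨kcg, dq, sk1, 3, sK_Apk1, sX_Apk1, sD_Apk1, 7, 3, 1959, 1000⟩

noncomputable def sk_Apk1 : List Fn3 := [skP true 20971520, skM true 20971520]

noncomputable def cx_Apk1 : List Fn3 :=
  [f3A sk1.xs (tCC (w3W false) cv4r),
    f3A sk1.xs (tCC cv5r (w3W false)),
    f3A sk1.xs (tCX cv5r)]

noncomputable def c0_Apk1 : Cht := k0Ap (T_Apk1.a true) sk_Apk1 cx_Apk1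

noncomputable def c2_Apk1 : Cht := k2Ap (T_Apk1.a true) sk_Apk1 cx_Apk1

noncomputable def sK_Apk2 : Fn3 :=
  sl0 (slF (w3W false) cv4r (w3K false 2 kcg) kf4q3)

noncomputable def sX_Apk2 : Fn3 :=
  sl0 (slF (w3W false) cv4r (w3Q false kcg) l4q3)

noncomputable def sD_Apk2 : Fn3 :=
  sl0 (slF (w3W false) cv4r (w3D false 2 kcg) (tmF kc4q3 2))

noncomputable def T_Apk2 : MolT :=
  ⟨kcg, dq, sk2, 3, sK_Apk2, sX_Apk2, sD_Apk2, 7, 3, 1959, 1000⟩

noncomputable def sk_Apk2 : List Fn3 := [skP true 20971520, skM true 20971520]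

noncomputable def cx_Apk2 : List Fn3 :=
  [f3A sk2.xs (tCC (w3W false) cv4r),
    f3A sk2.xs (tCC cv5r (w3W false)),
    f3A sk2.xs (tCX cv5r)]

noncomputable def c0_Apk2 : Cht := k0Ap (T_Apk2.a true) sk_Apk2 cx_Apk2

noncomputable def c2_Apk2 : Cht := k2Ap (T_Apk2.a true) sk_Apk2 cx_Apk2

noncomputable def sK_Apk3 : Fn3 :=
  sl0 (slF (w3W false) cv4r (w3K false 2 kcg) kf4q3)

noncomputable def sX_Apk3 : Fn3 :=
  sl0 (slF (w3W false) cv4r (w3Q false kcg) l4q3)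

noncomputable def sD_Apk3 : Fn3 :=
  sl0 (slF (w3W false) cv4r (w3D false 2 kcg) (tmF kc4q3 2))

noncomputable def T_Apk3 : MolT :=
  ⟨kcg, dq, sk3, 3, sK_Apk3, sX_Apk3, sD_Apk3, 7, 3, 1959, 1000⟩

noncomputable def sk_Apk3 : List Fn3 := [skP true 20971520, skM true 20971520]

noncomputable def cx_Apk3 : List Fn3 :=
  [f3A sk3.xs (tCC (w3W false) cv4r),
    f3A sk3.xs (tCC cv5r (w3W false)),
    f3A sk3.xs (tCX cv5r)]

noncomputable def c0_Apk3 : Cht := k0Ap (T_Apk3.a true) sk_Apk3 cx_Apk3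

noncomputable def c2_Apk3 : Cht := k2Ap (T_Apk3.a true) sk_Apk3 cx_Apk3

noncomputable def sK_Apk4 : Fn3 :=
  sl0 (slF (w3W false) cv4r (w3K false 2 kcg) kf4q3)

noncomputable def sX_Apk4 : Fn3 :=
  sl0 (slF (w3W false) cv4r (w3Q false kcg) l4q3)

noncomputable def sD_Apk4 : Fn3 :=
  sl0 (slF (w3W false) cv4r (w3D false 2 kcg) (tmF kc4q3 2))

noncomputable def T_Apk4 : MolT :=
  ⟨kcg, dq, sk4, 3, sK_Apk4, sX_Apk4, sD_Apk4, 7, 3, 1959, 1000⟩

noncomputable def sk_Apk4 : List Fn3 := [skP true 20971520, skM true 20971520]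

noncomputable def cx_Apk4 : List Fn3 :=
  [f3A sk4.xs (tCC (w3W false) cv4r),
    f3A sk4.xs (tCC cv5r (w3W false)),
    f3A sk4.xs (tCX cv5r)]

noncomputable def c0_Apk4 : Cht := k0Ap (T_Apk4.a true) sk_Apk4 cx_Apk4

noncomputable def c2_Apk4 : Cht := k2Ap (T_Apk4.a true) sk_Apk4 cx_Apk4

noncomputable def sK_Am : Fn3 :=
  sl1 (slF (w3W false) cv4r (w3K false 2 kcg) kf4q3) (sgF cv3r cv4r kf3q3 kf4q3) (hgL (w3W false) cv4r)

noncomputable def sX_Am : Fn3 :=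
  sl1 (slF (w3W false) cv4r (w3Q false kcg) l4q3) (sgF cv3r cv4r l3q3 l4q3) (hgL (w3W false) cv4r)

noncomputable def sD_Am : Fn3 :=
  sl1 (slF (w3W false) cv4r (w3D false 2 kcg) (tmF kc4q3 2)) (sgF cv3r cv4r (tmF kc3q3 2) (tmF kc4q3 2)) (hgL (w3W false) cv4r)

noncomputable def T_Am : MolT :=
  ⟨kcg, dq, sm, 3, sK_Am, sX_Am, sD_Am, 7, 3, 1959, 1000⟩

noncomputable def sk_Am : List Fn3 := [skP true 20971520, skM true 20971520]

noncomputable def cx_Am : List Fn3 :=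
  [f3A sm.xs (tCC (w3W false) cv4r),
    f3A sm.xs (tCC cv5r (w3W false)),
    f3A sm.xs (tCC cv4r cv3r),
    f3A sm.xs (tXC cv3r)]

noncomputable def c0_Am : Cht := k0Am (T_Am.a false) sk_Am cx_Am

noncomputable def c2_Am : Cht := k2Am (T_Am.a false) sk_Am cx_Am

noncomputable def sK_Bp : Fn3 :=
  sl1 (slF (w3W true) cv4m (w3K true 0 kcg) kf4q0) (sgF cv3m cv4m kf3q0 kf4q0) (hgL (w3W true) cv4m)

noncomputable def sX_Bp : Fn3 :=
  sl1 (slF (w3W true) cv4m (w3Q true kcg) l4q0) (sgF cv3m cv4m l3q0 l4q0) (hgL (w3W true) cv4m)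

noncomputable def sD_Bp : Fn3 :=
  sl1 (slF (w3W true) cv4m (w3D true 0 kcg) (tmF kc4q0 0)) (sgF cv3m cv4m (tmF kc3q0 0) (tmF kc4q0 0)) (hgL (w3W true) cv4m)

noncomputable def T_Bp : MolT :=
  ⟨kcg, dq, sp, 0, sK_Bp, sX_Bp, sD_Bp, 7, 3, 1959, 1000⟩

noncomputable def sk_Bp : List Fn3 := [skP false 20971520, skM false 20971520]

noncomputable def cx_Bp : List Fn3 :=
  [f3B sp.xs (tCC (w3W true) cv4m),
    f3B sp.xs (tCC cv5m (w3W true)),
    f3B sp.xs (tCC cv4m cv3m),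
    f3B sp.xs (tXC cv3m)]

noncomputable def c0_Bp : Cht := k0Bp (T_Bp.b true) sk_Bp cx_Bp

noncomputable def c2_Bp : Cht := k2Bp (T_Bp.b true) sk_Bp cx_Bp

noncomputable def sK_Bpk1 : Fn3 :=
  sl1 (slF (w3W true) cv4m (w3K true 0 kcg) kf4q0) (sgF cv3m cv4m kf3q0 kf4q0) (hgL (w3W true) cv4m)

noncomputable def sX_Bpk1 : Fn3 :=
  sl1 (slF (w3W true) cv4m (w3Q true kcg) l4q0) (sgF cv3m cv4m l3q0 l4q0) (hgL (w3W true) cv4m)

noncomputable def sD_Bpk1 : Fn3 :=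
  sl1 (slF (w3W true) cv4m (w3D true 0 kcg) (tmF kc4q0 0)) (sgF cv3m cv4m (tmF kc3q0 0) (tmF kc4q0 0)) (hgL (w3W true) cv4m)

noncomputable def T_Bpk1 : MolT :=
  ⟨kcg, dq, sk1, 0, sK_Bpk1, sX_Bpk1, sD_Bpk1, 7, 3, 1959, 1000⟩

noncomputable def sk_Bpk1 : List Fn3 := [skP false 20971520, skM false 20971520]

noncomputable def cx_Bpk1 : List Fn3 :=
  [f3B sk1.xs (tCC (w3W true) cv4m),
    f3B sk1.xs (tCC cv5m (w3W true)),
    f3B sk1.xs (tCC cv4m cv3m),
    f3B sk1.xs (tXC cv3m)]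

noncomputable def c0_Bpk1 : Cht := k0Bp (T_Bpk1.b true) sk_Bpk1 cx_Bpk1

noncomputable def c2_Bpk1 : Cht := k2Bp (T_Bpk1.b true) sk_Bpk1 cx_Bpk1

noncomputable def sK_Bpk2 : Fn3 :=
  sl1 (slF (w3W true) cv4m (w3K true 0 kcg) kf4q0) (sgF cv3m cv4m kf3q0 kf4q0) (hgL (w3W true) cv4m)

noncomputable def sX_Bpk2 : Fn3 :=
  sl1 (slF (w3W true) cv4m (w3Q true kcg) l4q0) (sgF cv3m cv4m l3q0 l4q0) (hgL (w3W true) cv4m)

noncomputable def sD_Bpk2 : Fn3 :=
  sl1 (slF (w3W true) cv4m (w3D true 0 kcg) (tmF kc4q0 0)) (sgF cv3m cv4m (tmF kc3q0 0) (tmF kc4q0 0)) (hgL (w3W true) cv4m)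

noncomputable def T_Bpk2 : MolT :=
  ⟨kcg, dq, sk2, 0, sK_Bpk2, sX_Bpk2, sD_Bpk2, 7, 3, 1959, 1000⟩

noncomputable def sk_Bpk2 : List Fn3 := [skP false 20971520, skM false 20971520]

noncomputable def cx_Bpk2 : List Fn3 :=
  [f3B sk2.xs (tCC (w3W true) cv4m),
    f3B sk2.xs (tCC cv5m (w3W true)),
    f3B sk2.xs (tCC cv4m cv3m),
    f3B sk2.xs (tXC cv3m)]

noncomputable def c0_Bpk2 : Cht := k0Bp (T_Bpk2.b true) sk_Bpk2 cx_Bpk2

noncomputable def c2_Bpk2 : Cht := k2Bp (T_Bpk2.b true) sk_Bpk2 cx_Bpk2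

noncomputable def sK_Bpk3 : Fn3 :=
  sl1 (slF (w3W true) cv4m (w3K true 0 kcg) kf4q0) (sgF cv3m cv4m kf3q0 kf4q0) (hgL (w3W true) cv4m)

noncomputable def sX_Bpk3 : Fn3 :=
  sl1 (slF (w3W true) cv4m (w3Q true kcg) l4q0) (sgF cv3m cv4m l3q0 l4q0) (hgL (w3W true) cv4m)

noncomputable def sD_Bpk3 : Fn3 :=
  sl1 (slF (w3W true) cv4m (w3D true 0 kcg) (tmF kc4q0 0)) (sgF cv3m cv4m (tmF kc3q0 0) (tmF kc4q0 0)) (hgL (w3W true) cv4m)

noncomputable def T_Bpk3 : MolT :=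
  ⟨kcg, dq, sk3, 0, sK_Bpk3, sX_Bpk3, sD_Bpk3, 7, 3, 1959, 1000⟩

noncomputable def sk_Bpk3 : List Fn3 := [skP false 20971520, skM false 20971520]

noncomputable def cx_Bpk3 : List Fn3 :=
  [f3B sk3.xs (tCC (w3W true) cv4m),
    f3B sk3.xs (tCC cv5m (w3W true)),
    f3B sk3.xs (tCC cv4m cv3m),
    f3B sk3.xs (tXC cv3m)]

noncomputable def c0_Bpk3 : Cht := k0Bp (T_Bpk3.b true) sk_Bpk3 cx_Bpk3

noncomputable def c2_Bpk3 : Cht := k2Bp (T_Bpk3.b true) sk_Bpk3 cx_Bpk3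

noncomputable def sK_Bpk4 : Fn3 :=
  sl0 (slF (w3W true) cv4m (w3K true 0 kcg) kf4q0)

noncomputable def sX_Bpk4 : Fn3 :=
  sl0 (slF (w3W true) cv4m (w3Q true kcg) l4q0)

noncomputable def sD_Bpk4 : Fn3 :=
  sl0 (slF (w3W true) cv4m (w3D true 0 kcg) (tmF kc4q0 0))

noncomputable def T_Bpk4 : MolT :=
  ⟨kcg, dq, sk4, 0, sK_Bpk4, sX_Bpk4, sD_Bpk4, 7, 3, 1959, 1000⟩

noncomputable def sk_Bpk4 : List Fn3 := [skP false 20971520, skM false 20971520]

noncomputable def cx_Bpk4 : List Fn3 :=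
  [f3B sk4.xs (tCC (w3W true) cv4m),
    f3B sk4.xs (tCC cv5m (w3W true)),
    f3B sk4.xs (tXC cv4m)]

noncomputable def c0_Bpk4 : Cht := k0Bp (T_Bpk4.b true) sk_Bpk4 cx_Bpk4

noncomputable def c2_Bpk4 : Cht := k2Bp (T_Bpk4.b true) sk_Bpk4 cx_Bpk4

noncomputable def sK_Bm : Fn3 :=
  sl0 (slF (w3W true) cv4m (w3K true 0 kcg) kf4q0)

noncomputable def sX_Bm : Fn3 :=
  sl0 (slF (w3W true) cv4m (w3Q true kcg) l4q0)

noncomputable def sD_Bm : Fn3 :=
  sl0 (slF (w3W true) cv4m (w3D true 0 kcg) (tmF kc4q0 0))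

noncomputable def T_Bm : MolT :=
  ⟨kcg, dq, sm, 0, sK_Bm, sX_Bm, sD_Bm, 7, 3, 1959, 1000⟩

noncomputable def sk_Bm : List Fn3 := [skP false 20971520, skM false 20971520]

noncomputable def cx_Bm : List Fn3 :=
  [f3B sm.xs (tCC (w3W true) cv4m),
    f3B sm.xs (tCC cv5m (w3W true)),
    f3B sm.xs (tCX cv5m)]

noncomputable def c0_Bm : Cht := k0Bm (T_Bm.b false) sk_Bm cx_Bm

noncomputable def c2_Bm : Cht := k2Bm (T_Bm.b false) sk_Bm cx_Bm

end Pool.Agent.Strip051.G.I6500_6900.Tab.Mo
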