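import Pool.Agent.Strip051.G.I6500_6900.St7
import Pool.Agent.Strip051.G.I6500_6900.St8
import Pool.Agent.Strip051.G.I6500_6900.St9
import Pool.Agent.Strip051.G.I6500_6900.StH
import Pool.Agent.Strip051.G.I6500_6900.StF

/-! # Unit strips 10 (generated) -/

set_option linter.all false
set_option maxRecDepth 100000

namespace Pool.Agent.Strip051.G.I6500_6900.Tab.St.C

open Pool.Agent.Strip051.PB Pool.Agent.Strip051.PB.T Pool.Agent.StripNear Pool.Agent.Strip051.LC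
open Pool.Agent.Strip051.G.I6500_6900.Tab Pool.Agent.Strip051.G.I6500_6900.Tab.St

theorem t318_A00pm_102_s1 : ∃ t, chk3 f_A00pm_102_s1 t 15 41 1 = true := ex3_b k313_A00pm_102_s1 k314_A00pm_102_s1

theorem t319_A00pm_102_s1 : ∃ t, chk3 f_A00pm_102_s1 t 15 20 1 = true := ex3_b k312_A00pm_102_s1 t318_A00pm_102_s1

theorem t320_A00pm_102_s1 : ∃ t, chk3 f_A00pm_102_s1 t 15 10 1 = true := ex3_b t319_A00pm_102_s1 k315_A00pm_102_s1

theorem t321_A00pm_102_s1 : ∃ t, chk3 f_A00pm_102_s1 t 14 83 1 = true := ex3_a k309_A00pm_102_s1 k310_A00pm_102_s1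

theorem t322_A00pm_102_s1 : ∃ t, chk3 f_A00pm_102_s1 t 14 41 1 = true := ex3_b k308_A00pm_102_s1 t321_A00pm_102_s1

theorem t323_A00pm_102_s1 : ∃ t, chk3 f_A00pm_102_s1 t 14 40 1 = true := ex3_a k306_A00pm_102_s1 k307_A00pm_102_s1

theorem t324_A00pm_102_s1 : ∃ t, chk3 f_A00pm_102_s1 t 14 20 1 = true := ex3_b t323_A00pm_102_s1 t322_A00pm_102_s1

theorem t325_A00pm_102_s1 : ∃ t, chk3 f_A00pm_102_s1 t 14 10 1 = true := ex3_b t324_A00pm_102_s1 k311_A00pm_102_s1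

theorem t326_A00pm_102_s1 : ∃ t, chk3 f_A00pm_102_s1 t 7 10 1 = true := ex3_a t325_A00pm_102_s1 t320_A00pm_102_s1

theorem t327_A00pm_102_s1 : ∃ t, chk3 f_A00pm_102_s1 t 7 5 1 = true := ex3_b t326_A00pm_102_s1 k316_A00pm_102_s1

theorem t328_A00pm_102_s1 : ∃ t, chk3 f_A00pm_102_s1 t 26 167 1 = true := ex3_b k301_A00pm_102_s1 k302_A00pm_102_s1

theorem t329_A00pm_102_s1 : ∃ t, chk3 f_A00pm_102_s1 t 13 167 1 = true := ex3_a t328_A00pm_102_s1 k303_A00pm_102_s1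

theorem t330_A00pm_102_s1 : ∃ t, chk3 f_A00pm_102_s1 t 13 83 1 = true := ex3_b k300_A00pm_102_s1 t329_A00pm_102_s1

theorem t331_A00pm_102_s1 : ∃ t, chk3 f_A00pm_102_s1 t 24 167 1 = true := ex3_b k297_A00pm_102_s1 k298_A00pm_102_s1

theorem t332_A00pm_102_s1 : ∃ t, chk3 f_A00pm_102_s1 t 12 167 1 = true := ex3_a t331_A00pm_102_s1 k299_A00pm_102_s1

theorem t333_A00pm_102_s1 : ∃ t, chk3 f_A00pm_102_s1 t 12 166 1 = true := ex3_a k295_A00pm_102_s1 k296_A00pm_102_s1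

theorem t334_A00pm_102_s1 : ∃ t, chk3 f_A00pm_102_s1 t 12 83 1 = true := ex3_b t333_A00pm_102_s1 t332_A00pm_102_s1

theorem t335_A00pm_102_s1 : ∃ t, chk3 f_A00pm_102_s1 t 6 83 1 = true := ex3_a t334_A00pm_102_s1 t330_A00pm_102_s1

theorem t336_A00pm_102_s1 : ∃ t, chk3 f_A00pm_102_s1 t 13 82 1 = true := ex3_a k293_A00pm_102_s1 k294_A00pm_102_s1

theorem t337_A00pm_102_s1 : ∃ t, chk3 f_A00pm_102_s1 t 25 82 1 = true := ex3_a k291_A00pm_102_s1 k292_A00pm_102_s1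

theorem t338_A00pm_102_s1 : ∃ t, chk3 f_A00pm_102_s1 t 96 328 1 = true := ex3_b k285_A00pm_102_s1 k286_A00pm_102_s1

theorem t339_A00pm_102_s1 : ∃ t, chk3 f_A00pm_102_s1 t 48 328 1 = true := ex3_a t338_A00pm_102_s1 k287_A00pm_102_s1

theorem t340_A00pm_102_s1 : ∃ t, chk3 f_A00pm_102_s1 t 48 164 1 = true := ex3_b t339_A00pm_102_s1 k288_A00pm_102_s1

theorem t341_A00pm_102_s1 : ∃ t, chk3 f_A00pm_102_s1 t 48 82 1 = true := ex3_b t340_A00pm_102_s1 k289_A00pm_102_s1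

theorem t342_A00pm_102_s1 : ∃ t, chk3 f_A00pm_102_s1 t 24 82 1 = true := ex3_a t341_A00pm_102_s1 k290_A00pm_102_s1

theorem t343_A00pm_102_s1 : ∃ t, chk3 f_A00pm_102_s1 t 12 82 1 = true := ex3_a t342_A00pm_102_s1 t337_A00pm_102_s1

theorem t344_A00pm_102_s1 : ∃ t, chk3 f_A00pm_102_s1 t 6 82 1 = true := ex3_a t343_A00pm_102_s1 t336_A00pm_102_s1

theorem t345_A00pm_102_s1 : ∃ t, chk3 f_A00pm_102_s1 t 6 41 1 = true := ex3_b t344_A00pm_102_s1 t335_A00pm_102_s1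

theorem t346_A00pm_102_s1 : ∃ t, chk3 f_A00pm_102_s1 t 27 40 1 = true := ex3_b k283_A00pm_102_s1 k284_A00pm_102_s1

theorem t347_A00pm_102_s1 : ∃ t, chk3 f_A00pm_102_s1 t 52 81 1 = true := ex3_b k280_A00pm_102_s1 k281_A00pm_102_s1

theorem t348_A00pm_102_s1 : ∃ t, chk3 f_A00pm_102_s1 t 26 81 1 = true := ex3_a t347_A00pm_102_s1 k282_A00pm_102_s1

theorem t349_A00pm_102_s1 : ∃ t, chk3 f_A00pm_102_s1 t 26 80 1 = true := ex3_a k278_A00pm_102_s1 k279_A00pm_102_s1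

theorem t350_A00pm_102_s1 : ∃ t, chk3 f_A00pm_102_s1 t 26 40 1 = true := ex3_b t349_A00pm_102_s1 t348_A00pm_102_s1

theorem t351_A00pm_102_s1 : ∃ t, chk3 f_A00pm_102_s1 t 13 40 1 = true := ex3_a t350_A00pm_102_s1 t346_A00pm_102_s1

theorem t352_A00pm_102_s1 : ∃ t, chk3 f_A00pm_102_s1 t 100 324 1 = true := ex3_a k272_A00pm_102_s1 k273_A00pm_102_s1

theorem t353_A00pm_102_s1 : ∃ t, chk3 f_A00pm_102_s1 t 100 162 1 = true := ex3_b t352_A00pm_102_s1 k274_A00pm_102_s1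

theorem t354_A00pm_102_s1 : ∃ t, chk3 f_A00pm_102_s1 t 50 162 1 = true := ex3_a t353_A00pm_102_s1 k275_A00pm_102_s1

theorem t355_A00pm_102_s1 : ∃ t, chk3 f_A00pm_102_s1 t 50 81 1 = true := ex3_b t354_A00pm_102_s1 k276_A00pm_102_s1

theorem t356_A00pm_102_s1 : ∃ t, chk3 f_A00pm_102_s1 t 25 81 1 = true := ex3_a t355_A00pm_102_s1 k277_A00pm_102_s1

theorem t357_A00pm_102_s1 : ∃ t, chk3 f_A00pm_102_s1 t 98 326 1 = true := ex3_a k268_A00pm_102_s1 k269_A00pm_102_s1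

theorem t358_A00pm_102_s1 : ∃ t, chk3 f_A00pm_102_s1 t 98 163 1 = true := ex3_b t357_A00pm_102_s1 k270_A00pm_102_s1

theorem t359_A00pm_102_s1 : ∃ t, chk3 f_A00pm_102_s1 t 49 163 1 = true := ex3_a t358_A00pm_102_s1 k271_A00pm_102_s1

theorem t360_A00pm_102_s1 : ∃ t, chk3 f_A00pm_102_s1 t 99 325 1 = true := ex3_a k266_A00pm_102_s1 k267_A00pm_102_s1

theorem t361_A00pm_102_s1 : ∃ t, chk3 f_A00pm_102_s1 t 99 162 1 = true := ex3_b k265_A00pm_102_s1 t360_A00pm_102_s1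

theorem t362_A00pm_102_s1 : ∃ t, chk3 f_A00pm_102_s1 t 49 162 1 = true := ex3_a k264_A00pm_102_s1 t361_A00pm_102_s1

theorem t363_A00pm_102_s1 : ∃ t, chk3 f_A00pm_102_s1 t 49 81 1 = true := ex3_b t362_A00pm_102_s1 t359_A00pm_102_s1

theorem t364_A00pm_102_s1 : ∃ t, chk3 f_A00pm_102_s1 t 24 81 1 = true := ex3_a k263_A00pm_102_s1 t363_A00pm_102_s1

theorem t365_A00pm_102_s1 : ∃ t, chk3 f_A00pm_102_s1 t 12 81 1 = true := ex3_a t364_A00pm_102_s1 t356_A00pm_102_s1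

theorem t366_A00pm_102_s1 : ∃ t, chk3 f_A00pm_102_s1 t 51 80 1 = true := ex3_b k261_A00pm_102_s1 k262_A00pm_102_s1

theorem t367_A00pm_102_s1 : ∃ t, chk3 f_A00pm_102_s1 t 406 323 1 = true := ex3_b k258_A00pm_102_s1 k259_A00pm_102_s1

theorem t368_A00pm_102_s1 : ∃ t, chk3 f_A00pm_102_s1 t 203 323 1 = true := ex3_a t367_A00pm_102_s1 k260_A00pm_102_s1

theorem t369_A00pm_102_s1 : ∃ t, chk3 f_A00pm_102_s1 t 202 323 1 = true := ex3_b k256_A00pm_102_s1 k257_A00pm_102_s1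

theorem t370_A00pm_102_s1 : ∃ t, chk3 f_A00pm_102_s1 t 101 323 1 = true := ex3_a t369_A00pm_102_s1 t368_A00pm_102_s1

theorem t371_A00pm_102_s1 : ∃ t, chk3 f_A00pm_102_s1 t 50 323 1 = true := ex3_a k255_A00pm_102_s1 t370_A00pm_102_s1

theorem t372_A00pm_102_s1 : ∃ t, chk3 f_A00pm_102_s1 t 50 161 1 = true := ex3_b k254_A00pm_102_s1 t371_A00pm_102_s1

theorem t373_A00pm_102_s1 : ∃ t, chk3 f_A00pm_102_s1 t 50 80 1 = true := ex3_b k253_A00pm_102_s1 t372_A00pm_102_s1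

theorem t374_A00pm_102_s1 : ∃ t, chk3 f_A00pm_102_s1 t 25 80 1 = true := ex3_a t373_A00pm_102_s1 t366_A00pm_102_s1

theorem t375_A00pm_102_s1 : ∃ t, chk3 f_A00pm_102_s1 t 12 80 1 = true := ex3_a k252_A00pm_102_s1 t374_A00pm_102_s1

theorem t376_A00pm_102_s1 : ∃ t, chk3 f_A00pm_102_s1 t 12 40 1 = true := ex3_b t375_A00pm_102_s1 t365_A00pm_102_s1

theorem t377_A00pm_102_s1 : ∃ t, chk3 f_A00pm_102_s1 t 6 40 1 = true := ex3_a t376_A00pm_102_s1 t351_A00pm_102_s1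

theorem t378_A00pm_102_s1 : ∃ t, chk3 f_A00pm_102_s1 t 6 20 1 = true := ex3_b t377_A00pm_102_s1 t345_A00pm_102_s1

theorem t379_A00pm_102_s1 : ∃ t, chk3 f_A00pm_102_s1 t 6 10 1 = true := ex3_b t378_A00pm_102_s1 k304_A00pm_102_s1

theorem t380_A00pm_102_s1 : ∃ t, chk3 f_A00pm_102_s1 t 6 5 1 = true := ex3_b t379_A00pm_102_s1 k305_A00pm_102_s1

theorem t381_A00pm_102_s1 : ∃ t, chk3 f_A00pm_102_s1 t 3 5 1 = true := ex3_a t380_A00pm_102_s1 t327_A00pm_102_s1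

theorem t382_A00pm_102_s1 : ∃ t, chk3 f_A00pm_102_s1 t 15 19 1 = true := ex3_a k250_A00pm_102_s1 k251_A00pm_102_s1

theorem t383_A00pm_102_s1 : ∃ t, chk3 f_A00pm_102_s1 t 31 36 1 = true := ex3_a k247_A00pm_102_s1 k248_A00pm_102_s1

theorem t384_A00pm_102_s1 : ∃ t, chk3 f_A00pm_102_s1 t 31 18 1 = true := ex3_b t383_A00pm_102_s1 k249_A00pm_102_s1

theorem t385_A00pm_102_s1 : ∃ t, chk3 f_A00pm_102_s1 t 30 36 1 = true := ex3_a k244_A00pm_102_s1 k245_A00pm_102_s1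

theorem t386_A00pm_102_s1 : ∃ t, chk3 f_A00pm_102_s1 t 30 18 1 = true := ex3_b t385_A00pm_102_s1 k246_A00pm_102_s1

theorem t387_A00pm_102_s1 : ∃ t, chk3 f_A00pm_102_s1 t 15 18 1 = true := ex3_a t386_A00pm_102_s1 t384_A00pm_102_s1

theorem t388_A00pm_102_s1 : ∃ t, chk3 f_A00pm_102_s1 t 15 9 1 = true := ex3_b t387_A00pm_102_s1 t382_A00pm_102_s1

theorem t389_A00pm_102_s1 : ∃ t, chk3 f_A00pm_102_s1 t 29 19 1 = true := ex3_b k242_A00pm_102_s1 k243_A00pm_102_s1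

theorem t390_A00pm_102_s1 : ∃ t, chk3 f_A00pm_102_s1 t 56 78 1 = true := ex3_a k238_A00pm_102_s1 k239_A00pm_102_s1

theorem t391_A00pm_102_s1 : ∃ t, chk3 f_A00pm_102_s1 t 56 39 1 = true := ex3_b t390_A00pm_102_s1 k240_A00pm_102_s1

theorem t392_A00pm_102_s1 : ∃ t, chk3 f_A00pm_102_s1 t 28 39 1 = true := ex3_a t391_A00pm_102_s1 k241_A00pm_102_s1

theorem t393_A00pm_102_s1 : ∃ t, chk3 f_A00pm_102_s1 t 57 77 1 = true := ex3_a k236_A00pm_102_s1 k237_A00pm_102_s1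

theorem t394_A00pm_102_s1 : ∃ t, chk3 f_A00pm_102_s1 t 57 76 1 = true := ex3_a k234_A00pm_102_s1 k235_A00pm_102_s1

theorem t395_A00pm_102_s1 : ∃ t, chk3 f_A00pm_102_s1 t 57 38 1 = true := ex3_b t394_A00pm_102_s1 t393_A00pm_102_s1

theorem t396_A00pm_102_s1 : ∃ t, chk3 f_A00pm_102_s1 t 56 38 1 = true := ex3_b k232_A00pm_102_s1 k233_A00pm_102_s1

theorem t397_A00pm_102_s1 : ∃ t, chk3 f_A00pm_102_s1 t 28 38 1 = true := ex3_a t396_A00pm_102_s1 t395_A00pm_102_s1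

theorem t398_A00pm_102_s1 : ∃ t, chk3 f_A00pm_102_s1 t 28 19 1 = true := ex3_b t397_A00pm_102_s1 t392_A00pm_102_s1

theorem t399_A00pm_102_s1 : ∃ t, chk3 f_A00pm_102_s1 t 14 19 1 = true := ex3_a t398_A00pm_102_s1 t389_A00pm_102_s1

theorem t400_A00pm_102_s1 : ∃ t, chk3 f_A00pm_102_s1 t 58 74 1 = true := ex3_a k228_A00pm_102_s1 k229_A00pm_102_s1

theorem t401_A00pm_102_s1 : ∃ t, chk3 f_A00pm_102_s1 t 29 74 1 = true := ex3_a t400_A00pm_102_s1 k230_A00pm_102_s1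

theorem t402_A00pm_102_s1 : ∃ t, chk3 f_A00pm_102_s1 t 29 37 1 = true := ex3_b t401_A00pm_102_s1 k231_A00pm_102_s1

theorem t403_A00pm_102_s1 : ∃ t, chk3 f_A00pm_102_s1 t 59 72 1 = true := ex3_a k225_A00pm_102_s1 k226_A00pm_102_s1

theorem t404_A00pm_102_s1 : ∃ t, chk3 f_A00pm_102_s1 t 59 36 1 = true := ex3_b t403_A00pm_102_s1 k227_A00pm_102_s1

theorem t405_A00pm_102_s1 : ∃ t, chk3 f_A00pm_102_s1 t 117 146 1 = true := ex3_a k222_A00pm_102_s1 k223_A00pm_102_s1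

theorem t406_A00pm_102_s1 : ∃ t, chk3 f_A00pm_102_s1 t 117 73 1 = true := ex3_b t405_A00pm_102_s1 k224_A00pm_102_s1

theorem t407_A00pm_102_s1 : ∃ t, chk3 f_A00pm_102_s1 t 116 73 1 = true := ex3_b k220_A00pm_102_s1 k221_A00pm_102_s1

theorem t408_A00pm_102_s1 : ∃ t, chk3 f_A00pm_102_s1 t 58 73 1 = true := ex3_a t407_A00pm_102_s1 t406_A00pm_102_s1

theorem t409_A00pm_102_s1 : ∃ t, chk3 f_A00pm_102_s1 t 58 36 1 = true := ex3_b k219_A00pm_102_s1 t408_A00pm_102_s1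

theorem t410_A00pm_102_s1 : ∃ t, chk3 f_A00pm_102_s1 t 29 36 1 = true := ex3_a t409_A00pm_102_s1 t404_A00pm_102_s1

theorem t411_A00pm_102_s1 : ∃ t, chk3 f_A00pm_102_s1 t 29 18 1 = true := ex3_b t410_A00pm_102_s1 t402_A00pm_102_s1

theorem t412_A00pm_102_s1 : ∃ t, chk3 f_A00pm_102_s1 t 114 150 1 = true := ex3_a k215_A00pm_102_s1 k216_A00pm_102_s1

theorem t413_A00pm_102_s1 : ∃ t, chk3 f_A00pm_102_s1 t 114 75 1 = true := ex3_b t412_A00pm_102_s1 k217_A00pm_102_s1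

theorem t414_A00pm_102_s1 : ∃ t, chk3 f_A00pm_102_s1 t 57 75 1 = true := ex3_a t413_A00pm_102_s1 k218_A00pm_102_s1

theorem t415_A00pm_102_s1 : ∃ t, chk3 f_A00pm_102_s1 t 115 74 1 = true := ex3_b k213_A00pm_102_s1 k214_A00pm_102_s1

theorem t416_A00pm_102_s1 : ∃ t, chk3 f_A00pm_102_s1 t 57 74 1 = true := ex3_a k212_A00pm_102_s1 t415_A00pm_102_s1

theorem t417_A00pm_102_s1 : ∃ t, chk3 f_A00pm_102_s1 t 57 37 1 = true := ex3_b t416_A00pm_102_s1 t414_A00pm_102_s1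

theorem t418_A00pm_102_s1 : ∃ t, chk3 f_A00pm_102_s1 t 113 75 1 = true := ex3_b k210_A00pm_102_s1 k211_A00pm_102_s1

theorem t419_A00pm_102_s1 : ∃ t, chk3 f_A00pm_102_s1 t 56 75 1 = true := ex3_a k209_A00pm_102_s1 t418_A00pm_102_s1

theorem t420_A00pm_102_s1 : ∃ t, chk3 f_A00pm_102_s1 t 56 37 1 = true := ex3_b k208_A00pm_102_s1 t419_A00pm_102_s1

theorem t421_A00pm_102_s1 : ∃ t, chk3 f_A00pm_102_s1 t 28 37 1 = true := ex3_a t420_A00pm_102_s1 t417_A00pm_102_s1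

theorem t422_A00pm_102_s1 : ∃ t, chk3 f_A00pm_102_s1 t 28 18 1 = true := ex3_b k207_A00pm_102_s1 t421_A00pm_102_s1

theorem t423_A00pm_102_s1 : ∃ t, chk3 f_A00pm_102_s1 t 14 18 1 = true := ex3_a t422_A00pm_102_s1 t411_A00pm_102_s1

theorem t424_A00pm_102_s1 : ∃ t, chk3 f_A00pm_102_s1 t 14 9 1 = true := ex3_b t423_A00pm_102_s1 t399_A00pm_102_s1

theorem t425_A00pm_102_s1 : ∃ t, chk3 f_A00pm_102_s1 t 7 9 1 = true := ex3_a t424_A00pm_102_s1 t388_A00pm_102_s1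

theorem t426_A00pm_102_s1 : ∃ t, chk3 f_A00pm_102_s1 t 31 35 1 = true := ex3_a k205_A00pm_102_s1 k206_A00pm_102_s1

theorem t427_A00pm_102_s1 : ∃ t, chk3 f_A00pm_102_s1 t 124 68 1 = true := ex3_b k200_A00pm_102_s1 k201_A00pm_102_s1

theorem t428_A00pm_102_s1 : ∃ t, chk3 f_A00pm_102_s1 t 124 34 1 = true := ex3_b t427_A00pm_102_s1 k202_A00pm_102_s1

theorem t429_A00pm_102_s1 : ∃ t, chk3 f_A00pm_102_s1 t 62 34 1 = true := ex3_a t428_A00pm_102_s1 k203_A00pm_102_s1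

theorem t430_A00pm_102_s1 : ∃ t, chk3 f_A00pm_102_s1 t 31 34 1 = true := ex3_a t429_A00pm_102_s1 k204_A00pm_102_s1

theorem t431_A00pm_102_s1 : ∃ t, chk3 f_A00pm_102_s1 t 31 17 1 = true := ex3_b t430_A00pm_102_s1 t426_A00pm_102_s1

theorem t432_A00pm_102_s1 : ∃ t, chk3 f_A00pm_102_s1 t 122 140 1 = true := ex3_a k195_A00pm_102_s1 k196_A00pm_102_s1

theorem t433_A00pm_102_s1 : ∃ t, chk3 f_A00pm_102_s1 t 122 70 1 = true := ex3_b t432_A00pm_102_s1 k197_A00pm_102_s1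

theorem t434_A00pm_102_s1 : ∃ t, chk3 f_A00pm_102_s1 t 61 70 1 = true := ex3_a t433_A00pm_102_s1 k198_A00pm_102_s1

theorem t435_A00pm_102_s1 : ∃ t, chk3 f_A00pm_102_s1 t 61 35 1 = true := ex3_b t434_A00pm_102_s1 k199_A00pm_102_s1

theorem t436_A00pm_102_s1 : ∃ t, chk3 f_A00pm_102_s1 t 60 71 1 = true := ex3_a k193_A00pm_102_s1 k194_A00pm_102_s1

theorem t437_A00pm_102_s1 : ∃ t, chk3 f_A00pm_102_s1 t 243 280 1 = true := ex3_a k189_A00pm_102_s1 k190_A00pm_102_s1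

theorem t438_A00pm_102_s1 : ∃ t, chk3 f_A00pm_102_s1 t 243 140 1 = true := ex3_b t437_A00pm_102_s1 k191_A00pm_102_s1

theorem t439_A00pm_102_s1 : ∃ t, chk3 f_A00pm_102_s1 t 121 140 1 = true := ex3_a k188_A00pm_102_s1 t438_A00pm_102_s1

theorem t440_A00pm_102_s1 : ∃ t, chk3 f_A00pm_102_s1 t 121 70 1 = true := ex3_b t439_A00pm_102_s1 k192_A00pm_102_s1

theorem t441_A00pm_102_s1 : ∃ t, chk3 f_A00pm_102_s1 t 60 70 1 = true := ex3_a k187_A00pm_102_s1 t440_A00pm_102_s1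

theorem t442_A00pm_102_s1 : ∃ t, chk3 f_A00pm_102_s1 t 60 35 1 = true := ex3_b t441_A00pm_102_s1 t436_A00pm_102_s1

theorem t443_A00pm_102_s1 : ∃ t, chk3 f_A00pm_102_s1 t 30 35 1 = true := ex3_a t442_A00pm_102_s1 t435_A00pm_102_s1

theorem t444_A00pm_102_s1 : ∃ t, chk3 f_A00pm_102_s1 t 123 139 1 = true := ex3_a k185_A00pm_102_s1 k186_A00pm_102_s1

theorem t445_A00pm_102_s1 : ∃ t, chk3 f_A00pm_102_s1 t 123 138 1 = true := ex3_a k183_A00pm_102_s1 k184_A00pm_102_s1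

theorem t446_A00pm_102_s1 : ∃ t, chk3 f_A00pm_102_s1 t 123 69 1 = true := ex3_b t445_A00pm_102_s1 t444_A00pm_102_s1

theorem t447_A00pm_102_s1 : ∃ t, chk3 f_A00pm_102_s1 t 245 139 2 = true := ex3_c k180_A00pm_102_s1 k181_A00pm_102_s1

theorem t448_A00pm_102_s1 : ∃ t, chk3 f_A00pm_102_s1 t 245 139 1 = true := ex3_c t447_A00pm_102_s1 k182_A00pm_102_s1

theorem t449_A00pm_102_s1 : ∃ t, chk3 f_A00pm_102_s1 t 488 558 2 = true := ex3_a k175_A00pm_102_s1 k176_A00pm_102_s1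

theorem t450_A00pm_102_s1 : ∃ t, chk3 f_A00pm_102_s1 t 488 279 2 = true := ex3_b t449_A00pm_102_s1 k177_A00pm_102_s1

theorem t451_A00pm_102_s1 : ∃ t, chk3 f_A00pm_102_s1 t 488 279 1 = true := ex3_c t450_A00pm_102_s1 k178_A00pm_102_s1

theorem t452_A00pm_102_s1 : ∃ t, chk3 f_A00pm_102_s1 t 244 279 1 = true := ex3_a t451_A00pm_102_s1 k179_A00pm_102_s1

theorem t453_A00pm_102_s1 : ∃ t, chk3 f_A00pm_102_s1 t 978 556 1 = true := ex3_b k171_A00pm_102_s1 k172_A00pm_102_s1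

theorem t454_A00pm_102_s1 : ∃ t, chk3 f_A00pm_102_s1 t 489 556 1 = true := ex3_a t453_A00pm_102_s1 k173_A00pm_102_s1

theorem t455_A00pm_102_s1 : ∃ t, chk3 f_A00pm_102_s1 t 489 278 1 = true := ex3_b t454_A00pm_102_s1 k174_A00pm_102_s1

theorem t456_A00pm_102_s1 : ∃ t, chk3 f_A00pm_102_s1 t 977 557 1 = true := ex3_b k169_A00pm_102_s1 k170_A00pm_102_s1

theorem t457_A00pm_102_s1 : ∃ t, chk3 f_A00pm_102_s1 t 488 557 1 = true := ex3_a k168_A00pm_102_s1 t456_A00pm_102_s1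

theorem t458_A00pm_102_s1 : ∃ t, chk3 f_A00pm_102_s1 t 488 278 1 = true := ex3_b k167_A00pm_102_s1 t457_A00pm_102_s1

theorem t459_A00pm_102_s1 : ∃ t, chk3 f_A00pm_102_s1 t 244 278 1 = true := ex3_a t458_A00pm_102_s1 t455_A00pm_102_s1

theorem t460_A00pm_102_s1 : ∃ t, chk3 f_A00pm_102_s1 t 244 139 1 = true := ex3_b t459_A00pm_102_s1 t452_A00pm_102_s1

theorem t461_A00pm_102_s1 : ∃ t, chk3 f_A00pm_102_s1 t 122 139 1 = true := ex3_a t460_A00pm_102_s1 t448_A00pm_102_s1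

theorem t462_A00pm_102_s1 : ∃ t, chk3 f_A00pm_102_s1 t 490 277 1 = true := ex3_b k164_A00pm_102_s1 k165_A00pm_102_s1

theorem t463_A00pm_102_s1 : ∃ t, chk3 f_A00pm_102_s1 t 245 277 1 = true := ex3_a t462_A00pm_102_s1 k166_A00pm_102_s1

theorem t464_A00pm_102_s1 : ∃ t, chk3 f_A00pm_102_s1 t 245 138 1 = true := ex3_b k163_A00pm_102_s1 t463_A00pm_102_s1

theorem t465_A00pm_102_s1 : ∃ t, chk3 f_A00pm_102_s1 t 489 277 1 = true := ex3_b k161_A00pm_102_s1 k162_A00pm_102_s1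

theorem t466_A00pm_102_s1 : ∃ t, chk3 f_A00pm_102_s1 t 244 277 1 = true := ex3_a k160_A00pm_102_s1 t465_A00pm_102_s1

theorem t467_A00pm_102_s1 : ∃ t, chk3 f_A00pm_102_s1 t 244 138 1 = true := ex3_b k159_A00pm_102_s1 t466_A00pm_102_s1

theorem t468_A00pm_102_s1 : ∃ t, chk3 f_A00pm_102_s1 t 122 138 1 = true := ex3_a t467_A00pm_102_s1 t464_A00pm_102_s1

theorem t469_A00pm_102_s1 : ∃ t, chk3 f_A00pm_102_s1 t 122 69 1 = true := ex3_b t468_A00pm_102_s1 t461_A00pm_102_s1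

theorem t470_A00pm_102_s1 : ∃ t, chk3 f_A00pm_102_s1 t 61 69 1 = true := ex3_a t469_A00pm_102_s1 t446_A00pm_102_s1

theorem t471_A00pm_102_s1 : ∃ t, chk3 f_A00pm_102_s1 t 123 137 1 = true := ex3_a k157_A00pm_102_s1 k158_A00pm_102_s1

theorem t472_A00pm_102_s1 : ∃ t, chk3 f_A00pm_102_s1 t 123 136 1 = true := ex3_a k155_A00pm_102_s1 k156_A00pm_102_s1

theorem t473_A00pm_102_s1 : ∃ t, chk3 f_A00pm_102_s1 t 123 68 1 = true := ex3_b t472_A00pm_102_s1 t471_A00pm_102_s1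

theorem t474_A00pm_102_s1 : ∃ t, chk3 f_A00pm_102_s1 t 61 68 1 = true := ex3_a k154_A00pm_102_s1 t473_A00pm_102_s1

theorem t475_A00pm_102_s1 : ∃ t, chk3 f_A00pm_102_s1 t 61 34 1 = true := ex3_b t474_A00pm_102_s1 t470_A00pm_102_s1

theorem t476_A00pm_102_s1 : ∃ t, chk3 f_A00pm_102_s1 t 487 559 1 = true := ex3_a k152_A00pm_102_s1 k153_A00pm_102_s1

theorem t477_A00pm_102_s1 : ∃ t, chk3 f_A00pm_102_s1 t 243 559 1 = true := ex3_a k151_A00pm_102_s1 t476_A00pm_102_s1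

theorem t478_A00pm_102_s1 : ∃ t, chk3 f_A00pm_102_s1 t 243 279 1 = true := ex3_b k150_A00pm_102_s1 t477_A00pm_102_s1

theorem t479_A00pm_102_s1 : ∃ t, chk3 f_A00pm_102_s1 t 243 139 1 = true := ex3_b k149_A00pm_102_s1 t478_A00pm_102_s1

theorem t480_A00pm_102_s1 : ∃ t, chk3 f_A00pm_102_s1 t 121 139 1 = true := ex3_a k148_A00pm_102_s1 t479_A00pm_102_s1

theorem t481_A00pm_102_s1 : ∃ t, chk3 f_A00pm_102_s1 t 121 69 1 = true := ex3_b k147_A00pm_102_s1 t480_A00pm_102_s1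

theorem t482_A00pm_102_s1 : ∃ t, chk3 f_A00pm_102_s1 t 60 69 1 = true := ex3_a k146_A00pm_102_s1 t481_A00pm_102_s1

theorem t483_A00pm_102_s1 : ∃ t, chk3 f_A00pm_102_s1 t 60 34 1 = true := ex3_b k145_A00pm_102_s1 t482_A00pm_102_s1

theorem t484_A00pm_102_s1 : ∃ t, chk3 f_A00pm_102_s1 t 30 34 1 = true := ex3_a t483_A00pm_102_s1 t475_A00pm_102_s1

theorem t485_A00pm_102_s1 : ∃ t, chk3 f_A00pm_102_s1 t 30 17 1 = true := ex3_b t484_A00pm_102_s1 t443_A00pm_102_s1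

theorem t486_A00pm_102_s1 : ∃ t, chk3 f_A00pm_102_s1 t 15 17 1 = true := ex3_a t485_A00pm_102_s1 t431_A00pm_102_s1

theorem t487_A00pm_102_s1 : ∃ t, chk3 f_A00pm_102_s1 t 252 132 1 = true := ex3_b k139_A00pm_102_s1 k140_A00pm_102_s1

theorem t488_A00pm_102_s1 : ∃ t, chk3 f_A00pm_102_s1 t 252 66 1 = true := ex3_b t487_A00pm_102_s1 k141_A00pm_102_s1

theorem t489_A00pm_102_s1 : ∃ t, chk3 f_A00pm_102_s1 t 126 66 1 = true := ex3_a t488_A00pm_102_s1 k142_A00pm_102_s1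

theorem t490_A00pm_102_s1 : ∃ t, chk3 f_A00pm_102_s1 t 126 33 1 = true := ex3_b t489_A00pm_102_s1 k143_A00pm_102_s1

theorem t491_A00pm_102_s1 : ∃ t, chk3 f_A00pm_102_s1 t 63 33 1 = true := ex3_a t490_A00pm_102_s1 k144_A00pm_102_s1

theorem t492_A00pm_102_s1 : ∃ t, chk3 f_A00pm_102_s1 t 63 16 1 = true := ex3_b k138_A00pm_102_s1 t491_A00pm_102_s1

theorem t493_A00pm_102_s1 : ∃ t, chk3 f_A00pm_102_s1 t 125 134 1 = true := ex3_a k135_A00pm_102_s1 k136_A00pm_102_s1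

theorem t494_A00pm_102_s1 : ∃ t, chk3 f_A00pm_102_s1 t 125 67 1 = true := ex3_b t493_A00pm_102_s1 k137_A00pm_102_s1

theorem t495_A00pm_102_s1 : ∃ t, chk3 f_A00pm_102_s1 t 248 271 1 = true := ex3_a k132_A00pm_102_s1 k133_A00pm_102_s1

theorem t496_A00pm_102_s1 : ∃ t, chk3 f_A00pm_102_s1 t 248 135 1 = true := ex3_b k131_A00pm_102_s1 t495_A00pm_102_s1

theorem t497_A00pm_102_s1 : ∃ t, chk3 f_A00pm_102_s1 t 124 135 1 = true := ex3_a t496_A00pm_102_s1 k134_A00pm_102_s1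

theorem t498_A00pm_102_s1 : ∃ t, chk3 f_A00pm_102_s1 t 124 67 1 = true := ex3_b k130_A00pm_102_s1 t497_A00pm_102_s1

theorem t499_A00pm_102_s1 : ∃ t, chk3 f_A00pm_102_s1 t 62 67 1 = true := ex3_a t498_A00pm_102_s1 t494_A00pm_102_s1

theorem t500_A00pm_102_s1 : ∃ t, chk3 f_A00pm_102_s1 t 251 133 1 = true := ex3_a k128_A00pm_102_s1 k129_A00pm_102_s1

theorem t501_A00pm_102_s1 : ∃ t, chk3 f_A00pm_102_s1 t 125 133 1 = true := ex3_a k127_A00pm_102_s1 t500_A00pm_102_s1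

theorem t502_A00pm_102_s1 : ∃ t, chk3 f_A00pm_102_s1 t 251 265 1 = true := ex3_a k125_A00pm_102_s1 k126_A00pm_102_s1

theorem t503_A00pm_102_s1 : ∃ t, chk3 f_A00pm_102_s1 t 251 132 1 = true := ex3_b k124_A00pm_102_s1 t502_A00pm_102_s1

theorem t504_A00pm_102_s1 : ∃ t, chk3 f_A00pm_102_s1 t 125 132 1 = true := ex3_a k123_A00pm_102_s1 t503_A00pm_102_s1

theorem t505_A00pm_102_s1 : ∃ t, chk3 f_A00pm_102_s1 t 125 66 1 = true := ex3_b t504_A00pm_102_s1 t501_A00pm_102_s1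

theorem t506_A00pm_102_s1 : ∃ t, chk3 f_A00pm_102_s1 t 62 66 1 = true := ex3_a k122_A00pm_102_s1 t505_A00pm_102_s1

theorem t507_A00pm_102_s1 : ∃ t, chk3 f_A00pm_102_s1 t 62 33 1 = true := ex3_b t506_A00pm_102_s1 t499_A00pm_102_s1

theorem t508_A00pm_102_s1 : ∃ t, chk3 f_A00pm_102_s1 t 62 16 1 = true := ex3_b k121_A00pm_102_s1 t507_A00pm_102_s1

theorem t509_A00pm_102_s1 : ∃ t, chk3 f_A00pm_102_s1 t 31 16 1 = true := ex3_a t508_A00pm_102_s1 t492_A00pm_102_s1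

theorem t510_A00pm_102_s1 : ∃ t, chk3 f_A00pm_102_s1 t 15 16 1 = true := ex3_a k120_A00pm_102_s1 t509_A00pm_102_s1

theorem t511_A00pm_102_s1 : ∃ t, chk3 f_A00pm_102_s1 t 15 8 1 = true := ex3_b t510_A00pm_102_s1 t486_A00pm_102_s1

theorem t512_A00pm_102_s1 : ∃ t, chk3 f_A00pm_102_s1 t 119 71 1 = true := ex3_b k118_A00pm_102_s1 k119_A00pm_102_s1

theorem t513_A00pm_102_s1 : ∃ t, chk3 f_A00pm_102_s1 t 59 71 1 = true := ex3_a k117_A00pm_102_s1 t512_A00pm_102_s1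

theorem t514_A00pm_102_s1 : ∃ t, chk3 f_A00pm_102_s1 t 59 35 1 = true := ex3_b k116_A00pm_102_s1 t513_A00pm_102_s1

theorem t515_A00pm_102_s1 : ∃ t, chk3 f_A00pm_102_s1 t 29 35 1 = true := ex3_a k115_A00pm_102_s1 t514_A00pm_102_s1

theorem t516_A00pm_102_s1 : ∃ t, chk3 f_A00pm_102_s1 t 29 17 1 = true := ex3_b k114_A00pm_102_s1 t515_A00pm_102_s1

theorem t517_A00pm_102_s1 : ∃ t, chk3 f_A00pm_102_s1 t 14 17 1 = true := ex3_a k113_A00pm_102_s1 t516_A00pm_102_s1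

theorem t518_A00pm_102_s1 : ∃ t, chk3 f_A00pm_102_s1 t 14 8 1 = true := ex3_b k112_A00pm_102_s1 t517_A00pm_102_s1

theorem t519_A00pm_102_s1 : ∃ t, chk3 f_A00pm_102_s1 t 7 8 1 = true := ex3_a t518_A00pm_102_s1 t511_A00pm_102_s1

theorem t520_A00pm_102_s1 : ∃ t, chk3 f_A00pm_102_s1 t 7 4 1 = true := ex3_b t519_A00pm_102_s1 t425_A00pm_102_s1

theorem t521_A00pm_102_s1 : ∃ t, chk3 f_A00pm_102_s1 t 55 79 1 = true := ex3_b k110_A00pm_102_s1 k111_A00pm_102_s1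

theorem t522_A00pm_102_s1 : ∃ t, chk3 f_A00pm_102_s1 t 27 79 1 = true := ex3_a k109_A00pm_102_s1 t521_A00pm_102_s1

theorem t523_A00pm_102_s1 : ∃ t, chk3 f_A00pm_102_s1 t 55 78 3 = true := ex3_c k107_A00pm_102_s1 k108_A00pm_102_s1

theorem t524_A00pm_102_s1 : ∃ t, chk3 f_A00pm_102_s1 t 55 78 1 = true := ex3_c k106_A00pm_102_s1 t523_A00pm_102_s1

theorem t525_A00pm_102_s1 : ∃ t, chk3 f_A00pm_102_s1 t 54 156 1 = true := ex3_a k103_A00pm_102_s1 k104_A00pm_102_s1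

theorem t526_A00pm_102_s1 : ∃ t, chk3 f_A00pm_102_s1 t 54 78 1 = true := ex3_b t525_A00pm_102_s1 k105_A00pm_102_s1

theorem t527_A00pm_102_s1 : ∃ t, chk3 f_A00pm_102_s1 t 27 78 1 = true := ex3_a t526_A00pm_102_s1 t524_A00pm_102_s1

theorem t528_A00pm_102_s1 : ∃ t, chk3 f_A00pm_102_s1 t 27 39 1 = true := ex3_b t527_A00pm_102_s1 t522_A00pm_102_s1

theorem t529_A00pm_102_s1 : ∃ t, chk3 f_A00pm_102_s1 t 55 154 1 = true := ex3_a k100_A00pm_102_s1 k101_A00pm_102_s1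

theorem t530_A00pm_102_s1 : ∃ t, chk3 f_A00pm_102_s1 t 55 77 1 = true := ex3_b t529_A00pm_102_s1 k102_A00pm_102_s1

theorem t531_A00pm_102_s1 : ∃ t, chk3 f_A00pm_102_s1 t 109 77 1 = true := ex3_b k98_A00pm_102_s1 k99_A00pm_102_s1

theorem t532_A00pm_102_s1 : ∃ t, chk3 f_A00pm_102_s1 t 54 77 1 = true := ex3_a k97_A00pm_102_s1 t531_A00pm_102_s1

theorem t533_A00pm_102_s1 : ∃ t, chk3 f_A00pm_102_s1 t 27 77 1 = true := ex3_a t532_A00pm_102_s1 t530_A00pm_102_s1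

theorem t534_A00pm_102_s1 : ∃ t, chk3 f_A00pm_102_s1 t 27 76 1 = true := ex3_a k95_A00pm_102_s1 k96_A00pm_102_s1

theorem t535_A00pm_102_s1 : ∃ t, chk3 f_A00pm_102_s1 t 27 38 1 = true := ex3_b t534_A00pm_102_s1 t533_A00pm_102_s1

theorem t536_A00pm_102_s1 : ∃ t, chk3 f_A00pm_102_s1 t 27 19 1 = true := ex3_b t535_A00pm_102_s1 t528_A00pm_102_s1

theorem t537_A00pm_102_s1 : ∃ t, chk3 f_A00pm_102_s1 t 27 9 1 = true := ex3_b k94_A00pm_102_s1 t536_A00pm_102_s1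

theorem t538_A00pm_102_s1 : ∃ t, chk3 f_A00pm_102_s1 t 106 316 1 = true := ex3_a k89_A00pm_102_s1 k90_A00pm_102_s1

theorem t539_A00pm_102_s1 : ∃ t, chk3 f_A00pm_102_s1 t 106 158 1 = true := ex3_b t538_A00pm_102_s1 k91_A00pm_102_s1

theorem t540_A00pm_102_s1 : ∃ t, chk3 f_A00pm_102_s1 t 53 158 1 = true := ex3_a t539_A00pm_102_s1 k92_A00pm_102_s1

theorem t541_A00pm_102_s1 : ∃ t, chk3 f_A00pm_102_s1 t 53 79 1 = true := ex3_b t540_A00pm_102_s1 k93_A00pm_102_s1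

theorem t542_A00pm_102_s1 : ∃ t, chk3 f_A00pm_102_s1 t 52 79 1 = true := ex3_b k87_A00pm_102_s1 k88_A00pm_102_s1

theorem t543_A00pm_102_s1 : ∃ t, chk3 f_A00pm_102_s1 t 26 79 1 = true := ex3_a t542_A00pm_102_s1 t541_A00pm_102_s1

theorem t544_A00pm_102_s1 : ∃ t, chk3 f_A00pm_102_s1 t 107 157 1 = true := ex3_b k85_A00pm_102_s1 k86_A00pm_102_s1

theorem t545_A00pm_102_s1 : ∃ t, chk3 f_A00pm_102_s1 t 53 157 1 = true := ex3_a k84_A00pm_102_s1 t544_A00pm_102_s1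

theorem t546_A00pm_102_s1 : ∃ t, chk3 f_A00pm_102_s1 t 53 78 1 = true := ex3_b k83_A00pm_102_s1 t545_A00pm_102_s1

theorem t547_A00pm_102_s1 : ∃ t, chk3 f_A00pm_102_s1 t 26 78 1 = true := ex3_a k82_A00pm_102_s1 t546_A00pm_102_s1

theorem t548_A00pm_102_s1 : ∃ t, chk3 f_A00pm_102_s1 t 26 39 1 = true := ex3_b t547_A00pm_102_s1 t543_A00pm_102_s1

theorem t549_A00pm_102_s1 : ∃ t, chk3 f_A00pm_102_s1 t 26 19 1 = true := ex3_b k81_A00pm_102_s1 t548_A00pm_102_s1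

theorem t550_A00pm_102_s1 : ∃ t, chk3 f_A00pm_102_s1 t 26 9 1 = true := ex3_b k80_A00pm_102_s1 t549_A00pm_102_s1

theorem t551_A00pm_102_s1 : ∃ t, chk3 f_A00pm_102_s1 t 13 9 1 = true := ex3_a t550_A00pm_102_s1 t537_A00pm_102_s1

theorem t552_A00pm_102_s1 : ∃ t, chk3 f_A00pm_102_s1 t 6 9 1 = true := ex3_a k79_A00pm_102_s1 t551_A00pm_102_s1

theorem t553_A00pm_102_s1 : ∃ t, chk3 f_A00pm_102_s1 t 6 4 1 = true := ex3_b k78_A00pm_102_s1 t552_A00pm_102_s1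

theorem t554_A00pm_102_s1 : ∃ t, chk3 f_A00pm_102_s1 t 3 4 1 = true := ex3_a t553_A00pm_102_s1 t520_A00pm_102_s1

theorem t555_A00pm_102_s1 : ∃ t, chk3 f_A00pm_102_s1 t 3 2 1 = true := ex3_b t554_A00pm_102_s1 t381_A00pm_102_s1

theorem t556_A00pm_102_s1 : ∃ t, chk3 f_A00pm_102_s1 t 3 1 1 = true := ex3_b t555_A00pm_102_s1 k317_A00pm_102_s1

theorem t557_A00pm_102_s1 : ∃ t, chk3 f_A00pm_102_s1 t 5 21 1 = true := ex3_a k74_A00pm_102_s1 k75_A00pm_102_s1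

theorem t558_A00pm_102_s1 : ∃ t, chk3 f_A00pm_102_s1 t 2 21 1 = true := ex3_a k73_A00pm_102_s1 t557_A00pm_102_s1

theorem t559_A00pm_102_s1 : ∃ t, chk3 f_A00pm_102_s1 t 11 10726 1 = true := ex3_b k68_A00pm_102_s1 k69_A00pm_102_s1

theorem t560_A00pm_102_s1 : ∃ t, chk3 f_A00pm_102_s1 t 11 5363 1 = true := ex3_b t559_A00pm_102_s1 k70_A00pm_102_s1

theorem t561_A00pm_102_s1 : ∃ t, chk3 f_A00pm_102_s1 t 11 2681 1 = true := ex3_b k67_A00pm_102_s1 t560_A00pm_102_s1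

theorem t562_A00pm_102_s1 : ∃ t, chk3 f_A00pm_102_s1 t 11 1340 1 = true := ex3_b k66_A00pm_102_s1 t561_A00pm_102_s1

theorem t563_A00pm_102_s1 : ∃ t, chk3 f_A00pm_102_s1 t 11 670 1 = true := ex3_b t562_A00pm_102_s1 k71_A00pm_102_s1

theorem t564_A00pm_102_s1 : ∃ t, chk3 f_A00pm_102_s1 t 11 335 1 = true := ex3_b t563_A00pm_102_s1 k72_A00pm_102_s1

theorem t565_A00pm_102_s1 : ∃ t, chk3 f_A00pm_102_s1 t 22 669 1 = true := ex3_a k63_A00pm_102_s1 k64_A00pm_102_s1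

theorem t566_A00pm_102_s1 : ∃ t, chk3 f_A00pm_102_s1 t 22 668 1 = true := ex3_a k61_A00pm_102_s1 k62_A00pm_102_s1

theorem t567_A00pm_102_s1 : ∃ t, chk3 f_A00pm_102_s1 t 22 334 1 = true := ex3_b t566_A00pm_102_s1 t565_A00pm_102_s1

theorem t568_A00pm_102_s1 : ∃ t, chk3 f_A00pm_102_s1 t 11 334 1 = true := ex3_a t567_A00pm_102_s1 k65_A00pm_102_s1

theorem t569_A00pm_102_s1 : ∃ t, chk3 f_A00pm_102_s1 t 11 167 1 = true := ex3_b t568_A00pm_102_s1 t564_A00pm_102_s1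

theorem t570_A00pm_102_s1 : ∃ t, chk3 f_A00pm_102_s1 t 10 1341 1 = true := ex3_b k58_A00pm_102_s1 k59_A00pm_102_s1

theorem t571_A00pm_102_s1 : ∃ t, chk3 f_A00pm_102_s1 t 10 5363 1 = true := ex3_b k56_A00pm_102_s1 k57_A00pm_102_s1

theorem t572_A00pm_102_s1 : ∃ t, chk3 f_A00pm_102_s1 t 10 5362 1 = true := ex3_a k54_A00pm_102_s1 k55_A00pm_102_s1

theorem t573_A00pm_102_s1 : ∃ t, chk3 f_A00pm_102_s1 t 10 2681 1 = true := ex3_b t572_A00pm_102_s1 t571_A00pm_102_s1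

theorem t574_A00pm_102_s1 : ∃ t, chk3 f_A00pm_102_s1 t 21 2680 1 = true := ex3_a k52_A00pm_102_s1 k53_A00pm_102_s1

theorem t575_A00pm_102_s1 : ∃ t, chk3 f_A00pm_102_s1 t 10 2680 1 = true := ex3_a k51_A00pm_102_s1 t574_A00pm_102_s1

theorem t576_A00pm_102_s1 : ∃ t, chk3 f_A00pm_102_s1 t 10 1340 1 = true := ex3_b t575_A00pm_102_s1 t573_A00pm_102_s1

theorem t577_A00pm_102_s1 : ∃ t, chk3 f_A00pm_102_s1 t 10 670 1 = true := ex3_b t576_A00pm_102_s1 t570_A00pm_102_s1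

theorem t578_A00pm_102_s1 : ∃ t, chk3 f_A00pm_102_s1 t 10 335 1 = true := ex3_b t577_A00pm_102_s1 k60_A00pm_102_s1

theorem t579_A00pm_102_s1 : ∃ t, chk3 f_A00pm_102_s1 t 43 669 1 = true := ex3_a k49_A00pm_102_s1 k50_A00pm_102_s1

theorem t580_A00pm_102_s1 : ∃ t, chk3 f_A00pm_102_s1 t 21 669 1 = true := ex3_a k48_A00pm_102_s1 t579_A00pm_102_s1

theorem t581_A00pm_102_s1 : ∃ t, chk3 f_A00pm_102_s1 t 43 668 1 = true := ex3_c k46_A00pm_102_s1 k47_A00pm_102_s1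

theorem t582_A00pm_102_s1 : ∃ t, chk3 f_A00pm_102_s1 t 21 668 1 = true := ex3_a k45_A00pm_102_s1 t581_A00pm_102_s1

theorem t583_A00pm_102_s1 : ∃ t, chk3 f_A00pm_102_s1 t 21 334 1 = true := ex3_b t582_A00pm_102_s1 t580_A00pm_102_s1

theorem t584_A00pm_102_s1 : ∃ t, chk3 f_A00pm_102_s1 t 10 334 1 = true := ex3_a k44_A00pm_102_s1 t583_A00pm_102_s1

theorem t585_A00pm_102_s1 : ∃ t, chk3 f_A00pm_102_s1 t 10 167 1 = true := ex3_b t584_A00pm_102_s1 t578_A00pm_102_s1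

theorem t586_A00pm_102_s1 : ∃ t, chk3 f_A00pm_102_s1 t 5 167 1 = true := ex3_a t585_A00pm_102_s1 t569_A00pm_102_s1

theorem t587_A00pm_102_s1 : ∃ t, chk3 f_A00pm_102_s1 t 46 166 1 = true := ex3_b k41_A00pm_102_s1 k42_A00pm_102_s1

theorem t588_A00pm_102_s1 : ∃ t, chk3 f_A00pm_102_s1 t 23 166 1 = true := ex3_a t587_A00pm_102_s1 k43_A00pm_102_s1

theorem t589_A00pm_102_s1 : ∃ t, chk3 f_A00pm_102_s1 t 45 333 1 = true := ex3_b k39_A00pm_102_s1 k40_A00pm_102_s1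

theorem t590_A00pm_102_s1 : ∃ t, chk3 f_A00pm_102_s1 t 22 333 1 = true := ex3_a k38_A00pm_102_s1 t589_A00pm_102_s1

theorem t591_A00pm_102_s1 : ∃ t, chk3 f_A00pm_102_s1 t 45 664 1 = true := ex3_a k35_A00pm_102_s1 k36_A00pm_102_s1

theorem t592_A00pm_102_s1 : ∃ t, chk3 f_A00pm_102_s1 t 45 332 1 = true := ex3_b t591_A00pm_102_s1 k37_A00pm_102_s1

theorem t593_A00pm_102_s1 : ∃ t, chk3 f_A00pm_102_s1 t 22 332 1 = true := ex3_a k34_A00pm_102_s1 t592_A00pm_102_s1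

theorem t594_A00pm_102_s1 : ∃ t, chk3 f_A00pm_102_s1 t 22 166 1 = true := ex3_b t593_A00pm_102_s1 t590_A00pm_102_s1

theorem t595_A00pm_102_s1 : ∃ t, chk3 f_A00pm_102_s1 t 11 166 1 = true := ex3_a t594_A00pm_102_s1 t588_A00pm_102_s1

theorem t596_A00pm_102_s1 : ∃ t, chk3 f_A00pm_102_s1 t 10 166 3 = true := ex3_b k32_A00pm_102_s1 k33_A00pm_102_s1

theorem t597_A00pm_102_s1 : ∃ t, chk3 f_A00pm_102_s1 t 10 166 2 = true := ex3_b k30_A00pm_102_s1 k31_A00pm_102_s1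

theorem t598_A00pm_102_s1 : ∃ t, chk3 f_A00pm_102_s1 t 10 166 1 = true := ex3_c t597_A00pm_102_s1 t596_A00pm_102_s1

theorem t599_A00pm_102_s1 : ∃ t, chk3 f_A00pm_102_s1 t 5 166 1 = true := ex3_a t598_A00pm_102_s1 t595_A00pm_102_s1

theorem t600_A00pm_102_s1 : ∃ t, chk3 f_A00pm_102_s1 t 5 83 1 = true := ex3_b t599_A00pm_102_s1 t586_A00pm_102_s1

theorem t601_A00pm_102_s1 : ∃ t, chk3 f_A00pm_102_s1 t 5 331 3 = true := ex3_c k28_A00pm_102_s1 k29_A00pm_102_s1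

theorem t602_A00pm_102_s1 : ∃ t, chk3 f_A00pm_102_s1 t 5 165 3 = true := ex3_b k27_A00pm_102_s1 t601_A00pm_102_s1

theorem t603_A00pm_102_s1 : ∃ t, chk3 f_A00pm_102_s1 t 11 331 2 = true := ex3_a k25_A00pm_102_s1 k26_A00pm_102_s1

theorem t604_A00pm_102_s1 : ∃ t, chk3 f_A00pm_102_s1 t 5 331 2 = true := ex3_a k24_A00pm_102_s1 t603_A00pm_102_s1

theorem t605_A00pm_102_s1 : ∃ t, chk3 f_A00pm_102_s1 t 11 330 2 = true := ex3_a k22_A00pm_102_s1 k23_A00pm_102_s1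

theorem t606_A00pm_102_s1 : ∃ t, chk3 f_A00pm_102_s1 t 5 330 2 = true := ex3_a k21_A00pm_102_s1 t605_A00pm_102_s1

theorem t607_A00pm_102_s1 : ∃ t, chk3 f_A00pm_102_s1 t 5 165 2 = true := ex3_b t606_A00pm_102_s1 t604_A00pm_102_s1

theorem t608_A00pm_102_s1 : ∃ t, chk3 f_A00pm_102_s1 t 5 165 1 = true := ex3_c t607_A00pm_102_s1 t602_A00pm_102_s1

theorem t609_A00pm_102_s1 : ∃ t, chk3 f_A00pm_102_s1 t 5 329 3 = true := ex3_c k19_A00pm_102_s1 k20_A00pm_102_s1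

theorem t610_A00pm_102_s1 : ∃ t, chk3 f_A00pm_102_s1 t 5 164 3 = true := ex3_b k18_A00pm_102_s1 t609_A00pm_102_s1

theorem t611_A00pm_102_s1 : ∃ t, chk3 f_A00pm_102_s1 t 11 329 2 = true := ex3_a k16_A00pm_102_s1 k17_A00pm_102_s1

theorem t612_A00pm_102_s1 : ∃ t, chk3 f_A00pm_102_s1 t 5 329 2 = true := ex3_a k15_A00pm_102_s1 t611_A00pm_102_s1

theorem t613_A00pm_102_s1 : ∃ t, chk3 f_A00pm_102_s1 t 5 164 2 = true := ex3_b k14_A00pm_102_s1 t612_A00pm_102_s1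

theorem t614_A00pm_102_s1 : ∃ t, chk3 f_A00pm_102_s1 t 5 164 1 = true := ex3_c t613_A00pm_102_s1 t610_A00pm_102_s1

theorem t615_A00pm_102_s1 : ∃ t, chk3 f_A00pm_102_s1 t 5 82 1 = true := ex3_b t614_A00pm_102_s1 t608_A00pm_102_s1

theorem t616_A00pm_102_s1 : ∃ t, chk3 f_A00pm_102_s1 t 5 41 1 = true := ex3_b t615_A00pm_102_s1 t600_A00pm_102_s1

theorem t617_A00pm_102_s1 : ∃ t, chk3 f_A00pm_102_s1 t 2 41 1 = true := ex3_a k13_A00pm_102_s1 t616_A00pm_102_s1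

theorem t618_A00pm_102_s1 : ∃ t, chk3 f_A00pm_102_s1 t 2 163 3 = true := ex3_c k11_A00pm_102_s1 k12_A00pm_102_s1

theorem t619_A00pm_102_s1 : ∃ t, chk3 f_A00pm_102_s1 t 2 81 3 = true := ex3_b k10_A00pm_102_s1 t618_A00pm_102_s1

theorem t620_A00pm_102_s1 : ∃ t, chk3 f_A00pm_102_s1 t 2 163 5 = true := ex3_a k8_A00pm_102_s1 k9_A00pm_102_s1

theorem t621_A00pm_102_s1 : ∃ t, chk3 f_A00pm_102_s1 t 23 163 4 = true := ex3_a k6_A00pm_102_s1 k7_A00pm_102_s1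

theorem t622_A00pm_102_s1 : ∃ t, chk3 f_A00pm_102_s1 t 11 163 4 = true := ex3_a k5_A00pm_102_s1 t621_A00pm_102_s1

theorem t623_A00pm_102_s1 : ∃ t, chk3 f_A00pm_102_s1 t 5 163 4 = true := ex3_a k4_A00pm_102_s1 t622_A00pm_102_s1

theorem t624_A00pm_102_s1 : ∃ t, chk3 f_A00pm_102_s1 t 2 163 4 = true := ex3_a k3_A00pm_102_s1 t623_A00pm_102_s1

theorem t625_A00pm_102_s1 : ∃ t, chk3 f_A00pm_102_s1 t 2 163 2 = true := ex3_c t624_A00pm_102_s1 t620_A00pm_102_s1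

theorem t626_A00pm_102_s1 : ∃ t, chk3 f_A00pm_102_s1 t 2 81 2 = true := ex3_b k2_A00pm_102_s1 t625_A00pm_102_s1

theorem t627_A00pm_102_s1 : ∃ t, chk3 f_A00pm_102_s1 t 2 81 1 = true := ex3_c t626_A00pm_102_s1 t619_A00pm_102_s1

theorem t628_A00pm_102_s1 : ∃ t, chk3 f_A00pm_102_s1 t 2 40 1 = true := ex3_b k1_A00pm_102_s1 t627_A00pm_102_s1

theorem t629_A00pm_102_s1 : ∃ t, chk3 f_A00pm_102_s1 t 2 20 1 = true := ex3_b t628_A00pm_102_s1 t617_A00pm_102_s1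

theorem t630_A00pm_102_s1 : ∃ t, chk3 f_A00pm_102_s1 t 2 10 1 = true := ex3_b t629_A00pm_102_s1 t558_A00pm_102_s1

theorem t631_A00pm_102_s1 : ∃ t, chk3 f_A00pm_102_s1 t 2 5 1 = true := ex3_b t630_A00pm_102_s1 k76_A00pm_102_s1

theorem t632_A00pm_102_s1 : ∃ t, chk3 f_A00pm_102_s1 t 2 2 1 = true := ex3_b k0_A00pm_102_s1 t631_A00pm_102_s1

theorem t633_A00pm_102_s1 : ∃ t, chk3 f_A00pm_102_s1 t 2 1 1 = true := ex3_b t632_A00pm_102_s1 k77_A00pm_102_s1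

theorem t634_A00pm_102_s1 : ∃ t, chk3 f_A00pm_102_s1 t 1 1 1 = true := ex3_a t633_A00pm_102_s1 t556_A00pm_102_s1

theorem c_A00pm_102_s1 : CertF 536870912 536870912 0 536870912 697932185 42949674 true true false .npp 1 0 2
    ndB0q1 ndB0q0 pcB2 cut_A00pm_102_s1 xt_A00pm_102_s1 :=
  certF1 (fam := true) (s1 := true) (s2 := false) (a := 1) (b := 0) (c := 2) (cn := .npp) (n1 := ndB0q1) (n2 := ndB0q0) (pc := pcB2) (cut := cut_A00pm_102_s1) (xt := xt_A00pm_102_s1) (P1 := 536870912) (W1 := 536870912) (P2 := 0) (W2 := 536870912) (P3 := 697932185) (W3 := 42949674)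
    rfl (fun _ => rfl) t634_A00pm_102_s1

theorem s_A00pm_102_s1 {κ x : ℝ} (hκ : κ * h0 = ken x) (hx : ((697932185 : ℕ) : ℝ) / S ≤ x)
    (hx' : x ≤ (((697932185 : ℕ) : ℝ) + (42949674 : ℕ)) / S)
    (H : CutA (VFD κ) PP tK tL pcB (Cut.of [[⟨0, 1, 0, 33554432⟩, ⟨1, 0, 0, 33554432⟩, ⟨2, 1, 0, 33554432⟩]]) 1 0 2 0 0 (sgb true) (sgb false) x) :
    AltA (VFD κ) PP tK tL pcB [⟨3, 0, 0, 1449551462⟩] 1 0 2 0 0 (sgb true) (sgb false) x :=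
  strip_altAD (m := 1449551462) true rfl hκ (SH.κ0 hκ (SH.hx1 hx).le (SH.hx2 hx').le) (SH.hx1 hx).le (SH.hx2 hx') (covB01).cov (covB00).cov hx hx' c_A00pm_102_s1 H ((okx6 hx hx').extA (T := tt) (okx hx hx') (sideB hx hx') hκ rfl rfl (.O 1 true) (.O 0 false) rfl)

end Pool.Agent.Strip051.G.I6500_6900.Tab.St.C
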