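import Pool.Agent.Strip051.G.I6500_6900.Tab
import Pool.Agent.Strip051.PB.ExtD2

/-! # Certificates B24 (generated) -/

set_option linter.all false
set_option maxRecDepth 100000

namespace Pool.Agent.Strip051.G.I6500_6900.Tab.C.BB03

open Pool.Agent.Strip051.PB Pool.Agent.Strip051.PB.T
open Pool.Agent.Strip051.G.I6500_6900.Tab

noncomputable def cut_pp_113 : Cut := Cut.of [[⟨0, 1, 0, 67108864⟩, ⟨1, 1, 0, 67108864⟩, ⟨2, 2, 0, 16777216⟩]]

noncomputable def f_pp_113 : ℕ → ℕ → ℕ → ℕ → Bool := onCell 536870912 536870912 536870912 536870912 697932185 42949674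
    (rowB 3 eng mog cd0q1 cd3q3 pd1 1 false true true .nn 1 1 3 (qsf 536870912 536870912 1610612736 536870912 1) ndB0q1 ndB3q3 pcB1 cut_pp_113 Ext.none)

def k0_pp_113 : ∃ t, chk3 f_pp_113 t 1 2 1 = true :=
  ⟨(l 3), by decide +kernel⟩

def k1_pp_113 : ∃ t, chk3 f_pp_113 t 2 3 1 = true :=
  ⟨(b (a (l 3) (l 3)) (a (b (b (a (l 1) (a (b (l 1) (a (l 1) (l 141766854007))) (l 3))) (a (a (l 1) (b (l 1) (a (l 1) (l 16407080)))) (a (b (a (l 16461120) (l 16451280)) (a (l 16416672) (l 16429088))) (b (b (l 16479064) (l 16468400)) (b (l 16458512) (l 16449048)))))) (a (b (a (b (l 1) (l 136398054535)) (b (l 67678628663) (l 16355280))) (a (b (l 16315264) (l 16289800)) (l 16340496))) (b (a (b (l 16400784) (l 16379704)) (a (l 16457664) (l 16437624))) (a (l 16348480) (l 16392224))))) (b (b (l 3) (b (a (a (c (l 49022689831) (l 16514352)) (b (l 3) (l 100562408183))) (l 3)) (a (a (b (l 16504032) (l 16496776)) (c (l 68350135399) (l 63518237959))) (a (a (l 61907793959) (a (l 61370936679) (l 59760342967))) (a (l 62444689495)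 (l 55465447895)))))) (a (b (a (b (l 16486448) (l 16473664)) (b (l 16562984) (l 16557456))) (a (b (l 16462168) (l 16451400)) (b (l 16553792) (l 16551200)))) (b (a (b (b (l 16668616) (l 16660816)) (l 16649248)) (b (a (l 16706920) (l 16730400)) (l 16702016))) (a (b (l 16634264) (l 16619424)) (b (l 16685552) (l 16669552)))))))), by decide +kernel⟩

def k2_pp_113 : ∃ t, chk3 f_pp_113 t 3 6 1 = true :=
  ⟨(l 3), by decide +kernel⟩

def k3_pp_113 : ∃ t, chk3 f_pp_113 t 6 7 1 = true :=
  ⟨(b (a (l 3) (l 3)) (a (b (a (b (a (l 16729032) (l 100562609607)) (a (l 16731424) (l 16748296))) (b (a (l 106468246503) (l 158544806487)) (a (l 16748040) (l 16790136)))) (a (b (a (l 16713568) (l 16729400)) (a (l 16696264) (l 16710784))) (b (a (l 16748856) (l 16773600)) (a (l 16729024) (l 16752256))))) (b (b (l 3) (a (a (l 128480026103) (a (l 156934216471) (l 162839832231))) (b (l 3) (a (l 16900096) (l 182167251383))))) (a (b (l 16820776) (l 16786264)) (b (a (l 16837160) (b (l 16859864) (l 16845144))) (a (l 16810232) (l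 16823104))))))), by decide +kernel⟩

def k4_pp_113 : ∃ t, chk3 f_pp_113 t 7 7 1 = true :=
  ⟨(b (l 3) (a (b (a (l 3) (l 3)) (a (b (a (b (c (l 16868672) (l 16882728)) (l 16858984)) (b (l 197736419095) (l 16870112))) (a (l 16835192) (l 16844672))) (b (b (l 3) (a (l 203641947911) (b (l 3) (l 271287631959)))) (a (l 16848536) (b (l 16813944) (l 16837240)))))) (b (l 3) (a (b (a (a (l 3) (l 3)) (l 3)) (a (b (a (l 239075364679) (b (b (l 3) (l 319069127063)) (l 16816576))) (l 16830808)) (b (b (a (l 3) (l 3)) (a (b (l 340543946807) (l 16805000)) (b (l 3) (c (l 310479189575) (a (l 16813256) (l 517174521207)))))) (b (a (l 16828416) (b (l 16784480) (l 16817504))) (l 16816584))))) (b (l 3) (b (a (a (a (a (l 3) (l 3)) (l 3)) (l 3)) (l 3)) (a (b (a (b (c (b (l 599852641095) (l 261087058071)) (a (l 272898212471) (l 489257217319))) (a (l 16788320) (l 16780512))) (b (a (c (l 539723083239) (l 510732043559)) (l 3)) (a (c (l 264308276999) (b (l 461339923543) (l 16797240))) (c (c (l 411947800903) (l 350207642343)) (b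 (l 506973941207) (a (l 338933353639) (l 461876784791))))))) (a (l 16786704) (a (l 16780352) (b (c (l 16786824) (b (l 16783072) (l 16794464))) (l 16796520))))) (b (a (b (l 3) (a (c (l 533817496119) (l 487646587831)) (l 3))) (l 3)) (a (b (b (a (a (c (l 268603241031) (l 340007090599)) (b (l 515027005847) (c (l 317458492823) (l 436643845527)))) (b (l 3) (l 6))) (a (c (l 16782168) (a (l 16791096) (l 16788896))) (l 6))) (a (l 16781960) (l 6))) (l 6)))))))))), by decide +kernel⟩

theorem s5_pp_113 : ∃ t, chk3 f_pp_113 t 3 7 1 = true := ex3_a k3_pp_113 k4_pp_113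

theorem s6_pp_113 : ∃ t, chk3 f_pp_113 t 3 3 1 = true := ex3_b k2_pp_113 s5_pp_113

theorem s7_pp_113 : ∃ t, chk3 f_pp_113 t 1 3 1 = true := ex3_a k1_pp_113 s6_pp_113

theorem s8_pp_113 : ∃ t, chk3 f_pp_113 t 1 1 1 = true := ex3_b k0_pp_113 s7_pp_113

theorem c_pp_113 : CertB 536870912 536870912 1610612736 536870912 697932185 42949674 3 eng mog cd0q1 cd3q3 pd1 false true true .nn 1 1 3
    ndB0q1 ndB3q3 pcB1 cut_pp_113 Ext.none :=
  certB1 (fam := false) (s1 := true) (s2 := true) (a := 1) (b := 1) (c := 3) (cn := .nn) (n1 := ndB0q1) (n2 := ndB3q3) (pc := pcB1) (cut := cut_pp_113) (xt := Ext.none) (P1 := 536870912) (W1 := 536870912) (P2 := 1610612736) (W2 := 536870912) (P3 := 697932185) (W3 := 42949674) (N0 := 3) (En := eng) (mo := mog) (C1 := cd0q1) (C2 := cd3q3) (C3 := pd1)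
    rfl (fun _ => rfl) s8_pp_113

noncomputable def cut_pp_123 : Cut := Cut.of [[⟨0, 1, 0, 67108864⟩, ⟨1, 1, 0, 67108864⟩, ⟨2, 2, 0, 16777216⟩]]

noncomputable def f_pp_123 : ℕ → ℕ → ℕ → ℕ → Bool := onCell 536870912 536870912 1073741824 536870912 697932185 42949674
    (rowB 3 eng mog cd0q1 cd3q3 pd2 1 false true true .npn 1 2 3 (qsf 536870912 536870912 1610612736 536870912 2) ndB0q1 ndB3q3 pcB2 cut_pp_123 Ext.none)

def k0_pp_123 : ∃ t, chk3 f_pp_123 t 2 1 1 = true :=
  ⟨(b (b (a (a (b (a (b (l 16265352) (l 16266288)) (b (l 16287888) (l 16293976))) (a (l 16266672) (l 16301784))) (b (b (b (l 16342952) (l 16350112)) (l 16360392)) (l 16379344))) (a (b (b (a (l 16447000) (l 16536512)) (l 16504152)) (b (l 16498616) (l 16488192))) (b (b (a (l 16576496) (b (l 16648008) (l 16639088))) (l 16606392)) (a (l 16556744) (l 16585400))))) (a (b (a (b (l 16288392) (l 16293536)) (b (l 16392408) (l 16392312))) (a (l 16364152) (l 16444504))) (b (a (b (l 16477176) (l 16461072)) (b (b (l 16537296) (l 16524232)) (l 16503432)))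 (a (l 16491568) (l 16518232))))) (a (b (a (b (l 16462536) (l 16532016)) (b (l 16515536) (l 16565008))) (b (l 16686888) (a (l 16644208) (l 16680472)))) (b (a (b (l 16543464) (l 16623704)) (b (l 16558640) (b (l 16587928) (l 2)))) (a (b (l 16642656) (l 2)) (l 2))))), by decide +kernel⟩

def k1_pp_123 : ∃ t, chk3 f_pp_123 t 3 1 1 = true :=
  ⟨(b (a (b (a (b (a (b (b (l 16680008) (l 16668264)) (l 16648560)) (b (a (l 16697920) (l 16719232)) (l 16677144))) (a (l 16601000) (l 16619480))) (b (a (b (l 16729024) (l 16710576)) (b (b (l 16787512) (l 16766464)) (l 16731904))) (b (a (l 16666016) (l 16681632)) (l 16729432)))) (b (a (b (a (l 16675736) (l 16750296)) (l 16647520)) (b (b (l 16674056) (l 16759264)) (l 16704600))) (a (a (l 16524992) (l 16572512)) (b (l 16742496) (l 2))))) (b (b (a (a (b (b (l 16809096) (l 16786000)) (l 16747608)) (b (b (l 16814968) (l 16790232)) (l 16748624))) (b (a (a (l 16794016) (b (l 16797504) (l 16771064))) (b (a (a (l 16788832) (b (l 16788568) (l 16775720))) (b (a (a (l 16783376)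 (l 6)) (l 6)) (l 315243873943))) (a (l 16695344) (l 385573968007)))) (a (l 16730928) (a (l 16710296) (l 2))))) (a (a (b (l 16692472) (l 16640952)) (l 16789608)) (a (a (l 16770560) (l 2)) (l 2)))) (a (b (b (b (l 16759432) (l 2)) (l 2)) (l 2)) (l 2)))) (a (b (a (b (a (l 16565168) (l 2)) (l 2)) (l 2)) (l 2)) (l 2))), by decide +kernel⟩

theorem s2_pp_123 : ∃ t, chk3 f_pp_123 t 1 1 1 = true := ex3_a k0_pp_123 k1_pp_123

theorem c_pp_123 : CertB 536870912 536870912 1610612736 536870912 697932185 42949674 3 eng mog cd0q1 cd3q3 pd2 false true true .npn 1 2 3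
    ndB0q1 ndB3q3 pcB2 cut_pp_123 Ext.none :=
  certB1 (fam := false) (s1 := true) (s2 := true) (a := 1) (b := 2) (c := 3) (cn := .npn) (n1 := ndB0q1) (n2 := ndB3q3) (pc := pcB2) (cut := cut_pp_123) (xt := Ext.none) (P1 := 536870912) (W1 := 536870912) (P2 := 1610612736) (W2 := 536870912) (P3 := 697932185) (W3 := 42949674) (N0 := 3) (En := eng) (mo := mog) (C1 := cd0q1) (C2 := cd3q3) (C3 := pd2)
    rfl (fun _ => rfl) s2_pp_123

noncomputable def f_pp_133 : ℕ → ℕ → ℕ → ℕ → Bool := onCell 536870912 536870912 1610612736 536870912 697932185 42949674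
    (rowB 3 eng mog cd0q1 cd3q3 pd3 0 false true true .dn 1 3 3 (qsf 536870912 536870912 1610612736 536870912 3) ndB0q1 ndB3q3 pcB3 Cut.none Ext.none)

def k0_pp_133 : ∃ t, chk3 f_pp_133 t 1 1 1 = true :=
  ⟨(a (b (l 1) (a (b (l 1) (b (l 1) (a (l 16702784) (l 1)))) (l 1))) (l 1)), by decide +kernel⟩

theorem c_pp_133 : CertB 536870912 536870912 1610612736 536870912 697932185 42949674 3 eng mog cd0q1 cd3q3 pd3 false true true .dn 1 3 3
    ndB0q1 ndB3q3 pcB3 Cut.none Ext.none :=
  certB0 (fam := false) (s1 := true) (s2 := true) (a := 1) (b := 3) (c := 3) (cn := .dn) (n1 := ndB0q1) (n2 := ndB3q3) (pc := pcB3) (cut := Cut.none) (xt := Ext.none) (P1 := 536870912) (W1 := 536870912) (P2 := 1610612736) (W2 := 536870912) (P3 := 697932185) (W3 := 42949674) (N0 := 3) (En := eng) (mo := mog) (C1 := cd0q1) (C2 := cd3q3) (C3 := pd3)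
    rfl k0_pp_133

noncomputable def f_pp_202_a : ℕ → ℕ → ℕ → ℕ → Bool := onCell 0 536870912 0 536870912 697932185 42949674
    (rowB 3 eng mog cd0q2 cd3q2a pd0 0 false true true .pp 2 0 2 (qsf 0 536870912 0 536870912 0) ndB0q2 ndB3q2a pcB0 Cut.none Ext.none)

def k0_pp_202_a : ∃ t, chk3 f_pp_202_a t 1 1 1 = true :=
  ⟨(l 3), by decide +kernel⟩

theorem c_pp_202_a : CertB 0 536870912 0 536870912 697932185 42949674 3 eng mog cd0q2 cd3q2a pd0 false true true .pp 2 0 2
    ndB0q2 ndB3q2a pcB0 Cut.none Ext.none :=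
  certB0 (fam := false) (s1 := true) (s2 := true) (a := 2) (b := 0) (c := 2) (cn := .pp) (n1 := ndB0q2) (n2 := ndB3q2a) (pc := pcB0) (cut := Cut.none) (xt := Ext.none) (P1 := 0) (W1 := 536870912) (P2 := 0) (W2 := 536870912) (P3 := 697932185) (W3 := 42949674) (N0 := 3) (En := eng) (mo := mog) (C1 := cd0q2) (C2 := cd3q2a) (C3 := pd0)
    rfl k0_pp_202_a

noncomputable def f_pp_202_b : ℕ → ℕ → ℕ → ℕ → Bool := onCell 0 536870912 1239849684 370763052 697932185 42949674
    (rowB 3 eng mog cd0q2 cd3q2b pd0 0 false true true .pp 2 0 2 (qsf 0 536870912 1239849684 370763052 0) ndB0q2 ndB3q2b pcB0 Cut.none Ext.none)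

def k0_pp_202_b : ∃ t, chk3 f_pp_202_b t 1 1 1 = true :=
  ⟨(l 3), by decide +kernel⟩

theorem c_pp_202_b : CertB 0 536870912 1239849684 370763052 697932185 42949674 3 eng mog cd0q2 cd3q2b pd0 false true true .pp 2 0 2
    ndB0q2 ndB3q2b pcB0 Cut.none Ext.none :=
  certB0 (fam := false) (s1 := true) (s2 := true) (a := 2) (b := 0) (c := 2) (cn := .pp) (n1 := ndB0q2) (n2 := ndB3q2b) (pc := pcB0) (cut := Cut.none) (xt := Ext.none) (P1 := 0) (W1 := 536870912) (P2 := 1239849684) (W2 := 370763052) (P3 := 697932185) (W3 := 42949674) (N0 := 3) (En := eng) (mo := mog) (C1 := cd0q2) (C2 := cd3q2b) (C3 := pd0)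
    rfl k0_pp_202_b

noncomputable def f_pp_203 : ℕ → ℕ → ℕ → ℕ → Bool := onCell 0 536870912 0 536870912 697932185 42949674
    (rowB 3 eng mog cd0q2 cd3q3 pd0 1 false true true .up 2 0 3 (qsf 0 536870912 1610612736 536870912 0) ndB0q2 ndB3q3 pcB0 Cut.none Ext.none)

def k0_pp_203 : ∃ t, chk3 f_pp_203 t 1 1 1 = true :=
  ⟨(l 3), by decide +kernel⟩

theorem c_pp_203 : CertB 0 536870912 1610612736 536870912 697932185 42949674 3 eng mog cd0q2 cd3q3 pd0 false true true .up 2 0 3
    ndB0q2 ndB3q3 pcB0 Cut.none Ext.none :=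
  certB1 (fam := false) (s1 := true) (s2 := true) (a := 2) (b := 0) (c := 3) (cn := .up) (n1 := ndB0q2) (n2 := ndB3q3) (pc := pcB0) (cut := Cut.none) (xt := Ext.none) (P1 := 0) (W1 := 536870912) (P2 := 1610612736) (W2 := 536870912) (P3 := 697932185) (W3 := 42949674) (N0 := 3) (En := eng) (mo := mog) (C1 := cd0q2) (C2 := cd3q3) (C3 := pd0)
    rfl (fun _ => rfl) k0_pp_203

noncomputable def cut_pp_213 : Cut := Cut.of [[⟨0, 1, 0, 67108864⟩, ⟨1, 1, 0, 67108864⟩, ⟨2, 2, 0, 16777216⟩]]

noncomputable def f_pp_213 : ℕ → ℕ → ℕ → ℕ → Bool := onCell 0 536870912 1610612736 536870912 697932185 42949674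
    (rowB 3 eng mog cd0q2 cd3q3 pd1 0 false true true .pnn 2 1 3 (qsf 0 536870912 1610612736 536870912 1) ndB0q2 ndB3q3 pcB1 cut_pp_213 Ext.none)

def k0_pp_213 : ∃ t, chk3 f_pp_213 t 1 1 1 = true :=
  ⟨(b (l 3) (a (l 3) (b (l 3) (a (l 3) (b (l 3) (a (l 3) (b (l 3) (b (l 3) (b (l 3) (l 6)))))))))), by decide +kernel⟩

theorem c_pp_213 : CertB 0 536870912 1610612736 536870912 697932185 42949674 3 eng mog cd0q2 cd3q3 pd1 false true true .pnn 2 1 3
    ndB0q2 ndB3q3 pcB1 cut_pp_213 Ext.none :=
  certB0 (fam := false) (s1 := true) (s2 := true) (a := 2) (b := 1) (c := 3) (cn := .pnn) (n1 := ndB0q2) (n2 := ndB3q3) (pc := pcB1) (cut := cut_pp_213) (xt := Ext.none) (P1 := 0) (W1 := 536870912) (P2 := 1610612736) (W2 := 536870912) (P3 := 697932185) (W3 := 42949674) (N0 := 3) (En := eng) (mo := mog) (C1 := cd0q2) (C2 := cd3q3) (C3 := pd1)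
    rfl k0_pp_213

noncomputable def f_pm_001 : ℕ → ℕ → ℕ → ℕ → Bool := onCell 0 536870912 536870912 536870912 697932185 42949674
    (rowB 3 eng mog cd0q0 cd3q1 pd0 0 false true false .up 0 0 1 (qsf 0 536870912 536870912 536870912 0) ndB0q0 ndB3q1 pcB0 Cut.none Ext.none)

def k0_pm_001 : ∃ t, chk3 f_pm_001 t 1 1 1 = true :=
  ⟨(l 4), by decide +kernel⟩

theorem c_pm_001 : CertB 0 536870912 536870912 536870912 697932185 42949674 3 eng mog cd0q0 cd3q1 pd0 false true false .up 0 0 1
    ndB0q0 ndB3q1 pcB0 Cut.none Ext.none :=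
  certB0 (fam := false) (s1 := true) (s2 := false) (a := 0) (b := 0) (c := 1) (cn := .up) (n1 := ndB0q0) (n2 := ndB3q1) (pc := pcB0) (cut := Cut.none) (xt := Ext.none) (P1 := 0) (W1 := 536870912) (P2 := 536870912) (W2 := 536870912) (P3 := 697932185) (W3 := 42949674) (N0 := 3) (En := eng) (mo := mog) (C1 := cd0q0) (C2 := cd3q1) (C3 := pd0)
    rfl k0_pm_001

noncomputable def f_pm_011 : ℕ → ℕ → ℕ → ℕ → Bool := onCell 0 536870912 536870912 536870912 697932185 42949674
    (rowB 3 eng mog cd0q0 cd3q1 pd1 0 false true false .pnn 0 1 1 (qsf 0 536870912 536870912 536870912 1) ndB0q0 ndB3q1 pcB1 Cut.none Ext.none)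

def k0_pm_011 : ∃ t, chk3 f_pm_011 t 1 1 1 = true :=
  ⟨(l 4), by decide +kernel⟩

theorem c_pm_011 : CertB 0 536870912 536870912 536870912 697932185 42949674 3 eng mog cd0q0 cd3q1 pd1 false true false .pnn 0 1 1
    ndB0q0 ndB3q1 pcB1 Cut.none Ext.none :=
  certB0 (fam := false) (s1 := true) (s2 := false) (a := 0) (b := 1) (c := 1) (cn := .pnn) (n1 := ndB0q0) (n2 := ndB3q1) (pc := pcB1) (cut := Cut.none) (xt := Ext.none) (P1 := 0) (W1 := 536870912) (P2 := 536870912) (W2 := 536870912) (P3 := 697932185) (W3 := 42949674) (N0 := 3) (En := eng) (mo := mog) (C1 := cd0q0) (C2 := cd3q1) (C3 := pd1)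
    rfl k0_pm_011

noncomputable def cut_pm_012_a : Cut := Cut.of [[⟨0, 0, 0, 67108864⟩, ⟨1, 1, 0, 67108864⟩, ⟨2, 1, 0, 67108864⟩]]

noncomputable def f_pm_012_a : ℕ → ℕ → ℕ → ℕ → Bool := onCell 0 536870912 0 536870912 697932185 42949674
    (rowB 3 eng mog cd0q0 cd3q2a pd1 0 false true false .pnp 0 1 2 (qsf 0 536870912 0 536870912 1) ndB0q0 ndB3q2a pcB1 cut_pm_012_a Ext.none)

def k0_pm_012_a : ∃ t, chk3 f_pm_012_a t 2 2 1 = true :=
  ⟨(a (a (l 2) (b (l 2) (b (l 2) (a (l 2) (a (l 2) (b (l 2) (l 16357824))))))) (a (b (a (a (l 2) (a (b (l 2) (b (l 2) (l 16301696))) (b (b (l 16303600) (l 16299880)) (b (l 16300096) (l 16304280))))) (b (a (b (l 16329256) (l 16304272)) (b (l 16313592) (l 16309192))) (a (b (l 16304056) (l 16307664)) (b (l 16308400) (l 16311232))))) (a (b (a (b (l 16306872) (l 16320504)) (b (l 16311592) (l 16324048))) (a (b (l 16338064) (l 16359408)) (b (l 16340248) (l 16360064)))) (b (a (b (l 16315232) (l 16326504)) (b (l 16317816) (l 16327920))) (b (l 16362504) (l 16359080))))) (b (a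 (b (a (b (l 16317968) (l 16313176)) (b (l 16322296) (l 16317120))) (a (b (l 16311808) (l 16313872)) (b (l 16315184) (l 16316496)))) (b (a (b (l 16327144) (l 16321584)) (b (l 16332560) (l 16326632))) (a (b (l 16319088) (l 16319664)) (b (l 16323592) (l 16323440))))) (a (b (a (l 16324136) (l 16325216)) (a (l 16348464) (l 16346920))) (b (a (l 16326872) (l 16329168)) (a (l 16346000) (l 16345784))))))), by decide +kernel⟩

def k1_pm_012_a : ∃ t, chk3 f_pm_012_a t 4 3 1 = true :=
  ⟨(b (a (l 2) (b (a (l 2) (a (b (l 16425792) (l 16457224)) (b (l 16384248) (l 16414272)))) (b (a (a (l 2) (a (l 16452944) (l 16452048))) (a (l 16450320) (l 16447336))) (a (a (a (l 2) (b (l 16484744) (l 16506520))) (b (l 16482456) (l 16503416))) (a (l 16488688) (l 16483568)))))) (a (a (b (l 2) (l 6)) (a (b (b (l 2) (l 6)) (l 6)) (a (b (b (l 2) (l 6)) (l 6)) (b (b (b (l 2) (l 16558288)) (b (l 16583328) (l 16609104))) (b (b (l 16635672) (l 16662744)) (b (l 16685896) (b (l 16692328) (b (l 16695472) (l 16697544))))))))) (b (a (b (a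 (b (a (l 16531544) (l 16529176)) (l 16554168)) (b (l 16525216) (l 16547800))) (a (b (l 16578328) (l 16603192)) (b (l 16570776) (l 16594424)))) (b (a (l 16529992) (l 16522608)) (a (l 16573720) (l 16563960)))) (b (a (b (a (l 16649784) (l 16618768)) (a (l 16654904) (l 16643552))) (b (l 16602184) (l 16622296))) (a (b (a (a (l 16676656) (l 16667704)) (l 16654688)) (b (a (l 16678368) (l 16660672)) (a (a (b (l 16686040) (l 16688072)) (l 16677896)) (b (l 16663592) (l 16686488))))) (a (b (l 16638088) (b (l 16643816) (l 16668520))) (b (l 16622296) (b (l 16627768) (l 16631328))))))))), by decide +kernel⟩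

def k2_pm_012_a : ∃ t, chk3 f_pm_012_a t 5 3 1 = true :=
  ⟨(b (a (b (a (b (a (l 16384144) (l 16383328)) (a (l 16412720) (l 16409936))) (b (l 16379832) (l 16403456))) (a (b (l 16441344) (l 16474408)) (b (l 16429928) (l 16458792)))) (b (a (b (l 16372368) (l 16392400)) (b (l 16365688) (l 16382368))) (a (b (l 16415392) (l 16439928)) (b (l 16401208) (l 16485296))))) (a (b (a (b (a (l 16514496) (l 16505456)) (a (l 16553464) (l 16542056))) (b (l 16489976) (l 16544024))) (b (a (a (l 16594384) (l 16580416)) (l 16557664)) (b (a (a (l 16607248) (l 16593120)) (l 16584104)) (a (a (l 16614200) (l 16599736)) (a (l 16586248) (b (l 16571456) (l 16573568))))))) (b (a (b (l 16466736) (b (l 16487848) (l 16544760))) (b (a (l 16450168) (l 16442344)) (a (l 16477568) (l 16468600)))) (a (b (a (l 16533696) (l 16519512)) (b (a (l 16554320) (l 16540192)) (a (l 16558008) (l 16543536)))) (b (l 16500928) (b (l 16518432) (a (l 16528784) (l 16513728)))))))), by decide +kernel⟩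

def k3_pm_012_a : ∃ t, chk3 f_pm_012_a t 3 1 1 = true :=
  ⟨(a (b (a (b (a (b (a (b (l 16338464) (l 16332176)) (l 16341136)) (a (l 16328328) (l 16332952))) (b (a (l 16346432) (l 16351376)) (a (l 16337248) (l 16341216)))) (a (b (a (l 16332032) (l 16334904)) (a (l 16346176) (l 16346632))) (b (a (l 16337488) (l 16340272)) (a (l 16347280) (l 16350064))))) (b (a (b (a (l 16356736) (l 16367080)) (a (l 16346608) (l 16356640))) (b (l 16386992) (l 16374784))) (a (b (l 16371416) (l 16358208)) (b (l 16370144) (l 16372368))))) (b (a (b (a (a (l 16370000) (l 16368344)) (a (l 16368544) (l 16370168))) (a (b (a (l 16393512) (l 16391608)) (l 16433432)) (b (l 16389800) (l 16405424)))) (a (b (l 16373256) (l 16413840)) (b (l 16380056) (l 16390416)))) (a (b (a (b (l 16433656) (l 16455576)) (b (l 16421320) (l 16437312))) (a (b (l 16476928) (b (l 16488872) (a (l 16498496) (l 16483472)))) (b (l 16452152) (b (l 16460024) (a (l 16468752) (l 16454168)))))) (b (a (b (l 16408688) (l 16418832)) (b (l 16397800) (l 16401376)))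 (a (b (l 16427272) (a (l 16460088) (b (l 16423936) (l 16424552)))) (b (l 16402536) (a (l 16472896) (l 16459368)))))))) (b (a (b (a (b (l 16414064) (l 16399400)) (l 16430352)) (a (l 16431688) (l 16404440))) (b (a (l 16451064) (l 16513224)) (a (l 16417064) (l 16428816)))) (b (a (b (a (l 16386896) (l 16390680)) (a (l 16387320) (l 16380872))) (a (b (l 16392632) (l 16372200)) (b (l 16393352) (l 16361856)))) (a (b (a (l 16425920) (l 16405528)) (b (a (l 16378352) (l 16357944)) (a (b (l 16378344) (l 16398720)) (a (l 16361568) (l 16351072))))) (b (a (l 16405288) (l 16410512)) (a (b (l 16339144) (b (l 16336872) (a (l 16339936) (l 16329872)))) (b (l 16321136) (b (l 16317720) (a (l 16319856) (l 16310144)))))))))), by decide +kernel⟩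

theorem s4_pm_012_a : ∃ t, chk3 f_pm_012_a t 2 3 1 = true := ex3_a k1_pm_012_a k2_pm_012_a

theorem s5_pm_012_a : ∃ t, chk3 f_pm_012_a t 2 1 1 = true := ex3_b k0_pm_012_a s4_pm_012_a

theorem s6_pm_012_a : ∃ t, chk3 f_pm_012_a t 1 1 1 = true := ex3_a s5_pm_012_a k3_pm_012_a

theorem c_pm_012_a : CertB 0 536870912 0 536870912 697932185 42949674 3 eng mog cd0q0 cd3q2a pd1 false true false .pnp 0 1 2
    ndB0q0 ndB3q2a pcB1 cut_pm_012_a Ext.none :=
  certB0 (fam := false) (s1 := true) (s2 := false) (a := 0) (b := 1) (c := 2) (cn := .pnp) (n1 := ndB0q0) (n2 := ndB3q2a) (pc := pcB1) (cut := cut_pm_012_a) (xt := Ext.none) (P1 := 0) (W1 := 536870912) (P2 := 0) (W2 := 536870912) (P3 := 697932185) (W3 := 42949674) (N0 := 3) (En := eng) (mo := mog) (C1 := cd0q0) (C2 := cd3q2a) (C3 := pd1)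
    rfl s6_pm_012_a

noncomputable def cut_pm_012_b : Cut := Cut.of [[⟨0, 0, 0, 67108864⟩, ⟨1, 1, 0, 67108864⟩, ⟨2, 1, 0, 67108864⟩]]

noncomputable def f_pm_012_b : ℕ → ℕ → ℕ → ℕ → Bool := onCell 0 536870912 1239849684 370763052 697932185 42949674
    (rowB 3 eng mog cd0q0 cd3q2b pd1 0 false true false .pnp 0 1 2 (qsf 0 536870912 1239849684 370763052 1) ndB0q0 ndB3q2b pcB1 cut_pm_012_b Ext.none)

def k0_pm_012_b : ∃ t, chk3 f_pm_012_b t 2 1 1 = true :=
  ⟨(a (l 2) (b (b (b (a (a (a (l 2) (b (b (a (l 2) (l 16288104)) (l 2)) (l 2))) (a (b (b (a (b (l 16300968) (l 16282576)) (l 16295224)) (a (l 2) (b (l 16268064) (l 16249672)))) (l 2)) (b (b (l 16299872) (a (l 16262968) (l 16266784))) (b (a (l 16226648) (l 16231384)) (a (l 2) (l 16195120)))))) (a (a (b (b (l 16305264) (l 16272112)) (b (l 16238088) (a (l 16221496) (l 16205856)))) (b (b (l 16310592) (l 16279224)) (b (l 16247016) (l 16213984)))) (a (b (b (l 16316416) (l 16286784)) (c (l 16256208) (l 16225184))) (b (b (l 16322776) (l 16294840)) (l 16272424)))))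 (a (l 2) (b (b (a (a (a (l 2) (l 16170616)) (a (l 16176944) (l 16183352))) (a (l 16193096) (l 16206384))) (a (a (l 2) (a (l 16141848) (l 16149176))) (a (l 16160304) (l 16175400)))) (a (l 2) (a (b (a (l 16122568) (l 16130968)) (l 16134432)) (a (l 16144032) (l 16132048))))))) (a (l 2) (b (a (l 2) (b (a (l 2) (b (l 16078120) (l 2))) (l 2))) (l 2)))) (l 2))), by decide +kernel⟩

def k1_pm_012_b : ∃ t, chk3 f_pm_012_b t 3 1 1 = true :=
  ⟨(a (b (a (b (a (b (a (b (l 16337512) (l 16262432)) (b (l 16324080) (l 16273224))) (a (b (l 16205384) (l 16145512)) (b (l 16219544) (l 16163144)))) (b (a (b (l 16331216) (l 16283552)) (b (l 16337936) (l 16293416))) (a (l 16206976) (l 16221760)))) (b (a (b (a (b (l 16098824) (l 16066848)) (l 16104136)) (a (b (l 16034352) (l 2)) (l 16064160))) (a (b (l 16124752) (l 16067304)) (b (l 16144752) (l 16090776)))) (a (l 2) (a (l 15979632) (l 16007456))))) (b (a (b (b (a (l 16344744) (l 16354272)) (l 16308344)) (a (l 16236336) (l 16251360))) (b (b (l 16375296) (a (l 16326024)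 (l 16341936))) (a (l 16266976) (l 16283400)))) (a (b (b (l 16174256) (l 16125280)) (a (l 16034912) (l 16062096))) (b (b (l 16214472) (l 16171360)) (l 16102192))))) (a (l 2) (b (a (b (a (l 15924328) (l 15957024)) (l 2)) (b (a (l 15989096) (l 16020344)) (a (l 2) (l 15919544)))) (l 2)))) (b (a (b (b (a (l 16388152) (l 16419320)) (a (b (l 16329792) (l 16291248)) (l 16350624))) (b (a (l 16235592) (b (l 16294600) (l 16258776))) (a (l 16153880) (l 16202656)))) (b (a (b (l 16448008) (l 16390584)) (b (l 16475168) (l 16428584))) (b (a (b (l 16340032) (l 16303720)) (l 16370088)) (a (l 16249320) (b (l 16315936) (l 16279744)))))) (a (b (a (b (l 16065584) (l 16034504)) (b (l 16123504) (l 16039096))) (a (l 2) (b (c (l 15984496) (l 15913720)) (l 2)))) (b (a (b (l 16178704) (l 16103984)) (b (a (l 16218320) (l 16243824)) (c (l 16197808) (l 16134544)))) (a (b (c (l 16058944) (l 15989000)) (c (l 16040440) (l 15901504))) (a (b (l 16078392) (l 16085784)) (b (l 16113568) (c (l 16080416) (l 16004608))))))))), by decide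 +kernel⟩

theorem s2_pm_012_b : ∃ t, chk3 f_pm_012_b t 1 1 1 = true := ex3_a k0_pm_012_b k1_pm_012_b

theorem c_pm_012_b : CertB 0 536870912 1239849684 370763052 697932185 42949674 3 eng mog cd0q0 cd3q2b pd1 false true false .pnp 0 1 2
    ndB0q0 ndB3q2b pcB1 cut_pm_012_b Ext.none :=
  certB0 (fam := false) (s1 := true) (s2 := false) (a := 0) (b := 1) (c := 2) (cn := .pnp) (n1 := ndB0q0) (n2 := ndB3q2b) (pc := pcB1) (cut := cut_pm_012_b) (xt := Ext.none) (P1 := 0) (W1 := 536870912) (P2 := 1239849684) (W2 := 370763052) (P3 := 697932185) (W3 := 42949674) (N0 := 3) (En := eng) (mo := mog) (C1 := cd0q0) (C2 := cd3q2b) (C3 := pd1)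
    rfl s2_pm_012_b

noncomputable def cut_pm_022_a : Cut := Cut.of [[⟨0, 0, 0, 67108864⟩, ⟨1, 1, 0, 67108864⟩, ⟨2, 1, 0, 67108864⟩]]

noncomputable def f_pm_022_a : ℕ → ℕ → ℕ → ℕ → Bool := onCell 1073741824 536870912 0 536870912 697932185 42949674
    (rowB 3 eng mog cd0q0 cd3q2a pd2 2 false true false .pp 0 2 2 (qsf 0 536870912 0 536870912 2) ndB0q0 ndB3q2a pcB2 cut_pm_022_a Ext.none)

def k0_pm_022_a : ∃ t, chk3 f_pm_022_a t 4 2 1 = true :=
  ⟨(a (b (a (b (a (b (c (l 16321560) (l 16301864)) (a (l 16303768) (l 16311920))) (b (l 16326432) (l 16323648))) (a (b (a (l 16303120) (l 16311840)) (c (l 16319736) (l 16302072))) (b (l 16324416) (l 16328936)))) (b (a (l 16360632) (l 16353744)) (a (b (l 16340568) (l 16346224)) (l 16359776)))) (a (b (a (b (a (l 16313528) (l 16323368)) (l 16330272)) (b (l 16337672) (l 16350592))) (a (b (l 16346544) (l 16367576)) (b (l 16368016) (l 16390240)))) (b (a (l 16363216) (l 16381640)) (a (b (l 16388712) (l 16412032)) (b (l 16408784) (l 16433120)))))) (b (a (b (a (l 16367576)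 (l 16381232)) (a (l 16375672) (l 16391312))) (b (a (l 16394720) (l 16407936)) (a (l 16406680) (l 16421704)))) (a (a (b (l 16399624) (l 16482880)) (b (l 16417160) (l 16502296))) (b (a (l 16434392) (l 16472176)) (b (a (l 16465760) (l 16483920)) (a (l 16492896) (l 16511960))))))), by decide +kernel⟩

def k1_pm_022_a : ∃ t, chk3 f_pm_022_a t 4 3 1 = true :=
  ⟨(b (a (a (b (a (b (l 16393784) (l 16425568)) (b (l 16417584) (l 16450560))) (b (a (l 16463232) (l 16489200)) (a (a (l 16500344) (l 16514096)) (a (l 16527504) (l 16540608))))) (b (a (b (l 16440488) (l 16474368)) (b (l 16462504) (l 16497304))) (b (a (l 16513912) (l 16558736)) (a (a (l 16553392) (l 16565960)) (a (l 16599320) (l 16590600)))))) (b (b (a (a (l 16483808) (l 16504600)) (a (l 16525080) (l 277595349511))) (a (a (l 16519496) (l 16541272)) (a (l 181495532487) (l 1)))) (a (a (b (l 16560960) (a (l 16602760) (l 176663784215))) (b (a (l 16578128) (l 16583608)) (a (l 484290762183) (l 1)))) (a (b (l 532072231799) (l 1)) (l 1))))) (a (b (a (b (a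 (a (l 16582136) (l 16585832)) (a (l 16599632) (l 16613144))) (l 6)) (b (b (a (l 16618992) (l 16623680)) (a (a (l 16619384) (l 16632656)) (a (l 16645816) (l 372621709607)))) (a (l 6) (a (l 6) (a (l 6) (l 1)))))) (a (l 6) (a (l 6) (l 1)))) (b (a (b (a (b (l 393022769415) (l 656089542215)) (l 1)) (l 1)) (l 1)) (l 1)))), by decide +kernel⟩

def k2_pm_022_a : ∃ t, chk3 f_pm_022_a t 5 1 1 = true :=
  ⟨(b (a (b (b (a (a (l 16420856) (l 16433392)) (l 1)) (a (a (l 16436312) (l 16450400)) (l 1))) (a (b (a (l 16446520) (l 151430720599)) (a (b (l 16501448) (l 507912830183)) (l 1))) (l 1))) (l 1)) (b (l 1) (l 1))), by decide +kernel⟩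

def k3_pm_022_a : ∃ t, chk3 f_pm_022_a t 3 1 1 = true :=
  ⟨(l 1), by decide +kernel⟩

theorem s4_pm_022_a : ∃ t, chk3 f_pm_022_a t 4 1 1 = true := ex3_b k0_pm_022_a k1_pm_022_a

theorem s5_pm_022_a : ∃ t, chk3 f_pm_022_a t 2 1 1 = true := ex3_a s4_pm_022_a k2_pm_022_a

theorem s6_pm_022_a : ∃ t, chk3 f_pm_022_a t 1 1 1 = true := ex3_a s5_pm_022_a k3_pm_022_a

theorem c_pm_022_a : CertB 0 536870912 0 536870912 697932185 42949674 3 eng mog cd0q0 cd3q2a pd2 false true false .pp 0 2 2
    ndB0q0 ndB3q2a pcB2 cut_pm_022_a Ext.none :=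
  certB2 (fam := false) (s1 := true) (s2 := false) (a := 0) (b := 2) (c := 2) (cn := .pp) (n1 := ndB0q0) (n2 := ndB3q2a) (pc := pcB2) (cut := cut_pm_022_a) (xt := Ext.none) (P1 := 0) (W1 := 536870912) (P2 := 0) (W2 := 536870912) (P3 := 697932185) (W3 := 42949674) (N0 := 3) (En := eng) (mo := mog) (C1 := cd0q0) (C2 := cd3q2a) (C3 := pd2)
    rfl (fun _ => rfl) s6_pm_022_a

noncomputable def cut_pm_022_b : Cut := Cut.of [[⟨0, 0, 0, 67108864⟩, ⟨1, 1, 0, 67108864⟩, ⟨2, 1, 0, 67108864⟩]]

noncomputable def f_pm_022_b : ℕ → ℕ → ℕ → ℕ → Bool := onCell 1073741824 536870912 1239849684 370763052 697932185 42949674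
    (rowB 3 eng mog cd0q0 cd3q2b pd2 2 false true false .pp 0 2 2 (qsf 0 536870912 1239849684 370763052 2) ndB0q0 ndB3q2b pcB2 cut_pm_022_b Ext.none)

def k0_pm_022_b : ∃ t, chk3 f_pm_022_b t 4 2 1 = true :=
  ⟨(b (a (b (a (b (a (a (b (l 16316304) (l 16285080)) (b (l 16302656) (l 16271528))) (a (l 16336032) (l 16300920))) (a (a (b (l 16234008) (l 16205064)) (c (l 16239640) (l 16214168))) (a (l 16234160) (l 16241104)))) (b (a (a (l 16307608) (l 16314160)) (l 16344856)) (a (l 16251120) (l 16263872)))) (a (a (b (a (b (l 16177680) (l 16151960)) (b (l 16184984) (l 16158904))) (c (a (l 16177512) (l 16141032)) (l 16144224))) (b (a (l 16178872) (l 16185744)) (a (l 16129592) (l 16136040)))) (b (a (l 16195824) (l 16208472)) (a (l 16145432) (l 16157624))))) (b (a (b (a (l 16336512) (l 16349160)) (a (l 16276320) (l 16288632))) (b (a (l 16361640) (l 16373928)) (a (l 16300968) (l 16313208)))) (a (b (l 16289536) (l 16217264)) (b (l 16250496) (l 16198344))))) (a (b (a (b (a (b (c (l 16109312) (l 16069584)) (l 16071048))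 (c (l 16109480) (l 16071360))) (a (b (l 16054616) (l 16040920)) (l 16076896))) (b (a (l 16101168) (l 16112360)) (a (l 16064832) (l 16074152)))) (a (b (l 16026480) (a (l 16004000) (l 16008712))) (a (l 16129936) (l 16032080)))) (b (a (b (l 16212800) (l 16151936)) (b (l 16150792) (l 16109184))) (a (b (l 16057496) (l 16030880)) (b (l 16075560) (l 16046592)))))), by decide +kernel⟩

def k1_pm_022_b : ∃ t, chk3 f_pm_022_b t 5 2 1 = true :=
  ⟨(b (a (b (a (a (b (l 16385992) (l 16325168)) (b (l 16397712) (l 16336840))) (a (b (a (l 16406216) (l 16411752)) (l 16348152)) (b (l 92374812231) (l 16361704)))) (a (b (l 16274056) (l 16221128)) (a (b (l 16291016) (l 16237736)) (l 16340704)))) (b (a (b (l 1) (l 156262494071)) (l 1)) (a (b (l 16366040) (l 16271560)) (a (l 16436528) (l 355441342487))))) (a (a (b (b (l 16172488) (l 16129464)) (b (l 16094096) (l 16063064))) (b (a (l 16166120) (l 16179824)) (a (l 16091376) (l 16104384)))) (b (a (b (l 16222616) (l 16178576)) (l 16281752)) (a (l 16228736) (l 16142472))))),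 by decide +kernel⟩

def k2_pm_022_b : ∃ t, chk3 f_pm_022_b t 2 3 1 = true :=
  ⟨(a (b (a (b (a (b (a (l 15990352) (l 15992920)) (a (l 15981608) (l 15982304))) (b (l 16082448) (l 15984936))) (a (b (a (l 15976704) (l 15975712)) (a (l 15974840) (l 15972280))) (b (l 16080680) (l 15970664)))) (b (a (b (l 16008936) (l 15991552)) (b (l 16022120) (l 16002024))) (a (b (l 15979352) (l 15971544)) (b (l 15986368) (l 15975312))))) (a (b (a (b (l 15974256) (c (l 16012944) (l 15946408))) (b (l 15968032) (l 15968000))) (a (a (b (l 16037240) (a (l 16015256) (l 16007896))) (b (l 15984384) (l 15997840))) (b (l 15972320) (l 16023104)))) (b (a (b (l 15966832) (l 15964664)) (b (l 15968696) (l 15965912))) (a (b (l 15965408) (l 15967560)) (b (l 15963816) (l 15963856)))))) (b (a (a (b (l 16171536) (l 15988872)) (b (a (l 16034808) (l 16046288)) (a (l 15996160) (l 16006136)))) (b (a (l 16064064) (l 16080744)) (a (l 16022328) (l 16036088)))) (a (a (b (l 15969528) (b (l 15965096) (l 15964808))) (b (l 15977952) (l 15969936)))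 (b (a (l 15998720) (l 16010000)) (a (l 15991864) (l 16001736)))))), by decide +kernel⟩

def k3_pm_022_b : ∃ t, chk3 f_pm_022_b t 3 1 1 = true :=
  ⟨(a (b (b (l 1) (a (a (b (l 117070674007) (l 16150928)) (b (l 505764947927) (l 16138848))) (a (b (l 1) (l 524555132775)) (l 1)))) (a (b (b (a (l 16087784) (l 16082000)) (a (l 16039504) (l 16031120))) (a (b (l 16010448) (l 16001504)) (b (l 15997968) (l 15986776)))) (b (a (b (l 258804007479) (l 16019080)) (b (l 309269856823) (l 16005856))) (a (l 16169008) (b (l 15970864) (l 15936968)))))) (b (l 1) (a (b (l 4) (a (b (l 15961440) (l 15937848)) (l 4))) (l 4)))), by decide +kernel⟩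

theorem s4_pm_022_b : ∃ t, chk3 f_pm_022_b t 2 2 1 = true := ex3_a k0_pm_022_b k1_pm_022_b

theorem s5_pm_022_b : ∃ t, chk3 f_pm_022_b t 2 1 1 = true := ex3_b s4_pm_022_b k2_pm_022_b

theorem s6_pm_022_b : ∃ t, chk3 f_pm_022_b t 1 1 1 = true := ex3_a s5_pm_022_b k3_pm_022_b

theorem c_pm_022_b : CertB 0 536870912 1239849684 370763052 697932185 42949674 3 eng mog cd0q0 cd3q2b pd2 false true false .pp 0 2 2
    ndB0q0 ndB3q2b pcB2 cut_pm_022_b Ext.none :=
  certB2 (fam := false) (s1 := true) (s2 := false) (a := 0) (b := 2) (c := 2) (cn := .pp) (n1 := ndB0q0) (n2 := ndB3q2b) (pc := pcB2) (cut := cut_pm_022_b) (xt := Ext.none) (P1 := 0) (W1 := 536870912) (P2 := 1239849684) (W2 := 370763052) (P3 := 697932185) (W3 := 42949674) (N0 := 3) (En := eng) (mo := mog) (C1 := cd0q0) (C2 := cd3q2b) (C3 := pd2)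
    rfl (fun _ => rfl) s6_pm_022_b

noncomputable def f_pm_023 : ℕ → ℕ → ℕ → ℕ → Bool := onCell 0 536870912 1073741824 536870912 697932185 42949674
    (rowB 3 eng mog cd0q0 cd3q3 pd2 1 false true false .up 0 2 3 (qsf 0 536870912 1610612736 536870912 2) ndB0q0 ndB3q3 pcB2 Cut.none Ext.none)

def k0_pm_023 : ∃ t, chk3 f_pm_023 t 1 1 1 = true :=
  ⟨(b (a (b (l 1) (a (l 1) (b (l 1) (a (l 1) (l 368862784503))))) (a (b (a (l 1) (b (l 1) (a (l 1) (l 224444073543)))) (a (b (b (l 1) (l 328597276471)) (l 218002100007)) (b (b (l 15969480) (l 15977704)) (l 16021976)))) (b (a (b (a (l 1) (l 185252631367)) (a (l 15973032) (l 15983448))) (b (a (b (l 117070074711) (l 16004240)) (b (l 105258967335) (l 16030912))) (a (l 16002160) (l 16028936)))) (b (a (b (l 15979984) (l 15989704)) (b (l 16017248) (l 16027048))) (a (l 16041440) (l 16084824)))))) (a (b (a (b (l 1) (a (l 1) (l 226055005447))) (b (a (l 321081221207) (l 16257192)) (a (l 238402819479) (l 15980320)))) (a (b (b (l 243771589831) (l 393222803863)) (l 4))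 (b (a (l 15888480) (l 15899424)) (a (l 15924792) (l 15968432))))) (b (a (b (a (l 16034344) (l 16073104)) (a (l 16041824) (l 16102176))) (b (a (l 16100104) (l 16172512)) (a (l 16184552) (l 16315072)))) (a (b (a (l 15997968) (l 16210480)) (a (l 16198344) (l 16364776))) (b (a (l 16348672) (l 16456864)) (l 16523136)))))), by decide +kernel⟩

theorem c_pm_023 : CertB 0 536870912 1610612736 536870912 697932185 42949674 3 eng mog cd0q0 cd3q3 pd2 false true false .up 0 2 3
    ndB0q0 ndB3q3 pcB2 Cut.none Ext.none :=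
  certB1 (fam := false) (s1 := true) (s2 := false) (a := 0) (b := 2) (c := 3) (cn := .up) (n1 := ndB0q0) (n2 := ndB3q3) (pc := pcB2) (cut := Cut.none) (xt := Ext.none) (P1 := 0) (W1 := 536870912) (P2 := 1610612736) (W2 := 536870912) (P3 := 697932185) (W3 := 42949674) (N0 := 3) (En := eng) (mo := mog) (C1 := cd0q0) (C2 := cd3q3) (C3 := pd2)
    rfl (fun _ => rfl) k0_pm_023

noncomputable def f_pm_033 : ℕ → ℕ → ℕ → ℕ → Bool := onCell 1610612736 536870912 1610612736 536870912 697932185 42949674
    (rowB 3 eng mog cd0q0 cd3q3 pd3 2 false true false .pnn 0 3 3 (qsf 0 536870912 1610612736 536870912 3) ndB0q0 ndB3q3 pcB3 Cut.none Ext.none)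

def k0_pm_033 : ∃ t, chk3 f_pm_033 t 1 1 1 = true :=
  ⟨(a (b (a (b (l 4) (a (b (l 4) (l 16062376)) (l 4))) (l 4)) (a (b (a (b (a (l 16258984) (l 16226544)) (a (l 16402400) (l 16381272))) (b (l 4) (a (l 16363432) (l 4)))) (a (b (l 16503088) (l 16579888)) (a (l 16504568) (l 16496568)))) (b (l 4) (a (b (l 4) (l 16507352)) (l 4))))) (l 4)), by decide +kernel⟩

theorem c_pm_033 : CertB 0 536870912 1610612736 536870912 697932185 42949674 3 eng mog cd0q0 cd3q3 pd3 false true false .pnn 0 3 3
    ndB0q0 ndB3q3 pcB3 Cut.none Ext.none :=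
  certB2 (fam := false) (s1 := true) (s2 := false) (a := 0) (b := 3) (c := 3) (cn := .pnn) (n1 := ndB0q0) (n2 := ndB3q3) (pc := pcB3) (cut := Cut.none) (xt := Ext.none) (P1 := 0) (W1 := 536870912) (P2 := 1610612736) (W2 := 536870912) (P3 := 697932185) (W3 := 42949674) (N0 := 3) (En := eng) (mo := mog) (C1 := cd0q0) (C2 := cd3q3) (C3 := pd3)
    rfl (fun _ => rfl) k0_pm_033

noncomputable def f_pm_101 : ℕ → ℕ → ℕ → ℕ → Bool := onCell 0 536870912 536870912 536870912 697932185 42949674
    (rowB 3 eng mog cd0q1 cd3q1 pd0 2 false true false .npn 1 0 1 (qsf 536870912 536870912 536870912 536870912 0) ndB0q1 ndB3q1 pcB0 Cut.none Ext.none)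

def k0_pm_101 : ∃ t, chk3 f_pm_101 t 1 1 1 = true :=
  ⟨(a (b (l 4) (a (b (l 4) (a (b (a (b (l 4) (a (b (l 4) (a (l 15882360) (l 15884712))) (l 4))) (l 4)) (b (a (a (b (l 15876904) (l 16011760)) (b (a (l 15867400) (l 15864360)) (l 15864856))) (a (b (l 15866048) (l 15991168)) (b (l 4) (l 15834016)))) (a (a (b (a (l 15906992) (l 15894656)) (a (l 15930256) (l 15911712))) (b (l 15895368) (a (l 15895680) (l 15878048)))) (a (b (l 15845152) (l 15850928)) (b (l 15815328) (l 15814808)))))) (b (l 4) (b (l 4) (a (a (b (l 15795616) (l 15778728)) (b (l 15788104) (l 15749984))) (a (b (l 4) (l 15734856)) (l 4))))))) (l 4))) (l 4)), by decide +kernel⟩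

theorem c_pm_101 : CertB 536870912 536870912 536870912 536870912 697932185 42949674 3 eng mog cd0q1 cd3q1 pd0 false true false .npn 1 0 1
    ndB0q1 ndB3q1 pcB0 Cut.none Ext.none :=
  certB2 (fam := false) (s1 := true) (s2 := false) (a := 1) (b := 0) (c := 1) (cn := .npn) (n1 := ndB0q1) (n2 := ndB3q1) (pc := pcB0) (cut := Cut.none) (xt := Ext.none) (P1 := 536870912) (W1 := 536870912) (P2 := 536870912) (W2 := 536870912) (P3 := 697932185) (W3 := 42949674) (N0 := 3) (En := eng) (mo := mog) (C1 := cd0q1) (C2 := cd3q1) (C3 := pd0)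
    rfl (fun _ => rfl) k0_pm_101

noncomputable def cut_pm_102_a : Cut := Cut.of [[⟨0, 1, 0, 67108864⟩, ⟨1, 0, 0, 67108864⟩, ⟨2, 1, 0, 67108864⟩], [⟨0, 0, 1, 20971520⟩, ⟨1, 1, 2, 20971520⟩, ⟨2, 1, 0, 33554432⟩]]

noncomputable def xt_pm_102_a : Ext := extD2 3 ⟨7, 3, 3, 10, 49, 25, 3, 4, 67, 200, 3, 16⟩ eng cd0q1 cd3q2a pd0 false true false .npp 1 0 2 rfl ndB0q1 ndB3q2a pcB0

noncomputable def f_pm_102_a : ℕ → ℕ → ℕ → ℕ → Bool := onCell 536870912 536870912 0 536870912 697932185 42949674
    (rowB 3 eng mog cd0q1 cd3q2a pd0 0 false true false .npp 1 0 2 (qsf 536870912 536870912 0 536870912 0) ndB0q1 ndB3q2a pcB0 cut_pm_102_a xt_pm_102_a)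

def k0_pm_102_a : ∃ t, chk3 f_pm_102_a t 2 2 1 = true :=
  ⟨(a (a (l 2) (b (l 2) (b (l 2) (l 16435632)))) (a (b (a (l 16595600) (l 16619064)) (a (l 16514800) (b (l 16524256) (l 16446856)))) (b (a (l 16670192) (b (l 16680304) (l 16644160))) (a (b (l 16552056) (l 16508616)) (l 16577992))))), by decide +kernel⟩

def k1_pm_102_a : ∃ t, chk3 f_pm_102_a t 4 6 1 = true :=
  ⟨(a (l 2) (b (l 16406008) (a (l 16365560) (l 16382528)))), by decide +kernel⟩

def k2_pm_102_a : ∃ t, chk3 f_pm_102_a t 8 7 1 = true :=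
  ⟨(b (a (l 2) (b (l 16349312) (b (l 16344328) (l 16342368)))) (b (a (a (l 2) (b (l 16338472) (l 16335968))) (b (l 16340576) (a (l 16337472) (l 16343208)))) (a (a (a (b (l 2) (c (l 140448968738832431) (c (l 139903267350429743) (l 16321224)))) (b (l 16334656) (c (l 140925950624890927) (l 139757375889915951)))) (b (c (l 140793871792635951) (l 16326416)) (c (c (l 140555552655228975) (l 139895983100493871)) (l 584372239341367640777263)))) (a (a (b (c (l 16343408) (l 16327336)) (c (b (l 139955081865740335) (l 139905397685452847)) (l 585129996950242715640367))) (b (l 585105497863599834720815) (c (l 139963122053300271) (l 585116450156098695111215)))) (b (c (l 140121245579722799) (l 16334080)) (c (b (l 140070187013439535) (a (l 140002979362488367) (l 140077608728756271))) (b (l 585170925826177838901807) (l 585010957904329159483951)))))))), by decide +kernel⟩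

def k3_pm_102_a : ∃ t, chk3 f_pm_102_a t 9 7 1 = true :=
  ⟨(a (b (b (l 16357632) (b (l 16356608) (l 16357176))) (b (b (l 16421720) (a (l 16353864) (b (l 16369184) (l 16371312)))) (a (b (c (l 140259577915605039) (l 140025519331426351)) (c (b (l 140231746536226863) (a (l 140166875346911279) (l 140542289869815855))) (b (l 139948484800561199) (a (l 139851109296472111) (l 139953020297510959))))) (c (b (b (l 140458520839340079) (l 140455565909983279)) (b (a (l 140393787096399919) (l 140523460776575023)) (a (c (l 140467110803390511) (l 140318333104619567)) (c (l 140791191886610479) (l 140456459281072175))))) (b (l 140217452864225327) (b (l 140163989117730863) (a (l 140069431111598127) (l 140201578689609775)))))))) (b (b (l 16383176) (b (l 16387904) (l 16392976))) (a (b (b (l 16387464) (b (l 16391440) (l 16415880))) (b (c (b (l 140714226068455471) (l 140731131071496239)) (l 140647499397709871)) (c (b (a (l 140672101036621871) (l 140841013546876975)) (b (a (l 140689212196454447) (l 141048202781163567))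 (a (c (l 140965808116580399) (l 140618431123652655)) (c (a (l 140926431886819375) (l 141027655697956911)) (l 140799919299641391))))) (c (b (l 140523666930171951) (a (l 140441066113253423) (l 140611765327642671))) (b (l 140357503198822447) (a (l 140258066108743727) (l 140422992884023343))))))) (b (b (l 16414888) (b (l 16421000) (l 141085517426212911))) (b (c (b (l 141046347372871727) (l 141086754441412655)) (b (l 140785282007351343) (l 140785419456806959))) (c (b (a (l 141031778855649327) (l 141245908791738415)) (a (c (b (l 141156573460889647) (a (b (l 141126680484544559) (l 141143722920165423)) (a (l 141219864116068399) (l 141278413122961455)))) (b (l 140980720276799535) (a (l 140950758582878255) (l 141058785623195695)))) (b (c (l 141388707903995951) (l 141200966246776879)) (c (c (b (l 141469178432602159) (a (l 141429183689818159) (b (l 141553084933062703) (l 141746186666197039)))) (a (l 141320813047988271) (l 141626546027200559))) (a (l 141172928698335279) (b (l 141284804029349935) (l 141302533660098607)))))))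 (b (a (l 140697321080455215) (l 140892690592563247)) (a (b (l 140702956086771759) (c (l 140809540024483887) (l 140608054473539631))) (b (l 140908496083370031) (c (a (l 140970618511097903) (l 141085380061069359)) (l 140816411968241711))))))))))), by decide +kernel⟩

def k4_pm_102_a : ∃ t, chk3 f_pm_102_a t 5 6 1 = true :=
  ⟨(a (b (a (l 16414248) (l 16446912)) (a (l 16437048) (l 16463496))) (b (a (l 16507936) (b (l 16566960) (l 16576104))) (a (l 16529368) (b (l 16588336) (a (l 16593296) (l 16618104)))))), by decide +kernel⟩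

def k5_pm_102_a : ∃ t, chk3 f_pm_102_a t 10 14 1 = true :=
  ⟨(a (b (l 16428656) (a (l 16431360) (l 16465808))) (b (l 16492616) (l 16527680))), by decide +kernel⟩

def k6_pm_102_a : ∃ t, chk3 f_pm_102_a t 10 30 1 = true :=
  ⟨(a (a (b (l 16449272) (a (l 16493712) (l 16494104))) (b (l 16490440) (a (l 16496448) (l 141964164851466287)))) (b (a (b (l 16532864) (l 16545736)) (a (l 16580560) (l 16583448))) (b (a (l 16556256) (a (l 16597736) (l 16613760))) (a (a (l 16551752) (l 142282267425833007)) (a (l 142466229507915823) (l 16608320)))))), by decide +kernel⟩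

def k7_pm_102_a : ∃ t, chk3 f_pm_102_a t 80 31 1 = true :=
  ⟨(b (c (b (l 141350362405568559) (l 141411316601700399)) (l 141248932381769775)) (b (c (a (l 141422792763473967) (l 141545938093211695)) (a (l 141053150603886639) (l 141159253499609135))) (a (c (b (c (l 141580504005525551) (l 141382660582277167)) (c (b (l 141798138598703151) (c (a (l 141662074047299631) (a (l 141714919336427567) (l 141750516033175599))) (a (l 141557345538981935) (a (l 141608678999228463) (l 141643176184086575))))) (a (l 141388433023418415) (a (l 141437292581847087) (l 141469796901421103))))) (b (l 141077271152967727) (c (a (l 141175540033339439) (l 141417295165472815)) (b (l 140983469048463407) (l 140991234353659951))))) (b (c (b (l 141600570093256751) (l 141624140880511023)) (l 141189421363773487)) (c (b (a (l 141615069909090351) (c (l 141786799922184239) (l 141567859615694895))) (a (b (c (l 141742682009321519) (l 141523672983552047)) (c (a (l 141739452193849391) (b (l 141769757489610799) (c (a (l 141823908450861103)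 (l 141835865642500143)) (l 141718492747726895)))) (a (l 141518519022501935) (l 141728250872102959)))) (b (c (l 141799650468216879) (l 141576518273040431)) (c (c (b (l 141858611794182191) (l 141860604659810351)) (l 141747835970830383)) (l 141578442419765295))))) (b (a (l 141178769845895215) (l 141232027452440623)) (a (c (b (l 141300815667085359) (l 141307000422432815)) (l 141075209572417583)) (c (l 141349331629244463) (l 141117472060375087))))))))), by decide +kernel⟩

def k8_pm_102_a : ∃ t, chk3 f_pm_102_a t 81 31 1 = true :=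
  ⟨(b (b (l 141414890000302127) (b (l 141454197555707951) (l 141483678221729839))) (b (b (a (l 141456602745536559) (l 141571639175610415)) (a (c (l 141695265551007791) (l 141277244870410287)) (c (l 141803704909725743) (l 141370428502327343)))) (b (a (c (b (l 141723990300983343) (l 141736703408619567)) (b (l 141288858468106287) (l 141291263652724783))) (c (l 141818548323352623) (l 141366786374090799))) (c (a (a (b (l 141724127743115311) (b (l 141908089784483887) (c (c (a (l 141889879163437103) (l 141910357572190255)) (l 141787074801057839)) (l 141615825823760431)))) (b (l 141764259926753327) (b (l 142037969604657199) (c (c (b (l 141940662868164655) (c (l 14) (l 141913930985521199))) (l 141917366938173487)) (l 141834353768628271))))) (b (c (l 141940181829189679) (l 141711552074563631)) (c (c (b (l 142002304252313647) (l 14)) (b (l 141887267820257327) (a (b (l 141867957643477039) (l 141959148389744687)) (a (l 141900049646616623) (l 141921421408747567))))) (b (l 141712926465785903) (a (c (l 141752096578011183)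 (l 141634723683729455)) (c (l 141793053395501103) (l 141674374830899247))))))) (a (b (l 141289408228868143) (c (b (l 141403207710998575) (l 141402039480762415)) (l 141167018814783535))) (b (l 141361288818327599) (c (a (l 141457633549762607) (l 141495497990193199)) (l 141235738307592239)))))))), by decide +kernel⟩

def k9_pm_102_a : ∃ t, chk3 f_pm_102_a t 41 62 1 = true :=
  ⟨(b (a (l 141639052984664111) (l 141858405604491311)) (a (b (l 141679597490700335) (l 141699182549844015)) (l 142067450266894383))), by decide +kernel⟩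

def k10_pm_102_a : ∃ t, chk3 f_pm_102_a t 41 126 1 = true :=
  ⟨(a (b (l 141891047335510063) (c (l 141940319260688431) (l 141490000419717167))) (b (l 141899706032717871) (a (l 141854832208068655) (c (l 142189908456505391) (l 141710383832121391))))), by decide +kernel⟩

def k11_pm_102_a : ∃ t, chk3 f_pm_102_a t 41 254 1 = true :=
  ⟨(a (c (a (l 141906234395705391) (l 141998455954391087)) (a (l 141443683486433327) (l 141524909926645807))) (a (c (l 142095419157889071) (l 141610534414237743)) (a (b (l 141927056397320239) (c (b (l 142170804441186351) (l 142170667002986543)) (a (l 141662898668552239) (l 141683995552694319)))) (b (c (l 142217877292171311) (l 141723234380611631)) (l 142147371050778671))))), by decide +kernel⟩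

def k12_pm_102_a : ∃ t, chk3 f_pm_102_a t 41 255 1 = true :=
  ⟨(c (a (a (b (c (l 142029242291241007) (l 141795389855334447)) (c (a (b (l 142010688029392943) (b (l 142012543456215087) (c (l 14) (c (l 14) (l 141924651224662063))))) (l 14)) (b (l 141796077051609135) (c (b (l 141856206608760879) (a (l 141835109725044783) (l 141968081922261039))) (a (l 141715056770416687) (l 141756700782805039)))))) (c (l 14) (b (l 141883419525005359) (b (a (l 141861085691346991) (l 141905753361334319)) (a (c (a (l 141910838605348911) (l 142023126235365423)) (l 141799444307017775)) (c (l 14) (b (l 141843424781860911) (l 141842806306881583)))))))) (c (l 14) (c (l 14) (a (a (b (l 141890909948903471) (b (l 141889398121463855) (b (l 141888298610278447) (c (l 14) (a (l 141844867891331119) (a (l 141861635447455791) (b (l 141873180322021423) (a (l 141869881786630191) (l 141875516784984111))))))))) (a (b (l 141925750731472943) (b (a (l 141918054149718063) (l 141929461585428527)) (b (a (l 141916817199546415) (l 141928155915747375))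 (l 141921627564458031)))) (c (l 14) (b (l 141917641831022639) (l 141958873518080047))))) (b (l 142184960615563311) (l 14)))))) (a (a (b (l 141617337606225967) (c (b (l 141555077789663279) (a (l 141533362431131695) (l 141573082297761839))) (l 141488419840376879))) (b (l 141697327095513135) (c (b (l 141637060144119855) (a (l 141613832956756015) (l 141835728156639279))) (b (l 141386921190703151) (l 141382454424928303))))) (a (b (a (l 141579954243551279) (a (l 141612252404957231) (b (l 141635823190261807) (l 141811882489872431)))) (a (b (l 141574662844350511) (a (c (l 141687568972038191) (l 141432069898469423)) (a (c (l 141703786772217903) (l 141447325625778223)) (b (l 141767764577763375) (c (b (l 141714300854665263) (a (l 141890909909336111) (l 141716225000701999))) (l 141456259160080431)))))) (b (a (c (a (l 141728731946860591) (l 141739658346135599)) (l 141477905798660143)) (l 141627508133953583)) (c (b (a (a (l 141726395484897327) (l 141737184445202479)) (l 141753539684352047)) (c (l 141805422901968943)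 (l 141676711292141615))) (b (l 141484296712355887) (l 141481891530719279)))))) (b (a (b (l 141667021839794223) (l 141662761232416815)) (l 141706398109499439)) (c (b (a (l 141788380466151471) (l 141832704538640431)) (a (c (b (l 141851327522275375) (l 141940662842343471)) (l 141721172803338287)) (c (a (l 141885343671140399) (l 141908639578964015)) (l 141765840473276463)))) (b (l 141549511509721135) (a (l 141524635054653487) (l 141567241139863599)))))))), by decide +kernel⟩

def k13_pm_102_a : ∃ t, chk3 f_pm_102_a t 21 62 1 = true :=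
  ⟨(a (b (a (l 142076864870776879) (a (l 142248594881921071) (l 142335318881763375))) (a (a (l 142045872387145775) (b (l 142152112720265263) (l 142147920835149871))) (b (l 142272921588580399) (l 142257253548343343)))) (b (a (l 142422730077700143) (l 142489662862147631)) (a (b (l 142404244539981871) (l 142397922350841903)) (b (l 142473857382416431) (l 142473032750596143))))), by decide +kernel⟩

def k14_pm_102_a : ∃ t, chk3 f_pm_102_a t 42 63 1 = true :=
  ⟨(a (b (a (b (c (l 142285703425490991) (l 141811332761976879)) (b (l 142046078554193967) (l 142040306118819887))) (b (l 142134864135634991) (l 142123800301256751))) (c (l 14) (b (a (l 141958667321753647) (l 142131634263621679)) (a (b (c (l 141901698907389999) (l 141638503250575407)) (c (c (b (l 141967119865872431) (l 14)) (b (l 141834972281421871) (a (b (l 141811676374302767) (l 141811470216314927)) (a (l 141846585876529199) (l 141870294101295151))))) (b (l 141634861119127599) (a (c (l 141678085681037359) (l 141543532914884655)) (c (l 141723509265350703)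 (l 141587650828845103)))))) (b (c (l 141993439429443631) (l 141724883652362287)) (c (a (b (l 141971998949228591) (a (c (l 14) (l 141894208484556847)) (l 14))) (l 14)) (b (l 141904585085435951) (a (c (l 141770032361504815) (l 141632730815709231)) (c (b (l 141817242652311599) (l 141818204725674031)) (l 141678979033890863)))))))))) (c (a (l 14) (c (c (c (b (l 142617274970210479) (b (l 142626483384418479) (b (l 142638028260114607) (a (a (l 14) (b (l 142638096980426927) (l 142643731979075759))) (b (l 142660568253268143) (a (l 142659125144584367) (l 142674380871106735))))))) (l 14)) (l 14)) (l 14))) (b (b (l 141997974904455215) (l 141990759361822767)) (b (b (l 142171560308097071) (a (l 141948977915232303) (l 142041749229633583))) (c (l 14) (b (a (l 141815387223556143) (l 141910082683650095)) (c (a (b (l 141888023728439343) (a (a (l 141854213739249711) (l 141878884036886575)) (b (l 141915374086914095) (l 14)))) (l 14)) (a (b (l 141748317000400943) (a (l 141726395483389999) (l 141876203953455151))) (b (l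 141845211484160047) (a (b (l 141823496125349935) (l 141915717664063535)) (a (l 141862528797016111) (l 141978321120985135)))))))))))), by decide +kernel⟩

def k15_pm_102_a : ∃ t, chk3 f_pm_102_a t 43 63 1 = true :=
  ⟨(c (a (a (c (b (l 142424722992038063) (b (b (l 142617137531568303) (l 142625864907767983)) (b (a (l 142622566373507247) (l 142651153680810159)) (c (a (b (l 142670738737086639) (b (l 142675892699201711) (a (l 142671769530187951) (l 142687093976203439)))) (b (l 142700150678306991) (a (l 142700288117915823) (l 142715268966482095)))) (c (a (l 14) (b (l 142641945269764271) (a (l 142641876550910127) (l 142657132277432495)))) (l 14)))))) (l 14)) (b (l 142393455622062255) (a (b (l 142403488670908591) (b (l 142421974215278767) (c (b (l 142690873546293423) (c (a (l 142730249815064751) (l 142745093224644783)) (b (l 142658300508111023) (a (l 142654933253505199) (l 142670120260550831))))) (l 14)))) (b (l 142250106803421359) (b (l 142360745166553263) (a (c (b (l 142712795063222447) (c (l 142759799195271343)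 (l 142683039524274351))) (l 14)) (b (l 142380261502402735) (c (c (l 142774505165881519) (l 142697951653363887)) (c (c (l 142640089842368687) (l 14)) (l 14)))))))))) (a (b (l 142437848411373743) (b (b (l 142643388373811375) (l 142297110934323375)) (b (a (l 142299103800885423) (l 142327141352308911)) (b (a (a (l 142394898753519791) (l 142409536004636847)) (a (l 142423967097307311) (l 142348306955944111))) (c (a (c (l 142796289243873455) (a (l 142712795062960303) (l 142727569753063599))) (c (l 142825082709688495) (b (l 142746948648730799) (l 142752102610763951)))) (c (a (c (a (l 142655139410428079) (l 142670120258994351)) (l 14)) (a (b (l 142663317028962479) (l 142668402271518895)) (l 142680703049105583))) (l 14))))))) (b (b (l 142652802939093167) (l 142673212629745839)) (b (b (l 142693828478386351) (l 142349956221092015)) (a (b (l 142354835306266799) (c (b (l 142805428934148271) (c (l 142853532578070703) (l 142778490894303407))) (b (l 142653971177046191) (c (a (l 142695409030463663) (l 142710115001073839))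 (c (a (l 142638096975462575) (l 142652940385075375)) (l 14)))))) (b (l 142382185662775471) (c (b (l 142833191607632047) (c (l 142881570129526959) (l 142807146921148591))) (b (l 142682764642861231) (c (a (l 142724683532714159) (l 142739183344861359)) (b (l 142653215262408879) (a (l 142651565995081903) (l 142666409404678319)))))))))))) (c (l 14) (a (a (b (l 141980245276999727) (b (l 141993370705461295) (b (l 142009313630109743) (l 14)))) (b (l 142062433789984815) (l 14))) (b (b (l 142182349302497327) (l 14)) (l 14))))), by decide +kernel⟩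

def k16_pm_102_a : ∃ t, chk3 f_pm_102_a t 11 14 1 = true :=
  ⟨(a (b (a (l 16553920) (l 16589272)) (a (b (l 16586056) (l 16603464)) (l 16609144))) (b (a (l 16610128) (l 16605400)) (a (a (l 16613712) (l 16598400)) (a (l 16610112) (l 16627336))))), by decide +kernel⟩

def k17_pm_102_a : ∃ t, chk3 f_pm_102_a t 11 30 1 = true :=
  ⟨(a (b (b (l 16610712) (l 16610784)) (b (a (l 16611720) (b (l 16587912) (l 16588920))) (a (l 142573157033984047) (a (l 142416339188842607) (a (l 16613248) (l 16621640)))))) (b (a (l 16603712) (l 16665064)) (a (b (l 16615096) (l 16627848)) (b (l 16682344) (a (c (l 16693736) (l 16672408)) (l 16706416)))))), by decide +kernel⟩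

def k18_pm_102_a : ∃ t, chk3 f_pm_102_a t 22 62 1 = true :=
  ⟨(a (b (a (l 142535086442119215) (l 16579624)) (a (a (l 142342465751351343) (l 142374420312965295)) (b (l 142409879566958703) (a (l 142594322646204591) (l 142454959554297967))))) (b (a (a (l 142424585532801135) (l 142477362100568175)) (l 16589064)) (b (a (l 142516875811504239) (l 16598472)) (a (c (l 142893114988576879) (l 142606760871362735)) (a (a (l 142857999327461487) (l 142900536691671151)) (l 142970424411635823)))))), by decide +kernel⟩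

def k19_pm_102_a : ∃ t, chk3 f_pm_102_a t 44 126 1 = true :=
  ⟨(b (a (b (l 142377650132402223) (l 142389057568882735)) (a (a (l 142611227643347119) (l 142452623094694063)) (a (l 142303226957840559) (l 142702624563921007)))) (a (a (l 142387545742393391) (a (l 142421218291695791) (l 142443277247447215))) (a (a (b (l 142276357639897263) (l 142299653548277935)) (b (l 142667234029093039) (l 142695065423839407))) (c (l 142881570119811183) (l 142589718443884719))))), by decide +kernel⟩

def k20_pm_102_a : ∃ t, chk3 f_pm_102_a t 44 254 1 = true :=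
  ⟨(a (a (c (b (l 142742688034734255) (l 142401358398603439)) (l 142402457847529519)) (b (a (l 142448431211511983) (a (l 142286596846960815) (l 142300890479181999))) (b (a (l 142283848068645039) (c (l 142821509289443503) (l 142341503685017775))) (a (c (a (l 142798350822473903) (l 142811544964317359)) (l 142323292978331823)) (l 142326041835684015))))) (a (c (b (l 142850921229713583) (l 142875728966795439)) (l 142387751900856495)) (c (b (l 142916823219945583) (l 142938194982486127)) (l 142457845779890351)))), by decide +kernel⟩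

def k21_pm_102_a : ∃ t, chk3 f_pm_102_a t 88 255 2 = true :=
  ⟨(a (a (b (l 142409123702374575) (c (b (l 142860541964189871) (c (l 142909264083550383) (l 142835390631084207))) (b (l 142711145791750319) (c (b (l 142757737606643887) (l 142763853641564335)) (a (b (l 142675068059861167) (l 142681184094781615)) (l 142692728968708271)))))) (b (b (l 142790310643073199) (l 142441421862486191)) (a (b (l 142626758292947119) (c (a (l 142889679028240559) (b (l 142893389880443055) (a (c (l 142934621575135407) (b (l 142859579891269807) (l 142862809707446447))) (b (l 142899918232174767) (l 142903079328858287))))) (a (b (l 142737946393002159) (l 142744337305878703)) (a (b (l 142743306513137839) (b (l 142748116877656239) (a (a (l 142750041023545519) (a (l 142750659482845359) (b (l 142750315901452463) (l 142751965169287343)))) (b (a (l 142751003096350895) (l 142751896449695919)) (l 142753064681128111))))) (b (l 142746879926550703) (b (b (l 142750934376644783) (l 142752514925002927)) (l 142754988826755247)))))))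 (a (b (c (l 142890915978231983) (b (l 142739595659903151) (c (l 142783163817115823) (l 142708397011533999)))) (c (b (l 142900330548805807) (l 142906721461682351)) (a (b (b (l 142748804072145071) (l 142752102607814831)) (l 142756981691826351)) (l 142757394008555695)))) (b (b (l 142460663319969967) (l 142827419168850095)) (c (l 142910569752854703) (l 142762891567677615))))))) (b (a (a (b (l 142449599480856751) (a (l 142458326835265711) (l 142825976058577071))) (b (l 142824258070577327) (l 142837246054793391))) (l 142673487544271023)) (b (c (l 142930223525904559) (a (l 142768595284443311) (l 142798350823178415))) (c (a (l 142928093222518959) (l 142955718457065647)) (a (c (l 142818073318097071) (b (l 142740832610730159) (l 142746948645650607))) (c (l 142846591906005167) (l 142772993331740847))))))), by decide +kernel⟩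

def k22_pm_102_a : ∃ t, chk3 f_pm_102_a t 88 255 3 = true :=
  ⟨(c (a (c (c (a (l 14) (b (l 142626964414611631) (a (b (l 142637890814574767) (a (l 142646893068452015) (b (l 142650947518087343) (a (b (l 142653971175915695) (a (b (l 142655551724306607) (c (a (l 142666203245379759) (l 142667096598741167)) (l 14))) (b (l 142657407150506159) (l 142659056418341039)))) (b (a (l 142656788674953391) (l 142658644101152943)) (l 142660980563984559)))))) (b (a (b (l 142645449958129839) (l 142651772151529647)) (b (l 142652665504465071) (l 142659262575820975))) (a (b (b (l 142656719955034287) (l 142660018490720431)) (l 142664966294241455)) (l 142669158182846639)))))) (l 14)) (l 14)) (b (a (b (l 142412284718678191) (a (a (l 142413384274280623) (l 142601332044529839)) (l 142613357955121327))) (l 142631018863394991)) (a (b (l 142618580637106351) (c (b (l 142665859646816431) (a (l 142664622696431791) (l 142679466106028207))) (l 14))) (b (l 142649504407158959) (a (c (l 142691285857910959) (l 14)) (c (l 142705991828553903)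 (c (l 142649916724543663) (l 14)))))))) (l 14)), by decide +kernel⟩

def k23_pm_102_a : ∃ t, chk3 f_pm_102_a t 89 255 1 = true :=
  ⟨(b (c (a (a (l 142883769148489903) (l 142913524687274159)) (c (l 143028286235705455) (l 142886449207034031))) (a (b (l 142418400794984623) (l 142429808230957231)) (b (l 142303364402675887) (l 142447812745167023)))) (c (a (c (a (l 142977846132146351) (l 143005265208230063)) (c (a (l 142869544214937775) (l 142897856644382895)) (b (l 142805841246716079) (a (l 142801718078111919) (l 142830099227033775))))) (c (a (l 143032340686880943) (b (l 143055086837399663) (l 143062920859779183))) (a (b (l 142885418415734959) (l 142804123276984495)) (b (l 142913799564689583) (l 142921564867592367))))) (c (a (a (b (l 142680084579762351) (c (b (l 142725302004760751) (l 142685513418293423)) (b (l 142650878796873903) (a (l 142648679773618351) (l 142663454463721647))))) (b (l 142710321154916527) (b (l 142627582906777775) (c (l 142759249432641711) (a (l 142678022995394735) (l 142692591527035055))))))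 (a (b (l 142740214132637871) (c (l 142785500277244079) (a (l 142704892315369647) (l 142719392127533231)))) (b (l 142769763512909999) (c (l 142813743987196079) (b (l 142739114620682415) (l 142742825473425583)))))) (c (a (l 14) (b (a (l 142629507034038447) (l 142659949767671983)) (a (c (a (l 142649366967369903) (l 142664072937996463)) (l 14)) (b (l 142665722205274287) (a (l 142662080072712367) (l 142676579884859567)))))) (l 14))))), by decide +kernel⟩

def k24_pm_102_a : ∃ t, chk3 f_pm_102_a t 90 63 1 = true :=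
  ⟨(a (b (b (l 142762685397860463) (l 142449943070900335)) (b (b (l 142480523245715567) (a (l 142482516112212079) (l 142514195796770927))) (b (a (c (l 143000935877410927) (l 142355247617310895)) (c (l 143029454465400943) (l 142386240106922159))) (b (c (c (l 143095356457959663) (l 142955787172479151)) (c (a (l 142798969295732911) (l 142827831481122991)) (a (l 142653352696201391) (l 142683451832385711)))) (c (c (l 143011793575985391) (a (l 142948640346226863) (l 142975372227428527))) (c (a (c (l 142841644099698863) (b (l 142767839367069871) (l 142771000463884463))) (c (l 142869200614768815) (l 142797594905952431))) (a (a (c (l 142689361709629615) (l 14)) (c (l 142703792802316463) (c (l 142648817210327215) (l 14)))) (c (a (l 142718086456017071) (l 142732380109717679)) (b (l 142651016233549999) (a (c (l 142664622692941999) (l 14)) (l 142660705681801391))))))))))) (b (b (l 142841918969446511) (l 142522098534891631)) (b (b (l 142547112430911599) (c (l 143059416161534063) (l 142420737289240751))) (a (c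 (b (l 143057629455941743) (c (l 143137344066011375) (l 142999424048283823))) (b (l 142416957718577327) (c (b (l 142856350069080239) (c (l 142896413532405935) (l 142825357579485359))) (b (l 142713138651660463) (c (b (l 142752583639318703) (l 142754576504799407)) (b (l 142680222016356527) (a (l 142674999335501999) (l 142689224269709487)))))))) (c (b (l 143085460849049711) (a (c (l 143156448083935471) (l 143019283980615855)) (b (c (l 143167374482456815) (l 143031035012972719)) (c (l 143175277224329455) (a (l 143032546842296495) (l 143044229155602607)))))) (b (l 142447331732783279) (a (b (l 142446369660797103) (c (l 142881295244148911) (c (l 142774642595430575) (l 142702624569917615)))) (a (b (l 142817386117611695) (c (b (l 142890847252988079) (c (l 142929673765273775) (l 142859305007251631))) (b (l 142748735347392687) (a (c (l 142784744360460463) (b (l 142711832981504175) (c (l 142731555475275951) (l 142695477743059119)))) (b (l 142753339553431727) (l 142756981686583471)))))) (b (c (l 142895657616834735)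 (l 142754095467151535)) (c (b (l 142901773651869871) (l 142908920479187119)) (b (c (l 142795876917543087) (l 142724477367419055)) (l 142767701916254383)))))))))))), by decide +kernel⟩

def k25_pm_102_a : ∃ t, chk3 f_pm_102_a t 91 63 1 = true :=
  ⟨(a (b (a (b (l 142900674133164143) (l 142755538607308911)) (b (l 142579479306256495) (c (l 143104702302273775) (l 142835047021428911)))) (b (b (a (l 142956474362888303) (a (l 142980801062158447) (c (l 143133770647961839) (l 142864527684206767)))) (c (a (l 143103740232122479) (a (l 143130678272098543) (l 143156929117339887))) (a (l 142829480745746607) (a (l 142859373723762863) (c (l 142957024119357615) (l 142820615931281583)))))) (b (c (a (c (l 143185997463453935) (a (l 143039350070411375) (l 143061271587733743))) (a (l 143155623448264943) (l 143184554353672431))) (a (b (l 142478599100170415) (a (l 142473857455931567) (l 142861091712598191))) (a (l 142885968167796911) (a (l 142910363586871471) (l 142927406020313263))))) (c (a (a (a (b (l 143113223523565679)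 (l 143126623824789615)) (l 143133839370977519)) (l 143155417290965231)) (a (l 143184073318482159) (c (l 143277394386731247) (l 143147995585757423)))) (a (b (a (b (l 142480591966404783) (l 142487395196272815)) (l 142516188662562991)) (c (l 142944723333513391) (c (l 142840888183865519) (c (l 142788386493481135) (a (l 142735953522573487) (l 142770381987217583)))))) (a (c (l 142984443198636207) (b (l 142840475866415279) (c (l 142890366216929455) (b (l 142817867154768047) (c (l 142843018488479919) (l 142808658743492783)))))) (c (a (l 143008013983842479) (l 143024506661372079)) (a (b (l 142865489760911535) (c (l 142915036513976495) (c (l 142864321530314927) (l 142830236663300271)))) (b (l 142883150669725871) (c (l 142932353825357999) (b (l 142861160433500335) (c (l 142885968169762991) (l 142852295619674287))))))))))))) (b (b (c (l 143135145032990959) (l 142872980176011439)) (c (a (l 143144903203160303) (l 143197817209667823)) (a (b (l 142870300118204591) (l 142887754869850287)) (b (l 142925344428540079)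 (l 142952626067472559))))) (b (c (a (b (l 143175139780493551) (l 143202627577823471)) (l 143250456341643503)) (b (a (l 142911737973178543) (l 142982038010626223)) (l 142616175517286575))) (c (c (c (l 143368172832260335) (l 143306531448848623)) (c (l 143244271590162671) (l 143181393256202479))) (b (a (l 142633698984755375) (l 142681527753310383)) (c (c (l 143132808576991407) (a (l 143034608425812143) (l 143103740231942319))) (a (b (l 142928505532612783) (c (l 142977021493346479) (b (l 142907271210729647) (c (l 142931666630066351) (c (l 142906927608299695) (a (l 142871743235031215) (l 142908989198139567))))))) (c (l 143040587020370095) (b (l 142969050030751919) (b (l 142980869783601327) (c (l 143004646727549103) (a (l 142954275336208559) (l 142991315146195119))))))))))))), by decide +kernel⟩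

def k26_pm_102_a : ∃ t, chk3 f_pm_102_a t 46 31 1 = true :=
  ⟨(b (c (b (a (l 16662992) (l 16682864)) (a (a (a (l 143148201731293423) (l 143200428542804207)) (a (l 143256228767826159) (l 143317595271626991))) (l 143471114610163951))) (a (b (l 142717330553634927) (b (l 142784538218627183) (l 142830030523531375))) (b (l 16659688) (l 143082093606682735)))) (b (c (a (a (b (l 143237399632380143) (l 143288595655000303)) (l 143385971169624303)) (c (l 143621404141486383) (l 143522997828813039))) (c (a (b (a (l 143052131884712047) (l 143187646717051119)) (l 143174590017699951)) (a (l 143353466845675759) (l 143492142774124783))) (a (b (l 142817592297947311) (l 142874148441079983)) (l 143139749263474799)))) (a (b (c (c (a (l 143401433061245167) (l 143520180338753775)) (a (l 143283579133985007) (l 143411122505875695))) (c (a (l 143163457464074351) (l 143300003088810223)) (a (l 143040930612527279) (l 143186615929094319)))) (c (c (a (l 143455790180483311) (l 143573987702063343)) (a (c (l 143369066182721775)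 (l 143310654615453935)) (c (l 143493929494561007) (l 143439915974492399)))) (c (a (c (b (l 143237056040288495) (l 143266399263949039)) (b (l 143177270083453103) (l 143162151805812911))) (c (l 143385490137579759) (b (l 143315671134339311) (l 143345357955465455)))) (a (a (b (l 143050345185394863) (c (l 143111849130557615) (c (l 143065875791560879) (a (l 143016466478448815) (l 143053506283028655))))) (b (l 143122775526801583) (c (l 143183111240663215) (b (l 143116109737263279) (l 143131709062250671))))) (a (b (l 143195412026622127) (a (l 143207918975565999) (l 143244202865721519))) (c (l 143310860769624239) (l 143256022616146095))))))) (a (b (c (l 143589449581904111) (c (l 143437235908198639) (l 143333194598760559))) (c (c (l 143692528820928815) (l 143594466106196207)) (c (c (l 143519836738502895) (l 143469534070931695)) (a (c (l 143382741354954991) (l 143330170944553135)) (c (l 143454759379189999) (l 143404594150850735)))))) (b (c (l 143713282101133551) (c (l 143575155922239727) (l 143480666621493487)))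 (c (c (l 143811138659123503) (l 143722353075126511)) (c (c (l 143654733095092463) (l 143609103352643823)) (c (l 143563061293400303) (l 143516469478375663))))))))), by decide +kernel⟩

def k27_pm_102_a : ∃ t, chk3 f_pm_102_a t 47 31 1 = true :=
  ⟨(b (c (c (l 143659199882871087) (l 143403838288052527)) (a (l 143321237423489263) (l 143615494272827631))) (b (a (c (c (l 143861922353053999) (l 143782413899219247)) (c (l 143701187458646255) (l 143437854404919535))) (c (a (l 16743984) (l 16754560)) (l 143770319292055791))) (a (c (c (a (l 143903909967593775) (l 144023000841879855)) (a (l 143823439441363247) (l 143952082324291887))) (c (a (b (l 143713556972470511) (l 143769700798677231)) (b (l 143852370339397871) (l 143907758251229423))) (a (b (l 143628757119385839) (c (l 143708059414331631) (l 143666415402352879))) (b (l 143777534811865327) (l 143835327905906927))))) (c (c (l 144201259195810095) (a (l 144080862645961007) (l 144209574247956783))) (c (a (l 144018808942510383) (l 144157691028439343)) (b (l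 144001491624165615) (a (l 143983762000675055) (l 144132608412074223)))))))), by decide +kernel⟩

def k28_pm_102_a : ∃ t, chk3 f_pm_102_a t 6 2 1 = true :=
  ⟨(a (b (a (b (a (l 16705568) (l 16721048)) (l 16695592)) (b (a (l 16732104) (l 16733112)) (a (l 16714152) (l 16724336)))) (a (b (l 16640200) (l 16627200)) (b (a (l 16674288) (l 16703968)) (l 16666792)))) (b (a (b (a (b (l 16727184) (l 16726720)) (b (a (l 16719768) (l 16714352)) (a (l 16720904) (l 16716376)))) (a (l 16725760) (l 16721152))) (b (a (b (a (b (l 16708736) (l 16709696)) (b (a (l 16704928) (b (a (l 94120040231) (l 135459089975)) (l 79087643831))) (a (l 16705928) (l 16703280)))) (a (b (l 16710824) (l 16712024)) (b (l 16705808) (l 16707216)))) (b (a (b (a (b (l 3) (l 134922215687)) (l 3)) (a (b (c (l 99488743287) (l 108615538951)) (l 16700792)) (b (l 140827790711) (a (l 118279213559) (l 135459081591))))) (l 3)) (a (b (a (l 16701744) (c (l 16700312) (b (l 111299888791) (l 16697704)))) (a (l 16703192) (l 16700344))) (b (a (b (a (l 129553499927)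 (l 3)) (a (l 16696984) (l 126332270551))) (l 145659619463)) (a (c (l 16698880) (l 16695824)) (c (l 115057989415) (b (l 126332266679) (l 111836751479)))))))) (a (b (a (l 16714344) (l 16709656)) (l 16715328)) (b (a (a (l 16705816) (l 16703056)) (b (c (l 16699216) (l 16695872)) (l 16699552))) (a (b (l 16707448) (l 16709824)) (b (l 16701792) (l 16704152))))))) (a (b (a (l 16718600) (l 16722704)) (a (l 16686800) (l 16713560))) (a (b (l 16721056) (b (l 16724776) (l 16724176))) (b (b (a (l 16713328) (l 16708512)) (l 16716456)) (b (l 16722408) (l 16727648))))))), by decide +kernel⟩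

def k29_pm_102_a : ∃ t, chk3 f_pm_102_a t 14 4 1 = true :=
  ⟨(a (a (a (a (b (b (l 3) (b (l 3) (c (l 153175811879) (l 139217162423)))) (b (b (c (l 109152401703) (b (l 122574167207) (l 16691688))) (l 16694864)) (l 16698448))) (b (l 3) (c (b (b (l 146196487351) (l 112373623751)) (l 16697064)) (b (b (b (l 3) (l 133848451351)) (b (l 116131711367) (l 16690352))) (l 16693216))))) (b (l 3) (a (b (b (l 3) (b (a (l 147807095207) (l 3)) (c (l 138143422663) (l 130090352263)))) (b (c (l 95193751815) (b (l 16688080) (l 16689208))) (l 16693096))) (b (l 3) (c (b (b (l 151028319767) (l 120426677719)) (l 16691480)) (b (b (l 142975249095) (l 119352931607)) (l 16687624))))))) (b (l 3) (b (l 3) (a (a (c (b (l 168208182583) (b (a (l 123647900263) (l 156933896231)) (l 116668578903))) (b (l 162839466183) (b (a (l 121500409079) (l 147270212231)) (l 115057958679)))) (a (b (l 3) (c (l 155860152151) (l 147270209783))) (l 3))) (l 3))))) (l 3)), by decide +kernel⟩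

def k30_pm_102_a : ∃ t, chk3 f_pm_102_a t 28 5 1 = true :=
  ⟨(b (b (b (a (a (l 16700832) (a (l 16696008) (l 16692536))) (a (c (a (l 16690960) (a (l 117205456887) (b (l 146733347959) (l 16687344)))) (a (l 16686840) (b (a (l 16683424) (l 138143405271)) (l 16684048)))) (a (a (b (l 3) (c (b (l 149954572407) (l 130090353751)) (l 133311566727))) (c (l 174113758807) (l 169818783223))) (l 3)))) (a (a (l 16704032) (l 16697552)) (a (a (l 16692272) (c (l 16690840) (l 16686528))) (a (c (b (a (l 16687344) (b (a (l 132774707495) (l 154786409815)) (l 126332257191))) (l 16689304)) (b (a (l 16683104) (l 131164083015)) (l 16683992))) (c (c (b (l 156933891799) (a (b (l 142438383127) (l 16687264)) (l 152102055895))) (a (l 137606538791) (l 161228855399))) (b (l 164450074135) (a (l 123647886231) (l 144048981671)))))))) (a (a (l 16709104) (b (l 16701024) (l 16705008))) (a (b (l 16694256) (l 16698272)) (b (c (a (l 16691256) (b (a (l 16687744) (c (b (l 130627223495) (l 16687592)) (l 124721640759))) (l 16688944))) (a (l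 16686824) (b (l 115594824679) (l 16684544)))) (a (l 16693320) (l 16690048)))))) (a (b (l 16713568) (l 16721896)) (b (a (b (l 16702800) (l 16707304)) (b (l 16696368) (l 16701320))) (a (l 16714336) (l 16709328))))), by decide +kernel⟩

def k31_pm_102_a : ∃ t, chk3 f_pm_102_a t 29 5 1 = true :=
  ⟨(b (a (b (l 3) (a (b (a (a (c (c (b (l 148880831143) (b (l 128479740503) (l 16688048))) (b (l 146196472567) (l 124184770215))) (a (l 128479728775) (l 135459048983))) (b (l 3) (c (c (l 145659606631) (l 144585860775)) (l 139754015943)))) (l 3)) (b (a (a (l 16686544) (c (c (l 127406000455) (l 124721641927)) (l 16682736))) (a (c (c (l 143512124183) (l 140827765607)) (l 137069662615)) (l 3))) (a (c (l 16690120) (l 16685736)) (c (a (c (l 16688776) (l 16686760)) (c (l 143512125655) (l 140827767095))) (a (l 16683456) (l 136532793239)))))) (b (l 3) (a (c (c (l 156933891207) (l 155323274503)) (l 162839460759)) (l 3))))) (l 3)) (a (b (b (a (a (l 16691600) (b (c (a (l 16690144) (l 16688624)) (l 16685080)) (l 16689784)))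 (a (c (b (a (c (l 131164096407) (l 132237835271)) (l 155323282391)) (a (l 16689608) (b (l 131700969239) (l 16688768)))) (b (l 136532793543) (l 123647896087))) (a (b (l 3) (c (l 152638929943) (l 149954567127))) (l 3)))) (c (a (l 16697336) (a (b (l 16691456) (l 16694160)) (b (a (b (l 127942876087) (l 16689936)) (b (l 155860156407) (l 133848455047))) (a (l 16691952) (l 120426686679))))) (a (l 16693104) (a (l 16688712) (b (a (l 123647897079) (l 146733344231)) (l 111299871495)))))) (a (b (l 16700856) (l 16706648)) (b (a (l 16696408) (b (l 16692040) (l 16694800))) (l 16700488)))) (a (b (b (l 3) (a (a (b (l 3) (c (l 147807096727) (l 145659605287))) (l 3)) (l 3))) (b (a (c (b (a (l 16691896) (l 147807103895)) (l 16694000)) (b (l 125795385271) (l 16690248))) (b (l 3) (a (c (l 144049004935) (l 141901513415)) (l 161228869463)))) (a (l 16696384) (b (a (l 16693272) (c (l 117742334807) (l 119889810935))) (l 16695560))))) (b (l 3) (b (l 3) (a (b (l 161228871783) (a (c (l 112373629687) (l 16692400)) (l 157470780695)))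 (l 3))))))), by decide +kernel⟩

def k32_pm_102_a : ∃ t, chk3 f_pm_102_a t 15 2 1 = true :=
  ⟨(l 3), by decide +kernel⟩

def k33_pm_102_a : ∃ t, chk3 f_pm_102_a t 6 6 1 = true :=
  ⟨(a (b (a (b (l 16628720) (l 16635504)) (l 16672368)) (a (b (b (l 16646616) (l 16653216)) (a (l 16642496) (l 16672624))) (b (b (l 16687520) (l 16694856)) (l 16710464)))) (a (b (l 16691648) (b (l 16709384) (l 16729256))) (b (b (a (l 16708112) (l 16730576)) (l 16713392)) (a (l 16731208) (l 16746584))))), by decide +kernel⟩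

def k34_pm_102_a : ∃ t, chk3 f_pm_102_a t 6 14 1 = true :=
  ⟨(a (a (b (a (l 16654280) (l 16690288)) (b (l 16692408) (l 16709984))) (b (l 16729096) (b (l 16751048) (l 16769608)))) (a (b (b (l 16750816) (l 16763568)) (a (l 16783496) (l 16795352))) (b (a (l 16771048) (l 16774496)) (a (l 16805840) (l 16813680))))), by decide +kernel⟩

def k35_pm_102_a : ∃ t, chk3 f_pm_102_a t 12 15 1 = true :=
  ⟨(a (b (b (a (l 16709400) (l 16749952)) (a (b (l 16727136) (l 16718648)) (l 16752744))) (b (a (c (a (l 16753328) (l 16774208)) (l 16734832)) (b (l 16772800) (a (l 16794880) (l 16813624)))) (a (a (c (b (l 16770216) (a (c (l 144379242671423855) (l 144338217130262831)) (l 144482047022727535))) (b (l 144062377116614959) (c (l 144185934768079151) (l 144216240045162799)))) (c (c (l 144447893467267439) (l 144521285857722735)) (b (l 16780184) (c (l 144463767657922863) (l 144583476977025327))))) (b (a (a (l 16801248) (l 16811152)) (a (l 16820288) (l 16828704))) (c (a (b (l 16818544) (l 144748128912605551)) (l 16838248))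 (c (a (l 144916285455483247) (l 145169173168161135)) (a (c (l 144921576850178415) (l 144924806705348911)) (c (l 145191232117113199) (l 145205800687239535))))))))) (b (a (b (l 16781264) (l 16806208)) (b (l 16801480) (l 16826712))) (b (a (b (l 16819096) (l 16815320)) (b (l 16826040) (l 16836920))) (b (a (a (l 16850536) (l 16852960)) (a (l 16863520) (l 16850968))) (a (c (a (l 16852272) (l 16884800)) (a (b (l 16847144) (a (l 16849152) (l 16856568))) (b (l 16860864) (a (l 16863336) (l 16879968))))) (c (a (b (l 16870616) (l 16875632)) (b (l 16877928) (l 16882792))) (b (a (l 16872152) (l 16881232)) (a (c (l 16876960) (a (l 16875632) (l 16880864))) (c (l 16885416) (a (l 16885544) (l 16900248))))))))))), by decide +kernel⟩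

def k36_pm_102_a : ∃ t, chk3 f_pm_102_a t 13 15 1 = true :=
  ⟨(a (b (a (b (l 16815256) (l 16840776)) (b (l 16827536) (l 16853304))) (a (b (b (l 16861368) (a (l 16869832) (l 16877480))) (b (a (l 16900192) (l 16907304)) (b (c (l 16908128) (a (l 16889128) (l 16896840))) (c (a (l 16888864) (l 16894760)) (c (a (l 16892720) (l 16899824)) (b (a (l 16894520) (l 16902520)) (a (a (l 16895136) (l 16899144)) (a (l 16903096) (l 16907000))))))))) (b (b (l 16874800) (a (l 16905840) (b (l 16888720) (l 16893592)))) (b (c (l 16892488) (a (l 16897360) (l 16904864))) (a (b (c (l 16896056) (l 16904328)) (c (l 16900440) (c (l 16906712) (a (b (l 16908392) (l 16910840)) (l 16923896))))) (a (b (l 16925768) (c (l 16904552) (c (l 16911720) (l 16927624)))) (a (b (l 16907152) (b (l 16931320) (c (l 16906960) (a (l 16927920) (l 16917408))))) (b (l 16929456) (b (l 16931544) (l 16932016)))))))))) (b (a (b (l 16838392) (l 16864376)) (b (l 16865144) (a (l 16868016) (l 16863016)))) (b (a (b (a (l 16883504) (l 16887360)) (a (b (l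 16894608) (l 16900160)) (b (l 16896504) (l 16900136)))) (b (l 16878896) (a (b (l 16889248) (l 16892536)) (l 16881584)))) (a (b (a (a (c (l 16899200) (l 16888768)) (b (l 16904064) (l 16884136))) (a (l 16891536) (a (l 16889168) (l 16897944)))) (a (a (c (l 16924456) (b (l 16913592) (l 16914256))) (a (l 16927552) (b (l 16904912) (a (l 16926936) (l 16926232))))) (a (b (c (l 16897992) (a (l 16908800) (l 16907160))) (c (l 16898720) (l 16929264))) (l 16920552)))) (a (b (l 16874288) (a (l 16916872) (l 16892024))) (c (l 16881624) (l 16889904))))))), by decide +kernel⟩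

def k37_pm_102_a : ∃ t, chk3 f_pm_102_a t 14 6 1 = true :=
  ⟨(a (b (a (b (l 16730248) (l 16737344)) (b (l 16722472) (a (l 16735536) (l 16731864)))) (a (b (l 16731448) (l 16747376)) (b (a (l 16743888) (l 16745120)) (l 16747824)))) (b (a (b (a (l 16714960) (b (a (l 16707608) (l 16704488)) (l 16711832))) (a (l 16726928) (l 16721432))) (b (a (b (a (l 16701984) (l 16699752)) (a (l 16707408) (l 16705264))) (b (a (b (a (l 16696944) (l 111299887911)) (l 16699256)) (b (a (l 147807105447) (l 3)) (a (l 108078666695) (l 145122756551)))) (a (l 16703360) (b (a (l 16700752) (l 103246832455)) (l 16703056))))) (a (b (a (l 16713696) (l 16710800)) (l 16718984)) (b (a (l 16708744) (l 16707096)) (a (l 16714744) (l 16712360)))))) (a (b (a (l 16742176) (l 16737520)) (b (l 16753288) (l 16756472))) (b (a (b (l 16727208) (l 16736256)) (b (a (l 16722408) (l 16719288)) (l 16729216))) (a (b (l 16745480) (l 16753784)) (l 16742400)))))), by decide +kernel⟩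

def k38_pm_102_a : ∃ t, chk3 f_pm_102_a t 15 6 1 = true :=
  ⟨(a (b (a (a (b (b (l 3) (a (b (l 146196509943) (a (l 16701968) (l 138143445479))) (l 3))) (b (a (b (l 16704312) (l 16706968)) (b (l 139754059351) (a (l 16706008) (l 130627262487)))) (a (l 16711016) (l 16709728)))) (b (l 3) (b (a (l 3) (l 3)) (a (b (l 137069720695) (l 111299921815)) (l 148343999703))))) (l 3)) (a (b (a (b (a (l 16716600) (l 16715224)) (a (l 16724136) (l 16742360))) (b (a (l 16713992) (b (l 132774763831) (l 109689317591))) (a (l 16719752) (l 16718472)))) (a (b (l 16730968) (l 16739840)) (b (a (b (l 16724576) (l 16728776)) (b (l 16723064) (l 16726368))) (a (l 16735312) (l 16732896))))) (b (a (a (b (b (l 3) (l 168745106903)) (b (a (l 16715880) (l 164987019063)) (l 109152455079))) (b (l 3) (b (l 3) (l 169818857447)))) (l 3)) (a (b (a (b (l 16721616) (l 16724968)) (b (a (l 16720352) (l 164450158343)) (l 104857495639))) (a (b (l 16728504) (l 16732608)) (b (l 16726840) (l 16730736)))) (a (b (b (l 3) (a (l 163376420919) (l 3)))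 (b (a (l 16725280) (c (l 162302682071) (l 160155195719))) (a (l 16729120) (l 120963629239)))) (b (l 3) (b (l 3) (a (b (l 168208263719) (l 156933979607)) (l 3))))))))) (l 3)), by decide +kernel⟩

def k39_pm_102_a : ∃ t, chk3 f_pm_102_a t 14 7 1 = true :=
  ⟨(b (a (b (a (l 16775560) (l 16771656)) (a (b (l 16801768) (a (l 16822560) (l 16817664))) (b (l 16791760) (l 16782456)))) (a (b (l 16762992) (b (l 16776296) (l 16786544))) (b (b (a (l 16759592) (l 16754800)) (l 16736824)) (b (l 16764544) (l 16774632))))) (a (b (a (b (l 16834632) (l 16827632)) (a (l 16784856) (l 16754704))) (a (a (b (l 16868256) (b (l 16876936) (l 16835312))) (b (l 16837648) (b (l 16868008) (l 16868232)))) (a (b (l 16848552) (b (l 16816728) (l 16859176))) (b (l 16839272) (b (l 16807872) (l 16850848)))))) (a (b (b (l 16757624) (l 16791496)) (a (b (l 16831024) (b (l 16799832) (l 16843488))) (b (l 16823568) (b (l 16792464) (l 16836880))))) (b (a (b (l 16788816) (l 16802648)) (b (l 16783064) (l 16754800))) (b (c (l 16791280) (l 16794000))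 (b (a (l 16806688) (l 16800384)) (a (l 16830888) (l 16793936)))))))), by decide +kernel⟩

def k40_pm_102_a : ∃ t, chk3 f_pm_102_a t 30 14 1 = true :=
  ⟨(a (b (a (b (l 16748600) (l 16756464)) (b (l 16742792) (l 16751312))) (b (a (l 16759360) (a (l 16760304) (l 16757744))) (a (l 16766616) (l 16762480)))) (b (a (b (a (l 16739352) (b (l 16734832) (l 16739616))) (a (l 16747864) (l 16745768))) (b (a (b (l 16732704) (l 16716152)) (b (a (b (l 16729584) (l 16731728)) (b (l 164450177703) (a (l 133311666663) (a (l 141364728887) (l 163376433095))))) (a (l 16734992) (b (l 16732264) (l 16734360))))) (a (b (l 16720608) (l 16745440)) (b (l 16738328) (l 16731792))))) (b (a (l 16754456) (a (l 16750760) (b (l 16725552) (l 16750152)))) (a (a (l 16762944) (l 16739632)) (a (l 16758208) (l 16755936)))))), by decide +kernel⟩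

def k41_pm_102_a : ∃ t, chk3 f_pm_102_a t 31 14 1 = true :=
  ⟨(a (b (a (b (a (b (l 3) (a (b (c (l 161765824199) (l 159618338311)) (c (l 140827862375) (l 140827860967))) (b (l 3) (l 165523920039)))) (l 3)) (a (b (a (b (l 16734824) (l 16736888)) (b (c (l 156397120295) (l 155323376391)) (c (l 140827867719) (l 141364736567)))) (a (l 16740040) (b (l 16737440) (l 16739592)))) (b (a (b (l 3) (l 161228958087)) (l 3)) (a (a (b (l 140827868615) (l 16738512)) (b (l 157470865607) (l 136532903863))) (b (l 3) (c (l 157470868359) (l 155860253767))))))) (l 3)) (a (b (a (b (a (l 16744176) (l 16742816)) (a (l 16748456) (l 16746880))) (b (a (l 16741400) (a (b (l 135996036023) (l 16741456)) (b (l 154786517079) (l 132774813735)))) (a (l 16745640) (l 16744320)))) (a (b (l 16751712) (l 16755488)) (b (a (l 16749728) (l 16748376)) (a (l 16753728) (l 16742176))))) (b (a (b (a (b (l 3) (c (l 155860261623) (l 154249647207))) (l 3)) (a (a (b (l 129016720375) (l 16744432)) (b (l 149954685015) (l 125258627047))) (a (b (l 3)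 (l 147270336183)) (l 3)))) (l 3)) (a (a (b (l 16747280) (b (l 16750360) (l 16752296))) (b (a (b (l 120963663063) (l 16747448)) (b (a (l 139217273511) (l 153175916263)) (l 115594956855))) (l 16750256))) (b (a (a (b (l 3) (a (l 134922309543) (l 149417823015))) (l 3)) (l 3)) (l 6)))))) (l 3)), by decide +kernel⟩

def k42_pm_102_a : ∃ t, chk3 f_pm_102_a t 15 15 1 = true :=
  ⟨(a (b (a (b (l 16753752) (a (l 16748296) (b (l 16781096) (l 16787472)))) (a (b (l 16766720) (l 16778576)) (b (b (a (l 16764184) (l 16761712)) (a (l 16765624) (l 16765736))) (b (l 16769800) (l 16775968))))) (a (b (a (l 16783240) (b (l 16794768) (l 16801640))) (a (b (l 16815368) (b (l 16798928) (l 16819792))) (b (l 16809024) (l 6)))) (a (b (b (l 16767576) (l 6)) (l 6)) (l 6)))) (b (a (a (b (a (b (l 16759536) (l 16763504)) (b (l 16757176) (l 6))) (l 6)) (l 6)) (l 6)) (l 6))), by decide +kernel⟩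

theorem s43_pm_102_a : ∃ t, chk3 f_pm_102_a t 15 14 1 = true := ex3_a k40_pm_102_a k41_pm_102_a

theorem s44_pm_102_a : ∃ t, chk3 f_pm_102_a t 15 7 1 = true := ex3_b s43_pm_102_a k42_pm_102_a

theorem s45_pm_102_a : ∃ t, chk3 f_pm_102_a t 7 7 1 = true := ex3_a k39_pm_102_a s44_pm_102_a

theorem s46_pm_102_a : ∃ t, chk3 f_pm_102_a t 7 6 1 = true := ex3_a k37_pm_102_a k38_pm_102_a

theorem s47_pm_102_a : ∃ t, chk3 f_pm_102_a t 7 3 1 = true := ex3_b s46_pm_102_a s45_pm_102_a

theorem s48_pm_102_a : ∃ t, chk3 f_pm_102_a t 6 15 1 = true := ex3_a k35_pm_102_a k36_pm_102_a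

theorem s49_pm_102_a : ∃ t, chk3 f_pm_102_a t 6 7 1 = true := ex3_b k34_pm_102_a s48_pm_102_a

theorem s50_pm_102_a : ∃ t, chk3 f_pm_102_a t 6 3 1 = true := ex3_b k33_pm_102_a s49_pm_102_a

theorem s51_pm_102_a : ∃ t, chk3 f_pm_102_a t 3 3 1 = true := ex3_a s50_pm_102_a s47_pm_102_a

theorem s52_pm_102_a : ∃ t, chk3 f_pm_102_a t 14 5 1 = true := ex3_a k30_pm_102_a k31_pm_102_a

theorem s53_pm_102_a : ∃ t, chk3 f_pm_102_a t 14 2 1 = true := ex3_b k29_pm_102_a s52_pm_102_a

theorem s54_pm_102_a : ∃ t, chk3 f_pm_102_a t 7 2 1 = true := ex3_a s53_pm_102_a k32_pm_102_a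

theorem s55_pm_102_a : ∃ t, chk3 f_pm_102_a t 3 2 1 = true := ex3_a k28_pm_102_a s54_pm_102_a

theorem s56_pm_102_a : ∃ t, chk3 f_pm_102_a t 3 1 1 = true := ex3_b s55_pm_102_a s51_pm_102_a

theorem s57_pm_102_a : ∃ t, chk3 f_pm_102_a t 23 31 1 = true := ex3_a k26_pm_102_a k27_pm_102_a

theorem s58_pm_102_a : ∃ t, chk3 f_pm_102_a t 45 63 1 = true := ex3_a k24_pm_102_a k25_pm_102_a

theorem s59_pm_102_a : ∃ t, chk3 f_pm_102_a t 88 255 1 = true := ex3_c k21_pm_102_a k22_pm_102_a

theorem s60_pm_102_a : ∃ t, chk3 f_pm_102_a t 44 255 1 = true := ex3_a s59_pm_102_a k23_pm_102_a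

theorem s61_pm_102_a : ∃ t, chk3 f_pm_102_a t 44 127 1 = true := ex3_b k20_pm_102_a s60_pm_102_a

theorem s62_pm_102_a : ∃ t, chk3 f_pm_102_a t 44 63 1 = true := ex3_b k19_pm_102_a s61_pm_102_a

theorem s63_pm_102_a : ∃ t, chk3 f_pm_102_a t 22 63 1 = true := ex3_a s62_pm_102_a s58_pm_102_a

theorem s64_pm_102_a : ∃ t, chk3 f_pm_102_a t 22 31 1 = true := ex3_b k18_pm_102_a s63_pm_102_a

theorem s65_pm_102_a : ∃ t, chk3 f_pm_102_a t 11 31 1 = true := ex3_a s64_pm_102_a s57_pm_102_a

theorem s66_pm_102_a : ∃ t, chk3 f_pm_102_a t 11 15 1 = true := ex3_b k17_pm_102_a s65_pm_102_a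

theorem s67_pm_102_a : ∃ t, chk3 f_pm_102_a t 11 7 1 = true := ex3_b k16_pm_102_a s66_pm_102_a

theorem s68_pm_102_a : ∃ t, chk3 f_pm_102_a t 21 63 1 = true := ex3_a k14_pm_102_a k15_pm_102_a

theorem s69_pm_102_a : ∃ t, chk3 f_pm_102_a t 21 31 1 = true := ex3_b k13_pm_102_a s68_pm_102_a

theorem s70_pm_102_a : ∃ t, chk3 f_pm_102_a t 41 127 1 = true := ex3_b k11_pm_102_a k12_pm_102_a

theorem s71_pm_102_a : ∃ t, chk3 f_pm_102_a t 41 63 1 = true := ex3_b k10_pm_102_a s70_pm_102_a

theorem s72_pm_102_a : ∃ t, chk3 f_pm_102_a t 41 31 1 = true := ex3_b k9_pm_102_a s71_pm_102_a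

theorem s73_pm_102_a : ∃ t, chk3 f_pm_102_a t 40 31 1 = true := ex3_a k7_pm_102_a k8_pm_102_a

theorem s74_pm_102_a : ∃ t, chk3 f_pm_102_a t 20 31 1 = true := ex3_a s73_pm_102_a s72_pm_102_a

theorem s75_pm_102_a : ∃ t, chk3 f_pm_102_a t 10 31 1 = true := ex3_a s74_pm_102_a s69_pm_102_a

theorem s76_pm_102_a : ∃ t, chk3 f_pm_102_a t 10 15 1 = true := ex3_b k6_pm_102_a s75_pm_102_a

theorem s77_pm_102_a : ∃ t, chk3 f_pm_102_a t 10 7 1 = true := ex3_b k5_pm_102_a s76_pm_102_a

theorem s78_pm_102_a : ∃ t, chk3 f_pm_102_a t 5 7 1 = true := ex3_a s77_pm_102_a s67_pm_102_a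

theorem s79_pm_102_a : ∃ t, chk3 f_pm_102_a t 5 3 1 = true := ex3_b k4_pm_102_a s78_pm_102_a

theorem s80_pm_102_a : ∃ t, chk3 f_pm_102_a t 4 7 1 = true := ex3_a k2_pm_102_a k3_pm_102_a

theorem s81_pm_102_a : ∃ t, chk3 f_pm_102_a t 4 3 1 = true := ex3_b k1_pm_102_a s80_pm_102_a

theorem s82_pm_102_a : ∃ t, chk3 f_pm_102_a t 2 3 1 = true := ex3_a s81_pm_102_a s79_pm_102_a

theorem s83_pm_102_a : ∃ t, chk3 f_pm_102_a t 2 1 1 = true := ex3_b k0_pm_102_a s82_pm_102_a

theorem s84_pm_102_a : ∃ t, chk3 f_pm_102_a t 1 1 1 = true := ex3_a s83_pm_102_a s56_pm_102_a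

theorem c_pm_102_a : CertB 536870912 536870912 0 536870912 697932185 42949674 3 eng mog cd0q1 cd3q2a pd0 false true false .npp 1 0 2
    ndB0q1 ndB3q2a pcB0 cut_pm_102_a xt_pm_102_a :=
  certB0 (fam := false) (s1 := true) (s2 := false) (a := 1) (b := 0) (c := 2) (cn := .npp) (n1 := ndB0q1) (n2 := ndB3q2a) (pc := pcB0) (cut := cut_pm_102_a) (xt := xt_pm_102_a) (P1 := 536870912) (W1 := 536870912) (P2 := 0) (W2 := 536870912) (P3 := 697932185) (W3 := 42949674) (N0 := 3) (En := eng) (mo := mog) (C1 := cd0q1) (C2 := cd3q2a) (C3 := pd0)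
    rfl s84_pm_102_a

noncomputable def cut_pm_102_b : Cut := Cut.of [[⟨0, 1, 0, 67108864⟩, ⟨1, 0, 0, 67108864⟩, ⟨2, 1, 0, 67108864⟩], [⟨0, 0, 1, 20971520⟩, ⟨1, 1, 2, 20971520⟩, ⟨2, 1, 0, 33554432⟩]]

noncomputable def f_pm_102_b : ℕ → ℕ → ℕ → ℕ → Bool := onCell 536870912 536870912 0 536870912 697932185 42949674
    (rowB 3 eng mog cd0q1 cd3q2b pd0 1 false true false .npp 1 0 2 (qsf 536870912 536870912 1239849684 370763052 0) ndB0q1 ndB3q2b pcB0 cut_pm_102_b Ext.none)

def k0_pm_102_b : ∃ t, chk3 f_pm_102_b t 2 1 1 = true :=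
  ⟨(b (l 1) (b (l 1) (a (l 1) (a (b (l 1) (a (l 370474077543) (b (l 310344707687) (l 16634416)))) (b (a (b (l 1) (l 292091154647)) (b (l 309270856711) (l 110091935527))) (a (b (l 16663192) (l 16669296)) (l 16704584))))))), by decide +kernel⟩

def k1_pm_102_b : ∃ t, chk3 f_pm_102_b t 6 2 1 = true :=
  ⟨(l 1), by decide +kernel⟩

def k2_pm_102_b : ∃ t, chk3 f_pm_102_b t 6 6 1 = true :=
  ⟨(a (b (l 1) (a (b (l 1) (l 327524606583)) (b (b (l 1) (a (l 1) (l 16749248))) (a (l 143378079943) (l 16747056))))) (a (b (b (l 1) (a (l 1) (b (l 1) (a (l 1) (b (l 1) (l 16721256)))))) (a (b (b (a (l 1) (l 16757376)) (l 16725520)) (b (l 16708384) (l 16692232))) (b (a (b (l 16721888) (l 16704072)) (b (l 16707088) (l 16689352))) (a (b (l 16687192) (l 16671296)) (b (l 16672720) (l 16657104)))))) (a (b (b (l 1) (b (a (l 1) (a (l 1) (a (l 1) (l 3)))) (a (b (a (l 1) (l 84322171383)) (b (l 16708880) (l 16704008))) (b (a (b (c (l 84322155207) (l 87543375767)) (c (l 16704088) (l 16701184))) (a (a (b (b (c (l 91972559079) (l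 84456360999)) (l 74792686119)) (l 16697880)) (b (l 3) (l 287930431207))) (l 3))) (a (b (l 16697704) (l 16692856)) (b (a (l 16692040) (l 3)) (l 110763008135))))))) (b (b (a (b (l 16696912) (l 16687768)) (b (a (l 16685768) (c (l 16680208) (l 115594825463))) (a (l 16676656) (l 16669152)))) (a (l 16674680) (b (l 16664176) (l 16655776)))) (b (a (l 16658272) (b (l 16647672) (l 16639848))) (a (l 16642856) (l 16628488))))) (b (l 3) (a (b (a (b (b (l 3) (l 195051686615)) (b (l 123110965831) (l 16644520))) (l 3)) (b (b (a (l 16636496) (l 193441005143)) (l 126869002295)) (b (l 16617424) (l 16609992)))) (b (l 3) (b (l 3) (l 234780002999)))))))), by decide +kernel⟩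

def k3_pm_102_b : ∃ t, chk3 f_pm_102_b t 6 7 1 = true :=
  ⟨(a (b (b (a (a (l 16716072) (l 16726080)) (a (l 16716704) (l 16695752))) (a (l 16707136) (l 16679048))) (a (l 16800496) (b (l 16654504) (l 16636248)))) (b (a (b (a (l 16669400) (a (l 16648712) (l 16634720))) (a (l 16641560) (b (l 16620664) (l 16608160)))) (a (b (b (l 16620824) (l 16606384)) (b (l 16593104) (l 16582792))) (b (a (b (l 16598912) (l 16584496)) (b (l 147270046583) (a (l 16573368) (l 158544312119)))) (b (a (l 16572688) (l 16559352)) (l 16557520))))) (a (b (a (l 16618992) (l 16616104)) (l 16594840)) (a (b (l 16571928) (a (l 16567480) (l 16556144))) (b (b (l 16550272) (l 16544320)) (l 16537920)))))), by decide +kernel⟩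

def k4_pm_102_b : ∃ t, chk3 f_pm_102_b t 7 1 1 = true :=
  ⟨(a (b (l 3) (a (b (l 3) (b (a (b (l 3) (a (b (l 158544238711) (l 164449802519)) (l 3))) (l 3)) (a (b (a (b (l 170892230983) (l 16524248)) (b (l 3) (l 188072058231))) (a (b (l 16519960) (l 16517096)) (b (l 181092721895) (a (l 16507008) (l 187535154535))))) (b (l 3) (l 3))))) (l 3))) (l 3)), by decide +kernel⟩

theorem s5_pm_102_b : ∃ t, chk3 f_pm_102_b t 6 3 1 = true := ex3_b k2_pm_102_b k3_pm_102_b

theorem s6_pm_102_b : ∃ t, chk3 f_pm_102_b t 6 1 1 = true := ex3_b k1_pm_102_b s5_pm_102_b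

theorem s7_pm_102_b : ∃ t, chk3 f_pm_102_b t 3 1 1 = true := ex3_a s6_pm_102_b k4_pm_102_b

theorem s8_pm_102_b : ∃ t, chk3 f_pm_102_b t 1 1 1 = true := ex3_a k0_pm_102_b s7_pm_102_b

theorem c_pm_102_b : CertB 536870912 536870912 1239849684 370763052 697932185 42949674 3 eng mog cd0q1 cd3q2b pd0 false true false .npp 1 0 2
    ndB0q1 ndB3q2b pcB0 cut_pm_102_b Ext.none :=
  certB1 (fam := false) (s1 := true) (s2 := false) (a := 1) (b := 0) (c := 2) (cn := .npp) (n1 := ndB0q1) (n2 := ndB3q2b) (pc := pcB0) (cut := cut_pm_102_b) (xt := Ext.none) (P1 := 536870912) (W1 := 536870912) (P2 := 1239849684) (W2 := 370763052) (P3 := 697932185) (W3 := 42949674) (N0 := 3) (En := eng) (mo := mog) (C1 := cd0q1) (C2 := cd3q2b) (C3 := pd0)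
    rfl (fun _ => rfl) s8_pm_102_b

noncomputable def f_pm_112_a : ℕ → ℕ → ℕ → ℕ → Bool := onCell 536870912 536870912 0 536870912 697932185 42949674
    (rowB 3 eng mog cd0q1 cd3q2a pd1 0 false true false .dn 1 1 2 (qsf 536870912 536870912 0 536870912 1) ndB0q1 ndB3q2a pcB1 Cut.none Ext.none)

def k0_pm_112_a : ∃ t, chk3 f_pm_112_a t 1 1 1 = true :=
  ⟨(a (b (a (a (a (b (l 16532768) (l 16439752)) (b (l 16508648) (l 16449096))) (b (a (l 16525592) (l 16543416)) (b (l 16524760) (l 16438336)))) (a (b (a (l 16560856) (l 16579320)) (a (b (l 16500952) (l 16449200)) (l 1))) (l 1))) (b (a (a (b (l 16369968) (a (l 16349216) (l 16333472))) (b (l 16382872) (l 16330744))) (l 1)) (a (a (b (b (l 16383504) (a (l 16310584) (l 16298168))) (a (b (l 16304992) (a (b (l 16304360) (l 29560531879)) (l 253972577943))) (l 243772095175))) (b (a (l 233034606663) (l 1)) (l 1))) (l 1)))) (l 1)), by decide +kernel⟩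

theorem c_pm_112_a : CertB 536870912 536870912 0 536870912 697932185 42949674 3 eng mog cd0q1 cd3q2a pd1 false true false .dn 1 1 2
    ndB0q1 ndB3q2a pcB1 Cut.none Ext.none :=
  certB0 (fam := false) (s1 := true) (s2 := false) (a := 1) (b := 1) (c := 2) (cn := .dn) (n1 := ndB0q1) (n2 := ndB3q2a) (pc := pcB1) (cut := Cut.none) (xt := Ext.none) (P1 := 536870912) (W1 := 536870912) (P2 := 0) (W2 := 536870912) (P3 := 697932185) (W3 := 42949674) (N0 := 3) (En := eng) (mo := mog) (C1 := cd0q1) (C2 := cd3q2a) (C3 := pd1)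
    rfl k0_pm_112_a

noncomputable def f_pm_112_b : ℕ → ℕ → ℕ → ℕ → Bool := onCell 536870912 536870912 1239849684 370763052 697932185 42949674
    (rowB 3 eng mog cd0q1 cd3q2b pd1 0 false true false .dn 1 1 2 (qsf 536870912 536870912 1239849684 370763052 1) ndB0q1 ndB3q2b pcB1 Cut.none Ext.none)

def k0_pm_112_b : ∃ t, chk3 f_pm_112_b t 2 1 1 = true :=
  ⟨(a (b (a (b (b (a (l 16501576) (l 16528160)) (l 16607984)) (b (a (l 16415104) (l 16458792)) (a (l 16350240) (l 16402136)))) (b (b (l 16586888) (l 16550664)) (b (l 16520568) (l 16474672)))) (a (b (b (a (a (b (l 16284440) (l 16254552)) (b (l 16311776) (l 16279568))) (b (l 16354680) (l 16322136))) (a (a (l 16210528) (c (l 16268632) (l 16206920))) (b (a (l 16277264) (l 16305192)) (l 16263664)))) (c (a (b (a (l 16182176) (l 16214440)) (a (l 16119328) (l 16156696))) (a (b (l 16243568) (a (l 16183584) (l 16199968))) (b (l 16271816) (l 16223360)))) (a (b (l 16130056) (l 16062992)) (b (l 16190736) (l 16133440))))) (b (b (a (l 16395424) (l 16449656)) (a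 (b (l 16351240) (a (l 16305464) (l 16336440))) (l 16398424))) (a (b (a (l 16288280) (b (l 16308816) (l 16285064))) (c (a (l 16254656) (l 16286400)) (l 16198128))) (c (a (b (b (l 16371400) (l 16348560)) (l 16318624)) (b (b (l 16404080) (l 16380464)) (l 16351344))) (b (l 16314168) (l 16264224))))))) (b (a (b (b (a (l 16600960) (l 16621568)) (l 16609280)) (b (l 16591168) (l 16559256))) (b (b (a (l 16637928) (l 1)) (a (l 16639304) (l 16651360))) (a (l 16615368) (b (l 16639472) (l 16623072))))) (a (b (b (l 16607360) (a (l 16458024) (l 16512784))) (a (a (b (a (l 16386560) (l 16403720)) (b (a (l 16351024) (l 16389440)) (l 16340696))) (b (l 16429160) (c (b (l 16429120) (c (l 16429688) (l 16394216))) (l 16352728)))) (b (l 16478336) (b (l 16452104) (a (a (a (l 16399856) (l 16409568)) (l 16424472)) (l 16454376)))))) (b (b (l 16701680) (a (l 16559408) (l 16594936))) (a (b (l 16537312) (c (l 16548120) (l 16484608))) (b (l 16584832) (l 16578088))))))), by decide +kernel⟩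

def k1_pm_112_b : ∃ t, chk3 f_pm_112_b t 3 1 1 = true :=
  ⟨(b (b (l 1) (a (a (a (b (l 16644304) (l 16630728)) (b (l 331819689223) (l 16621712))) (a (a (l 334504083479) (l 1)) (l 1))) (l 1))) (a (a (b (a (l 16806880) (l 16656752)) (a (b (l 16617568) (l 16624568)) (l 16656352))) (b (a (b (l 16586760) (l 16588816)) (a (b (b (l 16630272) (l 16558864)) (b (l 16558224) (l 16561304))) (b (b (l 1) (l 291554031079)) (b (l 16536040) (l 16537872))))) (a (b (l 16603768) (l 16633144)) (a (b (l 16572728) (l 16603032)) (b (b (l 16543240) (l 16552680)) (b (l 16566432) (l 16585128))))))) (a (b (a (b (l 1) (a (a (b (l 16517248) (l 16518112)) (b (b (l 1) (a (l 16506968) (l 16500040))) (b (l 16503720) (l 16504608)))) (a (a (b (l 175723994583) (b (l 165523424439) (l 137606135287))) (l 3)) (l 3)))) (l 3)) (a (b (a (b (a (l 16522176) (b (l 16506232) (l 16508696))) (c (l 16534520) (l 16509440))) (a (b (a (b (l 16494976) (l 16497096)) (b (l 181092663111) (a (l 16491328) (l 156933468007)))) (b (a (l 16500128) (l 16492208))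 (l 16500064))) (b (l 3) (a (c (l 164449712439) (l 213304919895)) (l 3))))) (a (b (l 16533944) (l 16550808)) (a (b (c (l 16520960) (l 16494432)) (l 16543664)) (b (a (b (l 105393916279) (l 16497856)) (b (l 176260847271) (l 130089975383))) (b (b (l 105393956935) (l 98951511607)) (c (l 16522480) (l 16493072))))))) (b (l 3) (a (a (b (l 3) (b (l 173039621655) (a (c (l 136532467863) (l 193977577623)) (l 3)))) (l 3)) (l 3))))) (l 3)))), by decide +kernel⟩

theorem s2_pm_112_b : ∃ t, chk3 f_pm_112_b t 1 1 1 = true := ex3_a k0_pm_112_b k1_pm_112_b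

theorem c_pm_112_b : CertB 536870912 536870912 1239849684 370763052 697932185 42949674 3 eng mog cd0q1 cd3q2b pd1 false true false .dn 1 1 2
    ndB0q1 ndB3q2b pcB1 Cut.none Ext.none :=
  certB0 (fam := false) (s1 := true) (s2 := false) (a := 1) (b := 1) (c := 2) (cn := .dn) (n1 := ndB0q1) (n2 := ndB3q2b) (pc := pcB1) (cut := Cut.none) (xt := Ext.none) (P1 := 536870912) (W1 := 536870912) (P2 := 1239849684) (W2 := 370763052) (P3 := 697932185) (W3 := 42949674) (N0 := 3) (En := eng) (mo := mog) (C1 := cd0q1) (C2 := cd3q2b) (C3 := pd1)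
    rfl s2_pm_112_b

noncomputable def cut_pm_113 : Cut := Cut.of [[⟨0, 1, 0, 67108864⟩, ⟨1, 1, 0, 67108864⟩, ⟨2, 2, 0, 16777216⟩]]

noncomputable def f_pm_113 : ℕ → ℕ → ℕ → ℕ → Bool := onCell 536870912 536870912 536870912 536870912 697932185 42949674
    (rowB 3 eng mog cd0q1 cd3q3 pd1 1 false true false .nn 1 1 3 (qsf 536870912 536870912 1610612736 536870912 1) ndB0q1 ndB3q3 pcB1 cut_pm_113 Ext.none)

def k0_pm_113 : ∃ t, chk3 f_pm_113 t 1 2 1 = true :=
  ⟨(a (a (l 1) (b (l 1) (a (l 1) (b (l 1) (a (l 1) (l 16597056)))))) (a (b (a (l 1) (b (l 1) (a (l 1) (b (l 1) (l 81637509319))))) (a (b (a (l 1) (l 16626080)) (a (l 16635720) (l 16675288))) (b (a (l 16622408) (b (l 16586648) (l 16635352))) (a (l 16710536) (l 16737904))))) (b (a (b (a (l 1) (l 3)) (a (a (b (l 1) (l 16522688)) (b (b (l 1) (l 89153542695)) (a (l 16504432) (l 16491856)))) (a (b (b (l 3) (l 224042298551)) (b (l 158544072807) (l 153175486279))) (l 3)))) (l 3)) (a (b (a (b (a (l 16563000) (l 16541408)) (a (l 16621808) (l 16605408)))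 (b (a (b (a (l 16510600) (l 205251995815)) (l 134921964743)) (l 3)) (a (b (l 16566648) (l 16608000)) (a (b (l 225116237335) (l 246054369991)) (l 3))))) (a (b (a (l 16699608) (l 16693312)) (a (l 16801240) (l 16809504))) (b (a (l 16682928) (a (b (l 16665552) (l 16702912)) (b (l 227263895767) (l 248738825687)))) (a (l 16794280) (b (a (l 16744760) (l 270213705975)) (l 16764032)))))) (b (l 3) (a (a (b (l 3) (b (l 241222671847) (l 255718233671))) (l 3)) (l 3))))))), by decide +kernel⟩

def k1_pm_113 : ∃ t, chk3 f_pm_113 t 2 3 1 = true :=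
  ⟨(a (b (a (l 1) (b (l 1) (a (l 1) (b (l 1) (l 120828814391))))) (a (b (a (l 1) (b (l 1) (l 120291715799))) (a (b (l 120291597399) (l 52645771319)) (b (c (l 51035279223) (l 16136576)) (c (l 16166576) (l 16091440))))) (b (a (b (l 126734276679) (l 48351058519)) (a (l 36540038743) (l 36003206359))) (a (b (l 16204800) (l 16167408)) (b (l 16246448) (l 16212784)))))) (b (a (b (a (l 1) (b (l 1) (l 16481336))) (a (b (b (l 1) (l 16401560)) (l 44593228103)) (b (b (l 16462896) (l 16451536)) (l 16437512)))) (b (a (l 16623432) (l 16596616)) (a (b (l 16519984) (l 16510336)) (b (l 16597736) (l 16601424))))) (a (a (b (a (l 16329304) (l 16356976)) (b (l 16301328) (l 16272480))) (b (a (l 16389832) (l 16428528)) (l 16367720))) (a (b (a (l 16472752) (l 16522600)) (l 16436432)) (b (l 16461616) (l 16435560)))))), by decide +kernel⟩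

def k2_pm_113 : ∃ t, chk3 f_pm_113 t 3 6 1 = true :=
  ⟨(a (a (b (a (l 16664800) (l 16746712)) (a (b (l 16691232) (l 16670168)) (b (l 16770824) (l 16716152)))) (b (a (l 16842952) (l 16940664)) (a (l 16808512) (l 16809192)))) (b (a (a (b (a (l 16931776) (l 16909008)) (l 16871360)) (b (a (l 16853472) (b (l 16790960) (l 16816752))) (a (a (l 16925936) (l 16898584)) (b (l 16844512) (l 16875632))))) (a (b (a (a (b (l 234243406263) (l 16781000)) (b (l 3) (l 243370222551))) (l 3)) (a (b (a (l 16808560) (b (l 16758984) (l 16793952))) (a (l 16840432) (l 135996033127))) (b (l 3) (a (l 217600523719) (l 3))))) (l 3))) (a (a (b (l 16988504) (l 16906072)) (b (a (l 16977552) (l 16882376)) (a (l 16954896) (l 16912568)))) (a (b (a (b (l 16861760) (l 16869160)) (a (b (l 180019638343) (l 16856456)) (b (l 3) (l 232096124663)))) (a (b (l 16914016) (l 16935120)) (b (a (l 16837272) (b (l 188609611383) (l 234243676135))) (c (l 148881035351) (a (l 16908256) (l 189683280583)))))) (a (b (l 3) (b (l 3) (b (l 3) (l 300278764855))))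 (l 3)))))), by decide +kernel⟩

def k3_pm_113 : ∃ t, chk3 f_pm_113 t 6 7 1 = true :=
  ⟨(a (b (a (l 16576264) (b (l 16665264) (l 16617632))) (a (l 16509600) (b (l 16573848) (l 16534224)))) (b (a (l 16699144) (l 16626536)) (a (l 16590504) (b (l 16681888) (l 16643504))))), by decide +kernel⟩

def k4_pm_113 : ∃ t, chk3 f_pm_113 t 7 14 1 = true :=
  ⟨(b (a (a (l 16838528) (a (l 16879576) (l 16900688))) (a (a (l 16876664) (b (a (l 16918304) (l 16811920)) (l 16831496))) (a (a (b (b (l 291688954231) (l 184314552311)) (c (l 16814344) (l 16833808))) (b (l 3) (l 328732952055))) (l 3)))) (a (a (l 16781592) (a (l 16817920) (l 16836776))) (a (a (l 16851888) (b (l 16880096) (l 16850264))) (a (a (b (l 16847208) (l 16858576)) (b (l 196662572855) (b (l 207400019367) (l 16799112)))) (a (b (l 3) (l 309405507159)) (l 3)))))), by decide +kernel⟩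

def k5_pm_113 : ∃ t, chk3 f_pm_113 t 7 15 1 = true :=
  ⟨(a (a (b (l 16733904) (l 16695056)) (b (l 16651416) (l 16736760))) (a (b (a (l 16695168) (b (l 16823992) (l 16800496))) (a (l 16757880) (b (l 16779632) (l 16761416)))) (a (b (b (a (l 16832008) (c (l 16842864) (l 16830608))) (c (l 16816984) (a (l 16801128) (l 16828344)))) (b (a (l 16787472) (l 16813328)) (a (l 16769008) (l 16773880)))) (b (b (a (a (b (l 205252511079) (l 176798326343)) (l 226727323239)) (l 3)) (b (a (a (l 16777952) (l 214916150055)) (l 3)) (b (a (a (l 16814048) (l 231022271063)) (l 3)) (a (c (l 16813752) (l 16813528)) (a (l 205252472999) (l 3)))))) (b (a (c (b (l 16816208) (l 16806104)) (a (l 16791816) (b (l 16820696) (l 16790392)))) (b (a (a (b (c (l 16810784) (l 16810040)) (c (l 16805400) (l 16810288))) (a (b (l 3) (l 205789341399)) (l 3))) (l 3)) (b (a (c (a (l 16800280) (c (l 16802432) (l 89288396823))) (c (l 185388284775) (l 175724606535))) (l 3)) (a (a (l 16803552) (c (c (l 16797224) (l 16800632)) (b (l 181630180855)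 (l 81772186503)))) (a (c (l 219747999575) (c (a (l 138680507799) (l 3)) (l 191830696839))) (l 3)))))) (b (b (a (l 16785376) (a (a (l 16788440) (c (l 16796680) (l 16793080))) (a (c (a (c (l 16792896) (l 22179515383)) (l 185925121911)) (b (a (l 160692206951) (l 3)) (c (l 180019557207) (a (l 95193948951) (l 134385522631))))) (l 3)))) (a (l 16780856) (a (c (l 16786224) (l 16782720)) (a (a (a (a (l 16791136) (l 6)) (l 6)) (l 6)) (l 6))))) (a (l 16795200) (a (a (l 16777224) (l 6)) (l 6))))))))), by decide +kernel⟩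

theorem s6_pm_113 : ∃ t, chk3 f_pm_113 t 7 7 1 = true := ex3_b k4_pm_113 k5_pm_113

theorem s7_pm_113 : ∃ t, chk3 f_pm_113 t 3 7 1 = true := ex3_a k3_pm_113 s6_pm_113

theorem s8_pm_113 : ∃ t, chk3 f_pm_113 t 3 3 1 = true := ex3_b k2_pm_113 s7_pm_113

theorem s9_pm_113 : ∃ t, chk3 f_pm_113 t 1 3 1 = true := ex3_a k1_pm_113 s8_pm_113

theorem s10_pm_113 : ∃ t, chk3 f_pm_113 t 1 1 1 = true := ex3_b k0_pm_113 s9_pm_113

theorem c_pm_113 : CertB 536870912 536870912 1610612736 536870912 697932185 42949674 3 eng mog cd0q1 cd3q3 pd1 false true false .nn 1 1 3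
    ndB0q1 ndB3q3 pcB1 cut_pm_113 Ext.none :=
  certB1 (fam := false) (s1 := true) (s2 := false) (a := 1) (b := 1) (c := 3) (cn := .nn) (n1 := ndB0q1) (n2 := ndB3q3) (pc := pcB1) (cut := cut_pm_113) (xt := Ext.none) (P1 := 536870912) (W1 := 536870912) (P2 := 1610612736) (W2 := 536870912) (P3 := 697932185) (W3 := 42949674) (N0 := 3) (En := eng) (mo := mog) (C1 := cd0q1) (C2 := cd3q3) (C3 := pd1)
    rfl (fun _ => rfl) s10_pm_113

noncomputable def cut_pm_123 : Cut := Cut.of [[⟨0, 1, 0, 67108864⟩, ⟨1, 1, 0, 67108864⟩, ⟨2, 2, 0, 16777216⟩]]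

noncomputable def f_pm_123 : ℕ → ℕ → ℕ → ℕ → Bool := onCell 536870912 536870912 1073741824 536870912 697932185 42949674
    (rowB 3 eng mog cd0q1 cd3q3 pd2 1 false true false .npn 1 2 3 (qsf 536870912 536870912 1610612736 536870912 2) ndB0q1 ndB3q3 pcB2 cut_pm_123 Ext.none)

def k0_pm_123 : ∃ t, chk3 f_pm_123 t 2 1 1 = true :=
  ⟨(b (a (b (a (b (a (b (b (l 16069432) (l 16066912)) (l 16063976)) (b (l 16108040) (l 16102576))) (a (l 16060952) (l 16097176))) (a (b (b (l 16147944) (l 16142744)) (l 16136968)) (b (l 16191104) (l 16183712)))) (a (b (b (l 16077192) (l 16084384)) (l 16161952)) (b (b (l 16156744) (l 16169736)) (b (l 16224976) (l 16285296))))) (b (a (a (b (l 16251128) (l 16227112)) (b (l 16308384) (l 16271416))) (a (b (l 16354568) (l 16314696)) (b (b (l 16408424) (l 16379736)) (l 16352840)))) (a (b (b (l 16242984) (a (l 16231896) (l 16274592))) (l 16427656)) (b (b (l 16326448) (b (l 16328768) (l 16350288))) (l 16435440))))) (a (b (b (a (l 16285752) (l 16374968)) (a (l 16411928) (l 16496240)))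 (a (b (l 16544184) (l 16648392)) (b (l 16620416) (l 16734784)))) (b (a (b (l 16468144) (l 16588640)) (b (l 16651904) (b (l 16655608) (l 2)))) (a (b (l 16713424) (l 2)) (l 2))))), by decide +kernel⟩

def k1_pm_123 : ∃ t, chk3 f_pm_123 t 3 1 1 = true :=
  ⟨(b (a (b (a (b (a (b (l 16439040) (l 16410672)) (b (l 16480776) (l 16451992))) (a (l 16385800) (l 16428640))) (b (a (a (l 16505840) (l 16534960)) (l 16619816)) (a (l 16491008) (l 16560520)))) (a (a (b (b (l 16380456) (l 16397368)) (l 16504072)) (b (b (b (l 16425936) (l 16431848)) (l 16455464)) (b (l 16530176) (l 16601784)))) (b (b (a (l 16697400) (b (l 16582552) (l 16621416))) (a (l 16542544) (l 16626264))) (a (l 16897096) (l 2))))) (b (b (a (a (b (l 16647816) (l 16629464)) (b (l 16696352) (l 16686280))) (a (b (a (l 16724176) (b (l 16742800) (l 16740768))) (a (l 16722672) (l 16828816))) (b (b (a (a (l 16753824) (l 16760992)) (a (a (l 16766272) (l 6)) (a (l 6) (b (l 6) (l 2))))) (a (a (l 16754432) (l 16763208)) (a (l 1073305496103) (l 2)))) (a (a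 (l 990627686647) (l 2)) (l 2))))) (b (a (a (l 16627688) (l 16685024)) (a (a (l 16733400) (l 2)) (l 2))) (a (a (l 16643512) (l 503685893367)) (l 2)))) (a (b (b (a (b (l 16662624) (l 2)) (l 2)) (l 2)) (l 2)) (l 2)))) (a (b (a (b (a (l 16637632) (l 2)) (l 2)) (l 2)) (l 2)) (l 2))), by decide +kernel⟩

theorem s2_pm_123 : ∃ t, chk3 f_pm_123 t 1 1 1 = true := ex3_a k0_pm_123 k1_pm_123

theorem c_pm_123 : CertB 536870912 536870912 1610612736 536870912 697932185 42949674 3 eng mog cd0q1 cd3q3 pd2 false true false .npn 1 2 3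
    ndB0q1 ndB3q3 pcB2 cut_pm_123 Ext.none :=
  certB1 (fam := false) (s1 := true) (s2 := false) (a := 1) (b := 2) (c := 3) (cn := .npn) (n1 := ndB0q1) (n2 := ndB3q3) (pc := pcB2) (cut := cut_pm_123) (xt := Ext.none) (P1 := 536870912) (W1 := 536870912) (P2 := 1610612736) (W2 := 536870912) (P3 := 697932185) (W3 := 42949674) (N0 := 3) (En := eng) (mo := mog) (C1 := cd0q1) (C2 := cd3q3) (C3 := pd2)
    rfl (fun _ => rfl) s2_pm_123

noncomputable def f_pm_133 : ℕ → ℕ → ℕ → ℕ → Bool := onCell 536870912 536870912 1610612736 536870912 697932185 42949674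
    (rowB 3 eng mog cd0q1 cd3q3 pd3 0 false true false .dn 1 3 3 (qsf 536870912 536870912 1610612736 536870912 3) ndB0q1 ndB3q3 pcB3 Cut.none Ext.none)

def k0_pm_133 : ∃ t, chk3 f_pm_133 t 1 1 1 = true :=
  ⟨(a (b (l 1) (a (b (l 1) (a (b (l 1) (l 16677560)) (l 1))) (l 1))) (l 1)), by decide +kernel⟩

theorem c_pm_133 : CertB 536870912 536870912 1610612736 536870912 697932185 42949674 3 eng mog cd0q1 cd3q3 pd3 false true false .dn 1 3 3
    ndB0q1 ndB3q3 pcB3 Cut.none Ext.none :=
  certB0 (fam := false) (s1 := true) (s2 := false) (a := 1) (b := 3) (c := 3) (cn := .dn) (n1 := ndB0q1) (n2 := ndB3q3) (pc := pcB3) (cut := Cut.none) (xt := Ext.none) (P1 := 536870912) (W1 := 536870912) (P2 := 1610612736) (W2 := 536870912) (P3 := 697932185) (W3 := 42949674) (N0 := 3) (En := eng) (mo := mog) (C1 := cd0q1) (C2 := cd3q3) (C3 := pd3)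
    rfl k0_pm_133

noncomputable def cut_pm_202_a : Cut := Cut.of [[⟨0, 1, 0, 67108864⟩, ⟨1, 0, 0, 67108864⟩, ⟨2, 1, 0, 67108864⟩]]

noncomputable def f_pm_202_a : ℕ → ℕ → ℕ → ℕ → Bool := onCell 0 536870912 0 536870912 697932185 42949674
    (rowB 3 eng mog cd0q2 cd3q2a pd0 0 false true false .pp 2 0 2 (qsf 0 536870912 0 536870912 0) ndB0q2 ndB3q2a pcB0 cut_pm_202_a Ext.none)

def k0_pm_202_a : ∃ t, chk3 f_pm_202_a t 1 1 1 = true :=
  ⟨(a (l 3) (b (l 3) (a (l 3) (b (l 3) (b (l 3) (a (l 3) (l 6))))))), by decide +kernel⟩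

theorem c_pm_202_a : CertB 0 536870912 0 536870912 697932185 42949674 3 eng mog cd0q2 cd3q2a pd0 false true false .pp 2 0 2
    ndB0q2 ndB3q2a pcB0 cut_pm_202_a Ext.none :=
  certB0 (fam := false) (s1 := true) (s2 := false) (a := 2) (b := 0) (c := 2) (cn := .pp) (n1 := ndB0q2) (n2 := ndB3q2a) (pc := pcB0) (cut := cut_pm_202_a) (xt := Ext.none) (P1 := 0) (W1 := 536870912) (P2 := 0) (W2 := 536870912) (P3 := 697932185) (W3 := 42949674) (N0 := 3) (En := eng) (mo := mog) (C1 := cd0q2) (C2 := cd3q2a) (C3 := pd0)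
    rfl k0_pm_202_a

noncomputable def cut_pm_202_b : Cut := Cut.of [[⟨0, 1, 0, 67108864⟩, ⟨1, 0, 0, 67108864⟩, ⟨2, 1, 0, 67108864⟩]]

noncomputable def f_pm_202_b : ℕ → ℕ → ℕ → ℕ → Bool := onCell 0 536870912 1239849684 370763052 697932185 42949674
    (rowB 3 eng mog cd0q2 cd3q2b pd0 0 false true false .pp 2 0 2 (qsf 0 536870912 1239849684 370763052 0) ndB0q2 ndB3q2b pcB0 cut_pm_202_b Ext.none)

def k0_pm_202_b : ∃ t, chk3 f_pm_202_b t 1 1 1 = true :=
  ⟨(l 3), by decide +kernel⟩

theorem c_pm_202_b : CertB 0 536870912 1239849684 370763052 697932185 42949674 3 eng mog cd0q2 cd3q2b pd0 false true false .pp 2 0 2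
    ndB0q2 ndB3q2b pcB0 cut_pm_202_b Ext.none :=
  certB0 (fam := false) (s1 := true) (s2 := false) (a := 2) (b := 0) (c := 2) (cn := .pp) (n1 := ndB0q2) (n2 := ndB3q2b) (pc := pcB0) (cut := cut_pm_202_b) (xt := Ext.none) (P1 := 0) (W1 := 536870912) (P2 := 1239849684) (W2 := 370763052) (P3 := 697932185) (W3 := 42949674) (N0 := 3) (En := eng) (mo := mog) (C1 := cd0q2) (C2 := cd3q2b) (C3 := pd0)
    rfl k0_pm_202_b

noncomputable def f_pm_203 : ℕ → ℕ → ℕ → ℕ → Bool := onCell 0 536870912 0 536870912 697932185 42949674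
    (rowB 3 eng mog cd0q2 cd3q3 pd0 1 false true false .up 2 0 3 (qsf 0 536870912 1610612736 536870912 0) ndB0q2 ndB3q3 pcB0 Cut.none Ext.none)

def k0_pm_203 : ∃ t, chk3 f_pm_203 t 1 1 1 = true :=
  ⟨(l 3), by decide +kernel⟩

theorem c_pm_203 : CertB 0 536870912 1610612736 536870912 697932185 42949674 3 eng mog cd0q2 cd3q3 pd0 false true false .up 2 0 3
    ndB0q2 ndB3q3 pcB0 Cut.none Ext.none :=
  certB1 (fam := false) (s1 := true) (s2 := false) (a := 2) (b := 0) (c := 3) (cn := .up) (n1 := ndB0q2) (n2 := ndB3q3) (pc := pcB0) (cut := Cut.none) (xt := Ext.none) (P1 := 0) (W1 := 536870912) (P2 := 1610612736) (W2 := 536870912) (P3 := 697932185) (W3 := 42949674) (N0 := 3) (En := eng) (mo := mog) (C1 := cd0q2) (C2 := cd3q3) (C3 := pd0)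
    rfl (fun _ => rfl) k0_pm_203

noncomputable def cut_pm_213 : Cut := Cut.of [[⟨0, 1, 0, 67108864⟩, ⟨1, 1, 0, 67108864⟩, ⟨2, 2, 0, 16777216⟩]]

noncomputable def f_pm_213 : ℕ → ℕ → ℕ → ℕ → Bool := onCell 0 536870912 1610612736 536870912 697932185 42949674
    (rowB 3 eng mog cd0q2 cd3q3 pd1 0 false true false .pnn 2 1 3 (qsf 0 536870912 1610612736 536870912 1) ndB0q2 ndB3q3 pcB1 cut_pm_213 Ext.none)

def k0_pm_213 : ∃ t, chk3 f_pm_213 t 1 1 1 = true :=
  ⟨(b (l 3) (a (l 3) (b (l 3) (a (l 3) (b (l 3) (b (l 3) (b (l 3) (b (l 3) (a (l 3) (l 6)))))))))), by decide +kernel⟩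

theorem c_pm_213 : CertB 0 536870912 1610612736 536870912 697932185 42949674 3 eng mog cd0q2 cd3q3 pd1 false true false .pnn 2 1 3
    ndB0q2 ndB3q3 pcB1 cut_pm_213 Ext.none :=
  certB0 (fam := false) (s1 := true) (s2 := false) (a := 2) (b := 1) (c := 3) (cn := .pnn) (n1 := ndB0q2) (n2 := ndB3q3) (pc := pcB1) (cut := cut_pm_213) (xt := Ext.none) (P1 := 0) (W1 := 536870912) (P2 := 1610612736) (W2 := 536870912) (P3 := 697932185) (W3 := 42949674) (N0 := 3) (En := eng) (mo := mog) (C1 := cd0q2) (C2 := cd3q3) (C3 := pd1)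
    rfl k0_pm_213

noncomputable def f_mm_001 : ℕ → ℕ → ℕ → ℕ → Bool := onCell 0 536870912 536870912 536870912 697932185 42949674
    (rowB 3 eng mog cd0q0 cd3q1 pd0 0 false false false .up 0 0 1 (qsf 0 536870912 536870912 536870912 0) ndB0q0 ndB3q1 pcB0 Cut.none Ext.none)

def k0_mm_001 : ∃ t, chk3 f_mm_001 t 1 1 1 = true :=
  ⟨(l 3), by decide +kernel⟩

theorem c_mm_001 : CertB 0 536870912 536870912 536870912 697932185 42949674 3 eng mog cd0q0 cd3q1 pd0 false false false .up 0 0 1
    ndB0q0 ndB3q1 pcB0 Cut.none Ext.none :=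
  certB0 (fam := false) (s1 := false) (s2 := false) (a := 0) (b := 0) (c := 1) (cn := .up) (n1 := ndB0q0) (n2 := ndB3q1) (pc := pcB0) (cut := Cut.none) (xt := Ext.none) (P1 := 0) (W1 := 536870912) (P2 := 536870912) (W2 := 536870912) (P3 := 697932185) (W3 := 42949674) (N0 := 3) (En := eng) (mo := mog) (C1 := cd0q0) (C2 := cd3q1) (C3 := pd0)
    rfl k0_mm_001

noncomputable def f_mm_011 : ℕ → ℕ → ℕ → ℕ → Bool := onCell 0 536870912 536870912 536870912 697932185 42949674
    (rowB 3 eng mog cd0q0 cd3q1 pd1 0 false false false .pnn 0 1 1 (qsf 0 536870912 536870912 536870912 1) ndB0q0 ndB3q1 pcB1 Cut.none Ext.none)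

def k0_mm_011 : ∃ t, chk3 f_mm_011 t 1 1 1 = true :=
  ⟨(l 3), by decide +kernel⟩

theorem c_mm_011 : CertB 0 536870912 536870912 536870912 697932185 42949674 3 eng mog cd0q0 cd3q1 pd1 false false false .pnn 0 1 1
    ndB0q0 ndB3q1 pcB1 Cut.none Ext.none :=
  certB0 (fam := false) (s1 := false) (s2 := false) (a := 0) (b := 1) (c := 1) (cn := .pnn) (n1 := ndB0q0) (n2 := ndB3q1) (pc := pcB1) (cut := Cut.none) (xt := Ext.none) (P1 := 0) (W1 := 536870912) (P2 := 536870912) (W2 := 536870912) (P3 := 697932185) (W3 := 42949674) (N0 := 3) (En := eng) (mo := mog) (C1 := cd0q0) (C2 := cd3q1) (C3 := pd1)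
    rfl k0_mm_011

noncomputable def f_mm_012_a : ℕ → ℕ → ℕ → ℕ → Bool := onCell 0 536870912 0 536870912 697932185 42949674
    (rowB 3 eng mog cd0q0 cd3q2a pd1 0 false false false .pnp 0 1 2 (qsf 0 536870912 0 536870912 1) ndB0q0 ndB3q2a pcB1 Cut.none Ext.none)

def k0_mm_012_a : ∃ t, chk3 f_mm_012_a t 1 1 1 = true :=
  ⟨(l 5), by decide +kernel⟩

theorem c_mm_012_a : CertB 0 536870912 0 536870912 697932185 42949674 3 eng mog cd0q0 cd3q2a pd1 false false false .pnp 0 1 2
    ndB0q0 ndB3q2a pcB1 Cut.none Ext.none :=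
  certB0 (fam := false) (s1 := false) (s2 := false) (a := 0) (b := 1) (c := 2) (cn := .pnp) (n1 := ndB0q0) (n2 := ndB3q2a) (pc := pcB1) (cut := Cut.none) (xt := Ext.none) (P1 := 0) (W1 := 536870912) (P2 := 0) (W2 := 536870912) (P3 := 697932185) (W3 := 42949674) (N0 := 3) (En := eng) (mo := mog) (C1 := cd0q0) (C2 := cd3q2a) (C3 := pd1)
    rfl k0_mm_012_a

noncomputable def f_mm_012_b : ℕ → ℕ → ℕ → ℕ → Bool := onCell 0 536870912 1239849684 370763052 697932185 42949674
    (rowB 3 eng mog cd0q0 cd3q2b pd1 0 false false false .pnp 0 1 2 (qsf 0 536870912 1239849684 370763052 1) ndB0q0 ndB3q2b pcB1 Cut.none Ext.none)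

def k0_mm_012_b : ∃ t, chk3 f_mm_012_b t 1 1 1 = true :=
  ⟨(l 5), by decide +kernel⟩

theorem c_mm_012_b : CertB 0 536870912 1239849684 370763052 697932185 42949674 3 eng mog cd0q0 cd3q2b pd1 false false false .pnp 0 1 2
    ndB0q0 ndB3q2b pcB1 Cut.none Ext.none :=
  certB0 (fam := false) (s1 := false) (s2 := false) (a := 0) (b := 1) (c := 2) (cn := .pnp) (n1 := ndB0q0) (n2 := ndB3q2b) (pc := pcB1) (cut := Cut.none) (xt := Ext.none) (P1 := 0) (W1 := 536870912) (P2 := 1239849684) (W2 := 370763052) (P3 := 697932185) (W3 := 42949674) (N0 := 3) (En := eng) (mo := mog) (C1 := cd0q0) (C2 := cd3q2b) (C3 := pd1)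
    rfl k0_mm_012_b

noncomputable def f_mm_022_a : ℕ → ℕ → ℕ → ℕ → Bool := onCell 0 536870912 0 536870912 697932185 42949674
    (rowB 3 eng mog cd0q0 cd3q2a pd2 0 false false false .pp 0 2 2 (qsf 0 536870912 0 536870912 2) ndB0q0 ndB3q2a pcB2 Cut.none Ext.none)

def k0_mm_022_a : ∃ t, chk3 f_mm_022_a t 1 1 1 = true :=
  ⟨(l 5), by decide +kernel⟩

theorem c_mm_022_a : CertB 0 536870912 0 536870912 697932185 42949674 3 eng mog cd0q0 cd3q2a pd2 false false false .pp 0 2 2
    ndB0q0 ndB3q2a pcB2 Cut.none Ext.none :=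
  certB0 (fam := false) (s1 := false) (s2 := false) (a := 0) (b := 2) (c := 2) (cn := .pp) (n1 := ndB0q0) (n2 := ndB3q2a) (pc := pcB2) (cut := Cut.none) (xt := Ext.none) (P1 := 0) (W1 := 536870912) (P2 := 0) (W2 := 536870912) (P3 := 697932185) (W3 := 42949674) (N0 := 3) (En := eng) (mo := mog) (C1 := cd0q0) (C2 := cd3q2a) (C3 := pd2)
    rfl k0_mm_022_a

noncomputable def f_mm_022_b : ℕ → ℕ → ℕ → ℕ → Bool := onCell 0 536870912 1239849684 370763052 697932185 42949674
    (rowB 3 eng mog cd0q0 cd3q2b pd2 0 false false false .pp 0 2 2 (qsf 0 536870912 1239849684 370763052 2) ndB0q0 ndB3q2b pcB2 Cut.none Ext.none)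

def k0_mm_022_b : ∃ t, chk3 f_mm_022_b t 1 1 1 = true :=
  ⟨(l 5), by decide +kernel⟩

theorem c_mm_022_b : CertB 0 536870912 1239849684 370763052 697932185 42949674 3 eng mog cd0q0 cd3q2b pd2 false false false .pp 0 2 2
    ndB0q0 ndB3q2b pcB2 Cut.none Ext.none :=
  certB0 (fam := false) (s1 := false) (s2 := false) (a := 0) (b := 2) (c := 2) (cn := .pp) (n1 := ndB0q0) (n2 := ndB3q2b) (pc := pcB2) (cut := Cut.none) (xt := Ext.none) (P1 := 0) (W1 := 536870912) (P2 := 1239849684) (W2 := 370763052) (P3 := 697932185) (W3 := 42949674) (N0 := 3) (En := eng) (mo := mog) (C1 := cd0q0) (C2 := cd3q2b) (C3 := pd2)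
    rfl k0_mm_022_b

noncomputable def f_mm_023 : ℕ → ℕ → ℕ → ℕ → Bool := onCell 0 536870912 1610612736 536870912 697932185 42949674
    (rowB 3 eng mog cd0q0 cd3q3 pd2 0 false false false .up 0 2 3 (qsf 0 536870912 1610612736 536870912 2) ndB0q0 ndB3q3 pcB2 Cut.none Ext.none)

def k0_mm_023 : ∃ t, chk3 f_mm_023 t 1 1 1 = true :=
  ⟨(l 5), by decide +kernel⟩

theorem c_mm_023 : CertB 0 536870912 1610612736 536870912 697932185 42949674 3 eng mog cd0q0 cd3q3 pd2 false false false .up 0 2 3
    ndB0q0 ndB3q3 pcB2 Cut.none Ext.none :=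
  certB0 (fam := false) (s1 := false) (s2 := false) (a := 0) (b := 2) (c := 3) (cn := .up) (n1 := ndB0q0) (n2 := ndB3q3) (pc := pcB2) (cut := Cut.none) (xt := Ext.none) (P1 := 0) (W1 := 536870912) (P2 := 1610612736) (W2 := 536870912) (P3 := 697932185) (W3 := 42949674) (N0 := 3) (En := eng) (mo := mog) (C1 := cd0q0) (C2 := cd3q3) (C3 := pd2)
    rfl k0_mm_023

noncomputable def f_mm_033 : ℕ → ℕ → ℕ → ℕ → Bool := onCell 0 536870912 1610612736 536870912 697932185 42949674
    (rowB 3 eng mog cd0q0 cd3q3 pd3 0 false false false .pnn 0 3 3 (qsf 0 536870912 1610612736 536870912 3) ndB0q0 ndB3q3 pcB3 Cut.none Ext.none)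

def k0_mm_033 : ∃ t, chk3 f_mm_033 t 1 1 1 = true :=
  ⟨(l 5), by decide +kernel⟩

theorem c_mm_033 : CertB 0 536870912 1610612736 536870912 697932185 42949674 3 eng mog cd0q0 cd3q3 pd3 false false false .pnn 0 3 3
    ndB0q0 ndB3q3 pcB3 Cut.none Ext.none :=
  certB0 (fam := false) (s1 := false) (s2 := false) (a := 0) (b := 3) (c := 3) (cn := .pnn) (n1 := ndB0q0) (n2 := ndB3q3) (pc := pcB3) (cut := Cut.none) (xt := Ext.none) (P1 := 0) (W1 := 536870912) (P2 := 1610612736) (W2 := 536870912) (P3 := 697932185) (W3 := 42949674) (N0 := 3) (En := eng) (mo := mog) (C1 := cd0q0) (C2 := cd3q3) (C3 := pd3)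
    rfl k0_mm_033

noncomputable def f_mm_101 : ℕ → ℕ → ℕ → ℕ → Bool := onCell 536870912 536870912 536870912 536870912 697932185 42949674
    (rowB 3 eng mog cd0q1 cd3q1 pd0 0 false false false .npn 1 0 1 (qsf 536870912 536870912 536870912 536870912 0) ndB0q1 ndB3q1 pcB0 Cut.none Ext.none)

def k0_mm_101 : ∃ t, chk3 f_mm_101 t 1 1 1 = true :=
  ⟨(l 3), by decide +kernel⟩

theorem c_mm_101 : CertB 536870912 536870912 536870912 536870912 697932185 42949674 3 eng mog cd0q1 cd3q1 pd0 false false false .npn 1 0 1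
    ndB0q1 ndB3q1 pcB0 Cut.none Ext.none :=
  certB0 (fam := false) (s1 := false) (s2 := false) (a := 1) (b := 0) (c := 1) (cn := .npn) (n1 := ndB0q1) (n2 := ndB3q1) (pc := pcB0) (cut := Cut.none) (xt := Ext.none) (P1 := 536870912) (W1 := 536870912) (P2 := 536870912) (W2 := 536870912) (P3 := 697932185) (W3 := 42949674) (N0 := 3) (En := eng) (mo := mog) (C1 := cd0q1) (C2 := cd3q1) (C3 := pd0)
    rfl k0_mm_101

noncomputable def f_mm_102_a : ℕ → ℕ → ℕ → ℕ → Bool := onCell 536870912 536870912 0 536870912 697932185 42949674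
    (rowB 3 eng mog cd0q1 cd3q2a pd0 0 false false false .npp 1 0 2 (qsf 536870912 536870912 0 536870912 0) ndB0q1 ndB3q2a pcB0 Cut.none Ext.none)

def k0_mm_102_a : ∃ t, chk3 f_mm_102_a t 1 1 1 = true :=
  ⟨(l 3), by decide +kernel⟩

theorem c_mm_102_a : CertB 536870912 536870912 0 536870912 697932185 42949674 3 eng mog cd0q1 cd3q2a pd0 false false false .npp 1 0 2
    ndB0q1 ndB3q2a pcB0 Cut.none Ext.none :=
  certB0 (fam := false) (s1 := false) (s2 := false) (a := 1) (b := 0) (c := 2) (cn := .npp) (n1 := ndB0q1) (n2 := ndB3q2a) (pc := pcB0) (cut := Cut.none) (xt := Ext.none) (P1 := 536870912) (W1 := 536870912) (P2 := 0) (W2 := 536870912) (P3 := 697932185) (W3 := 42949674) (N0 := 3) (En := eng) (mo := mog) (C1 := cd0q1) (C2 := cd3q2a) (C3 := pd0)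
    rfl k0_mm_102_a

noncomputable def f_mm_102_b : ℕ → ℕ → ℕ → ℕ → Bool := onCell 536870912 536870912 1239849684 370763052 697932185 42949674
    (rowB 3 eng mog cd0q1 cd3q2b pd0 0 false false false .npp 1 0 2 (qsf 536870912 536870912 1239849684 370763052 0) ndB0q1 ndB3q2b pcB0 Cut.none Ext.none)

def k0_mm_102_b : ∃ t, chk3 f_mm_102_b t 1 1 1 = true :=
  ⟨(l 5), by decide +kernel⟩

theorem c_mm_102_b : CertB 536870912 536870912 1239849684 370763052 697932185 42949674 3 eng mog cd0q1 cd3q2b pd0 false false false .npp 1 0 2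
    ndB0q1 ndB3q2b pcB0 Cut.none Ext.none :=
  certB0 (fam := false) (s1 := false) (s2 := false) (a := 1) (b := 0) (c := 2) (cn := .npp) (n1 := ndB0q1) (n2 := ndB3q2b) (pc := pcB0) (cut := Cut.none) (xt := Ext.none) (P1 := 536870912) (W1 := 536870912) (P2 := 1239849684) (W2 := 370763052) (P3 := 697932185) (W3 := 42949674) (N0 := 3) (En := eng) (mo := mog) (C1 := cd0q1) (C2 := cd3q2b) (C3 := pd0)
    rfl k0_mm_102_b

noncomputable def f_mm_112_a : ℕ → ℕ → ℕ → ℕ → Bool := onCell 536870912 536870912 0 536870912 697932185 42949674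
    (rowB 3 eng mog cd0q1 cd3q2a pd1 0 false false false .dn 1 1 2 (qsf 536870912 536870912 0 536870912 1) ndB0q1 ndB3q2a pcB1 Cut.none Ext.none)

def k0_mm_112_a : ∃ t, chk3 f_mm_112_a t 1 1 1 = true :=
  ⟨(l 3), by decide +kernel⟩

theorem c_mm_112_a : CertB 536870912 536870912 0 536870912 697932185 42949674 3 eng mog cd0q1 cd3q2a pd1 false false false .dn 1 1 2
    ndB0q1 ndB3q2a pcB1 Cut.none Ext.none :=
  certB0 (fam := false) (s1 := false) (s2 := false) (a := 1) (b := 1) (c := 2) (cn := .dn) (n1 := ndB0q1) (n2 := ndB3q2a) (pc := pcB1) (cut := Cut.none) (xt := Ext.none) (P1 := 536870912) (W1 := 536870912) (P2 := 0) (W2 := 536870912) (P3 := 697932185) (W3 := 42949674) (N0 := 3) (En := eng) (mo := mog) (C1 := cd0q1) (C2 := cd3q2a) (C3 := pd1)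
    rfl k0_mm_112_a

noncomputable def f_mm_112_b : ℕ → ℕ → ℕ → ℕ → Bool := onCell 536870912 536870912 1239849684 370763052 697932185 42949674
    (rowB 3 eng mog cd0q1 cd3q2b pd1 0 false false false .dn 1 1 2 (qsf 536870912 536870912 1239849684 370763052 1) ndB0q1 ndB3q2b pcB1 Cut.none Ext.none)

def k0_mm_112_b : ∃ t, chk3 f_mm_112_b t 1 1 1 = true :=
  ⟨(l 5), by decide +kernel⟩

theorem c_mm_112_b : CertB 536870912 536870912 1239849684 370763052 697932185 42949674 3 eng mog cd0q1 cd3q2b pd1 false false false .dn 1 1 2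
    ndB0q1 ndB3q2b pcB1 Cut.none Ext.none :=
  certB0 (fam := false) (s1 := false) (s2 := false) (a := 1) (b := 1) (c := 2) (cn := .dn) (n1 := ndB0q1) (n2 := ndB3q2b) (pc := pcB1) (cut := Cut.none) (xt := Ext.none) (P1 := 536870912) (W1 := 536870912) (P2 := 1239849684) (W2 := 370763052) (P3 := 697932185) (W3 := 42949674) (N0 := 3) (En := eng) (mo := mog) (C1 := cd0q1) (C2 := cd3q2b) (C3 := pd1)
    rfl k0_mm_112_b

noncomputable def f_mm_113 : ℕ → ℕ → ℕ → ℕ → Bool := onCell 536870912 536870912 1610612736 536870912 697932185 42949674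
    (rowB 3 eng mog cd0q1 cd3q3 pd1 0 false false false .nn 1 1 3 (qsf 536870912 536870912 1610612736 536870912 1) ndB0q1 ndB3q3 pcB1 Cut.none Ext.none)

def k0_mm_113 : ∃ t, chk3 f_mm_113 t 1 1 1 = true :=
  ⟨(l 5), by decide +kernel⟩

theorem c_mm_113 : CertB 536870912 536870912 1610612736 536870912 697932185 42949674 3 eng mog cd0q1 cd3q3 pd1 false false false .nn 1 1 3
    ndB0q1 ndB3q3 pcB1 Cut.none Ext.none :=
  certB0 (fam := false) (s1 := false) (s2 := false) (a := 1) (b := 1) (c := 3) (cn := .nn) (n1 := ndB0q1) (n2 := ndB3q3) (pc := pcB1) (cut := Cut.none) (xt := Ext.none) (P1 := 536870912) (W1 := 536870912) (P2 := 1610612736) (W2 := 536870912) (P3 := 697932185) (W3 := 42949674) (N0 := 3) (En := eng) (mo := mog) (C1 := cd0q1) (C2 := cd3q3) (C3 := pd1)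
    rfl k0_mm_113

noncomputable def f_mm_123 : ℕ → ℕ → ℕ → ℕ → Bool := onCell 536870912 536870912 1610612736 536870912 697932185 42949674
    (rowB 3 eng mog cd0q1 cd3q3 pd2 0 false false false .npn 1 2 3 (qsf 536870912 536870912 1610612736 536870912 2) ndB0q1 ndB3q3 pcB2 Cut.none Ext.none)

def k0_mm_123 : ∃ t, chk3 f_mm_123 t 1 1 1 = true :=
  ⟨(l 5), by decide +kernel⟩

theorem c_mm_123 : CertB 536870912 536870912 1610612736 536870912 697932185 42949674 3 eng mog cd0q1 cd3q3 pd2 false false false .npn 1 2 3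
    ndB0q1 ndB3q3 pcB2 Cut.none Ext.none :=
  certB0 (fam := false) (s1 := false) (s2 := false) (a := 1) (b := 2) (c := 3) (cn := .npn) (n1 := ndB0q1) (n2 := ndB3q3) (pc := pcB2) (cut := Cut.none) (xt := Ext.none) (P1 := 536870912) (W1 := 536870912) (P2 := 1610612736) (W2 := 536870912) (P3 := 697932185) (W3 := 42949674) (N0 := 3) (En := eng) (mo := mog) (C1 := cd0q1) (C2 := cd3q3) (C3 := pd2)
    rfl k0_mm_123

noncomputable def f_mm_133 : ℕ → ℕ → ℕ → ℕ → Bool := onCell 536870912 536870912 1610612736 536870912 697932185 42949674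
    (rowB 3 eng mog cd0q1 cd3q3 pd3 0 false false false .dn 1 3 3 (qsf 536870912 536870912 1610612736 536870912 3) ndB0q1 ndB3q3 pcB3 Cut.none Ext.none)

def k0_mm_133 : ∃ t, chk3 f_mm_133 t 1 1 1 = true :=
  ⟨(l 5), by decide +kernel⟩

theorem c_mm_133 : CertB 536870912 536870912 1610612736 536870912 697932185 42949674 3 eng mog cd0q1 cd3q3 pd3 false false false .dn 1 3 3
    ndB0q1 ndB3q3 pcB3 Cut.none Ext.none :=
  certB0 (fam := false) (s1 := false) (s2 := false) (a := 1) (b := 3) (c := 3) (cn := .dn) (n1 := ndB0q1) (n2 := ndB3q3) (pc := pcB3) (cut := Cut.none) (xt := Ext.none) (P1 := 536870912) (W1 := 536870912) (P2 := 1610612736) (W2 := 536870912) (P3 := 697932185) (W3 := 42949674) (N0 := 3) (En := eng) (mo := mog) (C1 := cd0q1) (C2 := cd3q3) (C3 := pd3)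
    rfl k0_mm_133

noncomputable def f_mm_202_a : ℕ → ℕ → ℕ → ℕ → Bool := onCell 0 536870912 0 536870912 697932185 42949674
    (rowB 3 eng mog cd0q2 cd3q2a pd0 0 false false false .pp 2 0 2 (qsf 0 536870912 0 536870912 0) ndB0q2 ndB3q2a pcB0 Cut.none Ext.none)

def k0_mm_202_a : ∃ t, chk3 f_mm_202_a t 1 1 1 = true :=
  ⟨(l 3), by decide +kernel⟩

theorem c_mm_202_a : CertB 0 536870912 0 536870912 697932185 42949674 3 eng mog cd0q2 cd3q2a pd0 false false false .pp 2 0 2
    ndB0q2 ndB3q2a pcB0 Cut.none Ext.none :=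
  certB0 (fam := false) (s1 := false) (s2 := false) (a := 2) (b := 0) (c := 2) (cn := .pp) (n1 := ndB0q2) (n2 := ndB3q2a) (pc := pcB0) (cut := Cut.none) (xt := Ext.none) (P1 := 0) (W1 := 536870912) (P2 := 0) (W2 := 536870912) (P3 := 697932185) (W3 := 42949674) (N0 := 3) (En := eng) (mo := mog) (C1 := cd0q2) (C2 := cd3q2a) (C3 := pd0)
    rfl k0_mm_202_a

noncomputable def f_mm_202_b : ℕ → ℕ → ℕ → ℕ → Bool := onCell 0 536870912 1239849684 370763052 697932185 42949674
    (rowB 3 eng mog cd0q2 cd3q2b pd0 0 false false false .pp 2 0 2 (qsf 0 536870912 1239849684 370763052 0) ndB0q2 ndB3q2b pcB0 Cut.none Ext.none)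

def k0_mm_202_b : ∃ t, chk3 f_mm_202_b t 1 1 1 = true :=
  ⟨(l 3), by decide +kernel⟩

theorem c_mm_202_b : CertB 0 536870912 1239849684 370763052 697932185 42949674 3 eng mog cd0q2 cd3q2b pd0 false false false .pp 2 0 2
    ndB0q2 ndB3q2b pcB0 Cut.none Ext.none :=
  certB0 (fam := false) (s1 := false) (s2 := false) (a := 2) (b := 0) (c := 2) (cn := .pp) (n1 := ndB0q2) (n2 := ndB3q2b) (pc := pcB0) (cut := Cut.none) (xt := Ext.none) (P1 := 0) (W1 := 536870912) (P2 := 1239849684) (W2 := 370763052) (P3 := 697932185) (W3 := 42949674) (N0 := 3) (En := eng) (mo := mog) (C1 := cd0q2) (C2 := cd3q2b) (C3 := pd0)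
    rfl k0_mm_202_b

noncomputable def f_mm_203 : ℕ → ℕ → ℕ → ℕ → Bool := onCell 0 536870912 0 536870912 697932185 42949674
    (rowB 3 eng mog cd0q2 cd3q3 pd0 1 false false false .up 2 0 3 (qsf 0 536870912 1610612736 536870912 0) ndB0q2 ndB3q3 pcB0 Cut.none Ext.none)

def k0_mm_203 : ∃ t, chk3 f_mm_203 t 1 1 1 = true :=
  ⟨(l 3), by decide +kernel⟩

theorem c_mm_203 : CertB 0 536870912 1610612736 536870912 697932185 42949674 3 eng mog cd0q2 cd3q3 pd0 false false false .up 2 0 3
    ndB0q2 ndB3q3 pcB0 Cut.none Ext.none :=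
  certB1 (fam := false) (s1 := false) (s2 := false) (a := 2) (b := 0) (c := 3) (cn := .up) (n1 := ndB0q2) (n2 := ndB3q3) (pc := pcB0) (cut := Cut.none) (xt := Ext.none) (P1 := 0) (W1 := 536870912) (P2 := 1610612736) (W2 := 536870912) (P3 := 697932185) (W3 := 42949674) (N0 := 3) (En := eng) (mo := mog) (C1 := cd0q2) (C2 := cd3q3) (C3 := pd0)
    rfl (fun _ => rfl) k0_mm_203

noncomputable def f_mm_213 : ℕ → ℕ → ℕ → ℕ → Bool := onCell 0 536870912 1610612736 536870912 697932185 42949674
    (rowB 3 eng mog cd0q2 cd3q3 pd1 0 false false false .pnn 2 1 3 (qsf 0 536870912 1610612736 536870912 1) ndB0q2 ndB3q3 pcB1 Cut.none Ext.none)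

def k0_mm_213 : ∃ t, chk3 f_mm_213 t 1 1 1 = true :=
  ⟨(a (l 3) (l 5)), by decide +kernel⟩

theorem c_mm_213 : CertB 0 536870912 1610612736 536870912 697932185 42949674 3 eng mog cd0q2 cd3q3 pd1 false false false .pnn 2 1 3
    ndB0q2 ndB3q3 pcB1 Cut.none Ext.none :=
  certB0 (fam := false) (s1 := false) (s2 := false) (a := 2) (b := 1) (c := 3) (cn := .pnn) (n1 := ndB0q2) (n2 := ndB3q3) (pc := pcB1) (cut := Cut.none) (xt := Ext.none) (P1 := 0) (W1 := 536870912) (P2 := 1610612736) (W2 := 536870912) (P3 := 697932185) (W3 := 42949674) (N0 := 3) (En := eng) (mo := mog) (C1 := cd0q2) (C2 := cd3q3) (C3 := pd1)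
    rfl k0_mm_213

end Pool.Agent.Strip051.G.I6500_6900.Tab.C.BB03

namespace Pool.Agent.Strip051.G.I6500_6900.Tab.C.BB04

open Pool.Agent.Strip051.PB Pool.Agent.Strip051.PB.T
open Pool.Agent.Strip051.G.I6500_6900.Tab

noncomputable def f_pp_001 : ℕ → ℕ → ℕ → ℕ → Bool := onCell 0 536870912 0 536870912 697932185 42949674
    (rowB 3 eng mog cd0q0 cd4q1 pd0 1 false true true .up 0 0 1 (qsf 0 536870912 536870912 536870912 0) ndB0q0 ndB4q1 pcB0 Cut.none Ext.none)

def k0_pp_001 : ∃ t, chk3 f_pp_001 t 1 1 1 = true :=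
  ⟨(l 3), by decide +kernel⟩

theorem c_pp_001 : CertB 0 536870912 536870912 536870912 697932185 42949674 3 eng mog cd0q0 cd4q1 pd0 false true true .up 0 0 1
    ndB0q0 ndB4q1 pcB0 Cut.none Ext.none :=
  certB1 (fam := false) (s1 := true) (s2 := true) (a := 0) (b := 0) (c := 1) (cn := .up) (n1 := ndB0q0) (n2 := ndB4q1) (pc := pcB0) (cut := Cut.none) (xt := Ext.none) (P1 := 0) (W1 := 536870912) (P2 := 536870912) (W2 := 536870912) (P3 := 697932185) (W3 := 42949674) (N0 := 3) (En := eng) (mo := mog) (C1 := cd0q0) (C2 := cd4q1) (C3 := pd0)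
    rfl (fun _ => rfl) k0_pp_001

noncomputable def f_pp_011 : ℕ → ℕ → ℕ → ℕ → Bool := onCell 0 536870912 536870912 536870912 697932185 42949674
    (rowB 3 eng mog cd0q0 cd4q1 pd1 0 false true true .pnn 0 1 1 (qsf 0 536870912 536870912 536870912 1) ndB0q0 ndB4q1 pcB1 Cut.none Ext.none)

def k0_pp_011 : ∃ t, chk3 f_pp_011 t 1 1 1 = true :=
  ⟨(a (l 3) (l 3)), by decide +kernel⟩

theorem c_pp_011 : CertB 0 536870912 536870912 536870912 697932185 42949674 3 eng mog cd0q0 cd4q1 pd1 false true true .pnn 0 1 1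
    ndB0q0 ndB4q1 pcB1 Cut.none Ext.none :=
  certB0 (fam := false) (s1 := true) (s2 := true) (a := 0) (b := 1) (c := 1) (cn := .pnn) (n1 := ndB0q0) (n2 := ndB4q1) (pc := pcB1) (cut := Cut.none) (xt := Ext.none) (P1 := 0) (W1 := 536870912) (P2 := 536870912) (W2 := 536870912) (P3 := 697932185) (W3 := 42949674) (N0 := 3) (En := eng) (mo := mog) (C1 := cd0q0) (C2 := cd4q1) (C3 := pd1)
    rfl k0_pp_011

noncomputable def cut_pp_012_a : Cut := Cut.of [[⟨0, 0, 0, 67108864⟩, ⟨1, 1, 0, 67108864⟩, ⟨2, 1, 0, 67108864⟩]]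

noncomputable def f_pp_012_a : ℕ → ℕ → ℕ → ℕ → Bool := onCell 536870912 536870912 0 536870912 697932185 42949674
    (rowB 3 eng mog cd0q0 cd4q2a pd1 2 false true true .pnp 0 1 2 (qsf 0 536870912 0 536870912 1) ndB0q0 ndB4q2a pcB1 cut_pp_012_a Ext.none)

def k0_pp_012_a : ∃ t, chk3 f_pp_012_a t 2 1 1 = true :=
  ⟨(l 3), by decide +kernel⟩

def k1_pp_012_a : ∃ t, chk3 f_pp_012_a t 6 1 1 = true :=
  ⟨(l 3), by decide +kernel⟩

def k2_pp_012_a : ∃ t, chk3 f_pp_012_a t 14 1 1 = true :=
  ⟨(l 3), by decide +kernel⟩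

def k3_pp_012_a : ∃ t, chk3 f_pp_012_a t 30 1 1 = true :=
  ⟨(b (b (a (l 3) (b (a (l 3) (c (l 201494071655) (l 107004801351))) (l 3))) (l 3)) (l 3)), by decide +kernel⟩

def k4_pp_012_a : ∃ t, chk3 f_pp_012_a t 31 1 1 = true :=
  ⟨(a (b (b (b (a (b (l 16620904) (l 86603711623)) (b (l 16614016) (l 16613904))) (a (c (b (l 88214327719) (l 90361821591)) (b (l 16621144) (l 16624688))) (b (l 16615432) (l 16639568)))) (b (b (a (l 105394180711) (c (l 16646392) (l 16621264))) (a (l 3) (c (l 70497600343) (l 16627688)))) (a (l 3) (b (c (l 73181965303) (l 16635824)) (c (b (l 16646736) (l 16651928)) (l 16656152)))))) (b (b (a (l 3) (a (l 3) (a (l 3) (b (l 93046208151) (l 3))))) (l 3)) (l 3))) (b (b (b (a (l 16607048) (l 16599888)) (a (b (l 16607992) (l 16610896)) (l 16622840))) (b (a (b (l 16615360) (l 16621392)) (b (l 16607216) (l 16612984))) (a (b (l 16628992) (c (l 16660992) (l 16636272))) (b (l 16620304) (b (l 16626752) (l 16631624)))))) (b (b (a (b (b (a (l 16648232) (l 16643736)) (a (l 16654128) (l 16649536)))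 (a (b (l 16660496) (l 16667376)) (b (l 16655768) (l 16662472)))) (b (b (l 16636920) (l 16642672)) (a (l 16665048) (l 16649896)))) (b (a (a (b (l 16674792) (l 3)) (b (b (l 16667800) (l 16671528)) (c (l 16678696) (l 32916712663)))) (a (b (l 16665016) (l 16672648)) (b (l 16660304) (l 16667904)))) (a (a (l 3) (b (b (l 28084882535) (l 19494956711)) (a (l 3) (c (l 16694120) (l 16698576))))) (a (b (c (l 16681960) (l 16679560)) (a (l 16701048) (l 16688184))) (b (l 16675976) (l 16684568)))))) (b (b (a (a (l 3) (b (b (l 16704008) (l 3)) (l 3))) (a (a (b (c (l 16700672) (l 16705336)) (b (l 16706920) (l 16711944))) (b (l 16697296) (b (l 16704424) (l 16709352)))) (a (b (l 16694888) (l 16704456)) (b (l 16692448) (l 16702000))))) (a (l 3) (a (a (a (l 3) (l 6)) (l 6)) (l 6)))) (l 6))))), by decide +kernel⟩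

theorem s5_pp_012_a : ∃ t, chk3 f_pp_012_a t 15 1 1 = true := ex3_a k3_pp_012_a k4_pp_012_a

theorem s6_pp_012_a : ∃ t, chk3 f_pp_012_a t 7 1 1 = true := ex3_a k2_pp_012_a s5_pp_012_a

theorem s7_pp_012_a : ∃ t, chk3 f_pp_012_a t 3 1 1 = true := ex3_a k1_pp_012_a s6_pp_012_a

theorem s8_pp_012_a : ∃ t, chk3 f_pp_012_a t 1 1 1 = true := ex3_a k0_pp_012_a s7_pp_012_a

theorem c_pp_012_a : CertB 0 536870912 0 536870912 697932185 42949674 3 eng mog cd0q0 cd4q2a pd1 false true true .pnp 0 1 2
    ndB0q0 ndB4q2a pcB1 cut_pp_012_a Ext.none :=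
  certB2 (fam := false) (s1 := true) (s2 := true) (a := 0) (b := 1) (c := 2) (cn := .pnp) (n1 := ndB0q0) (n2 := ndB4q2a) (pc := pcB1) (cut := cut_pp_012_a) (xt := Ext.none) (P1 := 0) (W1 := 536870912) (P2 := 0) (W2 := 536870912) (P3 := 697932185) (W3 := 42949674) (N0 := 3) (En := eng) (mo := mog) (C1 := cd0q0) (C2 := cd4q2a) (C3 := pd1)
    rfl (fun _ => rfl) s8_pp_012_a

noncomputable def cut_pp_012_b : Cut := Cut.of [[⟨0, 0, 0, 67108864⟩, ⟨1, 1, 0, 67108864⟩, ⟨2, 1, 0, 67108864⟩]]

noncomputable def f_pp_012_b : ℕ → ℕ → ℕ → ℕ → Bool := onCell 0 536870912 536870912 536870912 697932185 42949674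
    (rowB 3 eng mog cd0q0 cd4q2b pd1 1 false true true .pnp 0 1 2 (qsf 0 536870912 1239849684 370763052 1) ndB0q0 ndB4q2b pcB1 cut_pp_012_b Ext.none)

def k0_pp_012_b : ∃ t, chk3 f_pp_012_b t 1 2 1 = true :=
  ⟨(l 3), by decide +kernel⟩

def k1_pp_012_b : ∃ t, chk3 f_pp_012_b t 1 6 1 = true :=
  ⟨(l 3), by decide +kernel⟩

def k2_pp_012_b : ∃ t, chk3 f_pp_012_b t 1 14 1 = true :=
  ⟨(a (l 3) (l 3)), by decide +kernel⟩

def k3_pp_012_b : ∃ t, chk3 f_pp_012_b t 2 15 1 = true :=
  ⟨(a (l 1) (b (b (l 3) (b (l 3) (b (l 3) (a (a (l 1) (a (l 1) (l 85529988999))) (a (a (l 87140567367) (l 800105096855)) (l 3)))))) (a (b (a (l 1) (a (b (l 1) (l 16648128)) (b (c (l 16625480) (l 16623136)) (l 16607640)))) (a (b (l 1) (a (l 1) (l 16613040))) (a (a (l 16628160) (l 16618560)) (l 16614312)))) (b (a (b (a (c (l 16606072) (l 16602432)) (c (l 16587136) (l 16582168))) (a (l 16587600) (l 16568016))) (a (b (l 71571220887) (l 16549456)) (b (l 73181798647) (l 16531968)))) (a (a (l 16583752) (l 16564144)) (a (l 16545568)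 (l 16528064))))))), by decide +kernel⟩

def k4_pp_012_b : ∃ t, chk3 f_pp_012_b t 3 30 1 = true :=
  ⟨(a (a (l 3) (l 3)) (l 3)), by decide +kernel⟩

def k5_pp_012_b : ∃ t, chk3 f_pp_012_b t 6 31 1 = true :=
  ⟨(a (a (b (a (b (l 65128704743) (l 16515448)) (b (c (l 16520584) (l 16511592)) (l 16499504))) (a (b (l 16498872) (l 16482304)) (b (l 16482928) (l 16466296)))) (b (a (a (b (l 56001841063) (l 16487864)) (b (b (l 16501224) (l 16492744)) (l 16480272))) (b (a (b (l 53317456823) (l 16485320)) (b (l 16486640) (l 16478104))) (l 16490176))) (a (b (l 16467408) (l 16450704)) (b (l 16452600) (l 16435944))))) (a (b (a (b (c (b (l 55464909879) (l 16474016)) (l 35063796567)) (a (l 16458792) (l 16452272))) (b (c (b (l 49022435255) (l 16461976)) (a (l 16455944) (l 16449816))) (c (l 16449784) (l 16435960)))) (a (b (l 16459936) (l 16422368)) (b (c (l 16433536) (l 16419248)) (l 16410072)))) (b (a (b (c (b (l 158544078487) (l 16450664)) (a (l 16443976) (l 16438352))) (c (l 16438512) (l 16424240))) (b (c (b (l 3)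 (l 16439592)) (l 39358686279)) (c (l 16427424) (l 16413240)))) (a (b (a (l 16417968) (l 16412392)) (l 16398664)) (b (l 16404152) (l 16387648)))))), by decide +kernel⟩

def k6_pp_012_b : ∃ t, chk3 f_pp_012_b t 7 31 1 = true :=
  ⟨(a (b (b (b (l 3) (a (a (c (l 16428632) (l 16415104)) (c (c (l 76939617127) (l 16414992)) (l 16404800))) (c (a (a (l 75865859719) (l 16405624)) (a (l 16400912) (l 64054669095))) (a (l 16395104) (l 16386232))))) (a (a (c (l 16416432) (l 16402544)) (c (c (l 16408904) (l 16402648)) (l 16392208))) (a (c (c (l 16398528) (l 16392624)) (l 16382488)) (c (b (l 16390288) (l 16382160)) (l 16373592))))) (a (a (c (l 16392040) (l 16377440)) (b (l 16382856) (l 16366304))) (a (c (l 16371096) (l 16357464)) (c (l 16361752) (l 16348672))))) (b (a (b (b (l 3) (a (c (a (l 59759692663) (l 55464717415)) (l 16378288)) (c (c (l 129552893383) (l 16380344)) (l 16371408)))) (a (c (a (l 16379744) (l 16375768)) (l 16365624)) (c (b (c (l 16376648) (l 16371888)) (l 16366392)) (l 16358736)))) (a (b (l 3)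 (c (c (b (a (l 16371952) (l 16369272)) (l 16362656)) (l 98951218807)) (l 16363592))) (b (l 3) (c (c (b (a (l 95729986743) (a (l 92508756759) (l 90361270551))) (l 16357776)) (b (l 86603175847) (l 16353416))) (a (l 16349648) (l 16347640)))))) (a (a (b (l 16355872) (l 16339512)) (c (l 16367256) (l 16334144))) (b (a (c (l 16348616) (l 16336912)) (c (l 16344000) (l 16332592))) (a (l 16327296) (c (l 16328288) (l 16316480))))))), by decide +kernel⟩

theorem s7_pp_012_b : ∃ t, chk3 f_pp_012_b t 3 31 1 = true := ex3_a k5_pp_012_b k6_pp_012_b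

theorem s8_pp_012_b : ∃ t, chk3 f_pp_012_b t 3 15 1 = true := ex3_b k4_pp_012_b s7_pp_012_b

theorem s9_pp_012_b : ∃ t, chk3 f_pp_012_b t 1 15 1 = true := ex3_a k3_pp_012_b s8_pp_012_b

theorem s10_pp_012_b : ∃ t, chk3 f_pp_012_b t 1 7 1 = true := ex3_b k2_pp_012_b s9_pp_012_b

theorem s11_pp_012_b : ∃ t, chk3 f_pp_012_b t 1 3 1 = true := ex3_b k1_pp_012_b s10_pp_012_b

theorem s12_pp_012_b : ∃ t, chk3 f_pp_012_b t 1 1 1 = true := ex3_b k0_pp_012_b s11_pp_012_b

theorem c_pp_012_b : CertB 0 536870912 1239849684 370763052 697932185 42949674 3 eng mog cd0q0 cd4q2b pd1 false true true .pnp 0 1 2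
    ndB0q0 ndB4q2b pcB1 cut_pp_012_b Ext.none :=
  certB1 (fam := false) (s1 := true) (s2 := true) (a := 0) (b := 1) (c := 2) (cn := .pnp) (n1 := ndB0q0) (n2 := ndB4q2b) (pc := pcB1) (cut := cut_pp_012_b) (xt := Ext.none) (P1 := 0) (W1 := 536870912) (P2 := 1239849684) (W2 := 370763052) (P3 := 697932185) (W3 := 42949674) (N0 := 3) (En := eng) (mo := mog) (C1 := cd0q0) (C2 := cd4q2b) (C3 := pd1)
    rfl (fun _ => rfl) s12_pp_012_b

noncomputable def cut_pp_022_a : Cut := Cut.of [[⟨0, 0, 0, 67108864⟩, ⟨1, 1, 0, 67108864⟩, ⟨2, 1, 0, 67108864⟩]]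

noncomputable def f_pp_022_a : ℕ → ℕ → ℕ → ℕ → Bool := onCell 1073741824 536870912 0 536870912 697932185 42949674
    (rowB 3 eng mog cd0q0 cd4q2a pd2 2 false true true .pp 0 2 2 (qsf 0 536870912 0 536870912 2) ndB0q0 ndB4q2a pcB2 cut_pp_022_a Ext.none)

def k0_pp_022_a : ∃ t, chk3 f_pp_022_a t 8 1 1 = true :=
  ⟨(a (b (b (b (a (a (l 16593112) (l 16594224)) (l 16585232)) (a (a (l 16595288) (l 16596328)) (l 16595656))) (a (b (b (l 16601288) (l 16607056)) (b (a (l 16613944) (l 16614648)) (a (l 16622952) (l 16623576)))) (b (l 16604888) (a (l 16619392) (l 16618952))))) (b (a (b (a (b (b (l 16630744) (l 16636560)) (a (l 16646024) (l 16646352))) (b (l 16634208) (l 16646592))) (b (a (a (l 16670960) (l 16660712)) (l 16671336)) (a (a (b (l 16672432) (l 16681120)) (l 16687496)) (a (l 16677024) (l 16676904))))) (b (b (l 16633992) (l 16646296)) (b (a (l 16660576) (l 16653568)) (a (l 16676464) (l 16664784))))) (b (b (a (b (a (a (l 16690296) (l 16690352)) (l 16690184)) (b (a (a (l 16697440) (l 16697432)) (l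 16697160)) (l 6))) (a (l 16690840) (b (l 16673664) (l 16679768)))) (l 6)) (l 6)))) (b (b (a (b (l 16563488) (l 16573488)) (b (l 16540600) (l 16550104))) (b (a (l 16586088) (l 16561872)) (a (l 16601216) (b (l 16572024) (l 16579584))))) (b (b (a (b (l 16613984) (l 16623328)) (b (l 16587664) (l 16617248))) (a (b (a (l 16640128) (l 16626384)) (a (l 16671872) (l 16636720))) (a (b (l 16612480) (l 16643224)) (b (l 16598328) (a (l 16611200) (l 16603688)))))) (b (b (a (b (a (l 16659352) (l 16644680)) (a (l 16665104) (l 16650008))) (a (b (l 16629632) (a (l 16638416) (l 16630536))) (b (l 16614152) (a (l 16622528) (l 16614368))))) (a (l 6) (a (l 6) (a (l 6) (l 1))))) (a (l 6) (l 1)))))), by decide +kernel⟩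

def k1_pp_022_a : ∃ t, chk3 f_pp_022_a t 9 1 1 = true :=
  ⟨(b (a (b (b (a (l 16516800) (l 16492200)) (a (l 16525736) (l 16500552))) (b (a (l 16536640) (l 16510768)) (a (b (l 16546112) (l 16553072)) (b (l 16519488) (l 16525880))))) (b (a (b (l 16467040) (l 16474808)) (b (l 16441304) (a (l 16455104) (l 16441600)))) (b (a (b (l 16481648) (l 16486704)) (a (l 16463672) (l 16470488))) (a (b (l 16492056) (a (l 16504856) (l 16490368))) (b (a (l 16470672) (l 16455800)) (a (l 16475408) (l 55867539847))))))) (b (b (a (a (b (l 16560536) (a (l 16575504) (l 16561304))) (b (a (l 16539696) (l 16525400)) (a (l 16546784) (l 16531856)))) (a (b (a (l 16510736) (l 16516576)) (a (l 75731875767) (l 16521472))) (b (a (l 48351386151) (l 16463568)) (l 1)))) (a (a (b (a (l 16583848) (l 16569008)) (a (b (l 16590136) (l 16594216)) (b (l 16574672) (l 16578232)))) (b (a (b (l 16552040) (l 16555440)) (b (l 16536496) (l 16539408))) (a (b (l 16558696) (l 1)) (l 1)))) (a (b (a (l 16542592) (l 1)) (l 1)) (l 1)))) (a (b (b (a (b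 (a (l 38151058567) (l 16581560)) (a (l 16601816) (l 1))) (l 1)) (l 1)) (l 1)) (l 1)))), by decide +kernel⟩

def k2_pp_022_a : ∃ t, chk3 f_pp_022_a t 5 1 1 = true :=
  ⟨(b (a (a (a (b (b (a (l 16421360) (l 16407464)) (a (l 16427696) (b (l 16411736) (l 16414800)))) (b (a (b (l 16433016) (l 16436712)) (b (l 16417992) (l 16421144))) (b (a (l 16440328) (l 16424088)) (a (l 16443672) (l 1))))) (b (a (b (c (l 16402856) (l 16382280)) (b (l 16396680) (c (l 16408840) (l 16389392)))) (a (b (c (l 16391776) (l 16369864)) (b (l 16384584) (l 16386904))) (b (b (a (l 16373392) (a (a (a (l 16370552) (a (l 16369840) (l 16369152))) (l 16368568)) (l 1))) (a (l 16375536) (l 1))) (a (a (l 16401136) (l 1)) (l 1))))) (a (b (b (l 52109339543) (l 16404560)) (l 1)) (l 1)))) (b (b (l 1) (l 1)) (l 1))) (l 1)) (b (l 1) (l 1))), by decide +kernel⟩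

def k3_pp_022_a : ∃ t, chk3 f_pp_022_a t 3 1 1 = true :=
  ⟨(l 1), by decide +kernel⟩

theorem s4_pp_022_a : ∃ t, chk3 f_pp_022_a t 4 1 1 = true := ex3_a k0_pp_022_a k1_pp_022_a

theorem s5_pp_022_a : ∃ t, chk3 f_pp_022_a t 2 1 1 = true := ex3_a s4_pp_022_a k2_pp_022_a

theorem s6_pp_022_a : ∃ t, chk3 f_pp_022_a t 1 1 1 = true := ex3_a s5_pp_022_a k3_pp_022_a

theorem c_pp_022_a : CertB 0 536870912 0 536870912 697932185 42949674 3 eng mog cd0q0 cd4q2a pd2 false true true .pp 0 2 2
    ndB0q0 ndB4q2a pcB2 cut_pp_022_a Ext.none :=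
  certB2 (fam := false) (s1 := true) (s2 := true) (a := 0) (b := 2) (c := 2) (cn := .pp) (n1 := ndB0q0) (n2 := ndB4q2a) (pc := pcB2) (cut := cut_pp_022_a) (xt := Ext.none) (P1 := 0) (W1 := 536870912) (P2 := 0) (W2 := 536870912) (P3 := 697932185) (W3 := 42949674) (N0 := 3) (En := eng) (mo := mog) (C1 := cd0q0) (C2 := cd4q2a) (C3 := pd2)
    rfl (fun _ => rfl) s6_pp_022_a

noncomputable def cut_pp_022_b : Cut := Cut.of [[⟨0, 0, 0, 67108864⟩, ⟨1, 1, 0, 67108864⟩, ⟨2, 1, 0, 67108864⟩]]

noncomputable def f_pp_022_b : ℕ → ℕ → ℕ → ℕ → Bool := onCell 0 536870912 1073741824 536870912 697932185 42949674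
    (rowB 3 eng mog cd0q0 cd4q2b pd2 1 false true true .pp 0 2 2 (qsf 0 536870912 1239849684 370763052 2) ndB0q0 ndB4q2b pcB2 cut_pp_022_b Ext.none)

def k0_pp_022_b : ∃ t, chk3 f_pp_022_b t 2 4 1 = true :=
  ⟨(a (b (a (l 1) (b (a (l 1) (b (l 1) (b (l 1) (l 289406484903)))) (a (b (l 1) (a (l 1) (l 16549176))) (b (c (l 16609560) (l 39224797351)) (l 3791269607))))) (a (b (a (l 1) (a (l 1) (b (l 1) (l 16499928)))) (a (a (l 1) (b (l 1) (l 98817219047))) (b (a (l 16495520) (l 16462624)) (a (l 16437256) (l 16426864))))) (b (a (b (a (l 16524840) (l 16511776)) (a (l 16487488) (l 16475944))) (b (l 16493520) (l 16459912))) (a (b (l 16488408) (l 16412928)) (b (l 16427776) (l 16397064)))))) (b (b (b (a (a (a (l 175590052599) (l 16613800)) (a (l 16574128) (l 16554760))) (a (a (l 16535000) (l 16515744)) (a (l 16497496) (l 16480288)))) (a (a (l 16592952) (l 16544128)) (a (l 16510136) (l 16474872)))) (a (a (b (l 16621088) (l 16503768)) (l 16518416)) (a (l 16518920) (l 16450696)))) (a (b (a (b (l 16471704) (l 16441000))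 (b (l 16453464) (l 16425696))) (a (b (l 16411640) (l 16383672)) (l 16386712))) (a (b (l 16425736) (l 16378688)) (b (l 16408984) (l 16367048)))))), by decide +kernel⟩

def k1_pp_022_b : ∃ t, chk3 f_pp_022_b t 2 5 1 = true :=
  ⟨(a (b (a (b (b (b (a (a (l 1) (l 16420120)) (l 16447504)) (a (a (l 109017681063) (l 16401720)) (l 16409328))) (b (a (a (c (l 112775765319) (l 16380728)) (l 16383480)) (l 16392336)) (a (b (a (c (l 16388240) (l 16365760)) (l 16369760)) (b (a (c (l 16380904) (l 16357664)) (l 16362504)) (a (b (b (b (l 16366416) (a (b (l 16367320) (l 16366608)) (l 16363488))) (l 16364288)) (l 16362640)) (c (l 16368424) (l 16345248))))) (b (l 16358672) (b (l 16352056) (a (l 16350472) (l 16344272))))))) (a (b (a (b (c (l 16364848) (l 16340248)) (b (l 16340104) (l 16331584))) (b (l 16346680) (l 16330384))) (a (c (l 16321000) (l 16293792)) (l 16303880))) (b (a (l 16332632) (l 16327216)) (l 16298128)))) (b (b (a (l 16380816) (l 16367752)) (a (b (l 16357624) (b (l 16346200) (b (l 16340392) (l 16336344))))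 (b (l 16346704) (b (l 16336496) (l 16350736))))) (a (b (l 16320408) (l 16292424)) (b (l 16313776) (l 16289584))))) (a (a (b (a (b (c (l 16286200) (l 16256312)) (c (l 16254376) (l 16221712))) (b (l 16269960) (l 16238856))) (a (b (c (l 16225496) (l 16189960)) (c (l 16199536) (l 16161032))) (b (l 16210544) (l 16185056)))) (b (a (l 16274416) (l 16253152)) (a (l 16201024) (l 16204880)))) (a (b (l 16275152) (l 16211680)) (b (l 16257504) (l 16222120))))) (b (a (b (b (a (l 16357240) (l 16350464)) (b (l 16335880) (a (b (l 16329464) (l 16324048)) (l 16429064)))) (a (l 16340712) (l 16298672))) (b (b (a (l 16345872) (l 16337448)) (a (b (l 16330584) (l 16344304)) (b (l 16323728) (l 16360464)))) (a (l 16321464) (l 16340224)))) (a (a (l 16414592) (l 16278464)) (a (l 16270696) (l 16280408))))), by decide +kernel⟩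

def k2_pp_022_b : ∃ t, chk3 f_pp_022_b t 3 2 1 = true :=
  ⟨(b (a (a (b (a (b (b (a (l 16463968) (l 16448128)) (l 16463944)) (l 16420912)) (b (b (a (l 16432912) (l 16418656)) (l 16435296)) (a (l 16401040) (l 16389304)))) (b (a (l 16386080) (l 16364360)) (a (l 16348848) (l 16328024)))) (b (a (b (b (a (l 16426576) (b (l 16395800) (l 16391544))) (l 16390056)) (b (l 16379432) (l 16367560))) (b (b (a (b (l 16384560) (l 16380528)) (b (l 16373616) (l 16369656))) (a (l 16373920) (l 16363144))) (b (l 16358752) (l 16347832)))) (a (b (l 16347272) (l 16315720)) (b (l 16329176) (l 16300272))))) (b (a (b (b (a (a (b (l 16362792) (l 16358832)) (l 16350464)) (a (l 16340824) (l 16332152))) (a (l 16347120) (l 16328528))) (a (l 16332488) (l 16315024))) (b (b (a (a (l 16324536) (l 16318160)) (b (a (l 16314488) (l 16310584)) (l 16309968))) (a (l 16314504) (l 16306024))) (a (l 16302912) (l 16296920)))) (a (b (a (l 16308984) (l 16293384)) (l 16273824)) (a (b (l 16284224) (l 2)) (l 2))))) (a (b (a (b (b (l 16334368) (a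 (l 16291384) (l 16295000))) (a (l 16288952) (l 16273736))) (b (b (l 16281480) (a (l 16274784) (l 16263712))) (l 16302488))) (a (a (l 16283056) (l 16280504)) (l 16363752))) (b (a (b (b (l 16251888) (l 2)) (l 2)) (l 2)) (l 2)))), by decide +kernel⟩

def k3_pp_022_b : ∃ t, chk3 f_pp_022_b t 1 3 1 = true :=
  ⟨(a (a (b (a (b (a (b (a (b (l 16197776) (l 16134232)) (l 16152248)) (a (b (l 16115464) (l 16099200)) (l 16117624))) (b (l 16163024) (l 16132760))) (a (b (a (b (l 16085440) (l 16074168)) (l 16092744)) (a (b (l 16065376) (l 16059072)) (l 16077544))) (b (l 16153712) (l 16100096)))) (b (a (b (l 16178320) (l 16153688)) (l 16289184)) (a (b (l 16137752) (l 16130680)) (l 16162496)))) (a (b (a (b (a (b (l 16055328) (l 16054192)) (l 16072248)) (a (b (l 16055640) (l 16059656)) (l 16077000))) (b (l 16097960) (l 16105416))) (a (a (b (b (l 16066256) (l 16075432)) (b (l 16087032) (l 16101040))) (b (l 16091752) (l 16116280))) (b (l 16122152) (l 16148320)))) (b (a (l 16136848) (l 16174176)) (a (b (l 16163224)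 (l 2)) (l 2))))) (b (a (b (a (l 16204760) (l 16228008)) (a (l 16192816) (l 16225976))) (b (a (l 16254400) (l 16277728)) (l 16278232))) (a (b (a (l 16211616) (l 2)) (l 2)) (l 2)))) (b (a (a (b (l 16491048) (l 2)) (l 2)) (l 2)) (l 2))), by decide +kernel⟩

theorem s4_pp_022_b : ∃ t, chk3 f_pp_022_b t 2 2 1 = true := ex3_b k0_pp_022_b k1_pp_022_b

theorem s5_pp_022_b : ∃ t, chk3 f_pp_022_b t 1 2 1 = true := ex3_a s4_pp_022_b k2_pp_022_b

theorem s6_pp_022_b : ∃ t, chk3 f_pp_022_b t 1 1 1 = true := ex3_b s5_pp_022_b k3_pp_022_b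

theorem c_pp_022_b : CertB 0 536870912 1239849684 370763052 697932185 42949674 3 eng mog cd0q0 cd4q2b pd2 false true true .pp 0 2 2
    ndB0q0 ndB4q2b pcB2 cut_pp_022_b Ext.none :=
  certB1 (fam := false) (s1 := true) (s2 := true) (a := 0) (b := 2) (c := 2) (cn := .pp) (n1 := ndB0q0) (n2 := ndB4q2b) (pc := pcB2) (cut := cut_pp_022_b) (xt := Ext.none) (P1 := 0) (W1 := 536870912) (P2 := 1239849684) (W2 := 370763052) (P3 := 697932185) (W3 := 42949674) (N0 := 3) (En := eng) (mo := mog) (C1 := cd0q0) (C2 := cd4q2b) (C3 := pd2)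
    rfl (fun _ => rfl) s6_pp_022_b

noncomputable def xt_pp_023 : Ext := extD2 3 ⟨7, 3, 3, 10, 49, 25, 3, 4, 67, 200, 3, 16⟩ eng cd0q0 cd4q3 pd2 false true true .up 0 2 3 rfl ndB0q0 ndB4q3 pcB2

noncomputable def f_pp_023 : ℕ → ℕ → ℕ → ℕ → Bool := onCell 0 536870912 1073741824 536870912 697932185 42949674
    (rowB 3 eng mog cd0q0 cd4q3 pd2 1 false true true .up 0 2 3 (qsf 0 536870912 1610612736 536870912 2) ndB0q0 ndB4q3 pcB2 Cut.none xt_pp_023)

def k0_pp_023 : ∃ t, chk3 f_pp_023 t 1 1 1 = true :=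
  ⟨(b (a (b (l 1) (a (l 1) (b (l 1) (a (l 1) (l 315712827751))))) (b (a (a (l 1) (b (l 1) (b (l 1) (l 256120367703)))) (b (a (b (l 1) (l 297996305223)) (a (b (l 326450288423) (l 16311384)) (b (a (l 255046426327) (a (l 263099475703) (c (l 140304039352205327) (l 16307848)))) (l 16320528)))) (a (b (l 16428736) (l 16288456)) (b (l 16313176) (l 16311184))))) (a (b (a (b (l 1) (l 232497831767)) (b (b (l 16281496) (a (l 16274800) (l 16275704))) (l 16319136))) (a (l 186326882407) (l 16265952))) (b (a (b (b (l 16278048) (l 16276904)) (l 16268504)) (b (b (l 16309720) (l 16314480)) (l 16309680))) (a (l 16279872) (a (l 16316176) (l 16355656))))))) (a (a (b (a (l 1) (b (l 1) (l 352219785895))) (a (b (a (l 1) (l 366178189111)) (b (l 283500297415) (a (b (l 289405772375) (l 16100280)) (l 16129496)))) (b (a (l 16135640) (l 16167944)) (a (l 16218512) (l 16189288))))) (b (a (b (l 347924991367) (l 16291472)) (b (l 183105685079) (l 16265472))) (a (b (l 16215968) (l 16241368)) (b (l 16282744) (l 16314792))))) (b (a (a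 (b (l 16281968) (l 16275392)) (b (l 16229000) (b (l 16260072) (l 16307032)))) (b (a (l 16293888) (l 16416992)) (a (l 16397368) (b (l 16492264) (l 16530688))))) (a (a (b (l 16318832) (l 16376192)) (b (l 16393824) (l 16476136))) (b (a (l 16491664) (l 16571016)) (a (l 16557768) (l 16611072))))))), by decide +kernel⟩

theorem c_pp_023 : CertB 0 536870912 1610612736 536870912 697932185 42949674 3 eng mog cd0q0 cd4q3 pd2 false true true .up 0 2 3
    ndB0q0 ndB4q3 pcB2 Cut.none xt_pp_023 :=
  certB1 (fam := false) (s1 := true) (s2 := true) (a := 0) (b := 2) (c := 3) (cn := .up) (n1 := ndB0q0) (n2 := ndB4q3) (pc := pcB2) (cut := Cut.none) (xt := xt_pp_023) (P1 := 0) (W1 := 536870912) (P2 := 1610612736) (W2 := 536870912) (P3 := 697932185) (W3 := 42949674) (N0 := 3) (En := eng) (mo := mog) (C1 := cd0q0) (C2 := cd4q3) (C3 := pd2)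
    rfl (fun _ => rfl) k0_pp_023

noncomputable def f_pp_033 : ℕ → ℕ → ℕ → ℕ → Bool := onCell 0 536870912 1610612736 536870912 697932185 42949674
    (rowB 3 eng mog cd0q0 cd4q3 pd3 1 false true true .pnn 0 3 3 (qsf 0 536870912 1610612736 536870912 3) ndB0q0 ndB4q3 pcB3 Cut.none Ext.none)

def k0_pp_033 : ∃ t, chk3 f_pp_033 t 1 1 1 = true :=
  ⟨(a (b (b (a (b (a (b (a (l 16129792) (l 16161888)) (l 16115528)) (a (l 16175536) (l 16208848))) (a (b (l 16076232) (l 16042608)) (b (l 16135856) (l 16103160)))) (b (a (l 16489832) (l 16318472)) (a (l 16308032) (b (l 16285776) (l 16287664))))) (b (a (b (a (a (l 16012824) (l 16052320)) (l 16097288)) (a (l 16036232) (l 16093992))) (a (l 16183648) (l 16316776))) (a (a (b (l 16038696) (l 16045832)) (b (l 16103696) (l 16125512))) (a (b (l 16217120) (l 16249456)) (l 16368512))))) (a (b (b (a (b (l 16063840) (l 16083416)) (b (l 16154840) (l 4))) (l 4)) (l 4)) (b (b (a (l 4) (l 4)) (l 4)) (a (b (l 4) (l 2)) (l 2))))) (b (a (b (b (a (l 16202392) (l 16366720)) (a (l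 16416496) (l 16514080))) (b (a (l 16448320) (l 16386968)) (a (l 16493880) (l 4)))) (b (b (b (l 16607312) (l 16596424)) (a (l 16576704) (l 16664368))) (a (b (l 16633464) (l 2)) (l 2)))) (a (b (a (b (l 4) (l 2)) (l 2)) (l 2)) (l 2)))), by decide +kernel⟩

theorem c_pp_033 : CertB 0 536870912 1610612736 536870912 697932185 42949674 3 eng mog cd0q0 cd4q3 pd3 false true true .pnn 0 3 3
    ndB0q0 ndB4q3 pcB3 Cut.none Ext.none :=
  certB1 (fam := false) (s1 := true) (s2 := true) (a := 0) (b := 3) (c := 3) (cn := .pnn) (n1 := ndB0q0) (n2 := ndB4q3) (pc := pcB3) (cut := Cut.none) (xt := Ext.none) (P1 := 0) (W1 := 536870912) (P2 := 1610612736) (W2 := 536870912) (P3 := 697932185) (W3 := 42949674) (N0 := 3) (En := eng) (mo := mog) (C1 := cd0q0) (C2 := cd4q3) (C3 := pd3)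
    rfl (fun _ => rfl) k0_pp_033

noncomputable def f_pp_101 : ℕ → ℕ → ℕ → ℕ → Bool := onCell 536870912 536870912 536870912 536870912 697932185 42949674
    (rowB 3 eng mog cd0q1 cd4q1 pd0 0 false true true .npn 1 0 1 (qsf 536870912 536870912 536870912 536870912 0) ndB0q1 ndB4q1 pcB0 Cut.none Ext.none)

def k0_pp_101 : ∃ t, chk3 f_pp_101 t 1 1 1 = true :=
  ⟨(a (l 3) (l 5)), by decide +kernel⟩

theorem c_pp_101 : CertB 536870912 536870912 536870912 536870912 697932185 42949674 3 eng mog cd0q1 cd4q1 pd0 false true true .npn 1 0 1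
    ndB0q1 ndB4q1 pcB0 Cut.none Ext.none :=
  certB0 (fam := false) (s1 := true) (s2 := true) (a := 1) (b := 0) (c := 1) (cn := .npn) (n1 := ndB0q1) (n2 := ndB4q1) (pc := pcB0) (cut := Cut.none) (xt := Ext.none) (P1 := 536870912) (W1 := 536870912) (P2 := 536870912) (W2 := 536870912) (P3 := 697932185) (W3 := 42949674) (N0 := 3) (En := eng) (mo := mog) (C1 := cd0q1) (C2 := cd4q1) (C3 := pd0)
    rfl k0_pp_101

noncomputable def f_pp_102_a : ℕ → ℕ → ℕ → ℕ → Bool := onCell 536870912 536870912 0 536870912 697932185 42949674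
    (rowB 3 eng mog cd0q1 cd4q2a pd0 0 false true true .npp 1 0 2 (qsf 536870912 536870912 0 536870912 0) ndB0q1 ndB4q2a pcB0 Cut.none Ext.none)

def k0_pp_102_a : ∃ t, chk3 f_pp_102_a t 1 1 1 = true :=
  ⟨(l 3), by decide +kernel⟩

theorem c_pp_102_a : CertB 536870912 536870912 0 536870912 697932185 42949674 3 eng mog cd0q1 cd4q2a pd0 false true true .npp 1 0 2
    ndB0q1 ndB4q2a pcB0 Cut.none Ext.none :=
  certB0 (fam := false) (s1 := true) (s2 := true) (a := 1) (b := 0) (c := 2) (cn := .npp) (n1 := ndB0q1) (n2 := ndB4q2a) (pc := pcB0) (cut := Cut.none) (xt := Ext.none) (P1 := 536870912) (W1 := 536870912) (P2 := 0) (W2 := 536870912) (P3 := 697932185) (W3 := 42949674) (N0 := 3) (En := eng) (mo := mog) (C1 := cd0q1) (C2 := cd4q2a) (C3 := pd0)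
    rfl k0_pp_102_a

noncomputable def f_pp_102_b : ℕ → ℕ → ℕ → ℕ → Bool := onCell 536870912 536870912 0 536870912 697932185 42949674
    (rowB 3 eng mog cd0q1 cd4q2b pd0 1 false true true .npp 1 0 2 (qsf 536870912 536870912 1239849684 370763052 0) ndB0q1 ndB4q2b pcB0 Cut.none Ext.none)

def k0_pp_102_b : ∃ t, chk3 f_pp_102_b t 1 1 1 = true :=
  ⟨(l 3), by decide +kernel⟩

theorem c_pp_102_b : CertB 536870912 536870912 1239849684 370763052 697932185 42949674 3 eng mog cd0q1 cd4q2b pd0 false true true .npp 1 0 2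
    ndB0q1 ndB4q2b pcB0 Cut.none Ext.none :=
  certB1 (fam := false) (s1 := true) (s2 := true) (a := 1) (b := 0) (c := 2) (cn := .npp) (n1 := ndB0q1) (n2 := ndB4q2b) (pc := pcB0) (cut := Cut.none) (xt := Ext.none) (P1 := 536870912) (W1 := 536870912) (P2 := 1239849684) (W2 := 370763052) (P3 := 697932185) (W3 := 42949674) (N0 := 3) (En := eng) (mo := mog) (C1 := cd0q1) (C2 := cd4q2b) (C3 := pd0)
    rfl (fun _ => rfl) k0_pp_102_b

noncomputable def f_pp_112_a : ℕ → ℕ → ℕ → ℕ → Bool := onCell 536870912 536870912 0 536870912 697932185 42949674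
    (rowB 3 eng mog cd0q1 cd4q2a pd1 0 false true true .dn 1 1 2 (qsf 536870912 536870912 0 536870912 1) ndB0q1 ndB4q2a pcB1 Cut.none Ext.none)

def k0_pp_112_a : ∃ t, chk3 f_pp_112_a t 1 1 1 = true :=
  ⟨(l 3), by decide +kernel⟩

theorem c_pp_112_a : CertB 536870912 536870912 0 536870912 697932185 42949674 3 eng mog cd0q1 cd4q2a pd1 false true true .dn 1 1 2
    ndB0q1 ndB4q2a pcB1 Cut.none Ext.none :=
  certB0 (fam := false) (s1 := true) (s2 := true) (a := 1) (b := 1) (c := 2) (cn := .dn) (n1 := ndB0q1) (n2 := ndB4q2a) (pc := pcB1) (cut := Cut.none) (xt := Ext.none) (P1 := 536870912) (W1 := 536870912) (P2 := 0) (W2 := 536870912) (P3 := 697932185) (W3 := 42949674) (N0 := 3) (En := eng) (mo := mog) (C1 := cd0q1) (C2 := cd4q2a) (C3 := pd1)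
    rfl k0_pp_112_a

noncomputable def xt_pp_112_b : Ext := extD2 3 ⟨7, 3, 3, 10, 49, 25, 3, 4, 67, 200, 3, 16⟩ eng cd0q1 cd4q2b pd1 false true true .dn 1 1 2 rfl ndB0q1 ndB4q2b pcB1

noncomputable def f_pp_112_b : ℕ → ℕ → ℕ → ℕ → Bool := onCell 536870912 536870912 1239849684 370763052 697932185 42949674
    (rowB 3 eng mog cd0q1 cd4q2b pd1 2 false true true .dn 1 1 2 (qsf 536870912 536870912 1239849684 370763052 1) ndB0q1 ndB4q2b pcB1 Cut.none xt_pp_112_b)

def k0_pp_112_b : ∃ t, chk3 f_pp_112_b t 1 1 1 = true :=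
  ⟨(a (l 3) (a (l 3) (b (l 1) (a (l 3) (b (l 1) (a (l 3) (b (l 1) (a (a (l 3) (a (b (b (l 1) (b (l 1) (c (c (l 95729980487) (l 16359936)) (l 16351384)))) (b (c (c (a (l 1462800241874892165650595855) (l 141000648737423375)) (l 84455683479)) (l 61907073399)) (c (c (l 1453128835317864356447354895) (l 78550098647)) (b (l 65128291783) (c (l 16350040) (l 66202031095)))))) (b (l 1) (c (b (b (l 16353968) (l 16352584)) (b (l 16351280) (l 16350048))) (b (l 16342424) (l 16340264)))))) (b (l 1) (a (c (b (l 16343112) (l 16340440)) (b (l 16331800) (l 16329504))) (b (l 1) (l 16321584)))))))))))), by decide +kernel⟩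

theorem c_pp_112_b : CertB 536870912 536870912 1239849684 370763052 697932185 42949674 3 eng mog cd0q1 cd4q2b pd1 false true true .dn 1 1 2
    ndB0q1 ndB4q2b pcB1 Cut.none xt_pp_112_b :=
  certB2 (fam := false) (s1 := true) (s2 := true) (a := 1) (b := 1) (c := 2) (cn := .dn) (n1 := ndB0q1) (n2 := ndB4q2b) (pc := pcB1) (cut := Cut.none) (xt := xt_pp_112_b) (P1 := 536870912) (W1 := 536870912) (P2 := 1239849684) (W2 := 370763052) (P3 := 697932185) (W3 := 42949674) (N0 := 3) (En := eng) (mo := mog) (C1 := cd0q1) (C2 := cd4q2b) (C3 := pd1)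
    rfl (fun _ => rfl) k0_pp_112_b

end Pool.Agent.Strip051.G.I6500_6900.Tab.C.BB04

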