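import Pool.Agent.Strip051.G.I6500_6900.Tab
import Pool.Agent.Strip051.PB.ExtD2

/-! # Certificates B8 (generated) -/

set_option linter.all false
set_option maxRecDepth 100000

namespace Pool.Agent.Strip051.G.I6500_6900.Tab.C.BA04

open Pool.Agent.Strip051.PB Pool.Agent.Strip051.PB.T
open Pool.Agent.Strip051.G.I6500_6900.Tab

noncomputable def cut_pm_022_a : Cut := Cut.of [[⟨0, 0, 0, 67108864⟩, ⟨1, 1, 0, 67108864⟩, ⟨2, 1, 0, 67108864⟩]]

noncomputable def xt_pm_022_a : Ext := extD2 3 ⟨7, 3, 3, 10, 49, 25, 3, 4, 67, 200, 3, 16⟩ eng cd0q0 cd4q2a pd2 true true false .pp 0 2 2 rfl ndB0q0 ndB4q2a pcB2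

noncomputable def f_pm_022_a : ℕ → ℕ → ℕ → ℕ → Bool := onCell 1073741824 536870912 0 536870912 697932185 42949674
    (rowB 3 eng mog cd0q0 cd4q2a pd2 2 true true false .pp 0 2 2 (qsf 0 536870912 0 536870912 2) ndB0q0 ndB4q2a pcB2 cut_pm_022_a xt_pm_022_a)

def k0_pm_022_a : ∃ t, chk3 f_pm_022_a t 8 1 1 = true :=
  ⟨(b (l 1) (b (l 1) (b (a (l 1) (a (b (l 1) (l 6)) (b (a (l 1) (b (l 1) (a (l 16618456) (l 16616864)))) (a (l 6) (b (a (l 6) (l 16634072)) (l 16673408)))))) (a (l 6) (a (l 6) (a (l 6) (a (l 6) (b (b (l 16668688) (l 16686048)) (b (l 16696880) (b (l 16697344) (b (l 16697400) (l 16697376)))))))))))), by decide +kernel⟩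

def k1_pm_022_a : ∃ t, chk3 f_pm_022_a t 9 2 1 = true :=
  ⟨(b (l 1) (a (l 1) (b (l 1) (a (l 1) (b (l 1) (a (l 1) (b (l 16451872) (l 16462416)))))))), by decide +kernel⟩

def k2_pm_022_a : ∃ t, chk3 f_pm_022_a t 9 6 1 = true :=
  ⟨(a (b (l 1) (a (b (l 1) (a (l 1) (b (l 16562736) (l 47277825607)))) (b (a (b (l 1) (l 16545472)) (b (l 16529192) (l 16543520))) (a (b (l 16560584) (l 16575832)) (b (l 16558056) (l 16572752)))))) (b (a (b (a (l 1) (l 16480944)) (a (l 12917954535) (b (l 16499488) (l 16512288)))) (b (a (l 53183219319) (b (l 16473312) (l 16484544))) (a (l 16504208) (l 16502112)))) (a (b (a (b (l 16527440) (l 16541224)) (l 16532032)) (a (l 16562424) (l 16559112))) (b (a (l 16529352) (l 16526424)) (a (l 16555608) (l 16551936)))))), by decide +kernel⟩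

def k3_pm_022_a : ∃ t, chk3 f_pm_022_a t 9 7 1 = true :=
  ⟨(b (a (b (a (a (b (l 37077315671) (a (l 16615184) (l 16613432))) (b (l 16594560) (l 16610672))) (a (a (l 16600056) (l 16598192)) (l 16616256))) (a (a (b (l 16631056) (l 16647904)) (b (l 16626872) (l 16643224))) (b (l 16641224) (a (l 16638440) (l 16633568))))) (b (a (b (l 16581888) (l 16596384)) (a (l 16582984) (l 16578720))) (a (b (l 16611120) (l 16626176)) (b (l 16601760) (l 16616104))))) (a (a (b (b (a (l 16664880) (l 16659752)) (a (l 16681912) (l 16676384))) (b (b (l 16684632) (a (l 16689800) (l 16680064))) (b (a (l 16689992) (l 16680136)) (b (a (l 16689976) (l 16680048)) (a (c (l 16690824) (l 16689008)) (c (l 16680968) (l 16678896))))))) (b (b (l 16651904) (l 16664840)) (a (b (b (l 16670152) (l 16670336)) (b (l 16670304) (b (l 16670144) (a (l 16672440) (l 16667504))))) (b (l 16660664) (b (l 16660584) (b (l 16660376) (a (l 16662600) (l 16657712)))))))) (b (a (b (l 16641456) (l 16646184)) (b (l 16627224) (a (l 16632392) (l 16623520)))) (b (a (a (l 16651144)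 (l 16641776)) (a (l 16632576) (l 16623576))) (a (a (b (l 16650960) (b (l 16650688) (a (l 16652848) (l 16648016)))) (b (l 16641480) (c (l 16642584) (b (l 16639776) (l 16649768))))) (a (b (l 16632176) (a (l 16639200) (l 16629304))) (b (l 16623064) (c (a (l 16626544) (l 16622088)) (l 16625920))))))))), by decide +kernel⟩

def k4_pm_022_a : ∃ t, chk3 f_pm_022_a t 5 2 1 = true :=
  ⟨(a (a (a (b (l 1) (a (b (l 1) (b (l 16457992) (l 16456440))) (b (b (l 16404640) (l 60162429303)) (b (l 16436568) (l 16455192))))) (b (a (b (l 1) (b (l 1) (c (l 16402480) (l 16382352)))) (a (b (l 1) (b (l 16383056) (l 16413608))) (b (a (b (l 16370816) (l 16396416)) (a (a (a (b (l 16370400) (l 16374960)) (a (b (l 16370088) (l 16374640)) (b (l 16369672) (l 16374208)))) (b (l 16369760) (l 16374288))) (b (l 16369976) (l 16374464)))) (a (b (l 16382512) (l 16391872)) (c (a (a (a (l 16397136) (b (l 16391968) (l 16400704))) (l 16396544)) (l 16396640)) (b (a (l 16390872) (l 16369992)) (l 16379736))))))) (a (b (b (c (l 16414176) (l 16395200)) (c (l 16427880)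 (l 16410144))) (b (l 16435400) (l 16453272))) (a (b (b (l 16404424) (l 16418232)) (b (l 16433880) (l 16451232))) (b (a (b (l 16403416) (l 16416968)) (b (c (l 16432608) (l 16391664)) (l 16436248))) (a (l 16441096) (b (l 16430472) (l 16447360)))))))) (b (a (b (a (b (l 16371224) (l 16375496)) (b (l 16373184) (l 16377104))) (a (b (l 16382152) (l 16391032)) (b (l 16383336) (l 16391752)))) (b (l 16373864) (l 16385328))) (a (b (a (b (l 16402056) (l 16415048)) (l 16450608)) (b (l 16429416) (l 16445664))) (b (l 16405128) (l 16432512))))) (b (a (b (a (l 16371080) (l 16369176)) (a (l 16381472) (l 16378616))) (b (l 16368152) (l 16376344))) (a (b (a (l 16400080) (l 16396080)) (a (l 16426104) (l 16420880))) (b (l 16392040) (l 16414432))))), by decide +kernel⟩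

def k5_pm_022_a : ∃ t, chk3 f_pm_022_a t 5 6 1 = true :=
  ⟨(a (a (a (b (b (a (l 16477376) (l 16475336)) (l 16540096)) (b (l 16521368) (l 16545976))) (a (b (b (l 16472696) (l 16493592)) (b (l 16515880) (l 16539632))) (b (a (l 16480568) (a (l 16478392) (b (l 16465832) (l 16485848)))) (a (l 16545328) (a (l 16542704) (b (l 16507368) (l 16530272))))))) (b (a (b (l 16463528) (l 16483016)) (l 16466576)) (a (b (l 16503912) (l 16526128)) (l 16527424)))) (b (a (a (l 16458800) (l 16451880)) (l 16464008)) (a (b (l 16482008) (l 16501504)) (b (l 16467344) (l 16484840))))), by decide +kernel⟩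

def k6_pm_022_a : ∃ t, chk3 f_pm_022_a t 10 7 1 = true :=
  ⟨(a (a (b (b (l 16571816) (l 16598712)) (b (b (l 16610352) (l 16610912)) (b (a (l 16614832) (l 16606448)) (a (b (l 16614216) (c (l 16615552) (l 16616872))) (b (l 16605704) (a (l 16606992) (l 16602776))))))) (a (b (b (l 16564584) (l 16590240)) (b (b (l 16598568) (l 16598960)) (b (l 16598632) (b (l 16597760) (a (l 16598688) (c (l 16596984) (l 16592752))))))) (b (a (b (l 16560184) (l 16585232)) (b (a (l 16557160) (l 16575152)) (a (l 16581888) (l 16578712)))) (b (a (l 16593840) (a (l 16592136) (b (l 16591688) (l 16599832)))) (a (b (l 16593376) (b (l 16592368) (a (l 16592064) (l 16590456)))) (b (a (l 16591616) (b (l 16612608) (c (l 16612800) (a (l 16612168) (l 16590240))))) (a (b (l 16590528) (a (l 16589464) (a (l 16589128) (l 16589040)))) (a (a (a (l 16589760) (a (l 16590024) (a (a (l 16590296) (b (l 16591040) (l 16589912))) (l 16590448)))) (l 16590136)) (l 16589304))))))))) (b (a (b (l 16549208) (l 16572736)) (b (l 16538432) (l 16560616))) (b (a (b (l 16582584)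 (a (l 16586832) (l 16578448))) (b (l 16568016) (l 16567544))) (a (b (a (l 16586128) (l 16598448)) (b (a (l 16584856) (a (l 16578168) (l 16573760))) (a (a (l 16585872) (l 16581352)) (a (l 16576808) (a (l 16573376) (l 16571248)))))) (b (l 16566056) (b (l 16564112) (a (b (l 16566792) (l 16586864)) (l 16579328)))))))), by decide +kernel⟩

def k7_pm_022_a : ∃ t, chk3 f_pm_022_a t 11 7 1 = true :=
  ⟨(b (a (b (l 16521672) (l 16542048)) (b (l 16503528) (l 16540464))) (b (b (a (l 16546952) (l 16538704)) (a (a (l 16553000) (l 16537864)) (a (l 16522808) (l 16508168)))) (a (b (a (l 16550648) (l 16535024)) (b (a (l 16548168) (l 16532080)) (a (a (l 16571128) (l 16541952)) (a (l 16533816) (l 16525904))))) (a (b (l 16519608) (b (l 16537632) (a (l 16518192) (c (l 16515136) (l 16506264))))) (b (l 16505000) (c (b (l 16506328) (a (l 16508096) (l 16501248))) (a (l 16510608) (l 16492784)))))))), by decide +kernel⟩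

def k8_pm_022_a : ∃ t, chk3 f_pm_022_a t 3 2 1 = true :=
  ⟨(a (a (b (a (b (l 16370312) (l 16376320)) (b (l 16376328) (l 16380736))) (a (b (l 16389640) (l 16409512)) (b (l 16391832) (l 16410216)))) (b (a (l 16389592) (l 16403352)) (a (b (l 16399504) (l 16413976)) (b (l 16409072) (l 16417288))))) (a (b (a (l 16416448) (l 16426904)) (a (b (l 16415200) (l 16417552)) (b (l 16419224) (l 16415896)))) (b (a (l 16436408) (l 16443896)) (a (l 16438840) (l 16412416))))), by decide +kernel⟩

def k9_pm_022_a : ∃ t, chk3 f_pm_022_a t 6 3 1 = true :=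
  ⟨(b (a (b (a (l 16435056) (l 16432664)) (a (b (l 16457488) (l 16472880)) (l 16456256))) (a (b (l 16431288) (l 16445000)) (b (l 16425992) (l 16429744)))) (a (b (a (a (l 16582928) (l 16529016)) (b (l 16469192) (l 16468016))) (b (a (a (l 16495728) (l 16482664)) (a (l 16469992) (l 16457976))) (a (b (a (l 16491240) (l 16477992)) (b (a (l 16488296) (l 16474984)) (a (a (c (l 16494584) (l 16484304)) (c (l 16488024) (l 16477360))) (c (a (l 16481528) (l 16475048)) (l 16487904))))) (b (a (l 16465096) (l 16452768)) (a (b (l 16461896) (c (l 16465584) (l 16453160))) (b (l 16449432) (a (c (l 16456520) (l 16443224)) (c (l 16450736) (l 16436832))))))))) (b (a (b (l 16448032) (l 16446024)) (b (l 16430056) (a (l 16431824) (l 16423416)))) (b (a (a (l 16446640) (l 16436200)) (a (l 16447592) (l 16417760))) (a (b (a (l 16441224) (a (l 16433192) (l 16428136))) (a (b (a (l 16440616) (l 16435056)) (a (c (l 16445200) (l 16430704)) (c (l 16439896) (l 16424872)))) (b (a (l 16429760) (l 16424672)) (c (a (l 16434800) (l 16429840)) (a (l 16419352)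 (l 16414088)))))) (b (a (l 16420872) (l 16411496)) (a (b (c (l 16424696) (l 16409592)) (c (a (l 16424968) (l 16420104)) (a (l 16409032) (l 16404120)))) (a (b (l 16410144) (a (l 16408664) (l 16406224))) (c (l 16427128) (l 16396048)))))))))), by decide +kernel⟩

def k10_pm_022_a : ∃ t, chk3 f_pm_022_a t 7 3 1 = true :=
  ⟨(b (a (a (b (l 16418560) (l 16437048)) (b (l 16407336) (b (l 16405072) (l 16403200)))) (b (a (l 16391968) (l 16378736)) (a (l 16390040) (l 16373152)))) (a (b (a (b (l 16415136) (a (l 16415600) (l 16407120))) (b (l 16400152) (a (l 16398424) (l 16389008)))) (a (b (a (b (l 16410832) (l 16406688)) (l 16399552)) (b (a (l 16401960) (l 16392208)) (b (a (l 16418992) (l 16388208)) (a (c (a (l 16405080) (l 16399968)) (l 16387248)) (c (b (l 16392992) (l 16391736)) (l 16377800)))))) (b (a (l 16389936) (l 16380808)) (b (a (l 16382760) (l 16373904)) (a (b (l 16378832) (b (l 16376776) (a (l 16377640) (l 16394128)))) (b (l 16370112) (c (a (l 16375784) (l 16371480)) (a (l 16362440) (l 16358464))))))))) (b (a (b (l 16382264)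 (l 16376096)) (b (l 16367168) (l 16361912))) (b (a (a (l 16372432) (l 16364904)) (a (l 16358480) (l 16353304))) (a (b (a (l 16365824) (l 16358704)) (a (b (l 16362216) (c (a (l 16367384) (l 16363520)) (a (l 16354672) (l 16351104)))) (b (l 16355224) (a (c (l 16359928) (l 16347776)) (b (l 16351848) (c (l 16356152) (l 16343976))))))) (b (a (l 16352616) (l 16347816)) (b (a (c (l 16354216) (l 16343448)) (c (l 16349312) (l 16338840))) (a (c (a (a (l 16354416) (l 16353056)) (c (a (l 16353968) (l 16352720)) (l 16348656))) (b (l 16341384) (a (l 16341232) (l 16338768)))) (a (b (l 16344184) (c (c (c (l 140909389254508559) (l 16349448)) (l 16345816)) (l 16336544))) (c (b (l 16347024) (c (c (l 140851939767173135) (l 140925881920094223)) (a (l 16344176) (l 16343128)))) (a (l 16335704) (l 16334728)))))))))))), by decide +kernel⟩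

theorem s11_pm_022_a : ∃ t, chk3 f_pm_022_a t 3 3 1 = true := ex3_a k9_pm_022_a k10_pm_022_a

theorem s12_pm_022_a : ∃ t, chk3 f_pm_022_a t 3 1 1 = true := ex3_b k8_pm_022_a s11_pm_022_a

theorem s13_pm_022_a : ∃ t, chk3 f_pm_022_a t 5 7 1 = true := ex3_a k6_pm_022_a k7_pm_022_a

theorem s14_pm_022_a : ∃ t, chk3 f_pm_022_a t 5 3 1 = true := ex3_b k5_pm_022_a s13_pm_022_a

theorem s15_pm_022_a : ∃ t, chk3 f_pm_022_a t 5 1 1 = true := ex3_b k4_pm_022_a s14_pm_022_a

theorem s16_pm_022_a : ∃ t, chk3 f_pm_022_a t 9 3 1 = true := ex3_b k2_pm_022_a k3_pm_022_a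

theorem s17_pm_022_a : ∃ t, chk3 f_pm_022_a t 9 1 1 = true := ex3_b k1_pm_022_a s16_pm_022_a

theorem s18_pm_022_a : ∃ t, chk3 f_pm_022_a t 4 1 1 = true := ex3_a k0_pm_022_a s17_pm_022_a

theorem s19_pm_022_a : ∃ t, chk3 f_pm_022_a t 2 1 1 = true := ex3_a s18_pm_022_a s15_pm_022_a

theorem s20_pm_022_a : ∃ t, chk3 f_pm_022_a t 1 1 1 = true := ex3_a s19_pm_022_a s12_pm_022_a

theorem c_pm_022_a : CertB 0 536870912 0 536870912 697932185 42949674 3 eng mog cd0q0 cd4q2a pd2 true true false .pp 0 2 2
    ndB0q0 ndB4q2a pcB2 cut_pm_022_a xt_pm_022_a :=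
  certB2 (fam := true) (s1 := true) (s2 := false) (a := 0) (b := 2) (c := 2) (cn := .pp) (n1 := ndB0q0) (n2 := ndB4q2a) (pc := pcB2) (cut := cut_pm_022_a) (xt := xt_pm_022_a) (P1 := 0) (W1 := 536870912) (P2 := 0) (W2 := 536870912) (P3 := 697932185) (W3 := 42949674) (N0 := 3) (En := eng) (mo := mog) (C1 := cd0q0) (C2 := cd4q2a) (C3 := pd2)
    rfl (fun _ => rfl) s20_pm_022_a

noncomputable def cut_pm_022_b : Cut := Cut.of [[⟨0, 0, 0, 67108864⟩, ⟨1, 1, 0, 67108864⟩, ⟨2, 1, 0, 67108864⟩]]

noncomputable def f_pm_022_b : ℕ → ℕ → ℕ → ℕ → Bool := onCell 0 536870912 1239849684 370763052 697932185 42949674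
    (rowB 3 eng mog cd0q0 cd4q2b pd2 0 true true false .pp 0 2 2 (qsf 0 536870912 1239849684 370763052 2) ndB0q0 ndB4q2b pcB2 cut_pm_022_b Ext.none)

def k0_pm_022_b : ∃ t, chk3 f_pm_022_b t 2 2 1 = true :=
  ⟨(a (b (a (b (a (a (b (a (b (b (c (l 16375224) (l 16350792)) (a (l 16350640) (l 16351800))) (b (a (c (l 16350840) (l 16325048)) (l 16338632)) (l 16324920))) (b (b (a (l 16365104) (l 16365568)) (l 16352048)) (l 16331712))) (c (a (l 16306208) (l 16307448)) (a (l 16277352) (l 16278600)))) (b (c (l 16356744) (l 16331656)) (c (l 16309264) (l 16280424)))) (a (b (l 16343808) (l 16297696)) (b (l 16343848) (l 16300944)))) (a (a (b (c (a (l 16260152) (l 16263048)) (a (l 16227512) (l 16230368))) (c (a (l 16219784) (l 16224240)) (a (l 16183176) (l 16187552)))) (b (c (l 16267304) (l 16234552)) (c (l 16230784) (l 16193968)))) (a (b (l 16256832) (l 16221224)) (b (l 16263136) (l 16230496))))) (b (a (b (a (l 16344968) (l 16347048)) (a (l 16305192) (l 16310440))) (b (l 16351832) (l 16319832))) (a (b (l 16274384) (l 16245856)) (l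 16342864)))) (a (b (a (b (a (c (a (l 16185024) (l 16190960)) (l 16147200)) (l 16179304)) (a (a (l 16154472) (l 16140768)) (l 16151424))) (b (l 16196736) (l 16172568))) (a (a (b (a (l 16107768) (l 16116216)) (a (l 16107856) (l 16096440))) (b (l 16128600) (l 16110456))) (a (l 16136320) (l 16153824)))) (b (a (b (l 16221864) (l 16202328)) (l 16241360)) (a (l 16180944) (l 16218672))))) (b (a (b (a (b (l 16361376) (l 16335048)) (l 16364944)) (a (l 16302832) (l 16330200))) (b (a (l 16387280) (l 16409344)) (a (l 16362888) (l 16395368)))) (a (b (a (l 16273192) (l 16309248)) (a (l 16257984) (l 16301128))) (b (l 16495360) (l 16371288))))), by decide +kernel⟩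

def k1_pm_022_b : ∃ t, chk3 f_pm_022_b t 2 3 1 = true :=
  ⟨(a (b (a (a (b (a (b (a (l 16070792) (l 16081400)) (a (l 16059480) (l 16071088))) (b (l 16096952) (l 16088104))) (b (a (c (l 16093584) (l 16025528)) (l 16083968)) (a (l 16058280) (l 16084728)))) (b (b (l 16127512) (l 16121464)) (b (l 16119968) (l 16123232)))) (b (a (l 16167256) (l 16211840)) (a (l 16170856) (l 16221296)))) (a (b (a (a (b (l 16062200) (l 16071048)) (l 16115856)) (b (l 16131152) (l 16143520))) (a (b (a (a (l 16076856) (l 16092616)) (l 16115760)) (a (b (l 16098328) (l 16108240)) (l 16134992))) (b (l 16160616) (l 2)))) (b (a (b (l 16185184) (l 16200240)) (l 2)) (l 2)))) (b (a (b (l 16281776) (a (l 16272168) (l 2))) (l 2)) (l 2))), by decide +kernel⟩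

def k2_pm_022_b : ∃ t, chk3 f_pm_022_b t 3 1 1 = true :=
  ⟨(b (a (b (a (a (b (l 16428056) (l 16424248)) (b (l 16446888) (l 16453424))) (b (a (l 16464840) (l 16475640)) (l 2))) (a (b (l 16448824) (l 2)) (l 2))) (l 2)) (l 2)), by decide +kernel⟩

theorem s3_pm_022_b : ∃ t, chk3 f_pm_022_b t 2 1 1 = true := ex3_b k0_pm_022_b k1_pm_022_b

theorem s4_pm_022_b : ∃ t, chk3 f_pm_022_b t 1 1 1 = true := ex3_a s3_pm_022_b k2_pm_022_b

theorem c_pm_022_b : CertB 0 536870912 1239849684 370763052 697932185 42949674 3 eng mog cd0q0 cd4q2b pd2 true true false .pp 0 2 2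
    ndB0q0 ndB4q2b pcB2 cut_pm_022_b Ext.none :=
  certB0 (fam := true) (s1 := true) (s2 := false) (a := 0) (b := 2) (c := 2) (cn := .pp) (n1 := ndB0q0) (n2 := ndB4q2b) (pc := pcB2) (cut := cut_pm_022_b) (xt := Ext.none) (P1 := 0) (W1 := 536870912) (P2 := 1239849684) (W2 := 370763052) (P3 := 697932185) (W3 := 42949674) (N0 := 3) (En := eng) (mo := mog) (C1 := cd0q0) (C2 := cd4q2b) (C3 := pd2)
    rfl s4_pm_022_b

noncomputable def xt_pm_023_a : Ext := extD2 3 ⟨7, 3, 3, 10, 49, 25, 3, 4, 67, 200, 3, 16⟩ eng cd0q0 cd4q2a pd3 true true false .up 0 2 3 rfl ndB0q0 ndB4q2a pcB3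

noncomputable def f_pm_023_a : ℕ → ℕ → ℕ → ℕ → Bool := onCell 0 536870912 0 536870912 697932185 42949674
    (rowB 3 eng mog cd0q0 cd4q2a pd3 0 true true false .up 0 2 3 (qsf 0 536870912 0 536870912 3) ndB0q0 ndB4q2a pcB3 Cut.none xt_pm_023_a)

def k0_pm_023_a : ∃ t, chk3 f_pm_023_a t 1 1 1 = true :=
  ⟨(a (l 1) (a (b (a (l 1) (a (b (l 16442872) (l 1)) (l 176126441847))) (b (l 1) (l 1))) (b (a (b (l 16422312) (l 16402064)) (b (a (l 16457952) (b (l 16509568) (a (l 16489168) (l 16500824)))) (a (l 16421976) (b (l 16498872) (a (l 16443392) (l 16467952)))))) (a (b (c (l 38150838823) (l 47277630167)) (b (l 225518788935) (l 1))) (a (b (l 16404520) (b (l 16358824) (l 243235324599))) (b (l 16412848) (b (l 16373288) (b (a (l 16352592) (l 16358704)) (a (l 252898969719) (a (b (l 16348064) (l 253435755063)) (b (l 16350704) (c (l 328827823075882572515082255) (a (l 16331288) (c (l 16338352) (l 16325776))))))))))))))), by decide +kernel⟩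

theorem c_pm_023_a : CertB 0 536870912 0 536870912 697932185 42949674 3 eng mog cd0q0 cd4q2a pd3 true true false .up 0 2 3
    ndB0q0 ndB4q2a pcB3 Cut.none xt_pm_023_a :=
  certB0 (fam := true) (s1 := true) (s2 := false) (a := 0) (b := 2) (c := 3) (cn := .up) (n1 := ndB0q0) (n2 := ndB4q2a) (pc := pcB3) (cut := Cut.none) (xt := xt_pm_023_a) (P1 := 0) (W1 := 536870912) (P2 := 0) (W2 := 536870912) (P3 := 697932185) (W3 := 42949674) (N0 := 3) (En := eng) (mo := mog) (C1 := cd0q0) (C2 := cd4q2a) (C3 := pd3)
    rfl k0_pm_023_a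

noncomputable def f_pm_023_b : ℕ → ℕ → ℕ → ℕ → Bool := onCell 1610612736 536870912 1239849684 370763052 697932185 42949674
    (rowB 3 eng mog cd0q0 cd4q2b pd3 2 true true false .up 0 2 3 (qsf 0 536870912 1239849684 370763052 3) ndB0q0 ndB4q2b pcB3 Cut.none Ext.none)

def k0_pm_023_b : ∃ t, chk3 f_pm_023_b t 1 2 1 = true :=
  ⟨(b (a (a (a (b (a (b (l 16466632) (l 16467536)) (l 16474672)) (a (l 16451104) (l 16481968))) (b (a (l 16462168) (l 16461128)) (a (l 16497888) (l 16490048)))) (a (a (b (a (l 16503800) (l 16505432)) (l 16468584)) (b (l 206258703975) (l 16533800))) (a (a (b (l 215922344695) (a (l 16586424) (l 16556456))) (b (l 2) (l 16540184))) (b (l 2) (l 16580824))))) (l 2)) (a (a (a (b (a (l 16410224) (l 16456096)) (a (l 16355816) (l 16407616))) (b (a (l 16491456) (l 16512176)) (a (l 16457312) (l 16492024)))) (a (a (a (b (l 16514312) (l 16513216)) (b (l 16531064) (l 16533472))) (b (l 16500248) (l 16535312))) (a (a (b (l 16530680) (l 16545840)) (b (l 16570368) (l 16585736))) (l 16464048)))) (a (a (b (l 16604616)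 (l 16637944)) (b (l 2) (l 16887744))) (l 2)))), by decide +kernel⟩

def k1_pm_023_b : ∃ t, chk3 f_pm_023_b t 1 3 1 = true :=
  ⟨(b (a (a (a (b (a (l 16298472) (l 16351192)) (a (l 16246824) (l 16295576))) (b (a (l 16403088) (l 16448224)) (a (l 16344504) (l 16391504)))) (a (a (b (a (l 16479112) (l 16504512)) (l 16569672)) (b (l 16525776) (l 16490736))) (a (a (b (l 16550432) (l 16523520)) (b (l 16582808) (l 16558904))) (b (l 16602768) (l 16583240))))) (a (a (b (l 16633040) (l 16631400)) (a (l 16683392) (l 16715016))) (a (a (l 16721608) (l 16725024)) (l 2)))) (a (a (a (a (b (b (l 16214128) (l 16194568)) (b (l 16175568) (l 16155816))) (b (l 16245168) (l 16198592))) (b (a (l 16286856) (l 16332864)) (a (l 16234104) (l 16274288)))) (a (a (b (l 16597232) (l 16517488)) (b (l 16439792) (l 16382688))) (a (a (b (l 16480440) (l 16428864)) (l 16578872)) (b (l 16554312) (l 16510384))))) (a (a (a (b (l 16597256) (l 16567352)) (b (l 16642200) (l 16624168))) (a (l 16680128) (b (l 16706952) (l 16709968)))) (a (a (l 16718040) (l 16731376))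 (l 4))))), by decide +kernel⟩

theorem s2_pm_023_b : ∃ t, chk3 f_pm_023_b t 1 1 1 = true := ex3_b k0_pm_023_b k1_pm_023_b

theorem c_pm_023_b : CertB 0 536870912 1239849684 370763052 697932185 42949674 3 eng mog cd0q0 cd4q2b pd3 true true false .up 0 2 3
    ndB0q0 ndB4q2b pcB3 Cut.none Ext.none :=
  certB2 (fam := true) (s1 := true) (s2 := false) (a := 0) (b := 2) (c := 3) (cn := .up) (n1 := ndB0q0) (n2 := ndB4q2b) (pc := pcB3) (cut := Cut.none) (xt := Ext.none) (P1 := 0) (W1 := 536870912) (P2 := 1239849684) (W2 := 370763052) (P3 := 697932185) (W3 := 42949674) (N0 := 3) (En := eng) (mo := mog) (C1 := cd0q0) (C2 := cd4q2b) (C3 := pd3)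
    rfl (fun _ => rfl) s2_pm_023_b

noncomputable def f_pm_033 : ℕ → ℕ → ℕ → ℕ → Bool := onCell 1610612736 536870912 1610612736 536870912 697932185 42949674
    (rowB 3 eng mog cd0q0 cd4q3 pd3 2 true true false .pnn 0 3 3 (qsf 0 536870912 1610612736 536870912 3) ndB0q0 ndB4q3 pcB3 Cut.none Ext.none)

def k0_pm_033 : ∃ t, chk3 f_pm_033 t 1 1 1 = true :=
  ⟨(a (a (b (b (a (b (a (b (a (l 16107176) (l 16120088)) (l 413422671431)) (b (l 16140264) (l 16088016))) (a (l 1) (l 421475872903))) (b (a (l 16141992) (l 16173160)) (a (l 16019912) (l 16048640)))) (b (a (l 1) (a (l 1) (l 15911352))) (l 1))) (l 1)) (b (a (b (a (b (a (l 16204512) (l 16239856)) (a (l 16079032) (l 16111184))) (b (l 16271896) (l 16143968))) (b (a (a (l 15951064) (l 15982232)) (l 16021368)) (a (l 1) (l 15892656)))) (b (a (b (a (l 16320096) (l 16356624)) (a (l 16187640) (l 16219864))) (b (l 16403096) (l 16269848))) (b (a (l 16089744) (l 16159600)) (a (l 15979248) (l 16059120))))) (b (a (l 1) (b (a (l 1) (l 15900680)) (l 1))) (l 1)))) (a (b (b (a (b (a (l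 16463776) (l 16540232)) (a (l 16344024) (l 16416552))) (a (b (l 16604328) (l 16487848)) (b (l 16665712) (l 16568176)))) (a (b (a (l 16231128) (l 16306888)) (a (l 16136408) (l 16211632))) (b (a (l 16386088) (l 4)) (a (l 16468296) (l 4))))) (b (a (b (a (l 16000072) (l 16083328)) (a (l 1) (l 4))) (l 4)) (a (l 1) (l 4)))) (b (a (b (a (b (l 16719896) (l 4)) (l 4)) (l 4)) (l 4)) (l 4)))), by decide +kernel⟩

theorem c_pm_033 : CertB 0 536870912 1610612736 536870912 697932185 42949674 3 eng mog cd0q0 cd4q3 pd3 true true false .pnn 0 3 3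
    ndB0q0 ndB4q3 pcB3 Cut.none Ext.none :=
  certB2 (fam := true) (s1 := true) (s2 := false) (a := 0) (b := 3) (c := 3) (cn := .pnn) (n1 := ndB0q0) (n2 := ndB4q3) (pc := pcB3) (cut := Cut.none) (xt := Ext.none) (P1 := 0) (W1 := 536870912) (P2 := 1610612736) (W2 := 536870912) (P3 := 697932185) (W3 := 42949674) (N0 := 3) (En := eng) (mo := mog) (C1 := cd0q0) (C2 := cd4q3) (C3 := pd3)
    rfl (fun _ => rfl) k0_pm_033

noncomputable def cut_pm_101 : Cut := Cut.of [[⟨0, 1, 0, 67108864⟩, ⟨1, 0, 0, 67108864⟩, ⟨2, 1, 0, 67108864⟩]]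

noncomputable def f_pm_101 : ℕ → ℕ → ℕ → ℕ → Bool := onCell 536870912 536870912 0 536870912 697932185 42949674
    (rowB 3 eng mog cd0q1 cd4q0 pd1 2 true true false .npn 1 0 1 (qsf 536870912 536870912 0 536870912 1) ndB0q1 ndB4q0 pcB1 cut_pm_101 Ext.none)

def k0_pm_101 : ∃ t, chk3 f_pm_101 t 1 1 1 = true :=
  ⟨(a (l 3) (a (l 3) (b (b (a (l 3) (b (a (l 3) (a (l 3) (b (l 6) (l 3)))) (l 3))) (l 3)) (l 3)))), by decide +kernel⟩

theorem c_pm_101 : CertB 536870912 536870912 0 536870912 697932185 42949674 3 eng mog cd0q1 cd4q0 pd1 true true false .npn 1 0 1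
    ndB0q1 ndB4q0 pcB1 cut_pm_101 Ext.none :=
  certB2 (fam := true) (s1 := true) (s2 := false) (a := 1) (b := 0) (c := 1) (cn := .npn) (n1 := ndB0q1) (n2 := ndB4q0) (pc := pcB1) (cut := cut_pm_101) (xt := Ext.none) (P1 := 536870912) (W1 := 536870912) (P2 := 0) (W2 := 536870912) (P3 := 697932185) (W3 := 42949674) (N0 := 3) (En := eng) (mo := mog) (C1 := cd0q1) (C2 := cd4q0) (C3 := pd1)
    rfl (fun _ => rfl) k0_pm_101

noncomputable def cut_pm_102 : Cut := Cut.of [[⟨0, 1, 0, 67108864⟩, ⟨1, 0, 0, 67108864⟩, ⟨2, 1, 0, 67108864⟩]]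

noncomputable def xt_pm_102 : Ext := extD2 3 ⟨7, 3, 3, 10, 49, 25, 3, 4, 67, 200, 3, 16⟩ eng cd0q1 cd4q0 pd2 true true false .npp 1 0 2 rfl ndB0q1 ndB4q0 pcB2

noncomputable def f_pm_102 : ℕ → ℕ → ℕ → ℕ → Bool := onCell 536870912 536870912 0 536870912 697932185 42949674
    (rowB 3 eng mog cd0q1 cd4q0 pd2 0 true true false .npp 1 0 2 (qsf 536870912 536870912 0 536870912 2) ndB0q1 ndB4q0 pcB2 cut_pm_102 xt_pm_102)

def k0_pm_102 : ∃ t, chk3 f_pm_102 t 2 2 1 = true :=
  ⟨(b (l 1) (l 3)), by decide +kernel⟩

def k1_pm_102 : ∃ t, chk3 f_pm_102 t 4 6 1 = true :=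
  ⟨(l 3), by decide +kernel⟩

def k2_pm_102 : ∃ t, chk3 f_pm_102 t 4 14 1 = true :=
  ⟨(a (l 3) (b (a (l 3) (b (l 3) (a (l 3) (a (b (l 3) (a (l 3) (b (l 3) (l 2961868258197381162637901871)))) (b (a (l 3) (b (l 3058582323766864994940321839) (l 2855482786071495143376191535))) (a (b (l 2942525445083656565991276591) (a (l 141183442731024431) (l 141194850164473903))) (b (c (l 141373795735617583) (l 141151556874387503)) (l 141182137055903791)))))))) (a (b (l 3) (a (l 3) (c (a (b (l 3) (l 2990882477867545673275916335)) (b (l 3000553884424585096090452015) (a (l 2545997776249624851524190255) (l 2323555425440579537672405039)))) (a (l 3252010454904323235905568815) (b (l 3203653422119760677603262511) (l 2671726061489121530564132911)))))) (b (b (a (a (l 3) (c (l 3135953576221881098005512239) (l 3222996235233872989621141551))) (a (a (c (b (l 2894168412298875548449046575) (l 141129566659625007)) (l 3106939356550866595974397999)) (b (c (l 141206051454681135) (l 140998106250313775)) (l 141032466002346031))) (a (b (l 141105033785884719)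 (l 16429856)) (l 141049439712837679)))) (a (c (a (l 3019896697538553234618220591) (a (l 2671726061489729491886686255) (b (l 141057892228988975) (l 140977352981528623)))) (a (l 3213324828676807453401432111) (a (l 3097267949993808481458733103) (l 140829331177209903)))) (a (b (a (l 140964364985794607) (l 16422456)) (l 16434728)) (l 16412120)))) (a (b (a (c (a (l 2594354809034315021908213807) (l 2391255271339073607064977455)) (a (l 3077925136879849001589817391) (l 140713126517997615))) (b (a (l 140840944778231855) (l 16409032)) (l 16422216))) (a (a (b (l 140913787399847983) (l 16391144)) (l 16432296)) (l 16387864))) (b (l 16437568) (l 16376656))))))), by decide +kernel⟩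

def k3_pm_102 : ∃ t, chk3 f_pm_102 t 4 15 1 = true :=
  ⟨(a (b (a (l 3) (b (l 3) (a (l 3) (c (a (b (l 3) (l 200419842215)) (b (l 2400926677895867769959628847) (b (l 2072098854960570711741300783) (l 140981750913663023)))) (b (l 207399140151) (a (l 210083478759) (l 2226841359871240222402920495))))))) (a (b (l 3) (a (l 3) (b (l 3) (a (l 3) (b (l 192903601783) (l 163912617559)))))) (b (a (b (l 3) (a (l 3) (a (l 3087596543436679104710967343) (c (l 1704585405797595074620882991) (l 195587987159))))) (a (c (b (l 1927027756606866956586811439) (a (b (l 140604962005614639) (l 16363328)) (l 16362072))) (b (l 2159141513972817346480554031) (l 140802805339504687))) (b (b (a (l 141018721965867055) (l 16360840)) (l 16378344)) (l 16350648)))) (a (b (a (b (l 194514216263) (a (l 189682420839) (l 16377792))) (b (a (b (l 16358704) (l 16356704)) (l 16355600)) (l 16353184))) (a (b (a (l 16356448) (l 16354552)) (l 16352592)) (l 16346656))) (b (l 16344800) (l 16335512)))))) (a (b (b (a (b (a (l 3) (l 3058582323765827193198215215)) (a (c (l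 2990882477867335597782319151) (l 206862272711)) (c (a (l 2381583864781967251378307119) (l 2168812920529822753191903279)) (l 2536326369692217916868542511)))) (b (a (c (b (l 2516983556578448446451810351) (l 2236512766428216423343374383)) (l 2642711841818278002654281775)) (a (a (l 140977421608615983) (l 140969312706691119)) (l 141046209795883055))) (a (c (a (l 140942099796803631) (l 140745768246657071)) (l 141167705793970223)) (l 16370008)))) (a (b (a (c (a (l 2313884018883515788145295407) (l 141087097886261295)) (l 2294541205769661792657637423)) (c (a (l 140969587572277295) (l 16376376)) (l 141105926972424239))) (a (b (a (l 140970137304563759) (l 16365208)) (c (l 16369000) (l 16353000))) (l 16357832))) (b (l 16359536) (l 16346104)))) (b (a (b (l 16349832) (l 16338616)) (l 16326056)) (a (l 16321632) (l 16300760)))) (b (a (b (b (l 16395544) (l 16358600)) (l 16335032)) (b (l 16349128) (l 16313752))) (b (a (l 16304984) (l 16279616)) (l 16261992))))), by decide +kernel⟩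

def k4_pm_102 : ∃ t, chk3 f_pm_102 t 10 12 1 = true :=
  ⟨(l 3), by decide +kernel⟩

def k5_pm_102 : ∃ t, chk3 f_pm_102 t 22 24 1 = true :=
  ⟨(l 3), by decide +kernel⟩

def k6_pm_102 : ∃ t, chk3 f_pm_102 t 46 24 1 = true :=
  ⟨(b (l 3) (a (l 3) (b (l 3) (b (l 3) (b (l 3) (a (l 3) (a (l 3) (c (l 3687223749968565498892960047) (a (l 4093422825358804580520935663) (b (l 143638171685699823) (l 143591304992080111))))))))))), by decide +kernel⟩

def k7_pm_102 : ∃ t, chk3 f_pm_102 t 47 24 1 = true :=
  ⟨(b (a (l 3) (b (l 3) (a (l 3) (c (a (l 4335207989282319135373148463) (l 3368067333590606381097533743)) (a (l 4383565022066945602741092591) (l 3619523904070490755870343407)))))) (a (b (b (l 3) (a (l 3) (c (a (l 4151451264700889041149002031) (l 3358395927033750233068175663)) (a (l 3822623441765585592040751343) (b (l 3484124212273440082549407983) (a (l 3455109992602655447245078767) (l 3058582323769047182332969199))))))) (a (a (b (l 3) (a (b (l 3397081553260906681326223599) (b (a (l 143713419528700143) (l 143705997822722287))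 (l 143666277956616431))) (b (b (l 3416424366374715390646321391) (a (l 143744824334958831) (l 143737540067967215))) (b (l 143698095079833839) (l 16708616))))) (b (c (b (l 230485329975) (l 3658209530297938712254955823)) (b (l 3803280628651556361918546159) (a (l 3832294848322138687052710127) (b (l 143772518285508847) (l 143726476225773807))))) (b (a (c (l 143831410894373167) (b (l 143692597518008559) (l 143647586250637551))) (b (l 143761935484682479) (l 16713976))) (c (l 143745648967139631) (l 143578110843027695))))) (b (a (c (b (l 3638866717184168348424651055) (a (l 143889685020737839) (l 143885149532504367))) (b (c (l 3667880936854826677306835183) (a (l 3745252189310074639941353711) (l 3725909376196232601682854127))) (a (b (l 143760423652999407) (l 143716305738989807)) (l 143735547194720495)))) (c (b (a (l 143948027866546479) (l 143943698536743215)) (l 16727272)) (b (a (b (l 143828524665864431) (l 16717600)) (l 143803579488043247)) (l 143714312868806895)))) (b (a (c (l 143804335410430255) (l 143646143136448751)) (l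 16708768)) (l 16701152))))) (a (a (b (c (b (l 217600467319) (b (l 3406752959818285784581144879) (a (l 144006508151275823) (l 16740656)))) (a (l 3996708759789910017829142767) (b (l 3484124212273601710788952303) (b (l 3029568104098370367905988847) (l 143871749220303087))))) (b (c (l 143878621175234863) (l 143915592216969455)) (l 16699304))) (b (b (c (l 3387410146704625990412779823) (c (l 3551824058172136943076835631) (l 3590509684399350359876157679))) (a (b (b (l 144026711675781359) (l 16736936)) (l 143923701156790511)) (c (l 144017984301400367) (l 143893052258844911)))) (l 16704392))) (b (a (c (b (a (l 144168754865930543) (b (l 144197754490011951) (l 16750384))) (l 16737240)) (b (b (c (l 144128347798438191) (l 2971539664757018869361754351)) (a (l 144010631308050671) (l 144008707159982319))) (l 143872917444608239))) (b (a (b (b (l 144154598643319023) (l 16747472)) (l 16740168)) (b (l 144128828831629615) (l 16738344))) (l 16724728))) (l 16697512))))), by decide +kernel⟩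

def k8_pm_102 : ∃ t, chk3 f_pm_102 t 22 25 1 = true :=
  ⟨(b (a (l 3) (b (l 3) (a (l 3) (a (l 3) (a (l 3) (b (l 3) (c (l 3803280628651104531288441071) (l 3987037353232046579685703855)))))))) (a (b (l 3) (a (l 3) (b (l 3) (a (l 3) (l 3745252189308900636176515183))))) (a (b (b (l 3) (a (l 3) (b (l 3) (l 4035394386016465376780255343)))) (a (b (l 4006380166345738740724170863) (b (l 3764595002422643924518600815) (a (c (l 3164967795894069054037311599) (l 142436542694260911)) (c (b (l 142879645964025967) (l 142876484866588783)) (l 142400671106941103))))) (a (b (l 3793609222093471372064129135) (b (c (b (l 142902117237047407) (l 142873392489021551)) (l 142410635432607919)) (l 142702624552845423))) (b (b (c (b (l 3716237969638479183390441583) (l 3193982015564917942063399023)) (l 3793609222093273597390799023)) (c (a (l 142942799175303279) (l 142936476981051503)) (l 142469528035705007))) (b (l 142532337691050095) (l 16617520)))))) (a (b (b (a (l 3) (l 3967694540118179596258492527)) (a (b (l 4199808297484028212618002543) (c (b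 (l 3735580782752371043277275247) (l 3213324828678808496279863407)) (l 3812952035207168618369581231))) (b (c (a (l 3851637661435431519153357039) (b (l 143143185210818799) (l 143099479613784303))) (l 3561495464727427248705732783)) (c (a (l 143050207738675439) (l 143043885544390895)) (l 142591642569851055))))) (b (a (b (c (b (l 143010144275791983) (l 142976746602381423)) (l 142530757101502639)) (l 142767564470763631)) (a (l 142787493122326639) (l 142590405658378351))) (l 142465130024665199))) (b (a (c (b (b (l 3793609222094008621057376495) (a (l 3764595002423244326721945839) (b (l 143200428545458415) (l 143157272704352495)))) (b (a (l 143105664366936303) (l 143101128879014127)) (l 143019558842401007))) (b (l 4122437045028758809506742447) (b (l 142655964011970735) (l 142748116853358767)))) (b (a (c (b (b (l 143272446572069103) (l 143229084572483823)) (l 143162976421003503)) (l 4132108451585579429463965871)) (b (b (l 142775673444630639) (l 143091645588684911)) (c (l 143158440933064943) (l 142903422901878959)))) (c (l 143033096579907823)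 (l 142586007608852655)))) (l 142571439011545199)))))), by decide +kernel⟩

def k9_pm_102 : ∃ t, chk3 f_pm_102 t 92 50 1 = true :=
  ⟨(a (b (l 3) (b (c (a (l 3) (b (l 3) (a (l 3880651881106428703837602031) (l 3793609222094250032623255791)))) (l 3967694540118398055472365679)) (a (c (b (l 3851637661435633210853245167) (c (l 3735580782752732370355536111) (a (l 3803280628651019456558547183) (l 143236025238126831)))) (l 3938680320447442377351315567)) (a (a (b (b (l 143277463091708015) (l 143231627190452335)) (l 143167168306724975)) (b (b (l 143270728580759663) (l 143224068045602927)) (l 143165381599101039))) (b (c (l 143352092457205999) (b (l 143142910326079599) (l 16658704))) (c (l 143273133760479471) (l 143034883284238447))))))) (b (a (l 3) (b (l 3) (b (l 3) (a (l 3300367487691373714610585711) (a (l 3310038894248260855029727343) (b (l 3319710300805158853155160175) (l 143424935113916527))))))) (b (a (a (b (l 3300367487691291938421047407) (a (b (l 143338692156391535) (l 143293199852585071)) (b (l 143332232523399279) (l 143286053024677999))))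 (b (a (l 3300367487691272490803167343) (b (l 143048970856120431) (l 143363087573909615))) (c (l 143409473230569711) (b (l 143209087193841775) (l 16664464))))) (b (a (a (b (l 143400196098965615) (l 143355047392624751)) (b (l 143393942624436335) (l 143348381601136751))) (c (l 143466991442886895) (b (l 143275607658987631) (l 16670216)))) (c (l 143396622683341039) (a (l 143183179943460975) (l 143167237019697263))))) (c (a (b (l 143338967032037615) (l 143249906570150127)) (l 143263787904909551)) (l 142865558449111151))))), by decide +kernel⟩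

def k10_pm_102 : ∃ t, chk3 f_pm_102 t 93 50 1 = true :=
  ⟨(b (a (a (c (b (l 3) (b (a (l 3977365946675758398313021679) (l 3745252189309849995938037999)) (b (l 3261681861463932630221029615) (l 143510216001454319)))) (c (l 4045065792573958897939136751) (b (l 3) (l 4083751418801403005989568623)))) (a (b (c (l 3987037353232876711092437231) (l 3841966254878943707680669807)) (b (a (b (l 143523753739894895) (l 143479567106392175)) (b (l 143518118740721903) (l 143474138265698543))) (c (l 143520111606038767) (l 143316083434635375)))) (b (b (l 3) (a (l 3252010454906903515325333743) (b (l 143594672253436143) (l 143549248669122799)))) (b (b (l 143508223132680431) (l 16692424)) (l 143403838223876335))))) (b (b (a (a (l 3368067333590009964538183919) (b (l 3387410146703817711766814959) (a (l 143619548707242223) (l 143611783403831535)))) (a (c (l 143715137519452463) (b (l 143557701162205423) (l 143511109346558191))) (b (l 143634529552875759) (l 16703240)))) (a (a (b (a (l 143588350059380975) (l 143580516036493551)) (l 143539696658514159))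 (c (l 143640576871858415) (l 143632880248045807))) (c (l 143628757116813615) (l 143442870889791727)))) (a (b (c (l 143570482990317807) (l 143375594510532847)) (l 143382466459435247)) (a (l 143407274193699055) (l 16681472))))) (a (c (b (a (b (l 143454415773565167) (l 143365905067606255)) (l 143380061280223471)) (l 16666488)) (a (a (l 142924725927755887) (l 142910019954786415)) (l 142888716909674607))) (l 16654984))), by decide +kernel⟩

def k11_pm_102 : ∃ t, chk3 f_pm_102 t 47 50 1 = true :=
  ⟨(a (b (b (a (a (b (c (l 143687099962786095) (l 143510353427464431)) (l 16692872)) (l 16693224)) (l 16686240)) (l 16671032)) (l 16641688)) (l 16623016)), by decide +kernel⟩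

def k12_pm_102 : ∃ t, chk3 f_pm_102 t 23 51 1 = true :=
  ⟨(a (b (a (a (b (c (a (b (a (l 143220288475021551) (l 143215821706543343)) (l 143134663986888943)) (l 143148201724297455)) (a (b (a (l 142972142392754287) (l 142969118733353071)) (l 142879920833347695)) (l 142717742869217391))) (l 16632616)) (l 142716368472703087)) (l 16641120)) (a (l 16578928) (l 16583224))) (l 16581016)), by decide +kernel⟩

def k13_pm_102 : ∃ t, chk3 f_pm_102 t 20 13 1 = true :=
  ⟨(b (l 3) (b (l 3) (a (l 3) (a (b (l 3) (b (a (l 3) (l 3725909376194203040295485487)) (a (l 3735580782751193740944883759) (c (l 3464781399157635965409132591) (b (l 3435767179486677194854694959) (l 3416424366372695175011401775)))))) (b (a (b (l 3) (b (l 3) (l 3832294848320241616774135855))) (a (b (l 3) (c (l 3590509684397796268535152687) (b (l 3870980474547965344432619567) (a (l 3503467025385175318628974639) (l 141971311707996207))))) (b (a (l 3696895156523558317909278767) (a (l 3812952035206555159452581935) (b (l 3) (l 3812952035206842406846824495)))) (b (a (a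 (l 142233270379184175) (l 142229284691279919)) (l 142225298960220207)) (l 142166749951393839))))) (b (a (b (a (l 3832294848320491549493526575) (c (l 142288933220057135) (l 3474452805714364295040712751))) (a (c (l 142224886653206575) (l 3455109992600475183932031023)) (l 142034808483102767))) (b (a (c (l 142270516395147311) (l 141910632394784815)) (l 142094044727148591)) (l 142023469807894575))) (a (b (a (l 141977152871776303) (l 141977977504186415)) (l 141911113437429807)) (l 16533112)))))))), by decide +kernel⟩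

def k14_pm_102 : ∃ t, chk3 f_pm_102 t 21 26 1 = true :=
  ⟨(a (l 3) (b (l 3) (b (a (l 3) (a (b (l 3) (c (l 3696895156524426863512879279) (a (l 3677552343410150380659294255) (b (l 3706566563080875436118130735) (c (l 3532481245056680134247628975) (a (l 3445438586044182054829981743) (l 142477362059542575))))))) (a (b (l 3735580782751686253557432367) (b (c (l 142761036124029103) (c (l 3532481245056683295345197231) (l 3435767179487271481067208751))) (a (l 142782751488163887) (l 142777666244542511)))) (c (b (l 3716237969638232617853812911) (l 142709290354917551)) (b (b (l 3716237969637848132306124847) (l 3503467025385831108746919983)) (b (l 142600095032442927) (l 142575974531121199))))))) (a (a (b (l 3) (c (l 3716237969638233305066127535) (a (l 3658209530296265323995725871) (b (l 3667880936853159473806311471) (a (b (l 3687223749967186642270650415) (l 3522809838499582987014717487)) (a (l 3513138431942666640814178351) (l 142549654962733103))))))) (a (b (b (l 3) (l 3725909376194679266336407599)) (b (a (a (l 3667880936853603401573875759)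 (b (l 3667880936853606700106432559) (l 142803710933090351))) (b (l 3658209530296681901409091631) (l 142795602032590895))) (a (a (l 142784057156894767) (l 142780552462467119)) (l 142779178072080431)))) (b (b (l 3725909376194689024505839663) (a (b (l 3725909376195126423965351983) (l 3658209530296688635919876143)) (b (l 142821784076697647) (l 142807765384101935)))) (b (c (l 142930773230862511) (a (l 142555152522919983) (l 142556526911914031))) (l 142763372588056623))))) (a (b (a (b (a (b (l 3735580782752035898223624239) (l 142818073266667567)) (a (l 3648538123739762875154415663) (l 142803367337345071))) (c (l 142743924971192495) (a (l 142566285081952303) (l 142568277946368047)))) (a (b (l 142790104431689775) (l 142776635452801071)) (l 142770175820169263))) (b (l 142753545659940911) (l 16626072))) (b (a (l 142742894180335663) (l 16624248)) (l 16619408))))))), by decide +kernel⟩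

def k15_pm_102 : ∃ t, chk3 f_pm_102 t 21 54 1 = true :=
  ⟨(a (b (a (l 3) (b (a (l 3) (c (l 3716237969638251103417761839) (a (b (l 3) (l 3648538123739291597016612911)) (b (l 3658209530296220312729255983) (a (b (l 3677552343410247206315868207) (l 3532481245056478373769592879)) (b (l 3532481245056483733890678831) (l 142523129235488815))))))) (a (c (b (l 3696895156524396008493334575) (l 3667880936853649443738222639)) (b (a (l 3) (l 3638866717182364461851918383)) (a (c (l 3677552343410280123020279855) (l 3764595002422282666167730223)) (b (l 3658209530296179424574914607) (a (l 3658209530296342908200157231) (l 142469528029462575)))))) (b (c (l 3677552343410544830496047151) (a (a (l 3532481245056472670052417583) (b (l 3532481245056473013648490543) (l 142512752590733359))) (a (b (l 142517906553372719) (l 142511378200068143)) (l 142513096187314223)))) (a (c (l 142932834861137967) (b (a (c (l 142619405245464623) (l 142383491222192175)) (l 142497977898549295)) (l 142464580224843823))) (c (l 142914211878584367) (l 142478736439033903)))))))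 (a (a (b (l 3) (a (l 3) (b (l 3) (a (l 3812952035206604568767135791) (b (l 3822623441763914746288177199) (l 3609852497511698436249780271)))))) (b (c (l 3629195310625899190363013167) (a (l 3) (a (l 3793609222092971506520375343) (b (l 3783937815536043134416830511) (b (l 3629195310625488934928597039) (l 142333463434690607)))))) (a (c (l 3561495464727317091373596719) (b (b (l 3861309067991435682772598831) (a (l 3861309067991398505525706799) (l 142267836319465519))) (b (a (l 142235606877519919) (l 142230246756384815)) (l 142198086033473583)))) (b (c (l 142704823586717743) (b (a (l 142300409358876719) (l 142295255396204591)) (l 142262201319931951))) (l 142422592621543471))))) (a (a (b (c (l 3532481245056679859386400815) (b (b (l 3638866717182479017147220015) (a (l 3638866717182439847035289647) (l 142400671098191919))) (a (b (l 142366861107970095) (l 142328378191527983)) (l 142344733430267951)))) (b (l 142490350040907823) (l 142408573843898415))) (b (b (c (l 142856075188617263) (a (b (l 142434893405356079) (l 142395929452478511))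 (l 142412628288684079))) (l 142559619289055279)) (l 142426921947922479))) (b (a (b (l 142630469085478959) (l 142544638438539311)) (l 142563467578982447)) (l 142405618903613487))))) (b (a (b (a (a (c (l 3677552343410531017888170159) (b (a (b (l 3677552343410258407594442799) (l 3532481245056489162731241519)) (b (l 3532481245056494591571804207) (l 142533712038690863))) (a (b (l 142528420637081647) (l 142521892283793455)) (l 142523404112592943)))) (b (a (b (l 142776704127533103) (l 142766258806374447)) (l 142766396245344303)) (l 142742000823484463))) (c (l 142882463469224111) (a (l 142510965883519023) (l 142492342899933231)))) (a (a (b (l 142731967776292911) (l 142685582116978735)) (l 142683039495831599)) (l 16614752))) (b (l 142653352675901487) (l 16605408))) (a (a (l 142447743951519791) (l 16585288)) (l 16576480)))), by decide +kernel⟩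

def k16_pm_102 : ∃ t, chk3 f_pm_102 t 21 55 1 = true :=
  ⟨(a (a (b (a (b (b (a (a (l 3822623441763460716694388783) (a (l 3812952035206910232983437359) (l 3803280628649991344160473135))) (a (a (l 3590509684397812142645559343) (l 142359439409807407)) (l 142355591117733935))) (a (a (a (l 3580838277840829207256105007) (l 142293606136135727)) (l 142289689124569135)) (l 142291750708117551))) (c (l 142359095819534383) (b (l 142031853578846255) (l 141961278658609199)))) (b (a (a (l 142319307224301615) (l 142309892653301807)) (l 142296354912518191)) (l 16558872))) (l 141944442388201519)) (b (a (l 142194237744267311) (l 16557720)) (l 16524672))) (a (l 16530792) (l 16518744))), by decide +kernel⟩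

def k17_pm_102 : ∃ t, chk3 f_pm_102 t 11 13 1 = true :=
  ⟨(a (b (a (b (a (b (l 3) (b (a (l 3) (b (l 3764595002422443401072083119) (a (l 3754923595865549594859061423) (l 3629195310625705607528448175)))) (a (c (l 3716237969638233717365489839) (a (l 3716237969637907505950359599) (l 3493795618828793678845820975))) (a (b (a (l 3638866717182639889516970159) (l 142586076296429743)) (l 142578654590337199)) (l 142557626424524975))))) (b (a (b (l 3) (a (l 3774266408979366206907170991) (b (l 3774266408979340299657937071) (l 142574462700994735)))) (b (a (l 3754923595865556672979910831) (l 3261681861462907953892376687)) (a (b (l 142567247153856687) (l 142550342200295599)) (l 142529657589104751)))) (a (b (a (b (l 3629195310625698391980540079) (l 142564429654278319)) (l 142543538927501487)) (l 142503131864596655)) (b (l 142489662843043951) (l 16610968))))) (a (b (a (b (a (b (c (l 142747773260562607) (l 3503467025385845196243550255)) (l 142773199433547823)) (b (l 142765983886180399) (l 142735884790448175))) (l 142710596016521263))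 (b (l 142696852073775279) (l 16615016))) (l 142600301225787439)) (b (l 142575012449992815) (l 16590432)))) (b (a (b (a (b (b (a (c (a (l 142887342547615855) (l 142868169808560239)) (l 142404862996431023)) (l 142709565221912687)) (l 142519143506182255)) (l 142476262541164655)) (l 142622909937713263)) (l 16579872)) (b (l 16576400) (l 16583400))) (l 16571920))) (a (b (b (l 16585096) (l 16554496)) (l 16498280)) (l 16504600))) (b (b (a (l 16545104) (l 16537576)) (l 16527800)) (l 16533392))), by decide +kernel⟩

def k18_pm_102 : ∃ t, chk3 f_pm_102 t 5 7 1 = true :=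
  ⟨(a (b (a (b (b (a (b (a (l 3) (b (l 3754923595865086769029709871) (c (l 3377738740145460523956617263) (l 3319710300803696708476387375)))) (a (a (b (l 3) (l 3039239510653140810614800431)) (b (l 3658209530295928186104561711) (l 3039239510653110505322397743))) (b (a (l 3135953576222385567740919855) (b (a (l 141655889243045935) (l 141659256496717871)) (l 141605036816302127))) (a (b (a (l 141560369147723823) (l 141564423596343343)) (l 141513846048948271)) (l 141516251230142511))))) (a (b (b (a (b (l 3435767179486833531645034543) (l 3416424366373028876772474927)) (b (a (l 141862185160605743) (l 141863834426949679)) (l 141804048467738671))) (a (b (a (l 141756425861185583) (l 141758968480940079)) (l 141702068740358191)) (l 141705917030694959))) (b (a (l 141608747667734575) (l 16494416)) (l 16481704))) (b (b (a (l 141807896758026287) (l 16516832)) (l 16503008)) (l 16480600)))) (a (b (a (a (b (c (l 2816797159843919987259899951) (l 2971539664754355989099708463)) (a (b (l 141379980478955567) (l 141344246340943919)) (l 141362250847027247)))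 (b (a (b (l 141469796855726127) (l 141431176499085359)) (l 141446844543139887)) (l 141344933533614127))) (b (a (l 141428358998425647) (l 16473800)) (l 16483112))) (a (a (b (l 141263775812452399) (l 16446104)) (l 16490520)) (l 16443216))) (a (l 16468976) (l 16438560)))) (a (b (a (b (l 16426864) (l 16404656)) (l 16407312)) (l 16368720)) (b (l 16393272) (l 16345640)))) (b (a (b (a (l 16507048) (l 16475504)) (l 16422560)) (b (l 16456736) (l 16394144))) (l 16430176))) (a (b (a (b (l 16327320) (l 16287968)) (l 16278160)) (a (l 16231016) (b (l 16212512) (l 16267416)))) (b (a (l 16239472) (b (l 16235648) (l 16259296))) (a (b (l 16262400) (l 16409104)) (b (l 16408688) (l 16272976)))))) (b (a (b (l 16454880) (a (l 16296536) (b (l 16312576) (l 16288112)))) (b (a (l 16373216) (b (l 16386816) (l 16337776))) (b (a (l 16323568) (l 16403384)) (a (l 16390304) (l 16295400))))) (a (b (a (b (l 16257080) (l 16409840)) (b (l 16391256) (l 16280648))) (l 16298048)) (b (l 16314264) (l 16342248))))), by decide +kernel⟩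

def k19_pm_102 : ∃ t, chk3 f_pm_102 t 6 4 1 = true :=
  ⟨(l 3), by decide +kernel⟩

def k20_pm_102 : ∃ t, chk3 f_pm_102 t 12 5 1 = true :=
  ⟨(b (l 3) (a (b (l 3) (a (b (l 3) (a (l 3) (a (l 3) (b (l 3) (b (l 3) (c (l 3087596543440475925496267119) (l 3029568104099056325907431727))))))) (a (b (l 3) (b (a (l 3) (c (l 140828030583) (l 138680564039))) (a (c (l 1762613845143028442395820399) (b (l 1985056195952201024621429039) (l 144733835194188079))) (b (c (l 16829760) (l 144867563315822959)) (l 16786880))))) (b (b (l 3) (a (l 133848776935) (b (l 142438693655) (l 144586135575)))) (b (c (a (b (l 116668944311) (l 16816544)) (b (l 16823624) (l 16806576))) (a (l 134922441783) (l 145027336071037295))) (l 16780144)))))) (b (a (b (l 3) (a (l 3) (b (l 3) (c (l 83382984903) (a (l 130090754567) (l 105931550823)))))) (b (a (l 3) (b (l 3) (b (a (l 3) (l 47949594247)) (a (l 50633942087) (l 87677937063))))) (a (b (a (b (l 3) (l 91972915303)) (b (l 87141090631) (l 92509752135))) (b (a (l 94657222919) (l 16854008)) (l 16832424))) (b (b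 (a (l 90899150583) (l 16860448)) (l 16849912)) (l 16823152))))) (a (b (a (b (a (l 130090729143) (b (l 107005323767) (l 130627528375))) (a (b (l 133848735991) (c (l 16830040) (l 16804744))) (b (l 16813088) (l 16816520)))) (b (a (b (l 127943189767) (l 16818768)) (l 16825808)) (l 16806312))) (a (l 16781000) (l 16750808))) (b (a (a (l 16804432) (l 16790352)) (l 16768728)) (l 16711016)))))), by decide +kernel⟩

def k21_pm_102 : ∃ t, chk3 f_pm_102 t 13 20 1 = true :=
  ⟨(a (l 3) (b (a (l 3) (b (a (l 3) (a (l 3) (l 119353291159))) (a (a (l 3) (l 137606907239)) (a (b (l 99489095623) (l 16894624)) (b (l 16889592) (l 16880056)))))) (a (a (b (l 3) (c (l 148344362359) (a (l 3) (l 211695170439)))) (b (c (l 103247191383) (a (l 3) (l 156934345703))) (a (b (l 126869531831) (c (l 16907584) (l 118816481655))) (b (l 51707611703) (a (l 16902192) (l 16895792)))))) (a (b (a (b (l 118279584183) (l 49560123559)) (b (l 16889024) (l 16889912))) (a (b (l 16894112) (l 16884872)) (l 16875232))) (b (a (l 16880152) (l 16865544)) (l 16811080)))))),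 by decide +kernel⟩

def k22_pm_102 : ∃ t, chk3 f_pm_102 t 13 21 1 = true :=
  ⟨(a (b (a (l 3) (b (l 3) (a (l 3) (b (a (l 3) (c (a (l 16913848) (l 158544880935)) (b (l 63518825351) (l 16917048)))) (c (a (l 156397391335) (l 16936136)) (a (b (l 16923136) (l 27011594839)) (a (l 16907544) (l 16879792)))))))) (a (b (l 3) (a (l 3) (b (a (l 3) (c (l 40433412455) (l 154786787495))) (a (b (l 16928632) (l 43117761431)) (b (l 49023331463) (l 16886872)))))) (a (b (b (a (l 3) (c (l 16940616) (a (l 24327242647) (l 158544893895)))) (a (c (l 16941216) (b (l 153713076071) (l 36675321895))) (a (l 43654635207) (l 16911712)))) (b (a (b (l 46875853927) (l 16887504)) (l 16877632)) (l 16867592))) (b (b (a (b (c (l 16896168) (a (l 141901906343) (l 16902296))) (l 16913608)) (l 16882872)) (l 16894024)) (l 16847400))))) (b (a (b (a (b (a (l 3) (c (l 16911480) (a (l 140828199607) (l 71571855079)))) (a (c (b (l 16916112) (l 16908216)) (b (l 129553918839) (l 66203169111))) (c (l 16898192) (b (l 16913624) (l 16905608))))) (a (b (b (l 16894880) (l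 16901152)) (l 16890160)) (l 16903600))) (a (a (b (a (b (l 16908896) (l 16864408)) (l 16898152)) (l 16885344)) (l 16879576)) (b (l 16824608) (l 16849880)))) (b (b (l 16852640) (l 16776224)) (l 16835304))) (a (b (a (l 16874096) (l 16824760)) (l 16805008)) (l 16764368)))), by decide +kernel⟩

def k23_pm_102 : ∃ t, chk3 f_pm_102 t 13 11 1 = true :=
  ⟨(b (a (b (a (b (a (b (a (l 3) (c (l 16897992) (l 43654637655))) (c (l 75329938487) (a (l 46875856599) (l 89825441671)))) (a (b (a (l 82309259239) (l 16884872)) (l 16868984)) (l 16863392))) (a (b (a (l 86067334695) (l 16866160)) (l 16861056)) (l 16835576))) (b (l 16911032) (l 16792336))) (a (b (b (l 16823536) (l 16805688)) (l 16778912)) (l 16740344))) (a (l 16846536) (l 16669224))) (a (a (l 16733696) (l 16641744)) (a (l 16600016) (l 16568552)))), by decide +kernel⟩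

def k24_pm_102 : ∃ t, chk3 f_pm_102 t 7 4 1 = true :=
  ⟨(a (b (l 3) (b (a (l 3) (b (a (l 3) (b (a (l 3) (b (l 178409024167) (a (l 16839496) (l 16826728)))) (a (b (l 115058278183) (c (l 16859608) (l 16863296))) (a (l 16848008) (l 16834560))))) (a (b (a (l 3) (b (l 3) (c (l 16866928) (l 16860744)))) (a (a (l 3) (c (l 16872824) (l 16859296))) (c (a (l 135459283095) (l 16825600)) (l 16867408)))) (b (a (c (a (l 139754238215) (l 16818744)) (l 16859704)) (l 16822952)) (a (l 16829616) (l 16783752)))))) (a (b (a (l 3) (b (a (l 3) (a (l 3) (b (l 3) (l 16858016)))) (a (a (l 3) (l 54928776583)) (a (c (l 16855184) (l 16860944)) (l 16864584))))) (a (b (a (l 3) (a (l 3) (l 71571774823))) (a (b (l 3) (l 98952194087)) (a (l 44728247463) (l 16879344)))) (a (b (a (b (l 16872928) (l 16863048)) (a (l 16856736) (l 16849776))) (l 16841912)) (a (l 16850680) (l 16836616))))) (a (b (b (a (b (a (l 16853520) (l 16797720)) (l 16858064)) (l 16836728)) (a (a (l 16830360) (l 16816864)) (l 16796992))) (a (l 16815848) (l 16767944))) (a (l 16803624)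 (l 16821112)))))) (b (a (b (l 3) (b (a (l 3) (l 6)) (a (b (a (l 3) (l 6)) (a (b (l 186998923527) (a (l 59760564919) (l 16819784))) (b (l 6) (l 16823040)))) (b (l 6) (a (l 16782888) (l 16759528)))))) (b (l 6) (b (l 6) (b (l 6) (a (l 16734248) (l 16688976)))))) (a (b (b (a (b (a (a (l 16839800) (l 16827992)) (l 16789216)) (a (l 16795592) (l 16771440))) (a (l 16777656) (l 16738112))) (a (l 16819216) (l 16725336))) (a (l 16832128) (l 16726928))) (a (b (c (l 16783216) (l 16780920)) (l 16661272)) (b (b (l 16666248) (l 16636056)) (l 16655224)))))), by decide +kernel⟩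

def k25_pm_102 : ∃ t, chk3 f_pm_102 t 7 5 1 = true :=
  ⟨(a (b (a (b (a (b (a (b (a (l 58150021895) (l 17884722487)) (l 16894128)) (a (l 16871168) (l 16835032))) (l 16838840)) (b (l 16819032) (l 16757416))) (b (l 16865208) (l 16785416))) (b (a (l 16848936) (l 16730760)) (a (b (l 16671000) (l 16644352)) (l 16647720)))) (a (b (a (l 16625576) (l 16602864)) (a (l 16553224) (b (l 16572760) (a (l 16549152) (l 16571232))))) (b (a (l 16605104) (b (l 16596672) (a (l 16571832) (l 16645344)))) (a (b (a (l 16564296) (l 16600816)) (l 16617144)) (b (l 16662752) (l 16511464)))))) (b (a (b (a (l 16672112) (l 16631160)) (a (l 16614136) (b (l 16590064) (a (l 16567176) (b (l 16554280) (l 16540872)))))) (b (a (l 16586136) (b (l 16550536) (a (l 16537240) (b (l 16518312) (l 16529328))))) (a (b (a (l 16557008) (b (l 16542032) (l 16528528))) (a (l 16589592) (l 16503816))) (b (a (b (l 16562592) (l 16503904)) (l 16528672)) (l 16472288))))) (a (b (a (b (a (l 16572552) (l 16683896)) (l 16744584)) (b (a (l 16537528) (l 16516864)) (l 16501136)))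 (l 16551472)) (b (a (l 16479768) (l 16447176)) (l 16438864))))), by decide +kernel⟩

def k26_pm_102 : ∃ t, chk3 f_pm_102 t 6 3 1 = true :=
  ⟨(b (a (b (a (b (a (b (a (b (a (l 3) (c (l 3667880936855378975934890351) (l 3677552343412363285575467311))) (a (c (b (l 3397081553261859477054964015) (a (b (l 174113960647) (l 144236787155632431)) (l 144432568944918831))) (c (l 3658209530298134768911057199) (a (l 3687223749968895902151754031) (l 3696895156525786890854875439)))) (b (a (c (l 2526654963139315613582229871) (b (l 144375806670979375) (l 144102303132647727))) (l 144158172080652591)) (l 143999773652975919)))) (a (c (b (b (l 161229143639) (l 144322274271510895)) (l 16775392)) (b (a (l 3000553884428130746822934831) (l 2284869799216248903626588463)) (l 16719712))) (b (b (c (l 144440059430764911) (l 144415320441323823)) (l 16767288)) (l 16738800)))) (b (a (a (c (l 143835809000014127) (l 143724689486889263)) (l 16718344)) (l 16704784)) (l 16654560))) (b (a (b (l 16762976) (l 16724664)) (l 16723624)) (l 16659264))) (a (b (l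 16599120) (l 16551056)) (l 16557352))) (b (a (l 16676152) (l 16609696)) (a (l 16527656) (l 16496952)))) (a (b (l 16474216) (a (l 16446688) (b (l 16455488) (l 16405896)))) (b (a (l 16465424) (b (l 16450360) (a (l 16445328) (l 16446696)))) (a (b (b (l 16449488) (l 16422624)) (l 16413632)) (b (l 16434592) (l 16410096)))))) (b (a (b (l 16570248) (b (l 16481576) (a (l 16452184) (b (l 16448832) (l 16485968))))) (b (a (l 16512304) (b (l 16516112) (b (l 16497920) (l 16544304)))) (a (b (a (l 16466288) (l 16477256)) (l 16518024)) (b (l 16526736) (l 16468760))))) (a (b (b (a (b (l 16437200) (l 16442944)) (l 16435560)) (a (l 16435632) (l 16442160))) (l 16447072)) (b (l 16474592) (l 16489640))))) (a (b (a (b (a (b (l 16372704) (l 16395256)) (b (l 16406592) (l 16358176))) (l 16338632)) (b (l 16385832) (l 16406896))) (a (l 16376864) (l 16420456))) (b (a (l 16452496) (l 16477320)) (a (l 16454512) (l 16479096))))), by decide +kernel⟩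

def k27_pm_102 : ∃ t, chk3 f_pm_102 t 7 3 1 = true :=
  ⟨(b (a (b (b (a (a (b (a (l 16524080) (l 16555680)) (l 16550392)) (b (l 16587104) (l 16501208))) (l 16495064)) (a (l 16483816) (l 16471352))) (a (l 16489296) (l 16476032))) (b (a (l 16454640) (b (l 16424848) (l 16420880))) (a (b (l 16452256) (l 16461208)) (b (l 16429016) (l 16440608))))) (a (b (a (l 16482592) (l 16478392)) (a (l 16494440) (l 16505296))) (b (a (l 16473056) (l 16467592)) (l 16525768)))), by decide +kernel⟩

theorem s28_pm_102 : ∃ t, chk3 f_pm_102 t 3 3 1 = true := ex3_a k26_pm_102 k27_pm_102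

theorem s29_pm_102 : ∃ t, chk3 f_pm_102 t 7 2 1 = true := ex3_b k24_pm_102 k25_pm_102

theorem s30_pm_102 : ∃ t, chk3 f_pm_102 t 13 10 1 = true := ex3_b k21_pm_102 k22_pm_102

theorem s31_pm_102 : ∃ t, chk3 f_pm_102 t 13 5 1 = true := ex3_b s30_pm_102 k23_pm_102

theorem s32_pm_102 : ∃ t, chk3 f_pm_102 t 6 5 1 = true := ex3_a k20_pm_102 s31_pm_102

theorem s33_pm_102 : ∃ t, chk3 f_pm_102 t 6 2 1 = true := ex3_b k19_pm_102 s32_pm_102

theorem s34_pm_102 : ∃ t, chk3 f_pm_102 t 3 2 1 = true := ex3_a s33_pm_102 s29_pm_102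

theorem s35_pm_102 : ∃ t, chk3 f_pm_102 t 3 1 1 = true := ex3_b s34_pm_102 s28_pm_102

theorem s36_pm_102 : ∃ t, chk3 f_pm_102 t 21 27 1 = true := ex3_b k15_pm_102 k16_pm_102

theorem s37_pm_102 : ∃ t, chk3 f_pm_102 t 21 13 1 = true := ex3_b k14_pm_102 s36_pm_102

theorem s38_pm_102 : ∃ t, chk3 f_pm_102 t 10 13 1 = true := ex3_a k13_pm_102 s37_pm_102

theorem s39_pm_102 : ∃ t, chk3 f_pm_102 t 5 13 1 = true := ex3_a s38_pm_102 k17_pm_102

theorem s40_pm_102 : ∃ t, chk3 f_pm_102 t 46 50 1 = true := ex3_a k9_pm_102 k10_pm_102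

theorem s41_pm_102 : ∃ t, chk3 f_pm_102 t 23 50 1 = true := ex3_a s40_pm_102 k11_pm_102

theorem s42_pm_102 : ∃ t, chk3 f_pm_102 t 23 25 1 = true := ex3_b s41_pm_102 k12_pm_102

theorem s43_pm_102 : ∃ t, chk3 f_pm_102 t 11 25 1 = true := ex3_a k8_pm_102 s42_pm_102

theorem s44_pm_102 : ∃ t, chk3 f_pm_102 t 23 24 1 = true := ex3_a k6_pm_102 k7_pm_102

theorem s45_pm_102 : ∃ t, chk3 f_pm_102 t 11 24 1 = true := ex3_a k5_pm_102 s44_pm_102

theorem s46_pm_102 : ∃ t, chk3 f_pm_102 t 11 12 1 = true := ex3_b s45_pm_102 s43_pm_102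

theorem s47_pm_102 : ∃ t, chk3 f_pm_102 t 5 12 1 = true := ex3_a k4_pm_102 s46_pm_102

theorem s48_pm_102 : ∃ t, chk3 f_pm_102 t 5 6 1 = true := ex3_b s47_pm_102 s39_pm_102

theorem s49_pm_102 : ∃ t, chk3 f_pm_102 t 5 3 1 = true := ex3_b s48_pm_102 k18_pm_102

theorem s50_pm_102 : ∃ t, chk3 f_pm_102 t 4 7 1 = true := ex3_b k2_pm_102 k3_pm_102

theorem s51_pm_102 : ∃ t, chk3 f_pm_102 t 4 3 1 = true := ex3_b k1_pm_102 s50_pm_102

theorem s52_pm_102 : ∃ t, chk3 f_pm_102 t 2 3 1 = true := ex3_a s51_pm_102 s49_pm_102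

theorem s53_pm_102 : ∃ t, chk3 f_pm_102 t 2 1 1 = true := ex3_b k0_pm_102 s52_pm_102

theorem s54_pm_102 : ∃ t, chk3 f_pm_102 t 1 1 1 = true := ex3_a s53_pm_102 s35_pm_102

theorem c_pm_102 : CertB 536870912 536870912 0 536870912 697932185 42949674 3 eng mog cd0q1 cd4q0 pd2 true true false .npp 1 0 2
    ndB0q1 ndB4q0 pcB2 cut_pm_102 xt_pm_102 :=
  certB0 (fam := true) (s1 := true) (s2 := false) (a := 1) (b := 0) (c := 2) (cn := .npp) (n1 := ndB0q1) (n2 := ndB4q0) (pc := pcB2) (cut := cut_pm_102) (xt := xt_pm_102) (P1 := 536870912) (W1 := 536870912) (P2 := 0) (W2 := 536870912) (P3 := 697932185) (W3 := 42949674) (N0 := 3) (En := eng) (mo := mog) (C1 := cd0q1) (C2 := cd4q0) (C3 := pd2)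
    rfl s54_pm_102

noncomputable def f_pm_112 : ℕ → ℕ → ℕ → ℕ → Bool := onCell 536870912 536870912 1073741824 536870912 697932185 42949674
    (rowB 3 eng mog cd0q1 cd4q1 pd2 1 true true false .dn 1 1 2 (qsf 536870912 536870912 536870912 536870912 2) ndB0q1 ndB4q1 pcB2 Cut.none Ext.none)

def k0_pm_112 : ∃ t, chk3 f_pm_112 t 1 1 1 = true :=
  ⟨(b (b (a (b (a (b (a (b (l 3) (a (a (l 169281264407) (l 168744378055)) (l 317323366887))) (l 1)) (a (b (a (b (l 16320456) (l 16315432)) (b (l 16303560) (l 16298568))) (a (l 16304568) (l 16287400))) (b (l 1) (l 343630086471)))) (l 1)) (a (a (b (a (l 16297456) (l 16270064)) (b (l 16272720) (l 16314704))) (b (b (l 16241264) (l 16236520)) (l 16255912))) (a (b (l 1) (l 16252168)) (l 1)))) (l 1)) (a (a (b (b (a (b (l 16354200) (b (l 16288304) (b (l 16287720) (l 16397448)))) (b (l 16264248) (b (l 16267272) (l 16363856)))) (a (a (l 16281040) (l 16281752)) (l 16297688))) (a (a (l 16241632) (l 16256368)) (l 16273624))) (b (a (b (b (l 16241240) (b (l 16247448) (l 16347312))) (l 16329784))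 (b (l 1) (l 16291576))) (a (l 16290368) (l 16310440)))) (a (b (l 1) (a (l 351683619943) (l 1))) (l 1)))) (a (a (b (a (b (a (l 16161424) (l 16193192)) (a (l 16061632) (l 16105720))) (b (l 16235856) (l 16172008))) (a (b (a (l 15965680) (l 16016576)) (a (b (l 15894024) (l 15845568)) (l 15935216))) (b (a (l 16069104) (l 16123720)) (a (l 15998184) (l 16060368))))) (b (a (b (l 16286152) (l 16253464)) (b (l 16334264) (l 16331312))) (a (b (l 16208600) (l 16162480)) (b (l 16317760) (l 16303912))))) (a (b (a (b (l 16378712) (l 16402136)) (b (l 16406624) (l 16450360))) (a (b (l 16416992) (l 16438384)) (b (l 16492136) (l 16544480)))) (b (a (b (l 1) (l 379601104855)) (l 1)) (a (l 16567168) (l 352757765447)))))), by decide +kernel⟩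

theorem c_pm_112 : CertB 536870912 536870912 536870912 536870912 697932185 42949674 3 eng mog cd0q1 cd4q1 pd2 true true false .dn 1 1 2
    ndB0q1 ndB4q1 pcB2 Cut.none Ext.none :=
  certB1 (fam := true) (s1 := true) (s2 := false) (a := 1) (b := 1) (c := 2) (cn := .dn) (n1 := ndB0q1) (n2 := ndB4q1) (pc := pcB2) (cut := Cut.none) (xt := Ext.none) (P1 := 536870912) (W1 := 536870912) (P2 := 536870912) (W2 := 536870912) (P3 := 697932185) (W3 := 42949674) (N0 := 3) (En := eng) (mo := mog) (C1 := cd0q1) (C2 := cd4q1) (C3 := pd2)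
    rfl (fun _ => rfl) k0_pm_112

noncomputable def f_pm_113 : ℕ → ℕ → ℕ → ℕ → Bool := onCell 536870912 536870912 1610612736 536870912 697932185 42949674
    (rowB 3 eng mog cd0q1 cd4q1 pd3 1 true true false .nn 1 1 3 (qsf 536870912 536870912 536870912 536870912 3) ndB0q1 ndB4q1 pcB3 Cut.none Ext.none)

def k0_pm_113 : ∃ t, chk3 f_pm_113 t 1 1 1 = true :=
  ⟨(a (b (b (a (a (b (a (b (l 178340012023) (l 244911851447)) (a (l 88145731767) (l 15867616))) (a (l 2) (l 258870380775))) (b (a (l 15928432) (l 16008960)) (b (l 169750167831) (l 157401938039)))) (a (b (a (l 16088376) (l 16172376)) (b (l 16033216) (l 15954056))) (b (a (l 16259760) (l 16346232)) (l 16197152)))) (b (a (b (a (l 2) (b (l 259407594919) (l 2))) (l 2)) (b (a (b (a (l 15848600) (l 15959408)) (l 222900498087)) (b (l 16119448) (l 16117112))) (a (b (l 221289746071) (l 220752787783)) (c (l 16097776) (l 16013952))))) (a (l 2) (b (a (b (a (l 2) (l 273903115255)) (l 2)) (b (c (a (l 16047312) (l 16135112)) (l 15966288)) (b (l 294841796167) (l 16038984)))) (a (l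 2) (b (l 275514323959) (l 281419860727))))))) (b (a (l 2) (b (a (l 2) (b (l 345307514183) (l 2))) (l 2))) (l 2))) (b (b (a (a (b (l 16468064) (l 16353520)) (b (l 16622648) (l 16525696))) (b (a (l 16710960) (l 16728408)) (a (l 16689344) (l 16821280)))) (b (a (a (b (a (l 16227552) (l 16305000)) (l 16213944)) (b (l 16440176) (l 16397728))) (a (l 16585720) (l 16715416))) (a (a (b (a (b (l 16163032) (l 16147680)) (l 16235696)) (l 16171280)) (l 16347808)) (a (l 16503608) (l 16626408))))) (b (a (b (a (a (l 16087112) (l 16170728)) (l 16426544)) (a (b (l 497779195111) (l 2)) (b (l 16276320) (l 4)))) (b (a (b (l 16455112) (l 16428904)) (l 16500872)) (l 4))) (a (a (l 2) (l 4)) (l 4))))), by decide +kernel⟩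

theorem c_pm_113 : CertB 536870912 536870912 536870912 536870912 697932185 42949674 3 eng mog cd0q1 cd4q1 pd3 true true false .nn 1 1 3
    ndB0q1 ndB4q1 pcB3 Cut.none Ext.none :=
  certB1 (fam := true) (s1 := true) (s2 := false) (a := 1) (b := 1) (c := 3) (cn := .nn) (n1 := ndB0q1) (n2 := ndB4q1) (pc := pcB3) (cut := Cut.none) (xt := Ext.none) (P1 := 536870912) (W1 := 536870912) (P2 := 536870912) (W2 := 536870912) (P3 := 697932185) (W3 := 42949674) (N0 := 3) (En := eng) (mo := mog) (C1 := cd0q1) (C2 := cd4q1) (C3 := pd3)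
    rfl (fun _ => rfl) k0_pm_113

noncomputable def cut_pm_123_a : Cut := Cut.of [[⟨0, 1, 0, 67108864⟩, ⟨1, 1, 0, 67108864⟩, ⟨2, 2, 0, 16777216⟩], [⟨0, 0, 1, 20971520⟩, ⟨1, 1, 0, 33554432⟩, ⟨2, 1, 1, 20971520⟩]]

noncomputable def xt_pm_123_a : Ext := extD2 3 ⟨7, 3, 3, 10, 49, 25, 3, 4, 67, 200, 3, 16⟩ eng cd0q1 cd4q2a pd3 true true false .npn 1 2 3 rfl ndB0q1 ndB4q2a pcB3

noncomputable def f_pm_123_a : ℕ → ℕ → ℕ → ℕ → Bool := onCell 1610612736 536870912 0 536870912 697932185 42949674
    (rowB 3 eng mog cd0q1 cd4q2a pd3 2 true true false .npn 1 2 3 (qsf 536870912 536870912 0 536870912 3) ndB0q1 ndB4q2a pcB3 cut_pm_123_a xt_pm_123_a)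

def k0_pm_123_a : ∃ t, chk3 f_pm_123_a t 4 2 1 = true :=
  ⟨(a (l 1) (b (l 1) (a (l 1) (l 16454792)))), by decide +kernel⟩

def k1_pm_123_a : ∃ t, chk3 f_pm_123_a t 4 6 1 = true :=
  ⟨(a (l 1) (b (a (l 1) (l 16449336)) (a (l 16408432) (l 16446888)))), by decide +kernel⟩

def k2_pm_123_a : ∃ t, chk3 f_pm_123_a t 8 7 1 = true :=
  ⟨(b (a (l 1) (b (l 16379128) (l 16377104))) (b (a (a (l 1) (l 16380568)) (b (l 16374288) (a (l 16367080) (l 16378384)))) (a (c (a (b (l 16362040) (b (l 140749204173258767) (a (l 140601182414815247) (l 140592317609721871)))) (b (l 140879702478897167) (b (l 140649148632039439) (l 140886574422212623)))) (b (a (l 16337432) (l 16342280)) (a (b (l 16355144) (a (c (l 140772431308718095) (l 16324512)) (c (l 140775111373176847) (l 140841150762008591)))) (c (b (l 141015835713634319) (l 140599395680714767)) (a (l 140874410995826703) (l 140884993800863759)))))) (b (a (c (l 140927118939029519) (b (l 16350480) (l 16348640))) (b (l 16418840) (a (c (l 140755320266096655) (l 16356040)) (l 141266112115556367))))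 (c (a (a (b (l 140674506134601743) (l 141012399800188943)) (b (l 140894271033360399) (b (l 140886024695300111) (l 141054387412779023)))) (b (b (l 141114723136471055) (l 141283292012707855)) (a (l 141073697600487439) (l 140737453217218575)))) (a (a (c (b (l 140844586789830671) (l 140686188392497167)) (b (l 16336856) (a (l 140864996435836943) (l 140500508335194127)))) (b (a (l 141433443976658959) (a (l 140698008140365839) (l 140663579685158927))) (a (b (l 140727488789266447) (l 140717868060606479)) (l 140637191401144335)))) (a (b (l 140679316452392975) (l 140777585300881423)) (a (l 140973985576665103) (l 141152037747916815))))))))), by decide +kernel⟩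

def k3_pm_123_a : ∃ t, chk3 f_pm_123_a t 9 7 1 = true :=
  ⟨(b (a (b (l 16406392) (l 16425112)) (b (l 16445096) (l 16444272))) (b (a (b (l 16465424) (a (l 16392656) (l 16410824))) (b (l 16445016) (a (l 16433288) (l 16460568)))) (b (b (a (a (l 16412832) (l 16431784)) (a (l 16455200) (l 16462648))) (a (a (c (l 141198011177222159) (l 141047378007654415)) (a (l 140817923741925391) (l 140874892210405391))) (a (a (l 140946360490885135) (l 141033221936709647)) (a (l 141136369901223951) (l 141256766457282575))))) (a (a (c (a (b (l 140796414546116623) (l 140774149436243983)) (c (l 141070330421886991) (l 140780540346744847))) (b (l 141184267203280911) (a (l 140590187316559887) (l 140606817447428111)))) (b (c (a (l 140904991361417231) (l 140980170493460495)) (l 140881351788019727)) (c (a (c (l 140954813006118927) (l 140823696200564751)) (c (l 141041193414410255) (l 140895095761436687))) (a (l 140637878670671887) (c (l 140753533594435599) (l 140616025877069839)))))) (a (a (c (b (l 141070330473922575) (c (b (l 141143379303743503)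 (l 141143104428212239)) (l 141162620711469071))) (b (l 140783014251626511) (c (l 140824726997843983) (l 140669627092729871)))) (c (b (l 141176502095101967) (b (l 141174371794747407) (c (a (l 141231408979230735) (l 141295799145447439)) (l 141264600445812751)))) (b (l 140857781068775439) (c (b (l 140918803989020687) (l 140907052959825935)) (l 140740476899737615))))) (a (b (c (l 141299509990883343) (l 140949865196830735)) (b (c (c (l 141394892653625359) (l 141209075138936847)) (l 140930623745228815)) (c (c (a (l 141364656078389263) (b (l 141436330509729807) (l 141620155111849999))) (a (l 141175333869977615) (l 141241854340694031))) (c (a (l 140986149100765199) (l 141044835550314511)) (l 140821291034230799))))) (b (c (l 141440384953597967) (l 141060297428107279)) (c (b (c (l 141547656087453711) (l 141348094675861519)) (b (c (l 141734985384050703) (l 141349950104141839)) (c (a (c (l 141569783767269391) (l 141467597879427087)) (c (b (l 141653346670297103) (l 141656713925820431)) (l 141549648954179599))) (a (l 141313666212724751)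 (c (l 141443683494756367) (l 141337099560075279)))))) (b (l 141226048808681487) (c (a (l 141108401083482127) (l 141176983139270671)) (a (l 140901967724085263) (l 140962097283334159)))))))))))), by decide +kernel⟩

def k4_pm_123_a : ∃ t, chk3 f_pm_123_a t 10 2 1 = true :=
  ⟨(a (b (l 16506944) (a (l 16488792) (l 16494040))) (b (l 16554552) (a (l 16520920) (l 16554328)))), by decide +kernel⟩

def k5_pm_123_a : ∃ t, chk3 f_pm_123_a t 10 6 1 = true :=
  ⟨(a (b (a (l 16481576) (l 16489136)) (a (l 16479112) (l 16489912))) (b (l 16530352) (l 16532656))), by decide +kernel⟩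

def k6_pm_123_a : ∃ t, chk3 f_pm_123_a t 20 14 1 = true :=
  ⟨(a (l 16481288) (l 16497880)), by decide +kernel⟩

def k7_pm_123_a : ∃ t, chk3 f_pm_123_a t 20 30 1 = true :=
  ⟨(a (b (l 16486528) (l 16490376)) (a (l 16505216) (l 16518136))), by decide +kernel⟩

def k8_pm_123_a : ∃ t, chk3 f_pm_123_a t 20 62 1 = true :=
  ⟨(a (a (c (l 141576243386449935) (l 141208113051189263)) (a (l 142014467462594575) (b (l 16504224) (l 16544416)))) (a (b (l 16514056) (b (l 16517280) (l 141625652704804879))) (b (l 16528880) (l 141758281325232143)))), by decide +kernel⟩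

def k9_pm_123_a : ∃ t, chk3 f_pm_123_a t 40 63 1 = true :=
  ⟨(a (b (c (a (l 141558376323776527) (l 141636441668124687)) (a (l 141155748807442447) (l 141218489706807311))) (b (a (c (l 141570333518495759) (l 141145440889274383)) (c (a (l 141634654963859471) (l 141670320380821519)) (a (l 141198423619715087) (l 141226804771225615)))) (a (c (b (c (l 141684339159941135) (l 141469247144804367)) (c (a (a (l 141657263680651279) (l 141814837445984271)) (b (l 141712376713478159) (a (l 141704405252734991) (b (l 141726807807164431) (a (l 141812913310810127) (l 141734710548971535)))))) (a (l 141451380077756431) (b (l 141492886651322383) (a (l 141483884398313487) (l 141685919665045519)))))) (b (l 141140836686151695) (a (l 141300197149278223) (a (l 141147296320618511) (b (l 141166469059067919) (l 141346170491420687)))))) (a (c (c (b (l 141752715054972943) (b (l 141938807399858191) (a (l 141751752982953999) (l 141954200566464527)))) (b (l 141532812675858447) (b (l 141536454809681935) (l 141539341028786191)))) (b (l 141376269627539471)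 (b (l 141376407067557903) (l 141197049234014223)))) (c (b (l 141680834464284687) (c (b (l 141798482237489167) (c (l 141859024111517711) (l 141747011337158671))) (l 141575556201185295))) (l 141499689816375311)))))) (b (a (c (l 141701793906425871) (l 141268517500026895)) (b (l 141542983156006927) (l 141555352666226703))) (b (a (c (l 141903897894764559) (l 141272090917519375)) (l 142110193726210063)) (c (a (b (l 141736772131307535) (c (b (l 141857374842585103) (a (c (l 141989247529123855) (l 141785906569936911)) (c (a (l 141929873908236303) (l 141950695914438671)) (l 141825763875569679)))) (a (l 141612389849251855) (l 141650185570172943)))) (b (l 141814631316324367) (c (b (l 141939151038578703) (c (l 14) (a (l 141866583254073359) (l 141998455939448847)))) (a (l 141835247129919503) (a (l 141718492745728015) (l 141738627557015567)))))) (c (b (l 141428290326265871) (a (l 141398603506270223) (l 141651216319545359))) (a (l 141160971499700239) (l 141227491968811023))))))), by decide +kernel⟩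

def k10_pm_123_a : ∃ t, chk3 f_pm_123_a t 41 63 1 = true :=
  ⟨(b (a (c (l 141879502514831375) (l 141420250141769743)) (a (l 141763022972485647) (l 141848441301467151))) (a (b (c (l 141917573115183119) (l 141441759345360911)) (c (a (b (l 141896201353838607) (c (a (c (l 14) (c (l 14) (l 141918122872815631))) (l 14)) (b (l 141786799921037327) (c (a (l 141832086067445775) (l 141874623433195535)) (a (l 141711964393570319) (l 141753264808493071)))))) (b (l 141981619682803727) (c (l 14) (c (c (l 14) (a (l 141883969283670031) (l 142017972273233935))) (a (l 141792160040992783) (l 141835178443177999)))))) (a (b (l 141416745451241487) (c (a (l 141527796152401935) (l 141566897543626767)) (l 141300815667986447))) (b (l 141492130734571535) (c (a (l 141606961007706127) (l 141647986544656399)) (l 141375719914881039)))))) (b (a (c (l 142045460090404879) (l 141554940349595663)) (l 142251000007409679)) (a (c (c (l 14) (c (l 14) (b (l 141885893427904527) (a (a (l 141868026360479759) (a (l 141884725197094927) (l 141895926474326031)))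 (a (l 141913037627883535) (l 142026081172275215)))))) (a (b (l 141551160778588175) (c (a (l 141679460072128527) (a (l 141695402994352143) (l 141706123235147791))) (l 141434475080925199))) (b (l 141592529912987663) (c (b (l 141729900179308559) (l 141917092035837967)) (l 141475157020393487))))) (c (b (l 142166956153225231) (l 14)) (b (l 141656988796747791) (a (c (c (l 141932553942204431) (l 141713063903445007)) (l 141517007191212047)) (c (b (l 141819716555603983) (c (l 141982856610594831) (l 141761579865096207))) (l 141559888154378255))))))))), by decide +kernel⟩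

def k11_pm_123_a : ∃ t, chk3 f_pm_123_a t 21 14 1 = true :=
  ⟨(b (l 16538816) (a (l 16530840) (l 16567096))), by decide +kernel⟩

def k12_pm_123_a : ∃ t, chk3 f_pm_123_a t 42 15 1 = true :=
  ⟨(a (b (l 16535328) (b (l 141906577988648975) (c (b (l 142231071437324303) (l 14)) (b (l 141735672612306959) (b (l 141952963608068111) (a (b (l 141746667734056975) (c (b (l 141889947876556815) (c (l 14) (a (l 141807690644307983) (l 141854900935393295)))) (a (l 141603868629385231) (l 141829062364758031)))) (b (l 141840744718729231) (c (a (c (l 14) (a (l 141887130376994831) (l 141911525796675599))) (l 14)) (b (l 141715262925930511) (c (a (l 141766939984658447) (l 141815043629088783)) (l 141652796907716623))))))))))) (b (l 16553912) (b (l 142091639581065231) (c (a (l 14) (c (c (c (b (l 142562093223116943) (b (l 142606967051026575) (b (l 142630400397623439) (b (l 142642426308624527) (a (b (l 142632805580406927) (l 142636860030402703)) (l 142665997093617807)))))) (l 14)) (l 14)) (l 14))) (b (l 141924032740212751) (b (l 142237187407118351)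 (c (l 14) (b (a (l 141801368448925711) (l 141901905065672719)) (a (b (l 141811882531717135) (c (a (l 141864315504853007) (b (l 141912762746617871) (l 14))) (a (l 141724059020967951) (l 141773056018759695)))) (b (l 141913106343362575) (c (l 14) (a (l 141823221247885327) (b (l 141872768001458191) (l 141876410134708239)))))))))))))), by decide +kernel⟩

def k13_pm_123_a : ∃ t, chk3 f_pm_123_a t 43 15 1 = true :=
  ⟨(b (a (l 16573336) (l 16595232)) (b (b (l 16598896) (a (l 142325904330244111) (l 142466641844977679))) (c (a (b (l 142346314056679439) (b (b (l 142379643010121743) (l 142393799225393167)) (b (a (l 142376619353735183) (l 142349269013102735)) (c (a (a (b (l 142630331677130895) (c (a (l 142669570506555535) (l 142684963672064143)) (l 14))) (b (l 142661255447134351) (b (l 142667096603918479) (c (l 142709840127115407) (a (l 142624284361539727) (l 142639814966034575)))))) (a (b (l 142691973058674831) (c (l 142738083836985487) (a (l 142653283985784975) (l 142668608431816847)))) (c (l 142764197242617999) (a (l 142680222025285775)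 (l 142695477751808143))))) (c (a (l 14) (a (l 14) (a (l 14) (c (l 142637822099292303) (l 14))))) (l 14)))))) (b (l 142474132306116623) (b (a (l 142661599041519759) (l 142723652740038799)) (a (b (l 142321368916574351) (b (a (l 142316214955327631) (l 142346520249925775)) (c (a (c (l 142797526194864271) (l 142721591157751951)) (c (l 142826731977638031) (l 142751346696437903))) (c (a (a (l 142637272343101583) (l 142652528069640335)) (a (l 142667715076685967) (l 142682764644745359))) (l 14))))) (b (l 142381979505803407) (b (a (l 142376413227597967) (l 142405962607837327)) (c (a (c (l 142855525443485839) (l 142780758637674639)) (l 142847004225896591)) (a (c (l 142660224660357263) (c (l 142648130021097615) (l 14))) (c (l 142734854017319055) (a (l 142651703434117263) (l 142666684282699919))))))))))) (a (b (l 142131909203345423) (a (b (l 142124762378043407) (b (l 142151013224841231) (l 14))) (l 14))) (b (l 142361638464405519) (l 14)))))), by decide +kernel⟩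

def k14_pm_123_a : ∃ t, chk3 f_pm_123_a t 11 2 1 = true :=
  ⟨(a (a (b (l 16583896) (a (l 16573664) (l 16559328))) (b (l 16545280) (l 16559440))) (b (l 16585168) (l 16579040))), by decide +kernel⟩

def k15_pm_123_a : ∃ t, chk3 f_pm_123_a t 11 6 1 = true :=
  ⟨(a (a (b (l 16563672) (a (l 16572568) (l 16567280))) (b (l 16545960) (l 16560248))) (b (l 16588488) (l 16608336))), by decide +kernel⟩

def k16_pm_123_a : ∃ t, chk3 f_pm_123_a t 88 7 1 = true :=
  ⟨(b (b (l 16582096) (l 16595016)) (b (a (l 16605680) (l 16608168)) (b (a (a (l 16594040) (l 142386789787189263)) (l 142417301239840783)) (b (a (a (l 142413521713987599) (l 142444308002078735)) (b (l 142470627608559631) (l 142492205443170319))) (b (a (a (l 142443345973575695) (a (l 142466573074939919) (l 142390363263565839))) (c (c (l 142909470239768719) (l 142766602418897039)) (l 142367342173077519))) (a (c (b (a (l 142786737231659151) (a (l 142808590029127823) (l 142822471365886095))) (a (c (l 142782201763676303) (c (l 142761311020417167) (a (l 142678985071083663)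 (l 142693828480696463)))) (c (a (a (l 142889885186834575) (l 142896894574690447)) (l 142907202498019471)) (b (a (l 142743237793890447) (l 142757531447558287)) (a (a (l 142744955781349519) (a (a (l 142749491256885391) (l 142751277974323343)) (l 142753958034391183))) (c (l 142800000092799119) (l 142725645604159631))))))) (c (c (c (a (l 14) (b (l 142649985445134479) (c (a (a (l 142658025626009743) (b (l 142662973429104783) (l 142667852513050767))) (l 142676305010065551)) (a (l 14) (l 142657544589213839))))) (l 14)) (l 14)) (l 14))) (c (c (b (l 142928505539018895) (a (a (l 142920877676314767) (l 142934484135100559)) (a (l 142948021874409615) (l 142961422174732431)))) (b (a (l 142770175833112719) (l 142797526189654159)) (b (a (l 142778628330635407) (l 142806459723628687)) (a (a (c (l 142814156307497103) (l 142740007977353359)) (c (l 142828175083225231) (l 142754370350514319))) (c (l 142849065807855759) (a (l 142768526565228687) (l 142782682779926671))))))) (c (b (a (l 142622497648492687) (l 142650603919392911)) (a (c (b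 (l 142667371475812495) (a (a (l 142661599038996623) (l 142668883304824975)) (a (l 142676167570636943) (l 142683451836448911)))) (l 14)) (b (l 142658712819482767) (c (b (l 142700081952702607) (a (l 142695615180685455) (l 142710046278729871))) (a (l 14) (c (l 142652665504366735) (l 14))))))) (l 14))))))))), by decide +kernel⟩

def k17_pm_123_a : ∃ t, chk3 f_pm_123_a t 89 7 1 = true :=
  ⟨(b (l 16588104) (b (l 16588592) (b (b (l 16601136) (l 142501139016548367)) (c (b (a (l 142850989951156367) (l 142898406398312591)) (c (b (a (l 142960872417378447) (l 143011037644177551)) (c (a (a (l 143010350451490959) (l 143036257698791567)) (a (l 143061890068119695) (l 143087110120521935))) (a (a (l 142939019620139151) (l 142965407903842447)) (a (l 142991383870636175) (l 143017084959457423))))) (b (a (l 142818691791356047) (l 142869406774034575)) (a (b (l 142837933249085583) (a (c (l 142873461226242191) (a (l 142793677898006671) (l 142807490515271823))) (c (l 142900536704860303) (b (l 142824876545802383) (l 142831404897550479)))))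 (b (l 142890503658029199) (a (a (l 142884662480601231) (l 142898062802403471)) (a (l 142911325663772815) (l 142924519805632655)))))))) (b (b (l 142395654642909199) (l 142420805934022671)) (c (b (a (l 142673831105757327) (l 142725027124822159)) (a (b (a (l 142678297873383567) (l 142705579510431887)) (b (a (l 142687093968371855) (l 142715131519811727)) (a (a (c (l 142722965542551695) (a (l 142644831482298511) (l 142652115748110479))) (c (l 142737121757282447) (a (l 142659331294445711) (l 142666546840780943)))) (a (c (l 142751277971980431) (a (l 142673762387116175) (l 142680909213958287))) (c (l 142765296747708559) (a (l 142688056040800399) (l 142695202867642511))))))) (c (b (l 142782339180183695) (a (a (l 142775879548846223) (l 142789623446618255)) (a (l 142803298624897167) (l 142816836364206223)))) (b (l 142709427801063567) (b (l 142719941883330703) (a (a (b (l 142704136401125519) (l 142707503656222863)) (l 142719941883641999)) (a (l 142733960659370127) (l 142747841996128399)))))))) (c (a (l 14) (b (l 142615007221137551)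 (b (l 142635760507699343) (a (b (l 142632187094745231) (c (a (l 142650329040421007) (l 142664622694105231)) (l 14))) (b (l 142660155926708367) (a (a (l 142656788672069775) (l 142663935498911887)) (a (l 142671013606277263) (l 142678091713626255)))))))) (l 14)))))))), by decide +kernel⟩

def k18_pm_123_a : ∃ t, chk3 f_pm_123_a t 90 7 1 = true :=
  ⟨(b (l 16581688) (a (b (l 16590104) (a (b (l 142521823623905295) (b (l 142429464666325135) (c (b (l 142977365092728975) (b (l 142999767647027279) (c (l 143084704937754703) (a (l 142937645227999375) (l 142950701930889359))))) (b (l 142689430428106895) (b (l 142352361399812239) (c (a (c (l 142830305384038543) (l 142757875041337487)) (c (l 142843705684361359) (l 142771550219616399))) (a (c (a (l 142681321524068495) (l 142688262197821583)) (l 14)) (b (l 142657888182960271) (b (l 142663935498240143) (c (l 142704686145175695) (c (l 142649641844424847) (l 14)))))))))))) (b (l 142539553251786767) (b (l 142451592341618831) (c (b (l 143001554352767055) (b (l 143024712821473359) (c (l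 143109718831694031) (a (l 142963689914286223) (l 142976540458696847))))) (b (l 142714100724531343) (b (l 142378612244529295) (b (c (l 142823708312207503) (l 142678504029618319)) (c (c (l 142867688786149519) (a (l 142789142408953999) (l 142802748867739791))) (a (b (l 142677954273968271) (c (l 142718636212158607) (c (l 142663798059139215) (l 14)))) (c (l 142730387244679311) (a (l 142653902452375695) (l 142660911840247951))))))))))))) (b (l 16591368) (a (b (b (l 16627856) (l 16634600)) (b (l 142473376419479631) (c (b (l 143025468734849103) (c (l 143126555106148559) (a (l 142981213383606415) (l 142993720330584207)))) (b (l 142738358704046223) (b (l 142404519491797135) (c (c (l 142889885180887183) (a (l 142811888559587471) (l 142825151420956815))) (b (l 142705648227696783) (a (c (l 142744131142451343) (a (l 142667921228120207) (l 142674930615976079))) (c (l 142757806320746639) (a (l 142681871284355215) (l 142688811952734351))))))))))) (b (l 142578379762597903) (b (a (l 142849752996315215) (l 142507255127523407)) (b (c (l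 143051375982182479) (a (l 142756363210064015) (l 142776566739959951))) (c (c (b (l 143144559611936975) (l 143160502534013135)) (a (l 143006227277545615) (b (l 143015298249851023) (l 143032340683784335)))) (a (b (l 142783988445708431) (b (l 142437642285973647) (c (l 142878477723713679) (c (l 142771412779532431) (a (l 142695683901636751) (l 142702624569999503)))))) (b (l 142804604292530319) (a (c (l 142886861522714767) (c (l 142780415032475791) (a (l 142704479990677647) (l 142712726334816399)))) (c (l 142900674140160143) (c (l 142795808198181007) (l 142725095842988175)))))))))))))), by decide +kernel⟩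

def k19_pm_123_a : ∃ t, chk3 f_pm_123_a t 91 14 1 = true :=
  ⟨(l 16592048), by decide +kernel⟩

def k20_pm_123_a : ∃ t, chk3 f_pm_123_a t 91 30 1 = true :=
  ⟨(l 16603472), by decide +kernel⟩

def k21_pm_123_a : ∃ t, chk3 f_pm_123_a t 91 62 1 = true :=
  ⟨(c (l 143016672635584591) (l 16610592)), by decide +kernel⟩

def k22_pm_123_a : ∃ t, chk3 f_pm_123_a t 91 63 2 = true :=
  ⟨(b (a (l 143066013231939663) (l 143151912593834063)) (a (b (l 143114048156598351) (a (c (l 143190120633680079) (a (l 143047458971254863) (l 143070892317212751))) (b (l 143159540459438159) (a (c (l 143227229158244559) (l 143102572002164943)) (b (l 143182217891365071) (c (l 143250250187358415) (a (l 143124081202528463) (l 143135145040412879)))))))) (a (b (l 143177819842887759) (b (a (l 143191220144095439) (c (l 143268598290464975) (l 143153768021524687))) (c (b (l 143269835241816271) (l 143276294874317007)) (a (b (l 143143666256904399) (l 143150744364826831)) (l 143167511920476367))))) (b (b (l 143211561111978191) (c (l 143281173956608207) (l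 143170604296061135))) (c (b (l 143294024502083791) (l 143306187852792015)) (c (l 143218158184825039) (l 143163251311935695))))))), by decide +kernel⟩

def k23_pm_123_a : ∃ t, chk3 f_pm_123_a t 91 63 3 = true :=
  ⟨(b (a (l 142796014354071695) (l 142912631328161935)) (a (b (c (l 142917441694384271) (l 142783576127602831)) (b (c (l 142944311015604367) (l 142812300875104399)) (b (c (c (l 142990284354879631) (l 142925275717107855)) (c (l 142859786043015311) (l 142793746613158031))) (a (c (c (l 142972898324250767) (l 142906171699216527)) (a (c (l 142823570872189071) (a (l 142746467604447375) (l 142762891562500239))) (b (l 142818348190777487) (c (l 142856487507837071) (c (l 142806528438616207) (l 142773062047023247)))))) (a (c (a (l 142973654238347407) (l 142987191977820303)) (c (l 142884387620618383) (c (l 142836009099657359) (a (l 142795327161647247) (l 142811751119716495))))) (c (a (l 143000660997800079) (b (l 143011793555079311) (c (l 143046290739380367) (l 142985267832045711)))) (a (b (l 142873117624107151) (c (l 142909332795457679)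 (c (l 142862191225340047) (l 142830648979472527)))) (b (c (l 142919503279833231) (l 142857449580396687)) (b (a (l 142888304631464079) (l 142895520177995919)) (c (l 142924794680819855) (c (l 142878477744570511) (l 142847416535154831)))))))))))) (a (b (l 142938057540829327) (b (a (c (l 143011793554489487) (l 142890160056991887)) (b (l 142974959907520655) (c (l 143041617813373071) (l 142924313643794575)))) (b (a (c (a (l 143018321906417807) (l 143030897573183631)) (a (b (l 142894420665680015) (l 142898956152193167)) (l 142911188221444239))) (c (l 143048764640886927) (l 142931941507793039))) (c (c (l 143073297499291791) (a (l 143002172826747023) (l 143026774404628623))) (c (b (l 142953588147339407) (a (l 142943967418810511) (l 142970493142433935))) (a (c (l 142896825848545423) (c (l 142874079697404047) (a (l 142851539704578191) (l 142866314395189391)))) (c (l 142924863400968335) (c (l 142902873164234895) (a (l 142880951646814351) (l 142895451459485839)))))))))) (b (b (l 142985886305468559) (a (c (l 143046771774308495)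 (l 142931941506351247)) (l 143015985442881679))) (c (b (l 143073503657066639) (c (l 143114735352348815) (a (l 143047527690780815) (l 143071510793273487)))) (b (l 142961697046773903) (b (l 142972692166148239) (a (b (l 142964720705519759) (c (l 142996606549164175) (c (l 142954344062894223) (a (l 142918953525493903) (l 142933178460209295))))) (c (l 143020589651558543) (c (l 142979770274594959) (a (l 142945479249035407) (l 142959498025287823)))))))))))), by decide +kernel⟩

def k24_pm_123_a : ∃ t, chk3 f_pm_123_a t 46 7 1 = true :=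
  ⟨(b (l 16620032) (b (a (l 16622720) (l 16640424)) (b (c (a (l 16673088) (l 16687520)) (b (l 16659312) (a (l 16656264) (l 16676120)))) (b (a (b (c (l 16680904) (c (l 16666456) (l 16657064))) (a (a (b (l 143114735348531279) (a (l 143119202115862607) (l 143142429303521359))) (c (l 16682280) (b (l 16661960) (l 143075084203507855)))) (c (l 16687688) (l 143140505158959183)))) (c (a (l 16693096) (l 16699760)) (b (l 16681408) (a (l 143231695924576335) (l 16689616))))) (c (a (a (a (b (b (l 143250250184999119) (l 143262688413679823)) (c (l 143332301259112655) (a (l 143219807452987599) (l 143238842752139471)))) (b (l 143291619319169231) (c (l 143363362469281999) (b (l 143260832989020367) (l 143272927609700559))))) (a (b (l 143325635467493583) (c (l 143393392887152847) (a (l 143294230662447311) (l 143312097730347215)))) (b (l 143358414665072847) (c (l 143422255073771727) (l 143338211137306831))))) (a (c (b (l 143443832992645327) (b (l 143458470245744911) (l 143468022256042255))) (b (l 143367416919638223) (a (l 143371746249539791)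 (l 143404044410994895)))) (b (l 143463692927205583) (c (l 143513926876741903) (l 143449949029499087))))) (a (b (a (a (b (l 143039350069002383) (l 143053437565649039)) (l 143095425174454351)) (c (l 143210049285390415) (l 143122638094418063))) (b (c (a (c (l 143167030884450511) (l 143116796937224335)) (l 143228328671740111)) (a (c (l 143066562990112911) (l 143016260323606671)) (l 143142360590205071))) (a (c (a (b (l 143129303884841039) (c (l 143161670765281487) (l 143110199867277455))) (c (l 143200840875311311) (l 143152874671358095))) (b (c (l 143076870914621583) (l 143026980565090447)) (a (a (b (l 143018047030886543) (c (l 143047871289802895) (a (l 142988566369976463) (l 143002172829302927)))) (c (l 143071235916824719) (a (l 143013923862233231) (l 143027392882573455)))) (a (c (l 143096043653333135) (l 143047390254661775)) (a (l 143090752253198479) (l 143103327920193679)))))) (a (c (a (l 143209087214993615) (l 143230046660051151)) (c (l 143153149550755983) (a (l 143096181093548175) (l 143121744744530063)))) (c (l 143260901712003279)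 (a (l 143167443205898383) (l 143191151430697103))))))) (c (b (a (l 143292443956314319) (l 143368791312433359)) (a (a (l 143295055299133647) (l 143333538214920399)) (c (l 143403632096657615) (l 143373601680113871)))) (b (a (l 143219051541643407) (l 143308661759737935)) (a (b (l 143236987330854991) (a (l 143225923493789775) (l 143270866041847887))) (c (l 143344327178027215) (l 143315877309890639))))))))))), by decide +kernel⟩

def k25_pm_123_a : ∃ t, chk3 f_pm_123_a t 47 7 1 = true :=
  ⟨(b (l 16654560) (b (b (l 16680056) (l 16670544)) (b (c (a (l 16700760) (l 16712848)) (a (l 16691264) (l 16708392))) (b (a (a (a (l 16699400) (l 16703128)) (b (l 16707032) (l 16710032))) (c (l 16720560) (l 16717608))) (c (a (a (b (l 143516950534291663) (c (l 143559900217786639) (l 143506505175220431))) (c (l 143594878439293199) (l 143551104125698319))) (a (c (l 143633017758875919) (l 143598658016002319)) (c (l 143666896470327567) (l 601980813449228868609295)))) (c (a (b (l 143472282869088463) (a (l 143456614826967247) (l 143518943407964367)))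 (a (l 602303054937817175221455) (l 602300749147034778035471))) (b (a (a (l 143391674907148495) (l 16709208)) (l 16722056)) (a (a (c (l 143421705327345871) (l 143399715091480783)) (l 601177515234213609906383)) (a (l 602071605928793641280719) (l 602941773495899607360719)))))))))), by decide +kernel⟩

def k26_pm_123_a : ∃ t, chk3 f_pm_123_a t 3 2 1 = true :=
  ⟨(a (a (b (a (l 16641224) (l 16691560)) (a (l 16636792) (l 16688656))) (a (b (l 16737528) (l 16691704)) (b (l 16761696) (l 16782240)))) (a (a (b (l 16740952) (l 16873552)) (b (l 16674872) (b (l 16712664) (l 16718296)))) (a (b (a (l 16713360) (l 16719872)) (b (l 16775040) (a (l 16714832) (l 16715976)))) (a (b (a (l 16728368) (l 16728512)) (a (l 16719208) (b (l 16724392) (l 16726104)))) (a (b (l 4) (b (l 16743296) (l 16741024))) (l 4)))))), by decide +kernel⟩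

def k27_pm_123_a : ∃ t, chk3 f_pm_123_a t 6 6 1 = true :=
  ⟨(a (a (b (l 16648904) (l 16669336)) (b (l 16701560) (l 16721536))) (a (b (l 16744400) (a (l 16749264) (l 16761224))) (b (l 16637744) (a (l 16772880) (l 16713432))))), by decide +kernel⟩

def k28_pm_123_a : ∃ t, chk3 f_pm_123_a t 12 14 1 = true :=
  ⟨(a (a (l 16686848) (l 16713288)) (b (l 16738184) (a (l 16742056) (l 16757456)))), by decide +kernel⟩

def k29_pm_123_a : ∃ t, chk3 f_pm_123_a t 12 30 1 = true :=
  ⟨(a (a (b (l 16709200) (l 16698136)) (l 16716800)) (a (a (l 16729768) (l 16738544)) (a (l 16746832) (b (l 16771064) (l 16781016))))), by decide +kernel⟩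

def k30_pm_123_a : ∃ t, chk3 f_pm_123_a t 24 31 1 = true :=
  ⟨(b (a (a (l 16754856) (l 16735096)) (a (l 16745512) (b (l 16752272) (l 16756632)))) (a (b (a (c (l 16730704) (l 16732400)) (c (l 16739680) (l 16745696))) (a (c (b (l 16734232) (a (l 602594456149853806421263) (l 603143246634382789698831))) (a (c (l 603032854349326822434063) (l 602781229227441687880911)) (b (l 16740016) (l 603709763834464453825551)))) (c (b (l 16742920) (a (l 603675608163392985277775) (l 16747040))) (a (a (l 604228290281161390380047) (l 604596648701883284395023)) (c (l 16751600) (l 605196456114655032562703)))))) (b (a (a (l 16749728) (l 16754280)) (c (l 16754968) (l 16768656))) (b (a (c (l 16750560) (b (l 16760568) (l 16782816))) (c (l 16758360) (a (l 16769720) (l 16775744)))) (a (c (a (b (l 16750256) (l 604778810299611170149391)) (a (l 16753648) (l 16755664))) (a (a (l 16759504) (a (l 16761632) (l 16763040))) (c (l 16763280) (a (l 16768760) (l 16771976))))) (c (a (a (l 16757760) (l 16759928)) (c (l 16760120) (l 16777312))) (b (a (l 16771960)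 (l 16799176)) (a (c (l 16769616) (a (l 16776064) (l 16779448))) (c (b (l 16775104) (l 16786440)) (a (l 16793368) (b (l 16785912) (l 16797328)))))))))))), by decide +kernel⟩

def k31_pm_123_a : ∃ t, chk3 f_pm_123_a t 25 31 1 = true :=
  ⟨(b (a (b (l 16744712) (a (l 16765480) (l 16775392))) (a (c (l 16772496) (l 16794712)) (c (l 16782232) (l 16807416)))) (a (b (a (c (l 16762984) (l 16780160)) (c (l 16772272) (l 16792784))) (a (a (c (b (l 16764992) (b (l 16767288) (a (l 16767664) (l 16770136)))) (b (l 16782024) (b (l 16805656) (c (a (l 16780112) (l 16783232)) (c (l 16799568) (a (l 16792560) (l 16796272))))))) (c (b (l 16769752) (a (a (l 16771184) (l 16772448)) (a (l 16773720) (l 16775016)))) (b (l 16788512) (c (a (l 16785464) (l 16788656)) (b (l 16796928) (b (l 16798456) (c (l 16796624) (a (l 16800544) (l 16804344))))))))) (c (c (b (l 16772840) (a (a (l 16772656) (l 16775120)) (a (l 16777632) (l 16780184)))) (b (l 16782152) (b (l 16784960) (a (l 16783992) (l 16789848))))) (b (a (l 16795184) (l 16802024)) (a (c (a (l 16791888)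 (l 16795160)) (b (l 16804232) (a (a (l 16803592) (l 16805456)) (a (l 16807328) (l 16809200))))) (c (a (l 16798472) (l 16801816)) (b (l 16811672) (a (b (l 16811472) (l 16812600)) (l 16826320))))))))) (b (a (c (l 16782424) (l 16806120)) (c (l 16793256) (l 16819936))) (a (b (c (a (l 16785328) (l 16790856)) (a (l 16809000) (l 16816080))) (c (a (a (c (l 16782784) (l 16793288)) (c (l 16785424) (l 16796296))) (c (b (l 16788424) (l 16790472)) (l 16800872))) (b (a (l 16833296) (l 16819536)) (a (c (a (l 16806288) (l 16809712)) (a (l 16819648) (l 16823488))) (c (l 16814888) (a (l 16827344) (l 16831208))))))) (c (c (a (a (l 16791464) (l 16794192)) (b (l 16796232) (l 16800472))) (b (l 16805840) (a (l 16807040) (l 16813288)))) (b (a (l 16823240) (l 16830496)) (a (c (l 16820664) (b (l 16834512) (l 16837024))) (a (l 16844032) (l 16837176))))))))), by decide +kernel⟩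

def k32_pm_123_a : ∃ t, chk3 f_pm_123_a t 13 7 1 = true :=
  ⟨(a (b (b (l 16683560) (a (l 16772400) (l 16787880))) (b (a (b (l 16784496) (a (l 16791336) (l 16802296))) (c (l 16776632) (b (l 16821456) (l 16836288)))) (a (b (a (b (l 16801888) (l 16810064)) (b (l 16813832) (l 16822056))) (a (b (c (l 16804560) (l 16834040)) (a (a (b (l 16820488) (c (l 16811024) (l 16840744))) (c (l 16811672) (l 16841816))) (a (c (l 16814400) (l 16845200)) (c (l 16817048) (l 16848472))))) (b (c (l 16815376) (l 16847392)) (c (c (b (l 16814152) (l 16817992)) (l 16830904)) (a (b (l 16850920) (l 16855392)) (l 16851216)))))) (b (a (c (l 16813416) (l 16846328)) (c (l 16822832) (l 16857808))) (c (a (b (l 16824848) (a (l 16830064) (l 16834176))) (c (l 16849408) (l 16844912))) (a (b (l 16859056) (a (l 16864568) (l 16869632))) (c (l 16863120) (l 16883072)))))))) (a (b (b (l 16786696) (l 16701728)) (b (b (l 16740520) (c (l 16821136) (l 16856312))) (c (b (l 16812304) (a (a (l 16820536) (b (l 16841344) (l 16847304))) (b (l 16844056) (l 16828824))))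 (a (b (l 16867136) (b (l 16877400) (a (l 16882432) (l 16906608)))) (b (l 16871880) (c (l 16874152) (l 16852504))))))) (b (b (l 16795232) (l 16731704)) (c (b (b (l 16817928) (l 16828112)) (b (l 16818040) (a (b (l 16846480) (l 16831152)) (l 16830008)))) (b (l 16854544) (b (b (l 16869360) (l 16875240)) (a (c (l 16875328) (l 16894608)) (a (l 16863160) (l 16862960))))))))), by decide +kernel⟩

def k33_pm_123_a : ∃ t, chk3 f_pm_123_a t 14 3 1 = true :=
  ⟨(b (a (b (a (l 16752176) (l 16745016)) (a (l 16771504) (l 16769488))) (b (l 16737984) (a (l 16700152) (b (l 16753552) (l 16768232))))) (a (b (b (l 16793544) (a (l 16795424) (l 16815136))) (c (b (a (l 16825088) (l 16804728)) (a (b (l 16841248) (a (l 16852664) (l 16875152))) (b (l 16843752) (b (l 16852664) (b (l 16836104) (l 16796968)))))) (b (a (l 16852632) (l 16849000)) (a (b (l 16870280) (b (l 16880040) (l 16844856))) (b (l 16868856) (a (l 16861584) (l 16836680))))))) (b (b (l 16789680) (a (l 16811760) (l 16809056))) (b (a (b (l 16829616) (l 16841592)) (b (l 16825896)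 (l 16837024))) (b (a (c (l 16843200) (l 16864432)) (l 16804584)) (a (b (l 16819656) (a (l 16826160) (l 16799256))) (a (b (l 16854560) (l 16788032)) (c (l 16843208) (l 16791608))))))))), by decide +kernel⟩

def k34_pm_123_a : ∃ t, chk3 f_pm_123_a t 15 3 1 = true :=
  ⟨(b (a (b (a (l 16729800) (l 16725848)) (a (l 16756128) (l 16750792))) (a (a (b (l 16726920) (l 16747752)) (b (l 16666888) (l 16745848))) (a (b (a (l 16735216) (l 16640376)) (a (b (l 16741336) (l 16750664)) (l 16767664))) (a (b (l 16753384) (l 16757240)) (b (l 4) (l 4)))))) (a (b (b (a (l 16781736) (l 16775368)) (a (l 16803264) (l 16793376))) (c (b (a (l 16817176) (l 16805672)) (b (a (l 16828152) (l 16814728)) (a (b (l 16832808) (l 16791472)) (a (l 16799520) (b (l 16812896) (b (l 16811288) (l 16789288))))))) (b (a (l 16828840) (l 16771304)) (a (b (l 16827576) (b (l 16780696) (a (l 16802496) (l 16794736)))) (b (l 16791264) (b (l 16771288) (a (l 16777080) (a (l 16803520) (l 16779360))))))))) (b (b (a (l 16768240) (a (a (l 16760192) (l 16737184)) (a (a (l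 16757488) (l 16759672)) (a (l 16765392) (l 4))))) (a (a (l 16783072) (l 16776424)) (a (b (l 16766448) (l 16772120)) (a (a (l 16764664) (l 6)) (l 6))))) (a (b (a (l 16796984) (l 16788176)) (b (a (l 16804944) (b (l 16795248) (l 16796984))) (b (a (l 16767576) (b (l 16795456) (l 16773496))) (c (a (a (l 16783704) (l 16785072)) (b (l 16795728) (a (l 16786184) (b (l 16793312) (l 16782400))))) (a (b (l 16775520) (a (l 16796688) (l 16780760))) (b (l 16770040) (a (a (l 16791848) (l 16790544)) (a (l 16789264) (l 16793248))))))))) (a (a (a (b (l 16782488) (b (l 16790536) (b (l 16791024) (b (l 16789648) (b (l 16778464) (c (l 16779776) (l 16786504))))))) (l 6)) (l 6)) (l 6)))))), by decide +kernel⟩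

theorem s35_pm_123_a : ∃ t, chk3 f_pm_123_a t 7 3 1 = true := ex3_a k33_pm_123_a k34_pm_123_a

theorem s36_pm_123_a : ∃ t, chk3 f_pm_123_a t 12 31 1 = true := ex3_a k30_pm_123_a k31_pm_123_a

theorem s37_pm_123_a : ∃ t, chk3 f_pm_123_a t 12 15 1 = true := ex3_b k29_pm_123_a s36_pm_123_a

theorem s38_pm_123_a : ∃ t, chk3 f_pm_123_a t 12 7 1 = true := ex3_b k28_pm_123_a s37_pm_123_a

theorem s39_pm_123_a : ∃ t, chk3 f_pm_123_a t 6 7 1 = true := ex3_a s38_pm_123_a k32_pm_123_a

theorem s40_pm_123_a : ∃ t, chk3 f_pm_123_a t 6 3 1 = true := ex3_b k27_pm_123_a s39_pm_123_a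

theorem s41_pm_123_a : ∃ t, chk3 f_pm_123_a t 3 3 1 = true := ex3_a s40_pm_123_a s35_pm_123_a

theorem s42_pm_123_a : ∃ t, chk3 f_pm_123_a t 3 1 1 = true := ex3_b k26_pm_123_a s41_pm_123_a

theorem s43_pm_123_a : ∃ t, chk3 f_pm_123_a t 23 7 1 = true := ex3_a k24_pm_123_a k25_pm_123_a

theorem s44_pm_123_a : ∃ t, chk3 f_pm_123_a t 91 63 1 = true := ex3_c k22_pm_123_a k23_pm_123_a

theorem s45_pm_123_a : ∃ t, chk3 f_pm_123_a t 91 31 1 = true := ex3_b k21_pm_123_a s44_pm_123_a

theorem s46_pm_123_a : ∃ t, chk3 f_pm_123_a t 91 15 1 = true := ex3_b k20_pm_123_a s45_pm_123_a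

theorem s47_pm_123_a : ∃ t, chk3 f_pm_123_a t 91 7 1 = true := ex3_b k19_pm_123_a s46_pm_123_a

theorem s48_pm_123_a : ∃ t, chk3 f_pm_123_a t 45 7 1 = true := ex3_a k18_pm_123_a s47_pm_123_a

theorem s49_pm_123_a : ∃ t, chk3 f_pm_123_a t 44 7 1 = true := ex3_a k16_pm_123_a k17_pm_123_a

theorem s50_pm_123_a : ∃ t, chk3 f_pm_123_a t 22 7 1 = true := ex3_a s49_pm_123_a s48_pm_123_a

theorem s51_pm_123_a : ∃ t, chk3 f_pm_123_a t 11 7 1 = true := ex3_a s50_pm_123_a s43_pm_123_a

theorem s52_pm_123_a : ∃ t, chk3 f_pm_123_a t 11 3 1 = true := ex3_b k15_pm_123_a s51_pm_123_a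

theorem s53_pm_123_a : ∃ t, chk3 f_pm_123_a t 11 1 1 = true := ex3_b k14_pm_123_a s52_pm_123_a

theorem s54_pm_123_a : ∃ t, chk3 f_pm_123_a t 21 15 1 = true := ex3_a k12_pm_123_a k13_pm_123_a

theorem s55_pm_123_a : ∃ t, chk3 f_pm_123_a t 21 7 1 = true := ex3_b k11_pm_123_a s54_pm_123_a

theorem s56_pm_123_a : ∃ t, chk3 f_pm_123_a t 20 63 1 = true := ex3_a k9_pm_123_a k10_pm_123_a

theorem s57_pm_123_a : ∃ t, chk3 f_pm_123_a t 20 31 1 = true := ex3_b k8_pm_123_a s56_pm_123_a

theorem s58_pm_123_a : ∃ t, chk3 f_pm_123_a t 20 15 1 = true := ex3_b k7_pm_123_a s57_pm_123_a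

theorem s59_pm_123_a : ∃ t, chk3 f_pm_123_a t 20 7 1 = true := ex3_b k6_pm_123_a s58_pm_123_a

theorem s60_pm_123_a : ∃ t, chk3 f_pm_123_a t 10 7 1 = true := ex3_a s59_pm_123_a s55_pm_123_a

theorem s61_pm_123_a : ∃ t, chk3 f_pm_123_a t 10 3 1 = true := ex3_b k5_pm_123_a s60_pm_123_a

theorem s62_pm_123_a : ∃ t, chk3 f_pm_123_a t 10 1 1 = true := ex3_b k4_pm_123_a s61_pm_123_a

theorem s63_pm_123_a : ∃ t, chk3 f_pm_123_a t 5 1 1 = true := ex3_a s62_pm_123_a s53_pm_123_a

theorem s64_pm_123_a : ∃ t, chk3 f_pm_123_a t 4 7 1 = true := ex3_a k2_pm_123_a k3_pm_123_a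

theorem s65_pm_123_a : ∃ t, chk3 f_pm_123_a t 4 3 1 = true := ex3_b k1_pm_123_a s64_pm_123_a

theorem s66_pm_123_a : ∃ t, chk3 f_pm_123_a t 4 1 1 = true := ex3_b k0_pm_123_a s65_pm_123_a

theorem s67_pm_123_a : ∃ t, chk3 f_pm_123_a t 2 1 1 = true := ex3_a s66_pm_123_a s63_pm_123_a

theorem s68_pm_123_a : ∃ t, chk3 f_pm_123_a t 1 1 1 = true := ex3_a s67_pm_123_a s42_pm_123_a

theorem c_pm_123_a : CertB 536870912 536870912 0 536870912 697932185 42949674 3 eng mog cd0q1 cd4q2a pd3 true true false .npn 1 2 3
    ndB0q1 ndB4q2a pcB3 cut_pm_123_a xt_pm_123_a :=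
  certB2 (fam := true) (s1 := true) (s2 := false) (a := 1) (b := 2) (c := 3) (cn := .npn) (n1 := ndB0q1) (n2 := ndB4q2a) (pc := pcB3) (cut := cut_pm_123_a) (xt := xt_pm_123_a) (P1 := 536870912) (W1 := 536870912) (P2 := 0) (W2 := 536870912) (P3 := 697932185) (W3 := 42949674) (N0 := 3) (En := eng) (mo := mog) (C1 := cd0q1) (C2 := cd4q2a) (C3 := pd3)
    rfl (fun _ => rfl) s68_pm_123_a

noncomputable def cut_pm_123_b : Cut := Cut.of [[⟨0, 1, 0, 67108864⟩, ⟨1, 1, 0, 67108864⟩, ⟨2, 2, 0, 16777216⟩], [⟨0, 0, 1, 20971520⟩, ⟨1, 1, 0, 33554432⟩, ⟨2, 1, 1, 20971520⟩]]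

noncomputable def f_pm_123_b : ℕ → ℕ → ℕ → ℕ → Bool := onCell 1610612736 536870912 1239849684 370763052 697932185 42949674
    (rowB 3 eng mog cd0q1 cd4q2b pd3 2 true true false .npn 1 2 3 (qsf 536870912 536870912 1239849684 370763052 3) ndB0q1 ndB4q2b pcB3 cut_pm_123_b Ext.none)

def k0_pm_123_b : ∃ t, chk3 f_pm_123_b t 1 1 1 = true :=
  ⟨(a (b (a (l 1) (a (b (b (a (a (l 1) (l 16505160)) (a (l 16541096) (l 16579816))) (l 1)) (l 1)) (a (b (a (b (a (l 16602424) (l 16581520)) (a (l 1) (l 16556272))) (b (a (l 16548184) (l 16548504)) (l 16540064))) (l 1)) (b (b (l 16587936) (l 16580744)) (b (l 16579056) (l 1)))))) (l 1)) (a (b (a (b (b (a (l 16644112) (l 16693384)) (l 16786944)) (b (l 16646432) (l 16637456))) (b (a (b (l 16734424) (l 16713008)) (b (l 16753480) (l 16729792))) (b (l 16953448) (l 16929672)))) (b (a (l 1) (a (l 16682592) (l 16714712))) (l 1))) (b (a (b (a (b (l 16739832) (l 16720328)) (b (b (l 16659800) (l 16724016)) (l 16727072))) (a (l 16725840) (l 16900312))) (a (b (b (a (l 16722392) (l 16584792)) (a (l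 16732728) (l 16722432))) (b (l 16733256) (l 16727264))) (a (b (b (b (l 16784744) (l 16739448)) (l 4)) (l 4)) (l 4)))) (b (a (a (l 16721560) (l 16725032)) (l 4)) (a (a (l 1) (l 16731408)) (l 4)))))), by decide +kernel⟩

theorem c_pm_123_b : CertB 536870912 536870912 1239849684 370763052 697932185 42949674 3 eng mog cd0q1 cd4q2b pd3 true true false .npn 1 2 3
    ndB0q1 ndB4q2b pcB3 cut_pm_123_b Ext.none :=
  certB2 (fam := true) (s1 := true) (s2 := false) (a := 1) (b := 2) (c := 3) (cn := .npn) (n1 := ndB0q1) (n2 := ndB4q2b) (pc := pcB3) (cut := cut_pm_123_b) (xt := Ext.none) (P1 := 536870912) (W1 := 536870912) (P2 := 1239849684) (W2 := 370763052) (P3 := 697932185) (W3 := 42949674) (N0 := 3) (En := eng) (mo := mog) (C1 := cd0q1) (C2 := cd4q2b) (C3 := pd3)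
    rfl (fun _ => rfl) k0_pm_123_b

noncomputable def f_pm_133 : ℕ → ℕ → ℕ → ℕ → Bool := onCell 536870912 536870912 1610612736 536870912 697932185 42949674
    (rowB 3 eng mog cd0q1 cd4q3 pd3 0 true true false .dn 1 3 3 (qsf 536870912 536870912 1610612736 536870912 3) ndB0q1 ndB4q3 pcB3 Cut.none Ext.none)

def k0_pm_133 : ∃ t, chk3 f_pm_133 t 1 1 1 = true :=
  ⟨(a (l 4) (l 2)), by decide +kernel⟩

theorem c_pm_133 : CertB 536870912 536870912 1610612736 536870912 697932185 42949674 3 eng mog cd0q1 cd4q3 pd3 true true false .dn 1 3 3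
    ndB0q1 ndB4q3 pcB3 Cut.none Ext.none :=
  certB0 (fam := true) (s1 := true) (s2 := false) (a := 1) (b := 3) (c := 3) (cn := .dn) (n1 := ndB0q1) (n2 := ndB4q3) (pc := pcB3) (cut := Cut.none) (xt := Ext.none) (P1 := 536870912) (W1 := 536870912) (P2 := 1610612736) (W2 := 536870912) (P3 := 697932185) (W3 := 42949674) (N0 := 3) (En := eng) (mo := mog) (C1 := cd0q1) (C2 := cd4q3) (C3 := pd3)
    rfl k0_pm_133

noncomputable def cut_pm_202 : Cut := Cut.of [[⟨0, 1, 0, 67108864⟩, ⟨1, 0, 0, 67108864⟩, ⟨2, 1, 0, 67108864⟩]]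

noncomputable def f_pm_202 : ℕ → ℕ → ℕ → ℕ → Bool := onCell 0 536870912 1073741824 536870912 697932185 42949674
    (rowB 3 eng mog cd0q2 cd4q0 pd2 1 true true false .pp 2 0 2 (qsf 0 536870912 0 536870912 2) ndB0q2 ndB4q0 pcB2 cut_pm_202 Ext.none)

def k0_pm_202 : ∃ t, chk3 f_pm_202 t 4 2 1 = true :=
  ⟨(b (l 1) (b (b (b (l 1) (a (a (l 16448408) (l 16449688)) (a (a (l 16452824) (l 16456336)) (a (l 16460896) (l 16424344))))) (b (a (a (b (l 16447600) (l 16442336)) (b (l 16451280) (c (l 16444216) (l 16448032)))) (b (a (l 16456024) (l 16461072)) (c (a (l 16448296) (l 16452760)) (l 16455840)))) (a (a (b (l 16443048) (l 16435408)) (c (l 16446624) (l 16449616))) (c (a (l 16450528) (l 16454824)) (l 16457080))))) (b (a (a (b (b (l 16449040) (l 16452184)) (l 16456680)) (b (l 16452720) (a (l 16457144) (l 16458080)))) (b (a (l 16456872) (l 16461224)) (a (l 16460912) (l 16464952)))) (a (a (l 16465832) (l 16465560)) (a (b (l 16464848) (l 16469568)) (b (l 16468184) (l 16471296))))))), by decide +kernel⟩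

def k1_pm_202 : ∃ t, chk3 f_pm_202 t 5 2 1 = true :=
  ⟨(b (b (l 1) (b (l 1) (a (l 1) (b (l 1) (a (l 1) (b (l 1) (a (a (l 170757749047) (l 248604046327)) (a (l 308733600471) (l 16428696))))))))) (b (b (b (b (a (l 1) (a (a (l 16444552) (l 16454216)) (a (l 16444504) (l 16519360)))) (a (a (l 16465448) (l 16417664)) (a (l 16434880) (l 16451304)))) (a (a (c (l 16473256) (l 16470272)) (c (l 16481024) (l 16484744))) (a (c (l 16490328) (l 16500288)) (c (l 16497144) (l 16506384))))) (a (b (a (b (l 16425088) (c (l 16458288) (l 16464176))) (b (l 16390520) (c (l 16465368) (l 16471368)))) (a (c (l 16460200) (l 16465088)) (c (l 16467152) (l 16472080)))) (b (a (b (c (l 16480032) (l 16487648)) (c (l 16473984) (l 16480024))) (c (b (l 16486336) (l 16479944)) (l 16489256))) (a (c (l 16475640) (l 16480544)) (c (l 16481456) (l 16485624)))))) (a (b (a (b (l 16466512) (l 16469952)) (b (l 16473256) (l 16476432))) (a (l 16474168) (l 16480096))) (b (a (b (l 16471040) (l 16484448)) (c (l 16487584) (l 16490080))) (a (l 16487608) (l 16492128)))))),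 by decide +kernel⟩

def k2_pm_202 : ∃ t, chk3 f_pm_202 t 2 3 1 = true :=
  ⟨(b (a (b (a (b (l 16478368) (l 16492304)) (b (a (l 16477336) (l 16478040)) (l 16489296))) (b (a (l 16513544) (l 16509168)) (l 16542192))) (b (a (b (a (b (l 16477904) (l 16481800)) (b (l 16483184) (l 16485296))) (a (l 16489288) (b (l 16488800) (l 16494776)))) (b (a (l 16490880) (l 16494432)) (a (b (l 16493976) (l 16499360)) (l 16499176)))) (a (b (b (l 16503320) (l 16515088)) (l 16535616)) (b (a (l 16512120) (b (l 16506696) (l 16515552))) (l 16533480))))) (a (b (b (l 16575440) (l 16609528)) (b (l 16725024) (l 16664496))) (b (a (b (l 16564408) (l 16594008)) (b (l 16558560) (l 16584216))) (a (b (l 16620056) (l 16639168)) (b (l 16606000) (l 16626096)))))), by decide +kernel⟩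

def k3_pm_202 : ∃ t, chk3 f_pm_202 t 3 4 1 = true :=
  ⟨(b (a (l 1) (b (a (l 1) (l 6)) (b (a (a (l 1) (l 6)) (l 6)) (b (a (a (l 1) (l 6)) (l 6)) (a (a (a (l 1) (b (l 464426613303) (l 518650584471))) (a (b (l 6) (l 16651496)) (l 16671816))) (a (l 16675088) (l 16669560))))))) (a (b (a (l 1) (b (a (l 1) (b (l 1) (a (l 441341041527) (l 521334869831)))) (a (b (a (l 1) (l 448320334135)) (a (l 472479500695) (b (l 559452653735) (l 16590112)))) (a (b (b (l 544957164519) (l 588980594023)) (b (l 16522656) (l 16588392))) (b (b (l 16537344) (l 16602704)) (l 16606400)))))) (a (b (a (b (l 1) (a (l 1) (l 460668321367))) (b (a (l 1) (l 504154886151)) (a (b (l 16550928) (l 16534056)) (c (l 16489824) (l 16540584))))) (a (a (b (c (l 295848763639) (l 16505040)) (l 16417080)) (b (c (l 16469520) (l 16519160)) (l 16534992))) (a (b (l 16456336) (l 16548400)) (l 16464112)))) (a (b (b (a (b (l 553547050679) (l 16494920)) (b (l 16509416) (l 16575536))) (a (l 16500208) (l 16580312))) (b (l 16573456) (l 16559528))) (b (b (l 16560176) (l 16588560))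 (l 16567256))))) (a (b (b (a (a (b (l 508450000279) (b (l 16552928) (l 16617912))) (b (c (l 16578784) (l 16650656)) (l 16636712))) (b (l 16599528) (l 16647400))) (a (a (l 16560256) (l 16625312)) (l 16624904))) (b (a (l 16595840) (l 16595120)) (a (l 16566944) (l 16565976)))) (b (a (b (l 16652288) (l 16621856)) (b (l 16646464) (l 16615784))) (a (l 16640232) (l 16592208)))))), by decide +kernel⟩

def k4_pm_202 : ∃ t, chk3 f_pm_202 t 3 5 1 = true :=
  ⟨(a (b (b (a (b (a (b (l 16533120) (l 16520112)) (l 16534072)) (b (a (l 16508904) (l 16514128)) (a (b (l 16501496) (l 16497216)) (b (l 16504456) (l 16519872))))) (a (b (l 16539080) (b (l 16518968) (l 16506200))) (b (l 16539456) (b (l 16519136) (l 16506560))))) (a (b (a (b (l 16491048) (l 16483464)) (b (l 16491280) (l 16482688))) (a (l 16484200) (l 16483192))) (b (a (l 16487248) (l 16486704)) (a (l 16479896) (l 16474656))))) (a (b (a (b (l 16487848) (l 16490312)) (l 16487928)) (a (l 16492456) (l 16490480))) (b (a (l 16484104) (l 16475504)) (a (l 16485936) (l 16476064)))))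 (b (b (a (b (a (l 16538880) (l 16537792)) (b (l 16518128) (a (l 16506144) (l 16505432)))) (b (a (l 16534432) (l 16528848)) (b (l 16512136) (a (l 16502728) (l 16498216))))) (a (b (l 16486064) (l 16472056)) (a (l 16622296) (b (l 16478256) (l 16459304))))) (a (b (a (l 16468488) (l 16461496)) (a (l 16464272) (l 16450376))) (b (a (l 16452304) (l 16438928)) (a (l 16435152) (l 16419768)))))), by decide +kernel⟩

def k5_pm_202 : ∃ t, chk3 f_pm_202 t 3 3 1 = true :=
  ⟨(b (a (b (a (b (a (l 16493808) (l 16490616)) (a (l 16497104) (l 16491824))) (b (a (l 16484080) (l 16471512)) (l 16476080))) (a (b (a (l 16505032) (l 16497320)) (l 16520920)) (b (l 16478600) (l 16490320)))) (b (a (b (l 16450152) (l 16446168)) (b (l 16419488) (l 16417464))) (a (b (l 16447816) (l 16459216)) (b (l 16424096) (l 16437624))))) (a (b (a (b (l 16542000) (l 16563424)) (b (l 16508184) (l 16527672))) (a (l 16594536) (l 16561648))) (b (a (b (l 16475784) (l 16494480)) (l 16466360)) (a (l 16536792) (l 16533680))))), by decide +kernel⟩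

theorem s6_pm_202 : ∃ t, chk3 f_pm_202 t 3 2 1 = true := ex3_b k3_pm_202 k4_pm_202

theorem s7_pm_202 : ∃ t, chk3 f_pm_202 t 3 1 1 = true := ex3_b s6_pm_202 k5_pm_202

theorem s8_pm_202 : ∃ t, chk3 f_pm_202 t 2 2 1 = true := ex3_a k0_pm_202 k1_pm_202

theorem s9_pm_202 : ∃ t, chk3 f_pm_202 t 2 1 1 = true := ex3_b s8_pm_202 k2_pm_202

theorem s10_pm_202 : ∃ t, chk3 f_pm_202 t 1 1 1 = true := ex3_a s9_pm_202 s7_pm_202

theorem c_pm_202 : CertB 0 536870912 0 536870912 697932185 42949674 3 eng mog cd0q2 cd4q0 pd2 true true false .pp 2 0 2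
    ndB0q2 ndB4q0 pcB2 cut_pm_202 Ext.none :=
  certB1 (fam := true) (s1 := true) (s2 := false) (a := 2) (b := 0) (c := 2) (cn := .pp) (n1 := ndB0q2) (n2 := ndB4q0) (pc := pcB2) (cut := cut_pm_202) (xt := Ext.none) (P1 := 0) (W1 := 536870912) (P2 := 0) (W2 := 536870912) (P3 := 697932185) (W3 := 42949674) (N0 := 3) (En := eng) (mo := mog) (C1 := cd0q2) (C2 := cd4q0) (C3 := pd2)
    rfl (fun _ => rfl) s10_pm_202

noncomputable def f_pm_203 : ℕ → ℕ → ℕ → ℕ → Bool := onCell 0 536870912 1610612736 536870912 697932185 42949674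
    (rowB 3 eng mog cd0q2 cd4q0 pd3 1 true true false .up 2 0 3 (qsf 0 536870912 0 536870912 3) ndB0q2 ndB4q0 pcB3 Cut.none Ext.none)

def k0_pm_203 : ∃ t, chk3 f_pm_203 t 1 1 1 = true :=
  ⟨(b (b (a (a (l 4) (b (b (l 16672384) (l 16666496)) (b (l 16674272) (l 4)))) (a (b (a (l 16643624) (l 16629152)) (b (l 16686600) (l 16707448))) (b (l 16641768) (l 16812696)))) (a (l 4) (a (l 2) (l 2)))) (l 2)), by decide +kernel⟩

theorem c_pm_203 : CertB 0 536870912 0 536870912 697932185 42949674 3 eng mog cd0q2 cd4q0 pd3 true true false .up 2 0 3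
    ndB0q2 ndB4q0 pcB3 Cut.none Ext.none :=
  certB1 (fam := true) (s1 := true) (s2 := false) (a := 2) (b := 0) (c := 3) (cn := .up) (n1 := ndB0q2) (n2 := ndB4q0) (pc := pcB3) (cut := Cut.none) (xt := Ext.none) (P1 := 0) (W1 := 536870912) (P2 := 0) (W2 := 536870912) (P3 := 697932185) (W3 := 42949674) (N0 := 3) (En := eng) (mo := mog) (C1 := cd0q2) (C2 := cd4q0) (C3 := pd3)
    rfl (fun _ => rfl) k0_pm_203

noncomputable def f_pm_213 : ℕ → ℕ → ℕ → ℕ → Bool := onCell 0 536870912 1610612736 536870912 697932185 42949674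
    (rowB 3 eng mog cd0q2 cd4q1 pd3 1 true true false .pnn 2 1 3 (qsf 0 536870912 536870912 536870912 3) ndB0q2 ndB4q1 pcB3 Cut.none Ext.none)

def k0_pm_213 : ∃ t, chk3 f_pm_213 t 1 1 1 = true :=
  ⟨(a (b (b (b (l 1) (b (l 1) (l 4))) (l 4)) (l 4)) (b (b (a (b (l 1) (b (l 16675536) (l 16652936))) (b (l 16664160) (l 16816192))) (a (b (a (l 4) (l 16647192)) (l 4)) (b (l 16665576) (b (l 16663776) (l 4))))) (l 4))), by decide +kernel⟩

theorem c_pm_213 : CertB 0 536870912 536870912 536870912 697932185 42949674 3 eng mog cd0q2 cd4q1 pd3 true true false .pnn 2 1 3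
    ndB0q2 ndB4q1 pcB3 Cut.none Ext.none :=
  certB1 (fam := true) (s1 := true) (s2 := false) (a := 2) (b := 1) (c := 3) (cn := .pnn) (n1 := ndB0q2) (n2 := ndB4q1) (pc := pcB3) (cut := Cut.none) (xt := Ext.none) (P1 := 0) (W1 := 536870912) (P2 := 536870912) (W2 := 536870912) (P3 := 697932185) (W3 := 42949674) (N0 := 3) (En := eng) (mo := mog) (C1 := cd0q2) (C2 := cd4q1) (C3 := pd3)
    rfl (fun _ => rfl) k0_pm_213

noncomputable def f_mm_001 : ℕ → ℕ → ℕ → ℕ → Bool := onCell 0 536870912 0 536870912 697932185 42949674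
    (rowB 3 eng mog cd0q0 cd4q0 pd1 0 true false false .up 0 0 1 (qsf 0 536870912 0 536870912 1) ndB0q0 ndB4q0 pcB1 Cut.none Ext.none)

def k0_mm_001 : ∃ t, chk3 f_mm_001 t 1 1 1 = true :=
  ⟨(l 4), by decide +kernel⟩

theorem c_mm_001 : CertB 0 536870912 0 536870912 697932185 42949674 3 eng mog cd0q0 cd4q0 pd1 true false false .up 0 0 1
    ndB0q0 ndB4q0 pcB1 Cut.none Ext.none :=
  certB0 (fam := true) (s1 := false) (s2 := false) (a := 0) (b := 0) (c := 1) (cn := .up) (n1 := ndB0q0) (n2 := ndB4q0) (pc := pcB1) (cut := Cut.none) (xt := Ext.none) (P1 := 0) (W1 := 536870912) (P2 := 0) (W2 := 536870912) (P3 := 697932185) (W3 := 42949674) (N0 := 3) (En := eng) (mo := mog) (C1 := cd0q0) (C2 := cd4q0) (C3 := pd1)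
    rfl k0_mm_001

noncomputable def f_mm_011 : ℕ → ℕ → ℕ → ℕ → Bool := onCell 0 536870912 536870912 536870912 697932185 42949674
    (rowB 3 eng mog cd0q0 cd4q1 pd1 0 true false false .pnn 0 1 1 (qsf 0 536870912 536870912 536870912 1) ndB0q0 ndB4q1 pcB1 Cut.none Ext.none)

def k0_mm_011 : ∃ t, chk3 f_mm_011 t 1 1 1 = true :=
  ⟨(l 4), by decide +kernel⟩

theorem c_mm_011 : CertB 0 536870912 536870912 536870912 697932185 42949674 3 eng mog cd0q0 cd4q1 pd1 true false false .pnn 0 1 1
    ndB0q0 ndB4q1 pcB1 Cut.none Ext.none :=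
  certB0 (fam := true) (s1 := false) (s2 := false) (a := 0) (b := 1) (c := 1) (cn := .pnn) (n1 := ndB0q0) (n2 := ndB4q1) (pc := pcB1) (cut := Cut.none) (xt := Ext.none) (P1 := 0) (W1 := 536870912) (P2 := 536870912) (W2 := 536870912) (P3 := 697932185) (W3 := 42949674) (N0 := 3) (En := eng) (mo := mog) (C1 := cd0q0) (C2 := cd4q1) (C3 := pd1)
    rfl k0_mm_011

noncomputable def f_mm_012 : ℕ → ℕ → ℕ → ℕ → Bool := onCell 0 536870912 536870912 536870912 697932185 42949674
    (rowB 3 eng mog cd0q0 cd4q1 pd2 0 true false false .pnp 0 1 2 (qsf 0 536870912 536870912 536870912 2) ndB0q0 ndB4q1 pcB2 Cut.none Ext.none)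

def k0_mm_012 : ∃ t, chk3 f_mm_012 t 1 1 1 = true :=
  ⟨(l 4), by decide +kernel⟩

theorem c_mm_012 : CertB 0 536870912 536870912 536870912 697932185 42949674 3 eng mog cd0q0 cd4q1 pd2 true false false .pnp 0 1 2
    ndB0q0 ndB4q1 pcB2 Cut.none Ext.none :=
  certB0 (fam := true) (s1 := false) (s2 := false) (a := 0) (b := 1) (c := 2) (cn := .pnp) (n1 := ndB0q0) (n2 := ndB4q1) (pc := pcB2) (cut := Cut.none) (xt := Ext.none) (P1 := 0) (W1 := 536870912) (P2 := 536870912) (W2 := 536870912) (P3 := 697932185) (W3 := 42949674) (N0 := 3) (En := eng) (mo := mog) (C1 := cd0q0) (C2 := cd4q1) (C3 := pd2)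
    rfl k0_mm_012

noncomputable def f_mm_022_a : ℕ → ℕ → ℕ → ℕ → Bool := onCell 0 536870912 0 536870912 697932185 42949674
    (rowB 3 eng mog cd0q0 cd4q2a pd2 0 true false false .pp 0 2 2 (qsf 0 536870912 0 536870912 2) ndB0q0 ndB4q2a pcB2 Cut.none Ext.none)

def k0_mm_022_a : ∃ t, chk3 f_mm_022_a t 1 1 1 = true :=
  ⟨(l 5), by decide +kernel⟩

theorem c_mm_022_a : CertB 0 536870912 0 536870912 697932185 42949674 3 eng mog cd0q0 cd4q2a pd2 true false false .pp 0 2 2
    ndB0q0 ndB4q2a pcB2 Cut.none Ext.none :=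
  certB0 (fam := true) (s1 := false) (s2 := false) (a := 0) (b := 2) (c := 2) (cn := .pp) (n1 := ndB0q0) (n2 := ndB4q2a) (pc := pcB2) (cut := Cut.none) (xt := Ext.none) (P1 := 0) (W1 := 536870912) (P2 := 0) (W2 := 536870912) (P3 := 697932185) (W3 := 42949674) (N0 := 3) (En := eng) (mo := mog) (C1 := cd0q0) (C2 := cd4q2a) (C3 := pd2)
    rfl k0_mm_022_a

noncomputable def f_mm_022_b : ℕ → ℕ → ℕ → ℕ → Bool := onCell 0 536870912 1239849684 370763052 697932185 42949674
    (rowB 3 eng mog cd0q0 cd4q2b pd2 0 true false false .pp 0 2 2 (qsf 0 536870912 1239849684 370763052 2) ndB0q0 ndB4q2b pcB2 Cut.none Ext.none)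

def k0_mm_022_b : ∃ t, chk3 f_mm_022_b t 1 1 1 = true :=
  ⟨(l 5), by decide +kernel⟩

theorem c_mm_022_b : CertB 0 536870912 1239849684 370763052 697932185 42949674 3 eng mog cd0q0 cd4q2b pd2 true false false .pp 0 2 2
    ndB0q0 ndB4q2b pcB2 Cut.none Ext.none :=
  certB0 (fam := true) (s1 := false) (s2 := false) (a := 0) (b := 2) (c := 2) (cn := .pp) (n1 := ndB0q0) (n2 := ndB4q2b) (pc := pcB2) (cut := Cut.none) (xt := Ext.none) (P1 := 0) (W1 := 536870912) (P2 := 1239849684) (W2 := 370763052) (P3 := 697932185) (W3 := 42949674) (N0 := 3) (En := eng) (mo := mog) (C1 := cd0q0) (C2 := cd4q2b) (C3 := pd2)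
    rfl k0_mm_022_b

noncomputable def f_mm_023_a : ℕ → ℕ → ℕ → ℕ → Bool := onCell 0 536870912 0 536870912 697932185 42949674
    (rowB 3 eng mog cd0q0 cd4q2a pd3 0 true false false .up 0 2 3 (qsf 0 536870912 0 536870912 3) ndB0q0 ndB4q2a pcB3 Cut.none Ext.none)

def k0_mm_023_a : ∃ t, chk3 f_mm_023_a t 1 1 1 = true :=
  ⟨(l 5), by decide +kernel⟩

theorem c_mm_023_a : CertB 0 536870912 0 536870912 697932185 42949674 3 eng mog cd0q0 cd4q2a pd3 true false false .up 0 2 3
    ndB0q0 ndB4q2a pcB3 Cut.none Ext.none :=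
  certB0 (fam := true) (s1 := false) (s2 := false) (a := 0) (b := 2) (c := 3) (cn := .up) (n1 := ndB0q0) (n2 := ndB4q2a) (pc := pcB3) (cut := Cut.none) (xt := Ext.none) (P1 := 0) (W1 := 536870912) (P2 := 0) (W2 := 536870912) (P3 := 697932185) (W3 := 42949674) (N0 := 3) (En := eng) (mo := mog) (C1 := cd0q0) (C2 := cd4q2a) (C3 := pd3)
    rfl k0_mm_023_a

noncomputable def f_mm_023_b : ℕ → ℕ → ℕ → ℕ → Bool := onCell 0 536870912 1239849684 370763052 697932185 42949674
    (rowB 3 eng mog cd0q0 cd4q2b pd3 0 true false false .up 0 2 3 (qsf 0 536870912 1239849684 370763052 3) ndB0q0 ndB4q2b pcB3 Cut.none Ext.none)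

def k0_mm_023_b : ∃ t, chk3 f_mm_023_b t 1 1 1 = true :=
  ⟨(l 5), by decide +kernel⟩

theorem c_mm_023_b : CertB 0 536870912 1239849684 370763052 697932185 42949674 3 eng mog cd0q0 cd4q2b pd3 true false false .up 0 2 3
    ndB0q0 ndB4q2b pcB3 Cut.none Ext.none :=
  certB0 (fam := true) (s1 := false) (s2 := false) (a := 0) (b := 2) (c := 3) (cn := .up) (n1 := ndB0q0) (n2 := ndB4q2b) (pc := pcB3) (cut := Cut.none) (xt := Ext.none) (P1 := 0) (W1 := 536870912) (P2 := 1239849684) (W2 := 370763052) (P3 := 697932185) (W3 := 42949674) (N0 := 3) (En := eng) (mo := mog) (C1 := cd0q0) (C2 := cd4q2b) (C3 := pd3)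
    rfl k0_mm_023_b

noncomputable def f_mm_033 : ℕ → ℕ → ℕ → ℕ → Bool := onCell 0 536870912 1610612736 536870912 697932185 42949674
    (rowB 3 eng mog cd0q0 cd4q3 pd3 0 true false false .pnn 0 3 3 (qsf 0 536870912 1610612736 536870912 3) ndB0q0 ndB4q3 pcB3 Cut.none Ext.none)

def k0_mm_033 : ∃ t, chk3 f_mm_033 t 1 1 1 = true :=
  ⟨(l 4), by decide +kernel⟩

theorem c_mm_033 : CertB 0 536870912 1610612736 536870912 697932185 42949674 3 eng mog cd0q0 cd4q3 pd3 true false false .pnn 0 3 3
    ndB0q0 ndB4q3 pcB3 Cut.none Ext.none :=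
  certB0 (fam := true) (s1 := false) (s2 := false) (a := 0) (b := 3) (c := 3) (cn := .pnn) (n1 := ndB0q0) (n2 := ndB4q3) (pc := pcB3) (cut := Cut.none) (xt := Ext.none) (P1 := 0) (W1 := 536870912) (P2 := 1610612736) (W2 := 536870912) (P3 := 697932185) (W3 := 42949674) (N0 := 3) (En := eng) (mo := mog) (C1 := cd0q0) (C2 := cd4q3) (C3 := pd3)
    rfl k0_mm_033

noncomputable def cut_mm_101 : Cut := Cut.of [[⟨0, 1, 0, 67108864⟩, ⟨1, 0, 0, 67108864⟩, ⟨2, 1, 0, 67108864⟩]]

noncomputable def f_mm_101 : ℕ → ℕ → ℕ → ℕ → Bool := onCell 536870912 536870912 0 536870912 697932185 42949674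
    (rowB 3 eng mog cd0q1 cd4q0 pd1 0 true false false .npn 1 0 1 (qsf 536870912 536870912 0 536870912 1) ndB0q1 ndB4q0 pcB1 cut_mm_101 Ext.none)

def k0_mm_101 : ∃ t, chk3 f_mm_101 t 1 1 1 = true :=
  ⟨(a (l 4) (b (a (l 4) (b (a (l 4) (b (a (l 4) (b (l 6) (l 4))) (l 4))) (l 4))) (l 4))), by decide +kernel⟩

theorem c_mm_101 : CertB 536870912 536870912 0 536870912 697932185 42949674 3 eng mog cd0q1 cd4q0 pd1 true false false .npn 1 0 1
    ndB0q1 ndB4q0 pcB1 cut_mm_101 Ext.none :=
  certB0 (fam := true) (s1 := false) (s2 := false) (a := 1) (b := 0) (c := 1) (cn := .npn) (n1 := ndB0q1) (n2 := ndB4q0) (pc := pcB1) (cut := cut_mm_101) (xt := Ext.none) (P1 := 536870912) (W1 := 536870912) (P2 := 0) (W2 := 536870912) (P3 := 697932185) (W3 := 42949674) (N0 := 3) (En := eng) (mo := mog) (C1 := cd0q1) (C2 := cd4q0) (C3 := pd1)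
    rfl k0_mm_101

noncomputable def cut_mm_102 : Cut := Cut.of [[⟨0, 1, 0, 67108864⟩, ⟨1, 0, 0, 67108864⟩, ⟨2, 1, 0, 67108864⟩]]

noncomputable def f_mm_102 : ℕ → ℕ → ℕ → ℕ → Bool := onCell 536870912 536870912 0 536870912 697932185 42949674
    (rowB 3 eng mog cd0q1 cd4q0 pd2 0 true false false .npp 1 0 2 (qsf 536870912 536870912 0 536870912 2) ndB0q1 ndB4q0 pcB2 cut_mm_102 Ext.none)

def k0_mm_102 : ∃ t, chk3 f_mm_102 t 1 1 1 = true :=
  ⟨(a (l 4) (b (a (l 4) (b (a (l 4) (a (l 4) (b (b (l 6) (l 4)) (l 4)))) (l 4))) (l 4))), by decide +kernel⟩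

theorem c_mm_102 : CertB 536870912 536870912 0 536870912 697932185 42949674 3 eng mog cd0q1 cd4q0 pd2 true false false .npp 1 0 2
    ndB0q1 ndB4q0 pcB2 cut_mm_102 Ext.none :=
  certB0 (fam := true) (s1 := false) (s2 := false) (a := 1) (b := 0) (c := 2) (cn := .npp) (n1 := ndB0q1) (n2 := ndB4q0) (pc := pcB2) (cut := cut_mm_102) (xt := Ext.none) (P1 := 536870912) (W1 := 536870912) (P2 := 0) (W2 := 536870912) (P3 := 697932185) (W3 := 42949674) (N0 := 3) (En := eng) (mo := mog) (C1 := cd0q1) (C2 := cd4q0) (C3 := pd2)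
    rfl k0_mm_102

noncomputable def f_mm_112 : ℕ → ℕ → ℕ → ℕ → Bool := onCell 536870912 536870912 536870912 536870912 697932185 42949674
    (rowB 3 eng mog cd0q1 cd4q1 pd2 0 true false false .dn 1 1 2 (qsf 536870912 536870912 536870912 536870912 2) ndB0q1 ndB4q1 pcB2 Cut.none Ext.none)

def k0_mm_112 : ∃ t, chk3 f_mm_112 t 1 1 1 = true :=
  ⟨(l 4), by decide +kernel⟩

theorem c_mm_112 : CertB 536870912 536870912 536870912 536870912 697932185 42949674 3 eng mog cd0q1 cd4q1 pd2 true false false .dn 1 1 2
    ndB0q1 ndB4q1 pcB2 Cut.none Ext.none :=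
  certB0 (fam := true) (s1 := false) (s2 := false) (a := 1) (b := 1) (c := 2) (cn := .dn) (n1 := ndB0q1) (n2 := ndB4q1) (pc := pcB2) (cut := Cut.none) (xt := Ext.none) (P1 := 536870912) (W1 := 536870912) (P2 := 536870912) (W2 := 536870912) (P3 := 697932185) (W3 := 42949674) (N0 := 3) (En := eng) (mo := mog) (C1 := cd0q1) (C2 := cd4q1) (C3 := pd2)
    rfl k0_mm_112

noncomputable def f_mm_113 : ℕ → ℕ → ℕ → ℕ → Bool := onCell 536870912 536870912 536870912 536870912 697932185 42949674
    (rowB 3 eng mog cd0q1 cd4q1 pd3 0 true false false .nn 1 1 3 (qsf 536870912 536870912 536870912 536870912 3) ndB0q1 ndB4q1 pcB3 Cut.none Ext.none)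

def k0_mm_113 : ∃ t, chk3 f_mm_113 t 1 1 1 = true :=
  ⟨(l 4), by decide +kernel⟩

theorem c_mm_113 : CertB 536870912 536870912 536870912 536870912 697932185 42949674 3 eng mog cd0q1 cd4q1 pd3 true false false .nn 1 1 3
    ndB0q1 ndB4q1 pcB3 Cut.none Ext.none :=
  certB0 (fam := true) (s1 := false) (s2 := false) (a := 1) (b := 1) (c := 3) (cn := .nn) (n1 := ndB0q1) (n2 := ndB4q1) (pc := pcB3) (cut := Cut.none) (xt := Ext.none) (P1 := 536870912) (W1 := 536870912) (P2 := 536870912) (W2 := 536870912) (P3 := 697932185) (W3 := 42949674) (N0 := 3) (En := eng) (mo := mog) (C1 := cd0q1) (C2 := cd4q1) (C3 := pd3)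
    rfl k0_mm_113

noncomputable def f_mm_123_a : ℕ → ℕ → ℕ → ℕ → Bool := onCell 536870912 536870912 0 536870912 697932185 42949674
    (rowB 3 eng mog cd0q1 cd4q2a pd3 0 true false false .npn 1 2 3 (qsf 536870912 536870912 0 536870912 3) ndB0q1 ndB4q2a pcB3 Cut.none Ext.none)

def k0_mm_123_a : ∃ t, chk3 f_mm_123_a t 1 1 1 = true :=
  ⟨(l 4), by decide +kernel⟩

theorem c_mm_123_a : CertB 536870912 536870912 0 536870912 697932185 42949674 3 eng mog cd0q1 cd4q2a pd3 true false false .npn 1 2 3
    ndB0q1 ndB4q2a pcB3 Cut.none Ext.none :=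
  certB0 (fam := true) (s1 := false) (s2 := false) (a := 1) (b := 2) (c := 3) (cn := .npn) (n1 := ndB0q1) (n2 := ndB4q2a) (pc := pcB3) (cut := Cut.none) (xt := Ext.none) (P1 := 536870912) (W1 := 536870912) (P2 := 0) (W2 := 536870912) (P3 := 697932185) (W3 := 42949674) (N0 := 3) (En := eng) (mo := mog) (C1 := cd0q1) (C2 := cd4q2a) (C3 := pd3)
    rfl k0_mm_123_a

noncomputable def f_mm_123_b : ℕ → ℕ → ℕ → ℕ → Bool := onCell 536870912 536870912 1239849684 370763052 697932185 42949674
    (rowB 3 eng mog cd0q1 cd4q2b pd3 0 true false false .npn 1 2 3 (qsf 536870912 536870912 1239849684 370763052 3) ndB0q1 ndB4q2b pcB3 Cut.none Ext.none)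

def k0_mm_123_b : ∃ t, chk3 f_mm_123_b t 1 1 1 = true :=
  ⟨(l 4), by decide +kernel⟩

theorem c_mm_123_b : CertB 536870912 536870912 1239849684 370763052 697932185 42949674 3 eng mog cd0q1 cd4q2b pd3 true false false .npn 1 2 3
    ndB0q1 ndB4q2b pcB3 Cut.none Ext.none :=
  certB0 (fam := true) (s1 := false) (s2 := false) (a := 1) (b := 2) (c := 3) (cn := .npn) (n1 := ndB0q1) (n2 := ndB4q2b) (pc := pcB3) (cut := Cut.none) (xt := Ext.none) (P1 := 536870912) (W1 := 536870912) (P2 := 1239849684) (W2 := 370763052) (P3 := 697932185) (W3 := 42949674) (N0 := 3) (En := eng) (mo := mog) (C1 := cd0q1) (C2 := cd4q2b) (C3 := pd3)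
    rfl k0_mm_123_b

noncomputable def f_mm_133 : ℕ → ℕ → ℕ → ℕ → Bool := onCell 536870912 536870912 1610612736 536870912 697932185 42949674
    (rowB 3 eng mog cd0q1 cd4q3 pd3 0 true false false .dn 1 3 3 (qsf 536870912 536870912 1610612736 536870912 3) ndB0q1 ndB4q3 pcB3 Cut.none Ext.none)

def k0_mm_133 : ∃ t, chk3 f_mm_133 t 1 1 1 = true :=
  ⟨(l 4), by decide +kernel⟩

theorem c_mm_133 : CertB 536870912 536870912 1610612736 536870912 697932185 42949674 3 eng mog cd0q1 cd4q3 pd3 true false false .dn 1 3 3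
    ndB0q1 ndB4q3 pcB3 Cut.none Ext.none :=
  certB0 (fam := true) (s1 := false) (s2 := false) (a := 1) (b := 3) (c := 3) (cn := .dn) (n1 := ndB0q1) (n2 := ndB4q3) (pc := pcB3) (cut := Cut.none) (xt := Ext.none) (P1 := 536870912) (W1 := 536870912) (P2 := 1610612736) (W2 := 536870912) (P3 := 697932185) (W3 := 42949674) (N0 := 3) (En := eng) (mo := mog) (C1 := cd0q1) (C2 := cd4q3) (C3 := pd3)
    rfl k0_mm_133

noncomputable def cut_mm_202 : Cut := Cut.of [[⟨0, 1, 0, 67108864⟩, ⟨1, 0, 0, 67108864⟩, ⟨2, 1, 0, 67108864⟩]]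

noncomputable def f_mm_202 : ℕ → ℕ → ℕ → ℕ → Bool := onCell 0 536870912 0 536870912 697932185 42949674
    (rowB 3 eng mog cd0q2 cd4q0 pd2 0 true false false .pp 2 0 2 (qsf 0 536870912 0 536870912 2) ndB0q2 ndB4q0 pcB2 cut_mm_202 Ext.none)

def k0_mm_202 : ∃ t, chk3 f_mm_202 t 2 2 1 = true :=
  ⟨(b (a (b (b (a (b (a (b (l 16446960) (c (l 16461944) (l 16442704))) (a (l 16445072) (l 16446480))) (a (b (a (l 16441080) (l 16441368)) (l 16445064)) (l 16444976))) (b (l 16455224) (l 16453696))) (a (a (l 16453832) (l 16456376)) (l 16465080))) (a (b (l 16469000) (l 16483944)) (b (l 16481408) (l 16499152)))) (b (a (b (b (a (l 16470480) (l 16483264)) (a (l 16425960) (l 16480808))) (l 16494984)) (b (b (a (a (l 16493400) (l 16501048)) (b (a (l 16511320) (l 16522520)) (l 16515680))) (a (l 16495480) (l 16515200))) (b (a (l 16561240) (a (l 16511456) (l 16523272))) (l 16531888)))) (a (l 16565264) (b (l 16532880) (l 16555752))))) (a (b (b (l 16573632) (a (l 16523320) (l 16543928))) (b (a (l 16556696) (l 16579080)) (a (l 16593120) (l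 4)))) (b (a (b (l 16546344) (l 16575200)) (b (l 16584288) (l 4))) (l 4)))), by decide +kernel⟩

def k1_mm_202 : ∃ t, chk3 f_mm_202 t 3 2 1 = true :=
  ⟨(b (a (b (a (a (b (b (b (b (a (l 16535488) (l 16543608)) (l 16572576)) (l 16561320)) (l 16540328)) (b (l 16543248) (l 16444864))) (b (b (b (b (a (a (l 16550072) (l 16565184)) (a (l 16570064) (l 16575056))) (a (l 16557720) (l 16567656))) (a (l 16560936) (l 16575016))) (l 16568328)) (b (l 16550792) (l 16578288)))) (b (b (a (b (a (b (b (a (l 16568104) (l 16573112)) (l 16573608)) (l 16577976)) (b (b (a (l 16578176) (l 16583312)) (l 16583896)) (l 16588488))) (a (l 16586384) (l 16597352))) (a (b (b (b (a (l 16588536) (l 16593992)) (l 16594568)) (l 16599424)) (l 16608776)) (b (b (b (a (l 16599896) (l 16606288)) (l 16606536)) (l 16611648)) (l 16600528)))) (a (b (l 16598384) (l 16599464)) (b (l 16627248) (l 16633728)))) (b (a (l 16602624) (l 16637112)) (a (l 16609576) (l 16646376))))) (a (b (a (l 16565232) (l 16657584)) (l 16607200)) (b (b (a (l 16621152) (l 16661968)) (l 4))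 (l 4)))) (b (a (a (b (b (b (b (b (a (a (l 16613152) (l 16620496)) (a (l 16628328) (l 6))) (a (l 16620432) (l 16636240))) (a (l 16625768) (l 16641808))) (a (l 16615120) (l 16610624))) (b (l 16657600) (l 16667472))) (b (l 16672656) (l 16687168))) (b (b (b (a (b (l 6) (l 16659600)) (l 6)) (b (a (l 16667104) (l 6)) (l 16684344))) (b (l 16695072) (l 16701280))) (b (b (l 16707624) (l 4)) (l 4)))) (b (a (b (l 6) (b (l 6) (a (l 16731560) (l 4)))) (l 6)) (l 4))) (l 4))) (l 4)), by decide +kernel⟩

def k2_mm_202 : ∃ t, chk3 f_mm_202 t 1 3 1 = true :=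
  ⟨(a (a (a (b (b (l 16673504) (l 4)) (l 2)) (l 4)) (l 4)) (l 4)), by decide +kernel⟩

theorem s3_mm_202 : ∃ t, chk3 f_mm_202 t 1 2 1 = true := ex3_a k0_mm_202 k1_mm_202

theorem s4_mm_202 : ∃ t, chk3 f_mm_202 t 1 1 1 = true := ex3_b s3_mm_202 k2_mm_202

theorem c_mm_202 : CertB 0 536870912 0 536870912 697932185 42949674 3 eng mog cd0q2 cd4q0 pd2 true false false .pp 2 0 2
    ndB0q2 ndB4q0 pcB2 cut_mm_202 Ext.none :=
  certB0 (fam := true) (s1 := false) (s2 := false) (a := 2) (b := 0) (c := 2) (cn := .pp) (n1 := ndB0q2) (n2 := ndB4q0) (pc := pcB2) (cut := cut_mm_202) (xt := Ext.none) (P1 := 0) (W1 := 536870912) (P2 := 0) (W2 := 536870912) (P3 := 697932185) (W3 := 42949674) (N0 := 3) (En := eng) (mo := mog) (C1 := cd0q2) (C2 := cd4q0) (C3 := pd2)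
    rfl s4_mm_202

noncomputable def f_mm_203 : ℕ → ℕ → ℕ → ℕ → Bool := onCell 0 536870912 1610612736 536870912 697932185 42949674
    (rowB 3 eng mog cd0q2 cd4q0 pd3 1 true false false .up 2 0 3 (qsf 0 536870912 0 536870912 3) ndB0q2 ndB4q0 pcB3 Cut.none Ext.none)

def k0_mm_203 : ∃ t, chk3 f_mm_203 t 1 1 1 = true :=
  ⟨(l 4), by decide +kernel⟩

theorem c_mm_203 : CertB 0 536870912 0 536870912 697932185 42949674 3 eng mog cd0q2 cd4q0 pd3 true false false .up 2 0 3
    ndB0q2 ndB4q0 pcB3 Cut.none Ext.none :=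
  certB1 (fam := true) (s1 := false) (s2 := false) (a := 2) (b := 0) (c := 3) (cn := .up) (n1 := ndB0q2) (n2 := ndB4q0) (pc := pcB3) (cut := Cut.none) (xt := Ext.none) (P1 := 0) (W1 := 536870912) (P2 := 0) (W2 := 536870912) (P3 := 697932185) (W3 := 42949674) (N0 := 3) (En := eng) (mo := mog) (C1 := cd0q2) (C2 := cd4q0) (C3 := pd3)
    rfl (fun _ => rfl) k0_mm_203

noncomputable def f_mm_213 : ℕ → ℕ → ℕ → ℕ → Bool := onCell 0 536870912 536870912 536870912 697932185 42949674
    (rowB 3 eng mog cd0q2 cd4q1 pd3 0 true false false .pnn 2 1 3 (qsf 0 536870912 536870912 536870912 3) ndB0q2 ndB4q1 pcB3 Cut.none Ext.none)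

def k0_mm_213 : ∃ t, chk3 f_mm_213 t 1 1 1 = true :=
  ⟨(l 4), by decide +kernel⟩

theorem c_mm_213 : CertB 0 536870912 536870912 536870912 697932185 42949674 3 eng mog cd0q2 cd4q1 pd3 true false false .pnn 2 1 3
    ndB0q2 ndB4q1 pcB3 Cut.none Ext.none :=
  certB0 (fam := true) (s1 := false) (s2 := false) (a := 2) (b := 1) (c := 3) (cn := .pnn) (n1 := ndB0q2) (n2 := ndB4q1) (pc := pcB3) (cut := Cut.none) (xt := Ext.none) (P1 := 0) (W1 := 536870912) (P2 := 536870912) (W2 := 536870912) (P3 := 697932185) (W3 := 42949674) (N0 := 3) (En := eng) (mo := mog) (C1 := cd0q2) (C2 := cd4q1) (C3 := pd3)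
    rfl k0_mm_213

end Pool.Agent.Strip051.G.I6500_6900.Tab.C.BA04

namespace Pool.Agent.Strip051.G.I6500_6900.Tab.C.BA05

open Pool.Agent.Strip051.PB Pool.Agent.Strip051.PB.T
open Pool.Agent.Strip051.G.I6500_6900.Tab

noncomputable def f_pp_001 : ℕ → ℕ → ℕ → ℕ → Bool := onCell 0 536870912 0 536870912 697932185 42949674
    (rowB 3 eng mog cd0q0 cd5q0 pd1 0 true true true .up 0 0 1 (qsf 0 536870912 0 536870912 1) ndB0q0 ndB5q0 pcB1 Cut.none Ext.none)

def k0_pp_001 : ∃ t, chk3 f_pp_001 t 1 1 1 = true :=
  ⟨(l 4), by decide +kernel⟩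

theorem c_pp_001 : CertB 0 536870912 0 536870912 697932185 42949674 3 eng mog cd0q0 cd5q0 pd1 true true true .up 0 0 1
    ndB0q0 ndB5q0 pcB1 Cut.none Ext.none :=
  certB0 (fam := true) (s1 := true) (s2 := true) (a := 0) (b := 0) (c := 1) (cn := .up) (n1 := ndB0q0) (n2 := ndB5q0) (pc := pcB1) (cut := Cut.none) (xt := Ext.none) (P1 := 0) (W1 := 536870912) (P2 := 0) (W2 := 536870912) (P3 := 697932185) (W3 := 42949674) (N0 := 3) (En := eng) (mo := mog) (C1 := cd0q0) (C2 := cd5q0) (C3 := pd1)
    rfl k0_pp_001

noncomputable def f_pp_011 : ℕ → ℕ → ℕ → ℕ → Bool := onCell 0 536870912 536870912 536870912 697932185 42949674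
    (rowB 3 eng mog cd0q0 cd5q1 pd1 0 true true true .pnn 0 1 1 (qsf 0 536870912 536870912 536870912 1) ndB0q0 ndB5q1 pcB1 Cut.none Ext.none)

def k0_pp_011 : ∃ t, chk3 f_pp_011 t 1 1 1 = true :=
  ⟨(l 4), by decide +kernel⟩

theorem c_pp_011 : CertB 0 536870912 536870912 536870912 697932185 42949674 3 eng mog cd0q0 cd5q1 pd1 true true true .pnn 0 1 1
    ndB0q0 ndB5q1 pcB1 Cut.none Ext.none :=
  certB0 (fam := true) (s1 := true) (s2 := true) (a := 0) (b := 1) (c := 1) (cn := .pnn) (n1 := ndB0q0) (n2 := ndB5q1) (pc := pcB1) (cut := Cut.none) (xt := Ext.none) (P1 := 0) (W1 := 536870912) (P2 := 536870912) (W2 := 536870912) (P3 := 697932185) (W3 := 42949674) (N0 := 3) (En := eng) (mo := mog) (C1 := cd0q0) (C2 := cd5q1) (C3 := pd1)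
    rfl k0_pp_011

noncomputable def f_pp_012 : ℕ → ℕ → ℕ → ℕ → Bool := onCell 0 536870912 536870912 536870912 697932185 42949674
    (rowB 3 eng mog cd0q0 cd5q1 pd2 0 true true true .pnp 0 1 2 (qsf 0 536870912 536870912 536870912 2) ndB0q0 ndB5q1 pcB2 Cut.none Ext.none)

def k0_pp_012 : ∃ t, chk3 f_pp_012 t 1 1 1 = true :=
  ⟨(l 4), by decide +kernel⟩

theorem c_pp_012 : CertB 0 536870912 536870912 536870912 697932185 42949674 3 eng mog cd0q0 cd5q1 pd2 true true true .pnp 0 1 2
    ndB0q0 ndB5q1 pcB2 Cut.none Ext.none :=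
  certB0 (fam := true) (s1 := true) (s2 := true) (a := 0) (b := 1) (c := 2) (cn := .pnp) (n1 := ndB0q0) (n2 := ndB5q1) (pc := pcB2) (cut := Cut.none) (xt := Ext.none) (P1 := 0) (W1 := 536870912) (P2 := 536870912) (W2 := 536870912) (P3 := 697932185) (W3 := 42949674) (N0 := 3) (En := eng) (mo := mog) (C1 := cd0q0) (C2 := cd5q1) (C3 := pd2)
    rfl k0_pp_012

noncomputable def f_pp_022 : ℕ → ℕ → ℕ → ℕ → Bool := onCell 0 536870912 1073741824 536870912 697932185 42949674
    (rowB 3 eng mog cd0q0 cd5q2 pd2 0 true true true .pp 0 2 2 (qsf 0 536870912 1073741824 536870912 2) ndB0q0 ndB5q2 pcB2 Cut.none Ext.none)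

def k0_pp_022 : ∃ t, chk3 f_pp_022 t 1 1 1 = true :=
  ⟨(l 4), by decide +kernel⟩

theorem c_pp_022 : CertB 0 536870912 1073741824 536870912 697932185 42949674 3 eng mog cd0q0 cd5q2 pd2 true true true .pp 0 2 2
    ndB0q0 ndB5q2 pcB2 Cut.none Ext.none :=
  certB0 (fam := true) (s1 := true) (s2 := true) (a := 0) (b := 2) (c := 2) (cn := .pp) (n1 := ndB0q0) (n2 := ndB5q2) (pc := pcB2) (cut := Cut.none) (xt := Ext.none) (P1 := 0) (W1 := 536870912) (P2 := 1073741824) (W2 := 536870912) (P3 := 697932185) (W3 := 42949674) (N0 := 3) (En := eng) (mo := mog) (C1 := cd0q0) (C2 := cd5q2) (C3 := pd2)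
    rfl k0_pp_022

noncomputable def f_pp_023 : ℕ → ℕ → ℕ → ℕ → Bool := onCell 0 536870912 1073741824 536870912 697932185 42949674
    (rowB 3 eng mog cd0q0 cd5q2 pd3 0 true true true .up 0 2 3 (qsf 0 536870912 1073741824 536870912 3) ndB0q0 ndB5q2 pcB3 Cut.none Ext.none)

def k0_pp_023 : ∃ t, chk3 f_pp_023 t 1 1 1 = true :=
  ⟨(l 4), by decide +kernel⟩

theorem c_pp_023 : CertB 0 536870912 1073741824 536870912 697932185 42949674 3 eng mog cd0q0 cd5q2 pd3 true true true .up 0 2 3
    ndB0q0 ndB5q2 pcB3 Cut.none Ext.none :=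
  certB0 (fam := true) (s1 := true) (s2 := true) (a := 0) (b := 2) (c := 3) (cn := .up) (n1 := ndB0q0) (n2 := ndB5q2) (pc := pcB3) (cut := Cut.none) (xt := Ext.none) (P1 := 0) (W1 := 536870912) (P2 := 1073741824) (W2 := 536870912) (P3 := 697932185) (W3 := 42949674) (N0 := 3) (En := eng) (mo := mog) (C1 := cd0q0) (C2 := cd5q2) (C3 := pd3)
    rfl k0_pp_023

noncomputable def f_pp_033 : ℕ → ℕ → ℕ → ℕ → Bool := onCell 0 536870912 0 1230186008 697932185 42949674
    (rowB 3 eng mog cd0q0 cd5q3 pd3 0 true true true .pnn 0 3 3 (qsf 0 536870912 0 1230186008 3) ndB0q0 ndB5q3 pcB3 Cut.none Ext.none)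

def k0_pp_033 : ∃ t, chk3 f_pp_033 t 1 1 1 = true :=
  ⟨(b (l 4) (l 4)), by decide +kernel⟩

theorem c_pp_033 : CertB 0 536870912 0 1230186008 697932185 42949674 3 eng mog cd0q0 cd5q3 pd3 true true true .pnn 0 3 3
    ndB0q0 ndB5q3 pcB3 Cut.none Ext.none :=
  certB0 (fam := true) (s1 := true) (s2 := true) (a := 0) (b := 3) (c := 3) (cn := .pnn) (n1 := ndB0q0) (n2 := ndB5q3) (pc := pcB3) (cut := Cut.none) (xt := Ext.none) (P1 := 0) (W1 := 536870912) (P2 := 0) (W2 := 1230186008) (P3 := 697932185) (W3 := 42949674) (N0 := 3) (En := eng) (mo := mog) (C1 := cd0q0) (C2 := cd5q3) (C3 := pd3)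
    rfl k0_pp_033

noncomputable def f_pp_101 : ℕ → ℕ → ℕ → ℕ → Bool := onCell 536870912 536870912 0 536870912 697932185 42949674
    (rowB 3 eng mog cd0q1 cd5q0 pd1 0 true true true .npn 1 0 1 (qsf 536870912 536870912 0 536870912 1) ndB0q1 ndB5q0 pcB1 Cut.none Ext.none)

def k0_pp_101 : ∃ t, chk3 f_pp_101 t 1 1 1 = true :=
  ⟨(l 4), by decide +kernel⟩

theorem c_pp_101 : CertB 536870912 536870912 0 536870912 697932185 42949674 3 eng mog cd0q1 cd5q0 pd1 true true true .npn 1 0 1
    ndB0q1 ndB5q0 pcB1 Cut.none Ext.none :=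
  certB0 (fam := true) (s1 := true) (s2 := true) (a := 1) (b := 0) (c := 1) (cn := .npn) (n1 := ndB0q1) (n2 := ndB5q0) (pc := pcB1) (cut := Cut.none) (xt := Ext.none) (P1 := 536870912) (W1 := 536870912) (P2 := 0) (W2 := 536870912) (P3 := 697932185) (W3 := 42949674) (N0 := 3) (En := eng) (mo := mog) (C1 := cd0q1) (C2 := cd5q0) (C3 := pd1)
    rfl k0_pp_101

noncomputable def f_pp_102 : ℕ → ℕ → ℕ → ℕ → Bool := onCell 536870912 536870912 0 536870912 697932185 42949674
    (rowB 3 eng mog cd0q1 cd5q0 pd2 0 true true true .npp 1 0 2 (qsf 536870912 536870912 0 536870912 2) ndB0q1 ndB5q0 pcB2 Cut.none Ext.none)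

def k0_pp_102 : ∃ t, chk3 f_pp_102 t 1 1 1 = true :=
  ⟨(l 4), by decide +kernel⟩

theorem c_pp_102 : CertB 536870912 536870912 0 536870912 697932185 42949674 3 eng mog cd0q1 cd5q0 pd2 true true true .npp 1 0 2
    ndB0q1 ndB5q0 pcB2 Cut.none Ext.none :=
  certB0 (fam := true) (s1 := true) (s2 := true) (a := 1) (b := 0) (c := 2) (cn := .npp) (n1 := ndB0q1) (n2 := ndB5q0) (pc := pcB2) (cut := Cut.none) (xt := Ext.none) (P1 := 536870912) (W1 := 536870912) (P2 := 0) (W2 := 536870912) (P3 := 697932185) (W3 := 42949674) (N0 := 3) (En := eng) (mo := mog) (C1 := cd0q1) (C2 := cd5q0) (C3 := pd2)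
    rfl k0_pp_102

noncomputable def f_pp_112 : ℕ → ℕ → ℕ → ℕ → Bool := onCell 536870912 536870912 536870912 536870912 697932185 42949674
    (rowB 3 eng mog cd0q1 cd5q1 pd2 0 true true true .dn 1 1 2 (qsf 536870912 536870912 536870912 536870912 2) ndB0q1 ndB5q1 pcB2 Cut.none Ext.none)

def k0_pp_112 : ∃ t, chk3 f_pp_112 t 1 1 1 = true :=
  ⟨(l 4), by decide +kernel⟩

theorem c_pp_112 : CertB 536870912 536870912 536870912 536870912 697932185 42949674 3 eng mog cd0q1 cd5q1 pd2 true true true .dn 1 1 2
    ndB0q1 ndB5q1 pcB2 Cut.none Ext.none :=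
  certB0 (fam := true) (s1 := true) (s2 := true) (a := 1) (b := 1) (c := 2) (cn := .dn) (n1 := ndB0q1) (n2 := ndB5q1) (pc := pcB2) (cut := Cut.none) (xt := Ext.none) (P1 := 536870912) (W1 := 536870912) (P2 := 536870912) (W2 := 536870912) (P3 := 697932185) (W3 := 42949674) (N0 := 3) (En := eng) (mo := mog) (C1 := cd0q1) (C2 := cd5q1) (C3 := pd2)
    rfl k0_pp_112

noncomputable def f_pp_113 : ℕ → ℕ → ℕ → ℕ → Bool := onCell 536870912 536870912 536870912 536870912 697932185 42949674
    (rowB 3 eng mog cd0q1 cd5q1 pd3 0 true true true .nn 1 1 3 (qsf 536870912 536870912 536870912 536870912 3) ndB0q1 ndB5q1 pcB3 Cut.none Ext.none)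

def k0_pp_113 : ∃ t, chk3 f_pp_113 t 1 1 1 = true :=
  ⟨(l 4), by decide +kernel⟩

theorem c_pp_113 : CertB 536870912 536870912 536870912 536870912 697932185 42949674 3 eng mog cd0q1 cd5q1 pd3 true true true .nn 1 1 3
    ndB0q1 ndB5q1 pcB3 Cut.none Ext.none :=
  certB0 (fam := true) (s1 := true) (s2 := true) (a := 1) (b := 1) (c := 3) (cn := .nn) (n1 := ndB0q1) (n2 := ndB5q1) (pc := pcB3) (cut := Cut.none) (xt := Ext.none) (P1 := 536870912) (W1 := 536870912) (P2 := 536870912) (W2 := 536870912) (P3 := 697932185) (W3 := 42949674) (N0 := 3) (En := eng) (mo := mog) (C1 := cd0q1) (C2 := cd5q1) (C3 := pd3)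
    rfl k0_pp_113

noncomputable def f_pp_123 : ℕ → ℕ → ℕ → ℕ → Bool := onCell 536870912 536870912 1073741824 536870912 697932185 42949674
    (rowB 3 eng mog cd0q1 cd5q2 pd3 0 true true true .npn 1 2 3 (qsf 536870912 536870912 1073741824 536870912 3) ndB0q1 ndB5q2 pcB3 Cut.none Ext.none)

def k0_pp_123 : ∃ t, chk3 f_pp_123 t 1 1 1 = true :=
  ⟨(l 4), by decide +kernel⟩

theorem c_pp_123 : CertB 536870912 536870912 1073741824 536870912 697932185 42949674 3 eng mog cd0q1 cd5q2 pd3 true true true .npn 1 2 3
    ndB0q1 ndB5q2 pcB3 Cut.none Ext.none :=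
  certB0 (fam := true) (s1 := true) (s2 := true) (a := 1) (b := 2) (c := 3) (cn := .npn) (n1 := ndB0q1) (n2 := ndB5q2) (pc := pcB3) (cut := Cut.none) (xt := Ext.none) (P1 := 536870912) (W1 := 536870912) (P2 := 1073741824) (W2 := 536870912) (P3 := 697932185) (W3 := 42949674) (N0 := 3) (En := eng) (mo := mog) (C1 := cd0q1) (C2 := cd5q2) (C3 := pd3)
    rfl k0_pp_123

noncomputable def f_pp_133 : ℕ → ℕ → ℕ → ℕ → Bool := onCell 536870912 536870912 0 1230186008 697932185 42949674
    (rowB 3 eng mog cd0q1 cd5q3 pd3 0 true true true .dn 1 3 3 (qsf 536870912 536870912 0 1230186008 3) ndB0q1 ndB5q3 pcB3 Cut.none Ext.none)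

def k0_pp_133 : ∃ t, chk3 f_pp_133 t 1 1 1 = true :=
  ⟨(l 4), by decide +kernel⟩

theorem c_pp_133 : CertB 536870912 536870912 0 1230186008 697932185 42949674 3 eng mog cd0q1 cd5q3 pd3 true true true .dn 1 3 3
    ndB0q1 ndB5q3 pcB3 Cut.none Ext.none :=
  certB0 (fam := true) (s1 := true) (s2 := true) (a := 1) (b := 3) (c := 3) (cn := .dn) (n1 := ndB0q1) (n2 := ndB5q3) (pc := pcB3) (cut := Cut.none) (xt := Ext.none) (P1 := 536870912) (W1 := 536870912) (P2 := 0) (W2 := 1230186008) (P3 := 697932185) (W3 := 42949674) (N0 := 3) (En := eng) (mo := mog) (C1 := cd0q1) (C2 := cd5q3) (C3 := pd3)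
    rfl k0_pp_133

noncomputable def f_pp_202 : ℕ → ℕ → ℕ → ℕ → Bool := onCell 0 536870912 0 536870912 697932185 42949674
    (rowB 3 eng mog cd0q2 cd5q0 pd2 0 true true true .pp 2 0 2 (qsf 0 536870912 0 536870912 2) ndB0q2 ndB5q0 pcB2 Cut.none Ext.none)

def k0_pp_202 : ∃ t, chk3 f_pp_202 t 1 1 1 = true :=
  ⟨(l 5), by decide +kernel⟩

theorem c_pp_202 : CertB 0 536870912 0 536870912 697932185 42949674 3 eng mog cd0q2 cd5q0 pd2 true true true .pp 2 0 2
    ndB0q2 ndB5q0 pcB2 Cut.none Ext.none :=
  certB0 (fam := true) (s1 := true) (s2 := true) (a := 2) (b := 0) (c := 2) (cn := .pp) (n1 := ndB0q2) (n2 := ndB5q0) (pc := pcB2) (cut := Cut.none) (xt := Ext.none) (P1 := 0) (W1 := 536870912) (P2 := 0) (W2 := 536870912) (P3 := 697932185) (W3 := 42949674) (N0 := 3) (En := eng) (mo := mog) (C1 := cd0q2) (C2 := cd5q0) (C3 := pd2)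
    rfl k0_pp_202

noncomputable def f_pp_203 : ℕ → ℕ → ℕ → ℕ → Bool := onCell 0 536870912 0 536870912 697932185 42949674
    (rowB 3 eng mog cd0q2 cd5q0 pd3 0 true true true .up 2 0 3 (qsf 0 536870912 0 536870912 3) ndB0q2 ndB5q0 pcB3 Cut.none Ext.none)

def k0_pp_203 : ∃ t, chk3 f_pp_203 t 1 1 1 = true :=
  ⟨(l 5), by decide +kernel⟩

theorem c_pp_203 : CertB 0 536870912 0 536870912 697932185 42949674 3 eng mog cd0q2 cd5q0 pd3 true true true .up 2 0 3
    ndB0q2 ndB5q0 pcB3 Cut.none Ext.none :=
  certB0 (fam := true) (s1 := true) (s2 := true) (a := 2) (b := 0) (c := 3) (cn := .up) (n1 := ndB0q2) (n2 := ndB5q0) (pc := pcB3) (cut := Cut.none) (xt := Ext.none) (P1 := 0) (W1 := 536870912) (P2 := 0) (W2 := 536870912) (P3 := 697932185) (W3 := 42949674) (N0 := 3) (En := eng) (mo := mog) (C1 := cd0q2) (C2 := cd5q0) (C3 := pd3)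
    rfl k0_pp_203

noncomputable def f_pp_213 : ℕ → ℕ → ℕ → ℕ → Bool := onCell 0 536870912 536870912 536870912 697932185 42949674
    (rowB 3 eng mog cd0q2 cd5q1 pd3 0 true true true .pnn 2 1 3 (qsf 0 536870912 536870912 536870912 3) ndB0q2 ndB5q1 pcB3 Cut.none Ext.none)

def k0_pp_213 : ∃ t, chk3 f_pp_213 t 1 1 1 = true :=
  ⟨(l 4), by decide +kernel⟩

theorem c_pp_213 : CertB 0 536870912 536870912 536870912 697932185 42949674 3 eng mog cd0q2 cd5q1 pd3 true true true .pnn 2 1 3
    ndB0q2 ndB5q1 pcB3 Cut.none Ext.none :=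
  certB0 (fam := true) (s1 := true) (s2 := true) (a := 2) (b := 1) (c := 3) (cn := .pnn) (n1 := ndB0q2) (n2 := ndB5q1) (pc := pcB3) (cut := Cut.none) (xt := Ext.none) (P1 := 0) (W1 := 536870912) (P2 := 536870912) (W2 := 536870912) (P3 := 697932185) (W3 := 42949674) (N0 := 3) (En := eng) (mo := mog) (C1 := cd0q2) (C2 := cd5q1) (C3 := pd3)
    rfl k0_pp_213

noncomputable def xt_pm_001 : Ext := extD2 3 ⟨7, 3, 3, 10, 49, 25, 3, 4, 67, 200, 3, 16⟩ eng cd0q0 cd5q0 pd1 true true false .up 0 0 1 rfl ndB0q0 ndB5q0 pcB1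

noncomputable def f_pm_001 : ℕ → ℕ → ℕ → ℕ → Bool := onCell 0 536870912 536870912 536870912 697932185 42949674
    (rowB 3 eng mog cd0q0 cd5q0 pd1 1 true true false .up 0 0 1 (qsf 0 536870912 0 536870912 1) ndB0q0 ndB5q0 pcB1 Cut.none xt_pm_001)

def k0_pm_001 : ∃ t, chk3 f_pm_001 t 1 1 1 = true :=
  ⟨(b (l 3) (b (l 3) (a (l 2) (b (l 3) (a (l 2) (b (b (b (l 3) (a (l 2) (a (a (l 3) (c (a (l 175186978423) (l 58149156807)) (l 108078139207))) (a (c (a (l 56538536407) (l 57612271015)) (l 58149126887)) (c (l 592484055374483045782063) (l 58685983271)))))) (a (l 2) (a (a (b (c (a (l 2) (l 50028963575)) (l 44660246311)) (l 2)) (b (c (a (l 16401920) (l 16396560)) (l 16384104)) (c (l 16380360) (l 16365504)))) (b (a (a (c (l 16391640) (l 16376280)) (l 16400696)) (c (l 16382720) (l 16366224))) (a (a (l 16364632) (l 16359544)) (l 16353376)))))) (a (l 2) (a (b (a (l 2) (c (l 16374400) (l 16338736))) (l 2)) (b (a (b (l 16342944) (l 16324600)) (a (l 16325432) (l 16320864))) (a (l 16298240) (l 16285400))))))))))), by decide +kernel⟩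

theorem c_pm_001 : CertB 0 536870912 0 536870912 697932185 42949674 3 eng mog cd0q0 cd5q0 pd1 true true false .up 0 0 1
    ndB0q0 ndB5q0 pcB1 Cut.none xt_pm_001 :=
  certB1 (fam := true) (s1 := true) (s2 := false) (a := 0) (b := 0) (c := 1) (cn := .up) (n1 := ndB0q0) (n2 := ndB5q0) (pc := pcB1) (cut := Cut.none) (xt := xt_pm_001) (P1 := 0) (W1 := 536870912) (P2 := 0) (W2 := 536870912) (P3 := 697932185) (W3 := 42949674) (N0 := 3) (En := eng) (mo := mog) (C1 := cd0q0) (C2 := cd5q0) (C3 := pd1)
    rfl (fun _ => rfl) k0_pm_001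

noncomputable def cut_pm_011 : Cut := Cut.of [[⟨0, 0, 0, 67108864⟩, ⟨1, 1, 0, 67108864⟩, ⟨2, 1, 0, 67108864⟩]]

noncomputable def f_pm_011 : ℕ → ℕ → ℕ → ℕ → Bool := onCell 0 536870912 536870912 536870912 697932185 42949674
    (rowB 3 eng mog cd0q0 cd5q1 pd1 1 true true false .pnn 0 1 1 (qsf 0 536870912 536870912 536870912 1) ndB0q0 ndB5q1 pcB1 cut_pm_011 Ext.none)

def k0_pm_011 : ∃ t, chk3 f_pm_011 t 1 2 1 = true :=
  ⟨(l 3), by decide +kernel⟩

def k1_pm_011 : ∃ t, chk3 f_pm_011 t 1 6 1 = true :=
  ⟨(l 3), by decide +kernel⟩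

def k2_pm_011 : ∃ t, chk3 f_pm_011 t 2 7 1 = true :=
  ⟨(b (l 3) (b (l 3) (b (a (l 3) (b (a (l 3) (a (l 3) (a (l 58149448711) (l 65128737095)))) (a (a (a (l 3) (a (l 16670504) (l 16662040))) (a (l 69423846359) (l 79624358983))) (a (a (l 16614456) (l 16576896)) (a (l 16559928) (l 16542600)))))) (b (a (a (l 3) (b (a (l 3) (b (l 3) (a (l 189146171831) (l 16683640)))) (a (a (a (l 3) (c (b (l 3) (l 16713464)) (l 112373668775))) (a (b (l 3) (l 62444651367)) (b (l 182703726423) (l 16684032)))) (a (c (a (l 16678768) (l 16670272)) (l 16671928)) (l 16677392))))) (a (a (a (b (l 16669392) (l 16640152)) (l 16649520)) (a (l 16633184) (l 16595088))) (a (a (l 16578656) (l 16562224)) (a (l 16545344) (l 16528024))))) (a (a (a (l 6) (a (l 6) (b (a (b (b (l 3) (l 6)) (l 6)) (b (c (c (l 63518438135) (l 16716632)) (l 16715296)) (c (l 16712896) (l 16711080)))) (a (l 6) (b (l 16718400) (l 16703840)))))) (a (a (b (a (c (b (l 16718272) (l 16703680)) (l 16714224)) (c (l 16707184) (l 16694528))) (a (c (l 16708048) (l 16695528)) (l 16697912)))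 (b (c (a (l 16687840) (l 16679120)) (l 16681056)) (c (l 16696232) (l 16672840)))) (a (b (c (l 16666280) (l 16663664)) (l 16677712)) (b (l 16648216) (l 16639992))))) (a (a (a (l 16648816) (l 16612240)) (a (l 16596944) (l 16580488))) (a (a (l 16564120) (l 16547776)) (l 16522352)))))))), by decide +kernel⟩

def k3_pm_011 : ∃ t, chk3 f_pm_011 t 3 7 1 = true :=
  ⟨(b (l 3) (b (b (a (l 3) (a (l 3) (a (b (l 3) (a (l 3) (l 154114766327))) (l 1)))) (b (a (a (l 3) (a (l 3) (a (l 3) (l 3)))) (a (a (a (l 16436128) (l 16422344)) (a (l 16408712) (l 16395064))) (a (a (l 16381456) (l 16367760)) (l 1)))) (a (a (a (l 3) (a (l 3) (l 16523512))) (a (a (l 16505048) (l 16465968)) (a (l 16448776) (l 16433128)))) (a (a (l 16432672) (a (l 16390920) (l 16377112))) (a (a (l 16363336) (l 16349480)) (l 150893437495)))))) (a (a (a (b (b (a (c (l 16541824) (l 16538488)) (l 16522424)) (a (l 16525000) (l 16507376))) (b (a (l 16510376) (l 16492720)) (l 16487224))) (b (b (a (l 16504664) (l 16486680)) (a (l 16489712) (l 16471832))) (a (l 16509784) (b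 (l 16457280) (l 16442976))))) (a (b (b (a (l 16468440) (l 16450392)) (l 16507432)) (b (l 16430008) (l 16415776))) (b (a (l 16446392) (l 16409224)) (l 16408072)))) (a (a (b (l 16437936) (l 16354840)) (b (a (l 16365232) (l 16351000)) (l 16345704))) (b (a (a (l 16336872) (l 16322696)) (a (l 16308304) (l 16294080))) (a (l 16337336) (a (l 16273320) (l 16258768)))))))), by decide +kernel⟩

theorem s4_pm_011 : ∃ t, chk3 f_pm_011 t 1 7 1 = true := ex3_a k2_pm_011 k3_pm_011

theorem s5_pm_011 : ∃ t, chk3 f_pm_011 t 1 3 1 = true := ex3_b k1_pm_011 s4_pm_011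

theorem s6_pm_011 : ∃ t, chk3 f_pm_011 t 1 1 1 = true := ex3_b k0_pm_011 s5_pm_011

theorem c_pm_011 : CertB 0 536870912 536870912 536870912 697932185 42949674 3 eng mog cd0q0 cd5q1 pd1 true true false .pnn 0 1 1
    ndB0q0 ndB5q1 pcB1 cut_pm_011 Ext.none :=
  certB1 (fam := true) (s1 := true) (s2 := false) (a := 0) (b := 1) (c := 1) (cn := .pnn) (n1 := ndB0q0) (n2 := ndB5q1) (pc := pcB1) (cut := cut_pm_011) (xt := Ext.none) (P1 := 0) (W1 := 536870912) (P2 := 536870912) (W2 := 536870912) (P3 := 697932185) (W3 := 42949674) (N0 := 3) (En := eng) (mo := mog) (C1 := cd0q0) (C2 := cd5q1) (C3 := pd1)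
    rfl (fun _ => rfl) s6_pm_011

noncomputable def cut_pm_012 : Cut := Cut.of [[⟨0, 0, 0, 67108864⟩, ⟨1, 1, 0, 67108864⟩, ⟨2, 1, 0, 67108864⟩]]

noncomputable def f_pm_012 : ℕ → ℕ → ℕ → ℕ → Bool := onCell 1073741824 536870912 536870912 536870912 697932185 42949674
    (rowB 3 eng mog cd0q0 cd5q1 pd2 2 true true false .pnp 0 1 2 (qsf 0 536870912 536870912 536870912 2) ndB0q0 ndB5q1 pcB2 cut_pm_012 Ext.none)

def k0_pm_012 : ∃ t, chk3 f_pm_012 t 4 2 1 = true :=
  ⟨(b (a (b (a (b (a (b (l 16220432) (l 16235336)) (l 16198408)) (a (b (l 16250456) (l 16265712)) (l 16228152))) (b (l 16213344) (l 16201120))) (a (b (a (l 16309584) (l 16279952)) (a (l 16382632) (l 16290104))) (b (l 16209992) (l 16241984)))) (b (a (b (l 2) (l 16116856)) (l 2)) (a (b (l 16156824) (l 16193040)) (b (l 16110208) (l 16142648))))) (a (b (a (b (a (l 16352904) (l 16322184)) (b (l 16427648) (l 16445608))) (b (l 16279648) (a (l 16327600) (l 16297360)))) (a (a (b (b (l 16417160) (l 16435344)) (a (l 16490480) (l 16454352))) (b (l 16391648) (l 16445656)))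 (b (b (l 16333880) (l 16410048)) (b (l 16465568) (l 16479080))))) (b (a (b (l 16224640) (l 16252672)) (b (l 16254784) (l 16236528))) (a (b (a (l 16291992) (l 16260584)) (a (l 16312832) (l 16278952))) (b (l 16214912) (a (l 16246216) (l 16214584))))))), by decide +kernel⟩

def k1_pm_012 : ∃ t, chk3 f_pm_012 t 8 3 1 = true :=
  ⟨(b (b (a (a (b (b (l 16489080) (l 16506920)) (b (l 16524248) (a (l 16547688) (l 16533064)))) (b (l 16457168) (l 16488392))) (a (b (l 16498648) (b (l 16435496) (l 16448736))) (b (l 16415608) (l 16418544)))) (a (b (a (a (b (l 16564296) (l 16559272)) (l 16558536)) (b (l 16512464) (l 16529592))) (a (a (b (l 16595112) (l 16610720)) (l 16588448)) (l 16578736))) (b (a (b (l 16462232) (l 16477592)) (l 16483496)) (a (b (l 16495064) (l 16533360)) (b (l 16442832) (l 16458624)))))) (b (a (a (b (a (a (b (l 16630680) (l 16647592)) (b (l 16623336) (l 16640152))) (b (l 16612208) (l 16628856))) (b (a (a (l 16686016) (l 16657480)) (l 16646000)) (a (a (b (l 16678536) (l 16708696)) (l 16675400)) (l 16663704)))) (b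 (c (l 16634104) (l 16612096)) (a (l 16657248) (l 16607344)))) (b (b (a (l 16549576) (l 16474176)) (a (l 16564616) (l 16488560))) (b (a (l 16599648) (l 16501712)) (a (a (l 16585184) (l 16556416)) (l 16513832))))) (a (b (a (b (a (a (a (b (l 16699064) (l 6)) (l 16710440)) (b (l 16689264) (l 16698784))) (a (l 16686032) (l 16678016))) (a (l 6) (b (l 16696336) (l 6)))) (a (b (l 16657072) (a (l 16677232) (l 16683064))) (b (l 16648240) (b (l 16636496) (l 16642320))))) (a (l 6) (b (a (l 6) (b (l 16647848) (l 6))) (l 6)))) (b (a (b (a (l 16597720) (l 16568392)) (a (b (l 16606520) (l 16612128)) (l 16579480))) (b (l 16545904) (a (l 16549880) (l 16520560)))) (b (a (a (b (l 16617448) (l 16622472)) (b (l 16587192) (l 16592000))) (a (b (l 16557168) (l 16561752)) (l 16529624))) (a (b (a (l 6) (l 16596512)) (l 6)) (b (a (l 16566048) (l 16535800)) (a (b (l 16569072) (l 6)) (l 16560536))))))))), by decide +kernel⟩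

def k2_pm_012 : ∃ t, chk3 f_pm_012 t 9 3 1 = true :=
  ⟨(b (b (b (a (a (l 16333960) (l 16295656)) (a (l 16259056) (l 16225128))) (a (a (l 16354144) (l 16312400)) (a (l 16272360) (l 16234048)))) (b (a (a (l 16415696) (l 16328720)) (a (l 16285176) (l 16243576))) (a (a (l 16462616) (l 16349832)) (a (l 16303176) (l 16258488))))) (b (a (b (a (b (l 16420352) (l 16434088)) (l 16416208)) (a (b (l 16446600) (l 16457832)) (b (l 16392192) (l 16402776)))) (b (a (l 16386304) (l 16294840)) (a (b (l 16338536) (l 16348456)) (b (l 16286552) (l 16294896))))) (b (a (a (b (l 16467992) (l 16498056)) (b (l 16412040) (l 16441152))) (a (b (l 16357048) (l 16364264)) (b (l 16302768) (l 16309256)))) (a (b (a (b (l 16483312) (l 16487184)) (b (l 16425520) (l 16428816))) (a (b (a (l 16505744) (l 16475984)) (a (l 16509280) (l 16479232))) (b (l 16452840) (a (l 16449480) (l 16419992))))) (b (a (b (l 16368896) (l 16371624)) (a (l 16328296) (l 16300560))) (a (b (l 16374048) (l 16412960)) (a (l 16332376) (l 16304088)))))))), by decide +kernel⟩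

def k3_pm_012 : ∃ t, chk3 f_pm_012 t 5 2 1 = true :=
  ⟨(b (a (b (l 2) (a (a (b (l 2) (l 16104952)) (l 2)) (l 2))) (l 2)) (a (b (a (a (l 16289152) (a (l 16123032) (b (l 16105416) (l 16125000)))) (a (l 16261704) (l 16080552))) (a (a (l 16261808) (a (l 16156440) (a (l 16146536) (l 16142528)))) (b (l 16109136) (l 16118160)))) (b (a (b (l 2) (l 16079696)) (l 2)) (a (b (l 16084912) (l 16085928)) (l 16151408))))), by decide +kernel⟩

def k4_pm_012 : ∃ t, chk3 f_pm_012 t 5 6 1 = true :=
  ⟨(a (b (a (a (b (l 16192808) (l 16197856)) (a (b (l 16169784) (l 16173064)) (b (l 16158120) (a (l 16161160) (l 16154848))))) (b (l 16122536) (a (l 16135144) (l 16108136)))) (a (a (b (l 16204008) (l 16215512)) (a (b (l 16175640) (l 16185232)) (b (a (l 16162248) (l 16154512)) (a (l 16170336) (l 16181744))))) (b (a (l 16132408) (l 16102024)) (a (l 16136736) (l 16101200))))) (b (a (b (l 16082688) (l 16075000)) (b (l 16052528) (l 16037416))) (b (a (l 16083984) (l 16019024)) (a (a (l 16069224) (l 16041056)) (l 16003544))))), by decide +kernel⟩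

def k5_pm_012 : ∃ t, chk3 f_pm_012 t 5 7 1 = true :=
  ⟨(a (b (b (a (a (l 16248632) (a (l 16194384) (a (l 16178216) (a (l 16170200) (l 16164856))))) (a (l 16141408) (l 16101888))) (a (a (b (l 16236408) (l 16242976)) (a (l 16202840) (a (l 16184864) (a (l 16175816) (l 16169592))))) (a (b (l 16143976) (l 16144984)) (l 16101208)))) (b (a (a (b (l 16249176) (l 16254832)) (a (l 16254144) (a (l 16192288) (a (l 16182040) (b (l 16173272) (l 16175880)))))) (a (b (l 16146160) (l 16147632)) (b (l 16099104) (l 16097696)))) (a (a (b (l 16280016) (a (l 16275968) (l 16247968))) (a (b (l 16217816) (l 16219800)) (a (b (l 16196920) (l 16198376)) (a (b (l 16185944) (l 16187008)) (b (l 16177960) (c (l 16192224) (l 16164592))))))) (a (b (a (l 16161464) (l 16135720)) (a (l 16161896) (l 16135568))) (b (l 16096504) (b (l 16095160) (l 16094128))))))) (b (b (a (a (l 16065264) (l 16031496)) (a (l 16000824) (l 15973976))) (a (b (l 16042432) (l 16080176)) (a (l 15986528) (l 15954424)))) (b (a (b (a (l 16054688) (l 16013288)) (a (l 16050432) (l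 16006824))) (b (a (l 15975072) (l 15939440)) (a (l 15966304) (l 15929040)))) (a (b (a (l 16046200) (l 15999792)) (a (b (l 16042984) (l 16040912)) (b (l 15994496) (l 15990944)))) (b (a (l 15957104) (l 15917576)) (a (b (l 15949744) (l 15986760)) (c (l 15929928) (l 15881000)))))))), by decide +kernel⟩

def k6_pm_012 : ∃ t, chk3 f_pm_012 t 3 1 1 = true :=
  ⟨(b (a (b (l 2) (a (b (l 2) (a (l 16057504) (l 2))) (l 2))) (l 2)) (b (a (a (a (b (l 16124872) (b (l 15983160) (l 15961848))) (b (l 16003024) (b (l 15956112) (l 15928512)))) (b (a (l 15996120) (l 2)) (b (a (l 15939048) (l 15932688)) (a (l 15905176) (l 15892536))))) (a (b (l 2) (b (l 2) (l 16021016))) (l 2))) (a (b (a (b (a (l 16001512) (l 15899696)) (a (b (l 15919344) (l 15905752)) (b (l 15875864) (l 15859024)))) (b (a (l 15870136) (l 15851496)) (a (l 15832400) (l 15807440)))) (a (b (a (a (l 15900912) (l 15891920)) (b (l 15841440) (l 15823144))) (a (b (a (l 15881368) (l 15848048)) (a (b (l 15870912) (l 15863608)) (l 15832200))) (b (a (l 15818232) (l 15791824)) (a (b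 (l 15804832) (l 15795760)) (l 15771784))))) (b (a (b (l 15802056) (l 15780752)) (l 15802760)) (a (b (a (l 15768872) (l 15748960)) (a (l 15746776) (l 15725192))) (b (a (l 15731640) (l 15716768)) (a (l 15706552) (l 15690496))))))) (a (b (b (a (l 15844224) (l 15849312)) (a (l 15794392) (l 15793336))) (b (a (l 15741232) (l 15734600)) (a (b (l 15699768) (a (l 15676920) (l 15666328))) (b (l 15688080) (l 15698176))))) (b (a (b (l 2) (l 15805368)) (l 2)) (b (a (l 15740464) (l 15759872)) (a (b (l 15690072) (l 15654984)) (b (l 15705656) (l 15667776))))))))), by decide +kernel⟩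

theorem s7_pm_012 : ∃ t, chk3 f_pm_012 t 5 3 1 = true := ex3_b k4_pm_012 k5_pm_012

theorem s8_pm_012 : ∃ t, chk3 f_pm_012 t 5 1 1 = true := ex3_b k3_pm_012 s7_pm_012

theorem s9_pm_012 : ∃ t, chk3 f_pm_012 t 4 3 1 = true := ex3_a k1_pm_012 k2_pm_012

theorem s10_pm_012 : ∃ t, chk3 f_pm_012 t 4 1 1 = true := ex3_b k0_pm_012 s9_pm_012

theorem s11_pm_012 : ∃ t, chk3 f_pm_012 t 2 1 1 = true := ex3_a s10_pm_012 s8_pm_012

theorem s12_pm_012 : ∃ t, chk3 f_pm_012 t 1 1 1 = true := ex3_a s11_pm_012 k6_pm_012

theorem c_pm_012 : CertB 0 536870912 536870912 536870912 697932185 42949674 3 eng mog cd0q0 cd5q1 pd2 true true false .pnp 0 1 2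
    ndB0q0 ndB5q1 pcB2 cut_pm_012 Ext.none :=
  certB2 (fam := true) (s1 := true) (s2 := false) (a := 0) (b := 1) (c := 2) (cn := .pnp) (n1 := ndB0q0) (n2 := ndB5q1) (pc := pcB2) (cut := cut_pm_012) (xt := Ext.none) (P1 := 0) (W1 := 536870912) (P2 := 536870912) (W2 := 536870912) (P3 := 697932185) (W3 := 42949674) (N0 := 3) (En := eng) (mo := mog) (C1 := cd0q0) (C2 := cd5q1) (C3 := pd2)
    rfl (fun _ => rfl) s12_pm_012

end Pool.Agent.Strip051.G.I6500_6900.Tab.C.BA05

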